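import Mathlib
import Pool.Agent.Q103.SD.NFHeight

/-!
# The abc inequality at the points composed of numbers with small digits, over all number fields

Let `K` be a number field and `t` an integer of `K` all of whose conjugates are at least `T` in
absolute value (the base). The values `q i = F i (t)` of polynomials over the integers of `K` are
numbers with the digits `(F i).coeff j` in base `t`. Let the total number of digits be bounded, all
conjugates of all digits at most `T ^ δ`, those of the first digits at least `T ^ (-δ)` and those of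
the last digits at most `1` (the last digits are zero or roots of unity), and let the `q i` be
pairwise coprime. We prove the abc inequality `h(P) + (1 - ε) log |N(t)| / d ≤ rad(P)` for all points
`P = (x 0 : x 1 : x 2)` with `x 0 + x 1 + x 2 = 0` whose coordinates are products of the `q i`, with
exponents at most `T ^ δ`, and of small integers of `K`, if the product of the `q i` with different
exponents in the coordinates is squarefree. The constants `δ` and the bound for `T` depend on `ε` and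
on the number of digits, but not on `K` or its degree.
-/

set_option autoImplicit false

namespace Pool.Agent.Results.MP_a793bb_nt.SmallDigitPoints

open Polynomial NumberField IsDedekindDomain

section Defs

variable {K : Type} [Field K] [NumberField K]

/-- The height `h(P)` of the point `P` with the coordinates `x`. -/
noncomputable def h (x : Fin 3 → 𝓞 K) : ℝ :=
  Height.logHeight (fun k => (x k : K)) / Module.finrank ℚ K

/-- The radical `rad(P)` of the point `P` with the coordinates `x`: the sum of `log N(v)` over the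
primes `v` at which the valuations of the coordinates are not all equal, divided by the degree. -/
noncomputable def rad (x : Fin 3 → 𝓞 K) : ℝ :=
  (∑ᶠ v ∈ {v : HeightOneSpectrum (𝓞 K) | ∃ k k', v.valuation K (x k : K) ≠ v.valuation K (x k' : K)},
    Real.log (Ideal.absNorm v.asIdeal : ℝ)) / Module.finrank ℚ K

/-- `log |N(y)| / d` -/
noncomputable def logN (y : 𝓞 K) : ℝ :=
  Real.log |((Algebra.norm ℚ (y : K) : ℚ) : ℝ)| / Module.finrank ℚ K

/-- The conditions on the base `t`, the polynomials `F i` (the numbers `F i (t)` with small digits),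
the coefficients `a k` and the exponents `e k i`. -/
structure Small (D : ℕ) (δ T : ℝ) {n : ℕ} (t : 𝓞 K) (F : Fin n → (𝓞 K)[X]) (a : Fin 3 → 𝓞 K)
    (e : Fin 3 → Fin n → ℕ) : Prop where
  /-- all conjugates of the base are at least `T` -/
  base : ∀ σ : K →+* ℂ, T ≤ ‖σ t‖
  /-- at least two digits -/
  two_digits : ∀ i, 0 < (F i).natDegree
  /-- bounded number of digits -/
  number : ∑ i, (F i).natDegree ≤ D
  /-- all conjugates of the digits are at most `T ^ δ` -/
  digits : ∀ i j, ∀ σ : K →+* ℂ, ‖σ ((F i).coeff j)‖ ≤ T ^ δ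
  /-- all conjugates of the first digits are at least `T ^ (-δ)` -/
  first : ∀ i, ∀ σ : K →+* ℂ, T ^ (-δ) ≤ ‖σ (F i).leadingCoeff‖
  /-- all conjugates of the last digits are at most `1` (zero or roots of unity) -/
  last : ∀ i, ∀ σ : K →+* ℂ, ‖σ ((F i).coeff 0)‖ ≤ 1
  /-- the numbers are pairwise coprime -/
  coprime : ∀ i j, i ≠ j → IsCoprime ((F i).eval t) ((F j).eval t)
  /-- the coefficients are nonzero integers -/
  ne_zero : ∀ k, a k ≠ 0
  /-- all conjugates of the coefficients are at most `T ^ δ` -/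
  coefficients : ∀ k, ∀ σ : K →+* ℂ, ‖σ (a k)‖ ≤ T ^ δ
  /-- the exponents are at most `T ^ δ` -/
  exponents : ∀ k, ((∑ i, e k i : ℕ) : ℝ) ≤ T ^ δ

/-- The coordinates `a k * ∏ i, F i (t) ^ e k i`. -/
noncomputable def point {n : ℕ} (t : 𝓞 K) (F : Fin n → (𝓞 K)[X]) (a : Fin 3 → 𝓞 K)
    (e : Fin 3 → Fin n → ℕ) (k : Fin 3) : 𝓞 K := a k * ∏ i, (F i).eval t ^ e k i

/-- The indices whose exponents in the three coordinates are not all equal. -/
def unequal {n : ℕ} (e : Fin 3 → Fin n → ℕ) : Finset (Fin n) :=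
  Finset.univ.filter (fun i => ¬ (e 0 i = e 1 i ∧ e 1 i = e 2 i))

end Defs

section

variable {K : Type} [Field K] [NumberField K]

open Pool.Agent.Q103.SD Pool.Agent.Q103.SD.NF

private theorem choose_delta (D : ℕ) (ε : ℝ) (hε : 0 < ε) : ∃ δ : ℝ, 0 < δ ∧ 6 * δ ≤ ε ∧
    ∃ T₀ : ℝ, 1 ≤ T₀ ∧ ∀ T : ℝ, T₀ ≤ T →
      1 ≤ T ^ δ ∧ 3 * T ^ δ * (T ^ δ * T ^ δ) ^ (JJ D 3) < T ∧
      4 * (T ^ δ) ^ 2 + (T ^ δ) ^ (4 * D + 2) ≤ T ∧ (2 * T ^ δ) ^ (2 * D + 1) ≤ T ^ (ε / 2) := by
  obtain ⟨J, hJ⟩ : ∃ J, J = JJ D 3 := ⟨_, rfl⟩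
  rw [← hJ]
  obtain ⟨A, hA⟩ : ∃ A : ℝ, A = 2 * J + 1 + (4 * D + 2) := ⟨_, rfl⟩
  obtain ⟨A', hA'⟩ : ∃ A' : ℝ, A' = 2 * D + 2 := ⟨_, rfl⟩
  have hJ0 : (0 : ℝ) ≤ J := Nat.cast_nonneg _
  have hD0 : (0 : ℝ) ≤ D := Nat.cast_nonneg _
  have hA0 : 0 < A := by rw [hA]; positivity
  have hA'0 : 0 < A' := by rw [hA']; positivity
  obtain ⟨δ, hδ⟩ : ∃ δ : ℝ, δ = min (1 / (2 * A)) (ε / (8 * A')) := ⟨_, rfl⟩
  have hδ0 : 0 < δ := by
    rw [hδ]
    exact lt_min (by positivity) (by positivity)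
  have hδ1 : δ * A ≤ 1 / 2 := by
    have h1 : δ ≤ 1 / (2 * A) := by rw [hδ]; exact min_le_left _ _
    calc δ * A ≤ 1 / (2 * A) * A := mul_le_mul_of_nonneg_right h1 hA0.le
      _ = 1 / 2 := by field_simp
  have hδ2 : δ * A' ≤ ε / 8 := by
    have h1 : δ ≤ ε / (8 * A') := by rw [hδ]; exact min_le_right _ _
    calc δ * A' ≤ ε / (8 * A') * A' := mul_le_mul_of_nonneg_right h1 hA'0.le
      _ = ε / 8 := by field_simp
  obtain ⟨x₀, hx₀⟩ := Filter.eventually_atTop.mp
    ((tendsto_rpow_atTop (show 0 < ε / 4 by positivity)).eventually_ge_atTop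
      ((2 : ℝ) ^ (2 * D + 1)))
  refine ⟨δ, hδ0, by rw [hA'] at hδ2; nlinarith, max x₀ 25,
    le_max_of_le_right (by norm_num), ?_⟩
  intro T hT
  have hT1 : 25 ≤ T := (le_max_right _ _).trans hT
  have hT0 : 0 < T := by linarith
  have hx := hx₀ T ((le_max_left _ _).trans hT)
  obtain ⟨r, hr⟩ : ∃ r : ℝ, r = T ^ (1 / 2 : ℝ) := ⟨_, rfl⟩
  have hrr : r * r = T := by
    rw [hr, ← Real.rpow_add hT0]
    norm_num
  have hr0 : 0 < r := by rw [hr]; positivity
  have hr5 : 5 ≤ r := by nlinarith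
  have hpow : ∀ m : ℕ, δ * m ≤ 1 / 2 → (T ^ δ) ^ m ≤ r := by
    intro m hm
    rw [← Real.rpow_mul_natCast hT0.le, hr]
    exact Real.rpow_le_rpow_of_exponent_le (by linarith) hm
  have hle : ∀ m : ℝ, m ≤ A → δ * m ≤ 1 / 2 := fun m hm =>
    (mul_le_mul_of_nonneg_left hm hδ0.le).trans hδ1
  have h1 : 1 ≤ T ^ δ := Real.one_le_rpow (by linarith) hδ0.le
  refine ⟨h1, ?_, ?_, ?_⟩
  · have h2 : (T ^ δ) ^ (2 * J + 1) ≤ r := hpow _ (hle _ (by rw [hA]; push_cast; linarith))
    calc 3 * T ^ δ * (T ^ δ * T ^ δ) ^ J = 3 * (T ^ δ) ^ (2 * J + 1) := by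
          rw [← pow_two, ← pow_mul]
          ring
      _ ≤ 3 * r := by linarith
      _ < T := by nlinarith
  · have h2 : (T ^ δ) ^ 2 ≤ r := hpow _ (hle _ (by rw [hA]; push_cast; linarith))
    have h3 : (T ^ δ) ^ (4 * D + 2) ≤ r := hpow _ (hle _ (by rw [hA]; push_cast; linarith))
    nlinarith
  · have h2 : (T ^ δ) ^ (2 * D + 1) ≤ T ^ (ε / 4) := by
      rw [← Real.rpow_mul_natCast hT0.le]
      apply Real.rpow_le_rpow_of_exponent_le (by linarith)
      have h3 : δ * ((2 * D + 1 : ℕ) : ℝ) ≤ δ * A' := by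
        apply mul_le_mul_of_nonneg_left _ hδ0.le
        rw [hA']
        push_cast
        linarith
      linarith
    calc (2 * T ^ δ) ^ (2 * D + 1) = 2 ^ (2 * D + 1) * (T ^ δ) ^ (2 * D + 1) := mul_pow _ _ _
      _ ≤ T ^ (ε / 4) * T ^ (ε / 4) := mul_le_mul hx h2 (by positivity) (by positivity)
      _ = T ^ (ε / 2) := by rw [← Real.rpow_add hT0]; congr 1; ring

/-- **The abc inequality at the points composed of numbers with small digits.** The constants do not
depend on the number field or its degree. -/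
theorem result (D : ℕ) (ε : ℝ) (hε : 0 < ε) : ∃ δ : ℝ, 0 < δ ∧ ∃ T₀ : ℝ, 1 ≤ T₀ ∧
    ∀ T : ℝ, T₀ ≤ T → ∀ (K : Type) [Field K] [NumberField K] (n : ℕ) (t : 𝓞 K)
      (F : Fin n → (𝓞 K)[X]) (a : Fin 3 → 𝓞 K) (e : Fin 3 → Fin n → ℕ), Small D δ T t F a e →
      point t F a e 0 + point t F a e 1 + point t F a e 2 = 0 → (unequal e).Nonempty →
      h (point t F a e) + (1 - ε) * logN t ≤ logN (∏ i ∈ unequal e, (F i).eval t) ∧
      (Squarefree (Ideal.span {∏ i ∈ unequal e, (F i).eval t}) →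
        h (point t F a e) + (1 - ε) * logN t ≤ rad (point t F a e)) := by
  classical
  obtain ⟨δ, hδ, hδε, T₀, hT₀, hT⟩ := choose_delta D ε hε
  refine ⟨δ, hδ, T₀, hT₀, ?_⟩
  intro T hTT K _ _ n t F a e hS hsum hU
  obtain ⟨hB, hT1, hT2, hT3⟩ := hT T hTT
  have hT1' : 1 ≤ T := hT₀.trans hTT
  have hT0 : 0 < T := by linarith
  obtain ⟨B, hBd⟩ : ∃ B : ℝ, B = T ^ δ := ⟨_, rfl⟩
  obtain ⟨m, hm⟩ : ∃ m : Fin n → ℕ, ∀ i, m i = min (e 0 i) (min (e 1 i) (e 2 i)) :=
    ⟨_, fun i => rfl⟩
  have hm0 : ∀ k i, m i ≤ e k i := by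
    intro k i
    rw [hm i]
    fin_cases k
    · exact min_le_left _ _
    · exact (min_le_right _ _).trans (min_le_left _ _)
    · exact (min_le_right _ _).trans (min_le_right _ _)
  obtain ⟨l, hl⟩ : ∃ l : Fin 3 → Fin n → ℕ, ∀ k i, l k i = e k i - m i := ⟨_, fun k i => rfl⟩
  have hle : ∀ k, ((∑ i, l k i : ℕ) : ℝ) ≤ B := by
    intro k
    rw [hBd]
    refine le_trans ?_ (hS.exponents k)
    have : ∑ i, l k i ≤ ∑ i, e k i := Finset.sum_le_sum fun i _ => by rw [hl]; omega
    exact_mod_cast this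
  have hDK : DataK T B D t F (a 0) (a 1) (-(a 2)) (l 0) (l 1) (l 2) := by
    rw [← hBd] at hB
    refine ⟨hS.base, hS.two_digits, hS.number, ?_, hS.last, ?_, hS.ne_zero 0, hS.ne_zero 1,
      neg_ne_zero.mpr (hS.ne_zero 2), ?_, ?_, ?_, hle 0, hle 1, hle 2⟩
    · rw [hBd]; exact hS.digits
    · intro i σ
      have h1 := hS.first i σ
      have h2 : B * T ^ (-δ) = 1 := by
        rw [hBd, ← Real.rpow_add hT0]
        simp
      rw [← h2]
      exact mul_le_mul_of_nonneg_left h1 (by linarith)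
    · rw [hBd]; exact hS.coefficients 0
    · rw [hBd]; exact hS.coefficients 1
    · intro σ
      rw [hBd]
      have := hS.coefficients 2 σ
      simpa using this
  rw [← hBd] at hB hT1 hT2 hT3
  have hT4 : 4 * B ^ 2 ≤ T := by
    have : 0 ≤ B ^ (4 * D + 2) := by positivity
    linarith
  have hval : ∀ i, (F i).eval t ≠ 0 := value_ne hDK hB hT4
  have ht0 : t ≠ 0 := by
    rintro rfl
    obtain ⟨σ⟩ : Nonempty (K →+* ℂ) := inferInstance
    have h1 := hS.base σ
    simp at h1
    linarith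
  obtain ⟨g, hg⟩ : ∃ g : 𝓞 K, g = ∏ i, (F i).eval t ^ m i := ⟨_, rfl⟩
  have hg0 : g ≠ 0 := by
    rw [hg]
    exact Finset.prod_ne_zero_iff.mpr fun i _ => pow_ne_zero _ (hval i)
  obtain ⟨x, hx⟩ : ∃ x : Fin 3 → 𝓞 K, ∀ k, x k = a k * ∏ i, (F i).eval t ^ l k i :=
    ⟨_, fun k => rfl⟩
  have hxg : ∀ k, point t F a e k = g * x k := by
    intro k
    unfold point
    rw [hg, hx k, mul_left_comm, ← Finset.prod_mul_distrib]
    congr 1
    apply Finset.prod_congr rfl
    intro i _
    rw [← pow_add, hl]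
    congr 1
    have := hm0 k i
    omega
  have hx0 : ∀ k, x k ≠ 0 := by
    intro k
    rw [hx k]
    exact mul_ne_zero (hS.ne_zero k) (Finset.prod_ne_zero_iff.mpr fun i _ => pow_ne_zero _ (hval i))
  have hxsum : x 0 + x 1 = -(x 2) := by
    rw [hxg 0, hxg 1, hxg 2] at hsum
    have h1 : g * (x 0 + x 1 + x 2) = 0 := by
      rw [← hsum]
      ring
    rcases mul_eq_zero.mp h1 with h2 | h2
    · exact absurd h2 hg0
    · linear_combination h2
  have e0 : (PP F (a 0) (l 0)).eval t = x 0 := by rw [eval_PP, hx]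
  have e1 : (PP F (a 1) (l 1)).eval t = x 1 := by rw [eval_PP, hx]
  have e2 : (PP F (-(a 2)) (l 2)).eval t = -(x 2) := by rw [eval_PP, hx, neg_mul]
  have hmin : ∀ i, l 0 i = 0 ∨ l 1 i = 0 ∨ l 2 i = 0 := by
    intro i
    have h1 := hm i
    rw [hl, hl, hl]
    have h2 := hm0 0 i
    have h3 := hm0 1 i
    have h4 := hm0 2 i
    omega
  have hused : Deg.used (l 0) (l 1) (l 2) = unequal e := by
    ext i
    unfold Deg.used unequal
    rw [Finset.mem_filter, Finset.mem_filter]
    apply and_congr_right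
    intro _
    have h1 := hm i
    rw [hl, hl, hl]
    have h2 := hm0 0 i
    have h3 := hm0 1 i
    have h4 := hm0 2 i
    omega
  obtain ⟨Q, hQ⟩ : ∃ Q : 𝓞 K, Q = ∏ i ∈ unequal e, (F i).eval t := ⟨_, rfl⟩
  have hQ0 : Q ≠ 0 := by rw [hQ]; exact Finset.prod_ne_zero_iff.mpr fun i _ => hval i
  have hsig : ∀ (σ : K →+* ℂ) (k : Fin 3), ‖σ (x k)‖ * ‖σ t‖ ≤
      (2 * B) ^ (2 * D + 1) * ‖σ (Q : 𝓞 K)‖ := by
    intro σ k
    have h1 := fun y => pair_sigma hDK hB hT1 hT2 hS.coprime hmin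
      (by rw [e0, e1, e2]; exact hxsum) (by rw [hused]; exact hU) σ y
    rw [e0, e1, e2, hused, ← hQ] at h1
    fin_cases k
    · exact h1 _ (Or.inl rfl)
    · exact h1 _ (Or.inr (Or.inl rfl))
    · have h2 := h1 _ (Or.inr (Or.inr rfl))
      have h3 : ‖σ ((-(x 2) : 𝓞 K) : K)‖ = ‖σ (x 2)‖ := by
        rw [← norm_neg (σ (x 2)), ← map_neg]
        rfl
      rw [h3] at h2
      exact h2
  have hw : ∀ (w : InfinitePlace K) (k : Fin 3),
      w (x k : K) * w (t : K) ^ (1 - ε / 2) ≤ w (Q : K) := by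
    intro w k
    have h1 := hsig w.embedding k
    have h2 : T ≤ w (t : K) := by
      rw [← InfinitePlace.norm_embedding_eq]
      exact hS.base w.embedding
    rw [InfinitePlace.norm_embedding_eq, InfinitePlace.norm_embedding_eq,
      InfinitePlace.norm_embedding_eq] at h1
    have h3 : 0 < w (t : K) := by linarith
    have h4 : (2 * B) ^ (2 * D + 1) ≤ w (t : K) ^ (ε / 2) :=
      hT3.trans (Real.rpow_le_rpow hT0.le h2 (by positivity))
    have h5 : w (t : K) = w (t : K) ^ (1 - ε / 2) * w (t : K) ^ (ε / 2) := by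
      rw [← Real.rpow_add h3]
      have : 1 - ε / 2 + ε / 2 = 1 := by ring
      rw [this, Real.rpow_one]
    have h6 : 0 < w (t : K) ^ (ε / 2) := Real.rpow_pos_of_pos h3 _
    have h7 : w (t : K) ^ (ε / 2) * (w (x k : K) * w (t : K) ^ (1 - ε / 2)) ≤
        w (t : K) ^ (ε / 2) * w (Q : K) := by
      calc w (t : K) ^ (ε / 2) * (w (x k : K) * w (t : K) ^ (1 - ε / 2))
          = w (x k : K) * (w (t : K) ^ (1 - ε / 2) * w (t : K) ^ (ε / 2)) := by ring
        _ = w (x k : K) * w (t : K) := by rw [← h5]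
        _ ≤ (2 * B) ^ (2 * D + 1) * w (Q : K) := h1
        _ ≤ _ := mul_le_mul_of_nonneg_right h4 (apply_nonneg _ _)
    exact le_of_mul_le_mul_left h7 h6
  have hd : (0 : ℝ) < Module.finrank ℚ K := by exact_mod_cast Module.finrank_pos
  have hheight := logHeight_le hx0 ht0 hQ0 hw
  have hsame : Height.logHeight (fun k => (point t F a e k : K)) =
      Height.logHeight (fun k => (x k : K)) := by
    have h1 : (fun k => (point t F a e k : K)) = (g : K) • (fun k => (x k : K)) := by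
      funext k
      rw [hxg k]
      simp
    rw [h1]
    exact Height.logHeight_smul_eq_logHeight _ (RingOfIntegers.coe_ne_zero_iff.mpr hg0)
  rw [← hsame] at hheight
  obtain ⟨Nt, hNt⟩ : ∃ y, y = Real.log |((Algebra.norm ℚ (t : K) : ℚ) : ℝ)| := ⟨_, rfl⟩
  obtain ⟨NQ, hNQ⟩ : ∃ y, y = Real.log |((Algebra.norm ℚ (Q : K) : ℚ) : ℝ)| := ⟨_, rfl⟩
  rw [← hNt, ← hNQ] at hheight
  have hlogT : 0 ≤ Real.log T := Real.log_nonneg hT1'
  have hNt1 : Module.finrank ℚ K * Real.log T ≤ Nt := by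
    rw [hNt, ← log_norm t ht0, ← InfinitePlace.sum_mult_eq]
    push_cast
    rw [Finset.sum_mul]
    apply Finset.sum_le_sum
    intro w _
    apply mul_le_mul_of_nonneg_left _ (Nat.cast_nonneg _)
    apply Real.log_le_log hT0
    rw [← InfinitePlace.norm_embedding_eq]
    exact hS.base w.embedding
  have hNt0 : 0 ≤ Nt := le_trans (by positivity) hNt1
  unfold h logN rad
  rw [← hQ, ← hNt, ← hNQ]
  constructor
  · rw [← mul_div_assoc, ← add_div]
    apply div_le_div_of_nonneg_right _ hd.le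
    nlinarith
  · intro hsq
    have h1 := le_rad hS.coprime hval hS.ne_zero e (U := unequal e) (by
      intro i hi
      unfold unequal at hi
      rw [Finset.mem_filter] at hi
      by_contra hcon
      push Not at hcon
      exact hi.2 ⟨hcon 0 1, hcon 1 2⟩) (by rw [← hQ]; exact hsq)
    rw [← hQ, ← hNQ] at h1
    have hA : ∏ k, a k ≠ 0 := Finset.prod_ne_zero_iff.mpr fun k _ => hS.ne_zero k
    have h2 : Real.log |((Algebra.norm ℚ ((∏ k, a k : 𝓞 K) : K) : ℚ) : ℝ)| ≤
        3 * δ * (Module.finrank ℚ K * Real.log T) := by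
      rw [← log_norm _ hA, ← InfinitePlace.sum_mult_eq]
      push_cast
      rw [Finset.sum_mul, Finset.mul_sum]
      apply Finset.sum_le_sum
      intro w _
      have h3 : w (((∏ k, a k : 𝓞 K)) : K) ≤ T ^ (3 * δ) := by
        have h4 : ∀ k, w (a k : K) ≤ T ^ δ := by
          intro k
          rw [← InfinitePlace.norm_embedding_eq]
          exact hS.coefficients k w.embedding
        have h5 : w (((∏ k, a k : 𝓞 K)) : K) = w (a 0 : K) * w (a 1 : K) * w (a 2 : K) := by
          rw [Fin.prod_univ_three]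
          push_cast
          rw [map_mul, map_mul]
        rw [h5]
        calc w (a 0 : K) * w (a 1 : K) * w (a 2 : K) ≤ T ^ δ * T ^ δ * T ^ δ := by
              apply mul_le_mul _ (h4 2) (apply_nonneg _ _) (by positivity)
              exact mul_le_mul (h4 0) (h4 1) (apply_nonneg _ _) (by positivity)
          _ = T ^ (3 * δ) := by
              rw [← Real.rpow_add hT0, ← Real.rpow_add hT0]
              congr 1
              ring
      have h6 := Real.log_le_log (InfinitePlace.pos_iff.mpr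
        (RingOfIntegers.coe_ne_zero_iff.mpr hA)) h3
      rw [Real.log_rpow hT0] at h6
      push_cast at h6
      have h7 : (0 : ℝ) ≤ w.mult := Nat.cast_nonneg _
      calc (w.mult : ℝ) * Real.log (w (∏ k, (a k : K))) ≤ w.mult * (3 * δ * Real.log T) :=
            mul_le_mul_of_nonneg_left h6 h7
        _ = _ := by ring
    rw [← mul_div_assoc, ← add_div]
    apply div_le_div_of_nonneg_right _ hd.le
    have h8 : 3 * δ * (Module.finrank ℚ K * Real.log T) ≤ ε / 2 * Nt := by
      calc 3 * δ * (Module.finrank ℚ K * Real.log T) ≤ 3 * δ * Nt :=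
            mul_le_mul_of_nonneg_left hNt1 (by positivity)
        _ ≤ ε / 2 * Nt := mul_le_mul_of_nonneg_right (by linarith) hNt0
    have h9 : NQ ≤ (∑ᶠ v ∈ {v : HeightOneSpectrum (𝓞 K) | ∃ k k',
        v.valuation K (point t F a e k : K) ≠ v.valuation K (point t F a e k' : K)},
        Real.log (Ideal.absNorm v.asIdeal : ℝ)) +
        Real.log |((Algebra.norm ℚ ((∏ k, a k : 𝓞 K) : K) : ℚ) : ℝ)| := h1
    linarith

end

end Pool.Agent.Results.MP_a793bb_nt.SmallDigitPoints
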