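import Pool.Agent.Q50.LI.Dim

/-!
# The Tate conjecture for all powers of a variety: independence of `ℓ`

Let `X` be a smooth projective variety of dimension `d` over a number field. Suppose that for one
prime `ℓ₀` the action of the Galois group on the cohomology of `X` is semisimple and the Tate
conjecture holds for all powers of `X`. Then for every prime `ℓ` the Tate conjecture holds for all
powers of `X` if and only if it holds in codimension `d` on `X × X`, and if and only if the space of
the `ℓ`-adic Tate classes of codimension `d` on `X × X` is not larger than the space of the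
`ℓ₀`-adic ones. The action on the `ℓ`-adic cohomology need not be semisimple.
-/

open CategoryTheory AlgebraicGeometry

universe u w

namespace Pool.Agent.Results.MP_021685_ag.IndependenceOfEll

open Pool.Agent.H914
open Pool.Agent.Q55 (GaloisAction)
open Pool.Agent.Q60.TD (SemisimpleAt)
open Pool.Agent.Y133.Half (pw)
open Pool.Agent.Q50.MTC (IsLadic IsTate IsAlg)
open Pool.Agent.Q50.LI (Artin FrobeniusElements tateDim)

variable {k : Type u} [Field k] {𝒱 : VarClass k} {ops : CycleOps 𝒱}
  {W E₀ E : WeilCohomology.{u, 0} ops} [Algebra W.K E₀.K] [Algebra W.K E.K] [Algebra E₀.K ℂ]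
  [Algebra E.K ℂ] {Γ : Type w} [Group Γ] [TopologicalSpace Γ] {G₀ : GaloisAction E₀ Γ}
  {G : GaloisAction E Γ}

/-- **The independence of `ℓ` of the Tate conjecture for all powers.** Let `W` be the cohomology
with rational coefficients (`hrat`), let `E₀` be the `ℓ₀`-adic and `E` the `ℓ`-adic cohomology, with
the actions `G₀` and `G` of the Galois group `Γ`, and let `A₀` and `A` be Artin's comparison maps.
Let `X` be a variety of dimension `d` for which the actions are `ℓ₀`-adic and `ℓ`-adic (`hX₀`,
`hX`), and suppose that there are Frobenius elements (`hF`): this is the trace formula, and Serre's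
theorem that for many places the Zariski closure of the group generated by the Frobenius element is
a maximal torus of the `ℓ₀`-adic monodromy group. Suppose that the action on the `ℓ₀`-adic
cohomology of `X` is semisimple (`hss₀`) and that all `ℓ₀`-adic Tate classes on all powers of `X`
are algebraic (`hTC₀`). Then the following are equivalent: all `ℓ`-adic Tate classes on all powers
`X ^ (n + 1)` are algebraic; all `ℓ`-adic Tate classes of codimension `d` on `X ^ 2` are algebraic;
the dimension of the space of `ℓ`-adic Tate classes of codimension `d` on `X ^ 2` is at most the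
dimension of the space of the `ℓ₀`-adic ones. -/
theorem result (hrat : ∀ r : W.K, ∃ q : ℚ, (q : W.K) = r) (A₀ : Artin W E₀) (A : Artin W E)
    {ℓ₀ ℓ : ℕ} [Fact ℓ₀.Prime] [Fact ℓ.Prime] (e₀ : E₀.K ≃+* ℚ_[ℓ₀]) (e : E.K ≃+* ℚ_[ℓ])
    (X : 𝒱.Obj) (hX₀ : IsLadic (G₀.ρ X) G₀.χ e₀) (hX : IsLadic (G.ρ X) G.χ e)
    (hF : FrobeniusElements G₀ G X) (hss₀ : ∀ i, SemisimpleAt G₀ X i)
    (hTC₀ : ∀ n j c, IsTate G₀ (pw X n) j c → IsAlg E₀ (pw X n) j c) :
    [∀ n j c, IsTate G (pw X n) j c → IsAlg E (pw X n) j c,
      ∀ c, IsTate G (pw X 1) X.dim c → IsAlg E (pw X 1) X.dim c,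
      tateDim G (pw X 1) X.dim ≤ tateDim G₀ (pw X 1) X.dim].TFAE :=
  Pool.Agent.Q50.LI.main hrat A₀ A hX₀ hX hss₀ hF hTC₀

end Pool.Agent.Results.MP_021685_ag.IndependenceOfEll
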