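import Pool.Agent.Q57.SP.Fin

/-!
# Cycles on a reduction and the cycles which lift: a specialization law

Let `K` be a number field (or a field which is finitely generated over its prime field), `X` a smooth
projective variety over `K` with good reduction `X_v` at a place (a point) `v`, and `ℓ` a prime number
different from the residue characteristic. The specialization of cycles maps the algebraic cycles on
the power `X^n`, over the algebraic closure of `K`, to algebraic cycles on `X_v^n`. We prove
unconditionally:

* the quotient of the dimension of the space spanned by the `ℓ`-adic classes of the algebraic cycles on
  `X_v^n` (over the algebraic closure of the residue field), and of the rank of the group of the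
  algebraic cycles on `X^n` modulo numerical equivalence, tends to an element `N ≥ 1` of `ℕ ∪ {∞}`;
* `N = 1` if and only if for all `n` homological and numerical equivalence agree on `X^n` and all
  algebraic classes on `X_v^n` are linear combinations of specializations of classes of cycles on `X^n`;
* if `N` is finite (that is, the cycles which lift do not have asymptotic proportion zero among the
  cycles on the powers of `X_v`), then homological and numerical equivalence agree on all powers of `X`;
  ALL algebraic classes on all powers of `X_v` correspond to Tate classes on the powers of `X` (they are
  fixed by a subgroup of finite index of the Galois group of `K`); they are generated by the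
  specializations of cycles and at most `N - 1` of them, under specializations of algebraic
  correspondences; and the Frobenius element of `v` commutes with the elements of a subgroup of finite
  index of the Galois group of `K` on `H(X)`.

So if the Frobenius element of `v` does not commute on `H(X)` with any subgroup of finite index of the
Galois group, or more generally if the class of some cycle on some power of `X_v` is not a Tate class of
the corresponding power of `X`, then the cycles which lift have asymptotic proportion zero among the
cycles on the powers of `X_v`. No conjecture is assumed.

The theorem is proved for a Weil cohomology theory `W` on an arbitrary class of smooth projective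
varieties which is stable under products, with an action of a group `Γ` which has the formal properties
of the action of the Galois group, and a specialization to another class of varieties.
-/

open CategoryTheory AlgebraicGeometry

universe u v u₀ v₀ w

namespace Pool.Agent.Results.MP_021685_ag.SpecializationLaw

open Pool.Agent.H914 Pool.Agent.H914.WeilCohomology
open Pool.Agent.Y133.Half (pw HasIndex algDim cycRank GeneratedOver)
open Pool.Agent.Q55 (GaloisAction IsTate)
open Pool.Agent.Q57.SP

variable {k : Type u} [Field k] {𝒱 : VarClass k} {ops : CycleOps 𝒱}
  {k₀ : Type u₀} [Field k₀] {𝒱₀ : VarClass k₀} {ops₀ : CycleOps 𝒱₀}
  {W : WeilCohomology.{u, v} ops} {W₀ : WeilCohomology.{u₀, v₀} ops₀}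

/-- **The specialization law.** `pw X n` is the product of `n + 1` copies of `X`, and `S.o` is the
reduction. -/
theorem result (S : Specialization W W₀) {Γ : Type w} [Group Γ] (G : GaloisAction W Γ)
    (X : 𝒱.Obj) [Nontrivial (W.H X)] :
    ∃ N : ℕ∞, 1 ≤ N ∧
      HasIndex (fun n => algDim W₀ (S.o (pw X n))) (fun n => cycRank ops (pw X n)) N ∧
      (N = 1 ↔ ∀ n, (∀ j c, IsAlgOn S (pw X n) j c → c ∈ spanCycles W (pw X n) j) ∧
        HomEqNum W (pw X n)) ∧
      (N ≠ ⊤ → (∀ n, HomEqNum W (pw X n)) ∧
        (∀ n j c, IsAlgOn S (pw X n) j c → IsTate G (pw X n) j c) ∧
        GeneratedOver W (fun Z j c => c ∈ spanCycles W Z j) (IsAlgOn S) X N ∧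
        ∀ h, ActsByCycle S G X h → VirtuallyCentral (G.ρ X) h) :=
  spec_law S G X

end Pool.Agent.Results.MP_021685_ag.SpecializationLaw
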