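import Pool.Agent.Q273.CH.Aff2

set_option autoImplicit false

/-!
# The numbers all of whose dilates lie in long prime gaps: large intersections and sums

`f(x) = log x (log₂ x)² log₄ x / (log₃ x)²` is the size of the longest known prime gaps and
`Far H y` says that every prime is at a distance greater than `H` from the real number `y`.

Let `x_n > 0` with `R_n = x_(n+1) / x_n → ∞` and let `ψ(n) → 0`, arbitrarily slowly.  Let
`S = AllFar x ψ` be the set of the real numbers `α` such that every prime is at a distance greater than
`ψ(n) f(R_n)` from `α x_(n+1)`, for ALL large `n`.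

1. (Large intersections.) Let `λ_i, t_i`, `i ∈ ι`, be countably many real numbers such that every finite
   subfamily of the `λ_i` satisfies some Diophantine condition together with `1`; the `t_i` are
   arbitrary.  Then the set of the `α > 0` in any interval with `α ∈ S` and `λ_i α + t_i ∈ S` for ALL
   `i` has Hausdorff dimension one.
2. The condition holds for `λ_i = b_i e^(w_i)` with algebraic `b_i` and natural numbers `w_i` if `1` and
   the `λ_i` are linearly independent over `ℚ`: for instance for the square roots of all primes, or for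
   all powers of `e`.
3. (Sums.) For every positive algebraic irrational `λ` every real number `t > 0` is
   `t = α + λ β` with `α, β > 0` in `S`, and the set of these `α` has Hausdorff dimension one.

Input: the uniform form of `MP_f9960f_nt.SeveralRealMultiples` (starting library,
`Pool.Agent.Y961.JR.linear_uniform`): windows of length `Z` contain integers finitely many given linear
functions of which lie in record gaps.
-/

namespace Pool.Agent.Results.MP_028722_nt.LargeIntersections

open Filter Topology
open Pool.Agent.Q273.CH (f Far Dioph AllFar)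

theorem result (x ψ : ℕ → ℝ) (hx : ∀ n, 0 < x n)
    (hR : Tendsto (fun n => x (n + 1) / x n) atTop atTop) (hψ : Tendsto ψ atTop (𝓝 0)) :
    (∀ (ι : Type) [Countable ι] [Nonempty ι] (lam t : ι → ℝ), Dioph lam →
      ∀ u v : ℝ, 0 < v → u < v →
      dimH {α : ℝ | 0 < α ∧ u < α ∧ α < v ∧ α ∈ AllFar x ψ ∧ ∀ i, lam i * α + t i ∈ AllFar x ψ} = 1) ∧
    (∀ (ι : Type) (b : ι → ℝ) (w : ι → ℕ), (∀ i, IsAlgebraic ℚ (b i)) →
      LinearIndependent ℚ (fun o : Option ι => o.elim (1 : ℝ) (fun i => b i * Real.exp (w i))) →
      Dioph (fun i => b i * Real.exp (w i))) ∧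
    (∀ lam : ℝ, 0 < lam → IsAlgebraic ℚ lam → Irrational lam → ∀ t : ℝ, 0 < t →
      dimH {α : ℝ | ∃ β : ℝ, 0 < α ∧ 0 < β ∧ α ∈ AllFar x ψ ∧ β ∈ AllFar x ψ ∧
        t = α + lam * β} = 1) :=
  ⟨fun ι _ _ lam t hd u v hv huv => Pool.Agent.Q273.CH.aff_dim lam t hd x hx hR ψ hψ u v hv huv,
    fun ι b w hb hli => Pool.Agent.Q273.CH.dioph_alg b hb w hli,
    fun lam h1 h2 h3 t ht => Pool.Agent.Q273.CH.sum_dim lam h1 h2 h3 x hx hR ψ hψ t ht⟩

end Pool.Agent.Results.MP_028722_nt.LargeIntersections
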