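import Mathlib
import Pool.Agent.Q263.PL.Win

/-!
# Cramér's model along the integers with restricted digits: the Poisson law for almost primes

Cramér's conjecture comes from the model in which the number of the primes in `(n, n + T]`,
`T = λ log n`, has the Poisson distribution with the mean `λ`. For primes nothing like this is
known. For almost primes, the integers without prime factors `≤ y`, we show that it holds along
arbitrary sparse sets of starting points with restricted digits.

Fix a base `b ≥ 2`. For `k ≥ 1` choose for every position `i < k` a set `D i` of at least two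
digits, in any way (the sets may depend on the position and on `k`), and let `S` be the set of the
integers `0 ≤ n < b ^ k` whose `i`-th digit is in `D i` for every `i`; it may have only `2 ^ k`
elements. Put `V(y) = ∏_{p ≤ y} (1 - 1 / p)`. For all `Λ` and `ε > 0` there are `L`, `y₀`, `k₀`,
which depend on `b`, `Λ` and `ε` only, such that for all `k ≥ k₀`, all choices of the sets of
digits, all `y ≥ y₀` with `y ^ L ≤ b ^ k`, all `T` with the mean `x = T V(y) ≤ Λ` and all finite
sets `A`:

the proportion of the `n ∈ S` for which the number of the integers in `(n, n + T]` without prime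
factors `≤ y` belongs to `A` differs from `∑_{j ∈ A} exp(-x) x ^ j / j!` by at most `ε`.

One can take `y = b ^ ⌊k / L⌋`; then `T` has the order `k`, that is `log (b ^ k)`, and the integers
counted have a bounded number of prime factors. For `A = {0}` the gap after `n` is longer than
`T` for the proportion `exp(-x)` of the `n ∈ S`, up to `ε`.

Idea of the proof: binomial moments, in each residue class modulo the small primes. The moments
are given by the fundamental lemma of the sieve for restricted digits in a fixed residue class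
(`Pool.Agent.Q263.SW`), and the average of the products over the sets of shifts is as in Gallagher's
theorem.
-/

set_option autoImplicit false

namespace Pool.Agent.Results.MP_028722_nt.PoissonAlongDigits

open Finset

/-- The integers `0 ≤ n < b ^ k` whose `i`-th digit in base `b` belongs to `D i`, for all `i < k`. -/
def Restricted (b k : ℕ) (D : Fin k → Finset ℕ) : Finset ℕ :=
  (Finset.range (b ^ k)).filter (fun n => ∀ i : Fin k, n / b ^ (i : ℕ) % b ∈ D i)

/-- Each `D i` is a set of at least two digits. -/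
def DigitSets (b k : ℕ) (D : Fin k → Finset ℕ) : Prop :=
  ∀ i, (∀ d ∈ D i, d < b) ∧ 2 ≤ (D i).card

/-- The product of `1 - 1 / p` over the primes `p ≤ y`. -/
noncomputable def V (y : ℕ) : ℝ := ∏ p ∈ (Finset.Icc 1 y).filter Nat.Prime, (1 - 1 / (p : ℝ))

open Classical in
/-- The number of the integers in `(n, n + T]` without prime factors `≤ y`. -/
noncomputable def rough (y T n : ℕ) : ℕ :=
  ((Finset.Ioc n (n + T)).filter (fun m => ∀ p : ℕ, p.Prime → p ≤ y → ¬ p ∣ m)).card

/-- The measure of `A` for the Poisson distribution with the mean `x`. -/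
noncomputable def poisson (x : ℝ) (A : Finset ℕ) : ℝ :=
  ∑ j ∈ A, Real.exp (-x) * x ^ j / (j.factorial : ℝ)

open Pool.Agent.H373R2.T7 Pool.Agent.W123.RP Pool.Agent.W123.RU Pool.Agent.TH464.PO

/-- divisibility -/
def Qd (p n : ℕ) : Prop := p ∣ n

lemma nuB_Qd (p : ℕ) (hp : 0 < p) : nuB Qd p = 1 := by
  classical
  unfold nuB
  have h : (range p).filter (fun r => Qd p r) = {0} := by
    ext r
    rw [mem_filter, mem_range, mem_singleton]
    unfold Qd
    constructor
    · rintro ⟨h1, h2⟩
      exact Nat.eq_zero_of_dvd_of_lt h2 h1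
    · rintro rfl
      exact ⟨hp, dvd_zero p⟩
  rw [h, card_singleton]

lemma perB_Qd : PerB Qd 1 :=
  ⟨fun p n => by unfold Qd; exact (Nat.dvd_mod_iff dvd_rfl).symm, fun p hp => (nuB_Qd p hp.pos).le⟩

lemma V_eq (y : ℕ) : Vq Qd y = V y := by
  unfold Vq V
  apply Finset.prod_congr rfl
  intro p hp
  rw [nuB_Qd p (mem_pz.1 hp).2.pos, Nat.cast_one]

lemma rough_eq (y T n : ℕ) : Nw Qd y T n = rough y T n := by
  classical
  unfold Nw rough
  apply Finset.card_bij (fun h _ => n + h)
  · intro h hh
    rw [mem_filter, mem_Icc] at hh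
    rw [mem_filter, mem_Ioc]
    refine ⟨by omega, fun p hp hpy => hh.2 p (mem_pz.2 ⟨hpy, hp⟩)⟩
  · intro a _ c _ hac
    omega
  · intro m hm
    rw [mem_filter, mem_Ioc] at hm
    refine ⟨m - n, ?_, by omega⟩
    rw [mem_filter, mem_Icc, show n + (m - n) = m by omega]
    exact ⟨by omega, fun p hp => hm.2 p (mem_pz.1 hp).2 (mem_pz.1 hp).1⟩

open Classical in
theorem result : ∀ b : ℕ, 2 ≤ b → ∀ Λ ε : ℝ, 0 < ε →
    ∃ L y₀ k₀ : ℕ, 1 ≤ L ∧ ∀ k : ℕ, k₀ ≤ k → ∀ D : Fin k → Finset ℕ, DigitSets b k D →
      ∀ y : ℕ, y₀ ≤ y → y ^ L ≤ b ^ k → ∀ T : ℕ, T * V y ≤ Λ → ∀ A : Finset ℕ,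
      |(((Restricted b k D).filter (fun n => rough y T n ∈ A)).card : ℝ) -
        (Restricted b k D).card * poisson (T * V y) A| ≤ ε * (Restricted b k D).card := by
  intro b hb Λ ε hε
  obtain ⟨L, k₀, T0, w, η', κ, hL, hη', hκ, hmain⟩ := Pool.Agent.Q263.PL.law_win hb 1 Λ ε hε
  obtain ⟨cl, cu, hcl, hcu, hVz⟩ := Vz_bounds
  obtain ⟨y1, hy1⟩ : ∃ y1 : ℕ, Real.exp (cu * (T0 + 1) / κ) ≤ y1 := exists_nat_ge _
  refine ⟨L, max (max w 2) y1, k₀, hL, ?_⟩
  intro k hk D hD y hy hyL T hT A
  have hyw : w ≤ y := by omega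
  have hy2 : 2 ≤ y := by omega
  have hy1' : (y1 : ℝ) ≤ y := by exact_mod_cast (by omega : y1 ≤ y)
  have hlog : cu * (T0 + 1) / κ ≤ Real.log y := by
    have h1 : Real.exp (cu * (T0 + 1) / κ) ≤ y := hy1.trans hy1'
    have h2 := Real.log_le_log (Real.exp_pos _) h1
    rwa [Real.log_exp] at h2
  have hlog0 : 0 < Real.log y := lt_of_lt_of_le (by positivity) hlog
  have hVz' : Vq Qd y ≤ cu / Real.log y := by
    rw [V_eq]
    exact (hVz y hy2).2
  have hVsmall : (T0 + 1) * Vq Qd y ≤ κ := by
    have h1 : ((T0 : ℝ) + 1) * Vq Qd y ≤ (T0 + 1) * (cu / Real.log y) :=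
      mul_le_mul_of_nonneg_left hVz' (by positivity)
    refine h1.trans ?_
    rw [← mul_div_assoc, div_le_iff₀ hlog0]
    rw [div_le_iff₀ hκ] at hlog
    linarith
  have hVq0 : 0 < Vq Qd y := Vq_pos Qd (fun p hp => by rw [nuB_Qd p hp.pos]; exact hp.one_lt) y
  have hVκ : Vq Qd y ≤ κ := by
    have h1 : (0 : ℝ) ≤ T0 * Vq Qd y := by positivity
    linarith
  have h := hmain k hk D (fun i => (hD i).1) (fun i => (hD i).2) y Qd hyL perB_Qd
    (fun p hp => by rw [nuB_Qd p hp.pos]; exact hp.one_lt) hyw hVκ (by
      intro T' h1 _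
      refine ⟨?_, ?_⟩
      · by_contra hlt
        rw [not_le] at hlt
        have h2 : (T' : ℝ) * Vq Qd y < (T0 + 1) * Vq Qd y := by
          apply mul_lt_mul_of_pos_right _ hVq0
          have : (T' : ℝ) < T0 := by exact_mod_cast hlt
          linarith
        linarith
      · intro t ht
        have h2 : (pz y).filter (fun p : ℕ => T' < p ∧ CoG Qd p t) = ∅ := by
          rw [filter_eq_empty_iff]
          rintro p hp ⟨h3, m, h4, h5⟩
          rw [mem_Icc] at ht
          unfold Qd at h4 h5
          have h6 := Nat.le_of_dvd (by omega) ((Nat.dvd_add_right h4).1 h5)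
          omega
        rw [h2, card_empty, Nat.cast_zero]
        positivity) T (by rw [V_eq]; exact hT) A
  have e1 : (Pool.Agent.Q263.MD.Dig b k D).filter (fun n => Nw Qd y T n ∈ A) =
      (Restricted b k D).filter (fun n => rough y T n ∈ A) := by
    apply Finset.filter_congr
    intro n _
    rw [rough_eq]
  rw [e1, V_eq] at h
  exact h

end Pool.Agent.Results.MP_028722_nt.PoissonAlongDigits
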