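import Pool.Agent.Q92.PA.Red2

/-!
# The parity conjecture for semistable elliptic curves: descent from extension fields

`E` is a semistable elliptic curve over a number field `K`, and `F` runs through finite extensions of
`K`; no condition on the ramification of `F/K`.  The root number of `E/F` is `(-1)^(m+u)`, `m` the number
of the primes of `F` of split multiplicative reduction and `u` the number of archimedean places of `F`.
-/

set_option autoImplicit false

namespace Pool.Agent.Results.MP_02f36d_nt.ParityDescent

open NumberField IsDedekindDomain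

section defs
variable {F : Type} [Field F] [NumberField F]

/-- `E` has split multiplicative reduction at `w`: the reduction modulo `w` of an equation `V` of `E` with
integral coefficients has a node `(x, y)` (a singular point, and `c₄ ≠ 0`), and the slope `t` of a
tangent at the node is in the residue field. -/
def SplitAt (E : WeierstrassCurve F) (w : HeightOneSpectrum (𝓞 F)) : Prop :=
  ∃ V : WeierstrassCurve (𝓞 F),
    (∃ C : WeierstrassCurve.VariableChange F, C • E = V.map (algebraMap (𝓞 F) F)) ∧
    V.c₄ ∉ w.asIdeal ∧ ∃ x y t : 𝓞 F,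
    y ^ 2 + V.a₁ * x * y + V.a₃ * y - (x ^ 3 + V.a₂ * x ^ 2 + V.a₄ * x + V.a₆) ∈ w.asIdeal ∧
    2 * y + V.a₁ * x + V.a₃ ∈ w.asIdeal ∧
    V.a₁ * y - (3 * x ^ 2 + 2 * V.a₂ * x + V.a₄) ∈ w.asIdeal ∧
    t ^ 2 + V.a₁ * t - (V.a₂ + 3 * x) ∈ w.asIdeal

/-- `E` has good or multiplicative reduction at all primes. -/
def Semistable (E : WeierstrassCurve F) : Prop :=
  ∀ w : HeightOneSpectrum (𝓞 F), ∃ V : WeierstrassCurve (𝓞 F),
    (∃ C : WeierstrassCurve.VariableChange F, C • E = V.map (algebraMap (𝓞 F) F)) ∧
    (V.Δ ∉ w.asIdeal ∨ V.c₄ ∉ w.asIdeal)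

/-- The rank of the group `E(F)`. -/
noncomputable def rank (E : WeierstrassCurve F) : ℕ := by
  classical
  exact Module.finrank ℤ E.toAffine.Point

/-- `m + u`: the number of the primes of split multiplicative reduction, plus the number of the
archimedean places. -/
noncomputable def places (E : WeierstrassCurve F) : ℕ :=
  Nat.card {w : HeightOneSpectrum (𝓞 F) // SplitAt E w} + Nat.card (InfinitePlace F)

/-- The parity conjecture for the semistable curve `E` over `F`. -/
def Parity (E : WeierstrassCurve F) : Prop := (-1 : ℤ) ^ rank E = (-1) ^ places E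

end defs

/-- The number of the embeddings of `F` in the algebraic closure of `K` that are fixed by `σ`. -/
noncomputable def fix (K F : Type) [Field K] [Field F] [Algebra K F]
    (σ : Gal(AlgebraicClosure K/K)) : ℕ :=
  Nat.card {i : F →ₐ[K] AlgebraicClosure K // ∀ x, σ (i x) = i x}

/-- `F` is generated over `K` by finitely many `p`-th roots of positive integers all of whose prime
factors belong to `T`, and `p ^ k` divides the degree of `F/K`. -/
def TestField (T : Set ℕ) (p k : ℕ) (K F : Type) [Field K] [Field F] [Algebra K F] : Prop :=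
  (∃ S : Set F, S.Finite ∧
    (∀ x ∈ S, ∃ c : ℕ, c ≠ 0 ∧ (∀ l : ℕ, l.Prime → l ∣ c → l ∈ T) ∧ x ^ p = (c : F)) ∧
    IntermediateField.adjoin K S = ⊤) ∧
  p ^ k ∣ Module.finrank K F

/-- The group `G` has a cyclic normal subgroup of odd order with quotient a 2-group, and it has no
proper normal subgroup of odd index. -/
def TwoType (G : Type) [Group G] : Prop :=
  (∃ C : Subgroup G, C.Normal ∧ IsCyclic C ∧ Odd (Nat.card C) ∧ ∀ g : G, ∃ k : ℕ, g ^ 2 ^ k ∈ C) ∧
    ∀ B : Subgroup G, B.Normal → Odd B.index → B = ⊤

section laws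
variable {K : Type} [Field K] [NumberField K]

/-- Part 1: in a relation between permutation characters with constant value `m`, the same relation holds
for the numbers rank + `m` + `u` of `E`. -/
def RelationLaw (E : WeierstrassCurve K) : Prop :=
  ∀ (ι : Type) [Fintype ι] (F : ι → Type) [∀ j, Field (F j)] [∀ j, NumberField (F j)]
    [∀ j, Algebra K (F j)] (n : ι → ℤ) (m : ℤ),
    (∀ σ : Gal(AlgebraicClosure K/K), ∑ j, n j * (fix K (F j) σ : ℤ) = m) →
    ∑ j, n j * (rank (E.map (algebraMap K (F j))) + places (E.map (algebraMap K (F j))) : ℤ) =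
      m * (rank E + places E : ℤ)

/-- Part 2: the degrees. -/
def DegreeLaw (E : WeierstrassCurve K) : Prop :=
  ∀ M : ℕ, (∀ (F : Type) [Field F] [NumberField F] [Algebra K F], M ∣ Module.finrank K F →
      Parity (E.map (algebraMap K F))) →
    ∀ (F : Type) [Field F] [NumberField F] [Algebra K F],
      Odd (M / M.gcd (Module.finrank K F)) → Parity (E.map (algebraMap K F))

/-- Part 3: the test fields of an odd prime. -/
def RadicalLaw (E : WeierstrassCurve K) : Prop :=
  ∀ (p k : ℕ) (T : Set ℕ), p.Prime → p ≠ 2 → (∀ l ∈ T, l.Prime) → T.Infinite →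
    (∀ (F : Type) [Field F] [NumberField F] [Algebra K F], TestField T p k K F →
      Parity (E.map (algebraMap K F))) → Parity E

/-- A family of finite extensions of `K`, closed under isomorphisms and composita, such that every `σ`
fixes an odd number of the embeddings of some field of the family. -/
def OddFamily (𝓕 : Set (IntermediateField K (AlgebraicClosure K))) : Prop :=
  (∀ F ∈ 𝓕, FiniteDimensional K F) ∧
  (∀ F ∈ 𝓕, ∀ F' : IntermediateField K (AlgebraicClosure K), Nonempty (F ≃ₐ[K] F') → F' ∈ 𝓕) ∧
  (∀ F ∈ 𝓕, ∀ F' ∈ 𝓕, F ⊔ F' ∈ 𝓕) ∧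
  ∀ σ : Gal(AlgebraicClosure K/K), ∃ F ∈ 𝓕, Odd (fix K F σ)

/-- Part 4: families of fields. -/
def FamilyLaw (E : WeierstrassCurve K) : Prop :=
  ∀ 𝓕 : Set (IntermediateField K (AlgebraicClosure K)), OddFamily 𝓕 →
    (∀ F ∈ 𝓕, ∀ [NumberField F], Parity (E.map (algebraMap K F))) → Parity E

/-- Part 5: the intermediate fields of a Galois extension. -/
def GaloisLaw (E : WeierstrassCurve K) : Prop :=
  ∀ (L : Type) [Field L] [NumberField L] [Algebra K L] [IsGalois K L],
    (∀ (F : Type) [Field F] [NumberField F] [Algebra K F] [Algebra F L] [IsScalarTower K F L],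
      TwoType (L ≃ₐ[F] L) → Parity (E.map (algebraMap K F))) →
    ∀ (F : Type) [Field F] [NumberField F] [Algebra K F] [Algebra F L] [IsScalarTower K F L],
      Parity (E.map (algebraMap K F))

end laws

theorem parity_iff {F : Type} [Field F] [NumberField F] (E : WeierstrassCurve F) :
    Parity E ↔ Even (Pool.Agent.Q92.PA.Dd E) := by
  have h0 : places E = Pool.Agent.Q92.PA.spl E + Pool.Agent.Q92.PA.pl F := rfl
  have h1 : Pool.Agent.Q92.PA.Dd E = rank E + places E := by
    rw [h0]
    change rank E + Pool.Agent.Q92.PA.pl F + Pool.Agent.Q92.PA.spl E = _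
    ring
  rw [h1]
  unfold Parity
  have h2 : ((-1 : ℤ) ^ rank E = (-1) ^ places E) ↔ (-1 : ℤ) ^ (rank E + places E) = 1 := by
    rw [pow_add]
    rcases neg_one_pow_eq_or ℤ (rank E) with h | h <;>
    rcases neg_one_pow_eq_or ℤ (places E) with h' | h' <;> rw [h, h'] <;> norm_num
  rw [h2, neg_one_pow_eq_one_iff_even (by norm_num)]

theorem fix_eq {K F : Type} [Field K] [NumberField K] [Field F] [NumberField F] [Algebra K F]
    (σ : Gal(AlgebraicClosure K/K)) : fix K F σ = Pool.Agent.W353.NF.fixn K F σ := by
  unfold fix Pool.Agent.W353.NF.fixn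
  refine Nat.card_congr (Equiv.subtypeEquivRight fun i => ?_)
  rw [Pool.Agent.W353.NF.act_apply]
  constructor
  · intro h
    exact AlgHom.ext h
  · intro h x
    exact DFunLike.congr_fun h x

/-- **Descent for the parity conjecture.**  `E` is a semistable elliptic curve over a number field `K`.
1. In every relation `∑ n_j · 1_{F_j} = m` between the permutation characters of finite extensions `F_j` of
`K`, the same relation holds for the numbers rank + `m` + `u` of `E` over the fields.
2. If the parity conjecture holds for `E/F` for all `F/K` with `M ∣ [F:K]`, it holds for all `F/K` such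
that `M / gcd(M, [F:K])` is odd; for all finite `F/K` if `M` is odd.
3. Let `p` be an odd prime, `T` an infinite set of primes. If it holds for `E/F` for all test fields
`F/K`, it holds for `E/K`.
4. Let `𝓕` be a family of finite extensions in the algebraic closure of `K`, closed under isomorphisms and
composita, such that for every `σ` some `F ∈ 𝓕` has an odd number of embeddings fixed by `σ`. If it
holds for `E/F` for all `F ∈ 𝓕`, it holds for `E/K`.
5. Let `L/K` be a Galois extension. If it holds for `E/F` for all intermediate fields `F` such that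
`Gal(L/F)` is of type `TwoType`, it holds for all intermediate fields.
6. Let `M` be odd. If the parity conjecture holds for all semistable elliptic curves over all number fields
of degree divisible by `M`, it holds for all semistable elliptic curves over all number fields. -/
theorem result :
    (∀ (K : Type) [Field K] [NumberField K] (E : WeierstrassCurve K), E.IsElliptic → Semistable E →
      RelationLaw E ∧ DegreeLaw E ∧ RadicalLaw E ∧ FamilyLaw E ∧ GaloisLaw E) ∧
    (∀ M : ℕ, Odd M →
      (∀ (F : Type) [Field F] [NumberField F], M ∣ Module.finrank ℚ F →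
        ∀ E : WeierstrassCurve F, E.IsElliptic → Semistable E → Parity E) →
      ∀ (F : Type) [Field F] [NumberField F] (E : WeierstrassCurve F), E.IsElliptic →
        Semistable E → Parity E) := by
  refine ⟨?_, ?_⟩
  swap
  · intro M hM h F _ _ E hE hs
    have hs' : Pool.Agent.Q92.PA.Semistable E := hs
    have h1 := Pool.Agent.Q92.PA.par_degree hE hs' (M := M) (fun F' _ _ _ hd => by
      refine (parity_iff _).1 (h F' ?_ _ inferInstance ?_)
      · rw [← Module.finrank_mul_finrank ℚ F F']
        exact hd.mul_left _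
      · exact hs'.map) F (by
      rw [Module.finrank_self, Nat.gcd_one_right, Nat.div_one]
      exact hM)
    rw [Algebra.algebraMap_self, WeierstrassCurve.map_id] at h1
    exact (parity_iff E).2 h1
  intro K _ _ E hE hs
  have hs' : Pool.Agent.Q92.PA.Semistable E := hs
  refine ⟨?_, ?_, ?_, ?_, ?_⟩
  · intro ι _ F _ _ _ n m h
    let Y : ι → Pool.Agent.Q5.BR.Ext K := fun j => @Pool.Agent.Q5.BR.Ext.mk K _ _ (F j) _ _ _
    have h1 := Pool.Agent.Q92.PA.Dd_rel (Y := Y) (n := n) (m := m) (fun τ => by
      rw [← h τ]
      refine Finset.sum_congr rfl fun j _ => ?_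
      rw [fix_eq]) hE hs'
    have h2 : ∀ (F : Type) [Field F] [NumberField F] (E : WeierstrassCurve F),
        (rank E + places E : ℤ) = (Pool.Agent.Q92.PA.Dd E : ℤ) := by
      intro F _ _ E
      have h0 : places E = Pool.Agent.Q92.PA.spl E + Pool.Agent.Q92.PA.pl F := rfl
      have h1 : Pool.Agent.Q92.PA.Dd E = rank E + places E := by
        rw [h0]
        change rank E + Pool.Agent.Q92.PA.pl F + Pool.Agent.Q92.PA.spl E = _
        ring
      rw [h1]
      push_cast
      rfl
    rw [h2, ← h1]
    exact Finset.sum_congr rfl fun j _ => by rw [h2]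
  · intro M h F _ _ _ hM
    rw [parity_iff]
    exact Pool.Agent.Q92.PA.par_degree hE hs' (fun F' _ _ _ hd => (parity_iff _).1 (h F' hd)) F hM
  · intro p k T hp hp2 hT hinf h
    rw [parity_iff]
    exact Pool.Agent.Q92.PA.par_radical hE hs' hp hp2 hT hinf k
      (fun F _ _ _ hr hd => (parity_iff _).1 (h F ⟨hr, hd⟩))
  · rintro 𝓕 ⟨h1, h2, h3, h4⟩ h5
    rw [parity_iff]
    refine Pool.Agent.Q92.PA.par_family hE hs' ⟨h1, h2, h3, fun σ => ?_⟩
      (fun F hF _ => (parity_iff _).1 (h5 F hF))
    obtain ⟨F, hF, hodd⟩ := h4 σ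
    have hfd := h1 F hF
    have hnf : NumberField F := NumberField.of_module_finite K F
    refine ⟨F, hF, ?_⟩
    rw [← fix_eq]
    exact fun h => Nat.not_even_iff_odd.2 hodd (even_iff_two_dvd.2 h)
  · intro L _ _ _ _ h F _ _ _ _ _
    rw [parity_iff]
    refine Pool.Agent.Q92.PA.par_red' hE hs' L ?_ F
    rintro F' _ _ _ _ _ ⟨C, h1, h2, h3, h4⟩ h5
    exact (parity_iff _).1 (h F' ⟨⟨C, h1, h2, Nat.coprime_two_right.1 h3, h4⟩, h5⟩)

end Pool.Agent.Results.MP_02f36d_nt.ParityDescent
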