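import Pool.Agent.Q265.CE.A

/-!
# The Hasse principle over infinitely many number fields at once, for 100% of the cubic
# hypersurfaces and of the intersections of two quadrics

Let `X` be a smooth cubic hypersurface over `ℚ` of dimension at least two. For 100% of the `X`,
ordered by height, the following holds simultaneously for all number fields `k` which have over every
prime `p` a completion of degree prime to three over `ℚ_p`, in particular for all number fields of
degree prime to three: if `X` has zero-cycles of degree one (for instance points) over all the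
completions of `k`, then `X` has a rational point over `ℚ`, hence over `k`.

The same is true for the smooth complete intersections of two quadrics, of dimension at least two,
and the number fields `k` which have a real completion and over every prime `p` a completion of odd
degree over `ℚ_p`, in particular for all number fields of odd degree.
-/

set_option autoImplicit false

namespace Pool.Agent.Results.MP_03ef3d_ag.CubicsOverAllFields

open Filter Topology Pool.Agent.Q265.CE

/-- The systems of `s` forms of degree `d` in `n + 1` variables whose coefficients are integers of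
absolute value at most `H`. -/
def Forms (s d n H : ℕ) : Set (Fin s → MvPolynomial (Fin (n + 1)) ℤ) :=
  {f | ∀ j, (f j).IsHomogeneous d ∧ ∀ m, |(f j).coeff m| ≤ (H : ℤ)}

/-- The forms `f 1, …, f s` define a smooth complete intersection in `ℙⁿ`: at every common zero over
a field of characteristic zero the Jacobian matrix has rank `s`, that is, no nontrivial linear
combination of the gradients of the forms vanishes there. -/
def Smooth {s n : ℕ} (f : Fin s → MvPolynomial (Fin (n + 1)) ℤ) : Prop :=
  ∀ (K : Type) [Field K] [CharZero K] (x : Fin (n + 1) → K) (l : Fin s → K), x ≠ 0 → l ≠ 0 →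
    (∀ j, MvPolynomial.aeval x (f j) = 0) →
    ∃ i, ∑ j, l j * MvPolynomial.aeval x (MvPolynomial.pderiv i (f j)) ≠ 0

/-- The intersection `f 1 = ⋯ = f s = 0` in `ℙⁿ` has a point over the field `K`. -/
def HasPoint {s n : ℕ} (f : Fin s → MvPolynomial (Fin (n + 1)) ℤ) (K : Type) [Field K] : Prop :=
  ∃ x : Fin (n + 1) → K, x ≠ 0 ∧ ∀ j, MvPolynomial.aeval x (f j) = 0

/-- The intersection `f 1 = ⋯ = f s = 0` in `ℙⁿ` has a zero-cycle of degree one over the field `K`:
there are finitely many finite extensions `L i` of `K` over which it has a point, and integers `m i`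
with `∑ m i * [L i : K] = 1`. -/
def HasZeroCycle {s n : ℕ} (f : Fin s → MvPolynomial (Fin (n + 1)) ℤ) (K : Type) [Field K] :
    Prop :=
  ∃ (t : ℕ) (L : Fin t → Type) (_ : ∀ i, Field (L i)) (_ : ∀ i, Algebra K (L i)) (m : Fin t → ℤ),
    (∀ i, FiniteDimensional K (L i)) ∧ (∀ i, HasPoint f (L i)) ∧
    ∑ i, m i * (Module.finrank K (L i) : ℤ) = 1

/-- The intersection has a zero-cycle of degree one over every completion of the field `k`. The
condition is imposed for all finite extensions `L` of the `ℚ_p` in which `k` can be embedded; these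
are the finite extensions of the completions of `k`, so it is equivalent to the condition for the
completions themselves. (The complex places impose no condition.) -/
def EverywhereLocally (k : Type) [Field k] {s n : ℕ} (f : Fin s → MvPolynomial (Fin (n + 1)) ℤ) :
    Prop :=
  (∀ _ : k →+* ℝ, HasZeroCycle f ℝ) ∧
    ∀ (p : ℕ) [Fact p.Prime] (L : Type) [Field L] [Algebra ℚ_[p] L],
      FiniteDimensional ℚ_[p] L → ∀ _ : k →+* L, HasZeroCycle f L

/-- The number field `k` has over every prime `p` a completion whose degree over `ℚ_p` is not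
divisible by `m` (for `m = 2` it has also a real completion). The completion is given up to a finite
extension of degree not divisible by `m`. -/
def PrimeTo (m : ℕ) (k : Type) [Field k] : Prop :=
  (∀ (p : ℕ) [Fact p.Prime], ∃ (L : Type) (_ : Field L) (_ : Algebra ℚ_[p] L),
    FiniteDimensional ℚ_[p] L ∧ Nonempty (k →+* L) ∧ ¬ m ∣ Module.finrank ℚ_[p] L) ∧
  (m = 2 → Nonempty (k →+* ℝ))

lemma zc_eq {s n : ℕ} (f : Fin s → MvPolynomial (Fin (n + 1)) ℤ) (K : Type) [Field K] :
    HasZeroCycle f K ↔ Pool.Agent.Y716.C.ZC f K := Iff.rfl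

lemma primeTo_of {m : ℕ} {k : Type} [Field k] [NumberField k]
    (h : ¬ m ∣ Module.finrank ℚ k) : PrimeTo m k := by
  refine ⟨fun p _ => exists_completion m k h p, fun h2 => ?_⟩
  subst h2
  exact exists_real k h

lemma primeTo_rat {m : ℕ} (hm : m ≠ 1) : PrimeTo m ℚ := by
  apply primeTo_of
  rw [Module.finrank_self, Nat.dvd_one]
  exact hm

lemma local_rat {s n : ℕ} {f : Fin s → MvPolynomial (Fin (n + 1)) ℤ}
    (h : Pool.Agent.Y716.C.ElsS f) : EverywhereLocally ℚ f :=
  ⟨fun _ => zc_of_point h.1, fun p _ L _ _ _ _ =>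
    zc_of_point (zero_up (algebraMap ℚ_[p] L) (h.2 p))⟩

/-- local points over `ℚ` from local zero-cycles over `k`, cubic hypersurfaces -/
lemma els_cubic {n : ℕ} (hn : 3 ≤ n) {f : Fin 1 → MvPolynomial (Fin (n + 1)) ℤ}
    (hf : ∀ j, (f j).IsHomogeneous 3) {k : Type} [Field k] (hk : PrimeTo 3 k)
    (h : EverywhereLocally k f) : Pool.Agent.Y716.C.ElsS f := by
  refine ⟨?_, fun p hp => ?_⟩
  · obtain ⟨y, hy0, hy⟩ := Pool.Agent.Y214.CY.real_cubic (Fin (n + 1))
      (by rw [Fintype.card_fin]; omega) (f 0) (hf 0)
    exact ⟨y, hy0, fun j => by rw [Subsingleton.elim j 0]; exact hy⟩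
  · obtain ⟨L, i1, i2, hL, ⟨φ⟩, hd⟩ := hk.1 p
    obtain ⟨M, j1, j2, hM, hd', x, hx0, hx⟩ := zc_ext Nat.prime_three hd (h.2 p L hL φ)
    obtain ⟨y, hy0, hy⟩ := Pool.Agent.Y214.CY.coray (Fin (n + 1)) p M hd' (f 0) (hf 0) x hx0 (hx 0)
    exact ⟨y, hy0, fun j => by rw [Subsingleton.elim j 0]; exact hy⟩

/-- local points over `ℚ` from local zero-cycles over `k`, two quadrics -/
lemma els_quadrics {n : ℕ} {f : Fin 2 → MvPolynomial (Fin (n + 1)) ℤ}
    (hf : ∀ j, (f j).IsHomogeneous 2) {k : Type} [Field k] (hk : PrimeTo 2 k)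
    (h : EverywhereLocally k f) : Pool.Agent.Y716.C.ElsS f := by
  refine ⟨?_, fun p hp => ?_⟩
  · obtain ⟨φ⟩ := hk.2 rfl
    exact (Pool.Agent.Y716.C.zc_iff hf ℝ).1 (h.1 φ)
  · obtain ⟨L, i1, i2, hL, ⟨φ⟩, hd⟩ := hk.1 p
    obtain ⟨M, j1, j2, hM, hd', x, hx0, hx⟩ := zc_ext Nat.prime_two hd (h.2 p L hL φ)
    exact Pool.Agent.Y604.Z1.common_zero_of_odd (Fin (n + 1)) ℚ_[p] M
      (by rw [← Nat.not_even_iff_odd, even_iff_two_dvd]; exact hd') f hf x hx0 hx

/-- (1) Let `n ≥ 3`. Consider the smooth cubic hypersurfaces in `ℙⁿ` of height at most `H` which have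
zero-cycles of degree one over all completions of some number field `k` that has over every prime `p`
a completion of degree not divisible by three. The proportion of those among them with a rational
point tends to `1` as `H → ∞`. (So outside of a set of cubics of proportion zero, for all these `k`
simultaneously, zero-cycles of degree one over all completions of `k` imply a rational point.)
(2) The same is true for `n ≥ 4`, the smooth complete intersections of two quadrics in `ℙⁿ` and the
number fields which have a real completion and over every prime `p` a completion of odd degree.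
(3) These number fields include all those of degree not divisible by three, resp. of odd degree. -/
theorem result :
    (∀ n : ℕ, 3 ≤ n → Tendsto (fun H : ℕ =>
      (({f | f ∈ Forms 1 3 n H ∧ Smooth f ∧ HasPoint f ℚ} : Set _).ncard : ℝ) /
      (({f | f ∈ Forms 1 3 n H ∧ Smooth f ∧ ∃ (k : Type) (_ : Field k) (_ : NumberField k),
        PrimeTo 3 k ∧ EverywhereLocally k f} : Set _).ncard : ℝ)) atTop (𝓝 1)) ∧
    (∀ n : ℕ, 4 ≤ n → Tendsto (fun H : ℕ =>
      (({f | f ∈ Forms 2 2 n H ∧ Smooth f ∧ HasPoint f ℚ} : Set _).ncard : ℝ) /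
      (({f | f ∈ Forms 2 2 n H ∧ Smooth f ∧ ∃ (k : Type) (_ : Field k) (_ : NumberField k),
        PrimeTo 2 k ∧ EverywhereLocally k f} : Set _).ncard : ℝ)) atTop (𝓝 1)) ∧
    ∀ (m : ℕ) (k : Type) [Field k] [NumberField k], ¬ m ∣ Module.finrank ℚ k → PrimeTo m k := by
  refine ⟨fun n hn => ?_, fun n hn => ?_, fun m k _ _ h => primeTo_of h⟩
  · have h1 := Pool.Agent.Y716.D.hp_smooth_all (Fin (n + 1)) (s := 1) le_rfl
      (by rw [Fintype.card_fin]; omega) (fun _ => 1) (by rw [Fintype.card_fin]; simp; omega)
    have h2 : ∀ H : ℕ, {f | f ∈ Forms 1 3 n H ∧ Smooth f ∧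
        ∃ (k : Type) (_ : Field k) (_ : NumberField k), PrimeTo 3 k ∧ EverywhereLocally k f} =
        {f : Fin 1 → MvPolynomial (Fin (n + 1)) ℤ | (∀ j, (f j).IsHomogeneous (1 + 2) ∧
          ∀ m, |(f j).coeff m| ≤ (H : ℤ)) ∧ Pool.Agent.Y697.C13.SmoothS f ∧
          Pool.Agent.Y716.C.ElsS f} := by
      intro H
      ext f
      refine and_congr_right (fun hf => and_congr_right (fun _ => ?_))
      constructor
      · rintro ⟨k, i1, i2, hk, h⟩
        exact els_cubic hn (fun j => (hf j).1) hk h
      · intro h
        exact ⟨ℚ, inferInstance, inferInstance, primeTo_rat (by norm_num), local_rat h⟩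
    simp only [h2]
    exact h1
  · have h1 := Pool.Agent.Y716.D.hp_smooth_all (Fin (n + 1)) (s := 2) (by norm_num)
      (by rw [Fintype.card_fin]; omega) (fun _ => 0) (by rw [Fintype.card_fin]; simp; omega)
    have h2 : ∀ H : ℕ, {f | f ∈ Forms 2 2 n H ∧ Smooth f ∧
        ∃ (k : Type) (_ : Field k) (_ : NumberField k), PrimeTo 2 k ∧ EverywhereLocally k f} =
        {f : Fin 2 → MvPolynomial (Fin (n + 1)) ℤ | (∀ j, (f j).IsHomogeneous (0 + 2) ∧
          ∀ m, |(f j).coeff m| ≤ (H : ℤ)) ∧ Pool.Agent.Y697.C13.SmoothS f ∧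
          Pool.Agent.Y716.C.ElsS f} := by
      intro H
      ext f
      refine and_congr_right (fun hf => and_congr_right (fun _ => ?_))
      constructor
      · rintro ⟨k, i1, i2, hk, h⟩
        exact els_quadrics (fun j => (hf j).1) hk h
      · intro h
        exact ⟨ℚ, inferInstance, inferInstance, primeTo_rat (by norm_num), local_rat h⟩
    simp only [h2]
    exact h1

end Pool.Agent.Results.MP_03ef3d_ag.CubicsOverAllFields
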