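import Pool.Agent.Q123.CC.Sharp

/-!
# Binary codes closed under a Boolean operation

A `k`-ary Boolean operation `f` is applied to the words of a code coordinatewise. We determine the
largest size of a code of length `n` and minimum distance at least `d` closed under a given
operation `f`, up to the case of linear codes:

* If `f` is not affine over the field with two elements, every code closed under `f` has at most
  `2 ^ (n / d)` words (integer part), and for `d ≤ n` this is attained, for every `f`. So such codes
  of relative distance `δ` have at most `2 ^ (1 / δ)` words: a bounded number.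
* If `f` is affine and depends on at least two variables, every nonempty code closed under `f` is a
  coset of a linear code.
-/

namespace Pool.Agent.Results.MP_0430e4_lc.ClosedCodes

open Q123.CC Finset

/-- **Codes closed under a Boolean operation.** -/
theorem result (k : ℕ) (f : (Fin k → ZMod 2) → ZMod 2) :
    (¬ IsAffine f → ∀ n d : ℕ, 1 ≤ d →
      (∀ C : Finset (Fin n → ZMod 2), ClosedUnder f C → MinDist d C → C.card ≤ 2 ^ (n / d)) ∧
      (d ≤ n → ∃ C : Finset (Fin n → ZMod 2), ClosedUnder f C ∧ MinDist d C ∧
        C.card = 2 ^ (n / d))) ∧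
    (∀ (c : ZMod 2) (s : Finset (Fin k)), 2 ≤ s.card → (∀ x, f x = c + ∑ i ∈ s, x i) →
      ∀ (n : ℕ) (C : Finset (Fin n → ZMod 2)), ClosedUnder f C → C.Nonempty →
        ∃ (W : Submodule (ZMod 2) (Fin n → ZMod 2)) (c₀ : Fin n → ZMod 2),
          ∀ x, x ∈ C ↔ x + c₀ ∈ W) := by
  refine ⟨fun hf n d hd => ⟨fun C hC hdist => ?_, fun hdn => ?_⟩, ?_⟩
  · exact card_le_of_three hd C (target_of_closed hf C hC) hdist
  · obtain ⟨C, h1, h2, h3⟩ := exists_block hd hdn
    exact ⟨C, h3 k f, h2, h1⟩
  · intro c s hs hf n C hC hne
    exact coset_of_affine hs hf C hC hne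

end Pool.Agent.Results.MP_0430e4_lc.ClosedCodes
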