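import Pool.Agent.Q163.DC.Final
import Pool.Agent.Q163.DC.Listing

/-!
# MP_0430e4_lc: binary codes generated by decomposable circuits (position-indexed grammars)
-/

set_option autoImplicit false

namespace Pool.Agent.Results.MP_0430e4_lc.DecomposableCodes

open Finset Filter Topology Pool.Agent.Q163.DC

/-- See the claim file. -/
theorem result :
    (∀ (n d k m : ℕ) (C : Finset (Fin n → Bool)), 1 ≤ d → n ≤ (k + 2) * d → Far d C →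
      Generates m C → C.card ≤ (4 * d) ^ (k + 1) * 2 ^ (k * k) * m ^ k) ∧
    (∀ (k : ℕ) (ε : ℝ), 0 < ε → ∃ c : ℝ, 0 < c ∧ ∀ n d s : ℕ, 1 ≤ d → (k + 1 + ε) * d ≤ n →
      1 ≤ s → (s : ℝ) ≤ 2 ^ (c * d) →
      ∃ C : Finset (Fin n → Bool), Far d C ∧ C.card = s ^ k ∧ Generates (6 * n * s) C) ∧
    (∀ (n : ℕ) (C : Finset (Fin n → Bool)), Generates ((n + 1) * (C.card + 2)) C) ∧
    (∀ δ : ℝ, 0 < δ → δ < 1 / 2 →
      (∀ σ : ℝ, 0 ≤ σ → ∀ ε : ℝ, 0 < ε → ∀ᶠ n : ℕ in atTop,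
        Real.logb 2 (best n ⌈δ * n⌉₊ ⌊(2 : ℝ) ^ (σ * n)⌋₊) / n ≤ (⌈1 / δ⌉₊ - 2 : ℝ) * σ + ε) ∧
      ∃ σ₀ : ℝ, 0 < σ₀ ∧ ∀ σ : ℝ, 0 < σ → σ ≤ σ₀ →
        Tendsto (fun n : ℕ => Real.logb 2 (best n ⌈δ * n⌉₊ ⌊(2 : ℝ) ^ (σ * n)⌋₊) / n) atTop
          (𝓝 ((⌈1 / δ⌉₊ - 2 : ℝ) * σ))) := by
  refine ⟨fun n d k m C hd hn hC hG => upper_bound hd hn hC hG, fun k ε hε => lower_bound k hε,
    fun n C => listing C, fun δ h0 h1 => ?_⟩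
  have h2 : (2 : ℝ) < 1 / δ := by
    rw [lt_div_iff₀ h0]; linarith
  have h3 : 2 < ⌈1 / δ⌉₊ := Nat.lt_ceil.2 (by exact_mod_cast h2)
  obtain ⟨k, hk⟩ : ∃ k : ℕ, ⌈1 / δ⌉₊ = k + 2 := ⟨⌈1 / δ⌉₊ - 2, by omega⟩
  have e : (⌈1 / δ⌉₊ : ℝ) - 2 = k := by rw [hk]; push_cast; ring
  have h4 : 1 / δ ≤ (k : ℝ) + 2 := by
    have := Nat.le_ceil (1 / δ)
    rw [hk] at this
    exact_mod_cast this
  have h5 : (k : ℝ) + 1 < 1 / δ := by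
    have : k + 1 < ⌈1 / δ⌉₊ := by omega
    exact_mod_cast Nat.lt_ceil.1 this
  rw [e]
  refine ⟨fun σ hσ ε hε => rate_upper h0 h1 hσ k h4 hε, ?_⟩
  obtain ⟨σ₀, hσ₀, H⟩ := rate_lower h0 k h5
  refine ⟨σ₀, hσ₀, fun σ hσ hσ' => ?_⟩
  rw [Metric.tendsto_atTop']
  intro ε hε
  have h6 := (H σ hσ hσ' (ε / 2) (by positivity)).and
    (rate_upper h0 h1 hσ.le k h4 (ε := ε / 2) (by positivity))
  obtain ⟨N, hN⟩ := eventually_atTop.1 h6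
  refine ⟨N, fun n hn => ?_⟩
  obtain ⟨h7, h8⟩ := hN n (le_of_lt hn)
  rw [Real.dist_eq, abs_lt]
  constructor <;> linarith

end Pool.Agent.Results.MP_0430e4_lc.DecomposableCodes
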