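import Pool.Agent.Q197.NC.Rate

/-! Binary codes whose distance distribution nowhere exceeds the binomial one by much. -/

set_option autoImplicit false

open Finset Filter Topology Pool.Agent.Q197.NC

namespace Pool.Agent.Results.MP_0430e4_lc.NoClustering

/-- (1) single codes; (2) random codes: the largest expected size, up to the factor
`4 d (e + B)`; (3) its rate. -/
theorem result :
    (∀ n d : ℕ, 1 ≤ d → d ≤ n → ∀ C : Finset (Fin n → Bool),
      (∀ x ∈ C, ∀ y ∈ C, x ≠ y → d ≤ hammingDist x y) →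
      ∀ B : ℝ, 0 ≤ B →
      (∀ w ≤ n, (((C ×ˢ C).filter (fun z => z.1 ≠ z.2 ∧ hammingDist z.1 z.2 ≤ w)).card : ℝ) ≤
        C.card * (C.card * (∑ i ∈ Finset.range (w + 1), n.choose i : ℕ) / 2 ^ n + B)) →
      (C.card : ℝ) ≤ d * (Real.exp 1 + B) * 2 ^ n /
        (∑ i ∈ Finset.range d, n.choose i : ℕ)) ∧
    (∀ n d : ℕ, 1 ≤ d → d ≤ n → ∀ B : ℝ, 1 / 2 ≤ B →
      2 ^ n / (4 * (∑ i ∈ Finset.range d, n.choose i : ℕ)) ≤ best n d B ∧
      best n d B ≤ d * (Real.exp 1 + B) * 2 ^ n / (∑ i ∈ Finset.range d, n.choose i : ℕ)) ∧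
    (∀ δ : ℝ, 0 < δ → δ < 1 / 2 → ∀ B : ℕ → ℝ, (∀ n, 1 / 2 ≤ B n) →
      Tendsto (fun n : ℕ => Real.log (B n) / n) atTop (𝓝 0) →
      Tendsto (fun n : ℕ => Real.logb 2 (best n ⌈δ * n⌉₊ (B n)) / n) atTop
        (𝓝 (1 - (-δ * Real.logb 2 δ - (1 - δ) * Real.logb 2 (1 - δ))))) := by
  have hv : ∀ n d : ℕ, 1 ≤ d → ∑ i ∈ Finset.range d, n.choose i = vol n (d - 1) := by
    intro n d hd
    unfold vol
    rw [Nat.sub_add_cancel hd]
  refine ⟨?_, ?_, fun δ h0 h1 B hB hB2 => rate h0 h1 hB hB2⟩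
  · intro n d hd1 hdn C hC B hB hpairs
    let R : RandomCode n :=
      { Ω := Unit
        fin := inferInstance
        p := fun _ => 1
        nonneg := fun _ => zero_le_one
        sum_one := by simp
        code := fun _ => C }
    have hsize : R.size = C.card := by
      unfold RandomCode.size
      change ∑ ω : Unit, (1 : ℝ) * (C.card : ℝ) = C.card
      simp
    have hp : ∀ w, R.pairs w =
        (((C ×ˢ C).filter (fun z => z.1 ≠ z.2 ∧ hammingDist z.1 z.2 ≤ w)).card : ℝ) := by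
      intro w
      unfold RandomCode.pairs
      change ∑ ω : Unit, (1 : ℝ) *
        (((C ×ˢ C).filter (fun z => z.1 ≠ z.2 ∧ hammingDist z.1 z.2 ≤ w)).card : ℝ) = _
      simp
    have h1 : R.MinDist d := fun _ => hC
    have h2 : R.Unclustered B := by
      intro w hw
      rw [hp, hsize]
      exact hpairs w hw
    have h3 := upper hd1 hdn R h1 hB h2
    rw [hsize] at h3
    rw [hv n d hd1, le_div_iff₀ (by exact_mod_cast vol_pos n (d - 1))]
    exact h3
  · intro n d hd1 hdn B hB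
    rw [hv n d hd1]
    exact ⟨le_best hd1 hdn hB, best_le hd1 hdn (by linarith)⟩

end Pool.Agent.Results.MP_0430e4_lc.NoClustering
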