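import Pool.Agent.Q197.CI.C04e

/-!
# Sums of an index of twin primes and an index of super twin primes in Cramér's random model

`A` is Cramér's random model of the primes: the events `n ∈ A`, `n ≥ 3`, are independent with the probabilities
`1 / log n`; `el S m` is the `m`-th element `≥ 3` of `S`, the model of the `m`-th prime. For `n ≥ 2` let `m(n)` be the
least `m ≥ 1` such that `el A (el A m) + 2` and `el A (n - m) + 2` are elements of `A`. Almost surely `m(n)` exists for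
all large `n`, its upper limit relative to `log² n log log n` is `2`, and the number of `n ≤ N` with
`m(n) > c log² n log log n` is `N ^ (1 - c / 2 + o(1))`.
-/

set_option autoImplicit false

namespace Pool.Agent.Results.MP_04e9b2_nt.LeastSuperTwinIndex

open MeasureTheory Filter Pool.Agent.Q120.MF Pool.Agent.Q197.CI
open scoped Topology

/-- `n = (n - m) + m` is a decomposition as in the question, with `S` in place of the set of the primes. -/
def Sol (S : Set ℕ) (n m : ℕ) : Prop := el S (el S m) + 2 ∈ S ∧ el S (n - m) + 2 ∈ S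

theorem result :
    (∃ (Ω : Type) (_ : MeasurableSpace Ω) (μ : Measure Ω) (A : Ω → Set ℕ), IsProbabilityMeasure μ ∧ IsCramer μ A) ∧
    ∀ (Ω : Type) [MeasurableSpace Ω] (μ : Measure Ω) [IsProbabilityMeasure μ] (A : Ω → Set ℕ), IsCramer μ A →
      -- the question, for all large `n`
      (∀ᵐ ω ∂μ, (A ω).Infinite ∧ ∀ᶠ n : ℕ in atTop, ∃ k m : ℕ, 1 ≤ k ∧ 1 ≤ m ∧ n = k + m ∧
        el (A ω) k + 2 ∈ A ω ∧ el (A ω) (el (A ω) m) + 2 ∈ A ω) ∧
      -- the least `m`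
      (∀ c : ℝ, 2 < c → ∀ᵐ ω ∂μ, ∀ᶠ n : ℕ in atTop,
        ∃ m : ℕ, 1 ≤ m ∧ (m : ℝ) ≤ c * (Real.log n ^ 2 * Real.log (Real.log n)) ∧ Sol (A ω) n m) ∧
      (∀ c : ℝ, 0 < c → c < 2 → ∀ᵐ ω ∂μ, Tendsto (fun N : ℕ =>
        Real.log (cntP (fun n => NoSol (Sol (A ω)) n (c * (Real.log n ^ 2 * Real.log (Real.log n)))) N) / Real.log N)
          atTop (𝓝 (1 - c / 2))) ∧
      -- typical values
      (∀ t : ℝ, 0 < t → ∀ᵐ ω ∂μ, Tendsto (fun N : ℕ =>
        cntP (fun n => NoSol (Sol (A ω)) n (t * (Real.log n * Real.log (Real.log n)))) N / N) atTop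
          (𝓝 (Real.exp (-t)))) ∧
      -- the number of the indices of super twin primes
      ∀ᵐ ω ∂μ, Tendsto (fun h : ℕ => ({m : ℕ | 1 ≤ m ∧ m ≤ h ∧ el (A ω) (el (A ω) m) + 2 ∈ A ω}.ncard : ℝ) *
        Real.log h / h) atTop (𝓝 1) := by
  refine ⟨⟨_, _, cramerMeasure, cramerSet, inferInstance, isCramer⟩, ?_⟩
  intro Ω _ μ _ A hA
  have hW : ∀ (S : Set ℕ), S.Infinite → ∀ j, 1 ≤ j → (WP P04e j S ↔ el S (el S j) + 2 ∈ S) := by
    intro S hS j hj
    unfold WP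
    constructor
    · rintro ⟨a, h1, h2⟩
      rw [((p04e_iff hS hj a).1 h1).2] at h2
      exact h2
    · exact fun h => ⟨_, (p04e_iff hS hj _).2 ⟨trivial, rfl⟩, h⟩
  have hSol : ∀ᵐ ω ∂μ, ∀ M : ℕ, ∀ᶠ n : ℕ in atTop, ∀ j : ℕ, 1 ≤ j → (j : ℝ) ≤ Real.log n ^ M →
      (Sol (A ω) n j ↔ (WP P04e j (A ω) ∧ ¬ FlI (fun n j => n - j) (fun a => a + 2) n j (A ω))) := by
    filter_upwards [ae_flI hA idx_sub (fun a => a + 2), ae_infinite hA] with ω h1 hinf M
    filter_upwards [h1 M] with n h2 j hj1 hj2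
    rw [h2 j hj1 hj2, hW _ hinf j hj1]
    rfl
  obtain ⟨h1, h2, h3⟩ := row04e.final hA 1 (law04e hA) (v04e hA) Sol hSol
  have e1 : (1 : ℝ) * (((1 : ℕ) : ℝ) + 1) ^ 1 = 2 := by norm_num
  have e2 : (1 : ℝ) * ((1 : ℕ) : ℝ) ^ 1 = 1 := by norm_num
  have hc4 : ∀ c : ℝ, 2 < c → ∀ᵐ ω ∂μ, ∀ᶠ n : ℕ in atTop,
      ∃ m : ℕ, 1 ≤ m ∧ (m : ℝ) ≤ c * (Real.log n ^ 2 * Real.log (Real.log n)) ∧ Sol (A ω) n m := by
    intro c hc
    filter_upwards [h1 c (by rw [e1]; exact hc)] with ω h4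
    filter_upwards [h4] with n h5
    unfold NoSol at h5
    push Not at h5
    obtain ⟨k, k1, k2, k3⟩ := h5
    exact ⟨k, k1, by rw [pow_one] at k2; exact k2, k3⟩
  refine ⟨?_, hc4, fun c hc0 hc => ?_, fun t ht => ?_, ?_⟩
  · filter_upwards [ae_infinite hA, hc4 3 (by norm_num)] with ω hinf h4
    refine ⟨hinf, ?_⟩
    filter_upwards [h4, scale_le 6 2 1, eventually_ge_atTop 2] with n h5 h6 h7
    obtain ⟨m, k1, k2, k3, k4⟩ := h5
    rw [pow_one] at h6
    have h8 : 2 * m ≤ n := by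
      have : 2 * (m : ℝ) ≤ n := by linarith
      exact_mod_cast this
    exact ⟨n - m, m, by omega, k1, by omega, k4, k3⟩
  · have h4 := h2 c hc0 (by rw [e1]; exact hc)
    rw [e1] at h4
    simp only [pow_one] at h4
    exact h4
  · have h4 := h3 t ht
    rw [e2] at h4
    simp only [pow_one, div_one] at h4
    exact h4
  · filter_upwards [law04e hA, ae_infinite hA] with ω h4 hinf
    refine h4.congr (fun h => ?_)
    rw [pow_one, ← Set.ncard_coe_finset]
    congr 3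
    congr 1
    ext m
    rw [Finset.mem_coe, mem_Ws]
    simp only [Set.mem_ofPred_eq]
    constructor
    · rintro ⟨⟨h5, h6⟩, h7⟩
      exact ⟨h5, h6, (hW _ hinf m h5).1 h7⟩
    · rintro ⟨h5, h6, h7⟩
      exact ⟨⟨h5, h6⟩, (hW _ hinf m h5).2 h7⟩

end Pool.Agent.Results.MP_04e9b2_nt.LeastSuperTwinIndex
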