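import Mathlib

/-!
# MP_053b7f_lc, Q1: in the set-splitting game player A has a winning strategy only on countable sets

The game `G(E)` (moves `ω`): `S_0 = E`; player A splits `S_0` into two disjoint parts, B chooses one of them as `S_1`
and splits it, A chooses `S_2` and splits it, and so on. A wins iff `⋂_{n ≥ 1} S_n = ∅`.

Here a splitting of `S` is given by a set `P`; the parts are `S ∩ P` and `S \ P` (every splitting of `S` into two
disjoint parts, empty parts allowed, has this form). A move of the player who is in charge at stage `n` is a pair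
`(b, P)`: he takes as `S_n` the part of the previous splitting named by `b` (`true` is `S_{n-1} ∩ P_{n-1}`, `false` is
`S_{n-1} \ P_{n-1}`; for `n = 0` the bit is ignored and `S_0 = E`) and splits `S_n` by `P`.
A is in charge at the even stages, B at the odd stages. A strategy of A is any function of the whole finite history.

Theorem: A has a winning strategy in `G(E)` if and only if `E` is countable.

Proof for uncountable `E`: let `f : E → 2^ℕ` be injective on an uncountable set `E'` (of size `ℵ_1 ≤ 2^ℵ_0`), and fix a
strategy `σ` of A. B only uses the splittings `D_d = {x | f x d = 1}`, `d ∈ ℕ`. At a fixed finite history the answers of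
A to the splittings `D_0, D_1, ...` give a sequence `r ∈ 2^ℕ`, and every `x` with `f x ≠ 1 - r` survives the answer to
some `D_d`. So at most one point of `E'` is lost at a given history, and there are only countably many histories of this
kind: some `x ∈ E'` is never lost, and B can play so that `x` stays in all the sets.
-/

set_option autoImplicit false

namespace Pool.Agent.Results.MP_053b7f_lc.NoWinningStrategy

universe u

/-- A move `(b, P)`: take the part of the previous splitting named by `b`, split it by the set `P`. -/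
abbrev Move (E : Type u) := Bool × Set E

/-- The two parts `S ∩ P` (bit `true`) and `S \ P` (bit `false`) of the splitting of `S` by `P`. -/
def part {E : Type u} (S P : Set E) (b : Bool) : Set E := if b = true then S ∩ P else S \ P

/-- The decreasing sequence of sets `S_0 = E ⊇ S_1 ⊇ S_2 ⊇ ...` of a play. -/
def St {E : Type u} (m : ℕ → Move E) : ℕ → Set E
  | 0 => Set.univ
  | n + 1 => part (St m n) (m n).2 (m (n + 1)).1

/-- The history before stage `n`: the list of the first `n` moves (of both players). -/
def hist {E : Type u} (m : ℕ → Move E) (n : ℕ) : List (Move E) := (List.range n).map m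

/-- The play `m` follows the strategy `σ` of player A, who moves at the even stages. -/
def Follows {E : Type u} (σ : List (Move E) → Move E) (m : ℕ → Move E) : Prop :=
  ∀ k : ℕ, m (2 * k) = σ (hist m (2 * k))

/-- `σ` is a winning strategy of player A: every play which follows it has an empty intersection. -/
def Wins {E : Type u} (σ : List (Move E) → Move E) : Prop :=
  ∀ m : ℕ → Move E, Follows σ m → ⋂ n : ℕ, St m (n + 1) = ∅

theorem hist_succ {E : Type u} (m : ℕ → Move E) (n : ℕ) : hist m (n + 1) = hist m n ++ [m n] := by
  simp [hist, List.range_succ]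

/-! ### Countable sets -/

theorem countable_wins (E : Type u) [Countable E] : ∃ σ : List (Move E) → Move E, Wins σ := by
  classical
  rcases isEmpty_or_nonempty E with hE | hE
  · refine ⟨fun _ => (true, ∅), fun m _ => ?_⟩
    ext x
    exact hE.elim x
  · obtain ⟨p, hp⟩ := exists_surjective_nat E
    refine ⟨fun h => (decide (p (h.length / 2 - 1) ∉ (h.getLastD (true, ∅)).2), ∅), fun m hm => ?_⟩
    rw [Set.eq_empty_iff_forall_notMem]
    intro x hx
    obtain ⟨j, rfl⟩ := hp x
    have h1 := Set.mem_iInter.1 hx (2 * j + 1)
    have h2 := hm (j + 1)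
    have h3 : 2 * (j + 1) = (2 * j + 1) + 1 := by ring
    rw [h3] at h2
    have hl : (hist m (2 * j + 1 + 1)).length = 2 * (j + 1) := by
      simp [hist]; ring
    have hg : (hist m (2 * j + 1 + 1)).getLastD (true, ∅) = m (2 * j + 1) := by
      rw [hist_succ]; simp
    have h4 : (m (2 * j + 1 + 1)).1 = decide (p j ∉ (m (2 * j + 1)).2) := by
      rw [h2]
      simp only [hl, hg]
      have : 2 * (j + 1) / 2 - 1 = j := by omega
      rw [this]
    change p j ∈ part (St m (2 * j + 1)) (m (2 * j + 1)).2 (m (2 * j + 1 + 1)).1 at h1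
    rw [h4] at h1
    unfold part at h1
    by_cases hP : p j ∈ (m (2 * j + 1)).2
    · simp [hP] at h1
    · simp [hP] at h1

/-! ### Uncountable sets -/

section unc

variable {E : Type u} (σ : List (Move E) → Move E) (f : E → ℕ → Bool)

/-- the splittings used by B -/
def D (d : ℕ) : Set E := {x | f x d = true}

/-- the history after the moves `w` of B (a side and a digit) -/
def H (w : List (Bool × ℕ)) : List (Move E) :=
  w.foldl (fun h p => h ++ [σ h, (p.1, D f p.2)]) []

theorem H_append (w : List (Bool × ℕ)) (p : Bool × ℕ) :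
    H σ f (w ++ [p]) = H σ f w ++ [σ (H σ f w), (p.1, D f p.2)] := by
  simp [H, List.foldl_append]

/-- the answer of A to the splitting `D d` after the history `w` and the side `s` -/
def ans (w : List (Bool × ℕ)) (s : Bool) (d : ℕ) : Bool :=
  (σ (H σ f w ++ [σ (H σ f w), (s, D f d)])).1

open Classical in
/-- the side on which `x` lies -/
noncomputable def side (x : E) (w : List (Bool × ℕ)) : Bool := decide (x ∈ (σ (H σ f w)).2)

theorem survive (x : E) (hx : ∀ (w : List (Bool × ℕ)) (s : Bool), ∃ d, f x d = ans σ f w s d) :
    ∃ m : ℕ → Move E, Follows σ m ∧ ∀ n, x ∈ St m n := by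
  classical
  choose c hc using hx
  let ch : List (Bool × ℕ) → Bool × ℕ := fun w => (side σ f x w, c w (side σ f x w))
  let W : ℕ → List (Bool × ℕ) := fun k => Nat.rec [] (fun _ w => w ++ [ch w]) k
  have hW0 : W 0 = [] := rfl
  have hW : ∀ k, W (k + 1) = W k ++ [ch (W k)] := fun k => rfl
  let m : ℕ → Move E := fun n =>
    if n % 2 = 0 then σ (H σ f (W (n / 2))) else ((ch (W (n / 2))).1, D f (ch (W (n / 2))).2)
  have hme : ∀ k, m (2 * k) = σ (H σ f (W k)) := by
    intro k
    have h1 : (2 * k) % 2 = 0 := by omega
    have h2 : (2 * k) / 2 = k := by omega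
    simp only [m, h1, h2, if_true]
  have hmo : ∀ k, m (2 * k + 1) = ((ch (W k)).1, D f (ch (W k)).2) := by
    intro k
    have h1 : ¬ (2 * k + 1) % 2 = 0 := by omega
    have h2 : (2 * k + 1) / 2 = k := by omega
    simp only [m, h1, h2, if_false]
  have hH : ∀ k, hist m (2 * k) = H σ f (W k) := by
    intro k
    induction k with
    | zero => simp [hist, H, hW0]
    | succ k ih =>
      have : 2 * (k + 1) = (2 * k + 1) + 1 := by ring
      rw [this, hist_succ, hist_succ, ih, hme, hmo, hW, H_append]
      simp
  refine ⟨m, fun k => by rw [hH, hme], ?_⟩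
  have key : ∀ k, x ∈ St m (2 * k) → x ∈ St m (2 * k + 1) ∧ x ∈ St m (2 * k + 2) := by
    intro k hk
    have h1 : x ∈ St m (2 * k + 1) := by
      change x ∈ part (St m (2 * k)) (m (2 * k)).2 (m (2 * k + 1)).1
      rw [hme, hmo]
      change x ∈ part (St m (2 * k)) (σ (H σ f (W k))).2 (side σ f x (W k))
      unfold part side
      by_cases hP : x ∈ (σ (H σ f (W k))).2
      · simp [hP, hk]
      · simp [hP, hk]
    refine ⟨h1, ?_⟩
    change x ∈ part (St m (2 * k + 1)) (m (2 * k + 1)).2 (m (2 * k + 1 + 1)).1
    have h2 : m (2 * k + 1 + 1) = σ (H σ f (W (k + 1))) := by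
      have : 2 * k + 1 + 1 = 2 * (k + 1) := by ring
      rw [this, hme]
    have h3 : (m (2 * k + 1 + 1)).1 = f x (c (W k) (side σ f x (W k))) := by
      rw [hc, h2, hW, H_append]
      rfl
    rw [h3, hmo]
    change x ∈ part (St m (2 * k + 1)) (D f (c (W k) (side σ f x (W k)))) _
    unfold part
    by_cases hf : f x (c (W k) (side σ f x (W k))) = true
    · rw [if_pos hf]
      exact ⟨h1, hf⟩
    · rw [if_neg hf]
      exact ⟨h1, hf⟩
  have even : ∀ k, x ∈ St m (2 * k) := by
    intro k
    induction k with
    | zero => exact Set.mem_univ x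
    | succ k ih => exact (key k ih).2
  intro n
  rcases Nat.even_or_odd' n with ⟨k, rfl | rfl⟩
  · exact even k
  · exact (key k (even k)).1

theorem exists_never_lost (E' : Set E) (hE' : ¬ E'.Countable) (hf : Set.InjOn f E') :
    ∃ x : E, ∀ (w : List (Bool × ℕ)) (s : Bool), ∃ d, f x d = ans σ f w s d := by
  by_contra hcon
  push Not at hcon
  apply hE'
  have hsub : E' ⊆ ⋃ (w : List (Bool × ℕ)), ⋃ (s : Bool), {x | x ∈ E' ∧ ∀ d, f x d ≠ ans σ f w s d} := by
    intro x hx
    obtain ⟨w, s, h⟩ := hcon x
    simp only [Set.mem_iUnion]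
    exact ⟨w, s, hx, h⟩
  refine Set.Countable.mono hsub ?_
  refine Set.countable_iUnion fun w => Set.countable_iUnion fun s => ?_
  apply Set.Subsingleton.countable
  rintro x ⟨hx, hxd⟩ y ⟨hy, hyd⟩
  apply hf hx hy
  funext d
  have h1 := hxd d
  have h2 := hyd d
  revert h1 h2
  cases f x d <;> cases f y d <;> cases ans σ f w s d <;> simp

end unc

/-- An uncountable type has an uncountable subset which injects into `2^ℕ`. -/
theorem exists_digits (E : Type u) (hE : ¬ Countable E) :
    ∃ (E' : Set E) (f : E → ℕ → Bool), ¬ E'.Countable ∧ Set.InjOn f E' := by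
  classical
  have h0 : Cardinal.aleph0 < Cardinal.mk E := by
    rw [← not_le, Cardinal.mk_le_aleph0_iff]
    exact hE
  have h1 : Cardinal.aleph 1 ≤ Cardinal.mk E := by
    rw [← Cardinal.succ_aleph0]
    exact Order.succ_le_of_lt h0
  obtain ⟨E', hE'⟩ := Cardinal.le_mk_iff_exists_set.1 h1
  have h2 : Cardinal.lift.{0} (Cardinal.mk E') ≤ Cardinal.lift.{u} (Cardinal.mk (ℕ → Bool)) := by
    have h3 : Cardinal.mk (ℕ → Bool) = Cardinal.continuum := by simp
    rw [hE', h3]
    simpa using Cardinal.aleph_one_le_continuum
  obtain ⟨g⟩ := Cardinal.lift_mk_le'.1 h2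
  refine ⟨E', fun x => if h : x ∈ E' then g ⟨x, h⟩ else fun _ => false, ?_, ?_⟩
  · intro hc
    have h4 := Cardinal.le_aleph0_iff_set_countable.2 hc
    rw [hE'] at h4
    exact absurd h4 (not_le.2 Cardinal.aleph0_lt_aleph_one)
  · intro x hx y hy hxy
    simp only [hx, hy, dif_pos] at hxy
    have h5 := g.injective hxy
    exact congrArg Subtype.val h5

/-- **Theorem** (full answer to Q1). Player A has a winning strategy in `G(E)` if and only if `E` is countable. -/
theorem result (E : Type u) : (∃ σ : List (Move E) → Move E, Wins σ) ↔ Countable E := by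
  constructor
  · rintro ⟨σ, hσ⟩
    by_contra hE
    obtain ⟨E', f, hE', hf⟩ := exists_digits E hE
    obtain ⟨x, hx⟩ := exists_never_lost σ f E' hE' hf
    obtain ⟨m, hm, hxm⟩ := survive σ f x hx
    have h := hσ m hm
    have : x ∈ ⋂ n : ℕ, St m (n + 1) := Set.mem_iInter.2 fun n => hxm (n + 1)
    rw [h] at this
    exact this
  · intro hE
    exact countable_wins E

end Pool.Agent.Results.MP_053b7f_lc.NoWinningStrategy
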