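import Mathlib
import Pool.Agent.Results.MP_05f553_nt.FewExceptions
import Pool.Agent.Q273.ApxF
import Pool.Agent.Q273.ApxQ
import Pool.Agent.Q273.Apx

/-!
# Philippon's inequality at the approximations of real numbers
-/

set_option autoImplicit false

namespace Pool.Agent.Results.MP_05f553_nt.GoodApproximations

/-- the logarithmic height `log max (|a|, |b|)` of `r = a / b` (lowest terms) -/
noncomputable def ht (r : ℚ) : ℝ := Real.log (max |((r.num : ℤ) : ℝ)| ((r.den : ℕ) : ℝ))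

/-- the height `max (|a|, |b|)` of `r = a / b` (lowest terms) -/
noncomputable def H (r : ℚ) : ℝ := max |((r.num : ℤ) : ℝ)| ((r.den : ℕ) : ℝ)

/-- the inequality of the question for the pair `(x, y)`; the sums are over the primes which divide
the numerator of `x y ^ B + 1` -/
def Holds (B : ℕ) (α β ε : ℝ) (x y : ℚ) : Prop :=
  -(∑ p ∈ (x * y ^ B + 1).num.natAbs.primeFactors,
      Real.log ((padicNorm p (x * y ^ B + 1) : ℚ) : ℝ))
    ≤ α * (B : ℝ) * ht x + ε * (B : ℝ) * ht y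
      + (B : ℝ) * (α * (B : ℝ) + ε) *
          (β + ∑ p ∈ (x * y ^ B + 1).num.natAbs.primeFactors, Real.log (p : ℝ))

/-- the pair `(x, y)` violates the inequality -/
def Violates (B : ℕ) (α β ε : ℝ) (x y : ℚ) : Prop :=
  x ≠ 0 ∧ y ≠ 0 ∧ x * y ^ B ≠ 1 ∧ x * y ^ B ≠ -1 ∧ ¬ Holds B α β ε x y

private theorem one_le_H (r : ℚ) : 1 ≤ H r := by
  have : (1 : ℝ) ≤ r.den := by exact_mod_cast r.den_pos
  exact this.trans (le_max_right _ _)

private theorem count_all (B : ℕ) (α β ε : ℝ) (hα : 1 ≤ α) (hβ : 0 ≤ β) (hε : ε < 1 / 2)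
    (hB : 2 ≤ ε * B) (δ : ℝ) (hδ : 0 < δ) : ∃ C : ℝ, ∀ X : ℝ, 1 ≤ X →
      {y | y ∈ {y : ℚ | ∃ x : ℚ, Violates B α β ε x y} ∧ H y ≤ X}.Finite ∧
      ({y | y ∈ {y : ℚ | ∃ x : ℚ, Violates B α β ε x y} ∧ H y ≤ X}.ncard : ℝ) ≤
        C * X ^ (2 / α + δ) := by
  obtain ⟨C, hC⟩ := FewExceptions.result B α β ε δ hα hβ hε hB hδ
  refine ⟨C, fun X hX => ?_⟩
  obtain ⟨h1, h2, -⟩ := hC X hX
  have hsub : {y | y ∈ {y : ℚ | ∃ x : ℚ, Violates B α β ε x y} ∧ H y ≤ X} ⊆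
      Prod.snd '' (FewExceptions.Exceptions B α β ε X) := by
    rintro y ⟨⟨x, hx0, hy0, h3, h4, h5⟩, h6⟩
    exact ⟨(x, y), ⟨hx0, hy0, h3, h4, h6, h5⟩, rfl⟩
  refine ⟨(h1.image _).subset hsub, le_trans ?_ h2⟩
  exact_mod_cast (Set.ncard_le_ncard hsub (h1.image _)).trans (Set.ncard_image_le h1)

private theorem count_one (B : ℕ) (α β ε : ℝ) (hα : 1 ≤ α) (hβ : 0 ≤ β) (hε : ε < 1 / 2)
    (hB : 2 ≤ ε * B) (x : ℚ) (δ : ℝ) (hδ : 0 < δ) : ∃ C : ℝ, ∀ X : ℝ, 1 ≤ X →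
      {y | y ∈ {y : ℚ | Violates B α β ε x y} ∧ H y ≤ X}.Finite ∧
      ({y | y ∈ {y : ℚ | Violates B α β ε x y} ∧ H y ≤ X}.ncard : ℝ) ≤
        C * X ^ (1 / (α * B) + δ) := by
  obtain ⟨C, hC⟩ := FewExceptions.result B α β ε δ hα hβ hε hB hδ
  refine ⟨C, fun X hX => ?_⟩
  obtain ⟨h1, -, h2⟩ := hC X hX
  have hsub : {y | y ∈ {y : ℚ | Violates B α β ε x y} ∧ H y ≤ X} =
      {y : ℚ | (x, y) ∈ FewExceptions.Exceptions B α β ε X} := by
    ext y
    constructor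
    · rintro ⟨⟨hx0, hy0, h3, h4, h5⟩, h6⟩
      exact ⟨hx0, hy0, h3, h4, h6, h5⟩
    · rintro ⟨hx0, hy0, h3, h4, h6, h5⟩
      exact ⟨⟨hx0, hy0, h3, h4, h5⟩, h6⟩
  rw [hsub]
  exact ⟨h1.preimage (Prod.mk_right_injective x).injOn, h2 x⟩

/-- **Philippon's inequality at the approximations of given numbers.** Let `α ≥ 1`, `β ≥ 0`,
`ε < 1 / 2`, `ε B ≥ 2` and `τ > 0`, let `Y` be a metric space and `φ : ℚ → Y` any map, for instance
the inclusion of the rational numbers in the real or the `p`-adic numbers.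
(1) There is a set `E` in `Y` of Hausdorff dimension at most `2 / (α τ)` such that for each `ξ`
outside `E` and each `A`, for all but finitely many rational numbers `y` with
`dist(ξ, φ(y)) ≤ A H(y) ^ (-τ)` the inequality holds for all `x`.
(2) There is a set `E` in `Y` of Hausdorff dimension at most `1 / (α B τ)` such that for each `ξ`
outside `E`, each `x` and each `A` the inequality holds for all but finitely many rational numbers `y`
with `dist(ξ, φ(y)) ≤ A H(y) ^ (-τ)`.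
(3) If `α > 2` and `τ < 2 - 2 / α`, then for every irrational number `ξ` there are infinitely many
rational numbers `y` with `|ξ - y| ≤ H(y) ^ (-τ)` such that the inequality holds for all `x`.
(4) If `τ < 2 - 1 / (α B)`, then for every irrational number `ξ` and every `x` there are infinitely
many rational numbers `y` with `|ξ - y| ≤ H(y) ^ (-τ)` such that the inequality holds. -/
theorem result.{u} (B : ℕ) (α β ε τ : ℝ) (hα : 1 ≤ α) (hβ : 0 ≤ β) (hε : ε < 1 / 2)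
    (hB : 2 ≤ ε * B) (hτ : 0 < τ) :
    (∀ (Y : Type u) [MetricSpace Y] (φ : ℚ → Y),
      (∃ E : Set Y, dimH E ≤ ENNReal.ofReal (2 / (α * τ)) ∧ ∀ ξ : Y, ξ ∉ E → ∀ A : ℝ,
        {y : ℚ | (∃ x : ℚ, Violates B α β ε x y) ∧ dist ξ (φ y) ≤ A * (H y) ^ (-τ)}.Finite) ∧
      (∃ E : Set Y, dimH E ≤ ENNReal.ofReal (1 / (α * B * τ)) ∧ ∀ ξ : Y, ξ ∉ E → ∀ (x : ℚ) (A : ℝ),
        {y : ℚ | Violates B α β ε x y ∧ dist ξ (φ y) ≤ A * (H y) ^ (-τ)}.Finite)) ∧
    (2 < α → τ < 2 - 2 / α → ∀ ξ : ℝ, Irrational ξ →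
      {y : ℚ | (¬ ∃ x : ℚ, Violates B α β ε x y) ∧ |ξ - y| ≤ (H y) ^ (-τ)}.Infinite) ∧
    (τ < 2 - 1 / (α * B) → ∀ ξ : ℝ, Irrational ξ → ∀ x : ℚ,
      {y : ℚ | ¬ Violates B α β ε x y ∧ |ξ - y| ≤ (H y) ^ (-τ)}.Infinite) := by
  have hα0 : 0 < α := by linarith
  have hB2 : 2 ≤ B := by
    by_contra h
    have h1 : (B : ℝ) ≤ 1 := by exact_mod_cast (by omega : B ≤ 1)
    have h2 : (0 : ℝ) ≤ B := Nat.cast_nonneg B
    nlinarith
  have hB0 : (2 : ℝ) ≤ B := by exact_mod_cast hB2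
  refine ⟨fun Y _ φ => ⟨?_, ?_⟩, fun h2 h3 ξ hξ => ?_, fun h3 ξ hξ x => ?_⟩
  · obtain ⟨E, h1, h2⟩ := Q273.Apx.approx {y : ℚ | ∃ x : ℚ, Violates B α β ε x y} H φ
      (s := 2 / α) (τ := τ) (by positivity) hτ (count_all B α β ε hα hβ hε hB)
    rw [div_div] at h1
    exact ⟨E, h1, h2⟩
  · have key : ∀ x : ℚ, ∃ E : Set Y, dimH E ≤ ENNReal.ofReal (1 / (α * B * τ)) ∧
        ∀ ξ : Y, ξ ∉ E → ∀ A : ℝ,
        {y : ℚ | Violates B α β ε x y ∧ dist ξ (φ y) ≤ A * (H y) ^ (-τ)}.Finite := by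
      intro x
      obtain ⟨E, h1, h2⟩ := Q273.Apx.approx {y : ℚ | Violates B α β ε x y} H φ
        (s := 1 / (α * B)) (τ := τ) (by positivity) hτ (count_one B α β ε hα hβ hε hB x)
      rw [div_div] at h1
      exact ⟨E, h1, h2⟩
    choose E h1 h2 using key
    refine ⟨⋃ x, E x, ?_, fun ξ hξ x A => ?_⟩
    · rw [dimH_iUnion]
      exact iSup_le h1
    · exact h2 x ξ (fun h => hξ (Set.mem_iUnion.2 ⟨x, h⟩)) A
  · exact Q273.ApxQ.infinitely ξ hξ (s := 2 / α) (τ := τ) (by positivity)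
      (by rw [div_lt_one hα0]; exact h2) hτ (by linarith) H 1 (fun r => by rw [one_mul]; exact le_rfl)
      (fun r => le_rfl) _ (count_all B α β ε hα hβ hε hB)
  · exact Q273.ApxQ.infinitely ξ hξ (s := 1 / (α * B)) (τ := τ) (by positivity)
      (by rw [div_lt_one (by positivity)]; nlinarith) hτ (by linarith) H 1
      (fun r => by rw [one_mul]; exact le_rfl)
      (fun r => le_rfl) _ (count_one B α β ε hα hβ hε hB x)

end Pool.Agent.Results.MP_05f553_nt.GoodApproximations
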