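import Pool.Agent.Q73.Semi.Speed

/-!
# The orthogonal speed of every non-elliptic semigroup is nondecreasing on `[0, ∞)`

The definitions (the disc, its hyperbolic distance, continuous semigroups of holomorphic self-maps,
the Denjoy-Wolff point, the projection onto the diameter and the orthogonal speed) are in
`Pool.Agent.Q73.Semi.Defs`.
-/

set_option autoImplicit false

open Set Filter Topology Q73.Semi

namespace Pool.Agent.Results.MP_0641e2_an.AlwaysNondecreasing

/-- **Theorem (negative answer to Q1, in the strongest form).**  Let `(φ_t)` be a non-elliptic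
semigroup of the disc with Denjoy-Wolff point `τ`.  The point `π(z)` of the diameter closest to `z`
exists and is unique for every `z` in the disc, and the orthogonal speed
`v^o(t) = k(0, π(φ_t(0)))` is nondecreasing on the whole half line `[0, ∞)`. -/
theorem result (φ : ℝ → ℂ → ℂ) (hφ : IsSemigroup φ) (_hne : IsNonElliptic φ) (τ : ℂ)
    (hτ : IsDenjoyWolff φ τ) :
    (∀ z ∈ Disc, ∃! p, IsProjection τ z p) ∧ (∀ z ∈ Disc, IsProjection τ z (proj τ z)) ∧
      MonotoneOn (orthogonalSpeed φ τ) (Ici 0) := by
  refine ⟨fun z hz => existsUnique_projection hτ.1 hz, fun z hz => ?_,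
    orthogonalSpeed_mono hφ hτ⟩
  exact Classical.epsilon_spec (existsUnique_projection hτ.1 hz).exists

end Pool.Agent.Results.MP_0641e2_an.AlwaysNondecreasing
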