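import Pool.Agent.Q101.QGHull

/-!
# Generic and random conformal factors: no prescribed sequence of eigenfunctions is exceptional

Let `(M, g)` be a closed surface with a continuous Riemannian metric (for instance a smooth metric of
negative curvature), and fix a sequence of indices `J k → ∞`. For a conformal factor `φ` let
`u 0, u 1, ...` be any orthonormal basis of eigenfunctions of the metric `exp φ · g`, ordered by the
eigenvalue, and `μ_k = (u (J k))² dA` the measures along the sequence.

* Baire category: let `B` be a topological vector space (a Baire space, for instance the space of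
  smooth functions with the `C^∞` topology) which is mapped linearly, continuously and with dense
  range to `C(M)`. Outside a meagre set of `φ ∈ B` (hence for a residual set of the `φ` for which
  `exp φ · g` is, for instance, smooth with negative curvature, as those form an open set of smooth
  functions) the following holds for all continuous `f`, `ε > 0`: there are infinitely many `k` such
  that `∫ f dμ_k ≤ mean value of f + ε` for all choices of the basis at the same time (replace `f` by
  `-f` for the other inequality), and the uniform measure belongs to the weak-* closed convex hull of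
  every tail `{μ_k : k ≥ K}`. In particular: if the measures `μ_k` converge, their limit is uniform.
* Measure: the statement on closed convex hulls also holds for `P`-almost every `φ ∈ C(M)` when `P` is
  a probability measure which is quasi-invariant under translations by multiples of the functions of a
  set with dense linear span (nondegenerate Gaussian measures, for example).

Idea. Along a line `φ + t h` the logarithmic derivative of the `j`-th eigenvalue is `-∫ h (u j)² dA` for
almost all `t`, for all normalized eigenfunctions at once (eigenbases are rotated by a reflection),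
and Weyl's law gives the integrals. So near every `φ` there is a metric with a good index `J k`, and the
set of good metrics is open, as the eigenvectors of a perturbed pair of forms are close to those of
the original pair, with multiplicities. The last step is a separation argument. Weyl's law and the
spectral theory of continuous metrics are those of the library `Pool.Agent.Y264.QR` (many authors).
-/

set_option autoImplicit false

open Set Filter Topology MeasureTheory
open Pool.Agent.Y262.QE

noncomputable section

namespace Pool.Agent.Results.MP_07c750_an.GenericMixtures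

/-- `u 0, u 1, ...` is an orthonormal basis of `L² (μ)` which consists of eigenfunctions of the
Laplacian of the surface `D` with the area `μ`; the eigenvalues `lam 0 ≤ lam 1 ≤ ...` are ordered -/
structure IsEigenbasis {M : Type} [MeasurableSpace M] (D : Data M) (μ : Measure M)
    (u : ℕ → M → ℝ) (lam : ℕ → ℝ) : Prop where
  eig : ∀ j, D.IsEig μ (lam j) (u j)
  mono : Monotone lam
  orth : ∀ i j, ∫ x, u i x * u j x ∂μ = if i = j then 1 else 0
  total : ∀ f : M → ℝ, MemLp f 2 μ → (∀ j, ∫ x, f x * u j x ∂μ = 0) → f =ᵐ[μ] 0

/-- the surface with the metric `exp φ · g` -/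
def surf {M : Type} [TopologicalSpace M] (D : Data M) (φ : C(M, ℝ)) : Data M :=
  D.conf fun x => Real.exp (φ x)

/-- the area of the metric `exp φ · g` -/
def area {M : Type} [TopologicalSpace M] [MeasurableSpace M] (μ : Measure M) (φ : C(M, ℝ)) :
    Measure M :=
  wm μ fun x => Real.exp (φ x)

/-- for every tail of the sequence of the measures `(v k)² dμ` the uniform measure belongs to the
weak-* closed convex hull: mixtures of finitely many of these measures with large indices come
arbitrarily close to the uniform measure on finitely many continuous functions -/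
def Mix {M : Type} [TopologicalSpace M] [MeasurableSpace M] (μ : Measure M) (v : ℕ → M → ℝ) : Prop :=
  ∀ (n : ℕ) (f : Fin n → C(M, ℝ)) (K : ℕ),
    (fun l => (∫ x, f l x ∂μ) / μ.real univ) ∈
      closure (convexHull ℝ {q : Fin n → ℝ | ∃ k, K ≤ k ∧ q = fun l => ∫ x, f l x * (v k x) ^ 2 ∂μ})

theorem result (M : Type) [MetricSpace M] [CompactSpace M] [MeasurableSpace M] [BorelSpace M]
    [Nonempty M] (μ : Measure M) (D : Data M) (hD : D.IsSurf μ) (J : ℕ → ℕ)
    (hJ : Tendsto J atTop atTop) :
    (∀ (B : Type) [AddCommGroup B] [Module ℝ B] [TopologicalSpace B] [IsTopologicalAddGroup B]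
      [ContinuousSMul ℝ B] (ι : B →L[ℝ] C(M, ℝ)), DenseRange ι →
      ∀ᶠ y in residual B,
        (∀ (f : C(M, ℝ)) (ε : ℝ) (K : ℕ), 0 < ε → ∃ k, K ≤ k ∧
          ∀ (u : ℕ → M → ℝ) (lam : ℕ → ℝ), IsEigenbasis (surf D (ι y)) (area μ (ι y)) u lam →
            ∫ x, f x * (u (J k) x) ^ 2 ∂(area μ (ι y)) ≤
              (∫ x, f x ∂(area μ (ι y))) / (area μ (ι y)).real univ + ε) ∧
        ∀ (u : ℕ → M → ℝ) (lam : ℕ → ℝ), IsEigenbasis (surf D (ι y)) (area μ (ι y)) u lam →
          Mix (area μ (ι y)) fun k => u (J k)) ∧
    ∀ [MeasurableSpace C(M, ℝ)] [BorelSpace C(M, ℝ)] (P : Measure C(M, ℝ)) [IsProbabilityMeasure P]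
      (S : Set C(M, ℝ)), Dense (Submodule.span ℝ S : Set C(M, ℝ)) →
      (∀ h ∈ S, ∀ t : ℝ, P.map (fun φ => φ + t • h) ≪ P) →
      ∀ (u : C(M, ℝ) → ℕ → M → ℝ) (lam : C(M, ℝ) → ℕ → ℝ),
        (∀ φ, IsEigenbasis (surf D φ) (area μ φ) (u φ) (lam φ)) →
        ∀ᵐ φ ∂P, Mix (area μ φ) fun k => u φ (J k) := by
  refine ⟨?_, ?_⟩
  · intro B _ _ _ _ _ ι hι
    filter_upwards [Q101.QG.surf_generic μ D hD J hJ B ι hι] with y hy
    refine ⟨fun f ε K hε => ?_, fun u lam hu n f K => ?_⟩
    · obtain ⟨k, hk1, hk2⟩ := hy.1 f ε K hε
      exact ⟨k, hk1, fun u lam hu => hk2 u lam ⟨hu.eig, hu.mono, hu.orth, hu.total⟩⟩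
    · exact hy.2 u lam ⟨hu.eig, hu.mono, hu.orth, hu.total⟩ n f K
  · intro _ _ P _ S hS hP u lam hu
    filter_upwards [Q101.QG.surf_ae μ D hD J hJ P S hS hP u lam
      fun φ => ⟨(hu φ).eig, (hu φ).mono, (hu φ).orth, (hu φ).total⟩] with φ hφ n f K
    exact hφ n f K

end Pool.Agent.Results.MP_07c750_an.GenericMixtures
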