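import Pool.Agent.Q101.QGHull

/-!
# Random conformal factors: eigenfunctions average out along every prescribed sequence

Let `(M, g)` be a closed surface with a continuous Riemannian metric, and fix a sequence of indices
`J k → ∞`. Choose for every conformal factor `φ ∈ C(M)` an orthonormal basis `u φ 0, u φ 1, ...` of
eigenfunctions of the metric `exp φ · g`, ordered by the eigenvalue (no measurability of the choice is
assumed). If `P` is a probability measure on `C(M)` which is quasi-invariant under translations by
multiples of the functions of a set with dense linear span (nondegenerate Gaussian measures, for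
example), then for `P`-almost every `φ` the uniform measure belongs to the weak-* closed convex hull
of every tail of the sequence of the measures `(u φ (J k))² dA`.
-/

set_option autoImplicit false

open Set Filter Topology MeasureTheory
open Pool.Agent.Y262.QE

noncomputable section

namespace Pool.Agent.Results.MP_07c750_an.RandomHull

/-- `u 0, u 1, ...` is an orthonormal basis of `L² (μ)` which consists of eigenfunctions of the
Laplacian of the surface `D` with the area `μ`; the eigenvalues `lam 0 ≤ lam 1 ≤ ...` are ordered -/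
structure IsEigenbasis {M : Type} [MeasurableSpace M] (D : Data M) (μ : Measure M)
    (u : ℕ → M → ℝ) (lam : ℕ → ℝ) : Prop where
  eig : ∀ j, D.IsEig μ (lam j) (u j)
  mono : Monotone lam
  orth : ∀ i j, ∫ x, u i x * u j x ∂μ = if i = j then 1 else 0
  total : ∀ f : M → ℝ, MemLp f 2 μ → (∀ j, ∫ x, f x * u j x ∂μ = 0) → f =ᵐ[μ] 0

/-- the surface with the metric `exp φ · g` -/
def surf {M : Type} [TopologicalSpace M] (D : Data M) (φ : C(M, ℝ)) : Data M :=
  D.conf fun x => Real.exp (φ x)

/-- the area of the metric `exp φ · g` -/
def area {M : Type} [TopologicalSpace M] [MeasurableSpace M] (μ : Measure M) (φ : C(M, ℝ)) :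
    Measure M :=
  wm μ fun x => Real.exp (φ x)

/-- for every tail of the sequence of the measures `(v k)² dμ` the uniform measure belongs to the
weak-* closed convex hull: mixtures of finitely many of these measures with large indices come
arbitrarily close to the uniform measure on finitely many continuous functions -/
def Mix {M : Type} [TopologicalSpace M] [MeasurableSpace M] (μ : Measure M) (v : ℕ → M → ℝ) : Prop :=
  ∀ (n : ℕ) (f : Fin n → C(M, ℝ)) (K : ℕ),
    (fun l => (∫ x, f l x ∂μ) / μ.real univ) ∈
      closure (convexHull ℝ {q : Fin n → ℝ | ∃ k, K ≤ k ∧ q = fun l => ∫ x, f l x * (v k x) ^ 2 ∂μ})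

theorem result (M : Type) [MetricSpace M] [CompactSpace M] [MeasurableSpace M] [BorelSpace M]
    [Nonempty M] (μ : Measure M) (D : Data M) (hD : D.IsSurf μ) (J : ℕ → ℕ)
    (hJ : Tendsto J atTop atTop)
    [MeasurableSpace C(M, ℝ)] [BorelSpace C(M, ℝ)] (P : Measure C(M, ℝ)) [IsProbabilityMeasure P]
    (S : Set C(M, ℝ)) (hS : Dense (Submodule.span ℝ S : Set C(M, ℝ)))
    (hP : ∀ h ∈ S, ∀ t : ℝ, P.map (fun φ => φ + t • h) ≪ P)
    (u : C(M, ℝ) → ℕ → M → ℝ) (lam : C(M, ℝ) → ℕ → ℝ)
    (hu : ∀ φ, IsEigenbasis (surf D φ) (area μ φ) (u φ) (lam φ)) :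
    ∀ᵐ φ ∂P, Mix (area μ φ) fun k => u φ (J k) := by
  filter_upwards [Q101.QG.surf_ae μ D hD J hJ P S hS hP u lam
    fun φ => ⟨(hu φ).eig, (hu φ).mono, (hu φ).orth, (hu φ).total⟩] with φ hφ n f K
  exact hφ n f K

end Pool.Agent.Results.MP_07c750_an.RandomHull
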