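import Pool.Agent.Q255.CU.Ae
import Pool.Agent.Q38.CU.Syt
import Pool.Agent.Q26.CU.Cub
import Pool.Agent.Q26.CU.Flm
import Pool.Agent.Q299.CU.SHP
import Pool.Agent.Q299.CU.MSQ
import Pool.Agent.Q166.HC.HCI
import Pool.Agent.Q166.HC.ONE
import Pool.Agent.Q257.HC.AEG

set_option autoImplicit false

/-!
# Short sums of characters twisted by a random cubic function

The values `χ(a)` of a (cubic) character are replaced by `f(a) χ(a)`, where `f` is a completely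
multiplicative function whose values are cube roots of unity. For almost every `f` the statement
`C_n` holds for all `n`, with the best possible saving `δ = 1/2`, for all characters modulo all
`q ≤ Q` and all intervals `(M, M+N]` with `M ≤ Q^A`.
-/

namespace Pool.Agent.Results.MP_081200_nt.RandomCubicTwists

open MeasureTheory Finset

noncomputable section

/-- independent uniform exponents modulo `3` -/
def uniform : Measure (ℕ → ZMod 3) :=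
  Measure.infinitePi fun _ : ℕ => (PMF.uniformOfFintype (ZMod 3)).toMeasure

/-- the completely multiplicative function with the value `exp(2πi ω_p/3)` at the prime `p` -/
def cubic (ω : ℕ → ZMod 3) (n : ℕ) : ℂ :=
  ∏ p ∈ n.primeFactors, (ZMod.stdAddChar (ω p) : ℂ) ^ n.factorization p

/-- `∑_{M < a ≤ M+N} f(a) χ(a)` -/
def S {q : ℕ} (f : ℕ → ℂ) (χ : DirichletCharacter ℂ q) (M N : ℕ) : ℂ :=
  ∑ a ∈ Ioc M (M + N), f a * χ (a : ZMod q)

/-- square root cancellation up to `Q^ε`, uniformly in the modulus `q ≤ Q`, the character, and the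
interval `(M, M+N]`, `M, N ≤ Q^A` -/
def SquareRoot (f : ℕ → ℂ) : Prop :=
  ∀ (A : ℕ) (ε : ℝ), 0 < ε → ∃ C : ℝ, ∀ Q : ℝ, 1 ≤ Q → ∀ q : ℕ, 1 ≤ q → (q : ℝ) ≤ Q →
    ∀ (χ : DirichletCharacter ℂ q) (M N : ℕ), (M : ℝ) ≤ Q ^ A → 1 ≤ N → (N : ℝ) ≤ Q ^ A →
      ‖S f χ M N‖ ≤ C * Real.sqrt N * Q ^ ε

/-- the statement `C_n` of the problem with the saving `δ`, for `f(a) χ(a)` in place of `χ(a)`, all
characters, and `M ≤ Q^A` -/
def TwistedC (f : ℕ → ℂ) (n : ℕ) (δ : ℝ) (A : ℕ) : Prop :=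
  ∀ ε : ℝ, 0 < ε → ∃ c : ℝ, ∀ Q : ℝ, 3 ≤ Q → ∀ N : ℕ, 1 ≤ N → (N : ℝ) ≤ Q ^ (1 / (n : ℝ)) →
    ∀ M : ℕ, (M : ℝ) ≤ Q ^ A → ∀ q : ℕ, 1 ≤ q → (q : ℝ) ≤ Q → ∀ χ : DirichletCharacter ℂ q,
      ‖S f χ M N‖ ≤ c * Q ^ ((1 - δ) / n + ε)

lemma twistedC_of {f : ℕ → ℂ} (hf : SquareRoot f) (n : ℕ) (hn : 1 ≤ n) (A : ℕ) :
    TwistedC f n (1 / 2) A := by
  intro ε hε
  obtain ⟨C, hC⟩ := hf (A + 1) ε hε
  refine ⟨|C|, fun Q hQ N hN hNQ M hM q hq hqQ χ => ?_⟩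
  have hQ1 : (1 : ℝ) ≤ Q := by linarith
  have hQ0 : (0 : ℝ) < Q := by linarith
  have hn0 : (0 : ℝ) < n := by exact_mod_cast hn
  have hn1 : (1 : ℝ) ≤ n := by exact_mod_cast hn
  have h1 : Q ^ A ≤ Q ^ (A + 1) := pow_le_pow_right₀ hQ1 (by omega)
  have h2 : Q ^ (1 / (n : ℝ)) ≤ Q ^ (A + 1) := by
    rw [← Real.rpow_natCast]
    refine Real.rpow_le_rpow_of_exponent_le hQ1 ?_
    rw [div_le_iff₀ hn0]
    push_cast
    have : (0 : ℝ) ≤ A := Nat.cast_nonneg _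
    nlinarith
  have h3 := hC Q hQ1 q hq hqQ χ M N (hM.trans h1) hN (hNQ.trans h2)
  have h4 : Real.sqrt N ≤ Q ^ (1 / (2 * (n : ℝ))) := by
    rw [Real.sqrt_eq_rpow]
    calc (N : ℝ) ^ (1 / 2 : ℝ) ≤ (Q ^ (1 / (n : ℝ))) ^ (1 / 2 : ℝ) :=
          Real.rpow_le_rpow (Nat.cast_nonneg _) hNQ (by norm_num)
      _ = Q ^ (1 / (2 * (n : ℝ))) := by
          rw [← Real.rpow_mul hQ0.le]
          congr 1
          field_simp
  calc ‖S f χ M N‖ ≤ C * Real.sqrt N * Q ^ ε := h3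
    _ ≤ |C| * Q ^ (1 / (2 * (n : ℝ))) * Q ^ ε := by
        refine mul_le_mul_of_nonneg_right ?_ (by positivity)
        exact mul_le_mul (le_abs_self C) h4 (Real.sqrt_nonneg _) (abs_nonneg C)
    _ = |C| * Q ^ ((1 - 1 / 2) / (n : ℝ) + ε) := by
        rw [mul_assoc, ← Real.rpow_add hQ0]
        congr 2
        field_simp
        norm_num

lemma ae_squareRoot : ∀ᵐ ω ∂uniform, SquareRoot (cubic ω) := by
  have h : ∀ᵐ ω ∂uniform, ∀ A n : ℕ, ∃ C : ℝ, ∀ Q : ℕ, 1 ≤ Q → ∀ q : ℕ, 1 ≤ q → q ≤ Q →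
      ∀ (χ : DirichletCharacter ℂ q) (M N : ℕ), M ≤ Q ^ A → 1 ≤ N → N ≤ Q ^ A →
        ‖S (cubic ω) χ M N‖ ≤ C * Real.sqrt N * (Q : ℝ) ^ (1 / ((n : ℝ) + 1)) := by
    rw [ae_all_iff]
    intro A
    rw [ae_all_iff]
    intro n
    exact Pool.Agent.Q255.CU.ae_int
      (Pool.Agent.Q257.HC.t_AEG (Pool.Agent.Q166.HC.hci Pool.Agent.Q166.HC.one
        Pool.Agent.Q166.HC.upd)) Pool.Agent.Q38.CU.syt Pool.Agent.Q38.CU.wgt
      Pool.Agent.Q26.CU.cub A _ (by positivity)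
  filter_upwards [h] with ω hω A ε hε
  obtain ⟨n, hn⟩ := exists_nat_one_div_lt hε
  obtain ⟨C, hC⟩ := hω A n
  refine ⟨|C| * 2 ^ ε, fun Q hQ q hq hqQ χ M N hM hN hNQ => ?_⟩
  have hQ0 : (0 : ℝ) ≤ Q := by linarith
  have h1 : Q ≤ (⌈Q⌉₊ : ℝ) := Nat.le_ceil Q
  have hR1 : 1 ≤ ⌈Q⌉₊ := Nat.one_le_ceil_iff.2 (by linarith)
  have h2 : (⌈Q⌉₊ : ℝ) ≤ 2 * Q := by
    have := Nat.ceil_lt_add_one hQ0
    linarith
  have h3 : Q ^ A ≤ (⌈Q⌉₊ : ℝ) ^ A := pow_le_pow_left₀ hQ0 h1 A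
  have h4 := hC ⌈Q⌉₊ hR1 q hq (by exact_mod_cast hqQ.trans h1) χ M N
    (by exact_mod_cast hM.trans h3) hN (by exact_mod_cast hNQ.trans h3)
  have hRR : (1 : ℝ) ≤ (⌈Q⌉₊ : ℝ) := by exact_mod_cast hR1
  have h5 : (⌈Q⌉₊ : ℝ) ^ (1 / ((n : ℝ) + 1)) ≤ 2 ^ ε * Q ^ ε := by
    rw [← Real.mul_rpow (by norm_num) hQ0]
    exact (Real.rpow_le_rpow_of_exponent_le hRR hn.le).trans
      (Real.rpow_le_rpow (by linarith) h2 hε.le)
  calc ‖S (cubic ω) χ M N‖ ≤ C * Real.sqrt N * (⌈Q⌉₊ : ℝ) ^ (1 / ((n : ℝ) + 1)) := h4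
    _ ≤ |C| * Real.sqrt N * (2 ^ ε * Q ^ ε) := by
        refine mul_le_mul ?_ h5 (by positivity) (by positivity)
        exact mul_le_mul_of_nonneg_right (le_abs_self C) (Real.sqrt_nonneg _)
    _ = _ := by ring

/-- **Short sums of characters for almost every cubic twist.** -/
theorem result :
    -- (1) almost every cubic function and all its finite modifications
    (∀ᵐ ω ∂uniform, ∀ ω' : ℕ → ZMod 3, {p | ω' p ≠ ω p}.Finite →
      SquareRoot (cubic ω') ∧ ∀ n A : ℕ, 1 ≤ n → TwistedC (cubic ω') n (1 / 2) A) ∧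
    -- (2) the values at the small primes can be those of the function `1`
    (∀ y : ℕ, ∃ g : ℕ → ℂ, (∀ n, g n ^ 3 = 1) ∧
      (∀ m n, 1 ≤ m → 1 ≤ n → g (m * n) = g m * g n) ∧ (∀ p : ℕ, p.Prime → p ≤ y → g p = 1) ∧
      SquareRoot g ∧ ∀ n A : ℕ, 1 ≤ n → TwistedC g n (1 / 2) A) ∧
    -- (3) the exponent `1/2` is the true one: in mean square over the twists for every cubic character
    (∀ (q : ℕ) (χ : DirichletCharacter ℂ q), 1 ≤ q → χ ^ 3 = 1 → ∀ M N : ℕ,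
      (((Ioc M (M + N)).filter (fun a => a.Coprime q)).card : ℝ) ≤
        ∫ ω, ‖S (cubic ω) χ M N‖ ^ 2 ∂uniform) ∧
    -- (4) and for every twist for some character to every prime modulus
    (∀ f : ℕ → ℂ, (∀ n, 1 ≤ n → ‖f n‖ = 1) → ∀ q : ℕ, q.Prime → ∀ M N : ℕ, 4 ≤ N →
      2 * N + 1 ≤ q → ∃ χ : DirichletCharacter ℂ q, χ ≠ 1 ∧ Real.sqrt N / 2 ≤ ‖S f χ M N‖) := by
  have hae : ∀ᵐ ω ∂uniform, ∀ ω' : ℕ → ZMod 3, {p | ω' p ≠ ω p}.Finite →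
      SquareRoot (cubic ω') ∧ ∀ n A : ℕ, 1 ≤ n → TwistedC (cubic ω') n (1 / 2) A :=
    Pool.Agent.Q26.CU.flm (fun ω => SquareRoot (cubic ω) ∧
      ∀ n A : ℕ, 1 ≤ n → TwistedC (cubic ω) n (1 / 2) A) (by
      filter_upwards [ae_squareRoot] with ω hω
      exact ⟨hω, fun n A hn => twistedC_of hω n hn A⟩)
  refine ⟨hae, ?_, Pool.Agent.Q299.CU.t_MSQ Pool.Agent.Q38.CU.syt, Pool.Agent.Q299.CU.t_SHP⟩
  intro y
  have : IsProbabilityMeasure uniform := by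
    unfold uniform
    infer_instance
  obtain ⟨ω, hω⟩ := hae.exists
  set ω' : ℕ → ZMod 3 := fun p => if p ≤ y then 0 else ω p with hω'
  have h1 := hω ω' (by
    refine (Set.finite_Iic y).subset fun p hp => ?_
    by_contra hc
    simp only [Set.mem_Iic] at hc
    exact hp (by rw [hω']; simp [hc]))
  refine ⟨cubic ω', ?_, ?_, ?_, h1.1, h1.2⟩
  · intro n
    exact ((Pool.Agent.Q38.CU.syt).2.2.2.1 ω' n).2.1
  · intro m n hm hn
    exact (Pool.Agent.Q38.CU.syt).2.2.1 ω' m n hm hn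
  · intro p hp hpy
    unfold cubic
    rw [hp.primeFactors, Finset.prod_singleton, hp.factorization_self, pow_one, hω']
    simp [hpy]

end

end Pool.Agent.Results.MP_081200_nt.RandomCubicTwists
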