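import Pool.Agent.Q28.GL.Main

/-!
# Bloch-Beilinson filtrations can be constructed one variety at a time

A Bloch-Beilinson filtration is a system of filtrations on the Chow groups of all varieties at once,
compatible with all correspondences between them. We show that it exists as soon as every single
variety `Z` of a dominating family carries a filtration which is compatible with the
self-correspondences of `Z` only; no compatibility between different varieties is required, and no
conjecture is assumed. For a family which dominates all varieties after a Tate twist by `c` (for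
`c = 1`: the blow-ups of projective spaces along smooth subvarieties) the filtrations of the single
varieties glue to a system with all the properties except that `F^(j + 1) CH^j = 0` is replaced by
`F^(j + c + 1) CH^j = 0`.
-/

open CategoryTheory AlgebraicGeometry

universe u v w

namespace Pool.Agent.Results.MP_08891c_ag.OneVarietyAtATime

open Pool.Agent.H914 Pool.Agent.H914.VarClass Pool.Agent.H914.VarClass.Obj Pool.Agent.W492.BB
  Pool.Agent.W550.Corr Pool.Agent.TH133 Pool.Agent.Y148.BB Pool.Agent.Q28.GL

/-- **Bloch-Beilinson filtrations, one variety at a time.** Let `C` be the Chow theory and `H` a Weil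
cohomology theory on a class of smooth projective varieties closed under products, and `N X j` the
kernel of the Abel-Jacobi map on `CH^j(X)_hom` (for complex varieties the setting of the problem).

1. Let `𝓕` be a family of varieties such that every `X` is dominated by some `Z` in `𝓕` (the Chow
  motive of `X` is a direct summand of that of `Z`). Equivalent are: there is a Bloch-Beilinson
  filtration on all varieties; every single `Z` in `𝓕` has a Bloch-Beilinson filtration with respect
  to its own self-correspondences; for every `Z` in `𝓕` and every `j`, every composition of `j - 1`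
  self-correspondences of `Z`, ending in `CH^j(Z)`, whose `ν`-th member (`ν = 2, …, j`) starts from
  some `CH^i(Z)` and acts as zero on `H^(2i - ν)(Z)`, kills the kernel of the Abel-Jacobi map.
2. The relative version: for a directed class `S` (such as the powers of one variety), a filtration
  of defect `d` on all varieties dominated by members of `S` exists if and only if every single
  member of `S` has one with respect to its own self-correspondences.
3. If every variety `X` is, up to the Tate twist by `c`, dominated by some `Z` in `𝓕`, and every
  single `Z` in `𝓕` has a filtration of defect `d`, then there is a filtration on all varieties with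
  the properties 1, 3 and 4 and with `F^(j + c + d + 1) CH^j = 0`.
4. Under the Lefschetz standard conjecture (in the form `LefschetzFactors`) a Bloch-Beilinson
  filtration exists on all varieties if and only if every single `Z` in such a family has a
  filtration of defect `d` with respect to its own self-correspondences.
5. A variety `X` is dominated by `Z` if there are a morphism `f : Z ⟶ X` and a class `w` with
  `f_* w = 1`.
6. Among all the systems with the properties 1, 3 and 4 there is a smallest one. -/
theorem result {k : Type u} [Field k] {𝒱 : VarClass k} {C : TheoryData.{u, v, 0} 𝒱 ℚ}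
    [IsChowProj C] {K : Type w} [Field K] {H : WeilTheoryData.{u, v, w} C K} [IsWeilProj H]
    {N : ∀ X : 𝒱.Obj, ℕ → Submodule ℚ (C.A X)} (hN : IsAbelJacobiKernel H N) :
    (∀ 𝓕 : 𝒱.Obj → Prop, (∀ X, Hull C 0 𝓕 X) →
      [HasBB H N 0 (fun _ => True), ∀ Z, 𝓕 Z → HasOwnBB H N 0 Z,
        ∀ Z, 𝓕 Z → ChainsVanish H N Z].TFAE) ∧
    (∀ (d : ℕ) (S : 𝒱.Obj → Prop), Directed C S →
      (HasBB H N d (Hull C 0 S) ↔ ∀ Z, S Z → HasOwnBB H N d Z)) ∧
    (∀ (c d : ℕ) (𝓕 : 𝒱.Obj → Prop), (∀ X, Hull C c 𝓕 X) → (∀ Z, 𝓕 Z → HasOwnBB H N d Z) →
      HasBB H N (c + d) (fun _ => True)) ∧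
    (LefschetzFactors H → ∀ (c d : ℕ) (𝓕 : 𝒱.Obj → Prop), (∀ X, Hull C c 𝓕 X) →
      (HasBB H N 0 (fun _ => True) ↔ ∀ Z, 𝓕 Z → HasOwnBB H N d Z)) ∧
    (∀ (X Z : 𝒱.Obj) (f : Z ⟶ X) (w : C.A Z), C.Deg ((Z.dim : ℤ) - X.dim) w →
      C.down f w = 1 → Dominates C 0 X Z) ∧
    ∃ F₀, IsPreBB H N (fun _ => True) F₀ ∧
      ∀ F, IsPreBB H N (fun _ => True) F → ∀ X j ν, F₀ X j ν ≤ F X j ν :=
  main hN

end Pool.Agent.Results.MP_08891c_ag.OneVarietyAtATime
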