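import Pool.Agent.Q284.GE.Lev

/-!
# The Riemann hypothesis for all abelian twists does not bound the Ramanujan exponents

`K = F(T)`, `F` ANY finite field, `q = |F|`, `n = 2g`, `g ≥ 4`, `δ > 0`.  For EVERY function `θ` from the finite places
of `K` to `[0, 1/2 - 1/(g-1) - δ]` there are self-dual unramified `Π_P` of `PGL_2g` at all finite places `P`, with
Satake parameters `|P|^(θ P) β_j`, `|P|^(-θ P) β_j`, `|β_j| = 1` (`j = 1, ..., g`; unitary and generic: products of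
complementary series), such that for EVERY idele class character `χ` of `K` (up to unramified twists `|·|^s`: the
primitive Hayes characters of any level), with whatever ramification, the twisted standard `L`-function
`L(s, Π ⊗ χ)` is a polynomial in `q^(-s)` of the prescribed degree `D χ` with functional equation with the prescribed
root number `ε χ`, and ALL its zeros are on the line `Re s = 1/2`.

The degrees: every `D χ ≥ ν (deg Q + max M (l + 1) - 2)`, `ν ≥ 9`, `M ≥ M₀(g, δ)`, is allowed; for `g ≥ 5` one can take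
`ν = 2g` and the degree for a supercuspidal `Π_∞` of depth `M - 1`.

Projects WE (Weil's bound for all Hayes characters) and GE: plan, statements with paper proofs and assembly by
helper284; lemmas proved by helpers 14, 24, 31, 53, 68, 92, 96, 150, 151, 154, 166, 182, 190, 198, 208, 224, 237, 241,
265, 275, 277.
-/

set_option autoImplicit false

open Finset Polynomial ComplexConjugate

namespace Pool.Agent.Results.MP_08cfa9_nt.ExponentsUnderGRH

open Pool.Agent.Q284.PS (Prim Place absPow Nice Tempered)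
open Pool.Agent.Q284.PX (SelfDual stFactor)
open Pool.Agent.Q284.GE (RiemannHypothesis)

theorem result : ∀ (g : ℕ) (δ : ℝ), 4 ≤ g → 0 < δ → ∃ M₀ : ℕ, 3 ≤ M₀ ∧ ∀ (F : Type) [Field F] [Fintype F]
    (θ : F[X] → ℝ), (∀ P, 0 ≤ θ P ∧ θ P ≤ 1 / 2 - 1 / ((g : ℝ) - 1) - δ) → ∀ ν M : ℕ, 9 ≤ ν → M₀ ≤ M →
    ∀ (D : F[X] → ℕ → (F[X] → ℂ) → ℕ) (ε : (F[X] → ℂ) → ℂ),
    -- degrees and root numbers
    (∀ (Q : F[X]) (l : ℕ) (χ : F[X] → ℂ), Prim Q l χ →
      ν * (Q.natDegree + max M (l + 1) - 2) ≤ D Q l χ ∧ D Q l (fun f => conj (χ f)) = D Q l χ) →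
    (∀ χ, ‖ε χ‖ = 1) → (∀ χ, ε (fun f => conj (χ f)) = conj (ε χ)) →
    ∃ β : F[X] → Fin g → ℂ, Tempered β ∧ SelfDual β ∧
      ∀ (Q : F[X]) (l : ℕ) (χ : F[X] → ℂ), Prim Q l χ → ∃ L : ℂ → ℂ,
        Nice (Fintype.card F) (D Q l χ) (ε χ) L ∧ RiemannHypothesis L ∧
        ∀ s : ℂ, 1 - 9 / 10 * (1 / 2 - 4 / (ν : ℝ)) < s.re → 1 - 1 / ((g : ℝ) - 1) - δ < s.re →
          HasProd (stFactor θ β χ s) (L s) := by
  intro g δ hg hδ
  obtain ⟨M₀, hM₀, h⟩ := Pool.Agent.Q284.GE.expStm g δ hg hδ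
  refine ⟨M₀, hM₀, ?_⟩
  intro F _ _ θ hθ ν M hν hM D ε hD hε hεc
  obtain ⟨β, h1, h2, h3⟩ := h F θ hθ ν M hν hM (Pool.Agent.Q284.GE.lev D) ε (by
    intro Q l χ hχ
    rw [Pool.Agent.Q284.GE.lev_eq _ hχ, Pool.Agent.Q284.GE.lev_eq _ (Pool.Agent.Q284.GE.prim_conj hχ)]
    exact hD Q l χ hχ) hε hεc
  refine ⟨β, h1, h2, ?_⟩
  intro Q l χ hχ
  obtain ⟨L, h6, h7, h8⟩ := h3 Q l χ hχ
  rw [Pool.Agent.Q284.GE.lev_eq _ hχ] at h6
  exact ⟨L, h6, h7, h8⟩

end Pool.Agent.Results.MP_08cfa9_nt.ExponentsUnderGRH
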