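import Pool.Agent.Q207.HO.Cut

/-!
# Nodal domains at several places at which a cusp form on `GL₂` violates the Ramanujan conjecture

Let `K` be a number field and `S = {v_i : i ∈ ι}` a finite set of finite places, `q_i = N v_i`. The vertices of the Bruhat-Tits tree
`T_i` of `PGL₂(K_{v_i})` are the cosets of the maximal compact subgroup `PGL₂(𝓞_{v_i})`, and `T_i` is a `(q_i + 1)`-regular tree. Let
`φ` be a bounded real function on `PGL₂(𝔸_K)` which is right invariant under the groups `PGL₂(𝓞_{v_i})` and an eigenfunction of the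
Hecke operators at the `v_i` (the real or the imaginary part of a form in a cuspidal representation `Π` with trivial central
character which is unramified at the places of `S`; all of these are globally generic), with the eigenvalues
`λ_i = q_i ^ (1 / 2) (α_i + α_i ^ (-1))`. For a fixed `g` the function `x ↦ φ(g x)` on the product of the sets of vertices of the
trees is an eigenfunction, with the eigenvalue `λ_i`, of the sum over the neighbours in the `i`-th coordinate. The component of `Π` at
`v_i` is tempered if and only if `|λ_i| ≤ 2 q_i ^ (1 / 2)`; if it is not tempered, then `|λ_i| = q_i ^ s + q_i ^ (1 - s)` with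
`s = 1 / 2 + θ_i`, where `q_i ^ (± θ_i)` are the absolute values of the Satake parameters.

For a function `F` on the product `∏ V i` of the sets of vertices of several regular trees with the eigenvalues `λ_i` let
`H = ∏ sgn(λ_i) ^ (level) F`. A nodal domain `D` of `F` is here a set of points with `H > 0` which contains all the neighbours with
`H > 0` of its points: a connected component, a union of components or, for a form on `PGL₂(𝔸_K)`, the slice (in the variables of
`S`) of a component of `{H > 0}` in a space with further variables. The theorem gives a lower bound for the growth of all these sets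
in all directions simultaneously: if the Ramanujan conjecture fails at all the places of `S`, then at least the proportion
`(|F(x)| / M)` of `N ^ (1 / 2 + θ)`, more precisely `∏ q_i ^ ((1 / 2 + θ_i) n_i)`, of the Hecke points of `x` of index
`N = ∏ q_i ^ (n_i)` lie in the nodal domain of `x`. The mass of `D` on the product of the spheres of radii `n_i` is at least
`|F(x)|` times the product of the eigenvalues of the operators `sum over the sphere of radius n_i`, as if `F` were of constant sign,
and it grows by the factor `q_i ^ (1 / 2 + θ_i)` at least in each step in the direction `i`.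

The last part of the theorem is a lower bound for the size of the boundary of a nodal domain. A finite set `P_i` of vertices of
`T_i` is called a cutset about `x_i` if only finitely many vertices can be reached from `x_i` without meeting `P_i`; it is a finite
covering of the boundary `ℙ¹(K_{v_i})` of the tree by balls of radii `q_i ^ (-d)` (in the metric of the point `x_i`), with `d` the
distance of `x_i` and the vertex. For all cutsets the sum of the `∏ q_i ^ (-(1 / 2 + θ_i) d_i)` over the points of `D` in `∏ P_i` is at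
least `|F(x)| / M`: in the product of the boundaries the ends of `D` have positive content for the product gauge with the exponents
`1 / 2 + θ_i`, in all scales and for all coverings by products of balls of this kind.

Conversely, one point `x` and one `n`, or one family of cutsets, for which few Hecke points lie in the nodal domain of `x` prove that
the component of `Π` is tempered, or at least less non-tempered than assumed, at one of the places of `S`.
-/

set_option autoImplicit false

namespace Pool.Agent.Results.MP_08cfa9_nt.HeckeOrbitsSeveralPlaces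

open Finset

/-- The eigenvalue of the sum over the sphere of radius `n` of the `(q + 1)`-regular tree, for an eigenfunction of the sum over the
neighbours with the eigenvalue `L`: `1`, `L`, `L ^ 2 - (q + 1)`, and `L * a - q * b` for the two previous values `b`, `a`. -/
noncomputable def sphereEigenvalue (q : ℕ) (L : ℝ) : ℕ → ℝ
  | 0 => 1
  | 1 => L
  | n + 2 => L * sphereEigenvalue q L (n + 1) - (if n = 0 then (q : ℝ) + 1 else q) * sphereEigenvalue q L n

section

variable {ι : Type} [Fintype ι] [DecidableEq ι] {V : ι → Type} (G : ∀ i, SimpleGraph (V i))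

/-- For each `i`, the function `F` is an eigenfunction of the sum over the neighbours in the `i`-th coordinate, with the
eigenvalue `lam i`. -/
def IsEigenfunction [∀ i, (G i).LocallyFinite] (lam : ι → ℝ) (F : (∀ i, V i) → ℝ) : Prop :=
  ∀ i x, ∑ z ∈ (G i).neighborFinset (x i), F (Function.update x i z) = lam i * F x

/-- The function `F` times the product of the `(sign of lam i) ^ (distance of x i and o i)`. -/
noncomputable def twist (lam : ι → ℝ) (F : (∀ i, V i) → ℝ) (o x : ∀ i, V i) : ℝ :=
  (∏ i, (SignType.sign (lam i) : ℝ) ^ (G i).dist (o i) (x i)) * F x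

/-- `D` is a set of points at which `H` is positive, and all the neighbours of the points of `D` at which `H` is positive are
in `D`. -/
def IsNodal (H : (∀ i, V i) → ℝ) (D : Set (∀ i, V i)) : Prop :=
  (∀ x ∈ D, 0 < H x) ∧ ∀ x ∈ D, ∀ i z, (G i).Adj (x i) z → 0 < H (Function.update x i z) → Function.update x i z ∈ D

/-- The points of `D` on the product of the spheres of radii `n i` about the `x i`. -/
def slice (D : Set (∀ i, V i)) (x : ∀ i, V i) (n : ι → ℕ) : Set (∀ i, V i) := {y | y ∈ D ∧ ∀ i, (G i).dist (x i) (y i) = n i}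

/-- The sum of the `|F y|` for the points `y` of `D` on the product of the spheres of radii `n i` about the `x i`. -/
noncomputable def mass (F : (∀ i, V i) → ℝ) (D : Set (∀ i, V i)) (x : ∀ i, V i) (n : ι → ℕ) : ℝ := ∑ᶠ y ∈ slice G D x n, |F y|

/-- The finite sets `P i` are cutsets about the points `x i`: only finitely many vertices `v` can be reached from `x i` by a walk
which does not meet `P i`. -/
def IsCutset (P : ∀ i, Finset (V i)) (x : ∀ i, V i) : Prop :=
  ∀ i, {v | ∃ p : (G i).Walk (x i) v, ∀ w ∈ p.support, w ∉ P i}.Finite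

/-- The product of the `(q i) ^ (- s i * d i)`, `d i` the distance of `x i` and `y i`. -/
noncomputable def gauge (q : ι → ℕ) (s : ι → ℝ) (x y : ∀ i, V i) : ℝ := ∏ i, (q i : ℝ) ^ (-s i * (G i).dist (x i) (y i))

end

/-! ### Proofs -/

lemma sphere_eq (q : ℕ) (L : ℝ) : (n : ℕ) → sphereEigenvalue q L n = Q207.HO.sigma q L n
  | 0 => rfl
  | 1 => rfl
  | n + 2 => by
    rw [sphereEigenvalue, Q207.HO.sigma, sphere_eq q L (n + 1), sphere_eq q L n]

section

variable {ι : Type} [Fintype ι] [DecidableEq ι] {V : ι → Type} {G : ∀ i, SimpleGraph (V i)} [∀ i, (G i).LocallyFinite]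

open Classical in
lemma slice_eq (hG : ∀ i, (G i).IsTree) (D : Set (∀ i, V i)) (x : ∀ i, V i) (n : ι → ℕ) :
    slice G D x n = ((Fintype.piFinset fun i => Q207.HO.sph (G i) (x i) (n i)).filter fun y => y ∈ D : Finset (∀ i, V i)) := by
  ext y
  rw [coe_filter]
  show (y ∈ D ∧ _) ↔ (y ∈ Fintype.piFinset _ ∧ y ∈ D)
  rw [Fintype.mem_piFinset, and_comm]
  refine and_congr (forall_congr' fun i => ?_) Iff.rfl
  rw [Q207.HO.mem_sph (hG i).connected]

open Classical in
lemma mass_eq (hG : ∀ i, (G i).IsTree) (F : (∀ i, V i) → ℝ) (D : Set (∀ i, V i)) (x : ∀ i, V i) (n : ι → ℕ) :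
    mass G F D x n = Q207.HO.S G (fun y => if y ∈ D then |F y| else 0) x n := by
  unfold mass
  rw [slice_eq hG, finsum_mem_coe_finset, sum_filter]
  rfl

omit [∀ i, (G i).LocallyFinite] in
lemma twist_update (hG : ∀ i, (G i).IsTree) {lam : ι → ℝ} (hl : ∀ i, lam i ≠ 0) (F : (∀ i, V i) → ℝ) (o x : ∀ i, V i) (i : ι)
    (z : V i) (hz : (G i).Adj (x i) z) :
    twist G lam F o (Function.update x i z) = (SignType.sign (lam i) : ℝ) *
      (∏ i, (SignType.sign (lam i) : ℝ) ^ (G i).dist (o i) (x i)) * F (Function.update x i z) := by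
  unfold twist
  congr 1
  rw [← mul_prod_erase univ _ (mem_univ i), ← mul_prod_erase univ _ (mem_univ i), ← mul_assoc]
  congr 1
  · rw [Function.update_self]
    have hs : (SignType.sign (lam i) : ℝ) * (SignType.sign (lam i) : ℝ) = 1 := by
      rcases lt_or_gt_of_ne (hl i) with h | h
      · rw [sign_neg h]
        norm_num
      · rw [sign_pos h]
        norm_num
    rcases (hG i).dist_eq_dist_add_one_of_adj (o i) hz with h | h
    · rw [h, pow_succ, mul_comm, mul_assoc, hs, mul_one]
    · rw [h, pow_succ, mul_comm]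
  · refine prod_congr rfl fun j hj => ?_
    rw [Function.update_of_ne (mem_erase.1 hj).1]

open Classical in
lemma subsolution (hG : ∀ i, (G i).IsTree) {lam : ι → ℝ} (hl : ∀ i, lam i ≠ 0) {F : (∀ i, V i) → ℝ} (hF : IsEigenfunction G lam F)
    {o : ∀ i, V i} {D : Set (∀ i, V i)} (hD : IsNodal G (twist G lam F o) D) (i : ι) (v : ∀ i, V i) :
    |lam i| * (if v ∈ D then |F v| else 0) ≤
      ∑ z ∈ (G i).neighborFinset (v i), (if Function.update v i z ∈ D then |F (Function.update v i z)| else 0) := by
  have hsq : ∀ i, (SignType.sign (lam i) : ℝ) * (SignType.sign (lam i) : ℝ) = 1 := by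
    intro i
    rcases lt_or_gt_of_ne (hl i) with h | h
    · rw [sign_neg h]
      norm_num
    · rw [sign_pos h]
      norm_num
  have hτ : ∀ y : ∀ i, V i, (∏ i, (SignType.sign (lam i) : ℝ) ^ (G i).dist (o i) (y i)) *
      (∏ i, (SignType.sign (lam i) : ℝ) ^ (G i).dist (o i) (y i)) = 1 := by
    intro y
    rw [← prod_mul_distrib]
    refine prod_eq_one fun i _ => ?_
    rw [← mul_pow, hsq, one_pow]
  have habs : ∀ y : ∀ i, V i, 0 < twist G lam F o y → twist G lam F o y = |F y| := by
    intro y hy
    have h1 : twist G lam F o y ^ 2 = |F y| ^ 2 := by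
      unfold twist
      rw [mul_pow, sq_abs, pow_two, hτ y, one_mul]
    exact (sq_eq_sq₀ hy.le (abs_nonneg _)).1 h1
  by_cases hv : v ∈ D
  · rw [if_pos hv, ← habs v (hD.1 v hv)]
    have h2 : |lam i| * twist G lam F o v = ∑ z ∈ (G i).neighborFinset (v i), twist G lam F o (Function.update v i z) := by
      have h3 : ∑ z ∈ (G i).neighborFinset (v i), twist G lam F o (Function.update v i z) =
          ∑ z ∈ (G i).neighborFinset (v i), (SignType.sign (lam i) : ℝ) *
            (∏ i, (SignType.sign (lam i) : ℝ) ^ (G i).dist (o i) (v i)) * F (Function.update v i z) :=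
        sum_congr rfl fun z hz => twist_update hG hl F o v i z ((SimpleGraph.mem_neighborFinset _ _ _).1 hz)
      rw [h3, ← mul_sum, hF i v, ← sign_mul_self (lam i)]
      unfold twist
      ring_nf
    rw [h2]
    refine sum_le_sum fun z hz => ?_
    rcases le_or_gt (twist G lam F o (Function.update v i z)) 0 with h3 | h3
    · refine h3.trans ?_
      split_ifs
      · exact abs_nonneg _
      · exact le_rfl
    · have h4 := hD.2 v hv i z ((SimpleGraph.mem_neighborFinset _ _ _).1 hz) h3
      rw [if_pos h4, habs _ h3]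
  · rw [if_neg hv, mul_zero]
    refine sum_nonneg fun z _ => ?_
    split_ifs
    · exact abs_nonneg _
    · exact le_rfl

end

/-- Let `G i`, `i ∈ ι`, be finitely many trees, `G i` regular of degree `q i + 1`, `q i ≥ 1`, let `F` be a real function on the product
of their sets of vertices, `|F| ≤ M`, which is for each `i` an eigenfunction, with the eigenvalue `lam i`, of the sum over the
neighbours in the `i`-th coordinate, let `D` be a nodal set of `F` (twisted by the signs of the `lam i`), `x ∈ D`, and let
`1 / 2 ≤ s i ≤ 1`.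

If `|lam i| ≥ (q i) ^ (s i) + (q i) ^ (1 - s i)` for all `i`, then for all radii `n i`
* the mass of `D` grows in each direction: the mass for the radii `n i + 1` and `n j`, `j ≠ i`, is at least `(q i) ^ (s i)` times the
  mass for the radii `n`;
* the mass of `D` for the radii `n` is at least `|F x|` times the product of the eigenvalues of the sums over the spheres of radii
  `n i` for the eigenvalues `|lam i|`;
* this product is at least `∏ (q i) ^ (s i * n i)`;
* at least `(|F x| / M) ∏ (q i) ^ (s i * n i)` points `y` of `D` have distance `n i` from `x` in the coordinate `i` for all `i`.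

Moreover, for all cutsets `P i` about the points `x i` the sum of the `∏ (q i) ^ (- s i * d (x i, y i)) |F y|` for the points `y` of
`D` with `y i ∈ P i` for all `i` is at least `|F x|`, so that the sum of the `∏ (q i) ^ (- s i * d (x i, y i))` for these points is at
least `|F x| / M`.

Consequently, if one of the last inequalities of the two parts is violated, for one `n` or one family of cutsets, then
`|lam i| < (q i) ^ (s i) + (q i) ^ (1 - s i)` for at least one `i`. -/
theorem result {ι : Type} [Fintype ι] [DecidableEq ι] {V : ι → Type} (G : ∀ i, SimpleGraph (V i)) [∀ i, (G i).LocallyFinite]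
    (q : ι → ℕ) (hq : ∀ i, 1 ≤ q i) (hG : ∀ i, (G i).IsTree) (hreg : ∀ i v, (G i).degree v = q i + 1)
    (lam : ι → ℝ) (F : (∀ i, V i) → ℝ) (M : ℝ) (hM : ∀ x, |F x| ≤ M) (hF : IsEigenfunction G lam F)
    (o : ∀ i, V i) (D : Set (∀ i, V i)) (hD : IsNodal G (twist G lam F o) D) (s : ι → ℝ) (hs : ∀ i, 1 / 2 ≤ s i ∧ s i ≤ 1)
    (x : ∀ i, V i) (hx : x ∈ D) :
    ((∀ i, (q i : ℝ) ^ s i + (q i : ℝ) ^ (1 - s i) ≤ |lam i|) →
      ∀ n : ι → ℕ,
        (∀ i, (q i : ℝ) ^ s i * mass G F D x n ≤ mass G F D x (Function.update n i (n i + 1))) ∧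
        (∏ i, sphereEigenvalue (q i) |lam i| (n i)) * |F x| ≤ mass G F D x n ∧
        ∏ i, (q i : ℝ) ^ (s i * n i) ≤ ∏ i, sphereEigenvalue (q i) |lam i| (n i) ∧
        (slice G D x n).Finite ∧ (∏ i, (q i : ℝ) ^ (s i * n i)) * |F x| ≤ (slice G D x n).ncard * M) ∧
    ((∀ i, (q i : ℝ) ^ s i + (q i : ℝ) ^ (1 - s i) ≤ |lam i|) →
      ∀ P : ∀ i, Finset (V i), IsCutset G P x →
        |F x| ≤ ∑ᶠ y ∈ {y | y ∈ D ∧ ∀ i, y i ∈ P i}, gauge G q s x y * |F y| ∧
        |F x| ≤ (∑ᶠ y ∈ {y | y ∈ D ∧ ∀ i, y i ∈ P i}, gauge G q s x y) * M) ∧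
    (∀ n : ι → ℕ, (slice G D x n).ncard * M < (∏ i, (q i : ℝ) ^ (s i * n i)) * |F x| →
      ∃ i, |lam i| < (q i : ℝ) ^ s i + (q i : ℝ) ^ (1 - s i)) ∧
    (∀ P : ∀ i, Finset (V i), IsCutset G P x → (∑ᶠ y ∈ {y | y ∈ D ∧ ∀ i, y i ∈ P i}, gauge G q s x y) * M < |F x| →
      ∃ i, |lam i| < (q i : ℝ) ^ s i + (q i : ℝ) ^ (1 - s i)) := by
  classical
  have hl : (∀ i, (q i : ℝ) ^ s i + (q i : ℝ) ^ (1 - s i) ≤ |lam i|) → ∀ i, lam i ≠ 0 := by
    intro hL i h
    have h1 := hL i
    rw [h, abs_zero] at h1
    have hqp : (0 : ℝ) < q i := by exact_mod_cast hq i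
    have h2 := Real.rpow_pos_of_pos hqp (s i)
    have h3 := Real.rpow_pos_of_pos hqp (1 - s i)
    linarith
  obtain ⟨u, hu⟩ : ∃ u : (∀ i, V i) → ℝ, u = fun y => if y ∈ D then |F y| else 0 := ⟨_, rfl⟩
  have hu0 : ∀ v, 0 ≤ u v := by
    intro v
    rw [hu]
    dsimp only
    split_ifs
    · exact abs_nonneg _
    · exact le_rfl
  have hA : (∀ i, (q i : ℝ) ^ s i + (q i : ℝ) ^ (1 - s i) ≤ |lam i|) →
      ∀ i v, |lam i| * u v ≤ ∑ z ∈ (G i).neighborFinset (v i), u (Function.update v i z) := by
    intro hL i v
    rw [hu]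
    exact subsolution hG (hl hL) hF hD i v
  have hux : u x = |F x| := by
    rw [hu]
    dsimp only
    rw [if_pos hx]
  have main : (∀ i, (q i : ℝ) ^ s i + (q i : ℝ) ^ (1 - s i) ≤ |lam i|) →
      ∀ n : ι → ℕ,
        (∀ i, (q i : ℝ) ^ s i * mass G F D x n ≤ mass G F D x (Function.update n i (n i + 1))) ∧
        (∏ i, sphereEigenvalue (q i) |lam i| (n i)) * |F x| ≤ mass G F D x n ∧
        ∏ i, (q i : ℝ) ^ (s i * n i) ≤ ∏ i, sphereEigenvalue (q i) |lam i| (n i) ∧
        (slice G D x n).Finite ∧ (∏ i, (q i : ℝ) ^ (s i * n i)) * |F x| ≤ (slice G D x n).ncard * M := by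
    intro hL n
    have hm : ∀ n, mass G F D x n = Q207.HO.S G u x n := fun n => by rw [mass_eq hG, hu]
    have h2 : (∏ i, sphereEigenvalue (q i) |lam i| (n i)) * |F x| ≤ mass G F D x n := by
      have h := Q207.HO.S_all hG hq hreg hu0 x (fun i => (hs i).2) hL (hA hL) n
      rw [hm, ← hux]
      refine le_trans (le_of_eq ?_) h
      congr 1
      exact prod_congr rfl fun i _ => sphere_eq _ _ _
    have h3 : ∏ i, (q i : ℝ) ^ (s i * n i) ≤ ∏ i, sphereEigenvalue (q i) |lam i| (n i) := by
      refine prod_le_prod (fun i _ => Real.rpow_nonneg (Nat.cast_nonneg _) _) fun i _ => ?_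
      rw [sphere_eq]
      exact Q207.HO.sigma_ge (hq i) (hs i).2 (hL i) (n i)
    have hfin : (slice G D x n).Finite := by
      rw [slice_eq hG]
      exact finite_toSet _
    refine ⟨fun i => ?_, h2, h3, hfin, ?_⟩
    · have h := (Q207.HO.S_step hG hq hreg hu0 x (fun i => (hs i).2) hL (hA hL) n i (n i)).1
      rw [Function.update_eq_self] at h
      rw [hm, hm]
      exact h
    · have h4 : (∏ i, (q i : ℝ) ^ (s i * n i)) * |F x| ≤ mass G F D x n :=
        (mul_le_mul_of_nonneg_right h3 (abs_nonneg _)).trans h2
      refine h4.trans ?_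
      unfold mass
      rw [slice_eq hG, finsum_mem_coe_finset, Set.ncard_coe_finset, ← nsmul_eq_mul]
      exact sum_le_card_nsmul _ _ _ fun y _ => hM y
  have main' : (∀ i, (q i : ℝ) ^ s i + (q i : ℝ) ^ (1 - s i) ≤ |lam i|) →
      ∀ P : ∀ i, Finset (V i), IsCutset G P x →
        |F x| ≤ ∑ᶠ y ∈ {y | y ∈ D ∧ ∀ i, y i ∈ P i}, gauge G q s x y * |F y| ∧
        |F x| ≤ (∑ᶠ y ∈ {y | y ∈ D ∧ ∀ i, y i ∈ P i}, gauge G q s x y) * M := by
    intro hL P hP
    have hset : {y : ∀ i, V i | y ∈ D ∧ ∀ i, y i ∈ P i} =
        ((Fintype.piFinset P).filter fun y => y ∈ D : Finset (∀ i, V i)) := by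
      ext y
      rw [coe_filter]
      show (y ∈ D ∧ _) ↔ (y ∈ Fintype.piFinset _ ∧ y ∈ D)
      rw [Fintype.mem_piFinset, and_comm]
    have hg : ∀ y, 0 ≤ gauge G q s x y := fun y => prod_nonneg fun i _ => Real.rpow_nonneg (Nat.cast_nonneg _) _
    have h1 : |F x| ≤ ∑ᶠ y ∈ {y | y ∈ D ∧ ∀ i, y i ∈ P i}, gauge G q s x y * |F y| := by
      have h := Q207.HO.cut_all hG hq hreg hu0 x (s := s) (fun i => by have := (hs i).1; linarith) hL (hA hL) P hP
      rw [hux] at h
      refine h.trans (le_of_eq ?_)
      rw [hset, finsum_mem_coe_finset, sum_filter]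
      refine sum_congr rfl fun y _ => ?_
      rw [hu]
      dsimp only
      split_ifs
      · rfl
      · rw [mul_zero]
    refine ⟨h1, h1.trans ?_⟩
    rw [hset, finsum_mem_coe_finset, finsum_mem_coe_finset, sum_mul]
    exact sum_le_sum fun y _ => mul_le_mul_of_nonneg_left (hM y) (hg y)
  refine ⟨main, main', fun n hn => ?_, fun P hP hn => ?_⟩
  · by_contra h
    push Not at h
    have h1 := (main h n).2.2.2.2
    linarith
  · by_contra h
    push Not at h
    have h1 := (main' h P hP).2
    linarith

end Pool.Agent.Results.MP_08cfa9_nt.HeckeOrbitsSeveralPlaces
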