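import Mathlib
import Pool.Agent.Q212.SC.Abs
import Pool.Agent.Q212.SC.Avg
import Pool.Agent.Q212.SC.Iwa

/-!
# Nodal domains of automorphic forms which violate the Ramanujan conjecture

`G` is a group, `K` a subgroup, `B` a subset with `G = B K` (think of `G = G(k_v)` for an
unramified reductive group, `K` a special maximal compact subgroup times the centre, `B` a
Borel subgroup; or of restricted products of these).  `a` is a non-negative finitely supported
`K`-invariant function on the set of vertices `X = G / K` and `(A F)(gK) = ∑ a(y) F(g y)` the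
Hecke operator.  A real automorphic form `φ` gives the functions `F(y) = φ(h y)`, `A F = L F`.
The functions `w > 0` with `w(b x) = w(b K) w(x)` for `b ∈ B` are the horospherical functions,
`â(w) = ∑ a(y) w(y)` is the Satake transform at the corresponding real positive parameter.

The hypothesis on the eigenvalue is `L > N`, where `⟨A f, f⟩ ≤ N ⟨f, f⟩` for all finitely
supported `f`: for symmetric `a` this says that `L` exceeds the norm of `A` on `ℓ²(X)`, which
is the Ramanujan bound for `L`.  For symmetric `a` every `N = â(w₀)` is admissible (Schur test,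
part of `result`), and the norm is `â(δ^{1/2})`.

`result` contains the exit inequality, the horoball theorem and the averaged exit inequality
for such pairs, and makes everything explicit for `GL_n` of a field with an ultrametric norm.
-/

namespace Pool.Agent.Results.MP_08cfa9_nt.SphericalCutsets

open Pool.Agent.Q212.SC MeasureTheory

universe u v

/-- The conclusions for a pair `(G, K)`, a Hecke operator `a`, a bound `L` and a function `w`. -/
structure Conclusions {G : Type u} [Group G] {K : Subgroup G} (a : G ⧸ K →₀ ℝ)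
    (w : G ⧸ K → ℝ) (L : ℝ) : Prop where
  /-- the exit inequality -/
  exit : ∀ F : G ⧸ K → ℝ, IsEigen a L F → ∀ (W : Finset (G ⧸ K)) (x : G ⧸ K), x ∈ W →
    (bdry a (W : Set (G ⧸ K))).Finite ∧
      F x ≤ ∑ᶠ v ∈ bdry a W ∩ nodal a F x, F v * gauge w x v
  /-- nodal domains are infinite -/
  infinite : ∀ F : G ⧸ K → ℝ, IsEigen a L F → ∀ x, 0 < F x → (nodal a F x).Infinite
  /-- nodal domains return infinitely often to the complement of every horoball -/
  horoball : ∀ F : G ⧸ K → ℝ, IsEigen a L F → ∀ (x : G ⧸ K) (M C : ℝ) (g : G), 0 < F x →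
    (∀ y ∈ nodal a F x, F y ≤ M) → M * w (g • x) < C * F x →
    {y ∈ nodal a F x | w (g • y) ≤ C}.Infinite
  /-- the averaged exit inequality -/
  average : ∀ [Countable (G ⧸ K)] (Ω : Type v) [MeasurableSpace Ω] (μ : Measure Ω)
    (F : Ω → G ⧸ K → ℝ), (∀ y, Measurable fun ω => F ω y) → (∀ᵐ ω ∂μ, IsEigen a L (F ω)) →
    ∀ (W : Finset (G ⧸ K)) (x : G ⧸ K), x ∈ W → ∀ N : Finset (G ⧸ K),
      bdry a (W : Set (G ⧸ K)) ⊆ N →
      ∫⁻ ω, ENNReal.ofReal (F ω x) ∂μ ≤ ∑ v ∈ N, ENNReal.ofReal (gauge w x v) *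
        ∫⁻ ω in {ω | 0 < F ω x ∧ v ∈ nodal a (F ω) x}, ENNReal.ofReal (F ω v) ∂μ

theorem conclusions {G : Type u} [Group G] {K : Subgroup G} {B : Set G}
    (hB : ∀ g : G, ∃ b ∈ B, ∃ k ∈ K, g = b * k) {a : G ⧸ K →₀ ℝ} (ha : IsHecke a)
    {w : G ⧸ K → ℝ} (hw : Horo B w) {N L : ℝ} (hN : Bound a N) (h0 : N < L)
    (h1 : satake a w ≤ L) : Conclusions.{u, v} a w L where
  exit F hF W x hx := ⟨bdry_finite ha W.finite_toSet, exit ha hB hw hN h0 h1 hF W hx⟩
  infinite F hF x hx := nodal_infinite ha hN h0 hF hx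
  horoball F hF x M C g hx hM hC := horoballs ha hB hw hN h0 h1 hF hx hM g hC
  average := by
    intro _ Ω _ μ F hm hF W x hx N' hN'
    refine (exit_avg ha hB hw hN h0 h1 μ F hm hF W hx).trans ?_
    refine Finset.sum_le_sum_of_subset fun v hv => ?_
    rw [Set.Finite.mem_toFinset] at hv
    exact Finset.mem_coe.mp (hN' hv)

/-- The vertices of the building of `PGL_n(k)` (cosets of `k^* GL_n(O)`). -/
abbrev Verts (k : Type u) [NormedField k] [IsUltrametricDist k] (n : ℕ) : Type u :=
  GL (Fin n) k ⧸ ZK k n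

/-- The relative position of `v` and `x` is `d`: `v = gK`, `x = g diag(d) K`. -/
def Position {k : Type u} [NormedField k] [IsUltrametricDist k] {n : ℕ} (v x : Verts k n)
    (d : Fin n → k) : Prop :=
  ∃ (g : GL (Fin n) k) (hd : ∀ j, d j ≠ 0),
    v = g • base (ZK k n) ∧ x = g • diagM d hd • base (ZK k n)

/-- The exit inequality of `PGL_n` with explicit coefficients. -/
def ExplicitExit {k : Type u} [NormedField k] [IsUltrametricDist k] {n : ℕ}
    (a : Verts k n →₀ ℝ) (t : Fin n → ℝ) (L : ℝ) : Prop :=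
  ∀ F : Verts k n → ℝ, IsEigen a L F → ∀ (W : Finset (Verts k n)) (x : Verts k n), x ∈ W →
    ∀ c : Verts k n → ℝ,
      (∀ v ∈ bdry a (W : Set (Verts k n)) ∩ nodal a F x,
        ∃ d : Fin n → k, Position v x d ∧ ∏ j, ‖d j‖ ^ t j ≤ c v) →
      F x ≤ ∑ᶠ v ∈ bdry a (W : Set (Verts k n)) ∩ nodal a F x, F v * c v

theorem explicit {k : Type u} [NormedField k] [IsUltrametricDist k] {n : ℕ}
    {a : Verts k n →₀ ℝ} (ha : IsHecke a) {t : Fin n → ℝ} (ht : ∑ j, t j = 0) {N L : ℝ}
    (hN : Bound a N) (h0 : N < L) (h1 : satake a (wt t) ≤ L) : ExplicitExit a t L := by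
  intro F hF W x hx c hc
  have key := exit ha iwasawa (wt_horo ht) hN h0 h1 hF W hx
  refine key.trans ?_
  have hfin : (bdry a (W : Set (Verts k n)) ∩ nodal a F x).Finite :=
    (bdry_finite ha W.finite_toSet).inter_of_left _
  rw [finsum_mem_eq_finite_toFinset_sum _ hfin, finsum_mem_eq_finite_toFinset_sum _ hfin]
  refine Finset.sum_le_sum fun v hv => ?_
  rw [Set.Finite.mem_toFinset] at hv
  obtain ⟨d, ⟨g, hd, e1, e2⟩, h3⟩ := hc v hv
  have hFv : 0 ≤ F v := by
    rcases Relation.ReflTransGen.cases_tail hv.2 with h | ⟨z, _, hz⟩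
    · exact absurd (h ▸ hx) hv.1.1
    · exact hz.2.le
  refine mul_le_mul_of_nonneg_left (le_trans ?_ h3) hFv
  have := gauge_diag ht g d hd
  rwa [← e1, ← e2] at this

/-- The description of the horospherical functions of `PGL_n`: every vertex is `bK` with `b`
upper triangular, and `w_t(bK) = ∏ ‖b_jj‖^{t_j}`. -/
def IwasawaWeights (k : Type u) [NormedField k] [IsUltrametricDist k] (n : ℕ) : Prop :=
  (∀ x : Verts k n, ∃ b : GL (Fin n) k, Upper b ∧ b • base (ZK k n) = x) ∧
    ∀ t : Fin n → ℝ, ∑ j, t j = 0 → ∀ b : GL (Fin n) k, Upper b →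
      wt t (b • base (ZK k n)) = ∏ j, ‖(b : Matrix (Fin n) (Fin n) k) j j‖ ^ t j

/-- The general theorem. -/
def GeneralPairs : Prop :=
  ∀ (G : Type u) [Group G] (K : Subgroup G) (B : Set G),
    (∀ g : G, ∃ b ∈ B, ∃ k ∈ K, g = b * k) → ∀ a : G ⧸ K →₀ ℝ, IsHecke a →
    (Symm a → ∀ w : G ⧸ K → ℝ, Horo B w → Bound a (satake a w)) ∧
    ∀ w : G ⧸ K → ℝ, Horo B w → ∀ N L : ℝ, Bound a N → N < L → satake a w ≤ L →
      Conclusions.{u, v} a w L

/-- The theorem for `PGL_n`. -/
def ProjectiveLinear (k : Type u) [NormedField k] [IsUltrametricDist k] (n : ℕ) : Prop :=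
  ∀ a : Verts k n →₀ ℝ, IsHecke a →
    (Symm a → ∀ t : Fin n → ℝ, ∑ j, t j = 0 → Bound a (satake a (wt t))) ∧
    ∀ t : Fin n → ℝ, ∑ j, t j = 0 → ∀ N L : ℝ, Bound a N → N < L → satake a (wt t) ≤ L →
      Conclusions.{u, v} a (wt t) L ∧ ExplicitExit a t L

/-- **Nodal domains of forms violating the Ramanujan conjecture.** -/
theorem result :
    GeneralPairs.{u, v} ∧
    ∀ (k : Type u) [NormedField k] [IsUltrametricDist k] (n : ℕ),
      IwasawaWeights k n ∧ ProjectiveLinear.{u, v} k n := by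
  refine ⟨fun G _ K B hB a ha =>
    ⟨fun hs w hw => bound_of_super ha hs hw.pos fun g => (act_horo ha hB hw g).le,
      fun w hw N L hN h0 h1 => conclusions hB ha hw hN h0 h1⟩, fun k _ _ n =>
    ⟨⟨exists_upper, fun t ht b hb => wt_upper ht hb⟩, fun a ha =>
      ⟨fun hs t ht => bound_of_super ha hs (wt_horo ht).pos
        fun g => (act_horo ha iwasawa (wt_horo ht) g).le,
        fun t ht N L hN h0 h1 => ⟨conclusions iwasawa ha (wt_horo ht) hN h0 h1,
          explicit ha ht hN h0 h1⟩⟩⟩⟩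

end Pool.Agent.Results.MP_08cfa9_nt.SphericalCutsets
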