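import Pool.Agent.Q105.LAB.Top

set_option autoImplicit false

/-!
# Linear arboricity of blow-ups

`la` is the least number of linear forests whose union is the graph (`H931R3.LA.la`), `bl G (Fin m)`
is the blow-up `G[m]` of `G`: the graph on `V × Fin m` with `(u, a) ~ (v, b)` iff `u ~ v` in `G`.

A graph `P` on `X` is a blow-up of `G` with classes of size `m` iff there is `f : X → V` all whose
fibres have `m` elements with `x ~ y` in `P` iff `f x ~ f y` in `G`.
-/

namespace Pool.Agent.Results.MP_0a041d_co.BlowUps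

open H931R3.LA Pool.Agent.Q105.LAB Pool.Agent.W111.LAR

/-- `P` is the blow-up of `G` along `f` with classes of size `m`. -/
def IsBlowUp {V X : Type} (G : SimpleGraph V) (P : SimpleGraph X) (f : X → V) (m : ℕ) : Prop :=
  (∀ x y, P.Adj x y ↔ G.Adj (f x) (f y)) ∧ ∀ v, (f ⁻¹' {v}).ncard = m

/-- `f` is a homomorphism whose fibres have at most `m` elements. -/
def SmallHom {V X : Type} (G : SimpleGraph V) (P : SimpleGraph X) (f : X → V) (m : ℕ) : Prop :=
  (∀ x y, P.Adj x y → G.Adj (f x) (f y)) ∧ ∀ v, (f ⁻¹' {v}).ncard ≤ m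

/-- `P` is `d`-regular and satisfies the linear arboricity conjecture. -/
def LAC {X : Type} (P : SimpleGraph X) (d : ℕ) : Prop :=
  (∀ x, (P.neighborSet x).ncard = d) ∧ la P = (d + 2) / 2

/-- The admissible pairs of a degree `r` and a class size `m`. -/
def Adm (r m : ℕ) : Prop :=
  1 ≤ r ∧ ((Even r ∧ 2 ≤ m ∧ r ≤ 4 * m) ∨ (Even m ∧ r ≤ 2 * m) ∨ r ≤ m)

theorem small_of_blow {V X : Type} {G : SimpleGraph V} {P : SimpleGraph X} {f : X → V} {m : ℕ}
    (h : IsBlowUp G P f m) : SmallHom G P f m :=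
  ⟨fun x y hxy => (h.1 x y).1 hxy, fun v => (h.2 v).le⟩

theorem lac_of {V X : Type} [Finite V] [Nonempty V] [Finite X] {G : SimpleGraph V}
    {P : SimpleGraph X} {f : X → V} {r m : ℕ} (hr : 1 ≤ r) (hm : 1 ≤ m) (h : IsBlowUp G P f m)
    (hG : ∀ v, (G.neighborSet v).ncard = r) (hc : Cov P ((r * m + 2) / 2)) : LAC P (r * m) := by
  have hreg : ∀ x, (P.neighborSet x).ncard = r * m := fun x => blow_deg h.1 h.2 hG x
  have hne : Nonempty X := by
    obtain ⟨v⟩ := ‹Nonempty V›
    have h1 : 0 < (f ⁻¹' {v}).ncard := by rw [h.2 v]; exact hm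
    obtain ⟨x, _⟩ := (Set.ncard_pos (Set.toFinite _)).1 h1
    exact ⟨x⟩
  exact ⟨hreg, la_eq_of_cov (Nat.mul_pos hr hm) hreg hc⟩

theorem result :
    -- (1) la (G[m]) is an invariant of edge colourings of the multigraph m² G
    (∀ (V : Type) [Fintype V] (G : SimpleGraph V) [DecidableRel G.Adj] (m K : ℕ), 1 ≤ m →
      (la (bl G (Fin m)) ≤ K ↔ ∃ N : Fin K → V → V → ℕ,
        (∀ j u v, N j u v = N j v u) ∧
        (∀ u v, ∑ j, N j u v = if G.Adj u v then m ^ 2 else 0) ∧
        (∀ j u, ∑ v, N j u v ≤ 2 * m) ∧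
        ∀ (j : Fin K) (C : Set V), C.Nonempty → (∀ u ∈ C, ∀ v, 0 < N j u v → v ∈ C) →
          ∃ u ∈ C, ∑ v, N j u v < 2 * m)) ∧
    -- (2) the linear arboricity conjecture for blow-ups, all degrees
    (∀ (V X : Type) [Finite V] [Nonempty V] [Finite X] (G : SimpleGraph V) (P : SimpleGraph X)
      (f : X → V) (r m : ℕ), Adm r m → IsBlowUp G P f m →
      (∀ v, (G.neighborSet v).ncard = r) → LAC P (r * m)) ∧
    -- (3) the upper bound for graphs with a homomorphism with small fibres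
    (∀ (V X : Type) [Finite V] [Finite X] (G : SimpleGraph V) (P : SimpleGraph X)
      (f : X → V) (r m : ℕ), Adm r m → SmallHom G P f m →
      (∀ v, (G.neighborSet v).ncard ≤ r) → la P ≤ (r * m + 2) / 2) ∧
    -- (4) general bounds for larger degrees
    (∀ (V X : Type) [Finite V] [Finite X] (G : SimpleGraph V) (P : SimpleGraph X)
      (f : X → V) (k m : ℕ), 2 ≤ m → SmallHom G P f m →
      (∀ v, (G.neighborSet v).ncard ≤ 2 * k) → la P ≤ m * k + (k + 2 * m - 1) / (2 * m)) ∧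
    (∀ (V X : Type) [Finite V] [Finite X] (G : SimpleGraph V) (P : SimpleGraph X)
      (f : X → V) (r m : ℕ), 1 ≤ m → SmallHom G P f (2 * m) →
      (∀ v, (G.neighborSet v).ncard ≤ r) → la P ≤ r * m + (r + 4 * m - 1) / (4 * m)) ∧
    -- (5) no short cycles: blow-ups with classes of any size
    (∀ (V X : Type) [Finite V] [Nonempty V] [Finite X] (G : SimpleGraph V) (P : SimpleGraph X)
      (f : X → V) (k m : ℕ), 1 ≤ k → 1 ≤ m → IsBlowUp G P f m →
      (∀ v, (G.neighborSet v).ncard = 2 * k) →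
      (∀ (v : V) (c : G.Walk v v), c.IsCycle → 2 * k ≤ c.length) → LAC P (2 * k * m)) ∧
    -- (6) Cayley graphs: blow-ups with classes of any size
    (∀ (Γ X : Type) [Group Γ] [Finite Γ] [Finite X] (S : Finset Γ) (G : SimpleGraph Γ)
      (P : SimpleGraph X) (f : X → Γ) (m : ℕ), 1 ≤ m → S.Nonempty → (1 : Γ) ∉ S →
      (∀ s ∈ S, s⁻¹ ∈ S) → (∀ s ∈ S, s * s ≠ 1) → ∑ s ∈ S, (1 : ℝ) / orderOf s ≤ 1 →
      (∀ g h, G.Adj g h ↔ g⁻¹ * h ∈ S) → IsBlowUp G P f m → LAC P (S.card * m)) := by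
  refine ⟨?_, ?_, ?_, ?_, ?_, ?_, ?_⟩
  · intro V _ G _ m K hm
    rw [la_le_iff]
    exact ⟨fun h => good_of_cov G hm h, fun ⟨N, hN⟩ => cov_of_good G hm hN⟩
  · intro V X _ _ _ G P f r m hrm hP hG
    have hm : 1 ≤ m := by
      obtain ⟨h1, h2 | h2 | h2⟩ := hrm <;> omega
    have hs := small_of_blow hP
    exact lac_of hrm.1 hm hP hG (bound_lac G P f r m hrm.1 hrm.2 (fun v => (hG v).le) hs.1 hs.2)
  · intro V X _ _ G P f r m hrm hP hG
    exact la_le (bound_lac G P f r m hrm.1 hrm.2 hG hP.1 hP.2)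
  · intro V X _ _ G P f k m hm hP hG
    refine la_le (bound_even G P f k m _ hm ?_ hG hP.1 hP.2)
    have h1 := Nat.div_add_mod (k + 2 * m - 1) (2 * m)
    have h2 := Nat.mod_lt (k + 2 * m - 1) (by omega : 0 < 2 * m)
    omega
  · intro V X _ _ G P f r m hm hP hG
    refine la_le (bound_any G P f r m _ hm ?_ hG hP.1 hP.2)
    have h1 := Nat.div_add_mod (r + 4 * m - 1) (4 * m)
    have h2 := Nat.mod_lt (r + 4 * m - 1) (by omega : 0 < 4 * m)
    have h3 : 2 * (2 * m) = 4 * m := by ring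
    rw [h3]
    omega
  · intro V X _ _ _ G P f k m hk hm hP hG hcyc
    have hs := small_of_blow hP
    have h1 := cov_fibres (RelEmbedding.refl _) f hs.1 hs.2
      (cov_long G k m hm (fun v => (hG v).le) hcyc)
    refine lac_of (by omega) hm hP hG ?_
    have h2 : (2 * k * m + 2) / 2 = m * k + 1 := by
      have : 2 * k * m + 2 = 2 * (m * k + 1) := by ring
      rw [this, Nat.mul_div_cancel_left _ (by norm_num)]
    rw [h2]
    exact h1
  · intro Γ X _ _ _ S G P f m hm hS hone hinv hno hsum hG hP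
    classical
    have := Fintype.ofFinite Γ
    have hs := small_of_blow hP
    have h1 := cov_fibres (RelEmbedding.refl _) f hs.1 hs.2
      (cov_cay S hone hinv hno hsum G hG hm)
    refine lac_of (Finset.card_pos.2 hS) hm hP (cay_deg S G hG) ?_
    obtain ⟨T, _, _, hT, _⟩ := halve S hinv hno
    have h2 : (S.card * m + 2) / 2 = m * (S.card / 2) + 1 := by
      rw [hT, Nat.mul_div_cancel_left _ (by norm_num)]
      have : 2 * T.card * m + 2 = 2 * (m * T.card + 1) := by ring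
      rw [this, Nat.mul_div_cancel_left _ (by norm_num)]
    rw [h2]
    exact h1

end Pool.Agent.Results.MP_0a041d_co.BlowUps
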