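import Pool.Agent.Q80.NA.Stm
import Pool.Agent.Q80.NA.SEQ
import Pool.Agent.Q247.NA.TYP
import Pool.Agent.Q247.NA.CLU

set_option autoImplicit false

open MeasureTheory Filter Topology

namespace Pool.Agent.Results.MP_0a44cb_nt.SquareDenominators

/-- There is an irrational `α` of type `11/4 < 3` for which the `(l+1)`-level correlations of
`{n^2 α}`, `n ≤ N`, are unbounded in `N` for every `l ≥ 2` and every continuous compactly supported
`f ≥ 0` with `f 0 > 0`; in particular Q1 has a negative answer. -/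
theorem result :
    (∃ α : ℝ, Irrational α ∧ _root_.Pool.Agent.Q80.NA.OfType (11 / 4) α ∧
      ∀ (l : ℕ), 2 ≤ l → ∀ f : (Fin l → ℝ) → ℝ, Continuous f → HasCompactSupport f →
        (∀ x, 0 ≤ f x) → 0 < f 0 →
        ¬ BddAbove (Set.range (_root_.Pool.Agent.Q80.NA.R α l f))) ∧
    ¬ (∀ α : ℝ, Irrational α → (∃ κ : ℝ, κ < 3 ∧ _root_.Pool.Agent.Q80.NA.OfType κ α) →
        ∀ (l : ℕ), 1 ≤ l → ∀ f : (Fin l → ℝ) → ℝ, Continuous f → HasCompactSupport f →
          Tendsto (_root_.Pool.Agent.Q80.NA.R α l f) atTop (𝓝 (∫ x, f x))) := by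
  have hS := _root_.Pool.Agent.Q80.NA.t_SEQ
  have hT := _root_.Pool.Agent.Q247.NA.t_TYP hS
  have hC := _root_.Pool.Agent.Q247.NA.t_CLU hS
  refine ⟨⟨_root_.Pool.Agent.Q80.NA.α₀, hT.1, hT.2, hC⟩, fun h => ?_⟩
  have hfc : Continuous (fun x : Fin 2 → ℝ => max 0 (1 - ‖x‖)) := by fun_prop
  have hfs : HasCompactSupport (fun x : Fin 2 → ℝ => max 0 (1 - ‖x‖)) := by
    apply HasCompactSupport.of_support_subset_isCompact (isCompact_closedBall (0 : Fin 2 → ℝ) 1)
    intro x hx
    rw [Function.mem_support] at hx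
    rw [mem_closedBall_zero_iff]
    by_contra hc
    push Not at hc
    exact hx (max_eq_left (by linarith))
  have h1 := h _root_.Pool.Agent.Q80.NA.α₀ hT.1 ⟨11 / 4, by norm_num, hT.2⟩ 2 (by norm_num) _ hfc hfs
  refine hC 2 le_rfl _ hfc hfs (fun x => le_max_left _ _) ?_ h1.bddAbove_range
  simp

end Pool.Agent.Results.MP_0a44cb_nt.SquareDenominators
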