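import Pool.Agent.Q187.RK.Final

/-!
# The Beilinson-Bloch formula in all codimensions follows from the middle cases

`CH^j(X)_0` is the group of homologically trivial cycles of codimension `j` (with rational
coefficients), and `e X j` is the order of vanishing of `L(H^(2j-1)(X), s)` at `s = j`. For products
of curves, smooth complete intersections, and other varieties which have no cohomology besides
classes of algebraic cycles outside the middle degree, we show that the formula
`dim CH^j(X)_0 = e X j` holds for all `X` and `j` as soon as it holds in the middle cases
`dim X = 2 j - 1`; and that it then holds for all the direct factors given by the middle degrees.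

The idea: the defect `D = dim CH^j(X)_0 - e X j` is additive on motives. The middle cases for
`X × P^1 × ... × P^1` show that the sum of the defects of `X` in the codimensions `j` and
`dim X + 1 - j` is zero. For a product of motives in the middle degrees, this sum is a sum of two
nonnegative numbers unless `j = dim X + 1 - j`, since the L-functions in question are trivial; so
both are zero.
-/

open CategoryTheory AlgebraicGeometry

universe u v w

namespace Pool.Agent.Results.MP_0b9e0b_ag.MiddleCasesSuffice

open Pool.Agent.H914 Pool.Agent.H914.VarClass Pool.Agent.H914.VarClass.Obj Pool.Agent.W492.BB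
  Pool.Agent.TH133 Pool.Agent.Q187.AJS Pool.Agent.Q187.RK

/-- **The rank formula of Beilinson and Bloch in all codimensions follows from its middle cases.**
Let `C` be the Chow theory with rational coefficients and `H` a Weil cohomology theory on a class of
smooth projective varieties over a field `k`, closed under products and containing a projective
line `L` (a curve with `Δ = o × L + L × o`). Let `e` be a function on motives and codimensions with
the formal properties of `e X p j = ord_{s=j} L(p_* H^(2j-1)(X), s)` for a global field `k`. Let
`𝓒` be the class of all products of varieties `B` such that `H^m(B)` is spanned by classes of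
algebraic cycles for all `m ≠ dim B` (curves, complete intersections, ...).

1. If the formula `dim CH^i(X)_0 = e X i` holds for the members `X` of `𝓒` of dimension `2 i - 1`,
  for all `i ≤ N`, then it holds in all codimensions for all members of `𝓒` of dimension at most
  `N`.
2. The following are equivalent: the formula holds for all members of `𝓒` in all codimensions; it
  holds for all members of `𝓒` of dimension `2 i - 1` in codimension `i`, for all `i`; it holds in
  all codimensions for all the motives `(B_1, b_1) ⊗ ⋯ ⊗ (B_r, b_r)` given by the middle degrees
  of the factors. -/
theorem result {k : Type u} [Field k] {𝒱 : VarClass k} {C : TheoryData.{u, v, 0} 𝒱 ℚ}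
    [IsChowProj C] {K : Type w} [Field K] {H : WeilTheoryData.{u, v, w} C K} [IsWeilProj H]
    {e : ∀ X : 𝒱.Obj, C.A (X.prod X) → ℤ → ℤ} (he : IsOrder C H e)
    (hL : ∃ (L : 𝒱.Obj) (o : C.A L), L.dim = 1 ∧ DegreeOne C o ∧ odd C o = 0) :
    (∀ N : ℕ, (∀ (X : 𝒱.Obj) (i : ℕ), IsProd C H X → X.dim + 1 = 2 * i → i ≤ N →
        RankFormula C H e (diag C X) i) →
      ∀ (X : 𝒱.Obj) (j : ℕ), IsProd C H X → X.dim ≤ N → RankFormula C H e (diag C X) j) ∧
    List.TFAE [
      ∀ (X : 𝒱.Obj) (j : ℕ), IsProd C H X → RankFormula C H e (diag C X) j,
      ∀ (X : 𝒱.Obj) (i : ℕ), IsProd C H X → X.dim + 1 = 2 * i →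
        RankFormula C H e (diag C X) i,
      ∀ (P : 𝒱.Obj) (p : C.A (P.prod P)) (j : ℕ), IsPrim C H P p → RankFormula C H e p j] :=
  middle_suffice he hL

end Pool.Agent.Results.MP_0b9e0b_ag.MiddleCasesSuffice
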