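import Mathlib
import Pool.Agent.Q219.NW.BB
import Pool.Agent.Q219.NW.Count

/-!
# The formula of Beilinson and Bloch for constant abelian varieties outside of a thin subset of a
Newton stratum

Fix a prime `p`, a nonempty finite set `κ`, dimensions `g i ≥ 1` and, for each `i`, a symmetric
Newton polygon with slopes `s i j` and `1 - s i j` (`j < g i`, increasing in `j`, between `0` and
`1 / 2`, with integral break points: `IsPolygon (s i)`) whose smallest slope is at most `σ < 1 / 2`;
so it is any Newton polygon that is not the supersingular one. `NewtonStratum g s p a` is the set
of families of isogeny classes of abelian varieties `A_i` of dimension `g i` over the field with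
`p ^ a` elements having these Newton polygons: by the theorem of Honda and Tate it consists of
families of characteristic polynomials of Frobenius. Fix also a number field `E` in the complex
numbers and a number `r` which is smaller than all the dimensions `g i`. Let `devSum (s i)` be the
sum of the numbers `1 - 2 s i j`, `j < g i` (it is `g i` for ordinary abelian varieties, and positive).

We prove that the number of elements of `NewtonStratum g s p a` tends to infinity with `a`, and that
for all members, except for at most

  `C * a * p ^ (- a (1 - 2 σ) / 6) * |NewtonStratum g s p a|`

(`C` depends on `p`, `g`, `s`, `σ`, `E`, `r` only), the following is true (`Holds`).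

Let `A` be an abelian variety over the field with `q = p ^ a` elements, isogenous to a product of
powers of the `A_i`, let `C` be a smooth projective geometrically connected curve over the field with
`q ^ s` elements, `s > 0` arbitrary, and let `k` be its function field. Suppose that

* each eigenvalue of Frobenius on `H ^ 1 (C)` is of one of the following kinds: its conjugates lie, up
  to powers, in a group generated by nonzero elements of `E` and `r` numbers; or the sum of the
  `|2 λ - 1|`, `λ` the slopes of its conjugates, is smaller than `2 devSum (s i)` for all `i`; or it
  is the product of a root of unity and of the `s`-th power of a Frobenius eigenvalue of some `A_i`.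
  (The second condition is true for all curves `C` of genus smaller than the `devSum (s i)`; the
  third one for the factors of the Jacobian of `C` which are isogenous to factors of `A` over a finite
  extension, and for these the rank is positive.) Or suppose that
* `g i < 3 devSum (s i)` for all `i`, that is, the mean value of the slopes `s i j` is smaller than
  `1 / 3`; and no condition on the curve `C`.

Then, for the constant abelian variety `A_k` and all `i = k + 1 ≥ 1`, **the order of vanishing of
`L (H ^ (2 i - 1) (A_k), s)` at `s = i` is equal to the dimension of the space of the classes in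
`H ^ (2 i - 1) (A) ⊗ H ^ 1 (C)` which are linear combinations of products of `i - 1` classes of
divisors on `A` and a correspondence between `A` and `C`** (`algebraicClasses`). As in the starting
results `ConstantFlippedFrobenius` and `AlmostAllAbelianVarieties` the theorems of Tate and of Kahn
imply that this is the dimension of `CH ^ i (A_k)_0`: the formula of Beilinson and Bloch holds. Here
`V` is the first cohomology of `A` with the Frobenius endomorphism `F` of the field with `q` elements,
`W` the first cohomology of `C` with its Frobenius endomorphism `G`, `T` is the set of closed points of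
`C`, that is, of places of `k`.

The starting result `AlmostAllAbelianVarieties` is on the full sets of Weil polynomials with `p`-rank
larger than a third of the dimension (where the exceptional set is small relative to the ordinary
stratum only). Here the exceptional set is small relative to each single Newton stratum, the strata
which are not supersingular are all permitted, and the `p`-rank may be zero also if `C` is arbitrary.
-/

set_option autoImplicit false

namespace Pool.Agent.Results.MP_0b9e0b_ag.NewtonStrataFunctionFields

open Polynomial Pool.Agent.Q219.NS Pool.Agent.Q219.ST Pool.Agent.Q219.NW Pool.Agent.W484.AA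

/-- The theorem for the family of isogeny classes over the field with `q` elements with the
Frobenius polynomials `F i`, of dimension `g i` and slopes `s i j`. -/
def Holds {κ : Type} (g : κ → ℕ) (s : ∀ i, Fin (g i) → ℚ) (E : IntermediateField ℚ ℂ) (r q : ℕ)
    (F : κ → ℤ[X]) : Prop :=
  (∀ P : ℝ, (∀ i, P ≤ devSum (s i)) → BeilinsonBlochOver E r P q F) ∧
    ((∀ i, (g i : ℝ) < 3 * devSum (s i)) → BeilinsonBlochFormula q F)

/-- **The formula of Beilinson and Bloch for all constant abelian varieties outside of a thin subset
of a Newton stratum.** -/
theorem result {κ : Type} [Fintype κ] [Nonempty κ] (p : ℕ) [Fact p.Prime]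
    -- dimensions and Newton polygons
    (g : κ → ℕ) (s : ∀ i, Fin (g i) → ℚ) (hs : ∀ i, IsPolygon (s i))
    -- the smallest slopes
    (σ : ℚ) (hσ : ∀ i (h : 0 < g i), s i ⟨0, h⟩ ≤ σ) (hσ2 : σ < 1 / 2)
    -- the number field and the rank
    (E : IntermediateField ℚ ℂ) [FiniteDimensional ℚ E] (r : ℕ) (hr : ∀ i, r < g i) :
    (∀ N : ℕ, ∃ a₀ : ℕ, ∀ a, a₀ ≤ a →
      (NewtonStratum g s p a).Finite ∧ N ≤ (NewtonStratum g s p a).ncard) ∧
    ∃ C : ℝ, 0 < C ∧ ∀ a : ℕ, 0 < a →
      ({F ∈ NewtonStratum g s p a | ¬ Holds g s E r (p ^ a) F}.ncard : ℝ) ≤
        C * (a * (p : ℝ) ^ (-((a : ℝ) * (1 - 2 * σ) / 6))) *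
          ((NewtonStratum g s p a).ncard : ℝ) := by
  classical
  have hg : ∀ i, 1 ≤ g i := fun i => (Nat.zero_le r).trans_lt (hr i)
  obtain ⟨h1, C, hC, h2⟩ := count_slopes g s p E hg hs σ hσ hσ2
  refine ⟨h1, C, hC, fun a ha => h2 a ha _ fun f hm hd hf habs hdev => ?_⟩
  have hp : p.Prime := Fact.out
  have hq : 1 < p ^ a := Nat.one_lt_pow ha.ne' hp.one_lt
  refine ⟨fun P hP => ?_, fun h3 => ?_⟩
  · exact formula_of_noRel hq habs fun s' hs' => noRelAt_good E p a ha rfl r hm
      (fun i => by rw [hd i]; exact hr i) hf habs _ hdev P hP s' hs'
  · exact formula_of_dev p a ha rfl hm hf habs (fun i => by rw [hd i]; exact hg i) _ hdev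
      (fun i => by rw [hd i]; exact h3 i)

end Pool.Agent.Results.MP_0b9e0b_ag.NewtonStrataFunctionFields
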