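import Pool.Agent.Q108.FF.Contract
import Pool.Agent.Q108.FF.Bip

set_option autoImplicit false
set_option linter.unusedSectionVars false

open Finset

namespace Pool.Agent.Results.MP_0c3aa4_co.ConnectedComplement

open Pool.Agent.Helper347.Sab

/-!
2-regular subgraphs S of cubic multigraphs with G - E(S) connected: if G/E(S) has a nowhere-zero
4-flow, then S is a member of a 5-cycle double cover.
-/

variable {V E : Type} [Fintype V] [DecidableEq V] [Fintype E] [DecidableEq E]

/-- The subgraph with edge set F (and all vertices) is connected. -/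
def Connected (G : MGraph V E) (F : Finset E) : Prop :=
  ∀ a b : V, Relation.ReflTransGen (fun x y => ∃ e ∈ F, G.ends e = s(x, y)) a b

/-- No edge is a bridge: the ends of every edge are joined by a path avoiding it. -/
def Bridgeless (G : MGraph V E) : Prop :=
  ∀ e a b, G.ends e = s(a, b) →
    Relation.ReflTransGen (fun x y => ∃ f ∈ univ.erase e, G.ends f = s(x, y)) a b

/-- S is (the edge set of) a 2-regular subgraph: every vertex has S-degree 0 or 2. -/
def TwoRegular (G : MGraph V E) (S : Finset E) : Prop :=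
  ∀ v, dg G S v = 0 ∨ dg G S v = 2

/-- A k-cycle double cover: a family of k even subgraphs such that every edge lies in exactly two
of them. -/
def IsKCDC (G : MGraph V E) (k : ℕ) (D : Fin k → Finset E) : Prop :=
  (∀ i v, Even (dg G (D i) v)) ∧ ∀ e, (univ.filter fun i => e ∈ D i).card = 2

/-- A cycle double cover, as a set of cycles: every edge lies in exactly two members. -/
def IsCycleDoubleCover (G : MGraph V E) (F : Finset (Finset E)) : Prop :=
  (∀ X ∈ F, IsCircuit G X) ∧ ∀ e, (F.filter fun X => e ∈ X).card = 2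

/-- G/E(S) has a nowhere-zero 4-flow: two even subgraphs of G cover all edges outside S. -/
def FourFlowModulo (G : MGraph V E) (S : Finset E) : Prop :=
  ∃ A B : Finset E, (∀ v, Even (dg G A v)) ∧ (∀ v, Even (dg G B v)) ∧
    ∀ e, e ∉ S → e ∈ A ∨ e ∈ B

theorem local_of (G : MGraph V E) (S : Finset E) (hcon : Connected G (univ \ S))
    (h : FourFlowModulo G S) : Pool.Agent.Q108.FF.LocalFlows G S := by
  obtain ⟨A, B, hA, hB, hcov⟩ := h
  intro v
  refine ⟨A, B, hA, hB, fun e he => ⟨fun _ => ?_, fun _ => hcov e he⟩⟩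
  obtain ⟨a, b, _, hab⟩ := exists_ends G e
  exact ⟨a, by rw [hab]; simp, hcon v a⟩

theorem both (G : MGraph V E) (hG : IsCubic G) (S : Finset E) (hS : TwoRegular G S)
    (hcon : Connected G (univ \ S)) (h : FourFlowModulo G S) :
    (∃ D : Fin 5 → Finset E, IsKCDC G 5 D ∧ D 0 = S) ∧
    ∃ F : Finset (Finset E), IsCycleDoubleCover G F ∧
      ∀ C, IsCircuit G C → C ⊆ S → C ∈ F := by
  obtain ⟨A, B, D, hA, hB, hD, hcov, hDS⟩ := Pool.Agent.Q108.FF.many G hG S hS
    (local_of G S hcon h)
  refine ⟨?_, ?_⟩
  · refine Pool.Agent.Q108.FF.five_of G S A B D ?_ hA hB hD hcov hDS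
    intro v
    rcases hS v with h | h <;> rw [h] <;> decide
  · exact Pool.Agent.Helper998.Near.core G hG S A B D hS hA hB hD hcov hDS

theorem flow_of_five (G : MGraph V E) (S : Finset E) (D : Fin 5 → Finset E)
    (hD : IsKCDC G 5 D) (h0 : D 0 = S) : FourFlowModulo G S := by
  refine ⟨symmDiff (D 1) (D 2), symmDiff (D 1) (D 3), ev_symmDiff (hD.1 1) (hD.1 2),
    ev_symmDiff (hD.1 1) (hD.1 3), fun e he => ?_⟩
  have h1 := hD.2 e
  have h2 : e ∉ D 0 := by rw [h0]; exact he
  rw [card_filter, Fin.sum_univ_five, if_neg h2] at h1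
  rw [mem_symmDiff, mem_symmDiff]
  by_cases c1 : e ∈ D 1 <;> by_cases c2 : e ∈ D 2 <;> by_cases c3 : e ∈ D 3 <;>
    by_cases c4 : e ∈ D 4 <;> simp_all

/-- the vertices of a circuit of S share the representative -/
theorem rep_circuit (G : MGraph V E) (S C : Finset E) (hCS : C ⊆ S) (hC : IsCircuit G C)
    (a b : V) (ha : dg G C a = 2) (hb : dg G C b = 2) :
    Pool.Agent.Helper998.Near.Rch G S a b := by
  have h := Pool.Agent.Helper998.Near.circ_reach G C hC a b ha hb
  clear ha hb
  induction h with
  | refl => exact Relation.ReflTransGen.refl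
  | tail _ h1 ih =>
    obtain ⟨e, he, h2⟩ := h1
    exact ih.tail ⟨e, hCS he, h2⟩

/-- Let G be a finite loopless cubic multigraph and S a 2-regular subgraph with G - E(S) connected.
(1) S is a member of a 5-cycle double cover of G if and only if G/E(S) has a nowhere-zero 4-flow.
(2) If G/E(S) has a nowhere-zero 4-flow, then G has a cycle double cover (a set of circuits)
containing every circuit of S.
(3) The conclusions of (1) and (2) hold if G is bridgeless and S is the union of k circuits and
misses at most 9 - k vertices. -/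
theorem result {V E : Type} [Fintype V] [DecidableEq V] [Fintype E] [DecidableEq E]
    (G : MGraph V E) (hG : IsCubic G) (S : Finset E) (hS : TwoRegular G S)
    (hcon : Connected G (univ \ S)) :
    ((∃ D : Fin 5 → Finset E, IsKCDC G 5 D ∧ D 0 = S) ↔ FourFlowModulo G S) ∧
    (FourFlowModulo G S → ∃ F : Finset (Finset E), IsCycleDoubleCover G F ∧
      ∀ C, IsCircuit G C → C ⊆ S → C ∈ F) ∧
    (∀ (k : ℕ) (C : Fin k → Finset E), Bridgeless G → (∀ i, IsCircuit G (C i)) →
      S = univ.biUnion C → (univ.filter fun v => dg G S v = 0).card + k ≤ 9 →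
      (∃ D : Fin 5 → Finset E, IsKCDC G 5 D ∧ D 0 = S) ∧
      ∃ F : Finset (Finset E), IsCycleDoubleCover G F ∧
        ∀ C, IsCircuit G C → C ⊆ S → C ∈ F) := by
  classical
  refine ⟨⟨?_, fun h => (both G hG S hS hcon h).1⟩, fun h => (both G hG S hS hcon h).2, ?_⟩
  · rintro ⟨D, hD, h0⟩
    exact flow_of_five G S D hD h0
  · intro k C hb hC hSC hk
    apply both G hG S hS hcon
    obtain ⟨π, hπ, hπ2⟩ : ∃ π : V → V, (∀ v, Pool.Agent.Helper998.Near.Rch G S v (π v)) ∧
        ∀ a b, Pool.Agent.Helper998.Near.Rch G S a b → π a = π b := by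
      let st : Setoid V := ⟨fun a b => Pool.Agent.Helper998.Near.Rch G S a b,
        ⟨fun _ => Relation.ReflTransGen.refl,
        fun {a b} h => Pool.Agent.Helper998.Near.rch_symm G _ a b h,
        fun {a b c} h1 h2 => Relation.ReflTransGen.trans h1 h2⟩⟩
      refine ⟨fun v => (Quotient.mk st v).out, fun v => ?_, fun a b h => ?_⟩
      · have h : st.r ((Quotient.mk st v).out) v :=
          Quotient.exact (Quotient.out_eq (Quotient.mk st v))
        exact Pool.Agent.Helper998.Near.rch_symm G _ _ _ h
      · show (Quotient.mk st a).out = (Quotient.mk st b).out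
        rw [Quotient.sound (s := st) h]
    have hp : ∀ i, ∃ p, dg G (C i) p = 2 := by
      intro i
      obtain ⟨e0, he0⟩ := (hC i).1
      obtain ⟨p0, p1, hp01, hends0⟩ := exists_ends G e0
      exact ⟨p0, ((hC i).2.1 p0).resolve_left (by
        have := dg_pos_of_mem (G := G) he0 (show p0 ∈ G.ends e0 by rw [hends0]; simp); omega)⟩
    choose p hp using hp
    obtain ⟨A, B, hA, hB, hcov⟩ := Pool.Agent.Q108.FF.flow_nine G S π hπ hπ2 hb
      ((univ.filter fun v => dg G S v = 0).image π ∪ univ.image fun i => π (p i)) (by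
        refine (card_union_le _ _).trans ?_
        have h1 := card_image_le (s := univ.filter fun v => dg G S v = 0) (f := π)
        have h2 := card_image_le (s := (univ : Finset (Fin k))) (f := fun i => π (p i))
        rw [card_univ, Fintype.card_fin] at h2
        omega) (by
      intro v
      rw [mem_union, mem_image, mem_image]
      rcases hS v with h | h
      · exact Or.inl ⟨v, mem_filter.2 ⟨mem_univ _, h⟩, rfl⟩
      · right
        obtain ⟨e, he, hve⟩ := exists_mem_of_dg_pos (G := G) (X := S) (v := v) (by omega)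
        rw [hSC, mem_biUnion] at he
        obtain ⟨i, -, hi⟩ := he
        have h2 : dg G (C i) v = 2 := ((hC i).2.1 v).resolve_left (by
          have := dg_pos_of_mem (G := G) hi hve; omega)
        refine ⟨i, mem_univ _, ?_⟩
        refine hπ2 _ _ (rep_circuit G S (C i) ?_ (hC i) _ _ (hp i) h2)
        rw [hSC]
        exact subset_biUnion_of_mem C (mem_univ i))
    exact ⟨A, B, hA, hB, hcov⟩

end Pool.Agent.Results.MP_0c3aa4_co.ConnectedComplement
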