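import Pool.Agent.Q26.BF.Light

/-!
# Homological and numerical equivalence over one algebraically closed field

Let `k ⊂ K` be algebraically closed fields, e.g. the algebraic closures of the prime fields, and fix
`d`. Numerical and homological equivalence agree for the `d`-dimensional cycles on all smooth
projective varieties over `k` if and only if they agree for the `d`-dimensional cycles on all smooth
projective varieties over `K`. So the conjecture for all fields follows from the conjecture for the
algebraic closures of the prime fields. More precisely: let `a` be a numerically trivial cycle of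
dimension `d` on the smooth projective variety `X` over `K`, whose class is not zero. Let `(X, a)` be
the geometric generic fibre of `(𝒳, α)`, where `𝒳 → S` is smooth and projective over a
smooth `k`-variety `S`, let `Y` be a smooth projective compactification of `𝒳` over `k`, and let `z`
be the closure of `α` in `Y`. Then the intersection `z · Y_s` with the fibre over a point `s` of `S`
is a cycle of dimension `d` on `Y`, which is numerically trivial, and its class is not zero.

Proof. The intersection number of `z · Y_s` and a cycle `w` on `Y` is the one of `a` with the
restriction of `w` to `X`, so that `z · Y_s` is numerically trivial. By Deligne's theorem on the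
fixed part the Poincaré pairing of the fibre is perfect on the image of the cohomology of `Y`, and
hence there is a class on `Y` whose restriction to the fibre has nonzero product with the class
of `a`. This is the product of the class on `Y` with the class of `z · Y_s`.
-/

set_option autoImplicit false

namespace Pool.Agent.Results.MP_0c8446_ag.OneBaseField

open Pool.Agent.Q26.BF.Light

/-- a variety `X` as in `Variety` (cycles with rational coefficients, cohomology and cycle class
map); `isDim d a` says that the cycle `a` is `d`-dimensional -/
structure Graded (E : Type) [Field E] extends Variety E where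
  isDim : ℕ → CH → Prop

/-- A model of the variety `X` with the cycle `a` over a smaller algebraically closed field `k`:
`(X, a)` is the geometric generic fibre of a family of smooth projective varieties over a smooth
`k`-variety, with total space in the smooth projective variety `Y`, and with a cycle `z` on `Y`.
The map `res` is the restriction of cycles to the geometric generic fibre, `resH` the restriction
of cohomology classes, and `fib w` is the intersection of the cycle `w` with a fibre.

`pair_fib` is the projection formula, and `fixed` is the theorem of Deligne that the Poincaré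
pairing of the fibre is nondegenerate on the image of the cohomology of `Y`, the invariants of the
monodromy. -/
structure Model {E : Type} [Field E] (X : Graded E) (a : X.CH) where
  Y : Graded E
  res : Y.CH → X.CH
  resH : Y.H → X.H
  cl_res : ∀ w, X.cl (res w) = resH (Y.cl w)
  fib : Y.CH → Y.CH
  pair_fib : ∀ w h, Y.pair (Y.cl (fib w)) h = X.pair (X.cl (res w)) (resH h)
  fixed : ∀ h, (∀ h', X.pair (resH h) (resH h') = 0) → resH h = 0
  z : Y.CH
  res_z : res z = a
  dim_fib : ∀ d, X.isDim d a → Y.isDim d (fib z)

/-- The base change `XK` of the variety `X` to a larger algebraically closed field. The `special`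
fibres of a cycle on `XK` are cycles on `X`. -/
structure BaseChange {E : Type} [Field E] (X XK : Graded E) where
  bc : X.CH → XK.CH
  dim_bc : ∀ d a, X.isDim d a → XK.isDim d (bc a)
  cl_bc : ∀ a, XK.cl (bc a) = 0 → X.cl a = 0
  special : ∀ b, ∃ c, ∀ a, XK.pair (XK.cl (bc a)) (XK.cl b) = X.pair (X.cl a) (X.cl c)

/-- `Vk` and `VK` are the sets of smooth projective varieties over the algebraically closed fields
`k ⊂ K`: varieties over `k` have a base change to `K`, and each cycle on a variety over `K` has a
model over `k`. -/
structure FieldExtension {E : Type} [Field E] (Vk VK : Set (Graded E)) : Prop where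
  up : ∀ X ∈ Vk, ∃ XK ∈ VK, Nonempty (BaseChange X XK)
  down : ∀ X ∈ VK, ∀ a : X.CH, ∃ P : Model X a, P.Y ∈ Vk

/-- `b` is a `d`-dimensional cycle which is numerically but not homologically trivial -/
def IsCounterexample {E : Type} [Field E] (X : Graded E) (d : ℕ) (b : X.CH) : Prop :=
  X.isDim d b ∧ IsNum X.toVariety b ∧ X.cl b ≠ 0

/-- numerically trivial `d`-dimensional cycles on `X` are homologically trivial -/
def HomNumDim {E : Type} [Field E] (X : Graded E) (d : ℕ) : Prop :=
  ∀ b : X.CH, ¬ IsCounterexample X d b

theorem Model.isCounterexample {E : Type} [Field E] {X : Graded E} {a : X.CH} (P : Model X a)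
    {d : ℕ} (h : IsCounterexample X d a) : IsCounterexample P.Y d (P.fib P.z) := by
  refine ⟨P.dim_fib d h.1, fun b => ?_, fun h0 => ?_⟩
  · rw [P.pair_fib, ← P.cl_res, P.res_z]
    exact h.2.1 _
  · refine h.2.2 ?_
    rw [← P.res_z, P.cl_res]
    refine P.fixed _ fun h' => ?_
    rw [← P.cl_res, ← P.pair_fib, h0, P.Y.zero_pair]

theorem BaseChange.isCounterexample {E : Type} [Field E] {X XK : Graded E} (f : BaseChange X XK)
    {d : ℕ} {a : X.CH} (h : IsCounterexample X d a) : IsCounterexample XK d (f.bc a) := by
  refine ⟨f.dim_bc d a h.1, fun b => ?_, fun h0 => h.2.2 (f.cl_bc a h0)⟩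
  obtain ⟨c, hc⟩ := f.special b
  rw [hc]
  exact h.2.1 c

/-- 1. Let `a` be a cycle of dimension `d` on the smooth projective variety `X` over `K` which is
numerically but not homologically trivial, and let `P` be a model of `(X, a)` over the algebraically
closed subfield `k`, with compactification `Y` and closure `z` of the cycle in `Y`. The
intersection of `z` with a fibre is a cycle of dimension `d` on the smooth projective variety `Y`
over `k` which is numerically but not homologically trivial.
2. For each `d`, numerically trivial `d`-dimensional cycles on the smooth projective varieties over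
`k` are homologically trivial if and only if the same holds over `K`.
3. Numerically trivial cycles on the smooth projective varieties over `k` are homologically
trivial if and only if the same holds over `K`. -/
theorem result {E : Type} [Field E] :
    (∀ (X : Graded E) (a : X.CH) (P : Model X a) (d : ℕ), IsCounterexample X d a →
      IsCounterexample P.Y d (P.fib P.z)) ∧
    (∀ Vk VK : Set (Graded E), FieldExtension Vk VK →
      (∀ d, (∀ X ∈ Vk, HomNumDim X d) ↔ (∀ X ∈ VK, HomNumDim X d)) ∧
      ((∀ X ∈ Vk, HomNum X.toVariety) ↔ (∀ X ∈ VK, HomNum X.toVariety))) := by
  refine ⟨fun X a P d h => P.isCounterexample h, fun Vk VK hF => ⟨fun d => ⟨?_, ?_⟩, ?_, ?_⟩⟩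
  · intro h X hX a ha
    obtain ⟨P, h1⟩ := hF.down X hX a
    exact h _ h1 _ (P.isCounterexample ha)
  · intro h X hX a ha
    obtain ⟨XK, h1, ⟨f⟩⟩ := hF.up X hX
    exact h _ h1 _ (f.isCounterexample ha)
  · intro h X hX a ha
    obtain ⟨P, h1⟩ := hF.down X hX a
    have h2 : P.Y.cl (P.fib P.z) = 0 := by
      refine h _ h1 _ fun b => ?_
      rw [P.pair_fib, ← P.cl_res, P.res_z]
      exact ha _
    rw [← P.res_z, P.cl_res]
    refine P.fixed _ fun h' => ?_
    rw [← P.cl_res, ← P.pair_fib, h2, P.Y.zero_pair]
  · intro h X hX a ha
    obtain ⟨XK, h1, ⟨f⟩⟩ := hF.up X hX
    refine f.cl_bc a (h _ h1 _ fun b => ?_)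
    obtain ⟨c, hc⟩ := f.special b
    rw [hc]
    exact ha c

end Pool.Agent.Results.MP_0c8446_ag.OneBaseField
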