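import Pool.Agent.Q197.PS.CC

/-! # Elliott's conjecture along random unions of residue classes

For 1-bounded functions `g_1, ..., g_k`, integers `h_1, ..., h_k` and a set `A` of residues modulo `P` let
`mean g h P A N` be `1 / N` times the sum over the `n ≤ N` with residue in `A` of
`g_1(n + h_1) ... g_k(n + h_k)`, and `good g h P` the number of the `2 ^ P` sets `A` for which it tends to
zero. -/

set_option autoImplicit false

open Finset Filter Topology

namespace Pool.Agent.Results.MP_0c9a68_nt.UnionsOfClasses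

open Q197.PS

/-- The product `g_1(n + h_1) ... g_k(n + h_k)`, as in `S16003`. -/
noncomputable def term {k : ℕ} (g : Fin k → ArithmeticFunction ℂ) (h : Fin k → ℤ) (n : ℕ) : ℂ :=
  ∏ i, g i ((n : ℤ) + h i).toNat

/-- The mean over the `1 ≤ n ≤ N` with `n mod P ∈ A`. -/
noncomputable def mean {k : ℕ} (g : Fin k → ArithmeticFunction ℂ) (h : Fin k → ℤ) (P : ℕ) (A : Finset ℕ)
    (N : ℕ) : ℂ :=
  (∑ n ∈ (Icc 1 N).filter (fun n => n % P ∈ A), term g h n) / N

/-- The mean over all `1 ≤ n ≤ N`. -/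
noncomputable def meanAll {k : ℕ} (g : Fin k → ArithmeticFunction ℂ) (h : Fin k → ℤ) (N : ℕ) : ℂ :=
  (1 / (N : ℂ)) * ∑ n ∈ Icc 1 N, term g h n

open Classical in
/-- The number of the sets `A` of residues modulo `P` along which the means tend to zero. -/
noncomputable def good {k : ℕ} (g : Fin k → ArithmeticFunction ℂ) (h : Fin k → ℤ) (P : ℕ) : ℕ :=
  ((range P).powerset.filter (fun A => Tendsto (mean g h P A) atTop (𝓝 0))).card

/-- The hypothesis of the problem: multiplicative, 1-bounded, and some `g_j` satisfies (N). -/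
def Hyp {k : ℕ} (g : Fin k → ArithmeticFunction ℂ) : Prop :=
  (∀ i, (g i).IsMultiplicative) ∧ (∀ i n, ‖g i n‖ ≤ 1) ∧
    (∃ j : Fin k, ∀ (q : ℕ) (χ : DirichletCharacter ℂ q), 0 < q →
      ∀ M : ℝ, ∃ X₀ : ℝ, ∀ X : ℝ, X₀ ≤ X → ∀ t : ℝ, |t| ≤ X →
        M ≤ ∑ p ∈ Finset.filter Nat.Prime (Finset.Iic ⌊X⌋₊),
          (1 - (g j p * starRingEnd ℂ (χ (p : ZMod q) * (p : ℂ) ^ (Complex.I * (t : ℂ)))).re) / (p : ℝ))

lemma term_le {k : ℕ} {g : Fin k → ArithmeticFunction ℂ} (hg : ∀ i n, ‖g i n‖ ≤ 1) (h : Fin k → ℤ) (n : ℕ) :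
    ‖term g h n‖ ≤ 1 := by
  unfold term
  rw [norm_prod]
  exact prod_le_one (fun _ _ => norm_nonneg _) fun i _ => hg i _

lemma meanAll_eq {k : ℕ} (g : Fin k → ArithmeticFunction ℂ) (h : Fin k → ℤ) (N : ℕ) :
    meanAll g h N = mean g h 1 {0} N := by
  unfold meanAll mean
  rw [filter_true_of_mem (fun n _ => by rw [mem_singleton, Nat.mod_one]), one_div, ← div_eq_inv_mul]

lemma good_eq {k : ℕ} (g : Fin k → ArithmeticFunction ℂ) (h : Fin k → ℤ) (P : ℕ) :
    good g h P = nZ (term g h) P := rfl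

theorem result :
    (∀ (k : ℕ) (g : Fin k → ArithmeticFunction ℂ), (∀ i n, ‖g i n‖ ≤ 1) → ∀ (h : Fin k → ℤ) (c : ℝ), 0 < c →
      (∃ᶠ N in atTop, c ≤ ‖meanAll g h N‖) → ∀ P : ℕ, 0 < P →
        (good g h P : ℝ) ≤ 108 * (1 + 1 / c) * 2 ^ P / √P) ∧
    (∀ (k : ℕ) (g : Fin k → ArithmeticFunction ℂ), (∀ i n, ‖g i n‖ ≤ 1) → ∀ (h : Fin k → ℤ) (c : ℝ), 0 < c →
      ∀ q a : ℕ, (∃ᶠ N in atTop, c ≤ ‖mean g h q {a} N‖) → ∀ P : ℕ, 0 < P → q ∣ P →
        (good g h P : ℝ) ≤ 108 * (1 + 1 / c) * 2 ^ P / √P) ∧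
    (∀ (k : ℕ) (g : Fin k → ArithmeticFunction ℂ), (∀ i n, ‖g i n‖ ≤ 1) → ∀ h : Fin k → ℤ,
      (∀ K : ℝ, ∃ P : ℕ, 0 < P ∧ K * 2 ^ P / √P ≤ good g h P) → Tendsto (meanAll g h) atTop (𝓝 0)) ∧
    (∀ (k : ℕ) (g : Fin k → ArithmeticFunction ℂ), (∀ i n, ‖g i n‖ ≤ 1) → ∀ h : Fin k → ℤ,
      ((∀ q : ℕ, 0 < q → ∀ a < q, Tendsto (mean g h q {a}) atTop (𝓝 0)) ↔
        ∀ q : ℕ, 0 < q → ∀ K : ℝ, ∃ P : ℕ, 0 < P ∧ q ∣ P ∧ K * 2 ^ P / √P ≤ good g h P)) ∧
    ((∀ (k : ℕ), 1 ≤ k → ∀ (g : Fin k → ArithmeticFunction ℂ), Hyp g → ∀ h : Fin k → ℤ, Function.Injective h →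
        ∀ K : ℝ, ∃ P : ℕ, 0 < P ∧ K * 2 ^ P / √P ≤ good g h P) →
      ∀ (k : ℕ), 1 ≤ k → ∀ (g : Fin k → ArithmeticFunction ℂ), Hyp g → ∀ h : Fin k → ℤ, Function.Injective h →
        Tendsto (meanAll g h) atTop (𝓝 0)) := by
  classical
  have hmain : ∀ (k : ℕ) (g : Fin k → ArithmeticFunction ℂ), (∀ i n, ‖g i n‖ ≤ 1) → ∀ h : Fin k → ℤ,
      (∀ K : ℝ, ∃ P : ℕ, 0 < P ∧ K * 2 ^ P / √P ≤ good g h P) → Tendsto (meanAll g h) atTop (𝓝 0) := by
    intro k g hg h hK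
    have h1 := zero_of_many (u := term g h) (M := 1) (fun n _ => term_le hg h n) (q := 1) {0} (fun K => by
      obtain ⟨P, hP, h2⟩ := hK K
      exact ⟨P, hP, one_dvd P, h2⟩)
    exact h1.congr fun N => (meanAll_eq g h N).symm
  refine ⟨fun k g hg h c hc hfr P hP => ?_, fun k g hg h c hc q a hfr P hP hd => ?_, hmain,
    fun k g hg h => ⟨fun hcl q hq K => ?_, fun hK q hq a ha => ?_⟩,
    fun hK k hk g hg h hh => hmain k g hg.2.1 h (hK k hk g hg h hh)⟩
  · simp only [meanAll_eq] at hfr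
    exact few_C (fun n _ => term_le hg h n) hc 1 {0} hfr hP (one_dvd P)
  · exact few_C (fun n _ => term_le hg h n) hc q {a} hfr hP hd
  · obtain ⟨P, hP, hd, hK⟩ := sqrt_large q hq K
    refine ⟨P, hP, hd, hK.trans (le_of_eq ?_)⟩
    have h3 : good g h P = 2 ^ P := by
      unfold good
      rw [filter_eq_self.2, card_powerset, card_range]
      intro A hA
      rw [mem_powerset] at hA
      have h4 : mean g h P A = fun N => ∑ j ∈ A, mean g h P {j} N := by
        funext N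
        have h5 := avS_eq (fun (_ : Unit) => fun n => (term g h n).re) (fun _ => N) P A ()
        have h6 := avS_eq (fun (_ : Unit) => fun n => (term g h n).im) (fun _ => N) P A ()
        unfold mean
        rw [← sum_div]
        congr 1
        apply Complex.ext
        · simp only [Complex.re_sum, mem_singleton]
          exact h5
        · simp only [Complex.im_sum, mem_singleton]
          exact h6
      rw [h4]
      have h7 : (0 : ℂ) = ∑ j ∈ A, (0 : ℂ) := by simp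
      rw [h7]
      exact tendsto_finsetSum _ fun j hj => hcl P hP j (mem_range.1 (hA hj))
    rw [h3]
    push_cast
    ring
  · exact zero_of_many (u := term g h) (M := 1) (fun n _ => term_le hg h n) (q := q) {a} (hK q hq)

end Pool.Agent.Results.MP_0c9a68_nt.UnionsOfClasses
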