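import Mathlib
import Pool.Agent.Q291.GW.Moment

/-!
# Moment lower bounds for bootstrap percolation thresholds on Galton-Watson trees

For every `r ≥ 2`, every real `α` with `0 < α ≤ r - 1` and every offspring law `ξ`, almost surely
on the event that the tree is infinite,
`p_c(T_ξ, r) ≥ 2^(-(1+α)/α) (E ξ^(1+α))^(-1/α)`.
-/

namespace Pool.Agent.Results.MP_0cce6e_pr.MomentBound

open MeasureTheory
open scoped ENNReal
open Q291.GW

theorem result (r : ℕ) (hr : 2 ≤ r) (α : ℝ) (hα : 0 < α) (hαr : α ≤ r - 1) :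
    (0 : ℝ) < 2 ^ (-(1 + α) / α) ∧
    ∀ ξ : PMF ℕ, ∀ᵐ ω ∂gw ξ, {v | InTree ω v}.Infinite →
      ENNReal.ofReal (2 ^ (-(1 + α) / α)) * (∑' k, ξ k * (k : ℝ≥0∞) ^ (1 + α)) ^ (-1 / α) ≤
        ENNReal.ofReal (pc (tree ω) r) :=
  ⟨Real.rpow_pos_of_pos (by norm_num) _, fun ξ => moment_bound hr hα hαr ξ⟩

end Pool.Agent.Results.MP_0cce6e_pr.MomentBound
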