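import Pool.Agent.Q112.HamGlue
import Pool.Agent.Q112.HamDraw

/-!
# The Birkhoff-Lewis inequality on average over plane triangulations with a Hamilton cycle

A plane triangulation with a Hamilton cycle is the union of two triangulations of the same polygon,
one drawn inside and one drawn outside.  If both are chosen independently from the same finite
family (with any weights), the average of the chromatic polynomial is positive at every real
`q ≥ 4`, with an exponentially growing lower bound.  The same holds for arbitrary pairs of plane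
graphs glued along the boundary of a half plane.
-/

set_option autoImplicit false

namespace Pool.Agent.Results.MP_0d034c_co.HamiltonianAverages

open Polynomial Pool.Agent.H207R2.BL

/-- The vertices `0, …, m-1` are the corners of a convex polygon, in this order; no two edges of
`T` cross. -/
def NonCrossing {m : ℕ} (T : SimpleGraph (Fin m)) : Prop :=
  ∀ i j k l : Fin m, i < j → j < k → k < l → T.Adj i k → ¬ T.Adj j l

/-- `T` is a triangulation of the convex polygon with corners `0, …, m-1`: the sides of the polygon
and a maximal set of pairwise noncrossing diagonals. -/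
def IsTriangulation {m : ℕ} (T : SimpleGraph (Fin m)) : Prop :=
  NonCrossing T ∧ ∀ T' : SimpleGraph (Fin m), NonCrossing T' → T ≤ T' → T' = T

/-- (1) Let `N i` be finitely many graphs drawn in the closed upper half plane with the same
boundary vertices `0, …, n-1` on the real axis, and let `glue (N i) (N j)` be the plane graph formed
by `N i` and the mirror image of `N j`.  For all real weights `a i` and all real `q ≥ 4`
`(∑ a_i P(N_i, q))² ≤ q^n ∑ a_i a_j P(glue N_i N_j, q)`.
(2) The union of two noncrossing graphs on the corners of a polygon is planar.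
(3) Let `T i` be a finite family of triangulations of the polygon with `m ≥ 2` corners, and let
`P i j` be the chromatic polynomial of the planar graph `T i ⊔ T j`.  For all real `q ≥ 4` and all
real weights `a i`
`∑ a_i a_j P_ij(q) ≥ (∑ a_i)² q (q-1) ((q-2)² / (q-1))^(m-2)`.
In particular the average of `P_ij(q)` over all pairs is positive.
(4) For all triangulations `T`, `T'` of this polygon and all real `q ≥ 4` the absolute value of
`P(T ⊔ T', q)` is at most `q (q-1) (q-2)^(m-2)`. -/
theorem result :
    (∀ (n : ℕ) (J : Type) [Fintype J] (V : J → Type) [∀ i, Finite (V i)]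
      (N : ∀ i, SimpleGraph (V i ⊕ Fin n)), (∀ i, DrawnInHalfPlane (N i)) →
      ∀ (p : J → J → ℝ[X]) (r : J → ℝ[X]), (∀ i j, IsChrom (glue (N i) (N j)) (p i j)) →
      (∀ i, IsChrom (N i) (r i)) → ∀ q : ℝ, 4 ≤ q → ∀ a : J → ℝ,
      (∑ i, a i * (r i).eval q) ^ 2 ≤ q ^ n * ∑ i, ∑ j, a i * a j * (p i j).eval q) ∧
    (∀ (m : ℕ) (T T' : SimpleGraph (Fin m)), NonCrossing T → NonCrossing T' →
      ∃ (f : Fin m → ℝ × ℝ) (γ : Fin m → Fin m → ℝ → ℝ × ℝ), IsDrawing (T ⊔ T') f γ) ∧
    (∀ (m : ℕ), 2 ≤ m → ∀ (J : Type) [Fintype J] (T : J → SimpleGraph (Fin m)),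
      (∀ i, IsTriangulation (T i)) → ∀ P : J → J → ℝ[X], (∀ i j, IsChrom (T i ⊔ T j) (P i j)) →
      ∀ q : ℝ, 4 ≤ q → ∀ a : J → ℝ,
      (∑ i, a i) ^ 2 * (q * (q - 1) * ((q - 2) ^ 2 / (q - 1)) ^ (m - 2)) ≤
        ∑ i, ∑ j, a i * a j * (P i j).eval q) ∧
    (∀ (m : ℕ), 2 ≤ m → ∀ T T' : SimpleGraph (Fin m), IsTriangulation T → IsTriangulation T' →
      ∀ p : ℝ[X], IsChrom (T ⊔ T') p → ∀ q : ℝ, 4 ≤ q →
      |p.eval q| ≤ q * (q - 1) * (q - 2) ^ (m - 2)) := by
  classical
  -- chromatic polynomials of triangulations and of the path
  have hTri : ∀ (m : ℕ), 2 ≤ m → ∀ T : SimpleGraph (Fin m), IsTriangulation T →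
      IsChrom T (X * (X - 1) * (X - 2) ^ (m - 2)) := by
    intro m hm T hT k
    rw [Pool.Agent.Q112.HA.count_full k (m - 2) (Fin m) T (by rw [Fintype.card_fin]; omega) hT.1
      (Pool.Agent.Q112.HA.full_of_maximal T hT.1 hT.2)]
    simp
  have hPath : ∀ (m : ℕ), 2 ≤ m →
      IsChrom (SimpleGraph.hasse (Fin m)) (X * (X - 1) ^ (m - 1)) := by
    intro m hm k
    rw [Pool.Agent.Q112.HA.count_path k (m - 1) (Fin m) (SimpleGraph.hasse (Fin m))
      (by rw [Fintype.card_fin]; omega) (fun x y => Iff.rfl)]
    simp
  have hPathNC : ∀ m : ℕ, NonCrossing (SimpleGraph.hasse (Fin m)) := by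
    intro m i j k l hij hjk _ h _
    rcases h with h | h
    · exact h.2 hij hjk
    · exact absurd h.1 (not_lt.2 (hij.trans hjk).le)
  have hPathLe : ∀ (m : ℕ) (T : SimpleGraph (Fin m)), IsTriangulation T →
      SimpleGraph.hasse (Fin m) ≤ T := by
    intro m T hT
    have hF := Pool.Agent.Q112.HA.full_of_maximal T hT.1 hT.2
    have key : ∀ a b : Fin m, a ⋖ b → T.Adj a b := by
      intro a b hab
      refine hF a b hab.1 ?_
      intro c d _ _
      exact ⟨fun h => hab.2 h.1 h.2.1, fun h => hab.2 h.2.1 h.2.2⟩
    intro a b hab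
    rcases hab with h | h
    · exact key a b h
    · exact (key b a h).symm
  have hglue : ∀ {m : ℕ} (T T' : SimpleGraph (Fin m)) (p : ℝ[X]), IsChrom (T ⊔ T') p →
      IsChrom (glue (Pool.Agent.Q112.HA.half T) (Pool.Agent.Q112.HA.half T')) p :=
    fun T T' p hp => hp.of_iso (Pool.Agent.Q112.HA.glueHalf T T')
  refine ⟨?_, ?_, ?_, ?_⟩
  · intro n J _ V _ N hN p r hp hr q hq a
    refine Pool.Agent.Q112.HA.family V N ?_ p hp r hr q hq a
    intro i
    obtain ⟨f, γ, h1, h2, h3, h4, h5⟩ := hN i
    exact crossless_of_drawing (N i) f γ h1 h2 h3 h4 h5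
  · intro m T T' hT hT'
    exact Pool.Agent.Q112.HA.union_planar T T' hT hT'
  · intro m hm J _ T hT P hP q hq a
    have hq0 : 0 < q := by linarith
    have hq1 : 0 < q - 1 := by linarith
    -- add the path to the family
    let TT : Option J → SimpleGraph (Fin m) := fun o => match o with
      | none => SimpleGraph.hasse (Fin m)
      | some i => T i
    let PP : Option J → Option J → ℝ[X] := fun o o' => match o, o' with
      | some i, some j => P i j
      | some _, none => X * (X - 1) * (X - 2) ^ (m - 2)
      | none, some _ => X * (X - 1) * (X - 2) ^ (m - 2)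
      | none, none => X * (X - 1) ^ (m - 1)
    have hPP : ∀ o o', IsChrom (TT o ⊔ TT o') (PP o o') := by
      intro o o'
      cases o with
      | none =>
        cases o' with
        | none =>
          change IsChrom (SimpleGraph.hasse (Fin m) ⊔ SimpleGraph.hasse (Fin m)) _
          rw [sup_idem]
          exact hPath m hm
        | some i =>
          change IsChrom (SimpleGraph.hasse (Fin m) ⊔ T i) _
          rw [sup_eq_right.2 (hPathLe m _ (hT i))]
          exact hTri m hm _ (hT i)
      | some i =>
        cases o' with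
        | none =>
          change IsChrom (T i ⊔ SimpleGraph.hasse (Fin m)) _
          rw [sup_eq_left.2 (hPathLe m _ (hT i))]
          exact hTri m hm _ (hT i)
        | some j => exact hP i j
    have hNC : ∀ o, Crossless (Pool.Agent.Q112.HA.half (TT o)) := by
      intro o
      apply Pool.Agent.Q112.HA.half_crossless
      cases o with
      | none => exact hPathNC m
      | some i => exact (hT i).1
    have hsq : ((∑ i, a i) * (q * (q - 1) * (q - 2) ^ (m - 2))) ^ 2 ≤
        (q * (q - 1) ^ (m - 1)) * ∑ i, ∑ j, a i * a j * (P i j).eval q := by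
      refine Pool.Agent.Q112.HA.quad (by positivity) ?_
      intro t
      have := psd (fun _ : Option J => Empty) (fun o => Pool.Agent.Q112.HA.half (TT o)) hNC PP
        (fun o o' => hglue _ _ _ (hPP o o')) q hq (fun o => match o with
          | none => -t
          | some i => a i)
      simp only [Fintype.sum_option, PP, eval_mul, eval_sub, eval_pow, eval_X, eval_one,
        eval_ofNat] at this
      rw [Finset.sum_add_distrib, ← Finset.sum_mul, ← Finset.mul_sum, ← Finset.sum_mul,
        ← Finset.sum_mul] at this
      nlinarith [this]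
    have e : ((∑ i, a i) * (q * (q - 1) * (q - 2) ^ (m - 2))) ^ 2 =
        (q * (q - 1) ^ (m - 1)) *
          ((∑ i, a i) ^ 2 * (q * (q - 1) * ((q - 2) ^ 2 / (q - 1)) ^ (m - 2))) := by
      have h1 : (q - 1) ^ (m - 1) = (q - 1) ^ (m - 2) * (q - 1) := by
        rw [← pow_succ]
        congr 1
        omega
      rw [h1, div_pow]
      field_simp
      rw [← pow_mul, ← pow_mul, Nat.mul_comm]
    rw [e] at hsq
    exact le_of_mul_le_mul_left hsq (by positivity)
  · intro m hm T T' hT hT' p hp q hq
    have hq0 : 0 < q := by linarith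
    have hq1 : 0 < q - 1 := by linarith
    have hq2 : 0 < q - 2 := by linarith
    set A : ℝ := q * (q - 1) * (q - 2) ^ (m - 2) with hA
    have hA0 : 0 < A := by positivity
    have hp' : IsChrom (T' ⊔ T) p := by rw [sup_comm]; exact hp
    have hTe : (X * (X - 1) * (X - 2) ^ (m - 2) : ℝ[X]).eval q = A := by
      simp [hA]
    have hsq : (p.eval q) ^ 2 ≤ A * A := by
      refine Pool.Agent.Q112.HA.quad hA0 ?_
      intro t
      let TT : Bool → SimpleGraph (Fin m) := fun o => match o with
        | true => T
        | false => T'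
      let PP : Bool → Bool → ℝ[X] := fun o o' => match o, o' with
        | true, true => X * (X - 1) * (X - 2) ^ (m - 2)
        | false, false => X * (X - 1) * (X - 2) ^ (m - 2)
        | true, false => p
        | false, true => p
      have hPP : ∀ o o', IsChrom (TT o ⊔ TT o') (PP o o') := by
        intro o o'
        cases o <;> cases o'
        · change IsChrom (T' ⊔ T') _
          rw [sup_idem]
          exact hTri m hm _ hT'
        · exact hp'
        · exact hp
        · change IsChrom (T ⊔ T) _
          rw [sup_idem]
          exact hTri m hm _ hT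
      have hNC : ∀ o, Crossless (Pool.Agent.Q112.HA.half (TT o)) := by
        intro o
        apply Pool.Agent.Q112.HA.half_crossless
        cases o
        · exact hT'.1
        · exact hT.1
      have := psd (fun _ : Bool => Empty) (fun o => Pool.Agent.Q112.HA.half (TT o)) hNC PP
        (fun o o' => hglue _ _ _ (hPP o o')) q hq (fun o => match o with
          | true => 1
          | false => -t)
      simp only [Fintype.sum_bool, PP, hTe] at this
      nlinarith [this]
    exact abs_le_of_sq_le_sq (by rw [← pow_two] at hsq; exact hsq) hA0.le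

end Pool.Agent.Results.MP_0d034c_co.HamiltonianAverages
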