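import Pool.Agent.Q93.LF.Cut
import Pool.Agent.Y406.SP.Small
import Pool.Agent.Y865.RF.Fin

/-!
# Chromatic polynomials of layered plane graphs are moment sequences at every real `q ≥ 4`

`L` is a mirror symmetric layer with `n` bottom and `n` top vertices, `C` a cap with `n` boundary
vertices, and `G_k` is the plane graph `C`, `k` copies of `L`, mirror image of `C`.  The layers may
be stacked strips or nested annuli: it is only assumed that the graph `C` with `k` layers can be
drawn in the closed half plane with its `n` free boundary vertices on the axis.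
-/

set_option autoImplicit false

namespace Pool.Agent.Results.MP_0d034c_co.LayeredFamilies

open Polynomial Pool.Agent.H207R2.BL Pool.Agent.Q93.LF

lemma crossless {V : Type} {n : ℕ} {N : SimpleGraph (V ⊕ Fin n)} (h : DrawnInHalfPlane N) :
    Crossless N := by
  obtain ⟨f, γ, h1, h2, h3, h4, h5⟩ := h
  exact crossless_of_drawing N f γ h1 h2 h3 h4 h5

/-- Let `q ≥ 4` be real (`q > 4` in (6)).
(1) **Cut inequality.** Let `N`, `M` be finite graphs drawn in the closed half plane with the same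
boundary vertices `0, …, n-1` on the axis; `glue N M` is the plane graph formed by `N` and the mirror
image of `M`.  Then `P(glue N M, q)² ≤ P(glue N N, q) P(glue M M, q)`.
(2)-(6) Let `L` be symmetric and let all towers (`k` layers `L` below the cap `C`) be drawn in the
half plane; let `a k = P(G_k, q)` where `G_k = capped L C k` has `k` layers between two caps.
(2) All Hankel forms `∑ c_i c_j a_(i+j)` are nonnegative.
(3) `a_(2m) ≥ 0` and `a_j^(2m) ≤ a_0^(2m-j) a_(2m)^j` for `j ≤ 2m`.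
(4) If `a_(2m) = 0` for one `m ≥ 1` then `a_k = 0` for all `k ≥ 1`.
(5) If `P(glue (stack L C) M, q) ≠ 0` for one `M` drawn in the half plane (one plane graph which
contains the cap with one layer), then `a_(2m) > 0` for all `m ≥ 1`.
(6) If `q > 4` and for one such `M` the graph `glue (stack L C) M` is drawn in the plane with at most
eleven vertices, or has no minor of minimum degree at least `5`, then `a_(2m) > 0` for all
`m ≥ 1`. -/
theorem result :
    (∀ (n : ℕ) (V V' : Type) [Finite V] [Finite V'] (N : SimpleGraph (V ⊕ Fin n))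
      (M : SimpleGraph (V' ⊕ Fin n)), DrawnInHalfPlane N → DrawnInHalfPlane M →
      ∀ p r s : ℝ[X], IsChrom (glue N M) p → IsChrom (glue N N) r → IsChrom (glue M M) s →
      ∀ q : ℝ, 4 ≤ q → p.eval q ^ 2 ≤ r.eval q * s.eval q) ∧
    (∀ (n : ℕ) (W V : Type) [Finite W] [Finite V] (L : SimpleGraph ((W ⊕ Fin n) ⊕ Fin n))
      (C : SimpleGraph (V ⊕ Fin n)), Symmetric L → (∀ k, DrawnInHalfPlane (tower L C k)) →
      ∀ p : ℕ → ℝ[X], (∀ k, IsChrom (capped L C k) (p k)) → ∀ q : ℝ, 4 ≤ q →
      (∀ (K : ℕ) (c : Fin K → ℝ), 0 ≤ ∑ i, ∑ j, c i * c j * (p (i + j)).eval q) ∧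
      (∀ m : ℕ, 0 ≤ (p (2 * m)).eval q) ∧
      (∀ m j : ℕ, j ≤ 2 * m → (p j).eval q ^ (2 * m) ≤
        (p 0).eval q ^ (2 * m - j) * (p (2 * m)).eval q ^ j) ∧
      (∀ m : ℕ, 1 ≤ m → (p (2 * m)).eval q = 0 → ∀ k : ℕ, 1 ≤ k → (p k).eval q = 0) ∧
      (∀ (V' : Type) [Finite V'] (M : SimpleGraph (V' ⊕ Fin n)), DrawnInHalfPlane M →
        ∀ r : ℝ[X], IsChrom (glue (stack L C) M) r →
        (r.eval q ≠ 0 → ∀ m : ℕ, 1 ≤ m → 0 < (p (2 * m)).eval q) ∧
        (4 < q → MinorDegLe 4 (glue (stack L C) M) → ∀ m : ℕ, 1 ≤ m → 0 < (p (2 * m)).eval q) ∧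
        (4 < q → (∃ f γ, IsDrawing (glue (stack L C) M) f γ) →
          Nat.card (((W ⊕ V ⊕ Fin n) ⊕ V') ⊕ Fin n) ≤ 11 →
          ∀ m : ℕ, 1 ≤ m → 0 < (p (2 * m)).eval q))) := by
  refine ⟨?_, ?_⟩
  · intro n V V' _ _ N M hN hM p r s hp hr hs q hq
    exact (cut N M (crossless hN) (crossless hM) p r s hp hr hs q hq).2
  · intro n W V _ _ L C hL hT p hp q hq
    have hT' : ∀ k, Crossless (tower L C k) := fun k => crossless (hT k)
    have hcs := cs L C hL hT' p hp q hq
    have hzero : ∀ m : ℕ, (p (2 * m)).eval q = 0 → ∀ k : ℕ, 1 ≤ k → (p k).eval q = 0 :=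
      fun m hm k hk => hcs.zero m hm k hk
    refine ⟨fun K c => hankel L C hL hT' p hp q hq K c, hcs.nonneg, hcs.lyapunov,
      fun m _ hm => hzero m hm, ?_⟩
    intro V' _ M hM r hr
    have main : r.eval q ≠ 0 → ∀ m : ℕ, 1 ≤ m → 0 < (p (2 * m)).eval q := by
      intro hne m hm
      refine lt_of_le_of_ne (hcs.nonneg m) (fun h0 => hne ?_)
      have h2 : (p 2).eval q = 0 := hzero m h0.symm 2 (by norm_num)
      have h3 := cut (tower L C 1) M (hT' 1) (crossless hM) r (p 2)
        (chr (glue M M)) hr (chrom_towers hL C 1 1 _ (hp _)) (chr_spec _) q hq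
      rw [h2, zero_mul] at h3
      exact pow_eq_zero_iff (two_ne_zero) |>.1 (le_antisymm h3.2 (sq_nonneg _))
    refine ⟨main, ?_, ?_⟩
    · intro hq4 hmin
      refine main (ne_of_gt ?_)
      rw [eq_chr hr]
      exact minorDeg_pos 4 q (by exact_mod_cast hq4) _ hmin
    · rintro hq4 ⟨f, γ, hd⟩ hcard
      refine main (ne_of_gt ?_)
      rw [eq_chr hr]
      exact Pool.Agent.Y406.SP.small_pos _ _ (Pool.Agent.Y865.RF.pl _ _ f γ hd) hcard q hq4

end Pool.Agent.Results.MP_0d034c_co.LayeredFamilies
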