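import Pool.Agent.Q255.SA.Bes4

/-!
# Half a derivative on the edge

For every `d` the boundary functions `l` of the `L`-series on the edge `Re s = 3/2` of absolute
convergence of all elliptic curves over all number fields of degree at most `d` satisfy, with one
constant, `∫_a^{a+1} |log |l(t + h)| - log |l(t)||^p dt ≤ C |h|` for all real `a` and `|h| ≤ 1`; for
`p = 2` this is half a derivative in mean square.  The exponent `p ≥ 2` is arbitrary, and there is
an exponential version.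
-/

set_option autoImplicit false

namespace Pool.Agent.Results.MP_0d9be2_nt.HalfDerivative

open NumberField IsDedekindDomain Filter Topology MeasureTheory

/-- `W v` is, for every finite place `v`, an integral model of `E` with discriminant minimal at
`v`. -/
def MinimalModels {K : Type} [Field K] [NumberField K] (E : WeierstrassCurve K)
    (W : HeightOneSpectrum (𝓞 K) → WeierstrassCurve (𝓞 K)) : Prop :=
  ∀ v : HeightOneSpectrum (𝓞 K),
    (∃ C : WeierstrassCurve.VariableChange K, C • (W v).map (algebraMap (𝓞 K) K) = E) ∧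
    ∀ W' : WeierstrassCurve (𝓞 K),
      (∃ C : WeierstrassCurve.VariableChange K, C • W'.map (algebraMap (𝓞 K) K) = E) →
      ∀ n : ℕ, (W v).Δ ∈ v.asIdeal ^ n → W'.Δ ∈ v.asIdeal ^ n

open Classical in
/-- The Euler factor at `v`, `(1 - a_v Nv^{-s} + Nv^{1-2s})⁻¹` if the reduction at `v` is good and
`(1 - a_v Nv^{-s})⁻¹` if it is bad, where `a_v` is `Nv` minus the number of affine points of the
reduction of `W v`. -/
noncomputable def localFactor {K : Type} [Field K] [NumberField K]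
    (W : HeightOneSpectrum (𝓞 K) → WeierstrassCurve (𝓞 K)) (v : HeightOneSpectrum (𝓞 K))
    (s : ℂ) : ℂ :=
  (1 - ((Ideal.absNorm v.asIdeal : ℂ)
        - (Nat.card {xy : (𝓞 K ⧸ v.asIdeal) × (𝓞 K ⧸ v.asIdeal) //
            ((W v).map (Ideal.Quotient.mk v.asIdeal)).toAffine.Equation xy.1 xy.2} : ℂ))
        * (Ideal.absNorm v.asIdeal : ℂ) ^ (-s)
    + (if (W v).Δ ∈ v.asIdeal then 0 else (Ideal.absNorm v.asIdeal : ℂ))
        * (Ideal.absNorm v.asIdeal : ℂ) ^ (-2 * s))⁻¹

/-- The `L`-series, as the Euler product over all finite places. -/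
noncomputable def LSeries {K : Type} [Field K] [NumberField K]
    (W : HeightOneSpectrum (𝓞 K) → WeierstrassCurve (𝓞 K)) (s : ℂ) : ℂ :=
  ∏' v : HeightOneSpectrum (𝓞 K), localFactor W v s

/-- The point `3/2 + iτ` of the edge of absolute convergence. -/
noncomputable def edgePoint (τ : ℝ) : ℂ := ((3 / 2 : ℝ) : ℂ) + (τ : ℂ) * Complex.I

/-- The angle `|s - s_τ| ≤ C (Re s - 3/2)` at `s_τ = 3/2 + iτ` in the half-plane `Re s > 3/2`. -/
def angle (τ C : ℝ) : Set ℂ :=
  {s : ℂ | (3 / 2 : ℝ) < s.re ∧ ‖s - edgePoint τ‖ ≤ C * (s.re - (3 / 2 : ℝ))}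

/-- The product of the Euler factors at `3/2 + iτ` over the finite places of norm less than `x`. -/
noncomputable def partialProduct {K : Type} [Field K] [NumberField K]
    (W : HeightOneSpectrum (𝓞 K) → WeierstrassCurve (𝓞 K)) (x : ℕ) (τ : ℝ) : ℂ :=
  ∏ᶠ v ∈ {v : HeightOneSpectrum (𝓞 K) | Ideal.absNorm v.asIdeal < x},
    localFactor W v (edgePoint τ)

/-- `l` is the boundary function of the `L`-series outside the exceptional set `T`: its values
there are not zero, and they are the limits of the partial Euler products and of the `L`-series in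
every angle. -/
def IsBoundaryFunction {K : Type} [Field K] [NumberField K] (T : Set ℝ)
    (W : HeightOneSpectrum (𝓞 K) → WeierstrassCurve (𝓞 K)) (l : ℝ → ℂ) : Prop :=
  ∀ τ : ℝ, τ ∉ T → l τ ≠ 0 ∧
    Tendsto (fun x : ℕ => partialProduct W x τ) atTop (𝓝 (l τ)) ∧
    ∀ C : ℝ, Tendsto (LSeries W) (𝓝[angle τ C] (edgePoint τ)) (𝓝 (l τ))

theorem partial_eq {K : Type} [Field K] [NumberField K]
    (W : HeightOneSpectrum (𝓞 K) → WeierstrassCurve (𝓞 K)) (x : ℕ) (τ : ℝ) :
    partialProduct W x τ = Pool.Agent.Q255.SA.PP W x τ := by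
  have hlf : ∀ v s, localFactor W v s = Pool.Agent.W350.EdgeEC.lf W v s := by
    intro v s
    have h1 : (Nat.card {xy : (𝓞 K ⧸ v.asIdeal) × (𝓞 K ⧸ v.asIdeal) //
            ((W v).map (Ideal.Quotient.mk v.asIdeal)).toAffine.Equation xy.1 xy.2}) =
        Pool.Agent.H341R2.EC.aff (Pool.Agent.H341R2.EC.red v (W v)) := by
      unfold Pool.Agent.H341R2.EC.aff Pool.Agent.H341R2.EC.red
      refine Nat.card_congr (Equiv.subtypeEquivRight fun q => ?_)
      exact WeierstrassCurve.Affine.equation_iff ..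
    unfold localFactor Pool.Agent.W350.EdgeEC.lf Pool.Agent.H341R2.EC.trc
    rw [h1]
    unfold Pool.Agent.H921R2.TatePole.nm
    push_cast
    rfl
  have hf : {v : HeightOneSpectrum (𝓞 K) | Ideal.absNorm v.asIdeal < x}.Finite :=
    Pool.Agent.W350.EdgeNF.hfin x
  unfold partialProduct Pool.Agent.Q255.SA.PP
  rw [finprod_mem_eq_finite_toFinset_prod _ hf]
  exact Finset.prod_congr rfl fun v _ => hlf v _

theorem lfactor_eq {K : Type} [Field K] [NumberField K]
    (W : HeightOneSpectrum (𝓞 K) → WeierstrassCurve (𝓞 K)) (v : HeightOneSpectrum (𝓞 K)) (s : ℂ) :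
    localFactor W v s = Pool.Agent.W350.EdgeEC.lf W v s := by
  have h1 : (Nat.card {xy : (𝓞 K ⧸ v.asIdeal) × (𝓞 K ⧸ v.asIdeal) //
            ((W v).map (Ideal.Quotient.mk v.asIdeal)).toAffine.Equation xy.1 xy.2}) =
        Pool.Agent.H341R2.EC.aff (Pool.Agent.H341R2.EC.red v (W v)) := by
    unfold Pool.Agent.H341R2.EC.aff Pool.Agent.H341R2.EC.red
    refine Nat.card_congr (Equiv.subtypeEquivRight fun q => ?_)
    exact WeierstrassCurve.Affine.equation_iff ..
  unfold localFactor Pool.Agent.W350.EdgeEC.lf Pool.Agent.H341R2.EC.trc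
  rw [h1]
  unfold Pool.Agent.H921R2.TatePole.nm
  push_cast
  rfl

theorem exists_bf {K : Type} [Field K] [NumberField K] (E : WeierstrassCurve K)
    (hE : E.IsElliptic) (W : HeightOneSpectrum (𝓞 K) → WeierstrassCurve (𝓞 K))
    (hW : MinimalModels E W) :
    ∃ l : ℝ → ℂ, IsBoundaryFunction Pool.Agent.W350.EdgeEC.TT W l := by
  classical
  have h : ∀ τ : ℝ, ∃ l : ℂ, τ ∉ Pool.Agent.W350.EdgeEC.TT → l ≠ 0 ∧
      Tendsto (fun x : ℕ => partialProduct W x τ) atTop (𝓝 l) ∧
      ∀ C : ℝ, Tendsto (LSeries W) (𝓝[angle τ C] (edgePoint τ)) (𝓝 l) := by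
    intro τ
    by_cases hτ : τ ∈ Pool.Agent.W350.EdgeEC.TT
    · exact ⟨0, fun h => absurd hτ h⟩
    · obtain ⟨l, h1, h2, h3⟩ := Pool.Agent.W350.EdgeEC.universal E hE W
        (fun v => Pool.Agent.W350.EdgeEC.isMinAt_twist (hW v)) τ hτ
      refine ⟨l, fun _ => ⟨h1, ?_, fun C => (h3 C).congr fun s => ?_⟩⟩
      · simp_rw [partial_eq]
        exact h2
      · exact tprod_congr fun v => (lfactor_eq W v s).symm
  choose l hl using h
  exact ⟨l, fun τ hτ => hl τ hτ⟩

theorem null_of_dimH {T : Set ℝ} (hT : dimH T = 0) : volume T = 0 := by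
  have h1 : (Measure.hausdorffMeasure (1 : ℝ) : Measure ℝ) T = 0 := by
    have := hausdorffMeasure_of_dimH_lt (X := ℝ) (s := T) (d := 1) (by rw [hT]; norm_num)
    simpa using this
  rw [← MeasureTheory.hausdorffMeasure_real]
  exact h1

theorem isLim {K : Type} [Field K] [NumberField K]
    {W : HeightOneSpectrum (𝓞 K) → WeierstrassCurve (𝓞 K)} {T : Set ℝ} {l : ℝ → ℂ}
    (h : IsBoundaryFunction T W l) : Pool.Agent.Q255.SA.IsLim W T l := by
  intro τ hτ
  refine ⟨(h τ hτ).1, ?_⟩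
  have := (h τ hτ).2.1
  simp_rw [partial_eq] at this
  exact this

/-- **Half a derivative on the edge.**  There is a set `T` of real numbers of Hausdorff dimension
`0` such that the `L`-series of every elliptic curve over every number field has a boundary function
on the line `Re s = 3/2` outside `T`, and such that for every `d ≥ 1` the following hold.

* For every real `p ≥ 2` there is a constant `C` with
`∫_a^{a+1} |log |l(t + h)| - log |l(t)||^p dt ≤ C |h|` for every elliptic curve over a number field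
of degree at most `d`, with boundary function `l`, all real `a` and all `|h| ≤ 1`.
* For every `0 ≤ r₀ < 1/(8d)` there is a constant `C` with
`∫_a^{a+1} ((|l(t + h)| / |l(t)|)^r - 1)² dt ≤ C |h|` for all these curves, all real `r` with
`|r| ≤ r₀`, all real `a` and all `|h| ≤ 1`. -/
theorem result : ∃ T : Set ℝ, dimH T = 0 ∧
    (∀ (K : Type) [Field K] [NumberField K] (E : WeierstrassCurve K) [E.IsElliptic]
      (W : HeightOneSpectrum (𝓞 K) → WeierstrassCurve (𝓞 K)) (_ : MinimalModels E W),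
      ∃ l : ℝ → ℂ, IsBoundaryFunction T W l) ∧
    ∀ d : ℕ, 1 ≤ d →
      (∀ p : ℝ, 2 ≤ p → ∃ C : ℝ, 0 < C ∧
        ∀ (K : Type) [Field K] [NumberField K], Module.finrank ℚ K ≤ d →
        ∀ (E : WeierstrassCurve K) [E.IsElliptic]
          (W : HeightOneSpectrum (𝓞 K) → WeierstrassCurve (𝓞 K)), MinimalModels E W →
        ∀ l : ℝ → ℂ, IsBoundaryFunction T W l → ∀ a h : ℝ, |h| ≤ 1 →
          ∫⁻ t in Set.Icc a (a + 1),
              ENNReal.ofReal (|Real.log ‖l (t + h)‖ - Real.log ‖l t‖| ^ p) ≤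
            ENNReal.ofReal (C * |h|)) ∧
      (∀ r₀ : ℝ, 0 ≤ r₀ → r₀ < 1 / (8 * d) → ∃ C : ℝ, 0 < C ∧
        ∀ (K : Type) [Field K] [NumberField K], Module.finrank ℚ K ≤ d →
        ∀ (E : WeierstrassCurve K) [E.IsElliptic]
          (W : HeightOneSpectrum (𝓞 K) → WeierstrassCurve (𝓞 K)), MinimalModels E W →
        ∀ l : ℝ → ℂ, IsBoundaryFunction T W l → ∀ r : ℝ, |r| ≤ r₀ → ∀ a h : ℝ, |h| ≤ 1 →
          ∫⁻ t in Set.Icc a (a + 1),
              ENNReal.ofReal (((‖l (t + h)‖ / ‖l t‖) ^ r - 1) ^ 2) ≤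
            ENNReal.ofReal (C * |h|)) := by
  refine ⟨Pool.Agent.W350.EdgeEC.TT, Pool.Agent.W350.EdgeEC.dimH_TT,
    fun K _ _ E hE W hW => exists_bf E hE W hW, fun d hd => ⟨fun p hp => ?_, fun r₀ h0 h1 => ?_⟩⟩
  · have hT : volume Pool.Agent.W350.EdgeEC.TT = 0 :=
      null_of_dimH Pool.Agent.W350.EdgeEC.dimH_TT
    obtain ⟨C, hC, h⟩ := Pool.Agent.Q255.SA.ec_mom d hd hp
    exact ⟨C, hC, fun K _ _ hK E _ W _ l hl a h' hh => h K hK W _ hT l (isLim hl) h' hh a⟩
  · have hT : volume Pool.Agent.W350.EdgeEC.TT = 0 :=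
      null_of_dimH Pool.Agent.W350.EdgeEC.dimH_TT
    have hd' : (0 : ℝ) < d := by exact_mod_cast hd
    have h2 : 8 * d * r₀ < 1 := by
      rw [lt_div_iff₀ (by positivity)] at h1
      linarith
    obtain ⟨C, hC, h⟩ := Pool.Agent.Q255.SA.ec_bes d h0 h2
    exact ⟨C, hC, fun K _ _ hK E _ W _ l hl r hr a h' hh => h K hK W _ hT l (isLim hl) r hr h' hh a⟩

end Pool.Agent.Results.MP_0d9be2_nt.HalfDerivative
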