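import Pool.Agent.Q197.CI.C0ec

/-!
# Goldbach's problem with a twin condition on the index in Cramér's random model

`A` is Cramér's random model of the primes: the events `n ∈ A`, `n ≥ 3`, are independent with the probabilities
`1 / log n`; `el S m` is the `m`-th element `≥ 3` of `S`, the model of the `m`-th prime. Almost surely, for every large
`n` there is an element `q < 2 n` such that `2 n - q` and `el A (q + 2) + 2` are elements; the upper limit of the least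
such `q` relative to `log² n (log log n)²` is `4`, and we determine the exponents of the numbers of the exceptional `n`
and the typical values.
-/

set_option autoImplicit false

namespace Pool.Agent.Results.MP_0ec542_nt.LeastPrimeLaw

open MeasureTheory Filter Pool.Agent.Q120.MF Pool.Agent.Q197.CI
open scoped Topology

/-- `q` is as in the question for `n`, with `S` in place of the set of the primes. -/
def Sol (S : Set ℕ) (n q : ℕ) : Prop := 3 ≤ q ∧ q ∈ S ∧ 2 * n - q ∈ S ∧ el S (q + 2) + 2 ∈ S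

theorem result :
    (∃ (Ω : Type) (_ : MeasurableSpace Ω) (μ : Measure Ω) (A : Ω → Set ℕ), IsProbabilityMeasure μ ∧ IsCramer μ A) ∧
    ∀ (Ω : Type) [MeasurableSpace Ω] (μ : Measure Ω) [IsProbabilityMeasure μ] (A : Ω → Set ℕ), IsCramer μ A →
      -- the question, for all large `n`
      (∀ᵐ ω ∂μ, (A ω).Infinite ∧ ∀ᶠ n : ℕ in atTop, ∃ q : ℕ, q < n ∧ Sol (A ω) n q) ∧
      -- the least `q`
      (∀ c : ℝ, 4 < c → ∀ᵐ ω ∂μ, ∀ᶠ n : ℕ in atTop,
        ∃ q : ℕ, (q : ℝ) ≤ c * (Real.log n ^ 2 * Real.log (Real.log n) ^ 2) ∧ Sol (A ω) n q) ∧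
      (∀ c : ℝ, 0 < c → c < 4 → ∀ᵐ ω ∂μ, Tendsto (fun N : ℕ =>
        Real.log (cntP (fun n => NoSol (Sol (A ω)) n (c * (Real.log n ^ 2 * Real.log (Real.log n) ^ 2))) N) /
          Real.log N) atTop (𝓝 (1 - c / 4))) ∧
      -- typical values
      (∀ t : ℝ, 0 < t → ∀ᵐ ω ∂μ, Tendsto (fun N : ℕ =>
        cntP (fun n => NoSol (Sol (A ω)) n (t * (Real.log n * Real.log (Real.log n) ^ 2))) N / N) atTop
          (𝓝 (Real.exp (-t)))) ∧
      -- the number of the elements `q ≤ h` with `el A (q + 2) + 2` an element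
      ∀ᵐ ω ∂μ, Tendsto (fun h : ℕ => ({q : ℕ | 3 ≤ q ∧ q ≤ h ∧ q ∈ A ω ∧ el (A ω) (q + 2) + 2 ∈ A ω}.ncard : ℝ) *
        Real.log h ^ 2 / h) atTop (𝓝 1) := by
  refine ⟨⟨_, _, cramerMeasure, cramerSet, inferInstance, isCramer⟩, ?_⟩
  intro Ω _ μ _ A hA
  have hSol : ∀ᵐ ω ∂μ, ∀ M : ℕ, ∀ᶠ n : ℕ in atTop, ∀ j : ℕ, 1 ≤ j → (j : ℝ) ≤ Real.log n ^ M →
      (Sol (A ω) n j ↔ (WP P8 j (A ω) ∧ ¬ FlF P1 n j (A ω))) := by
    filter_upwards [ae_infinite hA] with ω hinf M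
    filter_upwards with n j _ _
    rw [wp8 hinf]
    unfold Sol FlF P1
    simp only [Finset.mem_singleton, forall_eq, not_not]
    tauto
  obtain ⟨h1, h2, h3⟩ := row8.final hA 2 (law8 hA) (v8 hA) Sol hSol
  have e1 : (1 : ℝ) * (((1 : ℕ) : ℝ) + 1) ^ 2 = 4 := by norm_num
  have e2 : (1 : ℝ) * ((1 : ℕ) : ℝ) ^ 2 = 1 := by norm_num
  have hc4 : ∀ c : ℝ, 4 < c → ∀ᵐ ω ∂μ, ∀ᶠ n : ℕ in atTop,
      ∃ q : ℕ, (q : ℝ) ≤ c * (Real.log n ^ 2 * Real.log (Real.log n) ^ 2) ∧ Sol (A ω) n q := by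
    intro c hc
    filter_upwards [h1 c (by rw [e1]; exact hc)] with ω h4
    filter_upwards [h4] with n h5
    unfold NoSol at h5
    push Not at h5
    obtain ⟨k, _, k2, k3⟩ := h5
    exact ⟨k, k2, k3⟩
  refine ⟨?_, hc4, fun c hc0 hc => ?_, fun t ht => ?_, ?_⟩
  · filter_upwards [ae_infinite hA, hc4 5 (by norm_num)] with ω hinf h4
    refine ⟨hinf, ?_⟩
    filter_upwards [h4, scale_le 10 2 2, eventually_ge_atTop 1] with n h5 h6 h7
    obtain ⟨k, k2, k3⟩ := h5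
    refine ⟨k, ?_, k3⟩
    have hn0 : (0 : ℝ) < n := by exact_mod_cast h7
    have : (k : ℝ) < n := by linarith
    exact_mod_cast this
  · have h4 := h2 c hc0 (by rw [e1]; exact hc)
    rw [e1] at h4
    exact h4
  · have h4 := h3 t ht
    rw [e2] at h4
    simp only [pow_one, div_one] at h4
    exact h4
  · filter_upwards [law8 hA, ae_infinite hA] with ω h4 hinf
    refine h4.congr (fun h => ?_)
    rw [← Set.ncard_coe_finset]
    congr 3
    congr 1
    ext m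
    rw [Finset.mem_coe, mem_Ws]
    simp only [Set.mem_ofPred_eq]
    rw [wp8 hinf]
    constructor
    · rintro ⟨⟨_, h6⟩, h7, h8⟩
      exact ⟨h7.1, h6, h7.2, h8⟩
    · rintro ⟨h5, h6, h7, h8⟩
      exact ⟨⟨by omega, h6⟩, ⟨h5, h7⟩, h8⟩

end Pool.Agent.Results.MP_0ec542_nt.LeastPrimeLaw
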