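import Pool.Agent.Q175.LG.Az4

/-!
# Analytic zero divisors and the norm `3 / √2`

`G` is a torsion-free group. Complex matrices over the group algebra act by convolution on columns of
functions on `G`. Let `P` be a translation invariant space of functions on `G` which tend to zero, for
example `ℓᵖ(G)`, `0 < p < ∞`, or `c₀(G)`. If the support of a complex matrix `A` is contained in the
support of an integral matrix whose norm on `ℓ²` is at most `3 / √2` plus a number which is exponentially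
small in the size or in the inverse of the square root of the spectral gap, then `A` has a kernel vector
in `P` only if it has a finitely supported kernel vector. Every matrix can be replaced, for each `L`,
by one with the same behaviour whose size is at most linear in `L` and which is supported in an integral
matrix of norm at most `3 / √2 + 2⁻ᴸ`. For `c₀` of the free group of rank two matrices of linear size
really have kernel vectors which are not finitely supported, so the logarithmic scale is optimal.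
-/

set_option autoImplicit false

namespace Pool.Agent.Results.MP_0f25e6_al.AnalyticWindow

open TH57.Thr
open Pool.Agent.Q175.LG.Az (Space)

/-- The matrix `A` over the complex group algebra has a nonzero kernel vector in the space `P` of
functions on `G`: functions `f j`, not all zero, with `∑ j, A i j * f j = 0` for all `i`, where
`(α * f)(g) = ∑ α(k) f(k⁻¹ g)`. -/
def HasKernel {G : Type} [Group G] {m n : ℕ} (P : (G → ℂ) → Prop)
    (A : Matrix (Fin m) (Fin n) (MonoidAlgebra ℂ G)) : Prop :=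
  ∃ f : Fin n → G → ℂ, (∀ j, P (f j)) ∧ f ≠ 0 ∧
    ∀ (i : Fin m) (g : G), ∑ j, ∑ k ∈ (A i j).coeff.support, (A i j).coeff k * f j (k⁻¹ * g) = 0

/-- `f` has finite support. -/
def FinSupp {G : Type} (f : G → ℂ) : Prop := {g | f g ≠ 0}.Finite

/-- The complex matrix `A` is supported in the support of the integral matrix `N`. -/
def SuppIn {G : Type} [Group G] {m n : ℕ} (A : Matrix (Fin m) (Fin n) (MonoidAlgebra ℂ G))
    (N : Matrix (Fin m) (Fin n) (MonoidAlgebra ℤ G)) : Prop :=
  ∀ i j g, (A i j).coeff g ≠ 0 → (N i j).coeff g ≠ 0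

/-- Spectral gap: the spectrum of `N N*` is contained in `{0} ∪ [K⁻², ∞)`; that is, every `x` is within
distance `K |xN|` of the kernel of `N` on `ℓ²`, formulated with finitely supported vectors. -/
def Gap {G : Type} [Group G] {m n : ℕ} (N : Matrix (Fin m) (Fin n) (MonoidAlgebra ℤ G)) (K : ℕ) :
    Prop :=
  ∀ (x : Fin m → MonoidAlgebra ℝ G) (ε : ℝ), 0 < ε → ∃ x' : Fin m → MonoidAlgebra ℝ G,
    normSq (Matrix.vecMul x' (toReal N)) ≤ ε ∧
      normSq (x - x') ≤ (K : ℝ) ^ 2 * normSq (Matrix.vecMul x (toReal N)) + ε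

/-- The norm of `N` is at most `3 / √2 + 2⁻ᴸ`, and `L` is large compared with the size or with the
inverse of the square root of the spectral gap of `N`. -/
def Window {G : Type} [Group G] {m n : ℕ} (N : Matrix (Fin m) (Fin n) (MonoidAlgebra ℤ G)) : Prop :=
  ∃ L : ℕ, NormLE N (3 / Real.sqrt 2 + (1 / 2) ^ L) ∧
    (2 * min m n + 30 ≤ L ∨ ∃ K : ℕ, Gap N K ∧ 16 * K + 31 ≤ L)

/-- `A` has at most `C L` rows and columns and is supported in an integral matrix of norm at most
`3 / √2 + 2⁻ᴸ`. -/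
def Near {G : Type} [Group G] (C L : ℕ) {m n : ℕ}
    (A : Matrix (Fin m) (Fin n) (MonoidAlgebra ℂ G)) : Prop :=
  m ≤ C * L ∧ n ≤ C * L ∧ ∃ N : Matrix (Fin m) (Fin n) (MonoidAlgebra ℤ G),
    SuppIn A N ∧ NormLE N (3 / Real.sqrt 2 + (1 / 2) ^ L)

theorem ker_iff {G : Type} [Group G] {m n : ℕ} (P : (G → ℂ) → Prop)
    (A : Matrix (Fin m) (Fin n) (MonoidAlgebra ℂ G)) :
    HasKernel P A ↔ Pool.Agent.Q175.LG.Az.Ker P A := by
  have key : ∀ f : Fin n → G → ℂ, ((∀ (i : Fin m) (g : G),
      ∑ j, ∑ k ∈ (A i j).coeff.support, (A i j).coeff k * f j (k⁻¹ * g) = 0) ↔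
      Pool.Agent.Q175.LG.Az.mact A f = 0) := by
    intro f
    have h1 : ∀ i g, Pool.Agent.Q175.LG.Az.mact A f i g
        = ∑ j, ∑ k ∈ (A i j).coeff.support, (A i j).coeff k * f j (k⁻¹ * g) := by
      intro i g
      unfold Pool.Agent.Q175.LG.Az.mact
      rw [Finset.sum_apply]
      exact Finset.sum_congr rfl fun j _ => Pool.Agent.Q175.LG.Az.act_apply _ _ _
    constructor
    · intro h
      funext i g
      rw [h1]
      exact h i g
    · intro h i g
      rw [← h1, h]
      rfl
  constructor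
  · rintro ⟨f, h1, h2, h3⟩
    exact ⟨f, h1, h2, (key f).1 h3⟩
  · rintro ⟨f, h1, h2, h3⟩
    exact ⟨f, h1, h2, (key f).2 h3⟩

theorem near_of {G : Type} [Group G] {m n : ℕ} (A : Matrix (Fin m) (Fin n) (MonoidAlgebra ℂ G)) :
    ∃ C : ℕ, ∀ L : ℕ, 1 ≤ L → ∃ (m' n' : ℕ) (B : Matrix (Fin m') (Fin n') (MonoidAlgebra ℂ G)),
      Near C L B ∧ ∀ P : (G → ℂ) → Prop, Space P → (HasKernel P A ↔ HasKernel P B) := by
  obtain ⟨C, hC⟩ := Pool.Agent.Q175.LG.Az.ker_dil A
  refine ⟨m + n + C, fun L hL => ?_⟩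
  obtain ⟨k, B, N, h1, h2, h3, h4⟩ := hC L hL
  have h5 : m ≤ m * L := Nat.le_mul_of_pos_right _ hL
  have h6 : n ≤ n * L := Nat.le_mul_of_pos_right _ hL
  refine ⟨m + k, n + k, B, ⟨?_, ?_, N, h3, h4⟩, fun P hP => ?_⟩
  · nlinarith [Nat.zero_le (n * L)]
  · nlinarith [Nat.zero_le (m * L)]
  · rw [ker_iff, ker_iff, h2 P hP]

/-- Let `G` be a torsion-free group. `Space P` means that `P` is a translation invariant linear space of
functions on `G` which contains the finitely supported functions and consists of functions which tend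
to zero.

(1) The spaces `ℓᵖ(G)`, `0 < p < ∞`, and `c₀(G)` have these properties, and a `1 × 1` matrix `α` has a
kernel vector in `P` if and only if `α * f = 0` for some nonzero `f` in `P`.
(2) Let `A` be a complex matrix supported in an integral matrix `N` in the window. If `A` has a kernel
vector in `P` then it has a finitely supported kernel vector.
(3) For every complex matrix `A` there is `C` such that for every `L ≥ 1` some matrix `B` with
`Near C L B` has for all spaces `P` a kernel vector in `P` if and only if `A` has one.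
(4) All complex matrices over `ℂ[G]` with a kernel vector in `P` have a finitely supported kernel vector if
and only if for every `C` there is `L ≥ 1` such that this is true for the matrices with
`Near C L A`.
(5) For the free group of rank two there is `C` such that for every `L ≥ 1` some matrix `B` with
`Near C L B` has a kernel vector in `c₀` but no finitely supported kernel vector; by (2), a matrix like
this supported in an integral matrix of norm at most `3 / √2 + 2⁻ᴸ` has `min m n > (L - 30) / 2`. -/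
theorem result (G : Type) [Group G] (htf : ∀ g : G, ∀ k : ℕ, 0 < k → g ^ k = 1 → g = 1) :
    ((∀ p : ENNReal, 0 < p → p < ⊤ → Space (fun f : G → ℂ => Memℓp f p)) ∧
      Space (fun f : G → ℂ => Filter.Tendsto f Filter.cofinite (nhds 0)) ∧
      ∀ (P : (G → ℂ) → Prop) (α : MonoidAlgebra ℂ G),
        HasKernel P (Matrix.of fun _ _ : Fin 1 => α) ↔
          ∃ f : G → ℂ, P f ∧ f ≠ 0 ∧ ∀ g, ∑ k ∈ α.coeff.support, α.coeff k * f (k⁻¹ * g) = 0) ∧
    (∀ (P : (G → ℂ) → Prop), Space P →
      ∀ (m n : ℕ) (A : Matrix (Fin m) (Fin n) (MonoidAlgebra ℂ G))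
        (N : Matrix (Fin m) (Fin n) (MonoidAlgebra ℤ G)), SuppIn A N → Window N →
        HasKernel P A → HasKernel FinSupp A) ∧
    (∀ (m n : ℕ) (A : Matrix (Fin m) (Fin n) (MonoidAlgebra ℂ G)),
      ∃ C : ℕ, ∀ L : ℕ, 1 ≤ L → ∃ (m' n' : ℕ) (B : Matrix (Fin m') (Fin n') (MonoidAlgebra ℂ G)),
        Near C L B ∧ ∀ P : (G → ℂ) → Prop, Space P → (HasKernel P A ↔ HasKernel P B)) ∧
    (∀ (P : (G → ℂ) → Prop), Space P →
      ((∀ (m n : ℕ) (A : Matrix (Fin m) (Fin n) (MonoidAlgebra ℂ G)),
        HasKernel P A → HasKernel FinSupp A) ↔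
      ∀ C : ℕ, ∃ L : ℕ, 1 ≤ L ∧ ∀ (m n : ℕ) (A : Matrix (Fin m) (Fin n) (MonoidAlgebra ℂ G)),
        Near C L A → HasKernel P A → HasKernel FinSupp A)) ∧
    (∃ C : ℕ, ∀ L : ℕ, 1 ≤ L → ∃ (m n : ℕ)
      (B : Matrix (Fin m) (Fin n) (MonoidAlgebra ℂ (FreeGroup (Fin 2)))),
      Near C L B ∧ L < 2 * min m n + 30 ∧
      HasKernel (fun f => Filter.Tendsto f Filter.cofinite (nhds 0)) B ∧
      ¬ HasKernel FinSupp B) := by
  have hone : ∀ {H : Type} [Group H] (P : (H → ℂ) → Prop) (α : MonoidAlgebra ℂ H),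
      HasKernel P (Matrix.of fun _ _ : Fin 1 => α) ↔
        ∃ f : H → ℂ, P f ∧ f ≠ 0 ∧ ∀ g, ∑ k ∈ α.coeff.support, α.coeff k * f (k⁻¹ * g) = 0 := by
    intro H _ P α
    constructor
    · rintro ⟨f, h1, h2, h3⟩
      refine ⟨f 0, h1 0, fun h0 => h2 ?_, fun g => ?_⟩
      · funext j
        rw [Subsingleton.elim j 0, h0]
        rfl
      · have h4 := h3 0 g
        rw [Fin.sum_univ_one] at h4
        exact h4
    · rintro ⟨f, h1, h2, h3⟩
      refine ⟨fun _ => f, fun _ => h1, fun h0 => h2 (congrFun h0 0), fun i g => ?_⟩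
      rw [Fin.sum_univ_one]
      exact h3 g
  have hwin : ∀ {H : Type} [Group H] (_ : ∀ g : H, ∀ k : ℕ, 0 < k → g ^ k = 1 → g = 1)
      (P : (H → ℂ) → Prop), Space P →
      ∀ (m n : ℕ) (A : Matrix (Fin m) (Fin n) (MonoidAlgebra ℂ H))
        (N : Matrix (Fin m) (Fin n) (MonoidAlgebra ℤ H)), SuppIn A N → Window N →
        HasKernel P A → HasKernel FinSupp A := by
    intro H _ hH P hP m n A N hs hN h
    rw [ker_iff] at h ⊢
    refine Pool.Agent.Q175.LG.Az.ker_window hH hP A N ?_ hs h
    obtain ⟨L, hL, hw | ⟨K, hK, hw⟩⟩ := hN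
    · exact Pool.Agent.Q175.LG.win_size N L hw hL
    · exact Pool.Agent.Q175.LG.win_gap N L K hw hK hL
  refine ⟨⟨Pool.Agent.Q175.LG.Az.space_lp, Pool.Agent.Q175.LG.Az.space_c0, hone⟩,
    fun P hP m n A N => hwin htf P hP m n A N, fun m n A => near_of A,
    fun P hP => ⟨fun h C => ?_, fun h => ?_⟩, ?_⟩
  · exact ⟨1, le_rfl, fun m n A _ => h m n A⟩
  · intro m n A hA
    obtain ⟨C, hC⟩ := near_of A
    obtain ⟨L, hL, hL2⟩ := h C
    obtain ⟨m', n', B, hB, hB2⟩ := hC L hL
    exact (hB2 _ Pool.Agent.Q175.LG.Az.space_fin).2 (hL2 m' n' B hB ((hB2 P hP).1 hA))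
  · obtain ⟨C, hC⟩ := near_of (Matrix.of fun _ _ : Fin 1 => Pool.Agent.Q175.LG.Az.chi)
    have hF : ∀ g : FreeGroup (Fin 2), ∀ k : ℕ, 0 < k → g ^ k = 1 → g = 1 := fun g k hk h => by
      refine IsMulTorsionFree.pow_left_injective hk.ne' ?_
      change g ^ k = 1 ^ k
      rw [h, one_pow]
    have h1 : HasKernel (fun f => Filter.Tendsto f Filter.cofinite (nhds 0))
        (Matrix.of fun _ _ : Fin 1 => Pool.Agent.Q175.LG.Az.chi) := by
      rw [hone]
      refine ⟨_, Pool.Agent.Q175.LG.Az.radial_c0, fun h0 => ?_, fun g => ?_⟩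
      · have h2 := congrFun h0 1
        rw [FreeGroup.norm_one] at h2
        unfold Pool.Agent.Q175.LG.Az.phi at h2
        norm_num at h2
      · exact (Pool.Agent.Q175.LG.Az.act_apply Pool.Agent.Q175.LG.Az.chi _ g).symm.trans
          (congrFun Pool.Agent.Q175.LG.Az.chi_radial g)
    have h2 : ¬ HasKernel FinSupp (Matrix.of fun _ _ : Fin 1 => Pool.Agent.Q175.LG.Az.chi) := by
      rw [hone]
      rintro ⟨f, hf, h0, h3⟩
      apply h0
      refine Pool.Agent.Q175.LG.Az.chi_fin f hf ?_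
      funext g
      rw [Pool.Agent.Q175.LG.Az.act_apply]
      exact h3 g
    refine ⟨C, fun L hL => ?_⟩
    obtain ⟨m, n, B, hB, hB2⟩ := hC L hL
    have h3 := (hB2 _ Pool.Agent.Q175.LG.Az.space_c0).1 h1
    have h4 : ¬ HasKernel FinSupp B := fun h => h2 ((hB2 _ Pool.Agent.Q175.LG.Az.space_fin).2 h)
    refine ⟨m, n, B, hB, ?_, h3, h4⟩
    by_contra hcon
    obtain ⟨N, hs, hN⟩ := hB.2.2
    exact h4 (hwin hF _ Pool.Agent.Q175.LG.Az.space_c0 m n B N hs ⟨L, hN, Or.inl (by omega)⟩ h3)

end Pool.Agent.Results.MP_0f25e6_al.AnalyticWindow
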