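import Mathlib

/-!
A counterexample: the four-cycle joined by one edge to a clique on 27 vertices. Here `f = 5`, `b = 6`
and the average local independence number is `37 / 31 < 6 / 5`.
-/

namespace Pool.Agent.Results.MP_0f31da_co.CliqueWithSquare

/-- `f(G)`: the maximum number of vertices of an induced forest. -/
noncomputable def forestNum {V : Type} (G : SimpleGraph V) : ℕ :=
  sSup {k | ∃ S : Finset V, S.card = k ∧ (G.induce (S : Set V)).IsAcyclic}

/-- `b(G)`: the maximum number of vertices of an induced bipartite subgraph. -/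
noncomputable def bipartiteNum {V : Type} (G : SimpleGraph V) : ℕ :=
  sSup {k | ∃ S : Finset V, S.card = k ∧ (G.induce (S : Set V)).IsBipartite}

/-- `l(v)`: the independence number of the subgraph induced on the neighbours of `v`. -/
noncomputable def localIndep {V : Type} (G : SimpleGraph V) (v : V) : ℕ :=
  (G.induce (G.neighborSet v)).indepNum

/-- The average of `l(v)` over all vertices. -/
noncomputable def avgLocalIndep {V : Type} [Fintype V] (G : SimpleGraph V) : ℚ :=
  (∑ v, (localIndep G v : ℚ)) / Fintype.card V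

/-- the adjacency relation of the example -/
def adj : Fin 4 ⊕ Fin 27 → Fin 4 ⊕ Fin 27 → Prop
  | .inl a, .inl b => b = a + 1 ∨ a = b + 1
  | .inr a, .inr b => a ≠ b
  | .inl a, .inr b => a = 0 ∧ b = 0
  | .inr a, .inl b => a = 0 ∧ b = 0

/-- the example -/
def G : SimpleGraph (Fin 4 ⊕ Fin 27) where
  Adj := adj
  symm := ⟨by
    rintro (a | a) (b | b) h
    · exact h.symm
    · exact ⟨h.2, h.1⟩
    · exact ⟨h.2, h.1⟩
    · exact Ne.symm h⟩
  loopless := ⟨by
    rintro (a | a) h
    · have : ∀ a : Fin 4, ¬ (a = a + 1 ∨ a = a + 1) := by decide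
      exact this a h
    · exact h rfl⟩

lemma reach_zero (v : Fin 4 ⊕ Fin 27) : G.Reachable v (.inr 0) := by
  have h0' : G.Adj (.inl 0) (.inr 0) := ⟨rfl, rfl⟩
  have h0 : G.Reachable (.inl 0) (.inr 0) := h0'.reachable
  rcases v with a | b
  · have h1' : G.Adj (.inl 1) (.inl 0) :=
      show (0 : Fin 4) = 1 + 1 ∨ (1 : Fin 4) = 0 + 1 from Or.inr rfl
    have h1 := h1'.reachable
    have h2' : G.Adj (.inl 2) (.inl 1) :=
      show (1 : Fin 4) = 2 + 1 ∨ (2 : Fin 4) = 1 + 1 from Or.inr rfl
    have h2 := h2'.reachable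
    have h3' : G.Adj (.inl 3) (.inl 0) :=
      show (0 : Fin 4) = 3 + 1 ∨ (3 : Fin 4) = 0 + 1 from Or.inl rfl
    have h3 := h3'.reachable
    fin_cases a
    · exact h0
    · exact h1.trans h0
    · exact h2.trans (h1.trans h0)
    · exact h3.trans h0
  · by_cases hb : b = 0
    · rw [hb]
    · have hb' : G.Adj (.inr b) (.inr 0) := hb
      exact hb'.reachable

lemma connected : G.Connected :=
  { preconnected := fun u v => (reach_zero u).trans (reach_zero v).symm
    nonempty := ⟨.inr 0⟩ }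

/-- no forest contains three clique vertices -/
lemma no_triangle (S : Set (Fin 4 ⊕ Fin 27)) (hS : (G.induce S).IsAcyclic) (a b c : Fin 27)
    (hab : a ≠ b) (hbc : b ≠ c) (hca : c ≠ a) (ha : Sum.inr a ∈ S) (hb : Sum.inr b ∈ S)
    (hc : Sum.inr c ∈ S) : False := by
  have h1 : (G.induce S).Adj ⟨.inr a, ha⟩ ⟨.inr b, hb⟩ := hab
  have h2 : (G.induce S).Adj ⟨.inr b, hb⟩ ⟨.inr c, hc⟩ := hbc
  have h3 : (G.induce S).Adj ⟨.inr c, hc⟩ ⟨.inr a, ha⟩ := hca
  refine hS (SimpleGraph.Walk.cons h1 (SimpleGraph.Walk.cons h2 (SimpleGraph.Walk.cons h3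
    SimpleGraph.Walk.nil))) ?_
  rw [SimpleGraph.Walk.cons_isCycle_iff]
  constructor
  · rw [SimpleGraph.Walk.isPath_def]
    simp [hbc, hab.symm, hca]
  · simp [hab, hbc, hab.symm, hca.symm]

/-- no forest contains the four-cycle -/
lemma no_square (S : Set (Fin 4 ⊕ Fin 27)) (hS : (G.induce S).IsAcyclic)
    (h : ∀ a : Fin 4, Sum.inl a ∈ S) : False := by
  have h1 : (G.induce S).Adj ⟨.inl 0, h 0⟩ ⟨.inl 1, h 1⟩ := Or.inl rfl
  have h2 : (G.induce S).Adj ⟨.inl 1, h 1⟩ ⟨.inl 2, h 2⟩ := Or.inl rfl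
  have h3 : (G.induce S).Adj ⟨.inl 2, h 2⟩ ⟨.inl 3, h 3⟩ := Or.inl rfl
  have h4 : (G.induce S).Adj ⟨.inl 3, h 3⟩ ⟨.inl 0, h 0⟩ := Or.inl rfl
  refine hS (SimpleGraph.Walk.cons h1 (SimpleGraph.Walk.cons h2 (SimpleGraph.Walk.cons h3
    (SimpleGraph.Walk.cons h4 SimpleGraph.Walk.nil)))) ?_
  rw [SimpleGraph.Walk.cons_isCycle_iff]
  constructor
  · rw [SimpleGraph.Walk.isPath_def]
    simp
  · simp

lemma card_split (S : Finset (Fin 4 ⊕ Fin 27)) :
    S.card = (Finset.univ.filter fun a : Fin 4 => Sum.inl a ∈ S).card +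
      (Finset.univ.filter fun b : Fin 27 => Sum.inr b ∈ S).card := by
  have : S = (Finset.univ.filter fun a : Fin 4 => Sum.inl a ∈ S).disjSum
      (Finset.univ.filter fun b : Fin 27 => Sum.inr b ∈ S) := by
    ext v
    rcases v with a | b <;> simp
  conv_lhs => rw [this]
  rw [Finset.card_disjSum]

lemma forest_le : forestNum G ≤ 5 := by
  refine csSup_le ⟨0, ∅, rfl, ?_⟩ ?_
  · have : IsEmpty ((∅ : Finset (Fin 4 ⊕ Fin 27)) : Set (Fin 4 ⊕ Fin 27)) := by simp
    intro v
    exact this.elim v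
  · rintro k ⟨S, rfl, hS⟩
    rw [card_split]
    have h1 : (Finset.univ.filter fun a : Fin 4 => Sum.inl a ∈ S).card ≤ 3 := by
      by_contra h
      push Not at h
      have h4 : (Finset.univ.filter fun a : Fin 4 => Sum.inl a ∈ S) = Finset.univ := by
        rw [← Finset.card_eq_iff_eq_univ]
        refine le_antisymm (Finset.card_le_univ _) ?_
        rw [Fintype.card_fin]
        exact h
      refine no_square S hS fun a => ?_
      have : a ∈ (Finset.univ.filter fun a : Fin 4 => Sum.inl a ∈ S) := by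
        rw [h4]; exact Finset.mem_univ _
      exact (Finset.mem_filter.1 this).2
    have h2 : (Finset.univ.filter fun b : Fin 27 => Sum.inr b ∈ S).card ≤ 2 := by
      by_contra h
      push Not at h
      obtain ⟨a, b, c, ha, hb, hc, hab, hac, hbc⟩ := Finset.two_lt_card_iff.1 h
      exact no_triangle S hS a b c hab hbc hac.symm (Finset.mem_filter.1 ha).2
        (Finset.mem_filter.1 hb).2 (Finset.mem_filter.1 hc).2
    omega

lemma bip_ge : 6 ≤ bipartiteNum G := by
  refine le_csSup ⟨Fintype.card (Fin 4 ⊕ Fin 27), ?_⟩ ?_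
  · rintro k ⟨S, rfl, _⟩
    exact Finset.card_le_univ _
  · refine ⟨(Finset.univ : Finset (Fin 4)).disjSum {1, 2}, by simp, ?_⟩
    refine ⟨SimpleGraph.Coloring.mk (fun v => match v.1 with
      | .inl a => if a = 0 ∨ a = 2 then (0 : Fin 2) else 1
      | .inr b => if b = 1 then 0 else 1) ?_⟩
    rintro ⟨u, hu⟩ ⟨v, hv⟩ h
    have h' : adj u v := h
    rcases u with a | a <;> rcases v with b | b
    · have : ∀ a b : Fin 4, (b = a + 1 ∨ a = b + 1) →
        (if a = 0 ∨ a = 2 then (0 : Fin 2) else 1) ≠ (if b = 0 ∨ b = 2 then (0 : Fin 2) else 1) := by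
        decide
      exact this a b h'
    · have hb : b = 0 := h'.2
      subst hb
      simp at hv
    · have ha : a = 0 := h'.1
      subst ha
      simp at hu
    · have hab : a ≠ b := h'
      have hu' : a = 1 ∨ a = 2 := by simpa using hu
      have hv' : b = 1 ∨ b = 2 := by simpa using hv
      rcases hu' with rfl | rfl <;> rcases hv' with rfl | rfl
      · exact absurd rfl hab
      · simp
      · simp
      · exact absurd rfl hab

/-- an upper bound for the local independence number from a covering of the neighbourhood -/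
lemma local_le (v : Fin 4 ⊕ Fin 27) (k : ℕ)
    (h : ∀ T : Finset (Fin 4 ⊕ Fin 27), (∀ u ∈ T, adj v u) →
      (∀ u ∈ T, ∀ w ∈ T, u ≠ w → ¬ adj u w) → T.card ≤ k) : localIndep G v ≤ k := by
  obtain ⟨s, hs⟩ := (G.induce (G.neighborSet v)).exists_isNIndepSet_indepNum
  have hcard : (s.map (Function.Embedding.subtype _)).card = localIndep G v := by
    rw [Finset.card_map]
    exact hs.card_eq
  rw [← hcard]
  apply h
  · intro u hu
    obtain ⟨u', _, rfl⟩ := Finset.mem_map.1 hu
    exact u'.2
  · intro u hu w hw hne hadj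
    obtain ⟨u', hu', rfl⟩ := Finset.mem_map.1 hu
    obtain ⟨w', hw', rfl⟩ := Finset.mem_map.1 hw
    exact hs.isIndepSet hu' hw' (fun h => hne (by rw [h])) hadj

lemma local_inl (a : Fin 4) : localIndep G (.inl a) ≤ if a = 0 then 3 else 2 := by
  apply local_le
  intro T hT _
  have hsub : T ⊆ (if a = 0 then {.inl (a + 1), .inl (a - 1), .inr 0}
      else {.inl (a + 1), .inl (a - 1)}) := by
    intro u hu
    have := hT u hu
    rcases u with b | b
    · have h1 : ∀ a b : Fin 4, (b = a + 1 ∨ a = b + 1) → b = a + 1 ∨ b = a - 1 := by decide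
      rcases h1 a b this with rfl | rfl <;> split_ifs <;> simp
    · obtain ⟨rfl, rfl⟩ : a = 0 ∧ b = 0 := this
      simp
  refine (Finset.card_le_card hsub).trans ?_
  split_ifs
  · exact Finset.card_le_three
  · exact Finset.card_le_two

lemma local_inr (b : Fin 27) : localIndep G (.inr b) ≤ if b = 0 then 2 else 1 := by
  apply local_le
  intro T hT hind
  rw [card_split]
  have h1 : (Finset.univ.filter fun b : Fin 27 => Sum.inr b ∈ T).card ≤ 1 := by
    rw [Finset.card_le_one]
    intro x hx y hy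
    by_contra hne
    exact hind _ (Finset.mem_filter.1 hx).2 _ (Finset.mem_filter.1 hy).2
      (fun h => hne (Sum.inr_injective h)) hne
  have h2 : (Finset.univ.filter fun a : Fin 4 => Sum.inl a ∈ T) ⊆ if b = 0 then {0} else ∅ := by
    intro a ha
    have : b = 0 ∧ a = 0 := hT _ (Finset.mem_filter.1 ha).2
    rw [if_pos this.1, this.2]
    simp
  have h3 := Finset.card_le_card h2
  by_cases hb : b = 0
  · rw [if_pos hb, Finset.card_singleton] at h3
    rw [if_pos hb]
    omega
  · rw [if_neg hb, Finset.card_empty] at h3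
    rw [if_neg hb]
    omega

lemma sum_le : ∑ v, localIndep G v ≤ 37 := by
  rw [Fintype.sum_sum_type]
  have h1 : ∑ a : Fin 4, localIndep G (.inl a) ≤ ∑ a : Fin 4, (if a = 0 then 3 else 2) :=
    Finset.sum_le_sum fun a _ => local_inl a
  have h2 : ∑ b : Fin 27, localIndep G (.inr b) ≤ ∑ b : Fin 27, (if b = 0 then 2 else 1) :=
    Finset.sum_le_sum fun b _ => local_inr b
  have e1 : ∑ a : Fin 4, (if a = 0 then 3 else 2) = 9 := by decide
  have e2 : ∑ b : Fin 27, (if b = 0 then 2 else 1) = 28 := by decide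
  omega

lemma sum_pos : 0 < ∑ v, localIndep G v := by
  refine Finset.sum_pos' (fun _ _ => Nat.zero_le _) ⟨.inr 0, Finset.mem_univ _, ?_⟩
  have hadj : G.Adj (.inr 0) (.inr 1) := show (0 : Fin 27) ≠ 1 by decide
  let u : G.neighborSet (.inr 0) := ⟨.inr 1, hadj⟩
  have h : (G.induce (G.neighborSet (.inr 0))).IsIndepSet
      (({u} : Finset (G.neighborSet (.inr 0))) : Set (G.neighborSet (.inr 0))) := by
    simp
  have := h.card_le_indepNum
  rw [Finset.card_singleton] at this
  exact this

/-- The inequality of the question fails: there is a connected finite graph with at least two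
vertices and `f(G) < b(G) / l̄(G)`. -/
theorem result : ∃ (V : Type) (_ : Fintype V) (G : SimpleGraph V), G.Connected ∧
    2 ≤ Fintype.card V ∧ (forestNum G : ℚ) < bipartiteNum G / avgLocalIndep G := by
  refine ⟨Fin 4 ⊕ Fin 27, inferInstance, G, connected, by simp, ?_⟩
  have h1 : (forestNum G : ℚ) ≤ 5 := by exact_mod_cast forest_le
  have h2 : (6 : ℚ) ≤ bipartiteNum G := by exact_mod_cast bip_ge
  have h3 : (∑ v, (localIndep G v : ℚ)) ≤ 37 := by exact_mod_cast sum_le
  have h4 : (0 : ℚ) < ∑ v, (localIndep G v : ℚ) := by exact_mod_cast sum_pos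
  have hcard : (Fintype.card (Fin 4 ⊕ Fin 27) : ℚ) = 31 := by simp
  have h5 : 0 < avgLocalIndep G := by
    rw [avgLocalIndep, hcard]
    positivity
  rw [lt_div_iff₀ h5]
  have h6 : avgLocalIndep G ≤ 37 / 31 := by
    rw [avgLocalIndep, hcard]
    gcongr
  nlinarith

end Pool.Agent.Results.MP_0f31da_co.CliqueWithSquare
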