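import Pool.Agent.Q170.DetIneq.Main

/-!
For all positive semidefinite complex matrices `A`, `B` and all real `0 ≤ p ≤ 2`,
`det (A² + A^p B^p) ≤ det (A² + |AB|^p)`.
-/

namespace Pool.Agent.Results.MP_0f3ab5_an.DeterminantInequality

open scoped Matrix.Norms.L2Operator ComplexOrder MatrixOrder
open Matrix

/-- the power `X^q` of a matrix, by the continuous functional calculus for Hermitian matrices
applied to the real function `x ↦ x^q` (so `0^0 = 1`, and `0^q = 0` for `q > 0`) -/
noncomputable def mpow {n : ℕ} (X : Matrix (Fin n) (Fin n) ℂ) (q : ℝ) :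
    Matrix (Fin n) (Fin n) ℂ :=
  cfc (fun x : ℝ => x ^ q) X

/-- the modulus `|X| = (X* X)^(1/2)` -/
noncomputable def modulus {n : ℕ} (X : Matrix (Fin n) (Fin n) ℂ) : Matrix (Fin n) (Fin n) ℂ :=
  mpow (Xᴴ * X) (1 / 2)

/-- For every `n`, all positive semidefinite `A`, `B` and all `0 ≤ p ≤ 2`, both determinants are
real, and `0 ≤ det (A² + A^p B^p) ≤ det (A² + |AB|^p)`. -/
theorem result : ∀ (n : ℕ) (A B : Matrix (Fin n) (Fin n) ℂ), A.PosSemidef → B.PosSemidef →
    ∀ p : ℝ, 0 ≤ p → p ≤ 2 →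
      ∃ u v : ℝ, (A ^ 2 + mpow A p * mpow B p).det = (u : ℂ) ∧
        (A ^ 2 + mpow (modulus (A * B)) p).det = (v : ℂ) ∧ 0 ≤ u ∧ u ≤ v := by
  intro n A B hA hB p hp0 hp2
  have hAh : Aᴴ = A := hA.1
  have hBh : Bᴴ = B := hB.1
  have hAsa : IsSelfAdjoint A := hA.1
  have hBsa : IsSelfAdjoint B := hB.1
  set Z : Matrix (Fin n) (Fin n) ℂ := (A * B)ᴴ * (A * B) with hZdef
  have hZ : Z.PosSemidef := posSemidef_conjTranspose_mul_self _
  have hZ0 : 0 ≤ Z := nonneg_iff_posSemidef.mpr hZ
  have hZsa : IsSelfAdjoint Z := hZ.1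
  have hZeq : Z = B * (A * A) * B := by
    rw [hZdef, conjTranspose_mul, hAh, hBh]
    noncomm_ring
  have key : 0 ≤ (A ^ 2 + mpow A p * mpow B p).det ∧
      (A ^ 2 + mpow A p * mpow B p).det ≤ (A ^ 2 + mpow (modulus (A * B)) p).det := by
    have hcomp : mpow (modulus (A * B)) p = cfc (fun x : ℝ => x ^ (p / 2)) Z := by
      have c1 : Continuous (fun x : ℝ => x ^ p) := Real.continuous_rpow_const hp0
      have c2 : Continuous (fun x : ℝ => x ^ (1 / 2 : ℝ)) :=
        Real.continuous_rpow_const (by norm_num)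
      unfold mpow modulus mpow
      rw [← hZdef, ← cfc_comp' (fun x : ℝ => x ^ p) (fun x : ℝ => x ^ (1 / 2 : ℝ)) Z
        c1.continuousOn c2.continuousOn hZsa]
      apply cfc_congr
      intro x hx
      have hx0 : 0 ≤ x := spectrum_nonneg_of_nonneg hZ0 hx
      simp only
      rw [← Real.rpow_mul hx0]
      congr 1
      ring
    rcases hp0.eq_or_lt with h | h
    · subst h
      have e1 : ∀ X : Matrix (Fin n) (Fin n) ℂ, IsSelfAdjoint X →
          cfc (fun x : ℝ => x ^ (0 : ℝ)) X = 1 := by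
        intro X hX
        simp only [Real.rpow_zero]
        exact cfc_const_one ℝ X hX
      rw [hcomp, zero_div, e1 Z hZsa]
      unfold mpow
      rw [e1 A hAsa, e1 B hBsa, mul_one]
      refine ⟨?_, le_rfl⟩
      have h1 : (A ^ 2 + 1).PosSemidef := by
        apply PosSemidef.add _ PosSemidef.one
        rw [sq]
        have := posSemidef_conjTranspose_mul_self A
        rwa [hAh] at this
      exact h1.det_nonneg
    · have := Q170.DetIneq.main_psd hA hB (s := p / 2) (by linarith) (by linarith)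
      rw [hcomp, hZeq, sq]
      unfold mpow
      have e2 : 2 * (p / 2) = p := by ring
      rw [e2] at this
      exact this
  obtain ⟨h1, h2⟩ := key
  have h3 := h1.trans h2
  rw [Complex.le_def] at h1 h2 h3
  refine ⟨(A ^ 2 + mpow A p * mpow B p).det.re, (A ^ 2 + mpow (modulus (A * B)) p).det.re,
    ?_, ?_, ?_, ?_⟩
  · apply Complex.ext
    · simp
    · rw [← h1.2]
      simp
  · apply Complex.ext
    · simp
    · rw [← h3.2]
      simp
  · exact h1.1
  · exact h2.1

end Pool.Agent.Results.MP_0f3ab5_an.DeterminantInequality
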