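import Pool.Agent.Q253.LH.F6

set_option autoImplicit false

/-!
# Abelian fields: relations of a given length between the ordinates and moments of a sum over primes

No hypothesis is assumed.  Let `F` be an abelian extension of `ℚ`, contained in the `q`-th cyclotomic field, and `H` the
subgroup of `(ℤ/q)ˣ` which fixes it.  The irreducible characters of `Gal(F/ℚ)` are the Dirichlet characters modulo `q`
which are trivial on `H`; their Artin `L`-functions are the `L`-functions of the primitive characters, which have the same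
zeros in `0 < Re s < 1` as `L(s, χ)`.  For `x = e^u` put
`E(u) = [F:ℚ] ∑_{n mod q ∈ H} Λ(n) n^(-1/2) min(n/x, x/n) - (8/3) √x`, and `M_k(U) = (1/U) ∫_0^U (-E(u))^k du`.

A relation of length `ℓ` between the values of `Γ_F` is `∑ n_γ γ = 0` with integers `n_γ`, `∑ |n_γ| = ℓ`.
-/

open Filter Topology Set Complex
open DirichletCharacter (LFunction completedLFunction)

namespace Pool.Agent.Results.MP_0f5a55_nt.AbelianRelationsByLength

variable {q : ℕ} [NeZero q]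

open Classical in
/-- the irreducible characters of `Gal(F/ℚ)`: the Dirichlet characters modulo `q` which are trivial on `H` -/
noncomputable def chars (H : Subgroup (ZMod q)ˣ) : Finset (DirichletCharacter ℂ q) :=
  Finset.univ.filter fun χ => ∀ u ∈ H, χ (u : ZMod q) = 1

/-- the Riemann hypothesis for their `L`-functions -/
def GRH (H : Subgroup (ZMod q)ˣ) : Prop :=
  ∀ χ ∈ chars H, ∀ s : ℂ, 1 / 2 < s.re → s.re < 1 → LFunction χ s ≠ 0

/-- how often `γ` occurs: the sum over `χ` of the multiplicities of the zero `1/2 + iγ` of `L(s, χ)` -/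
noncomputable def mult (H : Subgroup (ZMod q)ˣ) (γ : ℝ) : ℕ :=
  ∑ χ ∈ chars H, analyticOrderNatAt (LFunction χ) (1 / 2 + (γ : ℂ) * I)

/-- the values of `Γ_F` -/
abbrev Value (H : Subgroup (ZMod q)ˣ) : Type := {γ : ℝ // 0 < γ ∧ mult H γ ≠ 0}

/-- every value of `Γ_F` occurs exactly once -/
def Once (H : Subgroup (ZMod q)ˣ) : Prop := ∀ γ : ℝ, 0 < γ → mult H γ ≤ 1

/-- no nontrivial relation between values of `Γ_F` of length at most `k` and of the parity of `k` -/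
def NoRelation (H : Subgroup (ZMod q)ˣ) (k : ℕ) : Prop :=
  ∀ n : Value H →₀ ℤ, ∑ γ ∈ n.support, (n γ : ℝ) * (γ : ℝ) = 0 → ∑ γ ∈ n.support, |n γ| ≤ (k : ℤ) →
    Even ((k : ℤ) - ∑ γ ∈ n.support, |n γ|) → n = 0

/-- the central values do not vanish -/
def Central (H : Subgroup (ZMod q)ˣ) : Prop := ∀ χ ∈ chars H, LFunction χ (1 / 2) ≠ 0

open Classical in
/-- `[F:ℚ] ∑_{n mod q ∈ H} Λ(n) n^(-1/2) min(n/x, x/n) - (8/3) √x` for `x = e^u` -/
noncomputable def E (H : Subgroup (ZMod q)ˣ) (u : ℝ) : ℝ :=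
  (H.index : ℝ) * (∑' n : ℕ, if ∃ v ∈ H, (v : ZMod q) = (n : ZMod q) then ArithmeticFunction.vonMangoldt n *
    (Real.exp (-(Real.log n / 2)) * Real.exp (-|u - Real.log n|)) else 0) - 8 / 3 * Real.exp (u / 2)

/-- the `k`-th moment of `-E` -/
noncomputable def M (H : Subgroup (ZMod q)ˣ) (k : ℕ) (U : ℝ) : ℝ := (1 / U) * ∫ u in (0 : ℝ)..U, (-E H u) ^ k

open Classical in
/-- the weighted number of `k`-tuples of critical zeros (both signs of `γ`) with sum `0`: the sum over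
`γ₁ + ... + γ_k = 0` of the product of the `mult γ_j · 2/(1+γ_j²)` -/
noncomputable def T (H : Subgroup (ZMod q)ˣ) (k : ℕ) : ℝ := ∑' s : Fin k → ℝ,
  if ∑ l, s l = 0 then ∏ l, (mult H (s l) : ℝ) * (2 / (1 + s l ^ 2)) else 0

/-- the Bessel function `I₀` -/
noncomputable def I0 (w : ℂ) : ℂ := ∑' k : ℕ, (w / 2) ^ (2 * k) / ((Nat.factorial k : ℂ) ^ 2)

/-- Riemann's function -/
noncomputable def xi (s : ℂ) : ℂ := (1 + s * (s - 1) * completedRiemannZeta₀ s) / 2

open Classical in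
/-- the completed `L`-function of the primitive character which induces `χ` (for the principal character: Riemann's
function) -/
noncomputable def XL (χ : DirichletCharacter ℂ q) (s : ℂ) : ℂ :=
  haveI : NeZero χ.conductor := ⟨χ.conductor_ne_zero⟩
  if χ = 1 then xi s else (χ.conductor : ℂ) ^ (s / 2) * completedLFunction χ.primitiveCharacter s

/-- `(1-t)^(-1/2) ∑_χ Λ'/Λ (1/2 + (1-t)^(1/2), χ)`; for `|t| = 1/2` the argument has real part greater than `1` -/
noncomputable def K (H : Subgroup (ZMod q)ˣ) (t : ℂ) : ℂ := (1 - t) ^ (-(1 / 2) : ℂ) *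
  ∑ χ ∈ chars H, logDeriv (XL χ) (1 / 2 + (1 - t) ^ (1 / 2 : ℂ))

/-- `R(λ) = exp ((1/4πi) ∮_{|t| = 1/2} K(t) log I₀(4λ/t) dt)` -/
noncomputable def R (H : Subgroup (ZMod q)ˣ) (lam : ℝ) : ℝ :=
  Real.exp (1 / (4 * Real.pi * I) * ∮ t in C(0, 1 / 2), K H t * Complex.log (I0 (4 * lam / t))).re

lemma T_eq {H : Subgroup (ZMod q)ˣ} (hG : GRH H) (h0 : Pool.Agent.Q253.LH.mt H 0 = 0) (k : ℕ) :
    Pool.Agent.Q253.LM.T (Pool.Agent.Q253.LH.gi : Pool.Agent.Q253.LH.Idx H → ℝ) Pool.Agent.Q253.LH.ci k = T H k :=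
  Pool.Agent.Q68.LM.t_TT (Pool.Agent.Q253.LH.mt H) (fun x => 2 / (1 + x ^ 2)) k
    (fun x => Pool.Agent.Q253.LH.mt_neg x) h0 (fun x => by rw [neg_sq])
    (fun x => by positivity) (by
      refine ((Pool.Agent.Q253.LH.mt_sm (H := H) hG).mul_left 2).congr fun x => ?_
      ring)

lemma NoRel_iff (H : Subgroup (ZMod q)ˣ) (k : ℕ) :
    Pool.Agent.Q253.LM.NoRel (Pool.Agent.Q253.LH.gi : Pool.Agent.Q253.LH.Idx H → ℝ) k ↔
    (NoRelation H k ∧ (Even k → 2 ≤ k → Once H)) :=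
  Pool.Agent.Q68.LM.t_RL (Pool.Agent.Q253.LH.mt H) k

lemma LI_iff (H : Subgroup (ZMod q)ˣ) :
    LinearIndependent ℚ (fun γ : Value H => (γ : ℝ)) ↔ ∀ k, NoRelation H k :=
  Pool.Agent.Q68.LM.t_LI (Value H) (fun γ => (γ : ℝ))

/-- For every abelian field `F`, without hypothesis.  (1) For even `k ≥ 2` the Riemann hypothesis for the `L`-functions of
`F` is the boundedness of the `k`-th moment.  (2) Under it the first moment tends to twice the number of central zeros,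
and if there is none, then for every `k` the `k`-th moment tends to `T k ≥ R^(k)(0)`, with equality if and only if there is
no relation of length `≤ k` and of the parity of `k` (and every value occurs once, for even `k ≥ 2`), if and only if its
upper limit is at most `R^(k)(0)`.  (3) For even `k ≥ 2` the two inequalities `limsup M_1 ≤ 0`, `limsup M_k ≤ R^(k)(0)` hold
if and only if the Riemann hypothesis holds, no central value vanishes, every value of `Γ_F` occurs once and there is no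
relation of even length `≤ k`.  (4) All these inequalities hold if and only if the Riemann hypothesis, the nonvanishing
of the central values and Q1 for `F` hold. -/
theorem result (H : Subgroup (ZMod q)ˣ) :
    (∀ k : ℕ, Even k → k ≠ 0 → (GRH H ↔ ∃ C : ℝ, ∀ᶠ U : ℝ in atTop, M H k U ≤ C)) ∧
    (GRH H → Tendsto (M H 1) atTop (𝓝 (2 * (mult H 0 : ℝ))) ∧
      (Central H → ∀ k : ℕ, Tendsto (M H k) atTop (𝓝 (T H k)) ∧ iteratedDeriv k (R H) 0 ≤ T H k ∧
        (T H k = iteratedDeriv k (R H) 0 ↔ NoRelation H k ∧ (Even k → 2 ≤ k → Once H)) ∧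
        ((∀ ε : ℝ, 0 < ε → ∀ᶠ U : ℝ in atTop, M H k U ≤ iteratedDeriv k (R H) 0 + ε) ↔
          NoRelation H k ∧ (Even k → 2 ≤ k → Once H)))) ∧
    (∀ k : ℕ, Odd k → iteratedDeriv k (R H) 0 = 0) ∧
    (∀ k : ℕ, Even k → k ≠ 0 → ((GRH H ∧ Central H ∧ Once H ∧ NoRelation H k) ↔
      ((∀ ε : ℝ, 0 < ε → ∀ᶠ U : ℝ in atTop, M H 1 U ≤ ε) ∧
        ∀ ε : ℝ, 0 < ε → ∀ᶠ U : ℝ in atTop, M H k U ≤ iteratedDeriv k (R H) 0 + ε))) ∧
    ((GRH H ∧ Central H ∧ Once H ∧ LinearIndependent ℚ (fun γ : Value H => (γ : ℝ))) ↔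
      ∀ k : ℕ, ∀ ε : ℝ, 0 < ε → ∀ᶠ U : ℝ in atTop, M H k U ≤ iteratedDeriv k (R H) 0 + ε) := by
  have hodd : ∀ k : ℕ, Odd k → iteratedDeriv k (R H) 0 = 0 := by
    intro k hk
    have h1 : (fun x : ℝ => R H (-x)) = R H := by
      funext x
      exact Pool.Agent.Q253.LH.Rq_neg x
    have h2 := iteratedDeriv_comp_neg k (R H) (0 : ℝ)
    rw [h1, neg_zero, hk.neg_one_pow, neg_one_smul] at h2
    linarith
  have hcen : Pool.Agent.Q253.LH.mt H 0 = 0 ↔ Central H := Pool.Agent.Q253.LH.mt_zero_iff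
  have r1 : ∀ k : ℕ, Even k → k ≠ 0 → (GRH H ↔ ∃ C : ℝ, ∀ᶠ U : ℝ in atTop, M H k U ≤ C) := by
    intro k hk hk0
    exact ⟨fun h => Pool.Agent.Q253.LH.moment_bdd (H := H) h hk, fun h => Pool.Agent.Q253.LH.grh_of_moment hk hk0 h⟩
  have r2 : GRH H → Tendsto (M H 1) atTop (𝓝 (2 * (mult H 0 : ℝ))) := fun h => Pool.Agent.Q253.LH.lim_one (H := H) h
  have r3 : GRH H → Central H → ∀ k : ℕ, Tendsto (M H k) atTop (𝓝 (T H k)) ∧ iteratedDeriv k (R H) 0 ≤ T H k ∧
        (T H k = iteratedDeriv k (R H) 0 ↔ NoRelation H k ∧ (Even k → 2 ≤ k → Once H)) ∧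
        ((∀ ε : ℝ, 0 < ε → ∀ᶠ U : ℝ in atTop, M H k U ≤ iteratedDeriv k (R H) 0 + ε) ↔
          NoRelation H k ∧ (Even k → 2 ≤ k → Once H)) := by
    intro hG hC k
    have h0 := hcen.2 hC
    obtain ⟨a, b, c⟩ := Pool.Agent.Q253.LH.level (H := H) hG h0 k
    have l := Pool.Agent.Q253.LH.lim (H := H) hG h0 k
    rw [T_eq hG h0] at a b l
    rw [NoRel_iff] at b c
    exact ⟨l, a, b, c⟩
  have r4 : GRH H → (∀ ε : ℝ, 0 < ε → ∀ᶠ U : ℝ in atTop, M H 1 U ≤ ε) → Central H := by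
    intro hG h
    rw [← hcen]
    have h1 : 2 * (mult H 0 : ℝ) ≤ 0 := by
      refine le_of_forall_pos_le_add fun ε hε => ?_
      rw [zero_add]
      exact le_of_tendsto (r2 hG) (h ε hε)
    have h2 : (0 : ℝ) ≤ mult H 0 := Nat.cast_nonneg _
    have h3 : (mult H 0 : ℝ) = 0 := by linarith
    exact_mod_cast h3
  have r5 : ∀ k : ℕ, Even k → k ≠ 0 → ((GRH H ∧ Central H ∧ Once H ∧ NoRelation H k) ↔
      ((∀ ε : ℝ, 0 < ε → ∀ᶠ U : ℝ in atTop, M H 1 U ≤ ε) ∧
        ∀ ε : ℝ, 0 < ε → ∀ᶠ U : ℝ in atTop, M H k U ≤ iteratedDeriv k (R H) 0 + ε)) := by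
    intro k hk hk0
    have hk2 : 2 ≤ k := by
      obtain ⟨j, hj⟩ := hk
      omega
    constructor
    · rintro ⟨hG, hC, hS, hN⟩
      refine ⟨fun ε hε => ?_, (r3 hG hC k).2.2.2.2 ⟨hN, fun _ _ => hS⟩⟩
      have h1 := r2 hG
      have h2 : mult H 0 = 0 := hcen.2 hC
      rw [h2, Nat.cast_zero, mul_zero] at h1
      filter_upwards [h1.eventually (gt_mem_nhds hε)] with U hU using hU.le
    · rintro ⟨h1, h⟩
      have hG : GRH H := (r1 k hk hk0).2 ⟨_, h 1 one_pos⟩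
      have hC := r4 hG h1
      obtain ⟨a, b⟩ := (r3 hG hC k).2.2.2.1 h
      exact ⟨hG, hC, b hk hk2, a⟩
  refine ⟨r1, fun hG => ⟨r2 hG, r3 hG⟩, hodd, r5, ?_⟩
  constructor
  · rintro ⟨hG, hC, hS, hL⟩ k
    exact (r3 hG hC k).2.2.2.2 ⟨(LI_iff H).1 hL k, fun _ _ => hS⟩
  · intro h
    have h1 : ∀ ε : ℝ, 0 < ε → ∀ᶠ U : ℝ in atTop, M H 1 U ≤ ε := by
      intro ε hε
      have := h 1 ε hε
      rw [hodd 1 odd_one, zero_add] at this
      exact this
    obtain ⟨hG, hC, hS, -⟩ := (r5 2 even_two two_ne_zero).2 ⟨h1, h 2⟩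
    exact ⟨hG, hC, hS, (LI_iff H).2 fun k => ((r3 hG hC k).2.2.2.1 (h k)).1⟩

end Pool.Agent.Results.MP_0f5a55_nt.AbelianRelationsByLength
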