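import Pool.Agent.Q127.EZ.Val

/-!
# Critical zeros of members of the Selberg class at any given subset of an arithmetic progression

For every large `d ≡ 3 (mod 4)` there is one functional equation of degree `d` (one gamma factor `Γ(d s/2 + 1/4)`) such
that the entire members `F` of the Selberg class with this functional equation take ANY prescribed values, up to fixed
unimodular factors and of size up to `κ k^((d-5)/4) / (log k)³`, at the points `1/2 + i h k`, `h = 32 π/d`, `k = 1, 2, …` of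
the critical line.  In particular the set of the `k` with `F(1/2 + i h k) = 0` can be any set of positive integers: the
linear independence of the ordinates of the critical zeros over `ℚ`, and even of any two of them, fails as badly as
possible in the Selberg class.
-/

set_option autoImplicit false

open Complex Filter Set

namespace Pool.Agent.Results.MP_0f5a55_nt.ZerosExactlyAtAnySubset

open Pool.Agent.Q284.S (IsSelberg FE)

/-- `F` with coefficients `a` is an entire member of the Selberg class with real coefficients bounded by `1` in absolute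
value and with the functional equation `Φ(s) = ω conj Φ(1 - conj s)`, `Φ(s) = Q^s Γ(d s/2 + 1/4) F(s)`. -/
structure Member (a : ℕ → ℂ) (F : ℂ → ℂ) (d : ℕ) (Q : ℝ) (ω : ℂ) : Prop where
  /-- the axioms of the Selberg class -/
  sel : IsSelberg a F
  /-- the functional equation (one gamma factor with `λ = d/2`, `μ = 1/4`, so the degree is `d`) -/
  fe : FE F Q (fun _ : Fin 1 => (d : ℝ) / 2) (fun _ => 1 / 4) ω
  /-- `F` is entire -/
  ent : Differentiable ℂ F
  /-- real coefficients, bounded by `1` -/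
  real : ∀ n : ℕ, (a n).im = 0 ∧ ‖a n‖ ≤ 1

/-- **Prescribed values and zeros on an arithmetic progression of the critical line.** -/
theorem result : ∃ d₀ : ℕ, ∀ d : ℕ, d₀ ≤ d → d % 4 = 3 → ∃ (Q κ : ℝ) (ω : ℂ) (u : ℕ → ℂ), 0 < κ ∧ ‖ω‖ = 1 ∧
    (∀ k, ‖u k‖ = 1) ∧
    -- (1) every real sequence `r` with `|r k| ≤ κ (k+1)^((d-5)/4) / (log (k+2))³` is, up to the fixed unimodular
    -- numbers `u k`, the sequence of values of a member `F` at the points `1/2 + i 32 π (k+1)/d`
    (∀ r : ℕ → ℝ, (∀ k, |r k| ≤ κ * ((k : ℝ) + 1) ^ (((d : ℝ) - 5) / 4) / Real.log (k + 2) ^ 3) →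
      ∃ (a : ℕ → ℂ) (F : ℂ → ℂ), Member a F d Q ω ∧
        ∀ k : ℕ, F (1 / 2 + ((32 * Real.pi * (k + 1) / d : ℝ) : ℂ) * I) = r k * u k) ∧
    -- (2) for every set `A` of natural numbers some member vanishes at `1/2 + i 32 π (k+1)/d` exactly if `k ∈ A`
    (∀ A : Set ℕ, ∃ (a : ℕ → ℂ) (F : ℂ → ℂ), Member a F d Q ω ∧
        ∀ k : ℕ, F (1 / 2 + ((32 * Real.pi * (k + 1) / d : ℝ) : ℂ) * I) = 0 ↔ k ∈ A) := by
  obtain ⟨m₀, hm₀, H⟩ := Pool.Agent.Q127.EZ.prescribe
  refine ⟨4 * m₀ + 3, fun d hd hd4 => ?_⟩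
  obtain ⟨m, hm⟩ : ∃ m : ℕ, d = 4 * m + 3 := ⟨d / 4, by omega⟩
  obtain ⟨Q, κ, u, hQ, hκ, hu, hr⟩ := H m (by omega)
  have hdR : (d : ℝ) = 4 * m + 3 := by rw [hm]; push_cast; rfl
  have hl : Pool.Agent.H13R3.EM.lamH m = (d : ℝ) / 2 := by
    rw [hdR]; unfold Pool.Agent.H13R3.EM.lamH; ring
  have hm1 : 1 ≤ m := by omega
  have hmR : (1 : ℝ) ≤ m := by exact_mod_cast hm1
  have h1 : ∀ r : ℕ → ℝ, (∀ k, |r k| ≤ κ * ((k : ℝ) + 1) ^ (((d : ℝ) - 5) / 4) / Real.log (k + 2) ^ 3) →
      ∃ (a : ℕ → ℂ) (F : ℂ → ℂ), Member a F d Q ((-1) ^ (m + 1)) ∧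
        ∀ k : ℕ, F (1 / 2 + ((32 * Real.pi * (k + 1) / d : ℝ) : ℂ) * I) = r k * u k := by
    intro r hr1
    obtain ⟨S, h0, hd', ha, hfe, hv⟩ := hr r (fun k => by
      have h2 := hr1 k
      have e1 : ((d : ℝ) - 5) / 4 = (m : ℝ) - 1 / 2 := by rw [hdR]; ring
      rw [e1] at h2
      exact h2)
    rw [hl] at hfe
    refine ⟨S.a, S.G, ⟨Pool.Agent.Q284.S.isSelberg_of_sel S h0 fun n => (ha n).2, hfe, S.diff, ha⟩, fun k => ?_⟩
    rw [hdR]
    exact hv k
  refine ⟨Q, κ, (-1) ^ (m + 1), u, hκ, by rw [norm_pow, norm_neg, norm_one, one_pow], hu, h1, fun A => ?_⟩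
  classical
  have hpos : ∀ k : ℕ, 0 < κ * ((k : ℝ) + 1) ^ (((d : ℝ) - 5) / 4) / Real.log (k + 2) ^ 3 := by
    intro k
    have hk : (0:ℝ) ≤ k := Nat.cast_nonneg k
    have hLg : 0 < Real.log ((k:ℝ) + 2) := Real.log_pos (by linarith)
    positivity
  obtain ⟨a, F, hM, hF⟩ := h1 (fun k => if k ∈ A then 0 else κ * ((k : ℝ) + 1) ^ (((d : ℝ) - 5) / 4) / Real.log (k + 2) ^ 3)
    (fun k => by
      by_cases hk : k ∈ A
      · rw [if_pos hk, abs_zero]
        exact (hpos k).le
      · rw [if_neg hk, abs_of_pos (hpos k)])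
  refine ⟨a, F, hM, fun k => ?_⟩
  rw [hF k]
  have huk : u k ≠ 0 := by
    intro h
    have := hu k
    rw [h, norm_zero] at this
    exact zero_ne_one this
  by_cases hk : k ∈ A
  · simp only [if_pos hk, ofReal_zero, zero_mul, true_iff]
    exact hk
  · simp only [hk, iff_false]
    exact mul_ne_zero (by exact_mod_cast (hpos k).ne') huk

end Pool.Agent.Results.MP_0f5a55_nt.ZerosExactlyAtAnySubset
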