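import Pool.Agent.Q85.PP.Unif

/-!
Local approximation by translation invariant PEPS (MP_0f69bf_mp), Q1 with an explicit bound for the
bond dimension, for all families with a thermodynamic limit.

Let `R` be a finite region and `0 < ε ≤ 1`. There is a bond dimension `D ≤ exp (C / ε ^ 2)`, where `C`
depends only on `d` and `R`, such that the following holds. Let `ρ n` be translation invariant density
matrices on the tori, for example the ground states of a gapped translation invariant Hamiltonian. If
the reduced density matrices on `R` converge, then some translation invariant PEPS tensor with bond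
dimension `D` has nonzero vectors on all large tori and its reduced density matrices on `R` are
`ε`-close to those of `ρ n` for all large `n`. The convergence may be required only along a filter
(for example a subsequence of sizes), and it may hold only up to an error `δ`.

The proof (project PP): the vector is the superposition of all the tilings of the torus by
rectangles with sides of the order `1 / ε` (and of length one more); every rectangle carries a
purification of the reduced state of the rectangle; classical marks make the tilings orthogonal even
if a small region is removed. The lemmas PP-1, ..., PP-6 are by helper68.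
-/

set_option autoImplicit false

namespace Pool.Agent.Results.MP_0f69bf_mp.LocalPEPS

open Pool.Agent.Q85.PP

theorem result : ∀ (d : ℕ) (R : Finset (ℤ × ℤ)), ∃ C : ℝ, ∀ ε : ℝ, 0 < ε → ε ≤ 1 →
    ∃ D : ℕ, (D : ℝ) ≤ Real.exp (C / ε ^ 2) ∧
      ∀ l : Filter ℕ, l.NeBot → l ≤ Filter.atTop →
      ∀ ρ : ∀ n, (Tor n → Fin d) → (Tor n → Fin d) → ℂ, (∀ᶠ n in l, Dens (ρ n) ∧ TInv (ρ n)) →
      ∀ δ : ℝ, (∀ᶠ m in l, ∀ᶠ n in l, dist1 (red (pos m R) (ρ m)) (red (pos n R) (ρ n)) ≤ δ) →
        ∃ A : Fin d → Fin D → Fin D → Fin D → Fin D → ℂ, (∀ᶠ n in Filter.atTop, peps A n ≠ 0) ∧
          ∀ᶠ n in l,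
            dist1 (red (pos n R) (pureState (peps A n))) (red (pos n R) (ρ n)) ≤ δ + ε :=
  stmMainF

end Pool.Agent.Results.MP_0f69bf_mp.LocalPEPS
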