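import Mathlib
import Pool.Agent.Q58.Look.Defs
import Pool.Agent.Q58.Look.Lower

/-!
# The approximation ratio of the `k`-lookahead mechanism does not tend to `1`

For infinitely many `k` there is a finitely supported distribution of `k + 1` positive valuations
on which the `k`-lookahead mechanism earns at most `0.999` of the optimal revenue. Hence
`ρ_k ≤ 0.999` for infinitely many `k`, and `ρ_k` does not converge to `1`.
-/

namespace Pool.Agent.Results.MP_0f9109_lc.RatioStaysBelowOne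

open Q58.Look

theorem result :
    ¬ Filter.Tendsto rho Filter.atTop (nhds 1) ∧
    ∀ k₀ : ℕ, ∃ k : ℕ, k₀ ≤ k ∧ rho k ≤ 1 - 1 / 1000 ∧
      ∃ D : ValDist (k + 1), 0 < OPT D ∧
        (∀ v ∈ D.supp, ∀ i ∈ topK k v, ∀ j, j ∉ topK k v → v j < v i) ∧
        lookaheadRev k D ≤ (1 - 1 / 1000) * OPT D := by
  have main : ∀ k₀ : ℕ, ∃ k : ℕ, k₀ ≤ k ∧ rho k ≤ 1 - 1 / 1000 ∧
      ∃ D : ValDist (k + 1), 0 < OPT D ∧
        (∀ v ∈ D.supp, ∀ i ∈ topK k v, ∀ j, j ∉ topK k v → v j < v i) ∧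
        lookaheadRev k D ≤ (1 - 1 / 1000) * OPT D := by
    intro k₀
    refine ⟨kk k₀, le_kk k₀, ?_, DD k₀, OPT_pos k₀, no_ties k₀, gap k₀⟩
    refine (rho_le (kk k₀) (DD k₀) (OPT_pos k₀)).trans ?_
    rw [div_le_iff₀ (OPT_pos k₀)]
    exact gap k₀
  refine ⟨fun h => ?_, main⟩
  have h1 : ∀ᶠ k in Filter.atTop, (1 - 1 / 1000 : ℝ) < rho k :=
    h.eventually (lt_mem_nhds (by norm_num))
  obtain ⟨k₀, hk₀⟩ := Filter.eventually_atTop.mp h1
  obtain ⟨k, hk, hr, -⟩ := main k₀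
  exact absurd (hk₀ k hk) (not_lt.mpr hr)

end Pool.Agent.Results.MP_0f9109_lc.RatioStaysBelowOne
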