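import Mathlib

set_option autoImplicit false

/-!
# Every interval graph is a unit max-tolerance graph
-/

open Finset

namespace Pool.Agent.Results.MP_0f9430_co.UnitMaxTolerance

/-- `G` is the intersection graph of a family of nonempty real intervals of any kind (order-convex
sets). -/
def IsIntervalGraph {V : Type} (G : SimpleGraph V) : Prop :=
  ∃ I : V → Set ℝ, (∀ v, (I v).Nonempty ∧ (I v).OrdConnected) ∧
    ∀ u v, u ≠ v → (G.Adj u v ↔ (I u ∩ I v).Nonempty)

/-- `G` has a max-tolerance representation by closed intervals `[L v, L v + ℓ]` of the same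
length `ℓ` with tolerances `t v > 0`. -/
def IsUnitMaxTolerance {V : Type} (G : SimpleGraph V) : Prop :=
  ∃ (ℓ : ℝ) (L t : V → ℝ), 0 < ℓ ∧ (∀ v, 0 < t v) ∧
    ∀ u v, u ≠ v → (G.Adj u v ↔ ENNReal.ofReal (max (t u) (t v)) ≤
      MeasureTheory.volume (Set.Icc (L u) (L u + ℓ) ∩ Set.Icc (L v) (L v + ℓ)))

/-- A finite interval graph is the intersection graph of closed intervals. -/
lemma closed_rep {V : Type} [Fintype V] (G : SimpleGraph V) (hG : IsIntervalGraph G) :
    ∃ L R : V → ℝ, (∀ v, L v ≤ R v) ∧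
    ∀ u v, u ≠ v → (G.Adj u v ↔ (Set.Icc (L u) (R u) ∩ Set.Icc (L v) (R v)).Nonempty) := by
  classical
  obtain ⟨I, hI, hadj⟩ := hG
  choose b hb using fun v => (hI v).1
  have hf : ∀ u v, ∃ x, G.Adj u v → x ∈ I u ∩ I v := by
    intro u v
    by_cases h : G.Adj u v
    · obtain ⟨x, hx⟩ := (hadj u v h.ne).1 h
      exact ⟨x, fun _ => hx⟩
    · exact ⟨0, fun h' => absurd h' h⟩
  choose f hf using hf
  let P : V → Finset ℝ := fun v => insert (b v)
    ((univ.filter (fun w => G.Adj v w)).image (f v) ∪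
      (univ.filter (fun w => G.Adj w v)).image (fun w => f w v))
  have hne : ∀ v, (P v).Nonempty := fun v => ⟨b v, mem_insert_self _ _⟩
  have hPI : ∀ v, ∀ x ∈ P v, x ∈ I v := by
    intro v x hx
    rcases mem_insert.1 hx with rfl | hx
    · exact hb v
    · rcases mem_union.1 hx with hx | hx
      · obtain ⟨w, hw, rfl⟩ := mem_image.1 hx
        exact (hf v w (mem_filter.1 hw).2).1
      · obtain ⟨w, hw, rfl⟩ := mem_image.1 hx
        exact (hf w v (mem_filter.1 hw).2).2
  refine ⟨fun v => (P v).min' (hne v), fun v => (P v).max' (hne v),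
    fun v => min'_le _ _ (max'_mem _ _), fun u v huv => ⟨fun h => ?_, fun h => ?_⟩⟩
  · have h1 : f u v ∈ P u := mem_insert_of_mem (mem_union_left _
      (mem_image_of_mem (f u) (mem_filter.2 ⟨mem_univ _, h⟩)))
    have h2 : f u v ∈ P v := mem_insert_of_mem (mem_union_right _
      (mem_image.2 ⟨u, mem_filter.2 ⟨mem_univ _, h⟩, rfl⟩))
    exact ⟨f u v, ⟨min'_le _ _ h1, le_max' _ _ h1⟩, min'_le _ _ h2, le_max' _ _ h2⟩
  · obtain ⟨x, hx1, hx2⟩ := h
    rw [hadj u v huv]
    exact ⟨x, (hI u).2.out (hPI u _ (min'_mem _ _)) (hPI u _ (max'_mem _ _)) hx1,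
      (hI v).2.out (hPI v _ (min'_mem _ _)) (hPI v _ (max'_mem _ _)) hx2⟩

lemma exists_order {V : Type} [Fintype V] (L : V → ℝ) :
    ∃ p : V → ℕ, Function.Injective p ∧ ∀ u v, p u ≤ p v → L u ≤ L v := by
  let e := Fintype.equivFin V
  let f : Fin (Fintype.card V) → ℝ := L ∘ e.symm
  let σ := Tuple.sort f
  refine ⟨fun v => (σ.symm (e v) : ℕ), ?_, ?_⟩
  · intro u v h
    exact e.injective (σ.symm.injective (Fin.ext h))
  · intro u v h
    have hm := Tuple.monotone_sort f (show σ.symm (e u) ≤ σ.symm (e v) from h)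
    have e1 : (f ∘ σ) (σ.symm (e u)) = L u := by
      show L (e.symm (σ (σ.symm (e u)))) = L u
      rw [Equiv.apply_symm_apply, Equiv.symm_apply_apply]
    have e2 : (f ∘ σ) (σ.symm (e v)) = L v := by
      show L (e.symm (σ (σ.symm (e v)))) = L v
      rw [Equiv.apply_symm_apply, Equiv.symm_apply_apply]
    rw [← e1, ← e2]
    exact hm

lemma meets_iff (a b c d : ℝ) (h : a ≤ b) (h' : c ≤ d) :
    (Set.Icc a b ∩ Set.Icc c d).Nonempty ↔ a ≤ d ∧ c ≤ b := by
  constructor
  · rintro ⟨x, ⟨h1, h2⟩, h3, h4⟩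
    exact ⟨h1.trans h4, h3.trans h2⟩
  · rintro ⟨h1, h2⟩
    exact ⟨max a c, ⟨le_max_left _ _, max_le h h2⟩, le_max_right _ _, max_le h1 h'⟩

lemma overlap (x y ℓ : ℝ) : MeasureTheory.volume (Set.Icc x (x + ℓ) ∩ Set.Icc y (y + ℓ)) =
    ENNReal.ofReal (ℓ - |x - y|) := by
  rw [Set.Icc_inter_Icc, Real.volume_Icc]
  congr 1
  rcases le_total x y with h | h
  · rw [sup_eq_right.2 h, inf_eq_left.2 (by linarith), abs_of_nonpos (by linarith)]
    ring
  · rw [sup_eq_left.2 h, inf_eq_right.2 (by linarith), abs_of_nonneg (by linarith)]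
    ring

/-- Every finite interval graph is a unit max-tolerance graph. -/
theorem result : ∀ (V : Type) [Finite V] (G : SimpleGraph V),
    IsIntervalGraph G → IsUnitMaxTolerance G := by
  classical
  intro V _ G hG
  have := Fintype.ofFinite V
  obtain ⟨L, R, hLR, hadj⟩ := closed_rep G hG
  obtain ⟨p, hp, hL⟩ := exists_order L
  have hadj' : ∀ u v, u ≠ v → (G.Adj u v ↔ L u ≤ R v ∧ L v ≤ R u) := fun u v huv => by
    rw [hadj u v huv, meets_iff _ _ _ _ (hLR u) (hLR v)]
  let c : V → ℝ := fun v => 3 ^ p v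
  have hne : ∀ v, (insert v (univ.filter (fun w => G.Adj v w))).Nonempty :=
    fun v => ⟨v, mem_insert_self _ _⟩
  let s : V → ℝ := fun v => (insert v (univ.filter (fun w => G.Adj v w))).sup' (hne v)
    (fun w => |c v - c w|)
  have hs0 : ∀ v, 0 ≤ s v := fun v => by
    have := le_sup' (fun w => |c v - c w|) (mem_insert_self v (univ.filter (fun w => G.Adj v w)))
    exact (abs_nonneg _).trans this
  have hs1 : ∀ v w, G.Adj v w → |c v - c w| ≤ s v := fun v w h =>
    le_sup' (fun w => |c v - c w|) (mem_insert_of_mem (mem_filter.2 ⟨mem_univ _, h⟩))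
  have hs2 : ∀ u v, p u < p v → ¬ G.Adj u v → s u < c v - c u := by
    intro u v huv hnot
    have hstep : 3 * (3 : ℝ) ^ p u ≤ 3 ^ p v := by
      rw [← pow_succ']
      exact pow_le_pow_right₀ (by norm_num) huv
    have hpu : (0 : ℝ) < 3 ^ p u := by positivity
    show (insert u (univ.filter (fun w => G.Adj u w))).sup' (hne u) (fun w => |c u - c w|) < _
    rw [sup'_lt_iff]
    intro w hw
    show |(3 : ℝ) ^ p u - 3 ^ p w| < 3 ^ p v - 3 ^ p u
    have hpw : (0 : ℝ) < 3 ^ p w := by positivity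
    rcases le_or_gt (p w) (p u) with h | h
    · have : (3 : ℝ) ^ p w ≤ 3 ^ p u := pow_le_pow_right₀ (by norm_num) h
      rw [abs_of_nonneg (by linarith)]
      linarith
    · have hwu : G.Adj u w := by
        rcases mem_insert.1 hw with h' | h'
        · rw [h'] at h; exact absurd h (lt_irrefl _)
        · exact (mem_filter.1 h').2
      have hwv : p w < p v := by
        by_contra hcon
        rw [not_lt] at hcon
        apply hnot
        have huv' : u ≠ v := fun h => by rw [h] at huv; exact lt_irrefl _ huv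
        rw [hadj' u v huv']
        have h1 := hL u v huv.le
        have h2 := hL v w hcon
        have h3 := ((hadj' u w hwu.ne).1 hwu).2
        exact ⟨h1.trans (hLR v), h2.trans h3⟩
      have h1 : (3 : ℝ) ^ p u < 3 ^ p w := pow_lt_pow_right₀ (by norm_num) h
      have h2 : (3 : ℝ) ^ p w < 3 ^ p v := pow_lt_pow_right₀ (by norm_num) hwv
      rw [abs_of_neg (by linarith)]
      linarith
  let ℓ : ℝ := 1 + ∑ v, s v
  have hℓ : ∀ v, s v < ℓ := by
    intro v
    have := single_le_sum (f := s) (fun v _ => hs0 v) (mem_univ v)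
    show s v < 1 + ∑ v, s v
    linarith
  have hℓ0 : 0 < ℓ := by
    have := sum_nonneg (f := s) (s := univ) (fun v _ => hs0 v)
    show 0 < 1 + ∑ v, s v
    linarith
  have key : ∀ u v, u ≠ v → (G.Adj u v ↔ max (ℓ - s u) (ℓ - s v) ≤ ℓ - |c u - c v|) := by
    have half : ∀ u v, p u < p v → (G.Adj u v ↔ max (ℓ - s u) (ℓ - s v) ≤ ℓ - |c u - c v|) := by
      intro u v huv
      constructor
      · intro h
        have h1 := hs1 u v h
        have h2 := hs1 v u h.symm
        rw [abs_sub_comm] at h2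
        apply max_le <;> linarith
      · intro h
        by_contra hnot
        have h1 := hs2 u v huv hnot
        have h2 := (le_max_left (ℓ - s u) (ℓ - s v)).trans h
        have h3 : c v - c u ≤ |c u - c v| := by
          rw [abs_sub_comm]; exact le_abs_self _
        linarith
    intro u v huv
    rcases lt_trichotomy (p u) (p v) with h | h | h
    · exact half u v h
    · exact absurd (hp h) huv
    · rw [G.adj_comm, half v u h, max_comm, abs_sub_comm]
  refine ⟨ℓ, c, fun v => ℓ - s v, hℓ0, fun v => by linarith [hℓ v], fun u v huv => ?_⟩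
  rw [key u v huv, overlap]
  have hpos : 0 < max (ℓ - s u) (ℓ - s v) := lt_max_of_lt_left (by linarith [hℓ u])
  constructor
  · intro h; exact ENNReal.ofReal_le_ofReal h
  · intro h
    by_contra hcon
    rw [not_le] at hcon
    exact absurd h (not_le.2 ((ENNReal.ofReal_lt_ofReal_iff hpos).2 hcon))

end Pool.Agent.Results.MP_0f9430_co.UnitMaxTolerance
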