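import Pool.Agent.Q56.CT.Main
import Pool.Agent.Q56.CT.SDefs

/-!
# The Tate conjecture for abelian varieties over a finite field in codimension two

Let `𝒜` be the class of the abelian varieties over the field with `q = p ^ a` elements, or any class
of smooth projective varieties with the following properties of it (`IsAbelianClass`): it is closed
under products, the cohomology is generated by the classes of degree one, on which the Frobenius acts
semisimply and with Weil numbers of weight one as eigenvalues (Weil), the members have
polarisations, and every Weil number of weight one is an eigenvalue on `H^1` of a member (Honda,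
Tate).

1. If all Tate classes of codimension two on the members of `𝒜` are algebraic, then the Tate
   conjecture holds for all members of `𝒜` in all codimensions, in its full form (the space of the
   classes of cycles with rational coefficients is finite-dimensional, and its tensor product with
   the coefficient field maps isomorphically to the space of Tate classes).
2. Let `𝒞` be any class of smooth projective varieties (for example all surfaces, or all varieties
   of dimension at most `d`). The strong Tate conjecture (the generalised eigenspace of the Frobenius
   endomorphism in `H^(2 j)` for the eigenvalue `q ^ j` is spanned by classes of cycles), and with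
   it the full form, holds for all products of arbitrarily many members of `𝒜` and `𝒞` in all
   codimensions `j`, if and only if it holds for `𝒜` in codimension two and for the classes in
   `H^i(Y) ⊗ H^i(A)`, of codimension `i`, on the products `Y × A` of one `Y` in `𝒞` and one `A` in
   `𝒜`, for `1 ≤ i ≤ dim Y`. For surfaces only the codimensions one and two occur.

The proof: if `y ^ 2 = z w` for Weil numbers of weight one, then `z, w, q / y, q / y` have the product
`q ^ 2`, and abelian varieties with these eigenvalues carry Tate classes of codimension two in
`H^1 ⊗ H^1 ⊗ H^1 ⊗ H^1`. Contraction with them replaces the eigenvalues `y, y` by `z, w`. All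
relations between Weil numbers follow from these.
-/

open CategoryTheory AlgebraicGeometry

universe u v

namespace Pool.Agent.Results.MP_0fca13_ag.CodimensionTwo

open Pool.Agent.H914 Pool.Agent.H914.VarClass Pool.Agent.H914.VarClass.Obj
  Pool.Agent.H914.WeilCohomology Pool.Agent.Q56.FE Pool.Agent.Q56.FR Pool.Agent.Q56.CTS

/-- **Codimension two decides the Tate conjecture for abelian varieties over a finite field, and
codimension at most `dim Y` on the products of `Y` with abelian varieties decides it for all products
of the `Y`.** -/
theorem result {k : Type u} [Field k] {𝒱 : VarClass k} {ops : CycleOps 𝒱}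
    (W : WeilCohomology.{u, v} ops) [IsAlgClosed W.K] {p : ℕ} [Fact p.Prime] {a : ℕ} (ha : 0 < a)
    (F : FrobeniusOver W (p ^ a)) (𝒜 : Set 𝒱.Obj) (hA : IsAbelianClass F 𝒜) :
    (TateTwo F 𝒜 → FullTateFor F 𝒜) ∧
    ∀ 𝒞 : Set 𝒱.Obj, IsGoodClass F 𝒞 →
      (TateTwo F 𝒜 ∧ MixedTateFor F 𝒞 𝒜 ↔ TateForProducts F (𝒜 ∪ 𝒞)) :=
  ⟨Pool.Agent.Q56.CT.main_abelian ha hA, fun 𝒞 hC => Pool.Agent.Q56.CT.main ha hA 𝒞 hC⟩

end Pool.Agent.Results.MP_0fca13_ag.CodimensionTwo
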