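import Pool.Agent.Q56.DP.Poles

/-!
# In characteristic `p` the index of the Tate classes does not depend on `l`

Let `K` be a finitely generated field of characteristic `p > 0`, `X` a smooth projective variety over
`K`, and `l`, `l'` two primes different from `p` (if `K` is finite, `l'`-adic cohomology may be
replaced by crystalline cohomology). We take for `Γ` the Weil group of `K`, for `D` the geometric
Galois group, a normal subgroup, and for `φ` a Frobenius element; every element of `Γ` is of the form
`φ ^ m * d` with `d ∈ D`. On the powers `pw X n = X ^ (n + 1)` we consider

* `t n` and `t' n`, the dimensions of the spaces of all `l`-adic and of all `l'`-adic Tate classes;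
* `p n`, the dimension of the space of the generalised Tate classes: the classes fixed, up to the
  twist, by a subgroup of finite index of `D`, and killed by a power of (a power of `φ` minus the
  twist). It is the sum of the orders of the poles of the L-functions of `H^(2 j)(X ^ (n + 1))` at
  the first critical point, over large finite extensions of `K`, and by the theorems of Grothendieck
  and Deligne it does not depend on `l` (this is the hypothesis `hL`);
* `r n`, the rank of the cycles modulo numerical equivalence.

We have `r n ≤ t n ≤ p n` under homological = numerical equivalence, but without any conjecture we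
prove: the three quotients `t n / r n`, `t' n / r n`, `p n / r n` tend to the same limit
`N ∈ {1, 2, ..., ∞}`. If `N` is finite, that is, if for one prime `l`, some `ε > 0` and infinitely
many `n` the cycles explain at least the proportion `ε` of the `l`-adic Tate classes, then for BOTH
cohomology theories and for ALL powers of `X`: homological and numerical equivalence agree; the
number of Tate classes is the order of the pole, and is independent of `l`; every generalised Tate
class is a Tate class; the representations of the Galois group on the cohomology are semisimple
(given the geometric semisimplicity, a theorem of Deligne).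

The proof uses the filtration of the generalised Tate classes by the depth of the Jordan chains of
the Frobenius element (`Pool.Agent.Q56.DP`).
-/

open CategoryTheory AlgebraicGeometry

universe u v v' w

namespace Pool.Agent.Results.MP_0fca13_ag.IndexIndependentOfEll

open Pool.Agent.H914 Pool.Agent.H914.VarClass
open Pool.Agent.Q55 (GaloisAction)
open Pool.Agent.Y133.Half (pw HasIndex)
open Pool.Agent.Q56.DP (tateNumber poleNumber rankNumber TateNum Regular)

/-- **The index of the Tate classes over the algebraic cycles is independent of the cohomology theory
and equal to the index of the orders of the poles.** -/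
theorem result {k : Type u} [Field k] {𝒱 : VarClass k} {ops : CycleOps 𝒱}
    {W : WeilCohomology.{u, v} ops} {W' : WeilCohomology.{u, v'} ops} {Γ : Type w} [Group Γ]
    (G : GaloisAction W Γ) (G' : GaloisAction W' Γ) (D : Subgroup Γ) [D.Normal] (φ : Γ)
    (hφ : ∀ g : Γ, ∃ m : ℤ, ∃ d ∈ D, g = φ ^ m * d) (X : 𝒱.Obj) [Nontrivial (W.H X)]
    [Nontrivial (W'.H X)] (hL : poleNumber G D φ X = poleNumber G' D φ X) :
    ∃ N : ℕ∞, 1 ≤ N ∧ HasIndex (poleNumber G D φ X) (rankNumber ops X) N ∧
      HasIndex (tateNumber G X) (rankNumber ops X) N ∧
      HasIndex (tateNumber G' X) (rankNumber ops X) N ∧
      (N = 1 ↔ ∀ n, TateNum G (pw X n)) ∧ (N = 1 ↔ ∀ n, TateNum G' (pw X n)) ∧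
      (N ≠ ⊤ → tateNumber G X = tateNumber G' X ∧
        ∀ n, Regular G D φ (pw X n) ∧ Regular G' D φ (pw X n)) :=
  Pool.Agent.Q56.DP.index_independent G G' D φ hφ X hL

end Pool.Agent.Results.MP_0fca13_ag.IndexIndependentOfEll
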