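import Pool.Agent.Q10.JT.Main2

/-!
# Jumping Tate classes

Let `X` be a smooth projective variety over a finitely generated field `F`. If the reductions of `X`
at almost all places have more Tate classes than `X`, then this has to be explained by alternating
Tate classes of odd degree on the powers of `X`: if for almost all places there are at least `r`
independent Tate classes of codimension `j` on the reduction, then the polynomial
`∑ t_n (-T) ^ n` is divisible by `(1 - T) ^ r`, where `t_n` is the number of independent Tate
classes in `Λ ^ n H^(2 j)(X)`, a part of the cohomology of `X ^ n`. If the only alternating Tate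
classes on the powers `X ^ n` with odd `n` are those generated by the Tate classes on `X`, then on
the reductions at a set of places of positive density there are no further Tate classes.
-/

open CategoryTheory AlgebraicGeometry

universe u w

namespace Pool.Agent.Results.MP_0fca13_ag.JumpingTateClasses

open Pool.Agent.H914
open Pool.Agent.Q55 (GaloisAction)
open Pool.Agent.Q50.MTC (IsLadic)
open Pool.Agent.Q10.JT (VirtDense OftenTrue ManyFixed NoJump altPoly SemisimplePowers NoOddExotic)

variable {k : Type u} [Field k] {𝒱 : VarClass k} {ops : CycleOps 𝒱}
  {E : WeilCohomology.{u, 0} ops} {Γ : Type w} [Group Γ] [TopologicalSpace Γ]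

/-- **Jumping Tate classes.** Let `k` be an algebraic closure of a finitely generated field `F`,
let `E` be the `ℓ`-adic cohomology of the smooth projective varieties over `k` and `G` the action of
the Galois group `Γ` of `k` over `F`. Let `X` be such a variety, let `j` be a natural number and
`b` the dimension of `H^(2 j)(X)`. Suppose that the action on the cohomology of `X` is `ℓ`-adic
(`hX`: continuity) and that the action on `H^(2 j n)(X ^ n)` is semisimple for `n = 1, ..., b`
(`hss`).

(1) Suppose that the closure of the set of all `γ` for which there are at least `r` linearly
independent classes in `H^(2 j)(X)` fixed by `γ` up to the twist contains a subgroup of finite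
index. (This holds if for some finite extension of `F`, for almost all places `v`, or only for a set
of places whose Frobenius elements are dense, there are at least `r` linearly independent Tate
classes of codimension `j` on the reduction of `X` at `v`.) Then `∑ t_n (-T) ^ n` is divisible by
`(1 - T) ^ r` in `ℤ[T]`, where `t_n` is the dimension of the space of the Tate classes in
`Λ ^ n H^(2 j)(X)`.

(2) Suppose that for all odd numbers `n + 1` with `3 ≤ n + 1 ≤ b` every alternating Tate class in
`Λ ^ (n + 1) H^(2 j)(X)` is a linear combination of alternating products of Tate classes on `X`.
Then for every subgroup `Δ` of finite index there is an open set `U` which meets `Δ` such that for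
all `γ` in `U` all classes in `H^(2 j)(X)` which are fixed by `γ` up to the twist are Tate
classes. -/
theorem result {G : GaloisAction E Γ} {ℓ : ℕ} [Fact ℓ.Prime] (e : E.K ≃+* ℚ_[ℓ]) (X : 𝒱.Obj)
    (j : ℕ) (hX : IsLadic (G.ρ X) G.χ e) (hss : SemisimplePowers G X j) :
    (∀ r : ℕ, VirtDense (ManyFixed G X j r) → (1 - Polynomial.X) ^ r ∣ altPoly G X j) ∧
    (NoOddExotic G X j → OftenTrue (NoJump G X j)) :=
  ⟨fun _ hr => Pool.Agent.Q10.JT.altPoly_dvd hX hss hr,
    fun hno => Pool.Agent.Q10.JT.no_jump hX hss hno⟩

end Pool.Agent.Results.MP_0fca13_ag.JumpingTateClasses
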