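import Mathlib
import Pool.Agent.Q7.RL.Nnz
import Pool.Agent.Q7.DC.Nrs

/-!
# Deligne's conjecture for Artin twists in solvable extensions without new zeros

`E` is an elliptic curve over `K = ℚ` (or over any number field `K`) with an integral equation `W`
(`IsModel E W`), and `M/K` is a Galois extension with group `M ≃ₐ[K] M`, ANY finite group.
`Irr G` is the set of irreducible complex characters of the finite group `G`.

The L-functions are real ones. `Pool.Agent.Q92.RT.twistedL M W φ` is `L(E ⊗ φ, s)` for a class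
function `φ` of the Galois group: `exp ∑ φ(Frob_v ^ n) (α_v ^ n + β_v ^ n) / (n q_v ^ (n s))` over `n ≥ 1`
and the primes `v` of `K` which do not divide `6` and the discriminant of `W` and are unramified in
`M`; the finitely many Euler factors left out have no zeros and poles for `Re s ≥ 1`, and for
`s = 1` their values are algebraic and Galois equivariant. `induced H ψ` is the character induced by the
linear character `ψ` of `H`, so that `twistedL M W (induced H ψ)` is `L(E/M^H ⊗ ψ, s)`.
`HasOrder g s₀ n`: the function `g`, given for `Re s > 3/2`, has a meromorphic continuation to `ℂ`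
(it is called `cont g`), of order `n` at `s₀`. `Orders E W s₀ n r`: the order of `L(E ⊗ χ, s)` at `s₀` is
`n χ` and that of the complete L-function `L(E/F, s)` is `r F`, for all fields `F` between `K` and `M`
(`⊤` is `M`). `Equivariant σ g c g' c'`: the continuations of `g` and `g'` have values `v` and `v'` at
`s = 1`, and `σ (v / c) = v' / c'`.

`Automorphic M W 1` (known if `E` is automorphic over `M`): `L(E ⊗ χ, s)` has a meromorphic
continuation for `χ ∈ Irr`, and `L(E/M^H ⊗ ψ, s)` one which is holomorphic at `1` for the linear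
characters `ψ` of the SOLVABLE subgroups `H` (solvable descent); for the other subgroups nothing is
known. No functional equation is used.

`F` is a Galois extension of `K` in `M` such that `M/F` is solvable; `F/K` is arbitrary. `Z` is a
central subgroup. Application: `M` is a CM field, `c` complex conjugation and `Z = {1, c}`; then the
fields `M ^ H` with `Z ≤ H` are the (totally real) fields between `ℚ` and `M⁺`. (For totally real `M`
take `Z = 1`.)

`Pool.Agent.Q7.GR.galL σ ψ` is the linear character `h ↦ σ (ψ h)`, `σ` an automorphism of `ℂ`.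
`PeriodFamily G` is a family of numbers `per χ ≠ 0` with the products
`ind H ψ = ∏ per χ ^ ⟨χ|_H, ψ⟩` (for `Ind ψ`). Application: `per χ` is the Gauss sum of `det χ`, times a
fixed power of `2πi` to the power `χ(1)`.

The hypothesis in part (3) is a theorem of Shimura (Duke Math. J. 45, 1978) on the Hilbert modular
form of `E` over the totally real fields `M ^ H`, `H` solvable: there are periods `u H ψ`, which depend
on `M ^ H` and the sign `ψ(c)` only, such that `L(E / M ^ H ⊗ ψ, 1)`, divided by the Gauss sum of `ψ`, a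
power of `2πi` and this period, is an algebraic number with the expected conjugates under all
automorphisms `σ` of `ℂ` (set `T`).

Let `ρ` be an absolutely irreducible representation of the Galois group with character `χ`. If `M` is
a CM field, `χ(c) = ± χ(1)`, and the period of Deligne for the motive `h¹(E) ⊗ ρ` (with coefficients in
a number field containing those of `ρ`) and the critical point `1` is the Gauss sum of `det ρ` times a
power of `2πi` times a number which depends on `E`, the sign and `χ(1)` only. So Deligne's conjecture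
is the last assertion in (3), with this number for `v`; and (3) is the conjecture up to one complex
number `v`, independent of the component `σ`.
-/

set_option autoImplicit false

open NumberField Pool.Agent.H541R3.ART Pool.Agent.Q7.GR Pool.Agent.Q7.DC Pool.Agent.Q7.SZ
  Pool.Agent.Q7.RL Pool.Agent.Q92.RT Pool.Agent.W353.NF Pool.Agent.H341R2.EC Topology

/-- Let `F/K` be a Galois extension in `M` such that `M/F` is solvable, and suppose that `L(E/M, s)`
and `L(E/F, s)` have the same order at `s = 1` (no new zeros in `M/F`). Then, for ALL irreducible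
characters `χ` of the Galois group of `M/K` which do not factor through the group of `F/K`:
(1) `L(E ⊗ χ, s)` is holomorphic and not zero at `s = 1`.
(2) There are solvable subgroups `H_i` containing `Z`, linear characters `ψ_i` of them which are not
trivial on the group of `M / F M^H_i` and agree with `χ / χ(1)` on `Z`, and integers `a_i`, such that the
values `L(E / M ^ H_i ⊗ ψ_i, 1)` are finite and NOT ZERO, and
`L(E ⊗ (σ ∘ χ), s) = ∏ L(E / M ^ H_i ⊗ (σ ∘ ψ_i), s) ^ a_i` near `s = 1` for all automorphisms `σ` of `ℂ`.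
(3) If for `σ ∈ T`, the solvable `H` containing `Z` and their linear characters `ψ` which are not
trivial on the group of `M / F M^H` the values `L(E / M ^ H ⊗ ψ, 1)` are `σ`-equivariant with the periods
`ind H ψ * u H ψ`, then there is a product `v` of powers of numbers `u H ψ`, with `ψ = χ / χ(1)` on
`Z`, such that `σ (L(E ⊗ χ, 1) / (per χ * v)) = L(E ⊗ (σ ∘ χ), 1) / (per (σ ∘ χ) * v)` for all
`σ ∈ T`. -/
theorem Pool.Agent.Results.MP_100fe7_nt.LayersWithoutNewZeros.result
    (K M : Type) [Field K] [NumberField K] [Field M] [NumberField M] [Algebra K M] [IsGalois K M]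
    (E : WeierstrassCurve K) (hE : E.IsElliptic) (W : WeierstrassCurve (𝓞 K)) (hW : IsModel E W)
    (a : Automorphic M W 1) (Z : Subgroup (M ≃ₐ[K] M)) (hZ : Z ≤ Subgroup.center (M ≃ₐ[K] M))
    (F : IntermediateField K M) [IsGalois K F] (hF : Group.IsSolvable F.fixingSubgroup) :
    ∃ (n : ((M ≃ₐ[K] M) → ℂ) → ℤ) (r : IntermediateField K M → ℤ), Orders E W 1 n r ∧
      (r ⊤ = r F →
        (∀ χ ∈ Irr (M ≃ₐ[K] M), (∃ g ∈ F.fixingSubgroup, χ g ≠ χ 1) → n χ = 0) ∧
        (∀ χ ∈ Irr (M ≃ₐ[K] M), (∃ g ∈ F.fixingSubgroup, χ g ≠ χ 1) →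
          ∃ l : List ((Σ H : Subgroup (M ≃ₐ[K] M), (H →* ℂˣ)) × ℤ),
            (∀ t ∈ l, Z ≤ t.1.1 ∧ Group.IsSolvable t.1.1 ∧
              (∃ k : t.1.1, (k : M ≃ₐ[K] M) ∈ F.fixingSubgroup ∧ t.1.2 k ≠ 1) ∧
              (∀ (z : M ≃ₐ[K] M) (_ : z ∈ Z) (hz' : z ∈ t.1.1),
                χ z = ((t.1.2 ⟨z, hz'⟩ : ℂˣ) : ℂ) * χ 1) ∧
              HasOrder (twistedL M W (induced t.1.1 t.1.2)) 1 0) ∧
            ∀ σ : ℂ ≃+* ℂ, cont (twistedL M W fun g => σ (χ g)) =ᶠ[𝓝[≠] 1]
              fun s => (l.map fun t =>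
                cont (twistedL M W (induced t.1.1 (galL σ t.1.2))) s ^ t.2).prod) ∧
        (∀ (P : PeriodFamily (M ≃ₐ[K] M)) (T : Set (ℂ ≃+* ℂ))
          (u : (H : Subgroup (M ≃ₐ[K] M)) → (H →* ℂˣ) → ℂˣ),
          (∀ σ ∈ T, ∀ H : Subgroup (M ≃ₐ[K] M), Z ≤ H → Group.IsSolvable H → ∀ ψ : H →* ℂˣ,
            (∃ k : H, (k : M ≃ₐ[K] M) ∈ F.fixingSubgroup ∧ ψ k ≠ 1) →
            Equivariant σ (twistedL M W (induced H ψ)) (P.ind H ψ * (u H ψ : ℂ))
              (twistedL M W (induced H (galL σ ψ))) (P.ind H (galL σ ψ) * (u H ψ : ℂ))) →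
          ∀ χ ∈ Irr (M ≃ₐ[K] M), (∃ g ∈ F.fixingSubgroup, χ g ≠ χ 1) →
            ∃ v ∈ Subgroup.closure {x : ℂˣ |
              ∃ (H : Subgroup (M ≃ₐ[K] M)) (ψ : H →* ℂˣ), Z ≤ H ∧ Group.IsSolvable H ∧
              (∃ k : H, (k : M ≃ₐ[K] M) ∈ F.fixingSubgroup ∧ ψ k ≠ 1) ∧
              (∀ (z : M ≃ₐ[K] M) (_ : z ∈ Z) (hz' : z ∈ H),
                χ z = ((ψ ⟨z, hz'⟩ : ℂˣ) : ℂ) * χ 1) ∧ x = u H ψ},
            ∀ σ ∈ T, Equivariant σ (twistedL M W χ) (P.per χ * (v : ℂ))
              (twistedL M W fun g => σ (χ g)) (P.per (fun g => σ (χ g)) * (v : ℂ)))) := by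
  classical
  obtain ⟨n, r, ho⟩ := exists_orders (M := M) hE hW (by simp) a
  refine ⟨n, r, ho, fun hrF => ?_⟩
  set A := TwistData.ofCurve a with hA
  set N := F.fixingSubgroup with hNdef
  have hN : N.Normal := inferInstanceAs F.fixingSubgroup.Normal
  have hr : meromorphicOrderAt (A.Lin ⊥ 1) 1 = meromorphicOrderAt (A.Lin N 1) 1 := by
    rw [hA, ho.bot hE hW (by simp) a, hNdef, ho.lin hE hW (by simp) a F, hrF]
  refine ⟨?_, ?_, ?_⟩
  · intro χ hχ hn
    rw [← ho.ord a hχ]
    exact ord_zero_of_same A hN hF hr hχ hn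
  · intro χ hχ hn
    obtain ⟨l, h2, h3⟩ := expand_vecN hZ hN hF hχ hn
    refine ⟨l, fun t ht => ?_, fun σ => L_expand_gal A hχ h3 σ⟩
    obtain ⟨i1, i2, i3, i4⟩ := h2 t ht
    exact ⟨i1, i2, i3, i4, (ind_iff a _ _ 0).2 (lin_zero_of_same A hN hF hr i3)⟩
  · intro P T u hu χ hχ hn
    obtain ⟨v, hv, h2⟩ := values_same A (P.periods A) hZ hN hF hr T u
      (fun σ hσ H hH hs ψ hψ => (equivariant_iff (ex_ind a _ _) (ex_ind a _ _)).1
        (hu σ hσ H hH hs ψ hψ)) χ hχ hn
    exact ⟨v, hv, fun σ hσ =>
      (equivariant_iff (ex_irr a hχ) (ex_irr a (irr_gal σ hχ))).2 (h2 σ hσ)⟩
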