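import Mathlib
import Pool.Agent.Q7.DC.Nrs

/-!
# Deligne's conjecture for Artin twists in solvable extensions without new zeros

`Pool.Agent.H541R3.ART.Irr G` is the set of irreducible complex characters of the finite group `G`.

Let `f` be a newform of weight `k ≥ 2`, for example that of an elliptic curve over `ℚ`, and `M/ℚ` a
Galois extension with group `G` such that `f` is automorphic over `M`. (One can take any totally real
field or newform over it instead of `ℚ` and `f`.) By solvable descent `f` is automorphic over the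
fixed field `M ^ H` for every SOLVABLE subgroup `H` of `G`. `Pool.Agent.Q7.SZ.TwistData G s₀` is a
family of functions with the known formal properties of the twisted L-functions of `f` near the
point `s₀`: `L χ` (for `L(f ⊗ χ, s)`, `χ ∈ Irr G`), meromorphic and not identically zero (Brauer), and
`Lin H ψ` (for `L(f / M ^ H ⊗ ψ, s)`, `ψ` a linear character of a subgroup `H`) without pole at `s₀`
if `H` is solvable, which are the products of the `L χ ^ ⟨χ|_H, ψ⟩` (induction). In particular
`Lin ⊥ 1` is `L(f/M, s)` and `Lin N 1` is `L(f/F, s)`, `F = M ^ N`. No functional equation is used,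
and `s₀` and the orders are arbitrary.

`N` is a SOLVABLE normal subgroup, that is `M/F` is a solvable and `F/ℚ` an arbitrary Galois
extension. The characters `χ` with `χ(n) ≠ χ(1)` for an element `n` of `N` are those which do not
factor through `Gal(F/ℚ)`. `Z` is a central subgroup. Application: `M` is a CM field, `c` complex
conjugation and `Z = {1, c}`; then the fields `M ^ H` with `Z ≤ H` are the (totally real) fields
between `ℚ` and `M⁺`.

`Pool.Agent.Q7.GR.galL σ ψ` is the linear character `h ↦ σ (ψ h)`, `σ` an automorphism of `ℂ`, and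
`Pool.Agent.Q7.DC.Agree σ s₀ g a g' a'` says that `g`, `g'` have values `v` and `v'` at `s₀`, and
`σ (v / a) = v' / a'`. `Pool.Agent.Q7.DC.Periods A` is a family of numbers `per χ ≠ 0` with the
products `perLin H ψ = ∏ per χ ^ ⟨χ|_H, ψ⟩` (for `Ind ψ`). Application: `per χ` is the Gauss sum of
`det χ`, times a fixed power of `2πi` to the power `χ(1)`.

The hypothesis in part (3) is, for a critical integer `s₀`, a theorem of Shimura (Duke Math. J. 45,
1978) on the Hilbert modular form of `f` over the totally real fields `M ^ H`, `H` solvable: there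
are periods `u H ψ`, which depend on `M ^ H` and the sign `ψ(c)` only, such that
`L(f / M ^ H ⊗ ψ, s₀)`, divided by the Gauss sum of `ψ`, a power of `2πi` and this period, is an
algebraic number with the expected conjugates under the automorphisms `σ ∈ T`, where `T` is the set
of automorphisms of `ℂ` fixing the coefficients of `f`.

Let `ρ` be an absolutely irreducible representation of `G` with character `χ`. If `M` is a CM field,
`χ(c) = ± χ(1)`, and the period of Deligne for the motive `M(f) ⊗ ρ` (with coefficients in a number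
field containing those of `f` and `ρ`) and the critical point `s₀` is the Gauss sum of `det ρ` times
a power of `2πi` times a number which depends on `f`, the sign and `χ(1)` only. So Deligne's
conjecture is the last assertion in (3), with this number for `v`; and (3) is the conjecture up to
one complex number `v`, independent of the component `σ`.
-/

set_option autoImplicit false

open Pool.Agent.H541R3.ART Pool.Agent.H302R2 Pool.Agent.H302R3 Pool.Agent.W446.AS
  Pool.Agent.Q7.TZ Pool.Agent.Q7.SZ Pool.Agent.Q7.GR Pool.Agent.Q7.DC Topology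

/-- Let `N` be a solvable normal subgroup of `G`, `F = M ^ N`, and suppose that `L(f/M, s)` and
`L(f/F, s)` have the same order at `s₀` (no new zeros in `M/F`). Then, for ALL irreducible
characters `χ` of `G` which do not factor through `Gal(F/ℚ)`:
(1) `L(f ⊗ χ, s)` is holomorphic and not zero at `s₀`.
(2) There are solvable subgroups `H_i` containing `Z`, linear characters `ψ_i` of them which are not
trivial on `H_i ∩ N` and agree with `χ / χ(1)` on `Z`, and integers `a_i`, such that the values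
`L(f / M ^ H_i ⊗ ψ_i, s₀)` are finite and NOT ZERO, and `L(f ⊗ χ, s) = ∏ L(f / M ^ H_i ⊗ ψ_i, s) ^ a_i`
near `s₀`, and the same for all conjugates `σ ∘ χ`, `σ ∘ ψ_i`.
(3) If for `σ ∈ T`, the solvable `H` containing `Z` and their linear characters `ψ` which are not
trivial on `H ∩ N` the values `L(f / M ^ H ⊗ ψ, s₀)` are `σ`-equivariant with the periods
`perLin H ψ * u H ψ`, then there is a product `v` of powers of numbers `u H ψ`, with `ψ = χ / χ(1)` on
`Z`, such that `σ (L(f ⊗ χ, s₀) / (per χ * v)) = L(f ⊗ (σ ∘ χ), s₀) / (per (σ ∘ χ) * v)` for all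
`σ ∈ T`. -/
theorem Pool.Agent.Results.MP_100fe7_nt.NoNewZeros.result
    (G : Type) [Group G] [Finite G] (s₀ : ℂ) (A : TwistData G s₀)
    (Z N : Subgroup G) (hZ : Z ≤ Subgroup.center G) (hN : N.Normal) (hNs : Group.IsSolvable N)
    (hr : meromorphicOrderAt (A.Lin ⊥ 1) s₀ = meromorphicOrderAt (A.Lin N 1) s₀) :
    (∀ χ ∈ Irr G, (∃ n ∈ N, χ n ≠ χ 1) → meromorphicOrderAt (A.L χ) s₀ = 0) ∧
    (∀ χ ∈ Irr G, (∃ n ∈ N, χ n ≠ χ 1) →
      ∃ l : List ((Σ H : Subgroup G, (H →* ℂˣ)) × ℤ),
        (∀ t ∈ l, Z ≤ t.1.1 ∧ Group.IsSolvable t.1.1 ∧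
          (∃ k : t.1.1, (k : G) ∈ N ∧ t.1.2 k ≠ 1) ∧
          (∀ (z : G) (_ : z ∈ Z) (hz' : z ∈ t.1.1), χ z = ((t.1.2 ⟨z, hz'⟩ : ℂˣ) : ℂ) * χ 1) ∧
          meromorphicOrderAt (A.Lin t.1.1 t.1.2) s₀ = 0) ∧
        A.L χ =ᶠ[𝓝[≠] s₀] (fun s => (l.map fun t => A.Lin t.1.1 t.1.2 s ^ t.2).prod) ∧
        ∀ σ : ℂ ≃+* ℂ, A.L (fun g => σ (χ g)) =ᶠ[𝓝[≠] s₀]
          fun s => (l.map fun t => A.Lin t.1.1 (galL σ t.1.2) s ^ t.2).prod) ∧
    (∀ (P : Periods A) (T : Set (ℂ ≃+* ℂ)) (u : (H : Subgroup G) → (H →* ℂˣ) → ℂˣ),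
      (∀ σ ∈ T, ∀ H : Subgroup G, Z ≤ H → Group.IsSolvable H → ∀ ψ : H →* ℂˣ,
        (∃ k : H, (k : G) ∈ N ∧ ψ k ≠ 1) → Agree σ s₀ (A.Lin H ψ) (P.perLin H ψ * (u H ψ : ℂ))
          (A.Lin H (galL σ ψ)) (P.perLin H (galL σ ψ) * (u H ψ : ℂ))) →
      ∀ χ ∈ Irr G, (∃ n ∈ N, χ n ≠ χ 1) → ∃ v ∈ Subgroup.closure {x : ℂˣ | ∃ (H : Subgroup G)
        (ψ : H →* ℂˣ), Z ≤ H ∧ Group.IsSolvable H ∧ (∃ k : H, (k : G) ∈ N ∧ ψ k ≠ 1) ∧
          (∀ (z : G) (_ : z ∈ Z) (hz' : z ∈ H), χ z = ((ψ ⟨z, hz'⟩ : ℂˣ) : ℂ) * χ 1) ∧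
          x = u H ψ}, ∀ σ ∈ T, Agree σ s₀ (A.L χ) (P.per χ * (v : ℂ)) (A.L fun g => σ (χ g))
            (P.per (fun g => σ (χ g)) * (v : ℂ))) := by
  refine ⟨?_, ?_, ?_⟩
  · intro χ hχ hn
    rw [← A.coe_ord hχ, ord_zero_of_same A hN hNs hr hχ hn]
    rfl
  · intro χ hχ hn
    obtain ⟨l, h2, h3⟩ := expand_vecN hZ hN hNs hχ hn
    refine ⟨l, fun t ht => ?_, ?_, fun σ => L_expand_gal A hχ h3 σ⟩
    · obtain ⟨i1, i2, i3, i4⟩ := h2 t ht
      exact ⟨i1, i2, i3, i4, lin_zero_of_same A hN hNs hr i3⟩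
    · have h4 := L_expand_gal A hχ h3 (RingEquiv.refl ℂ)
      simp only [galL_refl] at h4
      exact h4
  · intro P T u hu χ hχ hn
    exact values_same A P hZ hN hNs hr T u hu χ hχ hn
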