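import Pool.Agent.Q246.DL.Main

/-!
# Critical values of all Artin twists up to algebraic numbers: the signature law

`K` is a number field (for Deligne's conjecture, `K = ℚ`), `M` a pure motive over `K` of weight `w` and
rank `n`, given by its Frobenius eigenvalues `α_{v,i}` at almost all places `v`, `m` an integer to the
right of the strip, `m > w/2 + 1`.  For an Artin representation `ρ` of `Gal(K̄/K)` we consider the value
`L(m, M ⊗ ρ)` up to algebraic numbers.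

Deligne's conjecture for `M ⊗ ρ`, `K = ℚ`, `m` critical for `M`, implies
`L(m, M ⊗ ρ) ∼ Ω₊^p Ω₋^q`, where `p` and `q` are the dimensions of the eigenspaces of complex
conjugation on `ρ` and `Ω₊`, `Ω₋` are `(2πi)^{mn/2} c^±(M)`.  We prove that this holds for ALL `ρ`, with
`Ω₊ = L(m, M)`, `Ω₋ = L(m, M ⊗ ε)`, `ε` odd of dimension one, as soon as
`L(m, M ⊗ Ind ψ) ∼ Ω^{[F : K]}` with some `Ω` holds for the linear characters `ψ` of the fields `F`
which are totally complex, of degree divisible by a given number `N`, and contained in a finite Galois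
extension `L/K` such that `L/F` is cyclic (and `ψ` is a character of `Gal(L/F)`).
-/

set_option autoImplicit false

namespace Pool.Agent.Results.MP_100fe7_nt.SignatureLaw

open Filter NumberField IsDedekindDomain Polynomial
open Pool.Agent.Q246.DL (DD cl cl_eq_zero cl_div cl_mul cl_pow QQ DD_add DD_nsmul isGalChar_of_artin
  isGalChar_zero isGalChar_add isGalChar_nsmul signature cc_conj)
open scoped Classical ComplexConjugate

/-- the absolute Galois group -/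
abbrev Galois (K : Type) [Field K] : Type := Gal(AlgebraicClosure K/K)

/-- the intermediate fields of `K̄/K` -/
abbrev Sub (K : Type) [Field K] : Type := IntermediateField K (AlgebraicClosure K)

section
variable {K : Type} [Field K] [NumberField K]

/-- `σ` is a Frobenius element at the prime `v`: there is a maximal ideal `Q` above `v` of the ring of
all algebraic integers with `σ x ≡ x ^ N(v)` modulo `Q` for all `x` -/
def IsFrobenius (v : HeightOneSpectrum (𝓞 K)) (σ : Galois K) : Prop :=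
  ∃ Q : Ideal (𝓞 (AlgebraicClosure K)), Q.IsMaximal ∧
    Q.comap (algebraMap (𝓞 K) (𝓞 (AlgebraicClosure K))) = v.asIdeal ∧
    ∀ x : 𝓞 (AlgebraicClosure K), σ • x - x ^ Ideal.absNorm v.asIdeal ∈ Q

/-- `c` is a complex conjugation: `ι ∘ c = conj ∘ ι` for an embedding `ι` of `K̄` in `ℂ` -/
def IsConjugation (c : Galois K) : Prop :=
  ∃ ι : AlgebraicClosure K →+* ℂ, ∀ x, ι (c x) = conj (ι x)

/-- Artin representations: trivial on an open subgroup -/
def IsArtin {d : ℕ} (ρ : Representation ℂ (Galois K) (Fin d → ℂ)) : Prop :=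
  ∃ E : Sub K, FiniteDimensional K E ∧ ∀ g ∈ E.fixingSubgroup, ρ g = 1

/-- the character of `Gal(K̄/K)` induced from the character `ψ` of `Gal(K̄/F)` -/
noncomputable def induced (F : Sub K) (ψ : F.fixingSubgroup →* ℂˣ) (g : Galois K) : ℂ :=
  ∑ᶠ x : Galois K ⧸ F.fixingSubgroup,
    if h : x.out⁻¹ * g * x.out ∈ F.fixingSubgroup then ((ψ ⟨_, h⟩ : ℂˣ) : ℂ) else 0

/-- `F` is a finite totally complex extension of `K` of degree divisible by `N`; it is contained in a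
finite Galois extension `L` of `K` such that `L/F` is cyclic and `ψ` is a character of `Gal(L/F)` -/
def Special (N : ℕ) (F : Sub K) (ψ : F.fixingSubgroup →* ℂˣ) : Prop :=
  FiniteDimensional K F ∧ N ∣ Module.finrank K F ∧ IsEmpty (F →+* ℝ) ∧
    ∃ L : Sub K, FiniteDimensional K L ∧ Normal K L ∧ F ≤ L ∧
      (∃ σ ∈ F.fixingSubgroup, ∀ g ∈ F.fixingSubgroup, ∃ k : ℤ, ∀ x ∈ L, g x = (σ ^ k) x) ∧
      ∀ g : F.fixingSubgroup, (g : Galois K) ∈ L.fixingSubgroup → ψ g = 1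

/-- the Frobenius eigenvalues of `M` at almost all places: `n` algebraic numbers of absolute value at
most `N(v)^(w/2)` -/
structure Eigenvalues (n : ℕ) (w : ℤ) (α : HeightOneSpectrum (𝓞 K) → Fin n → ℂ) : Prop where
  algebraic : ∀ᶠ v in cofinite, ∀ i, IsAlgebraic ℚ (α v i)
  weight : ∀ᶠ v in cofinite, ∀ i, ‖α v i‖ ≤ (Ideal.absNorm v.asIdeal : ℝ) ^ ((w : ℝ) / 2)

/-- the polynomials `B v` are the Euler factors of `M ⊗ ρ`: at almost all `v`,
`B_v(z) = ∏_i det(1 - α_{v,i} z ρ(Frob_v⁻¹))`; at the finitely many others `B_v` is any polynomial; the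
coefficients are algebraic, and the factors at `m` are different from zero -/
structure IsTwist {n : ℕ} (α : HeightOneSpectrum (𝓞 K) → Fin n → ℂ) {d : ℕ}
    (ρ : Representation ℂ (Galois K) (Fin d → ℂ)) (m : ℤ)
    (B : HeightOneSpectrum (𝓞 K) → ℂ[X]) : Prop where
  good : ∀ᶠ v in cofinite, ∀ σ, IsFrobenius v σ → ∀ z : ℂ,
    (B v).eval z = ∏ i, LinearMap.det (1 - (α v i * z) • ρ σ⁻¹)
  algebraic : ∀ v k, IsAlgebraic ℚ ((B v).coeff k)
  ne : ∀ v, (B v).eval ((Ideal.absNorm v.asIdeal : ℂ) ^ (-m)) ≠ 0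

/-- the value `∏_v B_v(N(v)^(-m))⁻¹` at `m` -/
noncomputable def value (m : ℤ) (B : HeightOneSpectrum (𝓞 K) → ℂ[X]) : ℂ :=
  ∏' v : HeightOneSpectrum (𝓞 K), ((B v).eval ((Ideal.absNorm v.asIdeal : ℂ) ^ (-m)))⁻¹

/-- `L(m, M ⊗ ρ) Ω^(-dim ρ)` is algebraic for all `ρ` induced from the special characters `ψ` -/
def SpecialValues {n : ℕ} (α : HeightOneSpectrum (𝓞 K) → Fin n → ℂ) (m : ℤ) (N : ℕ) (Ω : ℂ) :
    Prop :=
  ∀ (F : Sub K) (ψ : F.fixingSubgroup →* ℂˣ), Special N F ψ →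
    ∀ (d : ℕ) (ρ : Representation ℂ (Galois K) (Fin d → ℂ)), IsArtin ρ →
      ρ.character = induced F ψ →
      ∃ B, IsTwist α ρ m B ∧ IsAlgebraic ℚ (value m B / Ω ^ d)

/-- The characters of `ρ₁` and `ρ₂` have equal values at the complex conjugations. -/
def SameSignature {d₁ d₂ : ℕ} (ρ₁ : Representation ℂ (Galois K) (Fin d₁ → ℂ))
    (ρ₂ : Representation ℂ (Galois K) (Fin d₂ → ℂ)) : Prop :=
  ∀ c : Galois K, IsConjugation c → ρ₁.character c = ρ₂.character c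

/-- Complex conjugations have the eigenvalue `1` with multiplicity `p` and the eigenvalue `-1` with
multiplicity `q` on `ρ`. -/
def HasSignature {d : ℕ} (ρ : Representation ℂ (Galois K) (Fin d → ℂ)) (p q : ℕ) : Prop :=
  p + q = d ∧ ∀ c : Galois K, IsConjugation c → ρ.character c = (p : ℂ) - q

/-- A positive multiple of `χ` is an integral combination of characters induced from special
characters. -/
def Generated (N : ℕ) (χ : Galois K → ℂ) : Prop :=
  ∃ k : ℕ, 0 < k ∧ k • χ ∈ AddSubgroup.closure {f : Galois K → ℂ |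
    ∃ (F : Sub K) (ψ : F.fixingSubgroup →* ℂˣ), Special N F ψ ∧ f = induced F ψ}

/-- The values are not zero, and `L(m, M ⊗ ρ₁) Ω^(-dim ρ₁) ∼ L(m, M ⊗ ρ₂) Ω^(-dim ρ₂)` for Artin
representations with equal values of the characters at the complex conjugations. -/
def SignatureLaw {n : ℕ} (α : HeightOneSpectrum (𝓞 K) → Fin n → ℂ) (m : ℤ) (Ω : ℂ) : Prop :=
  ∀ (d₁ d₂ : ℕ) (ρ₁ : Representation ℂ (Galois K) (Fin d₁ → ℂ))
    (ρ₂ : Representation ℂ (Galois K) (Fin d₂ → ℂ)), IsArtin ρ₁ → IsArtin ρ₂ →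
    ∀ B₁ B₂, IsTwist α ρ₁ m B₁ → IsTwist α ρ₂ m B₂ → value m B₁ ≠ 0 ∧ value m B₂ ≠ 0 ∧
    (SameSignature ρ₁ ρ₂ → IsAlgebraic ℚ ((value m B₁ / Ω ^ d₁) / (value m B₂ / Ω ^ d₂)))

/-- `L(m, M ⊗ ρ) ∼ Ω^(dim ρ)` if the character of `ρ` is zero at the complex conjugations. -/
def BalancedLaw {n : ℕ} (α : HeightOneSpectrum (𝓞 K) → Fin n → ℂ) (m : ℤ) (Ω : ℂ) : Prop :=
  ∀ (d : ℕ) (ρ : Representation ℂ (Galois K) (Fin d → ℂ)), IsArtin ρ →
    (∀ c : Galois K, IsConjugation c → ρ.character c = 0) →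
    ∀ B, IsTwist α ρ m B → IsAlgebraic ℚ (value m B / Ω ^ d)

/-- `L(m, M ⊗ ρ) ∼ L(m, M)^p L(m, M ⊗ ε)^q` and `L(m, M) L(m, M ⊗ ε) ∼ Ω²`, if `ρ` has the signature
`(p, q)` and `ε` is one-dimensional of signature `(0, 1)`. -/
def DeligneLaw {n : ℕ} (α : HeightOneSpectrum (𝓞 K) → Fin n → ℂ) (m : ℤ) (Ω : ℂ) : Prop :=
  ∀ (d p q : ℕ) (ρ : Representation ℂ (Galois K) (Fin d → ℂ)), IsArtin ρ → HasSignature ρ p q →
    ∀ ε : Representation ℂ (Galois K) (Fin 1 → ℂ), IsArtin ε → HasSignature ε 0 1 →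
    ∀ B B₀ B₁, IsTwist α ρ m B → IsTwist α (1 : Representation ℂ (Galois K) (Fin 1 → ℂ)) m B₀ →
      IsTwist α ε m B₁ →
      IsAlgebraic ℚ (value m B / (value m B₀ ^ p * value m B₁ ^ q)) ∧
      IsAlgebraic ℚ (value m B₀ * value m B₁ / Ω ^ 2)

theorem twist_iff {n : ℕ} {α : HeightOneSpectrum (𝓞 K) → Fin n → ℂ} {d : ℕ}
    {ρ : Representation ℂ (Galois K) (Fin d → ℂ)} {m : ℤ}
    {B : HeightOneSpectrum (𝓞 K) → ℂ[X]} :
    IsTwist α ρ m B ↔ Pool.Agent.Q246.DL.IsTwist α ρ m B :=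
  ⟨fun h => ⟨h.good, h.algebraic, h.ne⟩, fun h => ⟨h.good, h.algebraic, h.ne⟩⟩

/-- the special characters generate -/
theorem induction_theorem {N : ℕ} (hN : 0 < N) {d₁ d₂ : ℕ}
    {ρ₁ : Representation ℂ (Galois K) (Fin d₁ → ℂ)}
    {ρ₂ : Representation ℂ (Galois K) (Fin d₂ → ℂ)} (h₁ : IsArtin ρ₁) (h₂ : IsArtin ρ₂)
    (heq : ∀ c : Galois K, IsConjugation c → ρ₁.character c = ρ₂.character c) :
    ∃ k : ℕ, 0 < k ∧ k • (ρ₁.character - ρ₂.character) ∈
      AddSubgroup.closure {f : Galois K → ℂ | ∃ (F : Sub K) (ψ : F.fixingSubgroup →* ℂˣ),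
        Special N F ψ ∧ f = induced F ψ} := by
  obtain ⟨k, hk, h⟩ := Pool.Agent.Q246.BI.conj_induction
    (Pool.Agent.Q246.DL.isGalChar_of_artin h₁) (Pool.Agent.Q246.DL.isGalChar_of_artin h₂) heq hN
  refine ⟨k, hk, AddSubgroup.closure_mono ?_ h⟩
  rintro f ⟨F, ψ, h1, h2, h3, h4, rfl⟩
  exact ⟨F, ψ, ⟨h1, h4, h3, h2⟩, rfl⟩

section law
variable {n : ℕ} {α : HeightOneSpectrum (𝓞 K) → Fin n → ℂ} {m : ℤ} {σ : ℝ}
  {S : Set (HeightOneSpectrum (𝓞 K))} {N : ℕ} {Ω : ℂ}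

theorem law (hS : Pool.Agent.Q246.DL.Bad α m σ S) (hσ : 1 < σ) (hN : 0 < N) (hΩ : Ω ≠ 0)
    (h : SpecialValues α m N Ω) {χ₁ χ₂ : Galois K → ℂ} (h₁ : Pool.Agent.Q246.BI.IsGalChar χ₁)
    (h₂ : Pool.Agent.Q246.BI.IsGalChar χ₂) (heq : ∀ c, IsConjugation c → χ₁ c = χ₂ c) :
    Pool.Agent.Q246.DL.DD α m S (Complex.log Ω) χ₁ =
      Pool.Agent.Q246.DL.DD α m S (Complex.log Ω) χ₂ := by
  refine Pool.Agent.Q246.DL.law (Complex.log Ω) hS hσ hN ?_ h₁ h₂ heq
  intro F ψ hfd hcyc htc hdvd d ρ hρ hρf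
  obtain ⟨B, hB, hal⟩ := h F ψ ⟨hfd, hdvd, htc, hcyc⟩ d ρ hρ hρf
  refine ⟨B, twist_iff.1 hB, ?_⟩
  rw [Complex.exp_log hΩ]
  exact hal

open Pool.Agent.Q246.DL in
theorem cl_value (hS : Pool.Agent.Q246.DL.Bad α m σ S) (hσ : 1 < σ) (hΩ : Ω ≠ 0) {d : ℕ}
    {ρ : Representation ℂ (Galois K) (Fin d → ℂ)} (hρ : IsArtin ρ)
    {B : HeightOneSpectrum (𝓞 K) → ℂ[X]} (hB : IsTwist α ρ m B) :
    ∃ h0 : value m B ≠ 0, cl (value m B) h0 =
      Pool.Agent.Q246.DL.DD α m S (Complex.log Ω) ρ.character + d • cl Ω hΩ := by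
  refine ⟨value_ne hS hσ hρ (twist_iff.1 hB), ?_⟩
  have h1 := DD_value (Complex.log Ω) hS hσ hρ (twist_iff.1 hB)
  have h2 : cl (Complex.exp (Complex.log Ω)) (Complex.exp_ne_zero _) = cl Ω hΩ :=
    cl_congr (Complex.exp_log hΩ) _
  rw [← h2]
  exact h1

end law

/-- **Theorem.** (0) If the characters of two Artin representations have equal values at the complex
conjugations, then a positive multiple of the difference is an integral combination of characters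
induced from special linear characters.

Let `m > w/2 + 1` and assume `SpecialValues α m N Ω`.
(1) `L(m, M ⊗ ρ) ≠ 0`, and for all Artin representations `ρ₁`, `ρ₂` with equal values of the
characters at the complex conjugations
`L(m, M ⊗ ρ₁) Ω^(-dim ρ₁) ∼ L(m, M ⊗ ρ₂) Ω^(-dim ρ₂)` up to an algebraic number.
(2) `L(m, M ⊗ ρ) ∼ Ω^(dim ρ)` if the character is zero at the complex conjugations.
(3) `L(m, M ⊗ ρ) ∼ L(m, M)^p L(m, M ⊗ ε)^q` if complex conjugations have the eigenvalue `1` with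
multiplicity `p` and `-1` with multiplicity `q`, and `ε` is one-dimensional and odd; also
`L(m, M) L(m, M ⊗ ε) ∼ Ω²`.
(4) If `K = ℚ`, then (3) applies to all `ρ`. -/
theorem result :
    (∀ (K : Type) [Field K] [NumberField K],
      (∀ N : ℕ, 0 < N → ∀ (d₁ d₂ : ℕ) (ρ₁ : Representation ℂ (Galois K) (Fin d₁ → ℂ))
        (ρ₂ : Representation ℂ (Galois K) (Fin d₂ → ℂ)), IsArtin ρ₁ → IsArtin ρ₂ →
        SameSignature ρ₁ ρ₂ → Generated N (ρ₁.character - ρ₂.character)) ∧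
      ∀ (n : ℕ) (w : ℤ) (α : HeightOneSpectrum (𝓞 K) → Fin n → ℂ), Eigenvalues n w α →
        ∀ m : ℤ, w + 2 < 2 * m → ∀ N : ℕ, 0 < N → ∀ Ω : ℂ, Ω ≠ 0 → SpecialValues α m N Ω →
        SignatureLaw α m Ω ∧ BalancedLaw α m Ω ∧ DeligneLaw α m Ω) ∧
    (∀ (d : ℕ) (ρ : Representation ℂ (Galois ℚ) (Fin d → ℂ)), IsArtin ρ →
      ∃ p q : ℕ, HasSignature ρ p q) := by
  constructor
  · intro K _ _
    refine ⟨fun N hN d₁ d₂ ρ₁ ρ₂ h₁ h₂ heq => induction_theorem hN h₁ h₂ heq, ?_⟩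
    intro n w α hα m hm N hN Ω hΩ hSV
    obtain ⟨σ, S, hσ, hS⟩ := Pool.Agent.Q246.DL.exists_bad α m ⟨hα.algebraic, hα.weight⟩ hm
    have hzero : ∀ (d : ℕ) (ρ : Representation ℂ (Galois K) (Fin d → ℂ)), IsArtin ρ →
        (∀ c : Galois K, IsConjugation c → ρ.character c = 0) →
        DD α m S (Complex.log Ω) ρ.character = 0 := by
      intro d ρ hρ h0
      have h1 := law hS hσ hN hΩ hSV (isGalChar_of_artin hρ) isGalChar_zero h0
      have h2 := DD_nsmul (α := α) (m := m) (Complex.log Ω) hS hσ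
        (isGalChar_zero (K := K)) 0
      rw [zero_smul, zero_smul] at h2
      rw [h1, h2]
    refine ⟨?_, ?_, ?_⟩
    · intro d₁ d₂ ρ₁ ρ₂ h₁ h₂ B₁ B₂ hB₁ hB₂
      obtain ⟨n₁, e₁⟩ := cl_value hS hσ hΩ h₁ hB₁
      obtain ⟨n₂, e₂⟩ := cl_value hS hσ hΩ h₂ hB₂
      refine ⟨n₁, n₂, fun heq => ?_⟩
      have h3 := law hS hσ hN hΩ hSV (isGalChar_of_artin h₁) (isGalChar_of_artin h₂) heq
      have p₁ := pow_ne_zero d₁ hΩ
      have p₂ := pow_ne_zero d₂ hΩ
      rw [← cl_eq_zero (div_ne_zero (div_ne_zero n₁ p₁) (div_ne_zero n₂ p₂)),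
        cl_div (div_ne_zero n₁ p₁) (div_ne_zero n₂ p₂), cl_div n₁ p₁, cl_div n₂ p₂, e₁, e₂,
        cl_pow hΩ, cl_pow hΩ, h3]
      abel
    · intro d ρ hρ h0 B hB
      obtain ⟨n₁, e₁⟩ := cl_value hS hσ hΩ hρ hB
      have p₁ := pow_ne_zero d hΩ
      rw [← cl_eq_zero (div_ne_zero n₁ p₁), cl_div n₁ p₁, e₁, cl_pow hΩ, hzero d ρ hρ h0]
      abel
    · rintro d p q ρ hρ ⟨hpq, hc⟩ ε hε ⟨-, hcε'⟩ B B₀ B₁ hB hB₀ hB₁
      have hcε : ∀ c : Galois K, IsConjugation c → ε.character c = -1 := fun c hc => by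
        rw [hcε' c hc]
        simp
      have hone : IsArtin (1 : Representation ℂ (Galois K) (Fin 1 → ℂ)) :=
        ⟨⊥, inferInstance, fun _ _ => rfl⟩
      have hone' : ∀ c : Galois K,
          (1 : Representation ℂ (Galois K) (Fin 1 → ℂ)).character c = 1 := fun c => by
        change LinearMap.trace ℂ _ (1 : Module.End ℂ (Fin 1 → ℂ)) = 1
        simp
      obtain ⟨n₀, e₀⟩ := cl_value hS hσ hΩ hρ hB
      obtain ⟨n₁, e₁⟩ := cl_value hS hσ hΩ hone hB₀
      obtain ⟨n₂, e₂⟩ := cl_value hS hσ hΩ hε hB₁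
      have g₁ := isGalChar_of_artin hone
      have g₂ := isGalChar_of_artin hε
      have h4 := law hS hσ hN hΩ hSV (isGalChar_of_artin hρ)
        (isGalChar_add (isGalChar_nsmul g₁ p) (isGalChar_nsmul g₂ q)) (fun c hcc => by
          rw [Pi.add_apply, Pi.smul_apply, Pi.smul_apply, hone', hcε c hcc, hc c hcc]
          simp
          ring)
      rw [DD_add _ hS hσ (isGalChar_nsmul g₁ p) (isGalChar_nsmul g₂ q), DD_nsmul _ hS hσ g₁,
        DD_nsmul _ hS hσ g₂] at h4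
      have h5 := law hS hσ hN hΩ hSV (isGalChar_add g₁ g₂) isGalChar_zero (fun c hcc => by
          rw [Pi.add_apply, hone', hcε c hcc]
          simp)
      have h6 := DD_nsmul (α := α) (m := m) (Complex.log Ω) hS hσ
        (isGalChar_zero (K := K)) 0
      rw [zero_smul, zero_smul] at h6
      rw [DD_add _ hS hσ g₁ g₂, h6] at h5
      have q₁ := pow_ne_zero p n₁
      have q₂ := pow_ne_zero q n₂
      constructor
      · rw [← cl_eq_zero (div_ne_zero n₀ (mul_ne_zero q₁ q₂)), cl_div n₀ (mul_ne_zero q₁ q₂),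
          cl_mul q₁ q₂, cl_pow n₁, cl_pow n₂, e₀, e₁, e₂, h4, ← hpq, smul_add, smul_add, add_smul,
          one_smul]
        abel
      · have q₃ := pow_ne_zero 2 hΩ
        rw [← cl_eq_zero (div_ne_zero (mul_ne_zero n₁ n₂) q₃), cl_div (mul_ne_zero n₁ n₂) q₃,
          cl_mul n₁ n₂, cl_pow hΩ, e₁, e₂, one_smul, two_smul]
        have h7 : ∀ a b x : QQ, a + b = 0 → a + x + (b + x) - (x + x) = 0 := by
          intro a b x h
          have : a + x + (b + x) - (x + x) = a + b := by abel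
          rw [this, h]
        exact h7 _ _ _ h5
  · intro d ρ hρ
    by_cases hex : ∃ c : Galois ℚ, IsConjugation c
    · obtain ⟨c₀, hc₀⟩ := hex
      obtain ⟨p, q, hpq, h1⟩ := signature (ρ := ρ) hc₀
      refine ⟨p, q, hpq, fun c hc => ?_⟩
      obtain ⟨g, rfl⟩ := cc_conj hc₀ hc
      rw [← h1]
      exact ρ.char_conj c₀ g
    · push Not at hex
      exact ⟨d, 0, add_zero d, fun c hc => absurd hc (hex c)⟩

end

end Pool.Agent.Results.MP_100fe7_nt.SignatureLaw
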