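import Pool.Agent.Q276.UR.N5

/-!
# Number rigidity of the zeta zeros

Look at the ordinates of the zeta zeros around a random point `t` of `[T, 2T]` in the scale of their
mean gap `2π / log T`, i.e. at `x_n(t) = (γ_n - t) log T / 2π`.  We show, without any hypothesis, that
the number `N_E(t)` of points in a bounded set `E` is determined, with probability tending to one, by
the points outside of `E`, as the GUE hypothesis predicts (the sine process is number rigid by
Ghosh).  Quantitatively, an explicit linear statistic `P_{R,E}(t)` of the points outside of `E` and in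
`[-R, R]` satisfies
`(1/T) ∫_T^{2T} |N_E(t) - P_{R,E}(t)|² dt ≤ 1/(2 log R) + C (log R)^(-3/2) + o(1)`,
uniformly in `E ⊆ [-h, h]`; so the integer nearest to `P_{R,E}(t)` is `N_E(t)` except for a proportion
at most `2/log R + C (log R)^(-3/2) + o(1)` of the `t`.  The leading constant `1/2` is that of the
sine process.

The starting file `MP_67227b_nt.NumberRigidity` has an `L^1` version with error `C (log R)^(-1/2)`, without the
constant and in terms of the complex positions of the zeros.

Proof.  The Fourier transform `H` of the weight `w` is nonnegative with `|α| H(α) ≤ 1/(2 log R)`,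
`α² H(α) ≤ 1/log R`, so `∫_{|α| ≤ 1/2} |α| H² ≤ 1/(2 log R) + (log R)^(-2)` and the part of `H²` cut off
is `O((log R)^(-2) / (1 + α²))`.  Montgomery's theorem for the ordinates (unconditional, for the
form factor near `|α| ≤ 1/2`) and a bound for the pairs of close ordinates give the mean square of
`∑_n w(x_n(t))`.  Finally `1 - w ≤ h/log R` on `[-h, h]`.
-/

set_option autoImplicit false

open MeasureTheory

namespace Pool.Agent.Results.MP_103a5c_nt.NumberRigidity

/-- multiplicity of `s` as a zero of the Riemann zeta function (order of vanishing at `s`) -/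
noncomputable def zmult (s : ℂ) : ℕ := analyticOrderNatAt riemannZeta s

/-- the number of nontrivial zeros of `ζ` with ordinate in `(0, t]`, with multiplicity -/
noncomputable def NZ (t : ℝ) : ℕ :=
  ∑ᶠ s ∈ {s : ℂ | riemannZeta s = 0 ∧ 0 < s.re ∧ s.re < 1 ∧ 0 < s.im ∧ s.im ≤ t}, zmult s

/-- for `n ≥ 1`: the `n`-th positive ordinate `γ n` of a nontrivial zero of `ζ`, the ordinates being
listed in nondecreasing order and repeated according to multiplicity -/
noncomputable def γ (n : ℕ) : ℝ := sInf {t : ℝ | n ≤ NZ t}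

/-- the position of the `n`-th ordinate seen from `t`, in the scale `2π / log T` of the mean gap -/
noncomputable def x (T t : ℝ) (n : ℕ) : ℝ := (γ n - t) * Real.log T / (2 * Real.pi)

/-- the weight `w_R(x) = (1/log R) ∫_0^{log R} max(0, 1 - |x| e^{-s}) ds`, the average of the tents
`max(0, 1 - |x|/r)` over `1 ≤ r ≤ R` with respect to `dr/r`; it is `1` at `0` and vanishes for
`|x| ≥ R` -/
noncomputable def w (R x : ℝ) : ℝ :=
  (1 / Real.log R) * ∫ s in (0 : ℝ)..(Real.log R), max 0 (1 - |x| * Real.exp (-s))

open Classical in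
/-- the number of ordinates, counted with multiplicity, in the window `E` around `t` -/
noncomputable def count (E : Set ℝ) (T t : ℝ) : ℕ :=
  ((Finset.Icc 1 (NZ (3 * T))).filter (fun n => x T t n ∈ E)).card

open Classical in
/-- the linear statistic `(R - 1)/log R - ∑_{n : x_n(t) ∉ E} w_R(x_n(t))` of the ordinates outside of
the window (only those with `|x_n(t)| < R` contribute; here `(R - 1)/log R = ∫ w_R`) -/
noncomputable def predict (R : ℝ) (E : Set ℝ) (T t : ℝ) : ℝ :=
  (R - 1) / Real.log R -
    ∑ n ∈ (Finset.Icc 1 (NZ (3 * T))).filter (fun n => x T t n ∉ E), w R (x T t n)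

/-- **Number rigidity of the zeta zeros, without any hypothesis.**  For every `h > 0` there is a `C`
such that for all `R ≥ 2`, all `ε > 0`, all `T ≥ T₀(R, ε)` and all measurable sets `E ⊆ [-h, h]`:

(1) the mean square over `T ≤ t ≤ 2T` of `count E - predict R E` is at most
`1/(2 log R) + C/(log R)^{3/2} + ε`;

(2) the integer nearest to `predict R E` is equal to `count E`, except on a subset of `[T, 2T]` of
measure at most `T (2/log R + C/(log R)^{3/2} + ε)`. -/
theorem result (h : ℝ) (hh : 0 < h) :
    ∃ C : ℝ, 0 < C ∧ ∀ R : ℝ, 2 ≤ R → ∀ ε : ℝ, 0 < ε → ∃ T0 : ℝ, ∀ T : ℝ, T0 ≤ T →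
    ∀ E : Set ℝ, MeasurableSet E → E ⊆ Set.Icc (-h) h →
      (1 / T) * ∫ t in T..(2 * T), ((count E T t : ℝ) - predict R E T t) ^ 2 ≤
        1 / (2 * Real.log R) + C / (Real.log R * Real.sqrt (Real.log R)) + ε ∧
      volume {t | t ∈ Set.Icc T (2 * T) ∧ round (predict R E T t) ≠ (count E T t : ℤ)} ≤
        ENNReal.ofReal (T * (2 / Real.log R +
          C / (Real.log R * Real.sqrt (Real.log R)) + ε)) := by
  classical
  obtain ⟨C, hC, hmain⟩ := Pool.Agent.Q276.UR.space_main (max 1 ⌈h⌉₊) (le_max_left _ _)
  refine ⟨4 * C, by positivity, fun R hR ε hε => ?_⟩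
  have hR0 : 0 < R := by linarith
  have hl : Real.log 2 ≤ Real.log R := Real.log_le_log (by norm_num) hR
  have hl2 : 0 < Real.log 2 := Real.log_pos (by norm_num)
  have hl0 : 0 < Real.log R := by linarith
  obtain ⟨T0, hT0, hT⟩ := hmain (Real.log R) hl (ε / 4) (by positivity)
  refine ⟨T0, fun T hTT E hEm hE => ?_⟩
  have hTpos : 0 < T := by linarith
  have hE' : E ⊆ Set.Icc (-((max 1 ⌈h⌉₊ : ℕ) : ℝ)) ((max 1 ⌈h⌉₊ : ℕ) : ℝ) := by
    refine hE.trans ?_
    have h1 : h ≤ ((max 1 ⌈h⌉₊ : ℕ) : ℝ) := by
      refine (Nat.le_ceil h).trans ?_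
      exact_mod_cast le_max_right _ _
    exact Set.Icc_subset_Icc (by linarith) h1
  have h1 := hT T hTT E hEm hE'
  have hw : ∀ z, Pool.Agent.Q276.UR.wR (Real.log R) z = w R z := by
    intro z
    unfold Pool.Agent.Q276.UR.wR w H177.Lat.tri
    rw [one_div]
    congr 1
    apply intervalIntegral.integral_congr
    intro s _
    show max 0 (1 - |z * Real.exp (-s)| / 1) = max 0 (1 - |z| * Real.exp (-s))
    rw [div_one, abs_mul, abs_of_pos (Real.exp_pos _)]
  have hx : ∀ t n, Pool.Agent.Q276.UR.xr T t n = x T t n := fun t n => rfl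
  have hm : Pool.Agent.Q276.UR.mR (Real.log R) = (R - 1) / Real.log R := by
    unfold Pool.Agent.Q276.UR.mR
    rw [Real.exp_log hR0]
    ring
  have hS : ∀ t, Pool.Agent.Q276.UR.Sr E (Real.log R) T t -
      Pool.Agent.Q276.UR.mR (Real.log R) = (count E T t : ℝ) - predict R E T t := by
    intro t
    rw [hm]
    unfold count predict Pool.Agent.Q276.UR.Sr Pool.Agent.Q276.UR.phi
    rw [Finset.sum_ite, Finset.sum_const, nsmul_eq_mul, mul_one]
    simp only [hw, hx]
    have e1 : (Finset.Icc 1 (SG.NZ (3 * T))) = Finset.Icc 1 (NZ (3 * T)) := rfl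
    rw [e1]
    ring
  have hint := Pool.Agent.Q276.UR.Sr_ii hEm hl0 T (Pool.Agent.Q276.UR.mR (Real.log R)) T (2 * T)
  simp_rw [hS] at h1 hint
  have hsq : 0 < Real.sqrt (Real.log R) := Real.sqrt_pos.2 hl0
  constructor
  · rw [one_div, inv_mul_le_iff₀ hTpos]
    refine h1.trans (mul_le_mul_of_nonneg_left ?_ hTpos.le)
    have e1 : C / (Real.log R * Real.sqrt (Real.log R)) ≤
        4 * C / (Real.log R * Real.sqrt (Real.log R)) :=
      div_le_div_of_nonneg_right (by linarith) (by positivity)
    linarith
  · set f : ℝ → ℝ := fun t => ((count E T t : ℝ) - predict R E T t) ^ 2 with hf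
    have hsub : {t | t ∈ Set.Icc T (2 * T) ∧ round (predict R E T t) ≠ (count E T t : ℤ)} ⊆
        {t | ENNReal.ofReal (1 / 4) ≤
          ENNReal.ofReal ((Set.Icc T (2 * T)).indicator f t)} := by
      rintro t ⟨ht1, ht2⟩
      show ENNReal.ofReal (1 / 4) ≤ ENNReal.ofReal ((Set.Icc T (2 * T)).indicator f t)
      rw [Set.indicator_of_mem ht1]
      apply ENNReal.ofReal_le_ofReal
      by_contra hcon
      push Not at hcon
      apply ht2
      have h2 : |(count E T t : ℝ) - predict R E T t| < 1 / 2 := by
        apply abs_lt_of_sq_lt_sq _ (by norm_num)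
        calc ((count E T t : ℝ) - predict R E T t) ^ 2 < 1 / 4 := hcon
          _ = (1 / 2) ^ 2 := by norm_num
      rw [round_eq, Int.floor_eq_iff]
      obtain ⟨h3, h4⟩ := abs_lt.1 h2
      push_cast
      constructor <;> linarith
    have hIcc : IntegrableOn f (Set.Icc T (2 * T)) := by
      rw [integrableOn_Icc_iff_integrableOn_Ioc,
        ← intervalIntegrable_iff_integrableOn_Ioc_of_le (by linarith)]
      exact hint
    have hfi : Integrable ((Set.Icc T (2 * T)).indicator f) := by
      rw [integrable_indicator_iff measurableSet_Icc]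
      exact hIcc
    have h5 := mul_meas_ge_le_lintegral₀ (μ := volume)
      (f := fun t => ENNReal.ofReal ((Set.Icc T (2 * T)).indicator f t))
      hfi.1.aemeasurable.ennreal_ofReal (ENNReal.ofReal (1 / 4))
    have h6 : ∫⁻ t, ENNReal.ofReal ((Set.Icc T (2 * T)).indicator f t) =
        ENNReal.ofReal (∫ t in T..(2 * T), f t) := by
      rw [← ofReal_integral_eq_lintegral_ofReal hfi (Filter.Eventually.of_forall fun t =>
        Set.indicator_nonneg (fun _ _ => sq_nonneg _) _), integral_indicator measurableSet_Icc,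
        intervalIntegral.integral_of_le (by linarith), integral_Icc_eq_integral_Ioc]
    rw [h6] at h5
    have h7 : volume {t | ENNReal.ofReal (1 / 4) ≤
        ENNReal.ofReal ((Set.Icc T (2 * T)).indicator f t)} ≤
        ENNReal.ofReal (4 * ∫ t in T..(2 * T), f t) := by
      have h8 : ENNReal.ofReal 4 * (ENNReal.ofReal (1 / 4) * volume {t | ENNReal.ofReal (1 / 4) ≤
          ENNReal.ofReal ((Set.Icc T (2 * T)).indicator f t)}) ≤
          ENNReal.ofReal 4 * ENNReal.ofReal (∫ t in T..(2 * T), f t) := by gcongr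
      rw [← mul_assoc, ← ENNReal.ofReal_mul (by norm_num), ← ENNReal.ofReal_mul (by norm_num)] at h8
      norm_num at h8
      norm_num
      exact h8
    refine (measure_mono hsub).trans (h7.trans (ENNReal.ofReal_le_ofReal ?_))
    have h9 := mul_le_mul_of_nonneg_left h1 (by norm_num : (0 : ℝ) ≤ 4)
    refine h9.trans (le_of_eq ?_)
    field_simp
    ring

end Pool.Agent.Results.MP_103a5c_nt.NumberRigidity
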