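import Pool.Agent.Q28.MC.Main

/-!
# Independence of the Chow-Kunneth filtration: an exact criterion

`𝒱` is a class of smooth projective geometrically irreducible varieties over the field `k` closed
under products (for example all of them), `C` the Chow groups with rational coefficients (in the
form of their formal properties, `IsChowProj`) and `H` a Weil cohomology theory (`IsWeilProj`).

(1) Let `X` be a variety such that no homologically trivial self-correspondence of degree zero acts
on `CH(X)` as a non-zero idempotent (for example such that they are nilpotent, as for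
finite-dimensional motives), and `π` one Chow-Kunneth decomposition of `X`. Then the Chow-Kunneth
filtration of `CH(X)` is independent of the decomposition if and only if the morphisms
`h^a(X) → h^b(X)`, `a < b`, between the summands given by `π` act as zero on `CH(X)`.

(2) For all `X` the independence implies that these morphisms, and the phantom summands of the
`h^a(X)`, act as zero on `CH(X)`.

(3) The universal form of the independence (the subobjects `h^0(X) ⊕ ⋯ ⊕ h^(n-1)(X)` of the motive
of `X` do not depend on the decomposition) holds if and only if, for one decomposition `π`, there are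
no non-zero morphisms `h^a(X) → h^b(X)`, `a < b`, and the motive of `X` has no phantom summand.
(4) Then the filtrations on `CH(X)` are independent of the decomposition, and all decompositions are
conjugate by unipotent correspondences strictly lowering the weights.
(5) The condition holds if the one group `F^0 CH^(dim X)(X × X)` is independent of the
decomposition of `X × X`.

(6) For a class of varieties with Chow-Kunneth decompositions, closed under `X ↦ X × X`, the
independence for all `X` and all `F^n CH^i(X)` is equivalent to the independence of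
`F^0 CH^(dim X)(X × X)` for all `X`, to the universal form, and to the criterion in (3) for one
decomposition of each `X`.
-/

open CategoryTheory AlgebraicGeometry

set_option autoImplicit false

universe u v w

namespace Pool.Agent.Results.MP_10f4af_ag.ExactCriterion

open Pool.Agent.H914 Pool.Agent.W492.BB Pool.Agent.TH133 Pool.Agent.Q28.MC Pool.Agent.W550.Corr

/-- Exact criteria for the independence of the Chow-Kunneth filtration. -/
theorem result {k : Type u} [Field k] {𝒱 : VarClass k} (C : TheoryData.{u, v, 0} 𝒱 ℚ)
    [IsChowProj C] {K : Type w} [Field K] (H : WeilTheoryData.{u, v, w} C K) [IsWeilProj H] :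
    (∀ X : 𝒱.Obj, NilpotentKernel H X → NoPhantoms H X ∧ NoIdempotentAction H X) ∧
    (∀ X : 𝒱.Obj, NoIdempotentAction H X →
      ∀ π, IsCK H X π → (MurreC H X ↔ RaisingActsTrivially C π)) ∧
    (∀ X : 𝒱.Obj, MurreC H X → ∀ π, IsCK H X π →
      RaisingActsTrivially C π ∧ PhantomsActTrivially H π) ∧
    (∀ (X : 𝒱.Obj) (π : ℕ → C.A (X.prod X)), IsCK H X π →
      (UniversalC H X ↔ NeverRaises C π ∧ NoPhantoms H X)) ∧
    (∀ X : 𝒱.Obj, UniversalC H X → MurreC H X ∧ UnipotentlyConjugate H X) ∧
    (∀ X : 𝒱.Obj, (∃ π, IsCK H X π) → MurreCAt H (X.prod X) X.dim 0 → UniversalC H X) ∧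
    (∀ F : 𝒱.Obj → Prop, (∀ X, F X → F (X.prod X)) → (∀ X, F X → ∃ π, IsCK H X π) →
      ((∀ X, F X → MurreC H X) ↔ ∀ X, F X → MurreCAt H (X.prod X) X.dim 0) ∧
      ((∀ X, F X → MurreC H X) ↔ ∀ X, F X → UniversalC H X) ∧
      ((∀ X, F X → MurreC H X) ↔
        ∀ X, F X → ∃ π, IsCK H X π ∧ NeverRaises C π ∧ NoPhantoms H X)) := by
  refine ⟨fun X hN => ⟨noPhantoms_of_nil hN, noIdempotentAction_of_nil hN⟩,
    fun X hN π h => murreC_iff hN h,
    fun X hX π h => ⟨raising_of_C hX h, phantoms_of_C hX h⟩, fun X π h => universalC_iff h,
    fun X hU => ⟨murreC_of_universal hU, conjugate hU⟩, ?_, ?_⟩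
  · rintro X ⟨π, h⟩ hX
    exact universal_of_C0At h hX
  · intro F hF hCK
    have h12 : (∀ X, F X → MurreC H X) → ∀ X, F X → MurreCAt H (X.prod X) X.dim 0 :=
      fun h X hX π π' hπ hπ' => h _ (hF X hX) π π' hπ hπ' X.dim 0
    have h23 : (∀ X, F X → MurreCAt H (X.prod X) X.dim 0) → ∀ X, F X → UniversalC H X := by
      intro h X hX
      obtain ⟨π, hπ⟩ := hCK X hX
      exact universal_of_C0At hπ (h X hX)
    have h31 : (∀ X, F X → UniversalC H X) → ∀ X, F X → MurreC H X :=
      fun h X hX => murreC_of_universal (h X hX)
    have h34 : (∀ X, F X → UniversalC H X) ↔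
        ∀ X, F X → ∃ π, IsCK H X π ∧ NeverRaises C π ∧ NoPhantoms H X := by
      constructor
      · intro h X hX
        obtain ⟨π, hπ⟩ := hCK X hX
        exact ⟨π, hπ, (universalC_iff hπ).1 (h X hX)⟩
      · intro h X hX
        obtain ⟨π, hπ, h1⟩ := h X hX
        exact (universalC_iff hπ).2 h1
    exact ⟨⟨h12, fun h => h31 (h23 h)⟩, ⟨fun h => h23 (h12 h), h31⟩,
      ⟨fun h => h34.1 (h23 (h12 h)), fun h => h31 (h34.2 h)⟩⟩

end Pool.Agent.Results.MP_10f4af_ag.ExactCriterion
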