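import Mathlib

/-!
# 4-homogeneous latin squares of orders not divisible by 8

Problem MP_11217e_co.  We exhibit a 4-homogeneous latin square of order 12 and show that the
product of a 4-homogeneous latin square with the Cayley table of `ZMod m`, `m` odd, is again
4-homogeneous.  Hence for every odd `m` there is a 4-homogeneous latin square of order `12 * m`,
and none of these orders is divisible by 8.
-/

namespace Pool.Agent.Results.MP_11217e_co.OrderTwelve

/-- `L` is a latin square: every symbol occurs exactly once in each row and in each column. -/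
def IsLatin {A : Type*} (L : A → A → A) : Prop :=
  (∀ r s, ∃! c, L r c = s) ∧ (∀ c s, ∃! r, L r c = s)

/-- The intercalates through the cell `(r, c)`, each recorded by its opposite cell
`(r', c')`: rows `r ≠ r'` and columns `c ≠ c'` with `L r c = L r' c'` and `L r c' = L r' c`. -/
def intercalatesAt {A : Type*} (L : A → A → A) (r c : A) : Set (A × A) :=
  {p | p.1 ≠ r ∧ p.2 ≠ c ∧ L r c = L p.1 p.2 ∧ L r p.2 = L p.1 c}

/-- `L` is `h`-homogeneous: each cell lies in exactly `h` intercalates. -/
def IsHomogeneous {A : Type*} (h : ℕ) (L : A → A → A) : Prop :=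
  ∀ r c, (intercalatesAt L r c).ncard = h

/-- There is an `h`-homogeneous latin square of order `n`. -/
def ExistsHomogeneous (h n : ℕ) : Prop :=
  ∃ L : Fin n → Fin n → Fin n, IsLatin L ∧ IsHomogeneous h L

/-- Transport of structure along a bijection. -/
theorem transport {A B : Type*} (e : A ≃ B) (L : A → A → A) (hL : IsLatin L) (h : ℕ)
    (hh : IsHomogeneous h L) :
    IsLatin (fun x y => e (L (e.symm x) (e.symm y))) ∧
      IsHomogeneous h (fun x y => e (L (e.symm x) (e.symm y))) := by
  refine ⟨⟨fun r s => ?_, fun c s => ?_⟩, fun r c => ?_⟩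
  · obtain ⟨c, hc, huc⟩ := hL.1 (e.symm r) (e.symm s)
    refine ⟨e c, by simp [hc], fun y hy => ?_⟩
    have := huc (e.symm y) (by
      have hy' : e (L (e.symm r) (e.symm y)) = s := hy
      rw [← hy', e.symm_apply_apply])
    rw [← this, e.apply_symm_apply]
  · obtain ⟨r, hr, hur⟩ := hL.2 (e.symm c) (e.symm s)
    refine ⟨e r, by simp [hr], fun y hy => ?_⟩
    have := hur (e.symm y) (by
      have hy' : e (L (e.symm y) (e.symm c)) = s := hy
      rw [← hy', e.symm_apply_apply])
    rw [← this, e.apply_symm_apply]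
  · have h1 : intercalatesAt (fun x y => e (L (e.symm x) (e.symm y))) r c =
        (fun p : A × A => (e p.1, e p.2)) '' intercalatesAt L (e.symm r) (e.symm c) := by
      ext ⟨x, y⟩
      simp only [intercalatesAt, Set.mem_setOf_eq, Set.mem_image, Prod.mk.injEq, Prod.exists]
      constructor
      · rintro ⟨h1, h2, h3, h4⟩
        refine ⟨e.symm x, e.symm y, ⟨?_, ?_, e.injective h3, e.injective h4⟩, by simp, by simp⟩
        · intro hx
          exact h1 (e.symm.injective hx)
        · intro hy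
          exact h2 (e.symm.injective hy)
      · rintro ⟨a, b, ⟨h1, h2, h3, h4⟩, rfl, rfl⟩
        refine ⟨?_, ?_, ?_, ?_⟩
        · intro hx
          apply h1
          rw [← hx, e.symm_apply_apply]
        · intro hy
          apply h2
          rw [← hy, e.symm_apply_apply]
        · rw [e.symm_apply_apply, e.symm_apply_apply, h3]
        · rw [e.symm_apply_apply, e.symm_apply_apply, h4]
    rw [h1, Set.ncard_image_of_injective _ (fun p q hpq => by
      simp only [Prod.mk.injEq, EmbeddingLike.apply_eq_iff_eq] at hpq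
      exact Prod.ext hpq.1 hpq.2)]
    exact hh _ _

/-- Direct product with the Cayley table of an abelian group without involutions. -/
theorem product {A G : Type*} [AddCommGroup G] (hG : ∀ g : G, g + g = 0 → g = 0)
    (L : A → A → A) (hL : IsLatin L) (h : ℕ) (hh : IsHomogeneous h L) :
    IsLatin (fun x y : A × G => (L x.1 y.1, x.2 + y.2)) ∧
      IsHomogeneous h (fun x y : A × G => (L x.1 y.1, x.2 + y.2)) := by
  refine ⟨⟨fun r s => ?_, fun c s => ?_⟩, fun r c => ?_⟩
  · obtain ⟨c, hc, huc⟩ := hL.1 r.1 s.1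
    refine ⟨(c, s.2 - r.2), by simp [hc], fun y hy => ?_⟩
    have hy1 : L r.1 y.1 = s.1 := congrArg Prod.fst hy
    have hy2 : r.2 + y.2 = s.2 := congrArg Prod.snd hy
    exact Prod.ext (huc y.1 hy1) (by
      show y.2 = s.2 - r.2
      rw [← hy2]; abel)
  · obtain ⟨r, hr, hur⟩ := hL.2 c.1 s.1
    refine ⟨(r, s.2 - c.2), by simp [hr], fun y hy => ?_⟩
    have hy1 : L y.1 c.1 = s.1 := congrArg Prod.fst hy
    have hy2 : y.2 + c.2 = s.2 := congrArg Prod.snd hy
    exact Prod.ext (hur y.1 hy1) (by
      show y.2 = s.2 - c.2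
      rw [← hy2]; abel)
  · have h1 : intercalatesAt (fun x y : A × G => (L x.1 y.1, x.2 + y.2)) r c =
        (fun p : A × A => ((p.1, r.2), (p.2, c.2))) '' intercalatesAt L r.1 c.1 := by
      ext ⟨⟨x, u⟩, ⟨y, v⟩⟩
      simp only [intercalatesAt, Set.mem_setOf_eq, Set.mem_image, Prod.mk.injEq, Prod.exists]
      constructor
      · rintro ⟨h1, h2, ⟨h3, h3'⟩, h4, h4'⟩
        have e1 : v = c.2 := by
          have h5 : (v - c.2) + (v - c.2) = 0 := by
            have h6 : v = u + c.2 - r.2 := by rw [← h4']; abel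
            have h7 : v = r.2 + c.2 - u := by rw [h3']; abel
            calc (v - c.2) + (v - c.2) = (u + c.2 - r.2 - c.2) + (r.2 + c.2 - u - c.2) := by
                  rw [← h6, ← h7]
              _ = 0 := by abel
          exact sub_eq_zero.mp (hG _ h5)
        subst e1
        have e2 : u = r.2 := by
          have := h3'
          exact (add_right_cancel this).symm
        subst e2
        exact ⟨x, y, ⟨fun hx => h1 (Prod.ext hx rfl), fun hy => h2 (Prod.ext hy rfl), h3, h4⟩,
          ⟨rfl, rfl⟩, rfl, rfl⟩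
      · rintro ⟨a, b, ⟨h1, h2, h3, h4⟩, ⟨rfl, rfl⟩, rfl, rfl⟩
        exact ⟨fun hx => h1 (congrArg Prod.fst hx), fun hy => h2 (congrArg Prod.fst hy),
          ⟨h3, rfl⟩, h4, rfl⟩
    rw [h1, Set.ncard_image_of_injective _ (fun p q hpq => by
      simp only [Prod.mk.injEq, and_true] at hpq
      exact Prod.ext hpq.1 hpq.2)]
    exact hh _ _

/-- Multiplying the order by an odd number. -/
theorem exists_mul_odd (h n m : ℕ) (hm : Odd m) (hn : ExistsHomogeneous h n) :
    ExistsHomogeneous h (n * m) := by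
  obtain ⟨L, hL, hh⟩ := hn
  have hm0 : m ≠ 0 := by
    rintro rfl
    exact absurd hm (by decide)
  haveI : NeZero m := ⟨hm0⟩
  have hG : ∀ g : ZMod m, g + g = 0 → g = 0 := by
    intro g hg
    have h2 : IsUnit ((2 : ℕ) : ZMod m) := by
      rw [ZMod.isUnit_iff_coprime]
      exact (Nat.coprime_two_left).mpr hm
    have h3 : ((2 : ℕ) : ZMod m) * g = 0 := by
      rw [Nat.cast_two, two_mul]
      exact hg
    exact (h2.mul_right_eq_zero).mp h3
  have hp := product (G := ZMod m) hG L hL h hh
  have e : Fin n × ZMod m ≃ Fin (n * m) :=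
    Fintype.equivFinOfCardEq (by simp [ZMod.card])
  exact ⟨_, transport e _ hp.1 h hp.2⟩

/-- The rows of the square of order 12. -/
def table : List (List ℕ) :=
  [[0, 1, 2, 4, 5, 3, 7, 6, 8, 10, 11, 9],
   [2, 0, 1, 5, 3, 4, 6, 8, 7, 9, 10, 11],
   [1, 2, 0, 3, 4, 5, 8, 7, 6, 11, 9, 10],
   [3, 5, 4, 2, 1, 0, 11, 10, 9, 8, 6, 7],
   [5, 4, 3, 0, 2, 1, 9, 11, 10, 6, 7, 8],
   [4, 3, 5, 1, 0, 2, 10, 9, 11, 7, 8, 6],
   [6, 8, 7, 10, 11, 9, 2, 0, 1, 4, 5, 3],
   [7, 6, 8, 11, 9, 10, 0, 1, 2, 3, 4, 5],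
   [8, 7, 6, 9, 10, 11, 1, 2, 0, 5, 3, 4],
   [10, 9, 11, 8, 6, 7, 4, 3, 5, 2, 1, 0],
   [11, 10, 9, 6, 7, 8, 3, 5, 4, 0, 2, 1],
   [9, 11, 10, 7, 8, 6, 5, 4, 3, 1, 0, 2]]

/-- The square of order 12. -/
def sq (r c : Fin 12) : Fin 12 := Fin.ofNat 12 ((table.getD r.1 []).getD c.1 0)

theorem sq_latin : IsLatin sq := by
  have h1 : ∀ r : Fin 12, Function.Injective (sq r) := by decide +kernel
  have h2 : ∀ c : Fin 12, Function.Injective (fun r => sq r c) := by decide +kernel
  constructor
  · intro r s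
    exact (Finite.injective_iff_bijective.mp (h1 r)).existsUnique s
  · intro c s
    exact (Finite.injective_iff_bijective.mp (h2 c)).existsUnique s

theorem sq_card : ∀ r c : Fin 12, (Finset.univ.filter fun p : Fin 12 × Fin 12 =>
    p.1 ≠ r ∧ p.2 ≠ c ∧ sq r c = sq p.1 p.2 ∧ sq r p.2 = sq p.1 c).card = 4 := by
  decide +kernel

theorem sq_hom : IsHomogeneous 4 sq := by
  intro r c
  rw [← sq_card r c, ← Set.ncard_coe_finset]
  congr 1
  ext p
  simp [intercalatesAt]

/-- **Main theorem.**  For every odd `m` there is a 4-homogeneous latin square of order `12 * m`,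
an order not divisible by 8; and the set of orders of 4-homogeneous latin squares is closed under
multiplication by odd numbers. -/
theorem result :
    (∀ m : ℕ, Odd m → ¬ 8 ∣ 12 * m ∧ ExistsHomogeneous 4 (12 * m)) ∧
    (∀ n m : ℕ, Odd m → ExistsHomogeneous 4 n → ExistsHomogeneous 4 (n * m)) := by
  refine ⟨fun m hm => ⟨?_, exists_mul_odd 4 12 m hm ⟨sq, sq_latin, sq_hom⟩⟩,
    fun n m hm hn => exists_mul_odd 4 n m hm hn⟩
  obtain ⟨k, rfl⟩ := hm
  omega

end Pool.Agent.Results.MP_11217e_co.OrderTwelve
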