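import Pool.Agent.Q42.EB.Main
import Pool.Agent.Q47.EB.Ex3

/-!
# Generalised abundance for nef line bundles on smooth quotients of complex tori, effective form

`X = V / Γ = A / G` is the quotient of a complex torus of dimension `d` by a finite group which acts
freely (a torus, a bielliptic surface, a hyperelliptic manifold). Its canonical bundle is torsion,
so `K_X` is pseudo-effective, and a line bundle `L` with `L ^ m ⊗ K_X^*` nef for some `m ≥ 1` is nef. The
theorem says that then some line bundle numerically equivalent to `L ^ N(d)` is base point free,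
where `N(d)` depends only on the dimension; that `L ^ N(d)` itself is base point free for all nef `L`
exactly if `H^1(X, O_X) = 0`; and that no exponent is good for all dimensions.

`latt`, `IsTorusQuotient`, `LineBundle`, `LineBundle.pow` and `LineBundle.IsTrivial` are defined in
`Pool.Agent.W594.SYZ.Defs2`; `IsChernForm` and `IsNefForm` in `Pool.Agent.W594.SYZ.TQDefs`;
`HOneZero` in `Pool.Agent.TH735.AQ.Defs`; `order` (the order of `G`) and `BasePointFree` (for every
point some global section does not vanish there) in `Pool.Agent.Q42.EB.Main`.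
-/

set_option autoImplicit false

universe u

namespace Pool.Agent.Results.MP_1149f4_ag.EffectiveTorusQuotients

open Pool.Agent.W594.SYZ2 Pool.Agent.TH735.AQ Pool.Agent.Q42.EB

/-- The exponent `4 ((3 ^ (4 d ^ 2))!) ^ 3`. -/
def N (d : ℕ) : ℕ := 4 * (3 ^ (2 * d) ^ 2).factorial ^ 3

/-- The line bundle is the canonical bundle of `X = V / Γ`: `f(v) dv_1 ⋯ dv_d` is invariant under `Γ`
if and only if `f` transforms as a section. -/
def IsCanonical {V : Type u} [NormedAddCommGroup V] [NormedSpace ℂ V]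
    {Γ : Subgroup (V ≃ᵃ[ℂ] V)} (K : LineBundle Γ) : Prop :=
  ∀ (γ : Γ) (v : V), K.e γ v * LinearMap.det ((γ : V ≃ᵃ[ℂ] V).linear : V →ₗ[ℂ] V) = 1

theorem bpf_pow {V : Type*} [NormedAddCommGroup V] [NormedSpace ℂ V]
    {Γ : Subgroup (V ≃ᵃ[ℂ] V)} {M : LineBundle Γ} (h : BasePointFree M) (k : ℕ) :
    BasePointFree (M.pow k) := by
  intro v
  obtain ⟨s, hs, h0⟩ := h v
  refine ⟨fun w => s w ^ k, ⟨hs.holo.pow k, fun γ w => ?_⟩, pow_ne_zero k h0⟩
  show s _ ^ k = M.e γ w ^ k * s w ^ k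
  rw [hs.eq γ w, mul_pow]

theorem nef_smul {V : Type*} [NormedAddCommGroup V] [NormedSpace ℂ V] {H : V → V → ℂ} {k : ℕ}
    (hk : 1 ≤ k) : IsNefForm (fun v w => (k : ℂ) * H v w) ↔ IsNefForm H := by
  have hk0 : (0 : ℝ) < k := by exact_mod_cast hk
  have hr : ∀ v, ((k : ℂ) * H v v).re = (k : ℝ) * (H v v).re := fun v => by
    have : ((k : ℕ) : ℂ) = ((k : ℝ) : ℂ) := by push_cast; rfl
    rw [this, Complex.re_ofReal_mul]
  constructor
  · intro h v
    have h2 := h v
    rw [hr] at h2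
    exact nonneg_of_mul_nonneg_right h2 hk0
  · intro h v
    show 0 ≤ ((k : ℂ) * H v v).re
    rw [hr]
    exact mul_nonneg hk0.le (h v)

/-- The determinants of the linear parts are roots of unity. -/
theorem det_pow {V : Type u} [NormedAddCommGroup V] [NormedSpace ℂ V] [FiniteDimensional ℂ V]
    {Γ : Subgroup (V ≃ᵃ[ℂ] V)} (hΓ : IsTorusQuotient Γ) (γ : Γ) :
    LinearMap.det ((γ : V ≃ᵃ[ℂ] V).linear : V →ₗ[ℂ] V) ^ order Γ = 1 := by
  have := TQ.finite_Lin hΓ
  let g : TQ.Lin Γ := ⟨(γ : V ≃ᵃ[ℂ] V).linear, ⟨γ, γ.2, rfl⟩⟩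
  have h1 : g ^ Nat.card (TQ.Lin Γ) = 1 := pow_card_eq_one'
  have h2 : ((γ : V ≃ᵃ[ℂ] V).linear : V ≃ₗ[ℂ] V) ^ order Γ = 1 := by
    have := congrArg Subtype.val h1
    exact this
  have h3 : (((γ : V ≃ᵃ[ℂ] V).linear : V →ₗ[ℂ] V)) ^ order Γ = 1 := by
    have h4 := congrArg (fun e : V ≃ₗ[ℂ] V => (e : V →ₗ[ℂ] V)) h2
    have h5 : ∀ n : ℕ, ((((γ : V ≃ᵃ[ℂ] V).linear) ^ n : V ≃ₗ[ℂ] V) : V →ₗ[ℂ] V) =
        (((γ : V ≃ᵃ[ℂ] V).linear : V →ₗ[ℂ] V)) ^ n := by
      intro n
      induction n with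
      | zero => rfl
      | succ n ih => rw [pow_succ, pow_succ, ← ih]; rfl
    rw [← h5]
    exact h4
  rw [← map_pow, h3, map_one]

/-- The canonical bundle of a smooth torus quotient. -/
theorem exists_canonical {V : Type u} [NormedAddCommGroup V] [NormedSpace ℂ V]
    [FiniteDimensional ℂ V] {Γ : Subgroup (V ≃ᵃ[ℂ] V)}
    (hfree : ∀ γ ∈ Γ, γ ≠ 1 → ∀ v, γ v ≠ v) : ∃ K : LineBundle Γ, IsCanonical K := by
  have hdet : ∀ γ : Γ, LinearMap.det ((γ : V ≃ᵃ[ℂ] V).linear : V →ₗ[ℂ] V) ≠ 0 := fun γ =>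
    (LinearEquiv.isUnit_det' (γ : V ≃ᵃ[ℂ] V).linear).ne_zero
  refine ⟨⟨fun γ _ => (LinearMap.det ((γ : V ≃ᵃ[ℂ] V).linear : V →ₗ[ℂ] V))⁻¹,
    fun γ => differentiable_const _, fun γ v => inv_ne_zero (hdet γ), fun γ δ v => ?_,
    fun γ v h => ?_⟩, fun γ v => inv_mul_cancel₀ (hdet γ)⟩
  · have h1 : (((γ * δ : Γ) : V ≃ᵃ[ℂ] V).linear : V →ₗ[ℂ] V) =
        ((γ : V ≃ᵃ[ℂ] V).linear : V →ₗ[ℂ] V) ∘ₗ ((δ : V ≃ᵃ[ℂ] V).linear : V →ₗ[ℂ] V) := rfl
    rw [h1, LinearMap.det_comp, mul_inv]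
  · by_cases hg : (γ : V ≃ᵃ[ℂ] V) = 1
    · rw [hg]
      have : (((1 : V ≃ᵃ[ℂ] V).linear : V ≃ₗ[ℂ] V) : V →ₗ[ℂ] V) = LinearMap.id := rfl
      rw [this, LinearMap.det_id, inv_one]
    · exact absurd h (hfree _ γ.2 hg v)

/-- Some base point free line bundle on `X` has the Chern form `k H`. -/
def NumBPF {V : Type u} [NormedAddCommGroup V] [NormedSpace ℂ V] (Γ : Subgroup (V ≃ᵃ[ℂ] V))
    (H : V → V → ℂ) (k : ℕ) : Prop :=
  ∃ M : LineBundle Γ, IsChernForm M (fun v w => (k : ℂ) * H v w) ∧ BasePointFree M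

/-- For every line bundle `L` on `X` with Chern form `H`, the line bundle `T = L ^ m ⊗ K^*` has the Chern
form `m H`, and the following are equivalent: `L` is nef; `L ^ m ⊗ K^*` is nef for some `m ≥ 1`; some
base point free line bundle has the Chern form `N(d) H`; some base point free line bundle has the
Chern form `k H`, for some `k ≥ 1` (`L` is numerically semiample). -/
def NefIffNumericallySemiample {V : Type u} [NormedAddCommGroup V] [NormedSpace ℂ V]
    {Γ : Subgroup (V ≃ᵃ[ℂ] V)} (K : LineBundle Γ) : Prop :=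
  ∀ (L : LineBundle Γ) (H : V → V → ℂ), IsChernForm L H →
    (∀ (m : ℕ) (T : LineBundle Γ), (∀ γ v, T.e γ v * K.e γ v = L.e γ v ^ m) →
      IsChernForm T (fun v w => (m : ℂ) * H v w)) ∧
    List.TFAE [IsNefForm H, ∃ m : ℕ, 1 ≤ m ∧ IsNefForm (fun v w => (m : ℂ) * H v w),
      NumBPF Γ H (N (Module.finrank ℂ V)), ∃ k : ℕ, 1 ≤ k ∧ NumBPF Γ H k]

/-- `H^1(X, O_X) = 0` if and only if `L ^ N(d)` is base point free for all nef `L`, if and only if all
nef `L` are semiample. -/
def SemiampleIffHOneZero {V : Type u} [NormedAddCommGroup V] [NormedSpace ℂ V]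
    (Γ : Subgroup (V ≃ᵃ[ℂ] V)) : Prop :=
  List.TFAE [HOneZero Γ,
    ∀ (L : LineBundle Γ) (H : V → V → ℂ), IsChernForm L H → IsNefForm H →
      BasePointFree (L.pow (N (Module.finrank ℂ V))),
    ∀ (L : LineBundle Γ) (H : V → V → ℂ), IsChernForm L H → IsNefForm H →
      ∃ k : ℕ, 1 ≤ k ∧ BasePointFree (L.pow k)]

/-- The action of `Γ` on `V` is free (so that `X` is smooth). -/
def IsFree {V : Type u} [NormedAddCommGroup V] [NormedSpace ℂ V]
    (Γ : Subgroup (V ≃ᵃ[ℂ] V)) : Prop := ∀ γ ∈ Γ, γ ≠ 1 → ∀ v, γ v ≠ v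

/-- (1) Let `X = V / Γ` be a smooth torus quotient of dimension `d` (`Γ` acts freely). The canonical
bundle `K` exists, it is torsion, of order dividing `|G|`. Let `L` be a line bundle on `X` with Chern
form `H`. Then `L ^ m ⊗ K^*` has the Chern form `m H`, and the following are equivalent: `L` is nef;
`L ^ m ⊗ K^*` is nef for some `m ≥ 1`; some base point free line bundle has the Chern form `N(d) H`
(`L` is numerically semiample, effectively); for some `k ≥ 1` some base point free line bundle has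
the Chern form `k H` (`L` is numerically semiample).

(2) `H^1(X, O_X) = 0` if and only if all nef line bundles on `X` are semiample, and then `L ^ N(d)` is
base point free for all nef `L`.

(3) For every odd prime `p` there are such an `X` of dimension `p + 1` with `K_X = 0`, and a nef line
bundle `L` on `X` with a nonzero section, such that `L ^ k` is base point free only if `p` divides
`k`. -/
theorem result :
    (∀ (V : Type u) [NormedAddCommGroup V] [NormedSpace ℂ V] [FiniteDimensional ℂ V]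
      (Γ : Subgroup (V ≃ᵃ[ℂ] V)), IsTorusQuotient Γ → IsFree Γ →
      (∃ K : LineBundle Γ, IsCanonical K) ∧
      (∀ K : LineBundle Γ, IsCanonical K → (K.pow (order Γ)).IsTrivial ∧
        NefIffNumericallySemiample K) ∧
      SemiampleIffHOneZero Γ) ∧
    ∀ p : ℕ, p.Prime → p ≠ 2 →
      ∃ (V : Type) (_ : NormedAddCommGroup V) (_ : NormedSpace ℂ V) (_ : FiniteDimensional ℂ V)
        (Γ : Subgroup (V ≃ᵃ[ℂ] V)) (L : LineBundle Γ) (H : V → V → ℂ),
        Module.finrank ℂ V = p + 1 ∧ IsTorusQuotient Γ ∧ IsFree Γ ∧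
        (∀ γ ∈ Γ, LinearMap.det (γ.linear : V →ₗ[ℂ] V) = 1) ∧ IsChernForm L H ∧ IsNefForm H ∧
        (∃ s, L.IsSection s ∧ s ≠ 0) ∧ ∀ k : ℕ, BasePointFree (L.pow k) → p ∣ k := by
  refine ⟨?_, ?_⟩
  · intro V _ _ _ Γ hΓ hfree
    have hN : 1 ≤ N (Module.finrank ℂ V) := Q47.EB.expo_pos _
    refine ⟨exists_canonical hfree, fun K hK => ⟨?_, fun L H hc => ⟨fun m T hT => ?_, ?_⟩⟩, ?_⟩
    · refine ⟨fun _ => 1, ⟨differentiable_const _, fun γ v => ?_⟩, fun v => one_ne_zero⟩
      show (1 : ℂ) = K.e γ v ^ order Γ * 1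
      have h1 := hK γ v
      have h2 := congrArg (fun z => z ^ order Γ) h1
      simp only [mul_pow, det_pow hΓ γ, one_pow] at h2
      rw [h2]
    · obtain ⟨hH, F, hF, hFe⟩ := hc
      have hr : ∀ z : ℂ, ((m : ℂ) * z).re = (m : ℝ) * z.re := fun z => by
        have : ((m : ℕ) : ℂ) = ((m : ℝ) : ℂ) := by push_cast; rfl
        rw [this, Complex.re_ofReal_mul]
      refine ⟨⟨fun u v w => ?_, fun a v w => ?_, fun v w => ?_⟩, fun v => (m : ℂ) * F v,
        hF.const_mul _, fun γ v => ?_⟩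
      · rw [hH.add_left, mul_add]
      · rw [hH.smul_left]
        ring
      · rw [map_mul, Complex.conj_natCast, ← hH.symm]
      · have hKn : ‖K.e γ v‖ = 1 := by
          have h1 := hK γ v
          have h3 : K.e γ v ^ order Γ = 1 := by
            have h2 := congrArg (fun z => z ^ order Γ) h1
            simpa only [mul_pow, det_pow hΓ γ, one_pow, mul_one] using h2
          exact Complex.norm_eq_one_of_pow_eq_one h3 (by have := order_pos hΓ; omega)
        have hTn : ‖T.e γ v‖ = ‖L.e γ v‖ ^ m := by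
          rw [← norm_pow, ← hT γ v, norm_mul, hKn, mul_one]
        rw [hTn, ← pow_mul, mul_comm m 2, pow_mul, hFe, ← Real.exp_nat_mul]
        congr 1
        simp only [hr]
        ring
    · tfae_have 1 → 2 := fun h => ⟨1, le_rfl, (nef_smul le_rfl).2 h⟩
      tfae_have 2 → 1 := fun ⟨m, hm, h⟩ => (nef_smul hm).1 h
      tfae_have 1 → 3 := by
        intro hn
        obtain ⟨M, hM, hb⟩ := numerical_bpf hΓ hc hn
        obtain ⟨t, ht⟩ : order Γ ∣ (3 ^ (2 * Module.finrank ℂ V) ^ 2).factorial :=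
          Q47.EB.card_Lin_dvd hΓ
        refine ⟨M.pow (t ^ 3), ?_, bpf_pow hb _⟩
        have h1 := chern_pow hM (t ^ 3)
        convert h1 using 3
        rw [← mul_assoc]
        congr 1
        rw [N, ht, ← Nat.cast_mul]
        congr 1
        ring
      tfae_have 3 → 4 := fun ⟨M, hM, hb⟩ => ⟨_, hN, M, hM, hb⟩
      tfae_have 4 → 1 := by
        rintro ⟨k, hk, M, hM, hb⟩
        obtain ⟨s, hs, h0⟩ := bpf_pow hb 1 0
        exact (nef_smul hk).1 (nef_of_pow hΓ hM (le_refl 1) hs (fun h => h0 (by rw [h]; rfl)))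
      tfae_finish
    · unfold SemiampleIffHOneZero
      tfae_have 1 → 2 := by
        rintro h01 L H ⟨hH, F, hF, hFe⟩ hn
        exact Q47.EB.gg_of_hone hΓ h01 hH ⟨hF, hFe⟩ hn
      tfae_have 2 → 3 := fun h L H hc hn => ⟨_, hN, h L H hc hn⟩
      tfae_have 3 → 1 := by
        intro h
        by_contra h01
        obtain ⟨P, hP, hbad⟩ := exists_bad hΓ h01
        obtain ⟨k, hk, hb⟩ := h P _ (chern_of_flat hP) (fun _ => le_rfl)
        obtain ⟨s, hs, h0⟩ := hb 0
        exact h0 (by rw [hbad k hk s hs]; rfl)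
      tfae_finish
  · intro p hp h2
    obtain ⟨V, i1, i2, i3, Γ, β, L, H, h1, h2, h3, h4, h5, h6, h7, h8, h9, h10, h11⟩ :=
      Q47.EB.Ex3.exists_pair p hp h2
    refine ⟨V, i1, i2, i3, Γ, L, H, h1, h2, h3, h4, h9, h10, ⟨β, ⟨h6, fun γ v => ?_⟩, ?_⟩, h11⟩
    · have := h8 0 γ v
      simpa using this
    · rintro rfl
      obtain ⟨v, hv⟩ := h7
      exact hv rfl

end Pool.Agent.Results.MP_1149f4_ag.EffectiveTorusQuotients
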