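import Pool.Agent.Q33.UR.Codim

/-!
MP_1209e6_ag: a projective variety with a Zariski-dense curve given by linear differential equations
over a differential ring of transcendence degree `c` contains unirational subvarieties of codimension
at most `c` through the general points of the curve.
-/

set_option autoImplicit false

namespace Pool.Agent.Results.MP_1209e6_ag.DenseLinearCurves

open MvPolynomial Set Pool.Agent.TH143 Pool.Agent.TH143.GT Pool.Agent.Q33.UR
open Pool.Agent.W602.GT (IsForm)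
open Pool.Agent.Q33.OD (LinSys polyB)
open Pool.Agent.Q33.SP (Unirational)

/-- Let `X` be the irreducible projective variety `F = 0` with the homogeneous ideal `p`, the
function field `K`, the dimension `w` and the generic point `y`.

(1) Let `Ω` be a domain in the complex plane, and `B` a ring of holomorphic functions on `Ω` which
contains the constants, is closed under `d / dz`, and such that any `c + 1` elements of `B` are
algebraically dependent over the complex numbers. Let `f : Ω → X` be a Zariski-dense holomorphic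
curve, given by a linear system over `B`: `f = M u` where `s u' = A u`, with matrices `A`, `M` over
`B` and `0 ≠ s ∈ B`. Let `e = w - c ≥ 0`. There are `e + 1` coordinates `j 0, …, j e` such that for
all `z ∈ Ω` outside a countable set there is a polynomial map `W` from an affine space to `X`, with
`f z` in its image, such that the `e` ratios `W (j l) / W (j 0)` are algebraically independent over
the complex numbers: through `f z` there is a unirational subvariety of `X` of codimension at most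
`c`.

(2) In particular, let `f` be a Zariski-dense entire curve in `X`, given by a linear system over
`ℂ[z]`. Then for all `z` outside a countable set there is a unirational subvariety of `X` of
codimension at most one through `f z`.

(3) The following are equivalent: `X` is unirational; there is a Zariski-dense entire curve in `X`
whose homogeneous coordinates are linear combinations of exponentials `exp (μ z)`; for some `Ω` and
some `B` of transcendence degree `c = 0`, there is a Zariski-dense curve as in (1). -/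
theorem result {N : ℕ} {ι : Type} (F : ι → MvPolynomial (Fin (N + 1)) ℂ) (hF : ∀ i, IsForm (F i))
    (p : Ideal (MvPolynomial (Fin (N + 1)) ℂ)) [p.IsPrime]
    (hp : ∀ H, H ∈ p ↔ ∀ x, (∀ i, eval x (F i) = 0) → eval x H = 0)
    (K : Type) [Field K] [Algebra ℂ K] (w : ℕ) (y : Fin (N + 1) → K) (hy : FunField p 1 K w y) :
    -- (1)
    (∀ (Ω : Set ℂ) (B : Subalgebra ℂ (ℂ → ℂ)) (r c e : ℕ) (f : ℂ → Fin (N + 1) → ℂ),
      IsOpen Ω → IsPreconnected Ω → Ω.Nonempty → DiffRing Ω B → TrdegLe Ω B c →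
      (∀ i, AnalyticOnNhd ℂ (fun z => f z i) Ω) → (∀ z ∈ Ω, ∀ i, eval (f z) (F i) = 0) →
      LinSys r Ω B f → ZDense p f Ω → w = e + c →
      ∃ (j : Fin (e + 1) → Fin (N + 1)) (E : Set ℂ), E.Countable ∧ ∀ z ∈ Ω \ E, f z (j 0) ≠ 0 ∧
        ∃ (m : ℕ) (W : Fin (N + 1) → MvPolynomial (Fin m) ℂ) (t0 : Fin m → ℂ),
          (∀ i, eval t0 (W i) = f z i) ∧ (∀ t i, eval (fun l => eval t (W l)) (F i) = 0) ∧
          NoRel fun l => W (j l)) ∧
    -- (2)
    (∀ (r e : ℕ) (f : ℂ → Fin (N + 1) → ℂ), (∀ i, Differentiable ℂ fun z => f z i) →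
      (∀ z i, eval (f z) (F i) = 0) → LinSys r univ polyB f → ZDense p f univ → w = e + 1 →
      ∃ (j : Fin (e + 1) → Fin (N + 1)) (E : Set ℂ), E.Countable ∧ ∀ z ∉ E, f z (j 0) ≠ 0 ∧
        ∃ (m : ℕ) (W : Fin (N + 1) → MvPolynomial (Fin m) ℂ) (t0 : Fin m → ℂ),
          (∀ i, eval t0 (W i) = f z i) ∧ (∀ t i, eval (fun l => eval t (W l)) (F i) = 0) ∧
          NoRel fun l => W (j l)) ∧
    -- (3)
    [ Unirational y,
      ∃ (r : ℕ) (f : ℂ → Fin (N + 1) → ℂ), ExpSum r f ∧ (∀ z i, eval (f z) (F i) = 0) ∧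
        ZDense p f univ,
      ∃ (Ω : Set ℂ) (B : Subalgebra ℂ (ℂ → ℂ)) (r : ℕ) (f : ℂ → Fin (N + 1) → ℂ),
        IsOpen Ω ∧ IsPreconnected Ω ∧ Ω.Nonempty ∧ DiffRing Ω B ∧ TrdegLe Ω B 0 ∧
        (∀ i, AnalyticOnNhd ℂ (fun z => f z i) Ω) ∧ (∀ z ∈ Ω, ∀ i, eval (f z) (F i) = 0) ∧
        LinSys r Ω B f ∧ ZDense p f Ω].TFAE := by
  have hFp : ∀ i, F i ∈ p := fun i => (hp _).2 fun x hx => hx i
  have key : ∀ (Ω : Set ℂ) (B : Subalgebra ℂ (ℂ → ℂ)) (r c e : ℕ) (f : ℂ → Fin (N + 1) → ℂ),
      IsOpen Ω → IsPreconnected Ω → Ω.Nonempty → DiffRing Ω B → TrdegLe Ω B c →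
      (∀ i, AnalyticOnNhd ℂ (fun z => f z i) Ω) → (∀ z ∈ Ω, ∀ i, eval (f z) (F i) = 0) →
      LinSys r Ω B f → ZDense p f Ω → w = e + c →
      ∃ (j : Fin (e + 1) → Fin (N + 1)) (E : Set ℂ), E.Countable ∧ ∀ z ∈ Ω \ E, f z (j 0) ≠ 0 ∧
        ∃ (m : ℕ) (W : Fin (N + 1) → MvPolynomial (Fin m) ℂ) (t0 : Fin m → ℂ),
          (∀ i, eval t0 (W i) = f z i) ∧ (∀ t i, eval (fun l => eval t (W l)) (F i) = 0) ∧
          NoRel fun l => W (j l) := by
    intro Ω B r c e f hΩ hΩc hne hB hc hf hX hlin hd hw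
    subst hw
    obtain ⟨j, hj⟩ := codim_le hy hΩc hne hB hc hf hd
    obtain ⟨E, hE, h⟩ := through_gen hΩ hΩc hB f hf hlin j hj
    refine ⟨j, E, hE, fun z hz => ?_⟩
    obtain ⟨h0, m, W, t0, h1, h2, h3⟩ := h z hz
    refine ⟨h0, m, W, t0, h1, fun t i => ?_, h3⟩
    have h4 := h2 (F i) (hF i) fun s hs => hX s hs i
    have h5 := MvPolynomial.comp_aeval_apply (f := W)
      (aeval t : MvPolynomial (Fin m) ℂ →ₐ[ℂ] ℂ) (F i)
    rw [h4, map_zero] at h5
    exact h5.symm
  refine ⟨key, ?_, ?_⟩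
  · intro r e f hf hX hlin hd hw
    obtain ⟨j, E, hE, h⟩ := key univ polyB r 1 e f isOpen_univ isPreconnected_univ univ_nonempty
      polyB_ring trdegLe_polyB
      (fun i => (hf i).differentiableOn.analyticOnNhd isOpen_univ) (fun z _ => hX z) hlin hd hw
    exact ⟨j, E, hE, fun z hz => h z ⟨mem_univ z, hz⟩⟩
  · tfae_have 1 → 2 := by
      intro h
      obtain ⟨r, f, h1, h2, h3⟩ := exp_of_unirational hy h
      exact ⟨r, f, h1, fun z i => h2 z _ (hFp i) (hF i), zdense_of_nonDeg univ_nonempty h3⟩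
    tfae_have 2 → 3 := by
      rintro ⟨r, f, h1, h2, h3⟩
      refine ⟨univ, ⊥, r, f, isOpen_univ, isPreconnected_univ, univ_nonempty, bot_ring,
        trdegLe_bot, fun i => (h1.diff i).differentiableOn.analyticOnNhd isOpen_univ,
        fun z _ => h2 z, ?_, h3⟩
      rcases h1.linSys (Ω := univ) (B := ⊥) with h4 | h4
      · exact h4
      · exact absurd h4 (univ_nonempty (α := ℂ)).ne_empty
    tfae_have 3 → 1 := by
      rintro ⟨Ω, B, r, f, h1, h2, h3, h4, h5, h6, h7, h8, h9⟩
      exact unirational_of_full h1 h2 h3 h4 h6 h8 (fun z hz H hH => (hp H).1 hH _ (h7 z hz)) hy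
        (codim_le (w := w) (c := 0) hy h2 h3 h4 h5 h6 h9)
    tfae_finish

end Pool.Agent.Results.MP_1209e6_ag.DenseLinearCurves
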