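import Mathlib

/-!
# Square roots of metric spaces under the Euclidean product metric

The Euclidean square `A²` of a metric space `A` is Mathlib's `WithLp 2 (A × A)`, whose distance is
`√(ρ(a₁, a₃)² + ρ(a₂, a₄)²)`.

Counterexample: `A = ℚ` and `B = √2 ℚ` (as subspaces of the real line).  The rotation of the plane
by 45 degrees carries `ℚ × ℚ` onto `√2 ℚ × √2 ℚ`, while the distance `1` occurs in `A` and not in
`B`.
-/

set_option autoImplicit false

namespace Pool.Agent.Results.MP_1231ed_gt.RotatedRationals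

open Real

/-- The rational numbers inside the real line. -/
noncomputable def A : AddSubgroup ℝ := (Rat.castHom ℝ).toAddMonoidHom.range

/-- The rational multiples of `√2` inside the real line. -/
noncomputable def B : AddSubgroup ℝ := A.map (AddMonoidHom.mulLeft (√2))

lemma mem_A {x : ℝ} : x ∈ A ↔ ∃ q : ℚ, (q : ℝ) = x := Iff.rfl

lemma mem_B {x : ℝ} : x ∈ B ↔ ∃ q : ℚ, √2 * (q : ℝ) = x := by
  constructor
  · rintro ⟨y, ⟨q, rfl⟩, rfl⟩
    exact ⟨q, rfl⟩
  · rintro ⟨q, rfl⟩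
    exact ⟨q, ⟨q, rfl⟩, rfl⟩

lemma sq2 : √2 * √2 = 2 := Real.mul_self_sqrt (by norm_num)

lemma sq2_ne : √2 ≠ 0 := by positivity

lemma rot_A {x y : ℝ} (hx : x ∈ A) (hy : y ∈ A) : (x - y) / √2 ∈ B ∧ (x + y) / √2 ∈ B := by
  obtain ⟨p, rfl⟩ := mem_A.1 hx
  obtain ⟨q, rfl⟩ := mem_A.1 hy
  constructor
  · refine mem_B.2 ⟨(p - q) / 2, ?_⟩
    rw [eq_div_iff sq2_ne]
    push_cast
    linear_combination ((p : ℝ) - q) / 2 * sq2
  · refine mem_B.2 ⟨(p + q) / 2, ?_⟩
    rw [eq_div_iff sq2_ne]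
    push_cast
    linear_combination ((p : ℝ) + q) / 2 * sq2

lemma rot_B {x y : ℝ} (hx : x ∈ B) (hy : y ∈ B) : (x + y) / √2 ∈ A ∧ (y - x) / √2 ∈ A := by
  obtain ⟨p, rfl⟩ := mem_B.1 hx
  obtain ⟨q, rfl⟩ := mem_B.1 hy
  constructor
  · refine mem_A.2 ⟨p + q, ?_⟩
    rw [eq_div_iff sq2_ne]
    push_cast
    ring
  · refine mem_A.2 ⟨q - p, ?_⟩
    rw [eq_div_iff sq2_ne]
    push_cast
    ring

/-- The rotation by 45 degrees. -/
noncomputable def rot : WithLp 2 (A × A) ≃ᵢ WithLp 2 (B × B) where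
  toFun z := WithLp.toLp 2 (⟨_, (rot_A z.fst.2 z.snd.2).1⟩, ⟨_, (rot_A z.fst.2 z.snd.2).2⟩)
  invFun w := WithLp.toLp 2 (⟨_, (rot_B w.fst.2 w.snd.2).1⟩, ⟨_, (rot_B w.fst.2 w.snd.2).2⟩)
  left_inv z := by
    have h := sq2
    have h0 := sq2_ne
    apply (WithLp.equiv 2 _).injective
    refine Prod.ext (Subtype.ext ?_) (Subtype.ext ?_)
    · change ((z.fst.1 - z.snd.1) / √2 + (z.fst.1 + z.snd.1) / √2) / √2 = z.fst.1
      field_simp
      rw [Real.sq_sqrt (by norm_num)]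
      ring
    · change ((z.fst.1 + z.snd.1) / √2 - (z.fst.1 - z.snd.1) / √2) / √2 = z.snd.1
      field_simp
      rw [Real.sq_sqrt (by norm_num)]
      ring
  right_inv w := by
    have h := sq2
    have h0 := sq2_ne
    apply (WithLp.equiv 2 _).injective
    refine Prod.ext (Subtype.ext ?_) (Subtype.ext ?_)
    · change ((w.fst.1 + w.snd.1) / √2 - (w.snd.1 - w.fst.1) / √2) / √2 = w.fst.1
      field_simp
      rw [Real.sq_sqrt (by norm_num)]
      ring
    · change ((w.fst.1 + w.snd.1) / √2 + (w.snd.1 - w.fst.1) / √2) / √2 = w.snd.1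
      field_simp
      rw [Real.sq_sqrt (by norm_num)]
      ring
  isometry_toFun := by
    refine Isometry.of_dist_eq fun z w => ?_
    rw [WithLp.prod_dist_eq_of_L2, WithLp.prod_dist_eq_of_L2]
    congr 1
    change |(z.fst.1 - z.snd.1) / √2 - (w.fst.1 - w.snd.1) / √2| ^ 2 +
      |(z.fst.1 + z.snd.1) / √2 - (w.fst.1 + w.snd.1) / √2| ^ 2 =
      |z.fst.1 - w.fst.1| ^ 2 + |z.snd.1 - w.snd.1| ^ 2
    simp only [sq_abs]
    have h := sq2_ne
    field_simp
    rw [Real.sq_sqrt (by norm_num)]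
    ring

lemma not_isometric : IsEmpty (A ≃ᵢ B) := by
  refine ⟨fun e => ?_⟩
  have h1 : (1 : ℝ) ∈ A := mem_A.2 ⟨1, by simp⟩
  have h := e.dist_eq ⟨1, h1⟩ 0
  have h2 : dist (⟨1, h1⟩ : A) 0 = 1 := by
    change |(1 : ℝ) - 0| = 1
    simp
  rw [h2] at h
  obtain ⟨p, hp⟩ := mem_B.1 (e ⟨1, h1⟩).2
  obtain ⟨q, hq⟩ := mem_B.1 (e 0).2
  change |((e ⟨1, h1⟩ : B) : ℝ) - ((e 0 : B) : ℝ)| = 1 at h
  rw [← hp, ← hq, ← mul_sub, abs_mul, abs_of_nonneg (Real.sqrt_nonneg 2)] at h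
  refine irrational_sqrt_two ⟨|p - q|⁻¹, ?_⟩
  push_cast
  rw [inv_eq_one_div, div_eq_iff, ← h]
  intro h0
  rw [h0, mul_zero] at h
  exact zero_ne_one h

/-- There are two countable subgroups `A`, `B` of the real line, which are not isometric as metric
spaces, although their Euclidean squares `A²`, `B²` are isometric. -/
theorem result : ∃ A B : AddSubgroup ℝ, Countable A ∧ Countable B ∧
    Nonempty (WithLp 2 (A × A) ≃ᵢ WithLp 2 (B × B)) ∧ IsEmpty (A ≃ᵢ B) := by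
  refine ⟨A, B, ?_, ?_, ⟨rot⟩, not_isometric⟩
  · have : (A : Set ℝ).Countable := Set.countable_range _
    exact this.to_subtype
  · have : (B : Set ℝ).Countable := (Set.countable_range _).image _
    exact this.to_subtype

end Pool.Agent.Results.MP_1231ed_gt.RotatedRationals
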