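import Mathlib
import Pool.Agent.Q177.CompE

/-!
# MP_12983e_an: all continuous solutions of `f (x + f x) = f x + f (f x)`
-/

set_option autoImplicit false

namespace Pool.Agent.Results.MP_12983e_an.Classification

/-- A continuous function `f : ℝ → ℝ` satisfies `f (x + f x) = f x + f (f x)` for all real `x` if
and only if either `f x = a * x` for all `x`, with some real `a`, or there are `a, b ≥ 0` such that
`f x = a * x` for `x ≥ 0` and `f x = b * x` for `x ≤ 0`. -/
theorem result (f : ℝ → ℝ) (hf : Continuous f) :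
    (∀ x : ℝ, f (x + f x) = f x + f (f x)) ↔
      (∃ a : ℝ, ∀ x : ℝ, f x = a * x) ∨
      (∃ a b : ℝ, 0 ≤ a ∧ 0 ≤ b ∧ (∀ x : ℝ, 0 ≤ x → f x = a * x) ∧
        (∀ x : ℝ, x ≤ 0 → f x = b * x)) :=
  Q177.Comp.classification f hf

end Pool.Agent.Results.MP_12983e_an.Classification
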