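import Pool.Agent.Q28.FG.High

/-!
# The generalized Bloch conjecture and finite generation under correspondences

Let `X` be a smooth projective complex variety of dimension `n`, let `A_i^hom(X)` be the group of
homologically trivial cycles of dimension `i` modulo rational equivalence, with rational
coefficients, and `c ≥ 0`.

* `A_i^hom(X) = 0` for all `i < c` if and only if `A_i^hom(X)` is a finitely generated module over
  the ring of self-correspondences `CH^n(X × X)` for all `i < c`, if and only if these groups are
  generated, under arbitrary correspondences `Γ ∈ CH^*(V × X)`, by one algebraically trivial cycle on
  some variety `V`, or by countably many algebraically trivial cycles on varieties `V l`.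
* `X` has algebraic coniveau at least `c` (a decomposition of the diagonal in cohomology; it implies
  Hodge coniveau at least `c`, and the converse is part of the conjectures of Hodge and Grothendieck)
  if and only if the groups `A_i^hom(X)`, `i < c`, are generated in this sense by one homologically
  trivial cycle, or by countably many homologically trivial cycles.

So for algebraic coniveau the generalized Bloch conjecture says that generators which are
homologically trivial can be replaced by generators which are algebraically trivial.
-/

open CategoryTheory AlgebraicGeometry

universe u v w

namespace Pool.Agent.Results.MP_13bc1c_ag.FiniteGeneration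

open Pool.Agent.H914 Pool.Agent.H914.VarClass Pool.Agent.H914.VarClass.Obj Pool.Agent.W492.BB
  Pool.Agent.TH133 Pool.Agent.Q28.PV Pool.Agent.Q28.AL Pool.Agent.Q28.FG

/-- **The generalized Bloch conjecture and finite generation.** Let `C` be the Chow theory with
rational coefficients and `H` a Weil cohomology theory on the smooth projective varieties over the
complex numbers (`hP`: known facts on algebraic cycles), `X` a variety and `c` a natural number. In
terms of the codimension `j` the groups `A_i^hom(X)` with `i < c` are those with `dim X < j + c`.

1. Equivalent: `X` has algebraic coniveau at least `c`; there is one homologically trivial cycle `g`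
  on a variety `V` such that for `i < c` all elements of `A_i^hom(X)` are of the form `Γ_* g`; for
  `i < c` the elements of `A_i^hom(X)` are sums of classes `Γ_* (g l)` for countably many
  homologically trivial cycles `g l` on varieties `V l`.
2. Equivalent: `A_i^hom(X) = 0` for `i < c`; `A_i^hom(X)` is a finitely generated module over the ring
  `CH^(dim X)(X × X)` for `i < c`; the last two statements of 1 with algebraically trivial cycles `g`
  and `g l`. -/
theorem result {k : Type u} [Field k] {𝒱 : VarClass k} {C : TheoryData.{u, v, 0} 𝒱 ℚ}
    [IsChowProj C] {K : Type w} [Field K] {H : WeilTheoryData.{u, v, w} C K} [IsWeilProj H]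
    (hP : Principles H) (X : 𝒱.Obj) (c : ℕ) :
    [AlgebraicConiveau H X c, OneGeneratorUpTo H (HomTriv H) X c,
      CountablyGeneratedUpTo H (HomTriv H) X c].TFAE ∧
    [BlochUpTo H X c, FinitelyGeneratedUpTo H X c, OneGeneratorUpTo H (AlgTriv H) X c,
      CountablyGeneratedUpTo H (AlgTriv H) X c].TFAE :=
  main hP X c

end Pool.Agent.Results.MP_13bc1c_ag.FiniteGeneration
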