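import Mathlib
import Pool.Agent.Q136.FanoData

/-!
# A 2-design whose spectrum of minimal defining set sizes has holes

Let `D` be the simple `2-(7,3,4)` design whose 28 blocks are all the triples that are not lines of
the Fano plane.  Its minimal defining sets have the sizes `7, 8, 9, 10, 13`; so `11` and `12` are
holes of the spectrum.
-/

open Finset

namespace Pool.Agent.Results.MP_13ec72_co.FanoComplement

/-- `B` is the block set of a (simple) `t-(v,k,lam)` design on the point set `Fin v`: all blocks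
have `k` points and every `t`-set of points lies in exactly `lam` blocks. -/
def IsDesign (t v k lam : ℕ) (B : Finset (Finset (Fin v))) : Prop :=
  (∀ b ∈ B, b.card = k) ∧ ∀ T : Finset (Fin v), T.card = t → (B.filter (fun b => T ⊆ b)).card = lam

/-- `S` is a defining set of the design `B`: `S ⊆ B`, and `B` is the only `t-(v,k,lam)` design on
the same point set whose block set contains `S`. -/
def IsDefining (t v k lam : ℕ) (B S : Finset (Finset (Fin v))) : Prop :=
  S ⊆ B ∧ ∀ B' : Finset (Finset (Fin v)), IsDesign t v k lam B' → S ⊆ B' → B' = B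

/-- A defining set is minimal if no proper subset of it is a defining set. -/
def IsMinimalDefining (t v k lam : ℕ) (B S : Finset (Finset (Fin v))) : Prop :=
  IsDefining t v k lam B S ∧ ∀ S' ⊂ S, ¬ IsDefining t v k lam B S'

/-- The spectrum: the set of the sizes of the minimal defining sets. -/
def Spec (t v k lam : ℕ) (B : Finset (Finset (Fin v))) : Set ℕ :=
  {m | ∃ S, IsMinimalDefining t v k lam B S ∧ S.card = m}

/-- A set `A` of integers has a hole: some `m` strictly between two members of `A` is not in `A`. -/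
def HasHole (A : Set ℕ) : Prop := ∃ a ∈ A, ∃ b ∈ A, ∃ m, a < m ∧ m < b ∧ m ∉ A

/-- The seven lines of the Fano plane. -/
def fano : Finset (Finset (Fin 7)) :=
  {{0, 1, 2}, {0, 3, 4}, {0, 5, 6}, {1, 3, 5}, {1, 4, 6}, {2, 3, 6}, {2, 4, 5}}

/-- The 28 triples that are not lines of the Fano plane. -/
def D : Finset (Finset (Fin 7)) := univ.filter (fun b => b.card = 3 ∧ b ∉ fano)

open Q136.FanoSpec Q136.HitDFS

/-- the triples whose indices are bits of the mask `m` -/
def tr (m : ℕ) : Finset (Finset (Fin 7)) := ((range 35).filter (fun i => m.testBit i)).image tri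

lemma tri_injOn : Set.InjOn tri (range 35 : Finset ℕ) := by
  intro i hi j hj h
  exact tri_inj i (by simpa using hi) j (by simpa using hj) h

lemma D_eq : D = (range 28).image tri := by decide +kernel

lemma mem_tr {m i : ℕ} (hi : i < 35) : tri i ∈ tr m ↔ m.testBit i = true := by
  unfold tr
  constructor
  · intro h
    obtain ⟨j, hj, hji⟩ := mem_image.1 h
    obtain ⟨hj1, hj2⟩ := mem_filter.1 hj
    have := tri_inj j (by simpa using hj1) i hi hji
    rw [← this]; exact hj2
  · intro h
    exact mem_image.2 ⟨i, mem_filter.2 ⟨by simpa using hi, h⟩, rfl⟩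

lemma tri_mem_D {i : ℕ} (hi : i < 35) : tri i ∈ D ↔ i < 28 := by
  rw [D_eq]
  constructor
  · intro h
    obtain ⟨j, hj, hji⟩ := mem_image.1 h
    have hj' : j < 28 := by simpa using hj
    have := tri_inj j (by omega) i hi hji
    omega
  · intro h
    exact mem_image.2 ⟨i, by simpa using h, rfl⟩

lemma exists_of_mem_D {b : Finset (Fin 7)} (hb : b ∈ D) : ∃ i < 28, tri i = b := by
  rw [D_eq] at hb
  obtain ⟨j, hj, hji⟩ := mem_image.1 hb
  exact ⟨j, by simpa using hj, hji⟩

/-- number of blocks of a family of triples through a pair, in terms of indices -/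
lemma card_through (B : Finset (Finset (Fin 7))) (hB : ∀ b ∈ B, b.card = 3) (T : Finset (Fin 7)) :
    (B.filter (fun b => T ⊆ b)).card =
      ((range 35).filter (fun i => T ⊆ tri i ∧ tri i ∈ B)).card := by
  have h : B.filter (fun b => T ⊆ b) =
      ((range 35).filter (fun i => T ⊆ tri i ∧ tri i ∈ B)).image tri := by
    ext b
    simp only [mem_filter, mem_image, mem_range]
    constructor
    · rintro ⟨h1, h2⟩
      obtain ⟨i, hi, rfl⟩ := tri_surj b (hB b h1)
      exact ⟨i, ⟨hi, h2, h1⟩, rfl⟩
    · rintro ⟨i, ⟨hi, h2, h1⟩, rfl⟩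
      exact ⟨h1, h2⟩
  rw [h, card_image_of_injOn]
  exact tri_injOn.mono (by
    intro i hi
    have := (mem_filter.1 (mem_coe.1 hi)).1
    exact mem_coe.2 this)

/-- a mask with four triples through every pair gives a design -/
lemma isDesign_tr (m : ℕ) (h : ∀ q ∈ pairs, popc (m &&& q.1) 35 = 4) :
    IsDesign 2 7 3 4 (tr m) := by
  have h3 : ∀ b ∈ tr m, b.card = 3 := by
    intro b hb
    obtain ⟨i, hi, rfl⟩ := mem_image.1 hb
    exact tri_card i (by simpa using (mem_filter.1 hi).1)
  refine ⟨h3, ?_⟩
  intro T hT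
  obtain ⟨a, b, hab, rfl⟩ := card_eq_two.1 hT
  obtain ⟨q, hq, hqi⟩ := pairs_ex a b hab
  rw [card_through _ h3, ← h q hq, popc_eq]
  congr 1
  apply filter_congr
  intro i hi
  have hi' : i < 35 := by simpa using hi
  rw [Nat.testBit_and, Bool.and_eq_true, mem_tr hi', ← hqi i hi']
  exact and_comm

lemma D_isDesign : IsDesign 2 7 3 4 D := by
  have h : D = tr (2 ^ 28 - 1) := by decide +kernel
  rw [h]
  apply isDesign_tr
  decide +kernel

/-- Every set of the family is the set of missed blocks of another design. -/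
lemma other_design (f : ℕ × List ℕ) (hf : f ∈ fam) : ∃ B' : Finset (Finset (Fin 7)),
    IsDesign 2 7 3 4 B' ∧ B' ≠ D ∧ ∀ i < 28, i ∉ f.2 → tri i ∈ B' := by
  obtain ⟨m, -, hm1, hm2⟩ := comps_ex f hf
  refine ⟨tr m, isDesign_tr m hm1, ?_, ?_⟩
  · intro h
    obtain ⟨i, hi, -⟩ := fam_ne f hf
    have hi28 := fam_lt' f hf i hi
    have h1 : tri i ∈ D := (tri_mem_D (by omega)).2 hi28
    rw [← h, mem_tr (by omega), hm2 i hi28] at h1
    exact h1 hi
  · intro i hi hif
    rw [mem_tr (by omega), hm2 i hi]
    exact hif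

/-- Every other design misses all the blocks of some set of the family. -/
lemma complete (B' : Finset (Finset (Fin 7))) (hB : IsDesign 2 7 3 4 B') :
    B' = D ∨ ∃ f ∈ fam, ∀ i ∈ f.2, tri i ∉ B' := by
  classical
  let N : ℕ → Prop := fun i => i < 35 ∧ tri i ∉ B'
  -- exactly one missing triple through every pair
  have hone : ∀ q ∈ pairs, ∃ i, ∀ j, (q.1.testBit j = true ∧ N j) ↔ j = i := by
    intro q hq
    obtain ⟨a, b, hab, hqi⟩ := pairs_ex' q hq
    have h1 := hB.2 {a, b} (card_pair hab)
    rw [card_through _ hB.1] at h1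
    have h2 := pairs_popc q hq
    rw [popc_eq] at h2
    have h3 : ((range 35).filter (fun i => q.1.testBit i)).filter (fun i => tri i ∈ B') =
        (range 35).filter (fun i => {a, b} ⊆ tri i ∧ tri i ∈ B') := by
      rw [filter_filter]
      apply filter_congr
      intro i hi
      have hi' : i < 35 := by simpa using hi
      simp only [← hqi i hi']
    have h4 := card_filter_add_card_filter_not
      (s := (range 35).filter (fun i => q.1.testBit i)) (fun i => tri i ∈ B')
    rw [h3, h1, h2] at h4
    have h5 : (((range 35).filter (fun i => q.1.testBit i)).filter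
      (fun i => ¬ tri i ∈ B')).card = 1 := by omega
    obtain ⟨i, hi⟩ := card_eq_one.1 h5
    refine ⟨i, fun j => ?_⟩
    have h6 : j ∈ ((range 35).filter (fun i => q.1.testBit i)).filter
      (fun i => ¬ tri i ∈ B') ↔ j = i := by rw [hi]; simp
    rw [← h6]
    simp only [mem_filter, mem_range, N]
    tauto
  have huniq : ∀ q ∈ pairs, ∀ i j, q.1.testBit i = true → q.1.testBit j = true → N i → N j →
      i = j := by
    intro q hq i j hi hj hNi hNj
    obtain ⟨k, hk⟩ := hone q hq
    have h1 := (hk i).1 ⟨hi, hNi⟩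
    have h2 := (hk j).1 ⟨hj, hNj⟩
    rw [h1, h2]
  refine dfs_sound N pairs goodPair okPlane
    (B' = D ∨ ∃ f ∈ fam, ∀ i ∈ f.2, tri i ∉ B') ?_ ?_ ?_ 10 0 0 (by simp) (by simp) check_planes
  · intro q hq
    obtain ⟨i, hi⟩ := hone q hq
    have h1 := (hi i).2 rfl
    exact ⟨i, (pairs_mask q hq i h1.2.1).1 h1.1, h1.2⟩
  · intro S hS
    unfold goodPair
    rw [List.all_eq_true]
    intro q hq
    have e : Nat.land q.1 S = q.1 &&& S := rfl
    rw [e]
    by_cases h0 : q.1 &&& S = 0
    · rw [h0]; rfl
    · obtain ⟨i, hi⟩ := Nat.exists_testBit_of_ne_zero h0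
      rw [Nat.testBit_and, Bool.and_eq_true] at hi
      have h1 : q.1 &&& S = 2 ^ i := by
        apply Nat.eq_of_testBit_eq
        intro j
        rw [Nat.testBit_and, Nat.testBit_two_pow]
        by_cases hj : i = j
        · subst hj; simp [hi.1, hi.2]
        · simp only [hj, decide_false]
          cases h3 : q.1.testBit j with
          | false => simp
          | true =>
            cases h4 : S.testBit j with
            | false => simp
            | true => exact absurd (huniq q hq i j hi.1 h3 (hS i hi.2) (hS j h4)) hj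
      rw [h1]
      exact pow2?_two_pow i
  · intro S hS hhit hok
    have hNS : ∀ i, N i → S.testBit i = true := by
      intro i hi
      obtain ⟨q, hq, hqi⟩ := pairs_cover i hi.1
      obtain ⟨j, hj⟩ := Nat.exists_testBit_of_ne_zero (hhit q hq)
      rw [Nat.testBit_and, Bool.and_eq_true] at hj
      rw [huniq q hq i j hqi hj.1 hi (hS j hj.2)]
      exact hj.2
    unfold okPlane at hok
    rw [Bool.or_eq_true] at hok
    rcases hok with hok | hok
    · left
      have hSe : S = 34091302912 := Nat.eq_of_beq_eq_true hok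
      have hbit : ∀ i < 35, Nat.testBit 34091302912 i = true ↔ ¬ i < 28 := by decide +kernel
      ext b
      constructor
      · intro hb
        obtain ⟨i, hi, rfl⟩ := tri_surj b (hB.1 b hb)
        rw [tri_mem_D hi]
        by_contra hcon
        have h1 : S.testBit i = true := by rw [hSe]; exact (hbit i hi).2 hcon
        exact (hS i h1).2 hb
      · intro hb
        obtain ⟨i, hi, rfl⟩ := exists_of_mem_D hb
        by_contra hcon
        have h1 := hNS i ⟨by omega, hcon⟩
        rw [hSe] at h1
        exact (hbit i (by omega)).1 h1 hi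
    · right
      rw [List.any_eq_true] at hok
      obtain ⟨f, hf, hfS⟩ := hok
      have hfS' : f.1 &&& S = f.1 := Nat.eq_of_beq_eq_true hfS
      refine ⟨f, hf, fun i hi => ?_⟩
      have hi28 := fam_lt' f hf i hi
      have h1 := (fam_mask f hf i hi28).2 hi
      rw [← hfS', Nat.testBit_and, Bool.and_eq_true] at h1
      exact (hS i h1.2).2

/-- Defining sets are the sets of blocks that hit all the sets of the family. -/
lemma isDefining_iff (S : Finset (Finset (Fin 7))) (hSD : S ⊆ D) :
    IsDefining 2 7 3 4 D S ↔ ∀ f ∈ fam, ∃ i ∈ f.2, tri i ∈ S := by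
  constructor
  · intro h f hf
    by_contra hcon
    push Not at hcon
    obtain ⟨B', hB1, hB2, hB3⟩ := other_design f hf
    apply hB2
    apply h.2 B' hB1
    intro b hb
    obtain ⟨i, hi, rfl⟩ := exists_of_mem_D (hSD hb)
    exact hB3 i hi (fun hif => hcon i hif hb)
  · intro h
    refine ⟨hSD, fun B' hB' hS => ?_⟩
    rcases complete B' hB' with h1 | ⟨f, hf, h1⟩
    · exact h1
    · obtain ⟨i, hi, hiS⟩ := h f hf
      exact absurd (hS hiS) (h1 i hi)

/-- An element of a minimal defining set has a private member of the family. -/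
lemma exists_private (S : Finset (Finset (Fin 7))) (h : IsMinimalDefining 2 7 3 4 D S) (i : ℕ)
    (hi : i < 28) (hiS : tri i ∈ S) :
    ∃ f ∈ fam, i ∈ f.2 ∧ ∀ j ∈ f.2, tri j ∈ S → j = i := by
  have h1 := h.2 (S.erase (tri i)) (erase_ssubset hiS)
  rw [isDefining_iff _ ((erase_subset _ _).trans h.1.1)] at h1
  push Not at h1
  obtain ⟨f, hf, hf2⟩ := h1
  have h3 : ∀ j ∈ f.2, tri j ∈ S → j = i := by
    intro j hj hjS
    have h4 := hf2 j hj
    rw [mem_erase] at h4
    push Not at h4
    by_contra hne
    exact h4 (fun he => hne (tri_inj j (by have := fam_lt' f hf j hj; omega) i (by omega) he)) hjS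
  obtain ⟨j, hj, hjS⟩ := ((isDefining_iff S h.1.1).1 h.1) f hf
  have := h3 j hj hjS
  subst this
  exact ⟨f, hf, hj, h3⟩

lemma exists_index (f : ℕ × List ℕ) (hf : f ∈ fam) : ∃ k < 29, fam.getD k (0, []) = f := by
  obtain ⟨k, hk, hkf⟩ := List.getElem_of_mem hf
  rw [fam_length] at hk
  refine ⟨k, hk, ?_⟩
  rw [List.getD_eq_getElem _ _ (by rw [fam_length]; exact hk)]
  exact hkf

lemma getD_mem (k : ℕ) (hk : k < 29) : fam.getD k (0, []) ∈ fam := by
  rw [List.getD_eq_getElem _ _ (by rw [fam_length]; exact hk)]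
  exact List.getElem_mem _

/-- The sizes of minimal defining sets. -/
lemma card_of_minimal (S : Finset (Finset (Fin 7))) (h : IsMinimalDefining 2 7 3 4 D S) :
    S.card = 7 ∨ S.card = 8 ∨ S.card = 9 ∨ S.card = 10 ∨ S.card = 13 := by
  let M : Finset ℕ := (range 28).filter (fun i => tri i ∈ S)
  have hM : ∀ i, i ∈ M ↔ i < 28 ∧ tri i ∈ S := by
    intro i; simp [M]
  have hcard : S.card = M.card := by
    have hSi : S = M.image tri := by
      ext b
      simp only [mem_image, hM]
      constructor
      · intro hb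
        obtain ⟨i, hi, rfl⟩ := exists_of_mem_D (h.1.1 hb)
        exact ⟨i, ⟨hi, hb⟩, rfl⟩
      · rintro ⟨i, ⟨hi, h1⟩, rfl⟩
        exact h1
    conv_lhs => rw [hSi]
    rw [card_image_of_injOn]
    apply tri_injOn.mono
    intro i hi
    have h1 := (hM i).1 (mem_coe.1 hi)
    exact mem_coe.2 (mem_range.2 (by omega))
  refine Q136.HitTree.search_sound' H M okSize
    (S.card = 7 ∨ S.card = 8 ∨ S.card = 9 ∨ S.card = 10 ∨ S.card = 13) rows ?_ ?_ ?_ check_spec
  · intro i hi
    obtain ⟨hi28, hiS⟩ := (hM i).1 hi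
    obtain ⟨f, hf, h1, h2⟩ := exists_private S h i hi28 hiS
    obtain ⟨k, hk, rfl⟩ := exists_index f hf
    refine ⟨k, rows_all k hk, (H_fam k hk i hi28).2 h1, fun j hj hjk => ?_⟩
    obtain ⟨hj28, hjS⟩ := (hM j).1 hj
    exact h2 j ((H_fam k hk j hj28).1 hjk) hjS
  · intro hok
    rw [hcard]
    unfold okSize at hok
    simp only [Bool.or_eq_true] at hok
    rcases hok with (((hok | hok) | hok) | hok) | hok
    · exact Or.inl (Nat.eq_of_beq_eq_true hok)
    · exact Or.inr (Or.inl (Nat.eq_of_beq_eq_true hok))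
    · exact Or.inr (Or.inr (Or.inl (Nat.eq_of_beq_eq_true hok)))
    · exact Or.inr (Or.inr (Or.inr (Or.inl (Nat.eq_of_beq_eq_true hok))))
    · exact Or.inr (Or.inr (Or.inr (Or.inr (Nat.eq_of_beq_eq_true hok))))
  · intro r hr
    obtain ⟨k, hk, h1, h2, h3⟩ := rows_ok r hr
    obtain ⟨i, hi, hiS⟩ := ((isDefining_iff S h.1.1).1 h.1) _ (getD_mem k hk)
    refine ⟨k, h1, ?_, i, (hM i).2 ⟨fam_lt' _ (getD_mem k hk) i hi, hiS⟩, h3 i hi⟩
    intro e he
    obtain ⟨j, -, hj⟩ := h2 e he
    exact ⟨j, hj⟩

/-- A mask with the right properties is a minimal defining set. -/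
lemma minimal_of_mask (s : ℕ)
    (h1 : ∀ f ∈ fam, ∃ i ∈ f.2, s.testBit i = true)
    (h2 : ∀ i < 28, s.testBit i = true → ∃ f ∈ fam, i ∈ f.2 ∧ ∀ j ∈ f.2, s.testBit j = true → j = i)
    (h3 : ∀ i < 35, s.testBit i = true → i < 28) :
    popc s 35 ∈ Spec 2 7 3 4 D := by
  have hsub : tr s ⊆ D := by
    intro b hb
    obtain ⟨i, hi, rfl⟩ := mem_image.1 hb
    obtain ⟨hi1, hi2⟩ := mem_filter.1 hi
    have hi' : i < 35 := by simpa using hi1
    exact (tri_mem_D hi').2 (h3 i hi' hi2)
  refine ⟨tr s, ⟨?_, ?_⟩, ?_⟩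
  · rw [isDefining_iff _ hsub]
    intro f hf
    obtain ⟨i, hi, his⟩ := h1 f hf
    have := fam_lt' f hf i hi
    exact ⟨i, hi, (mem_tr (by omega)).2 his⟩
  · intro S' hS' hdef
    obtain ⟨b, hb, hbS'⟩ := exists_of_ssubset hS'
    obtain ⟨i, hi, rfl⟩ := mem_image.1 hb
    obtain ⟨hi1, hi2⟩ := mem_filter.1 hi
    have hi' : i < 35 := by simpa using hi1
    obtain ⟨f, hf, hif, hpr⟩ := h2 i (h3 i hi' hi2) hi2
    obtain ⟨j, hj, hjS'⟩ := ((isDefining_iff S' (hS'.subset.trans hsub)).1 hdef) f hf
    have hj28 := fam_lt' f hf j hj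
    have h4 := hS'.subset hjS'
    rw [mem_tr (by omega)] at h4
    have := hpr j hj h4
    subst this
    exact hbS' hjS'
  · unfold tr
    rw [popc_eq, card_image_of_injOn]
    apply tri_injOn.mono
    intro i hi
    exact mem_coe.2 (mem_filter.1 (mem_coe.1 hi)).1

/-- **A hole in the spectrum of a design.** The 28 non-lines of the Fano plane form a
`2-(7,3,4)` design whose minimal defining sets have exactly the sizes `7, 8, 9, 10, 13`;
so this spectrum has a hole. -/
theorem result : IsDesign 2 7 3 4 D ∧ Spec 2 7 3 4 D = {7, 8, 9, 10, 13} ∧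
    HasHole (Spec 2 7 3 4 D) := by
  have hspec : Spec 2 7 3 4 D = {7, 8, 9, 10, 13} := by
    ext m
    simp only [Set.mem_insert_iff, Set.mem_singleton_iff]
    constructor
    · rintro ⟨S, hS, rfl⟩
      exact card_of_minimal S hS
    · rintro (rfl | rfl | rfl | rfl | rfl)
      · exact minimal_of_mask 131855 (by decide +kernel) (by decide +kernel) (by decide +kernel)
      · exact minimal_of_mask 67241795 (by decide +kernel) (by decide +kernel) (by decide +kernel)
      · exact minimal_of_mask 304011 (by decide +kernel) (by decide +kernel) (by decide +kernel)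
      · exact minimal_of_mask 142906123 (by decide +kernel) (by decide +kernel) (by decide +kernel)
      · exact minimal_of_mask 155800426 (by decide +kernel) (by decide +kernel) (by decide +kernel)
  refine ⟨D_isDesign, hspec, ?_⟩
  rw [hspec]
  exact ⟨10, by simp, 13, by simp, 11, by norm_num, by norm_num, by simp⟩

end Pool.Agent.Results.MP_13ec72_co.FanoComplement
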