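import Mathlib

set_option autoImplicit false

/-!
# Group algebras of the generic countable group are semiprimitive

For the generic countably infinite group `G` (in the Polish space of all group operations on `ℕ`) the
group algebra `K[G]` is semiprimitive for all fields `K`, in particular `ℚ[G]` is.

Certificate: finite subgroups `H < H'` of `G` of order prime to the characteristic such that
`s H' ⊆ H s H` for all `s` in a given finite set `S` of nontrivial elements. Then
`e = e_H - e_{H'}` is a nonzero idempotent with `e s e = 0` for `s ∈ S`, hence `e a e = a(1) e` for all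
`a` supported on `S ∪ {1}`. Such subgroups exist generically: take the wreath product with a cyclic
group of order `q`, `H` = the functions supported on `S⁻¹` and `H'` = the functions supported on
`S⁻¹ ∪ {1}`.
-/

namespace Pool.Agent.Results.MP_146d92_al.GenericSemiprimitive

open MonoidAlgebra

universe u

/-- `(ℕ, m)` is a group. -/
def IsGroupOp (m : ℕ × ℕ → ℕ) : Prop :=
  (∀ a b c, m (m (a, b), c) = m (a, m (b, c))) ∧
    ∃ e, (∀ a, m (e, a) = a ∧ m (a, e) = a) ∧ ∀ a, ∃ b, m (b, a) = e

/-- The space of all group operations on `ℕ`, with the topology inherited from the product space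
`ℕ ^ (ℕ × ℕ)` (`ℕ` discrete). -/
abbrev GroupSpace : Type := {m : ℕ × ℕ → ℕ // IsGroupOp m}

/-- The group `(ℕ, m)`. -/
def Grp (_ : GroupSpace) : Type := ℕ

noncomputable instance groupGrp (m : GroupSpace) : Group (Grp m) where
  mul a b := m.1 (a, b)
  one := m.2.2.choose
  inv a := (m.2.2.choose_spec.2 a).choose
  mul_assoc a b c := m.2.1 a b c
  one_mul a := (m.2.2.choose_spec.1 a).1
  mul_one a := (m.2.2.choose_spec.1 a).2
  inv_mul_cancel a := (m.2.2.choose_spec.2 a).choose_spec

/-! ### The algebraic part -/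

section algebra

variable {G : Type u} [Group G]

/-- The certificate for the finite set `S`: finite subgroups `H < H'` whose orders are powers of `q`
such that `s H' ⊆ H s H` for `s ∈ S`. -/
def Cert (G : Type u) [Group G] (S : Finset G) (q : ℕ) (H H' : Finset G) : Prop :=
  (∀ a ∈ H, ∀ b ∈ H, a * b ∈ H) ∧ (∀ a ∈ H', ∀ b ∈ H', a * b ∈ H') ∧ H.Nonempty ∧ H ⊂ H' ∧
  (∃ i, H.card = q ^ i) ∧ (∃ i, H'.card = q ^ i) ∧
  ∀ s ∈ S, ∀ x ∈ H', ∃ k ∈ H, ∃ h ∈ H, s * x = k * s * h

variable {K : Type*} [Field K]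

/-- the average over a finite set -/
noncomputable def av (K : Type*) [Field K] (H : Finset G) : MonoidAlgebra K G :=
  (H.card : K)⁻¹ • ∑ h ∈ H, of K G h

theorem of_mul_av {H : Finset G} (hH : ∀ a ∈ H, ∀ b ∈ H, a * b ∈ H) {h : G} (hh : h ∈ H) :
    of K G h * av K H = av K H := by
  classical
  have himg : H.image (fun x => h * x) = H := by
    apply Finset.eq_of_subset_of_card_le
    · intro x hx
      obtain ⟨y, hy, rfl⟩ := Finset.mem_image.1 hx
      exact hH _ hh _ hy
    · rw [Finset.card_image_of_injective _ (mul_right_injective h)]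
  unfold av
  rw [mul_smul_comm, Finset.mul_sum]
  congr 1
  conv_rhs => rw [← himg, Finset.sum_image (fun a _ b _ hab => mul_right_injective h hab)]
  exact Finset.sum_congr rfl fun x _ => ((of K G).map_mul h x).symm

theorem av_mul_of {H : Finset G} (hH : ∀ a ∈ H, ∀ b ∈ H, a * b ∈ H) {h : G} (hh : h ∈ H) :
    av K H * of K G h = av K H := by
  classical
  have himg : H.image (fun x => x * h) = H := by
    apply Finset.eq_of_subset_of_card_le
    · intro x hx
      obtain ⟨y, hy, rfl⟩ := Finset.mem_image.1 hx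
      exact hH _ hy _ hh
    · rw [Finset.card_image_of_injective _ (mul_left_injective h)]
  unfold av
  rw [smul_mul_assoc, Finset.sum_mul]
  congr 1
  conv_rhs => rw [← himg, Finset.sum_image (fun a _ b _ hab => mul_left_injective h hab)]
  exact Finset.sum_congr rfl fun x _ => ((of K G).map_mul x h).symm

theorem av_mul_av {H L : Finset G} (hL : ∀ a ∈ L, ∀ b ∈ L, a * b ∈ L) (hHL : H ⊆ L)
    (hc : (H.card : K) ≠ 0) : av K H * av K L = av K L := by
  have h1 : (∑ h ∈ H, of K G h) * av K L = (H.card : K) • av K L := by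
    rw [Finset.sum_mul, Finset.sum_congr rfl fun h hh => of_mul_av hL (hHL hh), Finset.sum_const,
      Nat.cast_smul_eq_nsmul]
  have h2 : av K H * av K L = (H.card : K)⁻¹ • ((∑ h ∈ H, of K G h) * av K L) := smul_mul_assoc _ _ _
  rw [h2, h1, smul_smul, inv_mul_cancel₀ hc, one_smul]

theorem av_mul_av' {H L : Finset G} (hL : ∀ a ∈ L, ∀ b ∈ L, a * b ∈ L) (hHL : H ⊆ L)
    (hc : (H.card : K) ≠ 0) : av K L * av K H = av K L := by
  have h1 : av K L * (∑ h ∈ H, of K G h) = (H.card : K) • av K L := by
    rw [Finset.mul_sum, Finset.sum_congr rfl fun h hh => av_mul_of hL (hHL hh), Finset.sum_const,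
      Nat.cast_smul_eq_nsmul]
  have h2 : av K L * av K H = (H.card : K)⁻¹ • (av K L * (∑ h ∈ H, of K G h)) := mul_smul_comm _ _ _
  rw [h2, h1, smul_smul, inv_mul_cancel₀ hc, one_smul]

/-- A certificate gives a nonzero idempotent `e` with `e s e = 0` for `s ∈ S`. -/
theorem exists_idempotent {S : Finset G} {q : ℕ} {H H' : Finset G} (hC : Cert G S q H H')
    (hq : (q : K) ≠ 0) :
    ∃ e : MonoidAlgebra K G, e ≠ 0 ∧ e * e = e ∧ ∀ s ∈ S, e * of K G s * e = 0 := by
  classical
  obtain ⟨h1, h2, hne, hss, ⟨i, hi⟩, ⟨j, hj⟩, hS⟩ := hC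
  have hc : (H.card : K) ≠ 0 := by rw [hi]; push_cast; exact pow_ne_zero _ hq
  have hc' : (H'.card : K) ≠ 0 := by rw [hj]; push_cast; exact pow_ne_zero _ hq
  have e11 : av K H * av K H = av K H := av_mul_av h1 subset_rfl hc
  have e22 : av K H' * av K H' = av K H' := av_mul_av h2 subset_rfl hc'
  have e12 : av K H * av K H' = av K H' := av_mul_av h2 hss.1 hc
  have e21 : av K H' * av K H = av K H' := av_mul_av' h2 hss.1 hc
  refine ⟨av K H - av K H', ?_, ?_, ?_⟩
  · intro h0
    obtain ⟨x, hx', hx⟩ := Finset.exists_of_ssubset hss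
    have hco : ∀ L : Finset G, (av K L).coeff x = if x ∈ L then (L.card : K)⁻¹ else 0 := by
      intro L
      unfold av
      rw [coeff_smul_apply, coeff_sum, Finsupp.finsetSum_apply]
      simp only [of_apply, coeff_single, Finsupp.single_apply]
      rw [Finset.sum_ite_eq' L x]
      split_ifs <;> simp
    have h3 := congrArg (fun y : MonoidAlgebra K G => y.coeff x) h0
    simp only [coeff_sub, Finsupp.sub_apply, coeff_zero, Finsupp.zero_apply, hco, hx, hx', if_true,
      if_false, zero_sub, neg_eq_zero, inv_eq_zero] at h3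
    exact hc' h3
  · rw [sub_mul, mul_sub, mul_sub, e11, e12, e21, e22]; abel
  · intro s hs
    have key : av K H * of K G s * av K H' = av K H * of K G s * av K H := by
      have k1 : av K H * of K G s * av K H' * av K H = av K H * of K G s * av K H' := by
        rw [mul_assoc (av K H * of K G s), e21]
      have k2 : ∀ x ∈ H', av K H * of K G s * of K G x * av K H = av K H * of K G s * av K H := by
        intro x hx
        obtain ⟨k, hk, h, hh, hkh⟩ := hS s hs x hx
        rw [mul_assoc (av K H), ← map_mul, hkh, map_mul, map_mul, ← mul_assoc, ← mul_assoc,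
          av_mul_of h1 hk, mul_assoc (av K H * of K G s), of_mul_av h1 hh]
      rw [← k1]
      have k3 : av K H * of K G s * (∑ x ∈ H', of K G x) * av K H =
          (H'.card : K) • (av K H * of K G s * av K H) := by
        rw [Finset.mul_sum, Finset.sum_mul, Finset.sum_congr rfl k2, Finset.sum_const,
          Nat.cast_smul_eq_nsmul]
      have k4 : av K H * of K G s * av K H' = (H'.card : K)⁻¹ • (av K H * of K G s *
        (∑ x ∈ H', of K G x)) := mul_smul_comm _ _ _
      rw [k4, smul_mul_assoc, k3, smul_smul, inv_mul_cancel₀ hc', one_smul]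
    have k4 : (av K H - av K H') * av K H = av K H - av K H' := by
      rw [sub_mul, e11, e21]
    rw [← k4, mul_assoc (av K H - av K H'), mul_assoc (av K H - av K H'), k4, mul_sub, key, sub_self,
      mul_zero]

/-- An idempotent in the Jacobson radical is zero. -/
theorem idem_jacobson {R : Type*} [Ring R] {e : R} (he : e * e = e) (hj : e ∈ Ring.jacobson R) :
    e = 0 := by
  rw [← Ideal.jacobson_bot] at hj
  obtain ⟨z, hz⟩ := Ideal.mem_jacobson_iff.1 hj (-1)
  have h1 : z * (1 - e) = 1 := by
    have h2 : z * -1 * e + z - 1 = 0 := by simpa using hz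
    have h3 : z * (1 - e) = z * -1 * e + z := by noncomm_ring
    rw [h3]; exact sub_eq_zero.1 h2
  have h4 : z * (1 - e) * e = 0 := by
    rw [mul_assoc, sub_mul, one_mul, he, sub_self, mul_zero]
  rw [h1, one_mul] at h4
  exact h4

/-- If all finite sets of nontrivial elements have certificates then the group algebra is
semiprimitive. -/
theorem jacobson_eq_bot (hq : ∃ q : ℕ, (q : K) ≠ 0 ∧ ∀ S : Finset G, 1 ∉ S →
    ∃ H H' : Finset G, Cert G S q H H') : Ring.jacobson (MonoidAlgebra K G) = ⊥ := by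
  classical
  obtain ⟨q, hq0, hcert⟩ := hq
  rw [eq_bot_iff]
  intro a ha
  rw [Ideal.mem_bot]
  by_contra hne
  have hsupp : a.coeff.support.Nonempty := by
    rw [Finsupp.support_nonempty_iff]
    exact fun h => hne (coeff_eq_zero.1 h)
  obtain ⟨g, hg⟩ := hsupp
  set b : MonoidAlgebra K G := a * of K G g⁻¹ with hb
  have hbj : b ∈ Ring.jacobson (MonoidAlgebra K G) := Ideal.mul_mem_right _ _ ha
  have hb1 : b.coeff 1 = a.coeff g := by
    rw [hb, of_apply, coeff_mul_single_apply]
    simp
  have hb1' : b.coeff 1 ≠ 0 := by rw [hb1]; exact Finsupp.mem_support_iff.1 hg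
  obtain ⟨H, H', hC⟩ := hcert (b.coeff.support.erase 1) (by simp)
  obtain ⟨e, he0, hee, hes⟩ := exists_idempotent hC hq0
  have hsum : b = ∑ s ∈ b.coeff.support, b.coeff s • of K G s := by
    conv_lhs => rw [← sum_coeff_single b]
    unfold Finsupp.sum
    refine Finset.sum_congr rfl fun s _ => ?_
    rw [of_apply, smul_single, smul_eq_mul, mul_one]
  have h1mem : (1 : G) ∈ b.coeff.support := Finsupp.mem_support_iff.2 hb1'
  have hebe : e * b * e = b.coeff 1 • e := by
    have h3 : e * b * e = ∑ s ∈ b.coeff.support, b.coeff s • (e * of K G s * e) := by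
      conv_lhs => rw [hsum]
      rw [Finset.mul_sum, Finset.sum_mul]
      refine Finset.sum_congr rfl fun s _ => ?_
      rw [mul_smul_comm, smul_mul_assoc]
    rw [h3, Finset.sum_eq_single_of_mem 1 h1mem]
    · rw [(of K G).map_one, mul_one, hee]
    · intro s hs hs1
      rw [hes s (Finset.mem_erase.2 ⟨hs1, hs⟩), smul_zero]
  have hej : b.coeff 1 • e ∈ Ring.jacobson (MonoidAlgebra K G) := by
    rw [← hebe]
    exact Ideal.mul_mem_right _ _ (Ideal.mul_mem_left _ _ hbj)
  have hej' : e ∈ Ring.jacobson (MonoidAlgebra K G) := by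
    have h5 : e = (algebraMap K (MonoidAlgebra K G) (b.coeff 1)⁻¹) * (b.coeff 1 • e) := by
      rw [← Algebra.smul_def, smul_smul, inv_mul_cancel₀ hb1', one_smul]
    rw [h5]
    exact Ideal.mul_mem_left _ _ hej
  exact he0 (idem_jacobson hee hej')

end algebra

/-! ### Certificates in a larger group -/

section transfer

theorem Cert.of_map {G : Type} [Group G] {G' : Type} [Group G'] {j : G →* G'} (hj : Function.Injective j) {S H H' : Finset G} {q : ℕ}
    (h : Cert G' (S.map ⟨j, hj⟩) q (H.map ⟨j, hj⟩) (H'.map ⟨j, hj⟩)) : Cert G S q H H' := by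
  obtain ⟨h1, h2, h3, h4, h5, h6, h7⟩ := h
  have hmem : ∀ (L : Finset G) (x : G), j x ∈ L.map ⟨j, hj⟩ ↔ x ∈ L := fun L x =>
    Finset.mem_map' ⟨j, hj⟩
  refine ⟨fun a ha b hb => ?_, fun a ha b hb => ?_, Finset.map_nonempty.1 h3,
    (Finset.map_ssubset_map).1 h4, by simpa using h5, by simpa using h6, fun s hs x hx => ?_⟩
  · rw [← hmem, map_mul]
    exact h1 _ ((hmem _ _).2 ha) _ ((hmem _ _).2 hb)
  · rw [← hmem, map_mul]
    exact h2 _ ((hmem _ _).2 ha) _ ((hmem _ _).2 hb)
  · obtain ⟨k', hk', t', ht', h8⟩ := h7 _ ((hmem _ _).2 hs) _ ((hmem _ _).2 hx)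
    obtain ⟨k, hk, rfl⟩ := Finset.mem_map.1 hk'
    obtain ⟨t, ht, rfl⟩ := Finset.mem_map.1 ht'
    refine ⟨k, hk, t, ht, hj ?_⟩
    rw [map_mul, map_mul, map_mul]
    exact h8

variable {G : Type}

/-- the action of `G` on `G × ZMod q` -/
def tr (G : Type) [Group G] (q : ℕ) : G →* Equiv.Perm (G × ZMod q) where
  toFun g := (Equiv.mulLeft g).prodCongr (Equiv.refl _)
  map_one' := by ext x <;> simp
  map_mul' g h := by ext x <;> simp [mul_assoc]

theorem tr_apply [Group G] (q : ℕ) (g : G) (x : G × ZMod q) : tr G q g x = (g * x.1, x.2) := rfl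

theorem tr_injective [Group G] (q : ℕ) : Function.Injective (tr G q) := by
  intro g h hgh
  have := congrArg (fun p : Equiv.Perm (G × ZMod q) => (p (1, 0)).1) hgh
  simpa [tr_apply] using this

/-- fibrewise translations -/
def sh (q : ℕ) (f : G → ZMod q) : Equiv.Perm (G × ZMod q) where
  toFun x := (x.1, x.2 + f x.1)
  invFun x := (x.1, x.2 - f x.1)
  left_inv x := by simp
  right_inv x := by simp

theorem sh_apply (q : ℕ) (f : G → ZMod q) (x : G × ZMod q) : sh q f x = (x.1, x.2 + f x.1) := rfl

theorem sh_mul (q : ℕ) (f f' : G → ZMod q) : sh q f * sh q f' = sh q (f + f') := by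
  ext x
  · rfl
  · simp only [Equiv.Perm.mul_apply, sh_apply, Pi.add_apply]
    ring

theorem sh_injective (q : ℕ) : Function.Injective (sh (G := G) q) := by
  intro f f' h
  funext x
  have := congrArg (fun p : Equiv.Perm (G × ZMod q) => (p (x, 0)).2) h
  simpa [sh_apply] using this

theorem tr_sh [Group G] (q : ℕ) (g : G) (f : G → ZMod q) :
    tr G q g * sh q f = sh q (fun x => f (g⁻¹ * x)) * tr G q g := by
  ext x
  · rfl
  · simp only [Equiv.Perm.mul_apply, sh_apply, tr_apply, inv_mul_cancel_left]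

open Classical in
/-- the translations supported on `F` -/
noncomputable def tra (q : ℕ) [NeZero q] (F : Finset G) : Finset (Equiv.Perm (G × ZMod q)) :=
  (Finset.univ : Finset (F → ZMod q)).image
    fun f => sh q fun x => if h : x ∈ F then f ⟨x, h⟩ else 0

theorem mem_tra {q : ℕ} [NeZero q] {F : Finset G} {p : Equiv.Perm (G × ZMod q)} :
    p ∈ tra q F ↔ ∃ f : G → ZMod q, (∀ x, x ∉ F → f x = 0) ∧ sh q f = p := by
  classical
  unfold tra
  rw [Finset.mem_image]
  constructor
  · rintro ⟨f, -, rfl⟩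
    exact ⟨_, fun x hx => by simp [hx], rfl⟩
  · rintro ⟨f, hf, rfl⟩
    refine ⟨fun x => f x, Finset.mem_univ _, ?_⟩
    congr 1
    funext x
    by_cases h : x ∈ F
    · simp [h]
    · simp [h, hf x h]

theorem card_tra (q : ℕ) [NeZero q] (F : Finset G) : (tra q F).card = q ^ F.card := by
  classical
  unfold tra
  rw [Finset.card_image_of_injective]
  · rw [Finset.card_univ, Fintype.card_fun, ZMod.card, Fintype.card_coe]
  · intro f f' h
    have h1 := sh_injective q h
    funext x
    have h2 := congrFun h1 x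
    simpa using h2

theorem cert_perm [Group G] {q : ℕ} [NeZero q] (hq : 2 ≤ q) {S : Finset G} (hS : 1 ∉ S) [DecidableEq G] :
    Cert (Equiv.Perm (G × ZMod q)) (S.map ⟨tr G q, tr_injective q⟩) q (tra q S)
      (tra q (insert 1 S)) := by
  have : Fact (1 < q) := ⟨hq⟩
  refine ⟨?_, ?_, ?_, ?_, ⟨_, card_tra q S⟩, ⟨_, card_tra q _⟩, ?_⟩
  · intro a ha b hb
    obtain ⟨f, hf, rfl⟩ := mem_tra.1 ha
    obtain ⟨f', hf', rfl⟩ := mem_tra.1 hb
    rw [sh_mul]
    exact mem_tra.2 ⟨_, fun x hx => by simp [hf x hx, hf' x hx], rfl⟩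
  · intro a ha b hb
    obtain ⟨f, hf, rfl⟩ := mem_tra.1 ha
    obtain ⟨f', hf', rfl⟩ := mem_tra.1 hb
    rw [sh_mul]
    exact mem_tra.2 ⟨_, fun x hx => by simp [hf x hx, hf' x hx], rfl⟩
  · exact ⟨_, mem_tra.2 ⟨0, fun _ _ => rfl, rfl⟩⟩
  · rw [Finset.ssubset_iff_subset_ne]
    constructor
    · intro a ha
      obtain ⟨f, hf, rfl⟩ := mem_tra.1 ha
      exact mem_tra.2 ⟨f, fun x hx => hf x fun h => hx (Finset.mem_insert_of_mem h), rfl⟩
    · intro h
      have h1 := congrArg Finset.card h
      rw [card_tra, card_tra, Finset.card_insert_of_notMem hS] at h1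
      have h2 := Nat.pow_right_injective hq h1
      omega
  · intro s' hs' p hp
    obtain ⟨s, hs, rfl⟩ := Finset.mem_map.1 hs'
    obtain ⟨f, hf, rfl⟩ := mem_tra.1 hp
    change ∃ k ∈ tra q S, ∃ h ∈ tra q S, tr G q s * sh q f = k * tr G q s * h
    let f1 : G → ZMod q := fun x => if x = 1 then f x else 0
    let f2 : G → ZMod q := fun x => if x = 1 then 0 else f x
    refine ⟨sh q fun x => f1 (s⁻¹ * x), mem_tra.2 ⟨_, ?_, rfl⟩, sh q f2, mem_tra.2 ⟨_, ?_, rfl⟩, ?_⟩
    · intro x hx
      have : s⁻¹ * x ≠ 1 := by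
        intro h
        apply hx
        rw [← inv_mul_eq_one.1 h]; exact hs
      simp [f1, this]
    · intro x hx
      by_cases h : x = 1
      · simp [f2, h]
      · have : x ∉ insert 1 S := by simp [h, hx]
        simp [f2, h, hf x this]
    · rw [← tr_sh, mul_assoc, sh_mul]
      congr 2
      funext x
      by_cases h : x = 1 <;> simp [f1, f2, h]

/-- A countable group embeds in a countable group with a certificate for a given finite set. -/
theorem exists_cert [Group G] [Countable G] {q : ℕ} (hq : 2 ≤ q) {S : Finset G} (hS : 1 ∉ S) :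
    ∃ (W : Type) (_ : Group W) (_ : Countable W) (ι : G →* W) (hι : Function.Injective ι)
      (H H' : Finset W), Cert W (S.map ⟨ι, hι⟩) q H H' := by
  classical
  have : NeZero q := ⟨by omega⟩
  let P := Equiv.Perm (G × ZMod q)
  let X : Set P := Set.range (tr G q) ∪ ↑(tra q (insert 1 S))
  have hX : X.Countable := (Set.countable_range _).union (Finset.countable_toSet _)
  let W := Subgroup.closure X
  have hW : Countable W := by
    have : Countable X := hX
    have h1 : Function.Surjective (FreeGroup.lift (fun x : X => (x : P))).rangeRestrict :=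
      MonoidHom.rangeRestrict_surjective _
    have h2 : (FreeGroup.lift (fun x : X => (x : P))).range = W := by
      rw [FreeGroup.range_lift_eq_closure, Subtype.range_coe]
    rw [← h2]
    have h3 : Countable (FreeGroup X) := inferInstance
    exact h1.countable
  have hr : ∀ g, tr G q g ∈ W := fun g => Subgroup.subset_closure (Or.inl ⟨g, rfl⟩)
  have hH' : ∀ x ∈ tra q (insert 1 S), x ∈ W := fun x hx =>
    Subgroup.subset_closure (Or.inr hx)
  have hcert := cert_perm hq hS
  have hH : ∀ x ∈ tra q S, x ∈ W := fun x hx => hH' x (hcert.2.2.2.1.1 hx)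
  let ι : G →* W := (tr G q).codRestrict W hr
  have hι : Function.Injective ι := fun g h hgh => tr_injective q (congrArg Subtype.val hgh)
  refine ⟨W, inferInstance, hW, ι, hι, (tra q S).subtype (· ∈ W), (tra q (insert 1 S)).subtype (· ∈ W),
    Cert.of_map (j := W.subtype) Subtype.val_injective ?_⟩
  have e1 : ∀ L : Finset P, (∀ x ∈ L, x ∈ W) →
      (L.subtype (· ∈ W)).map ⟨W.subtype, Subtype.val_injective⟩ = L := by
    intro L hL
    ext x
    simp only [Finset.mem_map, Finset.mem_subtype]
    constructor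
    · rintro ⟨y, hy, rfl⟩; exact hy
    · intro hx; exact ⟨⟨x, hL x hx⟩, hx, rfl⟩
  rw [e1 _ hH, e1 _ hH', Finset.map_map]
  exact hcert

end transfer

/-! ### The generic group -/

/-- a finite set of natural numbers as a set of elements of `(ℕ, m)` -/
def fin (m : GroupSpace) (S : Finset ℕ) : Finset (Grp m) := S

/-- a natural number as an element of `(ℕ, m)` -/
def el (m : GroupSpace) (a : ℕ) : Grp m := a

/-- the groups with a certificate for `S` (or in which `S` contains the neutral element) -/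
def good (q : ℕ) (S : Finset ℕ) : Set GroupSpace :=
  {m | (∃ s ∈ S, m.1 (s, s) = s) ∨ ∃ H H' : Finset (Grp m), Cert (Grp m) (fin m S) q H H'}

theorem isOpen_agree (B : Finset (ℕ × ℕ)) (m : GroupSpace) :
    IsOpen {m' : GroupSpace | ∀ p ∈ B, m'.1 p = m.1 p} := by
  have : {m' : GroupSpace | ∀ p ∈ B, m'.1 p = m.1 p} = ⋂ p ∈ B, {m' : GroupSpace | m'.1 p = m.1 p} := by
    ext m'; simp
  rw [this]
  refine isOpen_biInter_finset fun p _ => ?_
  have hc : Continuous fun m' : GroupSpace => m'.1 p := (continuous_apply p).comp continuous_subtype_val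
  exact (isOpen_discrete {m.1 p}).preimage hc

theorem isOpen_good (q : ℕ) (S : Finset ℕ) : IsOpen (good q S) := by
  classical
  rw [isOpen_iff_forall_mem_open]
  rintro m (⟨s, hs, hss⟩ | ⟨H, H', hC⟩)
  · refine ⟨_, ?_, isOpen_agree {(s, s)} m, fun p _ => rfl⟩
    intro m' hm'
    left
    exact ⟨s, hs, by rw [hm' (s, s) (by simp), hss]⟩
  · let H0 : Finset ℕ := H
    let H0' : Finset ℕ := H'
    let B0 : Finset ℕ := S ∪ H0 ∪ H0' ∪ (H0 ×ˢ S).image m.1
    refine ⟨_, ?_, isOpen_agree (B0 ×ˢ B0) m, fun p _ => rfl⟩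
    intro m' hm'
    right
    have hm : ∀ a ∈ B0, ∀ b ∈ B0, m'.1 (a, b) = m.1 (a, b) := fun a ha b hb =>
      hm' (a, b) (Finset.mem_product.2 ⟨ha, hb⟩)
    have hSB : ∀ a ∈ S, a ∈ B0 := fun a ha => by simp [B0, ha]
    have hHB : ∀ a ∈ H0, a ∈ B0 := fun a ha => by simp [B0, ha]
    have hHB' : ∀ a ∈ H0', a ∈ B0 := fun a ha => by simp [B0, ha]
    have hkB : ∀ a ∈ H0, ∀ b ∈ S, m.1 (a, b) ∈ B0 := fun a ha b hb =>
      Finset.mem_union_right _ (Finset.mem_image.2 ⟨(a, b), Finset.mem_product.2 ⟨ha, hb⟩, rfl⟩)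
    obtain ⟨h1, h2, h3, h4, h5, h6, h7⟩ := hC
    refine ⟨H0, H0', fun a ha b hb => ?_, fun a ha b hb => ?_, h3, h4, h5, h6, fun s hs x hx => ?_⟩
    · change m'.1 (a, b) ∈ H0
      rw [hm a (hHB a ha) b (hHB b hb)]
      exact h1 a ha b hb
    · change m'.1 (a, b) ∈ H0'
      rw [hm a (hHB' a ha) b (hHB' b hb)]
      exact h2 a ha b hb
    · obtain ⟨k, hk, h, hh, heq⟩ := h7 s hs x hx
      refine ⟨k, hk, h, hh, ?_⟩
      change m'.1 (s, x) = m'.1 (m'.1 (k, s), h)
      rw [hm s (hSB s hs) x (hHB' x hx), hm k (hHB k hk) s (hSB s hs),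
        hm _ (hkB k hk s hs) h (hHB h hh)]
      exact heq

/-- A countable group `W` containing `(ℕ, m)` can be realized on `ℕ` such that the elements of a given
finite set keep their names. -/
theorem exists_rename (m : GroupSpace) {W : Type} [Group W] [Countable W] (ι : Grp m →* W)
    (hι : Function.Injective ι) (A : Finset ℕ) :
    ∃ (m' : GroupSpace) (e : W ≃* Grp m'), ∀ a : ℕ, a ∈ A → e (ι a) = a := by
  classical
  have hinf : Infinite W := Infinite.of_injective (fun n : ℕ => ι n) hι
  obtain ⟨β0⟩ : Nonempty (W ≃ ℕ) := nonempty_equiv_of_countable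
  obtain ⟨σ, hσ⟩ := Equiv.Perm.exists_extending_pair (fun a : A => β0 (ι (a : ℕ)))
    (fun a : A => (a : ℕ)) (fun a b hab => Subtype.ext (hι (β0.injective hab))) Subtype.val_injective
  let β : W ≃ ℕ := β0.trans σ
  have hβ : ∀ a : ℕ, a ∈ A → β (ι a) = a := fun a ha => hσ ⟨a, ha⟩
  have hop : IsGroupOp fun p => β (β.symm p.1 * β.symm p.2) := by
    refine ⟨fun a b c => by simp [mul_assoc], β 1, fun a => by simp, fun a => ⟨β (β.symm a)⁻¹, by simp⟩⟩
  let m' : GroupSpace := ⟨fun p => β (β.symm p.1 * β.symm p.2), hop⟩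
  let e : W ≃* Grp m' :=
    { toFun := β
      invFun := β.symm
      left_inv := β.left_inv
      right_inv := β.right_inv
      map_mul' := fun x y => by
        change β (x * y) = β (β.symm (β x) * β.symm (β y))
        simp }
  exact ⟨m', e, hβ⟩

theorem Cert.map {G G' : Type} [Group G] [Group G'] (e : G ≃* G') {S H H' : Finset G} {q : ℕ}
    (h : Cert G S q H H') :
    Cert G' (S.map e.toEquiv.toEmbedding) q (H.map e.toEquiv.toEmbedding)
      (H'.map e.toEquiv.toEmbedding) := by
  have h' : Cert G (((S.map e.toEquiv.toEmbedding)).map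
      ⟨e.symm.toMonoidHom, e.symm.injective⟩) q
      (((H.map e.toEquiv.toEmbedding)).map ⟨e.symm.toMonoidHom, e.symm.injective⟩)
      (((H'.map e.toEquiv.toEmbedding)).map ⟨e.symm.toMonoidHom, e.symm.injective⟩) := by
    have e1 : ∀ L : Finset G, ((L.map e.toEquiv.toEmbedding)).map
        ⟨e.symm.toMonoidHom, e.symm.injective⟩ = L := by
      intro L
      rw [Finset.map_map]
      convert Finset.map_refl
      ext x
      simp
    rw [e1, e1, e1]
    exact h
  exact Cert.of_map _ h'

theorem dense_good {q : ℕ} (hq : 2 ≤ q) (S : Finset ℕ) : Dense (good q S) := by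
  classical
  rw [dense_iff_inter_open]
  rintro U hU ⟨m, hm⟩
  obtain ⟨V, hV, rfl⟩ := isOpen_induced_iff.1 hU
  obtain ⟨I, u, hu, hsub⟩ := isOpen_pi_iff.1 hV m.1 hm
  by_cases h1 : ∃ s ∈ S, m.1 (s, s) = s
  · exact ⟨m, hm, Or.inl h1⟩
  have hone : (1 : Grp m) ∉ (fin m S) := by
    intro h
    apply h1
    refine ⟨(1 : Grp m), h, ?_⟩
    exact mul_one (1 : Grp m)
  have : Countable (Grp m) := inferInstanceAs (Countable ℕ)
  obtain ⟨W, _, _, ι, hι, H, H', hC⟩ := exists_cert hq hone
  obtain ⟨m', e, he⟩ := exists_rename m ι hι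
    (S ∪ I.image Prod.fst ∪ I.image Prod.snd ∪ I.image m.1)
  refine ⟨m', hsub fun p hp => ?_, Or.inr ⟨H.map e.toEquiv.toEmbedding,
    H'.map e.toEquiv.toEmbedding, ?_⟩⟩
  · have hp' : p ∈ I := hp
    have h2 : m'.1 p = m.1 p := by
      have ha : e (ι p.1) = p.1 := he _ (by
        simp only [Finset.mem_union, Finset.mem_image]
        exact Or.inl (Or.inl (Or.inr ⟨p, hp', rfl⟩)))
      have hb : e (ι p.2) = p.2 := he _ (by
        simp only [Finset.mem_union, Finset.mem_image]
        exact Or.inl (Or.inr ⟨p, hp', rfl⟩))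
      have hab : e (ι (m.1 p)) = m.1 p := he _ (by
        simp only [Finset.mem_union, Finset.mem_image]
        exact Or.inr ⟨p, hp', rfl⟩)
      have h3 : e (ι (el m p.1 * el m p.2)) =
        e (ι (el m p.1)) * e (ι (el m p.2)) := by
        rw [map_mul, map_mul]
      have ha' : e (ι (el m p.1)) = el m' p.1 := ha
      have hb' : e (ι (el m p.2)) = el m' p.2 := hb
      rw [ha', hb'] at h3
      exact h3.symm.trans hab
    rw [h2]
    exact (hu p hp').2
  · have h4 := hC.map e
    have h6 : ∀ s : ℕ, s ∈ S → e (ι s) = s := fun s hs => he s (by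
      simp only [Finset.mem_union]
      exact Or.inl (Or.inl (Or.inl hs)))
    have h5 : ((fin m S).map ⟨ι, hι⟩).map e.toEquiv.toEmbedding = fin m' S := by
      rw [Finset.map_map]
      ext x
      rw [Finset.mem_map]
      constructor
      · rintro ⟨s, hs, rfl⟩
        change e (ι s) ∈ _
        rw [h6 s hs]; exact hs
      · intro hx
        exact ⟨x, hx, h6 x hx⟩
    rw [h5] at h4
    exact h4

/-- **Main theorem.** For the generic countably infinite group `G` the group algebras of `G` over all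
fields, in particular `ℚ[G]`, are semiprimitive. -/
theorem result : {m : GroupSpace | ∀ (K : Type u) [Field K],
    Ring.jacobson (MonoidAlgebra K (Grp m)) = ⊥} ∈ residual GroupSpace := by
  have h2 : (⋂ S : Finset ℕ, good 2 S) ∈ residual GroupSpace :=
    countable_iInter_mem.2 fun S => residual_of_dense_open (isOpen_good 2 S) (dense_good le_rfl S)
  have h3 : (⋂ S : Finset ℕ, good 3 S) ∈ residual GroupSpace :=
    countable_iInter_mem.2 fun S => residual_of_dense_open (isOpen_good 3 S) (dense_good (by norm_num) S)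
  refine Filter.mem_of_superset (Filter.inter_mem h2 h3) ?_
  rintro m ⟨hm2, hm3⟩ K _
  have key : ∀ q : ℕ, m ∈ (⋂ S : Finset ℕ, good q S) → ∀ S : Finset (Grp m), 1 ∉ S →
      ∃ H H' : Finset (Grp m), Cert (Grp m) S q H H' := by
    intro q hq S hS
    rcases Set.mem_iInter.1 hq S with ⟨s, hs, hss⟩ | h
    · exfalso
      apply hS
      have h4 : el m s * el m s = el m s := hss
      have h5 : el m s = 1 := mul_eq_left.1 h4
      rw [← h5]; exact hs
    · exact h
  apply jacobson_eq_bot
  by_cases h : ((2 : ℕ) : K) = 0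
  · refine ⟨3, ?_, key 3 hm3⟩
    intro h'
    apply one_ne_zero (α := K)
    have : (1 : K) = ((3 : ℕ) : K) - ((2 : ℕ) : K) := by push_cast; norm_num
    rw [this, h, h', sub_zero]
  · exact ⟨2, h, key 2 hm2⟩

end Pool.Agent.Results.MP_146d92_al.GenericSemiprimitive
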