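import Mathlib
import Pool.Agent.Q7.CS.Art

/-!
# Elliptic curves tensored with solvable Artin motives: no central poles for small order

The motives of this file are `M = h¹(E) ⊗ ρ` over `ℚ` (or a totally real field `K`), where `E/K` is
an elliptic curve and `ρ` is an Artin motive which becomes trivial over a Galois extension `M/K`
with SOLVABLE group `G` (for `K = ℚ`, `E` is modular). These are motives of odd weight, so that
their L-functions `L(E ⊗ ρ, s)` should be holomorphic.

`Pool.Agent.H541R3.ART.Irr G` is the set of irreducible complex characters of the finite group `G`.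
`Pool.Agent.H541R3.ART.ArtinData G 1` is a family of functions with the known formal properties of
these L-functions near the central point `s = 1`: `L χ` for `L(E ⊗ χ, s)`, `χ ∈ Irr G`, meromorphic
and not identically zero, and `Lin H ψ` for `L(E / M ^ H ⊗ ψ, s)`, `ψ` a linear character of a
subgroup `H` (without pole, by solvable descent), which is the product of the `L χ ^ ⟨χ|_H, ψ⟩`. In
particular `Lin ⊥ 1` stands for `L(E/M, s)`.
`Pool.Agent.Q7.DB.Reflects A` is the property `L(χ̄, s) = conj L(χ, conj s)`.
`Pool.Agent.W446.AS.TwoDim A` are the `L(E / M ^ H ⊗ ψ, s)` for the two-dimensional irreducible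
characters of subgroups, holomorphic by Langlands and Tunnell together with the Rankin-Selberg method.
`Pool.Agent.Q7.CS.SympEq A` are the `L(E / M ^ H ⊗ ψ, s)` for the symplectic irreducible characters
`ψ` (`Pool.Agent.Q7.TZ.Sy ψ`: real valued with Frobenius-Schur indicator `-1`) of the subgroups `H`
with their functional equations, of root number `1`.
`Pool.Agent.W446.AS.Frame X F D` : the centre `Z` of `X` is cyclic and contains all abelian normal
subgroups of `X`, and `F` is a normal subgroup of `X` containing `Z` such that `F / Z` is abelian of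
order `D ^ 2`, `D > 1`, and the centraliser of `F` in `X` is `Z`.
-/

set_option autoImplicit false

namespace Pool.Agent.Results.MP_148101_nt.CentralSolvable

open Pool.Agent.H541R3.ART Pool.Agent.W446.AS Pool.Agent.Q7.DB Pool.Agent.Q7.CS

/-- Let `G` be solvable, the Galois group of `M/K`, and `r` the order of `L(E/M, s)` at `s = 1`.
(1) If some `L(E ⊗ χ, s)` has a pole at `s = 1`, then some section `X` of `G` has a frame `F` of a
degree `D ≠ 2` such that `4 D ≤ r`, or `2 D ≤ r` and `X / F` is cyclic, or the centre of `X` has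
order two and `2 D ≤ r`, or the centre of `X` has order two, `D ≤ r`, `X / F` is cyclic and `F` is of
plus type (it has `|F| / 2 + D` elements with square one).
(2) No `L(E ⊗ χ, s)` has a pole at `s = 1` if `r ≤ 5`, or if `r ≤ 7` and `108 ∤ |G|`. -/
theorem result (G : Type) [Group G] [Finite G] [Group.IsSolvable G] (A : ArtinData G 1)
    (hA : Reflects A) (B : TwoDim A) (S : SympEq A) (r : ℕ)
    (hr : meromorphicOrderAt (A.Lin ⊥ 1) 1 = (r : WithTop ℤ)) :
    ((∃ χ ∈ Irr G, meromorphicOrderAt (A.L χ) 1 < 0) →
      ∃ (H : Subgroup G) (X : Type) (_ : Group X) (f : H →* X) (F : Subgroup X) (D : ℕ),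
        Function.Surjective f ∧ Frame X F D ∧ D ≠ 2 ∧
        ((4 * D ≤ r ∨ (2 * D ≤ r ∧ ∃ g, F ⊔ Subgroup.zpowers g = ⊤)) ∨
          (Nat.card (Subgroup.center X) = 2 ∧
            (2 * D ≤ r ∨ (D ≤ r ∧ (∃ g, F ⊔ Subgroup.zpowers g = ⊤) ∧
              2 * Nat.card {x : F // x ^ 2 = 1} = Nat.card F + 2 * D))))) ∧
    (r ≤ 7 → (6 ≤ r → ¬ 108 ∣ Nat.card G) →
      ∀ χ ∈ Irr G, 0 ≤ meromorphicOrderAt (A.L χ) 1) := by
  refine ⟨?_, ?_⟩
  · rintro ⟨χ, hχ, hneg⟩
    by_contra hcon
    have hfree : CFree True r G := by
      rintro H X _ f hf ⟨F, D, hF, hlt, hobs⟩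
      exact hcon ⟨H, X, _, f, F, D, hf, hF, hlt trivial, hobs⟩
    exact absurd (central_solvable A hA B S hr hfree χ hχ) (not_le.mpr hneg)
  · intro hr7 h108
    exact central_solvable A hA B S hr (cfree_seven hr7 h108)

end Pool.Agent.Results.MP_148101_nt.CentralSolvable
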