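import Pool.Agent.Q161.EA.Defs

/-!
# The average rank of ALL quadratic twists of an elliptic curve without rational 2-torsion is bounded

Let `E : y² = x³ + a x + b` be an elliptic curve over `ℚ` without rational points of order two (`100%` of
all elliptic curves over `ℚ`), and `E_D : y² = x³ + a D² x + b D³` its quadratic twists, `D` squarefree.
There is a constant `C` such that for all `X ≥ 1`

  `∑_{|D| ≤ X} 2^rank(E_D) ≤ C X`,

so the proportion of the twists of rank `≥ r` is `O(2^(-r))`, the average rank is bounded, and a set `S`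
of twists of density zero contributes nothing to the average rank:
`∑_{D ∈ S} rank(E_D) ≤ |S| log₂ (C X / |S|)` for every set `S` of squarefree `D`, `|D| ≤ X`.

The proof (project EA, `Pool/Agent/Q161/EA`) bounds the average order of the 2-Selmer groups.
-/

set_option autoImplicit false

namespace Pool.Agent.Results.MP_157626_nt.AverageRankAllTwists

open Finset Pool.Agent.Q161.EA

/-- Let `y² = x³ + a x + b`, `a, b ∈ ℤ`, be without rational points of order two.  There is a `C` such
that for all `X ≥ 1`, `D` running over the squarefree integers, `|D| ≤ X`: (1) `∑ 2^rank(E_D) ≤ C X`;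
(2) the number of the `D` with `rank(E_D) ≥ r` is at most `C X / 2^r`; (3) the sum of the ranks over any
nonempty set `S` of these `D` is at most `|S| log₂ (C X / |S|)`; (4) the sum of all the ranks is at most
`C X`. -/
theorem result (a b : ℤ) (h : ∀ x : ℚ, x ^ 3 + a * x + b ≠ 0) :
    ∃ C : ℝ, 0 < C ∧ ∀ X : ℝ, 1 ≤ X →
      (∑ D ∈ twists X, (2 : ℝ) ^ rank a b D ≤ C * X) ∧
      (∀ r : ℕ, (((twists X).filter (fun D => r ≤ rank a b D)).card : ℝ) ≤ C * X / 2 ^ r) ∧
      (∀ S : Finset ℤ, S ⊆ twists X → S.Nonempty →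
        ∑ D ∈ S, (rank a b D : ℝ) ≤ S.card * Real.logb 2 (C * X / S.card)) ∧
      ∑ D ∈ twists X, (rank a b D : ℝ) ≤ C * X := by
  obtain ⟨C, hC, h2⟩ := rank_sum a b h
  refine ⟨C, hC, fun X hX => ?_⟩
  have h3 := h2 X hX
  have hS : ∀ S : Finset ℤ, S ⊆ twists X → ∑ D ∈ S, (2 : ℝ) ^ rank a b D ≤ C * X :=
    fun S hS => le_trans (sum_le_sum_of_subset_of_nonneg hS (fun _ _ _ => by positivity)) h3
  refine ⟨h3, fun r => ?_, fun S hSX hne => jensen S (rank a b) hne _ (hS S hSX), ?_⟩
  · rw [le_div_iff₀ (by positivity)]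
    refine le_trans ?_ (hS ((twists X).filter (fun D => r ≤ rank a b D)) (filter_subset _ _))
    rw [← nsmul_eq_mul]
    refine card_nsmul_le_sum _ _ _ fun D hD => ?_
    exact pow_le_pow_right₀ one_le_two (mem_filter.1 hD).2
  · refine le_trans (sum_le_sum fun D _ => ?_) h3
    exact_mod_cast (Nat.lt_two_pow_self (n := rank a b D)).le

end Pool.Agent.Results.MP_157626_nt.AverageRankAllTwists
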