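import Mathlib
import Pool.Agent.TH841.PT.Fin1
import Pool.Agent.TH639.SL.Twist
import Pool.Agent.W402.FK.RKS
import Pool.Agent.Q1.RS.Pack

/-!
# Ranks of quadratic twists along arbitrary sequences

Let `E : y² = (x - e₁) (x - e₂) (x - e₃)` be an elliptic curve with integers `e₁`, `e₂`, `e₃` and
`D` a nonzero polynomial with integer coefficients. We study the ranks of the quadratic twists of `E`
by the numbers `D(⌊α x_n⌋)`, where `x_n` is an arbitrary sequence of real numbers.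

* For every real sequence `x_n`, and for almost every real `α`, the rank is `o(log n)`.
* If `x_(n+1) ≥ x_n ^ (1 + δ)`, then for almost every `α` all the moments of `2 ^ rank` along the
  sequence are bounded, by numbers that depend neither on `α` nor on the sequence, and for
  all `α` in a set of Hausdorff dimension one the ranks of all the curves are bounded by one number
  `R`, that depends on `E`, `D` and `δ` only.
-/

set_option autoImplicit false

namespace Pool.Agent.Results.MP_157626_nt.RanksAlongSequences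

open Finset Filter Polynomial MeasureTheory

/-- the curve `y² = x³ + A x + B` over `ℚ` -/
def E (A B : ℤ) : WeierstrassCurve ℚ := ⟨0, 0, 0, (A : ℚ), (B : ℚ)⟩

/-- The local condition at a completion `K` of `ℚ`: there is a point `(x, y)`, `y ≠ 0`, of
`y² = x³ + A x + B` over `K` such that `(x - e) * d e` is a square for all the integer roots `e` of
`x³ + A x + B`. (Every class of `E(K) / 2 E(K)` contains a point with `y ≠ 0`.) -/
def Local (K : Type) [Field K] (A B : ℤ) (d : ℤ → ℤ) : Prop :=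
  ∃ x y : K, y ≠ 0 ∧ y ^ 2 = x ^ 3 + A * x + B ∧
    ∀ e : ℤ, e ^ 3 + A * e + B = 0 → IsSquare ((x - e) * d e)

/-- The 2-Selmer group of `y² = x³ + A x + B`, a curve with three integer roots. As `E[2]` is the
group of the families of signs with product one indexed by the roots, an element of the 2-Selmer
group is a family of classes of nonzero rational numbers modulo squares indexed by the roots `e`,
given by squarefree integers `d e` (`d e = 1` if `e` is not a root), which over `ℝ` and over `ℚ_[p]`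
for all primes `p` is the family of the classes of `x - e` for a point of the curve. -/
def Sel2 (A B : ℤ) : Set (ℤ → ℤ) :=
  {d | (∀ e, Squarefree (d e)) ∧ (∀ e : ℤ, e ^ 3 + A * e + B ≠ 0 → d e = 1) ∧ Local ℝ A B d ∧
    ∀ (p : ℕ) [Fact p.Prime], Local ℚ_[p] A B d}

/-- the rank of the quadratic twist `y² = x³ + d² A x + d³ B` by `d` of `y² = x³ + A x + B` -/
noncomputable def rk (A B d : ℤ) : ℕ :=
  Module.finrank ℤ (E (d ^ 2 * A) (d ^ 3 * B)).toAffine.Point

/-- the order of the 2-Selmer group of the quadratic twist by `d` -/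
noncomputable def sel (A B d : ℤ) : ℕ := (Sel2 (d ^ 2 * A) (d ^ 3 * B)).ncard

/-- **Theorem.** Let `y² = (x - e₁) (x - e₂) (x - e₃) = x³ + A x + B` be an elliptic curve with
integers `e₁`, `e₂`, `e₃` and `D` a nonzero polynomial with integer coefficients.

* (0) If `D(t) ≠ 0` the 2-Selmer group of the twist by `D(t)` is finite of order at least
  `2 ^ rank`.
* (1) For every real sequence `x_n` and almost every real `α`: for all `ε > 0`, from some `n` on,
  if `D(⌊α x_n⌋) ≠ 0`, the 2-Selmer group of the twist by `D(⌊α x_n⌋)` has order at most `n ^ ε`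
  and the rank is at most `ε log n`.
* (2) For all `δ > 0` and `k` there is `K` such that for every sequence `x_n → ∞` with
  `x_(n+1) ≥ x_n ^ (1 + δ)` from some `n` on and for almost every `α`, from some `N` on: the sum of
  the `k`-th powers of the orders of the 2-Selmer groups of the twists by `D(⌊α x_n⌋) ≠ 0`, `n < N`,
  is at most `K N`, and for every `r` at most `K N / 2 ^ (k r)` of these twists have rank at least
  `r`.
* (3) For all `δ > 0` there is `R` such that for all `u < v` and all sequences with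
  `x_(n+1) ≥ x_n ^ (1 + δ)` for all `n` and `x_0` large enough (in terms of `u` and `v`) the set of
  the `α` in `[u, v]` such that for all `n`: `D(⌊α x_n⌋) ≠ 0`, the 2-Selmer group of the twist by
  `D(⌊α x_n⌋)` has order at most `2 ^ R` and the rank of the twist is at most `R`, has Hausdorff
  dimension one. -/
theorem result (A B e₁ e₂ e₃ : ℤ) (hE : 4 * A ^ 3 + 27 * B ^ 2 ≠ 0)
    (he : ∀ x : ℤ, x ^ 3 + A * x + B = (x - e₁) * (x - e₂) * (x - e₃)) (D : ℤ[X]) (hD : D ≠ 0) :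
    (∀ t : ℤ, D.eval t ≠ 0 → (Sel2 ((D.eval t) ^ 2 * A) ((D.eval t) ^ 3 * B)).Finite ∧
      2 ^ rk A B (D.eval t) ≤ sel A B (D.eval t)) ∧
    (∀ x : ℕ → ℝ, ∀ᵐ α : ℝ, ∀ ε : ℝ, 0 < ε → ∀ᶠ n : ℕ in atTop, D.eval ⌊α * x n⌋ ≠ 0 →
      (sel A B (D.eval ⌊α * x n⌋) : ℝ) ≤ (n : ℝ) ^ ε ∧
      (rk A B (D.eval ⌊α * x n⌋) : ℝ) ≤ ε * Real.log n) ∧
    (∀ δ : ℝ, 0 < δ → ∀ k : ℕ, ∃ K : ℝ, ∀ x : ℕ → ℝ, Tendsto x atTop atTop →
      (∀ᶠ n in atTop, x n ^ (1 + δ) ≤ x (n + 1)) → ∀ᵐ α : ℝ, ∀ᶠ N : ℕ in atTop,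
        ∑ n ∈ (range N).filter (fun n => D.eval ⌊α * x n⌋ ≠ 0),
          (sel A B (D.eval ⌊α * x n⌋) : ℝ) ^ k ≤ K * N ∧
        ∀ r : ℕ, (((range N).filter (fun n => D.eval ⌊α * x n⌋ ≠ 0 ∧
          r ≤ rk A B (D.eval ⌊α * x n⌋))).card : ℝ) ≤ K * N / 2 ^ (k * r)) ∧
    (∀ δ : ℝ, 0 < δ → ∃ R : ℕ, ∀ u v : ℝ, u < v → ∃ X₀ : ℝ, ∀ x : ℕ → ℝ, X₀ ≤ x 0 →
      (∀ n, x n ^ (1 + δ) ≤ x (n + 1)) →
      dimH {α : ℝ | u ≤ α ∧ α ≤ v ∧ ∀ n, D.eval ⌊α * x n⌋ ≠ 0 ∧
        sel A B (D.eval ⌊α * x n⌋) ≤ 2 ^ R ∧ rk A B (D.eval ⌊α * x n⌋) ≤ R} = 1) := by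
  classical
  have hsel : ∀ t : ℤ, D.eval t ≠ 0 → (Sel2 ((D.eval t) ^ 2 * A) ((D.eval t) ^ 3 * B)).Finite ∧
      2 ^ rk A B (D.eval t) ≤ sel A B (D.eval t) := by
    intro t ht
    have h1 := (Pool.Agent.TH639.SL.sel_tw hE he ht).1
    refine ⟨h1, ?_⟩
    exact Pool.Agent.W402.FK.rks _ _ _ _ _ (Pool.Agent.TH639.SL.disc_tw ht hE)
      (Pool.Agent.TH639.SL.roots_tw he (D.eval t)) h1
  set f : ℤ → ℝ := fun t => if D.eval t = 0 then 0 else (sel A B (D.eval t) : ℝ) with hfd
  have hf0 : ∀ t, 0 ≤ f t := fun t => by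
    rw [hfd]
    dsimp only
    split_ifs
    · exact le_rfl
    · exact Nat.cast_nonneg _
  have hfs : ∀ t, D.eval t ≠ 0 → f t = (sel A B (D.eval t) : ℝ) := fun t ht => by
    rw [hfd]
    dsimp only
    rw [if_neg ht]
  have hfz : ∀ t, D.eval t = 0 → f t = 0 := fun t ht => by
    rw [hfd]
    dsimp only
    rw [if_pos ht]
  have hmom : ∀ s : ℕ, s ≠ 0 → Pool.Agent.Q1.RS.Mom f s := by
    intro s hs L
    obtain ⟨C, hC⟩ := Pool.Agent.TH841.PT.sel_poly Pool.Agent.TH841.PT.avsq hE he D hD s L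
    refine ⟨C, fun N M hM hN => le_trans (le_of_eq ?_) (hC N M (by omega) hN)⟩
    rw [sum_filter]
    refine sum_congr rfl fun t _ => ?_
    split_ifs with h1
    · rw [hfs t h1]
      rfl
    · rw [hfz t (not_not.1 h1), zero_pow hs]
  have hrk : ∀ t, D.eval t ≠ 0 → (2 : ℝ) ^ rk A B (D.eval t) ≤ f t := fun t ht => by
    rw [hfs t ht]
    exact_mod_cast (hsel t ht).2
  have hsum : ∀ (x : ℕ → ℝ) (α : ℝ) (N k : ℕ), k ≠ 0 →
      ∑ n ∈ (range N).filter (fun n => D.eval ⌊α * x n⌋ ≠ 0), (sel A B (D.eval ⌊α * x n⌋) : ℝ) ^ k =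
        ∑ n ∈ range N, f ⌊α * x n⌋ ^ k := by
    intro x α N k hk
    rw [sum_filter]
    refine sum_congr rfl fun n _ => ?_
    split_ifs with h1
    · rw [hfs _ h1]
    · rw [hfz _ (not_not.1 h1), zero_pow hk]
  refine ⟨hsel, fun x => ?_, ?_, ?_⟩
  · -- growth
    filter_upwards [Pool.Agent.Q1.RS.growth_all hf0 hmom x] with α hα ε hε
    have hlog2 : 0 < Real.log 2 := Real.log_pos (by norm_num)
    filter_upwards [hα ε hε, hα (ε * Real.log 2) (by positivity), eventually_ge_atTop 1] with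
      n h1 h2 hn h3
    refine ⟨by rwa [hfs _ h3] at h1, ?_⟩
    have hn0 : (0 : ℝ) < n := by exact_mod_cast hn
    have h4 := (hrk _ h3).trans h2
    have h5 := Real.log_le_log (by positivity) h4
    rw [Real.log_pow, Real.log_rpow hn0] at h5
    have h6 : (rk A B (D.eval ⌊α * x n⌋) : ℝ) * Real.log 2 ≤ (ε * Real.log n) * Real.log 2 := by
      linarith
    exact le_of_mul_le_mul_right h6 hlog2
  · -- moments
    intro δ hδ
    have key : ∀ k : ℕ, k ≠ 0 → ∃ K : ℝ, ∀ x : ℕ → ℝ, Tendsto x atTop atTop →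
      (∀ᶠ n in atTop, x n ^ (1 + δ) ≤ x (n + 1)) → ∀ᵐ α : ℝ, ∀ᶠ N : ℕ in atTop,
        ∑ n ∈ (range N).filter (fun n => D.eval ⌊α * x n⌋ ≠ 0),
          (sel A B (D.eval ⌊α * x n⌋) : ℝ) ^ k ≤ K * N ∧
        ∀ r : ℕ, (((range N).filter (fun n => D.eval ⌊α * x n⌋ ≠ 0 ∧
          r ≤ rk A B (D.eval ⌊α * x n⌋))).card : ℝ) ≤ K * N / 2 ^ (k * r) := by
      intro k hk
      obtain ⟨K, hK⟩ := Pool.Agent.Q1.RS.moment_ae hf0 hk (hmom k hk) (Nat.lt_succ_self k)
        (hmom (k + 1) (by omega)) hδ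
      refine ⟨K, fun x hxt hx => ?_⟩
      filter_upwards [hK x hxt hx] with α hα
      filter_upwards [hα] with N hN
      refine ⟨by rw [hsum x α N k hk]; exact hN, fun r => ?_⟩
      have h1 := Pool.Agent.Q1.RS.moment_count hf0 hN (y := (2 : ℝ) ^ r) (by positivity)
      rw [← pow_mul, mul_comm r k] at h1
      refine le_trans ?_ h1
      refine Nat.cast_le.2 (card_le_card fun n hn => ?_)
      rw [mem_filter] at hn ⊢
      exact ⟨hn.1, le_trans (pow_le_pow_right₀ (by norm_num) hn.2.2) (hrk _ hn.2.1)⟩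
    intro k
    rcases Nat.eq_zero_or_pos k with rfl | hk
    · refine ⟨1, fun x _ _ => Eventually.of_forall fun α => Eventually.of_forall fun N => ?_⟩
      have h1 : ∀ (P : ℕ → Prop) [DecidablePred P], (((range N).filter P).card : ℝ) ≤ N :=
          fun P _ => by
        have := card_filter_le (range N) P
        rw [card_range] at this
        exact_mod_cast this
      refine ⟨?_, fun r => ?_⟩
      · simp only [pow_zero, sum_const, nsmul_eq_mul, mul_one, one_mul]
        exact h1 _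
      · rw [Nat.zero_mul, pow_zero, div_one, one_mul]
        exact h1 _
    · exact key k (by omega)
  · -- dimension
    intro δ hδ
    have hZ : {t : ℤ | D.eval t = 0}.Finite :=
      (D.roots.toFinset.finite_toSet).subset fun t ht => by
        rw [mem_coe, Multiset.mem_toFinset, mem_roots hD]
        exact ht
    obtain ⟨R, hR⟩ := Pool.Agent.Q1.RS.dim_mom' hf0 one_ne_zero (hmom 1 one_ne_zero) hZ hδ
    obtain ⟨R', hR'⟩ := pow_unbounded_of_one_lt R (show (1 : ℝ) < 2 by norm_num)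
    refine ⟨R', fun u v huv => ?_⟩
    obtain ⟨X₀, hX₀⟩ := hR u v huv
    refine ⟨X₀, fun x hx0 hx => ?_⟩
    refine le_antisymm ((dimH_mono (Set.subset_univ _)).trans (by rw [Real.dimH_univ])) ?_
    rw [← hX₀ x hx0 hx]
    refine dimH_mono fun α hα => ⟨hα.1, hα.2.1, fun n => ?_⟩
    obtain ⟨h1, h2⟩ := hα.2.2 n
    have h3 : D.eval ⌊α * x n⌋ ≠ 0 := h1
    have h4 := hfs _ h3
    have h5 : sel A B (D.eval ⌊α * x n⌋) ≤ 2 ^ R' := by
      have : (sel A B (D.eval ⌊α * x n⌋) : ℝ) ≤ 2 ^ R' := by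
        rw [← h4]
        exact h2.trans hR'.le
      exact_mod_cast this
    refine ⟨h3, h5, ?_⟩
    exact (Nat.pow_le_pow_iff_right (by norm_num)).1 ((hsel _ h3).2.trans h5)

end Pool.Agent.Results.MP_157626_nt.RanksAlongSequences
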