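import Pool.Agent.Q283.GM.Sel4
import Pool.Agent.Q283.GM.Eul
import Pool.Agent.Q283.GM.X49
import Pool.Agent.Q155.NL.N49
import Pool.Agent.Q283.LP.X7

/-!
# Inside almost every integer: the joint law of all isogeny Selmer groups of the twists of `X_0(49)`, and their ranks

`E_D : y² = x³ + 21 D x² + 112 D² x` is the quadratic twist by `D` of the curve `X_0(49)`, and
`E_D' : Y² = X³ - 42 D X² - 7 D² X` is the curve which is isogenous to it by the isogeny `φ` with kernel `{0, (0, 0)}`. The
class consists of all the squarefree positive integers whose prime factors are `1` modulo `4`. For `m` in the class the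
Selmer group of `φ : E_m → E_m'` has the order `2 ^ (1 + r(m))`, where `r(m)` is the corank of an explicit matrix over
`𝔽₂` of quadratic residue symbols with quartic symbols of `-7` on the diagonal, and the rank of `E_m(ℚ)` is at most
`2 r(m)`.

For a positive integer `D` let `divs D` be the set of the members of the class which divide `D` (modulo squares a group;
there are `2 ^ w` of them, `w` the number of the prime factors `1` modulo `4` of `D`). Forms are
`F_j(d) = N_j d_1 ^ e_j1 ⋯ d_n ^ e_jn`, `d = (d_1, …, d_n)` in `(divs D) ^ n`, with `N_j` ANY members of the class and `e_j ≠ 0` any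
vectors over `𝔽₂`, the pairs `(N_j, e_j)` different; their values are taken modulo squares. Nothing is assumed about
the curves.

THEOREM. There is ONE set `S` of positive integers of NATURAL DENSITY `1`, of relative density `1` also in the class, such
that for every finite family of forms and `ε > 0`, for all large `D` in `S`:

(1) JOINT LAW (total variation). For EVERY set `R` of vectors the share of the `d` with `(r(F_1(d)), …, r(F_M(d))) ∈ R` is within
    `ε` of the product measure of `R` for the law `α_r = κ / ((2 - 1) (4 - 1) ⋯ (2 ^ r - 1))`, `κ = ∏ (1 - 2 ^ (-2 i - 1))`,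
    of sum `1`: the orders of the Selmer groups of all the twists by linear patterns of divisors are independent.
(2) RANKS. All the `E_(F_j(d))` have rank `≤ 2 t` for a share `≥ (α_0 + ⋯ + α_t) ^ M - ε` of the `d`
    (`1 - (α_0 + ⋯ + α_t) ≤ 1 / ((2 - 1) ⋯ (2 ^ (t + 1) - 1))`), and one of them at least has rank `0` for a share
    `≥ 1 - (1 - κ) ^ M - ε`.
(3) LAW OF LARGE NUMBERS. For every set `T` of orders the share of the `d` for which the frequency of the `j` with
    `r(F_j(d)) ∈ T` differs from `α(T)` by `η` or more is at most `2 exp (- η² M / 4) + ε`.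
(4) AVERAGE RANK. The share of the `d` for which the average over `j` of `min (rank E_(F_j(d))(ℚ), 2 B)` is at least
    `1.53 + η` is at most `2 B exp (- η² M / (16 B²)) + ε`.
(5) UNIFORMITY OF ALL ORDERS. For all `k`, all `N` in the class, every set `T` of orders and every polynomial phase `φ` of
    degree `≤ k` on `divs D` the function `d ↦ 1_(r(N d) ∈ T) - α(T)` has correlation at most `ε` with `φ`.

Earlier laws for Selmer groups or ranks are averages over all the twists `|D| ≤ X`, or over the divisors of `D` for the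
twists `m d` of one or several base curves.
-/

set_option autoImplicit false

open scoped Classical

namespace Pool.Agent.Results.MP_157626_nt.SelmerOrdersInsideDivisors

open Finset Filter

/-- the curve `E_D : y² = x³ + 21 D x² + 112 D² x`, the twist by `D` of `X_0(49)` -/
def E (D : ℤ) : WeierstrassCurve ℚ :=
  { a₁ := 0, a₂ := 21 * (D : ℚ), a₃ := 0, a₄ := 112 * (D : ℚ) ^ 2, a₆ := 0 }

/-- the rank of `E_D(ℚ)` -/
noncomputable def rank (D : ℤ) : ℕ := Module.finrank ℤ (E D).toAffine.Point

/-- `z` is, up to squares, the `X`-coordinate of a point over `F` of the isogenous curve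
`E_D' : Y² = X³ - 42 D X² - 7 D² X` -/
def Loc (F : Type) [Field F] (D z : ℤ) : Prop :=
  ∃ X Y r : F, X ≠ 0 ∧ Y ^ 2 = X ^ 3 - 42 * (D : F) * X ^ 2 - 7 * (D : F) ^ 2 * X ∧
    X = (z : F) * r ^ 2

/-- the Selmer group of the isogeny `φ : E_D → E_D'`, a subgroup of `ℚ*/ℚ*²` which is described by
squarefree integers -/
def Sel (D : ℤ) : Set ℤ :=
  {z | Squarefree z ∧ (∀ (p : ℕ) [Fact p.Prime], Loc ℚ_[p] D z) ∧ Loc ℝ D z}

/-- the class: squarefree, all prime factors `1` modulo `4` -/
def Class (D : ℕ) : Prop := Squarefree D ∧ ∀ p : ℕ, p.Prime → p ∣ D → p % 4 = 1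

/-- the prime factors of `D` which split in `ℚ(√-7)` -/
def S (D : ℕ) : Finset ℕ := D.primeFactors.filter fun p => p % 7 = 1 ∨ p % 7 = 2 ∨ p % 7 = 4

/-- the matrix over `𝔽₂` with rows and columns indexed by `S D`: off the diagonal the entry at
`(p, p')` is `1` if `p'` is not a square modulo `p` and `0` otherwise; on the diagonal it is the number
of the prime factors of `D` different from `p` which are not squares modulo `p`, plus `1` if `-7` is
not a fourth power modulo `p` -/
noncomputable def R (D : ℕ) : Matrix (S D) (S D) (ZMod 2) := Matrix.of fun i j =>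
  if i = j then
    (((D.primeFactors.filter fun r : ℕ => r ≠ (i : ℕ) ∧ ¬ IsSquare (r : ZMod (i : ℕ))).card : ZMod 2) +
      if ∃ y : ZMod (i : ℕ), y ^ 4 = -7 then 0 else 1)
  else if IsSquare ((j : ℕ) : ZMod (i : ℕ)) then 0 else 1

/-- the corank of the matrix `R D` -/
noncomputable def corank (D : ℕ) : ℕ :=
  Module.finrank (ZMod 2) (LinearMap.ker (R D).mulVecLin)

/-- the number `κ = (1 - 1/2) (1 - 1/8) (1 - 1/32) ⋯` -/
noncomputable def κ : ℝ := ∏' i : ℕ, (1 - (1 / 2 : ℝ) ^ (2 * i + 1))

/-- the limit law `κ / ((2 - 1) (4 - 1) ⋯ (2 ^ r - 1))` -/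
noncomputable def α (r : ℕ) : ℝ := κ / ∏ i ∈ Finset.range r, ((2 : ℝ) ^ (i + 1) - 1)

/-- the squarefree part of `n`: the squarefree `s` such that `n / s` is a square -/
def squarefreePart (n : ℕ) : ℕ := ∏ p ∈ n.primeFactors.filter (fun p => n.factorization p % 2 = 1), p

/-- the members of the class which divide `D` -/
noncomputable def divs (D : ℕ) : Finset ℕ := D.divisors.filter Class

/-- the form `N d_1 ^ e_1 ⋯ d_n ^ e_n` with exponents `0, 1` -/
def form {n : ℕ} (N : ℕ) (e : Fin n → ZMod 2) (d : Fin n → ℕ) : ℕ := N * ∏ i, d i ^ (e i).val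

/-- the vector of the values of the forms: the squarefree parts of the `N_j d_1 ^ e_j1 ⋯ d_n ^ e_jn` -/
def values {M n : ℕ} (N : Fin M → ℕ) (e : Fin M → Fin n → ZMod 2) (d : Fin n → ℕ) : Fin M → ℕ :=
  fun j => squarefreePart (form (N j) (e j) d)

/-- the share of the `n`-tuples of elements of `divs D` with the property `P` -/
noncomputable def share {n : ℕ} (D : ℕ) (P : (Fin n → ℕ) → Prop) : ℝ :=
  (((Fintype.piFinset fun _ : Fin n => divs D).filter P).card : ℝ) /
    (Fintype.piFinset fun _ : Fin n => divs D).card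

/-- the frequency of the `j` such that the Selmer group of `E_(v j)` has the order `2 ^ (1 + r)` with `r ∈ T` -/
noncomputable def frequency {M : ℕ} (T : Set ℕ) (v : Fin M → ℕ) : ℝ :=
  ((Finset.univ.filter fun j => ∃ r ∈ T, (Sel (v j)).ncard = 2 ^ (1 + r)).card : ℝ) / M

/-- the average over the `j` of the ranks of the `E_(v j)`, truncated at `B` -/
noncomputable def averageRank {M : ℕ} (B : ℕ) (v : Fin M → ℕ) : ℝ :=
  (∑ j, ((min (rank (v j)) B : ℕ) : ℝ)) / M

/-- the polynomial phases of degree `≤ k` on the divisors of `D`: real functions whose derivatives of order `k + 1` with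
respect to the multiplication of the divisors modulo squares are equal to `1` -/
def Phase (k D : ℕ) (φ : ℕ → ℝ) : Prop :=
  ∀ x ∈ divs D, ∀ y : Fin (k + 1) → ℕ, (∀ i, y i ∈ divs D) →
    ∏ ω : Finset (Fin (k + 1)), φ (squarefreePart (x * ∏ i ∈ ω, y i)) = 1

/-- the number of the `D ≤ X` with the property `P` -/
noncomputable def count (P : ℕ → Prop) (X : ℕ) : ℕ := ((Finset.Icc 1 X).filter P).card

section proof

open Q283.LP
open Q283.GW (C4 CF ρ49 PA_eq DD_CF)
open Q283.GS (al pd SelB card_SelB rank_le tail_al)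
open Q283.GW (matR_eq)
open Q283.XF (nf)
open Q283.GM (rk)
open Q155.NL (Cl Alm)
open Y687 (DD)
open Y698.SG.Cv (LocI WF)

theorem class_iff (D : ℕ) : Class D ↔ C4 D := by
  unfold Class C4 CF
  constructor
  · rintro ⟨h1, h2⟩
    exact ⟨h1, fun p hp => ⟨Nat.prime_of_mem_primeFactors hp,
      h2 p (Nat.prime_of_mem_primeFactors hp) (Nat.dvd_of_mem_primeFactors hp)⟩⟩
  · rintro ⟨h1, h2⟩
    exact ⟨h1, fun p hp hd => (h2 p (Nat.mem_primeFactors.2 ⟨hp, hd, h1.ne_zero⟩)).2⟩

theorem class_cl (D : ℕ) : Class D ↔ Cl ρ49.Φ D := by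
  rw [class_iff, Q155.NL.cl_iff]

theorem E_eq (D : ℤ) : E D = WF ℚ (21 * D) (112 * D ^ 2) := by
  ext
  · rfl
  · show (21 * (D : ℚ)) = ((21 * D : ℤ) : ℚ)
    push_cast
    ring
  · rfl
  · show (112 * (D : ℚ) ^ 2) = ((112 * D ^ 2 : ℤ) : ℚ)
    push_cast
    ring
  · rfl

theorem loc_iff (F : Type) [Field F] (D z : ℤ) : Loc F D z ↔ LocI F (21 * D) (112 * D ^ 2) z := by
  unfold Loc LocI
  refine exists_congr fun X => exists_congr fun Y => exists_congr fun r => ?_
  have e : X ^ 3 - 42 * (D : F) * X ^ 2 - 7 * (D : F) ^ 2 * X =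
      X ^ 3 - 2 * ((21 * D : ℤ) : F) * X ^ 2 +
        (((21 * D : ℤ) : F) ^ 2 - 4 * ((112 * D ^ 2 : ℤ) : F)) * X := by
    push_cast
    ring
  rw [e]

theorem sel_eq (D : ℤ) : Sel D = SelB D := by
  unfold Sel SelB
  simp only [loc_iff]

theorem rk_corank {D : ℕ} (hD : C4 D) : corank D = rk ρ49.Φ nf D.primeFactors := by
  rw [Q283.GW.rk_eq, ← matR_eq, ← PA_eq hD.2]
  rfl

theorem main_set {D : ℕ} (hD : C4 D) :
    (Sel D).ncard = 2 ^ (1 + rk ρ49.Φ nf D.primeFactors) ∧ rank D ≤ 2 * rk ρ49.Φ nf D.primeFactors := by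
  have h1 : ((D : ℕ) : ℤ) = pd D.primeFactors := by
    rw [hD.eq, DD_CF hD.2]
    rfl
  rw [h1, sel_eq]
  refine ⟨card_SelB hD.2, ?_⟩
  unfold rank
  rw [E_eq]
  exact rank_le hD.2

theorem α_eq (r : ℕ) : α r = al r := by
  unfold α al
  have h : ∀ r, Y697.PQ.cf r = (∏ i ∈ Finset.range r, ((2 : ℝ) ^ (i + 1) - 1))⁻¹ := by
    intro r
    induction r with
    | zero => simp [Y697.PQ.cf]
    | succ r ih =>
      rw [show Y697.PQ.cf (r + 1) = Y697.PQ.cf r / (2 ^ (r + 1) - 1) from rfl, ih,
        Finset.prod_range_succ, mul_inv, div_eq_mul_inv]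
  rw [h, div_eq_mul_inv]
  rfl

theorem α_tail (k : ℕ) : 1 - ∑ r ∈ Finset.range (k + 1), α r ≤
    1 / ∏ i ∈ Finset.range (k + 1), ((2 : ℝ) ^ (i + 1) - 1) := by
  have h1 : ∀ r, α r = al r := α_eq
  simp only [h1]
  refine (tail_al k).trans (le_of_eq ?_)
  have h2 := α_eq (k + 1)
  unfold α al at h2
  have hc0 : (0 : ℝ) < Y703.CQ.c2 := lt_trans (by norm_num) Pool.Agent.Y948.CQ.t_C2.2.2.2.1
  have h3 : κ = Y703.CQ.c2 := rfl
  rw [h3, div_eq_mul_inv] at h2
  rw [one_div]
  exact (mul_left_cancel₀ hc0.ne' h2).symm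

theorem divs_eq (D : ℕ) : divs D = dvN ρ49.Φ D := by
  unfold divs dvN
  exact Finset.filter_congr fun d _ => class_cl d

theorem share_eq {n D : ℕ} (P : (Fin n → ℕ) → Prop) : share D P = shN ρ49.Φ D P := by
  unfold share shN
  rw [divs_eq]

theorem c4_val {M n D : ℕ} (hD : D ≠ 0) {N : Fin M → ℕ} (hN : ∀ j, Class (N j)) (e : Fin M → Fin n → ZMod 2)
    {d : Fin n → ℕ} (hd : ∀ i, d i ∈ dvN ρ49.Φ D) (j : Fin M) : C4 (values N e d j) :=
  (Q155.NL.cl_iff _).1 (frn_Cl ((class_cl _).1 (hN j)) (e j) fun i => ((mem_dvN hD).1 (hd i)).1)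

theorem sel_iff {m r : ℕ} (hm : C4 m) : (Sel m).ncard = 2 ^ (1 + r) ↔ rk ρ49.Φ nf m.primeFactors = r := by
  rw [(main_set hm).1]
  constructor
  · intro h
    have h1 := Nat.pow_right_injective le_rfl h
    omega
  · rintro rfl
    rfl

end proof

open Q283.LP Q283.GW Q283.XF in
open Q283.GM (rk) in
open Q283.GS (al) in
open Q155.NL (Cl Alm) in
/-- **The isogeny Selmer groups of all the twists by linear patterns of divisors of almost every integer.** -/
theorem result :
    (∀ m : ℕ, Class m → (Sel m).ncard = 2 ^ (1 + corank m) ∧ rank m ≤ 2 * corank m) ∧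
    (∀ D : ℕ, D ≠ 0 → (divs D).card = 2 ^ (D.primeFactors.filter fun p => p % 4 = 1).card) ∧
    (∀ (n D : ℕ) (N : ℕ) (e : Fin n → ZMod 2) (d : Fin n → ℕ), D ≠ 0 → Class N →
      (∀ i, d i ∈ divs D) → Class (squarefreePart (form N e d)) ∧
        ∃ b : ℕ, b ≠ 0 ∧ form N e d = squarefreePart (form N e d) * b ^ 2) ∧
    (∃ S : ℕ → Prop, Tendsto (fun X : ℕ => (count S X : ℝ) / X) atTop (nhds 1) ∧
      Tendsto (fun X : ℕ => (count (fun D => Class D ∧ S D) X : ℝ) / count Class X) atTop (nhds 1) ∧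
      (∀ (M n : ℕ) (N : Fin M → ℕ) (e : Fin M → Fin n → ZMod 2), (∀ j, Class (N j)) →
        (∀ j, e j ≠ 0) → (∀ j l, j ≠ l → ¬ (e j = e l ∧ N j = N l)) → ∀ ε : ℝ, 0 < ε →
        ∃ D₀ : ℕ, ∀ D : ℕ, D₀ ≤ D → S D →
          (∀ V : Set (Fin M → ℕ), |share D (fun d =>
              ∃ r ∈ V, ∀ j, (Sel (values N e d j)).ncard = 2 ^ (1 + r j)) -
            ∑' r : V, ∏ j, α (r.1 j)| ≤ ε) ∧
          (∀ t : ℕ, (∑ r ∈ Finset.range (t + 1), α r) ^ M - ε ≤
            share D (fun d => ∀ j, rank (values N e d j) ≤ 2 * t)) ∧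
          1 - (1 - κ) ^ M - ε ≤ share D (fun d => ∃ j, rank (values N e d j) = 0) ∧
          (0 < M → ∀ (T : Set ℕ) (η : ℝ), 0 < η →
            share D (fun d => η ≤ |frequency T (values N e d) - ∑' r : T, α r|) ≤
              2 * Real.exp (-(η ^ 2 * M / 4)) + ε)) ∧
      (∀ (M n B : ℕ) (N : Fin M → ℕ) (e : Fin M → Fin n → ZMod 2), (∀ j, Class (N j)) →
        (∀ j, e j ≠ 0) → (∀ j l, j ≠ l → ¬ (e j = e l ∧ N j = N l)) → 0 < M → 0 < B →
        ∀ ε : ℝ, 0 < ε → ∃ D₀ : ℕ, ∀ D : ℕ, D₀ ≤ D → S D → ∀ η : ℝ, 0 < η →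
          share D (fun d => 1.53 + η ≤ averageRank (2 * B) (values N e d)) ≤
            2 * B * Real.exp (-(η ^ 2 * M / (16 * B ^ 2))) + ε) ∧
      (∀ (k : ℕ) (N : ℕ), Class N → ∀ ε : ℝ, 0 < ε → ∃ D₀ : ℕ, ∀ D : ℕ, D₀ ≤ D → S D →
        ∀ (T : Set ℕ) (φ : ℕ → ℝ), Phase k D φ →
          |(∑ d ∈ divs D, ((if ∃ r ∈ T, (Sel (squarefreePart (N * d))).ncard = 2 ^ (1 + r) then 1 else 0) -
            ∑' r : T, α r) * φ d) / ((divs D).card : ℝ)| ≤ ε)) ∧
    HasSum α 1 ∧
    (∀ t : ℕ, 1 - ∑ r ∈ Finset.range (t + 1), α r ≤ 1 / ∏ i ∈ Finset.range (t + 1), ((2 : ℝ) ^ (i + 1) - 1)) ∧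
    0.4194 < κ ∧ κ < 0.4195 := by
  have hα : α = al := funext α_eq
  have hκ : al 0 = κ := al0_c2
  have hκ1 : 0.4194 < κ := Pool.Agent.Y948.CQ.t_C2.2.2.2.1
  have hκ2 : κ < 0.4195 := Pool.Agent.Y948.CQ.t_C2.2.2.2.2
  have hαT : ∀ T : Set ℕ, ∑' r : T, α r = alS T := by
    intro T
    rw [hα]
    rfl
  refine ⟨fun D hD => ?_, fun D hD => ?_, fun n D N e d hD hN hd => ?_, ?_, ?_, α_tail, hκ1, hκ2⟩
  · have hC := (class_iff D).1 hD
    rw [rk_corank hC]
    exact main_set hC
  · rw [divs_eq, card_dvN _ hD]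
    congr 1
    refine fcc fun p hp => ?_
    rw [P49]
    exact ⟨fun h => h.2, fun h => ⟨Nat.prime_of_mem_primeFactors hp, h⟩⟩
  · rw [divs_eq] at hd
    have hd' : ∀ i, Cl ρ49.Φ (d i) := fun i => ((mem_dvN hD).1 (hd i)).1
    refine ⟨(class_cl _).2 (frn_Cl ((class_cl _).1 hN) e hd'), nat_sqf ?_⟩
    unfold form
    exact mul_ne_zero hN.1.ne_zero (Finset.prod_ne_zero_iff.2 fun i _ => pow_ne_zero _ (hd' i).1.ne_zero)
  · obtain ⟨S, hS, hS', hL, hP⟩ := mainT ρ49 nf
    have hcc : ∀ X : ℕ, count Class X = Q155.NL.cnt (Cl ρ49.Φ) X := by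
      intro X
      unfold count Q155.NL.cnt Q155.NL.cs
      exact fcc fun D _ => class_cl D
    -- the law for sets of orders
    have hset : ∀ {M n D : ℕ} {N : Fin M → ℕ} {e : Fin M → Fin n → ZMod 2}, D ≠ 0 → (∀ j, Class (N j)) →
        ∀ d ∈ Fintype.piFinset (fun _ : Fin n => dvN ρ49.Φ D), ∀ (T : Set ℕ) (j : Fin M),
        ((∃ r ∈ T, (Sel (values N e d j)).ncard = 2 ^ (1 + r)) ↔
          rk ρ49.Φ nf (values N e d j).primeFactors ∈ T) := by
      intro M n D N e hD0 hN d hd T j
      have hC := c4_val hD0 hN e (fun i => Fintype.mem_piFinset.1 hd i) j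
      constructor
      · rintro ⟨r, hr, h⟩
        rw [(sel_iff hC).1 h]
        exact hr
      · intro h
        exact ⟨_, h, (sel_iff hC).2 rfl⟩
    refine ⟨S, ?_, ?_, fun M n N e hN he hd ε hε => ?_, fun M n B N e hN he hd hM hB ε hε => ?_,
      fun k N hN ε hε => ?_⟩
    · have h1 := Q155.NL.tendsto_of_alm (C := fun _ => True) ⟨1, le_rfl, trivial⟩ hS
      refine h1.congr fun X => ?_
      have h2 : Q155.NL.cnt (fun _ => True) X = X := by
        have h0 : Q155.NL.cs (fun _ => True) X = Finset.Icc 1 X := by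
          ext D
          rw [Q155.NL.mem_cs, Finset.mem_Icc]
          exact ⟨fun h => h.1, fun h => ⟨h, trivial⟩⟩
        unfold Q155.NL.cnt
        rw [h0, Nat.card_Icc]
        omega
      rw [h2]
      congr 2
      unfold Q155.NL.cnt Q155.NL.cs count
      congr 1
      ext D
      simp
    · have h1 := Q155.NL.tendsto_of_alm (C := Cl ρ49.Φ) ⟨1, le_rfl, squarefree_one, by simp⟩ hS'
      refine h1.congr fun X => ?_
      rw [hcc]
      congr 2
      unfold Q155.NL.cnt Q155.NL.cs count
      exact fcc fun D _ => and_congr_left fun _ => (class_cl D).symm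
    · have hN' : ∀ j, Cl ρ49.Φ (N j) := fun j => (class_cl _).1 (hN j)
      have e1 := hL M n N e hN' he hd ε hε
      have e2 := law_tyT hL (Fin M) N e hN' he hd (show 0 < ε / 2 ^ M by positivity)
      obtain ⟨D₀, hD₀⟩ := eventually_atTop.1 ((e1.and e2).and (eventually_ne_atTop 0))
      refine ⟨D₀, fun D hD hSD => ?_⟩
      obtain ⟨⟨k1, k2⟩, hD0⟩ := hD₀ D hD
      replace k1 := k1 hSD
      replace k2 := k2 hSD
      have hval : ∀ (d : Fin n → ℕ) (j : Fin M), values N e d j = sqn (frn (N j) (e j) d) := fun _ _ => rfl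
      have hI := pi_pos ρ49.Φ (n := n) hD0
      have hjoint : ∀ V : Set (Fin M → ℕ), share D (fun d =>
          ∃ r ∈ V, ∀ j, (Sel (values N e d j)).ncard = 2 ^ (1 + r j)) =
          shN ρ49.Φ D (fun d => (fun j => rk ρ49.Φ nf (sqn (frn (N j) (e j) d)).primeFactors) ∈ V) := by
        intro V
        rw [share_eq]
        refine le_antisymm (shN_mono fun d hd h => ?_) (shN_mono fun d hd h => ?_)
        · obtain ⟨r, hr, h⟩ := h
          have h2 : (fun j => rk ρ49.Φ nf (sqn (frn (N j) (e j) d)).primeFactors) = r := by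
            funext j
            exact (sel_iff (c4_val hD0 hN e (fun i => Fintype.mem_piFinset.1 hd i) j)).1 (h j)
          rw [h2]
          exact hr
        · exact ⟨_, h, fun j => (sel_iff (c4_val hD0 hN e (fun i => Fintype.mem_piFinset.1 hd i) j)).2 rfl⟩
      refine ⟨fun V => ?_, fun t => ?_, ?_, fun hM T η hη => ?_⟩
      · rw [hjoint, hα]
        exact k1 V
      · obtain ⟨T, hT⟩ : ∃ T : Set ℕ, T = {r | r < t + 1} := ⟨_, rfl⟩
        have h1 := (abs_le.1 (k2 T Finset.univ)).1
        rw [Finset.card_univ, Nat.sub_self, pow_zero, mul_one, Fintype.card_fin] at h1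
        have h2 : alS T = ∑ r ∈ Finset.range (t + 1), α r := by
          have h3 := hasSum_alS T
          have h4 : HasSum (fun r : ℕ => if r ∈ T then al r else 0)
              (∑ r ∈ Finset.range (t + 1), if r ∈ T then al r else 0) :=
            hasSum_sum_of_ne_finset_zero (fun r hr => by
              rw [Finset.mem_range] at hr
              exact if_neg fun h => hr (by rw [hT] at h; exact h))
          rw [h3.unique h4, hα]
          refine Finset.sum_congr rfl fun r hr => if_pos ?_
          rw [hT]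
          exact Finset.mem_range.1 hr
        rw [← h2]
        have h3 : shN ρ49.Φ D (fun d => ∀ j : Fin M,
            (rk ρ49.Φ nf (sqn (frn (N j) (e j) d)).primeFactors ∈ T ↔ j ∈ Finset.univ)) ≤
            share D (fun d => ∀ j, rank (values N e d j) ≤ 2 * t) := by
          rw [share_eq]
          refine shN_mono fun d hd h j => ?_
          have h4 := (h j).2 (Finset.mem_univ j)
          rw [hT] at h4
          have h5 : rk ρ49.Φ nf (values N e d j).primeFactors < t + 1 := h4
          have h6 := (main_set (c4_val hD0 hN e (fun i => Fintype.mem_piFinset.1 hd i) j)).2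
          omega
        have h4 : ε / 2 ^ M ≤ ε := div_le_self hε.le (one_le_pow₀ (by norm_num))
        linarith
      · have h1 := (abs_le.1 (k2 {0} ∅)).2
        have h0 : alS {0} = κ := alS_zero.trans hκ
        rw [Finset.card_empty, Nat.sub_zero, pow_zero, one_mul, h0, Fintype.card_fin] at h1
        have h2 : 1 ≤ shN ρ49.Φ D (fun d => ∃ j, rank (values N e d j) = 0) + shN ρ49.Φ D (fun d =>
            ∀ j : Fin M, (rk ρ49.Φ nf (sqn (frn (N j) (e j) d)).primeFactors ∈ ({0} : Set ℕ) ↔
              j ∈ (∅ : Finset (Fin M)))) := by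
          refine shN_or hD0 fun d hd => ?_
          by_cases h : ∃ j, rank (values N e d j) = 0
          · exact Or.inl h
          · refine Or.inr fun j => iff_of_false (fun h4 => h ⟨j, ?_⟩) (Finset.notMem_empty j)
            have h5 : rk ρ49.Φ nf (values N e d j).primeFactors = 0 := h4
            have h6 := (main_set (c4_val hD0 hN e (fun i => Fintype.mem_piFinset.1 hd i) j)).2
            omega
        rw [share_eq]
        have h4 : ε / 2 ^ M ≤ ε := div_le_self hε.le (one_le_pow₀ (by norm_num))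
        linarith
      · have h2 := lln_gen hI (Fin M) (fun j d => ∃ r ∈ T, (Sel (values N e d j)).ncard = 2 ^ (1 + r))
          (p := alS T) (δ := ε / 2 ^ M) (alS_nonneg T) (alS_le T) (fun Q => by
            have h3 := k2 T Q
            unfold shN at h3
            rw [cE_congr (Q := fun d => ∀ j : Fin M,
              (rk ρ49.Φ nf (sqn (frn (N j) (e j) d)).primeFactors ∈ T ↔ j ∈ Q)) fun d hd =>
                forall_congr' fun j => by rw [hset hD0 hN d hd T j]; rfl]
            have h5 : cE (Fintype.piFinset fun _ : Fin n => dvN ρ49.Φ D) (fun d => ∀ j : Fin M,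
              (rk ρ49.Φ nf (sqn (frn (N j) (e j) d)).primeFactors ∈ T ↔ j ∈ Q)) -
              alS T ^ Q.card * (1 - alS T) ^ (Fintype.card (Fin M) - Q.card) *
                (Fintype.piFinset fun _ : Fin n => dvN ρ49.Φ D).card =
              (cE (Fintype.piFinset fun _ : Fin n => dvN ρ49.Φ D) (fun d => ∀ j : Fin M,
              (rk ρ49.Φ nf (sqn (frn (N j) (e j) d)).primeFactors ∈ T ↔ j ∈ Q)) /
                (Fintype.piFinset fun _ : Fin n => dvN ρ49.Φ D).card -
              alS T ^ Q.card * (1 - alS T) ^ (Fintype.card (Fin M) - Q.card)) *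
                (Fintype.piFinset fun _ : Fin n => dvN ρ49.Φ D).card := by
              field_simp
            rw [h5, abs_mul, abs_of_pos hI]
            exact mul_le_mul_of_nonneg_right h3 hI.le) (by rw [Fintype.card_fin]; exact hM) hη
        rw [Fintype.card_fin] at h2
        have h3 : (2 : ℝ) ^ M * (ε / 2 ^ M) = ε := by field_simp
        rw [h3] at h2
        rw [share_eq, hαT]
        unfold shN
        rw [div_le_iff₀ hI]
        exact h2
    · have hN' : ∀ j, Cl ρ49.Φ (N j) := fun j => (class_cl _).1 (hN j)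
      have hB' : (0 : ℝ) < B := by exact_mod_cast hB
      have e2 := law_tyT hL (Fin M) N e hN' he hd (show 0 < ε / (B * 2 ^ M) by positivity)
      obtain ⟨D₀, hD₀⟩ := eventually_atTop.1 (e2.and (eventually_ne_atTop 0))
      refine ⟨D₀, fun D hD hSD η hη => ?_⟩
      obtain ⟨k2, hD0⟩ := hD₀ D hD
      replace k2 := k2 hSD
      have hI := pi_pos ρ49.Φ (n := n) hD0
      have h2 := avg_rank hI hM (fun j d => rk ρ49.Φ nf (values N e d j).primeFactors)
        (fun j d => rank (values N e d j)) (fun d hd j =>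
          (main_set (c4_val hD0 hN e (fun i => Fintype.mem_piFinset.1 hd i) j)).2)
        (δ := ε / (B * 2 ^ M)) (fun T Q => by
          have h3 := k2 T Q
          rw [Fintype.card_fin] at h3
          unfold shN at h3
          have h5 : cE (Fintype.piFinset fun _ : Fin n => dvN ρ49.Φ D) (fun d => ∀ j : Fin M,
              (rk ρ49.Φ nf (values N e d j).primeFactors ∈ T ↔ j ∈ Q)) -
              alS T ^ Q.card * (1 - alS T) ^ (M - Q.card) *
                (Fintype.piFinset fun _ : Fin n => dvN ρ49.Φ D).card =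
              (cE (Fintype.piFinset fun _ : Fin n => dvN ρ49.Φ D) (fun d => ∀ j : Fin M,
              (rk ρ49.Φ nf (values N e d j).primeFactors ∈ T ↔ j ∈ Q)) /
                (Fintype.piFinset fun _ : Fin n => dvN ρ49.Φ D).card -
              alS T ^ Q.card * (1 - alS T) ^ (M - Q.card)) *
                (Fintype.piFinset fun _ : Fin n => dvN ρ49.Φ D).card := by
              field_simp
          rw [h5, abs_mul, abs_of_pos hI]
          exact mul_le_mul_of_nonneg_right h3 hI.le) hB hη
      have h3 : (B : ℝ) * (2 ^ M * (ε / (B * 2 ^ M))) = ε := by field_simp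
      rw [h3] at h2
      rw [share_eq]
      unfold shN
      rw [div_le_iff₀ hI]
      exact h2
    · obtain ⟨D₀, hD₀⟩ := eventually_atTop.1 ((hP k N ((class_cl _).1 hN) ε hε).and (eventually_ne_atTop 0))
      refine ⟨D₀, fun D hD hSD T φ hφ => ?_⟩
      obtain ⟨k1, hD0⟩ := hD₀ D hD
      have h1 := k1 hSD T φ (by
        intro x hx y hy
        rw [← divs_eq] at hx
        exact hφ x hx y fun i => by rw [divs_eq]; exact hy i)
      rw [hαT, divs_eq]
      refine le_trans (le_of_eq ?_) h1
      congr 2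
      refine Finset.sum_congr rfl fun d hd => ?_
      have h2 := hset (M := 1) (n := 1) (N := fun _ => N) (e := fun _ _ => 1) hD0 (fun _ => hN) (fun _ => d)
        (Fintype.mem_piFinset.2 fun _ => hd) T 0
      have h3 : values (fun _ : Fin 1 => N) (fun _ _ => (1 : ZMod 2)) (fun _ : Fin 1 => d) 0 =
          squarefreePart (N * d) := by
        unfold values form
        have h4 : (1 : ZMod 2).val = 1 := rfl
        rw [Fin.prod_const, h4, pow_one, pow_one]
      rw [h3] at h2
      by_cases h4 : rk ρ49.Φ nf (squarefreePart (N * d)).primeFactors ∈ T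
      · rw [if_pos (h2.2 h4)]
        have h5 : rk ρ49.Φ nf (sqn (N * d)).primeFactors ∈ T := h4
        rw [if_pos h5]
      · rw [if_neg fun h => h4 (h2.1 h)]
        have h5 : ¬ rk ρ49.Φ nf (sqn (N * d)).primeFactors ∈ T := h4
        rw [if_neg h5]
  · rw [hα]
    exact Q283.GS.hasSum_al

end Pool.Agent.Results.MP_157626_nt.SelmerOrdersInsideDivisors
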