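import Pool.Agent.Q5.RG.Asc4

/-! Beilinson's conjecture for the base changes `X_F` of a projective variety `X` over a number field
`K`: it passes from the proper subfields of `F` to `F` if `Aut(F/K)` has a noncyclic subgroup whose order
is a product of two primes. The regulator, the continuation, the order and the leading coefficient. -/

namespace Pool.Agent.Results.MP_15b3df_nt.AscentFromSubfields

open NumberField IsDedekindDomain Polynomial Pool.Agent.Q5.RG Pool.Agent.Q5.VL

/-- Beilinson's conjecture for `X_F` at `s = m`: the regulator is an isomorphism; for all choices of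
the bad Euler factors, `L(H^i(X_F), s)` has a meromorphic continuation to `Ω`; its order at `s = m` is
the dimension of motivic cohomology, and its leading coefficient a rational multiple of the determinant
of the regulator. -/
def Beilinson {K : Type} [Field K] [NumberField K] {n : ℕ} (X : Set (MvPolynomial (Fin n) (𝓞 K)))
    (d i N : ℕ) (m : ℤ) (Ω : Set ℂ) (M : Spaces ℚ ℝ Gal(AlgebraicClosure K/K)) (F : Type) [Field F]
    [NumberField F] [Algebra K F] : Prop :=
  (∃ r c, M.Reg F r c) ∧
    ∀ B : HeightOneSpectrum (𝓞 F) → ℚ[X], Sys X d i N m F B → M.Pow m Ω F B 1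

/-- a noncyclic group whose order is a product of two primes -/
def NoncyclicPQ (G : Type) [Group G] : Prop :=
  ¬ IsCyclic G ∧ ∃ p q : ℕ, p.Prime ∧ q.Prime ∧ Nat.card G = p * q

/-- the property `Q` for the fields fixed by the nontrivial subgroups of `A` -/
def OverFixedFields {K F : Type} [Field K] [NumberField K] [Field F] [NumberField F] [Algebra K F]
    (Q : ∀ (F' : Type) [Field F'] [NumberField F'] [Algebra K F'], Prop)
    (A : Subgroup (F ≃ₐ[K] F)) : Prop :=
  ∀ B : Subgroup (F ≃ₐ[K] F), B ≤ A → B ≠ ⊥ → Q (IntermediateField.fixedField B)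

theorem result (K : Type) [Field K] [NumberField K] (n : ℕ) (X : Set (MvPolynomial (Fin n) (𝓞 K)))
    (d i N : ℕ) (hi : i ≤ 2 * d) (m : ℤ) (Ω : Set ℂ) (hΩ : IsDom Ω (m : ℂ))
    (hsys : ∀ (F : Type) [Field F] [NumberField F] [Algebra K F], ∃ B, Sys X d i N m F B)
    (M : Spaces ℚ ℝ Gal(AlgebraicClosure K/K)) (hM : M.Good)
    (F : Type) [Field F] [NumberField F] [Algebra K F] :
    -- (1) a noncyclic group `A` of automorphisms of order `p q`
    (∀ A : Subgroup (F ≃ₐ[K] F), NoncyclicPQ A →
      (OverFixedFields (fun F' _ _ _ => ∃ r c, M.Reg F' r c) A → ∃ r c, M.Reg F r c) ∧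
      (OverFixedFields (fun F' _ _ _ => Beilinson X d i N m Ω M F') A →
        Beilinson X d i N m Ω M F)) ∧
    -- (2) the subfields whose groups of automorphisms have only cyclic subgroups of order `p q`
    ((∀ (F' : Type) [Field F'] [NumberField F'] [Algebra K F'] [Algebra F' F]
        [IsScalarTower K F' F], (∀ A : Subgroup (F' ≃ₐ[K] F'), ¬ NoncyclicPQ A) →
          Beilinson X d i N m Ω M F') → Beilinson X d i N m Ω M F) := by
  have hG := Spaces.goodM hM
  refine ⟨?_, fun h => ?_⟩
  · rintro A ⟨hn, p, q, hp, hq, hc⟩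
    refine ⟨fun h => ?_, fun h => ?_⟩
    · exact (Spaces.ex_iff hM.comp.onto).2 (reg_asc_pq hG A hp hq hc hn fun B hB hB0 =>
        (Spaces.ex_iff hM.comp.onto).1 (h B hB hB0))
    · exact (Spaces.conj_iff hM.comp.onto).1 (conjQ_asc hi hΩ hG hsys F A hp hq hc hn
        fun B hB hB0 hnf => (Spaces.conj_iff hM.comp.onto).2 (h B hB hB0))
  · refine (Spaces.conj_iff hM.comp.onto).1 (conjQ_reduce hi hΩ hG hsys _ F (Nat.lt_succ_self _) ?_)
    intro F' _ _ _ _ _ hF'
    refine (Spaces.conj_iff hM.comp.onto).2 (h F' ?_)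
    rintro A ⟨hn, p, q, hp, hq, hc⟩
    exact hn (hF' A p q hp hq hc)

end Pool.Agent.Results.MP_15b3df_nt.AscentFromSubfields
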