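import Pool.Agent.Q246.VR.Main

/-!
# Beilinson's conjecture over all number fields: the law of real places

`X` is a smooth projective variety over `ℚ`, `0 ≤ i ≤ 2 dim X`, `m < i/2` and `n = i + 1 - m`.  For the
number fields `F` we compare the leading coefficients `L*(X_F, m)` of the `L`-functions of
`H^i(X_F)` with the volumes `R_D(X_F)` of the rational structures given by the regulators.

The data enter as follows.
* `Φ p` is, for almost all primes `p`, a rational matrix with the characteristic polynomial of the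
  Frobenius on `H^i`; its eigenvalues have absolute value `p^(i/2)`.  The Euler factor of `L(X_F, s)`
  above `p` is `det(1 - Φ_p ⊗ P_F(φ_p) p^(-s))⁻¹` for almost all `p`, where `P_F(φ_p)` is the
  permutation matrix of the Frobenius element `φ_p` on the embeddings of `F`; the others are the inverses
  of arbitrary rational polynomials in `p^(-s)`.
* `W` is the complexification of the direct limit of the Deligne-Beilinson cohomology groups
  `H_D^{i+1}(X_F/ℝ, ℝ(n))`, with the action of `Gal(ℚ̄/ℚ)`; `D ⊆ W` is the natural rational structure,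
  and `V ⊆ W` is the image of the direct limit of the groups `H_M^{i+1}(X_F, ℚ(n))_ℤ` under the
  regulator.  The groups over `F` are the invariants of `Gal(ℚ̄/F)`.
* If one prefers to define the volume with the exact sequence
  `0 → F^n H_dR^i → H_B^i → H_D^{i+1} → 0` and the rational structures of its first two terms, one
  takes for `W` the complexification of the limit of the Betti cohomology groups, for `D` the rational
  Betti structure and for `V` the sum of the rational structure of the limit of the `F^n H_dR^i(X_F)` and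
  of the image of a Galois equivariant lift of the regulator to `W` (there is one, since the action of the
  profinite group `Gal(ℚ̄/ℚ)` is smooth): then `IsVolume` gives the volume of Beilinson.
-/

set_option autoImplicit false

namespace Pool.Agent.Results.MP_15b3df_nt.LawOfRealPlaces

open Filter NumberField Polynomial
open scoped Classical Kronecker

/-- the absolute Galois group -/
abbrev Galois (K : Type) [Field K] : Type := Gal(AlgebraicClosure K/K)

/-- the intermediate fields of `K̄/K` -/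
abbrev Sub (K : Type) [Field K] : Type := IntermediateField K (AlgebraicClosure K)

/-- `σ` is a Frobenius element at the prime number `p` (for `K = ℚ`): there is a maximal ideal `Q`
above `p` of the ring of all algebraic integers with `σ x ≡ x ^ p` modulo `Q` for all `x` -/
def IsFrobenius {K : Type} [Field K] [NumberField K] (p : ℕ) (σ : Galois K) : Prop :=
  ∃ Q : Ideal (𝓞 (AlgebraicClosure K)), Q.IsMaximal ∧ (p : 𝓞 (AlgebraicClosure K)) ∈ Q ∧
    ∀ x : 𝓞 (AlgebraicClosure K), σ • x - x ^ p ∈ Q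

/-! ## The L-functions -/

section
variable {K : Type} [Field K]

/-- The embeddings of `F` in `K̄`. -/
abbrev Embeddings (F : Sub K) : Type := F →ₐ[K] AlgebraicClosure K

/-- The embedding `x ↦ σ (j x)`. -/
noncomputable def move (F : Sub K) (σ : Galois K) (j : Embeddings F) : Embeddings F :=
  AlgHom.comp σ j

/-- The permutation matrix `P_F(σ)` of `σ` on the embeddings of `F` in `K̄`. -/
noncomputable def permutation (F : Sub K) (σ : Galois K) :
    Matrix (Embeddings F) (Embeddings F) ℚ :=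
  Matrix.of fun i j => if move F σ j = i then 1 else 0

/-- The polynomial `det(1 - T Φ ⊗ P_F(σ))`. -/
noncomputable def eulerPolynomial (F : Sub K) [FiniteDimensional K F] {n : ℕ}
    (Φ : Matrix (Fin n) (Fin n) ℚ) (σ : Galois K) : ℚ[X] :=
  (Φ ⊗ₖ permutation F σ).charpolyRev

/-- The number of the real places of `F`. -/
noncomputable def realPlaces (F : Sub K) : ℕ := Nat.card (F →+* ℝ)

end

/-- The eigenvalues of almost all `Φ p` have absolute value `p^(i/2)`. -/
def Pure (i : ℕ) {n : ℕ} (Φ : ℕ → Matrix (Fin n) (Fin n) ℚ) : Prop :=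
  ∀ᶠ p : Nat.Primes in cofinite, ∀ z ∈ spectrum ℂ ((Φ p).map (algebraMap ℚ ℂ)),
    ‖z‖ = ((p : ℕ) : ℝ) ^ ((i : ℝ) / 2)

/-- The `B_p(p^(-s))⁻¹` are the Euler factors above `p` of `L(X_F, s)`; the finitely many not given by
`Φ` are those of arbitrary rational polynomials with `B_p(0) ≠ 0`, `B_p(p^(-m)) ≠ 0`. -/
structure EulerFactors {n : ℕ} (Φ : ℕ → Matrix (Fin n) (Fin n) ℚ) (φ : ℕ → Galois ℚ) (m : ℤ)
    (F : Sub ℚ) [FiniteDimensional ℚ F] (B : Nat.Primes → ℚ[X]) : Prop where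
  good : ∀ᶠ p : Nat.Primes in cofinite, B p = eulerPolynomial F (Φ p) (φ p)
  zero : ∀ p, (B p).eval 0 ≠ 0
  at_m : ∀ p : Nat.Primes, (B p).eval (((p : ℕ) : ℚ) ^ (-m)) ≠ 0

/-- The Euler product. -/
noncomputable def LFunction (B : Nat.Primes → ℚ[X]) (s : ℂ) : ℂ :=
  ∏' p : Nat.Primes, (aeval (((p : ℕ) : ℂ) ^ (-s)) (B p))⁻¹

/-- The Euler product has a meromorphic continuation to `Ω` with the leading coefficient `c` at
`s = m`. -/
def HasLeading (Ω : Set ℂ) (m : ℤ) (B : Nat.Primes → ℚ[X]) (c : ℂ) : Prop :=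
  ∃ Λ : ℂ → ℂ, MeromorphicOn Λ Ω ∧ (∃ c₀ : ℝ, ∀ s : ℂ, c₀ < s.re → Λ s = LFunction B s) ∧
    meromorphicTrailingCoeffAt Λ (m : ℂ) = c

/-! ## Rational structures and volumes -/

section
variable {W : Type} [AddCommGroup W] [Module ℂ W] [Module ℚ W]

/-- The invariants `W^F` of `Gal(ℚ̄/F)`. -/
def invariants (ρ : Representation ℂ (Galois ℚ) W) (F : Sub ℚ) : Submodule ℂ W where
  carrier := {w | ∀ g ∈ F.fixingSubgroup, ρ g w = w}
  add_mem' := fun {a b} ha hb g hg => by rw [map_add, ha g hg, hb g hg]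
  zero_mem' := fun g _ => map_zero _
  smul_mem' := fun c w hw g hg => by rw [map_smul, hw g hg]

/-- The space `D^F = D ∩ W^F`. -/
noncomputable def atField (ρ : Representation ℂ (Galois ℚ) W) (D : Submodule ℚ W) (F : Sub ℚ) :
    Submodule ℚ W :=
  D ⊓ (invariants ρ F).restrictScalars ℚ

/-- `D` is a rational structure of the complex vector space `P`: it is contained in `P`, spans `P`, and
vectors of `D` which are linearly independent over `ℚ` are linearly independent over `ℂ`. -/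
def IsStructure (D : Submodule ℚ W) (P : Submodule ℂ W) : Prop :=
  (∀ d ∈ D, d ∈ P) ∧ (∀ p ∈ P, p ∈ Submodule.span ℂ (D : Set W)) ∧
    ∀ (k : ℕ) (v : Fin k → W), (∀ i, v i ∈ D) → LinearIndependent ℚ v → LinearIndependent ℂ v

/-- `b` is a basis of `D`. -/
structure IsBasis {k : ℕ} (b : Fin k → W) (D : Submodule ℚ W) : Prop where
  independent : LinearIndependent ℚ b
  span : Submodule.span ℚ (Set.range b) = D

/-- `r` is the volume of the rational structure `V` measured against the rational structure `D`: the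
determinant of a basis of `V` with respect to a basis of `D`. -/
def IsVolume (D V : Submodule ℚ W) (r : ℂ) : Prop :=
  ∃ (k : ℕ) (b' b : Fin k → W) (A : Matrix (Fin k) (Fin k) ℂ), IsBasis b' D ∧ IsBasis b V ∧
    (∀ j, b j = ∑ i, A i j • b' i) ∧ A.det = r

/-- `D` is a rational structure, compatible with the action of the Galois group: over each number field
`F` it gives a rational structure of the finite-dimensional space `W^F`. -/
def Natural (ρ : Representation ℂ (Galois ℚ) W) (D : Submodule ℚ W) : Prop :=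
  (∀ g, ∀ d ∈ D, ρ g d ∈ D) ∧ ∀ F : Sub ℚ, FiniteDimensional ℚ F →
    FiniteDimensional ℂ (invariants ρ F) ∧ IsStructure (atField ρ D F) (invariants ρ F)

/-- Q1 for `X_F`: the regulator gives a rational structure. -/
def RegulatorStructure (ρ : Representation ℂ (Galois ℚ) W) (V : Submodule ℚ W) (F : Sub ℚ) : Prop :=
  IsStructure (atField ρ V F) (invariants ρ F)

/-- `x` is a quotient `L*(X_F, m) / R_D(X_F)`. -/
def IsQuotient {n : ℕ} (Φ : ℕ → Matrix (Fin n) (Fin n) ℚ) (φ : ℕ → Galois ℚ) (m : ℤ) (Ω : Set ℂ)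
    (ρ : Representation ℂ (Galois ℚ) W) (D V : Submodule ℚ W) (F : Sub ℚ) [FiniteDimensional ℚ F]
    (x : ℂ) : Prop :=
  ∃ (B : Nat.Primes → ℚ[X]) (c r : ℂ), EulerFactors Φ φ m F B ∧ HasLeading Ω m B c ∧
    IsVolume (atField ρ D F) (atField ρ V F) r ∧ c / r = x

end

/-- `x` is a root of a rational number different from zero. -/
def RootOfRational (x : ℂ) : Prop := ∃ k : ℕ, 0 < k ∧ ∃ y : ℚ, y ≠ 0 ∧ x ^ k = y

/-- Q1 and, up to roots of rational numbers, Q2 hold for `X_F` if `F` is totally complex and its degree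
is divisible by `N`. -/
def HoldsOverComplexFields {W : Type} [AddCommGroup W] [Module ℂ W] [Module ℚ W] {n : ℕ}
    (Φ : ℕ → Matrix (Fin n) (Fin n) ℚ) (φ : ℕ → Galois ℚ) (m : ℤ)
    (Ω : Set ℂ) (ρ : Representation ℂ (Galois ℚ) W) (D V : Submodule ℚ W) (N : ℕ) : Prop :=
  ∀ (F : Sub ℚ) [FiniteDimensional ℚ F], IsEmpty (F →+* ℝ) → N ∣ Module.finrank ℚ F →
    RegulatorStructure ρ V F ∧ ∃ x : ℂ, IsQuotient Φ φ m Ω ρ D V F x ∧ RootOfRational x

section
variable {W : Type} [AddCommGroup W] [Module ℂ W] [Module ℚ W] {n : ℕ}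
  (Φ : ℕ → Matrix (Fin n) (Fin n) ℚ) (φ : ℕ → Galois ℚ) (m : ℤ) (Ω : Set ℂ)
  (ρ : Representation ℂ (Galois ℚ) W) (D V : Submodule ℚ W)

/-- If `∑ c_i r₁(F_i) = 0`, then `∏ (L*(X_{F_i}, m) / R_D(X_{F_i}))^(c_i)` is a root of a rational
number. -/
def RelationLaw : Prop :=
  ∀ (t : ℕ) (F : Fin t → Sub ℚ) [∀ i, FiniteDimensional ℚ (F i)] (x : Fin t → ℂ),
    (∀ i, IsQuotient Φ φ m Ω ρ D V (F i) (x i)) → ∀ c : Fin t → ℤ,
    ∑ i, c i * (realPlaces (F i) : ℤ) = 0 → RootOfRational (∏ i, x i ^ c i)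

/-- `L*(X_F, m) / R_D(X_F)` is, up to a root of a rational number, equal to
`(L*(X, m) / R_D(X))^(r₁(F))`. -/
def PowerLaw : Prop :=
  ∀ (F : Sub ℚ) [FiniteDimensional ℚ F] (x x₀ : ℂ), IsQuotient Φ φ m Ω ρ D V F x →
    IsQuotient Φ φ m Ω ρ D V ⊥ x₀ → RootOfRational (x / x₀ ^ realPlaces F)

/-- If `L*(X_F, m) / R_D(X_F)` is a root of a rational number for one `F` with a real place, then this
holds for all number fields. -/
def OneFieldSuffices : Prop :=
  ∀ (F₀ : Sub ℚ) [FiniteDimensional ℚ F₀] (x₀ : ℂ), IsQuotient Φ φ m Ω ρ D V F₀ x₀ →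
    0 < realPlaces F₀ → RootOfRational x₀ →
    ∀ (F : Sub ℚ) [FiniteDimensional ℚ F] (x : ℂ), IsQuotient Φ φ m Ω ρ D V F x →
      RootOfRational x

end

/-! ## Proofs -/

theorem norms : Pool.Agent.Q246.AT.Norms (fun p : Nat.Primes => (p : ℕ)) := by
  refine ⟨fun p => p.2.two_le, fun σ hσ => ?_⟩
  rw [Nat.Primes.summable_rpow]
  linarith

section
variable {W : Type} [AddCommGroup W] [Module ℂ W] [Module ℚ W]

theorem isVol_iff {D V : Submodule ℚ W} {r : ℂ} :
    IsVolume D V r ↔ Pool.Agent.Q246.VR.IsVol D V r := by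
  constructor
  · rintro ⟨k, b', b, A, h1, h2, h3⟩
    exact ⟨k, b', b, A, ⟨h1.1, h1.2⟩, ⟨h2.1, h2.2⟩, h3⟩
  · rintro ⟨k, b', b, A, h1, h2, h3⟩
    exact ⟨k, b', b, A, ⟨h1.1, h1.2⟩, ⟨h2.1, h2.2⟩, h3⟩

variable {n : ℕ} {Φ : ℕ → Matrix (Fin n) (Fin n) ℚ} {φ : ℕ → Galois ℚ} {m : ℤ} {i₀ : ℕ}
  {Ω : Set ℂ} {ρ : Representation ℂ (Galois ℚ) W} {D V : Submodule ℚ W} {N : ℕ}

theorem ef_iff {F : Sub ℚ} [FiniteDimensional ℚ F] {B : Nat.Primes → ℚ[X]}
    (h : EulerFactors Φ φ m F B) :
    Pool.Agent.Q246.VR.EF (fun p : Nat.Primes => (p : ℕ)) (fun p : Nat.Primes => Φ p)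
      (fun p : Nat.Primes => φ p) m F B := ⟨h.good, h.zero, h.at_m⟩

theorem quot {F : Sub ℚ} [FiniteDimensional ℚ F] {x : ℂ} (h : IsQuotient Φ φ m Ω ρ D V F x) :
    Pool.Agent.Q246.VR.Quot' (fun p : Nat.Primes => (p : ℕ)) (fun p : Nat.Primes => Φ p)
      (fun p : Nat.Primes => φ p) m Ω ρ D V F x := by
  obtain ⟨B, c, r, h1, ⟨Λ, h2, h3, h4⟩, h5, h6⟩ := h
  exact ⟨B, c, r, ef_iff h1, ⟨Λ, h2, Pool.Agent.Q246.AT.ev_iff.2 h3, h4⟩, isVol_iff.1 h5, h6⟩

theorem spec (h : HoldsOverComplexFields Φ φ m Ω ρ D V N) :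
    Pool.Agent.Q246.VR.Spec (fun p : Nat.Primes => (p : ℕ)) (fun p : Nat.Primes => Φ p)
      (fun p : Nat.Primes => φ p) m Ω ρ D V (Pool.Agent.Q246.VR.Fam ℚ N) := by
  intro F hfd hF
  obtain ⟨h1, x, h2, h3⟩ := h F hF.2.1 hF.2.2
  exact ⟨h1, x, quot h2, h3⟩

end

/-- **Theorem.** Let the eigenvalues of `Φ_p` have absolute value `p^(i/2)` for almost all `p`, let
`m < i/2`, let `Ω` be connected and contain `m` and a half-plane, and let `D` and `V` be Galois stable
rational subspaces of `W`, `D` with `Natural`.  Assume that over the totally complex number fields `F`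
with `N ∣ [F : ℚ]` the regulator gives a rational structure (Q1) and `L*(X_F, m) / R_D(X_F)` is a root of
a rational number (Q2 up to roots).  Then:
(1) Q1 holds for `X_F` for all number fields `F`;
(2) if `∑ c_i r₁(F_i) = 0`, then `∏ (L*(X_{F_i}, m) / R_D(X_{F_i}))^(c_i)` is a root of a rational
number;
(3) in particular `L*(X_F, m) / R_D(X_F)` is, up to a root of a rational number, equal to
`(L*(X, m) / R_D(X))^(r₁(F))`;
(4) so if `L*(X_F, m) / R_D(X_F)` is a root of a rational number for one `F` with a real place, then this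
holds for all number fields. -/
theorem result (i n N : ℕ) (m : ℤ) (hm : 2 * m < i) (hN : 0 < N)
    (Φ : ℕ → Matrix (Fin n) (Fin n) ℚ) (hΦ : Pure i Φ)
    (φ : ℕ → Galois ℚ) (_hφ : ∀ p : ℕ, p.Prime → IsFrobenius p (φ p))
    (Ω : Set ℂ) (hΩ : IsPreconnected Ω) (c₀ : ℝ) (hc₀ : {s : ℂ | c₀ < s.re} ⊆ Ω)
    (hmΩ : (m : ℂ) ∈ Ω)
    (W : Type) [AddCommGroup W] [Module ℂ W] [Module ℚ W] (ρ : Representation ℂ (Galois ℚ) W)
    (D V : Submodule ℚ W) (hD : Natural ρ D) (hV : ∀ g, ∀ v ∈ V, ρ g v ∈ V)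
    (h : HoldsOverComplexFields Φ φ m Ω ρ D V N) :
    (∀ (F : Sub ℚ) [FiniteDimensional ℚ F], RegulatorStructure ρ V F) ∧
    RelationLaw Φ φ m Ω ρ D V ∧ PowerLaw Φ φ m Ω ρ D V ∧ OneFieldSuffices Φ φ m Ω ρ D V := by
  have hF := Pool.Agent.Q246.VR.aWide_fam (K := ℚ) hN
  have hmw : (m : ℝ) ≠ (i : ℝ) / 2 := by
    intro h0
    have h1 : (2 * m : ℝ) = i := by rw [h0]; ring
    have h2 : 2 * m = (i : ℤ) := by exact_mod_cast h1
    omega
  have key : ∀ (F₀ : Sub ℚ) [FiniteDimensional ℚ F₀] (x₀ : ℂ), IsQuotient Φ φ m Ω ρ D V F₀ x₀ →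
      ∀ (F : Sub ℚ) [FiniteDimensional ℚ F] (x : ℂ), IsQuotient Φ φ m Ω ρ D V F x →
        RootOfRational (x ^ realPlaces F₀ / x₀ ^ realPlaces F) := fun F₀ _ x₀ h₀ F _ x hx =>
    Pool.Agent.Q246.VR.two_fields hF norms hΦ hmw hΩ hc₀ hmΩ hD.1 hD.2 hV (spec h) F F₀
      (quot hx) (quot h₀)
  have hne : Nonempty (ℚ →+* ℝ) := ⟨algebraMap ℚ ℝ⟩
  have hbot : realPlaces (⊥ : Sub ℚ) = 1 := Pool.Agent.Q246.VR.real_bot
  refine ⟨fun F _ => Pool.Agent.Q246.VR.structure_all hF hV (spec h) F, fun t F _ x hx c hc =>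
    Pool.Agent.Q246.VR.relation hF norms hΦ hmw hΩ hc₀ hmΩ hD.1 hD.2 hV (spec h) F x
      (fun j => quot (hx j)) c (fun σ hσ => ?_), fun F _ x x₀ hx h₀ => ?_,
    fun F₀ _ x₀ h₀ hpos hroot F _ x hx => ?_⟩
  · rw [← hc]
    exact Finset.sum_congr rfl fun j _ => by
      rw [Pool.Agent.Q246.VR.fixn_cc (F j) hσ]; rfl
  · have h1 := key ⊥ x₀ h₀ F x hx
    rw [hbot, pow_one] at h1
    exact h1
  · have h1 := key F₀ x₀ h₀ F x hx
    refine Pool.Agent.Q246.VR.root_of_pow hpos ?_
    have h2 := Pool.Agent.Q246.VR.root_mul h1 (Pool.Agent.Q246.VR.root_pow hroot (realPlaces F))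
    rw [div_mul_cancel₀ _ (pow_ne_zero _ (Pool.Agent.Q246.VR.root_ne hroot))] at h2
    exact h2

end Pool.Agent.Results.MP_15b3df_nt.LawOfRealPlaces
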