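import Pool.Agent.Q56.ZO.Reg
set_option autoImplicit false

/-!
Beilinson's conjecture on regulators (Q1) on the powers of a variety: a zero-one law. Let `X` be a
smooth projective variety over `ℚ` whose Chow motive is finite-dimensional in the sense of Kimura
and O'Sullivan (for example a product of curves, an abelian variety, or a variety dominated by such
varieties), and fix `r ≥ 2`. Either the regulator `r_D ⊗ ℝ` is an isomorphism from the integral part
of the motivic cohomology to the real Deligne-Beilinson cohomology for all powers of `X` and all
`(i, n)` with `2 n - i - 1 = r`, or the sum of the dimensions of the kernels and cokernels on `X^n`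
is asymptotically at least the rank of the group of cycles on `X^n` modulo numerical equivalence.
-/

namespace Pool.Agent.Results.MP_15b3df_nt.ZeroOneLaw

open Pool.Agent.H914 Pool.Agent.Y133.Half Pool.Agent.Q55.Rate Pool.Agent.Q56.ZO

universe u v w

/-- For every `ε > 0` and all large `n` the sum of the dimensions of the kernel and of the cokernel
of `φ` on `X^n` is at least `(d - ε)` times the rank of the group of cycles (of all codimensions) on
`X^n` modulo numerical equivalence. (`pw X n` is the product of `n + 1` copies of `X`.) -/
def DefectGrows {k : Type u} [Field k] {𝒱 : VarClass k} {ops : CycleOps 𝒱}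
    {W : WeilCohomology.{u, v} ops} {A B : CycTheory.{u, v, w} W} (φ : NatMap A B) (X : 𝒱.Obj)
    (d : ℕ) : Prop :=
  ∀ ε : ℝ, 0 < ε → ∃ n₀ : ℕ, ∀ n ≥ n₀, ∀ N : ℕ,
    (N : ℝ) ≤ ((d : ℝ) - ε) * cycRank ops (pw X n) → DefectGE φ (pw X n) N

/-- Let `φ : A → B` be a natural map between theories on which algebraic correspondences act, with
coefficients in the coefficient field of a Weil cohomology theory `W`: for example the Beilinson
regulators, `W(Y) = H^*(Y(ℂ), ℝ)`, `A(Y)` the sum of the groups `H_M^(i+1)(Y, ℚ(n))_ℤ ⊗ ℝ` and
`B(Y)` the sum of the groups `H_D^(i+1)(Y_ℝ, ℝ(n))` over all `(i, n)` with `2 n - i - 1 = r` fixed.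
Let `X` be a variety such that numerically trivial correspondences of the powers of `X` are
nilpotent on the cohomology and homologically trivial ones act nilpotently on `A` and `B` (this
holds if the Chow motive of `X` is finite-dimensional). Then:

either `φ` is an isomorphism on all powers of `X`, or for all `ε > 0` and all large `n` the sum of
the dimensions of the kernel and the cokernel of `φ` on `X^n` is at least `(1 - ε)` times the rank of
the group of cycles on `X^n` modulo numerical equivalence; and if `φ` is bijective on all direct
factors of rank less than `d` of the powers of `X` (no condition for `d = 1`), this holds with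
`d - ε` in place of `1 - ε`. -/
theorem result {k : Type u} [Field k] {𝒱 : VarClass k} {ops : CycleOps 𝒱}
    (W : WeilCohomology.{u, v} ops) (A B : CycTheory.{u, v, w} W) (φ : NatMap A B) (X : 𝒱.Obj)
    (hW : NumTrivialNilpotent W X) (hA : HomTrivialNilpotent A X)
    (hB : HomTrivialNilpotent B X) :
    BijectiveBelow φ X 1 ∧ ∀ d : ℕ, BijectiveBelow φ X d →
      (∀ n, Function.Bijective (φ.f (X := pw X n))) ∨ DefectGrows φ X d :=
  zero_one_map φ hW hA hB

end Pool.Agent.Results.MP_15b3df_nt.ZeroOneLaw
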