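import Mathlib
import Pool.Agent.Q183.DF.Conv

/-!
MP_160ed4_ag, Q1: the special sets of a quasi-projective variety which are swept out by the
holomorphic maps from the punctured disc, with an essential singularity, and by the entire curves
which are given by linear difference equations. Both are equal to the part of the special set
`Sp_sab` swept out by the multiplicative group.
-/

set_option autoImplicit false

namespace Pool.Agent.Results.MP_160ed4_ag.DifferenceEquationCurves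

open MvPolynomial Metric Set Filter Topology
open Pool.Agent.TH143 Pool.Agent.W603.BP
open Pool.Agent.Q183.DF (DiffEq SlimR FinOrd DiffHyp DiffPunct DiffEntire)

/-- A holomorphic map from the punctured unit disc to the variety `F = 0`, `Q ≠ 0` with an essential
singularity at the origin, given by linear difference equations. -/
structure PunctCurve {N : ℕ} {ι : Type} (F : ι → MvPolynomial (Fin (N + 1)) ℂ)
    (Q : MvPolynomial (Fin (N + 1)) ℂ) (f : ℂ → Fin (N + 1) → ℂ) : Prop where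
  an : ∀ j, AnalyticOnNhd ℂ (fun w => f w j) {w : ℂ | w ≠ 0 ∧ ‖w‖ < 1}
  ne : ∀ w : ℂ, w ≠ 0 → ‖w‖ < 1 → f w ≠ 0
  on : ∀ w : ℂ, w ≠ 0 → ‖w‖ < 1 → On F Q (f w)
  diff : DiffPunct Q f
  ess : ¬ Extends f

/-- A nonconstant holomorphic map from the line to the variety `F = 0`, `Q ≠ 0`, given by linear
difference equations. -/
structure EntCurve {N : ℕ} {ι : Type} (F : ι → MvPolynomial (Fin (N + 1)) ℂ)
    (Q : MvPolynomial (Fin (N + 1)) ℂ) (f : ℂ → Fin (N + 1) → ℂ) : Prop where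
  an : ∀ j, Differentiable ℂ (fun z => f z j)
  ne : ∀ z : ℂ, f z ≠ 0
  on : ∀ z : ℂ, On F Q (f z)
  diff : DiffEntire f
  nonconst : ∃ z w j k, f z j * f w k ≠ f z k * f w j

variable {N : ℕ} {ι : Type}

theorem inv_disc {z : ℂ} (hz : z ∈ Ext 1) : z⁻¹ ≠ 0 ∧ ‖z⁻¹‖ < 1 :=
  inv_mem_PB one_pos (by rwa [inv_one])

theorem zero_of_through {P : Fin (N + 1) → Polynomial ℂ} {x : Fin (N + 1) → ℂ}
    (h : Through P x) {G : MvPolynomial (Fin (N + 1)) ℂ} {d : ℕ} (hG : G.IsHomogeneous d)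
    (h0 : ∀ t, t ≠ 0 → eval (fun j => (P j).eval t) G = 0) : eval x G = 0 := by
  obtain ⟨t, c, ht, hc, h⟩ := h
  have h1 := h0 t ht
  rw [show (fun j => (P j).eval t) = fun j => c * x j from funext h,
    Pool.Agent.H159R3.Exp.eval_smul_homog hG] at h1
  exact (mul_eq_zero.mp h1).resolve_left (pow_ne_zero _ hc)

theorem punct_both (F : ι → MvPolynomial (Fin (N + 1)) ℂ) (hF : ∀ i, ∃ d, (F i).IsHomogeneous d)
    (Q : MvPolynomial (Fin (N + 1)) ℂ) {e : ℕ} (hQ : Q.IsHomogeneous e)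
    (f : ℂ → Fin (N + 1) → ℂ) (hf : PunctCurve F Q f) :
    (∃ R : ℝ, 1 ≤ R ∧ ∀ z0 : ℂ, R < z0.re → ∃ᶠ m : ℕ in atTop, ∃ P,
      IsGmCurve F Q P ∧ Through P (f (z0 + m)⁻¹)) ∧
    ∀ G : MvPolynomial (Fin (N + 1)) ℂ, (∃ d, G.IsHomogeneous d) →
      (∀ P, IsGmCurve F Q P → ∀ t, t ≠ 0 → eval (fun j => (P j).eval t) G = 0) →
      ∀ w : ℂ, w ≠ 0 → ‖w‖ < 1 → eval (f w) G = 0 := by
  have hdc := hf.diff.dcurve hf.an
  have hQ0 : ∀ z ∈ Ext 1, eval (f z⁻¹) Q ≠ 0 := fun z hz =>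
    (hf.on _ (inv_disc hz).1 (inv_disc hz).2).2
  obtain ⟨⟨R, hR1, hR⟩, h2⟩ := Pool.Agent.Q183.DF.gm_diff hdc F hF hQ
    (fun z hz => hf.ne _ (inv_disc hz).1 (inv_disc hz).2)
    (fun z hz => (hf.on _ (inv_disc hz).1 (inv_disc hz).2).1) hQ0 (hdc.hyp hQ0 hf.diff.bd)
    (by simpa using hf.ess)
  refine ⟨⟨R, hR1, fun z0 hz0 => (hR z0 hz0).mono fun m hm => ?_⟩, fun G hG h w hw0 hw1 => ?_⟩
  · obtain ⟨P, -, h3, h4⟩ := hm
    exact ⟨P, h3, h4⟩
  · have h3 := h2 G hG h w⁻¹ (by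
      have h4 : w ∈ PB 1 := ⟨hw0, hw1⟩
      have h5 := inv_mem_Ext h4
      rwa [inv_one] at h5)
    simpa using h3

theorem ent_both (F : ι → MvPolynomial (Fin (N + 1)) ℂ) (hF : ∀ i, ∃ d, (F i).IsHomogeneous d)
    (Q : MvPolynomial (Fin (N + 1)) ℂ) {e : ℕ} (hQ : Q.IsHomogeneous e)
    (f : ℂ → Fin (N + 1) → ℂ) (hf : EntCurve F Q f) :
    (∃ R : ℝ, ∀ z0 : ℂ, R < z0.re → ∃ᶠ m : ℕ in atTop, ∃ P,
      IsGmCurve F Q P ∧ Through P (f (z0 + m))) ∧
    ∀ G : MvPolynomial (Fin (N + 1)) ℂ, (∃ d, G.IsHomogeneous d) →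
      (∀ P, IsGmCurve F Q P → ∀ t, t ≠ 0 → eval (fun j => (P j).eval t) G = 0) →
      ∀ z : ℂ, eval (f z) G = 0 := by
  by_cases hext : Extends (fun w => f w⁻¹)
  · have h1 := Pool.Agent.Q183.DF.gm_of_extends F hF Q hQ f hf.an hf.ne hf.on hext hf.nonconst
    refine ⟨⟨0, fun z0 _ => Eventually.frequently (Eventually.of_forall fun m => h1 _)⟩,
      fun G hG h z => ?_⟩
    obtain ⟨P, hP1, hP2⟩ := h1 z
    obtain ⟨d, hd⟩ := hG
    exact zero_of_through hP2 hd (h P hP1)
  · have hdc := hf.diff.dcurve hf.an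
    obtain ⟨⟨R, hR1, hR⟩, h2⟩ := Pool.Agent.Q183.DF.gm_diff hdc F hF hQ
      (fun z _ => hf.ne z) (fun z _ => (hf.on z).1) (fun z _ => (hf.on z).2)
      (hf.diff.hyp hf.an fun z => (hf.on z).2) hext
    refine ⟨⟨R, fun z0 hz0 => (hR z0 hz0).mono fun m hm => ?_⟩, fun G hG h z => ?_⟩
    · obtain ⟨P, -, h3, h4⟩ := hm
      exact ⟨P, h3, h4⟩
    · have h3 := h2 G hG h
      have han := Pool.Agent.TH143.GT.eval_an' (S := univ)
        (fun j z _ => (hf.an j).analyticAt z) G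
      have h4 : (2 : ℂ) ∈ Ext 1 := by
        change (1 : ℝ) < ‖(2 : ℂ)‖
        norm_num
      refine han.eqOn_zero_of_preconnected_of_eventuallyEq_zero isPreconnected_univ
        (mem_univ (2 : ℂ)) ?_ (mem_univ z)
      filter_upwards [(isOpen_lt continuous_const continuous_norm).mem_nhds h4] with x hx
      exact h3 x hx

/-- Let `X` be the quasi-projective variety `F = 0`, `Q ≠ 0` in projective space (an arbitrary
projective variety for `Q = 1`). Consider the holomorphic maps `f` from the punctured disc to `X`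
with an essential singularity, and the entire curves in `X`, which are given by linear difference
equations: each homogeneous coordinate `h (z)` satisfies an equation `∑ a_k (z) h (z + k) = 0` with
coefficients meromorphic at infinity, and is `O (exp (A |Re z| + ε |Im z|))` in a right half plane.

(1), (2) Infinitely many of the points `f (z0 + m)`, `m = 0, 1, …`, lie on nonconstant morphisms
from the multiplicative group to `X`, if the real part of `z0` is large.

(3) The Zariski closures of the unions of the three kinds of curves (these maps from the punctured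
disc, these entire curves, nonconstant morphisms from the multiplicative group) are equal. -/
theorem result (F : ι → MvPolynomial (Fin (N + 1)) ℂ) (hF : ∀ i, ∃ d, (F i).IsHomogeneous d)
    (Q : MvPolynomial (Fin (N + 1)) ℂ) {e : ℕ} (hQ : Q.IsHomogeneous e) :
    (∀ f, PunctCurve F Q f → ∃ R : ℝ, ∀ z0 : ℂ, R < z0.re →
      ∃ᶠ m : ℕ in atTop, ∃ P, IsGmCurve F Q P ∧ Through P (f (z0 + m)⁻¹)) ∧
    (∀ f, EntCurve F Q f → ∃ R : ℝ, ∀ z0 : ℂ, R < z0.re →
      ∃ᶠ m : ℕ in atTop, ∃ P, IsGmCurve F Q P ∧ Through P (f (z0 + m))) ∧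
    (∀ Z : Set (MvPolynomial (Fin (N + 1)) ℂ), (∀ G ∈ Z, ∃ d, G.IsHomogeneous d) →
      ((∀ f, PunctCurve F Q f → ∀ w : ℂ, w ≠ 0 → ‖w‖ < 1 → ∀ G ∈ Z, eval (f w) G = 0) ↔
        ∀ P, IsGmCurve F Q P → ∀ t, t ≠ 0 → ∀ G ∈ Z, eval (fun j => (P j).eval t) G = 0) ∧
      ((∀ f, EntCurve F Q f → ∀ z, ∀ G ∈ Z, eval (f z) G = 0) ↔
        ∀ P, IsGmCurve F Q P → ∀ t, t ≠ 0 → ∀ G ∈ Z, eval (fun j => (P j).eval t) G = 0)) := by
  refine ⟨fun f hf => ?_, fun f hf => (ent_both F hF Q hQ f hf).1, fun Z hZ => ⟨⟨?_, ?_⟩, ?_, ?_⟩⟩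
  · obtain ⟨R, -, h⟩ := (punct_both F hF Q hQ f hf).1
    exact ⟨R, h⟩
  · intro h P hP t ht G hG
    obtain ⟨w, hw, hwt⟩ := exists_exp_inv ht one_pos
    have h1 := h (fun w => fun j => (P j).eval (Complex.exp w⁻¹))
      ⟨fun j w hw => by
        have h2 : AnalyticAt ℂ (fun w : ℂ => Complex.exp w⁻¹) w := (analyticAt_inv hw.1).cexp
        have h3 : AnalyticAt ℂ (fun x : ℂ => (P j).eval x) (Complex.exp w⁻¹) :=
          (Polynomial.differentiable (P j)).analyticAt _
        exact AnalyticAt.comp (g := fun x : ℂ => (P j).eval x)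
          (f := fun w : ℂ => Complex.exp w⁻¹) h3 h2,
      fun w _ _ => by
        obtain ⟨j, hj⟩ := hP.ne (Complex.exp w⁻¹) (Complex.exp_ne_zero _)
        exact Function.ne_iff.mpr ⟨j, hj⟩,
      fun w _ _ => hP.mem _ (Complex.exp_ne_zero _), Pool.Agent.Q183.DF.diffPunct_exp Q P,
      not_extends_exp F Q P hP⟩
      w hw.1 hw.2 G hG
    simp only [hwt] at h1
    exact h1
  · intro h f hf w hw0 hw1 G hG
    exact (punct_both F hF Q hQ f hf).2 G (hZ G hG) (fun P hP t ht => h P hP t ht G hG) w hw0 hw1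
  · intro h P hP t ht G hG
    have h1 := h (fun z => fun j => (P j).eval (Complex.exp z))
      ⟨fun j => (Polynomial.differentiable (P j)).comp Complex.differentiable_exp,
      fun z => by
        obtain ⟨j, hj⟩ := hP.ne (Complex.exp z) (Complex.exp_ne_zero _)
        exact Function.ne_iff.mpr ⟨j, hj⟩,
      fun z => hP.mem _ (Complex.exp_ne_zero _), Pool.Agent.Q183.DF.diffEntire_exp P, by
        obtain ⟨s, t, hs, ht, j, k, hst⟩ := hP.nonconst
        refine ⟨Complex.log s, Complex.log t, j, k, ?_⟩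
        simp only [Complex.exp_log hs, Complex.exp_log ht]
        exact hst⟩
      (Complex.log t) G hG
    simp only [Complex.exp_log ht] at h1
    exact h1
  · intro h f hf z G hG
    exact (ent_both F hF Q hQ f hf).2 G (hZ G hG) (fun P hP t ht => h P hP t ht G hG) z

end Pool.Agent.Results.MP_160ed4_ag.DifferenceEquationCurves
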