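import Pool.Agent.Q72.SH.ExpC

/-!
MP_160ed4_ag, Q1, conditions (4) and (5): the part of the special set that is given by the entire
curves with invariant hyperplane sections is the part given by one-dimensional algebraic groups.
-/

set_option autoImplicit false

namespace Pool.Agent.Results.MP_160ed4_ag.InvariantSections

open MvPolynomial Set
open Pool.Agent.TH143 Pool.Agent.TH143.GT Pool.Agent.W602.GT Pool.Agent.W603.BPR
  Pool.Agent.Q72.SH

/-- The intersections, with multiplicities, of `f` with the coordinate hyperplanes are invariant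
under a lattice; or under a substitution `z ↦ a z + b` where `a ≠ 0` is not a root of unity; or
under a translation, and `f` is given by homogeneous coordinates of exponential type. -/
def Invariant {n : ℕ} (f : ℂ → Fin (n + 1) → ℂ) : Prop :=
  Lattice f ∨
  (∃ a b : ℂ, a ≠ 0 ∧ (∀ k : ℕ, 0 < k → a ^ k ≠ 1) ∧ SameSections (fun z => f (a * z + b)) f) ∨
  ExpType f ∧ ∃ τ : ℂ, τ ≠ 0 ∧ SameSections (fun z => f (z + τ)) f

/-- For all `n` and `d` there is a number `M` such that the following is true for all
quasi-projective algebraic sets `X` in `P^n` given by a set `S` of forms of degrees at most `d` and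
by `Q ≠ 0` for a form `Q` of degree `q ≤ d`. Entire curves are nonconstant, and are given by
homogeneous coordinates. `SpGm S Q` is the cone over the Zariski closure of the union of all images
of the entire curves in `X` whose coordinates are polynomials in the exponential function, that is
of the images of the multiplicative group in `X`.

(1) The entire curves in `X` with the property `Invariant` give the same Zariski closure as the
images in `X` of the one-dimensional complex tori and of the multiplicative group.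

Let `f` be an entire curve in `X`. (2) If the intersections of `f` with the coordinate hyperplanes
are invariant under a lattice then `f` lies in `SpGm S Q` or factors through a torus. (3) If they
are invariant under `z ↦ a z + b` where `a ≠ 0` is not a root of unity then `f` lies in `SpGm S Q`.
(4) If they are invariant under a translation and the coordinates of `f` are of exponential type
then `f` lies in `SpGm S Q`. (5) So does every `f` with polynomial coordinates. (6) `f` lies in
`SpGm S Q`, or there are only finitely many entire curves in `X` with the same Zariski closure and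
the same intersections with the coordinate hyperplanes as `f`; every translation that leaves these
intersections invariant is, up to a positive integer factor, a period of `f`; and, if `q > 0`, all
these translations are translations by rational multiples of one complex number. (7) Among any
`M + 1` entire curves in `X` with the same intersections with the coordinate hyperplanes there are
two that differ by an invertible diagonal matrix of constants, or one that lies in `SpGm S Q`. -/
theorem result (n d : ℕ) : ∃ M : ℕ, ∀ S : Set (MvPolynomial (Fin (n + 1)) ℂ),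
    (∀ F ∈ S, ∃ e ≤ d, F.IsHomogeneous e) →
    ∀ (Q : MvPolynomial (Fin (n + 1)) ℂ) (q : ℕ), q ≤ d → Q.IsHomogeneous q →
    ZCl {f | EntireCurve (Ideal.span S) Q f ∧ Invariant f} =
      ZCl {f | EntireCurve (Ideal.span S) Q f ∧ (Torus f ∨ GmCurve f)} ∧
    (∀ f, EntireCurve (Ideal.span S) Q f →
      (Lattice f → (∀ z, f z ∈ SpGm S Q) ∨ Torus f) ∧
      (∀ a b, a ≠ 0 → (∀ k : ℕ, 0 < k → a ^ k ≠ 1) →
        SameSections (fun z => f (a * z + b)) f → ∀ z, f z ∈ SpGm S Q) ∧
      (ExpType f → ∀ τ, τ ≠ 0 → SameSections (fun z => f (z + τ)) f → ∀ z, f z ∈ SpGm S Q) ∧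
      (PolyCurve f → ∀ z, f z ∈ SpGm S Q) ∧
      ((∀ z, f z ∈ SpGm S Q) ∨
        (∃ M' : ℕ, ∀ g : Fin (M' + 1) → ℂ → Fin (n + 1) → ℂ,
          (∀ s, EntireCurve (Ideal.span S) Q (g s)) → (∀ s, SameClosure (g s) f) →
          (∀ s, SameSections (g s) f) → ∃ s t, s ≠ t ∧ SameCurve (g s) (g t)) ∧
        (∀ b, SameSections (fun z => f (z + b)) f →
          ∃ k : ℕ, 0 < k ∧ SameCurve (fun z => f (z + k * b)) f) ∧
        (0 < q → ∃ c : ℂ, ∀ b, SameSections (fun z => f (z + b)) f → ∃ r : ℚ, b = r * c))) ∧
    ∀ g : Fin (M + 1) → ℂ → Fin (n + 1) → ℂ, (∀ s, EntireCurve (Ideal.span S) Q (g s)) →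
      (∀ s t, SameSections (g s) (g t)) →
      (∃ s t, s ≠ t ∧ DiagEq (g s) (g t)) ∨ ∃ s, ∀ z, g s z ∈ SpGm S Q := by
  obtain ⟨M, hM⟩ := diag_or_weighted n d
  refine ⟨M, fun S hS Q q hq hQ => ?_⟩
  have hbd : ∀ f, EntireCurve (Ideal.span S) Q f →
      (∀ z, f z ∈ SpGm S Q) ∨ ∃ M', Bd M' (idl f) Q := by
    intro f hf
    rcases bd_or_weighted hS hq hQ hf with h1 | h1
    · exact Or.inr h1
    · exact Or.inl fun z => weighted_spGm hS hq hQ hf h1 z
  have hdil : ∀ f, EntireCurve (Ideal.span S) Q f → ∀ a b, a ≠ 0 →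
      (∀ k : ℕ, 0 < k → a ^ k ≠ 1) → SameSections (fun z => f (a * z + b)) f →
      ∀ z, f z ∈ SpGm S Q := by
    intro f hf a b ha hak hs
    rcases hbd f hf with h1 | ⟨M', hM'⟩
    · exact h1
    · obtain ⟨k, hk, h2⟩ := root_of_bd hM' hf ha hs
      exact absurd h2 (hak k hk)
  have hsub : ∀ x, x ∈ SpGm S Q →
      x ∈ ZCl {f | EntireCurve (Ideal.span S) Q f ∧ (Torus f ∨ GmCurve f)} := by
    rintro x ⟨hx, h⟩
    refine ⟨hx, fun G hG h0 => h G hG ?_⟩
    rintro f ⟨hf, hl⟩ z
    exact h0 f ⟨hf, Or.inr hl⟩ z
  refine ⟨?_, fun f hf => ⟨fun hl => lattice_dichQ hS hq hQ hf hl, hdil f hf,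
    fun hT τ hτ hs => exp_trans hS hq hQ hf hT hτ hs, fun hp => poly_spGm hf hp, ?_⟩,
    fun g hg hs => ?_⟩
  · apply Set.Subset.antisymm
    · rintro x ⟨hx, h⟩
      refine ⟨hx, fun G hG h0 => h G hG ?_⟩
      rintro f ⟨hf, hl | ⟨a, b, ha, hak, hs⟩ | ⟨hT, τ, hτ, hs⟩⟩ z
      · rcases lattice_dichQ hS hq hQ hf hl with h1 | h1
        · exact (hsub _ (h1 z)).2 G hG h0
        · exact h0 f ⟨hf, Or.inl h1⟩ z
      · exact (hsub _ (hdil f hf a b ha hak hs z)).2 G hG h0
      · exact (hsub _ (exp_trans hS hq hQ hf hT hτ hs z)).2 G hG h0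
    · rintro x ⟨hx, h⟩
      refine ⟨hx, fun G hG h0 => h G hG ?_⟩
      rintro f ⟨hf, ht | hg⟩ z
      · exact h0 f ⟨hf, Or.inl (ht.lattice hf)⟩ z
      · refine h0 f ⟨hf, Or.inr (Or.inr ⟨hg.expType, 2 * Real.pi * Complex.I,
          Complex.two_pi_I_ne_zero, fun l w => ?_⟩)⟩ z
        simp only [hg.per]
  · rcases hbd f hf with h1 | ⟨M', hM'⟩
    · exact Or.inl h1
    · exact Or.inr ⟨⟨M', fun g hg hc hs => fam_of_bd hM' g hg hc hs⟩,
        fun b hb => per_of_bd hM' hf hb, fun hq0 =>
        periods hM' (EC.idl hf) (zd_idl f) fun ω₁ ω₂ h1 h2 =>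
          affine_not_torus hf hQ hq0.ne' h1 h2⟩
  · rcases hM S hS Q q hq hQ g hg hs with h1 | ⟨s, h1⟩
    · exact Or.inl h1
    · exact Or.inr ⟨s, fun z => weighted_spGm hS hq hQ (hg s) h1 z⟩

end Pool.Agent.Results.MP_160ed4_ag.InvariantSections
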