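import Mathlib

/-!
An anticommutative 3-Engel algebra which is not locally nilpotent, over every field of
characteristic 3.
-/

set_option autoImplicit false

namespace Pool.Agent.Results.MP_1664c7_al.Char3

universe u

/-- A subalgebra `B` is nilpotent: for some `N ≥ 1` every product of `N` elements of `B`, with any
arrangement of parentheses, is zero. -/
def IsNilpotentSub (F : Type u) [Field F] (A : Type u) [NonUnitalNonAssocRing A] [Module F A]
    (B : NonUnitalSubalgebra F A) : Prop :=
  ∃ N : ℕ, 0 < N ∧ ∀ m : FreeMagma ℕ, m.length = N → ∀ v : ℕ → A, (∀ i, v i ∈ B) →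
    FreeMagma.lift v m = 0

/-- Sequences, viewed as divided power series `∑ f n x^(n)`. -/
def Hz (F : Type u) : Type u := ℕ → F

namespace Hz

variable {F : Type u} [Field F]

instance : AddCommGroup (Hz F) := inferInstanceAs (AddCommGroup (ℕ → F))
instance : Module F (Hz F) := inferInstanceAs (Module F (ℕ → F))

/-- Coefficients of the product of divided power series. -/
def hm : ℕ → (ℕ → F) → (ℕ → F) → F
  | 0, f, g => f 0 * g 0
  | n + 1, f, g => hm n (fun i => f (i + 1)) g + hm n f (fun i => g (i + 1))

theorem hm_add_left (n : ℕ) : ∀ f f' g : ℕ → F,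
    hm n (fun i => f i + f' i) g = hm n f g + hm n f' g := by
  induction n with
  | zero => intro f f' g; simp [hm, add_mul]
  | succ n ih =>
    intro f f' g
    simp only [hm]
    rw [ih (fun i => f (i + 1)) (fun i => f' (i + 1)) g, ih f f' (fun i => g (i + 1))]
    ring

theorem hm_smul_left (n : ℕ) (c : F) : ∀ f g : ℕ → F,
    hm n (fun i => c * f i) g = c * hm n f g := by
  induction n with
  | zero => intro f g; simp [hm, mul_assoc]
  | succ n ih =>
    intro f g
    simp only [hm]
    rw [ih (fun i => f (i + 1)) g, ih f (fun i => g (i + 1))]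
    ring

theorem hm_comm (n : ℕ) : ∀ f g : ℕ → F, hm n f g = hm n g f := by
  induction n with
  | zero => intro f g; simp [hm, mul_comm]
  | succ n ih =>
    intro f g
    simp only [hm]
    rw [ih (fun i => f (i + 1)) g, ih f (fun i => g (i + 1))]
    ring

theorem hm_assoc (n : ℕ) : ∀ f g h : ℕ → F,
    hm n (fun k => hm k f g) h = hm n f (fun k => hm k g h) := by
  induction n with
  | zero => intro f g h; simp [hm, mul_assoc]
  | succ n ih =>
    intro f g h
    have e1 : hm (n + 1) (fun k => hm k f g) h =
        hm n (fun i => hm i (fun i => f (i + 1)) g + hm i f (fun i => g (i + 1))) h +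
          hm n (fun k => hm k f g) (fun i => h (i + 1)) := rfl
    have e2 : hm (n + 1) f (fun k => hm k g h) =
        hm n (fun i => f (i + 1)) (fun k => hm k g h) +
          hm n f (fun i => hm i (fun i => g (i + 1)) h + hm i g (fun i => h (i + 1))) := rfl
    rw [e1, e2, hm_add_left, hm_comm n f (fun i => hm i (fun i => g (i + 1)) h +
      hm i g (fun i => h (i + 1))), hm_add_left, hm_comm n _ f, hm_comm n _ f,
      ih (fun i => f (i + 1)) g h, ih f (fun i => g (i + 1)) h, ih f g (fun i => h (i + 1))]
    ring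

theorem hm_zero (n : ℕ) : ∀ g : ℕ → F, hm n (fun _ => 0) g = 0 := by
  intro g
  have := hm_smul_left n (0 : F) (fun _ => 0) g
  simpa using this

theorem hm_one (n : ℕ) : ∀ g : ℕ → F, hm n (fun i => if i = 0 then 1 else 0) g = g n := by
  induction n with
  | zero => intro g; simp [hm]
  | succ n ih =>
    intro g
    simp only [hm]
    rw [ih (fun i => g (i + 1))]
    have : (fun i : ℕ => if i + 1 = 0 then (1 : F) else 0) = fun _ => 0 := by
      funext i; simp
    rw [this, hm_zero, zero_add]

instance : CommRing (Hz F) :=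
  { (inferInstance : AddCommGroup (Hz F)) with
    mul := fun f g n => hm n f g
    one := fun n => if n = 0 then 1 else 0
    left_distrib := fun f g h => by
      funext n
      change hm n f (fun i => g i + h i) = hm n f g + hm n f h
      rw [hm_comm, hm_add_left, hm_comm n g f, hm_comm n h f]
    right_distrib := fun f g h => by
      funext n
      exact hm_add_left n f g h
    zero_mul := fun f => by
      funext n
      exact hm_zero n f
    mul_zero := fun f => by
      funext n
      change hm n f (fun _ => 0) = 0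
      rw [hm_comm, hm_zero]
    mul_assoc := fun f g h => by
      funext n
      exact hm_assoc n f g h
    one_mul := fun f => by
      funext n
      exact hm_one n f
    mul_one := fun f => by
      funext n
      change hm n f (fun i => if i = 0 then 1 else 0) = f n
      rw [hm_comm, hm_one]
    mul_comm := fun f g => by
      funext n
      exact hm_comm n f g }

theorem smul_mul' (c : F) (f g : Hz F) : (c • f) * g = c • (f * g) := by
  funext n
  exact hm_smul_left n c f g

theorem mul_smul' (c : F) (f g : Hz F) : f * (c • g) = c • (f * g) := by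
  rw [mul_comm, smul_mul', mul_comm]

/-- The derivation. -/
def D (f : Hz F) : Hz F := fun n => f (n + 1)

/-- The integral. -/
def I (f : Hz F) : Hz F := fun n => match n with
  | 0 => 0
  | n + 1 => f n

theorem D_I (f : Hz F) : D (I f) = f := rfl
theorem I_zero' (f : Hz F) : I f 0 = 0 := rfl
theorem D_mul (f g : Hz F) : D (f * g) = D f * g + f * D g := rfl
theorem D_add (f g : Hz F) : D (f + g) = D f + D g := rfl
theorem mul_at_zero (f g : Hz F) : (f * g) 0 = f 0 * g 0 := rfl
theorem add_at_zero (f g : Hz F) : (f + g) 0 = f 0 + g 0 := rfl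

theorem eq_zero_of_D {f : Hz F} (h : D f = 0) (h0 : f 0 = 0) : f = 0 := by
  funext n
  cases n with
  | zero => exact h0
  | succ n => exact congrFun h n

theorem I_add (f g : Hz F) : I (f + g) = I f + I g := by
  funext n
  cases n with
  | zero => exact (add_zero (0 : F)).symm
  | succ n => rfl

theorem I_smul (c : F) (f : Hz F) : I (c • f) = c • I f := by
  funext n
  cases n with
  | zero => exact (mul_zero c).symm
  | succ n => rfl

theorem I_of_zero : I (0 : Hz F) = 0 := by
  funext n
  cases n with
  | zero => rfl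
  | succ n => rfl

theorem I_neg (f : Hz F) : I (-f) = -I f := by
  have := I_smul (-1 : F) f
  simpa using this

theorem three_eq_zero [CharP F 3] : (3 : Hz F) = 0 := by
  have h3 : (3 : F) = 0 := by exact_mod_cast CharP.cast_eq_zero F 3
  have : (3 : Hz F) = (3 : F) • (1 : Hz F) := by
    have h : (3 : F) • (1 : Hz F) = (1 : Hz F) + 1 + 1 := by
      rw [show (3 : F) = 1 + 1 + 1 by norm_num, add_smul, add_smul, one_smul]
    rw [h]
    norm_num
  rw [this, h3, zero_smul]

theorem cube_I [CharP F 3] (h : Hz F) : I h * I h * I h = 0 := by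
  apply eq_zero_of_D
  · rw [D_mul, D_mul, D_I]
    linear_combination (h * I h * I h) * three_eq_zero (F := F)
  · rw [mul_at_zero, I_zero', mul_zero]

end Hz

open Hz

/-- The algebra: triples of divided power series. -/
@[ext] structure T3 (F : Type u) where
  /-- first coordinate -/
  u : Hz F
  /-- second coordinate -/
  v : Hz F
  /-- third coordinate -/
  w : Hz F

namespace T3

variable {F : Type u} [Field F]

/-- The underlying triple. -/
def toProd : T3 F ≃ Hz F × Hz F × Hz F where
  toFun x := (x.u, x.v, x.w)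
  invFun x := ⟨x.1, x.2.1, x.2.2⟩
  left_inv _ := rfl
  right_inv _ := rfl

instance : AddCommGroup (T3 F) := toProd.addCommGroup
instance : Module F (T3 F) := toProd.module F

@[simp] theorem zero_u : (0 : T3 F).u = 0 := rfl
@[simp] theorem zero_v : (0 : T3 F).v = 0 := rfl
@[simp] theorem zero_w : (0 : T3 F).w = 0 := rfl
@[simp] theorem add_u (x y : T3 F) : (x + y).u = x.u + y.u := rfl
@[simp] theorem add_v (x y : T3 F) : (x + y).v = x.v + y.v := rfl
@[simp] theorem add_w (x y : T3 F) : (x + y).w = x.w + y.w := rfl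
@[simp] theorem smul_u (k : F) (x : T3 F) : (k • x).u = k • x.u := rfl
@[simp] theorem smul_v (k : F) (x : T3 F) : (k • x).v = k • x.v := rfl
@[simp] theorem smul_w (k : F) (x : T3 F) : (k • x).w = k • x.w := rfl

instance : Mul (T3 F) := ⟨fun x y =>
  ⟨x.u * I y.w - y.u * I x.w, x.v * I y.w - y.v * I x.w,
    x.u * y.v - x.v * y.u + x.w * I y.w - I x.w * y.w⟩⟩

theorem mul_u (x y : T3 F) : (x * y).u = x.u * I y.w - y.u * I x.w := rfl
theorem mul_v (x y : T3 F) : (x * y).v = x.v * I y.w - y.v * I x.w := rfl
theorem mul_w (x y : T3 F) : (x * y).w =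
    x.u * y.v - x.v * y.u + x.w * I y.w - I x.w * y.w := rfl

instance : NonUnitalNonAssocRing (T3 F) :=
  { (inferInstance : AddCommGroup (T3 F)), (inferInstance : Mul (T3 F)) with
    left_distrib := fun x y z => by
      ext1 <;> simp only [mul_u, mul_v, mul_w, add_u, add_v, add_w, I_add] <;> ring
    right_distrib := fun x y z => by
      ext1 <;> simp only [mul_u, mul_v, mul_w, add_u, add_v, add_w, I_add] <;> ring
    zero_mul := fun x => by
      ext1 <;> simp only [mul_u, mul_v, mul_w, zero_u, zero_v, zero_w, I_of_zero] <;> ring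
    mul_zero := fun x => by
      ext1 <;> simp only [mul_u, mul_v, mul_w, zero_u, zero_v, zero_w, I_of_zero] <;> ring }

instance : IsScalarTower F (T3 F) (T3 F) :=
  ⟨fun k x y => by
    ext1 <;> simp only [smul_eq_mul, mul_u, mul_v, mul_w, smul_u, smul_v, smul_w, I_smul,
      Hz.smul_mul', Hz.mul_smul', smul_sub, smul_add]⟩

instance : SMulCommClass F (T3 F) (T3 F) :=
  ⟨fun k x y => by
    ext1 <;> simp only [smul_eq_mul, mul_u, mul_v, mul_w, smul_u, smul_v, smul_w, I_smul,
      Hz.smul_mul', Hz.mul_smul', smul_sub, smul_add]⟩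

/-- Anticommutativity. -/
theorem mul_self (x : T3 F) : x * x = 0 := by
  ext1 <;> simp only [mul_u, mul_v, mul_w, zero_u, zero_v, zero_w] <;> ring

/-- The key identity. -/
theorem key [CharP F 3] (z y : T3 F) :
    I z.w * I y.w * I y.w + I (z * y).w * I y.w + I ((z * y) * y).w = 0 := by
  apply eq_zero_of_D
  · simp only [D_add, D_mul, D_I]
    rw [mul_w (z * y) y, mul_u, mul_v, mul_w z y]
    linear_combination (z.w * I y.w * I y.w +
      I y.w * (z.u * y.v - z.v * y.u)) * three_eq_zero (F := F)
  · simp only [add_at_zero, mul_at_zero, I_zero']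
    ring

/-- The 3-Engel identity. -/
theorem engel [CharP F 3] (z y : T3 F) : ((z * y) * y) * y = 0 := by
  have hk := key z y
  have hc := cube_I y.w
  have h3 := three_eq_zero (F := F)
  ext1
  · rw [mul_u ((z * y) * y) y, mul_u (z * y) y, mul_u z y]
    simp only [zero_u]
    linear_combination z.u * hc - y.u * hk
  · rw [mul_v ((z * y) * y) y, mul_v (z * y) y, mul_v z y]
    simp only [zero_v]
    linear_combination z.v * hc - y.v * hk
  · rw [mul_w ((z * y) * y) y, mul_u (z * y) y, mul_v (z * y) y, mul_w (z * y) y, mul_u z y,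
      mul_v z y, mul_w z y]
    simp only [zero_w]
    linear_combination z.w * hc - y.w * hk +
      (I y.w * I y.w * (z.u * y.v - z.v * y.u)) * h3

/-- `x^(k)` -/
def dl (k : ℕ) : Hz F := fun n => if n = k then 1 else 0

theorem dl_zero : (dl 0 : Hz F) = 1 := rfl

theorem I_dl (k : ℕ) : I (dl k : Hz F) = dl (k + 1) := by
  funext n
  cases n with
  | zero =>
    change (0 : F) = if 0 = k + 1 then 1 else 0
    simp
  | succ n =>
    change (if n = k then (1 : F) else 0) = if n + 1 = k + 1 then 1 else 0
    simp

theorem dl_ne (k : ℕ) : (dl k : Hz F) ≠ 0 := by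
  intro h
  have := congrFun h k
  change (if k = k then (1 : F) else 0) = 0 at this
  simp at this

/-- first generator -/
def ga : T3 F := ⟨1, 0, 0⟩
/-- second generator -/
def gb : T3 F := ⟨0, 1, 0⟩

/-- The left-normed monomials `a b a b ...`. -/
def wd : ℕ → FreeMagma ℕ
  | 0 => FreeMagma.of 0
  | n + 1 => wd n * FreeMagma.of (if n % 2 = 0 then 1 else 0)

theorem wd_length (n : ℕ) : (wd n).length = n + 1 := by
  induction n with
  | zero => rfl
  | succ n ih =>
    change (wd n).length + 1 = n + 1 + 1
    rw [ih]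

/-- The substitution. -/
def sb : ℕ → T3 F := fun i => if i = 0 then ga else gb

theorem wd_eval (k : ℕ) :
    FreeMagma.lift (sb (F := F)) (wd (2 * k)) = ⟨(-1) ^ k * dl k, 0, 0⟩ ∧
    FreeMagma.lift (sb (F := F)) (wd (2 * k + 1)) = ⟨0, 0, (-1) ^ k * dl k⟩ := by
  have step : ∀ k, FreeMagma.lift (sb (F := F)) (wd (2 * k)) = ⟨(-1) ^ k * dl k, 0, 0⟩ →
      FreeMagma.lift (sb (F := F)) (wd (2 * k + 1)) = ⟨0, 0, (-1) ^ k * dl k⟩ := by
    intro k h
    have e : wd (2 * k + 1) = wd (2 * k) * FreeMagma.of 1 := by
      change wd (2 * k) * FreeMagma.of (if (2 * k) % 2 = 0 then 1 else 0) = _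
      simp
    rw [e, map_mul, h, FreeMagma.lift_of]
    have : sb (F := F) 1 = gb := rfl
    rw [this]
    ext1 <;> simp only [mul_u, mul_v, mul_w, gb, I_of_zero] <;> ring
  induction k with
  | zero =>
    have h0 : FreeMagma.lift (sb (F := F)) (wd (2 * 0)) = ⟨(-1) ^ 0 * dl 0, 0, 0⟩ := by
      change (ga : T3 F) = _
      rw [dl_zero]
      simp [ga]
    exact ⟨h0, step 0 h0⟩
  | succ k ih =>
    have h0 : FreeMagma.lift (sb (F := F)) (wd (2 * (k + 1))) =
        ⟨(-1) ^ (k + 1) * dl (k + 1), 0, 0⟩ := by
      have e : wd (2 * (k + 1)) = wd (2 * k + 1) * FreeMagma.of 0 := by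
        change wd (2 * k + 1) * FreeMagma.of (if (2 * k + 1) % 2 = 0 then 1 else 0) = _
        have : (2 * k + 1) % 2 = 1 := by omega
        simp [this]
      rw [e, map_mul, ih.2, FreeMagma.lift_of]
      have h1 : sb (F := F) 0 = ga := rfl
      have h2 : I ((-1) ^ k * dl k : Hz F) = (-1) ^ k * dl (k + 1) := by
        rcases neg_one_pow_eq_or (Hz F) k with h | h
        · rw [h, one_mul, one_mul, I_dl]
        · rw [h, neg_one_mul, neg_one_mul, I_neg, I_dl]
      rw [h1]
      ext1 <;> simp only [mul_u, mul_v, mul_w, ga, I_of_zero, h2, pow_succ] <;> ring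
    exact ⟨h0, step _ h0⟩

theorem wd_ne (n : ℕ) : FreeMagma.lift (sb (F := F)) (wd n) ≠ 0 := by
  have hs : ∀ k, ((-1) ^ k * dl k : Hz F) ≠ 0 := by
    intro k h
    rcases neg_one_pow_eq_or (Hz F) k with h' | h'
    · rw [h', one_mul] at h
      exact dl_ne k h
    · rw [h', neg_one_mul, neg_eq_zero] at h
      exact dl_ne k h
  rcases Nat.even_or_odd' n with ⟨k, rfl | rfl⟩
  · rw [(wd_eval k).1]
    intro h
    exact hs k (congrArg T3.u h)
  · rw [(wd_eval k).2]
    intro h
    exact hs k (congrArg T3.w h)

end T3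

/-- **Anticommutative 3-Engel algebras in characteristic 3 need not be locally nilpotent.** Over
every field of characteristic 3 there is an anticommutative 3-Engel algebra with a two-generated
subalgebra which is not nilpotent. -/
theorem result (F : Type u) [Field F] [CharP F 3] :
    ∃ (A : Type u) (_ : NonUnitalNonAssocRing A) (_ : Module F A) (_ : IsScalarTower F A A)
      (_ : SMulCommClass F A A), (∀ x : A, x * x = 0) ∧ (∀ x y : A, ((x * y) * y) * y = 0) ∧
      ∃ a b : A, ¬ IsNilpotentSub F A (NonUnitalAlgebra.adjoin F {a, b}) := by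
  refine ⟨T3 F, inferInstance, inferInstance, inferInstance, inferInstance, T3.mul_self,
    T3.engel, T3.ga, T3.gb, ?_⟩
  rintro ⟨N, hN, hm⟩
  obtain ⟨n, rfl⟩ : ∃ n, N = n + 1 := ⟨N - 1, by omega⟩
  refine T3.wd_ne (F := F) n (hm (T3.wd n) (T3.wd_length n) T3.sb ?_)
  intro i
  apply NonUnitalAlgebra.subset_adjoin
  unfold T3.sb
  split_ifs <;> simp

end Pool.Agent.Results.MP_1664c7_al.Char3
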