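import Pool.Agent.Q200.HE.SSMain

/-!
# Semisimplicity of the eigenvalue one for varieties dominated by sums of small forms

Let `k` be a finite field of characteristic `p ≥ 5`, and let `W` be a smooth hypersurface over `k`, of
ARBITRARY dimension and of degree prime to `p`, given by a sum `f_1 + ⋯ + f_r = 0`, in disjoint sets of
variables, of binary forms of any degree `d`, or of cubic forms in at most six variables, or of quartic
forms in at most four variables (a further term `u_j^d` is allowed for every `j`). We prove `SS_i(X)`
for all `i` and all varieties `X`, open or singular or both, which are the image of a proper surjective
morphism from an open subscheme of a product of such hypersurfaces, abelian varieties, curves and K3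
surfaces.
-/

open CategoryTheory MonoidalCategory

universe v u w

namespace Pool.Agent.Results.MP_16ef92_ag.DominatedBySmallSums

open Pool.Agent.Q200.HE

/-- **Semisimplicity of the eigenvalue one.** Let `T` be the Chow motives over an algebraic closure of
a finite field of characteristic at least five and the varieties over the finite field (`hT`: known
facts).

1. Let `M` be a motive obtained by tensor products, direct sums, direct summands and Tate twists from
  the motives of abelian varieties, curves, K3 surfaces and of the smooth hypersurfaces, of any
  dimensions, which are sums of small forms. Then the Frobenius endomorphisms act semisimply on the
  cohomology of `M`.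
2. `SS_i(X)` holds, for all `i`, for all `X` in the smallest class of varieties which contains the
  smooth projective ones with such motives, with `X` all open subschemes of `X`, and with `Y` all `X`
  which are the image of a proper surjective morphism `Y → X`. -/
theorem result {𝓜 : Type u} [Category.{v} 𝓜] [Preadditive 𝓜] [MonoidalCategory 𝓜]
    {T : SSData.{v, u, w} 𝓜} (hT : T.Facts) : (∀ M : 𝓜, T.SmallType M → T.FrobSS M) ∧
      ∀ X : T.Var, T.Dominated X → T.SS X :=
  SSData.final hT

end Pool.Agent.Results.MP_16ef92_ag.DominatedBySmallSums
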