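import Pool.Agent.Q123.DS.Upper

/-!
# The discrepancy of point sets closed under a lattice term

A lattice term is a composition of minima and maxima; it is applied to points coordinatewise. Let
`t` be any lattice term that is not a projection (for example the minimum or the maximum of two
numbers, or the median of three). For every dimension `d ≥ 1` and every `1 ≤ q ≤ ∞` the optimal
`L_q` star discrepancy of `m`-point sets (repetitions allowed) in `[0,1]^d` that are closed under
`t` has the exact order `m ^ (-1/d)`, with constants depending only on `d`.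
-/

namespace Pool.Agent.Results.MP_173de9_an.ClosedPointSets

open MeasureTheory Set Q123.LP Q123.DS

/-- The optimal `L_q` star discrepancy of the `m`-point sets (repetitions allowed) in `[0,1]^d` that
are closed under the lattice term `t`. -/
noncomputable def optClosed {k : ℕ} (t : LTerm k) (q : ENNReal) (m d : ℕ) : ENNReal :=
  ⨅ (ξ : Fin m → Fin d → ℝ) (_ : ∀ μ, ξ μ ∈ Set.Icc (0 : Fin d → ℝ) 1)
    (_ : ClosedUnder t (Set.range ξ)), starDisc q ξ

/-- **The discrepancy of closed point sets.** -/
theorem result (d : ℕ) (hd : 1 ≤ d) {k : ℕ} (t : LTerm k) (ht : t.Proper) (q : ENNReal)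
    (hq : 1 ≤ q) (m : ℕ) (hm : 1 ≤ m) :
    ENNReal.ofReal (1 / (8 * 128 ^ d) * (m : ℝ) ^ (-(1 / (d : ℝ)))) ≤ optClosed t q m d ∧
    optClosed t q m d ≤ ENNReal.ofReal (4 * d * (m : ℝ) ^ (-(1 / (d : ℝ)))) := by
  have hprob : IsProbabilityMeasure (volume.restrict (Set.Icc (0 : Fin d → ℝ) 1)) := by
    constructor
    rw [Measure.restrict_apply MeasurableSet.univ, Set.univ_inter, Real.volume_Icc_pi]
    simp
  constructor
  · refine le_iInf fun ξ => le_iInf fun hξ => le_iInf fun hcl => ?_
    refine (lower_bound hd hm ht ξ (fun μ => (hξ μ).1) hcl).trans ?_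
    unfold starDisc
    rw [← eLpNorm_one_eq_lintegral_enorm]
    exact eLpNorm_le_eLpNorm_of_exponent_le hq
      (measurable_localDisc ξ (fun μ => (hξ μ).1)).aestronglyMeasurable
  · obtain ⟨ξ, hξ, hcl, hb⟩ := exists_grid (m := m) hd hm
    have h1 : optClosed t q m d ≤ starDisc q ξ := by
      unfold optClosed
      exact iInf_le_of_le ξ (iInf_le_of_le hξ (iInf_le (fun _ => starDisc q ξ) (hcl k t)))
    refine h1.trans ?_
    unfold starDisc
    refine (eLpNorm_le_eLpNorm_of_exponent_le (le_top : q ≤ ⊤)
      (measurable_localDisc ξ (fun μ => (hξ μ).1)).aestronglyMeasurable).trans ?_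
    rw [eLpNorm_exponent_top]
    apply eLpNormEssSup_le_of_ae_bound
    filter_upwards [ae_restrict_mem measurableSet_Icc] with x hx
    rw [Real.norm_eq_abs]
    exact hb x hx

end Pool.Agent.Results.MP_173de9_an.ClosedPointSets
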