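import Pool.Agent.Q199.Ht.Main

/-!
# The star discrepancy of point sets without long chains

Fix a sign pattern `σ` and order the points of `[0,1]^d` by `x ≤ y` in the coordinates with
`σ j = true` and `y ≤ x` in the other ones. For every `d ≥ 1`, every `h ≥ 1` and every
`1 ≤ q ≤ ∞` the optimal `L_q` star discrepancy of the point sets without chains of more than `h`
points has the exact order `h ^ (-d)`, with constants depending only on `d`: the lower bound holds
for every number `m` of points and already if there are no chains of more than `h` points which are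
strictly monotone in every coordinate, the upper bound holds for all `m ≥ h ^ (d ^ 2 + 1)` and with
no chains of more than `h` points in the weak order. So every point set of `L_q` star discrepancy
less than `δ` contains, for every sign pattern, a strictly monotone chain of length at least
`c_d δ ^ (-1/d)`, and this is sharp.
-/

set_option autoImplicit false

namespace Pool.Agent.Results.MP_173de9_an.HeightBounded

open MeasureTheory Set Q123.DS Pool.Agent.Q199.Ht

/-- The optimal `L_q` star discrepancy of the `m`-point sets (repetitions allowed) in `[0,1]^d` that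
have no `R`-chain of more than `h` points. -/
noncomputable def optNoChain {d : ℕ} (R : (Fin d → ℝ) → (Fin d → ℝ) → Prop) (h : ℕ) (q : ENNReal)
    (m : ℕ) : ENNReal :=
  ⨅ (ξ : Fin m → Fin d → ℝ) (_ : ∀ μ, ξ μ ∈ Set.Icc (0 : Fin d → ℝ) 1) (_ : NoLongChain R h ξ),
    starDisc q ξ

/-- **The discrepancy of point sets without long chains.** -/
theorem result (d : ℕ) (hd : 1 ≤ d) (σ : Fin d → Bool) (h : ℕ) (hh : 1 ≤ h) (q : ENNReal)
    (hq : 1 ≤ q) :
    (∀ m : ℕ, 1 ≤ m → ENNReal.ofReal (1 / 2 ^ (d ^ 2 + 3 * d + 1) * ((h : ℝ) ^ d)⁻¹) ≤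
      optNoChain (StrictlyBelow σ) h q m) ∧
    (∀ m : ℕ, optNoChain (StrictlyBelow σ) h q m ≤ optNoChain (Below σ) h q m) ∧
    (∀ m : ℕ, h ^ (d ^ 2 + 1) ≤ m →
      optNoChain (Below σ) h q m ≤ ENNReal.ofReal (3 * (2 * d) ^ d * ((h : ℝ) ^ d)⁻¹)) := by
  have hprob : IsProbabilityMeasure (volume.restrict (Set.Icc (0 : Fin d → ℝ) 1)) := by
    constructor
    rw [Measure.restrict_apply MeasurableSet.univ, Set.univ_inter, Real.volume_Icc_pi]
    simp
  refine ⟨fun m hm => ?_, fun m => ?_, fun m hm => ?_⟩
  · refine le_iInf fun ξ => le_iInf fun hξ => le_iInf fun hno => ?_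
    refine (lower hd σ hh ξ (fun μ => (hξ μ).1) hno).trans ?_
    unfold starDisc
    rw [← eLpNorm_one_eq_lintegral_enorm]
    exact eLpNorm_le_eLpNorm_of_exponent_le hq
      (measurable_localDisc ξ (fun μ => (hξ μ).1)).aestronglyMeasurable
  · refine le_iInf fun ξ => le_iInf fun hξ => le_iInf fun hno => ?_
    unfold optNoChain
    refine iInf_le_of_le ξ (iInf_le_of_le hξ (iInf_le_of_le ?_ le_rfl))
    rintro ⟨c, hc⟩
    apply hno
    refine ⟨c, fun i j hij => ⟨fun l => ?_, fun heq => ?_⟩⟩
    · have h1 := hc i j hij l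
      by_cases hs : σ l = true
      · rw [if_pos hs] at h1 ⊢
        exact h1.le
      · rw [if_neg hs] at h1 ⊢
        exact h1.le
    · have h1 := hc i j hij ⟨0, hd⟩
      rw [heq] at h1
      by_cases hs : σ ⟨0, hd⟩ = true
      · rw [if_pos hs] at h1
        exact lt_irrefl _ h1
      · rw [if_neg hs] at h1
        exact lt_irrefl _ h1
  · obtain ⟨ξ, hξ, hno, hb⟩ := upper d hd σ h hh m hm
    have h1 : optNoChain (Below σ) h q m ≤ starDisc q ξ := by
      unfold optNoChain
      exact iInf_le_of_le ξ (iInf_le_of_le hξ (iInf_le (fun _ => starDisc q ξ) hno))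
    refine h1.trans ?_
    unfold starDisc
    refine (eLpNorm_le_eLpNorm_of_exponent_le (le_top : q ≤ ⊤)
      (measurable_localDisc ξ (fun μ => (hξ μ).1)).aestronglyMeasurable).trans ?_
    rw [eLpNorm_exponent_top]
    apply eLpNormEssSup_le_of_ae_bound
    filter_upwards [ae_restrict_mem measurableSet_Icc] with x hx
    rw [Real.norm_eq_abs]
    exact hb x hx

end Pool.Agent.Results.MP_173de9_an.HeightBounded
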