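import Pool.Agent.Q85.DS.B
import Pool.Agent.Y258.SX.XFinal

set_option autoImplicit false

/-!
# Infinite sequences below the `(ln N)^d` barrier

In every dimension `d ≥ 2` there is one infinite sequence in `[0,1)^d` whose first `m` terms have, for
every `m ≥ 3`, star discrepancy at most `C (ln m)^(d-e) (ln ln m)^2 / m`, where `e = 1/8` for `d ≥ 3`
and `e = 1/14` for `d = 2`.

The points of a point set of the starting files in dimension `d + 1` (project `Y258`), ordered by their
last coordinates, have all their initial segments well distributed in dimension `d`; blocks of doubly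
exponential length are concatenated.
-/

namespace Pool.Agent.Results.MP_173de9_an.InfiniteSequences

open Finset

/-- The local discrepancy `∏ x_j - (1/m) Σ_μ χ_{[0,x]}(ξ^μ)` of `m` points `ξ` at `x`. -/
noncomputable def localDisc {m d : ℕ} (ξ : Fin m → Fin d → ℝ) (x : Fin d → ℝ) : ℝ :=
  ∏ j, x j - (1 / (m:ℝ)) * ∑ μ : Fin m, (Set.Icc (0 : Fin d → ℝ) x).indicator (fun _ => (1:ℝ)) (ξ μ)

/-- For every `d ≥ 2` there are `C` and a sequence in `[0,1)^d` such that for every `m ≥ 3` the local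
discrepancy of its first `m` terms is at most `C (ln m)^(d-e) (ln ln m)^2 / m` in absolute value at
every point of the cube, where `e = 1/14` if `d = 2` and `e = 1/8` if `d ≥ 3`. -/
theorem result (d : ℕ) (hd : 2 ≤ d) : ∃ C : ℝ, 0 < C ∧ ∃ ξ : ℕ → Fin d → ℝ,
    (∀ n j, 0 ≤ ξ n j ∧ ξ n j < 1) ∧
    ∀ m : ℕ, 3 ≤ m → ∀ x ∈ Set.Icc (0 : Fin d → ℝ) 1,
      |localDisc (fun μ : Fin m => ξ μ) x| ≤
        C * (Real.log m) ^ ((d:ℝ) - (if d = 2 then 1 / 14 else 1 / 8)) *
          (Real.log (Real.log m)) ^ 2 / m := by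
  classical
  obtain ⟨n, rfl⟩ : ∃ n, d = n + 1 := ⟨d - 1, by omega⟩
  obtain ⟨C, hC, h⟩ := Y258.X.star_open n (by omega)
  have hsav : Y258.X.sav (n + 2) = (if n + 1 = 2 then 1 / 14 else 1 / 8) := by
    unfold Y258.X.sav
    by_cases hn : n = 1
    · subst hn; norm_num
    · rw [if_neg (by omega), if_neg (by omega)]
  have ha : (0:ℝ) < (n:ℝ) + 1 - Y258.X.sav (n + 2) := by
    have h1 : Y258.X.sav (n + 2) ≤ 1 / 8 := by
      unfold Y258.X.sav
      split_ifs <;> norm_num
    have : (0:ℝ) ≤ n := Nat.cast_nonneg n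
    linarith
  obtain ⟨K, hK, ξ, hξ1, hξ2⟩ := Q85.DS.seq_of_sets (n + 1) _ C ha hC (fun N hN => by
    obtain ⟨ξ, h1, h2⟩ := h N hN
    exact ⟨ξ, h1, h2⟩)
  refine ⟨K, hK, ξ, hξ1, ?_⟩
  intro m hm x hx
  have hm0 : (0:ℝ) < m := by exact_mod_cast (by omega : 0 < m)
  have hmem : ∀ μ, (0 : Fin (n + 1) → ℝ) ≤ ξ μ := fun μ j => (hξ1 μ j).1
  have key := H470D4.closed_of_open_all (N := m) (k := n + 1) (ξ := fun μ : Fin m => ξ μ)
    (E := K * (Real.log m) ^ ((n:ℝ) + 1 - Y258.X.sav (n + 2)) * (Real.log (Real.log m)) ^ 2)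
    (fun i j => (hξ1 i j).2) (by
      intro y hy0 hy1 S hS
      have h1 := hξ2 m hm y hy0 hy1
      have h2 : ∑ i ∈ range m, (if ∀ k, ξ i k < y k then (1:ℝ) else 0) = (S.card : ℝ) := by
        rw [Finset.sum_range]
        have h3 : S = univ.filter (fun i : Fin m => ∀ j, ξ i j < y j) := by
          ext i
          rw [hS i, mem_filter]
          simp
        rw [h3, card_filter]
        push_cast
        rfl
      rw [h2] at h1
      exact h1) (x := x) (fun j => hx.1 j) (fun j => hx.2 j)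
    (S := univ.filter (fun i : Fin m => ∀ j, ξ i j ≤ x j)) (fun i => by rw [mem_filter]; simp)
  have h2 : ∑ μ : Fin m, (Set.Icc (0 : Fin (n + 1) → ℝ) x).indicator (fun _ => (1:ℝ)) (ξ μ) =
      ((univ.filter (fun i : Fin m => ∀ j, ξ i j ≤ x j)).card : ℝ) := by
    rw [card_filter]
    push_cast
    apply sum_congr rfl
    intro μ _
    rw [Set.indicator_apply]
    by_cases h : ∀ j, ξ μ j ≤ x j
    · rw [if_pos h, if_pos ⟨hmem μ, h⟩]
    · rw [if_neg h, if_neg fun h' => h h'.2]
  have h3 : localDisc (fun μ : Fin m => ξ μ) x =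
      -((((univ.filter (fun i : Fin m => ∀ j, ξ i j ≤ x j)).card : ℝ) - m * ∏ j, x j) / m) := by
    unfold localDisc
    rw [h2]
    field_simp
    ring
  rw [h3, abs_neg, abs_div, abs_of_pos hm0]
  refine (div_le_div_of_nonneg_right key hm0.le).trans (le_of_eq ?_)
  rw [hsav]
  push_cast
  rfl

end Pool.Agent.Results.MP_173de9_an.InfiniteSequences
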