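import Mathlib
import Pool.Agent.Q273.ApxF
import Pool.Agent.Results.MP_17a322_nt.NormalCrossings

/-!
# Vojta's inequality for projective space at the good approximations of almost all points

`Y` is a metric space and `φ` a map from the rational points of projective space of dimension `N`,
given by primitive integer vectors, to `Y`, for instance the inclusion in the real points or in a
product of real and `p`-adic points. For all `ξ ∈ Y` outside one set of small Hausdorff dimension all
but finitely many of the points `x` with `dist(ξ, φ(x)) ≤ A H(x) ^ (-τ)` satisfy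
`m_{S,D}(x) < κ h(x) + c`, for all divisors `D` with strict normal crossings, all `S`, `c` and `A`.
-/

set_option autoImplicit false

namespace Pool.Agent.Results.MP_17a322_nt.GoodApproximations

/-- `x` is a primitive integer vector; every rational point of `ℙ^N` is represented by exactly two
of them, `x` and `-x` -/
def IsPrimitive {N : ℕ} (x : Fin (N + 1) → ℤ) : Prop :=
  Finset.univ.gcd x = 1

/-- `max |x_i|`, the multiplicative height of the point given by a primitive `x` -/
def height {N : ℕ} (x : Fin (N + 1) → ℤ) : ℕ :=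
  Finset.univ.sup (fun i => (x i).natAbs)

/-- The proximity function `m_{S,D}(x)` of the divisor `D` with the components `F j = 0` of degrees
`d j`, for the places `∞` and `p ∈ S`, at a primitive `x` off `D`: the local height of `F j = 0` at
`∞` is `log (max |x_i| ^ d j / |F j x|)`, the local height at `p` is
`log (1 / |F j x|_p) = ord_p (F j x) log p`. -/
noncomputable def proximity {N q : ℕ} (F : Fin q → MvPolynomial (Fin (N + 1)) ℤ) (d : Fin q → ℕ)
    (S : Finset ℕ) (x : Fin (N + 1) → ℤ) : ℝ :=
  ∑ j, (Real.log ((height x : ℝ) ^ d j / |((MvPolynomial.eval x (F j) : ℤ) : ℝ)|) +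
    ∑ p ∈ S, (padicValInt p (MvPolynomial.eval x (F j)) : ℝ) * Real.log p)

/-- The divisor `∑ j, {F j = 0}` has strict normal crossings at its points over the field `K`: at
every point `z` the gradients of those `F j` that vanish at `z` are linearly independent, so these
components are smooth at `z` and meet transversally. -/
def NormalCrossingsOver {N q : ℕ} (F : Fin q → MvPolynomial (Fin (N + 1)) ℤ) (K : Type) [Field K] :
    Prop :=
  ∀ z : Fin (N + 1) → K, z ≠ 0 →
    LinearIndependent K (fun j : {j : Fin q // MvPolynomial.aeval z (F j) = 0} =>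
      fun i => MvPolynomial.aeval z (MvPolynomial.pderiv i (F j.1)))

/-- The divisor with the components `F j = 0` of degrees `d j` together with the finite set `S` of
primes: the `F j` are homogeneous of degree `d j`, and the divisor has strict normal crossings at its
real points and at its `p`-adic points for all `p ∈ S` -/
structure IsPair {N q : ℕ} (F : Fin q → MvPolynomial (Fin (N + 1)) ℤ) (d : Fin q → ℕ)
    (S : Finset ℕ) : Prop where
  homogeneous : ∀ j, (F j).IsHomogeneous (d j)
  primes : ∀ p ∈ S, p.Prime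
  real : NormalCrossingsOver F ℝ
  padic : ∀ (p : ℕ) [Fact p.Prime], p ∈ S → NormalCrossingsOver F ℚ_[p]

/-- **Vojta's inequality for projective space at the good approximations of almost all points.** Let
`Y` be a metric space, `φ` a map from the primitive integer vectors with `N + 1` coordinates to `Y`,
`κ` real and `τ > 0`. There is a set `E ⊆ Y` of Hausdorff dimension at most
`(N + max (1 - κ) 0) / τ` such that for each `ξ ∈ Y` outside `E`, every divisor
`D = ∑ j, {F j = 0}` of `ℙ^N` over `ℚ` with strict normal crossings, every finite set `S` of primes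
and all real `A` and `c`, only finitely many primitive `x` off `D` with
`dist(ξ, φ(x)) ≤ A H(x) ^ (-τ)` have `κ h(x) + c ≤ m_{S,D}(x)`. -/
theorem result (N : ℕ) (Y : Type) [MetricSpace Y]
    (φ : {x : Fin (N + 1) → ℤ // IsPrimitive x} → Y) (κ τ : ℝ) (hτ : 0 < τ) :
    ∃ E : Set Y, dimH E ≤ ENNReal.ofReal (((N : ℝ) + max (1 - κ) 0) / τ) ∧
      ∀ ξ : Y, ξ ∉ E → ∀ (q : ℕ) (F : Fin q → MvPolynomial (Fin (N + 1)) ℤ) (d : Fin q → ℕ)
        (S : Finset ℕ), IsPair F d S → ∀ A c : ℝ,
          {x : {x : Fin (N + 1) → ℤ // IsPrimitive x} |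
            (∀ j, MvPolynomial.eval x.1 (F j) ≠ 0) ∧
            dist ξ (φ x) ≤ A * (height x.1 : ℝ) ^ (-τ) ∧
            κ * Real.log (height x.1) + c ≤ proximity F d S x.1}.Finite := by
  classical
  have hN : (0 : ℝ) ≤ N := Nat.cast_nonneg N
  have : Countable (MvPolynomial (Fin (N + 1)) ℤ) := by
    rw [← Cardinal.mk_le_aleph0_iff]
    refine (MvPolynomial.cardinalMk_le_max (σ := Fin (N + 1)) (R := ℤ)).trans ?_
    simp
  let ι : Type := (Σ q : ℕ, {p : (Fin q → MvPolynomial (Fin (N + 1)) ℤ) × (Fin q → ℕ) ×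
    Finset ℕ // IsPair p.1 p.2.1 p.2.2}) × ℕ
  obtain ⟨E, hE1, hE2⟩ := Q273.Apx.approx_family (ι := ι)
    (fun i => {x : {x : Fin (N + 1) → ℤ // IsPrimitive x} |
      (∀ j, MvPolynomial.eval x.1 (i.1.2.1.1 j) ≠ 0) ∧
      κ * Real.log (height x.1) - (i.2 : ℝ) ≤ proximity i.1.2.1.1 i.1.2.1.2.1 i.1.2.1.2.2 x.1})
    (fun x => (height x.1 : ℝ)) φ (s := (N : ℝ) + max (1 - κ) 0) (τ := τ)
    (add_nonneg hN (le_max_right _ _)) hτ (by
      rintro ⟨⟨q, ⟨⟨F, d, S⟩, h⟩⟩, C⟩ ε hε
      obtain ⟨M, hM0, hM⟩ := NormalCrossings.result N q F d h.homogeneous S h.primes h.real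
        (fun p _ hp => h.padic p hp) κ (-(C : ℝ)) ε hε
      refine ⟨M, fun X hX => ?_⟩
      apply Q273.Apx.count_of_finset
      intro G hG
      obtain ⟨h1, h2⟩ := hM X hX
      refine le_trans ?_ h2
      have h3 : ((G.map ⟨Subtype.val, Subtype.val_injective⟩ : Finset (Fin (N + 1) → ℤ)) :
          Set (Fin (N + 1) → ℤ)) ⊆ {x : Fin (N + 1) → ℤ | NormalCrossings.IsPrimitive x ∧
            (NormalCrossings.height x : ℝ) ≤ X ∧ (∀ j, MvPolynomial.eval x (F j) ≠ 0) ∧
            κ * Real.log (NormalCrossings.height x) + -(C : ℝ) ≤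
              NormalCrossings.proximity F d S x} := by
        intro x hx
        rw [Finset.mem_coe, Finset.mem_map] at hx
        obtain ⟨y, hy, rfl⟩ := hx
        obtain ⟨⟨h4, h5⟩, h6⟩ := hG hy
        exact ⟨y.2, h6, h4, h5⟩
      have h4 := Set.ncard_le_ncard h3 h1
      rw [Set.ncard_coe_finset, Finset.card_map] at h4
      exact_mod_cast h4)
  refine ⟨E, hE1, fun ξ hξ q F d S h A c => ?_⟩
  obtain ⟨M, hM⟩ := exists_nat_ge (-c)
  refine (hE2 ξ hξ ⟨⟨q, ⟨⟨F, d, S⟩, h⟩⟩, M⟩ A).subset ?_
  rintro x ⟨h1, h2, h3⟩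
  exact ⟨⟨h1, by
    show κ * Real.log (height x.1) - (M : ℝ) ≤ proximity F d S x.1
    linarith⟩, h2⟩

end Pool.Agent.Results.MP_17a322_nt.GoodApproximations
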