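import Mathlib
import Pool.Agent.Q103.SD.NFSum

/-!
# Vojta's inequality at the points composed of numbers with small digits

Let `K` be a number field, `t` an integer of `K` all of whose conjugates are at least `T` (the base),
`S` a finite set of finite places `v` of `K` with `|t|_v ≤ 1 / T`, and let `q i = F i (t)` be numbers
with a bounded number of digits in base `t`, all conjugates of the digits at most `T ^ δ`, first and
last digits roots of unity. The coordinates of the point `x` of the projective space are products of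
powers of the `q i`, with exponents up to `T ^ δ`, and small factors.

For every hypersurface `f = 0` of degree `e ≤ T ^ δ` with a bounded number of monomials (among them
all `X j ^ e`) and coefficients at most `T ^ δ` such that no partial sum of `f` vanishes at `x`, the
proximity function `m_S` of the hypersurface (infinite places and places of `S`) is at most
`G log |N(t)| / d` at `x`; here `G` does not depend on the point, the exponents, `t` or `K`. Therefore
`m_{S,D}(x) + h_{K_X}(x) ≤ q G log |N(t)| / d` if `D` is the union of all coordinate hyperplanes and `q`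
such hypersurfaces of degrees of any size.
-/

set_option autoImplicit false

namespace Pool.Agent.Results.MP_17a322_nt.SmallDigitPoints

open NumberField

section Defs

variable {K : Type} [Field K] [NumberField K]

/-- The height `h(P)` of the point `P` with the coordinates `x`. -/
noncomputable def h {N : ℕ} (x : Fin (N + 1) → 𝓞 K) : ℝ :=
  Height.logHeight (fun j => (x j : K)) / Module.finrank ℚ K

/-- `log |N(y)| / d` -/
noncomputable def logN (y : 𝓞 K) : ℝ :=
  Real.log |((Algebra.norm ℚ (y : K) : ℚ) : ℝ)| / Module.finrank ℚ K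

/-- The proximity function `m_{S,D}(x) = ∑ d_v log (max_j |x j|_v ^ e / |f(x)|_v)`, the sum over the
infinite places and the places in `S`, of the divisor `D : f = 0` of degree `e`, where `y = f(x)`. -/
noncomputable def prox {N : ℕ} (S : Finset (FinitePlace K)) (e : ℕ) (y : 𝓞 K)
    (x : Fin (N + 1) → 𝓞 K) : ℝ :=
  (∑ w : InfinitePlace K, (w.mult : ℝ) * Real.log ((⨆ j, w (x j : K)) ^ e / w (y : K)) +
    ∑ v ∈ S, Real.log ((⨆ j, v (x j : K)) ^ e / v (y : K))) / Module.finrank ℚ K

/-- The base `t`, the set `S` of places and the numbers `F i (t)` with small digits. -/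
structure Base (D : ℕ) (δ T : ℝ) {n : ℕ} (t : 𝓞 K) (S : Finset (FinitePlace K))
    (F : Fin n → Polynomial (𝓞 K)) : Prop where
  /-- all conjugates of the base are at least `T` -/
  base : ∀ σ : K →+* ℂ, T ≤ ‖σ t‖
  /-- `|t|_v ≤ 1 / T` for the places in `S` -/
  places : ∀ v ∈ S, v (t : K) ≤ T⁻¹
  /-- bounded number of digits -/
  number : ∑ i, (F i).natDegree ≤ D
  /-- all conjugates of the digits are at most `T ^ δ` -/
  digits : ∀ i j, ∀ σ : K →+* ℂ, ‖σ ((F i).coeff j)‖ ≤ T ^ δ
  /-- the first digits are roots of unity -/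
  first : ∀ i, ∀ σ : K →+* ℂ, ‖σ (F i).leadingCoeff‖ ≤ 1
  /-- the last digits are roots of unity -/
  last : ∀ i, (F i).coeff 0 ≠ 0 ∧ ∀ σ : K →+* ℂ, ‖σ ((F i).coeff 0)‖ ≤ 1

/-- The coordinates `a j * ∏ i, F i (t) ^ b j i`. -/
noncomputable def point {N n : ℕ} (t : 𝓞 K) (F : Fin n → Polynomial (𝓞 K))
    (a : Fin (N + 1) → 𝓞 K) (b : Fin (N + 1) → Fin n → ℕ) (j : Fin (N + 1)) : 𝓞 K :=
  a j * ∏ i, (F i).eval t ^ b j i

/-- The conditions on the hypersurface `f = 0` of degree `e` and on the size of the factors `a j` and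
of the exponents `b j i`. -/
structure Hyp (M : ℕ) (δ T : ℝ) {N n : ℕ} (a : Fin (N + 1) → 𝓞 K) (b : Fin (N + 1) → Fin n → ℕ)
    (e : ℕ) (f : MvPolynomial (Fin (N + 1)) (𝓞 K)) : Prop where
  /-- homogeneous of degree `e` -/
  homogeneous : f.IsHomogeneous e
  /-- at most `M` monomials -/
  monomials : f.support.card ≤ M
  /-- the powers of the variables occur -/
  powers : ∀ j, f.coeff (Finsupp.single j e) ≠ 0
  /-- all conjugates of the coefficients are at most `T ^ δ` -/
  coefficients : ∀ m, ∀ σ : K →+* ℂ, ‖σ (f.coeff m : 𝓞 K)‖ ≤ T ^ δ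
  /-- the factors `a j` are not zero and small (for instance roots of unity) -/
  factors : ∀ j, a j ≠ 0 ∧ ∀ σ : K →+* ℂ, ‖σ (a j)‖ ^ e ≤ T ^ δ
  /-- the exponents are small -/
  exponents : ∀ j, ((e * ∑ i, b j i : ℕ) : ℝ) ≤ T ^ δ

/-- The point `x` is outside the proper closed set `Z(f)` where a partial sum of `f` vanishes. -/
def Outside {N : ℕ} (f : MvPolynomial (Fin (N + 1)) (𝓞 K)) (x : Fin (N + 1) → 𝓞 K) : Prop :=
  ∀ L ⊆ f.support, L.Nonempty → ∑ m ∈ L, f.coeff m * ∏ j, x j ^ m j ≠ 0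

end Defs

section

variable {K : Type} [Field K] [NumberField K]

open Pool.Agent.Q103.SD Pool.Agent.Q103.SD.NF

/-- the local terms at the finite places sum to at most the height -/
theorem prox_coordinate {N : ℕ} {x : Fin (N + 1) → 𝓞 K} (hx : ∀ j, x j ≠ 0)
    (S : Finset (FinitePlace K)) (j : Fin (N + 1)) : prox S 1 (x j) x ≤ h x := by
  classical
  have hd : (0 : ℝ) < Module.finrank ℚ K := by exact_mod_cast Module.finrank_pos
  unfold prox h
  apply div_le_div_of_nonneg_right _ hd.le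
  have hxK : ∀ j, (x j : K) ≠ 0 := fun j => RingOfIntegers.coe_ne_zero_iff.mpr (hx j)
  have hxne : (fun j => (x j : K)) ≠ 0 := fun h0 => hxK 0 (congrFun h0 0)
  rw [Height.logHeight_eq_log_mulHeight, NumberField.mulHeight_eq hxne]
  have hposw : ∀ w : InfinitePlace K, 0 < ⨆ j, w (x j : K) := fun w =>
    lt_of_lt_of_le (InfinitePlace.pos_iff.mpr (hxK j))
      (le_ciSup (f := fun j => w (x j : K)) (Set.finite_range _).bddAbove j)
  have hlev : ∀ v : FinitePlace K, v (x j : K) ≤ ⨆ j, v (x j : K) := fun v =>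
    le_ciSup (f := fun j => v (x j : K)) (Set.finite_range _).bddAbove j
  have hposv : ∀ v : FinitePlace K, 0 < ⨆ j, v (x j : K) := fun v =>
    lt_of_lt_of_le (FinitePlace.pos_iff.mpr (hxK j)) (hlev v)
  -- the finite part over a large finite set
  have hfin : (Function.mulSupport fun v : FinitePlace K => v (x j : K)).Finite :=
    FinitePlace.hasFiniteMulSupport_int (hx j)
  obtain ⟨U, hU⟩ : ∃ U : Finset (FinitePlace K), U = hfin.toFinset ∪ S := ⟨_, rfl⟩
  have hout : ∀ v, v ∉ U → v (x j : K) = 1 := by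
    intro v hv
    by_contra h1
    apply hv
    rw [hU, Finset.mem_union]
    exact Or.inl ((Set.Finite.mem_toFinset _).mpr h1)
  have hout2 : ∀ v : FinitePlace K, v ∉ U → (⨆ j, v (x j : K)) = 1 := by
    intro v hv
    apply le_antisymm
    · exact ciSup_le fun i => finite_le_one v (x i)
    · rw [← hout v hv]
      exact hlev v
  have h1 : ∏ᶠ v : FinitePlace K, (⨆ j, v (x j : K)) = ∏ v ∈ U, ⨆ j, v (x j : K) := by
    apply finprod_eq_prod_of_mulSupport_subset
    intro v hv
    by_contra hcon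
    exact hv (hout2 v hcon)
  have h2 : ∏ᶠ v : FinitePlace K, v (x j : K) = ∏ v ∈ U, v (x j : K) := by
    apply finprod_eq_prod_of_mulSupport_subset
    intro v hv
    by_contra hcon
    exact hv (hout v hcon)
  have hprod := NumberField.prod_abs_eq_one (hxK j)
  rw [h2] at hprod
  rw [h1]
  have hlog := congrArg Real.log hprod
  rw [Real.log_one, Real.log_mul
    (Finset.prod_pos fun w _ => pow_pos (InfinitePlace.pos_iff.mpr (hxK j)) _).ne'
    (Finset.prod_pos fun v _ => FinitePlace.pos_iff.mpr (hxK j)).ne',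
    Real.log_prod (fun w _ => (pow_pos (InfinitePlace.pos_iff.mpr (hxK j)) _).ne'),
    Real.log_prod (fun v _ => (FinitePlace.pos_iff.mpr (hxK j)).ne')] at hlog
  simp only [Real.log_pow] at hlog
  rw [Real.log_mul (Finset.prod_pos fun w _ => pow_pos (hposw w) _).ne'
    (Finset.prod_pos fun v _ => hposv v).ne', Real.log_prod (fun w _ => (pow_pos (hposw w) _).ne'),
    Real.log_prod (fun v _ => (hposv v).ne')]
  simp only [Real.log_pow, pow_one]
  have h3 : ∀ w : InfinitePlace K, (w.mult : ℝ) * Real.log ((⨆ j, w (x j : K)) / w (x j : K)) =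
      w.mult * Real.log (⨆ j, w (x j : K)) - w.mult * Real.log (w (x j : K)) := by
    intro w
    rw [Real.log_div (hposw w).ne' (InfinitePlace.pos_iff.mpr (hxK j)).ne']
    ring
  have h4 : ∀ v : FinitePlace K, Real.log ((⨆ j, v (x j : K)) / v (x j : K)) =
      Real.log (⨆ j, v (x j : K)) - Real.log (v (x j : K)) := by
    intro v
    rw [Real.log_div (hposv v).ne' (FinitePlace.pos_iff.mpr (hxK j)).ne']
  rw [Finset.sum_congr rfl fun w _ => h3 w, Finset.sum_sub_distrib]
  have h5 : ∑ v ∈ S, Real.log ((⨆ j, v (x j : K)) / v (x j : K)) ≤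
      ∑ v ∈ U, (Real.log (⨆ j, v (x j : K)) - Real.log (v (x j : K))) := by
    rw [Finset.sum_congr rfl fun v _ => h4 v]
    apply Finset.sum_le_sum_of_subset_of_nonneg
    · rw [hU]
      exact Finset.subset_union_right
    · intro v _ _
      have := Real.log_le_log (FinitePlace.pos_iff.mpr (hxK j)) (hlev v)
      linarith
  rw [Finset.sum_sub_distrib] at h5
  linarith

/-- the terms of the equation as products of powers -/
theorem term_eq {N n : ℕ} {t : 𝓞 K} {F : Fin n → Polynomial (𝓞 K)} {a : Fin (N + 1) → 𝓞 K}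
    {b : Fin (N + 1) → Fin n → ℕ} (c : 𝓞 K) (m : Fin (N + 1) →₀ ℕ) :
    (PP F (c * ∏ j, a j ^ m j) (fun i => ∑ j, m j * b j i)).eval t =
      c * ∏ j, point t F a b j ^ m j := by
  rw [eval_PP]
  unfold point
  have h1 : ∀ j, (a j * ∏ i, (F i).eval t ^ b j i) ^ m j =
      a j ^ m j * ∏ i, (F i).eval t ^ (m j * b j i) := by
    intro j
    rw [mul_pow, ← Finset.prod_pow]
    congr 1
    apply Finset.prod_congr rfl
    intro i _
    rw [← pow_mul, mul_comm]
  rw [Finset.prod_congr rfl fun j _ => h1 j, Finset.prod_mul_distrib, Finset.prod_comm]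
  simp only [Finset.prod_pow_eq_pow_sum]
  ring

/-- **The proximity function of one hypersurface.** -/
theorem prox_hyp {D M r N n : ℕ} {δ T : ℝ} (hT1 : 1 ≤ T) (hM : 1 ≤ M) (hδ : 0 ≤ δ)
    (hr : Module.finrank ℚ K ≤ r)
    (hT : 4 * (T ^ δ * T ^ δ) * (M * (T ^ δ * T ^ δ) ^ (2 * JM D M + 1)) ^ r *
      (T ^ δ * T ^ δ) ^ 2 ≤ T) {t : 𝓞 K} {S : Finset (FinitePlace K)}
    {F : Fin n → Polynomial (𝓞 K)} (hB : Base D δ T t S F) {a : Fin (N + 1) → 𝓞 K}
    {b : Fin (N + 1) → Fin n → ℕ} {e : ℕ} {f : MvPolynomial (Fin (N + 1)) (𝓞 K)}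
    (hf : Hyp M δ T a b e f) (hout : Outside f (point t F a b)) :
    prox S e (MvPolynomial.eval (point t F a b) f) (point t F a b) ≤
      (2 * JM D M + 3 : ℕ) * logN t := by
  classical
  have hT0 : 0 < T := by linarith
  obtain ⟨B, hBd⟩ : ∃ B : ℝ, B = T ^ δ := ⟨_, rfl⟩
  have hB1 : 1 ≤ B := by rw [hBd]; exact Real.one_le_rpow hT1 hδ
  rw [← hBd] at hT
  obtain ⟨H, hH⟩ : ∃ H : ℝ, H = B * B := ⟨_, rfl⟩
  rw [← hH] at hT
  have hH1 : 1 ≤ H := by rw [hH]; nlinarith
  have hBH : B ≤ H := by rw [hH]; nlinarith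
  obtain ⟨J, hJ⟩ : ∃ J, J = JM D M := ⟨_, rfl⟩
  rw [← hJ] at hT ⊢
  obtain ⟨x, hx⟩ : ∃ x, x = point t F a b := ⟨_, rfl⟩
  rw [← hx] at hout ⊢
  have hsd : SumData T H D t F := by
    refine ⟨hB.base, hB.number, fun i j σ => ?_, hB.first, fun i => (hB.last i).2,
      fun i => (hB.last i).1⟩
    have := hB.digits i j σ
    rw [← hBd] at this
    exact this.trans hBH
  -- the terms
  have hsupp : f.support.Nonempty := by
    refine ⟨Finsupp.single 0 e, ?_⟩
    rw [MvPolynomial.mem_support_iff]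
    exact hf.powers 0
  have : Nonempty f.support := ⟨⟨_, hsupp.choose_spec⟩⟩
  obtain ⟨α, hα⟩ : ∃ α : f.support → 𝓞 K, ∀ m, α m = f.coeff m.1 * ∏ j, a j ^ (m.1 j) :=
    ⟨_, fun m => rfl⟩
  obtain ⟨ex, hex⟩ : ∃ ex : f.support → Fin n → ℕ, ∀ m i, ex m i = ∑ j, m.1 j * b j i :=
    ⟨_, fun m i => rfl⟩
  have hterm : ∀ m : f.support, (PP F (α m) (ex m)).eval t =
      f.coeff m.1 * ∏ j, x j ^ (m.1 j) := by
    intro m
    have h1 : ex m = fun i => ∑ j, m.1 j * b j i := funext fun i => hex m i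
    rw [hα, h1, hx]
    exact term_eq _ _
  have hdegm : ∀ m ∈ f.support, ∑ j, m j = e := by
    intro m hm
    have h1 := hf.homogeneous (MvPolynomial.mem_support_iff.mp hm)
    rw [← h1, Finsupp.weight_apply, Finsupp.sum_fintype]
    · simp
    · simp
  have hw : MvPolynomial.eval x f = ∑ m, (PP F (α m) (ex m)).eval t := by
    rw [MvPolynomial.eval_eq', ← Finset.sum_attach]
    apply Finset.sum_congr rfl
    intro m _
    exact (hterm m).symm
  have hαn : ∀ m : f.support, ∀ σ : K →+* ℂ, ‖σ (α m)‖ ≤ H := by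
    intro m σ
    obtain ⟨A, hA⟩ : ∃ A : ℝ, A = (Finset.univ : Finset (Fin (N + 1))).sup'
      Finset.univ_nonempty (fun j => ‖σ (a j)‖) := ⟨_, rfl⟩
    have hAj : ∀ j, ‖σ (a j)‖ ≤ A := fun j => by
      rw [hA]
      exact Finset.le_sup' (fun j => ‖σ (a j)‖) (Finset.mem_univ j)
    have hA0 : 0 ≤ A := (norm_nonneg _).trans (hAj 0)
    have hAe : A ^ e ≤ B := by
      obtain ⟨j, -, hj⟩ := Finset.exists_mem_eq_sup' Finset.univ_nonempty
        (fun j : Fin (N + 1) => ‖σ (a j)‖)
      rw [hA, hj, hBd]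
      exact (hf.factors j).2 σ
    have h1 : ‖σ (α m)‖ = ‖σ (f.coeff m.1 : 𝓞 K)‖ * ∏ j, ‖σ (a j)‖ ^ (m.1 j) := by
      rw [hα]
      push_cast
      rw [map_mul, map_prod, norm_mul, norm_prod]
      simp only [map_pow, norm_pow]
    rw [h1, hH]
    apply mul_le_mul _ _ (Finset.prod_nonneg fun j _ => by positivity) (by linarith)
    · rw [hBd]
      exact hf.coefficients m.1 σ
    · calc ∏ j, ‖σ (a j)‖ ^ (m.1 j) ≤ ∏ j, A ^ (m.1 j) :=
            Finset.prod_le_prod (fun j _ => by positivity)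
              fun j _ => pow_le_pow_left₀ (norm_nonneg _) (hAj j) _
        _ = A ^ e := by rw [Finset.prod_pow_eq_pow_sum, hdegm m.1 m.2]
        _ ≤ B := hAe
  have hα0 : ∀ m : f.support, α m ≠ 0 := by
    intro m
    rw [hα]
    refine mul_ne_zero (MvPolynomial.mem_support_iff.mp m.2) (Finset.prod_ne_zero_iff.mpr ?_)
    intro j _
    exact pow_ne_zero _ (hf.factors j).1
  have hexn : ∀ m : f.support, ((∑ i, ex m i : ℕ) : ℝ) ≤ H := by
    intro m
    have h1 : ∑ i, ex m i = ∑ j, m.1 j * ∑ i, b j i := by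
      simp only [hex]
      rw [Finset.sum_comm]
      simp only [Finset.mul_sum]
    rcases Nat.eq_zero_or_pos e with he | he
    · have h2 : ∀ j, m.1 j = 0 := by
        intro j
        have h3 := hdegm m.1 m.2
        rw [he] at h3
        exact (Finset.sum_eq_zero_iff.mp h3) j (Finset.mem_univ j)
      rw [h1]
      simp only [h2, zero_mul, Finset.sum_const_zero, Nat.cast_zero]
      linarith
    · obtain ⟨j, -, hj⟩ := Finset.exists_max_image (Finset.univ : Finset (Fin (N + 1)))
        (fun j => ∑ i, b j i) Finset.univ_nonempty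
      have h2 : ∑ i, ex m i ≤ e * ∑ i, b j i := by
        rw [h1]
        calc ∑ j', m.1 j' * ∑ i, b j' i ≤ ∑ j', m.1 j' * ∑ i, b j i :=
              Finset.sum_le_sum fun j' hj' => Nat.mul_le_mul_left _ (hj j' hj')
          _ = e * ∑ i, b j i := by rw [← Finset.sum_mul, hdegm m.1 m.2]
      have h3 := hf.exponents j
      rw [← hBd] at h3
      have h4 : ((∑ i, ex m i : ℕ) : ℝ) ≤ ((e * ∑ i, b j i : ℕ) : ℝ) := by exact_mod_cast h2
      linarith
  have hno : ∀ L : Finset f.support, L.Nonempty → ∑ m ∈ L, (PP F (α m) (ex m)).eval t ≠ 0 := by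
    intro L hL
    have h1 := hout (L.map (Function.Embedding.subtype _)) (by
      intro m hm
      obtain ⟨m', -, rfl⟩ := Finset.mem_map.mp hm
      exact m'.2) (hL.map)
    rw [Finset.sum_map] at h1
    rw [Finset.sum_congr rfl fun m _ => hterm m]
    exact h1
  obtain ⟨g1, g2⟩ := nf_sum hH1 hM hr (by rw [← hJ]; exact hT) hsd (by
    rw [Fintype.card_coe]; exact hf.monomials) hα0 hαn ex hexn hw hno
  obtain ⟨y, hy⟩ : ∃ y, y = MvPolynomial.eval x f := ⟨_, rfl⟩
  rw [← hy] at g1 g2 ⊢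
  rw [← hJ] at g1 g2
  have hTC : H ^ (r - 1) ≤ T := by
    have hM1 : (1 : ℝ) ≤ M := by exact_mod_cast hM
    have h1 : H ^ (r - 1) ≤ (M * H ^ (2 * J + 1)) ^ r := by
      have h2 : H ≤ M * H ^ (2 * J + 1) := by
        have h3 : H ≤ H ^ (2 * J + 1) := le_self_pow₀ hH1 (by omega)
        nlinarith [pow_pos (by linarith : 0 < H) (2 * J + 1)]
      calc H ^ (r - 1) ≤ (M * H ^ (2 * J + 1)) ^ (r - 1) := pow_le_pow_left₀ (by linarith) h2 _
        _ ≤ _ := pow_le_pow_right₀ (by linarith) (Nat.sub_le _ _)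
    obtain ⟨Y, hY⟩ : ∃ Y : ℝ, Y = (M * H ^ (2 * J + 1)) ^ r := ⟨_, rfl⟩
    rw [← hY] at h1 hT
    have hY1 : 1 ≤ Y := by
      rw [hY]
      exact one_le_pow₀ (one_le_mul_of_one_le_of_one_le hM1 (one_le_pow₀ hH1))
    have hH2 : 1 ≤ H ^ 2 := one_le_pow₀ hH1
    have h4 : 4 * H * Y * 1 ≤ 4 * H * Y * H ^ 2 := mul_le_mul_of_nonneg_left hH2 (by positivity)
    nlinarith
  have ht0 : t ≠ 0 := by
    rintro rfl
    obtain ⟨σ⟩ : Nonempty (K →+* ℂ) := inferInstance
    have h1 := hB.base σ
    simp at h1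
    linarith
  have hx0 : ∀ j, x j ≠ 0 := by
    intro j h0
    have h1 := hout {Finsupp.single j e} (by
      rw [Finset.singleton_subset_iff, MvPolynomial.mem_support_iff]
      exact hf.powers j) (Finset.singleton_nonempty _)
    rw [Finset.sum_singleton] at h1
    rcases Nat.eq_zero_or_pos e with he | he
    · -- degree zero: the last coordinate is a product of nonzero numbers
      rw [hx] at h0
      unfold point at h0
      have h2 : ∀ i, (F i).eval t ≠ 0 := by
        intro i h3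
        have h4 : (t - 0) ∣ (F i).eval t - (F i).eval 0 := Polynomial.sub_dvd_eval_sub _ _ _
        rw [h3, sub_zero, zero_sub, dvd_neg, ← Polynomial.coeff_zero_eq_eval_zero] at h4
        have h5 := small_house hB.base _ h4 (lt_of_le_of_lt
          (house_le (by norm_num) (hB.last i).2) (by
            have hM1 : (1 : ℝ) ≤ M := by exact_mod_cast hM
            obtain ⟨Y, hY⟩ : ∃ Y : ℝ, Y = (M * H ^ (2 * J + 1)) ^ r := ⟨_, rfl⟩
            rw [← hY] at hT
            have hY1 : 1 ≤ Y := by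
              rw [hY]
              exact one_le_pow₀ (one_le_mul_of_one_le_of_one_le hM1 (one_le_pow₀ hH1))
            have hH2 : 1 ≤ H ^ 2 := one_le_pow₀ hH1
            have h4 : 4 * H * Y * 1 ≤ 4 * H * Y * H ^ 2 :=
              mul_le_mul_of_nonneg_left hH2 (by positivity)
            nlinarith))
        exact (hB.last i).1 h5
      exact mul_ne_zero (hf.factors j).1
        (Finset.prod_ne_zero_iff.mpr fun i _ => pow_ne_zero _ (h2 i)) h0
    · apply h1
      rw [Finset.prod_eq_zero (Finset.mem_univ j), mul_zero]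
      rw [h0, Finsupp.single_eq_same, zero_pow he.ne']
  have hy0 : y ≠ 0 := by
    rw [hy, hw]
    have := hno Finset.univ Finset.univ_nonempty
    exact this
  have hyK : (y : K) ≠ 0 := RingOfIntegers.coe_ne_zero_iff.mpr hy0
  have htK : (t : K) ≠ 0 := RingOfIntegers.coe_ne_zero_iff.mpr ht0
  have hxK : ∀ j, (x j : K) ≠ 0 := fun j => RingOfIntegers.coe_ne_zero_iff.mpr (hx0 j)
  have harch : ∀ w : InfinitePlace K,
      Real.log ((⨆ j, w (x j : K)) ^ e / w (y : K)) ≤ (J + 2) * Real.log (w (t : K)) := by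
    intro w
    obtain ⟨j, hj⟩ := exists_eq_ciSup_of_finite (f := fun j => w (x j : K))
    rw [← hj]
    have h1 := g1 w.embedding ⟨Finsupp.single j e, by
      rw [MvPolynomial.mem_support_iff]
      exact hf.powers j⟩
    rw [hterm] at h1
    have h2 : ∏ j', x j' ^ (Finsupp.single j e j') = x j ^ e := by
      rw [Finset.prod_eq_single j]
      · rw [Finsupp.single_eq_same]
      · intro j' _ hne
        rw [Finsupp.single_eq_of_ne hne, pow_zero]
      · intro h
        exact absurd (Finset.mem_univ j) h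
    simp only [h2] at h1
    push_cast at h1
    rw [map_mul, map_pow, norm_mul, norm_pow, InfinitePlace.norm_embedding_eq,
      InfinitePlace.norm_embedding_eq, InfinitePlace.norm_embedding_eq,
      InfinitePlace.norm_embedding_eq] at h1
    have h3 := conj_lower (hf.powers j) hH1 (fun σ => by
      have := hf.coefficients (Finsupp.single j e) σ
      rw [← hBd] at this
      exact this.trans hBH) hr w.embedding
    rw [InfinitePlace.norm_embedding_eq] at h3
    have hwt : T ≤ w (t : K) := by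
      rw [← InfinitePlace.norm_embedding_eq]
      exact hB.base _
    have hwt0 : 0 < w (t : K) := by linarith
    have hwx0 : 0 < w (x j : K) := InfinitePlace.pos_iff.mpr (hxK j)
    have hwy0 : 0 < w (y : K) := InfinitePlace.pos_iff.mpr hyK
    have h4 : w (x j : K) ^ e ≤ w (t : K) ^ (J + 2) * w (y : K) := by
      obtain ⟨c, hc⟩ : ∃ c, c = w (f.coeff (Finsupp.single j e) : 𝓞 K) := ⟨_, rfl⟩
      rw [← hc] at h1 h3
      have hc0 : 0 ≤ c := by rw [hc]; exact apply_nonneg _ _
      calc w (x j : K) ^ e = 1 * w (x j : K) ^ e := (one_mul _).symm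
        _ ≤ (c * H ^ (r - 1)) * w (x j : K) ^ e :=
            mul_le_mul_of_nonneg_right h3 (by positivity)
        _ = H ^ (r - 1) * (c * w (x j : K) ^ e) := by ring
        _ ≤ T * (w (t : K) ^ (J + 1) * w (y : K)) :=
            mul_le_mul hTC h1 (by positivity) hT0.le
        _ ≤ w (t : K) * (w (t : K) ^ (J + 1) * w (y : K)) :=
            mul_le_mul_of_nonneg_right hwt (by positivity)
        _ = _ := by ring
    have h5 : w (x j : K) ^ e / w (y : K) ≤ w (t : K) ^ (J + 2) := by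
      rw [div_le_iff₀ hwy0]
      exact h4
    have h6 := Real.log_le_log (by positivity) h5
    rw [Real.log_pow] at h6
    push_cast at h6
    exact h6
  have hfinp : ∀ v : FinitePlace K,
      Real.log ((⨆ j, v (x j : K)) ^ e / v (y : K)) ≤ -Real.log (v (y : K)) := by
    intro v
    have h1 : 0 < ⨆ j, v (x j : K) := lt_of_lt_of_le (FinitePlace.pos_iff.mpr (hxK 0))
      (le_ciSup (f := fun j => v (x j : K)) (Set.finite_range _).bddAbove 0)
    have h2 : (⨆ j, v (x j : K)) ≤ 1 := ciSup_le fun j => finite_le_one v (x j)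
    rw [Real.log_div (by positivity) (FinitePlace.pos_iff.mpr hyK).ne', Real.log_pow]
    have h3 := Real.log_nonpos h1.le h2
    have h4 : (0 : ℝ) ≤ e := Nat.cast_nonneg _
    nlinarith
  have hd : (0 : ℝ) < Module.finrank ℚ K := by exact_mod_cast Module.finrank_pos
  unfold prox logN
  rw [← mul_div_assoc]
  apply div_le_div_of_nonneg_right _ hd.le
  have h1 : ∑ w : InfinitePlace K, (w.mult : ℝ) * Real.log ((⨆ j, w (x j : K)) ^ e / w (y : K)) ≤
      (J + 2) * Real.log |((Algebra.norm ℚ (t : K) : ℚ) : ℝ)| := by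
    rw [← log_norm t ht0, Finset.mul_sum]
    apply Finset.sum_le_sum
    intro w _
    have h2 := harch w
    have h3 : (0 : ℝ) ≤ w.mult := Nat.cast_nonneg _
    calc (w.mult : ℝ) * Real.log ((⨆ j, w (x j : K)) ^ e / w (y : K)) ≤
          w.mult * ((J + 2) * Real.log (w (t : K))) := mul_le_mul_of_nonneg_left h2 h3
      _ = _ := by ring
  have h2 : ∑ v ∈ S, Real.log ((⨆ j, v (x j : K)) ^ e / v (y : K)) ≤
      (J + 1) * Real.log |((Algebra.norm ℚ (t : K) : ℚ) : ℝ)| := by
    refine (Finset.sum_le_sum fun v _ => hfinp v).trans (g2 S ?_)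
    intro v hv
    have h3 := hB.places v hv
    calc T * v (t : K) ≤ T * T⁻¹ := mul_le_mul_of_nonneg_left h3 hT0.le
      _ = 1 := mul_inv_cancel₀ hT0.ne'
  push_cast
  linarith

private theorem choose_delta (D M r : ℕ) : ∃ δ : ℝ, 0 < δ ∧ ∃ T₀ : ℝ, 1 ≤ T₀ ∧
    ∀ T : ℝ, T₀ ≤ T → 4 * (T ^ δ * T ^ δ) * (M * (T ^ δ * T ^ δ) ^ (2 * JM D M + 1)) ^ r *
      (T ^ δ * T ^ δ) ^ 2 ≤ T := by
  obtain ⟨J, hJ⟩ : ∃ J, J = JM D M := ⟨_, rfl⟩
  rw [← hJ]
  obtain ⟨A, hA⟩ : ∃ A : ℕ, A = 2 + 2 * ((2 * J + 1) * r) + 4 := ⟨_, rfl⟩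
  refine ⟨1 / (2 * A), by rw [hA]; positivity, (4 * (M : ℝ) ^ r + 1) ^ 2, ?_, ?_⟩
  · have : (0 : ℝ) ≤ 4 * (M : ℝ) ^ r := by positivity
    nlinarith
  intro T hT
  have hM0 : (0 : ℝ) ≤ 4 * (M : ℝ) ^ r := by positivity
  have hT1 : 1 ≤ T := by nlinarith
  have hT0 : 0 < T := by linarith
  obtain ⟨s, hs⟩ : ∃ s : ℝ, s = T ^ (1 / 2 : ℝ) := ⟨_, rfl⟩
  have hss : s * s = T := by
    rw [hs, ← Real.rpow_add hT0]
    norm_num
  have hs0 : 0 < s := by rw [hs]; positivity
  have hs1 : 4 * (M : ℝ) ^ r ≤ s := by nlinarith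
  obtain ⟨δ, hδ⟩ : ∃ δ : ℝ, δ = 1 / (2 * A) := ⟨_, rfl⟩
  rw [← hδ]
  have hpow : (T ^ δ) ^ A = s := by
    rw [← Real.rpow_mul_natCast hT0.le, hs, hδ]
    congr 1
    have : (A : ℝ) ≠ 0 := by rw [hA]; positivity
    field_simp
  calc 4 * (T ^ δ * T ^ δ) * (M * (T ^ δ * T ^ δ) ^ (2 * J + 1)) ^ r * (T ^ δ * T ^ δ) ^ 2
      = (4 * (M : ℝ) ^ r) * (T ^ δ) ^ A := by
        rw [hA, mul_pow, ← pow_mul, ← pow_two, ← pow_mul, ← pow_mul, pow_add, pow_add]
        ring
    _ = (4 * (M : ℝ) ^ r) * s := by rw [hpow]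
    _ ≤ s * s := mul_le_mul_of_nonneg_right hs1 hs0.le
    _ = T := hss

/-- **Vojta's inequality at the points composed of numbers with small digits.** The divisor consists
of all coordinate hyperplanes and the hypersurfaces `f k = 0`. -/
theorem result (D M r : ℕ) (hM : 1 ≤ M) : ∃ (G : ℕ) (δ T₀ : ℝ), 0 < δ ∧ 1 ≤ T₀ ∧
    ∀ T : ℝ, T₀ ≤ T → ∀ (K : Type) [Field K] [NumberField K], Module.finrank ℚ K ≤ r →
    ∀ (N n q : ℕ) (t : 𝓞 K) (S : Finset (FinitePlace K)) (F : Fin n → Polynomial (𝓞 K))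
      (a : Fin (N + 1) → 𝓞 K) (b : Fin (N + 1) → Fin n → ℕ) (e : Fin q → ℕ)
      (f : Fin q → MvPolynomial (Fin (N + 1)) (𝓞 K)), Base D δ T t S F → 1 ≤ q →
      (∀ k, Hyp M δ T a b (e k) (f k)) → (∀ k, Outside (f k) (point t F a b)) →
      (∀ k, prox S (e k) (MvPolynomial.eval (point t F a b) (f k)) (point t F a b) ≤
        G * logN t) ∧
      ∑ j, prox S 1 (point t F a b j) (point t F a b) +
          ∑ k, prox S (e k) (MvPolynomial.eval (point t F a b) (f k)) (point t F a b) -
          (N + 1) * h (point t F a b) ≤ q * G * logN t := by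
  obtain ⟨δ, hδ, T₀, hT₀, hT⟩ := choose_delta D M r
  refine ⟨2 * JM D M + 3, δ, max T₀ 2, hδ, le_max_of_le_left hT₀, ?_⟩
  intro T hTT K _ _ hr N n q t S F a b e f hB hq hf hout
  have hT2 : 2 ≤ T := (le_max_right _ _).trans hTT
  have hTc := hT T ((le_max_left _ _).trans hTT)
  have h1 : ∀ k, prox S (e k) (MvPolynomial.eval (point t F a b) (f k)) (point t F a b) ≤
      ((2 * JM D M + 3 : ℕ) : ℝ) * logN t := fun k =>
    prox_hyp (by linarith) hM hδ.le hr hTc hB (hf k) (hout k)
  refine ⟨h1, ?_⟩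
  have hx0 : ∀ j, point t F a b j ≠ 0 := by
    intro j
    unfold point
    refine mul_ne_zero ((hf ⟨0, hq⟩).factors j).1 (Finset.prod_ne_zero_iff.mpr fun i _ =>
      pow_ne_zero _ ?_)
    intro h3
    have h4 : (t - 0) ∣ (F i).eval t - (F i).eval 0 := Polynomial.sub_dvd_eval_sub _ _ _
    rw [h3, sub_zero, zero_sub, dvd_neg, ← Polynomial.coeff_zero_eq_eval_zero] at h4
    have h5 := small_house hB.base _ h4 (lt_of_le_of_lt
      (house_le (by norm_num) (hB.last i).2) (by linarith))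
    exact (hB.last i).1 h5
  have h2 : ∑ j, prox S 1 (point t F a b j) (point t F a b) ≤ (N + 1) * h (point t F a b) := by
    refine (Finset.sum_le_sum fun j _ => prox_coordinate hx0 S j).trans (le_of_eq ?_)
    rw [Finset.sum_const, Finset.card_univ, Fintype.card_fin, nsmul_eq_mul]
    push_cast
    ring
  have h3 : ∑ k, prox S (e k) (MvPolynomial.eval (point t F a b) (f k)) (point t F a b) ≤
      q * ((2 * JM D M + 3 : ℕ) : ℝ) * logN t := by
    refine (Finset.sum_le_sum fun k _ => h1 k).trans (le_of_eq ?_)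
    rw [Finset.sum_const, Finset.card_univ, Fintype.card_fin, nsmul_eq_mul]
    ring
  linarith

end

end Pool.Agent.Results.MP_17a322_nt.SmallDigitPoints
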