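import Pool.Agent.Q156.ParTree

/-!
# Domination versus lower irredundance in trees

For every `m ≥ 1` there is a tree with `7m - 1` vertices, lower irredundance number at most `2m`
and domination number at least `3m - 1`.  So the quotient of the two numbers comes arbitrarily
close to `3/2`; in particular `5/4` is not its maximum over all trees.
-/

set_option autoImplicit false

namespace Pool.Agent.Results.MP_180bcc_co.ThreeHalves

open SimpleGraph Q156.ParTree

variable {V : Type}

/-- The closed neighbourhood of a vertex. -/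
def closedNbr (G : SimpleGraph V) (v : V) : Set V := {u | u = v ∨ G.Adj v u}

/-- `D` is a dominating set. -/
def Dominating (G : SimpleGraph V) (D : Set V) : Prop := ∀ v, ∃ d ∈ D, v ∈ closedNbr G d

/-- `S` is irredundant: every `v ∈ S` has a private neighbour, that is a vertex in the closed
neighbourhood of `v` and in no closed neighbourhood of another element of `S`. -/
def Irredundant (G : SimpleGraph V) (S : Set V) : Prop :=
  ∀ v ∈ S, ∃ x ∈ closedNbr G v, ∀ u ∈ S, u ≠ v → x ∉ closedNbr G u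

/-- `S` is a maximal irredundant set. -/
def MaximalIrredundant (G : SimpleGraph V) (S : Set V) : Prop :=
  Irredundant G S ∧ ∀ S', S ⊂ S' → ¬ Irredundant G S'

/-- The domination number: the minimum size of a dominating set. -/
noncomputable def domNumber (G : SimpleGraph V) : ℕ :=
  sInf {k | ∃ D : Set V, Dominating G D ∧ D.ncard = k}

/-- The lower irredundance number: the minimum size of a maximal irredundant set. -/
noncomputable def irNumber (G : SimpleGraph V) : ℕ :=
  sInf {k | ∃ S : Set V, MaximalIrredundant G S ∧ S.ncard = k}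

/-! ### The trees -/

/-- The parent function.  The vertices are `0, …, 7m - 2`; the residue of `v + 1` modulo `7` tells
the role of `v`: `1` and `4` for the two adjacent vertices `a`, `b` of a pair, `2, 3` and `5, 6`
for the paths of length two attached to `a` and `b`, and `0` for the connectors. -/
def par (v : ℕ) : ℕ := if (v + 1) % 7 = 0 ∨ (v + 1) % 7 = 4 then v - 3 else v - 1

theorem par_lt : ∀ v ≠ 0, par v < v := by
  intro v hv
  unfold par
  split_ifs <;> omega

/-- The tree with `m` pairs. -/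
abbrev tr (m : ℕ) : SimpleGraph (Fin (7 * m - 1)) := pgraph (7 * m - 1) par

theorem adj_iff {m : ℕ} {u v : Fin (7 * m - 1)} : (tr m).Adj u v ↔
    (v.val = u.val + 1 ∧ (v.val + 1) % 7 ≠ 0 ∧ (v.val + 1) % 7 ≠ 4) ∨
    (v.val = u.val + 3 ∧ ((v.val + 1) % 7 = 0 ∨ (v.val + 1) % 7 = 4)) ∨
    (u.val = v.val + 1 ∧ (u.val + 1) % 7 ≠ 0 ∧ (u.val + 1) % 7 ≠ 4) ∨
    (u.val = v.val + 3 ∧ ((u.val + 1) % 7 = 0 ∨ (u.val + 1) % 7 = 4)) := by
  rw [pgraph_adj]
  unfold par
  rw [Ne, Fin.ext_iff]
  split_ifs <;> omega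

theorem mem_iff {m : ℕ} {u v : Fin (7 * m - 1)} : u ∈ closedNbr (tr m) v ↔
    u.val = v.val ∨
    (v.val = u.val + 1 ∧ (v.val + 1) % 7 ≠ 0 ∧ (v.val + 1) % 7 ≠ 4) ∨
    (v.val = u.val + 3 ∧ ((v.val + 1) % 7 = 0 ∨ (v.val + 1) % 7 = 4)) ∨
    (u.val = v.val + 1 ∧ (u.val + 1) % 7 ≠ 0 ∧ (u.val + 1) % 7 ≠ 4) ∨
    (u.val = v.val + 3 ∧ ((u.val + 1) % 7 = 0 ∨ (u.val + 1) % 7 = 4)) := by
  show u = v ∨ (tr m).Adj v u ↔ _
  rw [adj_iff, Fin.ext_iff]
  omega

/-- The pairs. -/
def pairs (m : ℕ) : Set (Fin (7 * m - 1)) := {v | (v.val + 1) % 7 = 1 ∨ (v.val + 1) % 7 = 4}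

theorem pairs_irredundant (m : ℕ) : Irredundant (tr m) (pairs m) := by
  intro v hv
  have hlt := v.2
  have hv' : (v.val + 1) % 7 = 1 ∨ (v.val + 1) % 7 = 4 := hv
  refine ⟨⟨v.val + 1, by omega⟩, ?_, ?_⟩
  · rw [mem_iff]
    dsimp only
    omega
  · intro u hu hne hmem
    have hu' : (u.val + 1) % 7 = 1 ∨ (u.val + 1) % 7 = 4 := hu
    rw [Ne, Fin.ext_iff] at hne
    rw [mem_iff] at hmem
    simp only at hmem
    omega

/-- If all vertices of the closed neighbourhood of `u` are in closed neighbourhoods of other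
elements of `S`, then `S` is not irredundant. -/
theorem not_irr {G : SimpleGraph V} {S : Set V} {u : V} (hu : u ∈ S)
    (h : ∀ x ∈ closedNbr G u, ∃ u' ∈ S, u' ≠ u ∧ x ∈ closedNbr G u') : ¬ Irredundant G S := by
  intro hS
  obtain ⟨x, hx, hx'⟩ := hS u hu
  obtain ⟨u', h1, h2, h3⟩ := h x hx
  exact hx' u' h1 h2 h3

theorem pairs_maximal (m : ℕ) : MaximalIrredundant (tr m) (pairs m) := by
  refine ⟨pairs_irredundant m, ?_⟩
  intro S' hS
  obtain ⟨hsub, w, hw, hwS⟩ := Set.ssubset_iff_exists.1 hS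
  have hw' : ¬ ((w.val + 1) % 7 = 1 ∨ (w.val + 1) % 7 = 4) := hwS
  have hmem : ∀ (k : ℕ) (hk : k < 7 * m - 1), ((k + 1) % 7 = 1 ∨ (k + 1) % 7 = 4) →
      (⟨k, hk⟩ : Fin (7 * m - 1)) ∈ S' := fun k hk h => hsub h
  have hlt := w.2
  -- the vertex that loses its private neighbours
  have hcase : (w.val + 1) % 7 = 0 ∨ ∃ u : Fin (7 * m - 1),
      ((u.val + 1) % 7 = 1 ∨ (u.val + 1) % 7 = 4) ∧ (w.val = u.val + 1 ∨ w.val = u.val + 2) := by
    by_cases h0 : (w.val + 1) % 7 = 0
    · exact Or.inl h0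
    · right
      by_cases h1 : (w.val + 1) % 7 = 2 ∨ (w.val + 1) % 7 = 5
      · exact ⟨⟨w.val - 1, by omega⟩, by dsimp only; omega, by dsimp only; omega⟩
      · exact ⟨⟨w.val - 2, by omega⟩, by dsimp only; omega, by dsimp only; omega⟩
  rcases hcase with h0 | ⟨u, hu, hwu⟩
  · apply not_irr hw
    intro x hx
    rw [mem_iff] at hx
    have hxl := x.2
    by_cases hx1 : x.val = w.val + 1
    · exact ⟨x, hsub (by show _ ∨ _; omega), by rw [Ne, Fin.ext_iff]; omega, Or.inl rfl⟩
    · refine ⟨⟨w.val - 3, by omega⟩, hmem _ _ (by omega), ?_, ?_⟩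
      · rw [Ne, Fin.ext_iff]
        dsimp only
        omega
      · rw [mem_iff]
        dsimp only
        omega
  · have huS : u ∈ S' := hsub hu
    have hul := u.2
    apply not_irr huS
    intro x hx
    rw [mem_iff] at hx
    have hxl := x.2
    by_cases hx1 : x.val = u.val + 1 ∧ (x.val + 1) % 7 ≠ 0
    · -- the former private neighbour is now dominated by `w`
      refine ⟨w, hw, by rw [Ne, Fin.ext_iff]; omega, ?_⟩
      rw [mem_iff]
      omega
    · by_cases hz : (x.val + 1) % 7 = 0
      · -- a connector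
        rcases hu with hu1 | hu4
        · refine ⟨⟨x.val - 3, by omega⟩, hmem _ _ (by omega), ?_, ?_⟩
          · rw [Ne, Fin.ext_iff]
            dsimp only
            omega
          · rw [mem_iff]
            dsimp only
            omega
        · refine ⟨⟨x.val + 1, by omega⟩, hmem _ _ (by omega), ?_, ?_⟩
          · rw [Ne, Fin.ext_iff]
            dsimp only
            omega
          · rw [mem_iff]
            dsimp only
            omega
      · -- a vertex of the pair
        rcases hu with hu1 | hu4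
        · refine ⟨⟨u.val + 3, by omega⟩, hmem _ _ (by omega), ?_, ?_⟩
          · rw [Ne, Fin.ext_iff]
            dsimp only
            omega
          · rw [mem_iff]
            dsimp only
            omega
        · refine ⟨⟨u.val - 3, by omega⟩, hmem _ _ (by omega), ?_, ?_⟩
          · rw [Ne, Fin.ext_iff]
            dsimp only
            omega
          · rw [mem_iff]
            dsimp only
            omega

theorem pairs_ncard (m : ℕ) : (pairs m).ncard ≤ 2 * m := by
  have h : (pairs m).ncard ≤ ((Finset.range (2 * m) : Finset ℕ) : Set ℕ).ncard := by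
    refine Set.ncard_le_ncard_of_injOn
      (fun v : Fin (7 * m - 1) => 2 * ((v.val + 1) / 7) + ((v.val + 1) % 7) / 4) ?_ ?_
      (Finset.finite_toSet _)
    · intro v hv
      have hlt := v.2
      have hv' : (v.val + 1) % 7 = 1 ∨ (v.val + 1) % 7 = 4 := hv
      rw [Finset.coe_range, Set.mem_Iio]
      omega
    · intro u hu v hv h
      have hu' : (u.val + 1) % 7 = 1 ∨ (u.val + 1) % 7 = 4 := hu
      have hv' : (v.val + 1) % 7 = 1 ∨ (v.val + 1) % 7 = 4 := hv
      apply Fin.ext
      simp only at h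
      omega
  rwa [Set.ncard_coe_finset, Finset.card_range] at h

/-- The vertices of a packing. -/
def pk (j : ℕ) : ℕ := 7 * (j / 3) + (if j % 3 = 0 then 2 else if j % 3 = 1 then 5 else 6)

theorem pk_lt {m j : ℕ} (h : j < 3 * m - 1) : pk j < 7 * m - 1 := by
  unfold pk
  split_ifs <;> omega

theorem dominating_ncard {m : ℕ} {D : Set (Fin (7 * m - 1))} (hD : Dominating (tr m) D) :
    3 * m - 1 ≤ D.ncard := by
  have h1 : ∀ j : Fin (3 * m - 1), ∃ d ∈ D,
      (⟨pk j.val, pk_lt j.2⟩ : Fin (7 * m - 1)) ∈ closedNbr (tr m) d := fun j => hD _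
  choose d hd hd' using h1
  have hinj : Function.Injective d := by
    intro i j hij
    have hi := hd' i
    have hj := hd' j
    rw [hij] at hi
    rw [mem_iff] at hi hj
    simp only [pk] at hi hj
    apply Fin.ext
    split_ifs at hi hj <;> omega
  have h2 : (Set.range d).ncard = 3 * m - 1 := by
    rw [← Set.image_univ, Set.ncard_image_of_injective _ hinj, Set.ncard_univ, Nat.card_eq_fintype_card,
      Fintype.card_fin]
  rw [← h2]
  apply Set.ncard_le_ncard
  · rintro _ ⟨j, rfl⟩
    exact hd j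
  · exact Set.toFinite _

theorem le_domNumber (m : ℕ) : 3 * m - 1 ≤ domNumber (tr m) := by
  apply le_csInf
  · exact ⟨_, Set.univ, fun v => ⟨v, Set.mem_univ _, Or.inl rfl⟩, rfl⟩
  · rintro k ⟨D, hD, rfl⟩
    exact dominating_ncard hD

theorem irNumber_le (m : ℕ) : irNumber (tr m) ≤ 2 * m :=
  le_trans (Nat.sInf_le (by exact ⟨pairs m, pairs_maximal m, rfl⟩)) (pairs_ncard m)

theorem irNumber_pos {G : SimpleGraph V} [Finite V] [Nonempty V]
    (h : ∃ S, MaximalIrredundant G S) : 0 < irNumber G := by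
  have hmem : irNumber G ∈ {k | ∃ S : Set V, MaximalIrredundant G S ∧ S.ncard = k} := by
    apply Nat.sInf_mem
    obtain ⟨S, hS⟩ := h
    exact ⟨_, S, hS, rfl⟩
  obtain ⟨S, hS, hk⟩ := hmem
  rw [← hk]
  rw [Set.ncard_pos (Set.toFinite _)]
  by_contra hne
  rw [Set.not_nonempty_iff_eq_empty] at hne
  subst hne
  obtain ⟨v⟩ := ‹Nonempty V›
  apply hS.2 {v}
  · rw [Set.ssubset_iff_subset_ne]
    exact ⟨Set.empty_subset _, (Set.singleton_ne_empty v).symm⟩
  · intro u hu
    rw [Set.mem_singleton_iff] at hu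
    subst hu
    exact ⟨u, Or.inl rfl, fun w hw hne => absurd hw hne⟩

/-- **The quotient of domination number and lower irredundance number of trees comes arbitrarily
close to `3/2`**; in particular it exceeds `5/4` for some tree. -/
theorem result : ∀ c : ℝ, c < 3 / 2 → ∃ (V : Type) (_ : Finite V) (G : SimpleGraph V),
    G.IsTree ∧ c < (domNumber G : ℝ) / (irNumber G : ℝ) := by
  intro c hc
  obtain ⟨m, hm⟩ := exists_nat_gt (1 / (3 - 2 * c))
  have h3 : (0 : ℝ) < 3 - 2 * c := by linarith
  have hm0 : 0 < m := by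
    rcases Nat.eq_zero_or_pos m with h | h
    · subst h
      have : (0 : ℝ) < 1 / (3 - 2 * c) := by positivity
      simp only [Nat.cast_zero] at hm
      linarith
    · exact h
  refine ⟨Fin (7 * m - 1), inferInstance, tr m, pgraph_isTree (by omega) par_lt, ?_⟩
  have : Nonempty (Fin (7 * m - 1)) := ⟨⟨0, by omega⟩⟩
  have hpos := irNumber_pos ⟨pairs m, pairs_maximal m⟩
  have hle := irNumber_le m
  have hge := le_domNumber m
  have hpos' : (0 : ℝ) < (irNumber (tr m) : ℝ) := by exact_mod_cast hpos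
  have hle' : (irNumber (tr m) : ℝ) ≤ 2 * m := by exact_mod_cast hle
  have hge' : (3 * m : ℝ) - 1 ≤ (domNumber (tr m) : ℝ) := by
    have : 3 * m ≤ domNumber (tr m) + 1 := by omega
    have : (3 * m : ℝ) ≤ (domNumber (tr m) : ℝ) + 1 := by exact_mod_cast this
    linarith
  have hmr : (1 : ℝ) ≤ m := by exact_mod_cast hm0
  rw [div_lt_iff₀ h3] at hm
  rw [lt_div_iff₀ hpos']
  rcases le_or_gt c 0 with hc0 | hc0
  · have : c * (irNumber (tr m) : ℝ) ≤ 0 := mul_nonpos_of_nonpos_of_nonneg hc0 hpos'.le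
    linarith
  · have : c * (irNumber (tr m) : ℝ) ≤ c * (2 * m) := mul_le_mul_of_nonneg_left hle' hc0.le
    nlinarith

end Pool.Agent.Results.MP_180bcc_co.ThreeHalves
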