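import Pool.Agent.Results.MP_1906c1_mp.AllTimes
import Pool.Agent.Q218.WE.AllO
import Pool.Agent.Q218.WE.Micro
import Pool.Agent.Q222.WE.AMPZ
import Pool.Agent.Q222.WE.ABEL
import Pool.Agent.Q222.WE.PLA
import Pool.Agent.Q222.WE.OPN
import Pool.Agent.Q222.WE.MUL
import Pool.Agent.Q222.WE.CHI
import Pool.Agent.Q177.WE.EXPK
import Pool.Agent.Q177.WE.DROP
import Pool.Agent.Q150.WE.LIPK
import Pool.Agent.Q95.LE.GAU
import Pool.Agent.Q91.LE.SPL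
import Pool.Agent.Q257.LE.NET
import Pool.Agent.Q176.LE.CubeT
import Pool.Agent.Q246.LE.EXP
import Pool.Agent.Q246.LE.FOUR
import Pool.Agent.Q237.LE.MEAS
import Pool.Agent.Q211.LE.SYM
import Pool.Agent.Q285.LE.THL

set_option autoImplicit false

open scoped BigOperators ENNReal Topology
open MeasureTheory Filter ProbabilityTheory

namespace Pool.Agent.Results.MP_1906c1_mp.PhaseSpaceErgodicity

open Pool.Agent.Results.MP_1906c1_mp.QuantumDiffusion (H neg_law)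
open Pool.Agent.Results.MP_1906c1_mp.AllTimes (box LocalEigenSystem)
open Pool.Agent.TH794.QD (hmk HS)
open Pool.Agent.H4R2.LO (bx)
open Pool.Agent.Q218.UD (D0 D1)
open Pool.Agent.Q218.LE (Good freeE3)
open Pool.Agent.Q218.WE (GoodP Fr gauP micro_lim)

/-- the mean value of `f` over the box of radius `r` around `x` -/
noncomputable def average {d : ℕ} (r : ℕ) (f : (Fin d → ℤ) → ℝ) (x : Fin d → ℤ) : ℝ :=
  ((box x r).card : ℝ)⁻¹ * ∑ y ∈ box x r, f y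

/-- the energy `∑ 2 cos (2π k_i)` of the plane wave `x ↦ e^{2πi k·x}` -/
noncomputable def energy {d : ℕ} (k : Fin d → ℝ) : ℝ := ∑ i, 2 * Real.cos (2 * Real.pi * k i)

/-- the integral of `cos (2π v·k)` over the momenta `k ∈ [0,1]^d` with the Lorentzian weight of width
`η` at the energy surface `{energy = E}` -/
noncomputable def shell {d : ℕ} (v : Fin d → ℤ) (E η : ℝ) : ℝ :=
  ∫ k in Set.Icc (0 : Fin d → ℝ) 1, Real.cos (2 * Real.pi * ∑ i, v i * k i) *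
    (η / ((energy k - E) ^ 2 + η ^ 2))

/-- the microcanonical average `⟨e^{2πi v·k}⟩_E` over the energy surface `{energy = E}` -/
noncomputable def micro {d : ℕ} (v : Fin d → ℤ) (E : ℝ) : ℝ :=
  limUnder (𝓝[>] 0) fun η => shell v E η / shell (0 : Fin d → ℤ) E η

/-- **Local quantum ergodicity in phase space** for the observable `a` on the box `Λ` with the centre
`b` and the radius `L`. Whatever the amplitude `ρ`, `|ρ| ≤ 1`, with
`|ρ(x) - ρ(y)| ≤ |σ|^{2.06/d} |x - y|` is, with `f = a ρ` and for every local eigensystem `φ_j, e_j`: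

`position`: the expectation values of `f` and of its local average `f_r`, `r ≤ |σ|^{-2.011}`, agree,
`∑_j (∑_{x ∈ Λ} (f(x) - f_r(x)) |φ_j(x)|²)² ≤ ε |Λ|`;

`momentum`: at every site the momentum is uniformly distributed on the energy surface,
`∑_j |∑_{x ∈ Λ} f(x) (conj (φ_j(x)) φ_j(x+v) - ⟨e^{2πi v·k}⟩_{e_j} |φ_j(x)|²)|² ≤ ε |Λ|` for all
`|v| ≤ R`, where the sum is over the `j` with `|e_j| ≤ 2d - κ`. -/
structure Ergodic {d : ℕ} (R : ℕ) (κ σ ε : ℝ) (ξ a : (Fin d → ℤ) → ℝ) (b : Fin d → ℤ) (L : ℕ) :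
    Prop where
  position : ∀ ρ : (Fin d → ℤ) → ℝ, (∀ x, |ρ x| ≤ 1) →
    (∀ x y, |ρ x - ρ y| ≤ |σ| ^ (206 / 100 / d : ℝ) * ‖x - y‖) →
    ∀ r : ℕ, (r : ℝ) ≤ |σ| ^ (-(2011 / 1000) : ℝ) →
    ∀ (J : Type) (φ : J → (Fin d → ℤ) → ℂ) (e : J → ℝ), LocalEigenSystem σ ξ b L φ e →
    ∀ s : Finset J,
      ∑ j ∈ s, (∑ x ∈ box b L,
        (a x * ρ x - average r (fun y => a y * ρ y) x) * ‖φ j x‖ ^ 2) ^ 2 ≤ ε * (box b L).card
  momentum : ∀ ρ : (Fin d → ℤ) → ℝ, (∀ x, |ρ x| ≤ 1) →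
    (∀ x y, |ρ x - ρ y| ≤ |σ| ^ (206 / 100 / d : ℝ) * ‖x - y‖) →
    ∀ v : Fin d → ℤ, ‖v‖ ≤ R →
    ∀ (J : Type) (φ : J → (Fin d → ℤ) → ℂ) (e : J → ℝ), LocalEigenSystem σ ξ b L φ e →
    ∀ s : Finset J, (∀ j ∈ s, |e j| ≤ 2 * d - κ) →
      ∑ j ∈ s, ‖∑ x ∈ box b L, ((a x * ρ x : ℝ) : ℂ) *
        ((starRingEnd ℂ) (φ j x) * φ j (x + v) - ((micro v (e j) * ‖φ j x‖ ^ 2 : ℝ) : ℂ))‖ ^ 2 ≤
        ε * (box b L).card

theorem lim_micro {d : ℕ} (hd : 3 ≤ d) (v : Fin d → ℤ) (E : ℝ) (hE : |E| < 2 * d) :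
    Tendsto (fun η => shell v E η / shell (0 : Fin d → ℤ) E η) (𝓝[>] 0) (𝓝 (Fr d v E)) :=
  micro_lim Pool.Agent.Q222.WE.t_AMPZ d hd v E hE

theorem micro_eq {d : ℕ} (hd : 3 ≤ d) (v : Fin d → ℤ) (E : ℝ) (hE : |E| < 2 * d) :
    micro v E = Fr d v E :=
  (lim_micro hd v E hE).limUnder_eq

theorem ergodic_of_good {d : ℕ} (hd : 3 ≤ d) {R : ℕ} {κ σ ε : ℝ} (hκ : 0 < κ)
    {a ω ξ : (Fin d → ℤ) → ℝ} {b : Fin d → ℤ} {L : ℕ}
    (hωξ : ∀ x, -(σ * ξ x) = |σ| * ω x)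
    (h : Good d |σ| (206 / 100 / d) ε a ω b L ∧ GoodP d R κ |σ| (206 / 100 / d) ε a ω b L) :
    Ergodic R κ σ ε ξ a b L := by
  have heq : ∀ (J : Type) (φ : J → (Fin d → ℤ) → ℂ) (e : J → ℝ),
      LocalEigenSystem σ ξ b L φ e → ∀ (j : J) (x : Fin d → ℤ), ‖x - b‖ < L →
      -Pool.Agent.W788.LD.Spec.S (φ j) x + ((|σ| * ω x : ℝ) : ℂ) * φ j x =
        ((-e j : ℝ) : ℂ) * φ j x := by
    intro J φ e hφ j x hx
    have h3 := hφ.eigen j x hx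
    rw [← hωξ x]
    unfold H at h3
    unfold Pool.Agent.W788.LD.Spec.S
    push_cast at h3 ⊢
    linear_combination (-1 : ℂ) * h3
  constructor
  · intro ρ hρ1 hρ2 r hr J φ e hφ s
    exact h.1 ρ hρ1 hρ2 r hr J (fun j => (hmk (φ j) (hφ.norm j).summable : HS d))
      (Pool.Agent.Q218.AD.ortho φ hφ.norm hφ.orth) (fun j => -e j)
      (fun j x hx => heq J φ e hφ j x hx) s
  · intro ρ hρ1 hρ2 v hv J φ e hφ s hs
    have h1 := h.2 ρ hρ1 hρ2 v hv J (fun j => (hmk (φ j) (hφ.norm j).summable : HS d))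
      (Pool.Agent.Q218.AD.ortho φ hφ.norm hφ.orth) (fun j => -e j)
      (fun j x hx => heq J φ e hφ j x hx) s
      (fun j hj => by
        rw [abs_neg]
        exact hs j hj)
    refine le_trans (le_of_eq (Finset.sum_congr rfl fun j hj => ?_)) h1
    have h2 : micro v (e j) = Fr d v (- -e j) := by
      rw [neg_neg]
      exact micro_eq hd v (e j) (by linarith [hs j hj])
    rw [h2]
    rfl

/-- **Theorem.** Gaussian disorder, `d ≥ 3`. The microcanonical averages exist in the interior of the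
free spectrum, and for every weight `a`, `|a| ≤ 1`, and every small `σ` almost all eigenfunctions are
locally uniformly distributed in phase space (`Ergodic`): (i) for a given box of radius
`L ≥ |σ|^{-2.1}`, for all `ρ`, `r`, `v`, with probability at least `1 - exp(-|σ|^{2.06} |Λ|)`; (ii) with
probability at least `1 - exp(-|σ|^{-2.1})` for all boxes with `log(1 + |b|) ≤ |σ|^{2.1} |Λ|`;
(iii) almost surely for all large boxes with this property. -/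
theorem result (d : ℕ) (hd : 3 ≤ d) :
    (∀ (v : Fin d → ℤ) (E : ℝ), |E| < 2 * d →
      Tendsto (fun η => shell v E η / shell (0 : Fin d → ℤ) E η) (𝓝[>] 0) (𝓝 (micro v E))) ∧
    ∀ (R : ℕ) (κ ε : ℝ), 0 < κ → 0 < ε → ∃ σ₀ : ℝ, 0 < σ₀ ∧ ∀ σ : ℝ, 0 < |σ| → |σ| ≤ σ₀ →
      ∀ a : (Fin d → ℤ) → ℝ, (∀ x, |a x| ≤ 1) →
      (∀ (b : Fin d → ℤ) (L : ℕ), |σ| ^ (-(21 / 10) : ℝ) ≤ L →
        ∃ G : Set ((Fin d → ℤ) → ℝ), MeasurableSet G ∧
          1 - Real.exp (-(|σ| ^ (206 / 100 : ℝ) * (box b L).card)) ≤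
            (Measure.infinitePi fun _ : Fin d → ℤ => gaussianReal 0 1).real G ∧
          ∀ ξ ∈ G, Ergodic R κ σ ε ξ a b L) ∧
      (∃ G : Set ((Fin d → ℤ) → ℝ), MeasurableSet G ∧
        1 - Real.exp (-|σ| ^ (-(21 / 10) : ℝ)) ≤
          (Measure.infinitePi fun _ : Fin d → ℤ => gaussianReal 0 1).real G ∧
        ∀ ξ ∈ G, ∀ (b : Fin d → ℤ) (L : ℕ), |σ| ^ (-(21 / 10) : ℝ) ≤ L →
          Real.log (1 + ‖b‖) ≤ |σ| ^ (21 / 10 : ℝ) * (box b L).card →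
            Ergodic R κ σ ε ξ a b L) ∧
      (∀ᵐ ξ ∂(Measure.infinitePi fun _ : Fin d → ℤ => gaussianReal 0 1),
        ∃ L₀ : ℕ, ∀ (b : Fin d → ℤ) (L : ℕ), L₀ ≤ L →
          Real.log (1 + ‖b‖) ≤ |σ| ^ (21 / 10 : ℝ) * (box b L).card →
            Ergodic R κ σ ε ξ a b L) := by
  refine ⟨fun v E hE => ?_, ?_⟩
  · rw [micro_eq hd v E hE]
    exact lim_micro hd v E hE
  intro R κ ε hκ hε
  obtain ⟨l0, hl0, hg⟩ := gauP Pool.Agent.Q222.WE.t_AMPZ Pool.Agent.Q222.WE.t_ABEL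
    Pool.Agent.Q150.WE.t_LIPK Pool.Agent.Q222.WE.t_PLA Pool.Agent.Q222.WE.t_OPN
    (Pool.Agent.Q177.WE.EX.t_EXPK Pool.Agent.Q237.LE.t_MEAS Pool.Agent.Q222.WE.t_MUL)
    Pool.Agent.Q177.WE.DROP.t_DROP Pool.Agent.Q222.WE.t_CHI Pool.Agent.Q95.LE.t_GAU
    Pool.Agent.Q91.LE.t_SPL Pool.Agent.Q257.LE.t_NET Pool.Agent.Q176.LE.t_CUBE
    (Pool.Agent.Q246.LE.EX.t_EXP Pool.Agent.Q237.LE.t_MEAS Pool.Agent.Q246.LE.t_FOUR)
    d hd (D0 d) (D1 d)
    (freeE3 Pool.Agent.Q211.LE.t_SYM Pool.Agent.Q285.LE.t_THL d hd) R κ ε hκ hε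
  refine ⟨l0, hl0, fun σ hσ hσ0 a ha => ?_⟩
  obtain ⟨h1, h2, h3⟩ := hg |σ| hσ hσ0 a ha
  have hmn : Measurable fun (ξ : (Fin d → ℤ) → ℝ) x => -ξ x := by fun_prop
  have hP : ∀ G : Set ((Fin d → ℤ) → ℝ), MeasurableSet G → ∀ q : ℝ,
      (Measure.infinitePi fun _ : Fin d → ℤ => gaussianReal 0 1).real Gᶜ ≤ q →
      1 - q ≤ (Measure.infinitePi fun _ : Fin d → ℤ => gaussianReal 0 1).real G := by
    intro G hG q hq
    have := probReal_add_probReal_compl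
      (μ := Measure.infinitePi fun _ : Fin d → ℤ => gaussianReal 0 1) hG
    linarith
  rcases lt_or_gt_of_ne (abs_pos.1 hσ) with hneg | hpos
  · have hωξ : ∀ (ξ : (Fin d → ℤ) → ℝ) x, -(σ * ξ x) = |σ| * ξ x := fun ξ x => by
      rw [abs_of_neg hneg]
      ring
    refine ⟨fun b L hL => ?_, ?_, ?_⟩
    · obtain ⟨G, hG, hPG, hGd⟩ := h1 b L hL
      exact ⟨G, hG, hP G hG _ hPG, fun ξ hξ => ergodic_of_good hd hκ (hωξ ξ) (hGd ξ hξ)⟩
    · obtain ⟨G, hG, hPG, hGd⟩ := h2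
      exact ⟨G, hG, hP G hG _ hPG, fun ξ hξ b L hL hb =>
        ergodic_of_good hd hκ (hωξ ξ) (hGd ξ hξ b L hL hb)⟩
    · filter_upwards [h3] with ξ hξ
      obtain ⟨L0, hL0⟩ := hξ
      exact ⟨L0, fun b L hL hb => ergodic_of_good hd hκ (hωξ ξ) (hL0 b L hL hb)⟩
  · have hωξ : ∀ (ξ : (Fin d → ℤ) → ℝ) x, -(σ * ξ x) = |σ| * -ξ x := fun ξ x => by
      rw [abs_of_pos hpos]
      ring
    have hmap : ∀ G : Set ((Fin d → ℤ) → ℝ), MeasurableSet G →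
        (Measure.infinitePi fun _ : Fin d → ℤ => gaussianReal 0 1).real
          ((fun (ξ : (Fin d → ℤ) → ℝ) x => -ξ x) ⁻¹' G) =
        (Measure.infinitePi fun _ : Fin d → ℤ => gaussianReal 0 1).real G := by
      intro G hG
      rw [← map_measureReal_apply hmn hG, neg_law]
    refine ⟨fun b L hL => ?_, ?_, ?_⟩
    · obtain ⟨G, hG, hPG, hGd⟩ := h1 b L hL
      refine ⟨(fun ξ x => -ξ x) ⁻¹' G, hmn hG, ?_, fun ξ hξ =>
        ergodic_of_good hd hκ (hωξ ξ) (hGd _ hξ)⟩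
      rw [hmap G hG]
      exact hP G hG _ hPG
    · obtain ⟨G, hG, hPG, hGd⟩ := h2
      refine ⟨(fun ξ x => -ξ x) ⁻¹' G, hmn hG, ?_, fun ξ hξ b L hL hb =>
        ergodic_of_good hd hκ (hωξ ξ) (hGd _ hξ b L hL hb)⟩
      rw [hmap G hG]
      exact hP G hG _ hPG
    · have h4 : ∀ᵐ ω ∂((Measure.infinitePi fun _ : Fin d → ℤ => gaussianReal 0 1).map
          fun ξ x => -ξ x), ∃ L0 : ℕ, ∀ (b : Fin d → ℤ) (L : ℕ), L0 ≤ L →
          Real.log (1 + ‖b‖) ≤ |σ| ^ (21 / 10 : ℝ) * (bx b L).card →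
          Good d |σ| (206 / 100 / d) ε a ω b L ∧
            GoodP d R κ |σ| (206 / 100 / d) ε a ω b L := by
        rw [neg_law]
        exact h3
      filter_upwards [ae_of_ae_map hmn.aemeasurable h4] with ξ hξ
      obtain ⟨L0, hL0⟩ := hξ
      exact ⟨L0, fun b L hL hb => ergodic_of_good hd hκ (hωξ ξ) (hL0 b L hL hb)⟩

end Pool.Agent.Results.MP_1906c1_mp.PhaseSpaceErgodicity
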