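import Pool.Agent.Q169.RC.AtT
import Pool.Agent.Q169.RC.GrowB

/-!
# The last entry of the gamma-vector of flag homology spheres with coloured exceptional vertices

For flag homology spheres of dimension `d - 1` we prove `γ_⌊d/2⌋ ≥ 0` (Gal's conjecture for the last index; the
Charney-Davis conjecture if `d` is even) under a local colouring criterion, and lower bounds given by the joins which
occur as full subcomplexes.
-/

set_option autoImplicit false

namespace Pool.Agent.Results.MP_19e880_co.ColouredTop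

open Finset Pool.Agent.W907.SG Pool.Agent.W907.SM Pool.Agent.TH652.Above Pool.Agent.Q169.RC
open Pool.Agent.W497.FS (IsGamma)

/-- the flag complex of a graph: its simplices are the cliques -/
noncomputable def flagComplex {n : ℕ} (G : SimpleGraph (Fin n)) : Finset (Finset (Fin n)) := by
  classical exact univ.filter (fun T => G.IsClique (T : Set (Fin n)))

/-! ### homology spheres -/

/-- the chain `c`, with coefficients modulo `2`, is supported on the faces of `K` with `j`
vertices -/
def SupportedOn {N : ℕ} (K : Finset (Finset (Fin N))) (j : ℕ) (c : Finset (Fin N) → ZMod 2) :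
    Prop :=
  ∀ σ, c σ ≠ 0 → σ ∈ K ∧ σ.card = j

/-- the boundary of a chain (the augmentation is included: the empty face has dimension `-1`) -/
def boundary {N : ℕ} (c : Finset (Fin N) → ZMod 2) (ρ : Finset (Fin N)) : ZMod 2 :=
  ∑ v ∈ ρᶜ, c (insert v ρ)

/-- the reduced mod `2` homology of `K` vanishes in dimension `j - 1` -/
def AcyclicAt {N : ℕ} (K : Finset (Finset (Fin N))) (j : ℕ) : Prop :=
  ∀ c : Finset (Fin N) → ZMod 2, SupportedOn K j c → (∀ ρ, boundary c ρ = 0) →
    ∃ b, SupportedOn K (j + 1) b ∧ ∀ ρ, c ρ = boundary b ρ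

/-- the link of the face `σ` -/
def link {N : ℕ} (K : Finset (Finset (Fin N))) (σ : Finset (Fin N)) : Finset (Finset (Fin N)) :=
  univ.filter (fun τ => Disjoint τ σ ∧ τ ∪ σ ∈ K)

/-- mod `2` homology spheres of dimension `d - 1`: the complex `K` contains the empty face and is closed under
subsets, and the link of every face `σ` (also of the empty face) has the reduced mod `2` homology of a sphere of
dimension `d - 1 - |σ|` -/
def IsHomologySphere {N : ℕ} (K : Finset (Finset (Fin N))) (d : ℕ) : Prop :=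
  (∅ ∈ K ∧ ∀ σ ∈ K, ∀ τ : Finset (Fin N), τ ⊆ σ → τ ∈ K) ∧ (∀ σ ∈ K, σ.card ≤ d) ∧
    (∀ σ ∈ K, ∀ j, j + σ.card ≠ d → AcyclicAt (link K σ) j) ∧
    ∀ σ ∈ K, ∃ z : Finset (Fin N) → ZMod 2, z ≠ 0 ∧ SupportedOn (link K σ) (d - σ.card) z ∧
      (∀ ρ, boundary z ρ = 0) ∧
      ∀ z', SupportedOn (link K σ) (d - σ.card) z' → (∀ ρ, boundary z' ρ = 0) → z' = 0 ∨ z' = z

/-! ### the theorem -/

theorem mem_flag {n : ℕ} (G : SimpleGraph (Fin n)) (T : Finset (Fin n)) :
    T ∈ flagComplex G ↔ G.IsClique (T : Set (Fin n)) := by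
  classical
  unfold flagComplex
  simp

/-- `κ` is a colouring of the set `B` of vertices: adjacent vertices of `B` have different colours -/
def Colours {N k : ℕ} (G : SimpleGraph (Fin N)) (B : Set (Fin N)) (κ : Fin N → Fin k) : Prop :=
  ∀ u v, u ∈ B → v ∈ B → G.Adj u v → κ u ≠ κ v

/-- the full subcomplex on `A` is the join of the `m` complexes `A_j = A ∩ p⁻¹(j)`, none of which is a simplex -/
def IsJoin {N m : ℕ} (G : SimpleGraph (Fin N)) (A : Set (Fin N)) (p : Fin N → Fin m) : Prop :=
  (∀ u ∈ A, ∀ v ∈ A, p u ≠ p v → G.Adj u v) ∧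
  ∀ j, ∃ s ∈ A, ∃ t ∈ A, p s = j ∧ p t = j ∧ s ≠ t ∧ ¬ G.Adj s t

/-- the product of the numbers `-4 χ(A_j)`, `χ` the Euler characteristic of the right-angled Coxeter group of `A_j`;
`-4 χ = 2 k - 4` for a complex `A_j` consisting of `k` points -/
noncomputable def prodChi {N m : ℕ} (G : SimpleGraph (Fin N)) (A : Set (Fin N)) (p : Fin N → Fin m) : ℚ :=
  ∏ j : Fin m, (- 4 * chiS G (A ∩ {v | p v = j}))

theorem prodChi_eq {N m : ℕ} (G : SimpleGraph (Fin N)) (A : Set (Fin N)) (p : Fin N → Fin m) :
    prodChi G A p = 4 ^ m * ∏ j : Fin m, (- chiS G (A ∩ {v | p v = j})) := by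
  unfold prodChi
  have h : ∀ j : Fin m, (- 4 * chiS G (A ∩ {v | p v = j})) = 4 * (- chiS G (A ∩ {v | p v = j})) := fun j => by ring
  rw [prod_congr rfl (fun j _ => h j), prod_mul_distrib, prod_const, card_univ, Fintype.card_fin]

/-- Let the flag complex of `G` be a homology sphere of dimension `d - 1` over the reals (`HSph d G`) and modulo `2`,
with gamma-vector `γ`.
(1) If `d = 2 m` and there is a set `B` of vertices, coloured with `m + 1` colours, such that all simplices with a
vertex outside `B` are good, then `γ_m ≥ 0`.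
(2) If `d = 2 m` and all simplices are good, and the full subcomplex on `A` is the join of `m` complexes `A_j` which
are not simplices, then `γ_m ≥ ∏_j (-4 χ(A_j))`.
(3) If `d = 2 m + 1` and for each vertex `v` there is a set `B` of vertices, coloured with `m + 1` colours, such that all
simplices containing `v` and a neighbour of `v` outside `B` are good, then `γ_m ≥ 0`.
(4) If `d = 2 m + 1` and all nonempty simplices are good, and `C` is a set of vertices such that for each `v ∈ C` the
full subcomplex on `A_v`, a set of neighbours of `v`, is the join of `m` complexes `A_(v,j)` which are not simplices,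
then `γ_m ≥ (1/2) ∑_(v ∈ C) ∏_j (-4 χ(A_(v,j)))`. -/
theorem result (d m N : ℕ) (G : SimpleGraph (Fin N)) (hR : HSph d G) (h2 : IsHomologySphere (flagComplex G) d)
    (γ : ℕ → ℤ) (hγ : IsGamma d (flagComplex G) γ) :
    (d = 2 * m → ∀ (B : Set (Fin N)) (κ : Fin N → Fin (m + 1)), Colours G B κ →
      (∀ v, v ∉ B → ∀ T : Finset (Fin N), v ∈ T → G.IsClique (T : Set (Fin N)) → Good d G T) → 0 ≤ γ m) ∧
    (d = 2 * m → (∀ T : Finset (Fin N), G.IsClique (T : Set (Fin N)) → Good d G T) →
      ∀ (A : Set (Fin N)) (p : Fin N → Fin m), IsJoin G A p → prodChi G A p ≤ (γ m : ℚ)) ∧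
    (d = 2 * m + 1 → (∀ v : Fin N, ∃ (B : Set (Fin N)) (κ : Fin N → Fin (m + 1)), Colours G B κ ∧
      ∀ w, w ∉ B → G.Adj v w → ∀ T : Finset (Fin N), v ∈ T → w ∈ T → G.IsClique (T : Set (Fin N)) → Good d G T) →
      0 ≤ γ m) ∧
    (d = 2 * m + 1 → (∀ T : Finset (Fin N), T.Nonempty → G.IsClique (T : Set (Fin N)) → Good d G T) →
      ∀ (C : Finset (Fin N)) (A : Fin N → Set (Fin N)) (p : Fin N → Fin N → Fin m),
      (∀ v ∈ C, A v ⊆ G.neighborSet v ∧ IsJoin G (A v) (p v)) →
      (1 / 2) * ∑ v ∈ C, prodChi G (A v) (p v) ≤ (γ m : ℚ)) := by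
  classical
  have hH : Pool.Agent.Y131.KS.HSph (flagComplex G) d := ⟨h2.1, h2.2.1, h2.2.2.1, h2.2.2.2⟩
  have h0 : G.IsClique ((∅ : Finset (Fin N)) : Set (Fin N)) := by simp
  have hu : lk G (∅ : Finset (Fin N)) = Set.univ := by
    ext x
    simp only [Set.mem_univ, iff_true]
    exact fun t ht => absurd ht (notMem_empty t)
  have hle : ∀ S ∈ flagComplex G, S.card ≤ d := h2.2.1
  have h4 : (0 : ℚ) ≤ 4 ^ m := by positivity
  refine ⟨?_, ?_, ?_, ?_⟩
  · rintro rfl B κ hκ hB
    have h3 := sign_at G (flagComplex G) (mem_flag G) hH hR ∅ h0 (by rw [card_empty]; omega) B κ hκ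
      (fun v _ hv T' hT' hc => hB v hv T' (hT' (mem_insert_self _ _)) hc)
    rw [hu, chiS_univ] at h3
    have h5 := gamma_even G (flagComplex G) (mem_flag G) hle γ hγ
    have h6 : (0 : ℚ) ≤ γ m := by rw [h5]; exact mul_nonneg h4 h3
    exact_mod_cast h6
  · rintro rfl hg A p hA
    have h3 := join_at G (flagComplex G) (mem_flag G) hH hR ∅ h0 (by rw [card_empty]; omega)
      (fun T' _ hc => hg T' hc) A (by rw [hu]; exact Set.subset_univ _) p hA.1 hA.2
    rw [hu, chiS_univ] at h3
    rw [gamma_even G (flagComplex G) (mem_flag G) hle γ hγ, prodChi_eq]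
    exact mul_le_mul_of_nonneg_left h3 h4
  · rintro rfl hB
    have h5 := gamma_odd G (flagComplex G) (mem_flag G) hle (chi_odd G hR) γ hγ
    have h6 : (0 : ℚ) ≤ γ m := by
      rw [h5]
      refine mul_nonneg (by norm_num) (sum_nonneg fun v _ => mul_nonneg h4 ?_)
      obtain ⟨B, κ, hκ, h⟩ := hB v
      refine sign_at G (flagComplex G) (mem_flag G) hH hR {v} (by simp) (by rw [card_singleton]; omega) B κ hκ ?_
      intro w hw hwB T' hT' hc
      exact h w hwB (hw v (mem_singleton_self v)).symm T' (hT' (by simp)) (hT' (mem_insert_self _ _)) hc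
    exact_mod_cast h6
  · rintro rfl hg C A p hA
    have hg1 : ∀ v : Fin N, ∀ T' : Finset (Fin N), {v} ⊆ T' → G.IsClique (T' : Set (Fin N)) →
        Good (2 * m + 1) G T' := fun v T' hT' hc => hg T' ⟨v, hT' (mem_singleton_self v)⟩ hc
    rw [gamma_odd G (flagComplex G) (mem_flag G) hle (chi_odd G hR) γ hγ]
    refine mul_le_mul_of_nonneg_left ?_ (by norm_num)
    refine (sum_le_sum (fun v hv => ?_)).trans (sum_le_sum_of_subset_of_nonneg (subset_univ C)
      (fun v _ _ => mul_nonneg h4 ?_))
    · rw [prodChi_eq]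
      refine mul_le_mul_of_nonneg_left ?_ h4
      refine join_at G (flagComplex G) (mem_flag G) hH hR {v} (by simp) (by rw [card_singleton]; omega)
        (hg1 v) (A v) ?_ (p v) (hA v hv).2.1 (hA v hv).2.2
      rw [lk_one]
      exact (hA v hv).1
    · refine sign_at G (flagComplex G) (mem_flag G) hH hR {v} (by simp) (by rw [card_singleton]; omega) ∅
        (fun _ => 0) (fun u _ hu => absurd hu (Set.notMem_empty u)) ?_
      intro w _ _ T' hT' hc
      exact hg T' ⟨w, hT' (mem_insert_self _ _)⟩ hc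

end Pool.Agent.Results.MP_19e880_co.ColouredTop
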