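import Pool.Agent.Q5.WL.Val
import Pool.Agent.Q5.WL.Fib
import Pool.Agent.Q5.WL.Cyc

/-!
# The Tauberian generalized Nagao conjecture: from thin families of number fields to all

`𝒳 → 𝒴` is a fibration over a number field `K`, given over an open part of the base by equations, as in
`Pool.Agent.W353.FB.Defs`; the fibres over the other points of `𝒴` do not change the limit of the conjecture.
`B` is the abelian variety of the question, given as a projective variety, and `V` is the space
`(P_X(K̄(𝒴)) / τ B(K̄)) ⊗ ℚ` with the action `ρ` of the absolute Galois group of `K`; the theorem holds for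
every finite dimensional representation `V`.  For every finite extension `F` of `K` the rank of
`P_X(F(𝒴)) / τ B(F)` is the dimension of the space of the invariants of the absolute Galois group of `F`.
-/

set_option autoImplicit false

namespace Pool.Agent.Results.MP_1a0ddd_nt.WideFamilies

open NumberField IsDedekindDomain Filter Topology Polynomial
open Pool.Agent.W353.FB (Fibration nagaoValue)

/-- The dimension of the space of the vectors of `V` fixed by the absolute Galois group of `F`, that is,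
by all automorphisms of the algebraic closure of `K` that are trivial on the image of `F`. -/
noncomputable def rank {K : Type} [Field K] [NumberField K] {V : Type} [AddCommGroup V] [Module ℚ V]
    (ρ : Representation ℚ Gal(AlgebraicClosure K/K) V) (F : Type) [Field F] [NumberField F]
    [Algebra K F] : ℕ :=
  Module.finrank ℚ (Pool.Agent.Q5.VL.fixV ρ (IsAlgClosed.lift : F →ₐ[K] AlgebraicClosure K))

/-- The value `-𝔄*_v` of the fibration and of `B` at the prime `v` of `F`; it is `0` at the primes at which a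
trace of the definition does not exist.  By the theorem of Deligne these are finitely many primes. -/
noncomputable def nagaoAt {K : Type} [Field K] [NumberField K] (f : Fibration K) {n : ℕ}
    (B : Set (MvPolynomial (Fin n) (𝓞 K))) (g : ℕ) {F : Type} [Field F] [NumberField F] [Algebra K F]
    (v : HeightOneSpectrum (𝓞 F)) : ℝ :=
  Pool.Agent.Q5.WL.value (nagaoValue f B g) v

/-- `T⁻¹ ∑ b_v log q_v`, the sum over the primes `v` of `F` outside `R` with `q_v ≤ T`. -/
noncomputable def average {F : Type} [Field F] [NumberField F]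
    (R : Finset (HeightOneSpectrum (𝓞 F))) (b : HeightOneSpectrum (𝓞 F) → ℝ) (T : ℝ) : ℝ :=
  T⁻¹ * ∑ᶠ (v : HeightOneSpectrum (𝓞 F)) (_ : v ∉ R ∧ (Ideal.absNorm v.asIdeal : ℝ) ≤ T),
    b v * Real.log (Ideal.absNorm v.asIdeal)

/-- The Tauberian generalized Nagao conjecture over `F`: for every finite set `R` of primes of `F`,
`-T⁻¹ ∑_{v ∉ R, q_v ≤ T} 𝔄*_v log q_v` tends to the rank of `P_X(F(𝒴)) / τ B(F)`. -/
def Nagao {K : Type} [Field K] [NumberField K] (f : Fibration K) {n : ℕ}
    (B : Set (MvPolynomial (Fin n) (𝓞 K))) (g : ℕ) {V : Type} [AddCommGroup V] [Module ℚ V]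
    (ρ : Representation ℚ Gal(AlgebraicClosure K/K) V) (F : Type) [Field F] [NumberField F]
    [Algebra K F] : Prop :=
  ∀ R : Finset (HeightOneSpectrum (𝓞 F)),
    Tendsto (average R (nagaoAt f B g)) atTop (𝓝 (rank ρ F : ℝ))

/-- A family of finite extensions of `K` inside the algebraic closure is wide if it is closed under
passing to larger finite extensions, and every automorphism of the algebraic closure over `K` fixes all
elements of some member of the family. -/
def Wide (K : Type) [Field K] (𝓕 : Set (IntermediateField K (AlgebraicClosure K))) : Prop :=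
  (∀ F ∈ 𝓕, FiniteDimensional K F) ∧
  (∀ F ∈ 𝓕, ∀ F' : IntermediateField K (AlgebraicClosure K), FiniteDimensional K F' → F ≤ F' →
    F' ∈ 𝓕) ∧
  ∀ σ : AlgebraicClosure K ≃ₐ[K] AlgebraicClosure K, ∃ F ∈ 𝓕, ∀ x ∈ F, σ x = x

/-- `F` is generated over `K` by finitely many `p`-th roots of positive integers all of whose prime
factors belong to `T`, and `p ^ k` divides the degree of `F/K`. -/
def TestField (T : Set ℕ) (p k : ℕ) (K F : Type) [Field K] [Field F] [Algebra K F] : Prop :=
  (∃ S : Set F, S.Finite ∧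
    (∀ x ∈ S, ∃ c : ℕ, c ≠ 0 ∧ (∀ l : ℕ, l.Prime → l ∣ c → l ∈ T) ∧ x ^ p = (c : F)) ∧
    IntermediateField.adjoin K S = ⊤) ∧
  p ^ k ∣ Module.finrank K F

/-- The law for the cyclic subgroups of the Galois group of a finite Galois extension `L/K`. -/
def CyclicLaw : Prop :=
  ∀ (K : Type) [Field K] [NumberField K] (f : Fibration K) (n : ℕ)
    (B : Set (MvPolynomial (Fin n) (𝓞 K))) (g : ℕ) (V : Type) [AddCommGroup V] [Module ℚ V]
    [FiniteDimensional ℚ V] (ρ : Representation ℚ Gal(AlgebraicClosure K/K) V),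
    ∀ L : IntermediateField K (AlgebraicClosure K), FiniteDimensional K L → Normal K L →
      (∀ (τ : L ≃ₐ[K] L) [NumberField (IntermediateField.fixedField (Subgroup.zpowers τ))],
        Nagao f B g ρ (IntermediateField.fixedField (Subgroup.zpowers τ))) →
      Nagao f B g ρ K

/-- The law for wide families. -/
def WideLaw : Prop :=
  ∀ (K : Type) [Field K] [NumberField K] (f : Fibration K) (n : ℕ)
    (B : Set (MvPolynomial (Fin n) (𝓞 K))) (g : ℕ) (V : Type) [AddCommGroup V] [Module ℚ V]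
    [FiniteDimensional ℚ V] (ρ : Representation ℚ Gal(AlgebraicClosure K/K) V),
    ∀ 𝓕 : Set (IntermediateField K (AlgebraicClosure K)), Wide K 𝓕 →
      (∀ F ∈ 𝓕, ∀ [NumberField F], Nagao f B g ρ F) → Nagao f B g ρ K

/-- The law for the test fields of `p`, `k` and `T`. -/
def TestLaw : Prop :=
  ∀ (K : Type) [Field K] [NumberField K] (f : Fibration K) (n : ℕ)
    (B : Set (MvPolynomial (Fin n) (𝓞 K))) (g : ℕ) (V : Type) [AddCommGroup V] [Module ℚ V]
    [FiniteDimensional ℚ V] (ρ : Representation ℚ Gal(AlgebraicClosure K/K) V),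
    ∀ (p k : ℕ) (T : Set ℕ), p.Prime → (∀ l ∈ T, l.Prime) → T.Infinite →
      (∀ (F : Type) [Field F] [NumberField F] [Algebra K F], TestField T p k K F →
        Nagao f B g ρ F) → Nagao f B g ρ K

/-- The law for the degrees. -/
def DegreeLaw : Prop :=
  ∀ (K : Type) [Field K] [NumberField K] (f : Fibration K) (n : ℕ)
    (B : Set (MvPolynomial (Fin n) (𝓞 K))) (g : ℕ) (V : Type) [AddCommGroup V] [Module ℚ V]
    [FiniteDimensional ℚ V] (ρ : Representation ℚ Gal(AlgebraicClosure K/K) V),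
    ∀ M : ℕ, 0 < M →
      (∀ (F : Type) [Field F] [NumberField F] [Algebra K F], M ∣ Module.finrank K F →
        Nagao f B g ρ F) →
      ∀ (F : Type) [Field F] [NumberField F] [Algebra K F], Nagao f B g ρ F

/-- Wide families. -/
def WideExamples : Prop :=
  ∀ (K : Type) [Field K] [NumberField K],
    (∀ 𝓕 𝓖 : Set (IntermediateField K (AlgebraicClosure K)), Wide K 𝓕 → Wide K 𝓖 →
      Wide K (𝓕 ∩ 𝓖)) ∧
    ∀ M : ℕ, 0 < M → Wide K {F | FiniteDimensional K F ∧ M ∣ Module.finrank K F}

section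
variable {K : Type} [Field K] [NumberField K] {f : Fibration K} {n : ℕ}
  {B : Set (MvPolynomial (Fin n) (𝓞 K))} {g : ℕ} {V : Type} [AddCommGroup V] [Module ℚ V]
  {ρ : Representation ℚ Gal(AlgebraicClosure K/K) V} {F : Type} [Field F] [NumberField F]
  [Algebra K F]

theorem average_eq (R : Finset (HeightOneSpectrum (𝓞 F))) (b : HeightOneSpectrum (𝓞 F) → ℝ)
    (T : ℝ) : ((average R b T : ℝ) : ℂ) = (T : ℂ)⁻¹ * ∑' v, Pool.Agent.Q5.WL.tm
      (Pool.Agent.Q5.WL.cut R fun v => (b v : ℂ)) (Pool.Agent.Q5.WL.wt 0 T) v := by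
  classical
  have h1 : ∀ v : HeightOneSpectrum (𝓞 F),
      (((∑ᶠ (_ : v ∉ R ∧ (Ideal.absNorm v.asIdeal : ℝ) ≤ T),
        b v * Real.log (Ideal.absNorm v.asIdeal) : ℝ)) : ℂ) =
      Pool.Agent.Q5.WL.tm (Pool.Agent.Q5.WL.cut R fun v => (b v : ℂ))
        (Pool.Agent.Q5.WL.wt 0 T) v := by
    intro v
    unfold Pool.Agent.Q5.WL.tm Pool.Agent.Q5.WL.cut Pool.Agent.Q5.WL.wt
    rw [finsum_eq_if]
    by_cases hv : v ∈ R
    · rw [if_neg (fun h => h.1 hv), if_pos hv, zero_mul, Complex.ofReal_zero]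
    · by_cases hT : (Ideal.absNorm v.asIdeal : ℝ) ≤ T
      · rw [if_pos ⟨hv, hT⟩, if_neg hv, if_pos hT, pow_zero, div_one]
        push_cast
        rfl
      · rw [if_neg (fun h => hT h.2), if_neg hv, if_neg hT, mul_zero, Complex.ofReal_zero]
  have hz : ∀ v : HeightOneSpectrum (𝓞 F), ¬ ((Ideal.absNorm v.asIdeal : ℝ) ≤ T) →
      Pool.Agent.Q5.WL.tm (Pool.Agent.Q5.WL.cut R fun v => (b v : ℂ))
        (Pool.Agent.Q5.WL.wt 0 T) v = 0 := by
    intro v hv
    unfold Pool.Agent.Q5.WL.tm Pool.Agent.Q5.WL.wt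
    rw [if_neg hv, mul_zero]
  have h2 : (Function.support (fun v : HeightOneSpectrum (𝓞 F) =>
      (∑ᶠ (_ : v ∉ R ∧ (Ideal.absNorm v.asIdeal : ℝ) ≤ T),
        b v * Real.log (Ideal.absNorm v.asIdeal) : ℝ))).Finite := by
    refine (Pool.Agent.Q5.WL.finite_norm_le F T).subset fun v hv => ?_
    by_contra hv'
    apply hv
    have h3 := h1 v
    rw [hz v hv'] at h3
    exact_mod_cast h3
  have h3 : (Function.support (Pool.Agent.Q5.WL.tm (Pool.Agent.Q5.WL.cut R fun v => (b v : ℂ))
      (Pool.Agent.Q5.WL.wt 0 T))).Finite := by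
    refine (Pool.Agent.Q5.WL.finite_norm_le F T).subset fun v hv => ?_
    by_contra hv'
    exact hv (hz v hv')
  unfold average
  rw [Complex.ofReal_mul, Complex.ofReal_inv, tsum_eq_finsum h3]
  congr 1
  have h4 := map_finsum Complex.ofRealHom h2
  refine h4.trans (finsum_congr fun v => ?_)
  exact h1 v

theorem nagao_iff : Nagao f B g ρ F ↔ ∀ R : Finset (HeightOneSpectrum (𝓞 F)),
      Tendsto (fun T : ℝ => (T : ℂ)⁻¹ * ∑' v, Pool.Agent.Q5.WL.tm
        (Pool.Agent.Q5.WL.cut R fun v => (Pool.Agent.Q5.WL.value (nagaoValue f B g) v : ℂ))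
          (Pool.Agent.Q5.WL.wt 0 T) v) atTop
        (𝓝 (Pool.Agent.Q5.VL.rk ρ F : ℂ)) := by
  have key : ∀ (R : Finset (HeightOneSpectrum (𝓞 F))) (b : HeightOneSpectrum (𝓞 F) → ℝ),
      Tendsto (average R b) atTop (𝓝 (rank ρ F : ℝ)) ↔
      Tendsto (fun T : ℝ => (T : ℂ)⁻¹ * ∑' v, Pool.Agent.Q5.WL.tm
        (Pool.Agent.Q5.WL.cut R fun v => (b v : ℂ)) (Pool.Agent.Q5.WL.wt 0 T) v) atTop
        (𝓝 (Pool.Agent.Q5.VL.rk ρ F : ℂ)) := by
    intro R b
    rw [← Filter.tendsto_ofReal_iff]
    have h1 : (fun T : ℝ => (T : ℂ)⁻¹ * ∑' v, Pool.Agent.Q5.WL.tm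
        (Pool.Agent.Q5.WL.cut R fun v => (b v : ℂ)) (Pool.Agent.Q5.WL.wt 0 T) v) =
        fun T => ((average R b T : ℝ) : ℂ) := funext fun T => (average_eq R b T).symm
    rw [h1]
    have h2 : (((rank ρ F : ℕ) : ℝ) : ℂ) = (Pool.Agent.Q5.VL.rk ρ F : ℂ) := by
      rw [Complex.ofReal_natCast]
      rfl
    rw [← h2]
  unfold Nagao
  exact forall_congr' fun R => key R _

/-- the property of the fields -/
def QT (f : Fibration K) (B : Set (MvPolynomial (Fin n) (𝓞 K))) (g : ℕ)
    (ρ : Representation ℚ Gal(AlgebraicClosure K/K) V) (F : Type) [Field F] [NumberField F]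
    [Algebra K F] (t : ℤ) : Prop :=
  t ≠ 0 → ∀ R : Finset (HeightOneSpectrum (𝓞 F)),
      Tendsto (fun T : ℝ => (T : ℂ)⁻¹ * ∑' v, Pool.Agent.Q5.WL.tm
        (Pool.Agent.Q5.WL.cut R fun v => (Pool.Agent.Q5.WL.value (nagaoValue f B g) v : ℂ))
          (Pool.Agent.Q5.WL.wt 0 T) v) atTop
        (𝓝 (Pool.Agent.Q5.VL.rk ρ F : ℂ))

theorem isLaw_QT [FiniteDimensional ℚ V] : Pool.Agent.Q5.VL.IsLaw (QT f B g ρ) :=
  Pool.Agent.Q5.WL.law_value_taub (Pool.Agent.Q5.WL.inv_nagao f B g) 0 (fun _ _ => inferInstance)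

end

/-- **The Tauberian generalized Nagao conjecture can be tested on thin families of number fields.**  Let
`K` be a number field, `f` a fibration over `K`, `B` the abelian variety of the question, and
`V = (P_X(K̄(𝒴)) / τ B(K̄)) ⊗ ℚ`, or any finite dimensional rational representation of the absolute Galois
group of `K`.  The conjecture `Nagao` over `F` says that `-T⁻¹ ∑_{q_v ≤ T} 𝔄*_v log q_v` tends to the rank of
`P_X(F(𝒴)) / τ B(F)`.
1. Let `L/K` be a finite Galois extension.  If `Nagao` holds for the fields `E` between `K` and `L` with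
`L/E` cyclic, it holds for `K`.
2. Let `𝓕` be a wide family of finite extensions of `K`.  If `Nagao` holds for all `F` in `𝓕`, it holds
for `K`.
3. The intersection of two wide families is wide, and the extensions of degree divisible by `M` form a wide
family.
4. Let `p` be a prime, `k` a number and `T` an infinite set of primes.  If `Nagao` holds for all `F/K` of
degree divisible by `p^k` generated by finitely many `p`-th roots of positive integers all of whose prime
factors belong to `T`, it holds for `K`.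
5. Let `M > 0`.  If `Nagao` holds for all finite extensions `F/K` with `M ∣ [F:K]`, it holds for all
finite extensions of `K`. -/
theorem result : CyclicLaw ∧ WideLaw ∧ WideExamples ∧ TestLaw ∧ DegreeLaw := by
  refine ⟨?_, ?_, fun K _ _ => ⟨fun 𝓕 𝓖 h1 h2 => Pool.Agent.Q5.HR.Wide.inter h1 h2, fun M hM =>
    Pool.Agent.Q5.HR.wide_deg hM⟩, ?_, ?_⟩
  · intro K _ _ f n B g V _ _ _ ρ L hfd hnor h
    rw [nagao_iff]
    refine Pool.Agent.Q5.WL.cyclic_law L (isLaw_QT (f := f) (B := B) (g := g) (ρ := ρ)) 1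
      (fun τ _ _ => nagao_iff.1 (h τ)) ?_
    rw [mul_one]
    exact_mod_cast (Nat.card_pos (α := L ≃ₐ[K] L)).ne'
  · intro K _ _ f n B g V _ _ _ ρ 𝓕 hF h
    obtain ⟨t, ht, hw⟩ := Pool.Agent.Q5.VL.wide_law (K := K) hF
    rw [nagao_iff]
    refine hw _ (isLaw_QT (f := f) (B := B) (g := g) (ρ := ρ)) 1
      (fun F hF' _ _ => nagao_iff.1 (h F hF')) ?_
    rw [mul_one]
    exact_mod_cast ht.ne'
  · intro K _ _ f n B g V _ _ _ ρ p k T hp hT hinf h
    have hpf : Fact p.Prime := ⟨hp⟩
    rw [nagao_iff]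
    refine Pool.Agent.Q5.VL.gen_radical_law' (isLaw_QT (f := f) (B := B) (g := g) (ρ := ρ)) p hT hinf k
      (fun F _ _ _ hr hd _ => nagao_iff.1 (h F ⟨hr, hd⟩)) ?_
    exact_mod_cast pow_ne_zero k hp.ne_zero
  · intro K _ _ f n B g V _ _ _ ρ M hM h F _ _ _
    rw [nagao_iff]
    refine Pool.Agent.Q5.VL.gen_power_law' (isLaw_QT (f := f) (B := B) (g := g) (ρ := ρ)) (M := M)
      (fun F _ _ _ hF _ => nagao_iff.1 (h F hF)) F ?_
    exact_mod_cast (Nat.div_pos (Nat.le_of_dvd hM (Nat.gcd_dvd_left _ _))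
      (Nat.gcd_pos_of_pos_left _ hM)).ne'

end Pool.Agent.Results.MP_1a0ddd_nt.WideFamilies
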