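import Mathlib

/-!
A countably infinite FC group which is DTC(1): the direct sum of the dihedral groups of order
`2 (2 n + 3)`. There is a single ultrafilter `v` such that `u □ v ≠ u ⋄ v` for every non-principal
ultrafilter `u`.
-/

namespace Pool.Agent.Results.MP_1a7a11_al.SingleUltrafilter

open DihedralGroup

/-- `u □ v = {A | {x | x⁻¹ A ∈ v} ∈ u}`. -/
def box {G : Type} [Group G] (u v : Ultrafilter G) : Set (Set G) :=
  {A | {x : G | (fun a => x⁻¹ * a) '' A ∈ v} ∈ u}

/-- `u ⋄ v = {A | {x | A x⁻¹ ∈ u} ∈ v}`. -/
def diamond {G : Type} [Group G] (u v : Ultrafilter G) : Set (Set G) :=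
  {A | {x : G | (fun a => a * x⁻¹) '' A ∈ u} ∈ v}

/-- The ultrafilters in `βG ∖ G`. -/
def NonPrincipal {G : Type} (u : Ultrafilter G) : Prop := ∀ x : G, u ≠ pure x

/-- `D` is a DTC set. -/
def IsDTCSet {G : Type} [Group G] (D : Set (Ultrafilter G)) : Prop :=
  ∀ u : Ultrafilter G, NonPrincipal u → ∃ v ∈ D, box u v ≠ diamond u v

/-! ### The group -/

/-- half the order of the `n`-th dihedral group -/
abbrev m (n : ℕ) : ℕ := 2 * n + 3

instance (n : ℕ) : NeZero (m n) := ⟨by unfold m; omega⟩

/-- sequences -/
abbrev Seq : Type := ∀ n : ℕ, DihedralGroup (m n)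

/-- The direct sum of the dihedral groups of order `2 (2 n + 3)`, `n = 0, 1, 2, …`. -/
def DSum : Subgroup Seq where
  carrier := {f | {n | f n ≠ 1}.Finite}
  mul_mem' := by
    intro a b ha hb
    refine (ha.union hb).subset fun n hn => ?_
    by_contra h
    simp only [Set.mem_union, Set.mem_ofPred_eq, not_or, not_not] at h
    apply hn
    show a n * b n = 1
    rw [h.1, h.2, one_mul]
  one_mem' := by
    refine Set.finite_empty.subset fun n hn => ?_
    exact (hn rfl).elim
  inv_mem' := by
    intro a ha
    refine Set.Finite.subset ha fun n hn h => hn ?_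
    show (a n)⁻¹ = 1
    rw [h, inv_one]

/-- reflections -/
def IsRefl {n : ℕ} : DihedralGroup n → Prop
  | r _ => False
  | sr _ => True

/-- positions of reflections -/
def Ref (x : Seq) : Set ℕ := {n | IsRefl (x n)}

/-- number of reflections at positions `≥ n` -/
noncomputable def idx (x : Seq) (n : ℕ) : ℕ := {k | k ∈ Ref x ∧ n ≤ k}.ncard

/-- low reflection positions -/
def low (x : Seq) : Set ℕ := {n | n ∈ Ref x ∧ m n ≤ idx x n}

/-- tight -/
def Tight (x : Seq) : Prop := ∃ n ∈ Ref x, m n = idx x n

/-- canonical reflection positions -/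
def canon (x : Seq) : Set ℕ := {n | n ∈ Ref x ∧ x n = sr ((idx x n : ZMod (m n)) - 1)}

/-- non-canonical rotation positions -/
def badr (x : Seq) : Set ℕ := {n | n ∉ Ref x ∧ x n ≠ r (idx x n : ZMod (m n))}

/-- the colouring -/
noncomputable def color (x : Seq) : ZMod 4 × ZMod 2 × Prop × ZMod 2 × ZMod 2 :=
  (((Ref x).ncard : ZMod 4), ((low x).ncard : ZMod 2), Tight x, ((canon x).ncard : ZMod 2),
    ((badr x).ncard : ZMod 2))

/-- the changed sequence -/
def chg (x : Seq) (b k : ℕ) : Seq := fun n =>
  if n < b then x n else if n = b then x n * sr (-1) else if n < k then x n * r 1 else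
    if n = k then sr 0 else 1

section Change

variable {x : Seq} {b k : ℕ}

theorem chg_lt {n : ℕ} (h : n < b) : chg x b k n = x n := if_pos h

theorem chg_b : chg x b k b = x b * sr (-1) := by
  unfold chg
  rw [if_neg (lt_irrefl b), if_pos rfl]

theorem chg_mid {n : ℕ} (h : b < n) (h' : n < k) : chg x b k n = x n * r 1 := by
  unfold chg
  rw [if_neg (by omega), if_neg (by omega), if_pos h']

theorem chg_k (h : b < k) : chg x b k k = sr 0 := by
  unfold chg
  rw [if_neg (by omega), if_neg (by omega), if_neg (by omega), if_pos rfl]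

theorem chg_gt {n : ℕ} (h : b < k) (h' : k < n) : chg x b k n = 1 := by
  unfold chg
  rw [if_neg (by omega), if_neg (by omega), if_neg (by omega), if_neg (by omega)]

theorem isRefl_one {n : ℕ} : ¬ IsRefl (1 : DihedralGroup n) := fun h => h

theorem isRefl_mul_r {n : ℕ} (a : DihedralGroup n) (i : ZMod n) :
    IsRefl (a * r i) ↔ IsRefl a := by
  cases a with
  | r j => rw [r_mul_r]; exact Iff.rfl
  | sr j => rw [sr_mul_r]; exact Iff.rfl

theorem isRefl_mul_sr {n : ℕ} (a : DihedralGroup n) (i : ZMod n) :
    IsRefl (a * sr i) ↔ ¬ IsRefl a := by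
  cases a with
  | r j => rw [r_mul_sr]; exact ⟨fun _ h => h, fun _ => trivial⟩
  | sr j => rw [sr_mul_sr]; exact ⟨fun h => h.elim, fun h => h trivial⟩

theorem ref_finite (hx : ∀ n, k ≤ n → x n = 1) : (Ref x).Finite := by
  refine (Set.finite_Iio k).subset fun n hn => ?_
  by_contra h
  rw [Set.mem_Iio, not_lt] at h
  have h1 : IsRefl (x n) := hn
  rw [hx n h] at h1
  exact h1

theorem k_notMem (hx : ∀ n, k ≤ n → x n = 1) {n : ℕ} (h : k ≤ n) : n ∉ Ref x := by
  intro hn
  have h1 : IsRefl (x n) := hn
  rw [hx n h] at h1
  exact h1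

theorem mem_ref_chg (hx : ∀ n, k ≤ n → x n = 1) (hb : b < k) {n : ℕ} (hn : n ≠ b) :
    n ∈ Ref (chg x b k) ↔ n = k ∨ n ∈ Ref x := by
  show IsRefl (chg x b k n) ↔ n = k ∨ IsRefl (x n)
  rcases lt_trichotomy n b with h | h | h
  · rw [chg_lt h]
    constructor
    · exact Or.inr
    · rintro (h1 | h1)
      · omega
      · exact h1
  · exact (hn h).elim
  · rcases lt_trichotomy n k with h1 | h1 | h1
    · rw [chg_mid h h1, isRefl_mul_r]
      constructor
      · exact Or.inr
      · rintro (h2 | h2)
        · omega
        · exact h2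
    · subst h1
      rw [chg_k hb]
      exact ⟨fun _ => Or.inl rfl, fun _ => trivial⟩
    · rw [chg_gt hb h1]
      constructor
      · exact fun h => h.elim
      · rintro (h2 | h2)
        · omega
        · exact (k_notMem hx h1.le h2).elim

theorem b_mem_ref_chg : b ∈ Ref (chg x b k) ↔ b ∉ Ref x := by
  show IsRefl (chg x b k b) ↔ ¬ IsRefl (x b)
  rw [chg_b, isRefl_mul_sr]

theorem idx_lt (hx : ∀ n, k ≤ n → x n = 1) (hb : b < k) (hbr : b ∈ Ref x) {n : ℕ} (hn : n ≤ b) :
    idx (chg x b k) n = idx x n := by
  have hfin := ref_finite hx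
  have h1 : {j | j ∈ Ref (chg x b k) ∧ n ≤ j} = insert k ({j | j ∈ Ref x ∧ n ≤ j} \ {b}) := by
    ext j
    simp only [Set.mem_ofPred_eq, Set.mem_insert_iff, Set.mem_sdiff, Set.mem_singleton_iff]
    by_cases hj : j = b
    · subst hj
      rw [b_mem_ref_chg]
      constructor
      · exact fun h => (h.1 hbr).elim
      · rintro (h | h)
        · omega
        · exact (h.2 rfl).elim
    · rw [mem_ref_chg hx hb hj]
      constructor
      · rintro ⟨h | h, h'⟩
        · exact Or.inl h
        · exact Or.inr ⟨⟨h, h'⟩, hj⟩
      · rintro (h | h)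
        · exact ⟨Or.inl h, by omega⟩
        · exact ⟨Or.inr h.1.1, h.1.2⟩
  have hfin2 : {j | j ∈ Ref x ∧ n ≤ j}.Finite := hfin.subset fun j hj => hj.1
  unfold idx
  rw [h1, Set.ncard_insert_of_notMem (fun h => k_notMem hx le_rfl h.1.1) (hfin2.sdiff),
    Set.ncard_sdiff_singleton_add_one (show b ∈ {j | j ∈ Ref x ∧ n ≤ j} from ⟨hbr, hn⟩) hfin2]

theorem idx_mid (hx : ∀ n, k ≤ n → x n = 1) (hb : b < k) {n : ℕ} (hn : b < n)
    (hn' : n ≤ k) : idx (chg x b k) n = idx x n + 1 := by
  have hfin := ref_finite hx
  have h1 : {j | j ∈ Ref (chg x b k) ∧ n ≤ j} = insert k {j | j ∈ Ref x ∧ n ≤ j} := by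
    ext j
    simp only [Set.mem_ofPred_eq, Set.mem_insert_iff]
    by_cases hj : j = b
    · subst hj
      constructor
      · rintro ⟨_, h⟩; omega
      · rintro (h | h)
        · omega
        · have := h.2; omega
    · rw [mem_ref_chg hx hb hj]
      constructor
      · rintro ⟨h | h, h'⟩
        · exact Or.inl h
        · exact Or.inr ⟨h, h'⟩
      · rintro (h | h)
        · exact ⟨Or.inl h, by omega⟩
        · exact ⟨Or.inr h.1, h.2⟩
  have hfin2 : {j | j ∈ Ref x ∧ n ≤ j}.Finite := hfin.subset fun j hj => hj.1
  unfold idx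
  rw [h1, Set.ncard_insert_of_notMem (fun h => k_notMem hx le_rfl h.1) hfin2]

theorem idx_ge (hx : ∀ n, k ≤ n → x n = 1) {n : ℕ} (hn : k ≤ n) : idx x n = 0 := by
  have h1 : {j | j ∈ Ref x ∧ n ≤ j} = ∅ := by
    ext j
    simp only [Set.mem_ofPred_eq, Set.mem_empty_iff_false, iff_false]
    rintro ⟨h, h'⟩
    exact k_notMem hx (hn.trans h') h
  unfold idx
  rw [h1, Set.ncard_empty]

theorem idx_strict (hfin : (Ref x).Finite) {n n' : ℕ} (h : n < n') (hn : n ∈ Ref x) :
    idx x n' + 1 ≤ idx x n := by
  have hfin2 : {j | j ∈ Ref x ∧ n ≤ j}.Finite := hfin.subset fun j hj => hj.1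
  have hfin3 : {j | j ∈ Ref x ∧ n' ≤ j}.Finite := hfin.subset fun j hj => hj.1
  have h1 : insert n {j | j ∈ Ref x ∧ n' ≤ j} ⊆ {j | j ∈ Ref x ∧ n ≤ j} := by
    rintro j (hj | hj)
    · exact ⟨hj ▸ hn, hj ▸ le_rfl⟩
    · exact ⟨hj.1, h.le.trans hj.2⟩
  have h2 := Set.ncard_le_ncard h1 hfin2
  rw [Set.ncard_insert_of_notMem (fun hh => absurd hh.2 (by omega)) hfin3] at h2
  exact h2

theorem idx_pos (hfin : (Ref x).Finite) {n : ℕ} (hn : n ∈ Ref x) : 1 ≤ idx x n := by
  have := idx_strict hfin (Nat.lt_succ_self n) hn
  omega

theorem zmod2_ne (n : ℕ) : ((n + 1 : ℕ) : ZMod 2) ≠ (n : ZMod 2) := by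
  push_cast
  intro h
  rw [add_eq_left] at h
  exact absurd h (by decide)

/-- the colouring property -/
theorem color_ne (hx : ∀ n, k ≤ n → x n = 1) (hb : b < k) :
    color (chg x b k) ≠ color x := by
  have hfin := ref_finite hx
  intro hc
  unfold color at hc
  simp only [Prod.mk.injEq] at hc
  obtain ⟨hc1, hc2, hc3, hc4, hc5⟩ := hc
  by_cases hbr : b ∈ Ref x
  swap
  · -- case A
    have h1 : Ref (chg x b k) = insert k (insert b (Ref x)) := by
      ext j
      simp only [Set.mem_insert_iff]
      by_cases hj : j = b
      · subst hj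
        rw [b_mem_ref_chg]
        exact ⟨fun _ => Or.inr (Or.inl rfl), fun _ => hbr⟩
      · rw [mem_ref_chg hx hb hj]
        constructor
        · rintro (h | h)
          · exact Or.inl h
          · exact Or.inr (Or.inr h)
        · rintro (h | h | h)
          · exact Or.inl h
          · exact (hj h).elim
          · exact Or.inr h
    have h2 : k ∉ insert b (Ref x) := by
      rintro (h | h)
      · omega
      · exact k_notMem hx le_rfl h
    rw [h1, Set.ncard_insert_of_notMem h2 (hfin.insert b),
      Set.ncard_insert_of_notMem hbr hfin] at hc1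
    push_cast at hc1
    rw [add_assoc, add_eq_left] at hc1
    exact absurd hc1 (by decide)
  by_cases hlow : m b ≤ idx x b
  · -- case B1
    by_cases ht : Tight (chg x b k)
    · obtain ⟨n', hn', ht'⟩ := hc3.mp ht
      obtain ⟨n, hn, ht2⟩ := ht
      have hnb : n ≠ b := by
        rintro rfl
        exact b_mem_ref_chg.1 hn hbr
      rcases (mem_ref_chg hx hb hnb).1 hn with h | h
      · subst h
        rw [idx_mid hx hb hb le_rfl, idx_ge hx le_rfl] at ht2
        unfold m at ht2
        omega
      · have hnk : n < k := by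
          by_contra h'
          exact k_notMem hx (not_lt.1 h') h
        rcases lt_or_gt_of_ne hnb with h1 | h1
        · rw [idx_lt hx hb hbr h1.le] at ht2
          have := idx_strict hfin h1 h
          unfold m at *
          omega
        · rw [idx_mid hx hb h1 hnk.le] at ht2
          rcases lt_trichotomy n' n with h2 | h2 | h2
          · have := idx_strict hfin h2 hn'
            unfold m at *
            omega
          · subst h2
            omega
          · have := idx_strict hfin h2 h
            unfold m at *
            omega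
    · have h1 : low x = insert b (low (chg x b k)) := by
        ext n
        simp only [Set.mem_insert_iff]
        by_cases hnb : n = b
        · subst hnb
          exact ⟨fun _ => Or.inl rfl, fun _ => ⟨hbr, hlow⟩⟩
        · simp only [low, Set.mem_ofPred_eq, hnb, false_or]
          rw [mem_ref_chg hx hb hnb]
          constructor
          · rintro ⟨h, h'⟩
            refine ⟨Or.inr h, ?_⟩
            have hnk : n < k := by
              by_contra h'
              exact k_notMem hx (not_lt.1 h') h
            rcases lt_or_gt_of_ne hnb with h1 | h1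
            · rw [idx_lt hx hb hbr h1.le]; exact h'
            · rw [idx_mid hx hb h1 hnk.le]; omega
          · rintro ⟨h | h, h'⟩
            · subst h
              rw [idx_mid hx hb hb le_rfl, idx_ge hx le_rfl] at h'
              unfold m at h'
              omega
            · refine ⟨h, ?_⟩
              have hnk : n < k := by
                by_contra h'
                exact k_notMem hx (not_lt.1 h') h
              rcases lt_or_gt_of_ne hnb with h1 | h1
              · rw [idx_lt hx hb hbr h1.le] at h'; exact h'
              · have hne : m n ≠ idx (chg x b k) n := fun he =>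
                  ht ⟨n, (mem_ref_chg hx hb hnb).2 (Or.inr h), he⟩
                rw [idx_mid hx hb h1 hnk.le] at h' hne
                omega
      have hfl : (low (chg x b k)).Finite := by
        have : (low x).Finite := hfin.subset fun n hn => hn.1
        rw [h1] at this
        exact this.subset (Set.subset_insert _ _)
      rw [h1, Set.ncard_insert_of_notMem (fun h => b_mem_ref_chg.1 h.1 hbr) hfl] at hc2
      exact zmod2_ne _ hc2.symm
  · -- case B2
    rw [not_le] at hlow
    have hnk : ∀ n ∈ Ref x, n < k := by
      intro n h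
      by_contra h'
      exact k_notMem hx (not_lt.1 h') h
    have hcan : canon (chg x b k) = insert k (canon x \ {b}) := by
      ext n
      simp only [Set.mem_insert_iff, Set.mem_sdiff, Set.mem_singleton_iff]
      by_cases hnb : n = b
      · subst hnb
        constructor
        · exact fun h => (b_mem_ref_chg.1 h.1 hbr).elim
        · rintro (h | h)
          · omega
          · exact (h.2 rfl).elim
      · by_cases hn : n = k
        · subst hn
          simp only [true_or, iff_true]
          refine ⟨(mem_ref_chg hx hb hnb).2 (Or.inl rfl), ?_⟩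
          rw [chg_k hb, idx_mid hx hb hb le_rfl, idx_ge hx le_rfl]
          simp
        · simp only [canon, Set.mem_ofPred_eq, hnb, hn, false_or, not_false_eq_true, and_true]
          rw [mem_ref_chg hx hb hnb]
          simp only [hn, false_or]
          refine and_congr_right fun h => ?_
          rcases lt_or_gt_of_ne hnb with h1 | h1
          · rw [idx_lt hx hb hbr h1.le, chg_lt h1]
          · rw [idx_mid hx hb h1 (hnk n h).le, chg_mid h1 (hnk n h)]
            have h2 : IsRefl (x n) := h
            cases hxn : x n with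
            | r i => rw [hxn] at h2; exact h2.elim
            | sr i =>
              rw [sr_mul_r, sr.injEq, sr.injEq]
              push_cast
              constructor
              · intro h3
                rw [add_sub_cancel_right] at h3
                rw [← h3, add_sub_cancel_right]
              · intro h3
                rw [h3]
                ring
    by_cases hbc : b ∈ canon x
    · -- the rotations
      have hbad : badr (chg x b k) = insert b (badr x) := by
        ext n
        simp only [Set.mem_insert_iff]
        by_cases hnb : n = b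
        · subst hnb
          simp only [true_or, iff_true]
          refine ⟨fun h => b_mem_ref_chg.1 h hbr, ?_⟩
          rw [chg_b, idx_lt hx hb hbr le_rfl, hbc.2, sr_mul_sr]
          intro h
          rw [r.injEq] at h
          have h1 : ((2 * idx x n : ℕ) : ZMod (m n)) = 0 := by
            push_cast
            linear_combination -h
          rw [ZMod.natCast_eq_zero_iff] at h1
          have h2 : Nat.Coprime (m n) 2 := by
            rw [Nat.coprime_comm, Nat.prime_two.coprime_iff_not_dvd]
            unfold m
            omega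
          have h3 := Nat.le_of_dvd (idx_pos hfin hbr) (h2.dvd_of_dvd_mul_left h1)
          omega
        · simp only [badr, Set.mem_ofPred_eq, hnb, false_or]
          rw [mem_ref_chg hx hb hnb]
          by_cases hn : n = k
          · subst hn
            simp only [true_or, not_true_eq_false, false_and, false_iff, not_and, not_not]
            intro _
            rw [hx n le_rfl, idx_ge hx le_rfl, one_def]
            simp
          · simp only [hn, false_or]
            refine and_congr_right fun h => ?_
            rcases lt_or_gt_of_ne hnb with h1 | h1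
            · rw [idx_lt hx hb hbr h1.le, chg_lt h1]
            · rcases lt_or_gt_of_ne hn with h4 | h4
              · rw [idx_mid hx hb h1 h4.le, chg_mid h1 h4]
                have h2 : ¬ IsRefl (x n) := h
                cases hxn : x n with
                | sr i => rw [hxn] at h2; exact (h2 trivial).elim
                | r i =>
                  rw [r_mul_r, Ne, Ne, r.injEq, r.injEq]
                  push_cast
                  rw [add_left_inj]
              · have h5 : ∀ j, k + 1 ≤ j → chg x b k j = 1 := fun j hj => chg_gt hb (by omega)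
                rw [idx_ge h5 (by omega), idx_ge hx h4.le, hx n h4.le, chg_gt hb h4]
      have hfb : (badr x).Finite := by
        refine (Set.finite_Iio k).subset fun n hn => ?_
        by_contra h
        rw [Set.mem_Iio, not_lt] at h
        apply hn.2
        rw [hx n h, idx_ge hx h, one_def]
        simp
      rw [hbad, Set.ncard_insert_of_notMem (fun h => h.1 hbr) hfb] at hc5
      exact zmod2_ne _ hc5
    · rw [Set.sdiff_singleton_eq_self hbc] at hcan
      have hfc : (canon x).Finite := hfin.subset fun n hn => hn.1
      rw [hcan, Set.ncard_insert_of_notMem (fun h => k_notMem hx le_rfl h.1) hfc] at hc4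
      exact zmod2_ne _ hc4

end Change

/-! ### Finiteness properties of the group -/

theorem exists_bound (x : DSum) : ∃ k, ∀ n, k ≤ n → (x : Seq) n = 1 := by
  obtain ⟨k, hk⟩ := (show {n | (x : Seq) n ≠ 1}.Finite from x.2).bddAbove
  refine ⟨k + 1, fun n hn => ?_⟩
  by_contra h
  have := hk h
  omega

/-- elements supported in `[0, k)` -/
def Below (k : ℕ) : Set DSum := {x | ∀ n, k ≤ n → (x : Seq) n = 1}

theorem below_finite (k : ℕ) : (Below k).Finite := by
  refine Set.Finite.of_finite_image (f := fun x : DSum => fun i : Fin k => (x : Seq) i)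
    (Set.toFinite _) ?_
  intro a ha b hb hab
  apply Subtype.ext
  funext n
  by_cases h : n < k
  · exact congrFun hab ⟨n, h⟩
  · rw [ha n (not_lt.1 h), hb n (not_lt.1 h)]

theorem countable_DSum : Countable DSum := by
  have h : (Set.univ : Set DSum) = ⋃ k, Below k := by
    ext x
    simp only [Set.mem_univ, Set.mem_iUnion, true_iff]
    exact exists_bound x
  rw [← Set.countable_univ_iff, h]
  exact Set.countable_iUnion fun k => (below_finite k).countable

/-- the elements `y k` -/
def y (k : ℕ) : DSum := ⟨fun n => if n < k then r 1 else if n = k then sr 0 else 1, by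
  refine (Set.finite_Iic k).subset fun n hn => ?_
  by_contra h
  rw [Set.mem_Iic, not_le] at h
  apply hn
  show (if n < k then r 1 else if n = k then sr 0 else 1) = (1 : DihedralGroup (m n))
  rw [if_neg (by omega), if_neg (by omega)]⟩

theorem y_lt {k n : ℕ} (h : n < k) : (y k : Seq) n = r 1 := if_pos h

theorem y_self (k : ℕ) : (y k : Seq) k = sr 0 := by
  show (if k < k then r 1 else if k = k then sr 0 else 1) = (sr 0 : DihedralGroup (m k))
  rw [if_neg (lt_irrefl k), if_pos rfl]

theorem y_gt {k n : ℕ} (h : k < n) : (y k : Seq) n = 1 := by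
  show (if n < k then r 1 else if n = k then sr 0 else 1) = (1 : DihedralGroup (m n))
  rw [if_neg (by omega), if_neg (by omega)]

theorem y_injective : Function.Injective y := by
  have key : ∀ j k, j < k → y j ≠ y k := by
    intro j k h he
    have h1 := y_self k
    rw [← he, y_gt h, one_def] at h1
    cases h1
  intro j k he
  rcases lt_trichotomy j k with h | h | h
  · exact (key j k h he).elim
  · exact h
  · exact (key k j h he.symm).elim

theorem infinite_DSum : Infinite DSum := Infinite.of_injective y y_injective

theorem fc_DSum (g : DSum) : (conjugatesOf g).Finite := by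
  obtain ⟨k, hk⟩ := exists_bound g
  refine (below_finite k).subset ?_
  intro z hz n hn
  obtain ⟨c, hc⟩ := isConj_iff.1 hz
  rw [← hc]
  show (c : Seq) n * (g : Seq) n * ((c : Seq) n)⁻¹ = 1
  rw [hk n hn, mul_one, mul_inv_cancel]

theorem mul_y_eq (x : DSum) {b k : ℕ} (hx : ∀ n, k ≤ n → (x : Seq) n = 1) (hb : b < k) :
    ((x * y k * (y b)⁻¹ : DSum) : Seq) = chg x b k := by
  funext n
  show (x : Seq) n * (y k : Seq) n * ((y b : Seq) n)⁻¹ = _
  rcases lt_trichotomy n b with h | h | h
  · rw [chg_lt h, y_lt (h.trans hb), y_lt h, mul_inv_cancel_right]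
  · subst h
    rw [chg_b, y_lt hb, y_self, inv_sr, mul_assoc, r_mul_sr, zero_sub]
  · rw [y_gt h, inv_one, mul_one]
    rcases lt_trichotomy n k with h1 | h1 | h1
    · rw [chg_mid h h1, y_lt h1]
    · subst h1
      rw [chg_k hb, y_self, hx n le_rfl, one_mul]
    · rw [chg_gt hb h1, y_gt h1, hx n h1.le, one_mul]

/-- the ultrafilter `v` -/
noncomputable def v : Ultrafilter DSum := (Filter.hyperfilter ℕ).map y

theorem main (u : Ultrafilter DSum) (hu : NonPrincipal u) : box u v ≠ diamond u v := by
  obtain ⟨i, hi⟩ := Ultrafilter.eq_pure_of_finite (u.map fun x : DSum => color (x : Seq))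
  let U : Set DSum := {x | color (x : Seq) = i}
  have hU : U ∈ u := by
    have h1 : ({i} : Set (ZMod 4 × ZMod 2 × Prop × ZMod 2 × ZMod 2)) ∈
        (u.map fun x : DSum => color (x : Seq)) := by
      rw [hi]
      exact Set.mem_singleton i
    exact h1
  let A : Set DSum := {z | ∃ x ∈ U, ∃ k, (∀ n, k ≤ n → (x : Seq) n = 1) ∧ z = x * y k}
  have h1 : A ∈ box u v := by
    refine Filter.mem_of_superset hU fun x hx => ?_
    obtain ⟨K, hK⟩ := exists_bound x
    show (fun a => x⁻¹ * a) '' A ∈ (Filter.hyperfilter ℕ).map y
    rw [Ultrafilter.mem_map]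
    apply Filter.mem_hyperfilter_of_finite_compl
    refine (Set.finite_Iio K).subset fun k hk => ?_
    by_contra h
    rw [Set.mem_Iio, not_lt] at h
    apply hk
    refine ⟨x * y k, ⟨x, hx, k, fun n hn => hK n (h.trans hn), rfl⟩, ?_⟩
    show x⁻¹ * (x * y k) = y k
    rw [inv_mul_cancel_left]
  have h2 : A ∉ diamond u v := by
    intro hA
    have hA' : {x : DSum | (fun a => a * x⁻¹) '' A ∈ u} ∈ (Filter.hyperfilter ℕ).map y := hA
    rw [Ultrafilter.mem_map] at hA'
    obtain ⟨b, hb⟩ := Ultrafilter.nonempty_of_mem hA'
    have hb' : (fun a => a * (y b)⁻¹) '' A ∈ u := hb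
    have h3 : (fun a => a * (y b)⁻¹) '' A ∩ U ∈ u := Filter.inter_mem hb' hU
    have h4 : (fun a => a * (y b)⁻¹) '' A ∩ U ⊆ Below (b + 1) := by
      rintro z ⟨⟨a, ⟨x, hx, k, hk, rfl⟩, rfl⟩, hz⟩
      have hkb : k ≤ b := by
        by_contra h
        rw [not_le] at h
        apply color_ne (x := (x : Seq)) hk h
        rw [← mul_y_eq x hk h]
        exact hz.trans hx.symm
      intro n hn
      show (x : Seq) n * (y k : Seq) n * ((y b : Seq) n)⁻¹ = 1
      rw [hk n (by omega), y_gt (by omega), y_gt (by omega), inv_one, one_mul, one_mul]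
    have h5 : Below (b + 1) ∈ u := Filter.mem_of_superset h3 h4
    obtain ⟨x, _, hx⟩ := Ultrafilter.eq_pure_of_finite_mem (below_finite (b + 1)) h5
    exact hu x hx
  intro h
  exact h2 (h ▸ h1)

theorem not_empty_dtc : ¬ IsDTCSet (∅ : Set (Ultrafilter DSum)) := by
  intro h
  have := infinite_DSum
  obtain ⟨v, hv, _⟩ := h (Filter.hyperfilter DSum) (by
    intro x hx
    have h1 : ({x} : Set DSum) ∈ Filter.hyperfilter DSum := by
      rw [hx]
      exact Set.mem_singleton x
    exact Filter.notMem_hyperfilter_of_finite (Set.finite_singleton x) h1)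
  exact hv

/-- **Main theorem.** There is a countably infinite FC group `G` and a single `v ∈ βG` with
`u □ v ≠ u ⋄ v` for every `u ∈ βG ∖ G`; in other words `{v}` is a DTC set (and the empty set is
not), so that `G` is DTC(1) and not DTC(2). -/
theorem result : ∃ (G : Type) (_ : Group G), Countable G ∧ Infinite G ∧
    (∀ g : G, (conjugatesOf g).Finite) ∧
    (∃ v : Ultrafilter G, (∀ u : Ultrafilter G, NonPrincipal u → box u v ≠ diamond u v) ∧
      IsDTCSet {v}) ∧ ¬ IsDTCSet (∅ : Set (Ultrafilter G)) :=
  ⟨DSum, inferInstance, countable_DSum, infinite_DSum, fc_DSum, ⟨v, main,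
    fun u hu => ⟨v, rfl, main u hu⟩⟩, not_empty_dtc⟩

end Pool.Agent.Results.MP_1a7a11_al.SingleUltrafilter
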