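import Mathlib
import Pool.Agent.Q7.SZ.Rk2

/-!
# Analytic rank two: the rank conjecture reduces to one cyclic or dihedral extension

`Pool.Agent.H541R3.ART.Irr G` is the set of irreducible complex characters of the finite group `G`.

Let `E` be an elliptic curve over a number field `K` and `M/K` a Galois extension with group `G` such
that `E` is automorphic over `M`. (If `K` is totally real or CM, every `E/K` has such an `M`.) By
solvable descent `E` is automorphic over the fixed field `M ^ H` for every SOLVABLE subgroup `H` of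
`G`. `Pool.Agent.Q7.SZ.TwistData G 1` is a family of functions with the known formal properties of
the twisted L-functions of `E` near the central point `s = 1`: `L χ` (for `L(E ⊗ χ, s)`,
`χ ∈ Irr G`), meromorphic and not identically zero (Brauer), and `Lin H ψ` (for
`L(E / M ^ H ⊗ ψ, s)`, `ψ` a linear character of a subgroup `H`) without pole at `1` if `H` is
solvable, which are the products of the `L χ ^ ⟨χ|_H, ψ⟩` (induction). In particular `Lin ⊥ 1`
stands for `L(E/M, s)` and `Lin H 1` for `L(E / M ^ H, s)`.

`Pool.Agent.Q7.SZ.FunEq A` are the functional equations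
`gam χ (s) * L χ (s) = W χ * gam χ (2 - s) * L χ̄ (2 - s)`, where `gam χ` is the exponential and
Gamma factor (analytic and nonzero at `1`) and the root number `W χ` is not zero, and equal to `1`
for symplectic characters (Rohrlich).

For a representation `ρ` of `G` on a rational vector space `V`, `Pool.Agent.Q7.SZ.rk ρ H` is the
dimension of the subspace of the vectors fixed by `H`. If `V = E(M) ⊗ ℚ`, then `rk ρ H` is the rank
of `E(M ^ H)`. `Pool.Agent.Q7.SZ.RankHolds A ρ H` says that the order of `Lin H 1` at `1` is
`rk ρ H`; for `V = E(M) ⊗ ℚ` this is the rank conjecture of Birch and Swinnerton-Dyer for `E` over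
`M ^ H`.
-/

set_option autoImplicit false

open Pool.Agent.H541R3.ART Pool.Agent.H302R2 Pool.Agent.H302R3 Pool.Agent.W446.AS
  Pool.Agent.Q7.TZ Pool.Agent.Q7.SZ

/-- Let `G`, an arbitrary finite group, be the Galois group of `M/K`, and let `L(E/M, s)` have order
two at `s = 1`. Then there is a Galois extension `F/K` in `M`, with group `G / N`, which is cyclic or
dihedral: there is a subgroup `B` of index at most two which contains `N`, with `B / N` cyclic
(isomorphic to the image of a linear character `l`), and the squares of all elements outside of `B`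
are in `N`. It has the following properties.
(1) All `L(E ⊗ χ, s)` with a zero or pole at `s = 1` are twists by characters `χ` of `G / N`, and
`L(E/F', s)` and `L(E/F' ∩ F, s)` have the same order at `s = 1`, for all fields `F'` between `K` and
`M`.
(2) `L(E/F', s)` is holomorphic at `s = 1` for all `F'`; the order is two if `F'` contains `F`, and at
most one if not.
(3) The rank conjecture holds for all fields between `K` and `M` if (and only if) `E(M)` and `E(F)`
have rank two and the rank conjecture holds for the proper subfields of `F` which contain `K`, over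
which the order of the L-function is at most one.
(4) If the rank conjecture holds for all fields between `K` and `M` then the order of `B / N` is `1`,
`2`, `3`, `4` or `6`; in particular `F/K` has degree at most `12`. -/
theorem Pool.Agent.Results.MP_1a91b9_nt.AnalyticRankTwo.result
    (G : Type) [Group G] [Finite G] (A : TwistData G 1) (F : FunEq A)
    (hr : meromorphicOrderAt (A.Lin ⊥ 1) 1 = ((2 : ℤ) : WithTop ℤ)) :
    ∃ (N B : Subgroup G) (l : B →* ℂˣ), N.Normal ∧ N ≤ B ∧ B.index ≤ 2 ∧
      (∀ b : B, l b = 1 ↔ (b : G) ∈ N) ∧ (∀ w, w ∉ B → w * w ∈ N) ∧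
      ((∀ χ ∈ Irr G, meromorphicOrderAt (A.L χ) 1 ≠ 0 → ∀ x ∈ N, χ x = χ 1) ∧
        ∀ H : Subgroup G,
          meromorphicOrderAt (A.Lin (H ⊔ N) 1) 1 = meromorphicOrderAt (A.Lin H 1) 1) ∧
      (∀ H : Subgroup G,
        (H ≤ N → meromorphicOrderAt (A.Lin H 1) 1 = ((2 : ℤ) : WithTop ℤ)) ∧
        (¬ H ≤ N → meromorphicOrderAt (A.Lin H 1) 1 = ((0 : ℤ) : WithTop ℤ) ∨
          meromorphicOrderAt (A.Lin H 1) 1 = ((1 : ℤ) : WithTop ℤ))) ∧
      ∀ (V : Type) [AddCommGroup V] [Module ℚ V] [FiniteDimensional ℚ V]
        (ρ : Representation ℚ G V),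
        ((∀ H, RankHolds A ρ H) ↔
          rk ρ ⊥ = 2 ∧ rk ρ N = 2 ∧ ∀ H, N < H → RankHolds A ρ H) ∧
        ((∀ H, RankHolds A ρ H) → Nat.card l.range ∈ ({1, 2, 3, 4, 6} : Set ℕ)) := by
  classical
  obtain ⟨N, B, l, h1, h2, h3, h4, h5, h6, h7, h8⟩ := frame_two A F hr
  have hsup := fun H : Subgroup G => A.order_sup h7 H
  have hord : ∀ H : Subgroup G, H ≤ N →
      meromorphicOrderAt (A.Lin H 1) 1 = ((2 : ℤ) : WithTop ℤ) := by
    intro H hH
    rw [← hr, ← hsup H, ← hsup ⊥, bot_sup_eq, sup_eq_right.mpr hH]
  refine ⟨N, B, l, h1, h2, h3, h4, h5, ⟨?_, hsup⟩,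
    fun H => ⟨hord H, order_le_one A hr h6 H⟩, ?_⟩
  · intro χ hχ h9
    apply h7 χ hχ
    intro h0
    apply h9
    rw [← A.coe_ord hχ, h0]
    rfl
  intro V _ _ _ ρ
  have htwo : ∀ H : Subgroup G, H ≤ N → (RankHolds A ρ H ↔ rk ρ H = 2) := by
    intro H hH
    unfold RankHolds
    rw [hord H hH]
    constructor
    · intro h
      have := WithTop.coe_injective h
      exact_mod_cast this.symm
    · intro h
      rw [h]
      rfl
  refine ⟨?_, fun h => ?_⟩
  · rw [rank_reduction A ρ h7, htwo ⊥ bot_le]
    constructor
    · rintro ⟨h9, h10⟩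
      exact ⟨h9, (htwo N le_rfl).mp (h10 N le_rfl), fun H hH => h10 H hH.le⟩
    · rintro ⟨h9, h10, h11⟩
      refine ⟨h9, fun H hH => ?_⟩
      rcases hH.lt_or_eq with h | h
      · exact h11 H h
      · rw [← h]
        exact (htwo N le_rfl).mpr h10
  · have h9 := card_range A hr h7 h4 h8 ρ h
    have : Finite l.range := Finite.of_surjective _ l.rangeRestrict_surjective
    have h10 := mem_of_totient_le_two Nat.card_pos h9
    simpa using h10
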