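import Mathlib
import Pool.Agent.Q290.Schur.Crys
import Pool.Agent.Q290.Schur.TwReal

/-!
# Analytic rank at most three: the rank conjecture implies its equivariant refinement

`Pool.Agent.H541R3.ART.Irr G` is the set of irreducible complex characters of the finite group `G`.

Let `E` be an elliptic curve over a number field `K` and `M/K` a Galois extension with group `G` such
that `E` is automorphic over `M`. (If `K` is totally real or CM, every `E/K` has such an `M`.) By
solvable descent `E` is automorphic over the fixed field `M ^ H` for every SOLVABLE subgroup `H` of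
`G`. `Pool.Agent.Q7.SZ.TwistData G 1` is a family of functions with the known formal properties of
the twisted L-functions of `E` near the central point `s = 1`: `L χ` (for `L(E ⊗ χ, s)`,
`χ ∈ Irr G`), meromorphic and not identically zero (Brauer), and `Lin H ψ` (for
`L(E / M ^ H ⊗ ψ, s)`, `ψ` a linear character of a subgroup `H`) without pole at `1` if `H` is
solvable, which are the products of the `L χ ^ ⟨χ|_H, ψ⟩` (induction). In particular `Lin ⊥ 1`
stands for `L(E/M, s)` and `Lin H 1` for `L(E / M ^ H, s)`.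

`Pool.Agent.Q7.SZ.FunEq A` are the functional equations
`gam χ (s) * L χ (s) = W χ * gam χ (2 - s) * L χ̄ (2 - s)`, where `gam χ` is the exponential and
Gamma factor (analytic and nonzero at `1`) and the root number `W χ` is not zero, and equal to `1`
for symplectic characters (Rohrlich).

For a representation `ρ` of `G` on a rational vector space `V`, `Pool.Agent.Q7.SZ.rk ρ H` is the
dimension of the subspace of the vectors fixed by `H`. If `V = E(M) ⊗ ℚ`, then `rk ρ H` is the rank
of `E(M ^ H)`. `Pool.Agent.Q7.SZ.RankHolds A ρ H` says that the order of `Lin H 1` at `1` is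
`rk ρ H`; for `V = E(M) ⊗ ℚ` this is the rank conjecture of Birch and Swinnerton-Dyer for `E` over
`M ^ H`.
-/

set_option autoImplicit false

open Pool.Agent.H541R3.ART Pool.Agent.Q7.SZ Pool.Agent.Q290.Schur

/-- Let `G`, an arbitrary finite group, be the Galois group of `M/K`, let `L(E/M, s)` have order at
most three at `s = 1`, and suppose that the rank conjecture holds for `E` over the fields `M ^ C`, for
all cyclic subgroups `C` of `G`. Then:

(1) The equivariant rank conjecture holds for `E` and `M/K`: for every irreducible character `χ` of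
`G` the order of `L(E ⊗ χ, s)` at `s = 1` is the multiplicity of `χ` in `E(M) ⊗ ℂ`. In particular no
`L(E ⊗ χ, s)` has a pole at `s = 1`.

(2) The same holds for all fields `F` between `K` and `M`, and all linear characters `ψ` of the
Galois group of `M/F`: the order of `L(E/F ⊗ ψ, s)` at `s = 1` is the multiplicity of `ψ` in
`E(M) ⊗ ℂ`. In particular the rank conjecture holds for `E` over `F`.

(3) `L(E ⊗ χ, s)` and `L(E ⊗ χ', s)` have the same order at `s = 1` if `χ'` is the composition of `χ`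
with the `k`-th power map of `G`, `k` prime to the order of `G` (a Galois conjugate of `χ`).

(4) The twelfth power of every element of `G` acts trivially on `E(M) ⊗ ℚ`. -/
theorem Pool.Agent.Results.MP_1a91b9_nt.EquivariantRank.result
    (G : Type) [Group G] [Finite G] (A : TwistData G 1) (F : FunEq A) (r : ℕ) (hr3 : r ≤ 3)
    (hr : meromorphicOrderAt (A.Lin ⊥ 1) 1 = (r : WithTop ℤ))
    (V : Type) [AddCommGroup V] [Module ℚ V] [FiniteDimensional ℚ V] (ρ : Representation ℚ G V)
    (hcyc : ∀ x : G, RankHolds A ρ (Subgroup.zpowers x)) :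
    (∀ χ ∈ Irr G, ∃ m : ℕ, meromorphicOrderAt (A.L χ) 1 = (m : WithTop ℤ) ∧
      ∑ᶠ g : G, ((LinearMap.trace ℚ V (ρ g) : ℚ) : ℂ) * χ g⁻¹ = (m : ℂ) * Nat.card G) ∧
    (∀ H : Subgroup G, (∀ ψ : H →* ℂˣ, ∃ m : ℕ,
        meromorphicOrderAt (A.Lin H ψ) 1 = (m : WithTop ℤ) ∧
        ∑ᶠ h : H, ((LinearMap.trace ℚ V (ρ h) : ℚ) : ℂ) * (((ψ h)⁻¹ : ℂˣ) : ℂ)
          = (m : ℂ) * Nat.card H) ∧ RankHolds A ρ H) ∧
    (∀ χ ∈ Irr G, ∀ χ' ∈ Irr G, ∀ k : ℕ, k.Coprime (Nat.card G) → (∀ g, χ' g = χ (g ^ k)) →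
      meromorphicOrderAt (A.L χ') 1 = meromorphicOrderAt (A.L χ) 1) ∧
    ∀ (g : G) (v : V), ρ (g ^ 12) v = v := by
  classical
  have : Fintype G := Fintype.ofFinite G
  have hG : (Nat.card G : ℂ) ≠ 0 := by exact_mod_cast Nat.card_pos.ne'
  have hdual : ∀ χ ∈ Irr G, A.ord (fun g => χ g⁻¹) = A.ord χ := fun χ hχ => F.ord_inv hχ
  have hreal : ∀ g : G, (theta A.ord : G → ℂ) g⁻¹ = theta A.ord g := theta_inv_of A.ord hdual
  have hθ : ∀ g : G, (theta A.ord : G → ℂ) g = qtr ρ g := by
    apply eq_qtr A.isSol hreal hr3 (A.theta_one hr)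
    intro x
    obtain ⟨k, hk1, hk2⟩ := A.order_one (Subgroup.zpowers x)
    have h1 := hcyc x
    unfold RankHolds at h1
    rw [hk1] at h1
    have h2 : k = (rk ρ (Subgroup.zpowers x) : ℤ) := WithTop.coe_injective h1
    rw [hk2, h2]
    push_cast
    rfl
  have hqtr1 : qtr ρ 1 = r := by rw [← hθ, A.theta_one hr]
  have hord : ∀ χ ∈ Irr G, ∑ᶠ g : G, qtr ρ g * χ g⁻¹ = (A.ord χ : ℂ) * Nat.card G := by
    intro χ hχ
    rw [finsum_eq_sum_of_fintype, ← theta_pair A.ord hχ]
    exact Finset.sum_congr rfl fun g _ => by rw [hθ]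
  refine ⟨fun χ hχ => ?_, fun H => ⟨fun ψ => ?_, ?_⟩, fun χ hχ χ' hχ' k hk hχk => ?_,
    fun g v => ?_⟩
  · obtain ⟨m, hm⟩ := qtr_mult ρ hχ
    refine ⟨m, ?_, hm⟩
    have h1 := (hord χ hχ).symm.trans hm
    have h2 := mul_right_cancel₀ hG h1
    have h3 : A.ord χ = (m : ℤ) := by exact_mod_cast h2
    rw [← A.coe_ord hχ, h3]
    rfl
  · obtain ⟨k, hk1, hk2⟩ := A.order_mult H ψ
    obtain ⟨m, hm⟩ := (qtr_heilbronn ρ).mult H ψ
    have hH : (Nat.card H : ℂ) ≠ 0 := by exact_mod_cast Nat.card_pos.ne'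
    have h1 : ∑ᶠ h : H, (theta A.ord : G → ℂ) h * (((ψ h)⁻¹ : ℂˣ) : ℂ)
        = ∑ᶠ h : H, qtr ρ (h : G) * (((ψ h)⁻¹ : ℂˣ) : ℂ) :=
      finsum_congr fun h => by rw [hθ]
    rw [hk2, hm] at h1
    have h2 := mul_right_cancel₀ hH h1
    have h3 : k = (m : ℤ) := by exact_mod_cast h2
    exact ⟨m, by rw [hk1, h3]; rfl, hm⟩
  · obtain ⟨k, hk1, hk2⟩ := A.order_one H
    have hH : (Nat.card H : ℂ) ≠ 0 := by exact_mod_cast Nat.card_pos.ne'
    have h1 : ∑ᶠ h : H, (theta A.ord : G → ℂ) h = ∑ᶠ h : H, qtr ρ (h : G) :=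
      finsum_congr fun h => hθ h
    rw [hk2, qtr_sum] at h1
    have h2 := mul_right_cancel₀ hH h1
    have h3 : k = (rk ρ H : ℤ) := by exact_mod_cast h2
    unfold RankHolds
    rw [hk1, h3]
  · have h1 := hord χ hχ
    have h2 := hord χ' hχ'
    rw [finsum_eq_sum_of_fintype] at h1 h2
    have h3 := pow_pair hk (fun g => (qtr_facts ρ hr3 hqtr1 g).2 k hk) hχk
    rw [h3] at h2
    have h4 := mul_right_cancel₀ hG (h1.symm.trans h2)
    have h5 : A.ord χ = A.ord χ' := by exact_mod_cast h4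
    rw [← A.coe_ord hχ, ← A.coe_ord hχ', h5]
  · obtain ⟨σ, hσ, hσ1⟩ := qtr_rep ρ
    have h1 : ρ (g ^ 12) = 1 := by
      apply hσ1
      apply Pool.Agent.Y788.V.rep_triv
      rw [hσ]
      exact (qtr_facts ρ hr3 hqtr1 g).1
    rw [h1]
    rfl
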