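import Mathlib
import Pool.Agent.Q283.MC.Tow

/-!
# Infinite towers of number fields over which rank = analytic rank = 0

`E_D : y² + D y = x³`, a curve over `ℚ`, `3`-isogenous to `x³ + y³ = D`. Let `D` be cube-free, prime
to `3`, not `±1` modulo `9`, such that exactly one prime `q = 2` modulo `3` divides `D`, and such that
`D` has no splitting `D = d_0 d_1 d_2` in the sense of `NoSplit` (for these `D` this is the condition
that `E_D(ℚ)` is finite and `Ш(E_D/ℚ)[3^∞] = 0`; it always holds if `D` is a prime `q = 2, 5`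
modulo `9` or the square of such a prime).

Then there are pairwise coprime squarefree numbers `M_0, M_1, M_2, …` greater than `1`, products of
primes `= 1` modulo `3` prime to `D`, such that for every `k` the rank part of the conjecture of
Birch and Swinnerton-Dyer, rank = order of vanishing = `0`, holds for the FIXED curve `E_D` over the
field `F_k = ℚ(∛M_0, …, ∛M_{k-1})` of degree `3 ^ k` (not Galois over `ℚ`) and over its Galois closure
`F_k(ω)` of degree `2 · 3 ^ k`: `E_D(F)` is finite, and the Euler product of `L(E_D/F, s)` over the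
places of `F` that do not divide `6 D M_0 ⋯ M_{k-1}` has an entire continuation which is not zero at
`s = 1`. (The Euler factors at the other places are finite and different from zero at `s = 1`.)
The `M_j` can be chosen larger than any given bounds `B_j`, so there are infinitely many choices at
every step; over the union of the `F_k(ω)`, an infinite Galois extension of `ℚ`, `E_D` has only
torsion points.

The proof: `L(E_D/F, s)` is, up to these factors, a product (or the square of the product) of the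
`3 ^ k` functions `L(E_n/ℚ, s)` of the cubic twists `n = D ∏ M_j ^ e_j`, and `E_D(F)` is finite if all
`E_n(ℚ)` are. If all these `n` have the property, then the set of all `n` and of the cube-free parts
of the `n²` has common twists `M = m ℓ` (`MP_e23604_nt.CommonCubicTwist`), and the property of `n M²`
is the one of the cube-free part of `n² M`. The criterion for one `D` is from the starting library.
-/

set_option autoImplicit false

open scoped Classical

namespace Pool.Agent.Results.MP_1a91b9_nt.InfiniteCubicTowers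

open NumberField IsDedekindDomain

/-- The curve `E_N : y² + N y = x³` over `ℚ`. -/
def curve (N : ℕ) : WeierstrassCurve ℚ := ⟨0, 0, N, 0, 0⟩

/-- `D` is prime to `3` and cube-free, and exactly one prime `q = 2` modulo `3` divides it. -/
def Base (D : ℕ) : Prop :=
  D ≠ 0 ∧ ¬ 3 ∣ D ∧ (∀ p : ℕ, p.Prime → ¬ p ^ 3 ∣ D) ∧
    ∃ q : ℕ, q.Prime ∧ q % 3 = 2 ∧ q ∣ D ∧ ∀ p : ℕ, p.Prime → p ∣ D → p ≠ q → p % 3 = 1

/-- `D` is not a product `d₀ d₁ d₂` of coprime factors, at least two of them different from `1`,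
such that `d₁ d₂²`, `d₂ d₀²`, `d₀ d₁²` are cubes modulo the primes dividing `d₀`, `d₁`, `d₂`. -/
def NoSplit (D : ℕ) : Prop :=
  ∀ d : ZMod 3 → ℕ, ∏ c, d c = D → (∀ c c', c ≠ c' → Nat.Coprime (d c) (d c')) →
    (∀ (c : ZMod 3) (p : ℕ), p.Prime → p ∣ d c →
      ∃ x : ℤ, (p : ℤ) ∣ (d (c + 1) : ℤ) * (d (c + 2) : ℤ) ^ 2 - x ^ 3) →
    ∃ c, ∀ c', c' ≠ c → d c' = 1

/-- `a_v(E_N)`: the norm of `v` minus the number of the affine points of `y² + N y = x³` over the
residue field of `v`. -/
noncomputable def a {F : Type} [Field F] [NumberField F] (N : ℕ) (v : HeightOneSpectrum (𝓞 F)) : ℤ :=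
  ((Ideal.absNorm v.asIdeal : ℕ) : ℤ) -
    ((Nat.card {x : (𝓞 F ⧸ v.asIdeal) × (𝓞 F ⧸ v.asIdeal) //
      x.2 ^ 2 + (N : 𝓞 F ⧸ v.asIdeal) * x.2 = x.1 ^ 3} : ℕ) : ℤ)

/-- The Euler factor of `L(E_N/F, s)` at `v`; it is replaced by `1` if `v` divides `M`. -/
noncomputable def factor {F : Type} [Field F] [NumberField F] (M N : ℕ) (s : ℂ)
    (v : HeightOneSpectrum (𝓞 F)) : ℂ :=
  if ((M : ℕ) : 𝓞 F) ∈ v.asIdeal then 1 else
    (1 - ((a N v : ℤ) : ℂ) * ((Ideal.absNorm v.asIdeal : ℕ) : ℂ) ^ (-s) +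
      ((Ideal.absNorm v.asIdeal : ℕ) : ℂ) ^ (1 - 2 * s))⁻¹

/-- `E_N(F)` is finite, and there is an entire function `L` equal to the Euler product of `E_N` over
the places of `F` that do not divide `M` for `Re s > 3/2`, with `L(1) ≠ 0`. -/
def RankZero (M N : ℕ) (F : Type) [Field F] [NumberField F] : Prop :=
  Finite ((curve N).baseChange F).toAffine.Point ∧
    ∃ L : ℂ → ℂ, Differentiable ℂ L ∧
      (∀ s : ℂ, 3 / 2 < s.re → HasProd (factor (F := F) M N s) (L s)) ∧ L 1 ≠ 0

theorem result (D : ℕ) (hD : Base D) (h1 : D % 9 ≠ 1) (h8 : D % 9 ≠ 8) (hS : NoSplit D)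
    (B : ℕ → ℕ) :
    ∃ M : ℕ → ℕ,
      (∀ j, B j < M j ∧ 1 < M j ∧ Squarefree (M j) ∧
        (∀ p : ℕ, p.Prime → p ∣ M j → p % 3 = 1) ∧ Nat.Coprime D (M j)) ∧
      (∀ i j, i ≠ j → Nat.Coprime (M i) (M j)) ∧
      ∀ (k : ℕ) (F : Type) [Field F] [NumberField F] (θ : Fin k → F),
        (∀ j, θ j ^ 3 = (M j : F)) →
        IntermediateField.adjoin ℚ ({x : F | x ^ 3 = 1} ∪ Set.range θ) = ⊤ →
          3 ^ k ∣ Module.finrank ℚ F ∧ RankZero (6 * D * ∏ j : Fin k, M j) D F := by
  have hC : Pool.Agent.Y703.CT.Cls D := ⟨⟨hD.1, hD.2.1, hD.2.2.1⟩, h1, h8, hD.2.2.2⟩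
  obtain ⟨M, g1, g2, g3⟩ := Q283.MC.towers hC hS B
  refine ⟨M, g1, g2, fun k F _ _ θ hθ hgen => ?_⟩
  obtain ⟨g4, g5, L, g6, g7, g8⟩ := g3 k F θ hθ hgen
  refine ⟨g4, ?_, L, g6, fun s hs => (g7 s hs).congr_fun fun v => rfl, g8⟩
  have h12 : curve D = Pool.Agent.Y703.CT.EQ (Pool.Agent.Y703.CT.WD ((D : ℕ) : ℤ)) := by
    ext <;> simp [curve, Pool.Agent.Y703.CT.WD]
  rw [h12]
  exact g5

end Pool.Agent.Results.MP_1a91b9_nt.InfiniteCubicTowers
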