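import Pool.Agent.Q283.FT.All

/-!
# The exact joint law of the 2-Selmer groups of the quadratic twists of elliptic curves over number fields

Let `F` be any number field which contains `i`, `i² = -1`. Every elliptic curve over `F` with rational points of order two has
an equation `y² = (x - e 0) (x - e 1) (x - e 2)` with different `e j ∈ F` of sum `0`. Let `E_1, …, E_n` be such curves. We assume

* that no product `(e i - e j) (e i - e l)` with different `i, j, l` is a square in `F`: the curve has no cyclic subgroup of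
  order `4` over `F`;
* that for `k ≠ l` the modules `E_k[4]` and `E_l[4]` are not isomorphic: there is no bijection `σ` of the roots such that all
  the products `(e i - e j) (e' (σ i) - e' (σ j))`, `i ≠ j`, are squares in `F`.

(The curves may be twists of each other: if `m` is no square then `E[4]` and `E_m[4]` are not isomorphic.) The twist `E_D` of
`E` by `D ∈ F^*` has the roots `D e j`. For every curve with these equations `#Sel_2 = 2^(2 + r)`, and
`2^rank · #Ш[2] = 2^r`; so `r` is the sum of the rank and of the dimension of `Ш[2]`.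

The theorem. Prescribe `D` up to squares in the completions at all places above the prime numbers `≤ y` (it is equal to `D₀`
there), where `y` is large, and let its order be odd at `k` further primes `q_0, …, q_(k-1)`, of norms `≤ X_0, …, X_(k-1)`, and
even at all other primes. Then the parities of the numbers `r_l(D)` are those of `r_l(D₀)`. For large `k`, `X_0`, then `X_1`
large in terms of `X_0`, and so on, the vector `(r_1(D), …, r_n(D))` is distributed as a vector of *independent* random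
variables, the `l`-th with the law

`p(e) = (β / 2) 2^e / ((2 - 1) (2² - 1) ⋯ (2^e - 1))`, `β = ∏_(i ≥ 0) (1 - 2^(-2i-1)) = 0.4194…`

(of Heath-Brown and of Poonen and Rains) conditioned by the parity of `r_l(D₀)`: for every `ε > 0`, uniformly for all sets `𝒜` of
vectors the share of the tuples with `(r_1(D), …, r_n(D)) ∈ 𝒜` differs from the probability by at most `ε`. For instance,
if all parities are even then for exactly `β^n` of the tuples all the curves have finite groups of points over `F` and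
`Ш[2^∞] = 0`.

Proof. The tables of the quadratic residue symbols of the `q_i` and of the classes of `S`-units are equidistributed (by
Chebotarev's theorem and the law of reciprocity over `F`, deduced from Artin's law, in `Pool/Agent/Q7`, `Pool/Agent/Q283/EN`), and the
Selmer groups are the spaces of the solutions of systems of linear equations which they determine together with
maximal isotropic local conditions at the places above the primes `≤ y`. The joint law of the dimensions of the spaces of the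
solutions is computed with the linear algebra of the project JQ (joint law over `ℚ`, MP_e23604_nt.JointSelmerLaw) of the
helpers 44, 81, 87, 153, 154, 177, 182, 261 and 299, ported to number fields which contain `i` in `Pool/Agent/Q283/FT`.

The parts were proved together with the helpers 7, 13, 31, 38, 53, 64, 65, 79, 96, 121, 124, 129, 130, 149, 150, 151, 154, 162, 164, 176, 192, 198, 214, 223, 224, 238, 241, 265 and 277.
-/

set_option autoImplicit false

namespace Pool.Agent.Results.MP_1a91b9_nt.JointLawNumberFields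

open NumberField IsDedekindDomain Filter Topology WeierstrassCurve
open Pool.Agent.TH841.NF.D (Sha)
open Pool.Agent.TH841.SH.D (Pt)
open scoped Classical

/-- The curve `y² = (x - e 0) (x - e 1) (x - e 2)`, for `e 0 + e 1 + e 2 = 0`. -/
def curve {F : Type} [Field F] (e : Fin 3 → F) : WeierstrassCurve F :=
  ⟨0, 0, 0, e 0 * e 1 + e 0 * e 2 + e 1 * e 2, -(e 0 * e 1 * e 2)⟩

/-- The roots `D e j` of the quadratic twist by `D`. -/
def twist {F : Type} [Field F] (D : F) (e : Fin 3 → F) : Fin 3 → F := fun j => D * e j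

/-- The product of the differences of one root with the two others is not a square: the curve has no cyclic subgroup of
order `4` over `F`. -/
def NoCyclicFour {F : Type} [Field F] (e : Fin 3 → F) : Prop :=
  ∀ i j l, i ≠ j → i ≠ l → j ≠ l → ∀ s : F, (e i - e j) * (e i - e l) ≠ s ^ 2

/-- The differences of the roots are equal modulo squares for some bijection of the roots: the modules of the points of order
dividing `4` are isomorphic. -/
def Matched {F : Type} [Field F] (e e' : Fin 3 → F) : Prop :=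
  ∃ σ : Equiv.Perm (Fin 3), ∀ i j, i ≠ j → ∃ s : F, (e i - e j) * (e' (σ i) - e' (σ j)) = s ^ 2

section Ensemble

variable {F : Type} [Field F] [NumberField F]

/-- The rank of the group of the points over `F`. -/
noncomputable def rank (e : Fin 3 → F) : ℕ := Module.finrank ℤ (Pt (curve e) F)

/-- The elements of `Ш` which are killed by `2`. -/
def ShaTwo (e : Fin 3 → F) : Type := {x : Sha (curve e) // (2 : ℕ) • x = 0}

/-- The sum of the rank and of the dimension of `Ш[2]`. -/
noncomputable def selmerRank (e : Fin 3 → F) : ℕ := rank e + Nat.log 2 (Nat.card (ShaTwo e))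

/-- `a ≠ 0`, `b ≠ 0`, and the covering `a z₀² + e₀ w² = b z₁² + e₁ w² = a b z₂² + e₂ w²` of the curve has a point over all
completions of `F` at its finite places. -/
def Solvable (e : Fin 3 → F) (a b : F) : Prop :=
  ∀ v : HeightOneSpectrum (𝓞 F), a ≠ 0 ∧ b ≠ 0 ∧ ∃ (z : Fin 3 → v.adicCompletion F) (w : v.adicCompletion F), (z ≠ 0 ∨ w ≠ 0) ∧
    algebraMap F (v.adicCompletion F) a * z 0 ^ 2 + algebraMap F (v.adicCompletion F) (e 0) * w ^ 2 =
      algebraMap F (v.adicCompletion F) b * z 1 ^ 2 + algebraMap F (v.adicCompletion F) (e 1) * w ^ 2 ∧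
    algebraMap F (v.adicCompletion F) a * z 0 ^ 2 + algebraMap F (v.adicCompletion F) (e 0) * w ^ 2 =
      algebraMap F (v.adicCompletion F) (a * b) * z 2 ^ 2 + algebraMap F (v.adicCompletion F) (e 2) * w ^ 2

/-- The order of the 2-Selmer group: there are exactly `N` classes modulo squares of pairs `(a, b)` with `Solvable e a b`. -/
def SelmerOrder (e : Fin 3 → F) (N : ℕ) : Prop :=
  ∃ a : Fin N → F × F, (∀ i, Solvable e (a i).1 (a i).2) ∧
    (∀ i j, i ≠ j → ¬ ((∃ x : F, (a i).1 / (a j).1 = x ^ 2) ∧ ∃ x : F, (a i).2 / (a j).2 = x ^ 2)) ∧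
    ∀ b c, Solvable e b c → ∃ i, (∃ x : F, b / (a i).1 = x ^ 2) ∧ ∃ x : F, c / (a i).2 = x ^ 2

/-- The order of `a` at `v`. -/
noncomputable def order (v : HeightOneSpectrum (𝓞 F)) (a : F) : ℤ := -WithZero.log (v.valuation F a)

/-- `a` is the square of a nonzero element of the completion of `F` at `v`. -/
def SquareAt (v : HeightOneSpectrum (𝓞 F)) (a : F) : Prop :=
  a ≠ 0 ∧ ∃ s : v.adicCompletion F, (a : v.adicCompletion F) = s ^ 2

/-- `v` lies above a prime number `l ≤ y`. -/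
def Small (y : ℕ) (v : HeightOneSpectrum (𝓞 F)) : Prop :=
  ∃ l : ℕ, l.Prime ∧ l ≤ y ∧ (l : 𝓞 F) ∈ v.asIdeal

/-- Among the primes not above prime numbers `≤ y` the order of `D` is odd exactly at the primes `q i`; and at the primes above
prime numbers `≤ y` the number `D` is equal to `D₀` up to local squares. -/
structure Fits (y : ℕ) (D₀ : F) {k : ℕ} (q : Fin k → HeightOneSpectrum (𝓞 F)) (D : F) : Prop where
  ne : D ≠ 0
  unr : ∀ v : HeightOneSpectrum (𝓞 F), ¬ Small y v → (∀ i, q i ≠ v) → Even (order v D)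
  ram : ∀ i, Odd (order (q i) D)
  loc : ∀ v : HeightOneSpectrum (𝓞 F), Small y v → SquareAt v (D / D₀)

/-- The ensemble: the tuples of `k` different primes `q i`, not above prime numbers `≤ y`, of norm `≤ X i`, to which a
`D` belongs. -/
def Ensemble (y : ℕ) (D₀ : F) {k : ℕ} (X : Fin k → ℕ) : Set (Fin k → HeightOneSpectrum (𝓞 F)) :=
  {q | (Function.Injective q ∧ ∀ i, ¬ Small y (q i) ∧ Ideal.absNorm (q i).asIdeal ≤ X i) ∧ ∃ D, Fits y D₀ q D}

end Ensemble

/-- `P X` is true for all large `X 0`, for all `X 1` which are large in terms of `X 0`, …, for all `X (k-1)` which are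
large in terms of the others. -/
def Nested : (k : ℕ) → ((Fin k → ℕ) → Prop) → Prop
  | 0, P => P Fin.elim0
  | k + 1, P => Nested k fun X => ∀ᶠ x : ℕ in atTop, P (Fin.snoc (α := fun _ => ℕ) X x)

/-- The share of the subset `S` of the finite set `T`. -/
noncomputable def share {α : Type} (S T : Set α) : ℝ := (S.ncard : ℝ) / T.ncard

/-- The infinite product of the numbers `1 - 2 ^ (- 2 i - 1)`, `i ≥ 0`. -/
noncomputable def beta : ℝ := ∏' i : ℕ, (1 - (1 / 2 : ℝ) ^ (2 * i + 1))

/-- The probability of `e` in the law `p`. -/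
noncomputable def law (e : ℕ) : ℝ :=
  beta / 2 * (2 ^ e / ∏ i ∈ Finset.range e, ((2 : ℝ) ^ (i + 1) - 1))

/-- The probability of `e` in the law `p` conditioned by the parity `c`. -/
noncomputable def parityLaw (c : ZMod 2) (e : ℕ) : ℝ := if (e : ZMod 2) = c then 2 * law e else 0

section Proof

theorem nested_iff : ∀ (k : ℕ) (P : (Fin k → ℕ) → Prop), Nested k P ↔ Q283.LQ.Nest k P
  | 0, _ => Iff.rfl
  | k + 1, _ => nested_iff k _

theorem law_eq : law = Pool.Agent.Q269.SL.law2 := by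
  funext e
  rw [Pool.Agent.Q269.SL.law2_eq]
  rfl

theorem parity_eq (c : ZMod 2) (e : ℕ) : parityLaw c e = Q44.JQ.lawc c e := by
  unfold parityLaw Q44.JQ.lawc
  rw [law_eq]

variable {F : Type} [Field F]

theorem neg_sq {i : F} (hi : i ^ 2 = -1) {a : F} : (∃ s : F, a = s ^ 2) → ∃ s : F, -a = s ^ 2 := by
  rintro ⟨s, rfl⟩
  exact ⟨i * s, by rw [mul_pow, hi]; ring⟩

theorem noFour {i : F} (hi : i ^ 2 = -1) {e : Fin 3 → F} (h : NoCyclicFour e) : Q283.FT.NoFour e := by
  have h01 := h 2 0 1 (by decide) (by decide) (by decide)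
  have h02 := h 1 0 2 (by decide) (by decide) (by decide)
  have h12 := h 0 1 2 (by decide) (by decide) (by decide)
  have k01 : ¬ ∃ s : F, (e 0 - e 2) * (e 1 - e 2) = s ^ 2 := by
    rintro ⟨s, hs⟩
    exact h01 s (by rw [← hs]; ring)
  have k02 : ¬ ∃ s : F, (e 1 - e 2) * (e 0 - e 1) = s ^ 2 := by
    intro hs
    obtain ⟨s, hs⟩ := neg_sq hi hs
    exact h02 s (by rw [← hs]; ring)
  have k12 : ¬ ∃ s : F, (e 0 - e 2) * (e 0 - e 1) = s ^ 2 := by
    rintro ⟨s, hs⟩
    exact h12 s (by rw [← hs]; ring)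
  intro l l' hl hsq
  unfold Q7.LK.IsPow at hsq
  fin_cases l <;> fin_cases l' <;> simp [Q283.FT.df] at hl hsq
  · exact k01 (by obtain ⟨s, hs⟩ := hsq; exact ⟨s, by rw [← hs]; ring⟩)
  · exact k02 (by obtain ⟨s, hs⟩ := hsq; exact ⟨s, by rw [← hs]⟩)
  · exact k01 (by obtain ⟨s, hs⟩ := hsq; exact ⟨s, by rw [← hs]⟩)
  · exact k12 (by obtain ⟨s, hs⟩ := hsq; exact ⟨s, by rw [← hs]⟩)
  · exact k02 (by obtain ⟨s, hs⟩ := hsq; exact ⟨s, by rw [← hs]; ring⟩)
  · exact k12 (by obtain ⟨s, hs⟩ := hsq; exact ⟨s, by rw [← hs]; ring⟩)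

theorem df_pm (e : Fin 3 → F) (i j l : Fin 3) (hij : i ≠ j) (hil : i ≠ l) (hjl : j ≠ l) :
    Q283.FT.df e l = e i - e j ∨ Q283.FT.df e l = -(e i - e j) := by
  fin_cases i <;> fin_cases j <;> fin_cases l <;> simp [Q283.FT.df] at hij hil hjl ⊢

theorem matched {i : F} (hi : i ^ 2 = -1) {e e' : Fin 3 → F} (h : Q283.FT.Matched e e') : Matched e e' := by
  obtain ⟨σ, hσ⟩ := h
  refine ⟨σ, fun a b hab => ?_⟩
  obtain ⟨l, hal, hbl⟩ : ∃ l : Fin 3, a ≠ l ∧ b ≠ l := by
    fin_cases a <;> fin_cases b <;> simp at hab <;> first | exact ⟨0, by decide, by decide⟩ | exact ⟨1, by decide, by decide⟩ | exact ⟨2, by decide, by decide⟩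
  have h1 : ∃ s : F, Q283.FT.df e l * Q283.FT.df e' (σ l) = s ^ 2 := hσ l
  rcases df_pm e a b l hab hal hbl with h2 | h2 <;>
    rcases df_pm e' (σ a) (σ b) (σ l) (fun h => hab (σ.injective h)) (fun h => hal (σ.injective h))
      (fun h => hbl (σ.injective h)) with h3 | h3 <;> rw [h2, h3] at h1
  · exact h1
  · obtain ⟨s, hs⟩ := neg_sq hi h1
    exact ⟨s, by rw [← hs]; ring⟩
  · obtain ⟨s, hs⟩ := neg_sq hi h1
    exact ⟨s, by rw [← hs]; ring⟩
  · obtain ⟨s, hs⟩ := h1
    exact ⟨s, by rw [← hs]; ring⟩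

theorem not_matched {i : F} (hi : i ^ 2 = -1) {e : Fin 3 → F} (he : Function.Injective e) {m m' : F}
    (h : ¬ ∃ x : F, m * m' = x ^ 2) : ¬ Matched (twist m e) (twist m' e) := by
  rintro ⟨σ, hσ⟩
  have key : ∀ a b : Fin 3, a ≠ b → ∃ s : F, m * m' * ((e a - e b) * (e (σ a) - e (σ b))) = s ^ 2 := by
    intro a b hab
    obtain ⟨s, hs⟩ := hσ a b hab
    refine ⟨s, ?_⟩
    rw [← hs]
    show _ = (m * e a - m * e b) * (m' * e (σ a) - m' * e (σ b))
    ring
  obtain ⟨s, hs⟩ := key 0 1 (by decide)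
  obtain ⟨t, ht⟩ := key 0 2 (by decide)
  obtain ⟨u, hu⟩ := key 1 2 (by decide)
  have h1 : ∃ c : F, (e (σ 0) - e (σ 1)) * (e (σ 0) - e (σ 2)) * (e (σ 1) - e (σ 2)) = c ∧
      c ^ 2 = ((e 0 - e 1) * (e 0 - e 2) * (e 1 - e 2)) ^ 2 := by
    refine ⟨_, rfl, ?_⟩
    have h2 : ∀ a b c : Fin 3, a ≠ b → a ≠ c → b ≠ c → ((e a - e b) * (e a - e c) * (e b - e c)) ^ 2 =
        ((e 0 - e 1) * (e 0 - e 2) * (e 1 - e 2)) ^ 2 := by
      intro a b c hab hac hbc
      fin_cases a <;> fin_cases b <;> fin_cases c <;> simp at hab hac hbc ⊢ <;> ring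
    exact h2 _ _ _ (fun h => by simpa using σ.injective h) (fun h => by simpa using σ.injective h)
      (fun h => by simpa using σ.injective h)
  obtain ⟨c, hc, hc2⟩ := h1
  set d := (e 0 - e 1) * (e 0 - e 2) * (e 1 - e 2) with hd
  have hd0 : d ≠ 0 := by
    refine mul_ne_zero (mul_ne_zero ?_ ?_) ?_ <;> refine sub_ne_zero.2 fun h => ?_
    · exact absurd (he h) (by decide)
    · exact absurd (he h) (by decide)
    · exact absurd (he h) (by decide)
  have hcd : c = d ∨ c = -d := sq_eq_sq_iff_eq_or_eq_neg.1 hc2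
  have hprod : (m * m') ^ 3 * (d * c) = (s * t * u) ^ 2 := by
    rw [← hc, hd, mul_pow (s * t) u, mul_pow s t, ← hs, ← ht, ← hu]
    ring
  have hm : m * m' ≠ 0 := fun h0 => h ⟨0, by rw [h0]; ring⟩
  rcases hcd with hcd | hcd
  · refine h ⟨s * t * u / (m * m' * d), ?_⟩
    rw [div_pow, eq_div_iff (pow_ne_zero 2 (mul_ne_zero hm hd0)), ← hprod, hcd]
    ring
  · refine h ⟨i * (s * t * u) / (m * m' * d), ?_⟩
    rw [div_pow, eq_div_iff (pow_ne_zero 2 (mul_ne_zero hm hd0)), mul_pow i, ← hprod, hcd, hi]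
    ring

variable [NumberField F]

theorem odd_iff (v : HeightOneSpectrum (𝓞 F)) (D : F) : Odd (order v D) ↔ Q7.LK.vl 2 v D = 1 := by
  unfold order Q7.LK.vl
  rw [← Int.cast_neg]
  constructor
  · rintro ⟨n, hn⟩
    rw [hn]
    push_cast
    have h2 : (2 : ZMod 2) = 0 := rfl
    rw [h2, zero_mul, zero_add]
  · intro h
    by_contra hc
    rw [Int.not_odd_iff_even] at hc
    obtain ⟨n, hn⟩ := hc
    rw [hn, Int.cast_add, CharTwo.add_self_eq_zero] at h
    exact zero_ne_one h

theorem even_iff (v : HeightOneSpectrum (𝓞 F)) (D : F) : Even (order v D) ↔ Q7.LK.vl 2 v D = 0 := by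
  rw [← Int.not_odd_iff_even, odd_iff]
  generalize Q7.LK.vl 2 v D = z
  revert z
  decide

theorem loc_iff (v : HeightOneSpectrum (𝓞 F)) (a : F) : SquareAt v a ↔ Q7.LK.Lpw 2 v a := by
  have : Fact (Nat.Prime 2) := ⟨Nat.prime_two⟩
  exact (Q7.LK.t_CPL 2 F v a).symm

theorem fits_iff {y : ℕ} {D₀ : F} {k : ℕ} {q : Fin k → HeightOneSpectrum (𝓞 F)} (hq : Function.Injective q)
    (hs : ∀ i, ¬ Small y (q i)) {D : F} : Fits y D₀ q D ↔ Q7.LK.Fits 2 y D₀ (fun _ => 1) q D := by
  have hsum : ∀ v : HeightOneSpectrum (𝓞 F), (∀ i, q i ≠ v) → (∑ i, if q i = v then (1 : ZMod 2) else 0) = 0 :=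
    fun v hv => Finset.sum_eq_zero fun i _ => if_neg (hv i)
  have hsum1 : ∀ j, (∑ i, if q i = q j then (1 : ZMod 2) else 0) = 1 := by
    intro j
    rw [Finset.sum_eq_single j (fun i _ hij => if_neg fun h => hij (hq h)) (fun h => absurd (Finset.mem_univ _) h),
      if_pos rfl]
  constructor
  · intro h
    refine ⟨h.ne, fun v hv => ?_, fun v hv => (loc_iff v _).1 (h.loc v hv)⟩
    by_cases hv' : ∀ i, q i ≠ v
    · rw [(even_iff v D).1 (h.unr v hv hv')]
      exact (hsum v hv').symm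
    · push Not at hv'
      obtain ⟨j, rfl⟩ := hv'
      rw [(odd_iff _ D).1 (h.ram j)]
      exact (hsum1 j).symm
  · intro h
    refine ⟨h.ne, fun v hv hv' => ?_, fun j => ?_, fun v hv => (loc_iff v _).2 (h.loc v hv)⟩
    · rw [even_iff, h.ram v hv]
      exact hsum v hv'
    · rw [odd_iff, h.ram (q j) (hs j)]
      exact hsum1 j

theorem ens_eq (y : ℕ) (D₀ : F) {k : ℕ} (X : Fin k → ℕ) : Ensemble y D₀ X = Q283.FT.Ens y D₀ X := by
  ext q
  constructor
  · rintro ⟨hq, D, hD⟩
    exact ⟨hq, D, (fits_iff hq.1 fun i => (hq.2 i).1).1 hD⟩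
  · rintro ⟨hq, D, hD⟩
    exact ⟨hq, D, (fits_iff hq.1 fun i => (hq.2 i).1).2 hD⟩

end Proof

/-- **Main result.** -/
theorem result (F : Type) [Field F] [NumberField F] (i : F) (hi : i ^ 2 = -1) :
    (∀ e : Fin 3 → F, Function.Injective e → e 0 + e 1 + e 2 = 0 → Finite (ShaTwo e) ∧
      SelmerOrder e (2 ^ (2 + selmerRank e)) ∧ 2 ^ rank e * Nat.card (ShaTwo e) = 2 ^ selmerRank e ∧
      (selmerRank e = 0 ↔ Finite (curve e).toAffine.Point ∧ ∀ (n : ℕ) (x : Sha (curve e)), 2 ^ n • x = 0 → x = 0)) ∧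
    (∀ (e : Fin 3 → F) (m m' : F), Function.Injective e → (¬ ∃ x : F, m * m' = x ^ 2) →
      ¬ Matched (twist m e) (twist m' e)) ∧
    HasSum law 1 ∧ (∀ c, HasSum (parityLaw c) 1) ∧ (0.4194 < parityLaw 0 0 ∧ parityLaw 0 0 < 0.4195) ∧
    ∀ (κ : Type) [Fintype κ] (e : κ → Fin 3 → F), (∀ l, Function.Injective (e l)) →
      (∀ l, e l 0 + e l 1 + e l 2 = 0) → (∀ l, NoCyclicFour (e l)) → (∀ l l', l ≠ l' → ¬ Matched (e l) (e l')) →
      ∃ y₀ : ℕ, ∀ y, y₀ ≤ y → ∀ D₀ : F, D₀ ≠ 0 →
        (∀ D : F, D ≠ 0 → (∀ v : HeightOneSpectrum (𝓞 F), Small y v → SquareAt v (D / D₀)) → ∀ l,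
          (selmerRank (twist D (e l)) : ZMod 2) = selmerRank (twist D₀ (e l))) ∧
        ∀ ε : ℝ, 0 < ε → ∃ k₀ : ℕ, ∀ k, k₀ ≤ k → Nested k fun X =>
          (Ensemble y D₀ X).Finite ∧ (Ensemble y D₀ X).Nonempty ∧
          (∀ q ∈ Ensemble y D₀ X, ∀ D D', Fits y D₀ q D → Fits y D₀ q D' →
            (∃ x : F, D' = D * x ^ 2) ∧ ∀ l, selmerRank (twist D' (e l)) = selmerRank (twist D (e l))) ∧
          ∀ 𝒜 : Set (κ → ℕ),
            |share {q ∈ Ensemble y D₀ X | ∀ D, Fits y D₀ q D → (fun l => selmerRank (twist D (e l))) ∈ 𝒜}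
              (Ensemble y D₀ X) -
              ∑' g : κ → ℕ, if g ∈ 𝒜 then ∏ l, parityLaw (selmerRank (twist D₀ (e l))) (g l) else 0| ≤ ε := by
  have hnmc := Q283.FT.t_NMC
  obtain ⟨hA, hB⟩ := Q283.FT.t_FMAIN F i hi
  refine ⟨fun e he hs => ?_, fun e m m' he h => not_matched hi he h, ?_, fun c => ?_, ?_, ?_⟩
  · obtain ⟨h1, h2, h3, h4⟩ := hA e ⟨he, hs⟩
    refine ⟨h1, ?_, h3, h4⟩
    rw [add_comm]
    exact h2
  · rw [law_eq]
    exact Pool.Agent.Q269.SL.hasSum_law
  · rw [show parityLaw c = fun e => Q44.JQ.lawc c e from funext (parity_eq c)]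
    exact Q44.JQ.M.hasSum_lawc c
  · rw [parity_eq]
    exact hnmc.1
  intro κ _ e he hs h4 hM
  obtain ⟨y0, hy0⟩ := hB κ e (fun l => ⟨he l, hs l⟩) (fun l => noFour hi (h4 l))
    (fun l l' hll h => hM l l' hll (matched hi h))
  refine ⟨y0, fun y hy D₀ hD₀ => ?_⟩
  obtain ⟨hpar, C, hC⟩ := hy0 y hy D₀ hD₀
  refine ⟨fun D hD hDD l => hpar D hD (fun v hv => (loc_iff v _).1 (hDD v hv)) l, fun ε hε => ?_⟩
  obtain ⟨k0, hk0⟩ := hC ε hε
  refine ⟨k0, fun k hk => (nested_iff k _).mpr (Q7.LK.nest_mono k _ _ (fun X hX => ?_) (hk0 k hk))⟩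
  obtain ⟨hfin, hpos, huniq, hlaw, -⟩ := hX
  rw [ens_eq]
  have hne : (Q283.FT.Ens y D₀ X).Nonempty := by
    rw [← Set.ncard_pos hfin]
    exact_mod_cast hpos
  refine ⟨hfin, hne, fun q hq D D' hD hD' => ?_, fun 𝒜 => ?_⟩
  · have hq1 : Function.Injective q := hq.1.1
    have hq2 : ∀ i, ¬ Small y (q i) := fun i => (hq.1.2 i).1
    obtain ⟨⟨x, hx⟩, h3⟩ := huniq q D D' ((fits_iff hq1 hq2).1 hD) ((fits_iff hq1 hq2).1 hD')
    refine ⟨⟨x, ?_⟩, fun l => (h3 l).2⟩
    rw [← hx, mul_div_cancel₀ _ hD.ne]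
  · have h1 := hlaw 𝒜
    have h2 : {q ∈ Q283.FT.Ens y D₀ X | ∀ D, Fits y D₀ q D → (fun l => selmerRank (twist D (e l))) ∈ 𝒜} =
        {q ∈ Q283.FT.Ens y D₀ X | ∀ D, Q7.LK.Fits 2 y D₀ (fun _ => 1) q D →
          (fun l => Q283.FT.rk2 (Q283.FT.twi D (e l))) ∈ 𝒜} := by
      ext q
      simp only [Set.mem_ofPred_eq]
      constructor
      · rintro ⟨hq, h⟩
        exact ⟨hq, fun D hD => h D ((fits_iff hq.1.1 fun i => (hq.1.2 i).1).2 hD)⟩
      · rintro ⟨hq, h⟩
        exact ⟨hq, fun D hD => h D ((fits_iff hq.1.1 fun i => (hq.1.2 i).1).1 hD)⟩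
    have h3 : (∑' g : κ → ℕ, if g ∈ 𝒜 then ∏ l, parityLaw (selmerRank (twist D₀ (e l))) (g l) else 0) =
        ∑' g : κ → ℕ, if g ∈ 𝒜 then ∏ l, Q44.JQ.lawc (Q283.FT.par D₀ (e l)) (g l) else 0 := by
      simp only [parity_eq]
      rfl
    rw [h2, h3]
    unfold share
    rw [div_sub' hpos.ne', abs_div, abs_of_pos hpos, div_le_iff₀ hpos, mul_comm ((Q283.FT.Ens y D₀ X).ncard : ℝ)]
    exact h1

end Pool.Agent.Results.MP_1a91b9_nt.JointLawNumberFields
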