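import Mathlib
import Pool.Agent.Q7.RL.Model
import Pool.Agent.Q7.RL.ATwo

/-!
# The rank conjecture in an extension where L(E/M, s) has order two

`M/K` is a Galois extension of number fields with group `M ≃ₐ[K] M`, an arbitrary finite group, and
`E` is an elliptic curve over `K` with an integral equation `W` (`IsModel E W`).

The L-functions and ranks are real ones. `LSeries V` is the Euler product `L(E/F, s)` with the right
factors at all primes of `F`, for `Re s > 3/2`; `rank E` is the rank of the group of points.
`Pool.Agent.Q92.RT.twistedL M W φ` is `L(E ⊗ φ, s)` for a class function `φ` of the Galois group: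
`exp ∑ φ(Frob_v ^ n) (α_v ^ n + β_v ^ n) / (n q_v ^ (n s))` over `n ≥ 1` and the primes `v` of `K` which do not
divide `6` and the discriminant of `W` and are unramified in `M`; the finitely many Euler factors left
out have no zeros and poles for `Re s ≥ 1`. `Continues f g` says that `f` is meromorphic on `ℂ` and
equal to `g` for `Re s > 3/2`, and `cont g` is such an `f`; `HasOrder g s₀ n` and `LOrder E s₀ n` say
that `g`, or `L(E, s)`, has a meromorphic continuation to `ℂ`, of order `n` at `s₀`.

The assumptions concern continuation and functional equation only; they are known if `E` is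
automorphic over `M` (Brauer; solvable descent), for instance for every `E` over a totally real or CM
field `K` and suitable `M` (potential modularity). `Pool.Agent.Q92.RT.Automorphic M W 1`: `L(E ⊗ χ, s)`
has a meromorphic continuation for the irreducible characters `χ` of the Galois group, and
`L(E/M^H ⊗ ψ, s)` has one which is holomorphic at `1` for the linear characters `ψ` of the SOLVABLE
subgroups `H`. `FunctionalEquations M W`: the functional equations `Λ(χ, s) = w(χ) Λ(χ̄, 2 - s)` near
`s = 1`, with `w(χ) = 1` for symplectic `χ`.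
-/

set_option autoImplicit false

open NumberField IsDedekindDomain Pool.Agent.H541R3.ART Pool.Agent.W446.AS Pool.Agent.H302R2
  Pool.Agent.H302R3 Pool.Agent.Q7.TZ Pool.Agent.Q7.SZ Pool.Agent.Q92.RT Pool.Agent.W353.NF
  Pool.Agent.H341R2.EC Pool.Agent.Q7.RL

/-- Let `E` be an elliptic curve over the number field `K` and `M/K` a Galois extension such that
`L(E/M, s)` has order `2` at `s = 1`; let `n χ` and `r F` be the orders at `1` of `L(E ⊗ χ, s)` and
`L(E/F, s)`. There is a Galois extension `L/K` in `M` with cyclic or dihedral group: the Galois group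
of `M/L` is the kernel of a linear character `l` of a subgroup `B` of index at most two of the Galois
group, and `w ^ 2` is trivial on `L` for `w ∉ B`; and the following holds.
(1) All `χ` with `n χ ≠ 0` come from the Galois group of `L/K`, and `r F = r (F ∩ L)` for all fields `F`
between `K` and `M`. Moreover `r F = 2` if `F` contains `L`, and `r F` is `0` or `1` if not; in
particular `L(E/F, s)` is holomorphic at `1`.
(2) The rank conjecture holds for `E` over ALL fields between `K` and `M` if and only if `E(M)` and
`E(L)` have rank `2` and it holds for the proper subfields of `L` over `K` (where the order of the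
L-function is at most `1`).
(3) If this is the case, then the cyclic part has order `1`, `2`, `3`, `4` or `6`, and `[L : K] ≤ 12`. -/
theorem Pool.Agent.Results.MP_1a91b9_nt.OrderTwoFields.result
    (K M : Type) [Field K] [NumberField K] [Field M] [NumberField M] [Algebra K M] [IsGalois K M]
    (E : WeierstrassCurve K) (hE : E.IsElliptic) (W : WeierstrassCurve (𝓞 K)) (hW : IsModel E W)
    (a : Automorphic M W 1) (Λ : FunctionalEquations M W)
    (h2 : LOrder (E.map (algebraMap K M)) 1 2) :
    ∃ (n : ((M ≃ₐ[K] M) → ℂ) → ℤ) (r : IntermediateField K M → ℤ), Orders E W 1 n r ∧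
    ∃ (L : IntermediateField K M) (B : Subgroup (M ≃ₐ[K] M)) (l : B →* ℂˣ),
      IsGalois K L ∧ B.index ≤ 2 ∧ L.fixingSubgroup ≤ B ∧
      (∀ b : B, l b = 1 ↔ (b : M ≃ₐ[K] M) ∈ L.fixingSubgroup) ∧
      (∀ w, w ∉ B → w * w ∈ L.fixingSubgroup) ∧
      (∀ χ ∈ Irr (M ≃ₐ[K] M), n χ ≠ 0 → ∀ x ∈ L.fixingSubgroup, χ x = χ 1) ∧
      (∀ F, r F = r (F ⊓ L)) ∧
      (∀ F, (L ≤ F → r F = 2) ∧ (¬ L ≤ F → r F = 0 ∨ r F = 1)) ∧
      ((∀ F : IntermediateField K M, r F = rank (E.map (algebraMap K F))) ↔
        rank (E.map (algebraMap K M)) = 2 ∧ rank (E.map (algebraMap K L)) = 2 ∧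
          ∀ F : IntermediateField K M, F < L → r F = rank (E.map (algebraMap K F))) ∧
      ((∀ F : IntermediateField K M, r F = rank (E.map (algebraMap K F))) →
        Nat.card l.range ∈ ({1, 2, 3, 4, 6} : Set ℕ) ∧ Module.finrank K L ≤ 12) := by
  classical
  obtain ⟨n, r, ho⟩ := exists_orders (M := M) hE hW (by simp) a
  refine ⟨n, r, ho, ?_⟩
  have hM := ho.eq_of_lorder_top hE hW (by simp) a h2
  have hb := ho.mbot hE hW (by simp) a
  rw [hM] at hb
  have hfin : FiniteDimensional ℚ (TensorProduct ℤ ℚ (E.baseChange M).toAffine.Point) :=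
    mw_finite hE
  obtain ⟨N, B, l, hN, hNB, hB, hl, hw, ⟨h3, h4⟩, h5, h6⟩ := abs_two (M ≃ₐ[K] M)
    (TwistData.ofCurve a).model (Λ.model a) hb
  obtain ⟨h7, h8⟩ := h6 (TensorProduct ℤ ℚ (E.baseChange M).toAffine.Point) (mw E M)
  obtain ⟨L, hL, rfl⟩ := exists_galois N
  have key : ∀ F : IntermediateField K M, ∀ k : ℤ,
      meromorphicOrderAt ((TwistData.ofCurve a).model.Lin F.fixingSubgroup 1) 1 =
        (k : WithTop ℤ) ↔ r F = k := by
    intro F k
    rw [ho.mlin hE hW (by simp) a F]
    exact WithTop.coe_eq_coe
  refine ⟨L, B, l, hL, hB, hNB, hl, hw, fun χ hχ hne => ?_, fun F => ?_, fun F => ⟨fun h => ?_,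
    fun h => ?_⟩, ?_, fun h => ?_⟩
  · refine h3 χ hχ fun h0 => hne ?_
    rw [ho.mL a hχ] at h0
    exact_mod_cast h0
  · have h9 := h4 F.fixingSubgroup
    rw [← fixingSubgroup_inf, ho.mlin hE hW (by simp) a, ho.mlin hE hW (by simp) a] at h9
    exact_mod_cast h9.symm
  · exact (key F 2).1 ((h5 F.fixingSubgroup).1 (fixing_le_iff.2 h))
  · rcases (h5 F.fixingSubgroup).2 (fun h9 => h (fixing_le_iff.1 h9)) with h9 | h9
    · exact Or.inl ((key F 0).1 h9)
    · exact Or.inr ((key F 1).1 h9)
  · rw [← ho.rankHolds_all hE hW a, h7, rk_mw_bot, rk_mw L]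
    refine and_congr_right fun _ => and_congr_right fun _ => ?_
    constructor
    · intro h9 F hF
      refine (ho.rankHolds hE hW a F).1 (h9 F.fixingSubgroup ?_)
      exact lt_of_le_not_ge (fixing_le_iff.2 hF.le) fun h10 => hF.not_ge (fixing_le_iff.1 h10)
    · intro h9 H hH
      obtain ⟨F, rfl⟩ := exists_fixing H
      refine (ho.rankHolds hE hW a F).2 (h9 F ?_)
      exact lt_of_le_not_ge (fixing_le_iff.1 hH.le) fun h10 => hH.not_ge (fixing_le_iff.2 h10)
  · have h9 := h8 ((ho.rankHolds_all hE hW a).2 h)
    refine ⟨h9, ?_⟩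
    rw [finrank_eq_index, ← Subgroup.relIndex_mul_index hNB]
    have h10 : L.fixingSubgroup.relIndex B = Nat.card l.range := by
      have h11 : L.fixingSubgroup.subgroupOf B = l.ker := by
        ext b
        rw [Subgroup.mem_subgroupOf, MonoidHom.mem_ker, hl b]
      unfold Subgroup.relIndex
      rw [h11]
      exact Subgroup.index_ker l
    rw [h10]
    have h12 : Nat.card l.range ≤ 6 := by
      simp only [Set.mem_insert_iff, Set.mem_singleton_iff] at h9
      omega
    calc Nat.card l.range * B.index ≤ 6 * 2 := Nat.mul_le_mul h12 hB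
      _ = 12 := by norm_num
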