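import Pool.Agent.Q161.ESN.QuadC

/-!
# The ranks of elliptic curves over ALL quadratic extensions of a number field

Let `F` be any number field and `E_i : y² = x³ + a_i x + b_i`, `1 ≤ i ≤ r`, elliptic curves over `F` without `F`-rational
point of order two.  For a number field `K ⊇ F` let `R(K)` be the sum of the ranks of the `E_i(K)`.  We prove that in the
family of ALL quadratic extensions `K` of `F`, ordered by the absolute value of the discriminant, all exponential moments of
`R(K)`, so also all moments, are bounded; in particular the average of `R(K)` is bounded.  (The number of these `K` up to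
isomorphism, of discriminant at most `X`, is between `X/C` and `C X`.)

Proof.  `K = F(√D)`, and `rank E(K) ≤ rank E(F) + rank E_D(F)`, `E_D` the quadratic twist.  The norm of the product of the
primes at which `D` has odd valuation is at most the discriminant (these primes are ramified), and at least a constant
times it (`Pool/Agent/Q161/ESN/QuadB.lean`); isomorphism classes of `K` correspond to classes of nonsquares `D` modulo
squares.  The moments over all quadratic twists are those of projects ESM, ESF, ESN (`Pool/Agent/Q161`): the 2-descent over
`F`, a system of quadratic characters of ray classes attached to the elements of a finite semisimple Galois module, and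
high moments of these characters.
Project of helper161 with helpers 14, 24, 26, 38, 63, 65, 68, 79, 92, 96, 121, 123, 124, 129, 147, 149, 150, 151, 153, 166,
177, 182, 184, 190, 193, 195, 208, 211, 223, 224, 237, 238, 241, 261, 275, 285, 299.
-/

set_option autoImplicit false

namespace Pool.Agent.Results.MP_1a91b9_nt.QuadraticExtensions

open Finset NumberField Pool.Agent.Q161.ESN.Quad

open scoped Classical

/-- Let `F` be any number field.  (A) There is a `C > 0` such that for all `X ≥ C` there are complete families of the
quadratic extensions `K` of `F` with `|discriminant| ≤ X`, each isomorphism class over `F` once, and they have between `X/C`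
and `C X` members.  (B) Let `E_i : y² = x³ + a_i x + b_i`, `1 ≤ i ≤ r`, be elliptic curves over `F` without `F`-rational points
of order two, and `R(K)` the sum of the ranks of the `E_i(K)`.  For every `k` there is a `C > 0` such that for all `X ≥ 1` and
all families of `n` quadratic extensions `K` of `F`, not isomorphic over `F`, of discriminants at most `X`: (1) the sum of
`2^(k R(K))` is at most `C X`; (2) the sum of `R(K)^k` is at most `C X`; (3) for all `m` at most `C X / 2^(k m)` of the `K`
satisfy `R(K) ≥ m`; (4) `k` times the sum of `R(K)` is at most `n log_2 (C X / n)`, if `n > 0`; (5) if the family is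
complete, the means of `2^(k R(K))` and of `R(K)^k` are at most `C` and the proportion of the `K` with `R(K) ≥ m` is at most
`C / 2^(k m)`. -/
theorem result (F : Type) [Field F] [NumberField F] :
    (∃ C : ℝ, 0 < C ∧ ∀ X : ℝ, C ≤ X →
      (∃ (n : ℕ) (K : Fin n → Type) (_ : ∀ i, Field (K i)) (_ : ∀ i, NumberField (K i))
        (_ : ∀ i, Algebra F (K i)), AllQuadratic F X K) ∧
      ∀ (n : ℕ) (K : Fin n → Type) [∀ i, Field (K i)] [∀ i, NumberField (K i)]
        [∀ i, Algebra F (K i)], AllQuadratic F X K → X / C ≤ n ∧ (n : ℝ) ≤ C * X) ∧
    ∀ (r : ℕ) (a b : Fin r → F), (∀ i, ∀ x : F, x ^ 3 + a i * x + b i ≠ 0) → ∀ k : ℕ,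
      ∃ C : ℝ, 0 < C ∧ ∀ (X : ℝ) (n : ℕ) (K : Fin n → Type) [∀ i, Field (K i)]
        [∀ i, NumberField (K i)] [∀ i, Algebra F (K i)], 1 ≤ X →
        (Quadratic F X K → (∑ i, (2 : ℝ) ^ (k * rankOver a b (K i)) ≤ C * X) ∧
          (∑ i, (rankOver a b (K i) : ℝ) ^ k ≤ C * X) ∧
          (∀ m : ℕ, ((univ.filter (fun i => m ≤ rankOver a b (K i))).card : ℝ) ≤
            C * X / 2 ^ (k * m)) ∧
          (0 < n → k * ∑ i, (rankOver a b (K i) : ℝ) ≤ n * Real.logb 2 (C * X / n))) ∧
        (AllQuadratic F X K → (∑ i, (2 : ℝ) ^ (k * rankOver a b (K i)) ≤ C * n) ∧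
          (∑ i, (rankOver a b (K i) : ℝ) ^ k ≤ C * n) ∧
          ∀ m : ℕ, ((univ.filter (fun i => m ≤ rankOver a b (K i))).card : ℝ) ≤
            C * n / 2 ^ (k * m)) :=
  ⟨number F, fun r a b h k => main F r a b h k⟩

end Pool.Agent.Results.MP_1a91b9_nt.QuadraticExtensions
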