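import Pool.Agent.Q5.RW.Bsd

/-!
# Order of vanishing and rank: the number fields without automorphisms, of large rank, suffice

`E` is an elliptic curve over a number field `K`, and `F` runs through finite extensions of `K`.  The
minimal models `V` and the Euler product `LSeries V s` with the correct factors at all primes are those of
`Pool.Agent.TH322.BC.Defs`.
-/

set_option autoImplicit false

namespace Pool.Agent.Results.MP_1a91b9_nt.RigidFieldsOfLargeRank

open NumberField IsDedekindDomain
open Pool.Agent.TH322.BC.Edge (MinimalModels)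

/-- The identity is the only automorphism of the field `F`. -/
def NoAutomorphisms (F : Type) [Field F] : Prop :=
  ∀ (τ : F ≃+* F) (x : F), τ x = x

/-- The rank of the group `E(F)`. -/
noncomputable def rank {F : Type} [Field F] (E : WeierstrassCurve F) : ℕ := by
  classical
  exact Module.finrank ℤ E.toAffine.Point

/-- The domains on which the `L`-functions are considered: a nonempty family of connected open sets which
contain the half plane `Re s > 3/2` and the point `1`, closed under intersections.  For example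
`U = {ℂ}`, or the half planes `Re s > σ` with `σ < 1`. -/
def IsDomains (U : Set (Set ℂ)) : Prop :=
  U.Nonempty ∧ (∀ u ∈ U, IsOpen u ∧ IsPreconnected u ∧ (1 : ℂ) ∈ u ∧ ∀ s : ℂ, 3 / 2 < s.re → s ∈ u) ∧
    ∀ u ∈ U, ∀ u' ∈ U, u ∩ u' ∈ U

/-- The rank conjecture for `E/F`: `L(E/F, s)` has a meromorphic continuation to a domain in `U`, and
its order at `s = 1` is the rank of `E(F)`. -/
def BSD (U : Set (Set ℂ)) {F : Type} [Field F] [NumberField F] (E : WeierstrassCurve F) : Prop :=
  ∀ V : HeightOneSpectrum (𝓞 F) → WeierstrassCurve (𝓞 F), MinimalModels E V →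
    ∃ u ∈ U, ∃ f : ℂ → ℂ, MeromorphicOn f u ∧
      (∀ s : ℂ, 3 / 2 < s.re → f s = Pool.Agent.TH322.BC.Edge.LSeries V s) ∧
      meromorphicOrderAt f 1 = ((rank E : ℤ) : WithTop ℤ)

/-- `L(E/F, s)^t` has a meromorphic continuation to a domain in `U`, and its order at `s = 1` is
`t` times the rank of `E(F)`. -/
def PowerBSD (U : Set (Set ℂ)) {F : Type} [Field F] [NumberField F] (E : WeierstrassCurve F)
    (t : ℕ) : Prop :=
  ∀ V : HeightOneSpectrum (𝓞 F) → WeierstrassCurve (𝓞 F), MinimalModels E V →
    ∃ u ∈ U, ∃ f : ℂ → ℂ, MeromorphicOn f u ∧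
      (∀ s : ℂ, 3 / 2 < s.re → f s = Pool.Agent.TH322.BC.Edge.LSeries V s ^ t) ∧
      meromorphicOrderAt f 1 = ((t * rank E : ℤ) : WithTop ℤ)

/-- `L(E/F, s)` has a meromorphic continuation to a domain in `U`. -/
def Continues (U : Set (Set ℂ)) {F : Type} [Field F] [NumberField F] (E : WeierstrassCurve F) :
    Prop :=
  ∀ V : HeightOneSpectrum (𝓞 F) → WeierstrassCurve (𝓞 F), MinimalModels E V →
    ∃ u ∈ U, ∃ f : ℂ → ℂ, MeromorphicOn f u ∧
      ∀ s : ℂ, 3 / 2 < s.re → f s = Pool.Agent.TH322.BC.Edge.LSeries V s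

/-- A set of positive integers closed under multiples, with greatest common divisor `1`; for example
the multiples of `10^100` together with the multiples of `3^100`, or all `n ≥ 10^100`. -/
def IsSparse (D : Set ℕ) : Prop :=
  (∀ d ∈ D, ∀ n : ℕ, 0 < n → d * n ∈ D) ∧ ∀ g : ℕ, (∀ d ∈ D, g ∣ d) → g = 1

/-- The number of the `K`-embeddings of `F` into the algebraic closure of `K` which are fixed by `σ`:
the permutation character of `F/K`. -/
noncomputable def fixedEmbeddings (K F : Type) [Field K] [Field F] [Algebra K F]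
    (σ : AlgebraicClosure K ≃ₐ[K] AlgebraicClosure K) : ℕ :=
  Nat.card {i : F →ₐ[K] AlgebraicClosure K // ∀ x, σ (i x) = i x}

/-- A family of finite extensions of `K` inside the algebraic closure is wide if it is closed under
passing to larger finite extensions, and every automorphism of the algebraic closure over `K` fixes all
elements of some member of the family. -/
def Wide (K : Type) [Field K] (𝓕 : Set (IntermediateField K (AlgebraicClosure K))) : Prop :=
  (∀ F ∈ 𝓕, FiniteDimensional K F) ∧
  (∀ F ∈ 𝓕, ∀ F' : IntermediateField K (AlgebraicClosure K), FiniteDimensional K F' → F ≤ F' →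
    F' ∈ 𝓕) ∧
  ∀ σ : AlgebraicClosure K ≃ₐ[K] AlgebraicClosure K, ∃ F ∈ 𝓕, ∀ x ∈ F, σ x = x

/-- An elliptic curve whose invariant `j` is different from `0` and `1728`. -/
def Generic {F : Type} [Field F] (E : WeierstrassCurve F) : Prop :=
  E.IsElliptic ∧ E.c₄ ≠ 0 ∧ E.c₆ ≠ 0

/-- The fields without automorphisms, with degree in `D`, suffice. -/
def DegreeLaw (U : Set (Set ℂ)) : Prop :=
  ∀ D : Set ℕ, IsSparse D →
    (∀ (K : Type) [Field K] [NumberField K] (E : WeierstrassCurve K), E.IsElliptic →
      (∀ (F : Type) [Field F] [NumberField F] [Algebra K F], NoAutomorphisms F →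
        Module.finrank K F ∈ D → BSD U (E.map (algebraMap K F))) →
      ∀ (F : Type) [Field F] [NumberField F] [Algebra K F], BSD U (E.map (algebraMap K F))) ∧
    ((∀ (F : Type) [Field F] [NumberField F] (E : WeierstrassCurve F), E.IsElliptic →
        NoAutomorphisms F → Module.finrank ℚ F ∈ D → BSD U E) →
      ∀ (F : Type) [Field F] [NumberField F] (E : WeierstrassCurve F), E.IsElliptic → BSD U E)

/-- The fields without automorphisms over which the rank is large suffice. -/
def RankLaw (U : Set (Set ℂ)) : Prop :=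
  ∀ R M : ℕ, 0 < M →
    (∀ (K : Type) [Field K] [NumberField K] (E : WeierstrassCurve K), Generic E →
      (∀ (F : Type) [Field F] [NumberField F] [Algebra K F], NoAutomorphisms F →
        M ∣ Module.finrank K F → R ≤ rank (E.map (algebraMap K F)) →
        BSD U (E.map (algebraMap K F))) →
      ∀ (F : Type) [Field F] [NumberField F] [Algebra K F],
        (∃ m : ℕ, 0 < m ∧ PowerBSD U (E.map (algebraMap K F)) m) ∧
        (Continues U (E.map (algebraMap K F)) → BSD U (E.map (algebraMap K F)))) ∧
    ((∀ (F : Type) [Field F] [NumberField F] (E : WeierstrassCurve F), Generic E →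
        NoAutomorphisms F → M ∣ Module.finrank ℚ F → R ≤ rank E → BSD U E) →
      ∀ (F : Type) [Field F] [NumberField F] (E : WeierstrassCurve F), Generic E →
        Continues U E → BSD U E)

/-- In a wide family the members without automorphisms suffice. -/
def WideLaw (U : Set (Set ℂ)) : Prop :=
  ∀ (K : Type) [Field K] [NumberField K]
    (𝓕 : Set (IntermediateField K (AlgebraicClosure K))), Wide K 𝓕 →
    ∃ m : ℕ, 0 < m ∧ ∀ E : WeierstrassCurve K, E.IsElliptic →
      (∀ F ∈ 𝓕, NoAutomorphisms F → ∀ [NumberField F], BSD U (E.map (algebraMap K F))) →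
      PowerBSD U E m ∧ (Continues U E → BSD U E)

/-- Unconditional: some positive multiple of the trivial character is an integral combination of the
permutation characters of members without automorphisms of a given wide family; and the finite
extensions `F/K` with `rank E(F) ≥ R` and `M ∣ [F:K]` form a wide family. -/
def Characters : Prop :=
  ∀ (K : Type) [Field K] [NumberField K],
    (∀ 𝓕 : Set (IntermediateField K (AlgebraicClosure K)), Wide K 𝓕 →
      ∃ m : ℕ, 0 < m ∧
      ∃ (k : ℕ) (X : Fin k → IntermediateField K (AlgebraicClosure K)) (n : Fin k → ℤ),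
        (∀ j, X j ∈ 𝓕 ∧ NoAutomorphisms (X j)) ∧
        ∀ σ : AlgebraicClosure K ≃ₐ[K] AlgebraicClosure K,
          ∑ j, n j * (fixedEmbeddings K (X j) σ : ℤ) = m) ∧
    ∀ E : WeierstrassCurve K, Generic E → ∀ R M : ℕ, 0 < M →
      Wide K {F | FiniteDimensional K F ∧ R ≤ rank (E.map (algebraMap K F)) ∧
        M ∣ Module.finrank K F}

theorem powerBSD_iff (U : Set (Set ℂ)) {F : Type} [Field F] [NumberField F]
    (E : WeierstrassCurve F) (t : ℕ) : PowerBSD U E t ↔
      Pool.Agent.Q5.BR.AllB U E (t : ℤ) (t * Pool.Agent.Q5.BR.rk E) := by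
  unfold PowerBSD Pool.Agent.Q5.BR.AllB Pool.Agent.Q5.BR.PowB
  simp only [zpow_natCast]
  rfl

theorem bsd_iff (U : Set (Set ℂ)) {F : Type} [Field F] [NumberField F]
    (E : WeierstrassCurve F) : BSD U E ↔
      Pool.Agent.Q5.BR.AllB U E ((1 : ℕ) : ℤ) (((1 : ℕ) : ℤ) * Pool.Agent.Q5.BR.rk E) := by
  unfold BSD Pool.Agent.Q5.BR.AllB Pool.Agent.Q5.BR.PowB
  simp only [Nat.cast_one, zpow_one, one_mul]
  rfl

theorem fixed_eq (K F : Type) [Field K] [NumberField K] [Field F] [Algebra K F]
    (σ : AlgebraicClosure K ≃ₐ[K] AlgebraicClosure K) :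
    fixedEmbeddings K F σ = Pool.Agent.W353.NF.fixn K F σ := by
  unfold fixedEmbeddings Pool.Agent.W353.NF.fixn
  refine Nat.card_congr (Equiv.subtypeEquivRight fun i => ⟨fun h => AlgHom.ext fun x => h x,
    fun h x => DFunLike.congr_fun h x⟩)

/-- **The rank conjecture over number fields follows from its case of number fields without
automorphisms**, where in addition the degree may be restricted to a sparse set (1); or, for `j ≠ 0, 1728`
and `L`-functions with a continuation, the rank may be assumed to be at least `R` and the degree divisible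
by `M` (2); or, in general, to a given wide family (3).  The unconditional theorem on the permutation
characters is (4). -/
theorem result (U : Set (Set ℂ)) (hU : IsDomains U) :
    DegreeLaw U ∧ RankLaw U ∧ WideLaw U ∧ Characters := by
  have hU' : Pool.Agent.Q5.BR.IsDomains U := hU
  have cont : ∀ (F : Type) [Field F] [NumberField F] (E : WeierstrassCurve F) (m : ℕ), m ≠ 0 →
      PowerBSD U E m → Continues U E → BSD U E := by
    intro F _ _ E m hm h hc V hV
    rw [powerBSD_iff] at h
    obtain ⟨u, hu, f, hf, hf'⟩ := hc V hV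
    exact ⟨u, hu, f, hf, hf', Pool.Agent.Q5.BR.order_of_power hU' hm (h V hV) hu hf hf'⟩
  have law : ∀ D : Set ℕ, IsSparse D →
      ∀ (K : Type) [Field K] [NumberField K] (E : WeierstrassCurve K), E.IsElliptic →
      (∀ (F : Type) [Field F] [NumberField F] [Algebra K F], NoAutomorphisms F →
        Module.finrank K F ∈ D → BSD U (E.map (algebraMap K F))) →
      ∀ (F : Type) [Field F] [NumberField F] [Algebra K F], BSD U (E.map (algebraMap K F)) := by
    intro D hD K _ _ E hE h F _ _ _
    rw [bsd_iff]
    exact_mod_cast Pool.Agent.Q5.RF.gen_rigid_law (Pool.Agent.Q5.RW.bsd_isLaw hU' hE) hD.1 hD.2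
      (fun F' _ _ _ hr hd => by
        have h2 := h F' hr hd
        rw [bsd_iff] at h2
        exact_mod_cast h2) F
  have wide : WideLaw U := by
    intro K _ _ 𝓕 hF
    obtain ⟨m, hm, h⟩ := Pool.Agent.Q5.RW.wide_rigid_law (𝓕 := 𝓕) hF
    refine ⟨m, hm, fun E hE hb => ?_⟩
    have h1 := h _ (Pool.Agent.Q5.RW.bsd_isLaw hU' hE) (fun F hFm hr hnf => by
      have h2 := @hb F hFm hr hnf
      rw [bsd_iff] at h2
      exact_mod_cast h2)
    have h3 : PowerBSD U E m := by
      rw [powerBSD_iff]
      simp only [Algebra.algebraMap_self, WeierstrassCurve.map_id] at h1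
      exact h1
    exact ⟨h3, cont K E m hm.ne' h3⟩
  have wr : ∀ (K : Type) [Field K] [NumberField K] (E : WeierstrassCurve K), Generic E →
      ∀ R M : ℕ, 0 < M → Wide K {F | FiniteDimensional K F ∧
        R ≤ rank (E.map (algebraMap K F)) ∧ M ∣ Module.finrank K F} := by
    intro K _ _ E hE R M hM
    have hw := (Pool.Agent.Q5.HR.wide_rank hE.1 hE.2.1 hE.2.2 R).inter
      (Pool.Agent.Q5.HR.wide_deg (K := K) hM)
    have he : ({F : IntermediateField K (AlgebraicClosure K) | FiniteDimensional K F ∧
        R ≤ rank (E.map (algebraMap K F)) ∧ M ∣ Module.finrank K F}) =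
        {F : IntermediateField K (AlgebraicClosure K) | FiniteDimensional K F ∧
          R ≤ Pool.Agent.Q5.BR.rk (E.map (algebraMap K F))} ∩
        {F : IntermediateField K (AlgebraicClosure K) | FiniteDimensional K F ∧
          M ∣ Module.finrank K F} := by
      ext F
      exact ⟨fun h => ⟨⟨h.1, h.2.1⟩, ⟨h.1, h.2.2⟩⟩, fun h => ⟨h.1.1, h.1.2, h.2.2⟩⟩
    rw [he]
    exact hw
  have gmap : ∀ (K F : Type) [Field K] [NumberField K] [Field F] [NumberField F] [Algebra K F]
      (E : WeierstrassCurve K), Generic E → Generic (E.map (algebraMap K F)) := by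
    intro K F _ _ _ _ _ E hE
    have hE1 := hE.1
    refine ⟨inferInstance, ?_, ?_⟩
    · rw [WeierstrassCurve.map_c₄]
      exact (map_ne_zero_iff _ (algebraMap K F).injective).2 hE.2.1
    · rw [WeierstrassCurve.map_c₆]
      exact (map_ne_zero_iff _ (algebraMap K F).injective).2 hE.2.2
  have rlaw : ∀ R M : ℕ, 0 < M →
      ∀ (K : Type) [Field K] [NumberField K] (E : WeierstrassCurve K), Generic E →
      (∀ (F : Type) [Field F] [NumberField F] [Algebra K F], NoAutomorphisms F →
        M ∣ Module.finrank K F → R ≤ rank (E.map (algebraMap K F)) →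
        BSD U (E.map (algebraMap K F))) →
      (∃ m : ℕ, 0 < m ∧ PowerBSD U E m) ∧ (Continues U E → BSD U E) := by
    intro R M hM K _ _ E hE h
    obtain ⟨m, hm, h1⟩ := wide K _ (wr K E hE R M hM)
    have h2 := h1 E hE.1 (fun F hFm hr => by
      intro hnf
      exact h F hr hFm.2.2 hFm.2.1)
    exact ⟨⟨m, hm, h2.1⟩, h2.2⟩
  refine ⟨fun D hD => ⟨law D hD, ?_⟩, fun R M hM => ⟨?_, ?_⟩, wide, fun K _ _ => ⟨?_, wr K⟩⟩
  · intro h F _ _ E hE
    have h1 := law D hD F E hE (fun F' _ _ _ hr hd => h F' _ inferInstance hr (by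
      rw [← Module.finrank_mul_finrank ℚ F F', mul_comm]
      exact hD.1 _ hd _ Module.finrank_pos)) F
    rw [Algebra.algebraMap_self, WeierstrassCurve.map_id] at h1
    exact h1
  · intro K _ _ E hE h F _ _ _
    refine rlaw R M hM F (E.map (algebraMap K F)) (gmap K F E hE) ?_
    intro X _ _ _ hr hd hR
    let _ : Algebra K X := ((algebraMap F X).comp (algebraMap K F)).toAlgebra
    have hst : IsScalarTower K F X := IsScalarTower.of_algebraMap_eq fun x => rfl
    rw [WeierstrassCurve.map_map] at hR ⊢
    refine h X hr ?_ hR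
    rw [← Module.finrank_mul_finrank K F X]
    exact hd.mul_left _
  · intro h K _ _ E hE
    refine (rlaw R M hM K E hE ?_).2
    intro F _ _ _ hr hd hR
    refine h F _ (gmap K F E hE) hr ?_ hR
    rw [← Module.finrank_mul_finrank ℚ K F]
    exact hd.mul_left _
  · intro 𝓕 hF
    obtain ⟨m, hm, k, X, n, hX, hrel⟩ := Pool.Agent.Q5.RW.wide_rigid_relation (𝓕 := 𝓕) hF
    refine ⟨m, hm, k, X, n, hX, fun σ => ?_⟩
    rw [← hrel σ]
    exact Finset.sum_congr rfl fun j _ => by rw [fixed_eq]

end Pool.Agent.Results.MP_1a91b9_nt.RigidFieldsOfLargeRank
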