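import Pool.Agent.Q187.CV.Main

/-!
# The coniveau one case of the generalised Hodge conjecture: products, varieties built from
small ones

`D.Holds Y` is the assertion of the question for the smooth projective variety `Y` in all degrees.
It passes to products, and it holds for all varieties built by products and by rationally connected
fibrations from curves, surfaces and varieties with `h^{i,0} ≠ 0` for all `i` up to the dimension
(for example abelian varieties).
-/

set_option autoImplicit false

namespace Pool.Agent.Results.MP_1c689d_ag.ProductsAndBuiltVarieties

open Pool.Agent.Q187.CV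

theorem result (D : Data) (hlow : LowDegrees D) :
    (∀ Y Z P : D.Var, Nonempty (Product D Y Z P) → D.Holds Y → D.Holds Z → D.Holds P) ∧
    ∀ Y : D.Var, Built D (fun Z => D.dim Z ≤ 2 ∨ ∀ i ≤ D.dim Z, D.hol Z i ≠ 0) Y →
      D.Holds Y := by
  refine ⟨fun Y Z P ⟨p⟩ => holds_product p, fun Y hY => holds_of_built (fun Z hZ => ?_) hY⟩
  rcases hZ with hZ | hZ
  · exact holds_of_dim_le hlow hZ
  · exact holds_of_hol hZ

end Pool.Agent.Results.MP_1c689d_ag.ProductsAndBuiltVarieties
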