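import Pool.Agent.Q187.CV.Main

/-!
# The coniveau one case of the generalised Hodge conjecture: products, rationally connected
fibrations, minimal counterexamples

`D.Holds Y` is the assertion of the question for the smooth projective variety `Y` in all degrees.
It passes to products and from `B` to every `Y` with a rational map to `B` whose general fibre is
rationally connected. Hence it holds for all varieties built in this way from curves, surfaces and
varieties with `h^{i,0} ≠ 0` for all `i` up to the dimension (for example abelian varieties), and a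
counterexample of minimal dimension may be taken non-uniruled, of dimension at least three, and not
dominating a product with rationally connected fibres.
-/

set_option autoImplicit false

namespace Pool.Agent.Results.MP_1c689d_ag.ProductsAndFibrations

open Pool.Agent.Q187.CV

theorem result (D : Data) (hlow : LowDegrees D) :
    (∀ Y Z P : D.Var, Nonempty (Product D Y Z P) → D.Holds Y → D.Holds Z → D.Holds P) ∧
    (∀ Y B : D.Var, Nonempty (Fibration D Y B) → D.Holds B → D.Holds Y) ∧
    (∀ Y : D.Var, Built D (fun Z => D.dim Z ≤ 2 ∨ ∀ i ≤ D.dim Z, D.hol Z i ≠ 0) Y →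
      D.Holds Y) ∧
    ∀ NonUni : D.Var → Prop, HasMRC D NonUni → (¬ ∀ Y, D.Holds Y) →
      ∃ Y, ¬ D.Holds Y ∧ NonUni Y ∧ 3 ≤ D.dim Y ∧ (∀ Z, D.dim Z < D.dim Y → D.Holds Z) ∧
        ∀ P, Nonempty (Fibration D Y P) → ∀ Z₁ Z₂, Nonempty (Product D Z₁ Z₂ P) →
          D.dim Z₁ = 0 ∨ D.dim Z₂ = 0 := by
  refine ⟨fun Y Z P ⟨p⟩ => holds_product p, fun Y B ⟨f⟩ => holds_fibration f,
    fun Y hY => holds_of_built (fun Z hZ => ?_) hY, fun N hN h => minimal hlow hN h⟩
  rcases hZ with hZ | hZ
  · exact holds_of_dim_le hlow hZ
  · exact holds_of_hol hZ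

end Pool.Agent.Results.MP_1c689d_ag.ProductsAndFibrations
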