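import Pool.Agent.Q194.LipNet.Main

/-!
# `Lip_0` of a net is isomorphic to its countable `ℓ_∞`-sum

Full (positive) answer to Q1 of MP_1d1573_an. The Banach space `Lip0 M o` of Lipschitz functions on a
metric space `M` vanishing at `o`, normed by the least Lipschitz constant, is defined in
`Pool/Agent/H266R3/LDef.lean`. The `ℓ_∞`-sum is Mathlib's `lp (fun _ : ℕ => E) ∞`.

Proof. By the decomposition method it is enough to complement the `ℓ_∞`-sum in `Lip_0(N)`. Around
far away centres `c_i` one places dilated and rounded copies `p ↦ rnd (c_i + Λ (p - o))` of the net, which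
are Lipschitz retracts via `q ↦ rnd (o + Λ⁻¹ (q - c_i))`; the functions `f_j` are cut off by bumps of
radius comparable to `i` and copied near the centres `c_i` with `i = (j, m)`, and recovered by a limit
along an ultrafilter in `m`.
-/

set_option autoImplicit false

namespace Pool.Agent.Results.MP_1d1573_an.NetLinfSum

open scoped ENNReal
open Pool.Agent.H266R3.LF

/-- Let `X` be a real normed space and `N ⊆ X` a net in `X` (distinct points of `N` are at distance at
least `ε > 0` and every point of `X` is at distance less than `δ` from `N`), with any base point `o ∈ N`.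
Then `Lip_0(N)` is linearly isomorphic to `⊕_{ℓ_∞} Lip_0(N)`. -/
theorem result (X : Type) [NormedAddCommGroup X] [NormedSpace ℝ X] (N : Set X) (ε δ : ℝ)
    (hε : 0 < ε) (hδ : 0 < δ) (hsep : ∀ x ∈ N, ∀ y ∈ N, x ≠ y → ε ≤ dist x y)
    (hden : ∀ x : X, ∃ y ∈ N, dist x y < δ) (o : N) :
    Nonempty (Lip0 N o ≃L[ℝ] lp (fun _ : ℕ => Lip0 N o) ∞) :=
  Pool.Agent.Q194.LipNet.net_main X N ε δ hε hδ hsep hden o

end Pool.Agent.Results.MP_1d1573_an.NetLinfSum
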