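import Pool.Agent.Q283.LP.V9

/-!
# Abelian varieties over the fields inside almost every integer: two curves which are not isogenous

`E^14_M : y² = x³ + 5805 M² x - 285714 M³` is the quadratic twist by `M` of the curve `X_0(14)`, which has no complex
multiplication, and `E^49_M : y² = x³ - 2835 M² x - 71442 M³` that of the curve `X_0(49)` with complex multiplication by
`ℚ(√-7)`. The twist by `M` is GOOD if its group of rational points is finite and its Tate-Shafarevich group over `ℚ` has no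
element of order two.

`Class`: the squarefree positive integers which are squares modulo `7` and whose prime factors split completely in
`ℚ(i, √2, √-7)` or are `5` modulo `8` and inert in `ℚ(√-7)`. For a positive integer `D` let `divs D` be the set of the members
of the class which divide `D`. The base points `m` are allowed to run through larger sets (`Adm`: for `X_0(14)` the family of
the starting results, of both signs).

THEOREM. There is ONE set `S` of positive integers of NATURAL DENSITY `1`, and of relative density `1` in the set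
`Wide` of the squarefree products of the primes of the class, such that for all large `D` in `S`, `d = (d_1, …, d_n)` running
through the `n`-tuples of elements of `divs D`:
(1) INDEPENDENCE OF THE TWO CURVES AND OF ALL PATTERNS. For every finite family of different triples `(c_j, N_j, T_j)`,
    `c_j` one of the two curves, `N_j` admissible for it, `T_j` a nonempty set of indices: for every set `Q` the
    share of the `d` for which exactly the twists of `c_j` by `N_j ∏_{i ∈ T_j} d_i`, `j ∈ Q`, are good is within `ε` of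
    `κ ^ |Q| (1 - κ) ^ (M - |Q|)`, `κ = ∏ (1 - 2^-(2i+1)) = 0.4194…`; the share of the `d` for which the frequency of the good
    ones differs from `κ` by `η` or more is at most `2 exp (- η² M / 4) + ε`.
(2) ABELIAN VARIETIES. Let `A_1, …, A_r` be products of twists `E^{c_i}_{m_i}` with any `m_i`, without common factors, `g_k` the
    dimension of `A_k`, and `𝒳` any set of nonempty subsets of `{1, …, n}`. For every set `Q` the share of the `d`, independent
    modulo squares, for which exactly the `A_k`, `k ∈ Q`, have only good factors after all the twists by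
    `∏_{i ∈ T} d_i`, `T ∈ 𝒳`, is within `ε` of `∏_{k ∈ Q} κ ^ (g_k |𝒳|) ∏_{k ∉ Q} (1 - κ ^ (g_k |𝒳|))`; law of large numbers for
    `A_k` of the same dimension.
(3) For `𝒳` the set of all the nonempty subsets and `K = ℚ(√d_1, …, √d_n)`: nothing is assumed on the ranks or the
    Tate-Shafarevich groups of the `A_k` over `ℚ`, and for the good `k` the degree of `K` is `2 ^ n`,
    `rank A_k(K) = rank A_k(ℚ)`, `ord_{s=1} L(A_k/K, s) = ord_{s=1} L(A_k/ℚ, s)` (entire functions), so the conjecture for `A_k`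
    over `K` is EQUIVALENT to the conjecture for `A_k` over `ℚ`. This holds for all `k` at once for a share
    `≥ ∏_k κ ^ (g_k (2^n - 1)) - ε`, for one of them at least for a share `≥ 1 - ∏_k (1 - κ ^ (g_k (2^n - 1))) - ε`.
(4) For `𝒳` the set of the subsets of `{0, …, n}` which contain `0` and `K = ℚ(√d_1, …, √d_n)`: for the good `k` the
    twist `A'` of `A_k` by `d_0` has finite `A'(K)`, `L(A'/K, 1) ≠ 0`, `Ш(A'/K)[2^∞]` finite and killed by `2 ^ n`.
(5) UNIFORMITY OF ALL ORDERS. For different pairs `(c_j, N_j)`, `j ≤ M`, the product of the functions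
    `1_good(c_j, N_j d) - κ` on `divs D` has mean product `≤ ε` with every polynomial phase of degree `≤ k`.

Inputs: `Pool/Agent/Q283/J2` (criterion for both curves, analytic separation of the two diagonals), `Pool/Agent/Q283/LP`
(project LP: all linear patterns of divisors; here with two diagonals, files `V1` to `V9`), the sieve `Q155/NL`,
`Y73`, `Y687/MQ` (multiquadratic fields), and the lemma jobs of helper187, 203, 98, 222, 162, 150.
-/

set_option autoImplicit false

open scoped Classical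

namespace Pool.Agent.Results.MP_1d384c_nt.AbelianVarietiesInsideDivisors

open Finset Filter NumberField IsDedekindDomain

/-- the two curves `X_0(14)` and `X_0(49)` -/
inductive Curve
  | X14
  | X49

/-- coefficient of the equation `y² = x³ + A c M x + B c M` of the twist by `M` of the curve `c` -/
def A : Curve → ℤ → ℤ
  | .X14, M => 5805 * M ^ 2
  | .X49, M => -2835 * M ^ 2

/-- coefficient of the equation `y² = x³ + A c M x + B c M` of the twist by `M` of the curve `c` -/
def B : Curve → ℤ → ℤ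
  | .X14, M => -285714 * M ^ 3
  | .X49, M => -71442 * M ^ 3

/-- the twist by `M` of the curve `c`, over the field `K` -/
def E (K : Type) [Field K] (c : Curve) (M : ℤ) : WeierstrassCurve K :=
  { a₁ := 0, a₂ := 0, a₃ := 0, a₄ := (A c M : K), a₆ := (B c M : K) }

/-- the group of the rational points of the twist is finite and its Tate-Shafarevich group over `ℚ` has
no element of order two -/
def Good (c : Curve) (M : ℤ) : Prop :=
  Finite (E ℚ c M).toAffine.Point ∧
    ∀ x : Pool.Agent.TH841.SH.D.Sha (E ℚ c M), 2 • x = 0 → x = 0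

/-- primes which split completely in `ℚ(i, √2, √-7)` -/
def Split (p : ℕ) : Prop := p.Prime ∧ p % 8 = 1 ∧ (p % 7 = 1 ∨ p % 7 = 2 ∨ p % 7 = 4)

/-- primes inert in `ℚ(√2)` and in `ℚ(√-7)` -/
def Inert (q : ℕ) : Prop :=
  q.Prime ∧ (q % 8 = 3 ∨ q % 8 = 5) ∧ (q % 7 = 3 ∨ q % 7 = 5 ∨ q % 7 = 6)

/-- the admissible twists. For `X_0(14)`: squarefree `m` of any sign, `≡ 1 mod 4`, squares modulo `7`,
whose prime factors `p ≠ 3` split completely in `ℚ(i, √2, √-7)` or are inert in `ℚ(√2)` and in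
`ℚ(√-7)`. For `X_0(49)`: squarefree `m > 0` whose prime factors split completely in `ℚ(i, √2, √-7)` or
are `≡ 5 mod 8` and inert in `ℚ(√-7)`. -/
def Adm : Curve → ℤ → Prop
  | .X14, m => Squarefree m ∧ m % 4 = 1 ∧ (m % 7 = 1 ∨ m % 7 = 2 ∨ m % 7 = 4) ∧
      ∀ p : ℕ, p.Prime → (p : ℤ) ∣ m → p ≠ 3 ∧ (Split p ∨ Inert p)
  | .X49, m => Squarefree m ∧ 0 < m ∧
      ∀ p : ℕ, p.Prime → (p : ℤ) ∣ m → Split p ∨ (Inert p ∧ p % 8 = 5)

/-- the class: admissible for both curves -/
def Class (D : ℤ) : Prop := ∀ c : Curve, Adm c D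

/-- the squarefree products of the primes of the class -/
def Wide (D : ℕ) : Prop := Squarefree D ∧ ∀ p : ℕ, p.Prime → p ∣ D → Split p ∨ (Inert p ∧ p % 8 = 5)

/-- the members of the class which divide `D` -/
noncomputable def divs (D : ℕ) : Finset ℕ := D.divisors.filter fun d => Class d

/-- the number of the prime factors of `D` which occur in the class -/
noncomputable def primes (D : ℕ) : ℕ :=
  (D.primeFactors.filter fun p => Split p ∨ (Inert p ∧ p % 8 = 5)).card

/-- the `n`-tuples of members of the class which divide `D` -/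
noncomputable def tuples (n D : ℕ) : Finset (Fin n → ℕ) := Fintype.piFinset fun _ : Fin n => divs D

/-- the share of the tuples with the property `P` -/
noncomputable def share {n : ℕ} (D : ℕ) (P : (Fin n → ℕ) → Prop) : ℝ :=
  (((tuples n D).filter P).card : ℝ) / (tuples n D).card

/-- no product of the `d_i` over a nonempty set is a square -/
def Independent {n : ℕ} (d : Fin n → ℕ) : Prop :=
  ∀ T : Finset (Fin n), T.Nonempty → ¬ IsSquare (∏ i ∈ T, d i)

/-- `K = ℚ(√d_1, …, √d_n)` -/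
def IsField {n : ℕ} (d : Fin n → ℕ) (K : Type) [Field K] [NumberField K] : Prop :=
  ∃ x : Fin n → K, (∀ i, x i ^ 2 = (d i : K)) ∧ IntermediateField.adjoin ℚ (Set.range x) = ⊤

/-- the number `κ = (1 - 1/2) (1 - 1/8) (1 - 1/32) ⋯` -/
noncomputable def κ : ℝ := ∏' i : ℕ, (1 - (1 / 2 : ℝ) ^ (2 * i + 1))

/-- the number `q_v` of elements of the residue field of a finite place `v` of `K` -/
noncomputable def qv (K : Type) [Field K] (v : HeightOneSpectrum (𝓞 K)) : ℕ :=
  Nat.card (𝓞 K ⧸ v.asIdeal)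

/-- `a_v = q_v + 1 - #E(k_v)`, that is `q_v` minus the number of the affine points over `k_v` -/
noncomputable def av (K : Type) [Field K] (c : Curve) (M : ℤ) (v : HeightOneSpectrum (𝓞 K)) : ℤ :=
  (qv K v : ℤ) - Nat.card {z : (𝓞 K ⧸ v.asIdeal) × (𝓞 K ⧸ v.asIdeal) //
    z.2 ^ 2 = z.1 ^ 3 + (A c M : 𝓞 K ⧸ v.asIdeal) * z.1 + (B c M : 𝓞 K ⧸ v.asIdeal)}

/-- `F` is entire and is, for `Re s > 3/2`, the L-function over `K` of the twist by `M` of the curve `c`
without the Euler factors at the places `v ∣ 42 M m` -/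
def IsL (K : Type) [Field K] (c : Curve) (M m : ℤ) (F : ℂ → ℂ) : Prop :=
  Differentiable ℂ F ∧ ∀ s : ℂ, (3 : ℝ) / 2 < s.re →
    HasProd (fun v : HeightOneSpectrum (𝓞 K) =>
      if ((42 * M * m : ℤ) : 𝓞 K) ∈ v.asIdeal then 1 else
        (1 - (av K c M v : ℂ) * (qv K v : ℂ) ^ (-s) + (qv K v : ℂ) ^ (1 - 2 * s))⁻¹) (F s)

/-- `F` is the L-function over `K` of the product of the twists `i ∈ J` -/
def IsLA (K : Type) [Field K] {M : ℕ} (c : Fin M → Curve) (m : Fin M → ℤ) (J : Finset (Fin M)) (e : ℤ)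
    (F : ℂ → ℂ) : Prop :=
  ∃ f : Fin M → ℂ → ℂ, (∀ i ∈ J, IsL K (c i) (m i) e (f i)) ∧ F = fun s => ∏ i ∈ J, f i s

/-- the rank over `K` of the twist -/
noncomputable def rank (K : Type) [Field K] (c : Curve) (M : ℤ) : ℕ :=
  Module.finrank ℤ (E K c M).toAffine.Point

/-- the rank over `K` of the product of the twists `i ∈ J` -/
noncomputable def rankA (K : Type) [Field K] {M : ℕ} (c : Fin M → Curve) (m : Fin M → ℤ)
    (J : Finset (Fin M)) : ℕ := ∑ i ∈ J, rank K (c i) (m i)

/-- the factors of the abelian variety `k` -/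
def factors {M r : ℕ} (v : Fin M → Fin r) (k : Fin r) : Finset (Fin M) := univ.filter fun i => v i = k

/-- all the factors of the abelian variety `k` are good after the twists by the products over the sets of `𝒳` -/
def AllGood {M r n : ℕ} (c : Fin M → Curve) (m : Fin M → ℤ) (v : Fin M → Fin r)
    (𝒳 : Finset (Finset (Fin n))) (k : Fin r) (d : Fin n → ℕ) : Prop :=
  ∀ i ∈ factors v k, ∀ T ∈ 𝒳, Good (c i) (m i * ∏ l ∈ T, (d l : ℤ))

/-- the number of the abelian varieties with `AllGood` -/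
noncomputable def number {M r n : ℕ} (c : Fin M → Curve) (m : Fin M → ℤ) (v : Fin M → Fin r)
    (𝒳 : Finset (Finset (Fin n))) (d : Fin n → ℕ) : ℕ :=
  (univ.filter fun k => AllGood c m v 𝒳 k d).card

/-- the number of the good twists among the `N_j ∏_{i ∈ T_j} d_i` -/
noncomputable def goods {M n : ℕ} (c : Fin M → Curve) (N : Fin M → ℤ) (T : Fin M → Finset (Fin n))
    (d : Fin n → ℕ) : ℕ := (univ.filter fun j => Good (c j) (N j * ∏ i ∈ T j, (d i : ℤ))).card

/-- rank and order of the product `A` of the twists `i ∈ J` are the same over `K = ℚ(√d_1, …, √d_n)` and over `ℚ`;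
the conjecture for `A` over `K` is equivalent to the conjecture for `A` over `ℚ` -/
def Stable {M n : ℕ} (c : Fin M → Curve) (m : Fin M → ℤ) (J : Finset (Fin M)) (d : Fin n → ℕ)
    (K : Type) [Field K] [NumberField K] : Prop :=
  Module.finrank ℚ K = 2 ^ n ∧ (∀ i ∈ J, Module.Finite ℤ (E K (c i) (m i)).toAffine.Point) ∧
    rankA K c m J = rankA ℚ c m J ∧
    ∃ L₀ L : ℂ → ℂ, IsLA ℚ c m J 1 L₀ ∧ IsLA K c m J (∏ l, (d l : ℤ)) L ∧
      analyticOrderAt L 1 = analyticOrderAt L₀ 1 ∧
      (analyticOrderAt L 1 = (rankA K c m J : ℕ∞) ↔ analyticOrderAt L₀ 1 = (rankA ℚ c m J : ℕ∞))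

/-- the twist by `M` of the curve `c` over `K`: finitely many points, the two-primary part of the Tate-Shafarevich group
over `K` is finite and killed by `2 ^ n`, the L-function (without the Euler factors at the places `v ∣ 42 M e`) is entire and not
`0` at `s = 1`. Here `Sha W` is the group of the continuous cocycles `Gal(K̄/K) → W(K̄)` which are coboundaries at all
places of `K`, modulo the coboundaries. -/
def Zero (K : Type) [Field K] [NumberField K] (n : ℕ) (c : Curve) (M e : ℤ) : Prop :=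
  Finite (E K c M).toAffine.Point ∧
    {x : Pool.Agent.TH841.NF.D.Sha (E K c M) | ∃ t : ℕ, 2 ^ t • x = 0}.Finite ∧
    (∀ (x : Pool.Agent.TH841.NF.D.Sha (E K c M)) (t : ℕ), 2 ^ t • x = 0 → 2 ^ n • x = 0) ∧
    (∃ F : ℂ → ℂ, IsL K c M e F) ∧ ∀ F : ℂ → ℂ, IsL K c M e F → F 1 ≠ 0

/-- the squarefree part of `n`: the squarefree `s` such that `n / s` is a square -/
def squarefreePart (n : ℕ) : ℕ := ∏ p ∈ n.primeFactors.filter (fun p => n.factorization p % 2 = 1), p

/-- the polynomial phases of degree `≤ k` on the divisors of `D`: real functions whose derivatives of order `k + 1` with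
respect to the multiplication of the divisors modulo squares are equal to `1` -/
def Phase (k D : ℕ) (φ : ℕ → ℝ) : Prop :=
  ∀ x ∈ divs D, ∀ y : Fin (k + 1) → ℕ, (∀ i, y i ∈ divs D) →
    ∏ ω : Finset (Fin (k + 1)), φ (squarefreePart (x * ∏ i ∈ ω, y i)) = 1

/-- the number of the `D ≤ X` with the property `P` -/
noncomputable def count (P : ℕ → Prop) (X : ℕ) : ℕ := ((Finset.Icc 1 X).filter P).card

section proof

open _root_.Q283.J2 _root_.Q283.LP
open _root_.Q155.NL (Cl Alm)
open _root_.Q283.GS (al)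
open _root_.Q283.NJ (wt)

/-- the names of the curves in the modules -/
def toB : Curve → Bool
  | .X14 => false
  | .X49 => true

lemma toB_inj {c c' : Curve} (h : toB c = toB c') : c = c' := by
  cases c <;> cases c' <;> first | rfl | exact absurd h (by decide)

lemma A_eq (c : Curve) (M : ℤ) : A c M = ca (toB c) * M ^ 2 := by cases c <;> rfl

lemma B_eq (c : Curve) (M : ℤ) : B c M = cb (toB c) * M ^ 3 := by cases c <;> rfl

lemma rz_eq (c : Curve) (M : ℤ) : Good c M ↔ RZ (toB c) M := by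
  unfold Good RZ E
  rw [A_eq, B_eq]
  refine and_congr Iff.rfl (forall_congr' fun x => ?_)
  rw [two_nsmul]
  rfl

lemma adm_CK {c : Curve} {m : ℤ} (h : Adm c m) : ∃ V, CK (toB c) V ∧ m = Y687.DD V := by
  cases c
  · obtain ⟨h1, h2⟩ := Y687.JQ.of_adm (D := m) h
    exact ⟨_, h1, h2.symm⟩
  · obtain ⟨h1, h2, h3⟩ := h
    have hCK : CK true m.natAbs.primeFactors := by
      intro p hp
      have hpp := Nat.prime_of_mem_primeFactors hp
      rcases h3 p hpp (Int.natCast_dvd.2 (Nat.dvd_of_mem_primeFactors hp)) with h4 | ⟨h4, h5⟩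
      · exact Or.inl h4
      · exact Or.inr ⟨hpp, h5, h4.2.2⟩
    refine ⟨_, hCK, ?_⟩
    rw [DD_true hCK, Nat.prod_primeFactors_of_squarefree (Int.squarefree_natAbs.2 h1)]
    exact (Int.natAbs_of_nonneg h2.le).symm

lemma cls_iff' (D : ℕ) : Class D ↔ Cls D := by
  constructor
  · intro h
    have h14 := h .X14
    have h49 := h .X49
    obtain ⟨h1, -⟩ := Y687.JQ.of_adm (D := (D : ℤ)) h14
    rw [Int.natAbs_natCast] at h1
    have hsq : Squarefree D := Int.squarefree_natCast.1 h14.1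
    have hp : ∀ p ∈ D.primeFactors, Split p ∨ (Inert p ∧ p % 8 = 5) := fun p hp =>
      h49.2.2 p (Nat.prime_of_mem_primeFactors hp)
        (Int.natCast_dvd_natCast.2 (Nat.dvd_of_mem_primeFactors hp))
    refine ⟨hsq, fun p hpD => ?_, (Y687.JQ.CL_iff.1 h1).2, ?_⟩
    · rcases hp p hpD with h4 | ⟨h4, h5⟩
      · exact Or.inl h4
      · refine Or.inr ⟨h4.1, ?_, Finset.mem_singleton.2 h5, h4.2.2⟩
        rintro rfl
        norm_num at h5
    · rw [Finset.filter_eq_empty_iff.2, Finset.card_empty]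
      · exact Finset.mem_singleton_self 0
      · intro p hpD h3
        rcases hp p hpD with h4 | ⟨h4, h5⟩
        · have := h4.2.1; omega
        · omega
  · intro h c
    cases c
    · have h1 := Y687.JQ.CL.adm (CK_of_Cl h.2 false)
      rw [← h.eq] at h1
      exact h1
    · refine ⟨Int.squarefree_natCast.2 h.1, by exact_mod_cast Nat.pos_of_ne_zero h.1.ne_zero,
        fun p hp hd => ?_⟩
      have hpD : p ∈ D.primeFactors := Nat.mem_primeFactors.2
        ⟨hp, Int.natCast_dvd_natCast.1 hd, h.1.ne_zero⟩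
      rcases CK_of_Cl h.2 true p hpD with h4 | h4
      · exact Or.inl h4
      · exact Or.inr ⟨⟨h4.1, Or.inr h4.2.1, h4.2.2⟩, h4.2.1⟩

lemma c14 : ca (toB .X14) = 5805 ∧ cb (toB .X14) = -285714 := ⟨rfl, rfl⟩

lemma c49 : ca (toB .X49) = -2835 ∧ cb (toB .X49) = -71442 := ⟨rfl, rfl⟩

lemma isL_iff (K : Type) [Field K] [NumberField K] (c : Curve) (M m : ℤ) (F : ℂ → ℂ) :
    IsL K c M m F ↔ Y19.QT.IsLFunK K (ca (toB c) * M ^ 2) (cb (toB c) * M ^ 3) m F := by
  have key : ∀ v : HeightOneSpectrum (𝓞 K), (((42 * M * m : ℤ) : 𝓞 K) ∈ v.asIdeal ↔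
      ((2 * (4 * (ca (toB c) * M ^ 2) ^ 3 + 27 * (cb (toB c) * M ^ 3) ^ 2) * m : ℤ) : 𝓞 K) ∈
        v.asIdeal) := by
    intro v
    have := v.isPrime
    constructor
    · intro h1
      obtain ⟨z, hz⟩ : ∃ z : ℤ, 2 * (4 * (ca (toB c) * M ^ 2) ^ 3 +
          27 * (cb (toB c) * M ^ 3) ^ 2) * m = z * (42 * M * m) := by
        cases c
        · exact ⟨2 ^ 14 * 3 ^ 11 * 7 ^ 2 * M ^ 5, by rw [c14.1, c14.2]; ring⟩
        · exact ⟨2 ^ 8 * 3 ^ 11 * 7 ^ 2 * M ^ 5, by rw [c49.1, c49.2]; ring⟩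
      rw [hz, Int.cast_mul]
      exact Ideal.mul_mem_left _ _ h1
    · intro h1
      obtain ⟨z, hz⟩ : ∃ z : ℤ, (42 * M * m) ^ 15 = z * (2 * (4 * (ca (toB c) * M ^ 2) ^ 3 +
          27 * (cb (toB c) * M ^ 3) ^ 2) * m) := by
        cases c
        · exact ⟨3 ^ 3 * 7 ^ 12 * M ^ 9 * m ^ 14, by rw [c14.1, c14.2]; ring⟩
        · exact ⟨2 ^ 6 * 3 ^ 3 * 7 ^ 12 * M ^ 9 * m ^ 14, by rw [c49.1, c49.2]; ring⟩
      refine Ideal.IsPrime.mem_of_pow_mem this 15 ?_
      rw [← Int.cast_pow, hz, Int.cast_mul]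
      exact Ideal.mul_mem_left _ _ h1
  have ha : ∀ v : HeightOneSpectrum (𝓞 K), av K c M v =
      Y19.QT.av K (ca (toB c) * M ^ 2) (cb (toB c) * M ^ 3) v := by
    intro v
    unfold av
    rw [A_eq, B_eq]
    rfl
  unfold IsL Y19.QT.IsLFunK
  refine and_congr Iff.rfl (forall_congr' fun s => forall_congr' fun _ => ?_)
  refine Iff.of_eq (congrArg (fun f => HasProd f (F s)) (funext fun v => ?_))
  by_cases h : ((42 * M * m : ℤ) : 𝓞 K) ∈ v.asIdeal
  · rw [if_pos h, if_pos ((key v).1 h)]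
  · rw [if_neg h, if_neg (fun h' => h ((key v).2 h')), ha]
    rfl

lemma ind_int {n : ℕ} {d : Fin n → ℕ} : Independent d ↔ Id5 d := by
  have e : ∀ T : Finset (Fin n), ∏ i ∈ T, (d i : ℤ) = ((∏ i ∈ T, d i : ℕ) : ℤ) := fun T => by
    push_cast
    rfl
  refine forall_congr' fun T => forall_congr' fun _ => not_congr ?_
  rw [e]
  constructor
  · rintro ⟨z, hz⟩
    exact ⟨z, by exact_mod_cast hz⟩
  · rintro ⟨z, hz⟩
    refine ⟨z.natAbs, ?_⟩
    have := congrArg Int.natAbs hz
    rw [Int.natAbs_natCast, Int.natAbs_mul] at this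
    exact this

lemma isL_unique {K : Type} [Field K] [NumberField K] {c : Curve} {M m : ℤ} {F G : ℂ → ℂ}
    (hF : IsL K c M m F) (hG : IsL K c M m G) : F = G :=
  Y687.MQ.isLFunK_unique ((isL_iff _ _ _ _ _).1 hF) ((isL_iff _ _ _ _ _).1 hG)

/-- the function over `ℚ` as a number field -/
lemma lift_Q {c : Curve} {D : ℤ} (hD : D ≠ 0) {G : ℂ → ℂ}
    (hG : Y19.QT.IsLFun (ca (toB c) * D ^ 2) (cb (toB c) * D ^ 3) G) :
    ∃ F : ℂ → ℂ, IsL ℚ c D 1 F ∧ analyticOrderAt F 1 = analyticOrderAt G 1 := by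
  have hab : 4 * (ca (toB c) * D ^ 2) ^ 3 + 27 * (cb (toB c) * D ^ 3) ^ 2 ≠ 0 := by
    have e : 4 * (ca (toB c) * D ^ 2) ^ 3 + 27 * (cb (toB c) * D ^ 3) ^ 2 =
        (4 * ca (toB c) ^ 3 + 27 * cb (toB c) ^ 2) * D ^ 6 := by ring
    rw [e]
    exact mul_ne_zero (disc_b _) (pow_ne_zero 6 hD)
  obtain ⟨F, h1, h2⟩ := Pool.Agent.Y73.QMQ1.MQ1 _ _ hab 0 (fun i => i.elim0)
    (fun T hT => by obtain ⟨i, -⟩ := hT; exact i.elim0) (fun _ => G) (fun T => by
      have hT : T = ∅ := Finset.eq_empty_of_isEmpty T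
      rw [hT, Finset.prod_empty, one_pow, one_pow, mul_one, mul_one]
      exact hG) ℚ (fun i => i.elim0) (fun i => i.elim0) (by
      rw [eq_top_iff]
      intro z _
      have := (IntermediateField.adjoin ℚ (Set.range fun i : Fin 0 => (i.elim0 : ℚ))).algebraMap_mem z
      exact this)
  refine ⟨F, (isL_iff _ _ _ _ _).2 ?_, ?_⟩
  · rwa [Finset.univ_eq_empty, Finset.prod_empty] at h1
  · rw [h2 1 (by norm_num), Finset.sum_const, Finset.card_univ, Fintype.card_finset, Fintype.card_fin,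
      pow_zero, one_nsmul]

lemma E_eq (K : Type) [Field K] (c : Curve) (M : ℤ) : E K c M =
    Pool.Agent.TH841.NF.EF (ca (toB c) * M ^ 2) (cb (toB c) * M ^ 3) K := by
  unfold E
  rw [A_eq, B_eq]
  rfl

lemma rank_eq (K : Type) [Field K] [NumberField K] (c : Curve) (D : ℤ) :
    rank K c D = Pool.Agent.Y19.QT.rkK K (ca (toB c) * D ^ 2) (cb (toB c) * D ^ 3) := by
  unfold rank
  rw [E_eq]
  rfl

lemma rank_Q (c : Curve) (D : ℤ) : rank ℚ c D =
    Module.finrank ℤ (Pool.Agent.Y19.QT.EQ (ca (toB c) * D ^ 2) (cb (toB c) * D ^ 3)) := by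
  have key : ∀ (W : WeierstrassCurve ℚ) (i j : DecidableEq ℚ),
      (letI := i; Module.finrank ℤ W.toAffine.Point) =
        (letI := j; Module.finrank ℤ W.toAffine.Point) := by
    intro W i j
    cases Subsingleton.elim i j
    rfl
  unfold rank
  rw [E_eq]
  exact key _ _ _

lemma order_prod {M : ℕ} (J : Finset (Fin M)) (f : Fin M → ℂ → ℂ) (z : ℂ)
    (hf : ∀ i ∈ J, AnalyticAt ℂ (f i) z) :
    AnalyticAt ℂ (fun s => ∏ i ∈ J, f i s) z ∧
      analyticOrderAt (fun s => ∏ i ∈ J, f i s) z = ∑ i ∈ J, analyticOrderAt (f i) z := by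
  induction J using Finset.induction_on with
  | empty =>
    have h1 : AnalyticAt ℂ (fun _ : ℂ => (1 : ℂ)) z := analyticAt_const
    simp only [Finset.prod_empty, Finset.sum_empty]
    exact ⟨h1, h1.analyticOrderAt_eq_zero.2 one_ne_zero⟩
  | insert a J ha ih =>
    obtain ⟨h1, h2⟩ := ih fun i hi => hf i (mem_insert_of_mem hi)
    have h3 := hf a (mem_insert_self a J)
    have e : (fun s => ∏ i ∈ insert a J, f i s) = f a * fun s => ∏ i ∈ J, f i s := by
      funext s
      rw [Finset.prod_insert ha]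
      rfl
    rw [e]
    exact ⟨h3.mul h1, by rw [analyticOrderAt_mul h3 h1, h2, Finset.sum_insert ha]⟩

lemma finrank_of {n : ℕ} {d : Fin n → ℕ} (hI : Independent d) {K : Type} [Field K] [NumberField K]
    (hK : IsField d K) : Module.finrank ℚ K = 2 ^ n := by
  obtain ⟨x, hx, htop⟩ := hK
  have hx' : ∀ i, x i ^ 2 = (((d i : ℤ)) : K) := fun i => by rw [hx i]; push_cast; rfl
  have hgal := Pool.Agent.Y73.QMQ1.gal_of hx' htop
  rw [← Pool.Agent.Y73.QMQ1.card_gal (fun T hT => (ind_int.1 hI) T hT) hx' htop]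
  exact (IsGalois.card_aut_eq_finrank ℚ K).symm

/-- **Stability.** -/
theorem stable_of {M n : ℕ} {c : Fin M → Curve} {m : Fin M → ℤ} {J : Finset (Fin M)} {d : Fin n → ℕ}
    (hm : ∀ i ∈ J, Adm (c i) (m i)) (hd : ∀ l, Class (d l)) (hI : Independent d)
    (hG : ∀ i ∈ J, ∀ T : Finset (Fin n), T.Nonempty → Good (c i) (m i * ∏ l ∈ T, (d l : ℤ)))
    (K : Type) [Field K] [NumberField K] (hK : IsField d K) : Stable c m J d K := by
  have hfr := finrank_of hI hK
  obtain ⟨x, hx, htop⟩ := hK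
  have hd' : ∀ l, Cls (d l) := fun l => (cls_iff' _).1 (hd l)
  have hex : ∀ i, ∃ F L : ℂ → ℂ, i ∈ J →
      (Module.Finite ℤ (E K (c i) (m i)).toAffine.Point ∧ rank K (c i) (m i) = rank ℚ (c i) (m i) ∧
        IsL ℚ (c i) (m i) 1 F ∧ IsL K (c i) (m i) (∏ l, (d l : ℤ)) L ∧
        analyticOrderAt L 1 = analyticOrderAt F 1) := by
    intro i
    by_cases hi : i ∈ J
    · obtain ⟨V, hV, hmV⟩ := adm_CK (hm i hi)
      obtain ⟨-, h2, h3, G, L, hG1, hL1, hGL⟩ := stabK hV hd' (fun T hT => (ind_int.1 hI) T hT)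
        (fun T hT => by
          have h4 := (rz_eq _ _).1 (hG i hi T hT)
          rwa [hmV] at h4) K x hx htop
      rw [← hmV] at h2 h3 hG1 hL1
      have hm0 : m i ≠ 0 := by
        rw [hmV]
        exact hV.ne
      obtain ⟨F, hF, hFG⟩ := lift_Q hm0 hG1
      refine ⟨F, L, fun _ => ⟨?_, ?_, hF, (isL_iff _ _ _ _ _).2 hL1, by rw [hGL, hFG]⟩⟩
      · rw [E_eq]
        exact h2
      · rw [rank_eq, rank_Q]
        exact h3
    · exact ⟨0, 0, fun h => absurd h hi⟩
  choose F L hFL using hex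
  have hrk : rankA K c m J = rankA ℚ c m J := sum_congr rfl fun i hi => (hFL i hi).2.1
  obtain ⟨-, o1⟩ := order_prod J F 1 fun i hi => (hFL i hi).2.2.1.1.analyticAt 1
  obtain ⟨-, o2⟩ := order_prod J L 1 fun i hi => (hFL i hi).2.2.2.1.1.analyticAt 1
  have ho : analyticOrderAt (fun s => ∏ i ∈ J, L i s) 1 = analyticOrderAt (fun s => ∏ i ∈ J, F i s) 1 := by
    rw [o1, o2]
    exact sum_congr rfl fun i hi => (hFL i hi).2.2.2.2
  refine ⟨hfr, fun i hi => (hFL i hi).1, hrk, fun s => ∏ i ∈ J, F i s, fun s => ∏ i ∈ J, L i s,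
    ⟨F, fun i hi => (hFL i hi).2.2.1, rfl⟩, ⟨L, fun i hi => (hFL i hi).2.2.2.1, rfl⟩, ho, ?_⟩
  rw [ho, hrk]

/-- **Rank zero over the field**, for the twist by `d 0`. -/
theorem zero_of {n : ℕ} {c : Curve} {m : ℤ} {d : Fin (n + 1) → ℕ} (hm : Adm c m)
    (hd : ∀ l, Class (d l)) (hI : Independent fun l : Fin n => d l.succ)
    (hG : ∀ T : Finset (Fin n), Good c (m * d 0 * ∏ l ∈ T, (d l.succ : ℤ)))
    (K : Type) [Field K] [NumberField K] (hK : IsField (fun l : Fin n => d l.succ) K) :
    Zero K n c (m * d 0) (∏ l : Fin n, (d l.succ : ℤ)) := by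
  obtain ⟨x, hx, htop⟩ := hK
  have hd' : ∀ l, Cls (d l) := fun l => (cls_iff' _).1 (hd l)
  obtain ⟨V, hV, hmV⟩ := adm_CK hm
  obtain ⟨⟨⟨F, hF, hF1⟩, hfin⟩, hF2, hKl⟩ := goodK hV hd' (fun T hT => (ind_int.1 hI) T hT)
    (fun T => by
      have h4 := (rz_eq _ _).1 (hG T)
      rwa [hmV] at h4) K x hx htop
  rw [← hmV] at hF hfin hF2 hKl
  unfold Zero
  rw [E_eq]
  refine ⟨hfin, hF2, fun x r hx => hKl r x hx, ⟨F, (isL_iff _ _ _ _ _).2 hF⟩, fun G hG' => ?_⟩
  rw [Y687.MQ.isLFunK_unique ((isL_iff _ _ _ _ _).1 hG') hF]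
  exact hF1

lemma divs_eq (D : ℕ) : divs D = dv5 D := by
  unfold divs dv5
  exact Finset.filter_congr fun d _ => cls_iff' d

lemma tuples_eq (n D : ℕ) : tuples n D = I5 n D := by
  unfold tuples I5
  rw [divs_eq]

lemma share_eq {n D : ℕ} (P : (Fin n → ℕ) → Prop) :
    share D P = cE (I5 n D) P / (I5 n D).card := by
  unfold share cE
  rw [tuples_eq]

lemma share_mono {n D : ℕ} {P Q : (Fin n → ℕ) → Prop} (h : ∀ d ∈ I5 n D, P d → Q d) :
    share D P ≤ share D Q := by
  rw [share_eq, share_eq]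
  exact div_le_div_of_nonneg_right (cE_mono h) (Nat.cast_nonneg _)

lemma abs_share {n D : ℕ} (hD : D ≠ 0) {P : (Fin n → ℕ) → Prop} {w ε : ℝ}
    (h : |cE (I5 n D) P - w * (I5 n D).card| ≤ ε * (I5 n D).card) : |share D P - w| ≤ ε := by
  have hpos := I5_pos (n := n) hD
  have h5 : share D P - w = (cE (I5 n D) P - w * (I5 n D).card) / ((I5 n D).card : ℝ) := by
    rw [share_eq]
    field_simp
  rw [h5, abs_div, abs_of_pos hpos, div_le_iff₀ hpos]
  exact h

lemma share_le {n D : ℕ} (hD : D ≠ 0) {P : (Fin n → ℕ) → Prop} {ε : ℝ}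
    (h : cE (I5 n D) P ≤ ε * (I5 n D).card) : share D P ≤ ε := by
  rw [share_eq, div_le_iff₀ (I5_pos (n := n) hD)]
  exact h

lemma share_not {n D : ℕ} (hD : D ≠ 0) (P : (Fin n → ℕ) → Prop) :
    share D P = 1 - share D fun d => ¬ P d := by
  have hpos := I5_pos (n := n) hD
  have h1 := cE_not (I := I5 n D) P
  rw [share_eq, share_eq, eq_sub_iff_add_eq, ← add_div, h1, div_self hpos.ne']

lemma share_or {n D : ℕ} (P Q : (Fin n → ℕ) → Prop) :
    share D (fun d => P d ∨ Q d) ≤ share D P + share D Q := by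
  rw [share_eq, share_eq, share_eq, ← add_div]
  exact div_le_div_of_nonneg_right (cE_or P Q) (Nat.cast_nonneg _)

lemma cls_of {n D : ℕ} (hD : D ≠ 0) {d : Fin n → ℕ} (h : d ∈ I5 n D) (l : Fin n) : Class (d l) :=
  (cls_iff' _).2 ((mem_dv5 hD).1 (mem_I5.1 h l)).1

lemma allGood_iff {M r n : ℕ} {c : Fin M → Curve} {m : Fin M → ℤ} {V : Fin M → Finset ℕ}
    (hV : ∀ i, m i = Y687.DD (V i)) (v : Fin M → Fin r) (𝒳 : Finset (Finset (Fin n))) (k : Fin r)
    (d : Fin n → ℕ) : AllGood c m v 𝒳 k d ↔ GX (fun i => toB (c i)) V v 𝒳 k d := by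
  unfold AllGood GX
  refine forall_congr' fun i => ?_
  have h1 : i ∈ factors v k ↔ v i = k := by
    unfold factors
    rw [mem_filter]
    exact and_iff_right (mem_univ _)
  rw [h1]
  refine forall_congr' fun _ => forall_congr' fun T => forall_congr' fun _ => ?_
  rw [rz_eq, hV]

lemma card_nonempty (n : ℕ) : (univ.filter fun T : Finset (Fin n) => T.Nonempty).card = 2 ^ n - 1 := by
  have h2 : (univ.filter fun T : Finset (Fin n) => T.Nonempty) = univ.erase ∅ := by
    ext T
    rw [mem_filter, mem_erase, nonempty_iff_ne_empty]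
    tauto
  rw [h2, card_erase_of_mem (mem_univ _), card_univ, Fintype.card_finset, Fintype.card_fin]

lemma mem_zero {n : ℕ} (T : Finset (Fin (n + 1))) (h : 0 ∈ T) : ∃ T' : Finset (Fin n), T = sT T' := by
  refine ⟨univ.filter fun l => l.succ ∈ T, ?_⟩
  ext i
  unfold sT
  rw [mem_insert, Finset.mem_map]
  constructor
  · intro hi
    by_cases h0 : i = 0
    · exact Or.inl h0
    · obtain ⟨l, rfl⟩ := Fin.exists_succ_eq.2 h0
      exact Or.inr ⟨l, mem_filter.2 ⟨mem_univ _, hi⟩, rfl⟩
  · rintro (rfl | ⟨l, hl, rfl⟩)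
    · exact h
    · exact (mem_filter.1 hl).2

lemma card_zero (n : ℕ) : (univ.filter fun T : Finset (Fin (n + 1)) => 0 ∈ T).card = 2 ^ n := by
  have h1 : (univ.filter fun T : Finset (Fin (n + 1)) => 0 ∈ T) =
      (univ : Finset (Finset (Fin n))).image sT := by
    ext T
    rw [mem_filter, mem_image]
    constructor
    · rintro ⟨-, h⟩
      obtain ⟨T', rfl⟩ := mem_zero T h
      exact ⟨T', mem_univ _, rfl⟩
    · rintro ⟨T', -, rfl⟩
      exact ⟨mem_univ _, mem_insert_self _ _⟩
  rw [h1, card_image_of_injective _ sT_inj, card_univ, Fintype.card_finset, Fintype.card_fin]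

/-- (3) -/
theorem part3 {M r n : ℕ} {c : Fin M → Curve} {m : Fin M → ℤ} {v : Fin M → Fin r} {k : Fin r}
    {d : Fin n → ℕ} (hm : ∀ i, Adm (c i) (m i)) (hd : ∀ l, Class (d l)) (hI : Independent d)
    (hG : AllGood c m v (univ.filter fun T => T.Nonempty) k d) (K : Type) [Field K] [NumberField K]
    (hK : IsField d K) : Stable c m (factors v k) d K :=
  stable_of (fun i _ => hm i) hd hI (fun i hi T hT => hG i hi T (mem_filter.2 ⟨mem_univ _, hT⟩)) K hK

/-- (4) -/
theorem part4 {M r n : ℕ} {c : Fin M → Curve} {m : Fin M → ℤ} {v : Fin M → Fin r} {k : Fin r}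
    {d : Fin (n + 1) → ℕ} (hm : ∀ i, Adm (c i) (m i)) (hd : ∀ l, Class (d l))
    (hI : Independent fun l : Fin n => d l.succ)
    (hG : AllGood c m v (univ.filter fun T => 0 ∈ T) k d) (K : Type) [Field K] [NumberField K]
    (hK : IsField (fun l : Fin n => d l.succ) K) :
    Module.finrank ℚ K = 2 ^ n ∧ ∀ i ∈ factors v k, Zero K n (c i) (m i * d 0)
      (∏ l : Fin n, (d l.succ : ℤ)) := by
  refine ⟨finrank_of hI hK, fun i hi => zero_of (hm i) hd hI (fun T => ?_) K hK⟩
  have h1 := hG i hi (sT T) (mem_filter.2 ⟨mem_univ _, mem_insert_self _ _⟩)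
  rw [prod_sT, ← mul_assoc] at h1
  exact h1

lemma ind_tail {n : ℕ} {d : Fin (n + 1) → ℕ} (h : Independent d) :
    Independent fun l : Fin n => d l.succ := by
  intro T hT hsq
  refine h (T.map (Fin.succEmb n)) hT.map ?_
  rw [Finset.prod_map]
  exact hsq

lemma card_par (P : Finset ℕ) (par : ℕ → ZMod 2) :
    2 ^ P.card ≤ 2 * (P.powerset.filter fun d => ∑ p ∈ d, par p = 0).card := by
  have h1 : (P.powerset.filter fun d => ¬ ∑ p ∈ d, par p = 0).card ≤
      (P.powerset.filter fun d => ∑ p ∈ d, par p = 0).card := by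
    by_cases h : ∃ p ∈ P, par p ≠ 0
    · obtain ⟨p, hp, hp1⟩ := h
      have h2 : ∀ x : ZMod 2, x ≠ 0 → x = 1 := by decide
      have hsum : ∀ d : Finset ℕ, ∑ q ∈ symmDiff d {p}, par q = ∑ q ∈ d, par q + 1 := by
        intro d
        by_cases hd : p ∈ d
        · have e1 : symmDiff d {p} = d.erase p := by
            ext q
            rw [mem_symmDiff, mem_singleton, mem_erase]
            constructor
            · rintro (⟨h3, h4⟩ | ⟨h3, h4⟩)
              · exact ⟨h4, h3⟩
              · exact absurd (h3 ▸ hd) h4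
            · rintro ⟨h3, h4⟩
              exact Or.inl ⟨h4, h3⟩
          rw [e1, ← Finset.add_sum_erase d par hd, h2 _ hp1]
          have : (1 : ZMod 2) + 1 = 0 := by decide
          linear_combination -this
        · have e1 : symmDiff d {p} = insert p d := by
            ext q
            rw [mem_symmDiff, mem_singleton, mem_insert]
            constructor
            · rintro (⟨h3, h4⟩ | ⟨h3, h4⟩)
              · exact Or.inr h3
              · exact Or.inl h3
            · rintro (h3 | h3)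
              · exact Or.inr ⟨h3, h3 ▸ hd⟩
              · exact Or.inl ⟨h3, fun h4 => hd (h4 ▸ h3)⟩
          rw [e1, sum_insert hd, h2 _ hp1, add_comm]
      refine card_le_card_of_injOn (fun d => symmDiff d {p}) ?_ ?_
      · intro d hd
        have hd' := mem_filter.1 (mem_coe.1 hd)
        refine mem_coe.2 (mem_filter.2 ⟨mem_powerset.2 fun q hq => ?_, ?_⟩)
        · rcases mem_symmDiff.1 hq with h3 | h3
          · exact mem_powerset.1 hd'.1 h3.1
          · rw [mem_singleton.1 h3.1]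
            exact hp
        · rw [hsum, h2 _ hd'.2]
          decide
      · intro d _ d' _ he
        exact (symmDiff_left_injective {p}) he
    · push Not at h
      rw [filter_false_of_mem]
      · rw [card_empty]
        exact Nat.zero_le _
      · intro d hd hne
        exact hne (sum_eq_zero fun q hq => h q (mem_powerset.1 hd hq))
  have h2 := Finset.card_filter_add_card_filter_not (s := P.powerset) fun d => ∑ p ∈ d, par p = 0
  rw [card_powerset] at h2
  omega

lemma P_iff {p : ℕ} : r56.Φ.P p ↔ Split p ∨ (Inert p ∧ p % 8 = 5) := by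
  unfold Q283.GM.Fam.P
  rw [r56_A, r56_B]
  unfold Split Inert Pool.Agent.Y703.CQ.Sp In5
  constructor
  · rintro (h | h)
    · exact Or.inl h
    · exact Or.inr ⟨⟨h.1, Or.inr h.2.1, h.2.2⟩, h.2.1⟩
  · rintro (h | h)
    · exact Or.inl h
    · exact Or.inr ⟨h.1.1, h.2, h.1.2.2⟩

lemma wide_iff (D : ℕ) : Wide D ↔ Cl r56.Φ D := by
  unfold Wide Cl
  refine and_congr_right fun hD => ?_
  constructor
  · intro h p hp
    exact P_iff.2 (h p (Nat.prime_of_mem_primeFactors hp) (Nat.dvd_of_mem_primeFactors hp))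
  · intro h p hp hpD
    exact P_iff.1 (h p (Nat.mem_primeFactors.2 ⟨hp, hpD, hD.ne_zero⟩))

lemma card_divs {D : ℕ} (hD : D ≠ 0) : 2 ^ primes D ≤ 2 * (divs D).card := by
  have h1 := card_par (prt r56.Φ D).primeFactors par5
  have h2 : primes D = (prt r56.Φ D).primeFactors.card := by
    rw [prt_pf]
    unfold primes
    exact fcc fun p _ => P_iff.symm
  rw [h2]
  refine h1.trans (Nat.mul_le_mul_left 2 ?_)
  refine card_le_card_of_injOn (fun d => ∏ p ∈ d, p) ?_ ?_
  · intro d hd
    obtain ⟨h3, h4⟩ := mem_filter.1 (mem_coe.1 hd)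
    rw [mem_powerset, prt_pf] at h3
    obtain ⟨h5, h6⟩ := prod_Cl (Φ := r56.Φ) (S := d) fun p hp => (mem_filter.1 (h3 hp)).2
    rw [mem_coe, divs_eq, mem_dv5 hD, cls_iff]
    refine ⟨⟨h5.1, h5.2, by rw [h6]; exact h4⟩, ?_⟩
    exact (Finset.prod_dvd_prod_of_subset _ _ _ fun p hp => (mem_filter.1 (h3 hp)).1).trans
      (Nat.prod_primeFactors_dvd D)
  · intro d hd d' hd' he
    obtain ⟨h3, -⟩ := mem_filter.1 (mem_coe.1 hd)
    obtain ⟨h3', -⟩ := mem_filter.1 (mem_coe.1 hd')
    rw [mem_powerset, prt_pf] at h3 h3'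
    rw [← (prod_Cl (Φ := r56.Φ) (S := d) fun p hp => (mem_filter.1 (h3 hp)).2).2,
      ← (prod_Cl (Φ := r56.Φ) (S := d') fun p hp => (mem_filter.1 (h3' hp)).2).2]
    exact congrArg Nat.primeFactors he

end proof

open _root_.Q283.J2 _root_.Q283.LP in
open _root_.Q155.NL (Cl Alm) in
open _root_.Q283.GS (al) in
open _root_.Q283.NJ (wt) in
/-- **Abelian varieties over the fields inside almost every integer.** -/
theorem result :
    (∀ (M r n : ℕ) (c : Fin M → Curve) (m : Fin M → ℤ) (v : Fin M → Fin r) (k : Fin r)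
      (d : Fin n → ℕ), (∀ i, Adm (c i) (m i)) → (∀ l, Class (d l)) → Independent d →
      AllGood c m v (univ.filter fun T => T.Nonempty) k d →
      ∀ (K : Type) [Field K] [NumberField K], IsField d K → Stable c m (factors v k) d K) ∧
    (∀ (M r n : ℕ) (c : Fin M → Curve) (m : Fin M → ℤ) (v : Fin M → Fin r) (k : Fin r)
      (d : Fin (n + 1) → ℕ), (∀ i, Adm (c i) (m i)) → (∀ l, Class (d l)) →
      (Independent fun l : Fin n => d l.succ) →
      AllGood c m v (univ.filter fun T => 0 ∈ T) k d →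
      ∀ (K : Type) [Field K] [NumberField K], IsField (fun l : Fin n => d l.succ) K →
        Module.finrank ℚ K = 2 ^ n ∧ ∀ i ∈ factors v k, Zero K n (c i) (m i * d 0)
          (∏ l : Fin n, (d l.succ : ℤ))) ∧
    (∀ D : ℕ, D ≠ 0 → 1 ∈ divs D ∧ 2 ^ primes D ≤ 2 * (divs D).card) ∧
    (∃ S : ℕ → Prop, Tendsto (fun X : ℕ => (count S X : ℝ) / X) atTop (nhds 1) ∧
      Tendsto (fun X : ℕ => (count (fun D => Wide D ∧ S D) X : ℝ) / count Wide X) atTop (nhds 1) ∧
      (∀ (M n : ℕ) (c : Fin M → Curve) (N : Fin M → ℤ) (T : Fin M → Finset (Fin n)),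
        (∀ j, Adm (c j) (N j)) → (∀ j, (T j).Nonempty) →
        (∀ j l, j ≠ l → ¬ (c j = c l ∧ N j = N l ∧ T j = T l)) → ∀ ε : ℝ, 0 < ε →
        ∃ D₀ : ℕ, ∀ D : ℕ, D₀ ≤ D → S D →
          (∀ Q : Finset (Fin M),
            |share D (fun d => ∀ j, (Good (c j) (N j * ∏ i ∈ T j, (d i : ℤ)) ↔ j ∈ Q)) -
              κ ^ Q.card * (1 - κ) ^ (M - Q.card)| ≤ ε) ∧
          (0 < M → ∀ η : ℝ, 0 < η → share D (fun d => η ≤ |(goods c N T d : ℝ) / M - κ|) ≤
            2 * Real.exp (-(η ^ 2 * M / 4)) + ε)) ∧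
      (∀ (M r n : ℕ) (c : Fin M → Curve) (m : Fin M → ℤ) (v : Fin M → Fin r)
        (𝒳 : Finset (Finset (Fin n))), (∀ i, Adm (c i) (m i)) →
        (∀ i j, i ≠ j → ¬ (c i = c j ∧ m i = m j)) → (∀ T ∈ 𝒳, T.Nonempty) → ∀ ε : ℝ, 0 < ε →
        ∃ D₀ : ℕ, ∀ D : ℕ, D₀ ≤ D → S D →
          (∀ Q : Finset (Fin r),
            |share D (fun d => Independent d ∧ ∀ k, (AllGood c m v 𝒳 k d ↔ k ∈ Q)) -
              (∏ k ∈ Q, κ ^ ((factors v k).card * 𝒳.card)) *
                ∏ k ∈ Qᶜ, (1 - κ ^ ((factors v k).card * 𝒳.card))| ≤ ε) ∧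
          (∀ g : ℕ, 0 < r → (∀ k, (factors v k).card = g) → ∀ η : ℝ, 0 < η →
            share D (fun d => η ≤ |(number c m v 𝒳 d : ℝ) / r - κ ^ (g * 𝒳.card)|) ≤
              2 * Real.exp (-(η ^ 2 * r / 4)) + ε)) ∧
      (∀ (M r n : ℕ) (c : Fin M → Curve) (m : Fin M → ℤ) (v : Fin M → Fin r),
        (∀ i, Adm (c i) (m i)) → (∀ i j, i ≠ j → ¬ (c i = c j ∧ m i = m j)) → ∀ ε : ℝ, 0 < ε →
        ∃ D₀ : ℕ, ∀ D : ℕ, D₀ ≤ D → S D →
          ∏ k, κ ^ ((factors v k).card * (2 ^ n - 1)) - ε ≤ share D (fun d : Fin n → ℕ =>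
            ∀ (K : Type) [Field K] [NumberField K], IsField d K →
              ∀ k, Stable c m (factors v k) d K) ∧
          1 - ∏ k, (1 - κ ^ ((factors v k).card * (2 ^ n - 1))) - ε ≤ share D (fun d : Fin n → ℕ =>
            ∃ k, ∀ (K : Type) [Field K] [NumberField K], IsField d K →
              Stable c m (factors v k) d K) ∧
          κ ^ (M * 2 ^ n) - ε ≤ share D (fun d : Fin (n + 1) → ℕ =>
            ∀ (K : Type) [Field K] [NumberField K], IsField (fun l : Fin n => d l.succ) K →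
              Module.finrank ℚ K = 2 ^ n ∧
                ∀ i, Zero K n (c i) (m i * d 0) (∏ l : Fin n, (d l.succ : ℤ)))) ∧
      (∀ (k M : ℕ) (c : Fin M → Curve) (N : Fin M → ℤ), 0 < M → (∀ j, Adm (c j) (N j)) →
        (∀ j l, j ≠ l → ¬ (c j = c l ∧ N j = N l)) → ∀ ε : ℝ, 0 < ε →
        ∃ D₀ : ℕ, ∀ D : ℕ, D₀ ≤ D → S D → ∀ φ : ℕ → ℝ, Phase k D φ →
          |(∑ d ∈ divs D, (∏ j, ((if Good (c j) (N j * d) then 1 else 0) - κ)) * φ d) /
            ((divs D).card : ℝ)| ≤ ε)) ∧
    (∃ (c : ℝ) (X₀ : ℕ), 0 < c ∧ ∀ X : ℕ, X₀ ≤ X →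
      c * X * (Real.log X) ^ (-(3 / 4) : ℝ) ≤ (count Wide X : ℝ)) ∧
    0.4194 < κ ∧ κ < 0.4195 := by
  have hκ : al 0 = κ := al0_c2
  have hκ1 : 0.4194 < κ := Pool.Agent.Y948.CQ.t_C2.2.2.2.1
  have hκ2 : κ < 0.4195 := Pool.Agent.Y948.CQ.t_C2.2.2.2.2
  refine ⟨fun M r n c m v k d hm hd hI hG K _ _ hK => part3 hm hd hI hG K hK,
    fun M r n c m v k d hm hd hI hG K _ _ hK => part4 hm hd hI hG K hK,
    fun D hD => ⟨by rw [divs_eq]; exact one_dv5 hD, card_divs hD⟩, ?_, ?_, hκ1, hκ2⟩
  · obtain ⟨S, hS, hS', hL, hP⟩ := main5b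
    have hcc : ∀ X : ℕ, count Wide X = Q155.NL.cnt (Cl r56.Φ) X := by
      intro X
      unfold count Q155.NL.cnt Q155.NL.cs
      exact fcc fun D _ => wide_iff D
    -- the patterns of the abelian varieties
    have hAV : ∀ (M r n : ℕ) (c : Fin M → Curve) (m : Fin M → ℤ) (v : Fin M → Fin r)
        (𝒳 : Finset (Finset (Fin n))), (∀ i, Adm (c i) (m i)) →
        (∀ i j, i ≠ j → ¬ (c i = c j ∧ m i = m j)) → (∀ T ∈ 𝒳, T.Nonempty) → ∀ ε : ℝ, 0 < ε →
        ∃ D₀ : ℕ, ∀ D : ℕ, D₀ ≤ D → S D →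
          (∀ Q : Finset (Fin r),
            |share D (fun d => Independent d ∧ ∀ k, (AllGood c m v 𝒳 k d ↔ k ∈ Q)) -
              (∏ k ∈ Q, κ ^ ((factors v k).card * 𝒳.card)) *
                ∏ k ∈ Qᶜ, (1 - κ ^ ((factors v k).card * 𝒳.card))| ≤ ε) ∧
          (∀ g : ℕ, 0 < r → (∀ k, (factors v k).card = g) → ∀ η : ℝ, 0 < η →
            share D (fun d => η ≤ |(number c m v 𝒳 d : ℝ) / r - κ ^ (g * 𝒳.card)|) ≤
              2 * Real.exp (-(η ^ 2 * r / 4)) + ε) := by
      intro M r n c m v 𝒳 hm hd h𝒳 ε hε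
      choose V hV hmV using fun i => adm_CK (hm i)
      have hne : ∀ j l, j ≠ l → ¬ (toB (c j) = toB (c l) ∧ V j = V l) := fun j l hjl h =>
        hd j l hjl ⟨toB_inj h.1, by rw [hmV, hmV, h.2]⟩
      have hdim : ∀ k, (factors v k).card = dimA v k := fun k => rfl
      have e1 := patA hL (fun i => toB (c i)) V v 𝒳 h𝒳 hV hne hε
      have e2 : ∀ᶠ D in atTop, S D → ∀ g : ℕ, 0 < r → (∀ k, (factors v k).card = g) → ∀ η : ℝ, 0 < η →
          cE (I5 n D) (fun d => η ≤ |(nGA (fun i => toB (c i)) V v 𝒳 d : ℝ) / r -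
            al 0 ^ (g * 𝒳.card)|) ≤
          (2 * Real.exp (-(η ^ 2 * r / 4)) + ε) * (I5 n D).card := by
        by_cases hr : 0 < r
        · by_cases hg : ∀ k, (factors v k).card = (factors v ⟨0, hr⟩).card
          · filter_upwards [llnA hL ((factors v ⟨0, hr⟩).card) (fun i => toB (c i)) V v 𝒳 h𝒳 hV hne hr
              hg hε] with D hD hSD g _ hg' η hη
            rw [← hg' ⟨0, hr⟩]
            exact hD hSD η hη
          · exact Eventually.of_forall fun D _ g _ hg' => absurd (fun k => by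
              rw [hg' k, hg' ⟨0, hr⟩]) hg
        · exact Eventually.of_forall fun D _ g h => absurd h hr
      obtain ⟨D₀, hD₀⟩ := eventually_atTop.1 ((e1.and e2).and (eventually_ne_atTop 0))
      refine ⟨D₀, fun D hD hSD => ?_⟩
      obtain ⟨⟨k1, k2⟩, hD0⟩ := hD₀ D hD
      refine ⟨fun Q => ?_, fun g hr hg η hη => ?_⟩
      · have h1 := k1 hSD Q
        unfold wA at h1
        rw [hκ] at h1
        have h2 := abs_share hD0 h1
        refine le_trans (le_of_eq ?_) h2
        congr 2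
        rw [share_eq, share_eq]
        congr 1
        refine cE_congr fun d _ => ?_
        rw [ind_int]
        refine and_congr_right fun _ => forall_congr' fun k => ?_
        rw [allGood_iff hmV]
      · have h1 := k2 hSD g hr hg η hη
        rw [hκ] at h1
        refine share_le hD0 (le_trans (le_of_eq (cE_congr fun d _ => ?_)) h1)
        have h2 : number c m v 𝒳 d = nGA (fun i => toB (c i)) V v 𝒳 d := by
          unfold number nGA nJ
          exact fcc fun k _ => allGood_iff hmV v 𝒳 k d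
        rw [h2]
    refine ⟨S, ?_, ?_, fun M n c N T hN hT hd ε hε => ?_, hAV, fun M r n c m v hm hd ε hε => ?_,
      fun k M c N hM hN hd ε hε => ?_⟩
    · have h1 := Q155.NL.tendsto_of_alm (C := fun _ => True) ⟨1, le_rfl, trivial⟩ hS
      refine h1.congr fun X => ?_
      have h2 : Q155.NL.cnt (fun _ => True) X = X := by
        have h0 : Q155.NL.cs (fun _ => True) X = Finset.Icc 1 X := by
          ext D
          rw [Q155.NL.mem_cs, Finset.mem_Icc]
          exact ⟨fun h => h.1, fun h => ⟨h, trivial⟩⟩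
        unfold Q155.NL.cnt
        rw [h0, Nat.card_Icc]
        omega
      rw [h2]
      congr 2
      unfold Q155.NL.cnt Q155.NL.cs count
      congr 1
      ext D
      simp
    · have h1 := Q155.NL.tendsto_of_alm (C := Cl r56.Φ) ⟨1, le_rfl, squarefree_one, by simp⟩ hS'
      refine h1.congr fun X => ?_
      rw [hcc]
      congr 2
      unfold Q155.NL.cnt Q155.NL.cs count
      exact fcc fun D _ => and_congr_left fun _ => (wide_iff D).symm
    · choose V hV hNV using fun j => adm_CK (hN j)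
      have h1 := law5_ty hL (Fin M) (fun j => toB (c j)) V T hV hT (fun j l hjl h =>
        hd j l hjl ⟨toB_inj h.1, by rw [hNV, hNV, h.2.1], h.2.2⟩) (show 0 < ε / 2 ^ M by positivity)
      obtain ⟨D₀, hD₀⟩ := eventually_atTop.1 (h1.and (eventually_ne_atTop 0))
      refine ⟨D₀, fun D hD hSD => ?_⟩
      obtain ⟨k1, hD0⟩ := hD₀ D hD
      have hpos := I5_pos (n := n) hD0
      have hee : ε / 2 ^ M ≤ ε := div_le_self hε.le (one_le_pow₀ (by norm_num))
      have hgr : ∀ (d : Fin n → ℕ) (j : Fin M), Good (c j) (N j * ∏ i ∈ T j, (d i : ℤ)) ↔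
          RZ (toB (c j)) (Y687.DD (V j) * ∏ i ∈ T j, (d i : ℤ)) := fun d j => by
        rw [rz_eq, hNV]
      refine ⟨fun Q => ?_, fun hM η hη => ?_⟩
      · have h2 := k1 hSD Q
        rw [hκ, Fintype.card_fin] at h2
        have h3 := (abs_share hD0 h2).trans hee
        refine le_trans (le_of_eq ?_) h3
        congr 2
        rw [share_eq, share_eq]
        congr 1
        refine cE_congr fun d _ => forall_congr' fun j => ?_
        rw [hgr]
      · have h2 := lln_gen hpos (Fin M)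
          (fun j d => RZ (toB (c j)) (Y687.DD (V j) * ∏ i ∈ T j, (d i : ℤ))) (p := κ)
          (δ := ε / 2 ^ M) (by linarith) (by linarith) (fun Q => by
            have h3 := k1 hSD Q
            rw [hκ] at h3
            exact h3) (by rw [Fintype.card_fin]; exact hM) hη
        rw [Fintype.card_fin] at h2
        have h3 : (2 : ℝ) ^ M * (ε / 2 ^ M) = ε := by field_simp
        rw [h3] at h2
        refine share_le hD0 (le_trans (le_of_eq (cE_congr fun d _ => ?_)) h2)
        have h4 : goods c N T d = nJ (Fin M) (fun j =>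
            RZ (toB (c j)) (Y687.DD (V j) * ∏ i ∈ T j, (d i : ℤ))) := by
          unfold goods nJ
          exact fcc fun j _ => hgr d j
        rw [h4]
    · have hε2 : 0 < ε / 2 := by positivity
      obtain ⟨D₁, h1⟩ := hAV M r n c m v (univ.filter fun T => T.Nonempty) hm hd
        (fun T hT => (mem_filter.1 hT).2) (ε / 2) hε2
      obtain ⟨D₂, h2⟩ := hAV M r (n + 1) c m v (univ.filter fun T => 0 ∈ T) hm hd
        (fun T hT => ⟨0, (mem_filter.1 hT).2⟩) (ε / 2) hε2
      obtain ⟨D₃, h3⟩ := eventually_atTop.1 ((dep_rare hL n hε2).and (eventually_ne_atTop 0))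
      refine ⟨max D₁ (max D₂ D₃), fun D hD hSD => ?_⟩
      have hD1 := le_of_max_le_left hD
      have hD2 := le_of_max_le_left (le_of_max_le_right hD)
      have hD3 := le_of_max_le_right (le_of_max_le_right hD)
      obtain ⟨k1, -⟩ := h1 D hD1 hSD
      obtain ⟨k2, -⟩ := h2 D hD2 hSD
      obtain ⟨k3, hD0⟩ := h3 D hD3
      replace k3 := share_le hD0 (k3 hSD)
      rw [card_nonempty] at k1
      rw [card_zero] at k2
      refine ⟨?_, ?_, ?_⟩
      · have h4 := (abs_le.1 (k1 univ)).1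
        rw [compl_univ, prod_empty, mul_one] at h4
        have h5 : share D (fun d : Fin n → ℕ => Independent d ∧ ∀ k,
            (AllGood c m v (univ.filter fun T : Finset (Fin n) => T.Nonempty) k d ↔
              k ∈ (univ : Finset (Fin r)))) ≤
            share D (fun d : Fin n → ℕ => ∀ (K : Type) [Field K] [NumberField K], IsField d K →
              ∀ k, Stable c m (factors v k) d K) :=
          share_mono fun d hdI h K _ _ hK k =>
            part3 hm (cls_of hD0 hdI) h.1 ((h.2 k).2 (mem_univ _)) K hK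
        linarith
      · have h4 := (abs_le.1 (k1 ∅)).2
        rw [compl_empty, prod_empty, one_mul] at h4
        have h5 : share D (fun d : Fin n → ℕ => ¬ ∃ k, ∀ (K : Type) [Field K] [NumberField K],
            IsField d K → Stable c m (factors v k) d K) ≤
            share D (fun d : Fin n → ℕ => Independent d ∧ ∀ k,
              (AllGood c m v (univ.filter fun T : Finset (Fin n) => T.Nonempty) k d ↔
                k ∈ (∅ : Finset (Fin r)))) +
            share D (fun d : Fin n → ℕ => ¬ Id5 d) := by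
          refine le_trans (share_mono fun d hdI h => ?_) (share_or _ _)
          by_cases hI : Independent d
          · refine Or.inl ⟨hI, fun k => ⟨fun hk => absurd ⟨k, fun K _ _ hK => ?_⟩ h,
              fun hk => absurd hk (notMem_empty k)⟩⟩
            exact part3 hm (cls_of hD0 hdI) hI hk K hK
          · exact Or.inr fun h' => hI (ind_int.2 h')
        rw [share_not hD0]
        linarith
      · have h4 := (abs_le.1 (k2 univ)).1
        rw [compl_univ, prod_empty, mul_one] at h4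
        have h5 : share D (fun d : Fin (n + 1) → ℕ => Independent d ∧ ∀ k,
            (AllGood c m v (univ.filter fun T : Finset (Fin (n + 1)) => 0 ∈ T) k d ↔
              k ∈ (univ : Finset (Fin r)))) ≤
            share D (fun d : Fin (n + 1) → ℕ => ∀ (K : Type) [Field K] [NumberField K],
              IsField (fun l : Fin n => d l.succ) K → Module.finrank ℚ K = 2 ^ n ∧
                ∀ i, Zero K n (c i) (m i * d 0) (∏ l : Fin n, (d l.succ : ℤ))) :=
          share_mono fun d hdI h K _ _ hK =>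
            ⟨finrank_of (ind_tail h.1) hK, fun i => (part4 hm (cls_of hD0 hdI) (ind_tail h.1)
              ((h.2 (v i)).2 (mem_univ _)) K hK).2 i (mem_filter.2 ⟨mem_univ _, rfl⟩)⟩
        have h6 : ∏ k, κ ^ ((factors v k).card * 2 ^ n) = κ ^ (M * 2 ^ n) := by
          rw [prod_pow_eq_pow_sum, ← sum_mul]
          congr 2
          have h7 := card_eq_sum_card_fiberwise (f := v) (s := univ) (t := univ)
            fun i _ => mem_coe.2 (mem_univ (v i))
          rw [card_univ, Fintype.card_fin] at h7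
          exact h7.symm
        rw [h6] at h4
        linarith
    · choose V hV hNV using fun j => adm_CK (hN j)
      obtain ⟨D₀, hD₀⟩ := eventually_atTop.1 ((hP k M (fun j => toB (c j)) V hM hV (fun j l hjl h =>
        hd j l hjl ⟨toB_inj h.1, by rw [hNV, hNV, h.2]⟩) ε hε).and (eventually_ne_atTop 0))
      refine ⟨D₀, fun D hD hSD φ hφ => ?_⟩
      obtain ⟨k1, hD0⟩ := hD₀ D hD
      unfold Phase at hφ
      rw [divs_eq] at hφ ⊢
      have h1 := k1 hSD φ hφ
      rw [hκ] at h1
      refine le_trans (le_of_eq ?_) h1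
      congr 2
      refine sum_congr rfl fun d _ => ?_
      congr 1
      refine prod_congr rfl fun j _ => ?_
      congr 1
      have h2 : Good (c j) (N j * d) ↔ RZ (toB (c j)) (Y687.DD (V j) * d) := by
        rw [rz_eq, hNV]
      exact if_congr h2 rfl rfl
  · obtain ⟨c, X₀, hc, h⟩ := (Q283.GM.RC.ok r56).low
    refine ⟨c, X₀, hc, fun X hX' => ?_⟩
    have h1 := h X hX'
    have h2 : ((Q283.GM.SS r56.Φ X).card : ℝ) = (count Wide X : ℝ) := by
      have h3 := Q283.GM.card_eq r56.Φ X fun _ => True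
      rw [filt_true] at h3
      rw [← h3]
      unfold count
      norm_cast
      refine fcc fun D _ => ?_
      rw [wide_iff]
      unfold Cl
      tauto
    have h4 : (-1 + r56.δ : ℝ) = -(3 / 4) := by
      have h5 : (r56.𝒜 ∪ r56.ℬ).card = 6 := by decide
      have h6 : r56.m.totient = 24 := by
        show Nat.totient 56 = 24
        decide
      unfold Q283.GM.RC.δ
      rw [h5, h6]
      norm_num
    rw [h4, h2] at h1
    exact h1

end Pool.Agent.Results.MP_1d384c_nt.AbelianVarietiesInsideDivisors
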