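import Pool.Agent.Q161.ESG.JFin

/-!
# The ranks of ALL quadratic twists of hyperelliptic Jacobians: all exponential moments are bounded

Let `h` be a monic polynomial of odd degree with integral coefficients, irreducible over `ℚ`, and `J_D` the
Jacobian of `D y² = h(x)`, `D` squarefree, in the natural order.  The only other hypothesis is that `h` has
degree three, or Galois group the full symmetric group, or that `J[2]` is a semisimple Galois module.
For every `k` there is a constant `C` such that

  `∑_{|D| ≤ X} #(J_D(ℚ)/2J_D(ℚ))^k ≤ C X`,  `X ≥ 1`,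

and more generally the joint moments for finitely many such curves, of different genera, are bounded.
The order of `J_D(ℚ)/2J_D(ℚ)` is at least `2^(rank J_D(ℚ))`, by the Mordell-Weil theorem.

The proof (projects ESM, ESG, `Pool/Agent/Q161/ESM`, `Pool/Agent/Q161/ESG`) is a 2-descent on the Jacobians
combined with a sieve for the conjugates of elements of number fields and high moments of quadratic characters.
-/

set_option autoImplicit false

namespace Pool.Agent.Results.MP_1d384c_nt.AllMomentsJacobians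

open Finset Pool.Agent.Q161.ESG

/-- the dimension over `𝔽₂` of `J_D(ℚ)/2J_D(ℚ)`: the logarithm to the base 2 of its order -/
noncomputable def dimTwo (H : HP) (D : ℤ) : ℕ := Nat.log 2 (Nat.card (QuotQ (H.twist D) 2))

/-- the sum of the dimensions, over a finite family of curves -/
noncomputable def dimSum {r : ℕ} (H : Fin r → HP) (D : ℤ) : ℕ := ∑ i, dimTwo (H i) D

/-- Let `h_1, …, h_r` be admissible polynomials.  (1) For all squarefree `D` the group `J_(i,D)(ℚ)/2` is finite,
its order is `2^(dimTwo)`, and if `J_(i,D)(ℚ)` is finitely generated (the Mordell-Weil theorem) its rank is at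
most `dimTwo`.  Let `R(D)` be the sum of these dimensions.  For every `k` there is a `C` such that for all
`X ≥ 1`, `D` running over the squarefree integers, `|D| ≤ X`: (2) `∑ 2^(k R(D)) ≤ C X`; (3) for all `n` the
number of the `D` with `R(D) ≥ n` is at most `C X / 2^(k n)`; (4) for any nonempty set `S` of these `D`
`k ∑_(D ∈ S) R(D) ≤ |S| log₂ (C X / |S|)`; (5) `∑ R(D)^k ≤ C X`.  (6) `x^5 - 4 x + 2` is admissible. -/
theorem result :
    (∀ (r : ℕ) (H : Fin r → HP), (∀ i, Admissible (H i)) →
      (∀ i, ∀ D : ℤ, Squarefree D → Finite (QuotQ ((H i).twist D) 2) ∧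
        Nat.card (QuotQ ((H i).twist D) 2) = 2 ^ dimTwo (H i) D ∧
        (AddGroup.FG (JacQ ((H i).twist D)) →
          Module.finrank ℤ (JacQ ((H i).twist D)) ≤ dimTwo (H i) D)) ∧
      ∀ k : ℕ, ∃ C : ℝ, 0 < C ∧ ∀ X : ℝ, 1 ≤ X →
        (∑ D ∈ sqfree X, (2 : ℝ) ^ (k * dimSum H D) ≤ C * X) ∧
        (∀ n : ℕ, (((sqfree X).filter (fun D => n ≤ dimSum H D)).card : ℝ) ≤
          C * X / 2 ^ (k * n)) ∧
        (∀ S : Finset ℤ, S ⊆ sqfree X → S.Nonempty →
          k * ∑ D ∈ S, (dimSum H D : ℝ) ≤ S.card * Real.logb 2 (C * X / S.card)) ∧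
        ∑ D ∈ sqfree X, (dimSum H D : ℝ) ^ k ≤ C * X) ∧
      Admissible quintic := by
  refine ⟨fun r H h => ⟨fun i D hD => ⟨(fin_both (h i) hD).1, quot_rank (h i) hD⟩, fun k => ?_⟩,
    quintic_adm⟩
  obtain ⟨C, hC, h2⟩ := quot_moments H h k
  refine ⟨C, hC, fun X hX => ?_⟩
  have h3 : ∑ D ∈ sqfree X, (2 : ℝ) ^ (k * dimSum H D) ≤ C * X := by
    refine le_trans (le_of_eq (sum_congr rfl fun D hD => ?_)) (h2 X hX)
    rw [mul_comm, pow_mul]
    congr 1
    unfold dimSum
    rw [← prod_pow_eq_pow_sum]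
    refine prod_congr rfl fun i _ => ?_
    have h4 : Nat.card (QuotQ ((H i).twist D) 2) = 2 ^ dimTwo (H i) D :=
      (quot_rank (h i) (mem_sqfree hD)).1
    rw [h4]
    push_cast
    rfl
  have hS : ∀ S : Finset ℤ, S ⊆ sqfree X → ∑ D ∈ S, (2 : ℝ) ^ (k * dimSum H D) ≤ C * X :=
    fun S hS => le_trans (sum_le_sum_of_subset_of_nonneg hS (fun _ _ _ => by positivity)) h3
  refine ⟨h3, fun n => ?_, fun S hSX hne => ?_, ?_⟩
  · rw [le_div_iff₀ (by positivity)]
    refine le_trans ?_ (hS ((sqfree X).filter (fun D => n ≤ dimSum H D)) (filter_subset _ _))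
    rw [← nsmul_eq_mul]
    refine card_nsmul_le_sum _ _ _ fun D hD => ?_
    exact pow_le_pow_right₀ one_le_two (Nat.mul_le_mul_left k (mem_filter.1 hD).2)
  · have h6 := Pool.Agent.Q161.EA.jensen S (fun D => k * dimSum H D) hne _ (hS S hSX)
    rw [mul_sum]
    refine le_trans (le_of_eq (sum_congr rfl fun D _ => ?_)) h6
    push_cast
    rfl
  · refine le_trans (sum_le_sum fun D _ => ?_) h3
    rw [mul_comm k, pow_mul]
    refine pow_le_pow_left₀ (Nat.cast_nonneg _) ?_ k
    exact_mod_cast (Nat.lt_two_pow_self (n := dimSum H D)).le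

end Pool.Agent.Results.MP_1d384c_nt.AllMomentsJacobians
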