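import Pool.Agent.Q269.GL.Fin
import Pool.Agent.Q269.GL.Asm

/-!
# The joint law of the 2-Selmer groups of a quadratic twist over all the constant extensions of odd degree

Let `k` be a finite field of characteristic different from 2 in which `-1` is a square, `q = |k|`, `K = k(t)`, and let `a`, `b` be
polynomials over `k` such that `a`, `b`, `a - b` have the same degree `N ≥ 1` and `a b (a - b)` is squarefree. For a monic squarefree
polynomial `D` let `E_D` be the quadratic twist `y ^ 2 = x (x - a D) (x - b D)` of the elliptic curve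
`E : y ^ 2 = x (x - a) (x - b)` over `K`. We consider the `D` of degree `n`, `n + N` odd, such that `E_D` has non-split
multiplicative reduction at all the finite places at which `E` has bad reduction (`NonSplitTwists`, a positive proportion of
all the monic polynomials of degree `n`), and the finite extensions `k'` of `k` of odd degree prime to the degrees of
the prime divisors of `a b (a - b)` (for every odd degree, if these polynomials are products of polynomials of degree one).

Theorem. There are natural numbers `s(D)` and `j(D, r, u)` (`r > 1` odd, `u` prime to `r`), which depend only on the class of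
`u` modulo `r` up to the factors `± 2 ^ i`, with the following properties.

(1) For ALL these `D` and ALL these `k'`, with `K' = k'(t)`, the 2-Selmer group of `E_D` over `K'` has exactly
`4 ^ (s + 1) * 2 ^ (∑_(r ∣ [k' : k], r > 1) ∑_(u mod r, (u, r) = 1) j(D, r, u))` elements; `E_D(K')` is finitely generated of
rank at most the exponent of two minus 2; the exponent is 2 if and only if `E_D(K')` is finite and the 2-primary part of
the group of Tate and Shafarevich of `E_D` over `K'` is zero. By Artin, Tate and Milne the conjecture of Birch and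
Swinnerton-Dyer holds for `E_D` over `K'` then.

(2) As `n` tends to infinity, `q` FIXED, the numbers `s(D)` and `j(D, r, u)`, for the different `r` and classes of `u`, are
independent, and their laws are

`law s = c 4^s / ∏_(i ≤ 2s) (2^i - 1)`, `c = ∏_(i odd) (1 - 2^(-i)) = 0.4194…`;

`newLaw r j = ∏_(i odd) (1 + Q^(-i))^(-1) Q^(-j²) / ∏_(i ≤ j) (1 - Q^(-2i))`, `Q = 2^(f/2)`, `f` the order of 2 modulo `r`, if `-1` is a power
of 2 modulo `r` (the law of the dimension of the kernel of a random Hermitian matrix over the field with `Q²` elements);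

`newLaw r j = ∏_i (1 - Q^(-i)) Q^(-j²) / ∏_(i ≤ j) (1 - Q^(-i))²`, `Q = 2^f`, otherwise (the law for a random square matrix over
the field with `Q` elements):

for every finite set `R` of inequivalent pairs `(r, u)` and EVERY set `T` of vectors the proportion of the `D` with
`(s(D), (j(D, r, u))_R)` in `T` converges to the measure of `T` for the product of the laws. With (1) this is the joint
law of the orders of all the 2-Selmer groups of `E_D` over the fields `k'(t)`.

(3) For infinitely many extensions at the same time: let `T` be a set of odd numbers which contains the divisors of its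
elements, prime to the degrees of the prime divisors of `a b (a - b)`, such that `r^8 ≤ 2^f` for the large `r` in `T`, for
instance all the powers of 3, or all the odd numbers without prime divisors larger than some `B`; and there are such
sets which contain all odd numbers up to a set of upper density at most `ε`. The proportion of the `D` for which the
groups `E_D(K')` are finite and the 2-primary parts of the groups of Tate and Shafarevich of `E_D` over `K'` are zero (so that
the conjecture of Birch and Swinnerton-Dyer holds for `E_D` over `K'`) for ALL the `k'` with degree in `T` converges to the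
positive number `law 0 * ∏_(r ∈ T, r > 1) (newLaw r 0)^(number of classes of the u modulo r)`. For the powers of 3 the limit is
between 0.211 and 0.2113: for more than a fifth of the curves the whole conjecture holds, with rank zero, in the whole tower.

The proof. The 2-Selmer group over `k'(t)` is described by quadratic residue symbols over `k'` between the prime factors
over `k'` of `D`. The part on which the Frobenius automorphism of `k'` over `k` acts by a primitive `r`-th root of unity `ξ`
in a finite field `F` of characteristic two is the kernel of a system over `F` with two unknowns for each prime factor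
of `D` of degree divisible by `r`, with the coefficients `∑_c ξ^c (symbol of the conjugate by Frob^c)`, Hermitian if `-1` is a
power of two modulo `r`, and diagonal terms from the symbols of `a` and `b`. All the moments of the kernels are computed
(a count of the invariant maximal isotropic subspaces), given the symbols over `k`, by a dissection of the set
of the `D` and Weil's bound, and the law follows from the moments with an effective form of the inequalities of Bonferroni.
-/

set_option autoImplicit false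
set_option linter.all false

namespace Pool.Agent.Results.MP_1d384c_nt.ConstantExtensionLaw

open Polynomial Filter Pool.Agent.TH115.GD
open scoped Classical

/-- The polynomial `f` is not a square modulo `Q` (in particular it is not divisible by `Q`). -/
def NonSquareMod {k : Type} [Field k] (Q f : k[X]) : Prop := ∀ h : k[X], ¬ Q ∣ h ^ 2 - f

/-- The hypotheses on the finite field `k` and the curve `y ^ 2 = x (x - a) (x - b)`. -/
structure Hypotheses {k : Type} [Field k] (a b : k[X]) (N : ℕ) : Prop where
  two : (2 : k) ≠ 0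
  square : IsSquare (-1 : k)
  pos : 1 ≤ N
  deg_a : a.natDegree = N
  deg_b : b.natDegree = N
  deg_sub : (a - b).natDegree = N
  squarefree : Squarefree (a * b * (a - b))

/-- The monic squarefree `D` of degree `n` for which `b D` is not a square modulo the prime divisors of `a` and `a D` is
not a square modulo the prime divisors of `b (a - b)`: non-split multiplicative reduction at all the bad places. -/
def NonSplitTwists {k : Type} [Field k] (a b : k[X]) (n : ℕ) : Set k[X] :=
  {D | D.Monic ∧ D.natDegree = n ∧ Squarefree D ∧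
    (∀ Q : k[X], Irreducible Q → Q ∣ a → NonSquareMod Q (b * D)) ∧
    (∀ Q : k[X], Irreducible Q → Q ∣ b * (a - b) → NonSquareMod Q (a * D))}

/-- The curve `E_D : y ^ 2 = x (x - a D) (x - b D)` over the field `K'` of rational functions over an
extension `k'` of `k`. -/
noncomputable def twist {k : Type} [Field k] (k' K' : Type) [Field k'] [Algebra k k'] [Field K']
    [Algebra k'[X] K'] (a b D : k[X]) : WeierstrassCurve K' :=
  crv (algebraMap k'[X] K' ((a * D).map (algebraMap k k')))
    (algebraMap k'[X] K' ((b * D).map (algebraMap k k')))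

/-- The numbers prime to the degrees of the prime divisors of `f`. -/
def PrimeToDegrees {k : Type} [Field k] (f : k[X]) (e : ℕ) : Prop :=
  ∀ Q : k[X], Irreducible Q → Q ∣ f → Nat.Coprime e Q.natDegree

/-- The 2-Selmer group of a curve `W` over `K = k(t)` whose points of order two are rational: the
continuous cocycles with values in the group of the points of order at most two (on which the Galois group
acts trivially, so that these cocycles are the cohomology classes) that are coboundaries in `W` at all the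
places of `K`, the infinite place included. -/
def Sel (k : Type) {K : Type} [Field k] [Field K] [Algebra k[X] K] [IsFractionRing k[X] K]
    (W : WeierstrassCurve K) : Set ((Sep K ≃ₐ[K] Sep K) → Pt W (Sep K)) :=
  {f | IsCoc W f ∧ (∀ σ, f σ + f σ = 0) ∧ LocallyTrivial k W f}

/-- The proportion of the `D` with the property `P` in `NonSplitTwists a b n`. -/
noncomputable def proportion {k : Type} [Field k] (a b : k[X]) (P : k[X] → Prop) (n : ℕ) : ℝ :=
  (({D ∈ NonSplitTwists a b n | P D}.ncard : ℕ) : ℝ) / (((NonSplitTwists a b n).ncard : ℕ) : ℝ)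

/-- `n` goes to infinity with `n + N` odd. -/
def degrees (N : ℕ) : Filter ℕ := atTop ⊓ 𝓟 {n | Odd (n + N)}

/-- `law s = c 4^s / ((2 - 1) (2² - 1) ⋯ (2^{2 s} - 1))` with `c = ∏_{i odd} (1 - 2^{-i})`. -/
noncomputable def law (s : ℕ) : ℝ :=
  (∏' i : ℕ, (1 - (1 / 2 : ℝ) ^ (2 * i + 1))) * 4 ^ s / ∏ i ∈ Finset.range (2 * s), ((2 : ℝ) ^ (i + 1) - 1)

/-- `-1` is a power of `2` modulo `r`. -/
def Unitary (r : ℕ) : Prop := ∃ m : ℕ, r ∣ 2 ^ m + 1

/-- The law of the dimension of the kernel of a random Hermitian matrix over the field with `Q²` elements. -/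
noncomputable def lawHermitian (Q : ℝ) (j : ℕ) : ℝ :=
  (∏' i : ℕ, (1 + Q⁻¹ ^ (2 * i + 1)))⁻¹ * Q⁻¹ ^ (j ^ 2) / ∏ i ∈ Finset.range j, (1 - Q⁻¹ ^ (2 * (i + 1)))

/-- The law of the dimension of the kernel of a random square matrix over the field with `q` elements. -/
noncomputable def lawSquare (q : ℝ) (j : ℕ) : ℝ :=
  (∏' i : ℕ, (1 - q⁻¹ ^ (i + 1))) * q⁻¹ ^ (j ^ 2) / (∏ i ∈ Finset.range j, (1 - q⁻¹ ^ (i + 1))) ^ 2

/-- The law for the order `r`. -/
noncomputable def newLaw (r : ℕ) : ℕ → ℝ :=
  if Unitary r then lawHermitian (2 ^ (orderOf (2 : ZMod r) / 2)) else lawSquare (2 ^ orderOf (2 : ZMod r))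

/-- `v ≡ ± 2 ^ i u` modulo `r` for some `i`. -/
def SameClass (r u v : ℕ) : Prop := ∃ i : ℕ, v ≡ 2 ^ i * u [MOD r] ∨ r ∣ v + 2 ^ i * u

/-- A finite set of pairs `(r, u)`, `r > 1` odd, `u` prime to `r`, with inequivalent `u` for the same `r`. -/
structure Inequivalent (R : Finset (ℕ × ℕ)) : Prop where
  pair : ∀ p ∈ R, Odd p.1 ∧ 1 < p.1 ∧ Nat.Coprime p.2 p.1
  ne : ∀ p ∈ R, ∀ p' ∈ R, p ≠ p' → p.1 = p'.1 → ¬ SameClass p.1 p.2 p'.2

/-- The number of the classes of the units modulo `r` up to `± 2 ^ i`. -/
noncomputable def classes (r : ℕ) : ℕ :=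
  Nat.totient r / (if Unitary r then orderOf (2 : ZMod r) else 2 * orderOf (2 : ZMod r))

/-- The sum of the `j r u` over the divisors `r > 1` of `e` and the units `u` modulo `r`. -/
noncomputable def total (j : ℕ → ℕ → ℕ) (e : ℕ) : ℕ :=
  ∑ r ∈ e.divisors.filter (1 < ·), ∑ u ∈ (Finset.range r).filter (fun u => Nat.Coprime u r), j r u

/-- The group of the points over `K'` is finite and the 2-primary part of the group of Tate and Shafarevich is zero. -/
def Good (k' : Type) {K' : Type} [Field k'] [Field K'] [Algebra k'[X] K'] [IsFractionRing k'[X] K']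
    (W : WeierstrassCurve K') : Prop := Finite (Pt W K') ∧ ShaTwo k' W

/-- The numbers `s` and `j r u` describe the 2-Selmer groups of `E_D` over all the constant extensions of odd degree. -/
structure Describes {k : Type} [Field k] (a b D : k[X]) (s : ℕ) (j : ℕ → ℕ → ℕ) : Prop where
  same : ∀ r u v : ℕ, Odd r → 1 < r → Nat.Coprime u r → SameClass r u v → j r v = j r u
  card : ∀ (k' K' : Type) [Field k'] [Finite k'] [Algebra k k'] [Field K'] [Algebra k'[X] K']
    [IsFractionRing k'[X] K'], Odd (Module.finrank k k') → PrimeToDegrees (a * b * (a - b)) (Module.finrank k k') →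
    Nat.card (Sel k' (twist k' K' a b D)) = 4 ^ (s + 1) * 2 ^ total j (Module.finrank k k') ∧
    AddGroup.FG (Pt (twist k' K' a b D) K') ∧
    Module.finrank ℤ (Pt (twist k' K' a b D) K') ≤ 2 * s + total j (Module.finrank k k') ∧
    (2 * s + total j (Module.finrank k k') = 0 ↔ Good k' (twist k' K' a b D))

/-- A set of odd numbers which contains the divisors of its elements, such that the order of 2 modulo its large elements `r` is
at least `8 log r / log 2`. -/
structure Orders (T : Set ℕ) : Prop where
  one : 1 ∈ T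
  odd : ∀ r ∈ T, Odd r
  closed : ∀ r ∈ T, ∀ d : ℕ, d ∣ r → d ∈ T
  large : ∃ R : ℕ, ∀ r ∈ T, R < r → r ^ 8 ≤ 2 ^ orderOf (2 : ZMod r)

/-- `E_D` is good over the fields `k'(t)` for all the extensions `k'` of `k` whose degree is in `T`. -/
def GoodOverAll {k : Type} [Field k] (a b : k[X]) (T : Set ℕ) (D : k[X]) : Prop :=
  ∀ (k' K' : Type) [Field k'] [Finite k'] [Algebra k k'] [Field K'] [Algebra k'[X] K'] [IsFractionRing k'[X] K'],
    Module.finrank k k' ∈ T → Good k' (twist k' K' a b D)

/-- The product of the probabilities for the elements of `T`. -/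
noncomputable def productOver (T : Set ℕ) : ℝ := ∏' r : {r : ℕ // r ∈ T ∧ 1 < r}, newLaw r.1 0 ^ classes r.1

section proof

open Pool.Agent.Q269.GL Q283.FS Pool.Agent.Y164.PS

theorem cf_eq (j : ℕ) : Pool.Agent.Y697.PQ.cf j = 1 / ∏ i ∈ Finset.range j, ((2 : ℝ) ^ (i + 1) - 1) := by
  induction j with
  | zero => simp [Pool.Agent.Y697.PQ.cf]
  | succ j ih =>
    rw [Pool.Agent.Y697.PQ.cf, ih, Finset.prod_range_succ, div_div]

theorem law_eq : lw = law := by
  funext r
  unfold lw law
  rw [cf_eq]
  unfold Pool.Agent.Y703.CQ.c2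
  ring

theorem newLaw_eq : lawR = newLaw := rfl

theorem orderOf_two_pos {r : ℕ} (hr : Odd r) : 0 < orderOf (2 : ZMod r) := by
  have hr0 : NeZero r := ⟨by rintro rfl; exact absurd hr (by decide)⟩
  rw [orderOf_pos_iff]
  have h3 : IsUnit ((2 : ℕ) : ZMod r) := (ZMod.isUnit_iff_coprime 2 r).2 (by
    rw [Nat.coprime_comm]
    exact (Nat.coprime_two_right).2 hr)
  have h4 := isOfFinOrder_of_finite h3.unit
  rw [← Units.isOfFinOrder_val, IsUnit.unit_spec, Nat.cast_ofNat] at h4
  exact h4

theorem classes_eq {r : ℕ} (hr : Odd r) (hr1 : 1 < r) : classes r = (rp r).card := by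
  have h := Asm.c_RPX.2.2.2 r hr hr1
  have h1 := orderOf_two_pos hr
  have h2 : 0 < (if Unitary r then orderOf (2 : ZMod r) else 2 * orderOf (2 : ZMod r)) := by
    split_ifs <;> omega
  unfold classes
  rw [← h]
  exact Nat.mul_div_cancel _ h2

theorem product_eq {T : Set ℕ} (hT : ∀ r ∈ T, Odd r) : productOver T = PT T := by
  unfold productOver PT
  refine tprod_congr fun r => ?_
  rw [classes_eq (hT r.1 r.2.1) r.2.2]
  rfl

theorem hyf {k : Type} [Field k] {a b : k[X]} {N : ℕ} (h : Hypotheses a b N) : Hyf a b N :=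
  ⟨h.two, h.square, h.pos, h.deg_a, h.deg_b, h.deg_sub, h.squarefree⟩

variable {k : Type} [Field k] [Fintype k] {a b : k[X]} {N : ℕ}

theorem ext_of {k' : Type} [Field k'] [Fintype k'] [Algebra k k'] (h1 : Odd (Module.finrank k k'))
    (h2 : PrimeToDegrees (a * b * (a - b)) (Module.finrank k k')) : Pool.Agent.Q269.GR.Ext k k' a b :=
  ⟨h1, fun Q _ hi hd => h2 Q hi hd⟩

theorem describes (h : Hypotheses a b N) {n : ℕ} (hn : Odd (n + N)) {D : k[X]}
    (hD : D ∈ Cn a b n) : Describes a b D (rr (hyf h).hyp ∅ D) (fun r u => jj a b r u D) := by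
  constructor
  · intro r u v hr hr1 hu huv
    have hk : ringChar k ≠ 2 := by
      intro h0
      apply h.two
      have := ringChar.Nat.cast_ringChar (R := k)
      rw [h0] at this
      exact_mod_cast this
    have hne : a * b * (a - b) ≠ 0 := h.squarefree.ne_zero
    have hD' : D ∈ Pool.Agent.Q269.GR.Dn (a * b * (a - b)) n :=
      ((Pool.Agent.Q251.GR.mem_Cn' (hyf h).hyp n D).1 hD).1
    exact Asm.c_CJD k hk h.square (a * b * (a - b)) hne 3 (by decide) ![0, a, b] n D hD' r u v hr hr1 hu huv
  · intro k' K' _ _ _ _ _ _ ho hp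
    let _ : Fintype k' := Fintype.ofFinite k'
    obtain ⟨g1, g2, g3, g4⟩ := growth Asm.c_SLX Asm.c_CLK Asm.c_HYM (hyf h).hyp (ext_of ho hp) hn hD K'
    refine ⟨g1, g2, g3, ?_⟩
    rw [Good, twist, ← g4]
    show 2 * _ + sj a b _ D = 0 ↔ _
    omega

theorem prop_eq (H : Hyp a b N) (P Q : k[X] → Prop) (i : DecidablePred Q)
    (h : ∀ n D, Odd (n + N) → D ∈ Cn a b n → (Q D ↔ P D)) (n : ℕ) (ho : Odd (n + N)) :
    ((@Finset.filter _ Q i (Cn a b n)).card : ℝ) / ((Cn a b n).card : ℝ) = proportion a b P n := by
  have e1 := ncard_cls H n P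
  have e2 := ncard_cls' H n
  show _ = (({D ∈ cls a b n | P D}.ncard : ℕ) : ℝ) / (((cls a b n).ncard : ℕ) : ℝ)
  rw [e1, e2]
  congr 2
  congr 1
  ext D
  rw [Finset.mem_filter, Finset.mem_filter]
  exact and_congr_right fun hD => h n D ho hD

end proof

open Pool.Agent.Q269.GL Q283.FS Pool.Agent.Y164.PS in
/-- **Theorem.** -/
theorem result (k : Type) [Field k] [Finite k] (a b : k[X]) (N : ℕ) (h : Hypotheses a b N) :
    (∃ (s : k[X] → ℕ) (j : k[X] → ℕ → ℕ → ℕ),
      (∀ n : ℕ, Odd (n + N) → ∀ D ∈ NonSplitTwists a b n, Describes a b D (s D) (j D)) ∧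
      ∀ R : Finset (ℕ × ℕ), Inequivalent R → ∀ T : Set (ℕ × (R → ℕ)),
        Tendsto (proportion a b fun D => (s D, fun p : R => j D p.1.1 p.1.2) ∈ T) (degrees N)
          (nhds (∑' x : T, law x.1.1 * ∏ p : R, newLaw p.1.1 (x.1.2 p)))) ∧
    (∀ T : Set ℕ, Orders T → (∀ r ∈ T, PrimeToDegrees (a * b * (a - b)) r) → 0 < productOver T ∧
      Tendsto (proportion a b (GoodOverAll a b T)) (degrees N) (nhds (law 0 * productOver T))) ∧
    (∃ c : ℝ, 0 < c ∧ ∀ᶠ n : ℕ in degrees N,
      c * (Nat.card k : ℝ) ^ n ≤ (((NonSplitTwists a b n).ncard : ℕ) : ℝ)) ∧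
    (HasSum law 1 ∧ 0.4194 < law 0 ∧ law 0 < 0.4195 ∧
      ∀ r : ℕ, Odd r → 1 < r → (∀ j, 0 < newLaw r j) ∧ HasSum (newLaw r) 1) ∧
    (Orders {m | ∃ i : ℕ, m = 3 ^ i} ∧ 0.211 < law 0 * productOver {m | ∃ i : ℕ, m = 3 ^ i} ∧
      law 0 * productOver {m | ∃ i : ℕ, m = 3 ^ i} < 0.2113) ∧
    (∀ (ε : ℝ) (B : ℕ), 0 < ε → ∃ T : Set ℕ, Orders T ∧
      (∀ e : ℕ, Odd e → (∀ p : ℕ, p.Prime → p ∣ e → p ≤ B) → e ∈ T) ∧
      ∀ x : ℕ, (({e | 1 ≤ e ∧ e ≤ x ∧ Odd e ∧ e ∉ T} : Set ℕ).ncard : ℝ) ≤ ε * x) := by
  let _ : Fintype k := Fintype.ofFinite k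
  have H := (hyf h).hyp
  refine ⟨⟨fun D => rr H ∅ D, fun D r u => jj a b r u D, ?_, ?_⟩, ?_, ?_, ?_, ?_, ?_⟩
  · intro n hn D hD
    exact describes h hn ((mem_Cn H).2 hD)
  · intro R hR T
    have h1 := law_set Asm.c_ENL Asm.c_ADS Asm.c_LWU Asm.c_LWN (hyf h)
      (Asm.c_RPX.1 R hR.pair hR.ne) (fun p hp => ⟨(hR.pair p hp).1, (hR.pair p hp).2.1⟩) T
    rw [law_eq, newLaw_eq] at h1
    refine h1.congr' ?_
    rw [degs, EventuallyEq, eventually_inf_principal]
    filter_upwards with n ho
    exact prop_eq H _ _ _ (fun n D _ _ => Iff.rfl) n ho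
  · intro T hT hb
    have hto : Tok a b T := ⟨hT.one, hT.odd, hT.closed, hb, hT.large⟩
    rw [product_eq hT.odd]
    refine ⟨(Asm.c_TPR T hto.adt).1, ?_⟩
    have h1 := law_inf Asm.c_INF Asm.c_ADS (hyf h) hto.adt
    rw [law_eq] at h1
    refine h1.congr' ?_
    rw [degs, EventuallyEq, eventually_inf_principal]
    filter_upwards with n ho
    refine prop_eq H _ _ _ (fun n D hn hD => ?_) n ho
    exact (event_iff Asm.c_SLX Asm.c_CLK Asm.c_HYM Pool.Agent.Q269.GR.Asm.a_FLD
      Pool.Agent.Q269.GR.Asm.a_XIR H hto hn hD).symm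
  · obtain ⟨c, hc, h1⟩ := lower (hyf h)
    refine ⟨c, hc, ?_⟩
    filter_upwards [h1] with n hn
    have e2 := ncard_cls' H n
    show _ ≤ (((cls a b n).ncard : ℕ) : ℝ)
    rw [e2, Nat.card_eq_fintype_card]
    exact hn
  · have e0 : 0.4194 < law 0 ∧ law 0 < 0.4195 := by
      unfold law
      rw [mul_zero, Finset.prod_range_zero, pow_zero, mul_one, div_one]
      exact Pool.Agent.Y948.CQ.t_C2.2.2.2
    refine ⟨?_, e0.1, e0.2, fun r hr hr1 => ?_⟩
    · rw [← law_eq]
      exact sum_lw
    · rw [← newLaw_eq]
      exact lawR_pos Asm.c_LWU Asm.c_LWN hr hr1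
  · obtain ⟨g1, g2, g3⟩ := Asm.c_NTH
    have hT : Orders {m | ∃ i : ℕ, m = 3 ^ i} := by
      refine ⟨⟨0, rfl⟩, g1.1, ?_, g1.2⟩
      rintro r ⟨i, rfl⟩ d hd
      obtain ⟨l, -, hl⟩ := (Nat.dvd_prime_pow Nat.prime_three).1 hd
      exact ⟨l, hl⟩
    refine ⟨hT, ?_⟩
    rw [product_eq hT.odd, ← law_eq]
    exact ⟨g2, g3⟩
  · intro ε B hε
    obtain ⟨R₁, h1⟩ := Pool.Agent.Q269.GJ.Asm.b_SMT B
    obtain ⟨R₀, h0⟩ := Pool.Agent.Q269.GJ.Asm.b_DNS ε hε
    set R := max R₀ R₁ with hR
    refine ⟨{e | Odd e ∧ ∀ r : ℕ, r ∣ e → R < r → r ^ 8 ≤ 2 ^ orderOf (2 : ZMod r)}, ?_, ?_, ?_⟩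
    · refine ⟨⟨odd_one, fun r hr hr1 => ?_⟩, fun r hr => hr.1, fun r hr d hd => ?_, R, fun r hr hr1 => ?_⟩
      · have := Nat.le_of_dvd one_pos hr
        have e : r = 1 := by omega
        rw [e, one_pow]
        exact Nat.one_le_two_pow
      · exact ⟨hr.1.of_dvd_nat hd, fun t ht => hr.2 t (ht.trans hd)⟩
      · exact hr.2 r dvd_rfl hr1
    · intro e he hp
      exact ⟨he, fun r hr hr1 => h1 e he hp r hr (lt_of_le_of_lt (le_max_right _ _) hr1)⟩
    · intro x
      refine le_trans ?_ (h0 R (le_max_left _ _) x)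
      rw [← Set.ncard_coe_finset]
      refine Nat.cast_le.2 (Set.ncard_le_ncard ?_ (Finset.finite_toSet _))
      rintro e ⟨h2, h3, h4, h5⟩
      rw [Finset.mem_coe, Finset.mem_filter, Finset.mem_Icc]
      refine ⟨⟨h2, h3⟩, h4, ?_⟩
      by_contra h6
      apply h5
      refine ⟨h4, fun r hr hr1 => ?_⟩
      by_contra h7
      exact h6 ⟨r, hr, hr1, not_le.1 h7⟩

end Pool.Agent.Results.MP_1d384c_nt.ConstantExtensionLaw
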