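import Pool.Agent.Q69.LJ.Jac

/-!
# Large deviations of the central Euler products of hyperelliptic Jacobians with marked points over every number field

Let `K` be a number field with the ring of integers `𝓞`, `g ≥ 1` and `0 ≤ r ≤ g`. The curves of genus `g`
`C_t : y ^ 2 = f_t(x) = (x - a_1) ⋯ (x - a_r) h(x) + l(x) ^ 2`,
with a monic polynomial `h` of degree `2 g + 1 - r` and a polynomial `l` of degree `< r` over `𝓞`, are all the curves
`y ^ 2 = f(x)`, `f` monic of degree `2 g + 1`, with `r` marked points `(a_i, l(a_i))` in general position. Let `J_t` be the Jacobian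
of `C_t`, an abelian variety of dimension `g`, and `P_v(T)` the characteristic polynomial of the Frobenius at `v`, so that
`L(s, J_t) = ∏ P_v(N v ^ (-s)) ^ (-1)`; `P_v(1 / N v) = #J_t(k_v) / (N v) ^ g`. The conjecture of Birch and Swinnerton-Dyer relates
the size of the products `P(X) = ∏_{N v ≤ X} P_v(1 / N v)` at the central point `s = 1` to the rank of `J_t(K)`.

For almost all members of the family `P(X)` is `(log X) ^ (r + 1 / 2 + o(1))`. Here it is determined how many members have products
of another order of magnitude. Let the coordinates of the parameters (the `a_i`, the coefficients of `h` and those of `l`) in a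
`ℤ`-basis of `𝓞` run through any box with sides at least `X ^ ((log log X) ^ 3)`. Then the proportion of the members with
`P(X) ≥ (log X) ^ (r + 1 / 2 + y)` is `(log X) ^ (-y ^ 2 / 2 + o(1))`, uniformly in `0 ≤ y ≤ Y`, in the box and in the basis, and so
is the proportion of those with `P(X) ≤ (log X) ^ (r + 1 / 2 - y)`; both remain true if only the members with an irreducible `f_t` and
`rank J_t(K) ≥ r` are counted. Hence the proportion of the members with `rank J_t(K) ≥ r` whose product has the exponent `ρ ± η` is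
at least `(log X) ^ (-(ρ - r - 1 / 2) ^ 2 / 2 - ε)`, for every real `ρ`: the exponents satisfy a large deviation principle with speed
`log log X` and the Gaussian rate function `(ρ - r - 1 / 2) ^ 2 / 2`, the same one for all genera and all number fields. So Jacobians
for which the product of the Euler factors up to `X` looks like that of a rank `ρ'` different from `r` exist, and their number is
known up to a factor `(log X) ^ ε`.

Proof. The local values `log P_v(1 / N v)` are functions of the residues modulo `v`; the mean over the family over the residue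
field with `q` elements is `(r + 1 / 2) / q + O (q ^ (-3 / 2))`, the mean square is `1 / q + O (q ^ (-3 / 2))`, and the values at
different primes over the same rational prime are independent. The exponential moments of the sum over `p ≤ X` of a model of
independent variables are computed up to a constant factor; the parameters of a box with sides at least
`X ^ ((log log X) ^ 3)` have the same joint moments as the model up to the order `(log log X) ^ 2`, up to a tiny error, and
`(1 + x / 2 N) ^ (2 N)` is used instead of the exponential. The rank is at least `r` outside a proportion smaller than any power of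
`1 / log X`, by a sieve with about `(log log X) ^ 2` primes for the irreducibility of `f_t` and for every nonempty set of the marked
points.
-/

set_option autoImplicit false

namespace Pool.Agent.Results.MP_1d384c_nt.LargeDeviationsJacobians

open Finset NumberField Polynomial
open Q282.JK

/-- The box of the integers `n k` with `N k ≤ n k < N k + L k` for all `k`. -/
noncomputable def box {κ : Type} [Fintype κ] [DecidableEq κ] (N : κ → ℤ) (L : κ → ℕ) : Finset (κ → ℤ) :=
  Fintype.piFinset fun k => Ico (N k) (N k + L k)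

/-- The elements `t i = ∑ n (i, j) b j` with the coordinates `n (i, j)`. -/
def combine {O : Type} [CommRing O] {ι : Type} {d : ℕ} (b : Fin d → O) (n : ι × Fin d → ℤ) : ι → O :=
  fun i => ∑ j, (n (i, j) : O) * b j

open Classical in
/-- The proportion of the `n` of the box with the property `P`. -/
noncomputable def proportion {κ : Type} [Fintype κ] [DecidableEq κ] (N : κ → ℤ) (L : κ → ℕ) (P : (κ → ℤ) → Prop) : ℝ :=
  (((box N L).filter P).card : ℝ) / ∏ k, (L k : ℝ)

/-- The polynomial `f` of odd degree over the ring of integers of `K` is irreducible over `K`, and the group of the `K`-rational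
points of the Jacobian of the curve `y ^ 2 = f(x)`, which is the class group of its affine coordinate ring over `K`, has rank at
least `r`. -/
def Rank (K : Type) [Field K] [NumberField K] (r : ℕ) (f : (𝓞 K)[X]) : Prop :=
  Irreducible (f.map (algebraMap (𝓞 K) K)) ∧ HasClassRank (CoordRing (f.map (algebraMap (𝓞 K) K))) r

open Classical in
/-- Let `K` be a number field, `g ≥ 1`, `0 ≤ r ≤ g`, `Y ≥ 0`, `η > 0` and `ε > 0`. There is an `X₁` with the following property. Let
`X ≥ X₁` and `T ≥ X ^ ((log log X) ^ 3)`, let `b` be a basis of the ring of integers of `K` over `ℤ`, and let a box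
`N k ≤ n k < N k + L k` of coordinates be given all sides `L k` of which are at least `T`. For `n` in the box let
`f_n = fpol t = (x - a_1) ⋯ (x - a_r) h(x) + l(x) ^ 2`, of degree `2 g + 1`, be the polynomial with the parameters
`t i = ∑ n (i, j) b j`, and let `P_n(X) = product f_n X` be the product of the `P_v(1 / N v) = #J(k_v) / (N v) ^ g` over the primes `v`
of `K` of norm at most `X` with `Good f_n v`, `J` the Jacobian of `y ^ 2 = f_n(x)`. Then:

* for all `0 ≤ y ≤ Y` the proportion of the `n` for which `f_n` is irreducible over `K`, the rank of `J(K)` is at least `r`, and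
  `P_n(X) ≥ (log X) ^ (r + 1 / 2 + y)`, is at least `(log X) ^ (-y ^ 2 / 2 - ε)`, and the proportion of the `n` with
  `P_n(X) ≥ (log X) ^ (r + 1 / 2 + y)` is at most `(log X) ^ (-y ^ 2 / 2 + ε)`;
* for all `0 ≤ y ≤ Y` both bounds hold with `P_n(X) ≤ (log X) ^ (r + 1 / 2 - y)` instead of `P_n(X) ≥ (log X) ^ (r + 1 / 2 + y)`;
* for all real `ρ` with `|ρ - r - 1 / 2| ≤ Y` the proportion of the `n` for which `f_n` is irreducible over `K`, the rank of `J(K)` is
  at least `r`, and `(log X) ^ (ρ - η) ≤ P_n(X) ≤ (log X) ^ (ρ + η)`, is at least `(log X) ^ (-(ρ - r - 1 / 2) ^ 2 / 2 - ε)`. -/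
theorem result (K : Type) [Field K] [NumberField K] (g r : ℕ) (hg : 1 ≤ g) (hr : r ≤ g) (Y η ε : ℝ) (hY : 0 ≤ Y) (hη : 0 < η)
    (hε : 0 < ε) :
    ∃ X₁ : ℕ, ∀ X : ℕ, X₁ ≤ X → ∀ T : ℝ, (X : ℝ) ^ ((Real.log (Real.log X)) ^ 3) ≤ T →
    ∀ (b : Module.Basis (Fin (Module.finrank ℚ K)) ℤ (𝓞 K))
    (N : Idx r (2 * g + 1 - r) × Fin (Module.finrank ℚ K) → ℤ) (L : Idx r (2 * g + 1 - r) × Fin (Module.finrank ℚ K) → ℕ),
    (∀ k, T ≤ L k) →
      (∀ y : ℝ, 0 ≤ y → y ≤ Y →
        (Real.log X) ^ (-(y ^ 2 / 2) - ε) ≤
          proportion N L (fun n => Rank K r (fpol (combine b n)) ∧ (Real.log X) ^ (r + 1 / 2 + y) ≤ product (fpol (combine b n)) X) ∧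
        proportion N L (fun n => (Real.log X) ^ (r + 1 / 2 + y) ≤ product (fpol (combine b n)) X) ≤
          (Real.log X) ^ (-(y ^ 2 / 2) + ε)) ∧
      (∀ y : ℝ, 0 ≤ y → y ≤ Y →
        (Real.log X) ^ (-(y ^ 2 / 2) - ε) ≤
          proportion N L (fun n => Rank K r (fpol (combine b n)) ∧ product (fpol (combine b n)) X ≤ (Real.log X) ^ (r + 1 / 2 - y)) ∧
        proportion N L (fun n => product (fpol (combine b n)) X ≤ (Real.log X) ^ (r + 1 / 2 - y)) ≤
          (Real.log X) ^ (-(y ^ 2 / 2) + ε)) ∧
      (∀ ρ : ℝ, |ρ - (r + 1 / 2)| ≤ Y →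
        (Real.log X) ^ (-((ρ - (r + 1 / 2)) ^ 2 / 2) - ε) ≤
          proportion N L (fun n => Rank K r (fpol (combine b n)) ∧ (Real.log X) ^ (ρ - η) ≤ product (fpol (combine b n)) X ∧
            product (fpol (combine b n)) X ≤ (Real.log X) ^ (ρ + η))) := by
  have hrm : r + (2 * g + 1 - r) = 2 * g + 1 := by omega
  obtain ⟨X₁, hX₁, h⟩ := Q69.LJ.ldp_Ju K g r hg hr Y η ε hY hη hε
  refine ⟨X₁, ?_⟩
  intro X hX T hT b N L hL
  have hX16 : 16 ≤ X := hX₁.trans hX
  have hX0 : (16 : ℝ) ≤ X := by exact_mod_cast hX16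
  have hlogX : 1 < Real.log X := by
    rw [Real.lt_log_iff_exp_lt (by linarith)]
    linarith [Real.exp_one_lt_three]
  have hlog0 : 0 < Real.log X := by linarith
  have hb : ∀ x : 𝓞 K, ∃ a : Fin (Module.finrank ℚ K) → ℤ, x = ∑ j, (a j : 𝓞 K) * b j := by
    intro x
    refine ⟨fun j => b.repr x j, ?_⟩
    have h1 := b.sum_repr x
    rw [← h1]
    refine sum_congr rfl fun j _ => ?_
    rw [h1, zsmul_eq_mul]
  have hT0 : 0 < T := lt_of_lt_of_le (Real.rpow_pos_of_pos (by linarith) _) hT
  have hP0 : 0 < ∏ k, (L k : ℝ) := prod_pos fun k _ => hT0.trans_le (hL k)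
  have hpow : ∀ a : ℝ, (Real.log X) ^ a = Real.exp (a * Real.log (Real.log X)) := by
    intro a
    rw [Real.rpow_def_of_pos hlog0, mul_comm]
  have hpos : ∀ n : Idx r (2 * g + 1 - r) × Fin (Module.finrank ℚ K) → ℤ, 0 < product (fpol (combine (fun j => b j) n)) X :=
    fun n => (log_product (fpol (combine (fun j => b j) n)) (fpol_monic (by omega) _) g
      (by rw [fpol_natDegree (by omega : r ≤ 2 * g + 1 - r), hrm]) X).1
  have hle : ∀ (a : ℝ) (x : ℝ), 0 < x → ((Real.log X) ^ a ≤ x ↔ a * Real.log (Real.log X) ≤ Real.log x) := by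
    intro a x hx
    rw [hpow, Real.le_log_iff_exp_le hx]
  have hge : ∀ (a : ℝ) (x : ℝ), 0 < x → (x ≤ (Real.log X) ^ a ↔ Real.log x ≤ a * Real.log (Real.log X)) := by
    intro a x hx
    rw [hpow, Real.log_le_iff_le_exp hx]
  obtain ⟨h1, h2⟩ := h X hX T hT (fun j => b j) hb N L hL
  -- translation
  have key : ∀ y : ℝ, 0 ≤ y → y ≤ Y → ∀ (P Q : (Idx r (2 * g + 1 - r) × Fin (Module.finrank ℚ K) → ℤ) → Prop) (σ : ℝ),
      (σ = 1 ∨ σ = -1) →
      (∀ n, P n ↔ Ok K (Q282.GK.comb (fun j => b j) n) ∧
        (σ * (r + 1 / 2) + y) * Real.log (Real.log X) ≤ σ * Real.log (product (fpol (Q282.GK.comb (fun j => b j) n)) X)) →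
      (∀ n, Q n ↔ (σ * (r + 1 / 2) + y) * Real.log (Real.log X) ≤ σ * Real.log (product (fpol (Q282.GK.comb (fun j => b j) n)) X)) →
      (Real.log X) ^ (-(y ^ 2 / 2) - ε) ≤ proportion N L P ∧ proportion N L Q ≤ (Real.log X) ^ (-(y ^ 2 / 2) + ε) := by
    intro y hy hyY P Q σ hσ hP hQ
    obtain ⟨h3, h4⟩ := h1 y hy hyY σ hσ
    have e1 : -(y ^ 2 / 2) - ε = -(y ^ 2 / 2 + ε) := by ring
    have e2 : -(y ^ 2 / 2) + ε = -(y ^ 2 / 2 - ε) := by ring
    have e3 : (box N L).filter P = (Q282.GK.kbox N L).filter fun n => Ok K (Q282.GK.comb (fun j => b j) n) ∧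
        (σ * (r + 1 / 2) + y) * Real.log (Real.log X) ≤ σ * Real.log (product (fpol (Q282.GK.comb (fun j => b j) n)) X) :=
      filter_congr fun n _ => hP n
    have e4 : (box N L).filter Q = (Q282.GK.kbox N L).filter fun n =>
        (σ * (r + 1 / 2) + y) * Real.log (Real.log X) ≤ σ * Real.log (product (fpol (Q282.GK.comb (fun j => b j) n)) X) :=
      filter_congr fun n _ => hQ n
    unfold proportion
    rw [hpow, hpow, e1, e2, le_div_iff₀ hP0, div_le_iff₀ hP0, neg_mul, neg_mul, e3, e4]
    exact ⟨h3, h4⟩
  refine ⟨fun y hy hyY => ?_, fun y hy hyY => ?_, fun ρ hρ => ?_⟩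
  · refine key y hy hyY _ _ 1 (Or.inl rfl) (fun n => ?_) fun n => ?_
    · rw [hle _ _ (hpos n), one_mul, one_mul]
      rfl
    · rw [hle _ _ (hpos n), one_mul, one_mul]
      rfl
  · refine key y hy hyY _ _ (-1) (Or.inr rfl) (fun n => ?_) fun n => ?_
    · rw [hge _ _ (hpos n)]
      refine and_congr_right fun _ => ?_
      show Real.log (product (fpol (Q282.GK.comb (fun j => b j) n)) X) ≤ _ ↔ _
      constructor <;> intro h1 <;> linarith
    · rw [hge _ _ (hpos n)]
      show Real.log (product (fpol (Q282.GK.comb (fun j => b j) n)) X) ≤ _ ↔ _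
      constructor <;> intro h1 <;> linarith
  · have key3 : ∀ P : (Idx r (2 * g + 1 - r) × Fin (Module.finrank ℚ K) → ℤ) → Prop,
        (∀ n, P n ↔ Ok K (Q282.GK.comb (fun j => b j) n) ∧
          (ρ - η) * Real.log (Real.log X) ≤ Real.log (product (fpol (Q282.GK.comb (fun j => b j) n)) X) ∧
            Real.log (product (fpol (Q282.GK.comb (fun j => b j) n)) X) ≤ (ρ + η) * Real.log (Real.log X)) →
        (Real.log X) ^ (-((ρ - (r + 1 / 2)) ^ 2 / 2) - ε) ≤ proportion N L P := by
      intro P hP
      have h3 := h2 ρ hρ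
      have e1 : -((ρ - (r + 1 / 2)) ^ 2 / 2) - ε = -((ρ - (r + 1 / 2)) ^ 2 / 2 + ε) := by ring
      have e3 : (box N L).filter P = (Q282.GK.kbox N L).filter fun n => Ok K (Q282.GK.comb (fun j => b j) n) ∧
            (ρ - η) * Real.log (Real.log X) ≤ Real.log (product (fpol (Q282.GK.comb (fun j => b j) n)) X) ∧
              Real.log (product (fpol (Q282.GK.comb (fun j => b j) n)) X) ≤ (ρ + η) * Real.log (Real.log X) :=
        filter_congr fun n _ => hP n
      unfold proportion
      rw [hpow, e1, le_div_iff₀ hP0, neg_mul, e3]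
      exact h3
    refine key3 _ fun n => ?_
    rw [hle _ _ (hpos n), hge _ _ (hpos n)]
    rfl

end Pool.Agent.Results.MP_1d384c_nt.LargeDeviationsJacobians
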