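import Pool.Agent.Q282.JK.RankK
import Pool.Agent.Q282.JK.Prod

/-!
# The Euler products at the central point for almost all hyperelliptic Jacobians with marked points over every number field

Let `K` be a number field with the ring of integers `𝓞`, `g ≥ 1` and `0 ≤ r ≤ g`. The curves of genus `g`
`C_t : y ^ 2 = f_t(x) = (x - a_1) ⋯ (x - a_r) h(x) + l(x) ^ 2`,
with a monic polynomial `h` of degree `2 g + 1 - r` and a polynomial `l` of degree `< r` over `𝓞`, are all the curves
`y ^ 2 = f(x)`, `f` monic of degree `2 g + 1`, with `r` marked points `(a_i, l(a_i))` in general position. Let `J_t` be the Jacobian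
of `C_t`, an abelian variety of dimension `g`, and `P_v(T)` the characteristic polynomial of the Frobenius at `v`, so that
`L(J_t, s) = ∏ P_v(N v ^ (-s)) ^ (-1)`; `P_v(1 / N v) = #J_t(k_v) / (N v) ^ g`. The conjecture of Birch and Swinnerton-Dyer relates
the size of the partial Euler products `∏_{N v ≤ X} P_v(1 / N v)` at the central point `s = 1` to the rank of `J_t(K)`.

The parameters (the `a_i`, the coefficients of `h` and those of `l`) are given by their coordinates in an arbitrary `ℤ`-basis of
`𝓞`, which run through an arbitrary box with sides `≥ T`. It is proved that for almost all curves the polynomial `f_t` is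
irreducible over `K`, the rank of `J_t(K)` is at least `r`, and
`∏_{N v ≤ X} P_v(1 / N v) = (log X) ^ (r + 1 / 2) exp (O ((log log X) ^ (1 / 2 + δ)))`
simultaneously for all `X` between `X₀` and `T ^ c`, up to a proportion `O ((log log X₀) ^ (-A))` of exceptions.

Proof. One has `log P_v(1 / q) = T_1 / q + T_2 / (2 q ^ 2) + O (q ^ (-3 / 2))`, where `T_n = #C(F_n) - q ^ n - 1` (Weil). The mean of
`T_1` over the family over the residue field is `r + O(1 / q)` (each marked point counts one) and that of `T_2` is `q + O(1)`,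
hence the local mean is `(r + 1 / 2) / q + O (q ^ (-3 / 2))`, and the law follows from the general law for functions of the
residues of integral vectors over number fields (moments and a maximal inequality). The marked points generate a group of rank
`r` if `f_t` is irreducible and no product of some of the functions `x - a_i` is, up to constants, the norm of a square modulo norms;
by reduction this follows if for every nonempty set `S` of marked points there are a prime `v` and a root `α` of `f_t` modulo
`v` such that `∏_{i ∈ S} (a_i - α)` is not a square. The proportion of the parameters modulo `v` without such a root is at most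
`4 / 5`, and that of the reducible `f_t` modulo `v` is at most a constant less than one; hence a sieve applies.
-/

set_option autoImplicit false

namespace Pool.Agent.Results.MP_1d384c_nt.MarkedPointsJacobians

open Finset NumberField Polynomial
open Q282.JK

/-- The polynomial `f` of odd degree over the ring of integers of `K` is irreducible over `K`; the group of the `K`-rational points
of the Jacobian of the curve `y ^ 2 = f(x)`, which is the class group of its affine coordinate ring over `K`, has rank at least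
`r`; and the product `P(X)` of the `P_v(1 / N v)` over the primes `v` of `K` of norm at most `X` with `Good f v` is positive and
satisfies `|log P(X) - (r + 1 / 2) log log X| ≤ (log log X) ^ (1 / 2 + δ)` for all integers `X` with `X₀ ≤ X ≤ Y`. -/
def Typical (K : Type) [Field K] [NumberField K] (r : ℕ) (δ : ℝ) (X₀ : ℕ) (Y : ℝ) (f : (𝓞 K)[X]) : Prop :=
  Irreducible (f.map (algebraMap (𝓞 K) K)) ∧ HasClassRank (CoordRing (f.map (algebraMap (𝓞 K) K))) r ∧
    ∀ X : ℕ, X₀ ≤ X → (X : ℝ) ≤ Y → 0 < product f X ∧
      |Real.log (product f X) - (r + 1 / 2) * Real.log (Real.log X)| ≤ (Real.log (Real.log X)) ^ (1 / 2 + δ)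

open Classical in
/-- Let `K` be a number field, `g ≥ 1`, `0 ≤ r ≤ g`, `δ > 0` and `A > 0`. There are `c > 0` and `C` with the following property.
Let `b` be a basis of the ring of integers of `K` over `ℤ`, let a box `N k ≤ n k < N k + L k` of coordinates be given all sides
`L k` of which are at least `T`, and let `16 ≤ X₀ ≤ T ^ c`. Then all but at most a proportion `C (log log X₀) ^ (-A)` of the `n` of
the box have the following properties for the parameters `t = comb b n`, `t i = ∑ n (i, j) b j`, and the polynomial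
`f = fpol t = (x - a_1) ⋯ (x - a_r) h(x) + l(x) ^ 2` of degree `2 g + 1`: `f` is irreducible over `K`; the group of the `K`-rational
points of the Jacobian of the curve `y ^ 2 = f(x)` has rank at least `r`; and the product `P(X)` of the `P_v(1 / N v)` over the
primes `v` of norm at most `X` with `Good f v` is positive and satisfies
`|log P(X) - (r + 1 / 2) log log X| ≤ (log log X) ^ (1 / 2 + δ)` for all integers `X` with `X₀ ≤ X ≤ T ^ c`. -/
theorem result (K : Type) [Field K] [NumberField K] (g r : ℕ) (hg : 1 ≤ g) (hr : r ≤ g) (δ A : ℝ) (hδ : 0 < δ) (hA : 0 < A) :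
    ∃ c : ℝ, 0 < c ∧ ∃ C : ℝ, ∀ (b : Module.Basis (Fin (Module.finrank ℚ K)) ℤ (𝓞 K))
    (N : Idx r (2 * g + 1 - r) × Fin (Module.finrank ℚ K) → ℤ) (L : Idx r (2 * g + 1 - r) × Fin (Module.finrank ℚ K) → ℕ) (T : ℝ),
    0 < T → (∀ k, T ≤ L k) → ∀ X₀ : ℕ, 16 ≤ X₀ → (X₀ : ℝ) ≤ T ^ c →
      (((Q282.GK.kbox N L).filter fun n => ¬ Typical K r δ X₀ (T ^ c) (fpol (Q282.GK.comb b n))).card : ℝ) ≤
        C * (Real.log (Real.log X₀)) ^ (-A) * ∏ k, (L k : ℝ) := by
  have hrm : r + (2 * g + 1 - r) = 2 * g + 1 := by omega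
  obtain ⟨B, hB, hloc⟩ := local_J K g r (2 * g + 1 - r) hrm hr hg
  obtain ⟨c, hc, C, hC, h⟩ := Q282.GK.law_K K (Idx r (2 * g + 1 - r)) 3 (r + 1 / 2) B B hB hB.le δ A hδ hA
  obtain ⟨C', hC', h'⟩ := rank_J K g r (2 * g + 1 - r) hrm hr hg A hA
  refine ⟨min c 1, lt_min hc zero_lt_one, C + C', fun b N L T hT0 hTL X₀ hX₀ hXT => ?_⟩
  have hb : ∀ x : 𝓞 K, ∃ a : Fin (Module.finrank ℚ K) → ℤ, x = ∑ j, (a j : 𝓞 K) * b j := by
    intro x
    refine ⟨fun j => b.repr x j, ?_⟩
    have h1 := b.sum_repr x
    rw [← h1]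
    refine sum_congr rfl fun j _ => ?_
    rw [h1, zsmul_eq_mul]
  have hX₀' : (16 : ℝ) ≤ X₀ := by exact_mod_cast hX₀
  have hT1 : 1 ≤ T := by
    by_contra hlt
    push Not at hlt
    have := Real.rpow_le_one hT0.le hlt.le (lt_min hc zero_lt_one).le
    linarith
  have hXT' : (X₀ : ℝ) ≤ T := by
    refine hXT.trans ?_
    calc T ^ (min c 1) ≤ T ^ (1 : ℝ) := Real.rpow_le_rpow_of_exponent_le hT1 (min_le_right _ _)
      _ = T := Real.rpow_one T
  have hTc : T ^ (min c 1) ≤ T ^ c := Real.rpow_le_rpow_of_exponent_le hT1 (min_le_left _ _)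
  have hmon : ∀ n : Idx r (2 * g + 1 - r) × Fin (Module.finrank ℚ K) → ℤ, (fpol (Q282.GK.comb b n)).Monic :=
    fun n => fpol_monic (by omega) _
  have hdeg : ∀ n : Idx r (2 * g + 1 - r) × Fin (Module.finrank ℚ K) → ℤ, (fpol (Q282.GK.comb b n)).natDegree = 2 * g + 1 :=
    fun n => by rw [fpol_natDegree (by omega : r ≤ 2 * g + 1 - r), hrm]
  obtain ⟨E₁, hE₁⟩ : ∃ E₁ : Finset (Idx r (2 * g + 1 - r) × Fin (Module.finrank ℚ K) → ℤ), E₁ =
      (Q282.GK.kbox N L).filter fun n => ∃ X : ℕ, X₀ ≤ X ∧ (X : ℝ) ≤ T ^ c ∧ (Real.log (Real.log X)) ^ (1 / 2 + δ) <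
        |∑ v ∈ Q282.GK.SX K X, val (fpol (Q282.GK.comb b n)) v - (r + 1 / 2) * Real.log (Real.log X)| := ⟨_, rfl⟩
  obtain ⟨E₂, hE₂⟩ : ∃ E₂ : Finset (Idx r (2 * g + 1 - r) × Fin (Module.finrank ℚ K) → ℤ), E₂ =
      (Q282.GK.kbox N L).filter fun n => ¬ Ok K (Q282.GK.comb b n) := ⟨_, rfl⟩
  have h1 := h (fun v t => val (fpol t) v) hloc (fun j => b j) hb N L T hT0 hTL X₀ hX₀ E₁
    (by rw [hE₁]; exact filter_subset _ _) (by
      intro n hn
      rw [hE₁, mem_filter] at hn
      exact hn.2)
  have h2 := h' (fun j => b j) hb N L T X₀ hX₀ hXT' hTL E₂ (by rw [hE₂]; exact filter_subset _ _) (by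
      intro n hn
      rw [hE₂, mem_filter] at hn
      exact hn.2)
  have h3 : ((Q282.GK.kbox N L).filter fun n => ¬ Typical K r δ X₀ (T ^ (min c 1)) (fpol (Q282.GK.comb b n))) ⊆ E₁ ∪ E₂ := by
    intro n hn
    rw [mem_filter] at hn
    rw [mem_union]
    by_contra hno
    rw [not_or] at hno
    refine hn.2 ?_
    have h4 : Ok K (Q282.GK.comb b n) := by
      by_contra h5
      exact hno.2 (by rw [hE₂]; exact mem_filter.2 ⟨hn.1, h5⟩)
    refine ⟨h4.1, h4.2, fun X hX1 hX2 => ?_⟩
    obtain ⟨h5, h6⟩ := log_product (fpol (Q282.GK.comb b n)) (hmon n) g (hdeg n) X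
    refine ⟨h5, ?_⟩
    rw [h6]
    by_contra h7
    push Not at h7
    exact hno.1 (by rw [hE₁]; exact mem_filter.2 ⟨hn.1, X, hX1, hX2.trans hTc, h7⟩)
  have h4 := card_le_card h3
  have h5 := (Nat.cast_le (α := ℝ)).2 (h4.trans (card_union_le _ _))
  push_cast at h5
  refine h5.trans ((add_le_add h1 h2).trans (le_of_eq ?_))
  ring

end Pool.Agent.Results.MP_1d384c_nt.MarkedPointsJacobians
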