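import Pool.Agent.Q197.FM.Two2

/-!
# MP_1e1427_nt: the question for random sets of integers

The question asks whether every odd `n > 1` is a sum of four squares `x² + y² + z² + w²` for which
`2^(x+y) + 2^(z+w) + 1` is a prime.

* Part 1 (unconditional). Every large odd `n` has at least `n ^ (1 - ε)` different numbers `N` of this
  form all of whose prime factors are larger than `c log n log log n / log log log n`.
* Part 2. The set of the primes is replaced by a random set `A` of natural numbers. It is only assumed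
  that the events `N ∈ A` are independent and that `N ∈ A` has probability at least
  `(log N) ^ (-β)` for all large `N` all of whose prime factors are larger than `C log log N`. Then
  almost surely every large odd `n` has at least `n ^ (1 - β / 2 - ε)` different `N` that lie in `A`.
-/

set_option autoImplicit false

namespace Pool.Agent.Results.MP_1e1427_nt.RandomPrimesFourSquares

open MeasureTheory ProbabilityTheory Filter

theorem result (ε : ℝ) (hε : 0 < ε) :
    (∃ c : ℝ, 0 < c ∧ ∃ n₀ : ℕ, ∀ n : ℕ, n₀ ≤ n → Odd n →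
      ∃ T : Finset ℕ, (n : ℝ) ^ (1 - ε) ≤ (T.card : ℝ) ∧
        ∀ N ∈ T,
          (∃ x y z w : ℕ, n = x ^ 2 + y ^ 2 + z ^ 2 + w ^ 2 ∧ N = 2 ^ (x + y) + 2 ^ (z + w) + 1) ∧
          ∀ q : ℕ, q.Prime → q ∣ N →
            c * (Real.log n * Real.log (Real.log n) / Real.log (Real.log (Real.log n))) < q) ∧
    (∀ β C : ℝ, 0 ≤ β → β / 2 + ε ≤ 1 →
      ∀ (Ω : Type) [MeasurableSpace Ω] (μ : Measure Ω) [IsProbabilityMeasure μ] (A : Ω → Set ℕ),
        (∀ N : ℕ, MeasurableSet {ω | N ∈ A ω}) →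
        iIndepSet (fun N : ℕ => {ω | N ∈ A ω}) μ →
        (∃ N₀ : ℕ, ∀ N : ℕ, N₀ ≤ N →
          (∀ q : ℕ, q.Prime → q ∣ N → C * Real.log (Real.log N) < q) →
          (Real.log N) ^ (-β) ≤ μ.real {ω | N ∈ A ω}) →
        ∀ᵐ ω ∂μ, ∃ n₀ : ℕ, ∀ n : ℕ, n₀ ≤ n → Odd n →
          ∃ T : Finset ℕ, (n : ℝ) ^ (1 - β / 2 - ε) ≤ (T.card : ℝ) ∧
            ∀ N ∈ T, N ∈ A ω ∧
              ∃ x y z w : ℕ, n = x ^ 2 + y ^ 2 + z ^ 2 + w ^ 2 ∧ N = 2 ^ (x + y) + 2 ^ (z + w) + 1) := by
  refine ⟨Pool.Agent.Q197.FM.two_values ε hε, fun β C hβ hβε Ω _ μ _ A hA1 hA2 hN => ?_⟩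
  obtain ⟨N₀, hN⟩ := hN
  have h1 := Pool.Agent.Q197.FM.two_random (μ := μ) (A := A) ⟨hA1, hA2⟩ hβ hε hβε hN
  filter_upwards [h1] with ω h2
  obtain ⟨n₀, h3⟩ := eventually_atTop.1 h2
  exact ⟨n₀, h3⟩

end Pool.Agent.Results.MP_1e1427_nt.RandomPrimesFourSquares
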