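import Pool.Agent.Q50.HY.Two

/-!
# The hyperbolic analytic subspace conjecture at special points

Let `o` be a special point of a Hermitian symmetric domain `X` of a Shimura variety. The tangent space
`T_o X` has a geometric and an arithmetic structure over the field of algebraic numbers, and it is the
direct sum of lines which are rational for both. In coordinates, indexed by a finite set `A`: the
geometric structure consists of the vectors with algebraic coordinates `v a`, and the arithmetic
structure of the vectors for which all `lam a * v a` are algebraic. The special points `z` of the
bounded domain in `T_o X` have algebraic coordinates. We study Q1 at these points.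

* `V` contains a subspace through `z` which is rational for both structures, for all subspaces `V`
  through `z` which are rational for the arithmetic structure, if and only if every linear relation
  with algebraic coefficients between the numbers `lam a * z a` is a sum of such relations between
  numbers with algebraic quotients of the factors `lam a`.
* For the Siegel space the factors are `θ i * θ j / π`. Under the theorem of Wüstholz for the numbers
  `θ i` the assertion holds for all `z` and all subspaces `V` defined by equations which give products
  of two linear forms, and for all `V` if the nonzero entries of `z` are in one row and the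
  corresponding column. The second condition holds for the special points of a Shimura variety of a
  unitary group of signature `(n, 1)` which contains `o`.
* It holds for all `V` if the periods which occur are algebraic multiples of two of them, in particular
  for all special points if `g = 2`. This does not need the theorem of Wüstholz.
-/

set_option maxHeartbeats 4000000
set_option synthInstance.maxHeartbeats 400000

namespace Pool.Agent.Results.MP_1e27bd_ag.SpecialPoints

open Pool.Agent.Q50.HY

/-- **Q1 at the points with algebraic coordinates.**

(1) For all nonzero factors `lam a` and all `z` with algebraic coordinates: Q1 holds at `z` for all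
subspaces `V` if and only if all linear relations between the numbers `lam a * z a` split.

For nonzero `θ 1, ..., θ g`, the factors `θ i * θ j / π` and `z` with algebraic coordinates:

(2) if all linear relations between the `θ i` split (Wüstholz), then Q1 holds at `z` for all subspaces
`V` through `z` defined by equations `c` for which the quadratic form with the coefficients `c s * z s`
is a product of two linear forms with algebraic coefficients;

(3) if all linear relations between the `θ i` split and the nonzero entries of `z` are in one row and
the corresponding column, then Q1 holds at `z` for all `V`;

(4) if the `θ i` which occur in `z` are algebraic multiples of two of the periods, then Q1 holds at `z`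
for all `V`;

(5) if `g = 2`, then Q1 holds at `z` for all `V`. -/
theorem result :
    (∀ (A : Type) [Fintype A] (lam z : A → ℂ), (∀ a, lam a ≠ 0) → z ∈ geometric A →
      (HoldsAt lam z ↔ OnlyTrivialRelations lam fun a => lam a * z a)) ∧
    ∀ (g : ℕ) (θ : Fin g → ℂ) (z : Fin g × Fin g → ℂ), (∀ i, θ i ≠ 0) →
      z ∈ geometric (Fin g × Fin g) →
      (OnlyTrivialRelations θ θ →
        (∀ (C : Set (Fin g × Fin g → ℂ)) (V : Submodule ℂ (Fin g × Fin g → ℂ)),
          (∀ c ∈ C, IsProduct c z) → IsDefinedBy (siegel θ) C V → z ∈ V →
            HasBiRational (siegel θ) V z) ∧
        (InOneRow z → HoldsAt (siegel θ) z)) ∧
      (InTwoClasses θ z → HoldsAt (siegel θ) z) ∧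
      (g = 2 → HoldsAt (siegel θ) z) := by
  refine ⟨fun A _ lam z h hz => holdsAt_iff h hz, fun g θ z h hz => ⟨fun hW => ⟨?_, ?_⟩, ?_, ?_⟩⟩
  · exact fun C V hC hV hzV => hasBiRational_of_products h hW hz hC hV hzV
  · exact fun hr => holdsAt_of_row h hW hz hr
  · exact fun ht => holdsAt_of_two h hz ht
  · intro hg
    subst hg
    refine holdsAt_of_two h hz ⟨0, 1, fun i j _ => ?_⟩
    have key : ∀ k : Fin 2, θ k / θ 0 ∈ Qbar ∨ θ k / θ 1 ∈ Qbar := by
      intro k
      fin_cases k
      · exact Or.inl (rel_refl h 0)
      · exact Or.inr (rel_refl h 1)
    exact ⟨key i, key j⟩

end Pool.Agent.Results.MP_1e27bd_ag.SpecialPoints
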