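import Mathlib
import Pool.Agent.Helper159.Atomic

/-!
# The chain `1 + *ω + ω + 1` is attainable (MP_1e8505_an, Q1)

There is a bounded operator on `ℓ²(ℤ)` whose closed invariant subspaces are exactly `{0}`, the whole
space and the subspaces `M_k = {f : f n = 0 for n < k}`, `k ∈ ℤ`. In particular its lattice of
closed invariant subspaces is order isomorphic to `ℤ` with a new least and a new greatest element.

The construction is the one of `Pool.Agent.Helper159` for countable linear orders.
-/

set_option autoImplicit false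

namespace Pool.Agent.Results.MP_1e8505_an.ChainZ

/-- complex `ℓ²(ℤ)` -/
abbrev EllTwo : Type := lp (fun _ : ℤ => ℂ) 2

/-- `M` is a closed subspace invariant under `T` -/
def IsInvariant (T : EllTwo →L[ℂ] EllTwo) (M : Submodule ℂ EllTwo) : Prop :=
  IsClosed (M : Set EllTwo) ∧ ∀ x ∈ M, T x ∈ M

/-- the subspace `M_k` of the vectors supported in `[k, ∞)` -/
def tail (k : ℤ) : Submodule ℂ EllTwo where
  carrier := {f | ∀ n : ℤ, n < k → f n = 0}
  add_mem' := by
    intro f g hf hg n hn
    change f n + g n = 0
    rw [hf n hn, hg n hn, add_zero]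
  zero_mem' := by
    intro n _
    rfl
  smul_mem' := by
    intro c f hf n hn
    change c * f n = 0
    rw [hf n hn, mul_zero]

theorem mem_tail (k : ℤ) (f : EllTwo) : f ∈ tail k ↔ ∀ n : ℤ, n < k → f n = 0 := Iff.rfl

theorem exists_op : ∃ T : EllTwo →L[ℂ] EllTwo, ∀ M : Submodule ℂ EllTwo,
    IsInvariant T M ↔ (M = ⊥ ∨ M = ⊤ ∨ ∃ k : ℤ, M = tail k) := by
  let _ : Encodable ℤᵒᵈ := inferInstanceAs (Encodable ℤ)
  obtain ⟨T, hT⟩ : ∃ T : EllTwo →L[ℂ] EllTwo, ∀ M : Submodule ℂ EllTwo,
      IsInvariant T M ↔ ∃ D : LowerSet ℤᵒᵈ, ∀ f : EllTwo, f ∈ M ↔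
        ∀ q : ℤ, OrderDual.toDual q ∉ D → f q = 0 :=
    Pool.Agent.Helper159.lat_lowerSet (Ω := ℤᵒᵈ)
  refine ⟨T, fun M => (hT M).trans ⟨?_, ?_⟩⟩
  · rintro ⟨D, hD⟩
    by_cases h1 : ∀ q : ℤ, OrderDual.toDual q ∉ D
    · left
      rw [eq_bot_iff]
      intro f hf
      rw [Submodule.mem_bot]
      ext q
      exact (hD f).1 hf q (h1 q)
    by_cases h2 : ∀ q : ℤ, OrderDual.toDual q ∈ D
    · right; left
      rw [eq_top_iff]
      intro f _
      exact (hD f).2 fun q hq => absurd (h2 q) hq
    right; right
    push Not at h1 h2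
    obtain ⟨a, ha⟩ := h1
    obtain ⟨b, hb⟩ := h2
    have hSb : ∀ n : ℤ, OrderDual.toDual n ∈ D → b ≤ n := by
      intro n hn
      by_contra hc
      push Not at hc
      exact hb (D.lower (show OrderDual.toDual b ≤ OrderDual.toDual n from hc.le) hn)
    obtain ⟨k, hk, hmin⟩ := Int.exists_least_of_bdd
      (P := fun n : ℤ => OrderDual.toDual n ∈ D) ⟨b, hSb⟩ ⟨a, ha⟩
    refine ⟨k, ?_⟩
    ext f
    rw [hD f, mem_tail]
    constructor
    · intro h n hn
      refine h n ?_
      intro hc
      exact absurd (hmin n hc) (not_le.2 hn)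
    · intro h q hq
      refine h q ?_
      by_contra hc
      push Not at hc
      exact hq (D.lower (show OrderDual.toDual q ≤ OrderDual.toDual k from hc) hk)
  · rintro (h | h | ⟨k, h⟩)
    · refine ⟨⊥, fun f => ?_⟩
      rw [h, Submodule.mem_bot]
      constructor
      · intro hf q _
        rw [hf]; rfl
      · intro hf
        ext q
        exact hf q (by simp)
    · refine ⟨⊤, fun f => ?_⟩
      rw [h]
      constructor
      · intro _ q hq
        exact absurd (by simp) hq
      · intro _
        trivial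
    · refine ⟨LowerSet.Iic (OrderDual.toDual k), fun f => ?_⟩
      rw [h, mem_tail]
      constructor
      · intro hf q hq
        refine hf q ?_
        by_contra hc
        push Not at hc
        exact hq hc
      · intro hf n hn
        refine hf n ?_
        intro hc
        exact absurd (show k ≤ n from hc) (not_le.2 hn)

/-- the chain of subspaces -/
noncomputable def sub : WithBot (WithTop ℤ) → Submodule ℂ EllTwo
  | none => ⊥
  | some none => ⊤
  | some (some k) => tail (-k)

/-- the basis vectors -/
noncomputable def ev (n : ℤ) : EllTwo := lp.single 2 n (1 : ℂ)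

theorem ev_self (n : ℤ) : ev n n = 1 := by
  unfold ev
  simp

theorem ev_ne (n m : ℤ) (h : m ≠ n) : ev n m = 0 := by
  unfold ev
  simp [h]

theorem single_mem (k n : ℤ) (h : k ≤ n) : ev n ∈ tail k := by
  intro m hm
  exact ev_ne n m (by omega)

theorem single_notMem (k n : ℤ) (h : n < k) : ev n ∉ tail k := by
  intro hc
  have := hc n h
  rw [ev_self] at this
  exact one_ne_zero this

theorem tail_ne_bot (k : ℤ) : tail k ≠ ⊥ := by
  intro h
  have h1 := single_mem k k le_rfl
  rw [h, Submodule.mem_bot] at h1
  have h2 : ev k k = 0 := by rw [h1]; rfl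
  rw [ev_self] at h2
  exact one_ne_zero h2

theorem tail_ne_top (k : ℤ) : tail k ≠ ⊤ := by
  intro h
  have h1 := single_notMem k (k - 1) (by omega)
  rw [h] at h1
  exact h1 trivial

theorem tail_lt {k l : ℤ} (h : l < k) : tail k < tail l := by
  refine lt_of_le_of_ne ?_ ?_
  · intro f hf n hn
    exact hf n (by omega)
  · intro hc
    have h1 := single_mem l l le_rfl
    rw [← hc] at h1
    exact single_notMem k l h h1

theorem sub_strictMono : StrictMono sub := by
  intro x y hxy
  match x, y, hxy with
  | none, none, h => exact absurd h (lt_irrefl _)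
  | none, some none, _ => exact (bot_lt_iff_ne_bot.2 (tail_ne_bot 0)).trans_le le_top
  | none, some (some k), _ => exact bot_lt_iff_ne_bot.2 (tail_ne_bot _)
  | some x, none, h => exact absurd h not_lt_bot
  | some none, some none, h => exact absurd h (lt_irrefl _)
  | some none, some (some k), h => exact absurd (WithBot.coe_lt_coe.1 h) not_top_lt
  | some (some k), some none, _ => exact lt_top_iff_ne_top.2 (tail_ne_top _)
  | some (some k), some (some l), h =>
    have h1 : k < l := WithTop.coe_lt_coe.1 (WithBot.coe_lt_coe.1 h)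
    exact tail_lt (by omega)

/-- **The chain `1 + *ω + ω + 1` is attainable.** There is a bounded operator on `ℓ²(ℤ)` whose
closed invariant subspaces are exactly `{0}`, the whole space and the `M_k`, `k ∈ ℤ`; the lattice
of closed invariant subspaces is order isomorphic to `ℤ` with a least and a greatest element
adjoined. -/
theorem result : ∃ T : EllTwo →L[ℂ] EllTwo,
    (∀ M : Submodule ℂ EllTwo, IsInvariant T M ↔ (M = ⊥ ∨ M = ⊤ ∨ ∃ k : ℤ, M = tail k)) ∧
    Nonempty (WithBot (WithTop ℤ) ≃o {M : Submodule ℂ EllTwo // IsInvariant T M}) := by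
  obtain ⟨T, hT⟩ := exists_op
  refine ⟨T, hT, ?_⟩
  have hinv : ∀ x, IsInvariant T (sub x) := by
    intro x
    rw [hT]
    match x with
    | none => exact Or.inl rfl
    | some none => exact Or.inr (Or.inl rfl)
    | some (some k) => exact Or.inr (Or.inr ⟨-k, rfl⟩)
  let F : WithBot (WithTop ℤ) → {M : Submodule ℂ EllTwo // IsInvariant T M} :=
    fun x => ⟨sub x, hinv x⟩
  have hF : StrictMono F := fun x y h => sub_strictMono h
  have hs : Function.Surjective F := by
    rintro ⟨M, hM⟩
    rcases (hT M).1 hM with h | h | ⟨k, h⟩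
    · exact ⟨none, Subtype.ext h.symm⟩
    · exact ⟨some none, Subtype.ext h.symm⟩
    · refine ⟨some (some (-k)), Subtype.ext ?_⟩
      change tail (- -k) = M
      rw [neg_neg, h]
  exact ⟨StrictMono.orderIsoOfSurjective F hF hs⟩

end Pool.Agent.Results.MP_1e8505_an.ChainZ
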