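import Pool.Agent.Q197.OT.Clu
import Pool.Agent.Q120.MF.Exists

/-!
# The thresholds `N(k)` of the `k`-fold Oppermann conjecture in Cramér's random model

`A` is Cramér's random model of the primes: the events `n ∈ A`, `n ≥ 3`, are independent with the probabilities
`1 / log n`. `N A k` is the least threshold: for every `n > N A k` both intervals of the question contain at least `k`
elements. Put `θ(k) = (N / (2 log N) - k) / √N` with `N = N A k`. Almost surely the limit points of `θ` are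
exactly the numbers from `1 / √2` to `1`, and for `1 / √2 ≤ t < 1` the number of the `k ≤ K` with `θ(k) > t` is
`K ^ (3 / 2 - t ^ 2 + o(1))`; so `θ(k)` is near `1 / √2` for almost all `k`.
-/

set_option autoImplicit false

namespace Pool.Agent.Results.MP_1e9cc8_nt.ThresholdLaw

open MeasureTheory Filter Pool.Agent.Q120.MF
open scoped Topology

/-- both intervals of the question contain at least `k` elements of `S` -/
def AtLeast (S : Set ℕ) (k n : ℕ) : Prop :=
  k ≤ (S ∩ Set.Icc (n ^ 2 - n) (n ^ 2)).ncard ∧ k ≤ (S ∩ Set.Icc (n ^ 2) (n ^ 2 + n)).ncard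

/-- the least threshold -/
noncomputable def N (S : Set ℕ) (k : ℕ) : ℕ := sInf {m | ∀ n, m < n → AtLeast S k n}

/-- the normalized threshold -/
noncomputable def θ (S : Set ℕ) (k : ℕ) : ℝ := (N S k / (2 * Real.log (N S k)) - k) / √(N S k : ℝ)

/-- the number of the `k ≤ K` with `θ(k) > t` -/
noncomputable def count (S : Set ℕ) (t : ℝ) (K : ℕ) : ℕ := {k : ℕ | 1 ≤ k ∧ k ≤ K ∧ t < θ S k}.ncard

open Q197.OT

lemma bad_iff (S : Set ℕ) (k n : ℕ) : ¬ AtLeast S k n ↔ Bad (um S) (up S) k n := by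
  unfold AtLeast Bad um up
  rw [not_and_or, not_le, not_le]

lemma n_eq {S : Set ℕ} (F : Facts (um S) (up S)) (k : ℕ) : N S k = Nk (um S) (up S) k := by
  have hfin := bad_finite F k
  have hmem : Nk (um S) (up S) k ∈ {m | ∀ n, m < n → AtLeast S k n} := by
    intro n hn
    by_contra hcon
    have := le_nk F ((bad_iff S k n).1 hcon)
    omega
  refine le_antisymm (Nat.sInf_le hmem) ?_
  have h1 : N S k ∈ {m | ∀ n, m < n → AtLeast S k n} := Nat.sInf_mem ⟨_, hmem⟩
  rcases ({n | Bad (um S) (up S) k n} : Set ℕ).eq_empty_or_nonempty with h2 | h2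
  · have h3 : Nk (um S) (up S) k = 0 := by
      unfold Nk
      rw [h2, csSup_empty]
      rfl
    omega
  · have h3 : Bad (um S) (up S) k (Nk (um S) (up S) k) := Nat.sSup_mem h2 hfin.bddAbove
    by_contra hcon
    exact ((bad_iff S k _).2 h3) (h1 _ (by omega))

lemma θ_eq {S : Set ℕ} (F : Facts (um S) (up S)) : θ S = th (um S) (up S) := by
  funext k
  unfold θ th fn
  rw [n_eq F]

lemma count_eq {S : Set ℕ} (F : Facts (um S) (up S)) (t : ℝ) (K : ℕ) [DecidablePred fun k => t < th (um S) (up S) k] :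
    count S t K = ((Finset.Icc 1 K).filter (fun k => t < th (um S) (up S) k)).card := by
  unfold count
  rw [← Set.ncard_coe_finset, θ_eq F]
  congr 1
  ext k
  simp [and_assoc]

/-- **The law of the thresholds.** -/
theorem result :
    (∃ (Ω : Type) (_ : MeasurableSpace Ω) (μ : Measure Ω) (A : Ω → Set ℕ), IsProbabilityMeasure μ ∧ IsCramer μ A) ∧
    ∀ (Ω : Type) [MeasurableSpace Ω] (μ : Measure Ω) [IsProbabilityMeasure μ] (A : Ω → Set ℕ), IsCramer μ A →
      ∀ᵐ ω ∂μ,
        -- the assertion of the question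
        (∀ k : ℕ, ∀ n, N (A ω) k < n → AtLeast (A ω) k n) ∧
        -- all thresholds: `1 / √2 - o(1) ≤ θ(k) ≤ 1 + o(1)`
        (∀ ε : ℝ, 0 < ε → ∀ᶠ k : ℕ in atTop, 1 / √2 - ε < θ (A ω) k ∧ θ (A ω) k < 1 + ε) ∧
        -- the limit points
        (∀ x : ℝ, MapClusterPt x atTop (θ (A ω)) ↔ 1 / √2 ≤ x ∧ x ≤ 1) ∧
        -- the number of the exceptional thresholds
        (∀ t : ℝ, 1 / √2 ≤ t → t < 1 → ∀ ε : ℝ, 0 < ε → ∀ᶠ K : ℕ in atTop,
          (K : ℝ) ^ (3 / 2 - t ^ 2 - ε) ≤ count (A ω) t K ∧ (count (A ω) t K : ℝ) ≤ (K : ℝ) ^ (3 / 2 - t ^ 2 + ε)) := by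
  classical
  refine ⟨⟨_, _, cramerMeasure, cramerSet, inferInstance, isCramer⟩, ?_⟩
  intro Ω _ μ _ A hA
  filter_upwards [ae_facts hA] with ω F
  refine ⟨fun k n hn => ?_, fun ε hε => ?_, fun x => ?_, fun t ht ht1 ε hε => ?_⟩
  · rw [n_eq F] at hn
    by_contra hcon
    have := le_nk F ((bad_iff _ k n).1 hcon)
    omega
  · rw [θ_eq F]
    filter_upwards [lt_th_ev F (show 1 / √2 - ε < 1 / √2 by linarith), th_lt F (show 1 < 1 + ε by linarith)] with k h1 h2
    exact ⟨h1, h2⟩
  · rw [θ_eq F]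
    exact cluster F x
  · obtain ⟨s1, s2, s3⟩ := sqrt_half
    have ht0 : 0 < t := lt_of_lt_of_le s2 ht
    have ht2 : 1 / 2 ≤ t ^ 2 := by
      rw [← s3]
      exact pow_le_pow_left₀ s2.le ht 2
    filter_upwards [count_low F ht0 ht1 ht2 hε, count_up F ht0 ht1 hε] with K h1 h2
    rw [count_eq F]
    constructor
    · convert h1 using 4
    · convert h2 using 3

end Pool.Agent.Results.MP_1e9cc8_nt.ThresholdLaw
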