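import Pool.Agent.Q138.PS.VF
import Pool.Agent.Results.MP_1f047c_nt.PadicTuplesWindows

/-!
# Singular matrices of `p`-adic logarithms of the integers close to `α P(n)`

Let `q ≥ 2` and let `𝒞_p` be a countable subset of `ℂ_p`, for each prime `p`. Outside a set of real numbers of Hausdorff
dimension at most `q / (q + 1 / (q 2 ^ (q - 1)))` (that is `8 / 9` for `q = 2`) every `α > 0` has the following property. There is
`η > 0` such that for ALL primes `p`, ALL number fields `K` in `ℂ_p` and ALL `K`-spaces `V` spanned by finitely many elements of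
`𝒞_p` for which question Q2 has a positive answer over `K` (or of dimension at most `1`), there is `κ > 0` such that for all
large `N` and ALL integral polynomials `P` of degree `q` with positive leading coefficient and coefficients of size at most
`N ^ η`: for all but `N ^ (1 - κ)` of the `n ≤ N`, for EVERY integer `t ≥ 1` with `|t - ⌊α P(n)⌋| ≤ N ^ κ`: `log_p t` is not in `V`,
and Q2 has a positive answer over `K` for the space `V + K log_p t`.
-/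

set_option autoImplicit false

open Module

namespace Pool.Agent.Results.MP_1f047c_nt.PadicLogsAlongRealMultiples

open Finset Filter Topology
open Pool.Agent.Q138.PS
open PadicTuplesWindows (IsIwasawaLog Q2Holds Extends)

/-- `t ≥ 1` and the conclusion fails for `V + K L(t)` -/
def Fails {p : ℕ} [Fact p.Prime] (L : ℂ_[p] → ℂ_[p]) {K : IntermediateField ℚ ℂ_[p]}
    (V : Submodule K ℂ_[p]) (t : ℕ) : Prop :=
  1 ≤ t ∧ ¬ Extends V fun _ : Fin 1 => L (t : ℂ_[p])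

theorem few {p : ℕ} [Fact p.Prime] (L : ℂ_[p] → ℂ_[p]) (hL : IsIwasawaLog p L)
    (K : IntermediateField ℚ ℂ_[p]) (hK : FiniteDimensional ℚ K) (V : Submodule K ℂ_[p])
    (hV : Module.Finite K V) (hV0 : finrank K V ≤ 1 ∨ Q2Holds V) :
    ∃ c C : ℝ, 0 < c ∧ ∀ Y : ℕ, 1 ≤ Y → cn (Fails L V) Y ≤ C * (Y : ℝ) ^ (1 - c) := by
  obtain ⟨c, hc, C, h⟩ := PadicTuplesWindows.result.1 1 (finrank ℚ K) (finrank K V)
  refine ⟨c, C * p, hc, fun Y hY => ?_⟩
  obtain ⟨B, hB, h1⟩ := h p L hL K hK le_rfl V hV le_rfl hV0 Y hY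
  rw [Nat.cast_one] at hB
  refine le_trans (cn_of_fin _ _ B ?_) hB
  rintro t ht1 ht2 ⟨-, hbad⟩
  by_contra hn
  exact hbad (h1 (fun _ => t) (fun _ => ⟨ht1, ht2⟩) hn)

/-- **Theorem.** -/
theorem result (q : ℕ) (hq : 2 ≤ q) (L : ∀ (p : ℕ) [Fact p.Prime], ℂ_[p] → ℂ_[p])
    (hL : ∀ (p : ℕ) [Fact p.Prime], IsIwasawaLog p (L p)) (𝒞 : ∀ (p : ℕ) [Fact p.Prime], Set ℂ_[p])
    (h𝒞 : ∀ (p : ℕ) [Fact p.Prime], (𝒞 p).Countable) :
    ∃ E : Set ℝ, dimH E ≤ ENNReal.ofReal (q / (q + 1 / ((q : ℝ) * 2 ^ (q - 1)))) ∧ ∀ α : ℝ, 0 < α → α ∉ E →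
      ∃ η : ℝ, 0 < η ∧ ∀ (p : ℕ) [Fact p.Prime] (K : IntermediateField ℚ ℂ_[p]), FiniteDimensional ℚ K →
      ∀ (s : ℕ) (v : Fin s → ℂ_[p]), (∀ i, v i ∈ 𝒞 p) →
      (finrank K (Submodule.span K (Set.range v)) ≤ 1 ∨ Q2Holds (Submodule.span K (Set.range v))) →
      ∃ κ : ℝ, 0 < κ ∧ ∀ᶠ N : ℕ in atTop, ∀ P : Polynomial ℤ, P.natDegree = q → 0 < P.leadingCoeff →
        (∀ j, |((P.coeff j : ℤ) : ℝ)| ≤ (N : ℝ) ^ η) →
        (badW (Fails (L p) (Submodule.span K (Set.range v))) ⌊(N : ℝ) ^ κ⌋₊ α P N : ℝ) ≤ (N : ℝ) ^ (1 - κ) := by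
  classical
  have hC : ∀ p : {p : ℕ // Fact p.Prime}, Countable {x : @PadicComplex p.1 p.2 // x ∈ @𝒞 p.1 p.2} := fun p =>
    (@h𝒞 p.1 p.2).to_subtype
  have hK : ∀ p : {p : ℕ // Fact p.Prime}, Countable {K : IntermediateField ℚ (@PadicComplex p.1 p.2) //
      FiniteDimensional ℚ K} := fun p => @countG (@PadicComplex p.1 p.2) _ _
  obtain ⟨E, hE, hg⟩ := exc_bad (ι := Σ p : {p : ℕ // Fact p.Prime}, {K : IntermediateField ℚ (@PadicComplex p.1 p.2) //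
      FiniteDimensional ℚ K} × (Σ s : ℕ, Fin s → {x : @PadicComplex p.1 p.2 // x ∈ @𝒞 p.1 p.2})) q hq
    (fun i => @Fails i.1.1 i.1.2 (@L i.1.1 i.1.2) i.2.1.1
      (Submodule.span i.2.1.1 (Set.range fun j => (i.2.2.2 j : @PadicComplex i.1.1 i.1.2))))
  refine ⟨E, hE, fun α hα hαE => ?_⟩
  obtain ⟨η, hη, h1⟩ := hg α hα hαE
  refine ⟨η, hη, fun p hp K hK s v hv hV0 => ?_⟩
  have hV : Module.Finite K (Submodule.span K (Set.range v)) := Module.Finite.span_of_finite _ (Set.finite_range v)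
  obtain ⟨c, C, hc, h2⟩ := few (L p) (hL p) K hK _ hV hV0
  exact h1 ⟨⟨p, hp⟩, ⟨K, hK⟩, ⟨s, fun j => ⟨v j, hv j⟩⟩⟩ C c hc h2

end Pool.Agent.Results.MP_1f047c_nt.PadicLogsAlongRealMultiples
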