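import Pool.Agent.Q138.PS.WT
import Pool.Agent.Q138.AJ.R1f047ca
import Pool.Agent.Q138.AJ.R1f047cb

/-!
# Singular matrices of logarithms of all tuples of integers which are close to a given point

Let `θ_1, …, θ_r` be distinct algebraic numbers, and let `k`, `d`, `m` be given. There is `c > 0` with the following property.
Let `V_j` (`j ∈ ℕ`) be a sequence of spaces of complex numbers over number fields `K_j` of degree at most `d`, of dimension at
most `m`, for which the assertion Q1 is true over `K_j` (e.g. of dimension at most one). Let `Y` be a metric space and `p` ANY map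
which associates a point of `Y` to every `k`-tuple of natural numbers, and `τ > 0`. There is a set `Z ⊆ Y` of Hausdorff dimension at
most `(k - c) / τ` such that for every `z ∈ Y` outside `Z`, all `j` and all `b`, for all but finitely many of the `k`-tuples `n` of
integers `≥ 2` with `dist (p n, z) ≤ b |n| ^ (-τ)` and any logarithms `l` of the `k r` numbers `n_i + θ_j`, these are linearly
independent over `K_j` modulo `V_j`, and Q1 is true over `K_j` for the space generated by `V_j` and the `l`.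

Special case: `p n` is the point `(n_1 / n_0, …, n_s / n_0)` of `ℝ ^ s`, `k = s + 1`. By Dirichlet's theorem, for every `z` with
positive coordinates there are infinitely many `n` with `|n_i / n_0 - z_i| ≤ n_0 ^ (-1 - 1 / s)` for all `i`. If `z` is outside a
certain set of Hausdorff dimension at most `s - c s / (s + 1)`, then all but finitely many of these have the property.

The same is proved for question Q2, with `p`-adic logarithms of the integers `n_i`.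
-/

set_option autoImplicit false

namespace Pool.Agent.Results.MP_1f047c_nt.TuplesNearGivenPoints

open Module Pool.Agent.Q138.PS Pool.Agent.Q138.AJ

/-- the largest coordinate -/
def size {k : ℕ} (n : Fin k → ℕ) : ℕ := Finset.univ.sup n

/-- for some choice of the logarithms `l` of the numbers `n_i + θ_j`, these are linearly dependent over `K` modulo `V`, or Q1 fails
for the space generated by `V` and the `l` -/
def Exceptional {K : IntermediateField ℚ ℂ} (V : Submodule K ℂ) {k r : ℕ} (θ : Fin r → ℂ) (n : Fin k → ℕ) : Prop :=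
  ∃ l : Fin k × Fin r → ℂ, (∀ p, Complex.exp (l p) = n p.1 + θ p.2) ∧ ¬ R1f047ca.Extends V l

/-- The space `V`, over a field `K` of degree at most `d`, is of dimension at most `m`, and at most one or with the assertion of
Q1 (or Q2) over `K`. -/
def Space {A : Type} [Field A] [Algebra ℚ A] (d m : ℕ) (K : IntermediateField ℚ A) (V : Submodule K A) : Prop :=
  FiniteDimensional ℚ K ∧ finrank ℚ K ≤ d ∧ Module.Finite K V ∧ finrank K V ≤ m ∧
    (finrank K V ≤ 1 ∨ R1f047cb.Q2Holds V)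

/-- A sequence of such spaces. -/
def Spaces {A : Type} [Field A] [Algebra ℚ A] (d m : ℕ) (K : ℕ → IntermediateField ℚ A) (V : ∀ j, Submodule (K j) A) : Prop :=
  ∀ j, Space d m (K j) (V j)

/-- the assertion is the same for `ℂ` -/
theorem q_iff {K : IntermediateField ℚ ℂ} (V : Submodule K ℂ) : R1f047cb.Q2Holds V ↔ R1f047ca.Q1Holds V := by
  have h : ∀ (N : ℕ) (M : Matrix (Fin N) (Fin N) ℂ) (w v : Fin N → K),
      ∑ i, ∑ j, (w i : ℂ) * M i j * (v j : ℂ) = ∑ i, ∑ j, (w i * v j) • M i j := by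
    intro N M w v
    refine Finset.sum_congr rfl fun i _ => Finset.sum_congr rfl fun j _ => ?_
    rw [Algebra.smul_def, map_mul]
    simp only [IntermediateField.algebraMap_apply]
    ring
  unfold R1f047cb.Q2Holds R1f047ca.Q1Holds
  simp only [h]

theorem count {r : ℕ} (θ : Fin r → ℂ) (hθ : ∀ j, IsAlgebraic ℚ (θ j)) (hinj : Function.Injective θ) (k d m : ℕ) :
    ∃ c : ℝ, 0 < c ∧ ∀ (K : ℕ → IntermediateField ℚ ℂ) (V : ∀ j, Submodule (K j) ℂ), Spaces d m K V → ∀ j, ∃ C : ℝ,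
      ∀ T : ℕ, 1 ≤ T →
        {n | n ∈ {n : Fin k → ℕ | (∀ i, 2 ≤ n i) ∧ Exceptional (V j) θ n} ∧ ∀ i, n i ≤ T}.Finite ∧
        (({n | n ∈ {n : Fin k → ℕ | (∀ i, 2 ≤ n i) ∧ Exceptional (V j) θ n} ∧ ∀ i, n i ≤ T}).ncard : ℝ) ≤
          C * (T : ℝ) ^ ((k : ℝ) - c) := by
  obtain ⟨c, hc, C, h⟩ := R1f047ca.result θ hθ hinj k d m
  refine ⟨c, hc, fun K V hKV j => ⟨C, fun T hT => ?_⟩⟩
  obtain ⟨h1, h2, h3, h4, h5⟩ := hKV j
  have h6 := h (K j) h1 h2 (V j) h3 h4 (h5.imp_right (q_iff (V j)).1) T hT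
  have e : {n | n ∈ {n : Fin k → ℕ | (∀ i, 2 ≤ n i) ∧ Exceptional (V j) θ n} ∧ ∀ i, n i ≤ T} =
      (R1f047ca.Exceptional (V j) θ T : Set (Fin k → ℕ)) := by
    ext n
    constructor
    · rintro ⟨⟨a1, a2⟩, a3⟩
      exact ⟨fun i => ⟨a1 i, a3 i⟩, a2⟩
    · rintro ⟨a1, a2⟩
      exact ⟨⟨fun i => (a1 i).1, a2⟩, fun i => (a1 i).2⟩
  rw [e]
  exact h6

theorem count_padic (k d m : ℕ) :
    ∃ c : ℝ, 0 < c ∧ ∀ (p : ℕ) [Fact p.Prime] (L : ℂ_[p] → ℂ_[p]), R1f047cb.IsIwasawaLog p L →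
      ∀ (K : ℕ → IntermediateField ℚ ℂ_[p]) (V : ∀ j, Submodule (K j) ℂ_[p]), Spaces d m K V → ∀ j, ∃ C : ℝ,
      ∀ T : ℕ, 1 ≤ T →
        {n | n ∈ {n : Fin k → ℕ | (∀ i, 1 ≤ n i) ∧ ¬ R1f047cb.Extends (V j) (fun i => L (n i : ℂ_[p]))} ∧
          ∀ i, n i ≤ T}.Finite ∧
        (({n | n ∈ {n : Fin k → ℕ | (∀ i, 1 ≤ n i) ∧ ¬ R1f047cb.Extends (V j) (fun i => L (n i : ℂ_[p]))} ∧
          ∀ i, n i ≤ T}).ncard : ℝ) ≤ C * (T : ℝ) ^ ((k : ℝ) - c) := by
  obtain ⟨c, hc, C, h⟩ := R1f047cb.result.1 k d m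
  refine ⟨c, hc, fun p _ L hL K V hKV j => ⟨C * p, fun T hT => ?_⟩⟩
  obtain ⟨h1, h2, h3, h4, h5⟩ := hKV j
  obtain ⟨B, hB, hgood⟩ := h p L hL (K j) h1 h2 (V j) h3 h4 h5 T hT
  have hsub : {n | n ∈ {n : Fin k → ℕ | (∀ i, 1 ≤ n i) ∧ ¬ R1f047cb.Extends (V j) (fun i => L (n i : ℂ_[p]))} ∧
      ∀ i, n i ≤ T} ⊆ (B : Set (Fin k → ℕ)) := by
    rintro n ⟨⟨a1, a2⟩, a3⟩
    by_contra hn
    exact a2 (hgood n (fun i => ⟨a1 i, a3 i⟩) hn)
  refine ⟨B.finite_toSet.subset hsub, le_trans ?_ hB⟩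
  have := Set.ncard_le_ncard hsub B.finite_toSet
  rw [Set.ncard_coe_finset] at this
  exact_mod_cast this

/-- There is a set of points `z`, of Hausdorff dimension at most `e`, outside of which for all `j` and `b` there are only finitely
many `n` with `Bad j n` and `dist (p n, z) ≤ b |n| ^ (-τ)`. -/
def FewNear {k : ℕ} {Y : Type} [MetricSpace Y] (p : (Fin k → ℕ) → Y) (τ e : ℝ) (Bad : ℕ → (Fin k → ℕ) → Prop) : Prop :=
  ∃ Z : Set Y, dimH Z ≤ ENNReal.ofReal e ∧ ∀ z, z ∉ Z → ∀ (j : ℕ) (b : ℝ),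
    {n : Fin k → ℕ | dist (p n) z ≤ b * (max 1 (size n : ℝ)) ^ (-τ) ∧ Bad j n}.Finite

/-- `n_i ≥ 2` and `|n_i / n_0 - z_i| ≤ n_0 ^ (-1 - 1 / s)` -/
def Close {s : ℕ} (z : Fin s → ℝ) (n : Fin (s + 1) → ℕ) : Prop :=
  (∀ i, 2 ≤ n i) ∧ ∀ i : Fin s, |(n i.succ : ℝ) / n 0 - z i| ≤ (n 0 : ℝ) ^ (-(1 + 1 / (s : ℝ)))

/-- There is a set of points `z` of `ℝ ^ s`, of Hausdorff dimension at most `e`, outside of which, if all `z_i > 0`, infinitely many
`n` are close to `z`, but for all `j` only finitely many of these satisfy `Bad j n`. -/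
def FewClose {s : ℕ} (e : ℝ) (Bad : ℕ → (Fin (s + 1) → ℕ) → Prop) : Prop :=
  ∃ Z : Set (Fin s → ℝ), dimH Z ≤ ENNReal.ofReal e ∧ ∀ z, z ∉ Z → (∀ i, 0 < z i) →
    {n | Close z n}.Infinite ∧ ∀ j, {n | Close z n ∧ Bad j n}.Finite

/-- Part (1): points of any metric space, Q1. -/
def ComplexNear {r : ℕ} (θ : Fin r → ℂ) (k d m : ℕ) : Prop :=
  ∃ c : ℝ, 0 < c ∧ ∀ (K : ℕ → IntermediateField ℚ ℂ) (V : ∀ j, Submodule (K j) ℂ), Spaces d m K V →
    ∀ (Y : Type) [MetricSpace Y] [MeasurableSpace Y] [BorelSpace Y] (p : (Fin k → ℕ) → Y) (τ : ℝ), 0 < τ →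
      FewNear p τ ((k - c) / τ) fun j n => (∀ i, 2 ≤ n i) ∧ Exceptional (V j) θ n

/-- Part (2): ratios of the coordinates, Q1. -/
def ComplexClose {r : ℕ} (θ : Fin r → ℂ) (s d m : ℕ) : Prop :=
  ∃ c : ℝ, 0 < c ∧ ∀ (K : ℕ → IntermediateField ℚ ℂ) (V : ∀ j, Submodule (K j) ℂ), Spaces d m K V →
    FewClose (s := s) (s - c * s / (s + 1)) fun j n => Exceptional (V j) θ n

/-- Part (3): points of any metric space, Q2. -/
def PadicNear (k d m : ℕ) : Prop :=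
  ∃ c : ℝ, 0 < c ∧ ∀ (p : ℕ) [Fact p.Prime] (L : ℂ_[p] → ℂ_[p]), R1f047cb.IsIwasawaLog p L →
    ∀ (K : ℕ → IntermediateField ℚ ℂ_[p]) (V : ∀ j, Submodule (K j) ℂ_[p]), Spaces d m K V →
      ∀ (Y : Type) [MetricSpace Y] [MeasurableSpace Y] [BorelSpace Y] (q : (Fin k → ℕ) → Y) (τ : ℝ), 0 < τ →
        FewNear q τ ((k - c) / τ) fun j n =>
          (∀ i, 1 ≤ n i) ∧ ¬ R1f047cb.Extends (V j) (fun i => L (n i : ℂ_[p]))

/-- **Theorem.** -/
theorem result :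
    (∀ {r : ℕ} (θ : Fin r → ℂ), (∀ j, IsAlgebraic ℚ (θ j)) → Function.Injective θ → ∀ k d m : ℕ, ComplexNear θ k d m) ∧
    (∀ {r : ℕ} (θ : Fin r → ℂ), (∀ j, IsAlgebraic ℚ (θ j)) → Function.Injective θ → ∀ s d m : ℕ, 1 ≤ s →
      ComplexClose θ s d m) ∧
    (∀ k d m : ℕ, PadicNear k d m) := by
  refine ⟨fun θ hθ hinj k d m => ?_, fun θ hθ hinj s d m hs => ?_, fun k d m => ?_⟩
  · obtain ⟨c, hc, h⟩ := count θ hθ hinj k d m
    refine ⟨c, hc, fun K V hKV Y _ _ _ p τ hτ => ?_⟩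
    obtain ⟨Z, hZ, hz⟩ := fin_tuple_seq p _ _ (h K V hKV) τ hτ
    refine ⟨Z, hZ, fun z hzZ j b => (hz z hzZ j b).subset ?_⟩
    rintro n ⟨h2, h1, h3⟩
    exact ⟨⟨h1, h3⟩, h2⟩
  · obtain ⟨c, hc, h⟩ := count θ hθ hinj (s + 1) d m
    refine ⟨c, hc, fun K V hKV => ?_⟩
    obtain ⟨Z, hZ, hz⟩ := fin_ratios hs _ c (h K V hKV)
    refine ⟨Z, hZ, fun z hzZ hz0 => ⟨(hz z hzZ hz0).1, fun j => ((hz z hzZ hz0).2 j).subset ?_⟩⟩
    rintro n ⟨⟨h1, h2⟩, h3⟩
    exact ⟨h1, h2, h1, h3⟩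
  · obtain ⟨c, hc, h⟩ := count_padic k d m
    refine ⟨c, hc, fun p _ L hL K V hKV Y _ _ _ q τ hτ => ?_⟩
    obtain ⟨Z, hZ, hz⟩ := fin_tuple_seq q _ _ (h p L hL K V hKV) τ hτ
    refine ⟨Z, hZ, fun z hzZ j b => (hz z hzZ j b).subset ?_⟩
    rintro n ⟨h2, h1, h3⟩
    exact ⟨⟨h1, h3⟩, h2⟩

end Pool.Agent.Results.MP_1f047c_nt.TuplesNearGivenPoints
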