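import Pool.Agent.Q284.TP.Main

/-!
# The growth of the pole orders of `L(T^{⊗ 2r}, s)` decides Tate's pole formula over all number fields

`X` is a smooth projective variety over a number field `K`, of dimension `d`, `0 ≤ m ≤ d`, `N` the
`2m`-th Betti number and `V = A^m(X) ⊗ ℚ` the space of the classes of the algebraic cycles of
codimension `m` defined over the algebraic closure; for `m = 1`, the question, it is `NS(X) ⊗ ℚ`. (Only
the following is used about `V`: the Galois action on it is trivial on an open subgroup, and its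
Frobenius eigenvalues, multiplied by `q_v^m`, are among the eigenvalues on `H^{2m}(X)`.) The
transcendental part `T` of `H^{2m}(X)` is the complement of `V(-m)`, of dimension `s = N - dim V`; the
tensor power `T^{⊗ r}` is a part of the cohomology `H^{2rm}(X^r)` of the self-product. The defect of an
irreducible Artin representation `χ` of `K` is the difference of Tate's prediction
`dim (V ⊗ χ)^G` and the order of the pole of `L(H^{2m}(X) ⊗ χ, s)` at `m + 1`.

We show that Bessel's inequality `∑ δ_χ² ≤ M`, `M` the order of the pole of `L(T ⊗ T, s)`, is rigid: in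
the case of equality the orders of ALL twists `L(T^{⊗ r} ⊗ ψ, s)`, `r ≥ 0`, at the edge are those of the
virtual Artin representation `D = -∑ δ_χ χ`. As the moments of the character of a finite group have a
pure exponential growth, and those of an infinite compact group have not, it follows that the orders of
the poles of the untwisted `L(T^{⊗ 2r}, s)`, `r ≥ 1`, alone can decide Tate's formula for the pole of
`L(H^{2m}(X_F), s)` at `m + 1` for all number fields `F ⊇ K`.

The definitions are in `Pool.Agent.Q284.TP.Defs`, `Pool.Agent.Y139.SM.Defs`,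
`Pool.Agent.W353.AT.TDefs`, `Pool.Agent.W353.AT.Defs`, `Pool.Agent.W353.TD.Defs`,
`Pool.Agent.W353.EH.Defs` and `Pool.Agent.W353.EF.Defs`.
-/

set_option autoImplicit false

namespace Pool.Agent.Results.MP_1f4fc7_nt.TensorRigidity

open NumberField IsDedekindDomain Filter Topology Polynomial
open Pool.Agent.W353.TD (IsPart rank)
open Pool.Agent.W353.EF (LFun)
open Pool.Agent.W353.EH (edgePoint size)
open Pool.Agent.W353.AT (IsArtin IsTwistedSystem twistRank TwistDefect)
open Pool.Agent.Y139.SM (IsTensorSystem TensorPole)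
open Pool.Agent.Q284.TP (virt meanRe)

/-- **Rigidity of the defects.** Let `X` be a projective variety of dimension `d` over a number field
`K`, `0 ≤ m ≤ d`, `N` the `2m`-th Betti number, `V` a part of `H^{2m}(X)(m)`, for instance
`NS(X) ⊗ ℚ` for `m = 1`, `T` its complement and `s = N - dim V`. Write `x(M)` for
`log |L(M, edge + ε)| / log(1/ε)`, a function of `ε > 0`; if `L(M, s)` has a meromorphic continuation to
a neighbourhood of the edge, then it tends to the order of the pole there. Let `χ_k` be finitely many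
pairwise inequivalent irreducible Artin representations of `K` and `ψ` an Artin representation of
dimension `n'`, all trivial on the open normal subgroup `U` of `G = Gal(K̄/K)`.
* (No continuation is assumed.) Let `D = ∑ y_k χ_k` with real `y_k`, `s ≤ b` and `|D| ≤ b`. For all
`r ≥ 0`, `η > 0` and small `ε > 0` the difference of `x(T^{⊗ r} ⊗ ψ)` and the mean value of
`Re (D^r ψ)` over `G / U` is at most `r b^(r-1) n' √Q + η` for
`Q = x(T ⊗ T) - 2 ∑ y_k (x(H^{2m}(X) ⊗ χ_k) - dim (V ⊗ χ_k)^G) + ∑ y_k²`.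
* Suppose that `L(T ⊗ T, s)` has a pole of order `M` at the edge and that `L(H^{2m}(X) ⊗ χ_k, s)` has the
defect `δ_k`. Then `∑ δ_k² ≤ M`. If `∑ δ_k² = M`, then `D = -∑ δ_k χ_k` is real, `|D| ≤ s`, and the
order of the pole of `L(T^{⊗ r} ⊗ ψ, s)` is the mean value of `D^r ψ` for all `r ≥ 0`, and the order of
the pole of `L(H^{2m}(X) ⊗ ψ, s)` is `dim (V ⊗ ψ)^G` plus the mean value of `D ψ`.
* Suppose that `L(T^{⊗ 2r}, s)` has a pole of order `k_r` at the edge for all `r ≥ 1`. If `k_1 ≥ 1` and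
there are no real `0 < a ≤ s`, `c > 0` with `c a^(2r) ≤ k_r ≤ a^(2r)` for all `r`, then `∑ δ_k² < k_1` for
the defects of finitely many pairwise inequivalent irreducible Artin representations.
* If `k_1 = 1` and there are no integer `1 ≤ a ≤ s` and real `c > 0` with `c a^(2r) ≤ k_r ≤ a^(2r)` for all
`r`, then all defects are zero. If, moreover, all twists by the irreducible Artin representations have
(integral) orders at `m + 1`, then for ALL number fields `F ⊇ K` the pole of `L(H^{2m}(X_F), s)` at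
`m + 1` has the order predicted by Tate, `dim V^{Gal(K̄/F)}`, that is, the rank of `NS(X/F)` for
`m = 1`. -/
theorem result (K : Type) [Field K] [NumberField K] (l d m N : ℕ)
    (X : Set (MvPolynomial (Fin l) (𝓞 K))) (V : Type) [AddCommGroup V] [Module ℚ V]
    [FiniteDimensional ℚ V] (ρ : Representation ℚ Gal(AlgebraicClosure K/K) V) (hmd : m ≤ d)
    (hV : IsPart X d m N ρ) :
    (∀ (U : Subgroup Gal(AlgebraicClosure K/K)) [U.Normal],
      IsOpen (U : Set Gal(AlgebraicClosure K/K)) → ∀ (κ : Type) [Fintype κ] (n : κ → ℕ)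
      (χ : ∀ k, Representation ℂ Gal(AlgebraicClosure K/K) (Fin (n k) → ℂ)) (n' : ℕ)
      (ψ : Representation ℂ Gal(AlgebraicClosure K/K) (Fin n' → ℂ)),
      (∀ k, ∀ u ∈ U, χ k u = 1) → (∀ u ∈ U, ψ u = 1) → (∀ k, (χ k).IsIrreducible) →
      (∀ k k', k ≠ k' → IsEmpty ((χ k).Equiv (χ k'))) →
      -- the inequality without continuation
      (∀ (y : κ → ℝ) (b : ℝ), ((N - Module.finrank ℚ V : ℕ) : ℝ) ≤ b →
        (∀ g, ‖virt χ y g‖ ≤ b) →
        ∀ (B : κ → HeightOneSpectrum (𝓞 K) → ℂ[X]) (B₂ B' : HeightOneSpectrum (𝓞 K) → ℂ[X])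
          (r : ℕ), (∀ k, IsTwistedSystem X d (2 * m) N (χ k) 0 (B k)) →
        IsTensorSystem X d m N ρ 2
          (1 : Representation ℂ Gal(AlgebraicClosure K/K) (Fin 1 → ℂ)) B₂ →
        IsTensorSystem X d m N ρ r ψ B' →
        (∀ᶠ ε : ℝ in 𝓝[>] 0, LFun B' (edgePoint (2 * (r * m)) 0 + ε) ≠ 0) ∧
        ∀ η : ℝ, 0 < η → ∀ᶠ ε : ℝ in 𝓝[>] 0,
          |size (2 * (r * m)) 0 B' ε - meanRe U (fun g => virt χ y g ^ r * ψ.character g)| ≤
            r * b ^ (r - 1) * n' * Real.sqrt (size (2 * (2 * m)) 0 B₂ ε -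
              2 * ∑ k, y k * (size (2 * m) 0 (B k) ε - twistRank ρ (χ k)) + ∑ k, y k ^ 2) + η) ∧
      -- the case of equality
      ∀ (δ : κ → ℤ) (M : ℕ), (∀ k, TwistDefect X d m N ρ (χ k) (δ k)) →
        TensorPole X d m N ρ 2
          (1 : Representation ℂ Gal(AlgebraicClosure K/K) (Fin 1 → ℂ)) M →
        ∑ k, δ k ^ 2 ≤ M ∧ (∑ k, δ k ^ 2 = M →
          (∀ g, (virt χ (fun k => -(δ k : ℝ)) g).im = 0 ∧
            ‖virt χ (fun k => -(δ k : ℝ)) g‖ ≤ (N - Module.finrank ℚ V : ℕ)) ∧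
          (∀ (r : ℕ) (B' : HeightOneSpectrum (𝓞 K) → ℂ[X]), IsTensorSystem X d m N ρ r ψ B' →
            Tendsto (size (2 * (r * m)) 0 B') (𝓝[>] 0)
              (𝓝 (meanRe U fun g => virt χ (fun k => -(δ k : ℝ)) g ^ r * ψ.character g))) ∧
          ∀ B' : HeightOneSpectrum (𝓞 K) → ℂ[X], IsTwistedSystem X d (2 * m) N ψ 0 B' →
            Tendsto (size (2 * m) 0 B') (𝓝[>] 0) (𝓝 (twistRank ρ ψ +
              meanRe U fun g => virt χ (fun k => -(δ k : ℝ)) g * ψ.character g)))) ∧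
    -- the criterion
    ∀ k : ℕ → ℕ, (∀ r, 1 ≤ r → TensorPole X d m N ρ (2 * r)
        (1 : Representation ℂ Gal(AlgebraicClosure K/K) (Fin 1 → ℂ)) (k r)) →
      (1 ≤ k 1 → (∀ a c : ℝ, 0 < a → a ≤ (N - Module.finrank ℚ V : ℕ) → 0 < c →
          ∃ r, 1 ≤ r ∧ ¬ (c * a ^ (2 * r) ≤ k r ∧ (k r : ℝ) ≤ a ^ (2 * r))) →
        ∀ (κ : Type) [Fintype κ] (n : κ → ℕ)
          (χ : ∀ k, Representation ℂ Gal(AlgebraicClosure K/K) (Fin (n k) → ℂ)) (δ : κ → ℤ),
          (∀ k, IsArtin (χ k)) → (∀ k, (χ k).IsIrreducible) →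
          (∀ k k', k ≠ k' → IsEmpty ((χ k).Equiv (χ k'))) →
          (∀ k, TwistDefect X d m N ρ (χ k) (δ k)) → ∑ k, δ k ^ 2 < k 1) ∧
      (k 1 = 1 → (∀ (a : ℕ) (c : ℝ), 1 ≤ a → a ≤ N - Module.finrank ℚ V → 0 < c →
          ∃ r, 1 ≤ r ∧ ¬ (c * (a : ℝ) ^ (2 * r) ≤ k r ∧ (k r : ℝ) ≤ (a : ℝ) ^ (2 * r))) →
        (∀ (n : ℕ) (χ : Representation ℂ Gal(AlgebraicClosure K/K) (Fin n → ℂ)), IsArtin χ →
          χ.IsIrreducible → ∀ δ : ℤ, TwistDefect X d m N ρ χ δ → δ = 0) ∧
        ((∀ (n : ℕ) (χ : Representation ℂ Gal(AlgebraicClosure K/K) (Fin n → ℂ)), IsArtin χ →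
          χ.IsIrreducible → ∃ δ : ℤ, TwistDefect X d m N ρ χ δ) →
          ∀ (F : IntermediateField K (AlgebraicClosure K)) [NumberField F]
            (B : HeightOneSpectrum (𝓞 F) → ℂ[X]), Pool.Agent.W353.EF.IsEulerSystem X d (2 * m) N B →
            (∀ᶠ ε : ℝ in 𝓝[>] 0, LFun B (((2 * m : ℕ) : ℂ) / 2 + 1 + ε) ≠ 0) ∧
            Tendsto (Pool.Agent.W353.EF.size (2 * m) B) (𝓝[>] 0) (𝓝 (rank ρ F : ℝ)))) := by
  classical
  refine ⟨fun U _ hU κ _ n χ n' ψ hχ hψ hirr hne => ?_, fun k hk => ⟨fun hk1 hgr κ _ n χ δ hA hirr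
    hne hδ => ?_, fun hk1 hgr => ?_⟩⟩
  · have hfin : Finite (Gal(AlgebraicClosure K/K) ⧸ U) := Subgroup.quotient_finite_of_isOpen U hU
    refine ⟨fun y b hb hDb B B₂ B' r hB hB₂ hB' =>
      Pool.Agent.Q284.TP.partOne U χ hχ ψ hψ hmd hV hU hirr hne y hb hDb B B₂ B' r hB hB₂ hB',
      fun δ M hδ hM => ⟨Pool.Agent.Q284.TP.partTwo_bessel U χ hχ hmd hV hU hirr hne hδ hM,
        fun hδM => Pool.Agent.Q284.TP.partTwo U χ hχ ψ hψ hmd hV hU hirr hne hδ hM hδM⟩⟩
  · obtain ⟨U, hUn, hU, hχ⟩ := Pool.Agent.W353.AT.exists_common χ hA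
    have hfin : Finite (Gal(AlgebraicClosure K/K) ⧸ U) := Subgroup.quotient_finite_of_isOpen U hU
    refine lt_of_le_of_ne (Pool.Agent.Q284.TP.partTwo_bessel U χ hχ hmd hV hU hirr hne hδ
      (hk 1 le_rfl)) fun heq => ?_
    -- the maximum of the virtual character
    obtain ⟨q₀, hq₀⟩ := Finite.exists_max fun q : Gal(AlgebraicClosure K/K) ⧸ U =>
      ‖virt χ (fun k => -(δ k : ℝ)) q.out‖
    have hout : ∀ g : Gal(AlgebraicClosure K/K), virt χ (fun k => -(δ k : ℝ)) g =
        virt χ (fun k => -(δ k : ℝ)) (QuotientGroup.mk g : Gal(AlgebraicClosure K/K) ⧸ U).out := by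
      intro g
      have h1 := Pool.Agent.Q284.TP.dF_virt U χ hχ (fun k => -(δ k : ℝ)) g
      have h2 := Pool.Agent.Q284.TP.dF_virt U χ hχ (fun k => -(δ k : ℝ))
        (QuotientGroup.mk g : Gal(AlgebraicClosure K/K) ⧸ U).out
      rw [← h1, ← h2, QuotientGroup.mk_inv, QuotientGroup.mk_inv]
      congr 2
      exact (QuotientGroup.out_eq' _).symm
    obtain ⟨h1, h2, c, h3, h4⟩ := Pool.Agent.Q284.TP.partThree U χ hχ hmd hV hU hirr hne hδ hk hk1
      heq (a := ‖virt χ (fun k => -(δ k : ℝ)) q₀.out‖) (fun g => by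
        rw [hout g]
        exact hq₀ _) ⟨q₀.out, le_rfl⟩
    obtain ⟨r, hr, hr2⟩ := hgr _ c h1 h2 h3
    exact hr2 (h4 r hr)
  · have hdef : ∀ (n : ℕ) (χ : Representation ℂ Gal(AlgebraicClosure K/K) (Fin n → ℂ)),
        IsArtin χ → χ.IsIrreducible → ∀ δ : ℤ, TwistDefect X d m N ρ χ δ → δ = 0 := by
      intro n χ hA hirr δ hδ
      by_contra hne0
      obtain ⟨U, hUn, hU, hχ⟩ := Pool.Agent.W353.AT.exists_common (κ := Unit) (n := fun _ => n)
        (fun _ => χ) fun _ => hA
      have hfin : Finite (Gal(AlgebraicClosure K/K) ⧸ U) := Subgroup.quotient_finite_of_isOpen U hU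
      have hpos : 0 < n := Pool.Agent.W353.L1.dim_pos U (fun _ : Unit => χ) hχ (k := ()) hirr
      have hne : ∀ k k' : Unit, k ≠ k' → IsEmpty (((fun _ : Unit => χ) k).Equiv
          ((fun _ : Unit => χ) k')) := fun k k' h => absurd (Subsingleton.elim k k') h
      have h1 := Pool.Agent.Q284.TP.partTwo_bessel U (fun _ : Unit => χ) hχ hmd hV hU
        (fun _ => hirr) hne (δ := fun _ => δ) (fun _ => hδ) (hk 1 le_rfl)
      rw [hk1] at h1
      simp only [Finset.univ_unique, Finset.sum_singleton, Nat.cast_one] at h1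
      have h2 : 0 < δ ^ 2 := by positivity
      have h3 : δ ^ 2 = 1 := by omega
      have habs : |(δ : ℝ)| = 1 := by
        have h4 : ((δ : ℝ)) ^ 2 = 1 := by exact_mod_cast h3
        have h5 : |(δ : ℝ)| ^ 2 = 1 := by rw [sq_abs, h4]
        nlinarith [abs_nonneg (δ : ℝ)]
      have hv : ∀ g : Gal(AlgebraicClosure K/K),
          ‖virt (fun _ : Unit => χ) (fun _ => -(δ : ℝ)) g‖ = ‖χ.character g‖ := by
        intro g
        unfold virt
        rw [Finset.univ_unique, Finset.sum_singleton, norm_mul, Complex.norm_real,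
          Real.norm_eq_abs, abs_neg, habs, one_mul]
      obtain ⟨-, h5, c, h6, h7⟩ := Pool.Agent.Q284.TP.partThree U (fun _ : Unit => χ) hχ hmd hV hU
        (fun _ => hirr) hne (δ := fun _ => δ) (fun _ => hδ) hk (by rw [hk1])
        (by
          rw [hk1]
          simp only [Finset.univ_unique, Finset.sum_singleton, Nat.cast_one]
          exact h3) (a := (n : ℝ)) (fun g => by
            rw [hv g]
            exact Pool.Agent.W540.BE.norm_char_le U χ (hχ ()) g) ⟨1, by
            rw [hv 1, Representation.char_one, Module.finrank_fin_fun, Complex.norm_natCast]⟩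
      obtain ⟨r, hr, hr2⟩ := hgr n c hpos (by exact_mod_cast h5) h6
      exact hr2 (h7 r hr)
    refine ⟨hdef, fun H F _ B hB => ?_⟩
    obtain ⟨κ, _, n, χ, δ, M, h1, -, -, -, -, -, h3⟩ :=
      (Pool.Agent.W353.AT.tateOverAllFields hmd hV).2 H
    have hκ : IsEmpty κ := ⟨fun k' => (h1 k').2.2.1 (hdef _ _ (h1 k').1 (h1 k').2.1 _ (h1 k').2.2.2)⟩
    obtain ⟨h5, -, -⟩ := h3 F
    have h6 := h5 B hB
    refine ⟨h6.1, ?_⟩
    have h7 := h6.2
    rw [Finset.univ_eq_empty, Finset.sum_empty, sub_zero] at h7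
    exact h7

end Pool.Agent.Results.MP_1f4fc7_nt.TensorRigidity
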