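import Mathlib
import Pool.Agent.Q254.Stern

/-!
# Stern polynomials at prime indices are irreducible (MP_201fbb_nt, Q1: yes)

Step 1: no Stern polynomial `B n`, `n ≥ 1`, has a complex zero in the half-plane `Re t ≥ 3/2`
(an invariant box for the ratio `B n t / (B n t + B (n+1) t)`).
Step 2: `B n (2) = n`, so in a factorisation `B p = f g` over `ℤ` one factor has value `±1` at
`2`; as its zeros have real part `< 3/2`, its value at `1` would be smaller in absolute value,
hence `0`, while `B p (1) > 0`.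
-/

set_option autoImplicit false

open Polynomial

namespace Pool.Agent.Results.MP_201fbb_nt.AllPrimes

/-- The defining recursion of the Stern polynomials: `B 0 = 0`, `B 1 = 1` and, for `n ≥ 1`,
`B (2n) = t B n`, `B (2n+1) = B n + B (n+1)`. -/
def IsStern (B : ℕ → ℤ[X]) : Prop :=
  B 0 = 0 ∧ B 1 = 1 ∧ (∀ n ≥ 1, B (2 * n) = X * B n) ∧ ∀ n ≥ 1, B (2 * n + 1) = B n + B (n + 1)

/-- The Stern polynomials exist, and for every prime `p` the polynomial `B p` is irreducible in
`ℚ[t]`. Moreover no `B n` with `n ≥ 1` has a complex zero with real part at least `3/2`. -/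
theorem result :
    (∃ B : ℕ → ℤ[X], IsStern B) ∧
    ∀ B : ℕ → ℤ[X], IsStern B →
      (∀ p : ℕ, p.Prime → Irreducible ((B p).map (Int.castRingHom ℚ))) ∧
      (∀ n : ℕ, 1 ≤ n → ∀ t : ℂ, 3 / 2 ≤ t.re → aeval t (B n) ≠ 0) :=
  ⟨⟨_, Q254Stern.isStern_stern⟩, fun _ hB =>
    ⟨fun _ hp => Q254Stern.irreducible_rat hB hp,
      fun n hn _ ht => Q254Stern.zero_free hB ht n hn⟩⟩

end Pool.Agent.Results.MP_201fbb_nt.AllPrimes
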