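import Pool.Agent.Q108.EW.Main

set_option autoImplicit false

/-!
Circuit covers of weightings that are constant off an even set `O` of edges.
-/

namespace Pool.Agent.Results.MP_20b97f_co.ConstantOffEvenSet

open Finset
open Pool.Agent.H126R2.CDC (MGraph)

/-- `(G, p)` has a circuit cover: a finite family (multiset) of circuits such that every edge `e`
lies in exactly `p e` members, counted with multiplicity. -/
def HasCover {V E : Type} [Fintype V] [DecidableEq V] [Fintype E] [DecidableEq E]
    (G : MGraph V E) (p : E → ℕ) : Prop :=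
  ∃ F : Multiset (Finset E), (∀ C ∈ F, G.IsCircuit C) ∧ ∀ e, F.countP (fun C => e ∈ C) = p e

/-- `G - O` is connected: any two vertices of `G` are joined by a walk without edges of `O`. -/
def ConnectedOff {V E : Type} [Fintype V] [DecidableEq V] [Fintype E] [DecidableEq E]
    (G : MGraph V E) (O : Finset E) : Prop :=
  ∀ u v : V, Relation.ReflTransGen (fun a b => ∃ e, e ∉ O ∧ G.ends e = s(a, b)) u v

/-- Every level set `{e ∈ O : p e ≥ j}` is the intersection of `O` with an even set. -/
def LevelsCutOut {V E : Type} [Fintype V] [DecidableEq V] [Fintype E] [DecidableEq E]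
    (G : MGraph V E) (O : Finset E) (p : E → ℕ) : Prop :=
  ∀ j : ℕ, ∃ D : Finset E, G.IsEven D ∧ ∀ e ∈ O, (e ∈ D ↔ j ≤ p e)

/-- Let `O` be an even edge set of the finite graph `G` (loops and parallel edges allowed), `c` an
even number and `p` a weighting of the edges by natural numbers that is equal to `c` off `O` and
whose values on `O` have the same parity (for instance an even weighting). Let `m = c / 4`, rounded
down.
(0) If `G - O` is connected, then the level sets of every weighting on `O` are cut out by even sets.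
(1) Let `G` be bridgeless and let the level sets of `p` on `O` be cut out by even sets. If the
values of `p` on `O` are at least `c - m` and differ by at most `2 m`, then `(G, p)` has a circuit
cover. (2) If moreover `O` is a circuit, then it is enough that the values of `p` on `O` are at
least `c - 2 m + 1` and differ by at most `4 m - 2`, `c ≥ 4`, or that they are congruent modulo
four, at least `c - 2 m` and differ by at most `4 m`. (3) If `G - O` is connected and two even sets
cover all edges outside `O` (`G / O` has a nowhere-zero 4-flow), then it is enough that the values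
of `p` on `O` are at least `c / 2` and differ by at most `c`. -/
theorem result {V E : Type} [Fintype V] [DecidableEq V] [Fintype E] [DecidableEq E]
    (G : MGraph V E) (O : Finset E) (hO : G.IsEven O) (c : ℕ) (hc : Even c) (p : E → ℕ)
    (hoff : ∀ e, e ∉ O → p e = c) (hpar : ∀ e ∈ O, ∀ f ∈ O, p e % 2 = p f % 2) :
    -- (0)
    (ConnectedOff G O → ∀ q : E → ℕ, LevelsCutOut G O q) ∧
    (G.Bridgeless → LevelsCutOut G O p →
      -- (1)
      ((∀ e ∈ O, c ≤ p e + c / 4) → (∀ e ∈ O, ∀ f ∈ O, p e ≤ p f + 2 * (c / 4)) →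
        HasCover G p) ∧
      -- (2)
      (G.IsCircuit O → 4 ≤ c → (∀ e ∈ O, c + 1 ≤ p e + 2 * (c / 4)) →
        (∀ e ∈ O, ∀ f ∈ O, p e + 2 ≤ p f + 4 * (c / 4)) → HasCover G p) ∧
      (G.IsCircuit O → (∀ e ∈ O, ∀ f ∈ O, p e % 4 = p f % 4) →
        (∀ e ∈ O, c ≤ p e + 2 * (c / 4)) → (∀ e ∈ O, ∀ f ∈ O, p e ≤ p f + 4 * (c / 4)) →
        HasCover G p)) ∧
    -- (3)
    (ConnectedOff G O → (∃ A B : Finset E, G.IsEven A ∧ G.IsEven B ∧ ∀ e, e ∉ O → e ∈ A ∨ e ∈ B) →
      (∀ e ∈ O, c ≤ 2 * p e) → (∀ e ∈ O, ∀ f ∈ O, p e ≤ p f + c) → HasCover G p) := by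
  have loops : G.Bridgeless → G.IsCircuit O → (∃ e ∈ O, (G.ends e).IsDiag) →
      (∀ e ∈ O, c ≤ p e + 2 * (c / 4)) → HasCover G p := by
    intro hG hC h hlow
    obtain ⟨e0, he0, hd⟩ := h
    have hOe := Pool.Agent.W831.HI.circuit_loop G O hC e0 he0 hd
    have h1 := hlow e0 he0
    obtain ⟨k, hk⟩ := hc
    obtain ⟨F, hF, hF'⟩ := Pool.Agent.W831.HI.two_valued G hG O hC (p e0) c ⟨k, hk⟩ (by omega)
      (by intro h2; rw [Nat.even_iff]; omega)
    refine ⟨F, hF, fun e => ?_⟩
    rw [hF' e]
    by_cases he : e ∈ O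
    · rw [if_pos he]
      rw [hOe, mem_singleton] at he
      rw [he]
    · rw [if_neg he, hoff e he]
  refine ⟨?_, ?_, ?_⟩
  · intro h q j
    obtain ⟨D, hD, hK⟩ := Pool.Agent.Q108.EW.traces G O h (O.filter fun e => j ≤ q e)
      (filter_subset _ _)
    refine ⟨D, hD, fun e he => ?_⟩
    rw [hK e he, mem_filter]
    exact ⟨fun h => h.2, fun h => ⟨he, h⟩⟩
  · intro hG hlev
    refine ⟨fun h1 h2 => Pool.Agent.Q108.EW.part1 G hG O hO c hc p hoff hpar hlev h1 h2, ?_, ?_⟩
    · intro hC hc4 h1 h2
      by_cases hl : ∃ e ∈ O, (G.ends e).IsDiag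
      · exact loops hG hC hl fun e he => by have := h1 e he; omega
      · exact Pool.Agent.Q108.EW.part2b G hG O hC (fun e he h => hl ⟨e, he, h⟩) c hc hc4 p hoff
          hpar hlev h1 h2
    · intro hC hmod h1 h2
      by_cases hl : ∃ e ∈ O, (G.ends e).IsDiag
      · exact loops hG hC hl h1
      · exact Pool.Agent.Q108.EW.part2a G hG O hC (fun e he h => hl ⟨e, he, h⟩) c hc p hoff
          hmod hlev h1 h2
  · rintro h ⟨A, B, hA, hB, hAB⟩ h1 h2
    exact Pool.Agent.Q108.EW.part3 G O hO A B hA hB hAB (Pool.Agent.Q108.EW.traces G O h) c hc p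
      hoff hpar h1 h2

end Pool.Agent.Results.MP_20b97f_co.ConstantOffEvenSet
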