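import Pool.Agent.W808.HB.All
import Pool.Agent.Q292.Legs.AmpB

/-!
Critical bond percolation on the square lattice (rotated by 45 degrees) on the half-infinite cylinder:
the sharp asymptotics, with the value of the constant, of the probability of `m` exploration paths
(legs) which start side by side at the boundary.

Each unit square `[j, j+1] × [t, t+1]`, `t ≥ 0`, contains exactly one of its two diagonals, with
probability `1/2` each, independently (fair coins).  The diagonals through the points `(j, t)` with
`j + t` even are the open bonds of a square lattice, the other diagonals are its dual-open bonds (when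
the circumference is odd the two kinds are exchanged when one goes once around the cylinder).
-/

set_option autoImplicit false

namespace Pool.Agent.Results.MP_216314_pr.BoundaryLegAmplitudes

open MeasureTheory Filter Topology

/-- Fair coins: one for each unit square with lower left corner `(j, t)`, `t ≥ 0`. -/
noncomputable def coins : Measure (ℤ × ℕ → Bool) :=
  Measure.infinitePi (fun _ => ProbabilityTheory.bernoulliMeasure true false
    ⟨1/2, by norm_num, by norm_num⟩)

/-- The links of the half-infinite cylinder of circumference `N`, on its universal cover (only the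
coins of the squares with `0 ≤ j < N` are used): the diagonal of the square with lower left corner
`(j, t)` rises if the coin of `(j mod N, t)` shows `false` and falls if it shows `true`.  The points
`m, m + 2, m + 4, …, N` of the boundary (in each sheet) are wired together. -/
inductive Link (N m : ℕ) (ω : ℤ × ℕ → Bool) : ℤ × ℕ → ℤ × ℕ → Prop
  | rise (j : ℤ) (t : ℕ) : ω (j % N, t) = false → Link N m ω (j, t) (j + 1, t + 1)
  | fall (j : ℤ) (t : ℕ) : ω (j % N, t) = true → Link N m ω (j + 1, t) (j, t + 1)
  | wire (s : ℤ) (i : ℕ) : m + 2 * i + 2 ≤ N →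
      Link N m ω (s * N + m + 2 * i, 0) (s * N + m + 2 * i + 2, 0)

/-- Connection by links on the universal cover. -/
def Conn (N m : ℕ) (ω : ℤ × ℕ → Bool) : ℤ × ℕ → ℤ × ℕ → Prop := Relation.EqvGen (Link N m ω)

/-- The `m` leg event: the boundary points `1, …, m - 1` are pairwise not connected, not connected to
the wired points `0` (that is `N`) and `m`, and each of them is connected to another sheet of the
universal cover.  So the `m` interfaces which start between the boundary points `0, 1, …, m` all go
around the cylinder. -/
def Legs (N m : ℕ) (ω : ℤ × ℕ → Bool) : Prop :=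
  (∀ c d : ℕ, 1 ≤ c → c < m → d ≤ m → c ≠ d → ¬ Conn N m ω ((c : ℤ), 0) ((d : ℤ), 0)) ∧
  (∀ c : ℕ, 1 ≤ c → c < m → ∃ s : ℤ, s ≠ 0 ∧ ∃ d : ℕ, 1 ≤ d ∧ d < m ∧
    Conn N m ω ((c : ℤ), 0) (s * N + d, 0))

/-- The factor `(2 / 3) Γ(k + 3 / 2) / Γ((2 k + 7) / 6)` of the amplitude. -/
noncomputable def factor (k : ℕ) : ℝ :=
  2 / 3 * Real.Gamma ((k : ℝ) + 3 / 2) / Real.Gamma ((2 * (k : ℝ) + 7) / 6)

/-- **The amplitudes of the boundary leg probabilities.** For every `m ≥ 2`, as the circumference
`N = m + 2 M` of the half-infinite cylinder tends to infinity, `N ^ (m (m - 1) / 6)` times the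
probability of the `m` leg event converges to the product of the factors
`(2 / 3) Γ(k + 3 / 2) / Γ((2 k + 7) / 6)` over all `k < m` of the parity of `m`. -/
theorem result (m : ℕ) (hm : 2 ≤ m) :
    Tendsto (fun M : ℕ => ((m + 2 * M : ℕ) : ℝ) ^ ((m : ℝ) * (m - 1) / 6) *
      coins.real {ω | Legs (m + 2 * M) m ω}) atTop
      (𝓝 (∏ k ∈ (Finset.range m).filter (fun k => k % 2 = m % 2), factor k)) := by
  have hL : ∀ (N m : ℕ) (ω : ℤ × ℕ → Bool) (x y : ℤ × ℕ),
      Link N m ω x y ↔ Pool.Agent.W808.HB.HL N m ω x y := by
    intro N m ω x y
    constructor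
    · intro h
      cases h with
      | rise j t h => exact .rise j t h
      | fall j t h => exact .fall j t h
      | wire s i h => exact .wire s i h
    · intro h
      cases h with
      | rise j t h => exact .rise j t h
      | fall j t h => exact .fall j t h
      | wire s i h => exact .wire s i h
  have hLeg : ∀ (N m : ℕ) (ω : ℤ × ℕ → Bool),
      Legs N m ω ↔ Pool.Agent.W808.HB.LegEv N m ω := by
    intro N m ω
    have h : Link N m ω = Pool.Agent.W808.HB.HL N m ω := by
      funext x y
      exact propext (hL N m ω x y)
    unfold Legs Pool.Agent.W808.HB.LegEv Pool.Agent.W808.HB.Sec Conn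
    rw [h]
  have hlaw : ∀ M : ℕ, coins.real {ω | Legs (m + 2 * M) m ω} = Pool.Agent.W808.HB.Pn m M := by
    intro M
    have e : {ω | Legs (m + 2 * M) m ω} = {ω | Pool.Agent.W808.HB.LegEv (m + 2 * M) m ω} := by
      ext ω
      exact hLeg _ _ ω
    rw [e]
    exact Pool.Agent.W808.HB.a_X7 m M (by omega)
  have hprod : ∏ k ∈ (Finset.range m).filter (fun k => k % 2 = m % 2), factor k =
      ∏ i ∈ Finset.range (m / 2), Q292.Legs.Bd.amp (m % 2 + 2 * i) := by
    symm
    refine Finset.prod_bij (fun i _ => m % 2 + 2 * i) ?_ ?_ ?_ ?_
    · intro i hi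
      rw [Finset.mem_range] at hi
      rw [Finset.mem_filter, Finset.mem_range]
      omega
    · intro i _ j _ h
      omega
    · intro k hk
      rw [Finset.mem_filter, Finset.mem_range] at hk
      exact ⟨k / 2, by rw [Finset.mem_range]; omega, by omega⟩
    · intro i _
      rfl
  rw [hprod]
  refine (Q292.Legs.Bd.main m).congr fun M => ?_
  rw [hlaw M]

end Pool.Agent.Results.MP_216314_pr.BoundaryLegAmplitudes
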