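import Mathlib
import Pool.Agent.Q47.TV.Core

/-!
# The gap of minimal log discrepancies below one for quotients of toric varieties

`x` is a closed point of an affine variety `X`, `B` an effective `ℝ`-divisor with `K_X + B` `ℝ`-Cartier
at `x` (`B = 0` for the question of the problem), and `G` a finite group of automorphisms of the germ
`(X ∋ x, B)`, such that every `σ` in `G` has a toric chart (`GermChart`): the germ is isomorphic to the germ
at a closed point `y`, in any torus orbit, of a pair `(X_σ, B_σ)` of an affine toric variety of dimension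
`n` and a torus invariant `ℝ`-divisor with coefficients in a DCC set, and `σ` becomes a monomial
automorphism of `X_σ`. Different elements of `G` may need different charts; by Steinberg's theorem (not
part of the formal statement) the hypothesis holds for the stabilizers of all closed points of
projective toric varieties in finite groups of automorphisms.

The minimal log discrepancy of the quotient is the least value of `a(E, X, B) / r_E` over the prime
divisors `E` over `X` with centre `x`, where `r_E` is the order of the inertia group of `E`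
(`IsQuotMldX`). The set of these numbers satisfies the ascending chain condition (`quot_acc3`),
therefore `1` is not a limit of smaller ones.
-/

set_option autoImplicit false

namespace Pool.Agent.Results.MP_21ca32_ag.LocallyToricQuotients

open Pool.Agent.TH165.ACC Pool.Agent.W497.Mld Pool.Agent.H436R3.KT Pool.Agent.H436R3.Fol Q47.QM Q47.TV

/-- For every `n` and every DCC set `Γ` there is a real number `0 < a < 1` such that every minimal log
discrepancy of a quotient as above of dimension `n` which is greater than `a` is at least `1`. -/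
theorem result (n : ℕ) {Γ : Set ℝ} (hΓ : Pool.Agent.TH165.ACC.IsDCC Γ) :
    ∃ a : ℝ, 0 < a ∧ a < 1 ∧
      ∀ (X : AffVar (FractionRing (MvPolynomial (Fin n) ℂ))) (B : EffDiv X) (x : Pt X)
        (e : LocEq B x) (G : Subgroup (FractionRing (MvPolynomial (Fin n) ℂ) ≃ₐ[ℂ]
          FractionRing (MvPolynomial (Fin n) ℂ))) (m : ℝ), Finite G →
        (∀ σ ∈ G, IsGermAut e σ) → (∀ σ ∈ G, Nonempty (GermChart n Γ e σ)) →
        IsQuotMldX e G m → a < m → 1 ≤ m := by
  classical
  have hacc := quot_acc3 (n := n) (K := FractionRing (MvPolynomial (Fin n) ℂ)) hΓ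
  set S : Set ℝ := {m : ℝ | 0 ≤ m ∧ ∃ (X : AffVar (FractionRing (MvPolynomial (Fin n) ℂ)))
      (B : EffDiv X) (x : Pt X) (e : LocEq B x)
      (G : Subgroup (FractionRing (MvPolynomial (Fin n) ℂ) ≃ₐ[ℂ]
        FractionRing (MvPolynomial (Fin n) ℂ))),
      Finite G ∧ (∀ σ ∈ G, IsGermAut e σ) ∧ (∀ σ ∈ G, Nonempty (GermChart n Γ e σ)) ∧
      IsQuotMldX e G m} with hS
  by_contra hcon
  push Not at hcon
  have hstep : ∀ a : ℝ, 0 < a → a < 1 → ∃ m ∈ S, a < m ∧ m < 1 := by
    intro a ha0 ha1
    obtain ⟨X, B, x, e, G, m, h3, h4, h5, h6, h7, h8⟩ := hcon a ha0 ha1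
    exact ⟨m, ⟨(ha0.trans h7).le, X, B, x, e, G, h3, h4, h5, h6⟩, h7, h8⟩
  obtain ⟨m0, hm0, h0a, h01⟩ := hstep (1 / 2) (by norm_num) (by norm_num)
  have hnext : ∀ x : {x : ℝ // x ∈ S ∧ 0 < x ∧ x < 1}, ∃ y : {x : ℝ // x ∈ S ∧ 0 < x ∧ x < 1},
      x.1 < y.1 := by
    rintro ⟨x, hx, hx0, hx1⟩
    obtain ⟨y, hy, h1, h2⟩ := hstep x hx0 hx1
    exact ⟨⟨y, hy, hx0.trans h1, h2⟩, h1⟩
  choose f hf using hnext
  let u : ℕ → {x : ℝ // x ∈ S ∧ 0 < x ∧ x < 1} := fun k =>
    Nat.rec ⟨m0, hm0, by linarith, h01⟩ (fun _ x => f x) k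
  have hu : StrictMono fun k => (u k).1 := strictMono_nat_of_lt_succ fun k => hf (u k)
  obtain ⟨N, hN⟩ := hacc (fun k => (u k).1) hu.monotone fun k => (u k).2.1
  have h1 := hN (N + 1) (Nat.le_succ N)
  exact (hu (Nat.lt_succ_self N)).ne' h1

end Pool.Agent.Results.MP_21ca32_ag.LocallyToricQuotients
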