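import Mathlib
import Pool.Agent.Q47.QM.Final

/-!
# The gap of minimal log discrepancies below one for quotients of toric singularities

`X ∋ P` is a toric germ of dimension `n` (`ToricGerm`: an affine toric variety with a fixed point `P`), `B` a
torus invariant effective `ℝ`-divisor with coefficients in a DCC set (`B = 0` for the question of the
problem), and `G` a finite group of automorphisms of the pair at `P`. The minimal log discrepancy of the
quotient is the least value of `a(E, X, B) / r_E` over the prime divisors `E` over `X` with centre `P`,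
where `r_E` is the order of the inertia group of `E` (`IsQuotMld`). The set of these numbers satisfies
the ascending chain condition (`quot_acc`), therefore `1` is not a limit of smaller ones.
-/

set_option autoImplicit false

namespace Pool.Agent.Results.MP_21ca32_ag.ToricQuotients

open Pool.Agent.TH165.ACC Pool.Agent.W497.Mld Pool.Agent.H436R3.KT Pool.Agent.H436R3.Fol Q47.QM

/-- For every `n` and every DCC set `Γ` there is a real number `0 < a < 1` such that every minimal log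
discrepancy of a quotient as above of dimension `n` which is greater than `a` is at least `1`. -/
theorem result (n : ℕ) {Γ : Set ℝ} (hΓ : Pool.Agent.TH165.ACC.IsDCC Γ) :
    ∃ a : ℝ, 0 < a ∧ a < 1 ∧
      ∀ (g : ToricGerm n (FractionRing (MvPolynomial (Fin n) ℂ))) (B : EffDiv g.X)
        (e : LocEq B g.P) (G : Subgroup (FractionRing (MvPolynomial (Fin n) ℂ) ≃ₐ[ℂ]
          FractionRing (MvPolynomial (Fin n) ℂ))) (m : ℝ),
        CoeffIn B Γ → (∀ v, (∀ i : Fin n, v.ord (cv _ i) = 0) → B.mult v = 0) → Finite G →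
        (∀ σ ∈ G, IsPairAut e σ) → (∀ σ ∈ G, ∃ γ, IsPairAut e γ ∧ IsMono n (γ⁻¹ * σ * γ)) →
        IsQuotMld e G m → a < m → 1 ≤ m := by
  classical
  have hacc := quot_acc (n := n) (K := FractionRing (MvPolynomial (Fin n) ℂ)) hΓ
  set S : Set ℝ := {m : ℝ | 0 ≤ m ∧ ∃ (g : ToricGerm n (FractionRing (MvPolynomial (Fin n) ℂ)))
      (B : EffDiv g.X) (e : LocEq B g.P)
      (G : Subgroup (FractionRing (MvPolynomial (Fin n) ℂ) ≃ₐ[ℂ]
        FractionRing (MvPolynomial (Fin n) ℂ))),
      CoeffIn B Γ ∧ (∀ v, (∀ i : Fin n, v.ord (cv _ i) = 0) → B.mult v = 0) ∧ Finite G ∧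
      (∀ σ ∈ G, IsPairAut e σ) ∧ (∀ σ ∈ G, ∃ γ, IsPairAut e γ ∧ IsMono n (γ⁻¹ * σ * γ)) ∧
      IsQuotMld e G m} with hS
  by_contra hcon
  push Not at hcon
  have hstep : ∀ a : ℝ, 0 < a → a < 1 → ∃ m ∈ S, a < m ∧ m < 1 := by
    intro a ha0 ha1
    obtain ⟨g, B, e, G, m, h1, h2, h3, h4, h5, h6, h7, h8⟩ := hcon a ha0 ha1
    exact ⟨m, ⟨(ha0.trans h7).le, g, B, e, G, h1, h2, h3, h4, h5, h6⟩, h7, h8⟩
  obtain ⟨m0, hm0, h0a, h01⟩ := hstep (1 / 2) (by norm_num) (by norm_num)
  have hnext : ∀ x : {x : ℝ // x ∈ S ∧ 0 < x ∧ x < 1}, ∃ y : {x : ℝ // x ∈ S ∧ 0 < x ∧ x < 1},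
      x.1 < y.1 := by
    rintro ⟨x, hx, hx0, hx1⟩
    obtain ⟨y, hy, h1, h2⟩ := hstep x hx0 hx1
    exact ⟨⟨y, hy, hx0.trans h1, h2⟩, h1⟩
  choose f hf using hnext
  let u : ℕ → {x : ℝ // x ∈ S ∧ 0 < x ∧ x < 1} := fun k =>
    Nat.rec ⟨m0, hm0, by linarith, h01⟩ (fun _ x => f x) k
  have hu : StrictMono fun k => (u k).1 := strictMono_nat_of_lt_succ fun k => hf (u k)
  obtain ⟨N, hN⟩ := hacc (fun k => (u k).1) hu.monotone fun k => (u k).2.1
  have h1 := hN (N + 1) (Nat.le_succ N)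
  exact (hu (Nat.lt_succ_self N)).ne' h1

end Pool.Agent.Results.MP_21ca32_ag.ToricQuotients
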