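import Pool.Agent.Q278.DE.H

set_option autoImplicit false

namespace Pool.Agent.Results.MP_21f43f_nt.DerivativesEvenOut

open Complex
open Pool.Agent.H986R2.K4 (xi)
open Pool.Agent.W186.SD.Cnt (Zer num)

/-- The normalised ordinate `γ log γ / (2 π)` of the problem. -/
noncomputable def nrm (y : ℝ) : ℝ := y * Real.log y / (2 * Real.pi)

/-- The zero `s` of the `n`-th derivative of `xi` lies on the critical line and is simple; the next
zero above it (the zero with the least imaginary part larger than that of `s`) is on the critical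
line as well, and their normalised gap differs from `1` by at most `η`. -/
def Regular (n : ℕ) (η : ℝ) (s : ℂ) : Prop :=
  s.re = 1 / 2 ∧ iteratedDeriv (n + 1) xi s ≠ 0 ∧ ∃ y : ℝ, s.im < y ∧
    iteratedDeriv n xi (1 / 2 + y * I) = 0 ∧
    (∀ w : ℂ, iteratedDeriv n xi w = 0 → s.im < w.im → y ≤ w.im) ∧ |nrm y - nrm s.im - 1| ≤ η

/-- The zeros of the `n`-th derivative with imaginary part in `(0, T]` which are not regular. -/
def Irregular (n : ℕ) (η T : ℝ) : Set ℂ := {s | s ∈ Zer n T ∧ ¬ Regular n η s}

/-- `xi` is the Riemann xi function, `Zer n T` the (finite) set of the zeros of its `n`-th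
derivative with imaginary part in `(0, T]`, and `num n A` the number of points of `A`, each counted
with its multiplicity as a zero of the `n`-th derivative.

Unconditionally, for every `η > 0` there are `c, C, δ > 0` such that for all `T ≥ 2` and all
`n ≤ δ log T` the irregular zeros of the `n`-th derivative up to height `T` are at most the
proportion `C exp(-c n)` of all its zeros up to height `T`. -/
theorem result (η : ℝ) (hη : 0 < η) :
    (∀ (n : ℕ) (T : ℝ), (Zer n T).Finite) ∧
    ∃ c C δ : ℝ, 0 < c ∧ 0 < C ∧ 0 < δ ∧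
      ∀ (n : ℕ) (T : ℝ), 2 ≤ T → (n : ℝ) ≤ δ * Real.log T →
        (num n (Irregular n η T) : ℝ) ≤ C * Real.exp (-(c * n)) * num n (Zer n T) ∧
        (num n (Irregular n η T) : ℝ) ≤ C * Real.exp (-(c * n)) * T * Real.log T :=
  ⟨Pool.Agent.W186.SD.Cnt.zer_fin, Pool.Agent.Q278.DE.main η hη⟩

end Pool.Agent.Results.MP_21f43f_nt.DerivativesEvenOut
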