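import Pool.Agent.Q28.TW.Main

/-!
# The Tamagawa number conjecture in analytic rank one: from Heegner fields to all fields

Let `E` be an elliptic curve over `ℚ`, `p` an odd prime and `S` a finite set of primes containing
the primes of bad reduction of `E` (and any others, for instance `p` and 2). The pairs `(E', K)` of
question Q1 with `E'` a quadratic twist of `E` are given by two twists `E' = E_D` and `E_D'`, with
`K = ℚ(√(DD'))`, one of analytic rank 0 and one of analytic rank 1, with `D` and `D'` of different
signs. We show: if the formula holds in all cases in which the Heegner hypothesis is satisfied (all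
primes dividing the conductor of `E_D`, and all primes of `S`, split in `K`), then its truth for
`(E_D, K)` depends only on the classes of `D` and `D'` in `ℚ_lˣ/(ℚ_lˣ)²` for `l` in `S`, and it holds
for all `K` as soon as it holds for a finite number of single pairs (at most the product of the
orders of these groups), which link the local classes as far as pairs do. The proof uses the defects of
the formula over `ℚ`; by nonvanishing theorems two twists of the same analytic rank (0 or 1) with the
same sign and the same classes at `S` have Heegner pairs in common with other twists.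
-/

namespace Pool.Agent.Results.MP_23455a_nt.FromHeegnerFields

open Pool.Agent.Q28.TW

/-- **From Heegner fields to all fields.** Let `T` be the quadratic twists of an elliptic curve over
`ℚ`, for an odd prime `p` and a finite set `S` of primes containing those of bad reduction (`hT`:
published facts).

1. If Q1 holds in the Heegner case then for pairs `(E_D, K)`, `K = ℚ(√(DD'))`, it depends only on the
  classes of `D` and `D'` at the primes of `S`.
2. If Q1 holds in the Heegner case and for the members of a test set, then it holds for all pairs.
3. There is a test set with at most `∏ |ℚ_lˣ/(ℚ_lˣ)²|` members, `l` in `S`. -/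
theorem result (T : Twists) (hT : T.Facts) :
    ((∀ D D', T.Pair D D' → T.Heegner D D' → T.Q1 D D') →
      ∀ D₁ D₁' D₂ D₂', T.Pair D₁ D₁' → T.Pair D₂ D₂' → T.loc D₁ = T.loc D₂ →
        T.loc D₁' = T.loc D₂' → (T.Q1 D₁ D₁' ↔ T.Q1 D₂ D₂')) ∧
    (∀ A : Set (T.Tw × T.Tw), IsTestSet A →
      (∀ D D', T.Pair D D' → T.Heegner D D' → T.Q1 D D') → (∀ x ∈ A, T.Q1 x.1 x.2) →
        ∀ D D', T.Pair D D' → T.Q1 D D') ∧
    ∃ A : Finset (T.Tw × T.Tw), A.card ≤ ∏ l : T.S, Fintype.card (T.C l) ∧
      IsTestSet (A : Set (T.Tw × T.Tw)) :=
  ⟨fun hS _ _ _ _ h₁ h₂ h h' => hT.q1_local hS h₁ h₂ h h',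
    fun _ hA hS hQ => hT.q1_of_test hS hA hQ, hT.exists_test⟩

end Pool.Agent.Results.MP_23455a_nt.FromHeegnerFields
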