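import Pool.Agent.Q263.IV.Final

/-!
# Ivrii's conjecture for almost every polynomial or entire perturbation of every (symmetric) table

Project IVP of helper263, with the modules of helpers 26, 38, 65 and 144 listed in
`Pool/Agent/Q263/IV/Final.lean`. A function `h` on `ℝ^d` of class `C²` defines the table `{h < 0}`;
`Traj` (`Pool/Agent/Y322/IV/Def.lean`) is a piece of a billiard trajectory; `TwiceOrb`, `PerN`, `Inv`
are in `Pool/Agent/Q263/IV/Main.lean`, `pol` in `Def.lean`, `Good`, `AeGood`, `Grp`, `IsFin`, `order`,
`FinFam`, `SeqFam`, `PolFam`, `EntFam` in `Final.lean`.

## Outline of the proof

Consider the trajectories which come back, for the first time at the bounce number `n`, to the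
`Γ`-orbit of the first bounce point `q = p 0`, say `p n = γ q`, and fix the oriented line on which
they start. For a family `h s`, `s ∈ S`, the parameters and lengths
`(s, w) ∈ S × ℝ^n` of such paths satisfy the `n + 1` equations `h s (p k) = 0`, `1 ≤ k ≤ n`
(with `p n = γ q`) and an equation which says that the last segment meets the line of the first one
after `γ⁻¹`. The derivative of these equations is triangular with respect to the lengths, and is
onto because of a direction of `S` which moves the boundary at `q` and does not change the `1`-jet
of `h s` at the other bounce points (`Core.lean`). So the projection to `S` of the solutions, which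
has one dimension less than `S`, is a null set (`Proj`). This replaces the disjointness argument of
`AlmostEveryPerturbation`, which needs bumps with convex supports.

The lines with a loop form closed sets (`Closed2`), so Fubini's theorem applies. Trajectories which
come back to the orbit of the first bounce point along the image of the first line in the opposite
direction either hit the boundary at a fixed point of `γ` or run along an axis of `γ`
(`Sym`, `Even`, `Odd`), which are null sets for every table. The billiard map preserves null sets.
-/

set_option autoImplicit false

open Set MeasureTheory Function Filter
open scoped unitInterval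

namespace Pool.Agent.Results.MP_249f74_an.AlmostEveryPolynomial

open Q263.IV

/-- Let `d ≥ 2`, let `Γ` be a finite group of linear isometries of `ℝ^d` (for instance the trivial
one), and let `f` be any `Γ`-invariant function of class `C²`. `Good d Γ N h` says that almost no
trajectory in the table `{h < 0}` meets within `N` bounces the `Γ`-orbit of one of its former bounce
points, and that almost no phase point is periodic with a period at most `N`.

1. `Good d Γ N (f + P)` for almost every `Γ`-invariant polynomial `P` of degree at most `D` in each
   variable, if `D ≥ 2 |Γ| (N - 1)`.
2. The same for almost every member of every finite dimensional space of `Γ`-invariant functions which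
   separates `1`-jets.
3. `Good d Γ N (f + ∑ t_j g_j)` for all `N`, for almost every point `t` of the Hilbert cube, for
   every sequence `g_j` of `Γ`-invariant functions which separates `1`-jets.
4. There are such sequences of `Γ`-invariant polynomials with arbitrarily small coefficients. -/
theorem result (d : ℕ) (hd : 2 ≤ d) (Γ : Grp d) (hΓ : IsFin Γ) :
    PolFam d Γ ∧ FinFam (EuclideanSpace ℝ (Fin d)) d Γ ∧ SeqFam (EuclideanSpace ℝ (Fin d)) d Γ ∧
      EntFam d Γ :=
  allFam hd Γ hΓ

end Pool.Agent.Results.MP_249f74_an.AlmostEveryPolynomial
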