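import Pool.Agent.Q73.Semi.Speed
import Pool.Agent.Q73.Semi.Harm

/-!
# Harmonic measure of boundary rays seen from semigroup orbits

For every non-elliptic semigroup the infimum `m(t)` is equal to `1/2` for all `t`.  The definitions
of the disc, of continuous semigroups of holomorphic self-maps, of non-ellipticity and of the
Denjoy-Wolff point are in `Pool.Agent.Q73.Semi.Defs`.
-/

set_option autoImplicit false

open Set Filter Topology Q73.Semi MeasureTheory

namespace Pool.Agent.Results.MP_26616c_an.InfimumIsOneHalf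

/-- The map `C(z) = (1 + z) / (1 - z)` of the disc onto the right half plane. -/
noncomputable def C (z : ℂ) : ℂ := (1 + z) / (1 - z)

/-- The point `z_t = C(φ_t(0))` of the orbit in the right half plane; `ρ_t = |z_t|`. -/
noncomputable def zt (φ : ℝ → ℂ → ℂ) (t : ℝ) : ℂ := C (φ t 0)

/-- The harmonic measure, evaluated at the point `w` of the right half plane, of the subset
`{iy : y ∈ E}` of the imaginary axis (Poisson integral of the half plane):
`ω(w, iE, ℍ) = 1/π ∫_E Re w / |w - iy|² dy`. -/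
noncomputable def harmonicMeasure (w : ℂ) (E : Set ℝ) : ℝ :=
  1 / Real.pi * ∫ y in E, w.re / (w.re ^ 2 + (w.im - y) ^ 2)

/-- `h_t(w) = ω(w, Θ_t, ℍ)`, where `Θ_t = {iy : |y| ≥ ρ_t}`. -/
noncomputable def h (φ : ℝ → ℂ → ℂ) (t : ℝ) (w : ℂ) : ℝ :=
  harmonicMeasure w {y : ℝ | ‖zt φ t‖ ≤ |y|}

/-- `m(t) = inf_{s ≥ t} h_t(z_s)`. -/
noncomputable def m (φ : ℝ → ℂ → ℂ) (t : ℝ) : ℝ := sInf ((fun s => h φ t (zt φ s)) '' Ici t)

lemma hm_ge {w : ℂ} (hw : 0 < w.re) {R : ℝ} (hR : 0 < R) (hRw : R ≤ ‖w‖) :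
    1 / 2 ≤ harmonicMeasure w {y : ℝ | R ≤ |y|} := by
  unfold harmonicMeasure
  rw [integral_rays hw w.im hR]
  have hn : ‖w‖ ^ 2 = w.re ^ 2 + w.im ^ 2 := by
    rw [← Complex.normSq_eq_norm_sq, Complex.normSq_apply]; ring
  have h1 : R ^ 2 ≤ w.re ^ 2 + w.im ^ 2 := by
    rw [← hn]; gcongr
  have h2 := arctan_sum_le (a := (R - w.im) / w.re) (b := (R + w.im) / w.re)
    (by rw [← add_div]; apply div_pos _ hw; linarith)
    (by rw [div_mul_div_comm, div_le_one (by positivity)]; nlinarith)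
  rw [div_mul_eq_mul_div, div_le_div_iff₀ (by norm_num) Real.pi_pos]
  linarith

lemma hm_eq {w : ℂ} (hw : 0 < w.re) : harmonicMeasure w {y : ℝ | ‖w‖ ≤ |y|} = 1 / 2 := by
  have hR : 0 < ‖w‖ := by
    rw [norm_pos_iff]; intro h; rw [h] at hw; simp at hw
  unfold harmonicMeasure
  rw [integral_rays hw w.im hR]
  have hn : ‖w‖ ^ 2 = w.re ^ 2 + w.im ^ 2 := by
    rw [← Complex.normSq_eq_norm_sq, Complex.normSq_apply]; ring
  have h2 := arctan_sum_eq (a := (‖w‖ - w.im) / w.re) (b := (‖w‖ + w.im) / w.re)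
    (by rw [← add_div]; apply div_pos _ hw; linarith)
    (by rw [div_mul_div_comm, div_eq_one_iff_eq (by positivity)]; nlinarith)
  rw [h2]
  have := Real.pi_pos
  field_simp
  ring

/-- **Theorem (negative answer to Q1, sharp form).**  For every non-elliptic semigroup with
Denjoy-Wolff point `1` one has `h_t(z_s) ≥ 1/2` for all `s ≥ t ≥ 0` and `m(t) = 1/2` for all
`t ≥ 0`; in particular `liminf m(t) = 1/2`. -/
theorem result (φ : ℝ → ℂ → ℂ) (hφ : IsSemigroup φ) (_hne : IsNonElliptic φ)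
    (hτ : IsDenjoyWolff φ 1) :
    (∀ t s : ℝ, 0 ≤ t → t ≤ s → 1 / 2 ≤ h φ t (zt φ s)) ∧ (∀ t : ℝ, 0 ≤ t → m φ t = 1 / 2) ∧
      liminf (m φ) atTop = 1 / 2 := by
  have hDW := rot_isDW hφ hτ
  have e : ∀ t, zt φ t = orb (rot φ 1) t := by
    intro t
    unfold zt orb
    rw [rot_zero]
    simp [C, cay]
  have hpos : ∀ t, 0 ≤ t → 0 < (zt φ t).re := by
    intro t ht
    rw [e]
    linarith [hDW.one_le_orb_re ht]
  have hn : ∀ t, 0 ≤ t → 0 < ‖zt φ t‖ := by
    intro t ht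
    rw [norm_pos_iff]
    intro h0
    have := hpos t ht
    rw [h0] at this
    simp at this
  have h1 : ∀ t s : ℝ, 0 ≤ t → t ≤ s → 1 / 2 ≤ h φ t (zt φ s) := by
    intro t s ht hts
    apply hm_ge (hpos s (ht.trans hts)) (hn t ht)
    rw [e, e]
    exact hDW.norm_orb_mono ht hts
  have h2 : ∀ t : ℝ, 0 ≤ t → m φ t = 1 / 2 := by
    intro t ht
    unfold m
    have hmem : (1 / 2 : ℝ) ∈ (fun s => h φ t (zt φ s)) '' Ici t :=
      ⟨t, self_mem_Ici, hm_eq (hpos t ht)⟩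
    apply le_antisymm
    · apply csInf_le _ hmem
      refine ⟨1 / 2, ?_⟩
      rintro _ ⟨s, hs, rfl⟩
      exact h1 t s ht hs
    · apply le_csInf ⟨_, hmem⟩
      rintro _ ⟨s, hs, rfl⟩
      exact h1 t s ht hs
  refine ⟨h1, h2, ?_⟩
  have h3 : Tendsto (m φ) atTop (𝓝 (1 / 2)) := by
    apply tendsto_const_nhds.congr'
    filter_upwards [eventually_ge_atTop (0:ℝ)] with t ht using (h2 t ht).symm
  exact h3.liminf_eq

end Pool.Agent.Results.MP_26616c_an.InfimumIsOneHalf
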