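import Pool.Agent.Q34.RT.LogC

set_option autoImplicit false

/-!
# The Lang-Vojta conjecture for integral points over cyclotomic rings and sums of radicals

Let `U` be the affine variety over a field `k` of characteristic `0` given by finitely many polynomials
`F` of degree at most `d` in `n` variables. A subvariety of log general type is not dominated by
punctured lines, so if all the subvarieties of `U` are of log general type, then `U` contains no
nonconstant image of the punctured line (`NoGm`). And if `U` itself is of log general type, of
positive dimension, then it is not dominated by punctured lines (`GmUniruled`).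

(1) Let `U` be integral and not dominated by punctured lines. For every `r` there is a proper closed
subset `Z = U ∩ {G = 0}`, defined over `k`, such that for ALL fields `L ⊇ k` in which the numbers
algebraic over `ℚ` form a field of degree at most `D` (by (4); these include the function fields of all
arithmetic schemes over `k`) and ALL vectors `V_1, …, V_r` over `L` (`LogBounded`):
* every point of `U` outside `Z` of the form `∑ u_j V_j`, with roots of unity or zero `u_j`, is also
  given by zero or roots of unity of one order `m ≤ (9 (r + 1) d D) ^ (2 (r + 1))`;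
* every point of `U` outside `Z` of the form `∑ u_j V_j`, with radicals `u_j` over `L` (elements of an
  algebraic closure with a power in `L`), is also given by `w_j` with `w_j ^ B ∈ L`, for one exponent
  `B ≤ radBound (r + 1) d D`, which is explicit.
If `L` is a number field, then the points of `U` outside `Z` which are sums of `r` vectors over `L`
multiplied by radicals over `L` have the Northcott property (`LogNorthcott`).

(2) If `U` contains no nonconstant image of the punctured line, all this holds with `Z` empty.

(3) (integral points over the rings of cyclotomic integers) For every `B` there is `Λ` such that for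
all `k`, `U` as in (1) and `g` there is a proper closed subset `Z` of `U`, empty if `U` is as in (2), such
that for all number fields `L ⊇ k` and all `e_1, …, e_g` in `L` the points of `U` outside `Z` all of whose
coordinates are sums `∑ e_i β_i`, where the `β_i` are cyclotomic integers of ANY conductor all of whose
conjugates have absolute value at most `B`, are finite in number, at most `(M + 1) ^ (s + 1)`, where
`s = n g Λ` and `M = (9 (s + 1) d [L : ℚ]) ^ (2 (s + 1))`.

(5) If `U` is dominated by punctured lines, this fails: for some `r` and every proper closed subset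
`G = 0` there are a number field `L ⊇ k` and FIXED vectors `V_1, …, V_r` over `L` such that there are
infinitely many points of `U` off `G = 0`, of bounded height, of the form `∑ u_j V_j` where the `u_j` are
roots of unity or zero.

The hypersurface that contains the punctured lines with `r` terms is from the starting library, as is
Loxton's theorem, which is used in (3).
-/

namespace Pool.Agent.Results.MP_26d9ad_nt.CyclotomicRadicalPoints

open MvPolynomial Pool.Agent.Q34.CL Pool.Agent.Q34.RT
open Pool.Agent.Y215.AF (GmUniruled exists_hyperA)

/-- the hypothesis on the equations -/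
def Degrees {k : Type} [Field k] {n N : ℕ} (F : Fin N → MvPolynomial (Fin n) k) (d : ℕ) : Prop :=
  1 ≤ d ∧ ∀ i, (F i).totalDegree ≤ d

/-- integral, and not dominated by punctured lines -/
def NotDominated {k : Type} [Field k] {n N : ℕ} (F : Fin N → MvPolynomial (Fin n) k) : Prop :=
  (Ideal.span (Set.range F)).IsPrime ∧ ¬ GmUniruled (Ideal.span (Set.range F))

theorem result :
    -- (1) varieties which are not dominated by punctured lines
    (∀ (k : Type) [Field k] [CharZero k] (n N : ℕ) (F : Fin N → MvPolynomial (Fin n) k) (d : ℕ),
      Degrees F d → NotDominated F → ∀ r : ℕ, ∃ G : MvPolynomial (Fin n) k,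
        G ∉ Ideal.span (Set.range F) ∧ LogBounded F G r d ∧ LogNorthcott F G r) ∧
    -- (2) varieties without punctured lines
    (∀ (k : Type) [Field k] [CharZero k] (n N : ℕ) (F : Fin N → MvPolynomial (Fin n) k) (d : ℕ),
      Degrees F d → NoGm F → ∀ r : ℕ, LogBounded F 1 r d ∧ LogNorthcott F 1 r) ∧
    -- (3) integral points over the rings of cyclotomic integers
    (∀ B : ℝ, ∃ Λ : ℕ, ∀ (k : Type) [Field k] [CharZero k] (n N : ℕ)
      (F : Fin N → MvPolynomial (Fin n) k) (d : ℕ), Degrees F d →
      (NotDominated F → ∀ g : ℕ, ∃ G : MvPolynomial (Fin n) k,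
        G ∉ Ideal.span (Set.range F) ∧ CycIntegralBound F G B Λ d g) ∧
      (NoGm F → ∀ g : ℕ, CycIntegralBound F 1 B Λ d g)) ∧
    -- (4) the fields `L`
    (∀ (L Ω : Type) [Field L] [CharZero L] [Field Ω] [Algebra L Ω] (D : ℕ)
      [FiniteDimensional ℚ (algebraicClosure ℚ L)],
      Module.finrank ℚ (algebraicClosure ℚ L) ≤ D → CycDegree L Ω D) ∧
    -- (5) the converse
    (∀ (k : Type) [Field k] [NumberField k] (n N : ℕ) (F : Fin N → MvPolynomial (Fin n) k),
      GmUniruled (Ideal.span (Set.range F)) → ∃ r : ℕ, ∀ G : MvPolynomial (Fin n) k,
        G ∉ Ideal.span (Set.range F) → LogInfinite F G r) := by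
  have h1 : ∀ (k : Type) [Field k] [CharZero k] (n N : ℕ) (F : Fin N → MvPolynomial (Fin n) k)
      (d : ℕ), Degrees F d → NotDominated F → ∀ r : ℕ, ∃ G : MvPolynomial (Fin n) k,
        G ∉ Ideal.span (Set.range F) ∧ LogBounded F G r d := by
    intro k _ _ n N F d hd hF r
    obtain ⟨G, hG, hC⟩ := exists_hyperA (Set.range F) hF.1 hF.2 d hd.1 (by
      rintro _ ⟨i, rfl⟩
      exact hd.2 i) r
    refine ⟨G, hG, logBounded F G d hd.1 hd.2 ?_⟩
    intro L _ _ c l hz hc
    refine hC L c l ?_ hc
    rintro _ ⟨i, rfl⟩
    exact hz i
  have h2 : ∀ (k : Type) [Field k] [CharZero k] (n N : ℕ) (F : Fin N → MvPolynomial (Fin n) k)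
      (d : ℕ), Degrees F d → NoGm F → ∀ r : ℕ, LogBounded F 1 r d :=
    fun k _ _ n N F d hd hF r => logBounded F 1 d hd.1 hd.2 (curCond_noGm F d hd.2 hF r)
  refine ⟨fun k _ _ n N F d hd hF r => ?_, fun k _ _ n N F d hd hF r => ?_, fun B => ?_,
    fun L Ω _ _ _ _ D _ hD => Pool.Agent.Q34.RD.cycDegree_closure L Ω D hD,
    fun k _ _ n N F h => log_converse F h⟩
  · obtain ⟨G, hG, h⟩ := h1 k n N F d hd hF r
    exact ⟨G, hG, h, logNorthcott F G d h⟩
  · have h := h2 k n N F d hd hF r
    exact ⟨h, logNorthcott F 1 d h⟩
  · obtain ⟨Λ, hΛ⟩ := cycBound B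
    refine ⟨Λ, fun k _ _ n N F d hd => ⟨fun hF g => ?_, fun hF g => ?_⟩⟩
    · obtain ⟨G, hG, h⟩ := h1 k n N F d hd hF (n * g * Λ)
      exact ⟨G, hG, hΛ k n N F G d g h⟩
    · exact hΛ k n N F 1 d g (h2 k n N F d hd hF (n * g * Λ))

end Pool.Agent.Results.MP_26d9ad_nt.CyclotomicRadicalPoints
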