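import Mathlib

set_option autoImplicit false

/-!
# Jets of very well covered graphs are very well covered
-/

open Finset

namespace Pool.Agent.Results.MP_26e8bc_co.Jets

/-- `G` has no isolated vertex and every maximal independent set contains exactly half of the
vertices. -/
def VeryWellCovered {V : Type} (G : SimpleGraph V) : Prop :=
  (∀ v, ∃ w, G.Adj v w) ∧
    ∀ I : Set V, Maximal (fun s : Set V => G.IsIndepSet s) I → 2 * I.ncard = Nat.card V

/-- The graph of `s`-jets. -/
def jet {V : Type} (G : SimpleGraph V) (s : ℕ) : SimpleGraph (V × Fin (s + 1)) where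
  Adj p q := G.Adj p.1 q.1 ∧ (p.2 : ℕ) + q.2 ≤ s
  symm := ⟨fun _ _ h => ⟨h.1.symm, by rw [add_comm]; exact h.2⟩⟩
  loopless := ⟨fun _ h => h.1.ne rfl⟩

section

variable {V : Type} [Finite V] {G : SimpleGraph V}

lemma exists_maximal (S : Set V) (hS : G.IsIndepSet S) :
    ∃ K : Set V, S ⊆ K ∧ Maximal (fun s : Set V => G.IsIndepSet s) K := by
  obtain ⟨K, hK, hmax⟩ := (Set.toFinite {s : Set V | G.IsIndepSet s}).exists_le_maximal hS
  exact ⟨K, hK, hmax⟩

/-- A perfect matching, given as a fixed-point free involution along edges, such that the ends of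
every matching edge have completely joined neighbourhoods, makes the graph very well covered. -/
lemma of_matching (f : V → V) (hf : ∀ v, f (f v) = v) (hadj : ∀ v, G.Adj v (f v))
    (hP : ∀ v x y, G.Adj v x → G.Adj (f v) y → G.Adj x y) : VeryWellCovered G := by
  refine ⟨fun v => ⟨f v, hadj v⟩, fun I hI => ?_⟩
  have hfi : Function.Injective f := fun a b h => by rw [← hf a, h, hf]
  have himg : f '' I = Iᶜ := by
    ext v
    constructor
    · rintro ⟨u, hu, rfl⟩ hfu
      exact hI.1 hu hfu (hadj u).ne (hadj u)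
    · intro hv
      by_contra hcon
      have hfv : f v ∉ I := fun h => hcon ⟨f v, h, hf v⟩
      have key : ∀ w, w ∉ I → ∃ x ∈ I, G.Adj w x := by
        intro w hw
        by_contra hno
        push Not at hno
        apply hw
        have hins : G.IsIndepSet (insert w I) := by
          intro a ha b hb hab
          rcases ha with rfl | ha
          · rcases hb with rfl | hb
            · exact absurd rfl hab
            · exact hno b hb
          · rcases hb with rfl | hb
            · exact fun h => hno a ha h.symm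
            · exact hI.1 ha hb hab
        exact hI.2 hins (Set.subset_insert w I) (Set.mem_insert w I)
      obtain ⟨x, hx, hvx⟩ := key v hv
      obtain ⟨y, hy, hvy⟩ := key (f v) hfv
      have hxy := hP v x y hvx hvy
      exact hI.1 hx hy hxy.ne hxy
  have h1 : I.ncard + Iᶜ.ncard = Nat.card V := Set.ncard_add_ncard_compl I
  have h2 : Iᶜ.ncard = I.ncard := by
    rw [← himg, Set.ncard_image_of_injective _ hfi]
  omega

/-- Berge: in a very well covered graph `|S| ≤ |N(S)|` for every independent set `S`. -/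
lemma berge (h : VeryWellCovered G) : ∀ (n : ℕ) (S : Set V), S.ncard = n → G.IsIndepSet S →
    S.ncard ≤ {w | ∃ v ∈ S, G.Adj v w}.ncard := by
  intro n
  induction n using Nat.strong_induction_on with
  | _ n ih =>
    intro S hSn hS
    by_contra hlt
    rw [not_le] at hlt
    set N : Set V := {w | ∃ v ∈ S, G.Adj v w} with hN
    obtain ⟨T, hT⟩ := (Set.toFinite {T : Set V | T ⊆ N ∧ G.IsIndepSet T}).exists_maximal
      ⟨∅, Set.empty_subset _, by intro a ha; exact absurd ha (Set.notMem_empty a)⟩
    have hTN : T ⊆ N := hT.1.1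
    have hTi : G.IsIndepSet T := hT.1.2
    have hSne : S.Nonempty := by
      rw [Set.nonempty_iff_ne_empty]
      rintro rfl
      rw [Set.ncard_empty] at hlt
      exact absurd hlt (Nat.not_lt_zero _)
    have hTne : T.Nonempty := by
      rw [Set.nonempty_iff_ne_empty]
      intro hTe
      obtain ⟨v, hv⟩ := hSne
      obtain ⟨w, hw⟩ := h.1 v
      have hsing : ({w} : Set V) ∈ {T : Set V | T ⊆ N ∧ G.IsIndepSet T} := by
        refine ⟨Set.singleton_subset_iff.2 ⟨v, hv, hw⟩, ?_⟩
        intro a ha b hb hab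
        rw [Set.mem_singleton_iff] at ha hb
        exact absurd (ha.trans hb.symm) hab
      have := hT.2 hsing (by rw [hTe]; exact Set.empty_subset _) (Set.mem_singleton w)
      rw [hTe] at this
      exact this
    let A : Set V := {v ∈ S | ∀ t ∈ T, ¬ G.Adj v t}
    have hTA : G.IsIndepSet (T ∪ A) := by
      intro a ha b hb hab
      rcases ha with ha | ha
      · rcases hb with hb | hb
        · exact hTi ha hb hab
        · exact fun hh => hb.2 a ha hh.symm
      · rcases hb with hb | hb
        · exact ha.2 b hb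
        · exact hS ha.1 hb.1 hab
    obtain ⟨K, hTAK, hK⟩ := exists_maximal _ hTA
    have hKN : K ∩ N = T := by
      apply Set.Subset.antisymm
      · have hmem : K ∩ N ∈ {T : Set V | T ⊆ N ∧ G.IsIndepSet T} :=
          ⟨Set.inter_subset_right, fun a ha b hb hab => hK.1 ha.1 hb.1 hab⟩
        exact hT.2 hmem (fun t ht => ⟨hTAK (Or.inl ht), hTN ht⟩)
      · intro t ht; exact ⟨hTAK (Or.inl ht), hTN ht⟩
    have hKS : K ∩ S = A := by
      apply Set.Subset.antisymm
      · rintro v ⟨hvK, hvS⟩
        refine ⟨hvS, fun t ht hadj => ?_⟩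
        exact hK.1 hvK (hTAK (Or.inl ht)) hadj.ne hadj
      · intro v hv; exact ⟨hTAK (Or.inr hv), hv.1⟩
    have hSN : Disjoint S N := by
      rw [Set.disjoint_left]
      rintro v hv ⟨u, hu, huv⟩
      exact hS hu hv huv.ne huv
    let X : Set V := K \ (N ∪ S)
    have hXS : G.IsIndepSet (X ∪ S) := by
      intro a ha b hb hab
      rcases ha with ha | ha
      · rcases hb with hb | hb
        · exact hK.1 ha.1 hb.1 hab
        · intro hh
          exact ha.2 (Or.inl ⟨b, hb, hh.symm⟩)
      · rcases hb with hb | hb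
        · intro hh
          exact hb.2 (Or.inl ⟨a, ha, hh⟩)
        · exact hS ha hb hab
    obtain ⟨K', hXSK, hK'⟩ := exists_maximal _ hXS
    have c1 := h.2 K hK
    have c2 := h.2 K' hK'
    have hXSd : Disjoint X S := by
      rw [Set.disjoint_left]
      intro v hv hv'
      exact hv.2 (Or.inr hv')
    have c3 : X.ncard + S.ncard ≤ K'.ncard := by
      rw [← Set.ncard_union_eq hXSd (Set.toFinite _) (Set.toFinite _)]
      exact Set.ncard_le_ncard hXSK (Set.toFinite _)
    have c4 : K.ncard ≤ T.ncard + A.ncard + X.ncard := by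
      have hsub : K ⊆ (T ∪ A) ∪ X := by
        intro v hv
        by_cases hvN : v ∈ N
        · exact Or.inl (Or.inl (hKN ▸ ⟨hv, hvN⟩))
        · by_cases hvS : v ∈ S
          · exact Or.inl (Or.inr (hKS ▸ ⟨hv, hvS⟩))
          · exact Or.inr ⟨hv, fun hh => hh.elim hvN hvS⟩
      have := Set.ncard_le_ncard hsub (Set.toFinite _)
      have h2 := Set.ncard_union_le (T ∪ A) X
      have h3 := Set.ncard_union_le T A
      omega
    have c5 : S.ncard ≤ T.ncard + A.ncard := by omega
    -- the smaller independent set `A` violates the inequality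
    have hAS : A ⊂ S := by
      refine ⟨fun v hv => hv.1, fun hsub => ?_⟩
      obtain ⟨t, ht⟩ := hTne
      obtain ⟨v, hv, hvt⟩ := hTN ht
      exact (hsub hv).2 t ht hvt
    have c6 : A.ncard < S.ncard := Set.ncard_lt_ncard hAS (Set.toFinite _)
    have c7 := ih A.ncard (by omega) A rfl (fun a ha b hb hab => hS ha.1 hb.1 hab)
    have c8 : {w | ∃ v ∈ A, G.Adj v w}.ncard + T.ncard ≤ N.ncard := by
      have hd : Disjoint {w | ∃ v ∈ A, G.Adj v w} T := by
        rw [Set.disjoint_left]
        rintro w ⟨v, hv, hvw⟩ hwT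
        exact hv.2 w hwT hvw
      rw [← Set.ncard_union_eq hd (Set.toFinite _) (Set.toFinite _)]
      apply Set.ncard_le_ncard _ (Set.toFinite _)
      rintro w (⟨v, hv, hvw⟩ | hw)
      · exact ⟨v, hv.1, hvw⟩
      · exact hTN hw
    omega

/-- A very well covered graph has a perfect matching with completely joined neighbourhoods. -/
lemma exists_matching (h : VeryWellCovered G) : ∃ f : V → V, (∀ v, f (f v) = v) ∧
    (∀ v, G.Adj v (f v)) ∧ ∀ v x y, G.Adj v x → G.Adj (f v) y → G.Adj x y := by
  classical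
  have := Fintype.ofFinite V
  obtain ⟨I, _, hI⟩ := exists_maximal (G := G) ∅
    (by intro a ha; exact absurd ha (Set.notMem_empty a))
  have hhall : ∀ s : Finset I, s.card ≤ (s.biUnion (fun v => univ.filter (fun w => G.Adj v w))).card := by
    intro s
    have hb := berge h _ ((fun v : I => (v : V)) '' (s : Set I)) rfl (by
      rintro a ⟨a', _, rfl⟩ b ⟨b', _, rfl⟩ hab
      exact hI.1 a'.2 b'.2 hab)
    rw [Set.ncard_image_of_injective _ Subtype.val_injective, Set.ncard_coe_finset] at hb
    refine hb.trans ?_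
    rw [← Set.ncard_coe_finset]
    apply Set.ncard_le_ncard _ (Set.toFinite _)
    rintro w ⟨v, ⟨v', hv', rfl⟩, hvw⟩
    rw [Finset.mem_coe, mem_biUnion]
    exact ⟨v', hv', by rw [mem_filter]; exact ⟨mem_univ _, hvw⟩⟩
  obtain ⟨φ, hφi, hφ⟩ := (Finset.all_card_le_biUnion_card_iff_exists_injective
    (fun v : I => univ.filter (fun w => G.Adj v w))).1 hhall
  have hφadj : ∀ v : I, G.Adj v (φ v) := fun v => (mem_filter.1 (hφ v)).2
  have hφI : ∀ v : I, φ v ∉ I := fun v hv => hI.1 v.2 hv (hφadj v).ne (hφadj v)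
  have hcard : I.ncard = Iᶜ.ncard := by
    have h1 : I.ncard + Iᶜ.ncard = Nat.card V := Set.ncard_add_ncard_compl I
    have h2 := h.2 I hI
    omega
  have hrange : Set.range φ = Iᶜ := by
    apply Set.eq_of_subset_of_ncard_le
    · rintro _ ⟨v, rfl⟩; exact hφI v
    · rw [← hcard, ← Set.image_univ, Set.ncard_image_of_injective _ hφi, Set.ncard_univ]
      exact (Nat.card_coe_set_eq I).ge
    · exact Set.toFinite _
  have hsurj : ∀ w, w ∉ I → ∃ v : I, φ v = w := by
    intro w hw
    have : w ∈ Set.range φ := by rw [hrange]; exact hw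
    exact this
  choose ψ hψ using hsurj
  let f : V → V := fun v => if hv : v ∈ I then φ ⟨v, hv⟩ else (ψ v hv : V)
  have hf1 : ∀ v (hv : v ∈ I), f v = φ ⟨v, hv⟩ := fun v hv => by simp [f, hv]
  have hf2 : ∀ v (hv : v ∉ I), f v = (ψ v hv : V) := fun v hv => by simp [f, hv]
  have hff : ∀ v, f (f v) = v := by
    intro v
    by_cases hv : v ∈ I
    · rw [hf1 v hv, hf2 _ (hφI _)]
      have := hψ _ (hφI ⟨v, hv⟩)
      have h2 := hφi this
      rw [h2]
    · rw [hf2 v hv, hf1 _ (ψ v hv).2]
      exact hψ v hv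
  have hfadj : ∀ v, G.Adj v (f v) := by
    intro v
    by_cases hv : v ∈ I
    · rw [hf1 v hv]; exact hφadj ⟨v, hv⟩
    · rw [hf2 v hv]
      have := hφadj (ψ v hv)
      rw [hψ v hv] at this
      exact this.symm
  refine ⟨f, hff, hfadj, ?_⟩
  intro v x y hvx hvy
  by_contra hxy
  have hind : G.IsIndepSet ({x, y} : Set V) := by
    intro a ha b hb hab
    rcases ha with rfl | ha
    · rcases hb with rfl | hb
      · exact absurd rfl hab
      · rw [Set.mem_singleton_iff] at hb; subst hb; exact hxy
    · rw [Set.mem_singleton_iff] at ha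
      subst ha
      rcases hb with rfl | hb
      · exact fun hh => hxy hh.symm
      · rw [Set.mem_singleton_iff] at hb; exact absurd hb.symm hab
  obtain ⟨K, hKs, hK⟩ := exists_maximal _ hind
  have hxK : x ∈ K := hKs (Or.inl rfl)
  have hyK : y ∈ K := hKs (Or.inr rfl)
  have hvK : v ∉ K := fun hv => hK.1 hv hxK hvx.ne hvx
  have hfvK : f v ∉ K := fun hv => hK.1 hv hyK hvy.ne hvy
  have hfi : Function.Injective f := fun a b hab => by rw [← hff a, hab, hff]
  have hsub : f '' K ⊆ Kᶜ \ {v} := by
    rintro _ ⟨u, hu, rfl⟩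
    refine ⟨fun hfu => hK.1 hu hfu (hfadj u).ne (hfadj u), ?_⟩
    intro he
    rw [Set.mem_singleton_iff] at he
    apply hfvK
    rw [← he, hff]
    exact hu
  have h1 := Set.ncard_le_ncard hsub (Set.toFinite _)
  rw [Set.ncard_image_of_injective _ hfi] at h1
  have h2 : (Kᶜ \ {v}).ncard < Kᶜ.ncard :=
    Set.ncard_lt_ncard ⟨Set.sdiff_subset, fun hh => (hh hvK).2 rfl⟩ (Set.toFinite _)
  have h3 : K.ncard + Kᶜ.ncard = Nat.card V := Set.ncard_add_ncard_compl K
  have h4 := h.2 K hK
  omega

end

/-- For every very well covered graph `G` and every `s`, the graph of `s`-jets of `G` is very well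
covered. -/
theorem result : ∀ (V : Type) [Finite V] (G : SimpleGraph V), VeryWellCovered G →
    ∀ s : ℕ, VeryWellCovered (jet G s) := by
  intro V _ G h s
  obtain ⟨f, hff, hfadj, hP⟩ := exists_matching h
  refine of_matching (fun p => (f p.1, ⟨s - p.2, by omega⟩)) ?_ ?_ ?_
  · rintro ⟨v, i⟩
    refine Prod.ext (hff v) (Fin.ext ?_)
    show s - (s - (i : ℕ)) = i
    omega
  · rintro ⟨v, i⟩
    refine ⟨hfadj v, ?_⟩
    show (i : ℕ) + (s - i) ≤ s
    omega
  · rintro ⟨v, i⟩ ⟨x, j⟩ ⟨y, k⟩ ⟨h1, h2⟩ ⟨h3, h4⟩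
    refine ⟨hP v x y h1 h3, ?_⟩
    show (j : ℕ) + k ≤ s
    simp only at h2 h4
    omega

end Pool.Agent.Results.MP_26e8bc_co.Jets
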