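import Mathlib
import Pool.Agent.Results.MP_2738db_nt.CountByBases
import Pool.Agent.Y902.FB.ExR
import Pool.Agent.Y854.GM.Win

/-!
# The triples of bases of the Fermat-Catalan equation are sparse

Consider the solutions of `x ^ p + y ^ q = z ^ r` in the sense of the problem (pairwise coprime
positive bases, arbitrary exponents with `1/p + 1/q + 1/r < 1`), counted by their triples of bases
`(x, y, z)`.

* For every `ε > 0` there is `R` such that for all `Y ≥ 1` at most `C Y ^ ε` triples of bases with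
  `x, y, z ≤ Y` belong to solutions with an exponent `≥ R` (unconditional).
* With the published theorem of Darmon and Granville for each single signature: for every `ε > 0`
  ALL triples of bases with `x, y, z ≤ Y` are at most `C Y ^ ε`.
* Windows. Let `v ≥ 1` be a sequence with exponent of convergence at most `τ` and `θ < 1`. For all
  `α > 0` outside a set of Hausdorff dimension at most `τ / (1 - θ)` only finitely many `k` have a
  solution with `|max (x, y, z) - α v_k| ≤ v_k ^ θ` and an exponent `≥ R(α)` (unconditional), or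
  any solution at all in this window (with the theorem of Darmon and Granville). For `v_k = b ^ k`
  the exceptional set has dimension zero.
-/

set_option autoImplicit false

open Filter Topology
open scoped ENNReal

namespace Pool.Agent.Results.MP_2738db_nt.AllBasesSparse

open CountByBases (Triples)

/-- A solution in the sense of the problem. -/
def Solution (x y z p q r : ℕ) : Prop :=
  0 < x ∧ 0 < y ∧ 0 < z ∧ Nat.Coprime x y ∧ Nat.Coprime x z ∧ Nat.Coprime y z ∧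
    0 < p ∧ 0 < q ∧ 0 < r ∧ (1 : ℚ) / p + 1 / q + 1 / r < 1 ∧ x ^ p + y ^ q = z ^ r

/-- The published theorem of Darmon and Granville (listed as known in the problem file): for fixed
exponents with `1/p + 1/q + 1/r < 1` there are only finitely many coprime positive solutions. -/
def DarmonGranville : Prop :=
  ∀ p q r : ℕ, 0 < p → 0 < q → 0 < r → (1 : ℚ) / p + 1 / q + 1 / r < 1 →
    {t : ℕ × ℕ × ℕ | 0 < t.1 ∧ 0 < t.2.1 ∧ 0 < t.2.2 ∧ Nat.Coprime t.1 t.2.1 ∧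
      Nat.Coprime t.1 t.2.2 ∧ Nat.Coprime t.2.1 t.2.2 ∧ t.1 ^ p + t.2.1 ^ q = t.2.2 ^ r}.Finite

theorem two_le_aux {a b c : ℕ} (ha : 0 < a) (hb : 0 < b) (hc : 0 < c)
    (h : (1 : ℚ) / a + 1 / b + 1 / c < 1) : 2 ≤ a := by
  by_contra hcon
  have h1 : a = 1 := by omega
  have h2 : (0 : ℚ) < 1 / b := by
    have : (0 : ℚ) < b := by exact_mod_cast hb
    positivity
  have h3 : (0 : ℚ) < 1 / c := by
    have : (0 : ℚ) < c := by exact_mod_cast hc
    positivity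
  rw [h1, Nat.cast_one, div_one] at h
  linarith

theorem two_le {x y z p q r : ℕ} (h : Solution x y z p q r) : 2 ≤ p ∧ 2 ≤ q ∧ 2 ≤ r := by
  obtain ⟨-, -, -, -, -, -, hp, hq, hr, hlt, -⟩ := h
  exact ⟨two_le_aux hp hq hr hlt, two_le_aux hq hp hr (by linarith), two_le_aux hr hp hq (by linarith)⟩

/-- The largest base. -/
def top (t : ℕ × ℕ × ℕ) : ℕ := max t.1 (max t.2.1 t.2.2)

/-- `t = (x, y, z)` is the triple of bases of a solution with an exponent `≥ R`. -/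
def IsBases (R : ℕ) (t : ℕ × ℕ × ℕ) : Prop :=
  ∃ p q r : ℕ, Solution t.1 t.2.1 t.2.2 p q r ∧ (R ≤ p ∨ R ≤ q ∨ R ≤ r)

/-- The triples of bases, all at most `Y`, of the solutions with an exponent `≥ R`. -/
def Bases (R Y : ℕ) : Set (ℕ × ℕ × ℕ) := {t | IsBases R t ∧ top t ≤ Y}

/-- the exponent of convergence of the sequence `v` is at most `τ` -/
def ExpLe (v : ℕ → ℝ) (τ : ℝ) : Prop := ∀ t : ℝ, τ < t → Summable (fun n : ℕ => (v n) ^ (-t))

theorem bases_subset_box (R Y : ℕ) :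
    Bases R Y ⊆ ((Finset.range (Y + 1) ×ˢ Finset.range (Y + 1) ×ˢ Finset.range (Y + 1) :
      Finset (ℕ × ℕ × ℕ)) : Set (ℕ × ℕ × ℕ)) := by
  rintro ⟨x, y, z⟩ ⟨-, h⟩
  simp only [top, max_le_iff] at h
  simp only [Finset.coe_product, Set.mem_prod, Finset.coe_range, Set.mem_Iio]
  omega

theorem bases_finite (R Y : ℕ) : (Bases R Y).Finite :=
  (Finset.finite_toSet _).subset (bases_subset_box R Y)

theorem bases_mono {R Y Y' : ℕ} (h : Y ≤ Y') : Bases R Y ⊆ Bases R Y' :=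
  fun _ ht => ⟨ht.1, ht.2.trans h⟩

open Classical in
/-- The number of triples of bases in terms of the number of value triples. -/
theorem count_le (C : ℝ) (κ : ℕ) (_hC : 0 < C)
    (hexp : ∀ x y z p q r : ℕ, Solution x y z p q r →
      (2 ≤ x → (p : ℝ) ≤ C * Real.log ((max x (max y z) : ℕ) : ℝ) ^ κ) ∧
      (2 ≤ y → (q : ℝ) ≤ C * Real.log ((max x (max y z) : ℕ) : ℝ) ^ κ) ∧
      (r : ℝ) ≤ C * Real.log ((max x (max y z) : ℕ) : ℝ) ^ κ)
    (R Y : ℕ) (hfin : (Triples Y R).Finite) (P : ℕ)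
    (hP : C * Real.log (Y : ℝ) ^ κ ≤ P) :
    (Bases R Y).ncard ≤ (Triples Y R).ncard * (P + 1) ^ 3 := by
  have hch : ∀ t : ℕ × ℕ × ℕ, ∃ e : ℕ × ℕ × ℕ, t ∈ Bases R Y →
      Solution t.1 t.2.1 t.2.2 e.1 e.2.1 e.2.2 ∧ (R ≤ e.1 ∨ R ≤ e.2.1 ∨ R ≤ e.2.2) := by
    intro t
    by_cases h : t ∈ Bases R Y
    · obtain ⟨⟨p, q, r, h1, h2⟩, -⟩ := h
      exact ⟨(p, q, r), fun _ => ⟨h1, h2⟩⟩
    · exact ⟨(0, 0, 0), fun h' => absurd h' h⟩
  choose e he using hch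
  set F : ℕ × ℕ × ℕ → (ℕ × ℕ × ℕ) × (ℕ × ℕ × ℕ) := fun t =>
    ((t.1 ^ (e t).1, t.2.1 ^ (e t).2.1, t.2.2 ^ (e t).2.2),
      (if t.1 = 1 then 0 else (e t).1, if t.2.1 = 1 then 0 else (e t).2.1, (e t).2.2)) with hF
  have hmaps : ∀ t ∈ Bases R Y, F t ∈ ((hfin.toFinset ×ˢ
      (Finset.range (P + 1) ×ˢ Finset.range (P + 1) ×ˢ Finset.range (P + 1)) :
      Finset ((ℕ × ℕ × ℕ) × (ℕ × ℕ × ℕ))) : Set _) := by
    intro t ht
    obtain ⟨hs, hR⟩ := he t ht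
    have htop := ht.2
    simp only [top, max_le_iff] at htop
    have hlog : Real.log ((max t.1 (max t.2.1 t.2.2) : ℕ) : ℝ) ^ κ ≤ Real.log (Y : ℝ) ^ κ := by
      apply pow_le_pow_left₀
      · exact Real.log_natCast_nonneg _
      · apply Real.log_le_log
        · have : 0 < max t.1 (max t.2.1 t.2.2) := lt_of_lt_of_le hs.1 (le_max_left _ _)
          exact_mod_cast this
        · exact_mod_cast ht.2
    have hb : C * Real.log ((max t.1 (max t.2.1 t.2.2) : ℕ) : ℝ) ^ κ ≤ P :=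
      (mul_le_mul_of_nonneg_left hlog _hC.le).trans hP
    obtain ⟨h1, h2, h3⟩ := hexp _ _ _ _ _ _ hs
    have g1 : (if t.1 = 1 then 0 else (e t).1) < P + 1 := by
      split_ifs with h
      · omega
      · have : ((e t).1 : ℝ) ≤ P := (h1 (by have := hs.1; omega)).trans hb
        have : (e t).1 ≤ P := by exact_mod_cast this
        omega
    have g2 : (if t.2.1 = 1 then 0 else (e t).2.1) < P + 1 := by
      split_ifs with h
      · omega
      · have : ((e t).2.1 : ℝ) ≤ P := (h2 (by have := hs.2.1; omega)).trans hb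
        have : (e t).2.1 ≤ P := by exact_mod_cast this
        omega
    have g3 : (e t).2.2 < P + 1 := by
      have : ((e t).2.2 : ℝ) ≤ P := h3.trans hb
      have : (e t).2.2 ≤ P := by exact_mod_cast this
      omega
    simp only [hF, Finset.coe_product, Set.mem_prod, Finset.coe_range, Set.mem_Iio,
      Set.Finite.coe_toFinset]
    have h2le := two_le hs
    obtain ⟨i1, i2, i3, i4, i5, i6, i7, i8, i9, i10, i11⟩ := hs
    exact ⟨⟨t.1, t.2.1, t.2.2, _, _, _, i1, i2, i3, htop.1, htop.2.1, htop.2.2, i4, i5, i6,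
      h2le.1, h2le.2.1, h2le.2.2, hR, i11, rfl⟩, g1, g2, g3⟩
  have hinj : Set.InjOn F (Bases R Y) := by
    intro t ht t' ht' heq
    obtain ⟨hs, -⟩ := he t ht
    obtain ⟨hs', -⟩ := he t' ht'
    simp only [hF, Prod.mk.injEq] at heq
    obtain ⟨⟨e1, e2, e3⟩, f1, f2, f3⟩ := heq
    have root : ∀ {u w a b : ℕ}, 0 < a → 0 < b → u ^ a = w ^ b →
        (if u = 1 then 0 else a) = (if w = 1 then 0 else b) → u = w := by
      intro u w a b ha hb h1 h2
      by_cases hu : u = 1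
      · rw [if_pos hu] at h2
        by_cases hw : w = 1
        · rw [hu, hw]
        · rw [if_neg hw] at h2
          exact absurd h2.symm hb.ne'
      · rw [if_neg hu] at h2
        by_cases hw : w = 1
        · rw [if_pos hw] at h2
          exact absurd h2 ha.ne'
        · rw [if_neg hw] at h2
          rw [← h2] at h1
          exact Nat.pow_left_injective ha.ne' h1
    have h2le := two_le hs
    have h2le' := two_le hs'
    have g1 := root (by omega) (by omega) e1 f1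
    have g2 := root (by omega) (by omega) e2 f2
    have g3 : t.2.2 = t'.2.2 := by
      rw [← f3] at e3
      exact Nat.pow_left_injective (by omega) e3
    exact Prod.ext g1 (Prod.ext g2 g3)
  have h1 := Set.ncard_le_ncard_of_injOn F hmaps hinj (Finset.finite_toSet _)
  rw [Set.ncard_coe_finset, Finset.card_product, Finset.card_product, Finset.card_product,
    Finset.card_range, ← Set.ncard_eq_toFinset_card _ hfin] at h1
  calc (Bases R Y).ncard ≤ (Triples Y R).ncard * ((P + 1) * ((P + 1) * (P + 1))) := h1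
    _ = (Triples Y R).ncard * (P + 1) ^ 3 := by ring

/-- Unconditional count. -/
theorem count_large (ε : ℝ) (hε : 0 < ε) : ∃ (R : ℕ) (C : ℝ), 0 < C ∧ ∀ Y : ℕ, 1 ≤ Y →
    ((Bases R Y).ncard : ℝ) ≤ C * (Y : ℝ) ^ ε := by
  obtain ⟨C, κ, hC, hexp₀⟩ := Pool.Agent.Y902.FB.exp_bound_real
  have hexp : ∀ x y z p q r : ℕ, Solution x y z p q r →
      (2 ≤ x → (p : ℝ) ≤ C * Real.log ((max x (max y z) : ℕ) : ℝ) ^ κ) ∧
      (2 ≤ y → (q : ℝ) ≤ C * Real.log ((max x (max y z) : ℕ) : ℝ) ^ κ) ∧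
      (r : ℝ) ≤ C * Real.log ((max x (max y z) : ℕ) : ℝ) ^ κ := by
    intro x y z p q r hs
    have h2le := two_le hs
    obtain ⟨i1, i2, i3, i4, i5, i6, i7, i8, i9, i10, i11⟩ := hs
    exact hexp₀ x y z p q r i1 i2 i3 i4 i5 i6 h2le.1 h2le.2.1 h2le.2.2 i11
  obtain ⟨R, Y₀, hR⟩ := CountByBases.result (ε / 2) (by positivity)
  -- polylogarithmic factor
  have hlog : ∃ D : ℝ, 0 < D ∧ ∀ Y : ℕ, 1 ≤ Y →
      ((⌈C * Real.log (Y : ℝ) ^ κ⌉₊ + 1 : ℕ) : ℝ) ^ 3 ≤ D * (Y : ℝ) ^ (ε / 2) := by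
    obtain ⟨B, hB⟩ : ∃ B : ℝ, ∀ Y : ℕ, 1 ≤ Y → Real.log (Y : ℝ) ^ κ ≤ B * (Y : ℝ) ^ (ε / 6) := by
      rcases Nat.eq_zero_or_pos κ with h0 | h0
      · refine ⟨1, fun Y hY => ?_⟩
        rw [h0, pow_zero, one_mul]
        exact Real.one_le_rpow (by exact_mod_cast hY) (by positivity)
      · refine ⟨(1 / (ε / (6 * κ))) ^ κ, fun Y hY => ?_⟩
        have hκ : (0 : ℝ) < κ := by exact_mod_cast h0
        have hδ : 0 < ε / (6 * κ) := by positivity
        have hY0 : (0 : ℝ) ≤ Y := Nat.cast_nonneg Y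
        have h1 := Real.log_le_rpow_div hY0 hδ
        have h2 : Real.log (Y : ℝ) ^ κ ≤ ((Y : ℝ) ^ (ε / (6 * κ)) / (ε / (6 * κ))) ^ κ :=
          pow_le_pow_left₀ (Real.log_natCast_nonneg Y) h1 κ
        refine h2.trans (le_of_eq ?_)
        rw [div_pow, one_div, inv_pow, ← Real.rpow_natCast ((Y : ℝ) ^ (ε / (6 * κ))) κ,
          ← Real.rpow_mul hY0]
        have h3 : ε / (6 * κ) * κ = ε / 6 := by
          field_simp
        rw [h3]
        field_simp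
    have hB0 : 0 ≤ B := by
      have := hB 1 le_rfl
      simp only [Nat.cast_one, Real.log_one, Real.one_rpow, mul_one] at this
      exact (pow_nonneg le_rfl κ).trans this
    refine ⟨(C * B + 2) ^ 3, by positivity, fun Y hY => ?_⟩
    have hY1 : (1 : ℝ) ≤ Y := by exact_mod_cast hY
    have hYe : 1 ≤ (Y : ℝ) ^ (ε / 6) := Real.one_le_rpow hY1 (by positivity)
    have h1 : ((⌈C * Real.log (Y : ℝ) ^ κ⌉₊ + 1 : ℕ) : ℝ) ≤ (C * B + 2) * (Y : ℝ) ^ (ε / 6) := by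
      push_cast
      have h2 := Nat.ceil_lt_add_one (a := C * Real.log (Y : ℝ) ^ κ)
        (mul_nonneg hC.le (pow_nonneg (Real.log_natCast_nonneg Y) κ))
      have h3 := mul_le_mul_of_nonneg_left (hB Y hY) hC.le
      nlinarith
    calc ((⌈C * Real.log (Y : ℝ) ^ κ⌉₊ + 1 : ℕ) : ℝ) ^ 3 ≤
          ((C * B + 2) * (Y : ℝ) ^ (ε / 6)) ^ 3 := pow_le_pow_left₀ (Nat.cast_nonneg _) h1 3
      _ = (C * B + 2) ^ 3 * (Y : ℝ) ^ (ε / 2) := by
          rw [mul_pow, ← Real.rpow_natCast ((Y : ℝ) ^ (ε / 6)) 3, ← Real.rpow_mul (by positivity)]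
          congr 2
          push_cast
          ring
  obtain ⟨D, hD, hlog⟩ := hlog
  have hbig : ∀ Y : ℕ, 1 ≤ Y → Y₀ ≤ Y → ((Bases R Y).ncard : ℝ) ≤ D * (Y : ℝ) ^ ε := by
    intro Y hY hY0
    obtain ⟨hf, hc⟩ := hR Y hY0
    have h1 := count_le C κ hC hexp R Y hf ⌈C * Real.log (Y : ℝ) ^ κ⌉₊ (Nat.le_ceil _)
    have h2 : ((Bases R Y).ncard : ℝ) ≤
        ((Triples Y R).ncard : ℝ) * ((⌈C * Real.log (Y : ℝ) ^ κ⌉₊ + 1 : ℕ) : ℝ) ^ 3 := by
      exact_mod_cast h1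
    have hY1 : (0 : ℝ) < Y := by exact_mod_cast hY
    calc ((Bases R Y).ncard : ℝ) ≤
          ((Triples Y R).ncard : ℝ) * ((⌈C * Real.log (Y : ℝ) ^ κ⌉₊ + 1 : ℕ) : ℝ) ^ 3 := h2
      _ ≤ (Y : ℝ) ^ (ε / 2) * (D * (Y : ℝ) ^ (ε / 2)) :=
          mul_le_mul hc (hlog Y hY) (by positivity) (by positivity)
      _ = D * (Y : ℝ) ^ ε := by
          have : (Y : ℝ) ^ ε = (Y : ℝ) ^ (ε / 2) * (Y : ℝ) ^ (ε / 2) := by
            rw [← Real.rpow_add hY1]
            congr 1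
            ring
          rw [this]
          ring
  refine ⟨R, D * ((max Y₀ 1 : ℕ) : ℝ) ^ ε, by positivity, fun Y hY => ?_⟩
  have hY1 : (1 : ℝ) ≤ Y := by exact_mod_cast hY
  have hm1 : (1 : ℝ) ≤ ((max Y₀ 1 : ℕ) : ℝ) := by exact_mod_cast le_max_right Y₀ 1
  by_cases h : Y₀ ≤ Y
  · refine (hbig Y hY h).trans ?_
    have h1 : 1 ≤ ((max Y₀ 1 : ℕ) : ℝ) ^ ε := Real.one_le_rpow hm1 hε.le
    have h2 : 0 < (Y : ℝ) ^ ε := by positivity
    nlinarith [mul_pos hD h2]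
  · push Not at h
    have h1 : Y ≤ max Y₀ 1 := (h.le).trans (le_max_left _ _)
    have h2 : ((Bases R Y).ncard : ℝ) ≤ ((Bases R (max Y₀ 1)).ncard : ℝ) := by
      exact_mod_cast Set.ncard_le_ncard (bases_mono h1) (bases_finite _ _)
    have h3 := hbig (max Y₀ 1) (le_max_right _ _) (le_max_left _ _)
    have h4 : 1 ≤ (Y : ℝ) ^ ε := Real.one_le_rpow hY1 hε.le
    have h5 : 0 < D * ((max Y₀ 1 : ℕ) : ℝ) ^ ε := by positivity
    nlinarith

/-- With the theorem of Darmon and Granville the solutions with small exponents are finite. -/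
theorem small_finite (hDG : DarmonGranville) (R : ℕ) :
    {t : ℕ × ℕ × ℕ | ∃ p q r : ℕ, Solution t.1 t.2.1 t.2.2 p q r ∧ p < R ∧ q < R ∧ r < R}.Finite := by
  have h1 : {t : ℕ × ℕ × ℕ | ∃ p q r : ℕ, Solution t.1 t.2.1 t.2.2 p q r ∧
      p < R ∧ q < R ∧ r < R} ⊆
      ⋃ w ∈ ((Finset.range R ×ˢ Finset.range R ×ˢ Finset.range R : Finset (ℕ × ℕ × ℕ)) :
        Set (ℕ × ℕ × ℕ)),
        {t : ℕ × ℕ × ℕ | Solution t.1 t.2.1 t.2.2 w.1 w.2.1 w.2.2} := by
    rintro t ⟨p, q, r, hs, hpR, hqR, hrR⟩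
    rw [Set.mem_iUnion₂]
    refine ⟨(p, q, r), ?_, hs⟩
    simp only [Finset.coe_product, Set.mem_prod, Finset.coe_range, Set.mem_Iio]
    exact ⟨hpR, hqR, hrR⟩
  refine Set.Finite.subset (Set.Finite.biUnion (Finset.finite_toSet _) fun w _ => ?_) h1
  by_cases hw : 0 < w.1 ∧ 0 < w.2.1 ∧ 0 < w.2.2 ∧ (1 : ℚ) / w.1 + 1 / w.2.1 + 1 / w.2.2 < 1
  · refine (hDG w.1 w.2.1 w.2.2 hw.1 hw.2.1 hw.2.2.1 hw.2.2.2).subset ?_
    rintro t ⟨i1, i2, i3, i4, i5, i6, i7, i8, i9, i10, i11⟩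
    exact ⟨i1, i2, i3, i4, i5, i6, i11⟩
  · refine Set.finite_empty.subset ?_
    rintro t ⟨i1, i2, i3, i4, i5, i6, i7, i8, i9, i10, i11⟩
    exact absurd ⟨i7, i8, i9, i10⟩ hw

theorem count_all (hDG : DarmonGranville) (ε : ℝ) (hε : 0 < ε) : ∃ C : ℝ, 0 < C ∧
    ∀ Y : ℕ, 1 ≤ Y → ((Bases 0 Y).ncard : ℝ) ≤ C * (Y : ℝ) ^ ε := by
  obtain ⟨R, C, hC, h⟩ := count_large ε hε
  have hfin := small_finite hDG R
  set S := {t : ℕ × ℕ × ℕ | ∃ p q r : ℕ, Solution t.1 t.2.1 t.2.2 p q r ∧ p < R ∧ q < R ∧ r < R}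
    with hS
  refine ⟨C + S.ncard, by positivity, fun Y hY => ?_⟩
  have hsub : Bases 0 Y ⊆ Bases R Y ∪ S := by
    rintro t ⟨⟨p, q, r, hs, -⟩, ht⟩
    by_cases hR : R ≤ p ∨ R ≤ q ∨ R ≤ r
    · exact Or.inl ⟨⟨p, q, r, hs, hR⟩, ht⟩
    · push Not at hR
      exact Or.inr ⟨p, q, r, hs, hR⟩
  have h1 : (Bases 0 Y).ncard ≤ (Bases R Y).ncard + S.ncard :=
    (Set.ncard_le_ncard hsub ((bases_finite _ _).union hfin)).trans (Set.ncard_union_le _ _)
  have h2 : ((Bases 0 Y).ncard : ℝ) ≤ ((Bases R Y).ncard : ℝ) + S.ncard := by exact_mod_cast h1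
  have h3 : 1 ≤ (Y : ℝ) ^ ε := Real.one_le_rpow (by exact_mod_cast hY) hε.le
  have h4 : (0 : ℝ) ≤ S.ncard := Nat.cast_nonneg _
  have h5 := h Y hY
  nlinarith

/-! ### Windows -/

/-- the largest bases of the solutions with an exponent `≥ R` -/
def Tops (R : ℕ) : Set ℕ := {m | ∃ t : ℕ × ℕ × ℕ, IsBases R t ∧ m = top t}

open Classical in
theorem card_tops (R X : ℕ) :
    ((Finset.Ioc 0 X).filter (fun m => m ∈ Tops R)).card ≤ (Bases R X).ncard := by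
  have hsub : (((Finset.Ioc 0 X).filter (fun m => m ∈ Tops R) : Finset ℕ) : Set ℕ) ⊆
      top '' (Bases R X) := by
    intro m hm
    rw [Finset.mem_coe, Finset.mem_filter, Finset.mem_Ioc] at hm
    obtain ⟨⟨-, hX⟩, t, ht, rfl⟩ := hm
    exact ⟨t, ⟨ht, hX⟩, rfl⟩
  have h1 := Set.ncard_le_ncard hsub ((bases_finite R X).image _)
  rw [Set.ncard_coe_finset] at h1
  exact h1.trans (Set.ncard_image_le (bases_finite R X))

theorem inter_dim {τ θ : ℝ} (G : ℕ → Set ℝ)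
    (hG : ∀ m : ℕ, dimH (G m) ≤ ENNReal.ofReal ((1 / ((m : ℝ) + 1) + τ) / (1 - θ))) :
    dimH (⋂ m, G m) ≤ ENNReal.ofReal (τ / (1 - θ)) := by
  have hlim : Tendsto (fun m : ℕ => ENNReal.ofReal ((1 / ((m : ℝ) + 1) + τ) / (1 - θ))) atTop
      (𝓝 (ENNReal.ofReal ((0 + τ) / (1 - θ)))) :=
    ENNReal.tendsto_ofReal ((tendsto_one_div_add_atTop_nhds_zero_nat.add_const τ).div_const (1 - θ))
  rw [zero_add] at hlim
  exact ge_of_tendsto' hlim fun m => (dimH_mono (Set.iInter_subset _ m)).trans (hG m)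

theorem windows_large {v : ℕ → ℝ} {τ θ : ℝ} (hv : ∀ k, 1 ≤ v k) (hτ : 0 ≤ τ) (hE : ExpLe v τ)
    (hθ : θ < 1) : ∃ E : Set ℝ, dimH E ≤ ENNReal.ofReal (τ / (1 - θ)) ∧
      ∀ α : ℝ, 0 < α → α ∉ E → ∃ R k₀ : ℕ, ∀ k : ℕ, k₀ ≤ k → ∀ x y z p q r : ℕ,
        Solution x y z p q r → (R ≤ p ∨ R ≤ q ∨ R ≤ r) →
          (v k) ^ θ < |((max x (max y z) : ℕ) : ℝ) - α * v k| := by
  classical
  have hall : ∀ j : ℕ, ∃ (R : ℕ) (E : Set ℝ),
      dimH E ≤ ENNReal.ofReal ((1 / ((j : ℝ) + 1) + τ) / (1 - θ)) ∧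
      ∀ α : ℝ, 0 < α → α ∉ E → ∃ k₀ : ℕ, ∀ k : ℕ, k₀ ≤ k → ∀ m : ℕ,
        |(m : ℝ) - α * v k| ≤ (v k) ^ θ → 0 < m ∧ m ∉ Tops R := by
    intro j
    obtain ⟨R, C, hC, h⟩ := count_large (1 / ((j : ℝ) + 1)) (by positivity)
    obtain ⟨E, h3, h4⟩ := Pool.Agent.Y854.GM.win_nat (Tops R) hv hτ hE
      (s := 1 / ((j : ℝ) + 1)) (by positivity) hθ (fun ε hε => by
        refine ⟨C, fun X hX => ?_⟩
        have hX1 : (1 : ℝ) ≤ X := by exact_mod_cast hX
        have h9 : (((Finset.Ioc 0 X).filter (fun t => t ∈ Tops R)).card : ℝ) ≤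
            ((Bases R X).ncard : ℝ) := by exact_mod_cast card_tops R X
        refine h9.trans ((h X hX).trans ?_)
        apply mul_le_mul_of_nonneg_left _ hC.le
        apply Real.rpow_le_rpow_of_exponent_le hX1
        linarith)
    exact ⟨R, E, h3, h4⟩
  choose R G hG1 hG2 using hall
  refine ⟨⋂ m, G m, inter_dim G hG1, fun α hα hαE => ?_⟩
  rw [Set.mem_iInter] at hαE
  push Not at hαE
  obtain ⟨j, hj⟩ := hαE
  obtain ⟨k₀, hk⟩ := hG2 j α hα hj
  refine ⟨R j, k₀, fun k hk1 x y z p q r hs hR => ?_⟩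
  by_contra hcon
  push Not at hcon
  exact (hk k hk1 _ hcon).2 ⟨(x, y, z), ⟨p, q, r, hs, hR⟩, rfl⟩

theorem windows_all (hDG : DarmonGranville) {v : ℕ → ℝ} {τ θ : ℝ} (hv : ∀ k, 1 ≤ v k)
    (hτ : 0 ≤ τ) (hE : ExpLe v τ) (hθ : θ < 1) :
    ∃ E : Set ℝ, dimH E ≤ ENNReal.ofReal (τ / (1 - θ)) ∧
      ∀ α : ℝ, 0 < α → α ∉ E → ∃ k₀ : ℕ, ∀ k : ℕ, k₀ ≤ k → ∀ x y z p q r : ℕ,
        Solution x y z p q r → (v k) ^ θ < |((max x (max y z) : ℕ) : ℝ) - α * v k| := by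
  classical
  obtain ⟨E, h3, h4⟩ := Pool.Agent.Y854.GM.win_nat (Tops 0) hv hτ hE
    (s := 0) le_rfl hθ (fun ε hε => by
      obtain ⟨C, hC, h⟩ := count_all hDG ε hε
      refine ⟨C, fun X hX => ?_⟩
      have h9 : (((Finset.Ioc 0 X).filter (fun t => t ∈ Tops 0)).card : ℝ) ≤
          ((Bases 0 X).ncard : ℝ) := by exact_mod_cast card_tops 0 X
      rw [zero_add]
      exact h9.trans (h X hX))
  rw [zero_add] at h3
  refine ⟨E, h3, fun α hα hαE => ?_⟩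
  obtain ⟨k₀, hk⟩ := h4 α hα hαE
  refine ⟨k₀, fun k hk1 x y z p q r hs => ?_⟩
  by_contra hcon
  push Not at hcon
  exact (hk k hk1 _ hcon).2 ⟨(x, y, z), ⟨p, q, r, hs, Or.inl (Nat.zero_le _)⟩, rfl⟩

/-- **Theorem.** Unconditionally: (1) for every `ε > 0` there are `R` and `C` such that at most
`C Y ^ ε` triples of bases `(x, y, z)` with `x, y, z ≤ Y` belong to solutions with an exponent `≥ R`;
(2) if `v ≥ 1` has exponent of convergence at most `τ` and `θ < 1`, then for all `α > 0` outside a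
set of Hausdorff dimension at most `τ / (1 - θ)` there is `R` such that for all but finitely many `k`
no solution with an exponent `≥ R` has its largest base in `[α v_k - v_k ^ θ, α v_k + v_k ^ θ]`.
With the published theorem of Darmon and Granville (finitely many solutions for each signature):
(3) at most `C Y ^ ε` triples of bases with `x, y, z ≤ Y` belong to any solution; (4) the windows in
(2) contain the largest base of no solution at all. (5) The sequences `(k + 1) ^ b` and `b ^ k` have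
exponents of convergence at most `1 / b` and `0`. -/
theorem result :
    (∀ ε : ℝ, 0 < ε → ∃ (R : ℕ) (C : ℝ), ∀ Y : ℕ, 1 ≤ Y →
      (Bases R Y).Finite ∧ ((Bases R Y).ncard : ℝ) ≤ C * (Y : ℝ) ^ ε) ∧
    (∀ (v : ℕ → ℝ) (τ θ : ℝ), (∀ k, 1 ≤ v k) → 0 ≤ τ → ExpLe v τ → θ < 1 →
      ∃ E : Set ℝ, dimH E ≤ ENNReal.ofReal (τ / (1 - θ)) ∧
        ∀ α : ℝ, 0 < α → α ∉ E → ∃ R k₀ : ℕ, ∀ k : ℕ, k₀ ≤ k → ∀ x y z p q r : ℕ,
          Solution x y z p q r → (R ≤ p ∨ R ≤ q ∨ R ≤ r) →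
            (v k) ^ θ < |((max x (max y z) : ℕ) : ℝ) - α * v k|) ∧
    (DarmonGranville →
      (∀ ε : ℝ, 0 < ε → ∃ C : ℝ, ∀ Y : ℕ, 1 ≤ Y →
        (Bases 0 Y).Finite ∧ ((Bases 0 Y).ncard : ℝ) ≤ C * (Y : ℝ) ^ ε) ∧
      (∀ (v : ℕ → ℝ) (τ θ : ℝ), (∀ k, 1 ≤ v k) → 0 ≤ τ → ExpLe v τ → θ < 1 →
        ∃ E : Set ℝ, dimH E ≤ ENNReal.ofReal (τ / (1 - θ)) ∧
          ∀ α : ℝ, 0 < α → α ∉ E → ∃ k₀ : ℕ, ∀ k : ℕ, k₀ ≤ k → ∀ x y z p q r : ℕ,
            Solution x y z p q r → (v k) ^ θ < |((max x (max y z) : ℕ) : ℝ) - α * v k|)) ∧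
    (∀ b : ℝ, 0 < b → ExpLe (fun n : ℕ => ((n : ℝ) + 1) ^ b) (1 / b)) ∧
    (∀ b : ℝ, 1 < b → ExpLe (fun n : ℕ => b ^ n) 0) := by
  refine ⟨fun ε hε => ?_, fun v τ θ hv hτ hE hθ => windows_large hv hτ hE hθ,
    fun hDG => ⟨fun ε hε => ?_, fun v τ θ hv hτ hE hθ => windows_all hDG hv hτ hE hθ⟩,
    fun b hb => Pool.Agent.Y854.GM.expLe_pow b hb, fun b hb => Pool.Agent.Y854.GM.expLe_geom b hb⟩
  · obtain ⟨R, C, -, h⟩ := count_large ε hε
    exact ⟨R, C, fun Y hY => ⟨bases_finite R Y, h Y hY⟩⟩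
  · obtain ⟨C, -, h⟩ := count_all hDG ε hε
    exact ⟨C, fun Y hY => ⟨bases_finite 0 Y, h Y hY⟩⟩

end Pool.Agent.Results.MP_2738db_nt.AllBasesSparse
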