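import Pool.Agent.Q194.Circ.Main

/-!
# The maximum on the circle of a normalised weighted product of distances is at least two

Full (positive) answer to Q1 of MP_280d4a_an.

Proof. After merging equal points let `q = p / r`, a probability measure with at most `r` atoms `s`.
Let `Q(z) = ∑ q_s (1 + z s̄) / (1 - z s̄) = N / P` with `P = ∏ (1 - z s̄)`. All zeros `w` of `N` are simple and
lie on the circle, and `P / N` is the Herglotz function of a probability measure `λ` on them. With
`A = (P + N) / 2 = ∏ (1 - z ā)`, `|a| < 1`, and `c = 1 / m` the functions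
`f = ∑ q_s s̄/(1 - z s̄) - c (∑ s̄/(1 - z s̄) - ∑ ā/(1 - z ā))` and `g` (the same with `w`, `λ`) satisfy
`f = - Q g`, so `Re (f ḡ) ≤ 0` in the disc. Averaging over the circles `|z| = t` and integrating
over `t` gives `∑ q_s λ_w log |w - s| ≥ (log 2) / m`, so some `w` does it.
-/

set_option autoImplicit false

namespace Pool.Agent.Results.MP_280d4a_an.MaxAtLeastTwo

/-- For every `r ≥ 1`, all points `z_1, ..., z_r` on the unit circle and all weights `p_j ≥ 0` with
`p_1 + ... + p_r = r` there is a point `w` on the unit circle with `∏ |w - z_j| ^ p_j ≥ 2`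
(real powers, `0 ^ 0 = 1`). -/
theorem result (r : ℕ) (hr : 1 ≤ r) (z : Fin r → ℂ) (hz : ∀ j, ‖z j‖ = 1) (p : Fin r → ℝ)
    (hp : ∀ j, 0 ≤ p j) (hsum : ∑ j, p j = r) :
    ∃ w : ℂ, ‖w‖ = 1 ∧ 2 ≤ ∏ j, ‖w - z j‖ ^ p j :=
  Pool.Agent.Q194.Circ.main_thm r hr z hz p hp hsum

end Pool.Agent.Results.MP_280d4a_an.MaxAtLeastTwo
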