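import Pool.Agent.Q163.AC.Upper
import Pool.Agent.Q163.AC.Lower

/-!
# Diagonal Ramsey numbers of colourings computed by finite automata

The vertices are the `N = b ^ n` words of length `n` over an alphabet `A` with `b ≥ 2` letters, in
any linear order (given by an injective numbering `ν`). A colouring `c` of the pairs of vertices,
with any set of colours, is computed by an automaton with `s` states (`Computed`) if the colour of
the pair `x`, `y`, `x` before `y`, is a function of the last state of a finite automaton which reads
the two words simultaneously, letter by letter (`act`).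

(1) Every such colouring has a homogeneous set of `2 ^ m` vertices as soon as
`n ≥ 8 (s!)² (s ^ s + 1) s² (m + 1)`. So for given `b` and `s` the diagonal Ramsey number of these
colourings is at most a polynomial in `k`: homogeneous sets of size `N ^ c`, `c = c(b, s) > 0`.
(2) The exponent of the polynomial is unbounded even for three states and two colours: for `b = 2 ^ t`
there is a two-colouring (symmetric, so that the order of the vertices does not matter) computed by
an automaton with three states such that all homogeneous sets have at most `(2 t) ^ n` elements. So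
the Ramsey number is more than `k ^ (t / log₂ (2 t))` for `k = (2 t) ^ n + 1`, roughly.

Outline of (1). Two words `u ≠ v` of length `s²` act in the same way on the states if they are read
together with themselves. Among the maps given by pairs of words composed of `u` and `v` choose one of
minimal rank; it gives two longer words `U ≠ V` such that the pairs `(U, V)` and `(V, U)` act with
minimal rank and `(U, U)`, `(V, V)` act by the same idempotent. For a word `w` in the letters `U`, `V`
consider the `s!`-th power of the palindrome `U w w^R U`. Two different such words agree up to a pair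
`(U, V)` (or `(V, U)`) and after the mirror image of this pair. So all the pairs of palindromes
act by maps with the same image and the same kernel, on which they are permutations, and the `s!`-th
powers of these maps are equal. The theorem of Erdős and Szekeres selects `2 ^ m` of the `2 ^ (2 m)`
words whose order is the lexicographic order or its reverse.
-/

set_option autoImplicit false

namespace Pool.Agent.Results.MP_28724c_co.FiniteAutomata

open Pool.Agent.Q163.AC

/-- The colouring `c` of the pairs `x`, `y` of words of length `n`, `x` before `y` in the order given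
by the numbering `ν`, is computed by an automaton with at most `s` states: it starts in the state
`q₀`, the state `q` becomes `δ a b q` when the next letters of `x` and `y` are `a` and `b`, and the
colour is `out` of the last state. -/
def Computed {A κ : Type} {n : ℕ} (s : ℕ) (ν : (Fin n → A) → ℕ)
    (c : (Fin n → A) → (Fin n → A) → κ) : Prop :=
  ∃ (Q : Type) (_ : Fintype Q) (δ : A → A → Q → Q) (q₀ : Q) (out : Q → κ), Fintype.card Q ≤ s ∧
    ∀ x y : Fin n → A, ν x < ν y → c x y = out (act δ (List.ofFn x) (List.ofFn y) q₀)

theorem result :
    (∀ (s m n : ℕ) (A κ : Type) [Fintype A] (ν : (Fin n → A) → ℕ)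
      (c : (Fin n → A) → (Fin n → A) → κ), 2 ≤ Fintype.card A → Function.Injective ν →
      Computed s ν c → 8 * s.factorial ^ 2 * (s ^ s + 1) * s ^ 2 * (m + 1) ≤ n →
      ∃ S : Finset (Fin n → A), S.card = 2 ^ m ∧
        ∃ k : κ, ∀ x ∈ S, ∀ y ∈ S, ν x < ν y → c x y = k) ∧
    (∀ t n : ℕ, 1 ≤ t → ∃ c : (Fin n → Fin (2 ^ t)) → (Fin n → Fin (2 ^ t)) → Bool,
      (∀ x y, c x y = c y x) ∧ (∀ ν : (Fin n → Fin (2 ^ t)) → ℕ, Computed 3 ν c) ∧
      ∀ (S : Finset (Fin n → Fin (2 ^ t))) (k : Bool),
        (∀ x ∈ S, ∀ y ∈ S, x ≠ y → c x y = k) → S.card ≤ (2 * t) ^ n) := by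
  classical
  refine ⟨?_, ?_⟩
  · intro s m n A κ _ ν c hA hν hc hn
    obtain ⟨Q, _, δ, q₀, out, hs, hcol⟩ := hc
    obtain ⟨a₀, a₁, ha⟩ := Fintype.one_lt_card_iff.1 (show 1 < Fintype.card A by omega)
    obtain ⟨S, hS, q, hq⟩ := upper ha hs hn ν hν δ q₀
    exact ⟨S, hS, out q, fun x hx y hy hxy => by rw [hcol x y hxy, hq x hx y hy hxy]⟩
  · intro t n ht
    obtain ⟨δ, q₀, out, h1, h2⟩ := lower t n ht
    exact ⟨fun x y => out (act δ (List.ofFn x) (List.ofFn y) q₀), h1,
      fun ν => ⟨Fin 3, inferInstance, δ, q₀, out, by simp, fun x y _ => rfl⟩, h2⟩

end Pool.Agent.Results.MP_28724c_co.FiniteAutomata
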