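import Mathlib
import Pool.Agent.Q219.NC.Main
import Pool.Agent.Q219.NW.Count
import Pool.Agent.Q138.PS.VSD
import Pool.Agent.Q138.PS.VSE

/-!
# The noncommutative conjecture D for `perf(A) ⊗ 𝒜`, with `A` near almost every real shape, without exceptions

Fix dimensions `g i ≥ 1`. A real shape `α` consists of real numbers `α (i, t)`, `t < g i`; it stands for the real
polynomials `x ^ (g i) + ∑ α (i, t) x ^ t`. Let `q = p ^ a`. The Frobenius polynomial of an abelian variety of dimension
`g` over the field with `q` elements is `x ^ g * h (x + q / x)` with `h` monic and integral of degree `g`, and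
`h (√q x) / √q ^ g` has bounded coefficients. If the slopes are `s 0 ≤ s 1 ≤ …` and `1 - s 0, …`, the coefficient of `h` at
`x ^ t` is divisible by `p ^ E`, `E = ⌈a (s 0 + … + s (g - t - 1))⌉`. `ShapeNear` says that the coefficients of `h i` are at
distance at most `q ^ η * p ^ E` from the ones of the shape, `α (i, t) * √q ^ (g i - t)`, for all `i`.

The theorem: let `α` be a real shape outside of a set of measure zero. Then for ALL primes `p`, all families `s` of
non-supersingular symmetric Newton polygons (smallest slopes at most `σ < 1 / 2`), all number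
fields `E` in `ℂ` and all `r` smaller than the `g i` and all
`η < (1 - 2 σ) / (6 ∑ g i)` there is no exception near `α` for large `a`: every family of isogeny classes in the Newton
stratum over the field with `p ^ a` elements which is near `α` has the property `Holds`. `Holds` is the reduction of the
noncommutative conjecture D for `perf(A) ⊗ 𝒜` to the one for `𝒜` of `NewtonStrataFactors` (the same text).

The second part: for the shapes of a nonempty open set the number of families in the stratum which are near the shape is at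
least `(q ^ η / p) ^ (∑ g i)` for large `a`, so that the first part is not vacuous.
-/

set_option autoImplicit false

namespace Pool.Agent.Results.MP_28af06_ag.AlmostEveryRealShape

open Polynomial Filter MeasureTheory Pool.Agent.Q219.NS Pool.Agent.Q219.NW Pool.Agent.Q219.NC Pool.Agent.Q138.PS

/-- The theorem for the family of isogeny classes over the field with `q` elements with the
Frobenius polynomials `F i`, of dimension `g i` and slopes `s i j`: the reduction of the noncommutative
conjecture D for `perf(A) ⊗ 𝒜` to the one for `𝒜`, for all summands `𝒜` of varieties `Z` whose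
Frobenius eigenvalues have rank at most `r` over `E` or width smaller than `2 * P`, where `P` is at
most the `devSum (s i)`. -/
def Holds {κ : Type} (g : κ → ℕ) (s : ∀ i, Fin (g i) → ℚ) (E : IntermediateField ℚ ℂ) (r q : ℕ)
    (F : κ → ℤ[X]) : Prop :=
  ∀ P : ℝ, (∀ i, P ≤ devSum (s i)) → NCHomTimes E r P q F

/-- **The noncommutative conjecture D for `perf(A) ⊗ 𝒜` is equivalent to the one for `𝒜`, for the
abelian varieties `A` near almost every real shape.** -/
theorem result {κ : Type} [Fintype κ] [Nonempty κ] (g : κ → ℕ) (hg : ∀ i, 1 ≤ g i) :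
    (∀ᵐ α : (Σ i, Fin (g i)) → ℝ, ∀ (p : ℕ) [Fact p.Prime] (s : ∀ i, Fin (g i) → ℚ), (∀ i, IsPolygon (s i)) →
      ∀ σ : ℚ, (∀ i (h : 0 < g i), s i ⟨0, h⟩ ≤ σ) → σ < 1 / 2 → ∀ η : ℝ, η * (6 * ∑ i, (g i : ℝ)) < 1 - 2 * σ →
      ∀ (E : IntermediateField ℚ ℂ) [FiniteDimensional ℚ E] (r : ℕ), (∀ i, r < g i) →
      ∀ᶠ a : ℕ in atTop, ∀ F ∈ NewtonStratum g s p a, ShapeNear g s p a η α F → Holds g s E r (p ^ a) F) ∧
    ∃ Ω : Set ((Σ i, Fin (g i)) → ℝ), IsOpen Ω ∧ Ω.Nonempty ∧ ∀ α ∈ Ω, ∀ (p : ℕ) [Fact p.Prime]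
      (s : ∀ i, Fin (g i) → ℚ), (∀ i, IsPolygon (s i)) → ∀ σ : ℚ, (∀ i (h : 0 < g i), s i ⟨0, h⟩ ≤ σ) → σ < 1 / 2 →
      ∀ η : ℝ, 0 < η → η * (6 * ∑ i, (g i : ℝ)) < 1 - 2 * σ →
      ∀ᶠ a : ℕ in atTop, {F ∈ NewtonStratum g s p a | ShapeNear g s p a η α F}.Finite ∧
        (((p ^ a : ℕ) : ℝ) ^ η / p) ^ (∑ i, g i) ≤
          ({F ∈ NewtonStratum g s p a | ShapeNear g s p a η α F}.ncard : ℝ) := by
  classical
  have := countF
  obtain ⟨h1, h2⟩ := all_strata (ι := {K : IntermediateField ℚ ℂ // FiniteDimensional ℚ K} × ℕ) g hg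
    (fun p _ s e a F => (∀ i, e.2 < g i) → Holds g s e.1.1 e.2 (p ^ a) F) (by
    rintro p _ s hs σ hσ hσ2 ⟨⟨E, hE⟩, r⟩
    by_cases hr : ∀ i, r < g i
    · obtain ⟨-, C, hC, h2⟩ := count_slopes g s p E hg hs σ hσ hσ2
      refine ⟨C, hC, fun a ha => h2 a ha _ fun f hm hd hf habs hdev _ P hP => ?_⟩
      have hp : p.Prime := Fact.out
      exact ncHomTimes E r P (Nat.one_lt_pow ha.ne' hp.one_lt) fun s' hs' =>
        noRelAt_good E p a ha rfl r hm (fun i => by rw [hd i]; exact hr i) hf habs _ hdev P hP s' hs'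
    · refine ⟨1, one_pos, fun a ha => ?_⟩
      have h0 : {F ∈ NewtonStratum g s p a | ¬ ((∀ i, r < g i) → Holds g s E r (p ^ a) F)} = ∅ := by
        ext F
        simp [hr]
      show (({F ∈ NewtonStratum g s p a | ¬ ((∀ i, r < g i) → Holds g s E r (p ^ a) F)}).ncard : ℝ) ≤ _
      rw [h0, Set.ncard_empty, Nat.cast_zero]
      positivity)
  refine ⟨?_, h2⟩
  filter_upwards [h1] with α hα
  intro p _ s hs σ hσ hσ2 η hη E hE r hr
  filter_upwards [hα p s hs σ hσ hσ2 η hη (⟨E, hE⟩, r)] with a ha
  intro F hF hN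
  exact ha F hF hN hr

end Pool.Agent.Results.MP_28af06_ag.AlmostEveryRealShape
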