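import Pool.Agent.Q212.DZ3
import Pool.Agent.Q212.DZ4

/-!
# The integers are existentially definable from sets of quasi-integers of positive density
-/

set_option autoImplicit false

namespace Pool.Agent.Results.MP_28f2cb_lc.PositiveDensity

open MvPolynomial

/-- The set of all rational numbers which are integers. -/
def Integers : Set ℚ := {x | ∃ z : ℤ, x = z}

/-- `X` is existentially definable in `ℚ`. -/
def ExistentiallyDefinable (X : Set ℚ) : Prop :=
  ∃ (n : ℕ) (P : MvPolynomial (Fin (n + 1)) ℤ), ∀ q : ℚ, q ∈ X ↔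
    ∃ y : Fin n → ℚ, aeval (Fin.cons q y : Fin (n + 1) → ℚ) P = 0

/-- `X` is existentially definable in `(ℚ, T)`, uniformly for all `T` in the class `𝒯`: one
polynomial `P` with integer coefficients and one finite set `S` of variables, which have to be in
`T`, work for all `T` in the class. -/
def DefinableFrom (𝒯 : Set ℚ → Prop) (X : Set ℚ) : Prop :=
  ∃ (n : ℕ) (P : MvPolynomial (Fin (n + 1)) ℤ) (S : Finset (Fin (n + 1))),
    ∀ T : Set ℚ, 𝒯 T → ∀ q : ℚ, q ∈ X ↔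
      ∃ y : Fin (n + 1) → ℚ, y 0 = q ∧ aeval y P = 0 ∧ ∀ s ∈ S, y s ∈ T

/-- The denominators of the elements `x` of `T` are at most
`exp (A (1 + log max(1, |x|)) ^ δ)`. -/
def Quasi (A δ : ℝ) (T : Set ℚ) : Prop :=
  ∀ x ∈ T, Real.log x.den ≤ A * (1 + Real.log (max 1 |(x : ℝ)|)) ^ δ

/-- For all `N ≥ N₀` at least `ε N` integers of absolute value at most `N` are in `T`. -/
def DenseIntegers (ε : ℝ) (N₀ : ℕ) (T : Set ℚ) : Prop :=
  ∀ N : ℕ, N₀ ≤ N → ε * N ≤ {z : ℤ | |z| ≤ N ∧ (z : ℚ) ∈ T}.ncard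

/-- For all `N ≥ N₀` at least a proportion `ε` of the primes up to `N` is in `T`. -/
def DensePrimes (ε : ℝ) (N₀ : ℕ) (T : Set ℚ) : Prop :=
  ∀ N : ℕ, N₀ ≤ N → ε * {p : ℕ | p ≤ N ∧ p.Prime}.ncard ≤
    {p : ℕ | p ≤ N ∧ p.Prime ∧ (p : ℚ) ∈ T}.ncard

/-- A set of integers has positive upper Banach density. -/
def PositiveUpperBanachDensity (T : Set ℤ) : Prop :=
  ∃ ε : ℝ, 0 < ε ∧ ∀ L : ℕ, ∃ (a : ℤ) (n : ℕ), L ≤ n ∧
    ε * n ≤ {z : ℤ | z ∈ T ∧ a < z ∧ z ≤ a + n}.ncard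

open Pool.Agent.Q212.DZ Pool.Agent.TH255.QI Pool.Agent.TH255.HC

lemma primes_card (N : ℕ) : {p : ℕ | p ≤ N ∧ p.Prime}.ncard = Nat.primeCounting N := by
  rw [Nat.primeCounting, Nat.primeCounting', Nat.count_eq_card_filter_range,
    ← Set.ncard_coe_finset]
  congr 1
  ext p
  simp

lemma primes_card' (T : Set ℚ) (N : ℕ) :
    {p : ℕ | p ≤ N ∧ p.Prime ∧ (p : ℚ) ∈ T}.ncard = (pr T N).card := by
  rw [← Set.ncard_coe_finset]
  congr 1
  ext p
  rw [Finset.mem_coe, mem_pr]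
  rfl

/-- the general form -/
theorem dt_gen {A δ : ℝ} {m K C : ℕ} (hδ : δ < 1 / 2) (hK : 0 < K) (hC : 0 < C)
    {𝒯 : Set ℚ → Prop} (h1 : ∀ T, 𝒯 T → Quasi A δ T)
    (h2 : ∀ T, 𝒯 T → ∀ z : ℤ, (z : ℚ) ∈ Phi m K C T) {Q : ℚ → Prop}
    (hQ : ∀ A' δ' : ℝ, δ' < 1 / 2 → DT (Qu A' δ') (fun _ v => Q (v 0))) :
    DT 𝒯 (fun _ v => Q (v 0)) := by
  obtain ⟨A', hA'⟩ := qi_phi (A := A) (δ := δ) m hK hC
  refine dt_subst (𝒯' := Qu A' (max δ 0)) (Φ := Phi m K C) (fun T hT => ⟨h2 T hT, ?_⟩)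
    (dt_phi m K C) (hQ A' (max δ 0) (max_lt hδ (by norm_num)))
  exact hA' T (h1 T hT)

theorem dt_dense {A δ ε : ℝ} (hδ : δ < 1 / 2) (hε : 0 < ε) (N₀ : ℕ) {Q : ℚ → Prop}
    (hQ : ∀ A' δ' : ℝ, δ' < 1 / 2 → DT (Qu A' δ') (fun _ v => Q (v 0))) :
    DT (fun T => Quasi A δ T ∧ DenseIntegers ε N₀ T) (fun _ v => Q (v 0)) := by
  obtain ⟨m, K, C, hK, hC, h⟩ := int_mem_phi hε N₀
  exact dt_gen hδ hK hC (fun T hT => hT.1) (fun T hT => h T hT.2) hQ

theorem dt_prime {A δ ε : ℝ} (hδ : δ < 1 / 2) (hε : 0 < ε) (N₀ : ℕ) {Q : ℚ → Prop}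
    (hQ : ∀ A' δ' : ℝ, δ' < 1 / 2 → DT (Qu A' δ') (fun _ v => Q (v 0))) :
    DT (fun T => Quasi A δ T ∧ DensePrimes ε N₀ T) (fun _ v => Q (v 0)) := by
  obtain ⟨m, K, C, hK, hC, h⟩ := prime_mem_phi hε N₀
  refine dt_gen hδ hK hC (fun T hT => hT.1) (fun T hT => h T fun N hN => ?_) hQ
  have h3 := hT.2 N hN
  rwa [primes_card, primes_card'] at h3

theorem definable_of_dt {𝒯 : Set ℚ → Prop} {X : Set ℚ} (h : DT 𝒯 (fun _ v => v 0 ∈ X)) :
    DefinableFrom 𝒯 X := DT.final (Q := fun x => x ∈ X) h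

/-- (1) For all real `A`, `δ < 1/2`, `ε > 0` and all `N₀`, the set of integers and every
recursively enumerable set of natural numbers are existentially definable, by formulas which do
not depend on `T`, from every set `T` of rational numbers with the denominator bound `Quasi A δ T`
which contains, for all `N ≥ N₀`, at least `ε N` integers of absolute value at most `N` or,
respectively, at least a proportion `ε` of the primes up to `N`.
(2) If some set `T` with the denominator bound for some `δ < 1/2` which contains a positive lower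
proportion of the integers or of the primes is existentially definable in `ℚ`, so is the set of
integers.
(3) If some set of integers of positive upper Banach density is existentially definable in `ℚ`,
so is the set of integers.
(4) If some infinite set `T` of rational numbers with only finitely many elements in each bounded
interval, with `T - T ⊆ T + F` for a finite set `F`, is existentially definable in `ℚ`, so is the
set of integers. -/
theorem result :
    (∀ (A δ ε : ℝ) (N₀ : ℕ), δ < 1 / 2 → 0 < ε →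
      (DefinableFrom (fun T => Quasi A δ T ∧ DenseIntegers ε N₀ T) Integers ∧
        DefinableFrom (fun T => Quasi A δ T ∧ DensePrimes ε N₀ T) Integers) ∧
      ∀ W : ℕ → Prop, REPred W →
        DefinableFrom (fun T => Quasi A δ T ∧ DenseIntegers ε N₀ T) {x | ∃ a : ℕ, x = a ∧ W a} ∧
        DefinableFrom (fun T => Quasi A δ T ∧ DensePrimes ε N₀ T) {x | ∃ a : ℕ, x = a ∧ W a}) ∧
    (∀ (A δ ε : ℝ) (N₀ : ℕ), δ < 1 / 2 → 0 < ε → ∀ T : Set ℚ, ExistentiallyDefinable T →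
      Quasi A δ T → (DenseIntegers ε N₀ T ∨ DensePrimes ε N₀ T) →
        ExistentiallyDefinable Integers) ∧
    (∀ T : Set ℤ, ExistentiallyDefinable ((fun z : ℤ => (z : ℚ)) '' T) →
      PositiveUpperBanachDensity T → ExistentiallyDefinable Integers) ∧
    (∀ T F : Set ℚ, ExistentiallyDefinable T → T.Infinite →
      (∀ B : ℚ, {t ∈ T | |t| ≤ B}.Finite) → F.Finite →
      (∀ a ∈ T, ∀ b ∈ T, ∃ t ∈ T, ∃ f ∈ F, a - b = t + f) →
        ExistentiallyDefinable Integers) := by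
  have hI : ∀ A' δ' : ℝ, δ' < 1 / 2 → DT (Qu A' δ') (fun _ v => v 0 ∈ Integers) :=
    fun A' δ' hδ' => dt_int hδ'
  have hW : ∀ W : ℕ → Prop, REPred W → ∀ A' δ' : ℝ, δ' < 1 / 2 →
      DT (Qu A' δ') (fun _ v => v 0 ∈ ({x | ∃ a : ℕ, x = a ∧ W a} : Set ℚ)) :=
    fun W hW A' δ' hδ' => dt_re hδ' hW
  refine ⟨fun A δ ε N₀ hδ hε => ⟨⟨?_, ?_⟩, fun W hr => ⟨?_, ?_⟩⟩, ?_, ?_, ?_⟩
  · exact definable_of_dt (dt_dense (Q := fun x => x ∈ Integers) hδ hε N₀ hI)
  · exact definable_of_dt (dt_prime (Q := fun x => x ∈ Integers) hδ hε N₀ hI)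
  · exact definable_of_dt (dt_dense
      (Q := fun x => x ∈ ({x | ∃ a : ℕ, x = a ∧ W a} : Set ℚ)) hδ hε N₀ (hW W hr))
  · exact definable_of_dt (dt_prime
      (Q := fun x => x ∈ ({x | ∃ a : ℕ, x = a ∧ W a} : Set ℚ)) hδ hε N₀ (hW W hr))
  · intro A δ ε N₀ hδ hε T hT hq hd
    rcases hd with hd | hd
    · exact dio_of_dt_of_dio (X := Integers) hT ⟨hq, hd⟩
        (dt_dense (Q := fun x => x ∈ Integers) hδ hε N₀ hI)
    · exact dio_of_dt_of_dio (X := Integers) hT ⟨hq, hd⟩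
        (dt_prime (Q := fun x => x ∈ Integers) hδ hε N₀ hI)
  · exact fun T hT h => dio_zz_of_ubd hT h
  · exact fun T F hT hinf hloc hF h => dio_zz_of_app hT h hF hinf hloc

end Pool.Agent.Results.MP_28f2cb_lc.PositiveDensity
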