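import Pool.Agent.Q207.HM.Dat

/-!
# Periods of hypergeometric motives of linear, symplectic and orthogonal type: for almost all tuples of fibres all
relations of bounded degree come from the classical groups

The equation `θ^n f = z ∏_j (θ + α_j) f` with rational non-integral exponents `α_j`, `θ = z d/dz`, has maximally
unipotent monodromy at `z = 0`, and its solutions are periods of a family of motives over `ℚ(z)` of rank `n`. The
Frobenius method gives the basis `f_0, …, f_{n-1}` of solutions, and the periods of the fibres near `z = 0` are linear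
combinations of the numbers `(θ^i f_j)(z)` with constant coefficients. We treat exponents of three types: arbitrary
exponents with `2 ∑ α_j` not an integer (the generic motivic Galois group contains `SL_n`), pairs of opposite exponents
(the group `Sp_n`) and pairs of opposite exponents together with `1 / 2` (the group `O_n`, `n` odd).
-/

set_option autoImplicit false

open PowerSeries Q207.HM
open Pool.Agent.Y119.HZ (Yt pw)

namespace Pool.Agent.Results.MP_290158_ag.HypergeometricAllTypes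

/-- The three types of exponents of a hypergeometric equation of order `n`: arbitrary exponents `α_j`, the exponents
`± β_j`, and the exponents `1 / 2, ± β_j`. -/
inductive Datum : ℕ → Type
  | linear {n : ℕ} (α : Fin n → ℚ) : Datum n
  | symplectic {m : ℕ} (β : Fin m → ℚ) : Datum (2 * m)
  | orthogonal {m : ℕ} (β : Fin m → ℚ) : Datum (2 * m + 1)

/-- the polynomial `∏_j (x^2 - β_j^2)` -/
noncomputable def evenPoly {m : ℕ} (β : Fin m → ℚ) : Polynomial ℚ :=
  ∏ j, (Polynomial.X ^ 2 - Polynomial.C (β j ^ 2))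

/-- the polynomial `∏_j (x + α_j)`, the product over the exponents -/
noncomputable def Datum.poly : {n : ℕ} → Datum n → Polynomial ℚ
  | _, .linear α => ∏ j, (Polynomial.X + Polynomial.C (α j))
  | _, .symplectic β => evenPoly β
  | _, .orthogonal β => (Polynomial.X + Polynomial.C (1 / 2)) * evenPoly β

/-- The exponents are not integers, and in the linear case twice their sum is not an integer. -/
def Datum.Admissible : {n : ℕ} → Datum n → Prop
  | n, .linear α => 2 ≤ n ∧ (∀ j, ∀ a : ℤ, α j ≠ a) ∧ ∀ a : ℤ, 2 * ∑ j, α j ≠ a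
  | _, .symplectic (m := m) β => 1 ≤ m ∧ ∀ j, ∀ a : ℤ, β j ≠ a
  | _, .orthogonal (m := m) β => 1 ≤ m ∧ ∀ j, ∀ a : ℤ, β j ≠ a

/-- the power series `k + ε` in the variable `ε` -/
noncomputable def shift (k : ℕ) : PowerSeries ℚ := C (k : ℚ) + X

/-- `a_k(ε) = ∏_{l < k} ∏_j (l + ε + α_j) / (l + 1 + ε)^n`. The series `∑_k a_k(ε) z^(k + ε)` solves the equation
`(θ^n - z ∏_j (θ + α_j)) f = ε^n z^ε`, hence its coefficients `f_j` at `ε^j` with `j < n` are solutions of the
homogeneous equation. -/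
noncomputable def frob {n : ℕ} (d : Datum n) (k : ℕ) : PowerSeries ℚ :=
  ∏ l ∈ Finset.range k, (Polynomial.aeval (shift l) d.poly * ((shift (l + 1))⁻¹) ^ n)

/-- The matrix with the entries `(θ^i f_j)(1 / t)`, where `f_j(z)` is the coefficient of `ε^j` in the series
`∑_k a_k(ε) z^(k + ε)`, `z^ε = ∑_l (log z)^l ε^l / l!`. -/
noncomputable def Y {n : ℕ} (d : Datum n) (t : ℕ) : Matrix (Fin n) (Fin n) ℂ :=
  Matrix.of fun i j => ∑ l ∈ Finset.range ((j : ℕ) + 1), ((Real.log (1 / t) ^ l / l.factorial : ℝ) : ℂ) *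
    ∑' k : ℕ, ((coeff ((j : ℕ) - l) (shift k ^ (i : ℕ) * frob d k) : ℚ) : ℂ) * (1 / (t : ℂ)) ^ k

/-- The matrix with the entry `(-1)^i r_{i+j+1-n}` at the place `(i, j)` for `i + j + 1 ≥ n` and `0` otherwise, where
`r_l` are the coefficients of the polynomial `r`. -/
noncomputable def J (n : ℕ) (r : Polynomial ℚ) : Matrix (Fin n) (Fin n) ℂ :=
  Matrix.of fun i j => if n ≤ (i : ℕ) + j + 1 then (((-1) ^ (i : ℕ) * r.coeff (i + j + 1 - n) : ℚ) : ℂ) else 0

/-- the matrix with the entries `r_i r_j` -/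
noncomputable def K (n : ℕ) (r : Polynomial ℚ) : Matrix (Fin n) (Fin n) ℂ :=
  Matrix.of fun i j => ((r.coeff i * r.coeff j : ℚ) : ℂ)

/-- The algebraic set of matrices over `z = 1 / t`: the matrices of determinant `(1 - z)^(- ∑ α_j)` in the linear case,
the isometries of the alternating form `J` in the symplectic case, and the isometries from the symmetric form `J - z K`
to the symmetric form `J` in the orthogonal case. -/
def Datum.torsor : {n : ℕ} → Datum n → ℕ → Set (Matrix (Fin n) (Fin n) ℂ)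
  | _, .linear α, t => {g | g.det = (((1 - 1 / (t : ℝ)) ^ (-((∑ j, α j : ℚ) : ℝ)) : ℝ) : ℂ)}
  | _, .symplectic (m := m) β, _ => {g | g.transpose * J (2 * m) (evenPoly β) * g = J (2 * m) (evenPoly β)}
  | _, .orthogonal (m := m) β, t => {g | g.transpose * (J (2 * m + 1) (evenPoly β) -
      (1 / (t : ℂ)) • K (2 * m + 1) (evenPoly β)) * g = J (2 * m + 1) (evenPoly β)}

/-- the point with the coordinates `l_i` and the entries of the matrices `X_i` -/
def point {k : ℕ} {n : Fin k → ℕ} (l : Fin k → ℂ) (X : ∀ i, Matrix (Fin (n i)) (Fin (n i)) ℂ) :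
    (Σ i : Fin k, Option (Fin (n i) × Fin (n i))) → ℂ
  | ⟨i, none⟩ => l i
  | ⟨i, some p⟩ => X i p.1 p.2

/-- There is a polynomial relation of degree `≤ δ` with coefficients in `V` between the numbers `log t_i` and the
entries of the matrices `Y_i(1 / t_i) Ω_i` which does not vanish identically on `ℂ^k × ∏_i T_i(1 / t_i) Ω_i`, where
`T_i` are the algebraic sets above. -/
def Exceptional (δ : ℕ) (V : Submodule ℚ ℂ) {k : ℕ} {n : Fin k → ℕ} (d : ∀ i, Datum (n i))
    (Ω : ∀ i, Matrix (Fin (n i)) (Fin (n i)) ℂ) (t : Fin k → ℕ) : Prop :=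
  ∃ P : MvPolynomial (Σ i : Fin k, Option (Fin (n i) × Fin (n i))) ℂ,
    P.totalDegree ≤ δ ∧ (∀ s, P.coeff s ∈ V) ∧
    MvPolynomial.aeval (point (fun i => ((Real.log (t i) : ℝ) : ℂ)) fun i => Y (d i) (t i) * Ω i) P = 0 ∧
    ∃ (l : Fin k → ℂ) (g : ∀ i, Matrix (Fin (n i)) (Fin (n i)) ℂ), (∀ i, g i ∈ (d i).torsor (t i)) ∧
      MvPolynomial.aeval (point l fun i => g i * Ω i) P ≠ 0

theorem shift_eq (k : ℕ) : shift k = Pool.Agent.Y119.HY.kx k := rfl

theorem frob_eq {n : ℕ} (d : Datum n) (k : ℕ) : frob d k = Pool.Agent.Y119.HY.aq n d.poly k := rfl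

theorem J_eq (n : ℕ) (r : Polynomial ℚ) : J n r = Pool.Agent.Y119.HY.cm (Pool.Agent.Y119.HY.Jm n r) := by
  ext i j
  rw [Pool.Agent.Y119.HY.cm_apply]
  unfold J Pool.Agent.Y119.HY.Jm
  rw [Matrix.of_apply, Matrix.of_apply]
  split_ifs
  · rfl
  · simp

theorem K_eq (n : ℕ) (r : Polynomial ℚ) : K n r = Pool.Agent.Y119.HY.cm (Rm n r) := by
  ext i j
  rw [Pool.Agent.Y119.HY.cm_apply]
  rfl

theorem Y_eq {n : ℕ} (d : Datum n) (t : ℕ) : Y d t = Yt n d.poly t := by
  ext i j
  unfold Y Yt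
  rw [Matrix.of_apply, Matrix.mul_apply]
  have hE : ∀ c : Fin n, Pool.Agent.Y119.HY.E (Pool.Agent.Y119.HY.cm (Pool.Agent.Y119.HY.Am n))
      (-((Real.log t : ℝ) : ℂ)) c j = ∑ l ∈ Finset.range n,
        if (j : ℕ) = c + l then ((Real.log (1 / t) ^ l / l.factorial : ℝ) : ℂ) else 0 := by
    intro c
    unfold Pool.Agent.Y119.HY.E
    rw [Matrix.sum_apply]
    refine Finset.sum_congr rfl fun l _ => ?_
    rw [Matrix.smul_apply, ← Pool.Agent.Y119.HY.cm_pow, Pool.Agent.Y119.HY.cm_apply, Pool.Agent.Y119.HY.Am_pow, smul_eq_mul,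
      one_div, Real.log_inv]
    split_ifs
    · push_cast
      ring
    · simp
  simp only [hE, Finset.mul_sum]
  rw [Finset.sum_comm]
  have hsub : Finset.range ((j : ℕ) + 1) ⊆ Finset.range n := by
    intro l hl
    rw [Finset.mem_range] at hl ⊢
    have := j.2
    omega
  refine Finset.sum_subset_zero_on_sdiff hsub (fun l hl => ?_) fun l hl => ?_
  · rw [Finset.mem_sdiff, Finset.mem_range, Finset.mem_range] at hl
    refine Finset.sum_eq_zero fun c _ => ?_
    rw [if_neg (by omega), mul_zero]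
  · rw [Finset.mem_range] at hl
    have hj := j.2
    rw [Finset.sum_eq_single (⟨(j : ℕ) - l, by omega⟩ : Fin n)]
    · rw [if_pos (by simp only; omega), mul_comm]
      congr 1
      unfold Pool.Agent.Y119.HY.Hf Pool.Agent.Y119.HY.ps
      rw [Matrix.of_apply]
      refine tsum_congr fun k => ?_
      show _ = ((Pool.Agent.Y119.HY.hq n d.poly k i ((j : ℕ) - l) : ℚ) : ℂ) *
        (((1 / (t : ℝ) : ℝ)) : ℂ) ^ k
      rw [frob_eq, shift_eq]
      unfold Pool.Agent.Y119.HY.hq
      push_cast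
      rfl
    · intro c _ hc
      rw [if_neg, mul_zero]
      intro h
      apply hc
      apply Fin.ext
      simp only
      omega
    · intro h
      exact absurd (Finset.mem_univ _) h

theorem point_eq {k : ℕ} {n : Fin k → ℕ} (l : Fin k → ℂ) (X : ∀ i, Matrix (Fin (n i)) (Fin (n i)) ℂ) :
    point l X = pw (n := n) l X := by
  funext v
  obtain ⟨i, _ | p⟩ := v
  · rfl
  · rfl

theorem ni {γ : ℚ} (h : ∀ a : ℤ, γ ≠ a) : NI γ := fun l h0 => h l h0.symm

theorem poly_eq {m : ℕ} (β : Fin m → ℚ) : (Datum.orthogonal β).poly = QA (ao β) := (QA_ao β).symm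

theorem datum_ok {n : ℕ} (d : Datum n) (hd : d.Admissible) :
    QG n d.poly ∧ (∀ a b, Pool.Agent.Y113.SDc (Pool.Agent.Y119.HZ.Hp n d.poly a b)) ∧ TorOK n d.poly d.torsor ∧
      ∀ t : ℕ, 2 ≤ t → Yt n d.poly t ∈ d.torsor t := by
  cases d with
  | linear α =>
    obtain ⟨h1, h2, h3⟩ := hd
    have hQ : QG n (QA α) := QG_QA h1 fun i => ni (h2 i)
    have hT : (Datum.linear α).torsor = TL n (QA α) := by
      funext t
      unfold Datum.torsor TL
      rw [QA_coeff (by omega) α]
    refine ⟨hQ, fun a b => sdc_hpsG (fun i => ni (h2 i)) hQ a b, ?_, ?_⟩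
    · rw [hT]
      refine TL_ok hQ fun a h0 => h3 a ?_
      rw [← QA_coeff (by omega) α]
      exact_mod_cast h0
    · rw [hT]
      exact fun t ht => Yt_det hQ ht
  | @symplectic m β =>
    obtain ⟨h1, h2⟩ := hd
    have hβ : ∀ j, NI (β j) := fun j => ni (h2 j)
    have hQ := Pool.Agent.Y119.HZ.QD_QB h1 (NI_two hβ)
    have hT : (Datum.symplectic β).torsor = TS (2 * m) (Pool.Agent.Y119.HY.QB β) := by
      funext t
      show {g : Matrix (Fin (2 * m)) (Fin (2 * m)) ℂ |
        g.transpose * J (2 * m) (evenPoly β) * g = J (2 * m) (evenPoly β)} = _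
      unfold TS
      rw [J_eq]
      rfl
    refine ⟨QD_g hQ, fun a b => Pool.Agent.Y119.HY.sdc_hps (NI_two hβ) hQ a b, ?_, ?_⟩
    · rw [hT]
      exact TS_ok hQ
    · rw [hT]
      exact fun t ht => Pool.Agent.Y119.HZ.Yt_form hQ ht
  | @orthogonal m β =>
    obtain ⟨h1, h2⟩ := hd
    have hβ : ∀ j, NI (β j) := fun j => ni (h2 j)
    have hQ := QO_ao h1 hβ
    have hT : (Datum.orthogonal β).torsor = TO (2 * m + 1) (Pool.Agent.Y119.HY.QB β) := by
      funext t
      show {g : Matrix (Fin (2 * m + 1)) (Fin (2 * m + 1)) ℂ | g.transpose * (J (2 * m + 1) (evenPoly β) -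
        (1 / (t : ℂ)) • K (2 * m + 1) (evenPoly β)) * g = J (2 * m + 1) (evenPoly β)} = _
      unfold TO
      rw [J_eq, K_eq]
      push_cast
      rfl
    rw [hT, poly_eq]
    exact ⟨hQ.g, fun a b => sdc_hpsG (NI_ao hβ) hQ.g a b, TO_ok hQ, fun t ht => Yt_ort hQ ht⟩

/-- Let `d_i`, `1 ≤ i ≤ k`, be admissible exponents of linear, symplectic or orthogonal type, and let `Y_i` be the
period matrices of the hypergeometric equations `θ^n f = z ∏ (θ + α) f` with these exponents. Then the matrices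
`Y_i(1 / t)` lie in the algebraic sets `T_i(1 / t)` for `t ≥ 2`, and for all `δ` and `D` there are `c > 0` and `C` such
that for every `ℚ`-space `V` of complex numbers of dimension `≤ D`, all complex matrices `Ω_i` and every box
`∏_i (x_i, x_i + N]` with `x_i ≥ 1` the following holds for all but `C N^(k-1) ∑_i (1 + N / (x_i + N)^c)` integral
points `t` of the box: every polynomial relation of degree `≤ δ` with coefficients in `V` between the numbers `log t_i`
and the entries of the matrices `Y_i(1 / t_i) Ω_i` vanishes identically on `ℂ^k × ∏_i T_i(1 / t_i) Ω_i`. -/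
theorem result (k : ℕ) (n : Fin k → ℕ) (d : ∀ i, Datum (n i)) (hd : ∀ i, (d i).Admissible) :
    (∀ i, ∀ t : ℕ, 2 ≤ t → Y (d i) t ∈ (d i).torsor t) ∧
    ∀ δ D : ℕ, ∃ c C : ℝ, 0 < c ∧ ∀ V : Submodule ℚ ℂ, Module.Finite ℚ V → Module.finrank ℚ V ≤ D →
      ∀ (Ω : ∀ i, Matrix (Fin (n i)) (Fin (n i)) ℂ) (x : Fin k → ℕ) (N : ℕ), (∀ i, 1 ≤ x i) → 1 ≤ N →
      (({t : Fin k → ℕ | (∀ i, x i < t i ∧ t i ≤ x i + N) ∧ Exceptional δ V d Ω t}.ncard : ℕ) : ℝ) ≤
        C * (N : ℝ) ^ (k - 1) * ∑ i, (1 + N / ((x i : ℝ) + N) ^ c) := by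
  classical
  have hok := fun i => datum_ok (d i) (hd i)
  refine ⟨fun i t ht => ?_, fun δ D => ?_⟩
  · rw [Y_eq]
    exact (hok i).2.2.2 t ht
  obtain ⟨c, C, hc, -, hmain⟩ := hyp_tuples_logG k δ D n (fun i => (d i).poly) (fun i => (hok i).1)
    (fun i => (hok i).2.1) (fun i => (d i).torsor) (fun i => (hok i).2.2.1)
  refine ⟨c, C, hc, ?_⟩
  intro V hVf hV Ω x N hx hN
  set S := {t : Fin k → ℕ | (∀ i, x i < t i ∧ t i ≤ x i + N) ∧ Exceptional δ V d Ω t} with hS
  have hfin : S.Finite := by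
    refine (Set.finite_Iic (fun i : Fin k => x i + N)).subset ?_
    intro t ht i
    exact (ht.1 i).2
  rw [Set.ncard_eq_toFinset_card S hfin]
  refine hmain V hV Ω x N hx hN _ fun t ht => ?_
  have ht' : t ∈ S := hfin.mem_toFinset.1 ht
  obtain ⟨hbox, P, h1, h2, h3, l, g, hg, h4⟩ := ht'
  refine ⟨hbox, P, h1, h2, ?_, l, g, hg, ?_⟩
  · rw [point_eq] at h3
    simp only [Y_eq] at h3
    exact h3
  · rw [point_eq] at h4
    exact h4

end Pool.Agent.Results.MP_290158_ag.HypergeometricAllTypes
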