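import Pool.Agent.Q105.SDD.X66
import Pool.Agent.Q118.NormGap3

/-!
# `MP_2920eb_co`: degree seven

There is no projective plane of order `6`, so `d = 7` is the first degree to which the question
applies. The known upper bound for `gap(𝒢_{=7})` is `√5/7`. It is attained: the incidence graph of
the symmetric divisible design with `33` points, block size `7` and three classes of `11` points
(`λ₁ = 2` inside the classes, `λ₂ = 1` across) developed from a divisible difference set in
`ℤ/33` is a connected `7`-regular graph with gap exactly `√5/7`. The incidence graphs of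
`(v,7,λ)` designs have gap at most `2/7`. So the conjecture that the graphs attaining the supremum
are incidence graphs of designs is false for `𝒢_{=7}` and for `𝒢_{≥7}`.
-/

namespace Pool.Agent.Results.MP_2920eb_co.DegreeSeven

open Pool.Agent.Q118.NormGap Finset Pool.Agent.Q105.SDD

open Classical in
/-- The class `𝒢_{≥d}`: finite connected graphs with at least three vertices and minimum degree at
least `d`. -/
def AtLeast (d : ℕ) (V : Type) [Fintype V] (G : SimpleGraph V) : Prop :=
  3 ≤ Fintype.card V ∧ G.Connected ∧ ∀ v, d ≤ G.degree v

open Classical in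
/-- The class `𝒢_{=d}`: finite connected `d`-regular graphs with at least three vertices. -/
def Exactly (d : ℕ) (V : Type) [Fintype V] (G : SimpleGraph V) : Prop :=
  3 ≤ Fintype.card V ∧ G.Connected ∧ ∀ v, G.degree v = d

/-- `G` is (isomorphic to) the incidence graph of a `(v, d, l)` design. -/
def IsDesignGraph (d : ℕ) (V : Type) (G : SimpleGraph V) : Prop :=
  ∃ (v l : ℕ) (B : Fin v → Finset (Fin v)), IsDesign v d l B ∧
    Nonempty (G ≃g incGraph (fun (x : Fin v) (i : Fin v) => x ∈ B i))

/-- `G` belongs to the class `C` and no member of `C` has larger gap. -/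
def Attains (C : ∀ (V : Type) [Fintype V], SimpleGraph V → Prop) (V : Type) [Fintype V]
    (G : SimpleGraph V) : Prop :=
  C V G ∧ ∀ (W : Type) [Fintype W] (H : SimpleGraph W), C W H → gap H ≤ gap G

/-- The incidence graph, on `66` vertices, of the divisible design. -/
def X : SimpleGraph (ZMod 33 ⊕ ZMod 33) := incGraph R

theorem card_congr_dec {α : Type} [Fintype α] (p : α → Prop) (d1 d2 : DecidablePred p) :
    (@Finset.filter α p d1 univ).card = (@Finset.filter α p d2 univ).card := by
  have : d1 = d2 := Subsingleton.elim _ _
  rw [this]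

open Classical in
theorem degree_X (v : ZMod 33 ⊕ ZMod 33) : X.degree v = 7 := by
  rcases v with p | l
  · have h : X.degree (Sum.inl p) = _ := degree_inl R p
    rw [h, ← row p]
    exact card_congr_dec _ _ _
  · have h : X.degree (Sum.inr l) = _ := degree_inr R l
    rw [h, ← col l]
    exact card_congr_dec _ _ _

theorem adj_X (p l : ZMod 33) : X.Adj (.inl p) (.inr l) ↔ l - p ∈ D := Iff.rfl

theorem connected_X : X.Connected := by
  have step : ∀ p : ZMod 33, X.Reachable (.inl p) (.inl (p + 1)) := by
    intro p
    have h1 : X.Adj (.inl p) (.inr (p + 11)) := by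
      rw [adj_X]
      have : p + 11 - p = 11 := by ring
      rw [this]; decide
    have h2 : X.Adj (.inl (p + 1)) (.inr (p + 11)) := by
      rw [adj_X]
      have : p + 11 - (p + 1) = 10 := by ring
      rw [this]; decide
    exact h1.reachable.trans h2.symm.reachable
  have all : ∀ k : ℕ, X.Reachable (.inl 0) (.inl (k : ZMod 33)) := by
    intro k
    induction k with
    | zero => simp
    | succ k ih =>
      have := ih.trans (step k)
      push_cast
      exact this
  have allp : ∀ p : ZMod 33, X.Reachable (.inl 0) (.inl p) := by
    intro p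
    have := all p.val
    rwa [ZMod.natCast_zmod_val] at this
  have alll : ∀ l : ZMod 33, X.Reachable (.inl 0) (.inr l) := by
    intro l
    have h1 : X.Adj (.inl l) (.inr l) := by
      rw [adj_X, sub_self]; decide
    exact (allp l).trans h1.reachable
  refine ⟨?_⟩
  intro u v
  have h : ∀ w, X.Reachable (.inl 0) w := by
    rintro (p | l)
    · exact allp p
    · exact alll l
  exact (h u).symm.trans (h v)

open Classical in
theorem le_gap_X : √5 / 7 ≤ gap X := by
  have h := le_gap (G := X) (k := 7) (by norm_num) degree_X (c := √5) ?_
  · exact_mod_cast h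
  · intro m x hx hm
    have e1 : ∀ p, (∑ l, if R p l then x (Sum.inr l) else 0) = m * x (Sum.inl p) := fun p => by
      rw [← hm (Sum.inl p), X, nsum_inl]
      exact sum_congr rfl fun l _ => by congr
    have e2 : ∀ l, (∑ p, if R p l then x (Sum.inl p) else 0) = m * x (Sum.inr l) := fun l => by
      rw [← hm (Sum.inr l), X, nsum_inr]
      exact sum_congr rfl fun l _ => by congr
    have h5 : 5 ≤ m * m := by
      by_cases hy : (fun p => x (Sum.inl p)) = 0
      · have hz : (fun l => x (Sum.inr l)) ≠ 0 := by
          intro hz
          apply hx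
          ext v
          rcases v with p | l
          · exact congrFun hy p
          · exact congrFun hz l
        exact five_le (fun l p => R p l) cl common' hz e2 e1
      · exact five_le R cl common hy e1 e2
    rw [← abs_mul_abs_self m] at h5
    calc √5 ≤ √(|m| * |m|) := Real.sqrt_le_sqrt h5
      _ = |m| := Real.sqrt_mul_self (abs_nonneg m)

/-- the vector `e_0 - e_3` -/
noncomputable def y0 (p : ZMod 33) : ℝ := if p = 0 then 1 else if p = 3 then -1 else 0

open Classical in
theorem gap_X_le : gap X ≤ √5 / 7 := by
  have hs0 : (0 : ℝ) < √5 := by positivity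
  have hss : √5 * √5 = 5 := Real.mul_self_sqrt (by norm_num)
  have h30 : (3 : ZMod 33) ≠ 0 := by decide
  have hsum : ∑ q, y0 q = 0 := by
    have h1 : ∀ q : ZMod 33, y0 q = (if q = 0 then 1 else 0) - (if q = 3 then 1 else 0) := by
      intro q
      unfold y0
      by_cases h : q = 0
      · subst h; simp [h30.symm]
      · by_cases h' : q = 3
        · subst h'; simp [h30]
        · simp [h, h']
    simp [h1]
  have hcl : ∀ p, (∑ q, if cl p = cl q then y0 q else 0) = 0 := by
    intro p
    have h1 : ∀ q : ZMod 33, (if cl p = cl q then y0 q else 0)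
        = (if q = 0 then (if cl p = cl 0 then 1 else 0) else 0)
          - (if q = 3 then (if cl p = cl 3 then 1 else 0) else 0) := by
      intro q
      unfold y0
      by_cases h : q = 0
      · subst h; simp [h30.symm]
      · by_cases h' : q = 3
        · subst h'
          simp only [h30, if_false, if_true]
          split_ifs <;> norm_num
        · simp [h, h']
    have h03 : cl 0 = cl 3 := by decide
    rw [sum_congr rfl fun q _ => h1 q]
    simp [h03]
  set x : ZMod 33 ⊕ ZMod 33 → ℝ := Sum.elim y0 (fun l => (∑ q, if R q l then y0 q else 0) / √5)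
    with hx
  have hx0 : x ≠ 0 := by
    intro h0
    have := congrFun h0 (Sum.inl 0)
    simp [hx, y0] at this
  have := gap_le (G := X) (k := 7) (by norm_num) degree_X (m := √5) hx0 (fun v => ?_)
  · rw [abs_of_pos hs0] at this
    exact_mod_cast this
  · rcases v with p | l
    · rw [X, nsum_inl]
      have h5 := double_eq R cl common y0 p
      rw [hsum, hcl, add_zero, add_zero] at h5
      have h6 : (∑ l, if R p l then x (Sum.inr l) else 0) =
          (∑ l, if R p l then (∑ q, if R q l then y0 q else 0) else 0) / √5 := by
        rw [sum_div]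
        refine sum_congr rfl fun l _ => ?_
        by_cases h : R p l <;> simp [h, hx]
      have h8 : (∑ l, @ite ℝ (R p l) (Classical.propDecidable _) (x (Sum.inr l)) 0)
          = ∑ l, if R p l then x (Sum.inr l) else 0 :=
        sum_congr rfl fun l _ => by congr
      rw [h8, h6, h5]
      have : x (Sum.inl p) = y0 p := rfl
      rw [this]
      field_simp
      rw [Real.sq_sqrt (by norm_num)]; ring
    · rw [X, nsum_inr]
      have h7 : x (Sum.inr l) = (∑ q, if R q l then y0 q else 0) / √5 := rfl
      have h8 : (∑ p, @ite ℝ (R p l) (Classical.propDecidable _) (x (Sum.inl p)) 0)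
          = ∑ q, if R q l then y0 q else 0 :=
        sum_congr rfl fun q _ => by
          show _ = if R q l then x (Sum.inl q) else 0
          congr
      rw [h8, h7]
      field_simp

theorem gap_X : gap X = √5 / 7 := le_antisymm gap_X_le le_gap_X

/-- designs with block size seven have gap at most `2/7` -/
theorem design_gap {V : Type} [Fintype V] {G : SimpleGraph V} (h : IsDesignGraph 7 V G) :
    gap G ≤ 2 / 7 := by
  classical
  obtain ⟨v, l, B, hB, e⟩ := h
  have hl : 3 ≤ l := by
    have h1 := hB.1
    by_contra hlt
    have : l = 1 ∨ l = 2 := by omega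
    rcases this with rfl | rfl
    · exact no_plane_design (by norm_num) hB
    · exact no_biplane_seven hB
  have hlt := design_lt hB (by omega)
  have hv := hB.2.1
  have h1 := gap_design_le (fun (x : Fin v) (i : Fin v) => x ∈ B i) e (k := 7) (c := l) (by omega)
    hlt (fun p => by
      rw [← (design_rep hB (by omega)).1 p]
      congr 1
      ext i
      simp) (fun i => by
      rw [← hB.2.2.1 i]
      congr 1
      ext x
      simp) (fun p q hpq => by
      rw [← hB.2.2.2 p q hpq]
      congr 1
      ext i
      simp) (by
      rw [Fintype.card_fin]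
      omega)
  refine h1.trans ?_
  have hl' : (3 : ℝ) ≤ l := by exact_mod_cast hl
  have h4 : √(((7 : ℕ) : ℝ) - l) ≤ 2 := by
    rw [Real.sqrt_le_left (by norm_num)]
    push_cast
    linarith
  push_cast at h4 ⊢
  exact div_le_div_of_nonneg_right h4 (by norm_num)

theorem two_lt : (2 : ℝ) / 7 < √5 / 7 := by
  have : (2 : ℝ) < √5 := by
    rw [Real.lt_sqrt (by norm_num)]; norm_num
  exact div_lt_div_of_pos_right this (by norm_num)

theorem exactly_X : Exactly 7 (ZMod 33 ⊕ ZMod 33) X := by
  classical
  refine ⟨by simp, connected_X, fun v => ?_⟩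
  exact degree_X v

/-- **Main result.** `d = 7` is a degree for which no projective plane of order `d - 1` exists.
The `66`-vertex graph `X` is a connected `7`-regular graph with gap `√5/7`, the value of the known
upper bound for `gap(𝒢_{=7})`; every incidence graph of a `(v, 7, l)` design has gap at most
`2/7 < √5/7`. Hence no graph attaining the supremum, for `𝒢_{=7}` or for `𝒢_{≥7}`, is the
incidence graph of a design. -/
theorem result :
    NoPlane 6 ∧
    (∃ (V : Type) (_ : Fintype V) (G : SimpleGraph V), Exactly 7 V G ∧ gap G = √5 / 7) ∧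
    (∀ (V : Type) [Fintype V] (G : SimpleGraph V), IsDesignGraph 7 V G → gap G ≤ 2 / 7) ∧
    (2 : ℝ) / 7 < √5 / 7 ∧
    (∀ (V : Type) [Fintype V] (G : SimpleGraph V), Attains (Exactly 7) V G →
      ¬ IsDesignGraph 7 V G) ∧
    (∀ (V : Type) [Fintype V] (G : SimpleGraph V), Attains (AtLeast 7) V G →
      ¬ IsDesignGraph 7 V G) := by
  classical
  refine ⟨noPlane_of_noDesign fun v B hB => no_plane_design (by norm_num) hB,
    ⟨_, inferInstance, X, exactly_X, gap_X⟩, fun V _ G h => design_gap h, two_lt, ?_, ?_⟩
  · intro V _ G hG hD
    have h1 := hG.2 _ X exactly_X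
    have h2 := design_gap hD
    rw [gap_X] at h1
    have := two_lt
    linarith
  · intro V _ G hG hD
    have hX : AtLeast 7 (ZMod 33 ⊕ ZMod 33) X :=
      ⟨exactly_X.1, exactly_X.2.1, fun v => (exactly_X.2.2 v).ge⟩
    have h1 := hG.2 _ X hX
    have h2 := design_gap hD
    rw [gap_X] at h1
    have := two_lt
    linarith

end Pool.Agent.Results.MP_2920eb_co.DegreeSeven
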