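import Pool.Agent.Q187.HT.Conv

/-!
# Beilinson's conjecture (all four parts) follows from the middle cases

For products of curves, smooth complete intersections, and other varieties which have no cohomology
besides classes of algebraic cycles outside the middle degree, Beilinson's conjecture -- finiteness
of `CH^m(X)_0`, non-degeneracy of the height pairing, the formula for the order of `L(H^(2m-1)(X), s)`
at `s = m`, and the formula for the leading coefficient modulo `ℚ*` -- for all `X` and all `m` is
shown to follow from its middle cases `dim X = 2 m - 1`.

The idea: the defect of the rank formula and, once the pairings are non-degenerate, the quotient of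
the two sides of the formula for the leading coefficient are additive on motives. The middle cases
for `X × P^1 × ... × P^1` show that the defects in the codimensions `m` and `dim X + 1 - m` cancel.
For a product of motives in the middle degrees, the rank defects are nonnegative unless
`m = dim X + 1 - m`, so the groups of homologically trivial cycles are zero; and then the leading
coefficients and the heights only contribute in the centre, where nothing can cancel.
-/

open CategoryTheory AlgebraicGeometry

universe u v w

namespace Pool.Agent.Results.MP_29b22a_nt.MiddleCasesSuffice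

open Pool.Agent.H914 Pool.Agent.H914.VarClass Pool.Agent.H914.VarClass.Obj Pool.Agent.W492.BB
  Pool.Agent.TH133 Pool.Agent.Q187.AJS Pool.Agent.Q187.RK Pool.Agent.Q187.HTS

/-- **Beilinson's conjecture in all codimensions follows from its middle cases.** Let `C` be the
Chow theory with rational coefficients and `H` a Weil cohomology theory on a class of smooth
projective varieties over a field `k`, closed under products and containing a projective line `L`
(a curve with `Δ = o × L + L × o`). Let `e`, `l` and `h` have the formal properties of the orders
`ord_{s=j} L(p_* H^(2j-1)(X), s)`, of the leading coefficients divided by the determinants of the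
period matrices, `L^*(p_* H^(2j-1)(X), j) / det Π` up to rational multiples, and of the height
pairings (for `k = ℚ`). Let `𝓒` be the class of all products of varieties `B` such that `H^m(B)` is spanned by
classes of algebraic cycles for all `m ≠ dim B` (curves, complete intersections, ...).

1. If all four parts of Beilinson's conjecture hold for the members `X` of `𝓒` of dimension
  `2 i - 1` in codimension `i`, for all `i ≤ N`, then they hold in all codimensions for all members
  of `𝓒` of dimension at most `N`.
2. The following are equivalent: the conjecture for all members of `𝓒` in all codimensions; for all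
  members of `𝓒` of dimension `2 i - 1` in codimension `i`, for all `i`; for all the motives
  `(B_1, b_1) ⊗ ⋯ ⊗ (B_r, b_r)` given by the middle degrees of the factors.
3. If these hold, then for all direct factors `(X, p)` of the members of `𝓒` and all `j` the spaces
  `CH^j(X, p)_0` and `CH^(dim X + 1 - j)(X, p^t)_0` are finite-dimensional, and the height pairing
  between them is non-degenerate. -/
theorem result {k : Type u} [Field k] {𝒱 : VarClass k} {C : TheoryData.{u, v, 0} 𝒱 ℚ}
    [IsChowProj C] {K : Type w} [Field K] {H : WeilTheoryData.{u, v, w} C K} [IsWeilProj H]
    {e : ∀ X : 𝒱.Obj, C.A (X.prod X) → ℤ → ℤ} (he : IsOrder C H e)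
    {l : ∀ X : 𝒱.Obj, C.A (X.prod X) → ℤ → ℝ} (hl : IsLeading C H l)
    {h : ∀ X : 𝒱.Obj, C.A X → C.A X → ℝ} (hh : IsHeight C H h)
    (hL : ∃ (L : 𝒱.Obj) (o : C.A L), L.dim = 1 ∧ DegreeOne C o ∧ odd C o = 0) :
    (∀ N : ℕ, (∀ (X : 𝒱.Obj) (i : ℕ), IsProd C H X → X.dim + 1 = 2 * i → i ≤ N →
        Beilinson C H e l h (diag C X) i) →
      ∀ (X : 𝒱.Obj) (j : ℕ), IsProd C H X → X.dim ≤ N → Beilinson C H e l h (diag C X) j) ∧
    List.TFAE [
      ∀ (X : 𝒱.Obj) (j : ℕ), IsProd C H X → Beilinson C H e l h (diag C X) j,
      ∀ (X : 𝒱.Obj) (i : ℕ), IsProd C H X → X.dim + 1 = 2 * i →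
        Beilinson C H e l h (diag C X) i,
      ∀ (P : 𝒱.Obj) (p : C.A (P.prod P)) (j : ℕ), IsPrim C H P p → Beilinson C H e l h p j] ∧
    ((∀ (X : 𝒱.Obj) (j : ℕ), IsProd C H X → Beilinson C H e l h (diag C X) j) →
      ∀ (X : 𝒱.Obj) (p : C.A (X.prod X)) (j : ℕ), IsProd C H X → IsProjector C p →
        NonDeg C H h p j) :=
  beilinson_middle he hl hh hL

end Pool.Agent.Results.MP_29b22a_nt.MiddleCasesSuffice
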