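import Pool.Agent.Q54.CU.Rg
import Pool.Agent.Q54.CU.Smo

/-!
# The Tate conjecture and regulators of smooth affine cubic hypersurfaces

Let `q_0, …, q_r` be polynomials of degree at most two in `M` variables over the field `k`. The
cubic hypersurface `E : ∑ λ_j q_j(x) = 1` in the affine space of dimension `M + r + 1`
(`hypO q 1`) is smooth over `k`, of dimension `M + r`. We show that the cycle class maps
`CH_n(X) → H_(2 n)(X, K(n))^G` are surjective for all `n` and all quasi-projective schemes `X` over
`k`, smooth or not, if and only if the regulators `CH^j(E, 1) → H^(2 j - 1)(E, K(j))^G` are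
surjective for all `j > 0` and all these smooth affine cubic hypersurfaces `E`; and that this
implies the Tate conjecture for all smooth varieties over `k`.

With `n = M - j`, the group `CH^j(E, 1)` is `CH_(n + r)(E, 1)` and, by Poincare duality, the group
`H^(2 j - 1)(E, K(j))` is `H_(2 (n + r) + 1)(E, K(n + r))`.
-/

namespace Pool.Agent.Results.MP_2a05c8_ag.CubicRegulators

universe u v w x

open Q54.CU CategoryTheory AlgebraicGeometry

variable {k : Type u} [Field k] {𝓜 : Type w} [Category.{v} 𝓜] [Abelian 𝓜] {I : 𝓜}

/-- The cycle class maps of `X` are surjective: for smooth `X` of dimension `d` this is the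
conjecture `T^i(X)` for all `i = d - n`. -/
def TateFor (D : RegData.{u, v, w, x} k 𝓜 I) (X : SchO k) : Prop :=
  ∀ n : ℤ, Function.Surjective (D.c n 0 X)

/-- The smooth varieties over `k`. -/
structure IsSmoothVariety (X : SchO k) : Prop where
  var : IsVar X
  smooth : Smooth X.hom

/-- Direct images `a` and `h` in both theories from `X'` to `X` which are compatible with the cycle
class maps, and a section of the direct image in homology. -/
def IsSplit (D : RegData.{u, v, w, x} k 𝓜 I) (X X' : SchO k) (n : ℤ) : Prop :=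
  ∃ (a : D.A n 0 X' → D.A n 0 X) (h : D.H n 0 X' ⟶ D.H n 0 X) (t : D.H n 0 X ⟶ D.H n 0 X'),
    t ≫ h = 𝟙 _ ∧ ∀ x, D.c n 0 X (a x) = D.c n 0 X' x ≫ h

/-- There is a quasi-projective scheme `X'` with split direct images to `X`. For a smooth variety `X`
this holds for the proper birational morphism `X' ⟶ X` with `X'` quasi-projective given by the lemma
of Chow. -/
def IsDominated (D : RegData.{u, v, w, x} k 𝓜 I) (X : SchO k) : Prop :=
  ∃ X' : SchO k, IsVar X' ∧ HasAffineTorsor X' ∧ ∀ n : ℤ, IsSplit D X X' n

/-- The regulators `CH^j(E, 1) → H^(2 j - 1)(E, K(j))^G` are surjective for all `j > 0` and all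
smooth affine cubic hypersurfaces `E : ∑ λ_j q_j(x) = 1`. -/
def RegulatorsOnto (D : RegData.{u, v, w, x} k 𝓜 I) : Prop :=
  ∀ (M r : ℕ) (q : Fin (r + 1) → MvPolynomial (Fin M) k), (∀ j, (q j).totalDegree ≤ 2) →
    ∀ j : ℤ, 0 < j → Function.Surjective (D.c (M - j + r) 1 (hypO q 1))

/-- The cycle class maps are surjective for all smooth varieties. -/
def TateSmooth (D : RegData.{u, v, w, x} k 𝓜 I) : Prop :=
  ∀ X : SchO k, IsSmoothVariety X → TateFor D X

/-- The cycle class maps are surjective for all affine varieties, singular ones included. -/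
def TateAffine (D : RegData.{u, v, w, x} k 𝓜 I) : Prop :=
  ∀ X : SchO k, IsVar X → IsAffine X.left → TateFor D X

/-- The cycle class maps are surjective for all varieties over which there is an affine bundle with
affine total space, singular ones included. -/
def TateTorsor (D : RegData.{u, v, w, x} k 𝓜 I) : Prop :=
  ∀ X : SchO k, IsVar X → HasAffineTorsor X → TateFor D X

/-- **The Tate conjecture and the regulators of smooth affine cubic hypersurfaces.** -/
theorem result (D : RegData.{u, v, w, x} k 𝓜 I) (hD : IsRegTheory D)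
    (hdom : ∀ X : SchO k, IsSmoothVariety X → IsDominated D X) :
    List.TFAE [RegulatorsOnto D, TateAffine D, TateTorsor D] ∧
    (RegulatorsOnto D → TateSmooth D) ∧
    ((TateSmooth D → TateAffine D) → (TateSmooth D ↔ RegulatorsOnto D)) ∧
    ∀ (M r : ℕ) (q : Fin (r + 1) → MvPolynomial (Fin M) k), (∀ j, (q j).totalDegree ≤ 2) →
      IsSmoothVariety (hypO q 1) ∧ IsAffine (hypO q 1).left ∧ (hypPoly q 1).totalDegree ≤ 3 := by
  have h0 : List.TFAE [RegulatorsOnto D, TateAffine D, TateTorsor D] := by
    have h1 := reg_main hD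
    have h01 := h1.out 0 1
    have h12 := h1.out 1 2
    tfae_have 1 → 2 := by
      intro h X hX ha
      refine h01.1 ?_ X hX ha
      intro M r q hq n hn
      have h2 := h M r q hq (M - n) (by omega)
      rwa [sub_sub_cancel] at h2
    tfae_have 2 → 1 := by
      intro h M r q hq j hj
      exact h01.2 (fun X hX ha => h X hX ha) M r q hq (M - j) (by omega)
    tfae_have 2 ↔ 3 := by
      exact h12
    tfae_finish
  have h3 : RegulatorsOnto D → TateSmooth D := by
    intro h X hX n y
    have h02 := h0.out 0 2
    obtain ⟨X', hX', hT, h4⟩ := hdom X hX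
    obtain ⟨a, f, t, h5, h6⟩ := h4 n
    obtain ⟨x, hx⟩ := h02.1 h X' hX' hT n (y ≫ t)
    refine ⟨a x, ?_⟩
    rw [h6, hx, Category.assoc, h5, Category.comp_id]
  have haff : ∀ (M r : ℕ) (q : Fin (r + 1) → MvPolynomial (Fin M) k),
      IsAffine (hypO q 1).left := by
    intro M r q
    exact (inferInstance : IsAffine (HypSch q (1 : k)))
  refine ⟨h0, h3, ?_, ?_⟩
  · intro h
    have h01 := h0.out 0 1
    exact ⟨fun h4 => h01.2 (h h4), h3⟩
  · intro M r q hq
    exact ⟨⟨isVar_hypO q 1, smooth_hyp q⟩, haff M r q, totalDegree_hypPoly q 1 hq⟩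

end Pool.Agent.Results.MP_2a05c8_ag.CubicRegulators
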