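import Pool.Agent.Q10.JP.Main

/-!
# The number of Tate classes on almost all reductions

Let `X` be a smooth projective variety over a finitely generated field `F`, and let `t_n` be the
number of independent Tate classes in `Λ ^ n H^(2 j)(X)(j)`, a part of the cohomology of `X ^ n`.
After a finite extension of `F`, the order of the pole in `s = j` of the zeta function of the
reduction `X_v` is, for all places `v` outside a set of density zero, at most the order of the zero
in `T = 1` of the polynomial `∑ t_n (-T) ^ n`. In characteristic `p` (in general: if the mean
values of the traces of the Frobenius elements are the expected ones) it is for all `v` at least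
this number.
-/

open CategoryTheory AlgebraicGeometry MeasureTheory

universe u w

namespace Pool.Agent.Results.MP_2a05c8_ag.ExactJumpFormula

open Pool.Agent.H914
open Pool.Agent.Q55 (GaloisAction Virtually)
open Pool.Agent.Q50.MTC (IsLadic)
open Pool.Agent.Q50.LI (tateDim)
open Pool.Agent.Q10.JT (SemisimplePowers NoOddExotic)
open Pool.Agent.Q10.JP (Small poleOrder altOrder FrobData)

variable {k : Type u} [Field k] {𝒱 : VarClass k} {ops : CycleOps 𝒱}
  {E : WeilCohomology.{u, 0} ops} {Γ : Type w} [Group Γ] [TopologicalSpace Γ]
  [MeasurableSpace Γ] [BorelSpace Γ]

/-- **The order of the pole on almost all reductions.** Let `k` be an algebraic closure of a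
finitely generated field `F`, let `E` be the `ℓ`-adic cohomology of the smooth projective varieties
over `k` and `G` the action of the Galois group `Γ` of `k` over `F`. Let `X` be such a variety, `j`
a natural number and `b` the dimension of `H^(2 j)(X)`. Suppose that the action on the
cohomology of `X` is `ℓ`-adic (`hX`: continuity) and that the action on `H^(2 j n)(X ^ n)` is
semisimple for `n = 1, ..., b` (`hss`). Let `μ` be a Haar measure on `Γ`. Let `m = altOrder G X j` be
the order of the zero in `T = 1` of the polynomial `∑ t_n (-T) ^ n`, where `t_n` is the dimension of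
the space of the Tate classes in `Λ ^ n H^(2 j)(X)`.

(1) A subgroup of finite index consists of small elements: they act compatibly on the powers of `X`
and fix the alternating Tate classes.

(2) The number `m` is at least the number of the Tate classes in `H^(2 j)(X)`, with equality if for
all odd numbers `n + 1` with `3 ≤ n + 1 ≤ b` every alternating Tate class in
`Λ ^ (n + 1) H^(2 j)(X)` is a linear combination of alternating products of Tate classes on `X`.

(3) Let `Δ` be a subgroup of finite index which consists of small elements. Then the set of all `γ`
in `Δ` for which the eigenvalue one of `γ` on `H^(2 j)(X)(j)` has multiplicity larger than `m` has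
measure zero. (By Chebotarev's theorem: for all places of the field belonging to `Δ` outside a
set of density zero the order of the pole of the zeta function of the reduction of `X` in the
point `s = j` is at most `m`.)

(4) Suppose moreover that `Δ` contains elements `γ i` with the properties `FrobData` of the Frobenius
elements: `L i = det (1 - γ i T)` on `H^(2 j)(X)(j)` is rational with complex zeros of absolute
value one, and the mean values of the products of the traces on `Λ ^ m H^(2 j)(X)(j)` and
`Λ ^ n H^(2 j)(X)(j)` are the dimensions of the spaces of the equivariant maps. (This is a theorem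
of Deligne in characteristic `p`.) Then for all elements of `Δ` the multiplicity is at
least `m`; so it is equal to `m` outside a set of measure zero. -/
theorem result {G : GaloisAction E Γ} {ℓ : ℕ} [Fact ℓ.Prime] (e : E.K ≃+* ℚ_[ℓ]) (X : 𝒱.Obj)
    (j : ℕ) (hX : IsLadic (G.ρ X) G.χ e) (hss : SemisimplePowers G X j) (μ : Measure Γ)
    [μ.IsHaarMeasure] [μ.Regular] :
    Virtually (Small G X j) ∧
    (tateDim G X j ≤ altOrder G X j ∧ (NoOddExotic G X j → altOrder G X j = tateDim G X j)) ∧
    ∀ (Δ : Subgroup Γ) (_ : Δ.FiniteIndex) (_ : ∀ γ ∈ Δ, Small G X j γ),
      μ {γ | γ ∈ Δ ∧ altOrder G X j < poleOrder G X j γ} = 0 ∧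
      ∀ (ι : Type) (γ : ι → Γ) (L : ι → Polynomial ℚ) (w : ℕ → ι → ℝ),
        FrobData G X j Δ γ L w →
        ∀ g ∈ Δ, altOrder G X j ≤ poleOrder G X j g := by
  have cs := hX.compact
  have tg := hX.topGroup
  have fm : IsFiniteMeasure μ := inferInstance
  exact ⟨Pool.Agent.Q10.JP.virt_small G X j, ⟨Pool.Agent.Q10.JP.tateDim_le_altOrder hss,
    Pool.Agent.Q10.JP.altOrder_eq hss⟩, fun Δ hΔ hs => ⟨Pool.Agent.Q10.JP.upper hX hss hΔ hs,
    fun ι γ L w hF g hg => Pool.Agent.Q10.JP.lower hss hΔ hs hF hg⟩⟩

end Pool.Agent.Results.MP_2a05c8_ag.ExactJumpFormula
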