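import Pool.Agent.Q56.DP.Main

/-!
# Finite index of the Tate classes over the algebraic cycles implies semisimplicity in
# characteristic `p`

Let `K` be a finitely generated field of characteristic `p > 0`, `X` a smooth projective variety over
`K`, and `l` a prime different from `p`. We take for `Γ` the Weil group of `K`: the group of the
elements of the Galois group which act on the algebraic closure `F` of the finite field of constants
by an integral power of the Frobenius automorphism. Let `D` be the geometric Galois group (the
kernel of the action on `F`), a normal subgroup, and `φ` an element of `Γ` which acts on `F` as the
Frobenius automorphism. Every element of `Γ` is of the form `φ ^ m * d` with `d ∈ D`.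

On the powers `pw X n = X ^ (n + 1)` let `t n` be the dimension of the space of all Tate classes (of
all degrees, over finite extensions of `K`), and `r n` the rank of the group of the cycles modulo
numerical equivalence. It is known that `t n / r n` tends to `N ∈ {1, 2, ..., ∞}`, and that `N = 1`
if and only if for all powers of `X` the conjecture of Tate holds and homological and numerical
equivalence agree.

We prove: if `N` is finite, that is, if for some `ε > 0` and infinitely many `n` the algebraic cycles
explain at least the proportion `ε` of the Tate classes on `X ^ (n + 1)`, then the representation of
the Galois group on `H^i(X ^ (n + 1))` is semisimple for all `i` and `n`. The hypothesis on the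
restriction of the representation to `D` is a theorem of Deligne (Weil II).

Moonen has proved that in characteristic zero the conjecture of Tate (for all varieties over all
finitely generated fields) implies the semisimplicity. In characteristic `p` this was known under the
full conjecture together with the equality of homological and numerical equivalence.

The proof: consider the classes which are fixed up to the twist by a subgroup of finite index of `D`,
and among them the ends of the Jordan chains of length at least `m + 1` of the powers of `φ` for the
eigenvalue given by the twist. They are Tate classes, and stable under algebraic correspondences, so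
they have an index `d m` over the algebraic cycles if `N` is finite. If the representation on
`H^i(X)` is not semisimple, then there is a Jordan chain of length two on `X × X`; its external
powers give chains of any length, so `d m > d (m + 1)` for infinitely many `m`, a contradiction.
-/

open CategoryTheory AlgebraicGeometry

universe u v w

namespace Pool.Agent.Results.MP_2a05c8_ag.SemisimplicityCharacteristicP

open Pool.Agent.H914 Pool.Agent.H914.VarClass Pool.Agent.H914.VarClass.Obj
  Pool.Agent.H914.WeilCohomology
open Pool.Agent.Q55 (GaloisAction IsTate TateConj)
open Pool.Agent.Y133.Half (pw HasIndex dimBy cycRank)
open Pool.Agent.Q57.OP (res)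
open Pool.Agent.Q60.TD (SemisimpleAt)

/-- **A positive proportion of algebraic cycles among the Tate classes on the powers of `X` forces
the semisimplicity of the Galois representations on the cohomology of the powers.** -/
theorem result {k : Type u} [Field k] {𝒱 : VarClass k} {ops : CycleOps 𝒱}
    {W : WeilCohomology.{u, v} ops} {Γ : Type w} [Group Γ] (G : GaloisAction W Γ)
    (D : Subgroup Γ) [D.Normal] (φ : Γ) (hφ : ∀ g : Γ, ∃ m : ℤ, ∃ d ∈ D, g = φ ^ m * d)
    (X : 𝒱.Obj) [Nontrivial (W.H X)] :
    ∃ N : ℕ∞, 1 ≤ N ∧
      HasIndex (fun n => dimBy W (IsTate G) (pw X n)) (fun n => cycRank ops (pw X n)) N ∧
      (N = 1 ↔ ∀ n, TateConj G (pw X n) ∧ HomEqNum W (pw X n)) ∧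
      (N ≠ ⊤ → (∀ n, HomEqNum W (pw X n)) ∧
        ∀ n i, SemisimpleAt (res G D) (pw X n) i → SemisimpleAt G (pw X n) i) :=
  Pool.Agent.Q56.DP.finite_index_semisimple G D φ hφ X

end Pool.Agent.Results.MP_2a05c8_ag.SemisimplicityCharacteristicP
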