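import Pool.Agent.Q64.LC.Main

/-!
# Holomorphic curves with isolated blocks of exponents in projective varieties

Let `X` be the projective variety with the ideal `p`, the function field `K` and the generic point
`y`, which is not covered by rational curves or has a nonzero pluricanonical form (this is the case
if `X` is of general type). There is one hypersurface section `G = 0` of `X`, different from `X`,
which contains all lines in `X` and all holomorphic curves `f` in `X` on discs or on the plane such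
that the power series `f = ∑ z ^ i a i` of the homogeneous coordinates has infinitely many isolated
blocks of exponents, whatever the other exponents are. Every nonconstant holomorphic curve in `X`
with infinitely many large gaps in the exponents lies in the Zariski closure of the union of the
rational curves in `X`.
-/

set_option autoImplicit false

namespace Pool.Agent.Results.MP_2a5ae2_ag.IsolatedBlocks

open MvPolynomial Pool.Agent.TH143.GT Pool.Agent.W602.GT Pool.Agent.W603.GR Pool.Agent.Q64.LC

theorem result {n w : ℕ} {p : Ideal (MvPolynomial (Fin (n + 1)) ℂ)} {K : Type} [Field K]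
    [Algebra ℂ K] {y : Fin (n + 1) → K} (hy : FunField p 1 K w y) :
    -- isolated blocks
    ((¬ Covered K ∨ ∃ N : ℕ, 0 < N ∧ ∃ ω : (Fin w → Derivation ℂ K K) → K,
        Pluricanonical w N ω ∧ ω ≠ 0) →
      ∃ G : MvPolynomial (Fin (n + 1)) ℂ, IsForm G ∧ G ∉ p ∧
        (∀ x v, Line p 1 x v → ∀ t : ℂ, eval (x + t • v) G = 0) ∧
        ∀ D : ℕ, 1 ≤ D → CutBy D p → ∀ (r : ℝ) (a : ℕ → Fin (n + 1) → ℂ)
          (f : ℂ → Fin (n + 1) → ℂ), Curve p 1 r a f → Isolated D a →
          ∀ z : ℂ, ‖z‖ < r → eval (f z) G = 0) ∧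
    -- gaps
    (∀ D : ℕ, 1 ≤ D → CutBy D p → ∀ G : MvPolynomial (Fin (n + 1)) ℂ,
      (∀ T, PolyCurve p 1 T → ∀ z : ℂ, eval (fun j => (T j).eval z) G = 0) →
      ∀ (r : ℝ) (a : ℕ → Fin (n + 1) → ℂ) (f : ℂ → Fin (n + 1) → ℂ), Curve p 1 r a f →
        NonConst r f → Gaps D a → ∀ z : ℂ, ‖z‖ < r → eval (f z) G = 0) := by
  refine ⟨fun h => ?_, fun D hD hcut G hG r a f hf hnc hb z hz =>
    vanish_gap hD (isHomogeneous_one _ _) (Nat.zero_le _) hcut hG hf hnc hb hz⟩
  have hG : ∃ G, IsForm G ∧ G ∉ p ∧ ∀ x v, Line p 1 x v → ∀ t : ℂ, eval (x + t • v) G = 0 := by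
    by_contra hno
    obtain ⟨h1, h2⟩ := lines_main hy (isHomogeneous_one _ _) hno
    rcases h with h | ⟨N, hN, ω, hω, hω0⟩
    · exact h h1
    · exact hω0 (h2 N hN ω (hω.logSec _))
  obtain ⟨G, hG1, hG2, hG3⟩ := hG
  exact ⟨G, hG1, hG2, hG3, fun D hD hcut r a f hf hb z hz =>
    vanish hD (isHomogeneous_one _ _) (Nat.zero_le _) hcut hG3 hf hb hz⟩

end Pool.Agent.Results.MP_2a5ae2_ag.IsolatedBlocks
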