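import Mathlib
import Pool.Agent.Q256.CV.Main

set_option autoImplicit false

/-!
# Almost all covers of general type of projective space have no rational point over a small point

For forms `F_0, …, F_l` in `n + 1` variables, of degrees `e, 2 e, …, (l + 1) e`, let
`X_F : w ^ (l + 1) + F_0(x) w ^ l + ⋯ + F_l(x) = 0`, a hypersurface of degree `(l + 1) e` in the
weighted projective space `P(1, …, 1, e)`, a cover of degree `l + 1` of `ℙⁿ`; every hypersurface of
this degree which does not contain the point `(0 : ⋯ : 0 : 1)` is of this form over `ℚ`, and the smooth ones are of general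
type exactly if `l e ≥ n + 2` (for `n = 1`, `l = 1`: the hyperelliptic curves of genus `e - 1 ≥ 2`).
The coefficients of `F_k` run through the integers in `[-H ^ (k + 1), H ^ (k + 1)]`; the number of
these covers is of the order of magnitude `H ^ M`, `M = ∑ (k + 1) N_k`.  For all but `C T ^ (M - l)`
of them there is no rational point of `X_F` over a point of `ℙⁿ` which is cut out by `n` hyperplanes
with integral coefficients in `[-T, T]` (`T ≥ H`), in particular over a point of height at most `T`.

* `Box n d B` : forms of degree `d` in `n + 1` variables, integral coefficients in `[-B, B]`;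
* `WBox n l e H` : the families `F_0, …, F_l`;
* `Nk n e k` : the number `N_k` of monomials of degree `(k + 1) e`;
* `CutOut T x` : `x` is the intersection point of `n` independent hyperplanes with integral
  coefficients in `[-T, T]`;
* `BadC n l e H T` : the covers with a rational point over such a point `x` (the pair `(x, w)` is
  given by weighted homogeneous coordinates, `x ≠ 0`).
-/

namespace Pool.Agent.Results.MP_2ae8fe_ag.CoversOfProjectiveSpace

open Pool.Agent.Q256.CI Pool.Agent.Q256.CV

theorem result (n l e : ℕ) (hgt : n + 2 ≤ l * e) :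
    (∃ C : ℝ, ∀ H T : ℕ, 1 ≤ H → H ≤ T →
      (Nat.card (BadC n l e H T) : ℝ) ≤
        C * (T : ℝ) ^ ((∑ k : Fin (l + 1), (k.1 + 1) * Nk n e k.1) - l)) ∧
    (∀ H : ℕ, Nat.card (WBox n l e H) =
      ∏ k : Fin (l + 1), (2 * H ^ (k.1 + 1) + 1) ^ Nk n e k.1) ∧
    (∀ (T : ℕ) (y : Fin (n + 1) → ℤ), y ≠ 0 → (∀ k, |y k| ≤ T) →
      CutOut T (fun k => (y k : ℚ))) := by
  refine ⟨?_, fun H => total_cover n l e H, fun T y hy hT => cutOut_small T y hy hT⟩
  obtain ⟨C, hC⟩ := main_cover (n := n) (l := l) (e := e) hgt
  exact ⟨C, fun H T hH hHT => hC H T (hH.trans hHT) hHT⟩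

end Pool.Agent.Results.MP_2ae8fe_ag.CoversOfProjectiveSpace
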