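import Mathlib
import Pool.Agent.Q51.HG.Sparse
import Pool.Agent.Q51.HG.Proj
import Pool.Agent.Q51.HG.SmoothCI

set_option autoImplicit false

/-!
# Rational points of general complete intersections are not sparse in any base

Let `X` be a complete intersection of forms `F 1, …, F q` of degrees `d 1, …, d q > 0`, `d i ≤ e`, in
projective `n`-space. Suppose that `2 n + 1 ≤ ∑ (d i + 1)` (for a hypersurface: degree at least `2 n`),
or that `2 n - 1 ≤ ∑ (d i + 1)` and `n - q ≥ 5` or `3 n + 3 ≤ 2 ∑ d i + q` (for a hypersurface and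
`n ≥ 6`: degree at least `2 n - 2`). For every `r` there is a nonzero polynomial `h` with integral
coefficients in the coefficients of the forms, such that for all forms with `h (F) ≠ 0` (that is, for
100 percent of the complete intersections) `X` is smooth, and for all `s` with `1 ≤ s ≤ r`:

* if the forms have integral coefficients with sum of the absolute values at most `A`, and the vector
  `x` of coprime integers is a point of `X`, and `x = b ^ (l 1) v_1 + … + b ^ (l s) v_s` with ANY base
  `b ≥ 1`, exponents `l j` and vectors `v_j` of integers of absolute value at most `b` (for instance,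
  if the base `b` digits of the coordinates of `x` are zero except at `s` places), then
  `|x i| ≤ (A s ^ e b ^ e) ^ (1 + 8 (4 e) ^ s)`;
* if the forms have coefficients in the integers of a number field `k`, with sum of the houses at most
  `A`, then for all number fields `K ⊇ k`, ALL `t ∈ K`, all exponents `l j` and all vectors `v_j` over
  `K`: if the point `x = t ^ (l 1) v_1 + … + t ^ (l s) v_s` lies on `X`, then

    `h(x) ≤ (1 + 8 (4 e) ^ s) (e h(v) + log (A s ^ e))`,

  where `h` is the absolute logarithmic height and `h(v)` the height of `(v_1 : … : v_s)`.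

So the rational points of `X` which are sparse in any base are finite in number, and a rational point of
height `H` has nonzero digits at least at about `log log H / log (4 e)` places, in every given base, as
long as this number is at most `r`. There is no exceptional set.
-/

namespace Pool.Agent.Results.MP_2ae8fe_ag.SparseInAnyBase

open MvPolynomial NumberField
open Pool.Agent.TH409.SH (ah OnSparse)
open Pool.Agent.H458.Sp (nrm)

/-- The indices of the coefficients of `q` forms of degrees `d i` in `n + 1` variables. -/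
abbrev Index (n : ℕ) {q : ℕ} (d : Fin q → ℕ) : Type :=
  (i : Fin q) × {α : Fin (n + 1) →₀ ℕ // α.degree = d i}

/-- The value of the polynomial `h` at the coefficients of the forms `F i`. -/
noncomputable def valueAt {n q : ℕ} {d : Fin q → ℕ} {R : Type} [CommRing R]
    (h : MvPolynomial (Index n d) ℤ) (F : Fin q → MvPolynomial (Fin (n + 1)) R) : R :=
  aeval (fun x : Index n d => coeff x.2.1 (F x.1)) h

/-- The range of the degrees. -/
def Range (n : ℕ) {q : ℕ} (d : Fin q → ℕ) : Prop :=
  2 * n + 1 ≤ ∑ i, (d i + 1) ∨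
    (2 * n ≤ ∑ i, (d i + 1) + 1 ∧ (q + 5 ≤ n ∨ 3 * n + 3 ≤ 2 * ∑ i, d i + q))

/-- `X = {F = 0}` is a smooth complete intersection: the gradients of the forms are linearly
independent in its points, over all fields `Ω`. -/
def Smooth {n q : ℕ} {k : Type} [Field k] (F : Fin q → MvPolynomial (Fin (n + 1)) k) : Prop :=
  ∀ (Ω : Type) [Field Ω] [Algebra k Ω] (x : Fin (n + 1) → Ω), x ≠ 0 → (∀ i, aeval x (F i) = 0) →
    LinearIndependent Ω (fun i => fun j => aeval x (pderiv j (F i)))

/-- The bound for primitive integral zeros which are sparse with `s` terms in some base `b`. -/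
def SparseSmall {n q : ℕ} (F : Fin q → MvPolynomial (Fin (n + 1)) ℤ) (A e s : ℕ) : Prop :=
  ∀ (b : ℕ), 1 ≤ b → ∀ (l : Fin s → ℕ) (v : Fin s → Fin (n + 1) → ℤ), (∀ j i, |v j i| ≤ b) →
    ∀ x : Fin (n + 1) → ℤ, Finset.univ.gcd x = 1 → (∀ i, x i = ∑ j, (b : ℤ) ^ (l j) * v j i) →
      (∀ i, aeval x (F i) = 0) →
      ∀ i, |x i| ≤ ((A : ℤ) * s ^ e * b ^ e) ^ (1 + 8 * (4 * e) ^ s)

/-- The height inequality for points over number fields which are sparse with `s` terms in some base:
`ah K x` is the absolute logarithmic height of the point of projective space with homogeneous coordinates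
`x` in `K`, and `OnSparse t l v x` means that `x ≠ 0` and `x = ∑ t ^ (l j) v_j`. -/
def SparseHeights {n q : ℕ} {k : Type} [Field k] [NumberField k]
    (F : Fin q → MvPolynomial (Fin (n + 1)) (𝓞 k)) (A : ℝ) (e s : ℕ) : Prop :=
  ∀ (K : Type) [Field K] [NumberField K] [Algebra k K] (t : K) (l : Fin s → ℕ)
    (v : Fin s → Fin (n + 1) → K) (x : Fin (n + 1) → K), OnSparse t l v x →
    (∀ i, aeval x (map (algebraMap (𝓞 k) k) (F i)) = 0) →
    ah K x ≤ (1 + 8 * (4 * e) ^ s) *
      (e * ah K (fun p : Fin s × Fin (n + 1) => v p.1 p.2) + Real.log (A * s ^ e))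

theorem smooth_of {n q : ℕ} {d : Fin q → ℕ} {h : MvPolynomial (Index n d) ℤ}
    (hh : ∀ (L : Type) [Field L] (F : Fin q → MvPolynomial (Fin (n + 1)) L),
      (∀ i, (F i).IsHomogeneous (d i)) → Pool.Agent.Q51.HG.sp d F h ≠ 0 →
      ∀ x : Fin (n + 1) → L, x ≠ 0 → (∀ i, eval x (F i) = 0) →
      LinearIndependent L (fun i => fun k => eval x (pderiv k (F i))))
    {K : Type} [Field K] (F : Fin q → MvPolynomial (Fin (n + 1)) K)
    (hF : ∀ i, (F i).IsHomogeneous (d i)) (hv : Pool.Agent.Q51.HG.sp d F h ≠ 0) : Smooth F := by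
  intro Ω _ _ x hx0 hx
  have h1 := hh Ω (fun i => map (algebraMap K Ω) (F i)) (fun i => (hF i).map _) (by
    rw [Pool.Agent.Q51.HG.sp_map]
    exact (map_ne_zero _).2 hv) x hx0 (fun i => by
      rw [eval_map, ← aeval_def]
      exact hx i)
  have h2 : (fun i => fun k => eval x (pderiv k (map (algebraMap K Ω) (F i)))) =
      (fun i => fun k => aeval x (pderiv k (F i))) := by
    funext i k
    rw [pderiv_map, eval_map, ← aeval_def]
  rw [h2] at h1
  exact h1

/-- **Rational points of 100 percent of the complete intersections are not sparse in any base.** -/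
theorem result (n : ℕ) {q : ℕ} (d : Fin q → ℕ) (hn : 1 ≤ n) (hd0 : ∀ i, 0 < d i)
    (hd : Range n d) (e : ℕ) (he : ∀ i, d i ≤ e) (r : ℕ) :
    ∃ h : MvPolynomial (Index n d) ℤ, h ≠ 0 ∧
      (∀ (F : Fin q → MvPolynomial (Fin (n + 1)) ℤ), (∀ i, (F i).IsHomogeneous (d i)) →
        valueAt h F ≠ 0 →
        Smooth (fun i => map (algebraMap ℤ ℚ) (F i)) ∧
        ∀ A : ℕ, 1 ≤ A → (∀ i, ∑ α ∈ (F i).support, |coeff α (F i)| ≤ A) →
          ∀ s, 1 ≤ s → s ≤ r → SparseSmall F A e s) ∧
      ∀ (k : Type) [Field k] [NumberField k] (F : Fin q → MvPolynomial (Fin (n + 1)) (𝓞 k)),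
        (∀ i, (F i).IsHomogeneous (d i)) → valueAt h F ≠ 0 →
        Smooth (fun i => map (algebraMap (𝓞 k) k) (F i)) ∧
        ∀ A : ℝ, 1 ≤ A → (∀ i, nrm (F i) ≤ A) →
          ∀ s, 1 ≤ s → s ≤ r → SparseHeights F A e s := by
  have hgm := Pool.Agent.Q51.HG.noGm_range hn d hd0 hd
  have he1 : 1 ≤ e := by
    have hq : 0 < q := by
      rcases Nat.eq_zero_or_pos q with h | h
      · exfalso
        subst h
        unfold Range at hd
        simp at hd
        omega
      · exact h
    have := hd0 ⟨0, hq⟩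
    have := he ⟨0, hq⟩
    omega
  obtain ⟨h2, h20, h2s⟩ := Pool.Agent.Q51.HG.gen_smooth_ci n d
  obtain ⟨h4, h40, h4s⟩ := Pool.Agent.Q51.HG.gen_noCur d hgm r
  have hval : ∀ {R L : Type} [CommRing R] [Field L] [Algebra R L] [FaithfulSMul R L]
      (F : Fin q → MvPolynomial (Fin (n + 1)) R), valueAt (h2 * h4) F ≠ 0 →
      Pool.Agent.Q51.HG.sp d (fun i => map (algebraMap R L) (F i)) h2 ≠ 0 ∧
      Pool.Agent.Q51.HG.sp d (fun i => map (algebraMap R L) (F i)) h4 ≠ 0 := by
    intro R L _ _ _ _ F hv
    have h1 : valueAt (h2 * h4) F = valueAt h2 F * valueAt h4 F := map_mul _ _ _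
    rw [h1] at hv
    have hinj := FaithfulSMul.algebraMap_injective R L
    rw [Pool.Agent.Q51.HG.sp_map, Pool.Agent.Q51.HG.sp_map]
    exact ⟨(map_ne_zero_iff _ hinj).2 (left_ne_zero_of_mul hv),
      (map_ne_zero_iff _ hinj).2 (right_ne_zero_of_mul hv)⟩
  refine ⟨h2 * h4, mul_ne_zero h20 h40, ?_, ?_⟩
  · intro F hF hv
    obtain ⟨hv2, hv4⟩ := hval (L := ℚ) F hv
    refine ⟨smooth_of h2s _ (fun i => (hF i).map _) hv2, fun A hA hFA s hs hsr => ?_⟩
    intro b hb l v hvb x hx1 hx hz i
    exact Pool.Agent.Q51.HG.sparse_int F e he1 A hA (fun i => ⟨⟨d i, he i, hF i⟩, hFA i⟩) hs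
      ((h4s ℚ _ (fun i => (hF i).map _) hv4 ℚ).mono hsr) b hb l v hvb x hx1 hx hz i
  · intro k _ _ F hF hv
    obtain ⟨hv2, hv4⟩ := hval (L := k) F hv
    refine ⟨smooth_of h2s _ (fun i => (hF i).map _) hv2, fun A hA hFA s hs hsr => ?_⟩
    intro K _ _ _ t l v x hx hz
    exact Pool.Agent.Q51.HG.sparse_height F e he1 A hA (fun i => ⟨⟨d i, he i, hF i⟩, hFA i⟩) hs
      ((h4s k _ (fun i => (hF i).map _) hv4 K).mono hsr) t l v x hx hz

end Pool.Agent.Results.MP_2ae8fe_ag.SparseInAnyBase
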