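import Pool.Agent.Q227.TF.Pol

/-!
# 2-factors with one prescribed directed cycle: NP-hardness

Given a digraph `D`, it is NP-hard to decide whether the underlying graph of `D` has a 2-factor one
of whose cycles is a directed cycle of `D`.

The reduction is from 3SAT. The digraph consists of an acyclic digraph and one arc from its last to
its first vertex, so a directed cycle is a path from the first vertex to the last one together with
this arc; it passes, for every variable, through one of two branches. All vertices of the other
branches have to be covered by further cycles of the 2-factor. Every vertex of a branch has its own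
triangle, and every clause has two adjacent sinks which are joined to the three vertices of the
branches which belong to its literals; these two sinks can be covered if and only if one of the
three vertices is not on the directed cycle.
-/

set_option autoImplicit false

namespace Pool.Agent.Results.MP_2afc76_lc.NPHard

open Pool.Agent.NPC Pool.Agent.H673R2 Pool.Agent.Q227

/-- Data of a finite digraph: the number `n` of the vertices, which are `0, …, n - 1`, and the list
of the arcs. -/
abbrev Data : Type := ℕ × List (ℕ × ℕ)

/-- The data describe a digraph without loops and parallel arcs. -/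
def IsDigraph (D : Data) : Prop :=
  D.2.Nodup ∧ ∀ a ∈ D.2, a.1 < D.1 ∧ a.2 < D.1 ∧ a.1 ≠ a.2

/-- There is an arc from `u` to `v`. -/
def Arc (D : Data) (u v : Fin D.1) : Prop := (u.val, v.val) ∈ D.2

/-- The underlying simple graph. -/
def UG (D : Data) : SimpleGraph (Fin D.1) where
  Adj u v := u ≠ v ∧ (Arc D u v ∨ Arc D v u)
  symm := ⟨fun _ _ h => ⟨h.1.symm, h.2.symm⟩⟩
  loopless := ⟨fun _ h => h.1 rfl⟩

/-- `F` is a 2-factor of `G`: a spanning subgraph in which every vertex has degree `2`. -/
def IsTwoFactor {V : Type} (F G : SimpleGraph V) : Prop :=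
  F ≤ G ∧ ∀ v, (F.neighborSet v).ncard = 2

/-- The property `Π`: the underlying graph of `D` has a 2-factor `F` and a cycle `C` of `F` all of
whose steps are arcs of `D`. -/
def PropertyPi (D : Data) : Prop :=
  ∃ F : SimpleGraph (Fin D.1), IsTwoFactor F (UG D) ∧
    ∃ (u : Fin D.1) (C : F.Walk u u), C.IsCycle ∧ ∀ d ∈ C.darts, Arc D d.fst d.snd

theorem propertyPi_iff {D : Data} : PropertyPi D ↔ TF.HasTwoFactor (Arc D) := by
  constructor
  · rintro ⟨F, ⟨h1, h2⟩, h3⟩
    exact ⟨F, fun u v h => (h1 h).2, h2, h3⟩
  · rintro ⟨F, h1, h2, h3⟩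
    exact ⟨F, ⟨fun u v h => ⟨h.ne, h1 u v h⟩, h2⟩, h3⟩

/-- **Theorem.** Deciding the property `Π` is NP-hard: every problem in NP has a polynomial-time
many-one reduction to it which only produces digraphs. Hence, if `P ≠ NP`, no polynomial-time
algorithm decides, for every digraph, whether it has the property `Π`. -/
theorem result :
    NPHardOn IsDigraph PropertyPi ∧
    (PneNP → ¬ ∃ A : List Bool → List Bool, PolyTime A ∧ ∀ D : Data, IsDigraph D →
      (PropertyPi D → A (bits D) = [true]) ∧ (¬ PropertyPi D → A (bits D) = [false])) := by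
  have h : NPHardOn IsDigraph PropertyPi := by
    refine npHardOn_of hardPr_SAT3b TF.red_poly ?_ ?_
    · rintro φ ⟨_, _, hne⟩
      refine ⟨mkDG_nodup _ _, fun a ha => ⟨(mkDG_lt ha).1, (mkDG_lt ha).2,
        mkDG_ne (fun v _ => TF.arcB_irrefl φ hne v) ha⟩⟩
    · rintro φ ⟨_, hb, hne⟩
      rw [TF.sat_iff hb hne, propertyPi_iff]
      rfl
  refine ⟨h, ?_⟩
  rintro ⟨L, hL, hL'⟩ ⟨A, hA, hAD⟩
  obtain ⟨f, hf, hpr, hfL⟩ := h L hL
  refine hL' ⟨fun x => A (bits (f x)), H642R2.TMSim.polyTime_comp hA hf, fun x => ?_⟩
  rw [hfL x]
  constructor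
  · exact (hAD _ (hpr x)).1
  · intro h1
    by_contra h2
    have h3 := (hAD _ (hpr x)).2 h2
    have h4 : A (bits (f x)) = [true] := h1
    rw [h3] at h4
    exact absurd h4 (by decide)

end Pool.Agent.Results.MP_2afc76_lc.NPHard
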