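import Pool.Agent.Q255.IC.Fin
import Pool.Agent.Q26.IC.Pz
import Pool.Agent.Q26.IC.Iid
import Pool.Agent.Q92.IC.Log
import Pool.Agent.Q92.IC.Blk
import Pool.Agent.Q151.IC.Rz
import Pool.Agent.Q151.IC.Cov
import Pool.Agent.Q151.IC.T2
import Pool.Agent.Q151.IC.Ord
import Pool.Agent.Q257.IC.CH
import Pool.Agent.Q257.IC.BALQ
import Pool.Agent.Q257.IC.UNI
import Pool.Agent.Q14.IC.T1
import Pool.Agent.Q153.IC.T3
import Pool.Agent.Q150.IC.Jen
import Pool.Agent.Q14.IC.Cont

/-!
# The price of a zero at the edge of absolute convergence: information and dimension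

`f` runs over the completely multiplicative functions with values `1` and `-1` at the primes (the
value at the `k`-th prime is `sg ω k`, `ω : ℕ → Bool`).  For a projective variety `X` over `ℚ` and `i`
the twisted `L`-function is `L_f(s) = ∏_p det(1 - f(p) F_p p^{-s} ; H^i)⁻¹`, and `s₀ = i/2 + 1`.
For `f = 1` this is the `L`-function of the problem.

`Like N m`: the `f` for which some `X`, `i` with `b_i(X) ≤ N` give an `L_f` of the size of a zero or of a
pole of (real) order `m` at `s₀`.  `Zeros N m`: some such `L_f` has a meromorphic continuation with a zero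
or pole of order at least `m` at `s₀`.  `PointZeros N m`: the `L_f` of `N` points is `ζ^{-m} exp G` with `G`
analytic in `Re s > 1/2`.
-/

set_option autoImplicit false

namespace Pool.Agent.Results.MP_2b9663_nt.InformationCostOfAZeroAtTheEdge

open Filter MeasureTheory Pool.Agent.Q255.IC

/-- The price of a zero or a pole of order `m` at `s₀` for an `L`-function of rank at most `N`.

* The set of the `f` for which this happens for some variety has Hausdorff dimension exactly
  `H((1 + m/N)/2) / log 2`, `H` the binary entropy; for integers `m` the same holds for honest zeros and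
  poles of a continuation.
* If the law of the signs of `f` is arbitrary, with entropy at least `(log 2 - c - o(1)) n` for the first
  `n` signs, the probability is at most `c / (log 2 - H((1 + m/N)/2))`, and this is attained. -/
theorem result (N : ℕ) (hN : 0 < N) :
    (∀ m : ℝ, 0 < m → m ≤ N →
      dimS (Like N m) = ENNReal.ofReal (Real.binEntropy ((1 + m / N) / 2) / Real.log 2)) ∧
    (∀ m : ℕ, 0 < m → m ≤ N → PointZeros N m ⊆ Zeros N m ∧ Zeros N m ⊆ Like N m ∧
      dimS (PointZeros N m) = ENNReal.ofReal (Real.binEntropy ((1 + (m : ℝ) / N) / 2) / Real.log 2)) ∧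
    (∀ (ν : Measure (ℕ → Bool)) [IsProbabilityMeasure ν] (m c : ℝ), 0 < m → m ≤ N → 0 ≤ c →
      (∀ ε : ℝ, 0 < ε → ∀ᶠ n : ℕ in atTop, (Real.log 2 - c - ε) * n ≤ entropy ν n) →
        ν (Like N m) ≤ ENNReal.ofReal (c / (Real.log 2 - Real.binEntropy ((1 + m / N) / 2)))) ∧
    (∀ m c : ℝ, 0 < m → m ≤ N → 0 ≤ c → c ≤ Real.log 2 - Real.binEntropy ((1 + m / N) / 2) →
      ∃ ν : Measure (ℕ → Bool), IsProbabilityMeasure ν ∧
        (∀ n : ℕ, (Real.log 2 - c) * n ≤ entropy ν n) ∧
        ν (Like N m) = ENNReal.ofReal (c / (Real.log 2 - Real.binEntropy ((1 + m / N) / 2))) ∧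
        ∀ k : ℕ, (k : ℝ) = m → ν (PointZeros N k) =
          ENNReal.ofReal (c / (Real.log 2 - Real.binEntropy ((1 + m / N) / 2)))) := by
  have hBALQ := Pool.Agent.Q257.IC.t_BALQ Pool.Agent.Q92.IC.t_BLK Pool.Agent.Q257.IC.t_CH
  exact main (Pool.Agent.Q151.IC.rz Pool.Agent.Q92.IC.t_LOG) Pool.Agent.Q151.IC.zp
    Pool.Agent.Q151.IC.fin
    (Pool.Agent.Q14.IC.t1 (Pool.Agent.Q150.IC.ent Pool.Agent.Q150.IC.jen) abel Pool.Agent.Q26.IC.pz sup_all)
    Pool.Agent.Q26.IC.mix Pool.Agent.Q26.IC.iid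
    (Pool.Agent.Q151.IC.t2 Pool.Agent.Q151.IC.cov cher abel Pool.Agent.Q26.IC.pz sup_all)
    hBALQ (Pool.Agent.Q153.IC.t3 hBALQ abel Pool.Agent.Q26.IC.pz) Pool.Agent.Q14.IC.cont
    Pool.Agent.Q151.IC.ord
    (Pool.Agent.Q153.IC.rzb abel Pool.Agent.Q26.IC.pz)
    Pool.Agent.Q257.IC.t_UNI Pool.Agent.Q257.IC.t_PTS N hN

end Pool.Agent.Results.MP_2b9663_nt.InformationCostOfAZeroAtTheEdge
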