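import Pool.Agent.Q236.GW.Pair
import Pool.Agent.TH977.PW.Inst

set_option autoImplicit false

/-!
# Regular neighbourhoods of the `m` for which `m ^ 2 + 1` and `m ^ 2 + 3` are simultaneously prime

Let `R r` be the set of the `m` for which all prime factors of `m ^ 2 + 1` and of `m ^ 2 + 3` are larger
than `m ^ (1 / r)`; it contains all `m` for which both are prime. In every short interval `(X, X + Y]`,
`Y ≥ X ^ θ`, there are at least `κ Y / log ^ 2 X` integers `m` in `R r` for which both numbers have at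
most `r` prime factors. Let `A` be an ARBITRARY subset of `R r` (for example the set of all `m` for which
both numbers are prime). In every short interval `(X, X + Y]`, `X ^ θ ≤ Y ≤ X / 2`, all but
`ε Y / log ^ 2 X` of the elements of `A` are regular points of `A`: the elements of `A` in ALL intervals
of length between `log ^ 2 X / c` and `Y` around them have the right order, and constant density up to
`δ` at all but `B (ε, δ)` dyadic scales.
-/

namespace Pool.Agent.Results.MP_2dba45_nt.RegularNeighbourhoods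

open Finset Filter

/-- All prime factors of `m ^ 2 + 1` and of `m ^ 2 + 3` are larger than `m ^ (1 / r)`. -/
def R (r : ℕ) : Set ℕ :=
  {m | ∀ p : ℕ, p.Prime → p ∣ (m ^ 2 + 1) * (m ^ 2 + 3) → (m : ℝ) ^ (1 / (r : ℝ)) < (p : ℝ)}

open Classical in
/-- the number of the elements of `A` in `(a, b]` -/
noncomputable def N (A : Set ℕ) (a b : ℕ) : ℕ := ((Finset.Ioc a b).filter (fun m => m ∈ A)).card

/-- All intervals `(m - s, m + t]` with `s, t ≤ Y` of length at least `log ^ 2 X / c` contain the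
right order of elements of `A`. -/
def RightOrder (A : Set ℕ) (c : ℝ) (X Y m : ℕ) : Prop :=
  ∀ s t : ℕ, s ≤ Y → t ≤ Y → Real.log X ^ 2 ≤ c * (s + t) →
    c * (s + t) / Real.log X ^ 2 ≤ N A (m - s) (m + t) ∧
      (N A (m - s) (m + t) : ℝ) ≤ (s + t) / (c * Real.log X ^ 2)

/-- Up to `δ`, `A` has a constant density on both sides of `m` up to the distance `2 ^ j`. -/
def ConstantDensity (A : Set ℕ) (c δ : ℝ) (X m j : ℕ) : Prop :=
  ∃ lam : ℝ, c ≤ lam ∧ lam ≤ 1 / c ∧ ∀ s t : ℕ, s ≤ 2 ^ j → t ≤ 2 ^ j →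
    |(N A (m - s) (m + t) : ℝ) - lam * (s + t) / Real.log X ^ 2| ≤ δ * 2 ^ j / Real.log X ^ 2

open Classical in
/-- The number of the scales `log ^ 2 X ≤ 2 ^ j ≤ Y` without this property. -/
noncomputable def badScales (A : Set ℕ) (c δ : ℝ) (X Y m : ℕ) : ℕ :=
  ((Finset.range (Nat.log 2 Y + 1)).filter (fun j => Real.log X ^ 2 ≤ (2 : ℝ) ^ j ∧
    ¬ ConstantDensity A c δ X m j)).card

/-- The elements of `A` that are not regular points of `A`. -/
def Irregular (A : Set ℕ) (c δ : ℝ) (B X Y : ℕ) : Set ℕ :=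
  {m | m ∈ A ∧ ¬ (RightOrder A c X Y m ∧ badScales A c δ X Y m ≤ B)}

lemma N_eq : N = Pool.Agent.TH977.PW.N := rfl

lemma Irr_eq (A : Set ℕ) (c δ : ℝ) (B X Y : ℕ) :
    Irregular A c δ B X Y = Pool.Agent.TH977.PW.Irregular A 2 c δ B X Y := rfl

open Pool.Agent.Q236.GW

lemma fp_dvd (p m : ℕ) (hp : p.Prime) :
    (∃ i, (p : ℤ) ∣ (fp i).eval (m : ℤ)) ↔ p ∣ (m ^ 2 + 1) * (m ^ 2 + 3) := fp_Q p m hp

/-- **Regular neighbourhoods of the admissible `m`.** -/
theorem result (θ : ℝ) (hθ : 0 < θ) (hθ1 : θ ≤ 1) :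
    ∃ r₀ : ℕ, 2 ≤ r₀ ∧ ∀ r : ℕ, r₀ ≤ r →
      (∀ m : ℕ, (m ^ 2 + 1).Prime → (m ^ 2 + 3).Prime → m ∈ R r) ∧
      (∃ κ : ℝ, 0 < κ ∧ ∀ᶠ X : ℕ in atTop, ∀ Y : ℕ, (X : ℝ) ^ θ ≤ Y → Y ≤ X →
        κ * Y / Real.log X ^ 2 ≤ N {m | m ∈ R r ∧ (m ^ 2 + 1).primeFactorsList.length ≤ r ∧
          (m ^ 2 + 3).primeFactorsList.length ≤ r} X (X + Y)) ∧
      ∀ ε : ℝ, 0 < ε → ∃ c : ℝ, 0 < c ∧ ∀ δ : ℝ, 0 < δ → ∃ B : ℕ,
        ∀ᶠ X : ℕ in atTop, ∀ Y : ℕ, (X : ℝ) ^ θ ≤ Y → 2 * Y ≤ X → ∀ A : Set ℕ, A ⊆ R r →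
          (N (Irregular A c δ B X Y) X (X + Y) : ℝ) ≤ ε * Y / Real.log X ^ 2 := by
  obtain ⟨r0, hr0, h⟩ := Pool.Agent.TH977.PW.final fp fp_sys (fun r => R r)
    (fun r => {m | m ∈ R r ∧ (m ^ 2 + 1).primeFactorsList.length ≤ r ∧
      (m ^ 2 + 3).primeFactorsList.length ≤ r}) 2 (Fintype.card_fin 2)
    (fun r m _ hm i p hp hd => hm p hp ((fp_dvd p m hp).1 ⟨i, hd⟩))
    (fun r m _ h1 h2 => by
      refine ⟨fun p hp hd => ?_, ?_, ?_⟩
      · obtain ⟨i, hi⟩ := (fp_dvd p m hp).2 hd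
        exact h1 i p hp hi
      · have := h2 0
        rw [(fp_nat m).1, Int.natAbs_natCast] at this
        exact this
      · have := h2 1
        rw [(fp_nat m).2, Int.natAbs_natCast] at this
        exact this) θ hθ hθ1
  refine ⟨r0, hr0, fun r hr => ⟨?_, (h r hr).1, (h r hr).2⟩⟩
  intro m h1 h2 p hp hd
  have hm : 1 ≤ m := by
    rcases Nat.eq_zero_or_pos m with rfl | hm
    · exact absurd h1 (by norm_num)
    · exact hm
  have hp2 : m < p := by
    rcases (hp.dvd_mul).1 hd with hd | hd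
    · rw [(Nat.prime_dvd_prime_iff_eq hp h1).1 hd]
      nlinarith
    · rw [(Nat.prime_dvd_prime_iff_eq hp h2).1 hd]
      nlinarith
  have hr1 : (1 : ℝ) ≤ r := by exact_mod_cast (by omega : 1 ≤ r)
  have hm1 : (1 : ℝ) ≤ m := by exact_mod_cast hm
  calc (m : ℝ) ^ (1 / (r : ℝ)) ≤ (m : ℝ) ^ (1 : ℝ) :=
        Real.rpow_le_rpow_of_exponent_le hm1 (by rw [div_le_one (by linarith)]; exact hr1)
    _ = m := Real.rpow_one _
    _ < p := by exact_mod_cast hp2

end Pool.Agent.Results.MP_2dba45_nt.RegularNeighbourhoods
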