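import Mathlib
import Pool.Agent.Q273.AD.AbcQ2
import Pool.Agent.Q177.AD.Trq
import Pool.Agent.Q225.AD.Cnvq
import Pool.Agent.Q273.ApxF
import Pool.Agent.Q273.ApxQ
import Pool.Agent.Q273.AbcR

/-!
# Oesterlé's inequality near almost every adele

Every rational number `r = p / q ≠ 0, 1` gives the abc triple formed by `|p|`, `q` and `|p - q|`, with
largest member `c`; every abc triple is of this form. An integral adelic point `u = (ξ, η)` consists of a
real number `ξ` and of a `p`-adic integer `η_p` for every prime `p`. For a finite set `V` of primes let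
`m_V(r) = log max (1, 1 / |ξ - r|) + ∑_(p ∈ V) log max (1, 1 / |η_p - r|_p)`.

For almost every `u` (Lebesgue measure times Haar measure), every `V` and every `δ > 0` Oesterlé's
inequality `c < rad(abc) ^ M` holds, with finitely many exceptions, for ALL triples with
`m_V ≥ δ log c`, as soon as `M > G(δ)`, where `G` is an explicit decreasing function,
`G(δ) = 4 / (7 δ)` for small `δ` and `G(δ) = 1 / (1 + δ)` for `δ > 1`. For `1 ≤ δ ≤ 2` the number
`1 / (1 + δ)` is the exact exponent: it is the largest limit of the qualities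
`log c / log rad(abc)` of the triples with `m_V / log c → δ`.
-/

set_option autoImplicit false

open MeasureTheory

namespace Pool.Agent.Results.MP_2ec8a3_nt.AlmostEveryAdele

/-- the radical `rad(m)`: the product of the distinct primes dividing `m` -/
def rad (m : ℕ) : ℕ := ∏ p ∈ m.primeFactors, p

/-- the largest member `c` of the triple of `r = p / q`, formed by `|p|`, `q` and `|p - q|` -/
def c (r : ℚ) : ℕ := max (max r.num.natAbs r.den) (r.num - r.den).natAbs

/-- the product `abc` of the three members of the triple of `r = p / q` -/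
def abc (r : ℚ) : ℕ := r.num.natAbs * r.den * (r.num - r.den).natAbs

/-- the exponent in Oesterlé's inequality, as a function of the quality of the approximation -/
noncomputable def G (δ : ℝ) : ℝ :=
  if δ ≤ 8 / 21 then 4 / (7 * δ)
  else if δ ≤ 15 / 28 then 13 / (28 * δ - 2)
  else if δ ≤ 5 / 6 then 50 / (84 * δ + 5)
  else if δ ≤ 1 then 9 / (15 * δ + 1)
  else 1 / (1 + δ)

/-- the product of the rings of `p`-adic integers over all primes `p`, with the product topology -/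
abbrev ZHat : Type := (p : Nat.Primes) → @PadicInt p.1 ⟨p.2⟩

/-- the proximity function at the infinite place: `log max (1, 1 / |ξ - r|)` -/
noncomputable def mInf (u : ℝ × ZHat) (r : ℚ) : ℝ := Real.log (max 1 |u.1 - (r : ℝ)|⁻¹)

/-- the proximity function at the prime `p`: `log max (1, 1 / |η_p - r|_p)` -/
noncomputable def mP (u : ℝ × ZHat) (p : Nat.Primes) (r : ℚ) : ℝ :=
  haveI : Fact p.1.Prime := ⟨p.2⟩
  Real.log (max 1 ‖((u.2 p : ℤ_[p.1]) : ℚ_[p.1]) - (r : ℚ_[p.1])‖⁻¹)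

/-- the proximity function at the infinite place and at the primes in `V` -/
noncomputable def m (V : Finset Nat.Primes) (u : ℝ × ZHat) (r : ℚ) : ℝ :=
  mInf u r + ∑ p ∈ V, mP u p r

/-- the exponent of the metric law for triples -/
noncomputable def F (lam : ℝ) : ℝ :=
  if lam ≤ 2 / 3 then 4 * lam / 7
  else if lam ≤ 1 then (13 * lam + 2) / 28
  else if lam ≤ 3 / 2 then 5 * (10 * lam - 1) / 84
  else if lam ≤ 16 / 9 then (9 * lam - 1) / 15
  else if lam ≤ 2 then 1
  else lam - 1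

lemma G_pos {δ : ℝ} (hδ : 0 < δ) : 0 < G δ := by
  unfold G
  split_ifs with h1 h2 h3 h4
  · positivity
  · exact div_pos (by norm_num) (by linarith)
  · exact div_pos (by norm_num) (by linarith)
  · exact div_pos (by norm_num) (by linarith)
  · positivity

/-- below `1 / G(δ)` the function `F` is smaller than `δ` -/
lemma F_lt {δ lam : ℝ} (hδ : 0 < δ) (h : lam * G δ < 1) : F lam < δ := by
  unfold G at h
  unfold F
  split_ifs at h with h1 h2 h3 h4
  · rw [mul_div_assoc', div_lt_one (by positivity)] at h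
    split_ifs <;> linarith
  · rw [mul_div_assoc', div_lt_one (by linarith)] at h
    split_ifs <;> linarith
  · rw [mul_div_assoc', div_lt_one (by linarith)] at h
    split_ifs <;> linarith
  · rw [mul_div_assoc', div_lt_one (by linarith)] at h
    split_ifs <;> linarith
  · rw [mul_div_assoc', mul_one, div_lt_one (by linarith)] at h
    split_ifs <;> linarith

lemma F_mono {a b : ℝ} (h : a ≤ b) : F a ≤ F b := by
  unfold F
  split_ifs <;> linarith

lemma one_le_c (r : ℚ) : 1 ≤ c r :=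
  (Nat.succ_le_of_lt r.den_pos).trans ((le_max_right _ _).trans (le_max_left _ _))

lemma two_le_c {r : ℚ} (h0 : r ≠ 0) (h1 : r ≠ 1) : 2 ≤ c r := by
  by_contra hcon
  have h2 : c r ≤ 1 := by omega
  have h3 : r.num.natAbs ≤ 1 := ((le_max_left _ _).trans (le_max_left _ _)).trans h2
  have h4 : r.den ≤ 1 := ((le_max_right _ _).trans (le_max_left _ _)).trans h2
  have h5 : (r.num - r.den).natAbs ≤ 1 := (le_max_right _ _).trans h2
  have h6 : r.den = 1 := le_antisymm h4 r.den_pos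
  have h7 : r.num ≠ 0 := Rat.num_ne_zero.2 h0
  have h8 : r.num ≠ 1 := by
    intro h
    apply h1
    rw [← Rat.num_div_den r, h, h6]
    norm_num
  rw [h6] at h5
  omega

lemma rad_pos (n : ℕ) : 0 < rad n :=
  Finset.prod_pos fun _ hp => (Nat.prime_of_mem_primeFactors hp).pos

lemma finite_c (B : ℝ) : {r : ℚ | (c r : ℝ) ≤ B}.Finite := by
  have h1 : {r : ℚ | (c r : ℝ) ≤ B} ⊆ (fun t : ℤ × ℤ => (t.1 : ℚ) / t.2) ''
      ((Finset.Icc (-⌊B⌋) ⌊B⌋ ×ˢ Finset.Icc (-⌊B⌋) ⌊B⌋ : Finset (ℤ × ℤ)) : Set (ℤ × ℤ)) := by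
    intro r hr
    have hr' : (c r : ℝ) ≤ B := hr
    have h2 : ((r.num.natAbs : ℕ) : ℝ) ≤ B := le_trans (by
      exact_mod_cast (le_max_left _ _).trans (le_max_left _ _)) hr'
    have h3 : ((r.den : ℕ) : ℝ) ≤ B := le_trans (by
      exact_mod_cast (le_max_right _ _).trans (le_max_left _ _)) hr'
    refine ⟨(r.num, (r.den : ℤ)), ?_, ?_⟩
    · rw [Finset.mem_coe, Finset.mem_product, Finset.mem_Icc, Finset.mem_Icc]
      have h4 : |(r.num : ℝ)| ≤ B := by
        rwa [Nat.cast_natAbs, Int.cast_abs] at h2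
      have h5 := abs_le.1 h4
      refine ⟨⟨?_, Int.le_floor.2 h5.2⟩, ?_, Int.le_floor.2 (by exact_mod_cast h3)⟩
      · have : -r.num ≤ ⌊B⌋ := Int.le_floor.2 (by push_cast; linarith)
        linarith
      · have h6 : (0 : ℤ) ≤ ⌊B⌋ := Int.floor_nonneg.2 (le_trans (Nat.cast_nonneg _) h3)
        have h7 : (0 : ℤ) ≤ (r.den : ℤ) := Int.natCast_nonneg _
        linarith
    · simp only
      push_cast
      exact Rat.num_div_den r
  exact Set.Finite.subset ((Finset.finite_toSet _).image _) h1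

lemma rad_mul {a b : ℕ} (h : Nat.Coprime a b) : rad (a * b) = rad a * rad b := by
  unfold rad
  rw [h.primeFactors_mul, Finset.prod_union h.disjoint_primeFactors]

lemma log_rad_abc (r : ℚ) : Real.log (rad (abc r)) = Real.log (rad r.num.natAbs) +
    Real.log (rad (r.num - r.den).natAbs) + Real.log (rad r.den) := by
  have h1 : Nat.Coprime r.num.natAbs r.den := r.reduced
  have hZ : IsCoprime r.num (r.den : ℤ) := by
    rw [Int.isCoprime_iff_gcd_eq_one]
    exact h1
  have h2 : Nat.Coprime r.num.natAbs (r.num - r.den).natAbs := by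
    have h3 : IsCoprime r.num (r.num - r.den) := by
      obtain ⟨a, b, hab⟩ := hZ
      exact ⟨a + b, -b, by linarith⟩
    exact Int.isCoprime_iff_gcd_eq_one.1 h3
  have h4 : Nat.Coprime r.den (r.num - r.den).natAbs := by
    have h3 : IsCoprime (r.den : ℤ) (r.num - r.den) := by
      obtain ⟨a, b, hab⟩ := hZ
      exact ⟨a + b, a, by linarith⟩
    exact Int.isCoprime_iff_gcd_eq_one.1 h3
  have h5 : Nat.Coprime (r.num.natAbs * r.den) (r.num - r.den).natAbs :=
    Nat.Coprime.mul_left h2 h4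
  have p1 : (0 : ℝ) < rad r.num.natAbs := by exact_mod_cast rad_pos _
  have p2 : (0 : ℝ) < rad r.den := by exact_mod_cast rad_pos _
  have p3 : (0 : ℝ) < rad (r.num - r.den).natAbs := by exact_mod_cast rad_pos _
  unfold abc
  rw [rad_mul h5, rad_mul h1]
  push_cast
  rw [Real.log_mul (by positivity) p3.ne', Real.log_mul p1.ne' p2.ne']
  ring

theorem metric [MeasurableSpace ZHat] [BorelSpace ZHat] (μ : Measure ZHat) [IsFiniteMeasure μ]
    [μ.IsAddLeftInvariant] :
    ∀ᵐ u : ℝ × ZHat ∂(volume.prod μ), ∀ V : Finset Nat.Primes,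
      (∀ δ M : ℝ, 0 < δ → G δ < M →
        {r : ℚ | r ≠ 0 ∧ r ≠ 1 ∧ δ * Real.log (c r) ≤ m V u r ∧
          ¬ (c r : ℝ) < (rad (abc r) : ℝ) ^ M}.Finite) ∧
      ∀ δ : ℝ, 1 ≤ δ → δ ≤ 2 → ∀ ε B : ℝ, 0 < ε →
        ∃ r : ℚ, r ≠ 0 ∧ r ≠ 1 ∧ B ≤ (c r : ℝ) ∧ |m V u r / Real.log (c r) - δ| ≤ ε ∧
          |Real.log (c r) / Real.log (rad (abc r)) - 1 / (1 + δ)| ≤ ε := by
  filter_upwards [Q273.AD.allQ1 Pool.Agent.Q225.AD.cnvq Pool.Agent.Q177.AD.trq μ] with u hu
  intro V
  obtain ⟨h1, h3⟩ := hu V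
  have hlaw : ∀ ε : ℝ, 0 < ε → ∃ C : ℝ, ∀ r : ℚ, r ≠ 0 → r ≠ 1 →
      m V u r ≤ (F (Real.log (rad (abc r)) / Real.log (c r)) + ε) * Real.log (c r) + C :=
    fun ε hε => h1 ε hε
  refine ⟨fun δ M hδ hM => ?_, fun δ hδ1 hδ2 ε B hε => ?_⟩
  · have hM0 : 0 < M := (G_pos hδ).trans hM
    -- the value of `F` at `1 / M`
    have hFlt : F (1 / M) < δ := F_lt hδ (by
      rw [one_div, inv_mul_lt_iff₀ hM0, mul_one]
      exact hM)
    obtain ⟨C, hC⟩ := hlaw ((δ - F (1 / M)) / 2) (by linarith)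
    refine Set.Finite.subset (finite_c (Real.exp (2 * |C| / (δ - F (1 / M))))) ?_
    rintro r ⟨hr0, hr1, hr2, hr3⟩
    rw [not_lt] at hr3
    have hc2 : (2 : ℝ) ≤ c r := by exact_mod_cast two_le_c hr0 hr1
    have hL : 0 < Real.log (c r) := Real.log_pos (by linarith)
    have hR : (0 : ℝ) < rad (abc r) := by exact_mod_cast rad_pos _
    have h4 : M * Real.log (rad (abc r)) ≤ Real.log (c r) := by
      have h5 := Real.log_le_log (Real.rpow_pos_of_pos hR M) hr3
      rwa [Real.log_rpow hR] at h5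
    have h6 : Real.log (rad (abc r)) / Real.log (c r) ≤ 1 / M := by
      rw [div_le_div_iff₀ hL hM0]
      linarith
    have h7 := F_mono h6
    have h8 := hC r hr0 hr1
    have h9 : (δ - F (1 / M)) / 2 * Real.log (c r) ≤ C := by
      have h10 := mul_le_mul_of_nonneg_right h7 hL.le
      nlinarith
    show (c r : ℝ) ≤ Real.exp (2 * |C| / (δ - F (1 / M)))
    rw [← Real.log_le_iff_le_exp (by linarith), le_div_iff₀ (by linarith)]
    have h11 := le_abs_self C
    nlinarith
  · set N : ℝ := (V.card : ℝ) + 1 with hN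
    have hV0 : (0 : ℝ) ≤ V.card := Nat.cast_nonneg _
    set ε' : ℝ := min (ε / (3 * N)) (1 / 3) with hε'
    have hε0 : 0 < ε' := lt_min (by positivity) (by norm_num)
    have hε1 : N * ε' ≤ ε := by
      have h4 : ε' ≤ ε / (3 * N) := min_le_left _ _
      have h5 : N * ε' ≤ N * (ε / (3 * N)) := mul_le_mul_of_nonneg_left h4 (by linarith)
      have hN0 : N ≠ 0 := by linarith
      have h6 : N * (ε / (3 * N)) = ε / 3 := by
        rw [mul_comm (3 : ℝ) N, ← div_div, mul_div_assoc', mul_div_assoc', mul_div_cancel_left₀ _ hN0]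
      linarith
    have hε2 : 3 * ε' ≤ ε := by
      have h4 : ε' ≤ ε / (3 * N) := min_le_left _ _
      have h5 : ε / (3 * N) ≤ ε / 3 := by
        apply div_le_div_of_nonneg_left hε.le (by norm_num)
        linarith
      linarith
    have hε3 : 3 * ε' ≤ 1 := by
      have h4 : ε' ≤ 1 / 3 := min_le_right _ _
      linarith
    obtain ⟨r, hr0, hr1, hB, g1, g2, g3, g4, g5⟩ := h3 δ (fun _ => 0) (fun _ => (2 - δ) / 3)
      (by linarith) (fun _ => le_rfl) (fun _ => by linarith)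
      (by rw [Fin.sum_univ_three]; linarith)
      (by rw [Fin.sum_univ_three, Finset.sum_const_zero]; linarith) ε' hε0 (max (Real.log (max B 1)) 1)
    have hc2 : (2 : ℝ) ≤ c r := by exact_mod_cast two_le_c hr0 hr1
    have hL : 0 < Real.log (c r) := Real.log_pos (by linarith)
    have g1' : |mInf u r - δ * Real.log (c r)| ≤ ε' * Real.log (c r) := g1
    have g2' : ∀ p ∈ V, |mP u p r| ≤ ε' * Real.log (c r) := by
      intro p hp
      have h5 : |mP u p r - 0 * Real.log (c r)| ≤ ε' * Real.log (c r) := g2 p hp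
      rwa [zero_mul, sub_zero] at h5
    refine ⟨r, hr0, hr1, ?_, ?_, ?_⟩
    · have h5 : Real.log (max B 1) ≤ Real.log (c r) := (le_max_left _ _).trans hB
      have h6 := (Real.log_le_log_iff (lt_of_lt_of_le one_pos (le_max_right _ _))
        (by linarith)).1 h5
      exact (le_max_left _ _).trans h6
    · rw [div_sub' hL.ne', abs_div, abs_of_pos hL, div_le_iff₀ hL, mul_comm (Real.log (c r))]
      have h5 : |∑ p ∈ V, mP u p r| ≤ V.card * (ε' * Real.log (c r)) := by
        refine (Finset.abs_sum_le_sum_abs _ _).trans ?_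
        refine (Finset.sum_le_card_nsmul _ _ _ g2').trans ?_
        rw [nsmul_eq_mul]
      have h6 : m V u r - δ * Real.log (c r) =
          (mInf u r - δ * Real.log (c r)) + ∑ p ∈ V, mP u p r := by
        unfold m; ring
      rw [h6]
      refine (abs_add_le _ _).trans ?_
      have h7 : ε' * Real.log (c r) + V.card * (ε' * Real.log (c r)) =
          (N * ε') * Real.log (c r) := by rw [hN]; ring
      have h8 := mul_le_mul_of_nonneg_right hε1 hL.le
      linarith
    · have g3' : |Real.log (rad r.num.natAbs) - (1 - (2 - δ) / 3) * Real.log (c r)| ≤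
        ε' * Real.log (c r) := g3
      have g4' : |Real.log (rad (r.num - r.den).natAbs) - (1 - (2 - δ) / 3) * Real.log (c r)| ≤
        ε' * Real.log (c r) := g4
      have g5' : |Real.log (rad r.den) - (1 - (2 - δ) / 3) * Real.log (c r)| ≤
        ε' * Real.log (c r) := g5
      have a3 := abs_le.1 g3'
      have a4 := abs_le.1 g4'
      have a5 := abs_le.1 g5'
      have hsum := log_rad_abc r
      set L : ℝ := Real.log (c r) with hLd
      set R : ℝ := Real.log (rad (abc r)) with hRd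
      have b1 : |R - (1 + δ) * L| ≤ 3 * ε' * L := by
        rw [abs_le]
        constructor <;> nlinarith
      have b2 := abs_le.1 b1
      have b3 : L ≤ R := by nlinarith
      have hR0 : 0 < R := by linarith
      have b4 : L / R - 1 / (1 + δ) = -(R - (1 + δ) * L) / (R * (1 + δ)) := by
        have h7 : (1 : ℝ) + δ ≠ 0 := by linarith
        rw [div_sub_div _ _ hR0.ne' h7]
        congr 1
        ring
      rw [b4, abs_div, abs_neg, abs_of_pos (mul_pos hR0 (by linarith : (0 : ℝ) < 1 + δ)),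
        div_le_iff₀ (mul_pos hR0 (by linarith))]
      have b5 : 3 * ε' * L ≤ ε * (R * (1 + δ)) := by
        have b6 : 3 * ε' * L ≤ ε * L := mul_le_mul_of_nonneg_right hε2 hL.le
        have b7 : L ≤ R * (1 + δ) := by nlinarith
        have b8 := mul_le_mul_of_nonneg_left b7 hε.le
        linarith
      linarith

theorem c_pos (r : ℚ) : 1 ≤ c r :=
  (Nat.one_le_iff_ne_zero.2 r.den_pos.ne').trans ((le_max_right _ _).trans (le_max_left _ _))

theorem two_le_rad {r : ℚ} (h0 : r ≠ 0) (h1 : r ≠ 1) : 2 ≤ rad (abc r) := by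
  have hnum : r.num ≠ 0 := Rat.num_ne_zero.2 h0
  have hden : 0 < r.den := r.den_pos
  have hne : r.num ≠ (r.den : ℤ) := by
    intro h
    apply h1
    have h3 := Rat.num_div_den r
    rw [h] at h3
    rw [← h3]
    have : (r.den : ℚ) ≠ 0 := by exact_mod_cast hden.ne'
    push_cast
    exact div_self this
  have h2 : abc r ≠ 0 := by
    unfold abc
    have h3 : r.num.natAbs ≠ 0 := by omega
    have h4 : (r.num - r.den).natAbs ≠ 0 := by omega
    positivity
  have h3 : 2 ∣ abc r := by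
    unfold abc
    rcases Int.emod_two_eq_zero_or_one r.num with h | h
    · have : 2 ∣ r.num.natAbs := by omega
      exact (this.mul_right _).mul_right _
    · rcases Nat.mod_two_eq_zero_or_one r.den with h' | h'
      · have : 2 ∣ r.den := by omega
        exact (this.mul_left _).mul_right _
      · have : 2 ∣ (r.num - r.den).natAbs := by omega
        exact this.mul_left _
  have h4 : 2 ∈ (abc r).primeFactors := Nat.mem_primeFactors.2 ⟨Nat.prime_two, h3, h2⟩
  unfold rad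
  exact Nat.le_of_dvd (Finset.prod_pos fun p hp => (Nat.prime_of_mem_primeFactors hp).pos)
    (Finset.dvd_prod_of_mem _ h4)

theorem F_small {M : ℝ} (hM : 3 / 2 ≤ M) : Q273.AbcR.F (1 / M) = 4 / (7 * M) := by
  have h1 : 1 / M ≤ 2 / 3 := by
    rw [div_le_div_iff₀ (by linarith) (by norm_num)]
    linarith
  unfold Q273.AbcR.F
  rw [if_pos h1]
  field_simp

/-- a triple which does not satisfy `c < rad ^ M` satisfies `rad ≤ c ^ (1 / M)` -/
theorem of_not {r : ℚ} {M : ℝ} (hM : 0 < M) (h : ¬ (c r : ℝ) < (rad (abc r) : ℝ) ^ M) :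
    (rad (abc r) : ℝ) ≤ 1 * (c r : ℝ) ^ (1 / M) := by
  rw [one_mul]
  push Not at h
  calc (rad (abc r) : ℝ) = ((rad (abc r) : ℝ) ^ M) ^ (1 / M) := by
        rw [← Real.rpow_mul (Nat.cast_nonneg _), mul_one_div_cancel hM.ne', Real.rpow_one]
    _ ≤ _ := Real.rpow_le_rpow (by positivity) h (by positivity)

theorem real_targets :
    (∃ E : Set ℝ, dimH E = 0 ∧ ∀ ξ : ℝ, ξ ∉ E → ∀ τ A : ℝ, 0 < τ → ∃ M : ℝ,
      ∀ r : ℚ, r ≠ 0 → r ≠ 1 → |ξ - r| ≤ A * (c r : ℝ) ^ (-τ) →
        (c r : ℝ) < (rad (abc r) : ℝ) ^ M) ∧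
    (∀ τ M : ℝ, 0 < τ → τ < 2 → 3 / 2 ≤ M → 4 / (7 * (2 - τ)) < M → ∀ ξ : ℝ, Irrational ξ →
      {r : ℚ | r ≠ 0 ∧ r ≠ 1 ∧ |ξ - r| ≤ (c r : ℝ) ^ (-τ) ∧
        (c r : ℝ) < (rad (abc r) : ℝ) ^ M}.Infinite) := by
  constructor
  · have key : ∀ n k : ℕ, ∃ E : Set ℝ,
        dimH E ≤ ENNReal.ofReal (4 / (7 * ((k : ℝ) + 2)) * ((n : ℝ) + 1)) ∧
        ∀ ξ : ℝ, ξ ∉ E → ∀ A : ℝ, {r : ℚ | (r ≠ 0 ∧ r ≠ 1 ∧
          (rad (abc r) : ℝ) ≤ 1 * (c r : ℝ) ^ (1 / ((k : ℝ) + 2))) ∧
            dist ξ (r : ℝ) ≤ A * (c r : ℝ) ^ (-(1 / ((n : ℝ) + 1)))}.Finite := by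
      intro n k
      have hk : (0 : ℝ) ≤ k := Nat.cast_nonneg k
      have hlam : (0 : ℝ) < 1 / ((k : ℝ) + 2) := by positivity
      obtain ⟨E, hE1, hE2⟩ := Q273.Apx.approx {r : ℚ | r ≠ 0 ∧ r ≠ 1 ∧
          (rad (abc r) : ℝ) ≤ 1 * (c r : ℝ) ^ (1 / ((k : ℝ) + 2))}
        (fun r => (c r : ℝ)) (fun r : ℚ => (r : ℝ))
        (s := Q273.AbcR.F (1 / ((k : ℝ) + 2))) (τ := 1 / ((n : ℝ) + 1))
        (Q273.AbcR.F_nonneg hlam) (by positivity)
        (fun ε hε => Q273.AbcR.count hlam 1 ε hε)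
      refine ⟨E, hE1.trans (ENNReal.ofReal_le_ofReal ?_), hE2⟩
      rw [div_div_eq_mul_div, div_one, F_small (by linarith)]
    choose E hE1 hE2 using key
    refine ⟨⋃ n, ⋂ k, E n k, ?_, fun ξ hξ τ A hτ => ?_⟩
    · rw [dimH_iUnion]
      simp only [ENNReal.iSup_eq_zero]
      intro n
      have h1 : ∀ k : ℕ, dimH (⋂ k, E n k) ≤
          ENNReal.ofReal (4 / (7 * ((k : ℝ) + 2)) * ((n : ℝ) + 1)) := fun k =>
        (dimH_mono (Set.iInter_subset _ k)).trans (hE1 n k)
      have h2 : Filter.Tendsto (fun k : ℕ =>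
          ENNReal.ofReal (4 / (7 * ((k : ℝ) + 2)) * ((n : ℝ) + 1))) Filter.atTop
          (nhds (ENNReal.ofReal 0)) := by
        apply ENNReal.tendsto_ofReal
        have h3 : Filter.Tendsto (fun k : ℕ => (k : ℝ) + 2) Filter.atTop Filter.atTop :=
          Filter.tendsto_atTop_add_const_right _ _ tendsto_natCast_atTop_atTop
        have h4 := (h3.const_mul_atTop (by norm_num : (0 : ℝ) < 7)).const_div_atTop 4
        simpa using h4.mul_const ((n : ℝ) + 1)
      rw [ENNReal.ofReal_zero] at h2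
      exact le_antisymm (ge_of_tendsto' h2 h1) zero_le
    · obtain ⟨n, hn⟩ := exists_nat_one_div_lt hτ
      have hξ' : ξ ∉ ⋂ k, E n k := fun h => hξ (Set.mem_iUnion.2 ⟨n, h⟩)
      rw [Set.mem_iInter] at hξ'
      push Not at hξ'
      obtain ⟨k, hk⟩ := hξ'
      have hfin := hE2 n k ξ hk |A|
      have hk0 : (0 : ℝ) ≤ k := Nat.cast_nonneg k
      obtain ⟨L, hL⟩ := (hfin.image (fun r => (c r : ℝ))).bddAbove
      obtain ⟨m, hm⟩ := pow_unbounded_of_one_lt L (one_lt_two : (1 : ℝ) < 2)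
      refine ⟨max ((k : ℝ) + 2) m, ?_⟩
      intro r hr0 hr1 hdist
      have h2 := two_le_rad hr0 hr1
      have h2r : (2 : ℝ) ≤ (rad (abc r) : ℝ) := by exact_mod_cast h2
      have hc1 : (1 : ℝ) ≤ (c r : ℝ) := by exact_mod_cast c_pos r
      by_cases hbad : (rad (abc r) : ℝ) ≤ 1 * (c r : ℝ) ^ (1 / ((k : ℝ) + 2))
      · have hmem : r ∈ {r : ℚ | (r ≠ 0 ∧ r ≠ 1 ∧
          (rad (abc r) : ℝ) ≤ 1 * (c r : ℝ) ^ (1 / ((k : ℝ) + 2))) ∧
            dist ξ (r : ℝ) ≤ |A| * (c r : ℝ) ^ (-(1 / ((n : ℝ) + 1)))} := by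
          refine ⟨⟨hr0, hr1, hbad⟩, ?_⟩
          rw [Real.dist_eq]
          refine hdist.trans (mul_le_mul (le_abs_self A) ?_ (by positivity) (abs_nonneg A))
          exact Real.rpow_le_rpow_of_exponent_le hc1 (by linarith)
        have h3 : (c r : ℝ) ≤ L := hL ⟨r, hmem, rfl⟩
        calc (c r : ℝ) < 2 ^ m := lt_of_le_of_lt h3 hm
          _ = (2 : ℝ) ^ (m : ℝ) := (Real.rpow_natCast 2 m).symm
          _ ≤ (rad (abc r) : ℝ) ^ (m : ℝ) :=
              Real.rpow_le_rpow (by norm_num) h2r (Nat.cast_nonneg _)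
          _ ≤ _ := Real.rpow_le_rpow_of_exponent_le (by linarith) (le_max_right _ _)
      · have h3 : (c r : ℝ) < (rad (abc r) : ℝ) ^ ((k : ℝ) + 2) := by
          by_contra hcon
          exact hbad (of_not (by linarith) hcon)
        exact lt_of_lt_of_le h3 (Real.rpow_le_rpow_of_exponent_le (by linarith) (le_max_left _ _))
  · intro τ M hτ hτ2 hM hM2 ξ hξ
    have hM0 : 0 < M := by linarith
    have hlam : (0 : ℝ) < 1 / M := by positivity
    have hF := F_small hM
    have h1 : Q273.AbcR.F (1 / M) < 2 - τ := by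
      rw [hF]
      have h3 : (0 : ℝ) < 7 * (2 - τ) := by linarith
      rw [div_lt_iff₀ h3] at hM2
      rw [div_lt_iff₀ (by positivity)]
      linarith
    have h2 : Q273.AbcR.F (1 / M) < 1 := by
      rw [hF, div_lt_one (by positivity)]
      linarith
    have h := Q273.ApxQ.infinitely ξ hξ (Q273.AbcR.F_nonneg hlam) h2 hτ (by linarith)
      (fun r => (c r : ℝ)) 2 Q273.AbcR.le_Hr Q273.AbcR.Hr_le _
      (fun ε hε => Q273.AbcR.count hlam 1 ε hε)
    refine (h.sdiff (Set.toFinite ({0, 1} : Set ℚ))).mono ?_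
    rintro r ⟨⟨h3, h4⟩, h5⟩
    simp only [Set.mem_insert_iff, Set.mem_singleton_iff, not_or] at h5
    refine ⟨h5.1, h5.2, h4, ?_⟩
    by_contra hcon
    exact h3 ⟨h5.1, h5.2, of_not hM0 hcon⟩

/-- **Oesterlé's inequality near almost every adele.** A rational number `r = p / q ≠ 0, 1` gives the
abc triple formed by `|p|`, `q`, `|p - q|`, the largest of which is `c r`.
(A) Let `μ` be a finite translation invariant Borel measure on the compact group `ZHat` (a multiple of
Haar measure). For almost every `u = (ξ, η)` with respect to the product of Lebesgue measure and `μ`,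
for all finite sets `V` of primes: (1) for all `δ > 0` and `M > G δ` the inequality
`c < rad(abc) ^ M` holds for all but finitely many of the triples with `m_V ≥ δ log c`; (2) for
`1 ≤ δ ≤ 2` there are triples with `c → ∞`, `m_V / log c → δ` and with qualities
`log c / log rad(abc)` tending to `1 / (1 + δ)`, which is `G δ` for `δ > 1`.
(B) There is a set `E` of real numbers of Hausdorff dimension zero such that for every real
number `ξ` outside `E`, every `τ > 0` and every `A` there is an `M` with `c < rad (abc) ^ M` for all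
triples of rational numbers `r ≠ 0, 1` with `|ξ - r| ≤ A c ^ (-τ)`.
(C) For all `0 < τ < 2` and `M ≥ 3/2`, `M > 4 / (7 (2 - τ))`, and every irrational number `ξ`
there are infinitely many rational numbers `r ≠ 0, 1` with `|ξ - r| ≤ c ^ (-τ)` whose triple
satisfies `c < rad (abc) ^ M`. -/
theorem result :
    (∀ [MeasurableSpace ZHat] [BorelSpace ZHat] (μ : Measure ZHat) [IsFiniteMeasure μ]
      [μ.IsAddLeftInvariant], ∀ᵐ u : ℝ × ZHat ∂(volume.prod μ), ∀ V : Finset Nat.Primes,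
        (∀ δ M : ℝ, 0 < δ → G δ < M →
          {r : ℚ | r ≠ 0 ∧ r ≠ 1 ∧ δ * Real.log (c r) ≤ m V u r ∧
            ¬ (c r : ℝ) < (rad (abc r) : ℝ) ^ M}.Finite) ∧
        ∀ δ : ℝ, 1 ≤ δ → δ ≤ 2 → ∀ ε B : ℝ, 0 < ε →
          ∃ r : ℚ, r ≠ 0 ∧ r ≠ 1 ∧ B ≤ (c r : ℝ) ∧ |m V u r / Real.log (c r) - δ| ≤ ε ∧
            |Real.log (c r) / Real.log (rad (abc r)) - 1 / (1 + δ)| ≤ ε) ∧
    (∃ E : Set ℝ, dimH E = 0 ∧ ∀ ξ : ℝ, ξ ∉ E → ∀ τ A : ℝ, 0 < τ → ∃ M : ℝ,
      ∀ r : ℚ, r ≠ 0 → r ≠ 1 → |ξ - r| ≤ A * (c r : ℝ) ^ (-τ) →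
        (c r : ℝ) < (rad (abc r) : ℝ) ^ M) ∧
    (∀ τ M : ℝ, 0 < τ → τ < 2 → 3 / 2 ≤ M → 4 / (7 * (2 - τ)) < M → ∀ ξ : ℝ, Irrational ξ →
      {r : ℚ | r ≠ 0 ∧ r ≠ 1 ∧ |ξ - r| ≤ (c r : ℝ) ^ (-τ) ∧
        (c r : ℝ) < (rad (abc r) : ℝ) ^ M}.Infinite) :=
  ⟨fun μ _ _ => metric μ, real_targets⟩

end Pool.Agent.Results.MP_2ec8a3_nt.AlmostEveryAdele
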