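import Mathlib
import Pool.Agent.Q273.ApxF
import Pool.Agent.Q273.ApxQ
import Pool.Agent.Q273.AbcR

/-!
# Oesterlé's inequality at the approximations of real numbers

Every rational number `r = p / q ≠ 0, 1` gives the abc triple formed by `|p|`, `q` and `|p - q|`.
-/

set_option autoImplicit false

namespace Pool.Agent.Results.MP_2ec8a3_nt.GoodApproximations

/-- the radical `rad(m)`: the product of the distinct primes dividing `m` -/
def rad (m : ℕ) : ℕ := ∏ p ∈ m.primeFactors, p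

/-- the largest member `c` of the triple of `r = p / q`, formed by `|p|`, `q` and `|p - q|` -/
def c (r : ℚ) : ℕ := max (max r.num.natAbs r.den) (r.num - r.den).natAbs

/-- the product `abc` of the three members of the triple of `r = p / q` -/
def abc (r : ℚ) : ℕ := r.num.natAbs * r.den * (r.num - r.den).natAbs

private theorem c_pos (r : ℚ) : 1 ≤ c r :=
  (Nat.one_le_iff_ne_zero.2 r.den_pos.ne').trans ((le_max_right _ _).trans (le_max_left _ _))

private theorem two_le_rad {r : ℚ} (h0 : r ≠ 0) (h1 : r ≠ 1) : 2 ≤ rad (abc r) := by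
  have hnum : r.num ≠ 0 := Rat.num_ne_zero.2 h0
  have hden : 0 < r.den := r.den_pos
  have hne : r.num ≠ (r.den : ℤ) := by
    intro h
    apply h1
    have h3 := Rat.num_div_den r
    rw [h] at h3
    rw [← h3]
    have : (r.den : ℚ) ≠ 0 := by exact_mod_cast hden.ne'
    push_cast
    exact div_self this
  have h2 : abc r ≠ 0 := by
    unfold abc
    have h3 : r.num.natAbs ≠ 0 := by omega
    have h4 : (r.num - r.den).natAbs ≠ 0 := by omega
    positivity
  have h3 : 2 ∣ abc r := by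
    unfold abc
    rcases Int.emod_two_eq_zero_or_one r.num with h | h
    · have : 2 ∣ r.num.natAbs := by omega
      exact (this.mul_right _).mul_right _
    · rcases Nat.mod_two_eq_zero_or_one r.den with h' | h'
      · have : 2 ∣ r.den := by omega
        exact (this.mul_left _).mul_right _
      · have : 2 ∣ (r.num - r.den).natAbs := by omega
        exact this.mul_left _
  have h4 : 2 ∈ (abc r).primeFactors := Nat.mem_primeFactors.2 ⟨Nat.prime_two, h3, h2⟩
  unfold rad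
  exact Nat.le_of_dvd (Finset.prod_pos fun p hp => (Nat.prime_of_mem_primeFactors hp).pos)
    (Finset.dvd_prod_of_mem _ h4)

private theorem F_small {M : ℝ} (hM : 3 / 2 ≤ M) : Q273.AbcR.F (1 / M) = 4 / (7 * M) := by
  have h1 : 1 / M ≤ 2 / 3 := by
    rw [div_le_div_iff₀ (by linarith) (by norm_num)]
    linarith
  unfold Q273.AbcR.F
  rw [if_pos h1]
  field_simp

/-- a triple which does not satisfy `c < rad ^ M` satisfies `rad ≤ c ^ (1 / M)` -/
private theorem of_not {r : ℚ} {M : ℝ} (hM : 0 < M) (h : ¬ (c r : ℝ) < (rad (abc r) : ℝ) ^ M) :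
    (rad (abc r) : ℝ) ≤ 1 * (c r : ℝ) ^ (1 / M) := by
  rw [one_mul]
  push Not at h
  calc (rad (abc r) : ℝ) = ((rad (abc r) : ℝ) ^ M) ^ (1 / M) := by
        rw [← Real.rpow_mul (Nat.cast_nonneg _), mul_one_div_cancel hM.ne', Real.rpow_one]
    _ ≤ _ := Real.rpow_le_rpow (by positivity) h (by positivity)

/-- **Oesterlé's inequality at the approximations of real numbers.** A rational number
`r = p / q ≠ 0, 1` gives the abc triple formed by `|p|`, `q`, `|p - q|`, the largest of which is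
`c r`. (1) There is a set `E` of real numbers of Hausdorff dimension zero such that for every real
number `ξ` outside `E`, every `τ > 0` and every `A` there is an `M` with `c < rad (abc) ^ M` for all
triples of rational numbers `r ≠ 0, 1` with `|ξ - r| ≤ A c ^ (-τ)`.
(2) For all `0 < τ < 2` and `M ≥ 3/2`, `M > 4 / (7 (2 - τ))`, and every irrational number `ξ`
there are infinitely many rational numbers `r ≠ 0, 1` with `|ξ - r| ≤ c ^ (-τ)` whose triple
satisfies `c < rad (abc) ^ M`. -/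
theorem result :
    (∃ E : Set ℝ, dimH E = 0 ∧ ∀ ξ : ℝ, ξ ∉ E → ∀ τ A : ℝ, 0 < τ → ∃ M : ℝ,
      ∀ r : ℚ, r ≠ 0 → r ≠ 1 → |ξ - r| ≤ A * (c r : ℝ) ^ (-τ) →
        (c r : ℝ) < (rad (abc r) : ℝ) ^ M) ∧
    (∀ τ M : ℝ, 0 < τ → τ < 2 → 3 / 2 ≤ M → 4 / (7 * (2 - τ)) < M → ∀ ξ : ℝ, Irrational ξ →
      {r : ℚ | r ≠ 0 ∧ r ≠ 1 ∧ |ξ - r| ≤ (c r : ℝ) ^ (-τ) ∧
        (c r : ℝ) < (rad (abc r) : ℝ) ^ M}.Infinite) := by
  constructor
  · have key : ∀ n k : ℕ, ∃ E : Set ℝ,
        dimH E ≤ ENNReal.ofReal (4 / (7 * ((k : ℝ) + 2)) * ((n : ℝ) + 1)) ∧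
        ∀ ξ : ℝ, ξ ∉ E → ∀ A : ℝ, {r : ℚ | (r ≠ 0 ∧ r ≠ 1 ∧
          (rad (abc r) : ℝ) ≤ 1 * (c r : ℝ) ^ (1 / ((k : ℝ) + 2))) ∧
            dist ξ (r : ℝ) ≤ A * (c r : ℝ) ^ (-(1 / ((n : ℝ) + 1)))}.Finite := by
      intro n k
      have hk : (0 : ℝ) ≤ k := Nat.cast_nonneg k
      have hlam : (0 : ℝ) < 1 / ((k : ℝ) + 2) := by positivity
      obtain ⟨E, hE1, hE2⟩ := Q273.Apx.approx {r : ℚ | r ≠ 0 ∧ r ≠ 1 ∧
          (rad (abc r) : ℝ) ≤ 1 * (c r : ℝ) ^ (1 / ((k : ℝ) + 2))}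
        (fun r => (c r : ℝ)) (fun r : ℚ => (r : ℝ))
        (s := Q273.AbcR.F (1 / ((k : ℝ) + 2))) (τ := 1 / ((n : ℝ) + 1))
        (Q273.AbcR.F_nonneg hlam) (by positivity)
        (fun ε hε => Q273.AbcR.count hlam 1 ε hε)
      refine ⟨E, hE1.trans (ENNReal.ofReal_le_ofReal ?_), hE2⟩
      rw [div_div_eq_mul_div, div_one, F_small (by linarith)]
    choose E hE1 hE2 using key
    refine ⟨⋃ n, ⋂ k, E n k, ?_, fun ξ hξ τ A hτ => ?_⟩
    · rw [dimH_iUnion]
      simp only [ENNReal.iSup_eq_zero]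
      intro n
      have h1 : ∀ k : ℕ, dimH (⋂ k, E n k) ≤
          ENNReal.ofReal (4 / (7 * ((k : ℝ) + 2)) * ((n : ℝ) + 1)) := fun k =>
        (dimH_mono (Set.iInter_subset _ k)).trans (hE1 n k)
      have h2 : Filter.Tendsto (fun k : ℕ =>
          ENNReal.ofReal (4 / (7 * ((k : ℝ) + 2)) * ((n : ℝ) + 1))) Filter.atTop
          (nhds (ENNReal.ofReal 0)) := by
        apply ENNReal.tendsto_ofReal
        have h3 : Filter.Tendsto (fun k : ℕ => (k : ℝ) + 2) Filter.atTop Filter.atTop :=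
          Filter.tendsto_atTop_add_const_right _ _ tendsto_natCast_atTop_atTop
        have h4 := (h3.const_mul_atTop (by norm_num : (0 : ℝ) < 7)).const_div_atTop 4
        simpa using h4.mul_const ((n : ℝ) + 1)
      rw [ENNReal.ofReal_zero] at h2
      exact le_antisymm (ge_of_tendsto' h2 h1) zero_le
    · obtain ⟨n, hn⟩ := exists_nat_one_div_lt hτ
      have hξ' : ξ ∉ ⋂ k, E n k := fun h => hξ (Set.mem_iUnion.2 ⟨n, h⟩)
      rw [Set.mem_iInter] at hξ'
      push Not at hξ'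
      obtain ⟨k, hk⟩ := hξ'
      have hfin := hE2 n k ξ hk |A|
      have hk0 : (0 : ℝ) ≤ k := Nat.cast_nonneg k
      obtain ⟨L, hL⟩ := (hfin.image (fun r => (c r : ℝ))).bddAbove
      obtain ⟨m, hm⟩ := pow_unbounded_of_one_lt L (one_lt_two : (1 : ℝ) < 2)
      refine ⟨max ((k : ℝ) + 2) m, ?_⟩
      intro r hr0 hr1 hdist
      have h2 := two_le_rad hr0 hr1
      have h2r : (2 : ℝ) ≤ (rad (abc r) : ℝ) := by exact_mod_cast h2
      have hc1 : (1 : ℝ) ≤ (c r : ℝ) := by exact_mod_cast c_pos r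
      by_cases hbad : (rad (abc r) : ℝ) ≤ 1 * (c r : ℝ) ^ (1 / ((k : ℝ) + 2))
      · have hmem : r ∈ {r : ℚ | (r ≠ 0 ∧ r ≠ 1 ∧
          (rad (abc r) : ℝ) ≤ 1 * (c r : ℝ) ^ (1 / ((k : ℝ) + 2))) ∧
            dist ξ (r : ℝ) ≤ |A| * (c r : ℝ) ^ (-(1 / ((n : ℝ) + 1)))} := by
          refine ⟨⟨hr0, hr1, hbad⟩, ?_⟩
          rw [Real.dist_eq]
          refine hdist.trans (mul_le_mul (le_abs_self A) ?_ (by positivity) (abs_nonneg A))
          exact Real.rpow_le_rpow_of_exponent_le hc1 (by linarith)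
        have h3 : (c r : ℝ) ≤ L := hL ⟨r, hmem, rfl⟩
        calc (c r : ℝ) < 2 ^ m := lt_of_le_of_lt h3 hm
          _ = (2 : ℝ) ^ (m : ℝ) := (Real.rpow_natCast 2 m).symm
          _ ≤ (rad (abc r) : ℝ) ^ (m : ℝ) :=
              Real.rpow_le_rpow (by norm_num) h2r (Nat.cast_nonneg _)
          _ ≤ _ := Real.rpow_le_rpow_of_exponent_le (by linarith) (le_max_right _ _)
      · have h3 : (c r : ℝ) < (rad (abc r) : ℝ) ^ ((k : ℝ) + 2) := by
          by_contra hcon
          exact hbad (of_not (by linarith) hcon)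
        exact lt_of_lt_of_le h3 (Real.rpow_le_rpow_of_exponent_le (by linarith) (le_max_left _ _))
  · intro τ M hτ hτ2 hM hM2 ξ hξ
    have hM0 : 0 < M := by linarith
    have hlam : (0 : ℝ) < 1 / M := by positivity
    have hF := F_small hM
    have h1 : Q273.AbcR.F (1 / M) < 2 - τ := by
      rw [hF]
      have h3 : (0 : ℝ) < 7 * (2 - τ) := by linarith
      rw [div_lt_iff₀ h3] at hM2
      rw [div_lt_iff₀ (by positivity)]
      linarith
    have h2 : Q273.AbcR.F (1 / M) < 1 := by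
      rw [hF, div_lt_one (by positivity)]
      linarith
    have h := Q273.ApxQ.infinitely ξ hξ (Q273.AbcR.F_nonneg hlam) h2 hτ (by linarith)
      (fun r => (c r : ℝ)) 2 Q273.AbcR.le_Hr Q273.AbcR.Hr_le _
      (fun ε hε => Q273.AbcR.count hlam 1 ε hε)
    refine (h.sdiff (Set.toFinite ({0, 1} : Set ℚ))).mono ?_
    rintro r ⟨⟨h3, h4⟩, h5⟩
    simp only [Set.mem_insert_iff, Set.mem_singleton_iff, not_or] at h5
    refine ⟨h5.1, h5.2, h4, ?_⟩
    by_contra hcon
    exact h3 ⟨h5.1, h5.2, of_not hM0 hcon⟩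

end Pool.Agent.Results.MP_2ec8a3_nt.GoodApproximations
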