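import Pool.Agent.Q28.AL.Main

/-!
# The kernel of the Albanese map over the algebraic numbers and products of cycles

Let `F^2(X)` be the kernel of the Albanese map of `X` (rational coefficients; over an algebraically
closed field such as the algebraic numbers; the groups `F^2(X)` have no torsion). Without any
assumption, `F^2(X)` is the set of the push-forwards `h_* (x · y)`, for maps `h : Y → X` from
threefolds, homologically trivial curve classes `x` and divisor classes `y` in `Pic^0(Y)`. Hence the
conjecture of Beilinson, `F^2(X) = 0` for all `X`, holds if and only if the product of homologically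
trivial curves and of `Pic^0` vanishes on threefolds, if and only if the product of a homologically
trivial and of an algebraically trivial cycle of complementary dimension vanishes on all varieties.
The case of abelian varieties is equivalent to the case of products of two curves, and to the
vanishing of all products of two algebraically trivial cycles (in any codimensions). If it holds,
then the remaining part of the conjecture concerns the Griffiths groups of one-cycles on the
products `T × X`, `T` a curve.
-/

open CategoryTheory AlgebraicGeometry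

universe u v w

namespace Pool.Agent.Results.MP_2eeeac_ag.ProductsWithDivisors

open Pool.Agent.H914 Pool.Agent.H914.VarClass Pool.Agent.H914.VarClass.Obj Pool.Agent.W492.BB
  Pool.Agent.TH133 Pool.Agent.Q28.PV Pool.Agent.Q28.AL

/-- **The Albanese kernel and products of cycles.** Let `C` be the Chow theory with rational
coefficients and `H` a Weil cohomology theory on the smooth projective varieties over an
algebraically closed field, `Ab` the class of abelian varieties (`hF`: well-known facts on zero-cycles
and divisors). `AlbKernel H X z` says that `z` lies in `F^2(X)`.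

1. For every `X`, `F^2(X)` is the set of the `Γ_* a`, `T` a curve, `Γ ∈ CH^(dim X)(T × X)`
  homologically trivial, `a ∈ CH^1(T)` of degree zero, and it is the set of the `h_* (x · y)`,
  `h : Y → X`, `dim Y = 3`, `x ∈ CH^2(Y)_hom`, `y ∈ Pic^0(Y)`.
2. Equivalent: `F^2(X) = 0` for all `X`; for all surfaces; `CH^2(Y)_hom · Pic^0(Y) = 0` for all `Y`
  of dimension three; `CH^i(X)_hom · CH^j(X)_alg = 0` for all `X` and `i + j = dim X`.
3. Equivalent: `F^2(T × T') = 0` for all curves `T`, `T'`; `F^2(A) = 0` for all abelian varieties `A`;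
  `CH^i(X)_alg · CH^j(X)_alg = 0` for all `X`, `i`, `j`.
4. If the statements of 3 hold, then the map `Γ_*` from `CH^1(T)_0` to `CH^j(X)`, `T` a curve,
  depends only on the algebraic equivalence class of `Γ ∈ CH^j(T × X)`, for all `X` and `j`; and
  `F^2(X) = 0` for all those `X` for which homological and algebraic equivalence agree for one-cycles
  on the products `T × X`, `T` a curve. -/
theorem result {k : Type u} [Field k] {𝒱 : VarClass k} {C : TheoryData.{u, v, 0} 𝒱 ℚ}
    [IsChowProj C] {K : Type w} [Field K] {H : WeilTheoryData.{u, v, w} C K} [IsWeilProj H]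
    {Ab : 𝒱.Obj → Prop} (hF : Facts H Ab) :
    (∀ (X : 𝒱.Obj) (z : C.A X), [AlbKernel H X z,
      ∃ (T : 𝒱.Obj) (Γ : C.A (T.prod X)) (a : C.A T), T.dim = 1 ∧ HomTriv H (T.prod X) X.dim Γ ∧
        HomTriv H T 1 a ∧ z = C.act Γ a,
      ∃ (Y : 𝒱.Obj) (h : Y ⟶ X) (x y : C.A Y), Y.dim = 3 ∧ HomTriv H Y 2 x ∧
        AlgTriv H Y 1 y ∧ z = C.down h (C.mul x y)].TFAE) ∧
    [∀ (X : 𝒱.Obj) (z : C.A X), AlbKernel H X z → z = 0,
      ∀ (S : 𝒱.Obj) (z : C.A S), S.dim = 2 → AlbKernel H S z → z = 0,
      ∀ (Y : 𝒱.Obj) (x y : C.A Y), Y.dim = 3 → HomTriv H Y 2 x → AlgTriv H Y 1 y →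
        C.mul x y = 0,
      ∀ (X : 𝒱.Obj) (i j : ℕ) (x y : C.A X), i + j = X.dim → HomTriv H X i x →
        AlgTriv H X j y → C.mul x y = 0].TFAE ∧
    [∀ (T T' : 𝒱.Obj) (z : C.A (T.prod T')), T.dim = 1 → T'.dim = 1 →
        AlbKernel H (T.prod T') z → z = 0,
      ∀ (A : 𝒱.Obj) (z : C.A A), Ab A → AlbKernel H A z → z = 0,
      ∀ (X : 𝒱.Obj) (i j : ℕ) (x y : C.A X), AlgTriv H X i x → AlgTriv H X j y →
        C.mul x y = 0].TFAE ∧
    ((∀ (A : 𝒱.Obj) (z : C.A A), Ab A → AlbKernel H A z → z = 0) →
      (∀ (T X : 𝒱.Obj) (Γ Γ' : C.A (T.prod X)) (a : C.A T) (j : ℕ), T.dim = 1 →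
        AlgTriv H (T.prod X) j (Γ - Γ') → HomTriv H T 1 a → C.act Γ a = C.act Γ' a) ∧
      ∀ X : 𝒱.Obj, (∀ (T : 𝒱.Obj) (Γ : C.A (T.prod X)), T.dim = 1 →
        HomTriv H (T.prod X) X.dim Γ → AlgTriv H (T.prod X) X.dim Γ) →
          ∀ z : C.A X, AlbKernel H X z → z = 0) :=
  final hF

end Pool.Agent.Results.MP_2eeeac_ag.ProductsWithDivisors
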