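import Pool.Agent.Q187.SC.Main

/-!
# Sections and closed points of bounded degree

A section of the fundamental group of a hyperbolic curve over a number field comes from a rational
point or a rational cusp if and only if its neighbourhoods have closed points (or cusps) of bounded
degree. So the section conjecture over `k` holds if and only if there is a `d` such that all
hyperbolic curves over `k` (or only those of large genus) whose fundamental group has a section
have a closed point or cusp of degree at most `d`.
-/

namespace Pool.Agent.Results.MP_2f3286_ag.BoundedDegree

open Pool.Agent.Q187.SC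

universe u

theorem result {G : Type u} [Group G] [TopologicalSpace G] [IsTopologicalGroup G] [CompactSpace G]
    [T2Space G] (K K' : Curve G → Prop) (hK : IsHyperbolicClass K) (hK' : IsCofinal K K') :
    (∀ C, K C → ∀ σ : Sec C, (FromPoint C σ ↔ ∃ d, Bounded C σ d)) ∧
    (∀ d, 1 ≤ d → ((∀ C, K C → ∀ σ : Sec C, FromPoint C σ) ↔
      ∀ C, K' C → Nonempty (Sec C) → HasPoint C d)) :=
  ⟨fun C hC σ => criterion (hK.isCurve C hC) (hK.separated C hC) (hK.few C hC) σ,
    fun d hd => main_class hK hK' d hd⟩

end Pool.Agent.Results.MP_2f3286_ag.BoundedDegree
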