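import Pool.Agent.Q173.SEC.Core

/-!
# The section conjecture up to an error which is small with respect to the Euler characteristic
-/

set_option autoImplicit false

open Pool.Agent.Q173.SEC

namespace Pool.Agent.Results.MP_2f3286_ag.FewExoticSections

universe u

theorem result {K : Curve.{u} → Prop} (hK : IsHyperbolicClass K) :
    (∀ C, K C → (∃ σ : Sec C, ¬ FromPoint C σ) → ∀ n : ℕ,
      ∃ H : Subgroup C.P, IsOpen (H : Set C.P) ∧ n ≤ H.relIndex C.geom ∧
        Exotic (cover C H) (H.relIndex C.geom)) ∧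
    ((∀ C, K C → ∀ σ : Sec C, FromPoint C σ) ↔
      ∀ ε : ℝ, 0 < ε → ∃ B : ℕ, ∀ C, K C → B ≤ C.chi →
        ∀ n, Exotic C n → (n : ℝ) ≤ ε * C.chi) :=
  ⟨fun _ hC ⟨σ, hσ⟩ n => amplify hK hC σ hσ n, main hK⟩

end Pool.Agent.Results.MP_2f3286_ag.FewExoticSections
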