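import Pool.Agent.Q52.SecX.Loc

/-!
# Sections of 100% of the superelliptic twists over all extensions of bounded degree at once

Let `K` be a number field, `f ∈ K[x]` a separable polynomial of degree `m ≥ 3`, and `D` a natural
number such that some element `σ` of `Gal(K̄/K)` has on the set of the roots of `f` only orbits of
length greater than `D`; for instance `D < m` and the Galois group of `f` contains an `m`-cycle, or
`f` is a product of several factors and `σ` permutes the roots of every factor in one cycle of length
greater than `D`.  Let `M` be any natural number.  We prove, for all `a ∈ O_K` outside a set of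
density zero:

*Let `L` be an extension of `K` of degree at most `D`, `ℓ` a prime number that divides `m`, and
suppose that there are fewer than `M` primes of `K` all of whose ramification indices in `L` are
divisible by `ℓ`, or that `ℓ` does not divide `[L : K]`.  Then for all `n ≥ 1` divisible by `ℓ` the
curve `a yⁿ = f(x)` has no point over `L`, its fundamental group over `L`, that of its open subcurves
over `L` and that of all smooth curves over `L` which dominate it have no sections over `G_L`, and the
geometrically pro-`ℓ` fundamental group of the curve `a y^ℓ = f(x)` over `L` has no section.*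

So for almost all `a` the section conjecture holds (without points and sections) for these curves
over all the extensions `L` of `K` of degree at most `D` at the same time which are not very
strongly ramified: over all the extensions of degree prime to `ℓ`, over all the extensions that are
unramified at all but `M - 1` primes, and so on.  The condition cannot be left out, since the curve
`a y^ℓ = f(x)` has points over the fields `K((f(x)/a)^(1/ℓ))`, `x ∈ K`.  The exceptional set does not
depend on `L`, and has density zero in a strong sense: for every `ε > 0` there is an ideal `I ≠ 0` such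
that the exceptional `a` lie in at most `ε #(O_K/I)` residue classes modulo `I`.

For `D = 1` this is the theorem of `MP_2f3286_ag.SuperellipticTwists`, which treats `L = K`.  No
condition is imposed on the degrees of the factors of `f`: for instance, if `f` is a product of an
irreducible polynomial of degree 5 and one of degree 3 with sufficiently independent Galois groups,
then `D = 2` is allowed, and the curve `a y² = f(x)` has closed points of degree 3 and 5, so that its
index is one and no obstruction from the period and the index is available, over `K` or over a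
quadratic extension.  (If all the orbits of `σ` have a length divisible by `gcd(2, ℓ) ℓ`, then there
are no sections over any extension of degree prime to `ℓ`, see `MP_e66f84_ag.NormCurvesAnyField`.)

The fundamental group is described through valuations.  Let `U` be a smooth geometrically connected
curve over `k` with function field `F`, let `Ω` be an algebraic closure of `F`, and let `F_U` be the
maximal extension of `F` inside `Ω` which is unramified over the closed points of `U`, that is, over
their local rings, which are valuation rings of `F`.  Then `π₁(U) = Gal(F_U/F)`, and the map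
`π₁(U) → G_k` is the restriction of automorphisms to the algebraic closure of `k` in `Ω`.

Proof.  By the theorem of Chebotarev there are many primes `v` of `K` of degree one, such that `f` is
separable of the same degree modulo `v` and has no root in the extensions of degree at most `D` of
the residue field of `v`.  As the sum of the reciprocals of the norms of these primes diverges,
almost all `a ∈ O_K` are divisible exactly once by at least `M + 1` of them.  Let `L` be an extension of
degree at most `D`, `v` one of these primes, and `w` a prime of `L` above `v` whose ramification index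
`e` is not divisible by `ℓ`.  Then `f` has no root modulo `w`, and the valuation `e` of `a` at `w` is not
divisible by `ℓ`.  By the local theorem for superelliptic curves (`Pool.Agent.Y157.PS.fineP`, helper157)
the curve has no section over `L`.  So if there is a section over `L`, then the ramification indices
of all primes of `L` above all these `v` are divisible by `ℓ`, and so is the degree of `L`.
-/

open Polynomial NumberField IsDedekindDomain

namespace Pool.Agent.Results.MP_2f3286_ag.SmallExtensions

section definitions

variable (ℓ : ℕ) (k F Ω : Type) [Field k] [Field F] [Field Ω] [Algebra k F] [Algebra F Ω]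
  [Algebra k Ω]

/-- The inertia group of the valuation ring `W` of `Ω`, as a subgroup of `Gal(Ω/F)`: the
automorphisms of `Ω` over `F` that map `W` onto itself and act as the identity on its residue
field. -/
noncomputable def inertia (W : ValuationSubring Ω) : Subgroup (Ω ≃ₐ[F] Ω) :=
  (W.inertiaSubgroup F).map (W.decompositionSubgroup F).subtype

/-- `F_U`, for a set `U` of valuation rings of `F`: the elements of `Ω` fixed by the inertia groups
of all valuation rings `W` of `Ω` with `W ∩ F ∈ U`.  If `Ω` is an algebraic closure of a field `F`
of characteristic zero, this is the maximal extension of `F` in `Ω` unramified over `U`. -/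
noncomputable def unramified (U : Set (ValuationSubring F)) : IntermediateField F Ω :=
  ⨅ W : {W : ValuationSubring Ω // W.comap (algebraMap F Ω) ∈ U},
    IntermediateField.fixedField (inertia F Ω W.1)

/-- `k̄ F`, the compositum of `F` and of the algebraic closure of `k` in `Ω`. -/
noncomputable def geomField : IntermediateField F Ω :=
  IntermediateField.adjoin F (algebraicClosure k Ω : Set Ω)

/-- The algebraic extension `L` of `K` in `Ω` is unramified at all valuation rings of `Ω` that
contain `k`: every nonzero element of `L` has the same valuation as an element of `K`.  (If `K` is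
a function field of one variable over the algebraic closure of `k` and `k` has characteristic zero,
then this says that `L/K` is unramified over all points of the smooth projective curve.) -/
def Unramified {k K Ω : Type} [Field k] [Field K] [Field Ω] [Algebra k Ω] [Algebra K Ω]
    (L : IntermediateField K Ω) : Prop :=
  ∀ W : ValuationSubring Ω, (∀ c : k, algebraMap k Ω c ∈ W) → ∀ z ∈ L, z ≠ 0 →
    ∃ t : K, t ≠ 0 ∧ z / algebraMap K Ω t ∈ W ∧ (z / algebraMap K Ω t)⁻¹ ∈ W

/-- `L/K` is a finite Galois extension whose degree is a power of `ℓ`. -/
def FiniteProEll (ℓ : ℕ) {K Ω : Type} [Field K] [Field Ω] [Algebra K Ω]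
    (L : IntermediateField K Ω) : Prop :=
  FiniteDimensional K L ∧ IsGalois K L ∧ ∃ m : ℕ, Module.finrank K L = ℓ ^ m

/-- The maximal unramified pro-`ℓ` extension of `K` in `Ω`: the compositum of the finite Galois
extensions of `K` whose degree is a power of `ℓ` and which are unramified. -/
noncomputable def maxProEll (ℓ : ℕ) (k K Ω : Type) [Field k] [Field K] [Field Ω] [Algebra k Ω]
    [Algebra K Ω] : IntermediateField K Ω :=
  ⨆ L : {L : IntermediateField K Ω // FiniteProEll ℓ L ∧ Unramified (k := k) L}, L.1

/-- `M`, the maximal unramified pro-`ℓ` extension of `k̄ F` in `Ω`, as an extension of `F`. -/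
noncomputable def proEllField : IntermediateField F Ω :=
  (maxProEll ℓ k (geomField k F Ω) Ω).restrictScalars F

/-- The map `τ : M → M` acts as `σ : K → K` on the elements that the fields `K` and `M` have in
common when they are regarded as subfields of `Ω` through `i` and `j`. -/
def ActsAs {K M Ω : Type} [Field K] [Field M] [Field Ω] (i : K →+* Ω) (j : M →+* Ω) (σ : K → K)
    (τ : M → M) : Prop :=
  ∀ c z, j z = i c → j (τ z) = i (σ c)

/-- Let `k ⊆ K ⊆ Ω` and `F ⊆ N ⊆ Ω` be fields.  A splitting of `Gal(N/F) → Gal(K/k)`: a continuous
homomorphism `s` from `Gal(K/k)` to `Gal(N/F)` such that `s(σ)` acts as `σ` on the elements of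
`K ∩ N`. -/
structure Splitting (K N : Type) [Field K] [Field N] [Algebra k K] [Algebra F N] [Algebra K Ω]
    [Algebra N Ω] where
  /-- the homomorphism `Gal(K/k) → Gal(N/F)` -/
  toHom : (K ≃ₐ[k] K) →* (N ≃ₐ[F] N)
  cont : Continuous toHom
  compat : ∀ σ : K ≃ₐ[k] K, ActsAs (algebraMap K Ω) (algebraMap N Ω) σ (toHom σ)

/-- There are no sections of `Gal(N/F) → G_k`, where `G_k = Gal(k̄/k)` and `k̄` is the algebraic
closure of `k` in `Ω`.  For `N = F_U` these are the sections of `π₁(U) → G_k`. -/
def NoSplitting (N : IntermediateField F Ω) : Prop :=
  IsEmpty (Splitting k F Ω (algebraicClosure k Ω) N)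

end definitions

section curves

variable {k : Type} [Field k]

/-- The smooth projective curve with the affine equation `a yⁿ = f(x)` has no point over `k`:
neither in the affine part nor at infinity. -/
def NoPoint (n : ℕ) (a : k) (f : k[X]) : Prop :=
  (¬ ∃ x y : k, a * y ^ n = f.eval x) ∧
    ¬ ∃ r : k, a * r ^ Nat.gcd n f.natDegree = f.leadingCoeff

/-- Let `F` be any field over `k` that contains a point `(x, y)` of the curve `a yⁿ = f(x)`, for
instance the function field of the curve, and let `Ω` be an algebraic closure of `F`.  Then for
every set `U` of valuation rings of `F` over `k` there is no section of `π₁(U) → G_k`.  If `F` is the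
function field of the curve, such `U` are given by the smooth projective curve and by all its open
subcurves. -/
def NoSection (n : ℕ) (a : k) (f : k[X]) : Prop :=
  ∀ (F Ω : Type) [Field F] [Field Ω] [Algebra k F] [Algebra F Ω] [Algebra k Ω]
    [IsScalarTower k F Ω] [IsAlgClosure F Ω] (x y : F) (U : Set (ValuationSubring F)),
    algebraMap k F a * y ^ n = aeval x f → (∀ O ∈ U, ∀ c : k, algebraMap k F c ∈ O) →
      NoSplitting k F Ω (unramified F Ω U)

/-- Let `F = k(x, y)` be the function field of the curve `a y^ℓ = f(x)`, let `Ω` be an algebraic
closure of `F`, and let `M` be the maximal unramified pro-`ℓ` extension of `k̄ F`.  For all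
extensions `N ⊇ M` of `F` in `Ω`, in particular for `N = M`, there is no section of
`Gal(N/F) → G_k`. -/
def NoProEllSection (ℓ : ℕ) (a : k) (f : k[X]) : Prop :=
  ∀ (F Ω : Type) [Field F] [Field Ω] [Algebra k F] [Algebra F Ω] [Algebra k Ω]
    [IsScalarTower k F Ω] [IsAlgClosure F Ω] (x y : F), Transcendental k x →
    algebraMap k F a * y ^ ℓ = aeval x f →
    IntermediateField.adjoin k {x, y} = (⊤ : IntermediateField k F) →
    ∀ N : IntermediateField F Ω, proEllField ℓ k F Ω ≤ N → NoSplitting k F Ω N

end curves

section numberFields

/-- Some element `σ` of the Galois group of `K` has on the roots of `f` only orbits of length greater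
than `D`: the powers `σ, σ², …, σ^D` fix no root of `f`. -/
def LongOrbits {K : Type} [Field K] (D : ℕ) (f : K[X]) : Prop :=
  ∃ σ : AlgebraicClosure K ≃ₐ[K] AlgebraicClosure K, ∀ j, 1 ≤ j → j ≤ D →
    ∀ θ : AlgebraicClosure K, aeval θ f = 0 → (σ ^ j) θ ≠ θ

/-- The primes of `K` all of whose ramification indices in the extension `L` are divisible by `ℓ`. -/
def RamifiedPrimes (ℓ : ℕ) (K L : Type) [Field K] [NumberField K] [Field L] [NumberField L]
    [Algebra K L] : Set (HeightOneSpectrum (𝓞 K)) :=
  {v | ∀ w : HeightOneSpectrum (𝓞 L), w.asIdeal.LiesOver v.asIdeal →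
    ℓ ∣ v.asIdeal.ramificationIdx' w.asIdeal}

/-- Over the field `L` there are no points and no sections: for all `n ≥ 1` divisible by `ℓ` the curve
`a yⁿ = f(x)` has neither points nor sections over `L`, and the geometrically pro-`ℓ` fundamental
group of the curve `a y^ℓ = f(x)` over `L` has no section. -/
def NothingOver (L : Type) [Field L] (ℓ : ℕ) (a : L) (f : L[X]) : Prop :=
  (∀ n : ℕ, 0 < n → ℓ ∣ n → NoPoint n a f ∧ NoSection n a f) ∧ NoProEllSection ℓ a f

/-- The integers `a` of `K` which do not have the following property: for all extensions `L` of `K` of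
degree at most `D` and all prime numbers `ℓ` which divide the degree of `f`, if fewer than `M` primes
of `K` have only ramification indices in `L` divisible by `ℓ`, or if `ℓ` does not divide `[L : K]`,
then over `L` there are no points and no sections for `a` and `ℓ`. -/
def Exceptional {K : Type} [Field K] [NumberField K] (D M : ℕ) (f : K[X]) : Set (𝓞 K) :=
  {a | ¬ ∀ (L : Type) [Field L] [NumberField L] [Algebra K L], Module.finrank K L ≤ D →
    ∀ ℓ : ℕ, ℓ.Prime → ℓ ∣ f.natDegree →
      ((RamifiedPrimes ℓ K L).encard < M ∨ ¬ ℓ ∣ Module.finrank K L) →
        NothingOver L ℓ (algebraMap K L a) (f.map (algebraMap K L))}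

/-- Density zero: for every `ε > 0` there is an ideal `I ≠ 0` such that `E` lies in at most
`ε #(O_K/I)` residue classes modulo `I`. -/
def DensityZero {K : Type} [Field K] [NumberField K] (E : Set (𝓞 K)) : Prop :=
  ∀ ε : ℝ, 0 < ε → ∃ I : Ideal (𝓞 K), I ≠ ⊥ ∧
    (Set.ncard ((Ideal.Quotient.mk I) '' E) : ℝ) ≤ ε * Nat.card (𝓞 K ⧸ I)

end numberFields

lemma iSup_congr_prop {α : Type} [CompleteLattice α] {P Q : α → Prop} (h : ∀ L, P L ↔ Q L) :
    (⨆ L : {L // P L}, L.1) = ⨆ L : {L // Q L}, L.1 := by
  have h1 : P = Q := funext fun L => propext (h L)
  subst h1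
  rfl

lemma proEll_eq (ℓ : ℕ) (k F Ω : Type) [Field k] [Field F] [Field Ω] [Algebra k F] [Algebra F Ω]
    [Algebra k Ω] : proEllField ℓ k F Ω = Pool.Agent.Y157.PS.geomPro ℓ k F Ω := by
  unfold proEllField Pool.Agent.Y157.PS.geomPro maxProEll Pool.Agent.Y157.PS.maxPro
  congr 1
  refine iSup_congr_prop fun L => ?_
  constructor
  · rintro ⟨⟨h1, h2, h3⟩, h4⟩
    refine ⟨⟨h1, h2, h3⟩, fun W hW z hz hz0 => ?_⟩
    obtain ⟨t, ht, h5, h6⟩ := h4 W hW z hz hz0
    exact ⟨t, ht, div_ne_zero hz0 ((_root_.map_ne_zero _).2 ht), h5, h6⟩
  · rintro ⟨⟨h1, h2, h3⟩, h4⟩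
    refine ⟨⟨h1, h2, h3⟩, fun W hW z hz hz0 => ?_⟩
    obtain ⟨t, ht, -, h5, h6⟩ := h4 W hW z hz hz0
    exact ⟨t, ht, h5, h6⟩

lemma of_fine {k : Type} [Field k] (l : ℕ) (a : k) (f : k[X])
    (h : Pool.Agent.Y157.PS.FineP l a f) (n : ℕ) (hn : l ∣ n) (hd : l ∣ f.natDegree) :
    NoPoint n a f ∧ NoSection n a f := by
  obtain ⟨-, h1, h2, h3⟩ := h
  obtain ⟨n', rfl⟩ := hn
  refine ⟨⟨?_, ?_⟩, ?_⟩
  · rintro ⟨x, y, hxy⟩
    apply h2 x (y ^ n')
    rw [← hxy, ← pow_mul, mul_comm n' l]
  · rintro ⟨r, hr⟩
    obtain ⟨e, he⟩ := Nat.dvd_gcd (Dvd.intro n' rfl : l ∣ l * n') hd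
    apply h3 (r ^ e)
    rw [← hr, ← pow_mul, mul_comm e l, he]
  · intro F Ω _ _ _ _ _ _ _ x y U hxy hU
    have hcl : IsAlgClosed Ω := IsAlgClosure.isAlgClosed F
    have halg : Algebra.IsAlgebraic F Ω := IsAlgClosure.isAlgebraic
    have h4 := h1 F Ω U hU x (y ^ n') (by rw [← hxy, ← pow_mul, mul_comm n' l])
    exact ⟨fun s => h4.false ⟨s.toHom, s.cont, s.compat⟩⟩

/-- Let `K` be a number field and `f ∈ K[x]` separable of degree at least 3, such that some element of
the Galois group of `K` has on the roots of `f` only orbits of length greater than `D`.  Then for all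
`a ∈ O_K` outside a set of density zero, for all extensions `L` of `K` of degree at most `D`, all prime
numbers `ℓ` which divide the degree of `f`, such that for fewer than `M` primes of `K` all
ramification indices in `L` are divisible by `ℓ`, or such that `ℓ` does not divide `[L : K]`, and for
all `n ≥ 1` divisible by `ℓ`: the curve `a yⁿ = f(x)` has no point over `L`, the fundamental groups of its
open subcurves over `L` and of all smooth curves over `L` that dominate it have no sections, and the
geometrically pro-`ℓ` fundamental group of the curve `a y^ℓ = f(x)` over `L` has no section. -/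
theorem result (K : Type) [Field K] [NumberField K] (f : K[X]) (hf : f.Separable)
    (h3 : 3 ≤ f.natDegree) (D : ℕ) (hD : LongOrbits D f) (M : ℕ) :
    DensityZero (Exceptional D M f) := by
  intro ε hε
  obtain ⟨I, hI, hfin, hle⟩ := Pool.Agent.Q52.SecX.main f hf h3 D hD M ε hε
  refine ⟨I, hI, le_trans ?_ hle⟩
  have hsub : Exceptional D M f ⊆ {a : 𝓞 K | ¬ ∀ (L : Type) [Field L] [NumberField L] [Algebra K L],
      Module.finrank K L ≤ D → ∀ ℓ : ℕ, ℓ.Prime → ℓ ∣ f.natDegree →
        ((Pool.Agent.Q52.SecX.RamSet ℓ K L).encard < M ∨ ¬ ℓ ∣ Module.finrank K L) →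
        Pool.Agent.Y157.PS.FineP ℓ (algebraMap K L (algebraMap (𝓞 K) K a))
          (f.map (algebraMap K L))} := by
    intro a ha hfine
    apply ha
    intro L _ _ _ hL ℓ hℓ hℓd hor
    have h1 := hfine L hL ℓ hℓ hℓd hor
    have h2 : ℓ ∣ (f.map (algebraMap K L)).natDegree := by
      rwa [natDegree_map]
    refine ⟨fun n _ hn => of_fine ℓ _ _ h1 n hn h2, ?_⟩
    intro F Ω _ _ _ _ _ _ _ x y hx hxy hF N hN
    have hcl : IsAlgClosed Ω := IsAlgClosure.isAlgClosed F
    have halg : Algebra.IsAlgebraic F Ω := IsAlgClosure.isAlgebraic
    rw [proEll_eq] at hN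
    exact ⟨fun s => h1.1 F Ω x y hx hxy hF N hN s.toHom s.cont s.compat⟩
  exact_mod_cast Set.ncard_le_ncard (Set.image_mono hsub) (Set.toFinite _)

end Pool.Agent.Results.MP_2f3286_ag.SmallExtensions
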