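import Pool.Agent.Q3.PGS.Genus

namespace Pool.Agent.Results.MP_305fdd_al.FreeSplittingsFiniteFactors

open Pool.Agent.Q24.PG

/-- Let `Γ` be the free product of finitely many finite groups `G i` and let `Λ` be a finitely
generated residually finite group with the same finite quotients as `Γ`. Every splitting of `Λ` as
a free product of two groups `A` and `B` comes, on the level of finite quotients, from a partition
of the family `G` into two parts; a factor whose part is one group `G i` is isomorphic to `G i`. -/
theorem result {ι : Type} [Finite ι] (G : ι → Type) [∀ i, Group (G i)] [∀ i, Finite (G i)]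
    (Λ : Type) [Group Λ] (hfg : Group.FG Λ) (hrf : ResFin Λ) (hq : SameFQ Λ (Monoid.CoprodI G))
    (A B : Type) [Group A] [Group B] (e : Λ ≃* Monoid.Coprod A B) :
    ∃ I : Set ι, SameFQ A (Monoid.CoprodI (fun i : I => G i)) ∧
      SameFQ B (Monoid.CoprodI (fun i : (Iᶜ : Set ι) => G i)) ∧
      (Nontrivial A → I.Nonempty) ∧ (Nontrivial B → Iᶜ.Nonempty) ∧
      (∀ i, I = {i} → Nonempty (A ≃* G i)) ∧ (∀ i, Iᶜ = {i} → Nonempty (B ≃* G i)) :=
  Pool.Agent.Q3.PGS.splitting G hfg hrf hq e

end Pool.Agent.Results.MP_305fdd_al.FreeSplittingsFiniteFactors
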