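import Pool.Agent.Q112.Sid.Defs
import Pool.Agent.Q112.Sid.Main

/-!
# Linear bounds on Sidorenko exponents of bounded-degree hypergraphs
-/

namespace Pool.Agent.Results.MP_30cdc8_co.LinearBound

open Q112.Sid

/-- **Main result.** For every integer `r ≥ 2` there is a function `f_r : ℕ → ℕ`, namely
`f_r(Δ) = r (2 (r-1) Δ + 1) ^ r`, such that every `r`-partite `r`-graph `F` of maximum degree at
most `Δ` satisfies `s(F) ≤ f_r(Δ) e(F)`. -/
theorem result : ∀ r : ℕ, 2 ≤ r → ∃ f : ℕ → ℕ,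
    (∀ Δ, f Δ = r * (2 * (r - 1) * Δ + 1) ^ r) ∧
    ∀ (Δ : ℕ) (F : RGraph r), IsPartite F → (∀ v, degree F v ≤ Δ) →
      sidExp F ≤ (((f Δ * F.edges.card : ℕ) : ℝ) : EReal) :=
  fun r hr => ⟨fun Δ => r * (2 * (r - 1) * Δ + 1) ^ r, fun _ => rfl,
    fun Δ F hF hdeg => sidExp_le hr F hF Δ hdeg⟩

end Pool.Agent.Results.MP_30cdc8_co.LinearBound
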