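import Pool.Agent.Q28.FG.Corr

/-!
# Bloch's conjecture for correspondences on surfaces: generation of the image

Let `S` and `T` be complex projective surfaces, `T(S)` the kernel of the Albanese map on zero-cycles
of degree zero (rational coefficients), `p` and `r` the projectors on the transcendental motives
`t_2(S)` and `t_2(T)`, and `Φ ∈ CH^2(S × T)`.

* `[Φ]^{2,0} = 0` (that is, `r Φ p` is homologically trivial) if and only if the image `Φ_* T(S)` is
  generated by a homologically trivial cycle `z` on some variety `V`: all its elements are of the form
  `Γ_* z`, `Γ` a correspondence from `V` to `T`; if and only if it is generated by countably many such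
  cycles and countably many families of zero-cycles parametrised by Jacobians of curves.
* The same holds with algebraically trivial in the place of homologically trivial (both times).
* If `S = T` and `Φ_* T(S)` is contained in a finitely generated submodule of `T(S)`, over the ring of
  self-correspondences, or if it is generated by countably many algebraically trivial cycles, then
  `Φ` is nilpotent on `T(S)`.
-/

open CategoryTheory AlgebraicGeometry

universe u v w

namespace Pool.Agent.Results.MP_31564d_ag.GeneratingImages

open Pool.Agent.H914 Pool.Agent.H914.VarClass Pool.Agent.H914.VarClass.Obj Pool.Agent.W492.BB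
  Pool.Agent.TH133 Pool.Agent.Q28.PV Pool.Agent.Q28.AL Pool.Agent.Q28.FG

/-- **Generators of the image of the Albanese kernel.** Let `C` be the Chow theory with rational
coefficients and `H` a Weil cohomology theory on the smooth projective varieties over the complex
numbers (`hP`: known facts on algebraic cycles).

1. For surfaces `S`, `T` with projectors `p`, `r` on `t_2(S)`, `t_2(T)`, and `Φ ∈ CH^2(S × T)`:
  equivalent are: the class of `r Φ p` (`comp (comp p Φ) r` in our notation) in cohomology vanishes,
  that is `[Φ]^{2,0} = 0`; `Φ_* T(S)` is generated by one homologically trivial cycle; by countably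
  many, and by images of Jacobians under countably many correspondences. Also equivalent are:
  `r Φ p` is algebraically trivial; `Φ_* T(S)` is generated by one algebraically trivial cycle; by
  countably many, and by images of Jacobians.
2. For `Φ ∈ CH^2(S × S)`: if `Φ_* T(S)` is contained in a finitely generated submodule of `T(S)`, over
  `CH^2(S × S)`, then it is generated by finitely many algebraically trivial cycles; if it is
  generated by countably many algebraically trivial cycles, and by images of Jacobians, then `Φ`
  acts as a nilpotent endomorphism on `T(S)`. -/
theorem result {k : Type u} [Field k] {𝒱 : VarClass k} {C : TheoryData.{u, v, 0} 𝒱 ℚ}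
    [IsChowProj C] {K : Type w} [Field K] {H : WeilTheoryData.{u, v, w} C K} [IsWeilProj H]
    (hP : Principles H) :
    (∀ (S T : 𝒱.Obj) (p : C.A (S.prod S)) (r : C.A (T.prod T)) (Φ : C.A (S.prod T)),
      IsTransc H S p → IsTransc H T r → C.Deg 2 Φ →
      [H.cl (C.comp (C.comp p Φ) r) = 0, OneGeneratorOfImage H (HomTriv H) Φ,
        CountablyGeneratedImage H (HomTriv H) Φ].TFAE ∧
      [AlgTriv H (S.prod T) 2 (C.comp (C.comp p Φ) r), OneGeneratorOfImage H (AlgTriv H) Φ,
        CountablyGeneratedImage H (AlgTriv H) Φ].TFAE) ∧
    ∀ (S : 𝒱.Obj) (p : C.A (S.prod S)) (Φ : C.A (S.prod S)), IsTransc H S p → C.Deg 2 Φ →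
      (FinitelyGeneratedImage H Φ → CountablyGeneratedImage H (AlgTriv H) Φ) ∧
      (CountablyGeneratedImage H (AlgTriv H) Φ →
        ∃ N : ℕ, ∀ w, AlbKernel H S w → C.act (compList C S (List.replicate N Φ)) w = 0) :=
  corr_main hP

end Pool.Agent.Results.MP_31564d_ag.GeneratingImages
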