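import Pool.Agent.Q120.SM.AsmC
import Pool.Agent.Q53.SM.REG
import Pool.Agent.Q53.SM.CHU
import Pool.Agent.Q53.SM.CHL
import Pool.Agent.Q65.SM.D1
import Pool.Agent.Q210.SM.D2
import Pool.Agent.Q210.SM.PU
import Pool.Agent.Q150.SM.PL

/-!
# The multifractal spectrum of the local densities in random models of the primes

`A` contains the integers `n` independently with probabilities `p n`, where `p n → 0` and the expected number of elements
in `(m, m + a log² m]` is asymptotic to `a log m` (Cramér's model, the sieved models of all levels). `x n` is any sequence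
of positive reals with `∑ (x n)^(-ε) < ∞` for all `ε > 0`. The relative density of `A` in the windows
`(α x n, α x n + a log² (x n)]` takes the value `u` for infinitely many `n` on a set of `α` of Hausdorff dimension exactly
`1 - a (1 - u + u log u)`.
-/

set_option autoImplicit false

open MeasureTheory Filter Topology Set Pool.Agent.Q120.GM Pool.Agent.Q120.SM
open scoped ENNReal

namespace Pool.Agent.Results.MP_31d0eb_nt.SpectrumOfDensities

/-- **The multifractal spectrum of the local densities.** -/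
theorem result :
    -- Cramér's model (`Q = 1`) and the sieved models exist and are regular
    (∀ Q : ℕ, 1 ≤ Q → Regular (level Q) ∧
      ∃ (Ω : Type) (_ : MeasurableSpace Ω) (μ : Measure Ω) (A : Ω → Set ℕ), IsProbabilityMeasure μ ∧
        IsModel μ (level Q) A) ∧
    ∀ (Ω : Type) [MeasurableSpace Ω] (μ : Measure Ω) [IsProbabilityMeasure μ] (p : ℕ → ℝ) (A : Ω → Set ℕ),
      Regular p → IsModel μ p A → ∀ x : ℕ → ℝ, Scales x → ∀ a : ℝ, 0 < a → ∀ᵐ ω ∂μ,
      -- the densities of the windows of one scale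
      (∀ η : ℝ, 0 < η → ∀ᶠ n in atTop, ∀ α : ℝ, 1 ≤ α → α ≤ 2 → a * ff (dens (A ω) a (x n) α) ≤ 1 + η) ∧
      (∀ u ε : ℝ, 0 ≤ u → a * ff u < 1 → 0 < ε →
        ∀ᶠ n in atTop, ∃ α : ℝ, 1 ≤ α ∧ α ≤ 2 ∧ |dens (A ω) a (x n) α - u| < ε) ∧
      -- the spectrum
      ∀ u : ℝ, 0 ≤ u →
        (1 ≤ u → dimH (Upper (A ω) a x u) = ENNReal.ofReal (1 - a * ff u) ∧
          (1 < a * ff u → Upper (A ω) a x u = ∅)) ∧
        (u ≤ 1 → dimH (Lower (A ω) a x u) = ENNReal.ofReal (1 - a * ff u) ∧
          (1 < a * ff u → Lower (A ω) a x u = ∅)) ∧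
        dimH (Cluster (A ω) a x u) = ENNReal.ofReal (1 - a * ff u) ∧
        (Tendsto (fun n => Real.log (x (n + 1)) / Real.log (x n)) atTop atTop →
          dimH (Limit (A ω) a x u) = ENNReal.ofReal (1 - a * ff u)) := by
  refine ⟨fun Q hQ => ⟨Pool.Agent.Q53.SM.t_REG Q hQ, ?_⟩, ?_⟩
  · exact ⟨ℕ → Bool, inferInstance, prodMeasure (level Q), trueSet, inferInstance,
      isModel _ (level_nonneg Q) (level_le_one Q)⟩
  · intro Ω _ μ _ p A hp hA x hx a ha
    filter_upwards [ae_good Pool.Agent.Q210.SM.t_PU Pool.Agent.Q150.SM.t_PL Pool.Agent.Q53.SM.t_CHU Pool.Agent.Q53.SM.t_CHL hp hA hx ha] with ω hG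
    exact ⟨fun η hη => range_sub Pool.Agent.Q65.SM.t_D1 ha hx hG hη, fun u ε hu hc hε => range_sup ha hx hG hu hc hε,
      fun u hu => spectrum Pool.Agent.Q65.SM.t_D1 Pool.Agent.Q210.SM.t_D2 ha hx hG u hu⟩

end Pool.Agent.Results.MP_31d0eb_nt.SpectrumOfDensities
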