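import Pool.Agent.Q99.SML4.Order

/-!
# Vassiliev invariants of one order separate almost all powers of braids from every given link

Diagrams (starting library `Pool.Agent.H891R2.Jones.Diagram`): `Diagram P` (oriented link diagrams,
planar or not), `Diagram.fPoly` (the normalised bracket `(-A^{-3})^{w(D)} ⟨D⟩`), `Outer m` (the part of an
oriented diagram outside a box through which `m` strands run, with arbitrary directions),
`Outer.close` (fills the rest of the box with vertical strands).

Vassiliev invariants (starting library `Pool.Agent.H832R3.VJ.Defs`): `Dia` (an oriented diagram with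
the finite set of its marked points), `Separated d X Y` (some integer valued Vassiliev invariant of
oriented links of order at most `d` has different values on `X` and `Y`).

`Pool.Agent.Q99.SML.Defs`: `Word` (words in the letters `σ_j^{±1}`), `wperm m w` (the permutation of `w`;
`w` is pure if it is `1`), `family O w u n` (the product
`w_0^{n_0} u_0 w_1^{n_1} u_1 ⋯ w_{k-1}^{n_{k-1}} u_{k-1}` is drawn in the box of `O`).
-/

set_option autoImplicit false

namespace Pool.Agent.Results.MP_31fd3b_gt.BraidPowerPairs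

open Finset LaurentPolynomial Pool.Agent.H891R2.Jones Pool.Agent.H832R3.VJ Q99.SML

/-- the diagram as an element of `Dia` -/
def dia {m : ℕ} (O : Outer m) : Dia := ⟨O.P, inferInstance, O.close⟩

/-- Let `O_i`, `i < r`, be outsides of boxes with `m_i` strands, let `w_{i,j}`, `u_{i,j}`, `j < k`, be
braid words, let `P ≥ 1` be such that all `w_{i,j}^P` are pure (`P = 1` if the `w_{i,j}` are pure), and
for `n ∈ ℤ^k` let `K_i(n)` be the diagram obtained by drawing the product
`w_{i,0}^{n_0} u_{i,0} ⋯ w_{i,k-1}^{n_{k-1}} u_{i,k-1}` in the box of `O_i`. There is a number `d` (which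
depends only on the `O_i`, `w_{i,j}`, `u_{i,j}`) with the following properties.

* For all `i`, `i'` and all `n`, `n' ∈ ℤ^k`, if a link `X` (an arbitrary diagram) is neither separated from
  `K_i(n)` nor from `K_{i'}(n')` by Vassiliev invariants of order at most `d`, then `K_i(n)` and
  `K_{i'}(n')` have the same normalised bracket.
* For all `i` and `s ∈ ℤ^k`, if not all `K_i(s + P q)`, `q ∈ ℤ^k`, have the same normalised bracket, then
  for **every** link `X` and all finite sets `A_0, …, A_{k-1}` of integers at most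
  `C(m_i, ⌊m_i / 2⌋) ∑_j ∏_{l ≠ j} |A_l|` of the `K_i(s + P q)`, `q ∈ ∏ A_j`, are not separated from `X` by
  Vassiliev invariants of order at most `d` (for `k = 1`: at most `C(m_i, ⌊m_i / 2⌋)` of the
  `K_i(s + P q)`, `q ∈ ℤ`).
* For all `i`, `i'` and `s`, `s' ∈ ℤ^k`, if not all `K_i(s + P q)`, `q ∈ ℤ^k`, have the same normalised
  bracket, then for all finite sets `A_j`, `A'_j` of integers at most
  `C(m_i, ⌊m_i / 2⌋) (∑_j ∏_{l ≠ j} |A_l|) ∏ |A'_j|` of the pairs `K_i(s + P q)`, `K_{i'}(s' + P q')`,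
  `q ∈ ∏ A_j`, `q' ∈ ∏ A'_j`, are not separated by Vassiliev invariants of order at most `d`. -/
theorem result {r k : ℕ} {m : Fin r → ℕ} (hm : ∀ i, 0 < m i) (O : ∀ i, Outer (m i))
    (w u : Fin r → Fin k → Word) (P : ℕ) (hP0 : 0 < P)
    (hP : ∀ i j, wperm (m i) (w i j) ^ P = 1) : ∃ d : ℕ,
      (∀ (i i' : Fin r) (n n' : Fin k → ℤ) (X : Dia),
        ¬ Separated d (dia (family (O i) (w i) (u i) n)) X →
        ¬ Separated d (dia (family (O i') (w i') (u i') n')) X →
        (family (O i) (w i) (u i) n).close.fPoly =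
          (family (O i') (w i') (u i') n').close.fPoly) ∧
      (∀ (i : Fin r) (s : Fin k → ℤ),
        (∀ q q' : Fin k → ℤ, (family (O i) (w i) (u i) (s + (P : ℤ) • q)).close.fPoly =
          (family (O i) (w i) (u i) (s + (P : ℤ) • q')).close.fPoly) ∨
        ∀ (X : Dia) (A : Fin k → Finset ℤ), {q : Fin k → ℤ | (∀ j, q j ∈ A j) ∧
            ¬ Separated d (dia (family (O i) (w i) (u i) (s + (P : ℤ) • q))) X}.ncard ≤
          (m i).choose (m i / 2) * ∑ j, ∏ l ∈ univ.erase j, #(A l)) ∧
      (∀ (i i' : Fin r) (s s' : Fin k → ℤ),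
        (∀ q q' : Fin k → ℤ, (family (O i) (w i) (u i) (s + (P : ℤ) • q)).close.fPoly =
          (family (O i) (w i) (u i) (s + (P : ℤ) • q')).close.fPoly) ∨
        ∀ (A A' : Fin k → Finset ℤ), {x : (Fin k → ℤ) × (Fin k → ℤ) |
            (∀ j, x.1 j ∈ A j) ∧ (∀ j, x.2 j ∈ A' j) ∧
            ¬ Separated d (dia (family (O i) (w i) (u i) (s + (P : ℤ) • x.1)))
              (dia (family (O i') (w i') (u i') (s' + (P : ℤ) • x.2)))}.ncard ≤
          (m i).choose (m i / 2) * (∑ j, ∏ l ∈ univ.erase j, #(A l)) * ∏ j, #(A' j)) := by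
  classical
  have hfin : ∀ (A : Fin k → Finset ℤ) (R : (Fin k → ℤ) → Prop),
      {q : Fin k → ℤ | (∀ j, q j ∈ A j) ∧ R q}.Finite := by
    intro A R
    apply (Fintype.piFinset A).finite_toSet.subset
    intro n hn
    rw [Finset.mem_coe, Fintype.mem_piFinset]
    exact hn.1
  have hP1 : (P : ℤ) ≠ 0 := by exact_mod_cast hP0.ne'
  have hres : ∀ n : Fin k → ℤ, ∃ (s : Fin k → Fin P) (q : Fin k → ℤ),
      n = (fun l => ((s l : ℕ) : ℤ)) + (P : ℤ) • q := by
    intro n
    have h1 : ∀ l, (n l % (P : ℤ)).toNat < P := fun l => by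
      have h2 := Int.emod_nonneg (n l) hP1
      have h3 := Int.emod_lt_of_pos (n l) (by exact_mod_cast hP0 : (0 : ℤ) < P)
      omega
    refine ⟨fun l => ⟨(n l % (P : ℤ)).toNat, h1 l⟩, fun l => n l / P, ?_⟩
    funext l
    rw [Pi.add_apply, Pi.smul_apply, smul_eq_mul]
    show n l = (((n l % (P : ℤ)).toNat : ℕ) : ℤ) + P * (n l / P)
    rw [Int.toNat_of_nonneg (Int.emod_nonneg (n l) hP1), Int.emod_add_mul_ediv]
  choose d1 h1 using fun (x : (Fin r × Fin r) × (Fin k → Fin P) × (Fin k → Fin P)) =>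
    Q99.SML4.order_pair (hm x.1.1) (hm x.1.2) (O x.1.1) (O x.1.2) (w x.1.1) (u x.1.1) (w x.1.2)
      (u x.1.2) P P (hP x.1.1) (hP x.1.2) (fun l => ((x.2.1 l : ℕ) : ℤ))
      (fun l => ((x.2.2 l : ℕ) : ℤ))
  set d := univ.sup d1 with hd
  have hA : ∀ (i i' : Fin r) (n n' : Fin k → ℤ) (X : Dia),
        ¬ Separated d (dia (family (O i) (w i) (u i) n)) X →
        ¬ Separated d (dia (family (O i') (w i') (u i') n')) X →
        (family (O i) (w i) (u i) n).close.fPoly =
          (family (O i') (w i') (u i') n').close.fPoly := by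
    intro i i' n n' X hs hs'
    obtain ⟨s, q, rfl⟩ := hres n
    obtain ⟨s', q', rfl⟩ := hres n'
    refine h1 ((i, i'), s, s') q q' fun j hj => ?_
    have hj' : j ≤ d := hj.trans (Finset.le_sup (Finset.mem_univ _))
    exact (Q99.SML4.moment_of_not_separated hs j hj').trans
      (Q99.SML4.moment_of_not_separated hs' j hj').symm
  have hB : ∀ (i : Fin r) (s : Fin k → ℤ),
        (∀ q q' : Fin k → ℤ, (family (O i) (w i) (u i) (s + (P : ℤ) • q)).close.fPoly =
          (family (O i) (w i) (u i) (s + (P : ℤ) • q')).close.fPoly) ∨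
        ∀ (X : Dia) (A : Fin k → Finset ℤ), {q : Fin k → ℤ | (∀ j, q j ∈ A j) ∧
            ¬ Separated d (dia (family (O i) (w i) (u i) (s + (P : ℤ) • q))) X}.ncard ≤
          (m i).choose (m i / 2) * ∑ j, ∏ l ∈ univ.erase j, #(A l) := by
    intro i s
    by_cases hall : ∀ q q' : Fin k → ℤ,
        (family (O i) (w i) (u i) (s + (P : ℤ) • q)).close.fPoly =
          (family (O i) (w i) (u i) (s + (P : ℤ) • q')).close.fPoly
    · exact Or.inl hall
    right
    intro X A
    rcases Set.eq_empty_or_nonempty {q : Fin k → ℤ | (∀ j, q j ∈ A j) ∧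
      ¬ Separated d (dia (family (O i) (w i) (u i) (s + (P : ℤ) • q))) X} with he | ⟨q0, hq0, hs0⟩
    · rw [he, Set.ncard_empty]
      exact Nat.zero_le _
    have h := Q99.SML4.count (r := 1) (m := fun _ => m i) (fun _ => hm i) (fun _ => O i)
      (fun _ => w i) (fun _ => u i) P (fun _ j => hP i j) s (fun _ => 1)
      (family (O i) (w i) (u i) (s + (P : ℤ) • q0)).close.fPoly
    simp only [Finset.univ_unique, Finset.sum_singleton, one_mul] at h
    rcases h with h | h
    · exact absurd (fun q q' => (h q).trans (h q').symm) hall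
    · refine (Set.ncard_le_ncard ?_ (hfin A _)).trans (h A)
      rintro q ⟨hq, hs⟩
      exact ⟨hq, hA i i _ _ X hs hs0⟩
  refine ⟨d, hA, hB, fun i i' s s' => ?_⟩
  rcases hB i s with h | h
  · exact Or.inl h
  right
  intro A A'
  have hsub : {x : (Fin k → ℤ) × (Fin k → ℤ) |
            (∀ j, x.1 j ∈ A j) ∧ (∀ j, x.2 j ∈ A' j) ∧
            ¬ Separated d (dia (family (O i) (w i) (u i) (s + (P : ℤ) • x.1)))
              (dia (family (O i') (w i') (u i') (s' + (P : ℤ) • x.2)))} ⊆
      (((Fintype.piFinset A').biUnion fun q' =>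
        ((hfin A (fun q => ¬ Separated d (dia (family (O i) (w i) (u i) (s + (P : ℤ) • q)))
          (dia (family (O i') (w i') (u i') (s' + (P : ℤ) • q'))))).toFinset ×ˢ {q'}) :
          Finset ((Fin k → ℤ) × (Fin k → ℤ))) : Set ((Fin k → ℤ) × (Fin k → ℤ))) := by
    rintro ⟨q, q'⟩ ⟨h1, h2, h3⟩
    rw [Finset.mem_coe, Finset.mem_biUnion]
    refine ⟨q', Fintype.mem_piFinset.2 h2, ?_⟩
    rw [Finset.mem_product, Set.Finite.mem_toFinset]
    exact ⟨⟨h1, h3⟩, Finset.mem_singleton_self _⟩
  refine (Set.ncard_le_ncard hsub (Finset.finite_toSet _)).trans ?_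
  rw [Set.ncard_coe_finset]
  refine Finset.card_biUnion_le.trans ?_
  rw [mul_comm, ← Fintype.card_piFinset]
  refine (Finset.sum_le_card_nsmul _ _ ((m i).choose (m i / 2) *
    ∑ j, ∏ l ∈ univ.erase j, #(A l)) fun q' _ => ?_).trans (le_of_eq (by rw [smul_eq_mul]))
  rw [Finset.card_product, Finset.card_singleton, mul_one, ← Set.ncard_eq_toFinset_card _ (hfin A _)]
  exact h _ A

end Pool.Agent.Results.MP_31fd3b_gt.BraidPowerPairs
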