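import Pool.Agent.Q99.SML8.Contact

/-!
# Vassiliev invariants modulo prime powers of powers of braids

Diagrams (starting library `Pool.Agent.H891R2.Jones.Diagram`): `Diagram P` (oriented link diagrams,
planar or not), `Diagram.fPoly` (the normalised bracket `(-A^{-3})^{w(D)} ⟨D⟩`), `Outer m` (the part of an
oriented diagram outside a box through which `m` strands run, with arbitrary directions),
`Outer.close` (fills the rest of the box with vertical strands).

Vassiliev invariants (starting library `Pool.Agent.H832R3.VJ.Defs`): `Dia` (an oriented diagram with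
the finite set of its marked points), `IsVassiliev n v` (`v` is an integer valued Vassiliev invariant of
oriented links of order at most `n`).

`Pool.Agent.Q99.SML.Defs`: `Word` (words in the letters `σ_j^{±1}`), `wperm m w` (the permutation of `w`;
`w` is pure if it is `1`), `family O w u n` (the product
`w_0^{n_0} u_0 w_1^{n_1} u_1 ⋯ w_{k-1}^{n_{k-1}} u_{k-1}` is drawn in the box of `O`).
-/

set_option autoImplicit false

namespace Pool.Agent.Results.MP_31fd3b_gt.ModularSeparation

open Finset LaurentPolynomial Pool.Agent.H891R2.Jones Pool.Agent.H832R3.VJ Q99.SML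

/-- the diagram as an element of `Dia` -/
def dia {m : ℕ} (O : Outer m) : Dia := ⟨O.P, inferInstance, O.close⟩

/-- `X` and `Y` are separated by the reduction modulo `N` of an integer valued Vassiliev invariant of
order at most `d` (a `ℤ / N`-valued finite type invariant) -/
def SeparatedMod (N d : ℕ) (X Y : Dia) : Prop :=
  ∃ n ≤ d, ∃ v, IsVassiliev n v ∧ ¬ (N : ℤ) ∣ v X - v Y

/-- `F` and `G` are congruent modulo `N` and `(A - 1)^(d+1)`: their Taylor coefficients at `A = 1` up to
the degree `d` are congruent modulo `N` -/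
def Cong (N d : ℕ) (F G : ℤ[T;T⁻¹]) : Prop :=
  ∃ U V : ℤ[T;T⁻¹], F - G = (N : ℤ[T;T⁻¹]) * U + (T 1 - 1) ^ (d + 1) * V

/-- the integers in the sides of the box `∏ A_j` are pairwise incongruent modulo `p` -/
def Incongruent (p : ℕ) {k : ℕ} (A : Fin k → Finset ℤ) : Prop :=
  ∀ j, ∀ z ∈ A j, ∀ z' ∈ A j, (p : ℤ) ∣ z - z' → z = z'

theorem cong_iff (N d : ℕ) (F G : ℤ[T;T⁻¹]) :
    Cong N d F G ↔ F - G ∈ Ideal.span {(N : ℤ[T;T⁻¹]), Q99.SML8.xx ^ (d + 1)} := by
  rw [Ideal.mem_span_pair]
  constructor
  · rintro ⟨U, V, h⟩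
    refine ⟨U, V, ?_⟩
    rw [h]
    unfold Q99.SML8.xx
    ring
  · rintro ⟨U, V, h⟩
    refine ⟨U, V, ?_⟩
    rw [← h]
    unfold Q99.SML8.xx
    ring

theorem cong_of_not_separated {N d : ℕ} {X Y : Dia} (h : ¬ SeparatedMod N d X Y) :
    Cong N d X.D.fPoly Y.D.fPoly := by
  rw [cong_iff]
  refine Q99.SML8.mem_of_tay N (d + 1) _ fun j hj => ?_
  rw [Q99.SML8.tay_sub]
  by_contra hne
  exact h ⟨j, by omega, _, Q99.SML8.isVassiliev_tay j, hne⟩

theorem Cong.symm {N d : ℕ} {F G : ℤ[T;T⁻¹]} (h : Cong N d F G) : Cong N d G F := by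
  obtain ⟨U, V, h⟩ := h
  refine ⟨-U, -V, ?_⟩
  linear_combination -h

theorem Cong.trans {N d : ℕ} {F G H : ℤ[T;T⁻¹]} (h : Cong N d F G) (h' : Cong N d G H) :
    Cong N d F H := by
  obtain ⟨U, V, h⟩ := h
  obtain ⟨U', V', h'⟩ := h'
  refine ⟨U + U', V + V', ?_⟩
  linear_combination h + h'

/-- Let `p` be a prime number, `N` a power of `p`, `d ≥ 0`. Let `O_i`, `i < r`, be outsides of boxes with
`m_i` strands, let `w_{i,j}`, `u_{i,j}`, `j < k`, be braid words, let `P` be such that all `w_{i,j}^P` are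
pure, let `s_i ∈ ℤ^k`, and for `q ∈ ℤ^k` let `K_i(q)` be the diagram obtained by drawing the product for
the exponents `s_i + P q` in the box of `O_i`. Boxes `∏ A_j` are given by finite sets of integers which
are pairwise incongruent modulo `p`.

* **One link.** If the normalised brackets of the `K_i(q)`, `q ∈ ℤ^k`, are not all congruent modulo `N`
  and `(A - 1)^(d+1)`, then for **every** link `X` (an arbitrary diagram) and every box at most
  `C(m_i, ⌊m_i / 2⌋) ∑_j ∏_{l ≠ j} |A_l|` of the `K_i(q)`, `q ∈ ∏ A_j`, are not separated from `X` by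
  `ℤ / N`-valued Vassiliev invariants of order at most `d`.
* **Residue classes.** So for `k = 1` the integers `q` for which `K_i(q)` is not separated from `X` by
  such invariants lie in at most `C(m_i, ⌊m_i / 2⌋)` residue classes modulo `p`.
* **Pairs.** Under the same assumption at most
  `C(m_i, ⌊m_i / 2⌋) (∑_j ∏_{l ≠ j} |A_l|) |B|` of the pairs `K_i(q)`, `K_{i'}(q')`, `q ∈ ∏ A_j`, `q' ∈ B`, `B`
  any finite subset of `ℤ^k`, are not separated by such invariants.
* **Equal exponents.** For `s_i = s_{i'}`, either the brackets of `K_i(q)` and `K_{i'}(q)` are congruent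
  modulo `N` and `(A - 1)^(d+1)` for all `q ∈ ℤ^k`, or in every box at most
  `(C(m_i, ⌊m_i / 2⌋) + C(m_{i'}, ⌊m_{i'} / 2⌋) - 1) ∑_j ∏_{l ≠ j} |A_l|` of the pairs `K_i(q)`,
  `K_{i'}(q)` are not separated by such invariants. -/
theorem result {r k : ℕ} {m : Fin r → ℕ} (hm : ∀ i, 0 < m i) (O : ∀ i, Outer (m i))
    (w u : Fin r → Fin k → Word) (P : ℕ) (hP : ∀ i j, wperm (m i) (w i j) ^ P = 1)
    (s : Fin r → Fin k → ℤ) (p e d : ℕ) (hp : p.Prime) :
    (∀ i : Fin r,
      (∀ q q' : Fin k → ℤ,
        Cong (p ^ e) d (family (O i) (w i) (u i) (s i + (P : ℤ) • q)).close.fPoly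
          (family (O i) (w i) (u i) (s i + (P : ℤ) • q')).close.fPoly) ∨
      ((∀ (X : Dia) (A : Fin k → Finset ℤ), Incongruent p A →
          {q : Fin k → ℤ | (∀ j, q j ∈ A j) ∧
            ¬ SeparatedMod (p ^ e) d (dia (family (O i) (w i) (u i) (s i + (P : ℤ) • q))) X}.ncard ≤
          (m i).choose (m i / 2) * ∑ j, ∏ l ∈ univ.erase j, #(A l)) ∧
        (∀ X : Dia, k = 1 → ∃ R : Finset ℤ, #R ≤ (m i).choose (m i / 2) ∧ ∀ q : Fin k → ℤ,
          ¬ SeparatedMod (p ^ e) d (dia (family (O i) (w i) (u i) (s i + (P : ℤ) • q))) X →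
            ∃ c ∈ R, ∀ j, (p : ℤ) ∣ q j - c) ∧
        ∀ (i' : Fin r) (A : Fin k → Finset ℤ) (B : Finset (Fin k → ℤ)), Incongruent p A →
          {x : (Fin k → ℤ) × (Fin k → ℤ) | (∀ j, x.1 j ∈ A j) ∧ x.2 ∈ B ∧
            ¬ SeparatedMod (p ^ e) d (dia (family (O i) (w i) (u i) (s i + (P : ℤ) • x.1)))
              (dia (family (O i') (w i') (u i') (s i' + (P : ℤ) • x.2)))}.ncard ≤
          (m i).choose (m i / 2) * (∑ j, ∏ l ∈ univ.erase j, #(A l)) * #B)) ∧
    ∀ i i' : Fin r, s i = s i' →
      (∀ q : Fin k → ℤ,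
        Cong (p ^ e) d (family (O i) (w i) (u i) (s i + (P : ℤ) • q)).close.fPoly
          (family (O i') (w i') (u i') (s i' + (P : ℤ) • q)).close.fPoly) ∨
      ∀ A : Fin k → Finset ℤ, Incongruent p A →
        {q : Fin k → ℤ | (∀ j, q j ∈ A j) ∧
          ¬ SeparatedMod (p ^ e) d (dia (family (O i) (w i) (u i) (s i + (P : ℤ) • q)))
            (dia (family (O i') (w i') (u i') (s i' + (P : ℤ) • q)))}.ncard ≤
        ((m i).choose (m i / 2) + (m i').choose (m i' / 2) - 1) *
          ∑ j, ∏ l ∈ univ.erase j, #(A l) := by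
  classical
  have hfin : ∀ (A : Fin k → Finset ℤ) (R : (Fin k → ℤ) → Prop),
      {q : Fin k → ℤ | (∀ j, q j ∈ A j) ∧ R q}.Finite := by
    intro A R
    apply (Fintype.piFinset A).finite_toSet.subset
    intro n hn
    rw [Finset.mem_coe, Fintype.mem_piFinset]
    exact hn.1
  have hOne : ∀ i : Fin r, (∀ q q' : Fin k → ℤ,
        Cong (p ^ e) d (family (O i) (w i) (u i) (s i + (P : ℤ) • q)).close.fPoly
          (family (O i) (w i) (u i) (s i + (P : ℤ) • q')).close.fPoly) ∨
      ∀ (X : Dia) (A : Fin k → Finset ℤ), Incongruent p A →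
          {q : Fin k → ℤ | (∀ j, q j ∈ A j) ∧
            ¬ SeparatedMod (p ^ e) d (dia (family (O i) (w i) (u i) (s i + (P : ℤ) • q))) X}.ncard ≤
          (m i).choose (m i / 2) * ∑ j, ∏ l ∈ univ.erase j, #(A l) := by
    intro i
    by_cases hall : ∀ q q' : Fin k → ℤ,
        Cong (p ^ e) d (family (O i) (w i) (u i) (s i + (P : ℤ) • q)).close.fPoly
          (family (O i) (w i) (u i) (s i + (P : ℤ) • q')).close.fPoly
    · exact Or.inl hall
    right
    intro X A hA
    have h := Q99.SML8.count_const (hm i) (O i) (w i) (u i) P (hP i) (s i) X.D.fPoly (p : ℤ)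
      (Q99.SML8.prime_p p hp).1 (Q99.SML8.prime_p p hp).2 _ (Q99.SML8.reg_mixed p e (d + 1) hp)
    rcases h with h | h
    · refine absurd (fun q q' => ?_) hall
      exact ((cong_iff _ _ _ _).2 (h q)).trans ((cong_iff _ _ _ _).2 (h q')).symm
    · refine (Set.ncard_le_ncard ?_ (hfin A _)).trans (h A hA)
      rintro q ⟨hq1, hq2⟩
      have h5 := cong_of_not_separated hq2
      rw [cong_iff] at h5
      exact ⟨hq1, h5⟩
  refine ⟨fun i => ?_, fun i i' hs => ?_⟩
  · rcases hOne i with h | h
    · exact Or.inl h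
    refine Or.inr ⟨h, fun X hk => ?_, fun i' A B hA => ?_⟩
    · subst hk
      -- representatives of the residue classes
      set S : Set ℤ := {z : ℤ | ¬ SeparatedMod (p ^ e) d
        (dia (family (O i) (w i) (u i) (s i + (P : ℤ) • (fun _ => z)))) X} with hS
      have hp0 : (0 : ℤ) < p := by exact_mod_cast hp.pos
      -- one representative in every class of `S`
      set Cl : Finset ℤ := (Finset.range p).image (fun n : ℕ => (n : ℤ)) |>.filter
        (fun c => ∃ z ∈ S, z % p = c) with hCl
      have hrep : ∀ c ∈ Cl, ∃ z ∈ S, z % p = c := fun c hc => (Finset.mem_filter.1 hc).2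
      choose! g hg1 hg2 using hrep
      have hginj : Set.InjOn g (Cl : Set ℤ) := by
        intro a ha b hb hab
        rw [← hg2 a ha, ← hg2 b hb, hab]
      refine ⟨Cl.image g, ?_, fun q hq => ?_⟩
      · have h1 := h X (fun _ => Cl.image g) (by
          intro j z hz z' hz' hd
          simp only [Finset.mem_image] at hz hz'
          obtain ⟨a, ha, rfl⟩ := hz
          obtain ⟨b, hb, rfl⟩ := hz'
          have h2 : g a % p = g b % p := Int.emod_eq_emod_iff_emod_sub_eq_zero.2
            (Int.emod_eq_zero_of_dvd hd)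
          rw [hg2 a ha, hg2 b hb] at h2
          rw [h2])
        have h3 : ∑ j : Fin 1, ∏ l ∈ univ.erase j, #(Cl.image g) = 1 := by
          simp
        rw [h3, mul_one] at h1
        refine le_trans ?_ h1
        have h4 : {q : Fin 1 → ℤ | (∀ j, q j ∈ Cl.image g) ∧
            ¬ SeparatedMod (p ^ e) d (dia (family (O i) (w i) (u i) (s i + (P : ℤ) • q))) X} =
            (fun z : ℤ => (fun _ : Fin 1 => z)) '' ((Cl.image g : Finset ℤ) : Set ℤ) := by
          ext q
          constructor
          · rintro ⟨hq1, -⟩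
            refine ⟨q 0, hq1 0, ?_⟩
            funext j
            rw [Subsingleton.elim j 0]
          · rintro ⟨z, hz, rfl⟩
            refine ⟨fun _ => hz, ?_⟩
            rw [Finset.mem_coe, Finset.mem_image] at hz
            obtain ⟨a, ha, rfl⟩ := hz
            exact hg1 a ha
        rw [h4, Set.ncard_image_of_injective _ (fun a b hab => congrFun hab 0),
          Set.ncard_coe_finset]
      · have hq' : q = fun _ => q 0 := by
          funext j
          rw [Subsingleton.elim j 0]
        have hmem : q 0 % p ∈ Cl := by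
          rw [hCl, Finset.mem_filter, Finset.mem_image]
          refine ⟨⟨(q 0 % p).toNat, ?_, ?_⟩, q 0, ?_, rfl⟩
          · rw [Finset.mem_range]
            have h1 := Int.emod_nonneg (q 0) hp0.ne'
            have h2 := Int.emod_lt_of_pos (q 0) hp0
            omega
          · exact Int.toNat_of_nonneg (Int.emod_nonneg (q 0) hp0.ne')
          · show ¬ _
            rw [← hq']
            exact hq
        refine ⟨g (q 0 % p), Finset.mem_image_of_mem g hmem, fun j => ?_⟩
        rw [Subsingleton.elim j 0]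
        apply Int.dvd_of_emod_eq_zero
        exact Int.emod_eq_emod_iff_emod_sub_eq_zero.1 (hg2 _ hmem).symm
    · have hsub : {x : (Fin k → ℤ) × (Fin k → ℤ) | (∀ j, x.1 j ∈ A j) ∧ x.2 ∈ B ∧
            ¬ SeparatedMod (p ^ e) d (dia (family (O i) (w i) (u i) (s i + (P : ℤ) • x.1)))
              (dia (family (O i') (w i') (u i') (s i' + (P : ℤ) • x.2)))} ⊆
          ((B.biUnion fun q' =>
            ((hfin A (fun q => ¬ SeparatedMod (p ^ e) d
              (dia (family (O i) (w i) (u i) (s i + (P : ℤ) • q)))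
              (dia (family (O i') (w i') (u i') (s i' + (P : ℤ) • q'))))).toFinset ×ˢ {q'}) :
              Finset ((Fin k → ℤ) × (Fin k → ℤ))) : Set ((Fin k → ℤ) × (Fin k → ℤ))) := by
        rintro ⟨q, q'⟩ ⟨h1, h2, h3⟩
        rw [Finset.mem_coe, Finset.mem_biUnion]
        refine ⟨q', h2, ?_⟩
        rw [Finset.mem_product, Set.Finite.mem_toFinset]
        exact ⟨⟨h1, h3⟩, Finset.mem_singleton_self _⟩
      refine (Set.ncard_le_ncard hsub (Finset.finite_toSet _)).trans ?_
      rw [Set.ncard_coe_finset]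
      refine Finset.card_biUnion_le.trans ?_
      rw [mul_comm]
      refine (Finset.sum_le_card_nsmul _ _ ((m i).choose (m i / 2) *
        ∑ j, ∏ l ∈ univ.erase j, #(A l)) fun q' _ => ?_).trans (le_of_eq (by rw [smul_eq_mul]))
      rw [Finset.card_product, Finset.card_singleton, mul_one,
        ← Set.ncard_eq_toFinset_card _ (hfin A _)]
      exact h _ A hA
  · have h := Q99.SML8.count_diff (hm i) (hm i') (O i) (O i') (w i) (u i) (w i') (u i') P (hP i)
      (hP i') (s i) (p : ℤ)
      (Q99.SML8.prime_p p hp).1 (Q99.SML8.prime_p p hp).2 _ (Q99.SML8.reg_mixed p e (d + 1) hp)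
    rw [← hs]
    rcases h with h | h
    · exact Or.inl fun q => (cong_iff _ _ _ _).2 (h q)
    · right
      intro A hA
      refine (Set.ncard_le_ncard ?_ (hfin A _)).trans (h A hA)
      rintro q ⟨hq1, hq2⟩
      have h5 := cong_of_not_separated hq2
      rw [cong_iff] at h5
      exact ⟨hq1, h5⟩

end Pool.Agent.Results.MP_31fd3b_gt.ModularSeparation
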