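import Pool.Agent.Q299.TPC.Fin2
import Pool.Agent.Q201.RG.Gen
import Pool.Agent.Q201.RG.Loc

/-!
# A few random tiny prime ideals generate the class group, for 100% of the radicands

Let `a > 2`.  The following holds for 100% of the squarefree integers `d`, for 100% of the primes `d`,
and for 100% of the radicands which genus theory allows for unique factorisation (the primes, the
numbers `2 p` and the numbers `p q` with primes `p`, `q` that are 3 mod 4).  Let `K` be the field of
the square root of `d` and let `m` be any natural number.  Choose `m` prime ideals `P₁, …, Pₘ` of norm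
at most `(log d)^a` independently at random.  Then, except with probability at most
`2 * 2 ^ (-m / (10⁶ a log d))`,

* the classes of `P₁, …, Pₘ` generate the ideal class group of `K`;
* the ring of integers of `K` gets unique factorisation when `P₁, …, Pₘ` are inverted: there is a
  nonzero integer `b` of `K` for which `P₁, …, Pₘ` are the prime ideals containing `b` and `𝓞 K[1/b]`
  is a domain with unique factorisation.
-/

set_option autoImplicit false

namespace Pool.Agent.Results.MP_321647_nt.RandomGenerators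

open Filter Finset NumberField
open scoped Classical

/-- The number of the `m`-tuples of prime ideals of norm at most `B`. -/
noncomputable def allTuples (K : Type) [Field K] [NumberField K] (B : ℝ) (m : ℕ) : ℕ :=
  Nat.card {f : Fin m → nonZeroDivisors (Ideal (𝓞 K)) //
    ∀ i, (f i : Ideal (𝓞 K)).IsPrime ∧ (Ideal.absNorm (f i : Ideal (𝓞 K)) : ℝ) ≤ B}

/-- The ring of integers gets unique factorisation when the prime ideals `f i` are inverted: for some
`b ≠ 0` such that the nonzero prime ideals containing `b` are the `f i`, the ring `𝓞 K[1/b]` is a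
domain with unique factorisation. -/
def Unlocks (K : Type) [Field K] [NumberField K] {m : ℕ}
    (f : Fin m → nonZeroDivisors (Ideal (𝓞 K))) : Prop :=
  ∃ b : 𝓞 K, b ≠ 0 ∧
    (∀ P : Ideal (𝓞 K), P.IsPrime → P ≠ ⊥ → (b ∈ P ↔ ∃ i, P = (f i : Ideal (𝓞 K)))) ∧
    IsDomain (Localization.Away b) ∧ UniqueFactorizationMonoid (Localization.Away b)

/-- The number of the `m`-tuples of prime ideals of norm at most `B` whose classes generate the class
group and whose inversion gives unique factorisation. -/
noncomputable def generating (K : Type) [Field K] [NumberField K] (B : ℝ) (m : ℕ) : ℕ :=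
  Nat.card {f : Fin m → nonZeroDivisors (Ideal (𝓞 K)) //
    (∀ i, (f i : Ideal (𝓞 K)).IsPrime ∧ (Ideal.absNorm (f i : Ideal (𝓞 K)) : ℝ) ≤ B) ∧
      Subgroup.closure (Set.range fun i => ClassGroup.mk0 (f i)) = ⊤ ∧ Unlocks K f}

/-- The property of the integer `d` in the theorem: for every quadratic field containing a square root
of `d` and every `m`, at least the proportion `1 - 2 * 2 ^ (-m / (10⁶ a log d))` of the `m`-tuples of
prime ideals of norm at most `(log d)^a` are generating. -/
def Good (a : ℝ) (d : ℕ) : Prop :=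
  ∀ (K : Type) [Field K] [NumberField K], Module.finrank ℚ K = 2 →
    (∃ x : K, x ^ 2 = (d : K)) → ∀ m : ℕ,
      (1 - 2 * (2 : ℝ) ^ (-(m : ℝ) / (1000000 * a * Real.log d))) *
        allTuples K ((Real.log d) ^ a) m ≤ generating K ((Real.log d) ^ a) m

/-- `d = 2 p` with a prime `p ≡ 3 mod 4`. -/
def TwicePrime (d : ℕ) : Prop := ∃ p : ℕ, p.Prime ∧ p % 4 = 3 ∧ d = 2 * p

/-- `d = p q` with two different primes `p ≡ q ≡ 3 mod 4`. -/
def PrimePair (d : ℕ) : Prop :=
  ∃ p q : ℕ, p.Prime ∧ q.Prime ∧ p < q ∧ p % 4 = 3 ∧ q % 4 = 3 ∧ d = p * q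

/-- The radicands that can have unique factorisation. -/
def Candidate (d : ℕ) : Prop := d.Prime ∨ TwicePrime d ∨ PrimePair d

/-- The proportion of the numbers up to `X` with the property `F` that do not have the property `G`
tends to zero as `X` tends to infinity. -/
def AlmostAll (F G : ℕ → Prop) : Prop :=
  Tendsto (fun X : ℕ => (((Finset.Icc 1 X).filter (fun d => F d ∧ ¬ G d)).card : ℝ) /
    (((Finset.Icc 1 X).filter F).card : ℝ)) atTop (nhds 0)

open Pool.Agent.Q299.TPC

section

variable (K : Type) [Field K] [NumberField K] (B : ℝ)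

theorem fin_set : {P : nonZeroDivisors (Ideal (𝓞 K)) | (P : Ideal (𝓞 K)).IsPrime ∧
    (Ideal.absNorm (P : Ideal (𝓞 K)) : ℝ) ≤ B}.Finite :=
  (finite_le K B).subset fun _ hP => hP.2

/-- the finite set of the small prime ideals -/
noncomputable def QQ : Finset (nonZeroDivisors (Ideal (𝓞 K))) := (fin_set K B).toFinset

theorem mem_QQ (P : nonZeroDivisors (Ideal (𝓞 K))) : P ∈ QQ K B ↔
    (P : Ideal (𝓞 K)).IsPrime ∧ (Ideal.absNorm (P : Ideal (𝓞 K)) : ℝ) ≤ B := by
  unfold QQ
  rw [Set.Finite.mem_toFinset]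
  rfl

theorem allTuples_eq (m : ℕ) : allTuples K B m = (QQ K B).card ^ m := by
  unfold allTuples
  have h1 : (Fintype.piFinset (fun _ : Fin m => QQ K B)).card = (QQ K B).card ^ m := by
    rw [Fintype.card_piFinset]
    simp
  rw [← h1]
  apply Nat.subtype_card
  intro f
  rw [Fintype.mem_piFinset]
  exact forall_congr' fun i => mem_QQ K B (f i)

theorem generating_eq (m : ℕ) : generating K B m =
    ((Fintype.piFinset fun _ : Fin m => QQ K B).filter fun f =>
      Subgroup.closure (Set.range fun i => ClassGroup.mk0 (f i)) = ⊤).card := by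
  unfold generating
  apply Nat.subtype_card
  intro f
  rw [mem_filter, Fintype.mem_piFinset]
  constructor
  · rintro ⟨h1, h2⟩
    have h3 := fun i => (mem_QQ K B (f i)).1 (h1 i)
    obtain ⟨b, hb1, hb2, hb3, hb4⟩ := Q201.RG.exists_away K f (fun i => (h3 i).1) h2
    exact ⟨h3, h2, b, hb1, hb2, hb3, inferInstance⟩
  · rintro ⟨h1, h2, -⟩
    exact ⟨fun i => (mem_QQ K B (f i)).2 (h1 i), h2⟩

end

/-- the property of the helper files implies the property here -/
theorem good_of (a : ℝ) (ha : 2 < a) (d : ℕ) (hd : 3 ≤ d) (h : RobG a d) : Good a d := by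
  have hd3 : (3 : ℝ) ≤ d := by exact_mod_cast hd
  have hl : 1.098 ≤ Real.log d := by
    have h1 := Real.log_le_log (by norm_num : (0 : ℝ) < 3) hd3
    have h2 := Real.log_three_gt_d9
    linarith
  intro K _ _ hK hx m
  obtain ⟨h1, h2⟩ := h K hK hx
  set l := Real.log d with hld
  have hl0 : 0 < l := by linarith
  have h3 := Q201.RG.field_tail K hK ha hl h1 (fun C => by
    obtain ⟨L, hL1, hL2, hL3⟩ := h2 ∅ (by
      rw [card_empty, Nat.cast_zero]
      positivity) C
    exact ⟨L, fun P hP => ⟨(hL1 P hP).1, (hL1 P hP).2.1⟩, hL2, hL3⟩) (QQ K (l ^ a))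
    (mem_QQ K (l ^ a)) m
  rw [allTuples_eq, generating_eq]
  have h4 := card_filter_add_card_filter_not (s := Fintype.piFinset fun _ : Fin m => QQ K (l ^ a))
    (fun f => Subgroup.closure (Set.range fun i => ClassGroup.mk0 (f i)) = ⊤)
  have h5 : (Fintype.piFinset (fun _ : Fin m => QQ K (l ^ a))).card = (QQ K (l ^ a)).card ^ m := by
    rw [Fintype.card_piFinset]
    simp
  rw [h5] at h4
  have h6 : (2 : ℝ) ^ (-(m : ℝ) / (1000000 * a * l)) =
      (1 / 2 : ℝ) ^ ((m : ℝ) / (1000000 * (a * l))) := by
    rw [one_div, Real.inv_rpow (by norm_num), ← Real.rpow_neg (by norm_num)]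
    congr 1
    rw [neg_div, mul_assoc]
  rw [h6]
  have h7 : (((QQ K (l ^ a)).card ^ m : ℕ) : ℝ) = ((QQ K (l ^ a)).card : ℝ) ^ m := by push_cast; rfl
  have h8 : ((((Fintype.piFinset fun _ : Fin m => QQ K (l ^ a)).filter fun f =>
      Subgroup.closure (Set.range fun i => ClassGroup.mk0 (f i)) = ⊤).card : ℝ)) +
      (((Fintype.piFinset fun _ : Fin m => QQ K (l ^ a)).filter fun f =>
      Subgroup.closure (Set.range fun i => ClassGroup.mk0 (f i)) ≠ ⊤).card : ℝ) =
      ((QQ K (l ^ a)).card : ℝ) ^ m := by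
    exact_mod_cast h4
  rw [h7]
  linarith

theorem card_diff (a : ℝ) (ha : 2 < a) (F : ℕ → Prop) (X : ℕ) :
    (((Finset.Icc 1 X).filter (fun d => F d ∧ ¬ Good a d)).card : ℝ) ≤
      (((Finset.Ioc 0 X).filter (fun d => F d ∧ ¬ RobG a d)).card : ℝ) + 2 := by
  have hsub : (Finset.Icc 1 X).filter (fun d => F d ∧ ¬ Good a d) ⊆
      (Finset.Ioc 0 X).filter (fun d => F d ∧ ¬ RobG a d) ∪ {1, 2} := by
    intro d hd
    rw [mem_filter, mem_Icc] at hd
    rw [mem_union, mem_filter, mem_Ioc, mem_insert, mem_singleton]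
    by_cases h3 : 3 ≤ d
    · left
      exact ⟨⟨by omega, hd.1.2⟩, hd.2.1, fun h => hd.2.2 (good_of a ha d h3 h)⟩
    · right
      omega
  have h1 := (card_le_card hsub).trans (card_union_le _ _)
  have h2 : ({1, 2} : Finset ℕ).card ≤ 2 := card_le_two
  exact_mod_cast h1.trans (Nat.add_le_add_left h2 _)

theorem almost (a : ℝ) (ha : 2 < a) (F : ℕ → Prop)
    (hF : Tendsto (fun X : ℕ => (((Finset.Icc 1 X).filter F).card : ℝ)) atTop atTop)
    (h : Tendsto (fun X : ℕ => (((Finset.Ioc 0 X).filter
      (fun D => F D ∧ ¬ RobG a D)).card : ℝ) /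
      (((Finset.Ioc 0 X).filter F).card : ℝ)) atTop (nhds 0)) : AlmostAll F (Good a) := by
  unfold AlmostAll
  have h2 : Tendsto (fun X : ℕ => (2 : ℝ) / (((Finset.Icc 1 X).filter F).card : ℝ)) atTop
      (nhds 0) := hF.const_div_atTop 2
  have h3 := h.add h2
  rw [add_zero] at h3
  refine squeeze_zero (fun X => by positivity) (fun X => ?_) h3
  have e1 : (Finset.Ioc 0 X).filter F = (Finset.Icc 1 X).filter F := by
    congr 1
  rw [e1, ← add_div]
  exact div_le_div_of_nonneg_right (card_diff a ha F X) (by positivity)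

theorem almost' (a : ℝ) (ha : 2 < a) (F : ℕ → Prop) (hF : ∀ d, F d → 3 ≤ d)
    (h : Tendsto (fun X : ℕ => (((Finset.Ioc 0 X).filter
      (fun D => F D ∧ ¬ RobG a D)).card : ℝ) /
      (((Finset.Ioc 0 X).filter F).card : ℝ)) atTop (nhds 0)) : AlmostAll F (Good a) := by
  unfold AlmostAll
  refine squeeze_zero (fun X => by positivity) (fun X => ?_) h
  have e1 : (Finset.Ioc 0 X).filter F = (Finset.Icc 1 X).filter F := by
    congr 1
  rw [e1]
  apply div_le_div_of_nonneg_right _ (by positivity)
  have hsub : (Finset.Icc 1 X).filter (fun d => F d ∧ ¬ Good a d) ⊆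
      (Finset.Icc 1 X).filter (fun d => F d ∧ ¬ RobG a d) := by
    intro d hd
    rw [mem_filter, mem_Icc] at hd
    rw [mem_filter, mem_Icc]
    exact ⟨hd.1, hd.2.1, fun h => hd.2.2 (good_of a ha d (hF d hd.2.1) h)⟩
  have e2 : (Finset.Ioc 0 X).filter (fun d => F d ∧ ¬ RobG a d) =
      (Finset.Icc 1 X).filter (fun d => F d ∧ ¬ RobG a d) := by
    congr 1
  rw [e2]
  exact_mod_cast card_le_card hsub

theorem primes_unbounded (F : ℕ → Prop) (hF : ∀ d : ℕ, d.Prime → F d) :
    Tendsto (fun X : ℕ => (((Finset.Icc 1 X).filter F).card : ℝ)) atTop atTop := by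
  refine tendsto_natCast_atTop_atTop.comp (tendsto_atTop_mono ?_ Nat.tendsto_primeCounting)
  intro X
  unfold Nat.primeCounting Nat.primeCounting'
  rw [Nat.count_eq_card_filter_range]
  apply card_le_card
  intro d hd
  rw [mem_filter, mem_range] at hd
  rw [mem_filter, mem_Icc]
  have := hd.2.two_le
  exact ⟨⟨by omega, by omega⟩, hF d hd.2⟩

theorem result :
    ∀ a : ℝ, 2 < a →
      Tendsto (fun X : ℕ => (((Finset.Icc 1 X).filter
        (fun d => Squarefree d ∧ ¬ Good a d)).card : ℝ) / X) atTop (nhds 0) ∧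
      AlmostAll Nat.Prime (Good a) ∧ AlmostAll Candidate (Good a) ∧
        AlmostAll PrimePair (Good a) ∧ AlmostAll TwicePrime (Good a) := by
  intro a ha
  refine ⟨?_, ?_, ?_, ?_, ?_⟩
  · have h1 := rob_all a ha
    have h2 : Tendsto (fun X : ℕ => (2 : ℝ) / X) atTop (nhds 0) :=
      tendsto_natCast_atTop_atTop.const_div_atTop 2
    have h3 := h1.add h2
    rw [add_zero] at h3
    refine squeeze_zero (fun X => by positivity) (fun X => ?_) h3
    rw [← add_div]
    apply div_le_div_of_nonneg_right _ (by positivity)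
    have hsub : (Finset.Icc 1 X).filter (fun d => Squarefree d ∧ ¬ Good a d) ⊆
        (Finset.Icc 2 X).filter (fun d => Squarefree d ∧ ¬ RobG a d) ∪ {1, 2} := by
      intro d hd
      rw [mem_filter, mem_Icc] at hd
      rw [mem_union, mem_filter, mem_Icc, mem_insert, mem_singleton]
      by_cases h3 : 3 ≤ d
      · left
        exact ⟨⟨by omega, hd.1.2⟩, hd.2.1, fun h => hd.2.2 (good_of a ha d h3 h)⟩
      · right
        omega
    have h4 := (card_le_card hsub).trans (card_union_le _ _)
    have h5 : ({1, 2} : Finset ℕ).card ≤ 2 := card_le_two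
    exact_mod_cast h4.trans (Nat.add_le_add_left h5 _)
  · exact almost a ha Nat.Prime (primes_unbounded _ fun _ h => h)
      (by convert rob_primes a ha)
  · exact almost a ha Candidate (primes_unbounded _ fun _ h => Or.inl h)
      (by convert rob_cand a ha; all_goals rfl)
  · refine almost' a ha PrimePair ?_ (rob_semi a ha)
    rintro d ⟨p, q, hp, hq, _, _, _, rfl⟩
    have h1 := hp.two_le
    have h2 := hq.two_le
    nlinarith
  · refine almost' a ha TwicePrime ?_ (rob_two a ha)
    rintro d ⟨p, hp, _, rfl⟩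
    have h1 := hp.two_le
    omega

end Pool.Agent.Results.MP_321647_nt.RandomGenerators
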