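import Pool.Agent.Q8.LEO.Main

/-!
Leonard pairs and the equitable presentation of `U_q(sl₂)`: over `ℚ`, over `ℝ` and over every other
ordered field there is a Leonard pair of diameter `3` with `β = q ^ 2 + q ^ (-2)`, `q = 2`, for which
there is no irreducible `U_q(sl₂)`-module structure with `A` in the span of `1, X, Y, XY` and `A*` in
the span of `1, Y, Z, YZ`.

Idea: in a basis of eigenvectors of `Y` both maps are bidiagonal, and the products of the entries
beside the diagonals are, up to known factors, the values of `(p + a s) (r + b s)` at three points,
with `p r` known. For Leonard pairs of `q`-Racah type this is a given quadratic polynomial, and here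
it has negative discriminant.
-/

namespace Pool.Agent.Results.MP_32472a_al.OrderedFields

open Q8.LEO

theorem result (K : Type*) [Field K] [LinearOrder K] [IsStrictOrderedRing K] :
    -- `q = 2` is not a root of unity
    (∀ n : ℕ, 0 < n → (2 : K) ^ n ≠ 1) ∧
    ∃ (A B : Matrix (Fin 4) (Fin 4) K) (θ θs : Fin 4 → K),
      -- `A, B` is a Leonard pair on `K ^ 4`
      LeonardPair A B θ θs ∧
      -- with `β = q ^ 2 + q ^ (-2)`
      (∀ β : K, Recurrence β θ ∧ Recurrence β θs ↔ β = 2 ^ 2 + (2 : K)⁻¹ ^ 2) ∧
      -- without a module structure of the required kind
      ¬ HasModule (2 : K) A B := by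
  refine ⟨fun n hn h => ?_, AA, BB, th, ts, leonard, ?_, no_module⟩
  · have : (1 : K) < 2 ^ n := one_lt_pow₀ (by norm_num) (by omega)
    rw [h] at this
    exact lt_irrefl _ this
  · intro β
    constructor
    · rintro ⟨h, -⟩
      have := h 0 (by norm_num)
      have e : (255 : K) - (-60) = (β + 1) * (60 - 0) := this
      norm_num
      linarith
    · rintro rfl
      constructor
      · intro i hi
        obtain rfl : i = 0 := by omega
        show (255 : K) - (-60) = _ * (60 - 0)
        norm_num
      · intro i hi
        obtain rfl : i = 0 := by omega
        show (62 : K) - (-127) = _ * (8 - (-28))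
        norm_num

end Pool.Agent.Results.MP_32472a_al.OrderedFields
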