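import Mathlib
import Pool.Agent.Q7.RL.Model
import Pool.Agent.Q7.RL.AGrow

/-!
# The rank conjecture relative to a subfield, where the order grows by at most two

`M/K` is a Galois extension of number fields with group `M ≃ₐ[K] M`, an arbitrary finite group, `L` is
a field between `K` and `M`, Galois over `K` and with `M/L` solvable, and `E` is an elliptic curve over
`K` with an integral equation `W` (`IsModel E W`).

The L-functions and ranks are real ones. `LSeries V` is the Euler product `L(E/F, s)` with the right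
factors at all primes of `F`, for `Re s > 3/2`; `rank E` is the rank of the group of points.
`Pool.Agent.Q92.RT.twistedL M W φ` is `L(E ⊗ φ, s)` for a class function `φ` of the Galois group:
`exp ∑ φ(Frob_v ^ n) (α_v ^ n + β_v ^ n) / (n q_v ^ (n s))` over `n ≥ 1` and the primes `v` of `K` which do not
divide `6` and the discriminant of `W` and are unramified in `M`; the finitely many Euler factors left
out have no zeros and poles for `Re s ≥ 1`. `Continues f g` says that `f` is meromorphic on `ℂ` and
equal to `g` for `Re s > 3/2`, and `cont g` is such an `f`; `HasOrder g s₀ n` and `LOrder E s₀ n` say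
that `g`, or `L(E, s)`, has a meromorphic continuation to `ℂ`, of order `n` at `s₀`.

The assumptions concern continuation and functional equation only; they are known if `E` is
automorphic over `M` (Brauer; solvable descent). `Pool.Agent.Q92.RT.Automorphic M W 1`: `L(E ⊗ χ, s)`
has a meromorphic continuation for the irreducible characters `χ` of the Galois group, and
`L(E/M^H ⊗ ψ, s)` has one which is holomorphic at `1` for the linear characters `ψ` of the SOLVABLE
subgroups `H`. `FunctionalEquations M W`: the functional equations `Λ(χ, s) = w(χ) Λ(χ̄, 2 - s)` near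
`s = 1`, with `w(χ) = 1` for symplectic `χ`.

The characters `χ` which are not trivial on the Galois group `L.fixingSubgroup` of `M/L` are the ones
which do not come from the Galois group of `L/K`; the twists with them are called new.
-/

set_option autoImplicit false

open NumberField IsDedekindDomain Pool.Agent.H541R3.ART Pool.Agent.W446.AS Pool.Agent.H302R2
  Pool.Agent.H302R3 Pool.Agent.Q7.TZ Pool.Agent.Q7.SZ Pool.Agent.Q92.RT Pool.Agent.W353.NF
  Pool.Agent.H341R2.EC Pool.Agent.Q7.RL

/-- Let `E` be an elliptic curve over the number field `K`, let `K ⊆ L ⊆ M` with `L/K` and `M/K` Galois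
and `M/L` solvable; let `n χ` and `r F` be the orders at `s = 1` of `L(E ⊗ χ, s)` and `L(E/F, s)`, and
suppose that `r M ≤ r L + 2` (`r L` and the Galois group of `L/K` are arbitrary). Then `r L ≤ r M`, and
there is a Galois extension `K₁/K` in `M` with cyclic or dihedral group: the Galois group of `M/K₁` is
the kernel of a linear character `l` of a subgroup `B` of index at most two of the Galois group, and
`w ^ 2` is trivial on `K₁` for `w ∉ B`; and the following holds.
(1) `n χ ≥ 0` for all new twists, and if `n χ > 0` then `χ` comes from the Galois group of `K₁/K`.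
(2) `r F - r (F ∩ L) = r (F ∩ K₁) - r (F ∩ K₁ ∩ L)` for all fields `F` between `K` and `M`.
(3) The rank conjecture holds for `E` over ALL fields between `K` and `M` if and only if it holds over
`M`, over the fields between `K` and `L`, and over the fields between `K` and `K₁`.
(4) If this is the case, then the cyclic part has order `1`, `2`, `3`, `4` or `6`, and
`[K₁ : K] ≤ 12`. -/
theorem Pool.Agent.Results.MP_32c55d_nt.GrowthOverSubfield.result
    (K M : Type) [Field K] [NumberField K] [Field M] [NumberField M] [Algebra K M] [IsGalois K M]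
    (E : WeierstrassCurve K) (hE : E.IsElliptic) (W : WeierstrassCurve (𝓞 K)) (hW : IsModel E W)
    (a : Automorphic M W 1) (Λ : FunctionalEquations M W)
    (L : IntermediateField K M) [IsGalois K L] (hsol : Group.IsSolvable L.fixingSubgroup)
    (k m : ℤ) (hk : LOrder (E.map (algebraMap K M)) 1 k) (hm : LOrder (E.map (algebraMap K L)) 1 m)
    (hkm : k ≤ m + 2) :
    m ≤ k ∧
    ∃ (n : ((M ≃ₐ[K] M) → ℂ) → ℤ) (r : IntermediateField K M → ℤ), Orders E W 1 n r ∧
    ∃ (K₁ : IntermediateField K M) (B : Subgroup (M ≃ₐ[K] M)) (l : B →* ℂˣ),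
      IsGalois K K₁ ∧ B.index ≤ 2 ∧ K₁.fixingSubgroup ≤ B ∧
      (∀ b : B, l b = 1 ↔ (b : M ≃ₐ[K] M) ∈ K₁.fixingSubgroup) ∧
      (∀ w, w ∉ B → w * w ∈ K₁.fixingSubgroup) ∧
      (∀ χ ∈ Irr (M ≃ₐ[K] M), (∃ x ∈ L.fixingSubgroup, χ x ≠ χ 1) →
        0 ≤ n χ ∧ (n χ ≠ 0 → ∀ x ∈ K₁.fixingSubgroup, χ x = χ 1)) ∧
      (∀ F, r F - r (F ⊓ L) = r (F ⊓ K₁) - r (F ⊓ K₁ ⊓ L)) ∧
      ((∀ F : IntermediateField K M, r F = rank (E.map (algebraMap K F))) ↔
        (∀ F : IntermediateField K M, F ≤ L → r F = rank (E.map (algebraMap K F))) ∧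
          k = rank (E.map (algebraMap K M)) ∧
          ∀ F : IntermediateField K M, F ≤ K₁ → r F = rank (E.map (algebraMap K F))) ∧
      ((∀ F : IntermediateField K M, r F = rank (E.map (algebraMap K F))) →
        Nat.card l.range ∈ ({1, 2, 3, 4, 6} : Set ℕ) ∧ Module.finrank K K₁ ≤ 12) := by
  classical
  obtain ⟨n, r, ho⟩ := exists_orders (M := M) hE hW (by simp) a
  have hM := ho.eq_of_lorder_top hE hW (by simp) a hk
  have hLm := ho.eq_of_lorder hE L hm
  have hb := ho.mbot hE hW (by simp) a
  rw [hM] at hb
  have hbL := ho.mlin hE hW (by simp) a L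
  rw [hLm] at hbL
  have hfin : FiniteDimensional ℚ (TensorProduct ℤ ℚ (E.baseChange M).toAffine.Point) :=
    mw_finite hE
  obtain ⟨h0, N, B, l, hN, hNB, hB, hl, hw, h3, h4, h6⟩ := abs_grow (M ≃ₐ[K] M)
    (TwistData.ofCurve a).model (Λ.model a) L.fixingSubgroup hsol k m hb hbL hkm
  obtain ⟨h7, h8⟩ := h6 (TensorProduct ℤ ℚ (E.baseChange M).toAffine.Point) (mw E M)
  obtain ⟨K₁, hL, rfl⟩ := exists_galois N
  refine ⟨h0, n, r, ho, K₁, B, l, hL, hB, hNB, hl, hw, fun χ hχ hne => ?_, fun F => ?_, ?_,
    fun h => ?_⟩
  · obtain ⟨h9, h10⟩ := h3 χ hχ hne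
    rw [ho.mL a hχ] at h9 h10
    exact ⟨by exact_mod_cast h9, fun h11 => h10 (by exact_mod_cast h11)⟩
  · have h9 := h4 F.fixingSubgroup
    rw [← fixingSubgroup_inf, ← fixingSubgroup_inf, ← fixingSubgroup_inf,
      ho.mlin hE hW (by simp) a, ho.mlin hE hW (by simp) a, ho.mlin hE hW (by simp) a,
      ho.mlin hE hW (by simp) a] at h9
    have h10 : r F + r (F ⊓ K₁ ⊓ L) = r (F ⊓ L) + r (F ⊓ K₁) := by exact_mod_cast h9
    omega
  · rw [← ho.rankHolds_all hE hW a, h7]
    refine and_congr ?_ (and_congr ?_ ?_)
    · constructor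
      · intro h9 F hF
        exact (ho.rankHolds hE hW a F).1 (h9 F.fixingSubgroup (fixing_le_iff.2 hF))
      · intro h9 H hH
        obtain ⟨F, rfl⟩ := exists_fixing H
        exact (ho.rankHolds hE hW a F).2 (h9 F (fixing_le_iff.1 hH))
    · unfold RankHolds
      rw [hb, rk_mw_bot]
      exact WithTop.coe_eq_coe
    · constructor
      · intro h9 F hF
        exact (ho.rankHolds hE hW a F).1 (h9 F.fixingSubgroup (fixing_le_iff.2 hF))
      · intro h9 H hH
        obtain ⟨F, rfl⟩ := exists_fixing H
        exact (ho.rankHolds hE hW a F).2 (h9 F (fixing_le_iff.1 hH))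
  · have h9 := h8 ((ho.rankHolds_all hE hW a).2 h)
    refine ⟨h9, ?_⟩
    rw [finrank_eq_index, ← Subgroup.relIndex_mul_index hNB]
    have h10 : K₁.fixingSubgroup.relIndex B = Nat.card l.range := by
      have h11 : K₁.fixingSubgroup.subgroupOf B = l.ker := by
        ext b
        rw [Subgroup.mem_subgroupOf, MonoidHom.mem_ker, hl b]
      unfold Subgroup.relIndex
      rw [h11]
      exact Subgroup.index_ker l
    rw [h10]
    have h12 : Nat.card l.range ≤ 6 := by
      simp only [Set.mem_insert_iff, Set.mem_singleton_iff] at h9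
      omega
    calc Nat.card l.range * B.index ≤ 6 * 2 := Nat.mul_le_mul h12 hB
      _ = 12 := by norm_num
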