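import Pool.Agent.Q286.EQ.NF
import Pool.Agent.Q286.EQ.Rep
import Pool.Agent.Q286.EQ.MW
import Pool.Agent.Q286.EQ.Rk

/-!
# The character of the Mordell-Weil group of an elliptic curve from the classes of Frobenius elements

`K/F` is a finite Galois extension of number fields, `Γ = Gal(K/F)`, and `E` is an elliptic curve over
`F`, given by an integral Weierstrass equation `W` with discriminant `≠ 0`.  The conjecture of Birch and
Swinnerton-Dyer for `E` over the fields between `F` and `K`, in its equivariant form, says that for each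
irreducible representation `ρ` of `Γ` the order at `s = 1` of `L(E ⊗ ρ, s)` is the multiplicity of `ρ`
in `ℂ ⊗ E(K)`.

The theorem expresses it by sums over the primes `v` of `F` with Frobenius elements in one conjugacy
class of `Γ`: the rotated sum over the class of `σ` of the numbers `a_v / q_v` (and of the corresponding
numbers for the squares of primes) is, up to a bounded error, a multiple of `log log X`, without any
hypothesis on the zeros of the L-functions; and the conjecture holds for all `ρ` if and only if, for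
each `σ`, the multiple is minus the density of the class times the value at `σ` of the character of `Γ`
on the Mordell-Weil group.
-/

set_option autoImplicit false

namespace Pool.Agent.Results.MP_32c55d_nt.MordellWeilCharacter

open Complex Filter Topology NumberField IsDedekindDomain Polynomial TensorProduct WeierstrassCurve
open scoped Classical

/-- The number of solutions of the affine Weierstrass equation of `V` with coordinates in `R`. -/
noncomputable def affineCount {R : Type} [CommRing R] (V : WeierstrassCurve R) : ℕ :=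
  Nat.card {P : R × R // P.2 ^ 2 + V.a₁ * P.1 * P.2 + V.a₃ * P.2 =
    P.1 ^ 3 + V.a₂ * P.1 ^ 2 + V.a₄ * P.1 + V.a₆}

variable {F : Type} [Field F] [NumberField F]

/-- `q_v`, the number of elements of the residue field of `v`. -/
noncomputable def q (v : HeightOneSpectrum (𝓞 F)) : ℕ := Ideal.absNorm v.asIdeal

/-- `a_v = q_v + 1 - #E(k_v)`, `k_v` the residue field of `v`; there is one point at infinity. -/
noncomputable def frobTrace (W : WeierstrassCurve (𝓞 F)) (v : HeightOneSpectrum (𝓞 F)) : ℤ :=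
  (q v : ℤ) + 1 - ((affineCount (W.map (Ideal.Quotient.mk v.asIdeal)) : ℤ) + 1)

variable {K : Type} [Field K] [NumberField K] [Algebra F K]

/-- `σ` is a Frobenius element at the prime `v` of `F`: there is a prime `w` of `K` above `v` with
`σ x ≡ x ^ q_v` modulo `w` for all integers `x` of `K`. -/
def IsFrobenius (v : HeightOneSpectrum (𝓞 F)) (σ : K ≃ₐ[F] K) : Prop :=
  ∃ w : Ideal (𝓞 K), w.IsMaximal ∧ w.comap (algebraMap (𝓞 F) (𝓞 K)) = v.asIdeal ∧
    ∀ x : 𝓞 K, ∃ y ∈ w, (y : K) = σ x - (x : K) ^ q v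

/-- The polynomials `B v` are the Euler factors of `L(E ⊗ ρ, s)` at all but finitely many primes `v`:
`B_v(z) = det(1 - a_v z ρ(Frob_v⁻¹) + q_v z² ρ(Frob_v⁻¹)²)`. -/
def IsEulerFactor (W : WeierstrassCurve (𝓞 F)) {n : ℕ}
    (ρ : Representation ℂ (K ≃ₐ[F] K) (Fin n → ℂ)) (B : HeightOneSpectrum (𝓞 F) → ℂ[X]) : Prop :=
  ∀ᶠ v in cofinite, ∀ σ : K ≃ₐ[F] K, IsFrobenius v σ → ∀ z : ℂ,
    (B v).eval z = LinearMap.det (1 - ((frobTrace W v : ℂ) * z) • ρ σ⁻¹ +
      ((q v : ℂ) * z ^ 2) • (ρ σ⁻¹) ^ 2)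

/-- The Euler product `∏_v B_v(q_v^{-s})⁻¹`. -/
noncomputable def eulerProduct (B : HeightOneSpectrum (𝓞 F) → ℂ[X]) (s : ℂ) : ℂ :=
  ∏' v : HeightOneSpectrum (𝓞 F), ((B v).eval ((q v : ℂ) ^ (-s)))⁻¹

/-- The kernel `e^{icu} / Γ(1 + u)`. -/
noncomputable def kernel (c u : ℝ) : ℂ := exp ((c * u : ℝ) * I) * ((Real.Gamma (1 + u))⁻¹ : ℝ)

/-- The sum over the class of `σ`, with chosen Frobenius elements `φ_v`: the sum over the primes `v` of
`F` not dividing the discriminant of
`[φ_v ~ σ] (a_v / q_v) k(log q_v / log X) + [φ_v² ~ σ] ((a_v² - 2 q_v) / (2 q_v²)) k(2 log q_v / log X)`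
where `k(u) = e^{icu} / Γ(1 + u)` and `~` is conjugacy. -/
noncomputable def classTerm (W : WeierstrassCurve (𝓞 F)) (φ : HeightOneSpectrum (𝓞 F) → K ≃ₐ[F] K)
    (c : ℝ) (σ : K ≃ₐ[F] K) (X : ℝ) (v : HeightOneSpectrum (𝓞 F)) : ℂ :=
  if W.Δ ∈ v.asIdeal then 0 else
    (if IsConj (φ v) σ then (frobTrace W v : ℂ) / (q v : ℂ) *
      kernel c (Real.log (q v) / Real.log X) else 0) +
    (if IsConj (φ v ^ 2) σ then ((frobTrace W v : ℂ) ^ 2 - 2 * (q v : ℂ)) / (2 * (q v : ℂ) ^ 2) *
      kernel c (2 * Real.log (q v) / Real.log X) else 0)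

/-- The sum over the class of `σ`. -/
noncomputable def classSum (W : WeierstrassCurve (𝓞 F)) (φ : HeightOneSpectrum (𝓞 F) → K ≃ₐ[F] K)
    (c : ℝ) (σ : K ≃ₐ[F] K) (X : ℝ) : ℂ :=
  ∑' v, classTerm W φ c σ X v

/-- The proportion of the class of `σ` in the Galois group. -/
noncomputable def density (σ : K ≃ₐ[F] K) : ℝ :=
  (Nat.card {τ : K ≃ₐ[F] K // IsConj σ τ} : ℝ) / Nat.card (K ≃ₐ[F] K)

variable (K) in
/-- The group `E(K)`. -/
abbrev Points (W : WeierstrassCurve (𝓞 F)) : Type := (W.baseChange K).toAffine.Point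

variable (K) in
/-- The action of `Gal(K/F)` on `ℂ ⊗ E(K)`. -/
noncomputable def mordellWeil (W : WeierstrassCurve (𝓞 F)) :
    Representation ℂ (K ≃ₐ[F] K) (ℂ ⊗[ℤ] Points K W) where
  toFun σ := LinearMap.baseChange ℂ
    (Affine.Point.map (W' := W.toAffine) (σ : K →ₐ[F] K)).toIntLinearMap
  map_one' := by
    have h : (Affine.Point.map (W' := W.toAffine) ((1 : K ≃ₐ[F] K) : K →ₐ[F] K)).toIntLinearMap =
        LinearMap.id := by
      ext P
      match P with
      | 0 => rfl
      | .some _ _ _ => rfl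
    rw [h, LinearMap.baseChange_id]
    rfl
  map_mul' σ τ := by
    have h : (Affine.Point.map (W' := W.toAffine) ((σ * τ : K ≃ₐ[F] K) : K →ₐ[F] K)).toIntLinearMap =
        (Affine.Point.map (W' := W.toAffine) (σ : K →ₐ[F] K)).toIntLinearMap ∘ₗ
        (Affine.Point.map (W' := W.toAffine) (τ : K →ₐ[F] K)).toIntLinearMap := by
      ext P
      match P with
      | 0 => rfl
      | .some _ _ _ => rfl
    rw [h, LinearMap.baseChange_comp]
    rfl

/-- The multiplicity of `ρ` in `ℂ ⊗ E(K)`: the dimension of `Hom(ρ, ℂ ⊗ E(K))`. -/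
noncomputable def multiplicity (W : WeierstrassCurve (𝓞 F)) {n : ℕ}
    (ρ : Representation ℂ (K ≃ₐ[F] K) (Fin n → ℂ)) : ℕ :=
  Module.finrank ℂ (ρ.IntertwiningMap (mordellWeil K W))

theorem frobTrace_eq (W : WeierstrassCurve (𝓞 F)) (v : HeightOneSpectrum (𝓞 F)) :
    frobTrace W v = Pool.Agent.W540.BE.trv W v := rfl

theorem q_eq (v : HeightOneSpectrum (𝓞 F)) : q v = Pool.Agent.W540.BE.nm F v := rfl

theorem kernel_eq (c u : ℝ) : kernel c u = Pool.Agent.Q286.RL.ker c u := rfl

theorem classTerm_eq (W : WeierstrassCurve (𝓞 F)) (φ : HeightOneSpectrum (𝓞 F) → K ≃ₐ[F] K)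
    (c : ℝ) (σ : K ≃ₐ[F] K) (X : ℝ) :
    classTerm W φ c σ X = Pool.Agent.Q286.EQ.pterm W φ c σ (Real.log X) := by
  funext v
  unfold classTerm Pool.Agent.Q286.EQ.pterm
  simp only [frobTrace_eq, q_eq, kernel_eq]
  split_ifs <;> rfl

omit [NumberField F] [NumberField K] in
theorem density_eq (σ : K ≃ₐ[F] K) : density σ = Pool.Agent.Q286.RL.cden σ := rfl

omit [NumberField F] in
theorem points_fg {W : WeierstrassCurve (𝓞 F)} (hΔ : W.Δ ≠ 0) : AddGroup.FG (Points K W) := by
  refine Pool.Agent.Q286.EQ.mordell_weil K _ ?_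
  change (W.map (algebraMap (𝓞 F) K)).Δ ≠ 0
  rw [WeierstrassCurve.map_Δ]
  intro h
  apply hΔ
  have h1 : Function.Injective (algebraMap (𝓞 F) K) := by
    rw [IsScalarTower.algebraMap_eq (𝓞 F) F K]
    exact (algebraMap F K).injective.comp (FaithfulSMul.algebraMap_injective (𝓞 F) F)
  exact (map_eq_zero_iff _ h1).1 h

/-- **The character of the Mordell-Weil group from the classes of Frobenius elements.**

Let `K/F` be a Galois extension of number fields with group `Γ`, `W` a Weierstrass equation with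
coefficients in the integers of `F` and discriminant `≠ 0`, and `ρ_k` a complete system of irreducible
complex representations of `Γ`, `n_k` the degree of `ρ_k` (`∑ n_k² = #Γ`).  Let `L_k` be a function
which for `Re s > 2` is the Euler product `L(E ⊗ ρ_k, s)` - with arbitrary polynomials, not zero at
`q_v⁻¹`, as factors at finitely many primes - and which is meromorphic at the real points of `[1, 2]`.
Choose for each prime `v` of `F` a Frobenius element `φ_v` in `Γ`.  Then:

1. `L_k` has a finite order `m_k` at `s = 1`.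
2. For each `c > π/2` the class sums `T_σ(X)` converge absolutely and satisfy, for all large `X` and all
`σ` in `Γ`, `T_σ(X) = -d(σ) (∑_k m_k χ_k(σ)) log log X + O(1)`, where `d(σ)` is the proportion of the
class of `σ` in `Γ` and `χ_k` the character of `ρ_k`.
3. `E(K)` is finitely generated, the character of `Γ` on `ℂ ⊗ E(K)` is the sum of the `χ_k` times the
multiplicities `r_k` of `ρ_k`, and the rank of `E(K)` is `∑_k n_k r_k`.
4. For each `c > π/2`: the equivariant conjecture of Birch and Swinnerton-Dyer - `m_k = r_k` for all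
`k` - holds if and only if for all `σ` in `Γ` the quotient `T_σ(X) / log log X` tends to `-d(σ)` times
the value at `σ` of the character of `Γ` on `ℂ ⊗ E(K)`. -/
theorem result (F : Type) [Field F] [NumberField F] (K : Type) [Field K] [NumberField K]
    [Algebra F K] [IsGalois F K] (W : WeierstrassCurve (𝓞 F)) (hΔ : W.Δ ≠ 0)
    (κ : Type) [Fintype κ] (n : κ → ℕ) (ρ : ∀ k, Representation ℂ (K ≃ₐ[F] K) (Fin (n k) → ℂ))
    (hirr : ∀ k, (ρ k).IsIrreducible) (hne : ∀ k l, k ≠ l → IsEmpty ((ρ k).Equiv (ρ l)))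
    (hsum : ∑ k, n k ^ 2 = Nat.card (K ≃ₐ[F] K))
    (B : κ → HeightOneSpectrum (𝓞 F) → ℂ[X]) (hB : ∀ k, IsEulerFactor W (ρ k) (B k))
    (hB0 : ∀ k v, (B k v).eval ((q v : ℂ) ^ (-(1 : ℂ))) ≠ 0)
    (L : κ → ℂ → ℂ) (hmer : ∀ k, ∀ x : ℝ, 1 ≤ x → x ≤ 2 → MeromorphicAt (L k) (x : ℂ))
    (hL : ∀ k, ∀ s : ℂ, 2 < s.re → L k s = eulerProduct (B k) s)
    (φ : HeightOneSpectrum (𝓞 F) → K ≃ₐ[F] K) (hφ : ∀ v, IsFrobenius v (φ v)) :
    ∃ m : κ → ℤ, (∀ k, meromorphicOrderAt (L k) 1 = m k) ∧
      (∀ c : ℝ, Real.pi / 2 < c → ∃ C X₀ : ℝ, ∀ X ≥ X₀, ∀ σ : K ≃ₐ[F] K,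
        Summable (classTerm W φ c σ X) ∧
        ‖classSum W φ c σ X + (density σ : ℂ) * (∑ k, m k * (ρ k).character σ) *
          Real.log (Real.log X)‖ ≤ C) ∧
      (AddGroup.FG (Points K W) ∧
        (∀ σ, (mordellWeil K W).character σ = ∑ k, multiplicity W (ρ k) * (ρ k).character σ) ∧
        Module.finrank ℤ (Points K W) = ∑ k, n k * multiplicity W (ρ k)) ∧
      ∀ c : ℝ, Real.pi / 2 < c → ((∀ k, m k = multiplicity W (ρ k)) ↔
        ∀ σ : K ≃ₐ[F] K, Tendsto (fun X : ℝ => classSum W φ c σ X / Real.log (Real.log X)) atTop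
          (𝓝 (-((density σ : ℂ) * (mordellWeil K W).character σ)))) := by
  have hfam : Pool.Agent.Q286.RL.Fam ρ := ⟨hirr, hne, hsum⟩
  obtain ⟨m, hm, hlaw⟩ := Pool.Agent.Q286.EQ.class_law hΔ hfam φ B
    (fun k => (hB k).mono fun v hv z => hv (φ v) (hφ v) z) hB0 hmer hL
  have hfg : AddGroup.FG (Points K W) := points_fg hΔ
  have hfd : Module.Finite ℂ (ℂ ⊗[ℤ] Points K W) := Pool.Agent.Q286.EQ.finite_complex _ hfg
  have hchar : ∀ σ, (mordellWeil K W).character σ =
      ∑ k, multiplicity W (ρ k) * (ρ k).character σ := fun σ =>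
    Pool.Agent.Q286.EQ.char_eq hfam (mordellWeil K W) σ
  have hrank : Module.finrank ℤ (Points K W) = ∑ k, n k * multiplicity W (ρ k) := by
    rw [← Pool.Agent.Q286.EQ.finrank_complex]
    exact Pool.Agent.Q286.EQ.finrank_eq hfam (mordellWeil K W)
  have hlaw' : ∀ c : ℝ, Real.pi / 2 < c → ∃ C X₀ : ℝ, ∀ X ≥ X₀, ∀ σ : K ≃ₐ[F] K,
        Summable (classTerm W φ c σ X) ∧
        ‖classSum W φ c σ X + (density σ : ℂ) * (∑ k, m k * (ρ k).character σ) *
          Real.log (Real.log X)‖ ≤ C := by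
    intro c hc
    obtain ⟨C, T₀, -, -, h⟩ := hlaw c hc
    refine ⟨C, max (Real.exp T₀) 1, fun X hX σ => ?_⟩
    have h0 : 0 < X := lt_of_lt_of_le one_pos ((le_max_right _ _).trans hX)
    have h1 : T₀ ≤ Real.log X := (Real.le_log_iff_exp_le h0).2 ((le_max_left _ _).trans hX)
    have h2 := h (Real.log X) h1 σ
    unfold classSum
    rw [classTerm_eq, density_eq]
    exact h2
  -- the limits
  have hlim : ∀ c : ℝ, Real.pi / 2 < c → ∀ σ : K ≃ₐ[F] K,
      Tendsto (fun X : ℝ => classSum W φ c σ X / Real.log (Real.log X)) atTop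
          (𝓝 (-((density σ : ℂ) * ∑ k, m k * (ρ k).character σ))) := by
    intro c hc σ
    obtain ⟨C, X₀, h⟩ := hlaw' c hc
    have hll : Tendsto (fun X : ℝ => Real.log (Real.log X)) atTop atTop :=
      Real.tendsto_log_atTop.comp Real.tendsto_log_atTop
    have h1 : Tendsto (fun X : ℝ => classSum W φ c σ X / Real.log (Real.log X) +
        (density σ : ℂ) * ∑ k, m k * (ρ k).character σ) atTop (𝓝 0) := by
      refine squeeze_zero_norm' (a := fun X => C / Real.log (Real.log X)) ?_
        (tendsto_const_nhds.div_atTop hll)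
      filter_upwards [eventually_ge_atTop X₀, hll.eventually_gt_atTop 0] with X hX hX0
      have h2 := (h X hX σ).2
      have h3 : ((Real.log (Real.log X) : ℝ) : ℂ) ≠ 0 := by exact_mod_cast hX0.ne'
      have h4 : classSum W φ c σ X / Real.log (Real.log X) +
          (density σ : ℂ) * ∑ k, m k * (ρ k).character σ =
          (classSum W φ c σ X + (density σ : ℂ) * (∑ k, m k * (ρ k).character σ) *
          Real.log (Real.log X)) / Real.log (Real.log X) := by
        field_simp
      rw [h4, norm_div, Complex.norm_real, Real.norm_eq_abs, abs_of_pos hX0]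
      gcongr
    have h2 := h1.sub_const ((density σ : ℂ) * ∑ k, m k * (ρ k).character σ)
    simpa using h2
  refine ⟨m, hm, hlaw', ⟨hfg, hchar, hrank⟩, fun c hc => ⟨fun h σ => ?_, fun h => ?_⟩⟩
  · have h1 := hlim c hc σ
    rw [hchar σ]
    simp only [h] at h1
    push_cast at h1
    exact h1
  · have h1 : ∀ σ : K ≃ₐ[F] K, ∑ k, ((m k : ℂ) - (multiplicity W (ρ k) : ℂ)) *
        (ρ k).character σ = 0 := by
      intro σ
      have h2 := tendsto_nhds_unique (hlim c hc σ) (h σ)
      have h3 : (density σ : ℂ) ≠ 0 := by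
        have h4 : density σ ≠ 0 := by
          unfold density
          have h5 : 0 < Nat.card {τ : K ≃ₐ[F] K // IsConj σ τ} :=
            Nat.card_pos_iff.2 ⟨⟨⟨σ, IsConj.refl σ⟩⟩, inferInstance⟩
          have h6 : 0 < Nat.card (K ≃ₐ[F] K) := Nat.card_pos
          positivity
        exact_mod_cast h4
      have h4 := mul_left_cancel₀ h3 (neg_injective h2)
      rw [hchar σ] at h4
      simp only [sub_mul, Finset.sum_sub_distrib, h4, sub_self]
    intro k
    have h2 := hfam.lin_indep h1 k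
    have h3 : (m k : ℂ) = (multiplicity W (ρ k) : ℂ) := sub_eq_zero.1 h2
    exact_mod_cast h3

end Pool.Agent.Results.MP_32c55d_nt.MordellWeilCharacter
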