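import Mathlib
import Pool.Agent.Q7.GR.Bsd

/-!
# The rank conjecture in extensions where the analytic rank grows by at most two

`Pool.Agent.H541R3.ART.Irr G` is the set of irreducible complex characters of the finite group `G`.

Let `E` be an elliptic curve over a number field `K` and `M/K` a Galois extension with group `G` such
that `E` is automorphic over `M`. (If `K` is totally real or CM, every `E/K` has such an `M`.) By
solvable descent `E` is automorphic over the fixed field `M ^ H` for every SOLVABLE subgroup `H` of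
`G`. `Pool.Agent.Q7.SZ.TwistData G 1` is a family of functions with the known formal properties of
the twisted L-functions of `E` near the central point `s = 1`: `L χ` (for `L(E ⊗ χ, s)`,
`χ ∈ Irr G`), meromorphic and not identically zero (Brauer), and `Lin H ψ` (for
`L(E / M ^ H ⊗ ψ, s)`, `ψ` a linear character of a subgroup `H`) without pole at `1` if `H` is
solvable, which are the products of the `L χ ^ ⟨χ|_H, ψ⟩` (induction). In particular `Lin ⊥ 1`
stands for `L(E/M, s)` and `Lin H 1` for `L(E / M ^ H, s)`.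

`Pool.Agent.Q7.SZ.FunEq A` are the functional equations
`gam χ (s) * L χ (s) = W χ * gam χ (2 - s) * L χ̄ (2 - s)`, where `gam χ` is the exponential and
Gamma factor (analytic and nonzero at `1`) and the root number `W χ` is not zero, and equal to `1`
for symplectic characters (Rohrlich).

For a rational representation `ρ` of `G` (of `E(M) ⊗ ℚ`), `Pool.Agent.Q7.SZ.rk ρ H` is the dimension
of the invariants of `H` (the rank of `E(M ^ H)`), and `Pool.Agent.Q7.SZ.RankHolds A ρ H` says that
it is the order of `Lin H 1` at `s = 1`: the rank conjecture for `E` over `M ^ H`.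

Let `N` be a normal subgroup of `G` and `L = M ^ N`, a Galois extension of `K`. For `F = M ^ H` one
has `F ∩ L = M ^ (H ⊔ N)`.
-/

set_option autoImplicit false

open Pool.Agent.H541R3.ART Pool.Agent.H302R2 Pool.Agent.H302R3 Pool.Agent.W446.AS
  Pool.Agent.Q7.TZ Pool.Agent.Q7.SZ Pool.Agent.Q7.GR

/-- Let `M/L` be solvable and let `r`, `r₀` be the orders of `L(E/M, s)`, `L(E/L, s)` at `s = 1`, with
`r ≤ r₀ + 2`; here `r₀` and the Galois group of `L/K` are arbitrary. Then `r₀ ≤ r`, and there is a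
Galois extension `K' = M ^ N₁` of `K` in `M` which is cyclic, or a quadratic extension `M ^ B` of `K`
followed by a cyclic one such that all elements of `Gal(K'/K)` outside `Gal(K'/M ^ B)` have square
one (so the group is cyclic, of order at most two, biquadratic or dihedral), with the following
properties.
(1) For all irreducible characters `χ` of `Gal(M/K)` which do not come from `Gal(L/K)`,
`L(E ⊗ χ, s)` is holomorphic at `s = 1`, and if it vanishes at `s = 1` then `χ` is a character of
`Gal(K'/K)`.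
(2) For every field `F` between `K` and `M`, the order at `s = 1` grows from `F ∩ L` to `F` by as
much as it grows from `F ∩ L ∩ K'` to `F ∩ K'`.
(3) The rank conjecture holds for `E` over ALL fields between `K` and `M` if and only if it holds
over `M`, over the fields between `K` and `L`, and over the fields between `K` and `K'`.
(4) If it holds, then `Gal(K'/M ^ B)` is of order `1`, `2`, `3`, `4` or `6`, so `[K' : K] ≤ 12`. -/
theorem Pool.Agent.Results.MP_32c55d_nt.RankGrowthAtMostTwo.result
    (G : Type) [Group G] [Finite G] (A : TwistData G 1) (F : FunEq A) (N : Subgroup G) [N.Normal]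
    (hs : Group.IsSolvable N) (r r₀ : ℤ)
    (hr : meromorphicOrderAt (A.Lin ⊥ 1) 1 = (r : WithTop ℤ))
    (hr₀ : meromorphicOrderAt (A.Lin N 1) 1 = (r₀ : WithTop ℤ)) (h2 : r ≤ r₀ + 2) :
    r₀ ≤ r ∧ ∃ (N₁ B : Subgroup G) (l : B →* ℂˣ), N₁.Normal ∧ N₁ ≤ B ∧ B.index ≤ 2 ∧
      (∀ b : B, l b = 1 ↔ (b : G) ∈ N₁) ∧ (∀ w, w ∉ B → w * w ∈ N₁) ∧
      (∀ χ ∈ Irr G, (∃ x ∈ N, χ x ≠ χ 1) → 0 ≤ meromorphicOrderAt (A.L χ) 1 ∧
        (meromorphicOrderAt (A.L χ) 1 ≠ 0 → ∀ x ∈ N₁, χ x = χ 1)) ∧
      (∀ H : Subgroup G,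
        meromorphicOrderAt (A.Lin H 1) 1 + meromorphicOrderAt (A.Lin (H ⊔ N₁ ⊔ N) 1) 1 =
          meromorphicOrderAt (A.Lin (H ⊔ N) 1) 1 + meromorphicOrderAt (A.Lin (H ⊔ N₁) 1) 1) ∧
      ∀ (V : Type) [AddCommGroup V] [Module ℚ V] [FiniteDimensional ℚ V]
        (ρ : Representation ℚ G V),
        ((∀ H, RankHolds A ρ H) ↔
          (∀ H, N ≤ H → RankHolds A ρ H) ∧ RankHolds A ρ ⊥ ∧ ∀ H, N₁ ≤ H → RankHolds A ρ H) ∧
        ((∀ H, RankHolds A ρ H) → Nat.card l.range ∈ ({1, 2, 3, 4, 6} : Set ℕ)) := by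
  classical
  obtain ⟨n, hn⟩ := exists_newPart A N hs hr hr₀
  refine ⟨?_, ?_⟩
  · obtain ⟨d, hd, -⟩ := hn.deg
    omega
  obtain ⟨N₁, B, l, e1, e2, e3, e4, e5, e6, e7, e8, e9⟩ := newFrame F hn h2
  refine ⟨N₁, B, l, e1, e2, e3, e4, e5, fun χ hχ hne => ?_, fun H => ?_, ?_⟩
  · have h3 := hn.new χ hχ hne
    refine ⟨?_, fun h0 => e8 χ hχ ?_⟩
    · rw [← A.coe_ord hχ, ← h3]
      exact_mod_cast e7 χ hχ
    · intro h4
      apply h0
      rw [← A.coe_ord hχ, ← h3, h4]
      rfl
  · obtain ⟨a, ha, -⟩ := A.order_one' H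
    obtain ⟨b, hb, -⟩ := A.order_one' (H ⊔ N)
    obtain ⟨a', ha', -⟩ := A.order_one' (H ⊔ N₁)
    obtain ⟨b', hb', -⟩ := A.order_one' (H ⊔ N₁ ⊔ N)
    have h3 := hn.t_sup e6 H ha hb ha' hb'
    rw [ha, hb, ha', hb']
    exact_mod_cast (by omega : a + b' = b + a')
  · intro V _ _ _ ρ
    refine ⟨hn.rank_iff e6 ρ, fun h => ?_⟩
    have h9 := hn.card_range e6 e4 e9 hr hr₀ ρ h
    have : Finite l.range := Finite.of_surjective _ l.rangeRestrict_surjective
    have h10 := mem_of_totient_le_two Nat.card_pos h9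
    simpa using h10
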