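import Pool.Agent.Q50.KV.Main

/-!
# Homologically trivial cycles on Kummer varieties

Let `A` be an abelian variety over an algebraically closed field such as the algebraic numbers, and
`Km A` its Kummer variety, the quotient by `-1` of the blow-up of `A` in the points of order two. It
has no odd cohomology, so the question of the problem predicts that it has no homologically trivial
cycles modulo torsion, in any codimension. We show that this holds for all `Km A` if and only if
every homologically trivial cycle `z` on every abelian variety is odd, `(-1)^* z = -z`; it implies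
that exterior products of homologically trivial cycles on abelian varieties vanish. For zero-cycles
the question for all Kummer varieties is equivalent to the vanishing of the Albanese kernels of all
abelian varieties (a conjecture of Beilinson), and to the vanishing of all products of two
algebraically trivial cycles, of any codimensions, on all varieties.
-/

open CategoryTheory AlgebraicGeometry

universe u v w

namespace Pool.Agent.Results.MP_32dfd1_ag.KummerVarieties

open Pool.Agent.H914 Pool.Agent.H914.VarClass Pool.Agent.H914.VarClass.Obj Pool.Agent.W492.BB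
  Pool.Agent.TH133 Pool.Agent.Q28.PV Pool.Agent.Q28.AL Pool.Agent.Q50.KV

/-- **Kummer varieties.** Let `C` be the Chow theory with rational coefficients and `H` a Weil
cohomology theory on the smooth projective varieties over an algebraically closed field, `Ab` the
class of abelian varieties, `neg A` the involution `-1` and `Km A` the Kummer variety of `A`
(`hF`, `hK`: well-known facts). `Question H Y m` is the statement of the problem: if
`H^(2m-1)(Y) = 0` then `CH^m(Y)_hom = 0`.

1. Let `Y` be the Kummer variety of a variety `X` with an involution `σ` which acts as `(-1)^i` on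
  `H^i(X)` and has isolated fixed points. Then `Y` has no odd cohomology, and the question for `Y`
  and `m` has a positive answer iff `z = 0` for all `σ`-invariant `z` in `CH^m(X)_hom`.
2. If it has a positive answer for the Kummer varieties of `(X₁, σ₁)` and `i`, of `(X₂, σ₂)` and `j`,
  and of `(X₁ × X₂, σ₁ × σ₂)` and `i + j`, then `x × y = 0` for all `x ∈ CH^i(X₁)_hom` and
  `y ∈ CH^j(X₂)_hom`.
3. For an abelian variety `A`, the question for `Km A` and `m` has a positive answer iff
  `(-1)^* z = -z` for all `z ∈ CH^m(A)_hom`.
4. Equivalent: the question has a positive answer for zero-cycles on all Kummer varieties `Km A`;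
  `F^2(A) = 0` for all abelian varieties; `F^2(T × T') = 0` for all curves `T`, `T'`;
  `CH^i(X)_alg · CH^j(X)_alg = 0` for all varieties `X` and all `i`, `j`. -/
theorem result {k : Type u} [Field k] {𝒱 : VarClass k} {C : TheoryData.{u, v, 0} 𝒱 ℚ}
    [IsChowProj C] {K : Type w} [Field K] {H : WeilTheoryData.{u, v, w} C K} [IsWeilProj H]
    {Ab : 𝒱.Obj → Prop} {neg : ∀ A : 𝒱.Obj, A ⟶ A} {Km : 𝒱.Obj → 𝒱.Obj}
    (hF : Facts H Ab) (hK : KummerFacts H Ab neg Km) :
    (∀ (X Y : 𝒱.Obj) (σ : X ⟶ X), IsKummer H σ Y → NoOddCohomology H Y ∧
      ∀ m : ℕ, Question H Y m ↔ ∀ z : C.A X, HomTriv H X m z → C.up σ z = z → z = 0) ∧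
    (∀ (X₁ X₂ Y₁ Y₂ Z : 𝒱.Obj) (σ₁ : X₁ ⟶ X₁) (σ₂ : X₂ ⟶ X₂), IsKummer H σ₁ Y₁ →
      IsKummer H σ₂ Y₂ → IsKummer H (prodMap σ₁ σ₂) Z → ∀ i j : ℕ, Question H Y₁ i →
        Question H Y₂ j → Question H Z (i + j) → ∀ (x : C.A X₁) (y : C.A X₂),
          HomTriv H X₁ i x → HomTriv H X₂ j y → C.ext x y = 0) ∧
    (∀ A, Ab A → ∀ m, Question H (Km A) m ↔
      ∀ z : C.A A, HomTriv H A m z → C.up (neg A) z = -z) ∧
    [∀ A, Ab A → Question H (Km A) A.dim,
      ∀ (A : 𝒱.Obj) (z : C.A A), Ab A → AlbKernel H A z → z = 0,
      ∀ (T T' : 𝒱.Obj) (z : C.A (T.prod T')), T.dim = 1 → T'.dim = 1 →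
        AlbKernel H (T.prod T') z → z = 0,
      ∀ (X : 𝒱.Obj) (i j : ℕ) (x y : C.A X), AlgTriv H X i x → AlgTriv H X j y →
        C.mul x y = 0].TFAE :=
  final hF hK

end Pool.Agent.Results.MP_32dfd1_ag.KummerVarieties
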