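import Mathlib
import Pool.Agent.Q43.HQ.MT

/-!
# The Mumford-Tate conjecture for abelian varieties with a Frobenius element which is separated by the
Galois closures

Let `A` be an abelian variety over a number field, of any dimension and with arbitrary
endomorphisms, which has good reduction at some place `v`, with a residue field of `q = p ^ a`
elements. Suppose that the characteristic polynomial of the Frobenius element at this **one** place is
the product of the minimal polynomials of Weil numbers `π i` that generate CM fields `K i`
(`HasFrobenius`), of any slopes; so `2 dim A` is the sum of the degrees of the `K i`. We assume
(`IsSeparated`)

* (`generated`) the powers of `π i` generate `K i`;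
* (`typed`) the degree of `K i` is two, or it is four and `K i` contains no imaginary quadratic field,
  or it is twice an odd prime number, or it is larger than four and there is an odd function `s` on
  the set of complex embeddings of `K i`, on which the automorphisms of `ℂ` act by signs (possibly
  `s = 0`), such that the odd functions orthogonal to `s` are an irreducible representation over `ℚ`
  of the group of automorphisms of `ℂ` (for instance if the Galois group of `K i` is large, or if `K i`
  is cyclic of 2-power degree);
* (`closure`) the Galois closures of `K i` and `K k`, `i ≠ k`, are different if both fields have degree
  at least four;
* (`quadratic`) no imaginary quadratic field is contained in two of the fields `K i`, and the norm of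
  `π i` to an imaginary quadratic subfield of `K i` is not a power of the square root of `q`, up to a
  root of unity.

For example, the characteristic polynomial can be a product of irreducible polynomials of degrees
`2 g i`, `g i` different odd prime numbers, such that the fields `K i` contain no imaginary quadratic
fields, and of polynomials of degree two of ordinary elliptic curves with different CM fields.

**The theorem.** For all abelian varieties `A` as above and all prime numbers `ℓ`, all Tate classes in
the tensor powers of `H^1` (and so in the cohomology of all powers of `A`) are linear combinations of
products of Hodge classes of degree two (`MumfordTateStrong`). Together with the theorem of Deligne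
(Hodge classes are Tate classes) this is the equality of the Mumford-Tate group (over `ℚ_ℓ`) and of the
connected component of the `ℓ`-adic monodromy group. So the Mumford-Tate conjecture holds for `A`, and
the Hodge and the Tate conjecture hold for all powers of `A`.

In the formal statement (`IsRealization`, starting files) `W` is `H_1(A, ℚ)`, `T` the tangent space
at the origin and `per : W → T` the inclusion, `ω₀` is the form given by a polarization; `V` is the
rational Tate module with the comparison map `comp : W → V`, the action `ρ` of the Galois group and
the Weil pairing `ω`; `χ` is the cyclotomic character. The theorems of Faltings on endomorphisms and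
on semisimplicity are part of the data.

**The main point** is that the only multiplicative relations between the conjugates of the `π i` and `q`
are the trivial ones `π * conj π = q`, up to roots of unity: the angle rank is maximal
(`Pool.Agent.Q43.HQ.maximalAngleRank`). Let `L` be the Galois closure of all `K i`, `c` the complex
conjugation, and let `T i` be the equivariant map from the embeddings `φ` of `K i` to the
representation `ℚ ⊗ L^×` of the Galois group which takes `φ` to the class of `φ(π i)^2 / q`. A relation
is `∑ v i φ T i φ = 0` with odd functions `v i`. If the Galois group does not act on `v i` by signs then
for each element `κ` of the Galois group which acts nontrivially on `K i` there is a translate `v'` of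
`v i` such that it does not act by signs on `v' - v' ∘ κ`. So all `k` for which `K i` is not in the
Galois closure of `K k` are removed from the relation one after another; those whose Galois closure is
strictly larger are removed by averaging. There remains a relation to which the other fields contribute
elements on which the group acts by signs; the commutators and the elements of odd order fix them, and
one finds that the Galois group acts on all `φ(π i)^2 / q` by signs, so that the degree of `K i` is two.
Hence `v i = 0`, or `v i` comes from an imaginary quadratic subfield of `K i`, and then the norm of
`π i` to this field satisfies a relation.
-/

set_option autoImplicit false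

namespace Pool.Agent.Results.MP_33b3f9_ag.SeparatedFrobenius

open NumberField Module Pool.Agent.H204R3.GP Pool.Agent.TH170.FT Pool.Agent.Q43.HQ

/-- **The Mumford-Tate conjecture for abelian varieties with one Frobenius element whose Weil numbers
are separated by the Galois closures of their fields.** -/
theorem result (p : ℕ) [Fact p.Prime] (a : ℕ) (ha : 0 < a) (I : Type) [Fintype I] (K : I → Type)
    [∀ i, Field (K i)] [∀ i, NumberField (K i)] [∀ i, IsCMField (K i)] (π : ∀ i, K i)
    (hw : ∀ i, π i * IsCMField.complexConj (K i) (π i) = (p : K i) ^ a)
    (hs : IsSeparated (p ^ a) K π) (ℓ : ℕ) [Fact ℓ.Prime] (W T V Γ : Type) [AddCommGroup W]
    [Module ℚ W] [AddCommGroup T] [Module ℂ T] [AddCommGroup V] [Module ℚ_[ℓ] V]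
    [FiniteDimensional ℚ_[ℓ] V] [Group Γ] (per : W →+ T) (ω₀ : W →ₗ[ℚ] W →ₗ[ℚ] ℚ)
    (comp : W →+ V) (ρ : Representation ℚ_[ℓ] Γ V) (χ : Γ →* ℚ_[ℓ])
    (ω : V →ₗ[ℚ_[ℓ]] V →ₗ[ℚ_[ℓ]] ℚ_[ℓ]) (hR : IsRealization per ω₀ comp ρ χ ω)
    (hF : HasFrobenius ρ χ p a π) : MumfordTateStrong per comp ρ χ :=
  mumfordTate_separated ha hw hs hR hF

end Pool.Agent.Results.MP_33b3f9_ag.SeparatedFrobenius
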