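import Pool.Agent.H14CR.Vmax

/-!
Problem MP_33eb55_co (signed `[0, s]`-critical number of cyclic groups of odd order divisible
by 3): `χ (Z_n, [0, s]) = v (n, s) + 1 = n / 3 + 1` for every odd `n` divisible by `3` and `s ≥ 3`.
-/

set_option autoImplicit false

namespace Pool.Agent.Results.MP_33eb55_co.OddMultiplesOfThree

/-- The `h`-fold signed sumset of `A`. -/
def signedSumset (n h : ℕ) (A : Finset (ZMod n)) : Set (ZMod n) :=
  {x | ∃ l : ZMod n → ℤ, ∑ a ∈ A, (l a).natAbs = h ∧ ∑ a ∈ A, l a • a = x}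

/-- The union of the `h`-fold signed sumsets of `A` for `0 ≤ h ≤ s`. -/
def signedSumsetLe (n s : ℕ) (A : Finset (ZMod n)) : Set (ZMod n) :=
  {x | ∃ h ≤ s, x ∈ signedSumset n h A}

/-- The signed `[0, s]`-critical number of `Z_n`. -/
noncomputable def chi (n s : ℕ) : ℕ :=
  sInf {m | ∀ A : Finset (ZMod n), A.card = m → signedSumsetLe n s A = Set.univ}

/-- `v (n, h)`, the maximum of `(2 ⌊(d - 2) / (2 h)⌋ + 1) n / d` over the divisors `d` of `n`. -/
noncomputable def v (n h : ℕ) : ℤ :=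
  sSup {y | ∃ d ∈ n.divisors, y = (2 * (((d : ℤ) - 2) / (2 * h)) + 1) * ((n / d : ℕ) : ℤ)}

theorem result (n s : ℕ) (hn : Odd n) (h3n : 3 ∣ n) (hs : 3 ≤ s) :
    (chi n s : ℤ) = v n s + 1 ∧ chi n s = n / 3 + 1 := by
  have hn0 : 0 < n := hn.pos
  obtain ⟨h1, d, hd, h2⟩ := H14CR.sSup_spec n s hn0
  have h3 : v n s = sSup (H14CR.vals n s) := rfl
  rw [← h3] at h1 h2
  obtain ⟨c, hc⟩ := h3n
  have hv : v n s = ((n / 3 : ℕ) : ℤ) := by
    apply le_antisymm
    · rw [h2]
      unfold H14CR.vv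
      obtain ⟨e, he⟩ := Nat.dvd_of_mem_divisors hd
      have hdpos : 0 < d := Nat.pos_of_mem_divisors hd
      have hnde : n / d = e := by
        rw [he]
        exact Nat.mul_div_cancel_left _ hdpos
      have hdodd : Odd d := Odd.of_dvd_nat hn ⟨e, he⟩
      set q : ℤ := ((d : ℤ) - 2) / (2 * s) with hq
      have hq1 : q * (2 * s) ≤ (d : ℤ) - 2 := Int.ediv_mul_le _ (by positivity)
      have h5 : 3 * (2 * q + 1) ≤ d := by
        rcases le_or_gt 0 q with h0 | h0
        · have h6 : q * 6 ≤ q * (2 * s) := by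
            apply mul_le_mul_of_nonneg_left _ h0
            have : (3 : ℤ) ≤ s := by exact_mod_cast hs
            linarith
          obtain ⟨f, hf⟩ := hdodd
          omega
        · omega
      rw [hnde]
      have h6 : 3 * ((2 * q + 1) * (e : ℤ)) ≤ 3 * ((n / 3 : ℕ) : ℤ) := by
        calc 3 * ((2 * q + 1) * (e : ℤ)) = (3 * (2 * q + 1)) * e := by ring
          _ ≤ d * e := mul_le_mul_of_nonneg_right h5 (by positivity)
          _ = n := by rw [he]; push_cast; ring
          _ = 3 * ((n / 3 : ℕ) : ℤ) := by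
              rw [hc, Nat.mul_div_cancel_left _ (by norm_num)]
              push_cast
              ring
      linarith
    · have h5 := h1 3 (Nat.mem_divisors.2 ⟨⟨c, hc⟩, hn0.ne'⟩)
      unfold H14CR.vv at h5
      have h6 : (((3 : ℕ) : ℤ) - 2) / (2 * (s : ℤ)) = 0 := by
        apply Int.ediv_eq_zero_of_lt
        · norm_num
        · have : (3 : ℤ) ≤ s := by exact_mod_cast hs
          push_cast
          linarith
      rw [h6, mul_zero, zero_add, one_mul] at h5
      exact h5
  set S := {m | ∀ A : Finset (ZMod n), A.card = m → signedSumsetLe n s A = Set.univ} with hS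
  have hmem : n / 3 + 1 ∈ S := by
    intro A hA
    apply Set.eq_univ_of_forall
    intro x
    exact H14CR.upper hn0 (by omega) A (v n s) h1 (by rw [hv, hA]; push_cast; exact le_refl _) x
  have hle : ∀ m ∈ S, n / 3 + 1 ≤ m := by
    intro m hm
    by_contra hcon
    obtain ⟨A, hA, x, hx⟩ := H14CR.lower (s := s) hn0 (by omega) hd m (by rw [← h2, hv]; omega)
    apply hx
    have h5 : x ∈ signedSumsetLe n s A := by
      rw [hm A hA]
      exact Set.mem_univ x
    exact h5
  have h6 : chi n s = n / 3 + 1 :=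
    le_antisymm (Nat.sInf_le hmem) (hle _ (Nat.sInf_mem ⟨_, hmem⟩))
  refine ⟨?_, h6⟩
  rw [h6, hv]
  push_cast
  rfl

end Pool.Agent.Results.MP_33eb55_co.OddMultiplesOfThree
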