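import Mathlib
import Pool.Agent.Q7.CV.Art

/-!
# Central values of Artin L-functions of symmetric and alternating extensions: a gap for the order

`Pool.Agent.H541R3.ART.Irr G` is the set of irreducible complex characters of the finite group `G`.

`Pool.Agent.H541R3.ART.ArtinData G s₀` is a family of functions with the formal properties of the
Artin L-functions of a Galois extension `L₀/K` with group `G` near a point `s₀ ≠ 1`: functions
`L χ` for the irreducible characters `χ` of `G` and `Lin H ψ` for the linear characters `ψ` of the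
subgroups `H`, such that `L χ` is meromorphic and not identically zero near `s₀` (Brauer), `Lin H ψ`
has no pole at `s₀` (Artin reciprocity and Hecke), and `Lin H ψ` is the product of the
`L χ ^ ⟨χ|_H, ψ⟩` (induction). In particular `Lin H 1` stands for the Dedekind zeta function of the
fixed field of `H`.

Here `s₀ = 1/2`, and we use in addition the functional equations of the Hecke L-functions of the
quadratic and trivial characters `ψ` of the intermediate fields: their root number is `1`, so that
the order of `Lin H ψ` at `1/2` is even.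
-/

set_option autoImplicit false

open Pool.Agent.H541R3.ART Equiv

/-- Let `A_n ≤ G ≤ S_n`, `n ≥ 5`, be the Galois group of `L₀/K`, for example `K = ℚ`, and suppose
that the order `r` of `ζ_{L₀}` at `s = 1/2` is less than `2 (2 ^ k - 1) ⌊n / 2 ^ k⌋` for some
`k ≥ 2`. Then
(1) no `L χ` has a pole at `1/2`;
(2) `L χ` is holomorphic and nonzero at `1/2` for all irreducible characters `χ` of `G` which are
nontrivial on `A_n` (these are orthogonal or unitary);
(3) for every subfield `M = L₀ ^ U` of `L₀` which contains `K` the zeta functions of `M` and of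
`M ∩ k₀` have the same order at `1/2`, where `k₀` is the fixed field of `G ∩ A_n` (the quadratic
field of the discriminant, or `K`). -/
theorem Pool.Agent.Results.MP_347b49_nt.CentralGapSymmetric.result
    (n k : ℕ) (hn : 5 ≤ n) (hk : 2 ≤ k) (G : Subgroup (Perm (Fin n)))
    (hG : alternatingGroup (Fin n) ≤ G) (A : ArtinData G (1 / 2 : ℂ))
    (heven : ∀ (H : Subgroup G) (ψ : H →* ℂˣ), (∀ x, ψ x * ψ x = 1) →
      ∃ m : ℕ, meromorphicOrderAt (A.Lin H ψ) (1 / 2 : ℂ) = ((2 * m : ℕ) : WithTop ℤ))
    (r : ℕ) (hr : meromorphicOrderAt (A.Lin ⊥ 1) (1 / 2 : ℂ) = (r : WithTop ℤ))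
    (hlt : r < 2 * ((2 ^ k - 1) * (n / 2 ^ k))) :
    (∀ χ ∈ Irr G, 0 ≤ meromorphicOrderAt (A.L χ) (1 / 2 : ℂ)) ∧
    (∀ χ ∈ Irr G, (∃ g : G, (g : Perm (Fin n)) ∈ alternatingGroup (Fin n) ∧ χ g ≠ χ 1) →
      meromorphicOrderAt (A.L χ) (1 / 2 : ℂ) = 0) ∧
    ∀ U : Subgroup G,
      meromorphicOrderAt (A.Lin (U ⊔ (alternatingGroup (Fin n)).subgroupOf G) 1) (1 / 2 : ℂ)
        = meromorphicOrderAt (A.Lin U 1) (1 / 2 : ℂ) :=
  Pool.Agent.Q7.CV.central_sym hn hk G hG A heven hr hlt
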