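import Mathlib
import Pool.Agent.Q277.CL.Main

/-!
# Central values of Artin L-functions: a local criterion for nonvanishing

`Pool.Agent.H541R3.ART.Irr G` is the set of irreducible complex characters of the finite group `G`.

`Pool.Agent.H541R3.ART.ArtinData G s₀` is a family of functions with the formal properties of the
Artin L-functions of a Galois extension `L₀/K` with group `G` near a point `s₀ ≠ 1`: functions
`L χ` for the irreducible characters `χ` of `G` and `Lin H ψ` for the linear characters `ψ` of the
subgroups `H`, such that `L χ` is meromorphic and not identically zero near `s₀` (Brauer), `Lin H ψ`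
has no pole at `s₀` (Artin reciprocity and Hecke), and `Lin H ψ` is the product of the
`L χ ^ ⟨χ|_H, ψ⟩` (induction). In particular `Lin H 1` stands for the Dedekind zeta function of the
fixed field of `H`.

Here `s₀ = 1/2`, and we use in addition that `L(s, χ̄)` is the complex conjugate of `L(s̄, χ)`
(`Pool.Agent.Q7.DB.Reflects A`), and the functional equations of the Hecke L-functions of the
quadratic and trivial characters `ψ` of the intermediate fields: their root number is `1`, so that
the order of `Lin H ψ` at `1/2` is even (`heven`).

`Pool.Agent.Y788.res G` is the intersection of the derived series of `G`; it is the smallest normal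
subgroup `N` of `G` with solvable quotient, and it is perfect. For a nonsolvable almost simple group
it is the simple normal subgroup.

`Pool.Agent.Y788.V.RankGe p m (⊥ : Subgroup N)`: if `K` is a proper subgroup of a Sylow `p`-subgroup
`P` of `N` which is strongly closed in `P` with respect to `N` (all conjugates in `N` of elements of
`K` which lie in `P` lie in `K`), then `P / K` has an elementary abelian subgroup `E / K` of order
`p ^ m`.

`Pool.Agent.Q7.CV.EvenQ θ`, for a function `θ` on a finite group `P`: for every linear character `ψ`
with `ψ ^ 2 = 1` of a subgroup `H` of `P` the multiplicity `⟨θ|_H, ψ⟩` is an even nonnegative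
integer.

`Pool.Agent.Q277.CL.TrivC p r N`: let `σ` be a representation of degree `r` of a Sylow `p`-subgroup
`P` of `N` whose character takes the same value at elements of `P` which are conjugate in `N`, is
real valued and satisfies `EvenQ`; then `σ` is trivial.
-/

set_option autoImplicit false

open Pool.Agent.H541R3.ART Pool.Agent.Y788 Pool.Agent.Y788.V

/-- Let `G` be the Galois group of `L₀/K`, for example `K = ℚ`, let `N = res G` be its smallest
normal subgroup with solvable quotient, and let `r` be the order of `ζ_{L₀}` at `s = 1/2`. Suppose
that for every prime `p ≤ r` (only for `p = 2` if `r ≤ 4`) all quotients `P / K` of the Sylow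
`p`-subgroups `P` of `N` by proper strongly closed subgroups `K` contain an elementary abelian group
of order `p ^ m` with `2 m > r`, or, more generally, that `N` satisfies `TrivC p r N`: the fusion
invariant real characters of degree `r` of `P` with even multiplicities of the quadratic
characters of subgroups are trivial. Then
(1) `L χ` is holomorphic and nonzero at `1/2` for all irreducible characters `χ` of `G` which are
nontrivial on `N`, whether orthogonal, unitary or symplectic (if `G` is perfect, for all `χ ≠ 1`);
(2) no `L χ` has a pole at `1/2` if the irreducible characters of the solvable group `G / N` are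
monomial;
(3) for every subfield `M = L₀ ^ U` of `L₀` which contains `K` the zeta functions of `M` and of its
subfield `M ∩ L₀ ^ N`, the fixed field of `U N`, have the same order at `1/2`. -/
theorem Pool.Agent.Results.MP_347b49_nt.CentralLocalRanks.result
    (G : Type) [Group G] [Finite G] (A : ArtinData G (1 / 2 : ℂ))
    (hA : Pool.Agent.Q7.DB.Reflects A)
    (heven : ∀ (H : Subgroup G) (ψ : H →* ℂˣ), (∀ x, ψ x * ψ x = 1) →
      ∃ m : ℕ, meromorphicOrderAt (A.Lin H ψ) (1 / 2 : ℂ) = ((2 * m : ℕ) : WithTop ℤ))
    (r : ℕ) (hr : meromorphicOrderAt (A.Lin ⊥ 1) (1 / 2 : ℂ) = (r : WithTop ℤ))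
    (hloc : ∀ p : ℕ, p.Prime → p ≤ r → p = 2 ∨ 5 ≤ r →
      (∃ m : ℕ, r < 2 * m ∧ RankGe p m (⊥ : Subgroup (res G))) ∨
        Pool.Agent.Q277.CL.TrivC p r (res G)) :
    (∀ χ ∈ Irr G, (∃ n ∈ res G, χ n ≠ χ 1) → meromorphicOrderAt (A.L χ) (1 / 2 : ℂ) = 0) ∧
    ((∀ χ ∈ Irr G, (∀ n ∈ res G, χ n = χ 1) → IsMonomialChar χ) →
      ∀ χ ∈ Irr G, 0 ≤ meromorphicOrderAt (A.L χ) (1 / 2 : ℂ)) ∧
    ∀ U : Subgroup G, meromorphicOrderAt (A.Lin (U ⊔ res G) 1) (1 / 2 : ℂ)
      = meromorphicOrderAt (A.Lin U 1) (1 / 2 : ℂ) := by
  refine Pool.Agent.Q277.CL.central_local ?_ A hA heven hr hloc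
  rw [map_div₀, map_one, map_ofNat]
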