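import Mathlib
import Pool.Agent.Q290.Schur.RealPt

/-!
# The Frobenius-Schur inequalities for the orders of Artin L-functions

`Pool.Agent.H541R3.ART.Irr G` is the set of irreducible complex characters of the finite group `G`.

`Pool.Agent.H541R3.ART.ArtinData G s₀` is a family of functions with the formal properties of the
Artin L-functions of a Galois extension `F/K` with group `G` near a point `s₀ ≠ 1`: functions
`L χ` for the irreducible characters `χ` of `G` and `Lin H ψ` for the linear characters `ψ` of the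
subgroups `H`, such that `L χ` is meromorphic and not identically zero near `s₀` (Brauer), `Lin H ψ`
has no pole at `s₀` (Artin reciprocity and Hecke), and `Lin H ψ` is the product of the
`L χ ^ ⟨χ|_H, ψ⟩` (induction). In particular `Lin ⊥ 1` stands for the Dedekind zeta function of `F`,
and `r` is its order at `s₀`.

`Pool.Agent.Q7.DB.Reflects A` is the property `L(s, χ̄) = conj L(conj s, χ)`, and
`Pool.Agent.Q7.TZ.dual D χ` is the character `g ↦ D g * χ g⁻¹`, that is `D` times the conjugate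
of `χ`.
-/

set_option autoImplicit false

open Pool.Agent.H541R3.ART Pool.Agent.Q7.TZ Pool.Agent.Q7.DB Pool.Agent.Q290.Schur ComplexConjugate

/-- Let `F/K` be a Galois extension with group `G`, an arbitrary finite group, let `n χ` be the order
of `L(s, χ)` at `s₀` and `r` the order of `ζ_F` at `s₀`.

(A) For every point `s₀` and every linear character `D` of `G`, with the twisted Frobenius-Schur
indicators `ν χ = |G|⁻¹ ∑ χ(g²) D(g)⁻¹ ∈ {1, 0, -1}` and `T = ∑ ν χ n χ`,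
`∑ (n χ + n (D χ̄))² ≤ 2 r (r + T)` and `∑ (n χ - n (D χ̄))² ≤ 2 r (r - T)`. The sum of these two
inequalities is the inequality `∑ (n χ)² ≤ r²` of Foote and Murty.

(B) Let `s₀` be real, for instance `s₀ = 1/2`, and let `ν χ` be the Frobenius-Schur indicator of `χ`.
Then `2 ∑ (n χ)² ≤ r (r + T)`, where `T = ∑ ν χ n χ ≤ r` is the sum of the orders of the orthogonal
characters minus that of the symplectic characters. Moreover, either `L(s, μ)` has a zero of order
`r` for a linear character `μ` with `μ² = 1` and all other `L χ` are finite and nonzero at `s₀`, or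
the following holds: `∑ n χ (n χ + ν χ) < r (r + 1)` if `r > 0`; and if `r ≥ 3` then
`∑ n χ (n χ - ν χ) < r (r - 1)`, so that `2 - r ≤ n χ ≤ r - 1` for orthogonal `χ`,
`1 - r ≤ n χ ≤ r - 2` for symplectic `χ`, `2 (n χ)² < r (r - 1)` for all other `χ`, and fewer than
`r (r - 1)` characters which are neither orthogonal nor symplectic have a zero or a pole at `s₀`. -/
theorem Pool.Agent.Results.MP_347b49_nt.FrobeniusSchurInequality.result
    (G : Type) [Group G] [Finite G] (s₀ : ℂ) (A : ArtinData G s₀) (r : ℕ)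
    (hr : meromorphicOrderAt (A.Lin ⊥ 1) s₀ = ((r : ℕ) : WithTop ℤ))
    (n : (G → ℂ) → ℤ)
    (hn : ∀ χ ∈ Irr G, meromorphicOrderAt (A.L χ) s₀ = ((n χ : ℤ) : WithTop ℤ)) :
    (∀ D : G →* ℂˣ, ∃ ν : (G → ℂ) → ℤ,
      (∀ χ ∈ Irr G, dual D χ ∈ Irr G ∧
        (∑ᶠ g, χ (g ^ 2) * (((D g)⁻¹ : ℂˣ) : ℂ) = ν χ * Nat.card G) ∧
        (ν χ = 1 ∨ ν χ = 0 ∨ ν χ = -1) ∧ (ν χ = 0 ↔ dual D χ ≠ χ)) ∧
      ∑ᶠ χ ∈ Irr G, (n χ + n (dual D χ)) ^ 2 ≤ 2 * r * (r + ∑ᶠ χ ∈ Irr G, ν χ * n χ) ∧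
      ∑ᶠ χ ∈ Irr G, (n χ - n (dual D χ)) ^ 2 ≤ 2 * r * (r - ∑ᶠ χ ∈ Irr G, ν χ * n χ)) ∧
    (conj s₀ = s₀ → Reflects A → ∀ ν : (G → ℂ) → ℤ,
      (∀ χ ∈ Irr G, ∑ᶠ g, χ (g ^ 2) = ν χ * Nat.card G) →
      2 * ∑ᶠ χ ∈ Irr G, n χ ^ 2 ≤ r * (r + ∑ᶠ χ ∈ Irr G, ν χ * n χ) ∧
      ∑ᶠ χ ∈ Irr G, ν χ * n χ ≤ r ∧
      ((∃ μ : G →* ℂˣ, μ * μ = 1 ∧ n (fun g => ((μ g : ℂˣ) : ℂ)) = r ∧
          ∀ χ ∈ Irr G, χ ≠ (fun g => ((μ g : ℂˣ) : ℂ)) → n χ = 0) ∨
        ((0 < r → ∑ᶠ χ ∈ Irr G, n χ * (n χ + ν χ) < r * (r + 1)) ∧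
          (3 ≤ r → ∑ᶠ χ ∈ Irr G, n χ * (n χ - ν χ) < r * (r - 1) ∧
            (∀ χ ∈ Irr G, (ν χ = 1 → 2 - r ≤ n χ ∧ n χ ≤ r - 1) ∧
              (ν χ = -1 → 1 - r ≤ n χ ∧ n χ ≤ r - 2) ∧
              (ν χ = 0 → 2 * n χ ^ 2 < r * (r - 1))) ∧
            {χ | χ ∈ Irr G ∧ ν χ = 0 ∧ n χ ≠ 0}.ncard < r * (r - 1))))) := by
  classical
  have hfin : ∀ f : (G → ℂ) → ℤ, ∑ᶠ χ ∈ Irr G, f χ = ∑ χ ∈ irrF G, f χ := fun f =>
    finsum_mem_eq_finite_toFinset_sum f (irr_finite (G := G))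
  have hno : ∀ χ ∈ Irr G, n χ = A.ord χ := by
    intro χ hχ
    have h1 := A.coe_ord hχ
    rw [hn χ hχ] at h1
    exact (WithTop.coe_injective h1).symm
  have hth : (theta n : G → ℂ) = theta A.ord := by
    funext g
    unfold theta
    exact Finset.sum_congr rfl fun χ hχ => by rw [hno χ (mem_irrF.mp hχ)]
  have hθ : Pool.Agent.H302R2.IsHeilbronn (theta n : G → ℂ) := by
    rw [hth]; exact A.isHeilbronn
  have h1 : (theta n : G → ℂ) 1 = r := by
    rw [hth]; exact A.theta_one hr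
  constructor
  · intro D
    choose! ν hν using fun χ (hχ : χ ∈ Irr G) => nu_twisted D hχ
    refine ⟨ν, fun χ hχ => ⟨dual_irr D hχ, (hν χ hχ).1, (hν χ hχ).2.1, (hν χ hχ).2.2⟩, ?_⟩
    rw [hfin, hfin, hfin]
    exact schur_ineq n hθ h1 D ν (fun χ hχ => (hν χ hχ).1)
  · intro hs hA ν hν
    have hreal : ∀ χ ∈ Irr G, n (fun g => χ g⁻¹) = n χ := by
      intro χ hχ
      rw [hno χ hχ, hno _ (irr_inv hχ)]
      exact ord_inv hs hA hχ
    simp only [hfin]
    obtain ⟨ha, hb, hc⟩ := real_ineq n hθ h1 hreal ν hν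
    refine ⟨ha, hb, ?_⟩
    rcases hc with hc | ⟨hc1, hc2⟩
    · left; exact hc
    right
    refine ⟨hc1, fun h3 => ?_⟩
    have hS := hc2 h3
    have hG : (Nat.card G : ℂ) ≠ 0 := by exact_mod_cast Nat.card_pos.ne'
    have hν' : ∀ χ ∈ Irr G, (ν χ = 1 ∨ ν χ = 0 ∨ ν χ = -1) ∧ (ν χ = 0 → (fun g => χ g⁻¹) ≠ χ) := by
      intro χ hχ
      obtain ⟨ν', h4, h5⟩ := nu_exists hχ
      have h6 : ν χ = ν' := by
        have h7 := (hν χ hχ).symm.trans h4
        exact_mod_cast mul_right_cancel₀ hG h7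
      rw [h6]
      rcases h5 with ⟨h, -, h8⟩ | ⟨h, h8⟩ | ⟨h, g, hg⟩
      · simp [h]
      · simp [h]
      · refine ⟨by simp [h], fun _ h9 => hg (congrFun h9 g)⟩
    have hpos : ∀ χ ∈ irrF G, 0 ≤ n χ * (n χ - ν χ) := by
      intro χ hχ
      rcases (hν' χ (mem_irrF.mp hχ)).1 with h | h | h <;> rw [h]
      · rcases le_or_gt (n χ) 0 with h4 | h4
        · nlinarith
        · have : 0 ≤ n χ - 1 := by omega
          positivity
      · nlinarith [sq_nonneg (n χ)]
      · rcases le_or_gt 0 (n χ) with h4 | h4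
        · nlinarith
        · nlinarith
    have hone : ∀ χ ∈ Irr G, n χ * (n χ - ν χ) < r * (r - 1) := by
      intro χ hχ
      exact (Finset.single_le_sum hpos (mem_irrF.mpr hχ)).trans_lt hS
    have h3' : (3 : ℤ) ≤ r := by exact_mod_cast h3
    refine ⟨hS, fun χ hχ => ⟨fun h => ?_, fun h => ?_, fun h => ?_⟩, ?_⟩
    · have h4 := hone χ hχ
      rw [h] at h4
      constructor
      · by_contra h5
        push Not at h5
        nlinarith
      · by_contra h5
        push Not at h5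
        nlinarith
    · have h4 := hone χ hχ
      rw [h] at h4
      constructor
      · by_contra h5
        push Not at h5
        nlinarith
      · by_contra h5
        push Not at h5
        nlinarith
    · have hne := (hν' χ hχ).2 h
      have hi := irr_inv hχ
      have h5 : ν (fun g => χ g⁻¹) = 0 := by
        have h6 := hν _ hi
        have h7 := hν χ hχ
        rw [h] at h7
        have h8 : ∑ᶠ g, (fun g => χ g⁻¹) (g ^ 2) = ∑ᶠ g, χ (g ^ 2) := by
          have : Fintype G := Fintype.ofFinite G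
          rw [finsum_eq_sum_of_fintype, finsum_eq_sum_of_fintype]
          simp only
          rw [← Equiv.sum_comp (Equiv.inv G)]
          refine Finset.sum_congr rfl fun g _ => ?_
          rw [Equiv.inv_apply, inv_pow, inv_inv]
        rw [h8, h7] at h6
        have h9 := mul_right_cancel₀ hG h6
        exact_mod_cast h9.symm
      have h6 : ∑ ψ ∈ ({fun g => χ g⁻¹, χ} : Finset (G → ℂ)), n ψ * (n ψ - ν ψ)
          ≤ ∑ ψ ∈ irrF G, n ψ * (n ψ - ν ψ) := by
        apply Finset.sum_le_sum_of_subset_of_nonneg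
        · intro ψ hψ
          rcases Finset.mem_insert.mp hψ with h | h
          · rw [h]; exact mem_irrF.mpr hi
          · rw [Finset.mem_singleton.mp h]; exact mem_irrF.mpr hχ
        · intro ψ hψ _
          exact hpos ψ hψ
      rw [Finset.sum_pair hne, h5, h, hreal χ hχ] at h6
      have h7 := h6.trans_lt hS
      linarith [show n χ * (n χ - 0) + n χ * (n χ - 0) = 2 * n χ ^ 2 by ring]
    · have h4 : {χ | χ ∈ Irr G ∧ ν χ = 0 ∧ n χ ≠ 0}
          = (((irrF G).filter fun χ => ν χ = 0 ∧ n χ ≠ 0 : Finset (G → ℂ)) : Set (G → ℂ)) := by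
        ext χ
        simp [mem_irrF]
      rw [h4, Set.ncard_coe_finset]
      have h5 : (((irrF G).filter fun χ => ν χ = 0 ∧ n χ ≠ 0).card : ℤ)
          ≤ ∑ χ ∈ (irrF G).filter (fun χ => ν χ = 0 ∧ n χ ≠ 0), n χ * (n χ - ν χ) := by
        rw [Finset.card_eq_sum_ones, Nat.cast_sum]
        refine Finset.sum_le_sum fun χ hχ => ?_
        obtain ⟨-, h6, h7⟩ := Finset.mem_filter.mp hχ
        rw [h6]
        have : 0 < n χ ^ 2 := by positivity
        push_cast
        nlinarith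
      have h6 : ∑ χ ∈ (irrF G).filter (fun χ => ν χ = 0 ∧ n χ ≠ 0), n χ * (n χ - ν χ)
          ≤ ∑ χ ∈ irrF G, n χ * (n χ - ν χ) :=
        Finset.sum_le_sum_of_subset_of_nonneg (Finset.filter_subset _ _) fun χ hχ _ => hpos χ hχ
      have h7 := (h5.trans h6).trans_lt hS
      have h8 : (1 : ℕ) ≤ r := by omega
      zify [h8]
      exact h7
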