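import Pool.Agent.Q175.NF.Disc

/-!
# Discrete valuations of a field which is NIP, `NIP_n` or NTP2

Let `K` be a field which is NIP, or `NIP_n` for some `n`, or `NTP2`, and let `V` be a valuation ring
of `K` whose maximal ideal is principal and not zero and whose residue field is not separably
closed. Then `V` is definable in `K` in the language of rings, with parameters. It is not assumed
that `V` is henselian, or that the valued field `(K, V)` is NIP, or that `V` has rank one.

For example every `p`-valuation of `K` is definable.

The proof uses the theorem on places of the starting library `Pool.Agent.W882.Nip3` (the number of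
pairwise incomparable places with norm groups which are not dense is bounded, in all fields
elementarily equivalent to `K`), Chevalley's extension theorem and a compactness argument.
-/

set_option autoImplicit false

namespace Pool.Agent.Results.MP_3554b5_lc.DiscreteValuations

open Pool.Agent.W882.Nip3 Pool.Agent.Q175.NF

/-- Let `K` be a field which is NIP (the hypothesis of `S14569`), or `NIP_n` for some `n`, or
`NTP2`, and let `V` be a valuation ring of `K` whose maximal ideal is generated by an element
`ϖ ≠ 0` and whose residue field is not separably closed. Then `V` is definable. -/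
theorem result (K : Type) [Field K] [FirstOrder.Ring.CompatibleRing K]
    (hK : NIPField K ∨ (∃ n, NIPnField n K) ∨ NTP2Field K)
    (V : ValuationSubring K) (hV : ¬ IsSepClosed (IsLocalRing.ResidueField V))
    (ϖ : V) (h0 : ϖ ≠ 0) (hϖ : IsLocalRing.maximalIdeal V = Ideal.span {ϖ}) :
    ∃ (p : ℕ) (ψ : FirstOrder.Language.ring.Formula (Fin 1 ⊕ Fin p)) (c : Fin p → K),
      ∀ x : K, x ∈ V ↔ ψ.Realize (Sum.elim (fun _ => x) c) := by
  have hm : ∀ x : V, V.valuation (x : K) < 1 ↔ ϖ ∣ x := fun x => by
    rw [← Ideal.mem_span_singleton, ← hϖ, ValuationSubring.valuation_lt_one_iff]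
  refine discrete_definable hK hV (ϖ := (ϖ : K)) (by simpa using h0) ((hm ϖ).mpr dvd_rfl) ?_
  intro x hx
  obtain ⟨y, hy⟩ := (hm ⟨x, (ValuationSubring.valuation_le_one_iff _ _).mp hx.le⟩).mp hx
  have e : x = (ϖ : K) * (y : K) := congrArg (fun z : V => (z : K)) hy
  rw [e, map_mul]
  exact mul_le_of_le_one_right' ((ValuationSubring.valuation_le_one_iff _ _).mpr y.2)

end Pool.Agent.Results.MP_3554b5_lc.DiscreteValuations
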