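import Pool.Agent.Q55.Hs.Main

/-!
# A trichotomy for the standard conjecture of Hodge type on the powers of a variety

Let `X` be a smooth projective variety with a divisor `D` of positive degree `D ^ dim X` which
satisfies the hard Lefschetz theorem and the standard conjecture of Lefschetz type (for example an
abelian variety with an ample divisor, in any characteristic). On the power `X ^ (n + 1)` with the
sum of the pull-backs of `D` let `sig n j` be the signature of the form
`(-1) ^ j deg (z · w · D ^ (d - 2 j))`, `d = dim X ^ (n + 1)`, on the primitive algebraic cycles of
codimension `j`. Let `S n` be the sum over `j ≤ d / 2` of `(d - 2 j + 1) * sig n j` (the signature of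
the Hodge-Riemann form on the algebraic classes of all codimensions), let `N n` be the rank of the
group of cycles of all codimensions modulo numerical equivalence and let `A n` be the dimension of
the space spanned by the classes of all cycles. One of the following three statements holds.

* The standard conjecture of Hodge type holds for all powers of `X`, and `S n = A n` for all `n`.
* The forms are semidefinite for all powers of `X` (`S n = N n`), but asymptotically all algebraic
  classes are numerically trivial: `N n / A n` tends to zero.
* For all powers and in all codimensions positive and negative squares cancel up to an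
  exponentially small error: there is `ρ < 1` such that the sum over all `j` of `|sig n j|` is at
  most `C ρ ^ n N n`.

So if `S n / A n` does not tend to zero, the standard conjecture of Hodge type holds for all powers
of `X`. A single primitive cycle with negative square, on a power of `X`, makes the forms on the
primitive cycles of all codimensions of the powers of `X` asymptotically as indefinite as possible.
-/

open CategoryTheory AlgebraicGeometry Filter Topology

universe u v

namespace Pool.Agent.Results.MP_361a6f_ag.SignatureTrichotomy

open Pool.Agent.H914 Pool.Agent.H914.VarClass Pool.Agent.H914.VarClass.Obj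
  Pool.Agent.Y133.Half Pool.Agent.Q55 Pool.Agent.Q55.Hs

variable {k : Type u} [Field k] {𝒱 : VarClass k} {ops : CycleOps 𝒱}

/-- The trichotomy: `pw X n` is the product of `n + 1` copies of `X`. -/
theorem result (W : WeilCohomology.{u, v} ops) (X : 𝒱.Obj) (D : X.Cycles) (hD : X.IsCyc 1 D)
    (hdeg : 0 < X.V.degCycle (divPow ops D X.dim X.V.fundCycle)) (hHL : HardLefschetz W X D)
    (hB : LefschetzB W X D) :
    (∀ n, HodgeType W (pw X n) (pwDiv ops D n) ∧
      totalSig W (pw X n) (pwDiv ops D n) = algDim W (pw X n)) ∨
    ((∀ n, totalSig W (pw X n) (pwDiv ops D n) = cycRank ops (pw X n)) ∧
      Tendsto (fun n => (cycRank ops (pw X n) : ℝ) / algDim W (pw X n)) atTop (𝓝 0)) ∨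
    ∃ C ρ : ℝ, 0 < ρ ∧ ρ < 1 ∧ ∀ n,
      (absSig W (pw X n) (pwDiv ops D n) : ℝ) ≤ C * ρ ^ n * cycRank ops (pw X n) :=
  trichotomy hD hdeg hHL hB

end Pool.Agent.Results.MP_361a6f_ag.SignatureTrichotomy
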