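import Pool.Agent.Q282.HM.Lin

/-!
# Tate's conjecture for almost all complete intersections over a number field and all motives of smaller height at once,
in truncated form

Let `K` be a number field with ring of integers `O`.

**The complete intersections.** Let `s ≥ 0` linear subspaces of dimension `g ≤ D / 2` of the projective space of dimension `D + r` be
given by linear equations `l` over `O`, and let the forms `f_{a,j}` span, for `a = 1, ..., r`, the forms of degree `d_a ≥ s + 2 ν - 1` that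
vanish on them. For `c = (c_{a,j})` in `O` let `V_c` be the complete intersection `{∑_j c_{1,j} f_{1,j} = ... = ∑_j c_{r,j} f_{r,j} = 0}`, a
variety of dimension `D` over `K`, smooth if `Δ(c) ≠ 0`, where `Δ` is a polynomial over `O` (a multiple of the discriminant).
The primes of degree one of `K` over `p` are the homomorphisms `ψ : O → ZMod p`; the reduction of `V_c` at `ψ` is the member `V_u` over the
field with `p` elements with the coefficients `u = ψ(c)`. Let `α p ψ u` be the eigenvalues of Frobenius on `H^D(V_u)`, for `Δ(u) ≠ 0`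
(their number is the Betti number `b`, their absolute value is `p ^ (D / 2)` by Deligne, and the trace formula holds).

**The motives.** A system `(M'_j)`, `j ≤ n`, of pure motives of weight `j` over `K` (for instance the cohomology groups `H^j(Y)` of a
variety `Y`, or all of them zero but one; also `H^j(Y)` twisted by a representation of the Galois group or induced from an extension of
`K`) enters by the eigenvalues `η p ψ j` of Frobenius at `ψ` on the realization of `M'_j`: at most `β` numbers of absolute value at most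
`p ^ (j / 2)`. The space of homomorphisms between a motive `M` of weight `n - j` that is dual (up to a Tate twist) to a part of `h(V_c^ν)`
and `M'_j` is a part of the space of Tate classes in `H^n(V_c^ν × M') = ⊕_j H^{n-j}(V_c^ν) ⊗ M'_j`; the conjecture of Tate says that its
dimension is the limit of the averages

  `1 / X ∑_{p ≤ X} log p ∑_ψ trace(Frob_ψ, H^n(V_c^ν × M')(n / 2))`.

**The theorem.** Let `T_a` be the number of the products of codimension `a` on `V^ν` of hyperplane classes, diagonals and, if `2 g = D`,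
the given subspaces. There is a constant `C` such that for all `k ≥ 1`, `λ ≥ 1`, all `X` and all boxes of families `c` (in the coordinates
of any integral basis of `O`, with any centre) with sides at least `C X ^ (3 k)` and for all finite sets `T` of systems of motives, all
members of the box but a proportion of at most `#T X λ ^ (- 2 k)` satisfy, for ALL systems `M'` in `T` and all `2 ≤ X' ≤ X` at once,

  `| ∑_{p ≤ X'} log p ∑_ψ (trace(Frob_ψ, H^n(V_c^ν × M')(n/2)) - ∑_a T_a trace(Frob_ψ, M'_{n-2a}(n/2-a))) | ≤ C λ (k X')^{1/2} log X'`.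

So to this precision the motive of `V_c^ν` has no homomorphisms to any motive `M'` in `T`, but the predicted ones: those that come from
the algebraic classes above and the Tate classes of the motives `M'_{n-2a}`. Here `k` is arbitrary. For a box with sides `L`, for
`X = (log L) ^ A` with any `A` and `k = log L / (3 A log log L)` up to bounded quantities, `#T` can be `L ^ θ` for any `θ < 1 / 3`: all
systems `M'` of a family of height at most a fixed power of the height of `V_c` are treated at once, all `c` but a proportion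
`L ^ (-ε)` are allowed, and the bound is `X ^ ((1 + 3 θ) / 2 + 1 / (2 A) + ε')`, a power saving for `A > 1 / (1 - 3 θ)`. In this range of
`X` (for `A > 2`) the generalized Riemann hypothesis would give the pole orders themselves.

Proof. The means of the traces modulo each prime of degree one (separation of points by the linear system), the independence of
the rational primes in the box for products of up to `2 k` of them, moments of order `2 k` with Gaussian bounds uniform in `k` by
exponential generating functions; the traces of the motives in `T` are arbitrary bounded weights.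
-/

set_option autoImplicit false

namespace Pool.Agent.Results.MP_3703a7_ag.AllSmallerMotivesAtOnce

open Finset MvPolynomial NumberField
open scoped LinearAlgebra.Projectivization

/-- The linear form with the coefficients `v`. -/
noncomputable def linear {O : Type} [CommRing O] {n : ℕ} (v : Fin (n + 1) → O) : MvPolynomial (Fin (n + 1)) O := ∑ j, C (v j) * X j

/-- The forms `f j` span the forms of degree `d` that belong, for every `i`, to the ideal generated by the equations of the `i`-th
linear subspace (so for `s = 0` all forms of degree `d`). -/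
def SpansLinear {O : Type} [CommRing O] {n s c : ℕ} (l : Fin s → Fin c → Fin (n + 1) → O) (d : ℕ) {ι : Type} [Fintype ι]
    (f : ι → MvPolynomial (Fin (n + 1)) O) : Prop :=
  (∀ j, (f j).IsHomogeneous d ∧ ∀ i, f j ∈ Ideal.span (Set.range fun a => linear (l i a))) ∧
  ∀ H : MvPolynomial (Fin (n + 1)) O, H.IsHomogeneous d → (∀ i, H ∈ Ideal.span (Set.range fun a => linear (l i a))) →
    ∃ c : ι → O, H = ∑ j, C (c j) * f j

/-- Modulo the prime `ψ` the linear equations `l i 0, ..., l i (c - 1)` are independent for every `i`, and the linear subspaces of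
codimension `c` that they define for different `i` are different. -/
def AreSubspaces {O F : Type} [CommRing O] [Field F] {n s c : ℕ} (ψ : O →+* F) (l : Fin s → Fin c → Fin (n + 1) → O) : Prop :=
  (∀ i, LinearIndependent F fun a j => ψ (l i a j)) ∧
  ∀ i i', i ≠ i' → ∃ y : Fin (n + 1) → F, ¬ ((∀ a, ∑ j, ψ (l i a j) * y j = 0) ↔ ∀ a, ∑ j, ψ (l i' a j) * y j = 0)

/-- The Betti number in degree `2 a`, for `2 a ≠ D`, of a complete intersection of dimension `D`. -/
def betti (D a : ℕ) : ℕ := if 2 * a ≠ D ∧ a ≤ D then 1 else 0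

section

variable {K : Type} [Field K]

/-- The number of the points of the member `V_u` over the field with `p` elements of the family of the complete intersections
`∑_j u_{a,j} f_{a,j} = 0`, `a = 1, ..., r`, where the coefficients of the forms `f_{a,j}` are reduced by `ψ`. -/
noncomputable def points {n r : ℕ} {μ : Fin r → ℕ} (f : (a : Fin r) → Fin (μ a) → MvPolynomial (Fin (n + 1)) (𝓞 K)) {p : ℕ} [Fact p.Prime]
    (ψ : 𝓞 K →+* ZMod p) (u : (Σ a, Fin (μ a)) → ZMod p) : ℕ :=
  Nat.card {P : ℙ (ZMod p) (Fin (n + 1) → ZMod p) // ∀ a, ∑ j, u ⟨a, j⟩ * eval₂ ψ P.rep (f a j) = 0}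

/-- The eigenvalues `α p ψ u` for the members `V_u` modulo the primes `ψ` with `Δ(u) ≠ 0`: their number is `b`, they are at most
`p ^ (D / 2)`, and the trace formula holds. For smooth members these are the properties of the eigenvalues of Frobenius on the
cohomology in degree `D` (Grothendieck, Lefschetz, Deligne). -/
structure IsFrobenius {n r : ℕ} {μ : Fin r → ℕ} (D b : ℕ) (f : (a : Fin r) → Fin (μ a) → MvPolynomial (Fin (n + 1)) (𝓞 K))
    (Δ : MvPolynomial (Σ a, Fin (μ a)) (𝓞 K)) (α : (p : ℕ) → (𝓞 K →+* ZMod p) → ((Σ a, Fin (μ a)) → ZMod p) → Multiset ℂ) : Prop where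
  card : ∀ (p : ℕ) [Fact p.Prime] (ψ : 𝓞 K →+* ZMod p) (u : (Σ a, Fin (μ a)) → ZMod p), eval₂ ψ u Δ ≠ 0 → (α p ψ u).card = b
  norm : ∀ (p : ℕ) [Fact p.Prime] (ψ : 𝓞 K →+* ZMod p) (u : (Σ a, Fin (μ a)) → ZMod p), eval₂ ψ u Δ ≠ 0 →
    ∀ a ∈ α p ψ u, ‖a‖ ≤ Real.sqrt p ^ D
  trace : ∀ (p : ℕ) [Fact p.Prime] (ψ : 𝓞 K →+* ZMod p) (u : (Σ a, Fin (μ a)) → ZMod p), eval₂ ψ u Δ ≠ 0 →
    (points f ψ u : ℂ) = ∑ a ∈ range (D + 1), betti D a * (p : ℂ) ^ a + (-1) ^ D * (α p ψ u).sum

/-- The eigenvalues `η p ψ j`, `j ≤ n`, at the primes `ψ` of degree one with `Δ ≠ 0` modulo `ψ` of a system of motives of weights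
`j`: at most `β` numbers of absolute value at most `p ^ (j / 2)`. -/
def IsSystem {S : Type} (Δ : MvPolynomial S (𝓞 K)) (n β : ℕ) (η : (p : ℕ) → (𝓞 K →+* ZMod p) → ℕ → Multiset ℂ) : Prop :=
  ∀ (p : ℕ) [Fact p.Prime] (ψ : 𝓞 K →+* ZMod p), map ψ Δ ≠ 0 → ∀ j ≤ n, (η p ψ j).card ≤ β ∧ ∀ a ∈ η p ψ j, ‖a‖ ≤ Real.sqrt p ^ j

/-- The eigenvalues on the cohomology of a member in degree `j`, where `q` is the number of the elements of the field. -/
noncomputable def cohomology (D q : ℕ) (α : Multiset ℂ) (j : ℕ) : Multiset ℂ :=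
  if j = D then α else if Even j then Multiset.replicate (betti D (j / 2)) ((q : ℂ) ^ (j / 2)) else 0

/-- The eigenvalues in degree `j` of a product (Kunneth). -/
noncomputable def product (H H' : ℕ → Multiset ℂ) (j : ℕ) : Multiset ℂ :=
  ∑ x ∈ antidiagonal j, (H x.1 ×ˢ H' x.2).map (fun z => z.1 * z.2)

/-- The eigenvalues on the cohomology of the power with `ν` factors. -/
noncomputable def power (H : ℕ → Multiset ℂ) : ℕ → ℕ → Multiset ℂ
  | 0, j => if j = 0 then {1} else 0
  | ν + 1, j => product H (power H ν) j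

/-- The sum over the primes `ψ` of degree one over `p` that do not divide `Δ(c)` of the traces of Frobenius on the sum of the
`H^{n-j}(V_c^ν) ⊗ M'_j (n / 2)`. -/
noncomputable def traceSum {S : Type} (D ν n : ℕ) (Δ : MvPolynomial S (𝓞 K)) (c : S → 𝓞 K)
    (α : (p : ℕ) → (𝓞 K →+* ZMod p) → (S → ZMod p) → Multiset ℂ) (η : (p : ℕ) → (𝓞 K →+* ZMod p) → ℕ → Multiset ℂ) (p : ℕ) : ℂ :=
  (∑ᶠ ψ : {ψ : 𝓞 K →+* ZMod p // ψ (eval c Δ) ≠ 0},
    (product (power (cohomology D p (α p ψ.1 fun i => ψ.1 (c i))) ν) (η p ψ.1) n).sum) / (Real.sqrt p : ℂ) ^ n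

/-- The number of the perfect matchings of `j` elements: the moments of the normal law. -/
def matchings (j : ℕ) : ℕ := if Even j then (j - 1).doubleFactorial else 0

/-- The generating series of the Betti numbers outside the middle degree. -/
noncomputable def outer (D : ℕ) : PowerSeries ℕ := PowerSeries.mk fun b => if Even b then betti D (b / 2) else 0

/-- The number `T_a` of the products of codimension `a` on the power with `ν` factors of a complete intersection of dimension `D` of
hyperplane classes, diagonals and `z` further classes in the middle degree: `k` factors carry a class of the middle degree, `j` of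
them are matched by diagonals, and the others carry one of the `z` classes or, for `D` even, the power of the hyperplane class. -/
noncomputable def classes (D ν z a : ℕ) : ℕ :=
  ∑ k ∈ range (ν + 1), (ν.choose k * (if D * k ≤ 2 * a then PowerSeries.coeff (2 * a - D * k) (outer D ^ (ν - k)) else 0)) *
    ∑ j ∈ range (k + 1), k.choose j * matchings j * (z + if Even D then 1 else 0) ^ (k - j)

/-- The predicted sum: the sum over the primes `ψ` of degree one over `p` with `Δ ≠ 0` modulo `ψ` and over `a ≤ n / 2` of `T_a` times the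
trace of Frobenius on `M'_{n-2a} (n / 2 - a)`. -/
noncomputable def predicted {S : Type} (D ν z n : ℕ) (Δ : MvPolynomial S (𝓞 K)) (η : (p : ℕ) → (𝓞 K →+* ZMod p) → ℕ → Multiset ℂ)
    (p : ℕ) : ℂ :=
  ∑ᶠ ψ : {ψ : 𝓞 K →+* ZMod p // map ψ Δ ≠ 0}, ∑ a ∈ range (n / 2 + 1),
    classes D ν z a * ((η p ψ.1 (n - 2 * a)).sum / (Real.sqrt p : ℂ) ^ (n - 2 * a))

/-- The box of the families of integers with coordinates in the intervals `[m, m + L)`. -/
def box {κ S : Type} (ω : Module.Basis κ ℤ (𝓞 K)) (m : S × κ → ℤ) (L : S × κ → ℕ) : Set (S → 𝓞 K) :=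
  {c | ∀ s k, m (s, k) ≤ ω.repr (c s) k ∧ ω.repr (c s) k < m (s, k) + L (s, k)}

end

theorem power_eq (H : ℕ → Multiset ℂ) (ν j : ℕ) : power H ν j = Q282GP.kun H ν j := by
  induction ν generalizing j with
  | zero => rfl
  | succ ν ih =>
    unfold power product Q282GP.kun
    refine sum_congr rfl fun x _ => ?_
    rw [ih]

theorem betti_eq (D r a : ℕ) : Q282GP.oc (fun _ => 1) D r a = betti D a := by
  unfold Q282GP.oc betti
  split_ifs <;> first | rfl | omega

theorem cohomology_eq (D r q : ℕ) (α : Multiset ℂ) : Q282GP.coh (fun _ => 1) D r q α = cohomology D q α := by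
  funext j
  unfold Q282GP.coh cohomology
  rw [betti_eq]

theorem outer_eq (D r : ℕ) : Q282GP.oser (fun _ => 1) D r = outer D := by
  unfold Q282GP.oser outer
  simp only [betti_eq]

theorem classes_eq (D r ν z a : ℕ) : ∑ l ∈ range (ν + 1), Q282GP.TT (fun _ => 1) D r ν a l * z ^ l = classes D ν z a := by
  unfold Q282GP.TT classes
  simp only [sum_mul]
  rw [sum_comm]
  refine sum_congr rfl fun κ hκ => ?_
  rw [mem_range] at hκ
  have h1 : ∑ l ∈ range (ν + 1), Q282GP.mid (if Even D then 1 else 0) κ l * z ^ l =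
      ∑ j ∈ range (κ + 1), κ.choose j * matchings j * (z + if Even D then 1 else 0) ^ (κ - j) := by
    have h2 := Q282GP.expand (z : ℝ) (if Even D then 1 else 0) κ ν (by omega)
    exact_mod_cast h2.symm
  rw [← h1, mul_sum]
  refine sum_congr rfl fun l _ => ?_
  have h3 : Q282GP.vv (fun _ => 1) D r = if Even D then 1 else 0 := rfl
  have h4 : Q282GP.cc (fun _ => 1) D r ν a κ = ν.choose κ * (if D * κ ≤ 2 * a then PowerSeries.coeff (2 * a - D * κ) (outer D ^ (ν - κ)) else 0) := by
    unfold Q282GP.cc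
    rw [outer_eq]
  rw [h3, h4, mul_assoc]

section

variable {K : Type} [Field K] [NumberField K]

omit [NumberField K] in
theorem trace_formula {n r : ℕ} {μ : Fin r → ℕ} {D b : ℕ} {f : (a : Fin r) → Fin (μ a) → MvPolynomial (Fin (n + 1)) (𝓞 K)}
    {Δ : MvPolynomial (Σ a, Fin (μ a)) (𝓞 K)} {α : (p : ℕ) → (𝓞 K →+* ZMod p) → ((Σ a, Fin (μ a)) → ZMod p) → Multiset ℂ}
    (hα : IsFrobenius D b f Δ α) (p : ℕ) [Fact p.Prime] (ψ : 𝓞 K →+* ZMod p) (u : (Σ a, Fin (μ a)) → ZMod p) (hu : eval₂ ψ u Δ ≠ 0) :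
    (Q282GH.zeros (eval₂Hom ψ u) (Q282GP.fam ∅ f) : ℂ) = ((Q282GP.tt (fun _ => 1) D r (p : ℝ) : ℝ) : ℂ) + (-1) ^ D * (α p ψ u).sum := by
  have h1 : Q282GH.zeros (eval₂Hom ψ u) (Q282GP.fam ∅ f) = points f ψ u := by
    unfold Q282GH.zeros points Q282GP.fam
    refine Nat.card_congr (Equiv.subtypeEquivRight fun P => ?_)
    constructor
    · intro h a
      have h2 := h _ (Or.inl ⟨a, rfl⟩)
      rw [Q282HM.eval_gen f ψ u P.rep a] at h2
      exact h2
    · rintro h H (⟨a, rfl⟩ | hH)
      · rw [Q282HM.eval_gen f ψ u P.rep a]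
        exact h a
      · simp at hH
  rw [h1, hα.trace p ψ u hu]
  congr 1
  unfold Q282GP.tt
  simp only [betti_eq]
  push_cast
  rfl

theorem traceSum_eq {n r : ℕ} {μ : Fin r → ℕ} {D b : ℕ} (ν n' : ℕ) {f : (a : Fin r) → Fin (μ a) → MvPolynomial (Fin (n + 1)) (𝓞 K)}
    {Δ : MvPolynomial (Σ a, Fin (μ a)) (𝓞 K)} {α : (p : ℕ) → (𝓞 K →+* ZMod p) → ((Σ a, Fin (μ a)) → ZMod p) → Multiset ℂ}
    (hα : IsFrobenius D b f Δ α) (η : (p : ℕ) → (𝓞 K →+* ZMod p) → ℕ → Multiset ℂ) (c : (Σ a, Fin (μ a)) → 𝓞 K) (p : ℕ) (hp : p.Prime) :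
    Q282HM.YY (fun _ => 1) D r ν n' ∅ f Δ (Q282HM.yy η) p c = traceSum D ν n' Δ c α η p := by
  rw [Q282HM.YY_eq (fun _ => 1) D r ν n' ∅ f Δ α η c p hp (fun hF ψ u hu => trace_formula hα p ψ u hu)]
  unfold traceSum
  have h5 : ∀ H : ℕ → Multiset ℂ, power H ν = Q282GP.kun H ν := fun H => funext fun j => power_eq H ν j
  simp only [h5, cohomology_eq]
  push_cast
  rfl

theorem predicted_eq (D r ν z n : ℕ) {μ : Fin r → ℕ} (Δ : MvPolynomial (Σ a, Fin (μ a)) (𝓞 K))
    (η : (p : ℕ) → (𝓞 K →+* ZMod p) → ℕ → Multiset ℂ) (p : ℕ) (hp : p.Prime) :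
    Q282HM.MM (fun _ => 1) D r ν n Δ (fun _ _ => z) (Q282HM.yy η) p = predicted D ν z n Δ η p := by
  rw [Q282HM.MM_eq (fun _ => 1) D r ν n Δ z _ p hp]
  unfold predicted
  simp only [classes_eq]
  unfold Q282HM.yy
  push_cast
  rfl

theorem box_finite {κ S : Type} [Fintype κ] [Fintype S] (ω : Module.Basis κ ℤ (𝓞 K)) (m : S × κ → ℤ) (L : S × κ → ℕ) :
    (box ω m L).Finite := by
  classical
  refine (((Q282RH.tbox m L).finite_toSet).image (Q282NA.dec ω)).subset ?_
  intro c hc
  refine ⟨fun x => ω.repr (c x.1) x.2, ?_, Q282NA.dec_repr ω c⟩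
  rw [mem_coe]
  unfold Q282RH.tbox
  rw [Fintype.mem_piFinset]
  intro x
  rw [mem_Ico]
  exact hc x.1 x.2

end

/-- **Almost all complete intersections and all motives of smaller height at once, in truncated form.** -/
theorem result (K : Type) [Field K] [NumberField K] (κ : Type) [Fintype κ] (ω : Module.Basis κ ℤ (𝓞 K))
    -- the complete intersections
    (D r s g ν : ℕ) (hD : 1 ≤ D) (hr : 1 ≤ r) (hg : 2 * g ≤ D) (hν : 1 ≤ ν) (μ d : Fin r → ℕ) (hd : ∀ a, s + 2 * ν ≤ d a + 1)
    (Δ : MvPolynomial (Σ a, Fin (μ a)) (𝓞 K)) (l : Fin s → Fin (D + r - g) → Fin (D + r + 1) → 𝓞 K)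
    (hl : ∀ (p : ℕ) [Fact p.Prime] (ψ : 𝓞 K →+* ZMod p), map ψ Δ ≠ 0 → AreSubspaces ψ l)
    (f : (a : Fin r) → Fin (μ a) → MvPolynomial (Fin (D + r + 1)) (𝓞 K)) (hf : ∀ a, SpansLinear l (d a) (f a))
    -- the degree and the bounds for the numbers of the eigenvalues
    (n b β : ℕ) :
    ∃ C : ℝ, ∀ (α : (p : ℕ) → (𝓞 K →+* ZMod p) → ((Σ a, Fin (μ a)) → ZMod p) → Multiset ℂ), IsFrobenius D b f Δ α →
      ∀ (k : ℕ) (lam : ℝ) (X : ℕ), 1 ≤ k → 1 ≤ lam →
      ∀ (m : (Σ a, Fin (μ a)) × κ → ℤ) (L : (Σ a, Fin (μ a)) × κ → ℕ), (∀ x, C * (X : ℝ) ^ (3 * k) ≤ L x) →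
      ∀ (T : Type) [Fintype T] (η : T → (p : ℕ) → (𝓞 K →+* ZMod p) → ℕ → Multiset ℂ), (∀ t, IsSystem Δ n β (η t)) →
      (Set.ncard {c ∈ box ω m L | ¬ ∀ t, ∀ X' : ℕ, 2 ≤ X' → X' ≤ X →
        ‖∑ p ∈ Nat.primesLE X', (Real.log p : ℂ) *
          (traceSum D ν n Δ c α (η t) p - predicted D ν (if 2 * g = D then s else 0) n Δ (η t) p)‖ ≤
          C * lam * Real.sqrt (k * X') * Real.log X'} : ℝ) ≤
      Fintype.card T * X / lam ^ (2 * k) * Set.ncard (box ω m L) := by
  classical
  by_cases hex : ∃ α : (p : ℕ) → (𝓞 K →+* ZMod p) → ((Σ a, Fin (μ a)) → ZMod p) → Multiset ℂ, IsFrobenius D b f Δ α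
  swap
  · exact ⟨0, fun α hα => absurd ⟨α, hα⟩ hex⟩
  obtain ⟨α₀, hα₀⟩ := hex
  obtain ⟨C, hC0, hC⟩ := Q282HM.almost_lin ω D hD r hr (Fintype.card_fin r) ν hν n hg l hd (fun a => Q282HM.Contains.through (hf a)) Δ hl b
    (fun p hp ψ u hu => ⟨α₀ p ψ u, hα₀.card p ψ u hu, hα₀.norm p ψ u hu, trace_formula hα₀ p ψ u hu⟩) (β : ℝ) (Nat.cast_nonneg β)
  refine ⟨C, fun α hα k lam X hk hlam m L hL T _ η hη => ?_⟩
  have key := hC k hk lam hlam X m L hL T (fun t => Q282HM.yy (η t)) (fun t p hp ψ hψ j hj =>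
    Q282HM.yy_norm (η t) p hp.out.pos ψ j β (hη t p ψ hψ j hj).1 (hη t p ψ hψ j hj).2)
  have hset : {c ∈ box ω m L | ¬ ∀ t, ∀ X' : ℕ, 2 ≤ X' → X' ≤ X →
        ‖∑ p ∈ Nat.primesLE X', (Real.log p : ℂ) *
          (traceSum D ν n Δ c α (η t) p - predicted D ν (if 2 * g = D then s else 0) n Δ (η t) p)‖ ≤
          C * lam * Real.sqrt (k * X') * Real.log X'} =
      {c ∈ Q282NA.Box ω m L | ¬ ∀ t, ∀ X' : ℕ, 2 ≤ X' → X' ≤ X →
        ‖∑ p ∈ Nat.primesLE X', (Real.log p : ℂ) * (Q282HM.YY (fun _ => 1) D r ν n ∅ f Δ (Q282HM.yy (η t)) p c -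
          Q282HM.MM (fun _ => 1) D r ν n Δ (fun _ _ => if 2 * g = D then s else 0) (Q282HM.yy (η t)) p)‖ ≤
          C * (lam * (Real.sqrt (k * X') * Real.log X'))} := by
    ext c
    simp only [Set.mem_ofPred_eq]
    refine and_congr_right fun _ => not_congr (forall_congr' fun t => forall_congr' fun X' => forall_congr' fun _ => forall_congr' fun _ => ?_)
    have h1 : ∑ p ∈ Nat.primesLE X', (Real.log p : ℂ) *
          (traceSum D ν n Δ c α (η t) p - predicted D ν (if 2 * g = D then s else 0) n Δ (η t) p) =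
        ∑ p ∈ Nat.primesLE X', (Real.log p : ℂ) * (Q282HM.YY (fun _ => 1) D r ν n ∅ f Δ (Q282HM.yy (η t)) p c -
          Q282HM.MM (fun _ => 1) D r ν n Δ (fun _ _ => if 2 * g = D then s else 0) (Q282HM.yy (η t)) p) := by
      refine sum_congr rfl fun p hp => ?_
      have hprime := Nat.prime_of_mem_primesLE hp
      rw [traceSum_eq ν n hα (η t) c p hprime, predicted_eq D r ν _ n Δ (η t) p hprime]
    rw [h1, mul_assoc, mul_assoc]
  rw [hset]
  refine key.trans (le_of_eq ?_)
  have h2 : Set.ncard (Q282NA.Box ω m L) = Set.ncard (box ω m L) := rfl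
  rw [h2]
  ring

end Pool.Agent.Results.MP_3703a7_ag.AllSmallerMotivesAtOnce
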