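import Pool.Agent.Q57.OP.Fin

/-!
# Tate classes of one reduction, and algebraic cycles

Let `X` be a smooth projective variety over a number field `F`, `ℓ` a prime number and `D` a subgroup of
the Galois group of `F`, for example the decomposition group of a place `v`. We consider the classes in
the cohomology of the powers of `X` (over the algebraic closure) which are fixed, up to the twist, by a
subgroup of finite index of `D`. If `v` is a place of good reduction which does not divide `ℓ`, these
are the Tate classes of the reduction of `X^n` at `v`, by the smooth and proper base change theorem. We
prove unconditionally:

* the quotient of the dimension of the space of these classes on `X^n` and of the dimension of the space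
  of the motivated classes tends to an element `N ≥ 1` of `ℕ ∪ {∞}`, and for the rank of the group of the
  algebraic cycles modulo numerical equivalence on `X^n` instead it tends to `N M`, where `M ≥ 1` in
  `ℕ ∪ {∞}` does not depend on `ℓ` and `D`;
* if `N` is finite (in particular if the algebraic cycles on the powers of `X` do not have asymptotic
  proportion zero among the Tate classes of the reduction at one place `v`), then for all `n` ALL classes
  on `X^n` fixed by a subgroup of finite index of `D` are Tate classes (fixed by a subgroup of finite
  index of the Galois group of `F`), and they are linear combinations of Hodge classes; if moreover the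
  elements of `D` commute on `H(X)` (for example `v` is a place of good reduction which does not divide
  `ℓ`), then a subgroup of finite index of the Galois group of `F` acts on `H(X)` through a commutative
  group, and the Hodge structure `H(X)` is of CM type.

So if `X` is not of CM type, then the algebraic cycles of the powers of `X` have asymptotic proportion
zero among the Tate classes of the reductions of the powers of `X`, at every place of good reduction; and
for arbitrary `X` and `D`, either all classes fixed by a subgroup of finite index of `D` are Tate classes
and combinations of Hodge classes, or the algebraic cycles have asymptotic proportion zero among them.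

The theorem is proved for an arbitrary class of smooth projective varieties which is stable under
products, a Hodge theory `T` on it, and every Weil cohomology theory `W'` with a comparison isomorphism
and a Galois action (`ℓ`-adic cohomology), the coefficients of which can be embedded into `ℂ`.
-/

open CategoryTheory AlgebraicGeometry

universe u w

namespace Pool.Agent.Results.MP_3703a7_ag.OnePlace

open Pool.Agent.H914
open Pool.Agent.Y121.AHS (HodgeTheory IsHodge)
open Pool.Agent.Y133.Half (pw)
open Pool.Agent.Q50.MO (Motivated)
open Pool.Agent.Q55 (GaloisAction IsTate)
open Pool.Agent.Q57.DS
open Pool.Agent.Q57.TM
open Pool.Agent.Q57.OP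

variable {k : Type u} [Field k] {𝒱 : VarClass k} {ops : CycleOps 𝒱}

/-- **The index of the algebraic cycles among the classes fixed by a decomposition group.** `pw X n` is
the product of `n + 1` copies of `X`. -/
theorem result (T : HodgeTheory ops) (X : 𝒱.Obj) [Nontrivial (T.W.H X)] :
    ∃ M : ℕ∞, 1 ≤ M ∧
      Index (fun n => dimP (Motivated T.W) (pw X n)) (fun n => cycRk ops (pw X n)) M ∧
      ∀ (W' : WeilCohomology.{u, 0} ops) (C : Compare T.W W') (Γ : Type w) [Group Γ]
        (G : GaloisAction W' Γ) (D : Subgroup Γ), Nonempty (W'.K →+* ℂ) → ∃ N : ℕ∞, 1 ≤ N ∧
        Index (fun n => dimP (IsTateOn G D) (pw X n)) (fun n => dimP (Motivated T.W) (pw X n)) N ∧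
        Index (fun n => dimP (IsTateOn G D) (pw X n)) (fun n => cycRk ops (pw X n)) (N * M) ∧
        (N ≠ ⊤ →
          (∀ n j c, IsTateOn G D (pw X n) j c →
            IsTate G (pw X n) j c ∧ Img C (IsHodge T) (pw X n) j c) ∧
          (CommutativeOn (G.ρ X) D → VirtuallyCommutative (G.ρ X) ∧ IsCM T X)) :=
  one_place T X

end Pool.Agent.Results.MP_3703a7_ag.OnePlace
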