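import Pool.Agent.Q57.SS.PConv

/-!
# A positive proportion of the Tate classes implies semisimplicity

Let `X` be a smooth projective variety over `ℚ` (a variety over a number field can be replaced by
its Weil restriction) and let `ℓ` be a prime.

* The quotient of the dimension of the space of the Tate classes on `X ^ n` (classes in `ℓ`-adic
  cohomology which are fixed, up to the twist, by a subgroup of finite index of the Galois group)
  and of the dimension of the space of the motivated classes tends to an element `N` of `ℕ ∪ {∞}`.
* `N` is finite if for some `ε > 0` and infinitely many `n` at least `ε` times the dimension of the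
  space of the Tate classes on `X ^ n` is given by motivated classes, or by algebraic cycles modulo
  numerical equivalence; in the second case homological and numerical equivalence agree on all `X ^ n`.
* If `N` is finite, the representation of the Galois group on `H^i(X ^ n)` is semisimple for all `n`
  and `i`, and all Tate classes on all `X ^ n` are linear combinations of Hodge classes.

The theorem is proved for every Hodge theory `T` and every Weil cohomology theory `W'` with a comparison
isomorphism and with the action of a group such that the whole group acts on the cohomology of the
products of copies of `X`, and such that every stable line in such a cohomology space is spanned by a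
Tate class: for the group `Gal(ℚ)` and the coefficients `ℚ_ℓ` this is a theorem on Hodge-Tate
characters.
-/

open CategoryTheory AlgebraicGeometry Filter Topology

universe u w

namespace Pool.Agent.Results.MP_3703a7_ag.PositiveProportion

open Pool.Agent.H914
open Pool.Agent.Y121.AHS (HodgeTheory IsHodge)
open Pool.Agent.Y133.Half (pw)
open Pool.Agent.Q50.MO (Motivated)
open Pool.Agent.Q55 (GaloisAction IsTate)
open Pool.Agent.Q57.DS
open Pool.Agent.Q57.TM
open Pool.Agent.Q60.TD (SemisimpleAt)
open Pool.Agent.Q57.SS (OverBase TateLines EmbedsInC Positive HomNum)

variable {k : Type u} [Field k] {𝒱 : VarClass k} {ops : CycleOps 𝒱}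

/-- **A positive proportion of motivated or algebraic classes among the Tate classes on the powers
of `X` implies semisimplicity.** `pw X n` is the product of `n + 1` copies of `X`. -/
theorem result (T : HodgeTheory ops) (X : 𝒱.Obj) [Nontrivial (T.W.H X)]
    (W' : WeilCohomology.{u, 0} ops) (C : Compare T.W W') (Γ : Type w) [Group Γ]
    (G : GaloisAction W' Γ) (hne : EmbedsInC W'.K) (hX : OverBase G X) (hL : TateLines G X) :
    ∃ N : ℕ∞, 1 ≤ N ∧
      Index (fun n => dimP (IsTate G) (pw X n)) (fun n => dimP (Motivated T.W) (pw X n)) N ∧
      (Positive (fun n => dimP (Motivated T.W) (pw X n)) (fun n => dimP (IsTate G) (pw X n)) →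
        N ≠ ⊤) ∧
      (Positive (fun n => cycRk ops (pw X n)) (fun n => dimP (IsTate G) (pw X n)) →
        N ≠ ⊤ ∧ ∀ n, HomNum W' (pw X n)) ∧
      (N ≠ ⊤ → (∀ n i, SemisimpleAt G (pw X n) i) ∧
        ∀ n j c, IsTate G (pw X n) j c → Img C (IsHodge T) (pw X n) j c) :=
  Pool.Agent.Q57.SS.positive T X W' C Γ G hne hX hL

end Pool.Agent.Results.MP_3703a7_ag.PositiveProportion
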