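import Pool.Agent.Q43.GT.Tp2
import Pool.Agent.Q43.GT.Scl
import Pool.Agent.Q43.FS.Ld
import Pool.Agent.Q43.RP.Low4
import Pool.Agent.TH776.FL.Main

/-!
# The Tate conjecture for the products of an abelian variety with pure motives with small Hodge numbers

Let `A` be an abelian variety over a number field `F` and let `M_i`, `i` in any set `I`, be pure
motives over `F`, `M_i` of weight `-d_i` (for instance the homology `h_d(Z)` of a smooth projective
variety `Z`, or a direct summand of it; up to Tate twists these are all pure motives). Suppose that
every `M_i` is of one of the following kinds, for a fixed number `r₀ ≥ 3`.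

* (a) `M_i` has small Hodge numbers: `h^{p,q}(M_i) < r₀` for all `p ≠ q` (no condition on the Hodge
  number `h^{p,p}`, so no bound for the rank).
* (b) `M_i` is potentially abelian: a subgroup of finite index of the Galois group acts on its
  realization through an abelian group (motives of CM type, Artin motives, motives of Fermat
  hypersurfaces).
* (c) `M_i` is any motive whose Frobenius eigenvalues are separated from those of `A` at one place
  `v`: no power of a number `a ^ 2 / q`, `a` an eigenvalue of the Frobenius element on `h_1(A)`, is in
  the group generated by the numbers `β ^ 2 / q ^ (d_i)`, `β` an eigenvalue on `M_i`. This holds if an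
  automorphism of the complex numbers fixes the eigenvalues on `M_i` and acts as the complex conjugation
  on those on `h_1(A)` (`separated_of_auto`), for instance if the Galois closures of the fields which
  they generate have a totally real intersection.

Suppose that `A` has trivial Rosati involution, that all nonzero Tate forms on `h_1(A)` have rank at
least `2 r₀` (if `End(A) = ℤ`, these conditions say that `dim A ≥ r₀`: part (2); if `A` is simple with
real multiplication by a field of degree `e`, they say that `dim A ≥ r₀ e`), and that ONE Frobenius
element on `h_1(A)` at `v` has a characteristic polynomial `P` without multiple roots, with only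
trivial multiplicative relations of length four: if a product of four roots is `q ^ 2` up to a root of
unity, they form two pairs with product `q`. This holds for instance if the Frobenius torus of `A` at
`v` has large rank (part (3)): `P` is the product of the minimal polynomials of Weil numbers `π_i` in
CM fields `K_i` with `8 D_i < [K_i : ℚ]`, `D_i` the rank of the lattice of the multiplicative
relations between the eigenvalues (up to the trivial ones) restricted to the conjugates of `π_i`.

**Theorem.** The Tate classes in `H^r(A ^ n)` times the realization of a tensor product of the duals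
of any of the `M_i`, with arbitrary multiplicities, are zero if `r` is odd, and linear combinations of
products of `r / 2` divisor classes on `A ^ n` (theorem of Faltings) and of Tate classes of the tensor
product of the motives if `r` is even. So the Tate conjecture for the motives generated (with tensor
products, sums, summands, twists and duals) by `h(A)` and the `M_i` follows from the Tate conjecture for
the motives generated by the `M_i` alone: `Hom(N, N')` is a space of classes on `N^∨ ⊗ N'`.

For example: let `End(A) = ℤ`, `dim A = g ≥ 3`, with one Frobenius element as above. The theorem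
applies to all `M_i` with `h^{p,q} < g` for `p ≠ q`: all abelian varieties of dimension less than `g`,
all curves of genus less than `g`, all surfaces with `p_g < g` and `q < g`, motives of modular forms,
all Fermat varieties and CM motives, in any product. In particular the Tate conjecture for
`A ^ n × E_1 × ⋯ × E_m × X` follows from that for `E_1 × ⋯ × E_m × X`.

The bounds are sharp: `h_1(A)` itself has the Hodge numbers `h^{1,0} = h^{0,1} = dim A`, and for
`dim A = 2` the motive `∧² h_1(A)` contains a motive of rank five with `h^{2,0} = 1`, so that the
theorem is false for `r₀ = 2`.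

The proof. Let `F` be a multilinear form in vectors of `V = V_ℓ(A)` and of the realizations `W_i` which
is a Tate class. The pairs `(X, (Y_i))` of operators which kill `F` and commute with the commutants of
the Galois group are a Lie algebra. The logarithms of the Frobenius element (with arbitrary additive
functions instead of the logarithm) and the condition on four eigenvalues show that its projection to
`End V` contains, over an extension of the field, the product of the symplectic Lie algebras of the
eigenspaces of the commutant. By a theorem of Sen and the Hodge–Tate decomposition of Faltings, it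
is normalized by the Hodge–Tate operators. If a symplectic Lie algebra `sp(N)`, `dim N ≥ 2 r₀ ≥ 6`,
acted in a nontrivial way on a subquotient of `W_i`, the Hodge–Tate operator would have an eigenvalue
different from `d_i / 2` of multiplicity at least `r₀`: a Lie algebra of pairs with an irreducible
action contains operators of small rank (the eigenspaces of the Hodge–Tate operator for the adjoint
action would be too large for the multiplicities otherwise). So in case (a) the Lie algebra contains
`(X, (Y_i))` with `X` any element of `sp(N)` and `Y_i = 0`; in case (b) because `sp(N)` is perfect, in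
case (c) by a suitable logarithm. A Goursat argument gives this for all `i` at the same time. So `F` is
killed by the symplectic Lie algebras acting on the variables from `V` alone, and the first
fundamental theorem of invariant theory and the theorem of Faltings give the result.

In the Lean statement `V` is the rational Tate module of `A` with the action `ρ` of the Galois group `Γ`
and the Weil pairing `ω` of a polarization (`IsTateModule`; this contains the semisimplicity theorem of
Faltings), `W i` is the `ℓ`-adic realization of `M_i` with the action `σ i` of `Γ`, `χ` is the cyclotomic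
character, `γ` the Frobenius element, `D` and `B i` are the Hodge–Tate operators (`IsHodgeTateFamily`
contains what is used of the theorem of Sen), and `productRep σ t` is the dual of the tensor product
of the `W (t l)`.
-/

set_option autoImplicit false

namespace Pool.Agent.Results.MP_3703a7_ag.SmallHodgeNumbers

open NumberField Module TensorProduct Pool.Agent.H204R3.GP Pool.Agent.W516.FT
  Pool.Agent.TH776.FM Pool.Agent.TH776.FL Pool.Agent.Q43.TV Pool.Agent.Q43.GT

/-- **The Tate classes on the products of an abelian variety with motives with small Hodge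
numbers.** -/
theorem result :
    -- Tate classes on the products
    (∀ (ℓ q r₀ : ℕ) [Fact ℓ.Prime] [Algebra ℚ_[ℓ] ℂ] (V Γ I : Type) (W : I → Type)
      [AddCommGroup V] [Module ℚ_[ℓ] V] [FiniteDimensional ℚ_[ℓ] V] [∀ i, AddCommGroup (W i)]
      [∀ i, Module ℚ_[ℓ] (W i)] [∀ i, FiniteDimensional ℚ_[ℓ] (W i)] [Group Γ]
      (ρ : Representation ℚ_[ℓ] Γ V) (σ : ∀ i, Representation ℚ_[ℓ] Γ (W i)) (χ : Γ →* ℚ_[ℓ])
      (ω : V →ₗ[ℚ_[ℓ]] V →ₗ[ℚ_[ℓ]] ℚ_[ℓ]) (D : Module.End ℂ (ℂ ⊗[ℚ_[ℓ]] V))
      (B : ∀ i, Module.End ℂ (ℂ ⊗[ℚ_[ℓ]] W i)) (d : I → ℕ) (γ : Γ) (P : Polynomial ℚ),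
      IsTateModule ρ χ ω → RosatiTrivial ρ ω → IsHodgeTateFamily ρ σ χ ω D B →
      IsGoodFrobenius ρ χ γ P q → 3 ≤ r₀ → TateFormsHaveRankAtLeast ρ χ (2 * r₀) →
      (∀ i, IsSmallAbelianOrSeparated (σ i) (B i) γ P q (d i) r₀) →
      ∀ (n : ℕ) (t : Fin n → I), TateClassesInDegree ρ (productRep σ t) χ (∑ l, d (t l))) ∧
    -- abelian varieties without endomorphisms
    (∀ (ℓ : ℕ) [Fact ℓ.Prime] (V Γ : Type) [AddCommGroup V] [Module ℚ_[ℓ] V]
      [FiniteDimensional ℚ_[ℓ] V] [Group Γ] (ρ : Representation ℚ_[ℓ] Γ V) (χ : Γ →* ℚ_[ℓ])
      (ω : V →ₗ[ℚ_[ℓ]] V →ₗ[ℚ_[ℓ]] ℚ_[ℓ]), IsTateModule ρ χ ω →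
      (∀ T : Module.End ℚ_[ℓ] V, (∃ Δ : Subgroup Γ, Δ.FiniteIndex ∧ ∀ s ∈ Δ, ∀ v,
        T (ρ s v) = ρ s (T v)) → ∃ c : ℚ_[ℓ], ∀ v, T v = c • v) →
      RosatiTrivial ρ ω ∧ TateFormsHaveRankAtLeast ρ χ (finrank ℚ_[ℓ] V)) ∧
    -- the condition on the eigenvalues on the abelian variety
    (∀ (q : ℕ) (I : Type) [Fintype I] (K : I → Type) [∀ i, Field (K i)] [∀ i, NumberField (K i)]
      [∀ i, IsCMField (K i)] (π : ∀ i, K i), 0 < q →
      (∀ i, ∀ φ : K i →+* ℂ, ‖φ (π i)‖ ^ 2 = (q : ℝ)) →
      (∀ i, 8 * Pool.Agent.Q43.FS.defectAt K π i < finrank ℚ (K i)) →
      (∏ i, minpoly ℚ (π i)).Separable ∧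
        OnlyTrivialRelationsOfLengthFour (∏ i, minpoly ℚ (π i)) q) := by
  refine ⟨?_, ?_, ?_⟩
  · intro ℓ q r₀ _ _ V Γ I W _ _ _ _ _ _ _ ρ σ χ ω D B d γ P hA hR hHT hγ hr hrk hB n t
    have hss' : ∀ Δ : Subgroup Γ, Δ.FiniteIndex → SemiUnder (ρ '' (Δ : Set Γ)) := by
      intro Δ hΔ U hU
      obtain ⟨U', h1, h2⟩ := hA.semisimple Δ hΔ U (fun s hs u hu => hU _ ⟨s, hs, rfl⟩ u hu)
      refine ⟨U', ?_, h2⟩
      rintro _ ⟨s, hs, rfl⟩ u hu
      exact h1 s hs u hu
    exact tate_two ρ σ χ ω hA.alt hA.nondeg hA.similitude hss' γ hγ.value hγ.separable
      hγ.charpoly hγ.relations (fun m => symmetric_zero hA hR m) hHT hr hrk hB n t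
  · intro ℓ _ V Γ _ _ _ _ ρ χ ω hA hs
    exact rank_of_scalars ρ χ ω hA hs
  · intro q I _ K _ _ _ π hq hweil hD
    have hq' : (0 : ℚ) < (q : ℚ) := Nat.cast_pos.2 hq
    have hweil' : ∀ i, ∀ φ : K i →+* ℂ, ‖φ (π i)‖ ^ 2 = (((q : ℚ) : ℝ)) := by
      intro i φ
      rw [hweil]
      norm_cast
    have hsf := Pool.Agent.Q43.FS.shortFree_local K hq' π hweil' (k := 4) (fun i => by
      have h1 := hD i
      omega)
    exact ⟨Pool.Agent.Q43.RP.charpoly_separable K π hweil' (by norm_num) hsf,
      Pool.Agent.Q43.RP.four_of_free K hq π hweil le_rfl hsf⟩

end Pool.Agent.Results.MP_3703a7_ag.SmallHodgeNumbers
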