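import Mathlib

/-!
# Octahedrality does not pass from `X` to spaces of operators containing `X ⊗ Y`

`X = ℓ₁`, `Y = 𝕜³` with the norm `max (‖·‖₁, (5/4) ‖·‖_∞)`, `H = X ⊗ Y`.
-/

set_option autoImplicit false

open Filter Topology

namespace Pool.Agent.Results.MP_372fbd_an.OctahedralityFails

/-- octahedral normed spaces -/
def OH (𝕜 : Type) [RCLike 𝕜] (Z : Type) [NormedAddCommGroup Z] [NormedSpace 𝕜 Z] : Prop :=
  ∀ E : Submodule 𝕜 Z, FiniteDimensional 𝕜 E → ∀ ε : ℝ, 0 < ε →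
    ∃ y : Z, ‖y‖ = 1 ∧ ∀ x ∈ E, (1 - ε) * (‖x‖ + ‖y‖) ≤ ‖x + y‖

/-- the bounded linear operators from `D` to `Y`, with the operator norm -/
abbrev Op (𝕜 D Y : Type) [RCLike 𝕜] [NormedAddCommGroup D] [NormedSpace 𝕜 D]
    [NormedAddCommGroup Y] [NormedSpace 𝕜 Y] : Type := D →L[𝕜] Y

/-- the rank-one operator `x ⊗ y : x* ↦ x*(x) y` -/
noncomputable def rankOne {𝕜 X Y : Type} [RCLike 𝕜] [NormedAddCommGroup X] [NormedSpace 𝕜 X]
    [NormedAddCommGroup Y] [NormedSpace 𝕜 Y] (x : X) (y : Y) : Op 𝕜 (StrongDual 𝕜 X) Y :=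
  (ContinuousLinearMap.apply 𝕜 𝕜 x).smulRight y

/-- weak*-to-weak continuity of an operator `X* → Y` -/
def WSW {𝕜 X Y : Type} [RCLike 𝕜] [NormedAddCommGroup X] [NormedSpace 𝕜 X]
    [NormedAddCommGroup Y] [NormedSpace 𝕜 Y] (T : Op 𝕜 (StrongDual 𝕜 X) Y) : Prop :=
  Continuous fun f : WeakDual 𝕜 X => toWeakSpace 𝕜 Y (T (WeakDual.toStrongDual f))

section

variable {𝕜 : Type} [RCLike 𝕜]

variable (𝕜) in
/-- `ℓ₁` over `𝕜` -/
abbrev L1 : Type := lp (fun _ : ℕ => 𝕜) 1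

lemma summ (x : L1 𝕜) : Summable (fun n => ‖x n‖) := by
  have := (lp.hasSum_norm (p := 1) (by norm_num) x).summable
  simpa using this

lemma norm_eq (x : L1 𝕜) : ‖x‖ = ∑' n, ‖x n‖ := by
  have := lp.norm_eq_tsum_rpow (p := 1) (by norm_num) x
  simpa using this

/-! ### Hlawka -/

lemma hlawka_scalar (x y z : 𝕜) :
    ‖x + y‖ + ‖y + z‖ + ‖z + x‖ ≤ ‖x‖ + ‖y‖ + ‖z‖ + ‖x + y + z‖ := by
  have hid : ‖x + y‖ ^ 2 + ‖y + z‖ ^ 2 + ‖z + x‖ ^ 2 =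
      ‖x‖ ^ 2 + ‖y‖ ^ 2 + ‖z‖ ^ 2 + ‖x + y + z‖ ^ 2 := by
    simp only [RCLike.norm_sq_eq_def, map_add]
    ring
  have t1 := norm_add_le x y
  have t2 := norm_add_le y z
  have t3 := norm_add_le z x
  have s1 : ‖x + y‖ ≤ ‖z‖ + ‖x + y + z‖ := by
    have := norm_sub_le (x + y + z) z
    rw [add_sub_cancel_right] at this; linarith
  have s2 : ‖y + z‖ ≤ ‖x‖ + ‖x + y + z‖ := by
    have := norm_sub_le (x + y + z) x
    have e : x + y + z - x = y + z := by ring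
    rw [e] at this; linarith
  have s3 : ‖z + x‖ ≤ ‖y‖ + ‖x + y + z‖ := by
    have := norm_sub_le (x + y + z) y
    have e : x + y + z - y = z + x := by ring
    rw [e] at this; linarith
  have hs : 0 ≤ ‖x‖ + ‖y‖ + ‖z‖ + ‖x + y + z‖ := by positivity
  rcases hs.lt_or_eq with hs | hs
  · by_contra hcon
    push Not at hcon
    have h1 : 0 ≤ (‖x‖ + ‖y‖ - ‖x + y‖) * (‖z‖ + ‖x + y + z‖ - ‖x + y‖) :=
      mul_nonneg (by linarith) (by linarith)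
    have h2 : 0 ≤ (‖y‖ + ‖z‖ - ‖y + z‖) * (‖x‖ + ‖x + y + z‖ - ‖y + z‖) :=
      mul_nonneg (by linarith) (by linarith)
    have h3 : 0 ≤ (‖z‖ + ‖x‖ - ‖z + x‖) * (‖y‖ + ‖x + y + z‖ - ‖z + x‖) :=
      mul_nonneg (by linarith) (by linarith)
    have h4 : (‖x‖ + ‖y‖ + ‖z‖ + ‖x + y + z‖ - (‖x + y‖ + ‖y + z‖ + ‖z + x‖)) *
        (‖x‖ + ‖y‖ + ‖z‖ + ‖x + y + z‖) < 0 := mul_neg_of_neg_of_pos (by linarith) hs
    nlinarith
  · have a1 := norm_nonneg x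
    have a2 := norm_nonneg y
    have a3 := norm_nonneg z
    have a4 := norm_nonneg (x + y + z)
    linarith

lemma hlawka_l1 (a b c : L1 𝕜) :
    2 * (‖a‖ + ‖b‖ + ‖c‖) ≤ ‖a + b - c‖ + ‖a - b + c‖ + ‖-a + b + c‖ + ‖a + b + c‖ := by
  have hpt : ∀ n, 2 * (‖a n‖ + ‖b n‖ + ‖c n‖) ≤ ‖(a + b - c) n‖ + ‖(a - b + c) n‖ +
      ‖(-a + b + c) n‖ + ‖(a + b + c) n‖ := by
    intro n
    have h := hlawka_scalar (a n + b n - c n) (a n - b n + c n) (-a n + b n + c n)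
    have e1 : a n + b n - c n + (a n - b n + c n) = 2 * a n := by ring
    have e2 : a n - b n + c n + (-a n + b n + c n) = 2 * c n := by ring
    have e3 : -a n + b n + c n + (a n + b n - c n) = 2 * b n := by ring
    have e4 : a n + b n - c n + (a n - b n + c n) + (-a n + b n + c n) = a n + b n + c n := by ring
    rw [e1, e2, e3] at h
    have e5 : 2 * a n + (-a n + b n + c n) = a n + b n + c n := by ring
    rw [e5] at h
    have h2 : ∀ w : 𝕜, ‖2 * w‖ = 2 * ‖w‖ := by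
      intro w
      rw [norm_mul]; simp
    rw [h2, h2, h2] at h
    simp only [lp.coeFn_add, lp.coeFn_sub, lp.coeFn_neg, Pi.add_apply, Pi.sub_apply, Pi.neg_apply]
    linarith
  rw [norm_eq a, norm_eq b, norm_eq c, norm_eq (a + b - c), norm_eq (a - b + c),
    norm_eq (-a + b + c), norm_eq (a + b + c), ← (summ a).tsum_add (summ b),
    ← ((summ a).add (summ b)).tsum_add (summ c), ← tsum_mul_left,
    ← (summ (a + b - c)).tsum_add (summ (a - b + c)),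
    ← ((summ (a + b - c)).add (summ (a - b + c))).tsum_add (summ (-a + b + c)),
    ← (((summ (a + b - c)).add (summ (a - b + c))).add (summ (-a + b + c))).tsum_add
      (summ (a + b + c))]
  exact ((((summ a).add (summ b)).add (summ c)).mul_left 2).tsum_le_tsum hpt
    ((((summ (a + b - c)).add (summ (a - b + c))).add (summ (-a + b + c))).add (summ (a + b + c)))

/-! ### `ℓ₁` is octahedral -/

/-- unit vectors -/
noncomputable def e (n : ℕ) : L1 𝕜 := lp.single 1 n (1 : 𝕜)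

lemma e_self (n : ℕ) : (e n : L1 𝕜) n = 1 := by simp [e]

lemma e_ne {n m : ℕ} (h : m ≠ n) : (e n : L1 𝕜) m = 0 := by
  simp [e, h]

lemma norm_e (n : ℕ) : ‖(e n : L1 𝕜)‖ = 1 := by
  unfold e
  rw [lp.norm_single (by norm_num)]; simp

lemma norm_add_e (x : L1 𝕜) (n : ℕ) : ‖x‖ + 1 - 2 * ‖x n‖ ≤ ‖x + e n‖ := by
  set y : L1 𝕜 := x + e n with hy
  have h1 : ‖x‖ = ‖x n‖ + ∑' m, if m = n then 0 else ‖x m‖ := by
    rw [norm_eq]; exact (summ x).tsum_eq_add_tsum_ite n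
  have h2 : ‖y‖ = ‖y n‖ + ∑' m, if m = n then 0 else ‖y m‖ := by
    rw [norm_eq]; exact (summ y).tsum_eq_add_tsum_ite n
  have h3 : (∑' m, if m = n then 0 else ‖y m‖) = ∑' m, if m = n then 0 else ‖x m‖ := by
    congr 1; ext m
    split_ifs with h
    · rfl
    · simp [hy, e_ne h]
  have h4 : 1 - ‖x n‖ ≤ ‖y n‖ := by
    simp only [hy, lp.coeFn_add, Pi.add_apply, e_self]
    have := norm_sub_norm_le (1 : 𝕜) (-x n)
    rw [norm_neg, norm_one, sub_neg_eq_add, add_comm (1 : 𝕜)] at this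
    exact this
  rw [h2, h3]
  linarith

lemma tendsto_coord (x : L1 𝕜) : Tendsto (fun n => ‖x n‖) atTop (𝓝 0) :=
  (summ x).tendsto_atTop_zero

lemma coord_le (x : L1 𝕜) (n : ℕ) : ‖x n‖ ≤ ‖x‖ := by
  rw [norm_eq]
  exact (summ x).le_tsum n fun _ _ => norm_nonneg _

lemma OH_l1 : OH 𝕜 (L1 𝕜) := by
  intro E hE ε hε
  have : ProperSpace E := FiniteDimensional.proper_rclike 𝕜 E
  have hc : IsCompact (Metric.closedBall (0 : E) 1) := isCompact_closedBall 0 1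
  obtain ⟨t, _, ht, hcov⟩ := hc.finite_cover_balls (e := ε / 4) (by positivity)
  have hn : ∀ᶠ n in atTop, ∀ z ∈ t, ‖(z : L1 𝕜) n‖ < ε / 4 := by
    rw [(Set.Finite.eventually_all ht)]
    intro z _
    exact (tendsto_coord (z : L1 𝕜)).eventually (gt_mem_nhds (by positivity))
  obtain ⟨n, hn⟩ := hn.exists
  have key : ∀ x ∈ E, ‖x n‖ ≤ ε / 2 * ‖x‖ := by
    intro x hx
    rcases eq_or_ne x 0 with rfl | hx0
    · simp
    · have hpos : 0 < ‖x‖ := norm_pos_iff.mpr hx0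
      set c : 𝕜 := ((‖x‖⁻¹ : ℝ) : 𝕜) with hc
      have hcn : ‖c‖ = ‖x‖⁻¹ := by
        rw [hc, RCLike.norm_ofReal, abs_of_pos (by positivity)]
      have hy : (⟨c • x, E.smul_mem c hx⟩ : E) ∈ Metric.closedBall (0 : E) 1 := by
        rw [mem_closedBall_zero_iff]
        change ‖c • x‖ ≤ 1
        rw [norm_smul, hcn, inv_mul_cancel₀ hpos.ne']
      obtain ⟨z, hz, hyz⟩ := Set.mem_iUnion₂.mp (hcov hy)
      have h1 := hn z hz
      rw [mem_ball_iff_norm] at hyz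
      have hyz' : ‖c • x - (z : L1 𝕜)‖ < ε / 4 := hyz
      have h2 := coord_le (c • x - (z : L1 𝕜)) n
      have h3 : ‖(c • x : L1 𝕜) n‖ ≤ ‖(c • x - (z : L1 𝕜)) n‖ + ‖(z : L1 𝕜) n‖ := by
        have e1 : (c • x : L1 𝕜) n = (c • x - (z : L1 𝕜)) n + (z : L1 𝕜) n := by
          simp
        rw [e1]; exact norm_add_le _ _
      have h4 : ‖(c • x : L1 𝕜) n‖ = ‖x‖⁻¹ * ‖x n‖ := by
        simp [norm_mul, hcn]
      rw [h4] at h3
      have h5 : ‖x‖⁻¹ * ‖x n‖ ≤ ε / 2 := by linarith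
      rw [inv_mul_le_iff₀ hpos] at h5
      linarith
  refine ⟨e n, norm_e n, fun x hx => ?_⟩
  rw [norm_e]
  have h1 := norm_add_e x n
  have h2 := key x hx
  have h3 := norm_nonneg x
  nlinarith

/-! ### the three-dimensional space -/

variable (𝕜) in
/-- the underlying subspace of `ℓ₁³ ⊕_∞ ℓ_∞³` -/
def Ysub : Submodule 𝕜 (PiLp 1 (fun _ : Fin 3 => 𝕜) × (Fin 3 → 𝕜)) where
  carrier := {p | ∀ i, p.2 i = (5 / 4 : 𝕜) * p.1 i}
  add_mem' := by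
    intro p q hp hq i
    simp only [Set.mem_ofPred_eq] at hp hq
    simp [hp i, hq i, mul_add]
  zero_mem' := by intro i; simp
  smul_mem' := by
    intro c p hp i
    simp only [Set.mem_ofPred_eq] at hp
    simp [hp i]; ring

variable (𝕜) in
/-- `𝕜³` with the norm `max (‖·‖₁, (5/4) ‖·‖_∞)` -/
abbrev Y : Type := Ysub 𝕜

/-- coordinates -/
def mkY (a : Fin 3 → 𝕜) : Y 𝕜 := ⟨(WithLp.toLp 1 a, fun i => (5 / 4 : 𝕜) * a i), fun _ => rfl⟩

/-- linear version -/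
def mkYl : (Fin 3 → 𝕜) →ₗ[𝕜] Y 𝕜 where
  toFun := mkY
  map_add' a b := by
    apply Subtype.ext
    apply Prod.ext
    · rfl
    · funext i
      change (5 / 4 : 𝕜) * (a i + b i) = (5 / 4 : 𝕜) * a i + (5 / 4 : 𝕜) * b i
      ring
  map_smul' c a := by
    apply Subtype.ext
    apply Prod.ext
    · rfl
    · funext i
      change (5 / 4 : 𝕜) * (c * a i) = c * ((5 / 4 : 𝕜) * a i)
      ring

lemma mkY_surj (y : Y 𝕜) : ∃ a, y = mkY a := by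
  refine ⟨fun i => y.1.1 i, ?_⟩
  apply Subtype.ext
  apply Prod.ext
  · rfl
  · funext i
    exact y.2 i

lemma norm_mkY (a : Fin 3 → 𝕜) :
    ‖mkY a‖ = max (∑ i, ‖a i‖) ‖(fun i => (5 / 4 : 𝕜) * a i : Fin 3 → 𝕜)‖ := by
  change max ‖WithLp.toLp 1 a‖ ‖(fun i => (5 / 4 : 𝕜) * a i : Fin 3 → 𝕜)‖ = _
  congr 1
  rw [PiLp.norm_eq_of_L1]

lemma norm_54 : ‖(5 / 4 : 𝕜)‖ = 5 / 4 := by
  have : (5 / 4 : 𝕜) = ((5 / 4 : ℝ) : 𝕜) := by push_cast; rfl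
  rw [this, RCLike.norm_ofReal]; norm_num

lemma sum_le (a : Fin 3 → 𝕜) : ∑ i, ‖a i‖ ≤ ‖mkY a‖ := by
  rw [norm_mkY]; exact le_max_left _ _

lemma coord_le_Y (a : Fin 3 → 𝕜) (i : Fin 3) : 5 / 4 * ‖a i‖ ≤ ‖mkY a‖ := by
  rw [norm_mkY]
  refine le_trans ?_ (le_max_right _ _)
  have := norm_le_pi_norm (fun i => (5 / 4 : 𝕜) * a i : Fin 3 → 𝕜) i
  rwa [norm_mul, norm_54] at this

lemma norm_le_Y (a : Fin 3 → 𝕜) (C : ℝ) (h1 : ∑ i, ‖a i‖ ≤ C) (h2 : ∀ i, 5 / 4 * ‖a i‖ ≤ C) :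
    ‖mkY a‖ ≤ C := by
  rw [norm_mkY]
  apply max_le h1
  have hC : 0 ≤ C := le_trans (by positivity) h1
  rw [pi_norm_le_iff_of_nonneg hC]
  intro i
  rw [norm_mul, norm_54]; exact h2 i

/-- linear equivalence with the coordinates -/
noncomputable def mkYe : (Fin 3 → 𝕜) ≃ₗ[𝕜] Y 𝕜 :=
  LinearEquiv.ofBijective mkYl
    ⟨fun a b h => by
      have h1 : (mkYl a : Y 𝕜).1.1 = (mkYl b : Y 𝕜).1.1 := by rw [h]
      funext i
      exact congrArg (fun w : PiLp 1 (fun _ : Fin 3 => 𝕜) => w i) h1,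
    fun y => by
      obtain ⟨a, rfl⟩ := mkY_surj y
      exact ⟨a, rfl⟩⟩

lemma mkYe_apply (a : Fin 3 → 𝕜) : mkYe a = mkY a := rfl

end

/-! ### the operator space, abstractly -/

section

variable {𝕜 : Type} [RCLike 𝕜] {X Y : Type} [NormedAddCommGroup X] [NormedSpace 𝕜 X]
  [NormedAddCommGroup Y] [NormedSpace 𝕜 Y]

/-- the operator `∑ u_i ⊗ e_i` -/
noncomputable def Phi0 (mk : (Fin 3 → 𝕜) ≃ₗ[𝕜] Y) (u : Fin 3 → X) : Op 𝕜 (StrongDual 𝕜 X) Y :=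
  ∑ i, rankOne (u i) (mk (Pi.single i 1))

lemma Phi0_apply (mk : (Fin 3 → 𝕜) ≃ₗ[𝕜] Y) (u : Fin 3 → X) (f : StrongDual 𝕜 X) :
    Phi0 mk u f = mk (fun i => f (u i)) := by
  have h : mk (fun i => f (u i)) = mk.toLinearMap (fun i => f (u i)) := rfl
  rw [h, LinearMap.pi_apply_eq_sum_univ mk.toLinearMap]
  unfold Phi0 rankOne
  rw [sum_apply]
  congr 1; ext1 i
  rw [ContinuousLinearMap.smulRight_apply]
  have e : (fun j => if i = j then (1 : 𝕜) else 0) = Pi.single i 1 := by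
    ext j; simp [Pi.single_apply, eq_comm]
  rw [e]
  rfl

/-- the hypotheses on the norm of `Y` -/
structure NormY (mk : (Fin 3 → 𝕜) ≃ₗ[𝕜] Y) : Prop where
  sum_le : ∀ a, ∑ i, ‖a i‖ ≤ ‖mk a‖
  coord_le : ∀ a i, 5 / 4 * ‖a i‖ ≤ ‖mk a‖
  norm_le : ∀ (a : Fin 3 → 𝕜) (C : ℝ), ∑ i, ‖a i‖ ≤ C → (∀ i, 5 / 4 * ‖a i‖ ≤ C) → ‖mk a‖ ≤ C

lemma norm_Phi0_le {mk : (Fin 3 → 𝕜) ≃ₗ[𝕜] Y} (hY : NormY mk) (u : Fin 3 → X) :
    ‖Phi0 mk u‖ ≤ 3 * ‖u‖ := by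
  apply ContinuousLinearMap.opNorm_le_bound _ (by positivity)
  intro f
  rw [Phi0_apply]
  have h : ∀ i, ‖f (u i)‖ ≤ ‖f‖ * ‖u‖ := fun i =>
    le_trans (f.le_opNorm _) (mul_le_mul_of_nonneg_left (norm_le_pi_norm u i) (norm_nonneg _))
  have h0 : 0 ≤ ‖f‖ * ‖u‖ := by positivity
  apply hY.norm_le
  · rw [Fin.sum_univ_three]
    linarith [h 0, h 1, h 2]
  · intro i
    linarith [h i]

/-- linear version -/
noncomputable def Phil (mk : (Fin 3 → 𝕜) ≃ₗ[𝕜] Y) :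
    (Fin 3 → X) →ₗ[𝕜] Op 𝕜 (StrongDual 𝕜 X) Y where
  toFun := Phi0 mk
  map_add' := fun u v => by
    apply ContinuousLinearMap.ext
    intro f
    rw [add_apply, Phi0_apply, Phi0_apply, Phi0_apply, ← map_add]
    congr 1
    ext i
    simp
  map_smul' := fun c u => by
    apply ContinuousLinearMap.ext
    intro f
    rw [RingHom.id_apply, smul_apply, Phi0_apply, Phi0_apply, ← map_smul]
    congr 1
    ext i
    simp

/-- the map `u ↦ ∑ u_i ⊗ e_i` -/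
noncomputable def Phi {mk : (Fin 3 → 𝕜) ≃ₗ[𝕜] Y} (hY : NormY mk) :
    (Fin 3 → X) →L[𝕜] Op 𝕜 (StrongDual 𝕜 X) Y :=
  LinearMap.mkContinuous (Phil mk) 3 (norm_Phi0_le hY)

lemma Phi_apply {mk : (Fin 3 → 𝕜) ≃ₗ[𝕜] Y} (hY : NormY mk) (u : Fin 3 → X)
    (f : StrongDual 𝕜 X) : Phi hY u f = mk (fun i => f (u i)) := Phi0_apply mk u f

lemma norm_coord_le {mk : (Fin 3 → 𝕜) ≃ₗ[𝕜] Y} (hY : NormY mk) (u : Fin 3 → X) (i : Fin 3) :
    5 / 4 * ‖u i‖ ≤ ‖Phi hY u‖ := by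
  obtain ⟨g, hg1, hg2⟩ := exists_dual_vector'' 𝕜 (u i)
  have h1 := hY.coord_le (fun i => g (u i)) i
  rw [← Phi_apply hY] at h1
  simp only [hg2] at h1
  have h2 := (Phi hY u).le_opNorm g
  have h3 : ‖Phi hY u‖ * ‖g‖ ≤ ‖Phi hY u‖ * 1 := mul_le_mul_of_nonneg_left hg1 (norm_nonneg _)
  have h4 : ‖((‖u i‖ : ℝ) : 𝕜)‖ = ‖u i‖ := by rw [RCLike.norm_ofReal, abs_norm]
  rw [h4] at h1
  linarith

lemma norm_comb_le {mk : (Fin 3 → 𝕜) ≃ₗ[𝕜] Y} (hY : NormY mk) (u : Fin 3 → X) (c : Fin 3 → 𝕜)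
    (hc : ∀ i, ‖c i‖ ≤ 1) : ‖∑ i, c i • u i‖ ≤ ‖Phi hY u‖ := by
  obtain ⟨g, hg1, hg2⟩ := exists_dual_vector'' 𝕜 (∑ i, c i • u i)
  have h1 := hY.sum_le (fun i => g (u i))
  rw [← Phi_apply hY] at h1
  have h2 := (Phi hY u).le_opNorm g
  have h3 : ‖Phi hY u‖ * ‖g‖ ≤ ‖Phi hY u‖ * 1 := mul_le_mul_of_nonneg_left hg1 (norm_nonneg _)
  have h4 : ‖((‖∑ i, c i • u i‖ : ℝ) : 𝕜)‖ = ‖∑ i, c i • u i‖ := by
    rw [RCLike.norm_ofReal, abs_norm]
  rw [← h4, ← hg2, map_sum]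
  calc ‖∑ i, g (c i • u i)‖ ≤ ∑ i, ‖g (c i • u i)‖ := norm_sum_le _ _
    _ ≤ ∑ i, ‖g (u i)‖ := by
        apply Finset.sum_le_sum
        intro i _
        rw [map_smul, smul_eq_mul, norm_mul]
        calc ‖c i‖ * ‖g (u i)‖ ≤ 1 * ‖g (u i)‖ :=
              mul_le_mul_of_nonneg_right (hc i) (norm_nonneg _)
          _ = ‖g (u i)‖ := one_mul _
    _ ≤ ‖Phi hY u‖ := by linarith

/-- the operator space `X ⊗ Y` -/
noncomputable def H (X : Type) [NormedAddCommGroup X] [NormedSpace 𝕜 X]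
    {mk : (Fin 3 → 𝕜) ≃ₗ[𝕜] Y} (hY : NormY mk) :
    Submodule 𝕜 (Op 𝕜 (StrongDual 𝕜 X) Y) := LinearMap.range (Phi (X := X) hY).toLinearMap

lemma isClosed_H [CompleteSpace X] {mk : (Fin 3 → 𝕜) ≃ₗ[𝕜] Y} (hY : NormY mk) :
    IsClosed (H X hY : Set (Op 𝕜 (StrongDual 𝕜 X) Y)) := by
  have hanti : AntilipschitzWith 1 (Phi (X := X) hY) := by
    apply AddMonoidHomClass.antilipschitz_of_bound
    intro u
    rw [NNReal.coe_one, one_mul, pi_norm_le_iff_of_nonneg (norm_nonneg _)]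
    intro i
    have := norm_coord_le hY u i
    have h0 := norm_nonneg (u i)
    linarith
  exact hanti.isClosed_range (Phi (X := X) hY).uniformContinuous

lemma rankOne_mem {mk : (Fin 3 → 𝕜) ≃ₗ[𝕜] Y} (hY : NormY mk) (x : X) (y : Y) :
    rankOne x y ∈ H X hY := by
  obtain ⟨a, rfl⟩ := mk.surjective y
  refine ⟨fun i => a i • x, ?_⟩
  apply ContinuousLinearMap.ext
  intro f
  have h1 := Phi_apply hY (fun i => a i • x) f
  refine h1.trans ?_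
  change mk _ = f x • mk a
  rw [← map_smul]
  congr 1
  ext i
  simp [mul_comm]

lemma wsw_mem {mk : (Fin 3 → 𝕜) ≃ₗ[𝕜] Y} (hY : NormY mk) (T : Op 𝕜 (StrongDual 𝕜 X) Y)
    (hT : T ∈ H X hY) : WSW T := by
  obtain ⟨u, rfl⟩ := hT
  have h : ∀ f : StrongDual 𝕜 X, Phi hY u f = ∑ i, f (u i) • mk (Pi.single i 1) := by
    intro f
    change Phi0 mk u f = _
    unfold Phi0 rankOne
    rw [sum_apply]
    rfl
  unfold WSW
  have h2 : (fun f : WeakDual 𝕜 X => toWeakSpace 𝕜 Y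
      (Phi hY u (WeakDual.toStrongDual f))) =
      fun f : WeakDual 𝕜 X => ∑ i, f (u i) • toWeakSpace 𝕜 Y (mk (Pi.single i 1)) := by
    funext f
    rw [h (WeakDual.toStrongDual f), map_sum]
    congr 1
  change Continuous fun f : WeakDual 𝕜 X => toWeakSpace 𝕜 Y
      (Phi hY u (WeakDual.toStrongDual f))
  rw [h2]
  apply continuous_finsetSum
  intro i _
  exact (WeakDual.eval_continuous (u i)).smul continuous_const

/-- the three test operators -/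
noncomputable def tvec (e : X) (i : Fin 3) : Fin 3 → X := Pi.single i ((4 / 5 : 𝕜) • e)

lemma norm_45 : ‖(4 / 5 : 𝕜)‖ = 4 / 5 := by
  have : (4 / 5 : 𝕜) = ((4 / 5 : ℝ) : 𝕜) := by push_cast; rfl
  rw [this, RCLike.norm_ofReal]; norm_num

lemma norm_tvec {mk : (Fin 3 → 𝕜) ≃ₗ[𝕜] Y} (hY : NormY mk) (e : X) (he : ‖e‖ = 1) (i : Fin 3) :
    1 ≤ ‖Phi hY (tvec (𝕜 := 𝕜) e i)‖ := by
  have := norm_coord_le hY (tvec (𝕜 := 𝕜) e i) i
  have h2 : ‖tvec (𝕜 := 𝕜) e i i‖ = 4 / 5 := by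
    simp only [tvec, Pi.single_eq_same]
    rw [norm_smul, norm_45, he, mul_one]
  rw [h2] at this
  linarith

lemma norm_tvec_add_le {mk : (Fin 3 → 𝕜) ≃ₗ[𝕜] Y} (hY : NormY mk) (e : X) (he : ‖e‖ = 1)
    (i : Fin 3) (s : Fin 3 → X) (hs : ‖Phi hY s‖ = 1) :
    ‖Phi hY (tvec (𝕜 := 𝕜) e i) + Phi hY s‖ ≤ max (9 / 5) (1 + 5 / 4 * ‖s i‖) := by
  apply ContinuousLinearMap.opNorm_le_bound _ (by positivity)
  intro f
  have hf := norm_nonneg f
  rw [← map_add, Phi_apply]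
  have hS : ‖mk (fun j => f (s j))‖ ≤ ‖f‖ := by
    rw [← Phi_apply hY]
    have := (Phi hY s).le_opNorm f
    rwa [hs, one_mul] at this
  have hsum := hY.sum_le (fun j => f (s j))
  have hfe : ‖f e‖ ≤ ‖f‖ := by
    have := f.le_opNorm e
    rwa [he, mul_one] at this
  set t : Fin 3 → X := tvec (𝕜 := 𝕜) e i with htdef
  have ht : ∀ j, ‖f (t j)‖ ≤ if j = i then 4 / 5 * ‖f‖ else 0 := by
    intro j
    split_ifs with h
    · subst h
      simp only [htdef, tvec, Pi.single_eq_same, map_smul, smul_eq_mul, norm_mul, norm_45]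
      linarith
    · simp [htdef, tvec, h]
  have hle : ∀ j, ‖f ((t + s) j)‖ ≤ (if j = i then 4 / 5 * ‖f‖ else 0) + ‖f (s j)‖ := by
    intro j
    rw [Pi.add_apply, map_add]
    exact le_trans (norm_add_le _ _) (by linarith [ht j])
  apply hY.norm_le
  · calc ∑ j, ‖f ((t + s) j)‖ ≤ ∑ j, ((if j = i then 4 / 5 * ‖f‖ else 0) + ‖f (s j)‖) :=
          Finset.sum_le_sum fun j _ => hle j
      _ = 4 / 5 * ‖f‖ + ∑ j, ‖f (s j)‖ := by
          rw [Finset.sum_add_distrib]; simp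
      _ ≤ 9 / 5 * ‖f‖ := by linarith
      _ ≤ _ := mul_le_mul_of_nonneg_right (le_max_left _ _) hf
  · intro j
    by_cases h : j = i
    · subst h
      have h1 := hle j
      rw [if_pos rfl] at h1
      have h2 := f.le_opNorm (s j)
      calc 5 / 4 * ‖f ((t + s) j)‖ ≤ 5 / 4 * (4 / 5 * ‖f‖ + ‖f‖ * ‖s j‖) := by linarith
        _ = (1 + 5 / 4 * ‖s j‖) * ‖f‖ := by ring
        _ ≤ _ := mul_le_mul_of_nonneg_right (le_max_right _ _) hf
    · have h1 := hle j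
      rw [if_neg h, zero_add] at h1
      have h2 := hY.coord_le (fun j => f (s j)) j
      have h3 : (9 / 5 : ℝ) * ‖f‖ ≤ max (9 / 5) (1 + 5 / 4 * ‖s i‖) * ‖f‖ :=
        mul_le_mul_of_nonneg_right (le_max_left _ _) hf
      linarith

lemma not_OH_H {mk : (Fin 3 → 𝕜) ≃ₗ[𝕜] Y} (hY : NormY mk) (e : X) (he : ‖e‖ = 1)
    (hlaw : ∀ a b c : X,
      2 * (‖a‖ + ‖b‖ + ‖c‖) ≤ ‖a + b - c‖ + ‖a - b + c‖ + ‖-a + b + c‖ + ‖a + b + c‖) :
    ¬ OH 𝕜 (H X hY) := by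
  intro hOH
  have hmem : ∀ u : Fin 3 → X, Phi hY u ∈ H X hY := fun u => ⟨u, rfl⟩
  set T : Fin 3 → H X hY := fun i => ⟨Phi hY (tvec (𝕜 := 𝕜) e i), hmem _⟩ with hT
  obtain ⟨⟨S, hS⟩, hS1, hES⟩ := hOH (Submodule.span 𝕜 (Set.range T))
    (FiniteDimensional.span_of_finite 𝕜 (Set.finite_range T)) (1 / 100) (by norm_num)
  obtain ⟨s, rfl⟩ := hS
  have hs1 : ‖Phi hY s‖ = 1 := hS1
  have hlow : ∀ i, 784 / 1000 ≤ ‖s i‖ := by
    intro i
    have h1 := hES (T i) (Submodule.subset_span ⟨i, rfl⟩)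
    have h2 : ‖T i + ⟨(Phi hY).toLinearMap s, ⟨s, rfl⟩⟩‖ =
      ‖Phi hY (tvec (𝕜 := 𝕜) e i) + Phi hY s‖ := rfl
    have h3 : ‖T i‖ = ‖Phi hY (tvec (𝕜 := 𝕜) e i)‖ := rfl
    rw [h2, h3, hS1] at h1
    have h4 := norm_tvec hY e he i
    have h5 := norm_tvec_add_le hY e he i s hs1
    have h6 : (198 / 100 : ℝ) ≤ max (9 / 5) (1 + 5 / 4 * ‖s i‖) := by
      refine le_trans ?_ (le_trans h1 h5)
      linarith
    rcases le_max_iff.mp h6 with h | h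
    · norm_num at h
    · linarith
  have hcomb : ∀ c : Fin 3 → 𝕜, (∀ i, ‖c i‖ ≤ 1) → ‖∑ i, c i • s i‖ ≤ 1 := by
    intro c hc
    have := norm_comb_le hY s c hc
    rwa [hs1] at this
  have g1 := hcomb ![1, 1, -1] (by intro i; fin_cases i <;> simp)
  have g2 := hcomb ![1, -1, 1] (by intro i; fin_cases i <;> simp)
  have g3 := hcomb ![-1, 1, 1] (by intro i; fin_cases i <;> simp)
  have g4 := hcomb ![1, 1, 1] (by intro i; fin_cases i <;> simp)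
  rw [Fin.sum_univ_three] at g1 g2 g3 g4
  simp at g1 g2 g3 g4
  have hl := hlaw (s 0) (s 1) (s 2)
  have e1 : s 0 + s 1 - s 2 = s 0 + s 1 + -s 2 := by abel
  have e2 : s 0 - s 1 + s 2 = s 0 + -s 1 + s 2 := by abel
  rw [e1, e2] at hl
  linarith [hlow 0, hlow 1, hlow 2]

end

/-- `H` is a closed subspace of `L(X*, Y)` that contains `X ⊗ Y` and consists of weak*-to-weakly
continuous operators -/
structure Admissible {𝕜 : Type} [RCLike 𝕜] {X Y : Type} [NormedAddCommGroup X] [NormedSpace 𝕜 X]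
    [NormedAddCommGroup Y] [NormedSpace 𝕜 Y] (H : Submodule 𝕜 (Op 𝕜 (StrongDual 𝕜 X) Y)) :
    Prop where
  closed : IsClosed (H : Set (Op 𝕜 (StrongDual 𝕜 X) Y))
  rankOne_mem : ∀ (x : X) (y : Y), rankOne x y ∈ H
  wsw : ∀ T ∈ H, WSW T

/-- some admissible `H` is not octahedral -/
def SomeNotOH (𝕜 : Type) [RCLike 𝕜] (X Y : Type) [NormedAddCommGroup X] [NormedSpace 𝕜 X]
    [NormedAddCommGroup Y] [NormedSpace 𝕜 Y] : Prop :=
  ∃ H : Submodule 𝕜 (Op 𝕜 (StrongDual 𝕜 X) Y), Admissible H ∧ ¬ OH 𝕜 H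

/-- **Negative answer**, over `ℝ` and over `ℂ`: there are Banach spaces `X`, `Y` with `X`
octahedral and a closed subspace `H` of `L(X*, Y)` that contains `X ⊗ Y`, consists of
weak*-to-weakly continuous operators and is not octahedral. -/
theorem result (𝕜 : Type) [RCLike 𝕜] :
    ∃ (X Y : Type) (_ : NormedAddCommGroup X) (_ : NormedSpace 𝕜 X) (_ : CompleteSpace X)
      (_ : NormedAddCommGroup Y) (_ : NormedSpace 𝕜 Y) (_ : CompleteSpace Y),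
      OH 𝕜 X ∧ SomeNotOH 𝕜 X Y := by
  have : CompleteSpace (Y 𝕜) := FiniteDimensional.complete 𝕜 (Y 𝕜)
  have hY : NormY (mkYe (𝕜 := 𝕜)) := ⟨sum_le, coord_le_Y, norm_le_Y⟩
  exact ⟨L1 𝕜, Y 𝕜, inferInstance, inferInstance, inferInstance, inferInstance, inferInstance,
    inferInstance, OH_l1, H (L1 𝕜) hY, ⟨isClosed_H hY, rankOne_mem hY, wsw_mem hY⟩,
    not_OH_H hY (e 0) (norm_e 0) hlawka_l1⟩

end Pool.Agent.Results.MP_372fbd_an.OctahedralityFails
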