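import Pool.Agent.Q169.RC.Wt

/-!
# The flag complex inequality with Coxeter edge weights and coloured exceptional vertices

For flag homology spheres of dimension `2 m - 1` which satisfy a local colouring criterion, and for all systems of orders
`O σ` with the properties of the orders of finite Coxeter groups, the weighted quantity `(-1)^m ∑ (-1)^|σ| / O σ` is at
least the right-angled quantity `(-1)^m ∑ (-1/2)^|σ|`, which is nonnegative.  The joins which occur as full subcomplexes
in the links give explicit lower bounds.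
-/

set_option autoImplicit false

namespace Pool.Agent.Results.MP_375bfa_co.ColouredWeights

open Finset Pool.Agent.W907.SG Pool.Agent.W907.SM Pool.Agent.TH652.Above Pool.Agent.Q169.RC

/-- the flag complex of a graph: its simplices are the cliques -/
noncomputable def flagComplex {n : ℕ} (G : SimpleGraph (Fin n)) : Finset (Finset (Fin n)) := by
  classical exact univ.filter (fun T => G.IsClique (T : Set (Fin n)))

/-! ### homology spheres -/

/-- the chain `c`, with coefficients modulo `2`, is supported on the faces of `K` with `j`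
vertices -/
def SupportedOn {N : ℕ} (K : Finset (Finset (Fin N))) (j : ℕ) (c : Finset (Fin N) → ZMod 2) :
    Prop :=
  ∀ σ, c σ ≠ 0 → σ ∈ K ∧ σ.card = j

/-- the boundary of a chain (the augmentation is included: the empty face has dimension `-1`) -/
def boundary {N : ℕ} (c : Finset (Fin N) → ZMod 2) (ρ : Finset (Fin N)) : ZMod 2 :=
  ∑ v ∈ ρᶜ, c (insert v ρ)

/-- the reduced mod `2` homology of `K` vanishes in dimension `j - 1` -/
def AcyclicAt {N : ℕ} (K : Finset (Finset (Fin N))) (j : ℕ) : Prop :=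
  ∀ c : Finset (Fin N) → ZMod 2, SupportedOn K j c → (∀ ρ, boundary c ρ = 0) →
    ∃ b, SupportedOn K (j + 1) b ∧ ∀ ρ, c ρ = boundary b ρ

/-- the link of the face `σ` -/
def link {N : ℕ} (K : Finset (Finset (Fin N))) (σ : Finset (Fin N)) : Finset (Finset (Fin N)) :=
  univ.filter (fun τ => Disjoint τ σ ∧ τ ∪ σ ∈ K)

/-- mod `2` homology spheres of dimension `d - 1`: the complex `K` contains the empty face and is closed under
subsets, and the link of every face `σ` (also of the empty face) has the reduced mod `2` homology of a sphere of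
dimension `d - 1 - |σ|` -/
def IsHomologySphere {N : ℕ} (K : Finset (Finset (Fin N))) (d : ℕ) : Prop :=
  (∅ ∈ K ∧ ∀ σ ∈ K, ∀ τ : Finset (Fin N), τ ⊆ σ → τ ∈ K) ∧ (∀ σ ∈ K, σ.card ≤ d) ∧
    (∀ σ ∈ K, ∀ j, j + σ.card ≠ d → AcyclicAt (link K σ) j) ∧
    ∀ σ ∈ K, ∃ z : Finset (Fin N) → ZMod 2, z ≠ 0 ∧ SupportedOn (link K σ) (d - σ.card) z ∧
      (∀ ρ, boundary z ρ = 0) ∧
      ∀ z', SupportedOn (link K σ) (d - σ.card) z' → (∀ ρ, boundary z' ρ = 0) → z' = 0 ∨ z' = z

/-! ### the theorem -/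

theorem mem_flag {n : ℕ} (G : SimpleGraph (Fin n)) (T : Finset (Fin n)) :
    T ∈ flagComplex G ↔ G.IsClique (T : Set (Fin n)) := by
  classical
  unfold flagComplex
  simp

/-- `κ` is a colouring of the set `B` of vertices: adjacent vertices of `B` have different colours -/
def Colours {N k : ℕ} (G : SimpleGraph (Fin N)) (B : Set (Fin N)) (κ : Fin N → Fin k) : Prop :=
  ∀ u v, u ∈ B → v ∈ B → G.Adj u v → κ u ≠ κ v

/-- the full subcomplex on `A` is the join of the `k` complexes `A_j = {v ∈ A | p v = j}`, `j < k`, none of which is a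
simplex (for `k = 0` the set `A` is empty) -/
def IsJoin {N : ℕ} (G : SimpleGraph (Fin N)) (k : ℕ) (A : Set (Fin N)) (p : Fin N → ℕ) : Prop :=
  (∀ u ∈ A, p u < k) ∧ (∀ u ∈ A, ∀ v ∈ A, p u ≠ p v → G.Adj u v) ∧
  ∀ j < k, ∃ s ∈ A, ∃ t ∈ A, p s = j ∧ p t = j ∧ s ≠ t ∧ ¬ G.Adj s t

/-- the product of the numbers `-χ(A_j)`, `j < k`, `χ` the Euler characteristic of the right-angled Coxeter group of
`A_j = {v ∈ A | p v = j}`; `-χ = l / 2 - 1` for a complex `A_j` consisting of `l` points -/
noncomputable def prodChi {N : ℕ} (G : SimpleGraph (Fin N)) (k : ℕ) (A : Set (Fin N)) (p : Fin N → ℕ) : ℚ :=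
  ∏ j ∈ range k, (- chiS G (A ∩ {v | p v = j}))

/-- the lower bound for the link of a simplex `T` with `2 * m - 2 * k` vertices -/
theorem join_le {m N : ℕ} (G : SimpleGraph (Fin N)) (K : Finset (Finset (Fin N)))
    (hK : ∀ S : Finset (Fin N), S ∈ K ↔ G.IsClique (S : Set (Fin N)))
    (h2 : Pool.Agent.Y131.KS.HSph K (2 * m)) (hR : HSph (2 * m) G)
    (hg : ∀ T : Finset (Fin N), G.IsClique (T : Set (Fin N)) → Good (2 * m) G T)
    (T : Finset (Fin N)) (hT : G.IsClique (T : Set (Fin N))) (k : ℕ) (hk : 2 * m = T.card + 2 * k)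
    (A : Set (Fin N)) (hA : A ⊆ lk G T) (p : Fin N → ℕ) (hp : IsJoin G k A p) :
    prodChi G k A p ≤ (-1 : ℚ) ^ k * chiS G (lk G T) := by
  classical
  rcases Nat.eq_zero_or_pos k with rfl | hk0
  · have h1 : lk G T = ∅ := by
      rw [Set.eq_empty_iff_forall_notMem]
      intro v hv
      have h3 := h2.card_le _ ((hK _).2 (clique_insert hT hv))
      rw [card_insert_of_notMem (notMem_of_lk hv)] at h3
      omega
    have h4 : chiS G (∅ : Set (Fin N)) = 1 := by
      unfold chiS
      rw [Finset.sum_eq_single (∅ : Finset (Fin N))]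
      · simp
      · intro S _ hS
        rw [if_neg]
        rintro ⟨-, h5⟩
        exact hS (Finset.coe_eq_empty.1 (Set.subset_empty_iff.1 h5))
      · intro h
        exact absurd (mem_univ _) h
    rw [h1, h4]
    simp [prodChi]
  · have hval : ∀ u, p u < k → ((if h : p u < k then ⟨p u, h⟩ else ⟨0, hk0⟩ : Fin k) : ℕ) = p u := by
      intro u hu
      rw [dif_pos hu]
    have h3 := join_at G K hK h2 hR T hT hk (fun T' _ hc => hg T' hc) A hA
      (fun u => if h : p u < k then ⟨p u, h⟩ else ⟨0, hk0⟩)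
      (fun u hu v hv huv => hp.2.1 u hu v hv (fun h => huv (Fin.ext (by
        show ((if h : p u < k then ⟨p u, h⟩ else ⟨0, hk0⟩ : Fin k) : ℕ) =
          ((if h : p v < k then ⟨p v, h⟩ else ⟨0, hk0⟩ : Fin k) : ℕ)
        rw [hval u (hp.1 u hu), hval v (hp.1 v hv), h]))))
      (fun j => by
        obtain ⟨s, hs, t, ht, h4, h5, h6, h7⟩ := hp.2.2 j j.2
        refine ⟨s, hs, t, ht, Fin.ext ?_, Fin.ext ?_, h6, h7⟩
        · show ((if h : p s < k then ⟨p s, h⟩ else ⟨0, hk0⟩ : Fin k) : ℕ) = j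
          rw [hval s (hp.1 s hs), h4]
        · show ((if h : p t < k then ⟨p t, h⟩ else ⟨0, hk0⟩ : Fin k) : ℕ) = j
          rw [hval t (hp.1 t ht), h5])
    refine le_of_eq_of_le ?_ h3
    unfold prodChi
    rw [← Fin.prod_univ_eq_prod_range (fun j => - chiS G (A ∩ {v | p v = j})) k]
    refine prod_congr rfl fun j _ => ?_
    congr 2
    ext v
    simp only [Set.mem_inter_iff, Set.mem_setOf_eq]
    refine and_congr_right fun hv => ?_
    constructor
    · intro h
      refine Fin.ext ?_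
      rw [hval v (hp.1 v hv), h]
    · intro h
      rw [← h, hval v (hp.1 v hv)]

theorem sum_le {m N : ℕ} (G : SimpleGraph (Fin N)) (K : Finset (Finset (Fin N)))
    (hK : ∀ S : Finset (Fin N), S ∈ K ↔ G.IsClique (S : Set (Fin N)))
    (h2 : Pool.Agent.Y131.KS.HSph K (2 * m)) (hR : HSph (2 * m) G)
    (hg : ∀ T : Finset (Fin N), G.IsClique (T : Set (Fin N)) → Good (2 * m) G T)
    (O : Finset (Fin N) → ℚ) (hO : Y365.FS.GoodOrders K O)
    (C : Finset (Finset (Fin N))) (A : Finset (Fin N) → Set (Fin N)) (p : Finset (Fin N) → Fin N → ℕ)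
    (hC : ∀ T ∈ C, G.IsClique (T : Set (Fin N)) ∧ Even T.card ∧ A T ⊆ lk G T ∧
      IsJoin G (m - T.card / 2) (A T) (p T)) :
    ∑ T ∈ C, coefO O T * prodChi G (m - T.card / 2) (A T) (p T) ≤
      (-1 : ℚ) ^ m * ∑ σ ∈ K, (-1) ^ σ.card / O σ := by
  classical
  rw [weighted_even G K hK h2.card_le O hO]
  have hsub : C ⊆ K.filter (fun T => Even T.card) := by
    intro T hT
    exact mem_filter.2 ⟨(hK _).2 (hC T hT).1, (hC T hT).2.1⟩
  refine (sum_le_sum fun T hT => ?_).trans (sum_le_sum_of_subset_of_nonneg hsub fun T hT _ => ?_)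
  · obtain ⟨h3, h4, h5, h6⟩ := hC T hT
    refine mul_le_mul_of_nonneg_left ?_ (coefO_nonneg hO ((hK _).2 h3) h4)
    have hTm := h2.card_le _ ((hK _).2 h3)
    obtain ⟨j, hj⟩ := h4
    exact join_le G K hK h2 hR hg T h3 _ (by omega) (A T) h5 (p T) h6
  · obtain ⟨hT1, hT2⟩ := mem_filter.1 hT
    refine mul_nonneg (coefO_nonneg hO hT1 hT2) ?_
    exact sign_links G K hK h2 hR ∅ (fun _ => 0) (fun u _ hu => absurd hu (Set.notMem_empty u))
      (fun v _ T' _ hc => hg T' hc) T ((hK _).1 hT1) hT2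

/-- The conditions on the weights `w` of the edges and the orders `O` of the faces: (1) `O ∅ = 1`,
(2) `O {v} = 2`, (3) `O e = 2 w e` with `w e ≥ 2` for each edge `e`, (4) `O (A ∪ B) = O A * O B` if
`A ∪ B` is a face and all edges between `A` and `B` have weight `2`, (5) for each face `T` with at
least three vertices which is connected by edges of weight at least `3`, the sum of the
`(-1/2)^|T \ U| / O U`, `U ⊆ T`, is zero if `|T|` is odd and has the sign `(-1)^j`, or is zero, if
`|T| = 2 j`. -/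
structure Orders {β : Type} [DecidableEq β] (F : Finset (Finset β)) (w : Finset β → ℕ)
    (O : Finset β → ℚ) : Prop where
  two_le : ∀ e ∈ F, e.card = 2 → 2 ≤ w e
  empty : O ∅ = 1
  vertex : ∀ v, {v} ∈ F → O {v} = 2
  edge : ∀ e ∈ F, e.card = 2 → O e = 2 * w e
  mul : ∀ A B : Finset β, Disjoint A B → A ∪ B ∈ F → (∀ a ∈ A, ∀ b ∈ B, w {a, b} = 2) →
    O (A ∪ B) = O A * O B
  sign : ∀ T ∈ F, 3 ≤ T.card →
    (∀ A ⊆ T, A.Nonempty → A ≠ T → ∃ a ∈ A, ∃ b ∈ T, b ∉ A ∧ w {a, b} ≠ 2) →
    (Odd T.card → ∑ U ∈ T.powerset, (-1 / 2) ^ (T.card - U.card) / O U = 0) ∧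
    ∀ j, T.card = 2 * j → 0 ≤ (-1) ^ j * ∑ U ∈ T.powerset, (-1 / 2) ^ (T.card - U.card) / O U

/-- the coefficient of the link of `T` -/
def coef {β : Type} [DecidableEq β] (O : Finset β → ℚ) (T : Finset β) : ℚ :=
  (-1) ^ (T.card / 2) * ∑ U ∈ T.powerset, (-1 / 2) ^ (T.card - U.card) / O U

theorem Orders.good {β : Type} [DecidableEq β] {F : Finset (Finset β)}
    (hF : ∀ T ∈ F, ∀ U ⊆ T, U ∈ F) {w : Finset β → ℕ} {O : Finset β → ℚ} (h : Orders F w O) :
    Y365.FS.GoodOrders F O :=
  Y365.FS.goodOrders_of hF w h.two_le O h.empty h.vertex h.edge h.mul h.sign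

theorem coef_edge {β : Type} [DecidableEq β] {F : Finset (Finset β)}
    (hF : ∀ T ∈ F, ∀ U ⊆ T, U ∈ F) {w : Finset β → ℕ} {O : Finset β → ℚ} (h : Orders F w O)
    {e : Finset β} (he : e ∈ F) (h2 : e.card = 2) : coef O e = ((w e : ℚ) - 2) / (4 * w e) := by
  obtain ⟨a, b, hab, rfl⟩ := Finset.card_eq_two.1 h2
  have h3 : ({b} : Finset β).powerset = {∅, {b}} := by
    ext A
    simp [Finset.subset_singleton_iff]
  have h4 := h.edge _ he h2
  have h5 := h.vertex a (hF _ he _ (by simp))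
  have h6 := h.vertex b (hF _ he _ (by simp))
  have h7 := h.two_le _ he h2
  have h8 : (0 : ℚ) < w {a, b} := by exact_mod_cast (by omega : 0 < w {a, b})
  have h9 : a ∉ ({b} : Finset β) := by
    rw [Finset.mem_singleton]
    exact hab
  unfold coef
  rw [h2, Finset.sum_powerset_insert h9, h3, Finset.sum_pair (Finset.singleton_ne_empty b).symm,
    Finset.sum_pair (Finset.singleton_ne_empty b).symm, h2, h4, h.empty, h6]
  simp only [Finset.card_empty, Finset.card_singleton, insert_empty_eq, h5]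
  field_simp
  ring

/-- Let the flag complex of `G` be a homology sphere of dimension `2 m - 1` over the reals (`HSph (2 m) G`) and modulo
`2`, with weights `w` of the edges and orders `O`.
(1) If there is a set `B` of vertices, coloured with `m + 1` colours, such that all simplices with a vertex outside `B`
are good, then `0 ≤ (-1)^m ∑ (-1/2)^|σ| ≤ (-1)^m ∑ (-1)^|σ| / O σ`.
(2) If all simplices are good, and `C` is a set of simplices `T` with an even number of vertices such that a full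
subcomplex of the link of `T` is the join of `m - |T| / 2` complexes `A_(T,j)` which are not simplices (the empty
complex, if `|T| = 2 m`), then
`(-1)^m ∑ (-1)^|σ| / O σ` is at least the sum of the numbers `coef O T * ∏_j (-χ(A_(T,j)))`, `T ∈ C`.
(3) The coefficients are nonnegative; `coef O ∅ = 1`, and `coef O e = (w e - 2) / (4 w e)` for each edge `e`. -/
theorem result (m N : ℕ) (G : SimpleGraph (Fin N)) (hR : HSph (2 * m) G)
    (h2 : IsHomologySphere (flagComplex G) (2 * m)) (w : Finset (Fin N) → ℕ) (O : Finset (Fin N) → ℚ)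
    (hO : Orders (flagComplex G) w O) :
    (∀ (B : Set (Fin N)) (κ : Fin N → Fin (m + 1)), Colours G B κ →
      (∀ v, v ∉ B → ∀ T : Finset (Fin N), v ∈ T → G.IsClique (T : Set (Fin N)) → Good (2 * m) G T) →
      0 ≤ (-1) ^ m * ∑ σ ∈ flagComplex G, (-1 / 2 : ℚ) ^ σ.card ∧
      (-1) ^ m * ∑ σ ∈ flagComplex G, (-1 / 2 : ℚ) ^ σ.card ≤
        (-1) ^ m * ∑ σ ∈ flagComplex G, (-1) ^ σ.card / O σ) ∧
    ((∀ T : Finset (Fin N), G.IsClique (T : Set (Fin N)) → Good (2 * m) G T) →
      ∀ (C : Finset (Finset (Fin N))) (A : Finset (Fin N) → Set (Fin N))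
        (p : Finset (Fin N) → Fin N → ℕ),
      (∀ T ∈ C, T ∈ flagComplex G ∧ Even T.card ∧ A T ⊆ {v | ∀ t ∈ T, G.Adj v t} ∧
        IsJoin G (m - T.card / 2) (A T) (p T)) →
      ∑ T ∈ C, coef O T * prodChi G (m - T.card / 2) (A T) (p T) ≤
        (-1) ^ m * ∑ σ ∈ flagComplex G, (-1) ^ σ.card / O σ) ∧
    (∀ T ∈ flagComplex G, Even T.card → 0 ≤ coef O T) ∧ coef O ∅ = 1 ∧
    ∀ e ∈ flagComplex G, e.card = 2 → coef O e = ((w e : ℚ) - 2) / (4 * w e) := by
  classical
  have hH : Pool.Agent.Y131.KS.HSph (flagComplex G) (2 * m) := ⟨h2.1, h2.2.1, h2.2.2.1, h2.2.2.2⟩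
  have hF : ∀ T ∈ flagComplex G, ∀ U ⊆ T, U ∈ flagComplex G := fun T hT U hU => h2.1.2 T hT U hU
  have hN := hO.good hF
  have h5 : chiW G = ∑ T ∈ flagComplex G, (-1 / 2 : ℚ) ^ T.card := by
    rw [count_eq G (flagComplex G) (mem_flag G)]
    unfold chiW
    refine sum_congr rfl fun T _ => ?_
    congr
  refine ⟨?_, ?_, fun T hT he => coefO_nonneg hN hT he, ?_, fun e he h => coef_edge hF hO he h⟩
  · intro B κ hκ hB
    rw [← h5]
    exact weighted_ge G (flagComplex G) (mem_flag G) hH hR B κ hκ hB O hN hO.empty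
  · intro hg C A p hC
    refine sum_le G (flagComplex G) (mem_flag G) hH hR hg O hN C A p ?_
    intro T hT
    obtain ⟨h6, h7, h8, h9⟩ := hC T hT
    exact ⟨(mem_flag G T).1 h6, h7, fun v hv t ht => h8 hv t ht, h9⟩
  · simp [coef, hO.empty]

end Pool.Agent.Results.MP_375bfa_co.ColouredWeights
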