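import Pool.Agent.Q187.MC.ConvD

/-!
# Murre's conjectures for motives of abelian type and algebraically trivial cycles

Murre's conjectures (A) - (D) for all the motives of abelian type over the complex numbers are
equivalent to the injectivity of the Abel-Jacobi maps on the algebraically trivial classes of
codimension `j` in the motives `h^1(T)^{⊗(2 j - 1)}`, for all curves `T` and all `j ≥ 2`.
-/

open CategoryTheory AlgebraicGeometry

universe u v w

namespace Pool.Agent.Results.MP_38de51_ag.AbelianType

open Pool.Agent.H914 Pool.Agent.H914.VarClass Pool.Agent.H914.VarClass.Obj Pool.Agent.W492.BB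
  Pool.Agent.TH133 Pool.Agent.Q187.AJS Pool.Agent.Q187.BCS Pool.Agent.Q187.MCS

/-- **Murre's conjectures for motives of abelian type.** Let `C` be the Chow theory and `H` a Weil
cohomology theory on a class of smooth projective varieties closed under products. Assume the
theorem of Bloch and Srinivas on families of cycles over curves (`FibreProperty`; it holds over
universal domains) and that any two curves are dominated by a third one.

1. The following are equivalent: (A), (B), (C) and (D) hold for all the motives `(X, p)` such that a
  Tate twist of `h(X)` is a direct summand of the motive of a product of curves; (D) holds for all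
  products of curves and all their Chow-Kunneth decompositions; for all curves `T` and all `j ≥ 1`
  homologically trivial classes in `CH^j(h^1(T)^{⊗ 2 j})` are zero.
2. Let `N` be the family of the kernels of the Abel-Jacobi maps (for complex varieties) and assume
  that algebraically trivial classes in the kernel are given by families over curves acting as zero
  on `H^1` (`SpreadProperty`: Poincare's reducibility theorem). Then these conditions are equivalent
  to: for all curves `T` and all `j ≥ 2` the Abel-Jacobi map is injective on the algebraically
  trivial classes in `CH^j(h^1(T)^{⊗(2 j - 1)})`.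
3. If this is known for `2 ≤ j ≤ d` only, then (A), (B), (C) and (D) hold for all motives `(X, p)`
  such that a Tate twist of `h(X)` is a direct summand of the motive of a product of at most `d`
  curves. -/
theorem result {k : Type u} [Field k] {𝒱 : VarClass k} {C : TheoryData.{u, v, 0} 𝒱 ℚ}
    [IsChowProj C] {K : Type w} [Field K] {H : WeilTheoryData.{u, v, w} C K} [IsWeilProj H]
    (hF : FibreProperty C) (hc : CommonCovers C) :
    List.TFAE [
      ∀ (X Z : 𝒱.Obj) (c : ℕ) (p : C.A (X.prod X)), IsProductOfCurves Z →
        IsSummand C c X Z → IsMotive C p → MurreConjectures C H p,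
      ∀ Z : 𝒱.Obj, IsProductOfCurves Z → ∀ π, IsChowKunneth C H Z π → SatisfiesD C H π,
      ∀ j : ℕ, 1 ≤ j → VanishingInTheMiddle C H j] ∧
    ∀ N : Fam C, IsAbelJacobiKernel C H N →
      (SpreadProperty C H N → ((∀ j : ℕ, 1 ≤ j → VanishingInTheMiddle C H j) ↔
        ∀ j : ℕ, 2 ≤ j → InjectiveAbelJacobi C H N j)) ∧
      ∀ d : ℕ, (∀ j : ℕ, 2 ≤ j → j ≤ d → InjectiveAbelJacobi C H N j) →
        ∀ (X Z : 𝒱.Obj) (c : ℕ) (p : C.A (X.prod X)), IsProductOfCurves Z → Z.dim ≤ d →
          IsSummand C c X Z → IsMotive C p → MurreConjectures C H p :=
  main_m' hF hc

end Pool.Agent.Results.MP_38de51_ag.AbelianType
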