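import Pool.Agent.Q28.MM.Main

/-!
# Murre's conjectures for all motives from (D) for one decomposition per variety

`𝒱` is a class of smooth projective geometrically irreducible varieties over the field `k` closed
under products (for example all of them), `C` the Chow groups with rational coefficients (in the
form of their formal properties, `IsChowProj`) and `H` a Weil cohomology theory (`IsWeilProj`).
Motives are pairs `(X, p)` with a projector `p`; Tate twists only shift all indices. Everything is
written cohomologically: `CH_l(M)` is `CH^(d-l)`, and `H_i(M)` is `H^(2d-i)`, `d = dim X`.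

(1) Let `F` be a family of varieties such that the motive of every variety `X` in `𝒱` is, up to a
twist, a direct summand of the motive of some `Z` in `F`. Then Murre's conjectures (A), (B), (C), (D)
hold for all motives `(X, p)` if and only if every `Z` in `F` has one Chow-Kunneth decomposition `π`
such that, in the one group `CH^(dim Z)(Z × Z)`, the homologically trivial classes lie in `F^1` for
the decomposition `π^t × π` of `Z × Z`.
(2) Locally: if `Z` has such a decomposition and a twist of `h(X)` is a direct summand of `h(Z)`, then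
(A), (B), (C), (D) hold for all direct summands `(X, p)` of `h(X)`, and there are no phantoms.
(3) Without any hypothesis: the complementary motives `(X, p)` and `(X, 1 - p)` both have
Chow-Kunneth decompositions if and only if `X` has one, `π`, with `π_b ∘ p ∘ π_a = 0` for `a < b`;
and then `(X, p)` has one whose filtration is the intersection of `CH(X, p)` with the filtration
given by `π`.
-/

open CategoryTheory AlgebraicGeometry

set_option autoImplicit false

universe u v w

namespace Pool.Agent.Results.MP_38de51_ag.OneDPerVariety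

open Pool.Agent.H914 Pool.Agent.W492.BB Pool.Agent.TH133 Pool.Agent.Q28.MM Pool.Agent.W550.Corr

/-- Murre's conjectures for Chow motives. -/
theorem result {k : Type u} [Field k] {𝒱 : VarClass k} (C : TheoryData.{u, v, 0} 𝒱 ℚ)
    [IsChowProj C] {K : Type w} [Field K] (H : WeilTheoryData.{u, v, w} C K) [IsWeilProj H] :
    (∀ F : 𝒱.Obj → Prop, (∀ X, ∃ Z c, F Z ∧ Summand C c X Z) →
      ((∀ (X : 𝒱.Obj) (p : C.A (X.prod X)), IsProjector p → Murre H p) ↔
        ∀ Z, F Z → ∃ π, IsCK H Z π ∧ SatisfiesDAt H (squareCK π) Z.dim)) ∧
    (∀ (Z X : 𝒱.Obj) (c : ℕ), Summand C c X Z →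
      (∃ π, IsCK H Z π ∧ SatisfiesDAt H (squareCK π) Z.dim) →
      NoPhantoms H X ∧ ∀ p : C.A (X.prod X), IsProjector p → Murre H p) ∧
    (∀ (X : 𝒱.Obj) (p : C.A (X.prod X)), IsProjector p →
      (((∃ ρ, IsMotiveCK H p ρ) ∧ ∃ ρ, IsMotiveCK H (dg C X - p) ρ) ↔
        ∃ π, IsCK H X π ∧ ∀ a b : ℕ, a < b → C.comp (C.comp (π a) p) (π b) = 0) ∧
      ∀ π, IsCK H X π → (∀ a b : ℕ, a < b → C.comp (C.comp (π a) p) (π b) = 0) →
        ∃ ρ, IsMotiveCK H p ρ ∧ ∀ (j ν : ℕ) (x : C.A X),
          x ∈ ckFil C ρ j ν ↔ x ∈ ckFil C π j ν ∧ C.act p x = x) :=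
  main C H

end Pool.Agent.Results.MP_38de51_ag.OneDPerVariety
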