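import Mathlib
import Pool.Agent.Q263.SV.Alm

/-!
# Almost primes `n ^ 2 + a` at integers `n` with restricted digits, uniformly in `a`

Fix a base `b ≥ 2`. For `k ≥ 1` choose for every position `i < k` a set `D i` of at least two
digits, in any way (the sets may depend on the position and on `k`), and let `S` be the set of
the integers `0 ≤ n < b ^ k` whose `i`-th digit is in `D i` for every `i`. So `S` may have only
`2 ^ k` elements, a small power of `b ^ k`.

1. For every `A` there are `M, R, L` and `c > 0` such that for all large `k`, all choices of the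
sets of digits and all integers `a` with `|a| ≤ b ^ (A k)`, at least `c |S| / k ^ 2` of the
integers `n ∈ S` are such that `|n ^ 2 + a| = s m`, where `1 ≤ s ≤ k ^ M` (a power of `log n`)
and `m` has at most `R` prime factors, counted with multiplicity, all of them larger than
`b ^ ⌊k / L⌋`. The order `|S| / k ^ 2` cannot be improved for all `a` (it is the order for
`a = - m ^ 2`), and it is at most a factor `k` away from the order for a given `a`.

2. The fundamental lemma of the sieve holds for all these sets `S`: for every `κ` and `ε > 0` there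
are `K₀, L` such that for all `K ≥ K₀`, all `k`, `D`, all `z` with `z ^ L ≤ b ^ k` and all choices
of sets `Ω p` of at most `κ` residue classes modulo `p` for the primes `K < p ≤ z`, the number of
the `n ∈ S` which avoid all these residue classes is
`|S| ∏_{K < p ≤ z} (1 - |Ω p| / p) (1 + θ)`, `|θ| ≤ ε`. For example this gives the number of the
`n ∈ S` such that `n ^ 2 + a` has no prime factor in `(K, z]`, uniformly in all integers `a`.

Idea of the proof: the exponential sum of `S` at `x / d` is at most a product of factors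
depending on the distance of `b ^ i x / d` to the fractions with denominators `< b`. For a
fraction in lowest terms with denominator `d > 1` coprime to `b!` all blocks of `log d` factors
contain one which is small; with the mean value over all well spaced points for a block of
length `2 log_b Y` and Hölder's inequality this gives, on average over squarefree `d ≤ Y = b ^ (δ k)`,
a saving `exp (- c √k)`, which suffices for the beta sieve.
-/

set_option autoImplicit false

namespace Pool.Agent.Results.MP_391708_nt.RestrictedDigits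

/-- The integers `0 ≤ n < b ^ k` whose `i`-th digit in base `b` belongs to `D i`, for all `i < k`. -/
def Restricted (b k : ℕ) (D : Fin k → Finset ℕ) : Finset ℕ :=
  (Finset.range (b ^ k)).filter (fun n => ∀ i : Fin k, n / b ^ (i : ℕ) % b ∈ D i)

/-- Each `D i` is a set of at least two digits. -/
def DigitSets (b k : ℕ) (D : Fin k → Finset ℕ) : Prop :=
  ∀ i, (∀ d ∈ D i, d < b) ∧ 2 ≤ (D i).card

/-- The primes `K < p ≤ z`. -/
def Primes (K z : ℕ) : Finset ℕ := (Finset.Icc (K + 1) z).filter Nat.Prime

open Classical in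
theorem result :
    (∀ b : ℕ, 2 ≤ b → ∀ A : ℕ, ∃ (M R L k₀ : ℕ) (c : ℝ), 1 ≤ L ∧ 0 < c ∧
      ∀ k : ℕ, k₀ ≤ k → ∀ D : Fin k → Finset ℕ, DigitSets b k D →
      ∀ a : ℤ, |a| ≤ (b : ℤ) ^ (A * k) →
        c * (Restricted b k D).card / (k : ℝ) ^ 2 ≤
          (((Restricted b k D).filter (fun n : ℕ =>
            ∃ s m : ℕ, 1 ≤ s ∧ 1 ≤ m ∧ |(n : ℤ) ^ 2 + a| = s * m ∧ s ≤ k ^ M ∧
              m.primeFactorsList.length ≤ R ∧
              ∀ p, p.Prime → p ∣ m → b ^ (k / L) < p)).card : ℝ)) ∧
    (∀ b : ℕ, 2 ≤ b → ∀ (κ : ℕ) (ε : ℝ), 0 < ε → ∃ K₀ L : ℕ, 1 ≤ L ∧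
      ∀ K : ℕ, K₀ ≤ K → ∀ (k : ℕ) (D : Fin k → Finset ℕ), DigitSets b k D →
      ∀ z : ℕ, z ^ L ≤ b ^ k → ∀ Ω : ℕ → Finset ℕ,
        (∀ p, p.Prime → K < p → p ≤ z → (∀ r ∈ Ω p, r < p) ∧ (Ω p).card ≤ κ) →
        |(((Restricted b k D).filter (fun n => ∀ p ∈ Primes K z, n % p ∉ Ω p)).card : ℝ) -
          (Restricted b k D).card * ∏ p ∈ Primes K z, (1 - ((Ω p).card : ℝ) / p)| ≤
        ε * ((Restricted b k D).card * ∏ p ∈ Primes K z, (1 - ((Ω p).card : ℝ) / p))) := by
  refine ⟨fun b hb A => ?_, fun b hb κ ε hε => ?_⟩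
  · obtain ⟨M, R, L, k₀, c, h1, h2, h3⟩ := Pool.Agent.Q263.SV.almost hb A
    refine ⟨M, R, L, k₀, c, h1, h2, fun k hk D hD a ha => ?_⟩
    have ha' : a.natAbs ≤ b ^ (A * k) := by
      have h4 : (a.natAbs : ℤ) ≤ (b : ℤ) ^ (A * k) := by rwa [Int.natCast_natAbs]
      exact_mod_cast h4
    have h5 := h3 k hk D (fun i => (hD i).1) (fun i => (hD i).2) a ha'
    refine h5.trans ?_
    apply Nat.cast_le.2
    apply Finset.card_le_card
    intro n hn
    rw [Finset.mem_filter] at hn ⊢
    obtain ⟨hn1, s, m, g1, g2, g3, g4⟩ := hn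
    refine ⟨hn1, s, m, g1, g2, ?_, g4⟩
    rw [← Int.natCast_natAbs, g3]
    push_cast
    rfl
  · obtain ⟨K₀, L, h1, h2⟩ := Pool.Agent.Q263.SV.sieve hb κ ε hε
    refine ⟨K₀, L, h1, fun K hK k D hD z hz Ω hΩ => ?_⟩
    have h3 := h2 K hK k D (fun i => (hD i).1) (fun i => (hD i).2) z hz Ω hΩ
    have e : (Restricted b k D).filter (fun n => ∀ p ∈ Primes K z, n % p ∉ Ω p) =
        (Pool.Agent.Q263.MD.Dig b k D).filter (fun m => ∀ p ∈ Pool.Agent.Q263.SV.Pr K z, m % p ∉ Ω p) := by
      ext n
      rw [Finset.mem_filter, Finset.mem_filter]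
      exact Iff.rfl
    rw [e]
    exact h3

end Pool.Agent.Results.MP_391708_nt.RestrictedDigits
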