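import Mathlib

/-!
# A lower bound for Baker's constant

For the admissible quadruple `(1, -2, -3, 0)` the equation `p = 2 q + 3 r` has no solution in primes with
`max (p, q, r) < 13`. Here `d = 0` and `m(a, b, c) = 3`, so every good `μ` satisfies `3 ^ μ ≥ 13`, that is
`μ ≥ log 13 / log 3 > 7 / 3`.
-/

set_option autoImplicit false

namespace Pool.Agent.Results.MP_3923f3_nt.BakerConstantAboveTwo

/-- `(a, b, c, d)` is admissible. -/
def Admissible (a b c d : ℤ) : Prop :=
  a ≠ 0 ∧ b ≠ 0 ∧ c ≠ 0 ∧ ¬ (0 < a ∧ 0 < b ∧ 0 < c) ∧ ¬ (a < 0 ∧ b < 0 ∧ c < 0) ∧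
    Even (a + b + c - d) ∧ Int.gcd (Int.gcd a b) c = 1 ∧ Int.gcd (Int.gcd d a) b = 1 ∧
    Int.gcd (Int.gcd d a) c = 1 ∧ Int.gcd (Int.gcd d b) c = 1

/-- `m(a, b, c) = max (3, |a|, |b|, |c|)`. -/
def m (a b c : ℤ) : ℤ := max 3 (max |a| (max |b| |c|))

/-- `μ` is good: for every admissible quadruple the equation `a p + b q + c r = d` has a solution in
primes with `max (p, q, r) ≤ 3 |d| + m(a, b, c) ^ μ`. -/
def Good (μ : ℝ) : Prop :=
  ∀ a b c d : ℤ, Admissible a b c d → ∃ p q r : ℕ, p.Prime ∧ q.Prime ∧ r.Prime ∧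
    a * p + b * q + c * r = d ∧
    ((max p (max q r) : ℕ) : ℝ) ≤ 3 * |(d : ℝ)| + (m a b c : ℝ) ^ μ

/-- **Every good `μ` is at least `log 13 / log 3 = 2.334...`**; so Baker's constant
`M = inf {μ : μ is good}` satisfies `M ≥ log 13 / log 3 > 7 / 3`, and it is not `1`. -/
theorem result : (∀ μ : ℝ, Good μ → Real.log 13 / Real.log 3 ≤ μ) ∧
    (7 : ℝ) / 3 < Real.log 13 / Real.log 3 := by
  have h3 : 0 < Real.log 3 := Real.log_pos (by norm_num)
  refine ⟨fun μ hμ => ?_, ?_⟩
  · have had : Admissible 1 (-2) (-3) 0 := by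
      refine ⟨by norm_num, by norm_num, by norm_num, by norm_num, by norm_num, by decide, by decide,
        by decide, by decide, by decide⟩
    obtain ⟨p, q, r, hp, hq, hr, he, hle⟩ := hμ 1 (-2) (-3) 0 had
    have hm : m 1 (-2) (-3) = 3 := by decide
    rw [hm] at hle
    have he' : p = 2 * q + 3 * r := by
      have : (p : ℤ) = 2 * q + 3 * r := by linarith
      exact_mod_cast this
    have h13 : 13 ≤ p := by
      by_contra hlt
      push Not at hlt
      have hq2 := hq.two_le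
      have hr2 := hr.two_le
      have hr4 : r < 4 := by omega
      have hq5 : q < 5 := by omega
      have key : ∀ q' < 5, ∀ r' < 4, q'.Prime → r'.Prime → (2 * q' + 3 * r').Prime →
          13 ≤ 2 * q' + 3 * r' := by decide
      have := key q hq5 r hr4 hq hr (he' ▸ hp)
      omega
    have h1 : (13 : ℝ) ≤ (3 : ℝ) ^ μ := by
      have h2 : (13 : ℝ) ≤ ((max p (max q r) : ℕ) : ℝ) := by
        exact_mod_cast h13.trans (le_max_left _ _)
      have h4 := h2.trans hle
      simpa using h4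
    rw [div_le_iff₀ h3, ← Real.log_rpow (by norm_num : (0 : ℝ) < 3)]
    exact Real.log_le_log (by norm_num) h1
  · rw [div_lt_div_iff₀ (by norm_num) h3]
    have h5 : (7 : ℝ) * Real.log 3 = Real.log (3 ^ 7) := by
      rw [Real.log_pow]; norm_num
    have h6 : Real.log 13 * 3 = Real.log (13 ^ 3) := by
      rw [Real.log_pow]; norm_num [mul_comm]
    rw [h5, h6]
    exact Real.log_lt_log (by norm_num) (by norm_num)

end Pool.Agent.Results.MP_3923f3_nt.BakerConstantAboveTwo
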