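import Pool.Agent.Q236.BK.Baker

set_option autoImplicit false

/-!
# Baker's constant: exponent one for every constant and almost all coefficients

A quadruple `(a, b, c, d)` is admissible (`Admissible`) if `a`, `b`, `c` are nonzero and not all of the same sign,
`a + b + c - d` is even and each of `gcd(a, b, c)`, `gcd(d, a, b)`, `gcd(d, a, c)`, `gcd(d, b, c)` is one. Baker's constant is
the infimum of the `μ` for which all admissible equations `a p + b q + c r = d` have a solution in primes with
`max(p, q, r) ≤ 3 |d| + m ^ μ`, `m = max(3, |a|, |b|, |c|)`.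

**Theorem.** (1) For every `U` there is `B` such that for large `X` and all `A ≤ X / (log X) ^ B` all but
`A ^ 2 / (log X) ^ U` of the pairs `(a, b)`, `1 ≤ a, b ≤ A`, have the following property: for EVERY integer `d`,
`|d| ≤ A X / (log X) ^ B`, for all but `A / (log X) ^ U` of the `c`, `|c| ≤ A`, the equation `a p - b q + c r = d`, if it is
admissible, has at least `X ^ 2 / (A (log X) ^ B)` solutions in primes `p, q, r ≤ X`; this is the expected order of
magnitude, up to a power of the logarithm.

(2) For every `U` there is `B` such that for large `A` and every set `D` of at most `(log A) ^ U` integers (in particular for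
EVERY single `d`), for all but `A ^ 3 / (log A) ^ U` of the triples `(a, b, c)` with `|a|, |b|, |c| ≤ A`, all admissible equations
`a p + b q + c r = d` with `d ∈ D` have a solution in primes with

  `max(p, q, r) ≤ (|d| / m + m) (log m) ^ B`.

This is the natural bound, up to the power of the logarithm: `max(p, q, r) ≥ |d| / (3 m)` in every case. In particular
`max(p, q, r) ≤ |d| + m (log m) ^ B` for large `m`, i.e. the exponent is one for almost all coefficients, with a logarithmic
power saving in the exceptional set, for every `d`.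

Method: for a prime `r` the equation becomes `a p - b q = d - c r`. The theorem for almost all triples
(`Pool.Agent.Results.MP_bf63dc_nt.AlmostAllTriples`, coefficients up to `X / (log X) ^ B`) has few exceptions, and the map
`(c, r) ↦ d - c r` is at most three to one for the primes `r > X ^ (1 / 2)`: this gives the transfer to EVERY `d`. The common
factors are removed by the choice of the residue class of `r`, by the theorem of Siegel and Walfisz, the inequality of Brun and
Titchmarsh and a mean value estimate for the large prime factors of the coefficients. The `d` with `|d| > A ^ 5` are treated by the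
starting library (`Pool.Agent.Y883.T6`, three large coefficients).
-/

namespace Pool.Agent.Results.MP_3923f3_nt.ExponentOneEveryConstant

open Finset
open Pool.Agent.Y883.T5 (Admissible)

/-- the number of the triples of primes `p, q, r ≤ X` with `a p + b q + c r = d` -/
def solutions (X : ℕ) (a b c d : ℤ) : ℕ :=
  ((Icc 1 X ×ˢ (Icc 1 X ×ˢ Icc 1 X)).filter (fun t : ℕ × ℕ × ℕ => t.1.Prime ∧ t.2.1.Prime ∧ t.2.2.Prime ∧
    a * t.1 + b * t.2.1 + c * t.2.2 = d)).card

/-- `m = max(3, |a|, |b|, |c|)` -/
def m (a b c : ℤ) : ℤ := max 3 (max |a| (max |b| |c|))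

/-- `a p + b q + c r = d` has a solution in primes with `max(p, q, r) ≤ (|d| / m + m) (log m) ^ B` -/
def Solvable (B : ℕ) (a b c d : ℤ) : Prop :=
  ∃ p q r : ℕ, p.Prime ∧ q.Prime ∧ r.Prime ∧ a * p + b * q + c * r = d ∧
    ((max p (max q r) : ℕ) : ℝ) ≤ (|(d : ℝ)| / m a b c + m a b c) * Real.log (m a b c) ^ B

open Classical in
/-- the number of the triples `(a, b, c)` of integers of absolute values at most `A` such that, for some `d` of `D`, the equation
`a p + b q + c r = d` is admissible, but not `Solvable` -/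
noncomputable def exceptions (B A : ℕ) (D : Finset ℤ) : ℕ :=
  ((Icc (-(A : ℤ)) A ×ˢ (Icc (-(A : ℤ)) A ×ˢ Icc (-(A : ℤ)) A)).filter (fun t : ℤ × ℤ × ℤ =>
    ∃ d ∈ D, Admissible t.1 t.2.1 t.2.2 d ∧ ¬ Solvable B t.1 t.2.1 t.2.2 d)).card

lemma adm_of {a b : ℕ} {c d : ℤ} (h : Admissible a (-(b : ℤ)) c d) : Pool.Agent.Q236.BK.Adm a b c d := by
  have ha : (0 : ℤ) < a := by
    have := h.a_ne
    omega
  have hb : -(b : ℤ) < 0 := by
    have := h.b_ne
    omega
  have h1 := (Pool.Agent.Q236.BK.PW.of h).adm ha hb
  rwa [Int.natAbs_natCast, Int.natAbs_neg, Int.natAbs_natCast] at h1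

open Classical in
/-- **Exponent one for every constant and almost all coefficients.** -/
theorem result (U : ℕ) :
    (∃ B X0 : ℕ, ∀ X : ℕ, X0 ≤ X → ∀ A : ℕ, 1 ≤ A → (A : ℝ) * Real.log X ^ B ≤ X →
      ∃ E ⊆ Icc 1 A ×ˢ Icc 1 A, (E.card : ℝ) ≤ (A : ℝ) ^ 2 / Real.log X ^ U ∧
        ∀ a b : ℕ, (a, b) ∈ Icc 1 A ×ˢ Icc 1 A → (a, b) ∉ E → ∀ d : ℤ, |(d : ℝ)| * Real.log X ^ B ≤ A * X →
          (((Icc (-(A : ℤ)) A).filter (fun c : ℤ => Admissible a (-b) c d ∧
            (solutions X a (-b) c d : ℝ) < (X : ℝ) ^ 2 / (A * Real.log X ^ B))).card : ℝ) ≤ A / Real.log X ^ U) ∧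
    (∃ B A0 : ℕ, ∀ A : ℕ, A0 ≤ A → ∀ D : Finset ℤ, (D.card : ℝ) ≤ Real.log A ^ U →
      (exceptions B A D : ℝ) ≤ (A : ℝ) ^ 3 / Real.log A ^ U) := by
  constructor
  · obtain ⟨B, X0, h⟩ := Pool.Agent.Q236.BK.main U
    refine ⟨B, X0, fun X hX A hA hAX => ?_⟩
    obtain ⟨E, h1, h2, h3⟩ := h X hX A hA hAX
    refine ⟨E, h1, h2, fun a b hab hE d hd => le_trans ?_ (h3 a b hab hE d hd)⟩
    have hsub : (Icc (-(A : ℤ)) A).filter (fun c : ℤ => Admissible a (-b) c d ∧
            (solutions X a (-b) c d : ℝ) < (X : ℝ) ^ 2 / (A * Real.log X ^ B)) ⊆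
        (Icc (-(A : ℤ)) A).filter (fun c : ℤ => Pool.Agent.Q236.BK.Adm a b c d ∧
            ((Pool.Agent.Q236.BK.sols X a b c d).card : ℝ) < (X : ℝ) ^ 2 / (A * Real.log X ^ B)) := by
      intro c hc
      rw [mem_filter] at hc ⊢
      refine ⟨hc.1, adm_of hc.2.1, ?_⟩
      have e : solutions X a (-b) c d = (Pool.Agent.Q236.BK.sols X a b c d).card := by
        unfold solutions Pool.Agent.Q236.BK.sols
        congr 1
        apply filter_congr
        intro t _
        rw [neg_mul, ← sub_eq_add_neg]
      rw [← e]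
      exact hc.2.2
    exact_mod_cast card_le_card hsub
  · exact Pool.Agent.Q236.BK.baker U

end Pool.Agent.Results.MP_3923f3_nt.ExponentOneEveryConstant
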