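import Pool.Agent.Q169.RC.AtT

/-!
# Vanishing of the Euler characteristic and of the `ℓ²`-homology of all full subcomplexes

Let the flag complex `L` of the graph `G` be a homology sphere of dimension `2 m - 1`. The right-angled Coxeter group
`W G` acts on its Davis complex, a contractible homology manifold of dimension `2 m`; the quotients by torsion-free
subgroups of finite index are closed aspherical manifolds whose Euler characteristic is a multiple of `χ(W G)`. Under a
local colouring criterion we prove that `χ(W G) = 0` if and only if the `ℓ²`-homology of `W G` vanishes, and that in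
this case the `ℓ²`-homology of the right-angled Coxeter groups of all full subcomplexes of `L` vanishes in all degrees
`i ≥ m`.
-/

set_option autoImplicit false

namespace Pool.Agent.Results.MP_394d50_gt.FlatSpheres

open Finset Pool.Agent.W907.SG Pool.Agent.W907.SM Pool.Agent.TH652.Above Pool.Agent.Q169.RC

/-- the flag complex of a graph: its simplices are the cliques -/
noncomputable def flagComplex {n : ℕ} (G : SimpleGraph (Fin n)) : Finset (Finset (Fin n)) := by
  classical exact univ.filter (fun T => G.IsClique (T : Set (Fin n)))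

/-! ### homology spheres -/

/-- the chain `c`, with coefficients modulo `2`, is supported on the faces of `K` with `j`
vertices -/
def SupportedOn {N : ℕ} (K : Finset (Finset (Fin N))) (j : ℕ) (c : Finset (Fin N) → ZMod 2) :
    Prop :=
  ∀ σ, c σ ≠ 0 → σ ∈ K ∧ σ.card = j

/-- the boundary of a chain (the augmentation is included: the empty face has dimension `-1`) -/
def boundary {N : ℕ} (c : Finset (Fin N) → ZMod 2) (ρ : Finset (Fin N)) : ZMod 2 :=
  ∑ v ∈ ρᶜ, c (insert v ρ)

/-- the reduced mod `2` homology of `K` vanishes in dimension `j - 1` -/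
def AcyclicAt {N : ℕ} (K : Finset (Finset (Fin N))) (j : ℕ) : Prop :=
  ∀ c : Finset (Fin N) → ZMod 2, SupportedOn K j c → (∀ ρ, boundary c ρ = 0) →
    ∃ b, SupportedOn K (j + 1) b ∧ ∀ ρ, c ρ = boundary b ρ

/-- the link of the face `σ` -/
def link {N : ℕ} (K : Finset (Finset (Fin N))) (σ : Finset (Fin N)) : Finset (Finset (Fin N)) :=
  univ.filter (fun τ => Disjoint τ σ ∧ τ ∪ σ ∈ K)

/-- mod `2` homology spheres of dimension `d - 1`: the complex `K` contains the empty face and is closed under
subsets, and the link of every face `σ` (also of the empty face) has the reduced mod `2` homology of a sphere of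
dimension `d - 1 - |σ|` -/
def IsHomologySphere {N : ℕ} (K : Finset (Finset (Fin N))) (d : ℕ) : Prop :=
  (∅ ∈ K ∧ ∀ σ ∈ K, ∀ τ : Finset (Fin N), τ ⊆ σ → τ ∈ K) ∧ (∀ σ ∈ K, σ.card ≤ d) ∧
    (∀ σ ∈ K, ∀ j, j + σ.card ≠ d → AcyclicAt (link K σ) j) ∧
    ∀ σ ∈ K, ∃ z : Finset (Fin N) → ZMod 2, z ≠ 0 ∧ SupportedOn (link K σ) (d - σ.card) z ∧
      (∀ ρ, boundary z ρ = 0) ∧
      ∀ z', SupportedOn (link K σ) (d - σ.card) z' → (∀ ρ, boundary z' ρ = 0) → z' = 0 ∨ z' = z

/-! ### the theorem -/

theorem mem_flag {n : ℕ} (G : SimpleGraph (Fin n)) (T : Finset (Fin n)) :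
    T ∈ flagComplex G ↔ G.IsClique (T : Set (Fin n)) := by
  classical
  unfold flagComplex
  simp

/-- Let the flag complex of `G` be a homology sphere of dimension `2 m - 1` over the reals and modulo `2`.
(1) Assume that there is a set `B` of vertices, coloured with `m + 1` colours (adjacent vertices of `B` have different
colours), such that all simplices with a vertex outside `B` are good. Then the `ℓ²`-homology of the Davis complex of
`W G` vanishes in all degrees if and only if the Euler characteristic of `W G` is zero.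
(2) Assume that all simplices are good. Then the following are equivalent: the Euler characteristic of `W G` is zero;
the `ℓ²`-homology of `W G` vanishes in the degree `m`; for every full subcomplex `A` the `ℓ²`-homology of the
right-angled Coxeter group of `A` vanishes in all degrees `i ≥ m`. If they hold and the full subcomplex on `A` is the
join of `m` complexes `A_j = A ∩ p⁻¹(j)` which are not simplices, then `∏_j (-χ(A_j)) ≤ 0`; in particular the join of
`m` sets of at least three points is not a full subcomplex. -/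
theorem result (m N : ℕ) (G : SimpleGraph (Fin N)) (hR : HSph (2 * m) G)
    (h2 : IsHomologySphere (flagComplex G) (2 * m)) :
    ((∃ (B : Set (Fin N)) (κ : Fin N → Fin (m + 1)), (∀ u v, u ∈ B → v ∈ B → G.Adj u v → κ u ≠ κ v) ∧
        ∀ v, v ∉ B → ∀ T : Finset (Fin N), v ∈ T → G.IsClique (T : Set (Fin N)) → Good (2 * m) G T) →
      ((∀ i : ℕ, L2Van G i) ↔ chiW G = 0)) ∧
    ((∀ T : Finset (Fin N), G.IsClique (T : Set (Fin N)) → Good (2 * m) G T) →
      (chiW G = 0 ↔ L2Van G m) ∧
      (chiW G = 0 ↔ ∀ (A : Set (Fin N)) [Fintype A] (i : ℕ), m ≤ i → L2Van (G.induce A) i) ∧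
      (chiW G = 0 → ∀ (A : Set (Fin N)) (p : Fin N → Fin m), (∀ u ∈ A, ∀ v ∈ A, p u ≠ p v → G.Adj u v) →
        (∀ j, ∃ s ∈ A, ∃ t ∈ A, p s = j ∧ p t = j ∧ s ≠ t ∧ ¬ G.Adj s t) →
        ∏ j : Fin m, (- chiS G (A ∩ {v | p v = j})) ≤ 0) ∧
      (chiW G = 0 → ¬ ∃ x : Fin m → Fin 3 → Fin N, (∀ i j a b, i ≠ j → G.Adj (x i a) (x j b)) ∧
        ∀ i a b, a ≠ b → x i a ≠ x i b ∧ ¬ G.Adj (x i a) (x i b))) := by
  classical
  have hH : Pool.Agent.Y131.KS.HSph (flagComplex G) (2 * m) := ⟨h2.1, h2.2.1, h2.2.2.1, h2.2.2.2⟩
  have h0 : G.IsClique ((∅ : Finset (Fin N)) : Set (Fin N)) := by simp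
  refine ⟨?_, fun hg => ?_⟩
  · rintro ⟨B, κ, hκ, hB⟩
    have hQ := Q_of_good (n := 2 * m) (k := m) (Or.inl rfl) G (flagComplex G) (mem_flag G) hH hR B κ hκ
      (fun v hv => ⟨hB v hv, fun ho => absurd ho (Nat.not_odd_iff_even.2 (even_two_mul m))⟩)
    exact l2eul (Fin N) G m fun i hi =>
      singer_of_above hR (fun j hj => (lv_univ G j).1 (hQ.2 Set.univ j hj) _ _) i (by omega)
  · have hP := P_of_good G (flagComplex G) (mem_flag G) hH hR hg
    have hmid : ∀ i, i ≠ m → L2Van G i := fun i hi =>
      singer_of_above hR (fun j hj => lv_of_P hP j hj _ _) i (by omega)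
    have hiff := l2eul (Fin N) G m hmid
    have h3 : chiW G = 0 → ∀ (A : Set (Fin N)) [Fintype A] (i : ℕ), m ≤ i → L2Van (G.induce A) i :=
      fun h A _ i hi => flat G hP hR h A i hi _ _
    have h4 : L2Van G m → chiW G = 0 := by
      intro h
      refine hiff.1 fun i => ?_
      by_cases hi : i = m
      · rw [hi]; exact h
      · exact hmid i hi
    have h5 : chiW G = 0 → ∀ (A : Set (Fin N)) (p : Fin N → Fin m), (∀ u ∈ A, ∀ v ∈ A, p u ≠ p v → G.Adj u v) →
        (∀ j, ∃ s ∈ A, ∃ t ∈ A, p s = j ∧ p t = j ∧ s ≠ t ∧ ¬ G.Adj s t) →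
        ∏ j : Fin m, (- chiS G (A ∩ {v | p v = j})) ≤ 0 := by
      intro h A p hadj hne
      have h6 := chi_join_bound G hP hR A p hadj hne
      rw [h, mul_zero] at h6
      exact h6
    refine ⟨⟨fun h => hiff.2 h m, h4⟩, ⟨h3, fun h => h4 ?_⟩, h5, ?_⟩
    · have h6 := h Set.univ m (le_refl _)
      exact ((lv_univ G m).1 (Pool.Agent.Q169.RC.lv_of h6)) _ _
    · rintro h ⟨x, hx1, hx2⟩
      have hinj : ∀ i j a b, x i a = x j b → i = j ∧ a = b := by
        intro i j a b hab
        have hij : i = j := by
          by_contra hne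
          exact (hx1 i j a b hne).ne hab
        subst hij
        refine ⟨rfl, ?_⟩
        by_contra hne
        exact (hx2 i a b hne).1 hab
      rcases Nat.eq_zero_or_pos m with hm | hm
      · subst hm
        have h6 := h5 h ∅ (fun v => Fin.elim0 (by
          exfalso
          have h7 := hH.card_le {v} ((mem_flag G _).2 (by simp))
          simp at h7)) (fun u hu => absurd hu (Set.notMem_empty u)) (fun j => Fin.elim0 j)
        simp at h6
        linarith
      · have hne : Nonempty (Fin m) := ⟨⟨0, hm⟩⟩
        obtain ⟨p, hp⟩ : ∃ p : Fin N → Fin m, ∀ i a, p (x i a) = i := by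
          refine ⟨fun v => if h : ∃ i a, x i a = v then h.choose else ⟨0, hm⟩, fun i a => ?_⟩
          have h6 : ∃ j b, x j b = x i a := ⟨i, a, rfl⟩
          show (if h : ∃ j b, x j b = x i a then h.choose else ⟨0, hm⟩) = i
          rw [dif_pos h6]
          obtain ⟨b, hb⟩ := h6.choose_spec
          exact (hinj _ _ _ _ hb).1
        have h6 := h5 h {v | ∃ i a, x i a = v} p (by
          rintro _ ⟨i, a, rfl⟩ _ ⟨j, b, rfl⟩ hne
          rw [hp, hp] at hne
          exact hx1 i j a b hne) (fun j => ⟨x j 0, ⟨j, 0, rfl⟩, x j 1, ⟨j, 1, rfl⟩, hp j 0, hp j 1,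
            (hx2 j 0 1 (by decide)).1, (hx2 j 0 1 (by decide)).2⟩)
        have h7 : ∀ j : Fin m, - chiS G ({v | ∃ i a, x i a = v} ∩ {v | p v = j}) = 1 / 2 := by
          intro j
          have e1 : ({v | ∃ i a, x i a = v} ∩ {v | p v = j} : Set (Fin N)) =
              insert (x j 0) (insert (x j 1) (insert (x j 2) ∅)) := by
            ext v
            constructor
            · rintro ⟨⟨i, a, rfl⟩, hv⟩
              rw [Set.mem_ofPred_eq, hp] at hv
              subst hv
              fin_cases a
              · exact Or.inl rfl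
              · exact Or.inr (Or.inl rfl)
              · exact Or.inr (Or.inr (Or.inl rfl))
            · rintro (rfl | rfl | rfl | hv)
              · exact ⟨⟨j, 0, rfl⟩, hp j 0⟩
              · exact ⟨⟨j, 1, rfl⟩, hp j 1⟩
              · exact ⟨⟨j, 2, rfl⟩, hp j 2⟩
              · exact absurd hv (Set.notMem_empty v)
          have n01 := hx2 j 0 1 (by decide)
          have n02 := hx2 j 0 2 (by decide)
          have n12 := hx2 j 1 2 (by decide)
          have i2 : (∅ : Set (Fin N)) ∩ G.neighborSet (x j 2) = ∅ := Set.empty_inter _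
          have i1 : (insert (x j 2) ∅ : Set (Fin N)) ∩ G.neighborSet (x j 1) = ∅ := by
            ext v
            simp only [Set.mem_inter_iff, Set.mem_insert_iff, Set.mem_empty_iff_false, or_false, iff_false, not_and]
            rintro rfl hv
            exact n12.2 hv
          have i0 : (insert (x j 1) (insert (x j 2) ∅) : Set (Fin N)) ∩ G.neighborSet (x j 0) = ∅ := by
            ext v
            simp only [Set.mem_inter_iff, Set.mem_insert_iff, Set.mem_empty_iff_false, or_false, iff_false, not_and]
            rintro (rfl | rfl) hv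
            · exact n01.2 hv
            · exact n02.2 hv
          rw [e1, chiS_add G _ (x j 0), chiS_add G _ (x j 1), chiS_add G _ (x j 2) (Set.notMem_empty _), i2, i1, i0,
            chiS_empty]
          · norm_num
          · rintro (h8 | h8)
            · exact n12.1 h8
            · exact h8
          · rintro (h8 | h8 | h8)
            · exact n01.1 h8
            · exact n02.1 h8
            · exact h8
        rw [prod_congr rfl (fun j _ => h7 j), prod_const] at h6
        have h8 : (0 : ℚ) < (1 / 2) ^ (univ : Finset (Fin m)).card := by positivity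
        linarith

end Pool.Agent.Results.MP_394d50_gt.FlatSpheres
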