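import Pool.Agent.Q120.SP.Gap

/-!
# Differences of powers of consecutive elements: the exact entropy threshold

We consider arbitrary random sets `A` of integers whose law on the dyadic block `[2 ^ k, 2 ^ (k + 1))` has
relative entropy at most `d k` (nats) with respect to Cramér's model.
-/

set_option autoImplicit false

namespace Pool.Agent.Results.MP_3998cf_nt.EntropyThreshold

open Finset MeasureTheory Filter Pool.Agent.Q120.ET Pool.Agent.Q120.SP

/-- The differences of the `α`-th powers are eventually smaller than `1` (for `α = 1 / 2` the inequality of Andrica, for all large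
elements). -/
def LtOne (S : Set ℕ) (α : ℝ) : Prop := ∀ᶠ x : ℕ in atTop, ∃ b ∈ S, x < b ∧ (b : ℝ) ^ α - (x : ℝ) ^ α < 1

theorem Small.ltOne {S : Set ℕ} {α : ℝ} (h : Small S α) : LtOne S α := by
  filter_upwards [h (1 / 2) (by norm_num)] with x hx
  obtain ⟨b, h1, h2, h3⟩ := hx
  exact ⟨b, h1, h2, by linarith⟩

theorem LtOne.bdd {S : Set ℕ} {α : ℝ} (h : LtOne S α) : Bdd S α := by
  refine ⟨1, ?_⟩
  filter_upwards [h] with x hx
  obtain ⟨b, h1, h2, h3⟩ := hx
  exact ⟨b, h1, h2, h3.le⟩

/-- For `1 / 2 ≤ α < 1` and all budgets `d k ≥ 0`: for every random set whose relative entropies are at most `d k` the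
differences of the `α`-th powers of consecutive elements almost surely tend to `0`, if and only if they are almost surely
eventually less than `1` for every such set, if and only if they are almost surely bounded for every such set, if and only if
`∑ d k * k / 2 ^ ((1 - α) k) < ∞`. Otherwise they are almost surely unbounded for some such set. -/
theorem result (d : ℕ → ℝ) (hd : ∀ k, 0 ≤ d k) (α : ℝ) (h0 : 1 / 2 ≤ α) (h1 : α < 1) :
    List.TFAE [Summable fun k : ℕ => d k * k / (2 : ℝ) ^ ((1 - α) * k), AllModels d (fun S => Small S α),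
      AllModels d (fun S => LtOne S α), AllModels d (fun S => Bdd S α)] ∧
    ((¬ Summable fun k : ℕ => d k * k / (2 : ℝ) ^ ((1 - α) * k)) → SomeModel d (fun S => ¬ Bdd S α)) := by
  obtain ⟨p1, p2, p3⟩ := powers_tfae hd (β := 1 - α) (by linarith) (by linarith)
  have e : 1 - (1 - α) = α := by ring
  rw [e] at p1 p2 p3
  refine ⟨?_, p3⟩
  tfae_have 1 → 2 := p1.1
  tfae_have 2 → 3 := by
    intro h Ω _ μ _ A hA hdd
    filter_upwards [h Ω μ A hA hdd] with ω hω
    exact Small.ltOne hω
  tfae_have 3 → 4 := by
    intro h Ω _ μ _ A hA hdd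
    filter_upwards [h Ω μ A hA hdd] with ω hω
    exact LtOne.bdd hω
  tfae_have 4 → 1 := p2.2
  tfae_finish

end Pool.Agent.Results.MP_3998cf_nt.EntropyThreshold
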