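import Pool.Agent.Q197.WN.Sqr

/-!
# Elements between consecutive odd squares: the exact entropy budget and the exact price of the exceptions, for all random sets
-/

set_option autoImplicit false

namespace Pool.Agent.Results.MP_3a3367_nt.EntropyBudget

open Finset Filter Pool.Agent.Q197.WN Pool.Agent.Q120.CL Pool.Agent.Q120.HL Pool.Agent.Q120.ET
open scoped Topology

/-- The integers strictly between two consecutive odd squares. -/
def W (n : ℕ) : Finset ℕ := Ioo ((2 * n - 1) ^ 2) ((2 * n + 1) ^ 2)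

open Classical in
/-- The number of the elements of `S` strictly between two consecutive odd squares. -/
noncomputable def Q (n : ℕ) (S : Set ℕ) : ℕ := ((W n).filter (fun x => x ∈ S)).card

/-- The expected number of elements in the window. -/
noncomputable def E (n : ℕ) : ℝ := 8 * n / (2 * Real.log n)

/-- The entropy budget and the price of the exceptions. -/
theorem result (z : ℕ → ℕ) (hs : ∀ η : ℝ, 0 < η → ∀ᶠ k : ℕ in atTop, (z k : ℝ) ≤ η * k) :
    Phase (pr z) W Q E (fun k M => (M : ℝ) * (2 ^ k / k)) ∧ Low (pr z) W Q E ∧ High (pr z) W Q E := by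
  have hcast : ∀ n : ℕ, 1 ≤ n → (((2 * n - 1) ^ 2 + 1 : ℕ) : ℝ) = (2 * (n : ℝ) - 1) ^ 2 + 1 := by
    intro n hn
    have h1 : ((2 * n - 1 : ℕ) : ℝ) = 2 * (n : ℝ) - 1 := by
      rw [Nat.cast_sub (by omega)]
      push_cast
      ring
    push_cast
    rw [h1]
  have hw : Wins (fun n => (2 * n - 1) ^ 2 + 1) (fun n => (2 * n + 1) ^ 2) (1 / 4) := by
    refine Wins.of ?_ ?_ ?_ ?_
    · filter_upwards [eventually_ge_atTop 1] with n hn
      obtain ⟨m, rfl⟩ := Nat.exists_eq_add_of_le hn
      have e : 2 * (1 + m) - 1 = 2 * m + 1 := by omega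
      rw [e]
      nlinarith
    · filter_upwards [eventually_ge_atTop 1] with n hn
      obtain ⟨m, rfl⟩ := Nat.exists_eq_add_of_le hn
      have e : 2 * (1 + m) - 1 = 2 * m + 1 := by omega
      rw [e]
      have h1 : (2 * (1 + m) + 1) ^ 2 = (2 * m + 1) ^ 2 + 1 + (8 * m + 7) := by ring
      rw [h1, Nat.add_sub_cancel_left]
      refine ⟨by omega, ?_⟩
      have h2 : (8 * m + 7) ^ 2 ≤ (8 * m + 7) ^ 4 := Nat.pow_le_pow_right (by omega) (by norm_num)
      refine le_trans ?_ h2
      nlinarith
    · filter_upwards [eventually_ge_atTop 20] with n hn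
      obtain ⟨m, rfl⟩ := Nat.exists_eq_add_of_le hn
      have e : 2 * (20 + m) - 1 = 2 * m + 39 := by omega
      rw [e]
      nlinarith
    · intro i j hij
      have h1 : 2 * i + 1 ≤ 2 * j - 1 := by omega
      have h2 := Nat.pow_le_pow_left h1 2
      show (2 * i + 1) ^ 2 ≤ (2 * j - 1) ^ 2 + 1
      omega
  have h1 := sq_elem (z := z) hs hw (c := 1) (C := 4) (β := 8) one_pos (by norm_num) (by norm_num) (by
    filter_upwards [eventually_ge_atTop 2] with n hn
    have hn' : (2 : ℝ) ≤ n := by exact_mod_cast hn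
    rw [hcast n (by omega)]
    constructor <;> nlinarith) (by
    have h2 : Tendsto (fun n : ℕ => (8 : ℝ) * n / (8 * n - 1)) atTop (𝓝 1) := by
      have h3 : Tendsto (fun n : ℕ => (((8 : ℝ) * n - 1) / (8 * n))⁻¹) atTop (𝓝 1) := by
        have h4 : Tendsto (fun n : ℕ => 1 - (1 / 8 : ℝ) * ((n : ℝ))⁻¹) atTop (𝓝 (1 - 1 / 8 * 0)) :=
          tendsto_const_nhds.sub (tendsto_const_nhds.mul (tendsto_inv_atTop_zero.comp tendsto_natCast_atTop_atTop))
        rw [mul_zero, sub_zero] at h4
        have h5 : Tendsto (fun n : ℕ => ((8 : ℝ) * n - 1) / (8 * n)) atTop (𝓝 1) := by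
          refine h4.congr' ?_
          filter_upwards [eventually_ge_atTop 1] with n hn
          have hn' : (n : ℝ) ≠ 0 := by exact_mod_cast (by omega : n ≠ 0)
          field_simp
        have h6 := h5.inv₀ one_ne_zero
        rwa [inv_one] at h6
      exact h3.congr (fun n => by rw [inv_div])
    refine h2.congr' ?_
    filter_upwards [eventually_ge_atTop 1] with n hn
    rw [hcast n hn]
    congr 1
    push_cast
    ring) (E := E) (fun n => rfl)
  have eW : (fun n : ℕ => Ico ((2 * n - 1) ^ 2 + 1) ((2 * n + 1) ^ 2)) = W := by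
    funext n
    ext x
    unfold W
    rw [mem_Ico, mem_Ioo]
    omega
  have eQ : (fun n : ℕ => els (Ico ((2 * n - 1) ^ 2 + 1) ((2 * n + 1) ^ 2))) = Q := by
    funext n S
    have h2 : Ico ((2 * n - 1) ^ 2 + 1) ((2 * n + 1) ^ 2) = W n := congrFun eW n
    unfold els Q
    rw [h2]
  rw [eW, eQ] at h1
  exact h1

end Pool.Agent.Results.MP_3a3367_nt.EntropyBudget
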