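import Pool.Agent.Q197.CI.C3aa

/-!
# Primes of the form `p_n + 2 P(n)` in Cramér's random model

`A` is Cramér's random model of the primes: the events `n ∈ A`, `n ≥ 3`, are independent with the probabilities
`1 / log n`; `el S m` is the `m`-th element `≥ 3` of `S`, the model of the `m`-th prime. Almost surely, for all
integer-valued polynomials `P` with a positive leading coefficient at once, `el A n + 2 P(n)` is an element for
`(1 + o(1)) N / (κ log N)` of the `n ≤ N`, where `κ = max (1, deg P)`, and the distance from `n` to the next such index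
is at most `(κ + o(1)) log² n`. The constant `κ` is best possible here; the exponents of the numbers of the indices
followed by long gaps and the distribution of the typical gaps are determined as well.
-/

set_option autoImplicit false

namespace Pool.Agent.Results.MP_3aaefc_nt.RandomPrimesAllPolynomials

open MeasureTheory Filter Pool.Agent.Q120.MF Pool.Agent.Q197.CI
open scoped Topology Polynomial

/-- `P` takes integer values at all integers. -/
def IntegerValued (P : ℚ[X]) : Prop := ∀ m : ℤ, ∃ k : ℤ, P.eval (m : ℚ) = k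

/-- With `S` in place of the set of the primes: `p_n + 2 P(n)` is prime. -/
def Good (S : Set ℕ) (P : ℚ[X]) (n : ℕ) : Prop := ∃ a ∈ S, (a : ℚ) = el S n + 2 * P.eval (n : ℚ)

/-- No good index in `(n, n + y]`. -/
def Gap (S : Set ℕ) (P : ℚ[X]) (n : ℕ) (y : ℝ) : Prop := ∀ m : ℕ, n < m → (m : ℝ) ≤ n + y → ¬ Good S P m

/-- `max (1, deg P)` -/
noncomputable def kap (P : ℚ[X]) : ℝ := max 1 (P.natDegree : ℝ)

theorem result :
    (∃ (Ω : Type) (_ : MeasurableSpace Ω) (μ : Measure Ω) (A : Ω → Set ℕ), IsProbabilityMeasure μ ∧ IsCramer μ A) ∧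
    ∀ (Ω : Type) [MeasurableSpace Ω] (μ : Measure Ω) [IsProbabilityMeasure μ] (A : Ω → Set ℕ), IsCramer μ A →
      -- all polynomials at once: the number of the good indices, and the gaps
      (∀ᵐ ω ∂μ, (A ω).Infinite ∧ ∀ P : ℚ[X], IntegerValued P → 0 < P.leadingCoeff →
        Tendsto (fun N : ℕ => cntP (Good (A ω) P) N * Real.log N / N) atTop (𝓝 (1 / kap P)) ∧
        ∀ c : ℝ, kap P < c → ∀ᶠ n : ℕ in atTop,
          ∃ m : ℕ, n < m ∧ (m : ℝ) ≤ n + c * Real.log n ^ 2 ∧ Good (A ω) P m) ∧
      ∀ P : ℚ[X], IntegerValued P → 0 < P.leadingCoeff →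
      -- the constant is best possible: the number of the long gaps
      (∀ c : ℝ, 0 < c → c < kap P → ∀ᵐ ω ∂μ, Tendsto (fun N : ℕ =>
        Real.log (cntP (fun n => Gap (A ω) P n (c * Real.log n ^ 2)) N) / Real.log N) atTop (𝓝 (1 - c / kap P))) ∧
      -- typical gaps
      (∀ t : ℝ, 0 < t → ∀ᵐ ω ∂μ, Tendsto (fun N : ℕ =>
        cntP (fun n => Gap (A ω) P n (t * Real.log n)) N / N) atTop (𝓝 (Real.exp (-(t / kap P))))) := by
  refine ⟨⟨_, _, cramerMeasure, cramerSet, inferInstance, isCramer⟩, ?_⟩
  intro Ω _ μ _ A hA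
  refine ⟨?_, fun P hP hlc => ?_⟩
  · filter_upwards [ae_infinite hA, hit_all hA] with ω h1 h2
    exact ⟨h1, h2⟩
  · exact (hit_laws hA hP hlc rfl).2

end Pool.Agent.Results.MP_3aaefc_nt.RandomPrimesAllPolynomials
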