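import Pool.Agent.Q54.CC.Pos

/-!
# Cycle classes over finite fields and hypersurfaces given by tensors

For a tensor `T` of format `(M + 1) × (M + 1) × (r + 1)` over the finite field `k` let `C_T`
(`tenO T`) be the cubic hypersurface `∑ T_{abc} x_a y_b z_c = 0`, `x_0 = y_0 = 1`, in the affine
space of dimension `2 M + r + 1`. For an affine variety `X` over `k` and every bound `N` there is a
`T` such that for all `n ≤ N`

* `CH_n(X) ≃ CH_(n + r + 1)(C_T)`,
* `H_(2 (n + r + 1))(C_T, K(n + r + 1))` is the direct sum of `H_(2 n)(X, K(n))` and of a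
  representation with positive weights (`H_(2 n + 1)(X, K(n + 1))`),

compatibly with the cycle class maps. Hence the cycle class maps
`CH_n(X) → H_(2 n)(X, K(n))^G` are bijective for all quasi-projective varieties `X` over `k` and
all `n` if and only if they are bijective for the hypersurfaces `C_T`, and the same holds for the
bijectivity together with the semisimplicity of the eigenvalue one of Frobenius.
-/

namespace Pool.Agent.Results.MP_3af9db_ag.TensorHypersurfaces

universe u v w x

open Q54.CU Q54.CC CategoryTheory Limits AlgebraicGeometry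

variable {k : Type u} [Field k] {𝓜 : Type w} [Category.{v} 𝓜] [Abelian 𝓜] {I J : 𝓜}

/-- The property `P n X` for all dimensions `n` and all hypersurfaces `C_T`. -/
def ForTensors (k : Type u) [Field k] (P : ℤ → SchO k → Prop) : Prop :=
  ∀ (M r : ℕ) (T : Fin (M + 1) → Fin (M + 1) → Fin (r + 1) → k) (n : ℤ), P n (tenO T)

/-- The property `P n X` for all `n` and all affine varieties `X`. -/
def ForAffine (k : Type u) [Field k] (P : ℤ → SchO k → Prop) : Prop :=
  ∀ X : SchO k, IsVar X → IsAffine X.left → ∀ n : ℤ, P n X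

/-- The property `P n X` for all `n` and all varieties `X` over which there is an affine bundle with
affine total space. -/
def ForTorsor (k : Type u) [Field k] (P : ℤ → SchO k → Prop) : Prop :=
  ∀ X : SchO k, IsVar X → HasAffineTorsor X → ∀ n : ℤ, P n X

/-- The cycle class map `CH_n(X) → Hom(I, H_(2 n)(X, K(n)))` is bijective. -/
def ClassBijective (D : CycData.{u, v, w, x} k 𝓜 I) (n : ℤ) (X : SchO k) : Prop :=
  Function.Bijective (D.c n 0 X)

/-- The cycle class map is bijective, and the eigenvalue one of Frobenius on `H_(2 n)(X, K(n))` is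
semisimple: the inclusion `ι` of the invariants of the nontrivial extension `J` of the trivial
representation `I` by itself composed with any morphism `J ⟶ H_(2 n)(X, K(n))` is zero. -/
def ClassBijectiveSS (D : CycData.{u, v, w, x} k 𝓜 I) (ι : I ⟶ J) (n : ℤ) (X : SchO k) : Prop :=
  Function.Bijective (D.c n 0 X) ∧ SemiOne ι (D.H n 0 X)

/-- `CH_m(C) ≃ CH_n(X)`, and `H_(2 m)(C, K(m))` is the direct sum of `H_(2 n)(X, K(n))` and of
`H_(2 n + 1)(X, K(n + 1))`, compatibly with the cycle class maps. -/
def HasSplit (D : CycData.{u, v, w, x} k 𝓜 I) (m : ℤ) (C : SchO k) (n : ℤ) (X : SchO k) : Prop :=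
  ∃ (a : D.A m 0 C ≃+ D.A n 0 X) (e : D.H m 0 C ≅ dsum (D.H n 0 X) (D.H (n + 1) (-1) X)),
    ∀ x, D.c m 0 C x ≫ e.hom = pair (D.c n 0 X (ap a x)) 0

/-- There is a tensor such that in dimensions at most `N` the hypersurface `C_T` has the cycle
groups and the homology of `X`, up to summands of positive weights, and the conjectures for `X` are
equivalent to those for `C_T`. -/
def HasTensor (D : CycData.{u, v, w, x} k 𝓜 I) (ι : I ⟶ J) (N : ℕ) (X : SchO k) : Prop :=
  ∃ (M r : ℕ) (T : Fin (M + 1) → Fin (M + 1) → Fin (r + 1) → k), ∀ n : ℤ, n ≤ N →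
    HasSplit D (n + r + 1) (tenO T) n X ∧
    (ClassBijective D (n + r + 1) (tenO T) ↔ ClassBijective D n X) ∧
    (ClassBijectiveSS D ι (n + r + 1) (tenO T) ↔ ClassBijectiveSS D ι n X)

/-- **Cycle classes over finite fields and hypersurfaces given by tensors.** -/
theorem result (D : CycData.{u, v, w, x} k 𝓜 I) (hD : IsCycTheory D) (ι : I ⟶ J) :
    List.TFAE [ForTensors k (ClassBijective D), ForAffine k (ClassBijective D),
      ForTorsor k (ClassBijective D)] ∧
    List.TFAE [ForTensors k (ClassBijectiveSS D ι), ForAffine k (ClassBijectiveSS D ι),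
      ForTorsor k (ClassBijectiveSS D ι)] ∧
    (∀ (X : SchO k), IsVar X → IsAffine X.left → ∀ N : ℕ, HasTensor D ι N X) ∧
    ∀ (M r : ℕ) (T : Fin (M + 1) → Fin (M + 1) → Fin (r + 1) → k),
      IsVar (tenO T) ∧ IsAffine (tenO T).left := by
  have h1 : ∀ n X n' Y, SameP D n X n' Y → (ClassBijective D n X ↔ ClassBijective D n' Y) :=
    fun n X n' Y h => and_congr (h.same hD).inj (h.same hD).surj
  have h2 : ∀ n X n' Y, SameP D n X n' Y →
      (ClassBijectiveSS D ι n X ↔ ClassBijectiveSS D ι n' Y) :=
    fun n X n' Y h => and_congr (h1 n X n' Y h) (h.semi hD ι)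
  refine ⟨main_tensor hD _ h1, main_tensor hD _ h2, ?_, fun M r T =>
    ⟨isVar_tenO T, isAffine_tenO T⟩⟩
  intro X hX ha N
  obtain ⟨M, r, T, i, hM, hd⟩ := exists_tensor X hX.ft ha (N + 2)
  refine ⟨M, r, T, fun n hn => ?_⟩
  have hn' : n + 1 < (M + M : ℕ) := by omega
  have h3 := cone_sameP hD (tq T) hX i hd hn'
  exact ⟨cone_same hD (tq T) hX i hd hn', h1 _ _ _ _ h3, h2 _ _ _ _ h3⟩

end Pool.Agent.Results.MP_3af9db_ag.TensorHypersurfaces
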