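import Pool.Agent.Q253.LH.F5
import Pool.Agent.Q253.LM.F2

set_option autoImplicit false

/-!
# Abelian fields: linear independence of the zeros, central values, GRH and one inequality for primes

No hypothesis is assumed.  Let `F` be an abelian extension of `ℚ`, contained in the `q`-th cyclotomic field, and `H` the
subgroup of `(ℤ/q)ˣ` which fixes it.  The irreducible characters of `Gal(F/ℚ)` are the Dirichlet characters modulo `q`
which are trivial on `H`; their Artin `L`-functions are the `L`-functions of the primitive characters, which have the same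
zeros in `0 < Re s < 1` as `L(s, χ)`.  For `x = e^u` put
`E(u) = [F:ℚ] ∑_{n mod q ∈ H} Λ(n) n^(-1/2) min(n/x, x/n) - (8/3) √x`
(the primes which do not divide `q` and lie in `H` are those which split completely in `F`).

Let `0 < λ ≤ 1/8`.  Statements (i) and (ii) of the problem for `F` together with the Riemann hypothesis for its
`L`-functions are equivalent to the inequality `limsup (1/U) ∫_0^U exp (-λ E(u)) du ≤ R(λ)`, where `R(λ)` is an
explicit number which depends only on the values of the logarithmic derivatives of the `L`-functions in the region of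
absolute convergence.
-/

open Filter Topology Set Complex
open DirichletCharacter (LFunction completedLFunction)

namespace Pool.Agent.Results.MP_3b6604_nt.AbelianFieldsOneInequality

variable {q : ℕ} [NeZero q]

open Classical in
/-- the irreducible characters of `Gal(F/ℚ)`: the Dirichlet characters modulo `q` which are trivial on `H` -/
noncomputable def chars (H : Subgroup (ZMod q)ˣ) : Finset (DirichletCharacter ℂ q) :=
  Finset.univ.filter fun χ => ∀ u ∈ H, χ (u : ZMod q) = 1

/-- the Riemann hypothesis for their `L`-functions -/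
def GRH (H : Subgroup (ZMod q)ˣ) : Prop :=
  ∀ χ ∈ chars H, ∀ s : ℂ, 1 / 2 < s.re → s.re < 1 → LFunction χ s ≠ 0

/-- statement (i) of the problem for `F`: the zeros with positive ordinate are simple, and their ordinates, listed over
all pairs (character, zero), are linearly independent over `ℚ` -/
def LI (H : Subgroup (ZMod q)ˣ) : Prop :=
  (∀ χ ∈ chars H, ∀ ρ : ℂ, 0 < ρ.re → ρ.re < 1 → 0 < ρ.im → LFunction χ ρ = 0 → deriv (LFunction χ) ρ ≠ 0) ∧
  LinearIndependent ℚ (fun p : {p : DirichletCharacter ℂ q × ℂ //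
    p.1 ∈ chars H ∧ 0 < p.2.re ∧ p.2.re < 1 ∧ 0 < p.2.im ∧ LFunction p.1 p.2 = 0} => p.1.2.im)

/-- statement (ii) of the problem for `F` (an abelian group has no symplectic irreducible characters, so (iii) is
empty) -/
def CentralValues (H : Subgroup (ZMod q)ˣ) : Prop := ∀ χ ∈ chars H, χ ≠ 1 → LFunction χ (1 / 2) ≠ 0

open Classical in
/-- `[F:ℚ] ∑_{n mod q ∈ H} Λ(n) n^(-1/2) min(n/x, x/n) - (8/3) √x` for `x = e^u` -/
noncomputable def E (H : Subgroup (ZMod q)ˣ) (u : ℝ) : ℝ :=
  (H.index : ℝ) * (∑' n : ℕ, if ∃ v ∈ H, (v : ZMod q) = (n : ZMod q) then ArithmeticFunction.vonMangoldt n *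
    (Real.exp (-(Real.log n / 2)) * Real.exp (-|u - Real.log n|)) else 0) - 8 / 3 * Real.exp (u / 2)

/-- the exponential mean -/
noncomputable def M (H : Subgroup (ZMod q)ˣ) (lam U : ℝ) : ℝ :=
  (1 / U) * ∫ u in (0 : ℝ)..U, Real.exp (-(lam * E H u))

/-- the Bessel function `I₀` -/
noncomputable def I0 (w : ℂ) : ℂ := ∑' k : ℕ, (w / 2) ^ (2 * k) / ((Nat.factorial k : ℂ) ^ 2)

/-- Riemann's function -/
noncomputable def xi (s : ℂ) : ℂ := (1 + s * (s - 1) * completedRiemannZeta₀ s) / 2

open Classical in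
/-- the completed `L`-function of the primitive character which induces `χ` (for the principal character: Riemann's
function) -/
noncomputable def XL (χ : DirichletCharacter ℂ q) (s : ℂ) : ℂ :=
  haveI : NeZero χ.conductor := ⟨χ.conductor_ne_zero⟩
  if χ = 1 then xi s else (χ.conductor : ℂ) ^ (s / 2) * completedLFunction χ.primitiveCharacter s

/-- `(1-t)^(-1/2) ∑_χ Λ'/Λ (1/2 + (1-t)^(1/2), χ)`; for `|t| = 1/2` the argument has real part greater than `1` -/
noncomputable def K (H : Subgroup (ZMod q)ˣ) (t : ℂ) : ℂ := (1 - t) ^ (-(1 / 2) : ℂ) *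
  ∑ χ ∈ chars H, logDeriv (XL χ) (1 / 2 + (1 - t) ^ (1 / 2 : ℂ))

/-- `R(λ) = exp ((1/4πi) ∮_{|t| = 1/2} K(t) log I₀(4λ/t) dt)` -/
noncomputable def R (H : Subgroup (ZMod q)ˣ) (lam : ℝ) : ℝ :=
  Real.exp (1 / (4 * Real.pi * I) * ∮ t in C(0, 1 / 2), K H t * Complex.log (I0 (4 * lam / t))).re

lemma triv_half : LFunction (1 : DirichletCharacter ℂ q) (1 / 2) ≠ 0 := by
  have h := DirichletCharacter.LFunctionTrivChar_eq_mul_riemannZeta (N := q) (s := (1 / 2 : ℂ)) (by norm_num)
  have h2 : LFunction (1 : DirichletCharacter ℂ q) (1 / 2) = _ := h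
  rw [h2]
  refine mul_ne_zero (Finset.prod_ne_zero_iff.2 fun p hp => ?_) Pool.Agent.Q253.LM.zeta_half
  have hp1 : 1 < p := (Nat.prime_of_mem_primeFactors hp).one_lt
  intro h3
  have h4 : (p : ℂ) ^ (-(1 / 2) : ℂ) = 1 := (sub_eq_zero.1 h3).symm
  have h5 : ‖(p : ℂ) ^ (-(1 / 2) : ℂ)‖ = 1 := by rw [h4, norm_one]
  rw [Complex.norm_natCast_cpow_of_pos (by omega)] at h5
  have h6 : (-(1 / 2) : ℂ).re = -(1 / 2) := by norm_num
  rw [h6] at h5
  have h7 : (p : ℝ) ^ (-(1 / 2) : ℝ) < 1 := Real.rpow_lt_one_of_one_lt_of_neg (by exact_mod_cast hp1) (by norm_num)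
  linarith

/-- For every abelian field `F` and `λ > 0`, without hypothesis: (1) the Riemann hypothesis for the `L`-functions of `F`
holds if and only if the exponential mean of `-λ E` is bounded.  If moreover `λ ≤ 1/8`: (2) this Riemann hypothesis and
the statements (i), (ii) of the problem for `F` hold if and only if the upper limit of the mean is at most `R(λ)`,
(3) if and only if the mean tends to `R(λ)`; (4) under the Riemann hypothesis the lower limit is at least `R(λ)`. -/
theorem result (H : Subgroup (ZMod q)ˣ) (lam : ℝ) (h0 : 0 < lam) :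
    (GRH H ↔ ∃ C : ℝ, ∀ᶠ U : ℝ in atTop, M H lam U ≤ C) ∧
    (lam ≤ 1 / 8 →
      ((GRH H ∧ LI H ∧ CentralValues H) ↔ ∀ ε : ℝ, 0 < ε → ∀ᶠ U : ℝ in atTop, M H lam U ≤ R H lam + ε) ∧
      ((GRH H ∧ LI H ∧ CentralValues H) ↔ Tendsto (M H lam) atTop (𝓝 (R H lam))) ∧
      (GRH H → ∀ ε : ℝ, 0 < ε → ∀ᶠ U : ℝ in atTop, R H lam - ε ≤ M H lam U)) := by
  refine ⟨Pool.Agent.Q253.LH.grh_iff (H := H) h0, fun h1 => ?_⟩
  obtain ⟨m1, m2, m3⟩ := Pool.Agent.Q253.LH.main (H := H) h0 h1
  have e : (GRH H ∧ LI H ∧ CentralValues H) ↔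
      (Pool.Agent.Q253.LH.GRHq H ∧ LinearIndependent ℚ (Pool.Agent.Q253.LH.gi : Pool.Agent.Q253.LH.Idx H → ℝ) ∧
        Pool.Agent.Q253.LH.mt H 0 = 0) := by
    constructor
    · rintro ⟨a, b, c⟩
      refine ⟨a, (Pool.Agent.Q253.LH.LI_iff a).1 b, Pool.Agent.Q253.LH.mt_zero_iff.2 fun χ hχ => ?_⟩
      by_cases h : χ = 1
      · rw [h]; exact triv_half
      · exact c χ hχ h
    · rintro ⟨a, b, c⟩
      exact ⟨a, (Pool.Agent.Q253.LH.LI_iff a).2 b, fun χ hχ _ => Pool.Agent.Q253.LH.mt_zero_iff.1 c χ hχ⟩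
  rw [e]
  exact ⟨m1, m2, m3⟩

end Pool.Agent.Results.MP_3b6604_nt.AbelianFieldsOneInequality
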