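import Mathlib
import Pool.Agent.Q7.CV.Dbl

/-!
# Double zeros of Dedekind zeta functions at the central point

`Pool.Agent.H541R3.ART.Irr G` is the set of irreducible complex characters of the finite group `G`.

`Pool.Agent.H541R3.ART.ArtinData G s₀` is a family of functions with the formal properties of the
Artin L-functions of a Galois extension `F/K` with group `G` near a point `s₀ ≠ 1`: functions
`L χ` for the irreducible characters `χ` of `G` and `Lin H ψ` for the linear characters `ψ` of the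
subgroups `H`, such that `L χ` is meromorphic and not identically zero near `s₀` (Brauer), `Lin H ψ`
has no pole at `s₀` (Artin reciprocity and Hecke), and `Lin H ψ` is the product of the
`L χ ^ ⟨χ|_H, ψ⟩` (induction). In particular `Lin H 1` stands for the Dedekind zeta function of the
fixed field of `H`. Here `s₀ = 1/2`.

`Pool.Agent.Q7.DB.Reflects A` is the property `L(s, χ̄) = conj L(conj s, χ)`. The hypothesis `hev` of
the theorem is a consequence of the functional equation of the Dedekind zeta functions of the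
intermediate fields (their root number is `1`): their orders at `1/2` are even.

`Pool.Agent.Q7.TZ.Sy χ` says that the irreducible character `χ` is symplectic: it is real and its
Frobenius-Schur indicator is `-1`.

`Pool.Agent.Y788.V.LTData A` are functions with the formal properties of the Artin L-functions of
the irreducible characters of degree two with solvable image of the subgroups of `G`; they have no
pole at `s₀` by the theorem of Langlands and Tunnell. `Pool.Agent.Y788.res G` is the intersection of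
the derived series of `G`, the smallest normal subgroup with solvable quotient.
-/

set_option autoImplicit false

open Pool.Agent.H541R3.ART Pool.Agent.Q7.TZ Pool.Agent.Q7.DB Pool.Agent.Y788 Pool.Agent.Y788.V

/-- Let `F/K` be a Galois extension with group `G`, an arbitrary finite group, and suppose that
`ζ_F` has a zero of order two at `s = 1/2`.
(1) One of the following holds: `L μ` has a double zero for a linear character `μ` with `μ ^ 2 = 1`
and all other `L χ` are finite and nonzero at `1/2`; or `L χ₀` has a simple zero for one symplectic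
`χ₀` and all other `L χ` are finite and nonzero at `1/2` except for at most two simple poles; or
`L χ₀` and its conjugate have simple zeros for one `χ₀` with nonreal values, and all other `L χ` are
finite and nonzero at `1/2` except for at most one simple pole. The characters with a pole are
symplectic. In particular `L χ` is finite and nonzero at `1/2` for all orthogonal `χ` of degree
greater than one.
(2) Every involution of `G` (and every `t` for which `t ^ 2` is in the kernels) acts by one and the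
same sign in all `χ` for which `L χ` has a zero or a pole at `1/2`.
(3) If `G` is generated by involutions, the first case of (1) holds.
(4) If no quotient of `res G` has exactly one involution (for example if `G` is solvable, simple or
symmetric), then, by the theorem of Langlands and Tunnell, one of the following holds: the first
case of (1); or there is one symplectic character `χ₀` of degree two such that `L χ₀` has a simple
zero, and all other `L χ` are finite and nonzero at `1/2`; or there is a linear character `l` with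
`l ^ 2 ≠ 1` such that the L-functions of `l` and `l⁻¹` have simple zeros, and all others are finite
and nonzero at `1/2`. -/
theorem Pool.Agent.Results.MP_3b6604_nt.CentralDoubleZeros.result
    (G : Type) [Group G] [Finite G] (A : ArtinData G (1 / 2 : ℂ)) (hA : Reflects A)
    (hev : ∀ H : Subgroup G, ∃ m : ℕ,
      meromorphicOrderAt (A.Lin H 1) (1 / 2 : ℂ) = ((2 * m : ℕ) : WithTop ℤ))
    (h2 : meromorphicOrderAt (A.Lin ⊥ 1) (1 / 2 : ℂ) = ((2 : ℕ) : WithTop ℤ)) :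
    ((∃ μ : G →* ℂˣ, μ * μ = 1 ∧
        meromorphicOrderAt (A.L fun g => ((μ g : ℂˣ) : ℂ)) (1 / 2 : ℂ) = ((2 : ℤ) : WithTop ℤ) ∧
        ∀ χ ∈ Irr G, χ ≠ (fun g => ((μ g : ℂˣ) : ℂ)) →
          meromorphicOrderAt (A.L χ) (1 / 2 : ℂ) = 0) ∨
      (∃ χ₀ ∈ Irr G, Sy χ₀ ∧ meromorphicOrderAt (A.L χ₀) (1 / 2 : ℂ) = ((1 : ℤ) : WithTop ℤ) ∧
        ∃ N : Finset (G → ℂ), N.card ≤ 2 ∧
          (∀ ψ ∈ N, ψ ∈ Irr G ∧ Sy ψ ∧
            meromorphicOrderAt (A.L ψ) (1 / 2 : ℂ) = ((-1 : ℤ) : WithTop ℤ)) ∧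
          ∀ χ ∈ Irr G, χ ≠ χ₀ → χ ∉ N → meromorphicOrderAt (A.L χ) (1 / 2 : ℂ) = 0) ∨
      (∃ χ₀ ∈ Irr G, (∃ g, χ₀ g⁻¹ ≠ χ₀ g) ∧
        meromorphicOrderAt (A.L χ₀) (1 / 2 : ℂ) = ((1 : ℤ) : WithTop ℤ) ∧
        meromorphicOrderAt (A.L fun g => χ₀ g⁻¹) (1 / 2 : ℂ) = ((1 : ℤ) : WithTop ℤ) ∧
        ∃ N : Finset (G → ℂ), N.card ≤ 1 ∧
          (∀ ψ ∈ N, ψ ∈ Irr G ∧ Sy ψ ∧
            meromorphicOrderAt (A.L ψ) (1 / 2 : ℂ) = ((-1 : ℤ) : WithTop ℤ)) ∧
          ∀ χ ∈ Irr G, χ ≠ χ₀ → χ ≠ (fun g => χ₀ g⁻¹) → χ ∉ N →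
            meromorphicOrderAt (A.L χ) (1 / 2 : ℂ) = 0)) ∧
    (∀ t : G, (∀ χ ∈ Irr G, meromorphicOrderAt (A.L χ) (1 / 2 : ℂ) ≠ 0 → χ (t * t) = χ 1) →
      ∃ ε : ℂ, (ε = 1 ∨ ε = -1) ∧
        ∀ χ ∈ Irr G, meromorphicOrderAt (A.L χ) (1 / 2 : ℂ) ≠ 0 → χ t = ε * χ 1) ∧
    (Subgroup.closure {t : G | t * t = 1} = ⊤ →
      ∃ μ : G →* ℂˣ, μ * μ = 1 ∧
        meromorphicOrderAt (A.L fun g => ((μ g : ℂˣ) : ℂ)) (1 / 2 : ℂ) = ((2 : ℤ) : WithTop ℤ) ∧
        ∀ χ ∈ Irr G, χ ≠ (fun g => ((μ g : ℂˣ) : ℂ)) →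
          meromorphicOrderAt (A.L χ) (1 / 2 : ℂ) = 0) ∧
    ((∀ (M : Type) [Group M] (f : res G →* M), Function.Surjective f →
        ¬ ∃! t : M, t ≠ 1 ∧ t * t = 1) → Nonempty (LTData A) →
      (∃ μ : G →* ℂˣ, μ * μ = 1 ∧
        meromorphicOrderAt (A.L fun g => ((μ g : ℂˣ) : ℂ)) (1 / 2 : ℂ) = ((2 : ℤ) : WithTop ℤ) ∧
        ∀ χ ∈ Irr G, χ ≠ (fun g => ((μ g : ℂˣ) : ℂ)) →
          meromorphicOrderAt (A.L χ) (1 / 2 : ℂ) = 0) ∨
      (∃ χ₀ ∈ Irr G, Sy χ₀ ∧ χ₀ 1 = 2 ∧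
        meromorphicOrderAt (A.L χ₀) (1 / 2 : ℂ) = ((1 : ℤ) : WithTop ℤ) ∧
        ∀ χ ∈ Irr G, χ ≠ χ₀ → meromorphicOrderAt (A.L χ) (1 / 2 : ℂ) = 0) ∨
      (∃ l : G →* ℂˣ, l * l ≠ 1 ∧
        meromorphicOrderAt (A.L fun g => ((l g : ℂˣ) : ℂ)) (1 / 2 : ℂ) = ((1 : ℤ) : WithTop ℤ) ∧
        meromorphicOrderAt (A.L fun g => (((l g)⁻¹ : ℂˣ) : ℂ)) (1 / 2 : ℂ)
          = ((1 : ℤ) : WithTop ℤ) ∧
        ∀ χ ∈ Irr G, χ ≠ (fun g => ((l g : ℂˣ) : ℂ)) → χ ≠ (fun g => (((l g)⁻¹ : ℂˣ) : ℂ)) →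
          meromorphicOrderAt (A.L χ) (1 / 2 : ℂ) = 0)) := by
  classical
  have hs : (starRingEnd ℂ) (1 / 2 : ℂ) = 1 / 2 := by
    rw [map_div₀, map_one, map_ofNat]
  have hord : ∀ χ ∈ Irr G, ∀ k : ℤ, meromorphicOrderAt (A.L χ) (1 / 2 : ℂ) = (k : WithTop ℤ) ↔
      A.ord χ = k := by
    intro χ hχ k
    rw [← A.coe_ord hχ]
    exact WithTop.coe_eq_coe
  have hord0 : ∀ χ ∈ Irr G, meromorphicOrderAt (A.L χ) (1 / 2 : ℂ) = 0 ↔ A.ord χ = 0 :=
    fun χ hχ => hord χ hχ 0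
  have h1 : (theta A.ord : G → ℂ) 1 = 2 := by
    rw [A.theta_one h2]; simp
  obtain ⟨hshape, hinv⟩ := Pool.Agent.Q7.CV.central_double hs A hA hev h2
  refine ⟨?_, ?_, ?_, ?_⟩
  · rcases hshape with ⟨μ, e1, e2, e3, e4⟩ | ⟨χ₀, hχ₀, e1, e2, N, ⟨e3, e4⟩, e5⟩ |
      ⟨χ₀, hχ₀, e1, e2, e2', N, ⟨e3, e4⟩, e5⟩
    · left
      exact ⟨μ, e1, (hord _ e3 2).mpr e2, fun χ hχ hne => (hord0 χ hχ).mpr (e4 χ hχ hne)⟩
    · right; left
      exact ⟨χ₀, hχ₀, e1, (hord χ₀ hχ₀ 1).mpr e2, N, e3, fun ψ hψ =>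
        ⟨(e4 ψ hψ).1, (e4 ψ hψ).2.1, (hord ψ (e4 ψ hψ).1 (-1)).mpr (e4 ψ hψ).2.2⟩,
        fun χ hχ hne hN => (hord0 χ hχ).mpr (e5 χ hχ hne hN)⟩
    · right; right
      exact ⟨χ₀, hχ₀, e1, (hord χ₀ hχ₀ 1).mpr e2, (hord _ (irr_inv hχ₀) 1).mpr e2', N, e3,
        fun ψ hψ => ⟨(e4 ψ hψ).1, (e4 ψ hψ).2.1, (hord ψ (e4 ψ hψ).1 (-1)).mpr (e4 ψ hψ).2.2⟩,
        fun χ hχ hne hne' hN => (hord0 χ hχ).mpr (e5 χ hχ hne hne' hN)⟩
  · intro t ht
    obtain ⟨ε, hε, h3⟩ := hinv t (fun χ hχ hne => ht χ hχ (fun h => hne ((hord0 χ hχ).mp h)))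
    exact ⟨ε, hε, fun χ hχ hne => h3 χ hχ (fun h => hne ((hord0 χ hχ).mpr h))⟩
  · intro hgen
    have hsc : ∀ χ ∈ Irr G, A.ord χ ≠ 0 → χ 1 = 1 ∧ (∀ g, χ g⁻¹ = χ g) ∧
        ∑ᶠ g, χ (g ^ 2) = (Nat.card G : ℂ) := fun χ hχ hne =>
      Pool.Agent.Q7.CV.scal_of_gen hgen (fun t ht => hinv t (fun χ _ _ => by rw [ht])) hχ hne
    have hG : (Nat.card G : ℂ) ≠ 0 := by exact_mod_cast Nat.card_pos.ne'
    rcases hshape with ⟨μ, e1, e2, e3, e4⟩ | ⟨χ₀, hχ₀, e1, e2, -⟩ | ⟨χ₀, hχ₀, e1, e2, -⟩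
    · exact ⟨μ, e1, (hord _ e3 2).mpr e2, fun χ hχ hne => (hord0 χ hχ).mpr (e4 χ hχ hne)⟩
    · exfalso
      obtain ⟨-, -, h5⟩ := hsc χ₀ hχ₀ (by rw [e2]; norm_num)
      rw [e1.2] at h5
      apply hG
      linear_combination (-1 / 2 : ℂ) * h5
    · exfalso
      obtain ⟨-, h5, -⟩ := hsc χ₀ hχ₀ (by rw [e2]; norm_num)
      obtain ⟨g, hg⟩ := e1
      exact hg (h5 g)
  · intro hq hT
    have hpos : ∀ χ ∈ Irr G, 0 ≤ A.ord χ := by
      intro χ hχ
      have h3 : ∀ a ∈ res G, (theta A.ord : G → ℂ) a = (theta A.ord : G → ℂ) 1 := by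
        rcases dich A.isHeilbronn (Pool.Agent.W446.AS.theta_virt A.ord) (r := 2) le_rfl (by rw [h1]; simp) with
          h | ⟨-, K, hK, h4, -⟩
        · exact h
        · exact absurd h4 (hq (res G ⧸ K) (QuotientGroup.mk' K) (QuotientGroup.mk'_surjective K))
      have h4 := (artin_of_const A (r := 2) le_rfl h2 h3).2 hT χ hχ
      rw [← A.coe_ord hχ] at h4
      exact_mod_cast h4
    rcases hshape with ⟨μ, e1, e2, e3, e4⟩ | ⟨χ₀, hχ₀, e1, e2, N, ⟨e3, e4⟩, e5⟩ |
      ⟨χ₀, hχ₀, e1, e2, e2', N, ⟨e3, e4⟩, e5⟩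
    · left
      exact ⟨μ, e1, (hord _ e3 2).mpr e2, fun χ hχ hne => (hord0 χ hχ).mpr (e4 χ hχ hne)⟩
    · right; left
      have hN : ∀ χ, χ ∉ N := by
        intro ψ hψ
        have h5 := hpos ψ (e4 ψ hψ).1
        rw [(e4 ψ hψ).2.2] at h5
        omega
      have h6 := Pool.Agent.Q7.CV.deg_sum A.ord h1 {χ₀} (by simpa using mem_irrF.mpr hχ₀)
        (fun χ hχ hne => e5 χ hχ (by simpa using hne) (hN χ))
      rw [Finset.sum_singleton, e2] at h6
      refine ⟨χ₀, hχ₀, e1, ?_, (hord χ₀ hχ₀ 1).mpr e2, fun χ hχ hne =>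
        (hord0 χ hχ).mpr (e5 χ hχ hne (hN χ))⟩
      simpa using h6
    · right; right
      have hN : ∀ χ, χ ∉ N := by
        intro ψ hψ
        have h5 := hpos ψ (e4 ψ hψ).1
        rw [(e4 ψ hψ).2.2] at h5
        omega
      have hne01 : χ₀ ≠ (fun g => χ₀ g⁻¹) := by
        intro h
        obtain ⟨g, hg⟩ := e1
        exact hg (congrFun h g).symm
      have h6 := Pool.Agent.Q7.CV.deg_sum A.ord h1 {χ₀, fun g => χ₀ g⁻¹} (by
          intro x hx
          rcases Finset.mem_insert.mp hx with h | h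
          · rw [h]; exact mem_irrF.mpr hχ₀
          · rw [Finset.mem_singleton.mp h]; exact mem_irrF.mpr (irr_inv hχ₀))
        (fun χ hχ hne => by
          simp only [Finset.mem_insert, Finset.mem_singleton, not_or] at hne
          exact e5 χ hχ hne.1 hne.2 (hN χ))
      rw [Finset.sum_pair hne01, e2, e2'] at h6
      simp only [inv_one] at h6
      have h7 : χ₀ 1 = 1 := by
        push_cast at h6
        linear_combination h6 / 2
      obtain ⟨l, hl⟩ := (Pool.Agent.W446.AS.irr_heilbronn hχ₀).deg_one h7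
      have hl1 : χ₀ = fun g => ((l g : ℂˣ) : ℂ) := funext hl
      have hl2 : (fun g => χ₀ g⁻¹) = fun g => (((l g)⁻¹ : ℂˣ) : ℂ) := by
        funext g
        rw [hl, map_inv]
      refine ⟨l, ?_, ?_, ?_, ?_⟩
      · intro h8
        apply hne01
        rw [hl2, hl1]
        funext g
        have h9 : l g * l g = 1 := by
          rw [← MonoidHom.mul_apply, h8, MonoidHom.one_apply]
        have h10 : (l g)⁻¹ = l g := inv_eq_of_mul_eq_one_left h9
        rw [h10]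
      · rw [← hl1]; exact (hord χ₀ hχ₀ 1).mpr e2
      · rw [← hl2]; exact (hord _ (irr_inv hχ₀) 1).mpr e2'
      · intro χ hχ hne hne'
        rw [← hl1] at hne
        rw [← hl2] at hne'
        exact (hord0 χ hχ).mpr (e5 χ hχ hne hne' (hN χ))
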