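import Pool.Agent.Q258.BA.Avg
import Pool.Agent.Y282.RB.Fin
import Pool.Agent.Y282.RB.K2
import Pool.Agent.Y282.RB.K3

set_option autoImplicit false

open MeasureTheory Filter Topology

namespace Pool.Agent.Results.MP_3dd6d4_an.ExplicitLinearBound

/-- The `n`-th power of the Beurling-Ahlfors transform: the Fourier multiplier with symbol
`(conj ξ / ξ) ^ n`, written out with the Fourier kernel. -/
noncomputable def T (n : ℕ) (f : ℂ → ℂ) (z : ℂ) : ℂ :=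
  ∫ ξ : ℂ,
    Complex.exp (2 * (Real.pi : ℂ) * Complex.I * (((z.re * ξ.re + z.im * ξ.im : ℝ)) : ℂ)) *
      ((starRingEnd ℂ ξ / ξ) ^ n *
        ∫ x : ℂ, Complex.exp (-(2 * (Real.pi : ℂ) * Complex.I *
          (((x.re * ξ.re + x.im * ξ.im : ℝ)) : ℂ))) * f x)

/-- The constant `(n+1)/2 * ((n+1)/(n-1)) ^ ((n-1)/2)`, equal to `1` for `n = 1`. -/
noncomputable def G (n : ℕ) : ℝ :=
  ((n : ℝ) + 1) / 2 * (((n : ℝ) + 1) / ((n : ℝ) - 1)) ^ (((n : ℝ) - 1) / 2)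

/-- The Pochhammer quotient `(1/q)_n / (1/p)_n`. -/
noncomputable def K (n : ℕ) (p : ℝ) : ℝ :=
  (ascPochhammer ℝ n).eval (1 - 1 / p) / (ascPochhammer ℝ n).eval (1 / p)

lemma K_lim (n : ℕ) (hn : 1 ≤ n) : Tendsto (fun p : ℝ => K n p / p) atTop (𝓝 (n : ℝ)) := by
  obtain ⟨m, rfl⟩ : ∃ m, n = m + 1 := ⟨n - 1, by omega⟩
  have h0 : Tendsto (fun p : ℝ => 1 / p) atTop (𝓝 0) := by
    simpa [one_div] using tendsto_inv_atTop_zero (𝕜 := ℝ)
  have h1 : Tendsto (fun p : ℝ => (ascPochhammer ℝ (m + 1)).eval (1 - 1 / p)) atTop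
      (𝓝 ((ascPochhammer ℝ (m + 1)).eval (1 - 0))) :=
    ((ascPochhammer ℝ (m + 1)).continuous.tendsto _).comp (h0.const_sub 1)
  have h2 : Tendsto (fun p : ℝ => (ascPochhammer ℝ m).eval (1 / p + 1)) atTop
      (𝓝 ((ascPochhammer ℝ m).eval (0 + 1))) :=
    ((ascPochhammer ℝ m).continuous.tendsto _).comp (h0.add_const 1)
  have h3 : (ascPochhammer ℝ m).eval (0 + 1 : ℝ) = (m.factorial : ℝ) := by
    rw [zero_add]
    exact ascPochhammer_eval_one ℝ m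
  have h4 : (ascPochhammer ℝ (m + 1)).eval (1 - 0 : ℝ) = ((m + 1).factorial : ℝ) := by
    rw [sub_zero]
    exact ascPochhammer_eval_one ℝ (m + 1)
  rw [h3] at h2
  rw [h4] at h1
  have hm : (m.factorial : ℝ) ≠ 0 := by exact_mod_cast m.factorial_ne_zero
  have h5 := h1.div h2 hm
  have h6 : ((m + 1).factorial : ℝ) / (m.factorial : ℝ) = ((m + 1 : ℕ) : ℝ) := by
    rw [Nat.factorial_succ]
    push_cast
    field_simp
  rw [h6] at h5
  refine h5.congr' ?_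
  filter_upwards [eventually_gt_atTop 0] with p hp
  unfold K
  have h7 : (ascPochhammer ℝ (m + 1)).eval (1 / p) = 1 / p * (ascPochhammer ℝ m).eval (1 / p + 1) := by
    rw [ascPochhammer_succ_left]
    simp
  rw [h7]
  simp only [Pi.div_apply]
  have h8 : (ascPochhammer ℝ m).eval (1 / p + 1) ≠ 0 :=
    (ascPochhammer_pos m _ (by positivity)).ne'
  field_simp

/-- **Explicit linear bounds for the powers of the Beurling-Ahlfors transform.** Let `n ≥ 1` and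
`p ≥ 2`. Then `‖T ^ n f‖_p ≤ G n * (p - 1) * ‖f‖_p` for every Schwartz function `f`, with
`G n = (n+1)/2 * ((n+1)/(n-1)) ^ ((n-1)/2)`, `G 1 = 1` and `G n ≤ (e/2) (n + 1)`; more generally
`‖T ^ n f‖_p ≤ (p - 1) / ((1 - r²) r^(n-1)) * ‖f‖_p` for all `0 < r < 1`. No constant smaller than
`K n p = (1/q)_n / (1/p)_n` is admissible, and `K n p / p` tends to `n` as `p → ∞`. -/
theorem result (n : ℕ) (hn : 1 ≤ n) :
    (G n ≤ Real.exp 1 / 2 * (n + 1) ∧ G 1 = 1) ∧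
    (∀ p : ℝ, 2 ≤ p → ∀ f : SchwartzMap ℂ ℂ,
      eLpNorm (T n f) (ENNReal.ofReal p) (volume : Measure ℂ)
        ≤ ENNReal.ofReal (G n * (p - 1)) * eLpNorm f (ENNReal.ofReal p) (volume : Measure ℂ)) ∧
    (∀ p : ℝ, 2 ≤ p → ∀ r : ℝ, 0 < r → r < 1 → ∀ f : SchwartzMap ℂ ℂ,
      eLpNorm (T n f) (ENNReal.ofReal p) (volume : Measure ℂ)
        ≤ ENNReal.ofReal ((p - 1) / ((1 - r ^ 2) * r ^ (n - 1))) *
          eLpNorm f (ENNReal.ofReal p) (volume : Measure ℂ)) ∧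
    (∀ p : ℝ, 2 ≤ p → ∀ c : ℝ, c < K n p →
      ∃ f : SchwartzMap ℂ ℂ, HasCompactSupport f ∧
        ENNReal.ofReal c * eLpNorm f (ENNReal.ofReal p) (volume : Measure ℂ)
          < eLpNorm (T n f) (ENNReal.ofReal p) (volume : Measure ℂ)) ∧
    Tendsto (fun p : ℝ => K n p / p) atTop (𝓝 (n : ℝ)) := by
  have hT : ∀ n f, T n f = Y282.RB.Tn n f := fun n f => rfl
  refine ⟨⟨Q258.BA.ga_le hn, Q258.BA.ga_one⟩, fun p hp f => Q258.BA.linear hp f hn,
    fun p hp r h0 h1 f => Q258.BA.radius hp f hn h0 h1, fun p hp c hc => ?_, K_lim n hn⟩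
  have hK : K n p = Y282.RB.Cn p n := (Y282.RB.K3.main n p (by linarith)).symm
  have hpos : 0 < Y282.RB.Cn p n := by
    unfold Y282.RB.Cn
    refine Finset.prod_pos (fun j _ => ?_)
    have h1 : (1 : ℝ) / p < 1 := by
      rw [div_lt_one (by linarith)]; linarith
    have h2 : (0 : ℝ) < 1 / p := by positivity
    have h3 : (0 : ℝ) ≤ (j : ℝ) := Nat.cast_nonneg j
    apply div_pos <;> linarith
  rw [hK] at hc
  obtain ⟨g, hg, hs, hlt⟩ := Y282.RB.Fin.sharp n p (max c 0) hn (by linarith)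
    (le_max_right _ _) (max_lt hc hpos)
  obtain ⟨f, hf1, hf2, hf3⟩ := Y282.RB.K2.main n g hg hs
  refine ⟨f, hf3, ?_⟩
  rw [hT, hf1]
  refine lt_of_le_of_lt ?_ hlt
  gcongr
  exact le_max_left _ _

end Pool.Agent.Results.MP_3dd6d4_an.ExplicitLinearBound
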