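import Mathlib

/-!
# Symplectic contents and hook lengths

The product over the cells of `μ` of `c_sp / h` is `(-1) ^ (|μ| / 2)` when `μ` is the double of a
strict partition (every leg on the diagonal is one more than the arm) and `0` otherwise: in the
second case, the last diagonal cell at which this fails gives a cell of content `0`, by the
complementarity of the sets `{μ_i - i}` and `{j - 1 - μ'_j}`. So `∑ a_n x^n = ∏ (1 + (-1)^b x^{2b})`,
which is the claimed product by Euler's argument.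
-/

set_option autoImplicit false

namespace Pool.Agent.Results.MP_3e0fcf_co.SymplecticContent

open Finset PowerSeries

/-- the symplectic content of the cell `(i+1, j+1)`; rows and columns are counted from `0` -/
def csp (μ : YoungDiagram) (c : ℕ × ℕ) : ℤ :=
  if c.2 < c.1 then ((μ.rowLen c.1 : ℤ) - (c.1 + 1)) + ((μ.rowLen c.2 : ℤ) - (c.2 + 1)) + 2
  else -((μ.colLen c.1 : ℤ) - (c.1 + 1)) - ((μ.colLen c.2 : ℤ) - (c.2 + 1))

/-- the hook length of the cell `(i+1, j+1)` -/
def hook (μ : YoungDiagram) (c : ℕ × ℕ) : ℤ :=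
  ((μ.rowLen c.1 : ℤ) - (c.2 + 1)) + ((μ.colLen c.2 : ℤ) - (c.1 + 1)) + 1

/-- `a_n`, a sum over the Young diagrams with `n` cells -/
noncomputable def a (n : ℕ) : ℚ :=
  ∑ᶠ μ ∈ {μ : YoungDiagram | μ.card = n}, ∏ c ∈ μ.cells, (csp μ c : ℚ) * (hook μ c : ℚ)⁻¹

/-! ### the product for one diagram -/

/-- doubles of strict partitions -/
def Dbl (μ : YoungDiagram) : Prop := ∀ i j, i ≤ j → ((i, j) ∈ μ ↔ (j + 1, i) ∈ μ)

theorem dbl_len {μ : YoungDiagram} (h : Dbl μ) {j : ℕ} (hj : (j, j) ∈ μ) :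
    μ.colLen j = μ.rowLen j + 1 := by
  have h1 : j < μ.rowLen j := YoungDiagram.mem_iff_lt_rowLen.1 hj
  have h2 := h j (μ.rowLen j) h1.le
  have h3 := h j (μ.rowLen j - 1) (by omega)
  rw [YoungDiagram.mem_iff_lt_rowLen, YoungDiagram.mem_iff_lt_colLen] at h2 h3
  omega

theorem dbl_of_len {μ : YoungDiagram} (h : ∀ i, (i, i) ∈ μ → μ.colLen i = μ.rowLen i + 1) :
    Dbl μ := by
  intro i j hij
  rw [YoungDiagram.mem_iff_lt_rowLen, YoungDiagram.mem_iff_lt_colLen]
  by_cases hi : (i, i) ∈ μ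
  · have := h i hi; omega
  · have h1 := hi
    rw [YoungDiagram.mem_iff_lt_rowLen] at h1
    rw [YoungDiagram.mem_iff_lt_colLen] at hi
    omega

theorem prod_of_dbl {μ : YoungDiagram} (h : Dbl μ) :
    ∏ c ∈ μ.cells, (csp μ c : ℚ) * (hook μ c : ℚ)⁻¹ =
      (-1) ^ (μ.cells.filter (fun c => c.1 ≤ c.2)).card := by
  rw [← prod_const, prod_filter]
  refine prod_congr rfl ?_
  rintro ⟨i, j⟩ hc
  rw [YoungDiagram.mem_cells] at hc
  have hr := YoungDiagram.mem_iff_lt_rowLen.1 hc
  have hcl := YoungDiagram.mem_iff_lt_colLen.1 hc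
  have hh : 0 < hook μ (i, j) := by unfold hook; simp only; omega
  have hh' : (hook μ (i, j) : ℚ) ≠ 0 := by exact_mod_cast hh.ne'
  by_cases hij : i ≤ j
  · have h1 := dbl_len h (μ.up_left_mem (le_refl i) hij hc)
    have e : csp μ (i, j) = - hook μ (i, j) := by
      unfold csp hook
      simp only
      rw [if_neg (by omega)]
      omega
    simp only
    rw [if_pos hij, e]
    push_cast
    field_simp
  · have h1 := dbl_len h (μ.up_left_mem (by omega : j ≤ i) (le_refl j) hc)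
    have e : csp μ (i, j) = hook μ (i, j) := by
      unfold csp hook
      simp only
      rw [if_pos (by omega)]
      omega
    simp only
    rw [if_neg hij, e]
    field_simp

theorem maya {μ : YoungDiagram} (m : ℤ) (h : ∀ k : ℕ, (μ.rowLen k : ℤ) - (k + 1) ≠ m) :
    ∃ j : ℕ, (μ.colLen j : ℤ) - (j + 1) = - m - 1 := by
  have hex : ∃ k : ℕ, (μ.rowLen k : ℤ) - (k + 1) < m := by
    refine ⟨μ.rowLen 0 + m.natAbs, ?_⟩
    have := μ.rowLen_anti 0 (μ.rowLen 0 + m.natAbs) (Nat.zero_le _)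
    omega
  classical
  obtain ⟨k, hk, hmin⟩ : ∃ k : ℕ, (μ.rowLen k : ℤ) - (k + 1) < m ∧
      ∀ k' < k, ¬ (μ.rowLen k' : ℤ) - (k' + 1) < m :=
    ⟨Nat.find hex, Nat.find_spec hex, fun k' hk' => Nat.find_min hex hk'⟩
  obtain ⟨j, hj⟩ : ∃ j : ℕ, (j : ℤ) = m + k := by
    refine ⟨(m + k).toNat, ?_⟩
    omega
  refine ⟨j, ?_⟩
  have h1 : ¬ k < μ.colLen j := by
    rw [← YoungDiagram.mem_iff_lt_colLen, YoungDiagram.mem_iff_lt_rowLen]
    omega
  have h2 : k ≤ μ.colLen j := by
    rcases Nat.eq_zero_or_pos k with h0 | h0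
    · omega
    · have h3 := hmin (k - 1) (by omega)
      have h4 := h (k - 1)
      have h5 : (k - 1, j) ∈ μ := by
        rw [YoungDiagram.mem_iff_lt_rowLen]
        push_cast [Nat.cast_sub (show 1 ≤ k from h0)] at h3 h4
        omega
      rw [YoungDiagram.mem_iff_lt_colLen] at h5
      omega
  omega

theorem maya' {μ : YoungDiagram} (m : ℤ) (h : ∀ k : ℕ, (μ.colLen k : ℤ) - (k + 1) ≠ m) :
    ∃ j : ℕ, (μ.rowLen j : ℤ) - (j + 1) = - m - 1 := by
  have := maya (μ := μ.transpose) m (by simpa using h)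
  simpa using this

theorem exists_zero {μ : YoungDiagram} (h : ¬ Dbl μ) : ∃ c ∈ μ.cells, csp μ c = 0 := by
  classical
  have h0 : ((range (μ.rowLen 0 + 1)).filter
      (fun i => (i, i) ∈ μ ∧ μ.colLen i ≠ μ.rowLen i + 1)).Nonempty := by
    by_contra hc
    rw [not_nonempty_iff_eq_empty] at hc
    apply h
    apply dbl_of_len
    intro i hi
    by_contra hne
    have : i ∈ ((range (μ.rowLen 0 + 1)).filter
      (fun i => (i, i) ∈ μ ∧ μ.colLen i ≠ μ.rowLen i + 1)) := by
      rw [mem_filter, mem_range]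
      refine ⟨?_, hi, hne⟩
      have h1 := YoungDiagram.mem_iff_lt_rowLen.1 hi
      have h2 := μ.rowLen_anti 0 i (Nat.zero_le _)
      omega
    rw [hc] at this
    simp at this
  obtain ⟨i, hi, hmax⟩ := exists_max_image _ id h0
  rw [mem_filter, mem_range] at hi
  obtain ⟨-, hii, hne⟩ := hi
  have hmax' : ∀ k, i < k → (k, k) ∈ μ → μ.colLen k = μ.rowLen k + 1 := by
    intro k hk hkk
    by_contra hc
    have h1 := YoungDiagram.mem_iff_lt_rowLen.1 hkk
    have h2 := μ.rowLen_anti 0 k (Nat.zero_le _)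
    have := hmax k (by rw [mem_filter, mem_range]; exact ⟨by omega, hkk, hc⟩)
    simp only [id] at this
    omega
  have hR := YoungDiagram.mem_iff_lt_rowLen.1 hii
  have hC := YoungDiagram.mem_iff_lt_colLen.1 hii
  by_cases c1 : μ.colLen i = i + 1
  · refine ⟨(i, i), by rwa [YoungDiagram.mem_cells], ?_⟩
    unfold csp
    simp only
    rw [if_neg (by omega)]
    omega
  by_cases c2 : μ.colLen i ≤ μ.rowLen i
  · obtain ⟨j, hj⟩ := maya (μ := μ) ((μ.colLen i : ℤ) - i - 2) (by
      intro k hk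
      rcases Nat.lt_or_ge i k with h1 | h1
      · by_cases hkk : (k, k) ∈ μ
        · have e1 := hmax' k h1 hkk
          have e2 := μ.colLen_anti i k h1.le
          omega
        · rw [YoungDiagram.mem_iff_lt_rowLen] at hkk
          omega
      · have e1 := μ.rowLen_anti k i h1
        omega)
    have hij : i ≤ j := by
      by_contra hc
      have e1 : (j, j) ∈ μ := μ.up_left_mem (by omega) (by omega) hii
      rw [YoungDiagram.mem_iff_lt_colLen] at e1
      omega
    refine ⟨(i, j), ?_, ?_⟩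
    · rw [YoungDiagram.mem_cells]
      by_cases hm : i < μ.colLen j
      · exact YoungDiagram.mem_iff_lt_colLen.2 hm
      · rw [YoungDiagram.mem_iff_lt_rowLen]
        omega
    · unfold csp
      simp only
      rw [if_neg (by omega)]
      omega
  · obtain ⟨j, hj⟩ := maya' (μ := μ) ((μ.rowLen i : ℤ) - i) (by
      intro k hk
      rcases Nat.lt_or_ge i k with h1 | h1
      · by_cases hkk : (k, k) ∈ μ
        · have e1 := hmax' k h1 hkk
          have e2 := μ.rowLen_anti i k h1.le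
          omega
        · rw [YoungDiagram.mem_iff_lt_colLen] at hkk
          omega
      · have e1 := μ.colLen_anti k i h1
        omega)
    have hij : i < j := by
      by_contra hc
      have e1 : (j, j) ∈ μ := μ.up_left_mem (by omega) (by omega) hii
      rw [YoungDiagram.mem_iff_lt_rowLen] at e1
      omega
    refine ⟨(j, i), ?_, ?_⟩
    · rw [YoungDiagram.mem_cells]
      by_cases hm : i < μ.rowLen j
      · exact YoungDiagram.mem_iff_lt_rowLen.2 hm
      · rw [YoungDiagram.mem_iff_lt_colLen]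
        omega
    · unfold csp
      simp only
      rw [if_pos hij]
      omega

/-! ### doubles of strict partitions -/

/-- the number of elements of `B` above `t` -/
def N (B : Finset ℕ) (t : ℕ) : ℕ := (B.filter (fun b => t < b)).card

theorem N_anti (B : Finset ℕ) {s t : ℕ} (h : s ≤ t) : N B t ≤ N B s :=
  card_le_card (fun b hb => by rw [mem_filter] at hb ⊢; exact ⟨hb.1, by omega⟩)

theorem N_succ (B : Finset ℕ) (t : ℕ) : N B t = N B (t + 1) + (if t + 1 ∈ B then 1 else 0) := by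
  unfold N
  split_ifs with h
  · rw [← card_insert_of_notMem (s := B.filter (fun b => t + 1 < b)) (a := t + 1) (by simp)]
    congr 1
    ext b
    rw [mem_insert, mem_filter, mem_filter]
    constructor
    · rintro ⟨h1, h2⟩
      by_cases hb : b = t + 1
      · exact Or.inl hb
      · exact Or.inr ⟨h1, by omega⟩
    · rintro (rfl | ⟨h1, h2⟩)
      · exact ⟨h, by omega⟩
      · exact ⟨h1, by omega⟩
  · rw [add_zero]
    congr 1
    ext b
    rw [mem_filter, mem_filter]
    constructor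
    · rintro ⟨h1, h2⟩
      refine ⟨h1, ?_⟩
      by_contra hc
      apply h
      have : b = t + 1 := by omega
      rwa [← this]
    · rintro ⟨h1, h2⟩
      exact ⟨h1, by omega⟩

theorem N_mono (B : Finset ℕ) {s t : ℕ} (h : s ≤ t) : N B s + s ≤ N B t + t := by
  induction t, h using Nat.le_induction with
  | base => exact le_refl _
  | succ t _ ih =>
    have := N_succ B t
    split_ifs at this <;> omega

theorem N_le (B : Finset ℕ) (t : ℕ) : N B t ≤ B.card := card_le_card (filter_subset _ _)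

theorem N_zero_of_le (B : Finset ℕ) {t : ℕ} (h : B.sup id ≤ t) : N B t = 0 := by
  unfold N
  rw [card_eq_zero, filter_eq_empty_iff]
  intro b hb
  have : id b ≤ B.sup id := le_sup hb
  simp only [id] at this
  omega

/-- membership in the double of `B` -/
def P (B : Finset ℕ) (c : ℕ × ℕ) : Prop :=
  (c.1 ≤ c.2 ∧ c.1 < N B (c.2 - c.1)) ∨ (c.2 < c.1 ∧ c.2 < N B (c.1 - 1 - c.2))

instance (B : Finset ℕ) (c : ℕ × ℕ) : Decidable (P B c) := by unfold P; infer_instance

/-- the double of `B` -/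
def D (B : Finset ℕ) : YoungDiagram where
  cells := (range (B.card + B.sup id + 1) ×ˢ range (B.card + B.sup id + 1)).filter (P B)
  isLowerSet := by
    rintro ⟨i, j⟩ ⟨i', j'⟩ hle h
    rw [Prod.mk_le_mk] at hle
    obtain ⟨hi, hj⟩ := hle
    simp only [coe_filter, mem_product, mem_range, Set.mem_ofPred_eq] at h ⊢
    obtain ⟨⟨h1, h2⟩, h3⟩ := h
    refine ⟨⟨by omega, by omega⟩, ?_⟩
    unfold P at h3 ⊢
    simp only at h3 ⊢
    rcases h3 with ⟨h4, h5⟩ | ⟨h4, h5⟩
    · rcases Nat.lt_or_ge j' i' with h6 | h6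
      · right
        refine ⟨h6, ?_⟩
        rcases Nat.le_total (i' - 1 - j') (j - i) with h7 | h7
        · have := N_anti B h7; omega
        · have := N_mono B h7; omega
      · left
        refine ⟨h6, ?_⟩
        rcases Nat.le_total (j' - i') (j - i) with h7 | h7
        · have := N_anti B h7; omega
        · have := N_mono B h7; omega
    · rcases Nat.lt_or_ge j' i' with h6 | h6
      · right
        refine ⟨h6, ?_⟩
        rcases Nat.le_total (i' - 1 - j') (i - 1 - j) with h7 | h7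
        · have := N_anti B h7; omega
        · have := N_mono B h7; omega
      · left
        refine ⟨h6, ?_⟩
        rcases Nat.le_total (j' - i') (i - 1 - j) with h7 | h7
        · have := N_anti B h7; omega
        · have := N_mono B h7; omega

theorem mem_D {B : Finset ℕ} {c : ℕ × ℕ} : c ∈ D B ↔ P B c := by
  rw [← YoungDiagram.mem_cells]
  unfold D
  simp only
  rw [mem_filter, mem_product, mem_range, mem_range]
  constructor
  · exact fun h => h.2
  · intro h
    refine ⟨?_, h⟩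
    obtain ⟨i, j⟩ := c
    unfold P at h
    simp only at h ⊢
    rcases h with ⟨h4, h5⟩ | ⟨h4, h5⟩
    · have h6 := N_le B (j - i)
      have h7 : ¬ B.sup id ≤ j - i := fun h => by rw [N_zero_of_le B h] at h5; omega
      omega
    · have h6 := N_le B (i - 1 - j)
      have h7 : ¬ B.sup id ≤ i - 1 - j := fun h => by rw [N_zero_of_le B h] at h5; omega
      omega

theorem mem_D_of_le {B : Finset ℕ} {i j : ℕ} (h : i ≤ j) : (i, j) ∈ D B ↔ i < N B (j - i) := by
  rw [mem_D]
  unfold P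
  simp only
  constructor
  · rintro (h | h)
    · exact h.2
    · omega
  · intro h'
    exact Or.inl ⟨h, h'⟩

theorem dbl_D (B : Finset ℕ) : Dbl (D B) := by
  intro i j hij
  rw [mem_D_of_le hij, mem_D]
  unfold P
  simp only
  have e : j + 1 - 1 - i = j - i := by omega
  rw [e]
  constructor
  · intro h; exact Or.inr ⟨by omega, h⟩
  · rintro (h | h)
    · omega
    · exact h.2

theorem card_lower {μ : YoungDiagram} (h : Dbl μ) :
    μ.card = 2 * (μ.cells.filter (fun c => c.1 ≤ c.2)).card := by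
  have h1 : μ.card = (μ.cells.filter (fun c => c.1 ≤ c.2)).card +
      (μ.cells.filter (fun c => ¬ c.1 ≤ c.2)).card :=
    (card_filter_add_card_filter_not (fun c : ℕ × ℕ => c.1 ≤ c.2)).symm
  have h2 : (μ.cells.filter (fun c => ¬ c.1 ≤ c.2)).card =
      (μ.cells.filter (fun c => c.1 ≤ c.2)).card := by
    symm
    apply card_nbij' (fun c => (c.2 + 1, c.1)) (fun c => (c.2, c.1 - 1))
    · rintro ⟨i, j⟩ hc
      simp only [coe_filter, YoungDiagram.mem_cells, Set.mem_ofPred_eq] at hc ⊢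
      exact ⟨(h i j hc.2).1 hc.1, by omega⟩
    · rintro ⟨i, j⟩ hc
      simp only [coe_filter, YoungDiagram.mem_cells, Set.mem_ofPred_eq] at hc ⊢
      have := h j (i - 1) (by omega)
      rw [show i - 1 + 1 = i by omega] at this
      exact ⟨this.2 hc.1, by omega⟩
    · rintro ⟨i, j⟩ _; simp
    · rintro ⟨i, j⟩ hc
      simp only [coe_filter, YoungDiagram.mem_cells, Set.mem_ofPred_eq] at hc
      refine Prod.ext ?_ rfl
      simp only
      omega
  omega

theorem sum_N (B : Finset ℕ) (M : ℕ) (hM : B.sup id ≤ M) : ∑ t ∈ range M, N B t = ∑ b ∈ B, b := by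
  unfold N
  simp only [card_filter]
  rw [sum_comm]
  refine sum_congr rfl (fun b hb => ?_)
  have hb' : id b ≤ B.sup id := le_sup hb
  simp only [id] at hb'
  rw [← card_filter]
  have : (range M).filter (fun t => t < b) = range b := by
    ext t; rw [mem_filter, mem_range, mem_range]; omega
  rw [this, card_range]

theorem card_upper_D (B : Finset ℕ) :
    ((D B).cells.filter (fun c => c.1 ≤ c.2)).card = ∑ b ∈ B, b := by
  rw [← sum_N B (B.sup id) (le_refl _)]
  rw [card_eq_sum_card_fiberwise (f := fun c : ℕ × ℕ => c.2 - c.1) (t := range (B.sup id))]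
  · refine sum_congr rfl (fun t _ => ?_)
    rw [← card_range (N B t)]
    symm
    apply card_nbij' (fun i => (i, i + t)) (fun c => c.1)
    · intro i hi
      simp only [coe_range, Set.mem_Iio] at hi
      simp only [coe_filter, mem_filter, YoungDiagram.mem_cells, Set.mem_ofPred_eq]
      refine ⟨⟨?_, by omega⟩, by omega⟩
      rw [mem_D_of_le (by omega)]
      rwa [show i + t - i = t by omega]
    · rintro ⟨i, j⟩ hc
      simp only [coe_filter, mem_filter, YoungDiagram.mem_cells, Set.mem_ofPred_eq] at hc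
      obtain ⟨⟨h1, h2⟩, h3⟩ := hc
      rw [mem_D_of_le h2, h3] at h1
      simpa using h1
    · intro i _; rfl
    · rintro ⟨i, j⟩ hc
      simp only [coe_filter, mem_filter, YoungDiagram.mem_cells, Set.mem_ofPred_eq] at hc
      simp only [Prod.mk.injEq, true_and]
      omega
  · rintro ⟨i, j⟩ hc
    simp only [coe_filter, YoungDiagram.mem_cells, Set.mem_ofPred_eq] at hc
    simp only [coe_range, Set.mem_Iio]
    obtain ⟨h1, h2⟩ := hc
    rw [mem_D_of_le h2] at h1
    by_contra hcon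
    rw [N_zero_of_le B (by omega)] at h1
    omega

theorem card_D (B : Finset ℕ) : (D B).card = 2 * ∑ b ∈ B, b := by
  rw [card_lower (dbl_D B), card_upper_D]

open Classical in
/-- the strict partition of a double -/
noncomputable def Psi (μ : YoungDiagram) : Finset ℕ :=
  (range (μ.rowLen 0 + 1)).filter (fun b => 0 < b ∧ ∃ i, μ.rowLen i = i + b)

theorem mem_Psi {μ : YoungDiagram} {b : ℕ} : b ∈ Psi μ ↔ 0 < b ∧ ∃ i, μ.rowLen i = i + b := by
  classical
  unfold Psi
  rw [mem_filter, mem_range]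
  constructor
  · exact fun h => h.2
  · intro h
    refine ⟨?_, h⟩
    obtain ⟨_, i, hi⟩ := h
    have := μ.rowLen_anti 0 i (Nat.zero_le _)
    omega

theorem Psi_D {B : Finset ℕ} (hB : ∀ b ∈ B, 0 < b) : Psi (D B) = B := by
  ext b
  rw [mem_Psi]
  have key : 0 < b → ∀ i, ((D B).rowLen i = i + b ↔ (i < N B (b - 1) ∧ ¬ i < N B b)) := by
    intro hb i
    have h1 : (i, i + (b - 1)) ∈ D B ↔ i < N B (b - 1) := by
      rw [mem_D_of_le (by omega), show i + (b - 1) - i = b - 1 by omega]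
    have h2 : (i, i + b) ∈ D B ↔ i < N B b := by
      rw [mem_D_of_le (by omega), show i + b - i = b by omega]
    rw [YoungDiagram.mem_iff_lt_rowLen] at h1 h2
    rw [← h1, ← h2]
    omega
  constructor
  · rintro ⟨hb, i, hi⟩
    rw [key hb i] at hi
    have := N_succ B (b - 1)
    rw [show b - 1 + 1 = b by omega] at this
    by_contra hc
    rw [if_neg hc] at this
    omega
  · intro hb
    have hb0 := hB b hb
    refine ⟨hb0, N B b, ?_⟩
    rw [key hb0]
    have := N_succ B (b - 1)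
    rw [show b - 1 + 1 = b by omega, if_pos hb] at this
    omega

theorem lt_N_Psi (μ : YoungDiagram) (i t : ℕ) : i < N (Psi μ) t ↔ (i, i + t) ∈ μ := by
  classical
  have hex : ∃ q, (q, q + t) ∉ μ := by
    refine ⟨μ.rowLen 0, ?_⟩
    rw [YoungDiagram.mem_iff_lt_rowLen]
    have := μ.rowLen_anti 0 (μ.rowLen 0) (Nat.zero_le _)
    omega
  obtain ⟨q, hq, hmin⟩ : ∃ q, (q, q + t) ∉ μ ∧ ∀ k < q, (k, k + t) ∈ μ :=
    ⟨Nat.find hex, Nat.find_spec hex, fun k hk => not_not.1 (Nat.find_min hex hk)⟩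
  have hiff : ∀ k, (k, k + t) ∈ μ ↔ k < q := by
    intro k
    constructor
    · intro h
      by_contra hc
      exact hq (μ.up_left_mem (by omega) (by omega) h)
    · exact hmin k
  rw [hiff]
  have e : N (Psi μ) t = q := by
    unfold N
    have : (Psi μ).filter (fun b => t < b) = (range q).image (fun k => μ.rowLen k - k) := by
      ext b
      rw [mem_filter, mem_Psi, mem_image]
      constructor
      · rintro ⟨⟨h1, k, hk⟩, h3⟩
        refine ⟨k, ?_, by omega⟩
        rw [mem_range, ← hiff, YoungDiagram.mem_iff_lt_rowLen]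
        omega
      · rintro ⟨k, hk, rfl⟩
        rw [mem_range, ← hiff, YoungDiagram.mem_iff_lt_rowLen] at hk
        exact ⟨⟨by omega, k, by omega⟩, by omega⟩
    rw [this, card_image_of_injOn, card_range]
    intro k hk k' hk' heq
    simp only [coe_range, Set.mem_Iio] at hk hk'
    rw [← hiff, YoungDiagram.mem_iff_lt_rowLen] at hk hk'
    simp only at heq
    rcases Nat.lt_trichotomy k k' with h | h | h
    · have := μ.rowLen_anti k k' h.le
      omega
    · exact h
    · have := μ.rowLen_anti k' k h.le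
      omega
  rw [e]

theorem D_Psi {μ : YoungDiagram} (h : Dbl μ) : D (Psi μ) = μ := by
  have key : ∀ i j, i ≤ j → ((i, j) ∈ D (Psi μ) ↔ (i, j) ∈ μ) := by
    intro i j hij
    rw [mem_D_of_le hij, lt_N_Psi, show i + (j - i) = j by omega]
  apply YoungDiagram.ext
  ext ⟨i, j⟩
  rw [YoungDiagram.mem_cells, YoungDiagram.mem_cells]
  rcases Nat.lt_or_ge j i with h1 | h1
  · have h2 := h j (i - 1) (by omega)
    have h3 := dbl_D (Psi μ) j (i - 1) (by omega)
    rw [show i - 1 + 1 = i by omega] at h2 h3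
    rw [← h2, ← h3, key _ _ (by omega)]
  · exact key i j h1

/-! ### the generating function -/

theorem finite_card (n : ℕ) : {μ : YoungDiagram | μ.card = n}.Finite := by
  apply Set.Finite.of_finite_image (f := YoungDiagram.cells)
  · apply Set.Finite.subset (s := ((range (n + 1) ×ˢ range (n + 1)).powerset : Set (Finset (ℕ × ℕ))))
    · exact finite_toSet _
    · rintro s ⟨μ, hμ, rfl⟩
      simp only [Set.mem_ofPred_eq] at hμ
      rw [mem_coe, mem_powerset]
      rintro ⟨i, j⟩ hc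
      rw [YoungDiagram.mem_cells] at hc
      have h1 : μ.rowLen i ≤ n := by
        rw [μ.rowLen_eq_card, ← hμ]; exact card_le_card (filter_subset _ _)
      have h2 : μ.colLen j ≤ n := by
        rw [μ.colLen_eq_card, ← hμ]; exact card_le_card (filter_subset _ _)
      have h3 := YoungDiagram.mem_iff_lt_rowLen.1 hc
      have h4 := YoungDiagram.mem_iff_lt_colLen.1 hc
      rw [mem_product, mem_range, mem_range]
      constructor <;> simp only <;> omega
  · intro μ _ ν _ h
    exact YoungDiagram.ext h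

theorem a_eq (n K : ℕ) (hK : n ≤ K) :
    a n = ∑ B ∈ (Icc 1 K).powerset.filter (fun B => 2 * ∑ b ∈ B, b = n), (-1 : ℚ) ^ (∑ b ∈ B, b) := by
  classical
  have h1 : a n = ∑ μ ∈ (finite_card n).toFinset.filter Dbl,
      (-1 : ℚ) ^ (μ.cells.filter (fun c => c.1 ≤ c.2)).card := by
    unfold a
    rw [finsum_mem_eq_finite_toFinset_sum _ (finite_card n), sum_filter]
    refine sum_congr rfl (fun μ _ => ?_)
    split_ifs with h
    · exact prod_of_dbl h
    · obtain ⟨c, hc, h0⟩ := exists_zero h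
      exact prod_eq_zero hc (by rw [h0]; simp)
  rw [h1]
  symm
  apply sum_nbij' (fun B => D B) (fun μ => Psi μ)
  · intro B hB
    rw [mem_filter] at hB ⊢
    refine ⟨?_, dbl_D B⟩
    rw [Set.Finite.mem_toFinset, Set.mem_ofPred_eq, card_D]
    exact hB.2
  · intro μ hμ
    rw [mem_filter, Set.Finite.mem_toFinset, Set.mem_ofPred_eq] at hμ
    rw [mem_filter, mem_powerset]
    constructor
    · intro b hb
      rw [mem_Psi] at hb
      obtain ⟨hb, i, hi⟩ := hb
      have h2 := μ.rowLen_anti 0 i (Nat.zero_le _)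
      have h3 : μ.rowLen 0 ≤ n := by
        rw [μ.rowLen_eq_card, ← hμ.1]; exact card_le_card (filter_subset _ _)
      rw [mem_Icc]
      omega
    · rw [← card_D, D_Psi hμ.2]
      exact hμ.1
  · intro B hB
    rw [mem_filter, mem_powerset] at hB
    apply Psi_D
    intro b hb
    have := hB.1 hb
    rw [mem_Icc] at this
    omega
  · intro μ hμ
    rw [mem_filter] at hμ
    exact D_Psi hμ.2
  · intro B _
    rw [card_upper_D]

theorem a_eq_coeff (n K : ℕ) (hK : n ≤ K) :
    a n = coeff n (∏ b ∈ Icc 1 K, (1 + (-(X : ℚ⟦X⟧) ^ 2) ^ b)) := by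
  rw [a_eq n K hK, prod_one_add, map_sum, sum_filter]
  refine sum_congr rfl (fun B _ => ?_)
  rw [prod_pow_eq_pow_sum, neg_pow (X ^ 2 : ℚ⟦X⟧), ← pow_mul]
  have : ((-1 : ℚ⟦X⟧) ^ (∑ b ∈ B, b)) = C ((-1 : ℚ) ^ (∑ b ∈ B, b)) := by simp
  rw [this, coeff_C_mul, coeff_X_pow]
  split_ifs with h1 h2 h2
  · ring
  · exact absurd h1.symm h2
  · exact absurd h2.symm h1
  · ring

theorem prod_split (Q : ℚ⟦X⟧) (K : ℕ) :
    ∏ b ∈ range (2 * K), (1 - Q ^ (b + 1)) =
      (∏ k ∈ range K, (1 - Q ^ (2 * k + 1))) * ∏ k ∈ range K, (1 - (Q ^ 2) ^ (k + 1)) := by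
  induction K with
  | zero => simp
  | succ K ih =>
    rw [show 2 * (K + 1) = 2 * K + 1 + 1 by ring, prod_range_succ, prod_range_succ, ih,
      prod_range_succ, prod_range_succ]
    ring

theorem euler (Q : ℚ⟦X⟧) (hQ : constantCoeff Q = 0) (K : ℕ) :
    (∏ b ∈ range (2 * K), (1 + Q ^ (b + 1))) * ∏ k ∈ range K, (1 - Q ^ (2 * k + 1)) =
      ∏ k ∈ range K, (1 - (Q ^ 2) ^ (K + k + 1)) := by
  have h1 : (∏ b ∈ range (2 * K), (1 + Q ^ (b + 1))) * ∏ b ∈ range (2 * K), (1 - Q ^ (b + 1)) =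
      ∏ b ∈ range (2 * K), (1 - (Q ^ 2) ^ (b + 1)) := by
    rw [← prod_mul_distrib]
    refine prod_congr rfl (fun b _ => ?_)
    ring
  have h2 : ∏ b ∈ range (2 * K), (1 - (Q ^ 2) ^ (b + 1)) =
      (∏ b ∈ range K, (1 - (Q ^ 2) ^ (b + 1))) * ∏ k ∈ range K, (1 - (Q ^ 2) ^ (K + k + 1)) := by
    rw [two_mul, prod_range_add]
  have h3 : ∏ b ∈ range K, (1 - (Q ^ 2) ^ (b + 1)) ≠ 0 := by
    rw [prod_ne_zero_iff]
    intro b _ h
    have := congrArg constantCoeff h
    simp [hQ] at this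
  apply mul_right_cancel₀ h3
  rw [prod_split] at h1
  rw [mul_assoc, h1, h2]
  ring

theorem coeff_eq_of_dvd {n m : ℕ} (h : n < m) {f g : ℚ⟦X⟧} (hd : X ^ m ∣ f - g) :
    coeff n f = coeff n g := by
  have := (X_pow_dvd_iff.1 hd) n h
  rw [map_sub] at this
  linarith

theorem dvd_prod_sub_one {m : ℕ} {ι : Type*} (s : Finset ι) (f : ι → ℚ⟦X⟧)
    (h : ∀ i ∈ s, X ^ m ∣ f i - 1) : X ^ m ∣ ∏ i ∈ s, f i - 1 := by
  classical
  induction s using Finset.induction_on with
  | empty => simp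
  | insert i s hi ih =>
    rw [prod_insert hi]
    have h1 := h i (mem_insert_self _ _)
    have h2 := ih (fun j hj => h j (mem_insert_of_mem hj))
    have : f i * ∏ j ∈ s, f j - 1 = f i * (∏ j ∈ s, f j - 1) + (f i - 1) := by ring
    rw [this]
    exact dvd_add (dvd_mul_of_dvd_right h2 _) h1

theorem coeff_prod (n K : ℕ) (hK : n ≤ K) :
    a n = coeff n (∏ k ∈ range K, ((1 + X ^ (4 * (k + 1) - 2))⁻¹ : ℚ⟦X⟧)) := by
  rw [a_eq_coeff n (2 * K) (by omega)]
  set Q : ℚ⟦X⟧ := -X ^ 2 with hQ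
  have hcc : ∀ k, constantCoeff (1 + X ^ (4 * (k + 1) - 2) : ℚ⟦X⟧) ≠ 0 := by
    intro k
    have : 4 * (k + 1) - 2 ≠ 0 := by omega
    simp [this]
  have e1 : ∏ b ∈ Icc 1 (2 * K), (1 + Q ^ b) = ∏ b ∈ range (2 * K), (1 + Q ^ (b + 1)) := by
    rw [range_eq_Ico, prod_Ico_add' (fun b => 1 + Q ^ b) 0 (2 * K) 1]
    congr 1
  have e2 : ∏ k ∈ range K, (1 - Q ^ (2 * k + 1)) =
      ∏ k ∈ range K, (1 + X ^ (4 * (k + 1) - 2) : ℚ⟦X⟧) := by
    refine prod_congr rfl (fun k _ => ?_)
    rw [hQ, neg_pow, ← pow_mul, show 4 * (k + 1) - 2 = 2 * (2 * k + 1) by omega]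
    have : (-1 : ℚ⟦X⟧) ^ (2 * k + 1) = -1 := by rw [pow_succ, pow_mul]; simp
    rw [this]; ring
  have e3 := euler Q (by rw [hQ]; simp) K
  rw [e2] at e3
  have e4 : (∏ k ∈ range K, (1 + X ^ (4 * (k + 1) - 2) : ℚ⟦X⟧)) *
      ∏ k ∈ range K, ((1 + X ^ (4 * (k + 1) - 2))⁻¹ : ℚ⟦X⟧) = 1 := by
    rw [← prod_mul_distrib]
    apply prod_eq_one
    intro k _
    exact PowerSeries.mul_inv_cancel _ (hcc k)
  have e5 : ∏ b ∈ range (2 * K), (1 + Q ^ (b + 1)) =
      (∏ k ∈ range K, (1 - (Q ^ 2) ^ (K + k + 1))) *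
        ∏ k ∈ range K, ((1 + X ^ (4 * (k + 1) - 2))⁻¹ : ℚ⟦X⟧) := by
    rw [← e3, mul_assoc, e4, mul_one]
  rw [e1, e5]
  apply coeff_eq_of_dvd (m := n + 1) (by omega)
  have e6 : X ^ (n + 1) ∣ ∏ k ∈ range K, (1 - (Q ^ 2) ^ (K + k + 1)) - 1 := by
    apply dvd_prod_sub_one
    intro k _
    have : (1 - (Q ^ 2) ^ (K + k + 1)) - 1 = - X ^ (4 * (K + k + 1)) := by
      rw [hQ]; ring
    rw [this, dvd_neg]
    exact pow_dvd_pow _ (by omega)
  have : (∏ k ∈ range K, (1 - (Q ^ 2) ^ (K + k + 1))) *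
        ∏ k ∈ range K, ((1 + X ^ (4 * (k + 1) - 2))⁻¹ : ℚ⟦X⟧) -
        ∏ k ∈ range K, ((1 + X ^ (4 * (k + 1) - 2))⁻¹ : ℚ⟦X⟧) =
      (∏ k ∈ range K, (1 - (Q ^ 2) ^ (K + k + 1)) - 1) *
        ∏ k ∈ range K, ((1 + X ^ (4 * (k + 1) - 2))⁻¹ : ℚ⟦X⟧) := by ring
  rw [this]
  exact dvd_mul_of_dvd_left e6 _

theorem dvd_inv_sub_one {m : ℕ} {f : ℚ⟦X⟧} (hf : constantCoeff f ≠ 0) (h : X ^ m ∣ f - 1) :
    X ^ m ∣ f⁻¹ - 1 := by
  have : f⁻¹ - 1 = - (f - 1) * f⁻¹ := by
    have := PowerSeries.mul_inv_cancel f hf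
    linear_combination this
  rw [this]
  exact dvd_mul_of_dvd_left (by rwa [dvd_neg]) _

open scoped PowerSeries.WithPiTopology in
/-- The sums `a_n` range over finitely many diagrams; the coefficient of `x^n` in the partial
products of `∏_{k ≥ 1} (1 + x^{4k-2})⁻¹` is `a_n` as soon as there are at least `n` factors, and so
`∑ a_n x^n` is the infinite product. -/
theorem result :
    (∀ n, {μ : YoungDiagram | μ.card = n}.Finite) ∧
    (∀ n K, n ≤ K → a n = coeff n (∏ k ∈ range K, ((1 + X ^ (4 * (k + 1) - 2))⁻¹ : ℚ⟦X⟧))) ∧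
    HasProd (fun k : ℕ => ((1 + X ^ (4 * (k + 1) - 2))⁻¹ : ℚ⟦X⟧)) (PowerSeries.mk a) := by
  refine ⟨finite_card, coeff_prod, ?_⟩
  unfold HasProd
  rw [SummationFilter.unconditional_filter, PowerSeries.WithPiTopology.tendsto_iff_coeff_tendsto]
  intro n
  apply tendsto_const_nhds.congr'
  filter_upwards [Filter.eventually_ge_atTop (range (n + 1))] with s hs
  obtain ⟨K, hK⟩ : ∃ K, s ⊆ range K := by
    refine ⟨s.sup id + 1, fun k hk => ?_⟩
    rw [mem_range]
    have : id k ≤ s.sup id := le_sup hk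
    simp only [id] at this
    omega
  have hnK : n ≤ K := by
    have := hK (hs (mem_range.2 (Nat.lt_succ_self n)))
    rw [mem_range] at this
    omega
  rw [coeff_mk, coeff_prod n K hnK, ← prod_sdiff hK]
  apply coeff_eq_of_dvd (m := n + 1) (by omega)
  have e6 : X ^ (n + 1) ∣ ∏ k ∈ range K \ s, ((1 + X ^ (4 * (k + 1) - 2))⁻¹ : ℚ⟦X⟧) - 1 := by
    apply dvd_prod_sub_one
    intro k hk
    rw [mem_sdiff] at hk
    have hk2 : n + 1 ≤ k := by
      by_contra hc
      exact hk.2 (hs (mem_range.2 (by omega)))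
    apply dvd_inv_sub_one
    · have : 4 * (k + 1) - 2 ≠ 0 := by omega
      simp [this]
    · rw [add_sub_cancel_left]
      exact pow_dvd_pow _ (by omega)
  have : (∏ k ∈ range K \ s, ((1 + X ^ (4 * (k + 1) - 2))⁻¹ : ℚ⟦X⟧)) *
        ∏ k ∈ s, ((1 + X ^ (4 * (k + 1) - 2))⁻¹ : ℚ⟦X⟧) -
        ∏ k ∈ s, ((1 + X ^ (4 * (k + 1) - 2))⁻¹ : ℚ⟦X⟧) =
      (∏ k ∈ range K \ s, ((1 + X ^ (4 * (k + 1) - 2))⁻¹ : ℚ⟦X⟧) - 1) *
        ∏ k ∈ s, ((1 + X ^ (4 * (k + 1) - 2))⁻¹ : ℚ⟦X⟧) := by ring
  rw [this]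
  exact dvd_mul_of_dvd_left e6 _

end Pool.Agent.Results.MP_3e0fcf_co.SymplecticContent
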