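import Pool.Agent.Q255.FG.Final
import Pool.Agent.Q255.FG.U0

/-!
# Large values of twisted central sums on cosets of characters, for almost every twist

`f ω` is a random completely multiplicative function: the values `f ω p` at the primes are independent and
uniform on the unit circle (`PT`: Haar measure of the infinite torus), `S ω χ n = ∑_{m ≤ n} f(m) χ(m) / √m`,
`big v q = exp (v √(log q log log q))`, `cos q χ H` is the coset `χ H`.

For almost every `f`: for all but `Q exp (-(log Q)^c)` primes `q ≤ Q`, for every subgroup `H` and all but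
`exp (-(log q)^c) (q - 1)` characters `χ₀`, the coset `C = χ₀ H` satisfies the large deviation law
`#{χ ∈ C : max_{n ≤ q} |S(χ, n)| ≥ big v q} = #C q^(-2v² + o(1))` in the whole range in which the right side is
`≥ q^ε`, and the maximum over `C` is `exp ((√(θ/2) + O(ε)) √(log q log log q))` with `#C = q^θ`. Over all moduli
the upper bound `exp ((1 + ε) √(log q log log q))` holds, and `1` cannot be replaced by a smaller constant.
-/

set_option autoImplicit false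

open MeasureTheory

namespace Pool.Agent.Results.MP_3e6494_nt.AlmostEveryTwist

open Q289.PAM Pool.Agent.Q255.RM Pool.Agent.Q255.FG

theorem result :
    (∀ᵐ ω ∂PT, ∀ ε : ℝ, 0 < ε → ε ≤ 1 → ∃ c : ℝ, 0 < c ∧ ∃ Q₀ : ℕ, ∀ Q : ℕ, Q₀ ≤ Q →
      ({q : ℕ | q ≤ Q ∧ q.Prime ∧ ∃ H : Subgroup (DirichletCharacter ℂ q),
          Real.exp (-(Real.log q ^ c)) * (q - 1) <
            ({χ₀ | ¬ (LawC ε q (cos q χ₀ H) ω ∧ MaxLaw ε q (cos q χ₀ H) ω)}.ncard : ℝ)}.ncard : ℝ) ≤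
        Q * Real.exp (-(Real.log Q ^ c))) ∧
    (∀ᵐ ω ∂PT, ∀ ε : ℝ, 0 < ε →
      (∃ Q₀ : ℕ, ∀ q : ℕ, Q₀ ≤ q → ∀ χ : DirichletCharacter ℂ q, ∀ n ≤ q,
        ‖∑ m ∈ Finset.Icc 1 n, f ω m * χ m / (Real.sqrt m : ℂ)‖ <
          Real.exp ((1 + ε) * Real.sqrt (Real.log q * Real.log (Real.log q)))) ∧
      ∃ Q₀ : ℕ, ∀ Q : ℕ, Q₀ ≤ Q → ∃ q : ℕ, q.Prime ∧ Q < q ∧ q ≤ 4 * Q ∧
        ∃ χ : DirichletCharacter ℂ q, χ ≠ 1 ∧ ∃ n ≤ q,
          Real.exp ((1 - ε) * Real.sqrt (Real.log q * Real.log (Real.log q))) ≤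
            ‖∑ m ∈ Finset.Icc 1 n, f ω m * χ m / (Real.sqrt m : ℂ)‖) := by
  exact all (u0 Pool.Agent.Q154.FG.one Pool.Agent.Q211.FG.prod Pool.Agent.Q211.FG.a1)

end Pool.Agent.Results.MP_3e6494_nt.AlmostEveryTwist
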