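import Pool.Agent.Y879.PR.Win
import Pool.Agent.Q236.GW.Pair

set_option autoImplicit false

/-!
# Every admissible pattern of consecutive almost primes with an actual prime at a prescribed place

Let `h : Fin k → ℕ` (`k ≥ 2`) be an admissible pattern which contains `0`, and let `M` be the product of the primes
`p ≤ y`. There are residue classes `c` modulo `M` such that for all `n ≡ c` all `n + h i` are prime to `M`, while every
other number between `n` and the largest `n + h i` has a prime factor `p ≤ y`: the `n + h i` are consecutive among the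
numbers without prime factors `≤ y`, and all other numbers between them are composite. For every such class and
EVERY place `i`, the number of the `n = M x + c`, `x ∈ (u, u + Y]`, for which `n + h i` is a PRIME and all `n + h j` have no
prime factors `≤ N ^ (1 / r)` (hence at most `2 r` prime factors) is `(1 + O(ε)) Y W / log N`, if `Y ≥ δ N`,
`u + Y ≤ N`, with the product `W` of the local densities; and the number of the next `x' ∈ (x, x + T]` with no
prime factors `≤ N ^ (1 / r)` of the `M x' + c + h j` has the Poisson law of the expected mean, up to `ε`.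
-/

namespace Pool.Agent.Results.MP_3ec731_nt.ConsecutiveWithPrime

open Finset Filter

open Classical in
/-- The residue classes `c` modulo the product `M` of the primes `p ≤ y` for which all `c + h i` are prime to `M`, and
no other number between `c` and the largest `c + h i` is prime to `M`. -/
noncomputable def Cls {k : ℕ} (y : ℕ) (h : Fin k → ℕ) : Finset ℕ :=
  (Finset.range (primorial y)).filter (fun c => (∀ i, Nat.Coprime (primorial y) (c + h i)) ∧
    ∀ a : ℕ, (∃ i, a < h i) → (∀ i, a ≠ h i) → ¬ Nat.Coprime (primorial y) (c + a))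

/-- No prime `p ≤ N ^ (1 / r)` divides any `n + h i`. -/
def Good {k : ℕ} (h : Fin k → ℕ) (N r n : ℕ) : Prop :=
  ∀ p : ℕ, p.Prime → (p : ℝ) ≤ (N : ℝ) ^ (1 / (r : ℝ)) → ∀ i, ¬ p ∣ n + h i

/-- `0` for the primes `p ≤ y`, otherwise `k` -/
def ν (y k p : ℕ) : ℕ := if p ≤ y then 0 else k

/-- The product of `1 - ν(p) / p` over the primes `p ≤ N ^ (1 / r)`. -/
noncomputable def V (y k N r : ℕ) : ℝ :=
  ∏ p ∈ (Finset.Icc 1 ⌊(N : ℝ) ^ (1 / (r : ℝ))⌋₊).filter Nat.Prime, (1 - (ν y k p : ℝ) / p)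

/-- The product of `(1 - ν(p) / p) / (1 - 1 / p)` over the primes `p ≤ N ^ (1 / r)`. -/
noncomputable def W (y k N r : ℕ) : ℝ :=
  ∏ p ∈ (Finset.Icc 1 ⌊(N : ℝ) ^ (1 / (r : ℝ))⌋₊).filter Nat.Prime, (1 - (ν y k p : ℝ) / p) / (1 - 1 / (p : ℝ))

open Classical in
/-- The `x ∈ (u, u + Y]` for which `n = M x + c` is good and `n + h i` is prime. -/
noncomputable def P {k : ℕ} (y : ℕ) (h : Fin k → ℕ) (N r c : ℕ) (i : Fin k) (u Y : ℕ) : Finset ℕ :=
  (Finset.Ioc u (u + Y)).filter (fun x => (primorial y * x + c + h i).Prime ∧ Good h N r (primorial y * x + c))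

open Classical in
/-- The number of the `x' ∈ (x, x + T]` for which `M x' + c` is good. -/
noncomputable def next {k : ℕ} (y : ℕ) (h : Fin k → ℕ) (N r c T x : ℕ) : ℕ :=
  ((Finset.Ioc x (x + T)).filter (fun x' => Good h N r (primorial y * x' + c))).card

open Pool.Agent.W123.RU Pool.Agent.H373R2.T7 Pool.Agent.TH464.PO Pool.Agent.W123.RP
open Pool.Agent.Y879.PR
open Pool.Agent.W123.RU.Poly (Q)

lemma nth_gt (n : ℕ) : n < Nat.nth Nat.Prime n := by
  have h1 : (Nat.nth Nat.Prime n).Prime := Nat.prime_nth_prime n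
  by_contra hcon
  rw [not_lt] at hcon
  have h2 : n + 2 ≤ Nat.nth Nat.Prime n := Nat.add_two_le_nth_prime n
  omega

/-- there are such classes -/
lemma cls_ne {k : ℕ} (h : Fin k → ℕ) (hadm : ∀ q : ℕ, q.Prime → ∃ a : ℕ, ∀ i, ¬ q ∣ a + h i) :
    ∃ y₀ : ℕ, ∀ y : ℕ, y₀ ≤ y → (Cls y h).Nonempty := by
  classical
  obtain ⟨D, hD⟩ : ∃ D : ℕ, ∀ i, h i < D := ⟨(∑ i, h i) + 1, fun i => by
    have := Finset.single_le_sum (f := h) (fun _ _ => Nat.zero_le _) (Finset.mem_univ i)
    omega⟩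
  refine ⟨Nat.nth Nat.Prime (2 * D), fun y hy => ?_⟩
  choose! b hb using hadm
  -- the prescribed residues
  obtain ⟨R, hR⟩ : ∃ R : ℕ → ℕ, R = fun p => if hp : ∃ a : ℕ, a < D ∧ (∀ i, a ≠ h i) ∧ p = Nat.nth Nat.Prime (D + a)
      then p - hp.choose else b p := ⟨_, rfl⟩
  obtain ⟨c, hc⟩ := Nat.chineseRemainderOfFinset R id ((range (y + 1)).filter Nat.Prime)
    (fun i hi => (mem_filter.1 hi).2.ne_zero)
    (by
      intro p hp q hq hpq
      exact (Nat.coprime_primes (mem_filter.1 hp).2 (mem_filter.1 hq).2).2 hpq)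
  have hpos : 0 < primorial y := primorial_pos y
  have hmod : ∀ p : ℕ, p.Prime → p ≤ y → c % primorial y ≡ R p [MOD p] := by
    intro p hp hpy
    have h1 : c % primorial y ≡ c [MOD p] := (Nat.mod_modEq c _).of_dvd (dvd_pri hp hpy)
    exact h1.trans (hc p (mem_filter.2 ⟨mem_range.2 (by omega), hp⟩))
  refine ⟨c % primorial y, mem_filter.2 ⟨mem_range.2 (Nat.mod_lt _ hpos), ?_, ?_⟩⟩
  · intro i
    apply Nat.Coprime.symm
    apply Nat.coprime_of_dvd
    intro p hp hpc hpM
    have hpy := le_of_dvd_pri hp hpM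
    have h1 := (hmod p hp hpy).add_right (h i)
    have h2 : R p + h i ≡ 0 [MOD p] := h1.symm.trans ((Nat.modEq_zero_iff_dvd).2 hpc)
    have h3 : p ∣ R p + h i := (Nat.modEq_zero_iff_dvd).1 h2
    rw [hR] at h3
    simp only at h3
    split_ifs at h3 with hex
    · obtain ⟨g1, g2, g3⟩ := hex.choose_spec
      obtain ⟨a, ha⟩ : ∃ a, a = hex.choose := ⟨_, rfl⟩
      rw [← ha] at g1 g2 g3 h3
      have hpD : D + a < p := by
        rw [g3]
        exact nth_gt _
      have hhi := hD i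
      have hne := g2 i
      -- `p - a + h i` is strictly between `0` and `2 p`, different from `p`
      obtain ⟨e, he⟩ := h3
      have h4 : p * e < p * 2 := by omega
      have h5 : e < 2 := lt_of_mul_lt_mul_left h4 (Nat.zero_le _)
      have h6 : e ≠ 0 := by
        rintro rfl
        omega
      have h7 : e = 1 := by omega
      rw [h7] at he
      omega
    · exact hb p hp i h3
  · intro a hai hane hcop
    obtain ⟨i, hi⟩ := hai
    have haD : a < D := lt_trans hi (hD i)
    obtain ⟨p, hp⟩ : ∃ p, p = Nat.nth Nat.Prime (D + a) := ⟨_, rfl⟩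
    have hpp : p.Prime := by rw [hp]; exact Nat.prime_nth_prime _
    have hpy : p ≤ y := by
      refine le_trans ?_ hy
      rw [hp]
      exact (Nat.nth_strictMono Nat.infinite_setOfPred_prime).monotone (by omega)
    have hpD : D + a < p := by rw [hp]; exact nth_gt _
    have hex : ∃ a : ℕ, a < D ∧ (∀ i, a ≠ h i) ∧ p = Nat.nth Nat.Prime (D + a) := ⟨a, haD, hane, hp⟩
    have hRp : R p = p - a := by
      rw [hR]
      simp only
      rw [dif_pos hex]
      have h2 : Nat.nth Nat.Prime (D + a) = Nat.nth Nat.Prime (D + hex.choose) :=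
        hp.symm.trans hex.choose_spec.2.2
      have h3 := (Nat.nth_strictMono Nat.infinite_setOfPred_prime).injective h2
      omega
    have h1 := (hmod p hpp hpy).add_right a
    rw [hRp, Nat.sub_add_cancel (by omega)] at h1
    have h2 : p ∣ c % primorial y + a :=
      (Nat.modEq_zero_iff_dvd).1 (h1.trans ((Nat.modEq_zero_iff_dvd).2 (dvd_refl p)))
    have h3 := Nat.dvd_gcd (dvd_pri hpp hpy) h2
    rw [hcop] at h3
    exact hpp.one_lt.ne' (Nat.dvd_one.1 h3)

lemma good_iff {k y : ℕ} (h : Fin k → ℕ) (N r c x : ℕ) :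
    Sf (Q (tf (primorial y) (fun i => c + h i))) ⌊(N : ℝ) ^ (1 / (r : ℝ))⌋₊ x ↔
      Good h N r (primorial y * x + c) := (pg_iff (M := primorial y) (h := h) c x N r).symm

lemma mem_cl {k y : ℕ} {h : Fin k → ℕ} {c : ℕ} (hc : c ∈ Cls y h) : c ∈ Pool.Agent.Y879.PR.Cl y h := by
  classical
  unfold Cls at hc
  unfold Pool.Agent.Y879.PR.Cl
  rw [Finset.mem_filter] at hc ⊢
  exact ⟨hc.1, hc.2.1⟩

lemma pnu_eq (y k p : ℕ) (hp : p.Prime) : pnu (primorial y) k p = ν y k p := by
  unfold pnu ν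
  by_cases hpy : p ≤ y
  · rw [if_pos hpy, if_pos (dvd_pri hp hpy)]
  · rw [if_neg hpy, if_neg (fun hd => hpy (le_of_dvd_pri hp hd))]

lemma V_eq (y k N r : ℕ) : V y k N r = PV (primorial y) k N r := by
  unfold V PV
  apply Finset.prod_congr rfl
  intro p hp
  rw [pnu_eq y k p (Finset.mem_filter.1 hp).2]

lemma W_eq (y k N r : ℕ) : W y k N r = PV (primorial y) k N r / Vz ⌊(N : ℝ) ^ (1 / (r : ℝ))⌋₊ := by
  rw [← PW_eq]
  unfold W PW
  apply Finset.prod_congr rfl
  intro p hp
  rw [pnu_eq y k p (Finset.mem_filter.1 hp).2]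

lemma few (N r m : ℕ) (hr : 1 ≤ r) (hN : 2 ^ r ≤ N) (hm : 0 < m) (hmN : m ≤ N ^ 2)
    (h : ∀ p : ℕ, p.Prime → p ∣ m → (N : ℝ) ^ (1 / (r : ℝ)) < (p : ℝ)) :
    m.primeFactorsList.length ≤ 2 * r := by
  have hr0 : (r : ℝ) ≠ 0 := by exact_mod_cast (by omega : r ≠ 0)
  have hX1 : (1 : ℝ) ≤ N := by
    have : 1 ≤ 2 ^ r := Nat.one_le_two_pow
    exact_mod_cast this.trans hN
  have hz1 : 1 ≤ (N : ℝ) ^ (1 / (r : ℝ)) := Real.one_le_rpow hX1 (by positivity)
  apply length_le m (2 * r) (by omega) _ h _ hz1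
  have e : ((N : ℝ) ^ (1 / (r : ℝ))) ^ r = N := by
    rw [← Real.rpow_natCast, ← Real.rpow_mul (by linarith), one_div, inv_mul_cancel₀ hr0, Real.rpow_one]
  have hmX' : (m : ℝ) ≤ (N : ℝ) ^ 2 := by exact_mod_cast hmN
  rw [pow_succ, mul_comm 2 r, pow_mul, e]
  have h0 : (0 : ℝ) ≤ (N : ℝ) ^ 2 := by positivity
  nlinarith

/-- **Every admissible pattern of consecutive almost primes with an actual prime at a prescribed place.** -/
theorem result (k : ℕ) (hk : 2 ≤ k) (h : Fin k → ℕ) (hinj : Function.Injective h) (h0 : ∃ i, h i = 0)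
    (hadm : ∀ q : ℕ, q.Prime → ∃ a : ℕ, ∀ i, ¬ q ∣ a + h i) :
    (∃ y₀ : ℕ, ∀ y : ℕ, y₀ ≤ y → (Cls y h).Nonempty) ∧
    ∀ y : ℕ, 3 ≤ y → (∀ i, h i < y) → ∀ c ∈ Cls y h,
      (∀ x : ℕ, 1 ≤ x → ∀ a : ℕ, (∃ i, a < h i) → (∀ i, a ≠ h i) →
        ∃ p : ℕ, p.Prime ∧ p ≤ y ∧ p ∣ primorial y * x + c + a ∧ ¬ (primorial y * x + c + a).Prime) ∧
      (∀ x : ℕ, ∀ i, ∀ p : ℕ, p.Prime → p ≤ y → ¬ p ∣ primorial y * x + c + h i) ∧
      ∀ δ : ℝ, 0 < δ → δ ≤ 1 → ∀ x₀ ε : ℝ, 0 < ε → ε ≤ 1 → ∃ r₀ : ℕ, 2 ≤ r₀ ∧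
        ∀ r : ℕ, r₀ ≤ r → ∀ᶠ N : ℕ in atTop, 0 < V y k N r ∧ 0 < W y k N r ∧
          (∀ x : ℕ, x ≤ N → Good h N r (primorial y * x + c) →
            ∀ i, (primorial y * x + c + h i).primeFactorsList.length ≤ 2 * r) ∧
          ∀ (i : Fin k) (u Y : ℕ), δ * N ≤ Y → u + Y ≤ N →
            |((P y h N r c i u Y).card : ℝ) * Real.log N - Y * W y k N r| ≤ ε * (Y * W y k N r) ∧
            ∀ T : ℕ, T * V y k N r ≤ x₀ → ∀ B : Finset ℕ,
              |(((P y h N r c i u Y).filter (fun x => next y h N r c T x ∈ B)).card : ℝ) -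
                (P y h N r c i u Y).card *
                  ∑ j ∈ B, Real.exp (-(T * V y k N r)) * (T * V y k N r) ^ j / (j.factorial : ℝ)| ≤
                ε * (P y h N r c i u Y).card := by
  classical
  refine ⟨cls_ne h hadm, ?_⟩
  intro y hy3 hy c hc
  have hc' := mem_cl hc
  have hpat := pat_adm hk hy3 hinj hy h0
  have hcl := hc
  unfold Cls at hcl
  rw [Finset.mem_filter, Finset.mem_range] at hcl
  obtain ⟨hcM, hc1, hc2⟩ := hcl
  have hMpos : 0 < primorial y := primorial_pos y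
  have hyM : y ≤ primorial y := le_pri y hy3
  refine ⟨?_, ?_, ?_⟩
  · intro x hx a ha1 ha2
    have h1 := hc2 a ha1 ha2
    obtain ⟨p, hp, hp1, hp2⟩ := Nat.Prime.not_coprime_iff_dvd.1 h1
    have hpy := le_of_dvd_pri hp hp1
    have hd : p ∣ primorial y * x + c + a := by
      rw [add_assoc]
      exact dvd_add (hp1.mul_right x) hp2
    refine ⟨p, hp, hpy, hd, ?_⟩
    intro hprime
    have h2 := (Nat.prime_dvd_prime_iff_eq hp hprime).1 hd
    have h3 : primorial y * 1 ≤ primorial y * x := Nat.mul_le_mul_left _ hx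
    have hc0 : 1 < c := hpat.one c hc'
    omega
  · intro x i p hp hpy hd
    have h1 : p ∣ c + h i := by
      rw [add_assoc] at hd
      exact (Nat.dvd_add_right ((dvd_pri hp hpy).mul_right x)).1 hd
    have h2 := Nat.dvd_gcd (dvd_pri hp hpy) h1
    rw [hc1 i] at h2
    exact hp.one_lt.ne' (Nat.dvd_one.1 h2)
  · intro δ hδ hδ1 x₀ ε hε hε1
    obtain ⟨r₀, hr₀, hlaw⟩ := tup_prime (hpat.tup c hc') 1 δ one_pos hδ hδ1 x₀ ε hε hε1
    refine ⟨r₀, hr₀, ?_⟩
    intro r hr
    filter_upwards [hlaw r hr, eventually_ge_atTop (2 ^ r), eventually_ge_atTop (primorial y + c + y + 2)]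
      with N hN hN2r hNbig
    obtain ⟨hVpos, hN'⟩ := hN
    have hVe : Vq (Q (tf (primorial y) (fun i => c + h i))) ⌊(N : ℝ) ^ (1 / (r : ℝ))⌋₊ = V y k N r := by
      rw [V_eq]
      exact (hpat.V_eq c hc' N r).symm
    have hWe : Vq (Q (tf (primorial y) (fun i => c + h i))) ⌊(N : ℝ) ^ (1 / (r : ℝ))⌋₊ /
        Vz ⌊(N : ℝ) ^ (1 / (r : ℝ))⌋₊ = W y k N r := by
      rw [W_eq, hpat.V_eq c hc' N r]
    rw [hVe] at hVpos
    refine ⟨hVpos, ?_, ?_, ?_⟩
    · rw [← hWe, hVe]
      exact div_pos hVpos (Pool.Agent.H373R2.T7.Vz_pos _)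
    · intro x hx hG i
      have hhi := hy i
      have hc0 : 1 < c := hpat.one c hc'
      have hr1 : 1 ≤ r := by omega
      apply few N r _ hr1 hN2r (by omega) _ (by
        intro p hp hd
        by_contra hcon
        rw [not_lt] at hcon
        exact hG p hp hcon i hd)
      have h1 : primorial y * x ≤ primorial y * N := Nat.mul_le_mul_left _ hx
      have h2 : (primorial y + 1) * N ≤ N * N := Nat.mul_le_mul_right _ (by omega)
      have h3 : c + h i ≤ N := by omega
      calc primorial y * x + c + h i ≤ primorial y * N + N := by omega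
        _ = (primorial y + 1) * N := by ring
        _ ≤ N * N := h2
        _ = N ^ 2 := by ring
    · intro i u Y hY huY
      have hmain := hN' i N (by rw [Real.rpow_one]) u Y hY huY
      rw [hWe, hVe] at hmain
      have e1 : Sf (Q (tf (primorial y) (fun i => c + h i))) ⌊(N : ℝ) ^ (1 / (r : ℝ))⌋₊ =
          fun x => Good h N r (primorial y * x + c) := by
        funext x
        exact propext (good_iff h N r c x)
      have e2 : Om (primorial y) (c + h i) (Q (tf (primorial y) (fun i => c + h i)))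
          ⌊(N : ℝ) ^ (1 / (r : ℝ))⌋₊ u Y = P y h N r c i u Y := by
        unfold Om P
        rw [e1]
        apply Finset.filter_congr
        intro n _
        rw [add_assoc]
      rw [e2] at hmain
      refine ⟨hmain.1, fun T hT B => ?_⟩
      have h3 := hmain.2 T hT B
      have e3 : (P y h N r c i u Y).filter (fun n => Wc (Sf (Q (tf (primorial y) (fun i => c + h i)))
          ⌊(N : ℝ) ^ (1 / (r : ℝ))⌋₊) n T ∈ B) =
          (P y h N r c i u Y).filter (fun x => next y h N r c T x ∈ B) := by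
        unfold next Wc
        rw [e1]
      rw [e3] at h3
      exact h3

end Pool.Agent.Results.MP_3ec731_nt.ConsecutiveWithPrime
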