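import Pool.Agent.Q197.CI.D2

/-!
# Primes `p < n` making `⌊(n - p) / m⌋` prime, in Cramér's random model

`A` is Cramér's random model of the primes: the events `n ∈ A`, `n ≥ 3`, are independent with the probabilities
`1 / log n`. The second question asks for a prime `p < n` such that `q = ⌊(n - p) / m⌋` and `q ^ 2 - 2` are primes. In
the model, almost surely, such a `p` exists for all pairs `(m, n)` with `n ≥ C` and `n ≥ C m`, for some `C`; and for
every `m` the largest such `p` is at distance at most `(8 + o(1)) log² n (log log n)²` from `n`, where the constant `8`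
cannot be replaced by a smaller one. The exponents of the numbers of the exceptional `n` and the typical values of the
distance are determined as well; they do not depend on `m`.
-/

set_option autoImplicit false

namespace Pool.Agent.Results.MP_4011c3_nt.RandomPrimesAllPairs

open MeasureTheory Filter Pool.Agent.Q120.MF Pool.Agent.Q197.CI
open scoped Topology

/-- `q` and `q ^ 2 - 2` are elements of `S`. -/
def Good (S : Set ℕ) (q : ℕ) : Prop := 3 ≤ q ∧ q ∈ S ∧ q ^ 2 - 2 ∈ S

/-- `p` is as in the second question for `(m, n)`, with `S` in place of the set of the primes. -/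
def Adm (S : Set ℕ) (m n p : ℕ) : Prop := p < n ∧ p ∈ S ∧ Good S ((n - p) / m)

/-- No `p` as in the question is at distance at most `y` from `n`. -/
def Far (S : Set ℕ) (m n : ℕ) (y : ℝ) : Prop := ∀ p : ℕ, (n : ℝ) - p ≤ y → ¬ Adm S m n p

theorem result :
    (∃ (Ω : Type) (_ : MeasurableSpace Ω) (μ : Measure Ω) (A : Ω → Set ℕ), IsProbabilityMeasure μ ∧ IsCramer μ A) ∧
    ∀ (Ω : Type) [MeasurableSpace Ω] (μ : Measure Ω) [IsProbabilityMeasure μ] (A : Ω → Set ℕ), IsCramer μ A →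
      -- all pairs at once
      (∀ᵐ ω ∂μ, ∃ C : ℕ, ∀ m n : ℕ, 1 ≤ m → C ≤ n → C * m ≤ n → ∃ p, Adm (A ω) m n p) ∧
      ∀ m : ℕ, 1 ≤ m →
      -- the largest `p`
      (∀ c : ℝ, 8 < c → ∀ᵐ ω ∂μ, ∀ᶠ n : ℕ in atTop,
        ∃ p : ℕ, (n : ℝ) - p ≤ c * (Real.log n ^ 2 * Real.log (Real.log n) ^ 2) ∧ Adm (A ω) m n p) ∧
      (∀ c : ℝ, 0 < c → c < 8 → ∀ᵐ ω ∂μ, Tendsto (fun N : ℕ =>
        Real.log (cntP (fun n => Far (A ω) m n (c * (Real.log n ^ 2 * Real.log (Real.log n) ^ 2))) N) / Real.log N)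
          atTop (𝓝 (1 - c / 8))) ∧
      -- typical values
      (∀ t : ℝ, 0 < t → ∀ᵐ ω ∂μ, Tendsto (fun N : ℕ =>
        cntP (fun n => Far (A ω) m n (t * (Real.log n * Real.log (Real.log n) ^ 2))) N / N) atTop
          (𝓝 (Real.exp (-(t / 2))))) := by
  refine ⟨⟨_, _, cramerMeasure, cramerSet, inferInstance, isCramer⟩, ?_⟩
  intro Ω _ μ _ A hA
  refine ⟨?_, fun m hm => ?_⟩
  · filter_upwards [all_pairs hA] with ω h1
    exact h1
  obtain ⟨Sol, hSoldef⟩ : ∃ Sol : Set ℕ → ℕ → ℕ → Prop, Sol = fun S n d => d ≤ n ∧ n - d ∈ S ∧ Good S (d / m) := ⟨_, rfl⟩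
  have hSol : ∀ᵐ ω ∂μ, ∀ M : ℕ, ∀ᶠ n : ℕ in atTop, ∀ j : ℕ, 1 ≤ j → (j : ℝ) ≤ Real.log n ^ M →
      (Sol (A ω) n j ↔ (Wd m Wsq j (A ω) ∧ ¬ FlF P0 n j (A ω))) := by
    refine Eventually.of_forall (fun ω M => ?_)
    filter_upwards [two_pow_le M] with n hn j _ hj
    have hjn : j ≤ n := by
      have := hn j hj
      omega
    rw [hSoldef]
    unfold Wd Wsq FlF P0 Good
    simp only [Finset.mem_singleton, forall_eq, not_not]
    tauto
  have h00 : ∀ S : Set ℕ, ¬ Wsq 0 S := fun S h => by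
    have := h.1
    omega
  have hW : ∀ᵐ ω ∂μ, Tendsto (fun k : ℕ => ((Ws (Wd m Wsq) (A ω) k).card : ℝ) * Real.log k ^ 2 / k) atTop (𝓝 (1 / 2)) := by
    filter_upwards [lawsq hA] with ω h1
    exact law_div hm (h00 _) h1
  obtain ⟨h1, h2, h3⟩ := (row10 m).finalK hA (κ := 1 / 2) (by norm_num) 2 hW
    (Eventually.of_forall (fun _ => Eventually.of_forall (fun _ => trivial))) Sol hSol
  have e1 : (1 : ℝ) / (1 / 2) * (((1 : ℕ) : ℝ) + 1) ^ 2 = 8 := by norm_num
  have e2 : (1 : ℝ) / (1 / 2) * ((1 : ℕ) : ℝ) ^ 2 = 2 := by norm_num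
  -- the two forms of the statement agree
  have hfar : ∀ (S : Set ℕ) (n : ℕ) (y : ℝ), (Far S m n y ↔ NoSol (Sol S) n y) := by
    intro S n y
    rw [hSoldef]
    unfold Far NoSol
    constructor
    · rintro h4 d hd1 hd2 ⟨hdn, h5, h6⟩
      refine h4 (n - d) ?_ ⟨by omega, h5, ?_⟩
      · rw [Nat.cast_sub hdn]
        linarith
      · have e : n - (n - d) = d := by omega
        rw [e]
        exact h6
    · rintro h4 p hp ⟨h5, h6, h7⟩
      have e : n - (n - p) = p := by omega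
      refine h4 (n - p) (by omega) ?_ ⟨by omega, by rw [e]; exact h6, h7⟩
      rw [Nat.cast_sub h5.le]
      exact hp
  simp only [hfar]
  refine ⟨fun c hc => ?_, fun c hc0 hc => ?_, fun t ht => ?_⟩
  · filter_upwards [h1 c (by rw [e1]; exact hc)] with ω h4
    filter_upwards [h4] with n h5
    rw [← hfar _ n _] at h5
    unfold Far at h5
    push Not at h5
    exact h5
  · have h4 := h2 c hc0 (by rw [e1]; exact hc)
    rw [e1] at h4
    exact h4
  · have h4 := h3 t ht
    rw [e2] at h4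
    simp only [pow_one] at h4
    exact h4

end Pool.Agent.Results.MP_4011c3_nt.RandomPrimesAllPairs
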