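import Pool.Agent.Q54.CC.All

/-!
# The Tate conjecture for singular varieties and cubic hypersurfaces

Let `q_0, …, q_r` be polynomials of degree at most two in `M` variables over the field `k` and let
`Z` be the closed subscheme `q_0 = … = q_r = 0` of the affine space of dimension `M`. Let `C` be the
cubic hypersurface `∑ λ_j q_j(x) = 0` in the affine space of dimension `M + r + 1` (`hypO q 0`). In
general `C` is singular. We show that for `n + 1 < M`

* `CH_(n + r + 1)(C) ≃ CH_n(Z)`,
* `H_(2 (n + r + 1))(C, K(n + r + 1)) ≃ H_(2 n)(Z, K(n)) ⊕ H_(2 n + 1)(Z, K(n + 1))`,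

compatibly with the cycle class maps, where the second summand has no invariants. Every affine
variety is such a subscheme `Z`, with `M` as large as we like. Hence the cycle class maps
`CH_n(X) → H_(2 n)(X, K(n))^G` are surjective for all quasi-projective varieties `X` over `k`,
smooth or not, if and only if they are surjective for these hypersurfaces `C`; and in characteristic
zero the same holds with all varieties `X`.
-/

namespace Pool.Agent.Results.MP_40dc3c_ag.CubicHypersurfaces

universe u v w x

open Q54.CU Q54.CC CategoryTheory Limits AlgebraicGeometry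

variable {k : Type u} [Field k] {𝓜 : Type w} [Category.{v} 𝓜] [Abelian 𝓜] {I : 𝓜}

/-- The cycle class maps `CH_n(X) → Hom(I, H_(2 n)(X, K(n)))` are surjective for all `n`. -/
def TateFor (D : CycData.{u, v, w, x} k 𝓜 I) (X : SchO k) : Prop :=
  ∀ n : ℤ, Function.Surjective (D.c n 0 X)

/-- The cycle class maps are surjective for all cubic hypersurfaces `∑ λ_j q_j(x) = 0`, where the
`q_j` have degree at most two. -/
def TateCubics (D : CycData.{u, v, w, x} k 𝓜 I) : Prop :=
  ∀ (M r : ℕ) (q : Fin (r + 1) → MvPolynomial (Fin M) k), (∀ j, (q j).totalDegree ≤ 2) →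
    TateFor D (hypO q 0)

/-- The cycle class maps are surjective for all affine varieties. -/
def TateAffine (D : CycData.{u, v, w, x} k 𝓜 I) : Prop :=
  ∀ X : SchO k, IsVar X → IsAffine X.left → TateFor D X

/-- The cycle class maps are surjective for all varieties over which there is an affine bundle with
affine total space. -/
def TateTorsor (D : CycData.{u, v, w, x} k 𝓜 I) : Prop :=
  ∀ X : SchO k, IsVar X → HasAffineTorsor X → TateFor D X

/-- The cycle class maps are surjective for all varieties. -/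
def TateAll (D : CycData.{u, v, w, x} k 𝓜 I) : Prop :=
  ∀ X : SchO k, IsVar X → TateFor D X

/-- `CH_m(C) ≃ CH_n(Z)` and `H_(2 m)(C, K(m))` is the direct sum of `H_(2 n)(Z, K(n))` and of
`H_(2 n + 1)(Z, K(n + 1))`, compatibly with the cycle class maps; the second summand has no
invariants. -/
def HasSplit (D : CycData.{u, v, w, x} k 𝓜 I) (m : ℤ) (C : SchO k) (n : ℤ) (Z : SchO k) : Prop :=
  (∀ f : I ⟶ D.H (n + 1) (-1) Z, f = 0) ∧
    ∃ (a : D.A m 0 C ≃+ D.A n 0 Z) (e : D.H m 0 C ≅ dsum (D.H n 0 Z) (D.H (n + 1) (-1) Z)),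
      ∀ x, D.c m 0 C x ≫ e.hom = pair (D.c n 0 Z (ap a x)) 0

/-- **The Tate conjecture for singular varieties and cubic hypersurfaces.** -/
theorem result (D : CycData.{u, v, w, x} k 𝓜 I) (hD : IsCycTheory D) :
    List.TFAE [TateCubics D, TateAffine D, TateTorsor D] ∧
    (HasInvExact D → (TateCubics D ↔ TateAll D)) ∧
    (∀ (M r : ℕ) (q : Fin (r + 1) → MvPolynomial (Fin M) k) (Z : SchO k) (i : Z ⟶ affO k M),
      IsDecomp i (cplInc q) → ∀ n : ℤ, n + 1 < M → HasSplit D (n + r + 1) (hypO q 0) n Z) ∧
    (∀ (M r : ℕ) (q : Fin (r + 1) → MvPolynomial (Fin M) k) (Z : SchO k) (i : Z ⟶ affO k M),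
      IsDecomp i (cplInc q) → ∀ n s : ℤ, 0 ≤ s → n + s + 1 < M →
        HasSum D (n + r + 1) s (hypO q 0) n s Z (n + 1) (s - 1) Z) ∧
    ∀ (M r : ℕ) (q : Fin (r + 1) → MvPolynomial (Fin M) k), (∀ j, (q j).totalDegree ≤ 2) →
      IsVar (hypO q 0) ∧ IsAffine (hypO q 0).left ∧ (hypPoly q 0).totalDegree ≤ 3 := by
  have h0 : List.TFAE [TateCubics D, TateAffine D, TateTorsor D] :=
    main_prop hD (fun n X => Function.Surjective (D.c n 0 X)) fun n X n' Y h => h.surj
  have hZ : ∀ {M r : ℕ} {q : Fin (r + 1) → MvPolynomial (Fin M) k} {Z : SchO k}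
      (i : Z ⟶ affO k M), IsDecomp i (cplInc q) → IsVar Z := by
    intro M r q Z i hd
    exact IsVar.of_closed i hd.closed isVar_affO
  refine ⟨h0, ?_, ?_, ?_, ?_⟩
  · intro hE
    constructor
    · intro h X hX n
      exact all_varieties hD hE ((h0.out 0 1).1 h) X hX n
    · intro h M r q _
      exact h _ (isVar_hypO q 0)
  · intro M r q Z i hd n hn
    exact ⟨hD.weights (n + 1) (-1) Z (hZ i hd) (by omega), cone_same hD q (hZ i hd) i hd hn⟩
  · intro M r q Z i hd n s hs hn
    exact cone_sum hD q i hd hs hn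
  · intro M r q hq
    exact ⟨isVar_hypO q 0, (inferInstance : IsAffine (HypSch q (0 : k))),
      totalDegree_hypPoly q 0 hq⟩

end Pool.Agent.Results.MP_40dc3c_ag.CubicHypersurfaces
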