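import Pool.Agent.Q262.Neg3.Final

/-!
MP_41caf5_nt, Q2 (negative answer).  For `a = -3` the inequality `p_{n+1}(a) < p_n(a)^{1+1/n}`
fails at the index `n` with `p_n(-3) = 51459203` and `p_{n+1}(-3) = 51460433`
(that index is at least `754346`).
-/

set_option autoImplicit false

namespace Pool.Agent.Results.MP_41caf5_nt.RootsNotDecreasing

open Q262.Neg3

theorem result :
    (∃ n : ℕ, 754346 ≤ n ∧ IsTerm (-3) n 51459203 ∧ IsTerm (-3) (n + 1) 51460433 ∧
      (51459203 : ℝ) ^ (1 + 1 / (n : ℝ)) < 51460433) ∧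
    ¬ ∀ a : ℤ, a < 0 → NotPerfectPower a → ∀ n : ℕ, 1 ≤ n → (a, n) ≠ (-2, 13) →
      ∃ p q : ℕ, IsTerm a n p ∧ IsTerm a (n + 1) q ∧ (q : ℝ) < (p : ℝ) ^ (1 + 1 / (n : ℝ)) := by
  have hn : 754346 ≤ cnt 51459203 := cnt_ge
  refine ⟨⟨cnt 51459203, hn, term_start, term_end, real_ineq hn⟩, ?_⟩
  intro h
  obtain ⟨p, q, hp, hq, hlt⟩ := h (-3) (by norm_num) npp (cnt 51459203) (by omega) (by simp)
  rw [isTerm_unique hp term_start, isTerm_unique hq term_end] at hlt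
  have := real_ineq hn
  push_cast at hlt
  linarith

end Pool.Agent.Results.MP_41caf5_nt.RootsNotDecreasing
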