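import Pool.Agent.Q69.HolderMdim

/-!
# MP_428550_an: Hölder interval maps do not have metric mean dimension one
-/

set_option autoImplicit false

namespace Pool.Agent.Results.MP_428550_an.HolderBound

open Q69.HolderMdim

/-- Every `α`-Hölder map `φ : [0,1] → [0,1]`, `0 < α ≤ 1`, has upper metric mean dimension at most
`1 - α`; in particular it is less than `1`. -/
theorem result (α : ℝ) (hα : 0 < α) (hα1 : α ≤ 1) (φ : unitInterval → unitInterval)
    (hφ : IsHolder α φ) : upperMdim φ ≤ ((1 - α : ℝ) : EReal) ∧ upperMdim φ < 1 := by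
  have h := upperMdim_le hα hα1 hφ
  refine ⟨h, lt_of_le_of_lt h ?_⟩
  rw [← EReal.coe_one, EReal.coe_lt_coe_iff]
  linarith

end Pool.Agent.Results.MP_428550_an.HolderBound
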