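import Pool.Agent.Q99.SML10.Main

/-!
# Jones polynomials of parametric products of powers of arbitrary braids

`Pool.Agent.H891R2.Jones.Diagram` (starting library) contains `Diagram` (oriented link diagrams),
`Diagram.fPoly` (the normalised Kauffman bracket) and `Outer m` (the part of an oriented diagram outside
a box through which `m` strands run; neither planarity nor closedness is assumed, so that several boxes
in the plane count as one box here). `Pool.Agent.Q99.SML.Defs`: `Word` (words in the letters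
`σ_j^{±1}`), `wperm m w` (the permutation of `w`; `w` is pure if it is `1`), `family O w u n` (the
product `w_0^{n_0} u_0 w_1^{n_1} u_1 ⋯ w_{k-1}^{n_{k-1}} u_{k-1}` is drawn in the box of `O`).
-/

set_option autoImplicit false

namespace Pool.Agent.Results.MP_42db45_gt.PowersOfBraids

open Finset LaurentPolynomial Pool.Agent.H891R2.Jones Q99.SML

/-- the exponents `n_j = b_j + ∑_i M_{j,i} t_i` -/
def exps {k l : ℕ} (b : Fin k → ℤ) (M : Fin k → Fin l → ℤ) (t : Fin l → ℤ) : Fin k → ℤ :=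
  fun j => b j + ∑ i, M j i * t i

/-- the linear relation `∑ c_i f(D_i(t)) = g` between the normalised brackets of `r` families of
diagrams with parameters `t ∈ ℤ^l`; the box of the `i`-th family has `m i` strands -/
def Rel {r k l : ℕ} {m : Fin r → ℕ} (O : ∀ i, Outer (m i)) (w u : Fin r → Fin k → Word)
    (b : Fin r → Fin k → ℤ) (M : Fin r → Fin k → Fin l → ℤ)
    (c : Fin r → ℤ[T;T⁻¹]) (g : ℤ[T;T⁻¹]) (t : Fin l → ℤ) : Prop :=
  ∑ i, c i * (family (O i) (w i) (u i) (exps (b i) (M i) t)).close.fPoly = g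

/-- the sum of the numbers `C(m_i, ⌊m_i / 2⌋)^{κ_i}` -/
def bnd {r : ℕ} (m κ : Fin r → ℕ) : ℕ := ∑ i, (m i).choose (m i / 2) ^ κ i

/-- the sum of the sizes of the faces of the box `∏ A_j` -/
def faceSum {l : ℕ} (A : Fin l → Finset ℤ) : ℕ := ∑ j, ∏ i ∈ univ.erase j, #(A i)

/-- Let `D_i(t)`, `t ∈ ℤ^l`, be `r` families of diagrams: a box with `m_i` strands of a diagram `O_i`
is filled with the product `w_{i,0}^{n_0} u_{i,0} ⋯ w_{i,k-1}^{n_{k-1}} u_{i,k-1}`, `w_{i,j}` and
`u_{i,j}` being arbitrary braid words, and the exponents `n_j` being arbitrary affine functions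
`b_{i,j} + ∑ M_{i,j,i'} t_{i'}` of `t` with integer coefficients, such that each parameter occurs in at
most `κ_i` exponents (`κ_i = 1` for `n_j = t_j`; `κ_i = 2` for `w_0^{t_0} w_1^{t_1} w_0^{-t_0} w_1^{-t_1}`).
Let `c_i` and `g` be Laurent polynomials, let `S ⊂ ℤ^l` be the set of all `t` with
`∑ c_i f(D_i(t)) = g` and let `d = ∑ C(m_i, ⌊m_i / 2⌋)^{κ_i}`.

* Let `P ≥ 1` be a multiple of the orders of the permutations of all `w_{i,j}`.
  Then `S` is a union of full residue classes modulo `P` and of a set which meets every finite box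
  `∏ A_j` in at most `d P ∑_j ∏_{i ≠ j} |A_i|` points.
* If all `w_{i,j}` are pure braids, then `S = ℤ^l`, or `S` meets every finite box `∏ A_j` in at most
  `d ∑_j ∏_{i ≠ j} |A_i|` points (for `l = 1`: `S` has at most `d` elements). -/
theorem result {r k l : ℕ} {m : Fin r → ℕ} (hm : ∀ i, 0 < m i) (O : ∀ i, Outer (m i))
    (w u : Fin r → Fin k → Word) (b : Fin r → Fin k → ℤ) (M : Fin r → Fin k → Fin l → ℤ)
    (κ : Fin r → ℕ) (hκ : ∀ i i', #{j | M i j i' ≠ 0} ≤ κ i)
    (c : Fin r → ℤ[T;T⁻¹]) (g : ℤ[T;T⁻¹]) (A : Fin l → Finset ℤ) :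
    (∀ P : ℕ, 0 < P → (∀ i j, wperm (m i) (w i j) ^ P = 1) →
      {t : Fin l → ℤ | (∀ j, t j ∈ A j) ∧ Rel O w u b M c g t ∧
        ¬ ∀ t' : Fin l → ℤ, Rel O w u b M c g (t + (P : ℤ) • t')}.ncard ≤
        bnd m κ * P * faceSum A) ∧
    ((∀ i j, wperm (m i) (w i j) = 1) → (∃ t, ¬ Rel O w u b M c g t) →
      {t : Fin l → ℤ | (∀ j, t j ∈ A j) ∧ Rel O w u b M c g t}.ncard ≤
        bnd m κ * faceSum A) := by
  classical
  have hfin : ∀ B : Set (Fin l → ℤ), (∀ n ∈ B, ∀ j, n j ∈ A j) → B.Finite := by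
    intro B hB
    apply (Fintype.piFinset A).finite_toSet.subset
    intro n hn
    rw [Finset.mem_coe, Fintype.mem_piFinset]
    exact hB n hn
  constructor
  · intro P hP hw
    set B := {t : Fin l → ℤ | (∀ j, t j ∈ A j) ∧ Rel O w u b M c g t ∧
      ¬ ∀ t' : Fin l → ℤ, Rel O w u b M c g (t + (P : ℤ) • t')} with hB
    have hf := hfin B (fun n hn => hn.1)
    rw [Set.ncard_eq_toFinset_card B hf]
    refine Q99.SML10.count_par hm O w u P hP hw b M κ hκ c g A hf.toFinset ?_
    intro n hn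
    rw [Set.Finite.mem_toFinset] at hn
    obtain ⟨h1, h2, h3⟩ := hn
    refine ⟨h1, h2, ?_⟩
    push Not at h3
    exact h3
  · rintro hw ⟨n0, hn0⟩
    set B := {t : Fin l → ℤ | (∀ j, t j ∈ A j) ∧ Rel O w u b M c g t} with hB
    have hf := hfin B (fun n hn => hn.1)
    rw [Set.ncard_eq_toFinset_card B hf]
    have h := Q99.SML10.count_par hm O w u 1 one_pos (fun i j => by rw [hw i j, one_pow])
      b M κ hκ c g A hf.toFinset ?_
    · rwa [mul_one] at h
    intro n hn
    rw [Set.Finite.mem_toFinset] at hn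
    obtain ⟨h1, h2⟩ := hn
    refine ⟨h1, h2, n0 - n, ?_⟩
    have h3 : n + ((1 : ℕ) : ℤ) • (n0 - n) = n0 := by
      rw [Nat.cast_one, one_smul]; abel
    rw [h3]
    exact hn0

end Pool.Agent.Results.MP_42db45_gt.PowersOfBraids
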