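import Pool.Agent.Q99.SML5.Main

/-!
# The rank of the normalised brackets of products of powers of braids

Diagrams (starting library `Pool.Agent.H891R2.Jones.Diagram`): `Diagram P` (oriented link diagrams with
the set `P` of marked points, planar or not), `Diagram.fPoly` (the normalised bracket
`(-A^{-3})^{w(D)} ⟨D⟩`; `A` is `T 1`), `Outer m` (the part of an oriented diagram outside a box through
which `m` strands run, with arbitrary directions), `Outer.close` (fills the rest of the box with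
vertical strands).

`Pool.Agent.Q99.SML.Defs`: `Word` (words in the letters `σ_j^{±1}`), `wperm m w` (the permutation of `w`;
`w` is pure if it is `1`), `family O w u n` (the product
`w_0^{n_0} u_0 w_1^{n_1} u_1 ⋯ w_{k-1}^{n_{k-1}} u_{k-1}` is drawn in the box of `O`).

`Q99.SML5.IsComb v F` (in `Pool.Agent.Q99.SML5.Eval`): the Laurent polynomial `F` is a linear combination
of the `v j` with rational coefficients (some nonzero multiple is one with integer coefficients).
-/

set_option autoImplicit false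

namespace Pool.Agent.Results.MP_42db45_gt.PowersRank

open Finset LaurentPolynomial Pool.Agent.H891R2.Jones Q99.SML Q99.SML5

/-- Let `O_i`, `i < r`, be outsides of boxes with `m_i` strands, let `w_{i,j}`, `u_{i,j}`, `j < k`, be
braid words, let `P` be such that all `w_{i,j}^P` are pure (`P = 1` if the `w_{i,j}` are pure), let
`s ∈ ℤ^k`, and for `q ∈ ℤ^k` let `K_i(q)` be the diagram obtained by drawing the product
`w_{i,0}^{n_0} u_{i,0} ⋯ w_{i,k-1}^{n_{k-1}} u_{i,k-1}`, `n = s + P q`, in the box of `O_i`. Let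
`F(q) = ∑ c_i f(K_i(q))` for Laurent polynomials `c_i` (for instance `F(q) = f(K(q))` for one family), and
`C = ∑ C(m_i, ⌊m_i / 2⌋)`. For finite sets `A_0, …, A_{k-1}` of integers let
`S(A) = ∑_j ∏_{l ≠ j} |A_l|` (so `S(A) = 1` for `k = 1`).

* Let `V` be the space spanned by `d` Laurent polynomials `v_j`, and `g` a Laurent polynomial. Either
  `F(q) ∈ g + V` for all `q ∈ ℤ^k`, or for at most `(d + 1) C S(A)` of the `q ∈ ∏ A_j`.
* **Rank.** Let `Z ⊆ ∏ A_j` be a set with more than `(d + 1) C S(A)` elements. Then there are `d + 1`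
  linearly independent ones among the `F(q)`, `q ∈ Z`, or the `F(q)`, for all `q ∈ ℤ^k`, are linear
  combinations of `d` of the `F(q)`, `q ∈ Z`. (So `n` members of a family with `k = 1` have
  normalised brackets of rank at least `n / C - 1`, or this rank is the rank of the whole family.)
* **Supports.** For every finite set `J` of exponents either only powers `A^j`, `j ∈ J`, occur in all
  `F(q)`, `q ∈ ℤ^k`, or this is so for at most `(|J| + 1) C S(A)` of the `q ∈ ∏ A_j`.
* **Complexity.** For every number `B` either only powers `A^j`, `|j| ≤ B`, occur in all `F(q)`,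
  `q ∈ ℤ^k`, or for at most `2 (B + 1) C S(A)` of the `q ∈ ∏ A_j` the Laurent polynomial `F(q)` is the
  normalised bracket of any diagram `Y` with `4 c(Y) + 2 p(Y) ≤ B`, where `c(Y)` is the number of
  crossings and `p(Y)` the number of marked points. -/
theorem result {r k : ℕ} {m : Fin r → ℕ} (hm : ∀ i, 0 < m i) (O : ∀ i, Outer (m i))
    (w u : Fin r → Fin k → Word) (P : ℕ) (hP : ∀ i j, wperm (m i) (w i j) ^ P = 1)
    (s : Fin k → ℤ) (c : Fin r → ℤ[T;T⁻¹]) (F : (Fin k → ℤ) → ℤ[T;T⁻¹])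
    (hF : ∀ q, F q = ∑ i, c i * (family (O i) (w i) (u i) (s + (P : ℤ) • q)).close.fPoly)
    (C : ℕ) (hC : C = ∑ i, (m i).choose (m i / 2)) (S : (Fin k → Finset ℤ) → ℕ)
    (hS : ∀ A, S A = ∑ j, ∏ l ∈ univ.erase j, #(A l)) :
    (∀ (d : ℕ) (v : Fin d → ℤ[T;T⁻¹]) (g : ℤ[T;T⁻¹]), (∀ q, IsComb v (F q - g)) ∨
      ∀ A : Fin k → Finset ℤ,
        {q : Fin k → ℤ | (∀ j, q j ∈ A j) ∧ IsComb v (F q - g)}.ncard ≤ (d + 1) * C * S A) ∧
    (∀ (d : ℕ) (A : Fin k → Finset ℤ) (Z : Finset (Fin k → ℤ)), (∀ q ∈ Z, ∀ j, q j ∈ A j) →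
      (d + 1) * C * S A < #Z →
      (∃ z : Fin (d + 1) → (Fin k → ℤ), (∀ i, z i ∈ Z) ∧
        LinearIndependent ℤ (fun i => F (z i))) ∨
      ∃ z : Fin d → (Fin k → ℤ), (∀ i, z i ∈ Z) ∧ ∀ q, IsComb (fun i => F (z i)) (F q)) ∧
    (∀ J : Finset ℤ, (∀ q e, (F q).coeff e ≠ 0 → e ∈ J) ∨
      ∀ A : Fin k → Finset ℤ,
        {q : Fin k → ℤ | (∀ j, q j ∈ A j) ∧ ∀ e, (F q).coeff e ≠ 0 → e ∈ J}.ncard ≤
          (#J + 1) * C * S A) ∧
    (∀ B : ℕ, (∀ q e, (F q).coeff e ≠ 0 → |e| ≤ B) ∨
      ∀ A : Fin k → Finset ℤ,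
        {q : Fin k → ℤ | (∀ j, q j ∈ A j) ∧ ∃ (X : Type) (_ : Finite X) (Y : Diagram X),
          4 * Y.crossings.length + 2 * Nat.card X ≤ B ∧ F q = Y.fPoly}.ncard ≤
          2 * (B + 1) * C * S A) := by
  classical
  have hfin : ∀ (A : Fin k → Finset ℤ) (R : (Fin k → ℤ) → Prop),
      {q : Fin k → ℤ | (∀ j, q j ∈ A j) ∧ R q}.Finite := by
    intro A R
    apply (Fintype.piFinset A).finite_toSet.subset
    intro n hn
    rw [Finset.mem_coe, Fintype.mem_piFinset]
    exact hn.1
  have h1 : ∀ (d : ℕ) (v : Fin d → ℤ[T;T⁻¹]) (g : ℤ[T;T⁻¹]), (∀ q, IsComb v (F q - g)) ∨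
      ∀ A : Fin k → Finset ℤ,
        {q : Fin k → ℤ | (∀ j, q j ∈ A j) ∧ IsComb v (F q - g)}.ncard ≤ (d + 1) * C * S A := by
    intro d v g
    have h := count_comb hm O w u P hP s c g v
    simp only [← hF] at h
    rcases h with h | h
    · exact Or.inl h
    · refine Or.inr fun A => ?_
      rw [hC, hS]
      exact h A
  have h3 : ∀ J : Finset ℤ, (∀ q e, (F q).coeff e ≠ 0 → e ∈ J) ∨
      ∀ A : Fin k → Finset ℤ,
        {q : Fin k → ℤ | (∀ j, q j ∈ A j) ∧ ∀ e, (F q).coeff e ≠ 0 → e ∈ J}.ncard ≤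
          (#J + 1) * C * S A := by
    intro J
    have h := h1 (#J) (fun i : Fin (#J) => (T ((J.equivFin.symm i : J) : ℤ) : ℤ[T;T⁻¹])) 0
    simp only [sub_zero, isComb_T_iff] at h
    exact h
  refine ⟨h1, fun d A Z hZ hcard => ?_, h3, fun B => ?_⟩
  · have hne : Z.Nonempty := by
      rw [← Finset.card_pos]
      omega
    rcases rank_alternative F Z hne d with h | ⟨z, hz, hall⟩
    · exact Or.inl h
    · right
      refine ⟨z, hz, ?_⟩
      rcases h1 d (fun i => F (z i)) 0 with h | h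
      · simpa only [sub_zero] using h
      · exfalso
        have h2 := h A
        have h4 : #Z ≤ {q : Fin k → ℤ | (∀ j, q j ∈ A j) ∧
            IsComb (fun i => F (z i)) (F q - 0)}.ncard := by
          rw [← Set.ncard_coe_finset]
          refine Set.ncard_le_ncard (fun q hq => ⟨hZ q hq, ?_⟩) (hfin A _)
          rw [sub_zero]
          exact hall q hq
        omega
  · have hJ : ∀ e : ℤ, e ∈ Finset.Icc (-(B : ℤ)) B ↔ |e| ≤ B := fun e => by
      rw [Finset.mem_Icc, abs_le]
    rcases h3 (Finset.Icc (-(B : ℤ)) B) with h | h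
    · exact Or.inl fun q e he => (hJ e).1 (h q e he)
    · refine Or.inr fun A => ?_
      refine (Set.ncard_le_ncard ?_ (hfin A _)).trans ((h A).trans (le_of_eq ?_))
      · rintro q ⟨hq, X, hX, Y, hY, hFY⟩
        refine ⟨hq, fun e he => (hJ e).2 ?_⟩
        rw [hFY] at he
        have := exponents Y e he
        have hY' : (4 * Y.crossings.length + 2 * Nat.card X : ℤ) ≤ B := by exact_mod_cast hY
        exact this.trans hY'
      · rw [Int.card_Icc]
        have h5 : ((B : ℤ) + 1 - -(B : ℤ)).toNat = 2 * B + 1 := by omega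
        rw [h5]
        ring

end Pool.Agent.Results.MP_42db45_gt.PowersRank
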