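import Pool.Agent.Q99.ET.Main2

/-!
# Jones polynomials of highly twisted links

`O : Sites k` is a link diagram (planar or not) with `k` open boxes and any crossings outside them;
`O.fill n` is the diagram in which the box `e` is filled with a row of `|n e|` crossings of the kind given
by the sign of `n e` (two vertical strands twisted around each other); `O.cut`: all boxes are cut (a cap
and a cup without crossings). `pcs O R` is the number of connected pieces of the diagram in which exactly
the boxes of `R` are cut.

`Good O J`: the diagram is connected and closed, the connected pieces of `O.cut` have nonzero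
determinants (the bracket of `O.cut` is not divisible by `(-A^2-A^{-2})^q` for the number `q` of its
pieces), the diagram remains connected when any two boxes of `J` are cut, and the boxes outside `J` join
the pieces of `O.cut` without cycles (no condition for `J = univ`).

`cutRank O R = |R| + 1 - pcs O R` is the rank function of a matroid (the dual of the graph whose vertices
are the pieces of `O.cut` and whose edges are the boxes). `SPred r J`: `J` can be reduced to the empty set by
deleting coloops, deleting one of two parallel elements and contracting one of two elements in series,
that is, the matroid is series-parallel.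

Proof: if the Jones polynomial has small span, then it stays the same (up to units) when the twist
numbers are changed along any vector `y` which satisfies the near relations of `n` (rigidity, starting
library); Dirichlet's theorem gives such a `y` with `y e ≠ 0` exactly on `J`. In the limit `A → exp(π i/4)`,
`t → ∞` with `(-A^{-4})^t → z` on the unit circle the state sum becomes a nonzero multiple of the
generating function `∑ ∏ (x e - 1)`, `x e = z ^ y e`, of the subsets of `J` of full rank. If the matroid is
series-parallel, it has no zeros with `|x e| = 1`, `x e ≠ 1`: parallel elements multiply the `x e`, elements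
in series add the `1 / (x e - 1)`, whose real parts are at most `-1/2` in the unit disc.
-/

set_option autoImplicit false

namespace Pool.Agent.Results.MP_42db45_gt.SeriesParallelTwists

open Finset LaurentPolynomial Pool.Agent.H891R2.Jones Pool.Agent.H891R2.MT Pool.Agent.H891R2.SI
open Pool.Agent.Q99.ET

theorem result {k : ℕ} (O : Sites k) (J : Finset (Fin k)) (hO : Good O J) (s B0 : ℕ) (n : Fin k → ℤ) 
    -- many crossings of any sign in the boxes of `J`, at most `B0` crossings in the others
    (hn : ∀ e ∈ J, (2 * (2 * k + 1) ^ (k - 1) * (2 * O.crossings.length + 3 * k + s + B0) : ℤ) ≤ |n e|) 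
    (hB : ∀ e ∉ J, |n e| ≤ B0) 
    (D : Diagram (O.P ⊕ Ribbon.Pt n)) (hD : Orients D (O.fill n)) :
    -- (1) if the span is at most `s`, the generating function of the sets of full rank vanishes
    -- identically in `z` at `x e = z ^ y e` for some `y` which is not zero exactly on `J` and satisfies the
    -- near relations of `n`
    (SpanAtMost s D → ∃ y : Fin k → ℤ, (∀ e, y e ≠ 0 ↔ e ∈ J) ∧ 
      (∀ S S' : Finset (Fin k), 
        |∑ e ∈ S, n e - ∑ e ∈ S', n e| ≤ 2 * O.crossings.length + 3 * k + s → 
          ∑ e ∈ S, y e = ∑ e ∈ S', y e) ∧
      ∀ z : ℂ, z ≠ 0 → ∑ R ∈ J.powerset, 
        (if cutRank O R = cutRank O J then ∏ e ∈ R, (z ^ y e - 1) else 0) = 0) ∧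
    -- (2) this is impossible if the matroid is series-parallel
    (SPred (cutRank O) J → ¬ SpanAtMost s D ∧ ∀ c ≤ s + 1, D.fPoly ≠ (-T 2 - T (-2)) ^ (c - 1)) := by
  refine ⟨fun h => hO.obstruction s B0 n hn hB D hD h, fun h => ?_⟩
  have h1 := hO.sp h s B0 n hn hB D hD
  exact ⟨h1, fun c hc => not_unlink s D h1 c hc⟩

end Pool.Agent.Results.MP_42db45_gt.SeriesParallelTwists
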