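import Mathlib
import Pool.Agent.Q47.TV.Bdd

/-!
# Divisors of bounded log discrepancy computing minimal log discrepancies of toric quotients

`x` is a closed point of an affine variety `X` of dimension `n`, `B` an effective `ℝ`-divisor, `K_X` and
`K_X + B` are `ℝ`-Cartier at `x`, and `G` is a finite group of automorphisms of the germ which
preserve the log discrepancies `a(E, X, B)` and `a(E, X, 0)`. Every `σ` in `G` has a toric chart
(`GermChart2`): the germ is isomorphic to the germ at a closed point, in any torus orbit, of a pair of
an affine toric variety and a torus invariant boundary with coefficients at most `1`, and `σ` becomes a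
monomial automorphism; different elements of `G` may need different charts. For `G = 1` these are all
toric pairs; by Steinberg's theorem (not part of the formal statement) the hypothesis holds for the
stabilizer of every closed point of a projective toric pair in any finite group of automorphisms.

For the quotient `Y = X / G` with `K_X + B = π^* (K_Y + B_Y)`, `X → Y` étale in codimension one, and a
prime divisor `F` over `Y`, the image of `E` over `X`, `a(F, Y, B_Y) = a(E, X, B) / r_E` and
`a(F, Y, 0) = a(E, X, 0) / r_E`, `r_E` the order of the inertia group of `E`. The theorem says that there is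
`E` which computes the minimal log discrepancy `m` of `(Y, B_Y)` at the image of `x` such that
`a(F, Y, 0) ≤ L`, where `L` depends only on `n`.

Idea of the proof: `m = κ + c + φ (u)` as in `MP_df5e61_ag.LocallyToricQuotients`, where
`u = ∑ w_i A_i` is a combination with positive coefficients of linearly independent orbit sums of edges.
Replacing `w_i` by `w_i - ⌈w_i⌉ + 1` does not change the compatibility of `u` with the residues, keeps `u`
in the interior of the face and does not increase `φ (u)`, because the coefficients of `B` are at most
`1`. The divisor constructed from the new `u` computes `m`, and its log discrepancy with respect to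
`K_X` is at most `κ + c + φ_0 (u)`, with `φ_0 = 1` at the edges.
-/

set_option autoImplicit false

namespace Pool.Agent.Results.MP_43381c_ag.LocallyToricQuotients

open Pool.Agent.TH165.ACC Pool.Agent.W497.Mld Pool.Agent.H436R3.KT Pool.Agent.H436R3.Fol Q47.QM Q47.TV

/-- For every `n` there is a real number `L` such that for every quotient germ as above of dimension
`n` with minimal log discrepancy `m ≥ 0` there is a prime divisor `v` over the closed point `x` of
`X`, with log discrepancies `b` with respect to `K_X + B` and `b0` with respect to `K_X` and an inertia
group of order `r`, such that `m = b / r` and `b0 / r ≤ L`. -/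
theorem result (n : ℕ) : ∃ L : ℝ, ∀ (X : AffVar (FractionRing (MvPolynomial (Fin n) ℂ)))
    (B : EffDiv X) (x : Pt X) (e : LocEq B x) (e0 : LocEq (zeroDiv X) x)
    (G : Subgroup (FractionRing (MvPolynomial (Fin n) ℂ) ≃ₐ[ℂ]
      FractionRing (MvPolynomial (Fin n) ℂ))) (m : ℝ), Finite G → 0 ≤ m →
    (∀ σ ∈ G, IsGermAut e σ) → (∀ σ ∈ G, IsGermAut e0 σ) →
    (∀ σ ∈ G, Nonempty (GermChart2 n e e0 σ)) → IsQuotMldX e G m →
    ∃ (v : DVal (FractionRing (MvPolynomial (Fin n) ℂ))) (b b0 : ℝ), IsOverGerm x v ∧
      IsLogDisc e v b ∧ IsLogDisc e0 v b0 ∧
      m = b / Nat.card {σ : G // ∀ f, v.Reg f → v.Pos (σ.1 f - f)} ∧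
      b0 / Nat.card {σ : G // ∀ f, v.Reg f → v.Pos (σ.1 f - f)} ≤ L :=
  exists_bdd n

end Pool.Agent.Results.MP_43381c_ag.LocallyToricQuotients
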