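import Mathlib
import Pool.Agent.Q46.PIdx.Abs

/-! Unramified period-index for abelian varieties of arbitrary dimension: more than half of the classes. -/

set_option autoImplicit false
set_option linter.all false

open scoped TensorProduct
open Matrix

namespace Pool.Agent.Results.MP_43d240_ag.MoreThanHalf

open Pool.Agent.Helper18.Br Pool.Agent.H552R3.SymBr Pool.Agent.H552R3.SymPred Pool.Agent.H552R3.Tsen
  Pool.Agent.Y109.PI Pool.Agent.Q46.PIdx

universe u

theorem goodv_iff {p : ℕ} [Fact p.Prime] {I : Type*} [Fintype I] [DecidableEq I] {r : ℕ} (w : Fin r → I → I → ℤ)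
    (x : I → ZMod p) : goodv (LL p w) x ↔ LinearIndependent (ZMod p) fun i => red p (dif (w i)) *ᵥ x := by
  rw [Fintype.linearIndependent_iff]
  constructor
  · intro h c hc i
    have h1 := h c (by
      rw [LL_apply, Matrix.sum_mulVec, ← hc]
      exact Finset.sum_congr rfl fun i _ => Matrix.smul_mulVec _ _ _)
    rw [h1]; rfl
  · intro h c hc
    funext i
    refine h c ?_ i
    rw [LL_apply, Matrix.sum_mulVec] at hc
    rw [← hc]
    exact Finset.sum_congr rfl fun i _ => (Matrix.smul_mulVec _ _ _).symm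

theorem LL_inj {p : ℕ} [Fact p.Prime] {I : Type*} [Fintype I] [DecidableEq I] {r : ℕ} (w : Fin r → I → I → ℤ)
    (h : LinearIndependent (ZMod p) fun i => red p (dif (w i))) : Function.Injective (LL p w) := by
  rw [injective_iff_map_eq_zero]
  intro c hc
  rw [Fintype.linearIndependent_iff] at h
  funext i
  refine h c ?_ i
  have h1 := congrArg Subtype.val hc
  rw [LL_apply] at h1
  exact h1

/-- Let `K` be an extension of an algebraically closed field `k`, let `p` be a prime number, let `ζ ∈ K` be a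
primitive `p`-th root of unity and let `z_1, ..., z_{2g}` (`g ≥ 1`, indexed by two copies of `{1, ..., g}`) be
nonzero elements of `K`; `(a, b)` denotes the symbol of degree `p`, a class in the Brauer group of `K`. Let
`w_1, ..., w_r` (`r ≥ 1`) be integral `2g × 2g` matrices with `∑ w_i(u, v) (z_u, z_v) = 0`, and let `E_i` be the
reduction of the alternating matrix `w_i - w_iᵀ` modulo `p`.

Let `S` be the group of all classes generated by the symbols with entries in the group generated by `kˣ` and the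
`z_u`. A class in `S` is called good if it is the sum of `g - 1` symbols and its index divides `p ^ (g - 1)`, and bad
otherwise. Then `S` is finite, and

(1) if some `E_i` is not zero, then more than half of the classes in `S` are good;

(2) if two of the `E_i` are linearly independent over `F_p`, then the number of bad classes is at most
`#S / (p - 1)`;

(3) if all nontrivial linear combinations of the `E_i` are nondegenerate, then the number of bad classes is at most
`#S / (p ^ (r - 1) + 1)`;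

(4) if `A` is the number of `x ∈ F_p ^ (2g)` for which the vectors `E_i x` are linearly independent, then the number of
bad classes is at most `c / (A + c) * #S` with `c = (p ^ 2 - 1) (p ^ (2g - r - 1) - 1)`. -/
theorem result {k K : Type u} [Field k] [IsAlgClosed k] [Field K] [Algebra k K] (p : ℕ) (hp : p.Prime)
    (ζ : K) (hζ : IsPrimitiveRoot ζ p) (g : ℕ) (hg : 0 < g) (z : Fin g ⊕ Fin g → Kˣ)
    (θ : Fin g ⊕ Fin g → Fin g ⊕ Fin g → BrauerGroup.{u, u} K) (hθ : ∀ u v, IsSym p ζ (z u) (z v) (θ u v))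
    (r : ℕ) (hr : 0 < r) (w : Fin r → Fin g ⊕ Fin g → Fin g ⊕ Fin g → ℤ)
    (hw : ∀ i, ∏ u, ∏ v, θ u v ^ w i u v = 1)
    (E : Fin r → Matrix (Fin g ⊕ Fin g) (Fin g ⊕ Fin g) (ZMod p))
    (hE : ∀ i u v, E i u v = ((w i u v - w i v u : ℤ) : ZMod p))
    (G : Subgroup Kˣ)
    (hG : G = Subgroup.closure (Set.range (Units.map (algebraMap k K).toMonoidHom) ∪ Set.range z))
    (S : Subgroup (BrauerGroup.{u, u} K))
    (hS : S = Subgroup.closure {γ | ∃ a ∈ G, ∃ b ∈ G, IsSym p ζ a b γ})
    (good bad : Set (BrauerGroup.{u, u} K))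
    (hgood : ∀ α, α ∈ good ↔ α ∈ S ∧ IndDvd α (p ^ (g - 1)) ∧
      ∃ (s t : Fin (g - 1) → Kˣ) (σ : Fin (g - 1) → BrauerGroup.{u, u} K),
        (∀ i, IsSym p ζ (s i) (t i) (σ i)) ∧ α = ∏ i, σ i)
    (hbad : ∀ α, α ∈ bad ↔ α ∈ S ∧ α ∉ good) :
    Finite S ∧
    (∀ i, E i ≠ 0 → Nat.card S < 2 * Nat.card good) ∧
    (∀ i j, LinearIndependent (ZMod p) ![E i, E j] → (p - 1) * Nat.card bad ≤ Nat.card S) ∧
    ((∀ c : Fin r → ZMod p, c ≠ 0 → (∑ i, c i • E i).det ≠ 0) →
      (p ^ (r - 1) + 1) * Nat.card bad ≤ Nat.card S) ∧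
    Nat.card bad * (Nat.card {x : Fin g ⊕ Fin g → ZMod p // LinearIndependent (ZMod p) fun i => E i *ᵥ x} +
        (p ^ 2 - 1) * (p ^ (2 * g - r - 1) - 1)) ≤
      (p ^ 2 - 1) * (p ^ (2 * g - r - 1) - 1) * Nat.card S := by
  haveI : Fact p.Prime := ⟨hp⟩
  haveI : NeZero p := ⟨hp.ne_zero⟩
  have hn : 0 < p := hp.pos
  have hI : Fintype.card (Fin g ⊕ Fin g) = 2 * g := by simp [two_mul]
  have hEr : ∀ i, red p (dif (w i)) = E i := by
    intro i
    ext u v
    rw [hE]
    rfl
  have hQ : ∀ i, Q (symHom hn hζ) z (w i) = 1 := by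
    intro i
    rw [← hw i, Q, Fintype.prod_prod_type]
    refine Finset.prod_congr rfl fun u _ => Finset.prod_congr rfl fun v _ => ?_
    rw [(isSym_iff hn hζ (z u) (z v) (θ u v)).1 (hθ u v), symHom_apply]
  let H : Subgroup Kˣ := (Units.map (algebraMap k K).toMonoidHom).range
  have hneg : (-1 : Kˣ) ∈ H := by
    refine ⟨-1, ?_⟩
    ext
    simp
  -- constants are `p`-th powers
  have hconst : ∀ a ∈ H, ∀ b, symHom hn hζ a b = 1 := by
    rintro _ ⟨c, rfl⟩ b
    obtain ⟨d, hd⟩ := IsAlgClosed.exists_pow_nat_eq (c : k) hn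
    have hd0 : d ≠ 0 := by
      rintro rfl
      rw [zero_pow hn.ne'] at hd
      exact c.ne_zero hd.symm
    have hc : c = (Units.mk0 d hd0) ^ p := by
      ext
      rw [Units.val_pow_eq_pow_val, Units.val_mk0, hd]
    rw [hc, map_pow, map_pow, MonoidHom.pow_apply, symHom_apply, symCl_tors]
  have hVH : ∀ a ∈ H, ∀ b ∈ H, symHom hn hζ a b ∈ (⊥ : Subgroup (BrauerGroup.{u, u} K)) := fun a ha b _ => by
    rw [hconst a ha b]; exact Subgroup.one_mem _
  have hlow : low (symHom hn hζ) H ⊥ z ≤ (⊥ : Subgroup (BrauerGroup.{u, u} K)) := by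
    refine sup_le le_rfl ?_
    rw [Subgroup.closure_le]
    rintro γ ⟨a, ha, u, rfl⟩
    rw [hconst a ha]
    exact Subgroup.one_mem _
  have hGH : G = H ⊔ Subgroup.closure (Set.range z) := by
    rw [hG, Subgroup.closure_union]
    congr 1
    exact Subgroup.closure_eq H
  have hS' : S = Subgroup.closure {γ | ∃ a ∈ H ⊔ Subgroup.closure (Set.range z),
      ∃ b ∈ H ⊔ Subgroup.closure (Set.range z), γ = symHom hn hζ a b} := by
    have : {γ | ∃ a ∈ G, ∃ b ∈ G, IsSym p ζ a b γ} = {γ | ∃ a ∈ H ⊔ Subgroup.closure (Set.range z),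
      ∃ b ∈ H ⊔ Subgroup.closure (Set.range z), γ = symHom hn hζ a b} := by
      ext γ
      simp only [Set.mem_setOf_eq, isSym_iff hn hζ, hGH, symHom_apply]
    rw [hS, this]
  have hgd : ∀ α ∈ S, (∃ x y : Fin (g - 1) → Kˣ, α = ∏ i, symHom hn hζ (x i) (y i)) → α ∈ good := by
    rintro α hα ⟨x, y, h⟩
    rw [hgood]
    refine ⟨hα, ?_, x, y, fun i => symCl hn hζ (x i) (y i), fun i => (isSym_iff hn hζ _ _ _).2 rfl, h⟩
    rw [h]
    exact (hasRep_prod hn hζ (g - 1) x y).indDvd
  obtain ⟨hfin, hcount⟩ := abs_count (s := symHom hn hζ) (fun a b => symCl_anti hn hζ a b) p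
    (fun a b => symCl_tors hn hζ a b) (-1) H hneg (fun a => symCl_diag hn hζ a) z hVH hlow g hg hI S hS' good hgd
  have hbadc : Nat.card bad = Nat.card {α : BrauerGroup.{u, u} K // α ∈ S ∧ α ∉ good} :=
    Nat.card_congr (Equiv.subtypeEquivRight hbad)
  rw [← hbadc] at hcount
  haveI : Finite S := hfin
  have hsum : Nat.card good + Nat.card bad = Nat.card S := by
    classical
    have h1 : Nat.card good = Nat.card {x : S // x.1 ∈ good} := Nat.card_congr
      ⟨fun x => ⟨⟨x.1, ((hgood _).1 x.2).1⟩, x.2⟩, fun x => ⟨x.1.1, x.2⟩, fun x => rfl, fun x => rfl⟩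
    have h2 : Nat.card bad = Nat.card {x : S // ¬ x.1 ∈ good} := Nat.card_congr
      ⟨fun x => ⟨⟨x.1, ((hbad _).1 x.2).1⟩, ((hbad _).1 x.2).2⟩, fun x => ⟨x.1.1, (hbad _).2 ⟨x.1.2, x.2⟩⟩,
        fun x => rfl, fun x => rfl⟩
    haveI : Fintype S := Fintype.ofFinite _
    rw [h1, h2, Nat.card_eq_fintype_card, Nat.card_eq_fintype_card, Nat.card_eq_fintype_card,
      Fintype.card_subtype_compl, Nat.add_sub_cancel' (Fintype.card_subtype_le _)]
  have hF : Nat.card (ZMod p) = p := by rw [Nat.card_eq_fintype_card, ZMod.card]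
  have hcard : ∀ r' : ℕ, Nat.card (Fin r' → ZMod p) = p ^ r' := fun r' => by
    rw [Nat.card_fun, hF, Nat.card_eq_fintype_card, Fintype.card_fin]
  have hnt : ∀ r' : ℕ, 0 < r' → Nontrivial (Fin r' → ZMod p) := fun r' h => by
    haveI : Nonempty (Fin r') := ⟨⟨0, h⟩⟩
    exact Function.nontrivial
  have hconv : ∀ (r' : ℕ) (w' : Fin r' → Fin g ⊕ Fin g → Fin g ⊕ Fin g → ℤ),
      (∀ i, Q (symHom hn hζ) z (w' i) = 1) → ∀ c1 c2 : ℕ,
      Nat.card (badM (LL p w')) * c1 ≤ c2 * Nat.card (altG (ZMod p) (Fin g ⊕ Fin g)) →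
      Nat.card bad * c1 ≤ c2 * Nat.card S := by
    intro r' w' hw' c1 c2 h
    obtain ⟨m, hm, h1, h2⟩ := hcount r' w' hw'
    refine Nat.le_of_mul_le_mul_left (c := m) ?_ hm
    calc m * (Nat.card bad * c1) = (Nat.card bad * m) * c1 := by ring
      _ ≤ Nat.card (badM (LL p w')) * c1 := Nat.mul_le_mul_right _ h1
      _ ≤ c2 * Nat.card (altG (ZMod p) (Fin g ⊕ Fin g)) := h
      _ = m * (c2 * Nat.card S) := by rw [← h2]; ring
  refine ⟨hfin, fun i hi => ?_, fun i j hij => ?_, fun hnd => ?_, ?_⟩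
  · haveI := hnt 1 one_pos
    obtain ⟨m, hm, h1, h2⟩ := hcount 1 (fun _ => w i) (fun _ => hQ i)
    have h3 := half (LL p (fun _ : Fin 1 => w i)) (LL_inj _ (by
      rw [linearIndependent_unique_iff, hEr]
      exact hi)) (by rw [hcard, hF, pow_one])
    have h4 : m * (2 * Nat.card bad) < m * Nat.card S := by
      calc m * (2 * Nat.card bad) = 2 * (Nat.card bad * m) := by ring
        _ ≤ 2 * Nat.card (badM (LL p (fun _ : Fin 1 => w i))) := Nat.mul_le_mul_left _ h1
        _ < Nat.card (altG (ZMod p) (Fin g ⊕ Fin g)) := h3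
        _ = m * Nat.card S := by rw [← h2]; ring
    have h5 := Nat.lt_of_mul_lt_mul_left h4
    omega
  · haveI := hnt 2 two_pos
    have h3 := two (LL p ![w i, w j]) (LL_inj _ (by
      have e : (fun l => red p (dif ((![w i, w j] : Fin 2 → _) l))) = ![E i, E j] := by
        funext l
        fin_cases l
        · exact hEr i
        · exact hEr j
      rw [e]
      exact hij)) (by rw [hcard, hF])
    rw [hF] at h3
    have h4 := hconv 2 ![w i, w j] (by
      intro l
      fin_cases l
      · exact hQ i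
      · exact hQ j) (p - 1) 1 (by rw [one_mul, mul_comm]; exact h3)
    rw [one_mul, mul_comm] at h4
    exact h4
  · haveI := hnt r hr
    haveI : Nonempty (Fin g ⊕ Fin g) := ⟨Sum.inl ⟨0, hg⟩⟩
    have h3 := inert (LL p w) (fun c hc => by
      rw [LL_apply]
      simp only [hEr]
      exact hnd c hc) r (by rw [hcard, hF])
    rw [hF] at h3
    have h4 := hconv r w hQ (p ^ (r - 1) + 1) 1 (by rw [one_mul, mul_comm]; exact h3)
    rw [one_mul, mul_comm] at h4
    exact h4
  · haveI := hnt r hr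
    have h3 := bad_le (LL p w) r (by rw [hcard, hF])
    rw [hF, hI] at h3
    have e : Nat.card {x : Fin g ⊕ Fin g → ZMod p // goodv (LL p w) x} =
        Nat.card {x : Fin g ⊕ Fin g → ZMod p // LinearIndependent (ZMod p) fun i => E i *ᵥ x} := by
      refine Nat.card_congr (Equiv.subtypeEquivRight fun x => ?_)
      rw [goodv_iff]
      simp only [hEr]
    rw [e] at h3
    exact hconv r w hQ _ _ h3

end Pool.Agent.Results.MP_43d240_ag.MoreThanHalf
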