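import Mathlib
import Pool.Agent.Q46.PX.M

/-! Unramified period-index for abelian varieties of arbitrary dimension: a definite proportion of the classes of
prime power period. -/

set_option autoImplicit false
set_option linter.all false

open scoped TensorProduct
open Matrix

namespace Pool.Agent.Results.MP_43d240_ag.PrimePowerPeriods

open Pool.Agent.Helper18.Br Pool.Agent.H552R3.SymBr Pool.Agent.H552R3.SymPred Pool.Agent.H552R3.Tsen
  Pool.Agent.Y109.PI Pool.Agent.Q46.PIdx Pool.Agent.Q46.PX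

universe u

theorem LL_inj {p : ℕ} [Fact p.Prime] {I : Type*} [Fintype I] [DecidableEq I] {r : ℕ} (w : Fin r → I → I → ℤ)
    (h : LinearIndependent (ZMod p) fun i => red p (dif (w i))) : Function.Injective (LL p w) := by
  rw [injective_iff_map_eq_zero]
  intro c hc
  rw [Fintype.linearIndependent_iff] at h
  funext i
  refine h c ?_ i
  have h1 := congrArg Subtype.val hc
  rw [LL_apply] at h1
  exact h1

/-- Let `K` be an extension of an algebraically closed field `k`, let `p` be a prime number and `m ≥ 1`, let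
`ζ ∈ K` be a primitive `p ^ m`-th root of unity and let `z_1, ..., z_{2g}` (`g ≥ 1`, indexed by two copies of
`{1, ..., g}`) be nonzero elements of `K`; `(a, b)` denotes the symbol of degree `p ^ m`, a class in the Brauer group
of `K`. Let `w_1, ..., w_r` be integral `2g × 2g` matrices with `∑ w_i(u, v) (z_u, z_v) = 0`, and let `E_i` be the
reduction of the alternating matrix `w_i - w_iᵀ` modulo `p`.

Let `S` be the group of all classes generated by the symbols with entries in the group generated by `kˣ` and the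
`z_u`. A class in `S` is called good if its index divides `(p ^ m) ^ (g - 1)`, and bad otherwise. Then `S` is finite,
and

(1) if some `E_i` is not zero, then the number of good classes is at least `c_p * #S`, with
`c_p = p ^ 2 (p ^ 2 - p - 1) ^ 2 / ((p ^ 2 - 1) ^ 2 (2 p ^ 2 - 2 p - 1))`;

(2) if two of the `E_i` are linearly independent over `F_p`, then the number of bad classes is at most
`(2 / p) * #S`. -/
theorem result {k K : Type u} [Field k] [IsAlgClosed k] [Field K] [Algebra k K] (p : ℕ) (hp : p.Prime)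
    (m : ℕ) (hm : 0 < m) (ζ : K) (hζ : IsPrimitiveRoot ζ (p ^ m)) (g : ℕ) (hg : 0 < g) (z : Fin g ⊕ Fin g → Kˣ)
    (θ : Fin g ⊕ Fin g → Fin g ⊕ Fin g → BrauerGroup.{u, u} K) (hθ : ∀ u v, IsSym (p ^ m) ζ (z u) (z v) (θ u v))
    (r : ℕ) (w : Fin r → Fin g ⊕ Fin g → Fin g ⊕ Fin g → ℤ)
    (hw : ∀ i, ∏ u, ∏ v, θ u v ^ w i u v = 1)
    (E : Fin r → Matrix (Fin g ⊕ Fin g) (Fin g ⊕ Fin g) (ZMod p))
    (hE : ∀ i u v, E i u v = ((w i u v - w i v u : ℤ) : ZMod p))
    (G : Subgroup Kˣ)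
    (hG : G = Subgroup.closure (Set.range (Units.map (algebraMap k K).toMonoidHom) ∪ Set.range z))
    (S : Subgroup (BrauerGroup.{u, u} K))
    (hS : S = Subgroup.closure {γ | ∃ a ∈ G, ∃ b ∈ G, IsSym (p ^ m) ζ a b γ})
    (good bad : Set (BrauerGroup.{u, u} K))
    (hgood : ∀ α, α ∈ good ↔ α ∈ S ∧ IndDvd α ((p ^ m) ^ (g - 1)))
    (hbad : ∀ α, α ∈ bad ↔ α ∈ S ∧ α ∉ good) :
    Finite S ∧
    (∀ i, E i ≠ 0 → (p : ℚ) ^ 2 * ((p : ℚ) ^ 2 - p - 1) ^ 2 * Nat.card S ≤
      ((p : ℚ) ^ 2 - 1) ^ 2 * (2 * (p : ℚ) ^ 2 - 2 * p - 1) * Nat.card good) ∧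
    (∀ i j, LinearIndependent (ZMod p) ![E i, E j] → p * Nat.card bad ≤ 2 * Nat.card S) := by
  haveI : Fact p.Prime := ⟨hp⟩
  haveI : NeZero p := ⟨hp.ne_zero⟩
  haveI : NeZero (p ^ m) := ⟨pow_ne_zero _ hp.ne_zero⟩
  have hn : 0 < p ^ m := pow_pos hp.pos m
  have hpn : p ∣ p ^ m := dvd_pow_self p hm.ne'
  have hI : Fintype.card (Fin g ⊕ Fin g) = 2 * g := by simp [two_mul]
  have hIe : Even (Fintype.card (Fin g ⊕ Fin g)) := by rw [hI]; exact even_two_mul g
  have hEr : ∀ i, red p (dif (w i)) = E i := by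
    intro i
    ext u v
    rw [hE]
    rfl
  have hQ : ∀ i, Q (symHom hn hζ) z (w i) = 1 := by
    intro i
    rw [← hw i, Q, Fintype.prod_prod_type]
    refine Finset.prod_congr rfl fun u _ => Finset.prod_congr rfl fun v _ => ?_
    rw [(isSym_iff hn hζ (z u) (z v) (θ u v)).1 (hθ u v), symHom_apply]
  let H : Subgroup Kˣ := (Units.map (algebraMap k K).toMonoidHom).range
  have hneg : (-1 : Kˣ) ∈ H := by
    refine ⟨-1, ?_⟩
    ext
    simp
  -- constants are `p ^ m`-th powers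
  have hconst : ∀ a ∈ H, ∀ b, symHom hn hζ a b = 1 := by
    rintro _ ⟨c, rfl⟩ b
    obtain ⟨d, hd⟩ := IsAlgClosed.exists_pow_nat_eq (c : k) hn
    have hd0 : d ≠ 0 := by
      rintro rfl
      rw [zero_pow hn.ne'] at hd
      exact c.ne_zero hd.symm
    have hc : c = (Units.mk0 d hd0) ^ (p ^ m) := by
      ext
      rw [Units.val_pow_eq_pow_val, Units.val_mk0, hd]
    rw [hc, map_pow, map_pow, MonoidHom.pow_apply, symHom_apply, symCl_tors]
  have hVH : ∀ a ∈ H, ∀ b ∈ H, symHom hn hζ a b ∈ (⊥ : Subgroup (BrauerGroup.{u, u} K)) := fun a ha b _ => by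
    rw [hconst a ha b]; exact Subgroup.one_mem _
  have hlow : low (symHom hn hζ) H ⊥ z ≤ (⊥ : Subgroup (BrauerGroup.{u, u} K)) := by
    refine sup_le le_rfl ?_
    rw [Subgroup.closure_le]
    rintro γ ⟨a, ha, u, rfl⟩
    rw [hconst a ha]
    exact Subgroup.one_mem _
  have hGH : G = H ⊔ Subgroup.closure (Set.range z) := by
    rw [hG, Subgroup.closure_union]
    congr 1
    exact Subgroup.closure_eq H
  have hS' : S = Subgroup.closure {γ | ∃ a ∈ H ⊔ Subgroup.closure (Set.range z),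
      ∃ b ∈ H ⊔ Subgroup.closure (Set.range z), γ = symHom hn hζ a b} := by
    have : {γ | ∃ a ∈ G, ∃ b ∈ G, IsSym (p ^ m) ζ a b γ} = {γ | ∃ a ∈ H ⊔ Subgroup.closure (Set.range z),
      ∃ b ∈ H ⊔ Subgroup.closure (Set.range z), γ = symHom hn hζ a b} := by
      ext γ
      simp only [Set.mem_setOf_eq, isSym_iff hn hζ, hGH, symHom_apply]
    rw [hS, this]
  have hanti : ∀ a b, symHom hn hζ a b = (symHom hn hζ b a)⁻¹ := fun a b => symCl_anti hn hζ a b
  have htors : ∀ a b, symHom hn hζ a b ^ (p ^ m) = 1 := fun a b => symCl_tors hn hζ a b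
  have hdiag : ∀ a, symHom hn hζ a a = 1 ∨ symHom hn hζ a a = symHom hn hζ a (-1) := fun a => symCl_diag hn hζ a
  obtain ⟨f, hf, hran⟩ := transferN hanti (p ^ m) htors (-1) H hneg hdiag z hVH hlow
  have hcongr : ∀ w w' : Fin g ⊕ Fin g → Fin g ⊕ Fin g → ℤ, red (p ^ m) (dif w) = red (p ^ m) (dif w') →
      Q (symHom hn hζ) z w = Q (symHom hn hζ) z w' := by
    intro w w' h
    have h1 := Q_congr hanti (p ^ m) htors (-1) H hneg hdiag ⊥ z w w' (fun u v => by
      have h2 := congrFun (congrFun h u) v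
      simp only [red, dif, Matrix.map_apply, Matrix.of_apply, eq_intCast] at h2
      rw [← ZMod.intCast_zmod_eq_zero_iff_dvd, Int.cast_sub, sub_eq_zero]
      exact h2)
    have h3 := hlow h1
    rw [Subgroup.mem_bot, mul_inv_eq_one] at h3
    exact h3
  have hSmem : ∀ α, α ∈ S ↔ Additive.ofMul α ∈ f.range := fun α => by rw [hS']; exact hran α
  have hcS : Nat.card S = Nat.card f.range := Nat.card_congr
    ⟨fun α => ⟨Additive.ofMul α.1, (hSmem α.1).1 α.2⟩, fun a => ⟨Additive.toMul a.1, (hSmem _).2 a.2⟩,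
      fun α => rfl, fun a => rfl⟩
  have hcg : Nat.card good = Nat.card {a : Additive (BrauerGroup.{u, u} K) | Additive.toMul a ∈ good} :=
    Nat.card_congr ⟨fun α => ⟨Additive.ofMul α.1, α.2⟩, fun a => ⟨Additive.toMul a.1, a.2⟩,
      fun α => rfl, fun a => rfl⟩
  have hcb : Nat.card bad = Nat.card {a : Additive (BrauerGroup.{u, u} K) | Additive.toMul a ∈ bad} :=
    Nat.card_congr ⟨fun α => ⟨Additive.ofMul α.1, α.2⟩, fun a => ⟨Additive.toMul a.1, a.2⟩,
      fun α => rfl, fun a => rfl⟩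
  haveI hfin : Finite f.range := (Set.finite_range f).to_subtype
  have hpos : 0 < Nat.card f.range := Nat.card_pos
  have hfS : Finite S := Nat.finite_of_card_ne_zero (by rw [hcS]; exact hpos.ne')
  -- the counting principle
  have hcount : ∀ (r' : ℕ) (w' : Fin r' → Fin g ⊕ Fin g → Fin g ⊕ Fin g → ℤ),
      (∀ i, Q (symHom hn hζ) z (w' i) = 1) → ∃ u v : ℕ, 0 < u ∧
        Nat.card S * u = Nat.card (altG (ZMod p) (Fin g ⊕ Fin g)) * v ∧
        Nat.card (simM (LL p w')) * v ≤ Nat.card good * u ∧ Nat.card good + Nat.card bad = Nat.card S := by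
    intro r' w' hw'
    have h := card_two f (redN (I := Fin g ⊕ Fin g) hpn) (redN_surj hpn) (simM (LL p w'))
      {a : Additive (BrauerGroup.{u, u} K) | Additive.toMul a ∈ good}
      {a : Additive (BrauerGroup.{u, u} K) | Additive.toMul a ∈ bad}
      (fun x => by
        rw [Set.mem_setOf_eq, hbad, hSmem]
        rfl)
      (fun x hx => (hSmem _).1 ((hgood _).1 hx).1)
      (fun a ha => by
        obtain ⟨Ω, hΩ⟩ := exists_lift (p ^ m) a.1 a.2
        have h1 := hf a Ω hΩ
        rw [Set.mem_setOf_eq, hgood, h1]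
        refine ⟨(hSmem _).2 ⟨a, h1⟩, ?_⟩
        exact good_of_sim p m hn hζ z hcongr g hg hI r' w' hw' Ω (redN hpn a) (redN_red hpn a Ω hΩ).symm ha)
    rw [← hcS, ← hcg, ← hcb] at h
    exact h
  have hF : Nat.card (ZMod p) = p := by rw [Nat.card_eq_fintype_card, ZMod.card]
  have hcard : ∀ r' : ℕ, Nat.card (Fin r' → ZMod p) = p ^ r' := fun r' => by
    rw [Nat.card_fun, hF, Nat.card_eq_fintype_card, Fintype.card_fin]
  have hnt : ∀ r' : ℕ, 0 < r' → Nontrivial (Fin r' → ZMod p) := fun r' h => by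
    haveI : Nonempty (Fin r') := ⟨⟨0, h⟩⟩
    exact Function.nontrivial
  refine ⟨hfS, fun i hi => ?_, fun i j hij => ?_⟩
  · haveI := hnt 1 one_pos
    obtain ⟨u, v, hu, h1, h2, -⟩ := hcount 1 (fun _ => w i) (fun _ => hQ i)
    have h3 := one hIe (by rw [hcard, hF, pow_one]) (LL p (fun _ : Fin 1 => w i)) (LL_inj _ (by
      rw [linearIndependent_unique_iff, hEr]
      exact hi))
    rw [hF] at h3
    have h1' : (Nat.card S : ℚ) * u = Nat.card (altG (ZMod p) (Fin g ⊕ Fin g)) * v := by exact_mod_cast h1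
    have h2' : (Nat.card (simM (LL p (fun _ : Fin 1 => w i))) : ℚ) * v ≤ Nat.card good * u := by exact_mod_cast h2
    have hu' : (0 : ℚ) < u := by exact_mod_cast hu
    have hp2 : (2 : ℚ) ≤ p := by exact_mod_cast hp.two_le
    have hc : (0 : ℚ) ≤ ((p : ℚ) ^ 2 - 1) ^ 2 * (2 * (p : ℚ) ^ 2 - 2 * p - 1) :=
      mul_nonneg (sq_nonneg _) (by nlinarith)
    refine le_of_mul_le_mul_right ?_ hu'
    calc (p : ℚ) ^ 2 * ((p : ℚ) ^ 2 - p - 1) ^ 2 * Nat.card S * u
        = (p : ℚ) ^ 2 * ((p : ℚ) ^ 2 - p - 1) ^ 2 * Nat.card (altG (ZMod p) (Fin g ⊕ Fin g)) * v := by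
          rw [mul_assoc, h1']; ring
      _ ≤ ((p : ℚ) ^ 2 - 1) ^ 2 * (2 * (p : ℚ) ^ 2 - 2 * p - 1) *
            Nat.card (simM (LL p (fun _ : Fin 1 => w i))) * v := mul_le_mul_of_nonneg_right h3 (Nat.cast_nonneg _)
      _ = ((p : ℚ) ^ 2 - 1) ^ 2 * (2 * (p : ℚ) ^ 2 - 2 * p - 1) *
            (Nat.card (simM (LL p (fun _ : Fin 1 => w i))) * v) := by ring
      _ ≤ ((p : ℚ) ^ 2 - 1) ^ 2 * (2 * (p : ℚ) ^ 2 - 2 * p - 1) * (Nat.card good * u) :=
          mul_le_mul_of_nonneg_left h2' hc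
      _ = _ := by ring
  · haveI := hnt 2 two_pos
    obtain ⟨u, v, hu, h1, h2, h4⟩ := hcount 2 ![w i, w j] (by
      intro l
      fin_cases l
      · exact hQ i
      · exact hQ j)
    have h3 := Pool.Agent.Q46.PX.two hIe (by rw [hcard, hF]) (LL p ![w i, w j]) (LL_inj _ (by
      have e : (fun l => red p (dif ((![w i, w j] : Fin 2 → _) l))) = ![E i, E j] := by
        funext l
        fin_cases l
        · exact hEr i
        · exact hEr j
      rw [e]
      exact hij))
    rw [hF] at h3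
    have h1' : (Nat.card S : ℚ) * u = Nat.card (altG (ZMod p) (Fin g ⊕ Fin g)) * v := by exact_mod_cast h1
    have h2' : (Nat.card (simM (LL p ![w i, w j])) : ℚ) * v ≤ Nat.card good * u := by exact_mod_cast h2
    have h4' : (Nat.card good : ℚ) + Nat.card bad = Nat.card S := by exact_mod_cast h4
    have hu' : (0 : ℚ) < u := by exact_mod_cast hu
    have hp0 : (0 : ℚ) ≤ p := Nat.cast_nonneg _
    have h5 : ((p : ℚ) - 2) * Nat.card S * u ≤ p * Nat.card good * u := by
      calc ((p : ℚ) - 2) * Nat.card S * u = ((p : ℚ) - 2) * Nat.card (altG (ZMod p) (Fin g ⊕ Fin g)) * v := by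
            rw [mul_assoc, h1']; ring
        _ ≤ p * Nat.card (simM (LL p ![w i, w j])) * v := mul_le_mul_of_nonneg_right h3 (Nat.cast_nonneg _)
        _ = p * (Nat.card (simM (LL p ![w i, w j])) * v) := by ring
        _ ≤ p * (Nat.card good * u) := mul_le_mul_of_nonneg_left h2' hp0
        _ = _ := by ring
    have h6 := le_of_mul_le_mul_right h5 hu'
    have h7 : (p : ℚ) * Nat.card bad ≤ 2 * Nat.card S := by
      have : (Nat.card bad : ℚ) = Nat.card S - Nat.card good := by linarith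
      rw [this]
      linarith
    exact_mod_cast h7

end Pool.Agent.Results.MP_43d240_ag.PrimePowerPeriods
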