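import Pool.Agent.Q187.ZD.GT

/-!
# The motivic Galois group and GT: it suffices to compare dimensions in infinitely many degrees

`GT_1` is the kernel of `GT → G_m`, `U_mot` the prounipotent radical of the motivic Galois group;
both coordinate rings are graded by the action of `G_m`. The part of degree `N` of the coordinate
ring of `U_mot` has dimension `u N`, the number of ordered sums of odd numbers `≥ 3` equal to `N`.
If the coordinate ring `E` of `GT_1` has dimension `u N` in one degree `N`, this is true in all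
degrees `k ≤ N` with `N - k ∉ {1, 2, 4}`. So the map to GT is an isomorphism if and only if the
dimensions agree in infinitely many degrees, or asymptotically along some sequence of degrees. If
the map is not surjective, there is a `k` with `dim E_N ≥ u N + u (N - k) + u (N - 2 k) + ...`.
-/

set_option autoImplicit false

open Module

namespace Pool.Agent.Results.MP_446dfa_ag.InfinitelyManyDegrees

open Pool.Agent.Q187.ZD
open Pool.Agent.Q187.ZD.GT

theorem result (u : ℕ → ℕ) (hu : IsOdd3 u) {E H : Type} [CommRing E] [Algebra ℚ E] [CommRing H]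
    [Algebra ℚ H] (gr : ℕ → Submodule ℚ E) (gr' : ℕ → Submodule ℚ H) (π : E →ₐ[ℚ] H)
    (hp : IsPair u gr gr' π) :
    (Function.Bijective π ↔ {N | finrank ℚ (gr N) = u N}.Infinite) ∧
    (Function.Bijective π ↔
      ∀ ε : ℝ, 0 < ε → ∀ N₀, ∃ N ≥ N₀, (finrank ℚ (gr N) : ℝ) ≤ (1 + ε) * u N) ∧
    (∀ N, finrank ℚ (gr N) = u N → ∀ k ≤ N, N - k ≠ 1 → N - k ≠ 2 → N - k ≠ 4 →
      finrank ℚ (gr k) = u k) ∧
    (¬ Function.Bijective π → ∃ k,
      (∀ m N, m * k ≤ N → ∑ i ∈ Finset.range (m + 1), u (N - i * k) ≤ finrank ℚ (gr N)) ∧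
      ∀ N, k + 5 ≤ N → (1 + (2 ^ k : ℝ)⁻¹) * u N ≤ finrank ℚ (gr N)) := by
  refine ⟨infinite_iff hu hp, liminf_iff hu hp,
    fun N hN k hk h1 h2 h4 => one_weight hu hp hN hk h1 h2 h4, fun hb => ?_⟩
  rw [bijective_iff hp] at hb
  push Not at hb
  obtain ⟨k, hk⟩ := hb
  exact ⟨k, fun m N hN => extra_sum (isFormal hp) hk m hN, fun N hN => share hu hp hk hN⟩

end Pool.Agent.Results.MP_446dfa_ag.InfinitelyManyDegrees
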