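import Mathlib
import Pool.Agent.Q273.AD.Fin

/-!
# The truncated Vojta inequality with an adelic target: the exact law for almost every adele

`K` is a number field, `n ≥ 1`, and `a` an arrangement of `r` hyperplanes of `ℙ^n` over `K` (no general
position, any `r`). Let `X` be the log resolution of the arrangement obtained by blowing up all its
flats and `D` the reduced preimage of the arrangement, a normal crossings divisor. As in the starting
file `MP_9ec3f0_nt/HyperplaneArrangements` the height with respect to `K_X + D + (n + 1) H` is `hW`, and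
`N1` is the truncated counting function. The target is an adelic point: `ξ = (ξ_w)_w` in `(K ⊗ ℝ)^n` and
`η = (η_v)_v` in the product over all primes `v` of `O_v^n`, and `m_V(P)` is the sum of the local
proximities `log max (1, 1 / max_j |target_j - x_j / x_0|)` of the rational point `P` to the target over
all infinite places and over the primes in the finite set `V`.

For almost every adelic point the inequality `h_(K_X + D)(P) + n m_V(P) ≤ N¹_S(D, P) + ε h(P) + C` holds
for all arrangements, all `S`, `V` and all `P` with `n m_V(P) ≥ (n + 1/2 + ε) h(P)` or with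
`h_(K_X + D)(P) + (n + 1) h(P) - N¹_S(D, P) ≤ h(P) / 2`, and every distribution of the proximities among
all infinite places and the primes of `V` and of the losses (of total at most `1/2`) among the
hyperplanes occurs if and only if it does not contradict this inequality.
-/

set_option autoImplicit false

open MeasureTheory NumberField Height Finset IsDedekindDomain LinearAlgebra.Projectivization
open NumberField.mixedEmbedding

namespace Pool.Agent.Results.MP_44a246_nt.AlmostEveryAdele

variable {K : Type} [Field K] {n r : ℕ}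

/-- the value at `x` of the linear form with coefficients `a` -/
def lin (a x : Fin (n + 1) → K) : K := ∑ j, a j * x j

/-- the local height of the hyperplane `a = 0` at `x` for the absolute value `f` -/
noncomputable def lam (f : AbsoluteValue K ℝ) (a x : Fin (n + 1) → K) : ℝ :=
  Real.log ((⨆ j, f (a j)) * (⨆ j, f (x j)) / f (lin a x))

/-- the largest sum of local heights over a linearly independent subfamily of the arrangement -/
noncomputable def wt (f : AbsoluteValue K ℝ) (a : Fin r → Fin (n + 1) → K) (x : Fin (n + 1) → K) : ℝ :=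
  ⨆ I : {I : Finset (Fin r) // LinearIndependent K (fun i : I => a i)}, ∑ i ∈ I.1, lam f (a i) x

variable [NumberField K]

/-- the `v`-adic absolute value -/
noncomputable def fv (v : HeightOneSpectrum (𝓞 K)) : AbsoluteValue K ℝ := (FinitePlace.mk v).1

/-- the norm of a prime -/
noncomputable def Nv (v : HeightOneSpectrum (𝓞 K)) : ℝ := (Ideal.absNorm v.asIdeal : ℝ)

/-- the height with respect to `K_X + D + (n + 1) H`: the sum of `wt` over all places -/
noncomputable def hW (a : Fin r → Fin (n + 1) → K) (x : Fin (n + 1) → K) : ℝ :=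
  ∑ w : InfinitePlace K, (w.mult : ℝ) * wt w.1 a x + ∑ᶠ v : HeightOneSpectrum (𝓞 K), wt (fv v) a x

open Classical in
/-- the truncated counting function of the arrangement: the sum of `log N(v)` over the primes outside
`S` at which the point reduces into one of the hyperplanes -/
noncomputable def N1 (S : Finset (HeightOneSpectrum (𝓞 K))) (a : Fin r → Fin (n + 1) → K)
    (x : Fin (n + 1) → K) : ℝ :=
  ∑ᶠ v : HeightOneSpectrum (𝓞 K), if v ∉ S ∧ ∃ i, 0 < lam (fv v) (a i) x then Real.log (Nv v) else 0

/-- the group of the integral finite adelic points: the product over all primes `v` of `O_v^n`, with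
the product topology -/
abbrev FinAd (K : Type) [Field K] [NumberField K] (n : ℕ) : Type :=
  (v : HeightOneSpectrum (𝓞 K)) → Fin n → v.adicCompletionIntegers K

/-- the proximity function at the infinite place `w`: `n_w log max (1, 1 / max_j |ξ_j - x_j / x_0|_w)` -/
noncomputable def mw (ξ : Fin n → mixedSpace K) (w : InfinitePlace K) (x : Fin (n + 1) → K) : ℝ :=
  (w.mult : ℝ) *
    Real.log (max 1 (⨆ j : Fin n, normAtPlace w (ξ j - mixedEmbedding K (x j.succ / x 0)))⁻¹)

/-- the proximity function at the prime `v`: `log max (1, 1 / max_j |η_j - x_j / x_0|_v)` -/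
noncomputable def mv (η : FinAd K n) (v : HeightOneSpectrum (𝓞 K)) (x : Fin (n + 1) → K) : ℝ :=
  Real.log (max 1
    (⨆ j : Fin n, ‖(η v j : v.adicCompletion K) - FinitePlace.embedding v (x j.succ / x 0)‖)⁻¹)

/-- the proximity function at all infinite places and at the primes in `V` -/
noncomputable def prox (V : Finset (HeightOneSpectrum (𝓞 K)))
    (p : (Fin n → mixedSpace K) × FinAd K n) (x : Fin (n + 1) → K) : ℝ :=
  ∑ w : InfinitePlace K, mw p.1 w x + ∑ v ∈ V, mv p.2 v x

open scoped Classical in
/-- **The metric law for adelic targets.** Let `μ` be a finite translation invariant Borel measure on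
the compact group `FinAd K n` (a multiple of Haar measure). For almost every adelic point
`p = (ξ, η)` with respect to the product of Lebesgue measure and `μ`, for all arrangements `a` of `r`
hyperplanes, all finite sets `S` and `V` of primes:
(1) for every `ε > 0` there is `C` such that all rational points off the arrangement with
`n m_V ≥ (n + 1/2 + ε) h` or `h_(K_X + D) + (n + 1) h - N¹_S(D) ≤ h / 2` satisfy
`h_(K_X + D) + n m_V ≤ N¹_S(D) + ε h + C`;
(2) if the hyperplanes are distinct and `τ_w ≥ 0` (all infinite `w`), `σ_v ≥ 0` (all `v ∈ V`), `δ_i ≥ 0`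
satisfy `∑ δ_i ≤ 1/2` and `∑ τ_w + ∑ σ_v + ∑ δ_i ≤ n + 1`, then there are rational points with `h → ∞`,
`n m_w / h → τ_w` for every infinite place `w`, `n m_v / h → σ_v` for every `v ∈ V`,
`(h_(K_X + D) + (n + 1) h - N¹_S(D)) / h → ∑ δ_i` and `N¹_S(H_i) / h → 1 - δ_i` for every single
hyperplane `H_i`. -/
theorem result (K : Type) [Field K] [NumberField K] (n : ℕ) (hn : 1 ≤ n)
    [MeasurableSpace (FinAd K n)] [BorelSpace (FinAd K n)] (μ : Measure (FinAd K n))
    [IsFiniteMeasure μ] [μ.IsAddLeftInvariant] :
    ∀ᵐ p : (Fin n → mixedSpace K) × FinAd K n ∂(volume.prod μ),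
      ∀ (r : ℕ) (a : Fin r → Fin (n + 1) → K), (∀ i, a i ≠ 0) →
      ∀ S V : Finset (HeightOneSpectrum (𝓞 K)),
        (∀ ε : ℝ, 0 < ε → ∃ C : ℝ, ∀ P : ℙ K (Fin (n + 1) → K),
          P.rep 0 ≠ 0 → (∀ i, lin (a i) P.rep ≠ 0) →
          (((n : ℝ) + 1 / 2 + ε) * Real.log P.mulHeight ≤ n * prox V p P.rep ∨
            hW a P.rep - N1 S a P.rep ≤ 1 / 2 * Real.log P.mulHeight) →
          hW a P.rep - ((n : ℝ) + 1) * Real.log P.mulHeight + n * prox V p P.rep ≤
            N1 S a P.rep + ε * Real.log P.mulHeight + C) ∧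
        ((∀ i l, i ≠ l → ∀ c : K, a i ≠ c • a l) →
          ∀ (τ : InfinitePlace K → ℝ) (σ : HeightOneSpectrum (𝓞 K) → ℝ) (δ : Fin r → ℝ),
          (∀ w, 0 ≤ τ w) → (∀ v, 0 ≤ σ v) → (∀ i, 0 ≤ δ i) → ∑ i, δ i ≤ 1 / 2 →
          ∑ w, τ w + ∑ v ∈ V, σ v + ∑ i, δ i ≤ n + 1 →
          ∀ ε : ℝ, 0 < ε → ∀ B : ℝ, ∃ P : ℙ K (Fin (n + 1) → K),
            P.rep 0 ≠ 0 ∧ (∀ i, lin (a i) P.rep ≠ 0) ∧ B ≤ Real.log P.mulHeight ∧
            (∀ w, |n * mw p.1 w P.rep / Real.log P.mulHeight - τ w| ≤ ε) ∧
            (∀ v ∈ V, |n * mv p.2 v P.rep / Real.log P.mulHeight - σ v| ≤ ε) ∧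
            |(hW a P.rep - N1 S a P.rep) / Real.log P.mulHeight - ∑ i, δ i| ≤ ε ∧
            ∀ i, |N1 S (fun _ : Fin 1 => a i) P.rep / Real.log P.mulHeight - (1 - δ i)| ≤ ε) := by
  filter_upwards [Q273.AD.lawA Q273.AD.fae' hn μ, Q273.AD.gen_aeA μ] with p hlaw hgen
  intro r a ha S V
  refine ⟨fun ε hε => ?_, fun hd τ σ δ hτ hσ hδ hΔ hsum ε hε B => ?_⟩
  · obtain ⟨C, hC⟩ := hlaw r a ha S V ε hε
    refine ⟨C, fun P _ hP hle => ?_⟩
    have h : n * prox V p P.rep + (hW a P.rep - N1 S a P.rep) ≤
        ((n : ℝ) + 1 + ε) * Real.log P.mulHeight + C := hC P hP hle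
    linarith
  · obtain ⟨P, h1, h2, h3, h4, h4', h5, h6⟩ := Q273.AD.sharpA2 hn hgen.1 hgen.2 S a ha hd
      (hlaw r a ha S) V τ σ δ hτ hσ hδ hΔ hsum ε hε (max B 1)
    have hH : 0 < Real.log P.mulHeight := lt_of_lt_of_le one_pos ((le_max_right _ _).trans h3)
    refine ⟨P, h2, h1, (le_max_left _ _).trans h3, fun w => ?_, fun v hv => ?_, ?_, fun i => ?_⟩
    · rw [div_sub' hH.ne', abs_div, abs_of_pos hH, div_le_iff₀ hH]
      rw [mul_comm (Real.log P.mulHeight)]
      exact h4 w
    · rw [div_sub' hH.ne', abs_div, abs_of_pos hH, div_le_iff₀ hH]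
      rw [mul_comm (Real.log P.mulHeight)]
      exact h4' v hv
    · rw [div_sub' hH.ne', abs_div, abs_of_pos hH, div_le_iff₀ hH]
      rw [mul_comm (Real.log P.mulHeight)]
      exact h5
    · rw [div_sub' hH.ne', abs_div, abs_of_pos hH, div_le_iff₀ hH]
      have h7 := h6 i
      rw [← abs_neg] at h7
      refine le_trans (le_of_eq ?_) h7
      congr 1
      show N1 S (fun _ : Fin 1 => a i) P.rep - Real.log P.mulHeight * (1 - δ i) =
        -(Real.log P.mulHeight - N1 S (fun _ : Fin 1 => a i) P.rep - δ i * Real.log P.mulHeight)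
      ring

end Pool.Agent.Results.MP_44a246_nt.AlmostEveryAdele
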