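import Mathlib
import Pool.Agent.Q273.MV.Fin

/-!
# The truncated Vojta inequality with an extra archimedean target: the exact law for almost every target

`K` is a number field, `n ≥ 1`, and `a` an arrangement of `r` hyperplanes of `ℙ^n` over `K` (no general
position, any `r`). Let `X` be the log resolution of the arrangement obtained by blowing up all its
flats and `D` the reduced preimage of the arrangement, a normal crossings divisor. As in the starting
file `MP_9ec3f0_nt/HyperplaneArrangements` the height with respect to `K_X + D + (n + 1) H` is `hW`, and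
`N1` is the truncated counting function. `m(ξ, P) = prox ξ P` is the proximity function of a rational
point `P` to a point `ξ = (ξ_w)_w` of `(K ⊗ ℝ)^n`, summed over all archimedean places `w`.

For almost every `ξ` the inequality `h_(K_X + D)(P) + n m(ξ, P) ≤ N¹_S(D, P) + ε h(P) + C` holds for all
arrangements, all `S` and all `P` with `n m(ξ, P) ≥ (n + 1/2 + ε) h(P)`, and every distribution
`δ_1, …, δ_r` of the losses among the hyperplanes with `∑ δ_i ≤ 1/2` occurs with equality.
-/

set_option autoImplicit false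

open MeasureTheory NumberField Height Finset IsDedekindDomain LinearAlgebra.Projectivization
open NumberField.mixedEmbedding

namespace Pool.Agent.Results.MP_44a246_nt.AlmostEveryTarget

variable {K : Type} [Field K] {n r : ℕ}

/-- the value at `x` of the linear form with coefficients `a` -/
def lin (a x : Fin (n + 1) → K) : K := ∑ j, a j * x j

/-- the local height of the hyperplane `a = 0` at `x` for the absolute value `f` -/
noncomputable def lam (f : AbsoluteValue K ℝ) (a x : Fin (n + 1) → K) : ℝ :=
  Real.log ((⨆ j, f (a j)) * (⨆ j, f (x j)) / f (lin a x))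

/-- the largest sum of local heights over a linearly independent subfamily of the arrangement -/
noncomputable def wt (f : AbsoluteValue K ℝ) (a : Fin r → Fin (n + 1) → K) (x : Fin (n + 1) → K) : ℝ :=
  ⨆ I : {I : Finset (Fin r) // LinearIndependent K (fun i : I => a i)}, ∑ i ∈ I.1, lam f (a i) x

variable [NumberField K]

/-- the `v`-adic absolute value -/
noncomputable def fv (v : HeightOneSpectrum (𝓞 K)) : AbsoluteValue K ℝ := (FinitePlace.mk v).1

/-- the norm of a prime -/
noncomputable def Nv (v : HeightOneSpectrum (𝓞 K)) : ℝ := (Ideal.absNorm v.asIdeal : ℝ)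

/-- the height with respect to `K_X + D + (n + 1) H`: the sum of `wt` over all places -/
noncomputable def hW (a : Fin r → Fin (n + 1) → K) (x : Fin (n + 1) → K) : ℝ :=
  ∑ w : InfinitePlace K, (w.mult : ℝ) * wt w.1 a x + ∑ᶠ v : HeightOneSpectrum (𝓞 K), wt (fv v) a x

open Classical in
/-- the truncated counting function of the arrangement: the sum of `log N(v)` over the primes outside
`S` at which the point reduces into one of the hyperplanes -/
noncomputable def N1 (S : Finset (HeightOneSpectrum (𝓞 K))) (a : Fin r → Fin (n + 1) → K)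
    (x : Fin (n + 1) → K) : ℝ :=
  ∑ᶠ v : HeightOneSpectrum (𝓞 K), if v ∉ S ∧ ∃ i, 0 < lam (fv v) (a i) x then Real.log (Nv v) else 0

/-- the proximity function: the sum over the archimedean places `w` of
`n_w log max (1, 1 / max_j |ξ_j - x_j / x_0|_w)` -/
noncomputable def prox (ξ : Fin n → mixedSpace K) (x : Fin (n + 1) → K) : ℝ :=
  ∑ w : InfinitePlace K, (w.mult : ℝ) *
    Real.log (max 1 (⨆ j : Fin n, normAtPlace w (ξ j - mixedEmbedding K (x j.succ / x 0)))⁻¹)

open scoped Classical in
/-- **The metric law.** For almost every `ξ ∈ (K ⊗ ℝ)^n` no coordinate of `ξ` agrees with an element of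
`K` at a place, and for all arrangements `a` of `r` hyperplanes and all finite sets `S` of primes:
(1) for every `ε > 0` there is `C` such that all rational points off the arrangement with
`n m(ξ, P) ≥ (n + 1/2 + ε) h(P)` satisfy `h_(K_X + D)(P) + n m(ξ, P) ≤ N¹_S(D, P) + ε h(P) + C`;
(2) if the hyperplanes are distinct and `δ_i ≥ 0`, `∑ δ_i ≤ 1/2`, then there are rational points with
`h → ∞`, `n m(ξ, P) / h → n + 1 - ∑ δ_i`, `(h_(K_X + D) + (n + 1) h - N¹_S(D, P)) / h → ∑ δ_i` and
`N¹_S(H_i, P) / h → 1 - δ_i` for every single hyperplane `H_i`. -/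
theorem result (K : Type) [Field K] [NumberField K] (n : ℕ) (hn : 1 ≤ n) :
    ∀ᵐ ξ : Fin n → mixedSpace K,
      (∀ (w : InfinitePlace K) (j : Fin n) (y : K), normAtPlace w (ξ j - mixedEmbedding K y) ≠ 0) ∧
      ∀ (r : ℕ) (a : Fin r → Fin (n + 1) → K), (∀ i, a i ≠ 0) →
      ∀ S : Finset (HeightOneSpectrum (𝓞 K)),
        (∀ ε : ℝ, 0 < ε → ∃ C : ℝ, ∀ P : ℙ K (Fin (n + 1) → K),
          P.rep 0 ≠ 0 → (∀ i, lin (a i) P.rep ≠ 0) →
          ((n : ℝ) + 1 / 2 + ε) * Real.log P.mulHeight ≤ n * prox ξ P.rep →
          hW a P.rep - ((n : ℝ) + 1) * Real.log P.mulHeight + n * prox ξ P.rep ≤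
            N1 S a P.rep + ε * Real.log P.mulHeight + C) ∧
        ((∀ i l, i ≠ l → ∀ c : K, a i ≠ c • a l) →
          ∀ δ : Fin r → ℝ, (∀ i, 0 ≤ δ i) → ∑ i, δ i ≤ 1 / 2 →
          ∀ ε : ℝ, 0 < ε → ∀ B : ℝ, ∃ P : ℙ K (Fin (n + 1) → K),
            P.rep 0 ≠ 0 ∧ (∀ i, lin (a i) P.rep ≠ 0) ∧ B ≤ Real.log P.mulHeight ∧
            |n * prox ξ P.rep / Real.log P.mulHeight - ((n : ℝ) + 1 - ∑ i, δ i)| ≤ ε ∧
            |(hW a P.rep - N1 S a P.rep) / Real.log P.mulHeight - ∑ i, δ i| ≤ ε ∧
            ∀ i, |N1 S (fun _ : Fin 1 => a i) P.rep / Real.log P.mulHeight - (1 - δ i)| ≤ ε) := by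
  have : Countable K := Q273.Apx.countable_numberField K
  filter_upwards [Q273.MV.law (K := K) hn, Q273.MV.gen_ae (K := K) (n := n)] with ξ hlaw hgen
  refine ⟨?_, ?_⟩
  · intro w j y h0
    have h1 := hgen (Fin.cons (-y) (Pi.single j 1)) (by
      intro h0
      have h2 := congrFun h0 (Fin.succ j)
      rw [Fin.cons_succ, Pi.single_eq_same] at h2
      exact one_ne_zero h2) w
    apply h1
    have h2 : Q273.MV.linX (Fin.cons (-y) (Pi.single j 1)) ξ = ξ j - mixedEmbedding K y := by
      unfold Q273.MV.linX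
      rw [Fin.cons_zero, Finset.sum_eq_single j]
      · rw [Fin.cons_succ, Pi.single_eq_same, map_one, one_mul, map_neg]
        ring
      · intro i _ hj
        rw [Fin.cons_succ, Pi.single_eq_of_ne hj, map_zero, zero_mul]
      · intro h
        exact absurd (Finset.mem_univ _) h
    rw [h2]
    exact h0
  intro r a ha S
  refine ⟨fun ε hε => ?_, fun hd δ hδ hΔ ε hε B => ?_⟩
  · obtain ⟨C, hC⟩ := hlaw r a ha S ε hε
    refine ⟨C, fun P _ hP hle => ?_⟩
    have h := hC P hP hle
    have h1 : n * prox ξ P.rep + (hW a P.rep - N1 S a P.rep) ≤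
        ((n : ℝ) + 1 + ε) * Real.log P.mulHeight + C := h
    linarith
  · obtain ⟨P, h1, h2, h3, h4, h5, h6⟩ := Q273.MV.sharp2 hn hgen S a ha hd
      (fun ε hε => hlaw r a ha S ε hε) δ hδ hΔ ε hε (max B 1)
    have hH : 0 < Real.log P.mulHeight := lt_of_lt_of_le one_pos ((le_max_right _ _).trans h3)
    refine ⟨P, h2, h1, (le_max_left _ _).trans h3, ?_, ?_, fun i => ?_⟩
    · rw [div_sub' hH.ne', abs_div, abs_of_pos hH, div_le_iff₀ hH]
      rw [mul_comm (Real.log P.mulHeight)]
      exact h4
    · rw [div_sub' hH.ne', abs_div, abs_of_pos hH, div_le_iff₀ hH]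
      rw [mul_comm (Real.log P.mulHeight)]
      exact h5
    · rw [div_sub' hH.ne', abs_div, abs_of_pos hH, div_le_iff₀ hH]
      have h7 := h6 i
      rw [← abs_neg] at h7
      refine le_trans (le_of_eq ?_) h7
      congr 1
      show N1 S (fun _ : Fin 1 => a i) P.rep - Real.log P.mulHeight * (1 - δ i) =
        -(Real.log P.mulHeight - N1 S (fun _ : Fin 1 => a i) P.rep - δ i * Real.log P.mulHeight)
      ring

end Pool.Agent.Results.MP_44a246_nt.AlmostEveryTarget
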