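import Pool.Agent.Q265.BD.H

/-!
# Three points, all degrees, and the values of one map

Let `K` be a number field, `F` a finite extension of `K`, `D = {b 1, …, b k, ∞}` a finite set of
`F`-rational points of the projective line, `k ≥ 2`, and `f` any rational function over `F` which is
unramified outside `D`, with `f(∞) ∈ D`. The truncated Vojta inequality (with the logarithmic
discriminant, all degrees, all `S` and `ε`) for `D` at the points `f(t)`, where `t ∈ L` and `L` runs
through the number fields containing `F`, computed over the field `L`, implies the truncated Vojta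
inequality for `{0, 1, ∞}` over `K`, for the points of all degrees. For `D = {0, 1, ∞}` (Belyi maps)
the two are equivalent. No point over `D` except `∞` has to be rational over `F`.
-/

set_option autoImplicit false

open NumberField Polynomial Height IntermediateField

namespace Pool.Agent.Results.MP_44a246_nt.AnyUnramifiedMap

instance finiteDim {K : Type} [Field K] [NumberField K] (t : AlgebraicClosure K) :
    FiniteDimensional K K⟮t⟯ :=
  adjoin.finiteDimensional (Algebra.IsIntegral.isIntegral t)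

instance numberField {K : Type} [Field K] [NumberField K] (t : AlgebraicClosure K) :
    NumberField K⟮t⟯ :=
  NumberField.of_module_finite K K⟮t⟯

variable (K : Type) [Field K] [NumberField K]

/-- the height of `y ∈ L` relative to `K` -/
noncomputable def height {L : Type} [Field L] [NumberField L] [Algebra K L] (y : L) : ℝ :=
  logHeight₁ y / Module.finrank K L

/-- The points `[y : 1]` and `[a : 1]` coincide modulo the prime of `w`. -/
def Meets {L : Type} [Field L] [NumberField L] (w : FinitePlace L) (a y : L) : Prop :=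
  w (y - a) < max (w y) 1 * max (w a) 1

/-- The place `w` of `L` lies over `S`. -/
def Over {K : Type} [Field K] [NumberField K] (S : Finset (FinitePlace K)) {L : Type} [Field L]
    [NumberField L] [Algebra K L] (w : FinitePlace L) : Prop :=
  ∃ v ∈ S, w.maximalIdeal.asIdeal.LiesOver v.maximalIdeal.asIdeal

/-- The truncated counting function `N_S⁽¹⁾(D, y)` of `y ∈ L` for `D = {a 1, …, a m, ∞}`: the sum of
`log N(𝔭) / [L : K]` over the primes of `L` not lying over `S` at which `y` meets `D` (`y` meets `∞`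
if `1 < w y`). -/
noncomputable def N1 (S : Finset (FinitePlace K)) {L : Type} [Field L] [NumberField L] [Algebra K L]
    {m : ℕ} (a : Fin m → L) (y : L) : ℝ :=
  (∑ᶠ w ∈ {w : FinitePlace L | ¬ Over S w ∧ ((∃ i, Meets w (a i) y) ∨ 1 < w y)},
    Real.log ((Ideal.absNorm w.maximalIdeal.asIdeal : ℕ) : ℝ)) / Module.finrank K L

/-- The logarithmic discriminant of `L` over `K`: the logarithm of the norm of the discriminant of
`L / K` is `log |disc L| - [L : K] log |disc K|`. -/
noncomputable def logDisc (L : Type) [Field L] [NumberField L] [Algebra K L] : ℝ :=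
  Real.log |(discr L : ℝ)| / Module.finrank K L - Real.log |(discr K : ℝ)|

/-- The truncated Vojta inequality for `D = {a 1, …, a m, ∞}` (`K_X + D` has degree `m + 1 - 2`) at
the point `y ∈ L`, computed over the field `L`, with the error term `ε h(y) + C`. -/
def Ineq (S : Finset (FinitePlace K)) (ε C : ℝ) {L : Type} [Field L] [NumberField L] [Algebra K L]
    {m : ℕ} (a : Fin m → L) (y : L) : Prop :=
  (((m + 1 : ℕ) : ℝ) - 2) * height K y ≤ N1 K S a y + ε * height K y + logDisc K L + C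

/-- Vojta's conjecture with truncated counting function for the projective line and the divisor
`0 + 1 + ∞` over `K`: the inequality at all points `t` of degree at most `r`, over the field
`L = K(t)`, for all `r`, `S`, `ε`. -/
def ThreePoints : Prop :=
  ∀ (r : ℕ) (S : Finset (FinitePlace K)) (ε : ℝ), 0 < ε → ∃ C : ℝ,
    ∀ t : AlgebraicClosure K, Module.finrank K K⟮t⟯ ≤ r → t ≠ 0 → t ≠ 1 →
      Ineq K S ε C ![0, 1] (AdjoinSimple.gen K t)

/-- The inequality for `D = {b 1, …, b k, ∞}` at the values `f(t)`, `f = p / q`, of the elements `t`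
of the number fields `L` containing `F`, computed over the field `L`. -/
def OnValues (F : Type) [Field F] [NumberField F] [Algebra K F] {k : ℕ} (b : Fin k → F)
    (p q : F[X]) : Prop :=
  ∀ (r : ℕ) (S : Finset (FinitePlace K)) (ε : ℝ), 0 < ε → ∃ C : ℝ,
    ∀ (L : Type) [Field L] [NumberField L] [Algebra K L] [Algebra F L] [IsScalarTower K F L],
      Module.finrank K L ≤ r → ∀ t : L, aeval t q ≠ 0 →
        (∀ j, aeval t p / aeval t q ≠ algebraMap F L (b j)) →
        Ineq K S ε C (fun j => algebraMap F L (b j)) (aeval t p / aeval t q)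

variable {K}

/-- The rational function `f = p / q` over `F` has degree `d ≥ 1`, and there are at most
`d (k - 1) + 1` points other than `∞` over the algebraic closure which `f` maps to
`D = {b 1, …, b k, ∞}`. By the formula of Riemann and Hurwitz this means that `f` is unramified
outside `D` and that `f(∞) ∈ D`. -/
def IsUnramified {F : Type} [Field F] (p q : F[X]) (d : ℕ) {k : ℕ} (b : Fin k → F) : Prop :=
  IsCoprime p q ∧ 1 ≤ d ∧ p.natDegree ≤ d ∧ q.natDegree ≤ d ∧ (p.natDegree = d ∨ q.natDegree = d) ∧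
    ((q * ∏ j, (p - C (b j) * q)).rootSet (AlgebraicClosure F)).ncard ≤ d * (k - 1) + 1

theorem sum_eq {L : Type} [Field L] [NumberField L] (T : Set (FinitePlace L)) :
    (∑ᶠ v ∈ T, Real.log ((Ideal.absNorm v.maximalIdeal.asIdeal : ℕ) : ℝ)) =
      Real.log (Q265.NF.PP T) := by
  unfold Q265.NF.PP
  rw [Real.log_finprod (fun v => lt_of_lt_of_le one_pos (Q241.AK.one_le_pr _ v))]
  refine finsum_congr fun v => ?_
  classical
  rw [finsum_eq_if]
  unfold Q241.AK.pr Q241.AK.N
  by_cases hv : v ∈ T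
  · rw [if_pos hv, if_pos hv]
  · rw [if_neg hv, if_neg hv, Real.log_one]

theorem ineq_iff (S : Finset (FinitePlace K)) (ε C : ℝ) {L : Type} [Field L] [NumberField L]
    [Algebra K L] {m : ℕ} (a : Fin m → L) (y : L) :
    Ineq K S ε C a y ↔ Q265.BD.IneqA K S ε C a y := by
  unfold Ineq N1
  rw [sum_eq]
  rfl

theorem back {F : Type} [Field F] [NumberField F] [Algebra K F] {k d : ℕ} {b : Fin k → F}
    {p q : F[X]} (hk : 2 ≤ k) (hb : Function.Injective b) (hf : IsUnramified p q d b)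
    (H : OnValues K F b p q) : ThreePoints K := by
  obtain ⟨h1, h2, h3, h4, h5, h6⟩ := hf
  obtain ⟨n, R, C, hn, hC, step⟩ := Q265.BD.stepC K F h2 h1 h3 h4 h5 hk hb h6
  intro r S ε hε
  have hdr : (1 : ℝ) ≤ d := by exact_mod_cast h2
  have hkr : (2 : ℝ) ≤ k := by exact_mod_cast hk
  obtain ⟨ε', hε'⟩ : ∃ ε' : ℝ, ε' = min (ε / d) 1 := ⟨_, rfl⟩
  have hε'0 : 0 < ε' := by rw [hε']; positivity
  have hε'1 : ε' ≤ 1 := by rw [hε']; exact min_le_right _ _
  have hε'd : ε' * d ≤ ε := by
    have : ε' ≤ ε / d := by rw [hε']; exact min_le_left _ _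
    rwa [le_div_iff₀ (by linarith)] at this
  obtain ⟨C0, h0⟩ := H (r * R) S ε' hε'0
  obtain ⟨DK, hDK⟩ : ∃ DK : ℝ, DK = Module.finrank ℚ K := ⟨_, rfl⟩
  have hDK0 : 0 ≤ DK := by rw [hDK]; positivity
  obtain ⟨δK, hδK⟩ : ∃ δK : ℝ, δK = Real.log |(discr K : ℝ)| := ⟨_, rfl⟩
  have hlogd : ∀ (L : Type) [Field L] [NumberField L], 0 ≤ Real.log |(discr L : ℝ)| := by
    intro L _ _
    refine Real.log_nonneg ?_
    have := Int.one_le_abs (NumberField.discr_ne_zero L)
    exact_mod_cast this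
  have hδK0 : 0 ≤ δK := by rw [hδK]; exact hlogd K
  refine ⟨|C0| + (k + 1) * (DK * C) + |(1 : ℝ) - ε| * (DK * C) + δK, fun t htr ht0 ht1 => ?_⟩
  obtain ⟨s, hs⟩ : ∃ s : K⟮t⟯, s = AdjoinSimple.gen K t := ⟨_, rfl⟩
  have hcoe : (s : AlgebraicClosure K) = t := by rw [hs]; exact AdjoinSimple.coe_gen K t
  have hs0 : s ≠ 0 := by
    rintro h
    rw [h] at hcoe
    exact ht0 (by rw [← hcoe]; rfl)
  have hs1 : s ≠ 1 := by
    rintro h
    rw [h] at hcoe
    exact ht1 (by rw [← hcoe]; rfl)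
  rw [← hs, ineq_iff, Q265.BD.ineqA_iff]
  obtain ⟨n0, hn0⟩ : ∃ n0 : ℝ, n0 = Module.finrank K K⟮t⟯ := ⟨_, rfl⟩
  have hn0p : 0 < n0 := by
    rw [hn0]
    exact_mod_cast Module.finrank_pos
  obtain ⟨M, i1, i2, i3, i4, i5, i6, i7, hMR, τ, k1, k2⟩ := step K⟮t⟯ s hs0 hs1
  have hfin : (Module.finrank ℚ K⟮t⟯ : ℝ) = DK * n0 := by
    rw [← Module.finrank_mul_finrank ℚ K K⟮t⟯, hDK, hn0]
    push_cast
    rfl
  obtain ⟨mm, hmm⟩ : ∃ mm : ℝ, mm = Module.finrank K⟮t⟯ M := ⟨_, rfl⟩
  have hmmp : 0 < mm := by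
    rw [hmm]
    exact_mod_cast Module.finrank_pos
  have hKM : (Module.finrank K M : ℝ) = n0 * mm := by
    rw [← Module.finrank_mul_finrank K K⟮t⟯ M, hn0, hmm]
    push_cast
    rfl
  have hQM : (Module.finrank ℚ M : ℝ) = DK * n0 * mm := by
    rw [← Module.finrank_mul_finrank ℚ K⟮t⟯ M, ← hfin, hmm]
    push_cast
    rfl
  obtain ⟨hh, hhh⟩ : ∃ hh : ℝ, hh = logHeight₁ s := ⟨_, rfl⟩
  have hh0 : 0 ≤ hh := by rw [hhh]; exact zero_le_logHeight₁ s
  obtain ⟨U, hU⟩ : ∃ U : ℝ, U = Real.log (Q265.NF.PP (Q265.BD.UsA (Q265.BD.Ab S K⟮t⟯)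
      ![0, 1] s)) := ⟨_, rfl⟩
  have hU0 : 0 ≤ U := by rw [hU]; exact Q265.BM.log_PP_nonneg _
  obtain ⟨δ, hδ⟩ : ∃ δ : ℝ, δ = Real.log |(discr K⟮t⟯ : ℝ)| := ⟨_, rfl⟩
  have hδ0 : 0 ≤ δ := by rw [hδ]; exact hlogd _
  rw [← hhh, ← hU, ← hδ, ← hδK, ← hn0]
  rw [← hhh, hfin] at k1
  have hb0 := le_abs_self C0
  have hb1 := abs_nonneg C0
  have hDC : 0 ≤ DK * C := by positivity
  have hb2 : 0 ≤ (k + 1) * (DK * C) := by positivity
  have hb3 : 0 ≤ |(1 : ℝ) - ε| * (DK * C) := by positivity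
  have e0 : (((2 : ℕ) : ℝ) - 1 - ε) * hh = (1 - ε) * hh := by
    push_cast
    ring
  rw [e0]
  by_cases hdegen : ((Q265.BM.Pol p q b).map (algebraMap F M)).eval τ = 0
  · have k3 := k1 hdegen
    have k4 : (1 - ε) * hh ≤ n0 * (|(1 : ℝ) - ε| * (DK * C)) := by
      calc (1 - ε) * hh ≤ |(1 : ℝ) - ε| * hh := mul_le_mul_of_nonneg_right (le_abs_self _) hh0
        _ ≤ |(1 : ℝ) - ε| * (DK * n0 * C) := mul_le_mul_of_nonneg_left k3 (abs_nonneg _)
        _ = _ := by ring
    have k5 : n0 * (|(1 : ℝ) - ε| * (DK * C)) ≤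
        n0 * (|C0| + (k + 1) * (DK * C) + |(1 : ℝ) - ε| * (DK * C) + δK - δK) := by
      apply mul_le_mul_of_nonneg_left _ hn0p.le
      linarith
    linarith
  · obtain ⟨hqt, k3⟩ := k2 hdegen
    obtain ⟨y, hy⟩ : ∃ y : M, y = aeval τ p / aeval τ q := ⟨_, rfl⟩
    have hy' : y = (p.map (algebraMap F M)).eval τ / (q.map (algebraMap F M)).eval τ := by
      rw [hy, eval_map_algebraMap, eval_map_algebraMap]
    obtain ⟨k4, k5, k6⟩ := k3 y hy'
    have k7 := k6 (Q265.BD.Ab S K⟮t⟯)
    rw [Q265.BD.Up_Ab] at k7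
    have hqt' : aeval τ q ≠ 0 := by
      rw [eval_map_algebraMap] at hqt
      exact hqt
    have hMr : Module.finrank K M ≤ r * R := by
      rw [← Module.finrank_mul_finrank K K⟮t⟯ M]
      exact Nat.mul_le_mul htr hMR
    have h7 := h0 M hMr τ hqt' (by rw [← hy]; exact k4)
    rw [← hy, ineq_iff, Q265.BD.ineqA_iff, hKM, ← hδK] at h7
    rw [← hhh, ← hmm, hQM] at k5
    rw [← hmm, ← hδ, ← hU, ← hhh, hQM] at k7
    obtain ⟨A, hA⟩ : ∃ A : ℝ, A = Real.log (Q265.NF.PP (Q265.BD.UsA (Q265.BD.Ab S M)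
      (fun j => algebraMap F M (b j)) y)) := ⟨_, rfl⟩
    obtain ⟨δM, hδM⟩ : ∃ δM : ℝ, δM = Real.log |(discr M : ℝ)| := ⟨_, rfl⟩
    obtain ⟨HM, hHM⟩ : ∃ HM : ℝ, HM = logHeight₁ y := ⟨_, rfl⟩
    rw [← hA, ← hδM, ← hHM] at h7
    rw [← hA, ← hδM] at k7
    rw [← hHM] at k5
    have hε1 : 0 ≤ (k : ℝ) - 1 - ε' := by linarith
    have m1 : ((k : ℝ) - 1 - ε') * (d * (mm * hh) - DK * n0 * mm * C) ≤
        ((k : ℝ) - 1 - ε') * HM := mul_le_mul_of_nonneg_left (by linarith) hε1
    have m2 : mm * (((k : ℝ) - 1 - ε') * (d * hh - DK * n0 * C)) ≤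
        mm * (δ + U + n * hh + DK * n0 * C + n0 * (C0 - δK)) := by
      have e6 : mm * (((k : ℝ) - 1 - ε') * (d * hh - DK * n0 * C)) =
          ((k : ℝ) - 1 - ε') * (d * (mm * hh) - DK * n0 * mm * C) := by ring
      have e7 : mm * (δ + U + n * hh + DK * n0 * C + n0 * (C0 - δK)) =
          (mm * (δ + U + n * hh) + DK * n0 * mm * C) + n0 * mm * (C0 - δK) := by ring
      rw [e6, e7]
      linarith
    have m3 := le_of_mul_le_mul_left m2 hmmp
    have hnr : (2 : ℝ) + n ≤ d * (k - 1) + 1 := by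
      have : ((2 + n : ℕ) : ℝ) ≤ ((d * (k - 1) + 1 : ℕ) : ℝ) := by exact_mod_cast hn
      push_cast [Nat.cast_sub (by omega : 1 ≤ k)] at this
      exact this
    have m4 : (1 - ε) * hh ≤ (((k : ℝ) - 1 - ε') * d - n) * hh := by
      apply mul_le_mul_of_nonneg_right _ hh0
      have : ((k : ℝ) - 1 - ε') * (d : ℝ) = d * (k - 1) - ε' * d := by ring
      rw [this]
      linarith
    have m5 : ((k : ℝ) - 1 - ε') * (DK * n0 * C) ≤ n0 * (k * (DK * C)) := by
      have e : n0 * (k * (DK * C)) = k * (DK * n0 * C) := by ring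
      rw [e]
      apply mul_le_mul_of_nonneg_right _ (by positivity)
      linarith
    have e8 : ((k : ℝ) - 1 - ε') * (d * hh - DK * n0 * C) =
        (((k : ℝ) - 1 - ε') * d) * hh - ((k : ℝ) - 1 - ε') * (DK * n0 * C) := by ring
    rw [e8] at m3
    have e9 : (((k : ℝ) - 1 - ε') * d - n) * hh = (((k : ℝ) - 1 - ε') * d) * hh - n * hh := by ring
    rw [e9] at m4
    have e10 : n0 * (|C0| + (k + 1) * (DK * C) + |(1 : ℝ) - ε| * (DK * C) + δK - δK) =
        n0 * |C0| + n0 * (k * (DK * C)) + DK * n0 * C + n0 * (|(1 : ℝ) - ε| * (DK * C)) := by ring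
    rw [e10]
    have e11 : n0 * (C0 - δK) ≤ n0 * |C0| := by
      apply mul_le_mul_of_nonneg_left _ hn0p.le
      linarith
    have e12 : 0 ≤ n0 * (|(1 : ℝ) - ε| * (DK * C)) := by positivity
    linarith

theorem forth {F : Type} [Field F] [NumberField F] [Algebra K F] {p q : F[X]}
    (H : ThreePoints K) : OnValues K F ![0, 1] p q := by
  intro r S ε hε
  obtain ⟨C, hC⟩ := H r S ε hε
  refine ⟨C, fun L _ _ _ _ _ hr t _ ht => ?_⟩
  obtain ⟨y, hy⟩ : ∃ y : L, y = aeval t p / aeval t q := ⟨_, rfl⟩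
  rw [← hy] at ht ⊢
  have eF : (fun j => algebraMap F L ((![0, 1] : Fin 2 → F) j)) =
      fun j => algebraMap K L ((![0, 1] : Fin 2 → K) j) := by
    funext j
    fin_cases j <;> simp
  have ht' : ∀ j, y ≠ algebraMap K L ((![0, 1] : Fin 2 → K) j) := by
    intro j
    have h1 := ht j
    rwa [congrFun eF j] at h1
  rw [ineq_iff, eF]
  obtain ⟨t0, f, hf⟩ := Q265.BD.exists_gen (K := K) y
  have hdeg : Module.finrank K K⟮t0⟯ ≤ Module.finrank K L :=
    LinearMap.finrank_le_finrank_of_injective (f := f.toLinearMap) f.injective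
  have h0 : t0 ≠ 0 := by
    rintro h
    apply ht' 0
    have h1 : AdjoinSimple.gen K t0 = 0 := Subtype.ext (by rw [AdjoinSimple.coe_gen, h]; rfl)
    rw [← hf, h1, map_zero]
    simp
  have h1 : t0 ≠ 1 := by
    rintro h
    apply ht' 1
    have h1 : AdjoinSimple.gen K t0 = 1 := Subtype.ext (by rw [AdjoinSimple.coe_gen, h]; rfl)
    rw [← hf, h1, map_one]
    simp
  have h2 := hC t0 (hdeg.trans hr) h0 h1
  rw [ineq_iff] at h2
  have e2 : (![0, 1] : Fin 2 → K⟮t0⟯) = fun j => algebraMap K K⟮t0⟯ ((![0, 1] : Fin 2 → K) j) := by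
    funext j
    fin_cases j <;> simp
  rw [e2] at h2
  have h3 := Q265.BD.ineqA_mono f S ![0, 1] (by rw [hf]; exact ht') h2
  rw [hf] at h3
  exact h3

/-- (1) Let `F` be a finite extension of the number field `K`, `D = {b 1, …, b k, ∞}` with distinct
`b j ∈ F`, `k ≥ 2`, and `f = p / q` any rational function over `F` which is unramified outside `D`,
with `f(∞) ∈ D`. If for all degrees, `S` and `ε` the truncated Vojta inequality for `D` holds at the
values `f(t)`, `t ∈ L`, of the number fields `L` containing `F`, computed over `L`, then Vojta's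
conjecture with truncated counting function holds for the projective line over `K` and the divisor
`0 + 1 + ∞`, in all degrees.
(2) For `D = {0, 1, ∞}`, i.e. for every Belyi map `f` over `F`, the two are equivalent. -/
theorem result (K : Type) [Field K] [NumberField K] (F : Type) [Field F] [NumberField F]
    [Algebra K F] :
    (∀ (k d : ℕ) (b : Fin k → F) (p q : F[X]), 2 ≤ k → Function.Injective b →
      IsUnramified p q d b → OnValues K F b p q → ThreePoints K) ∧
    (∀ (d : ℕ) (p q : F[X]), IsUnramified p q d ![0, 1] →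
      (ThreePoints K ↔ OnValues K F ![0, 1] p q)) := by
  refine ⟨fun k d b p q hk hb hf H => back hk hb hf H, fun d p q hf => ⟨forth, back le_rfl ?_ hf⟩⟩
  intro i j hij
  fin_cases i <;> fin_cases j <;> simp_all

end Pool.Agent.Results.MP_44a246_nt.AnyUnramifiedMap
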