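import Mathlib
import Pool.Agent.Q273.ApxF
import Pool.Agent.Results.MP_44a246_nt.AllCurves

/-!
# The truncated Vojta inequality on all curves at the good approximations of almost all points

`A` is the ring of functions on a curve, with a finite map `t` to the affine line over `ℚ`, as in
the starting file AllCurves. For all points `ξ` of a metric space `Y` outside one set of small
Hausdorff dimension the truncated Vojta inequality with discriminant term holds, for all divisors,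
at all points `P` of the curve whose value `x = t(P)`, an algebraic number of degree `r`,
approximates `ξ`, with finitely many exceptions `x`.
-/

set_option autoImplicit false

namespace Pool.Agent.Results.MP_44a246_nt.GoodApproximations

open Polynomial IntermediateField IsDedekindDomain NumberField

/-- The absolute logarithmic height `(log M(f)) / deg f` of the roots of an irreducible integral
polynomial `f` (`M` is the Mahler measure). -/
noncomputable def height (f : ℤ[X]) : ℝ :=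
  Real.log (f.map (Int.castRingHom ℂ)).mahlerMeasure / f.natDegree

/-- the function `t` -/
noncomputable def coord (A : Type) [CommRing A] [Algebra ℚ[X] A] : A := algebraMap ℚ[X] A X

open Classical in
/-- The truncated counting function `N_S^{(1)}(D, P) / [L : ℚ]` of the divisor `D` whose part `D_j`
over `a_j` has the equations `y_{j 1} = ⋯ = y_{j u_j} = 0`: the sum of `log N(v) / [L : ℚ]` over
the primes `v` of `L`, not above primes of `S`, at which `P = φ` reduces to a point of `D`, that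
is, `|t(P)|_v ≤ 1` and for some `j` one has `|t(P) - a_j|_v < 1` and `|y_{j i}(P)|_v < 1` for all
`i`. -/
noncomputable def truncated {A : Type} [CommRing A] [Algebra ℚ[X] A] {q : ℕ} (S : Finset ℕ)
    (a : Fin q → ℚ) (u : Fin q → ℕ) (y : ∀ j, Fin (u j) → A)
    (L : IntermediateField ℚ ℂ) [NumberField L] (φ : A →+* L) : ℝ :=
  (∑ᶠ v : HeightOneSpectrum (𝓞 L),
      if (∀ p ∈ S, (p : 𝓞 L) ∉ v.asIdeal) ∧ v.valuation L (φ (coord A)) ≤ 1 ∧
        ∃ j, v.valuation L (φ (coord A) - (a j : L)) < 1 ∧ ∀ i, v.valuation L (φ (y j i)) < 1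
      then Real.log (Ideal.absNorm v.asIdeal) else 0) / Module.finrank ℚ L

/-- The logarithmic discriminant `log |disc L| / [L : ℚ]`. -/
noncomputable def logDisc (L : IntermediateField ℚ ℂ) [NumberField L] : ℝ :=
  Real.log |(NumberField.discr L : ℝ)| / Module.finrank ℚ L

/-- `q - (∑_j dim (A / E_j)) / N`, where `N` is the rank of `A` over `ℚ[t]`: the number
`2 + deg (K_X + D) / N`. -/
noncomputable def degree {A : Type} [CommRing A] [Algebra ℚ A] [Algebra ℚ[X] A] {q : ℕ}
    (E : Fin q → Ideal A) : ℝ :=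
  q - (∑ j, (Module.finrank ℚ (A ⧸ E j) : ℝ)) / Module.finrank ℚ[X] A

/-- The number of number fields of degree `r` and discriminant at most `Δ` is
`O(Δ ^ (alpha r c η))`: here `alpha r c η` is the smaller of
`(r - 1) (r + 2) / (4 ⌈r / 2⌉)` and `c r ^ η`. -/
noncomputable def alpha (r : ℕ) (c η : ℝ) : ℝ :=
  min (((r : ℝ) - 1) * (r + 2) / (4 * ((r + 1) / 2 : ℕ))) (c * (r : ℝ) ^ η)

/-- The exponent of the theorem: with `m = min q (r + 1)`, the smaller of `α (q - κ)` and
`((q α - 2) (r + 1 - m) + m α (q - κ)) / (q α + m - 2)`. -/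
noncomputable def exponent (α : ℝ) (r q : ℕ) (κ : ℝ) : ℝ :=
  min (α * (q - κ)) (((q * α - 2) * (r + 1 - (min q (r + 1) : ℕ)) +
    (min q (r + 1) : ℕ) * α * (q - κ)) / (q * α + (min q (r + 1) : ℕ) - 2))

/-- the algebraic numbers `x` of degree `r` with `dist(ξ, ψ(x)) ≤ A' H(x) ^ (-τ)`, `H = exp h`,
over which there is a point `P = φ` of the curve, defined over a number field `L`, such that
`(degree - κ) h(x) ≤ N_S^{(1)}(D, P) / [L : ℚ] + d(L) + C₀` fails -/
def BadApproximations {Y : Type} [MetricSpace Y] (ψ : ℂ → Y) (ξ : Y) (τ A' : ℝ)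
    {A : Type} [CommRing A] [Algebra ℚ A] [Algebra ℚ[X] A] {q : ℕ} (S : Finset ℕ)
    (a : Fin q → ℚ) (u : Fin q → ℕ) (y : ∀ j, Fin (u j) → A) (E : Fin q → Ideal A)
    (r : ℕ) (κ C₀ : ℝ) : Set ℂ :=
  {x | ∃ f : ℤ[X], Irreducible f ∧ f.natDegree = r ∧ aeval x f = 0 ∧
    dist ξ (ψ x) ≤ A' * (Real.exp (height f)) ^ (-τ) ∧
    ∃ (L : IntermediateField ℚ ℂ) (_ : NumberField L) (φ : A →+* L), (φ (coord A) : ℂ) = x ∧
      truncated S a u y L φ + logDisc L + C₀ < (degree E - κ) * height f}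

/-- the data of a divisor: `q` distinct rational numbers `a_j`, equations `y_{j i}` of the part
`D_j` over `a_j`, and ideals `E_j ≠ 0` such that `D_j` and the zeros of `E_j` contain the fibre
over `a_j`; `S` is a finite set of primes -/
def IsData {A : Type} [CommRing A] [Algebra ℚ[X] A] {q : ℕ} (S : Finset ℕ)
    (a : Fin q → ℚ) (u : Fin q → ℕ) (y : ∀ j, Fin (u j) → A) (E : Fin q → Ideal A) : Prop :=
  Function.Injective a ∧ (∀ j, E j ≠ ⊥) ∧
    (∀ j i, ∀ e ∈ E j,
      y j i * e ∈ (Ideal.span {coord A - algebraMap ℚ[X] A (C (a j))}).radical) ∧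
    ∀ p ∈ S, p.Prime

private theorem height_unique {f g : ℤ[X]} {x : ℂ} (hf : Irreducible f) (hg : Irreducible g)
    (hfd : 1 ≤ f.natDegree) (hgd : 1 ≤ g.natDegree) (hfx : aeval x f = 0) (hgx : aeval x g = 0) :
    height f = height g := by
  have hprim : ∀ f : ℤ[X], Irreducible f → 1 ≤ f.natDegree → aeval x f = 0 →
      f.IsPrimitive ∧ Associated (minpoly ℚ x) (f.map (algebraMap ℤ ℚ)) := by
    intro f hf hd hx
    have hp : f.IsPrimitive := hf.isPrimitive (by omega)
    have hirr : Irreducible (f.map (algebraMap ℤ ℚ)) :=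
      (hp.irreducible_iff_irreducible_map_fraction_map).1 hf
    have hz : aeval x (f.map (algebraMap ℤ ℚ)) = 0 := by rw [aeval_map_algebraMap]; exact hx
    have hint : IsIntegral ℚ x := by
      rw [← isAlgebraic_iff_isIntegral]
      exact ⟨f.map (algebraMap ℤ ℚ), hirr.ne_zero, hz⟩
    exact ⟨hp, (minpoly.irreducible hint).associated_of_dvd hirr (minpoly.dvd ℚ x hz)⟩
  obtain ⟨hf1, hf2⟩ := hprim f hf hfd hfx
  obtain ⟨hg1, hg2⟩ := hprim g hg hgd hgx
  have h1 : f ∣ g := (hf1.dvd_iff_fraction_map_dvd_fraction_map ℚ).2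
    (hf2.symm.trans hg2).dvd
  have h2 : g ∣ f := (hg1.dvd_iff_fraction_map_dvd_fraction_map ℚ).2
    (hg2.symm.trans hf2).dvd
  obtain ⟨u, hu⟩ := associated_of_dvd_dvd h1 h2
  obtain ⟨a, ha, hau⟩ := Polynomial.isUnit_iff.1 u.isUnit
  have hnorm : ‖((a : ℤ) : ℂ)‖ = 1 := by
    rcases Int.isUnit_iff.1 ha with h | h
    · rw [h]; simp
    · rw [h]; simp
  have ha0 : a ≠ 0 := ha.ne_zero
  have hM : (g.map (Int.castRingHom ℂ)).mahlerMeasure =
      (f.map (Int.castRingHom ℂ)).mahlerMeasure := by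
    rw [← hu, ← hau, Polynomial.map_mul, mahlerMeasure_mul, Polynomial.map_C,
      mahlerMeasure_const]
    have : ‖(Int.castRingHom ℂ) a‖ = 1 := hnorm
    rw [this, mul_one]
  have hdeg : g.natDegree = f.natDegree := by
    rw [← hu, ← hau, natDegree_mul_C ha0]
  unfold height
  rw [hM, hdeg]

open Classical in
/-- the height of an algebraic number of degree `r` -/
private noncomputable def hx (r : ℕ) (x : ℂ) : ℝ :=
  if h : ∃ f : ℤ[X], Irreducible f ∧ f.natDegree = r ∧ aeval x f = 0 then height h.choose else 0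

private theorem hx_eq {r : ℕ} (hr : 1 ≤ r) {f : ℤ[X]} {x : ℂ} (hf : Irreducible f)
    (hfd : f.natDegree = r) (hfx : aeval x f = 0) : hx r x = height f := by
  have h : ∃ f : ℤ[X], Irreducible f ∧ f.natDegree = r ∧ aeval x f = 0 := ⟨f, hf, hfd, hfx⟩
  unfold hx
  rw [dif_pos h]
  obtain ⟨h1, h2, h3⟩ := h.choose_spec
  exact height_unique h1 hf (by omega) (by omega) h3 hfx

/-- **The truncated Vojta inequality with discriminant term on all curves, at the good
approximations of almost all points.** Let `η > 0`. There is `c ≥ 1` such that the following holds.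
Let `A` be a Dedekind domain, finite over `ℚ[t]` and containing it, of rank `N`, let `r ≥ 2`,
`q ≥ 3`, `κ ≤ q`, `τ > 0`, `Y` a metric space and `ψ : ℂ → Y` a map. There is a subset `Ex` of `Y` of
Hausdorff dimension at most `r * exponent (alpha r c η) r q κ / τ` such that for each `ξ ∈ Y` outside
`Ex`, all distinct rational numbers `a_1, …, a_q`, all `D_j` and `E_j`, all finite sets `S` of primes
and all real `A'`, `C₀` the following holds for all but finitely many algebraic numbers `x` of degree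
`r` with `dist(ξ, ψ(x)) ≤ A' H(x) ^ (-τ)`: all points `P` of the curve with `t(P) = x` and all number
fields `L` over which `P` is defined satisfy
`(q - κ - (∑_j dim (A / E_j)) / N) h(x) ≤ N_S^{(1)}(D, P) / [L : ℚ] + d(L) + C₀`. -/
theorem result : ∀ η : ℝ, 0 < η → ∃ c : ℝ, 1 ≤ c ∧
    ∀ (A : Type) [CommRing A] [IsDedekindDomain A] [Algebra ℚ A] [Algebra ℚ[X] A]
      [IsScalarTower ℚ ℚ[X] A] [Module.Finite ℚ[X] A] [FaithfulSMul ℚ[X] A]
      (r q : ℕ), 2 ≤ r → 3 ≤ q → ∀ κ τ : ℝ, κ ≤ q → 0 < τ →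
    ∀ (Y : Type) [MetricSpace Y] (ψ : ℂ → Y), ∃ Ex : Set Y,
      dimH Ex ≤ ENNReal.ofReal ((r : ℝ) * exponent (alpha r c η) r q κ / τ) ∧
      ∀ ξ : Y, ξ ∉ Ex → ∀ (S : Finset ℕ) (a : Fin q → ℚ) (u : Fin q → ℕ)
        (y : ∀ j, Fin (u j) → A) (E : Fin q → Ideal A), IsData S a u y E →
        ∀ A' C₀ : ℝ, (BadApproximations ψ ξ τ A' S a u y E r κ C₀).Finite := by
  classical
  intro η hη
  obtain ⟨c, hc, hmain⟩ := AllCurves.result η hη
  refine ⟨c, hc, ?_⟩
  intro A _ _ _ _ _ _ _ r q hr hq κ τ hκ hτ Y _ ψ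
  have hr1 : 1 ≤ r := by omega
  have hcQ : Countable ℚ[X] := by
    rw [← Cardinal.mk_le_aleph0_iff]
    refine (Polynomial.cardinalMk_le_max (R := ℚ)).trans ?_
    simp
  have hcA : Countable A := by
    obtain ⟨n, f, hf⟩ := Module.Finite.exists_fin' ℚ[X] A
    exact hf.countable
  have : IsNoetherianRing A := inferInstance
  have hcI : Countable (Ideal A) := Q273.Apx.countable_ideal A
  let ι : Type := {p : Finset ℕ × (Fin q → ℚ) × (Σ u : Fin q → ℕ, (∀ j, Fin (u j) → A)) ×
    (Fin q → Ideal A) // IsData p.1 p.2.1 p.2.2.1.1 p.2.2.1.2 p.2.2.2} × ℕ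
  have hs0 : 0 ≤ (r : ℝ) * exponent (alpha r c η) r q κ :=
    mul_nonneg (Nat.cast_nonneg _)
      (AllCurves.exponent_nonneg (AllCurves.one_le_alpha hr hc hη) hr hq hκ)
  let V : ι → Set ℂ := fun i => {x | ∃ f : ℤ[X], Irreducible f ∧ f.natDegree = r ∧
    aeval x f = 0 ∧
    ∃ (L : IntermediateField ℚ ℂ) (_ : NumberField L) (φ : A →+* L), (φ (coord A) : ℂ) = x ∧
      truncated i.1.1.1 i.1.1.2.1 i.1.1.2.2.1.1 i.1.1.2.2.1.2 L φ + logDisc L + -(i.2 : ℝ) <
        (degree i.1.1.2.2.2 - κ) * height f}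
  obtain ⟨Ex, hE1, hE2⟩ := Q273.Apx.approx_family (ι := ι) V (fun x => Real.exp (hx r x)) ψ
    (s := (r : ℝ) * exponent (alpha r c η) r q κ) (τ := τ) hs0 hτ (by
      rintro ⟨⟨⟨S, a, ⟨u, y⟩, E⟩, ha, hE, hyE, hS⟩, N⟩ δ hδ
      obtain ⟨C, hC⟩ := hmain A r q hr hq a ha u y E hE hyE S hS κ (-(N : ℝ)) δ hκ hδ
      refine ⟨C, fun X hX => ?_⟩
      obtain ⟨h1, h2⟩ := hC X hX
      have hsub : {x | x ∈ V ⟨⟨⟨S, a, ⟨u, y⟩, E⟩, ha, hE, hyE, hS⟩, N⟩ ∧
          Real.exp (hx r x) ≤ X} ⊆ AllCurves.exceptional S a u y E r κ (-(N : ℝ)) X := by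
        rintro x ⟨⟨f, h3, h4, h5, h6⟩, h7⟩
        have h8 : hx r x = height f := hx_eq hr1 h3 h4 h5
        rw [h8] at h7
        exact ⟨f, h3, h4, h5, (Real.le_log_iff_exp_le (by linarith)).2 h7, h6⟩
      refine ⟨h1.subset hsub, le_trans ?_ h2⟩
      exact_mod_cast Set.ncard_le_ncard hsub h1)
  refine ⟨Ex, hE1, fun ξ hξ S a u y E hdata A' C₀ => ?_⟩
  obtain ⟨N, hN⟩ := exists_nat_ge (-C₀)
  refine (hE2 ξ hξ ⟨⟨⟨S, a, ⟨u, y⟩, E⟩, hdata⟩, N⟩ A').subset ?_
  rintro x ⟨f, h1, h2, h3, h4, L, hL, φ, h5, h6⟩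
  refine ⟨⟨f, h1, h2, h3, L, hL, φ, h5, lt_of_le_of_lt ?_ h6⟩, ?_⟩
  · show truncated S a u y L φ + logDisc L + -(N : ℝ) ≤ truncated S a u y L φ + logDisc L + C₀
    linarith
  · have h7 : hx r x = height f := hx_eq hr1 h1 h2 h3
    simp only [h7]
    exact h4

end Pool.Agent.Results.MP_44a246_nt.GoodApproximations
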