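import Mathlib

/-!
# The support of the variance-profile deterministic equivalent is a disk

For an irreducible variance profile, the function `F_A` built from the Master Equations is
strictly increasing wherever it is smaller than one.  Consequently the support of the
deterministic equivalent `μ_A` is a closed disk centred at the origin, in particular connected.

The proof is an entropy argument.  A nonzero solution `(q, q')` at `s` defines the circulation
`f i j = q i * V i j * q' j` with throughput `θ i = q i * (V q') i = q' i * (Vᵀ q) i` and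
`q i * q' i = θ i * (1 - θ i) / s ^ 2`.  Comparing the circulations of two solutions by the
log-sum inequality gives everything.
-/

namespace Pool.Agent.Results.MP_44eb1e_pr.ConnectedSupport

open MeasureTheory Matrix

/-- The variance profile `V = (1/n) (σ_ij²)`. -/
noncomputable def V {n : ℕ} (A : Matrix (Fin n) (Fin n) ℝ) : Matrix (Fin n) (Fin n) ℝ :=
  fun i j => A i j ^ 2 / n

/-- The digraph on `[n]` with an edge `i → j` whenever `σ_ij > 0` is strongly connected. -/
def StronglyConnected {n : ℕ} (A : Matrix (Fin n) (Fin n) ℝ) : Prop :=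
  ∀ i j, Relation.ReflTransGen (fun a b => 0 < A a b) i j

/-- `(q, q')` is a solution of the Master Equations at `s`. -/
structure IsSolution {n : ℕ} (A : Matrix (Fin n) (Fin n) ℝ) (s : ℝ) (q q' : Fin n → ℝ) :
    Prop where
  nonneg : ∀ i, 0 ≤ q i
  nonneg' : ∀ i, 0 ≤ q' i
  eq : ∀ i, q i = ((V A)ᵀ *ᵥ q) i / (s ^ 2 + (V A *ᵥ q') i * ((V A)ᵀ *ᵥ q) i)
  eq' : ∀ i, q' i = (V A *ᵥ q') i / (s ^ 2 + (V A *ᵥ q') i * ((V A)ᵀ *ᵥ q) i)
  sum_eq : ∑ i, q i = ∑ i, q' i

/-- There is a nonzero solution of the Master Equations at `s`. -/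
def HasNonzeroSolution {n : ℕ} (A : Matrix (Fin n) (Fin n) ℝ) (s : ℝ) : Prop :=
  ∃ p p' : Fin n → ℝ, IsSolution A s p p' ∧ ¬ (p = 0 ∧ p' = 0)

/-- `s ↦ (q s, q' s)` is the selected solution: it solves the Master Equations for every `s > 0`,
and it is the nonzero solution whenever there is one. -/
def IsSelected {n : ℕ} (A : Matrix (Fin n) (Fin n) ℝ) (q q' : ℝ → Fin n → ℝ) : Prop :=
  ∀ s : ℝ, 0 < s → IsSolution A s (q s) (q' s) ∧
    (HasNonzeroSolution A s → ¬ (q s = 0 ∧ q' s = 0))

/-- `F_A(s) = 1 - (1/n) ⟨q(s), V q'(s)⟩`. -/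
noncomputable def F {n : ℕ} (A : Matrix (Fin n) (Fin n) ℝ) (q q' : ℝ → Fin n → ℝ) (s : ℝ) : ℝ :=
  1 - (1 / n) * (q s ⬝ᵥ (V A *ᵥ q' s))

/-- `μ` is the deterministic equivalent `μ_A`: it is a radially symmetric probability measure on
`ℂ` (invariant under all rotations about the origin) with `μ {|z| ≤ s} = F_A(s)` for `s > 0`. -/
structure IsDetEquiv {n : ℕ} (A : Matrix (Fin n) (Fin n) ℝ) (q q' : ℝ → Fin n → ℝ)
    (μ : Measure ℂ) : Prop where
  prob : IsProbabilityMeasure μ
  radial : ∀ u : ℂ, ‖u‖ = 1 → μ.map (fun z => u * z) = μ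
  ball : ∀ s : ℝ, 0 < s → μ {z : ℂ | ‖z‖ ≤ s} = ENNReal.ofReal (F A q q' s)

/-! ### Nonzero solutions and their circulations -/

section Algebra

variable {n : ℕ} {A : Matrix (Fin n) (Fin n) ℝ} {s t : ℝ} {q q' p p' θ η : Fin n → ℝ}

lemma V_nonneg (i j : Fin n) : 0 ≤ V A i j := by unfold V; positivity

lemma V_pos {i j : Fin n} (h : 0 < A i j) : 0 < V A i j := by
  have hn : 0 < n := i.pos
  have : (0 : ℝ) < n := by exact_mod_cast hn
  unfold V; positivity

lemma mulVec_apply (i : Fin n) : (V A *ᵥ q') i = ∑ j, V A i j * q' j := rfl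

lemma transpose_mulVec_apply (i : Fin n) : ((V A)ᵀ *ᵥ q) i = ∑ j, V A j i * q j := rfl

lemma IsSolution.a_nonneg (h : IsSolution A s q q') (i : Fin n) : 0 ≤ (V A *ᵥ q') i := by
  rw [mulVec_apply]
  exact Finset.sum_nonneg fun j _ => mul_nonneg (V_nonneg i j) (h.nonneg' j)

lemma IsSolution.b_nonneg (h : IsSolution A s q q') (i : Fin n) : 0 ≤ ((V A)ᵀ *ᵥ q) i := by
  rw [transpose_mulVec_apply]
  exact Finset.sum_nonneg fun j _ => mul_nonneg (V_nonneg j i) (h.nonneg j)

lemma IsSolution.den_pos (h : IsSolution A s q q') (hs : 0 < s) (i : Fin n) :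
    0 < s ^ 2 + (V A *ᵥ q') i * ((V A)ᵀ *ᵥ q) i := by
  have := mul_nonneg (h.a_nonneg i) (h.b_nonneg i)
  positivity

/-- A nonzero solution is entrywise positive. -/
lemma IsSolution.pos (hA : StronglyConnected A) (hs : 0 < s) (h : IsSolution A s q q')
    (hne : ¬ (q = 0 ∧ q' = 0)) : (∀ i, 0 < q i) ∧ (∀ i, 0 < q' i) := by
  have hsum : 0 < ∑ i, q i := by
    rcases (Finset.sum_nonneg fun i _ => h.nonneg i : (0 : ℝ) ≤ ∑ i, q i).eq_or_lt with h0 | h0
    · exfalso
      apply hne
      constructor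
      · funext i
        exact (Finset.sum_eq_zero_iff_of_nonneg fun i _ => h.nonneg i).mp h0.symm i
          (Finset.mem_univ i)
      · funext i
        exact (Finset.sum_eq_zero_iff_of_nonneg fun i _ => h.nonneg' i).mp
          (h.sum_eq.symm.trans h0.symm) i (Finset.mem_univ i)
    · exact h0
  have hsum' : 0 < ∑ i, q' i := h.sum_eq ▸ hsum
  obtain ⟨i0, _, hi0⟩ := (Finset.sum_pos_iff_of_nonneg fun i _ => h.nonneg i).mp hsum
  obtain ⟨i1, _, hi1⟩ := (Finset.sum_pos_iff_of_nonneg fun i _ => h.nonneg' i).mp hsum'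
  have step : ∀ i j, 0 < A i j → 0 < q i → 0 < q j := by
    intro i j hij hi
    rw [h.eq j]
    refine div_pos ?_ (h.den_pos hs j)
    calc 0 < V A i j * q i := mul_pos (V_pos hij) hi
      _ ≤ ∑ k, V A k j * q k :=
        Finset.single_le_sum (f := fun k => V A k j * q k)
          (fun k _ => mul_nonneg (V_nonneg k j) (h.nonneg k)) (Finset.mem_univ i)
  have step' : ∀ i j, 0 < A i j → 0 < q' j → 0 < q' i := by
    intro i j hij hj
    rw [h.eq' i]
    refine div_pos ?_ (h.den_pos hs i)
    calc 0 < V A i j * q' j := mul_pos (V_pos hij) hj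
      _ ≤ ∑ k, V A i k * q' k :=
        Finset.single_le_sum (f := fun k => V A i k * q' k)
          (fun k _ => mul_nonneg (V_nonneg i k) (h.nonneg' k)) (Finset.mem_univ j)
  constructor
  · intro i
    have hp := hA i0 i
    induction hp with
    | refl => exact hi0
    | tail _ hbc ih => exact step _ _ hbc ih
  · intro i
    have hp := hA i i1
    induction hp using Relation.ReflTransGen.head_induction_on with
    | refl => exact hi1
    | head hab _ ih => exact step' _ _ hab ih

/-- The data of the circulation attached to a nonzero solution. -/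
structure Good (A : Matrix (Fin n) (Fin n) ℝ) (s : ℝ) (q q' θ : Fin n → ℝ) : Prop where
  q_pos : ∀ i, 0 < q i
  q'_pos : ∀ i, 0 < q' i
  row : ∀ i, ∑ j, q i * V A i j * q' j = θ i
  col : ∀ j, ∑ i, q i * V A i j * q' j = θ j
  θ_pos : ∀ i, 0 < θ i
  θ_lt : ∀ i, θ i < 1
  prod : ∀ i, q i * q' i = θ i * (1 - θ i) / s ^ 2

lemma IsSolution.good (hA : StronglyConnected A) (hs : 0 < s) (h : IsSolution A s q q')
    (hne : ¬ (q = 0 ∧ q' = 0)) : Good A s q q' (fun i => q i * (V A *ᵥ q') i) := by
  obtain ⟨hq, hq'⟩ := h.pos hA hs hne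
  have hb : ∀ i, 0 < ((V A)ᵀ *ᵥ q) i := by
    intro i
    have h1 := hq i
    rw [h.eq i] at h1
    exact (div_pos_iff_of_pos_right (h.den_pos hs i)).mp h1
  have ha : ∀ i, 0 < (V A *ᵥ q') i := by
    intro i
    have h1 := hq' i
    rw [h.eq' i] at h1
    exact (div_pos_iff_of_pos_right (h.den_pos hs i)).mp h1
  have hth : ∀ i, q i * (V A *ᵥ q') i = 1 - s ^ 2 / (s ^ 2 + (V A *ᵥ q') i * ((V A)ᵀ *ᵥ q) i) := by
    intro i
    have hd := h.den_pos hs i
    rw [h.eq i, div_mul_eq_mul_div, eq_sub_iff_add_eq, ← add_div, div_eq_one_iff_eq hd.ne']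
    ring
  have hcomm : ∀ i, q i * (V A *ᵥ q') i = q' i * ((V A)ᵀ *ᵥ q) i := by
    intro i
    have hd := h.den_pos hs i
    rw [h.eq i, h.eq' i, div_mul_eq_mul_div, div_mul_eq_mul_div, mul_comm]
  refine ⟨hq, hq', ?_, ?_, fun i => mul_pos (hq i) (ha i), ?_, ?_⟩
  · intro i
    rw [mulVec_apply, Finset.mul_sum]
    exact Finset.sum_congr rfl fun j _ => by ring
  · intro j
    rw [hcomm j, transpose_mulVec_apply, Finset.mul_sum]
    exact Finset.sum_congr rfl fun i _ => by ring
  · intro i
    rw [hth i]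
    have hd := h.den_pos hs i
    have : 0 < s ^ 2 / (s ^ 2 + (V A *ᵥ q') i * ((V A)ᵀ *ᵥ q) i) := by positivity
    linarith
  · intro i
    have hd := h.den_pos hs i
    have hs2 : s ^ 2 ≠ 0 := by positivity
    have e1 : 1 - q i * (V A *ᵥ q') i = s ^ 2 / (s ^ 2 + (V A *ᵥ q') i * ((V A)ᵀ *ᵥ q) i) := by
      rw [hth i]; ring
    rw [e1]
    have e2 : q' i = (V A *ᵥ q') i / (s ^ 2 + (V A *ᵥ q') i * ((V A)ᵀ *ᵥ q) i) := h.eq' i
    calc q i * q' i
        = q i * ((V A *ᵥ q') i / (s ^ 2 + (V A *ᵥ q') i * ((V A)ᵀ *ᵥ q) i)) := by rw [← e2]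
      _ = _ := by field_simp

/-- The likelihood ratio used in the log-sum inequality. -/
noncomputable def ratio (q q' p p' θ η : Fin n → ℝ) (i j : Fin n) : ℝ :=
  (q i * q' j * η i) / (p i * p' j * θ i)

lemma Good.ratio_pos (h : Good A s q q' θ) (k : Good A t p p' η) (i j : Fin n) :
    0 < ratio q q' p p' θ η i j :=
  div_pos (mul_pos (mul_pos (h.q_pos i) (h.q'_pos j)) (k.θ_pos i))
    (mul_pos (mul_pos (k.q_pos i) (k.q'_pos j)) (h.θ_pos i))

/-- The entropy identity. -/
lemma kl_eq (hs : 0 < s) (ht : 0 < t) (h : Good A s q q' θ) (k : Good A t p p' η) :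
    ∑ i, ∑ j, q i * V A i j * q' j * (Real.log (ratio q q' p p' θ η i j) -
      (1 - (ratio q q' p p' θ η i j)⁻¹)) =
    ∑ i, θ i * (Real.log (1 - θ i) - Real.log (1 - η i) - 2 * (Real.log s - Real.log t)) := by
  -- the linear part vanishes
  have h1 : ∑ i, ∑ j, q i * V A i j * q' j * (1 - (ratio q q' p p' θ η i j)⁻¹) = 0 := by
    have hterm : ∀ i j, q i * V A i j * q' j * (1 - (ratio q q' p p' θ η i j)⁻¹) =
        q i * V A i j * q' j - (θ i / η i) * (p i * V A i j * p' j) := by
      intro i j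
      have a1 := (h.q_pos i).ne'
      have a2 := (h.q'_pos j).ne'
      have a3 := (k.θ_pos i).ne'
      have a4 := (k.q_pos i).ne'
      have a5 := (k.q'_pos j).ne'
      have a6 := (h.θ_pos i).ne'
      unfold ratio
      field_simp
    simp_rw [hterm, Finset.sum_sub_distrib, ← Finset.mul_sum, h.row, k.row]
    rw [← Finset.sum_sub_distrib]
    refine Finset.sum_eq_zero fun i _ => ?_
    have := (k.θ_pos i).ne'
    field_simp
    ring
  -- the logarithmic part
  have h2 : ∑ i, ∑ j, q i * V A i j * q' j * Real.log (ratio q q' p p' θ η i j) =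
      ∑ i, θ i * (Real.log (1 - θ i) - Real.log (1 - η i) -
        2 * (Real.log s - Real.log t)) := by
    have hlog : ∀ i j, Real.log (ratio q q' p p' θ η i j) =
        (Real.log (q i) + Real.log (η i) - Real.log (p i) - Real.log (θ i)) +
          (Real.log (q' j) - Real.log (p' j)) := by
      intro i j
      have a1 := (h.q_pos i).ne'
      have a2 := (h.q'_pos j).ne'
      have a3 := (k.θ_pos i).ne'
      have a4 := (k.q_pos i).ne'
      have a5 := (k.q'_pos j).ne'
      have a6 := (h.θ_pos i).ne'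
      unfold ratio
      rw [Real.log_div (by positivity) (by positivity), Real.log_mul (by positivity) a3,
        Real.log_mul a1 a2, Real.log_mul (by positivity) a6, Real.log_mul a4 a5]
      ring
    have hsplit : ∑ i, ∑ j, q i * V A i j * q' j * Real.log (ratio q q' p p' θ η i j) =
        ∑ i, θ i * (Real.log (q i) + Real.log (η i) - Real.log (p i) - Real.log (θ i)) +
        ∑ j, θ j * (Real.log (q' j) - Real.log (p' j)) := by
      simp_rw [hlog, mul_add, Finset.sum_add_distrib]
      congr 1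
      · refine Finset.sum_congr rfl fun i _ => ?_
        rw [← Finset.sum_mul, h.row]
      · rw [Finset.sum_comm]
        refine Finset.sum_congr rfl fun j _ => ?_
        rw [← Finset.sum_mul, h.col]
    rw [hsplit, ← Finset.sum_add_distrib]
    refine Finset.sum_congr rfl fun i _ => ?_
    have b1 := h.θ_pos i
    have b2 := h.θ_lt i
    have b3 := k.θ_pos i
    have b4 := k.θ_lt i
    have c1 : Real.log (q i) + Real.log (q' i) =
        Real.log (θ i) + Real.log (1 - θ i) - 2 * Real.log s := by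
      rw [← Real.log_mul (h.q_pos i).ne' (h.q'_pos i).ne', h.prod i,
        Real.log_div (by have : 0 < 1 - θ i := by linarith
                         positivity) (by positivity),
        Real.log_mul b1.ne' (by linarith), Real.log_pow]
      norm_num
    have c2 : Real.log (p i) + Real.log (p' i) =
        Real.log (η i) + Real.log (1 - η i) - 2 * Real.log t := by
      rw [← Real.log_mul (k.q_pos i).ne' (k.q'_pos i).ne', k.prod i,
        Real.log_div (by have : 0 < 1 - η i := by linarith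
                         positivity) (by positivity),
        Real.log_mul b3.ne' (by linarith), Real.log_pow]
      norm_num
    rw [← mul_add]
    congr 1
    linarith
  simp_rw [mul_sub, Finset.sum_sub_distrib]
  simp_rw [mul_sub, Finset.sum_sub_distrib] at h1 h2
  linarith

lemma term_nonneg (h : Good A s q q' θ) (k : Good A t p p' η) (i j : Fin n) :
    0 ≤ q i * V A i j * q' j * (Real.log (ratio q q' p p' θ η i j) -
      (1 - (ratio q q' p p' θ η i j)⁻¹)) := by
  refine mul_nonneg (mul_nonneg (mul_nonneg (h.q_pos i).le (V_nonneg i j)) (h.q'_pos j).le) ?_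
  have := Real.one_sub_inv_le_log_of_pos (h.ratio_pos k i j)
  linarith

lemma kl_nonneg (hs : 0 < s) (ht : 0 < t) (h : Good A s q q' θ) (k : Good A t p p' η) :
    0 ≤ ∑ i, θ i * (Real.log (1 - θ i) - Real.log (1 - η i) -
      2 * (Real.log s - Real.log t)) := by
  rw [← kl_eq hs ht h k]
  exact Finset.sum_nonneg fun i _ => Finset.sum_nonneg fun j _ => term_nonneg h k i j

lemma log_term_nonpos (h : Good A s q q' θ) (k : Good A t p p' η) (i : Fin n) :
    (θ i - η i) * (Real.log (1 - θ i) - Real.log (1 - η i)) ≤ 0 := by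
  have b2 : 0 < 1 - θ i := by linarith [h.θ_lt i]
  have b4 : 0 < 1 - η i := by linarith [k.θ_lt i]
  rcases le_total (θ i) (η i) with hle | hle
  · have : Real.log (1 - η i) ≤ Real.log (1 - θ i) := Real.log_le_log b4 (by linarith)
    nlinarith
  · have : Real.log (1 - θ i) ≤ Real.log (1 - η i) := Real.log_le_log b2 (by linarith)
    nlinarith

lemma log_term_eq_zero (h : Good A s q q' θ) (k : Good A t p p' η) (i : Fin n)
    (h0 : (θ i - η i) * (Real.log (1 - θ i) - Real.log (1 - η i)) = 0) : θ i = η i := by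
  have b2 : 0 < 1 - θ i := by linarith [h.θ_lt i]
  have b4 : 0 < 1 - η i := by linarith [k.θ_lt i]
  rcases mul_eq_zero.mp h0 with h1 | h1
  · linarith
  · have := Real.log_injOn_pos (Set.mem_Ioi.mpr b2) (Set.mem_Ioi.mpr b4) (by linarith)
    linarith

/-- The symmetrised inequality. -/
lemma sym_ineq (hs : 0 < s) (ht : 0 < t) (h : Good A s q q' θ) (k : Good A t p p' η) :
    -∑ i, (θ i - η i) * (Real.log (1 - θ i) - Real.log (1 - η i)) ≤
      2 * (Real.log t - Real.log s) * (∑ i, θ i - ∑ i, η i) := by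
  have h1 := kl_nonneg hs ht h k
  have h2 := kl_nonneg ht hs k h
  have h3 : ∑ i, (θ i - η i) * (Real.log (1 - θ i) - Real.log (1 - η i)) +
      2 * (Real.log t - Real.log s) * (∑ i, θ i - ∑ i, η i) =
      ∑ i, θ i * (Real.log (1 - θ i) - Real.log (1 - η i) - 2 * (Real.log s - Real.log t)) +
      ∑ i, η i * (Real.log (1 - η i) - Real.log (1 - θ i) -
        2 * (Real.log t - Real.log s)) := by
    rw [← Finset.sum_sub_distrib, Finset.mul_sum, ← Finset.sum_add_distrib,
      ← Finset.sum_add_distrib]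
    exact Finset.sum_congr rfl fun i _ => by ring
  linarith

/-- Strict monotonicity of the total throughput. -/
lemma sum_lt [Nonempty (Fin n)] (hs : 0 < s) (hst : s < t) (h : Good A s q q' θ)
    (k : Good A t p p' η) : ∑ i, η i < ∑ i, θ i := by
  have ht : 0 < t := hs.trans hst
  have hlog : 0 < Real.log t - Real.log s := by
    have := Real.log_lt_log hs hst
    linarith
  have h1 := sym_ineq hs ht h k
  have h2 : ∑ i, (θ i - η i) * (Real.log (1 - θ i) - Real.log (1 - η i)) ≤ 0 :=
    Finset.sum_nonpos fun i _ => log_term_nonpos h k i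
  have h3 : 0 ≤ ∑ i, θ i - ∑ i, η i := by
    by_contra hneg
    push Not at hneg
    have : 2 * (Real.log t - Real.log s) * (∑ i, θ i - ∑ i, η i) < 0 :=
      mul_neg_of_pos_of_neg (by linarith) hneg
    linarith
  rcases h3.eq_or_lt with h0 | h0
  · exfalso
    rw [← h0, mul_zero] at h1
    have h4 : ∑ i, (θ i - η i) * (Real.log (1 - θ i) - Real.log (1 - η i)) = 0 := by linarith
    have h5 : ∀ i, θ i = η i := by
      intro i
      have := (Finset.sum_eq_zero_iff_of_nonpos fun i _ => log_term_nonpos h k i).mp h4 i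
        (Finset.mem_univ i)
      exact log_term_eq_zero h k i this
    have h6 := kl_nonneg ht hs k h
    have h7 : ∑ i, η i * (Real.log (1 - η i) - Real.log (1 - θ i) -
        2 * (Real.log t - Real.log s)) < 0 := by
      refine Finset.sum_neg (fun i _ => ?_) Finset.univ_nonempty
      rw [h5 i]
      have := k.θ_pos i
      nlinarith
    linarith
  · linarith

/-- Two nonzero solutions for the same `s` coincide. -/
lemma unique_of_good (hA : StronglyConnected A) (hs : 0 < s) (h : Good A s q q' θ)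
    (k : Good A s p p' η) (hq : ∑ i, q i = ∑ i, q' i) (hp : ∑ i, p i = ∑ i, p' i) :
    q = p ∧ q' = p' := by
  have h1 := sym_ineq hs hs h k
  rw [sub_self, mul_zero, zero_mul] at h1
  have h2 : ∑ i, (θ i - η i) * (Real.log (1 - θ i) - Real.log (1 - η i)) ≤ 0 :=
    Finset.sum_nonpos fun i _ => log_term_nonpos h k i
  have h4 : ∑ i, (θ i - η i) * (Real.log (1 - θ i) - Real.log (1 - η i)) = 0 := by linarith
  have h5 : ∀ i, θ i = η i := by
    intro i
    have := (Finset.sum_eq_zero_iff_of_nonpos fun i _ => log_term_nonpos h k i).mp h4 i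
      (Finset.mem_univ i)
    exact log_term_eq_zero h k i this
  have h6 := kl_eq hs hs h k
  have h7 : ∑ i, θ i * (Real.log (1 - θ i) - Real.log (1 - η i) -
      2 * (Real.log s - Real.log s)) = 0 :=
    Finset.sum_eq_zero fun i _ => by rw [h5 i]; ring
  rw [h7] at h6
  have h8 : ∀ i j, 0 < A i j → q i * q' j = p i * p' j := by
    intro i j hij
    have e1 := (Finset.sum_eq_zero_iff_of_nonneg fun i _ =>
      Finset.sum_nonneg fun j _ => term_nonneg h k i j).mp h6 i (Finset.mem_univ i)
    have e2 := (Finset.sum_eq_zero_iff_of_nonneg fun j _ => term_nonneg h k i j).mp e1 j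
      (Finset.mem_univ j)
    have e3 : 0 < q i * V A i j * q' j := mul_pos (mul_pos (h.q_pos i) (V_pos hij)) (h.q'_pos j)
    have e4 : Real.log (ratio q q' p p' θ η i j) - (1 - (ratio q q' p p' θ η i j)⁻¹) = 0 := by
      rcases mul_eq_zero.mp e2 with h' | h'
      · exact absurd h' e3.ne'
      · exact h'
    have hr := h.ratio_pos k i j
    have e5 : ratio q q' p p' θ η i j = 1 := by
      by_contra hne
      have hne' : (ratio q q' p p' θ η i j)⁻¹ ≠ 1 := by
        intro h'; exact hne (by simpa using h')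
      have := Real.log_lt_sub_one_of_pos (inv_pos.mpr hr) hne'
      rw [Real.log_inv] at this
      linarith
    unfold ratio at e5
    rw [div_eq_one_iff_eq (mul_pos (mul_pos (k.q_pos i) (k.q'_pos j)) (h.θ_pos i)).ne', h5 i] at e5
    exact mul_right_cancel₀ (k.θ_pos i).ne' e5
  have h9 : ∀ i, q i * q' i = p i * p' i := by
    intro i; rw [h.prod i, k.prod i, h5 i]
  have h10 : ∀ i j, 0 < A i j → q i / p i = q j / p j := by
    intro i j hij
    have a1 := h8 i j hij
    have a2 := h9 j
    have b1 := h.q'_pos j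
    have b2 := k.q_pos i
    have b3 := k.q_pos j
    have b4 := k.q'_pos j
    rw [div_eq_div_iff b2.ne' b3.ne']
    have : q' j * (q i * p j) = q' j * (q j * p i) := by
      calc q' j * (q i * p j) = (q i * q' j) * p j := by ring
        _ = (p i * p' j) * p j := by rw [a1]
        _ = (p j * p' j) * p i := by ring
        _ = (q j * q' j) * p i := by rw [a2]
        _ = q' j * (q j * p i) := by ring
    exact mul_left_cancel₀ b1.ne' this
  have h11 : ∀ i j, q i / p i = q j / p j := by
    intro i j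
    have hp := hA i j
    induction hp with
    | refl => rfl
    | tail _ hbc ih => exact ih.trans (h10 _ _ hbc)
  rcases isEmpty_or_nonempty (Fin n) with he | ⟨⟨i0⟩⟩
  · exact ⟨Subsingleton.elim _ _, Subsingleton.elim _ _⟩
  set c := q i0 / p i0 with hc
  have hc0 : 0 < c := div_pos (h.q_pos i0) (k.q_pos i0)
  have c1 : ∀ i, q i = c * p i := by
    intro i
    have := h11 i i0
    rw [div_eq_iff (k.q_pos i).ne'] at this
    exact this
  have c2 : ∀ i, p' i = c * q' i := by
    intro i
    have := h9 i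
    rw [c1 i] at this
    have b := k.q_pos i
    have : p i * p' i = p i * (c * q' i) := by rw [← this]; ring
    exact mul_left_cancel₀ b.ne' this
  have c3 : c = 1 := by
    have e1 : ∑ i, q i = c * ∑ i, p i := by
      rw [Finset.mul_sum]; exact Finset.sum_congr rfl fun i _ => c1 i
    have e2 : ∑ i, p' i = c * ∑ i, q' i := by
      rw [Finset.mul_sum]; exact Finset.sum_congr rfl fun i _ => c2 i
    have e3 : 0 < ∑ i, q i := Finset.sum_pos (fun i _ => h.q_pos i) ⟨i0, Finset.mem_univ _⟩
    have e4 : ∑ i, q i = c * (c * ∑ i, q i) := by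
      calc ∑ i, q i = c * ∑ i, p i := e1
        _ = c * ∑ i, p' i := by rw [hp]
        _ = c * (c * ∑ i, q' i) := by rw [e2]
        _ = c * (c * ∑ i, q i) := by rw [hq]
    have e5 : c * c = 1 := by
      have : (c * c) * ∑ i, q i = 1 * ∑ i, q i := by rw [one_mul]; linarith
      exact mul_right_cancel₀ e3.ne' this
    nlinarith
  constructor
  · funext i; rw [c1 i, c3, one_mul]
  · funext i; rw [c2 i, c3, one_mul]

lemma dotProduct_eq_sum (q q' : Fin n → ℝ) :
    q ⬝ᵥ (V A *ᵥ q') = ∑ i, q i * (V A *ᵥ q') i := rfl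

/-- There is no nonzero solution for large `s`. -/
lemma not_hasNonzeroSolution (hA : StronglyConnected A) (hs : 0 < s)
    (hbig : ∑ i, ∑ j, V A i j < s ^ 2) : ¬ HasNonzeroSolution A s := by
  rintro ⟨q, q', h, hne⟩
  obtain ⟨hq, hq'⟩ := h.pos hA hs hne
  have hn : Nonempty (Fin n) := by
    by_contra hcon
    rw [not_nonempty_iff] at hcon
    exact hne ⟨Subsingleton.elim _ _, Subsingleton.elim _ _⟩
  obtain ⟨i0⟩ := hn
  have hsum : 0 < ∑ i, q i := Finset.sum_pos (fun i _ => hq i) ⟨i0, Finset.mem_univ _⟩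
  have h1 : ∀ i, s ^ 2 * q i ≤ ((V A)ᵀ *ᵥ q) i := by
    intro i
    have hd := h.den_pos hs i
    have e := h.eq i
    rw [eq_div_iff hd.ne'] at e
    have := mul_nonneg (hq i).le (mul_nonneg (h.a_nonneg i) (h.b_nonneg i))
    nlinarith
  have h2 : s ^ 2 * ∑ i, q i ≤ (∑ i, ∑ j, V A i j) * ∑ i, q i := by
    calc s ^ 2 * ∑ i, q i = ∑ i, s ^ 2 * q i := by rw [Finset.mul_sum]
      _ ≤ ∑ i, ((V A)ᵀ *ᵥ q) i := Finset.sum_le_sum fun i _ => h1 i
      _ = ∑ i, ∑ j, V A j i * q j := rfl
      _ ≤ ∑ i, ∑ j, V A j i * ∑ k, q k :=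
          Finset.sum_le_sum fun i _ => Finset.sum_le_sum fun j _ =>
            mul_le_mul_of_nonneg_left
              (Finset.single_le_sum (f := q) (fun k _ => (hq k).le) (Finset.mem_univ j))
              (V_nonneg j i)
      _ = (∑ i, ∑ j, V A i j) * ∑ i, q i := by
          rw [Finset.sum_comm, Finset.sum_mul]
          exact Finset.sum_congr rfl fun i _ => by rw [Finset.sum_mul]
  exact absurd (lt_of_mul_lt_mul_right
    (lt_of_lt_of_le (mul_lt_mul_of_pos_right hbig hsum) h2) hsum.le) (lt_irrefl _)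

end Algebra

/-! ### The function `F_A` -/

section FA

variable {n : ℕ} {A : Matrix (Fin n) (Fin n) ℝ} {q q' : ℝ → Fin n → ℝ}

lemma IsSelected.good (hA : StronglyConnected A) (h : IsSelected A q q') {s : ℝ} (hs : 0 < s)
    (hS : HasNonzeroSolution A s) :
    Good A s (q s) (q' s) (fun i => q s i * (V A *ᵥ q' s) i) :=
  (h s hs).1.good hA hs ((h s hs).2 hS)

lemma F_eq (s : ℝ) : F A q q' s = 1 - (1 / n) * ∑ i, q s i * (V A *ᵥ q' s) i := by
  unfold F
  rw [dotProduct_eq_sum]

lemma F_lt_one (hn : 1 ≤ n) (hA : StronglyConnected A) (h : IsSelected A q q') {s : ℝ}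
    (hs : 0 < s) (hS : HasNonzeroSolution A s) : F A q q' s < 1 := by
  have hg := h.good hA hs hS
  have hn' : (0 : ℝ) < n := by exact_mod_cast hn
  haveI : Nonempty (Fin n) := ⟨⟨0, hn⟩⟩
  have : 0 < ∑ i, q s i * (V A *ᵥ q' s) i :=
    Finset.sum_pos (fun i _ => hg.θ_pos i) Finset.univ_nonempty
  rw [F_eq]
  have h2 : 0 < (1 / (n : ℝ)) * ∑ i, q s i * (V A *ᵥ q' s) i := by positivity
  linarith

lemma F_pos (hn : 1 ≤ n) (hA : StronglyConnected A) (h : IsSelected A q q') {s : ℝ}
    (hs : 0 < s) (hS : HasNonzeroSolution A s) : 0 < F A q q' s := by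
  have hg := h.good hA hs hS
  have hn' : (0 : ℝ) < n := by exact_mod_cast hn
  haveI : Nonempty (Fin n) := ⟨⟨0, hn⟩⟩
  have h1 : ∑ i, q s i * (V A *ᵥ q' s) i < n := by
    calc ∑ i, q s i * (V A *ᵥ q' s) i < ∑ _i : Fin n, (1 : ℝ) :=
          Finset.sum_lt_sum_of_nonempty Finset.univ_nonempty fun i _ => hg.θ_lt i
      _ = n := by simp
  rw [F_eq]
  have h2 : (1 / (n : ℝ)) * ∑ i, q s i * (V A *ᵥ q' s) i < 1 := by
    rw [one_div, inv_mul_lt_iff₀ hn', mul_one]
    exact h1
  linarith

lemma F_eq_one (h : IsSelected A q q') {s : ℝ} (hs : 0 < s) (hS : ¬ HasNonzeroSolution A s) :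
    F A q q' s = 1 := by
  have h0 : q s = 0 ∧ q' s = 0 := by
    by_contra hne
    exact hS ⟨q s, q' s, (h s hs).1, hne⟩
  rw [F_eq, h0.1]
  simp

lemma F_strict (hn : 1 ≤ n) (hA : StronglyConnected A) (h : IsSelected A q q') {s t : ℝ}
    (hs : 0 < s) (hst : s < t) (hS : HasNonzeroSolution A s) (hT : HasNonzeroSolution A t) :
    F A q q' s < F A q q' t := by
  haveI : Nonempty (Fin n) := ⟨⟨0, hn⟩⟩
  have hn' : (0 : ℝ) < n := by exact_mod_cast hn
  have h1 := sum_lt hs hst (h.good hA hs hS) (h.good hA (hs.trans hst) hT)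
  rw [F_eq, F_eq]
  have h2 : (1 / (n : ℝ)) * ∑ i, q t i * (V A *ᵥ q' t) i <
      (1 / (n : ℝ)) * ∑ i, q s i * (V A *ᵥ q' s) i :=
    mul_lt_mul_of_pos_left h1 (by positivity)
  linarith

end FA

/-! ### The support of `μ_A` -/

section Support

variable {n : ℕ} {A : Matrix (Fin n) (Fin n) ℝ} {q q' : ℝ → Fin n → ℝ} {μ : Measure ℂ}

lemma IsDetEquiv.rotate (h : IsDetEquiv A q q' μ) {u z : ℂ} (hu : ‖u‖ = 1)
    (hz : z ∈ μ.support) : u * z ∈ μ.support := by
  rw [Measure.mem_support_iff_forall] at hz ⊢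
  intro U hU
  have hmeas : Measurable fun z : ℂ => u * z := measurable_const_mul u
  have hcont : ContinuousAt (fun z : ℂ => u * z) z := (continuous_const_mul u).continuousAt
  obtain ⟨W, hWU, hWo, hzW⟩ := mem_nhds_iff.mp hU
  have h1 : (fun z : ℂ => u * z) ⁻¹' W ∈ nhds z := hcont.preimage_mem_nhds (hWo.mem_nhds hzW)
  have h2 := hz _ h1
  rw [← Measure.map_apply hmeas hWo.measurableSet, h.radial u hu] at h2
  exact h2.trans_le (measure_mono hWU)

theorem support_eq (hn : 1 ≤ n) (hA : StronglyConnected A) (hsel : IsSelected A q q')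
    (h : IsDetEquiv A q q' μ) :
    ∃ R : ℝ, 0 ≤ R ∧ μ.support = Metric.closedBall 0 R ∧
      ∀ s : ℝ, 0 < s → (HasNonzeroSolution A s ↔ s < R) := by
  haveI := h.prob
  set S : Set ℝ := {s | 0 < s ∧ HasNonzeroSolution A s} with hSdef
  have hbdd : BddAbove (insert 0 S) := by
    refine ⟨Real.sqrt (∑ i, ∑ j, V A i j) , ?_⟩
    rintro s (rfl | ⟨hs0, hs⟩)
    · exact Real.sqrt_nonneg _
    · by_contra hcon
      push Not at hcon
      refine not_hasNonzeroSolution hA hs0 ?_ hs
      have := Real.sqrt_nonneg (∑ i, ∑ j, V A i j)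
      exact (Real.sqrt_lt' hs0).mp hcon
  set R : ℝ := sSup (insert 0 S) with hR
  have hR0 : 0 ≤ R := le_csSup hbdd (Set.mem_insert _ _)
  -- monotonicity
  have hFle : ∀ s t : ℝ, 0 < s → s ≤ t → t ∈ S → s ∈ S := by
    intro s t hs hst ht
    refine ⟨hs, ?_⟩
    by_contra hcon
    have h1 : μ {z : ℂ | ‖z‖ ≤ s} ≤ μ {z : ℂ | ‖z‖ ≤ t} :=
      measure_mono fun z (hz : ‖z‖ ≤ s) => hz.trans hst
    rw [h.ball s hs, h.ball t ht.1, F_eq_one hsel hs hcon] at h1
    have h2 := F_lt_one hn hA hsel ht.1 ht.2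
    rw [ENNReal.ofReal_le_ofReal_iff'] at h1
    rcases h1 with h1 | h1 <;> linarith
  have hlt : ∀ s : ℝ, 0 < s → s < R → s ∈ S := by
    intro s hs hsR
    obtain ⟨t, ht, hst⟩ := exists_lt_of_lt_csSup (Set.insert_nonempty _ _) hsR
    rcases ht with rfl | ht
    · linarith
    · exact hFle s t hs hst.le ht
  have hgt : ∀ s : ℝ, R < s → s ∉ S := fun s hs hsS =>
    absurd (le_csSup hbdd (Set.mem_insert_of_mem _ hsS)) (not_le.mpr hs)
  have hnull : μ μ.supportᶜ = 0 := Measure.measure_compl_support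
  -- upper inclusion
  have hsub : μ.support ⊆ Metric.closedBall 0 R := by
    intro z hz
    by_contra hcon
    rw [mem_closedBall_zero_iff, not_le] at hcon
    set s : ℝ := (‖z‖ + R) / 2 with hs
    have hs0 : 0 < s := by have := norm_nonneg z; rw [hs]; linarith
    have hsR : R < s := by rw [hs]; linarith
    have hsz : s < ‖z‖ := by rw [hs]; linarith
    have hns : ¬ HasNonzeroSolution A s := fun hh => hgt s hsR ⟨hs0, hh⟩
    have h1 : μ {w : ℂ | ‖w‖ ≤ s} = 1 := by
      rw [h.ball s hs0, F_eq_one hsel hs0 hns, ENNReal.ofReal_one]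
    have hmeas : MeasurableSet {w : ℂ | ‖w‖ ≤ s} := by
      exact (isClosed_le continuous_norm continuous_const).measurableSet
    have h2 : μ {w : ℂ | ‖w‖ ≤ s}ᶜ = 0 := by
      rw [prob_compl_eq_zero_iff hmeas]; exact h1
    have h3 : {w : ℂ | ‖w‖ ≤ s}ᶜ ∈ nhds z := by
      refine IsOpen.mem_nhds (isClosed_le continuous_norm continuous_const).isOpen_compl ?_
      simpa using hsz
    have h4 := (Measure.mem_support_iff_forall z).mp hz _ h3
    rw [h2] at h4
    exact lt_irrefl _ h4
  -- lower inclusion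
  have hball : Metric.ball (0 : ℂ) R ⊆ μ.support := by
    intro z hz
    rw [mem_ball_zero_iff] at hz
    by_contra hcon
    have hcirc : Metric.sphere (0 : ℂ) ‖z‖ ⊆ μ.supportᶜ := by
      intro w hw hws
      rw [mem_sphere_zero_iff_norm] at hw
      apply hcon
      by_cases hz0 : z = 0
      · subst hz0
        rw [norm_zero, norm_eq_zero] at hw
        rwa [hw] at hws
      · have hw0 : w ≠ 0 := by
          rw [← norm_ne_zero_iff, hw, norm_ne_zero_iff]; exact hz0
        have hu : ‖z / w‖ = 1 := by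
          rw [norm_div, hw, div_self (norm_ne_zero_iff.mpr hz0)]
        have := h.rotate hu hws
        rwa [div_mul_cancel₀ z hw0] at this
    obtain ⟨δ, hδ, hthick⟩ := (isCompact_sphere (0 : ℂ) ‖z‖).exists_thickening_subset_open
      Measure.isOpen_compl_support hcirc
    set ε : ℝ := min δ (R - ‖z‖) with hε
    have hε0 : 0 < ε := lt_min hδ (by linarith)
    have hεδ : ε ≤ δ := min_le_left _ _
    have hεR : ε ≤ R - ‖z‖ := min_le_right _ _
    set s : ℝ := ‖z‖ + ε / 4 with hs
    set t : ℝ := ‖z‖ + ε / 2 with ht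
    have hz0 := norm_nonneg z
    have hs0 : 0 < s := by rw [hs]; linarith
    have hst : s < t := by rw [hs, ht]; linarith
    have htR : t < R := by rw [ht]; linarith
    have hann : {w : ℂ | ‖w‖ ≤ t} ⊆ {w : ℂ | ‖w‖ ≤ s} ∪ μ.supportᶜ := by
      intro w hw
      by_cases hws : ‖w‖ ≤ s
      · exact Or.inl hws
      · right
        push Not at hws
        apply hthick
        have hwpos : 0 < ‖w‖ := hs0.trans hws
        rw [Metric.mem_thickening_iff]
        refine ⟨((‖z‖ / ‖w‖ : ℝ) : ℂ) * w, ?_, ?_⟩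
        · rw [mem_sphere_zero_iff_norm, norm_mul, Complex.norm_real, Real.norm_of_nonneg
            (by positivity), div_mul_cancel₀ _ hwpos.ne']
        · have e1 : w - ((‖z‖ / ‖w‖ : ℝ) : ℂ) * w = ((1 - ‖z‖ / ‖w‖ : ℝ) : ℂ) * w := by
            push_cast; ring
          rw [dist_eq_norm, e1, norm_mul, Complex.norm_real]
          have e2 : 0 ≤ 1 - ‖z‖ / ‖w‖ := by
            rw [sub_nonneg, div_le_one hwpos]; linarith
          rw [Real.norm_of_nonneg e2, sub_mul, one_mul, div_mul_cancel₀ _ hwpos.ne']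
          have hwt : ‖w‖ ≤ t := hw
          linarith
    have hle : μ {w : ℂ | ‖w‖ ≤ t} ≤ μ {w : ℂ | ‖w‖ ≤ s} := by
      calc μ {w : ℂ | ‖w‖ ≤ t} ≤ μ ({w : ℂ | ‖w‖ ≤ s} ∪ μ.supportᶜ) := measure_mono hann
        _ ≤ μ {w : ℂ | ‖w‖ ≤ s} + μ μ.supportᶜ := measure_union_le _ _
        _ = μ {w : ℂ | ‖w‖ ≤ s} := by rw [hnull, add_zero]
    have hsS := hlt s hs0 (hst.trans htR)
    have htS := hlt t (hs0.trans hst) htR
    rw [h.ball t htS.1, h.ball s hs0, ENNReal.ofReal_le_ofReal_iff'] at hle
    have hstrict := F_strict hn hA hsel hs0 hst hsS.2 htS.2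
    have hpos := F_pos hn hA hsel htS.1 htS.2
    rcases hle with hle | hle <;> linarith
  have hsupp : μ.support = Metric.closedBall 0 R := by
    refine Set.Subset.antisymm hsub ?_
    rcases hR0.eq_or_lt with h0 | h0
    · intro z hz
      rw [← h0, mem_closedBall_zero_iff] at hz
      have hz0 : z = 0 := norm_eq_zero.mp (le_antisymm hz (norm_nonneg z))
      subst hz0
      rw [Measure.mem_support_iff_forall]
      intro U hU
      obtain ⟨ε, hε, hball'⟩ := Metric.mem_nhds_iff.mp hU
      have hns : ¬ HasNonzeroSolution A (ε / 2) := fun hh =>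
        hgt (ε / 2) (by rw [← h0]; linarith) ⟨by linarith, hh⟩
      have h1 : μ {w : ℂ | ‖w‖ ≤ ε / 2} = 1 := by
        rw [h.ball _ (by linarith), F_eq_one hsel (by linarith) hns, ENNReal.ofReal_one]
      have h2 : {w : ℂ | ‖w‖ ≤ ε / 2} ⊆ U := by
        intro w hw
        apply hball'
        rw [mem_ball_zero_iff]
        have : ‖w‖ ≤ ε / 2 := hw
        linarith
      calc (0 : ENNReal) < 1 := one_pos
        _ = μ {w : ℂ | ‖w‖ ≤ ε / 2} := h1.symm
        _ ≤ μ U := measure_mono h2
    · rw [← closure_ball (0 : ℂ) h0.ne']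
      exact Measure.isClosed_support.closure_subset_iff.mpr hball
  refine ⟨R, hR0, hsupp, fun s hs => ⟨fun hS => ?_, fun hsR => (hlt s hs hsR).2⟩⟩
  by_contra hcon
  push Not at hcon
  have h1 : μ {w : ℂ | ‖w‖ ≤ s} = 1 := by
    have h2 : {w : ℂ | ‖w‖ ≤ s}ᶜ ⊆ μ.supportᶜ := by
      rw [Set.compl_subset_compl, hsupp]
      intro w hw
      rw [mem_closedBall_zero_iff] at hw
      exact hw.trans hcon
    have hmeas : MeasurableSet {w : ℂ | ‖w‖ ≤ s} :=
      (isClosed_le continuous_norm continuous_const).measurableSet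
    exact (prob_compl_eq_zero_iff hmeas).mp (measure_mono_null h2 hnull)
  rw [h.ball s hs] at h1
  have h3 := F_lt_one hn hA hsel hs hS
  have h4 : ENNReal.ofReal (F A q q' s) < 1 := by
    rw [← ENNReal.ofReal_one]
    exact (ENNReal.ofReal_lt_ofReal_iff one_pos).mpr h3
  rw [h1] at h4
  exact lt_irrefl _ h4

end Support

/-- **The support of `μ_A` is connected.**  For every `n ≥ 1` and every irreducible nonnegative
matrix `A`: at each `s > 0` the Master Equations have at most one nonzero solution; the function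
`F_A` is strictly increasing on the set of those `s > 0` at which a nonzero solution exists; and
whenever the deterministic equivalent `μ = μ_A` is defined, its support is connected, in fact it
is the closed disk of radius `R` about the origin, where `R ≥ 0` is the threshold such that, for
`s > 0`, the Master Equations have a nonzero solution at `s` if and only if `s < R`. -/
theorem result (n : ℕ) (hn : 1 ≤ n) (A : Matrix (Fin n) (Fin n) ℝ) (_hA0 : ∀ i j, 0 ≤ A i j)
    (hA : StronglyConnected A) :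
    (∀ s : ℝ, 0 < s → ∀ p p' r r' : Fin n → ℝ,
      IsSolution A s p p' → ¬ (p = 0 ∧ p' = 0) → IsSolution A s r r' → ¬ (r = 0 ∧ r' = 0) →
        p = r ∧ p' = r') ∧
    ∀ q q' : ℝ → Fin n → ℝ, IsSelected A q q' →
      StrictMonoOn (F A q q') {s | 0 < s ∧ HasNonzeroSolution A s} ∧
      ∀ μ : Measure ℂ, IsDetEquiv A q q' μ →
        IsConnected μ.support ∧
        ∃ R : ℝ, 0 ≤ R ∧ μ.support = Metric.closedBall 0 R ∧
          ∀ s : ℝ, 0 < s → (HasNonzeroSolution A s ↔ s < R) := by
  refine ⟨?_, ?_⟩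
  · intro s hs p p' r r' h1 h2 h3 h4
    exact unique_of_good hA hs (h1.good hA hs h2) (h3.good hA hs h4) h1.sum_eq h3.sum_eq
  · intro q q' hsel
    refine ⟨fun s hs t ht hst => F_strict hn hA hsel hs.1 hst hs.2 ht.2, ?_⟩
    intro μ hμ
    obtain ⟨R, hR0, hR1, hR2⟩ := support_eq hn hA hsel hμ
    refine ⟨?_, R, hR0, hR1, hR2⟩
    rw [hR1]
    exact ⟨⟨0, by simpa using hR0⟩, (convex_closedBall 0 R).isPreconnected⟩

end Pool.Agent.Results.MP_44eb1e_pr.ConnectedSupport
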