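import Pool.Agent.Q282.RH.EvenAll
import Pool.Agent.Q282.RH.Exist

/-!
# The Tauberian Tate conjecture for random hypersurfaces that contain linear subspaces

Let `Λ_1, ..., Λ_r` be any different linear subspaces of dimension `m` of the projective space of dimension `2 m + 1` over `ℚ`
(for `m = 1`: different lines in `ℙ³`, which may intersect), and let `d ≥ r + 3`. The forms of degree `d` with integer coefficients
that vanish on all `Λ_i` are a lattice with a basis `f_1, ..., f_N`. The hypersurfaces `X_ν` given by `∑ ν_k f_k = 0`, for the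
integer vectors `ν` of a box, are the random hypersurfaces of dimension `2 m` of degree `d` that contain the `Λ_i`. For a general
one the classes of the `Λ_i` and of the linear sections are `1 + r` independent classes of algebraic cycles of codimension `m`,
and for `m = 1` the Neron-Severi group of a very general one has the rank `1 + r` (Noether-Lefschetz, Lopez). Let
`b_p(X) = #X(F_p) - (1 + p + ... + p ^ (2 m)) + p ^ m`, the trace of Frobenius on the cohomology of degree `2 m` when the reduction is
smooth (for `m = 1`: `b_p = #X(F_p) - p² - 1` on `H²`). The Tauberian Tate conjecture predicts that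
`∑_{p ≤ T} b_p log p / p ^ m = (1 + r) T + o(T)`. It is proved that

* for every `ε > 0` there is `A` such that for `T ≥ T₀` and all boxes with sides at least `T ^ A` the distribution function of
  `(∑_{p ≤ T} b_p log p / p ^ m - (1 + r) θ(T)) / (∑_{p ≤ T} log² p) ^ (1 / 2)` differs everywhere by at most `ε` from the normal one;
* outside a set of proportion `K₁ / K ²` of the box (sides at least `K₁ (T + 1) ³`) the Tauberian sum at `T'` is
  `(1 + r) θ(T')` up to `K T' ^ (1 / 2) log³ T'`, for all `T'` with `2 ≤ T' ≤ T` at once.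

Proof. The forms of the ideal of degree `d` take independent values at any four points outside the subspaces, so the first four
moments of the number of points modulo `p` are those of a sum of independent variables; chinese remainder theorem, truncation
and the moment method over the primes with Esseen's inequality for the law, the inequality of Rademacher and Menshov for the second
part; the points of the union of the subspaces are counted with Gram determinants and inclusion-exclusion.
-/

set_option autoImplicit false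

namespace Pool.Agent.Results.MP_4589ac_nt.RandomHypersurfacesThroughPlanes

open Finset MvPolynomial
open scoped LinearAlgebra.Projectivization

/-- The number of the points over the field with `p` elements at which the forms of the set `S` vanish, in the projective space
of dimension `n`. -/
noncomputable def points (n : ℕ) (S : Set (MvPolynomial (Fin (n + 1)) ℤ)) (p : ℕ) : ℕ :=
  if hp : p.Prime then
    have : Fact p.Prime := ⟨hp⟩
    Nat.card {P : ℙ (ZMod p) (Fin (n + 1) → ZMod p) // ∀ F ∈ S, eval₂ (Int.castRingHom (ZMod p)) P.rep F = 0}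
  else 0

/-- The number `b_p` of the hypersurface `F = 0` of dimension `2 m`. -/
noncomputable def trace (m : ℕ) (F : MvPolynomial (Fin (2 * m + 1 + 1)) ℤ) (p : ℕ) : ℝ :=
  points (2 * m + 1) {F} p - (∑ i ∈ range (2 * m + 1), (p : ℝ) ^ i - (p : ℝ) ^ m)

/-- The linear form with the coefficients `v`. -/
noncomputable def linear {n : ℕ} (v : Fin (n + 1) → ℤ) : MvPolynomial (Fin (n + 1)) ℤ := ∑ i, C (v i) * X i

/-- For every `i` the linear equations `l i 0, ..., l i (c - 1)` are independent over `ℚ`, and the linear subspaces of codimension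
`c` that they define for different `i` are different. -/
def AreSubspaces {n r c : ℕ} (l : Fin r → Fin c → Fin (n + 1) → ℤ) : Prop :=
  (∀ i, LinearIndependent ℚ (fun k s => (l i k s : ℚ))) ∧
  ∀ i j, i ≠ j → ∃ x : Fin (n + 1) → ℚ, ¬ ((∀ k, ∑ s, (l i k s : ℚ) * x s = 0) ↔ ∀ k, ∑ s, (l j k s : ℚ) * x s = 0)

/-- The forms `f k` generate the lattice of all forms of degree `d` with integer coefficients that belong, for every `i`, to the
ideal generated by the equations of the `i`-th subspace. -/
def Generate {n r c : ℕ} (l : Fin r → Fin c → Fin (n + 1) → ℤ) (d : ℕ) {N : ℕ} (f : Fin N → MvPolynomial (Fin (n + 1)) ℤ) : Prop :=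
  (∀ k, (f k).IsHomogeneous d ∧ ∀ i, f k ∈ Ideal.span (Set.range fun j => linear (l i j))) ∧
  ∀ F : MvPolynomial (Fin (n + 1)) ℤ, F.IsHomogeneous d → (∀ i, F ∈ Ideal.span (Set.range fun j => linear (l i j))) →
    ∃ a : Fin N → ℤ, F = ∑ k, C (a k) * f k

/-- The form `∑ ν_k f_k`. -/
noncomputable def member {n N : ℕ} (f : Fin N → MvPolynomial (Fin (n + 1)) ℤ) (ν : Fin N → ℤ) : MvPolynomial (Fin (n + 1)) ℤ :=
  ∑ k, C (ν k) * f k

open Classical in
/-- The proportion of the integer vectors `ν` of the box `c_k ≤ ν_k < c_k + L_k` with the property `Q`. -/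
noncomputable def proportion {N : ℕ} (c : Fin N → ℤ) (L : Fin N → ℕ) (Q : (Fin N → ℤ) → Prop) : ℝ :=
  (((Fintype.piFinset fun k => Ico (c k) (c k + L k)).filter Q).card : ℝ) / ∏ k, (L k : ℝ)

/-- The distribution function of the standard normal law. -/
noncomputable def Phi (y : ℝ) : ℝ := (ProbabilityTheory.gaussianReal 0 1).real (Set.Iic y)

/-- The Tauberian sum `∑_{p ≤ T} b_p log p / p ^ m`. -/
noncomputable def tauberian (m : ℕ) (F : MvPolynomial (Fin (2 * m + 1 + 1)) ℤ) (T : ℕ) : ℝ :=
  ∑ p ∈ Nat.primesLE T, trace m F p * Real.log p / (p : ℝ) ^ m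

/-! ### Proofs -/

lemma proportion_eq {N : ℕ} (c : Fin N → ℤ) (L : Fin N → ℕ) (Q : (Fin N → ℤ) → Prop) [DecidablePred Q] :
    proportion c L Q = (((Q282RH.tbox c L).filter Q).card : ℝ) / ∏ k, (L k : ℝ) := by
  unfold proportion Q282RH.tbox
  congr 3
  ext ν
  simp only [mem_filter]

/-- **The Tauberian Tate conjecture for random hypersurfaces that contain linear subspaces.** -/
theorem result :
    -- the forms of degree `d` that vanish on the subspaces have a basis
    (∀ (n r c d : ℕ) (l : Fin r → Fin c → Fin (n + 1) → ℤ),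
      ∃ (N : ℕ) (f : Fin N → MvPolynomial (Fin (n + 1)) ℤ), LinearIndependent ℤ f ∧ Generate l d f) ∧
    -- the normal law
    (∀ ε : ℝ, 0 < ε → ∃ A : ℕ, ∀ (m r d : ℕ) (l : Fin r → Fin (m + 1) → Fin (2 * m + 1 + 1) → ℤ), AreSubspaces l → r + 3 ≤ d →
      ∀ (N : ℕ) (f : Fin N → MvPolynomial (Fin (2 * m + 1 + 1)) ℤ), Generate l d f →
      ∃ T₀ : ℕ, ∀ T : ℕ, T₀ ≤ T → ∀ (c : Fin N → ℤ) (L : Fin N → ℕ), (∀ k, T ^ A ≤ L k) → ∀ y : ℝ,
        |proportion c L (fun ν => tauberian m (member f ν) T ≤
          (1 + r) * Chebyshev.theta T + y * Real.sqrt (∑ p ∈ Nat.primesLE T, (Real.log p) ^ 2)) - Phi y| ≤ ε) ∧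
    -- all `T'` at once
    (∀ (m r d : ℕ) (l : Fin r → Fin (m + 1) → Fin (2 * m + 1 + 1) → ℤ), AreSubspaces l → r + 3 ≤ d →
      ∀ (N : ℕ) (f : Fin N → MvPolynomial (Fin (2 * m + 1 + 1)) ℤ), Generate l d f →
      ∃ K₁ : ℝ, 0 < K₁ ∧ ∀ K : ℝ, K₁ ≤ K → ∀ (T : ℕ) (c : Fin N → ℤ) (L : Fin N → ℕ), (∀ k, K₁ * (T + 1) ^ 3 ≤ L k) →
        1 - K₁ / K ^ 2 ≤ proportion c L (fun ν => ∀ T' : ℕ, 2 ≤ T' → T' ≤ T →
          |tauberian m (member f ν) T' - (1 + r) * Chebyshev.theta T'| ≤ K * (Real.sqrt T' * (Real.log T') ^ 3))) := by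
  classical
  refine ⟨?_, ?_, ?_⟩
  · intro n r c d l
    exact Q282RH.exists_basis l d
  · intro ε hε
    obtain ⟨A, hA⟩ := Q282RH.even_law ε hε
    refine ⟨A, ?_⟩
    intro m r d l hl hd N f hf
    obtain ⟨T₀, hT₀⟩ := hA m r d l hl.1 hl.2 hd (Fin N) f hf
    refine ⟨T₀, fun T hT c L hL y => ?_⟩
    have h1 := hT₀ T hT c L hL y
    rw [proportion_eq]
    exact h1
  · intro m r d l hl hd N f hf
    obtain ⟨K₁, hK₁, h⟩ := Q282RH.even_all m r d l hl.1 hl.2 hd (Fin N) f hf
    refine ⟨K₁, hK₁, ?_⟩
    intro K hK T c L hL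
    have hK0 : 0 < K := lt_of_lt_of_le hK₁ hK
    have hL0 : ∀ k, (0 : ℝ) < L k := fun k => lt_of_lt_of_le (by positivity) (hL k)
    have hP0 : 0 < ∏ k, (L k : ℝ) := prod_pos fun k _ => hL0 k
    have h1 := h K hK T c L hL (fun ν => ¬ ∀ T' : ℕ, 2 ≤ T' → T' ≤ T →
          |tauberian m (member f ν) T' - (1 + r) * Chebyshev.theta T'| ≤ K * (Real.sqrt T' * (Real.log T') ^ 3)) (by
      intro ν hν
      push Not at hν
      obtain ⟨T', h2, h3, h4⟩ := hν
      exact ⟨T', h2, h3, h4⟩)
    have h2 := card_filter_add_card_filter_not (s := Q282RH.tbox c L) (fun ν => ∀ T' : ℕ, 2 ≤ T' → T' ≤ T →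
          |tauberian m (member f ν) T' - (1 + r) * Chebyshev.theta T'| ≤ K * (Real.sqrt T' * (Real.log T') ^ 3))
    have h3 : (Q282RH.tbox c L).card = ∏ k, L k := by
      unfold Q282RH.tbox
      rw [Fintype.card_piFinset]
      refine prod_congr rfl fun k _ => ?_
      rw [Int.card_Ico, add_sub_cancel_left, Int.toNat_natCast]
    rw [h3] at h2
    have h4 : (((Q282RH.tbox c L).filter fun ν => ∀ T' : ℕ, 2 ≤ T' → T' ≤ T →
          |tauberian m (member f ν) T' - (1 + r) * Chebyshev.theta T'| ≤ K * (Real.sqrt T' * (Real.log T') ^ 3)).card : ℝ) +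
        (((Q282RH.tbox c L).filter fun ν => ¬ ∀ T' : ℕ, 2 ≤ T' → T' ≤ T →
          |tauberian m (member f ν) T' - (1 + r) * Chebyshev.theta T'| ≤ K * (Real.sqrt T' * (Real.log T') ^ 3)).card : ℝ) = ∏ k, (L k : ℝ) := by
      exact_mod_cast h2
    rw [proportion_eq, le_div_iff₀ hP0]
    linarith

end Pool.Agent.Results.MP_4589ac_nt.RandomHypersurfacesThroughPlanes
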