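import Pool.Agent.Q64.LC.Gro
import Pool.Agent.TH143.EL.Wp

/-!
# Varieties without images of tori and entire curves of slow growth

Let `X` be a projective algebraic set in `ℙ^n`. There are a function `Ψ` which grows faster than all
polynomials and a sequence `ε` of positive numbers, depending only on `X`, with the following
property: if all holomorphic maps from one-dimensional complex tori to `X` are constant, or only if
`X` contains no rational curves, then all entire curves in `X` whose homogeneous coordinates are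
bounded by `Ψ (|z|)` for large `z` are constant, and so are all holomorphic curves `∑ z ^ i a i` in
`X`, even on small discs, such that for infinitely many `m` all the coefficients `a i` with
`m < i ≤ D m` have norm at most `ε m`.

For an arbitrary `X`, all nonconstant curves with these properties lie in the closure, for the usual
topology, of the union of the rational curves in `X`.
-/

set_option autoImplicit false

namespace Pool.Agent.Results.MP_45e720_ag.SlowGrowth

open MvPolynomial Filter Pool.Agent.W602.GT Pool.Agent.Q64.LC Pool.Agent.TH143.EL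
open scoped LinearAlgebra.Projectivization

/-- All holomorphic maps from one-dimensional complex tori to the projective algebraic set of `I` are
constant. -/
def NoTorus {n : ℕ} (I : Ideal (MvPolynomial (Fin (n + 1)) ℂ)) : Prop :=
  ∀ ω₁ ω₂ : ℂ, LinearIndependent ℝ ![ω₁, ω₂] → ∀ g : ℂ → ℙ ℂ (Fin (n + 1) → ℂ), HolMap g →
    (∀ z, g (z + ω₁) = g z) → (∀ z, g (z + ω₂) = g z) → (∀ z, InV I (g z)) → ∀ z w, g z = g w

/-- A projective algebraic set without images of tori contains no rational curves. -/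
theorem noPoly_of_noTorus {n : ℕ} {I : Ideal (MvPolynomial (Fin (n + 1)) ℂ)} (h : NoTorus I)
    (T : Fin (n + 1) → Polynomial ℂ) : ¬ PolyCurve I 1 T := by
  intro hT
  have hT' : TorusMapsIn I ⊤ := by
    intro ω₁ ω₂ hω g hg h1 h2 hgX hgnc
    exfalso
    obtain ⟨z, w, hzw⟩ := hgnc
    exact hzw (h ω₁ ω₂ hω g hg h1 h2 hgX z w)
  obtain ⟨u, v, j, k, huv⟩ := hT.ind
  have h2 := ratCurves_of_torus hT' T (fun u G hG hGf => by
    rw [eval₂_id]
    exact hT.mem G hG hGf u) ⟨j, k, u, v, huv⟩ 0 1 Submodule.mem_top ⟨0, isHomogeneous_one _ _⟩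
  rw [eval₂_one] at h2
  exact one_ne_zero h2

theorem result {n D : ℕ} (hD : 1 ≤ D) {I : Ideal (MvPolynomial (Fin (n + 1)) ℂ)}
    (hcut : CutBy D I) :
    ∃ (Ψ : ℝ → ℝ) (ε : ℕ → ℝ), SuperPoly Ψ ∧ (∀ m, 0 < ε m) ∧
      -- all `X`
      (∀ f, Entire I 1 f → Slow Ψ f → ∀ z : ℂ, f z ∈ closure (ratPts I 1)) ∧
      (∀ (r : ℝ) (a : ℕ → Fin (n + 1) → ℂ) (f : ℂ → Fin (n + 1) → ℂ), Curve I 1 r a f →
        NonConst r f → AGaps D ε a → ∀ z : ℂ, ‖z‖ < r → f z ∈ closure (ratPts I 1)) ∧
      -- `X` without rational curves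
      ((NoTorus I ∨ ∀ T, ¬ PolyCurve I 1 T) →
        (∀ f, Entire I 1 f → ¬ Slow Ψ f) ∧
        ∀ (r : ℝ) (a : ℕ → Fin (n + 1) → ℂ) (f : ℂ → Fin (n + 1) → ℂ), Curve I 1 r a f →
          AGaps D ε a → ¬ NonConst r f) := by
  obtain ⟨Ψ, hΨ, h1⟩ := slow_entire hD (isHomogeneous_one _ _) (Nat.zero_le _) hcut
  obtain ⟨ε, hε, h2⟩ := approx hD (isHomogeneous_one _ _) (Nat.zero_le _) hcut
  refine ⟨Ψ, ε, hΨ, hε, h1, h2, fun h => ?_⟩
  have h3 : ∀ T, ¬ PolyCurve I 1 T := by
    rcases h with h | h
    · exact noPoly_of_noTorus h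
    · exact h
  have h4 : ratPts I 1 = ∅ := by
    rw [Set.eq_empty_iff_forall_notMem]
    rintro _ ⟨T, hT, -⟩
    exact h3 T hT
  refine ⟨fun f hf hs => ?_, fun r a f hf hb hnc => ?_⟩
  · have h5 := h1 f hf hs 0
    rw [h4, closure_empty] at h5
    exact h5
  · have h5 := h2 r a f hf hnc hb 0 (by rw [norm_zero]; exact hf.pos)
    rw [h4, closure_empty] at h5
    exact h5

end Pool.Agent.Results.MP_45e720_ag.SlowGrowth
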