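import Pool.Agent.Q20.TR.Par

/-!
# Stark's conjecture up to roots of unity is a statement about class group characters
-/

set_option autoImplicit false
set_option linter.unusedSectionVars false

namespace Pool.Agent.Results.MP_46b841_nt.ClassGroupCharacters

open NumberField IsDedekindDomain
open Pool.Agent.Q246.BI (Smooth IsCharacter induced)
open Pool.Agent.Q246.RP (IsCC)
open Pool.Agent.Q273.SP (IsPl Dec Ine)
open Pool.Agent.Q20.LG (RChar Unr decF ineF Above)
open Pool.Agent.Q20.TR (GenR GenS UnrS Big Even Quad)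
open scoped Classical

/-- the intermediate fields of an algebraic closure of the number field `K` (e.g. `K = ℚ`) -/
abbrev Sub (K : Type) [Field K] : Type := IntermediateField K (AlgebraicClosure K)

/-- a positive multiple of `f` is an integral combination of elements of `A` -/
def Multiple {X : Type} (f : X → ℂ) (A : Set (X → ℂ)) : Prop :=
  ∃ m : ℕ, 0 < m ∧ m • f ∈ AddSubgroup.closure A

section defs
variable {K : Type} [Field K] [NumberField K]

/-- the field `K` in `K̄` -/
noncomputable def base (K : Type) [Field K] : Sub K := ⊥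

/-- the finite extensions of `K` -/
def FinExt (F : Sub K) : Prop := FiniteDimensional K F

/-- complex functions on `Gal(K̄/F)` -/
def Fn (F : Sub K) : Type := F.fixingSubgroup → ℂ

/-- the sum -/
def Fn.add {F : Sub K} (f f' : Fn F) : Fn F := fun g => f g + f' g

/-- characters of `Gal(K̄/F)` -/
def Char {F : Sub K} (χ : Fn F) : Prop := IsCharacter F χ

/-- virtual characters of `Gal(K̄/F)` -/
def Virt {F : Sub K} (f : Fn F) : Prop := f ∈ RChar F.fixingSubgroup

/-- induction -/
noncomputable def ind (F F' : Sub K) (f : Fn F') : Fn F := induced F F' f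

/-- smooth linear characters of `Gal(K̄/F)` -/
structure Lin (F : Sub K) : Type where
  /-- the homomorphism -/
  hom : F.fixingSubgroup →* ℂˣ
  smooth : Smooth F hom

/-- the values of a linear character -/
noncomputable def Lin.fn {F : Sub K} (ψ : Lin F) : Fn F := fun g => ((ψ.hom g : ℂˣ) : ℂ)

/-- **Class group characters**: linear characters `ψ` of `Gal(K̄/F)`, `F` totally complex of degree
divisible by `M` over `K`, such that `ψ` is trivial on the inertia groups of all finite places and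
on the decomposition groups of all places above the primes in `S`, and the completions of `F` above
the primes in `S` contain those of `L` -/
structure ClassGroup (M : ℕ) (S : Finset ℕ) (L : Sub K) {F : Sub K} (ψ : Lin F) : Prop where
  complex : IsEmpty (F →+* ℝ)
  degree : M ∣ Module.finrank K F
  inertia : ∀ p : ℕ, p.Prime → ∀ w : AlgebraicClosure K → ℝ, IsPl p w → ∀ g : F.fixingSubgroup,
    Ine w (g : Gal(AlgebraicClosure K/K)) → ψ.hom g = 1
  split : ∀ p ∈ S, p.Prime → ∀ w : AlgebraicClosure K → ℝ, IsPl p w → ∀ g : F.fixingSubgroup,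
    Dec w (g : Gal(AlgebraicClosure K/K)) → ψ.hom g = 1
  completion : ∀ p ∈ S, p.Prime → ∀ w : AlgebraicClosure K → ℝ, IsPl p w →
    ∀ g ∈ F.fixingSubgroup, Dec w g → g ∈ L.fixingSubgroup

/-- A quadratic or trivial character of `Gal(K̄/K)` with the value `s = ±1` at all complex
conjugations -/
structure Sign (s : ℂˣ) (ε : Gal(AlgebraicClosure K/K) →* ℂˣ) : Prop where
  smooth : ∃ E : Sub K, FinExt E ∧ ∀ g ∈ E.fixingSubgroup, ε g = 1
  sq : ∀ g, ε g * ε g = 1
  cc : ∀ c, IsCC c → ε c = s

/-- **Linear characters of parity `s` with one bad prime**: `ψ` is a linear character over a totally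
real field `F`, `ψ(c) = s` for all complex conjugations `c`, and there is a prime `p` such that `ε ψ`
is trivial on the inertia groups of all finite places which are not above `p` and on the
decomposition groups of the places above the primes in `S` other than `p` -/
structure OnePrime (s : ℂˣ) (ε : Gal(AlgebraicClosure K/K) →* ℂˣ) (S : Finset ℕ) {F : Sub K}
    (ψ : Lin F) : Prop where
  real : IsTotallyReal F
  parity : ∀ c : F.fixingSubgroup, IsCC (c : Gal(AlgebraicClosure K/K)) → ψ.hom c = s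
  bad : ∃ p : ℕ, p.Prime ∧ ∀ q : ℕ, q.Prime → q ≠ p → ∀ w : AlgebraicClosure K → ℝ, IsPl q w →
    ∀ g : F.fixingSubgroup,
      (Ine w (g : Gal(AlgebraicClosure K/K)) → ε g * ψ.hom g = 1) ∧
      (q ∈ S → Dec w (g : Gal(AlgebraicClosure K/K)) → ε g * ψ.hom g = 1)

/-- the characters of `Gal(K̄/K)` induced by class group characters -/
def IndClassGroup (M : ℕ) (S : Finset ℕ) (L : Sub K) : Set (Fn (base K)) :=
  {f | ∃ (F : Sub K) (ψ : Lin F), FinExt F ∧ ClassGroup M S L ψ ∧ f = ind (base K) F ψ.fn}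

/-- the characters of `Gal(K̄/K)` induced by the linear characters of parity `s` over totally real
fields with one bad prime -/
def IndOnePrime (s : ℂˣ) (ε : Gal(AlgebraicClosure K/K) →* ℂˣ) (S : Finset ℕ) :
    Set (Fn (base K)) :=
  {f | ∃ (F : Sub K) (ψ : Lin F), FinExt F ∧ OnePrime s ε S ψ ∧ f = ind (base K) F ψ.fn}

/-- the characters of `Gal(K̄/K)` induced by trivial characters -/
def IndTrivial (K : Type) [Field K] : Set (Fn (base K)) :=
  {f | ∃ F : Sub K, FinExt F ∧ f = ind (base K) F fun _ => 1}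

/-- a virtual character of parity `s`: a difference of two characters `χ` with `χ(c) = s χ(1)` for
all complex conjugations `c` -/
def Parity (s : ℂˣ) (f : Fn (base K)) : Prop :=
  ∃ χ χ' : Fn (base K), Char χ ∧ Char χ' ∧
    (∀ c : (base K).fixingSubgroup, IsCC (c : Gal(AlgebraicClosure K/K)) →
      χ c = (s : ℂ) * χ 1 ∧ χ' c = (s : ℂ) * χ' 1) ∧ ∀ g, f g = χ g - χ' g

/-- the primes of `K` -/
def Prm (K : Type) [Field K] : Type := HeightOneSpectrum (𝓞 (base K))

/-- choices of places of `K̄` above all primes of `K` -/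
structure Choice (K : Type) [Field K] [NumberField K] : Type where
  /-- the place above `v` -/
  pl : Prm K → AlgebraicClosure K → ℝ
  above : ∀ v, Above (base K) v (pl v)

/-- complex functions on the decomposition group of `w` in `Gal(K̄/K)` -/
def LFn (w : AlgebraicClosure K → ℝ) : Type := decF (base K) w → ℂ

/-- virtual characters of the decomposition group -/
def LVirt {w : AlgebraicClosure K → ℝ} (φ : LFn w) : Prop := φ ∈ RChar (decF (base K) w)

/-- a positive multiple is a combination of characters induced from unramified linear characters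
of open subgroups of the decomposition group -/
def LUnr {w : AlgebraicClosure K → ℝ} (φ : LFn w) : Prop := Multiple φ (Unr (ineF (base K) w))

end defs

/-- additive and inductive functions of the characters over the finite extensions of `K` -/
structure AddInd {K : Type} [Field K] [NumberField K] {B : Type} [AddCommGroup B]
    (D : ∀ F : Sub K, Fn F → B) : Prop where
  add : ∀ F : Sub K, FinExt F → ∀ χ χ' : Fn F, Char χ → Char χ' →
    D F (χ.add χ') = D F χ + D F χ'
  ind : ∀ F F' : Sub K, F ≤ F' → FinExt F' → ∀ χ : Fn F', Char χ → D F (ind F F' χ) = D F' χ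

/-- The formal properties of the numbers `A(χ)`, `χ` a character of `Gal(K̄/F)`, `F` a finite
extension of the number field `K`: additivity and invariance under induction. (Invariance under
inflation is part of the notation.) -/
structure Formal {K : Type} [Field K] [NumberField K] (a : ∀ F : Sub K, Fn F → ℂˣ) : Prop where
  add : ∀ F : Sub K, FinExt F → ∀ χ χ' : Fn F, Char χ → Char χ' →
    a F (χ.add χ') = a F χ * a F χ'
  ind : ∀ F F' : Sub K, F ≤ F' → FinExt F' → ∀ χ : Fn F', Char χ → a F (ind F F' χ) = a F' χ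

/-- the conjugate character `χ^σ` -/
def conj {K : Type} [Field K] [NumberField K] {F : Sub K} (σ : ℂ ≃+* ℂ) (χ : Fn F) : Fn F :=
  fun g => σ (χ g)

/-- Stark's equality up to roots of unity -/
def StarkUpToRoots {K : Type} [Field K] [NumberField K] (a : ∀ F : Sub K, Fn F → ℂˣ)
    {F : Sub K} (χ : Fn F) (σ : ℂ ≃+* ℂ) : Prop :=
  ∃ m : ℕ, 0 < m ∧ σ (a F χ) ^ m = (a F (conj σ χ) : ℂ) ^ m

/-- the defect `A(χ)^σ / A(χ^σ)` -/
noncomputable def defect {K : Type} [Field K] [NumberField K]
    (a : ∀ F : Sub K, Fn F → ℂˣ) (σ : ℂ ≃+* ℂ) (F : Sub K) (χ : Fn F) : ℂˣ :=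
  Units.map (σ : ℂ →* ℂ) (a F χ) / a F (conj σ χ)

/-- the algebraic numbers in `ℂ^*` -/
def algUnits : Subgroup ℂˣ where
  carrier := {u | IsAlgebraic ℚ (u : ℂ)}
  one_mem' := isAlgebraic_one
  mul_mem' := fun {a b} ha hb => by
    change IsAlgebraic ℚ ((a * b : ℂˣ) : ℂ)
    rw [Units.val_mul]
    exact IsAlgebraic.mul ha hb
  inv_mem' := fun {a} ha => by
    change IsAlgebraic ℚ ((a⁻¹ : ℂˣ) : ℂ)
    rw [Units.val_inv_eq_inv_val]
    exact IsAlgebraic.inv ha

/-- the quotient of `ℂ^*` by a subgroup, written additively -/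
abbrev Quot (H : Subgroup ℂˣ) : Type := Additive (ℂˣ ⧸ H)

/-- the class in the quotient -/
def cl (H : Subgroup ℂˣ) (z : ℂˣ) : Quot H := Additive.ofMul (QuotientGroup.mk z)

/-- (1) **The induction theorem.** Parities `s = ±1`; a character `ε` exists. -/
def Induction (K : Type) [Field K] [NumberField K] : Prop :=
  ∀ s : ℂˣ, s = 1 ∨ s = -1 →
    (∃ ε : Gal(AlgebraicClosure K/K) →* ℂˣ, Sign s ε) ∧
    ∀ ε : Gal(AlgebraicClosure K/K) →* ℂˣ, Sign s ε → ∀ (M : ℕ) (S : Finset ℕ) (L : Sub K),
      0 < M → FinExt L → ∀ f : Fn (base K), Virt f →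
        Multiple f (IndTrivial K ∪ IndClassGroup M S L ∪ IndOnePrime s ε S)

/-- (2) **Approximation** by virtual characters of parity `s` -/
def Approximation (K : Type) [Field K] [NumberField K] : Prop :=
  Nonempty (Choice K) ∧ ∀ (c : Choice K) (s : ℂˣ), s = 1 ∨ s = -1 →
    ∀ ε : Gal(AlgebraicClosure K/K) →* ℂˣ, Sign s ε →
      ∀ (P : Finset (Prm K)) (φ : ∀ v, LFn (c.pl v)), (∀ v ∈ P, LVirt (φ v)) →
        ∃ m : ℕ, 0 < m ∧ ∃ f : Fn (base K), Parity s f ∧
          (∀ v ∈ P, ∀ g : decF (base K) (c.pl v), f g = m * (φ v g - φ v 1 * ((ε g : ℂˣ) : ℂ))) ∧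
          ∀ v, v ∉ P → LUnr (w := c.pl v) fun g => f g

/-- (3) **Rigidity** of additive inductive functions with values in torsion-free groups -/
def Rigidity (K : Type) [Field K] [NumberField K] : Prop :=
  ∀ (B : Type) [AddCommGroup B], (∀ (n : ℕ) (b : B), 0 < n → n • b = 0 → b = 0) →
    ∀ D : ∀ F : Sub K, Fn F → B, AddInd D →
      ∀ (s : ℂˣ) (ε : Gal(AlgebraicClosure K/K) →* ℂˣ), Sign s ε →
        ∀ (M : ℕ) (S : Finset ℕ) (L : Sub K), 0 < M → FinExt L →
          (∀ F : Sub K, FinExt F → D F (fun _ => 1) = 0) →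
          (∀ F : Sub K, FinExt F → ∀ ψ : Lin F, ClassGroup M S L ψ → D F ψ.fn = 0) →
          (∀ F : Sub K, FinExt F → ∀ ψ : Lin F, OnePrime s ε S ψ → D F ψ.fn = 0) →
          ∀ F : Sub K, FinExt F → ∀ χ : Fn F, Char χ → D F χ = 0

/-- (4) **Stark's conjecture up to roots of unity**, granted for trivial characters (class number
formula), totally odd characters (Siegel) and class group characters -/
def Stark (K : Type) [Field K] [NumberField K] : Prop :=
  ∀ a : ∀ F : Sub K, Fn F → ℂˣ, Formal a → ∀ (σ : ℂ ≃+* ℂ)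
    (ε : Gal(AlgebraicClosure K/K) →* ℂˣ), Sign (-1) ε →
    ∀ (M : ℕ) (S : Finset ℕ) (L : Sub K), 0 < M → FinExt L →
      (∀ F : Sub K, FinExt F → StarkUpToRoots (F := F) a (fun _ => 1) σ) →
      (∀ F : Sub K, FinExt F → ∀ ψ : Lin F, OnePrime (-1) ε S ψ → StarkUpToRoots a ψ.fn σ) →
      (∀ F : Sub K, FinExt F → ∀ ψ : Lin F, ClassGroup M S L ψ → StarkUpToRoots a ψ.fn σ) →
      ∀ F : Sub K, FinExt F → ∀ χ : Fn F, Char χ → StarkUpToRoots a χ σ

/-- (5) **Algebraicity** of the numbers `A(χ)`, granted for the same characters -/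
def Algebraicity (K : Type) [Field K] [NumberField K] : Prop :=
  ∀ a : ∀ F : Sub K, Fn F → ℂˣ, Formal a → ∀ (ε : Gal(AlgebraicClosure K/K) →* ℂˣ), Sign (-1) ε →
    ∀ (M : ℕ) (S : Finset ℕ) (L : Sub K), 0 < M → FinExt L →
      (∀ F : Sub K, FinExt F → IsAlgebraic ℚ (a F (fun _ => 1) : ℂ)) →
      (∀ F : Sub K, FinExt F → ∀ ψ : Lin F, OnePrime (-1) ε S ψ → IsAlgebraic ℚ (a F ψ.fn : ℂ)) →
      (∀ F : Sub K, FinExt F → ∀ ψ : Lin F, ClassGroup M S L ψ → IsAlgebraic ℚ (a F ψ.fn : ℂ)) →
      ∀ F : Sub K, FinExt F → ∀ χ : Fn F, Char χ → IsAlgebraic ℚ (a F χ : ℂ)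

section
variable {K : Type} [Field K] [NumberField K]

theorem conj_character {F : Sub K} {χ : Fn F} (h : Char χ) (σ : ℂ ≃+* ℂ) : Char (conj σ χ) := by
  obtain ⟨n, τ, ⟨E, hE, hs⟩, hτ⟩ := h
  refine ⟨n, (Matrix.GeneralLinearGroup.map (σ : ℂ →+* ℂ)).comp τ, ⟨E, hE, fun g hg => ?_⟩,
    fun g => ?_⟩
  · rw [MonoidHom.comp_apply, hs g hg, map_one]
  · change σ (χ g) = _
    rw [hτ]
    change σ (τ g : Matrix (Fin n) (Fin n) ℂ).trace =
      ((τ g : Matrix (Fin n) (Fin n) ℂ).map (σ : ℂ →+* ℂ)).trace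
    simp [Matrix.trace]

theorem conj_induced (F F' : Sub K) (hfd : FinExt F') (χ : Fn F') (σ : ℂ ≃+* ℂ) :
    conj σ (ind F F' χ) = ind F F' (conj σ χ) := by
  have hfd : FiniteDimensional K F' := hfd
  have hfin : Finite (F.fixingSubgroup ⧸ F'.fixingSubgroup.subgroupOf F.fixingSubgroup) :=
    Pool.Agent.Q246.BI.nn_finite F F'
  have : Fintype (F.fixingSubgroup ⧸ F'.fixingSubgroup.subgroupOf F.fixingSubgroup) :=
    Fintype.ofFinite _
  funext g
  change σ (induced F F' χ g) = induced F F' (fun g => σ (χ g)) g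
  unfold induced
  rw [finsum_eq_sum_of_fintype, finsum_eq_sum_of_fintype, map_sum]
  refine Finset.sum_congr rfl fun x _ => ?_
  split_ifs
  · rfl
  · exact map_zero σ

theorem defect_add {a : ∀ F : Sub K, Fn F → ℂˣ} (ha : Formal a) (σ : ℂ ≃+* ℂ) (F : Sub K)
    (hF : FinExt F) (χ χ' : Fn F) (h : Char χ) (h' : Char χ') :
    defect a σ F (χ.add χ') = defect a σ F χ * defect a σ F χ' := by
  have h1 : conj σ (χ.add χ') = (conj σ χ).add (conj σ χ') := by
    funext g
    exact map_add σ _ _
  unfold defect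
  rw [h1, ha.add F hF _ _ h h', ha.add F hF _ _ (conj_character h σ) (conj_character h' σ),
    map_mul, mul_div_mul_comm]

theorem defect_ind {a : ∀ F : Sub K, Fn F → ℂˣ} (ha : Formal a) (σ : ℂ ≃+* ℂ) (F F' : Sub K)
    (hle : F ≤ F') (hF' : FinExt F') (χ : Fn F') (h : Char χ) :
    defect a σ F (ind F F' χ) = defect a σ F' χ := by
  unfold defect
  rw [conj_induced F F' hF', ha.ind F F' hle hF' χ h, ha.ind F F' hle hF' _ (conj_character h σ)]

theorem cl_mul (H : Subgroup ℂˣ) (y z : ℂˣ) : cl H (y * z) = cl H y + cl H z := by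
  unfold cl
  rw [QuotientGroup.mk_mul, ofMul_mul]

theorem cl_zero (H : Subgroup ℂˣ) (z : ℂˣ) : cl H z = 0 ↔ z ∈ H := by
  unfold cl
  rw [ofMul_eq_zero, QuotientGroup.eq_one_iff]

theorem cl_surj (H : Subgroup ℂˣ) (b : Quot H) : ∃ z, cl H z = b := by
  obtain ⟨z, hz⟩ := QuotientGroup.mk_surjective (Additive.toMul b)
  exact ⟨z, by unfold cl; rw [hz, ofMul_toMul]⟩

theorem cl_pow (H : Subgroup ℂˣ) (z : ℂˣ) (n : ℕ) : cl H (z ^ n) = n • cl H z := by
  unfold cl
  rw [QuotientGroup.mk_pow, ofMul_pow]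

theorem quot_tf (H : Subgroup ℂˣ) (hH : ∀ (z : ℂˣ) (m : ℕ), 0 < m → z ^ m ∈ H → z ∈ H)
    (m : ℕ) (b : Quot H) (hm : 0 < m) (h : m • b = 0) : b = 0 := by
  obtain ⟨z, rfl⟩ := cl_surj H b
  rw [← cl_pow, cl_zero] at h
  rw [cl_zero]
  exact hH z m hm h

theorem tor_pow (z : ℂˣ) (m : ℕ) (hm : 0 < m) (h : z ^ m ∈ CommGroup.torsion ℂˣ) :
    z ∈ CommGroup.torsion ℂˣ := by
  change IsOfFinOrder (z ^ m) at h
  change IsOfFinOrder z
  exact h.of_pow hm.ne'

theorem alg_pow (z : ℂˣ) (m : ℕ) (hm : 0 < m) (h : z ^ m ∈ algUnits) : z ∈ algUnits := by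
  change IsAlgebraic ℚ ((z ^ m : ℂˣ) : ℂ) at h
  rw [Units.val_pow_eq_pow_val] at h
  exact h.of_pow hm

theorem stark_iff {a : ∀ F : Sub K, Fn F → ℂˣ} (σ : ℂ ≃+* ℂ) (F : Sub K) (χ : Fn F) :
    cl (CommGroup.torsion ℂˣ) (defect a σ F χ) = 0 ↔ StarkUpToRoots a χ σ := by
  rw [cl_zero]
  change IsOfFinOrder (defect a σ F χ) ↔ _
  rw [isOfFinOrder_iff_pow_eq_one]
  unfold defect StarkUpToRoots
  refine exists_congr fun m => and_congr_right fun _ => ?_
  rw [div_pow, div_eq_one, Units.ext_iff]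
  rfl

theorem Sign.quad {s : ℂˣ} {ε : Gal(AlgebraicClosure K/K) →* ℂˣ} (h : Sign s ε) : Quad ε :=
  ⟨h.smooth, h.sq⟩

theorem exists_sign [IsTotallyReal K] {s : ℂˣ} (hs : s = 1 ∨ s = -1) :
    ∃ ε : Gal(AlgebraicClosure K/K) →* ℂˣ, Sign s ε := by
  rcases hs with rfl | rfl
  · exact ⟨1, Pool.Agent.Q20.TR.quad_one.smooth, Pool.Agent.Q20.TR.quad_one.sq, fun _ _ => rfl⟩
  · exact ⟨Pool.Agent.Q20.TR.odd K, Pool.Agent.Q20.TR.quad_odd.smooth,
      Pool.Agent.Q20.TR.quad_odd.sq, fun _ hc => Pool.Agent.Q20.TR.odd_cc hc⟩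

/-- the twist of a linear character -/
noncomputable def twist {ε : Gal(AlgebraicClosure K/K) →* ℂˣ} (hε : Quad ε) (F : Sub K)
    (ψ : F.fixingSubgroup →* ℂˣ) (hψ : Smooth F ψ) : Lin F :=
  ⟨Pool.Agent.Q20.TR.twl ε F ψ, Pool.Agent.Q20.TR.twl_smooth hε F hψ⟩

theorem onePrime_twist {s : ℂˣ} {ε : Gal(AlgebraicClosure K/K) →* ℂˣ} (hε : Sign s ε)
    {S : Finset ℕ} {F : Sub K} (hr : IsTotallyReal F) {p : ℕ} (hp : p.Prime)
    {ψ : F.fixingSubgroup →* ℂˣ} (hψ : Smooth F ψ) (he : Even F ψ) (hu : UnrS {p} S F ψ) :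
    OnePrime s ε S (twist hε.quad F ψ hψ) := by
  have key : ∀ g : F.fixingSubgroup, ε g * (twist hε.quad F ψ hψ).hom g = ψ g := by
    intro g
    change ε g * (ε g * ψ g) = ψ g
    rw [← mul_assoc, hε.sq, one_mul]
  refine ⟨hr, fun c hc => ?_, p, hp, fun q hq hqp w hw g => ?_⟩
  · change ε c * ψ c = s
    rw [hε.cc _ hc, he c hc, mul_one]
  · rw [key]
    exact hu q hq hqp w hw g

theorem class_group {M : ℕ} {S : Finset ℕ} {L : Sub K} {F : Sub K} (ha : IsEmpty (F →+* ℝ))
    (hb : M ∣ Module.finrank K F) (hc : Big ∅ S L F) {ψ : F.fixingSubgroup →* ℂˣ}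
    (hs : Smooth F ψ) (hd : UnrS ∅ S F ψ) : ClassGroup M S L (F := F) ⟨ψ, hs⟩ :=
  ⟨ha, hb, fun p hp w hw g hg => (hd p hp (Set.notMem_empty p) w hw g).1 hg,
    fun p hpS hp w hw g hg => (hd p hp (Set.notMem_empty p) w hw g).2 hpS hg,
    fun p hpS hp w hw g hg hgw => hc p hp (Set.notMem_empty p) hpS w hw g hg hgw⟩

theorem induction [IsTotallyReal K] : Induction K := by
  intro s hs
  refine ⟨exists_sign hs, fun ε hε M S L hM hL f hf => ?_⟩
  have hLfd : FiniteDimensional K L := hL
  obtain ⟨m, hm, h1⟩ := Pool.Agent.Q20.TR.induction_theorem hM hε.quad S L hf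
  refine ⟨m, hm, AddSubgroup.closure_mono ?_ h1⟩
  rintro f (hf | hf)
  · obtain ⟨⟨p, hp⟩, F', ψ, hfd, hr, hs, he, hu, rfl⟩ := Set.mem_iUnion.1 hf
    exact Or.inr ⟨F', twist hε.quad F' ψ hs, hfd, onePrime_twist hε hr hp hs he hu, rfl⟩
  · obtain ⟨F', ψ, hle, hfd, hs, hc, rfl⟩ := hf
    left
    rcases hc with ⟨ha, hb, hc, hd⟩ | rfl
    · exact Or.inr ⟨F', ⟨ψ, hs⟩, hfd, class_group ha hb hc hs hd, rfl⟩
    · exact Or.inl ⟨F', hfd, rfl⟩

theorem fin_base : FinExt (base K) := by
  unfold FinExt base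
  infer_instance

theorem approximation [IsTotallyReal K] : Approximation K := by
  constructor
  · have hfd : FiniteDimensional K (base K) := fin_base
    choose w hw using fun v => Pool.Agent.Q20.LG.exists_place (base K) v
    exact ⟨⟨w, hw⟩⟩
  · rintro ⟨w, hw⟩ s hs ε hε P φ hφ
    have hε' := hε.quad
    obtain ⟨m, hm, f₁, hf₁, h1, h2⟩ := Pool.Agent.Q20.TR.approx_par hw P φ hφ hε'
    refine ⟨m, hm, Pool.Agent.Q20.TR.tw ε f₁, ?_, h1, h2⟩
    obtain ⟨a, b, ha, hb, rfl⟩ := Pool.Agent.Q20.TR.exists_diff hf₁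
    refine ⟨Pool.Agent.Q20.TR.tw ε a, Pool.Agent.Q20.TR.tw ε b,
      Pool.Agent.Q20.TR.tw_char hε' ha, Pool.Agent.Q20.TR.tw_char hε' hb, fun c hc => ?_,
      fun g => congrFun (map_sub (Pool.Agent.Q20.TR.tw ε) a b) g⟩
    exact ⟨Pool.Agent.Q20.TR.tw_cc (hε.cc _ hc) hc a, Pool.Agent.Q20.TR.tw_cc (hε.cc _ hc) hc b⟩

theorem rigidity [IsTotallyReal K] : Rigidity K := by
  intro B _ htf D hD s ε hε M S L hM hL h1 h2 h3 F hF χ hχ
  exact Pool.Agent.Q20.TR.rigid htf D (fun F hF χ χ' h h' => hD.add F hF χ χ' h h')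
    (fun F F' hle hF' χ h => hD.ind F F' hle hF' χ h) hM hε.quad S L hL h1
    (fun F hF ha hb hc ψ hs hd => h2 F hF ⟨ψ, hs⟩ (class_group ha hb hc hs hd))
    (fun F hF hr p hp ψ hs he hu => h3 F hF (twist hε.quad F ψ hs)
      (onePrime_twist hε hr hp hs he hu)) F hF χ hχ

theorem stark [IsTotallyReal K] : Stark K := by
  intro a ha σ ε hε M S L hM hL h1 h2 h3 F hF χ hχ
  have hD : AddInd (K := K) fun F χ => cl (CommGroup.torsion ℂˣ) (defect a σ F χ) :=
    ⟨fun F hF χ χ' h h' => by rw [defect_add ha σ F hF χ χ' h h', cl_mul],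
      fun F F' hle hF' χ h => by rw [defect_ind ha σ F F' hle hF' χ h]⟩
  rw [← stark_iff]
  exact rigidity (Quot (CommGroup.torsion ℂˣ)) (quot_tf _ tor_pow) _ hD (-1) ε hε M S L hM hL
    (fun F hF => (stark_iff σ F _).2 (h1 F hF))
    (fun F hF ψ hψ => (stark_iff σ F _).2 (h3 F hF ψ hψ))
    (fun F hF ψ hψ => (stark_iff σ F _).2 (h2 F hF ψ hψ)) F hF χ hχ

theorem algebraicity [IsTotallyReal K] : Algebraicity K := by
  intro a ha ε hε M S L hM hL h1 h2 h3 F hF χ hχ
  have hD : AddInd (K := K) fun F χ => cl algUnits (a F χ) :=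
    ⟨fun F hF χ χ' h h' => by rw [ha.add F hF χ χ' h h', cl_mul],
      fun F F' hle hF' χ h => by rw [ha.ind F F' hle hF' χ h]⟩
  exact (cl_zero _ _).1 (rigidity (Quot algUnits) (quot_tf _ alg_pow) _ hD (-1) ε hε M S L hM hL
    (fun F hF => (cl_zero _ _).2 (h1 F hF)) (fun F hF ψ hψ => (cl_zero _ _).2 (h3 F hF ψ hψ))
    (fun F hF ψ hψ => (cl_zero _ _).2 (h2 F hF ψ hψ)) F hF χ hχ)

end

/-- **Theorem.** Let `K` be a totally real number field (e.g. `ℚ`), `s = 1` or `s = -1`, `ε` a
quadratic or trivial character of `Gal(K̄/K)` with value `s` at the complex conjugations, `M > 0`,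
`S` a finite set of primes and `L` a finite extension of `K`.
(1) For every virtual character `f` of `Gal(K̄/K)` a positive multiple of `f` is an integral
combination of characters induced from: trivial characters; class group characters, i.e. everywhere
unramified linear characters `ψ` of `Gal(K̄/F)`, `F` totally complex of degree divisible by `M`, in
which the places above `S` split completely, such that the completions of `F` above `S` contain
those of `L`; linear characters `ψ` over totally real fields with `ψ(c) = s` for all complex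
conjugations such that for one prime `p` the character `ε ψ` is unramified outside `p` and trivial
on the decomposition groups above the primes of `S` other than `p`.
(2) Given virtual characters `φ_v` of the decomposition groups for finitely many primes `v` of `K`
there are `m > 0` and a difference `f` of two characters `χ` of `Gal(K̄/K)` with `χ(c) = s χ(1)` for
all complex conjugations, which restricts to `m (φ_v - φ_v(1) ε)` for these `v` and is, up to a
multiple, a combination of characters induced from unramified linear characters on all other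
decomposition groups.
(3) An additive inductive function of characters with values in a torsion-free group which vanishes
at the three kinds of linear characters in (1) is zero.
(4) If Stark's conjecture holds up to roots of unity for trivial characters (class number formula),
for totally odd linear characters over totally real fields (Siegel) and for class group characters
as in (1), then it holds up to roots of unity for all characters of all finite extensions of `K`.
(5) The same for the algebraicity of the numbers `A(χ)`. -/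
theorem result (K : Type) [Field K] [NumberField K] [IsTotallyReal K] :
    Induction K ∧ Approximation K ∧ Rigidity K ∧ Stark K ∧ Algebraicity K :=
  ⟨induction, approximation, rigidity, stark, algebraicity⟩

end Pool.Agent.Results.MP_46b841_nt.ClassGroupCharacters
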