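import Pool.Agent.Q213.ST.Fin

/-!
# Stark's conjecture: descent along `F(ζ_l)`, `F(a^(1/l))`, and reduction to large base fields
-/

set_option autoImplicit false
set_option linter.unusedSectionVars false

namespace Pool.Agent.Results.MP_46b841_nt.LargeBaseFields

open NumberField
open Pool.Agent.Q246.BI (Smooth IsCharacter induced)
open scoped Classical

/-- the intermediate fields of an algebraic closure of the number field `K` (e.g. `K = ℚ`) -/
abbrev Sub (K : Type) [Field K] : Type := IntermediateField K (AlgebraicClosure K)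

/-- The formal properties of the numbers `A(χ)`, `χ` a character of `Gal(K̄/F)`, `F` a finite
extension of the number field `K`: additivity and invariance under induction. (Invariance under
inflation is part of the notation.) -/
structure Formal {K : Type} [Field K] [NumberField K]
    (a : ∀ F : Sub K, (F.fixingSubgroup → ℂ) → ℂˣ) : Prop where
  add : ∀ F : Sub K, FiniteDimensional K F → ∀ χ χ' : F.fixingSubgroup → ℂ,
    IsCharacter F χ → IsCharacter F χ' → a F (χ + χ') = a F χ * a F χ'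
  ind : ∀ F F' : Sub K, F ≤ F' → FiniteDimensional K F' →
    ∀ χ : F'.fixingSubgroup → ℂ, IsCharacter F' χ → a F (induced F F' χ) = a F' χ

/-- Stark's equality `A(χ)^σ = A(χ^σ)` -/
def StarkAt {K : Type} [Field K] [NumberField K] (a : ∀ F : Sub K, (F.fixingSubgroup → ℂ) → ℂˣ)
    (F : Sub K) (χ : F.fixingSubgroup → ℂ) (σ : ℂ ≃+* ℂ) : Prop :=
  σ (a F χ) = a F (fun g => σ (χ g))

/-- Stark's equality up to roots of unity -/
def StarkUpToRoots {K : Type} [Field K] [NumberField K] (a : ∀ F : Sub K, (F.fixingSubgroup → ℂ) → ℂˣ)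
    (F : Sub K) (χ : F.fixingSubgroup → ℂ) (σ : ℂ ≃+* ℂ) : Prop :=
  ∃ m : ℕ, 0 < m ∧ σ (a F χ) ^ m = (a F (fun g => σ (χ g)) : ℂ) ^ m

/-- `F` is `N`-large: for all primes `p ≤ N` and all prime ideals `P` of `𝓞 F` above `p` the
ramification index (`p ∈ P ^ N`) or the inertia degree (`p ^ N ≤ #(𝓞 F / P)`) is at least `N`, and
at least `2 N` embeddings of `F` into `ℂ` are not real (`F` has at least `N` complex places). -/
def Large (N : ℕ) (F : Type) [Field F] : Prop :=
  (∀ p : ℕ, p.Prime → p ≤ N → ∀ P : Ideal (𝓞 F), P.IsPrime → (p : 𝓞 F) ∈ P →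
    (p : 𝓞 F) ∈ P ^ N ∨ p ^ N ≤ Nat.card (𝓞 F ⧸ P)) ∧
  2 * N ≤ Nat.card {φ : F →+* ℂ // ¬ ∀ x, (φ x).im = 0}

section
variable {K : Type} [Field K] [NumberField K]

theorem conj_character (F : Sub K) {χ : F.fixingSubgroup → ℂ}
    (h : IsCharacter F χ) (σ : ℂ ≃+* ℂ) : IsCharacter F (fun g => σ (χ g)) := by
  obtain ⟨n, τ, ⟨E, hE, hs⟩, hτ⟩ := h
  refine ⟨n, (Matrix.GeneralLinearGroup.map (σ : ℂ →+* ℂ)).comp τ, ⟨E, hE, fun g hg => ?_⟩,
    fun g => ?_⟩
  · rw [MonoidHom.comp_apply, hs g hg, map_one]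
  · change σ (χ g) = _
    rw [hτ]
    change σ (τ g : Matrix (Fin n) (Fin n) ℂ).trace =
      ((τ g : Matrix (Fin n) (Fin n) ℂ).map (σ : ℂ →+* ℂ)).trace
    simp [Matrix.trace]

theorem conj_induced (F F' : Sub K) (hfd : FiniteDimensional K F')
    (χ : F'.fixingSubgroup → ℂ) (σ : ℂ ≃+* ℂ) :
    (fun g => σ (induced F F' χ g)) = induced F F' (fun g => σ (χ g)) := by
  have hfin : Finite (F.fixingSubgroup ⧸ F'.fixingSubgroup.subgroupOf F.fixingSubgroup) :=
    Pool.Agent.Q246.BI.nn_finite F F'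
  have : Fintype (F.fixingSubgroup ⧸ F'.fixingSubgroup.subgroupOf F.fixingSubgroup) :=
    Fintype.ofFinite _
  funext g
  unfold induced
  rw [finsum_eq_sum_of_fintype, finsum_eq_sum_of_fintype, map_sum]
  refine Finset.sum_congr rfl fun x _ => ?_
  split_ifs
  · rfl
  · exact map_zero σ

/-- the defect -/
noncomputable def defect (a : ∀ F : Sub K, (F.fixingSubgroup → ℂ) → ℂˣ)
    (σ : ℂ ≃+* ℂ) (F : Sub K) (χ : F.fixingSubgroup → ℂ) : Additive ℂˣ :=
  Additive.ofMul (Units.map (σ : ℂ →* ℂ) (a F χ) / a F (fun g => σ (χ g)))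

theorem defect_add {a : ∀ F : Sub K, (F.fixingSubgroup → ℂ) → ℂˣ}
    (ha : Formal a) (σ : ℂ ≃+* ℂ) (F : Sub K) (hF : FiniteDimensional K F)
    (χ χ' : F.fixingSubgroup → ℂ) (h : IsCharacter F χ) (h' : IsCharacter F χ') :
    defect a σ F (χ + χ') = defect a σ F χ + defect a σ F χ' := by
  have h1 : (fun g => σ ((χ + χ') g)) = (fun g => σ (χ g)) + fun g => σ (χ' g) := by
    funext g
    exact map_add σ _ _
  unfold defect
  rw [h1, ha.add F hF _ _ h h', ha.add F hF _ _ (conj_character F h σ) (conj_character F h' σ),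
    map_mul, ← ofMul_mul, mul_div_mul_comm]

theorem defect_ind {a : ∀ F : Sub K, (F.fixingSubgroup → ℂ) → ℂˣ}
    (ha : Formal a) (σ : ℂ ≃+* ℂ) (F F' : Sub K) (hle : F ≤ F')
    (hF' : FiniteDimensional K F') (χ : F'.fixingSubgroup → ℂ) (h : IsCharacter F' χ) :
    defect a σ F (induced F F' χ) = defect a σ F' χ := by
  unfold defect
  rw [conj_induced F F' hF', ha.ind F F' hle hF' χ h,
    ha.ind F F' hle hF' _ (conj_character F' h σ)]

theorem defect_eq_zero {a : ∀ F : Sub K, (F.fixingSubgroup → ℂ) → ℂˣ}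
    (σ : ℂ ≃+* ℂ) (F : Sub K) (χ : F.fixingSubgroup → ℂ) :
    defect a σ F χ = 0 ↔ StarkAt a F χ σ := by
  unfold defect StarkAt
  rw [ofMul_eq_zero, div_eq_one, Units.ext_iff]
  rfl

theorem defect_torsion {a : ∀ F : Sub K, (F.fixingSubgroup → ℂ) → ℂˣ}
    (σ : ℂ ≃+* ℂ) (F : Sub K) (χ : F.fixingSubgroup → ℂ) :
    (∃ m : ℕ, 0 < m ∧ m • defect a σ F χ = 0) ↔ StarkUpToRoots a F χ σ := by
  unfold defect StarkUpToRoots
  refine exists_congr fun m => and_congr_right fun _ => ?_
  rw [← ofMul_pow, ofMul_eq_zero, div_pow, div_eq_one, Units.ext_iff]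
  rfl

end

/-- Stark's equality for all characters over `F` -/
def StarkOver {K : Type} [Field K] [NumberField K] (a : ∀ F : Sub K, (F.fixingSubgroup → ℂ) → ℂˣ)
    (F : Sub K) (σ : ℂ ≃+* ℂ) : Prop :=
  ∀ χ : F.fixingSubgroup → ℂ, IsCharacter F χ → StarkAt a F χ σ

/-- `F` is totally complex or the order of the linear character `ψ` is a power of two. -/
def ComplexOrTwo {K : Type} [Field K] [NumberField K] (F : Sub K) (ψ : F.fixingSubgroup →* ℂˣ) :
    Prop :=
  IsEmpty (F →+* ℝ) ∨ ∃ k : ℕ, ∀ g, ψ g ^ 2 ^ k = 1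

/-- `χ` is an integral combination of characters of `Gal(K̄/F)` induced from linear characters `ψ`
of `Gal(K̄/F')`, `F ⊆ F'`, with the property `P`. -/
def Combination {K : Type} [Field K] [NumberField K]
    (P : ∀ F' : Sub K, (F'.fixingSubgroup →* ℂˣ) → Prop) (F : Sub K) (χ : F.fixingSubgroup → ℂ) :
    Prop :=
  χ ∈ AddSubgroup.closure {f | ∃ (F' : Sub K) (ψ : F'.fixingSubgroup →* ℂˣ), F ≤ F' ∧
    FiniteDimensional K F' ∧ Smooth F' ψ ∧ P F' ψ ∧ f = induced F F' (fun g => (ψ g : ℂ))}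

/-- (1) Descent of Stark's conjecture from `F(ζ)` and `F(b)` to `F`, where `ζ` is a primitive `l`-th
root of unity, `l` prime, and `b ^ l` is an element of `F` that is not an `l`-th power in `F`. -/
def Descent (K : Type) [Field K] [NumberField K] : Prop :=
  ∀ (a : ∀ F : Sub K, (F.fixingSubgroup → ℂ) → ℂˣ), Formal a →
    ∀ (σ : ℂ ≃+* ℂ) (F : Sub K), FiniteDimensional K F →
    ∀ (l : ℕ) (ζ b : AlgebraicClosure K), l.Prime → IsPrimitiveRoot ζ l → b ^ l ∈ F →
      (∀ y ∈ F, y ^ l ≠ b ^ l) →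
      StarkOver a (F ⊔ IntermediateField.adjoin K {ζ}) σ →
      StarkOver a (F ⊔ IntermediateField.adjoin K {b}) σ → StarkOver a F σ

/-- (2) Reduction to `N`-large base fields -/
def Reduction (K : Type) [Field K] [NumberField K] (N : ℕ) : Prop :=
  ∀ (a : ∀ F : Sub K, (F.fixingSubgroup → ℂ) → ℂˣ), Formal a → ∀ σ : ℂ ≃+* ℂ,
    (∀ F : Sub K, FiniteDimensional K F → Large N F →
      ∀ ψ : F.fixingSubgroup →* ℂˣ, Smooth F ψ → ComplexOrTwo F ψ →
        StarkAt a F (fun g => (ψ g : ℂ)) σ) →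
    ∀ F : Sub K, FiniteDimensional K F → StarkOver a F σ

/-- (3) Reduction up to roots of unity -/
def ReductionUpToRoots (K : Type) [Field K] [NumberField K] (N M : ℕ) : Prop :=
  ∀ (a : ∀ F : Sub K, (F.fixingSubgroup → ℂ) → ℂˣ), Formal a → ∀ σ : ℂ ≃+* ℂ,
    (∀ F : Sub K, FiniteDimensional K F → StarkUpToRoots a F (fun _ => 1) σ) →
    (∀ F : Sub K, FiniteDimensional K F → Large N F → IsEmpty (F →+* ℝ) →
      M ∣ Module.finrank K F → ∀ ψ : F.fixingSubgroup →* ℂˣ, Smooth F ψ →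
        StarkUpToRoots a F (fun g => (ψ g : ℂ)) σ) →
    ∀ F : Sub K, FiniteDimensional K F →
      ∀ χ : F.fixingSubgroup → ℂ, IsCharacter F χ → StarkUpToRoots a F χ σ

/-- **Theorem.** (1) If Stark's equality holds for all characters over the two fields `F(ζ)` and
`F(b)`, where `ζ` is a primitive `l`-th root of unity, `l` prime, and `b ^ l` is an element of `F`
that is not an `l`-th power in `F`, then it holds for all characters over `F`.
(2) For every `N` Stark's conjecture follows from its case of linear characters `ψ` over `N`-large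
fields `F` such that `F` is totally complex or the order of `ψ` is a power of two.
(3) For all `N`, `M`, up to roots of unity it follows from its case of trivial characters and of
linear characters over `N`-large totally complex fields of degree divisible by `M`.
(4), (5) The induction theorems for characters behind (2) and (3). -/
theorem result (K : Type) [Field K] [NumberField K] :
    Descent K ∧ (∀ N, Reduction K N) ∧ (∀ N M : ℕ, 0 < M → ReductionUpToRoots K N M) ∧
    (∀ (N : ℕ) (F : Sub K), FiniteDimensional K F →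
      ∀ χ : F.fixingSubgroup → ℂ, IsCharacter F χ →
        Combination (fun F' ψ => Large N F' ∧ ComplexOrTwo F' ψ) F χ) ∧
    (∀ N M : ℕ, 0 < M → ∀ F : Sub K, FiniteDimensional K F →
      ∀ χ : F.fixingSubgroup → ℂ, IsCharacter F χ → ∃ m : ℕ, 0 < m ∧
        Combination (fun F' ψ => (Large N F' ∧ IsEmpty (F' →+* ℝ) ∧
          M ∣ Module.finrank K F') ∨ ψ = 1) F (m • χ)) := by
  refine ⟨fun a ha σ F hF l ζ b hl hζ hb hn h1 h2 χ hχ => ?_,
    fun N a ha σ hS F hF χ hχ => ?_, fun N M hM a ha σ h1 hS F hF χ hχ => ?_,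
    fun N F hF χ hχ => ?_, fun N M hM F hF χ hχ => ?_⟩
  · rw [← defect_eq_zero]
    exact Pool.Agent.Q213.ST.descent (defect a σ) (defect_add ha σ) (defect_ind ha σ) ⟨hl⟩ hF
      ⟨hζ, hb, hn⟩ (fun χ hχ => (defect_eq_zero σ _ χ).2 (h1 χ hχ))
      (fun χ hχ => (defect_eq_zero σ _ χ).2 (h2 χ hχ)) hχ
  · rw [← defect_eq_zero]
    exact Pool.Agent.Q213.ST.big_zero N (defect a σ) (defect_add ha σ) (defect_ind ha σ)
      (fun F hF hB ψ hψ h => (defect_eq_zero σ F _).2 (hS F hF hB ψ hψ h)) F hF χ hχ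
  · rw [← defect_torsion]
    exact Pool.Agent.Q213.ST.big_torsion N (defect a σ) (defect_add ha σ) (defect_ind ha σ)
      (fun F hF => (defect_torsion σ F _).2 (h1 F hF)) hM
      (fun F hF hB he hM ψ hψ => (defect_torsion σ F _).2 (hS F hF hB he hM ψ hψ)) F hF χ hχ
  · have h1 := Pool.Agent.Q213.ST.big_induction N F hχ
    unfold Combination
    refine AddSubgroup.closure_mono ?_ h1
    rintro f ⟨F', ψ, h2, h3, h4, h5, h6, h7⟩
    exact ⟨F', ψ, h2, h3, h5, ⟨h4, h6⟩, h7⟩
  · exact Pool.Agent.Q213.ST.big_rational N hM F hχ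

end Pool.Agent.Results.MP_46b841_nt.LargeBaseFields
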