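import Pool.Agent.Q20.LG.Opt

/-!
# Stark's conjecture modulo class group characters: local constants
-/

set_option autoImplicit false
set_option linter.unusedSectionVars false

namespace Pool.Agent.Results.MP_46b841_nt.LocalObstructions

open NumberField IsDedekindDomain
open Pool.Agent.Q246.BI (Smooth IsCharacter induced)
open Pool.Agent.Q273.SP (IsPl Dec Ine)
open Pool.Agent.Q20.LG (RChar Unr GenU GenM UnrAt decF ineF Above AboveT LocCond Indu DD)
open scoped Classical

/-- the intermediate fields of an algebraic closure of the number field `K` (e.g. `K = ℚ`) -/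
abbrev Sub (K : Type) [Field K] : Type := IntermediateField K (AlgebraicClosure K)

/-- a positive multiple of `f` is an integral combination of elements of `A` -/
def Multiple {X : Type} (f : X → ℂ) (A : Set (X → ℂ)) : Prop :=
  ∃ m : ℕ, 0 < m ∧ m • f ∈ AddSubgroup.closure A

section defs
variable {K : Type} [Field K] [NumberField K]

/-- the field `K` in `K̄` -/
noncomputable def base (K : Type) [Field K] : Sub K := ⊥

/-- the finite extensions of `K` -/
def FinExt (F : Sub K) : Prop := FiniteDimensional K F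

/-- complex functions on `Gal(K̄/F)` -/
def Fn (F : Sub K) : Type := F.fixingSubgroup → ℂ

/-- complex functions on the decomposition group of `w` in `Gal(K̄/F)` -/
def LFn (F : Sub K) (w : AlgebraicClosure K → ℝ) : Type := decF F w → ℂ

/-- the sum -/
def Fn.add {F : Sub K} (f f' : Fn F) : Fn F := fun g => f g + f' g

/-- the difference -/
def Fn.sub {F : Sub K} (f f' : Fn F) : Fn F := fun g => f g - f' g

/-- the sum -/
def LFn.plus {F : Sub K} {w : AlgebraicClosure K → ℝ} (φ φ' : LFn F w) : LFn F w :=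
  fun g => φ g + φ' g

/-- the difference -/
def LFn.minus {F : Sub K} {w : AlgebraicClosure K → ℝ} (φ φ' : LFn F w) : LFn F w :=
  fun g => φ g - φ' g

/-- the multiple -/
def LFn.times {F : Sub K} {w : AlgebraicClosure K → ℝ} (m : ℕ) (φ : LFn F w) : LFn F w :=
  fun g => m • φ g

/-- characters of `Gal(K̄/F)` -/
def Char {F : Sub K} (χ : Fn F) : Prop := IsCharacter F χ

/-- virtual characters of `Gal(K̄/F)` -/
def Virt {F : Sub K} (f : Fn F) : Prop := f ∈ RChar F.fixingSubgroup

/-- virtual characters of the decomposition group of `w` in `Gal(K̄/F)` -/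
def LVirt {F : Sub K} {w : AlgebraicClosure K → ℝ} (φ : LFn F w) : Prop := φ ∈ RChar (decF F w)

/-- restriction to the decomposition group -/
def res {F : Sub K} (w : AlgebraicClosure K → ℝ) (f : Fn F) : LFn F w := fun g => f g

/-- induction -/
noncomputable def ind (F F' : Sub K) (f : Fn F') : Fn F := induced F F' f

/-- extension by zero to `Gal(K̄/K)` -/
noncomputable def LFn.zext {F : Sub K} {w : AlgebraicClosure K → ℝ} (φ : LFn F w)
    (g : Gal(AlgebraicClosure K/K)) : ℂ :=
  if e : ∃ h : decF F w, h.1.1 = g then φ e.choose else 0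

/-- induction from the decomposition group of `w` in `Gal(K̄/F')` to the decomposition group of `w`
in `Gal(K̄/F)`, `F ⊆ F'` -/
noncomputable def lind (F F' : Sub K) (w : AlgebraicClosure K → ℝ) (φ : LFn F' w) : LFn F w :=
  Indu (DD F F' w) fun h => φ.zext h.1.1.1

/-- the finite places of `K̄` -/
def Place (w : AlgebraicClosure K → ℝ) : Prop := ∃ p : ℕ, p.Prime ∧ IsPl p w

/-- places which do not lie above a prime of `T` -/
def Outside (T : Set ℕ) (w : AlgebraicClosure K → ℝ) : Prop :=
  ∃ p : ℕ, p.Prime ∧ p ∉ T ∧ IsPl p w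

/-- `V`: a positive multiple is a combination of characters induced from linear characters of
`Gal(K̄/F')`, `F' ⊇ F` finite, unramified outside `T` -/
def InV (T : Set ℕ) {F : Sub K} (f : Fn F) : Prop := Multiple f (GenU T F)

/-- the same with totally complex fields `F'` of degree divisible by `M`, and trivial characters -/
def InVM (M : ℕ) (T : Set ℕ) {F : Sub K} (f : Fn F) : Prop := Multiple f (GenM M T F)

/-- the local analogue of `V`: unramified linear characters of open subgroups -/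
def LInV {F : Sub K} {w : AlgebraicClosure K → ℝ} (φ : LFn F w) : Prop :=
  Multiple φ (Unr (ineF F w))

/-- the local condition -/
def Loc (T : Set ℕ) {F : Sub K} (f : Fn F) : Prop := LocCond T F f

/-- the primes of `F` -/
def Prm (F : Sub K) : Type := HeightOneSpectrum (𝓞 F)

/-- `v` lies above a prime of `T` -/
def Prm.above {F : Sub K} (v : Prm F) (T : Set ℕ) : Prop := AboveT T v

/-- choices of places of `K̄` above all primes of `F` -/
structure Choice (F : Sub K) : Type where
  /-- the place above `v` -/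
  pl : Prm F → AlgebraicClosure K → ℝ
  above : ∀ v, Above F v (pl v)

/-- linear characters -/
def Lin (F : Sub K) : Type := F.fixingSubgroup →* ℂˣ

/-- linear characters as functions -/
noncomputable def Lin.fn {F : Sub K} (ψ : Lin F) : Fn F :=
  fun g => ((DFunLike.coe (F := F.fixingSubgroup →* ℂˣ) ψ g : ℂˣ) : ℂ)

/-- smooth linear characters unramified outside `T` -/
def Lin.unr {F : Sub K} (ψ : Lin F) (T : Set ℕ) : Prop := Smooth F ψ ∧ UnrAt T F ψ

/-- the linear characters over totally complex fields of degree divisible by `M` which are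
unramified at all finite places outside `T` (for empty `T`: class group characters), and the trivial
characters -/
def Lin.cls {F : Sub K} (ψ : Lin F) (M : ℕ) (T : Set ℕ) : Prop :=
  (IsEmpty (F →+* ℝ) ∧ M ∣ Module.finrank K F ∧ ψ.unr T) ∨ ψ.fn = fun _ => 1

end defs

/-- additive and inductive functions of the characters over the finite extensions of `K` -/
structure AddInd {K : Type} [Field K] [NumberField K] {B : Type} [AddCommGroup B]
    (D : ∀ F : Sub K, Fn F → B) : Prop where
  add : ∀ F : Sub K, FinExt F → ∀ χ χ' : Fn F, Char χ → Char χ' →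
    D F (χ.add χ') = D F χ + D F χ'
  ind : ∀ F F' : Sub K, F ≤ F' → FinExt F' → ∀ χ : Fn F', Char χ → D F (ind F F' χ) = D F' χ

/-- **Local constants** for `D` -/
structure LocalConstants {K : Type} [Field K] [NumberField K] {B : Type} [AddCommGroup B]
    (T : Set ℕ) (D : ∀ F : Sub K, Fn F → B)
    (δ : ∀ (F : Sub K) (w : AlgebraicClosure K → ℝ), LFn F w → B) : Prop where
  /-- they are additive -/
  add : ∀ (F : Sub K) (w : AlgebraicClosure K → ℝ), FinExt F → Place w →
    ∀ φ φ' : LFn F w, LVirt φ → LVirt φ' → δ F w (φ.plus φ') = δ F w φ + δ F w φ'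
  /-- they vanish at the combinations of characters induced from unramified linear characters -/
  unramified : ∀ (F : Sub K) (w : AlgebraicClosure K → ℝ), FinExt F → Place w →
    ∀ φ : LFn F w, LVirt φ → LInV φ → δ F w φ = 0
  /-- they vanish at the places above `T` -/
  above : ∀ (F : Sub K) (w : AlgebraicClosure K → ℝ), FinExt F → Place w → ¬ Outside T w →
    ∀ φ : LFn F w, LVirt φ → δ F w φ = 0
  /-- they are invariant under induction -/
  ind : ∀ (F F' : Sub K) (w : AlgebraicClosure K → ℝ), F ≤ F' → FinExt F' → Place w →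
    ∀ φ : LFn F' w, LVirt φ → δ F w (lind F F' w φ) = δ F' w φ
  /-- they are invariant under conjugation -/
  conj : ∀ (F : Sub K) (w w' : AlgebraicClosure K → ℝ) (x : F.fixingSubgroup), FinExt F →
    Place w → (w' = fun z => w ((x : Gal(AlgebraicClosure K/K)) z)) →
    ∀ (φ : LFn F w) (φ' : LFn F w'), LVirt φ → LVirt φ' →
      (∀ (g : decF F w) (g' : decF F w'), (g : F.fixingSubgroup) = x * g' * x⁻¹ → φ' g' = φ g) →
      δ F w' φ' = δ F w φ
  /-- they depend only on the local Galois group and the local virtual character -/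
  loc : ∀ (F F' : Sub K) (w : AlgebraicClosure K → ℝ), FinExt F → FinExt F' → Place w →
    (∀ g : Gal(AlgebraicClosure K/K), Dec w g → (g ∈ F.fixingSubgroup ↔ g ∈ F'.fixingSubgroup)) →
    ∀ (φ : LFn F w) (φ' : LFn F' w), LVirt φ → LVirt φ' →
      (∀ (g : decF F w) (g' : decF F' w), (g : Gal(AlgebraicClosure K/K)) = g' → φ g = φ' g') →
      δ F w φ = δ F' w φ'
  /-- almost all local terms of a virtual character are zero -/
  finite : ∀ (F : Sub K) (c : Choice F) (f : Fn F), FinExt F → Virt f →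
    {v | δ F (c.pl v) (res (c.pl v) f) ≠ 0}.Finite
  /-- the function is the sum of its local terms -/
  sum : ∀ (F : Sub K) (c : Choice F) (f : Fn F), FinExt F → Char f →
    D F f = ∑ᶠ v, δ F (c.pl v) (res (c.pl v) f)

/-- local terms over `K` -/
structure LocalTerms {K : Type} [Field K] [NumberField K] {B : Type} [AddCommGroup B]
    (T : Set ℕ) (c : Choice (base K)) (δ : ∀ v, LFn (base K) (c.pl v) → B) : Prop where
  add : ∀ v (φ φ' : LFn (base K) (c.pl v)), LVirt φ → LVirt φ' →
    δ v (φ.plus φ') = δ v φ + δ v φ'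
  unramified : ∀ v (φ : LFn (base K) (c.pl v)), LVirt φ → LInV φ → δ v φ = 0
  above : ∀ v, v.above T → ∀ φ : LFn (base K) (c.pl v), LVirt φ → δ v φ = 0

/-- there is a unique system of local constants for `D` -/
def HasLocalConstants {K : Type} [Field K] [NumberField K] {B : Type} [AddCommGroup B]
    (T : Set ℕ) (D : ∀ F : Sub K, Fn F → B) : Prop :=
  (∃ δ : ∀ (F : Sub K) (w : AlgebraicClosure K → ℝ), LFn F w → B, LocalConstants T D δ) ∧
  ∀ δ δ' : ∀ (F : Sub K) (w : AlgebraicClosure K → ℝ), LFn F w → B,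
    LocalConstants T D δ → LocalConstants T D δ' → ∀ (F : Sub K) (w : AlgebraicClosure K → ℝ),
      FinExt F → Place w → ∀ φ : LFn F w, LVirt φ → δ F w φ = δ' F w φ

/-- a torsion-free divisible group -/
def TorsionFreeDivisible (B : Type) [AddCommGroup B] : Prop :=
  (∀ (n : ℕ) (b : B), 0 < n → ∃ c, n • c = b) ∧ ∀ (n : ℕ) (b : B), 0 < n → n • b = 0 → b = 0

/-- The formal properties of the numbers `A(χ)`, `χ` a character of `Gal(K̄/F)`, `F` a finite
extension of the number field `K`: additivity and invariance under induction. (Invariance under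
inflation is part of the notation.) -/
structure Formal {K : Type} [Field K] [NumberField K] (a : ∀ F : Sub K, Fn F → ℂˣ) : Prop where
  add : ∀ F : Sub K, FinExt F → ∀ χ χ' : Fn F, Char χ → Char χ' →
    a F (χ.add χ') = a F χ * a F χ'
  ind : ∀ F F' : Sub K, F ≤ F' → FinExt F' → ∀ χ : Fn F', Char χ → a F (ind F F' χ) = a F' χ

/-- the conjugate character `χ^σ` -/
def conj {K : Type} [Field K] [NumberField K] {F : Sub K} (σ : ℂ ≃+* ℂ) (χ : Fn F) : Fn F :=
  fun g => σ (χ g)

/-- Stark's equality up to roots of unity -/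
def StarkUpToRoots {K : Type} [Field K] [NumberField K] (a : ∀ F : Sub K, Fn F → ℂˣ)
    {F : Sub K} (χ : Fn F) (σ : ℂ ≃+* ℂ) : Prop :=
  ∃ m : ℕ, 0 < m ∧ σ (a F χ) ^ m = (a F (conj σ χ) : ℂ) ^ m

/-- the defect `A(χ)^σ / A(χ^σ)` -/
noncomputable def defect {K : Type} [Field K] [NumberField K]
    (a : ∀ F : Sub K, Fn F → ℂˣ) (σ : ℂ ≃+* ℂ) (F : Sub K) (χ : Fn F) : ℂˣ :=
  Units.map (σ : ℂ →* ℂ) (a F χ) / a F (conj σ χ)

/-- the algebraic numbers in `ℂ^*` -/
def algUnits : Subgroup ℂˣ where
  carrier := {u | IsAlgebraic ℚ (u : ℂ)}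
  one_mem' := isAlgebraic_one
  mul_mem' := fun {a b} ha hb => by
    change IsAlgebraic ℚ ((a * b : ℂˣ) : ℂ)
    rw [Units.val_mul]
    exact IsAlgebraic.mul ha hb
  inv_mem' := fun {a} ha => by
    change IsAlgebraic ℚ ((a⁻¹ : ℂˣ) : ℂ)
    rw [Units.val_inv_eq_inv_val]
    exact IsAlgebraic.inv ha

/-- the quotient of `ℂ^*` by a subgroup, written additively -/
abbrev Quot (H : Subgroup ℂˣ) : Type := Additive (ℂˣ ⧸ H)

/-- the class in the quotient -/
def cl (H : Subgroup ℂˣ) (z : ℂˣ) : Quot H := Additive.ofMul (QuotientGroup.mk z)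

/-- (1) **The local-global principle.** -/
def Principle (K : Type) [Field K] [NumberField K] : Prop :=
  ∀ (M : ℕ) (T : Set ℕ) (F : Sub K) (f : Fn F), 0 < M → FinExt F → Virt f →
    List.TFAE [InV T f, InVM M T f, ∀ w, Outside T w → LInV (res w f), Loc T f]

/-- (2) Linear characters, representations with inertia groups of exponent two, virtual characters
which are unramified or have rational values on each decomposition group outside `T` -/
def Examples (K : Type) [Field K] [NumberField K] : Prop :=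
  ∀ (T : Set ℕ) (F : Sub K), FinExt F →
    (∀ ψ : F.fixingSubgroup →* ℂˣ, Smooth F ψ →
      (InV T (Lin.fn ψ) ↔ UnrAt T F (ψ ^ 2))) ∧
    (∀ (n : ℕ) (τ : F.fixingSubgroup →* GL (Fin n) ℂ), Smooth F τ →
      (∀ w : AlgebraicClosure K → ℝ, Outside T w →
        ∀ g : F.fixingSubgroup, Ine w (g : Gal(AlgebraicClosure K/K)) → τ g ^ 2 = 1) →
      InV T (F := F) (fun g => (τ g : Matrix (Fin n) (Fin n) ℂ).trace)) ∧
    ∀ f : Fn F, Virt f → (∀ w : AlgebraicClosure K → ℝ, Outside T w →
      (∀ g t : F.fixingSubgroup, Dec w (g : Gal(AlgebraicClosure K/K)) →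
        Ine w (t : Gal(AlgebraicClosure K/K)) → f (g * t) = f g) ∨
      ∀ g : F.fixingSubgroup, Dec w (g : Gal(AlgebraicClosure K/K)) → ∃ q : ℚ, f g = q) →
      InV T f

/-- (3) **The isomorphism** of the rational character ring modulo `V` with the direct sum of the
local quotients, one for each prime: existence of places, finiteness, injectivity, surjectivity; and
approximation of local virtual characters of the same degree by global ones -/
def Isomorphism (K : Type) [Field K] [NumberField K] : Prop :=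
  ∀ (T : Set ℕ) (F : Sub K), FinExt F → Nonempty (Choice F) ∧ ∀ c : Choice F,
    (∀ f : Fn F, Virt f → {v | ¬ LInV (res (c.pl v) f)}.Finite) ∧
    (∀ f : Fn F, Virt f → (InV T f ↔ ∀ v : Prm F, ¬ v.above T → LInV (res (c.pl v) f))) ∧
    (∀ (S : Finset (Prm F)) (φ : ∀ v, LFn F (c.pl v)), (∀ v ∈ S, LVirt (φ v)) →
      ∃ m : ℕ, 0 < m ∧ ∃ f : Fn F, Virt f ∧
        (∀ v ∈ S, LInV ((res (c.pl v) f).minus ((φ v).times m))) ∧
        ∀ v, v ∉ S → LInV (res (c.pl v) f)) ∧
    (∀ (S : Finset (Prm F)) (φ : ∀ v, LFn F (c.pl v)) (d : ℂ),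
      (∀ v ∈ S, LVirt (φ v) ∧ φ v 1 = d) → ∃ m : ℕ, 0 < m ∧ ∃ f : Fn F, Virt f ∧
        ∀ v ∈ S, res (c.pl v) f = (φ v).times m)

/-- (4) **Local constants** of the additive inductive functions with values in a torsion-free
divisible group which vanish at trivial and at class group characters; all local terms over `K`
occur -/
def Constants (K : Type) [Field K] [NumberField K] : Prop :=
  ∀ (B : Type) [AddCommGroup B], TorsionFreeDivisible B → ∀ T : Set ℕ,
    (∀ (D : ∀ F : Sub K, Fn F → B) (M : ℕ), AddInd D → 0 < M →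
      (∀ F : Sub K, FinExt F → ∀ ψ : Lin F, ψ.cls M T → D F ψ.fn = 0) →
      (∀ F : Sub K, FinExt F → ∀ χ χ' : Fn F, Char χ → Char χ' → Loc T (χ.sub χ') →
        D F χ = D F χ') ∧ HasLocalConstants T D) ∧
    ∀ (c : Choice (base K)) (δ : ∀ v, LFn (base K) (c.pl v) → B), LocalTerms T c δ →
      ∃ D : ∀ F : Sub K, Fn F → B, AddInd D ∧
        (∀ F : Sub K, FinExt F → ∀ ψ : Lin F, ψ.unr T → D F ψ.fn = 0) ∧
        ∀ f : Fn (base K), Char f → D (base K) f = ∑ᶠ v, δ v (res (c.pl v) f)

/-- (5) **Stark's conjecture up to roots of unity**, granted for trivial and for class group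
characters -/
def Stark (K : Type) [Field K] [NumberField K] : Prop :=
  ∀ a : ∀ F : Sub K, Fn F → ℂˣ, Formal a → ∀ (σ : ℂ ≃+* ℂ) (M : ℕ) (T : Set ℕ), 0 < M →
    (∀ F : Sub K, FinExt F → ∀ ψ : Lin F, ψ.cls M T → StarkUpToRoots a ψ.fn σ) →
    (∀ F : Sub K, FinExt F → ∀ χ : Fn F, Char χ → InV T χ → StarkUpToRoots a χ σ) ∧
    HasLocalConstants T fun F χ => cl (CommGroup.torsion ℂˣ) (defect a σ F χ)

/-- (6) **Optimality**: Stark's conjecture up to roots of unity is not a formal consequence of its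
case of the linear characters unramified outside `T`, for any character over `K` outside `V`. -/
def Optimality (K : Type) [Field K] [NumberField K] : Prop :=
  ∀ (T : Set ℕ) (χ : Fn (base K)), Char χ → ¬ InV T χ →
    ∃ a : ∀ F : Sub K, Fn F → ℂˣ, Formal a ∧
      (∀ (σ : ℂ ≃+* ℂ) (F : Sub K), FinExt F → ∀ ψ : Lin F, ψ.unr T →
        StarkUpToRoots a ψ.fn σ) ∧
      ¬ StarkUpToRoots a χ Complex.conjAe.toRingEquiv

/-- (7) **Algebraicity** of the numbers `A(χ)`, granted for trivial and for class group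
characters -/
def Algebraicity (K : Type) [Field K] [NumberField K] : Prop :=
  ∀ a : ∀ F : Sub K, Fn F → ℂˣ, Formal a → ∀ (M : ℕ) (T : Set ℕ), 0 < M →
    (∀ F : Sub K, FinExt F → ∀ ψ : Lin F, ψ.cls M T → IsAlgebraic ℚ (a F ψ.fn : ℂ)) →
    (∀ F : Sub K, FinExt F → ∀ χ : Fn F, Char χ → InV T χ → IsAlgebraic ℚ (a F χ : ℂ)) ∧
    HasLocalConstants T fun F χ => cl algUnits (a F χ)

section
variable {K : Type} [Field K] [NumberField K]

theorem conj_character {F : Sub K} {χ : Fn F} (h : Char χ) (σ : ℂ ≃+* ℂ) : Char (conj σ χ) := by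
  obtain ⟨n, τ, ⟨E, hE, hs⟩, hτ⟩ := h
  refine ⟨n, (Matrix.GeneralLinearGroup.map (σ : ℂ →+* ℂ)).comp τ, ⟨E, hE, fun g hg => ?_⟩,
    fun g => ?_⟩
  · rw [MonoidHom.comp_apply, hs g hg, map_one]
  · change σ (χ g) = _
    rw [hτ]
    change σ (τ g : Matrix (Fin n) (Fin n) ℂ).trace =
      ((τ g : Matrix (Fin n) (Fin n) ℂ).map (σ : ℂ →+* ℂ)).trace
    simp [Matrix.trace]

theorem conj_induced (F F' : Sub K) (hfd : FinExt F') (χ : Fn F') (σ : ℂ ≃+* ℂ) :
    conj σ (ind F F' χ) = ind F F' (conj σ χ) := by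
  have hfd : FiniteDimensional K F' := hfd
  have hfin : Finite (F.fixingSubgroup ⧸ F'.fixingSubgroup.subgroupOf F.fixingSubgroup) :=
    Pool.Agent.Q246.BI.nn_finite F F'
  have : Fintype (F.fixingSubgroup ⧸ F'.fixingSubgroup.subgroupOf F.fixingSubgroup) :=
    Fintype.ofFinite _
  funext g
  change σ (induced F F' χ g) = induced F F' (fun g => σ (χ g)) g
  unfold induced
  rw [finsum_eq_sum_of_fintype, finsum_eq_sum_of_fintype, map_sum]
  refine Finset.sum_congr rfl fun x _ => ?_
  split_ifs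
  · rfl
  · exact map_zero σ

theorem defect_add {a : ∀ F : Sub K, Fn F → ℂˣ} (ha : Formal a) (σ : ℂ ≃+* ℂ) (F : Sub K)
    (hF : FinExt F) (χ χ' : Fn F) (h : Char χ) (h' : Char χ') :
    defect a σ F (χ.add χ') = defect a σ F χ * defect a σ F χ' := by
  have h1 : conj σ (χ.add χ') = (conj σ χ).add (conj σ χ') := by
    funext g
    exact map_add σ _ _
  unfold defect
  rw [h1, ha.add F hF _ _ h h', ha.add F hF _ _ (conj_character h σ) (conj_character h' σ),
    map_mul, mul_div_mul_comm]

theorem defect_ind {a : ∀ F : Sub K, Fn F → ℂˣ} (ha : Formal a) (σ : ℂ ≃+* ℂ) (F F' : Sub K)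
    (hle : F ≤ F') (hF' : FinExt F') (χ : Fn F') (h : Char χ) :
    defect a σ F (ind F F' χ) = defect a σ F' χ := by
  unfold defect
  rw [conj_induced F F' hF', ha.ind F F' hle hF' χ h, ha.ind F F' hle hF' _ (conj_character h σ)]

theorem cl_mul (H : Subgroup ℂˣ) (y z : ℂˣ) : cl H (y * z) = cl H y + cl H z := by
  unfold cl
  rw [QuotientGroup.mk_mul, ofMul_mul]

theorem cl_zero (H : Subgroup ℂˣ) (z : ℂˣ) : cl H z = 0 ↔ z ∈ H := by
  unfold cl
  rw [ofMul_eq_zero, QuotientGroup.eq_one_iff]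

theorem cl_surj (H : Subgroup ℂˣ) (b : Quot H) : ∃ z, cl H z = b := by
  obtain ⟨z, hz⟩ := QuotientGroup.mk_surjective (Additive.toMul b)
  exact ⟨z, by unfold cl; rw [hz, ofMul_toMul]⟩

theorem cl_pow (H : Subgroup ℂˣ) (z : ℂˣ) (n : ℕ) : cl H (z ^ n) = n • cl H z := by
  unfold cl
  rw [QuotientGroup.mk_pow, ofMul_pow]

theorem quot_tfd (H : Subgroup ℂˣ) (hH : ∀ (z : ℂˣ) (m : ℕ), 0 < m → z ^ m ∈ H → z ∈ H) :
    TorsionFreeDivisible (Quot H) := by
  refine ⟨fun n b hn => ?_, fun m b hm h => ?_⟩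
  · obtain ⟨z, rfl⟩ := cl_surj H b
    obtain ⟨y, hy⟩ := IsAlgClosed.exists_pow_nat_eq (z : ℂ) hn
    have hy0 : y ≠ 0 := by
      rintro rfl
      rw [zero_pow hn.ne'] at hy
      exact z.ne_zero hy.symm
    refine ⟨cl H (Units.mk0 y hy0), ?_⟩
    rw [← cl_pow]
    congr 1
    apply Units.ext
    rw [Units.val_pow_eq_pow_val, Units.val_mk0, hy]
  · obtain ⟨z, rfl⟩ := cl_surj H b
    rw [← cl_pow, cl_zero] at h
    rw [cl_zero]
    exact hH z m hm h

theorem tor_pow (z : ℂˣ) (m : ℕ) (hm : 0 < m) (h : z ^ m ∈ CommGroup.torsion ℂˣ) :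
    z ∈ CommGroup.torsion ℂˣ := by
  change IsOfFinOrder (z ^ m) at h
  change IsOfFinOrder z
  exact h.of_pow hm.ne'

theorem alg_pow (z : ℂˣ) (m : ℕ) (hm : 0 < m) (h : z ^ m ∈ algUnits) : z ∈ algUnits := by
  change IsAlgebraic ℚ ((z ^ m : ℂˣ) : ℂ) at h
  rw [Units.val_pow_eq_pow_val] at h
  exact h.of_pow hm

theorem stark_iff {a : ∀ F : Sub K, Fn F → ℂˣ} (σ : ℂ ≃+* ℂ) (F : Sub K) (χ : Fn F) :
    cl (CommGroup.torsion ℂˣ) (defect a σ F χ) = 0 ↔ StarkUpToRoots a χ σ := by
  rw [cl_zero]
  change IsOfFinOrder (defect a σ F χ) ↔ _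
  rw [isOfFinOrder_iff_pow_eq_one]
  unfold defect StarkUpToRoots
  refine exists_congr fun m => and_congr_right fun _ => ?_
  rw [div_pow, div_eq_one, Units.ext_iff]
  rfl

theorem inV_iff {T : Set ℕ} {F : Sub K} (hF : FinExt F) {f : Fn F} (hf : Virt f) :
    InV T f ↔ Loc T f := by
  have : FiniteDimensional K F := hF
  exact (Pool.Agent.Q20.LG.global_criterion Nat.one_pos T F hf).1.trans
    (Pool.Agent.Q20.LG.locCond_iff T F f).symm

theorem principle : Principle K := by
  intro M T F f hM hF hf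
  have : FiniteDimensional K F := hF
  obtain ⟨h1, h2⟩ := Pool.Agent.Q20.LG.global_criterion hM T F hf
  have h3 := Pool.Agent.Q20.LG.local_global hM T F hf
  have h4 := Pool.Agent.Q20.LG.locCond_iff T F f
  tfae_have 1 ↔ 4 := h1.trans h4.symm
  tfae_have 2 ↔ 4 := h2.trans h4.symm
  tfae_have 2 ↔ 3 := h3.trans ⟨fun h w ⟨p, hp, hpT, hw⟩ => h p hp hpT w hw,
    fun h p hp hpT w hw => h w ⟨p, hp, hpT, hw⟩⟩
  tfae_finish

theorem lin_char {F : Sub K} (ψ : F.fixingSubgroup →* ℂˣ) (hψ : Smooth F ψ) :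
    Char (Lin.fn ψ) := by
  refine ⟨1, (Units.map (Matrix.scalar (Fin 1) (α := ℂ)).toMonoidHom).comp ψ, ?_, fun g => ?_⟩
  · obtain ⟨E', hE', hEψ⟩ := hψ
    exact ⟨E', hE', fun g hg => by rw [MonoidHom.comp_apply, hEψ g hg, map_one]⟩
  · change ((ψ g : ℂˣ) : ℂ) = (Matrix.scalar (Fin 1) ((ψ g : ℂˣ) : ℂ)).trace
    simp [Matrix.trace]

theorem char_virt {F : Sub K} (hF : FinExt F) {χ : Fn F} (h : Char χ) : Virt χ := by
  have : FiniteDimensional K F := hF
  exact AddSubgroup.subset_closure ((Pool.Agent.Q20.LG.isChar_iff F χ).1 h)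

theorem examples : Examples K := by
  intro T F hF
  have : FiniteDimensional K F := hF
  refine ⟨fun ψ hψ => ?_, fun n τ hτ h => ?_, fun f hf h => ?_⟩
  · refine (inV_iff hF (char_virt hF (lin_char ψ hψ))).trans
      ((Pool.Agent.Q20.LG.locCond_iff T F _).trans (Pool.Agent.Q20.LG.lin_iff T F ψ hψ))
  · obtain ⟨E, hE, hEτ⟩ := hτ
    refine (inV_iff hF (char_virt hF ⟨n, τ, ⟨E, hE, hEτ⟩, fun g => rfl⟩)).2
      ((Pool.Agent.Q20.LG.locCond_iff T F _).2 ?_)
    exact Pool.Agent.Q20.LG.cond_exp_two T F τ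
      (U := E.fixingSubgroup.subgroupOf F.fixingSubgroup) (Pool.Agent.Q20.LG.isOpen_sub F E)
      (fun g hg => hEτ g hg) (fun p hp hpT w hw => h w ⟨p, hp, hpT, hw⟩)
  · exact (inV_iff hF hf).2 ((Pool.Agent.Q20.LG.locCond_iff T F _).2
      (Pool.Agent.Q20.LG.cond_rat T F hf fun p hp hpT w hw => h w ⟨p, hp, hpT, hw⟩))

theorem isomorphism : Isomorphism K := by
  intro T F hF
  have : FiniteDimensional K F := hF
  refine ⟨?_, ?_⟩
  · choose w hw using fun v => Pool.Agent.Q20.LG.exists_place F v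
    exact ⟨⟨w, hw⟩⟩
  · rintro ⟨w, hw⟩
    refine ⟨fun f hf => ?_, fun f hf => ?_, fun S φ hφ => ?_, fun S φ d hφ => ?_⟩
    · obtain ⟨T₁, hT₁, h1⟩ := Pool.Agent.Q20.LG.cond_unram F hf
      refine (Pool.Agent.Q20.LG.finite_above F T₁ hT₁).subset fun v hv => ?_
      by_contra hcon
      apply hv
      obtain ⟨⟨q, hq, hqw⟩, -⟩ := hw v
      have hqT : q ∉ T₁ := fun h => hcon ⟨q, h, (Pool.Agent.Q20.LG.above_prime (hw v) hq).2 hqw⟩
      exact (Pool.Agent.Q20.LG.local_criterion F hq hqw
        (Pool.Agent.Q20.LG.rchar_res (decF F (w v)) hf)).2 (h1 q hq hqT (w v) hqw)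
    · exact (Pool.Agent.Q20.LG.global_criterion Nat.one_pos T F hf).1.trans
        (Pool.Agent.Q20.LG.chosen_iff T F hw hf)
    · exact Pool.Agent.Q20.LG.surjective F hw S φ hφ
    · obtain ⟨m, hm, f, hf, h1⟩ := Pool.Agent.Q20.LG.approx (ι := {v // v ∈ S})
        (fun v => decF F (w v.1))
        (fun v => (Pool.Agent.Q20.LG.isClosed_dec (w v.1)).preimage continuous_subtype_val)
        (fun i j x a b ha hb hab ha1 => by
          obtain ⟨h1, h2⟩ := Pool.Agent.Q20.LG.dec_indep F hw i.1 j.1 x a b ha hb hab ha1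
          exact ⟨Subtype.ext h1, h2⟩) (fun v => φ v.1) (fun v => (hφ v.1 v.2).1) d
        (fun v => (hφ v.1 v.2).2)
      exact ⟨m, hm, f, hf, fun v hv => funext fun g => h1 ⟨v, hv⟩ g⟩

variable {B : Type} [AddCommGroup B]

theorem AddInd.add' {D : ∀ F : Sub K, Fn F → B} (h : AddInd D) (F : Sub K)
    (hF : FiniteDimensional K F) (χ χ' : F.fixingSubgroup → ℂ) (h1 : IsCharacter F χ)
    (h2 : IsCharacter F χ') : D F (χ + χ') = D F χ + D F χ' := h.add F hF χ χ' h1 h2

theorem AddInd.ind' {D : ∀ F : Sub K, Fn F → B} (h : AddInd D) (F F' : Sub K) (hle : F ≤ F')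
    (hF' : FiniteDimensional K F') (χ : F'.fixingSubgroup → ℂ) (h1 : IsCharacter F' χ) :
    D F (induced F F' χ) = D F' χ := h.ind F F' hle hF' χ h1

/-- bundled form of the local constants -/
theorem bundle {T : Set ℕ} {D : ∀ F : Sub K, Fn F → B}
    {δ : ∀ (F : Sub K) (w : AlgebraicClosure K → ℝ), LFn F w → B} (h : LocalConstants T D δ) :
    ∀ (F : Sub K) (w : AlgebraicClosure K → ℝ), FinExt F → Place w →
      ∃ d : RChar (decF F w) →+ B, ∀ φ : RChar (decF F w), d φ = δ F w (φ : decF F w → ℂ) :=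
  fun F w hF hw => ⟨AddMonoidHom.mk' (fun φ => δ F w (φ : decF F w → ℂ))
    fun a b => h.add F w hF hw a.1 b.1 a.2 b.2, fun _ => rfl⟩

theorem unique {T : Set ℕ} {D : ∀ F : Sub K, Fn F → B} (htfd : TorsionFreeDivisible B)
    {δ δ' : ∀ (F : Sub K) (w : AlgebraicClosure K → ℝ), LFn F w → B}
    (h : LocalConstants T D δ) (h' : LocalConstants T D δ') (F : Sub K)
    (w : AlgebraicClosure K → ℝ) (hF : FinExt F) (hw : Place w) (φ : LFn F w) (hφ : LVirt φ) :
    δ F w φ = δ' F w φ := by
  have hFd : FiniteDimensional K F := hF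
  obtain ⟨p, hp, hpw⟩ := hw
  obtain ⟨v₀, hv₀, -⟩ := Pool.Agent.Q20.LG.exists_above F hp hpw
  obtain ⟨w', hw', rfl⟩ := Pool.Agent.Q20.LG.exists_family F hv₀
  have hpl : ∀ v, Place (w' v) := fun v => (hw' v).1
  choose d hd using fun v => bundle h F (w' v) hF (hpl v)
  choose d' hd' using fun v => bundle h' F (w' v) hF (hpl v)
  have hkill : ∀ (v) (y : RChar (decF F (w' v))),
      (y : decF F (w' v) → ℂ) ∈ AddSubgroup.closure (Unr (ineF F (w' v))) →
        LInV (F := F) (w := w' v) (y : decF F (w' v) → ℂ) := fun v y hy =>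
    ⟨1, Nat.one_pos, by rwa [one_nsmul]⟩
  have h1 := Pool.Agent.Q20.LG.unique_zeroR htfd.2 F hw' (fun v => d v - d' v)
    (fun v y hy => by
      rw [AddMonoidHom.sub_apply, hd, hd', h.unramified F _ hF (hpl v) _ y.2 (hkill v y hy),
        h'.unramified F _ hF (hpl v) _ y.2 (hkill v y hy), sub_zero])
    (fun f hf => by
      have h4 : (fun v => (d v - d' v) (Pool.Agent.Q20.LG.resR F (w' v) f)) =
          fun v => δ F (w' v) (res (w' v) (f : F.fixingSubgroup → ℂ)) -
            δ' F (w' v) (res (w' v) (f : F.fixingSubgroup → ℂ)) := by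
        funext v
        rw [AddMonoidHom.sub_apply, hd, hd']
        rfl
      have h7 := h.finite F ⟨w', hw'⟩ f.1 hF f.2
      have h8 := h'.finite F ⟨w', hw'⟩ f.1 hF f.2
      have h9 : (∑ᶠ v, (δ F (w' v) (res (w' v) (f : F.fixingSubgroup → ℂ)) -
          δ' F (w' v) (res (w' v) (f : F.fixingSubgroup → ℂ)))) =
          (∑ᶠ v, δ F (w' v) (res (w' v) (f : F.fixingSubgroup → ℂ))) -
          ∑ᶠ v, δ' F (w' v) (res (w' v) (f : F.fixingSubgroup → ℂ)) := finsum_sub_distrib h7 h8
      rw [h4]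
      refine h9.trans ?_
      have h5 := h.sum F ⟨w', hw'⟩ f.1 hF hf
      have h6 := h'.sum F ⟨w', hw'⟩ f.1 hF hf
      rw [sub_eq_zero]
      exact h5.symm.trans h6) v₀ ⟨φ, hφ⟩
  rw [AddMonoidHom.sub_apply, hd, hd', sub_eq_zero] at h1
  exact h1

theorem not_outside {T : Set ℕ} {w : AlgebraicClosure K → ℝ} (hw : Place w) (h : ¬ Outside T w) :
    ∃ p : ℕ, p.Prime ∧ p ∈ T ∧ IsPl p w := by
  obtain ⟨p, hp, hpw⟩ := hw
  refine ⟨p, hp, ?_, hpw⟩
  by_contra hpT
  exact h ⟨p, hp, hpT, hpw⟩

theorem lind_eq (F F' : Sub K) (w : AlgebraicClosure K → ℝ) (φ : LFn F' w) :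
    lind F F' w φ = Pool.Agent.Q20.LG.inducedDec F F' w φ := by
  unfold lind Pool.Agent.Q20.LG.inducedDec
  congr 1
  funext h
  have e : ∃ g : decF F' w, g.1.1 = h.1.1.1 := ⟨Pool.Agent.Q20.LG.toD F F' w h, rfl⟩
  unfold LFn.zext
  rw [dif_pos e]
  congr 1
  exact Subtype.ext (Subtype.ext e.choose_spec)

theorem fin_base : FinExt (base K) := inferInstanceAs (FiniteDimensional K (⊥ : Sub K))

theorem existence {T : Set ℕ} {D : ∀ F : Sub K, Fn F → B} (htfd : TorsionFreeDivisible B)
    (hex : ∃ d : ∀ (F : Sub K) (w : AlgebraicClosure K → ℝ), RChar (decF F w) →+ B,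
      Pool.Agent.Q20.LG.LocalConstants T D d) :
    ∃ δ : ∀ (F : Sub K) (w : AlgebraicClosure K → ℝ), LFn F w → B, LocalConstants T D δ := by
  obtain ⟨d, h⟩ := hex
  let δ : ∀ (F : Sub K) (w : AlgebraicClosure K → ℝ), LFn F w → B := fun F w φ =>
    if hφ : LVirt φ then d F w ⟨φ, hφ⟩ else 0
  have hδ : ∀ (F : Sub K) (w : AlgebraicClosure K → ℝ) (φ : LFn F w) (hφ : LVirt φ),
      δ F w φ = d F w ⟨φ, hφ⟩ := fun F w φ hφ => dif_pos hφ
  have hres : ∀ (F : Sub K) (w : AlgebraicClosure K → ℝ) (f : Fn F), Virt f →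
      LVirt (res w f) := fun F w f hf => Pool.Agent.Q20.LG.rchar_res (decF F w) hf
  refine ⟨δ, ?_, ?_, ?_, ?_, ?_, ?_, ?_, ?_⟩
  · intro F w hF hw φ φ' hφ hφ'
    have h1 : LVirt (φ.plus φ') :=
      (RChar (decF F w)).add_mem hφ hφ'
    rw [hδ F w _ h1, hδ F w _ hφ, hδ F w _ hφ', ← map_add]
    rfl
  · intro F w hF hw φ hφ hv
    obtain ⟨p, hp, hpw⟩ := hw
    rw [hδ F w _ hφ]
    exact Pool.Agent.Q20.LG.kill_satR htfd.2 (d F w)
      (fun y hy => h.unramified F hF p hp w hpw y hy) hv
  · intro F w hF hw hT φ hφ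
    obtain ⟨p, hp, hpT, hpw⟩ := not_outside hw hT
    rw [hδ F w _ hφ, h.above F hF p hp hpT w hpw]
    rfl
  · intro F F' w hle hF' hw φ hφ
    obtain ⟨p, hp, hpw⟩ := hw
    have h1 := h.ind F F' hle hF' p hp w hpw ⟨φ, hφ⟩
    rw [hδ F' w _ hφ, ← h1, lind_eq]
    exact hδ F w _ (Pool.Agent.Q20.LG.indD F F' hF' w ⟨φ, hφ⟩).2
  · intro F w w' x hF hw hw' φ φ' hφ hφ' hconj
    subst hw'
    obtain ⟨p, hp, hpw⟩ := hw
    have h1 := h.conj F hF p hp w hpw x ⟨φ, hφ⟩
    rw [hδ F w _ hφ, hδ F _ _ hφ', ← h1]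
    congr 1
    apply Subtype.ext
    funext g'
    exact hconj (Pool.Agent.Q20.LG.conjD F w x g') g' rfl
  · intro F F' w hF hF' hw hg φ φ' hφ hφ' hs
    obtain ⟨p, hp, hpw⟩ := hw
    rw [hδ F w _ hφ, hδ F' w _ hφ']
    exact h.local hF hF' hp hpw hg _ _ fun g hd h1 h2 => hs ⟨⟨g, h1⟩, hd⟩ ⟨⟨g, h2⟩, hd⟩ rfl
  · intro F c f hF hf
    have h1 := h.finite F hF c.pl c.above ⟨f, hf⟩
    refine h1.subset fun v hv => ?_
    change δ F (c.pl v) (res (c.pl v) f) ≠ 0 at hv
    rw [hδ F _ _ (hres F _ f hf)] at hv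
    exact hv
  · intro F c f hF hf
    have hf' := char_virt hF hf
    have h1 := h.sum F hF c.pl c.above ⟨f, hf'⟩ hf
    refine h1.trans (finsum_congr fun v => ?_)
    rw [hδ F _ _ (hres F _ f hf')]
    rfl

theorem cls_hyp {D : ∀ F : Sub K, Fn F → B} {M : ℕ} {T : Set ℕ}
    (hD : ∀ F : Sub K, FinExt F → ∀ ψ : Lin F, ψ.cls M T → D F ψ.fn = 0) :
    (∀ F : Sub K, FiniteDimensional K F → D F (fun _ => 1) = 0) ∧
    ∀ F : Sub K, FiniteDimensional K F → IsEmpty (F →+* ℝ) → M ∣ Module.finrank K F →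
      ∀ ψ : F.fixingSubgroup →* ℂˣ, Smooth F ψ → UnrAt T F ψ →
        D F (fun g => ((ψ g : ℂˣ) : ℂ)) = 0 := by
  constructor
  · intro F hF
    have h1 : Lin.fn (1 : F.fixingSubgroup →* ℂˣ) = fun _ => (1 : ℂ) := rfl
    have h2 := hD F hF (1 : F.fixingSubgroup →* ℂˣ) (Or.inr h1)
    exact h2
  · exact fun F hF he hM ψ hs hu => hD F hF ψ (Or.inl ⟨he, hM, hs, hu⟩)

theorem constants : Constants K := by
  intro B _ htfd T
  refine ⟨fun D M hDD hM hD => ?_, fun c δ hδ => ?_⟩
  · obtain ⟨hD1, hD2⟩ := cls_hyp hD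
    refine ⟨fun F hF χ χ' hχ hχ' hc => ?_, existence htfd
      (Pool.Agent.Q20.LG.exists_constants D hDD.add' hDD.ind' htfd.1 htfd.2 hD1 hM T hD2),
      fun δ δ' h h' F w hF hw φ hφ => unique htfd h h' F w hF hw φ hφ⟩
    have : FiniteDimensional K F := hF
    choose w hw using fun v => Pool.Agent.Q20.LG.exists_place F v
    obtain ⟨δ, hδ, -⟩ := Pool.Agent.Q20.LG.local_terms D hDD.add' hDD.ind' htfd.1 htfd.2 hD1 hM T
      hD2 F w hw
    exact hδ.eq_of_cond htfd.2 hw hχ hχ' ((Pool.Agent.Q20.LG.locCond_iff T F _).1 hc)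
  · let d : ∀ v, RChar (decF (base K) (c.pl v)) →+ B := fun v =>
      AddMonoidHom.mk' (fun φ => δ v (φ : decF (base K) (c.pl v) → ℂ))
        fun a b => hδ.add v a.1 b.1 a.2 b.2
    obtain ⟨D, ha, hi, hz, hl⟩ := Pool.Agent.Q20.LG.converse htfd.2 T c.pl c.above d
      (fun v y hy => hδ.unramified v _ y.2 ⟨1, Nat.one_pos, by rwa [one_nsmul]⟩)
      (fun v hv => AddMonoidHom.ext fun y => hδ.above v hv _ y.2)
    refine ⟨D, ⟨fun F hF χ χ' h h' => ha F hF χ χ' h h', fun F F' hle hF' χ h =>
      hi F F' hle hF' χ h⟩, fun F hF ψ hψ => hz F hF ψ hψ.1 hψ.2, fun f hf => ?_⟩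
    exact hl.sum ⟨f, char_virt fin_base hf⟩ hf

theorem zero_character (F : Sub K) : Char (fun _ => 0 : Fn F) :=
  ⟨0, 1, ⟨⊥, inferInstance, fun _ _ => rfl⟩, fun g => by simp⟩

theorem zero_of_add {D : ∀ F : Sub K, Fn F → B} (hD : AddInd D) (F : Sub K) (hF : FinExt F) :
    D F (fun _ => 0) = 0 := by
  have h1 := hD.add F hF _ _ (zero_character F) (zero_character F)
  have h2 : Fn.add (fun _ => 0 : Fn F) (fun _ => 0) = fun _ => (0 : ℂ) := by
    funext g
    exact add_zero _
  rw [h2] at h1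
  exact left_eq_add.1 h1

theorem stark : Stark K := by
  intro a ha σ M T hM hS
  have hD : AddInd (K := K) fun F χ => cl (CommGroup.torsion ℂˣ) (defect a σ F χ) :=
    ⟨fun F hF χ χ' h h' => by rw [defect_add ha σ F hF χ χ' h h', cl_mul],
      fun F F' hle hF' χ h => by rw [defect_ind ha σ F F' hle hF' χ h]⟩
  obtain ⟨h3, h4⟩ := (constants (K := K) (Quot (CommGroup.torsion ℂˣ)) (quot_tfd _ tor_pow) T).1
    _ M hD hM (fun F hF ψ hψ => (stark_iff σ F _).2 (hS F hF ψ hψ))
  refine ⟨fun F hF χ hχ hc => ?_, h4⟩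
  have h5 : Loc T (χ.sub fun _ => 0) := by
    have h6 : (χ.sub fun _ => 0) = χ := funext fun g => sub_zero _
    rw [h6]
    exact (inV_iff hF (char_virt hF hχ)).1 hc
  rw [← stark_iff, h3 F hF χ _ hχ (zero_character F) h5]
  exact zero_of_add hD F hF

theorem algebraicity : Algebraicity K := by
  intro a ha M T hM hS
  have hD : AddInd (K := K) fun F χ => cl algUnits (a F χ) :=
    ⟨fun F hF χ χ' h h' => by rw [ha.add F hF χ χ' h h', cl_mul],
      fun F F' hle hF' χ h => by rw [ha.ind F F' hle hF' χ h]⟩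
  obtain ⟨h3, h4⟩ := (constants (K := K) (Quot algUnits) (quot_tfd _ alg_pow) T).1
    _ M hD hM (fun F hF ψ hψ => (cl_zero _ _).2 (hS F hF ψ hψ))
  refine ⟨fun F hF χ hχ hc => ?_, h4⟩
  have h5 : Loc T (χ.sub fun _ => 0) := by
    have h6 : (χ.sub fun _ => 0) = χ := funext fun g => sub_zero _
    rw [h6]
    exact (inV_iff hF (char_virt hF hχ)).1 hc
  have h7 : cl algUnits (a F χ) = 0 := by
    rw [h3 F hF χ _ hχ (zero_character F) h5]
    exact zero_of_add hD F hF
  exact (cl_zero _ _).1 h7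

/-- a one-parameter group on which complex conjugation acts without fixed points up to roots of
unity -/
noncomputable def par (q : ℚ) : ℂˣ :=
  Units.mk0 (Complex.exp ((q : ℂ) * (1 + Complex.I))) (Complex.exp_ne_zero _)

theorem par_add (q q' : ℚ) : par (q + q') = par q * par q' := by
  apply Units.ext
  change Complex.exp _ = Complex.exp _ * Complex.exp _
  rw [← Complex.exp_add]
  congr 1
  push_cast
  ring

theorem par_zero : par 0 = 1 := by
  apply Units.ext
  change Complex.exp _ = 1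
  rw [Rat.cast_zero, zero_mul, Complex.exp_zero]

theorem par_key {q q' : ℚ} (hq : q ≠ 0) {m : ℕ} (hm : 0 < m)
    (h : (Complex.conjAe.toRingEquiv ((par q : ℂˣ) : ℂ)) ^ m = ((par q' : ℂˣ) : ℂ) ^ m) :
    False := by
  have h1 : Complex.conjAe.toRingEquiv ((par q : ℂˣ) : ℂ) =
      Complex.exp ((q : ℂ) * (1 - Complex.I)) := by
    change (starRingEnd ℂ) (Complex.exp ((q : ℂ) * (1 + Complex.I))) = _
    rw [← Complex.exp_conj]
    congr 1
    rw [map_mul, map_add, map_one, Complex.conj_I]
    have h2 : (starRingEnd ℂ) (q : ℂ) = q := by simp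
    rw [h2]
    ring
  have h2 : ((par q' : ℂˣ) : ℂ) = Complex.exp ((q' : ℂ) * (1 + Complex.I)) := rfl
  rw [h1, h2, ← Complex.exp_nat_mul, ← Complex.exp_nat_mul,
    Complex.exp_eq_exp_iff_exists_int] at h
  obtain ⟨n, hn⟩ := h
  have hre := congrArg Complex.re hn
  have him := congrArg Complex.im hn
  simp at hre him
  have hm' : (m : ℝ) ≠ 0 := by exact_mod_cast hm.ne'
  have hq' : (q : ℝ) ≠ 0 := by exact_mod_cast hq
  have e1 : q = q' := by
    rcases hre with h | h
    · exact_mod_cast h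
    · exact absurd h hm.ne'
  rw [← e1] at him
  have hn0 : (n : ℝ) ≠ 0 := by
    intro h0
    rw [h0, zero_mul, add_zero] at him
    have : (m : ℝ) * q = 0 := by linarith
    rcases mul_eq_zero.1 this with h | h
    · exact hm' h
    · exact hq' h
  have e2 : Real.pi = (((-(m : ℚ) * q / n) : ℚ) : ℝ) := by
    push_cast
    field_simp
    linarith
  exact irrational_pi ⟨_, e2.symm⟩

theorem optimality : Optimality K := by
  intro T χ hχ hc
  have hbot : FinExt (base K) := fin_base
  rw [inV_iff hbot (char_virt hbot hχ)] at hc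
  obtain ⟨D, ha, hi, hz, hne⟩ := Pool.Agent.Q20.LG.exists_function T hχ hc
  refine ⟨fun F χ => par (D F χ), ⟨fun F hF χ χ' h h' => ?_, fun F F' hle hF' χ h => ?_⟩,
    fun σ F hF ψ hψ => ⟨1, Nat.one_pos, ?_⟩, ?_⟩
  · have h1 := ha F hF χ χ' h h'
    change par (D F (χ.add χ')) = _
    rw [← par_add, ← h1]
    rfl
  · have h1 := hi F F' hle hF' χ h
    change par (D F (ind F F' χ)) = par (D F' χ)
    rw [← h1]
    rfl
  · let ψ₀ : F.fixingSubgroup →* ℂˣ := ψ
    let ψ' : F.fixingSubgroup →* ℂˣ := (Units.map (σ : ℂ →* ℂ)).comp ψ₀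
    have h0 : D F (fun g => ((ψ₀ g : ℂˣ) : ℂ)) = 0 := hz F hF ψ₀ hψ.1 hψ.2
    have h1 : D F (fun g => σ ((ψ₀ g : ℂˣ) : ℂ)) = 0 := by
      have h2 := hz F hF ψ' (by
        obtain ⟨E, hE, h3⟩ := hψ.1
        exact ⟨E, hE, fun g hg => by
          rw [MonoidHom.comp_apply]
          have h4 : ψ₀ g = 1 := h3 g hg
          rw [h4, map_one]⟩)
        (fun p hp hpT w hw g hg => by
          change Units.map (σ : ℂ →* ℂ) (ψ₀ g) = 1
          have h4 : ψ₀ g = 1 := hψ.2 p hp hpT w hw g hg
          rw [h4, map_one])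
      exact h2
    change σ ((par (D F (fun g => ((ψ₀ g : ℂˣ) : ℂ))) : ℂˣ) : ℂ) ^ 1 =
      ((par (D F (fun g => σ ((ψ₀ g : ℂˣ) : ℂ))) : ℂˣ) : ℂ) ^ 1
    rw [h0, h1, par_zero, Units.val_one, map_one]
  · rintro ⟨m, hm, h⟩
    exact par_key hne hm h

end

/-- **Theorem.** Let `K` be a number field. For a finite extension `F` of `K` and a set `T` of primes
let `V` be the group of the virtual characters of `Gal(K̄/F)` with a positive multiple in the span
of the characters induced from linear characters `ψ` of `Gal(K̄/F')`, `F' ⊇ F` finite, unramified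
at all finite places outside `T`.
(1) A virtual character belongs to `V` if and only if its restrictions to all decomposition groups
outside `T` have the analogous local property, if and only if it is constant on the elements of
these decomposition groups which generate the same closed subgroup and are congruent modulo the
inertia group; then `F'` can be taken totally complex of degree divisible by any given `M`, together
with trivial characters.
(2) A linear character belongs to `V` if and only if its square is unramified outside `T`; the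
representations with inertia groups of exponent two outside `T`, and the virtual characters which
are unramified or have rational values on each decomposition group outside `T`, belong to `V`.
(3) The rational character ring modulo `V` is the direct sum of the local quotients; local virtual
characters of the same degree are, up to a multiple, the restrictions of a global one.
(4) An additive inductive function of the characters over the finite extensions of `K`, with values
in a torsion-free divisible group, which vanishes at trivial and at class group characters, is the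
sum of local constants, which are unique, invariant under induction, and depend only on the local
Galois group and the local virtual character. All local terms over `K` occur.
(5) If Stark's conjecture holds up to roots of unity for trivial characters and for class group
characters of totally complex fields of degree divisible by `M`, it holds up to roots of unity for
all characters in `V`, and for all characters the defect `A(χ)^σ / A(χ^σ)`, up to roots of unity, is
the product of local constants.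
(6) This is optimal: for a character over `K` outside `V` Stark's conjecture up to roots of unity is
not a formal consequence of its case of the linear characters unramified outside `T`.
(7) The same as (5) for the algebraicity of the numbers `A(χ)`. -/
theorem result (K : Type) [Field K] [NumberField K] :
    Principle K ∧ Examples K ∧ Isomorphism K ∧ Constants K ∧ Stark K ∧ Optimality K ∧
      Algebraicity K :=
  ⟨principle, examples, isomorphism, constants, stark, optimality, algebraicity⟩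

end Pool.Agent.Results.MP_46b841_nt.LocalObstructions
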