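import Pool.Agent.Q273.SP.Main

/-!
# Stark's conjecture: characters ramified above one place suffice
-/

set_option autoImplicit false
set_option linter.unusedSectionVars false

namespace Pool.Agent.Results.MP_46b841_nt.RamifiedAboveOnePlace

open Pool.Agent.Q246.BI (Smooth IsCharacter induced)
open Pool.Agent.Q273.SP (OnePlace)
open scoped Classical

/-- the intermediate fields of an algebraic closure of the number field `K` (e.g. `K = ℚ`) -/
abbrev Sub (K : Type) [Field K] : Type := IntermediateField K (AlgebraicClosure K)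

/-- The formal properties of the numbers `A(χ)`, `χ` a character of `Gal(K̄/F)`, `F` a finite
extension of the number field `K`: additivity and invariance under induction. (Invariance under
inflation is part of the notation.) -/
structure Formal {K : Type} [Field K] [NumberField K]
    (a : ∀ F : Sub K, (F.fixingSubgroup → ℂ) → ℂˣ) : Prop where
  add : ∀ F : Sub K, FiniteDimensional K F → ∀ χ χ' : F.fixingSubgroup → ℂ,
    IsCharacter F χ → IsCharacter F χ' → a F (χ + χ') = a F χ * a F χ'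
  ind : ∀ F F' : Sub K, F ≤ F' → FiniteDimensional K F' →
    ∀ χ : F'.fixingSubgroup → ℂ, IsCharacter F' χ → a F (induced F F' χ) = a F' χ

/-- Stark's equality `A(χ)^σ = A(χ^σ)` -/
def StarkAt {K : Type} [Field K] [NumberField K] (a : ∀ F : Sub K, (F.fixingSubgroup → ℂ) → ℂˣ)
    (F : Sub K) (χ : F.fixingSubgroup → ℂ) (σ : ℂ ≃+* ℂ) : Prop :=
  σ (a F χ) = a F (fun g => σ (χ g))

/-- Stark's equality up to roots of unity -/
def StarkUpToRoots {K : Type} [Field K] [NumberField K]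
    (a : ∀ F : Sub K, (F.fixingSubgroup → ℂ) → ℂˣ)
    (F : Sub K) (χ : F.fixingSubgroup → ℂ) (σ : ℂ ≃+* ℂ) : Prop :=
  ∃ m : ℕ, 0 < m ∧ σ (a F χ) ^ m = (a F (fun g => σ (χ g)) : ℂ) ^ m

/-- the linear characters of the first part: the base field is totally complex and `ψ` is
concentrated or of prime power order, or `ψ` has order a power of two -/
def First {K : Type} [Field K] [NumberField K] (T : Finset ℕ) (N : Sub K) (F : Sub K)
    (ψ : F.fixingSubgroup →* ℂˣ) : Prop :=
  Smooth F ψ ∧ ((IsEmpty (F →+* ℝ) ∧ (OnePlace T N F ψ ∨ ∃ p k : ℕ, p.Prime ∧ ∀ g, ψ g ^ p ^ k = 1)) ∨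
    ∃ k : ℕ, ∀ g, ψ g ^ 2 ^ k = 1)

/-- the linear characters of the other parts: the base field is totally complex of degree divisible
by `M` and `ψ` is concentrated -/
def Second {K : Type} [Field K] [NumberField K] (M : ℕ) (T : Finset ℕ) (N : Sub K) (F : Sub K)
    (ψ : F.fixingSubgroup →* ℂˣ) : Prop :=
  Smooth F ψ ∧ IsEmpty (F →+* ℝ) ∧ M ∣ Module.finrank K F ∧ OnePlace T N F ψ

/-- the integral combinations of characters of `Gal(K̄/F)` induced from linear characters with a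
property -/
def Combinations {K : Type} [Field K] [NumberField K]
    (P : ∀ F : Sub K, (F.fixingSubgroup →* ℂˣ) → Prop) (F : Sub K) :
    AddSubgroup (F.fixingSubgroup → ℂ) :=
  AddSubgroup.closure {f | ∃ (F' : Sub K) (ψ : F'.fixingSubgroup →* ℂˣ), F ≤ F' ∧
    FiniteDimensional K F' ∧ P F' ψ ∧ f = induced F F' (fun g => (ψ g : ℂ))}

section
variable {K : Type} [Field K] [NumberField K]

theorem conj_character (F : Sub K) {χ : F.fixingSubgroup → ℂ}
    (h : IsCharacter F χ) (σ : ℂ ≃+* ℂ) : IsCharacter F (fun g => σ (χ g)) := by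
  obtain ⟨n, τ, ⟨E, hE, hs⟩, hτ⟩ := h
  refine ⟨n, (Matrix.GeneralLinearGroup.map (σ : ℂ →+* ℂ)).comp τ, ⟨E, hE, fun g hg => ?_⟩,
    fun g => ?_⟩
  · rw [MonoidHom.comp_apply, hs g hg, map_one]
  · change σ (χ g) = _
    rw [hτ]
    change σ (τ g : Matrix (Fin n) (Fin n) ℂ).trace =
      ((τ g : Matrix (Fin n) (Fin n) ℂ).map (σ : ℂ →+* ℂ)).trace
    simp [Matrix.trace]

theorem conj_induced (F F' : Sub K) (hfd : FiniteDimensional K F')
    (χ : F'.fixingSubgroup → ℂ) (σ : ℂ ≃+* ℂ) :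
    (fun g => σ (induced F F' χ g)) = induced F F' (fun g => σ (χ g)) := by
  have hfin : Finite (F.fixingSubgroup ⧸ F'.fixingSubgroup.subgroupOf F.fixingSubgroup) :=
    Pool.Agent.Q246.BI.nn_finite F F'
  have : Fintype (F.fixingSubgroup ⧸ F'.fixingSubgroup.subgroupOf F.fixingSubgroup) :=
    Fintype.ofFinite _
  funext g
  unfold induced
  rw [finsum_eq_sum_of_fintype, finsum_eq_sum_of_fintype, map_sum]
  refine Finset.sum_congr rfl fun x _ => ?_
  split_ifs
  · rfl
  · exact map_zero σ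

/-- the defect -/
noncomputable def defect (a : ∀ F : Sub K, (F.fixingSubgroup → ℂ) → ℂˣ)
    (σ : ℂ ≃+* ℂ) (F : Sub K) (χ : F.fixingSubgroup → ℂ) : Additive ℂˣ :=
  Additive.ofMul (Units.map (σ : ℂ →* ℂ) (a F χ) / a F (fun g => σ (χ g)))

theorem defect_add {a : ∀ F : Sub K, (F.fixingSubgroup → ℂ) → ℂˣ}
    (ha : Formal a) (σ : ℂ ≃+* ℂ) (F : Sub K) (hF : FiniteDimensional K F)
    (χ χ' : F.fixingSubgroup → ℂ) (h : IsCharacter F χ) (h' : IsCharacter F χ') :
    defect a σ F (χ + χ') = defect a σ F χ + defect a σ F χ' := by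
  have h1 : (fun g => σ ((χ + χ') g)) = (fun g => σ (χ g)) + fun g => σ (χ' g) := by
    funext g
    exact map_add σ _ _
  unfold defect
  rw [h1, ha.add F hF _ _ h h', ha.add F hF _ _ (conj_character F h σ) (conj_character F h' σ),
    map_mul, ← ofMul_mul, mul_div_mul_comm]

theorem defect_ind {a : ∀ F : Sub K, (F.fixingSubgroup → ℂ) → ℂˣ}
    (ha : Formal a) (σ : ℂ ≃+* ℂ) (F F' : Sub K) (hle : F ≤ F')
    (hF' : FiniteDimensional K F') (χ : F'.fixingSubgroup → ℂ) (h : IsCharacter F' χ) :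
    defect a σ F (induced F F' χ) = defect a σ F' χ := by
  unfold defect
  rw [conj_induced F F' hF', ha.ind F F' hle hF' χ h,
    ha.ind F F' hle hF' _ (conj_character F' h σ)]

theorem defect_eq_zero {a : ∀ F : Sub K, (F.fixingSubgroup → ℂ) → ℂˣ}
    (σ : ℂ ≃+* ℂ) (F : Sub K) (χ : F.fixingSubgroup → ℂ) :
    defect a σ F χ = 0 ↔ StarkAt a F χ σ := by
  unfold defect StarkAt
  rw [ofMul_eq_zero, div_eq_one, Units.ext_iff]
  rfl

theorem defect_torsion {a : ∀ F : Sub K, (F.fixingSubgroup → ℂ) → ℂˣ}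
    (σ : ℂ ≃+* ℂ) (F : Sub K) (χ : F.fixingSubgroup → ℂ) :
    (∃ m : ℕ, 0 < m ∧ m • defect a σ F χ = 0) ↔ StarkUpToRoots a F χ σ := by
  unfold defect StarkUpToRoots
  refine exists_congr fun m => and_congr_right fun _ => ?_
  rw [← ofMul_pow, ofMul_eq_zero, div_pow, div_eq_one, Units.ext_iff]
  rfl

/-- the algebraic numbers in `ℂ^*` -/
def algUnits : Subgroup ℂˣ where
  carrier := {u | IsAlgebraic ℚ (u : ℂ)}
  one_mem' := isAlgebraic_one
  mul_mem' := fun {a b} ha hb => by
    change IsAlgebraic ℚ ((a * b : ℂˣ) : ℂ)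
    rw [Units.val_mul]
    exact IsAlgebraic.mul ha hb
  inv_mem' := fun {a} ha => by
    change IsAlgebraic ℚ ((a⁻¹ : ℂˣ) : ℂ)
    rw [Units.val_inv_eq_inv_val]
    exact IsAlgebraic.inv ha

theorem alg_iff (u : ℂˣ) : (∃ m : ℕ, 0 < m ∧
    m • (Additive.ofMul (QuotientGroup.mk u : ℂˣ ⧸ algUnits)) = 0) ↔ IsAlgebraic ℚ (u : ℂ) := by
  constructor
  · rintro ⟨m, hm, h⟩
    rw [← ofMul_pow, ofMul_eq_zero, ← QuotientGroup.mk_pow, QuotientGroup.eq_one_iff] at h
    change IsAlgebraic ℚ ((u ^ m : ℂˣ) : ℂ) at h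
    rw [Units.val_pow_eq_pow_val] at h
    exact h.of_pow hm
  · intro h
    refine ⟨1, Nat.one_pos, ?_⟩
    rw [one_nsmul, ofMul_eq_zero, QuotientGroup.eq_one_iff]
    exact h

end

/-- **Theorem.** Let `K` be a number field, `T` a finite set of prime numbers, `N` a finite
extension of `K` and `M > 0`.
(1) Stark's conjecture follows from its case of linear characters `ψ` over totally complex fields
which are ramified above at most one place of `N` (and trivial on the decomposition groups of all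
other places above `T`) or of prime power order, and of linear characters of order a power of two.
(2) Up to roots of unity it follows from its case of linear characters ramified above at most one
place of `N`, over totally complex fields of degree divisible by `M`.
(3) The algebraicity of all numbers `A(χ)` follows (exactly) from the same case.
(4), (5) The induction theorems for characters. -/
theorem result (K : Type) [Field K] [NumberField K] (T : Finset ℕ) (hT : ∀ p ∈ T, p.Prime)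
    (N : Sub K) (hN : FiniteDimensional K N) (M : ℕ) (hM : 0 < M) :
    (∀ (a : ∀ F : Sub K, (F.fixingSubgroup → ℂ) → ℂˣ), Formal a → ∀ σ : ℂ ≃+* ℂ,
      (∀ F : Sub K, FiniteDimensional K F → ∀ ψ : F.fixingSubgroup →* ℂˣ, First T N F ψ →
        StarkAt a F (fun g => (ψ g : ℂ)) σ) →
      ∀ F : Sub K, FiniteDimensional K F →
        ∀ χ : F.fixingSubgroup → ℂ, IsCharacter F χ → StarkAt a F χ σ) ∧
    (∀ (a : ∀ F : Sub K, (F.fixingSubgroup → ℂ) → ℂˣ), Formal a → ∀ σ : ℂ ≃+* ℂ,
      (∀ F : Sub K, FiniteDimensional K F → StarkUpToRoots a F (fun _ => 1) σ) →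
      (∀ F : Sub K, FiniteDimensional K F → ∀ ψ : F.fixingSubgroup →* ℂˣ, Second M T N F ψ →
        StarkUpToRoots a F (fun g => (ψ g : ℂ)) σ) →
      ∀ F : Sub K, FiniteDimensional K F →
        ∀ χ : F.fixingSubgroup → ℂ, IsCharacter F χ → StarkUpToRoots a F χ σ) ∧
    (∀ (a : ∀ F : Sub K, (F.fixingSubgroup → ℂ) → ℂˣ), Formal a →
      (∀ F : Sub K, FiniteDimensional K F → IsAlgebraic ℚ (a F (fun _ => 1) : ℂ)) →
      (∀ F : Sub K, FiniteDimensional K F → ∀ ψ : F.fixingSubgroup →* ℂˣ, Second M T N F ψ →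
        IsAlgebraic ℚ (a F (fun g => (ψ g : ℂ)) : ℂ)) →
      ∀ F : Sub K, FiniteDimensional K F →
        ∀ χ : F.fixingSubgroup → ℂ, IsCharacter F χ → IsAlgebraic ℚ (a F χ : ℂ)) ∧
    (∀ F : Sub K, FiniteDimensional K F → ∀ χ : F.fixingSubgroup → ℂ, IsCharacter F χ →
      χ ∈ Combinations (First T N) F) ∧
    (∀ F : Sub K, FiniteDimensional K F → ∀ χ : F.fixingSubgroup → ℂ, IsCharacter F χ →
      ∃ m : ℕ, 0 < m ∧ m • χ ∈ Combinations (fun F ψ => Second M T N F ψ ∨ ψ = 1) F) := by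
  refine ⟨fun a ha σ hS F hF χ hχ => ?_, fun a ha σ h1 hS F hF χ hχ => ?_,
    fun a ha h1 hS F hF χ hχ => ?_, fun F hF χ hχ => ?_, fun F hF χ hχ => ?_⟩
  · rw [← defect_eq_zero]
    exact Pool.Agent.Q273.SP.one_place_zero (defect a σ) (defect_add ha σ) (defect_ind ha σ) hT N
      (fun F hF ψ hψ h => (defect_eq_zero σ F _).2 (hS F hF ψ ⟨hψ, h⟩)) F hF χ hχ
  · rw [← defect_torsion]
    exact Pool.Agent.Q273.SP.one_place_torsion (defect a σ) (defect_add ha σ) (defect_ind ha σ)
      (fun F hF => (defect_torsion σ F _).2 (h1 F hF)) hM hT N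
      (fun F hF he hM ψ hψ ho => (defect_torsion σ F _).2 (hS F hF ψ ⟨hψ, he, hM, ho⟩)) F hF χ hχ
  · rw [← alg_iff]
    refine Pool.Agent.Q273.SP.one_place_torsion
      (fun F χ => Additive.ofMul (QuotientGroup.mk (a F χ) : ℂˣ ⧸ algUnits))
      (fun F hF χ χ' h h' => ?_) (fun F F' hle hF' χ h => ?_)
      (fun F hF => (alg_iff _).2 (h1 F hF)) hM hT N
      (fun F hF he hM ψ hψ ho => (alg_iff _).2 (hS F hF ψ ⟨hψ, he, hM, ho⟩)) F hF χ hχ
    · rw [ha.add F hF χ χ' h h', QuotientGroup.mk_mul, ofMul_mul]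
    · rw [ha.ind F F' hle hF' χ h]
  · refine AddSubgroup.closure_mono ?_ (Pool.Agent.Q273.SP.one_place_integral F hχ hT N)
    rintro f ⟨F', ψ, h1, h2, h3, h4, h5⟩
    exact ⟨F', ψ, h1, h2, ⟨h3, h4⟩, h5⟩
  · obtain ⟨m, hm, h⟩ := Pool.Agent.Q273.SP.one_place_induction F hχ hM hT N
    refine ⟨m, hm, AddSubgroup.closure_mono ?_ h⟩
    rintro f ⟨F', ψ, h1, h2, h3, h4, h5⟩
    exact ⟨F', ψ, h1, h2, h4.imp_left fun h6 => ⟨h3, h6⟩, h5⟩

end Pool.Agent.Results.MP_46b841_nt.RamifiedAboveOnePlace
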