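import Mathlib

/-!
# A semigroup with a non-cancellative quotient by o-conjugacy

On `X = ω₁ × ω₁` (level = first coordinate) let `U` be the semigroup of all injective maps that
strictly increase the level and whose image misses an `ω₁`-sequence of points on every level.
Any two `a, b ∈ U` satisfy `a g = g b` for some `g ∈ U`.  Hence in the monoid `S = U ∪ {1}` the
`∼ₒ`-classes are `{1}` and `U`, the relation is a congruence, and the quotient is a two-element
semilattice, which is neither left nor right cancellative.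
-/

namespace Pool.Agent.Results.MP_472d46_al.NotCancellative

/-- `a` and `b` are o-conjugate: `a g = g b` and `b h = h a` for some `g, h ∈ S¹`.  Here
`S¹ = WithOne S`; if `S` already has an identity `e`, then replacing the new identity by `e` shows
that this is the same relation as the one defined with `g, h ∈ S`. -/
def OConj {S : Type*} [Semigroup S] (a b : S) : Prop :=
  ∃ g h : WithOne S, (a : WithOne S) * g = g * b ∧ (b : WithOne S) * h = h * a

section Construction

variable {Ω : Type} [LinearOrder Ω] [WellFoundedLT Ω]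

/-- The elements of `U`: injective, strictly level-increasing, with room on every level. -/
structure IsU (a : Ω × Ω → Ω × Ω) : Prop where
  /-- injectivity -/
  inj : Function.Injective a
  /-- the level strictly increases -/
  lt : ∀ x, x.1 < (a x).1
  /-- on every level, the image misses many points -/
  room : ∀ α : Ω, ∃ ρ : Ω → Ω × Ω, Function.Injective ρ ∧ ∀ i, (ρ i).1 = α ∧ ρ i ∉ Set.range a

lemma IsU.comp {a b : Ω × Ω → Ω × Ω} (ha : IsU a) (hb : IsU b) : IsU (a ∘ b) where
  inj := ha.inj.comp hb.inj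
  lt x := (hb.lt x).trans (ha.lt (b x))
  room α := by
    obtain ⟨ρ, h1, h2⟩ := ha.room α
    refine ⟨ρ, h1, fun i => ⟨(h2 i).1, ?_⟩⟩
    rintro ⟨y, hy⟩
    exact (h2 i).2 ⟨b y, hy⟩

/-- Every point lies on a unique forward chain. -/
lemma exists_start {b : Ω × Ω → Ω × Ω} (hb : IsU b) (x : Ω × Ω) :
    ∃ (z : Ω × Ω) (n : ℕ), z ∉ Set.range b ∧ b^[n] z = x := by
  obtain ⟨α, hα⟩ : ∃ α, x.1 = α := ⟨_, rfl⟩
  induction α using WellFoundedLT.induction generalizing x with
  | ind α ih =>
    by_cases h : x ∈ Set.range b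
    · obtain ⟨y, rfl⟩ := h
      obtain ⟨z, n, h1, h2⟩ := ih y.1 (by rw [← hα]; exact hb.lt y) y rfl
      exact ⟨z, n + 1, h1, by rw [Function.iterate_succ_apply', h2]⟩
    · exact ⟨x, 0, h, rfl⟩

lemma start_unique {b : Ω × Ω → Ω × Ω} (hb : IsU b) {z w : Ω × Ω} {m n : ℕ}
    (hz : z ∉ Set.range b) (hw : w ∉ Set.range b) (h : b^[m] z = b^[n] w) : m = n ∧ z = w := by
  induction m generalizing n with
  | zero =>
    cases n with
    | zero => exact ⟨rfl, h⟩
    | succ n =>
      exfalso
      apply hz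
      rw [Function.iterate_zero, id, Function.iterate_succ_apply'] at h
      exact ⟨_, h.symm⟩
  | succ m ih =>
    cases n with
    | zero =>
      exfalso
      apply hw
      rw [Function.iterate_zero, id, Function.iterate_succ_apply'] at h
      exact ⟨_, h⟩
    | succ n =>
      rw [Function.iterate_succ_apply', Function.iterate_succ_apply'] at h
      obtain ⟨h1, h2⟩ := ih (hb.inj h)
      exact ⟨by rw [h1], h2⟩

lemma le_iterate {a : Ω × Ω → Ω × Ω} (ha : IsU a) (n : ℕ) (x : Ω × Ω) :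
    x.1 ≤ (a^[n] x).1 := by
  induction n with
  | zero => exact le_rfl
  | succ n ih =>
    rw [Function.iterate_succ_apply']
    exact ih.trans (ha.lt _).le

/-- Any two elements of `U` are intertwined by an element of `U`. -/
lemma exists_intertwiner (hbdd : ∀ s : ℕ → Ω, ∃ β, ∀ n, s n < β)
    (e : (Ω × Ω) × Bool ↪ Ω) {a b : Ω × Ω → Ω × Ω} (ha : IsU a) (hb : IsU b) :
    ∃ g, IsU g ∧ a ∘ g = g ∘ b := by
  classical
  choose ρ hρi hρ using ha.room
  choose Z N hZ hN using exists_start hb
  choose β hβ using fun z : Ω × Ω => hbdd fun n => (b^[n] z).1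
  set st : Ω × Ω → Ω × Ω := fun z => ρ (β z) (e (z, true)) with hst
  have hst1 : ∀ z, (st z).1 = β z := fun z => (hρ _ _).1
  have hst2 : ∀ z, st z ∉ Set.range a := fun z => (hρ _ _).2
  have hst3 : ∀ z w, st z = st w → z = w := by
    intro z w h
    have h1 : β z = β w := by rw [← hst1, ← hst1, h]
    simp only [hst] at h
    rw [h1] at h
    have h2 := e.injective (hρi _ h)
    exact congrArg Prod.fst h2
  set g : Ω × Ω → Ω × Ω := fun x => a^[N x] (st (Z x)) with hg
  have hgval : ∀ (z : Ω × Ω) (n : ℕ), z ∉ Set.range b → g (b^[n] z) = a^[n] (st z) := by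
    intro z n hz
    obtain ⟨h1, h2⟩ := start_unique hb (hZ (b^[n] z)) hz (hN (b^[n] z))
    simp only [hg]
    rw [h1, h2]
  refine ⟨g, ⟨?_, ?_, ?_⟩, ?_⟩
  · intro x y hxy
    obtain ⟨h1, h2⟩ := start_unique ha (hst2 (Z x)) (hst2 (Z y)) hxy
    rw [← hN x, ← hN y, h1, hst3 _ _ h2]
  · intro x
    have h1 : x.1 < β (Z x) := by
      conv_lhs => rw [← hN x]
      exact hβ (Z x) (N x)
    calc x.1 < β (Z x) := h1
      _ = (st (Z x)).1 := (hst1 _).symm
      _ ≤ (g x).1 := le_iterate ha _ _
  · intro α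
    refine ⟨fun i => ρ α (e ((i, i), false)), ?_, ?_⟩
    · intro i j hij
      have := e.injective (hρi _ hij)
      simpa using this
    · intro i
      refine ⟨(hρ _ _).1, ?_⟩
      rintro ⟨x, hx⟩
      have h0 : a^[N x] (st (Z x)) = a^[0] (ρ α (e ((i, i), false))) := hx
      obtain ⟨_, h2⟩ := start_unique ha (hst2 (Z x)) (hρ _ _).2 h0
      have h3 : β (Z x) = α := by rw [← hst1, h2]; exact (hρ _ _).1
      simp only [hst] at h2
      rw [h3] at h2
      have h4 := e.injective (hρi _ h2)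
      simp at h4
  · funext x
    obtain ⟨z, n, hz, rfl⟩ : ∃ (z : Ω × Ω) (n : ℕ), z ∉ Set.range b ∧ b^[n] z = x :=
      ⟨_, _, hZ x, hN x⟩
    rw [Function.comp_apply, Function.comp_apply, hgval z n hz,
      ← Function.iterate_succ_apply' b, hgval z (n + 1) hz, Function.iterate_succ_apply']

/-- `U` is not empty. -/
lemma exists_isU (hbdd : ∀ s : ℕ → Ω, ∃ β, ∀ n, s n < β)
    (e : (Ω × Ω) × Bool ↪ Ω) : ∃ a : Ω × Ω → Ω × Ω, IsU a := by
  choose β hβ using fun z : Ω × Ω => hbdd fun _ => z.1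
  refine ⟨fun z => (β z, e (z, true)), ⟨?_, fun z => hβ z 0, ?_⟩⟩
  · intro z w h
    have := e.injective (congrArg Prod.snd h)
    simpa using this
  · intro α
    refine ⟨fun i => (α, e ((i, i), false)), ?_, ?_⟩
    · intro i j hij
      have := e.injective (congrArg Prod.snd hij)
      simpa using this
    · intro i
      refine ⟨rfl, ?_⟩
      rintro ⟨x, hx⟩
      have := e.injective (congrArg Prod.snd hx)
      simp at this

end Construction

/-- The submonoid `S = U ∪ {1}` of the monoid of all self-maps of `X`. -/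
def SM (Ω : Type) [LinearOrder Ω] [WellFoundedLT Ω] : Submonoid (Function.End (Ω × Ω)) where
  carrier := {f | f = 1 ∨ IsU (f : Ω × Ω → Ω × Ω)}
  one_mem' := Or.inl rfl
  mul_mem' := by
    rintro f g (rfl | hf) (rfl | hg)
    · exact Or.inl (one_mul 1)
    · right; rw [one_mul]; exact hg
    · right; rw [mul_one]; exact hf
    · exact Or.inr (hf.comp hg)

section Main

variable {Ω : Type} [LinearOrder Ω] [WellFoundedLT Ω]

lemma isU_ne_one {f : Function.End (Ω × Ω)} (hf : IsU (f : Ω × Ω → Ω × Ω)) [Nonempty Ω] :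
    f ≠ 1 := by
  rintro rfl
  obtain ⟨α⟩ := ‹Nonempty Ω›
  have h : α < α := hf.lt (α, α)
  exact lt_irrefl _ h

lemma isU_of_ne_one {a : SM Ω} (h : a ≠ 1) : IsU (a.1 : Ω × Ω → Ω × Ω) := by
  rcases a.2 with h1 | h1
  · exact absurd (Subtype.ext h1) h
  · exact h1

lemma injective_of (g : SM Ω) : Function.Injective (g.1 : Ω × Ω → Ω × Ω) := by
  rcases g.2 with h | h
  · rw [h]
    exact fun _ _ h => h
  · exact h.inj

lemma eq_one_left {b : SM Ω} {g : WithOne (SM Ω)}
    (h : ((1 : SM Ω) : WithOne (SM Ω)) * g = g * (b : WithOne (SM Ω))) : b = 1 := by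
  cases g with
  | one =>
    rw [mul_one, one_mul] at h
    exact (WithOne.coe_inj.1 h).symm
  | coe g =>
    rw [← WithOne.coe_mul, ← WithOne.coe_mul] at h
    have h1 := WithOne.coe_inj.1 h
    rw [one_mul] at h1
    apply Subtype.ext
    funext x
    have h2 : g.1 x = g.1 (b.1 x) := congrFun (congrArg Subtype.val h1) x
    exact (injective_of g h2).symm

lemma eq_one_right {b : SM Ω} {g : WithOne (SM Ω)} [Nonempty Ω]
    (h : (b : WithOne (SM Ω)) * g = g * ((1 : SM Ω) : WithOne (SM Ω))) : b = 1 := by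
  cases g with
  | one =>
    rw [mul_one, one_mul] at h
    exact WithOne.coe_inj.1 h
  | coe g =>
    rw [← WithOne.coe_mul, ← WithOne.coe_mul] at h
    have h1 := WithOne.coe_inj.1 h
    rw [mul_one] at h1
    by_contra hb
    obtain ⟨α⟩ := ‹Nonempty Ω›
    have h2 : b.1 (g.1 (α, α)) = g.1 (α, α) := congrFun (congrArg Subtype.val h1) (α, α)
    have h3 := (isU_of_ne_one hb).lt (g.1 (α, α))
    rw [h2] at h3
    exact lt_irrefl _ h3

/-- The classes of o-conjugacy in `S`. -/
lemma oConj_iff (hbdd : ∀ s : ℕ → Ω, ∃ β, ∀ n, s n < β)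
    (e : (Ω × Ω) × Bool ↪ Ω) [Nonempty Ω] (a b : SM Ω) :
    OConj a b ↔ (a = 1 ↔ b = 1) := by
  constructor
  · rintro ⟨g, h, h1, h2⟩
    constructor
    · rintro rfl
      exact eq_one_left h1
    · rintro rfl
      exact eq_one_right h1
  · intro h
    by_cases ha : a = 1
    · rw [ha, h.1 ha]
      exact ⟨1, 1, by rw [mul_one, one_mul], by rw [mul_one, one_mul]⟩
    · have hb : b ≠ 1 := fun hb => ha (h.2 hb)
      obtain ⟨g, hg, hg2⟩ := exists_intertwiner hbdd e (isU_of_ne_one ha) (isU_of_ne_one hb)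
      obtain ⟨k, hk, hk2⟩ := exists_intertwiner hbdd e (isU_of_ne_one hb) (isU_of_ne_one ha)
      refine ⟨((⟨g, Or.inr hg⟩ : SM Ω) : WithOne (SM Ω)),
        ((⟨k, Or.inr hk⟩ : SM Ω) : WithOne (SM Ω)), ?_, ?_⟩
      · rw [← WithOne.coe_mul, ← WithOne.coe_mul]
        exact congrArg _ (Subtype.ext hg2)
      · rw [← WithOne.coe_mul, ← WithOne.coe_mul]
        exact congrArg _ (Subtype.ext hk2)

lemma mul_eq_one_iff' [Nonempty Ω] (a b : SM Ω) : a * b = 1 ↔ a = 1 ∧ b = 1 := by
  constructor
  · intro h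
    by_cases ha : a = 1
    · subst ha
      rw [one_mul] at h
      exact ⟨rfl, h⟩
    · by_cases hb : b = 1
      · subst hb
        rw [mul_one] at h
        exact ⟨h, rfl⟩
      · exfalso
        have h1 : IsU ((a * b).1 : Ω × Ω → Ω × Ω) := (isU_of_ne_one ha).comp (isU_of_ne_one hb)
        exact isU_ne_one h1 (congrArg Subtype.val h)
  · rintro ⟨rfl, rfl⟩
    exact one_mul 1

/-- o-conjugacy as a congruence on `S`. -/
def con (hbdd : ∀ s : ℕ → Ω, ∃ β, ∀ n, s n < β)
    (e : (Ω × Ω) × Bool ↪ Ω) [Nonempty Ω] : Con (SM Ω) where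
  r := OConj
  iseqv :=
    { refl := fun a => (oConj_iff hbdd e a a).2 Iff.rfl
      symm := fun {a b} h => (oConj_iff hbdd e b a).2 ((oConj_iff hbdd e a b).1 h).symm
      trans := fun {a b c} h k => (oConj_iff hbdd e a c).2
        (((oConj_iff hbdd e a b).1 h).trans ((oConj_iff hbdd e b c).1 k)) }
  mul' := by
    intro a b c d h k
    have h' := (oConj_iff hbdd e a b).1 h
    have k' := (oConj_iff hbdd e c d).1 k
    refine (oConj_iff hbdd e _ _).2 ?_
    rw [mul_eq_one_iff', mul_eq_one_iff', h', k']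

end Main

/-- There is a semigroup on which o-conjugacy is a congruence and the quotient by it is neither
left nor right cancellative. -/
theorem result :
    ∃ (S : Type) (_ : Semigroup S) (c : Con S), (∀ a b : S, c a b ↔ OConj a b) ∧
      ¬ IsLeftCancelMul c.Quotient ∧ ¬ IsRightCancelMul c.Quotient := by
  classical
  let Ω : Type := (Ordinal.omega.{0} 1).ToType
  have hbdd : ∀ s : ℕ → Ω, ∃ β, ∀ n, s n < β := by
    intro s
    let t : Ω ≃o Set.Iio (Ordinal.omega.{0} 1) := Ordinal.ToType.mk.symm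
    let f : ℕ → Ordinal.{0} := fun n => Order.succ (t (s n)).1
    have hlim : Order.IsSuccLimit (Ordinal.omega.{0} 1) := Cardinal.isSuccLimit_omega 1
    have hf : ∀ n, f n < Ordinal.omega.{0} 1 := fun n => hlim.succ_lt (t (s n)).2
    have hsup : (⨆ n, f n) < Ordinal.omega.{0} 1 := Ordinal.iSup_lt_omega_one hf
    refine ⟨t.symm ⟨⨆ n, f n, hsup⟩, fun n => ?_⟩
    rw [← t.lt_iff_lt, t.apply_symm_apply]
    show (t (s n)).1 < ⨆ n, f n
    exact (Order.lt_succ _).trans_le (Ordinal.le_iSup f n)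
  have hcard : Cardinal.mk Ω = Cardinal.aleph 1 := by
    show Cardinal.mk (Ordinal.omega.{0} 1).ToType = _
    rw [Cardinal.mk_toType, ← Cardinal.ord_aleph, Cardinal.card_ord]
  have hinf : Infinite Ω := by
    rw [Cardinal.infinite_iff, hcard]
    exact Cardinal.aleph0_le_aleph 1
  have he : Nonempty ((Ω × Ω) × Bool ↪ Ω) := by
    rw [← Cardinal.le_def]
    simp only [Cardinal.mk_prod, Cardinal.lift_uzero, Cardinal.lift_id, Cardinal.mk_bool]
    have h1 : Cardinal.mk Ω * Cardinal.mk Ω = Cardinal.mk Ω :=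
      Cardinal.mul_eq_self (Cardinal.infinite_iff.1 hinf)
    rw [h1]
    calc Cardinal.mk Ω * 2 ≤ Cardinal.mk Ω * Cardinal.mk Ω := by
          gcongr
          exact (Cardinal.natCast_lt_aleph0 (n := 2)).le.trans (Cardinal.infinite_iff.1 hinf)
      _ = Cardinal.mk Ω := h1
  obtain ⟨e⟩ := he
  have hne : Nonempty Ω := inferInstance
  obtain ⟨a, ha⟩ := exists_isU hbdd e
  let c := con hbdd e
  let u : SM Ω := ⟨a, Or.inr ha⟩
  have hu : u ≠ 1 := fun h => isU_ne_one ha (congrArg Subtype.val h)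
  have hne1 : (u : c.Quotient) ≠ ((1 : SM Ω) : c.Quotient) := by
    intro h
    have h1 : OConj u 1 := (Con.eq c).1 h
    exact hu (((oConj_iff hbdd e u 1).1 h1).2 rfl)
  have huu : ((u * u : SM Ω) : c.Quotient) = (u : c.Quotient) := by
    rw [Con.eq]
    refine (oConj_iff hbdd e _ _).2 ?_
    rw [mul_eq_one_iff']
    tauto
  refine ⟨SM Ω, inferInstance, c, fun a b => Iff.rfl, ?_, ?_⟩
  · intro hc
    have h1 : (u : c.Quotient) * (u : c.Quotient) = (u : c.Quotient) * ((1 : SM Ω) : c.Quotient) := by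
      rw [← Con.coe_mul, ← Con.coe_mul, huu, mul_one]
    exact hne1 (mul_left_cancel h1)
  · intro hc
    have h1 : (u : c.Quotient) * (u : c.Quotient) = ((1 : SM Ω) : c.Quotient) * (u : c.Quotient) := by
      rw [← Con.coe_mul, ← Con.coe_mul, huu, one_mul]
    exact hne1 (mul_right_cancel h1)

end Pool.Agent.Results.MP_472d46_al.NotCancellative
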