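import Mathlib
import Pool.Agent.Q98.JN6

set_option autoImplicit false

open Filter Topology

open scoped ENNReal

namespace Pool.Agent.Results.MP_479f73_an.WMPForcesFiniteDimension

section Defs

variable {𝕜 E F : Type*} [RCLike 𝕜] [NormedAddCommGroup E] [NormedSpace 𝕜 E]
  [NormedAddCommGroup F] [NormedSpace 𝕜 F]

/-- The operator `T` attains its norm: `‖T x‖ = ‖T‖` for some unit vector `x`. -/
def AttainsNorm (T : E →L[𝕜] F) : Prop := ∃ x : E, ‖x‖ = 1 ∧ ‖T x‖ = ‖T‖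

/-- `x` is a maximizing sequence for `T`: unit vectors `x n` with `‖T (x n)‖ → ‖T‖`. -/
def IsMaximizingSeq (T : E →L[𝕜] F) (x : ℕ → E) : Prop :=
  (∀ n, ‖x n‖ = 1) ∧ Tendsto (fun n => ‖T (x n)‖) atTop (𝓝 ‖T‖)

variable (𝕜) in
/-- The sequence `x` is weakly null. -/
def IsWeaklyNull (x : ℕ → E) : Prop := ∀ φ : E →L[𝕜] 𝕜, Tendsto (fun n => φ (x n)) atTop (𝓝 0)

variable (𝕜 E F) in
/-- The pair `(E, F)` has the weak maximizing property: every bounded operator `T : E → F` that has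
a maximizing sequence which is not weakly null attains its norm. -/
def HasWMP : Prop :=
  ∀ T : E →L[𝕜] F, (∃ x : ℕ → E, IsMaximizingSeq T x ∧ ¬ IsWeaklyNull 𝕜 x) → AttainsNorm T

end Defs

section Proof

variable {𝕜 E : Type*} [RCLike 𝕜] [NormedAddCommGroup E] [NormedSpace 𝕜 E]

/-- the damping factors -/
noncomputable def damp (n : ℕ) : ℝ := 1 - 1 / ((n : ℝ) + 1)

lemma damp_nonneg (n : ℕ) : 0 ≤ damp n := by
  unfold damp
  have : 1 / ((n : ℝ) + 1) ≤ 1 := by
    rw [div_le_one (by positivity)]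
    linarith [(Nat.cast_nonneg n : (0 : ℝ) ≤ n)]
  linarith

lemma damp_lt_one (n : ℕ) : damp n < 1 := by
  unfold damp
  have : 0 < 1 / ((n : ℝ) + 1) := by positivity
  linarith

lemma damp_mono {m n : ℕ} (h : m ≤ n) : damp m ≤ damp n := by
  unfold damp
  have : 1 / ((n : ℝ) + 1) ≤ 1 / ((m : ℝ) + 1) := by
    have h' : (m : ℝ) ≤ n := by exact_mod_cast h
    exact one_div_le_one_div_of_le (by positivity) (by linarith)
  linarith

lemma damp_tendsto : Tendsto damp atTop (𝓝 1) := by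
  have := (tendsto_one_div_add_atTop_nhds_zero_nat (𝕜 := ℝ)).const_sub 1
  rw [sub_zero] at this
  exact this

/-- The operator `x ↦ (damp n * h n x)ₙ` into `ℓ_∞`. -/
lemma exists_diag (h : ℕ → StrongDual 𝕜 E) (hh : ∀ n, ‖h n‖ ≤ 1) :
    ∃ T : E →L[𝕜] lp (fun _ : ℕ => 𝕜) ∞, ‖T‖ ≤ 1 ∧ ∀ x n, (T x) n = (damp n : 𝕜) * h n x := by
  have hb : ∀ x n, ‖(damp n : 𝕜) * h n x‖ ≤ ‖x‖ := by
    intro x n
    rw [norm_mul, RCLike.norm_ofReal, abs_of_nonneg (damp_nonneg n)]
    have h1 : ‖h n x‖ ≤ ‖x‖ := by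
      refine ((h n).le_opNorm x).trans ?_
      have := mul_le_mul_of_nonneg_right (hh n) (norm_nonneg x)
      rwa [one_mul] at this
    calc damp n * ‖h n x‖ ≤ 1 * ‖x‖ :=
          mul_le_mul (damp_lt_one n).le h1 (norm_nonneg _) zero_le_one
      _ = ‖x‖ := one_mul _
  have hm : ∀ x, Memℓp (fun n => (damp n : 𝕜) * h n x) ∞ := fun x =>
    memℓp_infty ⟨‖x‖, by rintro _ ⟨n, rfl⟩; exact hb x n⟩
  refine ⟨LinearMap.mkContinuous
    { toFun := fun x => ⟨fun n => (damp n : 𝕜) * h n x, hm x⟩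
      map_add' := fun x y => by
        ext n
        show (damp n : 𝕜) * h n (x + y) = (damp n : 𝕜) * h n x + (damp n : 𝕜) * h n y
        rw [map_add]; ring
      map_smul' := fun c x => by
        ext n
        show (damp n : 𝕜) * h n (c • x) = c * ((damp n : 𝕜) * h n x)
        rw [map_smul, smul_eq_mul]; ring } 1 ?_, ?_, fun x n => rfl⟩
  · intro x
    rw [one_mul]
    exact lp.norm_le_of_forall_le (norm_nonneg x) fun n => hb x n
  · exact LinearMap.mkContinuous_norm_le _ zero_le_one _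

/-- What the weak maximizing property for `(E, ℓ_∞)` says about sequences of functionals. -/
lemma weaklyNull_of_wmp (hW : HasWMP 𝕜 E (lp (fun _ : ℕ => 𝕜) ∞)) (h : ℕ → StrongDual 𝕜 E)
    (hh : ∀ n, ‖h n‖ = 1)
    (hsmall : ∀ x : E, ‖x‖ = 1 → ∃ ρ < (1 : ℝ), ∀ᶠ n in atTop, ‖h n x‖ ≤ ρ)
    (x : ℕ → E) (hx : ∀ n, ‖x n‖ = 1) (hhx : Tendsto (fun n => ‖h n (x n)‖) atTop (𝓝 1)) :
    IsWeaklyNull 𝕜 x := by
  obtain ⟨T, hT1, hT⟩ := exists_diag h (fun n => (hh n).le)
  by_contra hcon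
  have hlow : ∀ n, damp n * ‖h n (x n)‖ ≤ ‖T (x n)‖ := by
    intro n
    have := lp.norm_apply_le_norm ENNReal.top_ne_zero (T (x n)) n
    rwa [hT, norm_mul, RCLike.norm_ofReal, abs_of_nonneg (damp_nonneg n)] at this
  have hTx : ∀ n, ‖T (x n)‖ ≤ ‖T‖ := by
    intro n
    have := T.le_opNorm (x n)
    rwa [hx n, mul_one] at this
  have hlim : Tendsto (fun n => damp n * ‖h n (x n)‖) atTop (𝓝 1) := by
    have := damp_tendsto.mul hhx
    rwa [one_mul] at this
  have hT2 : ‖T‖ = 1 := by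
    exact le_antisymm hT1 (le_of_tendsto' hlim (fun n => (hlow n).trans (hTx n)))
  have hmax : Tendsto (fun n => ‖T (x n)‖) atTop (𝓝 ‖T‖) := by
    rw [hT2]
    refine tendsto_of_tendsto_of_tendsto_of_le_of_le hlim tendsto_const_nhds hlow (fun n => ?_)
    rw [← hT2]; exact hTx n
  obtain ⟨z, hz1, hz2⟩ := hW T ⟨x, ⟨hx, hmax⟩, hcon⟩
  rw [hT2] at hz2
  obtain ⟨ρ, hρ, hev⟩ := hsmall z hz1
  obtain ⟨N, hN⟩ := eventually_atTop.1 hev
  have hρ0 : 0 ≤ ρ := (norm_nonneg _).trans (hN N le_rfl)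
  have hle : ‖T z‖ ≤ max ρ (damp N) := by
    refine lp.norm_le_of_forall_le (hρ0.trans (le_max_left _ _)) fun n => ?_
    rw [hT, norm_mul, RCLike.norm_ofReal, abs_of_nonneg (damp_nonneg n)]
    have h1 : ‖h n z‖ ≤ 1 := by
      have := (h n).le_opNorm z
      rwa [hh n, hz1, one_mul] at this
    rcases le_total N n with hn | hn
    · refine le_trans ?_ (le_max_left _ _)
      calc damp n * ‖h n z‖ ≤ 1 * ρ :=
            mul_le_mul (damp_lt_one n).le (hN n hn) (norm_nonneg _) zero_le_one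
        _ = ρ := one_mul _
    · refine le_trans ?_ (le_max_right _ _)
      calc damp n * ‖h n z‖ ≤ damp N * 1 :=
            mul_le_mul (damp_mono hn) h1 (norm_nonneg _) (damp_nonneg N)
        _ = damp N := mul_one _
  have : max ρ (damp N) < 1 := max_lt hρ (damp_lt_one N)
  linarith

/-- A functional of norm `1` is almost `1` at some unit vector. -/
lemma exists_unit (g : StrongDual 𝕜 E) (hg : ‖g‖ = 1) {ε : ℝ} (hε : 0 < ε) :
    ∃ x : E, ‖x‖ = 1 ∧ 1 - ε ≤ RCLike.re (g x) := by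
  set r : ℝ := max (1 - ε) (1 / 2) with hr
  have hr1 : r < ‖g‖ := by
    rw [hg]; exact max_lt (by linarith) (by norm_num)
  have hr0 : 0 < r := lt_of_lt_of_le (by norm_num) (le_max_right _ _)
  obtain ⟨x, hx1, hx2⟩ := ContinuousLinearMap.exists_lt_apply_of_lt_opNorm g hr1
  have hgx : g x ≠ 0 := norm_pos_iff.1 (hr0.trans hx2)
  have hx0 : x ≠ 0 := by
    rintro rfl
    exact hgx (map_zero g)
  have hxp : 0 < ‖x‖ := norm_pos_iff.2 hx0
  have hgp : 0 < ‖g x‖ := norm_pos_iff.2 hgx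
  -- the rotation making `g x` positive
  set c : 𝕜 := (‖g x‖ : 𝕜) / g x * ((‖x‖⁻¹ : ℝ) : 𝕜) with hc
  have hcn : ‖c‖ = ‖x‖⁻¹ := by
    rw [hc, norm_mul, norm_div, RCLike.norm_ofReal, abs_of_pos hgp, div_self hgp.ne',
      RCLike.norm_ofReal, abs_of_pos (by positivity), one_mul]
  refine ⟨c • x, ?_, ?_⟩
  · rw [norm_smul, hcn, inv_mul_cancel₀ hxp.ne']
  · have h1 : g (c • x) = ((‖g x‖ * ‖x‖⁻¹ : ℝ) : 𝕜) := by
      rw [map_smul, smul_eq_mul, hc]
      push_cast
      field_simp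
    rw [h1, RCLike.ofReal_re]
    have h2 : 1 ≤ ‖x‖⁻¹ := (one_le_inv₀ hxp).2 hx1.le
    have h3 : r ≤ ‖g x‖ * ‖x‖⁻¹ := by
      calc r ≤ ‖g x‖ * 1 := by rw [mul_one]; exact hx2.le
        _ ≤ ‖g x‖ * ‖x‖⁻¹ := by gcongr
    exact (le_max_left _ _).trans h3

/-- Under the weak maximizing property for `(E, ℓ_∞)` weak* null normalized sequences behave
asymptotically like the unit vectors of `c_0`. -/
lemma eventually_norm_add_le (hW : HasWMP 𝕜 E (lp (fun _ : ℕ => 𝕜) ∞)) (g : ℕ → StrongDual 𝕜 E)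
    (hg : ∀ n, ‖g n‖ = 1) (hg0 : ∀ x, Tendsto (fun n => g n x) atTop (𝓝 0))
    (f : StrongDual 𝕜 E) (c : 𝕜) {δ : ℝ} (hδ : 0 < δ) :
    ∀ᶠ n in atTop, ‖f + c • g n‖ ≤ max ‖f‖ ‖c‖ + δ := by
  by_contra hcon
  have hfr : ∃ᶠ n in atTop, max ‖f‖ ‖c‖ + δ < ‖f + c • g n‖ := by
    rw [not_eventually] at hcon
    exact hcon.mono fun n hn => not_le.1 hn
  obtain ⟨φ, hφ, hφ2⟩ := extraction_of_frequently_atTop hfr
  set M : ℝ := max ‖f‖ ‖c‖ with hM
  have hM0 : 0 ≤ M := (norm_nonneg f).trans (le_max_left _ _)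
  set a : ℕ → ℝ := fun k => ‖f + c • g (φ k)‖ with ha
  have hap : ∀ k, 0 < a k := fun k => lt_trans (by positivity) (hφ2 k)
  set h : ℕ → StrongDual 𝕜 E := fun k => (((a k)⁻¹ : ℝ) : 𝕜) • (f + c • g (φ k)) with hh
  have hh1 : ∀ k, ‖h k‖ = 1 := by
    intro k
    rw [hh]
    show ‖(((a k)⁻¹ : ℝ) : 𝕜) • (f + c • g (φ k))‖ = 1
    rw [norm_smul, RCLike.norm_ofReal, abs_of_pos (inv_pos.2 (hap k))]
    exact inv_mul_cancel₀ (hap k).ne'
  have hhn : ∀ k y, ‖h k y‖ = (a k)⁻¹ * ‖f y + c * g (φ k) y‖ := by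
    intro k y
    show ‖(((a k)⁻¹ : ℝ) : 𝕜) • (f y + c • g (φ k) y)‖ = _
    rw [norm_smul, RCLike.norm_ofReal, abs_of_pos (inv_pos.2 (hap k)), smul_eq_mul]
  have hρ : (M + δ / 2) / (M + δ) < 1 := by
    rw [div_lt_one (by positivity)]; linarith
  -- the comparison
  have hcmp : ∀ k y, ‖f y + c * g (φ k) y‖ ≤ M + δ / 2 →
      ‖h k y‖ ≤ (M + δ / 2) / (M + δ) := by
    intro k y hk
    rw [hhn, div_eq_inv_mul]
    have h2 : (a k)⁻¹ ≤ (M + δ)⁻¹ := by
      have h3 := hφ2 k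
      have h4 : 0 < M + δ := by positivity
      exact inv_anti₀ h4 h3.le
    exact mul_le_mul h2 hk (norm_nonneg _) (by positivity)
  obtain ⟨x, hx⟩ : ∃ x : ℕ → E, ∀ k, ‖x k‖ = 1 ∧ 1 - 1 / ((k : ℝ) + 1) ≤ RCLike.re (h k (x k)) :=
    ⟨fun k => (exists_unit (h k) (hh1 k) (ε := 1 / ((k : ℝ) + 1)) (by positivity)).choose,
      fun k => (exists_unit (h k) (hh1 k) (ε := 1 / ((k : ℝ) + 1)) (by positivity)).choose_spec⟩
  have hxlim : Tendsto (fun k => ‖h k (x k)‖) atTop (𝓝 1) := by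
    refine tendsto_of_tendsto_of_tendsto_of_le_of_le damp_tendsto tendsto_const_nhds
      (fun k => ?_) (fun k => ?_)
    · exact (hx k).2.trans (RCLike.re_le_norm _)
    · show ‖h k (x k)‖ ≤ 1
      have := (h k).le_opNorm (x k)
      rwa [hh1 k, (hx k).1, one_mul] at this
  have hnull : IsWeaklyNull 𝕜 x := by
    refine weaklyNull_of_wmp hW h hh1 (fun y hy => ⟨_, hρ, ?_⟩) x (fun k => (hx k).1) hxlim
    have h1 : Tendsto (fun k => ‖c * g (φ k) y‖) atTop (𝓝 0) := by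
      have := ((hg0 y).comp hφ.tendsto_atTop).const_mul c
      rw [mul_zero] at this
      simpa using this.norm
    filter_upwards [h1.eventually (gt_mem_nhds (show (0 : ℝ) < δ / 2 by linarith))] with k hk
    apply hcmp
    have h2 : ‖f y‖ ≤ M := by
      have := f.le_opNorm y
      rw [hy, mul_one] at this
      exact this.trans (le_max_left _ _)
    exact (norm_add_le _ _).trans (add_le_add h2 hk.le)
  have h1 : Tendsto (fun k => ‖f (x k)‖) atTop (𝓝 0) := by
    simpa using (hnull f).norm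
  have h2 : ∀ᶠ k in atTop, ‖h k (x k)‖ ≤ (M + δ / 2) / (M + δ) := by
    filter_upwards [h1.eventually (gt_mem_nhds (show (0 : ℝ) < δ / 2 by linarith))] with k hk
    apply hcmp
    have h3 : ‖c * g (φ k) (x k)‖ ≤ M := by
      rw [norm_mul]
      have h4 := (g (φ k)).le_opNorm (x k)
      rw [hg, (hx k).1, one_mul] at h4
      calc ‖c‖ * ‖g (φ k) (x k)‖ ≤ ‖c‖ * 1 := by gcongr
        _ = ‖c‖ := mul_one _
        _ ≤ M := le_max_right _ _
    have := (norm_add_le (f (x k)) (c * g (φ k) (x k))).trans (add_le_add hk.le h3)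
    linarith
  have := le_of_tendsto hxlim h2
  linarith

/-- A subsequence of a weak* null normalized sequence which is almost isometrically `c_0`-like. -/
lemma exists_subseq (hW : HasWMP 𝕜 E (lp (fun _ : ℕ => 𝕜) ∞)) (g : ℕ → StrongDual 𝕜 E)
    (hg : ∀ n, ‖g n‖ = 1) (hg0 : ∀ x, Tendsto (fun n => g n x) atTop (𝓝 0)) :
    ∃ (k : ℕ → StrongDual 𝕜 E), (∀ n, ‖k n‖ = 1) ∧
      ∀ (m : ℕ) (x : E), ∑ j ∈ Finset.range m, |RCLike.re (k j x)| ≤ 9 / 8 * ‖x‖ := by
  classical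
  obtain ⟨s, hs0, hs⟩ := Q98.JN.exists_seq_dep
    (σ := Finset (StrongDual 𝕜 E) × StrongDual 𝕜 E)
    (fun m p => (∀ f ∈ p.1, ‖f‖ ≤ 1 + (1 / 8) * (1 - (1 / 2) ^ m)) ∧ ‖p.2‖ = 1)
    (fun _ p q => ∀ f ∈ p.1, f + q.2 ∈ q.1 ∧ f - q.2 ∈ q.1) ({0}, g 0) (by
      refine ⟨fun f hf => ?_, hg 0⟩
      rw [Finset.mem_singleton] at hf
      rw [hf, norm_zero]; norm_num) (by
      rintro m ⟨S, k⟩ ⟨hS, -⟩
      have hδ : (0 : ℝ) < 1 / 8 * (1 / 2) ^ (m + 1) := by positivity
      have hev : ∀ᶠ n in atTop, ∀ f ∈ S, ‖f + (1 : 𝕜) • g n‖ ≤ max ‖f‖ ‖(1 : 𝕜)‖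
          + 1 / 8 * (1 / 2) ^ (m + 1) ∧ ‖f + (-1 : 𝕜) • g n‖ ≤ max ‖f‖ ‖(-1 : 𝕜)‖
          + 1 / 8 * (1 / 2) ^ (m + 1) := by
        rw [Filter.eventually_all_finset]
        intro f _
        exact (eventually_norm_add_le hW g hg hg0 f 1 hδ).and
          (eventually_norm_add_le hW g hg hg0 f (-1) hδ)
      obtain ⟨n, hn⟩ := hev.exists
      refine ⟨((S.image fun f => f + g n) ∪ (S.image fun f => f - g n), g n), ⟨?_, hg n⟩, ?_⟩
      · intro f hf
        have hbd : ∀ e ∈ S, max ‖e‖ 1 + 1 / 8 * (1 / 2) ^ (m + 1)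
            ≤ 1 + (1 / 8 : ℝ) * (1 - (1 / 2) ^ (m + 1)) := by
          intro e he
          have h1 := hS e he
          have h2 : (1 / 2 : ℝ) ^ m ≤ 1 := pow_le_one₀ (by norm_num) (by norm_num)
          have h3 : max ‖e‖ 1 ≤ 1 + (1 / 8 : ℝ) * (1 - (1 / 2) ^ m) :=
            max_le h1 (by nlinarith)
          have h4 : (1 / 2 : ℝ) ^ (m + 1) = (1 / 2) ^ m * (1 / 2) := pow_succ _ _
          rw [h4]; nlinarith
        rcases Finset.mem_union.1 hf with h | h
        · obtain ⟨e, he, rfl⟩ := Finset.mem_image.1 h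
          have := (hn e he).1
          rw [one_smul, norm_one] at this
          exact this.trans (hbd e he)
        · obtain ⟨e, he, rfl⟩ := Finset.mem_image.1 h
          have h5 := (hn e he).2
          have h6 : e - g n = e + (-1 : 𝕜) • g n := by
            rw [neg_smul (1 : 𝕜) (g n), one_smul, sub_eq_add_neg]
          rw [norm_neg, norm_one] at h5
          show ‖e - g n‖ ≤ _
          rw [h6]
          exact h5.trans (hbd e he)
      · intro f hf
        exact ⟨Finset.mem_union_left _ (Finset.mem_image_of_mem _ hf),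
          Finset.mem_union_right _ (Finset.mem_image_of_mem _ hf)⟩)
  refine ⟨fun n => (s (n + 1)).2, fun n => (hs (n + 1)).1.2, fun m x => ?_⟩
  -- the functional with the right signs
  have key : ∀ m, ∃ f ∈ (s m).1,
      RCLike.re (f x) = ∑ j ∈ Finset.range m, |RCLike.re ((s (j + 1)).2 x)| := by
    intro m
    induction m with
    | zero =>
      refine ⟨0, ?_, ?_⟩
      · rw [hs0]; exact Finset.mem_singleton_self _
      · simp
    | succ m ih =>
      obtain ⟨f, hf, hfx⟩ := ih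
      obtain ⟨h1, h2⟩ := (hs m).2 f hf
      rcases le_total 0 (RCLike.re ((s (m + 1)).2 x)) with h0 | h0
      · refine ⟨_, h1, ?_⟩
        rw [Finset.sum_range_succ, abs_of_nonneg h0, ← hfx]
        show RCLike.re (f x + (s (m + 1)).2 x) = _
        rw [map_add]
      · refine ⟨_, h2, ?_⟩
        rw [Finset.sum_range_succ, abs_of_nonpos h0, ← hfx]
        show RCLike.re (f x - (s (m + 1)).2 x) = _
        rw [map_sub]; ring
  obtain ⟨f, hf, hfx⟩ := key m
  rw [← hfx]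
  refine (RCLike.re_le_norm _).trans ((f.le_opNorm x).trans ?_)
  refine mul_le_mul_of_nonneg_right (((hs m).1.1 f hf).trans ?_) (norm_nonneg x)
  have : (0 : ℝ) < (1 / 2) ^ m := by positivity
  linarith

/-- **Theorem.** If the pair `(E, ℓ_∞)` has the weak maximizing property, then `E` is finite
dimensional. -/
theorem finiteDimensional_of_wmp [CompleteSpace E]
    (hW : HasWMP 𝕜 E (lp (fun _ : ℕ => 𝕜) ∞)) : FiniteDimensional 𝕜 E := by
  by_contra hfin
  obtain ⟨g, hg, hg0⟩ := Q98.JN.josefson_nissenzweig_rclike hfin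
  obtain ⟨k, hk, hksum⟩ := exists_subseq hW g hg hg0
  -- absolute summability
  have hre : ∀ x : E, Summable fun n => |RCLike.re (k n x)| := fun x =>
    summable_of_sum_range_le (fun _ => abs_nonneg _) (hksum · x)
  have him : ∀ x : E, Summable fun n => |RCLike.im (k n x)| := by
    intro x
    refine (hre ((RCLike.I : 𝕜) • x)).congr fun n => ?_
    rw [map_smul, smul_eq_mul, RCLike.I_mul_re, abs_neg]
  have hsum : ∀ x : E, Summable fun n => ‖k n x‖ := by
    intro x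
    refine Summable.of_nonneg_of_le (fun _ => norm_nonneg _) (fun n => ?_) ((hre x).add (him x))
    rw [← pow_le_pow_iff_left₀ (norm_nonneg _) (by positivity) two_ne_zero,
      RCLike.norm_sq_eq_def]
    nlinarith [abs_nonneg (RCLike.re (k n x)), abs_nonneg (RCLike.im (k n x)),
      abs_mul_abs_self (RCLike.re (k n x)), abs_mul_abs_self (RCLike.im (k n x)),
      mul_nonneg (abs_nonneg (RCLike.re (k n x))) (abs_nonneg (RCLike.im (k n x)))]
  have hk0 : ∀ x : E, Tendsto (fun n => ‖k n x‖) atTop (𝓝 0) := fun x =>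
    (hsum x).tendsto_atTop_zero
  -- the sum functional
  have hlim : Tendsto (fun (n : ℕ) (x : E) => (∑ j ∈ Finset.range n, k j) x) atTop
      (𝓝 fun x => ∑' j, k j x) := by
    rw [tendsto_pi_nhds]
    intro x
    have := (hsum x).of_norm.hasSum.tendsto_sum_nat
    refine this.congr fun n => ?_
    rw [_root_.sum_apply]
  set S : E →L[𝕜] 𝕜 := continuousLinearMapOfTendsto
    (fun n : ℕ => ∑ j ∈ Finset.range n, k j) hlim with hS
  have hSx : ∀ x, S x = ∑' j, k j x := fun x => rfl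
  -- the almost norming vectors
  obtain ⟨x, hx⟩ : ∃ x : ℕ → E, ∀ n, ‖x n‖ = 1 ∧ 1 - 1 / ((n : ℝ) + 1) ≤ RCLike.re (k n (x n)) :=
    ⟨fun n => (exists_unit (k n) (hk n) (ε := 1 / ((n : ℝ) + 1)) (by positivity)).choose,
      fun n => (exists_unit (k n) (hk n) (ε := 1 / ((n : ℝ) + 1)) (by positivity)).choose_spec⟩
  have hxlim : Tendsto (fun n => ‖k n (x n)‖) atTop (𝓝 1) := by
    refine tendsto_of_tendsto_of_tendsto_of_le_of_le damp_tendsto tendsto_const_nhds
      (fun n => ?_) (fun n => ?_)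
    · exact (hx n).2.trans (RCLike.re_le_norm _)
    · show ‖k n (x n)‖ ≤ 1
      have := (k n).le_opNorm (x n)
      rwa [hk n, (hx n).1, one_mul] at this
  have hnull : IsWeaklyNull 𝕜 x := by
    refine weaklyNull_of_wmp hW k hk (fun y _ => ⟨1 / 2, by norm_num, ?_⟩) x
      (fun n => (hx n).1) hxlim
    filter_upwards [(hk0 y).eventually (gt_mem_nhds (show (0 : ℝ) < 1 / 2 by norm_num))] with n hn
    exact hn.le
  have h1 : Tendsto (fun n => RCLike.re (S (x n))) atTop (𝓝 0) := by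
    have := (RCLike.continuous_re (K := 𝕜)).tendsto 0
    rw [map_zero] at this
    exact this.comp (hnull S)
  have h2 : ∀ n : ℕ, 7 / 8 - 2 * (1 / ((n : ℝ) + 1)) ≤ RCLike.re (S (x n)) := by
    intro n
    have hr : Summable fun j => RCLike.re (k j (x n)) := (hre (x n)).of_abs
    have e1 : RCLike.re (S (x n)) = ∑' j, RCLike.re (k j (x n)) := by
      rw [hSx]
      exact (RCLike.reCLM (K := 𝕜)).map_tsum (hsum (x n)).of_norm
    have e2 : ∑' j, |RCLike.re (k j (x n))| ≤ 9 / 8 := by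
      have := Real.tsum_le_of_sum_range_le (fun _ => abs_nonneg _) (hksum · (x n))
      rwa [(hx n).1, mul_one] at this
    -- re + |re| ≥ 0, with a large term at `n`
    have e3 : 2 * RCLike.re (k n (x n))
        ≤ ∑' j, (RCLike.re (k j (x n)) + |RCLike.re (k j (x n))|) := by
      have h3 : RCLike.re (k n (x n)) + |RCLike.re (k n (x n))|
          ≤ ∑' j, (RCLike.re (k j (x n)) + |RCLike.re (k j (x n))|) := by
        refine (hr.add (hre (x n))).le_tsum n fun j _ => ?_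
        linarith [neg_abs_le (RCLike.re (k j (x n)))]
      linarith [le_abs_self (RCLike.re (k n (x n)))]
    rw [hr.tsum_add (hre (x n))] at e3
    rw [e1]
    linarith [(hx n).2]
  have h3 : Tendsto (fun n : ℕ => 7 / 8 - 2 * (1 / ((n : ℝ) + 1))) atTop (𝓝 (7 / 8)) := by
    have := ((tendsto_one_div_add_atTop_nhds_zero_nat (𝕜 := ℝ)).const_mul 2).const_sub (7 / 8)
    rwa [mul_zero, sub_zero] at this
  have := le_of_tendsto_of_tendsto' h3 h1 h2
  norm_num at this

end Proof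

/-- **Theorem.** Let `𝕜` be `ℝ` or `ℂ` and let `E` be a Banach space over `𝕜`. If the pair
`(E, ℓ_∞)` has the weak maximizing property, then `E` is finite dimensional. In particular this
holds if `(E, F)` has the weak maximizing property for every Banach space `F`. -/
theorem result {𝕜 E : Type*} [RCLike 𝕜] [NormedAddCommGroup E] [NormedSpace 𝕜 E]
    [CompleteSpace E] (hW : HasWMP 𝕜 E (lp (fun _ : ℕ => 𝕜) ∞)) : FiniteDimensional 𝕜 E :=
  finiteDimensional_of_wmp hW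

end Pool.Agent.Results.MP_479f73_an.WMPForcesFiniteDimension
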