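import Pool.Agent.Q236.UL.Fix3
import Pool.Agent.Y879.GL.QuadU
import Pool.Agent.Q236.JC.Sys

set_option autoImplicit false

/-!
# The clusters of almost primes `n ^ 2 + 1` of different shapes are independent

A system is a finite set `S` of polynomials; `m` is good for `S` if no `f (m)`, `f ∈ S`, has a prime factor
`≤ X ^ (1 / r)`. Let `S_1, …, S_s` be ANY admissible systems no two of which are translates of each other: they may
have common polynomials, one may be contained in another one, they may have different sizes (so that the good numbers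
live on different scales), for example `S_i = {(x + h) ^ 2 + 1 : h ∈ H_i}` for different finite sets `H_i` of
natural numbers containing `0` (the clusters of shape `H_i` of almost primes `n ^ 2 + 1`). Then, as `n` runs over any
interval `(Z, Z + Y]`, `Y ≥ X ^ θ`, the numbers of good numbers of the different systems in finitely many windows
`(n + u_t, n + v_t]`, each of a length of the order of the mean distance of its own system, are asymptotically
independent Poisson variables.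

Method: the abstract joint Poisson law for sieve conditions of several types `Pool.Agent.Q236.UL`, with finitely many
exceptional differences at which two systems have a common polynomial; there the union of the two systems has more
elements than the smaller one of them, so that these pairs do not matter (Mertens' theorem for polynomials).
-/

namespace Pool.Agent.Results.MP_484c84_nt.IndependentClusters

open Finset Filter Polynomial

/-- The number `ω_S(p)` of the residues `n` modulo `p` for which `p` divides the product of the `f (n)`, `f ∈ S`. -/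
def ω (S : Finset ℤ[X]) (p : ℕ) : ℕ :=
  ((Finset.range p).filter (fun n : ℕ => (p : ℤ) ∣ ∏ f ∈ S, f.eval (n : ℤ))).card

/-- The product of `1 - ω_S(p) / p` over the primes `p ≤ y`. -/
noncomputable def W (y : ℝ) (S : Finset ℤ[X]) : ℝ :=
  ∏ p ∈ (Finset.Icc 1 ⌊y⌋₊).filter Nat.Prime, (1 - (ω S p : ℝ) / p)

/-- A nonempty set of at most `k` irreducible polynomials of degrees between `1` and `D` with positive leading
coefficients, without fixed prime divisor. -/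
structure Admissible (k D : ℕ) (S : Finset ℤ[X]) : Prop where
  nonempty : S.Nonempty
  card : S.card ≤ k
  irr : ∀ f ∈ S, Irreducible f
  deg : ∀ f ∈ S, 0 < f.natDegree ∧ f.natDegree ≤ D
  lead : ∀ f ∈ S, 0 < f.leadingCoeff
  adm : ∀ p : ℕ, p.Prime → ω S p < p

/-- The set of the polynomials `f (x + h)`, `f ∈ S`. -/
noncomputable def translate (h : ℕ) (S : Finset ℤ[X]) : Finset ℤ[X] := S.image (fun f => f.comp (X + C (h : ℤ)))

/-- No prime `p ≤ X ^ (1 / r)` divides any of the `f (m)`, `f ∈ S`. -/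
def Good (X : ℕ) (S : Finset ℤ[X]) (r m : ℕ) : Prop :=
  ∀ p : ℕ, p.Prime → (p : ℝ) ≤ (X : ℝ) ^ (1 / (r : ℝ)) → ∀ f ∈ S, ¬ (p : ℤ) ∣ f.eval (m : ℤ)

open Classical in
/-- The number of the good `m` with `n + u < m ≤ n + v`. -/
noncomputable def count (X : ℕ) (S : Finset ℤ[X]) (r u v n : ℕ) : ℕ :=
  ((Finset.Ioc (n + u) (n + v)).filter (fun m => Good X S r m)).card

/-- The probability of `A` for independent Poisson variables with the means `x_t`. -/
noncomputable def poisson {m : ℕ} (x : Fin m → ℝ) (A : Finset (Fin m → ℕ)) : ℝ :=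
  ∑ j ∈ A, ∏ t, (Real.exp (-x t) * x t ^ j t / (j t).factorial)

/-- For all `n` in `(Z, Z + Y]` but an `ε`-part, the counts in the windows have the law of independent Poisson
variables: for all finite sets `A` of values, the number of `n` is `Y · poisson + O* (ε Y)`. The `t`-th window belongs
to the system `σ t`; windows of the same system are disjoint. -/
def Law {s m : ℕ} (X r : ℕ) (S : Fin s → Finset ℤ[X]) (Λ ε : ℝ) (Z Y : ℕ) : Prop :=
  ∀ (σ : Fin m → Fin s) (u v : Fin m → ℕ), (∀ t, u t ≤ v t) →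
    (∀ t, v t * W ((X : ℝ) ^ (1 / (r : ℝ))) (S (σ t)) ≤ Λ) →
    (∀ t t', t ≠ t' → σ t = σ t' → v t ≤ u t' ∨ v t' ≤ u t) →
    ∀ A : Finset (Fin m → ℕ),
      |(((Finset.Ioc Z (Z + Y)).filter (fun n => (fun t => count X (S (σ t)) r (u t) (v t) n) ∈ A)).card : ℝ) -
        Y * poisson (fun t => ((v t : ℝ) - u t) * W ((X : ℝ) ^ (1 / (r : ℝ))) (S (σ t))) A| ≤ ε * Y

/-- The polynomials `(x + h) ^ 2 + 1`, `h ∈ H`. -/
noncomputable def cluster (H : Finset ℕ) : Finset ℤ[X] := H.image (fun h : ℕ => (X + C (h : ℤ)) ^ 2 + 1)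

open Pool.Agent.W123.RU Pool.Agent.H373R2.T7 Pool.Agent.TH464.PO Pool.Agent.W123.RP Pool.Agent.Q236.GW
open Pool.Agent.Y879.GL Pool.Agent.Q236.EV Pool.Agent.Q236.UL

lemma QS_iff' (S : Finset ℤ[X]) (p m : ℕ) (hp : p.Prime) :
    QS S p m ↔ (p : ℤ) ∣ ∏ f ∈ S, f.eval (m : ℤ) := by
  have hpi : Prime (p : ℤ) := Nat.prime_iff_prime_int.1 hp
  rw [QS_iff, hpi.dvd_finsetProd_iff]

lemma nu_eq (S : Finset ℤ[X]) (p : ℕ) (hp : p.Prime) : nuB (QS S) p = ω S p := by
  unfold nuB ω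
  exact card_iff _ _ (fun m _ => QS_iff' S p m hp)

lemma W_eq (y : ℝ) (S : Finset ℤ[X]) : Vq (QS S) ⌊y⌋₊ = W y S := by
  unfold Vq W
  have h1 : pz ⌊y⌋₊ = (Finset.Icc 1 ⌊y⌋₊).filter Nat.Prime := by
    ext p
    rw [mem_pz, Finset.mem_filter, Finset.mem_Icc]
    exact ⟨fun h => ⟨⟨h.2.one_lt.le, h.1⟩, h.2⟩, fun h => ⟨h.1.2, h.2⟩⟩
  rw [h1]
  apply Finset.prod_congr rfl
  intro p hp
  rw [nu_eq S p (Finset.mem_filter.1 hp).2]

lemma W_eq' (y : ℕ) (S : Finset ℤ[X]) : Vq (QS S) y = W y S := by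
  rw [← W_eq, Nat.floor_natCast]

lemma good_iff (X : ℕ) (S : Finset ℤ[X]) (r m : ℕ) :
    Sf (QS S) ⌊(X : ℝ) ^ (1 / (r : ℝ))⌋₊ m ↔ Good X S r m := by
  have h0 : (0 : ℝ) ≤ (X : ℝ) ^ (1 / (r : ℝ)) := by positivity
  constructor
  · intro h q hq hqn f hf hd
    exact h q (mem_pz.2 ⟨Nat.le_floor hqn, hq⟩) ((QS_iff S q m).2 ⟨f, hf, hd⟩)
  · intro h q hq hQ
    obtain ⟨f, hf, hd⟩ := (QS_iff S q m).1 hQ
    exact h q (mem_pz.1 hq).2 (mem_pz' h0 hq) f hf hd

lemma count_eq (X : ℕ) (S : Finset ℤ[X]) (r u v n : ℕ) :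
    Pool.Agent.Q236.CP.NB (QS S) ⌊(X : ℝ) ^ (1 / (r : ℝ))⌋₊ (Ioc u v) n = count X S r u v n := by
  classical
  unfold Pool.Agent.Q236.CP.NB count
  apply Finset.card_bij (fun b _ => n + b)
  · intro b hb
    rw [Finset.mem_filter, Finset.mem_Ioc] at hb ⊢
    exact ⟨by omega, (good_iff X S r _).1 hb.2⟩
  · intro a _ b _ hab
    omega
  · intro b hb
    rw [Finset.mem_filter, Finset.mem_Ioc] at hb
    have e : n + (b - n) = b := by omega
    refine ⟨b - n, ?_, e⟩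
    rw [Finset.mem_filter, Finset.mem_Ioc, e]
    exact ⟨by omega, (good_iff X S r _).2 hb.2⟩

lemma toAS {k D : ℕ} {S : Finset ℤ[X]} (h : Admissible k D S) : AS k D S where
  ps := ⟨h.irr, fun f hf => (h.deg f hf).1, h.lead⟩
  ne := h.nonempty
  card := h.card
  degD f hf := (h.deg f hf).2
  adm p hp := by
    obtain ⟨m, _, hm⟩ := nu_exists (QS S) p (by rw [nu_eq S p hp]; exact h.adm p hp)
    exact ⟨m, fun f hf hd => hm ((QS_iff S p m).2 ⟨f, hf, hd⟩)⟩

lemma few (X r K m : ℕ) (hr : 1 ≤ r) (hX : 2 ^ r ≤ X) (hm : 0 < m) (hmX : m ≤ X ^ K)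
    (h : ∀ p : ℕ, p.Prime → p ∣ m → (X : ℝ) ^ (1 / (r : ℝ)) < (p : ℝ)) :
    m.primeFactorsList.length ≤ K * r := by
  have hr0 : (r : ℝ) ≠ 0 := by exact_mod_cast (by omega : r ≠ 0)
  have hX1 : (1 : ℝ) ≤ X := by
    have : 1 ≤ 2 ^ r := Nat.one_le_two_pow
    exact_mod_cast this.trans hX
  have hz1 : 1 ≤ (X : ℝ) ^ (1 / (r : ℝ)) := Real.one_le_rpow hX1 (by positivity)
  apply length_le m (K * r) (by omega) _ h _ hz1
  have e : ((X : ℝ) ^ (1 / (r : ℝ))) ^ r = X := by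
    rw [← Real.rpow_natCast, ← Real.rpow_mul (by linarith), one_div, inv_mul_cancel₀ hr0, Real.rpow_one]
  have hmX' : (m : ℝ) ≤ (X : ℝ) ^ K := by exact_mod_cast hmX
  rw [pow_succ, mul_comm K r, pow_mul, e]
  have h0 : (0 : ℝ) ≤ (X : ℝ) ^ K := by positivity
  nlinarith

lemma law_of {s m : ℕ} (X r : ℕ) (S : Fin s → Finset ℤ[X]) (Λ ε : ℝ) (Z Y : ℕ)
    (h : ∀ (σ : Fin m → Fin s) (u v : Fin m → ℕ), (∀ t, u t ≤ v t) →
      (∀ t, v t * Vq (QS (S (σ t))) ⌊(X : ℝ) ^ (1 / (r : ℝ))⌋₊ ≤ Λ) →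
      (∀ s t, s ≠ t → σ s = σ t → Disjoint (Ioc (u s) (v s)) (Ioc (u t) (v t))) →
      ∀ A : Finset (Fin m → ℕ), |(((Ioc Z (Z + Y)).filter (fun n => (fun t => Pool.Agent.Q236.CP.NB (QS (S (σ t)))
          ⌊(X : ℝ) ^ (1 / (r : ℝ))⌋₊ (Ioc (u t) (v t)) n) ∈ A)).card : ℝ) -
        Y * PoJ (fun t => ((v t : ℝ) - u t) * Vq (QS (S (σ t))) ⌊(X : ℝ) ^ (1 / (r : ℝ))⌋₊) A| ≤ ε * Y) :
    Law (m := m) X r S Λ ε Z Y := by
  intro σ u v huv hv hdis A
  have h1 := h σ u v huv (fun t => by rw [W_eq]; exact hv t) (fun t t' hne he => by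
    rw [Finset.disjoint_left]
    intro b hb hb'
    rw [Finset.mem_Ioc] at hb hb'
    rcases hdis t t' hne he with h2 | h2 <;> omega) A
  simp only [W_eq, count_eq] at h1
  exact h1

lemma sq_irr : Irreducible (X ^ 2 + 1 : ℤ[X]) := by
  have h := (qs_sys 1 0 1 one_pos (fun p hp hd => hp.one_lt.ne' (by
    have := hd.1
    exact Nat.dvd_one.1 (by exact_mod_cast this))) (by
    rintro ⟨h1, h2⟩
    exact absurd h1 (by decide)) (by
    rintro ⟨s, hs⟩
    nlinarith [mul_self_nonneg s])).irr 0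
  have e : qs 1 0 1 0 = (X ^ 2 + 1 : ℤ[X]) := by
    unfold qs Pool.Agent.TH464.PW.quad
    simp
  rwa [e] at h

lemma sq_deg : (X ^ 2 + 1 : ℤ[X]).natDegree = 2 := by
  have : (X ^ 2 + 1 : ℤ[X]) = X ^ 2 + C 1 := by simp
  rw [this, natDegree_X_pow_add_C]

lemma sq_lead : (X ^ 2 + 1 : ℤ[X]).leadingCoeff = 1 := by
  have : (X ^ 2 + 1 : ℤ[X]) = X ^ 2 + C 1 := by simp
  rw [this]
  exact leadingCoeff_X_pow_add_C (by norm_num)

lemma sq_comp (h : ℤ) : (X ^ 2 + 1 : ℤ[X]).comp (X + C h) = (X + C h) ^ 2 + 1 := by simp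

lemma sq_inj (a b : ℤ) (ha : 0 ≤ a) (hb : 0 ≤ b) (h : ((X + C a) ^ 2 + 1 : ℤ[X]) = (X + C b) ^ 2 + 1) : a = b := by
  have e0 := congrArg (eval 0) h
  simp only [eval_add, eval_pow, eval_X, eval_C, eval_one, zero_add] at e0
  have : a ^ 2 = b ^ 2 := by linarith
  exact (pow_left_inj₀ ha hb (by norm_num)).1 this

lemma cluster_as {k : ℕ} {H : Finset ℕ} (h0 : 0 ∈ H) (hk : H.card ≤ k)
    (hadm : ∀ p : ℕ, p.Prime → ∃ n : ℕ, ∀ h ∈ H, ¬ p ∣ (n + h) ^ 2 + 1) : AS k 2 (cluster H) where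
  ps := by
    refine ⟨?_, ?_, ?_⟩
    · intro f hf
      unfold cluster at hf
      rw [mem_image] at hf
      obtain ⟨h, _, rfl⟩ := hf
      rw [← sq_comp]
      exact irr_shift _ sq_irr _
    · intro f hf
      unfold cluster at hf
      rw [mem_image] at hf
      obtain ⟨h, _, rfl⟩ := hf
      rw [← sq_comp, deg_shift, sq_deg]
      norm_num
    · intro f hf
      unfold cluster at hf
      rw [mem_image] at hf
      obtain ⟨h, _, rfl⟩ := hf
      rw [← sq_comp, Pool.Agent.W149.CS.comp_lc, sq_lead]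
      norm_num
  ne := ⟨_, mem_image_of_mem _ h0⟩
  card := card_image_le.trans hk
  degD f hf := by
    unfold cluster at hf
    rw [mem_image] at hf
    obtain ⟨h, _, rfl⟩ := hf
    rw [← sq_comp, deg_shift, sq_deg]
  adm p hp := by
    obtain ⟨n, hn⟩ := hadm p hp
    refine ⟨n, ?_⟩
    intro f hf hd
    unfold cluster at hf
    rw [mem_image] at hf
    obtain ⟨h, hh, rfl⟩ := hf
    apply hn h hh
    simp only [eval_add, eval_pow, eval_X, eval_C, eval_one] at hd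
    exact_mod_cast hd

lemma cluster_ne {H H' : Finset ℕ} (h0 : 0 ∈ H) (hne : H ≠ H') (h : ℕ) :
    cluster H ≠ sh (h : ℤ) (cluster H') := by
  intro he
  have h1 : ((X + C ((0 : ℕ) : ℤ)) ^ 2 + 1 : ℤ[X]) ∈ cluster H := mem_image_of_mem _ h0
  rw [he] at h1
  unfold sh cluster at h1
  rw [mem_image] at h1
  obtain ⟨g, hg, hge⟩ := h1
  rw [mem_image] at hg
  obtain ⟨a, ha, rfl⟩ := hg
  have e : ((X + C (a : ℤ)) ^ 2 + 1 : ℤ[X]).comp (X + C (h : ℤ)) = (X + C ((h + a : ℕ) : ℤ)) ^ 2 + 1 := by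
    simp [add_assoc]
  rw [e] at hge
  have h2 := sq_inj _ _ (by positivity) (by positivity) hge
  have h3 : h = 0 := by
    have : h + a = 0 := by exact_mod_cast h2
    omega
  rw [h3] at he
  have h4 : sh ((0 : ℕ) : ℤ) (cluster H') = cluster H' := by
    unfold sh
    simp
  rw [h4] at he
  apply hne
  have hinj : Function.Injective (fun h : ℕ => ((X + C (h : ℤ)) ^ 2 + 1 : ℤ[X])) := by
    intro a b hab
    exact_mod_cast sq_inj _ _ (by positivity) (by positivity) hab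
  exact Finset.image_injective hinj he

/-- **The clusters of almost primes of different shapes are independent.** -/
theorem result (k D s m : ℕ) (Λ ε θ : ℝ) (hΛ : 0 ≤ Λ) (hε : 0 < ε) (hθ : 0 < θ) :
    (∀ S : Finset ℤ[X], Admissible k D S → ∃ c C : ℝ, 0 < c ∧ 0 < C ∧ ∀ y : ℕ, 3 ≤ y →
      c / Real.log y ^ S.card ≤ W y S ∧ W y S ≤ C / Real.log y ^ S.card) ∧
    (∀ (X r K : ℕ) (S : Finset ℤ[X]) (m : ℕ), 1 ≤ r → 2 ^ r ≤ X → Good X S r m →
      ∀ f ∈ S, 0 < (f.eval (m : ℤ)).natAbs → (f.eval (m : ℤ)).natAbs ≤ X ^ K →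
        (f.eval (m : ℤ)).natAbs.primeFactorsList.length ≤ K * r) ∧
    (∃ r₀ : ℕ, 2 ≤ r₀ ∧ ∀ r : ℕ, r₀ ≤ r → ∀ S : Fin s → Finset ℤ[X], (∀ i, Admissible k D (S i)) →
      (∀ i j, i ≠ j → ∀ h : ℕ, S i ≠ translate h (S j)) →
        ∀ᶠ X : ℕ in atTop, ∀ Z Y : ℕ, (X : ℝ) ^ θ ≤ Y → Law (m := m) X r S Λ ε Z Y) ∧
    (∃ r₀ : ℕ, 2 ≤ r₀ ∧ ∀ r : ℕ, r₀ ≤ r → ∀ H : Fin s → Finset ℕ, (∀ i, 0 ∈ H i) → (∀ i, (H i).card ≤ k) →
      (∀ i, ∀ p : ℕ, p.Prime → ∃ n : ℕ, ∀ h ∈ H i, ¬ p ∣ (n + h) ^ 2 + 1) → Function.Injective H →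
        ∀ᶠ X : ℕ in atTop, ∀ Z Y : ℕ, (X : ℝ) ^ θ ≤ Y → Law (m := m) X r (fun i => cluster (H i)) Λ ε Z Y) := by
  refine ⟨?_, ?_, ?_, ?_⟩
  · intro S hS
    obtain ⟨v, Cv, hv, hCv, hV⟩ := as_V (toAS hS)
    refine ⟨v, Cv, hv, hCv, fun y hy => ?_⟩
    have h1 := hV y hy
    rwa [W_eq'] at h1
  · intro X r K S m hr hX hG f hf h1 h2
    apply few X r K _ hr hX h1 h2
    intro p hp hd
    by_contra hcon
    rw [not_lt] at hcon
    exact hG p hp hcon f hf (Int.natCast_dvd.2 hd)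
  · obtain ⟨r₀, hr₀, h⟩ := fix_law (τ := Fin m) k D Λ ε hΛ hε θ hθ
    refine ⟨r₀, hr₀, ?_⟩
    intro r hr S hS hne
    filter_upwards [h r hr (Fin s) S (fun i => toAS (hS i)) hne] with X hX
    intro Z Y hY
    exact law_of X r S Λ ε Z Y (hX Z Y hY)
  · obtain ⟨r₀, hr₀, h⟩ := fix_law (τ := Fin m) k 2 Λ ε hΛ hε θ hθ
    refine ⟨r₀, hr₀, ?_⟩
    intro r hr H h0 hk hadm hinj
    filter_upwards [h r hr (Fin s) (fun i => cluster (H i)) (fun i => cluster_as (h0 i) (hk i) (hadm i))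
      (fun i j hij => cluster_ne (h0 i) (hinj.ne hij))] with X hX
    intro Z Y hY
    exact law_of X r _ Λ ε Z Y (hX Z Y hY)

end Pool.Agent.Results.MP_484c84_nt.IndependentClusters
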