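import Pool.Agent.Q236.GW.Pair
import Pool.Agent.TH977.PW.Inst

set_option autoImplicit false

/-!
# Regular neighbourhoods of the primes of the form `n ^ 2 + 1`

Let `R r` be the set of the `n` for which all prime factors of `n ^ 2 + 1` are larger than
`n ^ (1 / r)`; it contains the set `P` of all `n` for which `n ^ 2 + 1` is prime. In every short interval
`(X, X + Y]`, `Y ≥ X ^ θ`, there are at least `κ Y / log X` integers `n` in `R r` for which `n ^ 2 + 1`
has at most `r` prime factors. Let `A` be an ARBITRARY subset of `R r` (for example `P`). In every short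
interval `(X, X + Y]`, `X ^ θ ≤ Y ≤ X / 2`, all but `ε Y / log X` of the elements of `A` are regular
points of `A`: the elements of `A` in ALL intervals of length between `log X / c` and `Y` around them have
the right order, and constant density up to `δ` at all but `B (ε, δ)` dyadic scales.
-/

namespace Pool.Agent.Results.MP_484c84_nt.RegularNeighbourhoods

open Finset Filter

/-- All prime factors of `n ^ 2 + 1` are larger than `n ^ (1 / r)`. -/
def R (r : ℕ) : Set ℕ :=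
  {n | ∀ p : ℕ, p.Prime → p ∣ n ^ 2 + 1 → (n : ℝ) ^ (1 / (r : ℝ)) < (p : ℝ)}

open Classical in
/-- the number of the elements of `A` in `(a, b]` -/
noncomputable def N (A : Set ℕ) (a b : ℕ) : ℕ := ((Finset.Ioc a b).filter (fun n => n ∈ A)).card

/-- All intervals `(n - s, n + t]` with `s, t ≤ Y` of length at least `log X / c` contain the
right order of elements of `A`. -/
def RightOrder (A : Set ℕ) (c : ℝ) (X Y n : ℕ) : Prop :=
  ∀ s t : ℕ, s ≤ Y → t ≤ Y → Real.log X ≤ c * (s + t) →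
    c * (s + t) / Real.log X ≤ N A (n - s) (n + t) ∧
      (N A (n - s) (n + t) : ℝ) ≤ (s + t) / (c * Real.log X)

/-- Up to `δ`, `A` has a constant density on both sides of `n` up to the distance `2 ^ j`. -/
def ConstantDensity (A : Set ℕ) (c δ : ℝ) (X n j : ℕ) : Prop :=
  ∃ lam : ℝ, c ≤ lam ∧ lam ≤ 1 / c ∧ ∀ s t : ℕ, s ≤ 2 ^ j → t ≤ 2 ^ j →
    |(N A (n - s) (n + t) : ℝ) - lam * (s + t) / Real.log X| ≤ δ * 2 ^ j / Real.log X

open Classical in
/-- The number of the scales `log X ≤ 2 ^ j ≤ Y` without this property. -/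
noncomputable def badScales (A : Set ℕ) (c δ : ℝ) (X Y n : ℕ) : ℕ :=
  ((Finset.range (Nat.log 2 Y + 1)).filter (fun j => Real.log X ≤ (2 : ℝ) ^ j ∧
    ¬ ConstantDensity A c δ X n j)).card

/-- The elements of `A` that are not regular points of `A`. -/
def Irregular (A : Set ℕ) (c δ : ℝ) (B X Y : ℕ) : Set ℕ :=
  {n | n ∈ A ∧ ¬ (RightOrder A c X Y n ∧ badScales A c δ X Y n ≤ B)}

lemma CD_iff (A : Set ℕ) (c δ : ℝ) (X n j : ℕ) :
    ConstantDensity A c δ X n j ↔ Pool.Agent.TH977.PW.ConstantDensity A 1 c δ X n j := by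
  unfold ConstantDensity Pool.Agent.TH977.PW.ConstantDensity
  simp only [pow_one]
  rfl

lemma RO_iff (A : Set ℕ) (c : ℝ) (X Y n : ℕ) :
    RightOrder A c X Y n ↔ Pool.Agent.TH977.PW.RightOrder A 1 c X Y n := by
  unfold RightOrder Pool.Agent.TH977.PW.RightOrder
  simp only [pow_one]
  rfl

lemma bad_eq (A : Set ℕ) (c δ : ℝ) (X Y n : ℕ) :
    badScales A c δ X Y n = Pool.Agent.TH977.PW.badScales A 1 c δ X Y n := by
  unfold badScales Pool.Agent.TH977.PW.badScales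
  apply Pool.Agent.Q236.GW.card_iff
  intro j _
  rw [CD_iff, pow_one]

lemma Irr_eq (A : Set ℕ) (c δ : ℝ) (B X Y : ℕ) :
    Irregular A c δ B X Y = Pool.Agent.TH977.PW.Irregular A 1 c δ B X Y := by
  unfold Irregular Pool.Agent.TH977.PW.Irregular
  simp only [RO_iff, bad_eq]

open Pool.Agent.TH464.PO Pool.Agent.TH464.PW Pool.Agent.Q236.GW

lemma sys1 : Pool.Agent.W123.RU.Poly.Sys (qs 1 0 1) :=
  qs_sys 1 0 1 one_pos (hg 0 1) (by decide) (hD 1 one_pos)

lemma qs_eval (i : Fin 1) (n : ℕ) : (qs 1 0 1 i).eval (n : ℤ) = ((n ^ 2 + 1 : ℕ) : ℤ) := by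
  unfold qs
  rw [quad_eval]
  push_cast
  ring

/-- **Regular neighbourhoods of the primes of the form `n ^ 2 + 1`.** -/
theorem result (θ : ℝ) (hθ : 0 < θ) (hθ1 : θ ≤ 1) :
    ∃ r₀ : ℕ, 2 ≤ r₀ ∧ ∀ r : ℕ, r₀ ≤ r →
      (∀ n : ℕ, 1 ≤ n → (n ^ 2 + 1).Prime → n ∈ R r) ∧
      (∃ κ : ℝ, 0 < κ ∧ ∀ᶠ X : ℕ in atTop, ∀ Y : ℕ, (X : ℝ) ^ θ ≤ Y → Y ≤ X →
        κ * Y / Real.log X ≤ N {n | n ∈ R r ∧ (n ^ 2 + 1).primeFactorsList.length ≤ r} X (X + Y)) ∧
      ∀ ε : ℝ, 0 < ε → ∃ c : ℝ, 0 < c ∧ ∀ δ : ℝ, 0 < δ → ∃ B : ℕ,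
        ∀ᶠ X : ℕ in atTop, ∀ Y : ℕ, (X : ℝ) ^ θ ≤ Y → 2 * Y ≤ X → ∀ A : Set ℕ, A ⊆ R r →
          (N (Irregular A c δ B X Y) X (X + Y) : ℝ) ≤ ε * Y / Real.log X := by
  obtain ⟨r0, hr0, h⟩ := Pool.Agent.TH977.PW.final (qs 1 0 1) sys1 (fun r => R r)
    (fun r => {n | n ∈ R r ∧ (n ^ 2 + 1).primeFactorsList.length ≤ r}) 1 (Fintype.card_fin 1)
    (fun r n _ hn i p hp hd => hn p hp (by
      rw [qs_eval] at hd
      exact Int.natCast_dvd_natCast.1 hd))
    (fun r n _ h1 h2 => by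
      refine ⟨fun p hp hd => h1 0 p hp ?_, ?_⟩
      · rw [qs_eval]
        exact Int.natCast_dvd_natCast.2 hd
      · have := h2 0
        rw [qs_eval, Int.natAbs_natCast] at this
        exact this) θ hθ hθ1
  simp only [pow_one] at h
  refine ⟨r0, hr0, fun r hr => ⟨?_, (h r hr).1, ?_⟩⟩
  · intro n hn h1 p hp hd
    have hp2 : n < p := by
      rw [(Nat.prime_dvd_prime_iff_eq hp h1).1 hd]
      nlinarith
    have hr1 : (1 : ℝ) ≤ r := by exact_mod_cast (by omega : 1 ≤ r)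
    have hm1 : (1 : ℝ) ≤ n := by exact_mod_cast hn
    calc (n : ℝ) ^ (1 / (r : ℝ)) ≤ (n : ℝ) ^ (1 : ℝ) :=
          Real.rpow_le_rpow_of_exponent_le hm1 (by rw [div_le_one (by linarith)]; exact hr1)
      _ = n := Real.rpow_one _
      _ < p := by exact_mod_cast hp2
  · intro ε hε
    obtain ⟨c, hc, h2⟩ := (h r hr).2 ε hε
    refine ⟨c, hc, fun δ hδ => ?_⟩
    obtain ⟨B, h3⟩ := h2 δ hδ
    refine ⟨B, ?_⟩
    filter_upwards [h3] with X hX
    intro Y hXY hYX A hA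
    rw [Irr_eq]
    exact hX Y hXY hYX A hA

end Pool.Agent.Results.MP_484c84_nt.RegularNeighbourhoods
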