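import Mathlib
import Pool.Agent.Q290.FF.Cyc
import Pool.Agent.Q56.SG.EllDefs

/-!
# The conjecture of Birch and Swinnerton-Dyer for orders at most three: reduction to cyclic fields

`E` is an elliptic curve over a global function field `K` of characteristic at least `5` with
non-constant `j`-invariant, `L / K` is a finite Galois extension with group `G`, and
`Pool.Agent.Q56.SG.pointRep E L ℚ` is the representation of `G` on the Mordell-Weil group
`ℚ ⊗ E(L)`, which is finite dimensional (Mordell-Weil).

`Pool.Agent.Q290.FF.Coh (pointRep E L ℚ)` is the cohomology of `E` over `L` with its known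
properties: the vector space `V` with the commuting actions of `G` and of Frobenius, the rationality
of the traces of `g ∘ F ^ n` (Grothendieck), the symmetric form, and the Kummer map, which
transforms the form into the rational valued height pairing. `C.wRep` is the representation of `G`
on the generalised eigenspace of Frobenius for the eigenvalue `1`; the multiplicity of `χ` in it is
the order of `L(E, χ, s)` at `s = 1`. `C.ord H` is the order of `L(E / L ^ H, s)` at `s = 1`, and
`C.defect H` is this order minus the rank of `E(L ^ H)`.

For a quadratic (or trivial) character `φ` of a subgroup `H`, `qrk ρ H φ` is the dimension of the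
space of the vectors on which `H` acts through `φ`. So `qrk C.wRep H φ` is the order at `s = 1` of
the L-function of the quadratic twist of `E` by `φ` over `L ^ H`, and `qrk (pointRep E L ℚ) H φ` is
the rank of this twist over `L ^ H`. `C.Known` says that they are equal if the order is at most one;
this is a known theorem (Tate, Milne, Gross-Zagier formula over function fields, see Ulmer), since
the twists of `E` over the fields `L ^ H` are elliptic curves with non-constant `j`-invariant.

`C.Full` says that `C.wRep` and the Mordell-Weil representation have the same character (so the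
order of `L(E, χ, s)` is the multiplicity of `χ` in `ℂ ⊗ E(L)` for all `χ`), that the order is the
rank over all fields between `K` and `L`, and for all quadratic twists of `E` over these fields.
-/

set_option autoImplicit false
set_option linter.unusedSectionVars false

open Pool.Agent.H302R2 Pool.Agent.H302R3 Pool.Agent.H541R3.ART Pool.Agent.W446.AS
  Pool.Agent.Q7.TZ Pool.Agent.Q7.SZ Pool.Agent.Q7.GR Pool.Agent.Q290.Schur Pool.Agent.Q290.FF
  Pool.Agent.Q56.SG WeierstrassCurve TensorProduct

/-- Suppose that the order of `L(E / L, s)` at `s = 1` is at most three. Then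

* for the irreducible characters `χ` of degree at least two, the order of `L(E, χ, s)` at `s = 1` is
  the multiplicity of `χ` in `ℂ ⊗ E(L)`;
* there is a cyclic extension of `K` in `L`, of degree `1, 2, 3, 4` or `6`, the fixed field of `N`,
  such that the defect over `L ^ H` is the defect over the intersection with this field; if the
  order is the rank over this cyclic field, then the full statement is true;
* if no quadratic twist of `E` over `K` by a character of `G` has order greater than one at `s = 1`,
  and no `L(E, μ, s)` vanishes at `s = 1` for `μ` a linear character of `G` of order greater than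
  two, then the full statement is true. -/
theorem Pool.Agent.Results.MP_48b749_nt.CyclicReduction.result
    {K L : Type} [Field K] [Field L] [Algebra K L] [FiniteDimensional K L] [IsGalois K L]
    [DecidableEq L] (E : WeierstrassCurve K) [E.IsElliptic]
    [FiniteDimensional ℚ (ℚ ⊗[ℤ] Affine.Point (Affine.baseChange E L))]
    (C : Coh (pointRep E L ℚ)) (hord : C.ord ⊥ ≤ 3) (hknown : C.Known) :
    (∀ χ ∈ Irr (L ≃ₐ[K] L), χ 1 ≠ 1 →
      ∑ᶠ g : L ≃ₐ[K] L, C.wRep.character g * χ g⁻¹ =
        ∑ᶠ g : L ≃ₐ[K] L, ((LinearMap.trace ℚ _ (pointRep E L ℚ g) : ℚ) : ℂ) * χ g⁻¹) ∧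
    (∃ N : Subgroup (L ≃ₐ[K] L), ∃ _ : N.Normal, IsCyclic ((L ≃ₐ[K] L) ⧸ N) ∧
      N.index ∈ ({1, 2, 3, 4, 6} : Finset ℕ) ∧
      (∀ H : Subgroup (L ≃ₐ[K] L), C.defect H = C.defect (H ⊔ N)) ∧
      (C.defect N = 0 → C.Full)) ∧
    ((∀ φ : (⊤ : Subgroup (L ≃ₐ[K] L)) →* ℤˣ, qrk C.wRep ⊤ φ ≤ 1) →
      (∀ μ : (L ≃ₐ[K] L) →* ℂˣ, μ * μ ≠ 1 →
        ∑ᶠ g : L ≃ₐ[K] L, C.wRep.character g * (((μ g)⁻¹ : ℂˣ) : ℂ) = 0) → C.Full) :=
  Coh.cyclic hknown hord
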