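import Pool.Agent.Q269.GR.Fin
import Pool.Agent.Q269.GR.Asm

/-!
# Rank zero and the conjecture of Birch and Swinnerton-Dyer over `k'(t)` for all the extensions `k'` of odd
# degree at the same time, for a positive proportion of the non-split twists of an elliptic curve

Let `k` be a finite field of characteristic different from 2 in which `-1` is a square, `K = k(t)`, and let `a`, `b` be
coprime polynomials over `k`, `a`, `b`, `a - b` of the same degree `N`, such that `a b`, `a (a - b)`, `b (a - b)` are not
constants times squares. For a monic squarefree polynomial `D` let `E_D` be the quadratic twist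
`y ^ 2 = x (x - a D) (x - b D)` of the elliptic curve `E : y ^ 2 = x (x - a) (x - b)` over `K`. We consider the `D` of degree `n`,
`n + N` odd, such that `E_D` has non-split multiplicative reduction at all the finite places at which `E` has bad
reduction (`NonSplitTwists`).

Theorem. There is an absolute constant `c > 0` such that for all `k`, `a`, `b` and all large `n` with `n + N` odd at
least the proportion `c` of these `D` has the following properties.

* The 2-primary part of the Tate-Shafarevich group of `E_D` over `k(t)` is zero.
* For EVERY finite extension `k'` of `k` of odd degree prime to the degrees of the prime divisors of `a b (a - b)`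
  (for every odd degree at all, if these polynomials are products of polynomials of degree one) the group
  `E_D(k'(t))` is finite: the rank stays zero in the whole infinite tower.
* For every such `k'` and every divisor `r > 1` of its degree the part of order `r` of the 2-Selmer group of `E_D` over
  `k'(t)` (the part on which the Frobenius automorphism of `k'` over `k` acts by the primitive `r`-th roots of
  unity) is zero at one of the primes above two of the field of the `r`-th roots of unity.

The last property implies the conjecture of Birch and Swinnerton-Dyer for `E_D` over all these fields `k'(t)`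
(its L-function does not vanish at the central point, the Tate-Shafarevich group is finite, the full formula
holds): the part of order `r` of the 2-adic Selmer group vanishes at one prime above two, so the L-functions of
`E_D` over `K` twisted by the characters of order `r` of the extension do not vanish at the central point for one
class of characters conjugate over the field of 2-adic numbers, and then for all of them, as the characteristic
polynomial of Frobenius has rational coefficients (Artin-Tate, Milne).

The proof. The 2-Selmer group over `k'(t)` is described by quadratic residue symbols over `k'` between the prime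
factors over `k'` of `D`. The part of order `r`, `ξ` a primitive `r`-th root of unity in a finite field `F` of
characteristic two, is the kernel of a square matrix over `F` whose entries are
`∑_c ξ^c (symbol of the conjugate by Frob^c)`, one pair of rows for each prime factor of `D` of degree divisible by `r`: it
is skew-Hermitian for an involution of `F` if `-1` is a power of two modulo `r` (unitary case) and without symmetry
otherwise. With Weil's bound for character sums over the finite fields and a dissection of the set of the `D` the mean
number of the elements of the kernel is computed for all bounded `r`, together with the symbols over `k`; the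
probabilities that the kernel is not zero have a convergent sum over one root of unity for each odd `r`, as the order
of two modulo `r` is small only for few `r`, and for large `r` a direct estimate for the probability is used.
-/

set_option autoImplicit false
set_option linter.all false

namespace Pool.Agent.Results.MP_48b749_nt.OddConstantExtensions

open Polynomial Filter Pool.Agent.TH115.GD
open scoped Classical

/-- The polynomial `f` is not a square modulo `Q` (in particular it is not divisible by `Q`). -/
def NonSquareMod {k : Type} [Field k] (Q f : k[X]) : Prop := ∀ h : k[X], ¬ Q ∣ h ^ 2 - f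

/-- The polynomial `f` is not a constant multiple of a square. -/
def NotConstSquare {k : Type} [Field k] (f : k[X]) : Prop := ∀ (c : k) (h : k[X]), f ≠ C c * h ^ 2

/-- The hypotheses on the field `k` and the curve `y ^ 2 = x (x - a) (x - b)`. -/
structure Hypotheses {k : Type} [Field k] (a b : k[X]) (N : ℕ) : Prop where
  two : (2 : k) ≠ 0
  square : IsSquare (-1 : k)
  coprime : IsCoprime a b
  deg_a : a.natDegree = N
  deg_b : b.natDegree = N
  deg_sub : (a - b).natDegree = N
  ab : NotConstSquare (a * b)
  ac : NotConstSquare (a * (a - b))
  bc : NotConstSquare (b * (a - b))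

/-- The `D` for which `b D` is not a square modulo the prime divisors of `a` and `a D` is not a square
modulo the prime divisors of `b (a - b)`: non-split multiplicative reduction at all the bad places. -/
def NonSplitTwists {k : Type} [Field k] (a b : k[X]) (n : ℕ) : Set k[X] :=
  {D | D.Monic ∧ D.natDegree = n ∧ Squarefree D ∧
    (∀ Q : k[X], Irreducible Q → Q ∣ a → NonSquareMod Q (b * D)) ∧
    (∀ Q : k[X], Irreducible Q → Q ∣ b * (a - b) → NonSquareMod Q (a * D))}

/-- The curve `E_D : y ^ 2 = x (x - a D) (x - b D)` over the field `K'` of rational functions over an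
extension `k'` of `k`. -/
noncomputable def twist {k : Type} [Field k] (k' K' : Type) [Field k'] [Algebra k k'] [Field K']
    [Algebra k'[X] K'] (a b D : k[X]) : WeierstrassCurve K' :=
  crv (algebraMap k'[X] K' ((a * D).map (algebraMap k k')))
    (algebraMap k'[X] K' ((b * D).map (algebraMap k k')))

/-- The finite extensions `k'` of `k` of odd degree prime to the degrees of the prime divisors of
`a b (a - b)`. -/
structure OddExtension {k : Type} [Field k] (k' : Type) [Field k'] [Algebra k k'] (a b : k[X]) : Prop where
  odd : Odd (Module.finrank k k')
  coprime : ∀ Q : k[X], Irreducible Q → Q ∣ a * b * (a - b) →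
    Nat.Coprime (Module.finrank k k') Q.natDegree

/-- The automorphism of `K' = k'(t)` which fixes `t` and is `x ↦ x ^ |k|` on `k'`. -/
structure IsFrobenius (k k' : Type) {K' : Type} [Field k] [Field k'] [Algebra k k'] [Field K']
    [Algebra k'[X] K'] (σ : K' ≃+* K') : Prop where
  const : ∀ c : k', σ (algebraMap k'[X] K' (C c)) = algebraMap k'[X] K' (C (c ^ Nat.card k))
  var : σ (algebraMap k'[X] K' X) = algebraMap k'[X] K' X

/-- The pairs `(u, v)` of nonzero elements of `K' = k'(t)` which represent the elements of the 2-Selmer group
of `y ^ 2 = x (x - A) (x - B)`: at all the places `w` of `K'` there is a point `Q` over the completion with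
`u ≡ x(Q)`, `v ≡ x(Q) - A` modulo squares (with the usual convention at the points of order two). -/
def SelmerPair (k' : Type) {K' : Type} [Field k'] [Field K'] [Algebra k'[X] K'] [IsFractionRing k'[X] K']
    (A B u v : K') : Prop :=
  u ≠ 0 ∧ v ≠ 0 ∧ LSg (F := K') k' (crv A B) A B u v

/-- `p(σ)` applied to `u` (written multiplicatively). -/
noncomputable def polyAct {K' : Type} [Field K'] (σ : K' ≃+* K') (p : (ZMod 2)[X]) (u : K') : K' :=
  ∏ i ∈ Finset.range (p.natDegree + 1), (σ^[i] u) ^ (p.coeff i).val

/-- The part of order `r` of the 2-Selmer group of `E_D` over `K' = k'(t)` at some prime above two is zero: the group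
is killed by `p(σ)`, `σ` the Frobenius automorphism, for a polynomial `p` over the field with two elements which
is not divisible by the cyclotomic polynomial `Φ_r`. -/
def NoPart {k : Type} [Field k] (k' K' : Type) [Field k'] [Algebra k k'] [Field K'] [Algebra k'[X] K']
    [IsFractionRing k'[X] K'] (a b D : k[X]) (r : ℕ) : Prop :=
  ∀ σ : K' ≃+* K', IsFrobenius k k' σ → ∃ p : (ZMod 2)[X], ¬ cyclotomic r (ZMod 2) ∣ p ∧ ∀ u v : K',
    SelmerPair k' (algebraMap k'[X] K' ((a * D).map (algebraMap k k')))
      (algebraMap k'[X] K' ((b * D).map (algebraMap k k'))) u v →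
    IsSquare (polyAct σ p u) ∧ IsSquare (polyAct σ p v)

/-- `n` goes to infinity with `n + N` odd. -/
def degrees (N : ℕ) : Filter ℕ := atTop ⊓ 𝓟 {n | Odd (n + N)}

section proof

open Pool.Agent.Q269.GR Pool.Agent.Y164.PS Finset

theorem hyp_of {k : Type} [Field k] [Fintype k] {a b : k[X]} {N : ℕ} (h : Hypotheses a b N) :
    Hyp a b N := Q283.FS.mk_hyp h.two h.square h.coprime h.deg_a h.deg_b h.deg_sub h.ab h.ac

theorem ext_of {k k' : Type} [Field k] [Fintype k] [Field k'] [Fintype k'] [Algebra k k'] {a b : k[X]}
    (h : OddExtension k' a b) : Ext k k' a b := ⟨h.odd, fun Q _ hi hd => h.coprime Q hi hd⟩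

theorem sg_of {k k' K' : Type} [Field k] [Fintype k] [Field k'] [Algebra k k'] [Field K']
    [Algebra k'[X] K'] {σ : K' ≃+* K'} (h : IsFrobenius k k' σ) : IsSg k k' σ := by
  constructor
  intro p
  induction p using Polynomial.induction_on' with
  | add p q hp hq => rw [map_add, map_add, hp, hq, ph, ph, ph, Polynomial.map_add, map_add]
  | monomial n c =>
    rw [← C_mul_X_pow_eq_monomial, map_mul, map_mul, map_pow, map_pow, h.const, h.var, ph,
      Polynomial.map_mul, Polynomial.map_pow, Polynomial.map_C, Polynomial.map_X, map_mul,
      map_pow (algebraMap k'[X] K') X, Nat.card_eq_fintype_card]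
    rfl

theorem mm_self {k K : Type} [Field k] [Field K] [Algebra k[X] K] (A : k[X]) :
    algebraMap k[X] K (A.map (algebraMap k k)) = algebraMap k[X] K A := by
  rw [Algebra.algebraMap_self, Polynomial.map_id]

theorem twist_self {k K : Type} [Field k] [Field K] [Algebra k[X] K] (a b D : k[X]) :
    twist k K a b D = crv (algebraMap k[X] K (a * D)) (algebraMap k[X] K (b * D)) := by
  rw [twist, mm_self, mm_self]

/-- the first part for one `D` -/
theorem one_D (h2 : S_ARI) (h3 : S_SEL) (h4 : S_XIR) {k : Type} [Field k] [Fintype k] {a b : k[X]}
    {N : ℕ} (H : Hyp a b N) {n : ℕ} (hn : Odd (n + N)) {D : k[X]} (hD : D ∈ Q283.FS.Cn a b n)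
    (h0 : Q283.FS.rr H ∅ D = 0) (hg : ∀ r : ℕ, Odd r → 1 < r → Pool.Agent.Q269.GR.Good r a b D) :
    (∀ (K : Type) [Field K] [Algebra k[X] K] [IsFractionRing k[X] K], ShaTwo k (twist k K a b D)) ∧
          ∀ (k' K' : Type) [Field k'] [Finite k'] [Algebra k k'] [Field K'] [Algebra k'[X] K']
            [IsFractionRing k'[X] K'], OddExtension k' a b →
            Finite (Pt (twist k' K' a b D) K') ∧
            ∀ r : ℕ, 1 < r → r ∣ Module.finrank k k' → NoPart k' K' a b D r := by
  constructor
  · intro K _ _ _
    rw [twist_self]
    exact (arithK H hn hD h0 K).2
  · intro k' K' _ _ _ _ _ _ he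
    let _ : Fintype k' := Fintype.ofFinite k'
    have hD' := Cn_Dn H hD
    constructor
    · have key : ∀ (K : Type) [Field K] [Algebra k[X] K] [IsFractionRing k[X] K],
          Finite (Pt (twist k' K' a b D) K') := by
        intro K _ _ _
        obtain ⟨g1, -, g3⟩ := h2 k k' K K' a b N H (ext_of he) n D hD'
        have g4 := (arithK H hn hD h0 K).1
        have g5 := @finrank_zero_of_finite _ _ g4
        rw [g5, zero_add, sum_zero (fun r hr => ?_)] at g3
        · exact finite_of_rank g1 (Nat.le_zero.1 g3)
        · rw [mem_filter, Nat.mem_divisors] at hr
          exact hg r (he.odd.of_dvd_nat hr.1.1) hr.2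
      exact key (FractionRing k[X])
    · intro r hr hd σ hσ
      have ho : Odd r := he.odd.of_dvd_nat hd
      obtain ⟨p, hp, h⟩ := h3 k k' K' σ (sg_of hσ) (Fr r) (xi r) r (h4 r ho hr).ord hr hd H.hk he.odd
      exact ⟨p, hp, fun u v huv => h a b N H (ext_of he) n D hD' (hg r ho hr) u v huv.1 huv.2.1 huv.2.2⟩

end proof

open Pool.Agent.Q269.GR Finset in
/-- **Theorem.** A positive proportion of the non-split twists has rank zero over `k'(t)` for all the extensions `k'` of odd
degree (prime to the degrees of the bad places) simultaneously, satisfies the conjecture of Birch and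
Swinnerton-Dyer over all these fields, and has no part of order `r` in the 2-Selmer group at one prime above two for
every `r`. -/
theorem result :
    ∃ c : ℝ, 0 < c ∧ ∀ (k : Type) [Field k] [Finite k] (a b : k[X]) (N : ℕ), Hypotheses a b N →
      ∀ᶠ n : ℕ in degrees N, c * (((NonSplitTwists a b n).ncard : ℕ) : ℝ) ≤
        (({D ∈ NonSplitTwists a b n |
          (∀ (K : Type) [Field K] [Algebra k[X] K] [IsFractionRing k[X] K], ShaTwo k (twist k K a b D)) ∧
          ∀ (k' K' : Type) [Field k'] [Finite k'] [Algebra k k'] [Field K'] [Algebra k'[X] K']
            [IsFractionRing k'[X] K'], OddExtension k' a b →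
            Finite (Pt (twist k' K' a b D) K') ∧
            ∀ r : ℕ, 1 < r → r ∣ Module.finrank k k' → NoPart k' K' a b D r}.ncard : ℕ) : ℝ) := by
  obtain ⟨c, hc, h⟩ := Asm.a_END.1
  refine ⟨c, hc, fun k _ _ a b N hH => ?_⟩
  let _ : Fintype k := Fintype.ofFinite k
  have H := hyp_of hH
  rw [degrees, eventually_inf_principal]
  filter_upwards [h k a b N H (mk_hyk H hH.ab hH.ac hH.bc)] with n hn ho
  have h5 := hn ho
  show c * (((Y164.PS.cls a b n).ncard : ℕ) : ℝ) ≤ (({D ∈ Y164.PS.cls a b n | _}.ncard : ℕ) : ℝ)
  rw [Q283.FS.ncard_cls' H, Q283.FS.ncard_cls H]
  refine h5.trans (Nat.cast_le.2 (card_le_card fun D hD => ?_))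
  simp only [mem_filter] at hD ⊢
  exact ⟨hD.1, one_D Asm.a_ARI Asm.a_SEL Asm.a_XIR H ho hD.1 hD.2.1 hD.2.2⟩

end Pool.Agent.Results.MP_48b749_nt.OddConstantExtensions
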