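import Pool.Agent.Q269.MF.Two

/-!
# Rank zero and the conjecture of Birch and Swinnerton-Dyer for several elliptic curves over `k(t)`
# twisted by the same polynomial

Let `k` be a finite field of characteristic different from 2 in which `-1` is a square, `K = k(t)`, and
let `R` be a finite set. For each `r` in `R` let `a r 1, a r 2, a r 3` be polynomials over `k` whose
differences have the same degree `N r ≥ 1` and a squarefree product `Δ r`; suppose that `Δ r` and
`Δ r'` are coprime for `r ≠ r'`. For a monic squarefree polynomial `D` prime to all the `Δ r` let
`E(r, D)` be the elliptic curve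

`y ^ 2 = D(t) (x - a r 1) (x - a r 2) (x - a r 3)`

over `K`, the quadratic twist by `D` of `E(r, 1)`; its `j`-invariant is not constant. All these curves
are twisted by the same polynomial `D`. The group `E(r, D)(L)`, `L` an extension of `K`, is the Picard
group of the affine curve, `Pic(L[x, y] / (y ^ 2 - D(t) ∏ (x - a r i)))`, the group `J` of the
library. We say that `E(r, D)` is good if

* every point of `E(r, D)(K)` is the sum of a `K`-point of order 1 or 2 and of twice a `K`-point, so
  `E(r, D)(K)` is finite (Mordell-Weil theorem);
* all classes in `H ^ 1 (K, E(r, D))` killed by a power of 2 which are trivial over the completions of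
  `K` at all the places of `K` different from infinity are zero; in particular the 2-primary part of
  the Tate-Shafarevich group of `E(r, D)` over `K` is zero, so (Artin-Tate, Milne) the order of
  vanishing of the L-function is the rank, that is zero, and the full conjecture of Birch and
  Swinnerton-Dyer holds for `E(r, D)`.

Theorem. Let `α = (1 / 2) ∏_{i ≥ 0} (1 - 2 ^ (- 2 i - 1)) = 0.2097...` and let `𝒜` be a set of subsets
of `R` which contains with a set `S` all the larger sets. As the degree `m` of `D` tends to infinity,
`m + N r` odd for all `r`, the proportion of the `D` for which the set of the `r` such that `E(r, D)`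
is good belongs to `𝒜` is at least the probability (up to `ε`) of the event that the set of the
successes belongs to `𝒜`, when for each `r` in `R` an independent experiment with probability of
success `α` is made, that is `∑_{S ∈ 𝒜} α ^ |S| (1 - α) ^ (|R| - |S|)`.

For instance all the curves `E(r, D)` are good for at least the proportion `α ^ |R| - ε` of the `D`,
at least one of them for at least the proportion `1 - (1 - α) ^ |R| - ε`, and at least `s` of them for
at least the proportion `P(X ≥ s) - ε`, `X` a binomial random variable with parameters `|R|` and `α`.

The proof: the 2-Selmer group of `E(r, D)` modulo the torsion points is contained in the kernel of an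
explicit symmetric matrix over the field with two elements, whose entries are quadratic residue
symbols of the prime factors of `D` and of `Δ r`. For half of the classes of `D` modulo `Δ r` the
orders of the kernels are even powers of 2, for the others they are odd powers. The block of the
symbols of the prime factors of `D` is the same for all `r`. All the mixed moments of the orders of
the `|R|` kernels are computed in each class; they are asymptotically the products of the moments
`2 ^ (j (j + 1) / 2)`, which together with the parity determine the probabilities, and the classes are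
independent for different `r`.
-/

set_option autoImplicit false
set_option linter.all false

namespace Pool.Agent.Results.MP_48b749_nt.SimultaneousCurves

open Polynomial Filter Pool.Agent.Y713.Jac
open scoped Classical

/-- The product of the differences `a i - a j`, `i < j`. -/
noncomputable def differences {k : Type} [Field k] {n : ℕ} (a : Fin n → k[X]) : k[X] :=
  ∏ x ∈ (Finset.univ : Finset (Fin n × Fin n)).filter (fun x => x.1 < x.2), (a x.1 - a x.2)

/-- The monic squarefree polynomials `D` of degree `m` prime to the differences `a r i - a r j` of all
the curves. -/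
def Twists {k : Type} [Field k] {R : Type} (a : R → Fin 3 → k[X]) (m : ℕ) : Set k[X] :=
  {D | D.Monic ∧ D.natDegree = m ∧ Squarefree D ∧ ∀ r i j, i ≠ j → IsCoprime D (a r i - a r j)}

/-- The polynomial `D(t) (x - a 1) (x - a 2) (x - a 3)` in `x` over `K = k(t)`. -/
noncomputable def twist {k : Type} [Field k] (K : Type) [Field K] [Algebra k[X] K]
    (a : Fin 3 → k[X]) (D : k[X]) : K[X] :=
  C (algebraMap k[X] K D) * ∏ i, (X - C (algebraMap k[X] K (a i)))

/-- Every element of the group is the product of an element killed by 2 and of a square. -/
def TorsionTimesSquares (G : Type) [CommGroup G] : Prop :=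
  ∀ P : G, ∃ T Q : G, T ^ 2 = 1 ∧ P = T * Q ^ 2

/-- For the elliptic curve `E_D : y ^ 2 = D (x - a 1) (x - a 2) (x - a 3)`, the group `E_D(K)` is
`E_D(K)[2] + 2 E_D(K)`, and the 2-primary part of the group of the classes in `H ^ 1 (K, E_D)` which
are trivial over the completions of `K = k(t)` at the places different from infinity is zero. -/
def IsGood {k : Type} [Field k] (K : Type) [Field K] [Algebra k[X] K] [IsFractionRing k[X] K]
    (a : Fin 3 → k[X]) (D : k[X]) : Prop :=
  ShaPrimaryTrivial 2 (twist K a D) k[X] ∧ TorsionTimesSquares (J 2 (twist K a D) K)

/-- The set of the `r` for which the curve twisted by `D` is good. -/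
noncomputable def goodSet {k : Type} [Field k] (K : Type) [Field K] [Algebra k[X] K]
    [IsFractionRing k[X] K] {R : Type} [Fintype R] (a : R → Fin 3 → k[X]) (D : k[X]) : Finset R :=
  Finset.univ.filter fun r => IsGood K (a r) D

/-- Half of the infinite product of the numbers `1 - 2 ^ (- 2 i - 1)`, `i ≥ 0`. -/
noncomputable def density : ℝ := (∏' i : ℕ, (1 - (1 / 2 : ℝ) ^ (2 * i + 1))) / 2

/-- The probability that the set of the successes belongs to `𝒜` in independent experiments indexed
by `R`, each with probability of success `α`. -/
noncomputable def probability {R : Type} [Fintype R] (α : ℝ) (𝒜 : Finset (Finset R)) : ℝ :=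
  ∑ S ∈ 𝒜, α ^ S.card * (1 - α) ^ (Fintype.card R - S.card)

theorem result (k : Type) [Field k] [Finite k] (h2 : (2 : k) ≠ 0) (hi : IsSquare (-1 : k))
    (K : Type) [Field K] [Algebra k[X] K] [IsFractionRing k[X] K] (R : Type) [Fintype R]
    (N : R → ℕ) (hN : ∀ r, 1 ≤ N r) (a : R → Fin 3 → k[X])
    (ha : ∀ r i j, i ≠ j → (a r i - a r j).natDegree = N r)
    (hs : ∀ r, Squarefree (differences (a r)))
    (hc : ∀ r r', r ≠ r' → IsCoprime (differences (a r)) (differences (a r'))) :
    (∃ c : ℝ, 0 < c ∧ ∀ᶠ m : ℕ in atTop,
      c * (Nat.card k : ℝ) ^ m ≤ ((Twists a m).ncard : ℝ)) ∧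
    ∀ 𝒜 : Finset (Finset R), (∀ S ∈ 𝒜, ∀ S', S ⊆ S' → S' ∈ 𝒜) →
    ∀ ε : ℝ, 0 < ε → ∀ᶠ m : ℕ in atTop, (∀ r, Odd (m + N r)) →
      (probability density 𝒜 - ε) * ((Twists a m).ncard : ℝ) ≤
        (({D ∈ Twists a m | goodSet K a D ∈ 𝒜}).ncard : ℝ) :=
  Pool.Agent.Q269.MF.final_two h2 hi K (n := fun _ => 3) (fun _ => ⟨1, rfl⟩) (fun _ => le_rfl) N hN a
    ha hs hc

end Pool.Agent.Results.MP_48b749_nt.SimultaneousCurves
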