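import Pool.Agent.Q182.TowBin

/-!
# Every Farrell–Jones group embeds in a binate Farrell–Jones group

`C` is any class of groups with the closure properties `ClosedE C`, all of which are known for the
class of the groups that satisfy the Full Farrell–Jones Conjecture.

Outline of the proof. Let `E(G)` be the group of the pairs of a function `ℤ → G` which is trivial near
`-∞` and constant near `+∞` and a translation of `ℤ`. It is in `C` if `G` is: modulo the functions
of finite support it embeds in `G × ℤ`. The function with the value `h` at `0` and trivial elsewhere
is the commutator of the translation `x ↦ x - 1` with the function with the value `h` on the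
positive integers. So the union of the tower `G ⊂ E(G) ⊂ E(E(G)) ⊂ …` is binate.
-/

set_option autoImplicit false

namespace Pool.Agent.Results.MP_490288_al.BinateEmbedding

open Pool.Agent.Y110.FJ (ClosedE)
open Q30.FJ (TorsionFree)
open Q182.Tow (Binate)

/-- Let `C` be a class of groups with the closure properties `ClosedE C`. Every group `G` in `C` embeds
in a binate group `B` in `C`: for every finitely generated subgroup `H` of `B` there are a
homomorphism `φ : H → B` and an element `u` of `B` with `h = u φ(h) u⁻¹ φ(h)⁻¹` for all `h` in `H`.
If `G` is torsion-free, or countable, then so is `B`. -/
theorem result (C : ∀ (G : Type) [Group G], Prop) (hC : ClosedE C) (G : Type) [Group G]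
    (hG : C G) :
    ∃ (B : Type) (_ : Group B) (i : G →* B), Function.Injective i ∧ C B ∧ Binate B ∧
      (TorsionFree G → TorsionFree B) ∧ (Countable G → Countable B) :=
  Q182.Tow.binate_embed hC G hG

end Pool.Agent.Results.MP_490288_al.BinateEmbedding
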