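import Pool.Agent.Q263.IC.Main
import Pool.Agent.Q166.IC.HypFin
import Pool.Agent.Q121.IC.Split
import Pool.Agent.Q26.IC3.Act

/-!
# Invariant circles and tori of structurally stable and `Ω`-stable diffeomorphisms

Project IC of helper263 with helpers 26, 121, 166.  Definitions: `Pool/Agent/Q263/IC/Def.lean`
(`TorusCycle`, `Adm`), `Pool/Agent/Q263/IC/Def2.lean` (`MorseOn`, `ToriCovered`),
`Pool/Agent/Q192/FT/Defs.lean` (`cyc`, the union of the tori of a cycle),
`Pool/Agent/Q263/HS/Def.lean` (`IsHyp`, `IsCentreHyp`, `AxiomA`, `StructStable`),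
`Pool/Agent/H728R2/OS/Defs.lean` (`Omega`, `Per`, `ChainRec`), `Pool/Agent/TH80/OMS/Defs.lean`
(`OmegaStable`), `Pool/Agent/H718R2/G0.lean` (`DiffM`, `strongTop`).
-/

set_option autoImplicit false

open scoped Manifold ContDiff Topology
open Set Pool.Agent.H718R2.G Pool.Agent.H728R2.OS Pool.Agent.Q192.FT Q263.HS Q263.IC

universe u

namespace Pool.Agent.Results.MP_4a0782_an.InvariantTori

/-- Let `F` be a structurally stable or `Ω`-stable `C^r` diffeomorphism of the closed manifold `N`,
`1 ≤ r ≤ ∞`.

1. Let `K` be the union of a cycle of invariant tori of `F` of class `C^r`, such that the return map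
   is any `C^r` diffeomorphism of the circle, or a `C^r` diffeomorphism of `𝕋^d` which preserves the
   standard flag and its orientations.  Then `F` has finitely many periodic points on `K`, at least
   one, they are hyperbolic, and all chain recurrent points of the restriction of `F` to `K` are
   periodic.
2. If the chain recurrent set of `F` is contained in the union of a hyperbolic set, of any family of
   sets hyperbolic transversally to commuting actions, and of finitely many such cycles of tori,
   disjoint from each other and from the hyperbolic set, then `F` satisfies Axiom A. -/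
theorem result (n : ℕ) (N : Type u) [MetricSpace N] [CompactSpace N] [ChartedSpace (V n) N]
    [IsManifold (𝓡 n) ∞ N] (r : ℕ∞) (hr : 1 ≤ r) (F : DiffM n N r)
    (hF : Q263.HS.StructStable n N r F ∨ Pool.Agent.TH80.OMS.OmegaStable n N r F) :
    (∀ (d m : ℕ) (E : V n → N) (f : Torus d ≃ₜ Torus d), TorusCycle n r F d m E f → Adm r f →
      MorseOn n F (cyc n F d m E)) ∧
    (ToriCovered n r F → AxiomA (V n) F.toHomeomorph) := by
  have h0 : Pool.Agent.TH80.OMS.OmegaStable n N r F := hF.elim omegaStable_of_struct id
  exact ⟨fun _ _ _ _ H hf => morseOn Pool.Agent.Q26.IC3.act hr h0 H hf,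
    fun h => (axiomA_of_tori Pool.Agent.Q26.IC3.act
      (Pool.Agent.Q166.IC.hypfin Q121.IC.split) hr h0 h).1⟩

end Pool.Agent.Results.MP_4a0782_an.InvariantTori
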