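import Mathlib
import Pool.Agent.Q104.Spec

/-!
# The maximum multiplicity of the golden ratio as a graph eigenvalue
-/

set_option autoImplicit false

namespace Pool.Agent.Results.MP_4bb7d7_co.GoldenRatio

open Matrix Finset Polynomial

open scoped Classical in
/-- the maximum multiplicity of `lam` as an eigenvalue of a graph on `n` vertices; it is `0` when no
graph on `n` vertices has the eigenvalue `lam` -/
noncomputable def Es (n : ℕ) (lam : ℝ) : ℕ :=
  sSup {m | ∃ G : SimpleGraph (Fin n),
    Module.finrank ℝ (LinearMap.ker (Matrix.toLin' (G.adjMatrix ℝ) - lam • LinearMap.id)) = m}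

/-! ### the conjugate eigenvalue -/

/-- `X ^ 2 - X - 1` -/
noncomputable def q : ℚ[X] := X ^ 2 - X - 1

lemma q_monic : q.Monic := by
  rw [q]
  monicity!

lemma q_deg : q.natDegree = 2 := by
  rw [q]
  compute_degree!

lemma aeval_q_phi : aeval Real.goldenRatio q = 0 := by
  simp only [q, map_sub, map_pow, aeval_X, map_one]
  rw [Real.goldenRatio_sq]; ring

lemma aeval_q_psi : aeval Real.goldenConj q = 0 := by
  simp only [q, map_sub, map_pow, aeval_X, map_one]
  rw [Real.goldenConj_sq]; ring

lemma minpoly_of {t : ℝ} (ht : Irrational t) (h : aeval t q = 0) : minpoly ℚ t = q := by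
  have hint : IsIntegral ℚ t := ⟨q, q_monic, by simpa [aeval_def] using h⟩
  have h2 : 2 ≤ (minpoly ℚ t).natDegree := by
    rw [minpoly.two_le_natDegree_iff hint]
    rintro ⟨r, hr⟩
    exact ht ⟨r, by simpa using hr⟩
  exact (Polynomial.eq_of_monic_of_dvd_of_natDegree_le (minpoly.monic hint) q_monic
    (minpoly.dvd ℚ t h) (by rw [q_deg]; exact h2)).symm

lemma q_dvd {t : ℝ} (ht : Irrational t) (h : aeval t q = 0) (r : ℚ[X]) (hr : aeval t r = 0) :
    q ∣ r := by
  rw [← minpoly_of ht h]
  exact minpoly.dvd ℚ t hr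

lemma q_map : q.map (algebraMap ℚ ℝ) = (X - C Real.goldenRatio) * (X - C Real.goldenConj) := by
  have h1 := Real.goldenRatio_add_goldenConj
  have h2 := Real.goldenRatio_mul_goldenConj
  have h3 : (X - C Real.goldenRatio) * (X - C Real.goldenConj)
      = X ^ 2 - C (Real.goldenRatio + Real.goldenConj) * X
        + C (Real.goldenRatio * Real.goldenConj) := by
    simp only [C_add, C_mul]
    ring
  rw [h3, h1, h2, q]
  simp
  ring

lemma count_q (t : ℝ) (ht : t = Real.goldenRatio ∨ t = Real.goldenConj) :
    (q.map (algebraMap ℚ ℝ)).roots.count t = 1 := by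
  have hne : Real.goldenRatio ≠ Real.goldenConj := by
    have := Real.goldenRatio_pos
    have := Real.goldenConj_neg
    linarith
  rw [q_map, roots_mul (mul_ne_zero (X_sub_C_ne_zero _) (X_sub_C_ne_zero _)), roots_X_sub_C,
    roots_X_sub_C, Multiset.count_add, Multiset.count_singleton, Multiset.count_singleton]
  rcases ht with rfl | rfl
  · rw [if_pos rfl, if_neg hne]
  · rw [if_pos rfl, if_neg hne.symm]

lemma count_eq (p : ℚ[X]) (hp : p ≠ 0) :
    (p.map (algebraMap ℚ ℝ)).roots.count Real.goldenRatio
      = (p.map (algebraMap ℚ ℝ)).roots.count Real.goldenConj := by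
  have hunit : ¬ IsUnit q := by
    intro h
    have := Polynomial.natDegree_eq_zero_of_isUnit h
    rw [q_deg] at this
    norm_num at this
  have hfin : FiniteMultiplicity q p := FiniteMultiplicity.of_not_isUnit hunit hp
  obtain ⟨r, hr, hnd⟩ := hfin.exists_eq_pow_mul_and_not_dvd
  have hr0 : r ≠ 0 := by
    rintro rfl
    exact hnd (dvd_zero _)
  have hroot : ∀ t : ℝ, (t = Real.goldenRatio ∨ t = Real.goldenConj) →
      (p.map (algebraMap ℚ ℝ)).roots.count t = multiplicity q p := by
    intro t ht
    have hirr : Irrational t := by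
      rcases ht with rfl | rfl
      · exact Real.goldenRatio_irrational
      · exact Real.goldenConj_irrational
    have hq : aeval t q = 0 := by
      rcases ht with rfl | rfl
      · exact aeval_q_phi
      · exact aeval_q_psi
    have hrt : (r.map (algebraMap ℚ ℝ)).roots.count t = 0 := by
      rw [Multiset.count_eq_zero]
      intro hmem
      apply hnd
      apply q_dvd hirr hq
      rw [mem_roots (by rwa [Ne, Polynomial.map_eq_zero])] at hmem
      rw [aeval_def, ← eval_map]
      exact hmem
    have hmul : q ^ (multiplicity q p) * r ≠ 0 := by rw [← hr]; exact hp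
    nth_rewrite 1 [hr]
    rw [Polynomial.map_mul, Polynomial.map_pow, roots_mul, roots_pow, Multiset.count_add,
      Multiset.count_nsmul, count_q t ht, hrt]
    · simp
    · rw [← Polynomial.map_pow, ← Polynomial.map_mul, Ne, Polynomial.map_eq_zero]
      exact hmul
  rw [hroot _ (Or.inl rfl), hroot _ (Or.inr rfl)]

section spectral

variable {V : Type} [Fintype V] [DecidableEq V]

lemma count_roots {A : Matrix V V ℝ} (hA : A.IsHermitian) (t : ℝ) :
    A.charpoly.roots.count t = (univ.filter fun j => hA.eigenvalues j = t).card := by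
  rw [hA.roots_charpoly_eq_eigenvalues, Multiset.count_map, ← Finset.filter_val, Finset.card_val]
  congr 1
  ext j
  simp [eq_comm]

/-- the golden ratio and its conjugate have the same multiplicity -/
lemma card_eq (G : SimpleGraph V) [DecidableRel G.Adj] (hA : (G.adjMatrix ℝ).IsHermitian) :
    (univ.filter fun j => hA.eigenvalues j = Real.goldenRatio).card
      = (univ.filter fun j => hA.eigenvalues j = Real.goldenConj).card := by
  rw [← count_roots, ← count_roots]
  have h : G.adjMatrix ℝ = (G.adjMatrix ℚ).map (algebraMap ℚ ℝ) := by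
    ext i j
    rw [Matrix.map_apply, SimpleGraph.adjMatrix_apply, SimpleGraph.adjMatrix_apply]
    split_ifs <;> simp
  rw [h, Matrix.charpoly_map]
  exact count_eq _ (Matrix.charpoly_monic _).ne_zero

/-- the eigenspace has dimension at most the number of indices carrying the eigenvalue -/
lemma finrank_le {A : Matrix V V ℝ} (hA : A.IsHermitian) (t : ℝ) :
    Module.finrank ℝ (LinearMap.ker (Matrix.toLin' A - t • LinearMap.id))
      ≤ (univ.filter fun j => hA.eigenvalues j = t).card := by
  set F := univ.filter fun j => hA.eigenvalues j = t with hF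
  have hle : LinearMap.ker (Matrix.toLin' A - t • LinearMap.id)
      ≤ Submodule.span ℝ ((F.image fun j => Q104.Spec.ev hA j : Finset (V → ℝ)) : Set (V → ℝ)) := by
    intro x hx
    rw [LinearMap.mem_ker, LinearMap.sub_apply, LinearMap.smul_apply, Matrix.toLin'_apply,
      LinearMap.id_apply, sub_eq_zero] at hx
    rw [Q104.Spec.expand hA x]
    refine Submodule.sum_mem _ fun j _ => ?_
    by_cases hj : hA.eigenvalues j = t
    · refine Submodule.smul_mem _ _ (Submodule.subset_span ?_)
      simp only [Finset.coe_image, Set.mem_image]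
      exact ⟨j, by simp [hF, hj], rfl⟩
    · have h1 := Q104.Spec.ev_dot_mulVec hA j x
      rw [hx, dotProduct_smul, smul_eq_mul] at h1
      have h2 : (hA.eigenvalues j - t) * (Q104.Spec.ev hA j ⬝ᵥ x) = 0 := by
        rw [sub_mul]; linarith
      have h3 := (mul_eq_zero.mp h2).resolve_left (sub_ne_zero.mpr hj)
      rw [h3, zero_smul]
      exact Submodule.zero_mem _
  refine (Submodule.finrank_mono hle).trans ?_
  exact (finrank_span_finset_le_card _).trans Finset.card_image_le

/-- the sum of squares of the entries of a symmetric matrix -/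
lemma sum_sq_entries {A : Matrix V V ℝ} (hA : A.IsHermitian) :
    ∑ a, ∑ b, A a b ^ 2 = ∑ j, hA.eigenvalues j ^ 2 := by
  have h1 : ∑ a, ∑ b, A a b ^ 2 = (A * A).trace := by
    simp only [Matrix.trace, Matrix.diag_apply, Matrix.mul_apply]
    refine Finset.sum_congr rfl fun a _ => Finset.sum_congr rfl fun b _ => ?_
    have : A b a = A a b := by
      have := hA.apply a b
      simpa using this
    rw [this, sq]
  rw [h1, Q104.Spec.trace_mul_expand hA]
  refine Finset.sum_congr rfl fun j _ => ?_
  rw [Q104.Spec.mulVec_ev, dotProduct_smul, Q104.Spec.ev_dot, if_pos rfl]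
  simp [sq]

/-- trace, rank and Frobenius norm -/
lemma trace_sq_le {F : Matrix V V ℝ} (hF : F.IsHermitian) :
    F.trace ^ 2 ≤ F.rank * ∑ a, ∑ b, F a b ^ 2 := by
  rw [sum_sq_entries hF, hF.rank_eq_card_non_zero_eigs, Fintype.card_subtype]
  have h1 : F.trace = ∑ j, hF.eigenvalues j := by
    have := hF.trace_eq_sum_eigenvalues
    simpa using this
  have h2 : ∑ j, hF.eigenvalues j = ∑ j ∈ univ.filter (fun j => hF.eigenvalues j ≠ 0),
      hF.eigenvalues j := by
    rw [Finset.sum_filter]
    refine Finset.sum_congr rfl fun j _ => ?_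
    by_cases h : hF.eigenvalues j = 0
    · simp [h]
    · simp [h]
  rw [h1, h2]
  refine (sq_sum_le_card_mul_sum_sq).trans ?_
  refine mul_le_mul_of_nonneg_left ?_ (Nat.cast_nonneg _)
  exact Finset.sum_le_sum_of_subset_of_nonneg (Finset.filter_subset _ _)
    fun j _ _ => sq_nonneg _

omit [DecidableEq V] in
lemma rank_mul_le_card {κ : Type} [Fintype κ] (U : Matrix V κ ℝ) (B : Matrix κ V ℝ) :
    (U * B).rank ≤ Fintype.card κ :=
  (Matrix.rank_mul_le_left U B).trans (Matrix.rank_le_card_width U)

/-- the main inequality: `n - 2 m` is at least a constant times `sqrt n` -/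
lemma main_ineq (G : SimpleGraph V) [DecidableRel G.Adj] (hA : (G.adjMatrix ℝ).IsHermitian)
    (m : ℕ) (hm : (univ.filter fun j => hA.eigenvalues j = Real.goldenRatio).card = m) :
    ∃ k : ℕ, 2 * m + k = Fintype.card V ∧ m ≤ 21 * (k ^ 2 + k) := by
  classical
  set φ := Real.goldenRatio with hφ
  set ψ := Real.goldenConj with hψ
  have hsum : φ + ψ = 1 := Real.goldenRatio_add_goldenConj
  have hφsq : φ ^ 2 = φ + 1 := Real.goldenRatio_sq
  have hψsq : ψ ^ 2 = ψ + 1 := Real.goldenConj_sq
  have hφpos : 0 < φ := Real.goldenRatio_pos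
  have hφlt : φ < 1.6181 := by
    rw [hφ, Real.goldenRatio]
    have h5 : √5 < 2.2361 := by
      rw [Real.sqrt_lt' (by norm_num)]; norm_num
    linarith
  have hψneg : ψ < 0 := Real.goldenConj_neg
  have hψgt : -φ ≤ ψ := by linarith
  have hne : φ ≠ ψ := by linarith
  have hm' : (univ.filter fun j => hA.eigenvalues j = ψ).card = m := by
    rw [← card_eq G hA, hm]
  set Fφ := univ.filter fun j => hA.eigenvalues j = φ with hFφ
  set Fψ := univ.filter fun j => hA.eigenvalues j = ψ with hFψ
  have hdisj : Disjoint Fφ Fψ := by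
    rw [Finset.disjoint_left]
    intro j h1 h2
    rw [hFφ, Finset.mem_filter] at h1
    rw [hFψ, Finset.mem_filter] at h2
    exact hne (h1.2.symm.trans h2.2)
  set I := Fφ ∪ Fψ with hI
  have hIcard : I.card = 2 * m := by
    rw [hI, Finset.card_union_of_disjoint hdisj, hm, hm']; ring
  set W := Iᶜ with hW
  have hWcard : 2 * m + W.card = Fintype.card V := by
    rw [← hIcard, hW, Finset.card_add_card_compl]
  refine ⟨W.card, hWcard, ?_⟩
  set v := fun j => Q104.Spec.ev hA j with hv
  set lam := hA.eigenvalues with hlam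
  set Q : Matrix V V ℝ := fun a b => ∑ j ∈ I, lam j * (v j a * v j b) with hQ
  set w : Matrix V V ℝ := fun a b => ∑ j ∈ W, lam j * (v j a * v j b) with hw
  have hsplit : ∀ a b, G.adjMatrix ℝ a b = Q a b + w a b := by
    intro a b
    rw [Q104.Spec.entry hA a b, hQ, hw, ← Finset.sum_add_sum_compl I]
  have hentry : ∀ a b, (G.adjMatrix ℝ a b) ^ 2 = G.adjMatrix ℝ a b := by
    intro a b
    rw [SimpleGraph.adjMatrix_apply]
    split_ifs <;> norm_num
  -- orthonormality
  have hon : ∀ i j, v i ⬝ᵥ v j = if i = j then 1 else 0 := Q104.Spec.ev_dot hA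
  have hlamI : ∀ j ∈ I, lam j = φ ∨ lam j = ψ := by
    intro j hj
    rw [hI, Finset.mem_union, hFφ, hFψ, Finset.mem_filter, Finset.mem_filter] at hj
    tauto
  have hcomp : ∀ a b, (∑ j, v j a * v j b) = if a = b then 1 else 0 := by
    intro a b
    have := Q104.Spec.dot_expand hA (Pi.single a (1 : ℝ)) (Pi.single b (1 : ℝ))
    simp only [dotProduct_single, mul_one] at this
    rw [hv]
    simp only
    rw [← this, Pi.single_apply]
    by_cases h : a = b
    · simp [h]
    · simp [h, Ne.symm h]
  -- entries of `Q` are bounded by `φ`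
  have hQle : ∀ a b, |Q a b| ≤ φ := by
    intro a b
    have h1 : |Q a b| ≤ ∑ j, φ * ((v j a ^ 2 + v j b ^ 2) / 2) := by
      rw [hQ]
      refine (Finset.abs_sum_le_sum_abs _ _).trans ?_
      refine (Finset.sum_le_sum (g := fun j => φ * ((v j a ^ 2 + v j b ^ 2) / 2)) ?_).trans ?_
      · intro j hj
        rw [abs_mul]
        refine mul_le_mul ?_ ?_ (abs_nonneg _) hφpos.le
        · rcases hlamI j hj with h | h
          · rw [h, abs_of_pos hφpos]
          · rw [h, abs_of_neg hψneg]; linarith
        · rw [abs_le]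
          constructor
          · nlinarith [sq_nonneg (v j a + v j b)]
          · nlinarith [sq_nonneg (v j a - v j b)]
      · refine Finset.sum_le_sum_of_subset_of_nonneg (Finset.subset_univ _) ?_
        intro j _ _
        positivity
    refine h1.trans (le_of_eq ?_)
    rw [← Finset.mul_sum, ← Finset.sum_div, Finset.sum_add_distrib]
    have h2 := hcomp a a
    have h3 := hcomp b b
    rw [if_pos rfl] at h2 h3
    simp only [sq]
    rw [h2, h3]; ring
  -- the Frobenius norm of `Q`
  have hQsq : ∑ a, ∑ b, Q a b ^ 2 = 3 * m := by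
    have h1 : ∀ a b, Q a b ^ 2 = ∑ i ∈ I, ∑ j ∈ I, lam i * lam j *
        ((v i a * v j a) * (v i b * v j b)) := by
      intro a b
      rw [sq, hQ]
      simp only
      rw [Finset.sum_mul_sum]
      refine Finset.sum_congr rfl fun i _ => Finset.sum_congr rfl fun j _ => ?_
      ring
    simp only [h1]
    have h2 : ∑ a, ∑ b, ∑ i ∈ I, ∑ j ∈ I, lam i * lam j * ((v i a * v j a) * (v i b * v j b))
        = ∑ i ∈ I, ∑ j ∈ I, lam i * lam j * ((v i ⬝ᵥ v j) * (v i ⬝ᵥ v j)) := by
      have hterm : ∀ i j, lam i * lam j * ((v i ⬝ᵥ v j) * (v i ⬝ᵥ v j))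
          = ∑ a, ∑ b, lam i * lam j * ((v i a * v j a) * (v i b * v j b)) := by
        intro i j
        rw [dotProduct, Finset.sum_mul_sum, Finset.mul_sum]
        refine Finset.sum_congr rfl fun a _ => ?_
        rw [Finset.mul_sum]
      simp only [hterm]
      rw [Finset.sum_congr rfl fun a _ => Finset.sum_comm]
      rw [Finset.sum_comm]
      refine Finset.sum_congr rfl fun i _ => ?_
      rw [Finset.sum_congr rfl fun a _ => Finset.sum_comm]
      rw [Finset.sum_comm]
    rw [h2]
    have h3 : ∀ i ∈ I, ∑ j ∈ I, lam i * lam j * ((v i ⬝ᵥ v j) * (v i ⬝ᵥ v j)) = lam i ^ 2 := by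
      intro i hi
      rw [Finset.sum_eq_single i]
      · rw [hon, if_pos rfl]; ring
      · intro j _ hj
        rw [hon, if_neg (Ne.symm hj)]; ring
      · exact fun h => absurd hi h
    rw [Finset.sum_congr rfl h3, hI, Finset.sum_union hdisj]
    have h4 : ∑ j ∈ Fφ, lam j ^ 2 = m * φ ^ 2 := by
      rw [Finset.sum_congr rfl (g := fun _ => φ ^ 2), Finset.sum_const, hm, nsmul_eq_mul]
      intro j hj
      rw [hFφ, Finset.mem_filter] at hj
      rw [hj.2]
    have h5 : ∑ j ∈ Fψ, lam j ^ 2 = m * ψ ^ 2 := by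
      rw [Finset.sum_congr rfl (g := fun _ => ψ ^ 2), Finset.sum_const, hm', nsmul_eq_mul]
      intro j hj
      rw [hFψ, Finset.mem_filter] at hj
      rw [hj.2]
    rw [h4, h5, hφsq, hψsq]
    linear_combination (m : ℝ) * hsum
  -- the trace of `Q`
  have hQtr : ∑ a, Q a a = m := by
    rw [hQ]
    simp only
    rw [Finset.sum_comm]
    have h1 : ∀ j ∈ I, ∑ a, lam j * (v j a * v j a) = lam j := by
      intro j _
      rw [← Finset.mul_sum]
      have := hon j j
      rw [if_pos rfl, dotProduct] at this
      rw [this, mul_one]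
    rw [Finset.sum_congr rfl h1, hI, Finset.sum_union hdisj]
    have h4 : ∑ j ∈ Fφ, lam j = m * φ := by
      rw [Finset.sum_congr rfl (g := fun _ => φ), Finset.sum_const, hm, nsmul_eq_mul]
      intro j hj
      rw [hFφ, Finset.mem_filter] at hj
      exact hj.2
    have h5 : ∑ j ∈ Fψ, lam j = m * ψ := by
      rw [Finset.sum_congr rfl (g := fun _ => ψ), Finset.sum_const, hm', nsmul_eq_mul]
      intro j hj
      rw [hFψ, Finset.mem_filter] at hj
      exact hj.2
    rw [h4, h5]
    linear_combination (m : ℝ) * hsum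
  -- the matrix `F`
  set F : Matrix V V ℝ := fun a b => w a b ^ 2 - w a b with hF
  have hwsym : ∀ a b, w a b = w b a := by
    intro a b
    rw [hw]
    simp only
    refine Finset.sum_congr rfl fun j _ => ?_
    ring
  have hFab : ∀ a b, F a b = w a b ^ 2 - w a b := fun _ _ => rfl
  have hFherm : F.IsHermitian := by
    refine Matrix.IsHermitian.ext fun a b => ?_
    rw [star_trivial, hFab, hFab, hwsym b a]
  have hFtr : (m : ℝ) ≤ F.trace := by
    have htr : F.trace = ∑ a, F a a := rfl
    rw [htr, ← hQtr]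
    refine Finset.sum_le_sum fun a _ => ?_
    rw [hFab]
    have h1 := hsplit a a
    rw [SimpleGraph.adjMatrix_apply, if_neg (G.loopless.irrefl a)] at h1
    nlinarith [sq_nonneg (w a a)]
  have hFle : ∀ a b, F a b ^ 2 ≤ 6.856 * Q a b ^ 2 := by
    intro a b
    have h1 := hsplit a b
    have h2 := hentry a b
    have h3 := hQle a b
    set x := Q a b
    set y := w a b
    have h4 : F a b = y ^ 2 - y := rfl
    rw [h1] at h2
    have ha : G.adjMatrix ℝ a b = 0 ∨ G.adjMatrix ℝ a b = 1 := by
      rw [SimpleGraph.adjMatrix_apply]; split_ifs <;> simp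
    rw [abs_le] at h3
    rcases ha with ha | ha
    · have hy : y = -x := by linarith
      have h5 : F a b = x * (x + 1) := by rw [h4, hy]; ring
      have h6 : (x + 1) ^ 2 ≤ 6.856 := by nlinarith
      rw [h5, mul_pow]
      nlinarith [sq_nonneg x]
    · have hy : y = 1 - x := by linarith
      have h5 : F a b = x * (x - 1) := by rw [h4, hy]; ring
      have h6 : (x - 1) ^ 2 ≤ 6.856 := by nlinarith
      rw [h5, mul_pow]
      nlinarith [sq_nonneg x]
  have hFsq : ∑ a, ∑ b, F a b ^ 2 ≤ 6.856 * (3 * m) := by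
    rw [← hQsq, Finset.mul_sum]
    refine Finset.sum_le_sum fun a _ => ?_
    rw [Finset.mul_sum]
    exact Finset.sum_le_sum fun b _ => hFle a b
  have hrank : F.rank ≤ W.card ^ 2 + W.card := by
    set U : Matrix V (({j // j ∈ W} × {j // j ∈ W}) ⊕ {j // j ∈ W}) ℝ := fun a p =>
      match p with
      | Sum.inl (i, j) => v i a * v j a
      | Sum.inr j => v j a with hU
    set B : Matrix (({j // j ∈ W} × {j // j ∈ W}) ⊕ {j // j ∈ W}) V ℝ := fun p b =>
      match p with
      | Sum.inl (i, j) => lam i * lam j * (v i b * v j b)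
      | Sum.inr j => - (lam j * v j b) with hB
    have h1 : F = U * B := by
      ext a b
      rw [Matrix.mul_apply, Fintype.sum_sum_type, Fintype.sum_prod_type]
      simp only [hU, hB]
      have hwa : w a b = ∑ j : {j // j ∈ W}, lam j * (v j a * v j b) := by
        rw [hw]
        simp only
        rw [← Finset.sum_coe_sort W]
      have hF' : F a b = w a b * w a b - w a b := by rw [hF]; simp only; ring
      rw [hF', hwa, Finset.sum_mul_sum, sub_eq_add_neg, ← Finset.sum_neg_distrib]
      congr 1
      · refine Finset.sum_congr rfl fun i _ => Finset.sum_congr rfl fun j _ => ?_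
        ring
      · refine Finset.sum_congr rfl fun j _ => ?_
        ring
    rw [h1]
    refine (rank_mul_le_card U B).trans ?_
    rw [Fintype.card_sum, Fintype.card_prod, Fintype.card_coe]
    apply le_of_eq; ring
  have hfin := trace_sq_le hFherm
  have hr : (F.rank : ℝ) ≤ (W.card : ℝ) ^ 2 + W.card := by exact_mod_cast hrank
  have hm0 : (0 : ℝ) ≤ m := Nat.cast_nonneg _
  have hk0 : (0 : ℝ) ≤ (W.card : ℝ) ^ 2 + W.card := by positivity
  have h7 : (m : ℝ) ^ 2 ≤ ((W.card : ℝ) ^ 2 + W.card) * (6.856 * (3 * m)) := by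
    calc (m : ℝ) ^ 2 ≤ F.trace ^ 2 := by
          exact pow_le_pow_left₀ hm0 hFtr 2
      _ ≤ F.rank * ∑ a, ∑ b, F a b ^ 2 := hfin
      _ ≤ ((W.card : ℝ) ^ 2 + W.card) * (6.856 * (3 * m)) := by
          refine mul_le_mul hr hFsq ?_ hk0
          exact Finset.sum_nonneg fun a _ => Finset.sum_nonneg fun b _ => sq_nonneg _
  rcases Nat.eq_zero_or_pos m with h0 | hpos
  · rw [h0]; exact Nat.zero_le _
  · have hmpos : (0 : ℝ) < m := by exact_mod_cast hpos
    have h8 : (m : ℝ) * m ≤ (21 * ((W.card : ℝ) ^ 2 + W.card)) * m := by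
      nlinarith
    have h9 := le_of_mul_le_mul_right h8 hmpos
    exact_mod_cast h9

end spectral

/-! ### the golden ratio is an eigenvalue of the path on four vertices -/

/-- adjacency of the path `0 - 1 - 2 - 3` -/
def pathAdj (i j : Fin 4) : Bool := decide (i.val + 1 = j.val) || decide (j.val + 1 = i.val)

/-- the path on four vertices -/
def path4 : SimpleGraph (Fin 4) where
  Adj i j := pathAdj i j = true
  symm := ⟨by decide⟩
  loopless := ⟨by decide⟩

instance : DecidableRel path4.Adj := fun i j => inferInstanceAs (Decidable (pathAdj i j = true))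

lemma path4_eigen : path4.adjMatrix ℝ *ᵥ ![1, Real.goldenRatio, Real.goldenRatio, 1]
    = Real.goldenRatio • ![1, Real.goldenRatio, Real.goldenRatio, 1] := by
  have hsq : Real.goldenRatio ^ 2 = Real.goldenRatio + 1 := Real.goldenRatio_sq
  have hadj : ∀ i j, path4.adjMatrix ℝ i j = if pathAdj i j = true then 1 else 0 := by
    intro i j
    rw [SimpleGraph.adjMatrix_apply]
    rfl
  ext i
  rw [Matrix.mulVec, dotProduct]
  simp only [hadj]
  fin_cases i
  · simp [Fin.sum_univ_four, pathAdj]
  · simp [Fin.sum_univ_four, pathAdj]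
    nlinarith
  · simp [Fin.sum_univ_four, pathAdj]
    nlinarith
  · simp [Fin.sum_univ_four, pathAdj]

/-- **Q1, affirmative.**  For the golden ratio `φ` (an algebraic integer of degree two, and an
eigenvalue of a graph) the maximum multiplicity on `n` vertices is at most `n / 2 - sqrt n / 20`. -/
theorem result :
    ∃ lam : ℝ, IsIntegral ℤ lam ∧ 2 ≤ (minpoly ℚ lam).natDegree ∧
      (∃ (k : ℕ) (G : SimpleGraph (Fin k)) (_ : DecidableRel G.Adj) (x : Fin k → ℝ), x ≠ 0 ∧
        G.adjMatrix ℝ *ᵥ x = lam • x) ∧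
      ∃ c : ℝ, 0 < c ∧ ∃ n0 : ℕ, ∀ n ≥ n0,
        (Es n lam : ℝ) ≤ n / (minpoly ℚ lam).natDegree - c * √n := by
  have hdeg : (minpoly ℚ Real.goldenRatio).natDegree = 2 := by
    rw [minpoly_of Real.goldenRatio_irrational aeval_q_phi, q_deg]
  refine ⟨Real.goldenRatio, ?_, hdeg.ge, ?_, 1 / 20, by norm_num, 0, ?_⟩
  · refine ⟨X ^ 2 - X - 1, by monicity!, ?_⟩
    have hsq : Real.goldenRatio ^ 2 = Real.goldenRatio + 1 := Real.goldenRatio_sq
    simp only [eval₂_sub, eval₂_X_pow, eval₂_X, eval₂_one]
    rw [hsq]; ring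
  · refine ⟨4, path4, inferInstance, ![1, Real.goldenRatio, Real.goldenRatio, 1], ?_, path4_eigen⟩
    intro h
    have := congrFun h 0
    simp at this
  · intro n _
    classical
    rw [hdeg]
    have key : ∀ m : ℕ, (∃ G : SimpleGraph (Fin n), Module.finrank ℝ (LinearMap.ker
        (Matrix.toLin' (G.adjMatrix ℝ) - Real.goldenRatio • LinearMap.id)) = m) →
        (m : ℝ) ≤ n / 2 - 1 / 20 * √n := by
      rintro m ⟨G, hG⟩
      have hA : (G.adjMatrix ℝ).IsHermitian := by
        rw [Matrix.IsHermitian, Matrix.conjTranspose_eq_transpose_of_trivial]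
        exact G.transpose_adjMatrix
      obtain ⟨k, h1, h2⟩ := main_ineq G hA _ rfl
      have h3 := finrank_le hA Real.goldenRatio
      rw [hG] at h3
      set M := (univ.filter fun j => hA.eigenvalues j = Real.goldenRatio).card with hM
      rw [Fintype.card_fin] at h1
      have h4 : (m : ℝ) ≤ M := by exact_mod_cast h3
      have h5 : (n : ℝ) = 2 * M + k := by rw [← h1]; push_cast; ring
      have h6 : n ≤ 100 * k ^ 2 := by
        have : k ≤ k ^ 2 := Nat.le_self_pow (by norm_num) k
        nlinarith
      have h7 : √(n : ℝ) ≤ 10 * k := by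
        rw [show (10 : ℝ) * k = √((10 * k) ^ 2) from (Real.sqrt_sq (by positivity)).symm]
        apply Real.sqrt_le_sqrt
        have : (n : ℝ) ≤ 100 * (k : ℝ) ^ 2 := by exact_mod_cast h6
        nlinarith
      push_cast
      linarith
    have hne : {m | ∃ G : SimpleGraph (Fin n), Module.finrank ℝ (LinearMap.ker
        (Matrix.toLin' (G.adjMatrix ℝ) - Real.goldenRatio • LinearMap.id)) = m}.Nonempty :=
      ⟨_, ⊥, rfl⟩
    have hbdd : BddAbove {m | ∃ G : SimpleGraph (Fin n), Module.finrank ℝ (LinearMap.ker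
        (Matrix.toLin' (G.adjMatrix ℝ) - Real.goldenRatio • LinearMap.id)) = m} := by
      refine ⟨n, ?_⟩
      rintro m hm
      have h1 := key m hm
      have h2 : (m : ℝ) ≤ n := by
        have := Real.sqrt_nonneg (n : ℝ)
        have : (0 : ℝ) ≤ n := Nat.cast_nonneg n
        linarith
      exact_mod_cast h2
    have hmem := Nat.sSup_mem hne hbdd
    exact key _ hmem

end Pool.Agent.Results.MP_4bb7d7_co.GoldenRatio
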