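import Mathlib

/-!
# MP_4c0b8d_co: two-sided intersecting families on a two-part ground set

The conjectured bound `max {A, B}` is false for all `k, ℓ ≥ 2`, `n₁ > 2k`, `n₂ > 2ℓ`.
-/

namespace Pool.Agent.Results.MP_4c0b8d_co.LargerFamily

open Finset

/-- The family of all `F ⊆ X₁ ∪ X₂` with `|F ∩ X₁| = k` and `|F ∩ X₂| = ℓ`. -/
def fam {α : Type*} [DecidableEq α] (X₁ X₂ : Finset α) (k l : ℕ) : Finset (Finset α) :=
  (X₁ ∪ X₂).powerset.filter (fun F => (F ∩ X₁).card = k ∧ (F ∩ X₂).card = l)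

/-- `𝓕` is two-sided intersecting. -/
def TwoSided {α : Type*} [DecidableEq α] (X₁ X₂ : Finset α) (𝓕 : Finset (Finset α)) : Prop :=
  (∀ F ∈ 𝓕, ∀ G ∈ 𝓕, F ∩ G ≠ ∅) ∧
  (∃ F ∈ 𝓕, ∃ G ∈ 𝓕, F ∩ G ∩ X₁ = ∅) ∧ (∃ F ∈ 𝓕, ∃ G ∈ 𝓕, F ∩ G ∩ X₂ = ∅)

/-- The number `A` of the problem; `B` is `bnd n₂ n₁ l k`. -/
def bnd (n₁ n₂ k l : ℕ) : ℕ :=
  ((n₂ - 1).choose (l - 1) - (n₂ - l - 1).choose (l - 1)) * n₁.choose k + 1
    + n₁.choose k - (n₁ - k).choose k

section aux

variable {α : Type*} [DecidableEq α]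

lemma card_through {Y : Finset α} {x : α} (hx : x ∈ Y) {l : ℕ} (hl : 1 ≤ l) :
    ((powersetCard l Y).filter (fun Q => x ∈ Q)).card = (Y.card - 1).choose (l - 1) := by
  rw [← card_erase_of_mem hx, ← card_powersetCard]
  symm
  refine card_nbij' (fun Q => insert x Q) (fun Q => Q.erase x) ?_ ?_ ?_ ?_
  · intro Q hQ
    simp only [mem_coe, mem_powersetCard] at hQ
    have hxQ : x ∉ Q := fun h => (mem_erase.1 (hQ.1 h)).1 rfl
    simp only [coe_filter, mem_powersetCard, Set.mem_ofPred_eq]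
    refine ⟨⟨?_, ?_⟩, mem_insert_self _ _⟩
    · exact insert_subset hx (hQ.1.trans (erase_subset _ _))
    · rw [card_insert_of_notMem hxQ, hQ.2]; omega
  · intro Q hQ
    simp only [coe_filter, mem_powersetCard, Set.mem_ofPred_eq] at hQ
    simp only [mem_coe, mem_powersetCard]
    refine ⟨erase_subset_erase _ hQ.1.1, ?_⟩
    rw [card_erase_of_mem hQ.2, hQ.1.2]
  · intro Q hQ
    simp only [mem_coe, mem_powersetCard] at hQ
    have hxQ : x ∉ Q := fun h => (mem_erase.1 (hQ.1 h)).1 rfl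
    exact erase_insert hxQ
  · intro Q hQ
    simp only [coe_filter, mem_powersetCard, Set.mem_ofPred_eq] at hQ
    exact insert_erase hQ.2

/-- One of the two families: if `ℓ ≥ 2` and `n₂ > 2ℓ` the bound `A` is beaten. -/
lemma one_side (X₁ X₂ : Finset α) (hd : Disjoint X₁ X₂) {k l : ℕ} (hk : 1 ≤ k) (hl : 2 ≤ l)
    (h1 : 2 * k ≤ X₁.card) (h2 : 2 * l < X₂.card) :
    ∃ 𝓕 ⊆ fam X₁ X₂ k l, TwoSided X₁ X₂ 𝓕 ∧ bnd X₁.card X₂.card k l < 𝓕.card := by
  classical
  obtain ⟨x, hx⟩ : X₂.Nonempty := card_pos.1 (by omega)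
  obtain ⟨K, hK, hKc⟩ := exists_subset_card_eq (show k ≤ X₁.card by omega)
  obtain ⟨L, hL, hLc⟩ := exists_subset_card_eq (show l ≤ (X₂.erase x).card by
    rw [card_erase_of_mem hx]; omega)
  have hL2 : L ⊆ X₂ := hL.trans (erase_subset _ _)
  have hxL : x ∉ L := fun h => (mem_erase.1 (hL h)).1 rfl
  have hx1 : x ∉ X₁ := fun h => (disjoint_left.1 hd) h hx
  -- pairs
  set QA := (powersetCard l X₂).filter (fun Q => x ∈ Q) with hQA
  set QB := (powersetCard l (X₂ \ L)).filter (fun Q => x ∈ Q) with hQB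
  set PA := powersetCard k X₁ with hPA
  set PB := powersetCard k (X₁ \ K) with hPB
  set S : Finset (Finset α × Finset α) := insert (K, L) ((PA ×ˢ QA) \ (PB ×ˢ QB)) with hS
  have hQBA : QB ⊆ QA := by
    intro Q hQ
    rw [hQB, mem_filter, mem_powersetCard] at hQ
    rw [hQA, mem_filter, mem_powersetCard]
    exact ⟨⟨hQ.1.1.trans sdiff_subset, hQ.1.2⟩, hQ.2⟩
  have hPBA : PB ⊆ PA := powersetCard_mono sdiff_subset
  have hKL : (K, L) ∉ (PA ×ˢ QA) \ (PB ×ˢ QB) := by
    intro h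
    have := (mem_product.1 (mem_sdiff.1 h).1).2
    exact hxL (mem_filter.1 this).2
  have cQA : QA.card = (X₂.card - 1).choose (l - 1) := card_through hx (by omega)
  have cQB : QB.card = (X₂.card - l - 1).choose (l - 1) := by
    rw [hQB, card_through (mem_sdiff.2 ⟨hx, hxL⟩) (by omega), card_sdiff_of_subset hL2, hLc]
  have cPA : PA.card = X₁.card.choose k := card_powersetCard _ _
  have cPB : PB.card = (X₁.card - k).choose k := by
    rw [hPB, card_powersetCard, card_sdiff_of_subset hK, hKc]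
  have cS : S.card + PB.card * QB.card = PA.card * QA.card + 1 := by
    rw [hS, card_insert_of_notMem hKL, card_sdiff_of_subset (product_subset_product hPBA hQBA),
      card_product, card_product]
    have : PB.card * QB.card ≤ PA.card * QA.card :=
      Nat.mul_le_mul (card_le_card hPBA) (card_le_card hQBA)
    omega
  have hSmem : ∀ p ∈ S, p.1 ⊆ X₁ ∧ p.2 ⊆ X₂ ∧ p.1.card = k ∧ p.2.card = l := by
    intro p hp
    rw [hS, mem_insert] at hp
    rcases hp with rfl | hp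
    · exact ⟨hK, hL2, hKc, hLc⟩
    · have hp := mem_product.1 (mem_sdiff.1 hp).1
      have e1 := mem_powersetCard.1 hp.1
      have e2 := mem_powersetCard.1 (mem_filter.1 hp.2).1
      exact ⟨e1.1, e2.1, e1.2, e2.2⟩
  have int1 : ∀ P Q : Finset α, P ⊆ X₁ → Q ⊆ X₂ → (P ∪ Q) ∩ X₁ = P := by
    intro P Q hP hQ
    ext z
    have := @hP z
    have := @hQ z
    have := (disjoint_left.1 hd) (a := z)
    simp only [mem_inter, mem_union]
    tauto
  have int2 : ∀ P Q : Finset α, P ⊆ X₁ → Q ⊆ X₂ → (P ∪ Q) ∩ X₂ = Q := by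
    intro P Q hP hQ
    ext z
    have := @hP z
    have := @hQ z
    have := (disjoint_left.1 hd) (a := z)
    simp only [mem_inter, mem_union]
    tauto
  have hinj : Set.InjOn (fun p : Finset α × Finset α => p.1 ∪ p.2) S := by
    intro p hp q hq hpq
    simp only at hpq
    obtain ⟨a1, a2, -, -⟩ := hSmem p hp
    obtain ⟨b1, b2, -, -⟩ := hSmem q hq
    refine Prod.ext ?_ ?_
    · rw [← int1 p.1 p.2 a1 a2, hpq, int1 q.1 q.2 b1 b2]
    · rw [← int2 p.1 p.2 a1 a2, hpq, int2 q.1 q.2 b1 b2]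
  refine ⟨S.image (fun p => p.1 ∪ p.2), ?_, ⟨?_, ?_, ?_⟩, ?_⟩
  · intro F hF
    obtain ⟨p, hp, rfl⟩ := mem_image.1 hF
    obtain ⟨a1, a2, a3, a4⟩ := hSmem p hp
    rw [fam, mem_filter, mem_powerset, int1 _ _ a1 a2, int2 _ _ a1 a2]
    exact ⟨union_subset_union a1 a2, a3, a4⟩
  · -- intersecting
    have meet : ∀ p ∈ S, ∀ q ∈ S, ∃ z, z ∈ p.1 ∪ p.2 ∧ z ∈ q.1 ∪ q.2 := by
      have half : ∀ q ∈ (PA ×ˢ QA) \ (PB ×ˢ QB), ∃ z, z ∈ K ∪ L ∧ z ∈ q.1 ∪ q.2 := by
        intro q hq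
        obtain ⟨q1, q2⟩ := mem_sdiff.1 hq
        have q1 := mem_product.1 q1
        by_contra hcon
        push Not at hcon
        apply q2
        rw [mem_product]
        have e1 := mem_powersetCard.1 q1.1
        have e2 := mem_powersetCard.1 (mem_filter.1 q1.2).1
        constructor
        · rw [hPB, mem_powersetCard]
          refine ⟨fun z hz => mem_sdiff.2 ⟨e1.1 hz, fun hzK => ?_⟩, e1.2⟩
          exact hcon z (mem_union_left _ hzK) (mem_union_left _ hz)
        · rw [hQB, mem_filter, mem_powersetCard]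
          refine ⟨⟨fun z hz => mem_sdiff.2 ⟨e2.1 hz, fun hzL => ?_⟩, e2.2⟩,
            (mem_filter.1 q1.2).2⟩
          exact hcon z (mem_union_right _ hzL) (mem_union_right _ hz)
      intro p hp q hq
      rw [hS, mem_insert] at hp hq
      rcases hp with rfl | hp
      · rcases hq with rfl | hq
        · obtain ⟨z, hz⟩ := card_pos.1 (show 0 < K.card by omega)
          exact ⟨z, mem_union_left _ hz, mem_union_left _ hz⟩
        · exact half q hq
      · rcases hq with rfl | hq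
        · obtain ⟨z, h1, h2⟩ := half p hp
          exact ⟨z, h2, h1⟩
        · have p1 := (mem_filter.1 (mem_product.1 (mem_sdiff.1 hp).1).2).2
          have q1 := (mem_filter.1 (mem_product.1 (mem_sdiff.1 hq).1).2).2
          exact ⟨x, mem_union_right _ p1, mem_union_right _ q1⟩
    intro F hF G hG hFG
    obtain ⟨p, hp, rfl⟩ := mem_image.1 hF
    obtain ⟨q, hq, rfl⟩ := mem_image.1 hG
    obtain ⟨z, h1, h2⟩ := meet p hp q hq
    have : z ∈ (p.1 ∪ p.2) ∩ (q.1 ∪ q.2) := mem_inter.2 ⟨h1, h2⟩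
    have hFG' : (p.1 ∪ p.2) ∩ (q.1 ∪ q.2) = ∅ := hFG
    rw [hFG'] at this
    exact notMem_empty z this
  · -- two members that are disjoint on `X₁`
    obtain ⟨y, hy⟩ : L.Nonempty := card_pos.1 (by omega)
    obtain ⟨P', hP', hP'c⟩ := exists_subset_card_eq (show k ≤ (X₁ \ K).card by
      rw [card_sdiff_of_subset hK]; omega)
    obtain ⟨Q, hQ1, hQ2, hQc⟩ := exists_subsuperset_card_eq (s := {x, y}) (t := X₂)
      (by intro z hz; rcases mem_insert.1 hz with rfl | hz
          · exact hx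
          · rw [mem_singleton.1 hz]; exact hL2 hy)
      (show ({x, y} : Finset α).card ≤ l by
        exact card_le_two.trans hl) (show l ≤ X₂.card by omega)
    have hxQ : x ∈ Q := hQ1 (by simp)
    have hyQ : y ∈ Q := hQ1 (by simp)
    have hQA' : Q ∈ QA := by
      rw [hQA, mem_filter, mem_powersetCard]; exact ⟨⟨hQ2, hQc⟩, hxQ⟩
    have hQB' : Q ∉ QB := by
      intro h
      rw [hQB, mem_filter, mem_powersetCard] at h
      exact (mem_sdiff.1 (h.1.1 hyQ)).2 hy
    have m1 : (K, Q) ∈ S := by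
      rw [hS, mem_insert, mem_sdiff, mem_product, mem_product]
      refine Or.inr ⟨⟨?_, hQA'⟩, fun h => hQB' h.2⟩
      rw [hPA, mem_powersetCard]; exact ⟨hK, hKc⟩
    have m2 : (P', Q) ∈ S := by
      rw [hS, mem_insert, mem_sdiff, mem_product, mem_product]
      refine Or.inr ⟨⟨?_, hQA'⟩, fun h => hQB' h.2⟩
      rw [hPA, mem_powersetCard]; exact ⟨hP'.trans sdiff_subset, hP'c⟩
    refine ⟨K ∪ Q, mem_image.2 ⟨_, m1, rfl⟩, P' ∪ Q, mem_image.2 ⟨_, m2, rfl⟩, ?_⟩
    ext z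
    have e1 := @hQ2 z
    have e2 := @hP' z
    have e3 := (disjoint_left.1 hd) (a := z)
    simp only [mem_inter, mem_union, mem_sdiff, notMem_empty, iff_false] at e2 ⊢
    tauto
  · -- two members that are disjoint on `X₂`
    obtain ⟨Q, hQ1, hQ2, hQc⟩ := exists_subsuperset_card_eq (s := {x}) (t := X₂ \ L)
      (by intro z hz; rw [mem_singleton.1 hz]; exact mem_sdiff.2 ⟨hx, hxL⟩)
      (show ({x} : Finset α).card ≤ l by rw [card_singleton]; omega)
      (show l ≤ (X₂ \ L).card by rw [card_sdiff_of_subset hL2]; omega)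
    have hxQ : x ∈ Q := hQ1 (by simp)
    have hKB : K ∉ PB := by
      intro h
      rw [hPB, mem_powersetCard] at h
      obtain ⟨z, hz⟩ := card_pos.1 (show 0 < K.card by omega)
      exact (mem_sdiff.1 (h.1 hz)).2 hz
    have m1 : (K, Q) ∈ S := by
      rw [hS, mem_insert, mem_sdiff, mem_product, mem_product]
      refine Or.inr ⟨⟨?_, ?_⟩, fun h => hKB h.1⟩
      · rw [hPA, mem_powersetCard]; exact ⟨hK, hKc⟩
      · rw [hQA, mem_filter, mem_powersetCard]
        exact ⟨⟨hQ2.trans sdiff_subset, hQc⟩, hxQ⟩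
    refine ⟨K ∪ Q, mem_image.2 ⟨_, m1, rfl⟩, K ∪ L,
      mem_image.2 ⟨(K, L), by rw [hS]; exact mem_insert_self _ _, rfl⟩, ?_⟩
    ext z
    have e1 := @hQ2 z
    have e2 := @hK z
    have e3 := (disjoint_left.1 hd) (a := z)
    simp only [mem_inter, mem_union, mem_sdiff, notMem_empty, iff_false] at e1 ⊢
    tauto
  · -- the size
    rw [card_image_of_injOn hinj]
    have q2 : 2 ≤ QB.card := by
      rw [cQB]
      have h3 : l - 1 + 1 ≤ X₂.card - l - 1 := by omega
      calc 2 ≤ l - 1 + 1 := by omega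
        _ = (l - 1 + 1).choose (l - 1) := (Nat.choose_succ_self_right _).symm
        _ ≤ (X₂.card - l - 1).choose (l - 1) := Nat.choose_le_choose _ h3
    have hlt : PB.card < PA.card := by
      apply card_lt_card
      rw [ssubset_iff_of_subset hPBA]
      refine ⟨K, ?_, ?_⟩
      · rw [hPA, mem_powersetCard]; exact ⟨hK, hKc⟩
      · intro h
        rw [hPB, mem_powersetCard] at h
        obtain ⟨z, hz⟩ := card_pos.1 (show 0 < K.card by omega)
        exact (mem_sdiff.1 (h.1 hz)).2 hz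
    have hQle : QB.card ≤ QA.card := card_le_card hQBA
    have hb : bnd X₁.card X₂.card k l + PB.card
        = (QA.card - QB.card) * PA.card + 1 + PA.card := by
      unfold bnd
      rw [← cQA, ← cQB, ← cPA, ← cPB]
      omega
    obtain ⟨u, hu⟩ : ∃ u, QA.card = QB.card + u := ⟨QA.card - QB.card, by omega⟩
    obtain ⟨v, hv⟩ : ∃ v, PA.card = PB.card + 1 + v := ⟨PA.card - PB.card - 1, by omega⟩
    obtain ⟨w, hw⟩ : ∃ w, QB.card = 2 + w := ⟨QB.card - 2, by omega⟩
    rw [show QA.card - QB.card = u by omega] at hb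
    rw [hu, hv, hw] at cS
    rw [hv] at hb
    clear_value QA QB PA PB S
    have e1 : S.card + PB.card * (2 + w)
        = PB.card * (2 + w) + PB.card * u + (1 + v) * (2 + w) + (1 + v) * u + 1 := by
      rw [cS]; ring
    have e2 : bnd X₁.card X₂.card k l + PB.card
        = PB.card * u + (1 + v) * u + 1 + PB.card + 1 + v := by
      rw [hb]; ring
    have e3 : (1 + v) * (2 + w) = 2 + 2 * v + (1 + v) * w := by ring
    omega

lemma fam_comm (X₁ X₂ : Finset α) (k l : ℕ) : fam X₂ X₁ l k = fam X₁ X₂ k l := by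
  unfold fam
  rw [union_comm]
  exact filter_congr fun F _ => and_comm

lemma twoSided_comm {X₁ X₂ : Finset α} {𝓕 : Finset (Finset α)} (h : TwoSided X₂ X₁ 𝓕) :
    TwoSided X₁ X₂ 𝓕 := ⟨h.1, h.2.2, h.2.1⟩

end aux

/-- **Main theorem.** For all `k, ℓ ≥ 2`, `|X₁| = n₁ > 2k`, `|X₂| = n₂ > 2ℓ` there is a two-sided
intersecting family with more than `max {A, B}` members. -/
theorem result : ∀ (α : Type*) [DecidableEq α] (X₁ X₂ : Finset α), Disjoint X₁ X₂ →
    ∀ k l : ℕ, 2 ≤ k → 2 ≤ l → 2 * k < X₁.card → 2 * l < X₂.card →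
    ∃ 𝓕 ⊆ fam X₁ X₂ k l, TwoSided X₁ X₂ 𝓕 ∧
      max (bnd X₁.card X₂.card k l) (bnd X₂.card X₁.card l k) < 𝓕.card := by
  intro α _ X₁ X₂ hd k l hk hl h1 h2
  rcases le_total (bnd X₁.card X₂.card k l) (bnd X₂.card X₁.card l k) with h | h
  · obtain ⟨𝓕, hs, ht, hc⟩ := one_side X₂ X₁ hd.symm (show 1 ≤ l by omega) hk h2.le h1
    refine ⟨𝓕, ?_, twoSided_comm ht, ?_⟩
    · rw [← fam_comm]; exact hs
    · rw [max_eq_right h]; exact hc
  · obtain ⟨𝓕, hs, ht, hc⟩ := one_side X₁ X₂ hd (show 1 ≤ k by omega) hl h1.le h2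
    refine ⟨𝓕, hs, ht, ?_⟩
    rw [max_eq_left h]; exact hc

end Pool.Agent.Results.MP_4c0b8d_co.LargerFamily
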