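import Pool.Agent.Q8.KC.Main

/-!
# One Künneth component of one power decides the conjecture C for all powers

Let `W` be a Weil cohomology theory on a class of smooth projective varieties over a field, closed
under products (the intended use: the `ℓ`-adic theory and all smooth projective varieties over an
algebraically closed field), `X` a variety of the class, of dimension `n`, and `D` a divisor on `X`
whose top self-intersection number is not zero (an ample divisor). Let `X^m` be the `m`-fold product
(`pw X (m - 1)`), and `π_j(X^m)` the Künneth component of the diagonal of `X^m` which induces the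
projector onto `H^j(X^m)`.

* First part. Let `m ≥ 4`. For ALL `j` the component `π_j(X^m)` is algebraic if and only if
  `π_i(X)` is algebraic for all `i` for which `H^i(X) ⊗ H^(j-i)(X^(m-1))` is not zero. So a
  component of a power is algebraic only for the obvious reason: no accidental cancellation between
  the summands `π_(i_1)(X) × ... × π_(i_m)(X)` of `π_j(X^m)` is possible.
* Second part. If `m ≥ 4`, `3n ≤ j ≤ (2m - 3) n` and `H^j(X^m)` is not zero, then the single
  component `π_j(X^m)` (for example the middle component of `X^4`) is algebraic if and only if all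
  Künneth components of all powers of `X` are. So there is a zero-one law: if one component of one
  power of `X` is not algebraic, then for all `m ≥ 4` no nonzero component `π_j(X^m)` with
  `3n ≤ j ≤ (2m - 3) n` is algebraic.
* Third part. Let `𝒲` be a set of theories for which the cycles on `X × X` have the same rational
  traces on each `H^i(X)` (for the `ℓ`-adic theories, `ℓ ≠ p`, this is the theorem of Katz and
  Messing and the specialisation of cycles). If for ONE theory `W` in `𝒲` one component `π_j(X^m)`
  as in the second part is a combination of classes of cycles with coefficients in the coefficient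
  field of `W`, then for each `r` and `i` ONE cycle with rational coefficients on `X^r × X^r`
  induces the projector onto `H^i(X^r)` for ALL theories in `𝒲`.

The proof. The contraction (partial trace) of `π_j(X × Y)` with an algebraic correspondence `S` of
degree zero on `Y` is the algebraic operator `∑ tr(S | H^(j-i)(Y)) π_i(X)` (up to signs). For
`S = D^(e-b) × D^b` it is a multiple of `π_(j-2b)(X)`; this gives the `π_i(X)` with `i ≡ j` modulo 2
and all `π_s(X × X)`, `s ≡ j`, in a window of length `2 (m-2) n ≥ 4n`. If `S = π_l(Y)` is algebraic
it gives `π_(j-l)(X)`; this settles the even `i` for odd `j`. For odd `i` and even `j`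
the window contains `2 i₀` or `4n - 2 i₀`, where `i₀` is the first odd degree with `H^(i₀)(X) ≠ 0`,
and the contraction of `π_(2 i₀)(X × X)` with the diagonal is `b_(i₀) π_(i₀)(X)` up to even terms; then
`S = π_(i₀)` gives the other odd degrees.
-/

open CategoryTheory AlgebraicGeometry

universe u v

namespace Pool.Agent.Results.MP_4ca46c_ag.OneComponentDecides

open Pool.Agent.H914 Pool.Agent.H914.VarClass Pool.Agent.H914.VarClass.Obj
open Pool.Agent.Y133.Half (pw)
open Pool.Agent.TH133.PW (SameTracesAll OneProjectorForAll)
open Pool.Agent.Q8.KC

variable {k : Type u} [Field k] {𝒱 : VarClass k} {ops : CycleOps 𝒱}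

/-- **The Künneth components of the powers of a variety.** -/
theorem result (W : WeilCohomology.{u, v} ops) (X : 𝒱.Obj) (D : X.Cycles) (hD : X.IsCyc 1 D)
    (h0 : W.tr X (W.cl X D ^ X.dim) ≠ 0) :
    (∀ m ≥ 3, ∀ j, ComponentAlgebraic W (pw X m) j ↔
      ∀ i, OccursIn W X (pw X (m - 1)) j i → ComponentAlgebraic W X i) ∧
    ∀ m ≥ 3, ∀ j, 3 * X.dim ≤ j → j + 3 * X.dim ≤ 2 * (pw X m).dim → W.gr (pw X m) j ≠ ⊥ →
      (ComponentAlgebraic W (pw X m) j ↔ ∀ r i, ComponentAlgebraic W (pw X r) i) ∧
      ∀ 𝒲 : Set (WeilCohomology.{u, v} ops), W ∈ 𝒲 → SameTracesAll 𝒲 X →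
        (ComponentInSpan W (pw X m) j ↔ ∀ r i, OneProjectorForAll 𝒲 (pw X r) i) :=
  ⟨fun _ hm j => pw_iff hD h0 hm j, fun _ hm _ h1 h2 hj =>
    ⟨one_iff hD h0 hm h1 h2 hj, fun _ hW h𝒲 => theory_iff hD h0 hW h𝒲 hm h1 h2 hj⟩⟩

end Pool.Agent.Results.MP_4ca46c_ag.OneComponentDecides
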