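import Pool.Agent.Q73.Bl.Std

/-!
# MP_4d1c53_an: the composition of two indestructible Blaschke products is indestructible
-/

set_option autoImplicit false

open scoped ComplexConjugate

namespace Pool.Agent.Results.MP_4d1c53_an.Composition

/-- `B` is, on the open unit disc, a Blaschke product: a nonconstant function of the form
`e^{iθ} z^m ∏_i (|a_i| / a_i) (a_i - z) / (1 - conj a_i z)`, the product over a finite or countably
infinite family `(a_i)` of nonzero points of the disc with `∑ (1 - |a_i|) < ∞`. -/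
def IsBlaschkeProduct (B : ℂ → ℂ) : Prop :=
  (∃ (θ : ℝ) (m : ℕ) (ι : Type) (_ : Countable ι) (a : ι → ℂ), (∀ i, a i ≠ 0 ∧ ‖a i‖ < 1) ∧
    Summable (fun i => 1 - ‖a i‖) ∧ ∀ z, ‖z‖ < 1 → B z = Complex.exp (θ * Complex.I) * z ^ m *
      ∏' i, (‖a i‖ : ℂ) / a i * ((a i - z) / (1 - conj (a i) * z))) ∧
  ∃ z w, ‖z‖ < 1 ∧ ‖w‖ < 1 ∧ B z ≠ B w

/-- the conformal automorphism `w ↦ e^{iφ} (w - a) / (1 - conj a w)` of the disc -/
noncomputable def aut (φ : ℝ) (a w : ℂ) : ℂ :=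
  Complex.exp (φ * Complex.I) * ((w - a) / (1 - conj a * w))

/-- a Blaschke product `B` is indestructible if `T ∘ B` is a Blaschke product for every conformal
automorphism `T` of the disc -/
def IsIndestructible (B : ℂ → ℂ) : Prop :=
  IsBlaschkeProduct B ∧ ∀ (φ : ℝ) (a : ℂ), ‖a‖ < 1 → IsBlaschkeProduct fun z => aut φ a (B z)

open Q73.Bl in
theorem IsBlaschkeProduct.gb {B : ℂ → ℂ} (h : IsBlaschkeProduct B) : GB B := by
  obtain ⟨⟨θ, m, ι, _, a, ha, hs, hB⟩, -⟩ := h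
  exact std_to_gen ha hs hB

open Q73.Bl in
theorem aut_comp {B C : ℂ → ℂ} (hB : IsIndestructible B) (hC : IsIndestructible C) {B₁ : ℂ → ℂ}
    (hB₁ : GB B₁) (hinj : ∀ z w : ℂ, ‖z‖ < 1 → ‖w‖ < 1 → B₁ z = B₁ w → B z = B w) :
    IsBlaschkeProduct fun z => B₁ (C z) := by
  have hCb := hC.1.gb
  have hCn := hC.1.2
  have hCd : ∀ z, ‖z‖ < 1 → ‖C z‖ < 1 := fun z hz => hCb.norm_lt hCn hz
  have hBb := hB.1.gb
  -- nonconstancy
  have hnc : ∃ z w, ‖z‖ < 1 ∧ ‖w‖ < 1 ∧ B₁ (C z) ≠ B₁ (C w) := by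
    by_contra hcon
    push Not at hcon
    have h0 : ‖(0:ℂ)‖ < 1 := by simp
    have hconst : ∀ z, ‖z‖ < 1 → B (C z) = B (C 0) := fun z hz =>
      hinj _ _ (hCd z hz) (hCd 0 h0) (hcon z 0 hz h0)
    set c := B (C 0) with hc
    have hc1 : ‖c‖ < 1 := hBb.norm_lt hB.1.2 (hCd 0 h0)
    have hT := (hB.2 0 c hc1).gb.countable_zeros
    refine not_countable hCb.continuousOn hCn hT fun z hz => ⟨hCd z hz, ?_⟩
    rw [hconst z hz, aut, sub_self, zero_div, mul_zero]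
  refine ⟨gen_to_std ?_, hnc⟩
  obtain ⟨z, w, hz, hw, hzw⟩ := hnc
  have hex : ∃ z₀, ‖z₀‖ < 1 ∧ B₁ (C z₀) ≠ 0 := by
    by_cases h : B₁ (C z) = 0
    · exact ⟨w, hw, fun h' => hzw (by rw [h, h'])⟩
    · exact ⟨z, hz, h⟩
  obtain ⟨z₀, hz₀, hne⟩ := hex
  refine comp_GB hB₁ hCd (fun b hb => ?_) hz₀ hne
  obtain ⟨φ, hφ⟩ := gf_eq_aut (b := b)
  have := (hC.2 φ b hb).gb
  unfold aut at this
  simp only [← hφ] at this
  exact this

/-- **Q1 of MP_4d1c53_an.** If `B` and `C` are indestructible Blaschke products, then `B ∘ C` is an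
indestructible Blaschke product. -/
theorem result (B C : ℂ → ℂ) (hB : IsIndestructible B) (hC : IsIndestructible C) :
    IsIndestructible fun z => B (C z) := by
  refine ⟨aut_comp hB hC hB.1.gb fun z w _ _ h => h, fun φ a ha => ?_⟩
  refine aut_comp (B₁ := fun w => aut φ a (B w)) hB hC (hB.2 φ a ha).gb fun z w hz hw h => ?_
  -- injectivity of the automorphism on the disc
  have h1 : ‖B z‖ < 1 := hB.1.gb.norm_lt hB.1.2 hz
  have h2 : ‖B w‖ < 1 := hB.1.gb.norm_lt hB.1.2 hw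
  have d1 := Q73.Bl.den_ne ha h1
  have d2 := Q73.Bl.den_ne ha h2
  simp only [aut] at h
  have h3 := mul_left_cancel₀ (Complex.exp_ne_zero _) h
  rw [div_eq_div_iff d1 d2] at h3
  have h4 : (1 - conj a * a) * (B z - B w) = 0 := by linear_combination h3
  rcases mul_eq_zero.1 h4 with h5 | h5
  · exact absurd h5 (Q73.Bl.den_ne ha ha)
  · exact sub_eq_zero.1 h5

end Pool.Agent.Results.MP_4d1c53_an.Composition
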