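import Pool.Agent.Q265.BM.C

/-!
# The abc conjecture on the image of a Belyi map

Let `f = p / q` be a rational function over a number field `K` which, as a map of the projective line,
is unramified outside `0, 1, ∞` and maps `∞` to one of these points. If the abc inequality (the
inequality Q1 for the points `0, 1, ∞`) holds at the values of `f` on `K`, then Q1 holds for all the
finite sets of `K`-rational points lying over `0, 1, ∞`, at all points of `K`. If `f` maps `0` and `1`
to `0, 1, ∞` as well, then the abc conjecture over `K` is equivalent to its restriction to the values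
of `f`.
-/

set_option autoImplicit false

open NumberField Polynomial

namespace Pool.Agent.Results.MP_4d5ce1_nt.BelyiImages

variable {K : Type} [Field K] [NumberField K]

/-- the absolute logarithmic height of the point `[t : 1]` -/
noncomputable def h (t : K) : ℝ := Height.logHeight₁ t / Module.finrank ℚ K

/-- The points `[t : 1]` and `[a : 1]` coincide modulo the prime of `v`, that is, the local height
`λ_v(a, t)` is positive. -/
def Meets (v : FinitePlace K) (a t : K) : Prop := v (t - a) < max (v t) 1 * max (v a) 1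

/-- The sum over the primes outside `S` and over the `m + 1` points `a 1, …, a m, ∞` of the truncated
local heights `λ⁽¹⁾_v(α, t)`: each prime at which `t` meets the point `α` is counted with
`log N(𝔭) / [K : ℚ]` (`t` meets `∞` if `1 < v t`). -/
noncomputable def N1 (S : Finset (FinitePlace K)) {m : ℕ} (a : Fin m → K) (t : K) : ℝ :=
  ((∑ i, ∑ᶠ v ∈ {v : FinitePlace K | v ∉ S ∧ Meets v (a i) t},
      Real.log ((Ideal.absNorm v.maximalIdeal.asIdeal : ℕ) : ℝ)) +
    ∑ᶠ v ∈ {v : FinitePlace K | v ∉ S ∧ 1 < v t},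
      Real.log ((Ideal.absNorm v.maximalIdeal.asIdeal : ℕ) : ℝ)) / Module.finrank ℚ K

/-- The inequality of Q1 for the `q = m + 1` points `a 1, …, a m, ∞`, all `S` and all `ε`, at the
points `t` of the set `T` (different from the `a i`). -/
def Q1On {m : ℕ} (a : Fin m → K) (T : Set K) : Prop :=
  ∀ S : Finset (FinitePlace K), ∀ ε : ℝ, 0 < ε → ∃ C : ℝ, ∀ t ∈ T, (∀ i, t ≠ a i) →
    (((m + 1 : ℕ) : ℝ) - 2 - ε) * h t ≤ N1 S a t + C

/-- The rational function `f = p / q` has degree `d ≥ 1` and there are at most `d + 1` points other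
than `∞` of the projective line (over the algebraic closure) with `f ∈ {0, 1, ∞}`. By the formula of
Riemann and Hurwitz this means that `f` is unramified outside `0, 1, ∞` (a Belyi map) and that
`f(∞) ∈ {0, 1, ∞}`. -/
def IsBelyi (p q : K[X]) (d : ℕ) : Prop :=
  IsCoprime p q ∧ 1 ≤ d ∧ p.natDegree ≤ d ∧ q.natDegree ≤ d ∧ (p.natDegree = d ∨ q.natDegree = d) ∧
    ((p * q * (p - q)).rootSet (AlgebraicClosure K)).ncard ≤ d + 1

/-- the values of `f = p / q` on `K` -/
def Values (p q : K[X]) : Set K := {y | ∃ t : K, q.eval t ≠ 0 ∧ y = p.eval t / q.eval t}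

theorem sum_eq (T : Set (FinitePlace K)) :
    (∑ᶠ v ∈ T, Real.log ((Ideal.absNorm v.maximalIdeal.asIdeal : ℕ) : ℝ)) =
      Real.log (Q265.NF.PP T) := by
  unfold Q265.NF.PP
  rw [Real.log_finprod (fun v => lt_of_lt_of_le one_pos (Q241.AK.one_le_pr _ v))]
  refine finsum_congr fun v => ?_
  classical
  rw [finsum_eq_if]
  unfold Q241.AK.pr Q241.AK.N
  by_cases hv : v ∈ T
  · rw [if_pos hv, if_pos hv]
  · rw [if_neg hv, if_neg hv, Real.log_one]

theorem N1_eq (S : Finset (FinitePlace K)) {m : ℕ} (a : Fin m → K) (t : K) :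
    N1 S a t = Q265.BM.Cn S a t / Module.finrank ℚ K := by
  unfold N1 Q265.BM.Cn
  congr 1
  rw [sum_eq]
  congr 1
  exact Finset.sum_congr rfl fun i _ => sum_eq _

theorem iff_ineq {m : ℕ} (a : Fin m → K) (T : Set K) : Q1On a T ↔ Q265.BM.Ineq a T := by
  have hd : (0 : ℝ) < Module.finrank ℚ K := by exact_mod_cast Module.finrank_pos
  have e : ∀ (ε : ℝ) (t : K), (((m + 1 : ℕ) : ℝ) - 2 - ε) * h t =
      (((m : ℝ) - 1 - ε) * Height.logHeight₁ t) / Module.finrank ℚ K := by
    intro ε t
    unfold h
    push_cast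
    ring
  constructor
  · intro H S ε hε
    obtain ⟨C, hC⟩ := H S ε hε
    refine ⟨Module.finrank ℚ K * C, fun t ht hta => ?_⟩
    have h2 := hC t ht hta
    rw [e, N1_eq, div_le_iff₀ hd] at h2
    have e2 : (Q265.BM.Cn S a t / Module.finrank ℚ K + C) * Module.finrank ℚ K =
        Q265.BM.Cn S a t + Module.finrank ℚ K * C := by
      field_simp
    rwa [e2] at h2
  · intro H S ε hε
    obtain ⟨C, hC⟩ := H S ε hε
    refine ⟨C / Module.finrank ℚ K, fun t ht hta => ?_⟩
    have h2 := hC t ht hta
    rw [e, N1_eq, ← add_div]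
    gcongr

/-- **Belyi images.** Let `f = p / q` be a Belyi map over the number field `K` with
`f(∞) ∈ {0, 1, ∞}`.
(1) If the inequality Q1 for the points `0, 1, ∞` holds at the values of `f` on `K`, then Q1 holds at
all points for the points `a 1, …, a m, ∞`, for all distinct `a i ∈ K` with `f (a i) ∈ {0, 1, ∞}`.
(2) If `f(0), f(1) ∈ {0, 1, ∞}`, then Q1 for `0, 1, ∞` (the abc conjecture for `K`) is equivalent to
its restriction to the values of `f` on `K`. -/
theorem result (K : Type) [Field K] [NumberField K] (p q : K[X]) (d : ℕ) (hf : IsBelyi p q d) :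
    (∀ (m : ℕ) (a : Fin m → K), Function.Injective a →
      (∀ i, (p * q * (p - q)).eval (a i) = 0) →
      Q1On ![0, 1] (Values p q) → Q1On a Set.univ) ∧
    ((p * q * (p - q)).eval 0 = 0 → (p * q * (p - q)).eval 1 = 0 →
      (Q1On ![(0 : K), 1] Set.univ ↔ Q1On ![0, 1] (Values p q))) := by
  obtain ⟨h1, h2, h3, h4, h5, h6⟩ := hf
  have main : ∀ (m : ℕ) (a : Fin m → K), Function.Injective a →
      (∀ i, (p * q * (p - q)).eval (a i) = 0) →
      Q1On ![0, 1] (Values p q) → Q1On a Set.univ := by
    intro m a ha1 ha2 H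
    have hne : p * q * (p - q) ≠ 0 := by
      have hp0 : p ≠ 0 := by
        rintro rfl
        have e2 := natDegree_eq_zero_of_isUnit (isCoprime_zero_left.1 h1)
        rw [natDegree_zero] at h5
        omega
      have hq0 : q ≠ 0 := by
        rintro rfl
        have e2 := natDegree_eq_zero_of_isUnit (isCoprime_zero_right.1 h1)
        rw [natDegree_zero] at h5
        omega
      have hpq0 : p - q ≠ 0 := by
        intro h
        have h7 : p = q := sub_eq_zero.1 h
        rw [← h7] at h1 h5
        have e2 := natDegree_eq_zero_of_isUnit (isCoprime_self.1 h1)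
        omega
      exact mul_ne_zero (mul_ne_zero hp0 hq0) hpq0
    obtain ⟨r, NN, hr1, hr2, hr3⟩ := Q265.BM.exists_rad hne h6
    rw [iff_ineq] at H ⊢
    exact Q265.BM.belyi h2 h1 h3 h4 h5 hr1 hr2 hr3 a ha1 ha2 H
  refine ⟨main, fun h0 h1' => ⟨fun H S ε hε => ?_, fun H => main 2 ![0, 1] ?_ ?_ H⟩⟩
  · obtain ⟨C, hC⟩ := H S ε hε
    exact ⟨C, fun t _ hta => hC t (Set.mem_univ t) hta⟩
  · intro i j hij
    fin_cases i <;> fin_cases j <;> simp at hij ⊢
  · intro i
    fin_cases i
    · exact h0
    · exact h1'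

end Pool.Agent.Results.MP_4d5ce1_nt.BelyiImages
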