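import Mathlib
import Pool.Agent.Q273.ApxF
import Pool.Agent.Results.MP_4d5ce1_nt.ExceptionalSetRoots

/-!
# Vojta's inequality with truncated counting functions at the good approximations of almost all points

`K` is a number field of degree `d`, `Y` a metric space and `φ : K → Y` a map, for instance the
inclusion of `K` in one of its completions or in a product of completions. For all points `ξ` of `Y`
outside a set of Hausdorff dimension at most `d e(q) / τ`, all but finitely many of the `x ∈ K` with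
`dist(ξ, φ(x)) ≤ A H(x) ^ (-τ)` satisfy `(q - 2) h(x) + c ≤ ∑_{v ∉ T} ∑_l λ^(1)_v(α_l, x)`, for all
`A` and `c`, all finite sets `T` of primes, and all `q` distinct points `α_l` of the line at once.
-/

set_option autoImplicit false

namespace Pool.Agent.Results.MP_4d5ce1_nt.GoodApproximations

open NumberField IsDedekindDomain

/-- the absolute logarithmic height of the point `[x : 1]` -/
noncomputable def height {K : Type} [Field K] [NumberField K] (x : K) : ℝ :=
  (∑ w : InfinitePlace K, (w.mult : ℝ) * Real.log (max (w x) (w 1)) +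
    ∑ᶠ v : HeightOneSpectrum (RingOfIntegers K),
      Real.log (max (FinitePlace.mk v x) (FinitePlace.mk v 1))) /
    (Module.finrank ℚ K : ℝ)

/-- the truncated counting function of the point `[x : 1]` with respect to the points
`[(α l).1 : (α l).2]`: the sum over the primes outside `T` and over `l` of the truncated local
heights -/
noncomputable def counting {K : Type} [Field K] [NumberField K]
    (T : Set (HeightOneSpectrum (RingOfIntegers K))) {q : ℕ} (α : Fin q → K × K) (x : K) : ℝ :=
  ∑ᶠ (v : HeightOneSpectrum (RingOfIntegers K)) (_ : v ∉ T),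
    ∑ l : Fin q,
      min
        (Real.log
            (max (FinitePlace.mk v x) (FinitePlace.mk v 1) *
              max (FinitePlace.mk v (α l).1) (FinitePlace.mk v (α l).2) /
              FinitePlace.mk v (x * (α l).2 - 1 * (α l).1)) /
          (Module.finrank ℚ K : ℝ))
        (Real.log (Ideal.absNorm v.asIdeal : ℝ) / (Module.finrank ℚ K : ℝ))

/-- the exponent `e(q)` -/
noncomputable def exponent (q : ℕ) : ℝ :=
  if q = 3 then 80 / 133 else if q = 4 then 18 / 23 else if q = 5 ∨ q = 6 then 1 else 8 / 7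

private theorem exponent_eq {q : ℕ} (hq : 3 ≤ q) :
    ExceptionalSetRoots.exponent q 2 = exponent q := by
  unfold ExceptionalSetRoots.exponent exponent
  rw [if_neg (lt_irrefl _)]
  have hm : max ((2 : ℝ) - 2) (8 / 7) = 8 / 7 := by norm_num
  rw [hm]
  by_cases h3 : q = 3
  · subst h3
    norm_num
  rw [if_neg h3, if_neg h3]
  by_cases h4 : q = 4
  · subst h4
    norm_num
  rw [if_neg h4, if_neg h4]
  by_cases h5 : q = 5
  · subst h5
    norm_num
  by_cases h6 : q = 6
  · subst h6
    norm_num
  have hor : ¬ (q = 5 ∨ q = 6) := by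
    rintro (h | h)
    · exact h5 h
    · exact h6 h
  rw [if_neg hor, if_neg hor]
  have h7 : (7 : ℝ) ≤ q := by
    have : 7 ≤ q := by omega
    exact_mod_cast this
  have h8 : (8 / 7 : ℝ) ≤ 2 - 2 * 2 / q := by
    have h9 : (2 * 2 : ℝ) / q ≤ 4 / 7 := by
      rw [div_le_div_iff₀ (by linarith) (by norm_num)]
      linarith
    linarith
  rw [min_eq_right h8, min_eq_left (by norm_num)]

/-- **Vojta's inequality at the good approximations of almost all points.** Let `K` be a number
field of degree `d`, `Y` a metric space, `φ : K → Y` a map, `q ≥ 3` and `τ > 0`. There is a set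
`E ⊆ Y` of Hausdorff dimension at most `d e(q) / τ` such that for every `ξ ∈ Y` outside `E`, every
finite set `T` of primes of `K`, all pairwise distinct points `α_1, …, α_q` of the line over `K` and
all real `c`, `A`, only finitely many `x ∈ K` different from the `α_l` with
`dist(ξ, φ(x)) ≤ A H(x) ^ (-τ)` violate `(q - 2) h(x) + c ≤ ∑_{v ∉ T} ∑_l λ^(1)_v(α_l, x)`. -/
theorem result :
    ∀ (K : Type) [Field K] [NumberField K] (Y : Type) [MetricSpace Y] (φ : K → Y)
      (q : ℕ), 3 ≤ q → ∀ τ : ℝ, 0 < τ →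
      ∃ E : Set Y, dimH E ≤ ENNReal.ofReal ((Module.finrank ℚ K : ℝ) * exponent q / τ) ∧
        ∀ ξ : Y, ξ ∉ E →
          ∀ T : Set (HeightOneSpectrum (RingOfIntegers K)), T.Finite →
            ∀ (α : Fin q → K × K),
              (∀ i, α i ≠ 0) →
              (∀ i j, i ≠ j → (α i).1 * (α j).2 - (α i).2 * (α j).1 ≠ 0) →
              ∀ c A : ℝ,
                {x : K | (∀ l, x * (α l).2 - 1 * (α l).1 ≠ 0) ∧
                  dist ξ (φ x) ≤ A * (Real.exp (height x)) ^ (-τ) ∧
                  counting T α x < ((q : ℝ) - 2) * height x + c}.Finite := by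
  intro K _ _ Y _ φ q hq τ hτ
  have : Countable K := Q273.Apx.countable_numberField K
  have := Q273.Apx.countable_finite_sets K
  let ι : Type := {T : Set (HeightOneSpectrum (𝓞 K)) // T.Finite} ×
    {α : Fin q → K × K // (∀ i, α i ≠ 0) ∧
      (∀ i j, i ≠ j → (α i).1 * (α j).2 - (α i).2 * (α j).1 ≠ 0)} × ℕ
  let S : ι → Set K := fun i => {x : K | (∀ l, x * (i.2.1.1 l).2 - 1 * (i.2.1.1 l).1 ≠ 0) ∧
    counting i.1.1 i.2.1.1 x < ((q : ℝ) - 2) * height x + i.2.2}
  have he0 : 0 ≤ exponent q := by
    unfold exponent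
    split_ifs <;> norm_num
  have hq3 : (3 : ℝ) ≤ q := by exact_mod_cast hq
  obtain ⟨E, hE1, hE2⟩ := Q273.Apx.approx_family S (fun x => Real.exp (height x)) φ
    (s := (Module.finrank ℚ K : ℝ) * exponent q) (τ := τ) (by positivity) hτ (by
      rintro ⟨⟨T, hT⟩, ⟨α, hα0, hα⟩, c⟩ ε hε
      obtain ⟨C, hC⟩ := ExceptionalSetRoots.result K T hT q (by omega) α hα0 hα 2 c ε
        (by norm_num) (by linarith) hε
      refine ⟨C, fun X hX => ?_⟩
      obtain ⟨h1, h2⟩ := hC X hX
      rw [exponent_eq hq] at h2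
      have hset : {x : K | x ∈ S ⟨⟨T, hT⟩, ⟨α, hα0, hα⟩, c⟩ ∧ Real.exp (height x) ≤ X} =
          {x : K | (∀ l, x * (α l).2 - 1 * (α l).1 ≠ 0) ∧
            Real.exp (ExceptionalSetRoots.height x) ≤ X ∧
            ExceptionalSetRoots.counting T α x <
              ((q : ℝ) - 2) * ExceptionalSetRoots.height x + (c : ℝ)} := by
        ext x
        constructor
        · rintro ⟨⟨h3, h4⟩, h5⟩
          exact ⟨h3, h5, h4⟩
        · rintro ⟨h3, h5, h4⟩
          exact ⟨⟨h3, h4⟩, h5⟩
      rw [hset]
      exact ⟨h1, h2⟩)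
  refine ⟨E, hE1, fun ξ hξ T hT α hα0 hα c A => ?_⟩
  obtain ⟨N, hN⟩ := exists_nat_ge c
  refine (hE2 ξ hξ ⟨⟨T, hT⟩, ⟨α, hα0, hα⟩, N⟩ A).subset ?_
  rintro x ⟨h1, h2, h3⟩
  exact ⟨⟨h1, by
    show counting T α x < ((q : ℝ) - 2) * height x + (N : ℝ)
    linarith⟩, h2⟩

end Pool.Agent.Results.MP_4d5ce1_nt.GoodApproximations
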