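import Pool.Agent.Q271.RC.FGTMain

/-!
MP_4dacf8_ag, Q1: Vojta's height inequality over function fields, for covers of pairs over tori, with
few counted places.

`F` is the function field of a smooth projective complex curve `B`. `IsPairF F S₀ d a f e`
(`Pool/Agent/Q271/RC/FDefs.lean`): `X` is an integral projective variety over `F` with generic point
`a` and function field `K`; the `f i` are forms over `F` of degree `e` such that the rational map
`(f 0 : … : f n)` on `X` is generically finite onto its image (any subvariety of projective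
`n`-space over `F`); `D` is the divisor where the ratios `f i / f 0` are not units; the total space
over `B - S₀`, minus `D`, is of log general type. `IsCoverF F a b g e'`: `Y` is a projective variety
over `F` with generic point `b` and function field `K'`, and the forms `g 0, …, g N` over `F` define
a generically finite dominant rational map from `Y` to `X`.

`HighContact m v z`: at `z` the orders of `v 0, …, v n` are all equal, or two of them differ by at
least `m`. `RamifiedF F S₁ m b h`: this is so for the forms `h i = f i (g)` and all points of `Y`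
over extensions `L` of `F`, at the places of `L` which are not over the finite set `S₁`; for
instance if the forms `h i` are `m`-th powers of forms on `Y`, up to factors in `F` which are units
outside of `S₁`.

Theorem: there is `m` such that for all covers `Y` of `X` there are a proper closed subset `G = 0`
of `Y` and constants `A`, `C` such that for all finite extensions `L` of `F` and all points `v` of
`Y` over `L` outside `G = 0`: (1) `h(v) ≤ A (2 g(L) - 2 + |T|) + C [L : F]` for all finite sets `T`
of places of `L` which contain the places at which the contact order of `g(v)` with `D` is positive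
and less than `m`; so the places with contact at least `m` need not be counted. (2) If `Y` is
ramified to order at least `m` over `D`, outside of the fibres over a finite set `S₁`, then
`h(v) ≤ A (2 g(L) - 2) + C' [L : F]`, and the total space of `Y` over `B - S₀ - S₁` is of
logarithmic general type (`LogGeneralType`, boundary: the prime divisors over `S₀` and `S₁`).
-/

set_option autoImplicit false

namespace Pool.Agent.Results.MP_4dacf8_ag.RamifiedCoverPoints

open MvPolynomial FF Pool.Agent.W603.LV Pool.Agent.W603.PV Pool.Agent.Q271.RC Pool.Agent.Q72.NA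
open Pool.Agent.W602.GT (LogGeneralType)

/-- the inequality (1), for the points outside `G = 0` -/
def Ineq (F : Type) [Field F] [Algebra ℂ F] {N' n : ℕ} {K' : Type} [Field K'] [Algebra F K']
    (m : ℕ) (b : Fin (N' + 1) → K') (h : Fin (n + 1) → MvPolynomial (Fin (N' + 1)) F)
    (G : MvPolynomial (Fin (N' + 1)) F) (A C : ℕ) : Prop :=
  ∀ (L : Type) [Field L] [Algebra ℂ L] [Algebra F L] [IsScalarTower ℂ F L] [Module.Finite F L]
    (v : Fin (N' + 1) → L), IsPointF F b v → aeval v G ≠ 0 → ∀ T : Finset (Place ℂ L),
    (∀ z : Place ℂ L, z ∉ T → HighContact m (fun i => aeval v (h i)) z) →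
    pht ℂ v ≤ A * (canDeg ℂ L + T.card) + C * Module.finrank F L

/-- the inequality (2), with empty divisor, for the points outside `G = 0` -/
def Ineq0 (F : Type) [Field F] [Algebra ℂ F] {N' : ℕ} {K' : Type} [Field K'] [Algebra F K']
    (b : Fin (N' + 1) → K') (G : MvPolynomial (Fin (N' + 1)) F) (A C : ℕ) : Prop :=
  ∀ (L : Type) [Field L] [Algebra ℂ L] [Algebra F L] [IsScalarTower ℂ F L] [Module.Finite F L]
    (v : Fin (N' + 1) → L), IsPointF F b v → aeval v G ≠ 0 →
    pht ℂ v ≤ A * canDeg ℂ L + C * Module.finrank F L

/-- See the explanation at the beginning of the file. -/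
theorem result {N n d : ℕ} (F : Type) [Field F] [Algebra ℂ F] [IsFF ℂ F]
    (S₀ : Finset (Place ℂ F)) (K : Type) [Field K] [Algebra ℂ K] [Algebra F K]
    [IsScalarTower ℂ F K] (a : Fin (N + 1) → K)
    (f : Fin (n + 1) → MvPolynomial (Fin (N + 1)) F) (e : ℕ) (hX : IsPairF F S₀ d a f e) :
    ∃ m : ℕ, ∀ (N' : ℕ) (K' : Type) [Field K'] [Algebra ℂ K'] [Algebra F K']
      [IsScalarTower ℂ F K'] [Algebra K K'] [IsScalarTower F K K'] (b : Fin (N' + 1) → K')
      (g : Fin (N + 1) → MvPolynomial (Fin (N' + 1)) F) (e' : ℕ), IsCoverF F a b g e' →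
      ∃ (G : MvPolynomial (Fin (N' + 1)) F) (D A C : ℕ), G.IsHomogeneous D ∧ aeval b G ≠ 0 ∧
        Ineq F m b (fun i => bind₁ g (f i)) G A C ∧
        ∀ S₁ : Finset (Place ℂ F), RamifiedF F S₁ m b (fun i => bind₁ g (f i)) →
          (∃ C' : ℕ, Ineq0 F b G A C') ∧
          LogGeneralType ℂ K' d fun P => (∃ q ∈ S₀, IsOver P q) ∨ ∃ q ∈ S₁, IsOver P q := by
  obtain ⟨m1, hm1⟩ := coverF F S₀ K a f e hX
  obtain ⟨m2, hm2⟩ := coverF_gt F S₀ K a f e hX
  refine ⟨m1 + m2, fun N' K' _ _ _ _ _ _ b g e' hY => ?_⟩
  obtain ⟨G, D, A, C, hG, hGb, hmain⟩ := hm1 (m1 + m2) (by omega) N' K' b g e' hY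
  refine ⟨G, D, A, C, hG, hGb, fun L _ _ _ _ _ v hv hGv T hT => ((hmain L v hv hGv).2 T hT),
    fun S₁ hram => ⟨?_, hm2 (m1 + m2) (by omega) N' K' b g e' hY S₁ hram⟩⟩
  obtain ⟨H, hH⟩ := card_over S₁
  refine ⟨A * H + C, fun L _ _ _ _ _ v hv hGv => ?_⟩
  obtain ⟨T, hT, hTz⟩ := hH L
  obtain ⟨h1, h2⟩ := hmain L v hv hGv
  have h3 := h2 T fun z hz => hram L v hv h1 z (hTz z hz)
  refine h3.trans ?_
  have hA0 : (0 : ℤ) ≤ A := Int.natCast_nonneg _
  have h4 := mul_le_mul_of_nonneg_left hT hA0
  push_cast
  nlinarith

end Pool.Agent.Results.MP_4dacf8_ag.RamifiedCoverPoints
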