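import Pool.Agent.Q60.PB.HC

/-!
# Whether the Hodge classes on the powers of a variety are absolutely Hodge is decided by one
# explicit power

Let `X` be a smooth projective complex variety and let `b` be its total Betti number. Put
`N = b ^ 3` if the centre of the algebra of the endomorphisms of `H(X)` given by Hodge classes on
`X × X` is a product of totally real fields, that is if there is no complex multiplication in this
centre, and `N = (2 b) ^ (3 b ^ 2)` in general.

* If all Hodge classes on the single variety `X ^ N` are absolutely Hodge, then all Hodge classes on
  all powers of `X` are absolutely Hodge.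
* Let `ε > 0` and let `n ≥ (2 b) ^ (3 N + 3) / ε ^ 2`. If the space of the absolutely Hodge classes
  on `X ^ n` has a dimension greater than `1 / 2 + ε` times the dimension of the space of the Hodge
  classes on `X ^ n`, then all Hodge classes on all powers of `X` are absolutely Hodge.

The bounds depend on nothing but the total Betti number of `X`, and the bound `b ^ 3` is a
polynomial in it.

The theorem is proved for the varieties of an arbitrary class of smooth projective varieties which
is stable under products, an arbitrary Hodge theory `T` on this class for which `H(X)` is
polarisable, and arbitrary conjugate theories with comparison isomorphisms. In the intended use the varieties are all smooth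
projective complex varieties, `T` is `X ↦ H(X, ℚ)`, the conjugate theories are `X ↦ H(X^σ, ℚ)` for
the automorphisms `σ` of `ℂ`, and the comparison isomorphisms are given by de Rham cohomology and by
`ℓ`-adic cohomology for all primes `ℓ`. If only the de Rham comparison, or only the `ℓ`-adic one, is
used, one obtains the corresponding statement for the weaker notion.
-/

open CategoryTheory AlgebraicGeometry

universe u

namespace Pool.Agent.Results.MP_4e1cf2_ag.EffectiveFiniteDetermination

open Pool.Agent.H914
open Pool.Agent.Y121.AHS (HodgeTheory IsHodge hodgeDim)
open Pool.Agent.Y121.AHS.Full (Conjugates IsAbsHodge absDim)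
open Pool.Agent.Q60.FI (Polarisable TotallyRealCentre)

variable {k : Type u} [Field k] {𝒱 : VarClass k} {ops : CycleOps 𝒱}

/-- All Hodge classes on `Y` are absolutely Hodge. -/
def AllAbs {T : HodgeTheory ops} (D : Conjugates T) (Y : 𝒱.Obj) : Prop :=
  ∀ j c, IsHodge T Y j c → IsAbsHodge D Y j c

/-- The product of `n` copies of `X`, for `n ≥ 1`. -/
noncomputable def power (X : 𝒱.Obj) (n : ℕ) : 𝒱.Obj := Pool.Agent.Y133.Half.pw X (n - 1)

/-- **Effective finite determination for absolutely Hodge classes**, with a polynomial bound if the
centre of the algebra of the Hodge endomorphisms is totally real. -/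
theorem result (T : HodgeTheory ops) (D : Conjugates T) (X : 𝒱.Obj) (hp : Polarisable T X)
    (b N : ℕ) (hb : Module.finrank T.W.K (T.W.H X) = b)
    (hN : N = (2 * b) ^ (3 * b ^ 2) ∨ N = b ^ 3 ∧ TotallyRealCentre T X) :
    (AllAbs D (power X N) → ∀ n, AllAbs D (power X n)) ∧
    ∀ ε : ℝ, 0 < ε → ∀ n : ℕ, (2 * b : ℝ) ^ (3 * N + 3) / ε ^ 2 ≤ n →
      (1 / 2 + ε) * hodgeDim T (power X n) < absDim D (power X n) →
      ∀ m, AllAbs D (power X m) :=
  Pool.Agent.Q60.PB.abs_powers T D X hp hb hN

end Pool.Agent.Results.MP_4e1cf2_ag.EffectiveFiniteDetermination
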