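import Pool.Agent.Q260.DJ.BkAll
import Pool.Agent.Q65.BD.JZ
import Pool.Agent.Q239.DJ.LC
import Pool.Agent.Q177.DJ.CP

/-!
# Backlund's criterion for derivatives of `ξ` and Jensen shifts

Let `ξ(s) = s (s - 1) π^(-s/2) Γ(s/2) ζ(s) / 2` and `8 ξ(1/2 + z) = ∑ γ(k) z^(2k) / k!`.  Differentiation moves the zeros
towards the critical line (almost all zeros of `ξ^(n)` are on it for large `n`), and the same is true for the shifts
`Φ_n(z) = ∑ γ(n+k) z^(2k) / k!`, whose zeros decide whether the Jensen polynomials of shift `n` have only real zeros.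

By Backlund the Lindelof hypothesis holds if and only if `ζ` has `o(log T)` zeros with `Re s ≥ 1/2 + ε` and
`T ≤ Im s ≤ T + 1`.  We prove that it holds if and only if this is so for ONE of the functions `F = ξ^(n)`,
`F(s) = Φ_n(s - 1/2)`, and the same for the Lindelof bound on each line `Re s = σ`, `1/2 ≤ σ < 1`, also locally in `T`.

Idea: if `G'` has few zeros to the right of a line near the height `T`, then it is there at most `T^(o(1))` times the
gamma factor (Blaschke product, Borel-Caratheodory, three circles); integration along VERTICAL rays upwards, where the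
gamma factor decays exponentially, gives the same bound for `G`, and so on down to `ξ`.  Conversely Cauchy's
estimate on circles of radius `1 / log T` and Jensen's formula.
-/

set_option autoImplicit false

open Complex Filter Topology

namespace Pool.Agent.Results.MP_4e5e8a_nt.BacklundForDerivatives

/-- The Riemann function `ξ(s) = s (s - 1) Λ(s) / 2`, `Λ(s) = π^(-s/2) Γ(s/2) ζ(s) = Λ₀(s) - 1/s - 1/(1-s)`. -/
noncomputable def xi (s : ℂ) : ℂ := s * (s - 1) / 2 * completedRiemannZeta₀ s + 1 / 2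

/-- The coefficients `γ(k)` in `8 ξ(1/2 + z) = ∑ γ(k) z^(2k) / k!`. -/
noncomputable def γ (k : ℕ) : ℝ :=
  (k.factorial : ℝ) / ((2 * k).factorial : ℝ) * (iteratedDeriv (2 * k) (fun z : ℂ => 8 * xi (1 / 2 + z)) 0).re

/-- The shifted function `Φ_n(z) = ∑ γ(n+k) z^(2k) / k!`; `Φ_0(z) = 8 ξ(1/2 + z)`. -/
noncomputable def Φ (n : ℕ) (z : ℂ) : ℂ := ∑' k : ℕ, ((γ (n + k) : ℝ) : ℂ) / (k.factorial : ℂ) * z ^ (2 * k)

/-- The functions `F`: a derivative `ξ^(n)`, or `F(s) = Φ_n(s - 1/2)`. -/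
def Member (F : ℂ → ℂ) : Prop := ∃ n : ℕ, F = iteratedDeriv n xi ∨ F = fun s => Φ n (s - 1 / 2)

/-- The Lindelof bound for zeta on the line `Re s = σ`; for `σ = 1/2` this is Q1. -/
def LindelofAt (σ : ℝ) : Prop := ∀ ε : ℝ, 0 < ε → ∃ C : ℝ, ∀ t : ℝ,
  ‖riemannZeta (σ + t * I)‖ ≤ C * (1 + |t|) ^ ε

/-- The zeros of `F` with `Re s ≥ a` and `|Im s - T| ≤ 1`. -/
def box (F : ℂ → ℂ) (a T : ℝ) : Set ℂ := {s : ℂ | F s = 0 ∧ a ≤ s.re ∧ |s.im - T| ≤ 1}

/-- `F` has at most `x` zeros, counted with multiplicity, with `Re s ≥ a` and `|Im s - T| ≤ 1`. -/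
def AtMost (F : ℂ → ℂ) (a T x : ℝ) : Prop :=
  (box F a T).Finite ∧ ((∑ᶠ s ∈ box F a T, analyticOrderNatAt F s : ℕ) : ℝ) ≤ x

open Pool.Agent.Q260.DJ
open Pool.Agent.H24R2.JP (XX gam)
open Pool.Agent.Q260.DS (Few)

lemma xi_eq : xi = Pool.Agent.H24R2.JP.xi := rfl

lemma XX_xi : (fun z : ℂ => 8 * xi (1 / 2 + z)) = XX := by
  funext z
  unfold xi XX
  ring

lemma gam_eq : γ = gam := by
  funext k
  unfold γ gam
  rw [XX_xi]

lemma Φ_eq (n : ℕ) : Φ n = Pool.Agent.Q260.DJ.Ph n := by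
  funext z
  unfold Φ Pool.Agent.Q260.DJ.Ph
  rw [gam_eq]

lemma member_rep {F : ℂ → ℂ} (h : Member F) : ∃ (l : List Bool) (G : ℂ → ℂ), Rep l F G := by
  obtain ⟨n, rfl | rfl⟩ := h
  · rw [xi_eq]
    exact ⟨_, _, rep_false n⟩
  · rw [Φ_eq]
    exact ⟨_, _, rep_true n⟩

section

variable {l : List Bool} {F G : ℂ → ℂ}

lemma half_re' (z : ℂ) : (z - 1 / 2).re = z.re - 1 / 2 := by rw [Complex.sub_re, half_re]
lemma half_im' (z : ℂ) : (z - 1 / 2).im = z.im := by rw [Complex.sub_im, half_im, sub_zero]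

lemma F_zero (r : Rep l F G) {s : ℂ} (hs : 0 < s.im) : F s = 0 ↔ It l (s - 1 / 2) = 0 := by
  obtain ⟨c, hc, hF⟩ := r.shift
  rw [r.it _ (im_ne (by rw [half_im']; exact hs)), hF s, mul_eq_zero]
  exact ⟨fun h => h.resolve_left hc, Or.inr⟩

lemma F_order (r : Rep l F G) {s : ℂ} (hs : 0 < s.im) :
    analyticOrderNatAt F s = analyticOrderNatAt (It l) (s - 1 / 2) := by
  obtain ⟨c, hc, hF⟩ := r.shift
  have e : F = (fun _ : ℂ => c) * fun s => G (s - 1 / 2) := by
    funext s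
    exact hF s
  have hg : AnalyticAt ℂ (fun s : ℂ => G (s - 1 / 2)) s :=
    (r.diff.comp (by fun_prop : Differentiable ℂ fun s : ℂ => s - 1 / 2)).analyticAt s
  have hev : It l =ᶠ[𝓝 (s - 1 / 2)] G := by
    filter_upwards [isOpen_ne.mem_nhds (im_ne (by rw [half_im']; exact hs) : s - 1 / 2 ≠ 0)] with w hw
    exact r.it w hw
  unfold analyticOrderNatAt
  rw [analyticOrderAt_congr hev, e, analyticOrderAt_mul analyticAt_const hg, Pool.Agent.Q177.DJ.ord_shift,
    (analyticAt_const.analyticOrderAt_eq_zero).2 hc, zero_add]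

lemma box_finite (r : Rep l F G) (a : ℝ) {T : ℝ} (hT : 1 < T) : (box F a T).Finite := by
  have h1 := (Pool.Agent.Q177.DJ.rep_en r).fin (a - 1 / 2) (T + 1)
  refine (h1.image fun z => z + 1 / 2).subset ?_
  rintro s ⟨h2, h3, h4⟩
  have h5 := abs_le.1 h4
  refine ⟨s - 1 / 2, ⟨?_, ?_, ?_, ?_⟩, by show s - 1 / 2 + 1 / 2 = s; ring⟩
  · obtain ⟨c, hc, hs⟩ := r.shift
    rw [hs] at h2
    exact (mul_eq_zero.1 h2).resolve_left hc
  · rw [half_re']
    linarith
  · rw [half_im']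
    linarith
  · rw [half_im']
    linarith

lemma to_few (r : Rep l F G) {a T x : ℝ} (hT : 1 < T) (h : AtMost F a T x) : Few (It l) (a - 1 / 2) T 1 x := by
  intro Z hZ
  refine le_trans ?_ h.2
  rw [finsum_mem_eq_finite_toFinset_sum _ h.1]
  push_cast
  have hinj : Function.Injective fun z : ℂ => z + 1 / 2 := add_left_injective _
  have hp : ∀ z ∈ Z, 0 < (z + 1 / 2 : ℂ).im := by
    intro z hz
    have h5 := abs_le.1 (hZ z hz).2.2.2
    rw [Complex.add_im, half_im]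
    linarith
  have e : ∑ z ∈ Z, (analyticOrderNatAt (It l) z : ℝ) =
      ∑ s ∈ Z.map ⟨_, hinj⟩, (analyticOrderNatAt F s : ℝ) := by
    rw [Finset.sum_map]
    refine Finset.sum_congr rfl fun z hz => ?_
    show _ = (analyticOrderNatAt F (z + 1 / 2) : ℝ)
    rw [F_order r (hp z hz), add_sub_cancel_right]
  rw [e]
  refine Finset.sum_le_sum_of_subset_of_nonneg (fun s hs => ?_) fun _ _ _ => Nat.cast_nonneg _
  rw [Finset.mem_map] at hs
  obtain ⟨z, hz, rfl⟩ := hs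
  obtain ⟨h1, h2, h3, h4⟩ := hZ z hz
  rw [Set.Finite.mem_toFinset]
  show F (z + 1 / 2) = 0 ∧ a ≤ (z + 1 / 2 : ℂ).re ∧ |(z + 1 / 2 : ℂ).im - T| ≤ 1
  refine ⟨(F_zero r (hp z hz)).2 (by rw [add_sub_cancel_right]; exact h1), ?_, ?_⟩
  · rw [Complex.add_re, half_re]
    linarith
  · rw [Complex.add_im, half_im, add_zero]
    exact h4

lemma of_few (r : Rep l F G) {a T x : ℝ} (hT : 1 < T) (h : Few (It l) (a - 1 / 2) T 1 x) : AtMost F a T x := by
  have hfin := box_finite r a hT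
  refine ⟨hfin, ?_⟩
  rw [finsum_mem_eq_finite_toFinset_sum _ hfin]
  push_cast
  have hinj : Function.Injective fun z : ℂ => z - 1 / 2 := sub_left_injective
  have hp : ∀ s ∈ hfin.toFinset, 0 < s.im := by
    intro s hs
    rw [Set.Finite.mem_toFinset] at hs
    have h5 := abs_le.1 hs.2.2
    linarith
  refine le_trans (le_of_eq ?_) (h (hfin.toFinset.map ⟨_, hinj⟩) ?_)
  · rw [Finset.sum_map]
    refine Finset.sum_congr rfl fun s hs => ?_
    show _ = (analyticOrderNatAt (It l) (s - 1 / 2) : ℝ)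
    rw [F_order r (hp s hs)]
  · intro z hz
    rw [Finset.mem_map] at hz
    obtain ⟨s, hs, rfl⟩ := hz
    have hs0 := hp s hs
    rw [Set.Finite.mem_toFinset] at hs
    show It l (s - 1 / 2) = 0 ∧ a - 1 / 2 ≤ (s - 1 / 2 : ℂ).re ∧ (s - 1 / 2 : ℂ).re ≤ 2 ∧
      |(s - 1 / 2 : ℂ).im - T| ≤ 1
    have h1 := (F_zero r hs0).1 hs.1
    refine ⟨h1, ?_, ?_, ?_⟩
    · rw [half_re']
      linarith [hs.2.1]
    · rw [r.it _ (im_ne (by rw [half_im']; exact hs0))] at h1
      linarith [(abs_le.1 (r.strip _ h1)).2]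
    · rw [half_im']
      exact hs.2.2

end

lemma jz : S_JZ := Pool.Agent.Q65.BD.t_JZ

lemma fewmono {G : ℂ → ℂ} {a a' T R x x' : ℝ} (h : Few G a T R x) (ha : a ≤ a') (hx : x ≤ x') : Few G a' T R x' :=
  fun Z hZ => (h Z fun z hz => ⟨(hZ z hz).1, ha.trans (hZ z hz).2.1, (hZ z hz).2.2⟩).trans hx

/-- heights near a large height -/
lemma near (C X : ℝ) (hC : 0 ≤ C) : ∃ T0 : ℝ, 3 ≤ T0 ∧ ∀ y T : ℝ, T0 ≤ T → |y - T| ≤ C * Real.log T →
    X ≤ y ∧ 1 ≤ Real.log T ∧ Real.log y ≤ 2 * Real.log T ∧ Real.log T ≤ 2 * Real.log y := by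
  have h1 := (Real.isLittleO_log_id_atTop.bound (c := 1 / (2 * (C + 1))) (by positivity))
  obtain ⟨T', hT'⟩ := eventually_atTop.1 h1
  refine ⟨max T' (max (2 * |X|) 4), le_trans (by norm_num) ((le_max_right _ _).trans (le_max_right _ _)),
    fun y T hT hy => ?_⟩
  have t1 := (le_max_left _ _).trans hT
  have t2 := ((le_max_left _ _).trans (le_max_right _ _)).trans hT
  have t3 := ((le_max_right _ _).trans (le_max_right _ _)).trans hT
  have h2 := hT' T t1
  have hl : 0 ≤ Real.log T := Real.log_nonneg (by linarith)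
  rw [Real.norm_eq_abs, Real.norm_eq_abs, id, abs_of_nonneg hl, abs_of_nonneg (by linarith : (0 : ℝ) ≤ T)] at h2
  have h4 : C * Real.log T ≤ T / 2 := by
    calc C * Real.log T ≤ (C + 1) * (1 / (2 * (C + 1)) * T) := by
          apply mul_le_mul (by linarith) h2 hl (by linarith)
      _ = T / 2 := by field_simp
  have h5 := abs_le.1 hy
  have h6 : 1 ≤ Real.log T := by
    rw [Real.le_log_iff_exp_le (by linarith)]
    linarith [Real.exp_one_lt_d9]
  refine ⟨by linarith [le_abs_self X], h6, ?_, ?_⟩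
  · have h7 : Real.log y ≤ Real.log (T ^ 2) := Real.log_le_log (by linarith) (by nlinarith)
    rw [Real.log_pow] at h7
    push_cast at h7
    exact h7
  · have h7 : Real.log T ≤ Real.log (y ^ 2) := Real.log_le_log (by linarith) (by nlinarith)
    rw [Real.log_pow] at h7
    push_cast at h7
    exact h7

/-- few zeros of one `F` near `T` give the bound for zeta at the height `T` -/
lemma dirA (l : List Bool) {σ : ℝ} (hσ : 1 / 2 ≤ σ) (hσ1 : σ < 1) {ε : ℝ} (hε : 0 < ε) :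
    ∃ η C T0 : ℝ, 0 < η ∧ 1 ≤ C ∧ 3 ≤ T0 ∧ ∀ T : ℝ, T0 ≤ T → (∀ y : ℝ, |y - T| ≤ C * Real.log T →
      Few (It l) (σ + η - 1 / 2) y 1 (η * Real.log T)) → ‖riemannZeta (σ + T * I)‖ ≤ T ^ ε := by
  obtain ⟨δ, h, T1, hδ, hh, hT1, H1⟩ := (jz σ hσ hσ1).1 ε hε
  obtain ⟨d, hd⟩ : ∃ d : ℝ, d = min δ 1 := ⟨_, rfl⟩
  have hd0 : 0 < d := by rw [hd]; exact lt_min hδ one_pos
  have hdδ : d ≤ δ := by rw [hd]; exact min_le_left _ _
  have hd1 : d ≤ 1 := by rw [hd]; exact min_le_right _ _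
  obtain ⟨e, C2, T2, he, hC2, hT2, H2⟩ := jq l (d / 2) (d / 2) (by linarith) (by linarith) (by linarith)
  obtain ⟨T3, hT3, H3⟩ := near h T2 hh.le
  have hmin : 0 < min (e / 2) (d / 2) := lt_min (by linarith) (by linarith)
  refine ⟨min (e / 2) (d / 2), h + 12 + 2 * C2, max T1 T3, hmin, by linarith, hT1.trans (le_max_left _ _),
    fun T hT hZ => ?_⟩
  have t1 := (le_max_left _ _).trans hT
  have t3 := (le_max_right _ _).trans hT
  have hl : 1 ≤ Real.log T := (H3 T T t3 (by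
    rw [sub_self, abs_zero]
    exact mul_nonneg hh.le (Real.log_nonneg (by linarith)))).2.1
  refine H1 T t1 fun y hy => ?_
  obtain ⟨n1, -, n3, n4⟩ := H3 y T t3 (hy.trans (by nlinarith))
  have h5 := (H2 y (σ - 1 / 2 + d / 2) n1 (by linarith) (by linarith)).1 fun y' a1 a2 => ?_
  · refine fewmono h5 (by linarith) ?_
    calc d / 2 * Real.log y ≤ d / 2 * (2 * Real.log T) := mul_le_mul_of_nonneg_left n3 (by linarith)
      _ = d * Real.log T := by ring
      _ ≤ δ * Real.log T := mul_le_mul_of_nonneg_right hdδ (by linarith)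
  · have h6 := abs_le.1 hy
    have h7 : C2 * Real.log y ≤ C2 * (2 * Real.log T) := mul_le_mul_of_nonneg_left n3 (by linarith)
    have h9 : h ≤ h * Real.log T := by nlinarith
    have h8 : |y' - T| ≤ (h + 12 + 2 * C2) * Real.log T := by
      rw [abs_le]
      constructor <;> nlinarith
    refine fewmono (hZ y' h8) (by linarith [min_le_right (e / 2) (d / 2)]) ?_
    calc min (e / 2) (d / 2) * Real.log T ≤ e / 2 * (2 * Real.log y) :=
          mul_le_mul (min_le_left _ _) n4 (by linarith) (by linarith)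
      _ = e * Real.log y := by ring

/-- the bound for zeta near `T` gives few zeros of every `F` near `T` -/
lemma dirB (l : List Bool) {σ : ℝ} (hσ : 1 / 2 ≤ σ) (hσ1 : σ < 1) {ε : ℝ} (hε : 0 < ε) :
    ∃ η C T0 : ℝ, 0 < η ∧ 1 ≤ C ∧ 3 ≤ T0 ∧ ∀ T : ℝ, T0 ≤ T → (∀ t : ℝ, |t - T| ≤ C →
      ‖riemannZeta (σ + t * I)‖ ≤ T ^ η) → Few (It l) (σ + ε - 1 / 2) T 1 (ε * Real.log T) := by
  obtain ⟨d, hd⟩ : ∃ d : ℝ, d = min ε 1 := ⟨_, rfl⟩
  have hd0 : 0 < d := by rw [hd]; exact lt_min hε one_pos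
  have hdε : d ≤ ε := by rw [hd]; exact min_le_left _ _
  have hd1 : d ≤ 1 := by rw [hd]; exact min_le_right _ _
  obtain ⟨e, C2, T2, he, hC2, hT2, H2⟩ := jq l (d / 2) d (by linarith) (by linarith) hd0
  have hmin : 0 < min (e / 2) (d / 2) := lt_min (by linarith) (by linarith)
  obtain ⟨ε1, h, T1, hε1, hh, hT1, H1⟩ := (jz σ hσ hσ1).2 (min (e / 2) (d / 2)) hmin
  obtain ⟨T3, hT3, H3⟩ := near 12 T1 (by norm_num)
  refine ⟨ε1 / 2, h + 12, max T2 T3, by linarith, by linarith, hT2.trans (le_max_left _ _), fun T hT hv => ?_⟩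
  have t1 := (le_max_left _ _).trans hT
  have t3 := (le_max_right _ _).trans hT
  have hl : 1 ≤ Real.log T := (H3 T T t3 (by
    rw [sub_self, abs_zero]
    exact mul_nonneg (by norm_num) (Real.log_nonneg (by linarith)))).2.1
  have h5 := (H2 T (σ - 1 / 2 + d / 2) t1 (by linarith) (by linarith)).2 fun y hy => ?_
  · exact fewmono h5 (by linarith) (mul_le_mul_of_nonneg_right hdε (by linarith))
  · obtain ⟨n1, -, n3, n4⟩ := H3 y T t3 (hy.trans (by nlinarith))
    have h6 := H1 y n1 fun t ht => ?_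
    · refine fewmono h6 (by linarith [min_le_right (e / 2) (d / 2)]) ?_
      calc min (e / 2) (d / 2) * Real.log y ≤ e / 2 * (2 * Real.log T) :=
            mul_le_mul (min_le_left _ _) n3 (by linarith) (by linarith)
        _ = e * Real.log T := by ring
    · have h7 : |t - T| ≤ |t - y| + |y - T| := abs_sub_le _ _ _
      refine (hv t (by linarith)).trans ?_
      rw [Real.rpow_def_of_pos (by linarith), Real.rpow_def_of_pos (by linarith)]
      apply Real.exp_le_exp.2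
      nlinarith

/-- large heights suffice -/
lemma of_large {σ : ℝ} (hσ1 : σ < 1) (h : ∀ ε : ℝ, 0 < ε → ∃ Y : ℝ, ∀ t : ℝ, Y ≤ t →
    ‖riemannZeta (σ + t * I)‖ ≤ t ^ ε) : LindelofAt σ := by
  intro ε hε
  obtain ⟨Y0, hY0⟩ := h ε hε
  obtain ⟨Y, hY⟩ : ∃ Y : ℝ, Y = max Y0 1 := ⟨_, rfl⟩
  have hYY : Y0 ≤ Y := by rw [hY]; exact le_max_left _ _
  have hY1 : 1 ≤ Y := by rw [hY]; exact le_max_right _ _
  have hcont : ContinuousOn (fun t : ℝ => ‖riemannZeta ((σ : ℝ) + t * I)‖) (Set.Icc (-Y) Y) := by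
    intro t _
    have h1 : ((σ : ℝ) : ℂ) + t * I ≠ 1 := by
      intro h2
      have := congrArg Complex.re h2
      simp at this
      linarith
    have h2 : ContinuousAt (fun t : ℝ => riemannZeta ((σ : ℝ) + t * I)) t :=
      ContinuousAt.comp (g := riemannZeta) (f := fun t : ℝ => ((σ : ℝ) : ℂ) + t * I)
        (differentiableAt_riemannZeta h1).continuousAt (by fun_prop)
    exact h2.norm.continuousWithinAt
  obtain ⟨M, hM⟩ := isCompact_Icc.bddAbove_image hcont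
  refine ⟨max M 1, fun t => ?_⟩
  have hone : 1 ≤ (1 + |t|) ^ ε := Real.one_le_rpow (by linarith [abs_nonneg t]) hε.le
  have hM1 : 1 ≤ max M 1 := le_max_right _ _
  rcases le_total |t| Y with h1 | h1
  · have h2 : ‖riemannZeta ((σ : ℝ) + t * I)‖ ≤ M := hM ⟨t, abs_le.1 h1, rfl⟩
    calc _ ≤ max M 1 := h2.trans (le_max_left _ _)
      _ ≤ _ := le_mul_of_one_le_right (by linarith) hone
  · have h2 : ‖riemannZeta ((σ : ℝ) + t * I)‖ = ‖riemannZeta ((σ : ℝ) + (|t| : ℝ) * I)‖ := by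
      rcases abs_choice t with h3 | h3
      · rw [h3]
      · rw [h3]
        have e : ((σ : ℝ) : ℂ) + ((-t : ℝ) : ℂ) * I = (starRingEnd ℂ) ((σ : ℝ) + (t : ℝ) * I) := by
          rw [map_add, map_mul, conj_ofReal, conj_ofReal, conj_I]
          push_cast
          ring
        rw [e, riemannZeta_conj, Complex.norm_conj]
    rw [h2]
    have h3 := hY0 |t| (hYY.trans h1)
    calc _ ≤ _ := h3
      _ ≤ (1 + |t|) ^ ε := Real.rpow_le_rpow (abs_nonneg t) (by linarith) hε.le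
      _ ≤ _ := le_mul_of_one_le_left (by positivity) hM1

/-- **Backlund's criterion for the functions `F = ξ^(n)` and `F(s) = Φ_n(s - 1/2)`.** (1) The Lindelof hypothesis
(`σ = 1/2`), and the Lindelof bound on each line `Re s = σ`, `1/2 ≤ σ < 1`, hold if and only if ONE `F` has `o(log T)`
zeros with `Re s ≥ σ + ε`, `|Im s - T| ≤ 1`. (2), (3) Local forms. -/
theorem result (F : ℂ → ℂ) (hF : Member F) (σ : ℝ) (hσ : 1 / 2 ≤ σ) (hσ1 : σ < 1) :
    (LindelofAt σ ↔ ∀ ε : ℝ, 0 < ε → ∃ T₀ : ℝ, ∀ T : ℝ, T₀ ≤ T → AtMost F (σ + ε) T (ε * Real.log T)) ∧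
    (∀ ε : ℝ, 0 < ε → ∃ η C T₀ : ℝ, 0 < η ∧ ∀ T : ℝ, T₀ ≤ T →
      (∀ y : ℝ, |y - T| ≤ C * Real.log T → AtMost F (σ + η) y (η * Real.log T)) →
      ‖riemannZeta (σ + T * I)‖ ≤ T ^ ε) ∧
    (∀ ε : ℝ, 0 < ε → ∃ η C T₀ : ℝ, 0 < η ∧ ∀ T : ℝ, T₀ ≤ T →
      (∀ t : ℝ, |t - T| ≤ C → ‖riemannZeta (σ + t * I)‖ ≤ T ^ η) →
      AtMost F (σ + ε) T (ε * Real.log T)) := by
  obtain ⟨l, G, r⟩ := member_rep hF
  have hA : ∀ ε : ℝ, 0 < ε → ∃ η C T₀ : ℝ, 0 < η ∧ 1 ≤ C ∧ 3 ≤ T₀ ∧ ∀ T : ℝ, T₀ ≤ T →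
      (∀ y : ℝ, |y - T| ≤ C * Real.log T → AtMost F (σ + η) y (η * Real.log T)) →
      ‖riemannZeta (σ + T * I)‖ ≤ T ^ ε := by
    intro ε hε
    obtain ⟨η, C, T0, hη, hC, hT0, H⟩ := dirA l hσ hσ1 hε
    obtain ⟨T1, hT1, H1⟩ := near C 2 (by linarith)
    refine ⟨η, C, max T0 T1, hη, hC, hT0.trans (le_max_left _ _), fun T hT hZ => ?_⟩
    refine H T ((le_max_left _ _).trans hT) fun y hy => ?_
    have h1 := (H1 y T ((le_max_right _ _).trans hT) hy).1
    exact to_few r (by linarith) (hZ y hy)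
  have hB : ∀ ε : ℝ, 0 < ε → ∃ η C T₀ : ℝ, 0 < η ∧ 1 ≤ C ∧ 3 ≤ T₀ ∧ ∀ T : ℝ, T₀ ≤ T →
      (∀ t : ℝ, |t - T| ≤ C → ‖riemannZeta (σ + t * I)‖ ≤ T ^ η) →
      AtMost F (σ + ε) T (ε * Real.log T) := by
    intro ε hε
    obtain ⟨η, C, T0, hη, hC, hT0, H⟩ := dirB l hσ hσ1 hε
    exact ⟨η, C, T0, hη, hC, hT0, fun T hT hv => of_few r (by linarith) (H T hT hv)⟩
  refine ⟨⟨fun h ε hε => ?_, fun h => of_large hσ1 fun ε hε => ?_⟩, fun ε hε => ?_, fun ε hε => ?_⟩
  · obtain ⟨η, C, T0, hη, hC, hT0, H⟩ := hB ε hε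
    obtain ⟨D, hD⟩ := h (η / 2) (half_pos hη)
    have hD0 : 0 ≤ D := by
      have h1 := (norm_nonneg _).trans (hD 0)
      rw [abs_zero, add_zero, Real.one_rpow, mul_one] at h1
      exact h1
    obtain ⟨T1, hT1⟩ := eventually_atTop.1
      (Real.tendsto_log_atTop.eventually_ge_atTop ((Real.log (D + 1) + Real.log 2 * (η / 2)) / (η / 2)))
    refine ⟨max (max T0 T1) (C + 2), fun T hT => ?_⟩
    have b1 : T0 ≤ T := ((le_max_left _ _).trans (le_max_left _ _)).trans hT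
    have b2 : T1 ≤ T := ((le_max_right _ _).trans (le_max_left _ _)).trans hT
    have b3 : C + 2 ≤ T := (le_max_right _ _).trans hT
    have hTp : 0 < T := by linarith
    refine H T b1 fun t ht => ?_
    have ht' := abs_le.1 ht
    refine (hD t).trans ?_
    have h1 : (1 + |t|) ^ (η / 2) ≤ (2 * T) ^ (η / 2) := by
      apply Real.rpow_le_rpow (by positivity) _ (by positivity)
      rw [abs_of_pos (by linarith)]
      linarith
    have h2 := hT1 T b2
    rw [div_le_iff₀ (by positivity)] at h2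
    calc D * (1 + |t|) ^ (η / 2) ≤ (D + 1) * (2 * T) ^ (η / 2) := by gcongr; linarith
      _ = Real.exp (Real.log (D + 1) + (Real.log 2 + Real.log T) * (η / 2)) := by
          rw [Real.exp_add, Real.exp_log (by linarith), Real.rpow_def_of_pos (by positivity),
            Real.log_mul (by norm_num) hTp.ne']
      _ ≤ Real.exp (Real.log T * η) := by
          apply Real.exp_le_exp.2
          nlinarith
      _ = T ^ η := (Real.rpow_def_of_pos hTp η).symm
  · obtain ⟨η, C, T0, hη, hC, hT0, H⟩ := hA ε hε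
    obtain ⟨T1, hT1⟩ := h (η / 2) (half_pos hη)
    obtain ⟨T2, hT2, H2⟩ := near C (max T1 2) (by linarith)
    refine ⟨max T0 T2, fun T hT => H T ((le_max_left _ _).trans hT) fun y hy => ?_⟩
    obtain ⟨n1, n2, n3, n4⟩ := H2 y T ((le_max_right _ _).trans hT) hy
    have h5 := to_few r (by linarith [le_max_right T1 2]) (hT1 y ((le_max_left _ _).trans n1))
    refine of_few r (by linarith [le_max_right T1 2]) (fewmono h5 (by linarith) ?_)
    calc η / 2 * Real.log y ≤ η / 2 * (2 * Real.log T) := mul_le_mul_of_nonneg_left n3 (by linarith)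
      _ = η * Real.log T := by ring
  · obtain ⟨η, C, T0, hη, hC, hT0, H⟩ := hA ε hε
    exact ⟨η, C, T0, hη, H⟩
  · obtain ⟨η, C, T0, hη, hC, hT0, H⟩ := hB ε hε
    exact ⟨η, C, T0, hη, H⟩

end Pool.Agent.Results.MP_4e5e8a_nt.BacklundForDerivatives
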