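import Pool.Agent.Q260.LR.Fin

/-!
# The Lindelöf hypothesis is decided on one ray

Let `u` be any complex number of modulus one and consider only the values `ζ(1/2+it) = r u`, `r ≥ 0`, on
the ray from `0` through `u`.  For `u = ±1` these are values at Gram points: at those Gram points at which
Gram's law holds (`u = 1`), or at those at which it fails (`u = -1`).

1. Near a large value of `|ζ(1/2+it)|` all directions are taken, with almost as large modulus: there are
   `C, T₀` such that if `T ≥ T₀` and `|ζ(1/2+iT)| ≥ C log T`, then for EVERY `u`, `|u| = 1`, there is a real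
   `t` with `|t - T| ≤ 3 √(log T)`, `ζ(1/2+it) = r u` and `r ≥ |ζ(1/2+iT)| / (C log T)`.
2. For every `θ ≥ 0` and every single `u ≠ 0`: `ζ(1/2+it) = O(t ^ (θ + ε))` for all `ε > 0` if and only if
   this is true for those `t` for which `ζ(1/2+it)` lies on the ray through `u`.  For `θ = 0`: the Lindelöf
   hypothesis holds if and only if it holds on one ray.
3. The direction may even change with the height: for every function `T ↦ u(T)`, `|u(T)| = 1`, the bounds
   `r = O(T ^ (θ + ε))` for the values `ζ(1/2+it) = r u(T)`, `r ≥ 0`, `|t - T| ≤ 3 √(log T)`, are equivalent to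
   `ζ(1/2+it) = O(t ^ (θ + ε))` for all `t`.

The points at which `ζ(1/2+it)` lies on a LINE through `0` have exactly the critical (Nyquist) density
`(log t)/(2π)` for functions with the spectrum of `ζ(1/2+it)`; on a ray there is only one half of them.

## Proof

Let `χ` be the factor of the functional equation, `c = u ^ (-2)` and `w(s) = c χ(s)`; on the critical line the
points with `w = 1` are those of the line through `u` (`ζ = r u` with real `r`), `|w| < 1` to the right. By the
residue theorem for `ζ(s) e ^ ((s - s₀)²) / (1 - w(s))` and its symmetry under the reflection at the critical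
line `∑ r(t) e ^ (-(t - t₀)²) / λ(t) = O(1)`, the sum being over the points of the line, `λ = -χ'/χ ∼ log t`. So
the positive and the negative `r(t)` have nearly the same weight, and an upper bound for `r(t)` gives a
bound for `∑ |r(t)| e ^ (-(t - t₀)²) / λ(t)`. The same integrand with an additional pole at `s₀` (project GP,
`Pool.Agent.W63.GP.ResA`) expresses `ζ(s₀)` by the `r(t)` with the weights
`(1 - w(s₀)) e ^ (-(t - t₀)²) / (λ(t) (t - t₀))`, and `|1 - w(s₀)| ≤ 2 |t - t₀| log t₀`.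
-/

set_option autoImplicit false

open Complex

namespace Pool.Agent.Results.MP_4e5e8a_nt.OneRayDecides

/-- **Theorem.** (1) Near a large value of `|ζ(1/2+it)|` all directions are taken with almost as large
modulus. (2) The bounds `ζ(1/2+it) = O(t ^ (θ + ε))` hold for all `t` if they hold on one ray. (3) The
direction of the ray may change with the height. -/
theorem result :
    (∃ C T₀ : ℝ, 0 < C ∧ 100 ≤ T₀ ∧ ∀ T : ℝ, T₀ ≤ T →
      C * Real.log T ≤ ‖riemannZeta (1 / 2 + (T : ℂ) * I)‖ → ∀ u : ℂ, ‖u‖ = 1 →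
        ∃ t r : ℝ, |t - T| ≤ 3 * √(Real.log T) ∧ riemannZeta (1 / 2 + (t : ℂ) * I) = (r : ℂ) * u ∧
          ‖riemannZeta (1 / 2 + (T : ℂ) * I)‖ ≤ C * Real.log T * r) ∧
    (∀ u : ℂ, u ≠ 0 → ∀ θ : ℝ, 0 ≤ θ →
      ((∀ ε : ℝ, 0 < ε → ∃ C : ℝ, ∀ t : ℝ, 1 ≤ t →
          ‖riemannZeta (1 / 2 + (t : ℂ) * I)‖ ≤ C * t ^ (θ + ε)) ↔
        ∀ ε : ℝ, 0 < ε → ∃ C : ℝ, ∀ t r : ℝ, 1 ≤ t → 0 ≤ r →
          riemannZeta (1 / 2 + (t : ℂ) * I) = (r : ℂ) * u → r ≤ C * t ^ (θ + ε))) ∧
    (∀ u : ℝ → ℂ, (∀ T, ‖u T‖ = 1) → ∀ θ : ℝ, 0 ≤ θ →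
      ((∀ ε : ℝ, 0 < ε → ∃ C : ℝ, ∀ t : ℝ, 1 ≤ t →
          ‖riemannZeta (1 / 2 + (t : ℂ) * I)‖ ≤ C * t ^ (θ + ε)) ↔
        ∀ ε : ℝ, 0 < ε → ∃ C : ℝ, ∀ T t r : ℝ, 100 ≤ T → |t - T| ≤ 3 * √(Real.log T) → 0 ≤ r →
          riemannZeta (1 / 2 + (t : ℂ) * I) = (r : ℂ) * u T → r ≤ C * T ^ (θ + ε))) :=
  ⟨Pool.Agent.Q260.LR.all_directions, Pool.Agent.Q260.LR.fixed, Pool.Agent.Q260.LR.moving⟩

end Pool.Agent.Results.MP_4e5e8a_nt.OneRayDecides
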