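import Pool.Agent.Q207.CT.Mod

/-!
# Uncountable compact metrizable spaces can all be large while some are not separable

The statement that every uncountable compact metrizable space has at least the size of the
continuum does not imply in ZF that every compact metrizable space is separable.

The model is a symmetric submodel of a generic extension by the countable partial functions from
`ℕ × (ℝ / ℤ) × ℝ × ℝ` to `2`, which add generic sets `y n t j` of reals. Put
`a n t = {y n t j : j ∈ ℝ}`. The group consists of the permutations of the indices `(n, t, j)` that,
for every `n`, rotate the circle `ℝ / ℤ` by a rational number and move the numbers `j` arbitrarily;
a name has the support `(k, s)` if it is fixed by the permutations that do not rotate the levels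
`n < k` and that fix the countably many indices of `s` of these levels. The space that is not
separable is the one point compactification of the sum of the circles `{a n t : t ∈ ℝ / ℤ}`.

The main points: the elements of a finite set of the model have the same support as the set, so
every point of a compact space without this support has near copies, which gives a sequence of
points that is dense in itself; if all the points have the same support, then there is a dense
sequence. In both cases the sequence and its distances can be evaluated in the ground model.
-/

set_option autoImplicit false

namespace Pool.Agent.Results.MP_4e922d_lc.SizeWithoutSeparability

open Pool.Agent.W868 Pool.Agent.Q211.SY Pool.Agent.Q211.FS Pool.Agent.Q207.CT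

/-- In `M`, every compact metrizable space is separable. -/
def MCS (M : Set ZFSet.{0}) : Prop :=
  ∀ X ∈ M, ∀ τ ∈ M, MetrizableIn M X τ → CompactIn M X τ → SeparableIn M X τ

/-- In `M`, every uncountable compact metrizable space has at least the size of the continuum. -/
def MCSize (M : Set ZFSet.{0}) : Prop :=
  ∀ X ∈ M, ∀ τ ∈ M, MetrizableIn M X τ → CompactIn M X τ → ¬ CntIn M X → CLe M X

/-- There is a countable transitive model of ZF in which every uncountable compact metrizable space
has at least the size of the continuum, but some compact metrizable space is not separable. -/
theorem result : ∃ M : Set ZFSet.{0}, M.Countable ∧ IsZF M ∧ MCSize M ∧ ¬ MCS M := by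
  obtain ⟨M, h1, h2, h3, X, hX, τ, hτ, h4, h5, h6⟩ := main1
  exact ⟨M, h1, h2, h3, fun h => h6 (h X hX τ hτ h4 h5)⟩

end Pool.Agent.Results.MP_4e922d_lc.SizeWithoutSeparability
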