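import Pool.Agent.Y135.SM.Gen

set_option autoImplicit false

/-!
# `mult ≥ 3` is not closed upward under classical pattern containment

`w = 4567312 ∈ S_7` contains `p = 345612 ∈ S_6` (positions 1, 2, 3, 4, 6, 7); the Schubert variety
`X_p` has multiplicity `3` at `e_id` and `X_w` has multiplicity `2` at `e_id`, which is the largest
multiplicity of `X_w` at any point.

The multiplicity at `e_id` is the Hilbert-Samuel multiplicity, defined in
`Pool.Agent.TH151.SDefs` (`IsMult`).
-/

open Pool.Agent.TH151.SchubMult Pool.Agent.Y135.SM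

namespace Pool.Agent.Results.MP_5035a9_ag.NotClosedUpward

/-- `v ∈ 𝓜₃`: the Schubert variety `X_v` has Hilbert-Samuel multiplicity at least `3` at `e_id`
(equivalently at some `e_u`, `u ≤ v`, because `e_id` lies in the closure of every `B`-orbit). -/
def InM3 {n : ℕ} (v : Equiv.Perm (Fin n)) : Prop := ∃ e : ℝ, IsMult v e ∧ 3 ≤ e

/-- There are permutations `p = 345612` (of multiplicity exactly `3`) and `w = 4567312` (of
multiplicity exactly `2`) such that `w` contains `p`, `p ∈ 𝓜₃` and `w ∉ 𝓜₃`. -/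
theorem result : ∃ (w : Equiv.Perm (Fin 7)) (p : Equiv.Perm (Fin 6)),
    (∀ j, (w j).1 + 1 = ![4, 5, 6, 7, 3, 1, 2] j) ∧ (∀ j, (p j).1 + 1 = ![3, 4, 5, 6, 1, 2] j) ∧
    ContainsPattern w p ∧ IsMult p 3 ∧ IsMult w 2 ∧ InM3 p ∧ ¬ InM3 w := by
  have hp : IsMult (wperm 5 2 (by omega) le_rfl (by omega)) (3 : ℕ) :=
    isMult_two 5 (by omega) (by omega) (by omega)
  have hw : IsMult (wperm 6 3 (by omega) (by omega) le_rfl) (2 : ℕ) :=
    isMult_band (by omega) (by omega)
      (schubertIdeal_eq (by omega) le_rfl (by omega) (wperm_fam (by omega) (by omega) le_rfl))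
      (by omega) (by omega)
  norm_num at hp hw
  refine ⟨wperm 6 3 (by omega) (by omega) le_rfl, wperm 5 2 (by omega) le_rfl (by omega),
    ?_, ?_, wperm_contains 2 le_rfl, hp, hw, ⟨3, hp, le_rfl⟩, ?_⟩
  · intro j
    rw [wperm_val]
    fin_cases j <;> rfl
  · intro j
    rw [wperm_val]
    fin_cases j <;> rfl
  · rintro ⟨e, he, h3⟩
    have := isMult_unique he hw
    linarith

end Pool.Agent.Results.MP_5035a9_ag.NotClosedUpward
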