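import Pool.Agent.Q173.MU.Data

/-!
# Iwasawa cohomology of `p`-adic representations: vanishing of `μ` or linear growth in abelian `p`-extensions

For a representation `T` of the Galois group of `K` the module `H²_Iw(𝓞_{L,S}, T)`, localised at the uniformiser, has a
presentation over the group ring of `Gal(L / K)` for every finite `p`-extension `L / K`, in which the number of generators
and the difference of the numbers of relations and generators do not depend on `L`. If `H²_Iw(𝓞_{K,S}, T)` is not torsion
or has a positive `μ`-invariant, then for all abelian `p`-extensions `L` of exponent `p ^ e` the number of generators of the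
localised module of `L` is between `[L : K] / p ^ (e (r + 1))` and a constant multiple of `[L : K]`, where
`r = ∑_v ([K_v : ℝ] rank T - rank H⁰(K_v, T))` is the sum over the archimedean places of `K`.
-/

set_option autoImplicit false

namespace Pool.Agent.Results.MP_519cc8_nt.GrowthForRepresentations

open Pool.Agent.Q173.MU IsLocalRing

/-- The cohomology of representations, for one coefficient ring `R` (the ring of integers of a finite extension of `ℚ_p`,
with uniformiser `π`): `Rep K` is the set of the representations `T` (free `R`-modules of finite rank with a continuous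
action of `G_K`, ramified at finitely many places), `res` the restriction to a larger field, `O` the localisation of
`Λ = R[[Γ]]` at `(π)`, `H K T` the module `H²_Iw(𝓞_{K,S}, T) ⊗_Λ O` and `r K T` the sum of
`[K_v : ℝ] rank T - rank H⁰(K_v, T)` over the archimedean places `v` of `K`. -/
structure CohData where
  /-- the representations -/
  Rep : IntermediateField ℚ ℂ → Type
  /-- restriction -/
  res : ∀ {K L : IntermediateField ℚ ℂ}, K ≤ L → Rep K → Rep L
  /-- the ring -/
  O : Type
  [ring : CommRing O]
  [loc : IsLocalRing O]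
  /-- the modules -/
  H : ∀ K : IntermediateField ℚ ℂ, Rep K → Type
  [grp : ∀ K T, AddCommGroup (H K T)]
  [mod : ∀ K T, Module O (H K T)]
  /-- the archimedean contribution -/
  r : ∀ K : IntermediateField ℚ ℂ, Rep K → ℕ

attribute [instance] CohData.ring CohData.loc CohData.grp CohData.mod

/-- The number of generators of `H K T`. -/
noncomputable def CohData.m (D : CohData) (K : IntermediateField ℚ ℂ) (T : D.Rep K) : ℕ := rk D.O (D.H K T)

/-- The assertion of Q1 for `K`, `T`: the module `H²_Iw(𝓞_{K,S}, T)` is torsion with `μ`-invariant zero, i.e. its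
localisation `H K T` at `(π)` is zero. -/
def CohData.Good (D : CohData) (K : IntermediateField ℚ ℂ) (T : D.Rep K) : Prop := Subsingleton (D.H K T)

/-- The residue field of `O` is infinite of characteristic `p`. -/
def IsLoc (D : CohData) (p : ℕ) : Prop := Infinite (ResidueField D.O) ∧ CharP (ResidueField D.O) p

/-- Presentations: let `L / K` be a finite Galois `p`-extension with group `G` such that `L ∩ K_∞ = K`. Then the module
`H L T` has a presentation over `O[G]` with `m(K, T)` generators and `m(K, T) + r(K, T)` relations, and its coinvariants are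
`H K T`. (The complex `RΓ_Iw(𝓞_{K,S}, R[G] ⊗ T)` is perfect with the Euler characteristic `- r(K, T)` of Tate's formula;
localised at `(π)` it has cohomology only in the degrees `1` and `2`, also modulo the maximal ideal; enlarging `S` by the
places ramified in `L` does not change the localised `H²`.) -/
def HasPres (D : CohData) (p : ℕ) : Prop :=
  ∀ (K L : IntermediateField ℚ ℂ) (h : K ≤ L) (T : D.Rep K), IsExt p h → IsPGroup p (GalGrp h) →
    IsPres D.O (GalGrp h) (D.H L (D.res h T)) (D.H K T) (D.m K T) (D.m K T + D.r K T)

/-- The modules are finitely generated. -/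
def IsFin (D : CohData) : Prop := ∀ (K : IntermediateField ℚ ℂ) (T : D.Rep K), FiniteDimensional ℚ K → Module.Finite D.O (D.H K T)

/-- The known properties of the cohomology groups. -/
structure Known (D : CohData) (p : ℕ) : Prop where
  loc : IsLoc D p
  fin : IsFin D
  pres : HasPres D p

/-- For ALL abelian `p`-extensions `L` of `K` of exponent `p ^ e` (with `L ∩ K_∞ = K`) the number of generators of
`H L T` is between `[L : K] / p ^ (e (r + 1))` and `[L : K] m(K, T)`. -/
def LinearGrowth (D : CohData) (p : ℕ) (K : IntermediateField ℚ ℂ) (T : D.Rep K) : Prop :=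
  ∀ (e : ℕ) (L : IntermediateField ℚ ℂ) (h : K ≤ L), IsAb p e K L →
    deg K L ≤ p ^ (e * (D.r K T + 1)) * D.m L (D.res h T) ∧ D.m L (D.res h T) ≤ deg K L * D.m K T

/-- Let `p` be an odd prime. Assume the known properties of the Iwasawa cohomology of the representations over a
coefficient ring `R`. Then:

(1) For every number field `K` and every `T` either the assertion of Q1 holds for `K` and `T`, and then also for all finite
abelian `p`-extensions `L` of `K` with `L ∩ K_∞ = K`, or for ALL these extensions of exponent `p ^ e` one has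
`[L : K] / p ^ (e (r + 1)) ≤ m(L, T) ≤ [L : K] m(K, T)`.

(2) The assertion holds for `K` and `T` if and only if there are `e` and such an extension `L` of exponent `p ^ e` with
`p ^ (e (r + 1)) m(L, T) < [L : K]`.

(3) The assertion holds for all `K` and `T` if and only if for all `K`, `T` and all `N` there is such an extension `L` of
exponent `p` with `N m(L, T) < [L : K]`.

(4) If `r(K, T) = 0` then for ALL finite Galois `p`-extensions `L` of `K` with `L ∩ K_∞ = K` and group `G`:
`m(K, T) [L : K] ≤ l m(L, T)`, if the `l`-th power of the augmentation ideal of the group ring of `G` over the residue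
field is zero. -/
theorem result (p : ℕ) [Fact p.Prime] (_ : p ≠ 2) (D : CohData) (hD : Known D p) :
    (∀ (K : IntermediateField ℚ ℂ) (T : D.Rep K), FiniteDimensional ℚ K →
      (D.Good K T ∧ ∀ (e : ℕ) (L : IntermediateField ℚ ℂ) (h : K ≤ L), IsAb p e K L → D.Good L (D.res h T)) ∨
      (¬ D.Good K T ∧ LinearGrowth D p K T)) ∧
    (∀ (K : IntermediateField ℚ ℂ) (T : D.Rep K), FiniteDimensional ℚ K → (D.Good K T ↔ ∃ (e : ℕ) (L : IntermediateField ℚ ℂ) (h : K ≤ L),
      IsAb p e K L ∧ p ^ (e * (D.r K T + 1)) * D.m L (D.res h T) < deg K L)) ∧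
    ((∀ (K : IntermediateField ℚ ℂ) (T : D.Rep K), FiniteDimensional ℚ K → D.Good K T) ↔ ∀ (K : IntermediateField ℚ ℂ) (T : D.Rep K), FiniteDimensional ℚ K → ∀ N : ℕ,
      ∃ (L : IntermediateField ℚ ℂ) (h : K ≤ L), IsAb p 1 K L ∧ N * D.m L (D.res h T) < deg K L) ∧
    (∀ (K L : IntermediateField ℚ ℂ) (h : K ≤ L) (T : D.Rep K), D.r K T = 0 → IsExt p h → IsPGroup p (GalGrp h) →
      ∀ l, augSub (ResidueField D.O) (GalGrp h) ^ l = ⊥ → D.m K T * deg K L ≤ l * D.m L (D.res h T)) := by
  have hI := hD.loc.1
  have hC := hD.loc.2
  have hgood : ∀ (K : IntermediateField ℚ ℂ) (T : D.Rep K), FiniteDimensional ℚ K → (D.Good K T ↔ D.m K T = 0) := by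
    intro K T hK
    have := hD.fin K T hK
    have h1 : D.m K T = 0 ↔ Module.length D.O (D.H K T) = 0 := rk_eq_zero_iff
    rw [h1, Module.length_eq_zero_iff]
    rfl
  have hup : ∀ (K : IntermediateField ℚ ℂ) (T : D.Rep K) (e : ℕ) (L : IntermediateField ℚ ℂ) (h : K ≤ L),
      IsAb p e K L → D.m L (D.res h T) ≤ deg K L * D.m K T := by
    intro K T e L h hL
    obtain ⟨_, hE, hc, he⟩ := hL
    have hfin := finite_gal hE
    rw [← card_gal hE]
    exact (hD.pres K L h T hE (fun g => ⟨e, he g⟩)).rk_le
  have hlow : ∀ (K : IntermediateField ℚ ℂ) (T : D.Rep K) (e : ℕ) (L : IntermediateField ℚ ℂ) (h : K ≤ L),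
      IsAb p e K L → D.m K T ≠ 0 → deg K L ≤ p ^ (e * (D.r K T + 1)) * D.m L (D.res h T) := by
    intro K T e L h hL h0
    obtain ⟨_, hE, hc, he⟩ := hL
    have hfin := finite_gal hE
    rw [← card_gal hE]
    exact card_le_of_comm hc he (hD.pres K L h T hE (fun g => ⟨e, he g⟩)) (Nat.pos_of_ne_zero h0)
  have hself : ∀ (e : ℕ) (K : IntermediateField ℚ ℂ), FiniteDimensional ℚ K → 0 < deg K K := by
    intro e K hK
    obtain ⟨h, h3, _⟩ := isAb_self p e hK
    have := finite_gal h3
    rw [← card_gal h3]
    exact Nat.card_pos
  refine ⟨?_, ?_, ?_, ?_⟩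
  · intro K T hK
    by_cases h0 : D.Good K T
    · refine Or.inl ⟨h0, fun e L h hL => ?_⟩
      rw [hgood L _ (fin_of_isAb hL)]
      have h1 := hup K T e L h hL
      rw [(hgood K T hK).1 h0, mul_zero] at h1
      exact Nat.le_zero.1 h1
    · refine Or.inr ⟨h0, fun e L h hL => ⟨hlow K T e L h hL ?_, hup K T e L h hL⟩⟩
      rw [hgood K T hK] at h0
      exact h0
  · intro K T hK
    constructor
    · intro h0
      refine ⟨0, K, le_rfl, isAb_self p 0 hK, ?_⟩
      have h1 := hup K T 0 K le_rfl (isAb_self p 0 hK)
      rw [(hgood K T hK).1 h0, mul_zero] at h1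
      rw [Nat.le_zero.1 h1, mul_zero]
      exact hself 0 K hK
    · rintro ⟨e, L, h, hL, hlt⟩
      by_contra h0
      rw [hgood K T hK] at h0
      exact absurd (hlow K T e L h hL h0) (not_le.2 hlt)
  · constructor
    · intro h0 K T hK N
      refine ⟨K, le_rfl, isAb_self p 1 hK, ?_⟩
      rw [(hgood K _ hK).1 (h0 K _ hK), mul_zero]
      exact hself 0 K hK
    · intro h0 K T hK
      by_contra h1
      obtain ⟨L, h, hL, hlt⟩ := h0 K T hK (p ^ (1 * (D.r K T + 1)))
      rw [hgood K T hK] at h1
      exact absurd (hlow K T 1 L h hL h1) (not_le.2 hlt)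
  · intro K L h T hr hE hp l hl
    have hfin := finite_gal hE
    have hP := hD.pres K L h T hE hp
    rw [hr, add_zero] at hP
    rw [← card_gal hE]
    exact hP.mul_card_le hl

end Pool.Agent.Results.MP_519cc8_nt.GrowthForRepresentations
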