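import Mathlib
import Pool.Agent.Q104.Spec

/-!
# Deleting an edge never raises the energy of a graph by `2`
-/

set_option autoImplicit false

namespace Pool.Agent.Results.MP_51d21a_co.DeletionGap

open Matrix Finset Q104.Spec

variable {V : Type*} [Fintype V] [DecidableEq V]

/-- a number of modulus at most one with `sg t * t = |t|` and `sg 0 = 0` -/
noncomputable def sg (t : ℝ) : ℝ := if 0 < t then 1 else if t < 0 then -1 else 0

lemma sg_mul (t : ℝ) : sg t * t = |t| := by
  unfold sg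
  split_ifs with h1 h2
  · rw [abs_of_pos h1, one_mul]
  · rw [abs_of_neg h2]; ring
  · have : t = 0 := le_antisymm (not_lt.mp h1) (not_lt.mp h2)
    simp [this]

lemma sg_zero : sg 0 = 0 := by simp [sg]

lemma sg_sq_le (t : ℝ) : sg t ^ 2 ≤ 1 := by
  unfold sg
  split_ifs <;> norm_num

lemma sg_abs_le (t : ℝ) : |sg t| ≤ 1 := by
  unfold sg
  split_ifs <;> norm_num

/-- the sign of a symmetric matrix -/
noncomputable def S {A : Matrix V V ℝ} (hA : A.IsHermitian) : Matrix V V ℝ :=
  fun a b => ∑ k, sg (hA.eigenvalues k) * (ev hA k a * ev hA k b)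

lemma S_mulVec {A : Matrix V V ℝ} (hA : A.IsHermitian) (x : V → ℝ) (a : V) :
    (S hA *ᵥ x) a = ∑ k, sg (hA.eigenvalues k) * (ev hA k ⬝ᵥ x) * ev hA k a := by
  simp only [S, Matrix.mulVec, dotProduct, Finset.sum_mul, Finset.mul_sum]
  rw [Finset.sum_comm]
  refine Finset.sum_congr rfl fun k _ => Finset.sum_congr rfl fun b _ => ?_
  ring

lemma S_quad {A : Matrix V V ℝ} (hA : A.IsHermitian) (x : V → ℝ) :
    x ⬝ᵥ (S hA *ᵥ x) = ∑ k, sg (hA.eigenvalues k) * (ev hA k ⬝ᵥ x) ^ 2 := by
  have h1 : x ⬝ᵥ (S hA *ᵥ x)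
      = ∑ a, x a * ∑ k, sg (hA.eigenvalues k) * (ev hA k ⬝ᵥ x) * ev hA k a := by
    simp only [dotProduct, S_mulVec hA x]
  rw [h1]
  simp only [Finset.mul_sum]
  rw [Finset.sum_comm]
  refine Finset.sum_congr rfl fun k _ => ?_
  have h2 : sg (hA.eigenvalues k) * (ev hA k ⬝ᵥ x) ^ 2
      = ∑ a, (sg (hA.eigenvalues k) * (ev hA k ⬝ᵥ x)) * (ev hA k a * x a) := by
    rw [← Finset.mul_sum]
    simp only [dotProduct]
    ring
  rw [h2]
  refine Finset.sum_congr rfl fun a _ => ?_
  ring

lemma S_contr {A : Matrix V V ℝ} (hA : A.IsHermitian) (x : V → ℝ) :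
    |x ⬝ᵥ (S hA *ᵥ x)| ≤ x ⬝ᵥ x := by
  rw [S_quad, sq_expand hA x]
  refine (Finset.abs_sum_le_sum_abs _ _).trans (Finset.sum_le_sum fun k _ => ?_)
  rw [abs_mul, abs_of_nonneg (sq_nonneg (ev hA k ⬝ᵥ x))]
  calc |sg (hA.eigenvalues k)| * (ev hA k ⬝ᵥ x) ^ 2 ≤ 1 * (ev hA k ⬝ᵥ x) ^ 2 :=
        mul_le_mul_of_nonneg_right (sg_abs_le _) (sq_nonneg _)
    _ = (ev hA k ⬝ᵥ x) ^ 2 := one_mul _

lemma trace_S {A : Matrix V V ℝ} (hA : A.IsHermitian) :
    (S hA * A).trace = ∑ k, |hA.eigenvalues k| := by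
  rw [trace_mul_expand hA]
  refine Finset.sum_congr rfl fun j _ => ?_
  rw [S_quad]
  simp only [ev_dot, ite_pow, one_pow, ne_eq, OfNat.ofNat_ne_zero, not_false_eq_true, zero_pow,
    mul_ite, mul_one, mul_zero, Finset.sum_ite_eq', Finset.mem_univ, if_true]
  rw [mul_comm, sg_mul]

lemma sum_ev_sq {A : Matrix V V ℝ} (hA : A.IsHermitian) (a : V) : ∑ k, ev hA k a ^ 2 = 1 := by
  have h := sq_expand hA (Pi.single a (1 : ℝ))
  simpa using h.symm

/-- the matrix statement -/
theorem gap {A A' : Matrix V V ℝ} (hA : A.IsHermitian) (hA' : A'.IsHermitian) (i j : V)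
    (h0 : A' i j = 0)
    (hB : ∀ a b, A a b = A' a b + (if a = i ∧ b = j then 1 else 0) +
      (if a = j ∧ b = i then 1 else 0)) :
    ∑ k, |hA'.eigenvalues k| < ∑ k, |hA.eigenvalues k| + 2 := by
  by_contra hcon
  push Not at hcon
  have h1 := trace_le_nuc hA (S hA') (S_contr hA')
  have hsym : S hA' j i = S hA' i j := by
    simp only [S]
    exact Finset.sum_congr rfl fun k _ => by ring
  have h2 : (S hA' * A).trace = (S hA' * A').trace + 2 * S hA' i j := by
    have hBm : A = A' + (Matrix.single i j (1 : ℝ) + Matrix.single j i (1 : ℝ)) := by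
      ext a b
      rw [hB, Matrix.add_apply, Matrix.add_apply, Matrix.single_apply, Matrix.single_apply,
        add_assoc]
      congr 2
      · simp only [eq_comm]
      · simp only [eq_comm]
    have e1 : (S hA' * A).trace
        = (S hA' * (A' + (Matrix.single i j (1 : ℝ) + Matrix.single j i (1 : ℝ)))).trace := by
      rw [← hBm]
    rw [e1, Matrix.mul_add, Matrix.mul_add, Matrix.trace_add, Matrix.trace_add,
      Matrix.trace_mul_single, Matrix.trace_mul_single, hsym]
    simp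
    ring
  rw [h2, trace_S] at h1
  have hS : S hA' i j ≤ -1 := by linarith
  -- all coordinates of row `i` are minus the signed coordinates of row `j`
  have h3 : ∑ k, (ev hA' k i + sg (hA'.eigenvalues k) * ev hA' k j) ^ 2 ≤ 0 := by
    have h4 : ∑ k, (ev hA' k i + sg (hA'.eigenvalues k) * ev hA' k j) ^ 2
        = ∑ k, ev hA' k i ^ 2 + 2 * S hA' i j
          + ∑ k, sg (hA'.eigenvalues k) ^ 2 * ev hA' k j ^ 2 := by
      simp only [S]
      rw [Finset.mul_sum, ← Finset.sum_add_distrib, ← Finset.sum_add_distrib]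
      exact Finset.sum_congr rfl fun k _ => by ring
    have h5 : ∑ k, sg (hA'.eigenvalues k) ^ 2 * ev hA' k j ^ 2 ≤ ∑ k, ev hA' k j ^ 2 :=
      Finset.sum_le_sum fun k _ => by
        nlinarith [sg_sq_le (hA'.eigenvalues k), sq_nonneg (ev hA' k j)]
    rw [sum_ev_sq] at h4 h5
    linarith
  have h6 : ∀ k, ev hA' k i + sg (hA'.eigenvalues k) * ev hA' k j = 0 := by
    intro k
    have h7 := Finset.sum_eq_zero_iff_of_nonneg (s := univ)
      (f := fun k => (ev hA' k i + sg (hA'.eigenvalues k) * ev hA' k j) ^ 2)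
      (fun k _ => sq_nonneg _)
    have h8 := h7.mp (le_antisymm h3 (Finset.sum_nonneg fun k _ => sq_nonneg _)) k (mem_univ k)
    exact pow_eq_zero_iff (two_ne_zero) |>.mp h8
  have h9 : ∑ k, |hA'.eigenvalues k| * ev hA' k j ^ 2 = 0 := by
    have h10 := entry hA' i j
    rw [h0] at h10
    rw [← neg_eq_zero, ← Finset.sum_neg_distrib, h10]
    refine Finset.sum_congr rfl fun k _ => ?_
    have h11 : ev hA' k i = -(sg (hA'.eigenvalues k) * ev hA' k j) := by linarith [h6 k]
    rw [h11, ← sg_mul]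
    ring
  have h12 : ∀ k, ev hA' k i = 0 := by
    intro k
    have h13 := (Finset.sum_eq_zero_iff_of_nonneg (s := univ)
      (f := fun k => |hA'.eigenvalues k| * ev hA' k j ^ 2)
      (fun k _ => mul_nonneg (abs_nonneg _) (sq_nonneg _))).mp h9 k (mem_univ k)
    rcases mul_eq_zero.mp h13 with h14 | h14
    · rw [abs_eq_zero] at h14
      have := h6 k
      rw [h14, sg_zero] at this
      linarith
    · have h15 : ev hA' k j = 0 := pow_eq_zero_iff (two_ne_zero) |>.mp h14
      have := h6 k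
      rw [h15] at this
      linarith
  have h16 := sum_ev_sq hA' i
  simp [h12] at h16

/-- the version for an edge given by its two ends -/
lemma edge (G : SimpleGraph V) [DecidableRel G.Adj] (i j : V) (hij : G.Adj i j)
    [DecidableRel (G.deleteEdges {s(i, j)}).Adj] (hA : (G.adjMatrix ℝ).IsHermitian)
    (hA' : ((G.deleteEdges {s(i, j)}).adjMatrix ℝ).IsHermitian) :
    ∑ k, |hA'.eigenvalues k| < ∑ k, |hA.eigenvalues k| + 2 := by
  refine gap hA hA' i j ?_ ?_
  · simp [SimpleGraph.adjMatrix_apply]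
  · intro a b
    simp only [SimpleGraph.adjMatrix_apply, SimpleGraph.deleteEdges_adj, Set.mem_singleton_iff,
      Sym2.eq_iff]
    by_cases h1 : a = i ∧ b = j
    · obtain ⟨rfl, rfl⟩ := h1
      have : ¬ (a = b ∧ b = a) := fun h => hij.ne h.1
      simp [hij, this]
    · by_cases h2 : a = j ∧ b = i
      · obtain ⟨rfl, rfl⟩ := h2
        have : ¬ (a = b ∧ b = a) := fun h => hij.ne h.2
        simp [hij.symm, this]
      · simp [h1, h2]

/-- **Deleting an edge of a finite simple graph raises the energy by strictly less than `2`.** -/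
theorem result {V : Type*} [Fintype V] [DecidableEq V] (G : SimpleGraph V) [DecidableRel G.Adj]
    (e : Sym2 V) (he : e ∈ G.edgeSet) [inst : DecidableRel (G.deleteEdges {e}).Adj]
    (hA : (G.adjMatrix ℝ).IsHermitian) (hA' : ((G.deleteEdges {e}).adjMatrix ℝ).IsHermitian) :
    ∑ k, |hA'.eigenvalues k| < ∑ k, |hA.eigenvalues k| + 2 := by
  revert he inst hA'
  induction e with
  | _ i j =>
    intro he inst hA'
    exact edge G i j he hA hA'

end Pool.Agent.Results.MP_51d21a_co.DeletionGap
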