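import Pool.Agent.Q236.MR.AllM

set_option autoImplicit false

/-!
# Bateman-Horn in every short interval of every progression, for every system of members of a random family

Let `P_i = F_i + c_{i0} + c_{i1} x + … + c_{i,d-1} x^(d-1)`, `i = 1, …, m`, with ARBITRARY `F_i ∈ ℤ[x]` of bounded degree
and `m ≤ log^E X`, where the coefficients `c_{ij}` run independently through the integers of intervals of length at
least `X / log^C X` such that all the values `P_i(k)`, `1 ≤ k ≤ log^E X`, have the size `X` up to `log^C X`.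

If the number `d` of the random coefficients is large enough in terms of `N, B, E, η`, then for all but a proportion
`log^(-B) X` of the families `(P_1, …, P_m)` the following holds AT THE SAME TIME for all subsystems `J` of at most `N`
members, all progressions `b + q k` and all intervals `(a, a + h]` with `b + q (a + h) ≤ log^E X` and
`h ≥ log^(|J| + η) X`:

* the number of the `k` in `(a, a + h]` such that ALL the `P_i(b + q k)`, `i ∈ J`, are PRIME is
  `(1 + O*(ε)) 𝔖 h / log^|J| X`, where `𝔖` is the singular series of Bateman-Horn of the system of the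
  polynomials `P_i(b + q x)`, the product over the primes `p ≤ z`; `z` is arbitrary with `log^A₀ X ≤ z ≤ log^A X`;
* in particular, if this system has no fixed prime divisor `≤ z`, every such interval contains such a `k`.
-/

namespace Pool.Agent.Results.MP_51e72e_nt.EveryShortInterval

open Finset Filter

/-- The value at `k` of `F + c_0 + c_1 x + … + c_{d-1} x^(d-1)`. -/
noncomputable def value {d : ℕ} (F : Polynomial ℤ) (c : Fin d → ℤ) (k : ℕ) : ℤ :=
  F.eval (k : ℤ) + ∑ j, c j * (k : ℤ) ^ (j : ℕ)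

/-- The arrays of coefficients `Z i j < c i j ≤ Z i j + Y i j`. -/
noncomputable def Arrays {m d : ℕ} (Z : Fin m → Fin d → ℤ) (Y : Fin m → Fin d → ℕ) : Finset (Fin m → Fin d → ℤ) :=
  Fintype.piFinset fun i => Fintype.piFinset fun j => Ioc (Z i j) (Z i j + Y i j)

/-- The sizes: intervals of length at least `X / log^C X` for the coefficients, and values between `X / log^C X` and
`X log^C X` at all arguments `1 ≤ k ≤ log^E X`. -/
structure Sizes (C E X : ℕ) {m d : ℕ} (F : Fin m → Polynomial ℤ) (Z : Fin m → Fin d → ℤ) (Y : Fin m → Fin d → ℕ) :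
    Prop where
  side : ∀ i j, (X : ℝ) / Real.log X ^ C ≤ Y i j
  values : ∀ c ∈ Arrays Z Y, ∀ i, ∀ k : ℕ, 1 ≤ k → (k : ℝ) ≤ Real.log X ^ E →
    (X : ℝ) / Real.log X ^ C ≤ value (F i) (c i) k ∧ (value (F i) (c i) k : ℝ) ≤ X * Real.log X ^ C

open Classical in
/-- The number of the `k` with `a < k ≤ a + h` such that all the `P_i(b + q k)`, `i ∈ J`, are primes. -/
noncomputable def primePoints {m d : ℕ} (F : Fin m → Polynomial ℤ) (c : Fin m → Fin d → ℤ) (J : Finset (Fin m))
    (b q a h : ℕ) : ℕ :=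
  ((Ioc a (a + h)).filter (fun k => ∀ i ∈ J, (value (F i) (c i) (b + q * k)).toNat.Prime)).card

open Classical in
/-- The number of the residues `k` modulo `p` such that `p` divides one of the `P_i(b + q k)`, `i ∈ J`. -/
noncomputable def omega {m d : ℕ} (F : Fin m → Polynomial ℤ) (c : Fin m → Fin d → ℤ) (J : Finset (Fin m))
    (b q p : ℕ) : ℕ :=
  ((range p).filter (fun k => ∃ i ∈ J, (p : ℤ) ∣ value (F i) (c i) (b + q * k))).card

/-- The singular series of the system `P_i(b + q x)`, `i ∈ J`: the product of `(1 - ω(p) / p) / (1 - 1 / p)^|J|` over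
the primes `p ≤ z`. -/
noncomputable def singular {m d : ℕ} (F : Fin m → Polynomial ℤ) (c : Fin m → Fin d → ℤ) (J : Finset (Fin m))
    (b q z : ℕ) : ℝ :=
  ∏ p ∈ (Icc 1 z).filter Nat.Prime, ((1 - (omega F c J b q p : ℝ) / p) / (1 - 1 / (p : ℝ)) ^ J.card)

/-- The formula of Bateman and Horn holds for all subsystems of at most `N` members, all intervals of length at least
`log^(|J| + η) X` and all progressions below `log^E X`. -/
def Regular (N E : ℕ) (η ε : ℝ) (z X : ℕ) {m d : ℕ} (F : Fin m → Polynomial ℤ) (c : Fin m → Fin d → ℤ) : Prop :=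
  ∀ J : Finset (Fin m), 1 ≤ J.card → J.card ≤ N → ∀ b q a h : ℕ, 1 ≤ q →
    ((b + q * (a + h) : ℕ) : ℝ) ≤ Real.log X ^ E → Real.log X ^ ((J.card : ℝ) + η) ≤ h →
    -- the number of the prime points
    |(primePoints F c J b q a h : ℝ) - singular F c J b q z * (h / Real.log X ^ J.card)| ≤
      ε * (singular F c J b q z * (h / Real.log X ^ J.card)) ∧
    -- without a fixed prime divisor there is one
    ((∀ p : ℕ, p.Prime → p ≤ z → ∃ k : ℕ, ∀ i ∈ J, ¬ (p : ℤ) ∣ value (F i) (c i) (b + q * k)) →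
      ∃ k : ℕ, a < k ∧ k ≤ a + h ∧ ∀ i ∈ J, (value (F i) (c i) (b + q * k)).toNat.Prime)

open Pool.Agent.Q236.RP Pool.Agent.Q236.MR Pool.Agent.Q236.CG

lemma arrays_eq {m d : ℕ} (Z : Fin m → Fin d → ℤ) (Y : Fin m → Fin d → ℕ) : Arrays Z Y = BA Z Y := rfl

lemma points_eq {m d : ℕ} (F : Fin m → Polynomial ℤ) (c : Fin m → Fin d → ℤ) (J : Finset (Fin m)) (b q a h : ℕ) :
    primePoints F c J b q a h = cntJ F c J b q a h := rfl

lemma omega_eq {m d : ℕ} (F : Fin m → Polynomial ℤ) (c : Fin m → Fin d → ℤ) (J : Finset (Fin m)) (b q p : ℕ) :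
    omega F c J b q p = omJ F c J b q p := rfl

lemma singular_eq {m d : ℕ} (F : Fin m → Polynomial ℤ) (c : Fin m → Fin d → ℤ) (J : Finset (Fin m)) (b q z : ℕ) :
    singular F c J b q z = sgJ F c J b q z := rfl

lemma vals_box {m d : ℕ} (C E X : ℕ) (F : Fin m → Polynomial ℤ) (Z : Fin m → Fin d → ℤ) (Y : Fin m → Fin d → ℕ)
    (h : Sizes C E X F Z Y) (hX : (0 : ℝ) < (X : ℝ) / Real.log X ^ C) :
    ∀ i, ∀ b ∈ Box (Z i) (Y i), ∀ k : ℕ, 1 ≤ k → (k : ℝ) ≤ Real.log X ^ E →
      (X : ℝ) / Real.log X ^ C ≤ evm (fun k => (F i).eval (k : ℤ)) 1 b k ∧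
      (evm (fun k => (F i).eval (k : ℤ)) 1 b k : ℝ) ≤ X * Real.log X ^ C := by
  have hY : ∀ i j, 1 ≤ Y i j := by
    intro i j
    have h1 := h.side i j
    have : (0 : ℝ) < Y i j := lt_of_lt_of_le hX h1
    exact_mod_cast this
  intro i b hb k hk hkE
  obtain ⟨c, hc, rfl⟩ : ∃ c ∈ Arrays Z Y, c i = b := by
    refine ⟨fun l => if h : l = i then b else fun j => Z l j + 1, ?_, ?_⟩
    · rw [arrays_eq, mem_BA]
      intro l
      split_ifs with hl
      · rw [hl]
        exact hb
      · rw [mem_Box]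
        intro j
        have : (1 : ℤ) ≤ Y l j := by exact_mod_cast hY l j
        exact ⟨by linarith, by linarith⟩
    · simp
  have h1 := h.values c hc i k hk hkE
  have e : evm (fun k => (F i).eval (k : ℤ)) 1 (c i) k = value (F i) (c i) k := by
    unfold evm value
    rw [one_mul]
  rw [e]
  exact h1

lemma sing_pos {m d : ℕ} (F : Fin m → Polynomial ℤ) (c : Fin m → Fin d → ℤ) (J : Finset (Fin m)) (b q z : ℕ)
    (h : ∀ p : ℕ, p.Prime → p ≤ z → ∃ k : ℕ, ∀ i ∈ J, ¬ (p : ℤ) ∣ value (F i) (c i) (b + q * k)) :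
    0 < singular F c J b q z := by
  classical
  unfold singular
  apply Finset.prod_pos
  intro p hp
  rw [mem_filter, mem_Icc] at hp
  obtain ⟨⟨_, hpz⟩, hpp⟩ := hp
  have hp0 : (0 : ℝ) < p := by exact_mod_cast hpp.pos
  have hp1 : (1 : ℝ) < p := by exact_mod_cast hpp.one_lt
  obtain ⟨k, hk⟩ := h p hpp hpz
  have hlt : omega F c J b q p < p := by
    unfold omega
    have h1 : ((range p).filter (fun k => ∃ i ∈ J, (p : ℤ) ∣ value (F i) (c i) (b + q * k))) ⊂ range p := by
      rw [Finset.ssubset_iff_of_subset (filter_subset _ _)]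
      refine ⟨k % p, mem_range.2 (Nat.mod_lt _ hpp.pos), ?_⟩
      rw [mem_filter, not_and]
      rintro _ ⟨i, hi, hd⟩
      apply hk i hi
      have hkm : b + q * (k % p) ≡ b + q * k [MOD p] := Nat.ModEq.add_left b (Nat.ModEq.mul_left q (Nat.mod_modEq k p))
      have h2 : ∀ j : ℕ, (p : ℤ) ∣ ((b + q * (k % p) : ℕ) : ℤ) ^ j - ((b + q * k : ℕ) : ℤ) ^ j := by
        intro j
        have h3 : (p : ℤ) ∣ ((b + q * (k % p) : ℕ) : ℤ) - ((b + q * k : ℕ) : ℤ) := Nat.modEq_iff_dvd.1 hkm.symm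
        exact h3.trans (sub_dvd_pow_sub_pow _ _ _)
      have h4 : (p : ℤ) ∣ value (F i) (c i) (b + q * (k % p)) - value (F i) (c i) (b + q * k) := by
        unfold value
        have e1 : ∀ x y u v : ℤ, x + u - (y + v) = (x - y) + (u - v) := by intros; ring
        rw [e1]
        apply dvd_add
        · exact eval_mod _ p _ _ hkm
        · rw [← Finset.sum_sub_distrib]
          apply Finset.dvd_sum
          intro j _
          rw [← mul_sub]
          exact Dvd.dvd.mul_left (h2 _) _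
      have h5 := dvd_sub hd h4
      rwa [sub_sub_cancel] at h5
    have h6 := card_lt_card h1
    rwa [card_range] at h6
  apply div_pos
  · rw [sub_pos, div_lt_one hp0]
    exact_mod_cast hlt
  · apply pow_pos
    rw [sub_pos, div_lt_one hp0]
    exact hp1

open Classical in
/-- **The conjecture of Bateman and Horn in all short intervals of all progressions, for all systems of members of a
random family.** -/
theorem result (N B E : ℕ) (η : ℝ) (hη : 0 < η) : ∃ d₀ : ℕ, ∀ C d : ℕ, d₀ ≤ d → ∃ A₀ : ℕ, ∀ (A D : ℕ) (ε : ℝ),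
    0 < ε → ∃ X₀ : ℕ, ∀ X, X₀ ≤ X → ∀ z : ℕ, Real.log X ^ A₀ ≤ z → (z : ℝ) ≤ Real.log X ^ A →
    ∀ m : ℕ, (m : ℝ) ≤ Real.log X ^ E →
    ∀ (F : Fin m → Polynomial ℤ) (Z : Fin m → Fin d → ℤ) (Y : Fin m → Fin d → ℕ), (∀ i, (F i).natDegree ≤ D) →
    Sizes C E X F Z Y →
    (((Arrays Z Y).filter (fun c => ¬ Regular N E η ε z X F c)).card : ℝ) ≤ (Arrays Z Y).card / Real.log X ^ B := by
  obtain ⟨d0, hd0⟩ := all_main N B E η hη
  refine ⟨d0, ?_⟩
  intro C d hd
  obtain ⟨A0, hA0⟩ := hd0 C d hd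
  refine ⟨A0, ?_⟩
  intro A D ε hε
  obtain ⟨X0, hX0⟩ := eventually_atTop.1 ((hA0 A D (min ε (1 / 2)) (by positivity)).and ((ev_log_ge 1).and (ev_pow_log 1)))
  refine ⟨X0, ?_⟩
  intro X hX z hz1 hz2 m hm F Z Y hF hS
  obtain ⟨h1, hL, hP⟩ := hX0 X hX
  have hL0 : 0 < Real.log (X : ℝ) := by linarith
  have hXp : (0 : ℝ) < (X : ℝ) / Real.log X ^ C := by
    have : (0 : ℝ) < X := by
      rw [pow_one] at hP
      linarith
    positivity
  have h2 := h1 z hz1 hz2 m hm F Z Y hF hS.side (vals_box C E X F Z Y hS hXp)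
  rw [arrays_eq]
  refine le_trans ?_ h2
  have hsub : (BA Z Y).filter (fun c => ¬ Regular N E η ε z X F c) ⊆
      (BA Z Y).filter (fun c => ∃ J : Finset (Fin m), 1 ≤ J.card ∧ J.card ≤ N ∧ ∃ b q a h : ℕ, 1 ≤ q ∧
      ((b + q * (a + h) : ℕ) : ℝ) ≤ Real.log X ^ E ∧ Real.log X ^ ((J.card : ℝ) + η) ≤ h ∧
      ¬ |(cntJ F c J b q a h : ℝ) - sgJ F c J b q z * (h / Real.log X ^ J.card)| ≤
        min ε (1 / 2) * (sgJ F c J b q z * (h / Real.log X ^ J.card))) := by
    intro c hc
    rw [mem_filter] at hc ⊢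
    refine ⟨hc.1, ?_⟩
    by_contra hno
    push Not at hno
    apply hc.2
    intro J hJ1 hJN b q a h hq hbq hh
    have h3 := hno J hJ1 hJN b q a h hq hbq hh
    rw [← points_eq, ← singular_eq] at h3
    obtain ⟨G, hG⟩ : ∃ G, G = singular F c J b q z * (h / Real.log X ^ J.card) := ⟨_, rfl⟩
    rw [← hG] at h3 ⊢
    have hG0 : 0 ≤ G := by
      by_contra hlt
      push Not at hlt
      have h4 : min ε (1 / 2) * G < 0 := mul_neg_of_pos_of_neg (by positivity) hlt
      linarith [abs_nonneg ((primePoints F c J b q a h : ℝ) - G)]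
    refine ⟨h3.trans (mul_le_mul_of_nonneg_right (min_le_left _ _) hG0), ?_⟩
    intro hadm
    have hs := sing_pos F c J b q z hadm
    have hh0 : (0 : ℝ) < h := lt_of_lt_of_le (Real.rpow_pos_of_pos hL0 _) hh
    have hGp : 0 < G := by rw [hG]; positivity
    have h5 : 0 < (primePoints F c J b q a h : ℝ) := by
      have h6 := (abs_le.1 h3).1
      have h7 : min ε (1 / 2) * G ≤ 1 / 2 * G := mul_le_mul_of_nonneg_right (min_le_right _ _) hG0
      linarith
    have h8 : 0 < primePoints F c J b q a h := by exact_mod_cast h5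
    unfold primePoints at h8
    rw [card_pos] at h8
    obtain ⟨k, hk⟩ := h8
    rw [mem_filter, mem_Ioc] at hk
    exact ⟨k, hk.1.1, hk.1.2, hk.2⟩
  exact_mod_cast card_le_card hsub

end Pool.Agent.Results.MP_51e72e_nt.EveryShortInterval
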