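import Pool.Agent.Q236.GW.PrimeSys

set_option autoImplicit false

/-!
# Quantitative Hypothesis H at prime arguments, for almost primes: number and Poisson law, uniformly in the system

Let `F` be a system of `k` polynomials such that `x, f_1, …, f_k` is a system of irreducible nonconstant
polynomials of degrees at most `D` with coefficients of absolute value at most `X ^ E`, without fixed prime
divisor, no two of which (equal or different) are `±` translates of each other by `1 ≤ t ≤ X ^ η`. Let `P` be the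
set of the PRIMES `q ∈ (u, u + Y]` such that no prime `p ≤ X ^ (1 / r)` divides `q f_1 (q) ⋯ f_k (q)`; all `f_j (q)`
are almost primes. If `Y ≥ δ X`, `u + Y ≤ X`, then `P` has `(1 + O(ε)) Y W / log X` elements, where `W` is the product
of the factors `(1 - ω(p) / p) / (1 - 1 / p)` of the constant of Bateman and Horn over the primes
`p ≤ X ^ (1 / r)`, and the number of the `m ∈ (q, q + T]` such that no prime `p ≤ X ^ (1 / r)` divides
`m f_1 (m) ⋯ f_k (m)`, `q` running over `P`, has the Poisson law of the expected mean, up to `ε`. There is no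
condition on the singular series.
-/

namespace Pool.Agent.Results.MP_51e72e_nt.PrimeArguments

open Finset Filter Polynomial

/-- The number of the residues `n` modulo `p` for which `p` divides one of the members of the system at `n`. -/
def ω {k : ℕ} (G : Fin k → ℤ[X]) (p : ℕ) : ℕ :=
  ((Finset.range p).filter (fun n : ℕ => (p : ℤ) ∣ ∏ i, (G i).eval (n : ℤ))).card

/-- The product of `1 - ω(p) / p` over the primes `p ≤ X ^ (1 / r)`. -/
noncomputable def V {k : ℕ} (X r : ℕ) (G : Fin k → ℤ[X]) : ℝ :=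
  ∏ p ∈ (Finset.Icc 1 ⌊(X : ℝ) ^ (1 / (r : ℝ))⌋₊).filter Nat.Prime, (1 - (ω G p : ℝ) / p)

/-- The product of `(1 - ω(p) / p) / (1 - 1 / p)` over the primes `p ≤ X ^ (1 / r)`. -/
noncomputable def W {k : ℕ} (X r : ℕ) (G : Fin k → ℤ[X]) : ℝ :=
  ∏ p ∈ (Finset.Icc 1 ⌊(X : ℝ) ^ (1 / (r : ℝ))⌋₊).filter Nat.Prime, (1 - (ω G p : ℝ) / p) / (1 - 1 / (p : ℝ))

/-- A system of irreducible nonconstant polynomials of degrees at most `D`, with coefficients at most `H`,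
without fixed prime divisor, and such that no `g_i` is `± g_j` shifted by `1 ≤ t ≤ U`. -/
structure System {k : ℕ} (D : ℕ) (H U : ℝ) (G : Fin k → ℤ[X]) : Prop where
  irr : ∀ i, Irreducible (G i)
  deg : ∀ i, (G i).natDegree ≠ 0
  degD : ∀ i, (G i).natDegree ≤ D
  height : ∀ i n, |(((G i).coeff n : ℤ) : ℝ)| ≤ H
  adm : ∀ p : ℕ, p.Prime → ω G p < p
  shift : ∀ i j, ∀ t : ℕ, 1 ≤ t → (t : ℝ) ≤ U →
    G i ≠ (G j).comp (X + C (t : ℤ)) ∧ G i ≠ -(G j).comp (X + C (t : ℤ))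

/-- The system `x, f_1, …, f_k`. -/
noncomputable def withX {k : ℕ} (F : Fin k → ℤ[X]) : Fin (k + 1) → ℤ[X] := Fin.cons X F

/-- No prime `p ≤ X ^ (1 / r)` divides `m` or any `f_j (m)`. -/
def Good {k : ℕ} (X : ℕ) (F : Fin k → ℤ[X]) (r m : ℕ) : Prop :=
  ∀ p : ℕ, p.Prime → (p : ℝ) ≤ (X : ℝ) ^ (1 / (r : ℝ)) → ¬ p ∣ m ∧ ∀ j, ¬ (p : ℤ) ∣ (F j).eval (m : ℤ)

open Classical in
/-- The good primes in `(u, u + Y]`. -/
noncomputable def P {k : ℕ} (X : ℕ) (F : Fin k → ℤ[X]) (r u Y : ℕ) : Finset ℕ :=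
  (Finset.Ioc u (u + Y)).filter (fun q => q.Prime ∧ Good X F r q)

open Classical in
/-- The number of the good `m` in `(q, q + T]`. -/
noncomputable def next {k : ℕ} (X : ℕ) (F : Fin k → ℤ[X]) (r T q : ℕ) : ℕ :=
  ((Finset.Ioc q (q + T)).filter (fun m => Good X F r m)).card

open Pool.Agent.W123.RU Pool.Agent.H373R2.T7 Pool.Agent.TH464.PO Pool.Agent.W123.RP Pool.Agent.Q236.GW
open Pool.Agent.Y879.GL
open Pool.Agent.W123.RU.Poly (Q)

lemma Q_iff {k : ℕ} (F : Fin k → ℤ[X]) (p m : ℕ) (hp : p.Prime) :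
    Q F p m ↔ (p : ℤ) ∣ ∏ i, (F i).eval (m : ℤ) := by
  have hpi : Prime (p : ℤ) := Nat.prime_iff_prime_int.1 hp
  unfold Q
  rw [hpi.dvd_finsetProd_iff]
  exact ⟨fun ⟨i, hi⟩ => ⟨i, Finset.mem_univ i, hi⟩, fun ⟨i, _, hi⟩ => ⟨i, hi⟩⟩

lemma nu_eq {k : ℕ} (F : Fin k → ℤ[X]) (p : ℕ) (hp : p.Prime) : nuB (Q F) p = ω F p := by
  unfold nuB ω
  exact card_iff _ _ (fun m _ => Q_iff F p m hp)

lemma pz_eq (y : ℕ) : pz y = (Finset.Icc 1 y).filter Nat.Prime := by
  ext p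
  rw [mem_pz, Finset.mem_filter, Finset.mem_Icc]
  exact ⟨fun h => ⟨⟨h.2.one_lt.le, h.1⟩, h.2⟩, fun h => ⟨h.1.2, h.2⟩⟩

lemma V_eq {k : ℕ} (X r : ℕ) (F : Fin k → ℤ[X]) : Vq (Q F) ⌊(X : ℝ) ^ (1 / (r : ℝ))⌋₊ = V X r F := by
  unfold Vq V
  rw [pz_eq]
  apply Finset.prod_congr rfl
  intro p hp
  rw [nu_eq F p (Finset.mem_filter.1 hp).2]

lemma W_eq {k : ℕ} (X r : ℕ) (F : Fin k → ℤ[X]) : Vq (Q F) ⌊(X : ℝ) ^ (1 / (r : ℝ))⌋₊ /
    Vz ⌊(X : ℝ) ^ (1 / (r : ℝ))⌋₊ = W X r F := by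
  unfold Vq W Vz
  rw [pz_eq, ← Finset.prod_div_distrib]
  apply Finset.prod_congr rfl
  intro p hp
  rw [nu_eq F p (Finset.mem_filter.1 hp).2]

lemma good_iff {k : ℕ} (X : ℕ) (F : Fin k → ℤ[X]) (r m : ℕ) :
    Sf (Q (withX F)) ⌊(X : ℝ) ^ (1 / (r : ℝ))⌋₊ m ↔ Good X F r m := by
  have h0 : (0 : ℝ) ≤ (X : ℝ) ^ (1 / (r : ℝ)) := by positivity
  have key : ∀ q : ℕ, Q (withX F) q m ↔ (q ∣ m ∨ ∃ j, (q : ℤ) ∣ (F j).eval (m : ℤ)) := by
    intro q
    unfold Q withX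
    rw [Fin.exists_fin_succ]
    simp only [Fin.cons_zero, Fin.cons_succ, eval_X]
    rw [Int.natCast_dvd_natCast]
  constructor
  · intro h q hq hqn
    have h1 := h q (mem_pz.2 ⟨Nat.le_floor hqn, hq⟩)
    rw [key q] at h1
    push Not at h1
    exact h1
  · intro h q hq
    have h1 := h q (mem_pz.1 hq).2 (mem_pz' h0 hq)
    rw [key q]
    push Not
    exact h1

lemma toUS {k D : ℕ} {H U : ℝ} {F : Fin k → ℤ[X]} (h : System D H U F) : US k D H U F where
  irr := h.irr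
  deg := h.deg
  degD := h.degD
  hgt := h.height
  adm p hp := by
    obtain ⟨m, _, hm⟩ := nu_exists (Q F) p (by rw [nu_eq F p hp]; exact h.adm p hp)
    exact ⟨m, fun i hi => hm ⟨i, hi⟩⟩
  tr i j t ht htU hass := by
    rcases assoc_cases hass with h1 | h1
    · exact (h.shift i j t ht htU).1 h1
    · exact (h.shift i j t ht htU).2 h1

lemma few (X r K m : ℕ) (hr : 1 ≤ r) (hX : 2 ^ r ≤ X) (hm : 0 < m) (hmX : m ≤ X ^ K)
    (h : ∀ p : ℕ, p.Prime → p ∣ m → (X : ℝ) ^ (1 / (r : ℝ)) < (p : ℝ)) :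
    m.primeFactorsList.length ≤ K * r := by
  have hr0 : (r : ℝ) ≠ 0 := by exact_mod_cast (by omega : r ≠ 0)
  have hX1 : (1 : ℝ) ≤ X := by
    have : 1 ≤ 2 ^ r := Nat.one_le_two_pow
    exact_mod_cast this.trans hX
  have hz1 : 1 ≤ (X : ℝ) ^ (1 / (r : ℝ)) := Real.one_le_rpow hX1 (by positivity)
  apply length_le m (K * r) (by omega) _ h _ hz1
  have e : ((X : ℝ) ^ (1 / (r : ℝ))) ^ r = X := by
    rw [← Real.rpow_natCast, ← Real.rpow_mul (by linarith), one_div, inv_mul_cancel₀ hr0, Real.rpow_one]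
  have hmX' : (m : ℝ) ≤ (X : ℝ) ^ K := by exact_mod_cast hmX
  rw [pow_succ, mul_comm K r, pow_mul, e]
  have h0 : (0 : ℝ) ≤ (X : ℝ) ^ K := by positivity
  nlinarith

/-- **Quantitative Hypothesis H at prime arguments, for almost primes, uniformly in the system.** -/
theorem result (k D : ℕ) :
    (∀ (X r K : ℕ) (F : Fin k → ℤ[X]) (m : ℕ), 1 ≤ r → 2 ^ r ≤ X → Good X F r m →
      ∀ j, 0 < ((F j).eval (m : ℤ)).natAbs → ((F j).eval (m : ℤ)).natAbs ≤ X ^ K →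
        ((F j).eval (m : ℤ)).natAbs.primeFactorsList.length ≤ K * r) ∧
    ∀ E η δ : ℝ, 0 < E → 0 < η → 0 < δ → δ ≤ 1 → ∀ x₀ ε : ℝ, 0 < ε → ε ≤ 1 → ∃ r₀ : ℕ, 2 ≤ r₀ ∧
      ∀ r : ℕ, r₀ ≤ r → ∀ᶠ X : ℕ in atTop, ∀ F : Fin k → ℤ[X],
        System D ((X : ℝ) ^ E) ((X : ℝ) ^ η) (withX F) → ∀ u Y : ℕ, δ * X ≤ Y → u + Y ≤ X →
          |((P X F r u Y).card : ℝ) * Real.log X - Y * W X r (withX F)| ≤ ε * (Y * W X r (withX F)) ∧
          ∀ T : ℕ, T * V X r (withX F) ≤ x₀ → ∀ B : Finset ℕ,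
            |(((P X F r u Y).filter (fun q => next X F r T q ∈ B)).card : ℝ) - (P X F r u Y).card *
                ∑ j ∈ B, Real.exp (-(T * V X r (withX F))) * (T * V X r (withX F)) ^ j / (j.factorial : ℝ)| ≤
              ε * (P X F r u Y).card := by
  classical
  refine ⟨?_, ?_⟩
  · intro X r K F m hr hX hG j h1 h2
    apply few X r K _ hr hX h1 h2
    intro p hp hd
    by_contra hcon
    rw [not_lt] at hcon
    exact (hG p hp hcon).2 j (Int.natCast_dvd.2 hd)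
  · intro E η δ hE hη hδ hδ1 x₀ ε hε hε1
    obtain ⟨r₀, hr₀, h⟩ := prime_sys 1 (k + 1) D squarefree_one E η 1 δ hE hη one_pos hδ hδ1 x₀ ε hε hε1
    refine ⟨r₀, hr₀, ?_⟩
    intro r hr
    filter_upwards [h r hr, eventually_ge_atTop 1] with X hX hX1
    intro F hF u Y hY huY
    have hmain := hX (withX F) 0 (toUS hF) (Nat.coprime_one_left 0) (by
      intro p n hp h1
      exact absurd (Nat.dvd_one.1 h1) hp.one_lt.ne') ⟨0, fun n => by
        unfold withX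
        rw [Fin.cons_zero, eval_X]
        push_cast
        ring⟩ (by
        push_cast
        positivity) X (by rw [Real.rpow_one]) u Y hY huY
    rw [W_eq, V_eq] at hmain
    have e1 : Sf (Q (withX F)) ⌊(X : ℝ) ^ (1 / (r : ℝ))⌋₊ = Good X F r := by
      funext m
      exact propext (good_iff X F r m)
    have e2 : (Ioc u (u + Y)).filter (fun n => (1 * n + 0).Prime ∧
        Sf (Q (withX F)) ⌊(X : ℝ) ^ (1 / (r : ℝ))⌋₊ n) = P X F r u Y := by
      unfold P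
      rw [e1]
      apply Finset.filter_congr
      intro n _
      rw [one_mul, add_zero]
    rw [e2] at hmain
    refine ⟨hmain.1, fun T hT B => ?_⟩
    have h3 := hmain.2 T hT B
    have e3 : (Ioc u (u + Y)).filter (fun n => ((1 * n + 0).Prime ∧
          Sf (Q (withX F)) ⌊(X : ℝ) ^ (1 / (r : ℝ))⌋₊ n) ∧
          Wc (Sf (Q (withX F)) ⌊(X : ℝ) ^ (1 / (r : ℝ))⌋₊) n T ∈ B) =
        (P X F r u Y).filter (fun q => next X F r T q ∈ B) := by
      unfold P next Wc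
      rw [e1, Finset.filter_filter]
      apply Finset.filter_congr
      intro n _
      rw [one_mul, add_zero]
    rw [e3] at h3
    exact h3

end Pool.Agent.Results.MP_51e72e_nt.PrimeArguments
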