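import Pool.Agent.Q54.BZ.One

/-!
# The regulator isomorphism for one model and for one smooth affine cubic hypersurface over `ℤ`

Let `q_0, …, q_r` be polynomials of degree at most two in `M` variables over `ℤ`. The cubic
hypersurface `E_q : ∑ λ_j q_j(x) = 1` in the affine space of dimension `M + r + 1` over `ℤ`
(`hypO q 1`) is smooth over `ℤ`. For an arithmetic scheme `X` and an integer `n` let `PerfectIn n X`
be the statement that for all `m` the height pairing between `CH_n(X, m - 2 n) ⊗ ℝ` and the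
Arakelov motivic cohomology with compact supports `Ĥ_c^m(X, ℝ(n))` is perfect. We show:

* for every regular connected scheme `X`, proper and flat over `ℤ`, there are `q` and `s` such that
  the assertion of the question for `X` is equivalent to `PerfectIn (s + r) E_q`, that is to the
  perfectness of the pairings of `E_q` in the single weight `M + 1 - s` (codimension);
* the assertion of the question for all `X` follows if `PerfectIn r E_q` holds for all `q` (the weight,
  or codimension, is `M + 1`), and this is equivalent to `PerfectIn 0 X` for all arithmetic schemes.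
-/

namespace Pool.Agent.Results.MP_51fc19_nt.OneCubicForEachModel

open Q54.BZ Q54.CU CategoryTheory AlgebraicGeometry

/-- The relation between the height pairings of weight zero and the groups of the question, for a
regular connected scheme `X` of dimension `d`, proper and flat over `ℤ`. The group
`H^{2 d - 1 - i}(X, ℚ(d)) ⊗ ℝ` is `CH_0(X, i + 1) ⊗ ℝ = (D (i + 1) 0 X).A`; `E i` is the Deligne
cohomology `H^{2 d - 1 - i}_𝒟(X_{/ℝ}, ℝ(d))`, `C` is `CH^0(X_ℚ)^* ⊗ ℝ` and `eps` the map to `C`; and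
`comp i` is the dual of the boundary map from Deligne cohomology to Arakelov motivic cohomology. Since
`H^i(X, ℚ(0))` is zero for `i ≠ 0` it is bijective for `i ≥ 1`, and for `i = 0` its image is the kernel
of `eps`. The groups in degrees `m ≤ 0` are zero (`CH_0(X)` is finite). -/
structure Comparison (D : ℤ → ℤ → SchO ℤ → RegSp) (X : SchO ℤ) where
  E : ℕ → Type
  C : Type
  [groupE : ∀ i, AddCommGroup (E i)]
  [modE : ∀ i, Module ℝ (E i)]
  [groupC : AddCommGroup C]
  [modC : Module ℝ C]
  eps : E 0 →ₗ[ℝ] C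
  comp : ∀ i : ℕ, (D (i + 1) 0 X).H →ₗ[ℝ] E i
  comp_bij : ∀ i, 1 ≤ i → Function.Bijective (comp i)
  comp_inj : Function.Injective (comp 0)
  comp_exact : Function.Exact (comp 0) eps
  eps_surj : Function.Surjective eps
  lowA : ∀ m : ℤ, m ≤ 0 → Subsingleton (D m 0 X).A
  lowH : ∀ m : ℤ, m ≤ 0 → Subsingleton (D m 0 X).H

attribute [instance] Comparison.groupE Comparison.modE Comparison.groupC Comparison.modC

variable {D : ℤ → ℤ → SchO ℤ → RegSp}

/-- The regulator `r_i : H^{2 d - 1 - i}(X, ℚ(d)) ⊗ ℝ → H^{2 d - 1 - i}_𝒟(X_{/ℝ}, ℝ(d))`. -/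
def Comparison.r {X : SchO ℤ} (R : Comparison D X) (i : ℕ) : (D (i + 1) 0 X).A →ₗ[ℝ] R.E i :=
  R.comp i ∘ₗ (D (i + 1) 0 X).reg

/-- The assertion of the question for `X`: the map `r_i` is bijective for `i ≥ 1`, and there is the
exact sequence `0 → H^{2 d - 1}(X, ℚ(d)) ⊗ ℝ → E 0 → C → 0`. -/
structure RegulatorIso {X : SchO ℤ} (R : Comparison D X) : Prop where
  bijective : ∀ i, 1 ≤ i → Function.Bijective (R.r i)
  injective : Function.Injective (R.r 0)
  exact : Function.Exact (R.r 0) R.eps
  surjective : Function.Surjective R.eps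

/-- The assertion of the question is the perfectness of the pairings of weight zero. -/
theorem iso_iff {X : SchO ℤ} (R : Comparison D X) : RegulatorIso R ↔ PerfectIn D 0 X := by
  have h0 : ∀ i : ℕ, (R.r i : (D (i + 1) 0 X).A → R.E i) = R.comp i ∘ (D (i + 1) 0 X).reg :=
    fun i => rfl
  constructor
  · intro h m
    rcases le_or_gt m 0 with hm | hm
    · have h1 := R.lowA m hm
      have h2 := R.lowH m hm
      exact ⟨fun x y _ => Subsingleton.elim x y, fun y => ⟨0, Subsingleton.elim _ _⟩⟩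
    · obtain ⟨i, rfl⟩ : ∃ i : ℕ, m = i + 1 := ⟨(m - 1).toNat, by omega⟩
      rcases Nat.eq_zero_or_pos i with rfl | hi
      · refine ⟨?_, fun y => ?_⟩
        · have h1 := h.injective
          rw [h0 0] at h1
          exact h1.of_comp
        · obtain ⟨x, hx⟩ := (h.exact (R.comp 0 y)).1 ((R.comp_exact _).2 ⟨y, rfl⟩)
          exact ⟨x, R.comp_inj hx⟩
      · have h1 := h.bijective i hi
        rw [h0 i] at h1
        exact (Function.Bijective.of_comp_iff' (R.comp_bij i hi) _).1 h1
  · intro h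
    refine ⟨fun i hi => ?_, ?_, ?_, R.eps_surj⟩
    · rw [h0 i]
      exact (R.comp_bij i hi).comp (h _)
    · rw [h0 0]
      exact R.comp_inj.comp (h _).injective
    · intro y
      rw [R.comp_exact y]
      constructor
      · rintro ⟨z, rfl⟩
        obtain ⟨x, rfl⟩ := (h ((0 : ℕ) + 1)).surjective z
        exact ⟨x, rfl⟩
      · rintro ⟨x, rfl⟩
        exact ⟨_, rfl⟩

/-- **The regulator isomorphism for one model and for one smooth affine cubic hypersurface.** -/
theorem result (D : ℤ → ℤ → SchO ℤ → RegSp) (hD : IsHeightTheory D)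
    (point : ∀ n, PerfectIn D n ptZ) :
    (∀ X : SchO ℤ, IsArith X → HasTorsorZ X → ∀ R : Comparison D X,
      ∃ (M r s : ℕ) (q : Fin (r + 1) → MvPolynomial (Fin M) ℤ), (∀ j, (q j).totalDegree ≤ 2) ∧
        (RegulatorIso R ↔ PerfectIn D (s + r) (hypO q 1))) ∧
    (∀ X : SchO ℤ, IsArith X → HasTorsorZ X →
      ∃ (M r s : ℕ) (q : Fin (r + 1) → MvPolynomial (Fin M) ℤ), (∀ j, (q j).totalDegree ≤ 2) ∧
        ∀ n : ℤ, PerfectIn D (n + s + r) (hypO q 1) ↔ PerfectIn D n X) ∧
    (∀ n : ℤ, (∀ X : SchO ℤ, IsArith X → PerfectIn D n X) ↔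
      ∀ (M r : ℕ) (q : Fin (r + 1) → MvPolynomial (Fin M) ℤ), (∀ j, (q j).totalDegree ≤ 2) →
        PerfectIn D (n + r) (hypO q 1)) ∧
    ((∀ (M r : ℕ) (q : Fin (r + 1) → MvPolynomial (Fin M) ℤ), (∀ j, (q j).totalDegree ≤ 2) →
      PerfectIn D r (hypO q 1)) → ∀ X : SchO ℤ, IsArith X → ∀ R : Comparison D X,
        RegulatorIso R) ∧
    ∀ (M r : ℕ) (q : Fin (r + 1) → MvPolynomial (Fin M) ℤ), (∀ j, (q j).totalDegree ≤ 2) →
      IsArith (hypO q 1) ∧ Smooth (hypO q 1).hom ∧ IsAffine (hypO q 1).left ∧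
        (hypPoly q 1).totalDegree ≤ 3 := by
  have h3 : ∀ n : ℤ, (∀ X : SchO ℤ, IsArith X → PerfectIn D n X) ↔
      ∀ (M r : ℕ) (q : Fin (r + 1) → MvPolynomial (Fin M) ℤ), (∀ j, (q j).totalDegree ≤ 2) →
        PerfectIn D (n + r) (hypO q 1) := fun n => (perf_all hD point n).out 0 2
  refine ⟨?_, fun X hX hT => perf_scheme hD point hX hT, h3, ?_, ?_⟩
  · intro X hX hT R
    obtain ⟨M, r, s, q, hq, h⟩ := perf_scheme hD point hX hT
    refine ⟨M, r, s, q, hq, ?_⟩
    rw [iso_iff, ← h 0, zero_add]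
  · intro h X hX R
    rw [iso_iff]
    refine (h3 0).2 (fun M r q hq => ?_) X hX
    rw [zero_add]
    exact h M r q hq
  · intro M r q hq
    exact ⟨isArith_hyp q 1, smooth_hyp q, (inferInstance : IsAffine (HypSch q (1 : ℤ))),
      totalDegree_hypPoly q 1 hq⟩

end Pool.Agent.Results.MP_51fc19_nt.OneCubicForEachModel
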