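import Pool.Agent.Q12.NA.Plane

/-!
# Products of null-additive sets of reals are null-additive in the plane

If `X, Y ⊆ ℝ` are null-additive (the sum with every Lebesgue null set of reals is Lebesgue null),
then `X × Y` is null-additive in `ℝ²` with coordinatewise addition and planar Lebesgue measure.
-/

open MeasureTheory
open scoped Pointwise

namespace Pool.Agent.Withdrawn.MP_52c2ea_lc.ProductNull

/-- `A` is null-additive: `A + N` has measure zero for every set `N` of measure zero. -/
def NullAdditive {G : Type*} [Add G] [MeasureSpace G] (A : Set G) : Prop :=
  ∀ N : Set G, volume N = 0 → volume (A + N) = 0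

/-- Question Q2 has a positive answer. -/
theorem result : ∀ X Y : Set ℝ, NullAdditive X → NullAdditive Y → NullAdditive (X ×ˢ Y) :=
  fun X Y hX hY N hN => Q12.NA.prod_null X Y hX hY N hN

end Pool.Agent.Withdrawn.MP_52c2ea_lc.ProductNull
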