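import Pool.Agent.H902R3.PZ.W1
import Pool.Agent.Q286.SP.Cond

/-!
# The Grand Lindelöf hypothesis in the conductor aspect fails in the Selberg class

For members of the Selberg class with functional equation data `(Q; λ; μ; ω)` the convexity bound is
`F(1/2 + it) ≪ Q^{1/2 + ε} (1 + |t|)^{λ/2 + ε}`.  We construct, for all large `m`, all `2m + 1 < λ ≤ 2m + 2` and all
`δ < (m - 1)/λ`, entire members of the Selberg class of degree `2λ` with `|F(1/2 + it)| > Q^δ (1 + |t|)^A` for some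
real `t`, whatever `A` is.  So the bound of the Grand Lindelöf hypothesis fails in the conductor aspect in the
Selberg class, and the exponent `1/2` of the convexity bound cannot be replaced by any smaller absolute constant.
-/

set_option autoImplicit false

open Complex

namespace Pool.Agent.Results.MP_52e316_nt.SubconvexityFailsSelberg

/-- The completed function `Φ(s) = Q^s ∏_{j < k} Γ(λ_j s + μ_j) F(s)`. -/
noncomputable def Phi (F : ℂ → ℂ) (Q : ℝ) {k : ℕ} (lam : Fin k → ℝ) (mu : Fin k → ℂ) (s : ℂ) : ℂ :=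
  (Q : ℂ) ^ s * (∏ j, Gamma ((lam j : ℂ) * s + mu j)) * F s

/-- The functional equation `Φ(s) = ω conj Φ(1 - conj s)` with `Q > 0`, `λ_j > 0`, `Re μ_j ≥ 0`, `|ω| = 1`, at
every `s ≠ 0, 1` at which no gamma factor of `Φ(s)` or of `Φ(1 - conj s)` has a pole. -/
def FE (F : ℂ → ℂ) (Q : ℝ) {k : ℕ} (lam : Fin k → ℝ) (mu : Fin k → ℂ) (ω : ℂ) : Prop :=
  0 < Q ∧ (∀ j, 0 < lam j) ∧ (∀ j, 0 ≤ (mu j).re) ∧ ‖ω‖ = 1 ∧
    ∀ s : ℂ, s ≠ 0 → s ≠ 1 →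
      (∀ j, ∀ n : ℕ, (lam j : ℂ) * s + mu j ≠ -(n : ℂ)) →
      (∀ j, ∀ n : ℕ, (lam j : ℂ) * (1 - starRingEnd ℂ s) + mu j ≠ -(n : ℂ)) →
      Phi F Q lam mu s = ω * starRingEnd ℂ (Phi F Q lam mu (1 - starRingEnd ℂ s))

/-- The Selberg class: `a` is the sequence of coefficients of the Dirichlet series and `F` is its
continuation to `ℂ \ {1}` (the value of `F` at `1` is irrelevant). -/
structure IsSelberg (a : ℕ → ℂ) (F : ℂ → ℂ) : Prop where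
  /-- the Dirichlet series converges absolutely for `Re s > 1` -/
  abs_conv : ∀ s : ℂ, 1 < s.re → LSeriesSummable a s
  /-- `F` is the sum of the Dirichlet series for `Re s > 1` -/
  eq_series : ∀ s : ℂ, 1 < s.re → F s = LSeries a s
  /-- some `(s - 1)^m F(s)` is entire of finite order -/
  continuation : ∃ (m : ℕ) (G : ℂ → ℂ), Differentiable ℂ G ∧
    (∃ A C : ℝ, 0 < A ∧ ∀ s : ℂ, ‖G s‖ ≤ C * Real.exp (‖s‖ ^ A)) ∧
    ∀ s : ℂ, s ≠ 1 → G s = (s - 1) ^ m * F s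
  /-- functional equation -/
  functional : ∃ (Q : ℝ) (k : ℕ) (lam : Fin k → ℝ) (mu : Fin k → ℂ) (ω : ℂ), FE F Q lam mu ω
  /-- Ramanujan hypothesis `a(n) ≪ n^ε` -/
  ramanujan : ∀ ε : ℝ, 0 < ε → ∃ C : ℝ, ∀ n : ℕ, 1 ≤ n → ‖a n‖ ≤ C * (n : ℝ) ^ ε
  /-- Euler product, first part -/
  a_one : a 1 = 1
  /-- Euler product: `log F(s) = ∑ b(n) n^{-s}`, `b` supported on prime powers, `b(n) ≪ n^θ`, `θ < 1/2` -/
  euler : ∃ (b : ℕ → ℂ) (θ : ℝ), θ < 1 / 2 ∧ (∀ n : ℕ, ¬ IsPrimePow n → b n = 0) ∧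
    (∃ C : ℝ, ∀ n : ℕ, 1 ≤ n → ‖b n‖ ≤ C * (n : ℝ) ^ θ) ∧
    ∀ s : ℂ, 1 < s.re → LSeriesSummable b s ∧ exp (LSeries b s) = F s

open Pool.Agent.Y532.SC in
/-- the functional equation of `One` -/
theorem fe_of_one {lam nu Q ε : ℝ} {g : ℕ → ℝ} {F : ℂ → ℂ} (h : One lam nu Q ε g F) (hlam : 0 < lam)
    (hnu : 0 ≤ nu) (hQ : 0 < Q) : FE F Q ![lam] ![(nu : ℂ)] (ε : ℂ) := by
  refine ⟨hQ, ?_, ?_, ?_, ?_⟩
  · intro j
    fin_cases j
    simpa using hlam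
  · intro j
    fin_cases j
    simpa using hnu
  · rcases h.eps with h | h <;> rw [h] <;> simp
  · intro s _ _ h1 h2
    have key := h.fe s (fun n => h1 0 n) (fun n => h2 0 n)
    have hPhi : ∀ w : ℂ, Phi F Q ![lam] ![(nu : ℂ)] w = F w * (Q : ℂ) ^ w * Gamma ((lam : ℂ) * w + nu) := by
      intro w
      unfold Phi
      rw [Fin.prod_univ_one]
      simp only [Matrix.cons_val_zero]
      ring
    rw [hPhi, hPhi]
    exact key

open Pool.Agent.Y532.SC in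
/-- the elements of `Y532.SC` belong to the Selberg class -/
theorem isSelberg_of_one {lam nu Q ε : ℝ} {g : ℕ → ℝ} {F : ℂ → ℂ} (h : One lam nu Q ε g F) (hlam : 0 < lam)
    (hnu : 0 ≤ nu) (hQ : 0 < Q) : IsSelberg (co g) F where
  abs_conv := fun s hs => co_summable h.bdd hs
  eq_series := h.series
  continuation := by
    obtain ⟨C, hC⟩ := h.growth
    exact ⟨0, F, h.diff, ⟨3, C, by norm_num, hC⟩, fun s _ => by rw [pow_zero, one_mul]⟩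
  functional := ⟨Q, 1, ![lam], ![(nu : ℂ)], ε, fe_of_one h hlam hnu hQ⟩
  ramanujan := by
    intro ε hε
    refine ⟨1, fun n hn => ?_⟩
    rw [one_mul]
    refine (co_bdd h.bdd n).trans ?_
    have : (1 : ℝ) ≤ n := by exact_mod_cast hn
    exact Real.one_le_rpow this hε.le
  a_one := co_one g
  euler := by
    have hb := cf_bound h.bdd
    refine ⟨Pool.Agent.H902R3.PZ.bH 1 (cf g), 0, by norm_num, ?_, ⟨1, fun n _ => ?_⟩, fun s hs => ⟨?_, ?_⟩⟩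
    · intro n hn
      unfold Pool.Agent.H902R3.PZ.bH
      rw [if_neg hn]
    · rw [Real.rpow_zero, mul_one]
      exact Pool.Agent.H902R3.PZ.norm_bH_le hb n
    · exact Pool.Agent.H902R3.PZ.summable_bH hb hs
    · rw [Pool.Agent.H902R3.PZ.exp_bH hb hs, h.series s hs]
      rfl

open Pool.Agent.Y532.SC in
theorem co_real {g : ℕ → ℝ} (n : ℕ) : (co g n).im = 0 := by
  unfold co Pool.Agent.H902R3.I469.ff
  exact Complex.ofReal_im _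

/-- **In the Selberg class the conductor aspect of the Grand Lindelöf hypothesis fails, and the exponent of the
convexity bound is optimal.** -/
theorem result :
    -- (1) large values of members of degree `2λ`, `2m + 1 < λ ≤ 2m + 2`, of every large conductor
    (∃ m₀ : ℕ, ∀ m : ℕ, m₀ ≤ m → ∀ lam : ℝ, 2 * m + 1 < lam → lam ≤ 2 * m + 2 →
      ∀ δ : ℝ, δ < (m - 1) / lam → ∀ A : ℝ, ∃ Q₁ : ℝ, 0 < Q₁ ∧ ∀ Q : ℝ, Q₁ ≤ Q →
        ∃ (a : ℕ → ℂ) (F : ℂ → ℂ), IsSelberg a F ∧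
          FE F Q ![lam] ![((m + 1 - lam / 2 : ℝ) : ℂ)] (((-1 : ℝ) ^ (m + 1) : ℝ) : ℂ) ∧ Differentiable ℂ F ∧
          (∀ n : ℕ, (a n).im = 0 ∧ ‖a n‖ ≤ 1) ∧
          ∃ t : ℝ, Q ^ δ * (1 + |t|) ^ A < ‖F (1 / 2 + t * I)‖) ∧
    -- (2) the exponent `1/2` of the convexity bound is optimal: no smaller exponent is admissible for all degrees
    (∀ δ : ℝ, δ < 1 / 2 → ∃ lam mu ε : ℝ, 0 < lam ∧ 0 ≤ mu ∧ (ε = 1 ∨ ε = -1) ∧ ∀ A C : ℝ, ∃ Q₁ : ℝ, 0 < Q₁ ∧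
      ∀ Q : ℝ, Q₁ ≤ Q → ∃ (a : ℕ → ℂ) (F : ℂ → ℂ), IsSelberg a F ∧ FE F Q ![lam] ![(mu : ℂ)] (ε : ℂ) ∧
        Differentiable ℂ F ∧ (∀ n : ℕ, (a n).im = 0 ∧ ‖a n‖ ≤ 1) ∧
        ∃ t : ℝ, C * Q ^ δ * (1 + |t|) ^ A < ‖F (1 / 2 + t * I)‖) := by
  have A : ∃ m₀ : ℕ, ∀ m : ℕ, m₀ ≤ m → ∀ lam : ℝ, 2 * m + 1 < lam → lam ≤ 2 * m + 2 →
      ∀ δ : ℝ, δ < (m - 1) / lam → ∀ A : ℝ, ∃ Q₁ : ℝ, 0 < Q₁ ∧ ∀ Q : ℝ, Q₁ ≤ Q →
        ∃ (a : ℕ → ℂ) (F : ℂ → ℂ), IsSelberg a F ∧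
          FE F Q ![lam] ![((m + 1 - lam / 2 : ℝ) : ℂ)] (((-1 : ℝ) ^ (m + 1) : ℝ) : ℂ) ∧ Differentiable ℂ F ∧
          (∀ n : ℕ, (a n).im = 0 ∧ ‖a n‖ ≤ 1) ∧
          ∃ t : ℝ, Q ^ δ * (1 + |t|) ^ A < ‖F (1 / 2 + t * I)‖ := by
    obtain ⟨m₀, hm₀, H⟩ := Pool.Agent.Q286.SP.big_values
    refine ⟨m₀, fun m hm lam h1 h2 δ hδ A => ?_⟩
    have hm2 : (2 : ℝ) ≤ m := by exact_mod_cast hm₀.trans hm
    have hlam : 0 < lam := by linarith
    have hpos : 0 < (m - 1) / lam := div_pos (by linarith) hlam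
    obtain ⟨Q₁, hQ₁, K⟩ := H m hm lam h1 h2 (max δ 0) (le_max_right _ _) (max_lt hδ hpos) ⌈A⌉₊
    refine ⟨Q₁, by linarith, fun Q hQ => ?_⟩
    obtain ⟨g, F, hF, -, hv⟩ := K Q hQ
    have hnu : 0 ≤ m + 1 - lam / 2 := by linarith
    have hQ1 : 1 ≤ Q := by linarith
    have hQ0 : 0 < Q := by linarith
    refine ⟨_, F, isSelberg_of_one hF hlam hnu hQ0, fe_of_one hF hlam hnu hQ0, hF.diff,
      fun n => ⟨co_real n, Pool.Agent.Y532.SC.co_bdd hF.bdd n⟩, ?_⟩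
    by_contra hno
    push Not at hno
    apply hv
    intro t
    refine (hno t).trans ?_
    have h3 : Q ^ δ ≤ Q ^ (max δ 0) := Real.rpow_le_rpow_of_exponent_le hQ1 (le_max_left _ _)
    have h4 : (1 : ℝ) ≤ 1 + |t| := by linarith [abs_nonneg t]
    have h5 : (1 + |t|) ^ A ≤ (1 + |t|) ^ ⌈A⌉₊ := by
      rw [← Real.rpow_natCast (1 + |t|) ⌈A⌉₊]
      exact Real.rpow_le_rpow_of_exponent_le h4 (Nat.le_ceil A)
    gcongr
  refine ⟨A, ?_⟩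
  intro δ hδ
  obtain ⟨m₀, H⟩ := A
  -- a large degree: `lam = 2m + 2`, `(m - 1)/lam = 1/2 - 2/lam`
  obtain ⟨m, hm⟩ : ∃ m : ℕ, max (m₀ : ℝ) (1 / (1 / 2 - δ)) + 1 < m := exists_nat_gt _
  have hm1 : m₀ ≤ m := by
    have : (m₀ : ℝ) < m := by linarith [le_max_left (m₀ : ℝ) (1 / (1 / 2 - δ))]
    exact_mod_cast this.le
  have hδ0 : 0 < 1 / 2 - δ := by linarith
  have hm2 : 1 / (1 / 2 - δ) < m := by linarith [le_max_right (m₀ : ℝ) (1 / (1 / 2 - δ))]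
  have hm3 : 1 < (1 / 2 - δ) * m := by
    rw [div_lt_iff₀ hδ0] at hm2
    linarith
  have hmR : (0 : ℝ) < m := by
    have := one_div_pos.2 hδ0
    linarith
  have hδ2 : (δ + 1 / (m + 1) : ℝ) < 1 / 2 := by
    have : (1 : ℝ) / (m + 1) < 1 / 2 - δ := by
      rw [div_lt_iff₀ (by linarith)]
      nlinarith
    linarith
  obtain ⟨δ', hδ'1, hδ'2⟩ : ∃ δ' : ℝ, δ < δ' ∧ δ' < (m - 1) / (2 * m + 2 : ℝ) := by
    apply exists_between
    have e : ((m : ℝ) - 1) / (2 * m + 2) = 1 / 2 - 1 / (m + 1) := by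
      field_simp
      ring
    rw [e]
    linarith
  refine ⟨2 * m + 2, 0, (-1) ^ (m + 1), by linarith, le_rfl, neg_one_pow_eq_or ℝ _, fun A C => ?_⟩
  obtain ⟨Q₁, hQ₁, K⟩ := H m hm1 (2 * m + 2) (by linarith) le_rfl δ' hδ'2 A
  obtain ⟨Q₂, hQ₂⟩ := Filter.eventually_atTop.1
    ((tendsto_rpow_atTop (show 0 < δ' - δ by linarith)).eventually_ge_atTop C)
  refine ⟨max Q₁ Q₂, lt_max_of_lt_left hQ₁, fun Q hQ => ?_⟩
  obtain ⟨a, F, hS, hFE, hd, hr, t, ht⟩ := K Q ((le_max_left _ _).trans hQ)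
  have e1 : ((m : ℝ) + 1 - (2 * m + 2) / 2 : ℝ) = 0 := by ring
  rw [e1] at hFE
  refine ⟨a, F, hS, hFE, hd, hr, t, lt_of_le_of_lt ?_ ht⟩
  have hQ0 : 0 < Q := hQ₁.trans_le ((le_max_left _ _).trans hQ)
  have h1 := hQ₂ Q ((le_max_right _ _).trans hQ)
  have h2 : Q ^ (δ' - δ) * Q ^ δ = Q ^ δ' := by
    rw [← Real.rpow_add hQ0]
    congr 1
    ring
  rw [← h2]
  have h3 : 0 ≤ Q ^ δ := by positivity
  have h4 : (0 : ℝ) ≤ (1 + |t|) ^ A := by positivity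
  gcongr

end Pool.Agent.Results.MP_52e316_nt.SubconvexityFailsSelberg
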