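import Pool.Agent.Q127.ET.Val

/-!
# The convexity bound is sharp for tempered `L`-functions, in the conductor and in `t` at once, up to `5/(4d)`

For every large `d ≡ 3 (mod 4)` and every large integer `q` there is a tempered `L`-function of degree `d` and conductor
`q` in the axiomatic sense of Iwaniec and Kowalski (*Analytic number theory*, section 5.1) with
`|L(1/2 + 32πik/d)| = κ q^{1/4 - 3/(4d)} k^{(d-5)/4} / (log (q(k+1)))³` for all `k ≥ 1`; the convexity bound is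
`(q t^d)^{1/4 + ε}`.  So the Grand Lindelöf Hypothesis, and any subconvex bound with a saving that does not tend to `0`
when `d → ∞`, fail in this class, in the conductor aspect and in the `t`-aspect.  More precisely the values at the points
`1/2 + 32πik/d` can be any real numbers of at most this size, up to fixed unimodular factors.
-/

set_option autoImplicit false

open Complex Filter Set

namespace Pool.Agent.Results.MP_52e316_nt.TemperedConvexitySharp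

/-- The completed function `Λ(s) = q^{s/2} π^{-ds/2} ∏_{j<d} Γ((s + κ_j)/2) · L(s)`. -/
noncomputable def Lambda (q : ℕ) {d : ℕ} (κ : Fin d → ℝ) (L : ℂ → ℂ) (s : ℂ) : ℂ :=
  (q : ℂ) ^ (s / 2) * (Real.pi : ℂ) ^ (-(d * s / 2)) * (∏ j, Gamma ((s + κ j) / 2)) * L s

/-- `L` is an entire `L`-function of degree `d` and conductor `q` with real coefficients `a n`, local roots `α p j`
(`j < d`, `p` prime), spectral parameters `κ j` and root number `ε`. -/
structure IsLFunction (d q : ℕ) (a : ℕ → ℝ) (α : ℕ → Fin d → ℂ) (κ : Fin d → ℝ) (ε : ℝ) (L : ℂ → ℂ) : Prop where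
  /-- `a(1) = 1` -/
  one : a 1 = 1
  /-- the coefficients are multiplicative -/
  mult : ∀ m n : ℕ, Nat.Coprime m n → a (m * n) = a m * a n
  /-- all `d` local roots at every prime have absolute value one (Ramanujan conjecture) -/
  unitary : ∀ p : ℕ, p.Prime → ∀ j, ‖α p j‖ = 1
  /-- trivial central character -/
  det_one : ∀ p : ℕ, p.Prime → ∏ j, α p j = 1
  /-- the local roots are closed under complex conjugation -/
  selfdual : ∀ p : ℕ, p.Prime → ∀ z : ℂ, ∏ j, (1 - α p j * z) = ∏ j, (1 - starRingEnd ℂ (α p j) * z)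
  /-- `∑ a(p^k) z^k = ∏_{j<d} (1 - α_j(p) z)⁻¹` -/
  loc : ∀ p : ℕ, p.Prime → ∀ z : ℂ, ‖z‖ < 1 →
    HasSum (fun k : ℕ => ((a (p ^ k) : ℝ) : ℂ) * z ^ k) (∏ j, (1 - α p j * z))⁻¹
  /-- the Dirichlet series converges absolutely for `Re s > 1` -/
  summable : ∀ s : ℂ, 1 < s.re → LSeriesSummable (fun n => ((a n : ℝ) : ℂ)) s
  /-- `L` is the sum of the Dirichlet series for `Re s > 1` -/
  series : ∀ s : ℂ, 1 < s.re → L s = LSeries (fun n => ((a n : ℝ) : ℂ)) s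
  /-- Euler product of degree `d` -/
  euler : ∀ s : ℂ, 1 < s.re → HasProd (fun p : Nat.Primes => (∏ j, (1 - α p j * ((p : ℕ) : ℂ) ^ (-s)))⁻¹) (L s)
  /-- `L` is entire -/
  entire : Differentiable ℂ L
  /-- `L` has order at most one -/
  order_one : ∀ e : ℝ, 0 < e → ∃ C : ℝ, ∀ s : ℂ, ‖L s‖ ≤ C * Real.exp (‖s‖ ^ (1 + e))
  /-- the conductor is a positive integer -/
  conductor : 1 ≤ q
  /-- root number -/
  root : ε = 1 ∨ ε = -1
  /-- the spectral parameters are real, with `0 < κ_j < 2` -/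
  kappa : ∀ j, 0 < κ j ∧ κ j < 2
  /-- functional equation `Λ(s) = ε Λ(1 - s)`, at every `s` at which no gamma factor of either side has a pole -/
  functional : ∀ s : ℂ, (∀ (j : Fin d) (n : ℕ), s + κ j ≠ -(2 * (n : ℂ))) →
    (∀ (j : Fin d) (n : ℕ), 1 - s + κ j ≠ -(2 * (n : ℂ))) → Lambda q κ L s = ε * Lambda q κ L (1 - s)


/-- the structure of the library file and the one above have the same fields -/
theorem conv {d q : ℕ} {a : ℕ → ℝ} {α : ℕ → Fin d → ℂ} {κ : Fin d → ℝ} {ε : ℝ} {L : ℂ → ℂ}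
    (hL : Pool.Agent.Q127.ET.IsLFunction d q a α κ ε L) : IsLFunction d q a α κ ε L :=
  { one := hL.one
    mult := hL.mult
    unitary := hL.unitary
    det_one := hL.det_one
    selfdual := hL.selfdual
    loc := hL.loc
    summable := hL.summable
    series := hL.series
    euler := hL.euler
    entire := hL.entire
    order_one := hL.order_one
    conductor := hL.conductor
    root := hL.root
    kappa := hL.kappa
    functional := hL.functional }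

/-- **The values of tempered `L`-functions on an arithmetic progression of the critical line are arbitrary up to nearly
the convexity bound.** -/
theorem result : ∃ d₀ : ℕ, ∀ d : ℕ, d₀ ≤ d → d % 4 = 3 → ∃ (q₀ : ℕ) (κ : ℝ), 2 ≤ q₀ ∧ 0 < κ ∧ ∀ q : ℕ, q₀ ≤ q →
    -- (1) up to fixed unimodular numbers `u k`, all real values of size at most
    -- `κ q^{1/4 - 3/(4d)} (k+1)^{(d-5)/4} / (log (q(k+2)))³` at the points `1/2 + 32πi(k+1)/d`
    (∃ u : ℕ → ℂ, (∀ k, ‖u k‖ = 1) ∧ ∀ r : ℕ → ℝ,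
      (∀ k, |r k| ≤ κ * (q : ℝ) ^ ((1 : ℝ) / 4 - 3 / (4 * d)) * ((k : ℝ) + 1) ^ (((d : ℝ) - 5) / 4) /
        Real.log (q * (k + 2)) ^ 3) →
      ∃ (a : ℕ → ℝ) (α : ℕ → Fin d → ℂ) (L : ℂ → ℂ),
        IsLFunction d q a α (fun j => (4 * (j : ℕ) + 1) / (2 * d)) ((-1) ^ ((d + 1) / 4)) L ∧
        ∀ k : ℕ, L (1 / 2 + ((32 * Real.pi * (k + 1) / d : ℝ) : ℂ) * I) = r k * u k) ∧
    -- (2) so the convexity bound is attained up to `5/(4d)` in `q` and in `t`, at every point of the progression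
    ∃ (a : ℕ → ℝ) (α : ℕ → Fin d → ℂ) (L : ℂ → ℂ),
      IsLFunction d q a α (fun j => (4 * (j : ℕ) + 1) / (2 * d)) ((-1) ^ ((d + 1) / 4)) L ∧
      ∀ k : ℕ, ‖L (1 / 2 + ((32 * Real.pi * (k + 1) / d : ℝ) : ℂ) * I)‖ =
        κ * (q : ℝ) ^ ((1 : ℝ) / 4 - 3 / (4 * d)) * ((k : ℝ) + 1) ^ (((d : ℝ) - 5) / 4) / Real.log (q * (k + 2)) ^ 3 := by
  obtain ⟨m₀, hm₀, H⟩ := Pool.Agent.Q127.ET.prescribeT
  refine ⟨4 * m₀ + 3, fun d hd hd4 => ?_⟩
  obtain ⟨m, hm⟩ : ∃ m : ℕ, d = 4 * m + 3 := ⟨d / 4, by omega⟩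
  subst hm
  obtain ⟨q₀, κ, hq₀, hκ, Hq⟩ := H m (by omega)
  refine ⟨q₀, κ, hq₀, hκ, fun q hq => ?_⟩
  obtain ⟨u, hu, Hr⟩ := Hq q hq
  have hq2 : (2:ℝ) ≤ q := by exact_mod_cast hq₀.trans hq
  have hdR : ((4 * m + 3 : ℕ) : ℝ) = 4 * m + 3 := by push_cast; rfl
  have e1 : (((4 * m + 3 : ℕ) : ℝ) - 5) / 4 = (m : ℝ) - 1 / 2 := by rw [hdR]; ring
  have he : ((4 * m + 3 : ℕ) + 1) / 4 = m + 1 := by omega
  have h1 : ∀ r : ℕ → ℝ,
      (∀ k, |r k| ≤ κ * (q : ℝ) ^ ((1 : ℝ) / 4 - 3 / (4 * ((4 * m + 3 : ℕ) : ℝ))) *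
        ((k : ℝ) + 1) ^ ((((4 * m + 3 : ℕ) : ℝ) - 5) / 4) / Real.log (q * (k + 2)) ^ 3) →
      ∃ (a : ℕ → ℝ) (α : ℕ → Fin (4 * m + 3) → ℂ) (L : ℂ → ℂ),
        IsLFunction (4 * m + 3) q a α (fun j => (4 * (j : ℕ) + 1) / (2 * ((4 * m + 3 : ℕ) : ℝ)))
          ((-1) ^ (((4 * m + 3 : ℕ) + 1) / 4)) L ∧
        ∀ k : ℕ, L (1 / 2 + ((32 * Real.pi * (k + 1) / ((4 * m + 3 : ℕ) : ℝ) : ℝ) : ℂ) * I) = r k * u k := by
    intro r hr
    rw [e1, hdR] at hr
    obtain ⟨x, L, hL, hv⟩ := Hr r hr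
    refine ⟨Pool.Agent.Q127.ET.atc m x, Pool.Agent.Q127.ET.rt m x, L, ?_, ?_⟩
    · rw [he]
      exact conv hL
    · rw [hdR]
      exact hv
  refine ⟨⟨u, hu, h1⟩, ?_⟩
  have hpos : ∀ k : ℕ, 0 < κ * (q : ℝ) ^ ((1 : ℝ) / 4 - 3 / (4 * ((4 * m + 3 : ℕ) : ℝ))) *
        ((k : ℝ) + 1) ^ ((((4 * m + 3 : ℕ) : ℝ) - 5) / 4) / Real.log (q * (k + 2)) ^ 3 := by
    intro k
    have hk : (0:ℝ) ≤ k := Nat.cast_nonneg k
    have hLg : 0 < Real.log (q * ((k:ℝ) + 2)) := Real.log_pos (by nlinarith)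
    have hq0 : (0:ℝ) < q := by linarith
    positivity
  obtain ⟨a, α, L, hL, hv⟩ := h1 (fun k => κ * (q : ℝ) ^ ((1 : ℝ) / 4 - 3 / (4 * ((4 * m + 3 : ℕ) : ℝ))) *
        ((k : ℝ) + 1) ^ ((((4 * m + 3 : ℕ) : ℝ) - 5) / 4) / Real.log (q * (k + 2)) ^ 3)
    (fun k => (abs_of_pos (hpos k)).le)
  refine ⟨a, α, L, hL, fun k => ?_⟩
  rw [hv k, norm_mul, hu k, mul_one, Complex.norm_real, Real.norm_eq_abs, abs_of_pos (hpos k)]

end Pool.Agent.Results.MP_52e316_nt.TemperedConvexitySharp
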