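import Pool.Agent.Q271.TG.Alg

/-!
# The Abel-Jacobi map over the algebraic numbers and smooth affine cubic hypersurfaces

Let `k` be the field of algebraic numbers in `ℂ`. Let `q_0, …, q_r` be polynomials of degree at most
two in `M` variables over `k`. The cubic hypersurface `E : ∑ λ_j q_j(x) = 1` in the affine space of
dimension `M + r + 1` (`hypO q 1`) is smooth over `k`, of dimension `M + r`. We show that the
Abel-Jacobi map is injective on the homologically trivial cycles of all smooth quasi-projective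
varieties over `k`, in all codimensions, if and only if the regulators
`CH^j(E, 1) → H^(2 j - 1)_H(E, ℚ(j))`, `j > 1`, are injective for the hypersurfaces `E` such that
`V(q) : q_0 = … = q_r = 0` is smooth; that it is also enough to know that the regulators
`CH^j(E, m) → H^(2 j - m)_H(E, ℚ(j))`, `j > m`, are injective for these `E`, for one `m > 0`; and that
the regulators of all hypersurfaces `E` correspond in the same way to all varieties, singular ones
included.

With `n = d - j` the group `CH^j(X, s)` of a variety `X` of dimension `d` is `CH_n(X, s)`, and for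
smooth `X` the group `H^(2 j - s)_H(X, ℚ(j))` is the absolute Hodge homology `H_(2 n + s)(X, ℚ(n))`.
It contains the intermediate Jacobian for `s = 0`.
-/

set_option linter.checkUnivs false

namespace Pool.Agent.Results.MP_537ea0_ag.RegulatorsOfCubics

universe u w x

open Q54.CU Pool.Agent.Q271.TG CategoryTheory AlgebraicGeometry

variable {k : Type u} [Field k]

/-- The class of the cycle `ξ` of dimension `n` on `X` is zero. -/
def HomTrivial (D : AJData.{u, w, x} k) (n : ℤ) (X : SchO k) (ξ : D.A n 0 X) : Prop :=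
  vl (D.cl n X) (vl (D.c n 0 X) ξ) = 0

/-- The Abel-Jacobi map is injective on the homologically trivial cycles of dimension `n` on `X`. -/
def AJInjective (D : AJData.{u, w, x} k) (n : ℤ) (X : SchO k) : Prop :=
  ∀ ξ η : D.A n 0 X, HomTrivial D n X ξ → HomTrivial D n X η →
    vl (D.c n 0 X) ξ = vl (D.c n 0 X) η → ξ = η

/-- The regulator `CH_n(X, s) → H_(2 n + s)(X, ℚ(n))` is injective. -/
def RegInjective (D : AJData.{u, w, x} k) (n s : ℤ) (X : SchO k) : Prop :=
  ∀ ξ η : D.A n s X, vl (D.c n s X) ξ = vl (D.c n s X) η → ξ = η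

/-- Q1 for the smooth varieties over which there is an affine bundle with affine total space, that
is (by Jouanolou) for a class which contains all smooth quasi-projective varieties. -/
def AJTorsor (D : AJData.{u, w, x} k) : Prop :=
  ∀ X : SchO k, IsVar X → Smooth X.hom → HasAffineTorsor X → ∀ n : ℤ, AJInjective D n X

/-- Q1 for the smooth affine varieties. -/
def AJAffine (D : AJData.{u, w, x} k) : Prop :=
  ∀ X : SchO k, IsVar X → Smooth X.hom → IsAffine X.left → ∀ n : ℤ, AJInjective D n X

/-- The closed subset `q_0 = … = q_r = 0` of the affine space has a structure of smooth closed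
subscheme. -/
def SmoothLocus {M r : ℕ} (q : Fin (r + 1) → MvPolynomial (Fin M) k) : Prop :=
  ∃ (V : SchO k) (i : V ⟶ affO k M), IsDecomp i (cplInc q) ∧ Smooth V.hom

/-- The regulators `CH^j(E, s) → H^(2 j - s)(E, ℚ(j))` with `j > s` are injective for all
hypersurfaces `E : ∑ λ_j q_j(x) = 1` such that `V(q)` is smooth; the dimension of `E` is `M + r`. -/
def SmoothCubics (D : AJData.{u, w, x} k) (s : ℤ) : Prop :=
  ∀ (M r : ℕ) (q : Fin (r + 1) → MvPolynomial (Fin M) k), (∀ j, (q j).totalDegree ≤ 2) →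
    SmoothLocus q → ∀ j : ℤ, s < j → RegInjective D (M + r - j) s (hypO q 1)

/-- The regulators `CH^j(E, s) → H^(2 j - s)(E, ℚ(j))` with `j > s` are injective for all
hypersurfaces `E : ∑ λ_j q_j(x) = 1`. -/
def AllCubics (D : AJData.{u, w, x} k) (s : ℤ) : Prop :=
  ∀ (M r : ℕ) (q : Fin (r + 1) → MvPolynomial (Fin M) k), (∀ j, (q j).totalDegree ≤ 2) →
    ∀ j : ℤ, s < j → RegInjective D (M + r - j) s (hypO q 1)

/-- The regulators `CH_n(X, s) → H_(2 n + s)(X, ℚ(n))` are injective for all varieties over which there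
is an affine bundle with affine total space, singular ones included. -/
def AllVarieties (D : AJData.{u, w, x} k) (s : ℤ) : Prop :=
  ∀ X : SchO k, IsVar X → HasAffineTorsor X → ∀ n : ℤ, RegInjective D n s X

/-- For the affine variety `X` and for every `N` there is one hypersurface `E : ∑ λ_j q_j(x) = 1`
with the same groups and regulators, for all `s ≥ 0` and `n + s ≤ N`; if `X` is smooth, then so is
`V(q)`. -/
def HasModels (D : AJData.{u, w, x} k) (X : SchO k) : Prop :=
  ∀ N : ℕ, ∃ (M r : ℕ) (q : Fin (r + 1) → MvPolynomial (Fin M) k), (∀ j, (q j).totalDegree ≤ 2) ∧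
    (Smooth X.hom → SmoothLocus q) ∧
    ∀ n s : ℤ, 0 ≤ s → n + s ≤ N → SameReg D (n + r) (s + 1) (hypO q 1) n s X

/-- The hypersurface `E : ∑ λ_j q_j(x) = 1` is a smooth affine variety of degree at most three. -/
def IsSmoothAffineCubic {M r : ℕ} (q : Fin (r + 1) → MvPolynomial (Fin M) k) : Prop :=
  IsVar (hypO q 1) ∧ Smooth (hypO q 1).hom ∧ IsAffine (hypO q 1).left ∧
    (hypPoly q 1).totalDegree ≤ 3

theorem aj_iff (D : AJData.{u, w, x} k) (n : ℤ) (X : SchO k) :
    AJInjective D n X ↔ RegInjective D n 0 X := by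
  constructor
  · intro h ξ η hc
    have h1 : HomTrivial D n X (ξ - η) := by
      have h2 : D.c n 0 X (ξ - η) = 0 := by
        rw [map_sub]
        exact sub_eq_zero.2 hc
      show D.cl n X (D.c n 0 X (ξ - η)) = 0
      rw [h2, map_zero]
    have h3 : HomTrivial D n X 0 := by
      show D.cl n X (D.c n 0 X 0) = 0
      rw [map_zero, map_zero]
    have h4 := h (ξ - η) 0 h1 h3 (by
      show D.c n 0 X (ξ - η) = D.c n 0 X 0
      rw [map_sub, map_zero]
      exact sub_eq_zero.2 hc)
    exact sub_eq_zero.1 h4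
  · intro h ξ η _ _ hc
    exact h ξ η hc

theorem regInj_iff (D : AJData.{u, w, x} k) (n s : ℤ) (X : SchO k) :
    RegInjective D n s X ↔ Function.Injective (D.c n s X) :=
  ⟨fun h ξ η hc => h ξ η hc, fun h _ _ hc => h hc⟩

/-- **The Abel-Jacobi map and regulators of smooth affine cubic hypersurfaces.** -/
theorem result (D : AJData.{u, w, x} k) (hD : IsAJTheory D) :
    List.TFAE [AJTorsor D, AJAffine D, SmoothCubics D 1] ∧
    (∀ m : ℕ, 0 < m → SmoothCubics D m → AJTorsor D) ∧
    (∀ s : ℤ, 0 ≤ s → (AllVarieties D s ↔ AllCubics D (s + 1))) ∧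
    (∀ X : SchO k, IsVar X → IsAffine X.left → HasModels D X) ∧
    ∀ (M r : ℕ) (q : Fin (r + 1) → MvPolynomial (Fin M) k), (∀ j, (q j).totalDegree ≤ 2) →
      IsSmoothAffineCubic q := by
  have hT := top_isTheory hD
  have hQ : ∀ n s X n' s' Y, Iso D.top n s X n' s' Y →
      (RegInjective D n s X ↔ RegInjective D n' s' Y) := by
    intro n s X n' s' Y h
    rw [regInj_iff, regInj_iff]
    exact h.inj
  have hP1 : ∀ {E B : SchO k} (r : ℕ) (p : E ⟶ B), IsAffineBundle r p.left →
      Smooth B.hom → Smooth E.hom := fun r p hp h => smooth_bundle r p hp h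
  have e1 : AJTorsor D ↔ TorRow (fun X => Smooth X.hom) (RegInjective D) 0 :=
    ⟨fun h X hX hS hA n => (aj_iff D n X).1 (h X hX hS hA n), fun h X hX hS hA n =>
      (aj_iff D n X).2 (h X hX hS hA n)⟩
  have e2 : AJAffine D ↔ AffRow (fun X => Smooth X.hom) (RegInjective D) 0 :=
    ⟨fun h X hX hS hA n => (aj_iff D n X).1 (h X hX hS hA n), fun h X hX hS hA n =>
      (aj_iff D n X).2 (h X hX hS hA n)⟩
  have e3 : ∀ s : ℤ, SmoothCubics D s ↔ CubRow (fun X => Smooth X.hom) (RegInjective D) s :=
    fun s => Iff.rfl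
  refine ⟨?_, ?_, ?_, ?_, ?_⟩
  · rw [e1, e2, e3]
    tfae_have 1 ↔ 2 := torRow_iff hT hP1 hQ 0
    tfae_have 3 ↔ 2 := cubRow_iff_aff hT hQ (s := 0) le_rfl
    tfae_finish
  · intro m hm h
    rw [e1, torRow_iff hT hP1 hQ 0]
    refine affRow_down hT hQ (s := 0) le_rfl (m - 1) ?_
    have h2 : ((0 : ℤ) + ((m - 1 : ℕ) : ℤ) + 1) = m := by omega
    rw [h2]
    exact (e3 m).1 h
  · intro s hs
    have h := cubRow_iff (P := fun _ => True) (Q := RegInjective D) hT (fun _ _ _ h => h) hQ hs
    constructor
    · intro h1 M r q hq j hj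
      obtain ⟨V, i, -, -, hd⟩ := Q54.CC.exists_locus q
      exact h.2 (fun X hX _ hA n => h1 X hX hA n) M r q hq ⟨V, i, hd, trivial⟩ j hj
    · intro h1 X hX hA n
      exact h.1 (fun M r q hq _ j hj => h1 M r q hq j hj) X hX trivial hA n
  · intro X hX ha N
    obtain ⟨M, r, q, i, hM, hq, hd⟩ := exists_decomp X hX.ft ha (N + 2)
    exact ⟨M, r, q, hq, fun hS => ⟨X, i, hd, hS⟩, fun n s hs hn =>
      same_of_iso (smooth_iso hT q i hd (by omega) (by omega))⟩
  · intro M r q hq
    exact ⟨(hyp_smooth q).1, (hyp_smooth q).2.1, (hyp_smooth q).2.2, totalDegree_hypPoly q 1 hq⟩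

end Pool.Agent.Results.MP_537ea0_ag.RegulatorsOfCubics
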