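import Pool.Agent.Q198.PP.Main

/-!
# Palindromic primes: infinitude, number and limit laws for all random sets near the model

`U` is the set of the decimal palindromes `n ≥ 2` with an odd number of digits which are prime to `10`; it contains all palindromic primes except
`2`, `5`, `11`. `P x` is the number of its elements below `x`. The model contains each `n ∈ U` independently with probability
`rate n = min (1 / 2) ((5 / 2) / log n)`; `E x = (5 / 2) P x / log x`. For any random set `A` (no independence is assumed) `relEnt rate μ A (ind U x)`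
is the relative entropy (nats) of the law of `A ∩ U ∩ [0, x)` with respect to the model, and `cnt U (A ω) x` is the number of elements.
-/

set_option autoImplicit false

namespace Pool.Agent.Results.MP_540de1_nt.InfinitudeAtGivenInformation

open MeasureTheory Filter Pool.Agent.Q120.ET Pool.Agent.Q120.ME Pool.Agent.Q198.PP
open scoped Topology

/-- (0) All palindromic primes except `2`, `5`, `11` are in `U`, `P x` has order `√x`, the expected number in the model is `~ E x`.
(1) For every `d : ℕ → ℝ` and `0 ≤ t < 1`: all random sets with relative entropy `≤ d x` for large `x` have `A ∩ U` finite with probability at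
most `t` iff `liminf d / E ≤ t`. (2) For nondecreasing `d ≥ 0` all these sets almost surely have `~ E x` elements of `U` below `x` iff
`∑_{n ∈ U} d n log n / n < ∞`. (3) A probability measure `ν` is the law of the limit of the quotient for some random set of class `δ`
(relative entropy `≤ (δ + o(1)) E x`) iff it lives on `[0, ∞)` and `∫ (u log u - u + 1) dν ≤ δ`. -/
theorem result :
    ((∀ n : ℕ, n.Prime → IsPal n → n ∉ U → n = 2 ∨ n = 5 ∨ n = 11) ∧
      (∀ x : ℕ, 200 ≤ x → Real.sqrt x / 15 ≤ P x ∧ (P x : ℝ) ≤ 5 * Real.sqrt x) ∧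
      Tendsto (fun x : ℕ => mass U rate x / E x) atTop (𝓝 1)) ∧
    (∀ (d : ℕ → ℝ) (t : ℝ), 0 ≤ t → t < 1 →
      ((∀ (Ω : Type) [MeasurableSpace Ω] (μ : Measure Ω) [IsProbabilityMeasure μ] (A : Ω → Set ℕ), IsRandomSet A →
        (∀ᶠ x : ℕ in atTop, relEnt rate μ A (ind U x) ≤ d x) → μ.real {ω | (A ω ∩ U).Finite} ≤ t) ↔
      ∀ ε : ℝ, 0 < ε → ∃ᶠ x : ℕ in atTop, d x ≤ (t + ε) * E x)) ∧
    (∀ d : ℕ → ℝ, Monotone d → (∀ n, 0 ≤ d n) →
      ((∀ (Ω : Type) [MeasurableSpace Ω] (μ : Measure Ω) [IsProbabilityMeasure μ] (A : Ω → Set ℕ), IsRandomSet A →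
        (∀ᶠ x : ℕ in atTop, relEnt rate μ A (ind U x) ≤ d x) →
          ∀ᵐ ω ∂μ, Tendsto (fun x : ℕ => (cnt U (A ω) x : ℝ) / E x) atTop (𝓝 1)) ↔
      Summable (fun n : ℕ => open Classical in if n ∈ U then d n * Real.log n / n else 0))) ∧
    ∀ δ : ℝ, 0 ≤ δ → ∀ ν : Measure ℝ, IsProbabilityMeasure ν →
      ((∃ (Ω : Type) (_ : MeasurableSpace Ω) (μ : Measure Ω) (_ : IsProbabilityMeasure μ) (A : Ω → Set ℕ) (L : Ω → ℝ),
        (IsRandomSet A ∧ ∀ ε : ℝ, 0 < ε → ∀ᶠ x : ℕ in atTop, relEnt rate μ A (ind U x) ≤ (δ + ε) * E x) ∧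
        Measurable L ∧ μ.map L = ν ∧ ∀ᵐ ω ∂μ, Tendsto (fun x : ℕ => (cnt U (A ω) x : ℝ) / E x) atTop (𝓝 (L ω))) ↔
      ν (Set.Iio 0) = 0 ∧ ∫⁻ u, ENNReal.ofReal (u * Real.log u - u + 1) ∂ν ≤ ENNReal.ofReal δ) := by
  obtain ⟨h1, h2, h3⟩ := general_equiv rates mass_lim E_pos
  refine ⟨⟨fun n => prime_mem, fun x hx => ⟨sqrt_le_P hx, P_le' (by omega)⟩, mass_lim⟩, h1, fun d hm hd => ?_, h3⟩
  rw [← conv_iff hd]
  exact h2 d hm hd

end Pool.Agent.Results.MP_540de1_nt.InfinitudeAtGivenInformation
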