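import Mathlib
import Pool.Agent.Q105.Irr.Star

/-!
# `MP_5484c7_co`, Q1: infinitely many `K_{1,n}`-irregular graphs for every `n ≥ 2`

The graph on the vertices `ℓ_0,…,ℓ_{M-1}, h_0,…,h_{M-1}` in which the `h`'s form a clique,
`ℓ_i ~ h_r` iff `r ≤ i`, and `ℓ_0 ~ ℓ_{M-1}`, is `K_{1,n}`-irregular for all `M ≥ max(4, n+1)`.
-/

namespace Pool.Agent.Results.MP_5484c7_co.StarIrregular

open Pool.Agent.Q105.Irr

/-- **Main result (Q1).** For every `n ≥ 2` there are `K_{1,n}`-irregular finite graphs with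
arbitrarily many vertices. -/
theorem result : ∀ n : ℕ, 2 ≤ n → ∀ N : ℕ, ∃ (V : Type) (_ : Fintype V) (G : SimpleGraph V),
    N ≤ Fintype.card V ∧ IsIrregular (completeBipartiteGraph (Fin 1) (Fin n)) G := by
  intro n hn N
  refine ⟨Fin (N + n + 4) ⊕ Fin (N + n + 4), inferInstance, Star.gr (by omega), ?_,
    Star.irregular (by omega) hn (by omega)⟩
  simp only [Fintype.card_sum, Fintype.card_fin]
  omega

end Pool.Agent.Results.MP_5484c7_co.StarIrregular
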