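import Pool.Agent.Q267.CDE.Main16
import Pool.Agent.Q267.S16.Four
import Pool.Agent.Q278.HF

/-!
# MP_54d89f_nt

Supercongruences for the sums of `C(2k,k)^3/16^k`: all five items of Q1.
-/

namespace Pool.Agent.Results.MP_54d89f_nt.Full

open Finset

/-- `r ≡ s (mod p^m)`: `p^m` divides the numerator of `r - s` written in lowest terms. -/
def Cong (p m : ℕ) (r s : ℚ) : Prop := (p : ℤ) ^ m ∣ (r - s).num

/-- `S_0(p) = ∑_{k=0}^{p-1} C(2k,k)^3/16^k`. -/
def S0 (p : ℕ) : ℚ := ∑ k ∈ range p, ((2 * k).choose k : ℚ) ^ 3 / 16 ^ k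

/-- `S_1(p) = ∑_{k=0}^{p-1} k C(2k,k)^3/16^k`. -/
def S1 (p : ℕ) : ℚ := ∑ k ∈ range p, (k : ℚ) * ((2 * k).choose k : ℚ) ^ 3 / 16 ^ k

/-- The Euler numbers: `E_0 = 1` and `E_n = - ∑_{0 < k ≤ n, 2 ∣ k} C(n,k) E_{n-k}`. -/
def euler (n : ℕ) : ℤ :=
  if n = 0 then 1
  else -∑ k ∈ ((range (n + 1)).filter (fun k => 2 ∣ k ∧ k ≠ 0)).attach,
    (n.choose k : ℤ) * euler (n - k)
termination_by n
decreasing_by
  have h := k.2
  rw [mem_filter, mem_range] at h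
  omega

theorem euler_isEuler : Pool.Agent.Q267.S16.IsEuler euler where
  zero := by
    rw [euler, if_pos rfl]
  recur n hn := by
    have h1 : (range (n + 1)).filter (fun k => 2 ∣ k) =
        insert 0 ((range (n + 1)).filter (fun k => 2 ∣ k ∧ k ≠ 0)) := by
      ext k
      simp only [mem_filter, mem_range, mem_insert]
      constructor
      · rintro ⟨a, b⟩
        by_cases h0 : k = 0
        · exact Or.inl h0
        · exact Or.inr ⟨a, b, h0⟩
      · rintro (rfl | ⟨a, b, -⟩)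
        · exact ⟨by omega, dvd_zero 2⟩
        · exact ⟨a, b⟩
    rw [h1, sum_insert (by simp), Nat.sub_zero, Nat.choose_zero_right, Nat.cast_one, one_mul]
    conv_lhs =>
      enter [1]
      rw [euler, if_neg (by omega)]
    rw [sum_attach ((range (n + 1)).filter (fun k => 2 ∣ k ∧ k ≠ 0))
      (fun k => (n.choose k : ℤ) * euler (n - k))]
    ring

open Pool.Agent.Q267 Q278.PI

theorem cong_of {p : ℕ} (hp : p.Prime) {m : ℕ} {r s : ℚ}
    (h : r - s ∈ (haveI := Fact.mk hp; I p m)) : Cong p m r s := by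
  have := Fact.mk hp
  obtain ⟨w, hw, e⟩ := h
  exact CDE.num_dvd p m _ w hw e

section

variable {p : ℕ} [hp : Fact p.Prime] {h : ℕ} (hph : p = 2 * h + 1) (h3 : 3 < p)

include hph h3

theorem inv16 (k : ℕ) : (1 / (16 : ℚ) ^ k) ∈ O p := by
  have h1 := inv_mem p (m := 16 ^ k) (by
    intro hd
    have h2 := hp.out.dvd_of_dvd_pow hd
    have h4 : p ∣ 2 ^ 4 := by norm_num; exact h2
    have := (Nat.prime_dvd_prime_iff_eq hp.out Nat.prime_two).1 (hp.out.dvd_of_dvd_pow h4)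
    omega)
  push_cast at h1
  exact h1

theorem tail (f : ℕ → ℤ) : ∑ k ∈ range p, (f k : ℚ) * ((2 * k).choose k : ℚ) ^ 3 / 16 ^ k -
    ∑ k ∈ range (h + 1), (f k : ℚ) * ((2 * k).choose k : ℚ) ^ 3 / 16 ^ k ∈ I p 3 := by
  have h1 : h + 1 ≤ p := by omega
  rw [← sum_range_add_sum_Ico _ h1, add_sub_cancel_left]
  refine AddSubgroup.sum_mem _ fun k hk => ?_
  rw [mem_Ico] at hk
  have h2 : p ∣ (2 * k).choose k := by
    have h4 : p ∣ (2 * k).factorial := (hp.out.dvd_factorial).2 (by omega)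
    have h5 : ¬ p ∣ k.factorial := fun h => by
      have := (hp.out.dvd_factorial).1 h; omega
    have h6 := Nat.choose_mul_factorial_mul_factorial (show k ≤ 2 * k by omega)
    rw [show 2 * k - k = k by omega] at h6
    rw [← h6] at h4
    rcases (hp.out.dvd_mul).1 h4 with h | h
    · rcases (hp.out.dvd_mul).1 h with h | h
      · exact h
      · exact absurd h h5
    · exact absurd h h5
  obtain ⟨c, hc⟩ := h2
  refine ⟨(f k : ℚ) * (c : ℚ) ^ 3 * (1 / 16 ^ k), ?_, ?_⟩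
  · exact (O p).mul_mem ((O p).mul_mem (int_O _) ((O p).pow_mem (nat_O _) _)) (inv16 hph h3 k)
  · rw [hc]
    push_cast
    ring

theorem linear : 3 * S1 p + S0 p - p ∈ I p 3 := by
  have h1 := tail hph h3 (fun k => 3 * (k : ℤ) + 1)
  obtain ⟨w, hw, e⟩ := S16.half_sum p h hph h3 euler euler_isEuler
  have h2 : 3 * S1 p + S0 p = ∑ k ∈ range p, ((3 * (k : ℤ) + 1 : ℤ) : ℚ) *
      ((2 * k).choose k : ℚ) ^ 3 / 16 ^ k := by
    unfold S1 S0
    rw [mul_sum, ← sum_add_distrib]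
    refine sum_congr rfl fun k _ => ?_
    push_cast
    ring
  have h4 : ∑ k ∈ range (h + 1), ((3 * (k : ℤ) + 1 : ℤ) : ℚ) *
      ((2 * k).choose k : ℚ) ^ 3 / 16 ^ k = ∑ k ∈ range (h + 1), (3 * (k : ℚ) + 1) *
        (k.centralBinom : ℚ) ^ 3 / 16 ^ k := by
    refine sum_congr rfl fun k _ => ?_
    rw [Nat.centralBinom]
    push_cast
    ring
  rw [h4] at h1
  have h5 : (p : ℚ) ^ 3 * (2 * (-1) ^ h * (euler (p - 3) : ℚ) + (p : ℚ) * w) ∈ I p 3 := by
    refine ⟨_, ?_, rfl⟩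
    refine (O p).add_mem ?_ ((O p).mul_mem (nat_O _) hw)
    refine (O p).mul_mem ?_ (int_O _)
    have : (2 * (-1 : ℚ) ^ h) = ((2 * (-1) ^ h : ℤ) : ℚ) := by push_cast; ring
    rw [this]
    exact int_O _
  have h6 := (I p 3).add_mem h1 h5
  rw [← h2] at h6
  have e2 : 3 * S1 p + S0 p - (p : ℚ) = 3 * S1 p + S0 p - ∑ k ∈ range (h + 1), (3 * (k : ℚ) + 1) *
        (k.centralBinom : ℚ) ^ 3 / 16 ^ k + (p : ℚ) ^ 3 * (2 * (-1) ^ h * (euler (p - 3) : ℚ)
        + (p : ℚ) * w) := by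
    linear_combination e
  rw [e2]
  exact h6

theorem S0_of (c : ℤ) (hc : (p : ℤ) ^ 2 ∣ CDE.N16 h - 16 ^ h * c) : S0 p - c ∈ I p 2 := by
  have h1 := mono (show 2 ≤ 3 by norm_num) (tail hph h3 (fun _ => 1))
  obtain ⟨d, hd⟩ := hc
  have h2 : ∑ k ∈ range (h + 1), (((1 : ℤ) : ℚ)) * ((2 * k).choose k : ℚ) ^ 3 / 16 ^ k - c =
      (p : ℚ) ^ 2 * (d * (1 / 16 ^ h)) := by
    have e1 : ∑ k ∈ range (h + 1), (((1 : ℤ) : ℚ)) * ((2 * k).choose k : ℚ) ^ 3 / 16 ^ k =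
        (CDE.N16 h : ℚ) * (1 / 16 ^ h) := by
      unfold CDE.N16
      push_cast
      rw [sum_mul]
      refine sum_congr rfl fun k hk => ?_
      have hk' : k ≤ h := by simpa [Nat.lt_succ_iff] using hk
      obtain ⟨j, hj⟩ : ∃ j, h = k + j := ⟨h - k, by omega⟩
      rw [hj, show k + j - k = j by omega, pow_add, Nat.centralBinom]
      field_simp
    have hd' := congrArg (Int.cast : ℤ → ℚ) hd
    push_cast at hd'
    rw [e1]
    have h16 : (16 : ℚ) ^ h * (1 / 16 ^ h) = 1 := by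
      field_simp
    linear_combination (1 / 16 ^ h) * hd' + (c : ℚ) * h16
  have h4 : (p : ℚ) ^ 2 * (d * (1 / 16 ^ h)) ∈ I p 2 :=
    ⟨_, (O p).mul_mem (int_O _) (inv16 hph h3 h), rfl⟩
  have h5 := (I p 2).add_mem h1 h4
  have e2 : S0 p - c = ∑ k ∈ range p, (((1 : ℤ) : ℚ)) * ((2 * k).choose k : ℚ) ^ 3 / 16 ^ k -
    ∑ k ∈ range (h + 1), (((1 : ℤ) : ℚ)) * ((2 * k).choose k : ℚ) ^ 3 / 16 ^ k +
      (p : ℚ) ^ 2 * (d * (1 / 16 ^ h)) := by
    rw [← h2]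
    unfold S0
    push_cast
    simp only [one_mul]
    ring
  rw [e2]
  exact h5

theorem S1_of (c : ℤ) (hc : S0 p - c ∈ I p 2) : S1 p - ((p : ℚ) - c) / 3 ∈ I p 2 := by
  have h1 := mono (show 2 ≤ 3 by norm_num) (linear hph h3)
  have h2 := (I p 2).sub_mem h1 hc
  have h4 : ¬ (p : ℤ) ∣ 3 := by
    intro hd
    have : p ∣ 3 := by exact_mod_cast hd
    have := Nat.le_of_dvd (by norm_num) this
    omega
  apply of_unit_mul h4
  have e : ((3 : ℤ) : ℚ) * (S1 p - ((p : ℚ) - c) / 3) = 3 * S1 p + S0 p - p - (S0 p - c) := by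
    push_cast
    ring
  rw [e]
  exact h2

end

theorem hu (k : ℕ) : Q278.HA.u k = ((2 * k).choose k : ℚ) / 4 ^ k := by
  induction k with
  | zero => simp [Q278.HA.u]
  | succ k ih =>
    have h1 := S16.u_succ k
    unfold S16.u at h1
    rw [Nat.centralBinom, Nat.centralBinom] at h1
    have h2 : Q278.HA.u (k + 1) = Q278.HA.u k * ((2 * (k : ℚ) + 1) / (2 * k + 2)) := by
      unfold Q278.HA.u
      rw [prod_range_succ]
    rw [h2, ih]
    have hk : ((k : ℚ) + 1) ≠ 0 := by positivity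
    have hk2 : (2 * (k : ℚ) + 2) ≠ 0 := by positivity
    have h4 : ((2 * (k + 1)).choose (k + 1) : ℚ) / 4 ^ (k + 1) = (2 * (k : ℚ) + 1) *
        (((2 * k).choose k : ℚ) / 4 ^ k) / (2 * ((k : ℚ) + 1)) := by
      rw [← h1]
      field_simp
    rw [h4]
    field_simp

/-- **MP_54d89f_nt, Q1 (all items).** -/
theorem result :
    -- the Euler numbers
    (euler 0 = 1 ∧ ∀ n : ℕ, 1 ≤ n → ∑ k ∈ (range (n + 1)).filter (fun k => 2 ∣ k),
      (n.choose k : ℤ) * euler (n - k) = 0) ∧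
    (∀ p : ℕ, p.Prime → 3 < p →
      -- item 1
      (∀ x y : ℤ, p % 6 = 1 → (p : ℤ) = x ^ 2 + 3 * y ^ 2 →
        Cong p 2 (S0 p) (4 * (x : ℚ) ^ 2 - 2 * p) ∧
        Cong p 2 (S1 p) ((p : ℚ) - 4 * (x : ℚ) ^ 2 / 3)) ∧
      -- item 2
      (p % 6 = 5 → Cong p 2 (S1 p) ((p : ℚ) / 3)) ∧
      -- item 3
      (∀ a : ℕ, 1 ≤ a → Cong p 4
        (1 / (p : ℚ) ^ a * ∑ k ∈ range (p ^ a), (3 * (k : ℚ) + 1) / 16 ^ k *
          ((2 * k).choose k : ℚ) ^ 3)
        (1 + 7 / 6 * (p : ℚ) ^ 3 * bernoulli (p - 3))) ∧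
      -- item 4
      Cong p 4 (∑ k ∈ range ((p - 1) / 2 + 1), (3 * (k : ℚ) + 1) *
          (((2 * k).choose k : ℚ) ^ 3 / 16 ^ k))
        ((p : ℚ) + 2 * (jacobiSym (-1) p : ℚ) * (p : ℚ) ^ 3 * (euler (p - 3) : ℚ))) ∧
    -- item 5
    (∀ n : ℕ, 2 ≤ n → ∃ z : ℤ, 1 / (2 * (n : ℚ) * ((2 * n).choose n : ℚ)) *
      ∑ k ∈ range n, (3 * (k : ℚ) + 1) * ((2 * k).choose k : ℚ) ^ 3 * 16 ^ (n - 1 - k) = z) := by
  refine ⟨⟨euler_isEuler.zero, euler_isEuler.recur⟩, ?_, ?_⟩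
  · intro p hp h3
    have := Fact.mk hp
    obtain ⟨h, hph⟩ : ∃ h, p = 2 * h + 1 := hp.odd_of_ne_two (by omega)
    refine ⟨?_, ?_, ?_, ?_⟩
    · intro x y h6 hxy
      obtain ⟨r, hr⟩ : ∃ r, p = 6 * r + 1 := ⟨p / 6, by omega⟩
      have hh : h = 3 * r := by omega
      have h1 := CDE.N16_split p r hr x y hxy
      rw [← hh] at h1
      have h2 := S0_of hph h3 (4 * x ^ 2 - 2 * p) h1
      have h4 := S1_of hph h3 _ h2
      push_cast at h2 h4
      refine ⟨cong_of hp h2, cong_of hp ?_⟩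
      have e : ((p : ℚ) - (4 * (x : ℚ) ^ 2 - 2 * p)) / 3 = (p : ℚ) - 4 * (x : ℚ) ^ 2 / 3 := by ring
      rwa [e] at h4
    · intro h6
      have h1 := CDE.N16_inert p h hph (by omega)
      have h2 := S0_of hph h3 0 (by rw [mul_zero, sub_zero]; exact h1)
      have h4 := S1_of hph h3 _ h2
      apply cong_of hp
      have e : ((p : ℚ) - ((0 : ℤ) : ℚ)) / 3 = (p : ℚ) / 3 := by push_cast; ring
      rwa [e] at h4
    · intro a ha
      obtain ⟨w, hw, e⟩ := Q278.HF.sunB hp h3 ha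
      apply cong_of hp
      refine ⟨w, hw, ?_⟩
      have hp0 : (p : ℚ) ^ a ≠ 0 := pow_ne_zero _ (by exact_mod_cast hp.ne_zero)
      have e2 : ∑ k ∈ range (p ^ a), (3 * (k : ℚ) + 1) / 16 ^ k * ((2 * k).choose k : ℚ) ^ 3 =
          ∑ k ∈ range (p ^ a), (3 * (k : ℚ) + 1) * Q278.HA.u k ^ 3 * 4 ^ k := by
        refine sum_congr rfl fun k _ => ?_
        rw [hu]
        have h16 : (16 : ℚ) ^ k = 4 ^ k * 4 ^ k := by rw [← mul_pow]; norm_num
        rw [h16]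
        field_simp
      rw [e2]
      have e3 : ∑ k ∈ range (p ^ a), (3 * (k : ℚ) + 1) * Q278.HA.u k ^ 3 * 4 ^ k =
          (p : ℚ) ^ a + 7 / 6 * bernoulli (p - 3) * (p : ℚ) ^ (a + 3) + (p : ℚ) ^ (a + 4) * w := by
        linear_combination e
      rw [e3, pow_add, pow_add]
      field_simp
      ring
    · obtain ⟨w, hw, e⟩ := S16.half_sum p h hph h3 euler euler_isEuler
      apply cong_of hp
      refine ⟨w, hw, ?_⟩
      have hj : (jacobiSym (-1) p : ℚ) = (-1) ^ h := by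
        rw [jacobiSym.at_neg_one ⟨h, hph⟩, ZMod.χ₄_eq_neg_one_pow (by omega),
          show p / 2 = h by omega]
        push_cast
        rfl
      rw [hj, show (p - 1) / 2 = h by omega, ← e]
      congr 1
      · refine sum_congr rfl fun k _ => ?_
        rw [Nat.centralBinom, mul_div_assoc]
  · intro n hn
    exact S16.integrality n hn

end Pool.Agent.Results.MP_54d89f_nt.Full
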