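import Pool.Agent.Q181.LR.At

set_option autoImplicit false

/-!
# The exponential window above the norm `3 / √2`

For an integer matrix with `m` rows and `n` columns over any group whose norm is at most `3 / √2`
plus `2 ^ -(2 min(m, n) + 30)`, the kernel dimension is in the group generated by the numbers
`1 / |F|`, `F` a finite subgroup. This is optimal up to the constants in the exponent, and the Atiyah
conjecture for groups with bounded torsion is a statement about matrices whose norm is exponentially
close to `3 / √2` in terms of their size.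
-/

noncomputable section

namespace Pool.Agent.Results.MP_54e5d7_al.ExponentialWindow

open TH57.Thr

/-- The kernel of right multiplication by the matrix `A` on `ℓ²(G)^m`. -/
def kernel {G : Type} [Group G] {m n : ℕ} (A : Matrix (Fin m) (Fin n) (G →₀ ℂ)) :
    Set (lp (fun _ : Fin m × G => ℂ) 2) :=
  {x | ∀ (j : Fin n) (g : G),
    ∑ i : Fin m, (A i j).sum (fun h c => x (i, g * h⁻¹) * c) = 0}

open Classical in
/-- The von Neumann dimension of this kernel: the sum over `i` of one minus the squared distance
from the basis vector at `(i, 1)` to the kernel, that is, the trace of the projection onto the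
kernel. -/
def kerDim {G : Type} [Group G] {m n : ℕ} (A : Matrix (Fin m) (Fin n) (G →₀ ℂ)) : ℝ :=
  ∑ i : Fin m, (1 - (Metric.infDist
    (lp.single 2 (i, (1 : G)) (1 : ℂ) : lp (fun _ : Fin m × G => ℂ) 2) (kernel A)) ^ 2)

/-- An integer matrix as a complex matrix. -/
def complex {G : Type} [Group G] {m n : ℕ} (N : Matrix (Fin m) (Fin n) (MonoidAlgebra ℤ G)) :
    Matrix (Fin m) (Fin n) (G →₀ ℂ) :=
  fun i j => (N i j).coeff.mapRange (fun z : ℤ => (z : ℂ)) Int.cast_zero

/-- The orders of the finite subgroups of `G` are bounded, and `d` is their least common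
multiple. -/
def IsLcm (G : Type) [Group G] (d : ℕ) : Prop :=
  (∃ N : ℕ, ∀ H : Subgroup G, Finite H → Nat.card H ≤ N) ∧
    (∀ H : Subgroup G, Finite H → Nat.card H ∣ d) ∧
    ∀ e : ℕ, (∀ H : Subgroup G, Finite H → Nat.card H ∣ e) → d ∣ e

/-- `NormLE N c` (from `Pool.Agent.TH57.Thr.Defs`): right multiplication by `N` on `ℓ²` has norm at
most `|c|`.

1. Let `G` be any group and let `N` be an integer matrix with `m` rows, `n` columns and norm at most
   `3 / √2 + 2 ^ -(2 min(m, n) + 30)`. Then the kernel dimension of every complex matrix `A` which is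
   supported in the support of `N`, for example `A = N`, is in the additive group generated by the
   numbers `1 / |F|`, `F` a finite subgroup of `G`; if all `|F|` divide `d`, then `d · dim ker A` is
   an integer.
2. For every real number `r ≥ 0` there are a finitely generated solvable group in which all elements
   of finite order have order at most two and a constant `k` such that for every `L ≥ 1` some integer
   matrix with at most `k L` rows and columns and norm at most `3 / √2 + 2 ^ -L` over this group has
   kernel dimension `r`.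
3. Let `C` be a class of groups which is closed under direct products and under free products with
   free groups of finite rank, for example the class of all groups. The Atiyah conjecture over `ℂ`
   holds for all groups of `C` with bounded torsion if and only if there are `0 ≤ a < b` such that for
   all such groups `G`, with least common multiple `d`, and all `k` there is one `L ≥ 1` such that
   `a < d · dim ker N < b` holds for no integer matrix `N` with at most `k L` rows and columns and
   norm at most `3 / √2 + 2 ^ -L` over `G`. -/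
theorem result :
    (∀ (G : Type) [Group G] (m n : ℕ) (N : Matrix (Fin m) (Fin n) (MonoidAlgebra ℤ G)),
      NormLE N (3 / Real.sqrt 2 + (1 / 2) ^ (2 * min m n + 30)) →
      ∀ A : Matrix (Fin m) (Fin n) (G →₀ ℂ),
        (∀ i j g, A i j g ≠ 0 → (N i j).coeff g ≠ 0) →
        kerDim A ∈ AddSubgroup.closure
          {x : ℝ | ∃ F : Subgroup G, Finite F ∧ x = (Nat.card F : ℝ)⁻¹} ∧
        ∀ d : ℕ, (∀ F : Subgroup G, Finite F → Nat.card F ∣ d) →
          ∃ z : ℤ, (d : ℝ) * kerDim A = z) ∧
    (∀ r : ℝ, 0 ≤ r →
      ∃ (G : Type) (_ : Group G), Group.FG G ∧ Group.IsSolvable G ∧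
        (∀ g : G, IsOfFinOrder g → g ^ 2 = 1) ∧
        ∃ k : ℕ, ∀ L : ℕ, 1 ≤ L →
          ∃ (m n : ℕ) (N : Matrix (Fin m) (Fin n) (MonoidAlgebra ℤ G)), m ≤ k * L ∧ n ≤ k * L ∧
            NormLE N (3 / Real.sqrt 2 + (1 / 2) ^ L) ∧ kerDim (complex N) = r) ∧
    (∀ C : (G : Type) → [Group G] → Prop,
      (∀ (G H : Type) [Group G] [Group H], C G → C H → C (G × H)) →
      (∀ (G : Type) [Group G] (m : ℕ), C G → C (Monoid.Coprod G (FreeGroup (Fin m)))) →
      ((∀ (G : Type) [Group G], C G → ∀ d : ℕ, IsLcm G d →
        ∀ (m n : ℕ) (A : Matrix (Fin m) (Fin n) (G →₀ ℂ)), ∃ z : ℤ, (d : ℝ) * kerDim A = z) ↔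
      ∃ a b : ℝ, 0 ≤ a ∧ a < b ∧ ∀ (G : Type) [Group G], C G → ∀ d : ℕ, IsLcm G d →
        ∀ k : ℕ, ∃ L : ℕ, 1 ≤ L ∧
        ∀ (m n : ℕ) (N : Matrix (Fin m) (Fin n) (MonoidAlgebra ℤ G)), m ≤ k * L → n ≤ k * L →
          NormLE N (3 / Real.sqrt 2 + (1 / 2) ^ L) →
          ¬ (a < (d : ℝ) * kerDim (complex N) ∧ (d : ℝ) * kerDim (complex N) < b))) := by
  refine ⟨?_, ?_, ?_⟩
  · intro G _ m n N hN A hA
    have h : kerDim A ∈ Pool.Agent.Y477.AV.Lam G := Pool.Agent.Q181.LR.below_law N hN A hA
    exact ⟨h, fun d hd => Pool.Agent.Y477.AV.Lam_int G d hd _ h⟩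
  · intro r hr
    exact Pool.Agent.Q181.LR.above_size r hr
  · intro C hprod hfree
    exact Pool.Agent.Q181.LR.window_iff C hprod hfree

end Pool.Agent.Results.MP_54e5d7_al.ExponentialWindow
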