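import Pool.Agent.Q292.LR.Main

/-!
# Site percolation on `Z^d` with weak and sparse long bonds: continuity at the critical point

`Z^(n+1) = Z × Z^n`, `n ≥ 1`. Sites are open with probability `a`, all nearest-neighbour bonds are
present; in addition, on the lines parallel to the first axis whose other coordinates are
multiples of `m`, a bond of length `k ≥ 2` is present with probability `1 - exp (-β k ^ (-s))`,
`1 < s < 2`, independently (`prob a 1 β s m`). For `β = 0` this is site percolation on `Z^(n+1)`
(`thetaZ n a 1`, critical density `acZ n`). For small `β` or large `m` there are few long bonds, all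
of them in one direction.

`theta n a 1 β s m` is the probability that the origin is in an infinite open cluster, `acS n m s β`
the critical density; `thetaK`, `acSK` are the same when only the bonds of length at most `K` are
used (a finite-range model).

* For every `β > 0` there is no infinite cluster at the critical density, and the percolation
  probability is continuous there, jointly in the density and in `β`.
* The critical densities and the percolation probabilities tend to those of `Z^(n+1)` as `β → 0`.
* Site percolation on `Z^(n+1)` has no infinite cluster at its critical point if and only if the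
  percolation probability of these models is continuous at the end point `β = 0` of the critical
  curve, the only point of the curve where it could be discontinuous.
* The percolating phase is open and its clusters do not need bonds of unbounded length.
* For all `ε` there are finite-range models whose critical density is within `ε` of that of
  `Z^(n+1)` and whose percolation probability at the critical point is at most `ε`.
* The same for bond percolation (`pcB`, `pcZ`).

The proof of the openness and of the limit of the critical points is the work of the authors of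
the starting files `Pool.Agent.W783.Perc` and of the files they import.
-/

set_option autoImplicit false

namespace Pool.Agent.Results.MP_54f242_pr.WeakLongBonds

open MeasureTheory Set Filter Pool.Agent.W783.PC
open scoped Topology

theorem result (n m : ℕ) (s : ℝ) (hn : 1 ≤ n) (hm : 1 ≤ m) (hs : 1 < s) (hs2 : s < 2) :
    (∀ β : NNReal, 0 < β →
      0 < acS n m s β ∧ acS n m s β < 1 ∧ theta n (acS n m s β) 1 β s m = 0 ∧
      ContinuousAt (fun x : unitInterval × NNReal => theta n x.1 1 x.2 s m) (acS n m s β, β)) ∧
    Tendsto (fun β : NNReal => (acS n m s β : ℝ)) (𝓝 0) (𝓝 (acZ n : ℝ)) ∧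
    (∀ a : unitInterval,
      Tendsto (fun β : NNReal => theta n a 1 β s m) (𝓝 0) (𝓝 (thetaZ n a 1))) ∧
    (thetaZ n (acZ n) 1 = 0 ↔
      ContinuousAt (fun x : unitInterval × NNReal => theta n x.1 1 x.2 s m) (acZ n, 0)) ∧
    (∀ (a : unitInterval) (β : NNReal), 0 < β → a < 1 → 0 < theta n a 1 β s m →
      ∃ (K : ℕ) (δ : ℝ), 0 < δ ∧ ∀ (a' : unitInterval) (β' : NNReal),
        |(a' : ℝ) - a| ≤ δ → |(β' : ℝ) - β| ≤ δ → 0 < thetaK n a' 1 β' s m K) ∧
    (∀ ε : ℝ, 0 < ε → ∃ β0 : NNReal, 0 < β0 ∧ ∀ β : NNReal, 0 < β → β ≤ β0 →
      ∃ K0 : ℕ, ∀ K ≥ K0, |(acSK n m s β K : ℝ) - acZ n| ≤ ε ∧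
        thetaK n (acSK n m s β K) 1 β s m K ≤ ε) ∧
    ((∀ β : NNReal, 0 < β → 0 < pcB n m s β →
      pcB n m s β < 1 ∧ theta n 1 (pcB n m s β) β s m = 0) ∧
      0 < pcZ n ∧ Tendsto (fun β : NNReal => (pcB n m s β : ℝ)) (𝓝 0) (𝓝 (pcZ n : ℝ))) := by
  refine ⟨fun β hβ => ?_, (site_main hn hm hs hs2).2, fun a => ?_, ?_, ?_, ?_,
    bond_main hn hm hs hs2⟩
  · obtain ⟨h1, h2, h3⟩ := (site_main hn hm hs hs2).1 β hβ
    exact ⟨h1, h2, h3, Q292.LR.cont_of_zero hs (x := (acS n m s β, β)) h3⟩
  · have h := Q292.LR.th_tendsto (n := n) (m := m) hs a 0
    have h0 : 𝓝[≥] (0 : NNReal) = 𝓝 0 := by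
      have : (Set.Ici (0 : NNReal)) = Set.univ := by ext x; simp
      rw [this, nhdsWithin_univ]
    rw [h0] at h
    have h1 : Q292.LR.th n m s (a, 0) = thetaZ n a 1 := theta_zero_eq a 1 s m
    rw [h1] at h
    exact h
  · have h1 : Q292.LR.th n m s (acZ n, 0) = thetaZ n (acZ n) 1 := theta_zero_eq _ 1 s m
    have h2 := Q292.LR.cont_iff (n := n) (m := m) hs (β := 0)
    rw [acS_zero m s, h1] at h2
    exact h2.symm
  · intro a β hβ ha hθ
    exact Q292.LR.site_open hn hm hs hs2 hβ ha hθ
  · intro ε hε
    exact site_finite hn hm hs hs2 hε

end Pool.Agent.Results.MP_54f242_pr.WeakLongBonds
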