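import Pool.Agent.Q109.ED.Step

set_option autoImplicit false

/-!
# Graphs with small elimination distance to flips with small components

`T(G)` is the set of nonempty cliques of `G` ordered by inclusion. Let the vertices of a graph `H`
be partitioned into `r` parts, and let `P` be a set of unordered pairs of parts (a pair may consist
of one part twice). The flipped graph is obtained from `H` by complementing the adjacency of the
two vertices of each pair of different vertices which lie in the two parts of a member of `P`. Let
`𝒞(r, s)` be the class of the graphs `H` for which all components of some flipped graph have at most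
`s` vertices. The *elimination distance* of a graph `H` to this class is defined as for the
treedepth: it is at most `0` if all components of `H` belong to `𝒞(r, s)`, and at most `d + 1` if
every component of `H` belongs to `𝒞(r, s)` or has a vertex whose deletion leaves a graph of
elimination distance at most `d`.

The theorem: for all `r`, `d` and `z` there is a constant `C` such that `T(G)` and `T` of the
complement of `G` are reconstructible whenever, after the deletion of at most `z` vertices, `G` has
elimination distance at most `d` to `𝒞(r, s)`, and `G` has at least `C (s + 1)^3 log (s + 2)^2`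
vertices.

So for fixed `r`, `s`, `d`, `z` all but finitely many of these graphs are reconstructible. The case
`d = 0`, in which all components of `G - Z` are required to belong to `𝒞(r, s)`, is already more
than the case of a common flip of `G - Z` with small components: every component may have a flip of
its own. The case `r = 1`, `P = ∅` (or `s = 1`) contains the graphs of bounded treedepth.

The proof is by induction on `d`. Call a component of `G - Z` bad if it does not have elimination
distance at most `d` (`d = 0`: if it has more than `s` vertices). If there are many bad components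
some vertex of `Z` is joined to many of them, and together with `m` of them it forms a connected
graph of a kind which does not occur in `G - Z`: for `m = 2` a graph which is not within distance
`d + 1` of the class, and, at the end, for `m = 2 (r + 1)^2 + 1` a graph which contains `m` large
connected pieces which are not joined to each other, which is impossible in a member of `𝒞(r, s)`.
Then `G` is reconstructible. If there are few bad components, one vertex of each is added to `Z`,
or, at the end, the flips of the bad components are put together to one flip with a bounded number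
of parts.
-/

namespace Pool.Agent.Results.MP_552896_co.EliminationDistance

/-- The truncated clique lattices of `G` and `H` have the same deck of maximal filter deleted
subsets: some bijection `f` of the vertex sets is such that, for every vertex `v`, the nonempty
cliques of `G` avoiding `v` and the nonempty cliques of `H` avoiding `f v`, both ordered by
inclusion, are isomorphic ordered sets. -/
def SameDeck {V W : Type} (G : SimpleGraph V) (H : SimpleGraph W) : Prop :=
  ∃ f : V ≃ W, ∀ v : V,
    Nonempty ({s : Finset V // s.Nonempty ∧ G.IsClique (s : Set V) ∧ v ∉ s} ≃o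
      {t : Finset W // t.Nonempty ∧ H.IsClique (t : Set W) ∧ f v ∉ t})

/-- `T(G)` is reconstructible from its deck: every truncated clique lattice `T(H)` of a finite
graph `H` with the same deck is isomorphic to `T(G)`. -/
def Reconstructible {V : Type} (G : SimpleGraph V) : Prop :=
  ∀ (W : Type) [Fintype W] (H : SimpleGraph W), SameDeck G H →
    Nonempty ({s : Finset V // s.Nonempty ∧ G.IsClique (s : Set V)} ≃o
      {t : Finset W // t.Nonempty ∧ H.IsClique (t : Set W)})

/-- The flipped graph: `f v` is the index of the part which contains the vertex `v`, and the
adjacency of two different vertices `x`, `y` is complemented if the unordered pair of the indices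
of their parts belongs to `P`. -/
def flipped {V : Type} {r : ℕ} (G : SimpleGraph V) (f : V → Fin r) (P : Set (Sym2 (Fin r))) :
    SimpleGraph V where
  Adj x y := x ≠ y ∧ (G.Adj x y ↔ s(f x, f y) ∉ P)
  symm := ⟨fun x y h => ⟨h.1.symm, by rw [G.adj_comm, Sym2.eq_swap]; exact h.2⟩⟩
  loopless := ⟨fun _ h => h.1 rfl⟩

/-- The class `𝒞(r, s)`: some flip of `G` with `r` parts has only components with at most `s`
vertices. -/
def FlipBounded (r s : ℕ) {V : Type} (G : SimpleGraph V) : Prop :=
  ∃ (f : V → Fin r) (P : Set (Sym2 (Fin r))),
    ∀ c : (flipped G f P).ConnectedComponent, c.supp.ncard ≤ s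

/-- The finite graph `G` has elimination distance at most `d` to the class `𝒞(r, s)`: every
component of `G` belongs to the class, or `1 ≤ d` and the component has a vertex whose deletion
leaves a graph with elimination distance at most `d - 1`. -/
def Within (r s : ℕ) : ℕ → (V : Type) → SimpleGraph V → Prop
  | 0, _, G => ∀ c : G.ConnectedComponent, FlipBounded r s (G.induce c.supp)
  | d + 1, _, G => ∀ c : G.ConnectedComponent, FlipBounded r s (G.induce c.supp) ∨
      ∃ v ∈ c.supp, Within r s d _ (G.induce {w | w ∈ c.supp ∧ w ≠ v})

open Pool.Agent.Q109.ED

theorem fb_of {r s : ℕ} {V : Type} [Finite V] (G : SimpleGraph V) (h : FlipBounded r s G) :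
    fb G r s Set.univ := by
  obtain ⟨f, P, h⟩ := h
  refine ⟨fun v => (f v).castSucc, Sym2.map Fin.castSucc '' P, fun T _ _ hc => ?_⟩
  rcases T.eq_empty_or_nonempty with rfl | ⟨x, hx⟩
  · rw [Set.ncard_empty]
    exact Nat.zero_le _
  · have hinj : Function.Injective (Sym2.map (Fin.castSucc : Fin r → Fin (r + 1))) :=
      Sym2.map.injective (Fin.castSucc_injective r)
    have hadj : ∀ a b, (flp G (fun v => (f v).castSucc) (Sym2.map Fin.castSucc '' P)).Adj a b →
        (flipped G f P).Adj a b := by
      rintro a b ⟨h1, h2⟩
      refine ⟨h1, h2.trans (not_congr ?_)⟩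
      have h3 : s((f a).castSucc, (f b).castSucc) = Sym2.map Fin.castSucc s(f a, f b) := rfl
      rw [h3, hinj.mem_set_image]
    have hsub : T ⊆ ((flipped G f P).connectedComponentMk x).supp := by
      have h1 := hc (T ∩ ((flipped G f P).connectedComponentMk x).supp) Set.inter_subset_left
        ⟨x, hx, rfl⟩ (by
          rintro a ⟨ha, hac⟩ b hb hab
          refine ⟨hb, ?_⟩
          rw [SimpleGraph.ConnectedComponent.mem_supp_iff] at hac ⊢
          rw [← hac]
          exact SimpleGraph.ConnectedComponent.sound (hadj a b hab).symm.reachable)
      exact fun y hy => (h1 hy).2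
    exact (Set.ncard_le_ncard hsub (Set.toFinite _)).trans (h _)

theorem sub_comp {V : Type} (G : SimpleGraph V) (D : Set V) (hD : cn G D) (x : V) (hx : x ∈ D) :
    D ⊆ (G.connectedComponentMk x).supp := by
  have h1 := hD (D ∩ (G.connectedComponentMk x).supp) Set.inter_subset_left ⟨x, hx, rfl⟩ (by
    rintro a ⟨ha, hac⟩ b hb hab
    refine ⟨hb, ?_⟩
    rw [SimpleGraph.ConnectedComponent.mem_supp_iff] at hac ⊢
    rw [← hac]
    exact SimpleGraph.ConnectedComponent.sound hab.symm.reachable)
  exact fun y hy => (h1 hy).2

theorem ed_empty {V : Type} (G : SimpleGraph V) (r s d : ℕ) : ed G r s d (∅ : Set V) := by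
  apply ed_of_fb
  refine ⟨fun _ => 0, ∅, fun T hT _ _ => ?_⟩
  rw [Set.subset_empty_iff.mp hT, Set.ncard_empty]
  exact Nat.zero_le _

theorem fb_supp {r s : ℕ} {V : Type} [Finite V] (G : SimpleGraph V) (S : Set V)
    (h : FlipBounded r s (G.induce S)) : fb G r s S := by
  have h1 := (fb_image (K' := G) (Subtype.val : S → V) Subtype.val_injective
    (S := Set.univ) (fun x _ y _ => Iff.rfl)).mp (fb_of _ h)
  rwa [Set.image_univ, Subtype.range_val] at h1

/-- passage to an induced subgraph -/
theorem ed_induce {r s d : ℕ} {V : Type} (G : SimpleGraph V) (W : Set V)
    (h : ∀ D : Set W, cn (G.induce W) D → ed (G.induce W) r s d D) (D : Set V) (hDW : D ⊆ W)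
    (hD : cn G D) : ed G r s d D := by
  have him : (Subtype.val : W → V) '' ((Subtype.val : W → V) ⁻¹' D) = D := by
    rw [Set.image_preimage_eq_inter_range, Subtype.range_val, Set.inter_eq_left]
    exact hDW
  have h1 := h (Subtype.val ⁻¹' D) (cn_of_image (K' := G) Subtype.val Subtype.val_injective
    (fun x _ y _ h => h) (by rwa [him]))
  have h2 := (ed_image (K' := G) (Subtype.val : W → V) Subtype.val_injective d
    (S := Subtype.val ⁻¹' D) (fun x _ y _ => Iff.rfl)).mp h1
  rwa [him] at h2

theorem ed_of_within {r s : ℕ} (d : ℕ) : ∀ (V : Type) [Finite V] (G : SimpleGraph V),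
    Within r s d V G → ∀ D : Set V, cn G D → ed G r s d D := by
  induction d with
  | zero =>
    intro V _ G h D hD
    rcases D.eq_empty_or_nonempty with rfl | ⟨x, hx⟩
    · exact ed_empty G r s 0
    · exact fb_mono (sub_comp G D hD x hx) (fb_supp G _ (h _))
  | succ d ih =>
    intro V _ G h D hD
    rcases D.eq_empty_or_nonempty with rfl | ⟨x, hx⟩
    · exact ed_empty G r s _
    · have hsub := sub_comp G D hD x hx
      rcases h (G.connectedComponentMk x) with h1 | ⟨v, -, h1⟩
      · exact ed_of_fb _ (fb_mono hsub (fb_supp G _ h1))
      · refine Or.inr ⟨v, fun E hE hvE hcE => ?_⟩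
        refine ed_induce G _ (ih _ _ h1) E ?_ hcE
        intro w hw
        exact ⟨hsub (hE hw), fun hwv => hvE (hwv ▸ hw)⟩

/-- For all `r`, `d` and `z` there is a constant `C` such that, if `Z` is a set of at most `z`
vertices of a finite graph `G`, the graph `G - Z` has elimination distance at most `d` to the class
of the graphs which have a flip with `r` parts all of whose components have at most `s` vertices,
and `C (s + 1)^3 log (s + 2)^2 ≤ |V(G)|`, then `T(G)` and `T(Gᶜ)` are reconstructible. -/
theorem result (r d z : ℕ) : ∃ C : ℝ, ∀ (s : ℕ) (V : Type) [Fintype V] (G : SimpleGraph V)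
    (Z : Finset V), Z.card ≤ z → Within r s d _ (G.induce {v | v ∉ Z}) →
    C * (((s : ℝ) + 1) ^ 3 * Real.log ((s : ℝ) + 2) ^ 2) ≤ (Fintype.card V : ℝ) →
    Reconstructible G ∧ Reconstructible Gᶜ := by
  obtain ⟨C, hC⟩ := step r d z
  refine ⟨C, fun s V _ G Z hZ hW hV => ?_⟩
  refine hC s V G Z hZ ?_ hV
  intro D hD
  refine ed_induce G _ (ed_of_within d _ _ hW) _ ?_ (cn_of_connected G _ hD.1)
  intro x hx
  exact hD.2.1 x (Finset.mem_coe.mp hx)

end Pool.Agent.Results.MP_552896_co.EliminationDistance
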