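import Pool.Agent.Q215.SDs.Trans

set_option autoImplicit false

/-!
# Graphs of bounded shrub-depth, and of bounded flip-depth over small graphs

`T(G)` is the set of nonempty cliques of `G` ordered by inclusion. Let the vertices of a graph `H`
be partitioned into `r` parts, and let `P` be a set of unordered pairs of parts (a pair may consist
of one part twice). The flipped graph is obtained from `H` by complementing the adjacency of the
two vertices of each pair of different vertices which lie in the two parts of a member of `P`.

The *flip-depth* of a graph (with `r` parts, over the base size `s`) is defined as follows: it is at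
most `0` if the graph has at most `s` vertices, and at most `d + 1` if for some flip of the graph
with `r` parts all components of the flipped graph have flip-depth at most `d`. So first the whole
graph is flipped, then each component of the result is flipped with a partition of its own, and so
on `d` times, until all components have at most `s` vertices. For `s = 1` the classes of bounded
flip-depth are the classes of bounded shrub-depth (Ganian, Hliněný, Nešetřil, Obdržálek, Ossona de
Mendez, Ramadurai), which are the classes of bounded SC-depth. The deletion of a vertex can be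
replaced by a flip with three parts, so graphs of bounded treedepth, and graphs for which some
number of alternating vertex deletions and flips of the components leaves components with at
most `s` vertices, have bounded flip-depth over `s`.

The theorem:
* for all `r`, `d` and `R` there is a number `t` such that `T(G)` and `T` of the complement of `G`
  are reconstructible if, for some flip of `G` with `R` parts, all components of the flipped graph
  have flip-depth at most `d + 1` over `s`, and at least `t` of them do not have flip-depth at most
  `d` over `s` (`t` does not depend on `s`);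
* for all `r` and `d` there is a constant `C` such that `T(G)` and `T` of the complement of `G` are
  reconstructible if `G` has flip-depth at most `d` over `s` and at least
  `C (s + 1)^3 log (s + 2)^2` vertices;
* for all `m` and `d` there is a number `N` such that `T(G)` and `T` of the complement of `G` are
  reconstructible if `G` has a tree-model of depth `d` with `m` labels and at least `N` vertices.
  So for every class of bounded shrub-depth all but finitely many of its graphs are reconstructible.

The first statement is the main step. The second follows by induction on `d`: if fewer than `t`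
components are bad, flips of these components are put together to one flip of `G` with a bounded
number of parts, all components of which have flip-depth at most `d`.

Proof of the first statement. A flip with `R` parts of a graph, which has many bad components, has
bad components again (`Count`), and two flips of the same graph, both with components of flip-depth
at most `d + 1`, have the same bad components, up to a bounded number (`Rigid`). So in all
cards of `G` (or of a graph `H` hypomorphic to `G`) we see almost the same bad components
(`Star`). From this it follows, if there are many bad components, that a set `L` of vertices (the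
union of almost all of the bad components), the partition of the vertices in the coarsest way
(two vertices are equivalent if they have the same adjacency to almost all typical components) and
the matrix of the flip are recognised in all cards (`R1` to `R4`), so that the method for flips with
bounded components of the starting file `FlipComponents` can be applied to the components of this
flip inside `L`, while the vertices outside `L` are only counted by the permutations of the classes
which extend to them (`Flip2`).
-/

namespace Pool.Agent.Results.MP_552896_co.FlipDepth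

/-- The truncated clique lattices of `G` and `H` have the same deck of maximal filter deleted
subsets: some bijection `f` of the vertex sets is such that, for every vertex `v`, the nonempty
cliques of `G` avoiding `v` and the nonempty cliques of `H` avoiding `f v`, both ordered by
inclusion, are isomorphic ordered sets. -/
def SameDeck {V W : Type} (G : SimpleGraph V) (H : SimpleGraph W) : Prop :=
  ∃ f : V ≃ W, ∀ v : V,
    Nonempty ({s : Finset V // s.Nonempty ∧ G.IsClique (s : Set V) ∧ v ∉ s} ≃o
      {t : Finset W // t.Nonempty ∧ H.IsClique (t : Set W) ∧ f v ∉ t})

/-- `T(G)` is reconstructible from its deck: every truncated clique lattice `T(H)` of a finite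
graph `H` with the same deck is isomorphic to `T(G)`. -/
def Reconstructible {V : Type} (G : SimpleGraph V) : Prop :=
  ∀ (W : Type) [Fintype W] (H : SimpleGraph W), SameDeck G H →
    Nonempty ({s : Finset V // s.Nonempty ∧ G.IsClique (s : Set V)} ≃o
      {t : Finset W // t.Nonempty ∧ H.IsClique (t : Set W)})

/-- The flipped graph: `f v` is the index of the part which contains the vertex `v`, and the
adjacency of two different vertices `x`, `y` is complemented if the unordered pair of the indices
of their parts belongs to `P`. -/
def flipped {V : Type} {r : ℕ} (G : SimpleGraph V) (f : V → Fin r) (P : Set (Sym2 (Fin r))) :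
    SimpleGraph V where
  Adj x y := x ≠ y ∧ (G.Adj x y ↔ s(f x, f y) ∉ P)
  symm := ⟨fun x y h => ⟨h.1.symm, by rw [G.adj_comm, Sym2.eq_swap]; exact h.2⟩⟩
  loopless := ⟨fun _ h => h.1 rfl⟩

/-- The finite graph `G` has flip-depth at most `d` over the base size `s`, by flips with `r`
parts: it has at most `s` vertices, or `1 ≤ d` and for some flip of `G` with `r` parts all
components of the flipped graph have flip-depth at most `d - 1`. -/
def FlipDepthLE (r s : ℕ) : ℕ → (V : Type) → SimpleGraph V → Prop
  | 0, V, _ => Nat.card V ≤ s
  | d + 1, V, G => ∃ (f : V → Fin r) (P : Set (Sym2 (Fin r))),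
      ∀ c : (flipped G f P).ConnectedComponent,
        FlipDepthLE r s d c.supp ((flipped G f P).induce c.supp)

/-- A tree-model of `G` of depth `d` with `m` labels: the vertices of `G` are the leaves of a
rooted tree, all on level `d`, and have labels, and the adjacency of two different vertices is
determined by their labels and by the level of their least common ancestor. The tree is given by
the equivalence relations `E 0 = ⊤ ≥ E 1 ≥ … ≥ E d = ⊥`, where `E i` holds for two vertices if
they have the same ancestor on level `i`. -/
def HasTreeModel (m d : ℕ) {V : Type} (G : SimpleGraph V) : Prop :=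
  ∃ (label : V → Fin m) (E : ℕ → Setoid V) (S : ℕ → Fin m → Fin m → Prop),
    Antitone E ∧ E 0 = ⊤ ∧ E d = ⊥ ∧
      ∀ i < d, ∀ x y : V, (E i) x y → ¬ (E (i + 1)) x y →
        (G.Adj x y ↔ S i (label x) (label y))

open Pool.Agent.Q215.SDs
open Pool.Agent.Q215.SD (IsFlip isFlip_refl)
open Pool.Agent.TH87.RVE (comps comp mem_comps comp_mem_comps comps_sub)

theorem isFlip_flipped {V : Type} [Fintype V] {r : ℕ} (G : SimpleGraph V) (f : V → Fin r)
    (P : Set (Sym2 (Fin r))) : IsFlip r Finset.univ G (flipped G f P) := by
  refine ⟨f, fun i j => s(i, j) ∈ P, fun i j h => ?_, fun x _ y _ hxy => ?_⟩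
  · show s(j, i) ∈ P
    rw [Sym2.eq_swap]
    exact h
  · show (x ≠ y ∧ (G.Adj x y ↔ s(f x, f y) ∉ P)) ↔ _
    tauto

theorem exists_flipped {V : Type} [Fintype V] {r : ℕ} {G K : SimpleGraph V}
    (h : IsFlip r Finset.univ G K) :
    ∃ (f : V → Fin r) (P : Set (Sym2 (Fin r))), K = flipped G f P := by
  obtain ⟨f, M, hM, h⟩ := h
  refine ⟨f, {z | ∃ i j, z = s(i, j) ∧ M i j}, ?_⟩
  ext x y
  have h1 : s(f x, f y) ∈ {z | ∃ i j, z = s(i, j) ∧ M i j} ↔ M (f x) (f y) := by
    constructor
    · rintro ⟨i, j, h, hij⟩
      rw [Sym2.eq_iff] at h
      rcases h with ⟨h2, h3⟩ | ⟨h2, h3⟩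
      · rw [h2, h3]; exact hij
      · rw [h2, h3]; exact hM _ _ hij
    · intro h
      exact ⟨_, _, rfl, h⟩
  show K.Adj x y ↔ (x ≠ y ∧ (G.Adj x y ↔ s(f x, f y) ∉ _))
  rw [h1]
  by_cases hxy : x = y
  · subst hxy
    exact ⟨fun h => absurd rfl h.ne, fun h => absurd rfl h.1⟩
  · rw [h x (Finset.mem_univ _) y (Finset.mem_univ _) hxy]
    tauto

theorem all_comps {r s d : ℕ} (hr : 1 ≤ r) {V : Type} [Fintype V]
    (hd : ∀ (W : Type) [Fintype W] (G : SimpleGraph W), FlipDepthLE r s d W G ↔
      FD r s d G Finset.univ) (K : SimpleGraph V) (v : V) :
    FlipDepthLE r s d (K.connectedComponentMk v).supp (K.induce (K.connectedComponentMk v).supp) ↔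
      FD r s d K (comp K Finset.univ v) := by
  have : Fintype (K.connectedComponentMk v).supp := Fintype.ofFinite _
  rw [hd, FD_supp hr]

theorem flipDepth_iff (r s : ℕ) (hr : 1 ≤ r) (d : ℕ) : ∀ (V : Type) [Fintype V]
    (G : SimpleGraph V), FlipDepthLE r s d V G ↔ FD r s d G Finset.univ := by
  induction d with
  | zero =>
    intro V _ G
    show Nat.card V ≤ s ↔ Finset.univ.card ≤ s
    rw [Nat.card_eq_fintype_card, Finset.card_univ]
  | succ d ih =>
    intro V _ G
    constructor
    · rintro ⟨f, P, h⟩
      refine ⟨flipped G f P, isFlip_flipped G f P, fun C hC => ?_⟩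
      obtain ⟨v, -, rfl⟩ := (mem_comps _ _ _).mp hC
      exact (all_comps hr ih _ v).mp (h _)
    · rintro ⟨K, hK, h⟩
      obtain ⟨f, P, rfl⟩ := exists_flipped hK
      refine ⟨f, P, fun c => ?_⟩
      induction c using SimpleGraph.ConnectedComponent.ind with
      | h v =>
        exact (all_comps hr ih _ v).mpr (h _ (comp_mem_comps _ _ v (Finset.mem_univ _)))

theorem card_bad {r s d : ℕ} (hr : 1 ≤ r) {V : Type} [Fintype V] (K : SimpleGraph V) :
    {c : K.ConnectedComponent | ¬ FlipDepthLE r s d c.supp (K.induce c.supp)}.ncard ≤
      (Bad r s d K Finset.univ).card := by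
  classical
  have h1 : ∀ c : K.ConnectedComponent, ∃ v, K.connectedComponentMk v = c := fun c => c.exists_rep
  choose g hg using h1
  rw [← Set.ncard_coe_finset]
  apply Set.ncard_le_ncard_of_injOn (fun c => comp K Finset.univ (g c))
  · intro c hc
    rw [Finset.mem_coe, mem_Bad]
    refine ⟨comp_mem_comps _ _ _ (Finset.mem_univ _), fun h => hc ?_⟩
    rw [← hg c]
    exact (all_comps hr (flipDepth_iff r s hr d) K (g c)).mpr h
  · intro c _ c' _ h
    have h2 : (comp K Finset.univ (g c) : Set V) = (comp K Finset.univ (g c') : Set V) := by
      simp only at h
      rw [h]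
    rw [coe_comp_univ, coe_comp_univ, hg, hg] at h2
    exact SimpleGraph.ConnectedComponent.supp_injective h2

/-- (1) For all `r ≥ 1`, `R` and `d` there is a number `t` such that `T(G)` and `T(Gᶜ)` are
reconstructible if some flip of `G` with `R` parts has only components of flip-depth at most
`d + 1` and at least `t` components which do not have flip-depth at most `d` (over any base size
`s`, by flips with `r` parts).
(2) For all `r ≥ 1` and `d` there is a constant `C` such that `T(G)` and `T(Gᶜ)` are
reconstructible if `G` has flip-depth at most `d` over `s` and
`C (s + 1)^3 log (s + 2)^2 ≤ |V(G)|`.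
(3) For all `m` and `d` there is a number `N` such that `T(G)` and `T(Gᶜ)` are reconstructible if
`G` has a tree-model of depth `d` with `m` labels and at least `N` vertices. -/
theorem result :
    (∀ r : ℕ, 1 ≤ r → ∀ R d : ℕ, ∃ t : ℕ, ∀ (s : ℕ) (V : Type) [Fintype V] (G : SimpleGraph V)
      (f : V → Fin R) (P : Set (Sym2 (Fin R))),
      (∀ c : (flipped G f P).ConnectedComponent,
        FlipDepthLE r s (d + 1) c.supp ((flipped G f P).induce c.supp)) →
      t ≤ {c : (flipped G f P).ConnectedComponent |
        ¬ FlipDepthLE r s d c.supp ((flipped G f P).induce c.supp)}.ncard →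
      Reconstructible G ∧ Reconstructible Gᶜ) ∧
    (∀ r : ℕ, 1 ≤ r → ∀ d : ℕ, ∃ C : ℝ, ∀ (s : ℕ) (V : Type) [Fintype V] (G : SimpleGraph V),
      FlipDepthLE r s d V G →
      C * (((s : ℝ) + 1) ^ 3 * Real.log ((s : ℝ) + 2) ^ 2) ≤ (Fintype.card V : ℝ) →
      Reconstructible G ∧ Reconstructible Gᶜ) ∧
    (∀ m d : ℕ, ∃ N : ℕ, ∀ (V : Type) [Fintype V] (G : SimpleGraph V), HasTreeModel m d G →
      N ≤ Fintype.card V → Reconstructible G ∧ Reconstructible Gᶜ) := by
  refine ⟨?_, ?_, ?_⟩
  · intro r hr R d
    obtain ⟨t, ht⟩ := bad_bound r hr d R
    refine ⟨t, fun s V _ G f P h1 h2 => ?_⟩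
    apply ht s V G (flipped G f P) (isFlip_flipped G f P) ?_ (h2.trans (card_bad hr _))
    intro C hC
    obtain ⟨v, -, rfl⟩ := (mem_comps _ _ _).mp hC
    exact (all_comps hr (flipDepth_iff r s hr (d + 1)) _ v).mp (h1 _)
  · intro r hr d
    obtain ⟨C, hC⟩ := main r hr d 1
    refine ⟨C, fun s V _ G h hV => ?_⟩
    rw [flipDepth_iff r s hr] at h
    exact hC s V G G (isFlip_refl le_rfl _ _)
      (fun D hD => FD_mono r s d G _ D (comps_sub _ _ D hD) h) hV
  · intro m d
    rcases Nat.eq_zero_or_pos m with hm | hm
    · refine ⟨1, fun V _ G h hV => ?_⟩
      obtain ⟨label, -⟩ := h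
      obtain ⟨v⟩ := Fintype.card_pos_iff.mp hV
      have := label v
      rw [hm] at this
      exact this.elim0
    · obtain ⟨C, hC⟩ := main m hm d 1
      obtain ⟨N, hN⟩ := exists_nat_ge (C * (((1 : ℕ) + 1 : ℝ) ^ 3 * Real.log (((1 : ℕ) : ℝ) + 2) ^ 2))
      refine ⟨N, fun V _ G h hV => ?_⟩
      obtain ⟨label, E, S, hE, h0, hd, hS⟩ := h
      have h1 : FD m 1 d G Finset.univ := by
        apply FD_tree label d E S G Finset.univ _ _ hE (fun i hi x _ y _ => hS i hi x y)
        · intro x _ y _
          rw [h0]
          trivial
        · intro x _ y _ hxy
          rw [hd] at hxy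
          exact hxy
      exact hC 1 V G G (isFlip_refl le_rfl _ _)
        (fun D hD => FD_mono m 1 d G _ D (comps_sub _ _ D hD) h1)
        (hN.trans (by exact_mod_cast hV))

end Pool.Agent.Results.MP_552896_co.FlipDepth
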