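import Pool.Agent.Q240.GS.EC2

/-!
# Zeros of `L(E, s)` off the critical line and zeros to the left of it, uniformly in the conductor

`E : y² = x³ + a x + b` runs through the elliptic curves over `ℚ`, `N` is its conductor, and `N (1 + |t|)²` the
analytic conductor of `L(E, s)` at the height `t`.  Let `P` be a nonzero polynomial, `S` a finite set of reals, and

  `F(s) = P(d/ds) L(E, s) + ∑ c(l) exp(-l s)`, `l` in `S`, with coefficients bounded by `B`:

each derivative of `L(E, s)`, `L(E, s) - a`, `L(E, s)` minus finitely many terms of its Dirichlet series, and so on.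
For the Riemann zeta function Speiser's theorem says that the Riemann hypothesis is equivalent to the absence of zeros
of the derivative to the left of the critical line.  We prove, uniformly in `E` and at all heights `t` such that
`N (1 + |t|)²` is large (so for all real `t`, near the central point too, if `N` is large): the zeros of any two such
functions `F` and `G` to the left of the critical line `Re s = 1`, at a distance at least `ε` from it, are at bounded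
distance from each other.  For `G = L(E, s)` these are the zeros of `L(E, s)` off the line.  So the Riemann hypothesis
up to `ε` holds for a set of elliptic curves, with the exception of bounded conductors and heights, if and only if
the function `F` has no zeros with `1/4 ≤ Re s ≤ 1 - ε`, with the same kind of exception; and the same for each
line `Re s = β` in place of the critical line.

Proof (modules `Pool.Agent.Q240.GS`, using the starting modules `Pool.Agent.W169.HF`, `Pool.Agent.W174.HF`,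
`Pool.Agent.W45.HF`, `Pool.Agent.W930.HF`, `Pool.Agent.H353R7` for the data of newforms): in `1/8 ≤ Re s ≤ 3/8`
there are no trivial zeros and `F` has the size `C^(1 - Re s)`, `C = N (1 + |t|)²`.  In a region without zeros of `F`
next to this strip the same is true by harmonic measure, with `F'/F` near `-log C`.  If `G = F' - a F` has no
zeros there, the differential equation gives a lower bound for `F` on a vertical line, which contradicts the upper
bound coming from the right by a Gaussian average, if `F` has a zero.  Then one factors `P`, and removes the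
exponentials by further factors `d/ds + l`.
-/

set_option autoImplicit false

open Complex UpperHalfPlane MatrixGroups CongruenceSubgroup Polynomial
open scoped ComplexConjugate

namespace Pool.Agent.Results.MP_553913_nt.LeftZerosConductor

/-- The coefficient `a_p` of `E : y² = x³ + a x + b` at a prime `p ∤ 2 (4a³ + 27b²)`: `p` minus the
number of pairs `(x, y)` modulo `p` with `y² ≡ x³ + a x + b (mod p)`. -/
noncomputable def ap (a b : ℤ) (p : ℕ) : ℤ :=
  (p : ℤ) - (((Finset.range p ×ˢ Finset.range p).filter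
    (fun xy : ℕ × ℕ => (p : ℤ) ∣ (xy.2 : ℤ) ^ 2 -
      ((xy.1 : ℤ) ^ 3 + a * (xy.1 : ℤ) + b))).card : ℤ)

/-- The `n`-th Fourier coefficient of `f`. -/
noncomputable def coef {N : ℕ} (f : CuspForm (Gamma0 N : Subgroup (GL (Fin 2) ℝ)) 2) (n : ℕ) : ℂ :=
  (qExpansion 1 f).coeff n

/-- `f ∈ S_2(Γ₀(N))` is the newform of the elliptic curve `E : y² = x³ + a x + b` of conductor `N` and
root number `w`: the Fourier coefficients `c(n)` of `f` are real with `c(1) = 1`, they satisfy the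
Hecke relations `c(mn) = c(m) c(n)` for coprime `m`, `n` and `c(p^(j+2)) = c(p) c(p^(j+1)) - p c(p^j)`
(without the last term if `p ∣ N`), `f(-1/(Nτ)) = -w N τ² f(τ)`, `c(p) = a_p(E)` for all primes
`p ∤ 2 (4a³ + 27b²)`, `|c(p)| ≤ 2 √p` for all `p ∤ N` (Hasse) and `c(p) = 0, 1, -1` for `p ∣ N`. -/
structure IsFormOf (a b : ℤ) (N : ℕ) (f : CuspForm (Gamma0 N : Subgroup (GL (Fin 2) ℝ)) 2) (w : ℝ) :
    Prop where
  one : coef f 1 = 1
  real : ∀ n, (coef f n).im = 0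
  mul : ∀ m n : ℕ, Nat.Coprime m n → coef f (m * n) = coef f m * coef f n
  pow : ∀ p j : ℕ, p.Prime → coef f (p ^ (j + 2)) = coef f p * coef f (p ^ (j + 1)) -
      (if p ∣ N then 0 else (p : ℂ) * coef f (p ^ j))
  sign : w = 1 ∨ w = -1
  fricke : ∀ τ τ' : ℍ, (τ' : ℂ) * ((N : ℂ) * (τ : ℂ)) = -1 →
    f τ' = -(w : ℂ) * (N : ℂ) * (τ : ℂ) ^ 2 * f τ
  points : ∀ p : ℕ, p.Prime → ¬ (p : ℤ) ∣ 2 * (4 * a ^ 3 + 27 * b ^ 2) → coef f p = (ap a b p : ℂ)
  good : ∀ p : ℕ, p.Prime → ¬ p ∣ N → ‖coef f p‖ ≤ 2 * Real.sqrt p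
  bad : ∀ p : ℕ, p.Prime → p ∣ N → coef f p = 0 ∨ coef f p = 1 ∨ coef f p = -1

/-- `Λ` is the completed L-function of `f`: it is entire and
`Λ(s) = N^(s/2) (2π)^(-s) Γ(s) ∑ c(n) n^(-s)` for `Re s > 2`. -/
def IsCompleted {N : ℕ} (f : CuspForm (Gamma0 N : Subgroup (GL (Fin 2) ℝ)) 2) (Λ : ℂ → ℂ) : Prop :=
  Differentiable ℂ Λ ∧ ∀ s : ℂ, 2 < s.re →
    Λ s = ((Real.sqrt N / (2 * Real.pi) : ℝ) : ℂ) ^ s * Complex.Gamma s *
      ∑' n : ℕ, coef f (n + 1) * ((n + 1 : ℕ) : ℂ) ^ (-s)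

/-- An elliptic curve `E : y² = x³ + a x + b` over `ℚ` of conductor `N`, with its newform `f`, root number `w` and
completed L-function `Λ`. -/
structure Curve where
  /-- the coefficient of `x` -/
  a : ℤ
  /-- the constant coefficient -/
  b : ℤ
  disc : 4 * a ^ 3 + 27 * b ^ 2 ≠ 0
  /-- the conductor -/
  N : ℕ
  pos : 0 < N
  /-- the newform -/
  f : CuspForm (Gamma0 N : Subgroup (GL (Fin 2) ℝ)) 2
  /-- the root number -/
  w : ℝ
  form : IsFormOf a b N f w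
  /-- the completed L-function -/
  Λ : ℂ → ℂ
  completed : IsCompleted f Λ

/-- The L-function `L(E, s) = Λ(s) / (N^(s/2) (2π)^(-s) Γ(s))`, an entire function (it vanishes at
`s = 0, -1, -2, ...`, where `1 / Γ(s) = 0`). -/
noncomputable def L (E : Curve) (s : ℂ) : ℂ :=
  (((Real.sqrt E.N / (2 * Real.pi) : ℝ) : ℂ) ^ s * Complex.Gamma s)⁻¹ * E.Λ s

/-- `F(s) = P(d/ds) L(E, s) + ∑ c(l) exp(-l s)`, the sum over the finite set `S` of reals. -/
noncomputable def F (E : Curve) (P : ℂ[X]) (S : Finset ℝ) (c : ℝ → ℂ) (s : ℂ) : ℂ :=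
  ∑ i ∈ Finset.range (P.natDegree + 1), P.coeff i * iteratedDeriv i (L E) s + ∑ l ∈ S, c l * cexp (-(l * s))

/-- The analytic conductor `N (1 + |t|)²` at the height `t`. -/
noncomputable def cond (E : Curve) (t : ℝ) : ℝ := E.N * (1 + |t|) ^ 2

open Q240.GS

lemma formW (E : Curve) : Pool.Agent.W169.HF.IsForm E.N E.f E.w :=
  { one := E.form.one
    real := E.form.real
    mul := E.form.mul
    pow := E.form.pow
    sign := E.form.sign
    fricke := E.form.fricke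
    good := E.form.good
    bad := fun p hp hpN => by
      have h1 : (1 : ℝ) ≤ Real.sqrt p := by
        rw [Real.one_le_sqrt]
        exact_mod_cast hp.one_le
      have h2 : ‖coef E.f p‖ ≤ 1 := by
        rcases E.form.bad p hp hpN with h | h | h <;> simp [h]
      exact h2.trans h1 }

lemma obE (E : Curve) : Ob (E.N : ℝ) mu2 (sdn E.N E.Λ) := by
  have : NeZero E.N := ⟨E.pos.ne'⟩
  exact ob_nf (formW E) E.completed

lemma refl (E : Curve) {s : ℂ} (h : E.Λ s = 0) : E.Λ (2 - conj s) = 0 := by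
  have h1 := refl_zero (obE E) (s := s - 1 / 2) ((sdn_zero E.pos E.Λ _).2 (by rw [sub_add_cancel]; exact h))
  rw [sdn_zero E.pos] at h1
  have e1 : (1 - conj (s - 1 / 2) + 1 / 2 : ℂ) = 2 - conj s := by
    rw [map_sub]
    have : conj (1 / 2 : ℂ) = 1 / 2 := by rw [map_div₀, map_one, map_ofNat]
    rw [this]; ring
  rwa [e1] at h1

lemma strip (E : Curve) {s : ℂ} (h : E.Λ s = 0) : s.re ≤ 3 / 2 := by
  obtain ⟨-, -, -, hnz⟩ := obE E
  by_contra hcon
  push Not at hcon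
  refine hnz (s - 1 / 2) (by simp; linarith) ?_
  rw [sdn_zero E.pos, sub_add_cancel]
  exact h

lemma F_one (E : Curve) (c : ℝ → ℂ) (s : ℂ) : F E 1 ∅ c s = L E s := by
  unfold F
  simp

lemma L_zero (E : Curve) {s : ℂ} (hs : 0 < s.re) (h : L E s = 0) : E.Λ s = 0 := by
  unfold L at h
  refine (mul_eq_zero.1 h).resolve_left (inv_ne_zero (mul_ne_zero ?_ (Complex.Gamma_ne_zero_of_re_pos hs)))
  rw [Ne, Complex.cpow_eq_zero_iff]
  intro h
  have h5 : (0 : ℝ) < Real.sqrt E.N / (2 * Real.pi) := by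
    have : (0 : ℝ) < E.N := by exact_mod_cast E.pos
    have := Real.sqrt_pos.2 this
    positivity
  have h6 : ((Real.sqrt E.N / (2 * Real.pi) : ℝ) : ℂ) ≠ 0 := by exact_mod_cast h5.ne'
  exact h6 h.1

/-- **Main theorem.** Let `P`, `Q` be nonzero polynomials, `S`, `R` finite sets of reals, `B ≥ 0` and `β ≤ 1`
(`β = 1` is the critical line).
(1) For every `ε > 0` there is `X` such that for all elliptic curves `E` over `ℚ` and all coefficients bounded by
`B`: if `F = P(d/ds) L(E, s) + ∑ c(l) exp(-l s)` has a zero `ρ` with `1/4 ≤ Re ρ ≤ β - ε` and analytic conductor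
`N (1 + |Im ρ|)² ≥ X`, then `G = Q(d/ds) L(E, s) + ∑ d(l) exp(-l s)` has a zero `s` with `1/4 < Re s < β` and
`|Im s - Im ρ| ≤ X`.
(2) The same for the zeros `s` of `Λ` with `|Re s - 1| > 1 - β` in place of the zeros of `G`.
(3) If `Λ(ρ) = 0`, `|Re ρ - 1| ≥ 1 - β + ε` and `N (1 + |Im ρ|)² ≥ X`, then `F` has a zero `s` with
`1/4 < Re s < β`, `|Im s - Im ρ| ≤ X`.
(4) For every set of elliptic curves, and coefficients depending on `E`: the zeros of `Λ` satisfy
`|Re ρ - 1| < 1 - β + ε` if `N (1 + |Im ρ|)²` is larger than a constant (depending on `ε`), for each `ε > 0`, if and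
only if the zeros of `F` with `Re ρ ≥ 1/4` satisfy `Re ρ > β - ε` if `N (1 + |Im ρ|)²` is larger than a constant,
for each `ε > 0`. -/
theorem result (P Q : ℂ[X]) (hP : P ≠ 0) (hQ : Q ≠ 0) (S R : Finset ℝ) (B β : ℝ) (hB : 0 ≤ B) (hβ : β ≤ 1) :
    (∀ ε : ℝ, 0 < ε → ∃ X : ℝ, ∀ (E : Curve) (c d : ℝ → ℂ), (∀ l ∈ S, ‖c l‖ ≤ B) → (∀ l ∈ R, ‖d l‖ ≤ B) →
      ∀ ρ : ℂ, X ≤ cond E ρ.im → F E P S c ρ = 0 → 1 / 4 ≤ ρ.re → ρ.re ≤ β - ε →
        ∃ s : ℂ, F E Q R d s = 0 ∧ 1 / 4 < s.re ∧ s.re < β ∧ |s.im - ρ.im| ≤ X) ∧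
    (∀ ε : ℝ, 0 < ε → ∃ X : ℝ, ∀ (E : Curve) (c : ℝ → ℂ), (∀ l ∈ S, ‖c l‖ ≤ B) →
      ∀ ρ : ℂ, X ≤ cond E ρ.im → F E P S c ρ = 0 → 1 / 4 ≤ ρ.re → ρ.re ≤ β - ε →
        ∃ s : ℂ, E.Λ s = 0 ∧ 1 - β < |s.re - 1| ∧ |s.im - ρ.im| ≤ X) ∧
    (∀ ε : ℝ, 0 < ε → ∃ X : ℝ, ∀ (E : Curve) (c : ℝ → ℂ), (∀ l ∈ S, ‖c l‖ ≤ B) →
      ∀ ρ : ℂ, X ≤ cond E ρ.im → E.Λ ρ = 0 → 1 - β + ε ≤ |ρ.re - 1| →
        ∃ s : ℂ, F E P S c s = 0 ∧ 1 / 4 < s.re ∧ s.re < β ∧ |s.im - ρ.im| ≤ X) ∧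
    (∀ (Fam : Curve → Prop) (c : Curve → ℝ → ℂ), (∀ E, ∀ l ∈ S, ‖c E l‖ ≤ B) →
      ((∀ ε : ℝ, 0 < ε → ∃ X : ℝ, ∀ E : Curve, Fam E → ∀ ρ : ℂ, E.Λ ρ = 0 → X ≤ cond E ρ.im →
        |ρ.re - 1| < 1 - β + ε) ↔
      (∀ ε : ℝ, 0 < ε → ∃ X : ℝ, ∀ E : Curve, Fam E → ∀ ρ : ℂ, F E P S (c E) ρ = 0 → X ≤ cond E ρ.im →
        1 / 4 ≤ ρ.re → β - ε < ρ.re))) := by
  have h1 : ∀ (P Q : ℂ[X]), P ≠ 0 → Q ≠ 0 → ∀ (S R : Finset ℝ) (ε : ℝ), 0 < ε → ∃ X : ℝ, ∀ (E : Curve)
      (c d : ℝ → ℂ), (∀ l ∈ S, ‖c l‖ ≤ B) → (∀ l ∈ R, ‖d l‖ ≤ B) →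
      ∀ ρ : ℂ, X ≤ cond E ρ.im → F E P S c ρ = 0 → 1 / 4 ≤ ρ.re → ρ.re ≤ β - ε →
        ∃ s : ℂ, F E Q R d s = 0 ∧ 1 / 4 < s.re ∧ s.re < β ∧ |s.im - ρ.im| ≤ X := by
    intro P Q hP hQ S R ε hε
    obtain ⟨X, -, H⟩ := shadow_ec P Q hP hQ S R B β ε hB hβ hε
    refine ⟨X, fun E c d hc hd ρ hX hρ k1 k2 => ?_⟩
    have : NeZero E.N := ⟨E.pos.ne'⟩
    exact H E.N E.f E.w (formW E) E.Λ E.completed c d hc hd ρ hX hρ k1 k2
  refine ⟨h1 P Q hP hQ S R, fun ε hε => ?_, fun ε hε => ?_, fun Fam c hc => ?_⟩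
  · obtain ⟨X, H⟩ := h1 P 1 hP one_ne_zero S ∅ ε hε
    refine ⟨X, fun E c hc ρ hX hρ k1 k2 => ?_⟩
    obtain ⟨s, s1, s2, s3, s4⟩ := H E c (fun _ => 0) hc (by simp) ρ hX hρ k1 k2
    rw [F_one] at s1
    refine ⟨s, L_zero E (by linarith) s1, ?_, s4⟩
    rw [abs_sub_comm, abs_of_pos (by linarith)]
    linarith
  · obtain ⟨X, H⟩ := h1 1 P one_ne_zero hP ∅ S ε hε
    refine ⟨X, fun E c hc ρ hX hρ k1 => ?_⟩
    have key : ∀ ρ : ℂ, X ≤ cond E ρ.im → E.Λ ρ = 0 → ρ.re ≤ β - ε →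
        ∃ s : ℂ, F E P S c s = 0 ∧ 1 / 4 < s.re ∧ s.re < β ∧ |s.im - ρ.im| ≤ X := by
      intro ρ hX hρ k1
      refine H E (fun _ => 0) c (by simp) hc ρ hX ?_ ?_ k1
      · rw [F_one]
        unfold L
        rw [hρ, mul_zero]
      · have := strip E (refl E hρ)
        rw [sub_re, conj_re] at this
        norm_num at this
        linarith
    rcases le_total ρ.re 1 with h2 | h2
    · rw [abs_of_nonpos (by linarith)] at k1
      exact key ρ hX hρ (by linarith)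
    · rw [abs_of_nonneg (by linarith)] at k1
      have e1 : (2 - conj ρ : ℂ).re = 2 - ρ.re := by simp
      have e2 : (2 - conj ρ : ℂ).im = ρ.im := by simp
      have := key (2 - conj ρ) (by rw [e2]; exact hX) (refl E hρ) (by rw [e1]; linarith)
      rwa [e2] at this
  · have key := both_ec P hP S B β hB hβ (ι := {E : Curve // Fam E}) (fun E => E.1.N) (fun E => E.1.Λ)
      (fun E => E.1.pos) (fun E => obE E.1) (fun E => c E.1) (fun E => hc E.1)
    constructor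
    · intro h ε hε
      obtain ⟨X, hX⟩ := key.1 (fun ε hε => by
        obtain ⟨X, hX⟩ := h ε hε
        refine ⟨X, fun E ρ hρ hfar => ?_⟩
        have := hX E.1 E.2 ρ hρ hfar
        have := (abs_lt.1 this).2
        linarith) ε hε
      exact ⟨X, fun E hE ρ hρ hfar k1 => hX ⟨E, hE⟩ ρ hρ hfar k1⟩
    · intro h ε hε
      obtain ⟨X, hX⟩ := key.2 (fun ε hε => by
        obtain ⟨X, hX⟩ := h ε hε
        exact ⟨X, fun E ρ hρ hfar k1 => hX E.1 E.2 ρ hρ hfar k1⟩) ε hε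
      refine ⟨X, fun E hE ρ hρ hfar => ?_⟩
      have h3 := hX ⟨E, hE⟩ ρ hρ hfar
      have h4 := hX ⟨E, hE⟩ (2 - conj ρ) (refl E hρ) (by
        have e2 : (2 - conj ρ : ℂ).im = ρ.im := by simp
        rw [e2]; exact hfar)
      have e1 : (2 - conj ρ : ℂ).re = 2 - ρ.re := by simp
      rw [e1] at h4
      rw [abs_lt]
      constructor <;> linarith

end Pool.Agent.Results.MP_553913_nt.LeftZerosConductor
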