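import Pool.Agent.Q260.DS.All3
import Pool.Agent.Q240.GS.EC2

/-!
# One derivative of the completed L-function decides the Riemann hypothesis for elliptic curves up to `ε`

Let `E : y² = x³ + a x + b` run through the elliptic curves over `ℚ`, `N` the conductor, `Λ(s)` the completed
L-function (`Λ(s) = w Λ(2 - s)`), and `q(t) = N (1 + |t|)²` the analytic conductor at the height `t`.  Let
`F = (d/ds - c_1) ⋯ (d/ds - c_k) Λ` with real `c_i`, `|c_i| ≤ A`; for `c_i = 0` this is the derivative `Λ^(k)`, whose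
zeros are closer to the critical line than those of `Λ`, and lie on it under the Riemann hypothesis for `E`.

We prove, uniformly in `E` and at all real heights (also near the central point, if `N` is large): a zero of `Λ` with
real part `≥ σ + ε`, `σ ≥ 1`, forces a zero of `F` with real part `> σ` within `C log q`, and conversely within `4k`.
So for every set of elliptic curves the Riemann hypothesis up to `ε` (as `q → ∞`) holds for ONE derivative `Λ^(k)` if
and only if it holds for `Λ`.  If for the curves in the set `F` has no zeros to the right of the critical line (at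
the heights where `q ≥ X`), then all zeros `β + iγ` of `Λ` satisfy `|β - 1| ≤ C logloglog q / loglog q`, all zeros
`1 + it` have multiplicity at most `C log q logloglog q / loglog q` (for `t = 0`: the analytic rank is at most
`C log N logloglog N / loglog N`), and the Lindelof bound holds.

Idea: if `G = F' - c F` has no zeros to the right of `σ` near height `T`, then `log |G / gamma factor|` is `o(log q)` there
(Borel-Caratheodory, three circles).  By integration along the VERTICAL ray upwards (the gamma factor decays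
exponentially, so only heights up to `T + K log q` matter) `F` is not larger than `q^(o(1))` times the gamma factor.
Then the differential equation `u' = 1 - (q - c) u` for `u = F / G` shows along horizontal lines that `F` has no
zeros a little further to the right.
-/

set_option autoImplicit false

open Complex UpperHalfPlane MatrixGroups CongruenceSubgroup
open scoped ComplexConjugate

namespace Pool.Agent.Results.MP_553913_nt.OneDerivativeDecides

/-- The coefficient `a_p` of `E : y² = x³ + a x + b` at a prime `p ∤ 2 (4a³ + 27b²)`: `p` minus the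
number of pairs `(x, y)` modulo `p` with `y² ≡ x³ + a x + b (mod p)`. -/
noncomputable def ap (a b : ℤ) (p : ℕ) : ℤ :=
  (p : ℤ) - (((Finset.range p ×ˢ Finset.range p).filter
    (fun xy : ℕ × ℕ => (p : ℤ) ∣ (xy.2 : ℤ) ^ 2 -
      ((xy.1 : ℤ) ^ 3 + a * (xy.1 : ℤ) + b))).card : ℤ)

/-- The `n`-th Fourier coefficient of `f`. -/
noncomputable def coef {N : ℕ} (f : CuspForm (Gamma0 N : Subgroup (GL (Fin 2) ℝ)) 2) (n : ℕ) : ℂ :=
  (qExpansion 1 f).coeff n

/-- `f ∈ S_2(Γ₀(N))` is the newform of the elliptic curve `E : y² = x³ + a x + b` of conductor `N` and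
root number `w`: the Fourier coefficients `c(n)` of `f` are real with `c(1) = 1`, they satisfy the
Hecke relations `c(mn) = c(m) c(n)` for coprime `m`, `n` and `c(p^(j+2)) = c(p) c(p^(j+1)) - p c(p^j)`
(without the last term if `p ∣ N`), `f(-1/(Nτ)) = -w N τ² f(τ)`, `c(p) = a_p(E)` for all primes
`p ∤ 2 (4a³ + 27b²)`, `|c(p)| ≤ 2 √p` for all `p ∤ N` (Hasse) and `c(p) = 0, 1, -1` for `p ∣ N`. -/
structure IsFormOf (a b : ℤ) (N : ℕ) (f : CuspForm (Gamma0 N : Subgroup (GL (Fin 2) ℝ)) 2) (w : ℝ) :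
    Prop where
  one : coef f 1 = 1
  real : ∀ n, (coef f n).im = 0
  mul : ∀ m n : ℕ, Nat.Coprime m n → coef f (m * n) = coef f m * coef f n
  pow : ∀ p j : ℕ, p.Prime → coef f (p ^ (j + 2)) = coef f p * coef f (p ^ (j + 1)) -
      (if p ∣ N then 0 else (p : ℂ) * coef f (p ^ j))
  sign : w = 1 ∨ w = -1
  fricke : ∀ τ τ' : ℍ, (τ' : ℂ) * ((N : ℂ) * (τ : ℂ)) = -1 →
    f τ' = -(w : ℂ) * (N : ℂ) * (τ : ℂ) ^ 2 * f τ
  points : ∀ p : ℕ, p.Prime → ¬ (p : ℤ) ∣ 2 * (4 * a ^ 3 + 27 * b ^ 2) → coef f p = (ap a b p : ℂ)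
  good : ∀ p : ℕ, p.Prime → ¬ p ∣ N → ‖coef f p‖ ≤ 2 * Real.sqrt p
  bad : ∀ p : ℕ, p.Prime → p ∣ N → coef f p = 0 ∨ coef f p = 1 ∨ coef f p = -1

/-- `Λ` is the completed L-function of `f`: it is entire and
`Λ(s) = N^(s/2) (2π)^(-s) Γ(s) ∑ c(n) n^(-s)` for `Re s > 2`. -/
def IsCompleted {N : ℕ} (f : CuspForm (Gamma0 N : Subgroup (GL (Fin 2) ℝ)) 2) (Λ : ℂ → ℂ) : Prop :=
  Differentiable ℂ Λ ∧ ∀ s : ℂ, 2 < s.re →
    Λ s = ((Real.sqrt N / (2 * Real.pi) : ℝ) : ℂ) ^ s * Complex.Gamma s *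
      ∑' n : ℕ, coef f (n + 1) * ((n + 1 : ℕ) : ℂ) ^ (-s)

/-- An elliptic curve `E : y² = x³ + a x + b` over `ℚ` of conductor `N`, with its newform `f`, root number `w` and
completed L-function `Λ`. -/
structure Curve where
  /-- the coefficient of `x` -/
  a : ℤ
  /-- the constant coefficient -/
  b : ℤ
  disc : 4 * a ^ 3 + 27 * b ^ 2 ≠ 0
  /-- the conductor -/
  N : ℕ
  pos : 0 < N
  /-- the newform -/
  f : CuspForm (Gamma0 N : Subgroup (GL (Fin 2) ℝ)) 2
  /-- the root number -/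
  w : ℝ
  form : IsFormOf a b N f w
  /-- the completed L-function -/
  Λ : ℂ → ℂ
  completed : IsCompleted f Λ

/-- The L-function `L(E, s) = Λ(s) / (N^(s/2) (2π)^(-s) Γ(s))`, an entire function (it vanishes at
`s = 0, -1, -2, ...`, where `1 / Γ(s) = 0`). -/
noncomputable def L (E : Curve) (s : ℂ) : ℂ :=
  (((Real.sqrt E.N / (2 * Real.pi) : ℝ) : ℂ) ^ s * Complex.Gamma s)⁻¹ * E.Λ s

/-- The analytic conductor `q(t) = N (1 + |t|)²` at the height `t`. -/
noncomputable def q (E : Curve) (t : ℝ) : ℝ := E.N * (1 + |t|) ^ 2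

/-- `(d/ds - c_1) ⋯ (d/ds - c_k) f`. -/
noncomputable def Dif (f : ℂ → ℂ) : List ℝ → ℂ → ℂ
  | [] => f
  | c :: cs => fun s => deriv (Dif f cs) s - (c : ℂ) * Dif f cs s

/-- For `c_1 = ... = c_k = 0` this is the `k`-th derivative. -/
theorem Dif_zero (f : ℂ → ℂ) (k : ℕ) : Dif f (List.replicate k 0) = iteratedDeriv k f := by
  induction k with
  | zero => rw [List.replicate_zero, iteratedDeriv_zero]; rfl
  | succ k ih =>
    rw [List.replicate_succ, iteratedDeriv_succ, ← ih]
    funext s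
    show deriv (Dif f (List.replicate k 0)) s - ((0 : ℝ) : ℂ) * _ = _
    rw [ofReal_zero, zero_mul, sub_zero]

/-- A list of `k` real numbers bounded by `A`. -/
def Shifts (A : ℝ) (k : ℕ) (cs : List ℝ) : Prop := cs.length = k ∧ ∀ c ∈ cs, |c| ≤ A

/-- For the functions `Z E`, `E` in `Fam`: for every `ε > 0` all zeros with `Re s ≤ 3`, at the heights where the
analytic conductor is large, satisfy `Re s < θ + ε`. -/
def ZerosUpTo (Fam : Curve → Prop) (Z : Curve → ℂ → ℂ) (θ : ℝ) : Prop :=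
  ∀ ε : ℝ, 0 < ε → ∃ X : ℝ, ∀ E : Curve, Fam E → ∀ s : ℂ, Z E s = 0 → X ≤ q E s.im → s.re ≤ 3 → s.re < θ + ε

/-- The Lindelof bound for the curves in `Fam`. -/
def Lindelof (Fam : Curve → Prop) : Prop :=
  ∀ ε : ℝ, 0 < ε → ∃ B : ℝ, ∀ E : Curve, Fam E → ∀ t : ℝ, ‖L E (1 + t * Complex.I)‖ ≤ B * q E t ^ ε

/-- `loglog x / log x` at `x = log q`: the rate `logloglog q / loglog q`. -/
noncomputable def rate (q : ℝ) : ℝ := Real.log (Real.log (Real.log q)) / Real.log (Real.log q)

open Q240.GS Pool.Agent.W169.HF Pool.Agent.Q260.DS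

lemma formW (E : Curve) : Pool.Agent.W169.HF.IsForm E.N E.f E.w :=
  { one := E.form.one
    real := E.form.real
    mul := E.form.mul
    pow := E.form.pow
    sign := E.form.sign
    fricke := E.form.fricke
    good := E.form.good
    bad := fun p hp hpN => by
      have h1 : (1 : ℝ) ≤ Real.sqrt p := by
        rw [Real.one_le_sqrt]
        exact_mod_cast hp.one_le
      have h2 : ‖coef E.f p‖ ≤ 1 := by
        rcases E.form.bad p hp hpN with h | h | h <;> simp [h]
      exact h2.trans h1 }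

lemma obE (E : Curve) : Pool.Agent.Q260.DS.Ob (E.N : ℝ) mu2 (sdn E.N E.Λ) := by
  have : NeZero E.N := ⟨E.pos.ne'⟩
  exact ob_nf (formW E) E.completed

lemma refl (E : Curve) {s : ℂ} (h : E.Λ s = 0) : E.Λ (2 - conj s) = 0 := by
  have h1 := refl_zero (obE E) (s := s - 1 / 2) ((sdn_zero E.pos E.Λ _).2 (by rw [sub_add_cancel]; exact h))
  rw [sdn_zero E.pos] at h1
  have e1 : (1 - conj (s - 1 / 2) + 1 / 2 : ℂ) = 2 - conj s := by
    rw [map_sub]
    have : conj (1 / 2 : ℂ) = 1 / 2 := by rw [map_div₀, map_one, map_ofNat]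
    rw [this]; ring
  rwa [e1] at h1

lemma strip (E : Curve) {s : ℂ} (h : E.Λ s = 0) : s.re ≤ 3 / 2 := by
  obtain ⟨-, -, -, hnz⟩ := obE E
  by_contra hcon
  push Not at hcon
  refine hnz (s - 1 / 2) (by simp; linarith) ?_
  rw [sdn_zero E.pos, sub_add_cancel]
  exact h

lemma dif_eq (f : ℂ → ℂ) (cs : List ℝ) : Dif f cs = It f cs := by
  induction cs with
  | nil => rfl
  | cons c cs ih =>
    funext s
    show deriv (Dif f cs) s - (c : ℂ) * Dif f cs s = deriv (It f cs) s - (c : ℂ) * It f cs s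
    rw [ih]

lemma one_le_N (E : Curve) : (1 : ℝ) ≤ E.N := by exact_mod_cast E.pos

lemma q_one (E : Curve) (t : ℝ) : 1 ≤ q E t := by
  have h1 := one_le_N E
  have h2 := abs_nonneg t
  unfold q
  nlinarith

lemma q_log (E : Curve) (t : ℝ) : Real.log (q E t) ≤ Real.log (cnd E.N mu2 t) ∧
    Real.log (cnd E.N mu2 t) ≤ Real.log (q E t) + 2 := log_cnd2 (one_le_N E) t

lemma ge_log (E : Curve) {C t : ℝ} (h : Real.exp C ≤ q E t) : C ≤ Real.log (q E t) := by
  have := Real.log_le_log (Real.exp_pos _) h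
  rwa [Real.log_exp] at this

/-- the constant between the two normalisations -/
noncomputable def kk (E : Curve) : ℂ := 2 * (E.N : ℂ) ^ (-(1 / 4) : ℂ)

lemma kk_ne (E : Curve) : kk E ≠ 0 := by
  have hN : (E.N : ℂ) ≠ 0 := by
    have := E.pos
    exact_mod_cast this.ne'
  unfold kk
  refine mul_ne_zero two_ne_zero ?_
  rw [Ne, Complex.cpow_eq_zero_iff]
  exact fun h => hN h.1

lemma XX_eq (E : Curve) : XX E.N (sdn E.N E.Λ) = fun s => kk E * E.Λ (s + 1 / 2) := by
  funext s
  have hN : (E.N : ℂ) ≠ 0 := by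
    have := E.pos
    exact_mod_cast this.ne'
  unfold XX sdn kk
  rw [Complex.ofReal_natCast]
  have h1 : (E.N : ℂ) ^ (s / 2) * (E.N : ℂ) ^ (-((s + 1 / 2) / 2)) = (E.N : ℂ) ^ (-(1 / 4) : ℂ) := by
    rw [← cpow_add _ _ hN]
    congr 1
    ring
  calc (E.N : ℂ) ^ (s / 2) * (2 * (E.N : ℂ) ^ (-((s + 1 / 2) / 2)) * E.Λ (s + 1 / 2)) =
      2 * ((E.N : ℂ) ^ (s / 2) * (E.N : ℂ) ^ (-((s + 1 / 2) / 2))) * E.Λ (s + 1 / 2) := by ring
    _ = _ := by rw [h1]

lemma It_zero (E : Curve) (cs : List ℝ) (s : ℂ) :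
    It (XX E.N (sdn E.N E.Λ)) cs s = 0 ↔ Dif E.Λ cs (s + 1 / 2) = 0 := by
  rw [XX_eq, It_affine, dif_eq]
  simp only [mul_eq_zero, kk_ne, false_or]

lemma half_re : ((1 / 2 : ℂ)).re = 1 / 2 := by norm_num
lemma half_im : ((1 / 2 : ℂ)).im = 0 := by norm_num

lemma upTo_iff (Fam : Curve → Prop) (Z Z' : Curve → ℂ → ℂ) (hZ : ∀ E s, Z' E s = 0 ↔ Z E (s + 1 / 2) = 0)
    (θ : ℝ) : ZerosUpTo Fam Z θ ↔
      UpTo (fun E : {E : Curve // Fam E} => Z' E.1) (fun E => cnd E.1.N mu2) (θ - 1 / 2) := by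
  constructor
  · intro h ε hε
    obtain ⟨X, hX⟩ := h ε hε
    refine ⟨Real.exp (Real.log (max X 1) + 2), fun E s hs hq hs2 => ?_⟩
    have him : (s + 1 / 2 : ℂ).im = s.im := by rw [add_im, half_im, add_zero]
    have hre : (s + 1 / 2 : ℂ).re = s.re + 1 / 2 := by rw [add_re, half_re]
    have h1 : Real.log (max X 1) + 2 ≤ Real.log (cnd E.1.N mu2 s.im) := by
      have := Real.log_le_log (Real.exp_pos _) hq
      rwa [Real.log_exp] at this
    have h2 := (q_log E.1 s.im).2
    have h3 : X ≤ q E.1 s.im := by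
      have h4 : Real.log (max X 1) ≤ Real.log (q E.1 s.im) := by linarith
      exact (le_max_left _ _).trans ((Real.log_le_log_iff (lt_max_of_lt_right one_pos)
        (by linarith [q_one E.1 s.im])).1 h4)
    have h5 := hX E.1 E.2 (s + 1 / 2) ((hZ E.1 s).1 hs) (by rw [him]; exact h3) (by rw [hre]; linarith)
    rw [hre] at h5
    linarith
  · intro h ε hε
    obtain ⟨X, hX⟩ := h ε hε
    refine ⟨Real.exp (Real.log (max X 1)), fun E hE s hs hq hs2 => ?_⟩
    have him : (s - 1 / 2 : ℂ).im = s.im := by rw [sub_im, half_im, sub_zero]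
    have hre : (s - 1 / 2 : ℂ).re = s.re - 1 / 2 := by rw [sub_re, half_re]
    have h1 := ge_log E hq
    have h2 := (q_log E s.im).1
    have h5 := hX ⟨E, hE⟩ (s - 1 / 2) ((hZ E _).2 (by rw [sub_add_cancel]; exact hs))
      (by rw [him]; exact ge_of_log' (one_le_N E) (h1.trans h2)) (by rw [hre]; linarith)
    rw [hre] at h5
    linarith

lemma mu2_norm (j : Fin 2) : ‖mu2 j‖ ≤ 2 := by
  unfold mu2
  fin_cases j <;> simp <;> norm_num

lemma hpos {x : ℝ} (hx : Real.exp (Real.exp 1) ≤ x) : 0 ≤ rate (Real.exp x) := by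
  unfold rate
  rw [Real.log_exp]
  exact R_nonneg hx

/-- `A ≥ 0` and `k` describe the differential operators.  (1) The dictionary, uniformly in `E`.  (2) The Riemann
hypothesis up to `ε` (and its analogues for `Re s = θ`) for sets of curves.  (3) If `F` has no zeros to the right of
the critical line. -/
theorem result (A : ℝ) (k : ℕ) :
    (∀ ε : ℝ, 0 < ε → ∃ C : ℝ, ∀ (E : Curve) (cs : List ℝ), Shifts A k cs →
      (∀ (s : ℂ) (σ : ℝ), E.Λ s = 0 → C ≤ q E s.im → 1 ≤ σ → σ + ε ≤ s.re →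
        ∃ w : ℂ, Dif E.Λ cs w = 0 ∧ σ < w.re ∧ w.re ≤ 3 ∧ |w.im - s.im| ≤ C * Real.log (q E s.im)) ∧
      (∀ (s : ℂ) (σ : ℝ), Dif E.Λ cs s = 0 → C ≤ q E s.im → 1 ≤ σ → σ + ε ≤ s.re → s.re ≤ 3 →
        ∃ w : ℂ, E.Λ w = 0 ∧ σ < w.re ∧ |w.im - s.im| ≤ 4 * k)) ∧
    (∀ (Fam : Curve → Prop) (cs : Curve → List ℝ) (θ : ℝ), (∀ E, Shifts A k (cs E)) → 1 ≤ θ →
      (ZerosUpTo Fam (fun E => Dif E.Λ (cs E)) θ ↔ ZerosUpTo Fam (fun E => E.Λ) θ)) ∧
    (∀ (Fam : Curve → Prop) (cs : Curve → List ℝ) (X : ℝ), (∀ E, Shifts A k (cs E)) →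
      (∀ E : Curve, Fam E → ∀ s : ℂ, Dif E.Λ (cs E) s = 0 → X ≤ q E s.im → s.re ≤ 3 → s.re ≤ 1) →
      Lindelof Fam ∧ ∃ C : ℝ, ∀ E : Curve, Fam E →
        (∀ s : ℂ, E.Λ s = 0 → C ≤ q E s.im → |s.re - 1| ≤ C * rate (q E s.im)) ∧
        (∀ (t : ℝ) (n : ℕ), C ≤ q E t → (∀ j < n, iteratedDeriv j E.Λ (1 + t * Complex.I) = 0) →
          (n : ℝ) ≤ C * (Real.log (q E t) * rate (q E t)))) := by
  have hA1 : 1 ≤ max A 1 := le_max_right _ _
  have hli : ∀ cs : List ℝ, Shifts A k cs → Li (max A 1) k cs := fun cs h =>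
    ⟨h.1, fun c hc => (h.2 c hc).trans (le_max_left _ _)⟩
  have hmu : ∀ j, ‖mu2 j‖ ≤ (2 : ℝ) := mu2_norm
  have hfam : ∀ (Fam : Curve → Prop) (cs : Curve → List ℝ) (θ : ℝ), (∀ E, Shifts A k (cs E)) → 1 ≤ θ →
      (ZerosUpTo Fam (fun E => Dif E.Λ (cs E)) θ ↔ ZerosUpTo Fam (fun E => E.Λ) θ) := by
    intro Fam cs θ hcs hθ
    have h := fam_iff (ι := {E : Curve // Fam E}) (N := fun E => (E.1.N : ℝ)) (μ := fun _ => mu2)
      (Λ := fun E => sdn E.1.N E.1.Λ) (cs := fun E => cs E.1) f1 (by norm_num) (by norm_num : (0 : ℝ) ≤ 2) hA1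
      (fun E => obE E.1) (fun _ => hmu) (fun E => hli _ (hcs E.1)) (θ := θ - 1 / 2) (by linarith)
    rw [upTo_iff Fam (fun E => Dif E.Λ (cs E)) (fun E => It (XX E.N (sdn E.N E.Λ)) (cs E))
      (fun E s => It_zero E (cs E) s), upTo_iff Fam (fun E => E.Λ) (fun E => sdn E.N E.Λ)
      (fun E s => sdn_zero E.pos E.Λ s)]
    exact h
  refine ⟨fun ε hε => ?_, hfam, fun Fam cs X hcs h => ?_⟩
  · obtain ⟨C, hC, H⟩ := (f1 2 k 2 (max A 1) (by norm_num) (by norm_num) hA1).1 ε hε
    refine ⟨Real.exp (C + 2 * C), fun E cs hcs => ?_⟩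
    obtain ⟨H1, H2⟩ := H E.N mu2 (sdn E.N E.Λ) (obE E) hmu cs (hli cs hcs)
    have him : ∀ s : ℂ, (s - 1 / 2 : ℂ).im = s.im := fun s => by rw [sub_im, half_im, sub_zero]
    have hre : ∀ s : ℂ, (s - 1 / 2 : ℂ).re = s.re - 1 / 2 := fun s => by rw [sub_re, half_re]
    refine ⟨fun s σ hs hq hσ hσs => ?_, fun s σ hs hq hσ hσs hs2 => ?_⟩
    · have hlq := ge_log E hq
      obtain ⟨b1, b2⟩ := q_log E s.im
      obtain ⟨w, w1, w2, w3, w4⟩ := H1 (s - 1 / 2) (σ - 1 / 2)
        ((sdn_zero E.pos E.Λ _).2 (by rw [sub_add_cancel]; exact hs)) (by rw [him]; linarith) (by linarith)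
        (by rw [hre]; linarith)
      rw [him] at w4
      refine ⟨w + 1 / 2, (It_zero E cs w).1 w1, ?_, ?_, ?_⟩
      · rw [add_re, half_re]; linarith
      · rw [add_re, half_re]; linarith
      · rw [add_im, half_im, add_zero]
        refine w4.trans ?_
        have h1 : C * Real.log (cnd E.N mu2 s.im) ≤ C * (3 * Real.log (q E s.im)) :=
          mul_le_mul_of_nonneg_left (by linarith) (by linarith)
        have h2 : C * (3 * Real.log (q E s.im)) = (C + 2 * C) * Real.log (q E s.im) := by ring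
        have h3 := Real.add_one_le_exp (C + 2 * C)
        have h4 : (C + 2 * C) * Real.log (q E s.im) ≤ Real.exp (C + 2 * C) * Real.log (q E s.im) :=
          mul_le_mul_of_nonneg_right (by linarith) (by linarith)
        linarith
    · have hlq := ge_log E hq
      obtain ⟨b1, b2⟩ := q_log E s.im
      obtain ⟨w, w1, w2, w3⟩ := H2 (s - 1 / 2) (σ - 1 / 2)
        ((It_zero E cs _).2 (by rw [sub_add_cancel]; exact hs)) (by rw [him]; linarith) (by linarith)
        (by rw [hre]; linarith) (by rw [hre]; linarith)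
      rw [him] at w3
      refine ⟨w + 1 / 2, (sdn_zero E.pos E.Λ w).1 w1, ?_, ?_⟩
      · rw [add_re, half_re]; linarith
      · rw [add_im, half_im, add_zero]
        exact w3
  · have hU : UpTo (fun E : {E : Curve // Fam E} => sdn E.1.N E.1.Λ) (fun E => cnd E.1.N mu2) (1 / 2) := by
      have h1 := (hfam Fam cs 1 hcs le_rfl).1 (fun ε hε => ⟨X, fun E hE s hs hX hs2 => by
        have := h E hE s hs hX hs2
        linarith⟩)
      rw [upTo_iff Fam (fun E => E.Λ) (fun E => sdn E.N E.Λ) (fun E s => sdn_zero E.pos E.Λ s),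
        show (1 : ℝ) - 1 / 2 = 1 / 2 by norm_num] at h1
      exact h1
    refine ⟨fun ε hε => ?_, ?_⟩
    · obtain ⟨C, hC⟩ := fam_lind (ι := {E : Curve // Fam E}) (N := fun E => (E.1.N : ℝ)) (μ := fun _ => mu2)
        (Λ := fun E => sdn E.1.N E.1.Λ) lz (by norm_num) (fun E => obE E.1) hU ε hε
      obtain ⟨B, hB0, HB⟩ := Q240.GS.triv_L (m := 2) (by norm_num)
      have hC0 : 0 ≤ max C 0 := le_max_right _ _
      refine ⟨Real.exp (B + max C 0 + 2 * ε + 2), fun E hE t => ?_⟩
      have hlog := Real.log_nonneg (q_one E t)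
      obtain ⟨b1, b2⟩ := q_log E t
      have he : q E t ^ ε = Real.exp (ε * Real.log (q E t)) := by
        rw [Real.rpow_def_of_pos (by linarith [q_one E t]), mul_comm]
      have e0 : LL mu2 (sdn E.N E.Λ) (1 / 2 + t * Complex.I) = L E (1 + t * Complex.I) := by
        rw [LL_sdn E.pos]
        unfold Q240.GS.LE L
        rw [show (1 / 2 + (t : ℂ) * Complex.I + 1 / 2 : ℂ) = 1 + t * Complex.I by ring]
      rw [he, ← Real.exp_add]
      have hεl : ε * Real.log (cnd E.N mu2 t) ≤ ε * (Real.log (q E t) + 2) :=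
        mul_le_mul_of_nonneg_left b2 hε.le
      rcases le_or_gt C (Real.log (cnd E.N mu2 t)) with h1 | h1
      · have h2 := hC ⟨E, hE⟩ t h1
        simp only at h2
        rw [e0] at h2
        refine h2.trans (Real.exp_le_exp.2 ?_)
        linarith
      · have h2 := HB E.N mu2 (sdn E.N E.Λ) (obE E) (1 / 2) t le_rfl (by norm_num)
        have e1 : (⟨1 / 2, t⟩ : ℂ) = 1 / 2 + t * Complex.I := by
          apply Complex.ext <;> simp
        rw [e1, e0] at h2
        refine h2.trans (Real.exp_le_exp.2 ?_)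
        have h3 : 0 ≤ ε * Real.log (q E t) := mul_nonneg hε.le hlog
        have h4 := le_max_left C 0
        linarith
    · obtain ⟨C, hC⟩ := fam_rate (ι := {E : Curve // Fam E}) (N := fun E => (E.1.N : ℝ)) (μ := fun _ => mu2)
        (Λ := fun E => sdn E.1.N E.1.Λ) (cs := fun E => cs E.1) f1 (by norm_num) (by norm_num : (0 : ℝ) ≤ 2) hA1
        (fun E => obE E.1) (fun _ => hmu)
        (fun E => hli _ (hcs E.1)) (X0 := Real.exp (Real.log (max X 1) + 2)) (fun E s hs hX hs2 => by
          have hX' : Real.log (max X 1) + 2 ≤ Real.log (cnd E.1.N mu2 s.im) := by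
            have := Real.log_le_log (Real.exp_pos _) hX
            rwa [Real.log_exp] at this
          have h2 := (q_log E.1 s.im).2
          have h3 : X ≤ q E.1 s.im := by
            have h4 : Real.log (max X 1) ≤ Real.log (q E.1 s.im) := by linarith
            exact (le_max_left _ _).trans ((Real.log_le_log_iff (lt_max_of_lt_right one_pos)
              (by linarith [q_one E.1 s.im])).1 h4)
          have h5 := h E.1 E.2 (s + 1 / 2) ((It_zero E.1 _ s).1 hs)
            (by rw [add_im, half_im, add_zero]; exact h3) (by rw [add_re, half_re]; linarith)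
          rw [add_re, half_re] at h5
          linarith)
      obtain ⟨K, A', hK, hA', hSys⟩ := sy 2 2 0 (by norm_num) (by norm_num) le_rfl
      obtain ⟨C2, hC2⟩ := fam_mult (ι := {E : Curve // Fam E}) (K := K) (A := A') (Y := -0) (D := C)
        (N := fun E => (E.1.N : ℝ)) (μ := fun _ => mu2) (X := fun E => XX E.1.N (sdn E.1.N E.1.Λ))
        (g := fun E => gg E.1.N mu2) rk hK hA' (fun E => one_le_N E.1)
        (fun _ j => (mu2_re j).trans (by norm_num))
        (fun E => hSys E.1.N mu2 (sdn E.1.N E.1.Λ) (obE E.1) hmu)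
        (fun E => by
          obtain ⟨α, e, d, -⟩ := obE E.1
          exact fe_of_datum d)
        (fun E s hs hq => hC E s (by
          have h1 := (XX_zero (N := (E.1.N : ℝ)) (by linarith [one_le_N E.1]) (Λ := sdn E.1.N E.1.Λ) (z := s)).1 hs
          exact h1) hq)
      obtain ⟨E4, hE4⟩ : ∃ x : ℝ, x = Real.exp (4 * Real.exp 1) := ⟨_, rfl⟩
      have hE40 : 0 < E4 := by rw [hE4]; exact Real.exp_pos _
      refine ⟨Real.exp (E4 + 2 * 2 + 2 + 2 * |C| + 4 * |C2|), fun E hE => ⟨fun s hs hq => ?_, fun t n hq hn => ?_⟩⟩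
      · have hlq := ge_log E hq
        obtain ⟨b1, b2⟩ := q_log E s.im
        have hC0 := abs_nonneg C
        have hC20 := abs_nonneg C2
        obtain ⟨r1, r2, r3⟩ := R_comp (x := Real.log (q E s.im)) (y := Real.log (cnd E.N mu2 s.im)) (D := 2)
          (by norm_num) (by rw [← hE4]; linarith) (by linarith) (by linarith)
        have h1 := hC ⟨E, hE⟩ (s - 1 / 2) ((sdn_zero E.pos E.Λ _).2 (by rw [sub_add_cancel]; exact hs))
          (by
            rw [sub_im, half_im, sub_zero]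
            show C ≤ Real.log (cnd E.N mu2 s.im)
            linarith [le_abs_self C])
        rw [sub_im, half_im, sub_zero, sub_re, half_re, show s.re - 1 / 2 - 1 / 2 = s.re - 1 by ring] at h1
        have h2 : rate (q E s.im) = R (Real.log (q E s.im)) := rfl
        rw [h2]
        refine h1.trans ?_
        show C * R (Real.log (cnd E.N mu2 s.im)) ≤ _
        have hy : 0 ≤ R (Real.log (cnd E.N mu2 s.im)) := R_nonneg (le_trans (Real.exp_le_exp.2
          (by linarith [Real.exp_pos 1])) (by rw [hE4] at hlq; linarith :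
            Real.exp (4 * Real.exp 1) ≤ Real.log (cnd E.N mu2 s.im)))
        calc C * R (Real.log (cnd E.N mu2 s.im)) ≤ |C| * (2 * R (Real.log (q E s.im))) :=
              mul_le_mul (le_abs_self C) r1 hy hC0
          _ = (2 * |C|) * R (Real.log (q E s.im)) := by ring
          _ ≤ _ := by
              refine mul_le_mul_of_nonneg_right ?_ r2
              have := Real.add_one_le_exp (E4 + 2 * 2 + 2 + 2 * |C| + 4 * |C2|)
              linarith
      · have hlq := ge_log E hq
        obtain ⟨b1, b2⟩ := q_log E t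
        have hC0 := abs_nonneg C
        have hC20 := abs_nonneg C2
        obtain ⟨r1, r2, r3⟩ := R_comp (x := Real.log (q E t)) (y := Real.log (cnd E.N mu2 t)) (D := 2)
          (by norm_num) (by rw [← hE4]; linarith) (by linarith) (by linarith)
        have h1 := hC2 ⟨E, hE⟩ t (by
            show C2 ≤ Real.log (cnd E.N mu2 t)
            linarith [le_abs_self C2]) n (fun j hj => by
            show iteratedDeriv j (XX E.N (sdn E.N E.Λ)) (1 / 2 + t * Complex.I) = 0
            rw [XX_eq, iteratedDeriv_const_mul_field, iteratedDeriv_comp_add_const]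
            show kk E * iteratedDeriv j E.Λ (1 / 2 + (t : ℂ) * Complex.I + 1 / 2) = 0
            rw [show (1 / 2 + (t : ℂ) * Complex.I + 1 / 2 : ℂ) = 1 + t * Complex.I by ring, hn j hj, mul_zero])
        have h2 : rate (q E t) = R (Real.log (q E t)) := rfl
        rw [h2]
        refine h1.trans ?_
        show C2 * (R (Real.log (cnd E.N mu2 t)) * Real.log (cnd E.N mu2 t)) ≤ _
        have hy : 0 ≤ R (Real.log (cnd E.N mu2 t)) := R_nonneg (le_trans (Real.exp_le_exp.2
          (by linarith [Real.exp_pos 1])) (by rw [hE4] at hlq; linarith :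
            Real.exp (4 * Real.exp 1) ≤ Real.log (cnd E.N mu2 t)))
        calc C2 * (R (Real.log (cnd E.N mu2 t)) * Real.log (cnd E.N mu2 t)) ≤
            |C2| * (4 * (R (Real.log (q E t)) * Real.log (q E t))) :=
              mul_le_mul (le_abs_self C2) r3 (mul_nonneg hy (by linarith)) hC20
          _ = (4 * |C2|) * (Real.log (q E t) * R (Real.log (q E t))) := by ring
          _ ≤ _ := by
              refine mul_le_mul_of_nonneg_right ?_ (mul_nonneg (by linarith) r2)
              have := Real.add_one_le_exp (E4 + 2 * 2 + 2 + 2 * |C| + 4 * |C2|)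
              linarith

end Pool.Agent.Results.MP_553913_nt.OneDerivativeDecides
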