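import Pool.Agent.Q240.GS.TwE

/-!
# Almost all quadratic twists have no zeros of the derivatives of `L(E_d, s)` to the left of the critical line

`E_g : y² = x³ + a g² x + b g³` are the quadratic twists of `E : y² = x³ + a x + b`, `N_g` is the conductor of
`E_g`.  Let `P` be a nonzero polynomial, `S` a finite set of reals, and

  `F_d(s) = P(d/ds) L(E_d, s) + ∑ c_d(l) exp(-l s)`, `l` in `S`, with coefficients bounded by `M`:

each derivative of `L(E_d, s)`, `L(E_d, s) - a`, `L(E_d, s)` minus finitely many terms of its Dirichlet series, and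
so on; the coefficients may depend on `d`.  By the theorem of Speiser and its generalisations the zeros of such a
function to the left of the critical line `Re s = 1` are there because of zeros of `L(E_d, s)` off the line.  We
prove without any hypothesis a density theorem for them in the family of the quadratic twists: there are `c > 0`,
`A`, `B`, depending only on `E`, such that for each `δ > 0` the number of all zeros of the `F_d`, `d` squarefree,
`C ≤ |d| ≤ X`, with `1/4 ≤ Re s ≤ 1 - δ` and `|Im s| ≤ U`, with multiplicities, is at most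
`C (1 + U)^B X^(1 - c δ) (log X)^A`; and for all squarefree `d` with `|d| ≤ X` except `C X^(1 - c δ)` there are no
such zeros with `|Im s| ≤ X^(c δ)`.

Proof.  Modules `Pool.Agent.Q240.GS`: the zeros of `F_d` to the left are at bounded distance from zeros of
`L(E_d, s)` off the line, uniformly in `d` (this is used in our `MP_553913_nt.LeftZerosConductor`), and their number
in a window is `O(log N_d)` (Jensen's formula, the centre of the disc in a region where `P(d/ds) L(E_d, s)`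
dominates); the density theorem for `L(E_d, s)` in the family (starting modules `Pool.Agent.Y19.QT`) then gives the
result.  The density theorem comes with the functional equations of the twists of finitely many newforms; that the
level `N_d` of the newform of `E_d` is the one in these functional equations is proved here by comparing the two
functional equations: the ratio of the two completed L-functions is an entire function without zeros, bounded by
`k^(Re s - 1)` on both sides, which forces `k = 1`.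
-/

set_option autoImplicit false

open Complex UpperHalfPlane MatrixGroups CongruenceSubgroup Polynomial
open scoped ENNReal

namespace Pool.Agent.Results.MP_553913_nt.TwistLeftZeros

/-- The coefficient `a_p` of `E : y² = x³ + a x + b` at a prime `p ∤ 2 (4a³ + 27b²)`: `p` minus the
number of pairs `(x, y)` modulo `p` with `y² = x³ + a x + b`. -/
noncomputable def ap (a b : ℤ) (p : ℕ) : ℤ :=
  (p : ℤ) - Nat.card {x : ZMod p × ZMod p // x.2 ^ 2 = x.1 ^ 3 + (a : ZMod p) * x.1 + (b : ZMod p)}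

/-- The `n`-th Fourier coefficient of `f`. -/
noncomputable def coef {N : ℕ} (f : CuspForm (Gamma0 N : Subgroup (GL (Fin 2) ℝ)) 2) (n : ℕ) : ℂ :=
  (qExpansion 1 f).coeff n

/-- `f ∈ S_2(Γ₀(N))` is the newform of the elliptic curve `E : y² = x³ + a x + b` of conductor `N`: the Fourier
coefficients `c(n)` of `f` are real with `c(1) = 1`, they satisfy the Hecke relations `c(mn) = c(m) c(n)` for
coprime `m`, `n` and `c(p^(j+2)) = c(p) c(p^(j+1)) - p c(p^j)` (without the last term if `p ∣ N`), and the bounds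
`|c(p)| ≤ 2√p` for `p ∤ N`, `|c(p)| ≤ 1` for `p ∣ N`; `f(-1/(Nτ)) = -w N τ² f(τ)` with a sign `w = ±1`;
for all primes `p ∤ 2 (4a³ + 27b²)` one has `p ∤ N` and `c(p) = a_p(E)`. -/
structure IsFormOf (a b : ℤ) (N : ℕ) (f : CuspForm (Gamma0 N : Subgroup (GL (Fin 2) ℝ)) 2) : Prop where
  pos : 0 < N
  one : coef f 1 = 1
  real : ∀ n, (coef f n).im = 0
  mul : ∀ m n : ℕ, Nat.Coprime m n → coef f (m * n) = coef f m * coef f n
  pow : ∀ p j : ℕ, p.Prime → coef f (p ^ (j + 2)) = coef f p * coef f (p ^ (j + 1)) -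
      (if p ∣ N then 0 else (p : ℂ) * coef f (p ^ j))
  good : ∀ p : ℕ, p.Prime → ¬ p ∣ N → ‖coef f p‖ ≤ 2 * Real.sqrt p
  bad : ∀ p : ℕ, p.Prime → p ∣ N → ‖coef f p‖ ≤ 1
  fricke : ∃ w : ℝ, (w = 1 ∨ w = -1) ∧ ∀ τ τ' : ℍ, (τ' : ℂ) * ((N : ℂ) * (τ : ℂ)) = -1 →
    f τ' = -(w : ℂ) * (N : ℂ) * (τ : ℂ) ^ 2 * f τ
  points : ∀ p : ℕ, p.Prime → ¬ (p : ℤ) ∣ 2 * (4 * a ^ 3 + 27 * b ^ 2) →
    ¬ p ∣ N ∧ coef f p = (ap a b p : ℂ)

/-- `Λ` is the completed L-function of `f`: it is entire and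
`Λ(s) = N^(s/2) (2π)^(-s) Γ(s) ∑ c(n) n^(-s)` for `Re s > 2`. -/
def IsCompleted {N : ℕ} (f : CuspForm (Gamma0 N : Subgroup (GL (Fin 2) ℝ)) 2) (Λ : ℂ → ℂ) : Prop :=
  Differentiable ℂ Λ ∧ ∀ s : ℂ, 2 < s.re →
    Λ s = ((Real.sqrt N / (2 * Real.pi) : ℝ) : ℂ) ^ s * Complex.Gamma s *
      ∑' n : ℕ, coef f (n + 1) * ((n + 1 : ℕ) : ℂ) ^ (-s)

/-- An elliptic curve `E : y² = x³ + a x + b` over `ℚ` with its conductor `N`, its newform `f` and its completed
L-function `Λ`. -/
structure Curve where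
  /-- the coefficient of `x` -/
  a : ℤ
  /-- the constant coefficient -/
  b : ℤ
  disc : 4 * a ^ 3 + 27 * b ^ 2 ≠ 0
  /-- the conductor -/
  N : ℕ
  /-- the newform -/
  f : CuspForm (Gamma0 N : Subgroup (GL (Fin 2) ℝ)) 2
  form : IsFormOf a b N f
  /-- the completed L-function -/
  Λ : ℂ → ℂ
  completed : IsCompleted f Λ

/-- The L-function `L(E, s) = Λ(s) / (N^(s/2) (2π)^(-s) Γ(s))`, an entire function (it vanishes at
`s = 0, -1, -2, ...`, where `1 / Γ(s) = 0`). -/
noncomputable def L (E : Curve) (s : ℂ) : ℂ :=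
  (((Real.sqrt E.N / (2 * Real.pi) : ℝ) : ℂ) ^ s * Complex.Gamma s)⁻¹ * E.Λ s

/-- `F(s) = P(d/ds) L(E, s) + ∑ c(l) exp(-l s)`, the sum over the finite set `S` of reals. -/
noncomputable def F (E : Curve) (P : ℂ[X]) (S : Finset ℝ) (c : ℝ → ℂ) (s : ℂ) : ℂ :=
  ∑ i ∈ Finset.range (P.natDegree + 1), P.coeff i * iteratedDeriv i (L E) s + ∑ l ∈ S, c l * cexp (-(l * s))

/-- The number of zeros `ρ` of `G` with `1/4 ≤ Re ρ ≤ 1 - δ`, `|Im ρ| ≤ U`, with multiplicities. -/
noncomputable def leftZeros (G : ℂ → ℂ) (δ U : ℝ) : ℝ≥0∞ :=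
  ∑' ρ : ℂ, if G ρ = 0 ∧ 1 / 4 ≤ ρ.re ∧ ρ.re ≤ 1 - δ ∧ |ρ.im| ≤ U then
    ((analyticOrderAt G ρ : ℕ∞) : ℝ≥0∞) else 0

/-- The squarefree integers `d`, positive or negative, with `|d| ≤ X`. -/
noncomputable def sqf (X : ℕ) : Finset ℤ := (Finset.Icc (-(X : ℤ)) X).filter (fun d => Squarefree d.natAbs)

lemma toY (E : Curve) : Pool.Agent.Y19.QT.IsFormOf E.a E.b E.N E.f :=
  { pos := E.form.pos
    one := E.form.one
    real := E.form.real
    mul := E.form.mul
    pow := E.form.pow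
    good := E.form.good
    bad := E.form.bad
    fricke := E.form.fricke
    points := E.form.points }

/-- **Main theorem.** Let `E : y² = x³ + a x + b` be an elliptic curve over `ℚ` and, for `g ≠ 0`, let `E_g` be its
quadratic twist `y² = x³ + a g² x + b g³`.  There are `c > 0`, `A`, `B` such that for every nonzero polynomial `P`,
every finite set `S` of reals, all `M` and all `δ > 0` there is `C` such that for all coefficients `c_d(l)`, bounded
by `M`, and all `X ≥ 3`, with `F_d = P(d/ds) L(E_d, s) + ∑ c_d(l) exp(-l s)`: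
(1) for all `U ≥ 0`, the total number of zeros, with multiplicities, with `1/4 ≤ Re ρ ≤ 1 - δ`, `|Im ρ| ≤ U` of the
functions `F_d`, `d` squarefree, `C ≤ |d| ≤ X`, is at most `C (1 + U)^B X^(1 - c δ) (log X)^A`;
(2) the number of squarefree `d` with `|d| ≤ X` for which `F_d` has a zero with `1/4 ≤ Re ρ ≤ 1 - δ` and
`|Im ρ| ≤ X^(c δ)` is at most `C X^(1 - c δ)`. -/
theorem result (a b : ℤ) (hab : 4 * a ^ 3 + 27 * b ^ 2 ≠ 0) (E : ℤ → Curve)
    (hE : ∀ g : ℤ, g ≠ 0 → (E g).a = a * g ^ 2 ∧ (E g).b = b * g ^ 3) :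
    ∃ (c : ℝ) (A B : ℕ), 0 < c ∧ ∀ (P : ℂ[X]) (S : Finset ℝ) (M δ : ℝ), P ≠ 0 → 0 < δ → ∃ C : ℝ,
      ∀ co : ℤ → ℝ → ℂ, (∀ d, ∀ l ∈ S, ‖co d l‖ ≤ M) → ∀ X : ℕ, 3 ≤ X →
      (∀ U : ℝ, 0 ≤ U → ∑ d ∈ (sqf X).filter (fun d : ℤ => C ≤ |(d : ℝ)|),
        leftZeros (F (E d) P S (co d)) δ U ≤
          ENNReal.ofReal (C * (1 + U) ^ B * (X : ℝ) ^ (1 - c * δ) * Real.log X ^ A)) ∧
      ∀ D : Finset ℤ, D ⊆ sqf X → (∀ d ∈ D, ∃ ρ : ℂ, F (E d) P S (co d) ρ = 0 ∧ 1 / 4 ≤ ρ.re ∧
        ρ.re ≤ 1 - δ ∧ |ρ.im| ≤ (X : ℝ) ^ (c * δ)) → (D.card : ℝ) ≤ C * (X : ℝ) ^ (1 - c * δ) :=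
  Q240.GS.twist_left a b hab (fun g => (E g).N) (fun g => (E g).f) (fun g => (E g).Λ)
    (fun g hg => by
      obtain ⟨h1, h2⟩ := hE g hg
      rw [← h1, ← h2]
      exact toY (E g))
    (fun g _ => (E g).completed)

end Pool.Agent.Results.MP_553913_nt.TwistLeftZeros
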