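import Pool.Agent.Q286.TR.Ent
import Pool.Agent.W263.BSD.Curve
import Pool.Agent.W540.BE.EC

/-!
# The zeros of `L(E, s)` in a triangle, from the traces of Frobenius

Let `E : y² = x³ + a x + b` and let `F` be the (entire) L-function of `E` without the Euler factors at the
primes dividing `2 (4 a³ + 27 b²)`.  For the other primes `p` let `t_k(p)` be the trace of the `k`-th power
of Frobenius, `t_0 = 2`, `t_1 = a_p`, `t_(k+2) = a_p t_(k+1) - p t_k`; so `#E(F_(p^k)) = p^k + 1 - t_k(p)`.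
Fix `γ > π/2` and a slope `τ > 0` and put `K(u) = Im (cos (γ (1 + iτ) u) / Γ(1 + (1 + iτ) u))`.  For
`σ ≥ 1/2` and real `t` we prove

  `A(X) = ∑_p ∑_(k ≥ 1) t_k(p) cos (k t log p) / (k p^(kσ)) · K(k log p / log X) = π Z + O(1 / log X)`,

where `Z` is the number of zeros of `F` in the triangle `|Im ρ - t| ≤ τ (Re ρ - σ)`, with multiplicities, the
zeros on the two sides through the apex `σ + i t` being counted with weight `1/2` and a zero at the apex
with weight `arctan τ / π`.  The same series with `sin` in place of `cos` is `O(1 / log X)`.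

In particular (`σ = 1`, `t = 0`) `A(X) → arctan τ · ord_(s=1) L(E, s) + π Z'`, with `Z'` the number of zeros to
the right of `1` in the triangle, and `F` has no zero in `Re s > σ₁` if and only if `A(X) → 0` for all rational
`σ > σ₁` and all rational `t`.
-/

set_option autoImplicit false

open Filter Topology Complex Set

namespace Pool.Agent.Results.MP_553913_nt.ZerosInTriangles

/-- the number of pairs `(x, y) ∈ (ℤ/p)²` with `y² = x³ + a x + b` -/
noncomputable def points (a b : ℤ) (p : ℕ) : ℕ :=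
  Nat.card {q : ZMod p × ZMod p // q.2 ^ 2 = q.1 ^ 3 + (a : ZMod p) * q.1 + (b : ZMod p)}

/-- `a_p = p - N_p` -/
noncomputable def ap (a b : ℤ) (p : ℕ) : ℤ := (p : ℤ) - points a b p

/-- the primes not dividing `2 (4 a³ + 27 b²)` -/
def Good (a b : ℤ) (p : ℕ) : Prop := p.Prime ∧ ¬ ((p : ℤ) ∣ 2 * (4 * a ^ 3 + 27 * b ^ 2))

/-- the traces of the powers of Frobenius: `t_0 = 2`, `t_1 = a_p`, `t_(k+2) = a_p t_(k+1) - p t_k` -/
noncomputable def tr (a b : ℤ) (p : ℕ) : ℕ → ℤ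
  | 0 => 2
  | 1 => ap a b p
  | k + 2 => ap a b p * tr a b p (k + 1) - p * tr a b p k

/-- `F` is entire and equals the Euler product over the good primes for `Re s > 3/2` -/
def IsL (a b : ℤ) (F : ℂ → ℂ) : Prop :=
  Differentiable ℂ F ∧ ∀ s : ℂ, (3 : ℝ) / 2 < s.re →
    F s = ∏' p : {p : ℕ // Good a b p},
      (1 - (ap a b p : ℂ) * ((p : ℕ) : ℂ) ^ (-s) + ((p : ℕ) : ℂ) * ((p : ℕ) : ℂ) ^ (-2 * s))⁻¹

/-- the kernel `K(u) = Im (cos (γ (1 + iτ) u) / Γ(1 + (1 + iτ) u))` -/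
noncomputable def K (γ τ u : ℝ) : ℝ :=
  (Complex.cos (γ * ((1 + τ * I) * u)) / Complex.Gamma (1 + (1 + τ * I) * u)).im

/-- the term of `A` at `p` and `k = n + 1` -/
noncomputable def termA (a b : ℤ) (γ τ σ t X : ℝ) (x : {p : ℕ // Good a b p} × ℕ) : ℝ :=
  (tr a b x.1 (x.2 + 1) : ℝ) * Real.cos (((x.2 + 1 : ℕ) : ℝ) * t * Real.log (x.1 : ℕ)) /
    (((x.2 + 1 : ℕ) : ℝ) * ((x.1 : ℕ) : ℝ) ^ (((x.2 + 1 : ℕ) : ℝ) * σ)) *
    K γ τ (((x.2 + 1 : ℕ) : ℝ) * Real.log (x.1 : ℕ) / Real.log X)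

/-- the term of `B` at `p` and `k = n + 1` -/
noncomputable def termB (a b : ℤ) (γ τ σ t X : ℝ) (x : {p : ℕ // Good a b p} × ℕ) : ℝ :=
  (tr a b x.1 (x.2 + 1) : ℝ) * Real.sin (((x.2 + 1 : ℕ) : ℝ) * t * Real.log (x.1 : ℕ)) /
    (((x.2 + 1 : ℕ) : ℝ) * ((x.1 : ℕ) : ℝ) ^ (((x.2 + 1 : ℕ) : ℝ) * σ)) *
    K γ τ (((x.2 + 1 : ℕ) : ℝ) * Real.log (x.1 : ℕ) / Real.log X)

/-- the series with the cosine -/
noncomputable def A (a b : ℤ) (γ τ σ t X : ℝ) : ℝ := ∑' x, termA a b γ τ σ t X x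

/-- the series with the sine -/
noncomputable def B (a b : ℤ) (γ τ σ t X : ℝ) : ℝ := ∑' x, termB a b γ τ σ t X x

/-- the weight of `z` for the sector with apex `0` and slopes `± τ`: `1` in the interior, `1/2` on the
sides, `arctan τ / π` at the apex, `0` outside -/
noncomputable def weight (τ : ℝ) (z : ℂ) : ℝ :=
  if z = 0 then Real.arctan τ / Real.pi else
    if |z.im| < τ * z.re then 1 else if |z.im| = τ * z.re then 1 / 2 else 0

/-- the zeros of `F` in the triangle with apex `σ + i t`, with multiplicities and weights -/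
noncomputable def zeros (F : ℂ → ℂ) (τ σ t : ℝ) : ℝ :=
  ∑ᶠ ρ : ℂ, weight τ (ρ - (σ + t * I)) * (analyticOrderNatAt F ρ : ℝ)

/-- the zeros of `F` in the triangle with apex `1`, without the apex -/
noncomputable def zerosRight (F : ℂ → ℂ) (τ : ℝ) : ℝ :=
  ∑ᶠ ρ : ℂ, (if ρ = 1 then 0 else weight τ (ρ - 1)) * (analyticOrderNatAt F ρ : ℝ)

open Pool.Agent.Q286.ZR Pool.Agent.Q286.RL Pool.Agent.Q286.TR
open Pool.Agent.W189.LC

theorem K_eq (γ τ u : ℝ) : K γ τ u = kt γ τ u := by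
  unfold K kt kk mu
  rw [div_eq_mul_inv]

theorem hasse {a b : ℤ} {p : ℕ} (h : Good a b p) : |(ap a b p : ℝ)| ≤ 2 * √p := by
  have hg : Pool.Agent.W263.BSD.GoodPrime a b p := by
    refine ⟨h.1, fun hd => h.2 ?_⟩
    have e : (2 * (4 * a ^ 3 + 27 * b ^ 2) : ℤ) = -(2 * (-4 * a ^ 3 - 27 * b ^ 2)) := by ring
    rw [e, dvd_neg]
    exact hd
  have e : (ap a b p : ℝ) = (p : ℝ) - Pool.Agent.W263.BSD.pointCount a b p := by
    unfold ap
    push_cast
    rfl
  rw [e]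
  rcases Nat.lt_or_ge p 5 with h5 | h5
  · -- `p = 3`
    have hp2 : p ≠ 2 := by
      rintro rfl
      exact h.2 ⟨_, rfl⟩
    have hp4 : p ≠ 4 := by
      rintro rfl
      exact absurd h.1 (by norm_num)
    have hp3 : p = 3 := by
      have := h.1.two_le
      omega
    subst hp3
    have hc : Pool.Agent.W263.BSD.pointCount a b 3 ≤ 6 := by
      have hle : ∀ a b : ZMod 3, (Finset.univ.filter fun q : ZMod 3 × ZMod 3 =>
          q.2 ^ 2 = q.1 ^ 3 + a * q.1 + b).card ≤ 6 := by decide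
      unfold Pool.Agent.W263.BSD.pointCount
      rw [Nat.card_eq_fintype_card, Fintype.card_subtype]
      exact hle _ _
    have hc' : (Pool.Agent.W263.BSD.pointCount a b 3 : ℝ) ≤ 6 := by exact_mod_cast hc
    have hc0 : (0 : ℝ) ≤ Pool.Agent.W263.BSD.pointCount a b 3 := Nat.cast_nonneg _
    have h3 : (3 / 2 : ℝ) ≤ √((3 : ℕ) : ℝ) := by
      rw [Real.le_sqrt' (by norm_num)]
      norm_num
    rw [abs_le]
    constructor <;> push_cast at * <;> linarith
  · exact Pool.Agent.W263.BSD.hasse hg h5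

theorem exists_alpha (a b : ℤ) : ∃ α : {p : ℕ // Good a b p} → Fin 2 → ℂ, ∀ v,
    (∀ j, ‖α v j‖ = ((v : ℕ) : ℝ) ^ (1 / 2 : ℝ)) ∧ α v 0 + α v 1 = (ap a b v : ℂ) ∧
      α v 0 * α v 1 = ((v : ℕ) : ℂ) := by
  have hex : ∀ v : {p : ℕ // Good a b p}, ∃ α : Fin 2 → ℂ,
      (∀ j, ‖α j‖ = ((v : ℕ) : ℝ) ^ (1 / 2 : ℝ)) ∧ α 0 + α 1 = (ap a b v : ℂ) ∧
      α 0 * α 1 = ((v : ℕ) : ℂ) := by
    intro v
    have hpos : (0 : ℝ) < (v : ℕ) := by exact_mod_cast v.2.1.pos
    obtain ⟨α, h1, h2, h3⟩ := Pool.Agent.W540.BE.exists_roots hpos (hasse v.2)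
    refine ⟨α, h1, ?_, ?_⟩
    · rw [h2]; simp
    · rw [h3]; simp
  choose α hα using hex
  exact ⟨α, hα⟩

theorem tr_eq {a b : ℤ} {p : ℕ} {x y : ℂ} (h1 : x + y = (ap a b p : ℂ)) (h2 : x * y = (p : ℂ)) :
    ∀ k : ℕ, x ^ k + y ^ k = (tr a b p k : ℂ) := by
  have key : ∀ k : ℕ, x ^ k + y ^ k = (tr a b p k : ℂ) ∧
      x ^ (k + 1) + y ^ (k + 1) = (tr a b p (k + 1) : ℂ) := by
    intro k
    induction k with
    | zero =>
      refine ⟨?_, ?_⟩
      · simp [tr]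
        norm_num
      · simp [tr, h1]
    | succ k ih =>
      refine ⟨ih.2, ?_⟩
      have e : (tr a b p (k + 2) : ℂ) = (ap a b p : ℂ) * tr a b p (k + 1) - p * tr a b p k := by
        have : tr a b p (k + 2) = ap a b p * tr a b p (k + 1) - p * tr a b p k := rfl
        rw [this]
        push_cast
        ring
      rw [e, ← ih.1, ← ih.2, ← h1, ← h2]
      ring
  exact fun k => (key k).1

theorem pow_eq {p : ℕ} (hp : 0 < p) (σ t : ℝ) (n : ℕ) :
    (((p : ℂ) ^ (-((σ : ℂ) + t * I))) ^ (n + 1)) / ((n + 1 : ℕ) : ℂ) =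
      ((1 / (((n + 1 : ℕ) : ℝ) * (p : ℝ) ^ (((n + 1 : ℕ) : ℝ) * σ)) : ℝ) : ℂ) *
        exp (((-(((n + 1 : ℕ) : ℝ) * t * Real.log p) : ℝ) : ℂ) * I) := by
  have hpc : (p : ℂ) ≠ 0 := by exact_mod_cast hp.ne'
  have hpr : (0 : ℝ) < p := by exact_mod_cast hp
  rw [Complex.cpow_def_of_ne_zero hpc, ← Complex.exp_nat_mul, ← Complex.natCast_log,
    Real.rpow_def_of_pos hpr]
  have e : ((n + 1 : ℕ) : ℂ) * ((Real.log p : ℂ) * (-((σ : ℂ) + t * I))) =
      ((-(Real.log p * (((n + 1 : ℕ) : ℝ) * σ)) : ℝ) : ℂ) +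
        ((-(((n + 1 : ℕ) : ℝ) * t * Real.log p) : ℝ) : ℂ) * I := by
    push_cast
    ring
  rw [e, Complex.exp_add, ← Complex.ofReal_exp, Real.exp_neg]
  push_cast
  rw [one_div, mul_inv, div_eq_mul_inv]
  ring

/-- **Theorem.** Let `E : y² = x³ + a x + b`, let the entire function `F` be its L-function over the good
primes, `γ > π/2` and `τ > 0`.

(a) For `σ ≥ 1/2` and real `t` the triangle `|Im ρ - t| ≤ τ (Re ρ - σ)` contains only finitely many zeros
of `F`; for large `X` the two series converge absolutely, `A(X) = π zeros + O(1 / log X)` and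
`B(X) = O(1 / log X)`.

(b) `A(X)` with `σ = 1`, `t = 0` tends to `arctan τ · ord_(s=1) F + π zerosRight`.

(c) For `σ₁ ≥ 1/2`: `F(s) ≠ 0` for `Re s > σ₁` if and only if `A(X) → 0` for all rational `σ > σ₁` and `t`. -/
theorem result (a b : ℤ) (F : ℂ → ℂ) (hF : IsL a b F) (γ τ : ℝ) (hγ : Real.pi / 2 < γ)
    (hτ : 0 < τ) :
    (∀ σ t : ℝ, 1 / 2 ≤ σ →
      {ρ : ℂ | F ρ = 0 ∧ |ρ.im - t| ≤ τ * (ρ.re - σ)}.Finite ∧
      ∃ C X₀ : ℝ, ∀ X ≥ X₀,
        Summable (fun x => |termA a b γ τ σ t X x|) ∧ Summable (fun x => |termB a b γ τ σ t X x|) ∧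
        |A a b γ τ σ t X - Real.pi * zeros F τ σ t| ≤ C / Real.log X ∧
        |B a b γ τ σ t X| ≤ C / Real.log X) ∧
    (Tendsto (A a b γ τ 1 0) atTop
      (𝓝 (Real.arctan τ * analyticOrderNatAt F 1 + Real.pi * zerosRight F τ))) ∧
    (∀ σ₁ : ℝ, 1 / 2 ≤ σ₁ →
      ((∀ s : ℂ, σ₁ < s.re → F s ≠ 0) ↔
        ∀ σ t : ℚ, σ₁ < σ → Tendsto (A a b γ τ σ t) atTop (𝓝 0))) := by
  obtain ⟨hFd, hFp⟩ := hF
  obtain ⟨α, hα⟩ := exists_alpha a b
  have hsre : ∀ σ t : ℝ, ((σ : ℂ) + t * I).re = σ := fun σ t => by simp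
  have hsim : ∀ σ t : ℝ, ((σ : ℂ) + t * I).im = t := fun σ t => by simp
  set q : {p : ℕ // Good a b p} → ℝ := fun v => ((v : ℕ) : ℝ) with hq
  set th : ℂ → {p : ℕ // Good a b p} → Fin 2 → ℂ := fun s v j => α v j * ((v : ℕ) : ℂ) ^ (-s) with hth
  have hsum : ∀ σ : ℝ, 1 < σ → Summable fun v : {p : ℕ // Good a b p} => q v ^ (-σ) := by
    intro σ hσ
    have h1 : Summable fun n : ℕ => (n : ℝ) ^ (-σ) := Real.summable_nat_rpow.2 (by linarith)
    exact h1.comp_injective Subtype.coe_injective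
  have hED : ∀ s : ℂ, 1 / 2 ≤ s.re → ED q (th s) := by
    intro s hs
    refine ⟨fun v => by
      show (2 : ℝ) ≤ ((v : ℕ) : ℝ)
      exact_mod_cast v.2.1.two_le, hsum, fun v j => ?_⟩
    have hp1 : (1 : ℝ) ≤ (v : ℕ) := by exact_mod_cast v.2.1.one_le
    have hp0 : (0 : ℝ) < (v : ℕ) := by linarith
    rw [hth]
    simp only
    rw [norm_mul, (hα v).1, Complex.norm_natCast_cpow_of_pos v.2.1.pos, Complex.neg_re,
      ← Real.rpow_add hp0]
    have : ((v : ℕ) : ℝ) ^ ((1 : ℝ) / 2 + -s.re) ≤ 1 :=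
      Real.rpow_le_one_of_one_le_of_nonpos hp1 (by linarith)
    linarith
  have hfac : ∀ (s w : ℂ) (v : {p : ℕ // Good a b p}),
      ∏ j, (1 - th s v j * (q v : ℂ) ^ (-w))⁻¹ =
      (1 - (ap a b v : ℂ) * ((v : ℕ) : ℂ) ^ (-(s + w)) +
        ((v : ℕ) : ℂ) * ((v : ℕ) : ℂ) ^ (-2 * (s + w)))⁻¹ := by
    intro s w v
    have hpc : (((v : ℕ) : ℕ) : ℂ) ≠ 0 := by exact_mod_cast v.2.1.ne_zero
    rw [Fin.prod_univ_two, ← mul_inv]
    congr 1
    rw [hth, hq]
    simp only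
    obtain ⟨-, h1, h2⟩ := hα v
    have e1 : ((v : ℕ) : ℂ) ^ (-(s + w)) = ((v : ℕ) : ℂ) ^ (-s) * ((v : ℕ) : ℂ) ^ (-w) := by
      rw [← Complex.cpow_add _ _ hpc]
      congr 1
      ring
    have e2 : ((v : ℕ) : ℂ) ^ (-2 * (s + w)) = (((v : ℕ) : ℂ) ^ (-s) * ((v : ℕ) : ℂ) ^ (-w)) ^ 2 := by
      rw [← e1, sq, ← Complex.cpow_add _ _ hpc]
      congr 1
      ring
    rw [e1, e2, ← h1]
    have e3 : (((((v : ℕ) : ℕ) : ℝ)) : ℂ) = ((v : ℕ) : ℂ) := by push_cast; rfl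
    rw [e3]
    linear_combination (((v : ℕ) : ℂ) ^ (-s) * ((v : ℕ) : ℂ) ^ (-w)) ^ 2 * h2
  have hprod : ∀ s : ℂ, 1 / 2 ≤ s.re → ∀ w : ℂ, 1 < w.re →
      HasProd (fun v => ∏ j, (1 - th s v j * (q v : ℂ) ^ (-w))⁻¹) (F (s + w)) := by
    intro s hs w hw
    have h1 := (hED s hs).hasProd hw
    have h2 := hFp (s + w) (by rw [Complex.add_re]; linarith)
    have h3 : F (s + w) = exp (cser (fr q) (ec (th s)) w) := by
      rw [h2, ← h1.tprod_eq]
      exact tprod_congr fun v => (hfac s w v).symm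
    rw [h3]
    exact h1
  have hne : ∀ z : ℂ, (3 : ℝ) / 2 < z.re → F z ≠ 0 := by
    intro z hz
    have h1 := hprod (z - (((z.re - 1 / 2 : ℝ)) : ℂ)) (by simp) (((z.re - 1 / 2 : ℝ)) : ℂ)
      (by simp; linarith)
    have h2 := (hED (z - (((z.re - 1 / 2 : ℝ)) : ℂ)) (by simp)).hasProd
      (w := (((z.re - 1 / 2 : ℝ)) : ℂ)) (by simp; linarith)
    have h3 := h1.unique h2
    rw [sub_add_cancel] at h3
    rw [h3]
    exact Complex.exp_ne_zero _
  -- the terms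
  have hterm : ∀ (σ t : ℝ) (x : {p : ℕ // Good a b p} × ℕ), ec (th ((σ : ℂ) + t * I)) x =
      (((tr a b x.1 (x.2 + 1) : ℝ) /
        (((x.2 + 1 : ℕ) : ℝ) * ((x.1 : ℕ) : ℝ) ^ (((x.2 + 1 : ℕ) : ℝ) * σ)) : ℝ) : ℂ) *
        exp (((-(((x.2 + 1 : ℕ) : ℝ) * t * Real.log (x.1 : ℕ)) : ℝ) : ℂ) * I) := by
    intro σ t x
    unfold ec
    rw [Fin.sum_univ_two, hth]
    simp only
    rw [mul_pow, mul_pow, ← add_mul, tr_eq (hα x.1).2.1 (hα x.1).2.2, mul_div_assoc,
      pow_eq x.1.2.1.pos, div_eq_mul_one_div (tr a b x.1 (x.2 + 1) : ℝ)]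
    push_cast
    ring
  have hfr : ∀ (x : {p : ℕ // Good a b p} × ℕ) (T : ℝ), fr q x / T =
      ((x.2 + 1 : ℕ) : ℝ) * Real.log (x.1 : ℕ) / T := by
    intro x T
    unfold fr
    push_cast
    rfl
  have law : ∀ σ t : ℝ, 1 / 2 ≤ σ → ∃ C X₀ : ℝ, ∀ X ≥ X₀,
        Summable (fun x => |termA a b γ τ σ t X x|) ∧ Summable (fun x => |termB a b γ τ σ t X x|) ∧
        |A a b γ τ σ t X - Real.pi * zeros F τ σ t| ≤ C / Real.log X ∧
        |B a b γ τ σ t X| ≤ C / Real.log X := by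
    intro σ t hσ
    have hs : 1 / 2 ≤ ((σ : ℂ) + t * I).re := by rw [hsre]; exact hσ
    obtain ⟨C, T₀, hC, hT₀, h⟩ := ent_tri (hED _ hs) hFd hτ ((σ : ℂ) + t * I) (hprod _ hs) hγ
    refine ⟨C, Real.exp T₀, fun X hX => ?_⟩
    have hX0 : 0 < X := (Real.exp_pos _).trans_le hX
    obtain ⟨h1, h2⟩ := h (Real.log X) ((Real.le_log_iff_exp_le hX0).2 hX)
    have hA : HasSum (termA a b γ τ σ t X)
        (tmn (fr q) (ec (th ((σ : ℂ) + t * I))) γ τ (Real.log X)).re := by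
      refine (Complex.hasSum_re h1).congr_fun fun x => ?_
      rw [Complex.re_mul_ofReal, hterm, Complex.re_ofReal_mul, Complex.exp_ofReal_mul_I_re,
        Real.cos_neg, hfr]
      unfold termA
      rw [K_eq]
      ring
    have hB : HasSum (fun x => -termB a b γ τ σ t X x)
        (tmn (fr q) (ec (th ((σ : ℂ) + t * I))) γ τ (Real.log X)).im := by
      refine (Complex.hasSum_im h1).congr_fun fun x => ?_
      rw [Complex.im_mul_ofReal, hterm, Complex.im_ofReal_mul, Complex.exp_ofReal_mul_I_im,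
        Real.sin_neg, hfr]
      unfold termB
      rw [K_eq]
      ring
    have hB' : HasSum (termB a b γ τ σ t X)
        (-(tmn (fr q) (ec (th ((σ : ℂ) + t * I))) γ τ (Real.log X)).im) := by
      have := hB.neg
      simpa using this
    refine ⟨hA.summable.abs, hB'.summable.abs, ?_, ?_⟩
    · have h3 := (Complex.abs_re_le_norm _).trans h2
      rw [Complex.sub_re, Complex.ofReal_re] at h3
      unfold A
      rw [hA.tsum_eq]
      exact h3
    · have h3 := (Complex.abs_im_le_norm _).trans h2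
      rw [Complex.sub_im, Complex.ofReal_im, sub_zero] at h3
      unfold B
      rw [hB'.tsum_eq, abs_neg]
      exact h3
  have lim : ∀ σ t : ℝ, 1 / 2 ≤ σ →
      Tendsto (A a b γ τ σ t) atTop (𝓝 (Real.pi * zeros F τ σ t)) := by
    intro σ t hσ
    obtain ⟨C, X₀, h⟩ := law σ t hσ
    have h3 : Tendsto (fun X : ℝ => C / Real.log X) atTop (𝓝 0) :=
      Real.tendsto_log_atTop.const_div_atTop C
    rw [tendsto_iff_norm_sub_tendsto_zero]
    refine squeeze_zero' (Eventually.of_forall fun _ => norm_nonneg _) ?_ h3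
    filter_upwards [eventually_ge_atTop X₀] with X hX
    exact (h X hX).2.2.1
  have zer : ∀ σ t : ℝ, zeros F τ σ t = 0 ↔
      ∀ ρ : ℂ, |ρ.im - t| ≤ τ * (ρ.re - σ) → F ρ ≠ 0 := by
    intro σ t
    have h := zsF_eq_zero_iff hFd hne hτ ((σ : ℂ) + t * I)
    have e : zeros F τ σ t = zsF τ F ((σ : ℂ) + t * I) := rfl
    rw [e, h]
    simp only [Complex.sub_re, Complex.sub_im, hsre, hsim]
  have hpi := Real.pi_pos
  refine ⟨fun σ t hσ => ⟨?_, law σ t hσ⟩, ?_, fun σ₁ h0 => ?_⟩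
  · have h := ent_sector_finite hFd hne (s := (σ : ℂ) + t * I) hτ
    simpa only [Complex.sub_re, Complex.sub_im, hsre, hsim] using h
  · have h1 := lim 1 0 (by norm_num)
    have h2 : Real.pi * zeros F τ 1 0 =
        Real.arctan τ * analyticOrderNatAt F 1 + Real.pi * zerosRight F τ := by
      have e0 : ((1 : ℝ) : ℂ) + ((0 : ℝ) : ℂ) * I = 1 := by simp
      have e1 : (fun ρ : ℂ => weight τ (ρ - 1) * (analyticOrderNatAt F ρ : ℝ)) =
          fun ρ => (if ρ = 1 then Real.arctan τ / Real.pi * analyticOrderNatAt F 1 else 0) +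
            (if ρ = 1 then 0 else weight τ (ρ - 1)) * (analyticOrderNatAt F ρ : ℝ) := by
        funext ρ
        by_cases h : ρ = 1
        · rw [if_pos h, if_pos h, h, zero_mul, add_zero]
          unfold weight
          rw [if_pos (sub_self _)]
        · rw [if_neg h, if_neg h, zero_add]
      have hfin := zsF_supp hFd hne hτ 1
      unfold zeros zerosRight
      rw [e0, e1, finsum_add_distrib, finsum_eq_single _ (1 : ℂ) (fun x hx => if_neg hx), if_pos rfl,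
        mul_add]
      · congr 1
        field_simp
      · refine (Set.finite_singleton (1 : ℂ)).subset fun ρ hρ => ?_
        rw [Function.mem_support] at hρ
        by_contra h
        exact hρ (if_neg h)
      · refine hfin.subset fun ρ hρ => ?_
        rw [Function.mem_support] at hρ ⊢
        by_cases h : ρ = 1
        · rw [if_pos h, zero_mul] at hρ
          exact absurd rfl hρ
        · rw [if_neg h] at hρ
          exact hρ
    rw [h2] at h1
    exact h1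
  · constructor
    · intro h σ t hσ
      have h2 : zeros F τ (σ : ℝ) (t : ℝ) = 0 := by
        rw [zer]
        intro ρ hρ
        refine h ρ ?_
        have h3 : 0 ≤ ρ.re - σ := nonneg_of_mul_nonneg_right ((abs_nonneg _).trans hρ) hτ
        linarith
      have h3 := lim (σ : ℝ) (t : ℝ) (h0.trans hσ.le)
      rwa [h2, mul_zero] at h3
    · intro h s hs h4
      obtain ⟨σ, hσ1, hσ2⟩ := exists_rat_btwn hs
      have hd : 0 < τ * (s.re - σ) := mul_pos hτ (by linarith)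
      obtain ⟨t, ht1, ht2⟩ := exists_rat_btwn (show s.im - τ * (s.re - σ) < s.im by linarith)
      have h5 := h σ t hσ1
      have h6 := lim (σ : ℝ) (t : ℝ) (h0.trans hσ1.le)
      have h7 := tendsto_nhds_unique h5 h6
      have h8 : zeros F τ (σ : ℝ) (t : ℝ) = 0 := (mul_eq_zero.1 h7.symm).resolve_left hpi.ne'
      rw [zer] at h8
      refine h8 s ?_ h4
      rw [abs_of_pos (by linarith)]
      linarith

end Pool.Agent.Results.MP_553913_nt.ZerosInTriangles
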