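import Mathlib
import Pool.Agent.Q219.ST.Rel
import Pool.Agent.Q219.NS.Defs
import Pool.Agent.Q219.NS.Main
import Pool.Agent.Q219.NS.Gen

/-!
# The defects in the formula of Tate for `A × Z`, with `A` outside of a thin subset of a Newton stratum

For a smooth projective variety `X` over a finite field let `p_c(X)` be the order of the pole of the
zeta function of `X` at `s = c` (`poleOrder`), and let `ρ_c(X)` be the rank of the group of cycles of
codimension `c` modulo numerical equivalence (`numRank`). One knows that `ρ_c(X) ≤ p_c(X)`, and the
formula of Tate is the equality. The difference is the defect of `X`.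

Fix a prime `p`, a nonempty finite set `κ`, dimensions `g i ≥ 1` and, for each `i`, a symmetric
Newton polygon with slopes `s i j` and `1 - s i j` (`j < g i`, increasing in `j`, between `0` and
`1 / 2`, with integral break points: `IsPolygon (s i)`) whose smallest slope is at most `σ < 1 / 2`;
so it is any Newton polygon that is not the supersingular one. `NewtonStratum g s p a` is the set
of families of isogeny classes of abelian varieties `A_i` of dimension `g i` over the field with
`p ^ a` elements having these Newton polygons: by the theorem of Honda and Tate it consists of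
families of characteristic polynomials of Frobenius. Fix also a number field `E` in the complex
numbers and a number `r` which is smaller than all the dimensions `g i`.

We prove that the number of elements of `NewtonStratum g s p a` tends to infinity with `a`, and that
for all members, except for at most

  `C * a * p ^ (- a (1 - 2 σ) / 6) * |NewtonStratum g s p a|`

(`C` depends on `p`, `g`, `s`, `σ`, `E`, `r` only), the following is true (`DefectTimes`).

Let `A` be an abelian variety over a finite extension of the field with `p ^ a` elements, isogenous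
to a product of powers of the `A_i`. Let `Z` be **any** smooth projective variety over the same
field, such that for each eigenvalue of its Frobenius endomorphism on the cohomology the conjugates
lie, up to powers, in a group generated by nonzero elements of `E` and `r` numbers (the `r` numbers
may depend on the eigenvalue). Then

* the formula of Tate holds for `A`, and `ρ_i(A) > 0` for `0 ≤ i ≤ dim A`;
* `ρ_c(A × Z) = ∑ ρ_i(A) ρ_{c - i}(Z)` and `p_c(A × Z) = ∑ ρ_i(A) p_{c - i}(Z)`, sums over
  `0 ≤ i ≤ dim A`, for all `c`; so the defect of `A × Z` in codimension `c` is the sum of the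
  defects of `Z` in the codimensions `c - i`, with the multiplicities `ρ_i(A)`;
* the formula of Tate holds for `A × Z` in codimension `c` **if and only if** it holds for `Z` in
  the codimensions `c - i`, `0 ≤ i ≤ dim A`.

Nothing is assumed on the cycles on `Z` or `A × Z`.
-/

set_option autoImplicit false

namespace Pool.Agent.Results.MP_557161_ag.NewtonStrataDefects

open Polynomial Pool.Agent.W518.DN Pool.Agent.Q219.NS Pool.Agent.Q219.ST

theorem stratum_eq {κ : Type} (g : κ → ℕ) (s : ∀ i, Fin (g i) → ℚ) (p : ℕ) [Fact p.Prime]
    (a : ℕ) : NewtonStratum g s p a = Stratum g s p a := rfl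

/-- **The defects in the formula of Tate for `A × Z`, for all `A` outside of a thin subset of a Newton
stratum and all `Z` of small rank.** -/
theorem result {κ : Type} [Fintype κ] [Nonempty κ] (p : ℕ) [Fact p.Prime]
    -- dimensions and Newton polygons
    (g : κ → ℕ) (s : ∀ i, Fin (g i) → ℚ) (hs : ∀ i, IsPolygon (s i))
    -- the smallest slopes
    (σ : ℚ) (hσ : ∀ i (h : 0 < g i), s i ⟨0, h⟩ ≤ σ) (hσ2 : σ < 1 / 2)
    -- the number field and the rank
    (E : IntermediateField ℚ ℂ) [FiniteDimensional ℚ E] (r : ℕ) (hr : ∀ i, r < g i) :
    (∀ N : ℕ, ∃ a₀ : ℕ, ∀ a, a₀ ≤ a →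
      (NewtonStratum g s p a).Finite ∧ N ≤ (NewtonStratum g s p a).ncard) ∧
    ∃ C : ℝ, 0 < C ∧ ∀ a : ℕ, 0 < a →
      ({P ∈ NewtonStratum g s p a | ¬ DefectTimes E r (p ^ a) P}.ncard : ℝ) ≤
        C * (a * (p : ℝ) ^ (-((a : ℝ) * (1 - 2 * σ) / 6))) *
          ((NewtonStratum g s p a).ncard : ℝ) := by
  classical
  have hg : ∀ i, 1 ≤ g i := fun i => (Nat.zero_le r).trans_lt (hr i)
  have hs' : ∀ i, IsNewton (s i) := fun i => ⟨(hs i).mono, (hs i).nonneg, (hs i).le_half,
    (hs i).integral⟩
  simp only [stratum_eq]
  refine ⟨fun N => ?_, ?_⟩
  · obtain ⟨a₀, h⟩ := density g s p hg hs' (fun i => ⟨⟨0, hg i⟩, (hσ i (hg i)).trans_lt hσ2⟩)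
      N 1 one_pos
    exact ⟨a₀, fun a ha => ⟨(h a ha).1, (h a ha).2.1⟩⟩
  · obtain ⟨C, hC, h⟩ := count_strata g s p (Pool.Agent.W484.TB.splitPrimes E)
      (Pool.Agent.W484.TB.dense_splitPrimes E) hg hs' σ hσ hσ2
    refine ⟨C, hC, fun a ha => h a ha (DefectTimes E r (p ^ a)) fun f hm hd hf => ?_⟩
    have hp : p.Prime := Fact.out
    exact defectTimes_of E r (Nat.one_lt_pow ha.ne' hp.one_lt)
      (noRel_good E (pow_ne_zero _ hp.ne_zero) r f hm (fun i => by rw [hd i]; exact hr i) hf)

end Pool.Agent.Results.MP_557161_ag.NewtonStrataDefects
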