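import Mathlib
import Pool.Agent.Q177.WThetaB

/-!
# MP_55e6a3_gt: perfect images of weakly θ-refinable spaces are weakly θ-refinable
-/

set_option autoImplicit false

universe u v

namespace Pool.Agent.Results.MP_55e6a3_gt.PerfectImages

open Set Topology

/-- `X` is weakly θ-refinable: every open cover `𝒰` has an open refinement which is a union of
countably many families `𝒱 n` of open sets such that every point lies in at least one and in only
finitely many members of some `𝒱 n` (in particular the union of the `𝒱 n` is a cover). -/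
def WeaklyThetaRefinable (X : Type u) [TopologicalSpace X] : Prop :=
  ∀ 𝒰 : Set (Set X), (∀ U ∈ 𝒰, IsOpen U) → ⋃₀ 𝒰 = univ →
    ∃ 𝒱 : ℕ → Set (Set X), (∀ n, ∀ V ∈ 𝒱 n, IsOpen V ∧ ∃ U ∈ 𝒰, V ⊆ U) ∧
      ∀ x, ∃ n, {V ∈ 𝒱 n | x ∈ V}.Nonempty ∧ {V ∈ 𝒱 n | x ∈ V}.Finite

/-- A perfect mapping: a continuous closed surjection all of whose fibres are compact. -/
structure PerfectMapping {X : Type u} {Y : Type v} [TopologicalSpace X] [TopologicalSpace Y]
    (f : X → Y) : Prop where
  continuous : Continuous f
  surjective : Function.Surjective f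
  isClosedMap : IsClosedMap f
  isCompact_fiber : ∀ y : Y, IsCompact (f ⁻¹' {y})

/-- Every perfect image of a weakly θ-refinable space is weakly θ-refinable. No separation axioms
are assumed. -/
theorem result (X : Type u) (Y : Type v) [TopologicalSpace X] [TopologicalSpace Y] (f : X → Y)
    (hX : WeaklyThetaRefinable X) (hf : PerfectMapping f) : WeaklyThetaRefinable Y :=
  Q177.WTheta.perfect_image hX hf.continuous hf.surjective hf.isClosedMap hf.isCompact_fiber

end Pool.Agent.Results.MP_55e6a3_gt.PerfectImages
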