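import Pool.Agent.Q214.WR.D

set_option autoImplicit false

/-!
The countable-or-perfect dichotomy is preserved by wreath products of actions of Polish groups, and
by sums over countable linear orders.
-/

namespace Pool.Agent.Results.MP_5607ba_lc.WreathProducts

open MeasureTheory

/-- `V` meets countably many classes of `R`, or there is a Borel map from the Cantor space to `V`
with pairwise `R`-inequivalent values. -/
def Dichotomy {Z : Type} [MeasurableSpace Z] (R : Z → Z → Prop) (V : Set Z) : Prop :=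
  (∃ S ⊆ V, S.Countable ∧ ∀ y ∈ V, ∃ z ∈ S, R y z) ∨
    ∃ f : (ℕ → Bool) → Z, Measurable f ∧ (∀ b, f b ∈ V) ∧ ∀ b b', b ≠ b' → ¬ R (f b) (f b')

/-- All Borel sets which are invariant under `R` satisfy the dichotomy. -/
def Hereditary {Z : Type} [MeasurableSpace Z] (R : Z → Z → Prop) : Prop :=
  ∀ V : Set Z, MeasurableSet V → (∀ z ∈ V, ∀ z', R z z' → z' ∈ V) → Dichotomy R V

/-- The orbit equivalence relation of an action of `G` on `X`. -/
def Orbit (G : Type) {X : Type} [SMul G X] (x x' : X) : Prop := ∃ g : G, g • x = x'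

/-- The orbit equivalence relation of the action of `H` on `Y × (I → ℕ)`; `H` acts on `Y` and
permutes `I`. -/
def ColourOrbit (H : Type) {Y I : Type} [SMul H Y] [SMul H I] (z z' : Y × (I → ℕ)) : Prop :=
  ∃ h : H, z'.1 = h • z.1 ∧ ∀ i, z'.2 (h • i) = z.2 i

/-- The orbit equivalence relation of the action of the wreath product `G ≀ H = G ^ I ⋊ H` on
`Y × (I → X)`. -/
def WreathOrbit (G H : Type) {Y I X : Type} [SMul H Y] [SMul H I] [SMul G X]
    (z z' : Y × (I → X)) : Prop :=
  ∃ (h : H) (g : I → G), z'.1 = h • z.1 ∧ ∀ i, z'.2 (h • i) = g i • z.2 i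

/-- Linear orders on `ℕ` with a second binary relation. -/
abbrev Skeleton : Type := (ℕ → ℕ → Bool) × (ℕ → ℕ → Bool)

/-- `x.1` is a strict linear order and `x.2` is a monotone relation: it is preserved when its
first argument decreases or its second argument increases. -/
structure MonotoneOrder (x : Skeleton) : Prop where
  irrefl : ∀ m, x.1 m m = false
  trans : ∀ m n k, x.1 m n = true → x.1 n k = true → x.1 m k = true
  total : ∀ m n, m ≠ n → x.1 m n = true ∨ x.1 n m = true
  left : ∀ m n k, x.1 m n = true → x.2 n k = true → x.2 m k = true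
  right : ∀ m n k, x.2 m n = true → x.1 n k = true → x.2 m k = true

/-- Isomorphism of linear orders with a monotone relation, whose points carry labels in `X`; the
labels are considered up to the equivalence relation `E`. -/
def LabelledIso {X : Type} (E : X → X → Prop) (z z' : Skeleton × (ℕ → X)) : Prop :=
  ∃ σ : Equiv.Perm ℕ, (∀ m n, z'.1.1 (σ m) (σ n) = z.1.1 m n) ∧
    (∀ m n, z'.1.2 (σ m) (σ n) = z.1.2 m n) ∧ ∀ m, E (z.2 m) (z'.2 (σ m))

/-- (1) Let `G`, `H` be Polish groups, `X` a Borel `G`-space, `Y` a Borel `H`-space and `I` a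
countable set on which `H` acts. If all invariant Borel subsets of `X` and of the `H`-space
`Y × (I → ℕ)` satisfy the dichotomy, then so do all invariant Borel subsets of the
`G ≀ H`-space `Y × (I → X)`.
(2) Let `E` be an analytic equivalence relation on a Polish space `X`, all of whose invariant Borel
sets satisfy the dichotomy. Then the dichotomy holds for all invariant Borel sets of linear orders
with a monotone relation whose points are labelled by classes of `E`.
(3) In particular this is true unconditionally for the orbit equivalence relation of any Borel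
action of a Polish group for which this relation is Borel. -/
theorem result :
    (∀ (G : Type) [TopologicalSpace G] [Group G] [IsTopologicalGroup G] [PolishSpace G]
      [MeasurableSpace G] [BorelSpace G] (X : Type) [MeasurableSpace X] [StandardBorelSpace X]
      [MulAction G X] [MeasurableSMul₂ G X]
      (H : Type) [TopologicalSpace H] [Group H] [IsTopologicalGroup H] [PolishSpace H]
      [MeasurableSpace H] [BorelSpace H] (Y : Type) [MeasurableSpace Y] [StandardBorelSpace Y]
      [MulAction H Y] [MeasurableSMul₂ H Y]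
      (I : Type) [Countable I] [Nonempty I] [MeasurableSpace I] [DiscreteMeasurableSpace I]
      [MulAction H I] [MeasurableSMul₂ H I],
      Hereditary (Orbit G (X := X)) → Hereditary (ColourOrbit H (Y := Y) (I := I)) →
        Hereditary (WreathOrbit G H (Y := Y) (I := I) (X := X))) ∧
    (∀ (X : Type) [TopologicalSpace X] [PolishSpace X] [MeasurableSpace X] [BorelSpace X]
      (E : X → X → Prop), Equivalence E → AnalyticSet {q : X × X | E q.1 q.2} → Hereditary E →
      ∀ V : Set (Skeleton × (ℕ → X)), MeasurableSet V → (∀ z ∈ V, MonotoneOrder z.1) →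
        (∀ z ∈ V, ∀ z', LabelledIso E z z' → z' ∈ V) → Dichotomy (LabelledIso E) V) ∧
    ∀ (G : Type) [TopologicalSpace G] [Group G] [IsTopologicalGroup G] [PolishSpace G]
      [MeasurableSpace G] [BorelSpace G] (X : Type) [MeasurableSpace X] [StandardBorelSpace X]
      [MulAction G X] [MeasurableSMul₂ G X], MeasurableSet {q : X × X | Orbit G q.1 q.2} →
      ∀ V : Set (Skeleton × (ℕ → X)), MeasurableSet V → (∀ z ∈ V, MonotoneOrder z.1) →
        (∀ z ∈ V, ∀ z', LabelledIso (Orbit G) z z' → z' ∈ V) →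
          Dichotomy (LabelledIso (Orbit G (X := X))) V := by
  have part2 : ∀ (X : Type) [TopologicalSpace X] [PolishSpace X] [MeasurableSpace X] [BorelSpace X]
      (E : X → X → Prop), Equivalence E → AnalyticSet {q : X × X | E q.1 q.2} → Hereditary E →
      ∀ V : Set (Skeleton × (ℕ → X)), MeasurableSet V → (∀ z ∈ V, MonotoneOrder z.1) →
        (∀ z ∈ V, ∀ z', LabelledIso E z z' → z' ∈ V) → Dichotomy (LabelledIso E) V := by
    intro X _ _ _ _ E hE hEa hEV V hV hV0 hinv
    have hlab : ∀ z z' : Skeleton × (ℕ → X), Q214.WR.Lab Q214.WR.SkT E z z' ↔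
        LabelledIso E z z' := by
      intro z z'
      constructor
      · rintro ⟨π, ⟨σ, h1, h2, h3⟩, h4⟩
        exact ⟨σ, h2, h3, fun m => by rw [← h1]; exact h4 m⟩
      · rintro ⟨σ, h2, h3, h4⟩
        exact ⟨σ, ⟨σ, fun _ => rfl, h2, h3⟩, h4⟩
    have hsk : PolishSpace Q214.WR.Skel := by
      have i1 : SecondCountableTopology Q214.WR.Skel := inferInstance
      have i2 : TopologicalSpace.IsCompletelyMetrizableSpace Q214.WR.Skel := inferInstance
      exact { toSecondCountableTopology := i1, toIsCompletelyMetrizableSpace := i2 }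
    rcases Q214.WR.core (Y := Q214.WR.Skel) (I := ℕ) Q214.WR.SkT_grp Q214.WR.SkT_analytic hE hEa
      (fun W hW hWi => hEV W hW hWi) (Y0 := {x | Q214.WR.IsMono x})
      (fun W hW hW0 hWi => Q214.WR.skel_nat W hW hW0 hWi) V hV
      (fun z hz => ⟨(hV0 z hz).irrefl, (hV0 z hz).trans, (hV0 z hz).total, (hV0 z hz).left,
        (hV0 z hz).right⟩)
      (fun z hz z' h => hinv z hz z' ((hlab z z').1 h)) with ⟨S, h1, h2, h3⟩ | ⟨f, h1, h2, h3⟩
    · left
      refine ⟨S, h1, h2, fun y hy => ?_⟩
      obtain ⟨z, hz, hL⟩ := h3 y hy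
      exact ⟨z, hz, (hlab _ _).1 hL⟩
    · right
      exact ⟨f, h1, h2, fun b b' hb hc => h3 b b' hb ((hlab _ _).2 hc)⟩
  refine ⟨?_, part2, ?_⟩
  · intro G _ _ _ _ _ _ X _ _ _ _ H _ _ _ _ _ _ Y _ _ _ _ I _ _ _ _ _ _ hX hY V hV hinv
    letI := upgradeStandardBorel X
    letI := upgradeStandardBorel Y
    have hlab : ∀ z z' : Y × (I → X),
        Q214.WR.Lab (Q214.WR.TH H Y I) (fun x x' : X => ∃ g : G, g • x = x') z z' ↔
        WreathOrbit G H z z' := by
      intro z z'
      constructor
      · rintro ⟨π, ⟨h, h1, h2⟩, h4⟩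
        choose g hg using h4
        exact ⟨h, g, h1.symm, fun i => by rw [hg, h2]⟩
      · rintro ⟨h, g, h1, h2⟩
        exact ⟨fun i => h • i, ⟨h, h1.symm, fun _ => rfl⟩, fun i => ⟨g i, (h2 i).symm⟩⟩
    have hlabN : ∀ z z' : Y × (I → ℕ),
        Q214.WR.Lab (Q214.WR.TH H Y I) (fun m n : ℕ => m = n) z z' ↔ ColourOrbit H z z' := by
      intro z z'
      constructor
      · rintro ⟨π, ⟨h, h1, h2⟩, h4⟩
        exact ⟨h, h1.symm, fun i => by rw [← h2]; exact (h4 i).symm⟩
      · rintro ⟨h, h1, h2⟩
        exact ⟨fun i => h • i, ⟨h, h1.symm, fun _ => rfl⟩, fun i => (h2 i).symm⟩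
    rcases Q214.WR.core (X := X) (Y := Y) (I := I) (Q214.WR.TH_grp H Y I)
      (Q214.WR.TH_analytic H Y I) (Q214.WR.orbit_equiv G X) (Q214.WR.orbit_analytic G X)
      (fun W hW hWi => hX W hW hWi) (Y0 := Set.univ)
      (fun W hW _ hWi => by
        rcases hY W hW (fun z hz z' h => hWi z hz z' ((hlabN z z').2 h)) with
          ⟨S, h1, h2, h3⟩ | ⟨f, h1, h2, h3⟩
        · left
          refine ⟨S, h1, h2, fun y hy => ?_⟩
          obtain ⟨z, hz, hL⟩ := h3 y hy
          exact ⟨z, hz, (hlabN _ _).2 hL⟩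
        · right
          exact ⟨f, h1, h2, fun b b' hb hc => h3 b b' hb ((hlabN _ _).1 hc)⟩)
      V hV (fun z _ => Set.mem_univ _)
      (fun z hz z' h => hinv z hz z' ((hlab z z').1 h)) with ⟨S, h1, h2, h3⟩ | ⟨f, h1, h2, h3⟩
    · left
      refine ⟨S, h1, h2, fun y hy => ?_⟩
      obtain ⟨z, hz, hL⟩ := h3 y hy
      exact ⟨z, hz, (hlab _ _).1 hL⟩
    · right
      exact ⟨f, h1, h2, fun b b' hb hc => h3 b b' hb ((hlab _ _).2 hc)⟩
  · intro G _ _ _ _ _ _ X _ _ _ _ hB V hV hV0 hinv
    letI := upgradeStandardBorel X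
    refine part2 X (Orbit G) (Q214.WR.orbit_equiv G X) (Q214.WR.orbit_analytic G X) ?_ V hV hV0 hinv
    intro W hW _
    rcases Pool.Agent.H579R3.SV.silver (E := fun x x' : X => ∃ g : G, g • x = x')
      (Q214.WR.orbit_equiv G X) hB hW.analyticSet with h | ⟨f, h1, h2, h3⟩
    · exact Or.inl h
    · exact Or.inr ⟨f, h1.measurable, h2, h3⟩

end Pool.Agent.Results.MP_5607ba_lc.WreathProducts
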