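import Pool.Agent.Q154.War.Dimin

/-!
# A linear number of `k`-th powers suffices when a few of them are shifted

(1) Let `4 ≤ m ≤ k < 2 ^ j` and let `𝒜` be any set of natural numbers with at least
`c X ^ (1 - (m - 1) / k)` elements up to `X`, for all large `X`. For Lebesgue-almost every
`α ∈ [0,1]^(m + j)` every sufficiently large `N` can be written as `a + ∑ (x i + α i) ^ k`, up to
rounding (even up to `κ N ^ (-γ)`), with `a ∈ 𝒜` and `m + j` positive integers `x i`.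

(2) In particular `𝒜` may be the set of sums of `s` positive `k`-th powers, as soon as
`k (1 - 1/k) ^ s ≤ m - 1`.

(3) Hence, for every `ε > 0`, a number `≤ C(ε) k` of `k`-th powers represents all large integers,
when at most `ε k` of them are replaced by `k`-th powers shifted by almost any real numbers.
-/

set_option autoImplicit false

namespace Pool.Agent.Results.MP_570bef_nt.FewShifts

open MeasureTheory Filter Topology Pool.Agent.Q154.War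

/-- the general form for a thin set -/
lemma thin {k m j : ℕ} {𝒜 : Set ℕ} {c X₀ γ κ : ℝ} (hm : 4 ≤ m) (hmk : m ≤ k) (hc : 0 < c)
    (hA : ∀ X : ℝ, X₀ ≤ X →
      c * X ^ (1 - ((m : ℝ) - 1) / k) ≤ ({a : ℕ | a ∈ 𝒜 ∧ (a : ℝ) ≤ X}.ncard : ℝ))
    (hγ0 : 0 ≤ γ) (hκ : 0 < κ) (hγ : γ * k * (2 ^ j + 1) < 2 ^ j - k) :
    ∀ᵐ α : Fin (m + j) → ℝ, (∀ i, α i ∈ Set.Icc (0 : ℝ) 1) →
      ∃ N₀ : ℝ, ∀ N : ℝ, N₀ ≤ N → ∃ a ∈ 𝒜, ∃ x : Fin (m + j) → ℕ, (∀ i, 0 < x i) ∧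
        |(a : ℝ) + ∑ i, ((x i : ℝ) + α i) ^ k - N| < κ * N ^ (-γ) := by
  have hk0 : (0 : ℝ) < k := by
    have : 0 < k := by omega
    exact_mod_cast this
  obtain ⟨i₀, hi₀⟩ := pow_unbounded_of_one_lt (max X₀ 1) (one_lt_two : (1 : ℝ) < 2)
  have hA' : ∀ i ≥ i₀, c * ((2 : ℝ) ^ i) ^ (k + 1 - m) ≤ (cutA 𝒜 k (2 ^ i)).card := by
    intro i hi
    have h1 : (2 : ℝ) ^ i₀ ≤ 2 ^ i := pow_le_pow_right₀ (by norm_num) hi
    have h2 : (1 : ℝ) ≤ 2 ^ i := one_le_pow₀ (by norm_num)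
    have h3 : X₀ ≤ ((2 : ℝ) ^ i) ^ k := by
      calc X₀ ≤ max X₀ 1 := le_max_left _ _
        _ ≤ 2 ^ i₀ := hi₀.le
        _ ≤ 2 ^ i := h1
        _ ≤ ((2 : ℝ) ^ i) ^ k := le_self_pow₀ h2 (by omega)
    have h4 := hA _ h3
    rw [cutA_card]
    push_cast
    refine le_trans (le_of_eq ?_) h4
    congr 1
    have h5 : (0 : ℝ) < 2 ^ i := by positivity
    rw [← Real.rpow_natCast ((2 : ℝ) ^ i) k, ← Real.rpow_mul h5.le,
      ← Real.rpow_natCast ((2 : ℝ) ^ i) (k + 1 - m), Nat.cast_sub (by omega)]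
    congr 1
    push_cast
    field_simp
    ring
  have h := mainM hm hmk hc hA' (γ := γ) (κ := κ) hγ0 hκ hγ
  filter_upwards [h] with α hα hα01
  obtain ⟨N₀, hN₀⟩ := hα hα01
  refine ⟨N₀, fun N hN => ?_⟩
  exact hN₀ N hN

/-- the Waring form -/
lemma pure {k m j s : ℕ} (hm : 4 ≤ m) (hmk : m ≤ k) (hj : k < 2 ^ j)
    (hs : (k : ℝ) * (1 - 1 / (k : ℝ)) ^ s ≤ (m : ℝ) - 1) :
    ∀ᵐ α : Fin (m + j) → ℝ, (∀ i, α i ∈ Set.Icc (0 : ℝ) 1) →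
      ∃ N₀ : ℕ, ∀ N : ℕ, N₀ ≤ N → ∃ y : Fin s → ℕ, ∃ x : Fin (m + j) → ℕ,
        (∀ i, 0 < y i) ∧ (∀ i, 0 < x i) ∧
        ⌊∑ i, (y i : ℝ) ^ k + ∑ i, ((x i : ℝ) + α i) ^ k⌋ = (N : ℤ) := by
  have hk0 : (0 : ℝ) < k := by
    have : 0 < k := by omega
    exact_mod_cast this
  obtain ⟨c, hc, X₀, hX₀⟩ := count_PS (k := k) (by omega) s
  have hjr : (k : ℝ) < 2 ^ j := by exact_mod_cast hj
  have h := thin (k := k) (m := m) (j := j) (𝒜 := PS k s) (c := c) (X₀ := max X₀ 1) (γ := 0)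
    (κ := 1 / 2) hm hmk hc (by
      intro X hX
      have h1 : X₀ ≤ X := (le_max_left _ _).trans hX
      have h2 : 1 ≤ X := (le_max_right _ _).trans hX
      refine le_trans ?_ (hX₀ X h1)
      refine mul_le_mul_of_nonneg_left ?_ hc.le
      refine Real.rpow_le_rpow_of_exponent_le h2 ?_
      have h3 : (1 - 1 / (k : ℝ)) ^ s ≤ ((m : ℝ) - 1) / k := by
        rw [le_div_iff₀ hk0]
        linarith
      linarith) le_rfl (by norm_num) (by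
      rw [zero_mul, zero_mul]
      linarith)
  filter_upwards [h] with α hα hα01
  obtain ⟨N₀, hN₀⟩ := hα hα01
  refine ⟨⌈N₀⌉₊ + 1, fun N hN => ?_⟩
  have hNr : N₀ ≤ (N : ℝ) + 1 / 2 := by
    have h2 : N₀ ≤ (⌈N₀⌉₊ : ℝ) := Nat.le_ceil N₀
    have h3 : ((⌈N₀⌉₊ + 1 : ℕ) : ℝ) ≤ N := by exact_mod_cast hN
    push_cast at h3
    linarith
  obtain ⟨a, ⟨y, hy, hya⟩, x, hx, h4⟩ := hN₀ ((N : ℝ) + 1 / 2) hNr
  refine ⟨y, x, hy, hx, ?_⟩
  have h5 : (a : ℝ) = ∑ i, (y i : ℝ) ^ k := by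
    rw [hya]
    push_cast
    rfl
  rw [h5, neg_zero, Real.rpow_zero, mul_one, abs_lt] at h4
  rw [Int.floor_eq_iff]
  push_cast
  constructor
  · linarith [h4.1]
  · linarith [h4.2]

theorem result :
    (∀ (k m j : ℕ) (𝒜 : Set ℕ) (c X₀ γ κ : ℝ), 4 ≤ m → m ≤ k → 0 < c →
      (∀ X : ℝ, X₀ ≤ X →
        c * X ^ (1 - ((m : ℝ) - 1) / k) ≤ ({a : ℕ | a ∈ 𝒜 ∧ (a : ℝ) ≤ X}.ncard : ℝ)) →
      0 ≤ γ → 0 < κ → γ * k * (2 ^ j + 1) < 2 ^ j - k →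
      ∀ᵐ α : Fin (m + j) → ℝ, (∀ i, α i ∈ Set.Icc (0 : ℝ) 1) →
        ∃ N₀ : ℝ, ∀ N : ℝ, N₀ ≤ N → ∃ a ∈ 𝒜, ∃ x : Fin (m + j) → ℕ, (∀ i, 0 < x i) ∧
          |(a : ℝ) + ∑ i, ((x i : ℝ) + α i) ^ k - N| < κ * N ^ (-γ)) ∧
    (∀ k m j s : ℕ, 4 ≤ m → m ≤ k → k < 2 ^ j →
      (k : ℝ) * (1 - 1 / (k : ℝ)) ^ s ≤ (m : ℝ) - 1 →
      ∀ᵐ α : Fin (m + j) → ℝ, (∀ i, α i ∈ Set.Icc (0 : ℝ) 1) →
        ∃ N₀ : ℕ, ∀ N : ℕ, N₀ ≤ N → ∃ y : Fin s → ℕ, ∃ x : Fin (m + j) → ℕ,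
          (∀ i, 0 < y i) ∧ (∀ i, 0 < x i) ∧
          ⌊∑ i, (y i : ℝ) ^ k + ∑ i, ((x i : ℝ) + α i) ^ k⌋ = (N : ℤ)) ∧
    (∀ ε : ℝ, 0 < ε → ∃ C : ℝ, ∃ k₀ : ℕ, ∀ k : ℕ, k₀ ≤ k → ∃ s t : ℕ,
      ((s + t : ℕ) : ℝ) ≤ C * k ∧ (t : ℝ) ≤ ε * k ∧
      ∀ᵐ α : Fin t → ℝ, (∀ i, α i ∈ Set.Icc (0 : ℝ) 1) →
        ∃ N₀ : ℕ, ∀ N : ℕ, N₀ ≤ N → ∃ y : Fin s → ℕ, ∃ x : Fin t → ℕ,
          (∀ i, 0 < y i) ∧ (∀ i, 0 < x i) ∧
          ⌊∑ i, (y i : ℝ) ^ k + ∑ i, ((x i : ℝ) + α i) ^ k⌋ = (N : ℤ)) := by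
  refine ⟨?_, fun k m j s hm hmk hj hs => pure hm hmk hj hs, ?_⟩
  · intro k m j 𝒜 c X₀ γ κ hm hmk hc hA hγ0 hκ hγ
    exact thin hm hmk hc hA hγ0 hκ hγ
  · intro ε hε
    obtain ⟨δ, hδ0, hδε, hδ1⟩ : ∃ δ : ℝ, 0 < δ ∧ 2 * δ ≤ ε ∧ 2 * δ ≤ 1 := by
      refine ⟨min ε 1 / 2, by positivity, ?_, ?_⟩
      · linarith [min_le_left ε 1]
      · linarith [min_le_right ε 1]
    -- `δ k` shifted powers for each of the two purposes
    set L : ℝ := Real.log (2 / δ) with hL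
    have hL0 : 0 ≤ L := Real.log_nonneg (by
      rw [le_div_iff₀ hδ0]
      linarith)
    have hr : (1 : ℝ) < 2 ^ δ := Real.one_lt_rpow (by norm_num) hδ0
    have hlim := (tendsto_pow_const_div_const_pow_of_one_lt 1 hr).eventually
      (gt_mem_nhds (by norm_num : (0 : ℝ) < 1 / 2))
    obtain ⟨k₁, hk₁⟩ := hlim.exists_forall_of_atTop
    refine ⟨L + 2, max k₁ (⌈5 / δ⌉₊ + 1), fun k hk => ?_⟩
    have hk1 : k₁ ≤ k := (le_max_left _ _).trans hk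
    have hk2 : 5 / δ ≤ k := by
      have h1 : ⌈5 / δ⌉₊ + 1 ≤ k := (le_max_right _ _).trans hk
      have h2 : ((⌈5 / δ⌉₊ + 1 : ℕ) : ℝ) ≤ k := by exact_mod_cast h1
      have h3 := Nat.le_ceil (5 / δ)
      push_cast at h2
      linarith
    rw [div_le_iff₀ hδ0] at hk2
    have hk0 : (0 : ℝ) < k := by
      by_contra h
      have : (k : ℝ) ≤ 0 := not_lt.1 h
      nlinarith
    have hkδ : (k : ℝ) * δ ≤ k := by nlinarith
    set m : ℕ := ⌊δ * k⌋₊ with hmdef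
    have hm1 : (m : ℝ) ≤ δ * k := Nat.floor_le (by positivity)
    have hm2 : δ * k < m + 1 := Nat.lt_floor_add_one _
    have hm4 : 4 ≤ m := by
      have : (4 : ℝ) < m + 1 := by linarith
      have h2 : 4 < m + 1 := by exact_mod_cast this
      omega
    have hmk : m ≤ k := by
      have : (m : ℝ) ≤ k := by linarith
      exact_mod_cast this
    have hj : k < 2 ^ m := by
      have h1 := hk₁ k hk1
      rw [pow_one, div_lt_iff₀ (by positivity)] at h1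
      have h2 : ((2 : ℝ) ^ δ) ^ k = 2 ^ (δ * k) := by
        rw [← Real.rpow_mul_natCast (by norm_num)]
      have h3 : (2 : ℝ) ^ (δ * k) < 2 ^ ((m : ℝ) + 1) :=
        Real.rpow_lt_rpow_of_exponent_lt (by norm_num) hm2
      rw [Real.rpow_add (by norm_num), Real.rpow_natCast, Real.rpow_one] at h3
      rw [h2] at h1
      have h4 : (k : ℝ) < 2 ^ m := by linarith
      exact_mod_cast h4
    set s : ℕ := ⌈k * L⌉₊ with hsdef
    have hs1 : (k : ℝ) * L ≤ s := Nat.le_ceil _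
    have hs2 : (s : ℝ) ≤ k * L + 1 := (Nat.ceil_lt_add_one (by positivity)).le
    have hk1' : (1 : ℝ) ≤ k := by
      have : 0 < k := by exact_mod_cast hk0
      exact_mod_cast this
    have hpow : (1 - 1 / (k : ℝ)) ^ s ≤ δ / 2 := by
      have h1 : 1 - 1 / (k : ℝ) ≤ Real.exp (-(1 / k)) := by
        have := Real.add_one_le_exp (-(1 / (k : ℝ)))
        linarith
      have h0 : 0 ≤ 1 - 1 / (k : ℝ) := by
        rw [sub_nonneg, div_le_one hk0]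
        exact hk1'
      calc (1 - 1 / (k : ℝ)) ^ s ≤ Real.exp (-(1 / k)) ^ s := pow_le_pow_left₀ h0 h1 s
        _ = Real.exp (s * -(1 / k)) := by rw [← Real.exp_nat_mul]
        _ ≤ Real.exp (-L) := by
            rw [Real.exp_le_exp]
            have h2 : L ≤ s / k := by
              rw [le_div_iff₀ hk0]
              linarith
            have h3 : (s : ℝ) * -(1 / k) = -(s / k) := by ring
            rw [h3]
            linarith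
        _ = δ / 2 := by
            rw [hL, Real.exp_neg, Real.exp_log (by positivity), inv_div]
    refine ⟨s, m + m, ?_, ?_, ?_⟩
    · push_cast
      nlinarith
    · push_cast
      nlinarith
    · refine pure hm4 hmk hj ?_
      have h1 : (k : ℝ) * (1 - 1 / (k : ℝ)) ^ s ≤ k * (δ / 2) :=
        mul_le_mul_of_nonneg_left hpow hk0.le
      nlinarith

end Pool.Agent.Results.MP_570bef_nt.FewShifts
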