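import Pool.Agent.Q280.TG.WD

/-!
# Motives with the largest deficit in the period conjecture
-/

set_option autoImplicit false

open MvPolynomial Pool.Agent.Q280.TG Pool.Agent.Q280.TG.W

namespace Pool.Agent.Results.MP_57341d_ag.LargestDeficit

/-- The algebraic numbers. -/
abbrev Qbar : Type := algebraicClosure ℚ ℂ

/-- The formal periods of the sum of the motives `M i`, `i ∈ s`: the entries of the matrices. -/
def entries (D : Periods Qbar) (s : Finset D.I) : Set D.Fun := {f | ∃ v : Var D.N, v.1 ∈ s ∧ D.fp (X v) = f}

/-- The periods of the sum of the motives `M i`, `i ∈ s`: the entries of the period matrices. -/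
def periods (D : Periods Qbar) (s : Finset D.I) : Set ℂ := {z | ∃ v : Var D.N, v.1 ∈ s ∧ co D.β v = z}

/-- The deficit of the sum of the motives `M i`, `i ∈ s`, is `d`: the transcendence degree of its periods is the
dimension of its group minus `d`. -/
def Deficit (D : Periods Qbar) (s : Finset D.I) (d : ℕ) : Prop :=
  ∃ n r, TD Qbar (entries D s) n ∧ TD ℚ (periods D s) r ∧ n = r + d

/-- The polynomial relation `P(β) = 0` is a consequence of relations between periods of finite covers of the sum of the
motives `M i`, `i ∈ s`: the formal period of `P` is a combination of formal periods of polynomials `Q j`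
which are algebraic over the formal periods of the sum, with `Q j (β) = 0`. -/
def Consequence (D : Periods Qbar) (s : Finset D.I) (P : MvPolynomial (Var D.N) Qbar) : Prop :=
  ∃ (n : ℕ) (Q R : Fin n → MvPolynomial (Var D.N) Qbar),
    (∀ j, IsAlgebraic (Algebra.adjoin Qbar (entries D s)) (D.fp (Q j)) ∧ aeval (co D.β) (Q j) = 0) ∧
      D.fp P = D.fp (∑ j, R j * Q j)

noncomputable instance : IsAlgClosed Qbar := (algebraicClosure.isAlgClosure ℚ ℂ).isAlgClosed

theorem halg : ∀ c : Qbar, IsAlgebraic ℚ (algebraMap Qbar ℂ c) := fun c => mem_algebraicClosure_iff.mp c.2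

theorem deficit_iff {D : Periods Qbar} (s : Finset D.I) (d : ℕ) : Deficit D s d ↔ Fn.df D.evp (Periods.ca s) = d := by
  constructor
  · rintro ⟨n, r, h1, h2, h3⟩
    have h4 := (Periods.wt_ca s).mp h1
    have h5 := (Periods.rk_ca halg s).mp h2
    unfold Fn.df
    omega
  · intro h
    refine ⟨_, _, (Periods.wt_ca s).mpr rfl, (Periods.rk_ca halg s).mpr rfl, ?_⟩
    unfold Fn.df at h
    omega

/-- **Theorem.** Every finite sum of motives of the family has a deficit. The sum of the motives `M i`, `i ∈ s`, has
the largest deficit among all finite sums if and only if every polynomial relation between the periods of all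
the motives is a consequence of relations between periods of finite covers of this sum. -/
theorem result (D : Periods Qbar) : (∀ s, ∃ d, Deficit D s d) ∧
    ∀ s, (∀ t d e, Deficit D t d → Deficit D s e → d ≤ e) ↔ ∀ P, aeval (co D.β) P = 0 → Consequence D s P := by
  have hex : ∀ s, Deficit D s (Fn.df D.evp (Periods.ca s)).toNat := fun s => by
    rw [deficit_iff]
    have h1 := Fn.df_nonneg D.evp halg (Periods.fn_ca s)
    omega
  refine ⟨fun s => ⟨_, hex s⟩, fun s => ?_⟩
  have h1 : (∀ P, aeval (co D.β) P = 0 → Consequence D s P) ↔ Fn.Gen D.evp (Periods.ca s) := by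
    rw [← Periods.cq_iff]
    refine forall_congr' fun P => imp_congr Iff.rfl ?_
    refine exists_congr fun n => exists_congr fun Q => exists_congr fun T => and_congr (forall_congr' fun j =>
      and_congr ?_ Iff.rfl) Iff.rfl
    exact (Periods.mem_ca s (Q j)).symm
  rw [h1, Fn.gen_iff_rel D.evp D.toPD.pts, ← Fn.max_iff D.evp halg D.toPD.pts (Periods.fn_ca s)]
  constructor
  · intro h Q hQ
    obtain ⟨t, ht⟩ := Periods.le_ca hQ
    refine (Fn.df_mono D.evp halg (Periods.fn_ca t) ht).trans ?_
    have h2 := h t _ _ (hex t) (hex s)
    have h3 := Fn.df_nonneg D.evp halg (Periods.fn_ca s)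
    have h4 := Fn.df_nonneg D.evp halg (Periods.fn_ca t)
    omega
  · intro h t d e hd he
    have h2 := h _ (Periods.fn_ca t)
    rw [deficit_iff] at hd he
    omega

end Pool.Agent.Results.MP_57341d_ag.LargestDeficit
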