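import Pool.Agent.Q50.DR.Defs2
import Pool.Agent.Q55.Pg.Fin

/-!
# A zero-one law for the number of linearly independent periods of the powers of a variety

In the intended use `D.K` is the field of algebraic numbers, `W` is the rational cohomology of the complex varieties, `D`
is algebraic de Rham cohomology, `C` is the comparison isomorphism with complex coefficients and `T` is the Hodge
decomposition. The variety `pw X n` is the product of `n + 1` copies of `X`.
-/

open CategoryTheory AlgebraicGeometry

universe u

namespace Pool.Agent.Results.MP_57341d_ag.PeriodCount

open Pool.Agent.H914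
open Pool.Agent.Y121.AHS (Comparison)
open Pool.Agent.Y133.Half (pw)
open Pool.Agent.Q50.MTC (HodgeDecomposition IsHodge)
open Pool.Agent.Q50.DR

variable {k : Type u} [Field k] {𝒱 : VarClass k} {ops : CycleOps 𝒱}
  {W D : WeilCohomology.{u, 0} ops} [Algebra W.K ℂ] [Algebra D.K ℂ]

/-- The number of independent periods of `X ^ (n + 1)`: the dimension of the space spanned by the periods over the field
of coefficients of the de Rham cohomology. -/
noncomputable def numPeriods (C : Comparison W D ℂ) (X : 𝒱.Obj) (n : ℕ) : ℕ :=
  dimSpan D.K (periods C (pw X n))

/-- The expected number: the dimension of the commutant of the algebra of the endomorphisms of the Hodge structure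
`H(X ^ (n + 1))`. -/
noncomputable def expected (T : HodgeDecomposition W) (X : 𝒱.Obj) (n : ℕ) : ℕ :=
  dimEnd (CommHodge (W.gr (pw X n)) (T.h (pw X n)))

/-- The dimension of the Lie algebra of the Mumford-Tate group of `X`. -/
noncomputable def dimMT (T : HodgeDecomposition W) (X : 𝒱.Obj) : ℕ := dimEnd (InMT T X)

/-- **A zero-one law.** Suppose that the Hodge classes on the powers of `X` are de Rham-Betti classes (for example, `X` is
an abelian variety). Then the number of independent periods of a power of `X` is at most the expected number, and there
are two cases. Either the transcendence degree `t` of the field of periods of `X` is the dimension `m` of the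
Mumford-Tate group, and all powers of `X` have the expected number of independent periods; or `t < m` and the proportion
of the expected number which is attained by `X ^ (n + 1)` is at most `A / (n + 1) ^ (m - t)`. So `t = m` if for infinitely
many `n` this proportion is at least a fixed positive number. -/
theorem result [IsAlgClosed D.K] (T : HodgeDecomposition W) (C : Comparison W D ℂ)
    (hC : C.s = RingEquiv.refl ℂ) (X : 𝒱.Obj) (hX : ∃ x : W.H X, x ≠ 0)
    (hH : ∀ n j c, IsHodge T (pw X n) j c → IsDRB C (pw X n) j c) :
    ∃ t : ℕ, trdegOf D.K (periods C X) = t ∧ t ≤ dimMT T X ∧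
      (∀ n, numPeriods C X n ≤ expected T X n) ∧
      (t = dimMT T X → ∀ n, numPeriods C X n = expected T X n) ∧
      (∃ A : ℕ, ∀ n, numPeriods C X n * (n + 1) ^ (dimMT T X - t) ≤ A * expected T X n) ∧
      ∀ ε : ℝ, 0 < ε → (∃ᶠ n in Filter.atTop, ε * (expected T X n : ℝ) ≤ numPeriods C X n) →
        t = dimMT T X :=
  Pool.Agent.Q55.Pg.main T C hC X hX hH

end Pool.Agent.Results.MP_57341d_ag.PeriodCount
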