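import Pool.Agent.Q270.SQ.CritE

/-!
# The digits of the classical approximations to `π` and the normality of `π`

Let `x_m` be the perimeter `m sin(π/m)` or `m tan(π/m)` of the regular `m`-gon inscribed in, or
circumscribed about, the circle of diameter `1`, the sum of `2m` or of `2m+1` terms of the series of
Leibniz for `π`, or the product of `m` factors of Wallis. The difference `x_m - π` is of the exact order
`m ^ (-κ)`, `κ = 2, 2, 1, 1, 1`, so that `x_m` and `π` share about `κ log_b m` digits in base `b`.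

It is proved that for almost all `m`, and for almost all prime numbers `m`, the digits of `x_m` after
these places are normal, up to the place `A log m`, for every `A`. Those of the two polygons are
moreover independent of each other. It follows that the digits of `π` are decisive for the first
`A log m` digits of `x_m`, and there is the following alternative, for every base `b`, for instance
`b = 10`. If `π` is normal to base `b` then for almost all `m` (all but a proportion `N ^ (-c)` of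
the `m ≤ N`) the first `A log N` digits of `x_m` are normal, up to `ε log N`. If `π` is not normal to
base `b`, then for some `ε` and for infinitely many `N` this fails for almost all `m ≤ N`: for every
`η < 1` it holds for fewer than a proportion `N ^ (-η)` of the `m ≤ N`, for infinitely many `N`.

All this is proved for every real number `x` instead of `π` and for all sequences of approximations
`x_m = x + c m ^ (-κ) + …` with an asymptotic expansion in real powers of `m`, over the integers and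
over the primes of a residue class.
-/

set_option autoImplicit false

namespace Pool.Agent.Results.MP_57632f_nt.ClassicalApproximations

open Filter Topology Asymptotics

/-- the primes `p ≤ N` which are congruent to `a` modulo `q` -/
def Primes (a q N : ℕ) : Set ℕ := {p | p.Prime ∧ p ≡ a [MOD q] ∧ p ≤ N}

/-- the integers `1, …, N` -/
def Ints (N : ℕ) : Set ℕ := {m | 1 ≤ m ∧ m ≤ N}

/-- the index sets: all integers, or the primes of a reduced residue class, up to `N` -/
def Index (I : ℕ → Set ℕ) : Prop := I = Ints ∨ ∃ a q : ℕ, 1 ≤ q ∧ a.Coprime q ∧ I = Primes a q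

/-- `g(m)` has the asymptotic expansion `∑ c_j m ^ α_j` as `m → ∞` -/
def Expansion (α c : ℕ → ℝ) (g : ℕ → ℝ) : Prop :=
  ∀ J : ℕ, (fun m : ℕ => g m - ∑ j ∈ Finset.range J, c j * (m : ℝ) ^ α j) =O[atTop]
    (fun m : ℕ => (m : ℝ) ^ α J)

/-- `g(m) = x + c m ^ (-κ) + …` with `c ≠ 0`: the sequence has an asymptotic expansion with real
exponents `0 = α_0 > α_1 > … → -∞`, the first nonzero coefficients are `c_0 = x` (which may be `0`)
and `c_J`, and `α_J = -κ` -/
def Approximates (κ : ℝ) (g : ℕ → ℝ) (x : ℝ) : Prop :=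
  ∃ (α c : ℕ → ℝ) (J : ℕ), StrictAnti α ∧ Tendsto α atTop atBot ∧ Expansion α c g ∧
    α 0 = 0 ∧ c 0 = x ∧ 1 ≤ J ∧ α J = -κ ∧ (∀ j, 0 < j → j < J → c j = 0) ∧ c J ≠ 0

/-- the word of the `k` digits in base `b` of `y` which follow the first `n` digits after the point,
read as an integer between `0` and `b ^ k - 1` -/
noncomputable def word (b k n : ℕ) (y : ℝ) : ℕ :=
  ⌊(b : ℝ) ^ k * Int.fract ((b : ℝ) ^ n * y)⌋₊

/-- the number of the places `s ≤ i < s + L` such that the word of `k` digits of `y` after the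
place `i` is `D` -/
noncomputable def count (b k s L D : ℕ) (y : ℝ) : ℕ :=
  {i : ℕ | i < L ∧ word b k (s + i) y = D}.ncard

/-- `x` is normal to base `b` -/
def Normal (b : ℕ) (x : ℝ) : Prop := ∀ k D : ℕ, 1 ≤ k → D < b ^ k →
  Tendsto (fun L : ℕ => (count b k 0 L D x : ℝ) / L) atTop (𝓝 (1 / (b : ℝ) ^ k))

/-- all words of at most `w` digits in base `b` have the right frequency in the digits of `y`, with an
error at most `E`, in all windows up to the place `T` -/
def NormalUpTo (b w : ℕ) (T E : ℝ) (y : ℝ) : Prop := ∀ k D s L : ℕ, 1 ≤ k → k ≤ w → D < b ^ k →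
  (s : ℝ) + L ≤ T → |(count b k s L D y : ℝ) - L / (b : ℝ) ^ k| ≤ E

/-- all words of at most `w` digits in all bases `b ≤ B` have the right frequency in the digits of
`y`, with an error at most `E`, in all windows between the places `log_b X` and `T` -/
def NormalFromTo (B w : ℕ) (X T E : ℝ) (y : ℝ) : Prop := ∀ b : ℕ, 2 ≤ b → b ≤ B →
  ∀ k D s L : ℕ, 1 ≤ k → k ≤ w → D < b ^ k → X ≤ (b : ℝ) ^ s → (s : ℝ) + L ≤ T →
    |(count b k s L D y : ℝ) - L / (b : ℝ) ^ k| ≤ E

/-- the same for the pairs of words of two numbers -/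
def JointlyNormalFromTo (B w : ℕ) (X T E : ℝ) (y z : ℝ) : Prop :=
  ∀ b b' : ℕ, 2 ≤ b → b ≤ B → 2 ≤ b' → b' ≤ B → ∀ k D D' s s' L : ℕ, 1 ≤ k → k ≤ w →
    D < b ^ k → D' < b' ^ k → X ≤ (b : ℝ) ^ s → X ≤ (b' : ℝ) ^ s' →
    (s : ℝ) + L ≤ T → (s' : ℝ) + L ≤ T →
    |(({i : ℕ | i < L ∧ word b k (s + i) y = D ∧ word b' k (s' + i) z = D'}.ncard : ℕ) : ℝ) -
      L / ((b : ℝ) ^ k * (b' : ℝ) ^ k)| ≤ E

/-- the perimeter of the inscribed regular `m`-gon -/
noncomputable def inscribed (m : ℕ) : ℝ := m * Real.sin (Real.pi / m)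

/-- the perimeter of the circumscribed regular `m`-gon -/
noncomputable def circumscribed (m : ℕ) : ℝ := m * Real.tan (Real.pi / m)

/-- the sum of `n` terms of the series of Leibniz -/
noncomputable def leibniz (n : ℕ) : ℝ := ∑ k ∈ Finset.range n, 4 * (-1) ^ k / (2 * (k : ℝ) + 1)

/-- the product of `m` factors of the product of Wallis -/
noncomputable def wallis (m : ℕ) : ℝ :=
  2 * ∏ k ∈ Finset.range m, (2 * (k : ℝ) + 2) ^ 2 / ((2 * k + 1) * (2 * k + 3))

/-! ### The finite index sets and the counts -/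

lemma Index_fin {I : ℕ → Set ℕ} (hI : Index I) : ∃ J : ℕ → Finset ℕ,
    (∀ N, I N = ((J N : Finset ℕ) : Set ℕ)) ∧ Pool.Agent.Q270.SQ.GoodI J := by
  rcases hI with rfl | ⟨a, q, hq, haq, rfl⟩
  · refine ⟨fun N => Finset.Ioc 0 N, fun N => ?_, Pool.Agent.Q270.SQ.goodI_int⟩
    ext m
    simp only [Ints, Set.mem_ofPred_eq, Finset.coe_Ioc, Set.mem_Ioc]
    omega
  · refine ⟨Pool.Agent.Q270.SP.PrA a q, fun N => ?_, Pool.Agent.Q270.SQ.goodI_PrA a q hq haq⟩
    ext p
    simp only [Primes, Pool.Agent.Q270.SP.PrA, Set.mem_ofPred_eq, Finset.coe_filter,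
      Finset.mem_Ioc]
    constructor
    · rintro ⟨h1, h2, h3⟩
      exact ⟨⟨h1.pos, h3⟩, h1, h2⟩
    · rintro ⟨⟨_, h3⟩, h1, h2⟩
      exact ⟨h1, h2, h3⟩

open Classical in
lemma ncard_eq {S : Set ℕ} {T : Finset ℕ} (h : S = ((T : Finset ℕ) : Set ℕ)) (p : ℕ → Prop) :
    ({m ∈ S | p m}.ncard : ℕ) = (T.filter p).card := by
  have h1 : {m ∈ S | p m} = ((T.filter p : Finset ℕ) : Set ℕ) := by
    rw [Finset.coe_filter, h]
    rfl
  rw [h1, Set.ncard_coe_finset]

lemma count_eq (b k s L D : ℕ) (y : ℝ) : count b k s L D y = Pool.Agent.Q270.SQ.wc b k s L D y := by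
  have h2 : {i : ℕ | i < L ∧ word b k (s + i) y = D} =
      (((Finset.range L).filter (fun i => Pool.Agent.Y933.KD.wd b k (s + i) y = D) :
        Finset ℕ) : Set ℕ) := by
    ext i
    simp only [Set.mem_ofPred_eq, Finset.coe_filter, Finset.mem_range]
    rfl
  unfold count Pool.Agent.Q270.SQ.wc
  rw [h2, Set.ncard_coe_finset]

lemma normal_iff (b : ℕ) (x : ℝ) : Normal b x ↔ Pool.Agent.Q270.SQ.NormalB b x := by
  unfold Normal Pool.Agent.Q270.SQ.NormalB
  simp only [count_eq]

lemma normalUpTo_iff (b w : ℕ) (T E y : ℝ) : NormalUpTo b w T E y ↔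
    Pool.Agent.Q270.SQ.Fine b w T E y := by
  unfold NormalUpTo Pool.Agent.Q270.SQ.Fine
  simp only [count_eq]

/-! ### The sequences -/

lemma expansion_congr {α c : ℕ → ℝ} {g g' : ℕ → ℝ} (h : Pool.Agent.Q270.SQ.Expands α c g)
    (hg : ∀ m : ℕ, 1 ≤ m → g m = g' m) : Expansion α c g' := by
  intro J
  refine (h J).congr' ?_ EventuallyEq.rfl
  filter_upwards [eventually_ge_atTop 1] with m hm
  rw [hg m hm]

lemma inscribed_exp : Expansion Pool.Agent.Q270.SQ.neg Pool.Agent.Q270.SQ.sC inscribed := by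
  refine expansion_congr Pool.Agent.Q270.SQ.sin_tay.expands fun m hm => ?_
  have hm0 : (0 : ℝ) < m := by exact_mod_cast hm
  unfold inscribed
  rw [mul_one_div]
  field_simp

lemma circumscribed_exp : ∃ c, Expansion Pool.Agent.Q270.SQ.neg c circumscribed ∧
    ∀ j < 5, c j = Pool.Agent.Q270.SQ.tC j := by
  obtain ⟨c, hc, hc5⟩ := Pool.Agent.Q270.SQ.tan_tay
  refine ⟨c, expansion_congr hc.expands fun m hm => ?_, hc5⟩
  have hm0 : (0 : ℝ) < m := by exact_mod_cast hm
  unfold circumscribed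
  rw [mul_one_div]
  field_simp

lemma approx_one {g : ℕ → ℝ} {c : ℕ → ℝ} {x : ℝ} (h : Expansion Pool.Agent.Q270.SQ.neg c g)
    (h0 : c 0 = x) (h1 : c 1 ≠ 0) : Approximates 1 g x := by
  refine ⟨_, c, 1, Pool.Agent.Q270.SQ.neg_anti, Pool.Agent.Q270.SQ.neg_tendsto, h, ?_, h0, le_rfl,
    ?_, fun j hj hj1 => by omega, h1⟩
  · simp [Pool.Agent.Q270.SQ.neg]
  · simp [Pool.Agent.Q270.SQ.neg]

lemma approx_two {g : ℕ → ℝ} {c : ℕ → ℝ} {x : ℝ} (h : Expansion Pool.Agent.Q270.SQ.neg c g)
    (h0 : c 0 = x) (h1 : c 1 = 0) (h2 : c 2 ≠ 0) : Approximates 2 g x := by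
  refine ⟨_, c, 2, Pool.Agent.Q270.SQ.neg_anti, Pool.Agent.Q270.SQ.neg_tendsto, h, ?_, h0,
    by norm_num, ?_, fun j hj hj1 => ?_, h2⟩
  · simp [Pool.Agent.Q270.SQ.neg]
  · simp [Pool.Agent.Q270.SQ.neg]
  · have : j = 1 := by omega
    rw [this, h1]

lemma sC_values : Pool.Agent.Q270.SQ.sC 0 = Real.pi ∧ Pool.Agent.Q270.SQ.sC 1 = 0 ∧
    Pool.Agent.Q270.SQ.sC 2 = -(Real.pi ^ 3 / 6) ∧ Pool.Agent.Q270.SQ.sC 4 = Real.pi ^ 5 / 120 := by
  refine ⟨?_, ?_, ?_, ?_⟩
  · simp [Pool.Agent.Q270.SQ.sC]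
  · simp [Pool.Agent.Q270.SQ.sC]
  · simp only [Pool.Agent.Q270.SQ.sC]
    rw [if_pos (by decide)]
    norm_num [Nat.factorial]
    ring
  · simp only [Pool.Agent.Q270.SQ.sC]
    rw [if_pos (by decide)]
    norm_num [Nat.factorial]

lemma approx_all : Approximates 2 inscribed Real.pi ∧ Approximates 2 circumscribed Real.pi ∧
    Approximates 1 (fun m => leibniz (2 * m)) Real.pi ∧
    Approximates 1 (fun m => leibniz (2 * m + 1)) Real.pi ∧ Approximates 1 wallis Real.pi := by
  have hpi := Real.pi_pos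
  obtain ⟨s0, s1, s2, -⟩ := sC_values
  refine ⟨?_, ?_, ?_, ?_, ?_⟩
  · refine approx_two inscribed_exp s0 s1 ?_
    rw [s2]
    have : 0 < Real.pi ^ 3 / 6 := by positivity
    linarith
  · obtain ⟨c, hc, hc5⟩ := circumscribed_exp
    refine approx_two hc ?_ ?_ ?_
    · rw [hc5 0 (by norm_num)]
      simp [Pool.Agent.Q270.SQ.tC]
    · rw [hc5 1 (by norm_num)]
      simp [Pool.Agent.Q270.SQ.tC]
    · rw [hc5 2 (by norm_num)]
      simp only [Pool.Agent.Q270.SQ.tC]
      norm_num
  · obtain ⟨c, hc, hc0, hc1⟩ := Pool.Agent.Q270.SQ.leib_even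
    exact approx_one (expansion_congr hc fun m _ => rfl) hc0 (by rw [hc1]; norm_num)
  · obtain ⟨c, hc, hc0, hc1⟩ := Pool.Agent.Q270.SQ.leib_odd
    exact approx_one (expansion_congr hc fun m _ => rfl) hc0 (by rw [hc1]; norm_num)
  · obtain ⟨c, hc, hc0, hc1⟩ := Pool.Agent.Q270.SQ.wall_exp
    refine approx_one (expansion_congr hc fun m _ => rfl) hc0 ?_
    rw [hc1]
    have : 0 < Real.pi / 4 := by positivity
    linarith

lemma neg_ne {j : ℕ} (hj : 1 ≤ j) (n : ℕ) : Pool.Agent.Q270.SQ.neg j ≠ n := by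
  unfold Pool.Agent.Q270.SQ.neg
  have h1 : (1 : ℝ) ≤ j := by exact_mod_cast hj
  have h2 : (0 : ℝ) ≤ n := Nat.cast_nonneg n
  intro h
  linarith

open Classical in
/-- the two polygons -/
lemma joint {J : ℕ → Finset ℕ} (hJ : Pool.Agent.Q270.SQ.GoodI J) (A δ : ℝ) (hδ : 0 < δ)
    (B w : ℕ) (ε : ℝ) (hε : 0 < ε) : ∃ c : ℝ, 0 < c ∧ ∃ N₀ : ℕ, ∀ N : ℕ, N₀ ≤ N →
    (((J N).filter (fun m => ¬ JointlyNormalFromTo B w ((N : ℝ) ^ (4 + δ)) (A * Real.log N)
      (ε * Real.log N) (inscribed m) (circumscribed m))).card : ℝ) ≤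
      (J N).card * (N : ℝ) ^ (-c) := by
  obtain ⟨c, hc, hc5⟩ := circumscribed_exp
  obtain ⟨s0, s1, s2, s4⟩ := sC_values
  obtain ⟨c', hc', M0, hM0⟩ := Pool.Agent.Q270.SQ.normal_E (r := 2)
    (c := ![Pool.Agent.Q270.SQ.sC, c]) (g := ![inscribed, circumscribed]) (by norm_num)
    Pool.Agent.Q270.SQ.neg_anti Pool.Agent.Q270.SQ.neg_tendsto (fun i => by
      fin_cases i
      · exact inscribed_exp
      · exact hc) (J0 := 5) (κ := 4) (by
      intro x hx
      have h2 := hx 2 (by norm_num) (neg_ne (by norm_num))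
      have h4 := hx 4 (by norm_num) (neg_ne (by norm_num))
      simp only [Fin.sum_univ_two, Matrix.cons_val_zero, Matrix.cons_val_one] at h2 h4
      rw [s2, hc5 2 (by norm_num)] at h2
      rw [s4, hc5 4 (by norm_num)] at h4
      simp only [Pool.Agent.Q270.SQ.tC] at h2 h4
      norm_num at h2 h4
      have hpi := Real.pi_pos
      have e2 : x 0 = 2 * x 1 := by
        have h5 : Real.pi ^ 3 * (2 * x 1 - x 0) = 0 := by linarith
        have := (mul_eq_zero.1 h5).resolve_left (by positivity)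
        linarith
      have e4 : x 0 = -(16 * x 1) := by
        have h5 : Real.pi ^ 5 * (x 0 + 16 * x 1) = 0 := by linarith
        have := (mul_eq_zero.1 h5).resolve_left (by positivity)
        linarith
      have e1 : x 1 = 0 := by linarith
      have e0 : x 0 = 0 := by linarith
      funext i
      fin_cases i
      · exact e0
      · exact e1) (by
      intro j hj
      unfold Pool.Agent.Q270.SQ.neg
      have : (j : ℝ) ≤ 4 := by exact_mod_cast (by omega : j ≤ 4)
      linarith) hJ 0 δ 1 A hδ B w ε hε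
  refine ⟨c', hc', max M0 1, fun M hM => ?_⟩
  have hM1 : 1 ≤ M := le_of_max_le_right hM
  have hMR : (1 : ℝ) ≤ M := by exact_mod_cast hM1
  obtain ⟨-, h⟩ := hM0 M (le_of_max_le_left hM)
  have h1 := h (fun _ => 1) (fun _ => 0) (fun _ => by
    rw [abs_one]
    constructor
    · exact Real.rpow_le_one_of_one_le_of_nonpos hMR (by norm_num)
    · exact Real.one_le_rpow hMR (by norm_num)) (fun _ => by simp)
  refine le_trans (Nat.cast_le.2 (Finset.card_le_card fun m hm => ?_)) h1
  rw [Finset.mem_filter] at hm ⊢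
  refine ⟨hm.1, fun h2 => hm.2 ?_⟩
  intro b b' hb2 hbB hb2' hbB' k D D' s s' L hk hkw hD hD' hs hs' hsL hsL'
  have h3 := h2 ![b, b'] (fun i => by
    fin_cases i
    · exact ⟨hb2, hbB⟩
    · exact ⟨hb2', hbB'⟩) k ![D, D'] ![s, s'] L hk hkw
    (fun i => by
      fin_cases i
      · exact hD
      · exact hD') (fun i => by
      rw [abs_one, one_mul]
      fin_cases i
      · exact hs
      · exact hs') (fun i => by
      fin_cases i
      · exact hsL
      · exact hsL')
  have h4 : {i : ℕ | i < L ∧ word b k (s + i) (inscribed m) = D ∧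
      word b' k (s' + i) (circumscribed m) = D'}.ncard =
      ((Finset.range L).filter (fun i => Pool.Agent.Y951.TU.tw ![b, b'] k
        (fun j => (![s, s'] : Fin 2 → ℕ) j + i) (Pool.Agent.Q270.SQ.VecE
          ![inscribed, circumscribed] (fun _ => 1) (fun _ => 0) m) = ![D, D'])).card := by
    have h5 : {i : ℕ | i < L ∧ word b k (s + i) (inscribed m) = D ∧
        word b' k (s' + i) (circumscribed m) = D'} =
        (((Finset.range L).filter (fun i => Pool.Agent.Y951.TU.tw ![b, b'] k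
        (fun j => (![s, s'] : Fin 2 → ℕ) j + i) (Pool.Agent.Q270.SQ.VecE
          ![inscribed, circumscribed] (fun _ => 1) (fun _ => 0) m) = ![D, D']) :
            Finset ℕ) : Set ℕ) := by
      ext i
      simp only [Set.mem_ofPred_eq, Finset.coe_filter, Finset.mem_range, funext_iff,
        Fin.forall_fin_two]
      simp only [Pool.Agent.Y951.TU.tw, Pool.Agent.Q270.SQ.VecE, Matrix.cons_val_zero,
        Matrix.cons_val_one, one_mul, Polynomial.eval_zero, add_zero]
      rfl
    rw [h5, Set.ncard_coe_finset]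
  rw [h4]
  have h6 : ((∏ j, (![b, b'] : Fin 2 → ℕ) j : ℕ) : ℝ) ^ k = (b : ℝ) ^ k * (b' : ℝ) ^ k := by
    rw [Fin.prod_univ_two]
    push_cast
    simp [mul_pow]
  rw [h6] at h3
  exact h3

open Classical in
/-- (0) The perimeters `m sin(π/m)` and `m tan(π/m)`, the sums of `2m` and of `2m+1` terms of the
series of Leibniz and the products of Wallis are of the form `π + c m ^ (-κ) + …`, `c ≠ 0`, with
`κ = 2, 2, 1, 1, 1`, in the sense of `Approximates`.

Let `g(m) = x + c m ^ (-κ) + …`, `c ≠ 0`, `κ > 0`, in this sense, for any real number `x`. Let `I_N` be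
the set of all integers `1, …, N` or the set of the primes `p ≤ N` of a reduced residue class.

(1) For all `B`, `w`, `A`, `δ > 0` and `ε > 0` there is `c' > 0` such that for large `N` and for all
`m ∈ I_N` but a proportion `N ^ (-c')`, all words of at most `w` digits, in all bases `b ≤ B`, have the
right frequency in the digits of `g(m)`, up to `ε log N`, in all windows between the places
`(κ+δ) log_b N` and `A log N`.

(2) Let `b ≥ 2` and `A > 0`. If `x` is normal to base `b`, then for all `w` and `ε > 0` there is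
`c' > 0` such that for large `N`, for all `m ∈ I_N` but a proportion `N ^ (-c')`, all words of at most
`w` digits have the right frequency, up to `ε log N`, in all windows of the first `A log N` digits of
`g(m)` in base `b`. Conversely, if for some `η < 1`, for all `w` and `ε > 0` and for all large `N`,
this is true for at least `N ^ (-η) |I_N|` of the `m ∈ I_N`, then `x` is normal to base `b`.

(3) For all `B`, `w`, `A`, `δ > 0` and `ε > 0` there is `c' > 0` such that for large `N` and for all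
`m ∈ I_N` but a proportion `N ^ (-c')`, all pairs of words of at most `w` digits, in all bases
`b, b' ≤ B`, have the right frequency in the digits of `m sin(π/m)` and `m tan(π/m)`, up to `ε log N`,
in all pairs of windows between the places `(4+δ) log_b N` and `A log N`. -/
theorem result :
    (Approximates 2 inscribed Real.pi ∧ Approximates 2 circumscribed Real.pi ∧
      Approximates 1 (fun m => leibniz (2 * m)) Real.pi ∧
      Approximates 1 (fun m => leibniz (2 * m + 1)) Real.pi ∧ Approximates 1 wallis Real.pi) ∧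
    ∀ I : ℕ → Set ℕ, Index I →
      (∀ (x κ : ℝ) (g : ℕ → ℝ), 0 < κ → Approximates κ g x →
        (∀ (B w : ℕ) (A δ ε : ℝ), 0 < δ → 0 < ε → ∃ c' : ℝ, 0 < c' ∧ ∃ N₀ : ℕ, ∀ N : ℕ, N₀ ≤ N →
          (({m ∈ I N | ¬ NormalFromTo B w ((N : ℝ) ^ (κ + δ)) (A * Real.log N)
            (ε * Real.log N) (g m)}.ncard : ℕ) : ℝ) ≤ (N : ℝ) ^ (-c') * ((I N).ncard : ℝ)) ∧
        (∀ (b : ℕ) (A : ℝ), 2 ≤ b → 0 < A →
          (Normal b x → ∀ (w : ℕ) (ε : ℝ), 0 < ε → ∃ c' : ℝ, 0 < c' ∧ ∃ N₀ : ℕ, ∀ N : ℕ, N₀ ≤ N →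
            (({m ∈ I N | ¬ NormalUpTo b w (A * Real.log N) (ε * Real.log N) (g m)}.ncard : ℕ) : ℝ) ≤
              (N : ℝ) ^ (-c') * ((I N).ncard : ℝ)) ∧
          (∀ η : ℝ, η < 1 → (∀ (w : ℕ) (ε : ℝ), 0 < ε → ∀ᶠ N : ℕ in atTop,
            (N : ℝ) ^ (-η) * ((I N).ncard : ℝ) ≤
              (({m ∈ I N | NormalUpTo b w (A * Real.log N) (ε * Real.log N) (g m)}.ncard : ℕ) : ℝ)) →
            Normal b x))) ∧
      (∀ (B w : ℕ) (A δ ε : ℝ), 0 < δ → 0 < ε → ∃ c' : ℝ, 0 < c' ∧ ∃ N₀ : ℕ, ∀ N : ℕ, N₀ ≤ N →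
        (({m ∈ I N | ¬ JointlyNormalFromTo B w ((N : ℝ) ^ (4 + δ)) (A * Real.log N)
          (ε * Real.log N) (inscribed m) (circumscribed m)}.ncard : ℕ) : ℝ) ≤
          (N : ℝ) ^ (-c') * ((I N).ncard : ℝ)) := by
  refine ⟨approx_all, fun I hI => ?_⟩
  obtain ⟨J, hJ, hgood⟩ := Index_fin hI
  have hcard : ∀ N, ((I N).ncard : ℕ) = (J N).card := fun N => by
    rw [hJ, Set.ncard_coe_finset]
  refine ⟨?_, ?_⟩
  · rintro x κ g hκ ⟨α, c, n, hα, hαt, hexp, hα0, hc0, hn, hαn, hcz, hcn⟩
    refine ⟨?_, ?_⟩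
    · intro B w A δ ε hδ hε
      obtain ⟨c', hc', M0, hM0⟩ := Pool.Agent.Q270.SQ.norm_E1 hα hαt hexp hκ hαn hcn hgood A δ hδ
        B w ε hε
      refine ⟨c', hc', M0, fun N hN => ?_⟩
      rw [ncard_eq (hJ N), hcard, mul_comm ((N : ℝ) ^ (-c'))]
      refine le_trans (Nat.cast_le.2 (Finset.card_le_card fun p hp => ?_)) (hM0 N hN)
      simp only [Finset.mem_filter] at hp ⊢
      refine ⟨hp.1, fun h2 => hp.2 ?_⟩
      intro b hb hbB k D s L hk hkw hD hs hsL
      rw [count_eq]
      exact h2 b hb hbB k D s L hk hkw hD hs hsL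
    · intro b A hb hA
      obtain ⟨h1, h2⟩ := Pool.Agent.Q270.SQ.criterion hb hα hαt hexp hα0 hc0 hn hκ hαn hcz hcn
        hgood hA
      refine ⟨fun hx w ε hε => ?_, fun η hη h => ?_⟩
      · obtain ⟨c', hc', M0, hM0⟩ := h1 ((normal_iff b x).1 hx) w ε hε
        refine ⟨c', hc', M0, fun N hN => ?_⟩
        rw [ncard_eq (hJ N), hcard, mul_comm ((N : ℝ) ^ (-c'))]
        simp only [normalUpTo_iff]
        exact hM0 N hN
      · rw [normal_iff]
        refine h2 η hη fun w ε hε => ?_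
        filter_upwards [h w ε hε] with N hN
        rw [ncard_eq (hJ N), hcard] at hN
        simp only [normalUpTo_iff] at hN
        exact hN
  · intro B w A δ ε hδ hε
    obtain ⟨c', hc', M0, hM0⟩ := joint hgood A δ hδ B w ε hε
    refine ⟨c', hc', M0, fun N hN => ?_⟩
    rw [ncard_eq (hJ N), hcard, mul_comm ((N : ℝ) ^ (-c'))]
    convert hM0 N hN

end Pool.Agent.Results.MP_57632f_nt.ClassicalApproximations
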