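import Pool.Agent.Q187.EX.Main

/-!
# Cohomological dimension: reduction to the rational numbers and to `Ext^2(1, S)`

`A` is the category of mixed potentially semistable `ℓ`-adic representations over `ℚ`, `B k` the one
over the number field `k`, with restriction and induction. `Ext^n` vanishes identically for `B k`
if and only if it does for `A`, for each `n`; and all `Ext^n`, `n ≥ 2`, of all `B k` vanish if and
only if `Ext^2(1, S) = 0` in `A` for all simple objects `S`.
-/

set_option autoImplicit false

universe w v u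

open CategoryTheory Abelian MonoidalCategory

namespace Pool.Agent.Results.MP_5968e7_ag.ReductionToTheRationals

open Pool.Agent.Q187.EX

theorem result (A : Type u) [Category.{v} A] [Abelian A] [HasExt.{w} A] [MonoidalCategory A]
    [MonoidalPreadditive A] [RigidCategory A] (hf : ∀ W : A, FinLen W) (ι : Type)
    (B : ι → Type u) [∀ k, Category.{v} (B k)] [∀ k, Abelian (B k)] [∀ k, HasExt.{w} (B k)]
    (D : ∀ k, ResInd A (B k)) :
    (∀ k n, Vanish.{w} (B k) n ↔ Vanish.{w} A n) ∧
    (((∀ n, 2 ≤ n → Vanish.{w} A n) ∧ ∀ k n, 2 ≤ n → Vanish.{w} (B k) n) ↔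
      ∀ S : A, Simple S → ∀ x : Ext.{w} (𝟙_ A) S 2, x = 0) := by
  refine ⟨fun k n => (vanish_iff (D k) n).symm, fun h => (main hf).1 h.1, fun h => ?_⟩
  have h1 := (main hf).2 h
  exact ⟨h1, fun k n hn => (vanish_iff (D k) n).1 (h1 n hn)⟩

end Pool.Agent.Results.MP_5968e7_ag.ReductionToTheRationals
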