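import Pool.Agent.Q138.PS.XL
import Pool.Agent.Results.MP_59f3ad_nt.LeopoldtAlongRealMultiples

/-!
# Leopoldt's conjecture at all primes `p ≤ |t| ^ c` for ALL `± t` close to the powers of a real number

Let `P_1, ..., P_r` be distinct monic polynomials with integral coefficients, each of them linear or quadratic without real
roots, and `F_t = (X - t) P_1 ⋯ P_r - 1`. For almost all real numbers `α > 1`, for ALL these families, all `c ≥ 0` and all
`l` with `2 c + l < 1`, all positive algebraic numbers `b`, all integers `j` and all large `n`: for EVERY integer `t ≠ 0` with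
`||t| - b n ^ j α ^ n| ≤ D (b n ^ j α ^ n) ^ l` the polynomial `F_t` is irreducible over `ℚ`, and the number field
generated by one of its roots has the expected signature and satisfies Leopoldt's conjecture at all primes `p ≤ |t| ^ c`.
For fixed `c` and `l` the exceptional `α` form a set of Hausdorff dimension at most `2 c / (1 - l)`.
-/

set_option autoImplicit false

namespace Pool.Agent.Results.MP_59f3ad_nt.LeopoldtNearPowers

open Finset Filter Topology MeasureTheory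
open Pool.Agent.Q138.PS
open Polynomial NumberField IntermediateField Pool.Agent.W254.LF
open LeopoldtAlongRealMultiples (Good good_mono Bad few)

/-- the families `P_1, ..., P_r`, `r ≥ 1`, of distinct monic polynomials, each of them linear or quadratic without real
roots -/
def Family {r : ℕ} (P : Fin r → ℤ[X]) : Prop :=
  0 < r ∧ (∀ i, (P i).Monic) ∧ Function.Injective P ∧
    ∀ i, (P i).natDegree = 1 ∨ ((P i).natDegree = 2 ∧ ∀ x : ℝ, ((P i).map (Int.castRingHom ℝ)).eval x ≠ 0)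

/-- for all families, all positive algebraic numbers `b`, all integers `j`, all `D` and all large `n`: `Good P t (|t| ^ c)`
for EVERY integer `t ≠ 0` with `||t| - b n ^ j α ^ n| ≤ D (b n ^ j α ^ n) ^ l` -/
def AllGood (α c l : ℝ) : Prop :=
  ∀ (r : ℕ) (P : Fin r → ℤ[X]), Family P → ∀ b : ℝ, 0 < b → IsAlgebraic ℚ b → ∀ (j : ℤ) (D : ℝ), ∀ᶠ n : ℕ in atTop,
    ∀ t : ℤ, t ≠ 0 → |(|(t : ℝ)| - b * (n : ℝ) ^ j * α ^ n)| ≤ D * (b * (n : ℝ) ^ j * α ^ n) ^ l →
      Good P t (|(t : ℝ)| ^ c)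

theorem one_le_abs' {t : ℤ} (ht0 : t ≠ 0) : (1 : ℝ) ≤ |(t : ℝ)| := by
  have h6 : (1 : ℤ) ≤ |t| := Int.one_le_abs ht0
  have h7 : ((1 : ℤ) : ℝ) ≤ ((|t| : ℤ) : ℝ) := by exact_mod_cast h6
  rw [Int.cast_abs] at h7
  simpa using h7

theorem AllGood.mono {α c c' l l' : ℝ} (hα : 1 < α) (h : AllGood α c' l') (hc : c ≤ c') (hl : l ≤ l') : AllGood α c l := by
  intro r P hP b hb hba j D
  filter_upwards [h r P hP b hb hba j |D|, (grow hα hb j).eventually_ge_atTop 1] with n h1 h2 t ht h3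
  refine good_mono P t (Real.rpow_le_rpow_of_exponent_le (one_le_abs' ht) hc) (h1 t ht (h3.trans ?_))
  have h4 : (b * (n : ℝ) ^ j * α ^ n) ^ l ≤ (b * (n : ℝ) ^ j * α ^ n) ^ l' := Real.rpow_le_rpow_of_exponent_le h2 hl
  have h5 : 0 ≤ (b * (n : ℝ) ^ j * α ^ n) ^ l := by positivity
  exact mul_le_mul (le_abs_self D) h4 h5 (abs_nonneg D)

theorem part1 (c l : ℝ) (hc : 0 ≤ c) (hl : l < 1) :
    ∃ E : Set ℝ, dimH E ≤ ENNReal.ofReal (2 * c / (1 - l)) ∧ ∀ α : ℝ, 1 < α → α ∉ E → AllGood α c l := by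
  classical
  obtain ⟨E, hE, hg⟩ := pow_alg (ι := {P : (Σ r : ℕ, Fin r → ℤ[X]) // Family P.2}) (fun i => {m | Bad i.1.2 c m}) (2 * c) l
    (by positivity) hl (fun i ε hε => by
      obtain ⟨⟨r, P⟩, hr, hmon, hinj, hdeg⟩ := i
      obtain ⟨C₁, hC₁⟩ := few P hr hmon hinj hdeg hc
      refine ⟨|C₁|, fun T hT => ?_⟩
      have hT0 : 0 < T := by linarith
      have h1 : 1 ≤ ⌊T⌋₊ := Nat.le_floor (by exact_mod_cast hT)
      have h2 := hC₁ ⌊T⌋₊ h1
      have h3 : (({m | m ∈ {m | Bad P c m} ∧ (m : ℝ) ≤ T}).ncard : ℝ) ≤ cn (Bad P c) ⌊T⌋₊ := by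
        unfold cn
        rw [← Set.ncard_coe_finset]
        refine Nat.cast_le.2 (Set.ncard_le_ncard ?_ (Finset.finite_toSet _))
        rintro m ⟨hm1, hm2⟩
        obtain ⟨t, ht1, ht2, ht3⟩ := hm1
        rw [Finset.mem_coe, mem_filter, mem_Icc]
        exact ⟨⟨by omega, Nat.le_floor hm2⟩, t, ht1, ht2, ht3⟩
      refine h3.trans (h2.trans ?_)
      have h4 : (⌊T⌋₊ : ℝ) ^ (2 * c) ≤ T ^ (2 * c + ε) :=
        (Real.rpow_le_rpow (by positivity) (Nat.floor_le hT0.le) (by positivity)).trans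
          (Real.rpow_le_rpow_of_exponent_le hT (by linarith))
      exact mul_le_mul (le_abs_self _) h4 (by positivity) (abs_nonneg _))
  refine ⟨E, hE, fun α hα hαE r P hP b hb hba j D => ?_⟩
  filter_upwards [hg α hα hαE ⟨⟨r, P⟩, hP⟩ b hb hba j D] with n hn t ht h1
  by_contra hcon
  refine hn t.natAbs ?_ ⟨t, ht, rfl, hcon⟩
  unfold NearPow
  have h2 : ((t.natAbs : ℕ) : ℝ) = |(t : ℝ)| := by
    rw [Nat.cast_natAbs, Int.cast_abs]
  rw [h2]
  exact h1

/-- **Theorem.** -/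
theorem result :
    (∀ c l : ℝ, 0 ≤ c → l < 1 →
      ∃ E : Set ℝ, dimH E ≤ ENNReal.ofReal (2 * c / (1 - l)) ∧ ∀ α : ℝ, 1 < α → α ∉ E → AllGood α c l) ∧
    (∀ᵐ α : ℝ, 1 < α → ∀ c l : ℝ, 0 ≤ c → 2 * c + l < 1 → AllGood α c l) := by
  refine ⟨part1, ?_⟩
  have h1 : ∀ q : {q : ℚ × ℚ // (0 : ℝ) ≤ q.1 ∧ 2 * (q.1 : ℝ) + q.2 < 1}, ∀ᵐ α : ℝ, 1 < α → AllGood α q.1.1 q.1.2 := by
    rintro ⟨⟨c, l⟩, hc, hl⟩
    simp only at hc hl ⊢
    obtain ⟨E, hE, hg⟩ := part1 c l hc (by linarith)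
    have hnull : volume E = 0 := null_of_dim (by
      rw [div_lt_one (by linarith)]
      linarith) hE
    have hae : ∀ᵐ α : ℝ, α ∉ E := measure_eq_zero_iff_ae_notMem.1 hnull
    filter_upwards [hae] with α h2 h3
    exact hg α h3 h2
  filter_upwards [ae_all_iff.2 h1] with α h2 hα c l hc hl
  obtain ⟨c', h3, h4⟩ := exists_rat_btwn (show c < (1 - l - 2 * c) / 4 + c by linarith)
  obtain ⟨l', h5, h6⟩ := exists_rat_btwn (show l < (1 - l - 2 * c) / 4 + l by linarith)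
  exact (h2 ⟨(c', l'), hc.trans h3.le, by simp only; linarith⟩ hα).mono hα h3.le h5.le

end Pool.Agent.Results.MP_59f3ad_nt.LeopoldtNearPowers
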