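import Pool.Agent.Q240.SH.Both

/-!
# MP_5a4862_nt: zeros of derivatives and of linear differential polynomials of zeta left of the line

By Speiser the Riemann hypothesis holds if and only if the derivative of zeta has no zeros with
`0 < Re s < 1/2`. Here, with no hypothesis: let `F` be any function `P(D) ζ (s) + ∑ c(l) exp (-l s)`
(`D = d/ds`, `P` a nonzero polynomial, a finite sum with real `l`); for instance a derivative of zeta, or
`ζ - a`. Any two such functions `F, G` have the same zeros to the left of the critical line in a coarse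
sense: high up, a zero of `F` at a distance at least `ε` from a vertical line `Re s = α ≤ 1/2` has within
a bounded distance a zero of `G` on the same side. Hence, for each single `F`, zeta has only finitely many
zeros in each half-plane `Re s ≥ 1 - α + ε` if and only if `F` has only finitely many in each strip
`0 ≤ Re s ≤ α - ε`. A zero-free half-plane of zeta to the left of `Re s = 1` exists if and only if this
holds for some `α > 0`; the case `α = 1/2` is the Riemann hypothesis up to finitely many zeros in each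
half-plane.
-/

set_option autoImplicit false

open Polynomial

namespace Pool.Agent.Results.MP_5a4862_nt.DerivativeShadows

/-- `P(D) ζ (s) + ∑ c(l) exp (-l s)`, where `D = d/ds` and `l` runs over the finite set `S` of reals. -/
noncomputable def F (P : ℂ[X]) (S : Finset ℝ) (c : ℝ → ℂ) (s : ℂ) : ℂ :=
  ∑ i ∈ Finset.range (P.natDegree + 1), P.coeff i * iteratedDeriv i riemannZeta s +
    ∑ l ∈ S, c l * Complex.exp (-(l * s))

/-- For every `ε > 0` the function `F P S c` has only finitely many zeros with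
`0 ≤ Re s ≤ α - ε`. -/
def StripFree (P : ℂ[X]) (S : Finset ℝ) (c : ℝ → ℂ) (α : ℝ) : Prop :=
  ∀ ε : ℝ, 0 < ε → {s : ℂ | 0 ≤ s.re ∧ s.re ≤ α - ε ∧ F P S c s = 0}.Finite

/-- For every `ε > 0` zeta has only finitely many zeros with `Re s ≥ θ + ε`. -/
def AlmostFree (θ : ℝ) : Prop :=
  ∀ ε : ℝ, 0 < ε → {ρ : ℂ | θ + ε ≤ ρ.re ∧ riemannZeta ρ = 0}.Finite

theorem result :
    (∀ (P Q : ℂ[X]) (S R : Finset ℝ) (c d : ℝ → ℂ) (α ε : ℝ), P ≠ 0 → Q ≠ 0 → α ≤ 1 / 2 → 0 < ε →
      ∃ C T : ℝ, ∀ ρ : ℂ, F P S c ρ = 0 → 0 ≤ ρ.re → ρ.re ≤ α - ε → T ≤ |ρ.im| →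
        ∃ s : ℂ, F Q R d s = 0 ∧ 0 < s.re ∧ s.re < α ∧ |s.im - ρ.im| ≤ C) ∧
    (∀ (P : ℂ[X]) (S : Finset ℝ) (c : ℝ → ℂ) (α : ℝ), P ≠ 0 → α ≤ 1 / 2 →
      (StripFree P S c α ↔ AlmostFree (1 - α))) := by
  refine ⟨fun P Q S R c d α ε hP hQ hα hε => ?_, fun P S c α hP hα => Q240.SH.crit P hP S c α hα⟩
  obtain ⟨C, T, -, h⟩ := Q240.SH.both P Q hP hQ S R c d α ε hε hα
  exact ⟨C, T, h⟩

end Pool.Agent.Results.MP_5a4862_nt.DerivativeShadows
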