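import Pool.Agent.Q120.NB.AsmD
import Pool.Agent.Q65.NB.LB
import Pool.Agent.Q31.NB.PER
import Pool.Agent.Q26.NB.ZB
import Pool.Agent.Q26.NB.UP
import Pool.Agent.Q224.NB.HOL
import Pool.Agent.Q224.NB.XY
import Pool.Agent.Q129.NB.TR
import Pool.Agent.Q129.NB.Mel
import Pool.Agent.Q211.NB.SUP
import Pool.Agent.Q211.NB.LBI
import Pool.Agent.Q211.NB.HO2

/-!
# Zero-free half planes and the exact exponents in the Nyman-Beurling-Báez-Duarte approximation problem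

`χ` is the indicator function of `(0, 1]`, `Θ` the supremum of the real parts of the zeros of the Riemann zeta function.
`D p σ N` is the distance of `χ` to the span of the functions `{1/(n x)}`, `n ≤ N`, in the norm of `x^σ f(x)` in
`L^p((0,∞), dx/x)`, `1 ≤ p ≤ ∞`, `0 < σ < 1` (for `σ = 1/p` this is the norm of `L^p(0,∞)`); `DR p σ lam` is the distance
to the span of the functions `{θ/x}`, `lam ≤ θ ≤ 1`.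

Then `D p σ N = N^(-max(0, σ - Θ) + o(1))`, for every `p` and every `σ`.
-/

set_option autoImplicit false

open Complex MeasureTheory Filter Topology Set
open scoped ENNReal
open Pool.Agent.Q120.NB

namespace Pool.Agent.Results.MP_5a4862_nt.NymanBeurlingExponents

theorem up : J_UP :=
  Pool.Agent.Q26.NB.t_UP Pool.Agent.Q129.NB.t_MEL Pool.Agent.Q31.NB.t_PER Pool.Agent.Q26.NB.t_ZB

theorem jobs : Jobs where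
  XY := t_XY
  LB := Pool.Agent.Q65.NB.t_LB Pool.Agent.Q129.NB.t_TR
  LBI := Pool.Agent.Q211.NB.t_LBI Pool.Agent.Q129.NB.t_TR
  MEL := Pool.Agent.Q129.NB.t_MEL
  UP := up
  HOL := t_HOL
  SUP := Pool.Agent.Q211.NB.t_SUP Pool.Agent.Q129.NB.t_MEL Pool.Agent.Q31.NB.t_PER up
  HO2 := Pool.Agent.Q211.NB.t_HO2

/-- **The exact exponents in the Nyman-Beurling-Báez-Duarte approximation problem.** -/
theorem result :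
    -- (1) the exponents of the distances
    (∀ (p : ℝ≥0∞) (σ : ℝ), 1 ≤ p → 0 < σ → σ < 1 → ∀ ε : ℝ, 0 < ε →
      (∀ᶠ N : ℕ in atTop, ENNReal.ofReal ((N : ℝ) ^ (-max 0 (σ - Theta) - ε)) ≤ D p σ N ∧
        D p σ N ≤ ENNReal.ofReal ((N : ℝ) ^ (-max 0 (σ - Theta) + ε))) ∧
      (∀ᶠ lam : ℝ in 𝓝[>] 0, ENNReal.ofReal (lam ^ (max 0 (σ - Theta) + ε)) ≤ DR p σ lam ∧
        DR p σ lam ≤ ENNReal.ofReal (lam ^ (max 0 (σ - Theta) - ε)))) ∧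
    -- (2) the coefficients `-μ(n)(1 - n/N)` attain the exponent
    (∀ (p : ℝ≥0∞) (σ : ℝ), 1 ≤ p → Theta < σ → σ < 1 → ∀ ε : ℝ, 0 < ε → ∀ᶠ N : ℕ in atTop,
      nrm p σ (err N (mob N)) ≤ ENNReal.ofReal ((N : ℝ) ^ (-(σ - Theta) + ε))) ∧
    -- (3) the lower bound given by one zero
    (∀ (p : ℝ≥0∞) (σ : ℝ), 1 ≤ p → 0 < σ → σ < 1 → ∀ ρ ∈ zeros, ∃ c : ℝ, 0 < c ∧
      ∀ lam : ℝ, 0 < lam → lam ≤ 1 / 2 →
        (ρ.re < σ → ENNReal.ofReal (c * lam ^ (σ - ρ.re)) ≤ DR p σ lam) ∧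
        (ρ.re = σ → ENNReal.ofReal (c * Real.log (1 / lam) ^ (-(1 - (p⁻¹).toReal))) ≤ DR p σ lam) ∧
        (σ < ρ.re → ENNReal.ofReal c ≤ DR p σ lam)) ∧
    -- (4) zero-free half planes
    (∀ (p : ℝ≥0∞) (θ σ : ℝ), 1 ≤ p → 1 / 2 ≤ θ → θ < σ → σ < 1 →
      List.TFAE [∀ s : ℂ, θ < s.re → riemannZeta s ≠ 0,
        ∀ ε : ℝ, 0 < ε → ∀ᶠ N : ℕ in atTop, D p σ N ≤ ENNReal.ofReal ((N : ℝ) ^ (-(σ - θ) + ε)),
        ∀ ε : ℝ, 0 < ε → ∃ᶠ N : ℕ in atTop, D p σ N ≤ ENNReal.ofReal ((N : ℝ) ^ (-(σ - θ) + ε)),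
        ∀ ε : ℝ, 0 < ε → ∃ᶠ lam : ℝ in 𝓝[>] 0, DR p σ lam ≤ ENNReal.ofReal (lam ^ (σ - θ - ε))]) ∧
    -- (5) the question
    List.TFAE [∃ σ0 : ℝ, 1 / 2 < σ0 ∧ σ0 < 1 ∧ ∀ s : ℂ, σ0 ≤ s.re → riemannZeta s ≠ 0,
      ∃ σ δ : ℝ, 0 < σ ∧ σ < 1 ∧ 0 < δ ∧ ∀ p : ℝ≥0∞, 1 ≤ p → ∀ᶠ N : ℕ in atTop,
        D p σ N ≤ ENNReal.ofReal ((N : ℝ) ^ (-δ)),
      ∃ (p : ℝ≥0∞) (σ δ : ℝ), 1 ≤ p ∧ 0 < σ ∧ σ < 1 ∧ 0 < δ ∧ ∃ᶠ N : ℕ in atTop,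
        D p σ N ≤ ENNReal.ofReal ((N : ℝ) ^ (-δ)),
      ∃ (p : ℝ≥0∞) (σ δ : ℝ), 1 ≤ p ∧ 0 < σ ∧ σ < 1 ∧ 0 < δ ∧ ∃ᶠ lam : ℝ in 𝓝[>] 0,
        DR p σ lam ≤ ENNReal.ofReal (lam ^ δ)] ∧
    -- (6) the Riemann hypothesis
    (∀ (p : ℝ≥0∞) (σ : ℝ), 1 ≤ p → 1 / 2 < σ → σ < 1 →
      (RiemannHypothesis ↔ ∀ ε : ℝ, 0 < ε → ∃ᶠ N : ℕ in atTop,
        D p σ N ≤ ENNReal.ofReal ((N : ℝ) ^ (-(σ - 1 / 2) + ε)))) := by
  have J := jobs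
  refine ⟨fun p σ hp h0 h1 ε hε => ⟨?_, ?_⟩, fun p σ hp h0 h1 ε hε => mob_upper J hp h0 h1 hε,
    fun p σ hp h0 h1 ρ hρ => lower_DR J hp h0 h1 ρ hρ, fun p θ σ hp hθ h0 h1 => free_iff J hp hθ h0 h1,
    q1_tfae J, fun p σ hp h0 h1 => ?_⟩
  · exact (D_lower J hp h0 h1 hε).and (D_upper J hp h0 h1 hε)
  · exact (DR_lower J hp h0 h1 hε).and (DR_upper J hp h0 h1 hε)
  · rw [rh_iff, Theta_le_iff le_rfl]
    exact (free_iff J hp le_rfl h0 h1).out 0 2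

end Pool.Agent.Results.MP_5a4862_nt.NymanBeurlingExponents
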