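import Pool.Agent.Q286.TR.Zeta

/-!
# The number of zeros of zeta in a triangle, from the primes

Fix `γ > π/2` and a slope `τ > 0` and put `K(u) = Im (cos (γ (1 + iτ) u) / Γ(1 + (1 + iτ) u))`.  For
`s = σ + it` with `σ ≥ 0` consider the real series

  `A(X) = ∑_n Λ(n) cos (t log n) / (n^σ log n) · K(log n / log X)`,

and `B(X)`, with `sin` in place of `cos`.  We prove, unconditionally,

  `A(X) = π (N - P) + O(1 / log X)`,   `B(X) = O(1 / log X)`,

where `N` is the number of zeros `ρ` of `ζ` in the triangle `|Im ρ - t| ≤ τ (Re ρ - σ)`, `Re ρ < 1`, with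
multiplicities, the zeros on the two sides through `s` being counted with weight `1/2` and a zero at `s`
itself with weight `arctan τ / π`, and `P` is the same weight of the pole `1`.

So there is no zero in `Re s > σ₁` if and only if `A(X) → - π P` for all rational `σ > σ₁` and `t`, and
Q1 has a positive answer if and only if for some `σ ∈ (1/2, 1)` the countably many series with
`t = k τ (1 - σ)`, `k = 2, 3, …`, tend to `0`.

Proof.  `1 / Γ(1 + v)` is the transform of the kernel `exp (exp z)` of Mittag-Leffler also for complex `v` in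
the right half plane.  So the means of `log ζ` with the kernel `exp (i γ v) / Γ(1 + v)`, `v = (1 ± iτ) u`, are
integrals along the two sides of the triangle, at a distance of order `1 / log X`, and converge to the
values at `s` of the branches of `log ζ` continued along the two sides.  The difference of the two
branches is the number of zeros minus the number of poles between them.
-/

set_option autoImplicit false

open Filter Topology Complex Set

namespace Pool.Agent.Results.MP_5a4862_nt.ZerosInTriangles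

/-- the kernel `K(u) = Im (cos (γ (1 + iτ) u) / Γ(1 + (1 + iτ) u))` -/
noncomputable def K (γ τ u : ℝ) : ℝ :=
  (Complex.cos (γ * ((1 + τ * I) * u)) / Complex.Gamma (1 + (1 + τ * I) * u)).im

/-- the terms of the series `A` -/
noncomputable def termA (γ τ σ t X : ℝ) (n : ℕ) : ℝ :=
  ArithmeticFunction.vonMangoldt n * Real.cos (t * Real.log n) / ((n : ℝ) ^ σ * Real.log n) *
    K γ τ (Real.log n / Real.log X)

/-- the terms of the series `B` -/
noncomputable def termB (γ τ σ t X : ℝ) (n : ℕ) : ℝ :=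
  ArithmeticFunction.vonMangoldt n * Real.sin (t * Real.log n) / ((n : ℝ) ^ σ * Real.log n) *
    K γ τ (Real.log n / Real.log X)

/-- `∑_n Λ(n) cos (t log n) / (n^σ log n) · K(log n / log X)` -/
noncomputable def A (γ τ σ t X : ℝ) : ℝ := ∑' n : ℕ, termA γ τ σ t X n

/-- `∑_n Λ(n) sin (t log n) / (n^σ log n) · K(log n / log X)` -/
noncomputable def B (γ τ σ t X : ℝ) : ℝ := ∑' n : ℕ, termB γ τ σ t X n

/-- the weight of `z` for the sector with apex `0` and slopes `± τ`: `1` in the interior, `1/2` on the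
sides, `arctan τ / π` at the apex, `0` outside -/
noncomputable def weight (τ : ℝ) (z : ℂ) : ℝ :=
  if z = 0 then Real.arctan τ / Real.pi else
    if |z.im| < τ * z.re then 1 else if |z.im| = τ * z.re then 1 / 2 else 0

/-- the zeros of `ζ` in the triangle with apex `σ + i t`, with multiplicities and weights -/
noncomputable def zeros (τ σ t : ℝ) : ℝ :=
  ∑ᶠ ρ : ℂ, weight τ (ρ - (σ + t * I)) * (analyticOrderNatAt riemannZeta ρ : ℝ)

/-- the weight of the pole `1` -/
noncomputable def pole (τ σ t : ℝ) : ℝ := weight τ (1 - (σ + t * I))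

open Pool.Agent.Q286.ZR Pool.Agent.Q286.RL Pool.Agent.Q286.TR

theorem weight_eq : weight = wt := rfl

theorem K_eq (γ τ u : ℝ) : K γ τ u = kt γ τ u := by
  unfold K kt kk mu
  rw [div_eq_mul_inv]

/-- **Theorem.** Let `γ > π/2` and `τ > 0`.

(a) For all `σ ≥ 0` and all `t` the triangle `|Im ρ - t| ≤ τ (Re ρ - σ)` contains only finitely many
zeros of `ζ`, for large `X` the two series converge absolutely, and
`A(X) = π (zeros - pole) + O(1 / log X)`, `B(X) = O(1 / log X)`.

(b) For `0 ≤ σ₁ < 1`: `ζ(s) ≠ 0` for `Re s > σ₁` if and only if `A(X) → - π pole` for all rational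
`σ > σ₁` and `t`.

(c) There is `σ₀ ∈ (1/2, 1)` such that `ζ(s) ≠ 0` for `Re s ≥ σ₀` if and only if there is
`σ ∈ (1/2, 1)` such that `A(X) → 0` for `t = k τ (1 - σ)` for all integers `k ≥ 2`. -/
theorem result (γ τ : ℝ) (hγ : Real.pi / 2 < γ) (hτ : 0 < τ) :
    (∀ σ t : ℝ, 0 ≤ σ →
      {ρ : ℂ | riemannZeta ρ = 0 ∧ |ρ.im - t| ≤ τ * (ρ.re - σ)}.Finite ∧
      ∃ C X₀ : ℝ, ∀ X ≥ X₀,
        Summable (fun n => |termA γ τ σ t X n|) ∧ Summable (fun n => |termB γ τ σ t X n|) ∧
        |A γ τ σ t X - Real.pi * (zeros τ σ t - pole τ σ t)| ≤ C / Real.log X ∧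
        |B γ τ σ t X| ≤ C / Real.log X) ∧
    (∀ σ₁ : ℝ, 0 ≤ σ₁ → σ₁ < 1 →
      ((∀ s : ℂ, σ₁ < s.re → riemannZeta s ≠ 0) ↔
        ∀ σ t : ℚ, σ₁ < σ → Tendsto (A γ τ σ t) atTop (𝓝 (-(Real.pi * pole τ σ t))))) ∧
    ((∃ σ₀ : ℝ, 1 / 2 < σ₀ ∧ σ₀ < 1 ∧ ∀ s : ℂ, σ₀ ≤ s.re → riemannZeta s ≠ 0) ↔
      ∃ σ : ℝ, 1 / 2 < σ ∧ σ < 1 ∧ ∀ k : ℕ, 2 ≤ k →
        Tendsto (A γ τ σ (k * (τ * (1 - σ)))) atTop (𝓝 0)) := by
  have hsre : ∀ σ t : ℝ, ((σ : ℂ) + t * I).re = σ := fun σ t => by simp
  have hsim : ∀ σ t : ℝ, ((σ : ℂ) + t * I).im = t := fun σ t => by simp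
  have law : ∀ σ t : ℝ, 0 ≤ σ → ∃ C X₀ : ℝ, ∀ X ≥ X₀,
        Summable (fun n => |termA γ τ σ t X n|) ∧ Summable (fun n => |termB γ τ σ t X n|) ∧
        |A γ τ σ t X - Real.pi * (zeros τ σ t - pole τ σ t)| ≤ C / Real.log X ∧
        |B γ τ σ t X| ≤ C / Real.log X := by
    intro σ t hσ
    obtain ⟨C, T₀, hC, hT₀, h⟩ := zeta_tri (s := (σ : ℂ) + t * I) (by rw [hsre]; exact hσ) hτ hγ
    refine ⟨C, Real.exp T₀, fun X hX => ?_⟩
    have hX0 : 0 < X := (Real.exp_pos _).trans_le hX
    obtain ⟨h1, h2⟩ := h (Real.log X) ((Real.le_log_iff_exp_le hX0).2 hX)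
    have hA : HasSum (termA γ τ σ t X)
        (tmn dlam (zco ((σ : ℂ) + t * I)) γ τ (Real.log X)).re := by
      refine (Complex.hasSum_re h1).congr_fun fun n => ?_
      rw [Complex.re_mul_ofReal, (zco_re _ n).1, hsre, hsim]
      unfold termA
      rw [K_eq]
      rfl
    have hB : HasSum (fun n => -termB γ τ σ t X n)
        (tmn dlam (zco ((σ : ℂ) + t * I)) γ τ (Real.log X)).im := by
      refine (Complex.hasSum_im h1).congr_fun fun n => ?_
      rw [Complex.im_mul_ofReal, (zco_re _ n).2, hsre, hsim]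
      unfold termB
      rw [K_eq]
      unfold dlam
      ring
    have hB' : HasSum (termB γ τ σ t X)
        (-(tmn dlam (zco ((σ : ℂ) + t * I)) γ τ (Real.log X)).im) := by
      have := hB.neg
      simpa using this
    refine ⟨hA.summable.abs, hB'.summable.abs, ?_, ?_⟩
    · have h3 := (Complex.abs_re_le_norm _).trans h2
      rw [Complex.sub_re, Complex.ofReal_re] at h3
      unfold A
      rw [hA.tsum_eq]
      exact h3
    · have h3 := (Complex.abs_im_le_norm _).trans h2
      rw [Complex.sub_im, Complex.ofReal_im, sub_zero] at h3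
      unfold B
      rw [hB'.tsum_eq, abs_neg]
      exact h3
  have lim : ∀ σ t : ℝ, 0 ≤ σ →
      Tendsto (A γ τ σ t) atTop (𝓝 (Real.pi * (zeros τ σ t - pole τ σ t))) := by
    intro σ t hσ
    obtain ⟨C, X₀, h⟩ := law σ t hσ
    have h3 : Tendsto (fun X : ℝ => C / Real.log X) atTop (𝓝 0) :=
      Real.tendsto_log_atTop.const_div_atTop C
    rw [tendsto_iff_norm_sub_tendsto_zero]
    refine squeeze_zero' (Eventually.of_forall fun _ => norm_nonneg _) ?_ h3
    filter_upwards [eventually_ge_atTop X₀] with X hX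
    exact (h X hX).2.2.1
  have zer : ∀ σ t : ℝ, zeros τ σ t = 0 ↔
      ∀ ρ : ℂ, |ρ.im - t| ≤ τ * (ρ.re - σ) → riemannZeta ρ ≠ 0 := by
    intro σ t
    have h := zs_eq_zero_iff hτ ((σ : ℂ) + t * I)
    have e : zeros τ σ t = zs τ ((σ : ℂ) + t * I) := rfl
    rw [e, h]
    simp only [Complex.sub_re, Complex.sub_im, hsre, hsim]
  have hpi := Real.pi_pos
  refine ⟨fun σ t hσ => ⟨?_, law σ t hσ⟩, fun σ₁ h0 h1 => ?_, ?_⟩
  · have h := sector_finite (s := (σ : ℂ) + t * I) hτ
    simpa only [Complex.sub_re, Complex.sub_im, hsre, hsim] using h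
  · constructor
    · intro h σ t hσ
      have h2 : zeros τ (σ : ℝ) (t : ℝ) = 0 := by
        rw [zer]
        intro ρ hρ
        refine h ρ ?_
        have h3 : 0 ≤ ρ.re - σ := nonneg_of_mul_nonneg_right ((abs_nonneg _).trans hρ) hτ
        linarith
      have h3 := lim (σ : ℝ) (t : ℝ) (h0.trans hσ.le)
      rw [h2] at h3
      convert h3 using 2
      ring
    · intro h s hs h4
      obtain ⟨σ, hσ1, hσ2⟩ := exists_rat_btwn hs
      have hd : 0 < τ * (s.re - σ) := mul_pos hτ (by linarith)
      obtain ⟨t, ht1, ht2⟩ := exists_rat_btwn (show s.im - τ * (s.re - σ) < s.im by linarith)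
      have h5 := h σ t hσ1
      have h6 := lim (σ : ℝ) (t : ℝ) (h0.trans hσ1.le)
      have h7 := tendsto_nhds_unique h5 h6
      have h8 : zeros τ (σ : ℝ) (t : ℝ) = 0 := by
        have h9 : Real.pi * zeros τ (σ : ℝ) (t : ℝ) = 0 := by linarith
        exact (mul_eq_zero.1 h9).resolve_left hpi.ne'
      rw [zer] at h8
      refine h8 s ?_ h4
      rw [abs_of_pos (by linarith)]
      linarith
  · constructor
    · rintro ⟨σ₀, h1, h2, h3⟩
      refine ⟨σ₀, h1, h2, fun k hk => ?_⟩
      have h4 : zeros τ σ₀ (k * (τ * (1 - σ₀))) = 0 := by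
        rw [zer]
        intro ρ hρ
        refine h3 ρ ?_
        have h3 : 0 ≤ ρ.re - σ₀ := nonneg_of_mul_nonneg_right ((abs_nonneg _).trans hρ) hτ
        linarith
      have h5 : pole τ σ₀ (k * (τ * (1 - σ₀))) = 0 := by
        unfold pole
        rw [weight_eq]
        by_contra h
        have h6 := wt_mem h
        rw [Complex.sub_re, Complex.sub_im, hsre, hsim, Complex.one_re, Complex.one_im, zero_sub,
          abs_neg] at h6
        have h7 : 0 < τ * (1 - σ₀) := mul_pos hτ (by linarith)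
        have h8 : (2 : ℝ) ≤ k := by exact_mod_cast hk
        rw [abs_of_nonneg (by positivity)] at h6
        nlinarith
      have h6 := lim σ₀ (k * (τ * (1 - σ₀))) (by linarith)
      rw [h4, h5] at h6
      simpa using h6
    · rintro ⟨σ, h1, h2, h3⟩
      set h : ℝ := τ * (1 - σ) with hh
      have hh0 : 0 < h := mul_pos hτ (by linarith)
      have h4 : ∀ k : ℕ, 2 ≤ k → ∀ ρ : ℂ, |ρ.im - k * h| ≤ τ * (ρ.re - σ) → riemannZeta ρ ≠ 0 := by
        intro k hk
        rw [← zer]
        have h5 : pole τ σ (k * h) = 0 := by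
          unfold pole
          rw [weight_eq]
          by_contra h'
          have h6 := wt_mem h'
          rw [Complex.sub_re, Complex.sub_im, hsre, hsim, Complex.one_re, Complex.one_im, zero_sub,
            abs_neg] at h6
          have h8 : (2 : ℝ) ≤ k := by exact_mod_cast hk
          rw [abs_of_nonneg (by positivity), ← hh] at h6
          nlinarith
        have h6 := lim σ (k * h) (by linarith)
        rw [h5] at h6
        have h7 := tendsto_nhds_unique (h3 k hk) h6
        have h8 : Real.pi * zeros τ σ (k * h) = 0 := by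
          rw [sub_zero] at h7
          exact h7.symm
        exact (mul_eq_zero.1 h8).resolve_left hpi.ne'
      -- high zeros
      have h5 : ∀ ρ : ℂ, (1 + σ) / 2 ≤ ρ.re → 2 * h ≤ ρ.im → riemannZeta ρ ≠ 0 := by
        intro ρ hr hi
        set k : ℕ := ⌊ρ.im / h + 1 / 2⌋₊ with hk
        have hq : 2 ≤ ρ.im / h := by rwa [le_div_iff₀ hh0]
        have hk2 : 2 ≤ k := by
          rw [hk, Nat.le_floor_iff (by linarith)]
          push_cast
          linarith
        have hk3 : (k : ℝ) ≤ ρ.im / h + 1 / 2 := Nat.floor_le (by linarith)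
        have hk4 : ρ.im / h + 1 / 2 < k + 1 := Nat.lt_floor_add_one _
        refine h4 k hk2 ρ ?_
        have e1 : ρ.im / h * h = ρ.im := div_mul_cancel₀ _ hh0.ne'
        have e2 : |ρ.im - k * h| ≤ h / 2 := by
          rw [abs_le]
          constructor <;> nlinarith
        have e3 : h / 2 ≤ τ * (ρ.re - σ) := by
          have e4 : (1 - σ) / 2 ≤ ρ.re - σ := by linarith
          calc h / 2 = τ * ((1 - σ) / 2) := by rw [hh]; ring
            _ ≤ _ := mul_le_mul_of_nonneg_left e4 hτ.le
        linarith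
      -- low zeros
      have hfin : (Icc (1 / 2 : ℝ) 1 ×ℂ Icc (-(2 * h)) (2 * h) ∩ riemannZetaZeros).Finite :=
        (isCompact_Icc.reProdIm isCompact_Icc).inter_riemannZetaZeros_finite
      obtain ⟨σ₂, hs1, hs2, hs3⟩ : ∃ σ₂ : ℝ, 1 / 2 < σ₂ ∧ σ₂ < 1 ∧
          ∀ ρ ∈ (Icc (1 / 2 : ℝ) 1 ×ℂ Icc (-(2 * h)) (2 * h) ∩ riemannZetaZeros), ρ.re < σ₂ := by
        have hlt : ∀ ρ ∈ hfin.toFinset, ρ.re < 1 := by
          intro ρ hρ
          rw [Set.Finite.mem_toFinset] at hρ
          by_contra hc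
          exact riemannZeta_ne_zero_of_one_le_re (not_lt.1 hc) hρ.2
        have key : ∀ S : Finset ℂ, (∀ ρ ∈ S, ρ.re < 1) →
            ∃ σ₂ : ℝ, 1 / 2 < σ₂ ∧ σ₂ < 1 ∧ ∀ ρ ∈ S, ρ.re < σ₂ := by
          classical
          intro S
          induction S using Finset.induction_on with
          | empty => exact fun _ => ⟨3 / 4, by norm_num, by norm_num, by simp⟩
          | insert a S ha ih =>
            intro hS
            obtain ⟨σ₂, e1, e2, e3⟩ := ih fun ρ hρ => hS ρ (Finset.mem_insert_of_mem hρ)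
            have e4 := hS a (Finset.mem_insert_self _ _)
            refine ⟨max σ₂ ((1 + a.re) / 2), lt_max_of_lt_left e1, max_lt e2 (by linarith), ?_⟩
            intro ρ hρ
            rw [Finset.mem_insert] at hρ
            rcases hρ with rfl | hρ
            · exact lt_max_of_lt_right (by linarith)
            · exact lt_max_of_lt_left (e3 ρ hρ)
        obtain ⟨σ₂, e1, e2, e3⟩ := key _ hlt
        exact ⟨σ₂, e1, e2, fun ρ hρ => e3 ρ ((Set.Finite.mem_toFinset _).2 hρ)⟩
      refine ⟨max ((1 + σ) / 2) σ₂, lt_max_of_lt_right hs1, max_lt (by linarith) hs2,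
        fun s hs h0 => ?_⟩
      have hsa : (1 + σ) / 2 ≤ s.re := (le_max_left _ _).trans hs
      have hsb : σ₂ ≤ s.re := (le_max_right _ _).trans hs
      have hs1' : s.re < 1 := by
        by_contra hc
        exact riemannZeta_ne_zero_of_one_le_re (not_lt.1 hc) h0
      rcases lt_or_ge (2 * h) |s.im| with hc | hc
      · rcases le_or_gt 0 s.im with hp | hp
        · rw [abs_of_nonneg hp] at hc
          exact h5 s hsa hc.le h0
        · rw [abs_of_neg hp] at hc
          have h6 : riemannZeta ((starRingEnd ℂ) s) = 0 := by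
            rw [riemannZeta_conj, h0, map_zero]
          exact h5 _ (by simpa using hsa) (by simpa using hc.le) h6
      · have h6 := hs3 s ⟨by
          rw [Complex.mem_reProdIm]
          obtain ⟨e1, e2⟩ := abs_le.1 hc
          exact ⟨⟨by linarith, hs1'.le⟩, e1, e2⟩, h0⟩
        linarith

end Pool.Agent.Results.MP_5a4862_nt.ZerosInTriangles
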