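import Mathlib
import Pool.Agent.Q85.HL.M
set_option autoImplicit false

/-! The extension conjecture for the paraboloid in `ℝ³`, for all `q > 3`, for (countable sums of)
kernels which factor through a Hilbert space in some orthonormal frame, with the factors in `L^p`,
`p > q/(q-2)`. The value `q/(q-2)`, which is smaller than `q`, is the scaling exponent. -/

namespace Pool.Agent.Results.MP_5ab805_an.HilbertKernels

open MeasureTheory Set Complex
open scoped ENNReal NNReal InnerProductSpace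

/-- The Fourier extension operator of the paraboloid in `ℝ³`, in the normalization of the problem
(functions on `U` are extended by zero). -/
noncomputable def ext (f : ℝ × ℝ → ℂ) (ξ : (ℝ × ℝ) × ℝ) : ℂ :=
  ∫ x : ℝ × ℝ, cexp (-(I * ((x.1 * ξ.1.1 + x.2 * ξ.1.2 + (x.1 ^ 2 + x.2 ^ 2) * ξ.2 : ℝ) : ℂ))) * f x

/-- The interval `[-1/2, 1/2]`. -/
def J : Set ℝ := Icc (-1 / 2) (1 / 2)

/-- The `L^p` norm on `[-1/2, 1/2]`. -/
noncomputable def norm {H : Type} [NormedAddCommGroup H] (p : ℝ) (a : ℝ → H) : ℝ≥0∞ :=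
  eLpNorm a (ENNReal.ofReal p) (volume.restrict J)

/-- `⟪a(u), b(v)⟫` with `(u, v)` the coordinates `(c x₁ + s x₂, -s x₁ + c x₂)` of `x` in a rotated
frame, restricted to `|u| ≤ 1/2`, `|v| ≤ 1/2`. -/
noncomputable def kernel {H : Type} [NormedAddCommGroup H] [InnerProductSpace ℂ H] (a b : ℝ → H)
    (c s : ℝ) (x : ℝ × ℝ) : ℂ :=
  (J ×ˢ J).indicator (fun z => ⟪a z.1, b z.2⟫_ℂ) (c * x.1 + s * x.2, -s * x.1 + c * x.2)

open Pool.Agent.Q85.HL in
theorem result (q p : ℝ) (hq : 3 < q) (hp : q / (q - 2) < p) : ∃ C : ℝ≥0, ∀ (H : Type)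
    [NormedAddCommGroup H] [InnerProductSpace ℂ H] [CompleteSpace H] (a b : ℕ → ℝ → H)
    (c s : ℕ → ℝ) (f : ℝ × ℝ → ℂ),
    (∀ k, c k ^ 2 + s k ^ 2 = 1) →
    (∀ k, StronglyMeasurable (a k)) → (∀ k, StronglyMeasurable (b k)) →
    (∀ k, norm p (a k) < ⊤) → (∀ k, norm p (b k) < ⊤) →
    (∀ᵐ x, f x = ∑' k, kernel (a k) (b k) (c k) (s k) x) →
    eLpNorm (ext f) (ENNReal.ofReal q) volume ≤ C * ∑' k, norm p (a k) * norm p (b k) := by
  obtain ⟨C, hC⟩ := main q p hq hp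
  refine ⟨C, ?_⟩
  intro H _ _ _ a b c s f hcs ha hb hNa hNb hf
  exact hC H a b c s f hcs ha hb (fun k => (hNa k).ne) (fun k => (hNb k).ne) hf

end Pool.Agent.Results.MP_5ab805_an.HilbertKernels
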