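import Pool.Agent.Q88.RF.Conc2

/-!
# Operators which are Fredholm intertwined with a scalar type operator, up to the orbit of one vector

Let `Y` be a reflexive complex Banach space and `N` an operator on `Y` with a continuous functional
calculus (normal operators on Hilbert spaces, multiplications on `L^p(μ, E)`, diagonal operators with
respect to unconditional decompositions, ...). Let `T` be an operator on a Banach space `X` and
`S : X → Y` a Fredholm operator, of any index, such that the range of the defect `S T - N S` lies in the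
orbit of ONE vector `u`:

  `(S T - N S) x = Σ_n w_n(x) N^n u`,  `w_n ∈ X*`, `Σ (n+1) ρ^n ‖w_n‖ < ∞`

(no condition for finitely many terms). Then `T` is a multiple of the identity or has a nontrivial closed
hyperinvariant subspace. The same is true if `(T S - S N) y = Σ_n w(N^n y) u_n` for a Fredholm operator
`S : Y → X`, i.e. if the defect factors through the orbit of one functional.

Case `S = 1`, one term: rank one perturbations of `N` (project RB, `Pool.Agent.Q98.RB`, which is used
here). New here are defects of higher and infinite rank and the operator `S`. For instance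

* `T = N + F`, `F` of finite rank, each vector of the range of `F` being a polynomial of `N` at `u` plus a
  vector of the range of `Q`, where `Q` is a projection of finite rank commuting with `N` (for a diagonal
  operator `N`: a rank one perturbation, and then finitely many rows are replaced by arbitrary ones; the
  dual version: finitely many columns);
* the compressions of `N` to closed hyperplanes, and to the closed subspaces with a complement spanned by
  `u, N u, ..., N^(m-1) u`.

## Proof

1. `K = Σ_n Σ_(j<n) (w_n T^(n-1-j)) ⊗ N^j u` is a norm limit of operators of finite rank and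
   `(S + K) T = N (S + K) + (Σ_n w_n T^n) ⊗ u`. So there is a Fredholm operator `S` such that the defect
   is `v ⊗ u`.
2. If `v = 0` on `ker S ≠ 0`, `ker S` is invariant and `T` has an eigenvector. If `v ≠ 0` on `ker S`, add to
   `N` a one dimensional summand `μ` outside of both spectra, and replace `S` by `(S, f)` with
   `f = v (T - μ)^(-1)`: this reduces the dimension of the kernel, since `f = 0` on `ker S` would give an
   eigenfunctional of `N` for `μ`. So `S` may be assumed injective, `v = v' S`, and `T` is similar to the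
   restriction of `A = N + v' ⊗ u` to the invariant subspace `Y_0 = S X` of finite codimension.
3. At each point `a` of the essential spectrum of `N` and each `r > 0` there are vectors `y ≠ 0` with
   `‖(A - a)^k y‖ ≤ C r^k` (project RB). If `a` is not an eigenvalue of the operator induced on the finite
   dimensional space `Y / Y_0`, there are such vectors in `Y_0`, for small `r`. The same for the adjoint.
   Two different such points give a hyperinvariant subspace.
4. Otherwise the essential spectrum of `N` is finite, `p(N)` is compact for a polynomial `p ≠ 0`, so is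
   `p(T)`, and the theorem of Lomonosov applies, or `T` is algebraic.
-/

set_option autoImplicit false

namespace Pool.Agent.Results.MP_5ac32f_an.FredholmIntertwining

section Defs

variable {X Y : Type} [NormedAddCommGroup X] [NormedSpace ℂ X] [NormedAddCommGroup Y]
  [NormedSpace ℂ Y]

/-- `X` is reflexive: the canonical map to the bidual is onto. -/
def IsReflexive (X : Type) [NormedAddCommGroup X] [NormedSpace ℂ X] : Prop :=
  Function.Surjective (NormedSpace.inclusionInDoubleDual ℂ X)

/-- `N` has a continuous functional calculus: there are a compact set `K` of complex numbers and a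
continuous unital algebra homomorphism from `C(K)` to the bounded operators on `Y` which maps the
function `z` to `N`. -/
def HasContinuousCalculus (N : Y →L[ℂ] Y) : Prop :=
  ∃ (K : Set ℂ) (Ψ : C(K, ℂ) →ₐ[ℂ] (Y →L[ℂ] Y)), IsCompact K ∧ Continuous Ψ ∧
    Ψ ⟨Subtype.val, continuous_subtype_val⟩ = N

/-- `T` is a multiple of the identity. -/
def IsScalar (T : X →L[ℂ] X) : Prop := ∃ c : ℂ, T = c • (1 : X →L[ℂ] X)

/-- `T` has a closed subspace, neither `{0}` nor the whole space, which is invariant under every
bounded operator commuting with `T`. -/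
def HasHyperinvariant (T : X →L[ℂ] X) : Prop :=
  ∃ V : Submodule ℂ X, IsClosed (V : Set X) ∧ V ≠ ⊥ ∧ V ≠ ⊤ ∧
    ∀ Q : X →L[ℂ] X, Q * T = T * Q → ∀ x ∈ V, Q x ∈ V

/-- There is a Fredholm operator `S : X → Y` such that `S T - N S` has its range in the orbit of one
vector `u` under `N`: `(S T - N S) x = Σ_n w_n(x) N^n u` with `Σ (n+1) ρ^n ‖w_n‖ < ∞`. -/
def RangeInOrbit (T : X →L[ℂ] X) (N : Y →L[ℂ] Y) (ρ : ℝ) : Prop :=
  ∃ (S : X →L[ℂ] Y) (u : Y) (w : ℕ → X →L[ℂ] ℂ), S.IsFredholm ∧
    Summable (fun n : ℕ => (n + 1) * ρ ^ n * ‖w n‖) ∧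
    ∀ x, HasSum (fun n => w n x • (N ^ n) u) (S (T x) - N (S x))

/-- There is a Fredholm operator `S : Y → X` such that `T S - S N` factors through the orbit of one
functional `w` under `N`: `(T S - S N) y = Σ_n w(N^n y) u_n` with `Σ (n+1) ρ^n ‖u_n‖ < ∞`. -/
def FactorsThroughOrbit (T : X →L[ℂ] X) (N : Y →L[ℂ] Y) (ρ : ℝ) : Prop :=
  ∃ (S : Y →L[ℂ] X) (w : Y →L[ℂ] ℂ) (u : ℕ → X), S.IsFredholm ∧
    Summable (fun n : ℕ => (n + 1) * ρ ^ n * ‖u n‖) ∧
    ∀ y, HasSum (fun n => w ((N ^ n) y) • u n) (T (S y) - S (N y))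

/-- `T` and `N` have powers of growth at most `ρ ^ k`. -/
def PowerBounds (T : X →L[ℂ] X) (N : Y →L[ℂ] Y) (ρ : ℝ) : Prop :=
  0 < ρ ∧ ∃ C : ℝ, ∀ k : ℕ, ‖T ^ k‖ ≤ C * ρ ^ k ∧ ‖N ^ k‖ ≤ C * ρ ^ k

/-- `Q` is a projection of finite rank which commutes with `N`. -/
def IsReducing (N Q : X →L[ℂ] X) : Prop :=
  Q * Q = Q ∧ Q * N = N * Q ∧ FiniteDimensional ℂ (LinearMap.range (Q : X →ₗ[ℂ] X))

end Defs

/-- Finite rank perturbations: the range of the perturbation is spanned by values of polynomials of `N`
at one vector `u`, up to the range of a projection `Q` of finite rank commuting with `N`. -/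
def PerturbationRows : Prop :=
  ∀ (X : Type) [NormedAddCommGroup X] [NormedSpace ℂ X] [CompleteSpace X], IsReflexive X →
    ∀ N : X →L[ℂ] X, HasContinuousCalculus N → ∀ Q : X →L[ℂ] X, IsReducing N Q →
    ∀ (u : X) (m : ℕ) (w : ℕ → X →L[ℂ] ℂ) (T : X →L[ℂ] X),
      (∀ x, T x - N x - ∑ n ∈ Finset.range m, w n x • (N ^ n) u ∈
        LinearMap.range (Q : X →ₗ[ℂ] X)) → IsScalar T ∨ HasHyperinvariant T

/-- The dual version, with an arbitrary operator `G` on the range of `Q`. -/
def PerturbationColumns : Prop :=
  ∀ (X : Type) [NormedAddCommGroup X] [NormedSpace ℂ X] [CompleteSpace X], IsReflexive X →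
    ∀ N : X →L[ℂ] X, HasContinuousCalculus N → ∀ Q : X →L[ℂ] X, IsReducing N Q →
    ∀ (w : X →L[ℂ] ℂ) (m : ℕ) (u : ℕ → X) (G T : X →L[ℂ] X),
      (∀ x, T x = N x + ∑ n ∈ Finset.range m, w ((N ^ n) x) • u n + G (Q x)) →
        IsScalar T ∨ HasHyperinvariant T

/-- Compressions `P N J` of `N`, where `P J = 1` and the range of the complementary projection
`1 - J P` lies in the span of `u, N u, ..., N^(m-1) u`; for `m = 1` these are all the compressions to
closed hyperplanes. -/
def Compressions : Prop :=
  ∀ (X Y : Type) [NormedAddCommGroup X] [NormedSpace ℂ X] [CompleteSpace X]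
    [NormedAddCommGroup Y] [NormedSpace ℂ Y] [CompleteSpace Y], IsReflexive Y →
    ∀ N : Y →L[ℂ] Y, HasContinuousCalculus N → ∀ (J : X →L[ℂ] Y) (P : Y →L[ℂ] X),
      (∀ x, P (J x) = x) → ∀ (u : Y) (m : ℕ) (w : ℕ → Y →L[ℂ] ℂ),
      (∀ y, y - J (P y) = ∑ n ∈ Finset.range m, w n y • (N ^ n) u) →
        IsScalar (P.comp (N.comp J)) ∨ HasHyperinvariant (P.comp (N.comp J))

/-- **Operators which are Fredholm intertwined with a scalar type operator, up to the orbit of one
vector or of one functional, have hyperinvariant subspaces**; finite rank perturbations and compressions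
of this kind. -/
theorem result :
    (∀ (X Y : Type) [NormedAddCommGroup X] [NormedSpace ℂ X] [CompleteSpace X]
      [NormedAddCommGroup Y] [NormedSpace ℂ Y] [CompleteSpace Y], IsReflexive X → IsReflexive Y →
      ∀ N : Y →L[ℂ] Y, HasContinuousCalculus N → ∀ (T : X →L[ℂ] X) (ρ : ℝ), PowerBounds T N ρ →
        (RangeInOrbit T N ρ ∨ FactorsThroughOrbit T N ρ) → IsScalar T ∨ HasHyperinvariant T) ∧
    PerturbationRows ∧ PerturbationColumns ∧ Compressions := by
  refine ⟨?_, ?_, ?_, ?_⟩
  · rintro X Y _ _ _ _ _ _ hX hY N ⟨K, Ψ, hK, hc, hid⟩ T ρ ⟨hρ, C, hC⟩ h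
    have hN : Pool.Agent.Q88.RF.HC N := Pool.Agent.Q88.RF.HC.of_compact K hK Ψ hc hid
    rcases h with ⟨S, u, w, hS, hw, h⟩ | ⟨S, w, u, hS, hu, h⟩
    · exact Pool.Agent.Q88.RF.ser hY hN hS u w hρ (fun k => (hC k).1) (fun k => (hC k).2) hw h
    · exact Pool.Agent.Q88.RF.ser_dual hX hY hN hS u w hρ (fun k => (hC k).1)
        (fun k => (hC k).2) hu h
  · rintro X _ _ _ hX N ⟨K, Ψ, hK, hc, hid⟩ Q ⟨h1, h2, h3⟩ u m w T h
    have hN : Pool.Agent.Q88.RF.HC N := Pool.Agent.Q88.RF.HC.of_compact K hK Ψ hc hid
    exact Pool.Agent.Q88.RF.rows hX hN (Module.Finite.iff_fg.1 h3) h1 h2 u m w h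
  · rintro X _ _ _ hX N ⟨K, Ψ, hK, hc, hid⟩ Q ⟨h1, h2, h3⟩ w m u G T h
    have hN : Pool.Agent.Q88.RF.HC N := Pool.Agent.Q88.RF.HC.of_compact K hK Ψ hc hid
    exact Pool.Agent.Q88.RF.cols hX hN (Module.Finite.iff_fg.1 h3) h1 h2 w m u h
  · rintro X Y _ _ _ _ _ _ hY N ⟨K, Ψ, hK, hc, hid⟩ J P hPJ u m w h
    have hN : Pool.Agent.Q88.RF.HC N := Pool.Agent.Q88.RF.HC.of_compact K hK Ψ hc hid
    exact Pool.Agent.Q88.RF.compr hY hN hPJ u m w h

end Pool.Agent.Results.MP_5ac32f_an.FredholmIntertwining
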