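import Pool.Agent.Q62.CircFin

set_option autoImplicit false

/-!
# Circumscribed polygons with equal angles but one are determined by their Dirichlet spectrum

Every convex polygon circumscribed about a circle whose angles are all equal, except possibly one
which is larger than the others, is determined by its Dirichlet spectrum among all convex polygons
(with any number of vertices). These are, for each number `N ≥ 3` of vertices, the regular polygon
and a one parameter family; for `N = 3` they are the isosceles triangles with apex angle at least
`π / 3`. Their isoperimetric quotients `(perimeter)² / (4 · area)` take every value larger than the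
value `π` of the disc: for every shape factor that a convex polygon can have there is a convex
polygon with this factor which is determined by its spectrum.
-/

open Set MeasureTheory
open Pool.Agent.W780.PG (IsConvexPolygon region ang lft)
open Pool.Agent.W703.GP (Isospectral)

namespace Pool.Agent.Results.MP_5b0138_an.CircumscribedPolygons

/-- The polygon with the successive vertices `p 0, p 1, …` is circumscribed about a circle, with
centre `o` and radius `r > 0`: the distance of `o` to the line through any two successive vertices
is `r` (`lft a b o` is the product of `‖b - a‖` and the distance of `o` to the line from `a` to `b`,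
with the sign `+` if `o` lies to the left of it). -/
def IsCircumscribed {n : ℕ} (p : Fin (n + 3) → ℂ) : Prop :=
  ∃ (o : ℂ) (r : ℝ), 0 < r ∧ ∀ i, lft (p i) (p (i + 1)) o = r * ‖p (i + 1) - p i‖

/-- All interior angles are equal, except possibly the one at the vertex `p k`, which may be
larger. -/
def EqualAnglesButOne {n : ℕ} (p : Fin (n + 3) → ℂ) : Prop :=
  ∃ (k : Fin (n + 3)) (α : ℝ), (∀ j, j ≠ k → ang p j = α) ∧ α ≤ ang p k

theorem result :
    (∀ (n : ℕ) (p : Fin (n + 3) → ℂ), IsConvexPolygon p → IsCircumscribed p →
      EqualAnglesButOne p → ∀ S : Set ℂ, S.Finite → (interior (convexHull ℝ S)).Nonempty →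
        Isospectral (region p) (interior (convexHull ℝ S)) →
        ∃ φ : ℂ ≃ᵢ ℂ, φ '' region p = interior (convexHull ℝ S)) ∧
    ∀ F : ℝ, Real.pi < F → ∃ (n : ℕ) (p : Fin (n + 3) → ℂ), IsConvexPolygon p ∧
      IsCircumscribed p ∧ EqualAnglesButOne p ∧
      (∑ j, ‖p (j + 1) - p j‖) ^ 2 = 4 * F * (volume (region p)).toReal :=
  ⟨fun _ _ hp hc ⟨_, _, h1, h2⟩ S hS hne h => Pool.Agent.Q62.CircFin.det hp hc h1 h2 S hS hne h,
    fun F hF => Pool.Agent.Q62.CircFin.exists_quot F hF⟩

end Pool.Agent.Results.MP_5b0138_an.CircumscribedPolygons
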