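import Pool.Agent.Q271.RC.Main

/-!
MP_5b1cbc_ag, Q1: general type and pseudo-geometric hyperbolicity for the covers of pairs of log
general type, finite over tori, which are ramified to high order over the boundary.

`IsPair d a f e` (`Pool/Agent/Q271/RC/Defs.lean`): `X` is a complex projective variety of dimension
`d` with generic point `a` and function field `K`, the `f i` are forms of degree `e`, the rational
map `(f 0 : … : f n)` on `X` is generically finite onto its image (any subvariety of projective
`n`-space), and `X` is of log general type for the boundary consisting of the prime divisors (on all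
models) where some `f i / f 0` is not a unit. `IsCover a b g e'`: `Y` is a projective variety with
generic point `b` and function field `K'`, and the forms `g 0, …, g N` define a generically finite
dominant rational map from `Y` to `X`. `Ramified m b h`: for all arcs in `Y` the contact orders with
the boundary are zero or at least `m`: the orders of the forms `h i = f i (g)` are all equal, or two
of them differ by at least `m`; for instance if the forms `h i` are `m`-th powers of forms on `Y`.

Theorem: there is `m` such that all covers `Y` of `X` which are ramified to order at least `m` over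
the boundary are of general type, and pseudo-geometrically hyperbolic (`PseudoGeomHyp`,
`Pool/Agent/W602/RG/TB.lean`): outside a proper closed subset of `Y`, for every pointed curve there
are only finitely many maps to `Y` with a given value at the marked point.
-/

set_option autoImplicit false

namespace Pool.Agent.Results.MP_5b1cbc_ag.RamifiedPointed

open MvPolynomial FF Pool.Agent.Q271.RC Pool.Agent.W602.RG
open Pool.Agent.W602.GT (GeneralType)

/-- See the explanation at the beginning of the file. -/
theorem result {N n d : ℕ} (K : Type) [Field K] [Algebra ℂ K] (a : Fin (N + 1) → K)
    (f : Fin (n + 1) → MvPolynomial (Fin (N + 1)) ℂ) (e : ℕ) (hX : IsPair d a f e) :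
    ∃ m : ℕ, ∀ (N' : ℕ) (K' : Type) [Field K'] [Algebra ℂ K'] [Algebra K K']
      [IsScalarTower ℂ K K'] (b : Fin (N' + 1) → K')
      (g : Fin (N + 1) → MvPolynomial (Fin (N' + 1)) ℂ) (e' : ℕ), IsCover a b g e' →
      Ramified m b (fun i => bind₁ g (f i)) → GeneralType ℂ K' d ∧ PseudoGeomHyp ℂ b := by
  obtain ⟨m2, h2⟩ := cover_gt hX
  obtain ⟨m3, h3⟩ := cover_curves hX
  refine ⟨m2 + m3, fun N' K' _ _ _ _ b g e' hY hram => ?_⟩
  exact ⟨h2 _ (by omega) N' K' b g e' hY hram,
    Pool.Agent.Y216.pointed_of_bound (h3 _ (by omega) N' K' b g e' hY hram)⟩

end Pool.Agent.Results.MP_5b1cbc_ag.RamifiedPointed
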