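import Pool.Agent.Q8.OW.Whole

/-!
# Orlov's conjecture: motives of derived equivalent varieties with their intersection forms

`C : Correspondences n ι` is a class of correspondences between smooth projective complex varieties
`X i` of dimension `n` (algebraic cycles modulo homological equivalence, if the standard conjecture of
Lefschetz type holds; André's motivated cycles; morphisms of rational Hodge structures). If `X i` and
`X j` are derived equivalent then for the motives defined by `C` (with rational coefficients and up to
Tate twists)

* the parts of degrees congruent to `n` modulo `4` are isometric for the intersection forms;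
* the orthogonal complements in `H ^ n` of the largest sub-Hodge structures of level at most `n - 4`
  (the transcendental parts if `n = 4`) are isometric;
* if the parts of degree `n` are isomorphic they are isometric; this is so for `n ≤ 4`;
* if the parts of degree `d` are isomorphic for `1 ≤ d ≤ n - 3` (no condition for `n ≤ 3`, a theorem
  of Popa and Schnell for `n = 4`) then there is an isomorphism of the motives of `X i` and `X j`
  which preserves the degrees and the intersection forms.

The proof is a Witt cancellation in the ring of correspondences.
-/

open Pool.Agent.Q8.OM

namespace Pool.Agent.Results.MP_5c0b30_ag.IsometricMotives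

theorem result {n : ℕ} {ι : Type} (C : Correspondences n ι) (hc : C.Chern) {i j : ι}
    (h : C.DerivedEquivalent i j) :
    C.Isometric i j (P0 n) ∧ C.IsometricTop i j (n - 4) ∧
    (C.Iso i j {(n : ℤ)} → C.Isometric i j {(n : ℤ)}) ∧
    (n ≤ 4 → C.Isometric i j {(n : ℤ)}) ∧
    ((∀ d : ℤ, 1 ≤ d → d + 3 ≤ n → C.Iso i j {d}) → C.IsometricMotives i j) := by
  have h' := h.theory
  refine ⟨Correspondences.isometric_P0 hc h, Correspondences.isometricTop hc h le_rfl,
    Correspondences.isometric_n hc h,
    fun hn => Correspondences.isometric_n hc h
      (Correspondences.iso_iff.mpr (h'.top.1 fun d h1 h2 => by omega)), fun hl => ?_⟩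
  have hm := Correspondences.isoMotives_of
    (h'.isoMotives fun d h1 h2 => Correspondences.iso_iff.mp (hl d h1 h2))
  have hn := h'.top.1 fun d h1 h2 => Correspondences.iso_iff.mp (hl d h1 (by omega))
  exact Correspondences.isometricMotives hm
    (Correspondences.isometric_n hc h (Correspondences.iso_iff.mpr hn))

end Pool.Agent.Results.MP_5c0b30_ag.IsometricMotives
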