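import Pool.Agent.Q123.NW.Subst
import Pool.Agent.Results.MP_5d2531_al.BlockTriangular

/-!
Problem MP_5d2531_al (`n`-central polynomials): the number of monomials.  Every nonconstant word of
an `n`-central polynomial, `n` an odd prime, has at least `2 ^ n` rearrangements that occur, and an
`n`-central polynomial is not a combination of less than `2 ^ n` products of polynomials in
disjoint variables whose commutative images are not constant.
-/

set_option autoImplicit false

namespace Pool.Agent.Results.MP_5d2531_al.NumberOfMonomials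

/-- Every value of `f` on `n × n` matrices over `K` is a scalar matrix. -/
def ScalarValued {K : Type} [Field K] {σ : Type} (n : ℕ) (f : FreeAlgebra K σ) : Prop :=
  ∀ X : σ → Matrix (Fin n) (Fin n) K, ∃ c : K, FreeAlgebra.lift K X f = Matrix.scalar (Fin n) c

/-- `f` is central for `M_n(K)`: all values are scalar and `f` is not identically zero. -/
def IsCentral {K : Type} [Field K] {σ : Type} (n : ℕ) (f : FreeAlgebra K σ) : Prop :=
  ScalarValued n f ∧ ∃ X : σ → Matrix (Fin n) (Fin n) K, FreeAlgebra.lift K X f ≠ 0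

/-- `f` is `ν`-central for `M_n(K)`: `ν` is the least positive integer with `f ^ ν` central. -/
def IsNuCentral {K : Type} [Field K] {σ : Type} (n ν : ℕ) (f : FreeAlgebra K σ) : Prop :=
  0 < ν ∧ IsCentral n (f ^ ν) ∧ ∀ μ : ℕ, 0 < μ → IsCentral n (f ^ μ) → ν ≤ μ

/-- The coefficient of the word `l` in `f`. -/
noncomputable def coef {K : Type} [Field K] {σ : Type} (f : FreeAlgebra K σ) (l : List σ) : K :=
  (FreeAlgebra.equivMonoidAlgebraFreeMonoid f).coeff (FreeMonoid.ofList l)

/-- The words that occur in `f` and are rearrangements of the word `l`. -/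
def rearrangements {K : Type} [Field K] {σ : Type} (f : FreeAlgebra K σ) (l : List σ) :
    Set (List σ) :=
  {l' | l'.Perm l ∧ coef f l' ≠ 0}

/-- The polynomial `f (h₁, h₂, …)`, where `h i` is a polynomial in the variables `(i, s)`,
`s ∈ σ i`, so that the `h i` are polynomials in pairwise disjoint sets of variables. -/
noncomputable def subst {K : Type} [Field K] {τ : Type} {σ : τ → Type} (f : FreeAlgebra K τ)
    (h : ∀ i, FreeAlgebra K (σ i)) : FreeAlgebra K (Σ i, σ i) :=
  FreeAlgebra.lift K
    (fun i => FreeAlgebra.lift K (fun s : σ i => FreeAlgebra.ι K (⟨i, s⟩ : Σ i, σ i)) (h i)) f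

theorem result (K : Type) [Field K] [Infinite K] :
    -- (1) the words of an `n`-central polynomial
    (∀ (σ : Type) (n : ℕ) (f : FreeAlgebra K σ), n.Prime → n ≠ 2 → IsNuCentral n n f →
      ∀ l : List σ, l ≠ [] → coef f l ≠ 0 → 2 ^ n ≤ (rearrangements f l).ncard) ∧
    -- (2) products of polynomials in disjoint variables
    (∀ (τ : Type) (σ : τ → Type) (n : ℕ) (f : FreeAlgebra K τ) (h : ∀ i, FreeAlgebra K (σ i)),
      (∀ i, ∃ x y : σ i → K, FreeAlgebra.lift K x (h i) ≠ FreeAlgebra.lift K y (h i)) →
      n.Prime → n ≠ 2 → IsNuCentral n n (subst f h) →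
      2 ^ n ≤ {w : List τ | w ≠ [] ∧ coef f w ≠ 0}.ncard) ∧
    -- (3) polynomials that vanish on the upper triangular `k × k` matrices
    (∀ (σ : Type) (k : ℕ) (f : FreeAlgebra K σ),
      (∀ X : σ → Matrix (Fin k) (Fin k) K, (∀ i, ∀ a b : Fin k, b < a → X i a b = 0) →
        FreeAlgebra.lift K X f = 0) →
      ∀ l : List σ, coef f l ≠ 0 → 2 ^ k ≤ (rearrangements f l).ncard) ∧
    -- (4) an identity of `M_2(K)` with `2 ^ 2` monomials
    (∀ X Y : Matrix (Fin 2) (Fin 2) K,
      X * Y * X * Y * Y * X - X * Y * Y * X * Y * X - Y * X * X * Y * X * Y +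
        Y * X * Y * X * X * Y = 0) := by
  classical
  refine ⟨?_, ?_, ?_, ?_⟩
  · intro σ n f hn hn2 hcen l hne hl
    obtain ⟨m, rfl⟩ : ∃ m, n = m + 1 := ⟨n - 1, by have := hn.pos; omega⟩
    have hm : 0 < m := by have := hn.two_le; omega
    have h1 := (Pool.Agent.Results.MP_5d2531_al.BlockTriangular.result (m + 1) hn hn2 f hcen).1
      m 1 hm one_pos rfl
    set c : K := coef f [] with hc
    set g : FreeAlgebra K σ := f - algebraMap K (FreeAlgebra K σ) c with hg
    have h2 : ∀ X : σ → Matrix (Fin (m + 1)) (Fin (m + 1)) K,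
        (∀ i, ∀ a b : Fin (m + 1), b < a → X i a b = 0) → FreeAlgebra.lift K X g = 0 := by
      intro X hX
      have h3 := Q123.NW.upper_of_blocks f c h1 X hX
      rw [hg, map_sub, h3, AlgHom.commutes, sub_self]
    have h3 : ∀ w : List σ, w ≠ [] → Q123.NW.coef g w = coef f w := fun w hw =>
      Pool.Agent.Results.MP_5d2531_al.BlockTriangular.cf_sub f c w hw
    have h4 := Q123.NW.identity_rearrangements (m + 1) g h2 l (by rw [h3 l hne]; exact hl)
    have h5 : {l' : List σ | l'.Perm l ∧ Q123.NW.coef g l' ≠ 0} = rearrangements f l := by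
      ext w
      constructor
      · rintro ⟨hw, h6⟩
        have hw0 : w ≠ [] := by
          rintro rfl
          exact hne (List.nil_perm.1 hw)
        exact ⟨hw, by rw [← h3 w hw0]; exact h6⟩
      · rintro ⟨hw, h6⟩
        have hw0 : w ≠ [] := by
          rintro rfl
          exact hne (List.nil_perm.1 hw)
        exact ⟨hw, by rw [h3 w hw0]; exact h6⟩
    rwa [h5] at h4
  · intro τ σ n f h hh hn hn2 hcen
    obtain ⟨m, rfl⟩ : ∃ m, n = m + 1 := ⟨n - 1, by have := hn.pos; omega⟩
    have hm : 0 < m := by have := hn.two_le; omega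
    have h1 := (Pool.Agent.Results.MP_5d2531_al.BlockTriangular.result (m + 1) hn hn2
      (subst f h) hcen).1 m 1 hm one_pos rfl
    have hex : ∃ l : List τ, l ≠ [] ∧ coef f l ≠ 0 := by
      by_contra hcon
      push Not at hcon
      have hf : f = algebraMap K (FreeAlgebra K τ) (coef f []) := Q123.NW.eq_const f hcon
      have hF : subst f h = algebraMap K _ (coef f []) := by
        rw [hf]
        unfold subst
        rw [AlgHom.commutes, ← hf]
      obtain ⟨-, ⟨-, X0, hX0⟩, h3⟩ := hcen
      have h4 : IsCentral (m + 1) (subst f h ^ 1) := by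
        rw [pow_one]
        refine ⟨fun X => ⟨coef f [], ?_⟩, X0, fun h0 => hX0 ?_⟩
        · rw [hF, AlgHom.commutes]
          rfl
        · rw [map_pow, h0, zero_pow hn.ne_zero]
      have h5 := h3 1 one_pos h4
      omega
    obtain ⟨w₀, hw₀, hfw⟩ := hex
    exact Q123.NW.card_of_subst_free (m + 1) f h hh _
      (fun X hX => Q123.NW.upper_of_blocks _ _ h1 X hX) w₀ hw₀ hfw
  · intro σ k f h l hl
    exact Q123.NW.identity_rearrangements k f h l hl
  · intro X Y
    refine Matrix.ext fun a b => ?_
    fin_cases a <;> fin_cases b <;>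
      · simp only [Matrix.add_apply, Matrix.sub_apply, Matrix.mul_apply, Fin.sum_univ_two,
          Matrix.zero_apply, Fin.isValue, Fin.zero_eta, Fin.mk_one]
        ring

end Pool.Agent.Results.MP_5d2531_al.NumberOfMonomials
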