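import Pool.Agent.Q283.LQ.Uni
import Pool.Agent.Y944.LC.BRU

/-!
# Leopoldt's conjecture at `2` for most quadratic extensions of a number field

Let `F` be any number field. We consider the quadratic extensions `L = F(√d)` with prescribed completions at the
real places and at the places above the prime numbers `≤ y` (those of `F(√d₀)`), which are ramified at exactly
`k` further primes `q_0, …, q_(k-1)`, of norms `≤ X_0, …, X_(k-1)`, for large `k`, `X_0`, then `X_1` large in terms of
`X_0`, and so on. Let `e` be the number of the complex places of `L` minus that of `F`.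

(1) The share of the fields `L` whose Leopoldt defect at `2` exceeds that of `F` by at least `t` is at most
`2^(-e) / (2^t - 1) + ε`.

(2) If `F` satisfies Leopoldt's conjecture at `2` (for example if `F/ℚ` is abelian), then the share of the `L` which
satisfy it is at least `1 - 2^(-e) - ε`.

Proof. A relation between units of relative norm `1` over the `2`-adic integers gives units `w` of relative norm `1`
which are arbitrarily close to (torsion) × (square of a unit of norm `1`). The number `a = N(1 + w) = 2 + Tr w` then has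
even valuation at the unramified odd places, is a square up to `D = -d` at the ramified ones, is positive where `D` is,
and is, up to squares, the class of a torsion point of the torus `x² + D z² = 1` at the places above `2`; such points
have only two classes. `t` additional relations give `2^t - 1` such `a`, different modulo squares and `D`. By reciprocity
and Chebotarev's theorem the mean of the number of these `a` over the fields of the ensemble is at most
`2^(-e) + ε`: the exponent is the difference of the number of the conditions and the rank of the `S`-units.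

The parts were proved together with helpers 14, 53, 96, 129, 150, 151, 182, 198 and 208.
-/

set_option autoImplicit false

namespace Pool.Agent.Results.MP_5f2860_nt.QuadraticExtensions

open NumberField IsDedekindDomain Filter Topology

section Ensemble

variable {F : Type} [Field F] [NumberField F]

/-- The valuation of `a` at `v` is odd. -/
def OddAt (v : HeightOneSpectrum (𝓞 F)) (a : F) : Prop :=
  ∃ n : ℤ, v.valuation F a = WithZero.exp (2 * n + 1)

/-- `a` is a nonzero square in the completion of `F` at `v`. -/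
def SquareAt (v : HeightOneSpectrum (𝓞 F)) (a : F) : Prop :=
  a ≠ 0 ∧ IsSquare (algebraMap F (v.adicCompletion F) a)

/-- `v` lies above a prime number `l ≤ y`. -/
def Small (y : ℕ) (v : HeightOneSpectrum (𝓞 F)) : Prop :=
  ∃ l : ℕ, l.Prime ∧ l ≤ y ∧ (l : 𝓞 F) ∈ v.asIdeal

/-- Among the primes not above prime numbers `≤ y` the number `d` has odd valuation exactly at the `q i`; and at the
other primes and at the real places it is equal to `d₀` up to squares. So `F(√d)` is ramified, among the primes not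
above prime numbers `≤ y`, exactly at the `q i`, and its completions at the other primes and at the real
places are those of `F(√d₀)`. -/
structure Fits (y : ℕ) (d₀ : F) {k : ℕ} (q : Fin k → HeightOneSpectrum (𝓞 F)) (d : F) : Prop where
  ne : d ≠ 0
  ram : ∀ v : HeightOneSpectrum (𝓞 F), ¬ Small y v → (OddAt v d ↔ ∃ i, q i = v)
  loc : ∀ v : HeightOneSpectrum (𝓞 F), Small y v → SquareAt v (d * d₀)
  real : ∀ φ : F →+* ℝ, 0 < φ (d * d₀)

/-- The ensemble: the tuples of `k` different primes `q i`, not above prime numbers `≤ y`, of norm `≤ X i`, to which a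
`d` belongs. -/
def Ensemble (y : ℕ) (d₀ : F) {k : ℕ} (X : Fin k → ℕ) : Set (Fin k → HeightOneSpectrum (𝓞 F)) :=
  {q | (Function.Injective q ∧ ∀ i, ¬ Small y (q i) ∧ Ideal.absNorm (q i).asIdeal ≤ X i) ∧
    ∃ d, Fits y d₀ q d}

/-- The number of the complex places of `F(√d₀)` minus the number of the complex places of `F`: the number of the
complex places of `F` and of the real places at which `d₀` is negative. -/
noncomputable def newComplex (d₀ : F) : ℕ :=
  InfinitePlace.nrComplexPlaces F + Nat.card {φ : F →+* ℝ // φ d₀ < 0}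

end Ensemble

/-- `P X` is true for all large `X 0`, for all `X 1` which are large in terms of `X 0`, …, for all `X (k-1)` which are
large in terms of the others. -/
def Nested : (k : ℕ) → ((Fin k → ℕ) → Prop) → Prop
  | 0, P => P Fin.elim0
  | k + 1, P => Nested k fun X => ∀ᶠ x : ℕ in atTop, P (Fin.snoc (α := fun _ => ℕ) X x)

/-- `L` is the quadratic extension `F(√d)`. -/
structure IsQuadratic (F L : Type) [Field F] [Field L] [Algebra F L] (d : F) : Prop where
  deg : Module.finrank F L = 2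
  nsq : ¬ IsSquare d
  root : ∃ x : L, x ^ 2 = algebraMap F L d

/-- Leopoldt's conjecture for the number field `K` and the prime `p`, in the form of the frozen statement. -/
def Leopoldt (K : Type) [Field K] [NumberField K] (p : ℕ) [Fact p.Prime] : Prop :=
  ∀ (n : ℕ) (ε : Fin n → (𝓞 K)ˣ),
    (∀ i, ((ε i : 𝓞 K) - 1) ∈ (Ideal.span {((p : ℕ) : 𝓞 K)}).radical) →
    (∀ c : Fin n → ℤ, ∏ i, ε i ^ c i = 1 → c = 0) →
    ∀ (a : Fin n → PadicInt p) (m : ℕ → Fin n → ℤ),
      (∀ i, Tendsto (fun k => ((m k i : ℤ) : PadicInt p)) atTop (𝓝 (a i))) →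
      (∀ N : ℕ, ∀ᶠ k in atTop,
        ((p : ℕ) : 𝓞 K) ^ N ∣ (((∏ i, ε i ^ m k i : (𝓞 K)ˣ) : 𝓞 K) - 1)) →
      a = 0

/-- The vector `a` of `2`-adic integers is a relation between the units `ε i`: there are integral vectors `m k` which
tend to `a`, such that the units `∏ ε i ^ m k i` tend `2`-adically to `1`. -/
def IsRelation (K : Type) [Field K] [NumberField K] {n : ℕ} (ε : Fin n → (𝓞 K)ˣ) (a : Fin n → ℤ_[2]) : Prop :=
  ∃ m : ℕ → Fin n → ℤ, (∀ i, Tendsto (fun k => ((m k i : ℤ) : ℤ_[2])) atTop (𝓝 (a i))) ∧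
    ∀ N : ℕ, ∀ᶠ k in atTop, (2 : 𝓞 K) ^ N ∣ ((∏ i, ε i ^ m k i : (𝓞 K)ˣ) : 𝓞 K) - 1

/-- The Leopoldt defect of `K` at `2` is at least `t`: there are multiplicatively independent units of `K` with `t`
relations which are linearly independent over the `2`-adic integers. -/
def DefectAtLeast (K : Type) [Field K] [NumberField K] (t : ℕ) : Prop :=
  ∃ (n : ℕ) (ε : Fin n → (𝓞 K)ˣ), (∀ c : Fin n → ℤ, ∏ i, ε i ^ c i = 1 → c = 0) ∧
    ∃ a : Fin t → Fin n → ℤ_[2], LinearIndependent ℤ_[2] a ∧ ∀ j, IsRelation K ε (a j)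

section Proof

theorem nested_iff : ∀ (k : ℕ) (P : (Fin k → ℕ) → Prop), Nested k P ↔ Q283.LQ.Nest k P
  | 0, _ => Iff.rfl
  | k + 1, _ => nested_iff k _

theorem defect_iff (K : Type) [Field K] [NumberField K] (t : ℕ) :
    DefectAtLeast K t ↔ Q283.LQ.Df K (Ideal.span {2}) t := by
  unfold DefectAtLeast Q283.LQ.Df IsRelation Q283.LQ.Rel
  simp only [Ideal.span_singleton_pow, Ideal.mem_span_singleton]

theorem leopoldt_iff (K : Type) [Field K] [NumberField K] : Leopoldt K 2 ↔ ¬ DefectAtLeast K 1 := by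
  rw [defect_iff]
  exact Q283.LQ.t_LEO K

variable {F : Type} [Field F] [NumberField F]

theorem fits_iff {y : ℕ} {d₀ : F} {k : ℕ} {q : Fin k → HeightOneSpectrum (𝓞 F)} {d : F} :
    Fits y d₀ q d ↔ Q283.LQ.Fits y d₀ q d := by
  constructor
  · intro h
    exact ⟨h.ne, h.ram, fun v hv => (Q198.LQ.lsq_iff v _).mpr (h.loc v hv), h.real⟩
  · intro h
    exact ⟨h.ne, h.ram, fun v hv => (Q198.LQ.lsq_iff v _).mp (h.loc v hv), h.real⟩

theorem newComplex_eq (d₀ : F) : Q283.LQ.ex (-d₀) = newComplex d₀ := by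
  unfold Q283.LQ.ex newComplex
  simp only [map_neg, neg_pos]

theorem loc_two : Q283.LQ.Loc (Q283.LQ.AI (Ideal.span {(2 : 𝓞 F)})) (fun _ => 0) := by
  have h := Q283.LQ.t_ATL F
  have e : ∀ (v : HeightOneSpectrum (𝓞 F)) (D a : F), Q283.LQ.Dy v →
      (Q283.LQ.AI (Ideal.span {(2 : 𝓞 F)}) v D a ↔ Q283.LQ.AT v D a) := by
    intro v D a hv
    have h1 : Ideal.span {(2 : 𝓞 F)} ≤ v.asIdeal := by
      rw [Ideal.span_singleton_le_iff_mem]
      exact hv
    unfold Q283.LQ.AI
    tauto
  exact {
    ne := fun v D a hv hD ha => h.ne v D a hv hD ((e v D a hv).mp ha)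
    mul := fun v D a b hv hD ha hb => (e v D _ hv).mpr (h.mul v D a b hv hD ((e v D a hv).mp ha) hb)
    inv := fun v D n a hv hD hn ha => (e v _ a hv).mpr (h.inv v D n a hv hD hn ((e v D a hv).mp ha))
    clo := fun v D a hv hD ha => (e v D _ hv).mpr (h.clo v D a hv hD ((e v D a hv).mp ha))
    num := fun v D hv hD B hB => h.num v D hv hD B (fun b hb => (e v D b hv).mp (hB b hb))
    zero := h.zero }

end Proof

/-- **Main result.** -/
theorem result (F : Type) [Field F] [NumberField F] :
    ∃ y₀ : ℕ, ∀ y, y₀ ≤ y → ∀ d₀ : F, d₀ ≠ 0 →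
      (∀ (k : ℕ) (q : Fin k → HeightOneSpectrum (𝓞 F)) (d d' : F),
        Fits y d₀ q d → Fits y d₀ q d' → IsSquare (d * d')) ∧
      ∀ ε : ℝ, 0 < ε → ∃ k₀ : ℕ, ∀ k, k₀ ≤ k → Nested k fun X =>
        (Ensemble y d₀ X).Finite ∧ (Ensemble y d₀ X).Nonempty ∧
        (∀ s t : ℕ, 1 ≤ t → ¬ DefectAtLeast F (s + 1) →
          ({q ∈ Ensemble y d₀ X | ∃ d, Fits y d₀ q d ∧
              ∃ (L : Type) (_ : Field L) (_ : NumberField L) (_ : Algebra F L),
                IsQuadratic F L d ∧ DefectAtLeast L (s + t)}.ncard : ℝ) ≤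
            ((1 / 2 : ℝ) ^ newComplex d₀ / (2 ^ t - 1) + ε) * (Ensemble y d₀ X).ncard) ∧
        ((Leopoldt F 2 ∨ (IsGalois ℚ F ∧ ∀ g h : F ≃ₐ[ℚ] F, g * h = h * g)) →
          (1 - (1 / 2 : ℝ) ^ newComplex d₀ - ε) * (Ensemble y d₀ X).ncard ≤
            ({q ∈ Ensemble y d₀ X | ∀ (d : F) (L : Type) [Field L] [NumberField L] [Algebra F L],
              Fits y d₀ q d → IsQuadratic F L d → Leopoldt L 2}.ncard : ℝ)) := by
  obtain ⟨y1, hy1⟩ := Q283.LQ.t_MAIN F
  obtain ⟨y2, hy2⟩ := Q283.LQ.uniq F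
  refine ⟨max y1 y2, fun y hy d₀ hd₀ => ⟨fun k q d d' hd hd' => ?_, fun ε hε => ?_⟩⟩
  · exact hy2 y (le_trans (le_max_right _ _) hy) d₀ hd₀ k q d d' (fits_iff.mp hd) (fits_iff.mp hd')
  obtain ⟨k0, hk0⟩ := hy1 y (le_trans (le_max_left _ _) hy) (Ideal.span {2}) (fun _ => 0)
    (Ideal.mem_span_singleton_self 2) loc_two d₀ hd₀ ε hε
  refine ⟨k0, fun k hk => (nested_iff k _).mpr (Q283.LQ.nest_mono k _ _ (fun X hX => ?_) (hk0 k hk))⟩
  obtain ⟨hfin, hpos, hst⟩ := hX
  have hE : Ensemble y d₀ X =
      {q ∈ (Q283.LQ.Box y X : Set (Fin k → HeightOneSpectrum (𝓞 F))) | ∃ d, Q283.LQ.Fits y d₀ q d} := by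
    ext q
    simp only [Ensemble, Q283.LQ.Box, Set.mem_ofPred_eq, fits_iff]
    rfl
  have hEfin : (Ensemble y d₀ X).Finite := by
    rw [hE]
    exact hfin.subset (fun q hq => hq.1)
  rw [← hE] at hpos
  have hmap : ∀ (L : Type) [Field L] [NumberField L] [Algebra F L],
      (Ideal.span {(2 : 𝓞 F)}).map (algebraMap (𝓞 F) (𝓞 L)) = Ideal.span {2} := by
    intro L _ _ _
    rw [Ideal.map_span, Set.image_singleton, map_ofNat]
  have hmain : ∀ s t : ℕ, 1 ≤ t → ¬ DefectAtLeast F (s + 1) →
      ({q ∈ Ensemble y d₀ X | ∃ d, Fits y d₀ q d ∧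
          ∃ (L : Type) (_ : Field L) (_ : NumberField L) (_ : Algebra F L),
            IsQuadratic F L d ∧ DefectAtLeast L (s + t)}.ncard : ℝ) ≤
        ((1 / 2 : ℝ) ^ newComplex d₀ / (2 ^ t - 1) + ε) * (Ensemble y d₀ X).ncard := by
    intro s t ht hs
    have h1 := hst s t ht (fun h => hs ((defect_iff F (s + 1)).mpr h))
    rw [← hE, newComplex_eq] at h1
    simp only [finsum_zero, pow_zero, one_mul] at h1
    refine le_trans ?_ h1
    have h2 : {q ∈ Ensemble y d₀ X | ∃ d, Fits y d₀ q d ∧
          ∃ (L : Type) (_ : Field L) (_ : NumberField L) (_ : Algebra F L),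
            IsQuadratic F L d ∧ DefectAtLeast L (s + t)} ⊆
        {q ∈ (Q283.LQ.Box y X : Set (Fin k → HeightOneSpectrum (𝓞 F))) | ∃ d, Q283.LQ.Fits y d₀ q d ∧
          ∃ (L : Type) (_ : Field L) (_ : NumberField L) (_ : Algebra F L),
            Q283.LQ.Quad F L d ∧ Q283.LQ.Df L ((Ideal.span {2}).map (algebraMap (𝓞 F) (𝓞 L))) (s + t)} := by
      rintro q ⟨hq, d, hd, L, i1, i2, i3, hL, hdef⟩
      refine ⟨hq.1, d, fits_iff.mp hd, L, i1, i2, i3, ⟨hL.deg, hL.root⟩, ?_⟩
      rw [hmap L]
      exact (defect_iff L _).mp hdef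
    exact_mod_cast Set.ncard_le_ncard h2 (hfin.subset (fun q hq => hq.1))
  refine ⟨hEfin, ?_, hmain, fun hF => ?_⟩
  · rw [← Set.ncard_pos hEfin]
    exact_mod_cast hpos
  · have hF' : Leopoldt F 2 := by
      rcases hF with h | ⟨h1, h2⟩
      · exact h
      · exact Y944.LC.bru F 2 h1 h2
    have h1 := hmain 0 1 le_rfl ((leopoldt_iff F).mp hF')
    rw [zero_add] at h1
    have h2 : {q ∈ Ensemble y d₀ X | ∃ d, Fits y d₀ q d ∧
          ∃ (L : Type) (_ : Field L) (_ : NumberField L) (_ : Algebra F L),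
            IsQuadratic F L d ∧ DefectAtLeast L 1} ∪
        {q ∈ Ensemble y d₀ X | ∀ (d : F) (L : Type) [Field L] [NumberField L] [Algebra F L],
          Fits y d₀ q d → IsQuadratic F L d → Leopoldt L 2} = Ensemble y d₀ X := by
      ext q
      simp only [Set.mem_union, Set.mem_ofPred_eq]
      constructor
      · rintro (h | h)
        · exact h.1
        · exact h.1
      · intro hq
        by_cases hc : ∃ d, Fits y d₀ q d ∧
          ∃ (L : Type) (_ : Field L) (_ : NumberField L) (_ : Algebra F L),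
            IsQuadratic F L d ∧ DefectAtLeast L 1
        · exact Or.inl ⟨hq, hc⟩
        · refine Or.inr ⟨hq, ?_⟩
          intro d L i1 i2 i3 hd hL
          rw [leopoldt_iff]
          intro hdef
          exact hc ⟨d, hd, L, i1, i2, i3, hL, hdef⟩
    have h3 := Set.ncard_union_le {q ∈ Ensemble y d₀ X | ∃ d, Fits y d₀ q d ∧
          ∃ (L : Type) (_ : Field L) (_ : NumberField L) (_ : Algebra F L),
            IsQuadratic F L d ∧ DefectAtLeast L 1}
        {q ∈ Ensemble y d₀ X | ∀ (d : F) (L : Type) [Field L] [NumberField L] [Algebra F L],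
          Fits y d₀ q d → IsQuadratic F L d → Leopoldt L 2}
    rw [h2] at h3
    have h4 : ((Ensemble y d₀ X).ncard : ℝ) ≤
        ({q ∈ Ensemble y d₀ X | ∃ d, Fits y d₀ q d ∧
          ∃ (L : Type) (_ : Field L) (_ : NumberField L) (_ : Algebra F L),
            IsQuadratic F L d ∧ DefectAtLeast L 1}.ncard : ℝ) +
        ({q ∈ Ensemble y d₀ X | ∀ (d : F) (L : Type) [Field L] [NumberField L] [Algebra F L],
          Fits y d₀ q d → IsQuadratic F L d → Leopoldt L 2}.ncard : ℝ) := by
      exact_mod_cast h3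
    have h5 : ((1 / 2 : ℝ) ^ newComplex d₀ / (2 ^ 1 - 1) + ε) = (1 / 2 : ℝ) ^ newComplex d₀ + ε := by
      norm_num
    rw [h5] at h1
    have h6 : (1 - (1 / 2 : ℝ) ^ newComplex d₀ - ε) * ((Ensemble y d₀ X).ncard : ℝ) =
        ((Ensemble y d₀ X).ncard : ℝ) - ((1 / 2 : ℝ) ^ newComplex d₀ + ε) * ((Ensemble y d₀ X).ncard : ℝ) := by
      ring
    rw [h6]
    linarith

end Pool.Agent.Results.MP_5f2860_nt.QuadraticExtensions
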