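import Mathlib
import Pool.Agent.Q210.CH.Main

/-!
The definitions are in `Pool.Agent.Q210.CH.Defs`: `SuccT`, `CardT` (the cardinals `λ⁺` and `λ` as
types of ordinals), `InjSet` (the set `A(d)`), `NeCof`, `StationaryFailure`, `IsSupercompactOn`,
`IsSupercompact`, `Chang`. `IsStationary`, `IsClub`, `Cardinal.IsStrongLimit`,
`Cardinal.IsSingular` are Mathlib's.
-/

open Cardinal Ordinal

universe u

namespace Pool.Agent.Results.MP_5f3b23_lc.StationaryFailureSC

open Q210.CH

/-- (1) If `κ` is `λ⁺`-supercompact and `cf λ < κ < λ` with `λ` strong limit, then for every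
`d : λ⁺ × λ⁺ → λ` the set `E_{≠ cf λ} \ A(d)` is stationary. (2) The same if `λ` is a strong limit
of cofinality `ω` and `(λ⁺, λ) ↠ (ν⁺, ν)` for some infinite `ν < λ`. (3) If there is a
supercompact cardinal, then the conclusion holds at some singular cardinal. -/
theorem result :
    (∀ kap lam : Cardinal.{u}, lam.IsStrongLimit → lam.ord.cof < kap → kap < lam →
      IsSupercompactOn kap (SuccT lam) → StationaryFailure lam) ∧
    (∀ lam nu : Cardinal.{u}, lam.IsStrongLimit → lam.ord.cof = ℵ₀ → ℵ₀ ≤ nu → nu < lam →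
      Chang lam nu → StationaryFailure lam) ∧
    ((∃ kap : Cardinal.{u}, IsSupercompact kap) →
      ∃ lam : Cardinal.{u}, lam.IsSingular ∧ StationaryFailure lam) :=
  ⟨fun _ _ h1 h2 h3 h4 => stat_sc h1 h2 h3 h4,
    fun _ _ h1 h2 h3 h4 h5 => stat_chang h1 h2 h3 h4 h5, exists_singular⟩

end Pool.Agent.Results.MP_5f3b23_lc.StationaryFailureSC
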