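import Pool.Agent.Q99.SML4.Order

/-!
# Vassiliev invariants of one order distinguish the members of families of powers of braids

Diagrams (starting library `Pool.Agent.H891R2.Jones.Diagram`): `Diagram P` (oriented link diagrams,
planar or not), `Diagram.IsClosed`, `Diagram.fPoly` (the normalised bracket `(-A^{-3})^{w(D)} ⟨D⟩`),
`Outer m` (the part of an oriented diagram outside a box through which `m` strands run, with arbitrary
directions), `Outer.close` (fills the rest of the box with vertical strands).

Vassiliev invariants (starting library `Pool.Agent.H832R3.VJ.Defs`): `Dia` (an oriented diagram with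
the finite set of its marked points), `Separated d X Y` (some integer valued Vassiliev invariant of
oriented links of order at most `d` has different values on `X` and `Y`), `unknot`.

`Pool.Agent.Q99.SML.Defs`: `Word` (words in the letters `σ_j^{±1}`), `wperm m w` (the permutation of `w`;
`w` is pure if it is `1`), `family O w u n` (the product
`w_0^{n_0} u_0 w_1^{n_1} u_1 ⋯ w_{k-1}^{n_{k-1}} u_{k-1}` is drawn in the box of `O`).
-/

set_option autoImplicit false

namespace Pool.Agent.Results.MP_5f6b43_gt.BraidPowersOrder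

open Finset LaurentPolynomial Pool.Agent.H891R2.Jones Pool.Agent.H832R3.VJ Q99.SML

/-- the diagram as an element of `Dia` -/
def dia {m : ℕ} (O : Outer m) : Dia := ⟨O.P, inferInstance, O.close⟩

/-- Let `O_i`, `i < r`, be outsides of boxes with `m_i` strands, let `w_{i,j}`, `u_{i,j}`, `j < k`, be
braid words, let `P ≥ 1` be such that all `w_{i,j}^P` are pure (`P = 1` if the `w_{i,j}` are pure), and
for `n ∈ ℤ^k` let `K_i(n)` be the diagram obtained by drawing the product
`w_{i,0}^{n_0} u_{i,0} ⋯ w_{i,k-1}^{n_{k-1}} u_{i,k-1}` in the box of `O_i`.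

* If `O_i` is the outside of a closed diagram and the product of the words for `n = s` preserves the
  directions of the strands, then all `K_i(s + P q)`, `q ∈ ℤ^k`, are closed oriented diagrams.
* There is a number `d` such that for all `i`, `i'` and all `n`, `n' ∈ ℤ^k` the diagrams `K_i(n)` and
  `K_{i'}(n')` are separated by Vassiliev invariants of order at most `d`, unless they have the same
  normalised bracket; and `K_i(n)` is separated from the unknot by Vassiliev invariants of order at
  most `d`, unless its normalised bracket is `1`.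
* With this `d`, for every `i` and every `s ∈ ℤ^k` either all `K_i(s + P q)`, `q ∈ ℤ^k`, have the
  normalised bracket `1`, or for all finite sets `A_0, …, A_{k-1}` of integers at most
  `C(m_i, ⌊m_i / 2⌋) ∑_j ∏_{l ≠ j} |A_l|` of the diagrams `K_i(s + P q)`, `q ∈ ∏ A_j`, are not separated from
  the unknot by Vassiliev invariants of order at most `d`. For all `i`, `i'` and `s` either `K_i(s + P q)`
  and `K_{i'}(s + P q)` have the same normalised bracket for all `q ∈ ℤ^k`, or for at most
  `(C(m_i, ⌊m_i / 2⌋) + C(m_{i'}, ⌊m_{i'} / 2⌋)) ∑_j ∏_{l ≠ j} |A_l|` of the `q ∈ ∏ A_j` they are not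
  separated by Vassiliev invariants of order at most `d`. -/
theorem result {r k : ℕ} {m : Fin r → ℕ} (hm : ∀ i, 0 < m i) (O : ∀ i, Outer (m i))
    (w u : Fin r → Fin k → Word) (P : ℕ) (hP0 : 0 < P)
    (hP : ∀ i j, wperm (m i) (w i j) ^ P = 1) :
    (∀ (i : Fin r) (s : Fin k → ℤ), (O i).close.IsClosed →
      (family (O i) (w i) (u i) s).up = (O i).up →
      ∀ q : Fin k → ℤ, (family (O i) (w i) (u i) (s + (P : ℤ) • q)).close.IsClosed) ∧
    ∃ d : ℕ,
      (∀ (i i' : Fin r) (n n' : Fin k → ℤ),
        (family (O i) (w i) (u i) n).close.fPoly ≠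
          (family (O i') (w i') (u i') n').close.fPoly →
        Separated d (dia (family (O i) (w i) (u i) n)) (dia (family (O i') (w i') (u i') n'))) ∧
      (∀ (i : Fin r) (n : Fin k → ℤ), (family (O i) (w i) (u i) n).close.fPoly ≠ 1 →
        Separated d (dia (family (O i) (w i) (u i) n)) unknot) ∧
      (∀ (i : Fin r) (s : Fin k → ℤ),
        (∀ q : Fin k → ℤ, (family (O i) (w i) (u i) (s + (P : ℤ) • q)).close.fPoly = 1) ∨
        ∀ A : Fin k → Finset ℤ, {q : Fin k → ℤ | (∀ j, q j ∈ A j) ∧
            ¬ Separated d (dia (family (O i) (w i) (u i) (s + (P : ℤ) • q))) unknot}.ncard ≤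
          (m i).choose (m i / 2) * ∑ j, ∏ l ∈ univ.erase j, #(A l)) ∧
      (∀ (i i' : Fin r) (s : Fin k → ℤ),
        (∀ q : Fin k → ℤ, (family (O i) (w i) (u i) (s + (P : ℤ) • q)).close.fPoly =
          (family (O i') (w i') (u i') (s + (P : ℤ) • q)).close.fPoly) ∨
        ∀ A : Fin k → Finset ℤ, {q : Fin k → ℤ | (∀ j, q j ∈ A j) ∧
            ¬ Separated d (dia (family (O i) (w i) (u i) (s + (P : ℤ) • q)))
              (dia (family (O i') (w i') (u i') (s + (P : ℤ) • q)))}.ncard ≤
          ((m i).choose (m i / 2) + (m i').choose (m i' / 2)) *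
            ∑ j, ∏ l ∈ univ.erase j, #(A l)) := by
  classical
  have hfin : ∀ (A : Fin k → Finset ℤ) (R : (Fin k → ℤ) → Prop),
      {q : Fin k → ℤ | (∀ j, q j ∈ A j) ∧ R q}.Finite := by
    intro A R
    apply (Fintype.piFinset A).finite_toSet.subset
    intro n hn
    rw [Finset.mem_coe, Fintype.mem_piFinset]
    exact hn.1
  have hP1 : (P : ℤ) ≠ 0 := by exact_mod_cast hP0.ne'
  have hres : ∀ n : Fin k → ℤ, ∃ (s : Fin k → Fin P) (q : Fin k → ℤ),
      n = (fun l => ((s l : ℕ) : ℤ)) + (P : ℤ) • q := by
    intro n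
    have h1 : ∀ l, (n l % (P : ℤ)).toNat < P := fun l => by
      have h2 := Int.emod_nonneg (n l) hP1
      have h3 := Int.emod_lt_of_pos (n l) (by exact_mod_cast hP0 : (0 : ℤ) < P)
      omega
    refine ⟨fun l => ⟨(n l % (P : ℤ)).toNat, h1 l⟩, fun l => n l / P, ?_⟩
    funext l
    rw [Pi.add_apply, Pi.smul_apply, smul_eq_mul]
    show n l = (((n l % (P : ℤ)).toNat : ℕ) : ℤ) + P * (n l / P)
    rw [Int.toNat_of_nonneg (Int.emod_nonneg (n l) hP1), Int.emod_add_mul_ediv]
  refine ⟨fun i s hO hup q => Q99.SML4.family_closed (O i) (w i) (u i) P (fun j => hP i j) s hO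
    hup q, ?_⟩
  choose d1 h1 using fun (x : (Fin r × Fin r) × (Fin k → Fin P) × (Fin k → Fin P)) =>
    Q99.SML4.order_pair (hm x.1.1) (hm x.1.2) (O x.1.1) (O x.1.2) (w x.1.1) (u x.1.1) (w x.1.2)
      (u x.1.2) P P (hP x.1.1) (hP x.1.2) (fun l => ((x.2.1 l : ℕ) : ℤ))
      (fun l => ((x.2.2 l : ℕ) : ℤ))
  choose d2 h2 using fun (x : Fin r × (Fin k → Fin P)) =>
    Q99.SML4.order_pair (k' := 0) (hm x.1) one_pos (O x.1) Q99.SML4.plain (w x.1) (u x.1)
      Fin.elim0 Fin.elim0 P 1 (hP x.1) (fun j => j.elim0) (fun l => ((x.2 l : ℕ) : ℤ)) Fin.elim0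
  set d := max (univ.sup d1) (univ.sup d2) with hd
  have hA : ∀ (i i' : Fin r) (n n' : Fin k → ℤ),
        (family (O i) (w i) (u i) n).close.fPoly ≠
          (family (O i') (w i') (u i') n').close.fPoly →
        Separated d (dia (family (O i) (w i) (u i) n)) (dia (family (O i') (w i') (u i') n')) := by
    intro i i' n n' hne
    by_contra hs
    apply hne
    obtain ⟨s, q, rfl⟩ := hres n
    obtain ⟨s', q', rfl⟩ := hres n'
    refine h1 ((i, i'), s, s') q q' fun j hj => ?_
    exact Q99.SML4.moment_of_not_separated hs j (hj.trans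
      ((Finset.le_sup (Finset.mem_univ _)).trans (le_max_left _ _)))
  have hB : ∀ (i : Fin r) (n : Fin k → ℤ), (family (O i) (w i) (u i) n).close.fPoly ≠ 1 →
        Separated d (dia (family (O i) (w i) (u i) n)) unknot := by
    intro i n hne
    by_contra hs
    apply hne
    obtain ⟨s, q, rfl⟩ := hres n
    rw [← fPoly_unknot]
    refine h2 (i, s) q Fin.elim0 fun j hj => ?_
    exact Q99.SML4.moment_of_not_separated hs j (hj.trans
      ((Finset.le_sup (Finset.mem_univ _)).trans (le_max_right _ _)))
  refine ⟨d, hA, hB, fun i s => ?_, fun i i' s => ?_⟩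
  · have h := Q99.SML4.count (r := 1) (m := fun _ => m i) (fun _ => hm i) (fun _ => O i)
      (fun _ => w i) (fun _ => u i) P (fun _ j => hP i j) s (fun _ => 1) 1
    simp only [Finset.univ_unique, Finset.sum_singleton, one_mul] at h
    rcases h with h | h
    · exact Or.inl h
    · right
      intro A
      refine (Set.ncard_le_ncard ?_ (hfin A _)).trans (h A)
      rintro q ⟨hq, hs⟩
      refine ⟨hq, ?_⟩
      by_contra hne
      exact hs (hB i _ hne)
  · have h := Q99.SML4.count (r := 2) (m := ![m i, m i'])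
      (Fin.forall_fin_two.2 ⟨hm i, hm i'⟩)
      (Fin.cons (O i) (Fin.cons (O i') (fun j => j.elim0)))
      ![w i, w i'] ![u i, u i'] P
      (Fin.forall_fin_two.2 ⟨fun j => hP i j, fun j => hP i' j⟩) s ![1, -1] 0
    simp only [Fin.sum_univ_two] at h
    have hiff : ∀ q : Fin k → ℤ,
        (1 * (family (O i) (w i) (u i) (s + (P : ℤ) • q)).close.fPoly +
          -1 * (family (O i') (w i') (u i') (s + (P : ℤ) • q)).close.fPoly = 0) ↔
        (family (O i) (w i) (u i) (s + (P : ℤ) • q)).close.fPoly =
          (family (O i') (w i') (u i') (s + (P : ℤ) • q)).close.fPoly := by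
      intro q
      rw [one_mul, neg_one_mul, ← sub_eq_add_neg, sub_eq_zero]
    rcases h with h | h
    · exact Or.inl fun q => (hiff q).1 (h q)
    · right
      intro A
      refine (Set.ncard_le_ncard ?_ (hfin A _)).trans (h A)
      rintro q ⟨hq, hs⟩
      refine ⟨hq, (hiff q).2 ?_⟩
      by_contra hne
      exact hs (hA i i' _ _ hne)

end Pool.Agent.Results.MP_5f6b43_gt.BraidPowersOrder
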