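import Pool.Agent.Q99.SML4.Explicit

/-!
# An explicit order of the Vassiliev invariants which detect the powers of braids

Diagrams (starting library `Pool.Agent.H891R2.Jones.Diagram`): `Diagram P` (oriented link diagrams,
planar or not), `Diagram.IsClosed`, `Diagram.fPoly` (the normalised bracket `(-A^{-3})^{w(D)} ⟨D⟩`),
`Outer m` (the part of an oriented diagram outside a box through which `m` strands run, with arbitrary
directions; `O.P` is the set of its marked points), `Outer.close` (fills the rest of the box with
vertical strands).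

Vassiliev invariants (starting library `Pool.Agent.H832R3.VJ.Defs`): `Dia` (an oriented diagram with
the finite set of its marked points), `Separated d X Y` (some integer valued Vassiliev invariant of
oriented links of order at most `d` has different values on `X` and `Y`), `unknot`.

`Pool.Agent.Q99.SML.Defs`: `Word` (words in the letters `σ_j^{±1}`), `wperm m w` (the permutation of `w`;
`w` is pure if it is `1`), `family O w u q` (the product
`w_0^{q_0} u_0 w_1^{q_1} u_1 ⋯ w_{k-1}^{q_{k-1}} u_{k-1}` is drawn in the box of `O`).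
-/

set_option autoImplicit false

namespace Pool.Agent.Results.MP_5f6b43_gt.ExplicitOrder

open Finset LaurentPolynomial Pool.Agent.H891R2.Jones Pool.Agent.H832R3.VJ Q99.SML Q99.SML2
  Q99.SML4

/-- the diagram as an element of `Dia` -/
def dia {m : ℕ} (O : Outer m) : Dia := ⟨O.P, inferInstance, O.close⟩

theorem box_lt (k C : ℕ) (hk : 0 < k) : C * (k * (k * C + 1) ^ (k - 1)) < (k * C + 1) ^ k := by
  obtain ⟨k, rfl⟩ : ∃ k', k = k' + 1 := ⟨k - 1, by omega⟩
  rw [Nat.add_sub_cancel, pow_succ]
  have h : 0 < ((k + 1) * C + 1) ^ k := Nat.pow_pos (Nat.succ_pos _)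
  calc C * ((k + 1) * ((k + 1) * C + 1) ^ k) = ((k + 1) * C + 1) ^ k * ((k + 1) * C) := by ring
    _ < _ := Nat.mul_lt_mul_of_pos_left (Nat.lt_succ_self _) h

/-- Let `O` be the outside of a box with `m` strands of an oriented diagram, with `c` crossings and `p`
marked points, let `w_j`, `u_j`, `j < k`, be braid words, the `w_j` pure, and for `q ∈ ℤ^k` let `K(q)` be
the diagram obtained by drawing the product `w_0^{q_0} u_0 ⋯ w_{k-1}^{q_{k-1}} u_{k-1}` in the box. Let
`L = ∑_j (k C(m, ⌊m / 2⌋) |w_j| + |u_j|)`, where `|w|` is the length of a word, and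
`D = 8 (c + L) + 4 (p + m L)`, numbers which do not depend on the exponents.

* If `O` is the outside of a closed diagram and the product for `q = 0` preserves the directions of
  the strands, then all `K(q)` are closed oriented diagrams.
* **Unknot.** Either all `K(q)`, `q ∈ ℤ^k`, have the normalised bracket `1`, or for all finite sets
  `A_0, …, A_{k-1}` of integers at most `D ∑_j ∏_{l ≠ j} |A_l|` of the `K(q)`, `q ∈ ∏ A_j`, are not
  separated from the unknot by Vassiliev invariants of order at most `D` (for `k = 1`: at most `D` of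
  the `K(q)`, `q ∈ ℤ`).
* **Any link.** Either all `K(q)`, `q ∈ ℤ^k`, have the same normalised bracket, or for every link `X`
  (an arbitrary diagram) and all finite sets `A_0, …, A_{k-1}` of integers at most
  `D ∑_j ∏_{l ≠ j} |A_l|` of the `K(q)`, `q ∈ ∏ A_j`, are not separated from `X` by Vassiliev invariants
  of order at most `D`. -/
theorem result {m k : ℕ} (hm : 0 < m) (O : Outer m) (w u : Fin k → Word)
    (hw : ∀ j, wperm m (w j) = 1) (L D : ℕ)
    (hL : L = ∑ j, (k * m.choose (m / 2) * (w j).length + (u j).length))
    (hD : D = 8 * (O.crossings.length + L) + 4 * (Fintype.card O.P + m * L)) :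
    (O.close.IsClosed → (family O w u 0).up = O.up →
      ∀ q : Fin k → ℤ, (family O w u q).close.IsClosed) ∧
    ((∀ q : Fin k → ℤ, (family O w u q).close.fPoly = 1) ∨
      ∀ A : Fin k → Finset ℤ, {q : Fin k → ℤ | (∀ j, q j ∈ A j) ∧
          ¬ Separated D (dia (family O w u q)) unknot}.ncard ≤
        D * ∑ j, ∏ l ∈ univ.erase j, #(A l)) ∧
    ((∀ q q' : Fin k → ℤ, (family O w u q).close.fPoly = (family O w u q').close.fPoly) ∨
      ∀ (X : Dia) (A : Fin k → Finset ℤ), {q : Fin k → ℤ | (∀ j, q j ∈ A j) ∧
          ¬ Separated D (dia (family O w u q)) X}.ncard ≤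
        D * ∑ j, ∏ l ∈ univ.erase j, #(A l)) := by
  classical
  have hw' : ∀ j, wperm m (w j) ^ 1 = 1 := fun j => by rw [pow_one]; exact hw j
  have hq1 : ∀ q : Fin k → ℤ, (0 : Fin k → ℤ) + ((1 : ℕ) : ℤ) • q = q := fun q => by
    rw [Nat.cast_one, one_smul, zero_add]
  have hF1 : ∀ q : Fin k → ℤ, (family O w u ((0 : Fin k → ℤ) + ((1 : ℕ) : ℤ) • q)).close.fPoly =
      (family O w u q).close.fPoly := fun q => by rw [hq1]
  set C := m.choose (m / 2) with hC
  set B := 4 * (O.crossings.length + L) + 2 * (Fintype.card O.P + m * L) with hB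
  have hDB : D = 2 * B := by rw [hD, hB]; ring
  -- the members with small exponents
  have hsmall : ∀ q : Fin k → ℤ, (∀ j, q j ∈ Finset.Icc (0 : ℤ) (k * C : ℕ)) →
      Pool.Agent.W705.JR.Within B (family O w u q).close.fPoly := by
    intro q hq e he
    have h1 := Q99.SML5.exponents (family O w u q).close e he
    have h2 := family_size k w u q O
    have h3 : ∑ j, ((q j).natAbs * (w j).length + (u j).length) ≤ L := by
      rw [hL]
      refine Finset.sum_le_sum fun j _ => ?_
      have h4 := Finset.mem_Icc.1 (hq j)
      have h5 : (q j).natAbs ≤ k * C := by omega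
      exact Nat.add_le_add_right (Nat.mul_le_mul_right _ h5) _
    have h6 : (family O w u q).close.crossings.length ≤ O.crossings.length + L :=
      h2.1.trans (Nat.add_le_add_left h3 _)
    have h7 : Fintype.card (family O w u q).P ≤ Fintype.card O.P + m * L :=
      h2.2.trans (Nat.add_le_add_left (Nat.mul_le_mul_left _ h3) _)
    rw [Nat.card_eq_fintype_card] at h1
    refine h1.trans ?_
    rw [hB]
    push_cast
    have h6' : ((family O w u q).close.crossings.length : ℤ) ≤ O.crossings.length + L := by
      exact_mod_cast h6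
    have h7' : (Fintype.card (family O w u q).P : ℤ) ≤ Fintype.card O.P + m * L := by
      exact_mod_cast h7
    linarith
  have hmoment : ∀ F G : ℤ[T;T⁻¹], Pool.Agent.W705.JR.Within B F →
      Pool.Agent.W705.JR.Within B G → F ≠ G → ∃ j ≤ D, moment j F ≠ moment j G := by
    intro F G hF hG hne
    by_contra hcon
    push Not at hcon
    apply hne
    have h1 : Pool.Agent.W705.JR.Within B (F - G) := by
      rw [sub_eq_add_neg]
      exact hF.add hG.neg
    have h2 := Pool.Agent.W705.JR.card_le_of_within h1
    have h3 := eq_zero_of_moment (2 * B + 1) (F - G) 1 (by rw [one_mul]; exact h2)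
      (fun j hj => by rw [moment_sub, hcon j (by omega), sub_self])
    rw [one_mul] at h3
    exact sub_eq_zero.1 h3
  have h0mem : ∀ j : Fin k, (0 : Fin k → ℤ) j ∈ Finset.Icc (0 : ℤ) (k * C : ℕ) := fun j =>
    Finset.mem_Icc.2 ⟨le_rfl, Int.natCast_nonneg _⟩
  have hX : (∀ q q' : Fin k → ℤ, (family O w u q).close.fPoly = (family O w u q').close.fPoly) ∨
      ∀ (X : Dia) (A : Fin k → Finset ℤ), {q : Fin k → ℤ | (∀ j, q j ∈ A j) ∧
          ¬ Separated D (dia (family O w u q)) X}.ncard ≤
        D * ∑ j, ∏ l ∈ univ.erase j, #(A l) := by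
    by_cases hall : ∀ q q' : Fin k → ℤ,
        (family O w u q).close.fPoly = (family O w u q').close.fPoly
    · exact Or.inl hall
    right
    have hk : 0 < k := by
      by_contra hk
      have hk0 : k = 0 := by omega
      subst hk0
      exact hall fun q q' => by rw [Subsingleton.elim q q']
    have hex : ∃ q : Fin k → ℤ, (∀ j, q j ∈ Finset.Icc (0 : ℤ) (k * C : ℕ)) ∧
        (family O w u q).close.fPoly ≠ (family O w u 0).close.fPoly := by
      by_contra hcon
      push Not at hcon
      have h := count (r := 1) (m := fun _ => m) (fun _ => hm) (fun _ => O)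
        (fun _ => w) (fun _ => u) 1 (fun _ j => hw' j) 0 (fun _ => 1)
        (family O w u 0).close.fPoly
      simp only [Finset.univ_unique, Finset.sum_singleton, one_mul, hF1] at h
      rcases h with h | h
      · exact hall fun q q' => (h q).trans (h q').symm
      · have h1 := h (fun _ => Finset.Icc (0 : ℤ) (k * C : ℕ))
        have h2 : {q : Fin k → ℤ | (∀ j, q j ∈ Finset.Icc (0 : ℤ) (k * C : ℕ)) ∧
            (family O w u q).close.fPoly = (family O w u 0).close.fPoly} =
            ((Fintype.piFinset fun _ : Fin k => Finset.Icc (0 : ℤ) (k * C : ℕ)) :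
              Set (Fin k → ℤ)) := by
          ext q
          rw [Finset.mem_coe, Fintype.mem_piFinset]
          exact ⟨fun hq => hq.1, fun hq => ⟨hq, hcon q hq⟩⟩
        have h3 : (Finset.Icc (0 : ℤ) (k * C : ℕ)).card = k * C + 1 := by
          rw [Int.card_Icc]
          omega
        rw [h2, Set.ncard_coe_finset, Fintype.card_piFinset] at h1
        simp only [h3, Finset.prod_const, Finset.card_erase_of_mem (Finset.mem_univ _),
          Finset.card_univ, Fintype.card_fin, Finset.sum_const, smul_eq_mul] at h1
        exact absurd h1 (not_le.2 (box_lt k C hk))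
    obtain ⟨q0, hq0, hne⟩ := hex
    obtain ⟨j, hj, hjne⟩ := hmoment _ _ (hsmall q0 hq0) (hsmall 0 h0mem) hne
    intro X A
    have hc : ∃ q : Fin k → ℤ, moment j (family O w u q).close.fPoly ≠ moment j X.D.fPoly := by
      by_cases h1 : moment j (family O w u q0).close.fPoly = moment j X.D.fPoly
      · exact ⟨0, fun h2 => hjne (h1.trans h2.symm)⟩
      · exact ⟨q0, h1⟩
    refine (moment_count hm O w u hw j _ hc A
      (fun q => ¬ Separated D (dia (family O w u q)) X) ?_).trans (Nat.mul_le_mul_right _ hj)
    intro q hq
    exact moment_of_not_separated hq j hj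
  refine ⟨fun hO hup q => ?_, ?_, hX⟩
  · have h := family_closed O w u 1 hw' 0 hO hup q
    rwa [hq1] at h
  · rcases hX with hX | hX
    · by_cases h1 : (family O w u 0).close.fPoly = 1
      · exact Or.inl fun q => (hX q 0).trans h1
      · right
        intro A
        obtain ⟨j, hj, hjne⟩ := hmoment _ 1 (hsmall 0 h0mem)
          (Pool.Agent.W705.JR.Within.one.mono (Nat.zero_le _)) h1
        have he : {q : Fin k → ℤ | (∀ j, q j ∈ A j) ∧
            ¬ Separated D (dia (family O w u q)) unknot} = ∅ := by
          rw [Set.eq_empty_iff_forall_notMem]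
          rintro q ⟨_, hq⟩
          have h2 := moment_of_not_separated hq j hj
          apply hjne
          rw [← hX q 0, ← fPoly_unknot]
          exact h2
        rw [he, Set.ncard_empty]
        exact Nat.zero_le _
    · exact Or.inr (hX unknot)

end Pool.Agent.Results.MP_5f6b43_gt.ExplicitOrder
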