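import Pool.Agent.Q15.S70Main

/-!
# The semiring `S_7^0` is not finitely based

The definitions `Term`, `Term.eval`, `Holds`, `FinitelyBased`, `S7` and `S70` are in
`Pool/Agent/Q15/S70Defs.lean`.
-/

set_option autoImplicit false

namespace Pool.Agent.Results.MP_5fe13e_al.S70NotFinitelyBased

open Pool.Agent.Q15.S70

/-- The semiring `S_7^0`, with signature `{+, ·, 0}`, is not finitely based. -/
theorem result : ¬ FinitelyBased S70 := not_finitelyBased

end Pool.Agent.Results.MP_5fe13e_al.S70NotFinitelyBased
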