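import Pool.Agent.Q57.TC.FreT

/-!
# Effective abundance for covers of projective space branched along normal crossings

Let `F k`, `k = 0, ..., n`, be forms of degrees `d k` in `n + 1` variables whose zero sets in the
projective `n`-space are smooth hypersurfaces with normal crossings. Let `K` be the function field
of an abelian cover `Y` of the projective space which is branched only along these hypersurfaces: `K`
is generated by the affine coordinates and by roots `z j`,
`z j ^ (m j) = ∏ k, (F k (x) / x 0 ^ (d k)) ^ (a j k)`, where `m j` divides `∑ k, a j k * d k`. (For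
`n ≥ 2` all finite covers which are branched only along these hypersurfaces are abelian; covers
which are branched along fewer hypersurfaces are included: add general hyperplanes, `a j k = 0`.)

A prime divisor `P` over `Y` (a divisorial place of `K`) has the vector `multiplicities F d x P`
of the multiplicities `v k` of the hypersurfaces along `P`, and the log discrepancy
`logDiscrepancy F d x P` of the projective space with the boundary `∑ k, (F k = 0)`: the order of the
logarithmic canonical forms along `P`, plus one. It is `0` for the toroidal divisors `P`, whose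
vectors `v ≠ 0` of nonnegative integers, not all positive, have `m j ∣ ∑ k, a j k * v k` for all `j`
(`Admissible`: the nonzero points of the lattice in the faces of the positive orthant), and it is
positive for all other `P`.

**The varieties.** The toroidal modifications `X` of `Y` are given by the subdivisions (fans) of the
faces of the positive orthant into rational polyhedral cones; `fan` is the set of the maximal cones,
each given by a finite set of admissible generators which span a coordinate hyperplane
(`IsToroidalPair.adm`, `full`, `cover`). Examples are `Y` itself, all toroidal resolutions and all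
toroidal minimal models. The boundary `Δ` is supported over the hypersurfaces, with coefficients at
most one, and `K_X + Δ` is `ℚ`-Cartier: the function `ψ ≥ 0` on the vectors is linear on every cone,
and `1 - ψ ρ` is the coefficient of `Δ` along the divisor of the generator `ρ` of a ray. The log
discrepancy of the pair `(X, Δ)` along any prime divisor `P` over `X` is
`ψ v + logDiscrepancy F d x P`, `v` the vector of `P`, so that
`δ P = 1 - ψ v - logDiscrepancy F d x P` (`coefficient`) is the coefficient of `P` in the pullback of
`K_X + Δ`. For example `Δ = 0` and `X` has terminal singularities: then `ψ = 1` at the generators of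
the rays and `ψ > 1` at all other admissible vectors. The divisor `ρ (K_X + Δ)` is Cartier if and only
if `ρ ψ`, which is linear on the cones, has integral values at the points of the lattice
(`CartierMultiple`; the divisor of the logarithmic canonical forms is Cartier).

**The theorem.** If `K_X + Δ` is nef and `ρ (K_X + Δ)` is Cartier, `ρ ≥ 1`, then for every common
multiple `t ≥ 1` of the degrees `d k` the linear system `|t ρ (K_X + Δ)|` has no base points: for
every prime divisor `P` over `X` it has a section which does not vanish at `P` (so there is no base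
point on `X`: take the exceptional divisor of the blowing up of a point). For the minimal varieties
`X` among these this is the abundance conjecture in an effective form: if `ρ K_X` is Cartier, then
`|r K_X|` is base point free for `r = t ρ`, where `t` is the least common multiple of the degrees of
the branch divisors; it does not depend on the cover and on the model `X` (and it is `1` for covers
which are branched along hyperplanes). There is no condition on the Kodaira dimension. In general,
effective multiples are known if `K_X` is nef and big (Kollár), and not known to exist otherwise. The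
factor `t` is necessary: if `z ^ 2 = F 0 * F 1` is an elliptic curve, with `F 0` of degree `3` and
`F 1` of degree `1`, and `Δ` is the point over the zero of `F 1`, then `K + Δ` is a divisor of degree
one, which is nef and Cartier, but not base point free. (For another family, covers of products of
projective spaces branched along smooth hypersurfaces of the factors, one can take `t = 1`, see
`MP_5ee2d0_ag.NefCartierIsFree`.) That nef log canonical divisors of this family are semiample,
without a bound for the multiple, is `MP_badc2d_ag.GoodMinimalModels`.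
-/

set_option autoImplicit false

open FF MvPolynomial Pool.Agent.W602.GT

namespace Pool.Agent.Results.MP_5ff3c6_ag.EffectiveAbundance

/-- The hypersurfaces `F k = 0` have normal crossings: at every point of the projective space the
gradients of the forms `F k` which vanish at this point are linearly independent. -/
def NormalCrossings {n : ℕ} (F : Fin (n + 1) → MvPolynomial (Fin (n + 1)) ℂ) : Prop :=
  ∀ x : Fin (n + 1) → ℂ, x ≠ 0 → LinearIndependent ℂ
    fun (k : {k // eval x (F k) = 0}) (l : Fin (n + 1)) => eval x (pderiv l (F k.1))

section places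

variable {n R : ℕ} {K : Type} [Field K] [Algebra ℂ K]

/-- The affine coordinates of the projective space. -/
noncomputable def affine (x : Fin (n + 1) → K) (b : Fin n) : K := x b.succ / x 0

/-- The minimal order at `P` of the homogeneous coordinates `x`. -/
noncomputable def minimalOrder (x : Fin (n + 1) → K) (P : Place ℂ K) : ℤ :=
  Finset.univ.inf' Finset.univ_nonempty fun j => P.ord (x j)

/-- The multiplicities of the hypersurfaces `F k = 0` along the prime divisor `P`; the `x j` are the
homogeneous coordinates, which are divided by one of minimal order at `P`. -/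
noncomputable def multiplicities (F : Fin (n + 1) → MvPolynomial (Fin (n + 1)) ℂ)
    (d : Fin (n + 1) → ℕ) (x : Fin (n + 1) → K) (P : Place ℂ K) (k : Fin (n + 1)) : ℕ :=
  (P.ord (aeval x (F k)) - d k * minimalOrder x P).toNat

/-- The canonical form of the projective space, evaluated at the vector fields `D`: `x 0 ^ (n + 1)`
times the determinant of the derivatives of the affine coordinates. -/
noncomputable def canonicalForm (x : Fin (n + 1) → K) (D : Fin n → Derivation ℂ K K) : K :=
  x 0 ^ (n + 1) * (Matrix.of fun a b : Fin n => D a (affine x b)).det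

/-- The order of the canonical form along `P`: the minimal order of its values at vector fields which
are regular at `P`. -/
noncomputable def formOrder (x : Fin (n + 1) → K) (P : Place ℂ K) : ℤ :=
  sInf {k : ℤ | ∃ D : Fin n → Derivation ℂ K K, (∀ a, DerReg P (D a)) ∧
    canonicalForm x D ≠ 0 ∧ P.ord (canonicalForm x D) = k}

/-- The log discrepancy along `P` of the projective space, with the boundary `∑ k, (F k = 0)`: the
order along `P` of the logarithmic canonical forms, which are obtained from the canonical form by the
division by the local equations of the hypersurfaces and by the power `n + 1` of a coordinate `x j` of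
minimal order, plus one. -/
noncomputable def logDiscrepancy (F : Fin (n + 1) → MvPolynomial (Fin (n + 1)) ℂ)
    (d : Fin (n + 1) → ℕ) (x : Fin (n + 1) → K) (P : Place ℂ K) : ℤ :=
  formOrder x P + 1 - ∑ k, (multiplicities F d x P k : ℤ) - ((n : ℤ) + 1) * minimalOrder x P

/-- The coefficient of `P` in the pullback of `K + Δ`, for the pair with the function `ψ`: its log
discrepancy along `P` is `ψ v + logDiscrepancy F d x P`, `v` the vector of the multiplicities. -/
noncomputable def coefficient (F : Fin (n + 1) → MvPolynomial (Fin (n + 1)) ℂ)
    (d : Fin (n + 1) → ℕ) (x : Fin (n + 1) → K) (ψ : (Fin (n + 1) → ℕ) → ℚ) (P : Place ℂ K) : ℚ :=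
  1 - ψ (multiplicities F d x P) - logDiscrepancy F d x P

/-- The multiplicities which satisfy the divisibility conditions. -/
def Admissible (m : Fin R → ℕ) (a : Fin R → Fin (n + 1) → ℕ) (v : Fin (n + 1) → ℕ) : Prop :=
  v ≠ 0 ∧ (∃ k, v k = 0) ∧ ∀ j, m j ∣ ∑ k, a j k * v k

/-- The vector `v` is in the cone which is generated by the vectors in `σ`. -/
def InCone (σ : Finset (Fin (n + 1) → ℕ)) (v : Fin (n + 1) → ℕ) : Prop :=
  ∃ w : (Fin (n + 1) → ℕ) → ℚ, (∀ s, 0 ≤ w s) ∧ ∀ k, (v k : ℚ) = ∑ s ∈ σ, w s * s k

/-- `(X, Δ)` is a log canonical toroidal pair: `fan` is a finite set of cones, each generated by a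
finite set of admissible vectors which are in a coordinate hyperplane and span it, which cover all
admissible vectors, and the function `ψ ≥ 0`, `ψ 0 = 0`, is linear on the admissible vectors of every
cone (`K_X + Δ` is `ℚ`-Cartier). -/
structure IsToroidalPair (m : Fin R → ℕ) (a : Fin R → Fin (n + 1) → ℕ)
    (fan : Finset (Finset (Fin (n + 1) → ℕ))) (ψ : (Fin (n + 1) → ℕ) → ℚ) : Prop where
  adm : ∀ σ ∈ fan, ∀ s ∈ σ, Admissible m a s
  full : ∀ σ ∈ fan, ∃ k₀, (∀ s ∈ σ, s k₀ = 0) ∧ ∀ f : Fin (n + 1) → ℚ, f k₀ = 0 →
    ∃ q : (Fin (n + 1) → ℕ) → ℚ, ∀ k, f k = ∑ s ∈ σ, q s * s k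
  cover : ∀ v, Admissible m a v → ∃ σ ∈ fan, InCone σ v
  zero : ψ 0 = 0
  nonneg : ∀ v, 0 ≤ ψ v
  linear : ∀ σ ∈ fan, ∃ u : Fin (n + 1) → ℚ, ∀ v, Admissible m a v → InCone σ v →
    ψ v = ∑ k, u k * v k

/-- `ρ (K_X + Δ)` is Cartier: the function `ρ ψ`, which is linear on the cones, has integral values at
the points of the lattice. -/
def CartierMultiple (m : Fin R → ℕ) (a : Fin R → Fin (n + 1) → ℕ) (ψ : (Fin (n + 1) → ℕ) → ℚ)
    (ρ : ℕ) : Prop :=
  ∀ v, Admissible m a v → ∃ z : ℤ, (ρ : ℚ) * ψ v = z

end places

section sections

/-- `ω` is a section of `m (K + Δ) + j A`: a rational section of the `m`-th power of the canonical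
bundle (`IsPluri`: a function of `N` rational vector fields which is multiplied by `det B ^ m` under
a linear substitution `B`) whose order on the vector fields which are regular at `P` is at least `j`
times the order of one of the functions in `S`, minus `m` times the coefficient `δ P` of `P` in the
pullback of `K + Δ`, for all prime divisors `P` (all divisorial places `P` of `K`). Here `A` is the
divisor which is generated by the finite set `S` of functions; `A = 0` if `S = {1}`. -/
def IsSection {K : Type} [Field K] [Algebra ℂ K] (N : ℕ) (δ : Place ℂ K → ℚ) (S : Finset K)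
    (m j : ℕ) (ω : (Fin N → Derivation ℂ K K) → K) : Prop :=
  IsPluri m ω ∧ ∀ P : Place ℂ K, Divisorial N P → ∀ D : Fin N → Derivation ℂ K K,
    (∀ c, DerReg P (D c)) → ω D = 0 ∨ ∃ s ∈ S, s ≠ 0 ∧
      (j : ℚ) * P.ord s - m * δ P ≤ P.ord (ω D)

variable (N : ℕ) {K : Type} [Field K] [Algebra ℂ K] (δ : Place ℂ K → ℚ)

/-- `K + Δ` is nef: there is a divisor `A` such that all `M (K + Δ) + A`, `M ≥ 1`, are semiample,
that is, some multiple of it has for every prime divisor `P` a section of the minimal order at `P`.
This holds if `K + Δ` and `A` are the divisors of a pair `(X, Δ)` such that `K + Δ` is nef, and of an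
ample divisor on `X`. -/
def Nef : Prop :=
  ∃ S : Finset K, (∃ s ∈ S, s ≠ 0) ∧ ∀ M : ℕ, 1 ≤ M → ∃ j : ℕ, 1 ≤ j ∧
    ∀ P : Place ℂ K, Divisorial N P → ∃ η, IsSection N δ S (j * M) j η ∧
      ∃ D, (∀ c, DerReg P (D c)) ∧ η D ≠ 0 ∧
        ∀ s ∈ S, s ≠ 0 → (P.ord (η D) : ℚ) ≤ j * P.ord s - (j * M) * δ P

/-- The linear system `|r (K + Δ)|` has no base points: it has for every prime divisor `P` a section
which does not vanish at `P`, that is, its order at `P` is the minimal one, `- r * δ P`. -/
def BasePointFree (r : ℕ) : Prop :=
  ∀ P : Place ℂ K, Divisorial N P → ∃ ω, IsSection N δ {1} r 0 ω ∧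
    ∃ D, (∀ c, DerReg P (D c)) ∧ ω D ≠ 0 ∧ (P.ord (ω D) : ℚ) ≤ - (r * δ P)

end sections

/-- **Effective abundance.** Let `K` be the function field of an abelian cover of the projective
`n`-space which is branched along `n + 1` hypersurfaces `F k = 0` of degrees `d k` with normal
crossings, and `(X, Δ)` a toroidal log canonical pair with the function field `K`, given by `fan` and
`ψ`. If `K_X + Δ` is nef and `ρ (K_X + Δ)` is Cartier, then `|t ρ (K_X + Δ)|` has no base points, for
every common multiple `t ≥ 1` of the degrees `d k`. -/
theorem result (n R : ℕ) (hn : 1 ≤ n) (d : Fin (n + 1) → ℕ) (hd : ∀ k, 1 ≤ d k)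
    (F : Fin (n + 1) → MvPolynomial (Fin (n + 1)) ℂ) (hF : ∀ k, (F k).IsHomogeneous (d k))
    (hs : NormalCrossings F) (m : Fin R → ℕ) (hm : ∀ j, 1 ≤ m j) (a : Fin R → Fin (n + 1) → ℕ)
    (hdiv : ∀ j, m j ∣ ∑ k, a j k * d k)
    (K : Type) [Field K] [Algebra ℂ K] (x : Fin (n + 1) → K) (hx0 : x 0 ≠ 0)
    (hbas : IsTranscendenceBasis ℂ (affine x)) (z : Fin R → K)
    (hz : ∀ j, z j ^ m j = ∏ k, (aeval x (F k) / x 0 ^ d k) ^ a j k)
    (hgen : IntermediateField.adjoin ℂ (Set.range (affine x) ∪ Set.range z) = ⊤)
    (fan : Finset (Finset (Fin (n + 1) → ℕ))) (ψ : (Fin (n + 1) → ℕ) → ℚ)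
    (hψ : IsToroidalPair m a fan ψ)
    (δ : Place ℂ K → ℚ) (hδ : δ = coefficient F d x ψ)
    (hnef : Nef n δ) (ρ : ℕ) (hρ : 1 ≤ ρ) (hcar : CartierMultiple m a ψ ρ)
    (t : ℕ) (ht : 1 ≤ t) (hdt : ∀ k, d k ∣ t) :
    BasePointFree n δ (t * ρ) := by
  obtain ⟨e, rfl⟩ : ∃ e, n = e + 1 := ⟨n - 1, by omega⟩
  exact Pool.Agent.Q57.TC.main_free_a (δ := δ) hx0 hbas hd hF hs hm hz hdiv hgen hψ.zero hψ.nonneg
    ⟨hψ.adm, hψ.full, hψ.cover, hψ.linear⟩ (fun P => by
      rw [hδ]
      unfold coefficient
      congr 2) hρ hcar ht hdt hnef

end Pool.Agent.Results.MP_5ff3c6_ag.EffectiveAbundance
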