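import Pool.Agent.Q93.NP.Generic

/-!
# The asymptotic for near-coincidences can fail for several bases at the same time

For the bases `A = (1 + 1 / q) ^ r a` and powers of `e`: if `Y x / (log x) ^ 2 → ∞`, then for generic `a`
and any `h + 1` exponents `r`, the counts with `n` at most the `h`-fold iterated exponential of `Y x` are
simultaneously larger than any multiple of `(log x) ^ 2`.
-/

set_option autoImplicit false

namespace Pool.Agent.Results.MP_606be1_nt.SimultaneousFailure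

open Real Filter

/-- the base `(1 + 1 / q) ^ r a` -/
noncomputable def base (q : ℕ) (a : ℝ) (r : ℚ) : ℝ := (1 + 1 / (q : ℝ)) ^ (r : ℝ) * a

/-- the pairs `(n, m)` with `n ≤ T` and `|A ^ n - e ^ m| ≤ x` -/
def pairs (A x T : ℝ) : Set (ℕ × ℕ) := {p | (p.1 : ℝ) ≤ T ∧ |A ^ p.1 - exp 1 ^ p.2| ≤ x}

/-- iterated exponentials: `y`, `exp y`, `exp (exp y)`, … -/
noncomputable def tower (y : ℝ) : ℕ → ℝ
  | 0 => y
  | h + 1 => exp (tower y h)

theorem tower_eq (y : ℝ) (h : ℕ) : tower y h = Pool.Agent.Q93.NP.tow 1 y h := by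
  induction h with
  | zero => rfl
  | succ h ih => rw [tower, Pool.Agent.Q93.NP.tow, ih, one_mul]

theorem result : ∀ q : ℕ, 1 ≤ q → ∀ Y : ℝ → ℝ,
    Tendsto (fun x : ℝ => Y x / log x ^ 2) atTop atTop →
    ∀ᶠ a in residual ℝ, 0 < a → ∀ (h : ℕ) (r : Fin (h + 1) → ℚ), (∀ j, 1 < base q a (r j)) →
      ∀ K : ℝ, ∃ᶠ x in atTop, ∀ j,
        K * log x ^ 2 ≤ ((pairs (base q a (r j)) x (tower (Y x) h)).ncard : ℝ) := by
  intro q _ Y hY
  filter_upwards [Pool.Agent.Q93.NP.generic q Y hY] with a h1 ha h r hr K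
  refine (h1 ha h r hr K).mono fun x hx j => ?_
  rw [tower_eq]
  exact hx j

end Pool.Agent.Results.MP_606be1_nt.SimultaneousFailure
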