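import Pool.Agent.Q282.FF.Mt4

/-!
# The moments of the leading coefficients of the `L`-functions in the formula of Birch and Swinnerton-Dyer over `k(T)`

Let `k` be a finite field with `q` elements, of odd characteristic, and `r + m = 2 g + 1`, `r ≤ g`. We consider the curves
`y ^ 2 = f_t(x)` over `F = k(T)`, where `f_t = ∏ (x - a_i) h(x) + l(x) ^ 2` with `h` monic of degree `m` and `l` of degree less
than `r`, and the parameters `t`, namely the `a_i` and the coefficients of `h` and of `l`, are arbitrary polynomials in `T` of
degree less than `n`. The Jacobian `J_t` has dimension `g`, and there are the `r` marked points `(a_i, l(a_i))`.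

The conductor has degree at most a constant times `n`, and `n` has the role of the logarithm of the conductor. It is proved that
the moment of order `s` of the leading coefficient of `L(J_t, z)` at `z = 1`, divided by `(n log q) ^ R` if the order of
vanishing is `R`, is at most `n ^ (s ^ 2 / 2 - s (r + 1 / 2) + ε)`, for every real `s > 0`. In the case `r = 0` the exponent is
the one of the conjecture of Keating and Snaith for orthogonal families, `s (s - 1) / 2`, and each marked point contributes `-s`.

Proof. For every `h` the logarithm of the leading coefficient is at most `N / h` plus a sum of local functions over the places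
of degree less than `h`, by the explicit formula; the local functions at the different places are independent. The mean of
the sum is `-(r + 1 / 2) log h`, its variance `log h`, up to constants. For the places of very small degree the
exponential moment is computed with a polynomial that approximates the exponential function, for the other places and for the
exceptional parameters high moments are used. Exceptional parameters contribute little by the inequality of Cauchy and
Schwarz and a crude bound for the moments, for which the parameter `h` is adapted to the size of the value.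
-/

set_option autoImplicit false

namespace Pool.Agent.Results.MP_60d5ce_nt.AllMoments

open Finset
open Q282.FF (IsSpectrum order leading Par curve)

/-- The number `y` is the absolute value of the leading coefficient of `L(J_t, z)` at `z = 1` divided by `(n log q) ^ R`, where
`R` is the order of vanishing: `L(J_t, z) = ∏ (1 - β i q ^ (1 - z))`, with at most `κ n` numbers `β i` of absolute value one, and
`y` is the product of the absolute values of the `1 - β i` different from zero, divided by `n ^ R`, where `R` is the number of
the `β i` equal to one. -/
def IsValue (g κ : ℕ) {k : Type} [Field k] {r m n : ℕ} (t : Par k r m n) (y : ℝ) : Prop :=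
  ∃ (N : ℕ) (β : Fin N → ℂ), N ≤ κ * n ∧ IsSpectrum g (curve t) β ∧ y = leading β / (n : ℝ) ^ order β

lemma leading_pos {N : ℕ} (β : Fin N → ℂ) : 0 < leading β := by
  classical
  unfold leading
  refine prod_pos fun i hi => ?_
  rw [mem_filter] at hi
  rw [norm_pos_iff]
  exact sub_ne_zero.2 (Ne.symm hi.2)

/-- **Main theorem.** For all real `s > 0` and `ε > 0` there is `n₀` such that for all `n ≥ n₀` and all finite fields `k` of odd
characteristic the sum of the `y t ^ s`, over any set `G` of parameters for which the numbers `y t` are the values defined
above, is at most `n ^ (s ^ 2 / 2 - s (r + 1 / 2) + ε)` times the number of all parameters. -/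
theorem result (g r m κ : ℕ) (hrm : r + m = 2 * g + 1) (hrg : r ≤ g) (hg : 1 ≤ g) (s ε : ℝ) (hs : 0 < s) (hε : 0 < ε) :
    ∃ n₀ : ℕ, ∀ (k : Type) [Field k] [Finite k], (2 : k) ≠ 0 → ∀ n ≥ n₀,
      ∀ (G : Finset (Par k r m n)) (y : Par k r m n → ℝ), (∀ t ∈ G, IsValue g κ t (y t)) →
        ∑ t ∈ G, y t ^ s ≤ (n : ℝ) ^ (s ^ 2 / 2 - s * (r + 1 / 2) + ε) * Nat.card (Par k r m n) := by
  classical
  obtain ⟨n₀, hn₀⟩ := Q282.FF.all_moments g r m κ hrm hrg hg s ε hs hε
  refine ⟨max n₀ 1, fun k _ _ h2 n hn G y hy => ?_⟩
  let _ : Fintype k := Fintype.ofFinite k
  have hn1 : 1 ≤ n := (le_max_right _ _).trans hn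
  have hn0 : (0 : ℝ) < n := by exact_mod_cast hn1
  have hval : ∀ t ∈ G, 0 < y t ∧ Q282.FF.Val g κ t (Real.log (y t)) := by
    intro t ht
    obtain ⟨N, β, hN, hβ, hyt⟩ := hy t ht
    have hl := leading_pos β
    refine ⟨?_, N, β, hN, hβ, ?_⟩
    · rw [hyt]
      positivity
    · rw [hyt, Real.log_div hl.ne' (by positivity), Real.log_pow]
  have h1 := hn₀ k h2 n ((le_max_left _ _).trans hn) G (fun t => Real.log (y t)) (fun t ht => (hval t ht).2)
  rw [Nat.card_eq_fintype_card]
  refine le_trans (le_of_eq (sum_congr rfl fun t ht => ?_)) (h1.trans (le_of_eq ?_))
  · rw [Real.rpow_def_of_pos (hval t ht).1, mul_comm]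
  · rw [Real.rpow_def_of_pos hn0, mul_comm (Real.log n)]

end Pool.Agent.Results.MP_60d5ce_nt.AllMoments
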