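import Mathlib
import Pool.Agent.Q290.FF.Main

/-!
# The field of the defect of the conjecture of Birch and Swinnerton-Dyer

`J` is the Jacobian over a global function field `F` (as in the problem) and `F₁ / F` a finite
Galois extension with group `G`. `π` is the representation of `G` on `P = J(F₁) ⊗ ℚ`, and
`Pool.Agent.Q290.FF.Coh π` is the cohomology of `J` over `F₁` with its known properties: the vector
space `V` with the commuting actions of `G` and of Frobenius, the rationality of the traces of
`g ∘ F ^ n` (Grothendieck), the symmetric form, and the Kummer map, which transforms the form into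
the rational valued height pairing. `C.wRep` is the representation of `G` on the generalised
eigenspace of Frobenius for the eigenvalue `1`.

`Pool.Agent.Q7.SZ.rk ρ H` is the dimension of the `H`-invariants of `ρ`. So `C.ord H = rk C.wRep H`
is the order at `s = 1` of the L-function of `J` over `F₁ ^ H`, `rk π H` is the rank of
`J (F₁ ^ H)`, and `C.defect H` is their difference. The assertion of the problem holds for `J` over
`F₁ ^ H` if and only if `C.defect H = 0` (Kato-Trihan).

`Pool.Agent.H541R3.ART.Irr G` is the set of the irreducible complex characters of `G`.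
-/

set_option autoImplicit false
set_option linter.unusedSectionVars false

open Pool.Agent.H302R2 Pool.Agent.H302R3 Pool.Agent.H541R3.ART Pool.Agent.W446.AS
  Pool.Agent.Q7.TZ Pool.Agent.Q7.SZ Pool.Agent.Q7.GR Pool.Agent.Q290.Schur Pool.Agent.Q290.FF

/-- Let `d` be the order minus the rank over `F₁`. There is a normal subgroup `N` of `G`, that is a
Galois extension `F₂ / F` in `F₁`, such that

* the defect over `F₁ ^ H` is `d` if and only if `F₁ ^ H` contains `F₂`;
* the defect over `F₁ ^ H` is the defect over the intersection of `F₁ ^ H` and `F₂`; in particular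
  the conjecture holds over the one if and only if it holds over the other;
* the degree of `F₂ / F` divides the number of Schur for `d`, which is `1, 2, 24, 48, 5760, 11520`
  for `d = 0, ..., 5`; it is at most `12` if `d = 2`, and `1` if all prime divisors of the degree of
  `F₁ / F` are greater than `d + 1`;
* if `F₁ / F₁ ^ H` has degree a power of the prime number `p`, then the defects over `F₁` and
  `F₁ ^ H` are congruent modulo `p - 1`;
* for the irreducible characters `χ` which are not trivial on `N`, the order of `L(J, χ, s)` at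
  `s = 1`, that is the multiplicity in `C.wRep`, is the multiplicity of `χ` in `J(F₁) ⊗ ℂ`;
* if `d ≤ 3`, then there is a RATIONAL representation `τ` of `G` with kernel `N` such that the
  representation on the generalised eigenspace of Frobenius is isomorphic to `(π ⊕ τ) ⊗ ℂ`. So `G`
  modulo `N` is isomorphic to a finite group of integral matrices of size `d`, and the order of
  `L(J, χ, s)` at `s = 1` is the multiplicity of `χ` in the rational representation `π ⊕ τ`, for
  all irreducible `χ`. -/
theorem Pool.Agent.Results.MP_60d5ce_nt.DefectField.result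
    (G : Type) [Group G] [Finite G] (P : Type) [AddCommGroup P] [Module ℚ P]
    [FiniteDimensional ℚ P] (π : Representation ℚ G P) (C : Coh π) :
    (∀ H : Subgroup G, 0 ≤ C.defect H) ∧
    ∀ d : ℕ, C.defect ⊥ = d → ∃ N : Subgroup G, N.Normal ∧
      (∀ H : Subgroup G, C.defect H = d ↔ H ≤ N) ∧
      (∀ H : Subgroup G, C.defect H = C.defect (H ⊔ N)) ∧
      (∀ p : ℕ, p.Prime → N.index.factorization p ≤
        (d + d / (p - 1)).factorial.factorization p) ∧
      (d ≤ 5 → N.index ∣ [1, 2, 24, 48, 5760, 11520].getD d 0) ∧
      (d = 2 → N.index ≤ 12) ∧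
      ((∀ p : ℕ, p.Prime → p ∣ Nat.card G → d + 1 < p) → N = ⊤) ∧
      (∀ p : ℕ, p.Prime → ∀ H : Subgroup G, IsPGroup p H →
        ((p : ℤ) - 1) ∣ C.defect ⊥ - C.defect H) ∧
      (∀ χ ∈ Irr G, (∃ x ∈ N, χ x ≠ χ 1) →
        ∑ᶠ g : G, C.wRep.character g * χ g⁻¹ =
          ∑ᶠ g : G, ((LinearMap.trace ℚ P (π g) : ℚ) : ℂ) * χ g⁻¹) ∧
      (d ≤ 3 → ∃ (R : Type) (_ : AddCommGroup R) (_ : Module ℚ R) (_ : FiniteDimensional ℚ R)
        (τ : Representation ℚ G R), Module.finrank ℚ R = d ∧ (∀ x, τ x = 1 ↔ x ∈ N) ∧
        ∀ g, C.wRep.character g = ((LinearMap.trace ℚ P (π g) : ℚ) : ℂ) +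
          ((LinearMap.trace ℚ R (τ g) : ℚ) : ℂ)) := by
  classical
  have : Fintype G := Fintype.ofFinite G
  refine ⟨fun H => by rw [C.defect_eq]; positivity, fun d hd => ?_⟩
  obtain ⟨n, h0, hn, hinv, hev⟩ := C.d_mult
  set N := KerS (theta n : G → ℂ) with hN
  have hker : ∀ x, x ∈ N ↔ C.dRep x = 1 := C.mem_ker h0 hn
  have hd' : rk C.dRep ⊥ = d := by
    rw [C.defect_eq] at hd
    exact_mod_cast hd
  have hS : IsSolHeilbronn (theta n : G → ℂ) := by
    rw [hn]
    exact (Pool.Agent.Y788.rep_heilbronn C.dRep).toSol
  have h1 : (theta n : G → ℂ) 1 = d := by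
    rw [hn, Representation.char_one, ← hd', rk_bot]
  have hpow : ∀ (g : G) (k : ℕ), k.Coprime (orderOf g) →
      (theta n : G → ℂ) (g ^ k) = theta n g := by
    intro g k hk
    rw [hn]
    exact C.d_pow' g k hk
  have hpart : ∀ p : ℕ, p.Prime → N.index.factorization p ≤
      (d + d / (p - 1)).factorial.factorization p := fun p hp => schur_part h0 hS h1 hpow hp
  have hi0 : N.index ≠ 0 := Subgroup.index_ne_zero_of_finite
  refine ⟨N, inferInstance, fun H => ⟨fun h => ?_, fun h => ?_⟩, fun H => ?_, hpart,
    fun h5 => schur_small h5 hpart, fun h2 => ?_, fun h => ?_,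
    fun p hp H hH => C.p_dvd hp H hH, fun χ hχ hne => ?_, fun h3 => ?_⟩
  · rw [C.defect_eq, ← hd'] at h
    have h2 : rk C.dRep H = rk C.dRep ⊥ := by exact_mod_cast h
    exact fun x hx => (hker x).2 (triv_of_rk C.dRep h2 x hx)
  · rw [C.defect_eq, ← hd']
    have h2 := rk_sup C.dRep (N := H) (fun x hx => (hker x).1 (h hx)) ⊥
    rw [bot_sup_eq] at h2
    exact_mod_cast h2
  · rw [C.defect_eq, C.defect_eq, rk_sup C.dRep (fun x hx => (hker x).1 hx) H]
  · subst h2
    exact index_two' hS (by rw [h1]; norm_num) (fun g => by rw [hn]; exact inv_of_pow C.d_pow g)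
      hev hpow
  · rw [← Subgroup.index_eq_one]
    by_contra hne
    obtain ⟨p, hp, hpd⟩ := Nat.exists_prime_and_dvd hne
    have h2 := h p hp (hpd.trans (Subgroup.index_dvd_card N))
    have h3 := hpart p hp
    have h4 : d / (p - 1) = 0 := Nat.div_eq_of_lt (by omega)
    rw [h4, add_zero, Nat.factorization_factorial_eq_zero_of_lt (by omega)] at h3
    have h5 := hp.factorization_pos_of_dvd hi0 hpd
    omega
  · obtain ⟨x, hx, hne⟩ := hne
    have h2 : n χ = 0 := by
      by_contra hcon
      apply hne
      refine mem_kerS.mp hx χ hχ ?_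
      rw [pr_theta n hχ]
      exact_mod_cast hcon
    have h3 := theta_pair n hχ
    rw [h2, hn] at h3
    rw [finsum_eq_sum_of_fintype, finsum_eq_sum_of_fintype, C.char_add]
    simp_rw [add_mul]
    rw [Finset.sum_add_distrib, h3]
    simp [qtr]
  · obtain ⟨R, iR, jR, kR, τ, hτ⟩ := rat_of_small h0 h3 h1 hpow hinv hev
    refine ⟨R, iR, jR, kR, τ, ?_, fun x => ?_, fun g => ?_⟩
    · have h2 := hτ 1
      unfold qtr at h2
      rw [h1, map_one, LinearMap.trace_one] at h2
      exact_mod_cast h2
    · obtain ⟨σ, hσ, hσ'⟩ := qtr_rep τ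
      constructor
      · intro hx
        apply mem_ker_of_eq h0
        rw [← hτ x, ← hτ 1]
        unfold qtr
        rw [hx, map_one τ]
      · intro hx
        apply hσ'
        apply Pool.Agent.Y788.V.rep_triv σ
        have h2 := theta_kerS (theta_virt n) 1 hx
        rw [one_mul] at h2
        rw [hσ, hτ x, hτ 1, h2]
    · rw [C.char_add]
      change qtr π g + C.dRep.character g = qtr π g + qtr τ g
      rw [hτ g, hn]
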