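import Pool.Agent.Q282.FF.Fin
import Pool.Agent.Q282.FF.Rank

/-!
# The leading coefficient of the `L`-function in the formula of Birch and Swinnerton-Dyer over `k(T)`

Let `k` be a finite field with `q` elements, of odd characteristic, and `r + m = 2 g + 1`, `r ≤ g`. We consider the curves
`y ^ 2 = f_t(x)` over `F = k(T)`, where `f_t = ∏ (x - a_i) h(x) + l(x) ^ 2` with `h` monic of degree `m` and `l` of degree less
than `r`, and the parameters `t`, namely the `a_i` and the coefficients of `h` and of `l`, are arbitrary polynomials in `T` of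
degree less than `n`. The Jacobian `J_t` has dimension `g`, and there are the `r` marked points `(a_i, l(a_i))`.
-/

set_option autoImplicit false

namespace Pool.Agent.Results.MP_60d5ce_nt.LeadingCoefficient

open Polynomial Finset MeasureTheory ProbabilityTheory
open Q282.FF (IsSpectrum order leading Par curve)
open Q282.JK (HasClassRank CoordRing)

/-- The distribution function of the standard normal law. -/
noncomputable def normal (x : ℝ) : ℝ := (gaussianReal 0 1 (Set.Iic x)).toReal

/-- The Jacobian `J_t` has rank at least `r`, and the leading coefficient of its `L`-function at `s = 1` is small: if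
`L(J_t, s) = ∏ (1 - β i q ^ (1 - s))`, with at most `κ n` numbers `β i` of absolute value one, has order of vanishing `R` at
`s = 1`, then the leading coefficient divided by `(log q) ^ R`, which is `leading β`, satisfies
`log (leading β) ≤ (R - r - 1 / 2) log n + x (log n) ^ (1 / 2)`. -/
def Small (g κ : ℕ) (x : ℝ) {k : Type} [Field k] {r m n : ℕ} (t : Par k r m n) : Prop :=
  HasClassRank (CoordRing ((curve t).map (algebraMap k[X] (RatFunc k)))) r ∧
    ∀ (N : ℕ) (β : Fin N → ℂ), N ≤ κ * n → IsSpectrum g (curve t) β →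
      Real.log (leading β) ≤ ((order β : ℝ) - r - 1 / 2) * Real.log n + x * Real.sqrt (Real.log n)

/-- **Main theorem.** For all `x` and `ε > 0` there is `n₀` such that for all `n ≥ n₀` and all finite fields `k` of odd
characteristic the proportion of the parameters `t` with the property `Small` is at least `normal x - ε`. -/
theorem result (g r m κ : ℕ) (hrm : r + m = 2 * g + 1) (hrg : r ≤ g) (hg : 1 ≤ g) (x ε : ℝ) (hε : 0 < ε) :
    ∃ n₀ : ℕ, ∀ (k : Type) [Field k] [Finite k], (2 : k) ≠ 0 → ∀ n ≥ n₀,
      (normal x - ε) * Nat.card (Par k r m n) ≤ Nat.card {t : Par k r m n // Small g κ x t} := by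
  classical
  obtain ⟨n₁, hn₁⟩ := Q282.FF.clt g r m hrm hrg hg κ (Nat.cast_nonneg _) x (ε / 2) (by positivity)
  obtain ⟨n₂, hn₂⟩ := Q282.FF.rank_FF g r m hrm hrg hg (ε / 2) (by positivity)
  obtain ⟨n₃, hn₃⟩ := Filter.eventually_atTop.1 (Q282.FF.facts 1 1 one_pos)
  refine ⟨max n₁ (max n₂ n₃), fun k _ _ h2 n hn => ?_⟩
  let _ : Fintype k := Fintype.ofFinite k
  have h1 := hn₁ k h2 n ((le_max_left _ _).trans hn)
  have h3 := hn₂ k h2 n (((le_max_left _ _).trans (le_max_right _ _)).trans hn)
  obtain ⟨-, -, q3, -, -, -, q7, -, -, q10⟩ := hn₃ n (((le_max_right _ _).trans (le_max_right _ _)).trans hn)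
  have hM : (0 : ℝ) < Fintype.card (Par k r m n) := by
    have : Nonempty (Par k r m n) := ⟨fun _ => 0⟩
    exact_mod_cast Fintype.card_pos
  -- the members with a small value have the property
  have hgood : ∀ t : Par k r m n, Q282.FF.Zn g κ t ≤ x → Q282.FF.Ok t → Small g κ x t := by
    intro t hZ hOk
    refine ⟨hOk.2, fun N β hN hβ => ?_⟩
    have h4 := Q282.FF.upper h2 g hrm hrg t β hβ q3
    unfold Q282.FF.Zn at hZ
    have hD : 0 < Real.sqrt (Real.log n) := Real.sqrt_pos.2 (by linarith)
    rw [div_le_iff₀ hD] at hZ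
    have hh0 : (0 : ℝ) < Q282.FF.hgt n := by exact_mod_cast q3
    have h5 : (N : ℝ) / Q282.FF.hgt n ≤ κ * (n / Q282.FF.hgt n) := by
      rw [← mul_div_assoc]
      refine div_le_div_of_nonneg_right ?_ hh0.le
      exact_mod_cast hN
    have h6 : (order β : ℝ) * (1 + Real.log (Q282.FF.hgt n)) ≤ order β * Real.log n := mul_le_mul_of_nonneg_left q10 (Nat.cast_nonneg _)
    linarith
  -- counting
  have hcard : ((univ.filter fun t : Par k r m n => Q282.FF.Zn g κ t ≤ x).card : ℝ) ≤
      (univ.filter fun t : Par k r m n => Small g κ x t).card + (univ.filter fun t : Par k r m n => ¬ Q282.FF.Ok t).card := by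
    have h4 : (univ.filter fun t : Par k r m n => Q282.FF.Zn g κ t ≤ x) ⊆
        (univ.filter fun t : Par k r m n => Small g κ x t) ∪ (univ.filter fun t : Par k r m n => ¬ Q282.FF.Ok t) := by
      intro t ht
      rw [mem_union, mem_filter, mem_filter]
      by_cases hOk : Q282.FF.Ok t
      · exact Or.inl ⟨mem_univ _, hgood t (mem_filter.1 ht).2 hOk⟩
      · exact Or.inr ⟨mem_univ _, hOk⟩
    exact_mod_cast (card_le_card h4).trans (card_union_le _ _)
  have h4 : (normal x - ε / 2) * Fintype.card (Par k r m n) ≤ (univ.filter fun t : Par k r m n => Q282.FF.Zn g κ t ≤ x).card := by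
    have h5 := (abs_le.1 h1).1
    have h6 : normal x - ε / 2 ≤ ((univ.filter fun t : Par k r m n => Q282.FF.Zn g κ t ≤ x).card : ℝ) / Fintype.card (Par k r m n) := by
      have : normal x = Q282.FF.Phi x := rfl
      rw [this]
      linarith
    rwa [le_div_iff₀ hM] at h6
  rw [Nat.card_eq_fintype_card, Nat.card_eq_fintype_card, Fintype.card_subtype]
  have h5 : (normal x - ε) * (Fintype.card (Par k r m n) : ℝ) =
      (normal x - ε / 2) * Fintype.card (Par k r m n) - ε / 2 * Fintype.card (Par k r m n) := by ring
  rw [h5]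
  linarith

end Pool.Agent.Results.MP_60d5ce_nt.LeadingCoefficient
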