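import Mathlib
import Pool.Agent.Q219.UZ.TMain

/-!
# The crystalline Tate conjecture for products of abelian varieties and arbitrary varieties

Fix a prime `p`, a nonempty finite set `κ`, dimensions `g i ≥ 1` and, for each `i`, a symmetric
Newton polygon with slopes `s i j` and `1 - s i j` (`j < g i`, increasing in `j`, between `0` and
`1 / 2`, with integral break points: `IsPolygon (s i)`) whose smallest slope is at most `σ < 1 / 2`;
so it is any Newton polygon that is not the supersingular one. `NewtonStratum g s p a` is the set
of families of isogeny classes of abelian varieties `A_i` of dimension `g i` over the field with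
`p ^ a` elements having these Newton polygons (by the theorem of Honda and Tate it consists of
families of characteristic polynomials of Frobenius). Let `devSum (s i)`, `sqSum (s i)` be the sums of
the numbers `1 - 2 s i j` and of their squares, and let `0 < δ ≤ 1`, `δ₂ > 0` be numbers such that
`δ g i ≤ devSum (s i)` and `δ₂ g i ≤ sqSum (s i)` for all `i`. So `δ = δ₂ = 1` if the `A_i` are
ordinary.

We prove that the number of elements of `NewtonStratum g s p a` tends to infinity with `a`, and that
for all members, except for at most

  `C * a * p ^ (- a (1 - 2 σ) / 6) * |NewtonStratum g s p a|`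

(`C` depends on `p`, `g`, `s`, `σ` only), the following is true.

Let `k` be the field with `Q = p ^ (a s')` elements, for any `s' > 0`, let `W` be its ring of Witt
vectors and `K₀ = W[1/p]`, and let `H` be the crystalline cohomology of smooth projective varieties
over `k` with coefficients in `K₀` (or the `l`-adic cohomology, or any other theory `V` which is a
form, over a subfield `K₀`, of a Weil cohomology over an algebraically closed field `K`; `IsForm`). The
Tate conjecture in codimension `c` for a variety `Y` over `k` says that each `x` in `H ^ (2 c) (Y)` with
`Fr x = Q ^ c x`, where `Fr` is the `K₀`-linear Frobenius, is a linear combination with coefficients in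
`K₀` of classes of cycles of codimension `c` on `Y` (`TateOver`). Let `𝒜` be the class of the
abelian varieties `A` over `k` which are isogenous to a product of powers of the `A_i`, of any
dimension, and let `X` be an element of `𝒜` in which all `A_i` occur, for instance the product of the
`A_i`. Let `Z` be **any** smooth projective variety over `k`.

* (`TateTimes`) Let `e` be a real number such that `Z` has level at most `e`, that is the slopes of
  `H ^ w (Z)` lie between `(w - e) / 2` and `(w + e) / 2`; `e = dim Z` is always possible. Let
  `n = N + 1 ≥ 1` be a number with `(n + 1) δ > e`; so one can take `n = dim Z` if the `A_i` are ordinary.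
  Then **the Tate conjecture holds for `A × Z` for all `A` in `𝒜`, of arbitrary dimension, if and only
  if it holds for the single variety `X ^ n × Z`**, in fact for the cycles on `X ^ n × Z` of
  codimension at most `dim Z + (n - ⌊e⌋) / 2`. More precisely the conjecture in codimension `c` for
  `A × Z` follows from the conjecture in codimension `c'` on `X ^ n × Z` for all such `c' ≤ c`. Nothing is
  assumed on the Frobenius eigenvalues of `Z`.
* (`TateTimesSmall`) Let `δ > 1 / 3`. **The Tate conjecture is true in all codimensions for `A × Z` for
  all curves `Z`** and all `A` in `𝒜`; also for all surfaces `Z` which satisfy the Tate conjecture for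
  divisors and such that each Frobenius eigenvalue `ρ` on `H ^ 2 (Z)` has its slopes in
  `(1 - δ, 1 + δ)`, or the mean of `(λ - 1) ^ 2`, `λ` the slopes of the conjugates of `ρ`, is smaller
  than `δ₂ / 2`. Nothing is assumed on `H ^ 1 (Z)`. Here only theorems of Tate on divisors and
  homomorphisms of abelian varieties (in the crystalline setting: de Jong) are used.
* (`TateTimesNarrow`) The same for varieties `Z` of any dimension `d` with similar conditions on the
  slopes of `H ^ w (Z)`, `0 < w < 2 d`: the Tate conjecture for `Z` in codimensions `≤ c` implies the one
  for `A × Z` in codimension `c`.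

In the formal statement `IsTateTriple`, `IsNarrowTateTriple` list what is used: that Frobenius has
degree `Q ^ dim` and acts on the cohomology of `Z` with eigenvalues which are Weil numbers
(Deligne, Katz, Messing); that the cohomology of `A`, `X ^ n`, `A × X ^ n` is generated by `H ^ 1`,
where Frobenius has the given eigenvalues, and the theorem of Tate on divisors on them.

The proof. A component of a Tate class on `A × Z` in the tensor product of an eigenspace of `H(A)` and
of `H ^ w (Z)` gives a relation between roots `z j` of the Frobenius polynomials and an eigenvalue `ρ`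
of `Z`. One removes the pairs of roots with product `Q`. The Galois group contains the
automorphisms which replace one of the remaining `m` roots by its complex conjugate (this is what the
sieve provides), so that some conjugate of the relation has the largest possible `p`-adic valuation:
this gives `m δ ≤ e`, and `m δ₂` is at most the mean of `(2 λ - w) ^ 2`. So the reduced product is an
eigenvalue on `H ^ m (X ^ n)`, and one gets a Tate class on `X ^ n × Z`, which is algebraic by
hypothesis, or for `m ≤ 1` by the theorem of Tate and hard Lefschetz. The eigenvectors of `H(A)` and of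
`H ^ m (X ^ n)` differ by a Tate class on `A × X ^ n`, which is a polynomial in divisors, and as a
correspondence it maps the class on `X ^ n × Z` to the given component.
-/

set_option autoImplicit false

namespace Pool.Agent.Results.MP_60ec62_ag.UniversalFactor

open Polynomial Pool.Agent.Q219.NS Pool.Agent.Q219.NW Pool.Agent.Q219.UZ

/-- The theorem for the family of isogeny classes over the field with `q` elements with the
Frobenius polynomials `F i`, of dimension `g i` and slopes `s i j`. -/
def Holds {κ : Type} (g : κ → ℕ) (s : ∀ i, Fin (g i) → ℚ) (q : ℕ) (F : κ → ℤ[X]) : Prop :=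
  ∀ δ δ₂ : ℝ, 0 < δ → δ ≤ 1 → 0 < δ₂ → (∀ i, δ * g i ≤ devSum (s i)) →
    (∀ i, δ₂ * g i ≤ sqSum (s i)) →
    TateTheorem δ δ₂ q F

/-- **The crystalline Tate conjecture for `A × Z`, for all `Z`, for the abelian varieties `A` outside
of a thin subset of a Newton stratum.** -/
theorem result {κ : Type} [Fintype κ] [Nonempty κ] (p : ℕ) [Fact p.Prime]
    -- dimensions and Newton polygons
    (g : κ → ℕ) (hg : ∀ i, 1 ≤ g i) (s : ∀ i, Fin (g i) → ℚ) (hs : ∀ i, IsPolygon (s i))
    -- the smallest slopes
    (σ : ℚ) (hσ : ∀ i (h : 0 < g i), s i ⟨0, h⟩ ≤ σ) (hσ2 : σ < 1 / 2) :
    (∀ N : ℕ, ∃ a₀ : ℕ, ∀ a, a₀ ≤ a →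
      (NewtonStratum g s p a).Finite ∧ N ≤ (NewtonStratum g s p a).ncard) ∧
    ∃ C : ℝ, 0 < C ∧ ∀ a : ℕ, 0 < a →
      ({F ∈ NewtonStratum g s p a | ¬ Holds g s (p ^ a) F}.ncard : ℝ) ≤
        C * (a * (p : ℝ) ^ (-((a : ℝ) * (1 - 2 * σ) / 6))) *
          ((NewtonStratum g s p a).ncard : ℝ) := by
  obtain ⟨h1, C, hC, h2⟩ := count_moment p g hg s hs σ hσ hσ2
  refine ⟨h1, C, hC, fun a ha => h2 a ha _ fun f hf hf2 δ δ₂ hδ0 hδ1 hδ₂0 hδ hδ₂ => ?_⟩
  have hp : p.Prime := Fact.out
  have hq : 1 < p ^ a := Nat.one_lt_pow ha.ne' hp.one_lt
  exact tateTheorem (hf δ hδ) (hf2 δ₂ hδ₂) hδ0 hδ1 hδ₂0 hq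

end Pool.Agent.Results.MP_60ec62_ag.UniversalFactor
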