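import Mathlib

/-!
# An alternating-divisor-sum perfect number with ratio 4
-/

set_option autoImplicit false

namespace Pool.Agent.Results.MP_62401a_nt.FourPerfect

open Finset

/-- The alternating sum `p^r - p^(r-1) + p^(r-2) - ⋯ + (-1)^r`. -/
def alt (p r : ℕ) : ℤ := ∑ j ∈ range (r + 1), (-1) ^ j * (p : ℤ) ^ (r - j)

/-- The multiplicative function `σ̃(n) = ∏ alt p r`, the product over the prime powers `p^r ∥ n`. -/
noncomputable def sigma (n : ℕ) : ℤ := n.factorization.prod alt

lemma sigma_pow {p r : ℕ} (hp : p.Prime) (hr : 0 < r) : sigma (p ^ r) = alt p r := by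
  unfold sigma
  rw [hp.factorization_pow, Finsupp.prod_single_index]
  simp [alt]

lemma sigma_mul {a b : ℕ} (h : Nat.Coprime a b) : sigma (a * b) = sigma a * sigma b := by
  unfold sigma
  rw [Nat.factorization_mul_of_coprime h, Finsupp.prod_add_index_of_disjoint]
  exact h.disjoint_primeFactors

lemma sigma_step {p r b : ℕ} (hp : p.Prime) (hr : 0 < r) (h : Nat.Coprime (p ^ r) b) :
    sigma (p ^ r * b) = alt p r * sigma b := by
  rw [sigma_mul h, sigma_pow hp hr]

theorem result : ∃ k : ℕ, 4 ≤ k ∧ ∃ n : ℕ, 0 < n ∧ (k : ℤ) * sigma n = n := by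
  refine ⟨4, le_rfl, 2 ^ 13 * (3 ^ 8 * (5 ^ 1 * (7 ^ 2 * (11 ^ 1 * (13 ^ 1 * (19 ^ 1 * (23 ^ 1 * (37 ^ 1 *
    (43 ^ 2 * (127 ^ 1 * 139 ^ 1)))))))))), by norm_num, ?_⟩
  rw [sigma_step (by norm_num) (by norm_num) (by norm_num), sigma_step (by norm_num) (by norm_num) (by norm_num),
    sigma_step (by norm_num) (by norm_num) (by norm_num), sigma_step (by norm_num) (by norm_num) (by norm_num),
    sigma_step (by norm_num) (by norm_num) (by norm_num), sigma_step (by norm_num) (by norm_num) (by norm_num),
    sigma_step (by norm_num) (by norm_num) (by norm_num), sigma_step (by norm_num) (by norm_num) (by norm_num),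
    sigma_step (by norm_num) (by norm_num) (by norm_num), sigma_step (by norm_num) (by norm_num) (by norm_num),
    sigma_step (by norm_num) (by norm_num) (by norm_num), sigma_pow (by norm_num) (by norm_num)]
  simp only [alt, Finset.sum_range_succ, Finset.sum_range_zero]
  norm_num

end Pool.Agent.Results.MP_62401a_nt.FourPerfect
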