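import Mathlib
import Pool.Agent.Q256.CI.Fin

set_option autoImplicit false

/-!
# Almost all complete intersections of general type have no rational point on a small line

Degrees `d₁ + ⋯ + d_r ≥ n + 2` in `ℙⁿ` are those for which a smooth complete intersection has
ample canonical bundle.  We count the systems `F = (F₁, …, F_r)` of forms of these degrees with
integral coefficients of absolute value at most `H` which have a rational zero of a certain kind.
The total number is `(2H+1)^M`, `M = ∑ N_i`, where `N_i` is the number of monomials.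

* `Box n d B` : forms of degree `d` in `n + 1` variables, integral coefficients in `[-B, B]`;
* `OnLine T x` : the point `x` of `ℙ^(n+1)` lies on a line which is cut out by `n` independent
  linear forms with integral coefficients in `[-T, T]`;
* `LineBad r d H T` : systems of `r` forms of degree `d` with coefficients in `[-H, H]` with a
  rational zero on one of these lines (zeros of arbitrary height);
* `CutOut T x` : `x` in `ℙⁿ` is the intersection point of `n` independent hyperplanes with
  integral coefficients in `[-T, T]`;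
* `Bad d H T` : systems of degrees `d i` with a rational zero which is cut out in this way.
-/

namespace Pool.Agent.Results.MP_627a61_nt.SmallLines

open Pool.Agent.Q256.CI

theorem result :
    -- equal degrees: zeros on small lines
    (∀ n r d : ℕ, 1 ≤ d → n + 3 ≤ r * d →
      (∃ C : ℝ, ∀ H T : ℕ, 1 ≤ H → H ≤ T →
        (Nat.card (LineBad (n := n) r d H T) : ℝ) ≤
          C * (T : ℝ) ^ (r * ((n + 1 + d).choose (n + 1) - 1))) ∧
      ∀ H T : ℕ, 1 ≤ T → (2 * H + 1) ^ (r * ((n + 1 + d).choose (n + 1) - 1)) ≤
        Nat.card (LineBad (n := n) r d H T)) ∧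
    -- arbitrary degrees: zeros cut out by small hyperplanes
    (∀ (n r : ℕ) (d : Fin r → ℕ), (∀ i, 1 ≤ d i) → n + 2 ≤ ∑ i, d i →
      (∃ C : ℝ, ∀ H T : ℕ, 1 ≤ H → H ≤ T →
        (Nat.card (Bad (n := n) d H T) : ℝ) ≤ C * (T : ℝ) ^ (∑ i, ((n + d i).choose n - 1))) ∧
      ∀ H T : ℕ, 1 ≤ T → (2 * H + 1) ^ (∑ i, ((n + d i).choose n - 1)) ≤
        Nat.card (Bad (n := n) d H T)) ∧
    -- the number of all systems
    (∀ (n r : ℕ) (d : Fin r → ℕ) (H : ℕ),
      Nat.card {F : Fin r → MvPolynomial (Fin (n + 1)) ℤ // ∀ i, F i ∈ Box n (d i) H} =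
        (2 * H + 1) ^ (∑ i, (n + d i).choose n)) ∧
    -- the points of height at most `T² / 3` lie on small lines
    (∀ (n T : ℕ) (x : Fin (n + 2) → ℤ), 1 ≤ T → (∀ k, 3 * |x k| ≤ (T : ℤ) ^ 2) →
      OnLine T (fun k => (x k : ℚ))) ∧
    -- the points of height at most `T` are cut out by small hyperplanes
    (∀ (n T : ℕ) (x : Fin (n + 1) → ℤ), x ≠ 0 → (∀ k, |x k| ≤ T) →
      CutOut T (fun k => (x k : ℚ))) := by
  refine ⟨fun n r d hd hrd => ⟨?_, fun H T hT => line_lower r d H T hT⟩,
    fun n r d hd hsum => ⟨?_, fun H T hT => lower d H T hT⟩,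
    fun n r d H => total d H, fun n T x hT hx => onLine_small T hT x hx,
    fun n T x hx hT => cutOut_small T x hx hT⟩
  · obtain ⟨C, hC⟩ := line_upper (n := n) r d hd hrd
    exact ⟨C, fun H T hH hHT => hC H T (hH.trans hHT) hHT⟩
  · obtain ⟨C, hC⟩ := upper (n := n) d hsum
    exact ⟨C, fun H T hH hHT => hC H T (hH.trans hHT) hHT⟩

end Pool.Agent.Results.MP_627a61_nt.SmallLines
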