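import Pool.Agent.Q236.GW.Gold

set_option autoImplicit false

/-!
# The primes `p` for which `n - p` is prime have regular neighbourhoods, for every even `n`

Let `D(n) = n / (φ(n) log ^ 2 n)`, so that `n D(n)` is the conjectured order of magnitude of the number of
the representations of the even number `n` as a sum of two primes. Let `R n r` be the set of the `m` such
that no prime `q ≤ n ^ (1 / r)` divides `m (n - m)`; it contains all primes `p` with `n - p` prime and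
`p`, `n - p > n ^ (1 / r)`. Let `A` be an ARBITRARY subset of `R n r`. For EVERY large even `n` and every
short interval `(u, u + Y] ⊆ [1, n]`, `n ^ θ ≤ Y ≤ u`, all but `ε Y D(n)` of the elements of `A` in it are
regular points of `A`: the elements of `A` in ALL intervals of length between `1 / (c D(n))` and `Y` around
them have the right order, and constant density up to `δ` at all but `B (ε, δ)` dyadic scales.
-/

namespace Pool.Agent.Results.MP_629a14_nt.RegularGoldbachPrimes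

open Finset Filter

/-- `n / (φ(n) log ^ 2 n)` -/
noncomputable def D (n : ℕ) : ℝ := n / (n.totient * Real.log n ^ 2)

/-- the `m` such that no prime `q ≤ n ^ (1 / r)` divides `m (n - m)` -/
def R (n r : ℕ) : Set ℕ :=
  {m | ∀ q : ℕ, q.Prime → (q : ℝ) ≤ (n : ℝ) ^ (1 / (r : ℝ)) → ¬ (q : ℤ) ∣ (m : ℤ) * ((n : ℤ) - m)}

open Classical in
/-- the number of the elements of `A` in `(a, b]` -/
noncomputable def N (A : Set ℕ) (a b : ℕ) : ℕ := ((Finset.Ioc a b).filter (fun m => m ∈ A)).card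

/-- All intervals `(m - s, m + t]` with `s, t ≤ Y` of length at least `1 / (c d)` contain the
right order of elements of `A`, for the density `d`. -/
def RightOrder (A : Set ℕ) (c d : ℝ) (Y m : ℕ) : Prop :=
  ∀ s t : ℕ, s ≤ Y → t ≤ Y → 1 ≤ c * (d * (s + t)) →
    c * (d * (s + t)) ≤ N A (m - s) (m + t) ∧ (N A (m - s) (m + t) : ℝ) ≤ d * (s + t) / c

/-- Up to `δ`, `A` has a constant density on both sides of `m` up to the distance `2 ^ j`. -/
def ConstantDensity (A : Set ℕ) (c d δ : ℝ) (m j : ℕ) : Prop :=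
  ∃ lam : ℝ, c ≤ lam ∧ lam ≤ 1 / c ∧ ∀ s t : ℕ, s ≤ 2 ^ j → t ≤ 2 ^ j →
    |(N A (m - s) (m + t) : ℝ) - lam * (d * (s + t))| ≤ δ * (d * 2 ^ j)

open Classical in
/-- The number of the scales `1 / (c d) ≤ 2 ^ j ≤ Y` without this property. -/
noncomputable def badScales (A : Set ℕ) (c d δ : ℝ) (Y m : ℕ) : ℕ :=
  ((Finset.range (Nat.log 2 Y + 1)).filter (fun j => 1 ≤ c * (d * (2 : ℝ) ^ j) ∧
    ¬ ConstantDensity A c d δ m j)).card

/-- The elements of `A` that are not regular points of `A`. -/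
def Irregular (A : Set ℕ) (c d δ : ℝ) (B Y : ℕ) : Set ℕ :=
  {m | m ∈ A ∧ ¬ (RightOrder A c d Y m ∧ badScales A c d δ Y m ≤ B)}

open Pool.Agent.W123.RP Pool.Agent.H373R2.T7 Pool.Agent.W123.RU Pool.Agent.TH464.PO
open Pool.Agent.Y879.AP Pool.Agent.Y879.GL Pool.Agent.Q236.GW
open Pool.Agent.W123.RU.Poly (Q)

lemma RO_of (A : Set ℕ) (V c₀ c₁ c₂ c d : ℝ) (hV : 0 < V) (hc₀ : 0 < c₀) (hc₂ : 0 < c₂)
    (hd : 0 < d) (h1 : c₁ * d ≤ V) (h2 : V ≤ c₂ * d) (hc : 0 < c) (hc1 : c ≤ c₀ * c₁) (hc2 : c ≤ c₀ / c₂)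
    (Y m : ℕ) (h : RO A (1 / V) c₀ Y m) : RightOrder A c d Y m := by
  intro s t hs ht hst
  have hst0 : (0 : ℝ) ≤ s + t := by positivity
  have e1 : c * (d * (s + t)) ≤ c₀ * (s + t) / (1 / V) := by
    rw [div_div_eq_mul_div, div_one]
    have h3 : c * d ≤ c₀ * V := by
      calc c * d ≤ c₀ * c₁ * d := mul_le_mul_of_nonneg_right hc1 hd.le
        _ = c₀ * (c₁ * d) := by ring
        _ ≤ c₀ * V := mul_le_mul_of_nonneg_left h1 hc₀.le
    calc c * (d * (s + t)) = c * d * (s + t) := by ring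
      _ ≤ c₀ * V * (s + t) := mul_le_mul_of_nonneg_right h3 hst0
      _ = c₀ * (s + t) * V := by ring
  have e2 : (s + t : ℝ) / (c₀ * (1 / V)) ≤ d * (s + t) / c := by
    rw [mul_one_div, div_div_eq_mul_div, div_le_div_iff₀ hc₀ hc]
    have h3 : V * c ≤ d * c₀ := by
      rw [le_div_iff₀ hc₂] at hc2
      calc V * c ≤ c₂ * d * c := mul_le_mul_of_nonneg_right h2 hc.le
        _ = c * c₂ * d := by ring
        _ ≤ c₀ * d := mul_le_mul_of_nonneg_right hc2 hd.le
        _ = d * c₀ := by ring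
    nlinarith
  have e3 : 1 / V ≤ c₀ * (s + t) := by
    have h4 := hst.trans e1
    rw [div_div_eq_mul_div, div_one] at h4
    rw [div_le_iff₀ hV]
    exact h4
  obtain ⟨h5, h6⟩ := h s t hs ht e3
  exact ⟨e1.trans h5, h6.trans e2⟩

lemma CD_of (A : Set ℕ) (V c₀ c₁ c₂ c d δ δ₀ : ℝ) (hV : 0 < V) (hc₀ : 0 < c₀)
    (hc₂ : 0 < c₂) (hd : 0 < d) (h1 : c₁ * d ≤ V) (h2 : V ≤ c₂ * d) (hc : 0 < c) (hc1 : c ≤ c₀ * c₁)
    (hc2 : c ≤ c₀ / c₂) (hδ₀ : 0 < δ₀) (hδ : δ₀ * c₂ ≤ δ) (m j : ℕ) (h : CD A (1 / V) c₀ δ₀ m j) :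
    ConstantDensity A c d δ m j := by
  obtain ⟨lam, hl1, hl2, h3⟩ := h
  have hlam : 0 < lam := hc₀.trans_le hl1
  refine ⟨lam * V / d, ?_, ?_, ?_⟩
  · rw [le_div_iff₀ hd]
    calc c * d ≤ c₀ * c₁ * d := mul_le_mul_of_nonneg_right hc1 hd.le
      _ = c₀ * (c₁ * d) := by ring
      _ ≤ c₀ * V := mul_le_mul_of_nonneg_left h1 hc₀.le
      _ ≤ lam * V := mul_le_mul_of_nonneg_right hl1 hV.le
  · rw [div_le_div_iff₀ hd hc, one_mul]
    rw [le_div_iff₀ hc₂] at hc2
    calc lam * V * c ≤ 1 / c₀ * (c₂ * d) * c := by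
          apply mul_le_mul_of_nonneg_right _ hc.le
          exact mul_le_mul hl2 h2 hV.le (by positivity)
      _ = c * c₂ * d / c₀ := by ring
      _ ≤ c₀ * d / c₀ := by
          apply div_le_div_of_nonneg_right _ hc₀.le
          exact mul_le_mul_of_nonneg_right hc2 hd.le
      _ = d := by rw [mul_comm, mul_div_assoc, div_self hc₀.ne', mul_one]
  · intro s t hs ht
    have h4 := h3 s t hs ht
    rw [div_div_eq_mul_div, div_one, div_div_eq_mul_div, div_one] at h4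
    have e1 : lam * V / d * (d * (s + t)) = lam * (s + t) * V := by
      field_simp
    rw [e1]
    refine h4.trans ?_
    calc δ₀ * 2 ^ j * V ≤ δ₀ * 2 ^ j * (c₂ * d) := mul_le_mul_of_nonneg_left h2 (by positivity)
      _ = δ₀ * c₂ * (d * 2 ^ j) := by ring
      _ ≤ δ * (d * 2 ^ j) := mul_le_mul_of_nonneg_right hδ (by positivity)

lemma sf_iff (n r m : ℕ) : Sf (Q (pf (-1) (n : ℤ) 1 0)) ⌊(n : ℝ) ^ (1 / (r : ℝ))⌋₊ m ↔ m ∈ R n r := by
  have h0 : (0 : ℝ) ≤ (n : ℝ) ^ (1 / (r : ℝ)) := by positivity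
  have key : ∀ q : ℕ, q.Prime → (Q (pf (-1) (n : ℤ) 1 0) q m ↔ (q : ℤ) ∣ (m : ℤ) * ((n : ℤ) - m)) := by
    intro q hq
    rw [pf_Q (-1) (n : ℤ) 1 0 q m hq]
    unfold Q2
    have e : ((1 * m + 0 : ℕ) : ℤ) * (-1 * ((1 * m + 0 : ℕ) : ℤ) + n) = (m : ℤ) * ((n : ℤ) - m) := by
      push_cast
      ring
    rw [e]
  constructor
  · intro h q hq hqn hd
    exact h q (mem_pz.2 ⟨Nat.le_floor hqn, hq⟩) ((key q hq).2 hd)
  · intro h q hq hd
    have hqq := (mem_pz.1 hq).2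
    exact h q hqq (mem_pz' h0 hq) ((key q hqq).1 hd)

/-- **The primes `p` for which `n - p` is prime have regular neighbourhoods, for every even `n`.** -/
theorem result (θ : ℝ) (hθ : 0 < θ) :
    ∃ r₀ : ℕ, 2 ≤ r₀ ∧ ∀ r : ℕ, r₀ ≤ r →
      (∀ n p : ℕ, p < n → p.Prime → (n - p).Prime → (n : ℝ) ^ (1 / (r : ℝ)) < (p : ℝ) →
        (n : ℝ) ^ (1 / (r : ℝ)) < ((n - p : ℕ) : ℝ) → p ∈ R n r) ∧
      ∀ ε : ℝ, 0 < ε → ∃ c : ℝ, 0 < c ∧ ∀ δ : ℝ, 0 < δ → ∃ B : ℕ,
        ∀ᶠ n : ℕ in atTop, Even n → ∀ u Y : ℕ, (n : ℝ) ^ θ ≤ Y → Y ≤ u → u + Y ≤ n →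
          ∀ A : Set ℕ, A ⊆ R n r →
            (N (Irregular A c (D n) δ B Y) u (u + Y) : ℝ) ≤ ε * (Y * D n) := by
  obtain ⟨r0, hr0, h⟩ := prog2_her 1 θ one_pos hθ
  refine ⟨r0, hr0, ?_⟩
  intro r hr
  have hr2 : 2 ≤ r := hr0.trans hr
  refine ⟨?_, ?_⟩
  · intro n p hpn hp hnp h1 h2 q hq hqn hd
    have hqi : Prime (q : ℤ) := Nat.prime_iff_prime_int.1 hq
    rcases hqi.dvd_or_dvd hd with h3 | h3
    · have h4 := (Nat.prime_dvd_prime_iff_eq hq hp).1 (Int.natCast_dvd_natCast.1 h3)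
      rw [h4] at hqn
      linarith
    · have h5 : (n : ℤ) - p = ((n - p : ℕ) : ℤ) := by
        rw [Nat.cast_sub hpn.le]
      rw [h5] at h3
      have h4 := (Nat.prime_dvd_prime_iff_eq hq hnp).1 (Int.natCast_dvd_natCast.1 h3)
      rw [← h4] at h2
      linarith
  · intro ε hε
    obtain ⟨c₁, c₂, hc₁, hc₂, hord⟩ := VG_order r hr2
    obtain ⟨c₀, hc₀, h2⟩ := h r hr (ε / c₂) (by positivity)
    obtain ⟨c, hc⟩ : ∃ c, c = min (c₀ * c₁) (min (c₀ / c₂) c₁) := ⟨_, rfl⟩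
    have hcpos : 0 < c := by
      rw [hc]
      exact lt_min (by positivity) (lt_min (by positivity) hc₁)
    have hc1 : c ≤ c₀ * c₁ := by rw [hc]; exact min_le_left _ _
    have hc2 : c ≤ c₀ / c₂ := by rw [hc]; exact (min_le_right _ _).trans (min_le_left _ _)
    have hc3 : c ≤ c₁ := by rw [hc]; exact (min_le_right _ _).trans (min_le_right _ _)
    refine ⟨c, hcpos, ?_⟩
    intro δ hδ
    obtain ⟨B, h3⟩ := h2 (δ / c₂) (by positivity)
    refine ⟨B, ?_⟩
    filter_upwards [h3, hord, eventually_ge_atTop 3] with n hn hV hn3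
    intro hev u Y hY hYu huY A hA
    obtain ⟨hV1, hV2⟩ := hV hev
    obtain ⟨V, hVdef⟩ : ∃ V, V = VG n ⌊(n : ℝ) ^ (1 / (r : ℝ))⌋₊ := ⟨_, rfl⟩
    have hn0 : (0 : ℝ) < n := by exact_mod_cast (by omega : 0 < n)
    have hphi0 : (0 : ℝ) < n.totient := by exact_mod_cast Nat.totient_pos.2 (by omega)
    have hL : 0 < Real.log n := Real.log_pos (by exact_mod_cast (by omega : 1 < n))
    have hD : DG n = D n := rfl
    have hD0 : 0 < D n := by unfold D; positivity
    rw [← hVdef, hD] at hV1 hV2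
    have hV0 : 0 < V := lt_of_lt_of_le (by positivity) hV1
    have hmain := hn (-1) (n : ℤ) 1 0 (by norm_num) (by exact_mod_cast hev)
      (by exact_mod_cast (by omega : n ≠ 0)) (by
        rw [Real.rpow_one]
        have : |((n : ℤ) : ℝ)| = n := by
          push_cast
          exact abs_of_pos hn0
        exact this.le) le_rfl (by
        rw [Real.rpow_one]
        push_cast
        exact_mod_cast (by omega : 1 ≤ n)) (by
        rw [Real.rpow_one]
        push_cast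
        exact hn0.le) (Nat.coprime_one_left 0) isCoprime_one_left u Y hY (by
        have : Y ≤ n := by omega
        exact_mod_cast this) hYu A (fun m hm => (sf_iff n r m).2 (hA hm))
    have e1 : Vq (Qn (Q2 (-1) (n : ℤ)) 1) ⌊(n : ℝ) ^ (1 / (r : ℝ))⌋₊ = V := hVdef.symm
    rw [e1] at hmain
    have hsub : (N (Irregular A c (D n) δ B Y) u (u + Y) : ℝ) ≤
        (Pool.Agent.TH977.PW.N (Irr A (1 / V) c₀ (δ / c₂) B Y) u (u + Y) : ℝ) := by
      have h7 : N (Irregular A c (D n) δ B Y) u (u + Y) ≤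
          Pool.Agent.TH977.PW.N (Irr A (1 / V) c₀ (δ / c₂) B Y) u (u + Y) := by
        apply Pool.Agent.TH977.PW.N_mono
        intro m _ _ hm
        refine ⟨hm.1, fun hreg => hm.2 ⟨?_, ?_⟩⟩
        · exact RO_of A V c₀ c₁ c₂ c (D n) hV0 hc₀ hc₂ hD0 hV1 hV2 hcpos hc1 hc2 Y m hreg.1
        · refine le_trans ?_ hreg.2
          unfold badScales bS
          apply card_le_of
          intro j _ hj
          refine ⟨?_, fun hcd => hj.2 ?_⟩
          · rw [div_le_iff₀ hV0]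
            calc (1 : ℝ) ≤ c * (D n * 2 ^ j) := hj.1
              _ ≤ c₁ * (D n * 2 ^ j) := mul_le_mul_of_nonneg_right hc3 (by positivity)
              _ = 2 ^ j * (c₁ * D n) := by ring
              _ ≤ 2 ^ j * V := mul_le_mul_of_nonneg_left hV1 (by positivity)
          · exact CD_of A V c₀ c₁ c₂ c (D n) δ (δ / c₂) hV0 hc₀ hc₂ hD0 hV1 hV2 hcpos hc1 hc2
              (by positivity) (by rw [div_mul_cancel₀ _ hc₂.ne']) m j hcd
      exact_mod_cast h7
    refine hsub.trans (hmain.trans ?_)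
    calc ε / c₂ * (Y * V) ≤ ε / c₂ * (Y * (c₂ * D n)) := by
          apply mul_le_mul_of_nonneg_left _ (by positivity)
          exact mul_le_mul_of_nonneg_left hV2 (Nat.cast_nonneg Y)
      _ = ε * (Y * D n) := by
          field_simp

end Pool.Agent.Results.MP_629a14_nt.RegularGoldbachPrimes
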