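import Pool.Agent.Q187.LF.Main

/-!
Cohomologically trivial classes that lift orthogonally to the fibral cycles are stable
under correspondences, and include all classes on varieties having a model that at each
prime is smooth or (regular curve) x (smooth).
-/

namespace Pool.Agent.Results.MP_62d77c_ag.StableUnderCorrespondences

open Pool.Agent.Q187.LF

universe u

/-- (1) Stability under correspondences between varieties with arbitrary regular models;
(2) everything obtained from nice models lifts, on every model. -/
theorem result (T : Theory.{u}) (hT : IsTheory T) :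
    (∀ (M N : T.Mdl) (e i : ℤ) (Γ : T.Cor (T.gen M) (T.gen N) e) (c : T.CH (T.gen M)),
      LiftsOrthogonally T M i c → LiftsOrthogonally T N (i + e) (T.act Γ c)) ∧
    (∀ (M : T.Mdl) (i : ℤ), IsNice T M → ∀ c ∈ T.codimG (T.gen M) i, c ∈ T.hom0 (T.gen M) →
      LiftsOrthogonally T M i c) ∧
    (∀ (N : T.Mdl) (i : ℤ), ∀ c ∈ fromNice T (T.gen N) i, LiftsOrthogonally T N i c) :=
  ⟨fun _ _ _ _ Γ _ h => lo_act hT Γ h, fun _ _ hM _ h h0 => lo_of_nice hT hM h h0,
    fun _ _ _ h => lo_of_span hT h⟩

end Pool.Agent.Results.MP_62d77c_ag.StableUnderCorrespondences
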