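import Pool.Agent.Q120.ME.General
import Pool.Agent.Q160.LT.Mass
import Pool.Agent.Q160.LT.Asb

/-!
# The Lang–Trotter bound for random sets of primes near the Lang–Trotter model

In the model of Lang and Trotter each prime `p` has the property `a_p = a` independently with probability `C / (2 √p)`, so that the expected number
of such primes below `x` is asymptotic to `E C x = C √x / log x`. For any random set `A` of primes (no independence is assumed) `D C μ A x` is
the relative entropy (nats) of the law of the set of the primes below `x` in `A` with respect to the model, and `N (A ω) x` is their number.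
-/

set_option autoImplicit false

namespace Pool.Agent.Results.MP_631487_nt.BoundAtGivenInformation

open MeasureTheory Filter Pool.Agent.Q120.ET Pool.Agent.Q120.ME
open scoped Topology

/-- The probability that `a_p = a` for the prime `p`: `C / (2 √p)`, at most `1 / 2`. -/
noncomputable def rate (C : ℝ) (p : ℕ) : ℝ := min (1 / 2) (C / (2 * √p))

/-- The order of magnitude of the question: `C √x / log x`. -/
noncomputable def E (C : ℝ) (x : ℕ) : ℝ := C * (√x / Real.log x)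

/-- The number of the primes below `x` in `S`. -/
noncomputable def N (S : Set ℕ) (x : ℕ) : ℕ := cnt {n | n.Prime} S x

/-- The relative entropy (nats) of the law of the set of the primes below `x` in `A`, with respect to the model. -/
noncomputable def D (C : ℝ) {Ω : Type*} [MeasurableSpace Ω] (μ : Measure Ω) (A : Ω → Set ℕ) (x : ℕ) : ℝ :=
  relEnt (rate C) μ A (ind {n | n.Prime} x)

/-- The class `δ`: `D(x) ≤ (δ + o(1)) C √x / log x`. -/
def Cls (C δ : ℝ) {Ω : Type*} [MeasurableSpace Ω] (μ : Measure Ω) (A : Ω → Set ℕ) : Prop :=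
  IsRandomSet A ∧ ∀ ε : ℝ, 0 < ε → ∀ᶠ x : ℕ in atTop, D C μ A x ≤ (δ + ε) * E C x

theorem cls_eq {C : ℝ} (hC : 0 < C) {δ : ℝ} (hδ : 0 ≤ δ) {Ω : Type*} [MeasurableSpace Ω] (μ : Measure Ω) (A : Ω → Set ℕ) :
    Cls C δ μ A ↔ GCls Q160.LT.P (rate C) δ μ A := by
  unfold Cls GCls
  refine and_congr_right (fun _ => ?_)
  exact (Q160.LT.cls_iff hC (fun x => D C μ A x) δ hδ).symm

/-- (1) Let `d ≥ 0` be nondecreasing. If `∑_p d p (log p) ^ 2 / p ^ (3 / 2) < ∞`, then all random sets with `D(x) ≤ d x` for large `x` almost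
surely have `N(x) ~ C √x / log x`; if the series diverges, then for some such set almost surely `N(x) ≠ O(√x / log x)`. (2) A probability measure `ν`
is the law of `lim N(x) / E(x)` for some random set of class `δ` iff it lives on `[0, ∞)` and `∫ (u log u - u + 1) dν ≤ δ`. (3) The largest
probability that only finitely many primes are in a random set of class `δ` is `min 1 δ`. -/
theorem result (C : ℝ) (hC : 0 < C) :
    (∀ d : ℕ → ℝ, Monotone d → (∀ n, 0 ≤ d n) →
      (Summable (fun p : ℕ => if p.Prime then d p * Real.log p ^ 2 / (p * √p) else 0) →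
        ∀ (Ω : Type) [MeasurableSpace Ω] (μ : Measure Ω) [IsProbabilityMeasure μ] (A : Ω → Set ℕ), IsRandomSet A →
          (∀ᶠ x : ℕ in atTop, D C μ A x ≤ d x) → ∀ᵐ ω ∂μ, Tendsto (fun x : ℕ => (N (A ω) x : ℝ) / E C x) atTop (𝓝 1)) ∧
      (¬ Summable (fun p : ℕ => if p.Prime then d p * Real.log p ^ 2 / (p * √p) else 0) →
        ∃ (Ω : Type) (_ : MeasurableSpace Ω) (μ : Measure Ω) (_ : IsProbabilityMeasure μ) (A : Ω → Set ℕ), IsRandomSet A ∧
          (∀ᶠ x : ℕ in atTop, D C μ A x ≤ d x) ∧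
          ∀ᵐ ω ∂μ, ∀ B : ℝ, ∃ᶠ x : ℕ in atTop, B * (√x / Real.log x) < N (A ω) x)) ∧
    ∀ δ : ℝ, 0 ≤ δ →
      (∀ ν : Measure ℝ, IsProbabilityMeasure ν →
        ((∃ (Ω : Type) (_ : MeasurableSpace Ω) (μ : Measure Ω) (_ : IsProbabilityMeasure μ) (A : Ω → Set ℕ) (L : Ω → ℝ), Cls C δ μ A ∧
          Measurable L ∧ μ.map L = ν ∧ ∀ᵐ ω ∂μ, Tendsto (fun x : ℕ => (N (A ω) x : ℝ) / E C x) atTop (𝓝 (L ω))) ↔
        ν (Set.Iio 0) = 0 ∧ ∫⁻ u, ENNReal.ofReal (u * Real.log u - u + 1) ∂ν ≤ ENNReal.ofReal δ)) ∧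
      (∀ (Ω : Type) [MeasurableSpace Ω] (μ : Measure Ω) [IsProbabilityMeasure μ] (A : Ω → Set ℕ), Cls C δ μ A →
        μ.real {ω | (A ω ∩ {n | n.Prime}).Finite} ≤ δ) ∧
      ∃ (Ω : Type) (_ : MeasurableSpace Ω) (μ : Measure Ω) (_ : IsProbabilityMeasure μ) (A : Ω → Set ℕ), Cls C δ μ A ∧
        μ.real {ω | (A ω ∩ {n | n.Prime}).Finite} = min 1 δ := by
  have hU : Rates Q160.LT.P (rate C) := Q160.LT.rates hC
  have hG := general Q160.LT.P (rate C) hU
  have ht : ∀ (S : Set ℕ) (l : ℝ), Tendsto (fun x : ℕ => (cnt Q160.LT.P S x : ℝ) / mass Q160.LT.P (rate C) x) atTop (𝓝 l) ↔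
      Tendsto (fun x : ℕ => (N S x : ℝ) / E C x) atTop (𝓝 l) := fun S l =>
    Q160.LT.tendsto_iff hC (fun x => (cnt Q160.LT.P S x : ℝ)) l
  refine ⟨fun d hm hd => ⟨fun hs Ω _ μ _ A hA hD => ?_, fun hs => ?_⟩, fun δ hδ => ?_⟩
  · have h1 := ((hG.1 d hm hd).2 ((Q160.LT.conv_iff hC d).2 hs)) Ω μ A hA hD
    filter_upwards [h1] with ω hω
    exact (ht _ _).1 hω
  · have hn : ¬ Conv Q160.LT.P (rate C) d := fun h => hs ((Q160.LT.conv_iff hC d).1 h)
    obtain ⟨Ω, m, μ, hμ, A, hA, h1, h2⟩ := Q160.LT.t_ASB Pool.Agent.Q285.ME.t_CON Pool.Agent.Q224.ME.t_ENM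
      Pool.Agent.Q224.ME.t_KLB hU hm hd hn
    refine ⟨Ω, m, μ, hμ, A, hA, h1, ?_⟩
    filter_upwards [h2] with ω hω B
    refine (hω (2 * |B| / C)).mp ?_
    filter_upwards [(Q160.LT.mass_ratio hC).eventually (lt_mem_nhds (show (1 / 2 : ℝ) < 1 by norm_num)),
      (Q160.LT.E_tend hC).eventually_gt_atTop 0, Q160.LT.half_tend.eventually_gt_atTop 0] with x h3 h4 h5 h6
    rw [lt_div_iff₀ h4] at h3
    change _ < (cnt Q160.LT.P (A ω) x : ℝ)
    refine lt_of_le_of_lt ?_ h6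
    have h7 : B * (√x / Real.log x) ≤ |B| * (√x / Real.log x) := mul_le_mul_of_nonneg_right (le_abs_self B) h5.le
    have h8 : 2 * |B| / C * (1 / 2 * Q160.LT.E C x) = |B| * (√x / Real.log x) := by
      unfold Q160.LT.E
      field_simp
    rw [← h8] at h7
    exact h7.trans (mul_le_mul_of_nonneg_left h3.le (by positivity))
  · obtain ⟨h1, h2, h3⟩ := hG.2 δ hδ
    refine ⟨fun ν hν => ?_, fun Ω _ μ _ A hA => ?_, ?_⟩
    · rw [← h1 ν hν]
      constructor
      · rintro ⟨Ω, m, μ, hμ, A, L, hA, hL, hmap, hlim⟩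
        refine ⟨Ω, m, μ, hμ, A, L, (cls_eq hC hδ μ A).1 hA, hL, hmap, ?_⟩
        filter_upwards [hlim] with ω hω
        exact (ht _ _).2 hω
      · rintro ⟨Ω, m, μ, hμ, A, L, hA, hL, hmap, hlim⟩
        refine ⟨Ω, m, μ, hμ, A, L, (cls_eq hC hδ μ A).2 hA, hL, hmap, ?_⟩
        filter_upwards [hlim] with ω hω
        exact (ht _ _).1 hω
    · exact h2 Ω μ A ((cls_eq hC hδ μ A).1 hA)
    · obtain ⟨Ω, m, μ, hμ, A, hA, h4⟩ := h3
      exact ⟨Ω, m, μ, hμ, A, (cls_eq hC hδ μ A).2 hA, h4⟩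

end Pool.Agent.Results.MP_631487_nt.BoundAtGivenInformation
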