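import Pool.Agent.Q57.SS.Half

/-!
# The uniform half law for Tate classes without an assumption of semisimplicity

Let `F` be a finitely generated subfield of `ℝ` (or any finitely generated field of characteristic
zero which contains no CM field), let `X` be a smooth projective variety over `F`, let `b` be the
sum of its Betti numbers and let `N = (2 b) ^ ((2 b) ^ ((2 b) ^ 3))`.

Let `ε > 0` and `n ≥ (2 b) ^ (3 N) / ε ^ 2`. If the rank of the group of algebraic cycles on `X ^ n`
modulo numerical equivalence is greater than `1 / 2 + ε` times the dimension of the space of Tate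
classes on `X ^ n`, then for all `m` all Tate classes on `X ^ m` are linear combinations of classes
of algebraic cycles, and the Galois representations on the cohomology of `X ^ m` are semisimple.

The theorem is proved for every Weil cohomology theory with an action of a group with the properties of
the action of the Galois group: continuity, density of the elements which act like geometric Frobenius
elements (Chebotarev, Deligne, Katz-Messing), an action of the whole group on the cohomology of
products of copies of `X`, and the fact that every stable line in such a cohomology space is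
spanned by a Tate class (a theorem on Hodge-Tate characters for these fields and the coefficients
`ℚ_ℓ`).
-/

open CategoryTheory AlgebraicGeometry

universe u w

namespace Pool.Agent.Results.MP_640417_ag.HalfLawWithoutSemisimplicity

open Pool.Agent.H914
open Pool.Agent.Y133.Half (cycRank)
open Pool.Agent.Q55 (GaloisAction TateConj tateDim)
open Pool.Agent.Q60.TD (SemisimpleAt IsArithmetic IsAmpleLike power)
open Pool.Agent.Q57.SS (DefinedOverBase LinesAreTate)

variable {k : Type u} [Field k] {𝒱 : VarClass k} {ops : CycleOps 𝒱}
  {W : WeilCohomology.{u, 0} ops} {Γ : Type w} [Group Γ] [TopologicalSpace Γ]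
  [TopologicalSpace W.K]

/-- **The uniform half law for Tate classes, without semisimplicity.** `power X n` is the product of
`n` copies of `X`. -/
theorem result (G : GaloisAction W Γ) (X : 𝒱.Obj) (hG : IsArithmetic G X)
    (hX : DefinedOverBase G X) (hL : LinesAreTate G X)
    (hD : ∃ D, IsAmpleLike W X D) (b N : ℕ) (hb : Module.finrank W.K (W.H X) = b)
    (hN : N = (2 * b) ^ (2 * b) ^ (2 * b) ^ 3) (ε : ℝ) (hε : 0 < ε) (n : ℕ)
    (hn : (2 * b : ℝ) ^ (3 * N) / ε ^ 2 ≤ n)
    (h : (1 / 2 + ε) * tateDim G (power X n) < cycRank ops (power X n)) (m : ℕ) :
    TateConj G (power X m) ∧ ∀ i, SemisimpleAt G (power X m) i := by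
  subst hb
  obtain ⟨D, h1, h2, h3⟩ := hD
  refine (Pool.Agent.Q57.SS.half_law hG hX hL h1 h2 h3 hN.symm hε (n := n - 1) ?_ h
    (m - 1)).symm
  refine hn.trans ?_
  exact_mod_cast (by omega : n ≤ n - 1 + 1)

end Pool.Agent.Results.MP_640417_ag.HalfLawWithoutSemisimplicity
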