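import Pool.Agent.Q50.FP.Ab3

/-!
# One Tate class of codimension two on the fourth power of an abelian variety decides

Let `A` be an abelian variety over a finitely generated field of characteristic zero, with arbitrary
endomorphisms, and let `ℓ` be a prime number. There is one explicit Tate class `Θ` of codimension
two on `A ^ 4`, the Casimir class of the derived algebra of the `ℓ`-adic Lie algebra of `A`, with the
following properties.

* If `Θ` is a linear combination of Hodge classes, then all Tate classes on all powers of `A` are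
  linear combinations of Hodge classes: the conjecture of Mumford and Tate is true for `A`.
* If `Θ` is algebraic (in particular if the Tate conjecture is true in codimension two for `A ^ 4`),
  then for each of the spaces `(H^1)^{⊗ 2 m}(m)` the Tate conjecture is equivalent to the Hodge
  conjecture.

So for all abelian varieties the Tate conjecture follows from the Hodge conjecture and from the
Tate conjecture in codimension two.

Idea of the proof: let `𝔤` be the Lie algebra of the endomorphisms of the Tate module which
annihilate all Tate classes. A rational endomorphism `Z` of `H_1(A, ℚ)` which annihilates all Hodge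
classes annihilates `Θ` by assumption. This means that the commutator with `Z` respects the orthogonal
projection to `[𝔤, 𝔤]`, with respect to the trace form, which is nondegenerate on `[𝔤, 𝔤]`. It
follows that `Z` is the sum of an element of `[𝔤, 𝔤]` and of an element of the centre of the
commutant of `𝔤`, which is known by the theorem of Faltings, if we know that what commutes with `𝔤`
commutes with an open subgroup of the Galois group (for this `ℓ`-adic logarithms are used). The
centre is treated by the theorem on centres. So `Z` is in `𝔤`.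
-/

namespace Pool.Agent.Results.MP_640417_ag.QuarticClassDecides

open TensorProduct Pool.Agent.H204R3.GP Pool.Agent.W516.MTD
open Pool.Agent.Q50.FP (IsAbelian IsCasimir Classes IsCombination TateFor HodgeFor)

/-- **One quartic Tate class decides.** -/
theorem result (ℓ : ℕ) [Fact ℓ.Prime]
    -- the complex torus `A(ℂ)` with a polarization
    {W T : Type} [AddCommGroup W] [Module ℚ W] [FiniteDimensional ℚ W] [AddCommGroup T]
    [Module ℂ T] (per : W →+ T) (ω₀ : W →ₗ[ℚ] W →ₗ[ℚ] ℚ)
    -- the Galois group, its action on the Tate module and the Weil pairing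
    {Γ : Type} [Group Γ] [TopologicalSpace Γ] [IsTopologicalGroup Γ] [CompactSpace Γ]
    (ρ : Representation ℚ_[ℓ] Γ (ℚ_[ℓ] ⊗[ℚ] W)) (χ : Γ →* ℚ_[ℓ])
    (ω : ℚ_[ℓ] ⊗[ℚ] W →ₗ[ℚ_[ℓ]] ℚ_[ℓ] ⊗[ℚ] W →ₗ[ℚ_[ℓ]] ℚ_[ℓ])
    (hA : IsAbelian per ω₀ ρ χ ω) :
    ∃ Θ : MultilinearMap ℚ_[ℓ] (fun _ : Fin 2 × Fin 2 => ℚ_[ℓ] ⊗[ℚ] W) ℚ_[ℓ],
      IsCasimir ρ χ ω Θ ∧ IsTateTensor ρ χ 2 Θ ∧
      (IsHodgeCombination per Θ → ∀ (m : ℕ)
        (φ : MultilinearMap ℚ_[ℓ] (fun _ : Fin m × Fin 2 => ℚ_[ℓ] ⊗[ℚ] W) ℚ_[ℓ]),
        IsTateTensor ρ χ m φ → IsHodgeCombination per φ) ∧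
      ∀ S : Classes W, (∀ m ψ, S m ψ → IsHodgeTensor per ψ) → IsCombination S Θ →
        ∀ m, TateFor S ρ χ m ↔ HodgeFor S per m :=
  Pool.Agent.Q50.FP.ab_main per ρ χ hA.continuous hA.continuous_char ω₀ ω
    (Pool.Agent.W516.MTM.riemann_hodge per ω₀ hA.riemann)
    (Pool.Agent.W516.MTM.riemann_nondeg per ω₀ hA.rational hA.riemann) hA.compares hA.weil
    hA.rational hA.semisimple hA.faltings hA.deligne hA.centres

end Pool.Agent.Results.MP_640417_ag.QuarticClassDecides
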