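import Pool.Agent.Q60.TD.Half
import Pool.Agent.Q60.TP.Char0

/-!
# The uniform half law for Tate classes in characteristic zero

Let `X` be a smooth projective variety over an algebraic closure of a finitely generated field `F` of
characteristic zero, and let `b` be the sum of the Betti numbers of `X`.

* Put `N = (2 b) ^ ((2 b) ^ 3)`, and assume that the Galois representations on the cohomology of
  `X ^ N` in even degrees are semisimple (a theorem of Faltings for abelian varieties). Let `ε > 0`
  and `n ≥ (2 b) ^ (3 N) / ε ^ 2`. If the rank of the group of algebraic cycles on `X ^ n` modulo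
  numerical equivalence is greater than `1 / 2 + ε` times the dimension of the space of Tate classes
  on `X ^ n`, then all Tate classes on all powers of `X` are linear combinations of classes of
  algebraic cycles.
* Suppose that the algebra of the endomorphisms of `H(X)` given by Tate classes on `X × X` has no
  nonzero central element which is skew for the Poincare pairing, and that the cohomology of `X ^ 6`
  in even degrees is semisimple, or that `F` contains no CM field (then no semisimplicity is
  assumed). Then the same is true for all `n ≥ (2 b) ^ (3 b ^ 3 + 3) / ε ^ 2`, and the conclusion is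
  the Tate conjecture in its full form and the semisimplicity for all powers of `X`.

So if the Tate conjecture fails for some power of `X`, then from the explicit power on at most about
one half of the Tate classes on each power of `X` are algebraic.
-/

open CategoryTheory AlgebraicGeometry

universe u w

namespace Pool.Agent.Results.MP_640417_ag.UniformHalfLaw

open Pool.Agent.H914
open Pool.Agent.Y133.Half (cycRank)
open Pool.Agent.Q55 (GaloisAction TateConj tateDim)
open Pool.Agent.Q55.Moo (DetCyclotomic)
open Pool.Agent.Q60.TD (SemisimpleAt IsArithmetic IsAmpleLike power)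
open Pool.Agent.Q60.TP (TateCentre StrongForm)

variable {k : Type u} [Field k] {𝒱 : VarClass k} {ops : CycleOps 𝒱}
  {W : WeilCohomology.{u, 0} ops} {Γ : Type w} [Group Γ]

/-- **The uniform half law for Tate classes.** `power X n` is the product of `n` copies of `X`. -/
theorem result (φ : W.K →+* ℂ) (G : GaloisAction W Γ) (X : 𝒱.Obj)
    (hD : ∃ D, IsAmpleLike W X D) (b : ℕ) (hb : Module.finrank W.K (W.H X) = b) :
    (∀ [TopologicalSpace Γ] [TopologicalSpace W.K], IsArithmetic G X →
      ∀ N : ℕ, N = (2 * b) ^ (2 * b) ^ 3 → (∀ j, SemisimpleAt G (power X N) (2 * j)) →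
        ∀ ε : ℝ, 0 < ε → ∀ n : ℕ, (2 * b : ℝ) ^ (3 * N) / ε ^ 2 ≤ n →
          (1 / 2 + ε) * tateDim G (power X n) < cycRank ops (power X n) →
            ∀ m, TateConj G (power X m)) ∧
    (TateCentre G X → (DetCyclotomic G (power X 2) ∨ ∀ j, SemisimpleAt G (power X 6) (2 * j)) →
      ∀ ε : ℝ, 0 < ε → ∀ n : ℕ, (2 * b : ℝ) ^ (3 * b ^ 3 + 3) / ε ^ 2 ≤ n →
        (1 / 2 + ε) * tateDim G (power X n) < cycRank ops (power X n) → StrongForm G X) := by
  refine ⟨?_, fun hc hS ε hε n hn h => Pool.Agent.Q60.TP.half_main φ hc hD hb hS hε hn h⟩
  intro _ _ hG N hN hS ε hε n hn h m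
  subst hb
  obtain ⟨D, h1, h2, h3⟩ := hD
  refine (Pool.Agent.Q60.TD.tate_half hG h1 h2 h3 hN.symm hS hε (n := n - 1) ?_ h (m - 1)).2
  refine hn.trans ?_
  exact_mod_cast (by omega : n ≤ n - 1 + 1)

end Pool.Agent.Results.MP_640417_ag.UniformHalfLaw
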