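import Mathlib

/-!
# Pairwise touching congruent convex sets: boundedness makes no difference
-/

set_option autoImplicit false

namespace Pool.Agent.Results.MP_644a98_co.SameForUnbounded

/-- Euclidean space of dimension `d`. -/
abbrev E (d : ℕ) : Type := EuclideanSpace ℝ (Fin d)

/-- A convex body: compact, convex, with nonempty interior. -/
def IsConvexBody {d : ℕ} (K : Set (E d)) : Prop :=
  IsCompact K ∧ Convex ℝ K ∧ (interior K).Nonempty

/-- A closed convex set with nonempty interior, bounded or not. -/
def IsClosedConvexSolid {d : ℕ} (K : Set (E d)) : Prop :=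
  IsClosed K ∧ Convex ℝ K ∧ (interior K).Nonempty

/-- There are `m` congruent copies of `K` that are pairwise touching without overlap: any two of
them have a common point, but disjoint interiors. -/
def HasTouchingCopies {d : ℕ} (K : Set (E d)) (m : ℕ) : Prop :=
  ∃ φ : Fin m → (E d ≃ᵢ E d), ∀ i j, i ≠ j →
    ((φ i '' K) ∩ (φ j '' K)).Nonempty ∧ Disjoint (interior (φ i '' K)) (interior (φ j '' K))

/-- `t(K)`: the largest `m`, possibly `∞`, for which `K` has `m` pairwise touching congruent
copies. -/
noncomputable def t {d : ℕ} (K : Set (E d)) : ℕ∞ :=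
  ⨆ (m : ℕ) (_ : HasTouchingCopies K m), (m : ℕ∞)

/-- `N`: the supremum of `t(K)` over the convex bodies of dimension `d`. -/
noncomputable def N (d : ℕ) : ℕ∞ := ⨆ (K : Set (E d)) (_ : IsConvexBody K), t K

/-- `N'`: the supremum of `t(K)` over the closed convex sets with nonempty interior. -/
noncomputable def N' (d : ℕ) : ℕ∞ := ⨆ (K : Set (E d)) (_ : IsClosedConvexSolid K), t K

/-- the truncation by a large ball -/
theorem truncate {d : ℕ} (K : Set (E d)) (hK : IsClosedConvexSolid K) (m : ℕ)
    (h : HasTouchingCopies K m) : ∃ K' : Set (E d), IsConvexBody K' ∧ HasTouchingCopies K' m := by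
  obtain ⟨hcl, hconv, x0, hx0⟩ := hK
  obtain ⟨φ, hφ⟩ := h
  choose p hp using fun (i j : Fin m) (hij : i ≠ j) => (hφ i j hij).1
  -- the points of contact, seen in the original position
  let q : Fin m → Fin m → E d := fun i j => if hij : i ≠ j then (φ i).symm (p i j hij) else 0
  let q' : Fin m → Fin m → E d := fun i j => if hij : i ≠ j then (φ j).symm (p i j hij) else 0
  have hfin : (insert x0 (Set.range (fun ij : Fin m × Fin m => q ij.1 ij.2) ∪
      Set.range (fun ij : Fin m × Fin m => q' ij.1 ij.2))).Finite :=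
    ((Set.finite_range _).union (Set.finite_range _)).insert _
  obtain ⟨R, hR⟩ := hfin.isBounded.subset_ball (0 : E d)
  have hR0 : ‖x0‖ < R := by
    have := hR (Set.mem_insert _ _)
    rwa [mem_ball_zero_iff] at this
  have hR1 : ∀ i j, ‖q i j‖ < R := by
    intro i j
    have := hR (Set.mem_insert_of_mem _ (Set.mem_union_left _ (Set.mem_range_self (i, j))))
    rwa [mem_ball_zero_iff] at this
  have hR2 : ∀ i j, ‖q' i j‖ < R := by
    intro i j
    have := hR (Set.mem_insert_of_mem _ (Set.mem_union_right _ (Set.mem_range_self (i, j))))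
    rwa [mem_ball_zero_iff] at this
  refine ⟨K ∩ Metric.closedBall 0 R, ⟨?_, ?_, ?_⟩, φ, fun i j hij => ⟨?_, ?_⟩⟩
  · exact (isCompact_closedBall 0 R).inter_left hcl
  · exact hconv.inter (convex_closedBall 0 R)
  · refine ⟨x0, ?_⟩
    rw [interior_inter]
    refine ⟨hx0, Metric.ball_subset_interior_closedBall ?_⟩
    rw [mem_ball_zero_iff]
    exact hR0
  · refine ⟨p i j hij, ?_, ?_⟩
    · obtain ⟨y, hy, hyp⟩ := (hp i j hij).1
      refine ⟨y, ⟨hy, ?_⟩, hyp⟩
      have h1 := hR1 i j
      have h2 : q i j = y := by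
        simp only [q, dif_pos hij]
        rw [← hyp, IsometryEquiv.symm_apply_apply]
      rw [h2] at h1
      rw [mem_closedBall_zero_iff]
      exact h1.le
    · obtain ⟨y, hy, hyp⟩ := (hp i j hij).2
      refine ⟨y, ⟨hy, ?_⟩, hyp⟩
      have h1 := hR2 i j
      have h2 : q' i j = y := by
        simp only [q', dif_pos hij]
        rw [← hyp, IsometryEquiv.symm_apply_apply]
      rw [h2] at h1
      rw [mem_closedBall_zero_iff]
      exact h1.le
  · exact ((hφ i j hij).2).mono (interior_mono (Set.image_mono Set.inter_subset_left))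
      (interior_mono (Set.image_mono Set.inter_subset_left))

/-- **The boundedness requirement does not change the answer.** In every dimension (in particular
in dimension three) a number `m` of pairwise touching congruent copies is possible for some closed
convex set with nonempty interior exactly when it is possible for some convex body, and
`N' = N`. -/
theorem result :
    (∀ d m : ℕ, (∃ K : Set (E d), IsClosedConvexSolid K ∧ HasTouchingCopies K m) ↔
      ∃ K : Set (E d), IsConvexBody K ∧ HasTouchingCopies K m) ∧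
    (∀ d : ℕ, N' d = N d) ∧ N' 3 = N 3 := by
  have h1 : ∀ d m : ℕ, (∃ K : Set (E d), IsClosedConvexSolid K ∧ HasTouchingCopies K m) ↔
      ∃ K : Set (E d), IsConvexBody K ∧ HasTouchingCopies K m := by
    intro d m
    constructor
    · rintro ⟨K, hK, h⟩
      exact truncate K hK m h
    · rintro ⟨K, ⟨hK1, hK2, hK3⟩, h⟩
      exact ⟨K, ⟨hK1.isClosed, hK2, hK3⟩, h⟩
  have h2 : ∀ d : ℕ, N' d = N d := by
    intro d
    apply le_antisymm
    · refine iSup₂_le fun K hK => iSup₂_le fun m hm => ?_
      obtain ⟨K', hK', hm'⟩ := (h1 d m).1 ⟨K, hK, hm⟩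
      exact (le_iSup₂ (f := fun (m : ℕ) (_ : HasTouchingCopies K' m) => (m : ℕ∞)) m hm').trans
        (le_iSup₂ (f := fun (K : Set (E d)) (_ : IsConvexBody K) => t K) K' hK')
    · refine iSup₂_le fun K hK => ?_
      exact le_iSup₂ (f := fun (K : Set (E d)) (_ : IsClosedConvexSolid K) => t K) K
        ⟨hK.1.isClosed, hK.2.1, hK.2.2⟩
  exact ⟨h1, h2, h2 3⟩

end Pool.Agent.Results.MP_644a98_co.SameForUnbounded
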