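import Pool.Agent.Q173.OS.Trans

/-!
# MP_6451f1_ag: the p-adic monodromy-weight conjecture and the potentially crystalline part

`K` is a finite extension of `ℚ_p` with residue field with `q` elements. `T : Theory K Ω` is the
`p`-adic theory: for the smooth proper variety `X` over `K` (a scheme of Mathlib) `T.H X` consists of
the spaces `H^m_pst(X)` (coefficients extended to an algebraically closed field `Ω`) with `N` and the
linear action `F` of an element `g` of the Weil group which induces the geometric Frobenius. `IsLocal`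
are the known properties: `N F = q F N`, `F` has Weil numbers of integral weights, `H^m` is self-dual
up to a twist, Künneth formula. `Ker N` is the potentially crystalline part of `H^j`: the union of the
spaces `D_cris` of `H^j(X)` over the finite extensions of `K`.

Let `E` be a Tate curve (`IsTest` lists the known properties used). The conjecture for `X` and all `m`
is equivalent to the one-sided bound

  weights of `F` on the potentially crystalline part of `H^j(Y) ≤ j + n`  for all `j`

for `Y = (X × E^k)^(n + 1)`, `n ≥ 0` arbitrary, if the conjecture for `X` is known above `k + 1` (for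
instance `k + 1 = dim X`), and to the bound `j + 2 n + 1` for `Y = (X × X)^(n + 1)`. It holds for all
`X` of dimension `≥ 1` if and only if the weights of the potentially crystalline part of `H^j(Y)` are at most
`j + o(dim Y)`.

If the `ℓ`-adic conjecture holds for `X` and one prime number `ℓ ≠ p`, the `p`-adic conjecture for `X`
holds if and only if the eigenvalues of `F` of weight `> j + n` on the potentially crystalline part of
`H^j(Y)` are also eigenvalues of `F` on the kernel of `N` on the `ℓ`-adic `H^j(Y)`; in particular if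
the `p`-adic and the `ℓ`-adic local `L`-factors of `X × E^k` (or of `X × X`) are equal.
-/

set_option autoImplicit false

open Module

universe u v w

namespace Pool.Agent.Results.MP_6451f1_ag.CrystallinePart

open Pool.Agent.H914 Pool.Agent.Y143 Pool.Agent.Y163.MW Pool.Agent.Q57.WM Pool.Agent.Q173.OS

section

variable {K : Type u} [Field K] {Ω : Type w} [Field Ω] [CharZero Ω]

/-- The monodromy-weight conjecture for `X` and the theory `T`. -/
def MW (T : Theory.{u, v, w} K Ω) (q : ℕ) (X : SmVar.{u} K) : Prop := ∀ m, (T.H X).MWPure q m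

/-- One degree `m`: if the conjecture for `H^m(X)` is known above `k + 1`, and the weights of the
potentially crystalline part of `H^((n + 1) (m + a))(Y)`, `Y = (X × E^k)^(n + 1)`, are at most
`(n + 1) (m + a) + n` for the `a ≤ k`, then the conjecture holds for `H^m(X)`. -/
def OneDegree (T : Theory.{u, v, w} K Ω) (q : ℕ) : Prop :=
  ∀ (X E : SmVar.{u} K), IsTest (T.H E) q → ∀ m k n : ℕ, WMAbove (T.H X) q m (k + 1) →
    (∀ a ≤ k, InvBoundDeg (T.H (pow (stack X E k) n)) q ((n + 1) * (m + a)) n) →
      (T.H X).MWPure q m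

/-- All degrees, `Y = (X × E^k)^(n + 1)`. -/
def TateCurve (T : Theory.{u, v, w} K Ω) (q : ℕ) : Prop :=
  ∀ (X E : SmVar.{u} K), IsTest (T.H E) q → ∀ k : ℕ, (∀ m, WMAbove (T.H X) q m (k + 1)) →
    ∀ n : ℕ, MW T q X ↔ InvBound (T.H (pow (stack X E k) n)) q n

/-- All degrees, `Y = (X × X)^(n + 1)`. -/
def Squares (T : Theory.{u, v, w} K Ω) (q : ℕ) : Prop :=
  ∀ (X : SmVar.{u} K) (n : ℕ), MW T q X ↔ InvBound (T.H (pow (X.prod X) n)) q (2 * n + 1)

/-- All varieties. -/
def Uniform (T : Theory.{u, v, w} K Ω) (q : ℕ) : Prop :=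
  (∀ X : SmVar.{u} K, 1 ≤ X.dim → MW T q X) ↔
    ∀ ε : ℝ, 0 < ε → ∃ D : ℕ, ∀ Y : SmVar.{u} K, D ≤ Y.dim → InvBound (T.H Y) q ⌊ε * Y.dim⌋

/-- From the `ℓ`-adic theory `T'` to the `p`-adic theory `T`. -/
def FromEll (T T' : Theory.{u, v, w} K Ω) (q : ℕ) : Prop :=
  (∀ (X E : SmVar.{u} K), IsTest (T.H E) q → IsTest (T'.H E) q → ∀ k : ℕ,
    (∀ m, WMAbove (T.H X) q m (k + 1)) → MW T' q X → ∀ n : ℕ,
      (MW T q X ↔ PolesAmong (T.H (pow (stack X E k) n)) (T'.H (pow (stack X E k) n)) q n)) ∧
  ∀ (X : SmVar.{u} K), MW T' q X → ∀ n : ℕ,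
    (MW T q X ↔ PolesAmong (T.H (pow (X.prod X) n)) (T'.H (pow (X.prod X) n)) q (2 * n + 1))

end

/-- **The p-adic monodromy-weight conjecture and the potentially crystalline part.** -/
theorem result {K : Type u} [Field K] {Ω : Type w} [Field Ω] [CharZero Ω] [IsAlgClosed Ω]
    {T T' : Theory.{u, v, w} K Ω} {q : ℕ} (hq : 1 < q) (hT : T.IsLocal q) (hT' : T'.IsLocal q) :
    OneDegree T q ∧ TateCurve T q ∧ Squares T q ∧ Uniform T q ∧ FromEll T T' q := by
  refine ⟨fun X E hE m k n hk h => pure_of_stack hq hT hE hk n h, ?_, ?_, sublinear_iff hq hT,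
    ?_, ?_⟩
  · intro X E hE k hk n
    exact ⟨fun h => (bound_stack hq hT hE h k n).mono (by omega),
      fun h m => pure_of_stack hq hT hE (hk m) n fun a _ => h _⟩
  · intro X n
    exact ⟨fun h => (bound_square hq hT h n).mono (by omega),
      fun h m => pure_of_square hq hT n (h _)⟩
  · intro X E hE hE' k hk h' n
    exact transfer_stack hq hT hT' hE hE' hk h' n
  · intro X h' n
    exact transfer_square hq hT hT' h' n

end Pool.Agent.Results.MP_6451f1_ag.CrystallinePart
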