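import Pool.Agent.Q173.OS.Trans

/-!
# MP_6451f1_ag: from the l-adic to the p-adic monodromy-weight conjecture

`K` is a finite extension of `ℚ_p` with residue field with `q` elements. `T : Theory K Ω` is the
`p`-adic theory: for the smooth proper variety `X` over `K` (a scheme of Mathlib) `T.H X` consists of
the spaces `H^m_pst(X)` (coefficients extended to an algebraically closed field `Ω`) with `N` and the
linear action `F` of an element `g` of the Weil group which induces the geometric Frobenius; `T'` is
the `ℓ`-adic theory for one prime number `ℓ ≠ p`, with coefficients extended to the same field. `IsLocal`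
are the known properties: `N F = q F N`, `F` has Weil numbers of integral weights, `H^m` is self-dual
up to a twist, Künneth formula. `Ker N` is, in the `p`-adic case, the potentially crystalline part of
`H^j`: the union of the spaces `D_cris` of `H^j(X)` over the finite extensions of `K`.

If the `ℓ`-adic conjecture holds for `X`, the `p`-adic conjecture for `X` holds if and only if the
eigenvalues of `F` of weight `> j + n` on the potentially crystalline part of `H^j(Y)` are also
eigenvalues of `F` on the kernel of `N` on the `ℓ`-adic `H^j(Y)`, for all `j` and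
`Y = (X × E^k)^(n + 1)`, where `E` is a Tate curve (`IsTest` lists the known properties used) and the
`p`-adic conjecture for `X` is known above `k + 1`; or those of weight `> j + 2 n + 1`, for
`Y = (X × X)^(n + 1)`. In particular it is sufficient that the `p`-adic and the `ℓ`-adic local
`L`-factors of `X × E^k` (or of `X × X`) are equal.
-/

set_option autoImplicit false

open Module

universe u v w

namespace Pool.Agent.Results.MP_6451f1_ag.FromEllAdic

open Pool.Agent.H914 Pool.Agent.Y143 Pool.Agent.Y163.MW Pool.Agent.Q57.WM Pool.Agent.Q173.OS

section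

variable {K : Type u} [Field K] {Ω : Type w} [Field Ω] [CharZero Ω]

/-- The monodromy-weight conjecture for `X` and the theory `T`. -/
def MW (T : Theory.{u, v, w} K Ω) (q : ℕ) (X : SmVar.{u} K) : Prop := ∀ m, (T.H X).MWPure q m

/-- From the `ℓ`-adic theory `T'` to the `p`-adic theory `T`, through the varieties `(X × E^k)^(n + 1)`. -/
def ThroughTateCurve (T T' : Theory.{u, v, w} K Ω) (q : ℕ) : Prop :=
  ∀ (X E : SmVar.{u} K), IsTest (T.H E) q → IsTest (T'.H E) q → ∀ k : ℕ,
    (∀ m, WMAbove (T.H X) q m (k + 1)) → MW T' q X → ∀ n : ℕ,
      (MW T q X ↔ PolesAmong (T.H (pow (stack X E k) n)) (T'.H (pow (stack X E k) n)) q n)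

/-- From the `ℓ`-adic theory `T'` to the `p`-adic theory `T`, through the varieties `(X × X)^(n + 1)`. -/
def ThroughSquare (T T' : Theory.{u, v, w} K Ω) (q : ℕ) : Prop :=
  ∀ (X : SmVar.{u} K), MW T' q X → ∀ n : ℕ,
    (MW T q X ↔ PolesAmong (T.H (pow (X.prod X) n)) (T'.H (pow (X.prod X) n)) q (2 * n + 1))

end

/-- **From the l-adic to the p-adic monodromy-weight conjecture.** -/
theorem result {K : Type u} [Field K] {Ω : Type w} [Field Ω] [CharZero Ω] [IsAlgClosed Ω]
    {T T' : Theory.{u, v, w} K Ω} {q : ℕ} (hq : 1 < q) (hT : T.IsLocal q) (hT' : T'.IsLocal q) :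
    ThroughTateCurve T T' q ∧ ThroughSquare T T' q := by
  constructor
  · intro X E hE hE' k hk h' n
    exact transfer_stack hq hT hT' hE hE' hk h' n
  · intro X h' n
    exact transfer_square hq hT hT' h' n

end Pool.Agent.Results.MP_6451f1_ag.FromEllAdic
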