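import Pool.Agent.Q57.WM.Fam
import Pool.Agent.Q57.PL.Slopes

/-!
# MP_6451f1_ag: the Jordan type of `N` on the `p`-adic cohomology, slopes, Hodge numbers and weights

`PTheory K Ω` is the cohomology `H^m = H^m_pst(X)` of the smooth proper varieties over the `p`-adic
field `K` (after a finite extension of `K`, scalars extended to the algebraically closed field `Ω`),
with the linear Frobenius `F`, the monodromy operator `N`, the Hodge numbers and the `p`-adic
valuation, and its known properties `IsPLocal`. The varieties `SmVar K` are schemes of Mathlib.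

We show that the sum of the ranks of the powers `N ^ r`, `r > k`, on `H^m` is bounded by the slopes of
the Frobenius and by the Hodge numbers, for all `X`, `m` and `k`. If the characteristic polynomials of
the Frobenius on the groups `H^j`, `j ≠ m`, are rational, then the weights are in between and the
conjecture for `H^m` in the range above `k` is an equality; in particular it holds if the ranks reach
the bound given by the Hodge numbers, or if it holds for the `ℓ`-adic cohomology and the ranks are the
same.
-/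

set_option autoImplicit false

open Module

universe u v w

namespace Pool.Agent.Results.MP_6451f1_ag.JordanTypeAndHodgeNumbers

open Pool.Agent.H914 Pool.Agent.Y163.MW Pool.Agent.Y143 Pool.Agent.Y163.MX Pool.Agent.Q57.WM

section

variable {K : Type u} [Field K] {Ω : Type w} [Field Ω] [CharZero Ω]

/-- The Jordan type of `N`, slopes and Hodge numbers: for all `X`, `m`, `k`
`∑_{r > k} rank (N ^ r) ≤ ∑_λ (2 (2 λ - m - k) - 1)^+ ≤ ∑_{a + b = m} (2 (a - b - k) - 1)^+ h^(a, b)`. -/
def Bounds (T : PTheory.{u, v, w} K Ω) : Prop :=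
  ∀ (X : SmVar.{u} K) (m k : ℕ),
    (rankTail (T.H X) m k : ℝ) ≤ slopeTail (T.H X) T.val m k ∧
    slopeTail (T.H X) T.val m k ≤ (hodgeTail m k (T.hodge X m) : ℝ)

/-- The weights: `∑_{r > k} rank (N ^ r) ≤ ∑_w (2 (w - m - k) - 1)^+ ≤ ∑_λ (2 (2 λ - m - k) - 1)^+` for
all `k`. -/
def Weights (T : PTheory.{u, v, w} K Ω) (q : ℕ) (X : SmVar.{u} K) (m : ℕ) : Prop :=
  ∀ k : ℕ, rankTail (T.H X) m k ≤ weightTail (T.H X) q m k ∧
    (weightTail (T.H X) q m k : ℝ) ≤ slopeTail (T.H X) T.val m k

/-- The conjecture for `H^m` above `k` is the equality of the first two sums, and the conjecture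
above `0` is the conjecture. -/
def Criterion (T : PTheory.{u, v, w} K Ω) (q : ℕ) (X : SmVar.{u} K) (m : ℕ) : Prop :=
  (∀ k : ℕ, WMAbove (T.H X) q m k ↔ rankTail (T.H X) m k = weightTail (T.H X) q m k) ∧
    (WMAbove (T.H X) q m 0 ↔ (T.H X).MWPure q m)

/-- The conjecture for `H^m` holds above `k` if the ranks reach the bound given by the Hodge
numbers. -/
def Maximal (T : PTheory.{u, v, w} K Ω) (q : ℕ) (X : SmVar.{u} K) (m : ℕ) : Prop :=
  ∀ k : ℕ, hodgeTail m k (T.hodge X m) ≤ rankTail (T.H X) m k → WMAbove (T.H X) q m k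

/-- Comparison with another theory (`ℓ`-adic cohomology) `R` with the same characteristic polynomial
of the Frobenius on `H^m`: if the conjecture holds for `R` above `k` then the ranks of the powers of
`N` on `H^m(X)` are at most the ranks for `R`, and the conjecture for `H^m(X)` above `k` is the
equality. -/
def Transfer (T : PTheory.{u, v, w} K Ω) (q : ℕ) (X : SmVar.{u} K) (m : ℕ) : Prop :=
  ∀ R : Coh.{v, w} Ω, R.IsCoh q → charP R m = charP (T.H X) m → ∀ k : ℕ, WMAbove R q m k →
    rankTail (T.H X) m k ≤ rankTail R m k ∧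
      (WMAbove (T.H X) q m k ↔ rankTail (T.H X) m k = rankTail R m k)

end

/-- **The Jordan type of `N` on the `p`-adic cohomology, slopes, Hodge numbers and weights.** -/
theorem result {K : Type u} [Field K] {Ω : Type w} [Field Ω] [CharZero Ω] [IsAlgClosed Ω]
    {T : PTheory.{u, v, w} K Ω} {q : ℕ} (hq : 1 < q) (hT : T.IsPLocal q) :
    Bounds T ∧ (∀ (X : SmVar.{u} K) (m : ℕ), Criterion T q X m ∧ Transfer T q X m) ∧
      ∀ (X : SmVar.{u} K) (m : ℕ), m ≤ 2 * X.dim → GoodOutside (T.H X) q (2 * X.dim) m →
        Weights T q X m ∧ Maximal T q X m := by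
  have hb : Bounds T := fun X m k =>
    ⟨Pool.Agent.Q57.PL.rank_le_slope hq (hT.coh X) hT.val m k, slope_le_hodge (hT.polygons X m) k⟩
  have hcrit : ∀ (X : SmVar.{u} K) (m : ℕ), Criterion T q X m := fun X m =>
    ⟨fun k => (tail_deg hq (hT.coh X) m k).2.symm, wmAbove_zero hq (hT.coh X) m⟩
  refine ⟨hb, fun X m => ⟨hcrit X m, ?_⟩, fun X m hm hX => ?_⟩
  · intro R hR hch k hk
    have h1 : weightTail R q m k = weightTail (T.H X) q m k :=
      weightTail_congr hq hR (hT.coh X) hch k
    have h2 := (tail_deg hq hR m k).2.2 hk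
    have h3 := (tail_deg hq (hT.coh X) m k).1
    refine ⟨by omega, ?_⟩
    rw [(hcrit X m).1 k]
    omega
  · have hrat := rational_of_good (hT.coh X) hm (hT.rational X) hX
    have hw : Weights T q X m := fun k =>
      ⟨(tail_deg hq (hT.coh X) m k).1, weight_le_slope hq (hT.coh X) hrat hT.val k⟩
    refine ⟨hw, fun k h => ?_⟩
    rw [(hcrit X m).1 k]
    have h1 := (hw k).2.trans (hb X m k).2
    have h2 : weightTail (T.H X) q m k ≤ hodgeTail m k (T.hodge X m) := by exact_mod_cast h1
    have h3 := (hw k).1
    omega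

end Pool.Agent.Results.MP_6451f1_ag.JordanTypeAndHodgeNumbers
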