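import Pool.Agent.Q72.SH.Per

/-!
MP_64ff02_ag, Q1: Zariski-dense entire curves with given hyperplane sections in quasi-projective
varieties of log general type.
-/

set_option autoImplicit false

namespace Pool.Agent.Results.MP_64ff02_ag.GivenSectionsLog

open MvPolynomial Set
open Pool.Agent.W602.GT Pool.Agent.TH143 Pool.Agent.TH143.GT Pool.Agent.W603.BPR
  Pool.Agent.W603.GR Pool.Agent.Q72.SH

/-- For all `n` and `d` there is a number `M` such that the following is true for all
quasi-projective varieties `X` of log general type which are complements of hypersurfaces `Q = 0` of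
degree at most `d` in closed subvarieties of `P^n` whose ideals `p` are generated by forms of
degrees at most `d`. Here `K` is the function field and `y` the generic point of `X`, and entire
curves are given by homogeneous coordinates.

(1) Among any `M + 1` Zariski-dense entire curves in `X` that have the same intersections, with
multiplicities, with the `n + 1` coordinate hyperplanes, two coincide.

Let `f` be a Zariski-dense entire curve in `X`. (2) Among any `M + 1` affine substitutions
`z ↦ a z + b`, `a ≠ 0`, that leave the intersections of `f` with the coordinate hyperplanes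
invariant there are two, `σ` and `τ`, with `f ∘ σ = f ∘ τ`. (3) If the translation by `b` leaves
these intersections invariant then `k b` is a period of `f` for some `0 < k ≤ M`. (4) If the
substitution `z ↦ a z + b` leaves them invariant then `a` is a root of unity. (5) All translations
that leave them invariant are translations by rational multiples of one complex number. -/
theorem result (n d : ℕ) : ∃ M : ℕ, ∀ (p : Ideal (MvPolynomial (Fin (n + 1)) ℂ))
    (S : Set (MvPolynomial (Fin (n + 1)) ℂ)), p = Ideal.span S →
    (∀ F ∈ S, ∃ e ≤ d, F.IsHomogeneous e) →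
    ∀ (Q : MvPolynomial (Fin (n + 1)) ℂ) (q : ℕ), q ≤ d → Q.IsHomogeneous q →
    ∀ (K : Type) [Field K] [Algebra ℂ K] (w : ℕ) (y : Fin (n + 1) → K), FunField p Q K w y →
    LogGeneralType ℂ K w (OffQ Q q y) →
    (∀ g : Fin (M + 1) → ℂ → Fin (n + 1) → ℂ, (∀ s, EntireCurve p Q (g s)) →
      (∀ s, ZDense p (g s) univ) → (∀ s t, SameSections (g s) (g t)) →
      ∃ s t, s ≠ t ∧ SameCurve (g s) (g t)) ∧
    ∀ f, EntireCurve p Q f → ZDense p f univ →
      (∀ σ : Fin (M + 1) → ℂ → ℂ, (∀ s, Aff (σ s)) →
        (∀ s, SameSections (fun z => f (σ s z)) f) →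
        ∃ s t, s ≠ t ∧ SameCurve (fun z => f (σ s z)) fun z => f (σ t z)) ∧
      (∀ b, SameSections (fun z => f (z + b)) f →
        ∃ k : ℕ, 0 < k ∧ k ≤ M ∧ SameCurve (fun z => f (z + k * b)) f) ∧
      (∀ a b, a ≠ 0 → SameSections (fun z => f (a * z + b)) f → ∃ k : ℕ, 0 < k ∧ a ^ k = 1) ∧
      ∃ c : ℂ, ∀ b, SameSections (fun z => f (z + b)) f → ∃ r : ℚ, b = r * c := by
  obtain ⟨M, hM⟩ := main n d
  refine ⟨M, fun p S hp hS Q q hq hQ K _ _ w y hy hgt => ?_⟩
  have hB : Bd M p Q := by
    intro g hg hd hs
    by_contra hcon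
    push Not at hcon
    obtain ⟨r, hr⟩ := hM p Q q hq hQ S hp hS K w y hy g hg hd hs fun s t h => by
      by_contra hne
      exact hcon s t hne h
    exact hr (Pool.Agent.TH143.DE.flat_gt hy hQ hgt r)
  refine ⟨hB, fun f hf hd => ⟨fun σ hσ h => hB.index hf hd σ hσ h, fun b hb => ?_,
    fun a b ha h => hB.root hf hd ha h,
    periods hB hf hd fun ω₁ ω₂ h1 h2 => no_torus hy hQ hgt hf hd h1 h2⟩⟩
  obtain ⟨k, hk, hkM, h1⟩ := hB.iter hf hd (σ := fun z => z + b)
    ⟨1, b, one_ne_zero, fun z => by rw [one_mul]⟩ hb
  refine ⟨k, hk, hkM, fun z => ?_⟩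
  have h2 := h1 z
  simp only [add_iter] at h2
  exact h2

end Pool.Agent.Results.MP_64ff02_ag.GivenSectionsLog
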