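import Pool.Agent.Q64.LC.Main

/-!
# Holomorphic curves with isolated blocks of exponents in quasi-projective varieties

Let `X` be the projective variety with the ideal `p`, the function field `K` and the generic point
`y`, and let `Q` be a form of positive degree `q`, which does not vanish on `X`. Every entire curve
in `X - {Q = 0}` is given by entire functions `f` such that `Q (f)` is constant. If the variety
`X - {Q = 0}` has a nonzero logarithmic pluricanonical form (this is the case if it is of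
logarithmic general type), then there is one hypersurface section `G = 0` of `X`, different from
`X`, which contains all affine lines in `X - {Q = 0}` and all holomorphic curves `f` in
`X - {Q = 0}` on discs or on the plane, with `Q (f)` constant, such that the power series
`f = ∑ z ^ i a i` has infinitely many nonzero isolated blocks of exponents.
-/

set_option autoImplicit false

namespace Pool.Agent.Results.MP_64ff02_ag.IsolatedBlocksLog

open MvPolynomial Pool.Agent.TH143.GT Pool.Agent.W602.GT Pool.Agent.W603.GR Pool.Agent.Q64.LC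

theorem result {n w q : ℕ} {p : Ideal (MvPolynomial (Fin (n + 1)) ℂ)}
    {Q : MvPolynomial (Fin (n + 1)) ℂ} (hQ : Q.IsHomogeneous q) (hq : 0 < q) {K : Type} [Field K]
    [Algebra ℂ K] {y : Fin (n + 1) → K} (hy : FunField p Q K w y)
    (h : ¬ Covered K ∨ ∃ N : ℕ, 0 < N ∧ ∃ ω : (Fin w → Derivation ℂ K K) → K,
      LogSec ℂ K w N (OffQ Q q y) ω ∧ ω ≠ 0) :
    ∃ G : MvPolynomial (Fin (n + 1)) ℂ, IsForm G ∧ G ∉ p ∧
      (∀ x v, Line p Q x v → ∀ t : ℂ, eval (x + t • v) G = 0) ∧
      ∀ D : ℕ, 1 ≤ D → q ≤ D → CutBy D p → ∀ (r : ℝ) (a : ℕ → Fin (n + 1) → ℂ)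
        (f : ℂ → Fin (n + 1) → ℂ), Curve p Q r a f →
        (∀ L : ℕ, ∃ β γ, L ≤ γ ∧ IsoBlock D a β γ ∧ ∃ i ∈ Finset.Icc β γ, a i ≠ 0) →
        ∀ z : ℂ, ‖z‖ < r → eval (f z) G = 0 := by
  have hG : ∃ G, IsForm G ∧ G ∉ p ∧ ∀ x v, Line p Q x v → ∀ t : ℂ, eval (x + t • v) G = 0 := by
    by_contra hno
    obtain ⟨h1, h2⟩ := lines_main hy hQ hno
    rcases h with h | ⟨N, hN, ω, hω, hω0⟩
    · exact h h1
    · exact hω0 (h2 N hN ω hω)
  obtain ⟨G, hG1, hG2, hG3⟩ := hG
  refine ⟨G, hG1, hG2, hG3, fun D hD hqD hcut r a f hf hb z hz =>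
    vanish hD hQ hqD hcut hG3 hf (fun L => ?_) hz⟩
  obtain ⟨β, γ, hL, hI, hne⟩ := hb L
  exact ⟨β, γ, hL, hI, moving_of_ne hD hQ hq hqD hf hI hne⟩

end Pool.Agent.Results.MP_64ff02_ag.IsolatedBlocksLog
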