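import Mathlib
import Pool.Agent.Q273.ApxF
import Pool.Agent.Results.MP_651af7_nt.ReducedDivisors

/-!
# Vojta's inequality for algebraic points of degree `r` at the good approximations of almost all points

`Y` is a metric space and `ψ` a map to `Y` from the algebraic numbers, considered as complex numbers,
for instance the inclusion in `ℂ` or an embedding in an algebraic closure of `ℚ_p`. For all `ξ ∈ Y`
outside one set of small Hausdorff dimension all but finitely many of the algebraic numbers `x` of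
degree `r` with `dist(ξ, ψ(x)) ≤ A H(x) ^ (-τ)` satisfy Vojta's inequality, for all reduced divisors
`D` of the projective line over `ℚ`, all finite sets of places and all constants.

A reduced effective divisor of degree `q` over `ℚ` is given by a squarefree `G ∈ ℤ[T]` of degree
`q` or `q - 1`: `D = div₀(G) + (q - deg G) ∞`.
-/

set_option autoImplicit false

namespace Pool.Agent.Results.MP_651af7_nt.GoodApproximations

open Polynomial IntermediateField

/-- The absolute logarithmic height `(log M(f)) / deg f` of the roots of an irreducible primitive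
`f` (`M` is the Mahler measure). -/
noncomputable def height (f : ℤ[X]) : ℝ :=
  Real.log (f.map (Int.castRingHom ℂ)).mahlerMeasure / f.natDegree

/-- `λ_{D,∞}(x)` for the divisor `D` of degree `q` given by `G`: the average over the conjugates
`z` of `x`, i.e. the roots of `f`, of `log (max(1,|z|)^q / |G(z)|)`. -/
noncomputable def lambdaInf (G : ℤ[X]) (q : ℕ) (f : ℤ[X]) : ℝ :=
  ((f.map (Int.castRingHom ℂ)).roots.map fun z =>
    Real.log (max 1 ‖z‖ ^ q / ‖(G.map (Int.castRingHom ℂ)).eval z‖)).sum / f.natDegree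

/-- `λ_{D,p}(x)`, the average over the conjugates `z` of `x` over `ℚ_p` of
`log (max(1,|z|_p)^q / |G(z)|_p)`; for primitive `f` the sum over the conjugates is
`-log |Res(f,G)|_p`, with `Res` the resultant for the degrees `deg f` and `q`. -/
noncomputable def lambdaP (p : ℕ) (G : ℤ[X]) (q : ℕ) (f : ℤ[X]) : ℝ :=
  (padicValInt p (resultant f G f.natDegree q) : ℝ) * Real.log p / f.natDegree

open Classical in
/-- The logarithmic discriminant `d(x)` of the field `ℚ(x)`. -/
noncomputable def logDisc (x : ℂ) : ℝ :=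
  if _ : NumberField ℚ⟮x⟯ then
    Real.log |(NumberField.discr ℚ⟮x⟯ : ℝ)| / Module.finrank ℚ ℚ⟮x⟯ else 0

/-- `G` gives a reduced effective divisor of degree `q ≥ 1`, and `S` is a set of primes -/
def IsPair (q : ℕ) (G : ℤ[X]) (S : Finset ℕ) : Prop :=
  1 ≤ q ∧ Squarefree (G.map (Int.castRingHom ℚ)) ∧ G.natDegree ≤ q ∧ q ≤ G.natDegree + 1 ∧
    ∀ p ∈ S, p.Prime

/-- the algebraic numbers `x` of degree `r`, not in the support of `D`, with
`dist(ξ, ψ(x)) ≤ A H(x) ^ (-τ)`, `H(x) = exp h(x)`, which violate the inequality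
`∑_{v ∈ S ∪ {∞}} λ_{D,v}(x) + h_K(x) - d(x) ≤ ε h(x) + c`, with `h_K = -2 h`; `f` is the minimal
polynomial of `x` over `ℤ` -/
def BadApproximations {Y : Type} [MetricSpace Y] (ψ : ℂ → Y) (ξ : Y) (r : ℕ) (τ A : ℝ) (q : ℕ)
    (G : ℤ[X]) (S : Finset ℕ) (ε c : ℝ) : Set ℂ :=
  {x | ∃ f : ℤ[X], Irreducible f ∧ f.natDegree = r ∧ aeval x f = 0 ∧ aeval x G ≠ 0 ∧
    dist ξ (ψ x) ≤ A * (Real.exp (height f)) ^ (-τ) ∧
    ¬ (lambdaInf G q f + ∑ p ∈ S, lambdaP p G q f + (-2) * height f - logDisc x ≤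
      ε * height f + c)}

/-- the height depends only on the algebraic number -/
private theorem height_unique {f g : ℤ[X]} {x : ℂ} (hf : Irreducible f) (hg : Irreducible g)
    (hfd : 1 ≤ f.natDegree) (hgd : 1 ≤ g.natDegree) (hfx : aeval x f = 0) (hgx : aeval x g = 0) :
    height f = height g := by
  have hprim : ∀ f : ℤ[X], Irreducible f → 1 ≤ f.natDegree → aeval x f = 0 →
      f.IsPrimitive ∧ Associated (minpoly ℚ x) (f.map (algebraMap ℤ ℚ)) := by
    intro f hf hd hx
    have hp : f.IsPrimitive := hf.isPrimitive (by omega)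
    have hirr : Irreducible (f.map (algebraMap ℤ ℚ)) :=
      (hp.irreducible_iff_irreducible_map_fraction_map).1 hf
    have hz : aeval x (f.map (algebraMap ℤ ℚ)) = 0 := by rw [aeval_map_algebraMap]; exact hx
    have hint : IsIntegral ℚ x := by
      rw [← isAlgebraic_iff_isIntegral]
      exact ⟨f.map (algebraMap ℤ ℚ), hirr.ne_zero, hz⟩
    exact ⟨hp, (minpoly.irreducible hint).associated_of_dvd hirr (minpoly.dvd ℚ x hz)⟩
  obtain ⟨hf1, hf2⟩ := hprim f hf hfd hfx
  obtain ⟨hg1, hg2⟩ := hprim g hg hgd hgx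
  have h1 : f ∣ g := (hf1.dvd_iff_fraction_map_dvd_fraction_map ℚ).2
    (hf2.symm.trans hg2).dvd
  have h2 : g ∣ f := (hg1.dvd_iff_fraction_map_dvd_fraction_map ℚ).2
    (hg2.symm.trans hf2).dvd
  obtain ⟨u, hu⟩ := associated_of_dvd_dvd h1 h2
  obtain ⟨a, ha, hau⟩ := Polynomial.isUnit_iff.1 u.isUnit
  have hnorm : ‖((a : ℤ) : ℂ)‖ = 1 := by
    rcases Int.isUnit_iff.1 ha with h | h
    · rw [h]; simp
    · rw [h]; simp
  have ha0 : a ≠ 0 := ha.ne_zero
  have hM : (g.map (Int.castRingHom ℂ)).mahlerMeasure =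
      (f.map (Int.castRingHom ℂ)).mahlerMeasure := by
    rw [← hu, ← hau, Polynomial.map_mul, mahlerMeasure_mul, Polynomial.map_C,
      mahlerMeasure_const]
    have : ‖(Int.castRingHom ℂ) a‖ = 1 := hnorm
    rw [this, mul_one]
  have hdeg : g.natDegree = f.natDegree := by
    rw [← hu, ← hau, natDegree_mul_C ha0]
  unfold height
  rw [hM, hdeg]

open Classical in
/-- the height of an algebraic number of degree `r` -/
private noncomputable def hx (r : ℕ) (x : ℂ) : ℝ :=
  if h : ∃ f : ℤ[X], Irreducible f ∧ f.natDegree = r ∧ aeval x f = 0 then height h.choose else 0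

private theorem hx_eq {r : ℕ} (hr : 1 ≤ r) {f : ℤ[X]} {x : ℂ} (hf : Irreducible f)
    (hfd : f.natDegree = r) (hfx : aeval x f = 0) : hx r x = height f := by
  have h : ∃ f : ℤ[X], Irreducible f ∧ f.natDegree = r ∧ aeval x f = 0 := ⟨f, hf, hfd, hfx⟩
  unfold hx
  rw [dif_pos h]
  obtain ⟨h1, h2, h3⟩ := h.choose_spec
  exact height_unique h1 hf (by omega) (by omega) h3 hfx

/-- **Vojta's inequality for algebraic points of degree `r` at the good approximations of almost all
points.** Let `r ≥ 1`, `Y` a metric space, `ψ : ℂ → Y` a map, `ε ≥ -2` and `τ > 0`. There is a set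
`E ⊆ Y` of Hausdorff dimension at most `(r² + r max (0, 1 - (2 + ε) / r)) / τ` such that for each
`ξ ∈ Y` outside `E`, every reduced effective divisor `D` of the projective line over `ℚ`, every
finite set `S` of primes and all real `A`, `c`, all but finitely many algebraic numbers `x` of degree
`r` with `dist(ξ, ψ(x)) ≤ A H(x) ^ (-τ)` outside the support of `D` satisfy
`∑_{v ∈ S ∪ {∞}} λ_{D,v}(x) + h_K(x) - d(x) ≤ ε h(x) + c`, with `h_K = -2 h`. -/
theorem result (r : ℕ) (hr : 1 ≤ r) (Y : Type) [MetricSpace Y] (ψ : ℂ → Y) (ε τ : ℝ)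
    (hε : -2 ≤ ε) (hτ : 0 < τ) :
    ∃ E : Set Y, dimH E ≤
        ENNReal.ofReal (((r : ℝ) * r + r * max 0 (1 - (2 + ε) / r)) / τ) ∧
      ∀ ξ : Y, ξ ∉ E → ∀ (q : ℕ) (G : ℤ[X]) (S : Finset ℕ), IsPair q G S → ∀ A c : ℝ,
        (BadApproximations ψ ξ r τ A q G S ε c).Finite := by
  classical
  have hr0 : (0 : ℝ) < r := by exact_mod_cast hr
  have hcountable : Countable ℤ[X] := by
    rw [← Cardinal.mk_le_aleph0_iff]
    refine (Polynomial.cardinalMk_le_max (R := ℤ)).trans ?_
    simp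
  let ι : Type := {p : ℕ × ℤ[X] × Finset ℕ // IsPair p.1 p.2.1 p.2.2} × ℕ
  let V : ι → Set ℂ := fun i => {x | ∃ f : ℤ[X], Irreducible f ∧ f.natDegree = r ∧
    aeval x f = 0 ∧ aeval x i.1.1.2.1 ≠ 0 ∧
    ¬ (lambdaInf i.1.1.2.1 i.1.1.1 f + ∑ p ∈ i.1.1.2.2, lambdaP p i.1.1.2.1 i.1.1.1 f +
      (-2) * height f - logDisc x ≤ ε * height f + -(i.2 : ℝ))}
  have hs0 : 0 ≤ (r : ℝ) * r + r * max 0 (1 - (2 + ε) / r) :=
    add_nonneg (by positivity) (mul_nonneg hr0.le (le_max_left _ _))
  obtain ⟨E, hE1, hE2⟩ := Q273.Apx.approx_family (ι := ι) V (fun x => Real.exp (hx r x)) ψ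
    (s := (r : ℝ) * r + r * max 0 (1 - (2 + ε) / r)) (τ := τ) hs0 hτ (by
      rintro ⟨⟨⟨q, G, S⟩, hq, hG, hGq, hqG, hS⟩, N⟩ δ hδ
      obtain ⟨C, hC⟩ := ReducedDivisors.result r q hr hq G hG hGq hqG S hS ε (-(N : ℝ)) δ hδ
      refine ⟨max C 0, fun X hX => ?_⟩
      apply Q273.Apx.count_of_finset
      intro F hF
      obtain ⟨T, hT1, hT2⟩ := hC X hX
      have hsub : F ⊆ T := by
        intro x hxF
        obtain ⟨⟨f, h1, h2, h3, h4, h5⟩, h6⟩ := hF hxF
        by_contra hxT
        apply h5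
        refine hT2 x f ⟨h1, h2, h3, ?_, h4⟩ hxT
        have h7 : hx r x = height f := hx_eq hr h1 h2 h3
        simp only [h7] at h6
        have h8 : height f ≤ Real.log X := (Real.le_log_iff_exp_le (by linarith)).2 h6
        exact h8
      have hcard : (F.card : ℝ) ≤ T.card := by exact_mod_cast Finset.card_le_card hsub
      refine hcard.trans (hT1.trans ?_)
      have hm0 : (0 : ℝ) < (min q r : ℕ) := by
        have : 1 ≤ min q r := le_min hq hr
        exact_mod_cast this
      have hmr : ((min q r : ℕ) : ℝ) ≤ r := by exact_mod_cast min_le_right q r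
      have hexp : (r : ℝ) * r + r * max 0 (1 - (2 + ε) / (min q r : ℕ)) + δ ≤
          (r : ℝ) * r + r * max 0 (1 - (2 + ε) / r) + δ := by
        have h1 : (2 + ε) / (r : ℝ) ≤ (2 + ε) / ((min q r : ℕ) : ℝ) :=
          div_le_div_of_nonneg_left (by linarith) hm0 hmr
        have h2 : max 0 (1 - (2 + ε) / ((min q r : ℕ) : ℝ)) ≤ max 0 (1 - (2 + ε) / (r : ℝ)) :=
          max_le_max le_rfl (by linarith)
        have h3 := mul_le_mul_of_nonneg_left h2 hr0.le
        linarith
      calc C * X ^ ((r : ℝ) * r + r * max 0 (1 - (2 + ε) / (min q r : ℕ)) + δ)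
          ≤ max C 0 * X ^ ((r : ℝ) * r + r * max 0 (1 - (2 + ε) / (min q r : ℕ)) + δ) :=
            mul_le_mul_of_nonneg_right (le_max_left _ _) (by positivity)
        _ ≤ max C 0 * X ^ ((r : ℝ) * r + r * max 0 (1 - (2 + ε) / r) + δ) :=
            mul_le_mul_of_nonneg_left (Real.rpow_le_rpow_of_exponent_le hX hexp)
              (le_max_right _ _))
  refine ⟨E, hE1, fun ξ hξ q G S h A c => ?_⟩
  obtain ⟨N, hN⟩ := exists_nat_ge (-c)
  refine (hE2 ξ hξ ⟨⟨⟨q, G, S⟩, h⟩, N⟩ A).subset ?_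
  rintro x ⟨f, h1, h2, h3, h4, h5, h6⟩
  refine ⟨⟨f, h1, h2, h3, h4, fun h => h6 (h.trans ?_)⟩, ?_⟩
  · show ε * height f + -(N : ℝ) ≤ ε * height f + c
    linarith
  · have h7 : hx r x = height f := hx_eq hr h1 h2 h3
    simp only [h7]
    exact h5

end Pool.Agent.Results.MP_651af7_nt.GoodApproximations
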