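import Pool.Agent.Q11.FM.Six
import Pool.Agent.Q11.FM.Dich
import Pool.Agent.Q11.FM.Three

/-!
# MP_65b575_al: finitely presented monsters of types (3), (4), (6) may be taken simple, and a dichotomy
for type (6)

For `k = 3` and `k = 6`, finitely presented monsters of type (k) exist if and only if simple ones do.
Monsters of type (4) are simple, and are monsters of types (2) and (3).  A monster of type (6) is a
monster of type (2) or satisfies `t h t⁻¹ = h ^ (N ^ m)` with `h` of infinite order, for every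
`N ≥ 2`, with `m` at most the number of conjugacy classes, and has exponential growth.
-/

set_option autoImplicit false

namespace Pool.Agent.Results.MP_65b575_al.SimpleMonsters

open scoped Pointwise

universe u

/-- type (2): bounded exponent -/
def T2 (G : Type u) [Group G] : Prop := ∃ n : ℕ, 1 ≤ n ∧ ∀ g : G, g ^ n = 1

/-- type (3): not cyclic, every proper subgroup is cyclic -/
def T3 (G : Type u) [Group G] : Prop := ¬ IsCyclic G ∧ ∀ H : Subgroup G, H ≠ ⊤ → IsCyclic H

/-- type (4): for some prime `p`, every nontrivial proper subgroup is cyclic of order `p` -/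
def T4 (G : Type u) [Group G] : Prop :=
  ∃ p : ℕ, p.Prime ∧ ∀ H : Subgroup G, H ≠ ⊥ → H ≠ ⊤ → IsCyclic H ∧ Nat.card H = p

/-- type (6): finitely many conjugacy classes -/
def T6 (G : Type u) [Group G] : Prop := Finite (ConjClasses G)

/-- the growth function: the number of elements of word length at most `r` with respect to `S` -/
noncomputable def growth {G : Type u} [Group G] (S : Set G) (r : ℕ) : ℕ :=
  Nat.card ↥((insert 1 (S ∪ S⁻¹)) ^ r)

/-- type (7): intermediate growth -/
def T7 (G : Type u) [Group G] : Prop :=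
  ∃ S : Set G, S.Finite ∧ Subgroup.closure S = ⊤ ∧
    (¬ ∃ C d : ℕ, ∀ r : ℕ, growth S r ≤ C * (r + 1) ^ d) ∧
    ∀ c : ℝ, 0 < c → ∃ r : ℕ, (growth S r : ℝ) < Real.exp (c * r)

/-- there is a finitely presented infinite group with property `P` -/
def FPMonster (P : ∀ (G : Type u) [Group G], Prop) : Prop :=
  ∃ (G : Type u) (_ : Group G), Infinite G ∧ Group.IsFinitelyPresented G ∧ P G

/-- for every `N ≥ 2` there are an element `h` of infinite order and an element `t` with
`t h t⁻¹ = h ^ (N ^ m)`, where `m ≥ 1` is at most the number of conjugacy classes -/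
def BaumslagSolitar (G : Type u) [Group G] : Prop :=
  ∀ N : ℕ, 2 ≤ N → ∃ m : ℕ, 1 ≤ m ∧ m ≤ Nat.card (ConjClasses G) ∧
    ∃ h t : G, ¬ IsOfFinOrder h ∧ t * h * t⁻¹ = h ^ (N ^ m)

/-- exponential growth -/
def ExpGrowth (G : Type u) [Group G] : Prop :=
  ∀ S : Set G, S.Finite → Subgroup.closure S = ⊤ →
    ∃ c : ℝ, 0 < c ∧ ∀ r : ℕ, Real.exp (c * r) ≤ growth S r

lemma fg_of_fp (G : Type u) [Group G] [h : Group.IsFinitelyPresented G] : Group.FG G := by
  obtain ⟨n, φ, hφ, -⟩ := h.out
  exact Group.fg_of_surjective hφ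

lemma fg_of_cyclic (G : Type u) [Group G] [IsCyclic G] : Group.FG G := by
  obtain ⟨g, hg⟩ := IsCyclic.exists_generator (α := G)
  rw [Group.fg_iff]
  refine ⟨{g}, ?_, Set.finite_singleton g⟩
  rw [← Subgroup.zpowers_eq_closure, eq_top_iff]
  exact fun x _ => hg x

lemma dichotomy {G : Type u} [Group G] (h6 : T6 G) : T2 G ∨ (BaumslagSolitar G ∧ ExpGrowth G) := by
  have : Finite (ConjClasses G) := h6
  by_cases h : ∀ g : G, IsOfFinOrder g
  · exact Or.inl (Q11.FM.exponent_of_torsion h)
  · push Not at h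
    obtain ⟨g, hg⟩ := h
    have h1 : BaumslagSolitar G := fun N hN => Q11.FM.bs_of_nontorsion hg hN
    refine Or.inr ⟨h1, fun S hS hgen => ?_⟩
    obtain ⟨m, hm, -, h, t, hh, ht⟩ := h1 2 le_rfl
    have hq : 2 ≤ 2 ^ m := by
      calc 2 = 2 ^ 1 := (pow_one 2).symm
        _ ≤ 2 ^ m := Nat.pow_le_pow_right (by norm_num) hm
    exact Q11.FM.exp_growth hS hgen hq ht hh

/-- (A) finitely presented monsters of type (3) exist if and only if simple ones do;
(B) an infinite finitely presented group of type (4) is simple and of types (2) and (3);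
(C) finitely presented monsters of type (6) exist if and only if simple ones do, and then there are
simple ones of type (2), or simple ones of type (6) with elements `h` of infinite order and `t` with
`t h t⁻¹ = h ^ (N ^ m)`, for all `N ≥ 2`, and with exponential growth;
(D) a monster of type (6) is of type (2), or has such elements and exponential growth, and then it is
not of type (7). -/
theorem result :
    (FPMonster.{u} (fun G _ => T3 G) ↔ FPMonster.{u} (fun G _ => T3 G ∧ IsSimpleGroup G)) ∧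
    (∀ (G : Type u) [Group G] [Infinite G] [Group.IsFinitelyPresented G], T4 G →
      IsSimpleGroup G ∧ T2 G ∧ T3 G) ∧
    (FPMonster.{u} (fun G _ => T6 G) ↔ FPMonster.{u} (fun G _ => T6 G ∧ IsSimpleGroup G)) ∧
    (FPMonster.{u} (fun G _ => T6 G) → FPMonster.{u} (fun G _ => T6 G ∧ IsSimpleGroup G ∧ T2 G) ∨
      FPMonster.{u} (fun G _ => T6 G ∧ IsSimpleGroup G ∧ BaumslagSolitar G ∧ ExpGrowth G)) ∧
    (∀ (G : Type u) [Group G], T6 G → T2 G ∨ (BaumslagSolitar G ∧ ExpGrowth G)) ∧
    (∀ (G : Type u) [Group G], T6 G → T7 G → T2 G) := by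
  have h6 : FPMonster.{u} (fun G _ => T6 G) → FPMonster.{u} (fun G _ => T6 G ∧ IsSimpleGroup G) := by
    rintro ⟨G, _, hinf, hfp, h⟩
    have : Finite (ConjClasses G) := h
    obtain ⟨N, _, _, M, _, hs, hi, hp, hc⟩ := Q11.FM.simple_of_six (G := G)
    exact ⟨N ⧸ M, inferInstance, hi, hp, hc, hs⟩
  refine ⟨⟨?_, ?_⟩, ?_, ⟨h6, ?_⟩, ?_, fun G _ h => dichotomy h, ?_⟩
  · rintro ⟨G, _, hinf, hfp, h⟩
    have h' : Q11.FM.T3 G := h
    have hfg : Group.FG G := fg_of_fp G
    obtain ⟨hc, hs, hi, h3⟩ := h'.quot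
    refine ⟨G ⧸ Subgroup.center G, inferInstance, hi, ?_, h3, hs⟩
    have : Group.FG (Subgroup.center G) := fg_of_cyclic _
    exact Group.IsFinitelyPresented.quotient _ (Subgroup.IsFinitelyNormallyGenerated.of_FG _)
  · rintro ⟨G, _, hinf, hfp, h, -⟩
    exact ⟨G, _, hinf, hfp, h⟩
  · intro G _ _ _ h
    have h' : Q11.FM.T4 G := h
    have hfg : Group.FG G := fg_of_fp G
    exact ⟨h'.simple, h'.exponent, h'.t3⟩
  · rintro ⟨G, _, hinf, hfp, h, -⟩
    exact ⟨G, _, hinf, hfp, h⟩
  · intro h
    obtain ⟨G, _, hinf, hfp, h, hs⟩ := h6 h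
    rcases dichotomy h with h2 | h2
    · exact Or.inl ⟨G, _, hinf, hfp, h, hs, h2⟩
    · exact Or.inr ⟨G, _, hinf, hfp, h, hs, h2⟩
  · rintro G _ h ⟨S, hS, hgen, -, h7⟩
    rcases dichotomy h with h2 | ⟨-, h2⟩
    · exact h2
    · exfalso
      obtain ⟨c, hc, h3⟩ := h2 S hS hgen
      obtain ⟨r, hr⟩ := h7 c hc
      exact absurd (h3 r) (not_le.2 hr)

end Pool.Agent.Results.MP_65b575_al.SimpleMonsters
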