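import Pool.Agent.Q227.CD.G4

/-!
# Admissible homomorphisms into the L-group exist over `K` if they exist over extensions of coprime
degrees

The L-group is `H ⋊[φ] Gal(K̄/K)`, where `H` is a topological group (the points of the dual group over
`ℚ̄_ℓ`) and `φ` the action.  Extensions `F` of `K` are given by the open subgroups `U = Gal(K̄/F)`,
`[F : K]` is the index of `U`; they are contained in the field `L` of the open normal subgroup `N`.
The Satake parameters of `Π` at the places `v` outside a finite set `S` are given by the sets `s v` of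
all elements of the L-group above Frobenius elements at `v` whose class is the parameter.
-/

set_option autoImplicit false

namespace Pool.Agent.Results.MP_666dc0_nt.CoprimeDescent

open NumberField IsDedekindDomain Pool.Agent.W401.Cheb

variable {K : Type} [Field K] [NumberField K] {H : Type} [Group H]

/-- the L-group -/
abbrev LG (φ : GK K →* MulAut H) : Type := H ⋊[φ] GK K

/-- the inclusion of the dual group -/
noncomputable def inH (φ : GK K →* MulAut H) : H →* LG φ := SemidirectProduct.inl

/-- the canonical section over the Galois group -/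
noncomputable def inG (φ : GK K →* MulAut H) : GK K →* LG φ := SemidirectProduct.inr

/-- the action is continuous, factors through a finite quotient, and is trivial on the inertia groups
at the places outside `S` -/
def GoodAction [TopologicalSpace H] (φ : GK K →* MulAut H) (S : Set (HeightOneSpectrum (𝓞 K))) :
    Prop :=
  IsOpen (φ.ker : Set (GK K)) ∧ (∀ γ, Continuous (φ γ)) ∧ ∀ v ∉ S, ∀ τ, IsInert v τ → φ τ = 1

/-- the sets `s v` are unions of classes: closed under conjugation, and under multiplication by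
inertia elements -/
def IsSatake {φ : GK K →* MulAut H} (S : Set (HeightOneSpectrum (𝓞 K)))
    (s : HeightOneSpectrum (𝓞 K) → Set (LG φ)) : Prop :=
  ∀ v ∉ S, (∀ x ∈ s v, ∀ y, y * x * y⁻¹ ∈ s v) ∧ ∀ x ∈ s v, ∀ τ, IsInert v τ →
    x * inG φ τ ∈ s v

/-- admissible homomorphisms of the subgroup `U`: continuous, and compatible with the projections -/
def Admissible [TopologicalSpace H] {φ : GK K →* MulAut H} {U : Subgroup (GK K)}
    (r : U →* LG φ) : Prop :=
  (∀ u, (r u).right = u) ∧ Continuous fun u => (r u).left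

/-- `r` is unramified at the places above the `v` outside `S`, and maps the Frobenius elements at
places of degree one over `v` to the Satake parameter of `Π` at `v` -/
def Attached {φ : GK K →* MulAut H} {U : Subgroup (GK K)}
    (S : Set (HeightOneSpectrum (𝓞 K))) (s : HeightOneSpectrum (𝓞 K) → Set (LG φ))
    (r : U →* LG φ) : Prop :=
  ∀ v ∉ S, (∀ σ : U, IsInert v (σ : GK K) → r σ = inG φ (σ : GK K)) ∧
    ∀ σ : U, IsFrob v (σ : GK K) → r σ ∈ s v

/-- the centralizer of `r(N)` in the dual group is commutative -/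
def CommCent {φ : GK K →* MulAut H} {U : Subgroup (GK K)} (N : Subgroup (GK K))
    (r : U →* LG φ) : Prop :=
  ∀ x y : H, (∀ u : U, (u : GK K) ∈ N → inH φ x * r u = r u * inH φ x) →
    (∀ u : U, (u : GK K) ∈ N → inH φ y * r u = r u * inH φ y) → x * y = y * x

/-- the homomorphisms are conjugate to each other on the intersections, also after conjugation by
elements `g` of the Galois group -/
def Compatible {φ : GK K →* MulAut H} {ι : Type} {U : ι → Subgroup (GK K)}
    (r : ∀ i, U i →* LG φ) : Prop :=
  ∀ i j (g : GK K), ∃ h : H, ∀ (u : U i) (hu : g * u * g⁻¹ ∈ U j),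
    r j ⟨g * u * g⁻¹, hu⟩ = (inH φ h * inG φ g) * r i u * (inH φ h * inG φ g)⁻¹

/-- `R` is admissible and the centralizer of `R(N)` is commutative -/
def Good [TopologicalSpace H] {φ : GK K →* MulAut H} (N : Subgroup (GK K))
    (R : GK K →* LG φ) : Prop :=
  (∀ g, (R g).right = g) ∧ (Continuous fun g => (R g).left) ∧
    ∀ x y : H, (∀ ν ∈ N, inH φ x * R ν = R ν * inH φ x) →
      (∀ ν ∈ N, inH φ y * R ν = R ν * inH φ y) → x * y = y * x

/-- the restriction of `R` to `U = Gal(K̄/F)` is equivalent to `r` -/
def RestrictsTo {φ : GK K →* MulAut H} (R : GK K →* LG φ) {U : Subgroup (GK K)}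
    (r : U →* LG φ) : Prop := ∃ h : H, ∀ u : U, R u = inH φ h * r u * (inH φ h)⁻¹

/-- `R` is the only common extension of the `r i`, up to equivalence -/
def Unique {φ : GK K →* MulAut H} {ι : Type} {U : ι → Subgroup (GK K)}
    (r : ∀ i, U i →* LG φ) (R : GK K →* LG φ) : Prop :=
  ∀ R' : GK K →* LG φ, (∀ g, (R' g).right = g) → (∀ i, RestrictsTo R' (r i)) →
    ∃ h : H, ∀ g, R' g = inH φ h * R g * (inH φ h)⁻¹

/-- if the greatest common divisor of the degrees of fields `F_i` in `L` is `1`, compatible admissible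
homomorphisms `r_i` over the `F_i`, attached to `Π` and with commutative centralizers over `L`, have
a unique common extension `R`; it is unramified outside `S` and has the Satake parameter at all `v`
outside `S` which have a place of degree one in some `F_i` -/
def CoprimeDescent [TopologicalSpace H] (φ : GK K →* MulAut H) (N : Subgroup (GK K))
    (S : Set (HeightOneSpectrum (𝓞 K))) (s : HeightOneSpectrum (𝓞 K) → Set (LG φ)) : Prop :=
  ∀ (ι : Type) [Nonempty ι] (U : ι → Subgroup (GK K)), (∀ i, N ≤ U i) →
    (∀ d, (∀ i, d ∣ (U i).index) → d = 1) →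
    ∀ r : ∀ i, U i →* LG φ, (∀ i, Admissible (r i) ∧ CommCent N (r i) ∧ Attached S s (r i)) →
      Compatible r →
      ∃ R : GK K →* LG φ, Good N R ∧ (∀ i, RestrictsTo R (r i)) ∧ Unique r R ∧
        ∀ v ∉ S, (∀ τ, IsInert v τ → R τ = inG φ τ) ∧
          ((∃ i, ∃ σ ∈ U i, IsFrob v σ) → ∀ σ, IsFrob v σ → R σ ∈ s v)

/-- the proper subextensions of `L` -/
def Proper (N : Subgroup (GK K)) : Type := {U : Subgroup (GK K) // N ≤ U ∧ U ≠ ⊤}

/-- an admissible homomorphism over `K` with commutative centralizer over `L`, which is unramified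
with the Satake parameter of `Π` at all places outside `S`, exists if and only if compatible ones
exist over all fields `F` with `K < F ≤ L` -/
def ExistsIff [TopologicalSpace H] (φ : GK K →* MulAut H) (N : Subgroup (GK K))
    (S : Set (HeightOneSpectrum (𝓞 K))) (s : HeightOneSpectrum (𝓞 K) → Set (LG φ)) : Prop :=
  (∃ R : GK K →* LG φ, Good N R ∧
    ∀ v ∉ S, (∀ τ, IsInert v τ → R τ = inG φ τ) ∧ ∀ σ, IsFrob v σ → R σ ∈ s v) ↔
  ∃ r : ∀ i : Proper N, i.1 →* LG φ,
    (∀ i, Admissible (r i) ∧ CommCent N (r i) ∧ Attached S s (r i)) ∧ Compatible r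

/-- the L-group of `GL₂` -/
abbrev LGL2 (K : Type) [Field K] [NumberField K] (k : Type) [Field k] : Type :=
  LG (1 : GK K →* MulAut (Matrix.GeneralLinearGroup (Fin 2) k))

/-- for the group `GL₂`, there are sets `s v` and compatible admissible homomorphisms over all fields
`F` with `K < F ≤ L` which are attached to them, but there is none over `K` -/
def Counterexample (k : Type) [Field k] [TopologicalSpace k] (N : Subgroup (GK K)) : Prop :=
  ∃ (S : Set (HeightOneSpectrum (𝓞 K))) (s : HeightOneSpectrum (𝓞 K) → Set (LGL2 K k)),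
    S.Finite ∧ IsSatake S s ∧
    (∃ r : ∀ i : Proper N, i.1 →* LGL2 K k,
      (∀ i, Admissible (r i) ∧ Attached S s (r i)) ∧ Compatible r) ∧
    ¬ ∃ R : GK K →* LGL2 K k, (∀ g, (R g).right = g) ∧ (Continuous fun g => (R g).left) ∧
      ∀ v ∉ S, ∀ σ, IsFrob v σ → R σ ∈ s v

/-- **(1)** Let `F_i` be (not necessarily Galois) extensions of `K` contained in a finite Galois
extension `L`, such that the greatest common divisor of their degrees is `1`.  Compatible admissible
homomorphisms over the `F_i`, attached to `Π` and with commutative centralizers over `L`, are the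
restrictions of one admissible homomorphism `R` over `K`, unique up to equivalence; it is unramified
outside `S` and has the Satake parameter of `Π` at the places with a place of degree one in some
`F_i`.  **(2)** If `Gal(L/K)` is neither cyclic nor of prime power order, the homomorphism attached to
`Π` over `K` exists if and only if compatible ones exist over all fields `F` with `K < F ≤ L`.
**(3)** Commutativity of the centralizers cannot be omitted: this fails for `GL₂` if `Gal(L/K)` is the
symmetric group of degree three. -/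
theorem result (K : Type) [Field K] [NumberField K] (H : Type) [Group H] [TopologicalSpace H]
    [IsTopologicalGroup H] (φ : GK K →* MulAut H) (S : Set (HeightOneSpectrum (𝓞 K)))
    (hφ : GoodAction φ S) (s : HeightOneSpectrum (𝓞 K) → Set (LG φ)) (hs : IsSatake S s)
    (N : Subgroup (GK K)) [N.Normal] (hN : IsOpen (N : Set (GK K))) :
    CoprimeDescent φ N S s ∧
    (¬ IsCyclic (GK K ⧸ N) → (¬ ∃ p : ℕ, p.Prime ∧ IsPGroup p (GK K ⧸ N)) →
      ExistsIff φ N S s) ∧
    ∀ (k : Type) [Field k] [IsAlgClosed k] [CharZero k] [TopologicalSpace k]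
      [IsTopologicalRing k] [T2Space k], Nonempty (GK K ⧸ N ≃* Equiv.Perm (Fin 3)) →
      Counterexample k N := by
  refine ⟨?_, fun hnc hG => ?_, fun k _ _ _ _ _ _ => ?_⟩
  · intro ι _ U hU hgcd r hr hc
    have hind : ∀ q : ℕ, q.Prime → ∃ i, ¬ q ∣ (U i).index := by
      intro q hq
      by_contra hne
      have h1 : ∀ i, q ∣ (U i).index := by
        intro i
        by_contra h2
        exact hne ⟨i, h2⟩
      exact hq.one_lt.ne' (hgcd q h1)
    obtain ⟨R, h1, h2, h3, h4, h5, h6⟩ := Q227.CD.G.mainG hφ.1 hφ.2.1 hφ.2.2 hN hU hind hs r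
      (fun i => (hr i).1.1) (fun i => (hr i).1.2) (fun i => (hr i).2.1) hc (fun i => (hr i).2.2)
    exact ⟨R, ⟨h1, h2, h5⟩, h3, h4, h6⟩
  · have h := Q227.CD.G.exactG (s := s) hφ.1 hφ.2.1 hφ.2.2 hN hnc hG hs
    constructor
    · rintro ⟨R, ⟨h1, h2, h3⟩, h4⟩
      obtain ⟨r, k1, k2, k3, k4, k5⟩ := h.1 ⟨R, h1, h2, h3, h4⟩
      exact ⟨r, fun i => ⟨⟨k1 i, k2 i⟩, k3 i, k5 i⟩, k4⟩
    · rintro ⟨r, k1, k2⟩
      obtain ⟨R, h1, h2, h3, h4⟩ := h.2 ⟨r, fun i => (k1 i).1.1, fun i => (k1 i).1.2,
        fun i => (k1 i).2.1, k2, fun i => (k1 i).2.2⟩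
      exact ⟨R, ⟨h1, h2, h3⟩, h4⟩
  · rintro ⟨e⟩
    obtain ⟨S, s, h1, h2, ⟨r, k1, k2, k3, k4⟩, h4⟩ := Q227.CD.G.counterG (k := k) N hN e
    exact ⟨S, s, h1, h2, ⟨r, fun i => ⟨⟨k1 i, k2 i⟩, k4 i⟩, k3⟩, h4⟩

end Pool.Agent.Results.MP_666dc0_nt.CoprimeDescent
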