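import Pool.Agent.Q35.WR.Top

/-!
# Weak non-vanishing for real boundaries on covers branched along hypersurfaces of any degrees

**The varieties.** (A) Let `F k`, `k = 0, ..., n`, be forms of degrees `d k` in `n + 1` variables
whose zero sets in the projective `n`-space are smooth hypersurfaces with normal crossings, and `K`
the function field of an abelian cover of the projective space which is branched only along these
hypersurfaces: `K` is generated by the affine coordinates and by roots `z j`,
`z j ^ (m j) = ∏ k, (F k (x) / x 0 ^ (d k)) ^ (a j k)`, where `m j` divides `∑ k, a j k * d k`. (For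
`n ≥ 2` all finite covers which are branched only along these hypersurfaces are abelian; covers
which are branched along fewer hypersurfaces are included: add general hyperplanes, `a j k = 0`.)

(B) Let `F i` be a form of degree `d i` in `n i + 1` variables with a smooth zero set in the
projective `n i`-space, `i < r`, and `K` the function field of an abelian cover of the product of the
projective `n i`-spaces which is branched only along the hypersurfaces `F i = 0`:
`z j ^ (m j) = ∏ i, (F i (x i) / x i 0 ^ (d i)) ^ (a j i)`, where `m j` divides `a j i * d i`. Equivalently,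
`K` is the function field of a quotient of a product of cyclic hypersurfaces `w ^ (d i) = F i` by a
group of diagonal automorphisms.

A prime divisor `P` over the cover (a divisorial place of `K`) has the vector `multiplicities F d x P`
of the multiplicities `v k` of the hypersurfaces along `P`. The vectors `v` of nonnegative integers
which occur are zero or `Admissible`.

**The pairs.** The real boundary `Δ` is given by a function `c ≤ 1` on the vectors with real values:
`- c v` is the discrepancy of the log canonical pair `(X, Δ)` along the divisors with the vector `v`,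
and sections of `m (K + Δ)` are the rational `m`-canonical forms whose order along every prime divisor
`P` is at least `- m c (v)`. The only condition is `1 - c (r v) ≤ r (1 - c v)`. Examples are the
toroidal modifications `X` of the cover, given by a subdivision of the fan of the faces of the
positive orthant, with any real divisor `Δ = ∑ δ_ρ D_ρ` supported over the hypersurfaces with
coefficients `0 ≤ δ_ρ ≤ 1` (the function `1 - c` is linear on the cones and `1 - δ_ρ` at the ray `ρ`).
No condition of finiteness on `c` is needed: `Δ` may also be a limit of such boundaries on infinitely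
many models.

**The theorem.** If `K + Δ` is pseudo-effective then it is `ℝ`-linearly equivalent to an effective
`ℝ`-divisor: there are rational pluricanonical forms `ω b` of weights `g b` and real `t b ≥ 0` with
`∑ b, t b * g b = 1` such that the divisor `∑ b, t b div (ω b) + Δ`, which is `ℝ`-linearly equivalent
to `K + Δ`, is effective along all prime divisors over `X`. In the case (A) `K + Δ` is pseudo-effective
if and only if there are real `y k` with `∑ k, d k * y k = ∑ k, d k - (n + 1)` and
`∑ k, v k * y k ≥ 1 - c v` for all admissible `v`. In the case (B) `K + Δ` is pseudo-effective if and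
only if `∑ i, (1 - (n i + 1) / d i) v i ≥ 1 - c v` for all admissible `v`, and then even an integral
multiple `g (K + Δ)` has a nonzero section, although `Δ` is real.

Proof: the real function `c` is approximated from above by rational functions which are smaller than
one only at finitely many vectors. For these the polyhedron of the `y` is not empty by
`Pool.Agent.Q57.TP.main_d` and `Pool.Agent.Q57.TQ.main_d` of `MP_2c56d9_ag.NormalCrossingPairs` and
`MP_bc213e_ag.HypersurfaceQuotientPairs`, and the limit `y` of such points is a convex combination of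
the vertices of the simplex of the `y ≥ 0`. The vertices are rational, and give the forms `ω b`.
-/

set_option autoImplicit false

open FF MvPolynomial Pool.Agent.W602.GT

namespace Pool.Agent.Results.MP_66b48b_ag.RealBoundariesOnCovers

section sections

variable {K : Type} [Field K] [Algebra ℂ K] (N : ℕ) (δ : Place ℂ K → ℝ)

/-- `ω` is a section of `m (K + Δ) + j A`: a rational section of the `m`-th power of the canonical
bundle (`IsPluri`: a function of `N` rational vector fields which is multiplied by `det B ^ m` under
a linear substitution `B`) whose order on the vector fields which are regular at `P` is at least `j`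
times the order of one of the functions in `S`, minus `m` times the real coefficient `δ P` of `Δ`,
for all prime divisors `P` (all divisorial places `P` of `K`). Here `A` is the divisor which is
generated by the finite set `S` of functions; `A = 0` if `S = {1}`. -/
def IsSection (S : Finset K) (m j : ℕ) (ω : (Fin N → Derivation ℂ K K) → K) : Prop :=
  IsPluri m ω ∧ ∀ P : Place ℂ K, Divisorial N P → ∀ D : Fin N → Derivation ℂ K K,
    (∀ c, DerReg P (D c)) → ω D = 0 ∨ ∃ s ∈ S, s ≠ 0 ∧
      (j : ℝ) * P.ord s - m * δ P ≤ P.ord (ω D)

/-- `K + Δ` is pseudo-effective: there is a divisor `A` such that for all `M` a positive multiple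
`j (M (K + Δ) + A)` has a nonzero section. -/
def Pseudoeffective : Prop :=
  ∃ S : Finset K, ∀ M : ℕ, ∃ j : ℕ, 1 ≤ j ∧ ∃ ω : (Fin N → Derivation ℂ K K) → K, ω ≠ 0 ∧
    IsSection N δ S (j * M) j ω

/-- `K + Δ` is `ℝ`-linearly equivalent to an effective `ℝ`-divisor: there are nonzero rational
pluricanonical forms `ω b` of weights `g b` and real numbers `t b ≥ 0` with `∑ b, t b * g b = 1` such
that `∑ b, t b * div (ω b) + Δ` is effective along all prime divisors. -/
def IsEquivalentToEffective : Prop :=
  ∃ (r : ℕ) (g : Fin r → ℕ) (t : Fin r → ℝ) (ω : Fin r → (Fin N → Derivation ℂ K K) → K),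
    (∀ b, 1 ≤ g b ∧ 0 ≤ t b ∧ ω b ≠ 0 ∧ IsPluri (g b) (ω b)) ∧ ∑ b, t b * g b = 1 ∧
    ∀ P : Place ℂ K, Divisorial N P → ∀ D : Fin N → Derivation ℂ K K, (∀ c, DerReg P (D c)) →
      (∀ b, ω b D ≠ 0) → 0 ≤ ∑ b, t b * P.ord (ω b D) + δ P

end sections

/-! ### Covers of the projective space -/

section A

/-- The hypersurfaces `F k = 0` have normal crossings: at every point of the projective space the
gradients of the forms `F k` which vanish at this point are linearly independent. -/
def NormalCrossings {n : ℕ} (F : Fin (n + 1) → MvPolynomial (Fin (n + 1)) ℂ) : Prop :=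
  ∀ x : Fin (n + 1) → ℂ, x ≠ 0 → LinearIndependent ℂ
    fun (k : {k // eval x (F k) = 0}) (l : Fin (n + 1)) => eval x (pderiv l (F k.1))

variable {n R : ℕ}

/-- The multiplicities which satisfy the divisibility conditions. -/
def Admissible (m : Fin R → ℕ) (a : Fin R → Fin (n + 1) → ℕ) (v : Fin (n + 1) → ℕ) : Prop :=
  v ≠ 0 ∧ (∃ k, v k = 0) ∧ ∀ j, m j ∣ ∑ k, a j k * v k

/-- The function `c` is the function of the coefficients of a real boundary: it is at most one (the
pair is log canonical), the boundary is supported over the hypersurfaces, and the log discrepancy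
`1 - c` is at most homogeneous along the rays. -/
structure IsRealBoundary (m : Fin R → ℕ) (a : Fin R → Fin (n + 1) → ℕ)
    (c : (Fin (n + 1) → ℕ) → ℝ) : Prop where
  zero : c 0 = 0
  le_one : ∀ v, c v ≤ 1
  ray : ∀ v (r : ℕ), 1 ≤ r → Admissible m a v → 1 - c (r • v) ≤ r * (1 - c v)

variable {K : Type} [Field K] [Algebra ℂ K]

/-- The multiplicities of the hypersurfaces `F k = 0` along the prime divisor `P`; the `x j` are the
homogeneous coordinates, which are divided by one of minimal order at `P`. -/
noncomputable def multiplicities (F : Fin (n + 1) → MvPolynomial (Fin (n + 1)) ℂ)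
    (d : Fin (n + 1) → ℕ) (x : Fin (n + 1) → K) (P : Place ℂ K) (k : Fin (n + 1)) : ℕ :=
  (P.ord (aeval x (F k)) -
    d k * Finset.univ.inf' Finset.univ_nonempty fun j => P.ord (x j)).toNat

/-- `K` is the function field of an abelian cover of the projective `n`-space which is branched only
along the hypersurfaces `F k = 0` of degrees `d k` with normal crossings. -/
structure IsCover (d : Fin (n + 1) → ℕ) (F : Fin (n + 1) → MvPolynomial (Fin (n + 1)) ℂ)
    (m : Fin R → ℕ) (a : Fin R → Fin (n + 1) → ℕ) (x : Fin (n + 1) → K) (z : Fin R → K) :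
    Prop where
  dim : 1 ≤ n
  degree : ∀ k, 1 ≤ d k
  form : ∀ k, (F k).IsHomogeneous (d k)
  crossings : NormalCrossings F
  exponent : ∀ j, 1 ≤ m j
  divides : ∀ j, m j ∣ ∑ k, a j k * d k
  ne_zero : x 0 ≠ 0
  basis : IsTranscendenceBasis ℂ fun b : Fin n => x b.succ / x 0
  root : ∀ j, z j ^ m j = ∏ k, (aeval x (F k) / x 0 ^ d k) ^ a j k
  generates : IntermediateField.adjoin ℂ
    (Set.range (fun b : Fin n => x b.succ / x 0) ∪ Set.range z) = ⊤

end A

/-! ### Covers of products of projective spaces -/

namespace Product

/-- The form `F` has no singular zeros: its partial derivatives have no common zero but `0`. -/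
def Smooth {n : ℕ} (F : MvPolynomial (Fin (n + 1)) ℂ) : Prop :=
  ∀ x : Fin (n + 1) → ℂ, x ≠ 0 → ∃ l, eval x (pderiv l F) ≠ 0

/-- The affine coordinates of the product of the projective spaces. -/
noncomputable def affine {r : ℕ} {n : Fin r → ℕ} {K : Type} [Field K]
    (x : ∀ i, Fin (n i + 1) → K) (b : (i : Fin r) × Fin (n i)) : K :=
  x b.1 b.2.succ / x b.1 0

variable {r R : ℕ}

/-- The multiplicities which satisfy the divisibility conditions. -/
def Admissible (m : Fin R → ℕ) (a : Fin R → Fin r → ℕ) (v : Fin r → ℕ) : Prop :=
  v ≠ 0 ∧ ∀ j, m j ∣ ∑ i, a j i * v i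

/-- The function `c` is the function of the coefficients of a real boundary, as above. -/
structure IsRealBoundary (m : Fin R → ℕ) (a : Fin R → Fin r → ℕ) (c : (Fin r → ℕ) → ℝ) :
    Prop where
  zero : c 0 = 0
  le_one : ∀ v, c v ≤ 1
  ray : ∀ v (k : ℕ), 1 ≤ k → Admissible m a v → 1 - c (k • v) ≤ k * (1 - c v)

variable {K : Type} [Field K] [Algebra ℂ K] {n : Fin r → ℕ}

/-- The multiplicities of the hypersurfaces `F i = 0` along the prime divisor `P`; the `x i j` are the
homogeneous coordinates of the `i`-th factor, which are divided by one of minimal order at `P`. -/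
noncomputable def multiplicities (F : ∀ i, MvPolynomial (Fin (n i + 1)) ℂ) (d : Fin r → ℕ)
    (x : ∀ i, Fin (n i + 1) → K) (P : Place ℂ K) (i : Fin r) : ℕ :=
  (P.ord (aeval (x i) (F i)) -
    d i * Finset.univ.inf' Finset.univ_nonempty fun j => P.ord (x i j)).toNat

/-- `K` is the function field of an abelian cover of the product of the projective `n i`-spaces which
is branched only along the smooth hypersurfaces `F i = 0` of degrees `d i`. -/
structure IsCover (d : Fin r → ℕ) (F : ∀ i, MvPolynomial (Fin (n i + 1)) ℂ)
    (m : Fin R → ℕ) (a : Fin R → Fin r → ℕ) (x : ∀ i, Fin (n i + 1) → K) (z : Fin R → K) :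
    Prop where
  factors : 1 ≤ r
  dim : ∀ i, 1 ≤ n i
  degree : ∀ i, 1 ≤ d i
  form : ∀ i, (F i).IsHomogeneous (d i)
  smooth : ∀ i, Smooth (F i)
  exponent : ∀ j, 1 ≤ m j
  divides : ∀ j i, m j ∣ a j i * d i
  ne_zero : ∀ i, x i 0 ≠ 0
  basis : IsTranscendenceBasis ℂ (affine x)
  root : ∀ j, z j ^ m j = ∏ i, (aeval (x i) (F i) / x i 0 ^ d i) ^ a j i
  generates : IntermediateField.adjoin ℂ (Set.range (affine x) ∪ Set.range z) = ⊤

end Product

/-- **Weak non-vanishing for real boundaries** on the abelian covers of projective spaces which are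
branched along hypersurfaces with normal crossings, and on the abelian covers of products of
projective spaces which are branched along smooth hypersurfaces of the factors. -/
theorem result :
    (∀ (n R : ℕ) (d : Fin (n + 1) → ℕ) (F : Fin (n + 1) → MvPolynomial (Fin (n + 1)) ℂ)
      (m : Fin R → ℕ) (a : Fin R → Fin (n + 1) → ℕ) (K : Type) [Field K] [Algebra ℂ K]
      (x : Fin (n + 1) → K) (z : Fin R → K), IsCover d F m a x z →
      ∀ c : (Fin (n + 1) → ℕ) → ℝ, IsRealBoundary m a c →
      ∀ δ : Place ℂ K → ℝ, (∀ P, δ P = c (multiplicities F d x P)) →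
        (Pseudoeffective n δ ↔ ∃ y : Fin (n + 1) → ℝ, ∑ k, (d k : ℝ) * y k = ∑ k, (d k : ℝ) - (n + 1) ∧
          ∀ v, Admissible m a v → 1 - c v ≤ ∑ k, (v k : ℝ) * y k) ∧
        (Pseudoeffective n δ → IsEquivalentToEffective n δ)) ∧
    ∀ (r R : ℕ) (n d : Fin r → ℕ) (F : ∀ i, MvPolynomial (Fin (n i + 1)) ℂ)
      (m : Fin R → ℕ) (a : Fin R → Fin r → ℕ) (K : Type) [Field K] [Algebra ℂ K]
      (x : ∀ i, Fin (n i + 1) → K) (z : Fin R → K), Product.IsCover d F m a x z →
      ∀ c : (Fin r → ℕ) → ℝ, Product.IsRealBoundary m a c →
      ∀ δ : Place ℂ K → ℝ, (∀ P, δ P = c (Product.multiplicities F d x P)) →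
        (Pseudoeffective (∑ i, n i) δ ↔ ∀ v, Product.Admissible m a v →
          1 - c v ≤ ∑ i, (1 - ((n i : ℝ) + 1) / d i) * v i) ∧
        (Pseudoeffective (∑ i, n i) δ →
          ∃ g : ℕ, 1 ≤ g ∧ ∃ ω, ω ≠ 0 ∧ IsSection (∑ i, n i) δ {1} g 0 ω) := by
  constructor
  · intro n R d F m a K _ _ x z h c hc δ hδ
    obtain ⟨e, rfl⟩ : ∃ e, n = e + 1 := ⟨n - 1, by have := h.dim; omega⟩
    obtain ⟨h1, h2⟩ := Pool.Agent.Q35.WR.realA (c := c) (δ := δ) h.ne_zero h.basis
      h.degree h.form h.crossings h.exponent h.root h.divides h.generates hc.zero hc.le_one hc.ray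
      hδ
    constructor
    · refine h1.trans ?_
      have h3 : ((e : ℝ) + 2) = (((e + 1 : ℕ) : ℝ) + 1) := by
        push_cast
        ring
      rw [← h3]
      rfl
    · intro hp
      obtain ⟨r, g, t, ω, h3, h4, h5⟩ := h2 hp
      refine ⟨r, g, t, ω, h3, h4, fun P hP D hD hne => ?_⟩
      have := h5 P hP D hD hne
      linarith
  · intro r R n d F m a K _ _ x z h c hc δ hδ
    obtain ⟨h1, h2⟩ := Pool.Agent.Q35.WR.realB (c := c) (δ := δ) h.factors h.dim rfl
      h.degree h.form h.smooth h.ne_zero h.basis h.exponent h.divides h.root h.generates hc.zero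
      hc.le_one hc.ray hδ
    refine ⟨h1.trans ?_, h2⟩
    have h3 : ∀ i, ((d i : ℝ) - n i - 1) / d i = 1 - ((n i : ℝ) + 1) / d i := by
      intro i
      have : (d i : ℝ) ≠ 0 := by
        have := h.degree i
        exact_mod_cast (show d i ≠ 0 by omega)
      field_simp
      ring
    simp only [h3]
    rfl

end Pool.Agent.Results.MP_66b48b_ag.RealBoundariesOnCovers
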