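import Pool.Agent.Q150.JointsB

/-!
# Higher-dimensional joints in simple matroids

For every `n ≥ 4`, `L` lines of a finite simple matroid have at most `L ^ (5 / 3)` joints of
dimension `n`.
-/

namespace Pool.Agent.Results.MP_66cbdd_co.FewHigherJoints

open Q150.Joints

/-- For every `n ≥ 4`, `L` lines of a finite simple matroid have at most `L ^ (5 / 3)`
`n`-dimensional joints; that is, `J_n(L) ≤ L ^ (5 / 3)`. In particular `J_n(L) < L ^ (2 - ε)` for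
all `ε < 1 / 3` and all `L ≥ 2`. -/
theorem result :
    (∀ n : ℕ, 4 ≤ n → ∀ (α : Type) (M : Matroid α) (𝔏 : Set (Set α)), M.E.Finite → Simple M →
      𝔏.Finite → (∀ l ∈ 𝔏, IsLine M l) →
        {x | x ∈ M.E ∧ IsJoint M 𝔏 n x}.ncard ^ 3 ≤ 𝔏.ncard ^ 5) ∧
    (∀ n : ℕ, 4 ≤ n → ∀ L : ℕ, (J n L : ℝ) ≤ (L : ℝ) ^ ((5 : ℝ) / 3)) ∧
    ∀ n : ℕ, 4 ≤ n → ∀ ε : ℝ, ε < 1 / 3 → ∀ L : ℕ, 2 ≤ L → (J n L : ℝ) < (L : ℝ) ^ (2 - ε) := by
  refine ⟨fun n hn α M 𝔏 hE hM hfin hl => joints_bound hM hE hfin hl hn, fun n hn L => J_le hn L,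
    fun n hn ε hε L hL => (J_le hn L).trans_lt ?_⟩
  have h1 : (1 : ℝ) < L := by exact_mod_cast (show 1 < L by omega)
  exact Real.rpow_lt_rpow_of_exponent_lt h1 (by linarith)

end Pool.Agent.Results.MP_66cbdd_co.FewHigherJoints
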