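import Pool.Agent.Q98.RB.CompC

set_option autoImplicit false
set_option linter.unusedSectionVars false

/-!
# MP_67b4ec_an: the square of the radical of `L¹(G)''` is zero for every compact group `G`

`H611R3.ZL.L1 G` is the Banach algebra `L¹(G)` of a compact (Hausdorff) group `G`: Mathlib's
`Lp ℂ 1` for the normalised Haar measure `H611R3.ZL.hm G`, with the convolution product.
`H434R3.Arens.Bidual A` is the second dual `A''` of a normed algebra `A` with the first Arens
product, `H434R3.Arens.ev Φ h` is the value of `Φ ∈ A''` at `h ∈ A'`, and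
`H434R3.Arens.InRad Φ` says that `Φ` lies in the Jacobson radical (of the unitization).
`Pool.Agent.Q98.RB.H φ` is the functional `f ↦ ∫ f φ` on `L¹(G)` for a continuous function `φ`.

For every compact group `G` the radical of `(L¹(G)'', □)` is the annihilator of `C(G)`, and
`A'' □ rad(A'') = {0}`.  In particular `rad(A'')^{□2} = {0}`, for instance for the circle group, so that
the literal answer to Q1 is yes.

Proof.  `A' · A ⊆ C(G)`, so that `Ψ □ Φ = 0` if `Φ` annihilates `C(G)`, which gives one inclusion.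
For the other, let `(R_Φ φ)(x) = Φ(φ(x ·))` for `φ ∈ C(G)`; then `Φ · φ = R_Φ φ`, and
`Φ ↦ R_Φ` is multiplicative.  By the theorem of Hahn and Banach there is `Ψ` with
`Ψ(φ) = conj Φ(φ*)` on `C(G)`, and `R_Ψ` is the adjoint of `R_Φ` with respect to the inner product
of `L²(G)`.  If `Φ` is in the radical, `S = R_Ψ R_Φ` is quasinilpotent in the uniform norm, and
`‖S^n φ‖₂² ≤ ‖S^{2n} φ‖₂ ‖φ‖₂` shows `S φ = 0`, so `R_Φ φ = 0` and `Φ(φ) = (R_Φ φ)(1) = 0`.
-/

namespace Pool.Agent.Results.MP_67b4ec_an.CompactGroups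

open MeasureTheory H611R3.ZL H434R3.Arens Pool.Agent.Q98.RB

universe u

lemma infinite_circle : Infinite Circle := by
  refine Infinite.of_injective (fun n : ℕ => Circle.exp (1 / ((n : ℝ) + 1))) fun m n h => ?_
  have h0 : ∀ n : ℕ, Complex.arg (Circle.exp (1 / ((n : ℝ) + 1)) : ℂ) = 1 / ((n : ℝ) + 1) := by
    intro n
    have h1 : (0 : ℝ) < 1 / ((n : ℝ) + 1) := by positivity
    have h2 : 1 / ((n : ℝ) + 1) ≤ 1 := by
      rw [div_le_one (by positivity)]
      have : (0 : ℝ) ≤ n := Nat.cast_nonneg n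
      linarith
    exact Circle.arg_exp (by linarith [Real.pi_pos]) (by linarith [Real.pi_gt_three])
  have h3 := congrArg (fun z : Circle => Complex.arg (z : ℂ)) h
  simp only [h0] at h3
  have h4 : (m : ℝ) + 1 = (n : ℝ) + 1 := by
    have := congrArg (fun x : ℝ => x⁻¹) h3
    simpa only [one_div, inv_inv] using this
  exact_mod_cast (add_right_cancel h4)

/-- For every compact group `G` the radical of `(L¹(G)'', □)` is the annihilator of the continuous
functions, and `Ψ □ Φ = 0` for all `Ψ ∈ L¹(G)''` and all `Φ` in the radical; the circle group is infinite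
and compact, and the product of any two elements of the radical of its `L¹(G)''` is zero. -/
theorem result :
    (∀ (G : Type u) [Group G] [TopologicalSpace G] [IsTopologicalGroup G] [CompactSpace G]
      [T2Space G] [MeasurableSpace G] [BorelSpace G],
      (∀ Φ : Bidual (L1 G), InRad Φ ↔ ∀ φ : C(G, ℂ), ev Φ (H φ) = 0) ∧
      (∀ Φ Ψ : Bidual (L1 G), InRad Φ → Ψ * Φ = 0)) ∧
    (Infinite Circle ∧ CompactSpace Circle ∧ ∀ [MeasurableSpace Circle] [BorelSpace Circle],
      ∀ Φ Ψ : Bidual (L1 Circle), InRad Φ → InRad Ψ → Φ * Ψ = 0) := by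
  refine ⟨?_, infinite_circle, inferInstance, ?_⟩
  · intro G _ _ _ _ _ _ _
    refine ⟨fun Φ => ⟨fun h φ => ev_H_of_inRad h φ, fun h => ?_⟩, fun Φ Ψ h => ?_⟩
    · refine inRad_of_nil Φ fun Ψ => ?_
      rw [mul_eq_zero_of Φ h]
    · exact mul_eq_zero_of Φ (fun φ => ev_H_of_inRad h φ) Ψ
  · intro _ _ Φ Ψ _ hΨ
    exact mul_eq_zero_of Ψ (fun φ => ev_H_of_inRad hΨ φ) Φ

end Pool.Agent.Results.MP_67b4ec_an.CompactGroups
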