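import Pool.Agent.Q73.Semi.Koenigs

/-!
# Essential monotonicity of the orthogonal speed

The definitions (the disc, its hyperbolic distance, continuous semigroups of holomorphic self-maps,
the Denjoy-Wolff point, the projection onto the diameter and the orthogonal speed) are in
`Pool.Agent.Q73.Semi.Defs`; Koenigs functions are defined in `Pool.Agent.Q73.Semi.Koenigs`.
-/

set_option autoImplicit false

open Set Filter Topology Q73.Semi

namespace Pool.Agent.Results.MP_68c21c_an.EssentiallyMonotone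

/-- **Theorem (positive answer to Q1, for all non-elliptic semigroups).**  Let `(φ_t)` and `(ψ_t)`
be non-elliptic semigroups of the disc with Denjoy-Wolff points `τ`, `σ` and Koenigs functions
`h`, `g` such that `h(𝔻) ⊆ g(𝔻)`.  Then there is a constant `C` with
`v^o_φ(t) ≥ v^o_ψ(t) - C` for all `t ≥ 0`; in particular
`liminf_{t → ∞} (v^o_φ(t) - v^o_ψ(t)) > -∞`. -/
theorem result (φ ψ : ℝ → ℂ → ℂ) (hφ : IsSemigroup φ) (hψ : IsSemigroup ψ)
    (_hneφ : IsNonElliptic φ) (_hneψ : IsNonElliptic ψ) (τ σ : ℂ)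
    (hτ : IsDenjoyWolff φ τ) (hσ : IsDenjoyWolff ψ σ) (h g : ℂ → ℂ)
    (hh : IsKoenigs φ h) (hg : IsKoenigs ψ g) (hsub : h '' Disc ⊆ g '' Disc) :
    (∀ z ∈ Disc, IsProjection τ z (proj τ z)) ∧ (∀ z ∈ Disc, IsProjection σ z (proj σ z)) ∧
      (∃ C : ℝ, ∀ t, 0 ≤ t → orthogonalSpeed ψ σ t - C ≤ orthogonalSpeed φ τ t) ∧
      ⊥ < liminf (fun t : ℝ =>
        ((orthogonalSpeed φ τ t - orthogonalSpeed ψ σ t : ℝ) : EReal)) atTop := by
  obtain ⟨C, hC⟩ := orthogonalSpeed_compare hφ hψ hτ hσ hh hg hsub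
  refine ⟨fun z hz => Classical.epsilon_spec (existsUnique_projection hτ.1 hz).exists,
    fun z hz => Classical.epsilon_spec (existsUnique_projection hσ.1 hz).exists, ⟨C, hC⟩, ?_⟩
  refine lt_of_lt_of_le (EReal.bot_lt_coe (-C)) (le_liminf_of_le (by isBoundedDefault) ?_)
  filter_upwards [eventually_ge_atTop (0:ℝ)] with t ht
  have := hC t ht
  exact_mod_cast (by linarith : -C ≤ orthogonalSpeed φ τ t - orthogonalSpeed ψ σ t)

end Pool.Agent.Results.MP_68c21c_an.EssentiallyMonotone
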