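import Pool.Agent.Q175.HM.Spl

/-!
# MP_68f289_gt: dilation invariant normal subgroups of the group of Hamiltonian homeomorphisms

`HamGroup n` is the group of the frozen statement S13311 (here for every `n ≥ 1`): the homeomorphisms
of `ℝ^{2n}` supported in a compact subset of the open unit ball which are uniform limits of time one
maps of smooth Hamiltonian flows supported in the same compact set. It has no proper normal subgroup
which is invariant under dilations and whose quotient is finitely generated, or abelian of finite rank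
with finite torsion of each order. The commutator subgroup is invariant under dilations.
-/

set_option autoImplicit false

open Cardinal

namespace Pool.Agent.Results.MP_68f289_gt.SmallAbelianization

open Pool.Agent.Results.MP_68f289_gt.HomogeneousQuasimorphisms

/-- the subgroup `N` is invariant under dilations: with `φ` it contains `φ^{(s)}` for `0 < s < 1` -/
def InvariantSubgroup {n : ℕ} (N : Subgroup (HamGroup n)) : Prop :=
  ∀ s : ℝ, 0 < s → s < 1 → ∀ φ φ', IsDilate s φ φ' → φ ∈ N → φ' ∈ N

/-- Let `n ≥ 1` and let `HamGroup n` be the group of compactly supported Hamiltonian homeomorphisms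
of the open unit ball of `ℝ^{2n}`.

(1) Let `N` be a normal subgroup, invariant under dilations, with finitely generated quotient. Then
`N` is the whole group.

(2) Let `N` be a normal subgroup, invariant under dilations, whose quotient is abelian, of finite
rank and with finitely many elements `x` with `x ^ m = 1` for each `m ≥ 1`. Then `N` is the whole
group.

(3) The commutator subgroup is invariant under dilations. The group is perfect if its
abelianization is finitely generated, or of finite rank with finitely many elements `x` with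
`x ^ m = 1` for each `m ≥ 1`. -/
theorem result (n : ℕ) (hn : 0 < n) :
    (∀ N : Subgroup (HamGroup n), N.Normal → InvariantSubgroup N →
      (∃ T : Finset (HamGroup n), N ⊔ Subgroup.closure (T : Set (HamGroup n)) = ⊤) → N = ⊤) ∧
    (∀ (N : Subgroup (HamGroup n)) [N.Normal], InvariantSubgroup N →
      (∀ φ ψ, φ * ψ * φ⁻¹ * ψ⁻¹ ∈ N) →
      (∃ T : Finset (HamGroup n), ∀ φ, ∃ m : ℕ, 0 < m ∧
        φ ^ m ∈ N ⊔ Subgroup.closure (T : Set (HamGroup n))) →
      (∀ m : ℕ, 0 < m → {x : HamGroup n ⧸ N | x ^ m = 1}.Finite) → N = ⊤) ∧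
    InvariantSubgroup (commutator (HamGroup n)) ∧
    ((∃ T : Finset (HamGroup n),
        commutator (HamGroup n) ⊔ Subgroup.closure (T : Set (HamGroup n)) = ⊤) →
      commutator (HamGroup n) = ⊤) ∧
    ((∃ T : Finset (HamGroup n), ∀ φ, ∃ m : ℕ, 0 < m ∧
        φ ^ m ∈ commutator (HamGroup n) ⊔ Subgroup.closure (T : Set (HamGroup n))) →
      (∀ m : ℕ, 0 < m → {x : Abelianization (HamGroup n) | x ^ m = 1}.Finite) →
      commutator (HamGroup n) = ⊤) := by
  have hd : ∀ {s : ℝ}, 0 < s → s ≤ 1 → ∀ φ, IsDilate s φ ((Pool.Agent.Q175.HM.Spl.ds hn).d s φ) :=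
    fun hs hs1 φ => Pool.Agent.Q175.HM.Spl.hd hn hs hs1 φ
  have hcom : InvariantSubgroup (commutator (HamGroup n)) := by
    intro s hs hs1 φ φ' h hφ
    rw [← (Pool.Agent.Q175.HM.Spl.ds_iff hn hs hs1.le).1 h]
    have h1 : (commutator (HamGroup n)).map ((Pool.Agent.Q175.HM.Spl.ds hn).d s) ≤
        commutator (HamGroup n) := by
      rw [commutator_def, Subgroup.map_commutator]
      exact Subgroup.commutator_mono le_top le_top
    exact h1 ⟨φ, hφ, rfl⟩
  refine ⟨fun N hN hNd ⟨T, hT⟩ => ?_,
    fun N _ hNd hab ⟨T, hT⟩ hf => ?_, hcom, fun ⟨T, hT⟩ => ?_, fun ⟨T, hT⟩ hf => ?_⟩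
  · exact (Pool.Agent.Q175.HM.Spl.ds hn).fg N
      (fun s hs hs1 g hg => hNd s hs hs1 g _ (hd hs hs1.le g) hg) T hT
  · exact (Pool.Agent.Q175.HM.Spl.ds hn).rank N
      (fun s hs hs1 g hg => hNd s hs hs1 g _ (hd hs hs1.le g) hg) hab hf T hT
  · exact (Pool.Agent.Q175.HM.Spl.ds hn).fg _
      (fun s hs hs1 g hg => hcom s hs hs1 g _ (hd hs hs1.le g) hg) T hT
  · refine (Pool.Agent.Q175.HM.Spl.ds hn).rank _
      (fun s hs hs1 g hg => hcom s hs hs1 g _ (hd hs hs1.le g) hg)
      (fun φ ψ => ?_) hf T hT
    exact Subgroup.commutator_mem_commutator (Subgroup.mem_top _) (Subgroup.mem_top _)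

end Pool.Agent.Results.MP_68f289_gt.SmallAbelianization
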