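import Pool.Agent.Results.MP_68f289_gt.HomogeneousQuasimorphisms
import Pool.Agent.Q175.HM.Tr

/-!
# MP_68f289_gt: the homomorphisms of the group of Hamiltonian homeomorphisms of the ball

`HamGroup n` is the group of the frozen statement S13311 (here for every `n ≥ 1`): the homeomorphisms
of `ℝ^{2n}` supported in a compact subset of the open unit ball which are uniform limits of time one
maps of smooth Hamiltonian flows supported in the same compact set. We show that the set of its
homomorphisms to any fixed group is either trivial or of cardinality at least the continuum, that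
the vector space of its homomorphisms to any field is zero or of dimension at least the continuum,
and that it has no proper normal subgroup which is invariant under dilations and whose quotient is
finitely generated, or abelian of finite rank with finite torsion of each order.
-/

set_option autoImplicit false

open Cardinal

namespace Pool.Agent.Results.MP_68f289_gt.ZeroOrContinuum

open Pool.Agent.Results.MP_68f289_gt.HomogeneousQuasimorphisms

/-- the set `X` of functions on the group is invariant under dilations: with `c` it contains the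
function `φ ↦ c (φ^{(s)})` for every `0 < s < 1` -/
def DilationInvariant {n : ℕ} {B : Type} (X : Set (HamGroup n → B)) : Prop :=
  ∀ s : ℝ, 0 < s → s < 1 → ∀ c ∈ X, ∃ c' ∈ X, ∀ φ φ', IsDilate s φ φ' → c' φ = c φ'

/-- the subgroup `N` is invariant under dilations: with `φ` it contains `φ^{(s)}` for `0 < s < 1` -/
def InvariantSubgroup {n : ℕ} (N : Subgroup (HamGroup n)) : Prop :=
  ∀ s : ℝ, 0 < s → s < 1 → ∀ φ φ', IsDilate s φ φ' → φ ∈ N → φ' ∈ N

open Pool.Agent.Q175.HM in
/-- the dilations -/
noncomputable def ds {n : ℕ} (hn : 0 < n) : DS (HamGroup n) := (hamDS hn).tr (iso n)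

theorem ds_iff {n : ℕ} (hn : 0 < n) {s : ℝ} (hs : 0 < s) (hs1 : s ≤ 1) {φ φ' : HamGroup n} :
    IsDilate s φ φ' ↔ (ds hn).d s φ = φ' := by
  have e : (ds hn).d s φ = (iso n).symm (Pool.Agent.Q175.HM.dd n s (iso n φ)) := rfl
  constructor
  · intro h
    have h1 : Pool.Agent.Y453.HB.IsDilate s (iso n φ) (iso n φ') := iso_dilate.2 h
    rw [e, Pool.Agent.Q175.HM.dd_eq hs hs1 h1, MulEquiv.symm_apply_apply]
  · intro h
    refine iso_dilate.1 ?_
    rw [← h, e, MulEquiv.apply_symm_apply]
    exact Pool.Agent.Q175.HM.dd_isDilate hs hs1 _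

/-- Let `n ≥ 1` and let `HamGroup n` be the group of compactly supported Hamiltonian homeomorphisms
of the open unit ball of `ℝ^{2n}`.

(1) Every element of the group is the conjugate `ψ^{(s)}` of an element `ψ` of the group by a
dilation of ratio `s < 1`.

(2) Let `Q` be a group and `X` a set of fewer than continuum many homomorphisms from the group to
`Q`, invariant under dilations. Then all elements of `X` are trivial. So for every group `Q` either all
homomorphisms from the group to `Q` are trivial or there are at least continuum many.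

(3) Let `A` be an abelian group and `X` a set of fewer than continuum many class functions from the
group to `A`, additive on commuting pairs, and invariant under dilations. Then all elements of `X`
are zero.

(4) Let `F` be a field. If the vector space of homomorphisms from the group to `F` has dimension less
than the continuum then it is zero.

(5) Let `N` be a normal subgroup, invariant under dilations, with finitely generated quotient. Then
`N` is the whole group.

(6) Let `N` be a normal subgroup, invariant under dilations, whose quotient is abelian, of finite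
rank and with finitely many elements of each finite order. Then `N` is the whole group.

(7) The commutator subgroup is invariant under dilations. So the group is perfect if its
abelianization is finitely generated, or of finite rank with finitely many elements of each finite
order. -/
theorem result (n : ℕ) (hn : 0 < n) :
    (∀ φ : HamGroup n, ∃ s : ℝ, 0 < s ∧ s < 1 ∧ ∃ ψ, IsDilate s ψ φ) ∧
    (∀ (Q : Type) [Group Q] (X : Set (HamGroup n → Q)),
      (∀ w ∈ X, ∀ φ ψ, w (φ * ψ) = w φ * w ψ) → DilationInvariant X → Cardinal.mk X < 𝔠 →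
      ∀ w ∈ X, ∀ φ, w φ = 1) ∧
    (∀ (Q : Type) [Group Q],
      (∀ w : HamGroup n →* Q, w = 1) ∨ 𝔠 ≤ Cardinal.mk (HamGroup n →* Q)) ∧
    (∀ (A : Type) [AddCommGroup A] (X : Set (HamGroup n → A)),
      (∀ c ∈ X, IsCommutingAdditive c) → DilationInvariant X → Cardinal.mk X < 𝔠 →
      ∀ c ∈ X, ∀ φ, c φ = 0) ∧
    (∀ (F : Type) [Field F], Module.rank F (Additive (HamGroup n) →+ F) < 𝔠 →
      ∀ w : Additive (HamGroup n) →+ F, w = 0) ∧
    (∀ N : Subgroup (HamGroup n), N.Normal → InvariantSubgroup N →
      (∃ T : Finset (HamGroup n), N ⊔ Subgroup.closure (T : Set (HamGroup n)) = ⊤) → N = ⊤) ∧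
    (∀ (N : Subgroup (HamGroup n)) [N.Normal], InvariantSubgroup N →
      (∀ φ ψ, φ * ψ * φ⁻¹ * ψ⁻¹ ∈ N) →
      (∃ T : Finset (HamGroup n), ∀ φ, ∃ m : ℕ, 0 < m ∧
        φ ^ m ∈ N ⊔ Subgroup.closure (T : Set (HamGroup n))) →
      (∀ m : ℕ, 0 < m → {x : HamGroup n ⧸ N | x ^ m = 1}.Finite) → N = ⊤) ∧
    InvariantSubgroup (commutator (HamGroup n)) ∧
    ((∃ T : Finset (HamGroup n),
        commutator (HamGroup n) ⊔ Subgroup.closure (T : Set (HamGroup n)) = ⊤) →
      commutator (HamGroup n) = ⊤) ∧
    ((∃ T : Finset (HamGroup n), ∀ φ, ∃ m : ℕ, 0 < m ∧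
        φ ^ m ∈ commutator (HamGroup n) ⊔ Subgroup.closure (T : Set (HamGroup n))) →
      (∀ m : ℕ, 0 < m → {x : Abelianization (HamGroup n) | x ^ m = 1}.Finite) →
      commutator (HamGroup n) = ⊤) := by
  have hd : ∀ {s : ℝ}, 0 < s → s ≤ 1 → ∀ φ, IsDilate s φ ((ds hn).d s φ) := fun hs hs1 φ =>
    (ds_iff hn hs hs1).2 rfl
  have hcom : InvariantSubgroup (commutator (HamGroup n)) := by
    intro s hs hs1 φ φ' h hφ
    rw [← (ds_iff hn hs hs1.le).1 h]
    have h1 : (commutator (HamGroup n)).map ((ds hn).d s) ≤ commutator (HamGroup n) := by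
      rw [commutator_def, Subgroup.map_commutator]
      exact Subgroup.commutator_mono le_top le_top
    exact h1 ⟨φ, hφ, rfl⟩
  refine ⟨fun φ => ?_, fun Q _ X hX hXd hXc w hw φ => ?_, fun Q _ => ?_,
    fun A _ X hX hXd hXc c hc φ => ?_,
    fun F _ h w => (ds hn).field F h w, fun N hN hNd ⟨T, hT⟩ => ?_,
    fun N _ hNd hab ⟨T, hT⟩ hf => ?_, hcom, fun ⟨T, hT⟩ => ?_, fun ⟨T, hT⟩ hf => ?_⟩
  · obtain ⟨s, hs, hs1, ψ, h⟩ := (ds hn).union φ
    refine ⟨s, hs, hs1, ψ, ?_⟩
    rw [h]
    exact hd hs hs1.le ψ
  · let Y : Set (HamGroup n →* Q) := {f | (f : HamGroup n → Q) ∈ X}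
    have hY : Cardinal.mk Y < 𝔠 := by
      refine lt_of_le_of_lt (Cardinal.mk_le_of_injective
        (f := fun f : Y => (⟨((f : HamGroup n →* Q) : HamGroup n → Q), f.2⟩ : X)) ?_) hXc
      intro f f' h
      exact Subtype.ext (DFunLike.coe_injective (congrArg Subtype.val h))
    let w' : HamGroup n →* Q := MonoidHom.mk' w (hX w hw)
    have h1 := (ds hn).small_hom Y hY (fun s hs hs1 f hf => by
      obtain ⟨c', hc', h⟩ := hXd s hs hs1 _ hf
      change ((f.comp ((ds hn).d s) : HamGroup n →* Q) : HamGroup n → Q) ∈ X
      have e : ((f.comp ((ds hn).d s) : HamGroup n →* Q) : HamGroup n → Q) = c' := by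
        funext φ
        exact (h φ _ (hd hs hs1.le φ)).symm
      rw [e]
      exact hc') w' hw
    exact DFunLike.congr_fun h1 φ
  · rcases lt_or_ge (Cardinal.mk (HamGroup n →* Q)) 𝔠 with h | h
    · refine Or.inl fun w => ?_
      have h0 : Cardinal.mk (Set.univ : Set (HamGroup n →* Q)) < 𝔠 := by
        rw [Cardinal.mk_univ]
        exact h
      exact (ds hn).small_hom Set.univ h0 (fun _ _ _ _ _ => Set.mem_univ _) w (Set.mem_univ w)
    · exact Or.inr h
  · refine (ds hn).small_class X hXc (fun c hc φ ψ => (hX c hc).conj φ ψ)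
      (fun c hc φ ψ h => (hX c hc).comm φ ψ h) (fun s hs hs1 c hc => ?_) c hc φ
    obtain ⟨c', hc', h⟩ := hXd s hs hs1 c hc
    have e : (fun g => c ((ds hn).d s g)) = c' := by
      funext φ
      exact (h φ _ (hd hs hs1.le φ)).symm
    rw [e]
    exact hc'
  · exact (ds hn).fg N (fun s hs hs1 g hg => hNd s hs hs1 g _ (hd hs hs1.le g) hg) T hT
  · exact (ds hn).rank N (fun s hs hs1 g hg => hNd s hs hs1 g _ (hd hs hs1.le g) hg) hab hf T hT
  · exact (ds hn).fg _ (fun s hs hs1 g hg => hcom s hs hs1 g _ (hd hs hs1.le g) hg) T hT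
  · refine (ds hn).rank _ (fun s hs hs1 g hg => hcom s hs hs1 g _ (hd hs hs1.le g) hg)
      (fun φ ψ => ?_) hf T hT
    exact Subgroup.commutator_mem_commutator (Subgroup.mem_top _) (Subgroup.mem_top _)

end Pool.Agent.Results.MP_68f289_gt.ZeroOrContinuum
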