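import Pool.Agent.Q102.ClassP.Arith

/-!
# MP_6957f6_co, Q1: the class P conjecture (language version) is false

The word `u` is the fixed point of the primitive morphism `a ↦ ab, b ↦ acccc, c ↦ abacccc`. It is
palindromic. If `ψ` is a morphism conjugate to a morphism in class P and `ψ` has a fixed point with
the same language as `u`, then `ψ` is the identity. In particular no primitive morphism in class P
has a fixed point with the language of `u`.

The proof: a word `y` whose fourth power is a factor of `u` is empty, or `c`, or has the letter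
counts of one of the words `R_j` with `R_{j+2} = 5 R_{j+1} + R_j`. Applied to the images of
`abacccc`, of `φ(abacccc)` and of `c` under a morphism `ψ` preserving the language this determines
the letter counts of `ψ(a)`, `ψ(b)`, `ψ(c)`: either `ψ` is the identity, or modulo 2 they are
the three vectors `(1,1,0), (0,1,0), (1,0,0)` in some order, and then `ψ(x) p` cannot be a
palindrome for all three letters `x`, for any palindrome `p`.
-/

set_option autoImplicit false

namespace Pool.Agent.Results.MP_6957f6_co.ClassPFails

/-- The image of a finite word under the morphism with letter images `f`. -/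
def ap {α β : Type} (f : α → List β) (w : List α) : List β := w.flatMap f

/-- The factor of length `n` at position `i` of an infinite word. -/
def seg {α : Type} (u : ℕ → α) (i n : ℕ) : List α := (List.range n).map (fun j => u (i + j))

/-- The language of an infinite word. -/
def language {α : Type} (u : ℕ → α) : Set (List α) := {w | ∃ i n : ℕ, w = seg u i n}

/-- `u` is a fixed point of `f`, i.e. `f(u) = u`: the images of the prefixes of `u` are prefixes of
`u`, and their lengths are unbounded. -/
def IsFixedPoint {α : Type} (f : α → List α) (u : ℕ → α) : Prop :=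
  (∀ n : ℕ, ap f (seg u 0 n) = seg u 0 (ap f (seg u 0 n)).length) ∧
    ∀ m : ℕ, ∃ n : ℕ, m ≤ (ap f (seg u 0 n)).length

/-- A morphism is primitive: for some `k`, every letter occurs in the `k`-th iterated image of every
letter. -/
def IsPrimitive {α : Type} (f : α → List α) : Prop := ∃ k : ℕ, ∀ a b : α, b ∈ (ap f)^[k] [a]

/-- Class P: for some palindrome `p`, for every letter `a`, `p` is a prefix of `f(a)` and `f(a) p`
is a palindrome. -/
def ClassP {α : Type} (f : α → List α) : Prop :=
  ∃ p : List α, p.reverse = p ∧ ∀ a : α, p <+: f a ∧ (f a ++ p).reverse = f a ++ p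

/-- Two morphisms are conjugate. -/
def Conj {α : Type} (f g : α → List α) : Prop :=
  ∃ w : List α, (∀ a, f a ++ w = w ++ g a) ∨ (∀ a, g a ++ w = w ++ f a)

/-- An infinite word is palindromic: infinitely many distinct palindromes are factors of it. -/
def IsPalindromic {α : Type} (u : ℕ → α) : Prop := {w | w ∈ language u ∧ w.reverse = w}.Infinite

/-! ### Basic facts on words -/

section basic

variable {α : Type}

@[simp] lemma seg_length (u : ℕ → α) (i n : ℕ) : (seg u i n).length = n := by simp [seg]

lemma seg_add (u : ℕ → α) (i m n : ℕ) : seg u i (m + n) = seg u i m ++ seg u (i + m) n := by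
  apply List.ext_getElem
  · simp
  · intro j h1 h2
    rw [List.getElem_append]
    split_ifs with h
    · simp [seg]
    · rw [seg_length] at h
      simp only [seg, List.getElem_map, List.getElem_range, List.length_map, List.length_range]
      congr 1
      omega

lemma ap_append {β : Type} (f : α → List β) (w w' : List α) :
    ap f (w ++ w') = ap f w ++ ap f w' := by
  simp [ap]

/-- a prefix of a prefix of `u` -/
lemma prefix_seg {u : ℕ → α} {w : List α} {n : ℕ} (h : w <+: seg u 0 n) :
    w = seg u 0 w.length := by
  have hl : w.length ≤ n := by simpa using h.length_le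
  obtain ⟨t, ht⟩ := h
  obtain ⟨k, rfl⟩ := Nat.exists_eq_add_of_le hl
  rw [seg_add] at ht
  exact (List.append_inj ht (by simp)).1

/-- a factor of a prefix of `u` -/
lemma infix_seg {u : ℕ → α} {w : List α} {n : ℕ} (h : w <:+: seg u 0 n) : w ∈ language u := by
  obtain ⟨p, q, hpq⟩ := h
  have h1 : p ++ w = seg u 0 (p ++ w).length := prefix_seg ⟨q, hpq⟩
  rw [List.length_append, seg_add] at h1
  refine ⟨0 + p.length, w.length, ?_⟩
  exact (List.append_inj h1 (by simp)).2

/-- images of factors of a fixed point are factors -/
lemma ap_language {f : α → List α} {v : ℕ → α} (h : IsFixedPoint f v) {w : List α}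
    (hw : w ∈ language v) : ap f w ∈ language v := by
  obtain ⟨i, n, rfl⟩ := hw
  have h1 := h.1 (i + n)
  refine infix_seg (n := (ap f (seg v 0 (i + n))).length) ?_
  rw [← h1, seg_add, ap_append]
  exact ⟨ap f (seg v 0 i), [], by simp⟩

end basic

/-! ### The example -/

open Pool.Agent.Q102.ClassP

/-- `a ↦ ab, b ↦ acccc, c ↦ abacccc` -/
def phi : Fin 3 → List (Fin 3) := ![[0, 1], [0, 2, 2, 2, 2], [0, 1, 0, 2, 2, 2, 2]]

/-- the fixed point -/
def uu (n : ℕ) : Fin 3 := (TT (Sj n)).getD n 0

lemma length_Sj (n : ℕ) : n + 1 ≤ (Sj n).length := by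
  cases n with
  | zero => simp [Sj]
  | succ n => rw [Sj_succ]; exact length_Zj_ge n

lemma length_TTSj (n : ℕ) : n < (TT (Sj n)).length := by
  have h1 := length_Sj n
  have h2 := length_TT_mono (Sj n)
  omega

lemma TTSj_prefix (n k : ℕ) (h : n ≤ k) : TT (Sj n) <+: TT (Sj k) := by
  obtain ⟨j, rfl⟩ := Nat.exists_eq_add_of_le h
  obtain ⟨t, ht⟩ := Sj_prefix n j
  rw [← ht, TT_append]
  exact List.prefix_append _ _

lemma uu_eq (n i : ℕ) (h : i < (TT (Sj n)).length) : (TT (Sj n))[i]? = some (uu i) := by
  have h1 := length_TTSj i
  have h2 : (TT (Sj i))[i]? = some (uu i) := by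
    unfold uu
    rw [List.getD_eq_getElem?_getD, List.getElem?_eq_getElem h1]; rfl
  rcases le_total n i with h3 | h3
  · obtain ⟨t, ht⟩ := TTSj_prefix n i h3
    rw [← ht, List.getElem?_append_left h] at h2
    exact h2
  · obtain ⟨t, ht⟩ := TTSj_prefix i n h3
    rw [← ht, List.getElem?_append_left h1]
    exact h2

lemma seg_uu (n : ℕ) : seg uu 0 (TT (Sj n)).length = TT (Sj n) := by
  apply List.ext_getElem?
  intro i
  by_cases hi : i < (TT (Sj n)).length
  · rw [uu_eq n i hi]
    simp [seg, hi]
  · push Not at hi
    rw [List.getElem?_eq_none (by simpa using hi), List.getElem?_eq_none hi]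

lemma language_uu : language uu = Lu := by
  ext w
  constructor
  · rintro ⟨i, n, rfl⟩
    refine ⟨i + n, ?_⟩
    rw [← seg_uu (i + n)]
    obtain ⟨k, hk⟩ := Nat.exists_eq_add_of_le (length_TTSj (i + n)).le
    rw [hk, seg_add, seg_add]
    exact ⟨seg uu 0 i, seg uu (0 + (i + n)) k, by simp⟩
  · rintro ⟨n, hn⟩
    rw [← seg_uu n] at hn
    exact infix_seg hn

lemma ap_phi_TT (w : List Bool) : ap phi (TT w) = TT (G w) := by
  induction w with
  | nil => rfl
  | cons v w ih =>
    rw [TT_cons, ap_append, ih, G_cons, TT_append]
    congr 1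
    cases v <;> decide

lemma phi_ne (x : Fin 3) : 1 ≤ (phi x).length := by fin_cases x <;> simp [phi]

lemma length_ap_phi (w : List (Fin 3)) : w.length ≤ (ap phi w).length := by
  induction w with
  | nil => simp
  | cons x w ih =>
    have h1 : ap phi (x :: w) = phi x ++ ap phi w := by simp [ap]
    have h2 := phi_ne x
    rw [h1, List.length_append, List.length_cons]
    omega

lemma fixed_uu : IsFixedPoint phi uu := by
  constructor
  · intro n
    obtain ⟨k, hk⟩ := Nat.exists_eq_add_of_le (length_TTSj n).le
    have h1 : ap phi (seg uu 0 n) <+: seg uu 0 (TT (Sj (n + 1))).length := by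
      have h2 : Sj (n + 1) = G (Sj n) := by unfold Sj; rw [Function.iterate_succ_apply']
      rw [seg_uu, h2, ← ap_phi_TT, ← seg_uu n, hk, seg_add, ap_append]
      exact List.prefix_append _ _
    exact prefix_seg h1
  · intro m
    refine ⟨m, ?_⟩
    have := length_ap_phi (seg uu 0 m)
    rwa [seg_length] at this

lemma primitive_phi : IsPrimitive phi := by
  refine ⟨2, ?_⟩
  intro a b
  fin_cases a <;> fin_cases b <;> decide

lemma length_TT_G (p : List Bool) : (TT p).length ≤ (TT (G p)).length := by
  induction p with
  | nil => simp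
  | cons v p ih =>
    rw [G_cons, TT_cons, TT_append, List.length_append, List.length_append]
    have h1 : (tau v).length ≤ (TT (g v)).length := by cases v <;> decide
    omega

lemma length_Qn (n : ℕ) : (Qn n).length < (Qn (n + 1)).length := by
  have h1 := length_TT_G (Pn n)
  have h2 : Pn (n + 1) = wp ++ G (Pn n) := rfl
  have h3 : 0 < (TT wp).length := by decide
  unfold Qn
  rw [h2, TT_append]
  simp only [List.length_append]
  omega

lemma palindromic_uu : IsPalindromic uu := by
  unfold IsPalindromic
  rw [language_uu]
  refine Set.infinite_of_injective_forall_mem (f := Qn) ?_ (fun n => ⟨Qn_Lu n, Qn_pal n⟩)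
  have h1 : StrictMono (fun n => (Qn n).length) := strictMono_nat_of_lt_succ length_Qn
  intro m n hmn
  exact h1.injective (congrArg List.length hmn)

lemma count_conj {f g : Fin 3 → List (Fin 3)} (h : Conj f g) (x ℓ : Fin 3) :
    (f x).count ℓ = (g x).count ℓ := by
  obtain ⟨w, h | h⟩ := h
  · have h1 := congrArg (List.count ℓ) (h x)
    rw [List.count_append, List.count_append] at h1
    omega
  · have h1 := congrArg (List.count ℓ) (h x)
    rw [List.count_append, List.count_append] at h1
    omega

/-- every morphism conjugate to a class P morphism and preserving the language is trivial -/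
lemma trivial_of_conj (ψ χ : Fin 3 → List (Fin 3)) (v : ℕ → Fin 3) (hχ : ClassP χ)
    (hc : Conj ψ χ) (hv : IsFixedPoint ψ v) (hL : language v = language uu) :
    ∀ x, ψ x = [x] := by
  obtain ⟨p, hp, hpal⟩ := hχ
  rw [language_uu] at hL
  have hψ : ∀ w ∈ Lu, w.flatMap ψ ∈ Lu := by
    intro w hw
    rw [← hL] at hw ⊢
    exact ap_language hv hw
  have h0 : ∃ x, (0 : Fin 3) ∈ ψ x := by
    have h1 : ([0] : List (Fin 3)) ∈ language v := by
      rw [hL]
      exact ⟨0, [], [1], by decide⟩
    obtain ⟨i, n, hi⟩ := h1
    have hn : n = 1 := by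
      have := congrArg List.length hi
      simpa using this.symm
    subst hn
    have hvi : v i = 0 := by
      simpa [seg] using hi.symm
    obtain ⟨m, hm⟩ := hv.2 (i + 1)
    have h2 := hv.1 m
    have h3 : (0 : Fin 3) ∈ ap ψ (seg v 0 m) := by
      rw [h2]
      unfold seg
      rw [List.mem_map]
      exact ⟨i, by rw [List.mem_range]; exact hm, by rw [Nat.zero_add]; exact hvi⟩
    obtain ⟨x, -, hx⟩ := List.mem_flatMap.mp h3
    exact ⟨x, hx⟩
  refine core ψ hψ h0 p hp fun x => ⟨χ x ++ p, (hpal x).2, fun ℓ => ?_⟩
  rw [List.count_append, count_conj hc]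

/-- **The class P conjecture fails.** There are a primitive morphism `φ` on three letters and a
palindromic fixed point `u` of `φ` such that no primitive morphism in class P has a fixed point
with the language of `u`. Moreover, every morphism (primitive or not) that is conjugate to a
morphism in class P and has a fixed point with the language of `u` is the identity. -/
theorem result :
    ∃ (φ : Fin 3 → List (Fin 3)) (u : ℕ → Fin 3),
      IsPrimitive φ ∧ IsFixedPoint φ u ∧ IsPalindromic u ∧
      (∀ (ψ : Fin 3 → List (Fin 3)) (v : ℕ → Fin 3), ClassP ψ → IsPrimitive ψ →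
        IsFixedPoint ψ v → language v ≠ language u) ∧
      (∀ (ψ χ : Fin 3 → List (Fin 3)) (v : ℕ → Fin 3), ClassP χ → Conj ψ χ →
        IsFixedPoint ψ v → language v = language u → ∀ x, ψ x = [x]) := by
  refine ⟨phi, uu, primitive_phi, fixed_uu, palindromic_uu, ?_, trivial_of_conj⟩
  intro ψ v hψ hprim hv hL
  have h1 := trivial_of_conj ψ ψ v hψ ⟨[], Or.inl fun a => by simp⟩ hv hL
  obtain ⟨k, hk⟩ := hprim
  have h2 : ∀ w, ap ψ w = w := by
    intro w
    induction w with
    | nil => rfl
    | cons x w ih =>
      have h3 : ap ψ (x :: w) = ψ x ++ ap ψ w := by simp [ap]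
      rw [h3, h1, ih]; rfl
  have h4 : ap ψ = id := funext h2
  have h5 := hk 0 1
  rw [h4, Function.iterate_id] at h5
  simp at h5

end Pool.Agent.Results.MP_6957f6_co.ClassPFails
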