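import Pool.Agent.Q282.BP.Law2
import Pool.Agent.Q282.BP.Loc
import Pool.Agent.Q282.BP.Bad
import Pool.Agent.Q282.BP.RankFam
import Pool.Agent.Y57.FD.HypM

/-!
# The original products of Birch and Swinnerton-Dyer for almost all elliptic curves with marked points

Birch and Swinnerton-Dyer were led to their conjecture by the observation that curves with many rational points have many points
modulo `p`, in the form that the products `P(X) = ∏_{p ≤ X} (N_p + 1) / p` grow like `(log X) ^ rank`.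

Here the curves `E_t : y ^ 2 = x ^ 3 + b x ^ 2 + c x + d` with `r = 0, 1, 2` marked independent points are considered:

* `r = 0`: all `b, c, d`;
* `r = 1`: all curves with an integral point `(x₁, y₁)`: `x ^ 3 + b x ^ 2 + c x + d = (x - x₁) (x ^ 2 + u x + v) + y₁ ^ 2`;
* `r = 2`: all curves with three integral points on a line `y = l x + m`:
  `x ^ 3 + b x ^ 2 + c x + d = (x - x₁) (x - x₂) (x - x₃) + (l x + m) ^ 2`.

It is proved that for almost all curves of the families, in arbitrary boxes with sides `≥ T`, the rank over the rational numbers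
is at least `r`, and `P(X) = (log X) ^ (r + 1 / 2) exp (O ((log log X) ^ (1 / 2 + δ)))` simultaneously for all `X` between `X₀` and
`T ^ c`, up to a proportion `O ((log log X₀) ^ (-A))` of exceptions.  The exponent is the generic rank `r` plus `1 / 2`: in the
range `X ≤ T ^ c` the products see the marked points, but not the additional rank of the single curve.

Proof. The local means of `log ((N_p + 1) / p)` over the families are `(r + 1 / 2) / p + O (p ^ (-3 / 2))`.  The moments of the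
centred sums over the primes in any interval are estimated by the Chinese remainder theorem, the maximum over all `X` is
controlled by a maximal inequality of Móricz and Billingsley.  The bound of Hasse and Weil is taken from the starting files.
The marked points are independent, if there is no rational point of order two and if the marked points are not divisible by two;
otherwise certain integral cubic or quartic polynomials have integral roots, and this is excluded for almost all `t` by a sieve.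
-/

set_option autoImplicit false

namespace Pool.Agent.Results.MP_696deb_nt.MarkedPoints

open Finset

/-- The coefficients `(b, c, d)` of the cubic polynomials `x ^ 3 + b x ^ 2 + c x + d` of the families:
all polynomials (`r = 0`), `(x - t 0) (x ^ 2 + t 2 x + t 3) + (t 1) ^ 2` (`r = 1`), and
`(x - t 0) (x - t 1) (x - t 2) + (t 3 x + t 4) ^ 2` (`r = 2`). -/
def family : (r : ℕ) → (Fin (r + 3) → ℤ) → ℤ × ℤ × ℤ
  | 0, t => (t 0, t 1, t 2)
  | 1, t => (t 2 - t 0, t 3 - t 0 * t 2, t 1 ^ 2 - t 0 * t 3)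
  | _ + 2, t => (t 3 ^ 2 - (t 0 + t 1 + t 2), t 0 * t 1 + t 0 * t 2 + t 1 * t 2 + 2 * t 3 * t 4, t 4 ^ 2 - t 0 * t 1 * t 2)

/-- `N_p`: the number of the solutions of `y ^ 2 = x ^ 3 + b x ^ 2 + c x + d` modulo `p`. -/
noncomputable def points (C : ℤ × ℤ × ℤ) (p : ℕ) : ℕ :=
  Nat.card {P : ZMod p × ZMod p // P.2 ^ 2 = P.1 ^ 3 + (C.1 : ZMod p) * P.1 ^ 2 + (C.2.1 : ZMod p) * P.1 + (C.2.2 : ZMod p)}

/-- The discriminant of `x ^ 3 + b x ^ 2 + c x + d`. -/
def disc (C : ℤ × ℤ × ℤ) : ℤ :=
  C.1 ^ 2 * C.2.1 ^ 2 - 4 * C.2.1 ^ 3 - 4 * C.1 ^ 3 * C.2.2 + 18 * C.1 * C.2.1 * C.2.2 - 27 * C.2.2 ^ 2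

/-- `p` is a prime which does not divide twice the discriminant. -/
def Good (C : ℤ × ℤ × ℤ) (p : ℕ) : Prop := p.Prime ∧ ¬ (p : ℤ) ∣ 2 * disc C

open Classical in
/-- The product of Birch and Swinnerton-Dyer: `P(X) = ∏ (N_p + 1) / p` over the good primes `p ≤ X`. -/
noncomputable def product (C : ℤ × ℤ × ℤ) (X : ℕ) : ℝ :=
  ∏ p ∈ (Icc 1 X).filter (Good C), ((points C p : ℝ) + 1) / p

/-- The curve `y ^ 2 = x ^ 3 + b x ^ 2 + c x + d` over the rational numbers, where `C = (b, c, d)`. -/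
def curve (C : ℤ × ℤ × ℤ) : WeierstrassCurve ℚ := { a₁ := 0, a₂ := C.1, a₃ := 0, a₄ := C.2.1, a₆ := C.2.2 }

/-- The box of the parameters `t` with `N i ≤ t i < N i + L i` for all `i`. -/
noncomputable def box {k : ℕ} (N : Fin k → ℤ) (L : Fin k → ℕ) : Finset (Fin k → ℤ) := Fintype.piFinset fun i => Ico (N i) (N i + L i)

/-! ### Proofs -/

lemma card_affine {F : Type} [Field F] [Fintype F] [DecidableEq F] (hchar : ringChar F ≠ 2) (f : F → F) :
    (Nat.card {P : F × F // P.2 ^ 2 = f P.1} : ℝ) = (Fintype.card F : ℝ) + ∑ x : F, Q282.BP.ch (f x) := by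
  classical
  have h1 : Nat.card {P : F × F // P.2 ^ 2 = f P.1} = ∑ x : F, Nat.card {y : F // y ^ 2 = f x} := by
    rw [← Nat.card_sigma]
    refine Nat.card_congr ⟨fun P => ⟨P.1.1, ⟨P.1.2, P.2⟩⟩, fun P => ⟨(P.1, P.2.1), P.2.2⟩, fun _ => rfl, fun _ => rfl⟩
  have h2 : ∀ x : F, ((Nat.card {y : F // y ^ 2 = f x} : ℕ) : ℤ) = quadraticChar F (f x) + 1 := by
    intro x
    rw [← quadraticChar_card_sqrts hchar (f x)]
    congr 1
    rw [Nat.card_eq_fintype_card, Fintype.card_subtype]
    congr 1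
    ext y
    simp
  rw [h1]
  push_cast
  have h3 : ∀ x : F, ((Nat.card {y : F // y ^ 2 = f x} : ℕ) : ℝ) = Q282.BP.ch (f x) + 1 := by
    intro x
    have := h2 x
    unfold Q282.BP.ch
    exact_mod_cast this
  rw [sum_congr rfl (fun x _ => h3 x), sum_add_distrib, sum_const, card_univ, nsmul_eq_mul, mul_one]
  ring

/-- Hasse's bound -/
lemma hasse {K : Type} [Field K] [Fintype K] [DecidableEq K] (hK : ringChar K ≠ 2) (c : K × K × K) :
    |Q282.BP.SS c| ≤ 2 * Real.sqrt (Fintype.card K) := by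
  obtain ⟨f, hf⟩ : ∃ f : Polynomial K, f = Polynomial.X ^ 3 + (Polynomial.C c.1 * Polynomial.X ^ 2 +
    Polynomial.C c.2.1 * Polynomial.X + Polynomial.C c.2.2) := ⟨_, rfl⟩
  have hlow : (Polynomial.C c.1 * Polynomial.X ^ 2 + Polynomial.C c.2.1 * Polynomial.X + Polynomial.C c.2.2 :
      Polynomial K).degree < ((3 : ℕ) : WithBot ℕ) := by
    refine lt_of_le_of_lt (Polynomial.degree_quadratic_le) ?_
    exact_mod_cast (by norm_num : 2 < 3)
  have hm : f.Monic := by
    rw [hf]
    exact Polynomial.monic_X_pow_add hlow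
  have hd : f.natDegree = 3 := by
    apply Polynomial.natDegree_eq_of_degree_eq_some
    rw [hf, Polynomial.degree_add_eq_left_of_degree_lt, Polynomial.degree_X_pow]
    rw [Polynomial.degree_X_pow]
    exact hlow
  have h1 := Pool.Agent.H341R2.Sharp.weil_sharp_monic hK hm (by rw [hd]; norm_num) (by
    intro a h hc
    have h3 : f ≠ 0 := hm.ne_zero
    have ha0 : a ≠ 0 := by
      rintro rfl
      rw [Polynomial.C_0, zero_mul] at hc
      exact h3 hc
    have h2 := hd
    rw [hc, Polynomial.natDegree_C_mul ha0, Polynomial.natDegree_pow] at h2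
    omega)
  rw [hd] at h1
  have h2 : ∀ x : K, f.eval x = Q282.BP.cub c x := by
    intro x
    rw [hf]
    unfold Q282.BP.cub
    simp
    ring
  have h3 : Q282.BP.SS c = ∑ x : K, (quadraticChar K (f.eval x) : ℝ) := by
    unfold Q282.BP.SS Q282.BP.ch
    exact sum_congr rfl fun x _ => by rw [h2 x]
  rw [h3]
  refine h1.trans (le_of_eq ?_)
  norm_num

open Classical in
/-- the summand of `log P(X)` -/
noncomputable def hh (C : ℤ × ℤ × ℤ) (p : ℕ) : ℝ := if Good C p then Real.log (((points C p : ℝ) + 1) / p) else 0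

lemma log_product (C : ℤ × ℤ × ℤ) (X : ℕ) : Real.log (product C X) = ∑ p ∈ Q282.BP.PP X, hh C p := by
  classical
  unfold product
  rw [Real.log_prod]
  · have h1 : (Icc 1 X).filter (Good C) = (Q282.BP.PP X).filter (Good C) := by
      ext p
      simp only [mem_filter]
      constructor
      · rintro ⟨h1, h2⟩
        exact ⟨⟨h1, h2.1⟩, h2⟩
      · rintro ⟨⟨h1, _⟩, h2⟩
        exact ⟨h1, h2⟩
    rw [h1, sum_filter]
    rfl
  · intro p hp
    rw [mem_filter, mem_Icc] at hp
    have : (0 : ℝ) < p := by exact_mod_cast hp.1.1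
    positivity

/-- the value modulo `p` -/
noncomputable def loc (p : ℕ) [Fact p.Prime] (c : ZMod p × ZMod p × ZMod p) : ℝ :=
  if Q282.BP.dis c = 0 then 0 else Real.log (1 + (1 + Q282.BP.SS c) / p)

/-- reduction of the coefficients -/
def redc (p : ℕ) (C : ℤ × ℤ × ℤ) : ZMod p × ZMod p × ZMod p := ((C.1 : ZMod p), (C.2.1 : ZMod p), (C.2.2 : ZMod p))

lemma redc_family (p r : ℕ) (t : Fin (r + 3) → ℤ) :
    redc p (family r t) = Q282.BP.fam r (fun i => (t i : ZMod p)) := by
  match r, t with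
  | 0, t => rfl
  | 1, t =>
    unfold redc family Q282.BP.fam
    push_cast
    rfl
  | r + 2, t =>
    unfold redc family Q282.BP.fam
    push_cast
    rfl

lemma hh_eq (p : ℕ) [Fact p.Prime] (hp2 : p ≠ 2) (C : ℤ × ℤ × ℤ) : hh C p = loc p (redc p C) := by
  classical
  have hp : p.Prime := Fact.out
  have hchar : ringChar (ZMod p) ≠ 2 := by
    rw [ZMod.ringChar_zmod_n]
    exact hp2
  have hp0 : (0 : ℝ) < p := by exact_mod_cast hp.pos
  have hgood : Good C p ↔ ¬ Q282.BP.dis (redc p C) = 0 := by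
    have e : Q282.BP.dis (redc p C) = ((disc C : ℤ) : ZMod p) := by
      unfold Q282.BP.dis redc disc
      push_cast
      rfl
    have h2 : (2 : ZMod p) ≠ 0 := by
      intro h
      have h3 : ((2 : ℕ) : ZMod p) = 0 := by exact_mod_cast h
      rw [ZMod.natCast_eq_zero_iff] at h3
      exact hp2 ((Nat.prime_dvd_prime_iff_eq hp Nat.prime_two).1 h3)
    unfold Good
    rw [e]
    constructor
    · rintro ⟨-, h⟩ h0
      rw [ZMod.intCast_zmod_eq_zero_iff_dvd] at h0
      exact h (h0.mul_left 2)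
    · intro h
      refine ⟨hp, fun hdvd => ?_⟩
      rw [← ZMod.intCast_zmod_eq_zero_iff_dvd] at hdvd
      push_cast at hdvd
      rcases mul_eq_zero.1 hdvd with h3 | h3
      · exact h2 h3
      · exact h h3
  have hpts : (points C p : ℝ) = p + Q282.BP.SS (redc p C) := by
    unfold points
    rw [card_affine hchar (fun x => x ^ 3 + (C.1 : ZMod p) * x ^ 2 + (C.2.1 : ZMod p) * x + (C.2.2 : ZMod p)), ZMod.card]
    rfl
  unfold hh loc
  by_cases hg : Good C p
  · rw [if_pos hg, if_neg (hgood.1 hg), hpts]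
    congr 1
    field_simp
    ring
  · rw [if_neg hg, if_pos (not_not.1 fun h => hg (hgood.2 h))]

lemma hh_two (C : ℤ × ℤ × ℤ) : hh C 2 = 0 := by
  unfold hh
  rw [if_neg]
  rintro ⟨-, h⟩
  exact h (Dvd.intro _ rfl)

lemma sqrt_ge {p : ℕ} (hp : 3 ≤ p) : 3 / 2 ≤ Real.sqrt p := by
  refine Real.le_sqrt_of_sq_le ?_
  have : (3 : ℝ) ≤ p := by exact_mod_cast hp
  norm_num
  linarith

lemma hh_le (C : ℤ × ℤ × ℤ) (p : ℕ) (hp : p.Prime) : |hh C p| ≤ 6 / Real.sqrt p := by
  by_cases hp2 : p = 2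
  · rw [hp2, hh_two, abs_zero]
    positivity
  · have : Fact p.Prime := ⟨hp⟩
    have hp3 : 3 ≤ p := by
      have := hp.two_le
      omega
    have hchar : ringChar (ZMod p) ≠ 2 := by
      rw [ZMod.ringChar_zmod_n]
      exact hp2
    rw [hh_eq p hp2]
    unfold loc
    split_ifs
    · rw [abs_zero]
      positivity
    · have h1 := hasse hchar (redc p C)
      rw [ZMod.card] at h1
      have h2 := Q282.BP.log_bound (sqrt_ge hp3) h1
      rw [Real.sq_sqrt (by positivity)] at h2
      exact h2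

/-- the local means -/
lemma mean_hh (r : ℕ) (hr : r ≤ 2) : ∃ B₁ : ℝ, 0 ≤ B₁ ∧ ∀ p : ℕ, p.Prime → ∀ N : Fin (r + 3) → ℤ,
    |Pool.Agent.TH894.NE.mean (r + 3) p (fun n => hh (family r (fun i => N i + n i)) p) - (r + 1 / 2) / p| ≤
      B₁ / (p : ℝ) ^ (3 / 2 : ℝ) := by
  classical
  obtain ⟨C', hC'0, hC'⟩ := Q282.BP.local_gen r 20 (by norm_num)
  refine ⟨C' + 12, by positivity, fun p hp N => ?_⟩
  have hp0 : (0 : ℝ) < p := by exact_mod_cast hp.pos
  by_cases hp2 : p = 2
  · subst hp2
    have h1 : (fun n : Fin (r + 3) → ℕ => hh (family r (fun i => N i + n i)) 2) = fun _ => 0 := by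
      funext n
      exact hh_two _
    rw [h1, Pool.Agent.TH894.NE.mean_const _ _ (by norm_num), zero_sub, abs_neg]
    have h2 : ((2 : ℕ) : ℝ) ^ (3 / 2 : ℝ) ≤ 4 := by
      calc ((2 : ℕ) : ℝ) ^ (3 / 2 : ℝ) ≤ ((2 : ℕ) : ℝ) ^ (2 : ℝ) :=
            Real.rpow_le_rpow_of_exponent_le (by norm_num) (by norm_num)
        _ = 4 := by norm_num
    have h3 : |((r : ℝ) + 1 / 2) / ((2 : ℕ) : ℝ)| ≤ 3 := by
      have h4 : (r : ℝ) ≤ 2 := by exact_mod_cast hr
      have h5 : (0 : ℝ) ≤ r := Nat.cast_nonneg r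
      rw [abs_of_nonneg (by positivity)]
      push_cast
      linarith
    refine h3.trans ?_
    rw [le_div_iff₀ (by positivity)]
    have h4 : (0 : ℝ) < ((2 : ℕ) : ℝ) ^ (3 / 2 : ℝ) := by positivity
    linarith
  · have : Fact p.Prime := ⟨hp⟩
    have hp3 : 3 ≤ p := by
      have := hp.two_le
      omega
    have hchar : ringChar (ZMod p) ≠ 2 := by
      rw [ZMod.ringChar_zmod_n]
      exact hp2
    have h27 : (27 : ZMod p) ≠ 0 ∨ Fintype.card (ZMod p) = 3 := by
      by_cases h3 : p = 3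
      · right
        rw [ZMod.card, h3]
      · left
        intro h
        have h4 : ((27 : ℕ) : ZMod p) = 0 := by exact_mod_cast h
        rw [ZMod.natCast_eq_zero_iff] at h4
        have h5 : p ∣ 3 ^ 3 := by norm_num; exact h4
        exact h3 ((Nat.prime_dvd_prime_iff_eq hp Nat.prime_three).1 (hp.dvd_of_dvd_pow h5))
    obtain ⟨hb, hm1, hm2⟩ := Q282.BP.loc_fam hchar h27 r hr
    rw [ZMod.card] at hb hm1 hm2
    have h1 := hC' p hp3 (Fin (r + 3) → ZMod p) (fun t => Q282.BP.SS (Q282.BP.fam r t)) (fun t => Q282.BP.dis (Q282.BP.fam r t) = 0)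
      (fun t => by
        have := hasse hchar (Q282.BP.fam r t)
        rw [ZMod.card] at this
        exact this)
      (by convert hb) hm1 hm2
    have h2 : Pool.Agent.TH894.NE.mean (r + 3) p (fun n => hh (family r (fun i => N i + n i)) p) =
        (∑ u : Fin (r + 3) → ZMod p, if Q282.BP.dis (Q282.BP.fam r u) = 0 then 0 else
          Real.log (1 + (1 + Q282.BP.SS (Q282.BP.fam r u)) / p)) / Fintype.card (Fin (r + 3) → ZMod p) := by
      unfold Pool.Agent.TH894.NE.mean
      have h3 : ∀ n : Fin (r + 3) → ℕ, hh (family r (fun i => N i + n i)) p =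
          (fun u : Fin (r + 3) → ZMod p => loc p (Q282.BP.fam r (fun i => (N i : ZMod p) + u i))) (fun i => (n i : ZMod p)) := by
        intro n
        show _ = loc p (Q282.BP.fam r (fun i => (N i : ZMod p) + (n i : ZMod p)))
        rw [hh_eq p hp2, redc_family]
        congr 2
        funext i
        push_cast
        rfl
      rw [sum_congr rfl fun n _ => h3 n, Pool.Agent.Y57.FD.HM.sum_box p
        (fun u : Fin (r + 3) → ZMod p => loc p (Q282.BP.fam r (fun i => (N i : ZMod p) + u i)))]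
      have h4 : ∑ u : Fin (r + 3) → ZMod p, loc p (Q282.BP.fam r (fun i => (N i : ZMod p) + u i)) =
          ∑ u : Fin (r + 3) → ZMod p, loc p (Q282.BP.fam r u) :=
        Fintype.sum_equiv (Equiv.addLeft (fun i => (N i : ZMod p))) _ _ fun u => rfl
      rw [h4, Fintype.card_pi_const, ZMod.card, one_div, inv_mul_eq_div]
      push_cast
      rfl
    rw [h2]
    refine le_trans ?_ (h1.trans ?_)
    · refine le_of_eq ?_
      congr 3
      refine sum_congr rfl fun u _ => ?_
      split_ifs <;> rfl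
    · refine div_le_div_of_nonneg_right (by linarith) (by positivity)

lemma hh_per (r p : ℕ) (hp : p.Prime) (N : Fin (r + 3) → ℤ) :
    Pool.Agent.TH894.NE.Per p (fun n : Fin (r + 3) → ℕ => hh (family r (fun i => N i + n i)) p) := by
  intro n
  by_cases hp2 : p = 2
  · subst hp2
    show hh _ 2 = hh _ 2
    rw [hh_two, hh_two]
  · have : Fact p.Prime := ⟨hp⟩
    show hh (family r (fun i => N i + n i)) p = hh (family r (fun i => N i + (n i % p : ℕ))) p
    rw [hh_eq p hp2, hh_eq p hp2, redc_family, redc_family]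
    congr 2
    funext i
    push_cast
    rfl

lemma family_eq (r : ℕ) (t : Fin (r + 3) → ℤ) : family r t = Q282.BP.fam r t := by
  match r, t with
  | 0, t => rfl
  | 1, t => rfl
  | r + 2, t => rfl

open Classical in
/-- the law for almost all parameters -/
lemma law (r : ℕ) (hr : r ≤ 2) (δ A : ℝ) (hδ : 0 < δ) (hA : 0 < A) :
    ∃ c : ℝ, 0 < c ∧ ∃ K : ℝ, 0 ≤ K ∧ ∀ (N : Fin (r + 3) → ℤ) (L : Fin (r + 3) → ℕ) (T : ℝ), 0 < T → (∀ i, T ≤ L i) →
    ∀ X₀ : ℕ, 16 ≤ X₀ →
      (((box N L).filter fun t => ¬ ∀ X : ℕ, X₀ ≤ X → (X : ℝ) ≤ T ^ c →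
        |Real.log (product (family r t) X) - (r + 1 / 2) * Real.log (Real.log X)| ≤
          (Real.log (Real.log X)) ^ (1 / 2 + δ)).card : ℝ) ≤
        K * (Real.log (Real.log X₀)) ^ (-A) * ∏ i, (L i : ℝ) := by
  obtain ⟨B₁, hB₁0, hB₁⟩ := mean_hh r hr
  obtain ⟨c, hc, K, hK, h⟩ := Q282.BP.law_h (d := r + 3) δ A hδ hA 6 B₁ (r + 1 / 2) (by norm_num) hB₁0
  refine ⟨c, hc, K, hK, fun N L T hT0 hTL X₀ hX₀ => ?_⟩
  obtain ⟨E, hE⟩ : ∃ E : Finset (Fin (r + 3) → ℕ), E = (Q282.BP.bx L).filter fun n => ¬ ∀ X : ℕ, X₀ ≤ X → (X : ℝ) ≤ T ^ c →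
    |Real.log (product (family r (fun i => N i + n i)) X) - (r + 1 / 2) * Real.log (Real.log X)| ≤
      (Real.log (Real.log X)) ^ (1 / 2 + δ) := ⟨_, rfl⟩
  have h1 := h (fun p n => hh (family r (fun i => N i + n i)) p) (fun p hp => hh_per r p hp N) (fun p hp => hB₁ p hp N)
    (fun p hp n => hh_le _ p hp) X₀ T hX₀ hT0 L hTL E (by rw [hE]; exact filter_subset _ _) (by
      intro n hn
      rw [hE, mem_filter] at hn
      have h2 := hn.2
      push Not at h2
      obtain ⟨X, h3, h4, h5⟩ := h2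
      refine ⟨X, h3, h4, ?_⟩
      rw [log_product] at h5
      exact h5)
  have h2 : ((box N L).filter fun t => ¬ ∀ X : ℕ, X₀ ≤ X → (X : ℝ) ≤ T ^ c →
        |Real.log (product (family r t) X) - (r + 1 / 2) * Real.log (Real.log X)| ≤
          (Real.log (Real.log X)) ^ (1 / 2 + δ)).card = E.card := by
    rw [hE]
    exact Q282.BP.ibox_card_filter N L _
  rw [h2]
  refine h1.trans (le_of_eq ?_)
  ring

open Classical in
/-- Let `r = 0, 1, 2`, `δ > 0` and `A > 0`. There are `c > 0` and `K` with the following property. Let a box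
`N i ≤ t i < N i + L i` of parameters be given all sides `L i` of which are at least `T`, and let `16 ≤ X₀ ≤ T ^ c`. Then all but at
most a proportion `K (log log X₀) ^ (-A)` of the parameters `t` of the box have the following properties: the curve
`y ^ 2 = x ^ 3 + b x ^ 2 + c x + d`, `(b, c, d) = family r t`, with `r` marked points is an elliptic curve, its group of rational
points has rank at least `r`, and the product `P(X)` of Birch and Swinnerton-Dyer of the curve satisfies
`|log P(X) - (r + 1 / 2) log log X| ≤ (log log X) ^ (1 / 2 + δ)` for all integers `X` with `X₀ ≤ X ≤ T ^ c`. -/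
theorem result (r : ℕ) (hr : r ≤ 2) (δ A : ℝ) (hδ : 0 < δ) (hA : 0 < A) :
    ∃ c : ℝ, 0 < c ∧ ∃ K : ℝ, ∀ (N : Fin (r + 3) → ℤ) (L : Fin (r + 3) → ℕ) (T : ℝ), 0 < T → (∀ i, T ≤ L i) →
    ∀ X₀ : ℕ, 16 ≤ X₀ → (X₀ : ℝ) ≤ T ^ c →
      (((box N L).filter fun t => ¬ ((curve (family r t)).IsElliptic ∧
        (r : Cardinal) ≤ Module.rank ℤ (curve (family r t)).toAffine.Point ∧
        ∀ X : ℕ, X₀ ≤ X → (X : ℝ) ≤ T ^ c →
          |Real.log (product (family r t) X) - (r + 1 / 2) * Real.log (Real.log X)| ≤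
            (Real.log (Real.log X)) ^ (1 / 2 + δ))).card : ℝ) ≤
        K * (Real.log (Real.log X₀)) ^ (-A) * ∏ i, (L i : ℝ) := by
  obtain ⟨c, hc, K, hK, h⟩ := law r hr δ A hδ hA
  obtain ⟨K', hK', h'⟩ := Q282.BP.rank_box r hr A hA
  refine ⟨min c 1, lt_min hc zero_lt_one, K + K', fun N L T hT0 hTL X₀ hX₀ hXT => ?_⟩
  have hX₀' : (16 : ℝ) ≤ X₀ := by exact_mod_cast hX₀
  have hT1 : 1 ≤ T := by
    by_contra hlt
    push Not at hlt
    have := Real.rpow_le_one hT0.le hlt.le (lt_min hc zero_lt_one).le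
    linarith
  have hXT' : (X₀ : ℝ) ≤ T := by
    refine hXT.trans ?_
    calc T ^ (min c 1) ≤ T ^ (1 : ℝ) := Real.rpow_le_rpow_of_exponent_le hT1 (min_le_right _ _)
      _ = T := Real.rpow_one T
  have hTc : T ^ (min c 1) ≤ T ^ c := Real.rpow_le_rpow_of_exponent_le hT1 (min_le_left _ _)
  have h1 := h N L T hT0 hTL X₀ hX₀
  have h2 := h' T X₀ hX₀ hXT' N L hTL ((box N L).filter fun t => ¬ Q282.BP.Ok r t) (filter_subset _ _)
    (fun t ht => (mem_filter.1 ht).2)
  have h3 : ((box N L).filter fun t => ¬ ((curve (family r t)).IsElliptic ∧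
        (r : Cardinal) ≤ Module.rank ℤ (curve (family r t)).toAffine.Point ∧
        ∀ X : ℕ, X₀ ≤ X → (X : ℝ) ≤ T ^ (min c 1) →
          |Real.log (product (family r t) X) - (r + 1 / 2) * Real.log (Real.log X)| ≤
            (Real.log (Real.log X)) ^ (1 / 2 + δ))) ⊆
      ((box N L).filter fun t => ¬ ∀ X : ℕ, X₀ ≤ X → (X : ℝ) ≤ T ^ c →
        |Real.log (product (family r t) X) - (r + 1 / 2) * Real.log (Real.log X)| ≤
          (Real.log (Real.log X)) ^ (1 / 2 + δ)) ∪ ((box N L).filter fun t => ¬ Q282.BP.Ok r t) := by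
    intro t ht
    rw [mem_filter] at ht
    rw [mem_union, mem_filter, mem_filter]
    by_contra hno
    rw [not_or] at hno
    have h4 : ∀ X : ℕ, X₀ ≤ X → (X : ℝ) ≤ T ^ c →
        |Real.log (product (family r t) X) - (r + 1 / 2) * Real.log (Real.log X)| ≤
          (Real.log (Real.log X)) ^ (1 / 2 + δ) := by
      by_contra h5
      exact hno.1 ⟨ht.1, h5⟩
    have h5 : Q282.BP.Ok r t := by
      by_contra h5
      exact hno.2 ⟨ht.1, h5⟩
    apply ht.2
    unfold Q282.BP.Ok at h5
    rw [← family_eq] at h5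
    exact ⟨h5.1, h5.2, fun X hX1 hX2 => h4 X hX1 (hX2.trans hTc)⟩
  have h4 := card_le_card h3
  have h5 := (Nat.cast_le (α := ℝ)).2 (h4.trans (card_union_le _ _))
  push_cast at h5
  refine h5.trans ((add_le_add h1 h2).trans (le_of_eq ?_))
  ring

end Pool.Agent.Results.MP_696deb_nt.MarkedPoints
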