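import Pool.Agent.Q284.B.Law
import Pool.Agent.TH270.MS.GrowthF

/-!
# The rank form and the mean value of the bias of Mazur and Sarnak

Let `C : y² = x³ + a x + b` be an elliptic curve over `ℚ`, `a, b ∈ ℤ`, let `a_p = p - N_p` for the good
primes `p ∤ 2Δ`, and let `F` be the entire continuation of the incomplete `L`-series. For `θ > 0` put

`B_θ(x) = (log x / x^θ) ∑_{p ≤ x, p ∤ 2Δ} a_p p^{θ - 1}`, `M_θ(X) = (1 / log X) ∫_1^X B_θ(x) dx / x`.

For `θ = 1/2` this is the bias `(log x / √x) ∑_{p ≤ x} a_p / √p` of Mazur and Sarnak, and its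
logarithmic mean. Under the Riemann hypothesis for `F` its mean value is `1 - 2 ord_{s=1} F` (Sarnak,
letter to Mazur, 2007; Fiorilli 2014). Here is the converse, with one-sided bounds only, and an
equivalent of the rank form:

* if `F` has a zero `s` with `Re s > 1` then `M_θ(X) < - C X^α` for arbitrarily large `X`, for all `θ > 0`,
  all `C` and all `α < Re s - 1`; if there are no real zeros `> 1 + max(α, 0)`, also `M_θ(X) > C X^α`;
* for every `θ > 0` the following are equivalent: the Riemann hypothesis for `F`;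
  `M_θ(X) ≥ - X^ε` for all `ε > 0` and all large `X`; `M_θ(X)` has the limit `(1 - 2 ord_{s=1} F)/(2θ)`. In all
  cases `liminf M_θ(X) ≤ (1 - 2 ord_{s=1} F)/(2θ)`;
* the Riemann hypothesis for `F` together with the rank form is equivalent to `M_{1/2}(X) → 1 - 2 rank`,
  and together with `ord_{s=1} F ≤ rank` it is equivalent to `liminf M_{1/2}(X) ≥ 1 - 2 rank`.

The proof. `X = e^U`: the mean `M_θ(e^U)` is `H(U)/U` with `H(U) = ∑ (a_p/p) ∫_{log p}^U u e^{-θ(u - log p)} du`
and `∑_{p ≤ e^U} (a_p/p)(U - log p) = H(U)/U + (1 + θU) ∫_0^U H(u) du/u²`, a positive combination, which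
gives the first part by Landau's theorem. For the limit, `θ H(U)` is the integral of
`∑_{p ≤ e^l} a_p/p` against `(θU + 1) e^{-θ(U-l)} - 1`, and `∑_{p ≤ e^l} a_p/p = (1/2 - m) log l + c + e(l)` where
`e` is small in the mean (mean square law of `Pool.Agent.TH270.MS`, theorem of Rankin and Selberg for the
primes and a Tauberian theorem for it).
-/

set_option autoImplicit false

namespace Pool.Agent.Results.MP_696deb_nt.MeanBias

open Pool.Agent.W263.BSD Filter Topology Classical MeasureTheory Set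
open CongruenceSubgroup UpperHalfPlane
open scoped MatrixGroups

/-- The rank of the group of rational points of `y² = x³ + a x + b`. -/
noncomputable def rank (a b : ℤ) : ℕ :=
  Module.finrank ℤ
    (WeierstrassCurve.Affine.Point
      (WeierstrassCurve.toAffine
        ({ a₁ := 0, a₂ := 0, a₃ := 0, a₄ := (a : ℚ), a₆ := (b : ℚ) } : WeierstrassCurve ℚ)))

/-- `B_θ(x) = (log x / x^θ) ∑_{p ≤ x, p ∤ 2Δ} a_p p^{θ - 1}`, `a_p = p - N_p` -/
noncomputable def bias (a b : ℤ) (θ x : ℝ) : ℝ :=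
  Real.log x / x ^ θ * ∑ p ∈ (Finset.range (⌊x⌋₊ + 1)).filter (GoodPrime a b),
    ((p : ℝ) - pointCount a b p) * (p : ℝ) ^ (θ - 1)

/-- `M_θ(X) = (1 / log X) ∫_1^X B_θ(x) dx / x` -/
noncomputable def meanBias (a b : ℤ) (θ X : ℝ) : ℝ :=
  (∫ x in (1 : ℝ)..X, bias a b θ x / x) / Real.log X

/-- `F` has no zeros with `Re s > 1`. -/
def NoZeros (F : ℂ → ℂ) : Prop := ∀ s : ℂ, 1 < s.re → F s ≠ 0

/-- The `n`-th Fourier coefficient of `f`. -/
noncomputable def coef {N : ℕ} (f : CuspForm (Gamma0 N : Subgroup (GL (Fin 2) ℝ)) 2) (n : ℕ) : ℂ :=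
  (qExpansion 1 f).coeff n

/-- `f ∈ S_2(Γ₀(N))` is the newform of the elliptic curve `E : y² = x³ + a x + b` of conductor `N`: the
Fourier coefficients `c(n)` of `f` are real with `c(1) = 1`, they satisfy the Hecke relations
`c(mn) = c(m) c(n)` for coprime `m`, `n` and `c(p^(j+2)) = c(p) c(p^(j+1)) - p c(p^j)` (without the last
term if `p ∣ N`), `c(p) = a_p = p - N_p` (`N_p` affine points) for all primes `p ∤ 2Δ`, `|c(p)| ≤ 2 √p` for
all `p ∤ N` (Hasse) and `c(p) = 0, 1, -1` for `p ∣ N`. -/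
structure IsNewformOf (a b : ℤ) (N : ℕ) (f : CuspForm (Gamma0 N : Subgroup (GL (Fin 2) ℝ)) 2) :
    Prop where
  one : coef f 1 = 1
  real : ∀ n, (coef f n).im = 0
  mul : ∀ m n : ℕ, Nat.Coprime m n → coef f (m * n) = coef f m * coef f n
  pow : ∀ p j : ℕ, p.Prime → coef f (p ^ (j + 2)) = coef f p * coef f (p ^ (j + 1)) -
      (if p ∣ N then 0 else (p : ℂ) * coef f (p ^ j))
  points : ∀ p : ℕ, GoodPrime a b p → coef f p = (p : ℂ) - (pointCount a b p : ℂ)
  good : ∀ p : ℕ, p.Prime → ¬ p ∣ N → ‖coef f p‖ ≤ 2 * Real.sqrt p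
  bad : ∀ p : ℕ, p.Prime → p ∣ N → coef f p = 0 ∨ coef f p = 1 ∨ coef f p = -1

theorem hecke {a b : ℤ} {N : ℕ} {f : CuspForm (Gamma0 N : Subgroup (GL (Fin 2) ℝ)) 2}
    (hf : IsNewformOf a b N f) : Pool.Agent.TH941.Hecke f where
  one := hf.one
  real := hf.real
  mul := hf.mul
  pow := hf.pow
  good := hf.good
  bad := fun p hp h => by
    rcases hf.bad p hp h with h1 | h1 | h1
    · have h2 : ‖coef f p‖ ≤ 1 := by rw [h1]; simp
      exact h2
    · have h2 : ‖coef f p‖ ≤ 1 := by rw [h1]; simp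
      exact h2
    · have h2 : ‖coef f p‖ ≤ 1 := by rw [h1]; simp
      exact h2

open Pool.Agent.Q284.B (HH KK tp)
open Pool.Agent.Q284.K (idx mem_idx_exp)

theorem bias_exp (a b : ℤ) (θ u : ℝ) : bias a b θ (Real.exp u) =
    ∑ p ∈ idx a b (Real.exp u), tp a b p * (u * Real.exp (-(θ * (u - Real.log p)))) := by
  unfold bias
  have h0 : (Finset.range (⌊Real.exp u⌋₊ + 1)).filter (GoodPrime a b) = idx a b (Real.exp u) := rfl
  rw [h0, Finset.mul_sum]
  refine Finset.sum_congr rfl fun p hp => ?_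
  have hp0 : (0 : ℝ) < p := by exact_mod_cast (mem_idx_exp.1 hp).2.1.pos
  rw [Real.log_exp, ← Real.exp_mul, Real.rpow_sub_one hp0.ne', Real.rpow_def_of_pos hp0]
  unfold Pool.Agent.Q284.B.tp
  have h1 : Real.exp (-(θ * (u - Real.log p))) = Real.exp (Real.log p * θ) / Real.exp (u * θ) := by
    rw [← Real.exp_sub]
    congr 1
    ring
  rw [h1]
  have h2 := (Real.exp_pos (u * θ)).ne'
  field_simp

theorem mean_exp (a b : ℤ) {θ U : ℝ} (hθ : 0 < θ) (hU : 0 < U) :
    meanBias a b θ (Real.exp U) = HH a b θ U / U := by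
  unfold meanBias
  rw [Real.log_exp]
  congr 1
  have h1 : Real.exp '' Ioc 0 U = Ioc 1 (Real.exp U) := by
    ext x
    simp only [mem_image, mem_Ioc]
    constructor
    · rintro ⟨v, ⟨h3, h4⟩, rfl⟩
      exact ⟨Real.one_lt_exp_iff.2 h3, Real.exp_le_exp.2 h4⟩
    · rintro ⟨h3, h4⟩
      have hx : 0 < x := one_pos.trans h3
      refine ⟨Real.log x, ⟨Real.log_pos h3, ?_⟩, Real.exp_log hx⟩
      rwa [Real.log_le_iff_le_exp hx]
  rw [intervalIntegral.integral_of_le (Real.one_le_exp hU.le), ← h1,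
    integral_image_eq_integral_abs_deriv_smul measurableSet_Ioc
      (fun v _ => (Real.hasDerivAt_exp v).hasDerivWithinAt) Real.exp_injective.injOn]
  have h2 : ∫ u in Ioc 0 U, |Real.exp u| • (bias a b θ (Real.exp u) / Real.exp u) =
      ∫ u in Ioc 0 U, ∑ p ∈ idx a b (Real.exp u),
        tp a b p * (u * Real.exp (-(θ * (u - Real.log p)))) := by
    refine setIntegral_congr_fun measurableSet_Ioc fun u _ => ?_
    simp only [smul_eq_mul]
    rw [← bias_exp, abs_of_pos (Real.exp_pos u)]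
    have := (Real.exp_pos u).ne'
    field_simp
  rw [h2, ← intervalIntegral.integral_of_le hU.le, Pool.Agent.Q284.B.idx_integral hU.le
    (f := fun p u => tp a b p * (u * Real.exp (-(θ * (u - Real.log p)))))
    fun p _ => (by fun_prop : Continuous fun u : ℝ =>
      tp a b p * (u * Real.exp (-(θ * (u - Real.log p))))).continuousOn]
  unfold Pool.Agent.Q284.B.HH
  refine Finset.sum_congr rfl fun p _ => ?_
  rw [intervalIntegral.integral_const_mul, Pool.Agent.Q284.B.kk_int hθ]

theorem tendsto_iff (a b : ℤ) {θ : ℝ} (hθ : 0 < θ) (L : ℝ) :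
    Tendsto (meanBias a b θ) atTop (𝓝 L) ↔ Tendsto (fun U => HH a b θ U / U) atTop (𝓝 L) := by
  constructor
  · intro h
    refine (h.comp Real.tendsto_exp_atTop).congr' ?_
    filter_upwards [eventually_gt_atTop 0] with U hU
    exact mean_exp a b hθ hU
  · intro h
    refine (h.comp Real.tendsto_log_atTop).congr' ?_
    filter_upwards [eventually_gt_atTop 1] with X hX
    have h1 := mean_exp a b hθ (Real.log_pos hX)
    rw [Real.exp_log (by linarith)] at h1
    simp only [Function.comp_apply]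
    exact h1.symm

/-- **The rank form and the mean value of the bias of Mazur and Sarnak.** -/
theorem result (a b : ℤ) (hΔ : 4 * a ^ 3 + 27 * b ^ 2 ≠ 0) (F : ℂ → ℂ) (hF : IsLSeries a b F) :
    ∃ m : ℕ, analyticOrderAt F 1 = m ∧
      -- zeros with real part greater than `1`
      (∀ s : ℂ, 1 < s.re → F s = 0 → ∀ θ : ℝ, 0 < θ → ∀ α C : ℝ, α < s.re - 1 →
        (∃ᶠ X : ℝ in atTop, meanBias a b θ X < -(C * X ^ α)) ∧
        ((∀ x : ℝ, 1 + max α 0 < x → F x ≠ 0) → ∃ᶠ X : ℝ in atTop, C * X ^ α < meanBias a b θ X)) ∧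
      ∀ (N : ℕ) [NeZero N] (f : CuspForm (Gamma0 N : Subgroup (GL (Fin 2) ℝ)) 2),
        IsNewformOf a b N f → ∀ θ : ℝ, 0 < θ →
        -- the Riemann hypothesis and the mean bias
        List.TFAE [NoZeros F,
          ∀ ε : ℝ, 0 < ε → ∀ᶠ X : ℝ in atTop, -(X ^ ε) ≤ meanBias a b θ X,
          Tendsto (meanBias a b θ) atTop (𝓝 ((1 - 2 * m) / (2 * θ)))] ∧
        -- the order
        (∀ ρ : ℝ, ((NoZeros F ∧ ρ = m) ↔
            Tendsto (meanBias a b θ) atTop (𝓝 ((1 - 2 * ρ) / (2 * θ)))) ∧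
          ((NoZeros F ∧ (m : ℝ) ≤ ρ) ↔
            ∀ ε : ℝ, 0 < ε → ∀ᶠ X : ℝ in atTop, (1 - 2 * ρ) / (2 * θ) - ε ≤ meanBias a b θ X)) ∧
        -- the rank form
        ((NoZeros F ∧ analyticOrderAt F 1 = (rank a b : ℕ∞)) ↔
          Tendsto (meanBias a b θ) atTop (𝓝 ((1 - 2 * rank a b) / (2 * θ)))) := by
  obtain ⟨m, hm⟩ := Pool.Agent.W189.ML.order_finite_all hF 1
  refine ⟨m, hm, ?_, ?_⟩
  · intro s hs h0 θ hθ α C hα
    have hα' : 1 + max α 0 < s.re := by
      have : max α 0 < s.re - 1 := max_lt hα (by linarith)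
      linarith
    have key : ∀ u : ℝ, 0 < u → C * Real.exp u ^ α ≤ |C| * Real.exp (max α 0 * u) := by
      intro u hu
      rw [← Real.exp_mul]
      have h1 : Real.exp (u * α) ≤ Real.exp (max α 0 * u) := by
        apply Real.exp_le_exp.2
        rw [mul_comm]
        exact mul_le_mul_of_nonneg_right (le_max_left _ _) hu.le
      exact mul_le_mul (le_abs_self C) h1 (Real.exp_pos _).le (abs_nonneg C)
    constructor
    · intro hcon
      refine Pool.Agent.Q284.B.no_zeros_of_eventually hF (C := |C|) hθ (le_max_right α 0) ?_ hα' h0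
      filter_upwards [Real.tendsto_exp_atTop.eventually hcon, eventually_gt_atTop 0] with u h1 hu
      rw [mean_exp a b hθ hu] at h1
      have h2 := key u hu
      push Not at h1
      linarith
    · intro hr hcon
      refine Pool.Agent.Q284.B.no_zeros_of_eventually_upper hF (C := |C|) hθ (le_max_right α 0) hr
        ?_ hα' h0
      filter_upwards [Real.tendsto_exp_atTop.eventually hcon, eventually_gt_atTop 0] with u h1 hu
      rw [mean_exp a b hθ hu] at h1
      have h2 := key u hu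
      push Not at h1
      linarith
  intro N _ f hf θ hθ
  obtain ⟨C₀, κ, hg⟩ := Pool.Agent.TH270.MS.EQ.growth_F hΔ hF (hecke hf) fun p hp => hf.points p hp
  have t13 : NoZeros F → Tendsto (meanBias a b θ) atTop (𝓝 ((1 - 2 * m) / (2 * θ))) := by
    intro hne
    rw [tendsto_iff a b hθ]
    have h1 := Pool.Agent.Q284.B.hh_limit hΔ hF (hecke hf) (fun p hp => hf.points p hp)
      (by norm_num : (0 : ℝ) < 1 / 8) hg hm hne hθ
    have h2 : (1 / 2 - (m : ℝ)) / θ = (1 - 2 * m) / (2 * θ) := by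
      field_simp
    rwa [h2] at h1
  have t21 : (∀ ε : ℝ, 0 < ε → ∀ᶠ X : ℝ in atTop, -(X ^ ε) ≤ meanBias a b θ X) → NoZeros F := by
    intro h s hs
    set ε : ℝ := (s.re - 1) / 2 with hε
    have hε0 : 0 < ε := by
      rw [hε]
      linarith
    refine Pool.Agent.Q284.B.no_zeros_of_eventually hF (C := 1) hθ hε0.le ?_
      (show 1 + ε < s.re by rw [hε]; linarith)
    filter_upwards [Real.tendsto_exp_atTop.eventually (h ε hε0), eventually_gt_atTop 0] with u h1 hu
    rw [mean_exp a b hθ hu, ← Real.exp_mul, mul_comm u ε] at h1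
    rwa [one_mul]
  have low : ∀ L : ℝ, (∀ᶠ X : ℝ in atTop, L ≤ meanBias a b θ X) →
      ∀ ε : ℝ, 0 < ε → ∀ᶠ X : ℝ in atTop, -(X ^ ε) ≤ meanBias a b θ X := by
    intro L h ε hε
    filter_upwards [h, (tendsto_rpow_atTop hε).eventually (eventually_ge_atTop (-L))] with X h1 h2
    linarith
  have lim_low : ∀ L : ℝ, Tendsto (meanBias a b θ) atTop (𝓝 L) →
      ∀ᶠ X : ℝ in atTop, L - 1 ≤ meanBias a b θ X := by
    intro L h
    filter_upwards [h.eventually (lt_mem_nhds (sub_one_lt L))] with X h1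
    exact h1.le
  have hinj : ∀ x y : ℝ, (1 - 2 * x) / (2 * θ) = (1 - 2 * y) / (2 * θ) → x = y := by
    intro x y h
    have h2 : (1 - 2 * x) = (1 - 2 * y) := by
      have h3 : (2 * θ) ≠ 0 := by positivity
      exact (div_left_inj' h3).1 h
    linarith
  have limρ : ∀ ρ : ℝ, (NoZeros F ∧ ρ = m) ↔
      Tendsto (meanBias a b θ) atTop (𝓝 ((1 - 2 * ρ) / (2 * θ))) := by
    intro ρ
    constructor
    · rintro ⟨h1, rfl⟩
      exact t13 h1
    · intro h
      have h1 := t21 (low _ (lim_low _ h))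
      exact ⟨h1, hinj _ _ (tendsto_nhds_unique h (t13 h1))⟩
  refine ⟨?_, fun ρ => ⟨limρ ρ, ?_⟩, ?_⟩
  · tfae_have 1 → 3 := t13
    tfae_have 3 → 2 := fun h => low _ (lim_low _ h)
    tfae_have 2 → 1 := t21
    tfae_finish
  · constructor
    · rintro ⟨h1, h2⟩ ε hε
      have h3 : (1 - 2 * ρ) / (2 * θ) ≤ (1 - 2 * m) / (2 * θ) := by
        apply div_le_div_of_nonneg_right _ (by positivity)
        linarith
      filter_upwards [(t13 h1).eventually (lt_mem_nhds (sub_lt_self _ hε))] with X h4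
      linarith
    · intro h
      have h1 := t21 (low _ (h 1 one_pos))
      refine ⟨h1, ?_⟩
      have h2 := t13 h1
      have h3 : ∀ ε : ℝ, 0 < ε → (1 - 2 * ρ) / (2 * θ) - ε ≤ (1 - 2 * m) / (2 * θ) := fun ε hε =>
        ge_of_tendsto h2 (h ε hε)
      have h4 : (1 - 2 * ρ) / (2 * θ) ≤ (1 - 2 * m) / (2 * θ) :=
        le_of_forall_sub_le h3
      have h5 : (1 - 2 * ρ) ≤ (1 - 2 * m) := by
        have h6 : (0 : ℝ) < 2 * θ := by positivity
        exact (div_le_div_iff_of_pos_right h6).1 h4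
      linarith
  · rw [← limρ (rank a b)]
    refine and_congr_right fun _ => ?_
    rw [hm]
    constructor
    · intro h
      have h2 : m = rank a b := by exact_mod_cast h
      rw [h2]
    · intro h
      have h2 : rank a b = m := by exact_mod_cast h
      rw [h2]

end Pool.Agent.Results.MP_696deb_nt.MeanBias
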