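import Pool.Agent.Z705.Fin
import Pool.Agent.Y687.MQ.Fin
import Pool.Agent.Q1.PT.Prime
import Pool.Agent.Q1.PT.LLN

/-!
# The law of large numbers on the tree of prime twists

`E_D` is the quadratic twist by `D` of the modular curve `X_0(14)` (no complex multiplication), `D` is ANY
element of the class of `ExactProportion` and `PrimeTwistsOfEveryTwist`: squarefree, `1` modulo `4`, a square
modulo `7`, all prime factors split completely in `ℚ(√-1, √2, √-7)` or are inert in `ℚ(√2)` and in `ℚ(√-7)`.
No condition is put on the rank or on `Ш` of `E_D`, nor on its `L`-series.  Twist again and again by split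
primes: `D, D p_1, D p_1 p_2, …`, where `p_i` runs over the split primes which do not divide `D p_1 ⋯ p_(i-1)`.

`IteratedMean k D F c` says that the average of `F [p_1, …, p_k]` over `p_k`, then over `p_(k-1)`, …, then over `p_1`
(natural densities in the set of all split primes, all the limits exist) is `c`.

* EQUILIBRIUM.  For every `D` and every `k` the iterated density `δ_k` of the `k`-tuples of primes for which
  `E_(D p_1 ⋯ p_k)` has finitely many rational points and `Ш[2] = 0` exists, and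
  `|δ_k - κ| ≤ 3 · 4ⁿ / 2ᵏ`, where `κ = ∏ (1 - 2^-(2i+1)) = 0.419…` and `n` is the number of the split prime factors of
  `D`: the twists forget `D` exponentially fast.
* LAW OF LARGE NUMBERS.  For every `D` and every `η > 0` the iterated density of the `k`-tuples for which the
  frequency of the curves with finitely many rational points and `Ш[2] = 0` among the `k + 1` curves
  `E_D, E_(D p_1), …, E_(D p_1 ⋯ p_k)` differs from `κ` by at least `η` exists, and it tends to `0` as `k → ∞`.
* For all these twists the rank form of the conjecture holds, order of vanishing and rank are `0`.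

Inputs: the criterion for a single discriminant and the nonvanishing (starting results of helper700, helper17,
helper687 and their teams); the equidistribution of the symbols of a prime (helper283, `Pool/Agent/Q283/TW`);
the laws for the completions of one or several symmetric forms over `𝔽₂` (starting files `Y219`, `Y697`, `Y703`).
New (`Pool/Agent/Q1/PT`): the matrices of the iterated twists form a Markov chain of borderings (`jn_eq`); the
forms of step `k` and of step `l` are asymptotically independent unless `l` is near to `2k` (`near`, `far`), by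
a first moment bound for the degeneracy of a pair of forms (`avg_cnt`).
-/

set_option autoImplicit false

open Finset Filter Topology

namespace Pool.Agent.Results.MP_696deb_nt.TwistTreeLaw

/-- coefficients of the twist `E_D : y² = x³ + A D x + B D` of `X_0(14)` -/
def A (D : ℤ) : ℤ := 5805 * D ^ 2

/-- coefficients of the twist `E_D : y² = x³ + A D x + B D` of `X_0(14)` -/
def B (D : ℤ) : ℤ := -285714 * D ^ 3

/-- the curve `E_D` over `ℚ` -/
def E (D : ℤ) : WeierstrassCurve ℚ :=
  { a₁ := 0, a₂ := 0, a₃ := 0, a₄ := (A D : ℚ), a₆ := (B D : ℚ) }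

/-- `E_D(ℚ)` is finite and `Ш(E_D/ℚ)` has no element of order two -/
def RankZeroShaTwo (D : ℤ) : Prop :=
  Finite (E D).toAffine.Point ∧ ∀ x : Pool.Agent.TH841.SH.D.Sha (E D), 2 • x = 0 → x = 0

/-- the conclusion of the frozen statement for `y² = x³ + a x + b`, together with the fact that the
order of vanishing and the rank are both `0` -/
def BSDRankZero (a b : ℤ) : Prop :=
  4 * a ^ 3 + 27 * b ^ 2 ≠ 0 ∧
    ∃ F : ℂ → ℂ, Differentiable ℂ F ∧
      (∀ s : ℂ, (3 : ℝ) / 2 < s.re →
        HasProd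
          (fun p : ℕ => open Classical in
            if p.Prime ∧ ¬ ((p : ℤ) ∣ 2 * (-4 * a ^ 3 - 27 * b ^ 2)) then
              (1 - ((p : ℂ) - (Nat.card {q : ZMod p × ZMod p //
                  q.2 ^ 2 = q.1 ^ 3 + (a : ZMod p) * q.1 + (b : ZMod p)} : ℂ))
                  * (p : ℂ) ^ (-s) + (p : ℂ) ^ (1 - 2 * s))⁻¹
            else 1)
          (F s)) ∧
      analyticOrderAt F 1 =
        ((Module.finrank ℤ
          (WeierstrassCurve.Affine.Point
            (WeierstrassCurve.toAffine
              ({ a₁ := 0, a₂ := 0, a₃ := 0, a₄ := (a : ℚ), a₆ := (b : ℚ) } :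
                WeierstrassCurve ℚ))) : ℕ) : ℕ∞) ∧
      Module.finrank ℤ
        (WeierstrassCurve.Affine.Point
          (WeierstrassCurve.toAffine
            ({ a₁ := 0, a₂ := 0, a₃ := 0, a₄ := (a : ℚ), a₆ := (b : ℚ) } :
              WeierstrassCurve ℚ))) = 0

/-- primes inert in `ℚ(√-7)` and in `ℚ(√2)` -/
def Inert (q : ℕ) : Prop :=
  q.Prime ∧ (q % 8 = 3 ∨ q % 8 = 5) ∧ (q % 7 = 3 ∨ q % 7 = 5 ∨ q % 7 = 6)

/-- primes congruent to `1` modulo `8` that split in `ℚ(√-7)` -/
def Split (p : ℕ) : Prop := p.Prime ∧ p % 8 = 1 ∧ (p % 7 = 1 ∨ p % 7 = 2 ∨ p % 7 = 4)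

/-- the family of discriminants: squarefree, `1` modulo `4`, a square modulo `7`, all prime factors
different from `3` and split or inert as above -/
def Family (D : ℤ) : Prop := Squarefree D ∧ D % 4 = 1 ∧ (D % 7 = 1 ∨ D % 7 = 2 ∨ D % 7 = 4) ∧
  ∀ p : ℕ, p.Prime → (p : ℤ) ∣ D → p ≠ 3 ∧ (Split p ∨ Inert p)

/-- the split primes dividing `D` -/
def splitPrimes (D : ℤ) : Finset ℕ := D.natAbs.primeFactors.filter fun p => p % 8 = 1

/-- the average of `g(p)` over the split primes `p` which do not divide `D` is `c` -/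
def Mean (D : ℤ) (g : ℕ → ℝ) (c : ℝ) : Prop :=
  Tendsto (fun X : ℕ => open Classical in
    (∑ p ∈ (range (X + 1)).filter fun p => Split p ∧ ¬ (p : ℤ) ∣ D, g p) /
      (((range (X + 1)).filter fun p => Split p).card : ℝ)) atTop (𝓝 c)

/-- the iterated average of `F [p_1, …, p_k]` over the split primes `p_1 ∤ D`, `p_2 ∤ D p_1`, …,
`p_k ∤ D p_1 ⋯ p_(k-1)` is `c` (first over `p_k`, at last over `p_1`) -/
def IteratedMean : ℕ → ℤ → (List ℕ → ℝ) → ℝ → Prop
  | 0, _, F, c => c = F []
  | k + 1, D, F, c => ∃ g : ℕ → ℝ,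
      (∀ p : ℕ, Split p → ¬ (p : ℤ) ∣ D → IteratedMean k (D * p) (fun l => F (p :: l)) (g p)) ∧ Mean D g c

open Classical in
/-- the indicator of the lists of primes `l` for which the twist by `D ∏ l` has rank zero and `Ш[2] = 0` -/
noncomputable def good (D : ℤ) (l : List ℕ) : ℝ := if RankZeroShaTwo (D * (l.prod : ℕ)) then 1 else 0

/-- the frequency of the curves of rank zero with `Ш[2] = 0` among `E_D, E_(D p_1), …, E_(D p_1 ⋯ p_k)`,
`l = [p_1, …, p_k]` -/
noncomputable def freq (D : ℤ) (l : List ℕ) : ℝ :=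
  (∑ i ∈ range (l.length + 1), good D (l.take i)) / (l.length + 1)

/-- the product `κ = (1 - 1/2)(1 - 1/8)(1 - 1/32)⋯` -/
noncomputable def κ : ℝ := ∏' i : ℕ, (1 - (1 / 2 : ℝ) ^ (2 * i + 1))

theorem rank_iff {D : ℤ} (h : Y687.MQ.AdmD D) : RankZeroShaTwo D ↔ (Y687.MQ.matD D).det ≠ 0 := by
  obtain ⟨hP, hT, -, he⟩ := Y687.MQ.of_admD h
  have h1 := Z704.equivS Z702.f_COC Z702.f_LOT Z702.f_COB Z702.f_TOR Z702.f_LQ Z702.f_LG
    Z702.f_LP Z702.f_LIN Z702.f_TRN Z705.f_SELA Z705.f_SELB (Z705.cnd hP hT)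
  have he' : ((Z700.pr (Y687.MQ.SP D) : ℕ) : ℤ) * Y687.DD (Y687.MQ.IP D) = D := he
  rw [he'] at h1
  have hm : Y687.DD (Y687.MQ.IP D) = Z700.pr (Y687.MQ.IP D) ∨
      Y687.DD (Y687.MQ.IP D) = -(Z700.pr (Y687.MQ.IP D) : ℤ) := by
    refine Int.natAbs_eq_natAbs_iff.1 ?_
    rw [Y687.DD_natAbs, Int.natAbs_natCast]
    rfl
  rw [Y687.MQ.matD_eq, Y687.MQ.matT_iff hP hT, ← Y687.MQ.det_ind hP hT hm, h1]
  unfold RankZeroShaTwo
  refine and_congr Iff.rfl (forall_congr' fun x => ?_)
  rw [two_nsmul]
  rfl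

theorem bsd_of {D : ℤ} (hD : D ≠ 0) (h : Y687.WB D) : BSDRankZero (A D) (B D) := by
  obtain ⟨⟨f, hf, hfp, hf1⟩, hfin⟩ := h
  obtain ⟨F, h1, h2, h3, h4⟩ := Y687.rankBSD hf hfp hf1 hfin
  refine ⟨?_, F, h1, h2, ?_, h4⟩
  · have e : 4 * A D ^ 3 + 27 * B D ^ 2 = (4 * 5805 ^ 3 + 27 * 285714 ^ 2) * D ^ 6 := by
      unfold A B
      ring
    rw [e]
    exact mul_ne_zero (by norm_num) (pow_ne_zero 6 hD)
  · unfold A B
    rw [h3, h4]
    rfl

theorem dvd_iff {D : ℤ} (hD0 : D ≠ 0) {p : ℕ} (hp : p.Prime) :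
    (¬ (p : ℤ) ∣ D) ↔ p ∉ D.natAbs.primeFactors := by
  rw [Nat.mem_primeFactors, Int.natCast_dvd]
  constructor
  · rintro h ⟨-, h2, -⟩
    exact h h2
  · intro h h2
    exact h ⟨hp, h2, Int.natAbs_ne_zero.2 hD0⟩

theorem family_mul {D : ℤ} (hD : Family D) {p : ℕ} (hp : Split p) (hpD : ¬ (p : ℤ) ∣ D) :
    Family (D * p) :=
  Q283.TW.admD_mul (D := D) hD hp ((dvd_iff hD.1.ne_zero hp.1).1 hpD)

open Classical in
theorem sum_eq {D : ℤ} (hD : Family D) (g : ℕ → ℝ) (X : ℕ) :
    (∑ p ∈ (range (X + 1)).filter fun p => Split p ∧ ¬ (p : ℤ) ∣ D, g p) /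
      (((range (X + 1)).filter fun p => Split p).card : ℝ) =
    (∑ p ∈ (range (X + 1)).filter fun p => Q283.TW.Spl p ∧ p ∉ D.natAbs.primeFactors, g p) /
      (((range (X + 1)).filter fun p => Q283.TW.Spl p).card : ℝ) := by
  have h1 : ((range (X + 1)).filter fun p => Split p ∧ ¬ (p : ℤ) ∣ D) =
      (range (X + 1)).filter fun p => Q283.TW.Spl p ∧ p ∉ D.natAbs.primeFactors := by
    ext p
    rw [Finset.mem_filter, Finset.mem_filter]
    refine and_congr_right fun _ => and_congr_right fun hp => ?_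
    exact dvd_iff hD.1.ne_zero hp.1
  have h2 : ((range (X + 1)).filter fun p => Split p) =
      (range (X + 1)).filter fun p => Q283.TW.Spl p := by
    ext p
    rw [Finset.mem_filter, Finset.mem_filter]
    exact Iff.rfl
  rw [h1, h2]

open Classical in
/-- iterated means are unique -/
theorem unique (k : ℕ) : ∀ (D : ℤ) (F : List ℕ → ℝ) (c c' : ℝ), IteratedMean k D F c →
    IteratedMean k D F c' → c = c' := by
  induction k with
  | zero =>
    intro D F c c' h h'
    exact h.trans h'.symm
  | succ k ih =>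
    rintro D F c c' ⟨g, h1, h2⟩ ⟨g', h1', h2'⟩
    refine tendsto_nhds_unique h2 (h2'.congr fun X => ?_)
    congr 1
    refine Finset.sum_congr rfl fun p hp => ?_
    have hp' := (Finset.mem_filter.1 hp).2
    exact ih _ _ _ _ (h1' p hp'.1 hp'.2) (h1 p hp'.1 hp'.2)

open Classical in
theorem mean_prp (k : ℕ) : ∀ (D : ℤ), Family D →
    IteratedMean k D (good D) (Pool.Agent.Q1.PT.prp k (Y687.MQ.matD D)) := by
  induction k with
  | zero =>
    intro D hD
    show Pool.Agent.Q1.PT.prp 0 (Y687.MQ.matD D) = good D []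
    unfold good
    rw [Pool.Agent.Q1.PT.prp_zero, List.prod_nil, Nat.cast_one, mul_one]
    exact if_congr (rank_iff hD).symm rfl rfl
  | succ k ih =>
    intro D hD
    refine ⟨fun p => Pool.Agent.Q1.PT.prp k (Y687.MQ.matD (D * (p : ℤ))), fun p hp hpD => ?_, ?_⟩
    · have h := ih (D * p) (family_mul hD hp hpD)
      have e : good (D * p) = fun l => good D (p :: l) := by
        funext l
        unfold good
        rw [List.prod_cons]
        push_cast
        rw [mul_assoc]
      rw [e] at h
      exact h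
    · have h := Pool.Agent.Q1.PT.prp_step (D := D) hD k
      refine h.congr fun X => ?_
      exact (sum_eq hD _ X).symm

/-- the indicators along a branch -/
noncomputable def pattern : ℤ → List ℕ → List ℝ
  | D, [] => [good D []]
  | D, p :: l => good D [] :: pattern (D * p) l

theorem good_cons (D : ℤ) (p : ℕ) (l : List ℕ) : good D (p :: l) = good (D * p) l := by
  unfold good
  rw [List.prod_cons]
  push_cast
  rw [mul_assoc]

theorem length_pattern (l : List ℕ) : ∀ D : ℤ, (pattern D l).length = l.length + 1 := by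
  induction l with
  | nil => intro D; rfl
  | cons p l ih =>
    intro D
    rw [pattern, List.length_cons, ih, List.length_cons]

theorem sum_pattern (l : List ℕ) : ∀ D : ℤ, (pattern D l).sum =
    ∑ i ∈ range (l.length + 1), good D (l.take i) := by
  induction l with
  | nil =>
    intro D
    simp [pattern]
  | cons p l ih =>
    intro D
    rw [pattern, List.sum_cons, ih, List.length_cons, Finset.sum_range_succ' _ (l.length + 1), add_comm]
    congr 1
    refine Finset.sum_congr rfl fun i _ => ?_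
    rw [List.take_succ_cons, good_cons]

theorem freq_eq (D : ℤ) (l : List ℕ) : freq D l = (pattern D l).sum / (pattern D l).length := by
  unfold freq
  rw [sum_pattern, length_pattern]
  push_cast
  rfl

open Classical in
theorem good_nil {D : ℤ} (hD : Family D) : good D [] = Pool.Agent.Q1.PT.bM (Y687.MQ.matD D) := by
  unfold good Pool.Agent.Q1.PT.bM
  rw [List.prod_nil, Nat.cast_one, mul_one]
  exact if_congr (rank_iff hD) rfl rfl

open Classical in
/-- the iterated means of the functions of the pattern -/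
theorem mean_pattern (k : ℕ) : ∀ (D : ℤ), Family D → ∀ f : List ℝ → ℝ,
    IteratedMean k D (fun l => f (pattern D l)) (Pool.Agent.Q1.PT.jn k (Y687.MQ.matD D) f) := by
  induction k with
  | zero =>
    intro D hD f
    show Pool.Agent.Q1.PT.jn 0 (Y687.MQ.matD D) f = f (pattern D [])
    rw [Pool.Agent.Q1.PT.jn_zero, pattern, good_nil hD]
  | succ k ih =>
    intro D hD f
    refine ⟨fun p => Pool.Agent.Q1.PT.jn k (Y687.MQ.matD (D * (p : ℤ))) fun l =>
      f (Pool.Agent.Q1.PT.bM (Y687.MQ.matD D) :: l), fun p hp hpD => ?_, ?_⟩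
    · have h := ih (D * p) (family_mul hD hp hpD) fun l => f (Pool.Agent.Q1.PT.bM (Y687.MQ.matD D) :: l)
      rw [← good_nil hD] at h ⊢
      exact h
    · refine (Pool.Agent.Q1.PT.jn_step (D := D) hD k f).congr fun X => ?_
      exact (sum_eq hD _ X).symm

open Classical in
/-- **The equilibrium and the law of large numbers on the tree of prime twists.** -/
theorem result (D : ℤ) (hD : Family D) :
    (∃ δ : ℕ → ℝ, ∀ k : ℕ, (∀ c : ℝ, IteratedMean k D (good D) c ↔ c = δ k) ∧
      |δ k - κ| ≤ 3 * (4 ^ (splitPrimes D).card / 2 ^ k)) ∧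
    (∀ η : ℝ, 0 < η → ∃ δ : ℕ → ℝ,
      (∀ (k : ℕ) (c : ℝ), IteratedMean k D (fun l => if η ≤ |freq D l - κ| then 1 else 0) c ↔
        c = δ k) ∧
      Tendsto δ atTop (𝓝 0)) ∧
    ∀ M : ℤ, Family M → RankZeroShaTwo M → BSDRankZero (A M) (B M) := by
  refine ⟨⟨fun k => Pool.Agent.Q1.PT.prp k (Y687.MQ.matD D), fun k => ⟨fun c => ?_, ?_⟩⟩, ?_, ?_⟩
  · constructor
    · intro h
      exact unique k D _ _ _ h (mean_prp k D hD)
    · rintro rfl
      exact mean_prp k D hD
  · have h := Pool.Agent.Q1.PT.rate (Y687.MQ.matD D) (Pool.Agent.Q1.PT.matD_symm hD) k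
    have e : Fintype.card (Y687.MQ.SP D) = (splitPrimes D).card := Fintype.card_coe _
    rw [e] at h
    exact h
  · intro η hη
    set f : List ℝ → ℝ := fun l => if η ≤ |l.sum / l.length - κ| then 1 else 0 with hf
    have e : ∀ k, (IteratedMean k D (fun l => if η ≤ |freq D l - κ| then 1 else 0)
        (Pool.Agent.Q1.PT.jn k (Y687.MQ.matD D) f)) := by
      intro k
      have h := mean_pattern k D hD f
      have e1 : (fun l => f (pattern D l)) = fun l => if η ≤ |freq D l - κ| then 1 else 0 := by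
        funext l
        rw [hf, freq_eq]
      rw [e1] at h
      exact h
    refine ⟨fun k => Pool.Agent.Q1.PT.jn k (Y687.MQ.matD D) f, fun k c => ⟨fun h => ?_, fun h => ?_⟩, ?_⟩
    · exact unique k D _ _ _ h (e k)
    · rw [h]
      exact e k
    · rw [Metric.tendsto_atTop]
      intro ε hε
      obtain ⟨L0, hL0⟩ := Pool.Agent.Q1.PT.lln η hη (ε / 2) (half_pos hε)
        (Fintype.card (Y687.MQ.SP D))
      refine ⟨L0, fun k hk => ?_⟩
      have h1 := hL0 (Y687.MQ.SP D) rfl (Y687.MQ.matD D) (Pool.Agent.Q1.PT.matD_symm hD) k hk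
      have h2 : 0 ≤ Pool.Agent.Q1.PT.jn k (Y687.MQ.matD D) f :=
        Pool.Agent.Q1.PT.jn_nonneg k _ fun l => by
          rw [hf]
          dsimp only
          split_ifs <;> norm_num
      have h3 : Pool.Agent.Q1.PT.jn k (Y687.MQ.matD D) f ≤ ε / 2 := h1
      rw [Real.dist_eq, sub_zero, abs_of_nonneg h2]
      linarith
  · intro M hM hR
    exact bsd_of hM.1.ne_zero (Y687.MQ.WB_D hM ((rank_iff hM).1 hR))

end Pool.Agent.Results.MP_696deb_nt.TwistTreeLaw
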