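import Mathlib

/-!
# `(2bn+1)(2bn+3) C(2bn,bn)` divides `3(a-b)(3a-b) C(2an,an) C(an,bn)`
-/

open Finset

namespace Pool.Agent.Results.MP_698530_nt.FullDivisibility

/-- `v_p(m)` as a sum of indicators -/
theorem val_eq (p m N : ℕ) (hp : p.Prime) (hm : 0 < m) (hN : m ≤ N) :
    m.factorization p = ∑ i ∈ Ico 1 N, if p ^ i ∣ m then 1 else 0 := by
  rw [Nat.factorization_eq_card_pow_dvd m hp, Finset.card_filter]
  apply Finset.sum_subset
  · intro i hi
    rw [Finset.mem_Ico] at hi ⊢
    omega
  · intro i hi hi'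
    rw [Finset.mem_Ico] at hi hi'
    rw [if_neg]
    intro hd
    have h1 : p ^ i ≤ m := Nat.le_of_dvd hm hd
    have h2 : i < p ^ i := Nat.lt_pow_self hp.one_lt
    omega

theorem val_fact (p m N : ℕ) (hp : p.Prime) (hN : m < N) :
    m.factorial.factorization p = ∑ i ∈ Ico 1 N, m / p ^ i := by
  apply Nat.factorization_factorial hp
  exact lt_of_le_of_lt (Nat.log_le_self p m) hN

/-- the comparison of floors for one modulus `q` -/
theorem floor_ineq (q A B : ℕ) (hq : 1 < q) (hAB : B ≤ A) :
    2 * B / q + A / q + (A - B) / q ≤ 2 * A / q + B / q ∧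
    (2 * B / q + A / q + (A - B) / q = 2 * A / q + B / q → q ∣ 2 * B + 1 → q ∣ A - B) ∧
    (2 * B / q + A / q + (A - B) / q = 2 * A / q + B / q → q ∣ 2 * B + 3 →
      q ∣ A - B ∨ q ∣ 2 * A + 1) := by
  have hq0 : 0 < q := by omega
  obtain ⟨A1, x, hx, rfl⟩ : ∃ A1 x, x < q ∧ A = q * A1 + x :=
    ⟨A / q, A % q, Nat.mod_lt _ hq0, (Nat.div_add_mod A q).symm⟩
  obtain ⟨B1, y, hy, rfl⟩ : ∃ B1 y, y < q ∧ B = q * B1 + y :=
    ⟨B / q, B % q, Nat.mod_lt _ hq0, (Nat.div_add_mod B q).symm⟩
  have hle : B1 ≤ A1 := by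
    by_contra h
    push Not at h
    have : q * (A1 + 1) ≤ q * B1 := Nat.mul_le_mul_left _ h
    have h2 : q * (A1 + 1) = q * A1 + q := by ring
    omega
  obtain ⟨D, rfl⟩ : ∃ D, A1 = B1 + D := ⟨A1 - B1, by omega⟩
  have e1 : (q * (B1 + D) + x) / q = B1 + D := by
    rw [Nat.mul_add_div hq0, Nat.div_eq_of_lt hx, add_zero]
  have e2 : (q * B1 + y) / q = B1 := by
    rw [Nat.mul_add_div hq0, Nat.div_eq_of_lt hy, add_zero]
  have e3 : 2 * (q * (B1 + D) + x) / q = 2 * (B1 + D) + 2 * x / q := by
    rw [show 2 * (q * (B1 + D) + x) = q * (2 * (B1 + D)) + 2 * x by ring, Nat.mul_add_div hq0]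
  have e4 : 2 * (q * B1 + y) / q = 2 * B1 + 2 * y / q := by
    rw [show 2 * (q * B1 + y) = q * (2 * B1) + 2 * y by ring, Nat.mul_add_div hq0]
  have f1 : 2 * x / q = if q ≤ 2 * x then 1 else 0 := by
    split_ifs with h
    · exact Nat.div_eq_of_lt_le (by omega) (by omega)
    · exact Nat.div_eq_of_lt (by omega)
  have f2 : 2 * y / q = if q ≤ 2 * y then 1 else 0 := by
    split_ifs with h
    · exact Nat.div_eq_of_lt_le (by omega) (by omega)
    · exact Nat.div_eq_of_lt (by omega)
  have g : (q * (B1 + D) + x - (q * B1 + y)) / q = if x < y then D - 1 else D := by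
    have h0 : q * (B1 + D) = q * B1 + q * D := by ring
    split_ifs with h
    · have hD : 1 ≤ D := by
        rcases Nat.eq_zero_or_pos D with h1 | h1
        · subst h1; omega
        · exact h1
      obtain ⟨D', rfl⟩ : ∃ D', D = D' + 1 := ⟨D - 1, by omega⟩
      have h2 : q * (D' + 1) = q * D' + q := by ring
      have h3 : q * (B1 + (D' + 1)) + x - (q * B1 + y) = q * D' + (q + x - y) := by omega
      rw [h3, Nat.mul_add_div hq0, Nat.div_eq_of_lt (by omega)]
      omega
    · have h3 : q * (B1 + D) + x - (q * B1 + y) = q * D + (x - y) := by omega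
      rw [h3, Nat.mul_add_div hq0, Nat.div_eq_of_lt (by omega)]
      omega
  have hDx : x < y → 1 ≤ D := by
    intro h
    rcases Nat.eq_zero_or_pos D with h1 | h1
    · subst h1; simp at hAB; omega
    · exact h1
  rw [e1, e2, e3, e4, f1, f2, g]
  have hmod : ∀ c, q ∣ 2 * (q * B1 + y) + c → q ∣ 2 * y + c := by
    intro c h
    have : 2 * (q * B1 + y) + c = q * (2 * B1) + (2 * y + c) := by ring
    rw [this] at h
    exact (Nat.dvd_add_right (dvd_mul_right _ _)).1 h
  have hsub : x = y → q ∣ q * (B1 + D) + x - (q * B1 + y) := by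
    intro h
    subst h
    have : q * (B1 + D) + x - (q * B1 + x) = q * D := by
      have : q * (B1 + D) = q * B1 + q * D := by ring
      omega
    rw [this]; exact dvd_mul_right _ _
  refine ⟨?_, ?_, ?_⟩
  · by_cases h1 : x < y
    · have := hDx h1
      simp only [h1, if_true]
      split_ifs <;> omega
    · simp only [h1, if_false]
      split_ifs <;> omega
  · intro heq hd
    have hd' := hmod 1 hd
    obtain ⟨c, hc⟩ := hd'
    have hc1 : c = 1 := by
      rcases Nat.lt_or_ge c 2 with h | h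
      · interval_cases c
        · omega
        · rfl
      · have : q * 2 ≤ q * c := Nat.mul_le_mul_left _ h
        omega
    subst hc1
    apply hsub
    have hy2 : ¬ q ≤ 2 * y := by omega
    simp only [hy2, if_false] at heq
    by_cases h1 : x < y
    · have := hDx h1
      simp only [h1, if_true] at heq
      split_ifs at heq <;> omega
    · simp only [h1, if_false] at heq
      split_ifs at heq <;> omega
  · intro heq hd
    have hd' := hmod 3 hd
    obtain ⟨c, hc⟩ := hd'
    have hc1 : c = 1 := by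
      rcases Nat.lt_or_ge c 3 with h | h
      · interval_cases c
        · omega
        · rfl
        · omega
      · have : q * 3 ≤ q * c := Nat.mul_le_mul_left _ h
        omega
    subst hc1
    have hy2 : ¬ q ≤ 2 * y := by omega
    simp only [hy2, if_false] at heq
    have hx2 : x = y ∨ 2 * x + 1 = q := by
      by_cases h1 : x < y
      · have := hDx h1
        simp only [h1, if_true] at heq
        split_ifs at heq <;> omega
      · simp only [h1, if_false] at heq
        split_ifs at heq <;> omega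
    rcases hx2 with h | h
    · left; exact hsub h
    · right
      refine ⟨2 * (B1 + D) + 1, ?_⟩
      rw [← h]; ring

/-- indicator of divisibility -/
def ind (q m : ℕ) : ℕ := if q ∣ m then 1 else 0

theorem ind_le_one (q m : ℕ) : ind q m ≤ 1 := by unfold ind; split_ifs <;> omega

theorem ind_of (q m : ℕ) (h : q ∣ m) : ind q m = 1 := by unfold ind; rw [if_pos h]

theorem ind_of_not (q m : ℕ) (h : ¬ q ∣ m) : ind q m = 0 := by unfold ind; rw [if_neg h]

/-- pointwise inequality, abstract form -/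
theorem pointwise (p i a b n g : ℕ) (hp : p.Prime) (hi : 1 ≤ i) (hab : b < a)
    (h1 : p ^ i ∣ 2 * (b * n) + 1 → p ^ i ∣ a * n - b * n → 1 ≤ g)
    (h2 : p ^ i ∣ 2 * (b * n) + 3 → p ^ i ∣ a * n - b * n → 1 ≤ g)
    (h3 : p ^ i ∣ 2 * (b * n) + 3 → p ^ i ∣ 2 * (a * n) + 1 → 1 ≤ g) :
    ind (p ^ i) (2 * (b * n) + 1) + ind (p ^ i) (2 * (b * n) + 3) +
      (2 * (b * n) / p ^ i + (a * n) / p ^ i + (a * n - b * n) / p ^ i) ≤
      g + (2 * (a * n) / p ^ i + (b * n) / p ^ i) := by
  have hq : 1 < p ^ i := Nat.one_lt_pow (by omega) hp.one_lt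
  have hle : b * n ≤ a * n := Nat.mul_le_mul_right _ (le_of_lt hab)
  obtain ⟨f1, f2, f3⟩ := floor_ineq (p ^ i) (a * n) (b * n) hq hle
  have hnot : ¬ (p ^ i ∣ 2 * (b * n) + 1 ∧ p ^ i ∣ 2 * (b * n) + 3) := by
    rintro ⟨c1, c2⟩
    have h4 : p ^ i ∣ 2 := by
      have h5 : 2 * (b * n) + 3 = (2 * (b * n) + 1) + 2 := by ring
      rw [h5] at c2
      exact (Nat.dvd_add_right c1).1 c2
    have h6 : p ^ i ≤ 2 := Nat.le_of_dvd (by norm_num) h4
    have h7 : p ^ i = 2 := by omega
    rw [h7] at c1
    omega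
  by_cases c1 : p ^ i ∣ 2 * (b * n) + 1
  · have c2 : ¬ p ^ i ∣ 2 * (b * n) + 3 := fun h => hnot ⟨c1, h⟩
    rw [ind_of _ _ c1, ind_of_not _ _ c2]
    by_cases heq : 2 * (b * n) / p ^ i + (a * n) / p ^ i + (a * n - b * n) / p ^ i =
        2 * (a * n) / p ^ i + (b * n) / p ^ i
    · have := h1 c1 (f2 heq c1)
      omega
    · omega
  · rw [ind_of_not _ _ c1]
    by_cases c2 : p ^ i ∣ 2 * (b * n) + 3
    · rw [ind_of _ _ c2]
      by_cases heq : 2 * (b * n) / p ^ i + (a * n) / p ^ i + (a * n - b * n) / p ^ i =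
          2 * (a * n) / p ^ i + (b * n) / p ^ i
      · rcases f3 heq c2 with h | h
        · have := h2 c2 h
          omega
        · have := h3 c2 h
          omega
      · omega
    · rw [ind_of_not _ _ c2]
      omega

theorem cop_of_dvd_one (p i b n : ℕ) (hp : p.Prime) (hi : 1 ≤ i)
    (h : p ^ i ∣ 2 * (b * n) + 1) : Nat.Coprime (p ^ i) n := by
  apply Nat.Coprime.pow_left
  rw [hp.coprime_iff_not_dvd]
  intro hd
  have h1 : p ∣ 2 * (b * n) + 1 := dvd_trans (dvd_pow_self p (by omega)) h
  have h2 : p ∣ 2 * (b * n) := Dvd.dvd.mul_left (Dvd.dvd.mul_left hd _) _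
  have h3 : p ∣ 1 := (Nat.dvd_add_right h2).1 h1
  exact hp.one_lt.ne' (Nat.dvd_one.1 h3)

theorem cop_of_dvd_three (p i b n : ℕ) (hp : p.Prime) (hi : 1 ≤ i) (h3 : p ≠ 3)
    (h : p ^ i ∣ 2 * (b * n) + 3) : Nat.Coprime (p ^ i) n := by
  apply Nat.Coprime.pow_left
  rw [hp.coprime_iff_not_dvd]
  intro hd
  have h1 : p ∣ 2 * (b * n) + 3 := dvd_trans (dvd_pow_self p (by omega)) h
  have h2 : p ∣ 2 * (b * n) := Dvd.dvd.mul_left (Dvd.dvd.mul_left hd _) _
  have h4 : p ∣ 3 := (Nat.dvd_add_right h2).1 h1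
  exact h3 ((Nat.prime_dvd_prime_iff_eq hp Nat.prime_three).1 h4)

theorem cross (q a b n : ℕ) (hab : b < a) (hodd : q % 2 = 1) (h1 : q ∣ 2 * (b * n) + 3)
    (h2 : q ∣ 2 * (a * n) + 1) : q ∣ (3 * a - b) * n := by
  have h3 : q ∣ 2 * ((3 * a - b) * n) := by
    have e : 3 * (2 * (a * n) + 1) = 2 * ((3 * a - b) * n) + (2 * (b * n) + 3) := by
      obtain ⟨c, rfl⟩ : ∃ c, a = b + c := ⟨a - b, by omega⟩
      have : 3 * (b + c) - b = 2 * b + 3 * c := by omega
      rw [this]; ring
    have h4 : q ∣ 2 * ((3 * a - b) * n) + (2 * (b * n) + 3) := by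
      rw [← e]; exact Dvd.dvd.mul_left h2 _
    exact (Nat.dvd_add_left h1).1 h4
  have hc : Nat.Coprime q 2 := by
    rw [Nat.coprime_comm, Nat.coprime_two_left]
    exact Nat.odd_iff.2 hodd
  exact hc.dvd_of_dvd_mul_left h3

theorem odd_of_dvd (q m : ℕ) (h : q ∣ 2 * m + 1) : q % 2 = 1 := by
  by_contra hq
  have h2 : 2 ∣ q := by omega
  have := dvd_trans h2 h
  omega

theorem main_ineq (p a b n : ℕ) (hp : p.Prime) (hb : 0 < b) (hab : b < a) (hn : 0 < n) :
    (2 * (b * n) + 1).factorization p + (2 * (b * n) + 3).factorization p +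
      ((2 * (b * n)).factorial.factorization p + (a * n).factorial.factorization p +
        (a * n - b * n).factorial.factorization p) ≤
    ((3 : ℕ).factorization p + (a - b).factorization p + (3 * a - b).factorization p) +
      ((2 * (a * n)).factorial.factorization p + (b * n).factorial.factorization p) := by
  have hle : b * n ≤ a * n := Nat.mul_le_mul_right _ (le_of_lt hab)
  have han : a ≤ a * n := Nat.le_mul_of_pos_right _ hn
  set N := 3 * (a * n) + 4 with hN
  rw [val_eq p (2 * (b * n) + 1) N hp (by omega) (by omega),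
    val_eq p (2 * (b * n) + 3) N hp (by omega) (by omega),
    val_fact p _ N hp (by omega : 2 * (b * n) < N), val_fact p _ N hp (by omega : a * n < N),
    val_fact p _ N hp (by omega : a * n - b * n < N),
    val_fact p _ N hp (by omega : 2 * (a * n) < N), val_fact p _ N hp (by omega : b * n < N)]
  by_cases hp3 : p = 3
  · subst hp3
    have e3 : (3 : ℕ).factorization 3 = ∑ i ∈ Ico 1 N, ind (3 ^ i) 3 :=
      val_eq 3 3 N hp (by norm_num) (by omega)
    have e1 : ∑ i ∈ Ico 1 N, (if i = 1 then 0 else ind (3 ^ (i - 1)) (a - b)) ≤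
        (a - b).factorization 3 := by
      rw [val_eq 3 (a - b) N hp (by omega) (by omega)]
      rw [Finset.sum_eq_sum_Ico_succ_bot (by omega : 1 < N)]
      simp only [if_true, zero_add]
      have h2 : ∑ i ∈ Ico (1 + 1) N, (if i = 1 then 0 else ind (3 ^ (i - 1)) (a - b)) =
          ∑ i ∈ Ico 1 (N - 1), ind (3 ^ i) (a - b) := by
        rw [Finset.sum_Ico_eq_sum_range, Finset.sum_Ico_eq_sum_range]
        apply Finset.sum_congr
        · congr 1
        · intro i _
          rw [if_neg (by omega)]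
          congr 2
          omega
      rw [h2]
      apply Finset.sum_le_sum_of_subset
      apply Finset.Ico_subset_Ico_right
      omega
    have e2 : (3 * a - b).factorization 3 = ∑ i ∈ Ico 1 N, ind (3 ^ i) (3 * a - b) :=
      val_eq 3 (3 * a - b) N hp (by omega) (by omega)
    rw [e3, e2]
    refine le_trans ?_ (Nat.add_le_add_right (Nat.add_le_add_right (Nat.add_le_add_left e1 _) _) _)
    simp only [← Finset.sum_add_distrib]
    apply Finset.sum_le_sum
    intro i hi
    rw [Finset.mem_Ico] at hi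
    refine pointwise 3 i a b n _ hp hi.1 hab ?_ ?_ ?_
    · intro c1 c2
      have hc := cop_of_dvd_one 3 i b n hp hi.1 c1
      rw [← Nat.sub_mul] at c2
      have c3 : 3 ^ i ∣ a - b := hc.dvd_of_dvd_mul_right c2
      by_cases h1 : i = 1
      · subst h1; rw [ind_of (3 ^ 1) 3 (by norm_num)]; omega
      · rw [if_neg h1, ind_of _ _ (dvd_trans (pow_dvd_pow 3 (by omega)) c3)]; omega
    · intro c1 c2
      by_cases h1 : i = 1
      · subst h1; rw [ind_of (3 ^ 1) 3 (by norm_num)]; omega
      · have h9 : ¬ 9 ∣ n := by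
          intro h9
          have h4 : 9 ∣ 2 * (b * n) + 3 := dvd_trans (by
            have : (3 : ℕ) ^ 2 ∣ 3 ^ i := pow_dvd_pow 3 (by omega)
            simpa using this) c1
          have h5 : 9 ∣ 2 * (b * n) := Dvd.dvd.mul_left (Dvd.dvd.mul_left h9 _) _
          have h6 : 9 ∣ 3 := (Nat.dvd_add_right h5).1 h4
          omega
        rw [← Nat.sub_mul] at c2
        have c3 : 3 ^ (i - 1) ∣ a - b := by
          by_cases hn3 : 3 ∣ n
          · obtain ⟨n', rfl⟩ := hn3
            have hn' : ¬ 3 ∣ n' := by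
              rintro ⟨c, rfl⟩
              exact h9 ⟨c, by ring⟩
            have e : 3 ^ i = 3 * 3 ^ (i - 1) := by
              rw [← pow_succ']; congr 1; omega
            rw [e, show (a - b) * (3 * n') = 3 * ((a - b) * n') by ring] at c2
            have c4 := Nat.dvd_of_mul_dvd_mul_left (by norm_num) c2
            have hc : Nat.Coprime (3 ^ (i - 1)) n' :=
              Nat.Coprime.pow_left _ ((hp.coprime_iff_not_dvd).2 hn')
            exact hc.dvd_of_dvd_mul_right c4
          · have hc : Nat.Coprime (3 ^ i) n :=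
              Nat.Coprime.pow_left _ ((hp.coprime_iff_not_dvd).2 hn3)
            exact dvd_trans (pow_dvd_pow 3 (by omega)) (hc.dvd_of_dvd_mul_right c2)
        rw [if_neg h1, ind_of _ _ c3]; omega
    · intro c1 c2
      have hodd := odd_of_dvd _ _ c2
      have c3 := cross (3 ^ i) a b n hab hodd c1 c2
      have hc := cop_of_dvd_one 3 i a n hp hi.1 c2
      have c4 : 3 ^ i ∣ 3 * a - b := hc.dvd_of_dvd_mul_right c3
      rw [ind_of _ _ c4]; omega
  · have e1 : (a - b).factorization p = ∑ i ∈ Ico 1 N, ind (p ^ i) (a - b) :=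
      val_eq p (a - b) N hp (by omega) (by omega)
    have e2 : (3 * a - b).factorization p = ∑ i ∈ Ico 1 N, ind (p ^ i) (3 * a - b) :=
      val_eq p (3 * a - b) N hp (by omega) (by omega)
    rw [e1, e2]
    refine le_trans ?_ (Nat.add_le_add_right (Nat.add_le_add_right
      (Nat.le_add_left _ ((3 : ℕ).factorization p)) _) _)
    simp only [← Finset.sum_add_distrib]
    apply Finset.sum_le_sum
    intro i hi
    rw [Finset.mem_Ico] at hi
    refine pointwise p i a b n _ hp hi.1 hab ?_ ?_ ?_
    · intro c1 c2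
      have hc := cop_of_dvd_one p i b n hp hi.1 c1
      rw [← Nat.sub_mul] at c2
      rw [ind_of _ _ (hc.dvd_of_dvd_mul_right c2)]; omega
    · intro c1 c2
      have hc := cop_of_dvd_three p i b n hp hi.1 hp3 c1
      rw [← Nat.sub_mul] at c2
      rw [ind_of _ _ (hc.dvd_of_dvd_mul_right c2)]; omega
    · intro c1 c2
      have hodd := odd_of_dvd _ _ c2
      have c3 := cross (p ^ i) a b n hab hodd c1 c2
      have hc := cop_of_dvd_one p i a n hp hi.1 c2
      rw [ind_of _ _ (hc.dvd_of_dvd_mul_right c3)]; omega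

/-- For all positive integers `a > b` and `n`,
`(2bn+1)(2bn+3) C(2bn,bn)` divides `3(a-b)(3a-b) C(2an,an) C(an,bn)`. -/
theorem result : ∀ a b n : ℕ, 0 < b → b < a → 0 < n →
    (2 * b * n + 1) * (2 * b * n + 3) * (2 * b * n).choose (b * n) ∣
      3 * (a - b) * (3 * a - b) * (2 * a * n).choose (a * n) * (a * n).choose (b * n) := by
  intro a b n hb hab hn
  have hle : b * n ≤ a * n := Nat.mul_le_mul_right _ (le_of_lt hab)
  have ea : 2 * a * n = 2 * (a * n) := by ring
  have eb : 2 * b * n = 2 * (b * n) := by ring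
  rw [ea, eb]
  have c1 : 0 < (2 * (b * n)).choose (b * n) := Nat.choose_pos (by omega)
  have c2 : 0 < (2 * (a * n)).choose (a * n) := Nat.choose_pos (by omega)
  have c3 : 0 < (a * n).choose (b * n) := Nat.choose_pos hle
  have h3 : 0 < 3 * a - b := by omega
  have hs : 0 < a - b := by omega
  rw [← Nat.factorization_prime_le_iff_dvd (by positivity) (by positivity)]
  intro p hp
  rw [Nat.factorization_mul (by positivity) c1.ne', Nat.factorization_mul (by positivity)
    (by positivity), Nat.factorization_mul (by positivity) c3.ne',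
    Nat.factorization_mul (by positivity) c2.ne', Nat.factorization_mul (by positivity) h3.ne',
    Nat.factorization_mul (by norm_num) hs.ne']
  simp only [Finsupp.add_apply]
  have m := main_ineq p a b n hp hb hab hn
  have i1 := congrArg (fun x => x.factorization p)
    (Nat.choose_mul_factorial_mul_factorial (by omega : b * n ≤ 2 * (b * n)))
  have i2 := congrArg (fun x => x.factorization p)
    (Nat.choose_mul_factorial_mul_factorial (by omega : a * n ≤ 2 * (a * n)))
  have i3 := congrArg (fun x => x.factorization p)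
    (Nat.choose_mul_factorial_mul_factorial hle)
  have e1 : 2 * (b * n) - b * n = b * n := by omega
  have e2 : 2 * (a * n) - a * n = a * n := by omega
  rw [e1] at i1
  rw [e2] at i2
  have F : ∀ m : ℕ, m.factorial ≠ 0 := Nat.factorial_ne_zero
  simp only [Nat.factorization_mul (mul_ne_zero c1.ne' (F _)) (F _),
    Nat.factorization_mul c1.ne' (F _), Finsupp.add_apply] at i1
  simp only [Nat.factorization_mul (mul_ne_zero c2.ne' (F _)) (F _),
    Nat.factorization_mul c2.ne' (F _), Finsupp.add_apply] at i2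
  simp only [Nat.factorization_mul (mul_ne_zero c3.ne' (F _)) (F _),
    Nat.factorization_mul c3.ne' (F _), Finsupp.add_apply] at i3
  omega

end Pool.Agent.Results.MP_698530_nt.FullDivisibility
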