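import Mathlib
import Pool.Agent.Q273.CG.MD2

set_option autoImplicit false

/-!
# Mills' theorem with prescribed distances to the next prime, after a record run of composites

Mills: there is `A > 1` such that all the integer parts of `A ^ (C ^ n)` are prime.  Here the
distances from `⌊A ^ (x_n)⌋` to the next prime are an ARBITRARY prescribed sequence `h_n` (up to the
record scale), and the prime `⌊A ^ (x_n)⌋ + h_n` ends a run of composite numbers of record length.

There is an absolute constant `C` such that for all sequences of exponents with `x_{n+1} ≥ C x_n`,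
all `1 < u < v` and ALL sequences of natural numbers `h_n ≤ c f(u ^ (x_n))`, the set of the `A` in
`(u, v)` such that for all large `n` the number `⌊A ^ (x_n)⌋ + h_n` is prime and no prime lies between
`⌊A ^ (x_n)⌋ - c f(A ^ (x_n))` and `⌊A ^ (x_n)⌋ + h_n` has Hausdorff dimension at least `1 - ε`, with
`c = c(ε)`; it has dimension `1` if `h_n = o(f(u ^ (x_n)))` and `c` may depend on `A`.
`f(x) = log x (log₂ x)² log₄ x / (log₃ x)²` is the record scale of the starting files.
The case `h_n = 0` is Mills' theorem with primes that follow a gap of record length; the case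
`h_n = ⌊c f(u ^ (x_n))⌋` puts `A ^ (x_n)` in the middle of such a gap.
-/

open Filter Topology

namespace Pool.Agent.Results.MP_69be96_nt.MillsPrescribedDistances

/-- The record scale `f(x) = log x (log₂ x)² log₄ x / (log₃ x)²` (iterated natural logarithms). -/
noncomputable def f (x : ℝ) : ℝ :=
  Real.log x * (Real.log (Real.log x)) ^ 2 * Real.log (Real.log (Real.log (Real.log x))) /
    (Real.log (Real.log (Real.log x))) ^ 2

/-- `g(n) = p(n+1) - p(n) - 1`, where `p(n) = Nat.nth Nat.Prime (n - 1)`, `n ≥ 1`. -/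
noncomputable def g (n : ℕ) : ℝ :=
  (Nat.nth Nat.Prime n : ℝ) - (Nat.nth Nat.Prime (n - 1) : ℝ) - 1

/-- `N + h` is the least prime which is at least `N`, and it is the first prime after `N - H`. -/
def NextPrimeAfterRun (N h : ℕ) (H : ℝ) : Prop :=
  (N + h).Prime ∧ ∀ q : ℕ, q.Prime → q < N + h → (q : ℝ) + H < N

/-- 1. relates `NextPrimeAfterRun` to the function `g` of the problem. 2. is the theorem with a
uniform constant, 3. the version with a constant which depends on `A`. -/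
theorem result :
    (∀ (N h : ℕ) (H : ℝ), 3 ≤ N → NextPrimeAfterRun N h H → ∃ n : ℕ, 1 ≤ n ∧
      Nat.nth Nat.Prime n = N + h ∧ (Nat.nth Nat.Prime (n - 1) : ℝ) + H < N ∧
      (h : ℝ) + H - 1 < g n) ∧
    ∃ C : ℝ, 1 < C ∧ (∀ ε : ℝ, 0 < ε → ε < 1 → ∃ c : ℝ, 0 < c ∧
      ∀ x : ℕ → ℝ, (∀ n, 0 < x n) → (∀ n, C * x n ≤ x (n + 1)) →
      ∀ u v : ℝ, 1 < u → u < v → ∀ h : ℕ → ℕ, (∀ᶠ n in atTop, (h n : ℝ) ≤ c * f (u ^ x n)) →
      ENNReal.ofReal (1 - ε) ≤
        dimH {A : ℝ | u < A ∧ A < v ∧ ∀ᶠ n in atTop,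
          NextPrimeAfterRun ⌊A ^ x n⌋₊ (h n) (c * f (A ^ x n))}) ∧
      (∀ x : ℕ → ℝ, (∀ n, 0 < x n) → (∀ n, C * x n ≤ x (n + 1)) →
      ∀ u v : ℝ, 1 < u → u < v → ∀ h : ℕ → ℕ,
        (∀ c : ℝ, 0 < c → ∀ᶠ n in atTop, (h n : ℝ) ≤ c * f (u ^ x n)) →
        dimH {A : ℝ | u < A ∧ A < v ∧ ∃ c : ℝ, 0 < c ∧ ∀ᶠ n in atTop,
          NextPrimeAfterRun ⌊A ^ x n⌋₊ (h n) (c * f (A ^ x n))} = 1) := by
  refine ⟨fun N h H hN hR => ?_, Pool.Agent.Q273.CG.mills_dist_both⟩
  obtain ⟨h1, h2⟩ := hR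
  obtain ⟨n, hn⟩ : ∃ n, Nat.nth Nat.Prime n = N + h :=
    ⟨Nat.count Nat.Prime (N + h), Nat.nth_count h1⟩
  have hn1 : 1 ≤ n := by
    rcases Nat.eq_zero_or_pos n with h0 | h0
    · rw [h0, Nat.nth_prime_zero_eq_two] at hn
      omega
    · exact h0
  have h3 := Nat.nth_strictMono Nat.infinite_setOf_prime (show n - 1 < n by omega)
  rw [hn] at h3
  have h4 := h2 _ (Nat.prime_nth_prime (n - 1)) h3
  refine ⟨n, hn1, hn, h4, ?_⟩
  unfold g
  rw [hn]
  push_cast
  linarith

end Pool.Agent.Results.MP_69be96_nt.MillsPrescribedDistances
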