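import Pool.Agent.TH747.HS.FS

/-!
The iterated Hindman theorem and idempotent ultrafilters: all solutions of one computable instance
compute `0'''`, and all idempotent ultrafilters decide the `Σ⁰₃` facts in the same computable way.
-/

set_option autoImplicit false

namespace Pool.Agent.Results.MP_69fea5_lc.IteratedHindman

open Encodable Filter Pool.Agent.H645R2.HT Pool.Agent.TH747.HS Pool.Agent.Helper446
  Pool.Agent.Helper446.RE Pool.Agent.Helper446.Oracle
open Pool.Agent.TH747.HT hiding dl el c_dl c_el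

/-- The characteristic function of a set of natural numbers, as a (total) partial function. -/
noncomputable def char (B : Set ℕ) : ℕ →. ℕ := by
  classical exact fun n => Part.some (if n ∈ B then 1 else 0)

/-- The ultrafilter `U` on the natural numbers is idempotent (for addition) and different from the
principal ultrafilter at `0`. -/
def IdempotentUltrafilter (U : Ultrafilter ℕ) : Prop :=
  (∀ A : Set ℕ, {m | {n | m + n ∈ A} ∈ U} ∈ U ↔ A ∈ U) ∧ {0} ∉ U

/-- The increasing sequence `x 0 < x 1 < ⋯` of positive integers solves the sequence of colourings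
`c 0, c 1, …`: for each `z` all sums of distinct elements of `{x z, x (z + 1), …}` get the same colour
from `c z`. -/
def SolvesIHT {κ : Type} (c : ℕ → ℕ → κ) (x : ℕ → ℕ) : Prop :=
  StrictMono x ∧ 0 < x 0 ∧
    ∀ z, ∃ i, ∀ F : Finset ℕ, F.Nonempty → (∀ j ∈ F, z ≤ j) → c z (∑ j ∈ F, x j) = i

/-- The same for sums of at most three distinct elements. -/
def SolvesIHT3 {κ : Type} (c : ℕ → ℕ → κ) (x : ℕ → ℕ) : Prop :=
  StrictMono x ∧ 0 < x 0 ∧
    ∀ z, ∃ i, ∀ F : Finset ℕ, F.Nonempty → F.card ≤ 3 → (∀ j ∈ F, z ≤ j) →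
      c z (∑ j ∈ F, x j) = i

/-- The `Σ⁰₃` set of natural numbers presented by `R`. -/
def Sigma3 (R : ℕ → ℕ → ℕ → ℕ → Bool) : Set ℕ := {n | ∃ a, ∀ b, ∃ t, R n a b t = true}

/-- `A` is an IP* set: it contains a sum of distinct elements of each infinite set of positive
integers. -/
def IPStar (A : Set ℕ) : Prop :=
  ∀ X : Set ℕ, X.Infinite → 0 ∉ X →
    ∃ F : Finset ℕ, F.Nonempty ∧ (F : Set ℕ) ⊆ X ∧ ∑ n ∈ F, n ∈ A

/-- The decision of `Σ⁰₃` facts by a number. -/
def dd (z l : ℕ) : Bool := !(D3k W0 3 z l)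

theorem c_dd : Computable fun q : ℕ × ℕ => dd q.1 q.2 := by
  unfold dd
  exact cnot (c_D3k c_W0 3)

/-- Packing two bits. -/
def pk4 (p : Bool × Bool) : Fin 4 := (if p.1 then 1 else 0) + (if p.2 then 2 else 0)

/-- The same with the lowest digit. -/
def cc4 (z l : ℕ) : Fin 4 := pk4 (b0 l, dd z l)

theorem c_cc4 : Computable fun q : ℕ × ℕ => cc4 q.1 q.2 := by
  have h1 : Computable pk4 := (Primrec.dom_finite pk4).to_comp
  exact h1.comp (Computable.pair (c_b0.comp Computable.snd) c_dd)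

theorem pk4_fst (p : Bool × Bool) : decide (pk4 p = 1 ∨ pk4 p = 3) = p.1 := by
  revert p
  decide

theorem pk4_snd (p : Bool × Bool) : decide (pk4 p = 2 ∨ pk4 p = 3) = p.2 := by
  revert p
  decide

theorem cc4_fst (l z : ℕ) : decide (cc4 z l = 1 ∨ cc4 z l = 3) = b0 l := pk4_fst _

theorem cc4_snd (l z : ℕ) : decide (cc4 z l = 2 ∨ cc4 z l = 3) = dd z l := pk4_snd _

/-- The index of a `Σ⁰₃` set. -/
theorem sigma3_univ {R : ℕ → ℕ → ℕ → ℕ → Bool}
    (hR : Computable fun q : ℕ × ℕ × ℕ × ℕ => R q.1 q.2.1 q.2.2.1 q.2.2.2) :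
    ∃ e, ∀ n, n ∈ Sigma3 R ↔ ¬ Psi W0 (Nat.pair e n) := by
  have h1 : REPred fun w : ℕ => ∃ t, R w.unpair.1 w.unpair.2.unpair.1 w.unpair.2.unpair.2 t =
      true := by
    refine RE.exN (p := fun (w : ℕ) t => R w.unpair.1 w.unpair.2.unpair.1 w.unpair.2.unpair.2 t =
      true) ?_
    refine RE.eq ?_ (by fun_prop)
    exact hR.comp (g := fun x : ℕ × ℕ => (x.1.unpair.1, x.1.unpair.2.unpair.1,
      x.1.unpair.2.unpair.2, x.2)) (by fun_prop)
  obtain ⟨e, he⟩ := univ_W0 h1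
  refine ⟨e, fun n => ?_⟩
  rw [Psi_W0]
  unfold ix Sigma3
  simp only [Nat.unpair_pair]
  push Not
  refine exists_congr fun a => forall_congr' fun b => ?_
  rw [← he]
  simp only [Nat.unpair_pair]

/-- Typical sums decide. -/
theorem lim_dd {V : Ultrafilter ℕ} (hV : FarU V) (z : ℕ) :
    Sm V 3 (fun l => (dd z l = true ↔ ¬ Psi W0 z)) := by
  refine Sm_mono ?_ (limDec mon_W0 hV (K := 3) le_rfl z)
  intro l hl
  unfold dd
  rw [← hl]
  cases D3k W0 3 z l <;> simp

theorem dd_idem' {U : Ultrafilter ℕ} (hU : Idem U) (z : ℕ) :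
    ∀ᶠ l in (U : Filter ℕ), (dd z l = true ↔ ¬ Psi W0 z) := by
  have h1 := lim_dd (farU_idem hU) z
  rwa [Sm_idem hU (by norm_num)] at h1

theorem dd_ipstar (z : ℕ) : (¬ Psi W0 z → IPStar {l | dd z l = true}) ∧
    (Psi W0 z → IPStar {l | dd z l = false}) := by
  constructor
  · intro h X hX h0
    obtain ⟨U, hU, hUX⟩ := exists_idem hX fun x hx => Nat.pos_of_ne_zero fun h => h0 (h ▸ hx)
    obtain ⟨l, hl1, hl2⟩ := ((dd_idem' hU z).and (hUX ∅)).exists
    obtain ⟨G, g1, g2, -, rfl⟩ := hl2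
    exact ⟨G, g1, g2, hl1.2 h⟩
  · intro h X hX h0
    obtain ⟨U, hU, hUX⟩ := exists_idem hX fun x hx => Nat.pos_of_ne_zero fun h => h0 (h ▸ hx)
    obtain ⟨l, hl1, hl2⟩ := ((dd_idem' hU z).and (hUX ∅)).exists
    obtain ⟨G, g1, g2, -, rfl⟩ := hl2
    refine ⟨G, g1, g2, ?_⟩
    rw [Set.mem_setOf_eq, ← Bool.not_eq_true, hl1, not_not]
    exact h

theorem idem_of {U : Ultrafilter ℕ} (hU : IdempotentUltrafilter U) : Idem U := by
  refine ⟨fun p => ?_, ?_⟩
  · exact hU.1 {n | p n}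
  · have h := Ultrafilter.compl_mem_iff_notMem.2 hU.2
    filter_upwards [h] with n hn
    exact Nat.pos_of_ne_zero hn

theorem dd_idem {U : Ultrafilter ℕ} (hU : IdempotentUltrafilter U) (z : ℕ) :
    {l | dd z l = true} ∈ U ↔ ¬ Psi W0 z := by
  have h1 := lim_dd (farU_idem (idem_of hU)) z
  rw [Sm_idem (idem_of hU) (by norm_num)] at h1
  constructor
  · intro h
    obtain ⟨l, hl1, hl2⟩ := (h1.and (show ∀ᶠ l in (U : Filter ℕ), dd z l = true from h)).exists
    exact hl1.1 hl2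
  · intro h
    refine h1.mono fun l hl => ?_
    exact hl.2 h

/-- A far set, one colour for all sums of exactly three elements. -/
theorem dd_far {X : Set ℕ} (h0 : 0 ∉ X) (hX : Far X) {z : ℕ} {i : Bool}
    (hc : ∀ F : Finset ℕ, (F : Set ℕ) ⊆ X → F.card = 3 → dd z (∑ n ∈ F, n) = i) :
    (i = true ↔ ¬ Psi W0 z) := by
  obtain ⟨V, hV, hVX⟩ := exists_farU h0 (X := X) (fun N => by
    obtain ⟨x, hx, hl⟩ := hX N
    refine ⟨x, hx, ?_⟩
    exact dvd_of_dg fun i hi => dg_of_lt_la (by omega))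
  obtain ⟨n, hn1, hn2⟩ := Sm_exists (Sm_and (lim_dd hV z) (Sm_mem hV hVX (k := 3) 0))
  obtain ⟨G, g1, g2, -, rfl⟩ := hn2
  rw [hc G g1 g2] at hn1
  exact hn1

theorem tail {κ : Type} {c : ℕ → ℕ → κ} {x : ℕ → ℕ} (hx : StrictMono x) {z : ℕ} {i : κ}
    {P : ℕ → Prop} (h : ∀ F : Finset ℕ, F.Nonempty → P F.card → (∀ j ∈ F, z ≤ j) →
      c z (∑ j ∈ F, x j) = i) (F : Finset ℕ) (hF : (F : Set ℕ) ⊆ x '' Set.Ici z)
    (h1 : F.Nonempty) (h2 : P F.card) : c z (∑ n ∈ F, n) = i := by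
  classical
  obtain ⟨G, g1, rfl⟩ := Finset.subset_set_image_iff.1 hF
  rw [Finset.sum_image fun a _ b _ hab => hx.injective hab]
  rw [Finset.card_image_of_injective _ hx.injective] at h2
  exact h G (Finset.image_nonempty.1 h1) h2 fun j hj => g1 hj

/-- Three elements of `X` whose sum has the value `v`, and a code of at least `z` smaller elements
of `X`. -/
def Wit (X : Set ℕ) (z : ℕ) (v : Bool) (q : ℕ × ℕ × ℕ × ℕ) : Prop :=
  (z ≤ (L q.1).length ∧ ∀ y ∈ L q.1, y ∈ X ∧ y < q.2.1) ∧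
    (q.2.1 ∈ X ∧ q.2.2.1 ∈ X ∧ q.2.2.2 ∈ X) ∧ (q.2.1 < q.2.2.1 ∧ q.2.2.1 < q.2.2.2) ∧
    dd z (q.2.1 + (q.2.2.1 + q.2.2.2)) = v

theorem re_wit {X : Set ℕ} (v : Bool) : REIn X fun z : ℕ => ∃ q, Wit X z v q := by
  refine REIn.ex (S := fun z q => Wit X z v q) ?_
  unfold Wit
  refine REIn.and (REIn.and (REIn.of_re (RE.le (by fun_prop) (by fun_prop))) ?_) (REIn.and
    (REIn.and (REIn.mem (by fun_prop)) (REIn.and (REIn.mem (by fun_prop)) (REIn.mem
      (by fun_prop)))) (REIn.and (REIn.of_re (RE.and (RE.lt (by fun_prop) (by fun_prop))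
      (RE.lt (by fun_prop) (by fun_prop)))) (REIn.of_re (RE.eq ?_ (by fun_prop)))))
  · refine REIn.all_mem (S := fun (x : ℕ × ℕ × ℕ × ℕ × ℕ) (y : ℕ) => y ∈ X ∧ y < x.2.2.1) ?_
      (by fun_prop)
    exact REIn.and (REIn.mem Computable.snd) (REIn.of_re (RE.lt (by fun_prop) (by fun_prop)))
  · exact c_dd.comp (g := fun x : ℕ × ℕ × ℕ × ℕ × ℕ =>
      (x.1, x.2.2.1 + (x.2.2.2.1 + x.2.2.2.2))) (by fun_prop)

theorem wit_tail {x : ℕ → ℕ} (hx : StrictMono x) {z : ℕ} {v : Bool} {q : ℕ × ℕ × ℕ × ℕ}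
    (h : Wit (Set.range x) z v q) : ∃ F : Finset ℕ, (F : Set ℕ) ⊆ x '' Set.Ici z ∧ F.card = 3 ∧
      dd z (∑ n ∈ F, n) = v := by
  classical
  obtain ⟨⟨h1, h2⟩, ⟨h3, h4, h5⟩, ⟨h6, h7⟩, h8⟩ := h
  obtain ⟨g, a, b, c⟩ := q
  dsimp only at *
  obtain ⟨i, rfl⟩ := h3
  obtain ⟨j, rfl⟩ := h4
  obtain ⟨k, rfl⟩ := h5
  have hij : i < j := hx.lt_iff_lt.1 h6
  have hjk : j < k := hx.lt_iff_lt.1 h7
  have hzi : z ≤ i := by
    have e1 : (L g).toFinset ⊆ (Finset.range i).image x := by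
      intro y hy
      obtain ⟨⟨m, rfl⟩, hm⟩ := h2 y (by simpa using hy)
      exact Finset.mem_image_of_mem _ (Finset.mem_range.2 (hx.lt_iff_lt.1 hm))
    have e2 := Finset.card_le_card e1
    rw [Finset.card_image_of_injective _ hx.injective, Finset.card_range,
      List.toFinset_card_of_nodup (L_sorted g).nodup] at e2
    omega
  refine ⟨{x i, x j, x k}, ?_, ?_, ?_⟩
  · intro y hy
    simp only [Finset.coe_insert, Finset.coe_singleton, Set.mem_insert_iff,
      Set.mem_singleton_iff] at hy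
    rcases hy with rfl | rfl | rfl
    · exact ⟨i, hzi, rfl⟩
    · exact ⟨j, le_trans hzi hij.le, rfl⟩
    · exact ⟨k, le_trans hzi (hij.le.trans hjk.le), rfl⟩
  · rw [Finset.card_insert_of_notMem, Finset.card_insert_of_notMem, Finset.card_singleton]
    · simpa using h7.ne
    · simp only [Finset.mem_insert, Finset.mem_singleton, not_or]
      exact ⟨h6.ne, (h6.trans h7).ne⟩
  · rw [Finset.sum_insert, Finset.sum_insert, Finset.sum_singleton]
    · exact h8
    · simpa using h7.ne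
    · simp only [Finset.mem_insert, Finset.mem_singleton, not_or]
      exact ⟨h6.ne, (h6.trans h7).ne⟩

theorem exists_wit {x : ℕ → ℕ} (hx : StrictMono x) (z : ℕ) {i : Bool}
    (h : ∀ F : Finset ℕ, (F : Set ℕ) ⊆ x '' Set.Ici z → F.card = 3 → dd z (∑ n ∈ F, n) = i) :
    ∃ q, Wit (Set.range x) z i q := by
  classical
  obtain ⟨g, hg⟩ := exists_code ((Finset.range z).image x)
  have hlen : (L g).length = z := by
    rw [← List.toFinset_card_of_nodup (L_sorted g).nodup]
    have : (L g).toFinset = (Finset.range z).image x := by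
      ext y
      rw [List.mem_toFinset, hg]
    rw [this, Finset.card_image_of_injective _ hx.injective, Finset.card_range]
  refine ⟨(g, x z, x (z + 1), x (z + 2)), ⟨hlen.ge, fun y hy => ?_⟩,
    ⟨⟨_, rfl⟩, ⟨_, rfl⟩, ⟨_, rfl⟩⟩, ⟨hx (by omega), hx (by omega)⟩, ?_⟩
  · obtain ⟨j, hj, rfl⟩ := Finset.mem_image.1 ((hg y).1 hy)
    exact ⟨⟨j, rfl⟩, hx (Finset.mem_range.1 hj)⟩
  · have h6 : x z < x (z + 1) := hx (by omega)
    have h7 : x (z + 1) < x (z + 2) := hx (by omega)
    have := h {x z, x (z + 1), x (z + 2)} ?_ ?_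
    · rw [Finset.sum_insert, Finset.sum_insert, Finset.sum_singleton] at this
      · exact this
      · simpa using h7.ne
      · simp only [Finset.mem_insert, Finset.mem_singleton, not_or]
        exact ⟨h6.ne, (h6.trans h7).ne⟩
    · intro y hy
      simp only [Finset.coe_insert, Finset.coe_singleton, Set.mem_insert_iff,
        Set.mem_singleton_iff] at hy
      rcases hy with rfl | rfl | rfl
      · exact ⟨z, Set.self_mem_Ici, rfl⟩
      · exact ⟨z + 1, Nat.le_succ z, rfl⟩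
      · exact ⟨z + 2, Nat.le_add_right z 2, rfl⟩
    · rw [Finset.card_insert_of_notMem, Finset.card_insert_of_notMem, Finset.card_singleton]
      · simpa using h7.ne
      · simp only [Finset.mem_insert, Finset.mem_singleton, not_or]
        exact ⟨h6.ne, (h6.trans h7).ne⟩

/-- If the decisions are right and constant on tails, the set computes all `Σ⁰₃` sets. -/
theorem computes {x : ℕ → ℕ} (hx : StrictMono x)
    (h : ∀ z, ∃ i : Bool, (∀ F : Finset ℕ, (F : Set ℕ) ⊆ x '' Set.Ici z → F.card = 3 →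
      dd z (∑ n ∈ F, n) = i) ∧ (i = true ↔ ¬ Psi W0 z))
    {R : ℕ → ℕ → ℕ → ℕ → Bool}
    (hR : Computable fun q : ℕ × ℕ × ℕ × ℕ => R q.1 q.2.1 q.2.2.1 q.2.2.2) :
    TuringReducible (char (Sigma3 R)) (char (Set.range x)) := by
  have key : ∀ z, ((∃ q, Wit (Set.range x) z true q) ↔ ¬ Psi W0 z) ∧
      ((∃ q, Wit (Set.range x) z false q) ↔ Psi W0 z) := by
    intro z
    obtain ⟨i, h1, h2⟩ := h z
    have h3 : ∀ v, (∃ q, Wit (Set.range x) z v q) ↔ v = i := by
      intro v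
      constructor
      · rintro ⟨q, hq⟩
        obtain ⟨F, f1, f2, f3⟩ := wit_tail hx hq
        rw [← f3, h1 F f1 f2]
      · rintro rfl
        exact exists_wit hx z h1
    rw [h3, h3, ← h2]
    cases i <;> simp_all
  obtain ⟨e, he⟩ := sigma3_univ hR
  refine turingReducible_iff.2 ⟨?_, ?_⟩
  · refine ((re_wit (X := Set.range x) true).comp (f := fun n : ℕ => Nat.pair e n)
      (by fun_prop)).of_eq fun n => ?_
    rw [he, (key _).1]
  · refine ((re_wit (X := Set.range x) false).comp (f := fun n : ℕ => Nat.pair e n)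
      (by fun_prop)).of_eq fun n => ?_
    rw [he, (key _).2, not_not]

/-- There are computable sequences `c`, `d` of colourings of the natural numbers with `4` and with
`2` colours such that for every `Σ⁰₃` set `S` (presented by a computable `R`): every solution of `c`
for sums of at most three elements computes `S`; every solution of `d` computes `S`; and for some `e`
and all `n` the set `{l | d ⟨e, n⟩ l = true}` is an IP* set if `n ∈ S`, its complement is an IP* set
if `n ∉ S`, and it belongs to an arbitrary idempotent ultrafilter if and only if `n ∈ S`. -/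
theorem result :
    ∃ (c : ℕ → ℕ → Fin 4) (d : ℕ → ℕ → Bool), Computable (fun q : ℕ × ℕ => c q.1 q.2) ∧
      Computable (fun q : ℕ × ℕ => d q.1 q.2) ∧
      ∀ R : ℕ → ℕ → ℕ → ℕ → Bool,
        Computable (fun q : ℕ × ℕ × ℕ × ℕ => R q.1 q.2.1 q.2.2.1 q.2.2.2) →
        (∀ x, SolvesIHT3 c x → TuringReducible (char (Sigma3 R)) (char (Set.range x))) ∧
        (∀ x, SolvesIHT d x → TuringReducible (char (Sigma3 R)) (char (Set.range x))) ∧
        ∃ e, ∀ n, (n ∈ Sigma3 R → IPStar {l | d (Nat.pair e n) l = true}) ∧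
          (n ∉ Sigma3 R → IPStar {l | d (Nat.pair e n) l = false}) ∧
          ∀ U : Ultrafilter ℕ, IdempotentUltrafilter U →
            ({l | d (Nat.pair e n) l = true} ∈ U ↔ n ∈ Sigma3 R) := by
  refine ⟨cc4, dd, c_cc4, c_dd, fun R hR => ⟨fun x hx => ?_, fun x hx => ?_, ?_⟩⟩
  · obtain ⟨hm, h0, hc⟩ := hx
    refine computes hm (fun z => ?_) hR
    obtain ⟨i, hi⟩ := hc z
    have h1 := tail (c := cc4) hm (P := fun k => k ≤ 3) hi
    have hinf : (x '' Set.Ici z).Infinite := (Set.Ici_infinite z).image hm.injective.injOn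
    have hz : (0 : ℕ) ∉ x '' Set.Ici z := by
      rintro ⟨j, -, hj⟩
      have := hm.monotone (Nat.zero_le j)
      omega
    have hb : Const3 b0 (x '' Set.Ici z) := by
      refine ⟨decide (i = 1 ∨ i = 3), fun F f1 f2 f3 => ?_⟩
      rw [← cc4_fst _ z, h1 F f1 f2 f3]
    have hfar := hb.far hinf (ps_of hz)
    have h2 : ∀ F : Finset ℕ, (F : Set ℕ) ⊆ x '' Set.Ici z → F.card = 3 →
        dd z (∑ n ∈ F, n) = decide (i = 2 ∨ i = 3) := by
      intro F f1 f2
      rw [← cc4_snd, h1 F f1 (Finset.card_pos.1 (by omega)) (by omega)]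
    exact ⟨_, h2, dd_far hz hfar h2⟩
  · obtain ⟨hm, h0, hc⟩ := hx
    refine computes hm (fun z => ?_) hR
    obtain ⟨i, hi⟩ := hc z
    have h1 := tail (c := dd) hm (P := fun _ => True) (fun F f1 _ f2 => hi F f1 f2)
    have hinf : (x '' Set.Ici z).Infinite := (Set.Ici_infinite z).image hm.injective.injOn
    have hz : ∀ y ∈ x '' Set.Ici z, 0 < y := by
      rintro _ ⟨j, -, rfl⟩
      have := hm.monotone (Nat.zero_le j)
      omega
    refine ⟨i, fun F f1 f2 => h1 F f1 (Finset.card_pos.1 (by omega)) trivial, ?_⟩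
    obtain ⟨U, hU, hUX⟩ := exists_idem hinf hz
    have h3 := lim_dd (farU_idem hU) z
    rw [Sm_idem hU (by norm_num)] at h3
    obtain ⟨l, hl1, hl2⟩ := (h3.and (hUX ∅)).exists
    obtain ⟨G, g1, g2, -, rfl⟩ := hl2
    rw [h1 G g2 g1 trivial] at hl1
    exact hl1
  · obtain ⟨e, he⟩ := sigma3_univ hR
    refine ⟨e, fun n => ⟨fun h => (dd_ipstar _).1 ((he n).1 h), fun h => (dd_ipstar _).2 ?_,
      fun U hU => ?_⟩⟩
    · by_contra hc
      exact h ((he n).2 hc)
    · rw [he, dd_idem hU]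

end Pool.Agent.Results.MP_69fea5_lc.IteratedHindman
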