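import Mathlib

/-!
Ratios of `n`-th roots of generalized harmonic numbers are strictly increasing from `n = 3` on.
-/

namespace Pool.Agent.Results.MP_6a9549_nt.RatiosIncreasing

/-- The harmonic number of order `m`. -/
noncomputable def H (m n : ℕ) : ℝ := ∑ k ∈ Finset.Icc 1 n, 1 / (k : ℝ) ^ m

/-- The ratio `r_n^{(m)}` of consecutive roots. -/
noncomputable def r (m n : ℕ) : ℝ :=
  (H m (n + 1)) ^ ((1 : ℝ) / ((n : ℝ) + 1)) / (H m n) ^ ((1 : ℝ) / (n : ℝ))

theorem H_succ (m n : ℕ) : H m (n + 1) = H m n + 1 / ((n : ℝ) + 1) ^ m := by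
  unfold H
  rw [Finset.sum_Icc_succ_top (by omega)]
  push_cast
  rfl

theorem H_pos (m n : ℕ) (hn : 1 ≤ n) : 0 < H m n := by
  unfold H
  apply Finset.sum_pos
  · intro k hk
    have : 0 < k := (Finset.mem_Icc.1 hk).1
    positivity
  · exact ⟨1, Finset.mem_Icc.2 ⟨le_rfl, hn⟩⟩

/-- Convexity of `t ↦ t^{-m}` at three consecutive integers. -/
theorem recip_convex (m : ℕ) (t : ℝ) (ht : 0 < t) :
    2 * (1 / (t + 1) ^ m) ≤ 1 / t ^ m + 1 / (t + 2) ^ m := by
  have h1 : 0 < t ^ m := by positivity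
  have h2 : 0 < (t + 1) ^ m := by positivity
  have h3 : 0 < (t + 2) ^ m := by positivity
  -- AM-GM: 1/a + 1/c ≥ 2/√(ac) ≥ 2/b as ac ≤ b²
  have h4 : t ^ m * (t + 2) ^ m ≤ ((t + 1) ^ m) ^ 2 := by
    rw [← mul_pow, ← pow_mul, mul_comm m 2, pow_mul]
    apply pow_le_pow_left₀ (by positivity)
    nlinarith
  have h5 : 1 / (t + 1) ^ m * (1 / (t + 1) ^ m) ≤ 1 / t ^ m * (1 / (t + 2) ^ m) := by
    rw [one_div_mul_one_div, one_div_mul_one_div]
    apply one_div_le_one_div_of_le (by positivity)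
    nlinarith
  have h6 : 0 < 1 / t ^ m := by positivity
  have h7 : 0 < 1 / (t + 1) ^ m := by positivity
  have h8 : 0 < 1 / (t + 2) ^ m := by positivity
  nlinarith [sq_nonneg (1 / t ^ m - 1 / (t + 2) ^ m)]

/-- The polynomial inequality behind the convexity of `log (H_j / H_{j-1})`. -/
theorem poly_ineq {h a b c : ℝ} (ha : 0 < a) (hb : 0 < b) (hab : b ≤ a)
    (hconv : 2 * b ≤ a + c) (hh : 0 < h) :
    (h + b) ^ 3 * (h - a) ≤ h ^ 3 * (h + b + c) := by
  have e : h ^ 3 * (h + b + c) - (h + b) ^ 3 * (h - a) =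
      h ^ 3 * (a + c - 2 * b) + 3 * h ^ 2 * b * (a - b) + h * b ^ 2 * (3 * a - b) + a * b ^ 3 := by
    ring
  have h1 : 0 ≤ h ^ 3 * (a + c - 2 * b) := mul_nonneg (by positivity) (by linarith)
  have h2 : 0 ≤ 3 * h ^ 2 * b * (a - b) := mul_nonneg (by positivity) (by linarith)
  have h3 : 0 ≤ h * b ^ 2 * (3 * a - b) := mul_nonneg (by positivity) (by linarith)
  have h4 : 0 ≤ a * b ^ 3 := by positivity
  linarith

/-- `log (H_j / H_{j-1})` is convex in `j`. -/
theorem log_convex (m n : ℕ) (hn : 1 ≤ n) :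
    3 * Real.log (H m (n + 2)) + Real.log (H m n) ≤
      3 * Real.log (H m (n + 1)) + Real.log (H m (n + 3)) := by
  have p0 := H_pos m n hn
  have p1 := H_pos m (n + 1) (by omega)
  have p2 := H_pos m (n + 2) (by omega)
  have p3 := H_pos m (n + 3) (by omega)
  have e1 := H_succ m n
  have e2 := H_succ m (n + 1)
  have e3 := H_succ m (n + 2)
  have hn0 : (0 : ℝ) < n := by exact_mod_cast hn
  have hineq : (H m (n + 2)) ^ 3 * H m n ≤ (H m (n + 1)) ^ 3 * H m (n + 3) := by
    have h1 := poly_ineq (h := H m (n + 1)) (a := 1 / ((n : ℝ) + 1) ^ m)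
      (b := 1 / ((n : ℝ) + 2) ^ m) (c := 1 / ((n : ℝ) + 3) ^ m) (by positivity) (by positivity)
      (by
        apply one_div_le_one_div_of_le (by positivity)
        exact pow_le_pow_left₀ (by positivity) (by linarith) m)
      (by
        have := recip_convex m ((n : ℝ) + 1) (by positivity)
        have e : (n : ℝ) + 1 + 1 = n + 2 := by ring
        have e' : (n : ℝ) + 1 + 2 = n + 3 := by ring
        rwa [e, e'] at this) p1
    have f2 : H m (n + 2) = H m (n + 1) + 1 / ((n : ℝ) + 2) ^ m := by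
      rw [show n + 2 = n + 1 + 1 by ring, e2]
      push_cast
      rw [show (n : ℝ) + 1 + 1 = n + 2 by ring]
    have f3 : H m (n + 3) = H m (n + 2) + 1 / ((n : ℝ) + 3) ^ m := by
      rw [show n + 3 = n + 2 + 1 by ring, e3]
      push_cast
      rw [show (n : ℝ) + 2 + 1 = n + 3 by ring]
    have f1 : H m n = H m (n + 1) - 1 / ((n : ℝ) + 1) ^ m := by rw [e1]; ring
    rw [f3, f2, f1]
    exact h1
  have h2 := Real.log_le_log (by positivity) hineq
  rw [Real.log_mul (by positivity) (by positivity), Real.log_mul (by positivity) (by positivity),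
    Real.log_pow, Real.log_pow] at h2
  push_cast at h2
  exact h2

theorem aux_pow {t : ℝ} (ht0 : 0 < t) (ht1 : t ≤ 1 / 256) : (1 + t) ^ 9 < 1 + 16 * t := by
  have k1 : (1 + t) ^ 3 ≤ 1 + 4 * t := by
    have e : (1 + t) ^ 3 = 1 + 3 * t + t * (3 * t + t * t) := by ring
    rw [e]
    have h : 3 * t + t * t ≤ 1 := by nlinarith
    nlinarith
  have k2 : (1 + 4 * t) ^ 3 < 1 + 16 * t := by
    have e : (1 + 4 * t) ^ 3 = 1 + 12 * t + t * (48 * t + 64 * (t * t)) := by ring
    rw [e]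
    have h : 48 * t + 64 * (t * t) ≤ 1 := by nlinarith
    nlinarith
  calc (1 + t) ^ 9 = ((1 + t) ^ 3) ^ 3 := by ring
    _ ≤ (1 + 4 * t) ^ 3 := pow_le_pow_left₀ (by positivity) k1 3
    _ < 1 + 16 * t := k2

theorem aux_mul {s u : ℝ} (hs : 0 < s) (hu : 0 < u) :
    1 + s + u + s ^ 2 ≤ (1 + s + u) * (1 + s ^ 2) := by
  have e : (1 + s + u) * (1 + s ^ 2) = 1 + s + u + s ^ 2 + (s + u) * s ^ 2 := by ring
  rw [e]
  have : 0 < (s + u) * s ^ 2 := by positivity
  linarith

theorem aux_sq {s : ℝ} (hs : 0 < s) (hs1 : s ≤ 1 / 16) : s ^ 2 ≤ s / 16 := by nlinarith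

/-- The base case. -/
theorem base_ineq (m : ℕ) (hm : 1 ≤ m) : (H m 4) ^ 15 < (H m 3) ^ 10 * (H m 5) ^ 6 := by
  have e3 : H m 3 = 1 + 1 / 2 ^ m + 1 / 3 ^ m := by
    unfold H
    rw [show Finset.Icc 1 3 = {1, 2, 3} by decide]
    simp
    ring
  have e4 : H m 4 = 1 + 1 / 2 ^ m + 1 / 3 ^ m + 1 / 4 ^ m := by
    unfold H
    rw [show Finset.Icc 1 4 = {1, 2, 3, 4} by decide]
    simp
    ring
  have e5 : H m 5 = 1 + 1 / 2 ^ m + 1 / 3 ^ m + 1 / 4 ^ m + 1 / 5 ^ m := by
    unfold H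
    rw [show Finset.Icc 1 5 = {1, 2, 3, 4, 5} by decide]
    simp
    ring
  rcases Nat.lt_or_ge m 4 with h | h
  · rw [e3, e4, e5]
    interval_cases m
    · norm_num
    · norm_num
    · norm_num
  · -- `m ≥ 4`
    set s : ℝ := 1 / 2 ^ m with hs
    have hs0 : 0 < s := by positivity
    have hs1 : s ≤ 1 / 16 := by
      rw [hs]
      apply one_div_le_one_div_of_le (by norm_num)
      calc (16 : ℝ) = 2 ^ 4 := by norm_num
        _ ≤ 2 ^ m := pow_le_pow_right₀ (by norm_num) h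
    have hv : (1 : ℝ) / 4 ^ m = s ^ 2 := by
      rw [hs, one_div_pow, ← pow_mul, mul_comm m 2, pow_mul]
      norm_num
    have h3 : (0 : ℝ) < 1 / 3 ^ m := by positivity
    have h5 : (0 : ℝ) < 1 / 5 ^ m := by positivity
    rw [e3, e4, e5, hv]
    set u : ℝ := 1 / 3 ^ m with hu
    set w : ℝ := 1 / 5 ^ m with hw
    -- (1+s+u+v)^15 < (1+s+u)^10 (1+s+u+v+w)^6
    have hA : 0 < 1 + s + u := by positivity
    have hB : (1 + s + u + s ^ 2) ^ 6 ≤ (1 + s + u + s ^ 2 + w) ^ 6 :=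
      pow_le_pow_left₀ (by positivity) (by linarith) 6
    have hC : (1 + s + u + s ^ 2) ^ 9 < (1 + s + u) ^ 10 := by
      -- (1+s+u+s²) ≤ (1+s+u)(1+s²)
      have h1 : 1 + s + u + s ^ 2 ≤ (1 + s + u) * (1 + s ^ 2) := aux_mul hs0 h3
      have h2 : (1 + s + u + s ^ 2) ^ 9 ≤ ((1 + s + u) * (1 + s ^ 2)) ^ 9 :=
        pow_le_pow_left₀ (by positivity) h1 9
      have h3' : (1 + s ^ 2) ^ 9 < 1 + s := by
        have h4 : s ^ 2 ≤ s / 16 := aux_sq hs0 hs1
        have h5' : (1 + s ^ 2) ^ 9 ≤ (1 + s / 16) ^ 9 :=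
          pow_le_pow_left₀ (by positivity) (by linarith) 9
        have h6 : (1 + s / 16) ^ 9 < 1 + 16 * (s / 16) :=
          aux_pow (by positivity) (by linarith)
        linarith
      calc (1 + s + u + s ^ 2) ^ 9 ≤ ((1 + s + u) * (1 + s ^ 2)) ^ 9 := h2
        _ = (1 + s + u) ^ 9 * (1 + s ^ 2) ^ 9 := by ring
        _ < (1 + s + u) ^ 9 * (1 + s + u) := by
          apply mul_lt_mul_of_pos_left _ (by positivity)
          linarith
        _ = (1 + s + u) ^ 10 := by ring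
    calc (1 + s + u + s ^ 2) ^ 15 = (1 + s + u + s ^ 2) ^ 9 * (1 + s + u + s ^ 2) ^ 6 := by ring
      _ ≤ (1 + s + u + s ^ 2) ^ 9 * (1 + s + u + s ^ 2 + w) ^ 6 :=
        mul_le_mul_of_nonneg_left hB (by positivity)
      _ < (1 + s + u) ^ 10 * (1 + s + u + s ^ 2 + w) ^ 6 :=
        mul_lt_mul_of_pos_right hC (by positivity)

/-- The main inequality, by induction. -/
theorem main_ineq (m : ℕ) (hm : 1 ≤ m) (n : ℕ) (hn : 3 ≤ n) :
    (n : ℝ) * (n + 1) * (2 * Real.log (H m (n + 1)) - Real.log (H m n) - Real.log (H m (n + 2))) <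
      2 * ((n + 1) * Real.log (H m n) - n * Real.log (H m (n + 1))) := by
  induction n, hn using Nat.le_induction with
  | base =>
    have h := base_ineq m hm
    have p3 := H_pos m 3 (by omega)
    have p4 := H_pos m 4 (by omega)
    have p5 := H_pos m 5 (by omega)
    have h2 := Real.log_lt_log (by positivity) h
    rw [Real.log_mul (by positivity) (by positivity), Real.log_pow, Real.log_pow,
      Real.log_pow] at h2
    push_cast at h2 ⊢
    norm_num
    linarith
  | succ n hn ih =>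
    have hc := log_convex m n (by omega)
    have hn0 : (0 : ℝ) < n := by
      have : 0 < n := by omega
      exact_mod_cast this
    push_cast
    rw [show n + 1 + 1 = n + 2 by ring, show n + 1 + 2 = n + 3 by ring]
    set L0 := Real.log (H m n)
    set L1 := Real.log (H m (n + 1))
    set L2 := Real.log (H m (n + 2))
    set L3 := Real.log (H m (n + 3))
    have h1 : 2 * L2 - L1 - L3 ≤ 2 * L1 - L0 - L2 := by linarith
    have h2 : ((n : ℝ) + 1) * (n + 1 + 1) * (2 * L2 - L1 - L3) ≤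
        ((n : ℝ) + 1) * (n + 1 + 1) * (2 * L1 - L0 - L2) :=
      mul_le_mul_of_nonneg_left h1 (by positivity)
    nlinarith

theorem log_r (m n : ℕ) (hn : 1 ≤ n) :
    Real.log (r m n) = Real.log (H m (n + 1)) / (n + 1) - Real.log (H m n) / n := by
  unfold r
  have p0 := H_pos m n hn
  have p1 := H_pos m (n + 1) (by omega)
  rw [Real.log_div (by positivity) (by positivity), Real.log_rpow p1, Real.log_rpow p0]
  ring

theorem r_pos (m n : ℕ) (hn : 1 ≤ n) : 0 < r m n := by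
  unfold r
  have p0 := H_pos m n hn
  have p1 := H_pos m (n + 1) (by omega)
  positivity

/-- For every positive integer `m` the sequence `(r_n^{(m)})_{n ≥ 3}` is strictly increasing. -/
theorem result : ∀ m : ℕ, 1 ≤ m → ∀ n : ℕ, 3 ≤ n → r m n < r m (n + 1) := by
  intro m hm n hn
  have hn0 : (0 : ℝ) < n := by
    have : 0 < n := by omega
    exact_mod_cast this
  rw [← Real.log_lt_log_iff (r_pos m n (by omega)) (r_pos m (n + 1) (by omega)),
    log_r m n (by omega), log_r m (n + 1) (by omega)]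
  have h := main_ineq m hm n hn
  push_cast
  rw [show n + 1 + 1 = n + 2 by ring]
  set L0 := Real.log (H m n)
  set L1 := Real.log (H m (n + 1))
  set L2 := Real.log (H m (n + 2))
  have e : L2 / ((n : ℝ) + 1 + 1) - L1 / ((n : ℝ) + 1) - (L1 / ((n : ℝ) + 1) - L0 / n) =
      (2 * ((n + 1) * L0 - n * L1) - n * (n + 1) * (2 * L1 - L0 - L2)) /
        (n * (n + 1) * (n + 2)) := by
    field_simp
    ring
  have h2 : 0 < (2 * ((n + 1) * L0 - n * L1) - n * (n + 1) * (2 * L1 - L0 - L2)) /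
        (n * (n + 1) * (n + 2)) := by
    apply div_pos
    · linarith
    · positivity
  rw [← e] at h2
  linarith

end Pool.Agent.Results.MP_6a9549_nt.RatiosIncreasing
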