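import Pool.Agent.Q278.DH.K

set_option autoImplicit false

/-!
# Simplicity and spacing of the real zeros of the derivatives of Hardy's function

Hardy's function is `Z t = exp (i ϑ(t)) ζ(1/2 + i t)`. For every `η ∈ (0, 1/2]` there are positive constants
`c`, `C`, such that, for all large `T` and all `n ≤ (log T) / 400`, with `M = (T / 2π) log T`:

* the number of distinct real zeros of `Z^(n)` in `(T, 2T]` lies between `(1 - η - C exp(-cn)) M` and
  `(1 + 3η + C exp(-cn)) M`;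
* all these zeros, except some whose multiplicities add up to at most `C exp(-cn) M`, are simple and are
  followed by the next real zero at a distance `(1 + δ) 2π / log t` with `|δ| ≤ η`;
* consequently, among the zeros of all the functions `Z, Z', ..., Z^(N)` in `(T, 2T]`, `N ≤ (log T) / 400`,
  the exceptions have total multiplicity at most `C T log T`.

No hypothesis is used.
-/

namespace Pool.Agent.Results.MP_6bc78b_nt.DerivativesOfZ

open Complex

/-- `exp (i ϑ(t))`, where `ϑ(t) = arg Γ(1/4 + i t / 2) - (t / 2) log π` -/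
noncomputable def phase (t : ℝ) : ℂ :=
  Gamma (1 / 4 + I * t / 2) / ‖Gamma (1 / 4 + I * t / 2)‖ * cexp (-(I * (t / 2) * Real.log Real.pi))

/-- Hardy's function -/
noncomputable def Z (t : ℝ) : ℂ := phase t * riemannZeta (1 / 2 + I * t)

/-- the real zeros of the `n`-th derivative of `Z` in `(T, 2T]` -/
def zeros (n : ℕ) (T : ℝ) : Set ℝ := {t : ℝ | T < t ∧ t ≤ 2 * T ∧ iteratedDeriv n Z t = 0}

/-- the multiplicity of `t` as a zero of the `n`-th derivative of `Z` -/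
noncomputable def mult (n : ℕ) (t : ℝ) : ℕ := sInf {m : ℕ | iteratedDeriv (n + m) Z t ≠ 0}

/-- `t` is a simple zero of the `n`-th derivative, and the next real zero `t1` of the `n`-th derivative
satisfies `|(t1 - t) log t / (2π) - 1| ≤ η` -/
def Regular (n : ℕ) (η t : ℝ) : Prop :=
  iteratedDeriv (n + 1) Z t ≠ 0 ∧ ∃ t1 : ℝ, t < t1 ∧ iteratedDeriv n Z t1 = 0 ∧
    (∀ u : ℝ, t < u → u < t1 → iteratedDeriv n Z u ≠ 0) ∧ |(t1 - t) * Real.log t / (2 * Real.pi) - 1| ≤ η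

/-- the expected number of zeros -/
noncomputable def M (T : ℝ) : ℝ := T / (2 * Real.pi) * Real.log T

/-- **The real zeros of the derivatives of Hardy's function.** -/
theorem result :
    (∀ η : ℝ, 0 < η → η ≤ 1 / 2 → ∃ c C T0 : ℝ, 0 < c ∧ 0 < C ∧ 1 < T0 ∧
      ∀ (T : ℝ) (n : ℕ), T0 ≤ T → (n : ℝ) ≤ Real.log T / 400 →
      (zeros n T).Finite ∧
      (1 - η - C * Real.exp (-(c * n))) * M T ≤ ((zeros n T).ncard : ℝ) ∧
      ((zeros n T).ncard : ℝ) ≤ (1 + 3 * η + C * Real.exp (-(c * n))) * M T ∧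
      ∀ S : Finset ℝ, (∀ s ∈ S, s ∈ zeros n T ∧ ¬ Regular n η s) →
        ∑ s ∈ S, (mult n s : ℝ) ≤ C * Real.exp (-(c * n)) * M T) ∧
    (∀ η : ℝ, 0 < η → η ≤ 1 / 2 → ∃ C T0 : ℝ, 0 < C ∧ 1 < T0 ∧
      ∀ (T : ℝ) (N : ℕ), T0 ≤ T → (N : ℝ) ≤ Real.log T / 400 →
      ∀ S : ℕ → Finset ℝ, (∀ n ≤ N, ∀ s ∈ S n, s ∈ zeros n T ∧ ¬ Regular n η s) →
        ∑ n ∈ Finset.range (N + 1), ∑ s ∈ S n, (mult n s : ℝ) ≤ C * (T * Real.log T)) := by
  refine ⟨fun η hη0 hη1 => ?_, fun η hη0 hη1 => ?_⟩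
  · obtain ⟨c, C, T0, hc, hC, hT0, h⟩ := Pool.Agent.Q278.DH.main_Z hη0 hη1
    exact ⟨c, C, T0, hc, hC, by linarith, h⟩
  · obtain ⟨C, T0, hC, hT0, h⟩ := Pool.Agent.Q278.DH.main_sum hη0 hη1
    exact ⟨C, T0, hC, by linarith, h⟩

end Pool.Agent.Results.MP_6bc78b_nt.DerivativesOfZ
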