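import Pool.Agent.H902R3.PZ.W1
import Pool.Agent.Q286.AP.Elt

/-!
# The Riemann hypothesis fails in the Selberg class on whole vertical arithmetic progressions

For every finite system of points `ρ_j` of the strip `0 < Re s < 1` (with repetitions) and every `δ > 0` there are
entire members `F` of the Selberg class with real coefficients which vanish at all the points `ρ_j + i k δ`, `k` an
integer, to the order given by the repetitions.  In particular the number of zeros of `F` in `Re s ≥ σ`, `|Im s| ≤ T`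
can be larger than `K T`, for every `σ < 1` and every `K`, and the zeros can have any multiplicity.
-/

set_option autoImplicit false

open Complex

namespace Pool.Agent.Results.MP_6bc78b_nt.PeriodicZeros

/-- The completed function `Φ(s) = Q^s ∏_{j < k} Γ(λ_j s + μ_j) F(s)`. -/
noncomputable def Phi (F : ℂ → ℂ) (Q : ℝ) {k : ℕ} (lam : Fin k → ℝ) (mu : Fin k → ℂ) (s : ℂ) : ℂ :=
  (Q : ℂ) ^ s * (∏ j, Gamma ((lam j : ℂ) * s + mu j)) * F s

/-- The functional equation `Φ(s) = ω conj Φ(1 - conj s)` with `Q > 0`, `λ_j > 0`, `Re μ_j ≥ 0`, `|ω| = 1`, at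
every `s ≠ 0, 1` at which no gamma factor of `Φ(s)` or of `Φ(1 - conj s)` has a pole. -/
def FE (F : ℂ → ℂ) (Q : ℝ) {k : ℕ} (lam : Fin k → ℝ) (mu : Fin k → ℂ) (ω : ℂ) : Prop :=
  0 < Q ∧ (∀ j, 0 < lam j) ∧ (∀ j, 0 ≤ (mu j).re) ∧ ‖ω‖ = 1 ∧
    ∀ s : ℂ, s ≠ 0 → s ≠ 1 →
      (∀ j, ∀ n : ℕ, (lam j : ℂ) * s + mu j ≠ -(n : ℂ)) →
      (∀ j, ∀ n : ℕ, (lam j : ℂ) * (1 - starRingEnd ℂ s) + mu j ≠ -(n : ℂ)) →
      Phi F Q lam mu s = ω * starRingEnd ℂ (Phi F Q lam mu (1 - starRingEnd ℂ s))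

/-- The Selberg class: `a` is the sequence of coefficients of the Dirichlet series and `F` is its
continuation to `ℂ \ {1}` (the value of `F` at `1` is irrelevant). -/
structure IsSelberg (a : ℕ → ℂ) (F : ℂ → ℂ) : Prop where
  /-- the Dirichlet series converges absolutely for `Re s > 1` -/
  abs_conv : ∀ s : ℂ, 1 < s.re → LSeriesSummable a s
  /-- `F` is the sum of the Dirichlet series for `Re s > 1` -/
  eq_series : ∀ s : ℂ, 1 < s.re → F s = LSeries a s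
  /-- some `(s - 1)^m F(s)` is entire of finite order -/
  continuation : ∃ (m : ℕ) (G : ℂ → ℂ), Differentiable ℂ G ∧
    (∃ A C : ℝ, 0 < A ∧ ∀ s : ℂ, ‖G s‖ ≤ C * Real.exp (‖s‖ ^ A)) ∧
    ∀ s : ℂ, s ≠ 1 → G s = (s - 1) ^ m * F s
  /-- functional equation -/
  functional : ∃ (Q : ℝ) (k : ℕ) (lam : Fin k → ℝ) (mu : Fin k → ℂ) (ω : ℂ), FE F Q lam mu ω
  /-- Ramanujan hypothesis `a(n) ≪ n^ε` -/
  ramanujan : ∀ ε : ℝ, 0 < ε → ∃ C : ℝ, ∀ n : ℕ, 1 ≤ n → ‖a n‖ ≤ C * (n : ℝ) ^ ε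
  /-- Euler product, first part -/
  a_one : a 1 = 1
  /-- Euler product: `log F(s) = ∑ b(n) n^{-s}`, `b` supported on prime powers, `b(n) ≪ n^θ`, `θ < 1/2` -/
  euler : ∃ (b : ℕ → ℂ) (θ : ℝ), θ < 1 / 2 ∧ (∀ n : ℕ, ¬ IsPrimePow n → b n = 0) ∧
    (∃ C : ℝ, ∀ n : ℕ, 1 ≤ n → ‖b n‖ ≤ C * (n : ℝ) ^ θ) ∧
    ∀ s : ℂ, 1 < s.re → LSeriesSummable b s ∧ exp (LSeries b s) = F s

open Pool.Agent.Y532.SC in
/-- the functional equation of `One` -/
theorem fe_of_one {lam nu Q ε : ℝ} {g : ℕ → ℝ} {F : ℂ → ℂ} (h : One lam nu Q ε g F) (hlam : 0 < lam)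
    (hnu : 0 ≤ nu) (hQ : 0 < Q) : FE F Q ![lam] ![(nu : ℂ)] (ε : ℂ) := by
  refine ⟨hQ, ?_, ?_, ?_, ?_⟩
  · intro j
    fin_cases j
    simpa using hlam
  · intro j
    fin_cases j
    simpa using hnu
  · rcases h.eps with h | h <;> rw [h] <;> simp
  · intro s _ _ h1 h2
    have key := h.fe s (fun n => h1 0 n) (fun n => h2 0 n)
    have hPhi : ∀ w : ℂ, Phi F Q ![lam] ![(nu : ℂ)] w = F w * (Q : ℂ) ^ w * Gamma ((lam : ℂ) * w + nu) := by
      intro w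
      unfold Phi
      rw [Fin.prod_univ_one]
      simp only [Matrix.cons_val_zero]
      ring
    rw [hPhi, hPhi]
    exact key

open Pool.Agent.Y532.SC in
/-- the elements of `Y532.SC` belong to the Selberg class -/
theorem isSelberg_of_one {lam nu Q ε : ℝ} {g : ℕ → ℝ} {F : ℂ → ℂ} (h : One lam nu Q ε g F) (hlam : 0 < lam)
    (hnu : 0 ≤ nu) (hQ : 0 < Q) : IsSelberg (co g) F where
  abs_conv := fun s hs => co_summable h.bdd hs
  eq_series := h.series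
  continuation := by
    obtain ⟨C, hC⟩ := h.growth
    exact ⟨0, F, h.diff, ⟨3, C, by norm_num, hC⟩, fun s _ => by rw [pow_zero, one_mul]⟩
  functional := ⟨Q, 1, ![lam], ![(nu : ℂ)], ε, fe_of_one h hlam hnu hQ⟩
  ramanujan := by
    intro ε hε
    refine ⟨1, fun n hn => ?_⟩
    rw [one_mul]
    refine (co_bdd h.bdd n).trans ?_
    have : (1 : ℝ) ≤ n := by exact_mod_cast hn
    exact Real.one_le_rpow this hε.le
  a_one := co_one g
  euler := by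
    have hb := cf_bound h.bdd
    refine ⟨Pool.Agent.H902R3.PZ.bH 1 (cf g), 0, by norm_num, ?_, ⟨1, fun n _ => ?_⟩, fun s hs => ⟨?_, ?_⟩⟩
    · intro n hn
      unfold Pool.Agent.H902R3.PZ.bH
      rw [if_neg hn]
    · rw [Real.rpow_zero, mul_one]
      exact Pool.Agent.H902R3.PZ.norm_bH_le hb n
    · exact Pool.Agent.H902R3.PZ.summable_bH hb hs
    · rw [Pool.Agent.H902R3.PZ.exp_bH hb hs, h.series s hs]
      rfl

open Pool.Agent.Y532.SC in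
theorem co_real {g : ℕ → ℝ} (n : ℕ) : (co g n).im = 0 := by
  unfold co Pool.Agent.H902R3.I469.ff
  exact Complex.ofReal_im _

/-- **The Riemann hypothesis fails in the Selberg class on whole vertical arithmetic progressions.** -/
theorem result :
    -- (1) prescribed periodic systems of zeros, with multiplicities, for all large degrees and all large conductors
    (∀ γ : ℝ, 0 < γ → ∀ N : ℕ, 1 ≤ N → ∃ (m₀ : ℕ) (C : ℝ), 0 < C ∧
      ∀ m : ℕ, m₀ ≤ m → ∀ lam : ℝ, 2 * m + 1 < lam → lam ≤ 2 * m + 2 →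
      ∀ ρ : Fin N → ℂ, (∀ j, γ ≤ (ρ j).re ∧ (ρ j).re ≤ 1 - γ) → ∀ δ : ℝ, C / lam ≤ δ →
      ∃ Q₀ : ℝ, 0 < Q₀ ∧ ∀ Q : ℝ, Q₀ ≤ Q → ∃ (a : ℕ → ℂ) (F : ℂ → ℂ), IsSelberg a F ∧
        FE F Q ![lam] ![((m + 1 - lam / 2 : ℝ) : ℂ)] (((-1 : ℝ) ^ (m + 1) : ℝ) : ℂ) ∧ Differentiable ℂ F ∧
        (∀ n : ℕ, (a n).im = 0 ∧ ‖a n‖ ≤ 1) ∧
        -- all the points `ρ j + i k δ` are zeros, of order at least the number of repetitions of `ρ j`
        (∀ (j : Fin N) (k : ℤ), ((Fintype.card {l : Fin N // ρ l = ρ j} : ℕ) : ℕ∞) ≤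
          analyticOrderAt F (ρ j + k * δ * I)) ∧
        -- and `m - 1` further real zeros
        ∀ k : ℕ, 1 ≤ k → k < m → F (1 / 2 + (m - 2 * k) / lam) = 0) ∧
    -- (2) every finite subset of the open strip, and every step
    (∀ (S : Finset ℂ) (M : ℕ) (δ : ℝ), (∀ ρ ∈ S, 0 < ρ.re ∧ ρ.re < 1) → 0 < δ →
      ∃ (a : ℕ → ℂ) (F : ℂ → ℂ), IsSelberg a F ∧ Differentiable ℂ F ∧ (∀ n : ℕ, (a n).im = 0 ∧ ‖a n‖ ≤ 1) ∧
        ∀ ρ ∈ S, ∀ k : ℤ, (M : ℕ∞) ≤ analyticOrderAt F (ρ + k * δ * I)) ∧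
    -- (3) more than `K T` zeros of order at least `K` on one line `Re s = β` with `β` close to `1`
    (∀ σ₀ : ℝ, σ₀ < 1 → ∀ K : ℕ, ∃ (a : ℕ → ℂ) (F : ℂ → ℂ), IsSelberg a F ∧ Differentiable ℂ F ∧
      ∃ β : ℝ, σ₀ < β ∧ β < 1 ∧ ∀ T : ℝ, 1 ≤ T → ∃ Z : Finset ℂ, (K : ℝ) * T ≤ Z.card ∧
        ∀ s ∈ Z, s.re = β ∧ |s.im| ≤ T ∧ (K : ℕ∞) ≤ analyticOrderAt F s) := by
  have A : ∀ γ : ℝ, 0 < γ → ∀ N : ℕ, 1 ≤ N → ∃ (m₀ : ℕ) (C : ℝ), 0 < C ∧
      ∀ m : ℕ, m₀ ≤ m → ∀ lam : ℝ, 2 * m + 1 < lam → lam ≤ 2 * m + 2 →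
      ∀ ρ : Fin N → ℂ, (∀ j, γ ≤ (ρ j).re ∧ (ρ j).re ≤ 1 - γ) → ∀ δ : ℝ, C / lam ≤ δ →
      ∃ Q₀ : ℝ, 0 < Q₀ ∧ ∀ Q : ℝ, Q₀ ≤ Q → ∃ (a : ℕ → ℂ) (F : ℂ → ℂ), IsSelberg a F ∧
        FE F Q ![lam] ![((m + 1 - lam / 2 : ℝ) : ℂ)] (((-1 : ℝ) ^ (m + 1) : ℝ) : ℂ) ∧ Differentiable ℂ F ∧
        (∀ n : ℕ, (a n).im = 0 ∧ ‖a n‖ ≤ 1) ∧
        (∀ (j : Fin N) (k : ℤ), ((Fintype.card {l : Fin N // ρ l = ρ j} : ℕ) : ℕ∞) ≤
          analyticOrderAt F (ρ j + k * δ * I)) ∧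
        ∀ k : ℕ, 1 ≤ k → k < m → F (1 / 2 + (m - 2 * k) / lam) = 0 := by
    intro γ hγ N hN
    obtain ⟨m₀, C, hm₀, hC, H⟩ := Pool.Agent.Q286.AP.single_ap γ hγ N hN
    refine ⟨m₀, C, hC, fun m hm lam h1 h2 ρ hρ δ hδ => ?_⟩
    obtain ⟨Q₀, hQ₀, K⟩ := H m hm lam h1 h2 ρ hρ δ hδ
    refine ⟨Q₀, by linarith, fun Q hQ => ?_⟩
    obtain ⟨g, F, hF, hz, hr⟩ := K Q hQ
    have hmR : (0 : ℝ) ≤ m := Nat.cast_nonneg m
    have hlam : 0 < lam := by linarith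
    have hnu : 0 ≤ m + 1 - lam / 2 := by linarith
    have hQ0 : 0 < Q := by linarith
    exact ⟨_, F, isSelberg_of_one hF hlam hnu hQ0, fe_of_one hF hlam hnu hQ0, hF.diff,
      fun n => ⟨co_real n, Pool.Agent.Y532.SC.co_bdd hF.bdd n⟩, hz, fun k hk1 hk2 => hr k hk1 (by omega)⟩
  have B : ∀ (S : Finset ℂ) (M : ℕ) (δ : ℝ), (∀ ρ ∈ S, 0 < ρ.re ∧ ρ.re < 1) → 0 < δ →
      ∃ (a : ℕ → ℂ) (F : ℂ → ℂ), IsSelberg a F ∧ Differentiable ℂ F ∧ (∀ n : ℕ, (a n).im = 0 ∧ ‖a n‖ ≤ 1) ∧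
        ∀ ρ ∈ S, ∀ k : ℤ, (M : ℕ∞) ≤ analyticOrderAt F (ρ + k * δ * I) := by
    intro S M δ hS hδ
    classical
    -- `γ`
    obtain ⟨γ, hγ, hγ2, hγS⟩ : ∃ γ : ℝ, 0 < γ ∧ γ < 1 / 2 ∧ ∀ ρ ∈ S, γ ≤ ρ.re ∧ ρ.re ≤ 1 - γ := by
      induction S using Finset.induction_on with
      | empty => exact ⟨1 / 4, by norm_num, by norm_num, by simp⟩
      | insert x S hx ih =>
        obtain ⟨γ, h1, h2, h3⟩ := ih fun ρ hρ => hS ρ (Finset.mem_insert_of_mem hρ)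
        obtain ⟨h4, h5⟩ := hS x (Finset.mem_insert_self x S)
        refine ⟨min γ (min x.re (1 - x.re)), lt_min h1 (lt_min h4 (by linarith)), (min_le_left _ _).trans_lt h2,
          fun ρ hρ => ?_⟩
        rw [Finset.mem_insert] at hρ
        rcases hρ with rfl | hρ
        · exact ⟨(min_le_right _ _).trans (min_le_left _ _), by
            have : min γ (min ρ.re (1 - ρ.re)) ≤ 1 - ρ.re := (min_le_right _ _).trans (min_le_right _ _)
            linarith⟩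
        · have h6 := min_le_left γ (min x.re (1 - x.re))
          obtain ⟨h7, h8⟩ := h3 ρ hρ
          exact ⟨h6.trans h7, by linarith⟩
    -- the list of points, each repeated `M + 1` times; one more point to have a nonempty list
    obtain ⟨e⟩ : Nonempty (Fin (Fintype.card (Option (S × Fin (M + 1)))) ≃ Option (S × Fin (M + 1))) :=
      ⟨(Fintype.equivFin _).symm⟩
    obtain ⟨r, hr⟩ : ∃ r : Option (S × Fin (M + 1)) → ℂ,
        r = fun o => Option.elim o (1 / 2 : ℂ) (fun p => (p.1 : ℂ)) := ⟨_, rfl⟩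
    have hrb : ∀ o, γ ≤ (r o).re ∧ (r o).re ≤ 1 - γ := by
      intro o
      rw [hr]
      cases o with
      | none =>
        have : ((1 / 2 : ℂ)).re = 1 / 2 := by norm_num
        simp only [Option.elim]
        rw [this]
        constructor <;> linarith
      | some p => exact hγS _ p.1.2
    have hN : 1 ≤ Fintype.card (Option (S × Fin (M + 1))) := Fintype.card_pos
    obtain ⟨m₀, C, hC, H⟩ := A γ hγ _ hN
    obtain ⟨m, hm⟩ : ∃ m : ℕ, m = max m₀ ⌈C / δ⌉₊ := ⟨_, rfl⟩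
    have hm1 : m₀ ≤ m := by rw [hm]; exact le_max_left _ _
    have hm2 : C / δ ≤ m := Nat.ceil_le.1 (by rw [hm]; exact le_max_right _ _)
    have hmR : (0 : ℝ) ≤ m := Nat.cast_nonneg m
    obtain ⟨Q₀, -, K⟩ := H m hm1 (2 * m + 2) (by linarith) le_rfl (r ∘ e) (fun j => hrb _) δ (by
      rw [div_le_iff₀ (by linarith)]
      rw [div_le_iff₀ hδ] at hm2
      nlinarith)
    obtain ⟨a, F, hF, -, hd, ha, hz, -⟩ := K Q₀ le_rfl
    refine ⟨a, F, hF, hd, ha, fun ρ hρ k => ?_⟩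
    have h1 := hz (e.symm (some (⟨ρ, hρ⟩, 0))) k
    have h2 : (r ∘ e) (e.symm (some (⟨ρ, hρ⟩, 0))) = ρ := by
      simp only [Function.comp, Equiv.apply_symm_apply, hr, Option.elim]
    rw [h2] at h1
    refine le_trans ?_ h1
    have h3 : M ≤ Fintype.card {l : Fin (Fintype.card (Option (S × Fin (M + 1)))) // (r ∘ e) l = ρ} := by
      have h4 : Function.Injective (fun i : Fin (M + 1) =>
          (⟨e.symm (some (⟨ρ, hρ⟩, i)), by
            simp only [Function.comp, Equiv.apply_symm_apply, hr, Option.elim]⟩ :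
            {l : Fin (Fintype.card (Option (S × Fin (M + 1)))) // (r ∘ e) l = ρ})) := by
        intro i j hij
        have h5 := congrArg Subtype.val hij
        simp only [EmbeddingLike.apply_eq_iff_eq, Option.some.injEq, Prod.mk.injEq, true_and] at h5
        exact h5
      have h6 := Fintype.card_le_of_injective _ h4
      rw [Fintype.card_fin] at h6
      omega
    exact_mod_cast h3
  refine ⟨A, B, ?_⟩
  intro σ₀ hσ₀ K
  obtain ⟨β, hβ⟩ : ∃ β : ℝ, β = (max σ₀ (1 / 2) + 1) / 2 := ⟨_, rfl⟩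
  have hmx : max σ₀ (1 / 2) < 1 := max_lt hσ₀ (by norm_num)
  have hβ1 : β < 1 := by rw [hβ]; linarith
  have hβ2 : max σ₀ (1 / 2) < β := by rw [hβ]; linarith
  have hβ3 : σ₀ < β := (le_max_left _ _).trans_lt hβ2
  have hβ4 : 1 / 2 < β := (le_max_right _ _).trans_lt hβ2
  have hK : (0:ℝ) < (K : ℝ) + 1 := by positivity
  obtain ⟨a, F, hF, hd, -, hz⟩ := B {(β : ℂ)} K (1 / (K + 1)) (by
    intro ρ hρ
    rw [Finset.mem_singleton] at hρ
    rw [hρ, ofReal_re]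
    exact ⟨by linarith, hβ1⟩) (by positivity)
  refine ⟨a, F, hF, hd, β, hβ3, hβ1, fun T hT => ?_⟩
  -- the zeros with `0 ≤ k ≤ (K + 1) T`
  refine ⟨(Finset.range (⌊(K + 1) * T⌋₊ + 1)).image (fun k : ℕ => (β : ℂ) + (k : ℤ) * ((1 / (K + 1) : ℝ) : ℂ) * I), ?_, ?_⟩
  · rw [Finset.card_image_of_injective]
    · rw [Finset.card_range]
      push_cast
      have h1 := Nat.lt_floor_add_one ((K + 1) * T)
      have h2 : (K : ℝ) * T ≤ (K + 1) * T := by nlinarith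
      linarith
    · intro k l hkl
      have h1 := congrArg Complex.im hkl
      have e : ∀ k : ℕ, ((β : ℂ) + (k : ℤ) * ((1 / (K + 1) : ℝ) : ℂ) * I).im = k * (1 / (K + 1)) := by
        intro k
        have : ((k : ℤ) : ℂ) * ((1 / (K + 1) : ℝ) : ℂ) * I = (((k : ℝ) * (1 / (K + 1)) : ℝ) : ℂ) * I := by push_cast; ring
        rw [this, Complex.add_im, Complex.ofReal_im, Complex.im_ofReal_mul, Complex.I_im, mul_one, zero_add]
      simp only [e] at h1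
      have h2 : (1 : ℝ) / (K + 1) ≠ 0 := by positivity
      exact_mod_cast mul_right_cancel₀ h2 h1
  · intro s hs
    rw [Finset.mem_image] at hs
    obtain ⟨k, hk, rfl⟩ := hs
    rw [Finset.mem_range] at hk
    have e : ((k : ℤ) : ℂ) * ((1 / (K + 1) : ℝ) : ℂ) * I = (((k : ℝ) * (1 / (K + 1)) : ℝ) : ℂ) * I := by push_cast; ring
    refine ⟨?_, ?_, ?_⟩
    · rw [e]; simp
    · rw [e]
      have h1 : ((β : ℂ) + (((k : ℝ) * (1 / (K + 1)) : ℝ) : ℂ) * I).im = (k : ℝ) * (1 / (K + 1)) := by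
        rw [Complex.add_im, Complex.ofReal_im, Complex.im_ofReal_mul, Complex.I_im, mul_one, zero_add]
      rw [h1, abs_of_nonneg (by positivity), mul_one_div, div_le_iff₀ hK]
      have h2 : k ≤ ⌊(K + 1) * T⌋₊ := by omega
      have h3 : (k : ℝ) ≤ (K + 1) * T := (Nat.cast_le.2 h2).trans (Nat.floor_le (by positivity))
      linarith
    · exact hz (β : ℂ) (Finset.mem_singleton_self _) k

end Pool.Agent.Results.MP_6bc78b_nt.PeriodicZeros
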