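import Mathlib
import Pool.Agent.Q177.ParaL

/-!
# MP_6bd103_gt: perfect images of paralindelöf spaces are paralindelöf
-/

set_option autoImplicit false

universe u v

namespace Pool.Agent.Results.MP_6bd103_gt.PerfectImages

open Set Topology

/-- A family of subsets is locally countable if every point has a neighbourhood that meets only
countably many members. -/
def LocallyCountable {X : Type u} [TopologicalSpace X] (𝒱 : Set (Set X)) : Prop :=
  ∀ x : X, ∃ N ∈ 𝓝 x, {V ∈ 𝒱 | (V ∩ N).Nonempty}.Countable

/-- A space is paralindelöf if every open cover has a locally countable open refinement (which is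
again a cover). -/
def Paralindelof (X : Type u) [TopologicalSpace X] : Prop :=
  ∀ 𝒰 : Set (Set X), (∀ U ∈ 𝒰, IsOpen U) → ⋃₀ 𝒰 = univ →
    ∃ 𝒱 : Set (Set X), (∀ V ∈ 𝒱, IsOpen V) ∧ ⋃₀ 𝒱 = univ ∧ (∀ V ∈ 𝒱, ∃ U ∈ 𝒰, V ⊆ U) ∧
      LocallyCountable 𝒱

/-- Let `X` be paralindelöf and `f : X → Y` a continuous closed surjection.
(1) If the fibres of `f` are compact, i.e. if `f` is perfect, then `Y` is paralindelöf.
(2) The same holds if the fibres of `f` are Lindelöf.
(3) If `X` is `T1` the same holds if only the boundaries of the fibres are Lindelöf. -/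
theorem result (X : Type u) (Y : Type v) [TopologicalSpace X] [TopologicalSpace Y] (f : X → Y)
    (hX : Paralindelof X) (hf : Continuous f) (hsurj : Function.Surjective f)
    (hclosed : IsClosedMap f) :
    ((∀ y, IsCompact (f ⁻¹' {y})) → Paralindelof Y) ∧
    ((∀ y, IsLindelof (f ⁻¹' {y})) → Paralindelof Y) ∧
    (T1Space X → (∀ y, IsLindelof (frontier (f ⁻¹' {y}))) → Paralindelof Y) :=
  ⟨fun h => Q177.ParaL.image_lindelof hf hsurj hclosed (fun y => (h y).isLindelof) hX,
    fun h => Q177.ParaL.image_lindelof hf hsurj hclosed h hX,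
    fun _ h => Q177.ParaL.image_frontier hf hsurj hclosed h hX⟩

end Pool.Agent.Results.MP_6bd103_gt.PerfectImages
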