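import Pool.Agent.Q186.AMh

/-!
Active modes at a blow-up of the three-dimensional periodic Navier-Stokes equations.

The mode `k` is active at the time `t` if the Fourier coefficient of the velocity at `k` is larger
than `ν / (2000 ‖k‖²)`, the size which is invariant under the scaling of the equations. The triads
`l + m + n = 0` with an inactive member are absorbed by the viscosity. Only the triads of three
active modes can produce a blow-up, and the estimates below depend only on the set `L(t)` of the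
smallest members of these triads, not on the size of the Fourier coefficients.

By the energy inequality the number of active modes in the shells `R ≤ ‖k‖ < 2 R` is at most of the
order `R²` in the mean over the time. At a blow-up it is not of the order `R²` uniformly in time.
-/

open MeasureTheory Set H459R3.NS Q186.AM
open scoped ENNReal

set_option autoImplicit false

namespace Pool.Agent.Results.MP_6bf1e5_an.ActiveTriads

/-- Let `(u, p)` be a smooth `1`-periodic solution of the Navier-Stokes equations on `[0, T) × ℝ³`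
with viscosity `ν`, without force. Let `L(t) = {l | Least (ν / 2000) (u t) l}` be the set of the
smallest members of the triads of active modes.

(1) `∫₀ᵀ ∑ ‖k‖⁻² dt ≤ 51000 E / ν³`, the sum over all modes active at the time `t`, and
`E = ∫ |u(0)|²`.

Suppose that `u` is unbounded on `[0, T)`, and let `0 ≤ t₀ < T`.

(2) For `-2 ≤ s < 2` the function `(∑ ‖l‖^(-s))^(2 / (2 - s))`, the sum over `l ∈ L(t)`, is not
integrable on `(t₀, T)`. For `s = 0`: the number of elements of `L(t)` is not integrable.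

(3) `∑ ‖l‖⁻²`, the sum over `l ∈ L(t)`, is unbounded on `(t₀, T)`.

(4) For every `B` there are `t ∈ (t₀, T)` and `R ≥ 1` such that more than `B R²` elements `l` of
`L(t)` satisfy `‖l‖ ≤ R`.

(5) `(119 E)^(1 - s/2) (∫ |∇u(t₀)|²)^(s/2) ∫ ∑ ‖l‖^(-s) dt ≥ 8 ν / s` for `0 < s ≤ 2`, the integral
over `(t₀, T)` and the sum over `l ∈ L(t)`. For `s = 2`: `∫ |∇u(t₀)|² ∫ ∑ ‖l‖⁻² dt ≥ 4 ν`. -/
theorem result (ν T : ℝ) (u : ℝ → V → V) (p : ℝ → V → ℝ) (hν : 0 < ν) (h : IsSol ν T u p) :
    ∫⁻ t in Ioo 0 T, wsum 2 {k | Active (1 / 2000 * ν) (u t) k}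
      ≤ ENNReal.ofReal (51000 * energy (u 0) / ν ^ 3) ∧
    ((¬ ∃ C, ∀ t ∈ Ico 0 T, ∀ x i, |u t x i| ≤ C) → ∀ t₀ ∈ Ico 0 T,
      (∀ s : ℝ, -2 ≤ s → s < 2 →
        ∫⁻ t in Ioo t₀ T, wsum s {l | Least (1 / 2000 * ν) (u t) l} ^ (2 / (2 - s)) = ⊤) ∧
      (∀ B : ℝ, ∃ t ∈ Ioo t₀ T,
        ENNReal.ofReal B < wsum 2 {l | Least (1 / 2000 * ν) (u t) l}) ∧
      (∀ B : ℝ, ∃ t ∈ Ioo t₀ T, ∃ R : ℕ, 1 ≤ R ∧ B * (R : ℝ) ^ 2
        < (({l | Least (1 / 2000 * ν) (u t) l ∧ ‖l‖ ≤ R}).ncard : ℝ)) ∧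
      ∀ s : ℝ, 0 < s → s ≤ 2 → ENNReal.ofReal (8 * ν / s)
        ≤ ENNReal.ofReal ((119 * energy (u 0)) ^ (1 - s / 2) * enstrophy (u t₀) ^ (s / 2))
          * ∫⁻ t in Ioo t₀ T, wsum s {l | Least (1 / 2000 * ν) (u t) l}) :=
  ⟨energy_active h hν, fun hbl _ ht₀ => ⟨fun _ hs1 hs2 => blow_lintegral h hν hbl ht₀ hs1 hs2,
    blow_sum h hν hbl ht₀, blow_count h hν hbl ht₀, fun _ hs1 hs2 => lower h hν hbl ht₀ hs1 hs2⟩⟩

end Pool.Agent.Results.MP_6bf1e5_an.ActiveTriads
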