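import Pool.Agent.Q63.Win2.Main

/-!
At a blow-up of the three-dimensional periodic Navier-Stokes equations every window of frequencies
`K^θ < |k| ≤ K`, `θ < 4/5`, `K` large, is supercritical, even if at each time any two-dimensional
set of frequencies is removed from it: all critical norms `L^q (t₀, T; Ḣ^s)`, `2 / q = s - 1 / 2`,
of the remaining part of the velocity are large, of the order of `log K` for `q < ∞`.

Equivalently: if for some `θ < 4/5` and for arbitrarily large `K` a critical norm of the part of the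
velocity in the window `K^θ < |k| ≤ K`, off a two-dimensional set of frequencies which may depend on
the time in an arbitrary way, does not exceed a fixed multiple of `log K`, then the solution is
bounded. Nothing is required of the frequencies outside of these windows.
-/

open MeasureTheory Set Filter Topology H459R3.NS Pool.Agent.Q63.Win Pool.Agent.Q63.Win2
open scoped ENNReal

set_option autoImplicit false

/-- Let `0 < θ < 4/5`. `windowOff s θ K Q v` is the sum of `|k|^(2 s) |v̂(k)|²` over all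
`k ∈ ℤ³ \ Q` with `K^θ < |k| ≤ K`. `Thin A θ K Q` says that for each `R ≤ K` the set `Q` has at
most `A R²` elements `k` with `K^θ < |k| ≤ R`.

(1) Let `1/2 < s < 5/2`. There is a constant `a > 0`, which depends only on `θ` and `s`, such that
for every smooth `1`-periodic solution `(u, p)` of the Navier-Stokes equations on `[0, T)` with
viscosity `ν > 0` for which `u` is unbounded, for all `t₀ ∈ [0, T)`, all functions
`A(K) = o(log K)` (for instance constants), all sufficiently large `K` and all families `Q(t)`,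
`t ∈ (t₀, T)`, of sets of frequencies with `Thin A(K) θ K Q(t)` the integral of
`(windowOff s θ K Q(t) (u t))^(2 / (2 s - 1))` over `(t₀, T)` is at least
`a ν^((5 - 2 s) / (2 s - 1)) log K`.

(2) The endpoint `s = 1/2`: there is `c > 0`, which depends only on `θ`, such that under the same
assumptions for all sufficiently large `K` and all families `Q(t)` as above there is `t ∈ (t₀, T)`
with `windowOff (1/2) θ K Q(t) (u t) > c ν²`. -/
theorem Pool.Agent.Results.MP_6bf1e5_an.FrequencyWindows.result (θ : ℝ) (hθ0 : 0 < θ)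
    (hθ : θ < 4 / 5) :
    (∀ s : ℝ, 1 / 2 < s → s < 5 / 2 → ∃ a > 0, ∀ (ν T : ℝ) (u : ℝ → V → V) (p : ℝ → V → ℝ),
      0 < ν → IsSol ν T u p → (¬ ∃ C, ∀ t ∈ Ico 0 T, ∀ x i, |u t x i| ≤ C) → ∀ t₀ ∈ Ico 0 T,
      ∀ A : ℝ → ℝ, Tendsto (fun K => A K / Real.log K) atTop (𝓝 0) →
      ∀ᶠ K : ℝ in atTop, ∀ Q : ℝ → Set K3, (∀ t ∈ Ioo t₀ T, Thin (A K) θ K (Q t)) →
      ENNReal.ofReal (a * ν ^ ((5 - 2 * s) / (2 * s - 1)) * Real.log K)
        ≤ ∫⁻ t in Ioo t₀ T, ENNReal.ofReal (windowOff s θ K (Q t) (u t) ^ (2 / (2 * s - 1)))) ∧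
    ∃ c > 0, ∀ (ν T : ℝ) (u : ℝ → V → V) (p : ℝ → V → ℝ),
      0 < ν → IsSol ν T u p → (¬ ∃ C, ∀ t ∈ Ico 0 T, ∀ x i, |u t x i| ≤ C) → ∀ t₀ ∈ Ico 0 T,
      ∀ A : ℝ → ℝ, Tendsto (fun K => A K / Real.log K) atTop (𝓝 0) →
      ∀ᶠ K : ℝ in atTop, ∀ Q : ℝ → Set K3, (∀ t ∈ Ioo t₀ T, Thin (A K) θ K (Q t)) →
      ∃ t ∈ Ioo t₀ T, c * ν ^ 2 < windowOff (1 / 2) θ K (Q t) (u t) :=
  ⟨fun _ hs1 hs2 => blowup_off hθ0 hθ hs1 hs2, blowup_off_half hθ0 hθ⟩
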