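import Pool.Agent.Q186.HT.J

/-!
Triads of modes of both helicities at a blow-up of the three-dimensional periodic Navier-Stokes
equations.

Each Fourier coefficient of the velocity is the sum of two helical parts, the components in the
eigenspaces of the curl with the eigenvalues `± 2 π |k|`. The helical mode `(k, σ)` is active if
this part is larger than `ν / (30000 ‖k‖²)`, the size which is invariant under the scaling of the
equations. The estimates below show that a blow-up is produced only by triads `l + m + n = 0` with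
three active modes, which do not have the same helicity, and which have comparable frequencies in
the sense that `‖n‖^θ < ‖l‖` for the smallest member `l` and the largest one `n`, `θ < 4/5`; and
that every set of frequencies which has a member in common with each of these triads is large.
Such sets are the set of the smallest members of the triads, the set of all the members of a maximal
family of pairwise disjoint triads, the set of the active modes with the helicity `+`, and the set of
the active modes with the helicity `-`. The estimates depend only on the set of frequencies, not on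
the size of the Fourier coefficients.
-/

open MeasureTheory Set H459R3.NS Q186.AM Q186.HT
open scoped ENNReal

set_option autoImplicit false

namespace Pool.Agent.Results.MP_6bf1e5_an.HelicalTriads

/-- Let `(u, p)` be a smooth `1`-periodic solution of the Navier-Stokes equations on `[0, T) × ℝ³`
with viscosity `ν`, without force.

(1) `∫₀ᵀ ∑ ‖k‖⁻² dt ≤ 46000000 E / ν³`, the sum over all the frequencies `k` with an active helical
mode at the time `t`, and `E = ∫ |u(0)|²`.

(2) The set of the active modes of one helicity meets all the triads.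

Suppose that `u` is unbounded on `[0, T)`. Let `0 ≤ t₀ < T` and `θ < 4/5`, and let `S(t)`,
`t₀ < t < T`, be sets of frequencies which meet all the triads of active helical modes of `u(t)`.

(3) For `-2 ≤ s < 2` the function `(∑ ‖k‖^(-s))^(2 / (2 - s))`, the sum over `k ∈ S(t)`, has an
infinite integral over `(t₀, T)`. For `s = 0`: the number of elements of `S(t)` is not integrable.

(4) `∑ ‖k‖⁻²`, the sum over `k ∈ S(t)`, is unbounded on `(t₀, T)`.

(5) For every `B` there are `t ∈ (t₀, T)` and `R ≥ 1` such that more than `B R²` elements `k` of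
`S(t)` satisfy `‖k‖ ≤ R`. -/
theorem result (ν T : ℝ) (u : ℝ → V → V) (p : ℝ → V → ℝ) (hν : 0 < ν) (h : IsSol ν T u p) :
    ∫⁻ t in Ioo 0 T, wsum 2 {k | ∃ σ, HelActive σ (1 / 30000 * ν) (u t) k}
      ≤ ENNReal.ofReal (46000000 * energy (u 0) / ν ^ 3) ∧
    (∀ (θ t : ℝ) (σ : ℤˣ), Meets θ (1 / 30000 * ν) (u t)
      {k | HelActive σ (1 / 30000 * ν) (u t) k}) ∧
    ((¬ ∃ C, ∀ t ∈ Ico 0 T, ∀ x i, |u t x i| ≤ C) → ∀ t₀ ∈ Ico 0 T, ∀ θ : ℝ, θ < 4 / 5 →
      ∀ S : ℝ → Set K3, (∀ t ∈ Ioo t₀ T, Meets θ (1 / 30000 * ν) (u t) (S t)) →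
      (∀ s : ℝ, -2 ≤ s → s < 2 → ∫⁻ t in Ioo t₀ T, wsum s (S t) ^ (2 / (2 - s)) = ⊤) ∧
      (∀ B : ℝ, ∃ t ∈ Ioo t₀ T, ENNReal.ofReal B < wsum 2 (S t)) ∧
      ∀ B : ℝ, ∃ t ∈ Ioo t₀ T, ∃ R : ℕ, 1 ≤ R ∧
        B * (R : ℝ) ^ 2 < (({k | k ∈ S t ∧ ‖k‖ ≤ R}).ncard : ℝ)) :=
  ⟨energy_hel h hν, fun θ t σ => meets_hel θ (by positivity) (u t) σ,
    fun hbl _ ht₀ _ hθ _ hS => ⟨fun _ hs1 hs2 => Q186.HT.blow_int h hν hbl ht₀ hθ hS hs1 hs2,
      Q186.HT.blow_sum h hν hbl ht₀ hθ hS, Q186.HT.blow_count h hν hbl ht₀ hθ hS⟩⟩

end Pool.Agent.Results.MP_6bf1e5_an.HelicalTriads
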