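import Pool.Agent.Q63.Hel2.Main

/-!
A regularity criterion for the three-dimensional periodic Navier-Stokes equations in terms of the
helical decomposition `u = u⁺ + u⁻` (`curl u^± = ± |∇| u^±`), scale by scale: a blow-up needs both
helical parts, at the same time and in the same range `R^θ < |k| ≤ R` of frequencies, to be large
in all critical norms, even after the removal of a two-dimensional set of frequencies. At each time
and for each `R` only one of the two parts is assumed to be controlled, and only off a set of at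
most `A R²` frequencies; the sign and the set may depend on the time and on the scale in an
arbitrary way.
-/

open MeasureTheory Set H459R3.NS Pool.Agent.Q63.Win Pool.Agent.Q63.Hel Pool.Agent.Q63.Hel2
open scoped ENNReal

set_option autoImplicit false

/-- Let `0 < θ < 4/5`, `A, ν > 0`, let `(u, p)` be a smooth `1`-periodic solution of the
Navier-Stokes equations on `[0, T)`, let `t₀ ∈ [0, T)` and `j₀ ∈ ℕ`. `helWindowOff σ s θ R F v` is
the sum of `|k|^(2 s) |v̂^σ(k)|²` over the `k ∉ F` with `R^θ < |k| ≤ R`, where `v^σ` is the helical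
part of `v` with the sign `σ = ± 1`.

(1) Let `1/2 < s < 5/2` and `2 / q = s - 1 / 2`. If for each `t ∈ (t₀, T)` and each `R = 2 ^ j`,
`j ≥ j₀`, there are a sign `σ` and a set `F` of at most `A R²` frequencies with
`helWindowOff σ s θ R F (u t) ≤ β(t)²`, and if `∫ β^q < ∞` over `(t₀, T)`, then `u` is bounded
on `[0, T) × ℝ³`.

(2) The endpoint `s = 1/2`: there is an absolute constant `c > 0` such that `u` is bounded if for
each `t ∈ (t₀, T)` and each `R = 2 ^ j`, `j ≥ j₀`, there are a sign `σ` and a set `F` of at most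
`A R²` frequencies with `helWindowOff σ (1/2) θ R F (u t) ≤ (c ν)²`. -/
theorem Pool.Agent.Results.MP_6bf1e5_an.HelicalWindows.result :
    (∀ (θ s A ν T t₀ : ℝ) (j₀ : ℕ) (u : ℝ → V → V) (p : ℝ → V → ℝ) (β : ℝ → ℝ),
      0 < θ → θ < 4 / 5 → 1 / 2 < s → s < 5 / 2 → 0 < ν → IsSol ν T u p → t₀ ∈ Ico 0 T →
      (∀ t ∈ Ioo t₀ T, 0 ≤ β t ∧ ∀ j : ℕ, j₀ ≤ j → ∃ (σ : ℝ) (F : Finset K3),
        (σ = 1 ∨ σ = -1) ∧ (F.card : ℝ) ≤ A * (2 ^ j) ^ 2 ∧
        helWindowOff σ s θ (2 ^ j) F (u t) ≤ β t ^ 2) →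
      IntegrableOn (fun t => β t ^ (4 / (2 * s - 1))) (Ioo t₀ T) →
      ∃ C, ∀ t ∈ Ico 0 T, ∀ x i, |u t x i| ≤ C) ∧
    ∃ c > 0, ∀ (θ A ν T t₀ : ℝ) (j₀ : ℕ) (u : ℝ → V → V) (p : ℝ → V → ℝ),
      0 < θ → θ < 4 / 5 → 0 < ν → IsSol ν T u p → t₀ ∈ Ico 0 T →
      (∀ t ∈ Ioo t₀ T, ∀ j : ℕ, j₀ ≤ j → ∃ (σ : ℝ) (F : Finset K3),
        (σ = 1 ∨ σ = -1) ∧ (F.card : ℝ) ≤ A * (2 ^ j) ^ 2 ∧
        helWindowOff σ (1 / 2) θ (2 ^ j) F (u t) ≤ (c * ν) ^ 2) →
      ∃ C, ∀ t ∈ Ico 0 T, ∀ x i, |u t x i| ≤ C :=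
  ⟨fun _ _ _ _ _ _ _ _ _ _ h1 h2 h3 h4 h5 h h0 h6 h7 => crit_q' h h5 h1 h2 h3 h4 h0 h6 h7,
    ⟨1 / (156 * Ch (1 / 2)), by have := Ch_pos (1 / 2); positivity,
      fun _ _ _ _ _ _ _ _ h1 h2 h5 h h0 h6 => crit_inf' h h5 h1 h2 h0 h6⟩⟩
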