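import Pool.Agent.Q62.NSL.Final

/-!
Leray's lower bound at a blow-up of the three-dimensional Navier-Stokes equations is local and counts
the singular points.

Leray: if a smooth solution blows up at the time `T`, then `∫ |∇u(t)|² ≥ c ν^(3/2) / √(T - t)` for all
`t < T`. Here: every neighbourhood of every singular point `x` at the time `T` (no matter how the other
singular points accumulate at `x`) carries at least this amount of enstrophy at all times `t` close to
`T`, with an absolute constant `c`; so `N` singular points in an open set `U` force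
`∫_U |curl u(t)|² ≥ c N ν^(3/2) / √(T - t)` for all `t` close to `T`. Only a smooth solution in an open
set of finite energy and dissipation is required: no boundary conditions, no bound for the pressure, and
a force is allowed. In particular a periodic solution has at most
`C ν^(-3/2) liminf_{t → T} √(T - t) ∫ |∇u(t)|²` singular points in the period cell.

Proof. The partial regularity at the time `T` gives shells around `x` without singular points.
There the velocity is bounded, hence the vorticity stays bounded in `L²` there, and the energy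
inequality for the vorticity, cut off in the shell, closes with Leray's differential inequality
`Y' ≤ κ (Y + M)³`, where `κ` is an absolute constant; if `Y` stays bounded then `x` is a regular point.
-/

open MeasureTheory Set Metric Filter Topology H459R3.NS W221.NS Pool.Agent.Q62.NSL

set_option autoImplicit false

/-- There is an absolute constant `c > 0` with the following properties.

(1) Let `(u, p)` be a smooth solution of the Navier-Stokes equations with viscosity `ν` and force `f`
on `(0, T) × Ω`, `Ω ⊆ ℝ³` open, with `∫_Ω |u(t)|² ≤ E²` for all `t`, with finite dissipation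
`∫∫ |∇u|²` over `(0, T) × Ω`, and with `f` and its spatial derivatives of order at most three bounded.
Let `U ⊆ Ω` be open and let `S ⊆ U` be a finite set of singular points at the time `T` (points `x`
such that `u` is unbounded in `(T - δ, T) × B_δ(x)` for all `δ > 0`). Then
`∫_U |curl u(t)|² ≥ c ν^(3/2) |S| / √(T - t)` for all `t < T` sufficiently close to `T`.

(2) Let `(u, p)` be a smooth `1`-periodic solution on `[0, T)` and let `S` be a finite set of
singular points at the time `T` in the cube `[0, 1]³`. Then `∫ |∇u(t)|² ≥ c ν^(3/2) |S| / √(T - t)`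
(integral over the cube) for all `t < T` sufficiently close to `T`. -/
theorem Pool.Agent.Results.MP_6bf1e5_an.LerayCount.result : ∃ c : ℝ, 0 < c ∧
    (∀ (ν T E F : ℝ) (Ω : Set V) (u : ℝ → V → V) (p : ℝ → V → ℝ) (f : ℝ → V → V),
      0 < ν → 0 < T → OSolF ν T E F Ω u p f →
      ∫⁻ t in Ioo 0 T, ∫⁻ y in Ω, ENNReal.ofReal (gsq (u t) y) ≠ ⊤ →
      ∀ U : Set V, IsOpen U → U ⊆ Ω → ∀ S : Finset V, (∀ x ∈ S, x ∈ U ∧ Sing T u x) →
        ∀ᶠ t in 𝓝[<] T, ENNReal.ofReal (c * ν ^ (3 / 2 : ℝ) * S.card / √(T - t)) ≤
          ∫⁻ x in U, ENNReal.ofReal (vsq (u t) x)) ∧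
    (∀ (ν T F : ℝ) (u : ℝ → V → V) (p : ℝ → V → ℝ) (f : ℝ → V → V),
      0 < ν → 0 < T → IsSolF ν T F u p f → ∀ S : Finset V, (∀ x ∈ S, x ∈ cube ∧ Sing T u x) →
        ∀ᶠ t in 𝓝[<] T, c * ν ^ (3 / 2 : ℝ) * S.card / √(T - t) ≤ enstrophy (u t)) := by
  obtain ⟨c₁, h₁, H₁⟩ := local_rate
  obtain ⟨c₂, h₂, H₂⟩ := peri_rate
  refine ⟨min c₁ c₂, lt_min h₁ h₂, ?_, ?_⟩
  · intro ν T E F Ω u p f hν hT hS hfin U hU hUΩ S hSing
    filter_upwards [H₁ ν T E F Ω u p f hν hT hS hfin U hU hUΩ S hSing] with t ht
    refine (ENNReal.ofReal_le_ofReal ?_).trans ht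
    gcongr
    exact min_le_left _ _
  · intro ν T F u p f hν hT hS S hSing
    filter_upwards [H₂ ν T F u p f hν hT hS S hSing] with t ht
    refine le_trans ?_ ht
    gcongr
    exact min_le_right _ _
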