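import Pool.Agent.Q85.VL.All
import Pool.Agent.Q95.CL.Far
import Pool.Agent.Q285.CL.WSc

/-!
The directions of the vorticity at the singular points of the three-dimensional Navier-Stokes
equations.

`V` is `ℝ³` with the maximum norm, `vort v` is the curl of `v`, `om v` its Euclidean length. A point
`a` is singular at the time `T` (`Sing T u a`) if `u` is unbounded in every neighbourhood of
`(T, a)`.

Let `a` be a singular point of a smooth solution in `(0, T) × Ω`, where `Ω` is any open set, with
finite energy and dissipation and integrable pressure (no periodicity, no boundary conditions; the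
class `DSl`). Then, at times arbitrarily close to `T` and in balls with centre `a` and arbitrarily
small radius, the directions of the large vorticities are not contained in an open half-space; in
particular there are two points near `a` with large vorticities which make an angle larger than
`arccos (-1/3) - ε`, the angle between two vertices of the regular tetrahedron (109.4 degrees). The
half-space may depend on the time in any way; no bound on the rate of the blow-up and no continuity
or coherence of the direction of the vorticity is assumed, and nothing is assumed outside of a small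
ball.

Here `large` means `|ω(t, y)| > m(t, y)` where the threshold `m` (`Thr`) is any function in the Kato
class, uniformly in the time: besides the constants the functions `M / (ρ (1 + |log ρ|))²` of nearly
critical size, `ρ = ‖y - a‖ + √(T - t)` being the parabolic distance from `(T, a)`.

Smooth periodic solutions and smooth solutions in the whole space (the class `WSl`) which become
unbounded at the time `T` have a singular point, and the theorem holds at each of their singular
points.
-/

open MeasureTheory Set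
open H459R3.NS Pool.Agent.W268.NS Pool.Agent.Q67.VD
open Pool.Agent.Q85.CL (Sing Blow DSl WSl)
open Pool.Agent.Q85.VL (Thr)

set_option autoImplicit false

namespace Pool.Agent.Results.MP_6bf1e5_an.VorticityHalfSpace

/-- The directions of the large vorticities near `a` and `T` are not contained in a half-space. For
all `T₀ ∈ [0, T)`, `R > 0` and all thresholds `m`:

(1) For every `κ > 0` there is a time `t ∈ (T₀, T)` such that for every unit vector `e` there is a
point `y` with `‖y - a‖ ≤ R`, `|ω(t, y)| > m(t, y)` and `e · ω(t, y) < κ |ω(t, y)|`.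

(2) For every `ε > 0` there are a time `t ∈ (T₀, T)` and points `x, y` with `‖x - a‖, ‖y - a‖ ≤ R`,
`|ω(t, x)| > m(t, x)`, `|ω(t, y)| > m(t, y)` and
`ω(t, x) · ω(t, y) < (ε - 1/3) |ω(t, x)| |ω(t, y)|`. -/
def Wide (T : ℝ) (u : ℝ → V → V) (a : V) : Prop :=
  ∀ (T₀ R : ℝ) (m : ℝ → V → ℝ), 0 ≤ T₀ → T₀ < T → 0 < R → Thr T₀ T a R m →
    (∀ κ : ℝ, 0 < κ → ∃ t ∈ Ioo T₀ T, ∀ e : V, e ⬝ᵥ e = 1 →
      ∃ y, ‖y - a‖ ≤ R ∧ m t y < om (u t) y ∧ e ⬝ᵥ vort (u t) y < κ * om (u t) y) ∧
    ∀ ε : ℝ, 0 < ε → ∃ t ∈ Ioo T₀ T, ∃ x y : V, ‖x - a‖ ≤ R ∧ ‖y - a‖ ≤ R ∧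
      m t x < om (u t) x ∧ m t y < om (u t) y ∧
      vort (u t) x ⬝ᵥ vort (u t) y < (ε - 1 / 3) * (om (u t) x * om (u t) y)

/-- Let `ν > 0`.

(a) `Wide` holds at every singular point `a ∈ Ω` of a smooth solution `(u, p)` of the Navier-Stokes
equations in `(0, T) × Ω`, `Ω` open, without force and with viscosity `ν`, finite energy, finite
dissipation and integrable pressure.

(b) A smooth `1`-periodic solution on `[0, T) × ℝ³` which is unbounded has a singular point at the
time `T`, and `Wide` holds at each of its singular points.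

(c) A smooth solution on `(0, T) × ℝ³` with bounded energy, finite dissipation and locally
integrable pressure, which is unbounded near the time `T`, has a singular point at the time `T`,
and `Wide` holds at each of its singular points.

(d) The function `M / (ρ (1 + |log ρ|))²`, `ρ = ‖y - a‖ + √(T - t)`, is a threshold for `M ≥ 0`. -/
theorem result (ν T : ℝ) (u : ℝ → V → V) (p : ℝ → V → ℝ) (hν : 0 < ν) :
    (∀ (E : ℝ) (Ω : Set V), DSl ν T E Ω u p → ∀ a ∈ Ω, Sing T u a → Wide T u a) ∧
    (IsSol ν T u p → ((¬ ∃ B, ∀ t ∈ Ico 0 T, ∀ x, ‖u t x‖ ≤ B) → ∃ a, Sing T u a) ∧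
      ∀ a, Sing T u a → Wide T u a) ∧
    (∀ E : ℝ, WSl ν T E u p → (Blow T u → ∃ a, Sing T u a) ∧ ∀ a, Sing T u a → Wide T u a) ∧
    ∀ (T₀ : ℝ) (a : V) (R M : ℝ), 0 ≤ M → Thr T₀ T a R (fun t y =>
      M / ((‖y - a‖ + √(T - t)) * (1 + |Real.log (‖y - a‖ + √(T - t))|)) ^ 2) := by
  have key : ∀ (q : ℝ → V → ℝ) (E : ℝ) (Ω : Set V), DSl ν T E Ω u q → ∀ a ∈ Ω, Sing T u a →
      Wide T u a := by
    intro q E Ω h a ha hs T₀ R m hT0 hT₀ hR hm
    refine ⟨fun κ hκ => Q85.VL.sing_halfK Q85.VL.stmLyap hν h ha hs hT0 hT₀ hκ hR hm,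
      fun ε hε => ?_⟩
    obtain ⟨t, ht, hte⟩ := Q85.VL.sing_halfK Q85.VL.stmLyap hν h ha hs hT0 hT₀
      (κ := min ε 1 / 2) (by positivity) hR hm
    obtain ⟨x, y, hx, hy, hmx, hmy, hxy⟩ := Q85.VL.tetra_pair (v := u t) (m := m t)
      (by positivity) (by linarith [min_le_right ε 1]) (hm.nonneg t ht) hte
    refine ⟨t, ht, x, y, hx, hy, hmx, hmy, hxy.trans_le ?_⟩
    have h1 := (hm.nonneg t ht x).trans hmx.le
    have h2 := (hm.nonneg t ht y).trans hmy.le
    have h3 := min_le_left ε 1
    exact mul_le_mul_of_nonneg_right (by linarith) (mul_nonneg h1 h2)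
  have hb : ∀ a : V, a ∈ Metric.ball a (1 / 2) := fun a => Metric.mem_ball_self (by norm_num)
  refine ⟨key p, fun h => ⟨fun hu => Q85.CL.sing_unb h hu, fun a ha => ?_⟩, fun E h =>
    ⟨fun hB => Q85.CL.sing_whole Q95.CL.far Q285.CL.wsc hν h hB, fun a ha => ?_⟩,
    fun T₀ a R M hM => Q224.VL.stmEx T₀ T a R M hM⟩
  · obtain ⟨q, hD⟩ := Q85.CL.perD hν ha.pos h a
    exact key q _ _ hD a (hb a) ha
  · exact key p E _ (Q85.CL.whole_D h a) a (hb a) ha

end Pool.Agent.Results.MP_6bf1e5_an.VorticityHalfSpace
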