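import Pool.Agent.Q295.BD.Fin

/-!
# Random stirring in dimensions one and two: macroscopic cycles below the diffusive scale

Nearest neighbour stirring on `(ℤ / L)^d`, `d = 1, 2`.  At all times `t ≥ L^(a + ε)`, with `a = 8/5`
for `d = 1` and `a = 3/2` for `d = 2`, the ordered cycle lengths are Poisson-Dirichlet(1), and the
partition of any `k` points into cycles is that of a uniform permutation.  Here a particle has
travelled only `√t = o(L)`.
-/

set_option autoImplicit false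

namespace Pool.Agent.Results.MP_6c3d62_pr.BelowDiffusiveScale

open Finset Equiv
open Pool.Agent.Y998.ST (stirExp nnRate)
open Pool.Agent.Results.MP_b817cf_pr.LocalPoissonDirichlet (cycleFrac pdMean)
open Pool.Agent.Results.MP_b817cf_pr.TwoPointCriterion (cycleProb uniformProb)

open Pool.Agent.Q295.TP in
/-- from the scale to the smallness of its error -/
theorem sc_small (d : ℕ) (hd : 1 ≤ d) (ε : ℝ) (hε : 0 < ε) (c : ℝ) (hc : 0 < c) :
    ∃ L₀ : ℕ, ∀ (L : ℕ) [NeZero L], L₀ ≤ L → ∀ t : ℝ, (L : ℝ) ^ ε ≤ t →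
      sc d L t ≤ c := by
  have hcast : Filter.Tendsto (fun L : ℕ => (L : ℝ)) Filter.atTop Filter.atTop :=
    tendsto_natCast_atTop_atTop
  have hd0 : (0 : ℝ) < d := by exact_mod_cast hd
  have hk : 0 < kap d := by unfold kap; positivity
  have h1 : ∀ᶠ L : ℕ in Filter.atTop, (L : ℝ) ^ (-(ε * kap d)) ≤ c / 2 :=
    ((tendsto_rpow_neg_atTop (show 0 < ε * kap d by positivity)).comp
      hcast).eventually_le_const (by positivity)
  have h2 : ∀ᶠ L : ℕ in Filter.atTop, (L : ℝ) ^ (-(d : ℝ)) ≤ c / 2 :=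
    ((tendsto_rpow_neg_atTop hd0).comp hcast).eventually_le_const (by positivity)
  obtain ⟨L₀, hL₀⟩ := Filter.eventually_atTop.1
    (h1.and (h2.and (Filter.eventually_ge_atTop 1)))
  refine ⟨L₀, fun L _ hL t ht => ?_⟩
  obtain ⟨h3, h4, h5⟩ := hL₀ L hL
  have hL1 : (1 : ℝ) ≤ L := by exact_mod_cast h5
  have hL0 : (0 : ℝ) < L := by linarith
  unfold sc
  have h6 : t ^ (-kap d) ≤ (L : ℝ) ^ (-(ε * kap d)) := by
    have h7 : t ^ (-kap d) ≤ ((L : ℝ) ^ ε) ^ (-kap d) :=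
      Real.rpow_le_rpow_of_nonpos (Real.rpow_pos_of_pos hL0 _) ht (by linarith)
    rwa [← Real.rpow_mul hL0.le, mul_neg] at h7
  have h7 : 1 / (L : ℝ) ^ d = (L : ℝ) ^ (-(d : ℝ)) := by
    rw [Real.rpow_neg hL0.le, Real.rpow_natCast, one_div]
  rw [h7]
  linarith

/-- Nearest neighbour random stirring on the torus `(ℤ / L)^d`, `d = 1` or `d = 2`, started at the
identity, at any time `t ≥ L^(a + ε)`, where `a = 4 (d + 1) / (3 d + 2)`: `a = 8/5` for `d = 1` and
`a = 3/2` for `d = 2`.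

(1) The ordered cycle lengths divided by `L^d` converge in law to Poisson-Dirichlet(1) as `L → ∞`,
uniformly over these times.

(2) The probability that given pairs of `k` distinct points are in the same cycle converges to its
value for a uniform permutation of `k` letters, uniformly over these times, over all choices of `k`
distinct points of the torus and over all sets of pairs. -/
theorem result (d : ℕ) (hd : d = 1 ∨ d = 2) (ε : ℝ) (hε : 0 < ε) :
    (∀ (m : ℕ) (f : (Fin m → ℝ) → ℝ), Continuous f → (∃ M, ∀ u, |f u| ≤ M) → ∀ η : ℝ, 0 < η →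
      ∃ L₀ : ℕ, ∀ (L : ℕ) [NeZero L], L₀ ≤ L →
        ∀ t : ℝ, (L : ℝ) ^ (4 * ((d : ℝ) + 1) / (3 * d + 2) + ε) ≤ t →
        |stirExp (nnRate d L) t (fun g => f (fun i : Fin m => cycleFrac g i)) - pdMean f| ≤ η) ∧
    ∀ (k : ℕ) (η : ℝ), 0 < η → ∃ L₀ : ℕ, ∀ (L : ℕ) [NeZero L], L₀ ≤ L →
      ∀ t : ℝ, (L : ℝ) ^ (4 * ((d : ℝ) + 1) / (3 * d + 2) + ε) ≤ t →
      ∀ b : Fin k → Fin d → ZMod L, Function.Injective b → ∀ R : Fin k → Fin k → Prop,
        |cycleProb d L t R b - uniformProb R| ≤ η := by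
  have hd1 : 1 ≤ d := by omega
  have hd2 : d ≤ 2 := by omega
  have hae : ∀ L : ℕ, 1 ≤ L → (L : ℝ) ^ ε ≤
      (L : ℝ) ^ (4 * ((d : ℝ) + 1) / (3 * d + 2) + ε) := by
    intro L hL
    refine Real.rpow_le_rpow_of_exponent_le (by exact_mod_cast hL) ?_
    have : 0 ≤ 4 * ((d : ℝ) + 1) / (3 * d + 2) := by positivity
    linarith
  constructor
  · rintro m f hf ⟨M, hM⟩ η hη
    obtain ⟨δ, hδ, N₀, hN₀, hpd⟩ := Pool.Agent.Q295.TP.pd_two m f hf M hM η hη
    obtain ⟨Cs, hCs, hscale⟩ := Pool.Agent.Q295.TP.scale d hd1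
    obtain ⟨L₁, hq⟩ := Pool.Agent.Q295.BD.q_final d hd1 hd2 ε hε δ hδ
    have hNR : (0 : ℝ) < N₀ := by exact_mod_cast hN₀
    have hCs0 : 0 < Cs := by linarith
    obtain ⟨L₂, hs⟩ := sc_small d hd1 ε hε (min (δ / Cs) (1 / (N₀ : ℝ)))
      (lt_min (by positivity) (by positivity))
    refine ⟨max 3 (max L₁ L₂), fun L _ hL t ht => ?_⟩
    have hL3 : 3 ≤ L := le_trans (le_max_left _ _) hL
    have hL1 : L₁ ≤ L := le_trans ((le_max_left _ _).trans (le_max_right _ _)) hL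
    have hL2 : L₂ ≤ L := le_trans ((le_max_right _ _).trans (le_max_right _ _)) hL
    obtain ⟨ht1, h2⟩ := hq L hL1 t ht
    have h1 := hs L hL2 t ((hae L (by omega)).trans ht)
    obtain ⟨r, η', hr1, hrL, hη0, hη1, hr2, hNN⟩ := hscale L hL3 t ht1
    obtain ⟨A, _, hAc, hAd⟩ := Pool.Agent.Q295.TP.exists_box (d := d) (L := L) hr1 hrL 0
    have hrd : (0 : ℝ) < ((r ^ d : ℕ) : ℝ) := by exact_mod_cast pow_pos hr1 d
    have h5 : N₀ ≤ A.card := by
      rw [hAc]
      have h6 : 1 / ((r ^ d : ℕ) : ℝ) ≤ 1 / N₀ := hr2.trans (h1.trans (min_le_right _ _))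
      rw [one_div_le_one_div hrd hNR] at h6
      exact_mod_cast h6
    have h7 : η' ≤ δ := by
      have h8 : Pool.Agent.Q295.TP.sc d L t ≤ δ / Cs := h1.trans (min_le_left _ _)
      calc η' ≤ Cs * Pool.Agent.Q295.TP.sc d L t := hη1
        _ ≤ Cs * (δ / Cs) := mul_le_mul_of_nonneg_left h8 hCs0.le
        _ = δ := by field_simp
    have h9 := hpd (Fin d → ZMod L) (nnRate d L) Pool.Agent.Y998.ST.nn_nonneg t
      (by linarith) (Pool.Agent.Q295.TP.row_const t) h2 A h5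
      (fun x hx y hy => (hNN x y (hAd x hx y hy)).trans h7)
    simp only [Pool.Agent.Results.MP_b817cf_pr.LocalPoissonDirichlet.frac_eq,
      Pool.Agent.Results.MP_b817cf_pr.LocalPoissonDirichlet.pd_eq]
    exact h9
  · intro k η hη
    obtain ⟨C, hC, h⟩ := Pool.Agent.Q295.TP.k_points d hd1 k
    obtain ⟨c, hc⟩ : ∃ c : ℝ, c = (η / C) ^ 2 / 2 := ⟨_, rfl⟩
    have hc0 : 0 < c := by rw [hc]; positivity
    obtain ⟨L₁, hq⟩ := Pool.Agent.Q295.BD.q_final d hd1 hd2 ε hε c hc0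
    obtain ⟨L₂, hs⟩ := sc_small d hd1 ε hε c hc0
    refine ⟨max 3 (max L₁ L₂), fun L _ hL t ht b hb R => ?_⟩
    have hL3 : 3 ≤ L := le_trans (le_max_left _ _) hL
    have hL1 : L₁ ≤ L := le_trans ((le_max_left _ _).trans (le_max_right _ _)) hL
    have hL2 : L₂ ≤ L := le_trans ((le_max_right _ _).trans (le_max_right _ _)) hL
    obtain ⟨ht1, h2⟩ := hq L hL1 t ht
    have h1 := hs L hL2 t ((hae L (by omega)).trans ht)
    rw [Pool.Agent.Results.MP_b817cf_pr.TwoPointCriterion.prob_eq,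
      Pool.Agent.Results.MP_b817cf_pr.TwoPointCriterion.unif_eq]
    refine (h L hL3 t ht1 b hb R).trans ?_
    have h3 : max 0 (1 / 2 - Pool.Agent.Q295.TP.qq2 (nnRate d L) t) ≤ c :=
      max_le hc0.le (by linarith)
    have h4 : Real.sqrt (Pool.Agent.Q295.TP.sc d L t +
        max 0 (1 / 2 - Pool.Agent.Q295.TP.qq2 (nnRate d L) t)) ≤ η / C := by
      rw [← Real.sqrt_sq (show 0 ≤ η / C by positivity)]
      apply Real.sqrt_le_sqrt
      have : (η / C) ^ 2 = c + c := by rw [hc]; ring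
      linarith
    calc C * Real.sqrt (Pool.Agent.Q295.TP.sc d L t +
          max 0 (1 / 2 - Pool.Agent.Q295.TP.qq2 (nnRate d L) t)) ≤ C * (η / C) :=
          mul_le_mul_of_nonneg_left h4 hC.le
      _ = η := by field_simp

end Pool.Agent.Results.MP_6c3d62_pr.BelowDiffusiveScale
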