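import Pool.Agent.Q60.MV.Whole

/-!
# One explicit power decides whether the Hodge classes on all powers are Tate classes

Let `Y` be a smooth projective variety over a number field `L` embedded in the complex numbers, let
`l` be a prime number and let `b` be the sum of the Betti numbers of `Y`. Put
`N = (2 b) ^ (3 b ^ 2)`; if the centre of the algebra of the Hodge endomorphisms of `H(Y)` is a
product of totally real fields, one can take `N = 4`.

If the images of the Hodge classes on `Y ^ N` in `l`-adic cohomology are Tate classes (that is, if
they are fixed by a subgroup of finite index of the Galois group), then the same is true for the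
Hodge classes on all powers of `Y`.

No assumption on the action of the Galois group is needed: no semisimplicity, no continuity, no
Frobenius elements.
-/

open CategoryTheory AlgebraicGeometry

universe u w

namespace Pool.Agent.Results.MP_6c781a_ag.HodgeClassesTate

open Pool.Agent.H914
open Pool.Agent.Y121.AHS (HodgeTheory IsHodge)
open Pool.Agent.Q55 (GaloisAction IsTate)
open Pool.Agent.Q60.MT (Artin IsPolarisable InSpan)
open Pool.Agent.Q60.TD (power)
open Pool.Agent.Q60.FI (TotallyRealCentre)

variable {k : Type u} [Field k] {𝒱 : VarClass k} {ops : CycleOps 𝒱} {T : HodgeTheory ops}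
  {W' : WeilCohomology.{u, 0} ops} {Γ : Type w} [Group Γ]

/-- **Effective finite determination of the inclusion of the Hodge classes in the Tate classes.**
`power Y n` is the product of `n` copies of `Y`. -/
theorem result (C : Artin T.W W') (G : GaloisAction W' Γ) (Y : 𝒱.Obj) (hY : IsPolarisable T Y)
    (b N : ℕ) (hb : Module.finrank W'.K (W'.H Y) = b)
    (hN : N = (2 * b) ^ (3 * b ^ 2) ∨ N = 4 ∧ TotallyRealCentre T Y)
    (h : ∀ j c, InSpan W'.K (C.f (power Y N)) (IsHodge T (power Y N) j) c →
      IsTate G (power Y N) j c)
    (n j : ℕ) (c : W'.H (power Y n))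
    (hc : InSpan W'.K (C.f (power Y n)) (IsHodge T (power Y n) j) c) :
    IsTate G (power Y n) j c := by
  subst hb
  rcases hN with rfl | ⟨rfl, hc'⟩
  · exact Pool.Agent.Q60.MT.determination_incl hY (by omega) h (n - 1) j c hc
  · exact Pool.Agent.Q60.MV.fourth_ht hY hc' h (n - 1) j c hc

end Pool.Agent.Results.MP_6c781a_ag.HodgeClassesTate
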