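import Pool.Agent.Q86.EM.Asm3

/-!
# The KLS inequality for log-concave measures of bounded tree-depth, and for their marginals

Let `I` be a rooted forest of height at most `d` and let `μ` be a probability measure on `ℝ^I` with a density
`∏_v F_v(x)` where `F_v ≥ 0` is log-concave and depends only on the coordinates `x_u` of `v` and of its
ancestors `u`. In other words: `μ` is a log-concave Markov random field, with log-concave factors, on a graph
of tree-depth at most `d`. Theorem: `μ` satisfies the KLS inequality with the constant `C^d`, `C` absolute,
whatever the number of coordinates, and so do all its marginals on sets of coordinates (hidden variables).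

`d = 1` is the case of product measures. For a star, `d = 2`, the coordinates `x_2, ..., x_n` are
independent given `x_1`. With `x_1` hidden: the mixtures `∫ ∏_i F_i(t, x_i) dt` of product measures, for
example the mean field measures `exp(- ∑_i V_i(x_i) - (c / 2n) ∑_{i<j} (x_i - x_j)²)`, `c ≥ 0`, `V_i` any
convex functions, uniformly in `c` and `n`, because the density is the integral over `t` of
`exp(- ∑_i V_i(x_i) - ∑_i (t / √n - √c x_i)² / 2)`, up to a factor.

Method. Section by section: a two-scale argument over one coordinate (the root), tensorisation over the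
branches, induction on the height. The one-coordinate step: the covariances of the conditional measures are at
most `C s min(G, 1 - G)^(-1/4)`, `G` the distribution function of the root coordinate `t`; a field in the
direction `t` is corrected by a field in the other directions, and Hardy's inequality absorbs the derivative
of the conditional means. This bounds the variances of the 1-Lipschitz functions; then E. Milman's theorem, of
which we give a new proof, without geometric measure theory. Marginals: the class is invariant under
dilations of the coordinates; dilate the hidden ones by `ε → 0`.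
-/

set_option autoImplicit false

namespace Pool.Agent.Results.MP_6d896a_gt.BoundedTreeDepth

open MeasureTheory Set ProbabilityTheory
open scoped ENNReal InnerProductSpace

/-- a rooted forest of height at most `d` (`u ≤ v`: `u = v`, or `u` is an ancestor of `v`): the elements
`u ≤ v` form a chain of at most `d` elements -/
structure Forest (ι : Type) [Fintype ι] [PartialOrder ι] (d : ℕ) : Prop where
  chain : ∀ v a b : ι, a ≤ v → b ≤ v → a ≤ b ∨ b ≤ a
  height : ∀ v : ι, Nat.card {u : ι // u ≤ v} ≤ d

/-- log-concave factors: `F v ≥ 0` is measurable and log-concave on `ℝ^ι`, and depends only on the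
coordinates `x_u`, `u ≤ v` -/
structure Factors {ι : Type} [Fintype ι] [PartialOrder ι] (F : ι → EuclideanSpace ℝ ι → ℝ) :
    Prop where
  nonneg : ∀ v x, 0 ≤ F v x
  measurable : ∀ v, Measurable (F v)
  logConcave : ∀ v (x y : EuclideanSpace ℝ ι) (r : ℝ), 0 < r → r < 1 →
    F v x ^ (1 - r) * F v y ^ r ≤ F v ((1 - r) • x + r • y)
  branch : ∀ v (x y : EuclideanSpace ℝ ι), (∀ u, u ≤ v → x u = y u) → F v x = F v y

/-- the measure with the density `∏_v F_v` -/
noncomputable def law {ι : Type} [Fintype ι] (F : ι → EuclideanSpace ℝ ι → ℝ) :
    Measure (EuclideanSpace ℝ ι) := volume.withDensity fun x => ENNReal.ofReal (∏ v, F v x)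

/-- `s` bounds the covariance matrix of the marginal on the coordinates in `J`: the variance of `⟪θ, X⟫` is
at most `s |θ|²` for all `θ` with `θ_i = 0` for `i ∉ J` -/
def CovLe {ι : Type} [Fintype ι] (J : Set ι) (μ : Measure (EuclideanSpace ℝ ι)) (s : ℝ) : Prop :=
  ∀ θ : EuclideanSpace ℝ ι, (∀ i, i ∉ J → θ i = 0) →
    evariance (fun x => ⟪θ, x⟫_ℝ) μ ≤ ENNReal.ofReal (s * ‖θ‖ ^ 2)

/-- Poincare inequality with the constant `D` for the marginal on the coordinates in `J`:
`Var f ≤ D E |∇ f|²` for all functions `f` of class `C¹` which depend only on the coordinates in `J`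
(both sides in `[0, ∞]`) -/
def Poincare {ι : Type} [Fintype ι] (J : Set ι) (μ : Measure (EuclideanSpace ℝ ι)) (D : ℝ) : Prop :=
  ∀ f : EuclideanSpace ℝ ι → ℝ, ContDiff ℝ 1 f → (∀ x y, (∀ i, i ∈ J → x i = y i) → f x = f y) →
    evariance f μ ≤ ENNReal.ofReal D * ∫⁻ x, ENNReal.ofReal (‖fderiv ℝ f x‖ ^ 2) ∂μ

/-- **The KLS inequality for log-concave measures of bounded tree-depth and their marginals.** There is an
absolute constant `C` such that for every rooted forest `ι` of height at most `d` and all log-concave factors
`F_v`, `F_v` depending on the coordinates of `v` and of its ancestors, for which `∏_v F_v` is the density of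
a probability measure `μ`, and for every `J ⊆ ι`: if `s ≥ 0` bounds the covariance matrix of the marginal
of `μ` on `ℝ^J` then this marginal satisfies the Poincare inequality with the constant `C^d s`. -/
theorem result : ∃ C : ℝ, 1 ≤ C ∧ ∀ (ι : Type) [Fintype ι] [PartialOrder ι] (d : ℕ), Forest ι d →
    ∀ F : ι → EuclideanSpace ℝ ι → ℝ, Factors F → IsProbabilityMeasure (law F) →
    ∀ (J : Set ι) (s : ℝ), 0 ≤ s → CovLe J (law F) s → Poincare J (law F) (C ^ d * s) := by
  obtain ⟨C, hC, H⟩ := Pool.Agent.Q86.EM.q_dgj
  refine ⟨C, hC, ?_⟩
  intro ι _ _ d hF F hFac hP J s hs hcov f hf hfJ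
  exact H ι d ⟨hF.chain, hF.height⟩ F ⟨hFac.nonneg, hFac.measurable, hFac.logConcave, hFac.branch⟩
    (law F) rfl hP J s hs hcov f hf hfJ

end Pool.Agent.Results.MP_6d896a_gt.BoundedTreeDepth
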