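import Pool.Agent.Q73.KL.Gen

/-!
# KLS for log-concave vectors with coordinates independent given `k` of them

The Kannan-Lovasz-Simonovits inequality, in the equivalent (E. Milman) form of a variance bound for
Lipschitz functions, with a constant `C ^ (k + 1)` which does not depend on `n`, for all log-concave
probability measures on `ℝ^k × ℝ^n` with a density of the form `∏_{i ≤ n} F_i(t, x_i)`, where
`F_1, …, F_n` are arbitrary log-concave functions on `ℝ^k × ℝ`: given the first `k` coordinates `t`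
the last `n` coordinates are independent, but their laws may depend on `t`. There is no symmetry
assumption and no restriction on the `F_i`. For `k = 0` these are the product measures. The uniform
measures on the convex sets `{(t, x) : (t, x_i) ∈ L_i for all i}`, with convex `L_i ⊂ ℝ^{k + 1}`, belong
to the class.

Method. Let `Z_i(t) = ∫ F_i(t, ·)`, so that the density of `t` is `Z = ∏ Z_i`, and let `Q_i(t, ·)` be the
quantile function of the law of `x_i` given `t`. For points `p_j` with weights `w_j` and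
`D_i = log (Z_i(∑ w_j p_j) / ∏ Z_i(p_j) ^ w_j) ≥ 0`, a stability version of the one-dimensional
Prekopa-Leindler inequality bounds the distance between `Q_i(∑ w_j p_j, ·)` and `∑ w_j Q_i(p_j, ·)`, up to
a constant, by `D_i` times the scale of `x_i`. The deficits add up: `∑ D_i` is the deficit of `log Z`, and it has
exponential moments by Prekopa-Leindler for `Z`. So the map `t ↦ (Q_i(t, ·))_i` is close, in `ℓ²` and up to
a random constant, to an affine map; the covariance of the measure bounds its differences through a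
linear algebra argument which costs a constant that depends only on `k`. Given `t` the coordinates are
independent, which gives the Poincare inequality for the fibre with the law of `x` at a point `o` near the
maximum of `Z`.
-/

set_option autoImplicit false

namespace Pool.Agent.Results.MP_6d896a_gt.ConditionallyIndependent

open MeasureTheory Set
open scoped ENNReal InnerProductSpace

/-- `ℝ^k × ℝ^n` with its Euclidean norm -/
abbrev Space (k n : ℕ) : Type := EuclideanSpace ℝ (Fin k ⊕ Fin n)

/-- log-concave functions `F ≥ 0` on `ℝ^k × ℝ` -/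
structure LogConcave {k : ℕ} (F : EuclideanSpace ℝ (Fin k) → ℝ → ℝ) : Prop where
  nonneg : ∀ t x, 0 ≤ F t x
  meas : Measurable (Function.uncurry F)
  conc : ∀ (t s : EuclideanSpace ℝ (Fin k)) (x y r : ℝ), 0 < r → r < 1 →
    F t x ^ (1 - r) * F s y ^ r ≤ F ((1 - r) • t + r • s) ((1 - r) * x + r * y)

/-- the first `k` coordinates -/
noncomputable def head {k n : ℕ} (z : Space k n) : EuclideanSpace ℝ (Fin k) :=
  WithLp.toLp 2 fun j => z (Sum.inl j)

/-- the density `∏ F_i(t, x_i)` -/
noncomputable def density {k n : ℕ} (F : Fin n → EuclideanSpace ℝ (Fin k) → ℝ → ℝ)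
    (z : Space k n) : ℝ :=
  ∏ i, F i (head z) (z (Sum.inr i))

/-- `Var ⟪θ, X⟫ ≤ s ‖θ‖²` for all `θ`: the covariance matrix of `μ` has norm at most `s`. -/
def CovLe {k n : ℕ} (μ : Measure (Space k n)) (s : ℝ) : Prop :=
  ∀ θ : Space k n, ProbabilityTheory.evariance (fun x => ⟪θ, x⟫_ℝ) μ ≤ ENNReal.ofReal (s * ‖θ‖ ^ 2)

/-- **KLS for log-concave vectors with coordinates independent given `k` of them.** There is an absolute
constant `C` such that for all `k ≥ 0`, `n ≥ 1` and all log-concave functions `F_1, …, F_n` on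
`ℝ^k × ℝ` for which `∏ F_i(t, x_i)` is the density of a probability measure `μ` on `ℝ^k × ℝ^n`, and every
`s > 0` such that the covariance matrix of `μ` has norm at most `s`: every `C¹` function with `‖∇ f‖ ≤ 1`
has variance at most `C^(k+1) s`, and every `C¹` function with `|f| ≤ 1` satisfies
`(Var f)² ≤ C^(k+1) s E ‖∇ f‖²`. -/
theorem result : ∃ C : ℝ, 0 < C ∧ ∀ k n : ℕ, 1 ≤ n →
    ∀ F : Fin n → EuclideanSpace ℝ (Fin k) → ℝ → ℝ, (∀ i, LogConcave (F i)) →
    ∀ μ : Measure (Space k n),
    μ = volume.withDensity (fun z => ENNReal.ofReal (density F z)) → IsProbabilityMeasure μ →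
    ∀ s : ℝ, 0 < s → CovLe μ s → ∀ f : Space k n → ℝ, ContDiff ℝ 1 f →
    ((∀ x, ‖fderiv ℝ f x‖ ≤ 1) → MemLp f 2 μ ∧
      ProbabilityTheory.variance f μ ≤ C ^ (k + 1) * s) ∧
    ((∀ x, |f x| ≤ 1) → ENNReal.ofReal (ProbabilityTheory.variance f μ ^ 2) ≤
      ENNReal.ofReal (C ^ (k + 1) * s) * ∫⁻ x, ENNReal.ofReal (‖fderiv ℝ f x‖ ^ 2) ∂μ) := by
  refine ⟨2 ^ 54, by positivity, ?_⟩
  intro k n hn F hF μ hμ hprob s hs hcov f hf
  subst hμ
  have hG : Pool.Agent.Q73.KL.FamG F :=
    ⟨fun i => (hF i).nonneg, fun i => (hF i).meas, fun i => (hF i).conc⟩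
  have h48 : (8 : ℝ) * (2 ^ 51 * 48 ^ k) ≤ (2 ^ 54) ^ (k + 1) := by
    have h1 : (48 : ℝ) ^ k ≤ (2 ^ 54) ^ k := pow_le_pow_left₀ (by norm_num) (by norm_num) k
    have h2 : ((2 : ℝ) ^ 54) ^ (k + 1) = (2 ^ 54) ^ k * 2 ^ 54 := pow_succ _ _
    rw [h2]
    linarith
  have h49 : (2 ^ 51 * 48 ^ k : ℝ) ≤ (2 ^ 54) ^ (k + 1) := by
    have : (0 : ℝ) < 2 ^ 51 * 48 ^ k := by positivity
    linarith
  obtain ⟨h1, h2⟩ := Pool.Agent.Q73.KL.genA (k := k) (Nat.pos_of_ne_zero (by omega)) hG
    hprob.measure_univ hs hcov hf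
  refine ⟨fun hf1 => ?_, fun hb => ?_⟩
  · obtain ⟨h3, h4⟩ := h1 hf1
    exact ⟨h3, h4.trans (mul_le_mul_of_nonneg_right h49 hs.le)⟩
  · refine (h2 hb).trans (mul_le_mul' (ENNReal.ofReal_le_ofReal ?_) le_rfl)
    calc 8 * (2 ^ 51 * 48 ^ k * s) = 8 * (2 ^ 51 * 48 ^ k) * s := by ring
      _ ≤ (2 ^ 54) ^ (k + 1) * s := mul_le_mul_of_nonneg_right h48 hs.le

end Pool.Agent.Results.MP_6d896a_gt.ConditionallyIndependent
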