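import Pool.Agent.Q187.RK.Line

/-!
# Beilinson's conjecture in the middle dimension and the averaged formula in all codimensions

For a smooth projective variety `X` of dimension `d` over a number field, `CH^j(X)_0` is the group of
homologically trivial cycles of codimension `j`, and `r X j` is the order of vanishing of
`L(H^(2j-1)(X), s)` at `s = j`. Beilinson's conjecture for odd-dimensional varieties in the middle
codimension `d = 2 j - 1`, for all varieties, is shown to be equivalent to the formula
`dim CH^j(X)_0 + dim CH^(d+1-j)(X)_0 = 2 r X j` for all varieties `X` (of any dimension `d`) and all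
`j`. In particular, it implies the inequality `rank A(K) ≤ ord_{s=1} L(A, s)` for all abelian
varieties, with equality if and only if the Albanese kernel of `A` is torsion.
-/

open CategoryTheory AlgebraicGeometry

universe u v w

namespace Pool.Agent.Results.MP_6dc9d1_nt.AveragedFormula

open Pool.Agent.H914 Pool.Agent.H914.VarClass Pool.Agent.H914.VarClass.Obj Pool.Agent.W492.BB
  Pool.Agent.TH133 Pool.Agent.Q187.AJS Pool.Agent.Q187.RK

/-- **The middle-dimensional conjecture is equivalent to the averaged formula.** Let `C` be the Chow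
theory with rational coefficients and `H` a Weil cohomology theory on a class of smooth projective
varieties over a field `k`, closed under products and containing a projective line `L`. Let `r` be a
function with the formal properties of `r X j = ord_{s=j} L(H^(2j-1)(X), s)` for a number field
`k`.

1. If the formula `dim CH^i(X)_0 = r X i` holds for all `X` of dimension `2 i - 1`, for all
  `i ≤ N`, then `dim CH^j(X)_0 + dim CH^j'(X)_0 = r X j + r X j' (= 2 r X j)` for all `X` and all
  `j, j' ≤ N` with `j + j' = dim X + 1`, and these spaces are finite-dimensional.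
2. The formula `dim CH^i(X)_0 = r X i` holds for all `i` and all `X` of dimension `2 i - 1` if and
  only if the averaged formula holds for all `X` and all `j, j'` with `j + j' = dim X + 1`.
3. If `CH^j(X)_0` and `CH^j'(X)_0` have the same dimension for all `X` and all `j, j'` with
  `j + j' = dim X + 1` (for example, if the height pairings are nondegenerate), then the formula in
  the middle cases `dim X = 2 i - 1` is equivalent to the formula for all `X` and all `j`.
4. Let `X` have dimension `d ≥ 1` and let the multiplication by `η ∈ CH^(d-1)(X)` be injective on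
  `CH^1(X)_0` (this holds for `η = h^(d-1)`, `h` ample, the Picard variety being isogenous to the
  Albanese variety). The formula in the middle cases implies `dim CH^1(X)_0 ≤ r X 1` (the rank of
  the Picard variety is at most the order of its L-function), with equality if and only if all
  homologically trivial zero-cycles are multiples of `η` (the Albanese kernel is zero). -/
theorem result {k : Type u} [Field k] {𝒱 : VarClass k} {C : TheoryData.{u, v, 0} 𝒱 ℚ}
    [IsChowProj C] {K : Type w} [Field K] {H : WeilTheoryData.{u, v, w} C K} [IsWeilProj H]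
    {L : 𝒱.Obj} (hL : IsProjectiveLine C L) {r : 𝒱.Obj → ℤ → ℤ} (hr : IsOrderFunction L r) :
    (∀ N : ℕ, (∀ (X : 𝒱.Obj) (i : ℕ), X.dim + 1 = 2 * i → i ≤ N →
        IsFin C H X i ∧ rk C H X i = r X i) →
      ∀ (X : 𝒱.Obj) (j j' : ℕ), j + j' = X.dim + 1 → j ≤ N → j' ≤ N →
        IsFin C H X j ∧ rk C H X j + rk C H X j' = r X j + r X j') ∧
    ((∀ (X : 𝒱.Obj) (i : ℕ), X.dim + 1 = 2 * i → IsFin C H X i ∧ rk C H X i = r X i) ↔
      ∀ (X : 𝒱.Obj) (j j' : ℕ), j + j' = X.dim + 1 →
        IsFin C H X j ∧ rk C H X j + rk C H X j' = r X j + r X j') ∧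
    ((∀ (X : 𝒱.Obj) (j j' : ℕ), j + j' = X.dim + 1 → IsFin C H X j → rk C H X j = rk C H X j') →
      ((∀ (X : 𝒱.Obj) (i : ℕ), X.dim + 1 = 2 * i → IsFin C H X i ∧ rk C H X i = r X i) ↔
        ∀ (X : 𝒱.Obj) (j : ℕ), IsFin C H X j ∧ rk C H X j = r X j)) ∧
    ((∀ (X : 𝒱.Obj) (i : ℕ), X.dim + 1 = 2 * i → IsFin C H X i ∧ rk C H X i = r X i) →
      ∀ (X : 𝒱.Obj) (η : C.A X), 1 ≤ X.dim → C.Deg (X.dim - 1) η →
        (∀ z, C.Deg 1 z → Triv C H z → C.mul z η = 0 → z = 0) →
        rk C H X 1 ≤ r X 1 ∧ (rk C H X 1 = r X 1 ↔
          ∀ w, C.Deg X.dim w → Triv C H w → ∃ z, C.Deg 1 z ∧ Triv C H z ∧ w = C.mul z η)) := by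
  obtain ⟨h1, h2, h3⟩ := averaged_iff (C := C) (H := H) hL hr
  exact ⟨h1, h2, h3, fun hq X η hX hη hinj => picard hL hr hq X hX hη hinj⟩

end Pool.Agent.Results.MP_6dc9d1_nt.AveragedFormula
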