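import Pool.Agent.Q81.Bern4

/-!
# Logarithmic convexity of the functions `S_{n,c}` (MP_6ebaa4)
-/

namespace Pool.Agent.Results.MP_6ebaa4_an.LogConvex

open Set

/-- The interval `I_c`: `[0, ∞)` for `c ≥ 0` and `[0, -1/c]` for `c < 0`. -/
def interval (c : ℝ) : Set ℝ := if 0 ≤ c then Ici 0 else Icc 0 (-1 / c)

/-- The functions `S_{n,c}` (with `X = x(1+cx)`). -/
noncomputable def S (n c x : ℝ) : ℝ :=
  1 / Real.pi * ∫ φ in (0 : ℝ)..Real.pi,
    if c = 0 then Real.exp (-4 * n * x * Real.sin (φ / 2) ^ 2)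
    else (1 + 4 * c * (x * (1 + c * x)) * Real.sin (φ / 2) ^ 2) ^ (-n / c)

/-- `log S_{n,c}` is convex on `I_c` for all real `n > 0` and all real `c` such that `-n/c` is a
positive integer if `c < 0`. -/
theorem result (n c : ℝ) (hn : 0 < n) (hc : c < 0 → ∃ N : ℕ, 0 < N ∧ -n / c = N) :
    ConvexOn ℝ (interval c) fun x => Real.log (S n c x) :=
  Q81.Bern.main hn hc

end Pool.Agent.Results.MP_6ebaa4_an.LogConvex
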