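import Pool.Agent.Q271.RC.Main

/-!
MP_6f117a_ag, Q1: covers of pairs of log general type, finite over tori, which are ramified to high
order over the boundary.

`IsPair d a f e` (`Pool/Agent/Q271/RC/Defs.lean`): `X` is a complex projective variety of dimension
`d` with generic point `a` and function field `K`, the `f i` are forms of degree `e`, the rational
map `(f 0 : … : f n)` on `X` is generically finite onto its image (any subvariety of projective
`n`-space), and `X` is of log general type for the boundary consisting of the prime divisors (on all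
models) where some `f i / f 0` is not a unit. `IsCover a b g e'`: `Y` is a projective variety with
generic point `b` and function field `K'`, and the forms `g 0, …, g N` define a generically finite
dominant rational map from `Y` to `X`.

`HighContact m v z`: at `z` the orders of `v 0, …, v n` are all equal, or two of them differ by at
least `m`. `Ramified m b h`: this is so for the `h i` on all arcs in `Y`; for instance if the forms
`h i = f i (g)` are `m`-th powers of forms on `Y`.

Theorem: there is `m` such that for all covers `Y` of `X`: (1) outside a proper closed subset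
`G = 0` of `Y`, all nonconstant maps from a curve of genus `g` without a finite set `S` of points
such that the contact orders with the boundary are at least `m` outside `S`, have degree at most
`A (2 g - 2 + |S|)`. (2) If `Y` is ramified to order `m` over the boundary, then `Y` is of general
type, and outside a proper closed subset the degree of every map from a curve of genus `g` to `Y`
is at most `A' max (2 g - 2, 0)` (`CurveBound`, `Pool/Agent/Y216/Point.lean`).
-/

set_option autoImplicit false

namespace Pool.Agent.Results.MP_6f117a_ag.RamifiedCovers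

open MvPolynomial FF Pool.Agent.W603.LV Pool.Agent.W603.PV Pool.Agent.Q271.RC Pool.Agent.Y216
open Pool.Agent.W602.GT (GeneralType)

/-- Outside a proper closed subset of the variety `Y` with the generic point `b`, the nonconstant
maps from affine curves to `Y`, with contact of order at least `m` for the forms `h i`, satisfy a
linear bound. -/
def ContactBound {N' n : ℕ} {K' : Type} [Field K'] [Algebra ℂ K'] (m : ℕ) (b : Fin (N' + 1) → K')
    (h : Fin (n + 1) → MvPolynomial (Fin (N' + 1)) ℂ) : Prop :=
  ∃ (G : MvPolynomial (Fin (N' + 1)) ℂ) (D A : ℕ), G.IsHomogeneous D ∧ aeval b G ≠ 0 ∧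
    ∀ (L : Type) [Field L] [Algebra ℂ L] [IsFF ℂ L] (S : Finset (Place ℂ L))
      (v : Fin (N' + 1) → L), IsPoint b v → aeval v G ≠ 0 → Nonconst v →
      (∀ z : Place ℂ L, z ∉ S → HighContact m (fun i => aeval v (h i)) z) →
      pht ℂ v ≤ A * (canDeg ℂ L + S.card)

/-- See the explanation at the beginning of the file. -/
theorem result {N n d : ℕ} (K : Type) [Field K] [Algebra ℂ K] (a : Fin (N + 1) → K)
    (f : Fin (n + 1) → MvPolynomial (Fin (N + 1)) ℂ) (e : ℕ) (hX : IsPair d a f e) :
    ∃ m : ℕ, ∀ (N' : ℕ) (K' : Type) [Field K'] [Algebra ℂ K'] [Algebra K K']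
      [IsScalarTower ℂ K K'] (b : Fin (N' + 1) → K')
      (g : Fin (N + 1) → MvPolynomial (Fin (N' + 1)) ℂ) (e' : ℕ), IsCover a b g e' →
      ContactBound m b (fun i => bind₁ g (f i)) ∧
      (Ramified m b (fun i => bind₁ g (f i)) → GeneralType ℂ K' d ∧ CurveBound ℂ b) := by
  obtain ⟨m1, h1⟩ := cover_linear hX
  obtain ⟨m2, h2⟩ := cover_gt hX
  obtain ⟨m3, h3⟩ := cover_curves hX
  refine ⟨m1 + m2 + m3, fun N' K' _ _ _ _ b g e' hY => ⟨?_, fun hram => ?_⟩⟩
  · obtain ⟨G, D, A, hG, hGb, hmain⟩ := h1 (m1 + m2 + m3) (by omega) N' K' b g e' hY
    exact ⟨G, D, 5 * A, hG, hGb, fun L _ _ _ S v hv hGv hne hS =>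
      (((hmain L v hv hGv).2 S hS).2 hne)⟩
  · exact ⟨h2 _ (by omega) N' K' b g e' hY hram, h3 _ (by omega) N' K' b g e' hY hram⟩

end Pool.Agent.Results.MP_6f117a_ag.RamifiedCovers
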