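import Mathlib
import Pool.Agent.Q127.F6.Cover

/-!
# MP_6fec45_co, Q2 (full answer: no)

There is no constant `C` such that for every `A ⊆ 𝔽₂ⁿ` with an additive complement of size `K` the set
`2A` contains a coset of codimension at most `C log (2K)`.  Quantitatively, for every `m` there are
`A ⊆ 𝔽₂ⁿ`, `n = 4 ^ m`, and an additive complement of size `K = 2 * 4 ^ m` such that every coset
contained in `2A` has codimension at least `2 ^ m = √(K / 2)`: `A` is the Hamming ball of radius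
`(n - √n) / 2` and the complement is the first-order Reed-Muller code.
-/

set_option autoImplicit false

namespace Pool.Agent.Results.MP_6fec45_co.NotLogarithmic

open Module
open scoped Pointwise

/-- Negated form of Q2 (second conjunct), with the polynomial lower bound (first conjunct). -/
theorem result :
    (∀ m : ℕ, ∃ (A : Set (Fin (4 ^ m) → ZMod 2)) (S : Finset (Fin (4 ^ m) → ZMod 2)),
      S.card = 2 * 4 ^ m ∧ A + (S : Set (Fin (4 ^ m) → ZMod 2)) = Set.univ ∧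
      ∀ (x : Fin (4 ^ m) → ZMod 2) (V : Submodule (ZMod 2) (Fin (4 ^ m) → ZMod 2)),
        x +ᵥ (V : Set (Fin (4 ^ m) → ZMod 2)) ⊆ A + A → 2 ^ m + finrank (ZMod 2) V ≤ 4 ^ m) ∧
    (∀ C : ℝ, ∃ (n K : ℕ) (A : Set (Fin n → ZMod 2)) (S : Finset (Fin n → ZMod 2)),
      1 ≤ n ∧ 1 ≤ K ∧ S.card = K ∧ A + (S : Set (Fin n → ZMod 2)) = Set.univ ∧
      ∀ (x : Fin n → ZMod 2) (V : Submodule (ZMod 2) (Fin n → ZMod 2)),
        (n : ℝ) - finrank (ZMod 2) V ≤ C * Real.log (2 * K) →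
          ¬ x +ᵥ (V : Set (Fin n → ZMod 2)) ⊆ A + A) := by
  have key : ∀ m : ℕ, ∃ (A : Set (Fin (4 ^ m) → ZMod 2)) (S : Finset (Fin (4 ^ m) → ZMod 2)),
      S.card = 2 * 4 ^ m ∧ A + (S : Set (Fin (4 ^ m) → ZMod 2)) = Set.univ ∧
      ∀ (x : Fin (4 ^ m) → ZMod 2) (V : Submodule (ZMod 2) (Fin (4 ^ m) → ZMod 2)),
        x +ᵥ (V : Set (Fin (4 ^ m) → ZMod 2)) ⊆ A + A →
          2 ^ m + finrank (ZMod 2) V ≤ 4 ^ m := by
    intro m
    obtain ⟨A, S, h1, h2, h3⟩ := Pool.Agent.Q127.F6.main m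
    refine ⟨A, S, h1, h2, fun x V hV => h3 x V fun v hv => hV ?_⟩
    exact ⟨v, hv, rfl⟩
  refine ⟨key, fun C => ?_⟩
  -- choose `m` with `C * ((m + 1) * log 4) < 2 ^ m`
  obtain ⟨m, hm⟩ : ∃ m : ℕ, C * ((m + 1) * Real.log 4) < 2 ^ m := by
    have ht := tendsto_pow_const_div_const_pow_of_one_lt 1 (r := (2 : ℝ)) (by norm_num)
    have ht1 : Filter.Tendsto (fun m : ℕ => (2 : ℝ) * (|C| * Real.log 4) * ((m : ℝ) ^ 1 / 2 ^ m))
        Filter.atTop (nhds (2 * (|C| * Real.log 4) * 0)) := ht.const_mul _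
    rw [mul_zero] at ht1
    have hev := (ht1.eventually_lt_const (show (0 : ℝ) < 1 by norm_num)).and
      (Filter.eventually_ge_atTop 1)
    obtain ⟨m, hm1, hm2⟩ := hev.exists
    refine ⟨m, ?_⟩
    have hpow : (0 : ℝ) < 2 ^ m := by positivity
    have hlog : (0 : ℝ) ≤ Real.log 4 := Real.log_nonneg (by norm_num)
    have hm3 : (1 : ℝ) ≤ m := by exact_mod_cast hm2
    have h1 : (2 : ℝ) * (|C| * Real.log 4) * m < 2 ^ m := by
      have h2 : (2 : ℝ) * (|C| * Real.log 4) * ((m : ℝ) ^ 1 / 2 ^ m) =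
          (2 * (|C| * Real.log 4) * m) / 2 ^ m := by ring
      rw [h2, div_lt_one hpow] at hm1
      exact hm1
    refine lt_of_le_of_lt ?_ h1
    calc C * ((m + 1) * Real.log 4) ≤ |C| * ((m + 1) * Real.log 4) :=
          mul_le_mul_of_nonneg_right (le_abs_self C) (by positivity)
      _ ≤ |C| * ((2 * m) * Real.log 4) := by
          refine mul_le_mul_of_nonneg_left ?_ (abs_nonneg C)
          refine mul_le_mul_of_nonneg_right ?_ hlog
          linarith
      _ = 2 * (|C| * Real.log 4) * m := by ring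
  obtain ⟨A, S, h1, h2, h3⟩ := key m
  refine ⟨4 ^ m, 2 * 4 ^ m, A, S, Nat.one_le_pow _ _ (by norm_num), ?_, h1, h2, ?_⟩
  · have := Nat.one_le_pow m 4 (by norm_num)
    omega
  · intro x V hV hsub
    have h4 := h3 x V hsub
    have h5 : ((2 : ℝ) ^ m) + finrank (ZMod 2) V ≤ 4 ^ m := by exact_mod_cast h4
    have h6 : Real.log (2 * ((2 * 4 ^ m : ℕ) : ℝ)) = (m + 1) * Real.log 4 := by
      push_cast
      have : (2 : ℝ) * (2 * 4 ^ m) = 4 ^ (m + 1) := by rw [pow_succ]; ring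
      rw [this, Real.log_pow]
      push_cast
      ring
    rw [h6] at hV
    push_cast at hV
    linarith

end Pool.Agent.Results.MP_6fec45_co.NotLogarithmic
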