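import Pool.Agent.Q259.AS.Dif

/-!
# The even numbers near the dilates of typical points are differences of primes from all windows

Definitions used (in `Pool.Agent.H560R3.GB`): `C₂`: the twin prime constant
`∏_{p > 2} (1 - 1 / (p - 1) ^ 2)`; `sing m`: the singular series `2 C₂ ∏_{p ∣ m, p > 2} (p - 1) / (p - 2)`.
`Pool.Agent.Q259.AS`: `SelfSim μ`: `μ` is a self-similar measure `μ = ∑ p i * (f i)_* μ` of finitely many maps
`f i x = ρ i * x + t i` with `0 < |ρ i| < 1` and `p i > 0`, not all with the same fixed point (that is, `μ` is not a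
point mass; overlaps are allowed and the ratios are arbitrary); `FourLp μ`: the Fourier transform of `μ` belongs to
`L^q` for some `q < ∞` (for instance because it is `O(|t| ^ (-δ))` for some `δ > 0`).
-/

set_option autoImplicit false

namespace Pool.Agent.Results.MP_70e905_nt.TypicalDifferences

open MeasureTheory Filter Finset Pool.Agent.H560R3.GB Pool.Agent.Q259.AS

/-- The number of the pairs of primes `p`, `q` with `p - q = h` and `u < q ≤ v`. -/
def pairs (h u v : ℕ) : ℕ := ((Ioc u v).filter (fun q => q.Prime ∧ (q + h).Prime)).card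

/-- In every window `(u, v]` with `a / B₁ ≤ u < v ≤ B₁ a` and `v - u ≥ a / log ^ A a` the number `h` is a difference
`p - q` of primes with `q` in the window, and the number of these representations agrees with
`sing h * (v - u) / log ^ 2 a` up to a relative error of at most `ε`. -/
def Holds (ε : ℝ) (A B₁ : ℕ) (a : ℝ) (h : ℕ) : Prop :=
  ∀ u v : ℕ, a ≤ B₁ * u → (v : ℝ) ≤ B₁ * a → a / Real.log a ^ A ≤ (v : ℝ) - u →
    (∃ p q : ℕ, p.Prime ∧ q.Prime ∧ p = q + h ∧ u < q ∧ q ≤ v) ∧
    |(pairs h u v : ℝ) - sing h * ((v : ℝ) - u) / Real.log a ^ 2| ≤ ε * (sing h * ((v : ℝ) - u) / Real.log a ^ 2)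

/-- Let `μ` be a probability measure on the line which is self-similar and not a point mass, or whose Fourier
transform belongs to some `L^q`, `q < ∞`. Let `a 1, a 2, ...` be arbitrary positive real numbers with
`log (a k) ≥ k ^ ρ` for large `k`, where `ρ > 0`, and let `Y k` be arbitrary sets of at most `k ^ T` real numbers `y`
with `|y| ≤ B a k`. Then `μ`-almost every `x` has the following property. For all `ε > 0`, `A`, `A'` and `B₁`, for all
large `k` and all `y` in `Y k`, EVERY positive even integer `h` with `|h - (a k * x + y)| ≤ log (a k) ^ A'` is a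
difference `p - q` of two primes with `q` in an arbitrary window `(u, v]` with `a k / B₁ ≤ u < v ≤ B₁ a k` and
`v - u ≥ a k / log (a k) ^ A`, and the number of these representations agrees with
`sing h * (v - u) / log (a k) ^ 2` up to a relative error of at most `ε`. -/
theorem result (μ : Measure ℝ) [IsProbabilityMeasure μ] (hμ : SelfSim μ ∨ FourLp μ) (a : ℕ → ℝ) (ρ : ℝ) (hρ : 0 < ρ)
    (ha : ∀ᶠ k : ℕ in atTop, 0 < a k ∧ (k : ℝ) ^ ρ ≤ Real.log (a k)) (B T : ℕ) (Y : ℕ → Finset ℝ)
    (hY : ∀ᶠ k : ℕ in atTop, (Y k).card ≤ k ^ T ∧ ∀ y ∈ Y k, |y| ≤ B * a k) :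
    ∀ᵐ x ∂μ, ∀ ε : ℝ, 0 < ε → ∀ A A' B₁ : ℕ, ∀ᶠ k : ℕ in atTop, ∀ y ∈ Y k, ∀ h : ℕ, 0 < h → Even h →
      |(h : ℝ) - (a k * x + y)| ≤ Real.log (a k) ^ A' → Holds ε A B₁ (a k) h := by
  classical
  filter_upwards [as_dif μ hμ a ρ hρ ha B T Y hY] with x hx ε hε A A' B₁
  filter_upwards [hx (min ε (1 / 2)) (lt_min hε (by norm_num)) A A' B₁, sizes_ev a ρ hρ ha 1] with
    k h1 h2 y hy h hh he hnear u v hu hv huv
  have h3 : |(pairs h u v : ℝ) - sing h * ((v : ℝ) - u) / Real.log (a k) ^ 2| ≤
      min ε (1 / 2) * (sing h * ((v : ℝ) - u) / Real.log (a k) ^ 2) := h1 y hy h hh he hnear u v hu hv huv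
  have hs := Pool.Agent.W93.GB.one_le_sing h
  have hlog : 0 < Real.log (a k) := by linarith [h2.1]
  have ha0 : 0 < a k := by linarith [h2.2.2]
  have huv' : (0 : ℝ) < (v : ℝ) - u := by
    have : 0 < a k / Real.log (a k) ^ A := by positivity
    linarith
  have hmain : 0 < sing h * ((v : ℝ) - u) / Real.log (a k) ^ 2 := by
    have : 0 < sing h := by linarith
    positivity
  refine ⟨?_, h3.trans (mul_le_mul_of_nonneg_right (min_le_left _ _) hmain.le)⟩
  have h4 := h3.trans (mul_le_mul_of_nonneg_right (min_le_right _ _) hmain.le)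
  have h5 : (0 : ℝ) < pairs h u v := by
    rw [abs_le] at h4
    linarith [h4.1]
  have h6 : 0 < pairs h u v := by exact_mod_cast h5
  unfold pairs at h6
  rw [card_pos] at h6
  obtain ⟨q, hq⟩ := h6
  rw [mem_filter, mem_Ioc] at hq
  exact ⟨q + h, q, hq.2.2, hq.2.1, rfl, hq.1.1, hq.1.2⟩

end Pool.Agent.Results.MP_70e905_nt.TypicalDifferences
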