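import Pool.Agent.Q253.Thin.SparseP
import Pool.Agent.Q253.Thin.Poly

/-!
# Every large odd number is `a + P₂` with `a - 1` prime and `a ^ 2 + 1` almost prime, `a` from one sparse set

For all `d`, `A` there is one set `S` of primes with `O(log ^ (d + 3) x)` elements up to `x`, such that for EVERY large odd `M`
and EVERY polynomial `f` of degree `≤ d` with coefficients up to `M ^ A` (`f = X ^ 2 + 1` included), without local obstruction,
at least `c log M` of the `p ∈ S` have the property, with `a = p + 1 < M`: `M - a` is a prime or a product of two primes, and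
`M - a` and `f(a)` have no small prime factor.

Libraries: `Y840.CT.GenF` (Chen's theorem for systems of classes), `Y151.HS.FLC` (fundamental lemma), starting files.
-/

set_option autoImplicit false

namespace Pool.Agent.Results.MP_7169d5_nt.EveryOddNumber

open Finset Filter
open Pool.Agent.Y840.CT Pool.Agent.Q253.Thin

/-- the value at `n` of the polynomial with the coefficients `c` -/
def val {d : ℕ} (c : Fin (d + 1) → ℤ) (n : ℕ) : ℤ := ∑ j, c j * (n : ℤ) ^ (j : ℕ)

/-- `k` has no prime factor `≤ z` -/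
def Free (z : ℝ) (k : ℤ) : Prop := ∀ q : ℕ, q.Prime → (q : ℤ) ∣ k → z < q

/-- `n` is a prime or a product of two primes, and all its prime factors are larger than `z` -/
def AlmostPrime (z : ℝ) (n : ℕ) : Prop :=
  (n.Prime ∨ ∃ a b : ℕ, a.Prime ∧ b.Prime ∧ n = a * b) ∧ ∀ q : ℕ, q.Prime → q ∣ n → z < q

/-- no prime `q` divides `(a - 1) (M - a) f(a)` for all integers `a = b + 1`, `0 ≤ b < q` -/
def Admissible {d : ℕ} (c : Fin (d + 1) → ℤ) (M : ℕ) : Prop :=
  ∀ q : ℕ, q.Prime → ∃ b : ℕ, b < q ∧ ¬ (q : ℤ) ∣ (b : ℤ) * (M - (b + 1)) * val c (b + 1)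

/-- the coefficients of `X ^ 2 + 1` -/
def landau : Fin 3 → ℤ := ![1, 0, 1]

lemma val_landau (n : ℕ) : val landau n = (n : ℤ) ^ 2 + 1 := by
  unfold val landau
  rw [Fin.sum_univ_three]
  simp
  ring

/-- for `f = X ^ 2 + 1` there is no local obstruction for odd `M` -/
lemma landau_adm {M : ℕ} (hM : Odd M) : Admissible landau M := by
  intro q hq
  have : Fact q.Prime := ⟨hq⟩
  obtain ⟨k, hk⟩ := hM
  have hMz : (M : ℤ) = 2 * k + 1 := by exact_mod_cast hk
  by_contra hcon
  push Not at hcon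
  have hcon' : ∀ b : ℕ, b < q → (q : ℤ) ∣ (b : ℤ) * (M - (b + 1)) * ((b + 1 : ℤ) ^ 2 + 1) := by
    intro b hb
    have := hcon b hb
    rw [val_landau] at this
    push_cast at this
    exact this
  rcases Nat.lt_or_ge q 6 with h6 | h6
  · interval_cases q
    · exact absurd hq Nat.not_prime_zero
    · exact absurd hq Nat.not_prime_one
    · have h := hcon' 1 (by norm_num)
      rw [hMz] at h
      push_cast at h
      norm_num at h
      omega
    · have h1 := hcon' 1 (by norm_num)
      have h2 := hcon' 2 (by norm_num)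
      push_cast at h1 h2
      norm_num at h1 h2
      omega
    · exact absurd hq (by norm_num)
    · have h3 := hcon' 3 (by norm_num)
      have h4 := hcon' 4 (by norm_num)
      push_cast at h3 h4
      omega
  · -- at most four classes
    have hz : ∀ b : ℕ, b < q → (b : ZMod q) * ((M : ZMod q) - (b + 1)) * (((b : ZMod q) + 1) ^ 2 + 1) = 0 := by
      intro b hb
      have := (ZMod.intCast_zmod_eq_zero_iff_dvd _ q).2 (hcon' b hb)
      push_cast at this
      exact this
    set g : Polynomial (ZMod q) := Polynomial.X * (Polynomial.C (M : ZMod q) - (Polynomial.X + 1)) *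
      ((Polynomial.X + 1) ^ 2 + 1) with hg
    have hroot : ∀ z : ZMod q, g.eval z = 0 := by
      intro z
      have h1 := hz z.val (ZMod.val_lt z)
      rw [ZMod.natCast_val, ZMod.cast_id', id] at h1
      rw [hg]
      simpa using h1
    have hg4 : g.natDegree ≤ 4 := by
      rw [hg]
      compute_degree
    have hg0 : g ≠ 0 := by
      intro h0
      have h1 : (Polynomial.X : Polynomial (ZMod q)) ≠ 0 := Polynomial.X_ne_zero
      rw [hg] at h0
      have h2 : ((Polynomial.X + 1) ^ 2 + 1 : Polynomial (ZMod q)).natDegree = 2 := by compute_degree!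
      rcases mul_eq_zero.1 h0 with h | h
      · rcases mul_eq_zero.1 h with h | h
        · exact h1 h
        · have := congrArg (fun p => Polynomial.coeff p 1) h
          simp [Polynomial.coeff_X, Polynomial.coeff_one] at this
      · rw [h, Polynomial.natDegree_zero] at h2
        omega
    have hcard : Fintype.card (ZMod q) ≤ g.roots.toFinset.card := by
      rw [← card_univ]
      apply card_le_card
      intro z _
      rw [Multiset.mem_toFinset, Polynomial.mem_roots hg0]
      exact hroot z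
    rw [ZMod.card] at hcard
    have h2 := (Multiset.toFinset_card_le g.roots).trans ((Polynomial.card_roots' g).trans hg4)
    omega

/-- the classes of `p = a - 1` -/
def FF {d : ℕ} (c : Fin (d + 1) → ℤ) (M q : ℕ) : Finset ℤ :=
  insert ((M : ℤ) - 1) (((range q).filter (fun b => (q : ℤ) ∣ val c (b + 1))).image (fun b : ℕ => (b : ℤ)))

lemma val_mod {d : ℕ} (c : Fin (d + 1) → ℤ) (q n : ℕ) : (q : ℤ) ∣ val c (n + 1) ↔ (q : ℤ) ∣ val c (n % q + 1) := by
  have h : val c (n + 1) ≡ val c (n % q + 1) [ZMOD q] := by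
    unfold val
    apply Int.ModEq.sum
    intro j _
    apply Int.ModEq.mul_left
    apply Int.ModEq.pow
    push_cast
    exact (Int.mod_modEq _ _).symm.add_right 1
  rw [Int.modEq_iff_dvd] at h
  constructor
  · intro h1
    have := dvd_add h h1
    simpa using this
  · intro h1
    have := dvd_sub h1 h
    simpa using this

lemma FF_card {d : ℕ} {c : Fin (d + 1) → ℤ} {M : ℕ} (h : Admissible c M) {q : ℕ} (hq : q.Prime) :
    (FF c M q).card ≤ d + 1 := by
  classical
  unfold FF
  refine (card_insert_le _ _).trans ?_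
  refine Nat.succ_le_succ ?_
  refine card_image_le.trans ?_
  -- the classes `b` with `q ∣ f(b + 1)` correspond to the roots of `f`
  have hadm : AdmP c := by
    intro q' hq'
    obtain ⟨b, _, hb⟩ := h q' hq'
    exact ⟨b + 1, fun hd => hb (Dvd.dvd.mul_left hd _)⟩
  refine le_trans ?_ (card_Zc c hadm hq)
  apply card_le_card_of_injOn (fun b => (b + 1) % q)
  · intro b hb
    have hb' := Finset.mem_coe.1 hb
    rw [mem_filter, mem_range] at hb'
    rw [Finset.mem_coe, mem_Zc c hq.pos]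
    exact hb'.2
  · intro a ha b hb hab
    have ha' := Finset.mem_coe.1 ha
    have hb' := Finset.mem_coe.1 hb
    rw [mem_filter, mem_range] at ha' hb'
    simp only at hab
    have h1 : a ≡ b [MOD q] := Nat.ModEq.add_right_cancel' 1 hab
    exact h1.eq_of_lt_of_lt ha'.1 hb'.1

lemma FF_loc {d : ℕ} {c : Fin (d + 1) → ℤ} {M : ℕ} (h : Admissible c M) {q : ℕ} (hq : q.Prime) :
    rho (FF c M q) q < q := by
  classical
  rw [rho_card _ hq.pos]
  have hqp := Nat.prime_iff_prime_int.1 hq
  calc _ < (range q).card := by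
        apply card_lt_card
        rw [filter_ssubset]
        obtain ⟨b, hb, hb2⟩ := h q hq
        refine ⟨b, mem_range.2 hb, ?_⟩
        rintro ⟨h', hh', hd⟩
        apply hb2
        rcases mem_insert.1 hh' with h0 | h0
        · rw [h0, zero_sub, dvd_neg] at hd
          exact (hd.mul_right _).mul_right _
        · rcases mem_insert.1 h0 with h0 | h0
          · rw [h0] at hd
            have e : (M : ℤ) - 1 - b = M - (b + 1) := by ring
            rw [e] at hd
            exact (hd.mul_left _).mul_right _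
          · rw [mem_image] at h0
            obtain ⟨b', hb', rfl⟩ := h0
            rw [mem_filter, mem_range] at hb'
            have h1 : b = b' := by
              have h2 : (b : ℤ) ≡ b' [ZMOD q] := (Int.modEq_iff_dvd).2 hd
              have h3 : b ≡ b' [MOD q] := (Int.natCast_modEq_iff).1 h2
              exact h3.eq_of_lt_of_lt hb hb'.1
            rw [h1]
            exact hb'.2.mul_left _
    _ = q := card_range q

/-- **Every large odd number.** For all `d`, `A` there are `t ≥ 1`, `κ, C > 0` and one set `S` of primes with at most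
`C log ^ (d + 3) x` elements up to `x`, such that for EVERY `M ≥ M₀` and EVERY polynomial `f` of degree `≤ d` with coefficients
up to `M ^ A` and without local obstruction for `(a - 1) (M - a) f(a)`, at least `κ log M` of the `p ∈ S` have the property, with
`a = p + 1 < M`: `M - a` is a prime or a product of two primes `> M ^ (1/9)`, and `M - a` and `f(a)` have no prime factor
`≤ M ^ (1/t)`. For `f = X ^ 2 + 1` there is no local obstruction for odd `M`. -/
theorem result (d A : ℕ) : ∃ (t : ℕ) (κ C : ℝ) (S : Set ℕ), 1 ≤ t ∧ 0 < κ ∧ 0 < C ∧ (∀ p ∈ S, p.Prime) ∧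
    (∀ x : ℕ, 2 ≤ x → ∃ T : Finset ℕ, (∀ p ∈ S, p ≤ x → p ∈ T) ∧ (T.card : ℝ) ≤ C * Real.log x ^ (d + 3)) ∧
    (∀ M : ℕ, Odd M → Admissible landau M) ∧ (∀ n : ℕ, val landau n = (n : ℤ) ^ 2 + 1) ∧
    ∃ M₀ : ℕ, ∀ M : ℕ, M₀ ≤ M → ∀ c : Fin (d + 1) → ℤ, (∀ j, |c j| ≤ (M : ℤ) ^ A) → Admissible c M →
      ∃ T : Finset ℕ, (∀ p ∈ T, p ∈ S ∧ p + 1 < M ∧ AlmostPrime ((M : ℝ) ^ (1 / 9 : ℝ)) (M - (p + 1)) ∧
        Free ((M : ℝ) ^ (1 / (t : ℝ))) (M - (p + 1)) ∧ Free ((M : ℝ) ^ (1 / (t : ℝ))) (val c (p + 1))) ∧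
        κ * Real.log M ≤ T.card := by
  classical
  obtain ⟨t, ht, hblock⟩ := sparseBlock (d + 1)
  obtain ⟨c0, C0, hc0, hC0, x₀, hx₀⟩ := hblock (4 + (4 * A + 2) * (d + 1)) 8 (by norm_num)
  set m0 : ℕ := max x₀ 2 with hm0
  have step : ∀ i : ℕ, ∃ S : Finset ℕ, (∀ p ∈ S, p.Prime ∧ 2 ^ i < p ∧ p ≤ 2 * 2 ^ i) ∧
      (S.card : ℝ) ≤ C0 * (i : ℝ) ^ (d + 2) ∧ (m0 ≤ i → ∀ M : ℕ, 4 * 2 ^ i ≤ M → M ≤ 8 * 2 ^ i →
        ∀ c : Fin (d + 1) → ℤ, (∀ j, |c j| ≤ (M : ℤ) ^ A) → Admissible c M →
        c0 * Real.log ((2 ^ i : ℕ) : ℝ) ≤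
          ((S ∩ GoodF t (8 * 2 ^ i) (2 ^ i) (2 * 2 ^ i) (FF c M) ((M : ℤ) - 1)).card : ℝ)) := by
    intro i
    by_cases hi : m0 ≤ i
    swap
    · refine ⟨∅, by simp, ?_, fun hi' => absurd hi' hi⟩
      rw [card_empty, Nat.cast_zero]
      positivity
    set x : ℕ := 2 ^ i with hx
    have hmx : m0 ≤ x := hi.trans Nat.lt_two_pow_self.le
    have hx0 : x₀ ≤ x := (le_max_left _ _).trans hmx
    have hi2 : 2 ≤ i := (le_max_right _ _).trans hi
    have hx4 : 4 ≤ x := by
      rw [hx]
      calc 4 = 2 ^ 2 := by norm_num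
        _ ≤ 2 ^ i := Nat.pow_le_pow_right (by norm_num) hi2
    set I : Finset (ℕ × (Fin (d + 1) → ℤ)) :=
      ((Icc (4 * x) (8 * x)) ×ˢ (Fintype.piFinset (fun _ : Fin (d + 1) => Icc (-(((8 * x : ℕ) : ℤ) ^ A)) (((8 * x : ℕ) : ℤ) ^ A)))).filter
        (fun τ => Admissible τ.2 τ.1) with hI
    have hIc : I.card ≤ x ^ (4 + (4 * A + 2) * (d + 1)) := by
      rw [hI]
      refine (card_filter_le _ _).trans ?_
      rw [card_product, Nat.card_Icc, Fintype.card_piFinset, prod_const, card_univ, Fintype.card_fin, Int.card_Icc]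
      have h8 : 8 * x ≤ x ^ 3 := by
        calc 8 * x ≤ x * x * x := by nlinarith
          _ = x ^ 3 := by ring
      have h1 : 8 * x + 1 - 4 * x ≤ x ^ 4 := by
        have h2 : x ^ 3 + x ^ 3 ≤ x ^ 4 := by
          rw [pow_succ x 3]
          nlinarith [Nat.zero_le (x ^ 3)]
        omega
      have h2 : ((((8 * x : ℕ) : ℤ) ^ A + 1 - -(((8 * x : ℕ) : ℤ) ^ A))).toNat ≤ x ^ (4 * A + 2) := by
        have h3 : (((8 * x : ℕ) : ℤ) ^ A + 1 - -(((8 * x : ℕ) : ℤ) ^ A)) = ((2 * (8 * x) ^ A + 1 : ℕ) : ℤ) := by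
          push_cast
          ring
        rw [h3, Int.toNat_natCast]
        have h4 : (8 * x) ^ A ≤ x ^ (4 * A) := by
          calc (8 * x) ^ A ≤ (x ^ 4) ^ A := Nat.pow_le_pow_left (h8.trans (Nat.pow_le_pow_right (by omega) (by norm_num))) A
            _ = x ^ (4 * A) := by rw [← pow_mul]
        have h5 : 1 ≤ x ^ (4 * A) := Nat.one_le_pow _ _ (by omega)
        rw [pow_add]
        nlinarith
      calc _ ≤ x ^ 4 * (x ^ (4 * A + 2)) ^ (d + 1) := Nat.mul_le_mul h1 (Nat.pow_le_pow_left h2 _)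
        _ = x ^ (4 + (4 * A + 2) * (d + 1)) := by rw [← pow_mul x, ← pow_add x]
    have hIm : ∀ τ ∈ I, 4 * x ≤ τ.1 ∧ τ.1 ≤ 8 * x ∧ Admissible τ.2 τ.1 := by
      intro τ hτ
      rw [hI, mem_filter, mem_product, mem_Icc] at hτ
      exact ⟨hτ.1.1.1, hτ.1.1.2, hτ.2⟩
    obtain ⟨S, hSP, hSc, hSI⟩ := hx₀ x hx0 (ℕ × (Fin (d + 1) → ℤ)) I (fun τ => FF τ.2 τ.1) (fun τ => (τ.1 : ℤ) - 1) (by
      intro τ hτ
      obtain ⟨h1, h2, h3⟩ := hIm τ hτ
      refine ⟨fun q hq => FF_card h3 hq, ?_, ?_, fun q _ => mem_insert_self _ _, fun q hq => FF_loc h3 hq⟩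
      · have : (4 : ℤ) ≤ τ.1 := by exact_mod_cast (by omega : 4 ≤ τ.1)
        omega
      · have h4 : (4 : ℤ) ≤ τ.1 := by exact_mod_cast (by omega : 4 ≤ τ.1)
        rw [abs_of_nonneg (by omega)]
        have h5 : (τ.1 : ℤ) ≤ ((8 * x : ℕ) : ℤ) := by exact_mod_cast h2
        omega) hIc
    refine ⟨S, ?_, ?_, ?_⟩
    · intro p hp
      have h1 := hSP hp
      unfold PI at h1
      rw [mem_filter, mem_Ioc] at h1
      exact ⟨h1.2, h1.1.1, h1.1.2⟩
    · refine hSc.trans ?_
      apply mul_le_mul_of_nonneg_left _ hC0.le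
      apply pow_le_pow_left₀ (Real.log_natCast_nonneg _)
      rw [hx]
      push_cast
      rw [Real.log_pow]
      have := Real.log_two_lt_d9
      have h0 : (0 : ℝ) ≤ i := Nat.cast_nonneg i
      nlinarith
    · intro _ M hM1 hM2 c hc hadm
      have hmem : (M, c) ∈ I := by
        rw [hI, mem_filter, mem_product, mem_Icc, Fintype.mem_piFinset]
        refine ⟨⟨⟨hM1, hM2⟩, fun j => ?_⟩, hadm⟩
        rw [mem_Icc]
        apply abs_le.1
        refine (hc j).trans ?_
        apply pow_le_pow_left₀ (by positivity)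
        exact_mod_cast hM2
      exact hSI (M, c) hmem
  choose S hS hSc hSM using step
  refine ⟨t, c0 / 4, 2 * C0 / Real.log 2 ^ (d + 3), {p | ∃ i, p ∈ S i}, ht, by positivity, by
    have : 0 < Real.log 2 := Real.log_pos (by norm_num)
    positivity, ?_, ?_, fun M hM => landau_adm hM, val_landau, ?_⟩
  · rintro p ⟨i, hi⟩
    exact (hS i p hi).1
  · intro x hx
    exact union_blocks (d + 2) C0 hC0.le S (fun i p hp => (hS i p hp).2.1) hSc x hx
  · refine ⟨8 * 2 ^ m0, ?_⟩
    intro M hM c hc hadm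
    have hM0 : 0 < 2 ^ m0 := by positivity
    -- the scale
    obtain ⟨i, hi1, hi2⟩ : ∃ i : ℕ, 4 * 2 ^ i ≤ M ∧ M < 8 * 2 ^ i := by
      have hlog : 2 ≤ Nat.log 2 M := (Nat.le_log_iff_pow_le (by norm_num) (by omega)).2 (by omega)
      refine ⟨Nat.log 2 M - 2, ?_, ?_⟩
      · have h1 : 2 ^ Nat.log 2 M ≤ M := Nat.pow_log_le_self 2 (by omega)
        have h2 : 2 ^ Nat.log 2 M = 4 * 2 ^ (Nat.log 2 M - 2) := by
          rw [show (4 : ℕ) = 2 ^ 2 by norm_num, ← pow_add]
          congr 1
          omega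
        omega
      · have h1 : M < 2 ^ (Nat.log 2 M + 1) := Nat.lt_pow_succ_log_self (by norm_num) M
        have h2 : 2 ^ (Nat.log 2 M + 1) = 8 * 2 ^ (Nat.log 2 M - 2) := by
          rw [show (8 : ℕ) = 2 ^ 3 by norm_num, ← pow_add]
          congr 1
          omega
        omega
    have hmi : m0 ≤ i := by
      by_contra hcon
      push Not at hcon
      have h1 : 2 ^ i ≤ 2 ^ m0 := Nat.pow_le_pow_right (by norm_num) hcon.le
      omega
    have hx2 : 4 ≤ 2 ^ i := by
      have : 2 ≤ i := (le_max_right _ _).trans hmi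
      calc 4 = 2 ^ 2 := by norm_num
        _ ≤ 2 ^ i := Nat.pow_le_pow_right (by norm_num) this
    have key := hSM i hmi M hi1 hi2.le c hc hadm
    set x : ℕ := 2 ^ i with hx
    have hMr : (M : ℝ) ≤ ((8 * x : ℕ) : ℝ) := by exact_mod_cast hi2.le
    have hMt : (M : ℝ) ^ (1 / (t : ℝ)) ≤ ((8 * x : ℕ) : ℝ) ^ (1 / (t : ℝ)) :=
      Real.rpow_le_rpow (Nat.cast_nonneg _) hMr (by positivity)
    have hM9 : (M : ℝ) ^ (1 / 9 : ℝ) ≤ ((8 * x : ℕ) : ℝ) ^ (1 / 9 : ℝ) :=
      Real.rpow_le_rpow (Nat.cast_nonneg _) hMr (by positivity)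
    refine ⟨S i ∩ GoodF t (8 * x) x (2 * x) (FF c M) ((M : ℤ) - 1), ?_, ?_⟩
    · intro p hp
      rw [mem_inter] at hp
      have hpS := hS i p hp.1
      have hpg := hp.2
      unfold GoodF at hpg
      rw [mem_filter, mem_Ioc] at hpg
      obtain ⟨⟨p1, p2⟩, pp, pt, ⟨pr1, pr2, pr3⟩, pF⟩ := hpg
      have hpM : p + 1 < M := by omega
      have e : ((M : ℤ) - 1 - p) = ((M - (p + 1) : ℕ) : ℤ) := by
        rw [Nat.cast_sub hpM.le]
        push_cast
        ring
      refine ⟨⟨i, hp.1⟩, hpM, ?_, ?_, ?_⟩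
      · refine ((P2_iff (show 1 < M - (p + 1) by omega) _).2 ⟨?_, fun q hq hd => ?_⟩ :
          P2 ((M : ℝ) ^ (1 / 9 : ℝ)) (M - (p + 1)))
        · rw [e, Int.natAbs_natCast] at pr2
          exact pr2
        · refine lt_of_le_of_lt hM9 (pr3 q hq ?_)
          rw [e]
          exact_mod_cast hd
      · intro q hq hd
        by_contra hcon
        push Not at hcon
        apply pF q hq (hcon.trans hMt) ((M : ℤ) - 1) (mem_insert_self _ _)
        have e2 : (M : ℤ) - 1 - p = M - (p + 1) := by ring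
        rw [e2]
        exact hd
      · intro q hq hd
        by_contra hcon
        push Not at hcon
        apply pF q hq (hcon.trans hMt) (((p % q : ℕ) : ℤ))
        · unfold FF
          apply mem_insert_of_mem
          rw [mem_image]
          refine ⟨p % q, ?_, rfl⟩
          rw [mem_filter, mem_range]
          exact ⟨Nat.mod_lt _ hq.pos, (val_mod c q p).1 hd⟩
        · push_cast
          exact (Int.mod_modEq _ _).symm.dvd
    · refine le_trans ?_ key
      have hl2 : 0 < Real.log 2 := Real.log_pos (by norm_num)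
      have h1 : Real.log M ≤ 4 * Real.log ((x : ℕ) : ℝ) := by
        have h2 : (M : ℝ) ≤ ((x : ℕ) : ℝ) ^ 4 := by
          have h3 : M ≤ x ^ 4 := by
            have h4 : 64 * x ≤ x ^ 4 := by
              calc 64 * x = 4 * 4 * 4 * x := by ring
                _ ≤ x * x * x * x := Nat.mul_le_mul_right x (Nat.mul_le_mul (Nat.mul_le_mul hx2 hx2) hx2)
                _ = x ^ 4 := by ring
            omega
          exact_mod_cast h3
        have h4 := Real.log_le_log (by exact_mod_cast (by omega : 0 < M)) h2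
        rwa [Real.log_pow, Nat.cast_ofNat] at h4
      nlinarith [hc0]

end Pool.Agent.Results.MP_7169d5_nt.EveryOddNumber
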