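import Pool.Agent.Q273.CH.Quad

set_option autoImplicit false

/-!
# Almost prime values of `m ^ 2 + a` at every term of a sequence of integer parts

Let `-a` be no perfect square (for instance `a = 1`), let `x_n → ∞` be positive reals with
`x_{n+1} ≥ x_n ^ C` for all large `n`, where `C > 1` is arbitrary if `r = 5`, `C > 500 / 462` if
`r = 4` and `C > 20 / 11` if `r = 3`. In every interval the set of the real numbers `α` such that,
with `m = ⌊α x_n⌋`, the number `m ^ 2 + a` has at most `r` prime factors, all of them at least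
`m ^ z`, for ALL large `n`, has Hausdorff dimension one.
-/

namespace Pool.Agent.Results.MP_7169d5_nt.EveryTermAlmostPrime

open Filter Topology

/-- `m ^ 2 + a` has at most `r` prime factors, counted with multiplicity, and each of them is at
least `m ^ z`. -/
def AlmostPrimeValue (a : ℤ) (r : ℕ) (z : ℝ) (m : ℕ) : Prop :=
  ((m : ℤ) ^ 2 + a).natAbs.primeFactorsList.length ≤ r ∧
    ∀ p : ℕ, p.Prime → (p : ℤ) ∣ (m : ℤ) ^ 2 + a → (m : ℝ) ^ z ≤ p

/-- **Almost prime values of `m ^ 2 + a` at every term.** Let `-a` be no perfect square and let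
`r = 5`, `1 / 2 ≤ t < 1`, `z = 2 t / 5`, or `r = 4`, `269 / 500 ≤ t < 1`, `z = t / 4`, or `r = 3`,
`29 / 40 ≤ t < 1`, `z = t / 4`. Let `C (2 - 2 t) > 1` and let `x_n → ∞` be any sequence of positive
reals with `x_{n+1} ≥ x_n ^ C` for large `n`. For `0 < u < v` the set of the `α` in `(u, v)` such
that, for all large `n`, the number `m ^ 2 + a` with `m = ⌊α x_n⌋` has at most `r` prime factors,
all of them at least `m ^ z`, has Hausdorff dimension one. -/
theorem result (a : ℤ) (ha : ¬ IsSquare (-a)) (r : ℕ) (t z : ℝ)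
    (hpar : (r = 5 ∧ 1 / 2 ≤ t ∧ z = 2 / 5 * t) ∨ (r = 4 ∧ 269 / 500 ≤ t ∧ z = t / 4) ∨
      (r = 3 ∧ 29 / 40 ≤ t ∧ z = t / 4)) (ht : t < 1) (C : ℝ) (hC : 1 < C * (2 - 2 * t))
    (x : ℕ → ℝ) (hx : ∀ n, 0 < x n) (hxt : Tendsto x atTop atTop)
    (hgrow : ∀ᶠ n in atTop, (x n) ^ C ≤ x (n + 1)) (u v : ℝ) (hu : 0 < u) (huv : u < v) :
    dimH {α : ℝ | u < α ∧ α < v ∧ ∀ᶠ n in atTop, AlmostPrimeValue a r z ⌊α * x n⌋₊} = 1 :=
  Pool.Agent.Q273.CH.quad_dim a ha r t z hpar ht C hC x hx hxt hgrow u v hu huv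

end Pool.Agent.Results.MP_7169d5_nt.EveryTermAlmostPrime
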