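import Pool.Agent.Q236.JC.Sys
import Pool.Agent.Y879.GL.QuadU

set_option autoImplicit false

/-!
# Jumping champions for almost primes and polynomials

The jumping champions are the most frequent gaps between consecutive primes; they are believed to be divisible by
every fixed prime from some point on (Odlyzko, Rubinstein, Wolf; Goldston and Ledoan on the pair conjecture of
Hardy and Littlewood). This is proved here for almost primes, and more generally for the `m` for which the values of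
several polynomials have no prime factor `≤ X ^ (1 / r)`, uniformly in all systems of `k` irreducible polynomials of
degree at most `D` with coefficients at most `log ^ E X`, and in all intervals `(Z, Z + Y]`, `Y ≥ X ^ θ`: for every `q₀`,
if `r ≥ r₀ (q₀)` and `X` is large, each most frequent gap is divisible by all primes `q ≤ q₀` which divide a value
of the polynomials.

Method: a gap `t` of size `o (1 / V)` occurs `Y V(0, t) (1 + O* (ε))` times, where `V(0, t)` is the density of the pairs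
(conditional Poisson law of `Pool.Agent.Q236.CP`). Let `t₀` be the product of the primes `≤ z`, `z = (log log X) / 2`.
Then `V(0, t₀) ≥ (1 + 1 / q) V(0, t) (1 - ε)` if `q` does not divide `t` and `t ≤ 2 / V ^ 2`: for each prime `p ≤ z` the
pair `0, t₀` excludes the fewest classes; and few primes `> z` divide the resultants of `f_i (x)` and
`f_j (x + t)`. The gaps `t > 2 / V ^ 2` are rarer than `Y V ^ 2 / 2 + 2`.
-/

namespace Pool.Agent.Results.MP_7169d5_nt.JumpingChampions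

open Finset Filter Polynomial

/-- The number `ω_F(p)` of the residues `n` modulo `p` for which `p` divides the product of the `f_j (n)`. -/
def ω {k : ℕ} (F : Fin k → ℤ[X]) (p : ℕ) : ℕ :=
  ((Finset.range p).filter (fun n : ℕ => (p : ℤ) ∣ ∏ i, (F i).eval (n : ℤ))).card

/-- The product of `1 - ω_F(p) / p` over the primes `p ≤ y`. -/
noncomputable def W {k : ℕ} (y : ℕ) (F : Fin k → ℤ[X]) : ℝ :=
  ∏ p ∈ (Finset.Icc 1 y).filter Nat.Prime, (1 - (ω F p : ℝ) / p)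

/-- A system of irreducible nonconstant polynomials of degrees at most `D`, with coefficients at most `H`,
without fixed prime divisor, and such that no `f_i` is `± f_j` shifted by `1 ≤ t ≤ U`. -/
structure System {k : ℕ} (D : ℕ) (H U : ℝ) (F : Fin k → ℤ[X]) : Prop where
  irr : ∀ i, Irreducible (F i)
  deg : ∀ i, (F i).natDegree ≠ 0
  degD : ∀ i, (F i).natDegree ≤ D
  height : ∀ i n, |(((F i).coeff n : ℤ) : ℝ)| ≤ H
  adm : ∀ p : ℕ, p.Prime → ω F p < p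
  shift : ∀ i j, ∀ t : ℕ, 1 ≤ t → (t : ℝ) ≤ U →
    F i ≠ (F j).comp (X + C (t : ℤ)) ∧ F i ≠ -(F j).comp (X + C (t : ℤ))

/-- No prime `p ≤ X ^ (1 / r)` divides any of the `f_j (m)`. -/
def Good {k : ℕ} (X : ℕ) (F : Fin k → ℤ[X]) (r m : ℕ) : Prop :=
  ∀ p : ℕ, p.Prime → (p : ℝ) ≤ (X : ℝ) ^ (1 / (r : ℝ)) → ∀ i, ¬ (p : ℤ) ∣ (F i).eval (m : ℤ)

/-- `m` and `m + g` are consecutive elements of `S`. -/
def Gap (S : ℕ → Prop) (g m : ℕ) : Prop := S m ∧ S (m + g) ∧ ∀ j : ℕ, 1 ≤ j → j < g → ¬ S (m + j)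

open Classical in
/-- The number of the gaps `g` between consecutive elements of `S` which begin in `(Z, Z + Y]`. -/
noncomputable def freq (S : ℕ → Prop) (Z Y g : ℕ) : ℕ :=
  ((Finset.Ioc Z (Z + Y)).filter (fun m => Gap S g m)).card

/-- `g` is one of the most frequent gaps between consecutive elements of `S` which begin in `(Z, Z + Y]`. -/
def Champion (S : ℕ → Prop) (Z Y g : ℕ) : Prop :=
  1 ≤ g ∧ ∀ g' : ℕ, 1 ≤ g' → freq S Z Y g' ≤ freq S Z Y g

open Pool.Agent.W123.RU Pool.Agent.H373R2.T7 Pool.Agent.TH464.PO Pool.Agent.W123.RP Pool.Agent.Q236.GW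
open Pool.Agent.Y879.GL Pool.Agent.Q236.EV Pool.Agent.Q236.JC
open Pool.Agent.W123.RU.Poly (Q)

lemma Q_iff {k : ℕ} (F : Fin k → ℤ[X]) (p m : ℕ) (hp : p.Prime) :
    Q F p m ↔ (p : ℤ) ∣ ∏ i, (F i).eval (m : ℤ) := by
  have hpi : Prime (p : ℤ) := Nat.prime_iff_prime_int.1 hp
  unfold Q
  rw [hpi.dvd_finsetProd_iff]
  exact ⟨fun ⟨i, hi⟩ => ⟨i, Finset.mem_univ i, hi⟩, fun ⟨i, _, hi⟩ => ⟨i, hi⟩⟩

lemma nu_eq {k : ℕ} (F : Fin k → ℤ[X]) (p : ℕ) (hp : p.Prime) : nuB (Q F) p = ω F p := by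
  unfold nuB ω
  exact card_iff _ _ (fun m _ => Q_iff F p m hp)

lemma W_eq {k : ℕ} (y : ℕ) (F : Fin k → ℤ[X]) : Vq (Q F) y = W y F := by
  unfold Vq W
  have h1 : pz y = (Finset.Icc 1 y).filter Nat.Prime := by
    ext p
    rw [mem_pz, Finset.mem_filter, Finset.mem_Icc]
    exact ⟨fun h => ⟨⟨h.2.one_lt.le, h.1⟩, h.2⟩, fun h => ⟨h.1.2, h.2⟩⟩
  rw [h1]
  apply Finset.prod_congr rfl
  intro p hp
  rw [nu_eq F p (Finset.mem_filter.1 hp).2]

lemma good_iff {k : ℕ} (X : ℕ) (F : Fin k → ℤ[X]) (r m : ℕ) :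
    Sf (Q F) ⌊(X : ℝ) ^ (1 / (r : ℝ))⌋₊ m ↔ Good X F r m := by
  have h0 : (0 : ℝ) ≤ (X : ℝ) ^ (1 / (r : ℝ)) := by positivity
  constructor
  · intro h q hq hqn i hd
    exact h q (mem_pz.2 ⟨Nat.le_floor hqn, hq⟩) ⟨i, hd⟩
  · rintro h q hq ⟨i, hi⟩
    exact h q (mem_pz.1 hq).2 (mem_pz' h0 hq) i hi

lemma toUS {k D : ℕ} {H U : ℝ} {F : Fin k → ℤ[X]} (h : System D H U F) : US k D H U F where
  irr := h.irr
  deg := h.deg
  degD := h.degD
  hgt := h.height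
  adm p hp := by
    obtain ⟨m, _, hm⟩ := nu_exists (Q F) p (by rw [nu_eq F p hp]; exact h.adm p hp)
    exact ⟨m, fun i hi => hm ⟨i, hi⟩⟩
  tr i j t ht htU hass := by
    rcases assoc_cases hass with h1 | h1
    · exact (h.shift i j t ht htU).1 h1
    · exact (h.shift i j t ht htU).2 h1

lemma few (X r K m : ℕ) (hr : 1 ≤ r) (hX : 2 ^ r ≤ X) (hm : 0 < m) (hmX : m ≤ X ^ K)
    (h : ∀ p : ℕ, p.Prime → p ∣ m → (X : ℝ) ^ (1 / (r : ℝ)) < (p : ℝ)) :
    m.primeFactorsList.length ≤ K * r := by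
  have hr0 : (r : ℝ) ≠ 0 := by exact_mod_cast (by omega : r ≠ 0)
  have hX1 : (1 : ℝ) ≤ X := by
    have : 1 ≤ 2 ^ r := Nat.one_le_two_pow
    exact_mod_cast this.trans hX
  have hz1 : 1 ≤ (X : ℝ) ^ (1 / (r : ℝ)) := Real.one_le_rpow hX1 (by positivity)
  apply length_le m (K * r) (by omega) _ h _ hz1
  have e : ((X : ℝ) ^ (1 / (r : ℝ))) ^ r = X := by
    rw [← Real.rpow_natCast, ← Real.rpow_mul (by linarith), one_div, inv_mul_cancel₀ hr0, Real.rpow_one]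
  have hmX' : (m : ℝ) ≤ (X : ℝ) ^ K := by exact_mod_cast hmX
  rw [pow_succ, mul_comm K r, pow_mul, e]
  have h0 : (0 : ℝ) ≤ (X : ℝ) ^ K := by positivity
  nlinarith

/-- **Jumping champions for almost primes and polynomials.** -/
theorem result (k D E q₀ : ℕ) :
    (1 ≤ k → ∀ F : Fin k → ℤ[X], (∀ i, Irreducible (F i)) → (∀ i, 0 < (F i).natDegree) →
      (∀ i, 0 < (F i).leadingCoeff) → Function.Injective F → (∀ p : ℕ, p.Prime → ω F p < p) →
      ∃ c C : ℝ, 0 < c ∧ 0 < C ∧ ∀ y : ℕ, 3 ≤ y → c / Real.log y ^ k ≤ W y F ∧ W y F ≤ C / Real.log y ^ k) ∧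
    (∀ (X r K : ℕ) (F : Fin k → ℤ[X]) (m : ℕ), 1 ≤ r → 2 ^ r ≤ X → Good X F r m →
      ∀ i, 0 < ((F i).eval (m : ℤ)).natAbs → ((F i).eval (m : ℤ)).natAbs ≤ X ^ K →
        ((F i).eval (m : ℤ)).natAbs.primeFactorsList.length ≤ K * r) ∧
    (∀ θ : ℝ, 0 < θ → ∃ r₀ : ℕ, 2 ≤ r₀ ∧ ∀ r : ℕ, r₀ ≤ r → ∀ C : ℝ, 0 < C → ∀ᶠ X : ℕ in atTop,
      ∀ F : Fin k → ℤ[X], System D (Real.log X ^ E) X F → W X F ≤ C / Real.log X →
        ∀ Z Y : ℕ, (X : ℝ) ^ θ ≤ Y → ∀ g : ℕ, Champion (Good X F r) Z Y g →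
          ∀ q : ℕ, q.Prime → q ≤ q₀ → 1 ≤ ω F q → q ∣ g) ∧
    (∀ θ : ℝ, 0 < θ → ∃ r₀ : ℕ, 2 ≤ r₀ ∧ ∀ r : ℕ, r₀ ≤ r → ∀ᶠ X : ℕ in atTop,
      ∀ Z Y : ℕ, (X : ℝ) ^ θ ≤ Y → ∀ g : ℕ,
        Champion (fun a => ∀ p : ℕ, p.Prime → p ∣ a ^ 2 + 1 → (X : ℝ) ^ (1 / (r : ℝ)) < p) Z Y g →
          ∀ q : ℕ, q.Prime → q ≤ q₀ → q % 4 ≠ 3 → q ∣ g) := by
  have hfixed : ∀ k : ℕ, (1 ≤ k → ∀ F : Fin k → ℤ[X], (∀ i, Irreducible (F i)) → (∀ i, 0 < (F i).natDegree) →
      (∀ i, 0 < (F i).leadingCoeff) → Function.Injective F → (∀ p : ℕ, p.Prime → ω F p < p) →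
      ∃ c C : ℝ, 0 < c ∧ 0 < C ∧ ∀ y : ℕ, 3 ≤ y → c / Real.log y ^ k ≤ W y F ∧ W y F ≤ C / Real.log y ^ k) := by
    intro k hk F hirr hdeg hlead hinj hadm
    have hsys : Pool.Agent.W123.RU.Poly.Sys F := ⟨hirr, hdeg, hlead, hinj, fun p hp => by
      obtain ⟨m, _, hm⟩ := nu_exists (Q F) p (by rw [nu_eq F p hp]; exact hadm p hp)
      exact ⟨m, fun i hi => hm ⟨i, hi⟩⟩⟩
    have : Nonempty (Fin k) := ⟨⟨0, by omega⟩⟩
    obtain ⟨v, Cv, hv, hCv, hV⟩ := Pool.Agent.W123.RU.Poly.V_bounds F hsys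
    refine ⟨v, Cv, hv, hCv, fun X hX => ?_⟩
    have h1 := hV X hX
    rw [Fintype.card_fin, W_eq] at h1
    exact h1
  have hgood : ∀ (k : ℕ) (X : ℕ) (F : Fin k → ℤ[X]) (r : ℕ),
      Sf (Q F) ⌊(X : ℝ) ^ (1 / (r : ℝ))⌋₊ = Good X F r := by
    intro k X F r
    funext m
    exact propext (good_iff X F r m)
  refine ⟨hfixed k, ?_, ?_, ?_⟩
  · intro X r K F m hr hX hG i h1 h2
    apply few X r K _ hr hX h1 h2
    intro p hp hd
    by_contra hcon
    rw [not_lt] at hcon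
    exact hG p hp hcon i (Int.natCast_dvd.2 hd)
  · intro θ hθ
    obtain ⟨r₀, hr₀, h⟩ := champ_sys k D E (max q₀ 2) (le_max_right _ _) θ hθ
    refine ⟨r₀, hr₀, ?_⟩
    intro r hr C hC
    filter_upwards [h r hr C hC] with X hX
    intro F hF hV Z Y hY g hg q hq hq0 hω
    rw [← W_eq] at hV
    refine hX F (toUS hF) hV Z Y hY g hg.1 ?_ q hq (hq0.trans (le_max_left _ _)) (by rw [nu_eq F q hq]; exact hω)
    intro g' hg'
    rw [hgood]
    exact hg.2 g' hg'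
  · intro θ hθ
    obtain ⟨r₀, hr₀, h⟩ := champ_sys 1 2 1 (max q₀ 2) (le_max_right _ _) θ hθ
    refine ⟨r₀, hr₀, ?_⟩
    intro r hr
    have hsys := qs_sys 1 0 1 one_pos (fun p hp hd => hp.one_lt.ne' (by
        have := hd.1
        exact Nat.dvd_one.1 (by exact_mod_cast this))) (by
        rintro ⟨h1, h2⟩
        exact absurd h1 (by decide)) (by
        rintro ⟨s, hs⟩
        nlinarith [mul_self_nonneg s])
    obtain ⟨v, Cv, hv, hCv, hV⟩ := Pool.Agent.W123.RU.Poly.V_bounds (qs 1 0 1) hsys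
    have hlogX : Tendsto (fun X : ℕ => Real.log (X : ℝ)) atTop atTop :=
      Real.tendsto_log_atTop.comp tendsto_natCast_atTop_atTop
    filter_upwards [h r hr Cv hCv, eventually_ge_atTop 3, hlogX.eventually_ge_atTop 1] with X hX hX3 hX1
    intro Z Y hY g hg q hq hq0 hq4
    have hUS : US 1 2 (Real.log X ^ 1) X (qs 1 0 1) := by
      refine us_single (Pool.Agent.TH464.PW.quad 1 0 1) (hsys.irr 0) (hsys.deg 0).ne' 2 ?_ _ _ ?_ ?_
      · rw [Pool.Agent.TH464.PW.quad_deg 1 0 1 one_ne_zero]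
      · intro n
        have h4 := Pool.Agent.Y879.GL.quad_coeff 1 0 1 n 1 (by norm_num) (by norm_num) (by norm_num)
        have h5 : |(((Pool.Agent.TH464.PW.quad 1 0 1).coeff n : ℤ) : ℝ)| ≤ 1 := by exact_mod_cast h4
        rw [pow_one]
        linarith
      · intro p hp
        obtain ⟨m, hm⟩ := hsys.adm p hp
        exact ⟨m, hm 0⟩
    have hS : Sf (Q (qs 1 0 1)) ⌊(X : ℝ) ^ (1 / (r : ℝ))⌋₊ =
        (fun a => ∀ p : ℕ, p.Prime → p ∣ a ^ 2 + 1 → (X : ℝ) ^ (1 / (r : ℝ)) < p) := by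
      rw [hgood]
      funext a
      apply propext
      unfold Good qs
      have hev : ∀ p : ℕ, ((p : ℤ) ∣ (Pool.Agent.TH464.PW.quad 1 0 1).eval (a : ℤ)) ↔ p ∣ a ^ 2 + 1 := by
        intro p
        rw [Pool.Agent.TH464.PW.quad_eval]
        have : (1 : ℤ) * (a : ℤ) ^ 2 + 0 * a + 1 = ((a ^ 2 + 1 : ℕ) : ℤ) := by push_cast; ring
        rw [this]
        exact Int.natCast_dvd_natCast
      constructor
      · intro h p hp hd
        by_contra hcon
        rw [not_lt] at hcon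
        exact h p hp hcon 0 ((hev p).2 hd)
      · intro h p hp hpX i hd
        exact absurd (h p hp ((hev p).1 hd)) (not_lt.2 hpX)
    have hV' := (hV X hX3).2
    rw [Fintype.card_fin, pow_one] at hV'
    refine hX (qs 1 0 1) hUS hV' Z Y hY g hg.1 ?_ q hq (hq0.trans (le_max_left _ _)) ?_
    · intro g' hg'
      rw [hS]
      exact hg.2 g' hg'
    · have hfact : Fact q.Prime := ⟨hq⟩
      obtain ⟨s, hs⟩ := (ZMod.exists_sq_eq_neg_one_iff (p := q)).2 hq4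
      have h5 : q ∣ s.val ^ 2 + 1 := by
        rw [← CharP.cast_eq_zero_iff (ZMod q) q]
        push_cast
        rw [ZMod.natCast_zmod_val, pow_two, ← hs]
        ring
      classical
      unfold nuB
      apply card_pos.2
      refine ⟨s.val, ?_⟩
      rw [mem_filter, mem_range]
      refine ⟨ZMod.val_lt s, ?_⟩
      rw [qs_Q]
      have : (1 : ℤ) * (s.val : ℤ) ^ 2 + 0 * s.val + 1 = ((s.val ^ 2 + 1 : ℕ) : ℤ) := by push_cast; ring
      rw [this]
      exact Int.natCast_dvd_natCast.2 h5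

end Pool.Agent.Results.MP_7169d5_nt.JumpingChampions
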