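import Pool.Agent.Q200.HGA.Mem
import Pool.Agent.NPC.Classes

/-!
# Recognising `(AB)^{t/2}`-free hypergraphs is NP-complete for every `t ≥ 4`

The input is the incidence matrix of the hypergraph, with one row for each vertex and one column
for each hyperedge.

The case `t = 4` is a reduction from satisfiability in conjunctive normal form, through
non-separation constraints on a cyclic order: a quadruple `(a, b, c, d)` of distinct elements is the
constraint that the pairs `{a, c}` and `{b, d}` do not separate each other.  Each element `u` has
the vertices `(u, 0), ..., (u, T)`, where `T` is the number of constraints.  The hyperedges are the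
sets `{(u, i) : i ≤ T}`, the set `{(u, 0) : u}` and, for each constraint `j`, the two sets
`{(u, i) : i ≤ j} ∪ {(a, j + 1), (c, j + 1)}` and `{(u, i) : i ≤ j} ∪ {(b, j + 1), (d, j + 1)}`.

The step from `t` to `t + 2` (and from `4` to `5`) replaces every hyperedge `A` by the hyperedges
`A ∪ {p_i}` for new vertices `p_1, ..., p_k`, and adds the hyperedges `V` and `{p_1, ..., p_k}`.
-/

set_option autoImplicit false

namespace Pool.Agent.Results.MP_71902e_lc.NPCompleteFromFour

open Pool.Agent.NPC Q200.HGA

/-- **For every `t ≥ 4` the recognition of `(AB)^{t/2}`-free hypergraphs is NP-complete**: the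
problem is in `NP`, every language in `NP` has a polynomial-time many-one reduction to it, and it
has a polynomial-time algorithm if and only if `P = NP`. -/
theorem result (t : ℕ) (ht : 4 ≤ t) :
    InNPP (RecAltFree t) ∧ NPHardP (RecAltFree t) ∧
    (InPP (RecAltFree t) ↔ ∀ L : Set (List Bool), InNP L → InP L) :=
  ⟨inNPP (by omega), (hardI_all ht).toNPHardP,
    fun h => NPHard.collapse (hardI_all ht).toNPHardP h, fun h => h _ (inNPP (by omega))⟩

end Pool.Agent.Results.MP_71902e_lc.NPCompleteFromFour
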