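import Pool.Agent.Q54.ZE.Lfun

/-!
# Zeros and poles of zeta functions and L-functions and cubic hypersurfaces

For a finite set `H` of triples `(i, j, k)` let `E_H` be the hypersurface
`∑_{(i, j, k) ∈ H} x_i y_j z_k = 1` in an affine space over `ℤ` (`tripS ℤ H`). Let `S` be a set of
complex numbers which is invariant under translation by `1`, for example the set of all complex
numbers, or the set of all `s` such that `2 Re s` is an integer. We show, without any hypothesis:

* the zeta functions of all schemes of finite type over `ℤ` are meromorphic in the plane with all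
  zeros and poles in `S` if and only if this is true for the hypersurfaces `E_H`;
* if it is true for the hypersurfaces `E_H`, then the Hasse-Weil L-functions
  `∏_{p ∤ N} ∏_k (1 - α_{p,k} p^(-s))⁻¹` are meromorphic in the plane with all zeros and poles in `S`,
  for all schemes `X` of finite type over `ℤ[1/N]` whose numbers of points are
  `#X(𝔽_q) = ∑_l c_l q^(t_l) + ε ∑_k α_{p,k}^n` for `q = p^n`, for example for the group `H^i` of a
  smooth projective scheme `X` over `ℤ[1/N]` such that all the other cohomology groups of the fibres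
  are spanned by Tate classes over `𝔽_p` (curves, complete intersections, and so on).
-/

namespace Pool.Agent.Results.MP_7193be_nt.CubicsDecideZeros

open Q54.ZE CategoryTheory AlgebraicGeometry Pool.Agent.Y116.UV

/-- `L` is, on some right half-plane, equal to a meromorphic function in the plane all of whose zeros
and poles are in `S`. -/
def ContinuesIn (S : Set ℂ) (L : ℂ → ℂ) : Prop :=
  ∃ F : ℂ → ℂ, (MeromorphicOn F Set.univ ∧ ∀ s ∉ S, meromorphicOrderAt F s = 0) ∧
    ∃ σ : ℝ, ∀ s : ℂ, σ < s.re → F s = L s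

/-- The zeta function of the scheme `X`. -/
noncomputable def zeta (X : Scheme.{0}) (s : ℂ) : ℂ :=
  ∏' x : {x : X // IsClosed ({x} : Set X)}, (1 - ((Nat.card (X.residueField x.1) : ℂ) ^ (-s)))⁻¹

/-- The numbers of points of the scheme `X` over `ℤ[1/N]` are
`#X(𝔽_q) = ∑_l c_l q^(t_l) + ε ∑_k α_{p,k}^n` for all `q = p^n` with `p` prime to `N`. -/
def PointsAre (N : ℕ) (X : Scheme.{0}) {b r : ℕ} (c : Fin r → ℤ) (t : Fin r → ℕ) (ε : ℤ)
    (α : Nat.Primes → Fin b → ℂ) : Prop :=
  ∀ x : Nat.Primes × ℕ, ¬ x.1.1 ∣ N → (ptCount X x : ℂ) =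
    ∑ l, (c l : ℂ) * (x.1.1 : ℂ) ^ ((x.2 + 1) * t l) + ε * ∑ k, α x.1 k ^ (x.2 + 1)

lemma continues_iff (S : Set ℂ) (X : Sch ℤ) : ContinuesIn S (zeta X.left) ↔ ZMer S X :=
  ⟨fun ⟨F, hF, h⟩ => ⟨F, ⟨hF.1, hF.2⟩, h⟩, fun ⟨F, hF, h⟩ => ⟨F, ⟨hF.mero, hF.order⟩, h⟩⟩

/-- **Zeros and poles of zeta functions and L-functions are decided by the hypersurfaces of
tripartite hypergraphs.** -/
theorem result (S : Set ℂ) (hS : ∀ s, s + 1 ∈ S ↔ s ∈ S) :
    ((∀ (X : Scheme.{0}) (f : X ⟶ Spec (CommRingCat.of ℤ)),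
        LocallyOfFiniteType f → QuasiCompact f → ContinuesIn S (zeta X)) ↔
      ∀ (a b c : ℕ) (H : Finset (Fin a × Fin b × Fin c)),
        ContinuesIn S (zeta (tripS ℤ H).left)) ∧
    ((∀ (a b c : ℕ) (H : Finset (Fin a × Fin b × Fin c)),
        ContinuesIn S (zeta (tripS ℤ H).left)) →
      ∀ (N : ℕ) (X : Scheme.{0}) (f : X ⟶ Spec (CommRingCat.of (ZN N))),
        LocallyOfFiniteType f → QuasiCompact f →
        ∀ (b r : ℕ) (c : Fin r → ℤ) (t : Fin r → ℕ) (ε : ℤ) (α : Nat.Primes → Fin b → ℂ) (w : ℝ),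
          ε * ε = 1 → (∀ p k, ‖α p k‖ ≤ (p.1 : ℝ) ^ w) → PointsAre N X c t ε α →
          ContinuesIn S (hasseWeil N α)) := by
  have hft : ∀ (a b c : ℕ) (H : Finset (Fin a × Fin b × Fin c)), FT False (tripS ℤ H) :=
    fun a b c H => ft_aff False
  have hall : (∀ (a b c : ℕ) (H : Finset (Fin a × Fin b × Fin c)),
      ContinuesIn S (zeta (tripS ℤ H).left)) → ∀ X : Sch ℤ, FT False X → ZMer S X :=
    fun h X hX => all_of_trip hS (fun a b c H => (continues_iff S _).1 (h a b c H)) X hX
  refine ⟨⟨fun h a b c H => ?_, fun h X f hf hq => ?_⟩, ?_⟩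
  · exact h _ (tripS ℤ H).hom (hft a b c H).locallyOfFiniteType (hft a b c H).quasiCompact
  · exact (continues_iff S (Over.mk f)).2 (hall h (Over.mk f) ⟨hf, hq, fun h => h.elim⟩)
  · intro h N X f hf hq b r c t ε α w hε hw hc
    obtain ⟨F, hF, h1⟩ := hasseWeil_noDiv (hall h) f hf hq hw c t hε hc
    exact ⟨F, ⟨hF.mero, hF.order⟩, h1⟩

end Pool.Agent.Results.MP_7193be_nt.CubicsDecideZeros
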