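import Pool.Agent.Q255.SG.Comp

/-!
# The modulus on the edge line and the Euler factors determine each other, uniformly

`X` is a projective smooth scheme over `ℤ[1/M]`, `i` a cohomological degree and `b` the Betti number
`b_i(X)`; `L(i; X, s) = ∏_{p ∤ M} P_i(X(p), p^{-s})⁻¹`, `P_i(X(p), T) ∈ ℤ[T]`.  Nothing is known in
general about the continuation of `L(i; X, s)` to the edge `Re s = i/2 + 1` of absolute convergence.
For all `X` with the same `b` and `i` at once, and hence without any dependence on `M`, on the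
dimension, or on any conductor, we prove that `|L(i; X, s)|` on segments of the edge line and the
polynomials `P_i(X(p), T)` at the small primes determine each other.  Agreement of the polynomials for
`p < x` makes the logarithms of the moduli close in mean square on every unit interval, with the error
`C / log x`.  In the other direction the polynomials at all `p ≤ x` can be read off from the modulus on
any one segment of length `C x^{b (3 i + 4)}`, at any height, even from its values up to an error of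
mean square `1/(C x^{2 b (i + 1)})`.  It follows that the set of all these moduli is compact in the
Stepanov topology, and homeomorphic to a product of finite sets.

No continuation, no functional equation and no automorphy is used or assumed.
-/

set_option autoImplicit false

namespace Pool.Agent.Results.MP_7193be_nt.EdgeRigidity

open Filter Topology Polynomial MeasureTheory

/-- The integral polynomials `P p`, `p` prime, are the Euler factors of an `L`-function of weight `i`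
and rank `b`: `P_p(T) = ∏_{j < b} (1 - α_j T)` with complex numbers `α_j` (some of them possibly `0`)
of absolute value at most `p^{i/2}`.  For `X` over `ℤ[1/M]` as in the problem, with `b = b_i(X)`, this
holds for `P_p = P_i(X(p), T)`, `p ∤ M`, and `P_p = 1`, `p ∣ M`, by the theorem of Deligne. -/
def IsEulerSystem (b i : ℕ) (P : ℕ → ℤ[X]) : Prop :=
  ∀ p : ℕ, p.Prime → ∃ α : Fin b → ℂ, (∀ j, ‖α j‖ ≤ (p : ℝ) ^ ((i : ℝ) / 2)) ∧
    (P p).map (Int.castRingHom ℂ) = ∏ j, (1 - C (α j) * X)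

/-- The Euler product `∏_p P_p(p^{-s})⁻¹`. -/
noncomputable def LFun (P : ℕ → ℤ[X]) (s : ℂ) : ℂ :=
  ∏' p : Nat.Primes, (aeval (((p : ℕ) : ℂ) ^ (-s)) (P p))⁻¹

/-- The point `i/2 + 1 + iτ` of the edge of absolute convergence. -/
noncomputable def edgePoint (i : ℕ) (τ : ℝ) : ℂ := (((i : ℝ) / 2 + 1 : ℝ) : ℂ) + (τ : ℂ) * Complex.I

/-- The angle `|s - s_τ| ≤ K (Re s - (i/2 + 1))` at `s_τ = i/2 + 1 + iτ` in the half-plane
`Re s > i/2 + 1`. -/
def angle (i : ℕ) (τ K : ℝ) : Set ℂ :=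
  {s : ℂ | (i : ℝ) / 2 + 1 < s.re ∧ ‖s - edgePoint i τ‖ ≤ K * (s.re - ((i : ℝ) / 2 + 1))}

/-- `l` is the boundary function of the `L`-function on the edge line, outside a set of Hausdorff
dimension `0`: its values are not zero, and they are the limits of the partial Euler products and of
the `L`-function in every angle. -/
def IsBoundaryFunction (i : ℕ) (P : ℕ → ℤ[X]) (l : ℝ → ℂ) : Prop :=
  ∃ T : Set ℝ, dimH T = 0 ∧ ∀ τ : ℝ, τ ∉ T → l τ ≠ 0 ∧
    Tendsto (fun x : ℕ => ∏ p ∈ Nat.primesBelow x, (aeval ((p : ℂ) ^ (-edgePoint i τ)) (P p))⁻¹)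
      atTop (𝓝 (l τ)) ∧
    ∀ K : ℝ, Tendsto (LFun P) (𝓝[angle i τ K] (edgePoint i τ)) (𝓝 (l τ))

/-- The integral of `(log |l| - log |l'|)²` over `[a, a + L]`. -/
noncomputable def dist2 (l l' : ℝ → ℂ) (a L : ℝ) : ENNReal :=
  ∫⁻ t in Set.Icc a (a + L), ENNReal.ofReal ((Real.log ‖l t‖ - Real.log ‖l' t‖) ^ 2)

theorem null_of_dimH {T : Set ℝ} (hT : dimH T = 0) : volume T = 0 := by
  have h1 : (Measure.hausdorffMeasure (1 : ℝ) : Measure ℝ) T = 0 := by
    have := hausdorffMeasure_of_dimH_lt (X := ℝ) (s := T) (d := 1) (by rw [hT]; norm_num)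
    simpa using this
  rw [← MeasureTheory.hausdorffMeasure_real]
  exact h1

theorem exists_alpha {b i : ℕ} {P : ℕ → ℤ[X]} (hP : IsEulerSystem b i P) :
    ∃ α : ℕ → Fin b → ℂ, Pool.Agent.Q255.SG.Bd (i : ℝ) α ∧
      ∀ p : ℕ, p.Prime → (P p).map (Int.castRingHom ℂ) = Pool.Agent.Q255.SG.PP1 (α p) := by
  classical
  refine ⟨fun p => if hp : p.Prime then (hP p hp).choose else 0, fun p hp j => ?_,
    fun p hp => ?_⟩
  · simp only [dif_pos hp]
    exact (hP p hp).choose_spec.1 j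
  · simp only [dif_pos hp]
    exact (hP p hp).choose_spec.2

theorem aeval_eq {b : ℕ} {Q : ℤ[X]} {α : Fin b → ℂ}
    (h : Q.map (Int.castRingHom ℂ) = Pool.Agent.Q255.SG.PP1 α) (z : ℂ) :
    aeval z Q = ∏ j, (1 - α j * z) := by
  rw [← Polynomial.eval_map_algebraMap]
  have h1 : Q.map (algebraMap ℤ ℂ) = Pool.Agent.Q255.SG.PP1 α := h
  rw [h1, Pool.Agent.Q255.SG.PP1, Polynomial.eval_prod]
  simp

theorem lim_of {b i : ℕ} {P : ℕ → ℤ[X]} {α : ℕ → Fin b → ℂ}
    (hα : Pool.Agent.Q255.SG.Bd (i : ℝ) α)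
    (hP : ∀ p : ℕ, p.Prime → (P p).map (Int.castRingHom ℂ) = Pool.Agent.Q255.SG.PP1 (α p))
    {l : ℝ → ℂ} (h : IsBoundaryFunction i P l) : ∃ T : Set ℝ, volume T = 0 ∧
    Pool.Agent.Q255.SG.Lim (Pool.Agent.Q255.SG.AP (Pool.Agent.Q255.SG.qAD (i : ℝ) α hα)) T l := by
  obtain ⟨T, hT, h⟩ := h
  refine ⟨T, null_of_dimH hT, fun τ hτ => ⟨(h τ hτ).1, (h τ hτ).2.1.congr fun x => ?_⟩⟩
  rw [← Pool.Agent.Q255.SG.q_partial hα x τ]
  refine Finset.prod_congr rfl fun p hp => ?_
  rw [aeval_eq (hP p (Nat.prime_of_mem_primesBelow hp))]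
  rfl

/-- Existence of the boundary functions. -/
theorem exists_boundary {b i : ℕ} {P : ℕ → ℤ[X]} (hP : IsEulerSystem b i P) :
    ∃ l : ℝ → ℂ, IsBoundaryFunction i P l := by
  obtain ⟨α, hα, hPα⟩ := exists_alpha hP
  obtain ⟨T, hT, h⟩ := Pool.Agent.Q255.SG.boundary_q hα
  have h' : ∀ τ : ℝ, ∃ l : ℂ, τ ∉ T → l ≠ 0 ∧
      Tendsto (fun x : ℕ => ∏ p ∈ Nat.primesBelow x,
        (aeval ((p : ℂ) ^ (-edgePoint i τ)) (P p))⁻¹) atTop (𝓝 l) ∧
      ∀ K : ℝ, Tendsto (LFun P) (𝓝[angle i τ K] (edgePoint i τ)) (𝓝 l) := by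
    intro τ
    by_cases hτ : τ ∈ T
    · exact ⟨0, fun h => absurd hτ h⟩
    · obtain ⟨l, h1, h2, h3⟩ := h τ hτ
      refine ⟨l, fun _ => ⟨h1, h2.congr fun x => ?_, fun K => (h3 K).congr fun s => ?_⟩⟩
      · refine Finset.prod_congr rfl fun p hp => ?_
        rw [aeval_eq (hPα p (Nat.prime_of_mem_primesBelow hp))]
        rfl
      · refine tprod_congr fun p => ?_
        rw [aeval_eq (hPα p p.2)]
  choose l hl using h'
  exact ⟨l, T, hT, hl⟩

theorem agree (b i : ℕ) : ∃ C : ℝ, 0 < C ∧ ∀ P P' : ℕ → ℤ[X],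
    IsEulerSystem b i P → IsEulerSystem b i P' →
    ∀ l l' : ℝ → ℂ, IsBoundaryFunction i P l → IsBoundaryFunction i P' l' →
    ∀ x : ℕ, 3 ≤ x → (∀ p : ℕ, p.Prime → p < x → P p = P' p) →
    ∀ a : ℝ, dist2 l l' a 1 ≤ ENNReal.ofReal (C / Real.log x) := by
  obtain ⟨C, hC, h⟩ := Pool.Agent.Q255.SG.close_of_agree (κ := (b : ℝ))
    (M := b * Pool.Agent.Q255.SA.S0) (Nat.cast_nonneg b)
    (mul_nonneg (Nat.cast_nonneg b) Pool.Agent.Q255.SA.S0_nonneg)
  refine ⟨C, hC, fun P P' hP hP' l l' hl hl' x hx heq a => ?_⟩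
  obtain ⟨α, hα, hPα⟩ := exists_alpha hP
  obtain ⟨α', hα', hPα'⟩ := exists_alpha hP'
  obtain ⟨T, hT, hL⟩ := lim_of hα hPα hl
  obtain ⟨T', hT', hL'⟩ := lim_of hα' hPα' hl'
  refine h _ _ T T' hT hT' l l' hL hL' x hx (fun t => ?_) a
  rw [← Pool.Agent.Q255.SG.q_partial hα, ← Pool.Agent.Q255.SG.q_partial hα']
  congr 1
  refine Finset.prod_congr rfl fun p hp => ?_
  have hp' := Nat.prime_of_mem_primesBelow hp
  rw [← aeval_eq (hPα p hp'), ← aeval_eq (hPα' p hp'), heq p hp' (Nat.lt_of_mem_primesBelow hp)]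

/-- **The modulus on the edge line and the Euler factors.**  Let `b ≥ 1` and `i ≥ 0`.  There is a
constant `C`, depending only on `b` and `i`, with the following properties.

1. Every Euler system of rank `b` and weight `i` has a boundary function.
2. If the Euler factors of two such systems agree at all primes `p < x`, `x ≥ 3`, then
`∫_a^{a+1} (log |l| - log |l'|)² ≤ C / log x` for the boundary functions and all real `a`.
3. Conversely, let `x ≥ 1`, let `a` be any real number and `L ≥ C x^{b (3 i + 4)}`.  If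
`∫_a^{a+L} (log |l| - log |l'|)² ≤ L / (C x^{2 b (i + 1)})`, for instance if `|l| = |l'|` almost
everywhere on `[a, a + L]`, then the Euler factors agree at all primes `p ≤ x`.
4. Every sequence of Euler systems of rank `b` and weight `i`, with boundary functions `l_n`, has a
subsequence whose Euler factors are eventually constant at every prime; the limit is an Euler system
of the same kind, and `log |l_n|` tends along the subsequence to the logarithm of the modulus of its
boundary function, in mean square on the intervals `[a, a + 1]`, uniformly in `a`. -/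
theorem result (b i : ℕ) (hb : 1 ≤ b) :
    (∀ P : ℕ → ℤ[X], IsEulerSystem b i P → ∃ l : ℝ → ℂ, IsBoundaryFunction i P l) ∧
    (∃ C : ℝ, 0 < C ∧ ∀ P P' : ℕ → ℤ[X], IsEulerSystem b i P → IsEulerSystem b i P' →
      ∀ l l' : ℝ → ℂ, IsBoundaryFunction i P l → IsBoundaryFunction i P' l' →
        (∀ x : ℕ, 3 ≤ x → (∀ p : ℕ, p.Prime → p < x → P p = P' p) →
          ∀ a : ℝ, dist2 l l' a 1 ≤ ENNReal.ofReal (C / Real.log x)) ∧
        (∀ x : ℕ, 1 ≤ x → ∀ a L : ℝ, C * (x : ℝ) ^ (b * (3 * i + 4)) ≤ L →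
          dist2 l l' a L ≤ ENNReal.ofReal (L * (1 / (C * (x : ℝ) ^ (2 * b * (i + 1))))) →
          ∀ p : ℕ, p.Prime → p ≤ x → P p = P' p)) ∧
    (∀ (P : ℕ → ℕ → ℤ[X]) (l : ℕ → ℝ → ℂ), (∀ n, IsEulerSystem b i (P n)) →
      (∀ n, IsBoundaryFunction i (P n) (l n)) →
      ∃ φ : ℕ → ℕ, StrictMono φ ∧ ∃ Q : ℕ → ℤ[X], IsEulerSystem b i Q ∧
        (∀ p : ℕ, p.Prime → ∀ᶠ n in atTop, P (φ n) p = Q p) ∧
        ∀ l' : ℝ → ℂ, IsBoundaryFunction i Q l' → ∀ ε : ℝ, 0 < ε → ∀ᶠ n in atTop,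
          ∀ a : ℝ, dist2 (l (φ n)) l' a 1 ≤ ENNReal.ofReal ε) := by
  obtain ⟨C1, hC1, h1⟩ := agree b i
  obtain ⟨C2, hC2, h2⟩ := Pool.Agent.Q255.SG.mult_one b i hb
  refine ⟨fun P hP => exists_boundary hP, ⟨max C1 C2, by positivity,
    fun P P' hP hP' l l' hl hl' => ⟨fun x hx heq a => ?_, fun x hx a L hL hG p hp hpx => ?_⟩⟩,
    fun P l hP hl => ?_⟩
  · refine (h1 P P' hP hP' l l' hl hl' x hx heq a).trans (ENNReal.ofReal_le_ofReal ?_)
    have hx3 : (3 : ℝ) ≤ x := by exact_mod_cast hx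
    have hlx : 0 < Real.log x := Real.log_pos (by linarith)
    gcongr
    exact le_max_left _ _
  · obtain ⟨α, hα, hPα⟩ := exists_alpha hP
    obtain ⟨α', hα', hPα'⟩ := exists_alpha hP'
    obtain ⟨T, hT, hLm⟩ := lim_of hα hPα hl
    obtain ⟨T', hT', hLm'⟩ := lim_of hα' hPα' hl'
    have hx1 : (1 : ℝ) ≤ x := by exact_mod_cast hx
    have hm : C2 ≤ max C1 C2 := le_max_right _ _
    have hpw : (0 : ℝ) < (x : ℝ) ^ (b * (3 * i + 4)) := by positivity
    have hL2 : C2 * (x : ℝ) ^ (b * (3 * i + 4)) ≤ L :=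
      (mul_le_mul_of_nonneg_right hm hpw.le).trans hL
    have hL0 : 0 < L := lt_of_lt_of_le (by positivity) hL2
    refine h2 α α' hα hα' P P' hPα hPα' T T' hT hT' l l' hLm hLm' x hx a L hL2 (hG.trans
      (ENNReal.ofReal_le_ofReal ?_)) p hp hpx
    refine mul_le_mul_of_nonneg_left ?_ hL0.le
    refine one_div_le_one_div_of_le (by positivity) ?_
    gcongr
  · classical
    set F : ℕ → Set ℤ[X] := fun p => if p.Prime then {Q : ℤ[X] | ∃ α : Fin b → ℂ,
      (∀ j, ‖α j‖ ≤ (p : ℝ) ^ ((i : ℝ) / 2)) ∧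
      Q.map (Int.castRingHom ℂ) = Pool.Agent.Q255.SG.PP1 α} else {0} with hF
    have hFf : ∀ p, (F p).Finite := by
      intro p
      simp only [hF]
      split_ifs
      · exact Pool.Agent.Q255.SG.finite_factors b (by positivity)
      · exact Set.finite_singleton _
    obtain ⟨φ, hφ, Q, hQ, hlim⟩ := Pool.Agent.Q255.SG.diagonal hFf
      (P := fun n p => if p.Prime then P n p else 0) (fun n p => by
        simp only [hF]
        split_ifs with hp
        · exact hP n p hp
        · rfl)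
    have hQs : IsEulerSystem b i Q := by
      intro p hp
      have := hQ p
      simp only [hF, if_pos hp] at this
      exact this
    have hlim' : ∀ p : ℕ, p.Prime → ∀ᶠ n in atTop, P (φ n) p = Q p := by
      intro p hp
      filter_upwards [hlim p] with n hn
      rwa [if_pos hp] at hn
    refine ⟨φ, hφ, Q, hQs, hlim', fun l' hl' ε hε => ?_⟩
    obtain ⟨x, hx3, hx⟩ : ∃ x : ℕ, 3 ≤ x ∧ C1 / Real.log x ≤ ε := by
      have h3 : Tendsto (fun x : ℕ => C1 / Real.log x) atTop (𝓝 0) :=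
        Tendsto.const_div_atTop (Real.tendsto_log_atTop.comp tendsto_natCast_atTop_atTop) _
      obtain ⟨x, h4, h5⟩ := ((h3.eventually (gt_mem_nhds hε)).and (eventually_ge_atTop 3)).exists
      exact ⟨x, h5, h4.le⟩
    have h6 : ∀ᶠ n in atTop, ∀ p ∈ Nat.primesBelow x, P (φ n) p = Q p := by
      rw [Filter.eventually_all_finset]
      exact fun p hp => hlim' p (Nat.prime_of_mem_primesBelow hp)
    filter_upwards [h6] with n hn a
    refine (h1 (P (φ n)) Q (hP _) hQs _ l' (hl _) hl' x hx3 (fun p hp hpx => hn p ?_) a).trans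
      (ENNReal.ofReal_le_ofReal hx)
    exact Nat.mem_primesBelow.2 ⟨hpx, hp⟩

end Pool.Agent.Results.MP_7193be_nt.EdgeRigidity
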