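import Pool.Agent.Q246.HW.Base
import Pool.Agent.Q246.HW.Tr

/-!
# The heat flow of Hasse-Weil L-functions attached to newforms

Let `X` be a proper smooth scheme over `ℤ[1/N]`, and suppose that the L-function of `H^i(X)` is a product of
L-functions of holomorphic newforms, of arbitrary levels and nebentypus characters and of weights
`k ≤ i + 1`, `k ≡ i + 1 mod 2`, twisted `j = (i + 1 - k)/2` times.  Examples: `H¹` of all modular curves
`X_0(M)`, `X_1(M)` and of their quotients, of all abelian varieties over `ℚ` of `GL₂`-type and their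
products (Khare-Wintenberger, Ribet), of all curves of which the Jacobian is such a product; `H³` of the
rigid Calabi-Yau threefolds (Gouvêa-Yui, Dieulefait), of which the Galois representation is attached to a newform
of weight four; `H^i`, `i` odd, of products of these with varieties all of whose cohomology is
algebraic over `ℚ`; `H^i`, `i` odd, of the powers of an elliptic curve over `ℚ` with complex multiplication
(newforms of the weights `2, 4, …, i + 1`).
Let `Λ(s)` be the completed L-function; part (d) of the problem says that all its zeros are on the line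
`Re s = (i + 1)/2`.

Part (d) holds if and only if for all `t > 0` all zeros of the heat flow `Λ_t = e^{t D²} Λ` are on the line
(and then they are simple).  We prove, without any hypothesis: there are `c, C > 0` such that for `0 < t ≤ 1/8` and
`T ≥ 2` the proportion of the zeros of `Λ_t` with imaginary part in `(T, 2T]` which are off the line
`Re s = (i + 1)/2` or multiple is at most `C exp (-c t log² T)`.

The theory is that of the modules `Pool.Agent.Q246.NC` (newforms with nebentypus, products; on the basis of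
project GD2 of helper671, `Pool.Agent.Y671`, `Pool.Agent.Y771`); here it is applied to the schemes.
-/
set_option autoImplicit false

open Complex AlgebraicGeometry CategoryTheory
open scoped ComplexConjugate
open Pool.Agent.Q246.HW

namespace Pool.Agent.Results.MP_7193be_nt.HeatFlowDensity

/-- The heat flow `Λ_t = e^{t D²} Λ` (`D = d/ds`) as a Gaussian average:
`Λ_t(s) = π^(-1/2) ∫ exp (-v²) Λ(s + 2 √t v) dv`. -/
noncomputable def heat (t : ℝ) (Λ : ℂ → ℂ) (s : ℂ) : ℂ :=
  ((1 / Real.sqrt Real.pi : ℝ) : ℂ) *
    ∫ v : ℝ, ((Real.exp (-v ^ 2) : ℝ) : ℂ) * Λ (s + ((2 * Real.sqrt t * v : ℝ) : ℂ))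

/-- The zeros of `F` with imaginary part in `(T, 2T]`. -/
def Zer (F : ℂ → ℂ) (T : ℝ) : Set ℂ := {s | F s = 0 ∧ T < s.im ∧ s.im ≤ 2 * T}

/-- The exceptional ones: off the line `Re s = x`, or multiple. -/
def Exc (x : ℝ) (F : ℂ → ℂ) (T : ℝ) : Set ℂ := {s | s ∈ Zer F T ∧ (s.re ≠ x ∨ deriv F s = 0)}

/-- The number of points of `A`, each counted with its multiplicity as a zero of `F`. -/
noncomputable def num (F : ℂ → ℂ) (A : Set ℂ) : ℕ := ∑ᶠ s ∈ A, analyticOrderNatAt F s

/-- **The theorem.** Let `X` be a proper smooth scheme over `ℤ[1/N]` of relative dimension `d`, let `R p i` be the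
reciprocal roots of `P_i(X(p), T)`, `p ∤ N`, and let `H^i` be attached to the list `l` of newforms.  Then the
L-function `F` of `H^i` and the completed L-function `Λ` exist, are unique, entire, `Λ` has a functional equation
`s ↦ i + 1 - s`; the heat flow `Λ_t` is entire for `t ≥ 0`; and there are `c, C > 0` such that for
`0 < t ≤ 1/8`, `T ≥ 2` at most the proportion `C exp (-c t log² T)` of the zeros of `Λ_t` with imaginary part in
`(T, 2T]`, counted with multiplicity, are off the line `Re s = (i + 1)/2` or multiple, and the number of these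
exceptional zeros is at most `C exp (-c t log² T) T log T`. -/
theorem result (N d i : ℕ) (hN : 1 ≤ N) (X : Scheme.{0})
    (π : X ⟶ Spec (CommRingCat.of (Localization.Away (N : ℤ)))) [IsProper π] [SmoothOfRelativeDimension d π]
    (R : ℕ → ℕ → Multiset ℂ) (hR : IsWeil X N d R) (hi : i ≤ 2 * d) (l : List Newform) (hl : Attached N i R l) :
    ∃ F Λ : ℂ → ℂ, IsCompleted N i R l F Λ ∧
      (∀ F' Λ' : ℂ → ℂ, IsCompleted N i R l F' Λ' → F' = F ∧ Λ' = Λ) ∧
      (∀ t : ℝ, 0 ≤ t → Differentiable ℂ (heat t Λ)) ∧
      (∀ t T : ℝ, 0 ≤ t → (Zer (heat t Λ) T).Finite) ∧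
      ∃ c C : ℝ, 0 < c ∧ 0 < C ∧ ∀ t T : ℝ, 0 < t → t ≤ 1 / 8 → 2 ≤ T →
        (num (heat t Λ) (Exc ((i + 1) / 2) (heat t Λ) T) : ℝ) ≤
          C * Real.exp (-(c * t * Real.log T ^ 2)) * num (heat t Λ) (Zer (heat t Λ) T) ∧
        (num (heat t Λ) (Exc ((i + 1) / 2) (heat t Λ) T) : ℝ) ≤
          C * Real.exp (-(c * t * Real.log T ^ 2)) * T * Real.log T := by
  obtain ⟨c, Λ₀, F, hc, hF, h⟩ := exists_hw hl
  have hu : ∀ s : ℂ, (fun s : ℂ => (c : ℂ) * Λ₀ (s - i / 2)) s = c * Λ₀ (s - (((i : ℝ) / 2 : ℝ) : ℂ)) := fun s => by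
    simp only
    push_cast
    rfl
  have hx : ((i : ℝ) + 1) / 2 = 1 / 2 + (i : ℝ) / 2 := by ring
  obtain ⟨h1, h2⟩ := flow1 hF hx hc hu
  exact ⟨F, _, h, fun F' Λ' h' => uniq_hw h h', fun t ht => heat1_diff hF hu ht, h1, h2⟩

end Pool.Agent.Results.MP_7193be_nt.HeatFlowDensity
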