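import Pool.Agent.Q284.M.Trans

/-!
# The zeros of the Hasse-Weil L-functions and their Euler products at the centre

`X` is a smooth projective variety of dimension `d` over a number field `K` (over `K = ℚ`: a projective
smooth scheme over `ℤ[1/M]`), `i ≤ 2 d`, `S` is a set of primes of `K` containing the primes of bad
reduction, and `α_{v,1}, …, α_{v,N}` are the eigenvalues of Frobenius on `H^i(X)`, `v ∉ S`. The
Hasse-Weil L-function `L(i; X, s) = ∏_{v ∉ S} ∏_j (1 - α_{v,j} q_v^{-s})⁻¹` converges absolutely for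
`Re s > i/2 + 1`. Suppose that it has a continuation `F` of polynomial growth to some half-plane
`Re s > (i+1)/2 - η`. Does the Euler product, truncated at `q_v ≤ y`, converge at the centre
`c = (i+1)/2`, and does it know the zeros, the order and the leading coefficient of `F`?

The pointwise asymptotic formula (for elliptic curves: Birch and Swinnerton-Dyer, Goldfeld 1982) is
equivalent to a statement which is stronger than the Riemann hypothesis (Kuo-Murty, Conrad 2005).
Here it is shown, for all `X`, that in logarithmic mean square there is an exact equivalence with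
part (c) of the conjecture (all zeros of `L(i; X, s)` lie in `Re s ≤ (i+1)/2`):

with `P(y) = ∑_{q_v^k ≤ y} tr(Frob_v^k | H^i(X)) / (k q_v^{k c})` (the logarithm of the truncated
Euler product at the centre) and `γ` Euler's constant,

`∫_e^∞ |P(y) + m (γ + log log y) - log A|² dy/y < ∞`

if and only if `F(s) ∼ A (s - c)^m` and all zeros of `F` lie in `Re s ≤ c`. In particular in this case
`exp P(y) ∼ A e^{-mγ} (log y)^{-m}` outside of a set of finite logarithmic measure. The order alone
is characterised by bounds for the logarithmic mean of `|P(y) + m log log y|`, also for the Euler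
product over the primes (not prime powers) of norm at most `y`.
-/

set_option autoImplicit false

namespace Pool.Agent.Results.MP_7193be_nt.MeanSquareZeros

open Filter Topology MeasureTheory Set NumberField IsDedekindDomain
open Pool.Agent.TH958.BV (IsFrobenius cone)

variable {K : Type} [Field K] [NumberField K] {N : ℕ}

/-- `q_v`, the number of elements of the residue field of `v`. -/
noncomputable def q (v : HeightOneSpectrum (𝓞 K)) : ℕ := Ideal.absNorm v.asIdeal

/-- The centre `(i + 1)/2` of the functional equation. -/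
noncomputable def centre (i : ℕ) : ℝ := ((i : ℝ) + 1) / 2

/-- The L-function `∏_{v ∉ S} ∏_j (1 - α_{v,j} q_v^{-s})⁻¹`. -/
noncomputable def LFun (S : Set (HeightOneSpectrum (𝓞 K)))
    (α : HeightOneSpectrum (𝓞 K) → Fin N → ℂ) (s : ℂ) : ℂ :=
  ∏' v : {v // v ∉ S}, ∏ j, (1 - α v.1 j * (q v.1 : ℂ) ^ (-s))⁻¹

/-- `F` is a continuation of polynomial growth of the L-function to `Re s > (i + 1)/2 - η`. -/
structure IsContinuation (S : Set (HeightOneSpectrum (𝓞 K))) (i : ℕ)
    (α : HeightOneSpectrum (𝓞 K) → Fin N → ℂ) (η : ℝ) (F : ℂ → ℂ) : Prop where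
  pos : 0 < η
  eq : ∀ s : ℂ, (i : ℝ) / 2 + 1 < s.re → F s = LFun S α s
  diff : ∀ s : ℂ, centre i - η < s.re → DifferentiableAt ℂ F s
  growth : ∃ (C : ℝ) (κ : ℕ), ∀ s : ℂ, centre i - η < s.re → ‖F s‖ ≤ C * (1 + ‖s‖) ^ κ

/-- All zeros lie in `Re s ≤ (i + 1)/2`: part (c) of the conjecture. -/
def ZerosLeft (i : ℕ) (F : ℂ → ℂ) : Prop := ∀ s : ℂ, F s = 0 → s.re ≤ centre i

/-- The logarithm `∑ (∑_j α_{v,j}^k) / (k q_v^{k c})`, `c = (i + 1)/2`, of the Euler product at the
centre, over the prime powers `q_v^k ≤ y`, `v ∉ S`, `k = 1, 2, …` (here `k` is `p.2 + 1`). -/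
noncomputable def logPowers (S : Set (HeightOneSpectrum (𝓞 K))) (i : ℕ)
    (α : HeightOneSpectrum (𝓞 K) → Fin N → ℂ) (y : ℝ) : ℝ :=
  ∑ᶠ (p : {v // v ∉ S} × ℕ) (_ : (q p.1.1 : ℝ) ^ (p.2 + 1) ≤ y),
    (∑ j, α p.1.1 j ^ (p.2 + 1)).re / (((p.2 : ℝ) + 1) * (q p.1.1 : ℝ) ^ (((p.2 : ℝ) + 1) * centre i))

/-- The Euler product at the centre over the primes `v ∉ S` with `q_v ≤ y`. -/
noncomputable def product (S : Set (HeightOneSpectrum (𝓞 K))) (i : ℕ)
    (α : HeightOneSpectrum (𝓞 K) → Fin N → ℂ) (y : ℝ) : ℂ :=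
  ∏ᶠ (v : {v // v ∉ S}) (_ : (q v.1 : ℝ) ≤ y), ∏ j, (1 - α v.1 j * (q v.1 : ℂ) ^ (-(centre i : ℂ)))⁻¹

/-- The deviation `P(y) + ρ (γ + log log y) - log A`, `P = logPowers`. -/
noncomputable def dev (S : Set (HeightOneSpectrum (𝓞 K))) (i : ℕ)
    (α : HeightOneSpectrum (𝓞 K) → Fin N → ℂ) (ρ A : ℝ) (y : ℝ) : ℝ :=
  logPowers S i α y + ρ * (Real.eulerMascheroniConstant + Real.log (Real.log y)) - Real.log A

theorem logPowers_eq (S : Set (HeightOneSpectrum (𝓞 K))) (i : ℕ)
    (α : HeightOneSpectrum (𝓞 K) → Fin N → ℂ) (y : ℝ) : logPowers S i α y =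
      Pool.Agent.TH270.MS.Pl (Q284.M.NN fun v => v ∉ S) (Q284.M.al i α) y := by
  unfold logPowers Pool.Agent.TH270.MS.Pl
  refine finsum_congr fun p => finsum_congr fun _ => ?_
  rw [show p = (p.1, p.2) from rfl, Q284.M.cP_frob]
  rfl

theorem dev_eq (S : Set (HeightOneSpectrum (𝓞 K))) (i : ℕ)
    (α : HeightOneSpectrum (𝓞 K) → Fin N → ℂ) (ρ A y : ℝ) : dev S i α ρ A y =
      Pool.Agent.TH270.MS.DvR (Q284.M.NN fun v => v ∉ S) (Q284.M.al i α) ρ A y := by
  unfold dev Pool.Agent.TH270.MS.DvR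
  rw [logPowers_eq]

/-- **The zeros of the Hasse-Weil L-functions and their Euler products at the centre.**

Let `X` be a projective variety of dimension `d` over a number field `K`, given by homogeneous
equations, `i ≤ 2 d`, let `α_{v,1}, …, α_{v,N}` be the eigenvalues of Frobenius on `H^i(X)` for the
primes `v ∉ S`, and let `F` be a continuation of polynomial growth of `L(i; X, s)` to
`Re s > (i + 1)/2 - η`, `η > 0`. Let `ρ` be a real number.

1. The following are equivalent: all zeros of `F` lie in `Re s ≤ (i + 1)/2`, and `ρ` is the order of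
`F` at `(i + 1)/2`; for some `A > 0` the deviation is square integrable for `dy/y`;
`∫_e^Y |P(y) + ρ log log y| dy/y = O(log Y)` for the Euler product over the prime powers;
the same for the Euler product over the primes.
2. For all `A > 0` the following are equivalent: all zeros of `F` lie in `Re s ≤ (i + 1)/2`, `ρ = m`
is an integer and `F(s) / (s - (i + 1)/2)^m` tends to `A` at `(i + 1)/2`; the deviation is square
integrable for `dy/y`; its logarithmic mean tends to `0`. In this case for each `ε > 0` the set of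
the `y` at which the deviation is larger than `ε` has finite logarithmic measure. -/
theorem result (K : Type) [Field K] [NumberField K] (n : ℕ)
    (X : Set (MvPolynomial (Fin n) (𝓞 K))) (d i N : ℕ) (hi : i ≤ 2 * d)
    (S : Set (HeightOneSpectrum (𝓞 K))) (α : HeightOneSpectrum (𝓞 K) → Fin N → ℂ)
    (hα : ∀ v, v ∉ S → IsFrobenius X d i v (α v)) (η : ℝ) (F : ℂ → ℂ)
    (hF : IsContinuation S i α η F) (ρ : ℝ) :
    List.TFAE [
      ZerosLeft i F ∧ ∃ m : ℕ, ρ = m ∧ analyticOrderAt F (centre i : ℂ) = m,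
      ∃ A : ℝ, 0 < A ∧ IntegrableOn (fun y : ℝ => dev S i α ρ A y ^ 2 / y) (Ioi (Real.exp 1)),
      ∃ B : ℝ, ∀ᶠ Y : ℝ in atTop, ∫ y in Real.exp 1..Y,
        |logPowers S i α y + ρ * Real.log (Real.log y)| / y ≤ B * Real.log Y,
      ∃ B : ℝ, ∀ᶠ Y : ℝ in atTop, ∫ y in Real.exp 1..Y,
        |Real.log ‖product S i α y‖ + ρ * Real.log (Real.log y)| / y ≤ B * Real.log Y] ∧
    ∀ A : ℝ, 0 < A →
      List.TFAE [
        ZerosLeft i F ∧ ∃ m : ℕ, ρ = m ∧
          Tendsto (fun s : ℂ => F s / (s - centre i) ^ m) (𝓝[≠] (centre i : ℂ)) (𝓝 (A : ℂ)),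
        IntegrableOn (fun y : ℝ => dev S i α ρ A y ^ 2 / y) (Ioi (Real.exp 1)),
        Tendsto (fun Y : ℝ => (∫ y in Real.exp 1..Y, |dev S i α ρ A y| / y) / Real.log Y) atTop
          (𝓝 0)] ∧
      (IntegrableOn (fun y : ℝ => dev S i α ρ A y ^ 2 / y) (Ioi (Real.exp 1)) → ∀ ε : ℝ, 0 < ε →
        ∫⁻ y in {y : ℝ | Real.exp 1 < y ∧ ε < |dev S i α ρ A y|}, ENNReal.ofReal (1 / y) < ⊤) := by
  obtain ⟨C, κ, hC⟩ := hF.growth
  have H := Q284.M.mc_of (P := fun v => v ∉ S) hi hα hF.pos hF.eq hF.diff hC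
  have hana : AnalyticAt ℂ F (centre i : ℂ) := by
    have hU : IsOpen {s : ℂ | centre i - η < s.re} :=
      isOpen_lt continuous_const Complex.continuous_re
    exact (DifferentiableOn.analyticOnNhd
      (fun z hz => (hF.diff z hz).differentiableWithinAt) hU) _
      (show centre i - η < ((centre i : ℝ) : ℂ).re by
        rw [Complex.ofReal_re]
        linarith [hF.pos])
  have hz : ZerosLeft i F ↔ ∀ s : ℂ, 0 < s.re → F ((((i : ℝ) + 1) / 2 : ℝ) + s) ≠ 0 := by
    constructor
    · intro h s hs h0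
      have h1 := h _ h0
      rw [Complex.add_re, Complex.ofReal_re] at h1
      unfold centre at h1
      linarith
    · intro h s h0
      by_contra h1
      push Not at h1
      refine h (s - (((i : ℝ) + 1) / 2 : ℝ)) ?_ ?_
      · rw [Complex.sub_re, Complex.ofReal_re]
        unfold centre at h1
        linarith
      · rw [add_sub_cancel]
        exact h0
  have hlp : logPowers S i α = Pool.Agent.TH270.MS.Pl (Q284.M.NN fun v => v ∉ S)
      (Q284.M.al i α) := funext fun y => logPowers_eq S i α y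
  have hdev : ∀ A, dev S i α ρ A = Pool.Agent.TH270.MS.DvR (Q284.M.NN fun v => v ∉ S)
      (Q284.M.al i α) ρ A := fun A => funext fun y => dev_eq S i α ρ A y
  have hprod : ∀ y, Real.log ‖product S i α y‖ =
      -∑ᶠ (v : {v // v ∉ S}) (_ : (Q284.M.NN (fun v => v ∉ S) v : ℝ) ≤ y),
        Pool.Agent.TH942.ES.cv (Q284.M.NN fun v => v ∉ S) (Q284.M.al i α) v := fun y =>
    Q284.M.log_prodC H.E y
  refine ⟨?_, fun A hA => ⟨?_, fun hI ε hε => ?_⟩⟩
  · have t := H.tfae_order_real ρ
    have hc : (∃ m : ℕ, ρ = m ∧ meromorphicOrderAt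
        (fun s => F ((((i : ℝ) + 1) / 2 : ℝ) + s)) 0 = (m : ℤ)) ↔
        ∃ m : ℕ, ρ = m ∧ analyticOrderAt F (centre i : ℂ) = m :=
      exists_congr fun m => and_congr_right fun _ => Q284.M.ord_iff hana
    rw [← hz, hc] at t
    have t2 := Q284.M.mean_iff H.E ρ
    simp only [hlp, hdev, hprod]
    tfae_have 1 ↔ 2 := t.out 0 1
    tfae_have 1 ↔ 3 := t.out 0 2
    tfae_have 3 ↔ 4 := t2
    tfae_finish
  · have t := H.tfae_lead_real ρ hA
    have hc : (∃ m : ℕ, ρ = m ∧ Tendsto (fun s : ℂ => F ((((i : ℝ) + 1) / 2 : ℝ) + s) / s ^ m)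
        (𝓝[≠] 0) (𝓝 (A : ℂ))) ↔ ∃ m : ℕ, ρ = m ∧
          Tendsto (fun s : ℂ => F s / (s - centre i) ^ m) (𝓝[≠] (centre i : ℂ)) (𝓝 (A : ℂ)) :=
      exists_congr fun m => and_congr_right fun _ => Q284.M.lead_iff
    rw [← hz, hc] at t
    simp only [hdev]
    exact t
  · refine Pool.Agent.TH270.MS.fin_log_meas hI hε ?_
    have h1 : Measurable (dev S i α ρ A) := by
      have h2 : Measurable (logPowers S i α) := by
        rw [hlp]
        exact Q284.M.meas_fin (M := fun p : {v // v ∉ S} × ℕ =>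
          (Q284.M.NN (fun v => v ∉ S) p.1 : ℝ) ^ (p.2 + 1)) H.E.finS _
      exact (h2.add ((measurable_const.add
        (Real.measurable_log.comp Real.measurable_log)).const_mul ρ)).sub measurable_const
    exact (measurableSet_Ioi (a := Real.exp 1)).inter
      (measurableSet_lt measurable_const h1.abs)

end Pool.Agent.Results.MP_7193be_nt.MeanSquareZeros
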