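import Pool.Agent.Q286.PG.All
import Pool.Agent.Q286.PG.Pw
import Pool.Agent.Q286.XG.HW2

/-!
# Weil's quadratic form of the cohomology of a scheme over `ℤ[1/N]`: its positivity determines the conductor and the traces of Frobenius

Let `X` be a proper smooth scheme over `ℤ[1/N]`, and suppose that the L-function of `H^i(X)` is a product of
L-functions of holomorphic newforms, of arbitrary levels and nebentypus characters and of weights
`k ≤ i + 1`, `k ≡ i + 1 mod 2`, twisted `j = (i + 1 - k)/2` times.  Examples: `H¹` of all modular curves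
`X_0(M)`, `X_1(M)` and of their quotients, of all abelian varieties over `ℚ` of `GL₂`-type and their
products (Khare-Wintenberger, Ribet), of all curves of which the Jacobian is such a product; `H³` of the
rigid Calabi-Yau threefolds (Gouvêa-Yui, Dieulefait); `H^i`, `i` odd, of products of these with varieties all of
whose cohomology is algebraic over `ℚ`; `H^i`, `i` odd, of the powers of an elliptic curve over `ℚ` with complex
multiplication (newforms of the weights `2, 4, …, i + 1`).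
Let `Λ(s)` be the completed L-function, `A` its conductor and `m` its degree (the dimension of `H^i`); part (d) of the problem
says that all zeros of `Λ` are on the line `Re s = (i + 1)/2`.

Let `t(p^k)` be the trace of the `k`-th power of Frobenius on `H^i`, which for `p ∤ N` is the sum of the `k`-th powers of the
reciprocal roots of `P_i(X(p), T)`.  Let `W_a` be Weil's quadratic form of `H^i` on the functions on `[-a, a]`: it is written through
the conductor `A`, the Gamma factor and the traces `t(n)`, `n = p^k ≤ exp (2 a)`, which enter with the weights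
`Λ(n) t(n) / n^((i + 1)/2)`.  Part (d) for `H^i` is equivalent to its positivity for all `a` (Weil).
Here only the archimedean part is kept: the conductor is replaced by a number `Q > 0`, and the weight of `n` is changed by a number `x(n)`.
The functions have degree at least `C a E`, `E = exp (2 a / m)` (trigonometric polynomials on `[-a, a]`), the infinite degree (the whole form
domain) is included.  The theorem is unconditional.

* (1) For any `c < 2 π m A^(-1/m)` and large `a`: if at finitely many primes `p ∤ N` the reciprocal roots of `P_i(X(p), T)` are replaced by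
  arbitrary complex numbers, at most `B` of them, of absolute values at most `θ p^((i + 1)/2)` (`θ < 1`; for example `p^(i/2)`), and `A` by `Q`,
  and the form is nonnegative, then `log (A / Q) ≤ exp (-c E)`, and for all `k ≥ 1` the difference of the sums of the `k`-th powers of the new and
  of the old numbers, times `log p / p^(k (i + 1)/2)`, is at most `K max(0, log (Q / A)) + exp (-c E)`.  So no smaller conductor is possible, and
  with the true (or a smaller) conductor the positivity determines these `P_i(X(p), T)`, with a doubly exponential accuracy.  The same holds for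
  arbitrary changes `x(n)` of finitely many weights.
* (2) If all weights are changed, with bounded total change, and the conductor is not (or very little) increased, and the form is nonnegative, then
  the conductor and each single weight are almost right.
* (3) A summable change `x` of the weights and a conductor `Q ≤ A` give a nonnegative form for arbitrarily large `a` if and only if the
  Riemann hypothesis holds for `H^i`, `Q = A` and `x = 0`.
* (4) The Riemann hypothesis holds for `H^i` if and only if for arbitrarily large `a` the positivity can be reached by a change of the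
  weights of total size at most `exp (ε a)` and of the logarithm of the conductor by at most `exp (ε a)`, for every `ε > 0`; and if
  and only if it can be reached by changes of the weights of the `n ≤ k` (`k` fixed, changes of any size) and of the conductor (at most `B`).
-/

set_option autoImplicit false

open Complex AlgebraicGeometry CategoryTheory MeasureTheory Filter Topology
open scoped ComplexConjugate
open Pool.Agent.Q246.HW

namespace Pool.Agent.Results.MP_7193be_nt.PrimeRigidity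

/-- The sums `u^k + v^k`, where `u + v = s` and `u v = e`. -/
noncomputable def powers (s e : ℂ) : ℕ → ℂ
  | 0 => 2
  | 1 => s
  | k + 2 => s * powers s e (k + 1) - e * powers s e k

/-- The trace of the `k`-th power of Frobenius at `p` on `H^i` (`k ≥ 1`): the sum of the `k`-th powers of the reciprocal
roots of `P_i(X(p), T)` for `p ∤ N`, and of the product of the Euler polynomials of the newforms for `p ∣ N`. -/
noncomputable def trace (N i : ℕ) (R : ℕ → ℕ → Multiset ℂ) (l : List Newform) (p k : ℕ) : ℂ :=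
  if p ∣ N then (l.map fun g => powers (a g.f p * (p : ℂ) ^ g.twist i) (g.ψ (p : ZMod g.N) * (p : ℂ) ^ i) k).sum
  else ((R p i).map fun α => α ^ k).sum

/-- The Gamma factor `∏ Γ_ℂ(s - j)`, the product over the newforms of the list with `j = (i + 1 - k) / 2`. -/
noncomputable def gamma (i : ℕ) (l : List Newform) (s : ℂ) : ℂ := (l.map fun g => Gammaℂ (s - g.twist i)).prod

/-- Part (d) of the problem: all zeros of `Λ` have real part `(i + 1)/2`. -/
def RiemannHypothesis (i : ℕ) (Λ : ℂ → ℂ) : Prop := ∀ s : ℂ, Λ s = 0 → s.re = ((i : ℝ) + 1) / 2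

/-- The trigonometric polynomials of degree at most `n` on `[-b, b]`, extended by `0`. -/
def Trig (b : ℝ) (n : ℕ) (f : ℝ → ℂ) : Prop := ∃ c : ℤ → ℂ, ∀ x : ℝ,
  f x = if |x| ≤ b then ∑ k ∈ Finset.Icc (-(n : ℤ)) n, c k * cexp ((Real.pi * k * x / b : ℝ) * I) else 0

/-- The Mellin transform of `f` in the logarithmic variable, centred at `(i + 1)/2`. -/
noncomputable def M (i : ℕ) (f : ℝ → ℂ) (s : ℂ) : ℂ := ∫ x : ℝ, f x * cexp ((s - ((i : ℂ) + 1) / 2) * x)

/-- Weil's quadratic form of `H^i` for functions supported in `[-b, b]`: the conductor and the Gamma factor, and the traces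
of Frobenius for the prime powers `n ≤ exp (2 b)`. -/
noncomputable def W (N i : ℕ) (R : ℕ → ℕ → Multiset ℂ) (l : List Newform) (b : ℝ) (f : ℝ → ℂ) : ℝ :=
  1 / (2 * Real.pi) * (∫ x : ℝ, (Real.log ((l.map Newform.N).prod : ℕ) +
    2 * (logDeriv (gamma i l) (((i : ℂ) + 1) / 2 + x * I)).re) * ‖M i f (((i : ℂ) + 1) / 2 + x * I)‖ ^ 2) -
  2 * (∑ n ∈ Finset.Icc 1 ⌊Real.exp (2 * b)⌋₊,
    ArithmeticFunction.vonMangoldt n / (((n : ℝ) ^ (((i : ℝ) + 1) / 2) : ℝ) : ℂ) *
    trace N i R l n.minFac (n.factorization n.minFac) * ∫ x : ℝ, f (x + Real.log n) * (starRingEnd ℂ) (f x)).re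

/-- The form domain: the square integrable functions `f` with support in `[-b, b]` and
`∫ log (3 + |t|) |M f ((i + 1)/2 + i t)|² dt < ∞`. -/
def FormDomain (i : ℕ) (b : ℝ) (f : ℝ → ℂ) : Prop := MemLp f 2 volume ∧ (∀ x : ℝ, b < |x| → f x = 0) ∧
  Integrable fun t : ℝ => Real.log (3 + |t|) * ‖M i f (((i : ℂ) + 1) / 2 + t * I)‖ ^ 2

/-- The functions of degree at most `ν ≤ ∞`: trigonometric polynomials, or (`ν = ∞`) all functions in the form domain. -/
def Degree (i : ℕ) (b : ℝ) (ν : ℕ∞) (f : ℝ → ℂ) : Prop :=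
  (∃ n : ℕ, ν = n ∧ Trig b n f) ∨ (ν = ⊤ ∧ FormDomain i b f)

/-- The degree `ν ≤ ∞` is at least `x`. -/
def Large (x : ℝ) (ν : ℕ∞) : Prop := ∀ n : ℕ, ν = n → x ≤ n

/-- The degree of the L-function, that is the dimension of `H^i`: every newform contributes `2`. -/
def deg (l : List Newform) : ℕ := 2 * l.length

/-- The conductor of the L-function: the product of the levels of the newforms. -/
def cond (l : List Newform) : ℕ := (l.map Newform.N).prod

/-- Weil's quadratic form of `H^i` with the number `Q` in place of the conductor `A` (which enters through `log A ∫ |f|²`) and with the weight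
`Λ(n) t(n) / n^((i + 1)/2)` of `n` (`n ≥ 2`) changed by `x n`. -/
noncomputable def V (N i : ℕ) (R : ℕ → ℕ → Multiset ℂ) (l : List Newform) (Q : ℝ) (x : ℕ → ℂ) (b : ℝ) (f : ℝ → ℂ) : ℝ :=
  W N i R l b f + Real.log (Q / cond l) * (∫ y : ℝ, ‖f y‖ ^ 2) -
  2 * (∑ n ∈ Finset.Icc 2 ⌊Real.exp (2 * b)⌋₊, x n * ∫ y : ℝ, f (y + Real.log n) * (starRingEnd ℂ) (f y)).re

/-- The form is nonnegative on the functions of degree at most `ν` on `[-b, b]`. -/
def Nonneg (N i : ℕ) (R : ℕ → ℕ → Multiset ℂ) (l : List Newform) (b : ℝ) (ν : ℕ∞) (Q : ℝ) (x : ℕ → ℂ) : Prop :=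
  ∀ f : ℝ → ℂ, Degree i b ν f → 0 ≤ V N i R l Q x b f

/-- The change of the weights when, for the primes `p ∈ P`, the reciprocal roots of `P_i(X(p), T)` are replaced by the numbers `S p`: the
trace at `n = p^k` becomes the sum of their `k`-th powers. -/
noncomputable def change (N i : ℕ) (R : ℕ → ℕ → Multiset ℂ) (l : List Newform) (P : Finset ℕ) (S : ℕ → Multiset ℂ) (n : ℕ) : ℂ :=
  if n.minFac ∈ P then ArithmeticFunction.vonMangoldt n / (((n : ℝ) ^ (((i : ℝ) + 1) / 2) : ℝ) : ℂ) *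
    (((S n.minFac).map fun z => z ^ n.factorization n.minFac).sum - trace N i R l n.minFac (n.factorization n.minFac)) else 0

/-! ### The proof -/

lemma powers_eq (s e : ℂ) : ∀ k : ℕ, powers s e k = Pool.Agent.H304R3.HK.ts s e k ∧
    powers s e (k + 1) = Pool.Agent.H304R3.HK.ts s e (k + 1) := by
  intro k
  induction k with
  | zero => exact ⟨rfl, rfl⟩
  | succ k ih =>
    refine ⟨ih.2, ?_⟩
    show s * powers s e (k + 1) - e * powers s e k =
      s * Pool.Agent.H304R3.HK.ts s e (k + 1) - e * Pool.Agent.H304R3.HK.ts s e k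
    rw [ih.1, ih.2]

lemma trace_eq (N i : ℕ) (R : ℕ → ℕ → Multiset ℂ) (l : List Newform) (p k : ℕ) :
    trace N i R l p k = Pool.Agent.Q286.TR.trH N i R l p k := by
  unfold trace Pool.Agent.Q286.TR.trH
  simp only [(powers_eq _ _ k).1]

/-- a multiset as a family, padded by zeros -/
lemma pad (s : Multiset ℂ) : ∀ d : ℕ, s.card ≤ d → ∃ g : Fin d → ℂ, (∀ j, g j = 0 ∨ g j ∈ s) ∧
    ∀ k : ℕ, 1 ≤ k → ∑ j, g j ^ k = (s.map fun z => z ^ k).sum := by
  induction s using Multiset.induction_on with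
  | empty =>
    intro d _
    refine ⟨fun _ => 0, fun _ => Or.inl rfl, fun k hk => ?_⟩
    rw [Finset.sum_eq_zero fun j _ => zero_pow (by omega)]
    simp
  | cons z s ih =>
    intro d hd
    rw [Multiset.card_cons] at hd
    obtain ⟨d, rfl⟩ : ∃ e, d = e + 1 := ⟨d - 1, by omega⟩
    obtain ⟨g, h1, h2⟩ := ih d (by omega)
    refine ⟨Fin.cons z g, fun j => ?_, fun k hk => ?_⟩
    · refine Fin.cases ?_ (fun j => ?_) j
      · right
        simp
      · rcases h1 j with h | h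
        · left
          simpa using h
        · right
          simpa using Or.inr h
    · rw [Fin.sum_univ_succ, Multiset.map_cons, Multiset.sum_cons, ← h2 k hk]
      simp

open Pool.Agent.Q286 in
lemma outH {N i : ℕ} {R : ℕ → ℕ → Multiset ℂ} {l : List Newform} (h : Attached N i R l) {F Λ : ℂ → ℂ}
    (hc : IsCompleted N i R l F Λ) :
    PG.OutP (V N i R l) (cond l) (RiemannHypothesis i Λ) (((i : ℂ) + 1) / 2) (fun a => Real.exp (2 * a / deg l))
      (2 * Real.pi * deg l * (cond l : ℝ) ^ (-(1 / (deg l : ℝ)))) := by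
  obtain ⟨L, hm, hQ, h1, k, hk, h3⟩ := TR.exH2 h hc
  have hm' : L.m = deg l := hm
  have hQ' : L.Q = cond l := hQ
  have hW : ∀ (b : ℝ) (g : ℝ → ℂ), W N i R l b g = TR.W L b g := fun b g => by
    rw [h1]
    unfold W TR.WH
    simp only [trace_eq]
    rfl
  have hcr : ((i : ℂ) + 1) / 2 = ((((i : ℝ) + 1) / 2 : ℝ) : ℂ) := by push_cast; ring
  have H := PG.outP (L := L) PG.jp PG.pw (V := V N i R l) (Q0 := cond l) (R := RiemannHypothesis i Λ) (c := ((i : ℂ) + 1) / 2) hQ'
    (TR.rh_iff (L := L) (Λ := Λ) (c := ((i : ℂ) + 1) / 2) (r := ((i : ℝ) + 1) / 2) hcr hk h3).symm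
    (fun Q x a f _ _ _ => by
      have e1 : Real.log (Q / cond l) = -Real.log (cond l / Q) := by rw [← Real.log_inv, inv_div]
      unfold V PG.Vx
      rw [hW, e1]
      unfold TR.N PG.Cr
      ring)
  have e1 : PG.EE L = fun a => Real.exp (2 * a / deg l) := by
    funext a
    unfold PG.EE
    rw [hm']
  have e2 : PG.qq L = 2 * Real.pi * deg l * (cond l : ℝ) ^ (-(1 / (deg l : ℝ))) := by
    unfold PG.qq
    rw [hm', hQ']
  rw [e1, e2] at H
  exact H

open Pool.Agent.Q286 in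
/-- the finite changes -/
lemma finite {N d i : ℕ} {X : Scheme.{0}} {R : ℕ → ℕ → Multiset ℂ} (hR : IsWeil X N d R) {l : List Newform} (h : Attached N i R l)
    {F Λ : ℂ → ℂ} (hc : IsCompleted N i R l F Λ) {c : ℝ} (hc' : c < 2 * Real.pi * deg l * (cond l : ℝ) ^ (-(1 / (deg l : ℝ)))) :
    ∃ C : ℝ, 0 < C ∧
      (∀ (P : Finset ℕ) (B : ℕ) (θ : ℝ), (∀ p ∈ P, p.Prime ∧ ¬ p ∣ N) → θ < 1 → ∃ K A : ℝ, ∀ (a : ℝ) (ν : ℕ∞), A ≤ a →
        Large (C * a * Real.exp (2 * a / deg l)) ν → ∀ (Q : ℝ) (S : ℕ → Multiset ℂ), 0 < Q →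
        (∀ p ∈ P, (S p).card ≤ B ∧ ∀ z ∈ S p, ‖z‖ ≤ θ * (p : ℝ) ^ (((i : ℝ) + 1) / 2)) → Nonneg N i R l a ν Q (change N i R l P S) →
          Real.log (cond l / Q) ≤ Real.exp (-(c * Real.exp (2 * a / deg l))) ∧
          ∀ p ∈ P, ∀ k : ℕ, 1 ≤ k → Real.log p / ((p : ℝ) ^ (((i : ℝ) + 1) / 2)) ^ k *
            ‖((S p).map fun z => z ^ k).sum - ((R p i).map fun z => z ^ k).sum‖ ≤
              K * max 0 (Real.log (Q / cond l)) + Real.exp (-(c * Real.exp (2 * a / deg l)))) ∧
      ∀ k : ℕ, ∃ K A : ℝ, ∀ (a : ℝ) (ν : ℕ∞), A ≤ a → Large (C * a * Real.exp (2 * a / deg l)) ν →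
        ∀ (Q : ℝ) (x : ℕ → ℂ), 0 < Q → (∀ n, k < n → x n = 0) → Nonneg N i R l a ν Q x →
          Real.log (cond l / Q) ≤ Real.exp (-(c * Real.exp (2 * a / deg l))) ∧
          ∀ n, 2 ≤ n → n ≤ k → ‖x n‖ ≤ K * max 0 (Real.log (Q / cond l)) + Real.exp (-(c * Real.exp (2 * a / deg l))) := by
  obtain ⟨C, hC, h1, h2⟩ := (outH h hc).rig c hc'
  refine ⟨C, hC, fun P B θ hP hθ => ?_, fun k => ?_⟩
  swap
  · obtain ⟨K, A, -, h3⟩ := h1 k
    exact ⟨K, A, h3⟩
  have hlog : ∀ p ∈ P, 0 < Real.log p := fun p hp => Real.log_pos (by exact_mod_cast (hP p hp).1.one_lt)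
  have hs2 : (Real.sqrt 2)⁻¹ < 1 := inv_lt_one_of_one_lt₀ (Real.lt_sqrt_of_sq_lt (by norm_num))
  have hs0 : 0 ≤ (Real.sqrt 2)⁻¹ := inv_nonneg.2 (Real.sqrt_nonneg 2)
  obtain ⟨K, A, -, h3⟩ := h2 P (fun p hp => (hP p hp).1.two_le) (max B (P.sup fun p => (R p i).card)) (max θ (Real.sqrt 2)⁻¹)
    (max_lt hθ hs2)
  refine ⟨K, A, fun a ν ha hν Q S hQ hS hp => ?_⟩
  have hα : ∀ p ∈ P, ∃ g : Fin (max B (P.sup fun p => (R p i).card)) → ℂ, (∀ j, g j = 0 ∨ g j ∈ R p i) ∧
      ∀ k : ℕ, 1 ≤ k → ∑ j, g j ^ k = ((R p i).map fun z => z ^ k).sum := fun p hp =>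
    pad _ _ ((Finset.le_sup (f := fun p => (R p i).card) hp).trans (le_max_right _ _))
  have hβ : ∀ p ∈ P, ∃ g : Fin (max B (P.sup fun p => (R p i).card)) → ℂ, (∀ j, g j = 0 ∨ g j ∈ S p) ∧
      ∀ k : ℕ, 1 ≤ k → ∑ j, g j ^ k = ((S p).map fun z => z ^ k).sum := fun p hp =>
    pad _ _ ((hS p hp).1.trans (le_max_left _ _))
  choose! α hα1 hα2 using hα
  choose! β hβ1 hβ2 using hβ
  -- the normalisation
  have hq0 : ∀ p ∈ P, 0 < (p : ℝ) ^ (((i : ℝ) + 1) / 2) := fun p hp => Real.rpow_pos_of_pos (by exact_mod_cast (hP p hp).1.pos) _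
  have hnα : ∀ p ∈ P, ∀ j, ‖α p j / (((p : ℝ) ^ (((i : ℝ) + 1) / 2) : ℝ) : ℂ)‖ ≤ max θ (Real.sqrt 2)⁻¹ := by
    intro p hp j
    have hp2 : (2 : ℝ) ≤ p := by exact_mod_cast (hP p hp).1.two_le
    have hp0 : (0 : ℝ) < p := by linarith
    refine le_trans ?_ (le_max_right _ _)
    rcases hα1 p hp j with h4 | h4
    · rw [h4, zero_div, norm_zero]
      exact hs0
    · have h5 := hR.weight p i (hP p hp).1 (hP p hp).2 _ h4
      rw [norm_div, Complex.norm_real, Real.norm_of_nonneg (hq0 p hp).le, h5, ← Real.rpow_sub hp0]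
      have e1 : (i : ℝ) / 2 - ((i : ℝ) + 1) / 2 = -(1 / 2) := by ring
      rw [e1, Real.rpow_neg hp0.le, ← Real.sqrt_eq_rpow]
      exact inv_anti₀ (Real.sqrt_pos.2 (by norm_num)) (Real.sqrt_le_sqrt hp2)
  have hnβ : ∀ p ∈ P, ∀ j, ‖β p j / (((p : ℝ) ^ (((i : ℝ) + 1) / 2) : ℝ) : ℂ)‖ ≤ max θ (Real.sqrt 2)⁻¹ := by
    intro p hp j
    rcases hβ1 p hp j with h4 | h4
    · rw [h4, zero_div, norm_zero]
      exact hs0.trans (le_max_right _ _)
    · refine le_trans ?_ (le_max_left _ _)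
      rw [norm_div, Complex.norm_real, Real.norm_of_nonneg (hq0 p hp).le, div_le_iff₀ (hq0 p hp)]
      exact (hS p hp).2 _ h4
  have hch : ∀ p ∈ P, ∀ k, 1 ≤ k → change N i R l P S (p ^ k) = ((Real.log p / ((p : ℝ) ^ (((i : ℝ) + 1) / 2)) ^ k : ℝ) : ℂ) *
      (((S p).map fun z => z ^ k).sum - ((R p i).map fun z => z ^ k).sum) := by
    intro p hp k hk
    have hpp := (hP p hp).1
    unfold change
    rw [hpp.pow_minFac (by omega), if_pos hp, ArithmeticFunction.vonMangoldt_apply_pow (by omega), ArithmeticFunction.vonMangoldt_apply_prime hpp,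
      hpp.factorization_pow, Finsupp.single_eq_same]
    unfold trace
    rw [if_neg (hP p hp).2, Nat.cast_pow, ← Real.rpow_natCast (p : ℝ) k, ← Real.rpow_mul (Nat.cast_nonneg p), mul_comm (k : ℝ),
      Real.rpow_mul (Nat.cast_nonneg p), Real.rpow_natCast]
    push_cast
    ring
  have hx : ∀ p ∈ P, ∀ k, 1 ≤ k → change N i R l P S (p ^ k) = Real.log p *
      (∑ j, (β p j / (((p : ℝ) ^ (((i : ℝ) + 1) / 2) : ℝ) : ℂ)) ^ k - ∑ j, (α p j / (((p : ℝ) ^ (((i : ℝ) + 1) / 2) : ℝ) : ℂ)) ^ k) := by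
    intro p hp k hk
    have h0 : (((p : ℝ) ^ (((i : ℝ) + 1) / 2) : ℝ) : ℂ) ≠ 0 := by exact_mod_cast (hq0 p hp).ne'
    rw [hch p hp k hk]
    simp only [div_pow, ← Finset.sum_div]
    rw [hα2 p hp k hk, hβ2 p hp k hk]
    push_cast
    field_simp
  obtain ⟨h4, h5⟩ := h3 a ν ha hν Q (change N i R l P S) (fun p j => α p j / (((p : ℝ) ^ (((i : ℝ) + 1) / 2) : ℝ) : ℂ))
    (fun p j => β p j / (((p : ℝ) ^ (((i : ℝ) + 1) / 2) : ℝ) : ℂ)) hQ (fun p hp j => ⟨hnα p hp j, hnβ p hp j⟩)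
    (fun n hn hn2 => by
      unfold change
      by_cases h4 : n.minFac ∈ P
      · rw [if_pos h4]
        have h5 : ArithmeticFunction.vonMangoldt n = 0 := by
          rw [ArithmeticFunction.vonMangoldt_eq_zero_iff]
          rintro ⟨p, k, hp, hk, rfl⟩
          have hp' := hp.nat_prime
          rw [hp'.pow_minFac (by omega)] at h4
          exact hn2 p h4 k rfl
        rw [h5]
        simp
      · rw [if_neg h4])
    hx hp
  refine ⟨h4, fun p hp k hk => ?_⟩
  have h6 := h5 p hp k hk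
  rwa [hch p hp k hk, norm_mul, Complex.norm_real, Real.norm_of_nonneg (div_nonneg (hlog p hp).le (pow_nonneg (hq0 p hp).le _))] at h6

/-- **The theorem.** Let `X` be a proper smooth scheme over `ℤ[1/N]` of relative dimension `d`, let `R p i` be the
reciprocal roots of `P_i(X(p), T)`, `p ∤ N`, and let `H^i` be attached to the list `l` of newforms. -/
theorem result (N d i : ℕ) (hN : 1 ≤ N) (X : Scheme.{0})
    (π : X ⟶ Spec (CommRingCat.of (Localization.Away (N : ℤ)))) [IsProper π] [SmoothOfRelativeDimension d π]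
    (R : ℕ → ℕ → Multiset ℂ) (hR : IsWeil X N d R) (hi : i ≤ 2 * d) (l : List Newform) (hl : Attached N i R l) :
    ∃ F Λ : ℂ → ℂ, IsCompleted N i R l F Λ ∧
      (∀ F' Λ' : ℂ → ℂ, IsCompleted N i R l F' Λ' → F' = F ∧ Λ' = Λ) ∧
      (∀ c : ℝ, c < 2 * Real.pi * deg l * (cond l : ℝ) ^ (-(1 / (deg l : ℝ))) → ∃ C : ℝ, 0 < C ∧
        (∀ (P : Finset ℕ) (B : ℕ) (θ : ℝ), (∀ p ∈ P, p.Prime ∧ ¬ p ∣ N) → θ < 1 → ∃ K A : ℝ, ∀ (a : ℝ) (ν : ℕ∞), A ≤ a →
          Large (C * a * Real.exp (2 * a / deg l)) ν → ∀ (Q : ℝ) (S : ℕ → Multiset ℂ), 0 < Q →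
          (∀ p ∈ P, (S p).card ≤ B ∧ ∀ z ∈ S p, ‖z‖ ≤ θ * (p : ℝ) ^ (((i : ℝ) + 1) / 2)) → Nonneg N i R l a ν Q (change N i R l P S) →
            Real.log (cond l / Q) ≤ Real.exp (-(c * Real.exp (2 * a / deg l))) ∧
            ∀ p ∈ P, ∀ k : ℕ, 1 ≤ k → Real.log p / ((p : ℝ) ^ (((i : ℝ) + 1) / 2)) ^ k *
              ‖((S p).map fun z => z ^ k).sum - ((R p i).map fun z => z ^ k).sum‖ ≤
                K * max 0 (Real.log (Q / cond l)) + Real.exp (-(c * Real.exp (2 * a / deg l)))) ∧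
        ∀ k : ℕ, ∃ K A : ℝ, ∀ (a : ℝ) (ν : ℕ∞), A ≤ a → Large (C * a * Real.exp (2 * a / deg l)) ν →
          ∀ (Q : ℝ) (x : ℕ → ℂ), 0 < Q → (∀ n, k < n → x n = 0) → Nonneg N i R l a ν Q x →
            Real.log (cond l / Q) ≤ Real.exp (-(c * Real.exp (2 * a / deg l))) ∧
            ∀ n, 2 ≤ n → n ≤ k → ‖x n‖ ≤ K * max 0 (Real.log (Q / cond l)) + Real.exp (-(c * Real.exp (2 * a / deg l)))) ∧
      ∃ C : ℝ, 0 < C ∧
        (∀ (B ε : ℝ) (k : ℕ), 0 < ε → ∃ A δ : ℝ, 0 < δ ∧ ∀ (a : ℝ) (ν : ℕ∞), A ≤ a → Large (C * a * Real.exp (2 * a / deg l)) ν →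
          ∀ (Q : ℝ) (x : ℕ → ℂ), 0 < Q → Real.log (Q / cond l) ≤ δ → ∑ n ∈ Finset.Icc 2 ⌊Real.exp (2 * a)⌋₊, ‖x n‖ ≤ B →
            Nonneg N i R l a ν Q x → Real.log (cond l / Q) ≤ ε ∧ ∀ n, 2 ≤ n → n ≤ k → ‖x n‖ ≤ ε) ∧
        (∀ (Q : ℝ) (x : ℕ → ℂ), 0 < Q → Q ≤ cond l → (Summable fun n => ‖x n‖) →
          ((∀ A : ℝ, ∃ (a : ℝ) (ν : ℕ∞), A ≤ a ∧ Large (C * a * Real.exp (2 * a / deg l)) ν ∧ Nonneg N i R l a ν Q x) ↔
            RiemannHypothesis i Λ ∧ Q = cond l ∧ ∀ n, 2 ≤ n → x n = 0)) ∧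
        (RiemannHypothesis i Λ ↔ ∀ ε : ℝ, 0 < ε → ∀ A : ℝ, ∃ (a : ℝ) (ν : ℕ∞) (Q : ℝ) (x : ℕ → ℂ), A ≤ a ∧
          Large (C * a * Real.exp (2 * a / deg l)) ν ∧ 0 < Q ∧ Real.log (Q / cond l) ≤ Real.exp (ε * a) ∧
          ∑ n ∈ Finset.Icc 2 ⌊Real.exp (2 * a)⌋₊, ‖x n‖ ≤ Real.exp (ε * a) ∧ Nonneg N i R l a ν Q x) ∧
        ∀ (k : ℕ) (B : ℝ), cond l ≤ B → (RiemannHypothesis i Λ ↔ ∀ A : ℝ, ∃ (a : ℝ) (ν : ℕ∞) (Q : ℝ) (x : ℕ → ℂ), A ≤ a ∧
          Large (C * a * Real.exp (2 * a / deg l)) ν ∧ 0 < Q ∧ Q ≤ B ∧ (∀ n, k < n → x n = 0) ∧ Nonneg N i R l a ν Q x) := by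
  obtain ⟨c, Λ₀, F, hc, hF, h⟩ := exists_hw hl
  exact ⟨F, _, h, fun F' Λ' h' => uniq_hw h h', fun c hc => finite hR hl h hc, (outH hl h).bnd⟩

end Pool.Agent.Results.MP_7193be_nt.PrimeRigidity
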