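import Pool.Agent.Q246.HW.Base
import Pool.Agent.Q246.HW.Tr

/-!
# Zeros of Hasse-Weil L-functions attached to newforms off the line

Let `X` be a proper smooth scheme over `ℤ[1/N]`, and suppose that the L-function of `H^i(X)` is a product of
L-functions of holomorphic newforms, of arbitrary levels and nebentypus characters and of weights
`k ≤ i + 1`, `k ≡ i + 1 mod 2`, twisted `j = (i + 1 - k)/2` times.  Examples: `H¹` of all modular curves
`X_0(M)`, `X_1(M)` and of their quotients, of all abelian varieties over `ℚ` of `GL₂`-type and their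
products (Khare-Wintenberger, Ribet), of all curves of which the Jacobian is such a product; `H³` of the
rigid Calabi-Yau threefolds (Gouvêa-Yui, Dieulefait), of which the Galois representation is attached to a newform
of weight four; `H^i`, `i` odd, of products of these with varieties all of whose cohomology is
algebraic over `ℚ`; `H^i`, `i` odd, of the powers of an elliptic curve over `ℚ` with complex multiplication
(newforms of the weights `2, 4, …, i + 1`).
Let `Λ(s)` be the completed L-function; part (d) of the problem says that all its zeros are on the line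
`Re s = (i + 1)/2`.

We prove, without any hypothesis, for EVERY `c < 1`: the number of zeros of `Λ` with imaginary part in `(0, T]`
and distance at least `δ` from the line `Re s = (i + 1)/2`, counted with multiplicity, is at most
`C T^(1 - c δ) log T`, for all `δ ≥ 0` and all `T ≥ 2`: Selberg's density theorem near the line, with every
exponent `c < 1`.

The density theorem of helper24 (modules `Pool.Agent.Y24.GL`, on project GD2 of helper671, `Pool.Agent.Y671`) for
L-functions given by axioms is applied to newforms with nebentypus and their products in the modules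
`Pool.Agent.Q246.NC`; here it is applied to the schemes.
-/
set_option autoImplicit false

open Complex AlgebraicGeometry CategoryTheory
open scoped ComplexConjugate
open Pool.Agent.Q246.HW

namespace Pool.Agent.Results.MP_7193be_nt.ZeroDensity

/-- The zeros of `Λ` with imaginary part in `(0, T]` and distance at least `δ` from the line `Re s = x`. -/
def Off (x : ℝ) (Λ : ℂ → ℂ) (δ T : ℝ) : Set ℂ := {s | Λ s = 0 ∧ δ ≤ |s.re - x| ∧ 0 < s.im ∧ s.im ≤ T}

/-- The number of points of `A`, each counted with its multiplicity as a zero of `Λ`. -/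
noncomputable def num (Λ : ℂ → ℂ) (A : Set ℂ) : ℕ := ∑ᶠ s ∈ A, analyticOrderNatAt Λ s

/-- **The theorem.** Let `X` be a proper smooth scheme over `ℤ[1/N]` of relative dimension `d`, let `R p i` be the
reciprocal roots of `P_i(X(p), T)`, `p ∤ N`, and let `H^i` be attached to the list `l` of newforms.  Then the
L-function `F` of `H^i` and the completed L-function `Λ` exist, are unique, entire, `Λ` has a functional equation
`s ↦ i + 1 - s`; and for every `c < 1` there is `C` such that for all `δ ≥ 0` and `T ≥ 2` the
number of zeros of `Λ` with imaginary part in `(0, T]` and distance at least `δ` from the line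
`Re s = (i + 1)/2`, counted with multiplicity, is at most `C T^(1 - c δ) log T`. -/
theorem result (N d i : ℕ) (hN : 1 ≤ N) (X : Scheme.{0})
    (π : X ⟶ Spec (CommRingCat.of (Localization.Away (N : ℤ)))) [IsProper π] [SmoothOfRelativeDimension d π]
    (R : ℕ → ℕ → Multiset ℂ) (hR : IsWeil X N d R) (hi : i ≤ 2 * d) (l : List Newform) (hl : Attached N i R l) :
    ∃ F Λ : ℂ → ℂ, IsCompleted N i R l F Λ ∧
      (∀ F' Λ' : ℂ → ℂ, IsCompleted N i R l F' Λ' → F' = F ∧ Λ' = Λ) ∧
      ∀ c : ℝ, c < 1 → ∃ C : ℝ, 0 < C ∧ ∀ δ T : ℝ, 0 ≤ δ → 2 ≤ T →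
        (Off ((i + 1) / 2) Λ δ T).Finite ∧
          (num Λ (Off ((i + 1) / 2) Λ δ T) : ℝ) ≤ C * T ^ (1 - c * δ) * Real.log T := by
  obtain ⟨c, Λ₀, F, hc, hF, h⟩ := exists_hw hl
  have hu : ∀ s : ℂ, (fun s : ℂ => (c : ℂ) * Λ₀ (s - i / 2)) s = c * Λ₀ (s - (((i : ℝ) / 2 : ℝ) : ℂ)) := fun s => by
    simp only
    push_cast
    rfl
  have hx : ((i : ℝ) + 1) / 2 = 1 / 2 + (i : ℝ) / 2 := by ring
  exact ⟨F, _, h, fun F' Λ' h' => uniq_hw h h', fun k hk => off1 hF hx hc hu hk⟩

end Pool.Agent.Results.MP_7193be_nt.ZeroDensity
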