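import Mathlib
import Pool.Agent.Q256.VD.Fin

set_option autoImplicit false

/-!
# Vojta's inequality with discriminant for the covers of almost all pairs

`Y ⊆ ℙⁿ` is a fixed variety over `ℚ`, `𝒴` a set of rational points of `Y` (given by coprime
coordinates) and `w` a height for `-K_Y` on `𝒴` such that `∑_{y ∈ 𝒴} exp (-(w(y) + ε h(y)))`
converges for all `ε > 0`, for instance `𝒴 = ℙⁿ(ℚ)` or `(ℙ^a × ℙ^b)(ℚ)`.  `X ⊆ Y` is the
intersection with `s` hypersurfaces `G_j = 0` of degrees `e_j`, and `F_i`, `i < r`, are forms of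
degrees `d_i`.  The `M` coefficients of the `G_j` and `F_i` run through `[-H, H]`.

Let `Z → X` be a finite cover with ramification indices `m_i` over `F_i = 0` and unramified
elsewhere, for instance the cover `x_i ^ (m_i) = F_i` (if `m_i` divides `d_i`).  Then
`K_Z = K_Y + ∑ e_j + ∑ (1 - 1 / m_i) d_i` (pulled back), the reduced preimage `E_i` of `F_i = 0` is
`d_i / m_i`, and we put `D = ∑_{i ∈ I} E_i` for a set `I`.  If the point `y` of `X` has a preimage
`P` in `Z(L)`, then every prime of `L` outside a finite set of primes `S`, which divides `F_i(y)`,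
divides it at least `m_i` times; this is the only thing used about `Z`.

For almost all systems of forms the inequality
`h_{K_Z}(P) + m_{S,D}(P) ≤ d(L) + ε h(P) - (s + r - ∑_{i ∉ I} 1 / m_i - δ) log T + c`
holds for ALL covers of ALL degrees, ALL number fields `L` and ALL points `P` above the points of
`𝒴` on `X`, outside `∏ F_i = 0`, which are cut out by `n` hyperplanes with integral coefficients in
`[-T, T]`, in particular above all points of height at most `log T`.  The exceptional systems, at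
most `C T^(M - δ + ε)`, do not depend on the covers and fields.

* `Box n d B` : forms of degree `d` in `n + 1` variables, integral coefficients in `[-B, B]`;
* `Prim y` : the integral vector `y` has coprime coordinates; `ht y` : its logarithmic height;
* `CutOut T x` : `x` is the intersection point of `n` independent hyperplanes with integral
  coefficients in `[-T, T]`;
* `Conv 𝒴 w` : the series converges;
* `Orb S L m v` : the primes of `L` outside `S` divide `v` at least `m` times, if at all;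
* `logDisc L` : the logarithmic discriminant; `hK`, `proxI` : `h_{K_Z}` and `m_{S,D}` above `y`;
* `FailsD` : the systems for which the inequality fails for some such cover, field and point.
-/

namespace Pool.Agent.Results.MP_71c16a_nt.AlmostAllRamifiedCovers

open MvPolynomial
open Pool.Agent.Q256.CI Pool.Agent.Q256.VT Pool.Agent.Q256.VS Pool.Agent.Q256.VD

theorem result (n s r : ℕ) (S : Finset ℕ) (e : Fin s → ℕ) (d : Fin r → ℕ) (hd : ∀ i, 1 ≤ d i)
    (𝒴 : Set (Fin (n + 1) → ℤ)) (hprim : ∀ y ∈ 𝒴, Prim y)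
    (w : (Fin (n + 1) → ℤ) → ℝ) (hw : Conv 𝒴 w) (ε : ℝ) (hε : 0 < ε) :
    -- Vojta's inequality with discriminant
    (∃ C : ℝ, ∀ (δ : ℝ) (H T : ℕ), 1 ≤ H → H ≤ T →
      (Nat.card (FailsD S e d 𝒴 w H T ε δ (∑ i, Real.log ((n + d i).choose n))) : ℝ) ≤
        C * (T : ℝ) ^
          ((∑ j, ((n + e j).choose n : ℝ)) + (∑ i, ((n + d i).choose n : ℝ)) - δ + ε)) ∧
    -- the points of the covers `x ^ m = F`
    (∀ (L : Type) (_ : Field L) (_ : NumberField L) (m : ℕ) (v : ℤ) (x : L), 1 ≤ m →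
      x ^ m = (v : L) → Orb S L m v) ∧
    -- the number of all systems, and the points of height at most `T`
    (∀ H : ℕ, Nat.card {P : Sys n s r // InBox e d H P} =
      (2 * H + 1) ^ ((∑ j, (n + e j).choose n) + ∑ i, (n + d i).choose n)) ∧
    (∀ (T : ℕ) (y : Fin (n + 1) → ℤ), y ≠ 0 → (∀ k, |y k| ≤ T) →
      CutOut T (fun k => (y k : ℚ))) ∧
    -- examples: any set with a bound for the number of points, `ℙ^a`, and `ℙ^a × ℙ^b`
    (∀ (a : ℕ) (𝒵 : Set (Fin (a + 1) → ℤ)), (∀ y ∈ 𝒵, Prim y) → ∀ κ : ℝ,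
      (∀ ε : ℝ, 0 < ε → ∃ C : ℝ, ∀ B : ℕ, 1 ≤ B →
        (Nat.card {y : Fin (a + 1) → ℤ // y ∈ 𝒵 ∧ ∀ k, |y k| ≤ B} : ℝ) ≤
          C * (B : ℝ) ^ (κ + ε)) → Conv 𝒵 (fun y => κ * ht y)) ∧
    (∀ a : ℕ, Conv {y : Fin (a + 1) → ℤ | Prim y} (fun y => ((a : ℝ) + 1) * ht y)) ∧
    (∀ a b : ℕ, ∃ w : (Fin (a * b + a + b + 1) → ℤ) → ℝ,
      (∀ (u : Fin (a + 1) → ℤ) (v : Fin (b + 1) → ℤ), Prim u → Prim v →
        w (segre u v) = ((a : ℝ) + 1) * ht u + ((b : ℝ) + 1) * ht v) ∧
      Conv {y | ∃ (u : Fin (a + 1) → ℤ) (v : Fin (b + 1) → ℤ),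
        Prim u ∧ Prim v ∧ y = segre u v} w) := by
  refine ⟨?_, fun L _ _ m v x hm hx => orb_of_root S v m hm x hx, fun H => total2 e d H,
    fun T y hy hT => cutOut_small T y hy hT, fun a 𝒵 h𝒵 κ hκ => conv_count 𝒵 h𝒵 κ hκ,
    fun a => conv_proj a, fun a b => conv_segre a b⟩
  obtain ⟨C, hC⟩ := failsD (n := n) S e d hd 𝒴 hprim w hw ε hε
  exact ⟨C, fun δ H T hH hHT => hC δ H T (hH.trans hHT) hHT⟩

end Pool.Agent.Results.MP_71c16a_nt.AlmostAllRamifiedCovers
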