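import Mathlib
import Pool.Agent.Q273.ApxF
import Pool.Agent.Results.MP_71c16a_nt.AllCurvesProximity

/-!
# Vojta's inequality for the points of a curve above the good approximations of almost all points

Let `X` be a smooth projective curve over a number field, `D` a reduced effective divisor on `X`
and `t : X → ℙ¹` a finite map of degree `N` over `ℚ` which is unramified outside the fibres over
three rational points `a_0, a_1, a_2` and maps the points of `D` to the `a_j` (such a map exists by
Belyi's theorem; we may suppose that `a_j ≠ ∞`). Let `A` be the ring of functions on `X` with poles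
only over `∞`: a Dedekind domain, finite over `ℚ[t]`. Let `y_{j 0} = t - a_j, y_{j 1}, …` be
generators of the radical of the ideal `(t - a_j)`, the ideal of the reduced fibre `F_j` over
`a_j`. Then `F = ∑ F_j ≥ D`, and
`(deg K_X) / N = 1 - (∑_j dim (A / (y_{j 0}, y_{j 1}, …))) / N`.

The points `P` of `X` (not over `∞`) over a number field `L` are the homomorphisms `φ : A → L`, and
`λ_v(P) = ∑_j max(0, - log max_i |y_{j i}(P)|_v)` is a Weil function of `F` at `v`.

Let `K` be a number field of degree `d`, `Y` a metric space, `ψ` a map from `K` to `Y`, for instance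
the inclusion in a completion, `2 < κ < 3` and `τ > 0`. For all points `ξ ∈ Y` outside a set of
Hausdorff dimension at most `d min(4 (3 - κ) / 7, 20 / 37) / τ`, for all but finitely many of the
`x ∈ K` with `dist(ξ, ψ(x)) ≤ B H(x) ^ (-τ)`, all points `P` of `X` with `t(P) = x`, over any number
field `L` containing `K`, satisfy Vojta's inequality.
-/

set_option autoImplicit false

namespace Pool.Agent.Results.MP_71c16a_nt.GoodApproximations

open Polynomial IsDedekindDomain NumberField

/-- The absolute logarithmic Weil height `h(x)`. -/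
noncomputable def height {K : Type} [Field K] [NumberField K] (x : K) : ℝ :=
  (1 / (Module.finrank ℚ K : ℝ)) *
    ((∑ w : InfinitePlace K, (w.mult : ℝ) * Real.log (max 1 (w x))) +
      ∑ᶠ v : HeightOneSpectrum (RingOfIntegers K), Real.log (max 1 (FinitePlace.mk v x)))

/-- the function `t` -/
noncomputable def coord (A : Type) [CommRing A] [Algebra ℚ[X] A] : A := algebraMap ℚ[X] A X

/-- `max (0, - log max_i c_i)` -/
noncomputable def minusLog {s : ℕ} (c : Fin (s + 1) → ℝ) : ℝ := max 0 (-Real.log (⨆ i, c i))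

open Classical in
/-- The proximity function `m_S(F, P)`: the sum over the infinite places `w` (with
`mult w = [L_w : ℝ]`) and the primes `v` above the primes of `S` of the local heights
`∑_j max (0, - log max_i |y_{j i}(P)|)`, divided by `[L : ℚ]`. The absolute values are normalised
so that the product formula holds: `|b|_v = N(v) ^ (- v(b))`. -/
noncomputable def proximity {A : Type} [CommRing A] (S : Finset ℕ)
    (u : Fin 3 → ℕ) (y : ∀ j, Fin (u j + 1) → A)
    (L : Type) [Field L] [NumberField L] (φ : A →+* L) : ℝ :=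
  ((∑ w : InfinitePlace L, (w.mult : ℝ) * ∑ j, minusLog (fun i => w (φ (y j i)))) +
    ∑ᶠ v : HeightOneSpectrum (𝓞 L), if ∃ p ∈ S, (p : 𝓞 L) ∈ v.asIdeal then
      ∑ j, minusLog (fun i => FinitePlace.mk v (φ (y j i))) else 0) / Module.finrank ℚ L

/-- The logarithmic discriminant `log |disc L| / [L : ℚ]`. -/
noncomputable def logDisc (L : Type) [Field L] [NumberField L] : ℝ :=
  Real.log |(NumberField.discr L : ℝ)| / Module.finrank ℚ L

/-- `3 - (∑_j dim (A / (y_{j 0}, y_{j 1}, …))) / N`, where `N` is the rank of `A` over `ℚ[t]`. -/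
noncomputable def degree {A : Type} [CommRing A] [Algebra ℚ A] [Algebra ℚ[X] A]
    (u : Fin 3 → ℕ) (y : ∀ j, Fin (u j + 1) → A) : ℝ :=
  3 - (∑ j, (Module.finrank ℚ (A ⧸ Ideal.span (Set.range (y j))) : ℝ)) / Module.finrank ℚ[X] A

/-- The elements `x` of `K` with `dist(ξ, ψ(x)) ≤ B H(x) ^ (-τ)` over which there is a point `P = φ`
of the curve, defined over a number field `L` which contains `K`, such that
`m_S(F, P) + (degree - κ) h(x) ≤ d(L) + ∑_{p ∈ S} log p + C₀` fails for some finite set `S` of
primes; here `H(x) = exp h(x)`. -/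
def BadApproximations (K : Type) [Field K] [NumberField K] {A : Type} [CommRing A] [Algebra ℚ A]
    [Algebra ℚ[X] A] (u : Fin 3 → ℕ) (y : ∀ j, Fin (u j + 1) → A) {Y : Type} [MetricSpace Y]
    (ψ : K → Y) (ξ : Y) (τ B κ C₀ : ℝ) : Set K :=
  {x | dist ξ (ψ x) ≤ B * (Real.exp (height x)) ^ (-τ) ∧
    ∃ (L : Type) (_ : Field L) (_ : NumberField L) (_ : Algebra K L)
    (φ : A →+* L) (S : Finset ℕ), φ (coord A) = algebraMap K L x ∧ (∀ p ∈ S, p.Prime) ∧
      logDisc L + ∑ p ∈ S, Real.log p + C₀ < proximity S u y L φ + (degree u y - κ) * height x}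

/-- **Vojta's inequality for the points of a curve above the good approximations of almost all
points.** Let `A` be a Dedekind domain, finite over `ℚ[t]` and containing it (the ring of functions of
a smooth affine curve which is finite over the `t`-line), let `a_0, a_1, a_2` be distinct rational
numbers and `y_{j 0} = t - a_j, y_{j 1}, …, y_{j u_j}` elements of the radical of the ideal
`(t - a_j)`, for instance generators. Let `K` be a number field of degree `d`, `Y` a metric space,
`ψ` a map from `K` to `Y`, `2 < κ < 3` and `τ > 0`. There is a set `E ⊆ Y` of Hausdorff dimension at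
most `d min(4 (3 - κ) / 7, 20 / 37) / τ` such that for each `ξ ∈ Y` outside `E` and all real `B`,
`C₀`, all but finitely many `x ∈ K` with `dist(ξ, ψ(x)) ≤ B H(x) ^ (-τ)` have the property that
`m_S(F, P) + (degree - κ) h(x) ≤ d(L) + ∑_{p ∈ S} log p + C₀` for all number fields `L` containing
`K`, all points `P` of the curve over `L` with `t(P) = x` and all finite sets `S` of primes. -/
theorem result :
    ∀ (A : Type) [CommRing A] [IsDedekindDomain A] [Algebra ℚ A] [Algebra ℚ[X] A]
      [IsScalarTower ℚ ℚ[X] A] [Module.Finite ℚ[X] A] [FaithfulSMul ℚ[X] A]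
      (a : Fin 3 → ℚ), Function.Injective a →
    ∀ (u : Fin 3 → ℕ) (y : ∀ j, Fin (u j + 1) → A),
    (∀ j, y j 0 = coord A - algebraMap ℚ[X] A (C (a j))) →
    (∀ j i, y j i ∈ (Ideal.span {coord A - algebraMap ℚ[X] A (C (a j))}).radical) →
    ∀ (K : Type) [Field K] [NumberField K] (Y : Type) [MetricSpace Y] (ψ : K → Y) (κ τ : ℝ),
      2 < κ → κ < 3 → 0 < τ →
    ∃ E : Set Y, dimH E ≤
        ENNReal.ofReal ((Module.finrank ℚ K : ℝ) * min (4 * (3 - κ) / 7) (20 / 37) / τ) ∧
      ∀ ξ : Y, ξ ∉ E → ∀ B C₀ : ℝ, (BadApproximations K u y ψ ξ τ B κ C₀).Finite := by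
  intro A _ _ _ _ _ _ _ a ha u y hy0 hyr K _ _ Y _ ψ κ τ hκ hκ3 hτ
  have hmin : 0 ≤ min (4 * (3 - κ) / 7) (20 / 37 : ℝ) := le_min (by linarith) (by norm_num)
  let V : ℝ → Set K := fun C₀ => {x | ∃ (L : Type) (_ : Field L) (_ : NumberField L)
    (_ : Algebra K L) (φ : A →+* L) (S : Finset ℕ), φ (coord A) = algebraMap K L x ∧
      (∀ p ∈ S, p.Prime) ∧
      logDisc L + ∑ p ∈ S, Real.log p + C₀ < proximity S u y L φ + (degree u y - κ) * height x}
  obtain ⟨E, hE1, hE2⟩ := Q273.Apx.approx_family (ι := ℕ) (fun i => V (-(i : ℝ)))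
    (fun x => Real.exp (height x)) ψ
    (s := (Module.finrank ℚ K : ℝ) * min (4 * (3 - κ) / 7) (20 / 37)) (τ := τ) (by positivity) hτ (by
      intro i ε hε
      obtain ⟨C, hC⟩ := AllCurvesProximity.result A a ha u y hy0 hyr K κ (-(i : ℝ)) ε hκ hκ3 hε
      refine ⟨C, fun X hX => ?_⟩
      have hset : {x : K | x ∈ V (-(i : ℝ)) ∧ Real.exp (height x) ≤ X} =
          AllCurvesProximity.exceptional K u y κ (-(i : ℝ)) X := by
        ext x
        constructor
        · rintro ⟨h1, h2⟩
          exact ⟨h2, h1⟩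
        · rintro ⟨h1, h2⟩
          exact ⟨h2, h1⟩
      rw [hset]
      exact hC X hX)
  refine ⟨E, hE1, fun ξ hξ B C₀ => ?_⟩
  obtain ⟨N, hN⟩ := exists_nat_ge (-C₀)
  refine (hE2 ξ hξ N B).subset ?_
  rintro x ⟨h1, L, i1, i2, i3, φ, S, h2, h3, h4⟩
  exact ⟨⟨L, i1, i2, i3, φ, S, h2, h3, lt_of_le_of_lt (by linarith) h4⟩, h1⟩

end Pool.Agent.Results.MP_71c16a_nt.GoodApproximations
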