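import Pool.Agent.Q15.SiggersLoop

/-!
Every algebra (idempotent or not, finite or infinite) with a 6-ary Siggers term has a 4-ary
Siggers term.
-/

namespace Pool.Agent.Results.MP_71d0e6_al.SixImpliesFour

universe u v

variable {A : Type u} {ι : Type v}

/-- The `n`-ary term operations of the algebra on `A` with basic operations `F i` of arity
`ar i`: the smallest set of `n`-ary operations that contains the projections and is closed under
applying a basic operation. -/
inductive TermOp (ar : ι → ℕ) (F : ∀ i, (Fin (ar i) → A) → A) (n : ℕ) :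
    ((Fin n → A) → A) → Prop
  | proj (k : Fin n) : TermOp ar F n (fun x => x k)
  | comp (i : ι) (g : Fin (ar i) → (Fin n → A) → A) (hg : ∀ j, TermOp ar F n (g j)) :
      TermOp ar F n (fun x => F i (fun j => g j x))

/-- The algebra has a 6-ary Siggers term: a 6-ary term operation `s` with
`s(x,y,x,z,y,z) = s(y,x,z,x,z,y)`. -/
def HasSiggers6 (ar : ι → ℕ) (F : ∀ i, (Fin (ar i) → A) → A) : Prop :=
  ∃ s : (Fin 6 → A) → A, TermOp ar F 6 s ∧
    ∀ x y z : A, s ![x, y, x, z, y, z] = s ![y, x, z, x, z, y]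

/-- The algebra has a 4-ary Siggers term: a 4-ary term operation `s` with
`s(r,a,r,e) = s(a,r,e,a)`. -/
def HasSiggers4 (ar : ι → ℕ) (F : ∀ i, (Fin (ar i) → A) → A) : Prop :=
  ∃ s : (Fin 4 → A) → A, TermOp ar F 4 s ∧
    ∀ r a e : A, s ![r, a, r, e] = s ![a, r, e, a]

/-- Substituting term operations into a term operation gives a term operation. -/
theorem TermOp.subst {ar : ι → ℕ} {F : ∀ i, (Fin (ar i) → A) → A} {m n : ℕ}
    {s : (Fin m → A) → A} (hs : TermOp ar F m s) {g : Fin m → (Fin n → A) → A}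
    (hg : ∀ j, TermOp ar F n (g j)) : TermOp ar F n (fun x => s (fun j => g j x)) := by
  induction hs with
  | proj k => exact hg k
  | comp i f _ ih => exact TermOp.comp i (fun j x => f j (fun k => g k x)) ih

open Pool.Agent.Q15Sig

/-- Every algebra with a 6-ary Siggers term has a 4-ary Siggers term. -/
theorem result (ar : ι → ℕ) (F : ∀ i, (Fin (ar i) → A) → A) (h6 : HasSiggers6 ar F) :
    HasSiggers4 ar F := by
  obtain ⟨s, hs, hid⟩ := h6
  have hs' : Sig (B := (Fin 3 → A) → A) (fun f0 f1 f2 f3 f4 f5 v =>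
      s ![f0 v, f1 v, f2 v, f3 v, f4 v, f5 v]) := by
    intro x y z
    funext v
    exact hid _ _ _
  have key : ∀ {n : ℕ} {t0 t1 t2 t3 t4 t5 : (Fin n → A) → A}, TermOp ar F n t0 →
      TermOp ar F n t1 → TermOp ar F n t2 → TermOp ar F n t3 → TermOp ar F n t4 →
      TermOp ar F n t5 → TermOp ar F n (fun x => s ![t0 x, t1 x, t2 x, t3 x, t4 x, t5 x]) := by
    intro n t0 t1 t2 t3 t4 t5 h0 h1 h2 h3 h4 h5
    have hg : ∀ j : Fin 6, TermOp ar F n ((![t0, t1, t2, t3, t4, t5] :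
        Fin 6 → (Fin n → A) → A) j) := by
      intro j
      fin_cases j
      · exact h0
      · exact h1
      · exact h2
      · exact h3
      · exact h4
      · exact h5
    have := hs.subst hg
    convert this using 3
    rename_i x
    funext j
    fin_cases j <;> rfl
  have hR : Cl6 (B := (Fin 3 → A) → A) (fun f0 f1 f2 f3 f4 f5 v =>
      s ![f0 v, f1 v, f2 v, f3 v, f4 v, f5 v])
      (fun f g => ∃ t : (Fin 4 → A) → A, TermOp ar F 4 t ∧
        f = (fun v => t ![v 0, v 1, v 0, v 2]) ∧ g = (fun v => t ![v 1, v 0, v 2, v 1])) := by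
    rintro x0 x1 x2 x3 x4 x5 y0 y1 y2 y3 y4 y5
      ⟨t0, h0, rfl, rfl⟩ ⟨t1, h1, rfl, rfl⟩ ⟨t2, h2, rfl, rfl⟩
      ⟨t3, h3, rfl, rfl⟩ ⟨t4, h4, rfl, rfl⟩ ⟨t5, h5, rfl, rfl⟩
    exact ⟨_, key h0 h1 h2 h3 h4 h5, rfl, rfl⟩
  obtain ⟨b, t, ht, h1, h2⟩ := loopG4 hs' hR (r := fun v => v 0) (a := fun v => v 1)
    (e := fun v => v 2)
    ⟨_, TermOp.proj 0, rfl, rfl⟩ ⟨_, TermOp.proj 1, rfl, rfl⟩
    ⟨_, TermOp.proj 2, rfl, rfl⟩ ⟨_, TermOp.proj 3, rfl, rfl⟩
  refine ⟨t, ht, fun r a e => ?_⟩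
  have e1 := congrFun h1 ![r, a, e]
  have e2 := congrFun h2 ![r, a, e]
  exact e1.symm.trans e2

end Pool.Agent.Results.MP_71d0e6_al.SixImpliesFour
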