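import Pool.Agent.Q73.UT.Main

/-!
# The exceptional set of a plurisubharmonic function has Lebesgue measure zero

Positive answer to Q1.  The definitions (`Cn`, `circ`, `IsPSH`, `HasUpperTest`, `exceptional`) are
in `Pool.Agent.Q73.UT.Defs`.

Idea of the proof: slide paraboloids of opening `M` (any `M`, large) with vertex `y` in a small ball
from above until they touch `φ`.  If `x₁, x₂` are contact points of the vertices `y₁, y₂`, the
sub-mean value inequality at `x₁` and at `x₂` bounds the mean of the two gaps over balls of radius
`r ≥ |x₁ - x₂|` by a dimensional constant times `M r²`; the difference of the gaps is an affine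
function with gradient `M (y₂ - y₁)`, so `|y₁ - y₂| ≤ L |x₁ - x₂|` with `L = L(n)`.  Hence the set
of contact points, at which `φ` has a test function from above, fills a fixed fraction of every
small ball, and the complement has no density point.
-/

set_option autoImplicit false

open MeasureTheory Pool.Agent.Q73.UT

namespace Pool.Agent.Results.MP_725b87_an.ExceptionalSetNull

/-- For every `n ≥ 1`, every domain `Ω` of `ℂⁿ` (bounded pseudoconvex or not) and every
plurisubharmonic function `φ ≢ -∞` on `Ω`, the set `E(φ)` of the points of `Ω` without a
differential test from above has Lebesgue measure zero. -/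
theorem result (n : ℕ) (hn : 1 ≤ n) (Ω : Set (Cn n)) (hΩ : IsOpen Ω) (hconn : IsConnected Ω)
    (φ : Cn n → EReal) (hφ : IsPSH Ω φ) (hne : ∃ z ∈ Ω, φ z ≠ ⊥) :
    volume (exceptional Ω φ) = 0 :=
  main hn hΩ hconn.isPreconnected hφ hne

end Pool.Agent.Results.MP_725b87_an.ExceptionalSetNull
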