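import Pool.Agent.Q269.AV.A4

/-!
# The average order of the 2-torsion of the Tate-Shafarevich group, and the average rank, for the
# quadratic twists of hyperelliptic Jacobians of every genus over `k(t)`

Let `k` be a finite field of characteristic different from 2 in which `-1` is a square, `K = k(t)`, and
let `R` be a finite set. For each `r` in `R` let `n r ≥ 5` be an odd number and let `a r 1, …, a r (n r)`
be polynomials over `k` whose differences have the same degree `N r ≥ 1` and a squarefree product `Δ r`;
suppose that `Δ r` and `Δ r'` are coprime for `r ≠ r'`. For a monic squarefree polynomial `D` prime to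
all the `Δ r` let `C(r, D)` be the hyperelliptic curve of genus `(n r - 1) / 2 ≥ 2`

`y ^ 2 = D(t) (x - a r 1) ⋯ (x - a r (n r))`

over `K`, the quadratic twist by `D` of `C(r, 1)`, and let `J(r, D)` be its Jacobian. The group
`J(r, D)(L)`, `L` an extension of `K`, is the class group of the affine curve,
`Pic(L[x, y] / (y ^ 2 - D(t) ∏ (x - a r i)))` (there is one point at infinity and it is rational).

Let `Sha'(J)` be the group of the classes in `H ^ 1 (K, J)` which are trivial over the completions of `K`
at all the places different from infinity; it contains the Tate-Shafarevich group `Sha(J)`. For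
`J = J(r, D)` we consider the number

`S(r, D) = |J(K) / (J(K)[2] + 2 J(K))| |Sha'(J)[2]|`.

The first factor is at least `2 ^ rank J(K)`, and the second one is at least `|Sha(J)[2]|`, which is at
least `2 ^ c`, `c` the corank of the 2-primary part of the Tate-Shafarevich group, that is the number of
the copies of `ℚ₂ / ℤ₂` in it. (`Sha(J)` is finite if and only if `c = 0`, by Artin-Tate, Milne and
Kato-Trihan.) So `log₂ S(r, D) ≥ rank J(K) + c`.

The mean of a function of `D` is its mean over all the monic squarefree `D` of degree `m` prime to the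
`Δ r`; `k` is fixed and `m` tends to infinity, `m + N r` odd for all `r`.

Theorem. (1) The numbers `S(r, D)` are finite.
(2) For all natural numbers `e r` the limit superior of the mean of `∏_r S(r, D) ^ (e r)` is at most

`∏_r (1 + 2) (1 + 2 ^ 2) ⋯ (1 + 2 ^ (e r))`.

(3) The limit superior of the mean of `log₂ S(r, D)` is at most `ρ`, the mean value of the probability
distribution `p(e) = (β / 2) 2 ^ e / ((2 - 1) (2 ^ 2 - 1) ⋯ (2 ^ e - 1))` on the natural numbers,
`β = ∏_{i ≥ 0} (1 - 2 ^ (- 2 i - 1))`, and `ρ ≤ 1.265` (`ρ = 1.2644...`).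

So over `k(t)`, `k` fixed, and over ALL the twists, for every genus at least 2: the average of
`|Sha(J)[2]|` is at most 3, that of `|Sha(J)[2]| ^ 2` at most 15, that of `|Sha(J)[2]| ^ 3` at most 135;
the average of the rank, and even the average of the sum of the rank and of the corank of the 2-primary
part of `Sha(J)`, is at most 1.265. The bounds depend neither on the genus nor on `k`. (The explicit
formula for the L-functions bounds the average of the order of vanishing only by a number which grows
with the genus.) The expected values are 1/2 for the rank and 0 for the corank. For several families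
twisted by the same `D` the numbers `S(r, D)` behave, as far as (2) is concerned, like independent random
variables. The averages are not consequences of the laws of the bounds (MP_9faec4_nt,
SelmerLawSeveralFamilies), since these do not exclude that a set of twists of density zero carries all
the mass of the averages.

The proof: `S(r, D)` is at most the order `z(r, D)` of the kernel of an explicit symmetric matrix over
the field with two elements whose entries are quadratic residue symbols of the prime factors of `D` and
of `Δ r`. The number of the linearly independent `j`-tuples in the kernel has average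
`2 ^ (j (j + 1) / 2)` in every class of twists modulo `Δ r` over the cells of polynomials `D` which have
many prime factors of large degree, by the Riemann hypothesis for the character sums over primes, and
the powers of `z` are linear combinations of these numbers with Gaussian binomial coefficients. The
other `D` are so rare that they do not matter even with the weight `w ^ ω(D)`, for every `w` (`ω` the
number of the prime factors).
-/

set_option autoImplicit false
set_option linter.all false

namespace Pool.Agent.Results.MP_72e2e6_nt.AverageOrder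

open Polynomial Filter Pool.Agent.Y713.Jac IsDedekindDomain
open scoped Classical

/-- The product of the differences `a i - a j`, `i < j`. -/
noncomputable def differences {k : Type} [Field k] {n : ℕ} (a : Fin n → k[X]) : k[X] :=
  ∏ x ∈ (Finset.univ : Finset (Fin n × Fin n)).filter (fun x => x.1 < x.2), (a x.1 - a x.2)

/-- The monic squarefree polynomials `D` of degree `m` prime to the differences `a r i - a r j` of all
the families. -/
def Twists {k : Type} [Field k] {R : Type} {n : R → ℕ} (a : (r : R) → Fin (n r) → k[X]) (m : ℕ) :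
    Set k[X] :=
  {D | D.Monic ∧ D.natDegree = m ∧ Squarefree D ∧ ∀ r i j, i ≠ j → IsCoprime D (a r i - a r j)}

/-- The polynomial `D(t) (x - a 1) ⋯ (x - a n)` in `x` over `K = k(t)`. -/
noncomputable def twist {k : Type} [Field k] (K : Type) [Field K] [Algebra k[X] K] {n : ℕ}
    (a : Fin n → k[X]) (D : k[X]) : K[X] :=
  C (algebraMap k[X] K D) * ∏ i, (X - C (algebraMap k[X] K (a i)))

/-- For the Jacobian `J` of `y ^ 2 = F(x)` over `K = Frac R`, the number of the elements of
`J(K) / (J(K)[2] + 2 J(K))` times the number of the classes in `H ^ 1 (K, J)` killed by 2 which are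
trivial over the completions of `K` at the primes of `R` is at most `M`: if `x 1, …, x A` are points
different modulo `J(K)[2] + 2 J(K)` and `c 1, …, c B` are cocycles, locally trivial, killed by 2 in
`H ^ 1` and pairwise not cohomologous, then `A * B ≤ M`. -/
def BoundsPointsAndSha {K : Type} [Field K] (F : K[X]) (R : Type) [CommRing R]
    [IsDedekindDomain R] [Algebra R K] [IsFractionRing R K] (M : ℕ) : Prop :=
  ∀ (A B : ℕ) (x : Fin A → J 2 F K) (c : Fin B → Cochain 2 F),
    (∀ i j, i ≠ j → ¬ ∃ T y : J 2 F K, T ^ 2 = 1 ∧ x i = x j * T * y ^ 2) →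
    (∀ j, IsCocycle 2 F (c j)) → (∀ j, IsLocallyTrivial 2 F R (c j)) →
    (∀ j, IsCoboundary 2 F (fun σ => c j σ ^ 2)) →
    (∀ i j, i ≠ j → ¬ IsCoboundary 2 F (fun σ => c i σ / c j σ)) → A * B ≤ M

/-- The number `S`: the product of the orders of the groups `J(K) / (J(K)[2] + 2 J(K))` and
`Sha'(J)[2]`, the smallest number which satisfies `BoundsPointsAndSha`. -/
noncomputable def order {K : Type} [Field K] (F : K[X]) (R : Type) [CommRing R]
    [IsDedekindDomain R] [Algebra R K] [IsFractionRing R K] : ℕ :=
  sInf {M : ℕ | BoundsPointsAndSha F R M}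

/-- The mean of `f` over the set `S`. -/
noncomputable def mean {α : Type} (S : Set α) (f : α → ℝ) : ℝ := (∑ᶠ D ∈ S, f D) / (S.ncard : ℝ)

/-- The infinite product of the numbers `1 - 2 ^ (- 2 i - 1)`, `i ≥ 0`. -/
noncomputable def beta : ℝ := ∏' i : ℕ, (1 - (1 / 2 : ℝ) ^ (2 * i + 1))

/-- The probability of `e` in the law `p`. -/
noncomputable def law (e : ℕ) : ℝ :=
  beta / 2 * (2 ^ e / ∏ i ∈ Finset.range e, ((2 : ℝ) ^ (i + 1) - 1))

/-- The mean value of the law `p`. -/
noncomputable def rho : ℝ := ∑' e : ℕ, (e : ℝ) * law e

theorem law_eq : law = Pool.Agent.Q269.SL.law2 := by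
  funext e
  rw [Pool.Agent.Q269.SL.law2_eq]
  rfl

theorem rho_eq : rho = Pool.Agent.Q269.AV.rho := by
  rw [rho, law_eq]
  rfl

theorem mean_le {α : Type} {S : Set α} {f : α → ℝ} {c : ℝ} (hc : 0 ≤ c)
    (h : ∑ᶠ D ∈ S, f D ≤ c * (S.ncard : ℝ)) : mean S f ≤ c :=
  div_le_of_le_mul₀ (Nat.cast_nonneg _) hc h

theorem result (k : Type) [Field k] [Finite k] (h2 : (2 : k) ≠ 0) (hi : IsSquare (-1 : k))
    (K : Type) [Field K] [Algebra k[X] K] [IsFractionRing k[X] K] (R : Type) [Fintype R]
    (n : R → ℕ) (hn : ∀ r, Odd (n r)) (hn5 : ∀ r, 5 ≤ n r)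
    (N : R → ℕ) (hN : ∀ r, 1 ≤ N r) (a : (r : R) → Fin (n r) → k[X])
    (ha : ∀ r i j, i ≠ j → (a r i - a r j).natDegree = N r)
    (hs : ∀ r, Squarefree (differences (a r)))
    (hc : ∀ r r', r ≠ r' → IsCoprime (differences (a r)) (differences (a r'))) :
    (∃ c : ℝ, 0 < c ∧ ∀ᶠ m : ℕ in atTop,
      c * (Nat.card k : ℝ) ^ m ≤ ((Twists a m).ncard : ℝ)) ∧
    (∀ m : ℕ, (∀ r, Odd (m + N r)) → ∀ D ∈ Twists a m, ∀ r,
      BoundsPointsAndSha (twist K (a r) D) k[X] (order (twist K (a r) D) k[X])) ∧
    (∀ e : R → ℕ, ∀ ε : ℝ, 0 < ε → ∀ᶠ m : ℕ in atTop, (∀ r, Odd (m + N r)) →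
      mean (Twists a m) (fun D => ∏ r, (order (twist K (a r) D) k[X] : ℝ) ^ e r) ≤
        ∏ r, ∏ i ∈ Finset.range (e r), (1 + (2 : ℝ) ^ (i + 1)) + ε) ∧
    HasSum law 1 ∧ Summable (fun e : ℕ => (e : ℝ) * law e) ∧ rho ≤ 1.265 ∧
    (∀ r : R, ∀ ε : ℝ, 0 < ε → ∀ᶠ m : ℕ in atTop, (∀ r, Odd (m + N r)) →
      mean (Twists a m) (fun D => Real.logb 2 (order (twist K (a r) D) k[X])) ≤ rho + ε) := by
  have hn3 : ∀ r, 3 ≤ n r := fun r => le_trans (by norm_num) (hn5 r)
  have h := Pool.Agent.Q269.SL.final_all h2 hi K hn hn3 N hN a ha hs hc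
  have h' := Pool.Agent.Q269.AV.final_mom h2 hi K hn hn3 N hN a ha hs hc
  have hρ : 0 ≤ Pool.Agent.Q269.AV.rho :=
    tsum_nonneg fun e => mul_nonneg (Nat.cast_nonneg _) (Pool.Agent.Q269.SL.law2_nonneg e)
  refine ⟨h.1, h'.1, ?_, ?_, ?_, ?_, ?_⟩
  · intro e ε hε
    filter_upwards [h'.2 e ε hε] with m hm ho
    apply mean_le
    · have : (0 : ℝ) ≤ ∏ r, ∏ i ∈ Finset.range (e r), (1 + (2 : ℝ) ^ (i + 1)) :=
        Finset.prod_nonneg fun r _ => Finset.prod_nonneg fun i _ => by positivity
      linarith
    · exact hm ho
  · rw [law_eq]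
    exact Pool.Agent.Q269.SL.hasSum_law
  · rw [law_eq]
    exact Pool.Agent.Q269.AV.summable_elaw
  · rw [rho_eq]
    have := Pool.Agent.Q269.AV.rho_le
    norm_num at this ⊢
    exact this
  · intro r ε hε
    filter_upwards [Pool.Agent.Q269.AV.final_log h2 hi K hn hn3 N hN a ha hs hc r ε hε] with m hm ho
    rw [rho_eq]
    apply mean_le
    · linarith
    · exact hm ho

end Pool.Agent.Results.MP_72e2e6_nt.AverageOrder
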