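import Pool.Agent.Q120.PT.Basic
import Pool.Agent.Q120.MF.Exists

/-!
# Elements of Cramér's random set just above powers

The question asks for primes in the intervals `(n^2, n^2 + (log_2 n)^2]`. In Cramér's model, for all real `κ > 1`
and `b > 1`, almost surely all but finitely many of the intervals `(n^κ, n^κ + (log_b n)^2]` contain an element if
and only if `κ (log b)^2 < 1`; otherwise infinitely many of them contain none. For `b = 2` the critical exponent is
`1 / (log 2)^2 = 2.081...`, slightly above the exponent `2` of the question.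
-/

set_option autoImplicit false

namespace Pool.Agent.Results.MP_73869e_nt.CriticalPower

open Finset MeasureTheory Filter Pool.Agent.Q120.ET Pool.Agent.Q120.MF Pool.Agent.Q120.PT

theorem hl : Tendsto (fun x : ℕ => Real.log (x : ℝ)) atTop atTop :=
  Real.tendsto_log_atTop.comp tendsto_natCast_atTop_atTop

theorem ev_log_sq (D ε : ℝ) (hε : 0 < ε) : ∀ᶠ x : ℕ in atTop, D * Real.log x ^ 2 ≤ (x : ℝ) ^ ε := by
  have h1 := (isLittleO_log_rpow_rpow_atTop (s := ε) 2 hε).bound (show (0 : ℝ) < 1 / (1 + |D|) by positivity)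
  have h2 := tendsto_natCast_atTop_atTop (R := ℝ).eventually h1
  filter_upwards [h2, eventually_ge_atTop 3] with x hx hx3
  have h3 := one_lt_log hx3
  have h4 : (0 : ℝ) < x := by
    have : 0 < x := by omega
    exact_mod_cast this
  rw [Real.norm_of_nonneg (by positivity), Real.norm_of_nonneg (by positivity), Real.rpow_two] at hx
  have h6 : D ≤ 1 + |D| := by linarith [le_abs_self D]
  have h7 : 0 < 1 + |D| := by positivity
  calc D * Real.log x ^ 2 ≤ (1 + |D|) * Real.log x ^ 2 := by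
        apply mul_le_mul_of_nonneg_right h6 (by positivity)
    _ ≤ (1 + |D|) * (1 / (1 + |D|) * (x : ℝ) ^ ε) := mul_le_mul_of_nonneg_left hx h7.le
    _ = (x : ℝ) ^ ε := by field_simp

/-- The integers in `(n^κ, n^κ + H]`, for `n ≥ 3`. -/
noncomputable def W (κ b : ℝ) (n : ℕ) : Finset ℕ :=
  if 3 ≤ n then owin ((n : ℝ) ^ κ) (Real.logb b n ^ 2) else ∅

theorem three_le_pow {κ : ℝ} (hκ : 1 < κ) {n : ℕ} (hn : 3 ≤ n) : (3 : ℝ) ≤ (n : ℝ) ^ κ := by
  have h1 : (3 : ℝ) ≤ n := by exact_mod_cast hn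
  calc (3 : ℝ) ≤ n := h1
    _ = (n : ℝ) ^ (1 : ℝ) := (Real.rpow_one _).symm
    _ ≤ (n : ℝ) ^ κ := Real.rpow_le_rpow_of_exponent_le (by linarith) hκ.le

theorem hW {κ b : ℝ} (hκ : 1 < κ) (i : ℕ) : ∀ m ∈ W κ b i, 3 ≤ m := by
  intro m hm
  unfold W at hm
  split_ifs at hm with h
  · have h1 := three_le_pow hκ h
    rw [mem_owin (by linarith) (by positivity)] at hm
    have h2 : (3 : ℝ) < m := by linarith
    have h3 : 3 < m := by exact_mod_cast h2
    omega
  · exact absurd hm (Finset.notMem_empty _)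

theorem rho_eq {κ b : ℝ} (hκ : 1 < κ) (hb : 1 < b) (n : ℕ) :
    Real.logb b n ^ 2 = κ * (1 / (κ * Real.log b ^ 2)) * Real.log n ^ 2 := by
  have h1 : 0 < Real.log b := Real.log_pos hb
  unfold Real.logb
  field_simp

theorem summable_of {κ b : ℝ} (hκ : 1 < κ) (hb : 1 < b) (h : κ * Real.log b ^ 2 < 1) :
    Summable (fun n => pFree (W κ b n)) := by
  have hlb : 0 < Real.log b := Real.log_pos hb
  obtain ⟨ρ, hρ⟩ : ∃ ρ : ℝ, ρ = 1 / (κ * Real.log b ^ 2) := ⟨_, rfl⟩
  have hρ1 : 1 < ρ := by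
    rw [hρ, lt_div_iff₀ (by positivity)]
    linarith
  obtain ⟨η, hη⟩ : ∃ η : ℝ, η = (ρ - 1) / 2 := ⟨_, rfl⟩
  have hη0 : 0 < η := by rw [hη]; linarith
  have hg : Summable (fun n : ℕ => (n : ℝ) ^ (-(1 + η))) := Real.summable_nat_rpow.2 (by linarith)
  refine Summable.of_norm_bounded_eventually_nat hg ?_
  filter_upwards [eventually_ge_atTop 3, ev_log_sq (κ * ρ) 1 one_pos,
    hl.eventually_ge_atTop ((2 + η) / (κ * η))] with n hn hH hL
  rw [Real.rpow_one] at hH
  have hlog := one_lt_log hn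
  have hn3 : (3 : ℝ) ≤ n := by exact_mod_cast hn
  have hX3 := three_le_pow hκ hn
  have hX0 : 0 < (n : ℝ) ^ κ := by linarith
  rw [Real.norm_of_nonneg (pFree_nonneg (hW hκ n))]
  have hHeq := rho_eq hκ hb n
  rw [← hρ] at hHeq
  have hnX : (n : ℝ) ≤ (n : ℝ) ^ κ := by
    calc (n : ℝ) = (n : ℝ) ^ (1 : ℝ) := (Real.rpow_one _).symm
      _ ≤ _ := Real.rpow_le_rpow_of_exponent_le (by linarith) hκ.le
  have hz : ∀ m ∈ W κ b n, (m : ℝ) ≤ 2 * (n : ℝ) ^ κ := by
    intro m hm
    unfold W at hm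
    rw [if_pos hn, mem_owin (by linarith) (by positivity), hHeq] at hm
    linarith [hm.2]
  refine (pFree_le (hW hκ n) hz).trans ?_
  have hcard : κ * ρ * Real.log n ^ 2 - 1 ≤ ((W κ b n).card : ℝ) := by
    unfold W
    rw [if_pos hn, ← hHeq]
    exact (card_owin (by linarith) (by positivity)).1
  have hlogz : Real.log (2 * (n : ℝ) ^ κ) ≤ κ * Real.log n + 1 := by
    rw [Real.log_mul (by norm_num) hX0.ne', Real.log_rpow (by linarith)]
    linarith [Real.log_two_lt_d9]
  have hlogz0 : 0 < Real.log (2 * (n : ℝ) ^ κ) := Real.log_pos (by linarith)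
  have hexp : (n : ℝ) ^ (-(1 + η)) = Real.exp (Real.log n * (-(1 + η))) := Real.rpow_def_of_pos (by linarith) _
  rw [hexp]
  apply Real.exp_le_exp.2
  rw [mul_neg, neg_le_neg_iff, le_div_iff₀ hlogz0]
  refine le_trans ?_ hcard
  have h1 : Real.log n * (1 + η) * Real.log (2 * (n : ℝ) ^ κ) ≤
      Real.log n * (1 + η) * (κ * Real.log n + 1) :=
    mul_le_mul_of_nonneg_left hlogz (by positivity)
  refine h1.trans ?_
  rw [div_le_iff₀ (by positivity)] at hL
  have h2 : ρ = 1 + 2 * η := by rw [hη]; ring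
  rw [h2]
  nlinarith [mul_nonneg (mul_nonneg (show (0 : ℝ) ≤ κ by linarith) hη0.le) (sq_nonneg (Real.log (n : ℝ)))]

theorem not_summable_of {κ b : ℝ} (hκ : 1 < κ) (hb : 1 < b) (h : 1 ≤ κ * Real.log b ^ 2) :
    ¬ Summable (fun n => pFree (W κ b n)) := by
  have hlb : 0 < Real.log b := Real.log_pos hb
  obtain ⟨ρ, hρ⟩ : ∃ ρ : ℝ, ρ = 1 / (κ * Real.log b ^ 2) := ⟨_, rfl⟩
  have hρ0 : 0 < ρ := by rw [hρ]; positivity
  have hρ1 : ρ ≤ 1 := by
    rw [hρ, div_le_one (by positivity)]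
    exact h
  intro hs
  have h1 : Summable (fun n : ℕ => Real.exp (-5) * (n : ℝ)⁻¹) := by
    refine Summable.of_norm_bounded_eventually_nat hs ?_
    filter_upwards [eventually_ge_atTop 3, hl.eventually_ge_atTop 2] with n hn hL
    have hn3 : (3 : ℝ) ≤ n := by exact_mod_cast hn
    have hn0 : (0 : ℝ) < n := by linarith
    have hX3 := three_le_pow hκ hn
    have hX0 : 0 < (n : ℝ) ^ κ := by linarith
    have hHeq := rho_eq hκ hb n
    rw [← hρ] at hHeq
    rw [Real.norm_of_nonneg (by positivity)]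
    have hlogX : Real.log ((n : ℝ) ^ κ) = κ * Real.log n := Real.log_rpow hn0 _
    refine le_trans ?_ (le_pFree (y := (n : ℝ) ^ κ) ?_ hX0 ?_)
    · rw [← Real.exp_log hn0, ← Real.exp_neg, ← Real.exp_add, Real.exp_log hn0, hlogX]
      apply Real.exp_le_exp.2
      have hcard : ((W κ b n).card : ℝ) ≤ κ * ρ * Real.log n ^ 2 + 1 := by
        unfold W
        rw [if_pos hn, ← hHeq]
        exact (card_owin (by linarith) (by positivity)).2
      obtain ⟨L, hLdef⟩ : ∃ L : ℝ, L = Real.log n := ⟨_, rfl⟩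
      rw [← hLdef] at hL hcard ⊢
      have hL0 : 0 < L := by linarith
      have hκ0 : 0 < κ := by linarith
      have h2 : ((W κ b n).card : ℝ) * (1 / (κ * L) + 2 / (κ * L) ^ 2) ≤
          (κ * ρ * L ^ 2 + 1) * (1 / (κ * L) + 2 / (κ * L) ^ 2) :=
        mul_le_mul_of_nonneg_right hcard (by positivity)
      have h3 : (κ * ρ * L ^ 2 + 1) * (1 / (κ * L) + 2 / (κ * L) ^ 2) =
          ρ * L + 2 * ρ * (1 / κ) + 1 / (κ * L) + 2 * (1 / (κ * L)) ^ 2 := by
        field_simp
        ring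
      have h4 : 1 / κ ≤ 1 := by rw [div_le_one hκ0]; exact hκ.le
      have h4' : 0 < 1 / κ := by positivity
      have h5 : 1 / (κ * L) ≤ 1 / 2 := by
        apply one_div_le_one_div_of_le (by norm_num)
        nlinarith
      have h5' : 0 < 1 / (κ * L) := by positivity
      have h6 : ρ * L ≤ L := by nlinarith
      have h7 : 2 * ρ * (1 / κ) ≤ 2 := by nlinarith
      have h8 : 2 * (1 / (κ * L)) ^ 2 ≤ 1 / 2 := by nlinarith
      rw [h3] at h2
      linarith
    · rw [hlogX]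
      nlinarith
    · intro m hm
      unfold W at hm
      rw [if_pos hn, mem_owin (by linarith) (by positivity)] at hm
      exact hm.1.le
  have h2 : Summable (fun n : ℕ => (n : ℝ)⁻¹) := by
    have h3 := h1.mul_left (Real.exp 5)
    refine h3.congr (fun n => ?_)
    rw [← mul_assoc, ← Real.exp_add]
    norm_num
  exact Real.not_summable_natCast_inv h2

theorem disjoint_of {κ b : ℝ} (hκ : 1 < κ) (hb : 1 < b) :
    ∃ N0 : ℕ, ∀ i j, N0 ≤ i → N0 ≤ j → i ≠ j → Disjoint (W κ b i) (W κ b j) := by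
  have hlb : 0 < Real.log b := Real.log_pos hb
  obtain ⟨N0, hN0⟩ := eventually_atTop.1 ((ev_log_sq (1 / Real.log b ^ 2) (κ - 1) (by linarith)).and
    (eventually_ge_atTop 3))
  have key : ∀ i j, N0 ≤ i → i < j → ∀ m, m ∈ W κ b i → m ∈ W κ b j → False := by
    intro i j hi hij m hm1 hm2
    obtain ⟨h1, h2⟩ := hN0 i hi
    have hi3 : (3 : ℝ) ≤ i := by exact_mod_cast h2
    have hi0 : (0 : ℝ) < i := by linarith
    unfold W at hm1 hm2
    rw [if_pos h2, mem_owin (by positivity) (by positivity)] at hm1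
    rw [if_pos (by omega), mem_owin (by positivity) (by positivity)] at hm2
    have h3 : (i : ℝ) ^ κ + (i : ℝ) ^ (κ - 1) ≤ (j : ℝ) ^ κ := by
      have h4 : ((i : ℝ) + 1) ^ κ ≤ (j : ℝ) ^ κ := by
        apply Real.rpow_le_rpow (by positivity) _ (by linarith)
        exact_mod_cast hij
      have h5 := one_add_mul_self_le_rpow_one_add (s := 1 / (i : ℝ)) (by
        have : 0 < 1 / (i : ℝ) := by positivity
        linarith) hκ.le
      have h6 : ((i : ℝ) + 1) ^ κ = (i : ℝ) ^ κ * (1 + 1 / (i : ℝ)) ^ κ := by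
        rw [← Real.mul_rpow hi0.le (by positivity)]
        congr 1
        field_simp
      have h7 : (i : ℝ) ^ (κ - 1) = (i : ℝ) ^ κ * (1 / (i : ℝ)) := by
        rw [Real.rpow_sub hi0, Real.rpow_one]
        ring
      have h8 : 0 < (i : ℝ) ^ κ := by positivity
      have h9 : (i : ℝ) ^ κ * (1 + κ * (1 / (i : ℝ))) ≤ (i : ℝ) ^ κ * (1 + 1 / (i : ℝ)) ^ κ :=
        mul_le_mul_of_nonneg_left h5 h8.le
      have h10 : 0 < (i : ℝ) ^ κ * (1 / (i : ℝ)) := by positivity
      rw [h7]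
      nlinarith
    have h4 : Real.logb b i ^ 2 = 1 / Real.log b ^ 2 * Real.log i ^ 2 := by
      unfold Real.logb
      field_simp
    linarith [hm1.2, hm2.1]
  refine ⟨N0, ?_⟩
  intro i j hi hj hij
  rw [Finset.disjoint_left]
  intro m hm1 hm2
  rcases lt_or_gt_of_ne hij with h | h
  · exact key i j hi h m hm1 hm2
  · exact key j i hj h m hm2 hm1

/-- **The critical power for the windows `(n^κ, n^κ + (log_b n)^2]` in Cramér's model.** -/
theorem result :
    -- Cramér's model exists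
    (IsProbabilityMeasure cramerMeasure ∧ IsCramer cramerMeasure cramerSet) ∧
    ∀ (Ω : Type) [MeasurableSpace Ω] (μ : Measure Ω) [IsProbabilityMeasure μ] (A : Ω → Set ℕ),
      IsCramer μ A → ∀ κ b : ℝ, 1 < κ → 1 < b →
        (κ * Real.log b ^ 2 < 1 → ∀ᵐ ω ∂μ, ∀ᶠ n : ℕ in atTop,
          ∃ a ∈ A ω, (n : ℝ) ^ κ < a ∧ (a : ℝ) ≤ (n : ℝ) ^ κ + Real.logb b n ^ 2) ∧
        (1 ≤ κ * Real.log b ^ 2 → ∀ᵐ ω ∂μ, ∃ᶠ n : ℕ in atTop,
          ∀ a ∈ A ω, ¬ ((n : ℝ) ^ κ < a ∧ (a : ℝ) ≤ (n : ℝ) ^ κ + Real.logb b n ^ 2)) := by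
  refine ⟨⟨inferInstance, isCramer⟩, ?_⟩
  intro Ω _ μ _ A hA κ b hκ hb
  constructor
  · intro h
    filter_upwards [hit_all hA (W κ b) (hW hκ) (summable_of hκ hb h)] with ω hω
    filter_upwards [hω, eventually_ge_atTop 3] with n hn hn3
    obtain ⟨a, ha, haW⟩ := hn
    unfold W at haW
    rw [if_pos hn3, mem_owin (by positivity) (by positivity)] at haW
    exact ⟨a, ha, haW⟩
  · intro h
    obtain ⟨N0, hN0⟩ := disjoint_of hκ hb
    filter_upwards [free_often hA (W κ b) (hW hκ) N0 hN0 (not_summable_of hκ hb h)] with ω hω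
    refine (hω.and_eventually (eventually_ge_atTop 3)).mono ?_
    rintro n ⟨hn, hn3⟩ a ha hcon
    apply hn a ha
    unfold W
    rw [if_pos hn3, mem_owin (by positivity) (by positivity)]
    exact hcon

end Pool.Agent.Results.MP_73869e_nt.CriticalPower
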