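import Mathlib
import Pool.Agent.Q273.PN.Main2

/-!
# The abcd inequality near almost every adelic point of the hyperplane

`K` is a number field and `n ≥ 1`; the points are the `z = [z_0 : ... : z_(n+1)]` with
`z_0 + ... + z_(n+1) = 0` and all `z_i ≠ 0` (so there are `n + 2` terms). Their height is `ht`, the
radical is `rad`, and `radOff z j` is the radical of the tuple without `z_j`; all quantities are taken
relative to `K`. The hyperplane is identified with `ℙ^n` by `(z_1 / z_0, ..., z_n / z_0)`, and the target is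
an adelic point `p = (ξ, η)`: `ξ` in `(K ⊗ ℝ)^n`, `η` in the product over all primes `v` of `O_v^n`.
`prox V p z` is the sum of the local proximities of `z` to `p` over all infinite places and over the
primes in the finite set `V`.
-/

set_option autoImplicit false

open MeasureTheory NumberField Height Finset IsDedekindDomain
open NumberField.mixedEmbedding

namespace Pool.Agent.Results.MP_7475bd_nt.NearAlmostEveryAdele

variable {K : Type} [Field K] [NumberField K] {n : ℕ}

/-- the logarithmic height `∑_v n_v log max_j |z_j|_v` -/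
noncomputable def ht (z : Fin (n + 2) → K) : ℝ := Real.log (mulHeight z)

/-- the radical: the sum of `log N(v)` over the primes at which the coordinates do not all have the same
absolute value -/
noncomputable def rad (z : Fin (n + 2) → K) : ℝ :=
  ∑ᶠ v ∈ {v : HeightOneSpectrum (𝓞 K) | ∃ i i', FinitePlace.mk v (z i) ≠ FinitePlace.mk v (z i')},
    Real.log (Ideal.absNorm v.asIdeal : ℝ)

/-- the radical of the tuple without `z_j` -/
noncomputable def radOff (z : Fin (n + 2) → K) (j : Fin (n + 2)) : ℝ :=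
  ∑ᶠ v ∈ {v : HeightOneSpectrum (𝓞 K) |
      ∃ i i', i ≠ j ∧ i' ≠ j ∧ FinitePlace.mk v (z i) ≠ FinitePlace.mk v (z i')},
    Real.log (Ideal.absNorm v.asIdeal : ℝ)

/-- the group of the integral finite adelic points: the product over all primes `v` of `O_v^n`, with
the product topology -/
abbrev FinAd (K : Type) [Field K] [NumberField K] (n : ℕ) : Type :=
  (v : HeightOneSpectrum (𝓞 K)) → Fin n → v.adicCompletionIntegers K

/-- the proximity function at the infinite place `w`: `n_w log max (1, 1 / max_j |ξ_j - z_j / z_0|_w)`,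
`1 ≤ j ≤ n` -/
noncomputable def mw (ξ : Fin n → mixedSpace K) (w : InfinitePlace K) (z : Fin (n + 2) → K) : ℝ :=
  (w.mult : ℝ) *
    Real.log (max 1 (⨆ j : Fin n, normAtPlace w (ξ j - mixedEmbedding K (z j.succ.castSucc / z 0)))⁻¹)

/-- the proximity function at the prime `v`: `log max (1, 1 / max_j |η_j - z_j / z_0|_v)`,
`1 ≤ j ≤ n` -/
noncomputable def mv (η : FinAd K n) (v : HeightOneSpectrum (𝓞 K)) (z : Fin (n + 2) → K) : ℝ :=
  Real.log (max 1
    (⨆ j : Fin n, ‖(η v j : v.adicCompletion K) - FinitePlace.embedding v (z j.succ.castSucc / z 0)‖)⁻¹)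

/-- the proximity function at all infinite places and at the primes in `V` -/
noncomputable def prox (V : Finset (HeightOneSpectrum (𝓞 K)))
    (p : (Fin n → mixedSpace K) × FinAd K n) (z : Fin (n + 2) → K) : ℝ :=
  ∑ w : InfinitePlace K, mw p.1 w z + ∑ v ∈ V, mv p.2 v z

open scoped Classical in
/-- **The abcd inequality near almost every adelic point.** Let `μ` be a finite translation invariant
Borel measure on the compact group `FinAd K n` (a multiple of Haar measure). For almost every adelic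
point `p` with respect to the product of Lebesgue measure and `μ`, for every finite set `V` of primes:
(1) for every `ε > 0` there is `C` such that ALL points `z` of the hyperplane with nonzero coordinates
satisfy `n m_V(z) ≤ rad_j(z) + ε h(z) + C` for every `j`, where `rad_j` is the radical of the tuple
without `z_j`; `h(z) < (1 + ε) rad(z) + C` if `n m_V(z) ≥ h(z)`; and
`h(z) + n m_V(z) ≤ rad(z) + ε h(z) + C` if `n m_V(z) ≥ (n + 1/2 + ε) h(z)` or
`rad(z) ≥ (n + 3/2 + ε) h(z)`; there is no exceptional set;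
(2) if `τ_w ≥ 0` (all infinite `w`), `σ_v ≥ 0` (all `v ∈ V`), `δ_i ≥ 0` satisfy `∑ δ_i ≤ 1/2` and
`∑ τ_w + ∑ σ_v + ∑ δ_i ≤ n + 1`, then there are points with `h → ∞`, `n m_w / h → τ_w` for every infinite
place `w`, `n m_v / h → σ_v` for every `v ∈ V`, `rad / h → n + 2 - ∑ δ_i` and
`rad_j / h → n + 1 - ∑_(i ≠ j) δ_i` for every `j`. -/
theorem result (K : Type) [Field K] [NumberField K] (n : ℕ) (hn : 1 ≤ n)
    [MeasurableSpace (FinAd K n)] [BorelSpace (FinAd K n)] (μ : Measure (FinAd K n))
    [IsFiniteMeasure μ] [μ.IsAddLeftInvariant] :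
    ∀ᵐ p : (Fin n → mixedSpace K) × FinAd K n ∂(volume.prod μ),
      ∀ V : Finset (HeightOneSpectrum (𝓞 K)),
        (∀ ε : ℝ, 0 < ε → ∃ C : ℝ, ∀ z : Fin (n + 2) → K, ∑ i, z i = 0 → (∀ i, z i ≠ 0) →
          (∀ j, n * prox V p z ≤ radOff z j + ε * ht z + C) ∧
          (ht z ≤ n * prox V p z → ht z < (1 + ε) * rad z + C) ∧
          (((n : ℝ) + 1 / 2 + ε) * ht z ≤ n * prox V p z ∨
              ((n : ℝ) + 3 / 2 + ε) * ht z ≤ rad z →
            ht z + n * prox V p z ≤ rad z + ε * ht z + C)) ∧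
        (∀ (τ : InfinitePlace K → ℝ) (σ : HeightOneSpectrum (𝓞 K) → ℝ) (δ : Fin (n + 2) → ℝ),
          (∀ w, 0 ≤ τ w) → (∀ v, 0 ≤ σ v) → (∀ i, 0 ≤ δ i) → ∑ i, δ i ≤ 1 / 2 →
          ∑ w, τ w + ∑ v ∈ V, σ v + ∑ i, δ i ≤ n + 1 →
          ∀ ε : ℝ, 0 < ε → ∀ B : ℝ, ∃ z : Fin (n + 2) → K, ∑ i, z i = 0 ∧ (∀ i, z i ≠ 0) ∧
            B ≤ ht z ∧
            (∀ w, |n * mw p.1 w z / ht z - τ w| ≤ ε) ∧
            (∀ v ∈ V, |n * mv p.2 v z / ht z - σ v| ≤ ε) ∧
            |rad z / ht z - ((n : ℝ) + 2 - ∑ i, δ i)| ≤ ε ∧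
            ∀ j, |radOff z j / ht z - ((n : ℝ) + 1 - (∑ i, δ i - δ j))| ≤ ε) := by
  filter_upwards [Q273.PN.upper hn μ, Q273.PN.upper2 hn μ, Q273.PN.exact2 hn μ] with p h1 h2 h3
  intro V
  refine ⟨fun ε hε => ?_, fun τ σ δ hτ hσ hδ hΔ hsum ε hε B => ?_⟩
  · obtain ⟨C1, hC1⟩ := h1 V ε hε
    obtain ⟨C2, hC2⟩ := h1 V (ε / (1 + ε)) (by positivity)
    obtain ⟨C3, hC3⟩ := h2 V ε hε
    refine ⟨|C1| + (1 + ε) * |C2| + |C3| + 1, fun z hz h0 => ⟨fun j => ?_, fun hle => ?_, fun hle => ?_⟩⟩
    · have e1 := hC1 z hz h0 j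
      have e2 := le_abs_self C1
      have e3 : 0 ≤ (1 + ε) * |C2| := by positivity
      have e4 := abs_nonneg C3
      show n * Q273.PN.px V p z ≤ Q273.PN.lrOff z j + ε * Real.log (mulHeight z) + _
      linarith
    · have e1 := hC2 z hz h0 0
      have e2 : Q273.PN.lrOff z 0 ≤ rad z := Q273.PN.lrOff_le h0 0
      have e3 : ht z ≤ n * Q273.PN.px V p z := hle
      have e4 : ht z ≤ rad z + ε / (1 + ε) * ht z + C2 := by
        refine e3.trans (e1.trans ?_)
        show Q273.PN.lrOff z 0 + ε / (1 + ε) * ht z + C2 ≤ _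
        linarith
      have hpos : (0 : ℝ) < 1 + ε := by linarith
      have e5 : (1 + ε) * ht z ≤ (1 + ε) * rad z + ε * ht z + (1 + ε) * C2 := by
        have h6 := mul_le_mul_of_nonneg_left e4 hpos.le
        have h7 : (1 + ε) * (ε / (1 + ε) * ht z) = ε * ht z := by field_simp
        linarith
      have e6 : (1 + ε) * C2 ≤ (1 + ε) * |C2| :=
        mul_le_mul_of_nonneg_left (le_abs_self C2) hpos.le
      have e7 := abs_nonneg C1
      have e8 := abs_nonneg C3
      linarith
    · have e1 := hC3 z hz h0 hle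
      have e2 := le_abs_self C3
      have e3 : 0 ≤ (1 + ε) * |C2| := by positivity
      have e4 := abs_nonneg C1
      show Real.log (mulHeight z) + n * Q273.PN.px V p z ≤
        Q273.PN.lr z + ε * Real.log (mulHeight z) + _
      linarith
  · obtain ⟨z, hz, h0, hB, g1, g2, g3, g4⟩ := h3 V τ σ δ hτ hσ hδ hΔ hsum ε hε (max B 1)
    have hH : 0 < ht z := lt_of_lt_of_le one_pos ((le_max_right _ _).trans hB)
    have key : ∀ x t : ℝ, |x - t * ht z| ≤ ε * ht z → |x / ht z - t| ≤ ε := by
      intro x t hx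
      rw [div_sub' hH.ne', abs_div, abs_of_pos hH, div_le_iff₀ hH, mul_comm (ht z)]
      exact hx
    exact ⟨z, hz, h0, (le_max_left _ _).trans hB, fun w => key _ _ (g1 w),
      fun v hv => key _ _ (g2 v hv), key _ _ g3, fun j => key _ _ (g4 j)⟩

end Pool.Agent.Results.MP_7475bd_nt.NearAlmostEveryAdele
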