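import Mathlib
import Pool.Agent.Q273.SPL.Nad

/-!
# The abcd inequality near almost every adelic point of the hyperplane

`K` is a number field and `n ≥ 1`; the points are the `z = [z_0 : ... : z_(n+1)]` with
`z_0 + ... + z_(n+1) = 0` and all `z_i ≠ 0` (so there are `n + 2` terms). Their height is `ht`, the
radical is `rad`, and `radOff z j` is the radical of the tuple without `z_j`; all quantities are taken
relative to `K`. The hyperplane is identified with `ℙ^n` by `(z_1 / z_0, ..., z_n / z_0)`, and the target is
an adelic point `p = (ξ, η)`: `ξ` in `(K ⊗ ℝ)^n`, `η` in the product over all primes `v` of `O_v^n`.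
`prox V p z` is the sum of the local proximities of `z` to `p` over all infinite places and over the
primes in the finite set `V`.
-/

set_option autoImplicit false

open MeasureTheory NumberField Height Finset IsDedekindDomain
open NumberField.mixedEmbedding
open Q273.SPL.Nad

namespace Pool.Agent.Results.MP_7475bd_nt.NoExceptionsNearAdeles

open scoped Classical in
/-- **The abcd inequality without exceptions near almost every adelic point.** Let `μ` be a finite
translation invariant Borel measure on the compact group `FinAd K n` (a multiple of Haar measure). For
almost every adelic point `p` with respect to the product of Lebesgue measure and `μ`, for every finite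
set `V` of primes and every `ε > 0` there is `C` such that ALL points `z` of the hyperplane with nonzero
coordinates satisfy `n m_V(z) ≤ rad_j(z) + ε h(z) + C` for every `j`, where `rad_j` is the radical of the
tuple without `z_j`, and `h(z) < (1 + ε) rad(z) + C` if `n m_V(z) ≥ h(z)`. -/
theorem result (K : Type) [Field K] [NumberField K] (n : ℕ) (hn : 1 ≤ n)
    [MeasurableSpace (FinAd K n)] [BorelSpace (FinAd K n)] (μ : Measure (FinAd K n))
    [IsFiniteMeasure μ] [μ.IsAddLeftInvariant] :
    ∀ᵐ p : (Fin n → mixedSpace K) × FinAd K n ∂(volume.prod μ),
      ∀ V : Finset (HeightOneSpectrum (𝓞 K)),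
        ∀ ε : ℝ, 0 < ε → ∃ C : ℝ, ∀ z : Fin (n + 2) → K, ∑ i, z i = 0 → (∀ i, z i ≠ 0) →
          (∀ j, n * prox V p z ≤ radOff z j + ε * ht z + C) ∧
          (ht z ≤ n * prox V p z → ht z < (1 + ε) * rad z + C) :=
  lawA K n hn μ

end Pool.Agent.Results.MP_7475bd_nt.NoExceptionsNearAdeles
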