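import Mathlib
import Pool.Agent.Q273.SPL.Nad

/-!
# The sharp abcd inequality near almost every adelic point of the hyperplane

`K` is a number field and `n ≥ 1`; the points are the `z = [z_0 : ... : z_(n+1)]` with
`z_0 + ... + z_(n+1) = 0` and all `z_i ≠ 0` (so there are `n + 2` terms). Their height is `ht`, the
radical is `rad`, and `radOff z j` is the radical of the tuple without `z_j`; all quantities are taken
relative to `K`. The hyperplane is identified with `ℙ^n` by `(z_1 / z_0, ..., z_n / z_0)`, and the target is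
an adelic point `p = (ξ, η)`: `ξ` in `(K ⊗ ℝ)^n`, `η` in the product over all primes `v` of `O_v^n`.
`prox V p z` is the sum of the local proximities of `z` to `p` over all infinite places and over the
primes in the finite set `V`.
-/

set_option autoImplicit false

open MeasureTheory NumberField Height Finset IsDedekindDomain
open NumberField.mixedEmbedding
open Q273.SPL.Nad

namespace Pool.Agent.Results.MP_7475bd_nt.SharpNearAdeles

open scoped Classical in
/-- **The sharp abcd inequality near almost every adelic point.** Let `μ` be a finite translation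
invariant Borel measure on the compact group `FinAd K n` (a multiple of Haar measure). For almost every
adelic point `p` with respect to the product of Lebesgue measure and `μ`, for every finite set `V` of
primes: (1) for every `ε > 0` there is `C` such that all points `z` of the hyperplane with nonzero
coordinates and `n m_V(z) ≥ (n + 1/2 + ε) h(z)` or `rad(z) ≥ (n + 3/2 + ε) h(z)` satisfy
`h(z) + n m_V(z) ≤ rad(z) + ε h(z) + C`;
(2) if `τ_w ≥ 0` (all infinite `w`), `σ_v ≥ 0` (all `v ∈ V`), `δ_i ≥ 0` satisfy `∑ δ_i ≤ 1/2` and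
`∑ τ_w + ∑ σ_v + ∑ δ_i ≤ n + 1`, then there are points with `h → ∞`, `n m_w / h → τ_w` for every infinite
place `w`, `n m_v / h → σ_v` for every `v ∈ V`, `rad / h → n + 2 - ∑ δ_i` and
`rad_j / h → n + 1 - ∑_(i ≠ j) δ_i` for every `j`. -/
theorem result (K : Type) [Field K] [NumberField K] (n : ℕ) (hn : 1 ≤ n)
    [MeasurableSpace (FinAd K n)] [BorelSpace (FinAd K n)] (μ : Measure (FinAd K n))
    [IsFiniteMeasure μ] [μ.IsAddLeftInvariant] :
    ∀ᵐ p : (Fin n → mixedSpace K) × FinAd K n ∂(volume.prod μ),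
      ∀ V : Finset (HeightOneSpectrum (𝓞 K)),
        (∀ ε : ℝ, 0 < ε → ∃ C : ℝ, ∀ z : Fin (n + 2) → K, ∑ i, z i = 0 → (∀ i, z i ≠ 0) →
          (((n : ℝ) + 1 / 2 + ε) * ht z ≤ n * prox V p z ∨
              ((n : ℝ) + 3 / 2 + ε) * ht z ≤ rad z →
            ht z + n * prox V p z ≤ rad z + ε * ht z + C)) ∧
        (∀ (τ : InfinitePlace K → ℝ) (σ : HeightOneSpectrum (𝓞 K) → ℝ) (δ : Fin (n + 2) → ℝ),
          (∀ w, 0 ≤ τ w) → (∀ v, 0 ≤ σ v) → (∀ i, 0 ≤ δ i) → ∑ i, δ i ≤ 1 / 2 →
          ∑ w, τ w + ∑ v ∈ V, σ v + ∑ i, δ i ≤ n + 1 →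
          ∀ ε : ℝ, 0 < ε → ∀ B : ℝ, ∃ z : Fin (n + 2) → K, ∑ i, z i = 0 ∧ (∀ i, z i ≠ 0) ∧
            B ≤ ht z ∧
            (∀ w, |n * mw p.1 w z / ht z - τ w| ≤ ε) ∧
            (∀ v ∈ V, |n * mv p.2 v z / ht z - σ v| ≤ ε) ∧
            |rad z / ht z - ((n : ℝ) + 2 - ∑ i, δ i)| ≤ ε ∧
            ∀ j, |radOff z j / ht z - ((n : ℝ) + 1 - (∑ i, δ i - δ j))| ≤ ε) :=
  lawB K n hn μ

end Pool.Agent.Results.MP_7475bd_nt.SharpNearAdeles
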