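import Pool.Agent.H852R2.TE.S.FIN
import Pool.Agent.Q102.AS.Core

/-!
# Random generators of `A_n` together with an arbitrary element of small support

MP_75608d_al.  Let `0 < δ` and `0 < η`.  For a fixed number `k ≥ k₀(δ)` of random even permutations
`x_1, …, x_k`, with probability tending to `1`, the following holds for ALL elements `σ ≠ 1` of
`A_n` which move at most `(1/3 - η) n` points, simultaneously:

* `{x_1, …, x_k, σ}` is an expanding generating set with constant `n ^ (-δ)`;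
* every element of `A_n` is a product of at most `n (log n) ^ 4` factors
  `x_i^{±1}`, `σ^{±1}`;
* if `σ` is a product of at most `L` factors `x_i^{±1}`, then `{x_1, …, x_k}` itself is an expanding
  generating set with constant `n ^ (-δ) / L ^ 2`.
-/

set_option autoImplicit false

namespace Pool.Agent.Results.MP_75608d_al.AnySmallSupport
open RC14 Finset Filter Topology

noncomputable section

/-- `g` is a product of at most `D` factors from `{y_i, y_i⁻¹}` -/
def IsWord {n k : ℕ} (y : Fin k → Alt n) (D : ℝ) (g : Alt n) : Prop :=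
  ∃ w : List (Alt n), (w.length : ℝ) ≤ D ∧ (∀ a ∈ w, ∃ i, a = y i ∨ a = (y i)⁻¹) ∧ w.prod = g

/-- the number of points moved by `g` -/
def moved {n : ℕ} (g : Alt n) : ℕ := #{p : Fin n | (g : Equiv.Perm (Fin n)) p ≠ p}

/-- the property of `x = (x_1, …, x_k)`; `Fin.cons σ x` is the tuple `(σ, x_1, …, x_k)` -/
def Universal (n : ℕ) {k : ℕ} (δ η : ℝ) (x : Fin k → Alt n) : Prop :=
  ∀ σ : Alt n, σ ≠ 1 → (moved σ : ℝ) ≤ (1 / 3 - η) * n →
    Expanding ((n : ℝ) ^ (-δ)) (Fin.cons σ x : Fin (k + 1) → Alt n) ∧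
    (∀ g : Alt n, IsWord (Fin.cons σ x : Fin (k + 1) → Alt n) (n * Real.log n ^ 4) g) ∧
    ∀ L : ℕ, 1 ≤ L → IsWord x L σ → Expanding ((n : ℝ) ^ (-δ) / (L : ℝ) ^ 2) x

lemma moved_eq {n : ℕ} (g : Alt n) : moved g = Q102.AS.sp g := by
  unfold moved Q102.AS.sp
  rfl

lemma word_of_Len {n k : ℕ} {y : Fin k → Alt n} {M : ℕ} {D : ℝ} {g : Alt n} (hM : (M : ℝ) ≤ D)
    (h : DM852.Len y M g) : IsWord y D g := by
  obtain ⟨w, hw, e⟩ := h
  refine ⟨w.map (RC852.sl y), ?_, ?_, e⟩
  · rw [List.length_map]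
    exact (Nat.cast_le.mpr hw).trans hM
  · intro a ha
    obtain ⟨p, _, rfl⟩ := List.mem_map.mp ha
    refine ⟨p.1, ?_⟩
    rcases p with ⟨i, s⟩
    cases s <;> simp [RC852.sl]

lemma Len_of_word {n k : ℕ} {y : Fin k → Alt n} {L : ℕ} {g : Alt n}
    (h : IsWord y L g) : DM852.Len y L g := by
  obtain ⟨w, hw, hw2, e⟩ := h
  have hw' : w.length ≤ L := by exact_mod_cast hw
  have key : ∀ w : List (Alt n), (∀ a ∈ w, ∃ i, a = y i ∨ a = (y i)⁻¹) →
      DM852.Len y w.length w.prod := by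
    intro w hw
    have h1 := DM852.Len.list (y := y) (L := 1) w (by
      intro a ha
      obtain ⟨i, hi | hi⟩ := hw a ha
      · rw [hi]; exact DM852.Len.letter i
      · rw [hi]; exact (DM852.Len.letter i).inv)
    rwa [mul_one] at h1
  rw [← e]
  exact (key w hw2).mono hw'

lemma good_cons {n m k : ℕ} {c : ℝ} {x : Fin k → Alt n} (h : Good1 n m c x) (σ : Alt n) :
    Good1 n m c (Fin.cons σ x : Fin (k + 1) → Alt n) := by
  intro j hj1 hj2 v hv
  refine (h j hj1 hj2 v hv).trans ?_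
  unfold En
  rw [Fin.sum_univ_succ]
  simp only [Fin.cons_zero, Fin.cons_succ]
  have : 0 ≤ ‖repA j n σ v - v‖ ^ 2 := by positivity
  linarith

theorem result (δ : ℝ) (hδ : 0 < δ) : ∃ k₀ : ℕ, ∀ k ≥ k₀, ∀ η : ℝ, 0 < η →
    Tendsto (fun n : ℕ =>
      (Nat.card {x : Fin k → Alt n // Universal n δ η x} : ℝ) /
        (Fintype.card (Alt n) : ℝ) ^ k) atTop (𝓝 1) := by
  obtain ⟨δ', hδ'⟩ : ∃ δ' : ℝ, δ' = min (δ / 2) (1 / 2) := ⟨_, rfl⟩
  have hδ'0 : 0 < δ' := by rw [hδ']; exact lt_min (by positivity) (by norm_num)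
  have hδ'1 : δ' ≤ 1 / 2 := by rw [hδ']; exact min_le_right _ _
  have hδ'2 : 2 * δ' ≤ δ := by
    have : δ' ≤ δ / 2 := by rw [hδ']; exact min_le_left _ _
    linarith
  obtain ⟨k0, hk0⟩ := TE852.GAPE (1 - δ') (TE852.TEMAIN (1 - δ') (by linarith))
  refine ⟨k0 + 1, fun k hk η hη => ?_⟩
  obtain ⟨c, hc, B, hB, hgap⟩ := hk0 k (by omega)
  have hk1 : 1 ≤ k := by omega
  -- the good event implies the property
  have hgood : ∀ᶠ n : ℕ in atTop, ∀ x : Fin k → Alt n, Good1 n (TE852.Rr (1 - δ') n) c x →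
      Universal n δ η x := by
    filter_upwards [Q102.AS.core δ' η hδ'0 hδ'1 hη k hk1 c hc,
      Q102.AS.core δ' η hδ'0 hδ'1 hη (k + 1) (by omega) c hc, eventually_ge_atTop 1]
      with n h1 h2 hn1 x hx σ hσ hσ2
    have hn : (1 : ℝ) ≤ n := by exact_mod_cast hn1
    rw [moved_eq] at hσ2
    have hpow : (n : ℝ) ^ (-δ) ≤ (n : ℝ) ^ (-(2 * δ')) :=
      Real.rpow_le_rpow_of_exponent_le hn (by linarith)
    have hlen : DM852.Len (Fin.cons σ x : Fin (k + 1) → Alt n) 1 σ := by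
      have := DM852.Len.letter (y := (Fin.cons σ x : Fin (k + 1) → Alt n)) 0
      simpa using this
    obtain ⟨h3, h4⟩ := h2 (Fin.cons σ x) (good_cons hx σ) σ hσ hσ2 1 le_rfl hlen
    refine ⟨?_, ?_, ?_⟩
    · refine Q102.AS.expanding_mono h3 ?_
      rw [Nat.cast_one, one_pow, div_one]
      exact hpow
    · intro g
      obtain ⟨M, hM, hM2⟩ := h4 g
      rw [Nat.cast_one, mul_one] at hM
      exact word_of_Len hM hM2
    · intro L hL hL2
      refine Q102.AS.expanding_mono (h1 x hx σ hσ hσ2 L hL (Len_of_word hL2)).1 ?_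
      exact div_le_div_of_nonneg_right hpow (by positivity)
  have key : ∀ ε0 : ℝ, 0 < ε0 → ∀ᶠ n : ℕ in atTop, (Nat.card {x : Fin k → Alt n //
      ¬ Universal n δ η x} : ℝ) ≤ ε0 * (Fintype.card (Alt n) : ℝ) ^ k := by
    intro ε0 hε0
    have hlim : ∀ᶠ n : ℕ in atTop, B / ε0 ≤ (n : ℝ) ^ (1 : ℝ) := ev_const 1 _ (by norm_num)
    filter_upwards [hgap, hgood, hlim, eventually_ge_atTop 1] with n h1 h2 h3 h4
    have hn : (0 : ℝ) < n := by exact_mod_cast h4
    rw [Real.rpow_one, div_le_iff₀ hε0] at h3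
    have h5 := RC14.card_mono (fun x : Fin k → Alt n => ¬ Universal n δ η x)
      (fun x => ¬ Good1 n (TE852.Rr (1 - δ') n) c x)
      (fun x hx h => hx (h2 x h))
    have h6 : B / (n : ℝ) ≤ ε0 := by
      rw [div_le_iff₀ hn]; linarith
    calc (Nat.card {x : Fin k → Alt n // ¬ Universal n δ η x} : ℝ)
        ≤ (Nat.card {x : Fin k → Alt n // ¬ Good1 n (TE852.Rr (1 - δ') n) c x} : ℝ) := by
          exact_mod_cast h5
      _ ≤ _ := h1
      _ ≤ ε0 * (Fintype.card (Alt n) : ℝ) ^ k := by gcongr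
  have hpos : ∀ n : ℕ, (0 : ℝ) < (Fintype.card (Alt n) : ℝ) := fun n => by
    exact_mod_cast Fintype.card_pos
  refine tendsto_order.mpr ⟨fun b hb => ?_, fun b hb => ?_⟩
  · filter_upwards [key ((1 - b) / 2) (by linarith)] with n hn
    have hA := hpos n
    rw [lt_div_iff₀ (by positivity), RC14.card_compl, Fintype.card_fun, Fintype.card_fin]
    push_cast
    have hp : (0 : ℝ) < (Fintype.card (Alt n) : ℝ) ^ k := by positivity
    nlinarith
  · refine Eventually.of_forall fun n => lt_of_le_of_lt ?_ hb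
    have hA := hpos n
    rw [div_le_one (by positivity), RC14.card_compl, Fintype.card_fun, Fintype.card_fin]
    push_cast
    linarith [Nat.cast_nonneg (α := ℝ) (Nat.card {x : Fin k → Alt n //
      ¬ Universal n δ η x})]

end

end Pool.Agent.Results.MP_75608d_al.AnySmallSupport
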