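import Pool.Agent.Q122.CupsProofs

set_option autoImplicit false

namespace Pool.Agent.Results.MP_75ab16_co.NonTreeNotStackable

open Q122.Cups

/-- Positive answer to Q1 of MP_75ab16_co: there is a connected graph that is not a tree and that
is not `r`-stackable for any vertex `r`. -/
theorem result : ∃ (n : ℕ) (G : SimpleGraph (Fin n)), G.Connected ∧ ¬ G.IsTree ∧
    ∀ r, ¬ RStackable G r :=
  exists_not_stackable

end Pool.Agent.Results.MP_75ab16_co.NonTreeNotStackable
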