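import Pool.Agent.Q112.GS.Reduce

/-!
# The Gyárfás–Sumner conjecture for edge-transitive graphs and for graphs with large edge orbits

For every forest `F` and every `c > 0` there is a function `f` such that `χ(G) ≤ f(ω(G))` for every
finite graph `G` without induced `F` in which every orbit of the automorphism group on the edges
contains at least the proportion `c` of all edges, in particular for all edge-transitive graphs.
The same holds for unions of classes of homogeneous coherent configurations (for example association
schemes) in which every class has valency at least `c` times the degree.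

Proof.  Let `d` be the degree.  Continuing an arc `z x` by `w` is *light* if `z w` is not an edge and
`z`, `w` have less than `δ d` common neighbours.  If every arc has many light continuations, then `F`
is embedded (theorem `embed_tree` of the starting library).  Otherwise one arc `z x`, and then every
arc of its class, has almost only heavy continuations.  By double counting (all classes have
comparable valencies) every arc `x y` has many helpers: neighbours `z` of `y`, with `z y` in that
class, which have large codegree with `x` and with almost all neighbours of `y`.  So almost all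
neighbours of `y` are in a set of `O(d)` vertices which depends only on `x`, and with the packing
lemma for graphs of bounded Vapnik–Chervonenkis dimension only on the approximate neighbourhood of
`x`; the rest of the proof is as for arc-transitive graphs (starting file `ArcTransitive`).
-/

set_option autoImplicit false

namespace Pool.Agent.Results.MP_763321_co.EdgeTransitive

/-- The orbit of `e` under the automorphism group of `G`. -/
def edgeOrbit {V : Type} (G : SimpleGraph V) (e : Sym2 V) : Set (Sym2 V) :=
  {e' | ∃ φ : G ≃g G, e.map φ = e'}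

/-- Every orbit of the automorphism group on the edges contains at least the proportion `c` of all
edges. -/
def LargeEdgeOrbits {V : Type} (G : SimpleGraph V) (c : ℝ) : Prop :=
  ∀ e ∈ G.edgeSet, c * (G.edgeSet.ncard : ℝ) ≤ ((edgeOrbit G e).ncard : ℝ)

/-- Any edge can be mapped to any other edge by an automorphism. -/
def IsEdgeTransitive {V : Type} (G : SimpleGraph V) : Prop :=
  ∀ e ∈ G.edgeSet, ∀ e' ∈ G.edgeSet, ∃ φ : G ≃g G, e.map φ = e'

/-- The partition of the ordered pairs of vertices into the classes `cl x y = i` is a homogeneous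
coherent configuration (for example an association scheme): the diagonal is one class, reversing
all pairs of a class gives a class, and for all classes `i`, `j` the number of `z` with `x z` in `i`
and `z y` in `j` depends only on the class of `x y`. -/
structure IsHomogeneousCoherent {V I : Type} (cl : V → V → I) : Prop where
  diag : ∀ x y z, cl x x = cl y z ↔ y = z
  symm : ∀ x y x' y', cl x y = cl x' y' → cl y x = cl y' x'
  count : ∀ x y x' y', cl x y = cl x' y' → ∀ i j,
    {z | cl x z = i ∧ cl z y = j}.ncard = {z | cl x' z = i ∧ cl z y' = j}.ncard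

theorem result (m : ℕ) (F : SimpleGraph (Fin m)) (hF : F.IsAcyclic) :
    -- edge-transitive graphs
    (∃ f : ℕ → ℕ, ∀ (V : Type) [Finite V] (G : SimpleGraph V), IsEdgeTransitive G →
      ¬ F.IsIndContained G → G.chromaticNumber ≤ f G.cliqueNum) ∧
    -- graphs with large edge orbits
    (∀ c : ℝ, 0 < c → ∃ f : ℕ → ℕ, ∀ (V : Type) [Finite V] (G : SimpleGraph V),
      LargeEdgeOrbits G c → ¬ F.IsIndContained G → G.chromaticNumber ≤ f G.cliqueNum) ∧
    -- unions of large classes of homogeneous coherent configurations
    (∀ c : ℝ, 0 < c → ∃ f : ℕ → ℕ, ∀ (V I : Type) [Finite V] (cl : V → V → I)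
      (G : SimpleGraph V), IsHomogeneousCoherent cl →
      (∀ x y x' y', cl x y = cl x' y' → G.Adj x y → G.Adj x' y') →
      (∀ x y, G.Adj x y → c * ((G.neighborSet x).ncard : ℝ) ≤ ({z | cl x z = cl x y}.ncard : ℝ)) →
      ¬ F.IsIndContained G → G.chromaticNumber ≤ f G.cliqueNum) := by
  classical
  have hcl : ∀ (V : Type) [Finite V] (G : SimpleGraph V), G.CliqueFree (max G.cliqueNum 1 + 1) := by
    intro V _ G
    have : Fintype V := Fintype.ofFinite V
    intro s hs
    have h1 := hs.isClique.card_le_cliqueNum
    rw [hs.card_eq] at h1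
    have h2 := le_max_left G.cliqueNum 1
    omega
  have hlarge : ∀ c : ℝ, 0 < c → ∃ f : ℕ → ℕ, ∀ (V : Type) [Finite V] (G : SimpleGraph V),
      LargeEdgeOrbits G c → ¬ F.IsIndContained G → G.chromaticNumber ≤ f G.cliqueNum := by
    intro c hc
    set la : ℝ := min (c / 2) 1 with hla
    have hla0 : 0 < la := lt_min (by positivity) one_pos
    have hla1 : la ≤ 1 := min_le_right _ _
    have hlac : la ≤ c / 2 := min_le_left _ _
    choose! C hC using fun k (hk : 1 ≤ k) =>
      Pool.Agent.Q112.GS.orbit_color m F hF k hk la hla0 hla1
    refine ⟨fun k => C (max k 1), ?_⟩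
    intro V _ G hL hFG
    have : Fintype V := Fintype.ofFinite V
    refine (hC (max G.cliqueNum 1) (le_max_right _ _) V (G ≃g G) G (fun g u v => g.map_rel_iff)
      ?_ (hcl V G) ⟨fun e => hFG ⟨e⟩⟩).chromaticNumber_le
    intro a b hab
    have h1 := hL s(a, b) hab
    -- the orbit of the edge is the image of the orbit of the arc
    have h2 : (edgeOrbit G s(a, b)).ncard ≤ (Pool.Agent.Q112.GS.arcOrb (G ≃g G) a b).card := by
      have h3 : edgeOrbit G s(a, b) ⊆ (fun p : V × V => s(p.1, p.2)) ''
          ((Pool.Agent.Q112.GS.arcOrb (G ≃g G) a b : Finset (V × V)) : Set (V × V)) := by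
        rintro e ⟨φ, hφ⟩
        rw [Sym2.map_mk] at hφ
        refine ⟨(φ a, φ b), ?_, hφ⟩
        rw [Finset.mem_coe]
        unfold Pool.Agent.Q112.GS.arcOrb
        exact Finset.mem_filter.2 ⟨Finset.mem_univ _, φ, rfl, rfl⟩
      calc (edgeOrbit G s(a, b)).ncard ≤ ((fun p : V × V => s(p.1, p.2)) ''
            ((Pool.Agent.Q112.GS.arcOrb (G ≃g G) a b : Finset (V × V)) : Set (V × V))).ncard :=
            Set.ncard_le_ncard h3 (Set.toFinite _)
        _ ≤ ((Pool.Agent.Q112.GS.arcOrb (G ≃g G) a b : Finset (V × V)) : Set (V × V)).ncard :=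
            Set.ncard_image_le (Set.toFinite _)
        _ = _ := Set.ncard_coe_finset _
    have h4 : (Pool.Agent.Q112.GS.arcs G).card = 2 * G.edgeSet.ncard := by
      have h5 := SimpleGraph.two_mul_card_edgeFinset G
      have h6 : G.edgeSet.ncard = G.edgeFinset.card := by
        rw [← SimpleGraph.coe_edgeFinset, Set.ncard_coe_finset]
      rw [h6, h5]
      unfold Pool.Agent.Q112.GS.arcs
      congr
    have h2' : ((edgeOrbit G s(a, b)).ncard : ℝ) ≤
        ((Pool.Agent.Q112.GS.arcOrb (G ≃g G) a b).card : ℝ) := by exact_mod_cast h2
    have h4' : ((Pool.Agent.Q112.GS.arcs G).card : ℝ) = 2 * (G.edgeSet.ncard : ℝ) := by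
      exact_mod_cast h4
    rw [h4']
    calc la * (2 * (G.edgeSet.ncard : ℝ)) ≤ c / 2 * (2 * (G.edgeSet.ncard : ℝ)) :=
          mul_le_mul_of_nonneg_right hlac (by positivity)
      _ = c * (G.edgeSet.ncard : ℝ) := by ring
      _ ≤ _ := h1.trans h2'
  refine ⟨?_, hlarge, ?_⟩
  · obtain ⟨f, hf⟩ := hlarge 1 one_pos
    refine ⟨f, ?_⟩
    intro V _ G hE hFG
    refine hf V G ?_ hFG
    intro e he
    rw [one_mul]
    have : G.edgeSet ⊆ edgeOrbit G e := fun e' he' => hE e he e' he'
    have h1 : G.edgeSet.ncard ≤ (edgeOrbit G e).ncard :=
      Set.ncard_le_ncard this (Set.toFinite _)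
    exact_mod_cast h1
  · intro c hc
    set la : ℝ := min c 1 with hla
    have hla0 : 0 < la := lt_min hc one_pos
    have hla1 : la ≤ 1 := min_le_right _ _
    have hlac : la ≤ c := min_le_left _ _
    choose! C hC using fun k (hk : 1 ≤ k) =>
      Pool.Agent.Q112.GS.coherent_color m F hF k hk la hla0 hla1
    refine ⟨fun k => C (max k 1), ?_⟩
    intro V I _ cl G hcoh hG hval hFG
    have : Fintype V := Fintype.ofFinite V
    have hcoh' : Pool.Agent.Q112.GS.Coh cl :=
      { symm := hcoh.symm
        count := hcoh.count
        homog := fun x y => (hcoh.diag x y y).2 rfl }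
    refine (hC (max G.cliqueNum 1) (le_max_right _ _) V I cl G hcoh' hG ?_ (hcl V G)
      ⟨fun e => hFG ⟨e⟩⟩).chromaticNumber_le
    intro a b hab
    have h1 := hval a b hab
    have h2 : ((G.neighborSet a).ncard : ℝ) = ((Pool.Agent.Y394.AT.nb G a).card : ℝ) := by
      have : (G.neighborSet a) = ((Pool.Agent.Y394.AT.nb G a : Finset V) : Set V) := by
        ext w
        rw [Finset.mem_coe, Pool.Agent.Y394.AT.mem_nb, SimpleGraph.mem_neighborSet]
      rw [this, Set.ncard_coe_finset]
    have h3 : ({z | cl a z = cl a b}.ncard : ℝ) =
        ((Pool.Agent.Q112.GS.outS cl (cl a b) a).card : ℝ) := by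
      have : {z | cl a z = cl a b} =
          ((Pool.Agent.Q112.GS.outS cl (cl a b) a : Finset V) : Set V) := by
        ext w
        rw [Finset.mem_coe, Pool.Agent.Q112.GS.mem_outS]
        rfl
      rw [this, Set.ncard_coe_finset]
    rw [h2, h3] at h1
    exact (mul_le_mul_of_nonneg_right hlac (Nat.cast_nonneg _)).trans h1

end Pool.Agent.Results.MP_763321_co.EdgeTransitive
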