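import Pool.Agent.Q28.HJ.Per

/-!
# The period conjecture for products of hypersurfaces

For a smooth projective variety `X` over the field of algebraic numbers, `Z_X` is the Zariski closure
of the period point in the torsor `Ω_X` of motivic periods; `dim Z_X` is the transcendence degree of
the field generated by the periods of `X`. We consider the period conjecture in the form
`dim Z_X = dim Ω_X`. It is not known to pass from `X` and `Y` to `X × Y`.

We prove: if it holds for each single hypersurface

  `W : f(x_0, …, x_(a+1)) + y_1^d + y_2^d + … + y_(2k)^d = 0`, `a ≤ ω(dim W)`,

for a set of pairs `(dim W, d)` with arbitrarily large dimensions and arbitrarily divisible degrees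
(`ω` is any function which tends to infinity, however slowly, so almost all variables are diagonal),
then it holds for all finite products `X_1 × ⋯ × X_r` of smooth hypersurfaces of any dimensions and
degrees, and all motives in the Tannakian category generated by such a product.
-/

open CategoryTheory MonoidalCategory Limits

universe v u w

namespace Pool.Agent.Results.MP_77d3f5_ag.SingleHypersurfaces

open Pool.Agent.Q28.HJ

/-- **The period conjecture (equality of dimensions) for products of hypersurfaces.** Let `T` be the
category of homological motives of hypersurfaces over the field of algebraic numbers, with the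
transcendence degrees of the fields of periods and the dimensions of the motivic Galois groups
(`hT`: known facts). Let `S` be a set of pairs `(n, d)` which contains, for all `N` and `D`, a pair
with `n ≥ N` and `D ∣ d`, and `ω : ℕ → ℕ` a function which tends to infinity. The following statements
are equivalent (`L` is the Lefschetz motive, and `M_W ⊞ L` generates the same tensor category as the
motive of `W`):

1. `trdeg = dim` holds for `M_W ⊞ L`, for all `W` with `(dim W, deg W) ∈ S` which are iterated
  suspensions of smooth hypersurfaces `X` with `dim X ≤ ω (dim W)`;
2. for all finite sets of smooth hypersurfaces `X_1, …, X_r`, `trdeg = dim` holds for all the motives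
  `N` which are obtained from `M_{X_1} ⊞ ⋯ ⊞ M_{X_r} ⊞ L` by tensor products, direct sums, direct
  summands and negative Tate twists, in particular for the motive of `X_1 × ⋯ × X_r`. -/
theorem result {𝓜 : Type u} [Category.{v} 𝓜] [Preadditive 𝓜] [MonoidalCategory 𝓜]
    [BraidedCategory 𝓜] [Limits.HasBinaryBiproducts 𝓜] {T : PeriodData.{v, u, w} 𝓜}
    (hT : T.Facts) (S : Set (ℕ × ℕ)) (hS : AnyCofinal S) (ω : ℕ → ℕ)
    (hω : Filter.Tendsto ω Filter.atTop Filter.atTop) :
    (∀ X W : T.Hyp, T.Smooth X → Relation.ReflTransGen T.Susp X W →
      (T.dim W, T.deg W) ∈ S → T.dim X ≤ ω (T.dim W) → T.PC (T.prim W ⊞ T.L)) ↔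
    ∀ l : List T.Hyp, (∀ X ∈ l, T.Smooth X) → ∀ N, Below T.L (T.total l) N → T.PC N :=
  PeriodData.final hT S hS ω hω

end Pool.Agent.Results.MP_77d3f5_ag.SingleHypersurfaces
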