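import Pool.Agent.Q197.WN.CritM
import Pool.Agent.Q120.PT.Primes

/-!
# Windows of length `c p_n` after the powers of a real number: the exact entropy price of the exceptions, for all random sets near Cramer's model
-/

set_option autoImplicit false

namespace Pool.Agent.Results.MP_78b39f_nt.CriticalBudget

open Finset Filter Pool.Agent.Q197.WN
open scoped Topology

/-- The integers in `[b ^ n, b ^ n + c p_n]`, where `p_n` is the `n`-th prime. -/
noncomputable def W (b c : ℝ) (n : ℕ) : Finset ℕ := Icc ⌈b ^ n⌉₊ ⌊b ^ n + c * Nat.nth Nat.Prime (n - 1)⌋₊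

open Classical in
/-- The number of the elements of `S` in the window. -/
noncomputable def N (b c : ℝ) (n : ℕ) (S : Set ℕ) : ℕ := ((W b c n).filter (fun x => x ∈ S)).card

/-- The expected number of elements. -/
noncomputable def E (b c : ℝ) (n : ℕ) : ℝ := c / Real.log b * Real.log n

theorem mem_W {b c : ℝ} (hb : 1 < b) (hc : 0 < c) {n m : ℕ} :
    m ∈ W b c n ↔ b ^ n ≤ m ∧ (m : ℝ) ≤ b ^ n + c * Nat.nth Nat.Prime (n - 1) := by
  unfold W
  rw [mem_Icc, Nat.ceil_le, Nat.le_floor_iff (by positivity)]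

theorem nth_asy : Tendsto (fun n : ℕ => (Nat.nth Nat.Prime (n - 1) : ℝ) / (n * Real.log n)) atTop (𝓝 1) := by
  have hll : Tendsto (fun n : ℕ => Real.log (Real.log n) / Real.log n) atTop (𝓝 0) :=
    (Real.isLittleO_log_id_atTop.tendsto_div_nhds_zero).comp log_tend
  obtain ⟨C, hC, hup⟩ := Pool.Agent.Q120.PT.pp_upper
  have hCl : Tendsto (fun n : ℕ => C / Real.log n) atTop (𝓝 0) := tendsto_const_nhds.div_atTop log_tend
  have hu : Tendsto (fun n : ℕ => 1 + Real.log (Real.log n) / Real.log n + C / Real.log n) atTop (𝓝 1) := by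
    have := (tendsto_const_nhds (x := (1 : ℝ)).add hll).add hCl
    simpa using this
  rw [Metric.tendsto_nhds]
  intro δ hδ
  have hδ' : 0 < min δ (1 / 2) / 2 := by positivity
  filter_upwards [Pool.Agent.Q120.PT.pp_lower hδ' (by have := min_le_right δ (1 / 2); linarith), hup,
    (Metric.tendsto_nhds.1 hu) δ hδ, log_tend.eventually_gt_atTop 0, eventually_ge_atTop 1] with n h1 h2 h3 h4 h5
  have h4' : 0 < Real.log (n : ℝ) := h4
  have h5' : (0 : ℝ) < n := by exact_mod_cast h5
  have e : (Pool.Agent.Q120.PT.pp n : ℝ) = (Nat.nth Nat.Prime (n - 1) : ℝ) := rfl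
  rw [e] at h1 h2
  rw [Real.dist_eq, abs_lt] at h3 ⊢
  have h6 : 1 - min δ (1 / 2) / 2 ≤ (Nat.nth Nat.Prime (n - 1) : ℝ) / (n * Real.log n) := by
    rw [le_div_iff₀ (by positivity)]
    exact h1
  have h7 : (Nat.nth Nat.Prime (n - 1) : ℝ) / (n * Real.log n) ≤ 1 + Real.log (Real.log n) / Real.log n + C / Real.log n := by
    rw [div_le_iff₀ (by positivity)]
    have h8 : (1 + Real.log (Real.log n) / Real.log n + C / Real.log n) * (n * Real.log n) =
        n * (Real.log n + Real.log (Real.log n) + C) := by field_simp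
    rw [h8]
    exact h2
  have h8 := min_le_left δ (1 / 2)
  constructor <;> linarith [h3.2]

/-- The entropy price of the exceptions. -/
theorem result (b c : ℝ) (hb : 1 < b) (hc : 0 < c) :
    (∀ θ : ℝ, 0 ≤ θ → θ < 1 → 1 < c / Real.log b * rate θ → ∀ ε : ℝ, 0 < ε →
      Crit cr (W b c) (fun n S => (N b c n S : ℝ) ≤ θ * E b c n)
        (fun n S => (θ - ε) * E b c n ≤ N b c n S ∧ (N b c n S : ℝ) ≤ θ * E b c n) (c / Real.log b * rate θ)) ∧
    (∀ θ : ℝ, 1 < θ → 1 < c / Real.log b * rate θ → ∀ ε : ℝ, 0 < ε →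
      Crit cr (W b c) (fun n S => θ * E b c n ≤ (N b c n S : ℝ))
        (fun n S => θ * E b c n ≤ N b c n S ∧ (N b c n S : ℝ) ≤ (θ + ε) * E b c n) (c / Real.log b * rate θ)) := by
  have hlb : 0 < Real.log b := Real.log_pos hb
  have hX : Tendsto (fun n : ℕ => b ^ n) atTop atTop := tendsto_pow_atTop_atTop_of_one_lt hb
  have hsq : ∀ᶠ n : ℕ in atTop, (Nat.nth Nat.Prime (n - 1) : ℝ) ≤ 2 * (n : ℝ) ^ 2 := by
    filter_upwards [nth_asy.eventually (Iio_mem_nhds (show (1 : ℝ) < 2 by norm_num)), log_tend.eventually_gt_atTop 0,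
      eventually_ge_atTop 1] with n h1 h2 h3
    have h2' : 0 < Real.log (n : ℝ) := h2
    have h3' : (0 : ℝ) < n := by exact_mod_cast h3
    have h4 : (Nat.nth Nat.Prime (n - 1) : ℝ) / (n * Real.log n) < 2 := h1
    rw [div_lt_iff₀ (by positivity)] at h4
    have h5 : Real.log (n : ℝ) ≤ n := (Real.log_le_sub_one_of_pos h3').trans (by linarith)
    have h6 : (n : ℝ) * Real.log n ≤ n * n := mul_le_mul_of_nonneg_left h5 h3'.le
    nlinarith
  have hlen : ∀ D : ℝ, 0 < D → ∀ᶠ n : ℕ in atTop, c * (Nat.nth Nat.Prime (n - 1) : ℝ) < D * b ^ n := by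
    intro D hD
    have h1 := (tendsto_pow_const_div_const_pow_of_one_lt 2 hb).eventually_lt_const (show (0 : ℝ) < D / (2 * c) by positivity)
    filter_upwards [hsq, h1] with n hn h2
    rw [div_lt_div_iff₀ (by positivity) (by positivity)] at h2
    nlinarith
  obtain ⟨n0, hn0⟩ := eventually_atTop.1 (hlen (b - 1) (by linarith))
  have hkey : ∀ i j, n0 ≤ i → i < j → ∀ m, m ∈ W b c i → m ∈ W b c j → False := by
    intro i j hi hij m h1 h2
    rw [mem_W hb hc] at h1 h2
    have h3 := hn0 i hi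
    have h5 : b ^ (i + 1) ≤ b ^ j := pow_le_pow_right₀ hb.le hij
    have h6 : b ^ (i + 1) = b ^ i * b := pow_succ _ _
    nlinarith [h1.2, h2.1]
  have hd : ∀ i j, n0 ≤ i → n0 ≤ j → i ≠ j → Disjoint (W b c i) (W b c j) := by
    intro i j hi hj hij
    rw [Finset.disjoint_left]
    intro m h1 h2
    rcases lt_or_gt_of_ne hij with h | h
    · exact hkey i j hi h m h1 h2
    · exact hkey j i hj h m h2 h1
  have hW : ∀ᶠ n : ℕ in atTop, ∀ x ∈ W b c n, b ^ n ≤ x ∧ (x : ℝ) ≤ 2 * b ^ n := by
    filter_upwards [hlen 1 one_pos] with n hn x hx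
    rw [mem_W hb hc] at hx
    exact ⟨hx.1, by linarith [hx.2]⟩
  have hcard : Tendsto (fun n : ℕ => ((W b c n).card : ℝ) / (c / Real.log b * Real.log n * (n * Real.log b))) atTop (𝓝 1) := by
    have h00 : Tendsto (fun n : ℕ => c * (n * Real.log n)) atTop atTop :=
      (tendsto_natCast_atTop_atTop.atTop_mul_atTop₀ log_tend).const_mul_atTop hc
    have h0 : Tendsto (fun n : ℕ => (1 : ℝ) / (c * (n * Real.log n))) atTop (𝓝 0) := tendsto_const_nhds.div_atTop h00
    have h1 : Tendsto (fun n : ℕ => (Nat.nth Nat.Prime (n - 1) : ℝ) / (n * Real.log n) - (1 : ℝ) / (c * (n * Real.log n))) atTop (𝓝 1) := by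
      have := nth_asy.sub h0
      rwa [sub_zero] at this
    have h2 : Tendsto (fun n : ℕ => (Nat.nth Nat.Prime (n - 1) : ℝ) / (n * Real.log n) + (1 : ℝ) / (c * (n * Real.log n))) atTop (𝓝 1) := by
      have := nth_asy.add h0
      rwa [add_zero] at this
    refine tendsto_of_tendsto_of_tendsto_of_le_of_le' h1 h2 ?_ ?_
    · filter_upwards [log_tend.eventually_gt_atTop 0, eventually_ge_atTop 1] with n hn hn1
      have hn' : 0 < Real.log (n : ℝ) := hn
      have hn1' : (0 : ℝ) < n := by exact_mod_cast hn1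
      have h3 := (Pool.Agent.Q120.PT.card_cwin (X := b ^ n) (H := c * Nat.nth Nat.Prime (n - 1)) (by positivity) (by positivity)).1
      have h4 : c / Real.log b * Real.log n * (n * Real.log b) = c * (n * Real.log n) := by field_simp
      have h5 : (Nat.nth Nat.Prime (n - 1) : ℝ) / (n * Real.log n) - (1 : ℝ) / (c * (n * Real.log n)) =
          (c * Nat.nth Nat.Prime (n - 1) - 1) / (c * (n * Real.log n)) := by field_simp
      rw [h4, h5]
      exact div_le_div_of_nonneg_right h3 (by positivity)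
    · filter_upwards [log_tend.eventually_gt_atTop 0, eventually_ge_atTop 1] with n hn hn1
      have hn' : 0 < Real.log (n : ℝ) := hn
      have hn1' : (0 : ℝ) < n := by exact_mod_cast hn1
      have h3 := (Pool.Agent.Q120.PT.card_cwin (X := b ^ n) (H := c * Nat.nth Nat.Prime (n - 1)) (by positivity) (by positivity)).2
      have h4 : c / Real.log b * Real.log n * (n * Real.log b) = c * (n * Real.log n) := by field_simp
      have h5 : (Nat.nth Nat.Prime (n - 1) : ℝ) / (n * Real.log n) + (1 : ℝ) / (c * (n * Real.log n)) =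
          (c * Nat.nth Nat.Prime (n - 1) + 1) / (c * (n * Real.log n)) := by field_simp
      rw [h4, h5]
      exact div_le_div_of_nonneg_right h3 (by positivity)
  have hG : Tendsto (fun n : ℕ => Real.log (b ^ n) / (n * Real.log b)) atTop (𝓝 1) := by
    refine tendsto_const_nhds.congr' ?_
    filter_upwards [eventually_ge_atTop 1] with n hn1
    have hn1' : (0 : ℝ) < n := by exact_mod_cast hn1
    rw [Real.log_pow, div_self (by positivity)]
  have h := crit_cr (W := W b c) (X := fun n : ℕ => b ^ n) (G := fun n : ℕ => n * Real.log b) (l := c / Real.log b)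
    (by positivity) hd hX hW hcard hG
  have e1 : ∀ n S, els (W b c n) S = N b c n S := fun n S => rfl
  simp only [e1] at h
  exact h

end Pool.Agent.Results.MP_78b39f_nt.CriticalBudget
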