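import Pool.Agent.Q200.DB.Main

/-!
# Dubrovin's conjecture (first part) for Fano threefolds; quantum cohomology of ruled threefolds

We prove that a Fano threefold, or a threefold obtained from a Fano threefold by any finite sequence
of blow-ups in points and smooth curves, has semisimple big quantum cohomology if and only if it has a
full exceptional collection, if and only if `b_3 = 0`. The semisimplicity is proved without
computations of Gromov-Witten invariants, for ALL rational threefolds with `b_3 = 0`, by a cancellation
argument in the weak factorization.

More generally the types (superdimensions) of the local factors of the quantum cohomology are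
birational invariants of varieties of dimension `n`, except for the types which occur in dimension
`≤ n - 2`. For threefolds the exceptions are `(1, 0)` (a field) and `(2, 2 g)`, `g ≥ 1`.
-/

universe u

namespace Pool.Agent.Results.MP_78bf89_ag.FanoThreefolds

open Pool.Agent.Q200.DB Pool.Agent.Q200.DB.QHData

/-- **Dubrovin's conjecture for Fano threefolds; ruled threefolds.** Let `T` be the smooth projective
complex varieties with their quantum cohomology (`hT`: known facts).

1. If `X` and `Y` are birational then each type `x` of local factors of the quantum cohomology which
   does not occur for varieties of dimension `≤ dim X - 2` has the same multiplicity in `X` and `Y`.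
2. Let `X` be a threefold birational to `S × P^1`, `S` a smooth projective surface. The big quantum
   cohomology of `X` is semisimple if and only if `S` is rational and `X` has no odd cohomology. If `X`
   has a full exceptional collection then it is semisimple, or `S` is a non-rational surface with
   `p_g = b_1 = 0`.
3. Let `X` be a rational threefold. Each local factor of its quantum cohomology has the superdimension
   `(1, 0)` or `(2, 2 g)`, `g ≥ 1`. It is semisimple if and only if `b_3(X) = 0`, in particular if `X`
   has a full exceptional collection.
4. Let `X` be a Fano threefold or obtained from a Fano threefold by a finite sequence of blow-ups in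
   points and smooth curves. Then `X` has semisimple quantum cohomology if and only if it has a full
   exceptional collection, if and only if it has no odd cohomology.
5. Each Fano fourfold with `b_2 > 12` has semisimple quantum cohomology and a full exceptional
   collection. -/
theorem result {T : QHData.{u}} (hT : T.Facts) :
    (∀ X Y : T.Var, T.Bir X Y → ∀ x : ℕ × ℕ,
      (∀ Z, T.dim Z + 2 ≤ T.dim X → x ∉ T.types Z) →
        (T.types X).count x = (T.types Y).count x) ∧
    (∀ X S : T.Var, T.dim S = 2 → T.Bir X (T.prod S (T.P 1)) →
      (T.Semisimple X ↔ T.Rational S ∧ T.odd X = 0) ∧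
      (T.FEC X → T.Semisimple X ∨ ¬ T.Rational S ∧ T.pg S = 0 ∧ T.betti S 1 = 0)) ∧
    (∀ X : T.Var, T.dim X = 3 → T.Rational X →
      (∀ x ∈ T.types X, x = (1, 0) ∨ ∃ g, 1 ≤ g ∧ x = (2, 2 * g)) ∧
      (T.Semisimple X ↔ T.odd X = 0) ∧ (T.FEC X → T.Semisimple X)) ∧
    (∀ X Y : T.Var, T.dim Y = 3 → T.Fano Y → T.Above Y X →
      (T.Semisimple X ↔ T.FEC X) ∧ (T.Semisimple X ↔ T.odd X = 0)) ∧
    ∀ X : T.Var, T.dim X = 4 → T.Fano X → 12 < T.betti X 2 → T.Semisimple X ∧ T.FEC X :=
  ⟨fun _ _ h _ hx => (count_bir hT h hx).symm,
    fun _ _ hS h => ⟨ruled hT hS h, ruled_fec hT hS h⟩,
    fun X hX h => ⟨(rational_three hT hX h).1, (rational_three hT hX h).2,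
      fun hf => (rational_three hT hX h).2.2 (hT.fec_odd X hf)⟩,
    fun _ _ hY hF h => fano_three hT hY hF h,
    fun _ hX hF h => fano_four hT hX hF h⟩

end Pool.Agent.Results.MP_78bf89_ag.FanoThreefolds
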