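import Pool.Agent.Q161.EA.Defs

/-!
# The average order of `Ш[2]` over ALL quadratic twists of an elliptic curve without rational
# 2-torsion is bounded

Let `E : y² = x³ + a x + b` be an elliptic curve over `ℚ` without rational points of order two (`100%` of
all elliptic curves over `ℚ`), and `E_D : y² = x³ + a D² x + b D³` its quadratic twists, `D` squarefree.
There is a constant `C` such that for all `X ≥ 1`

  `∑_{|D| ≤ X} 2^rank(E_D) * #Ш(E_D)[2] ≤ C X`.

So the average order of `Ш(E_D)[2]` is bounded, at most `C X / N` of the twists have `#Ш(E_D)[2] ≥ N`, and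
the dimension of `Ш(E_D)[2]`, which is at least the corank of the 2-primary part of `Ш(E_D)`, is bounded
on average, and small on average over every set of twists of positive density.

The proof (project EA, `Pool/Agent/Q161/EA`) bounds the average order of the 2-Selmer groups.
-/

set_option autoImplicit false

namespace Pool.Agent.Results.MP_78d38b_nt.AverageShaAllTwists

open Finset Pool.Agent.Q161.EA

/-- the order of `Ш[2]` of the twist by `D` -/
noncomputable def shaOrder (a b D : ℤ) : ℕ := Nat.card (ShaTwo a b D)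

/-- Let `y² = x³ + a x + b`, `a, b ∈ ℤ`, be without rational points of order two.  For all squarefree `D`
the group `Ш(E_D)[2]` is finite, and there is a `C` such that for all `X ≥ 1`, `D` running over the
squarefree integers, `|D| ≤ X`: (1) `∑ 2^rank(E_D) * #Ш(E_D)[2] ≤ C X`; (2) `∑ #Ш(E_D)[2] ≤ C X`;
(3) the number of the `D` with `2^rank(E_D) * #Ш(E_D)[2] ≥ N` is at most `C X / N`; (4) for any nonempty set
`S` of these `D` there is the inequality `∏ (2^rank(E_D) * #Ш(E_D)[2]) ≤ (C X / |S|)^|S|`. -/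
theorem result (a b : ℤ) (h : ∀ x : ℚ, x ^ 3 + a * x + b ≠ 0) :
    (∀ D : ℤ, Squarefree D → Finite (ShaTwo a b D)) ∧
    ∃ C : ℝ, 0 < C ∧ ∀ X : ℝ, 1 ≤ X →
      (∑ D ∈ twists X, (2 : ℝ) ^ rank a b D * shaOrder a b D ≤ C * X) ∧
      (∑ D ∈ twists X, (shaOrder a b D : ℝ) ≤ C * X) ∧
      (∀ N : ℕ, 1 ≤ N → (((twists X).filter
        (fun D => N ≤ 2 ^ rank a b D * shaOrder a b D)).card : ℝ) ≤ C * X / N) ∧
      ∀ S : Finset ℤ, S ⊆ twists X → S.Nonempty →
        ∏ D ∈ S, ((2 : ℝ) ^ rank a b D * shaOrder a b D) ≤ (C * X / S.card) ^ S.card := by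
  obtain ⟨h1, C, hC, h2⟩ := main a b h
  refine ⟨h1, C, hC, fun X hX => ?_⟩
  have h3 : ∑ D ∈ twists X, (2 : ℝ) ^ rank a b D * shaOrder a b D ≤ C * X := by
    have := h2 X hX
    push_cast at this
    exact this
  have hS : ∀ S : Finset ℤ, S ⊆ twists X →
      ∑ D ∈ S, (2 : ℝ) ^ rank a b D * shaOrder a b D ≤ C * X :=
    fun S hS => le_trans (sum_le_sum_of_subset_of_nonneg hS (fun _ _ _ => by positivity)) h3
  refine ⟨h3, le_trans (sum_le_sum fun D _ => ?_) h3, fun N hN => ?_, fun S hSX hne => ?_⟩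
  · exact le_mul_of_one_le_left (Nat.cast_nonneg _) (one_le_pow₀ one_le_two)
  · have hN0 : (0 : ℝ) < N := by exact_mod_cast hN
    rw [le_div_iff₀ hN0]
    refine le_trans ?_ (hS ((twists X).filter (fun D => N ≤ 2 ^ rank a b D * shaOrder a b D))
      (filter_subset _ _))
    rw [← nsmul_eq_mul]
    refine card_nsmul_le_sum _ _ _ fun D hD => ?_
    exact_mod_cast (mem_filter.1 hD).2
  · have hc : (0 : ℝ) < S.card := by exact_mod_cast hne.card_pos
    have hg := Real.geom_mean_le_arith_mean_weighted S (fun _ => (1 : ℝ) / S.card)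
      (fun D => (2 : ℝ) ^ rank a b D * shaOrder a b D) (fun _ _ => by positivity)
      (by rw [sum_const, nsmul_eq_mul]; field_simp) (fun _ _ => by positivity)
    have hprod : ∏ D ∈ S, ((2 : ℝ) ^ rank a b D * shaOrder a b D) =
        (∏ D ∈ S, ((2 : ℝ) ^ rank a b D * shaOrder a b D) ^ ((1 : ℝ) / S.card)) ^ S.card := by
      rw [← prod_pow]
      refine prod_congr rfl fun D _ => ?_
      have h0 : (0 : ℝ) ≤ (2 : ℝ) ^ rank a b D * shaOrder a b D := by positivity
      generalize (2 : ℝ) ^ rank a b D * (shaOrder a b D : ℝ) = y at h0 ⊢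
      rw [← Real.rpow_natCast, ← Real.rpow_mul h0, one_div, inv_mul_cancel₀ hc.ne', Real.rpow_one]
    rw [hprod]
    refine pow_le_pow_left₀ (prod_nonneg fun _ _ => by positivity) (hg.trans ?_) _
    rw [← mul_sum, one_div, div_eq_mul_inv, mul_comm]
    exact mul_le_mul_of_nonneg_right (hS S hSX) (by positivity)

end Pool.Agent.Results.MP_78d38b_nt.AverageShaAllTwists
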