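import Pool.Agent.Q7.CE.All
import Pool.Agent.Q7.LK.Uni

/-!
# Cubic twists over every number field containing the third roots of unity

Let `F` be any number field which contains a primitive third root of unity. The curves `E_D : y² + D y = x³`, `D ∈ F^*`, are the
cubic twists over `F` of `y² + y = x³` (`E_D` is isogenous to `x³ + y³ = D`, and isomorphic to `E_{D a³}`). Prescribe `D` up to
cubes in the completions at all places above the prime numbers `≤ y` (it is equal to `D₀` there), and the orders `z_i ≠ 0` modulo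
`3` of `D` at `k` further primes `q_0, …, q_(k-1)`, of norms `≤ X_0, …, X_(k-1)` (the order is divisible by `3` at all other
primes), for large `k`, `X_0`, then `X_1` large in terms of `X_0`, and so on.

Theorem. For at least one half of these twists, up to `ε`, the group `E_D(F)` is finite and `Ш(E_D / F)[3^∞] = 0`.

Proof. The Selmer group of the endomorphism `√-3` is the group of the classes `a ∈ F^*` modulo cubes for which the diagonal cubic
`w³ = a² u³ + a D s³` has points over all completions; it contains the powers of `D`, and if there are no other classes then the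
conclusion holds. Outside `3` such an `a` has an order divisible by `3` where `D` has, and it is locally a power of `D` where `D` has
not. At a place `v` above `3` the classes form an isotropic set for the cubic Hilbert symbol (an explicit norm), so there are at
most `3^(1 + [F_v : ℚ_3] / 2)` of them. The cubic residue symbols which describe the group of the global `a` are equidistributed by
the cubic law of reciprocity over `F` (deduced from Artin's law, proved by our team) and Chebotarev's theorem, and the mean of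
the number of the nontrivial classes (modulo powers of `D`) is at most `3^(∑ [F_v : ℚ_3]/2 - r) ≤ 1`, `r` the number of the
complex places of `F`; with `a` also `a²` is nontrivial.

The parts were proved together with helpers 14, 22, 65, 123, 129, 150, 153, 162, 190, 224, 241, 262, 265, 277 and 285.
-/

set_option autoImplicit false

namespace Pool.Agent.Results.MP_78d38b_nt.HalfOfTheCubicTwists

open NumberField IsDedekindDomain Filter Topology WeierstrassCurve
open Pool.Agent.TH841.NF.D (Sha)

/-- The curve `E_D : y² + D y = x³`. -/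
def curve {F : Type} [Field F] (D : F) : WeierstrassCurve F := ⟨0, 0, D, 0, 0⟩

section Ensemble

variable {F : Type} [Field F] [NumberField F]

/-- `E_D(F)` is finite and the `3`-primary part of `Ш(E_D / F)` is trivial. -/
def FiniteAndTrivial (D : F) : Prop :=
  Finite (curve D).toAffine.Point ∧ ∀ (n : ℕ) (x : Sha (curve D)), 3 ^ n • x = 0 → x = 0

/-- The order of `a` at `v` modulo `3`. -/
noncomputable def orderMod (v : HeightOneSpectrum (𝓞 F)) (a : F) : ZMod 3 :=
  -((WithZero.log (v.valuation F a) : ℤ) : ZMod 3)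

/-- `a` is the cube of a nonzero element of the completion of `F` at `v`. -/
def CubeAt (v : HeightOneSpectrum (𝓞 F)) (a : F) : Prop :=
  a ≠ 0 ∧ ∃ s : v.adicCompletion F, (a : v.adicCompletion F) = s ^ 3

/-- `v` lies above a prime number `l ≤ y`. -/
def Small (y : ℕ) (v : HeightOneSpectrum (𝓞 F)) : Prop :=
  ∃ l : ℕ, l.Prime ∧ l ≤ y ∧ (l : 𝓞 F) ∈ v.asIdeal

open Classical in
/-- Among the primes not above prime numbers `≤ y` the order of `D` modulo `3` is `z i` at the prime `q i` and `0` at the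
others; and at the primes above prime numbers `≤ y` the number `D` is equal to `D₀` up to local cubes. -/
structure Fits (y : ℕ) (D₀ : F) {k : ℕ} (z : Fin k → ZMod 3) (q : Fin k → HeightOneSpectrum (𝓞 F)) (D : F) :
    Prop where
  ne : D ≠ 0
  ram : ∀ v : HeightOneSpectrum (𝓞 F), ¬ Small y v → orderMod v D = ∑ i, if q i = v then z i else 0
  loc : ∀ v : HeightOneSpectrum (𝓞 F), Small y v → CubeAt v (D / D₀)

/-- The ensemble: the tuples of `k` different primes `q i`, not above prime numbers `≤ y`, of norm `≤ X i`, to which a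
`D` belongs. -/
def Ensemble (y : ℕ) (D₀ : F) {k : ℕ} (z : Fin k → ZMod 3) (X : Fin k → ℕ) : Set (Fin k → HeightOneSpectrum (𝓞 F)) :=
  {q | (Function.Injective q ∧ ∀ i, ¬ Small y (q i) ∧ Ideal.absNorm (q i).asIdeal ≤ X i) ∧
    ∃ D, Fits y D₀ z q D}

end Ensemble

/-- `P X` is true for all large `X 0`, for all `X 1` which are large in terms of `X 0`, …, for all `X (k-1)` which are
large in terms of the others. -/
def Nested : (k : ℕ) → ((Fin k → ℕ) → Prop) → Prop
  | 0, P => P Fin.elim0
  | k + 1, P => Nested k fun X => ∀ᶠ x : ℕ in atTop, P (Fin.snoc (α := fun _ => ℕ) X x)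

section Proof

theorem nested_iff : ∀ (k : ℕ) (P : (Fin k → ℕ) → Prop), Nested k P ↔ Q283.LQ.Nest k P
  | 0, _ => Iff.rfl
  | k + 1, _ => nested_iff k _

variable {F : Type} [Field F] [NumberField F]

theorem fits_iff {y : ℕ} {D₀ : F} {k : ℕ} {z : Fin k → ZMod 3}
    {q : Fin k → HeightOneSpectrum (𝓞 F)} {D : F} : Fits y D₀ z q D ↔ Q7.LK.Fits 3 y D₀ z q D := by
  constructor
  · intro h
    exact ⟨h.ne, h.ram, fun v hv => (Q7.LK.t_CPL 3 F v _).mpr (h.loc v hv)⟩
  · intro h
    exact ⟨h.ne, h.ram, fun v hv => (Q7.LK.t_CPL 3 F v _).mp (h.loc v hv)⟩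

end Proof

/-- **Main result.** -/
theorem result (F : Type) [Field F] [NumberField F] (ω : F) (hω : IsPrimitiveRoot ω 3) :
    ∃ y₀ : ℕ, ∀ y, y₀ ≤ y → ∀ D₀ : F, D₀ ≠ 0 →
      (∀ (k : ℕ) (z : Fin k → ZMod 3) (q : Fin k → HeightOneSpectrum (𝓞 F)) (D D' : F),
        Fits y D₀ z q D → Fits y D₀ z q D' → ∃ x : F, D = D' * x ^ 3) ∧
      ∀ ε : ℝ, 0 < ε → ∃ k₀ : ℕ, ∀ k, k₀ ≤ k → ∀ z : Fin k → ZMod 3, (∀ i, z i ≠ 0) → Nested k fun X =>
        (Ensemble y D₀ z X).Finite ∧ (Ensemble y D₀ z X).Nonempty ∧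
        (1 / 2 - ε) * (Ensemble y D₀ z X).ncard ≤
          ({q ∈ Ensemble y D₀ z X | ∀ D, Fits y D₀ z q D → FiniteAndTrivial D}.ncard : ℝ) := by
  obtain ⟨y1, hy1⟩ := Q7.CE.t_EMAIN F ω hω
  obtain ⟨y2, hy2⟩ := Q7.LK.uniq Q7.LK.t_BAS Q7.LK.t_BASE 3 (by norm_num) F ω hω
  refine ⟨max y1 y2, fun y hy D₀ hD₀ => ⟨fun k z q D D' hD hD' => ?_, fun ε hε => ?_⟩⟩
  · obtain ⟨x, hx⟩ := hy2 y (le_trans (le_max_right _ _) hy) D₀ hD₀ k z q D D' (fits_iff.mp hD) (fits_iff.mp hD')
    refine ⟨x, ?_⟩
    rw [← hx, mul_div_cancel₀ _ hD'.ne]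
  obtain ⟨k0, hk0⟩ := hy1 y (le_trans (le_max_left _ _) hy) D₀ hD₀ ε hε
  refine ⟨k0, fun k hk z hz => (nested_iff k _).mpr (Q7.LK.nest_mono k _ _ (fun X hX => ?_) (hk0 k hk z hz))⟩
  obtain ⟨hfin, hpos, hN⟩ := hX
  have hE : Ensemble y D₀ z X =
      {q ∈ (Q283.LQ.Box y X : Set (Fin k → HeightOneSpectrum (𝓞 F))) | ∃ D, Q7.LK.Fits 3 y D₀ z q D} := by
    ext q
    simp only [Ensemble, Q283.LQ.Box, Set.mem_ofPred_eq, fits_iff]
    rfl
  have hEfin : (Ensemble y D₀ z X).Finite := by
    rw [hE]
    exact hfin.subset (fun q hq => hq.1)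
  rw [← hE] at hpos hN
  refine ⟨hEfin, ?_, le_trans hN ?_⟩
  · rw [← Set.ncard_pos hEfin]
    exact_mod_cast hpos
  · have h2 : {q ∈ (Q283.LQ.Box y X : Set (Fin k → HeightOneSpectrum (𝓞 F))) |
          (∃ D, Q7.LK.Fits 3 y D₀ z q D) ∧ ∀ D, Q7.LK.Fits 3 y D₀ z q D → Q7.CE.Triv D} ⊆
        {q ∈ Ensemble y D₀ z X | ∀ D, Fits y D₀ z q D → FiniteAndTrivial D} := by
      rintro q ⟨hq, hd, h⟩
      refine ⟨?_, fun D hf => h D (fits_iff.mp hf)⟩
      rw [hE]
      exact ⟨hq, hd⟩
    exact_mod_cast Set.ncard_le_ncard h2 (hEfin.subset (fun q hq => hq.1))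

end Pool.Agent.Results.MP_78d38b_nt.HalfOfTheCubicTwists
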