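import Pool.Agent.Q161.ESM.Cor

/-!
# All joint moments of `#Ш[2]` over ALL quadratic twists of elliptic curves without rational 2-torsion
# are bounded

Let `E_i : y² = x³ + a_i x + b_i`, `i = 1, …, r`, be elliptic curves over `ℚ` without rational points of
order two (`100%` of all elliptic curves over `ℚ`), not necessarily different, and
`E_(i,D) : y² = x³ + a_i D² x + b_i D³` their quadratic twists, `D` squarefree.  For every `k` there is a
constant `C` such that for all `X ≥ 1`

  `∑_{|D| ≤ X} ∏_i (2^rank(E_(i,D)) * #Ш(E_(i,D))[2])^k ≤ C X`.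

So the number of the twists with `#Ш(E_D)[2] ≥ T` is `O_k(X / T^k)` for every `k`, and an arbitrarily large
power of `#Ш[2]` is bounded on average, over all twists and jointly for several curves.

The proof (project ESM, `Pool/Agent/Q161/ESM`) bounds the joint moments of the orders of the 2-Selmer
groups: a descent in a Galois module which is the sum of the modules `E_i[2]`, a system of characters
at the conjugates of elements of number fields, and high moments of these characters.
-/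

set_option autoImplicit false

namespace Pool.Agent.Results.MP_78d38b_nt.JointMomentsAllTwists

open Finset Pool.Agent.Q161.EA

/-- the order of `Ш[2]` of the twist by `D` -/
noncomputable def shaOrder (a b D : ℤ) : ℕ := Nat.card (ShaTwo a b D)

/-- Let `y² = x³ + a_i x + b_i`, `a_i, b_i ∈ ℤ`, `1 ≤ i ≤ r`, be without rational points of order two, and
`s_i(D) = 2^rank * #Ш[2]` for the twist of the `i`-th curve by `D`.  For all squarefree `D` the groups `Ш[2]`
of the twists are finite, and for every `k` there is a `C` such that for all `X ≥ 1`, `D` running over the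
squarefree integers, `|D| ≤ X`: (1) `∑ ∏_i s_i(D)^k ≤ C X`; (2) for all `T > 0` the number of the `D` with
`∏_i s_i(D) ≥ T` is at most `C X / T^k`; (3) for all `i` `∑ #Ш(E_(i,D))[2]^k ≤ C X`; (4) for every nonempty
set `S` of these `D` `∏_(D ∈ S) (∏_i s_i(D))^k ≤ (C X / |S|)^|S|`. -/
theorem result (r : ℕ) (a b : Fin r → ℤ) (h : ∀ i, ∀ x : ℚ, x ^ 3 + a i * x + b i ≠ 0) :
    (∀ i, ∀ D : ℤ, Squarefree D → Finite (ShaTwo (a i) (b i) D)) ∧
    ∀ k : ℕ, ∃ C : ℝ, 0 < C ∧ ∀ X : ℝ, 1 ≤ X →
      (∑ D ∈ twists X, ∏ i, ((2 : ℝ) ^ rank (a i) (b i) D * shaOrder (a i) (b i) D) ^ k ≤ C * X) ∧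
      (∀ T : ℝ, 0 < T → (((twists X).filter (fun D =>
        T ≤ ∏ i, ((2 : ℝ) ^ rank (a i) (b i) D * shaOrder (a i) (b i) D))).card : ℝ) ≤
          C * X / T ^ k) ∧
      (∀ i, ∑ D ∈ twists X, (shaOrder (a i) (b i) D : ℝ) ^ k ≤ C * X) ∧
      ∀ S : Finset ℤ, S ⊆ twists X → S.Nonempty →
        ∏ D ∈ S, (∏ i, ((2 : ℝ) ^ rank (a i) (b i) D * shaOrder (a i) (b i) D)) ^ k ≤
          (C * X / S.card) ^ S.card := by
  refine ⟨fun i D hD => Pool.Agent.Q161.ESM.fin_sha (h i) hD, fun k => ?_⟩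
  obtain ⟨C, hC, h2⟩ := Pool.Agent.Q161.ESM.moments a b h k
  have hone : ∀ X : ℝ, ∀ D ∈ twists X, ∀ i, 1 ≤ (2 : ℝ) ^ rank (a i) (b i) D *
      shaOrder (a i) (b i) D := by
    intro X D hD i
    have h3 : 1 ≤ shaOrder (a i) (b i) D :=
      shaTwo_pos _ _ _ (Pool.Agent.Q161.ESM.fin_sha (h i) (squarefree_of_mem hD))
    have h4 : (1 : ℝ) ≤ shaOrder (a i) (b i) D := by exact_mod_cast h3
    have h5 : (1 : ℝ) ≤ (2 : ℝ) ^ rank (a i) (b i) D := one_le_pow₀ one_le_two
    calc (1 : ℝ) = 1 * 1 := (one_mul 1).symm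
      _ ≤ _ := mul_le_mul h5 h4 zero_le_one (by positivity)
  refine ⟨C, hC, fun X hX => ?_⟩
  have h3 : ∑ D ∈ twists X, ∏ i, ((2 : ℝ) ^ rank (a i) (b i) D * shaOrder (a i) (b i) D) ^ k ≤
      C * X := by
    have h4 := h2 X hX
    push_cast at h4
    exact h4
  have h3' : ∑ D ∈ twists X, (∏ i, ((2 : ℝ) ^ rank (a i) (b i) D * shaOrder (a i) (b i) D)) ^ k ≤
      C * X := by simpa only [prod_pow] using h3
  refine ⟨h3, fun T hT => ?_, fun i => le_trans (sum_le_sum fun D hD => ?_) h3, fun S hS hne =>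
    Pool.Agent.Q161.ESM.geom S hne _ (fun D _ => by positivity)
      (le_trans (sum_le_sum_of_subset_of_nonneg hS (fun D _ _ => by positivity)) h3')⟩
  · refine Pool.Agent.Q161.ESM.markov (fun D => ∏ i, ((2 : ℝ) ^ rank (a i) (b i) D *
      shaOrder (a i) (b i) D)) (fun D _ => by positivity) k h3' hT
  · have h6 : (shaOrder (a i) (b i) D : ℝ) ^ k ≤
        ((2 : ℝ) ^ rank (a i) (b i) D * shaOrder (a i) (b i) D) ^ k := by
      refine pow_le_pow_left₀ (Nat.cast_nonneg _) ?_ k
      exact le_mul_of_one_le_left (Nat.cast_nonneg _) (one_le_pow₀ one_le_two)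
    refine h6.trans ?_
    exact Pool.Agent.Q161.ESM.one_term (fun j => ((2 : ℝ) ^ rank (a j) (b j) D *
      shaOrder (a j) (b j) D) ^ k) (fun j => one_le_pow₀ (hone X D hD j)) i

end Pool.Agent.Results.MP_78d38b_nt.JointMomentsAllTwists
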