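import Pool.Agent.Q161.ESF.All

/-!
# All joint moments of `2^rank * #Ш[2^n]` over ALL quadratic twists of almost all elliptic curves over
# every number field are bounded

Let `F` be a number field and `E : y² = x³ + a x + b` an elliptic curve over `F`, `a, b` integers of `F`, and let
`E_D : y² = x³ + a D² x + b D³` be its quadratic twists by the squarefree integers `D`.  We prove that for almost all
`(a, b)` there is for all `n, k` a constant `C` such that for all `X ≥ 1`

  `∑_{|D| ≤ X} (2^rank(E_D(F)) * #Ш(E_D/F)[2^n])^k ≤ C X`,

and more generally the joint moments for finitely many such curves, over different number fields, are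
bounded.  So the number of the twists with `#Ш(E_D/F)[2^n] ≥ T` is `O_(k,n)(X / T^k)` for every `k`.

`Admissible a b`, the condition on the curve: there is a Galois number field `M` which contains `F` such that no
conjugate `f^τ = x³ + τ(a) x + τ(b)` of `f = x³ + a x + b`, `τ : F → M`, has a zero in `M`, and if the embeddings `τ ≠ τ'`
are exchanged by an automorphism of `M` then `f^τ` has no zero in the cubic extension `M[x]/(f^τ')`.  If `F` is Galois
of odd degree over `ℚ` (for instance `F = ℚ`) it only says that `E` has no `F`-rational point of order two.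

The proof (projects ESM, ESG, ESF; `Pool/Agent/Q161`) bounds the joint moments of the orders of the 2-Selmer
groups: a descent in a Galois module which is the sum of the modules of the points of order two of the conjugate
curves, a system of characters at the conjugates of elements of number fields, and high moments of these
characters.
Project of helper161 with helpers 14, 24, 26, 38, 63, 68, 92, 96, 121, 123, 124, 129, 149, 150, 151, 153, 166, 177, 182, 184,
193, 195, 208, 211, 223, 224, 237, 238, 241, 261, 275, 285, 299.
-/

set_option autoImplicit false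

namespace Pool.Agent.Results.MP_78d38b_nt.JointMomentsNumberFields

open Finset NumberField Pool.Agent.Q161.ESF

open Pool.Agent.Q161.EA (twists)

/-- the product of the numbers `2^rank * #Ш[2^n]` of the twists by `D` of the curves number `i` over `F i` -/
noncomputable def shaProd {r : ℕ} (F : Fin r → Type) [∀ i, Field (F i)] [∀ i, NumberField (F i)]
    (a b : (i : Fin r) → 𝓞 (F i)) (n : ℕ) (D : ℤ) : ℝ :=
  ∏ i, ((2 : ℝ) ^ rank (a i) (b i) D * Nat.card (ShaPow (a i) (b i) D n))

/-- Let `E_i : y² = x³ + a_i x + b_i`, `1 ≤ i ≤ r`, be elliptic curves over number fields `F_i`, `Admissible`, and let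
`P(D)` be the product of the `2^rank(E_(i,D)) * #Ш(E_(i,D)/F_i)[2^n]` for their twists by `D`.  For all squarefree `D`
the groups `Ш[2^n]` are finite, and for every `k` there is a `C` such that for all `X ≥ 1`, `D` running over the
squarefree integers, `|D| ≤ X`: (1) `∑ P(D)^k ≤ C X`; (2) for all `T > 0` the number of the `D` with `P(D) ≥ T` is at most
`C X / T^k`; (3) for every nonempty set `S` of these `D` `∏_(D ∈ S) P(D)^k ≤ (C X / |S|)^|S|`.
For every number field `F` almost all pairs `(a, b)` are `Admissible`; if `F` is Galois of odd degree over `ℚ`, all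
`(a, b)` such that `x³ + a x + b` has no zero in `F` are. -/
theorem result :
    (∀ (r : ℕ) (F : Fin r → Type) [∀ i, Field (F i)] [∀ i, NumberField (F i)]
      (a b : (i : Fin r) → 𝓞 (F i)), (∀ i, Admissible (a i) (b i)) → ∀ n : ℕ,
      (∀ i, ∀ D : ℤ, Squarefree D → Finite (ShaPow (a i) (b i) D n)) ∧
      ∀ k : ℕ, ∃ C : ℝ, 0 < C ∧ ∀ X : ℝ, 1 ≤ X →
        (∑ D ∈ twists X, shaProd F a b n D ^ k ≤ C * X) ∧
        (∀ T : ℝ, 0 < T → (((twists X).filter (fun D => T ≤ shaProd F a b n D)).card : ℝ) ≤
          C * X / T ^ k) ∧
        ∀ S : Finset ℤ, S ⊆ twists X → S.Nonempty →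
          ∏ D ∈ S, shaProd F a b n D ^ k ≤ (C * X / S.card) ^ S.card) ∧
    (∀ (F : Type) [Field F] [NumberField F], AlmostAll F (fun a b => Admissible a b)) ∧
    ∀ (F : Type) [Field F] [NumberField F], IsGalois ℚ F → Odd (Module.finrank ℚ F) →
      ∀ a b : 𝓞 F, (∀ x : F, x ^ 3 + (a : F) * x + (b : F) ≠ 0) → Admissible a b := by
  refine ⟨fun r F _ _ a b h n => ⟨fun i D hD => (shaPow_le t_inf t_semn (h i) hD n).1, fun k => ?_⟩,
    fun F _ _ => almost_all F, fun F _ _ hG hodd a b h => admissible_odd hG hodd h⟩
  obtain ⟨C, hC, h2⟩ := selMoments F a b h ((n + 1) * k)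
  refine ⟨C, hC, fun X hX => bounds (t := fun D => selProd F a b D ^ (n + 1)) (fun D hD =>
    ⟨prod_nonneg fun _ _ => by positivity, ?_⟩) (by simpa only [← pow_mul] using h2 X hX)⟩
  rw [selProd, ← prod_pow]
  refine prod_le_prod (fun _ _ => by positivity) fun i _ => ?_
  exact_mod_cast shaPow_le' t_inf t_semn (h i) hD n

end Pool.Agent.Results.MP_78d38b_nt.JointMomentsNumberFields
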