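import Mathlib
import Pool.Agent.Q283.MS.Main

/-!
# The Tate-Shafarevich group over multicubic fields and in infinite towers of them

`E_D : y² + D y = x³`, a curve over `ℚ`, `3`-isogenous to `x³ + y³ = D`. We prove, without any
hypothesis, that `Ш(E_D/F)[3^∞]` is killed by `3 ^ k` (so it is finite, since `Ш[n]` is finite for
every `n`), and that `E_D(F)` is finite:

(1) for every layer of infinite towers, for a fixed curve. Let `D` be cube-free, prime to `3`, not
`±1` modulo `9`, such that exactly one prime `q = 2` modulo `3` divides `D`, without splitting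
`D = d_0 d_1 d_2` in the sense of `NoSplit` (these are the `D` of this kind for which `E_D(ℚ)` is
finite and `Ш(E_D/ℚ)[3^∞] = 0`). For all bounds `B_j` there are pairwise coprime squarefree numbers
`M_j > B_j`, products of primes `= 1` modulo `3`, such that the assertion holds for every `k` over
`F = F_k = ℚ(∛M_0, …, ∛M_{k-1})`, of degree `3 ^ k`, not Galois over `ℚ`, and over its Galois closure
`F_k(ω)` of degree `2 · 3 ^ k`;

(2) for a positive proportion of the prime twists. Let `N` be cube-free, prime to `3`, such that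
exactly one prime `q = 2` modulo `3` divides `N`, and let `F` be generated by cube roots of
`d_1, …, d_k` (`= 1` modulo `9`, all prime factors `= 1` modulo `3`, independent modulo cubes) and the
cube roots of unity in `F`. There is a squarefree `m` such that the assertion holds for
`D = N m ℓ` for a set of primes `ℓ` of positive density among the primes `= 1` modulo `3`; it does not
depend on the choice between `ℚ(∛d_j)` and its Galois closure.

The proof: let `f` be a locally trivial cocycle of `G_F`, of order a power of `3`. Its `3 ^ k`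
corestrictions from `F(ω)` to `ℚ(ω)` with the cubic characters of `F(ω)` are locally trivial cocycles
of the curves `E_n`, `n = D ∏ d_j ^ e_j`, over `ℚ(ω)`; their sum is `3 ^ k f` on `G_{F(ω)}`. The groups
`Ш(E_n/ℚ(ω))[3^∞]` are trivial by the descent of the starting library, if `n` has the property
`NoSplit`; so `3 ^ k f` is a coboundary on `G_{F(ω)}`, and then on `G_F`, since `[F(ω) : F]` divides
`2`. The towers and the prime twists are those of `MP_1a91b9_nt.InfiniteCubicTowers` and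
`MP_f50388_nt.PureMulticubicFields`.
-/

set_option autoImplicit false

open scoped Classical

namespace Pool.Agent.Results.MP_78d38b_nt.MulticubicTowers

open NumberField

/-- The curve `E_N : y² + N y = x³` over `ℚ`. -/
def curve (N : ℕ) : WeierstrassCurve ℚ := ⟨0, 0, N, 0, 0⟩

/-- `D` is prime to `3` and cube-free, and exactly one prime `q = 2` modulo `3` divides it. -/
def Base (D : ℕ) : Prop :=
  D ≠ 0 ∧ ¬ 3 ∣ D ∧ (∀ p : ℕ, p.Prime → ¬ p ^ 3 ∣ D) ∧
    ∃ q : ℕ, q.Prime ∧ q % 3 = 2 ∧ q ∣ D ∧ ∀ p : ℕ, p.Prime → p ∣ D → p ≠ q → p % 3 = 1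

/-- `D` is not a product `d₀ d₁ d₂` of coprime factors, at least two of them different from `1`,
such that `d₁ d₂²`, `d₂ d₀²`, `d₀ d₁²` are cubes modulo the primes dividing `d₀`, `d₁`, `d₂`. -/
def NoSplit (D : ℕ) : Prop :=
  ∀ d : ZMod 3 → ℕ, ∏ c, d c = D → (∀ c c', c ≠ c' → Nat.Coprime (d c) (d c')) →
    (∀ (c : ZMod 3) (p : ℕ), p.Prime → p ∣ d c →
      ∃ x : ℤ, (p : ℤ) ∣ (d (c + 1) : ℤ) * (d (c + 2) : ℤ) ^ 2 - x ^ 3) →
    ∃ c, ∀ c', c' ≠ c → d c' = 1

/-- No product `∏ d_j ^ e_j` with exponents `0, 1, 2`, not all zero, is a cube. -/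
def Independent {k : ℕ} (d : Fin k → ℕ) : Prop :=
  ∀ e : Fin k → ZMod 3, e ≠ 0 → ∀ c : ℕ, ∏ j, d j ^ (e j).val ≠ c ^ 3

/-- `F` is generated by cube roots of the `d_j` and the cube roots of unity in `F`. -/
def IsMulticubic {k : ℕ} (d : Fin k → ℕ) (F : Type) [Field F] [NumberField F] : Prop :=
  ∃ θ : Fin k → F, (∀ j, θ j ^ 3 = (d j : F)) ∧
    IntermediateField.adjoin ℚ ({x : F | x ^ 3 = 1} ∪ Set.range θ) = ⊤

/-- `E_N(F)` is finite, and every element of `3`-power order of `Ш(E_N/F)` is killed by `3 ^ k`. Here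
`Sha W` is the group of the continuous cocycles `Gal(F̄/F) → W(F̄)` which are coboundaries at all
finite and infinite places of `F`, modulo the coboundaries. -/
def ShaThree (k N : ℕ) (F : Type) [Field F] [NumberField F] : Prop :=
  Finite ((curve N).baseChange F).toAffine.Point ∧
    ∀ (n : ℕ) (x : Pool.Agent.TH841.NF.D.Sha ((curve N).baseChange F)),
      3 ^ n • x = 0 → 3 ^ k • x = 0

/-- The number of the primes `ℓ = 1` modulo `3` up to `X` with the property `T`. -/
noncomputable def count (T : ℕ → Prop) (X : ℕ) : ℕ :=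
  ((Finset.range (X + 1)).filter fun l => (l.Prime ∧ l % 3 = 1) ∧ T l).card

theorem curve_eq (N : ℕ) :
    curve N = Pool.Agent.Y703.CT.EQ (Pool.Agent.Y703.CT.WD ((N : ℕ) : ℤ)) := by
  ext <;> simp [curve, Pool.Agent.Y703.CT.WD]

theorem result :
    (∀ D : ℕ, Base D → D % 9 ≠ 1 → D % 9 ≠ 8 → NoSplit D → ∀ B : ℕ → ℕ,
      ∃ M : ℕ → ℕ,
        (∀ j, B j < M j ∧ 1 < M j ∧ Squarefree (M j) ∧
          (∀ p : ℕ, p.Prime → p ∣ M j → p % 3 = 1) ∧ Nat.Coprime D (M j)) ∧
        (∀ i j, i ≠ j → Nat.Coprime (M i) (M j)) ∧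
        ∀ (k : ℕ) (F : Type) [Field F] [NumberField F], IsMulticubic (fun j : Fin k => M j) F →
          3 ^ k ∣ Module.finrank ℚ F ∧ ShaThree k D F) ∧
    (∀ N : ℕ, Base N → ∀ (k : ℕ) (d : Fin k → ℕ), (∀ j, d j % 9 = 1) →
      (∀ (j : Fin k) (p : ℕ), p.Prime → p ∣ d j → p % 3 = 1) → Independent d →
      ∃ m : ℕ, Squarefree m ∧ (∀ p ∈ m.primeFactors, p % 9 = 1 ∧ ¬ p ∣ N) ∧
        ∃ (δ : ℝ) (S : ℕ → Prop), 0 < δ ∧
          Filter.Tendsto (fun X : ℕ => (count S X : ℝ) / (count (fun _ => True) X : ℝ))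
            Filter.atTop (nhds δ) ∧
          ∀ l : ℕ, l.Prime → l % 3 = 1 → S l → ¬ l ∣ N * m ∧
            ∀ (F : Type) [Field F] [NumberField F], IsMulticubic d F →
              3 ^ k ∣ Module.finrank ℚ F ∧ ShaThree k (N * m * l) F) := by
  constructor
  · intro D hD h1 h8 hS B
    have hC : Pool.Agent.Y703.CT.Cls D := ⟨⟨hD.1, hD.2.1, hD.2.2.1⟩, h1, h8, hD.2.2.2⟩
    obtain ⟨M, g1, g2, g3⟩ := Q283.MS.towersSha hC hS B
    refine ⟨M, g1, g2, fun k F _ _ ⟨θ, hθ, hgen⟩ => ?_⟩
    obtain ⟨g4, g5, g6⟩ := g3 k F θ hθ hgen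
    refine ⟨g4, ?_, ?_⟩
    · rw [curve_eq]
      exact g5.1
    · rw [curve_eq]
      exact g6
  · intro N hN k d hd hp hind
    have hB : Q283.TQ.Bs N := ⟨⟨hN.1, hN.2.1, hN.2.2.1⟩, hN.2.2.2⟩
    have hd0 : ∀ j, d j ≠ 0 := fun j h => by
      have := hd j
      rw [h] at this
      norm_num at this
    obtain ⟨m, h1, h2, δ, h3, S, h4, h5⟩ := Q283.MS.primesSha hB d hd0 hd hp hind
    refine ⟨m, h1, h2, δ, S, h3, h4, fun l hl hl1 hS => ?_⟩
    obtain ⟨h6, h7⟩ := h5 l hl hl1 hS
    refine ⟨h6, fun F _ _ ⟨θ, hθ, hgen⟩ => ?_⟩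
    obtain ⟨g4, g5, g6⟩ := h7 F θ hθ hgen
    refine ⟨g4, ?_, ?_⟩
    · rw [curve_eq]
      exact g5.1
    · rw [curve_eq]
      exact g6

end Pool.Agent.Results.MP_78d38b_nt.MulticubicTowers
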