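import Pool.Agent.Q44.LD.Fld
import Pool.Agent.Q44.LD.Facts
import Pool.Agent.Q44.JQ.X.MomC

/-!
# All linear patterns of the divisors of almost every integer: 2-Selmer groups, ranks and
# Tate-Shafarevich groups of elliptic curves with full 2-torsion

Let `E_1, …, E_m` be elliptic curves `y ^ 2 = (x - a k 0) (x - a k 1) (x - a k 2)` over `ℚ` with different
integers `a k i` of sum 0 (every elliptic curve over `ℚ` with full rational 2-torsion has such an equation)
which have no rational cyclic subgroup of order 4 (`IsModel`). For an integer `D ≠ 0` let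
`#Sel_2(E ^ (D)) = 2 ^ (2 + r(E, D))` for the quadratic twist `E ^ (D)`; then
`2 ^ rank #Ш[2] = 2 ^ r(E, D)` (part 1). Let `I_1, …, I_m` be nonempty subsets of `{1, …, n}`; for an
`n`-tuple `t` of integers we consider the forms `F_k(t) = ∏ (i ∈ I_k) t_i`. The same form may be used
for several curves provided that their modules of points of order 4 are not isomorphic (`Matched`);
for different forms there is no condition, all the curves may be equal.

**The theorem** (part 4): there is *one* set `𝒩` of positive integers of natural density one with the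
following property. For *all* `n`, `m`, all such families of curves and forms, every finite set `S` of
primes which contains 2 and the primes of bad reduction, every `C ≥ 0` and every `ε > 0` all
sufficiently large `N` in `𝒩` satisfy: divide the `n`-tuples `t` of squarefree divisors of `N` (of any
sign) into the classes given by the signs and by the classes in `ℚ_l ^ * / ℚ_l ^ (* 2)`, `l ∈ S`, of the `t_i`;

* a class is not empty if and only if the primes `l ∈ S` which divide the `t_i` in `ℚ_l` divide `N`,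
  and all the nonempty classes have exactly `(2 · 2 ^ ω(N)) ^ n / 2 ^ (n (#S + 2 + #{l ∈ S : l ∣ N}))`
  elements;
* the parities of the numbers `r_k(t) = r(E_k, F_k(t))` are constant in a class;
* in every class the numbers `r_1(t), …, r_m(t)` are asymptotically *independent*, with the laws
  `p(e) = (β / 2) 2 ^ e / ((2 - 1) (2 ^ 2 - 1) ⋯ (2 ^ e - 1))`, `β = ∏_{i ≥ 0} (1 - 2 ^ (- 2 i - 1)) = 0.4194...`,
  conditioned by the parity: for *every* function `f` with `|f(e)| ≤ C ^ (1 + e_1 + ⋯ + e_m)` the mean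
  of `f(r_1(t), …, r_m(t))` over the class differs from the mean of `f` for independent
  variables by at most `ε`. In particular all the moments of the orders of the Selmer groups converge.

So the limit theorems for the Selmer groups of quadratic twists, known for the mean over all twists (for
one curve and one form), hold inside the finite set of the twists by the divisors of
100 percent of the individual integers `N`, simultaneously for all curves, and the values at all
the nontrivial products of the divisors are independent.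

**Number fields.** For `t = (t_1, …, t_n)` let `K = ℚ(√t_1, …, √t_n)`; when `t` runs over the
`n`-tuples of divisors, `K` runs over the subfields of degree at most `2 ^ n` of
`ℚ(√(-1), √p : p ∣ N)`. Part 2: for every twist `W` of `E` by `D`,
`rank W(K) + corank Ш(W / K)[2 ^ ∞] ≤ ∑_T r(E, D ∏_(i ∈ T) t_i)`, summed over all subsets `T` of
`{1, …, n}`; if the numbers for nonempty `T` vanish then the rank of `W` over `K` is the rank over `ℚ`, and
`Ш(W / K)[2 ^ ∞]` is finite if and only if `Ш(W / ℚ)[2 ^ ∞]` is finite; if all the numbers vanish then `W(K)` is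
finite and `Ш(W / K)[2 ^ ∞]` is finite and killed by `2 ^ n`. Part 5: for every single curve `E` and the
tuples `t` in a class of large `N ∈ 𝒩` the sum `R(t)` of the numbers `r(E, ∏_(i ∈ T) t_i)` over the
nonempty `T` has in the limit the law of the sum of `2 ^ n - 1` independent variables: the means of
all functions of at most exponential growth converge, the mean of `2 ^ (j R(t))` tends to
`(∏_{i ≤ j} (1 + 2 ^ i)) ^ (2 ^ n - 1)`; the mean of `rank E(K) + corank Ш(E / K)[2 ^ ∞]` is at most
`r(E, 1) + 1.3251 (2 ^ n - 1) + ε`; if the parities in the class are even, exactly the share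
`β ^ (2 ^ n - 1)` has `R(t) = 0`, so that for at least this share of the fields
`rank E(K) = rank E(ℚ)` and the finiteness of `Ш[2 ^ ∞]` over `K` is equivalent to the finiteness over `ℚ`.

Idea of the proof: the 2-Selmer groups of all the twists are kernels of matrices of the same quadratic
residue symbols of the primes of `N`. For the tables of symbols the moments of a product over several
forms are sums over unlinked families of vectors; families whose values at the primes of some pattern
do not fill a coset of a maximal singular space are negligible, and for the others the Lagrangian spaces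
are stable under the restrictions to the common forms of two patterns; since the forms are
different they are direct sums over the forms, which gives the independence. The second moment
method (doubled systems) gives the law inside almost every table, and the tables of almost all integers
in the natural order are equidistributed after conditioning on the small and middle primes.
-/

set_option autoImplicit false
set_option linter.all false

namespace Pool.Agent.Results.MP_78d38b_nt.PatternsOfDivisors

open Filter Topology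
open Pool.Agent.Y667.SX (Sel2H)
open scoped Classical

/-! ### The curves -/

/-- The curve `y ^ 2 = (x - a 0) (x - a 1) (x - a 2)` over the field `F`, for `a 0 + a 1 + a 2 = 0`. -/
def curveOver (F : Type) [Field F] (a : Fin 3 → ℤ) : WeierstrassCurve F :=
  ⟨0, 0, 0, ((a 0 * a 1 + a 0 * a 2 + a 1 * a 2 : ℤ) : F), ((-(a 0 * a 1 * a 2) : ℤ) : F)⟩

/-- The curve over the rationals. -/
def curve (a : Fin 3 → ℤ) : WeierstrassCurve ℚ := curveOver ℚ a

/-- The roots `D a i` of the quadratic twist by `D`. -/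
def twist (D : ℤ) (a : Fin 3 → ℤ) : Fin 3 → ℤ := fun i => D * a i

/-- The three roots are different, their sum is 0, and the product of the differences of one root with the
two others is not a square: the curve has no rational cyclic subgroup of order 4. -/
structure IsModel (a : Fin 3 → ℤ) : Prop where
  distinct : Function.Injective a
  sum : a 0 + a 1 + a 2 = 0
  noCyclicFour : ∀ i j l, i ≠ j → i ≠ l → j ≠ l → ∀ s : ℤ, (a i - a j) * (a i - a l) ≠ s ^ 2

/-- The differences of the roots are equal modulo squares for some bijection of the roots: the modules of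
the points of order dividing 4 are isomorphic. -/
def Matched (a b : Fin 3 → ℤ) : Prop :=
  ∃ σ : Equiv.Perm (Fin 3), ∀ i j, i ≠ j → ∃ s : ℤ, (a i - a j) * (b (σ i) - b (σ j)) = s ^ 2

/-- A finite set of primes which contains 2 and the prime divisors of the differences of the roots. -/
structure IsBad (S : Finset ℕ) {m : ℕ} (a : Fin m → Fin 3 → ℤ) : Prop where
  prime : ∀ l ∈ S, l.Prime
  two : 2 ∈ S
  bad : ∀ k i j, i ≠ j → ∀ l : ℕ, l.Prime → (l : ℤ) ∣ a k i - a k j → l ∈ S

/-- A family of curves `a k` and of forms, the products of the variables with indices in `I k`: the forms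
are not constant and two curves with the same form are not matched. -/
structure IsFamily {n m : ℕ} (a : Fin m → Fin 3 → ℤ) (I : Fin m → Finset (Fin n)) : Prop where
  model : ∀ k, IsModel (a k)
  nonempty : ∀ k, (I k).Nonempty
  unmatched : ∀ k l, k ≠ l → I k = I l → ¬ Matched (a k) (a l)

/-- The number `r` in `#Sel_2 = 2 ^ (2 + r)`. -/
noncomputable def selmerRank (W : WeierstrassCurve ℚ) : ℕ := Nat.log 2 (Nat.card (Sel2H W)) - 2

/-- The number `r` for the twist by `D`. -/
noncomputable def r (a : Fin 3 → ℤ) (D : ℤ) : ℕ := selmerRank (curve (twist D a))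

/-! ### The laws -/

/-- The infinite product of the numbers `1 - 2 ^ (- 2 i - 1)`, `i ≥ 0`. -/
noncomputable def beta : ℝ := ∏' i : ℕ, (1 - (1 / 2 : ℝ) ^ (2 * i + 1))

/-- The probability of `e` in the law `p`. -/
noncomputable def law (e : ℕ) : ℝ :=
  beta / 2 * (2 ^ e / ∏ i ∈ Finset.range e, ((2 : ℝ) ^ (i + 1) - 1))

/-- The probability of `e` in the law `p` conditioned by the parity `c`. -/
noncomputable def parityLaw (c : ZMod 2) (e : ℕ) : ℝ := if (e : ZMod 2) = c then 2 * law e else 0

/-- The mean of `f (e)` for independent `e k` with the laws `parityLaw (c k)`. -/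
noncomputable def integral {κ : Type} [Fintype κ] (c : κ → ZMod 2) (f : (κ → ℕ) → ℝ) : ℝ :=
  ∑' e : κ → ℕ, f e * ∏ k, parityLaw (c k) (e k)

/-! ### The divisors -/

/-- The tuples of squarefree divisors of `N` (of any sign) with the signs of the `t₀ i` and with their
classes modulo squares in `ℚ_l` for the primes `l` in `S`. -/
def Tuples (S : Finset ℕ) {n : ℕ} (t₀ : Fin n → ℤ) (N : ℕ) : Set (Fin n → ℤ) :=
  {t | ∀ i, Squarefree (t i) ∧ t i ∣ (N : ℤ) ∧ 0 < t i * t₀ i ∧
    ∀ (l : ℕ) [Fact l.Prime], l ∈ S → IsSquare ((t i * t₀ i : ℤ) : ℚ_[l])}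

/-- The mean of `f` over a finite set. -/
noncomputable def mean {α : Type} (A : Set α) (f : α → ℝ) : ℝ := (∑ᶠ t ∈ A, f t) / A.ncard

/-- The set of integers has natural density one. -/
def DensityOne (𝒩 : ℕ → Prop) : Prop :=
  Tendsto (fun X : ℕ => (Nat.card {N : ℕ // 1 ≤ N ∧ N ≤ X ∧ 𝒩 N} : ℝ) / X) atTop (𝓝 1)

/-! ### Multiquadratic fields -/

/-- The number field `F` is generated by square roots of the integers `d i`. -/
def Generated (F : Type) [Field F] [NumberField F] {n : ℕ} (d : Fin n → ℤ) : Prop :=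
  ∃ x : Fin n → F, (∀ i, x i ^ 2 = (d i : F)) ∧ IntermediateField.adjoin ℚ (Set.range x) = ⊤

/-- The nonempty subsets of `{1, ..., n}`. -/
abbrev Nonempties (n : ℕ) : Type := {T : Finset (Fin n) // T.Nonempty}

/-- The sum of the numbers `r` of the twists by the products of the `t i`, `i ∈ T`, for all nonempty
subsets `T` of `{1, ..., n}`. -/
noncomputable def total {n : ℕ} (a : Fin 3 → ℤ) (t : Fin n → ℤ) : ℕ :=
  ∑ T : Nonempties n, r a (∏ i ∈ T.1, t i)

/-- The elements of 2-power order form a finite group. -/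
def TwoFinite (G : Type) [AddCommGroup G] : Prop := {x : G | ∃ k : ℕ, (2 ^ k : ℕ) • x = 0}.Finite

/-- The elements of 2-power order are killed by `2 ^ n`. -/
def TwoKilled (G : Type) [AddCommGroup G] (n : ℕ) : Prop :=
  ∀ (k : ℕ) (x : G), (2 ^ k : ℕ) • x = 0 → (2 ^ n : ℕ) • x = 0

/-! ### Comparison with the definitions of the proof -/

section comparison

open Q44.LD

theorem law_eq : law = Pool.Agent.Q269.SL.law2 := by
  funext e
  rw [Pool.Agent.Q269.SL.law2_eq]
  rfl

theorem parity_eq (c : ZMod 2) (e : ℕ) : parityLaw c e = Q44.JQ.lawc c e := by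
  unfold parityLaw Q44.JQ.lawc
  rw [law_eq]

theorem integral_eq {κ : Type} [Fintype κ] (c : κ → ZMod 2) (f : (κ → ℕ) → ℝ) :
    integral c f = ∑' e : κ → ℕ, f e * ∏ k, Q44.JQ.lawc (c k) (e k) := by
  unfold integral
  simp only [parity_eq]

theorem tuples_eq (S : Finset ℕ) {n : ℕ} (t₀ : Fin n → ℤ) (N : ℕ) : Tuples S t₀ N = Tn S t₀ N := rfl

theorem mean_eq {α : Type} (A : Set α) (f : α → ℝ) : mean A f = Q44.LD.mean A f := rfl

theorem r_eq (a : Fin 3 → ℤ) (D : ℤ) : r a D = wr a D := rfl

theorem total_eq {n : ℕ} (a : Fin 3 → ℤ) (t : Fin n → ℤ) : total a t = Rn a t := rfl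

theorem exists_bad {a : Fin 3 → ℤ} (h : IsModel a) : ∃ S, Vone a S := by
  set z : ℕ := 2 * ((a 0 - a 1) * (a 0 - a 2) * (a 1 - a 2)).natAbs with hz
  have h1 : ∀ i j, i ≠ j → a i - a j ≠ 0 := fun i j hij =>
    sub_ne_zero.2 fun h' => hij (h.distinct h')
  have hz0 : z ≠ 0 := by
    rw [hz]
    refine mul_ne_zero two_ne_zero (Int.natAbs_ne_zero.2 ?_)
    exact mul_ne_zero (mul_ne_zero (h1 0 1 (by decide)) (h1 0 2 (by decide))) (h1 1 2 (by decide))
  refine ⟨z.primeFactors, h.distinct, h.sum, h.noCyclicFour,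
    fun p hp => Nat.prime_of_mem_primeFactors hp,
    Nat.mem_primeFactors.2 ⟨Nat.prime_two, Dvd.intro _ rfl, hz0⟩, fun i j hij p hp hd => ?_⟩
  refine Nat.mem_primeFactors.2 ⟨hp, ?_, hz0⟩
  have h2 : a i - a j ∣ (a 0 - a 1) * (a 0 - a 2) * (a 1 - a 2) := by
    have h3 : ∀ i : Fin 3, i = 0 ∨ i = 1 ∨ i = 2 := by decide
    rcases h3 i with rfl | rfl | rfl <;> rcases h3 j with rfl | rfl | rfl
    · exact absurd rfl hij
    · exact ⟨(a 0 - a 2) * (a 1 - a 2), by ring⟩
    · exact ⟨(a 0 - a 1) * (a 1 - a 2), by ring⟩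
    · exact ⟨-((a 0 - a 2) * (a 1 - a 2)), by ring⟩
    · exact absurd rfl hij
    · exact ⟨(a 0 - a 1) * (a 0 - a 2), by ring⟩
    · exact ⟨-((a 0 - a 1) * (a 1 - a 2)), by ring⟩
    · exact ⟨-((a 0 - a 1) * (a 0 - a 2)), by ring⟩
    · exact absurd rfl hij
  have h3 : p ∣ ((a 0 - a 1) * (a 0 - a 2) * (a 1 - a 2)).natAbs :=
    Int.natCast_dvd.1 (hd.trans h2)
  exact h3.mul_left 2

theorem vone {a : Fin 3 → ℤ} (h : IsModel a) {S : Finset ℕ} (hS : IsBad S (fun _ : Fin 1 => a)) :
    Vone a S :=
  ⟨h.distinct, h.sum, h.noCyclicFour, hS.prime, hS.two, hS.bad 0⟩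

theorem val {n m : ℕ} {a : Fin m → Fin 3 → ℤ} {I : Fin m → Finset (Fin n)} (h : IsFamily a I)
    {S : Finset ℕ} (hS : IsBad S a) : Val a I S :=
  ⟨fun k => (h.model k).distinct, fun k => (h.model k).sum, fun k => (h.model k).noCyclicFour,
    h.nonempty, fun k l hkl hI σ => by
      have h1 := h.unmatched k l hkl hI
      unfold Matched at h1
      push Not at h1
      exact h1 σ, hS.prime, hS.two, hS.bad⟩

end comparison

open Pool.Agent.TH841.NF.D (HasDiv rk crk) in
theorem result :
    (∀ a : Fin 3 → ℤ, IsModel a → ∀ D : ℤ, D ≠ 0 → ∀ W : WeierstrassCurve ℚ, W = curve (twist D a) →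
      Finite (Sel2H W) ∧ Nat.card (Sel2H W) = 2 ^ (2 + r a D) ∧
      Finite {x : Pool.Agent.TH841.SH.D.Sha W // x + x = 0} ∧
      2 ^ Module.finrank ℤ W.toAffine.Point *
        Nat.card {x : Pool.Agent.TH841.SH.D.Sha W // x + x = 0} = 2 ^ r a D) ∧
    (∀ a : Fin 3 → ℤ, IsModel a → ∀ D : ℤ, D ≠ 0 → ∀ (n : ℕ) (t : Fin n → ℤ), (∀ i, t i ≠ 0) →
      ∀ (F : Type) [Field F] [NumberField F], Generated F t →
      ∀ W : WeierstrassCurve F, W = curveOver F (twist D a) →
        BddAbove {q | HasDiv W q} ∧ rk W + crk W ≤ ∑ T : Finset (Fin n), r a (D * ∏ i ∈ T, t i) ∧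
        ((∀ T : Finset (Fin n), T.Nonempty → r a (D * ∏ i ∈ T, t i) = 0) →
          rk W = Module.finrank ℤ (curve (twist D a)).toAffine.Point ∧
          (TwoFinite (Pool.Agent.TH841.NF.D.Sha W) ↔
            TwoFinite (Pool.Agent.TH841.SH.D.Sha (curve (twist D a))))) ∧
        ((∀ T : Finset (Fin n), r a (D * ∏ i ∈ T, t i) = 0) → Finite W.toAffine.Point ∧
          TwoFinite (Pool.Agent.TH841.NF.D.Sha W) ∧ TwoKilled (Pool.Agent.TH841.NF.D.Sha W) n)) ∧
    ((∀ c, HasSum (parityLaw c) 1) ∧ 0.4194 < beta ∧ beta < 0.4195 ∧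
      ∑' e : ℕ, parityLaw 0 e * e < 1.204 ∧ ∑' e : ℕ, parityLaw 1 e * e < 1.3251) ∧
    ∃ 𝒩 : ℕ → Prop, DensityOne 𝒩 ∧
      (∀ (n m : ℕ) (a : Fin m → Fin 3 → ℤ) (I : Fin m → Finset (Fin n)) (S : Finset ℕ),
        IsFamily a I → IsBad S a → ∀ C ε : ℝ, 0 ≤ C → 0 < ε → ∀ᶠ N : ℕ in atTop, 𝒩 N →
        ∀ t₀ : Fin n → ℤ, (∀ i, Squarefree (t₀ i)) →
          ((Tuples S t₀ N).Nonempty ↔ ∀ i, ∀ l ∈ S, (l : ℤ) ∣ t₀ i → l ∣ N) ∧
          ((Tuples S t₀ N).Nonempty →
            (Tuples S t₀ N).ncard * 2 ^ (n * (S.card + 2 + (S.filter fun l => l ∣ N).card)) =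
              (2 * 2 ^ N.primeFactors.card) ^ n ∧
            (∀ t ∈ Tuples S t₀ N, ∀ k, (r (a k) (∏ i ∈ I k, t i) : ZMod 2) =
              r (a k) (∏ i ∈ I k, t₀ i)) ∧
            ∀ f : (Fin m → ℕ) → ℝ, (∀ e, |f e| ≤ C ^ (1 + ∑ k, e k)) →
              |mean (Tuples S t₀ N) (fun t => f fun k => r (a k) (∏ i ∈ I k, t i)) -
                integral (fun k => (r (a k) (∏ i ∈ I k, t₀ i) : ZMod 2)) f| ≤ ε)) ∧
      (∀ (a : Fin 3 → ℤ) (S : Finset ℕ), IsModel a → IsBad S (fun _ : Fin 1 => a) →
        ∀ (n : ℕ) (C ε : ℝ), 0 ≤ C → 0 < ε → ∀ᶠ N : ℕ in atTop, 𝒩 N →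
        ∀ t₀ : Fin n → ℤ, (∀ i, Squarefree (t₀ i)) → (Tuples S t₀ N).Nonempty →
          (∀ f : ℕ → ℝ, (∀ e, |f e| ≤ C ^ (1 + e)) →
            |mean (Tuples S t₀ N) (fun t => f (total a t)) -
              integral (fun T : Nonempties n => (r a (∏ i ∈ T.1, t₀ i) : ZMod 2))
                (fun e => f (∑ T, e T))| ≤ ε) ∧
          (∀ j : ℕ, 2 ^ j ≤ C → |mean (Tuples S t₀ N) (fun t => (2 : ℝ) ^ (j * total a t)) -
            (∏ i ∈ Finset.range j, (1 + (2 : ℝ) ^ (i + 1))) ^ (2 ^ n - 1)| ≤ ε) ∧
          ((∀ T : Nonempties n, Even (r a (∏ i ∈ T.1, t₀ i))) →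
            |({t ∈ Tuples S t₀ N | total a t = 0}.ncard : ℝ) / (Tuples S t₀ N).ncard -
              beta ^ (2 ^ n - 1)| ≤ ε) ∧
          ∀ (F : (Fin n → ℤ) → Type) [∀ t, Field (F t)] [∀ t, NumberField (F t)],
            (∀ t ∈ Tuples S t₀ N, Generated (F t) t) →
            mean (Tuples S t₀ N) (fun t => ((rk (curveOver (F t) a) +
              crk (curveOver (F t) a) : ℕ) : ℝ)) ≤ r a 1 + 1.3251 * (2 ^ n - 1) + ε ∧
            ((∀ T : Nonempties n, Even (r a (∏ i ∈ T.1, t₀ i))) →
              beta ^ (2 ^ n - 1) - ε ≤ ({t ∈ Tuples S t₀ N |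
                rk (curveOver (F t) a) = Module.finrank ℤ (curve a).toAffine.Point ∧
                (TwoFinite (Pool.Agent.TH841.NF.D.Sha (curveOver (F t) a)) ↔
                  TwoFinite (Pool.Agent.TH841.SH.D.Sha (curve a)))}.ncard : ℝ) /
                  (Tuples S t₀ N).ncard)) := by
  have H := Q44.LD.F.factsZ
  have hdet : ∀ a : Fin 3 → ℤ, IsModel a → ∀ D : ℤ, D ≠ 0 → ∀ (n : ℕ) (t : Fin n → ℤ),
      (∀ i, t i ≠ 0) → ∀ (F : Type) [Field F] [NumberField F], Generated F t →
      ∀ W : WeierstrassCurve F, W = curveOver F (twist D a) →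
        BddAbove {q | HasDiv W q} ∧ rk W + crk W ≤ ∑ T : Finset (Fin n), r a (D * ∏ i ∈ T, t i) ∧
        ((∀ T : Finset (Fin n), T.Nonempty → r a (D * ∏ i ∈ T, t i) = 0) →
          rk W = Module.finrank ℤ (curve (twist D a)).toAffine.Point ∧
          (TwoFinite (Pool.Agent.TH841.NF.D.Sha W) ↔
            TwoFinite (Pool.Agent.TH841.SH.D.Sha (curve (twist D a))))) ∧
        ((∀ T : Finset (Fin n), r a (D * ∏ i ∈ T, t i) = 0) → Finite W.toAffine.Point ∧
          TwoFinite (Pool.Agent.TH841.NF.D.Sha W) ∧ TwoKilled (Pool.Agent.TH841.NF.D.Sha W) n) := by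
    rintro a ha D hD n t ht F _ _ hF W rfl
    obtain ⟨S, hS⟩ := exists_bad ha
    have h1 := Q44.LD.det_fld H hS hD ht F hF
    have h2 : curveOver F (twist D a) = Pool.Agent.TH841.NF.EF (D ^ 2 * Q44.JQ.X.cA a)
        (D ^ 3 * Q44.JQ.X.cB a) F := by
      rw [← Q44.JQ.X.cA_tw, ← Q44.JQ.X.cB_tw]
      rfl
    rw [h2]
    exact h1
  have htw : ∀ a : Fin 3 → ℤ, twist 1 a = a := fun a => funext fun i => one_mul _
  refine ⟨?_, hdet, ?_, ?_⟩
  · rintro a ha D hD W rfl
    obtain ⟨S, hS⟩ := exists_bad ha
    exact Q44.LD.fct_one H hS D hD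
  · refine ⟨fun c => ?_, Q44.LD.bet_gt, ?_, ?_, ?_⟩
    · rw [show parityLaw c = fun e => Q44.JQ.lawc c e from funext (parity_eq c)]
      exact Q44.JQ.M.hasSum_lawc c
    · have := Q44.LD.bet_lt
      have h1 : beta = Pool.Agent.Q269.MF.bet := rfl
      rw [h1]
      linarith
    · simp only [parity_eq]
      exact Q44.LD.mc_zero
    · simp only [parity_eq]
      exact Q44.LD.mc_one
  · obtain ⟨𝒩, h1, h2⟩ := Q44.LD.one_setN H
    refine ⟨𝒩, Q44.LD.alm_density h1, ?_, ?_⟩
    · intro n m a I S hI hS C ε hC hε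
      have hv := val hI hS
      have L := Q44.JQ.LB.of H.lbl hv.E.hT
      filter_upwards [h2 n m a I S hv C ε hC hε, eventually_ne_atTop 0] with N h3 hN hN' t₀ h₀
      obtain ⟨h4, h5⟩ := h3 hN'
      obtain ⟨h6, h7⟩ := Q44.LD.tn_card L H.lsq hN h4 h₀
      refine ⟨h6, fun hne => ⟨h7 hne, fun t ht k => ?_, fun f hf => ?_⟩⟩
      · exact Q44.LD.par_all H hv h₀ (fun i => (ht i).1) (fun i => (ht i).2.2) k
      · rw [tuples_eq, Q44.LD.tn_eq S t₀ hN] at hne ⊢
        rw [integral_eq]
        exact h5 t₀ h₀ hne f hf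
    · intro a S ha hS n C ε hC hε
      have hv := vone ha hS
      have hv' := hv.val n
      have hC2 : (0 : ℝ) ≤ max C 2 := le_max_of_le_left hC
      filter_upwards [h2 _ _ _ _ S hv' (max C 2) ε hC2 hε, eventually_ne_atTop 0] with N h3 hN hN' t₀ h₀
      obtain ⟨h4, h5⟩ := h3 hN'
      have h6 := Q44.LD.gm_of h5
      have hTe := Q44.LD.tn_eq S t₀ hN
      intro hne'
      have hne := hne'
      rw [tuples_eq, hTe] at hne
      have hfin := Q44.LD.tp_fin (T := S) (Q44.LD.rad_pos N).ne' t₀
      have hC1 : (1 : ℝ) ≤ max C 2 := le_max_of_le_right (by norm_num)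
      have hshare : (∀ T : Nonempties n, Even (r a (∏ i ∈ T.1, t₀ i))) →
            |({t ∈ Tuples S t₀ N | total a t = 0}.ncard : ℝ) / (Tuples S t₀ N).ncard -
              beta ^ (2 ^ n - 1)| ≤ ε := by
        intro he
        rw [tuples_eq, hTe]
        refine Q44.LD.share_Rn h6 hC1 h₀ hfin hne fun T => ?_
        exact (ZMod.natCast_eq_zero_iff_even).2 (he T)
      refine ⟨fun f hf => ?_, fun j hj => ?_, hshare, fun F _ _ hF => ⟨?_, fun he => ?_⟩⟩
      · rw [integral_eq, tuples_eq, hTe]
        exact Q44.LD.law_Rn h6 h₀ hne fun e => (hf e).trans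
          (pow_le_pow_left₀ hC (le_max_left _ _) _)
      · rw [tuples_eq, hTe]
        exact Q44.LD.mom_Rn h6 (hj.trans (le_max_left _ _)) h₀ hne
      · have h7 := Q44.LD.mean_Rn h6 (le_max_right _ _) h₀ hne
        have h8 := Q44.LD.sum_mc_le fun T : Q44.LD.Ne n => ((Q44.LD.wT a t₀ T : ℕ) : ZMod 2)
        have h9 : mean (Tuples S t₀ N) (fun t => ((rk (curveOver (F t) a) +
              crk (curveOver (F t) a) : ℕ) : ℝ)) ≤
            Q44.LD.mean (Q44.LD.Tp S t₀ (Q44.LD.rad N)) (fun t => (r a 1 : ℝ) + (Q44.LD.Rn a t : ℝ)) := by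
          rw [tuples_eq, hTe]
          refine Q44.LD.mean_mono hfin fun t ht => ?_
          have ht' : t ∈ Tuples S t₀ N := by
            rw [tuples_eq, hTe]
            exact ht
          have h10 := (hdet a ha 1 one_ne_zero n t (fun i => (ht' i).1.ne_zero) (F t) (hF t ht') _
            rfl).2.1
          rw [htw, Q44.LD.sum_split, Finset.prod_empty, mul_one] at h10
          simp only [one_mul] at h10
          exact_mod_cast h10
        rw [Q44.LD.mean_add_const hfin hne] at h9
        have h10 := (abs_le.1 h7).2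
        linarith
      · have h7 := (abs_le.1 (hshare he)).1
        have h8 : (({t ∈ Tuples S t₀ N | total a t = 0}.ncard : ℕ) : ℝ) ≤ (({t ∈ Tuples S t₀ N |
                rk (curveOver (F t) a) = Module.finrank ℤ (curve a).toAffine.Point ∧
                (TwoFinite (Pool.Agent.TH841.NF.D.Sha (curveOver (F t) a)) ↔
                  TwoFinite (Pool.Agent.TH841.SH.D.Sha (curve a)))}.ncard : ℕ) : ℝ) := by
          refine Nat.cast_le.2 (Set.ncard_le_ncard ?_ ?_)
          · rintro t ⟨ht, h0⟩
            refine ⟨ht, ?_⟩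
            have h9 := (hdet a ha 1 one_ne_zero n t (fun i => (ht i).1.ne_zero) (F t) (hF t ht) _
              rfl).2.2.1 fun T hT => by
                rw [one_mul]
                exact (Finset.sum_eq_zero_iff.1 h0) ⟨T, hT⟩ (Finset.mem_univ _)
            rw [htw] at h9
            exact h9
          · refine Set.Finite.subset ?_ (Set.sep_subset _ _)
            rw [tuples_eq, hTe]
            exact hfin
        have h9 : (0 : ℝ) ≤ (Tuples S t₀ N).ncard := Nat.cast_nonneg _
        have h10 := div_le_div_of_nonneg_right h8 h9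
        linarith

end Pool.Agent.Results.MP_78d38b_nt.PatternsOfDivisors
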