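import Mathlib

/-!
# A weak tiling measure that is not a convex combination of tilings

In the cyclic group of order 24 the set `E = {0, 2, 6, 20}` has tiling complements, and there is a
weak tiling measure `μ` of `E` with `μ(0) = 1` (so that `μ - δ₀` weakly tiles the complement of `E`)
which is not a convex combination of counting measures of tiling complements of `E`.
-/

set_option autoImplicit false

namespace Pool.Agent.Results.MP_78fb5d_an.Half

/-- `E ⊕ T = ℤ_M`: every element has exactly one representation `e + t`. -/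
def IsTiling {M : ℕ} (E T : Set (ZMod M)) : Prop :=
  ∀ x : ZMod M, ∃! p : ZMod M × ZMod M, p.1 ∈ E ∧ p.2 ∈ T ∧ p.1 + p.2 = x

/-- `μ` is a non-negative weak tiling measure for `E`: the convolution of the indicator function of
`E` with `μ` is the constant function one. -/
def IsWeakTiling {M : ℕ} [NeZero M] (E : Set (ZMod M)) (μ : ZMod M → ℝ) : Prop :=
  (∀ x, 0 ≤ μ x) ∧ ∀ x, ∑ y : ZMod M, E.indicator (fun _ => (1 : ℝ)) (x - y) * μ y = 1

/-- `μ` is a convex combination of counting measures of tiling complements of `E`. -/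
def IsMixture {M : ℕ} (E : Set (ZMod M)) (μ : ZMod M → ℝ) : Prop :=
  ∃ (N : ℕ) (T : Fin N → Set (ZMod M)) (c : Fin N → ℝ), (∀ k, IsTiling E (T k)) ∧
    (∀ k, 0 ≤ c k) ∧ ∑ k, c k = 1 ∧
    ∀ x, μ x = ∑ k, c k * (T k).indicator (fun _ => (1 : ℝ)) x

/-- The set. -/
def E0 : Finset (ZMod 24) := {0, 2, 6, 20}

/-- A tiling complement. -/
def T0 : Finset (ZMod 24) := {0, 8, 16, 1, 9, 17}

/-- Twice the measure. -/
def m0 (x : ZMod 24) : ℕ :=
  if x = 0 ∨ x = 8 ∨ x = 16 then 2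
  else if x = 3 ∨ x = 5 ∨ x = 7 ∨ x = 15 ∨ x = 17 ∨ x = 19 then 1 else 0

lemma tiles : IsTiling (E0 : Set (ZMod 24)) (T0 : Set (ZMod 24)) := by
  intro x
  have h1 : ∀ x : ZMod 24, ∃ a ∈ E0, ∃ b ∈ T0, a + b = x := by decide
  have h2 : ∀ a ∈ E0, ∀ b ∈ T0, ∀ a' ∈ E0, ∀ b' ∈ T0, a + b = a' + b' → a = a' ∧ b = b' := by
    decide
  obtain ⟨a, ha, b, hb, hab⟩ := h1 x
  refine ⟨(a, b), ⟨Finset.mem_coe.2 ha, Finset.mem_coe.2 hb, hab⟩, ?_⟩
  rintro ⟨a', b'⟩ ⟨ha', hb', hab'⟩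
  obtain ⟨h3, h4⟩ := h2 a' (Finset.mem_coe.1 ha') b' (Finset.mem_coe.1 hb') a ha b hb
    (by simp only at hab'; rw [hab', hab])
  rw [h3, h4]

lemma weak : IsWeakTiling (E0 : Set (ZMod 24)) (fun x => (m0 x : ℝ) / 2) := by
  refine ⟨fun x => by positivity, fun x => ?_⟩
  have h1 : ∀ x : ZMod 24, ∑ y : ZMod 24, (if x - y ∈ E0 then 1 else 0) * m0 y = 2 := by decide
  have h2 : ∑ y : ZMod 24, (E0 : Set (ZMod 24)).indicator (fun _ => (1 : ℝ)) (x - y) *
      ((m0 y : ℝ) / 2) = ((∑ y : ZMod 24, (if x - y ∈ E0 then 1 else 0) * m0 y : ℕ) : ℝ) / 2 := by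
    push_cast
    rw [Finset.sum_div]
    apply Finset.sum_congr rfl
    intro y _
    rw [Set.indicator_apply]
    simp only [Finset.mem_coe]
    ring
  rw [h2, h1]
  norm_num

lemma not_mixture : ¬ IsMixture (E0 : Set (ZMod 24)) (fun x => (m0 x : ℝ) / 2) := by
  rintro ⟨N, T, c, hT, hc, hsum, hμ⟩
  obtain ⟨k, hk⟩ : ∃ k, 0 < c k := by
    by_contra h
    push Not at h
    have h1 : ∑ k, c k ≤ 0 := Finset.sum_nonpos fun k _ => h k
    linarith
  have hsupp : ∀ t ∈ T k, m0 t ≠ 0 := by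
    intro t ht h0
    have h1 := hμ t
    simp only [h0, Nat.cast_zero, zero_div] at h1
    have h2 : c k ≤ ∑ k, c k * (T k).indicator (fun _ => (1 : ℝ)) t := by
      refine le_trans (le_of_eq ?_) (Finset.single_le_sum
        (f := fun k => c k * (T k).indicator (fun _ => (1 : ℝ)) t) (fun j _ =>
          mul_nonneg (hc j) (Set.indicator_nonneg (fun _ _ => zero_le_one) _)) (Finset.mem_univ k))
      simp only [Set.indicator_of_mem ht, mul_one]
    linarith
  -- existence at a point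
  have hex : ∀ x : ZMod 24, ∃ e ∈ E0, x - e ∈ T k := by
    intro x
    obtain ⟨p, ⟨h1, h2, h3⟩, -⟩ := hT k x
    refine ⟨p.1, Finset.mem_coe.1 h1, ?_⟩
    rwa [← h3, add_sub_cancel_left]
  -- uniqueness at a point
  have hun : ∀ e ∈ E0, ∀ e' ∈ E0, ∀ x : ZMod 24, x - e ∈ T k → x - e' ∈ T k → e = e' := by
    intro e he e' he' x h1 h2
    have h3 := (hT k x).unique (y₁ := (e, x - e)) (y₂ := (e', x - e'))
      ⟨Finset.mem_coe.2 he, h1, add_sub_cancel _ _⟩ ⟨Finset.mem_coe.2 he', h2, add_sub_cancel _ _⟩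
    exact congrArg Prod.fst h3
  have hcase : ∀ x y z : ZMod 24, (∀ e ∈ E0, m0 (x - e) ≠ 0 → x - e = y ∨ x - e = z) →
      y ∈ T k ∨ z ∈ T k := by
    intro x y z h
    obtain ⟨e, he, h1⟩ := hex x
    rcases h e he (hsupp _ h1) with h2 | h2
    · left
      rwa [← h2]
    · right
      rwa [← h2]
  have a1 : (3 : ZMod 24) ∈ T k ∨ (7 : ZMod 24) ∈ T k := hcase 3 3 7 (by decide)
  have a2 : (3 : ZMod 24) ∈ T k ∨ (5 : ZMod 24) ∈ T k := hcase 5 3 5 (by decide)
  have a3 : (5 : ZMod 24) ∈ T k ∨ (7 : ZMod 24) ∈ T k := hcase 7 5 7 (by decide)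
  have b1 : ¬ ((3 : ZMod 24) ∈ T k ∧ (7 : ZMod 24) ∈ T k) := by
    rintro ⟨h1, h2⟩
    have := hun 0 (by decide) 20 (by decide) 3 (by rwa [show (3 : ZMod 24) - 0 = 3 by decide])
      (by rwa [show (3 : ZMod 24) - 20 = 7 by decide])
    exact absurd this (by decide)
  have b2 : ¬ ((3 : ZMod 24) ∈ T k ∧ (5 : ZMod 24) ∈ T k) := by
    rintro ⟨h1, h2⟩
    have := hun 0 (by decide) 2 (by decide) 5 (by rwa [show (5 : ZMod 24) - 0 = 5 by decide])
      (by rwa [show (5 : ZMod 24) - 2 = 3 by decide])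
    exact absurd this (by decide)
  have b3 : ¬ ((5 : ZMod 24) ∈ T k ∧ (7 : ZMod 24) ∈ T k) := by
    rintro ⟨h1, h2⟩
    have := hun 0 (by decide) 2 (by decide) 7 (by rwa [show (7 : ZMod 24) - 0 = 7 by decide])
      (by rwa [show (7 : ZMod 24) - 2 = 5 by decide])
    exact absurd this (by decide)
  tauto

/-- The weak tiling measure: one at `0, 8, 16` and one half at `3, 5, 7, 15, 17, 19`. -/
noncomputable def mu0 (x : ZMod 24) : ℝ := (m0 x : ℝ) / 2

theorem result : (∃ T : Set (ZMod 24), IsTiling (E0 : Set (ZMod 24)) T) ∧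
    IsWeakTiling (E0 : Set (ZMod 24)) mu0 ∧ mu0 0 = 1 ∧
    ¬ IsMixture (E0 : Set (ZMod 24)) mu0 := by
  refine ⟨⟨T0, tiles⟩, weak, ?_, not_mixture⟩
  have : m0 0 = 2 := by decide
  simp only [mu0, this]
  norm_num

end Pool.Agent.Results.MP_78fb5d_an.Half
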