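import Pool.Agent.Q41.EE.Meas

open MeasureTheory Q41.EE

/-- There is a `C^∞` diffeomorphism of the two-dimensional torus for which every invariant Borel
probability measure `ρ` satisfies the strict inequality `h(ρ) < ∫ χ₊ dρ`. -/
theorem Pool.Agent.Results.MP_794bd6_an.NoEqualityMeasure.result :
    ∃ D : TorusDiffeo, ∀ ρ : Measure Torus, IsProbabilityMeasure ρ →
      ρ.map D.toFun = ρ → ksEntropy D.toFun ρ < ∫⁻ x, chiPlus D x ∂ρ :=
  main
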