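import Pool.Agent.Q158.HT.Three

/-!
# Base exchange on collapsible hypertrees: dimension two, and at most `d + 3` vertices

The base exchange chain restricted to the `d`-collapsible `d`-hypertrees on `n` vertices is connected
if `d = 2` (all `n`) and if `n ≤ d + 3` (all `d`).

Proof. A collapse of `T` to the set `R` of `(d - 1)`-faces is a choice function from the
`(d - 1)`-faces not in `R` onto `T`, together with an ordering. If `T` and `T'` collapse to the same `R`,
then the choice function of `T` can be changed into the one of `T'` face by face, in the order of
`T'`; all the hybrids are choice functions of collapsible hypertrees. For `d = 2` every remainder `R` is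
a connected graph, and the star of all triples containing a given vertex collapses to each of them.
For `n = d + 3` the complements of the faces not in `T` are the edges of a tree, and every `T`
collapses to the star of all the `(d - 1)`-faces containing a given vertex.
-/

set_option autoImplicit false

namespace Pool.Agent.Results.MP_797bdc_co.LowDimension

open Pool.Agent.Q158.HT

theorem result :
    -- (1) all dimensions: a common remainder
    (∀ (d n : ℕ), 0 < n → ∀ R T T' : Finset (Finset (Fin n)), Hypertree d T → Hypertree d T' →
      CollapsesTo R (allFaces n d) T → CollapsesTo R (allFaces n d) T' →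
        ∃ m ≤ (n - 1).choose d, Joined d m T T') ∧
    -- (2) dimension two
    (∀ n : ℕ, 0 < n → ∀ T T' : Finset (Finset (Fin n)), Hypertree 2 T → Hypertree 2 T' →
      Collapsible T → Collapsible T' → ∃ m ≤ 2 * (n - 1).choose 2, Joined 2 m T T') ∧
    -- (3) at most `d + 3` vertices
    (∀ d n : ℕ, d + 1 ≤ n → n ≤ d + 3 → ∀ T T' : Finset (Finset (Fin n)), Hypertree d T →
      Hypertree d T' → Collapsible T → Collapsible T' →
        ∃ m ≤ (n - 1).choose d, Joined d m T T') :=
  ⟨fun _ _ hn _ _ _ hT hT' h h' => common_remainder hn hT hT' h h',
    fun _ hn _ _ hT hT' h h' => two hn hT hT' h h',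
    fun _ _ hd hnd _ _ hT hT' h h' => small hd hnd hT hT' h h'⟩

end Pool.Agent.Results.MP_797bdc_co.LowDimension
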