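import Pool.Agent.Q99.SML8.Congr

/-!
# Congruences between the normalised brackets of knotoid diagrams

Diagrams (starting library `Pool.Agent.H891R2.Jones.Diagram`): `Diagram P` (oriented diagrams with marked
points `P`, planar or not; `Diagram.loops`, the number of components of a state, counts circles and
intervals), `Diagram.fPoly` (the normalised bracket `(-A^{-3})^{w(D)} ⟨D⟩`), `Outer m` (the part of an
oriented diagram outside a box through which `m` strands run, with arbitrary directions), `Outer.close`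
(fills the rest of the box with vertical strands).  `IsKnotoid D` (starting library
`Pool.Agent.H832R3.TW.E`): the pieces of `D` form one oriented interval, running from a marked point `tail`
to a different marked point `head`, and (possibly) oriented closed curves.

`Pool.Agent.Q99.SML.Defs`: `Word` (words in the letters `σ_j^{±1}`), `wperm m w` (the permutation of `w`;
`w` is pure if it is `1`), `family O w u n` (the product
`w_0^{n_0} u_0 w_1^{n_1} u_1 ⋯ w_{k-1}^{n_{k-1}} u_{k-1}` is drawn in the box of `O`).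
-/

set_option autoImplicit false

namespace Pool.Agent.Results.MP_79b4ff_gt.Congruences

open Finset LaurentPolynomial Pool.Agent.H891R2.Jones Pool.Agent.H832R3.TW Q99.SML Q99.SML2

/-- Let `O_i`, `i < r`, be outsides of boxes with `m_i` strands, let `w_{i,j}`, `u_{i,j}`, `j < k`, be
braid words, let `P ≥ 1` be such that all `w_{i,j}^P` are pure, let `s ∈ ℤ^k`, and for `q ∈ ℤ^k` let
`K_i(q)` be the diagram obtained by drawing the product
`w_{i,0}^{n_0} u_{i,0} ⋯ w_{i,k-1}^{n_{k-1}} u_{i,k-1}`, `n = s + P q`, in the box of `O_i`. Let `c_i` and `g` be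
Laurent polynomials, `p` a prime number, `N` a power of `p`, `C = ∑ C(m_i, ⌊m_i / 2⌋)`.

* If `O_i` is the outside of a knotoid diagram and the product of the words for `q = 0` preserves the
  directions of the strands, then all `K_i(q)` are diagrams of knotoids.
* Either `∑ c_i f(K_i(q)) ≡ g` modulo `N` for all `q ∈ ℤ^k`, or the following three statements hold.
  * For all finite sets `A_0, …, A_{k-1}` of integers, the elements of each of which are pairwise
    incongruent modulo `p`, the congruence holds for at most `C ∑_j ∏_{l ≠ j} |A_l|` of the `q ∈ ∏ A_j`.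
  * If `p` divides `n ≥ 1`, it holds for at most the proportion `k C / p` of the `q ∈ {0, …, n - 1}^k`.
  * For `k = 1` it holds only for `q` in at most `C` residue classes modulo `p`. -/
theorem result {r k : ℕ} {m : Fin r → ℕ} (hm : ∀ i, 0 < m i) (O : ∀ i, Outer (m i))
    (w u : Fin r → Fin k → Word) (P : ℕ) (hP : ∀ i j, wperm (m i) (w i j) ^ P = 1)
    (s : Fin k → ℤ) (c : Fin r → ℤ[T;T⁻¹]) (g : ℤ[T;T⁻¹]) (p e : ℕ) (hp : p.Prime) :
    (∀ i, IsKnotoid (O i).close → (family (O i) (w i) (u i) s).up = (O i).up →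
      ∀ q : Fin k → ℤ, IsKnotoid (family (O i) (w i) (u i) (s + (P : ℤ) • q)).close) ∧
    ((∀ q : Fin k → ℤ, ((p ^ e : ℕ) : ℤ[T;T⁻¹]) ∣
        ∑ i, c i * (family (O i) (w i) (u i) (s + (P : ℤ) • q)).close.fPoly - g) ∨
      ((∀ A : Fin k → Finset ℤ, (∀ j, ∀ z ∈ A j, ∀ z' ∈ A j, (p : ℤ) ∣ z - z' → z = z') →
          {q : Fin k → ℤ | (∀ j, q j ∈ A j) ∧ ((p ^ e : ℕ) : ℤ[T;T⁻¹]) ∣
            ∑ i, c i * (family (O i) (w i) (u i) (s + (P : ℤ) • q)).close.fPoly - g}.ncard ≤
          (∑ i, (m i).choose (m i / 2)) * ∑ j, ∏ l ∈ univ.erase j, #(A l)) ∧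
        (∀ n : ℕ, p ∣ n →
          p * {q : Fin k → ℤ | (∀ j, 0 ≤ q j ∧ q j < n) ∧ ((p ^ e : ℕ) : ℤ[T;T⁻¹]) ∣
            ∑ i, c i * (family (O i) (w i) (u i) (s + (P : ℤ) • q)).close.fPoly - g}.ncard ≤
          k * (∑ i, (m i).choose (m i / 2)) * n ^ k) ∧
        (k = 1 → ∃ R : Finset ℤ, #R ≤ ∑ i, (m i).choose (m i / 2) ∧ ∀ q : Fin k → ℤ,
          ((p ^ e : ℕ) : ℤ[T;T⁻¹]) ∣
            ∑ i, c i * (family (O i) (w i) (u i) (s + (P : ℤ) • q)).close.fPoly - g →
          ∃ a ∈ R, ∀ j, (p : ℤ) ∣ q j - a))) := by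
  classical
  have : Fact p.Prime := ⟨hp⟩
  refine ⟨fun i hO hup q => ?_, ?_⟩
  · obtain ⟨x, hx⟩ := family_word (m i) k (w i) (u i) (s + (P : ℤ) • q)
    have h1 := family_up k (w i) (u i) P (fun j => hP i j) s q (O i) (O i) rfl
    rw [hx] at h1 ⊢
    exact Pool.Agent.Y463.KN.knotoid_draw (O i) hO x (h1.trans hup)
  · have h := Q99.SML8.count_comb hm O w u P hP s c g (p : ℤ)
      (Q99.SML8.prime_p p hp).1 (Q99.SML8.prime_p p hp).2 _ (Q99.SML8.reg_ppow p e)
    simp only [Ideal.mem_span_singleton] at h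
    rcases h with h | h
    · exact Or.inl h
    right
    refine ⟨h, fun n hn => Q99.SML8.cube _ p hp.pos _ h n hn, fun hk => ?_⟩
    subst hk
    obtain ⟨R, hR1, hR2⟩ := Q99.SML8.classes (Q := fun z => ((p ^ e : ℕ) : ℤ[T;T⁻¹]) ∣
      ∑ i, c i * (family (O i) (w i) (u i) (s + (P : ℤ) • (fun _ => z))).close.fPoly - g)
      p hp.pos (∑ i, (m i).choose (m i / 2)) (fun A hA => by
        have h1 := h (fun _ => A) (fun _ => hA)
        have h3 : ∑ j : Fin 1, ∏ l ∈ univ.erase j, #A = 1 := by
          simp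
        rw [h3, mul_one] at h1
        refine le_trans (le_of_eq ?_) h1
        rw [← Set.ncard_image_of_injective _
          (show Function.Injective (fun z : ℤ => (fun _ : Fin 1 => z)) from
            fun a b hab => congrFun hab 0)]
        congr 1
        ext q
        constructor
        · rintro ⟨z, ⟨hz1, hz2⟩, rfl⟩
          exact ⟨fun _ => hz1, hz2⟩
        · rintro ⟨hq1, hq2⟩
          have hq' : q = fun _ => q 0 := by
            funext j
            rw [Subsingleton.elim j 0]
          refine ⟨q 0, ⟨hq1 0, ?_⟩, hq'.symm⟩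
          show _ ∣ _
          rw [← hq']
          exact hq2)
    refine ⟨R, hR1, fun q hq => ?_⟩
    have hq' : q = fun _ => q 0 := by
      funext j
      rw [Subsingleton.elim j 0]
    obtain ⟨a, ha, hd⟩ := hR2 (q 0) (by
      show _ ∣ _
      rw [← hq']
      exact hq)
    refine ⟨a, ha, fun j => ?_⟩
    rw [Subsingleton.elim j 0]
    exact hd

end Pool.Agent.Results.MP_79b4ff_gt.Congruences
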