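import Mathlib
import Pool.Agent.Q273.AD.AbcQ2
import Pool.Agent.Q177.AD.Trq
import Pool.Agent.Q225.AD.Cnvq

/-!
# The abc conjecture near almost every adele

Every rational number `r = p / q ≠ 0, 1` gives the abc triple formed by `|p|`, `q` and `|p - q|`, with
largest member `c`; every abc triple is of this form. An integral adelic point `u = (ξ, η)` consists of a
real number `ξ` and of a `p`-adic integer `η_p` for every prime `p`. For a finite set `V` of primes let
`m_V(r) = log max (1, 1 / |ξ - r|) + ∑_(p ∈ V) log max (1, 1 / |η_p - r|_p)` and let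
`ρ(r) = log R(abc) / log c`, the reciprocal of the quality of the triple; the abc conjecture says that the
lower limit of `ρ` is `1`.

For almost every `u` (Lebesgue measure times Haar measure) the inequality
`m_V ≤ (F(ρ) + ε) log c + C` holds for ALL triples, where `F` is an explicit increasing function with
`F(1) = 15/28` and `F(ρ) = ρ - 1` for `ρ ≥ 2`. So all but finitely many triples with
`m_V ≥ (15/28 + ε) log c` satisfy `c < R(abc)`, those with `m_V ≥ (1 + ε) log c` satisfy even
`c exp(m_V) ≤ C R(abc) c ^ ε`, and for `ρ ≥ 2` nothing more is true: all distributions of the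
proximities and of the radicals of the three members which the inequality permits occur.
-/

set_option autoImplicit false

open MeasureTheory

namespace Pool.Agent.Results.MP_7aad9f_nt.AlmostEveryAdele

/-- the radical `R(m)`: the product of the distinct primes dividing `m` -/
def R (m : ℕ) : ℕ := ∏ p ∈ m.primeFactors, p

/-- the largest member `c` of the triple of `r = p / q`, formed by `|p|`, `q` and `|p - q|` -/
def c (r : ℚ) : ℕ := max (max r.num.natAbs r.den) (r.num - r.den).natAbs

/-- the product `abc` of the three members of the triple of `r = p / q` -/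
def abc (r : ℚ) : ℕ := r.num.natAbs * r.den * (r.num - r.den).natAbs

/-- the exponent, a continuous increasing piecewise linear function -/
noncomputable def F (lam : ℝ) : ℝ :=
  if lam ≤ 2 / 3 then 4 * lam / 7
  else if lam ≤ 1 then (13 * lam + 2) / 28
  else if lam ≤ 3 / 2 then 5 * (10 * lam - 1) / 84
  else if lam ≤ 16 / 9 then (9 * lam - 1) / 15
  else if lam ≤ 2 then 1
  else lam - 1

/-- the product of the rings of `p`-adic integers over all primes `p`, with the product topology -/
abbrev ZHat : Type := (p : Nat.Primes) → @PadicInt p.1 ⟨p.2⟩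

/-- the proximity function at the infinite place: `log max (1, 1 / |ξ - r|)` -/
noncomputable def mInf (u : ℝ × ZHat) (r : ℚ) : ℝ := Real.log (max 1 |u.1 - (r : ℝ)|⁻¹)

/-- the proximity function at the prime `p`: `log max (1, 1 / |η_p - r|_p)` -/
noncomputable def mP (u : ℝ × ZHat) (p : Nat.Primes) (r : ℚ) : ℝ :=
  haveI : Fact p.1.Prime := ⟨p.2⟩
  Real.log (max 1 ‖((u.2 p : ℤ_[p.1]) : ℚ_[p.1]) - (r : ℚ_[p.1])‖⁻¹)

/-- the proximity function at the infinite place and at the primes in `V` -/
noncomputable def m (V : Finset Nat.Primes) (u : ℝ × ZHat) (r : ℚ) : ℝ :=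
  mInf u r + ∑ p ∈ V, mP u p r

/-- the reciprocal of the quality: `log R(abc) / log c` -/
noncomputable def ρ (r : ℚ) : ℝ := Real.log (R (abc r)) / Real.log (c r)

/-- **The metric law for abc triples near adeles.** Let `μ` be a finite translation invariant Borel
measure on the compact group `ZHat` (a multiple of Haar measure). For almost every `u = (ξ, η)` with
respect to the product of Lebesgue measure and `μ`, for all finite sets `V` of primes:
(1) for every `ε > 0` there is `C` such that all triples satisfy `m_V ≤ (F(ρ) + ε) log c + C`;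
(2) if `τ ≥ 0`, `σ_p ≥ 0` and `δ_i ≥ 0` satisfy `∑ δ_i ≤ 1` and `τ + ∑ σ_p + ∑ δ_i ≤ 2` (the sum over
`p ∈ V`) then there are triples with `c → ∞`, the ratios of the proximities at the infinite place and at
the primes `p ∈ V` to `log c` tending to `τ` and `σ_p` and the ratios of the logarithms of the radicals of
`|p|`, `|p - q|` and `q` to `log c` tending to `1 - δ_0`, `1 - δ_1` and `1 - δ_2`. -/
theorem result [MeasurableSpace ZHat] [BorelSpace ZHat] (μ : Measure ZHat) [IsFiniteMeasure μ]
    [μ.IsAddLeftInvariant] :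
    ∀ᵐ u : ℝ × ZHat ∂(volume.prod μ), ∀ V : Finset Nat.Primes,
      (∀ ε : ℝ, 0 < ε → ∃ C : ℝ, ∀ r : ℚ, r ≠ 0 → r ≠ 1 →
        m V u r ≤ (F (ρ r) + ε) * Real.log (c r) + C) ∧
      ∀ (τ : ℝ) (σ : Nat.Primes → ℝ) (δ : Fin 3 → ℝ), 0 ≤ τ → (∀ p, 0 ≤ σ p) → (∀ i, 0 ≤ δ i) →
        ∑ i, δ i ≤ 1 → τ + ∑ p ∈ V, σ p + ∑ i, δ i ≤ 2 → ∀ ε : ℝ, 0 < ε → ∀ B : ℝ,
        ∃ r : ℚ, r ≠ 0 ∧ r ≠ 1 ∧ B ≤ Real.log (c r) ∧
          |mInf u r / Real.log (c r) - τ| ≤ ε ∧
          (∀ p ∈ V, |mP u p r / Real.log (c r) - σ p| ≤ ε) ∧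
          |Real.log (R r.num.natAbs) / Real.log (c r) - (1 - δ 0)| ≤ ε ∧
          |Real.log (R (r.num - r.den).natAbs) / Real.log (c r) - (1 - δ 1)| ≤ ε ∧
          |Real.log (R r.den) / Real.log (c r) - (1 - δ 2)| ≤ ε := by
  filter_upwards [Q273.AD.allQ1 Pool.Agent.Q225.AD.cnvq Pool.Agent.Q177.AD.trq μ] with u hu
  intro V
  obtain ⟨h1, h3⟩ := hu V
  refine ⟨fun ε hε => h1 ε hε, fun τ σ δ hτ hσ hδ hΔ hsum ε hε B => ?_⟩
  obtain ⟨r, hr0, hr1, hB, g1, g2, g3, g4, g5⟩ := h3 τ σ δ hτ hσ hδ hΔ hsum ε hε (max B 1)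
  have hH : 0 < Real.log (c r) := lt_of_lt_of_le one_pos ((le_max_right _ _).trans hB)
  have key : ∀ A t : ℝ, |A - t * Real.log (c r)| ≤ ε * Real.log (c r) →
      |A / Real.log (c r) - t| ≤ ε := by
    intro A t h
    rw [div_sub' hH.ne', abs_div, abs_of_pos hH, div_le_iff₀ hH, mul_comm (Real.log (c r))]
    exact h
  exact ⟨r, hr0, hr1, (le_max_left _ _).trans hB, key _ _ g1, fun p hp => key _ _ (g2 p hp),
    key _ _ g3, key _ _ g4, key _ _ g5⟩

end Pool.Agent.Results.MP_7aad9f_nt.AlmostEveryAdele
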