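import Mathlib
import Pool.Agent.Q273.ApxF
import Pool.Agent.Q273.ApxQ
import Pool.Agent.Results.MP_7aad9f_nt.ExceptionsEveryExponent

/-!
# The abc conjecture at the good approximations of real numbers

Every rational number `r = p / q ≠ 0, 1` gives the abc triple formed by `|p|`, `q` and `|p - q|`.
-/

set_option autoImplicit false

namespace Pool.Agent.Results.MP_7aad9f_nt.GoodApproximations

/-- the radical `R(m)`: the product of the distinct primes dividing `m` -/
def R (m : ℕ) : ℕ := ∏ p ∈ m.primeFactors, p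

/-- the largest member `c` of the triple of `r = p / q`, formed by `|p|`, `q` and `|p - q|` -/
def c (r : ℚ) : ℕ := max (max r.num.natAbs r.den) (r.num - r.den).natAbs

/-- the product `abc` of the three members of the triple of `r = p / q` -/
def abc (r : ℚ) : ℕ := r.num.natAbs * r.den * (r.num - r.den).natAbs

/-- the exponent, a continuous piecewise linear function -/
noncomputable def F (lam : ℝ) : ℝ :=
  if lam ≤ 2 / 3 then 4 * lam / 7
  else if lam ≤ 1 then (13 * lam + 2) / 28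
  else if lam ≤ 3 / 2 then 5 * (10 * lam - 1) / 84
  else if lam ≤ 16 / 9 then (9 * lam - 1) / 15
  else if lam ≤ 2 then 1
  else lam - 1

private theorem F_nonneg {lam : ℝ} (h : 0 < lam) : 0 ≤ F lam := by
  unfold F
  split_ifs <;> linarith

private theorem F_lt_one {lam : ℝ} (h : lam < 16 / 9) : F lam < 1 := by
  unfold F
  split_ifs <;> linarith

open ExceptionsEveryExponent (Exceptions)

/-- the triple, in the order required by the count -/
private def trip (r : ℚ) : ℕ × ℕ × ℕ :=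
  if 0 < r.num then
    if r.num ≤ r.den then (r.num.natAbs, (r.num - r.den).natAbs, r.den)
    else (r.den, (r.num - r.den).natAbs, r.num.natAbs)
  else (r.num.natAbs, r.den, (r.num - r.den).natAbs)

/-- the kind of the triple -/
private def kind (r : ℚ) : ℕ := if 0 < r.num then (if r.num ≤ r.den then 0 else 1) else 2

private theorem trip_inj {r r' : ℚ} (h1 : trip r = trip r') (h2 : kind r = kind r') : r = r' := by
  unfold trip at h1
  unfold kind at h2
  apply Rat.ext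
  · split_ifs at h1 h2 <;> simp only [Prod.mk.injEq] at h1 <;> omega
  · split_ifs at h1 h2 <;> simp only [Prod.mk.injEq] at h1 <;> omega

private theorem trip_mem {r : ℚ} (h0 : r ≠ 0) (h1 : r ≠ 1) {B lam : ℝ} {X : ℕ}
    (hX : c r ≤ X) (hB : (R (abc r) : ℝ) ≤ B * (c r : ℝ) ^ lam) :
    trip r ∈ Exceptions B lam X := by
  have hnum : r.num ≠ 0 := Rat.num_ne_zero.2 h0
  have hden : 0 < r.den := r.den_pos
  have hne : r.num ≠ (r.den : ℤ) := by
    intro h
    apply h1
    have h3 := Rat.num_div_den r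
    rw [h] at h3
    rw [← h3]
    have : (r.den : ℚ) ≠ 0 := by exact_mod_cast hden.ne'
    push_cast
    exact div_self this
  have hcop : Nat.Coprime r.num.natAbs r.den := r.reduced
  have hcop2 : Nat.Coprime (r.num - r.den).natAbs r.den := by
    have h3 : IsCoprime r.num (r.den : ℤ) := by
      rw [Int.isCoprime_iff_gcd_eq_one]
      exact r.reduced
    have h4 : IsCoprime (r.num - r.den) (r.den : ℤ) := by
      obtain ⟨u, v, huv⟩ := h3
      exact ⟨u, u + v, by linear_combination huv⟩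
    exact Int.isCoprime_iff_gcd_eq_one.1 h4
  have hcop3 : Nat.Coprime r.num.natAbs (r.num - r.den).natAbs := by
    have h3 : IsCoprime r.num (r.den : ℤ) := by
      rw [Int.isCoprime_iff_gcd_eq_one]
      exact r.reduced
    have h4 : IsCoprime r.num (r.num - r.den) := by
      obtain ⟨u, v, huv⟩ := h3
      exact ⟨u + v, -v, by linear_combination huv⟩
    exact Int.isCoprime_iff_gcd_eq_one.1 h4
  unfold trip
  unfold c at hX hB
  unfold abc at hB
  split_ifs with h3 h4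
  · have hc : max (max r.num.natAbs r.den) (r.num - r.den).natAbs = r.den := by omega
    rw [hc] at hX hB
    refine ⟨by simp only; omega, by simp only; omega, hcop3, by simp only; omega, hX, ?_⟩
    simp only
    rw [show r.num.natAbs * (r.num - r.den).natAbs * r.den =
      r.num.natAbs * r.den * (r.num - r.den).natAbs by ring]
    exact hB
  · have hc : max (max r.num.natAbs r.den) (r.num - r.den).natAbs = r.num.natAbs := by omega
    rw [hc] at hX hB
    refine ⟨by simp only; omega, by simp only; omega, hcop2.symm, by simp only; omega, hX, ?_⟩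
    simp only
    rw [show r.den * (r.num - r.den).natAbs * r.num.natAbs =
      r.num.natAbs * r.den * (r.num - r.den).natAbs by ring]
    exact hB
  · have hc : max (max r.num.natAbs r.den) (r.num - r.den).natAbs = (r.num - r.den).natAbs := by
      omega
    rw [hc] at hX hB
    refine ⟨by simp only; omega, hden, hcop, by simp only; omega, hX, ?_⟩
    exact hB

private theorem count {lam : ℝ} (hlam : 0 < lam) (B : ℝ) (δ : ℝ) (hδ : 0 < δ) :
    ∃ C : ℝ, ∀ X : ℝ, 1 ≤ X →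
      {r : ℚ | r ∈ {r : ℚ | r ≠ 0 ∧ r ≠ 1 ∧ (R (abc r) : ℝ) ≤ B * (c r : ℝ) ^ lam} ∧
        (c r : ℝ) ≤ X}.Finite ∧
      ({r : ℚ | r ∈ {r : ℚ | r ≠ 0 ∧ r ≠ 1 ∧ (R (abc r) : ℝ) ≤ B * (c r : ℝ) ^ lam} ∧
        (c r : ℝ) ≤ X}.ncard : ℝ) ≤ C * X ^ (F lam + δ) := by
  obtain ⟨C, hC⟩ := ExceptionsEveryExponent.result lam B δ hlam hδ
  refine ⟨3 * |C|, fun X hX => ?_⟩
  set n : ℕ := ⌊X⌋₊ with hn
  have hn1 : 1 ≤ n := Nat.le_floor (by exact_mod_cast hX)
  obtain ⟨h1, h2⟩ := hC n hn1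
  set V := {r : ℚ | r ∈ {r : ℚ | r ≠ 0 ∧ r ≠ 1 ∧ (R (abc r) : ℝ) ≤ B * (c r : ℝ) ^ lam} ∧
        (c r : ℝ) ≤ X} with hV
  have hmaps : ∀ r ∈ V, (trip r, kind r) ∈ (Exceptions B lam n) ×ˢ (({0, 1, 2} : Finset ℕ) : Set ℕ) := by
    intro r hr
    obtain ⟨⟨h3, h4, h5⟩, h6⟩ := hr
    refine ⟨trip_mem h3 h4 (Nat.le_floor h6) h5, ?_⟩
    simp only [kind]
    split_ifs <;> simp
  have hinj : Set.InjOn (fun r => (trip r, kind r)) V := by
    intro r _ r' _ h
    simp only [Prod.mk.injEq] at h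
    exact trip_inj h.1 h.2
  have hfin : ((Exceptions B lam n) ×ˢ (({0, 1, 2} : Finset ℕ) : Set ℕ)).Finite :=
    h1.prod (Finset.finite_toSet _)
  have hVfin : V.Finite := Set.Finite.of_injOn hmaps hinj hfin
  refine ⟨hVfin, ?_⟩
  have h3 : V.ncard ≤ ((Exceptions B lam n) ×ˢ (({0, 1, 2} : Finset ℕ) : Set ℕ)).ncard :=
    Set.ncard_le_ncard_of_injOn _ hmaps hinj hfin
  have h4 : ((Exceptions B lam n) ×ˢ (({0, 1, 2} : Finset ℕ) : Set ℕ)).ncard =
      (Exceptions B lam n).ncard * 3 := by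
    rw [Set.ncard_prod, Set.ncard_coe_finset]
    rfl
  rw [h4] at h3
  have h5 : (V.ncard : ℝ) ≤ ((Exceptions B lam n).ncard : ℝ) * 3 := by exact_mod_cast h3
  have h6 : (n : ℝ) ≤ X := Nat.floor_le (by linarith)
  have h7 : (n : ℝ) ^ (F lam + δ) ≤ X ^ (F lam + δ) :=
    Real.rpow_le_rpow (Nat.cast_nonneg _) h6 (by linarith [F_nonneg hlam])
  have h8 : ((Exceptions B lam n).ncard : ℝ) ≤ C * (n : ℝ) ^ (F lam + δ) := h2
  have h9 : (0 : ℝ) ≤ (n : ℝ) ^ (F lam + δ) := by positivity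
  have h10 : C * (n : ℝ) ^ (F lam + δ) ≤ |C| * X ^ (F lam + δ) :=
    mul_le_mul (le_abs_self C) h7 h9 (abs_nonneg C)
  linarith

private theorem Hr_le (r : ℚ) : Q273.ApxQ.Hr r ≤ (c r : ℝ) := by
  unfold Q273.ApxQ.Hr c
  push_cast
  rw [Nat.cast_natAbs]
  push_cast
  exact le_max_left _ _

private theorem le_Hr (r : ℚ) : (c r : ℝ) ≤ 2 * Q273.ApxQ.Hr r := by
  unfold Q273.ApxQ.Hr c
  push_cast
  rw [Nat.cast_natAbs, Nat.cast_natAbs]
  push_cast
  have h1 : |(r.num : ℝ)| ≤ max (|(r.num : ℝ)|) (r.den : ℝ) := le_max_left _ _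
  have h2 : (r.den : ℝ) ≤ max (|(r.num : ℝ)|) (r.den : ℝ) := le_max_right _ _
  have h3 : (0 : ℝ) ≤ r.den := Nat.cast_nonneg _
  apply max_le
  · linarith
  · calc |(r.num : ℝ) - r.den| ≤ |(r.num : ℝ)| + |(r.den : ℝ)| := abs_sub _ _
      _ = |(r.num : ℝ)| + r.den := by rw [abs_of_nonneg h3]
      _ ≤ _ := by linarith

/-- **The abc conjecture at the good approximations of real numbers.** Let `lam, τ > 0`.
(1) There is a set `E` of real numbers of Hausdorff dimension at most `F lam / τ` such that for every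
real number `ξ` outside `E` and all `A`, `B` only finitely many rational numbers `r = p / q ≠ 0, 1`
with `|ξ - r| ≤ A c ^ (-τ)` give an abc triple with `R (abc) ≤ B c ^ lam`.
(2) Let `lam < 16 / 9` and `F lam + τ < 2`. For every irrational number `ξ` and every `B` there are
infinitely many rational numbers `r = p / q ≠ 0, 1` with `|ξ - r| ≤ c ^ (-τ)` which give an abc
triple with `R (abc) > B c ^ lam`. -/
theorem result (lam τ : ℝ) (hlam : 0 < lam) (hτ : 0 < τ) :
    (∃ E : Set ℝ, dimH E ≤ ENNReal.ofReal (F lam / τ) ∧ ∀ ξ : ℝ, ξ ∉ E → ∀ A B : ℝ,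
      {r : ℚ | r ≠ 0 ∧ r ≠ 1 ∧ |ξ - r| ≤ A * (c r : ℝ) ^ (-τ) ∧
        (R (abc r) : ℝ) ≤ B * (c r : ℝ) ^ lam}.Finite) ∧
    (lam < 16 / 9 → F lam + τ < 2 → ∀ ξ : ℝ, Irrational ξ → ∀ B : ℝ,
      {r : ℚ | r ≠ 0 ∧ r ≠ 1 ∧ |ξ - r| ≤ (c r : ℝ) ^ (-τ) ∧
        B * (c r : ℝ) ^ lam < (R (abc r) : ℝ)}.Infinite) := by
  constructor
  · obtain ⟨E, hE, h⟩ := Q273.Apx.approx_family (ι := ℕ)
      (fun n => {r : ℚ | r ≠ 0 ∧ r ≠ 1 ∧ (R (abc r) : ℝ) ≤ (n : ℝ) * (c r : ℝ) ^ lam})
      (fun r => (c r : ℝ)) (fun r : ℚ => (r : ℝ)) (F_nonneg hlam) hτ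
      (fun n δ hδ => count hlam n δ hδ)
    refine ⟨E, hE, fun ξ hξ A B => ?_⟩
    obtain ⟨n, hn⟩ := exists_nat_ge B
    refine (h ξ hξ n A).subset ?_
    rintro r ⟨h1, h2, h3, h4⟩
    refine ⟨⟨h1, h2, h4.trans ?_⟩, ?_⟩
    · exact mul_le_mul_of_nonneg_right hn (by positivity)
    · rw [Real.dist_eq]
      exact h3
  · intro h1 h2 ξ hξ B
    have h := Q273.ApxQ.infinitely ξ hξ (F_nonneg hlam) (F_lt_one h1) hτ h2 (fun r => (c r : ℝ)) 2
      le_Hr Hr_le _ (fun ε hε => count hlam B ε hε)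
    refine (h.sdiff (Set.toFinite ({0, 1} : Set ℚ))).mono ?_
    rintro r ⟨⟨h3, h4⟩, h5⟩
    simp only [Set.mem_insert_iff, Set.mem_singleton_iff, not_or] at h5
    refine ⟨h5.1, h5.2, h4, ?_⟩
    by_contra hcon
    exact h3 ⟨h5.1, h5.2, not_lt.1 hcon⟩

end Pool.Agent.Results.MP_7aad9f_nt.GoodApproximations
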