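import Mathlib
import Pool.Agent.Q168.Lehmer.Main

/-!
# Lehmer's problem and generalized arithmetic progressions

There is an absolute constant `c > 0` such that

  `log M(f) ≥ c / ((1 + r) (1 + log ((1 + r) A))) ^ 3`

for every irreducible integer polynomial `f` with `M(f) > 1` whose coefficient sequence is a sum, with
signs, of `A` generalized arithmetic progressions of rank at most `r`: `f` is a sum of `A` polynomials
`± X ^ e ∏ (1 + X ^ b + ... + X ^ ((a - 1) b))` with at most `r` factors each. The lengths `a` and the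
differences `b` do not matter. For `r = 0` this is the form of Dobrowolski's theorem in which the
degree is replaced by the length of `f`, and for `r = 1` the length is replaced by the least number
of (signed) arithmetic progressions of which the coefficient sequence of `f` is the sum.

More generally let `f(z) = ∑ P_i(z) / ∏_{b ∈ N_i} (z ^ b - 1)` on the unit circle (outside the poles),
where `|P_i| ≤ L_i` and `N_i` consists of at most `r` members of a set `B`; then
`log M(f) ≥ c / (1 + log (1 + ∑ L_i) + r (1 + log |B|)) ^ 3`. (Multiplying by the common denominator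
and estimating trivially one would find `r |B|` in place of `r (1 + log |B|)`.)

Proof. With `G = ∑_{b ∈ B} (1 + |z ^ b - 1| ^ (-1/2))` one has `|f| ≤ (∑ L_i) G ^ (2 r)`, and the
mean of `G` is at most `3 |B|`. So the mean of `log⁺ |f|` is at most
`log (1 + ∑ L_i) + 2 r log (3 |B|)`, and the starting result `LogPlusMean` applies.
-/

set_option autoImplicit false

open Polynomial Real

namespace Pool.Agent.Results.MP_7ab245_nt.GeneralizedProgressions

noncomputable section

/-- The Mahler measure of an integer polynomial. -/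
def M (f : ℤ[X]) : ℝ := (f.map (Int.castRingHom ℂ)).mahlerMeasure

/-- The product of the geometric progressions `1 + X ^ b + ... + X ^ ((a - 1) b)`, `(a, b) ∈ Q`: the
generating polynomial of the generalized arithmetic progression
`{∑ i_q b_q : 0 ≤ i_q < a_q}` (with multiplicity) with the lengths `a_q` and the differences `b_q`. -/
def progression (Q : Multiset (ℕ × ℕ)) : ℤ[X] :=
  (Q.map fun q => ∑ i ∈ Finset.range q.1, (X : ℤ[X]) ^ (i * q.2)).prod

theorem result : ∃ c : ℝ, 0 < c ∧
    (∀ (A r : ℕ) (ε : Fin A → ℤ) (e : Fin A → ℕ) (Q : Fin A → Multiset (ℕ × ℕ)),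
      (∀ j, |ε j| = 1) → (∀ j, (Q j).card ≤ r ∧ ∀ q ∈ Q j, 0 < q.2) →
      Irreducible (∑ j, C (ε j) * X ^ e j * progression (Q j)) →
      1 < M (∑ j, C (ε j) * X ^ e j * progression (Q j)) →
      exp (c / ((1 + r) * (1 + log ((1 + r) * A))) ^ 3) ≤
        M (∑ j, C (ε j) * X ^ e j * progression (Q j))) ∧
    (∀ f : ℤ[X], Irreducible f → 1 < M f →
      ∀ (ι : Type) (s : Finset ι) (P : ι → ℂ → ℂ) (L : ι → ℝ) (N : ι → Multiset ℕ)
        (B : Finset ℕ) (r : ℕ),
      (∀ i ∈ s, ∀ z : ℂ, ‖z‖ = 1 → ‖P i z‖ ≤ L i) → B.Nonempty → 0 ∉ B →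
      (∀ i ∈ s, (N i).card ≤ r ∧ ∀ b ∈ N i, b ∈ B) →
      (∀ z : ℂ, ‖z‖ = 1 → (∀ b ∈ B, z ^ b ≠ 1) →
        aeval z f = ∑ i ∈ s, P i z / ((N i).map fun b => z ^ b - 1).prod) →
      exp (c / (1 + log (1 + ∑ i ∈ s, L i) + r * (1 + log B.card)) ^ 3) ≤ M f) := by
  obtain ⟨c₁, hc₁, H₁⟩ := Pool.Agent.Q168.Lehmer.main_gap
  obtain ⟨c₂, hc₂, H₂⟩ := Pool.Agent.Q168.Lehmer.main
  refine ⟨min c₁ c₂, lt_min hc₁ hc₂, ?_, ?_⟩
  · intro A r ε e Q hε hQ hirr hM
    have h1 := H₁ A r ε e Q hε hQ hirr hM
    have hpos : 0 < M (∑ j, C (ε j) * X ^ e j * progression (Q j)) := by linarith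
    rw [← Real.exp_log hpos]
    refine Real.exp_le_exp.2 (le_trans ?_ h1)
    have hA : 0 < A := by
      rcases Nat.eq_zero_or_pos A with h | h
      · subst h
        simp at hirr
      · exact h
    have hA1 : (1 : ℝ) ≤ A := by exact_mod_cast hA
    have hr0 : (0 : ℝ) ≤ r := by positivity
    have hΛ0 : 0 ≤ log ((1 + r) * A) := Real.log_nonneg (by nlinarith)
    apply div_le_div_of_nonneg_right (min_le_left _ _)
    positivity
  · intro f hirr hM ι s P L N B r hL hB hB0 hN hf
    have h1 := H₂ f hirr hM ι s P L hL N B r hB hB0 hN hf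
    have hpos : 0 < M f := by linarith
    rw [← Real.exp_log hpos]
    refine Real.exp_le_exp.2 (le_trans ?_ h1)
    have hcard1 : (1 : ℝ) ≤ B.card := by exact_mod_cast hB.card_pos
    have hlb : 0 ≤ Real.log B.card := Real.log_nonneg hcard1
    have hA0 : 0 ≤ ∑ i ∈ s, L i :=
      Finset.sum_nonneg fun i hi => (norm_nonneg _).trans (hL i hi 1 (by simp))
    have hla : 0 ≤ Real.log (1 + ∑ i ∈ s, L i) := Real.log_nonneg (by linarith)
    apply div_le_div_of_nonneg_right (min_le_right _ _)
    positivity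

end

end Pool.Agent.Results.MP_7ab245_nt.GeneralizedProgressions
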