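import Mathlib
import Pool.Agent.Q263.PK.Poly

/-!
# Goldbach decompositions into almost primes with restricted digits: the next decomposition

Fix a base `b ≥ 2`. For `k ≥ 1` choose for every position `i < k` a set `D i` of digits, in any way,
such that two digits in `D i` have a difference without prime factors outside `b`, for example two
consecutive digits. Let `S` be the set of the integers `0 ≤ m < b ^ k` whose `i`-th digit is in
`D i` for every `i`; it may have only `2 ^ k` elements.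

Let `N` be even. Call `t` a `y`-decomposition of `N` if neither `t` nor `N - t` has a prime factor
`≤ y`. Put `V_N(y) = ∏_{p ≤ y, p ∣ N} (1 - 1 / p) · ∏_{p ≤ y, p ∤ N} (1 - 2 / p)`.

For all `Λ` and `ε > 0` there is `L`, which depends on `b`, `Λ` and `ε` only, and for every `C` there
are `y₀` and `k₀` such that for all `k ≥ k₀`, all choices of the sets of digits, all `y ≥ y₀` with
`y ^ L ≤ b ^ k` and ALL even `N` with `y ≤ N ≤ y ^ C`:

(1) if `d (N - d)` is coprime to `b` for some `d ∈ D 0` then at least `|S| V_N(y) / (2 b)` elements of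
`S` are `y`-decompositions of `N`;

(2) for all `T` with `x = T V_N(y) ≤ Λ` and all finite sets `A`: among the elements `m` of `S` which
are `y`-decompositions of `N` the proportion of those for which the number of the
`y`-decompositions in `(m, m + T]` belongs to `A` differs from `∑_{j ∈ A} exp(-x) x ^ j / j!` by at
most `ε`;

(3) the same holds with all elements `m` of `S` in place of those which are `y`-decompositions.

By (2) with `A = {0}` the distance from a decomposition with a restricted summand to the next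
decomposition, multiplied by `V_N(y)`, has the exponential distribution up to `ε`. The statement is
uniform in `N`. One can take `y = b ^ ⌊k / L⌋`; then `N` may be as large as a fixed power of `b ^ k`,
and the summands have a bounded number of prime factors.

Idea of the proof: binomial moments, in each residue class modulo the small primes; they are given
by the fundamental lemma of the sieve for restricted digits in a fixed residue class
(`Pool.Agent.Q263.SW`) and by an average of the products over the sets `{0} ∪ J` of shifts. The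
collisions at the large primes divide `N - t` or `N + t`.
-/

set_option autoImplicit false

namespace Pool.Agent.Results.MP_7b7e48_nt.NextDecomposition

open Finset

/-- The integers `0 ≤ m < b ^ k` whose `i`-th digit in base `b` belongs to `D i`, for all `i < k`. -/
def Restricted (b k : ℕ) (D : Fin k → Finset ℕ) : Finset ℕ :=
  (Finset.range (b ^ k)).filter (fun m => ∀ i : Fin k, m / b ^ (i : ℕ) % b ∈ D i)

/-- Each `D i` is a set of digits, and it has two digits `c < c'` such that every prime factor of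
`c' - c` divides `b`. -/
def DigitSets (b k : ℕ) (D : Fin k → Finset ℕ) : Prop :=
  ∀ i, (∀ d ∈ D i, d < b) ∧ ∃ c ∈ D i, ∃ c' ∈ D i, c < c' ∧
    ∀ p : ℕ, p.Prime → p ∣ c' - c → p ∣ b

/-- The sieve product. -/
noncomputable def V (N y : ℕ) : ℝ :=
  ∏ p ∈ (Finset.Icc 1 y).filter Nat.Prime, (1 - (if p ∣ N then 1 else 2 : ℝ) / (p : ℝ))

/-- Neither `t` nor `N - t` has a prime factor `≤ y`. -/
def Decomposition (N y t : ℕ) : Prop :=
  ∀ p : ℕ, p.Prime → p ≤ y → ¬ p ∣ t ∧ ¬ (p : ℤ) ∣ (N : ℤ) - t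

open Classical in
/-- The elements of `S` which are decompositions. -/
noncomputable def Start (b k : ℕ) (D : Fin k → Finset ℕ) (N y : ℕ) : Finset ℕ :=
  (Restricted b k D).filter (fun m => Decomposition N y m)

open Classical in
/-- The number of the decompositions in `(m, m + T]`. -/
noncomputable def next (N y T m : ℕ) : ℕ :=
  ((Finset.Ioc m (m + T)).filter (fun t => Decomposition N y t)).card

/-- The measure of `A` for the Poisson distribution with the mean `x`. -/
noncomputable def poisson (x : ℝ) (A : Finset ℕ) : ℝ :=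
  ∑ j ∈ A, Real.exp (-x) * x ^ j / (j.factorial : ℝ)

open Pool.Agent.H373R2.T7 Pool.Agent.W123.RP Pool.Agent.W123.RU Pool.Agent.TH464.PO
open Pool.Agent.Q263.PK

/-- the conditions -/
def Qg (N p t : ℕ) : Prop := p ∣ t ∨ (p : ℤ) ∣ (N : ℤ) - t

lemma Qg_per (N p t : ℕ) : Qg N p t ↔ Qg N p (t % p) := by
  unfold Qg
  have h1 : p ∣ t % p ↔ p ∣ t := Nat.dvd_mod_iff dvd_rfl
  have h2 : (p : ℤ) ∣ (N : ℤ) - ((t % p : ℕ) : ℤ) ↔ (p : ℤ) ∣ (N : ℤ) - t := by
    have h3 : (p : ℤ) ∣ (t : ℤ) - ((t % p : ℕ) : ℤ) := by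
      rw [Int.natCast_mod]
      exact ⟨(t : ℤ) / p, by have := Int.emod_add_mul_ediv (t : ℤ) p; linarith⟩
    constructor
    · intro h
      have := dvd_sub h h3
      rwa [sub_sub_sub_cancel_right] at this
    · intro h
      have := dvd_add h h3
      rwa [sub_add_sub_cancel] at this
  rw [h1, h2]

open Classical in
lemma nuB_Qg (N p : ℕ) (hp : p.Prime) : (nuB (Qg N) p : ℝ) = if p ∣ N then 1 else 2 := by
  have h1 : (range p).filter (fun a => Qg N p a) = {0, N % p} := by
    ext a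
    rw [Finset.mem_filter, Finset.mem_range, Finset.mem_insert, Finset.mem_singleton]
    unfold Qg
    have h3 : (p : ℤ) ∣ (N : ℤ) - a ↔ a ≡ N [MOD p] := Nat.modEq_iff_dvd.symm
    rw [h3]
    constructor
    · rintro ⟨h1, h2 | h2⟩
      · left
        exact Nat.eq_zero_of_dvd_of_lt h2 h1
      · right
        unfold Nat.ModEq at h2
        rwa [Nat.mod_eq_of_lt h1] at h2
    · rintro (rfl | rfl)
      · exact ⟨hp.pos, Or.inl (dvd_zero p)⟩
      · exact ⟨Nat.mod_lt _ hp.pos, Or.inr (Nat.mod_modEq N p)⟩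
  unfold nuB
  rw [h1]
  split_ifs with h
  · rw [Nat.mod_eq_zero_of_dvd h]
    simp
  · rw [Finset.card_pair (fun h2 => h (Nat.dvd_of_mod_eq_zero h2.symm))]
    norm_num

lemma perB_Qg (N : ℕ) : PerB (Qg N) 2 := by
  refine ⟨fun p n => Qg_per N p n, fun p hp => ?_⟩
  have h := nuB_Qg N p hp
  have : (nuB (Qg N) p : ℝ) ≤ ((2 : ℕ) : ℝ) := by
    rw [h]
    split_ifs <;> norm_num
  exact_mod_cast this

lemma adm_Qg (N : ℕ) (hN : Even N) (p : ℕ) (hp : p.Prime) : nuB (Qg N) p < p := by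
  have h := nuB_Qg N p hp
  have : (nuB (Qg N) p : ℝ) < (p : ℝ) := by
    rw [h]
    split_ifs with hd
    · exact_mod_cast hp.one_lt
    · have h2 : p ≠ 2 := fun h2 => hd (by rw [h2]; exact even_iff_two_dvd.1 hN)
      have := hp.two_le
      exact_mod_cast (by omega : 2 < p)
  exact_mod_cast this

lemma V_eq (N y : ℕ) : Vq (Qg N) y = V N y := by
  unfold Vq V
  apply prod_congr rfl
  intro p hp
  rw [nuB_Qg N p (mem_pz.1 hp).2]

lemma Sf_iff (N y m : ℕ) : Sf (Qg N) y m ↔ Decomposition N y m := by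
  unfold Sf Decomposition Qg
  constructor
  · intro h p hp hpy
    exact not_or.1 (h p (mem_pz.2 ⟨hpy, hp⟩))
  · intro h p hp
    exact not_or.2 (h p (mem_pz.1 hp).2 (mem_pz.1 hp).1)

lemma V_le (N y : ℕ) : V N y ≤ Vz y := by
  unfold V
  have e : Vz y = ∏ p ∈ pz y, (1 - 1 / (p : ℝ)) := rfl
  rw [e]
  apply prod_le_prod
  · intro p hp
    have hp2 : (2 : ℝ) ≤ p := by exact_mod_cast (mem_filter.1 hp).2.two_le
    have hp0 : (0 : ℝ) < p := by linarith
    rw [sub_nonneg, div_le_one hp0]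
    split_ifs <;> linarith
  · intro p hp
    have hp0 : (0 : ℝ) < p := by exact_mod_cast (mem_filter.1 hp).2.pos
    have : 1 / (p : ℝ) ≤ (if p ∣ N then 1 else 2 : ℝ) / (p : ℝ) := by
      apply div_le_div_of_nonneg_right _ hp0.le
      split_ifs <;> norm_num
    linarith

/-- few large primes divide an integer -/
lemma few (T y C j : ℕ) (z : ℤ) (hz : z ≠ 0) (hzy : z.natAbs ≤ y ^ C) (F : Finset ℕ)
    (hF : ∀ p ∈ F, p.Prime ∧ T < p ∧ (p : ℤ) ∣ z) (hT : 1 ≤ T) (h : y ^ C < T ^ (j + 1)) : F.card ≤ j := by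
  by_contra hcon
  rw [not_le] at hcon
  have h1 := pow_card_le F z.natAbs (Int.natAbs_ne_zero.2 hz) (fun p hp => by
    obtain ⟨h1, _, h2⟩ := hF p hp
    exact ⟨h1, Int.natCast_dvd.1 h2⟩) (T : ℝ) (Nat.cast_nonneg _) (fun p hp => by
      exact_mod_cast (hF p hp).2.1.le)
  have h2 : T ^ F.card ≤ z.natAbs := by exact_mod_cast h1
  have h3 : T ^ (j + 1) ≤ T ^ F.card := Nat.pow_le_pow_right hT hcon
  omega

open Classical in
/-- the collisions -/
lemma coll (N T y C j : ℕ) (hN : T < N) (hNy : N + T ≤ y ^ C) (hT : 1 ≤ T) (h : y ^ C < T ^ (j + 1)) (t : ℕ)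
    (ht : t ∈ Icc 1 T) : ((pz y).filter (fun p : ℕ => T < p ∧ CoG (Qg N) p t)).card ≤ 2 * j := by
  rw [mem_Icc] at ht
  have hsub : (pz y).filter (fun p : ℕ => T < p ∧ CoG (Qg N) p t) ⊆
      (pz y).filter (fun p : ℕ => T < p ∧ (p : ℤ) ∣ (N : ℤ) - t) ∪
      (pz y).filter (fun p : ℕ => T < p ∧ (p : ℤ) ∣ (N : ℤ) + t) := by
    intro p hp
    rw [mem_filter] at hp
    obtain ⟨hp1, hp2, m, hm1, hm2⟩ := hp
    rw [mem_union, mem_filter, mem_filter]
    have hnt : ¬ (p : ℤ) ∣ (t : ℤ) := by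
      intro hd
      have hd' : p ∣ t := by exact_mod_cast hd
      have := Nat.le_of_dvd (by omega) hd'
      omega
    unfold Qg at hm1 hm2
    rcases hm1 with h1 | h1 <;> rcases hm2 with h2 | h2
    · exfalso
      apply hnt
      have h3 := (Nat.dvd_add_right h1).1 h2
      exact_mod_cast h3
    · left
      refine ⟨hp1, hp2, ?_⟩
      have h3 : (p : ℤ) ∣ (m : ℤ) := by exact_mod_cast h1
      have h4 := dvd_add h2 h3
      push_cast at h4
      have e : (N : ℤ) - (m + t) + m = N - t := by ring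
      rwa [e] at h4
    · right
      refine ⟨hp1, hp2, ?_⟩
      have h3 : (p : ℤ) ∣ ((m + t : ℕ) : ℤ) := by exact_mod_cast h2
      have h4 := dvd_add h1 h3
      push_cast at h4
      have e : (N : ℤ) - m + (m + t) = N + t := by ring
      rwa [e] at h4
    · exfalso
      apply hnt
      have h4 := dvd_sub h1 h2
      push_cast at h4
      have e : (N : ℤ) - m - (N - (m + t)) = t := by ring
      rwa [e] at h4
  refine (card_le_card hsub).trans ((card_union_le _ _).trans ?_)
  have h1 := few T y C j ((N : ℤ) - t) (by omega) (by omega)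
    ((pz y).filter (fun p : ℕ => T < p ∧ (p : ℤ) ∣ (N : ℤ) - t)) (fun p hp => by
      rw [mem_filter] at hp
      exact ⟨(mem_pz.1 hp.1).2, hp.2⟩) hT h
  have h2 := few T y C j ((N : ℤ) + t) (by omega) (by omega)
    ((pz y).filter (fun p : ℕ => T < p ∧ (p : ℤ) ∣ (N : ℤ) + t)) (fun p hp => by
      rw [mem_filter] at hp
      exact ⟨(mem_pz.1 hp.1).2, hp.2⟩) hT h
  omega

/-- the number of the collisions is small -/
lemma sizes (cu κ η' : ℝ) (hcu : 0 < cu) (hκ : 0 < κ) (hη : 0 < η') (T0 C : ℕ) (v X : ℝ) (hv : 0 < v)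
    (hX : 0 ≤ X) :
    ∃ y₀ : ℕ, 3 ≤ y₀ ∧ ∀ y : ℕ, y₀ ≤ y → (cu / Real.log y ≤ κ) ∧ ∀ T : ℕ, κ ≤ T * (cu / Real.log y) →
      T0 ≤ T ∧ 1 ≤ T ∧ (T * (v / Real.log y ^ 2) ≤ X → T < y) ∧
      ∃ j : ℕ, y ^ C < T ^ (j + 1) ∧ ((2 * j : ℕ) : ℝ) ≤ η' * T := by
  -- `log T` is large
  obtain ⟨Z, hZ⟩ : ∃ Z : ℝ, Z = 2 * C * cu / (κ * η') := ⟨_, rfl⟩
  have hZ0 : 0 ≤ Z := by rw [hZ]; positivity
  obtain ⟨B, hB⟩ : ∃ B : ℝ, B = Real.exp (Z + 1) + T0 + 1 := ⟨_, rfl⟩
  have hB1 : 1 ≤ B := by
    rw [hB]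
    have := Real.exp_pos (Z + 1)
    have h2 : (0 : ℝ) ≤ T0 := Nat.cast_nonneg _
    linarith
  have hlo := (isLittleO_log_rpow_rpow_atTop (2 : ℝ) (by norm_num : (0 : ℝ) < 1)).comp_tendsto
    tendsto_natCast_atTop_atTop
  have hb := hlo.bound (by positivity : (0 : ℝ) < 1 / (X / v + 1))
  obtain ⟨y1, hy1⟩ := Filter.eventually_atTop.1 hb
  obtain ⟨y2, hy2⟩ : ∃ y2 : ℕ, Real.exp (max (cu / κ) (cu * B / κ)) ≤ y2 := exists_nat_ge _
  refine ⟨max 3 (max y1 y2), le_max_left _ _, fun y hy => ?_⟩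
  have hy3 : 3 ≤ y := (le_max_left _ _).trans hy
  have hyy1 : y1 ≤ y := ((le_max_left _ _).trans (le_max_right _ _)).trans hy
  have hyy2 : (y2 : ℝ) ≤ y := by exact_mod_cast ((le_max_right _ _).trans (le_max_right _ _)).trans hy
  have hlog : max (cu / κ) (cu * B / κ) ≤ Real.log y := by
    have h2 := Real.log_le_log (Real.exp_pos _) (hy2.trans hyy2)
    rwa [Real.log_exp] at h2
  have hl1 : cu / κ ≤ Real.log y := (le_max_left _ _).trans hlog
  have hl2 : cu * B / κ ≤ Real.log y := (le_max_right _ _).trans hlog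
  have hl0 : 0 < Real.log y := lt_of_lt_of_le (by positivity) hl1
  have hyr : (3 : ℝ) ≤ y := by exact_mod_cast hy3
  refine ⟨?_, fun T hT => ?_⟩
  · rw [div_le_iff₀ hl0]
    rw [div_le_iff₀ hκ] at hl1
    linarith
  have hTl : κ * Real.log y ≤ T * cu := by
    rw [← mul_div_assoc, le_div_iff₀ hl0] at hT
    exact hT
  have hTB : B ≤ T := by
    rw [div_le_iff₀ hκ] at hl2
    have h1 : cu * B ≤ cu * T := by linarith
    exact le_of_mul_le_mul_left h1 hcu
  have hT0 : (T0 : ℝ) ≤ T := by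
    have := Real.exp_pos (Z + 1)
    rw [hB] at hTB
    linarith
  have hT1 : (1 : ℝ) ≤ T := hB1.trans hTB
  have hlT : Z + 1 ≤ Real.log T := by
    have h1 : Real.exp (Z + 1) ≤ T := by
      have h2 : (0 : ℝ) ≤ T0 := Nat.cast_nonneg _
      rw [hB] at hTB
      linarith
    have h2 := Real.log_le_log (Real.exp_pos _) h1
    rwa [Real.log_exp] at h2
  have hlT0 : 0 < Real.log T := by linarith
  refine ⟨by exact_mod_cast hT0, by exact_mod_cast hT1, ?_, ?_⟩
  · intro hTX
    have h1 := hy1 y hyy1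
    simp only [Function.comp_def] at h1
    rw [Real.norm_of_nonneg (by positivity), Real.norm_of_nonneg (by positivity), Real.rpow_one] at h1
    have h2 : Real.log (y : ℝ) ^ (2 : ℝ) = Real.log y ^ 2 := by
      rw [← Real.rpow_natCast]
      norm_num
    rw [h2] at h1
    have h3 : (T : ℝ) * v ≤ X * Real.log y ^ 2 := by
      rw [← mul_div_assoc, div_le_iff₀ (by positivity)] at hTX
      exact hTX
    have h4 : (T : ℝ) ≤ X / v * Real.log y ^ 2 := by
      rw [div_mul_eq_mul_div, le_div_iff₀ hv]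
      exact h3
    have hXv : 0 ≤ X / v := by positivity
    have h5 : (X / v + 1) * Real.log y ^ 2 ≤ y := by
      calc (X / v + 1) * Real.log y ^ 2 ≤ (X / v + 1) * (1 / (X / v + 1) * y) :=
            mul_le_mul_of_nonneg_left h1 (by positivity)
        _ = y := by field_simp
    have h6 : 0 < Real.log (y : ℝ) ^ 2 := by positivity
    have h7 : (T : ℝ) < y := by nlinarith
    exact_mod_cast h7
  · refine ⟨⌊(C : ℝ) * Real.log y / Real.log T⌋₊, ?_, ?_⟩
    · have h1 : (C : ℝ) * Real.log y / Real.log T < (⌊(C : ℝ) * Real.log y / Real.log T⌋₊ + 1 : ℕ) := by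
        exact_mod_cast Nat.lt_floor_add_one _
      rw [div_lt_iff₀ hlT0] at h1
      have h2 : Real.log ((y : ℝ) ^ C) <
          Real.log ((T : ℝ) ^ (⌊(C : ℝ) * Real.log y / Real.log T⌋₊ + 1)) := by
        rw [Real.log_pow, Real.log_pow]
        exact h1
      have h3 := (Real.log_lt_log_iff (by positivity) (by positivity)).1 h2
      exact_mod_cast h3
    · have h1 : ((⌊(C : ℝ) * Real.log y / Real.log T⌋₊ : ℕ) : ℝ) ≤ (C : ℝ) * Real.log y / Real.log T :=
        Nat.floor_le (by positivity)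
      push_cast
      have h2 : (C : ℝ) * Real.log y / Real.log T ≤ η' * T / 2 := by
        rw [div_le_iff₀ hlT0]
        have h3 : Real.log y ≤ T * cu / κ := by
          rw [le_div_iff₀ hκ]
          linarith
        have hC0 : (0 : ℝ) ≤ C := Nat.cast_nonneg _
        have h4 : Z ≤ Real.log T := by linarith
        calc (C : ℝ) * Real.log y ≤ C * (T * cu / κ) := mul_le_mul_of_nonneg_left h3 hC0
          _ = η' * T / 2 * Z := by rw [hZ]; field_simp
          _ ≤ η' * T / 2 * Real.log T := mul_le_mul_of_nonneg_left h4 (by positivity)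
      linarith

open Classical in
theorem result : ∀ b : ℕ, 2 ≤ b → ∀ Λ ε : ℝ, 0 < ε → ∃ L : ℕ, 1 ≤ L ∧ ∀ C : ℕ,
    ∃ y₀ k₀ : ℕ, ∀ k : ℕ, k₀ ≤ k → ∀ D : Fin k → Finset ℕ, DigitSets b k D →
      ∀ y : ℕ, y₀ ≤ y → y ^ L ≤ b ^ k → ∀ N : ℕ, Even N → y ≤ N → N ≤ y ^ C →
      ((∃ i : Fin k, (i : ℕ) = 0 ∧ ∃ d ∈ D i, Int.gcd ((d : ℤ) * ((N : ℤ) - d)) b = 1) →
        (Restricted b k D).card * V N y / (2 * b) ≤ ((Start b k D N y).card : ℝ)) ∧
      (∀ T : ℕ, T * V N y ≤ Λ → ∀ A : Finset ℕ,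
        |(((Start b k D N y).filter (fun m => next N y T m ∈ A)).card : ℝ) -
          (Start b k D N y).card * poisson (T * V N y) A| ≤ ε * (Start b k D N y).card) ∧
      (∀ T : ℕ, T * V N y ≤ Λ → ∀ A : Finset ℕ,
        |(((Restricted b k D).filter (fun m => next N y T m ∈ A)).card : ℝ) -
          (Restricted b k D).card * poisson (T * V N y) A| ≤ ε * (Restricted b k D).card) := by
  intro b hb Λ ε hε
  obtain ⟨L, k₀, T0, w, η', κ, hL, hη', hκ, hmain⟩ := law_win2 hb 2 Λ ε hε
  obtain ⟨L', k₀', hL', hlow⟩ := Fx_low hb 2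
  obtain ⟨cl, cu, hcl, hcu, hVz⟩ := Vz_bounds
  obtain ⟨v, hv, hVlow⟩ := V_lower_unif 2
  refine ⟨L + L', by omega, fun C => ?_⟩
  obtain ⟨y₁, hy₁, hsizes⟩ := sizes cu κ η' hcu hκ hη' T0 (C + 1) v (max Λ 1) hv
    (zero_le_one.trans (le_max_right _ _))
  refine ⟨max y₁ w, max k₀ k₀', ?_⟩
  intro k hk D hD y hy hyL N hN hyN hNy
  have hyy1 : y₁ ≤ y := by omega
  have hy3 : 3 ≤ y := by omega
  have hyw : w ≤ y := by omega
  have hyL1 : y ^ L ≤ b ^ k := (Nat.pow_le_pow_right (by omega) (by omega)).trans hyL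
  have hyL2 : y ^ L' ≤ b ^ k := (Nat.pow_le_pow_right (by omega) (by omega)).trans hyL
  obtain ⟨hs1, hs2⟩ := hsizes y hyy1
  have hVup : Vq (Qg N) y ≤ cu / Real.log y := by
    rw [V_eq]
    exact (V_le N y).trans (hVz y (by omega)).2
  have hVlo : v / Real.log y ^ 2 ≤ Vq (Qg N) y :=
    hVlow (Qg N) (perB_Qg N) (fun p hp => adm_Qg N hN p hp) y (by omega)
  have hStart : Fx (Qg N) y (Pool.Agent.Q263.MD.Dig b k D) = Start b k D N y := by
    unfold Fx Start
    apply Finset.filter_congr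
    intro n _
    exact Sf_iff N y n
  have hnext : ∀ T m, Nw (Qg N) y T m = next N y T m := fun T m =>
    Pool.Agent.Q263.PL.Nw_eq _ _ _ _ _ (Sf_iff N y)
  have hcoll : ∀ T : ℕ, κ ≤ T * Vq (Qg N) y → T * Vq (Qg N) y ≤ max Λ 1 → T0 ≤ T ∧
      ∀ t ∈ Icc 1 T, ((((pz y).filter (fun p : ℕ => T < p ∧ CoG (Qg N) p t)).card : ℕ) : ℝ) ≤ η' * T := by
    intro T h1 h2
    have h1' : κ ≤ T * (cu / Real.log y) :=
      h1.trans (mul_le_mul_of_nonneg_left hVup (Nat.cast_nonneg _))
    obtain ⟨g1, g2, g3, j, g4, g5⟩ := hs2 T h1'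
    have hTy : T < y := g3 ((mul_le_mul_of_nonneg_left hVlo (Nat.cast_nonneg _)).trans h2)
    refine ⟨g1, fun t ht => ?_⟩
    have hNT : N + T ≤ y ^ (C + 1) := by
      have h3 : 1 ≤ y ^ C := Nat.one_le_pow _ _ (by omega)
      calc N + T ≤ y ^ C + y := by omega
        _ ≤ y ^ C * 3 := by
          rcases Nat.eq_zero_or_pos C with hC | hC
          · rw [hC, pow_zero] at hNy ⊢
            omega
          · have : y ≤ y ^ C := Nat.le_self_pow hC.ne' y
            omega
        _ ≤ y ^ C * y := Nat.mul_le_mul_left _ hy3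
        _ = _ := (pow_succ y C).symm
    have h3 := coll N T y (C + 1) j (by omega) hNT g2 g4 t ht
    have h4 : ((((pz y).filter (fun p : ℕ => T < p ∧ CoG (Qg N) p t)).card : ℕ) : ℝ) ≤ ((2 * j : ℕ) : ℝ) := by
      exact_mod_cast h3
    exact h4.trans g5
  refine ⟨?_, ?_, ?_⟩
  · rintro ⟨i, hi, d, hd, hcop⟩
    have h := hlow k (by omega) D (fun i => (hD i).1) (fun i => (hD i).2) y hyL2 _ (perB_Qg N)
      ⟨i, hi, d, hd, fun p hp hpb hq => by
        have h4 : (p : ℤ) ∣ (d : ℤ) * ((N : ℤ) - d) := by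
          rcases hq with h3 | h3
          · exact Dvd.dvd.mul_right (by exact_mod_cast h3) _
          · exact Dvd.dvd.mul_left h3 _
        have h5 : (p : ℤ) ∣ (Int.gcd ((d : ℤ) * ((N : ℤ) - d)) b : ℤ) :=
          Int.dvd_coe_gcd h4 (by exact_mod_cast hpb)
        rw [hcop] at h5
        have h6 : p ∣ 1 := by exact_mod_cast h5
        exact hp.one_lt.ne' (Nat.dvd_one.1 h6)⟩
    rw [V_eq, hStart] at h
    exact h
  · intro T hT A
    have h := hmain k (by omega) D (fun i => (hD i).1) (fun i => (hD i).2) y (Qg N) (Qg N) hyL1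
      (perB_Qg N) (perB_Qg N) (fun p hp => adm_Qg N hN p hp) hyw (hVup.trans hs1)
      (fun T' h1 h2 => ⟨(hcoll T' h1 h2).1, fun t ht => ⟨(hcoll T' h1 h2).2 t ht,
        (hcoll T' h1 h2).2 t ht⟩⟩) T (by rw [V_eq]; exact hT) A
    rw [hStart, V_eq] at h
    simp only [hnext] at h
    exact h
  · intro T hT A
    have h := hmain k (by omega) D (fun i => (hD i).1) (fun i => (hD i).2) y (fun _ _ => False) (Qg N)
      hyL1 ⟨fun _ _ => Iff.rfl, fun p _ => by
        have : nuB (fun _ _ => False) p = 0 := by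
          unfold nuB
          simp
        omega⟩ (perB_Qg N) (fun p hp => adm_Qg N hN p hp) hyw (hVup.trans hs1)
      (fun T' h1 h2 => ⟨(hcoll T' h1 h2).1, fun t ht => ⟨(hcoll T' h1 h2).2 t ht, by
        have : (pz y).filter (fun p : ℕ => T' < p ∧ CoP (fun _ _ => False) (Qg N) p t) = ∅ := by
          rw [filter_eq_empty_iff]
          rintro p _ ⟨_, m, h3, _⟩
          exact h3
        rw [this, card_empty, Nat.cast_zero]
        positivity⟩⟩) T (by rw [V_eq]; exact hT) A
    have hFx : Fx (fun _ _ => False) y (Pool.Agent.Q263.MD.Dig b k D) = Restricted b k D := by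
      unfold Fx
      rw [filter_true_of_mem]
      · rfl
      · intro n _
        unfold Sf
        intro p _ h
        exact h
    rw [hFx, V_eq] at h
    simp only [hnext] at h
    exact h

end Pool.Agent.Results.MP_7b7e48_nt.NextDecomposition
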