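import Pool.Agent.Q236.GW.Sing

set_option autoImplicit false

/-!
# Goldbach's problem with almost primes, for EVERY even number: the singular series and the Poisson law

Let `n` be even. Call `m` good if no prime `p ≤ n ^ (1 / r)` divides `m (n - m)`; for `0 < m < n` this is a
decomposition `n = m + (n - m)` into two numbers with at most `r` prime factors, all of them larger than
`n ^ (1 / r)`. The density `V` of the good numbers is `(r exp (-γ)) ^ 2 𝔖(n) / log ^ 2 n`, with the singular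
series `𝔖(n)` of Hardy and Littlewood. In every interval `(Z, Z + Y]`, `Y ≥ n ^ θ`, the distances of the good
numbers to their `k`-th predecessors, multiplied by `V`, have the law of the `k`-th point of a Poisson
process of intensity one, up to `ε`, for EVERY large even number `n`.
-/

namespace Pool.Agent.Results.MP_7b7e48_nt.PoissonGaps

open Finset Filter

/-- No prime `p ≤ n ^ (1 / r)` divides `m (n - m)`. -/
def Good (n r m : ℕ) : Prop :=
  ∀ p : ℕ, p.Prime → (p : ℝ) ≤ (n : ℝ) ^ (1 / (r : ℝ)) → ¬ (p : ℤ) ∣ (m : ℤ) * ((n : ℤ) - m)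

/-- The density of the good numbers: the product of `1 - ρ(p) / p` over the primes `p ≤ n ^ (1 / r)`, where
`ρ(p) = 1` if `p ∣ n` and `ρ(p) = 2` otherwise. -/
noncomputable def V (n r : ℕ) : ℝ :=
  ∏ p ∈ (Finset.Icc 1 ⌊(n : ℝ) ^ (1 / (r : ℝ))⌋₊).filter Nat.Prime,
    (1 - (if p ∣ n then (1 : ℝ) else 2) / p)

/-- The twin prime constant: the infimum (the limit) of the decreasing products of `1 - 1 / (p - 1) ^ 2`
over the primes `3 ≤ p ≤ z`. -/
noncomputable def C₂ : ℝ := ⨅ z : ℕ, ∏ p ∈ (Finset.Icc 3 z).filter Nat.Prime, (1 - 1 / ((p : ℝ) - 1) ^ 2)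

/-- The singular series `2 C₂ ∏_{p ∣ n, p > 2} (p - 1) / (p - 2)`. -/
noncomputable def 𝔖 (n : ℕ) : ℝ :=
  2 * C₂ * ∏ p ∈ n.primeFactors.filter (fun p => 2 < p), ((p : ℝ) - 1) / ((p : ℝ) - 2)

open Classical in
/-- The number of the good `m` in `(Z, Z + Y]` with fewer than `k` good numbers in `[m - T, m)`. -/
noncomputable def G (n r k T Z Y : ℕ) : ℕ :=
  ((Finset.Ioc Z (Z + Y)).filter (fun m => Good n r m ∧
    ((Finset.Ico (m - T) m).filter (fun l => Good n r l)).card < k)).card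

open Pool.Agent.W123.RP Pool.Agent.H373R2.T7 Pool.Agent.W123.RU Pool.Agent.TH464.PO
open Pool.Agent.Y879.AP Pool.Agent.Y879.GL Pool.Agent.Q236.GW
open Pool.Agent.W123.RU.Poly (Q)

lemma V_eq (n r : ℕ) : V n r = VG n ⌊(n : ℝ) ^ (1 / (r : ℝ))⌋₊ := (VG_eq n _).symm

lemma S_eq (n : ℕ) : 𝔖 n = SG n := rfl

lemma good_iff (n r m : ℕ) : Sf (Q (pf (-1) (n : ℤ) 1 0)) ⌊(n : ℝ) ^ (1 / (r : ℝ))⌋₊ m ↔ Good n r m := by
  have h0 : (0 : ℝ) ≤ (n : ℝ) ^ (1 / (r : ℝ)) := by positivity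
  have key : ∀ q : ℕ, q.Prime → (Q (pf (-1) (n : ℤ) 1 0) q m ↔ (q : ℤ) ∣ (m : ℤ) * ((n : ℤ) - m)) := by
    intro q hq
    rw [pf_Q (-1) (n : ℤ) 1 0 q m hq]
    unfold Q2
    have e : ((1 * m + 0 : ℕ) : ℤ) * (-1 * ((1 * m + 0 : ℕ) : ℤ) + n) = (m : ℤ) * ((n : ℤ) - m) := by
      push_cast
      ring
    rw [e]
  constructor
  · intro h q hq hqn hd
    exact h q (mem_pz.2 ⟨Nat.le_floor hqn, hq⟩) ((key q hq).2 hd)
  · intro h q hq hd
    have hqq := (mem_pz.1 hq).2
    exact h q hqq (mem_pz' h0 hq) ((key q hqq).1 hd)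

lemma few (n r m : ℕ) (hr : 1 ≤ r) (hn : 1 ≤ n) (hm : 0 < m) (hmn : m ≤ n)
    (h : ∀ p : ℕ, p.Prime → p ∣ m → (n : ℝ) ^ (1 / (r : ℝ)) < (p : ℝ)) :
    m.primeFactorsList.length ≤ r := by
  have hr0 : (r : ℝ) ≠ 0 := by exact_mod_cast (by omega : r ≠ 0)
  have hn1 : (1 : ℝ) ≤ n := by exact_mod_cast hn
  have hz1 : 1 ≤ (n : ℝ) ^ (1 / (r : ℝ)) := Real.one_le_rpow hn1 (by positivity)
  apply length_le m r (by omega) _ h _ hz1
  have e : ((n : ℝ) ^ (1 / (r : ℝ))) ^ r = n := by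
    rw [← Real.rpow_natCast, ← Real.rpow_mul (by linarith), one_div, inv_mul_cancel₀ hr0, Real.rpow_one]
  rw [pow_succ, e]
  have hmn' : (m : ℝ) ≤ n := by exact_mod_cast hmn
  nlinarith

/-- **Goldbach's problem with almost primes: the Poisson law for EVERY large even number.** -/
theorem result :
    (∀ n r m : ℕ, 1 ≤ r → 0 < m → m < n → Good n r m →
      m.primeFactorsList.length ≤ r ∧ (n - m).primeFactorsList.length ≤ r) ∧
    (∀ r : ℕ, 2 ≤ r → ∀ δ : ℝ, 0 < δ → ∀ᶠ n : ℕ in atTop, Even n →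
      |V n r * Real.log n ^ 2 - (r * Real.exp (-Real.eulerMascheroniConstant)) ^ 2 * 𝔖 n| ≤ δ * 𝔖 n) ∧
    ∀ θ : ℝ, 0 < θ → ∀ (k₀ : ℕ) (x₀ ε : ℝ), 0 < ε → ∃ r₀ : ℕ, ∀ r : ℕ, r₀ ≤ r →
      ∀ᶠ n : ℕ in atTop, Even n → ∀ Z Y : ℕ, (n : ℝ) ^ θ ≤ Y →
        ∀ k T : ℕ, (k ≤ k₀ ∨ T * V n r ≤ x₀) →
          |(G n r k T Z Y : ℝ) - Y * V n r *
              ∑ j ∈ Finset.range k, Real.exp (-(T * V n r)) * (T * V n r) ^ j / (j.factorial : ℝ)| ≤
            ε * (Y * V n r) := by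
  refine ⟨?_, ?_, ?_⟩
  · intro n r m hr hm hmn hG
    have hc : (n : ℤ) - m = ((n - m : ℕ) : ℤ) := by rw [Nat.cast_sub hmn.le]
    refine ⟨few n r m hr (by omega) hm hmn.le (fun p hp hd => ?_),
      few n r (n - m) hr (by omega) (by omega) (by omega) (fun p hp hd => ?_)⟩
    · by_contra hcon
      rw [not_lt] at hcon
      exact hG p hp hcon (Dvd.dvd.mul_right (Int.natCast_dvd_natCast.2 hd) _)
    · by_contra hcon
      rw [not_lt] at hcon
      apply hG p hp hcon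
      rw [hc]
      exact Dvd.dvd.mul_left (Int.natCast_dvd_natCast.2 hd) _
  · intro r hr δ hδ
    filter_upwards [VG_asym r hr δ hδ] with n hn hev
    rw [V_eq, S_eq]
    exact hn hev
  · intro θ hθ k₀ x₀ ε hε
    obtain ⟨r₀, h⟩ := prog2_gap 1 (1 / 2) θ one_pos (by norm_num) hθ k₀ x₀ ε hε
    refine ⟨max r₀ 1, ?_⟩
    intro r hr
    filter_upwards [h r ((le_max_left _ _).trans hr), eventually_ge_atTop 3] with n hn hn3
    intro hev Z Y hY k T hkT
    have hn0 : (0 : ℝ) < n := by exact_mod_cast (by omega : 0 < n)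
    have hn1 : (1 : ℝ) < n := by exact_mod_cast (by omega : 1 < n)
    have e1 : Vq (Qn (Q2 (-1) (n : ℤ)) 1) ⌊(n : ℝ) ^ (1 / (r : ℝ))⌋₊ = V n r := (V_eq n r).symm
    have hmain := hn (-1) (n : ℤ) 1 0 (by norm_num) (by exact_mod_cast hev)
      (by exact_mod_cast (by omega : n ≠ 0)) (by
        rw [Real.rpow_one]
        have : |((n : ℤ) : ℝ)| = n := by
          push_cast
          exact abs_of_pos hn0
        exact this.le) le_rfl (by
        rw [Real.rpow_one]
        push_cast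
        exact_mod_cast (by omega : 1 ≤ n)) (by
        rw [Real.rpow_one]
        push_cast
        exact hn0.le) (Nat.coprime_one_left 0) isCoprime_one_left (by
        intro t ht htn heq
        have h1 : (n : ℤ) = t := by
          have h2 : ((n : ℤ)) ^ 2 = (t : ℤ) ^ 2 := by
            rw [heq]
            push_cast
            ring
          have h3 : (0 : ℤ) ≤ n := Int.natCast_nonneg n
          have h4 : (0 : ℤ) ≤ t := Int.natCast_nonneg t
          exact (sq_eq_sq₀ h3 h4).1 h2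
        have h2 : n = t := by exact_mod_cast h1
        rw [← h2] at htn
        have h5 : (n : ℝ) ^ (1 / 2 : ℝ) < (n : ℝ) ^ (1 : ℝ) :=
          Real.rpow_lt_rpow_of_exponent_lt hn1 (by norm_num)
        rw [Real.rpow_one] at h5
        linarith) Z Y hY k T (by
        rw [e1]
        exact hkT)
    rw [e1] at hmain
    have e3 : Pk (Sf (Q (pf (-1) (n : ℤ) 1 0))  ⌊(n : ℝ) ^ (1 / (r : ℝ))⌋₊) k T Z Y = G n r k T Z Y := by
      have e2 : Sf (Q (pf (-1) (n : ℤ) 1 0)) ⌊(n : ℝ) ^ (1 / (r : ℝ))⌋₊ = Good n r := by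
        funext m
        exact propext (good_iff n r m)
      unfold Pk G
      rw [e2]
    rw [e3] at hmain
    unfold Ck pw at hmain
    exact hmain

end Pool.Agent.Results.MP_7b7e48_nt.PoissonGaps
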