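import Pool.Agent.Q259.AS.Gol
import Pool.Agent.Q259.AS.Sel7

/-!
# Goldbach's conjecture near the dilates of typical points of self-similar measures

Definitions used. `Pool.Agent.H560R3.GB`: `g n`: the number of ordered representations of `n` as a sum of two
primes; `HL n = 2 C₂ ∏_{p ∣ n, p > 2} (p - 1) / (p - 2) * n / log ^ 2 n`: the prediction of Hardy and Littlewood.
`Pool.Agent.Q259.AS`: `SelfSim μ`: `μ` is a self-similar measure `μ = ∑ p i * (f i)_* μ` of finitely many maps
`f i x = ρ i * x + t i` with `0 < |ρ i| < 1` and `p i > 0`, not all with the same fixed point (that is, `μ` is not a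
point mass; overlaps are allowed and the ratios are arbitrary); `FourLp μ`: the Fourier transform of `μ` belongs to
`L^q` for some `q < ∞` (for instance because it is `O(|t| ^ (-δ))` for some `δ > 0`).
-/

set_option autoImplicit false

namespace Pool.Agent.Results.MP_7b7e48_nt.TypicalPoints

open MeasureTheory Filter Pool.Agent.H560R3.GB Pool.Agent.Q259.AS

/-- `n` is a sum of two distinct primes, and the number of its representations as a sum of two primes
agrees with the prediction of Hardy and Littlewood up to a relative error of at most `ε`. -/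
def Holds (ε : ℝ) (n : ℕ) : Prop :=
  |(g n : ℝ) - HL n| ≤ ε * HL n ∧ ∃ p q : ℕ, p.Prime ∧ q.Prime ∧ p ≠ q ∧ p + q = n

/-- Let `μ` be a probability measure on the line which is self-similar and not a point mass, or whose Fourier
transform belongs to some `L^q`, `q < ∞`. Let `a 1, a 2, ...` be arbitrary positive real numbers with
`log (a k) ≥ k ^ ρ` for large `k`, where `ρ > 0`, and let `Y k` be arbitrary sets of at most `k ^ T` real numbers `y`
with `|y| ≤ B a k`. Then `μ`-almost every `x` has the following property. For all `ε > 0` and `A`, for all large `k`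
and all `y` in `Y k`, every positive even integer `n` with `|n - (a k * x + y)| ≤ log (a k) ^ A` is a sum of two
distinct primes, and the number of its representations as a sum of two primes agrees with the prediction of Hardy and
Littlewood up to a relative error of at most `ε`. -/
theorem result (μ : Measure ℝ) [IsProbabilityMeasure μ] (hμ : SelfSim μ ∨ FourLp μ) (a : ℕ → ℝ) (ρ : ℝ) (hρ : 0 < ρ)
    (ha : ∀ᶠ k : ℕ in atTop, 0 < a k ∧ (k : ℝ) ^ ρ ≤ Real.log (a k)) (B T : ℕ) (Y : ℕ → Finset ℝ)
    (hY : ∀ᶠ k : ℕ in atTop, (Y k).card ≤ k ^ T ∧ ∀ y ∈ Y k, |y| ≤ B * a k) :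
    ∀ᵐ x ∂μ, ∀ ε : ℝ, 0 < ε → ∀ A : ℕ, ∀ᶠ k : ℕ in atTop, ∀ y ∈ Y k, ∀ n : ℕ, 0 < n → Even n →
      |(n : ℝ) - (a k * x + y)| ≤ Real.log (a k) ^ A → Holds ε n := by
  have h1 : ∀ m A : ℕ, ∀ᵐ x ∂μ, ∀ᶠ k : ℕ in atTop, ∀ y ∈ Y k, ∀ n ∈ {n : ℤ | 0 < n ∧ 2 ∣ n ∧
      ¬ (|(g n.toNat : ℝ) - HL n.toNat| ≤ 1 / ((m : ℝ) + 1) * HL n.toNat ∧
        ∃ p q : ℕ, p.Prime ∧ q.Prime ∧ p ≠ q ∧ p + q = n.toNat)},
      Real.log (a k) ^ A < |(n : ℝ) - (a k * x + y)| := by
    intro m A
    exact as_one (eng_goldbach (1 / ((m : ℝ) + 1)) (by positivity)) μ (niceM_of μ hμ) a ρ hρ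
      (ha.mono fun k h => h.2) (ha.mono fun k h => h.1) T A (B + 2) Y (hY.mono fun k h => h.1) (fun _ y => y)
      (by
        filter_upwards [hY, ha] with k h h2 y hy
        refine (h.2 y hy).trans (mul_le_mul_of_nonneg_right ?_ h2.1.le)
        push_cast
        linarith)
      (fun k _ => ⌈a k⌉₊)
      (by
        filter_upwards [ha, eventually_ge_atTop 1] with k h hk y _
        have h0 : 0 < Real.log (a k) :=
          lt_of_lt_of_le (Real.rpow_pos_of_pos (by exact_mod_cast hk) ρ) h.2
        have h1 : 1 < a k := (Real.log_pos_iff h.1.le).1 h0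
        have h3 := Nat.le_ceil (a k)
        have h4 := Nat.ceil_lt_add_one h.1.le
        have h5 : (0 : ℝ) ≤ B := Nat.cast_nonneg B
        simp only [id]
        push_cast
        constructor
        · nlinarith
        · nlinarith)
  have h2 := ae_all_iff.2 (fun m => ae_all_iff.2 (h1 m))
  filter_upwards [h2] with x hx ε hε A
  obtain ⟨m, hm⟩ := exists_nat_one_div_lt hε
  filter_upwards [hx m A] with k hk y hy n hn he hdist
  by_contra hcon
  have h3 := hk y hy (n : ℤ) ?_
  · push_cast at h3
    linarith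
  · refine ⟨by exact_mod_cast hn, by exact_mod_cast he.two_dvd, fun h => hcon ?_⟩
    rw [Int.toNat_natCast] at h
    refine ⟨h.1.trans (mul_le_mul_of_nonneg_right hm.le ?_), h.2⟩
    by_contra hneg
    push Not at hneg
    have h4 := h.1
    have h5 : (0 : ℝ) < 1 / ((m : ℝ) + 1) := by positivity
    have h6 := abs_nonneg ((g n : ℝ) - HL n)
    nlinarith [mul_neg_of_pos_of_neg h5 hneg]

end Pool.Agent.Results.MP_7b7e48_nt.TypicalPoints
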