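import Pool.Agent.Q99.SML9.Main

/-!
# Exponents modulo 4 of the Jones polynomials of powers of braids between virtual braids

Diagrams (starting library `Pool.Agent.H891R2.Jones.Diagram`): `Diagram P` (oriented link diagrams with
marked points `P`, on any surface), `Diagram.fPoly` (the normalised bracket `(-A^{-3})^{w(D)} ⟨D⟩`, all
loops counting equally), `Outer m` (the part of an oriented diagram outside a box through which `m`
strands run, with arbitrary directions), `Outer.close` (fills the rest of the box with vertical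
strands). `Pool.Agent.W705.JV.Defs`: `virt` (a virtual crossing in the box).

`Pool.Agent.Q99.SML.Defs`: `Word` (words in the letters `σ_j^{±1}`), `wperm m w` (the permutation of `w`;
`w` is pure if it is `1`). `Pool.Agent.Q99.SML3.Defs`: `VWord` (words in the `σ_j^{±1}` and the virtual
letters `v_j`), `familyV O w u n` (the product `w_0^{n_0} u_0 w_1^{n_1} u_1 ⋯ w_{k-1}^{n_{k-1}} u_{k-1}` is drawn
in the box of `O`).
-/

set_option autoImplicit false

namespace Pool.Agent.Results.MP_7bc610_gt.ExponentsModFour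

open Finset LaurentPolynomial Pool.Agent.H891R2.Jones Q99.SML Q99.SML3

/-- all exponents of `F` are congruent to `ρ` modulo 4, `F ∈ A^ρ ℤ[A^4, A^{-4}]` -/
def ExpMod (ρ : ℤ) (F : ℤ[T;T⁻¹]) : Prop := ∀ n : ℤ, F.coeff n ≠ 0 → (4 : ℤ) ∣ n - ρ

/-- Let `O_i`, `i < r`, be outsides of boxes with `m_i` strands, let `w_{i,j}`, `j < k`, be braid words, let
`P` be such that all `w_{i,j}^P` are pure, let `u_{i,j}`, `j < k`, be **virtual** braid words, let
`s ∈ ℤ^k`, and for `q ∈ ℤ^k` let `K_i(q)` be the virtual diagram obtained by drawing the product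
`w_{i,0}^{n_0} u_{i,0} ⋯ w_{i,k-1}^{n_{k-1}} u_{i,k-1}`, `n = s + P q`, in the box of `O_i`. Let `c_i` be Laurent
polynomials, `F(q) = ∑ c_i f(K_i(q))` (for instance `F(q) = f(K(q))`), `C = ∑ C(m_i, ⌊m_i / 2⌋)`, and
`ρ ∈ ℤ`.

Either all exponents of all `F(q)`, `q ∈ ℤ^k`, are congruent to `ρ` modulo 4, or for all finite sets
`A_0, …, A_{k-1}` of integers this holds for at most `(2 C - 1) ∑_j ∏_{l ≠ j} |A_l|` of the `F(q)`,
`q ∈ ∏ A_j`; for `k = 1` it holds for at most `2 C - 1` of all `F(q)`, `q ∈ ℤ`. -/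
theorem result {r k : ℕ} {m : Fin r → ℕ} (hm : ∀ i, 0 < m i) (O : ∀ i, Outer (m i))
    (w : Fin r → Fin k → Word) (u : Fin r → Fin k → VWord) (P : ℕ)
    (hP : ∀ i j, wperm (m i) (w i j) ^ P = 1) (s : Fin k → ℤ) (c : Fin r → ℤ[T;T⁻¹])
    (F : (Fin k → ℤ) → ℤ[T;T⁻¹])
    (hF : ∀ q, F q = ∑ i, c i * (familyV (O i) (w i) (u i) (s + (P : ℤ) • q)).close.fPoly)
    (ρ : ℤ) :
    (∀ q : Fin k → ℤ, ExpMod ρ (F q)) ∨
      ((∀ A : Fin k → Finset ℤ, {q : Fin k → ℤ | (∀ j, q j ∈ A j) ∧ ExpMod ρ (F q)}.ncard ≤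
          (2 * (∑ i, (m i).choose (m i / 2)) - 1) * ∑ j, ∏ l ∈ univ.erase j, #(A l)) ∧
        (k = 1 → {q : Fin k → ℤ | ExpMod ρ (F q)}.Finite ∧
          {q : Fin k → ℤ | ExpMod ρ (F q)}.ncard ≤ 2 * (∑ i, (m i).choose (m i / 2)) - 1)) := by
  classical
  have h := Q99.SML9.count_four hm O w u P hP s c ρ
  simp only [← hF] at h
  rcases h with h | h
  · exact Or.inl h
  refine Or.inr ⟨h, fun hk => ?_⟩
  subst hk
  set M := 2 * (∑ i, (m i).choose (m i / 2)) - 1 with hM
  have key : ∀ B : Finset (Fin 1 → ℤ), (∀ q ∈ B, ExpMod ρ (F q)) → #B ≤ M := by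
    intro B hB
    have h1 := h (fun _ => B.image (fun q => q 0))
    have h3 : ∑ j : Fin 1, ∏ l ∈ univ.erase j, #(B.image (fun q => q 0)) = 1 := by
      simp
    rw [h3, mul_one] at h1
    refine le_trans ?_ h1
    rw [← Set.ncard_coe_finset B]
    refine Set.ncard_le_ncard ?_ ?_
    · intro q hq
      refine ⟨fun j => ?_, hB q hq⟩
      rw [Subsingleton.elim j 0]
      exact Finset.mem_image_of_mem _ hq
    · apply (Fintype.piFinset fun _ : Fin 1 => B.image (fun q => q 0)).finite_toSet.subset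
      intro q hq
      rw [Finset.mem_coe, Fintype.mem_piFinset]
      exact hq.1
  have hfin : {q : Fin 1 → ℤ | ExpMod ρ (F q)}.Finite := by
    by_contra hinf
    obtain ⟨B, hB1, hB2⟩ := Set.Infinite.exists_subset_card_eq (Set.not_finite.1 hinf |> fun h => h)
      (M + 1)
    have := key B (fun q hq => hB1 hq)
    omega
  refine ⟨hfin, ?_⟩
  rw [Set.ncard_eq_toFinset_card _ hfin]
  exact key _ (fun q hq => by rwa [Set.Finite.mem_toFinset] at hq)

end Pool.Agent.Results.MP_7bc610_gt.ExponentsModFour
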