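import Pool.Agent.Q73.Semi.Tang

/-!
# The tangential speed of a non-elliptic semigroup is at most `1/2 log t + C`

The definitions (the disc, its hyperbolic distance, continuous semigroups of holomorphic self-maps,
the Denjoy-Wolff point, the projection onto the diameter and the tangential speed) are in
`Pool.Agent.Q73.Semi.Defs`.
-/

set_option autoImplicit false

open Set Filter Topology Q73.Semi

namespace Pool.Agent.Results.MP_7bc81b_an.LogBound

/-- **Theorem (positive answer to Q1).**  Let `(φ_t)` be a non-elliptic semigroup of the disc with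
Denjoy-Wolff point `τ`.  The closest point `π(z)` of the diameter exists and is unique for every `z`
in the disc, there is `C` with `v^T(t) ≤ 1/2 log t + C` for all `t ≥ 1`, and
`limsup_{t → ∞} (v^T(t) - 1/2 log t) < +∞`. -/
theorem result (φ : ℝ → ℂ → ℂ) (hφ : IsSemigroup φ) (_hne : IsNonElliptic φ) (τ : ℂ)
    (hτ : IsDenjoyWolff φ τ) :
    (∀ z ∈ Disc, ∃! p, IsProjection τ z p) ∧ (∀ z ∈ Disc, IsProjection τ z (proj τ z)) ∧
      (∃ C : ℝ, ∀ t, 1 ≤ t → tangentialSpeed φ τ t ≤ 1 / 2 * Real.log t + C) ∧
      limsup (fun t : ℝ => ((tangentialSpeed φ τ t - 1 / 2 * Real.log t : ℝ) : EReal)) atTop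
        < ⊤ := by
  obtain ⟨C, hC⟩ := tangentialSpeed_bound hφ hτ
  refine ⟨fun z hz => existsUnique_projection hτ.1 hz, fun z hz =>
    Classical.epsilon_spec (existsUnique_projection hτ.1 hz).exists, ⟨C, hC⟩, ?_⟩
  refine lt_of_le_of_lt (limsup_le_of_le (a := (C : EReal)) (by isBoundedDefault) ?_)
    (EReal.coe_lt_top C)
  filter_upwards [eventually_ge_atTop (1:ℝ)] with t ht
  have := hC t ht
  exact_mod_cast (by linarith : tangentialSpeed φ τ t - 1 / 2 * Real.log t ≤ C)

end Pool.Agent.Results.MP_7bc81b_an.LogBound
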