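import Mathlib
import Pool.Agent.Q283.NR.R10

/-!
# The ranks over the number fields inside almost every integer

`E_N : y² + N y = x³`, a curve over `ℚ` with complex multiplication, `3`-isogenous to `x³ + y³ = N`. A number
`N` is a BASE if it is cube-free, prime to `3`, not `±1` modulo `9`, with exactly one prime divisor `2` modulo
`3`. For a positive integer `D` let `D'` be the product of its prime divisors `1` modulo `3`, and `divs D` the
set of the divisors `1` modulo `9` of `D'²`. Let `d = (d_1, ..., d_n)` be a tuple in `divs D`, independent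
modulo cubes. The FIELDS of the tuple are all the number fields `F` generated by cube roots of the `d_i` and
the cube roots of unity in `F`: the (not Galois) field `ℚ(∛d_1, ..., ∛d_n)` of degree `3 ^ n` and its Galois
closure, of degree `2 · 3 ^ n`. The LARGE fields of `D` are generated by cube roots of ALL the numbers in
`divs D` and the cube roots of unity in the field; their degree is `#(divs D)` or twice this number.

* For every `D`, every tuple `d` inside `D` and all the fields `F` of the tuple, `r = [F : ℚ] / 3 ^ n` is `1` or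
  `2`, and `rank E_N(F) = r · ρ(N, d)`, where `ρ(N, d)` is the sum of the ranks of `E_N(ℚ)` and of all the
  twists of `E_N` by `d_1 ^ e_1 ⋯ d_n ^ e_n` (`e ≠ 0`). So `rank E_N(F) / [F : ℚ] = ρ(N, d) / 3 ^ n`.
* There is ONE set `S` of positive integers, of NATURAL DENSITY `1`, and of relative density `1` also in the
  thin set of the split numbers (`D = D'`), such that for EVERY base `N`, every `n` and `ε > 0` and all large
  `D` in `S`:
  (1) the mean of `rank E_N(F_d) / [F_d : ℚ]` over the tuples `d` of length `n` inside `D` is at most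
      `0.92 + rank E_N(ℚ) / 3 ^ n`, for any choice of fields `F_d` of the tuples;
  (2) the NEW RANK `rank E_N(F) - r · rank E_N(ℚ)` is less than the new degree `r (3 ^ n - 1)`, for all the
      fields of the tuple, for at least the share `1 - 0.998 ^ (3 ^ n - 1) - ε` of the tuples;
  (3) over all the large fields `K` of `D`, the rank of `E_N(K)` is less than `0.92 [K : ℚ]`; the numbers of
      their subfields and their degrees tend to infinity, and at least the share `0.56` of the twists of `E_N`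
      by the numbers in `divs D` has finitely many rational points.
-/

set_option autoImplicit false

open scoped Classical

namespace Pool.Agent.Results.MP_7cad78_nt.RanksInsideDivisors

open Filter

/-- The curve `E_N : y² + N y = x³` over `ℚ`. -/
def curve (N : ℕ) : WeierstrassCurve ℚ := ⟨0, 0, N, 0, 0⟩

/-- The base numbers: cube-free, prime to `3`, not `±1` modulo `9`, exactly one prime divisor is `2`
modulo `3`. -/
def IsBase (N : ℕ) : Prop :=
  N ≠ 0 ∧ ¬ 3 ∣ N ∧ (∀ p : ℕ, p.Prime → ¬ p ^ 3 ∣ N) ∧ N % 9 ≠ 1 ∧ N % 9 ≠ 8 ∧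
    ∃ q : ℕ, q.Prime ∧ q % 3 = 2 ∧ q ∣ N ∧ ∀ p : ℕ, p.Prime → p ∣ N → p ≠ q → p % 3 = 1

/-- The cube-free part of `n`. -/
def cubeFree (n : ℕ) : ℕ := ∏ p ∈ n.primeFactors, p ^ (n.factorization p % 3)

/-- The split numbers: squarefree, all prime divisors are `1` modulo `3`. -/
def Split (D : ℕ) : Prop := Squarefree D ∧ ∀ p : ℕ, p.Prime → p ∣ D → p % 3 = 1

/-- The product of the prime divisors `1` modulo `3` of `D`. -/
def splitPart (D : ℕ) : ℕ := ∏ p ∈ D.primeFactors.filter (fun p => p % 3 = 1), p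

/-- The divisors `1` modulo `9` of the square of the split part of `D`. -/
def divs (D : ℕ) : Finset ℕ := (splitPart D ^ 2).divisors.filter fun d => d % 9 = 1

/-- No product of the powers `d_i ^ e_i`, `e_i = 0, 1, 2`, is a cube, unless all the `e_i` are zero. -/
def Independent {n : ℕ} (d : Fin n → ℕ) : Prop :=
  ∀ e : Fin n → ZMod 3, e ≠ 0 → ∀ b : ℕ, ∏ i, d i ^ (e i).val ≠ b ^ 3

/-- The tuples inside `D`. -/
noncomputable def tuples (n D : ℕ) : Finset (Fin n → ℕ) :=
  (Fintype.piFinset fun _ : Fin n => divs D).filter Independent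

/-- `F` is generated by cube roots of the `d_i` and the cube roots of unity in `F`. -/
def IsMulticubic {n : ℕ} (d : Fin n → ℕ) (F : Type) [Field F] [NumberField F] : Prop :=
  ∃ θ : Fin n → F, (∀ i, θ i ^ 3 = (d i : F)) ∧
    IntermediateField.adjoin ℚ ({x : F | x ^ 3 = 1} ∪ Set.range θ) = ⊤

/-- `K` is generated by cube roots of all the numbers in `divs D` and the cube roots of unity in `K`. -/
def IsLarge (D : ℕ) (K : Type) [Field K] [NumberField K] : Prop :=
  ∃ θ : ℕ → K, (∀ x ∈ divs D, θ x ^ 3 = (x : K)) ∧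
    IntermediateField.adjoin ℚ ({x : K | x ^ 3 = 1} ∪ θ '' {x | x ∈ divs D}) = ⊤

/-- The rank of `E_N(F)`. -/
noncomputable def rank (N : ℕ) (F : Type) [Field F] [NumberField F] : ℕ :=
  Module.finrank ℤ ((curve N).baseChange F).toAffine.Point

/-- The sum of the ranks over `ℚ` of all the twists of `E_N` by the `d_1 ^ e_1 ⋯ d_n ^ e_n` (of their
cube-free parts). -/
noncomputable def rho {n : ℕ} (N : ℕ) (d : Fin n → ℕ) : ℕ :=
  ∑ e : Fin n → ZMod 3, rank (cubeFree (N * ∏ i, d i ^ (e i).val)) ℚ

/-- The share of the tuples inside `D` with the property `P`. -/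
noncomputable def share (n D : ℕ) (P : (Fin n → ℕ) → Prop) : ℝ :=
  (((tuples n D).filter P).card : ℝ) / (tuples n D).card

/-- The mean over the tuples inside `D`. -/
noncomputable def mean (n D : ℕ) (f : (Fin n → ℕ) → ℝ) : ℝ :=
  (∑ d ∈ tuples n D, f d) / (tuples n D).card

/-- the number of the `D ≤ X` with the property `P` -/
noncomputable def count (P : ℕ → Prop) (X : ℕ) : ℕ := ((Finset.Icc 1 X).filter P).card

section proof

open Q283.Q3B Q283.Q3N Q283.ND Q283.NJ Q283.NK Q283.NR

theorem curve_eq (N : ℕ) :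
    curve N = Pool.Agent.Y703.CT.EQ (Pool.Agent.Y703.CT.WD ((N : ℕ) : ℤ)) := by
  ext <;> simp [curve, Pool.Agent.Y703.CT.WD]

theorem base_iff (N : ℕ) : IsBase N ↔ Pool.Agent.Y703.CT.Cls N := by
  unfold IsBase Pool.Agent.Y703.CT.Cls Pool.Agent.Y703.CT.Base
  tauto

theorem rank_eq (N : ℕ) (F : Type) [Field F] [NumberField F] :
    rank N F = Cardinal.toNat (rF N F) := by
  unfold rank rF rk Module.finrank
  rw [curve_eq]

theorem tuples_eq (n D : ℕ) : tuples n D = Ik n (sp D) := by
  ext d
  rw [mem_Ik]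
  unfold tuples
  rw [Finset.mem_filter, Fintype.mem_piFinset]
  exact Iff.rfl

theorem dkk_card {ν : Type} [Fintype ν] (D : ℕ) :
    (DkK (fun _ : ν => 1) D).card = (Dk 1 D).card ^ Fintype.card ν := by
  unfold DkK
  rw [Fintype.card_piFinset, Finset.prod_const, Finset.card_univ]

theorem share_mono {n D : ℕ} {P Q : (Fin n → ℕ) → Prop} (h : ∀ d ∈ tuples n D, P d → Q d) :
    share n D P ≤ share n D Q := by
  unfold share
  refine div_le_div_of_nonneg_right ?_ (Nat.cast_nonneg _)
  rw [Nat.cast_le]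
  refine Finset.card_le_card fun d hd => ?_
  rw [Finset.mem_filter] at hd ⊢
  exact ⟨hd.1, h d hd.1 hd.2⟩

theorem share_not {n D : ℕ} (hne : (tuples n D).Nonempty) (P : (Fin n → ℕ) → Prop) :
    share n D P = 1 - share n D fun d => ¬ P d := by
  unfold share
  have hpos : (0 : ℝ) < (tuples n D).card := by exact_mod_cast Finset.card_pos.2 hne
  have h := Finset.card_filter_add_card_filter_not (s := tuples n D) (fun d => P d)
  have h' : (((tuples n D).filter fun d => P d).card : ℝ) +
      (((tuples n D).filter fun d => ¬ P d).card : ℝ) = (tuples n D).card := by exact_mod_cast h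
  rw [eq_sub_iff_add_eq, ← add_div]
  refine (congrArg (fun x : ℝ => x / ((tuples n D).card : ℝ)) ?_).trans (div_self hpos.ne')
  refine Eq.trans ?_ h'
  congr 2
  exact Pool.Agent.XLK.fcc fun _ _ => Iff.rfl

/-- the formula -/
theorem formula {n N D : ℕ} {d : Fin n → ℕ} (hN : Pool.Agent.Y703.CT.Cls N) (hd : d ∈ Ik n (sp D))
    (F : Type) [Field F] [NumberField F] (hF : IsMulticubic d F) :
    ∃ r : ℕ, (r = 1 ∨ r = 2) ∧ Module.finrank ℚ F = r * 3 ^ n ∧ rank N F = r * rho N d := by
  obtain ⟨θ, hθ, hgen⟩ := hF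
  have hex : ∀ e : Fin n → ZMod 3, ∃ f, Pool.Agent.Y703.CT.IsL
      (Pool.Agent.Y703.CT.WD ((cf (N * fo e d) : ℕ) : ℤ)) f := fun e => by
    obtain ⟨-, f, hf, -⟩ := Pool.Agent.Y703.CT.fin_all (cls_fo (e := e) hN (mem_Ik.1 hd).1).1
    exact ⟨f, hf⟩
  choose f hf using hex
  obtain ⟨r, hr, hdeg, hrk, -⟩ := field_gen hN hd hθ hgen hf
  refine ⟨r, hr, hdeg, ?_⟩
  rw [rank_eq, hrk]
  unfold rho
  congr 1

/-- the new part of the sum -/
theorem rho_le {n N D : ℕ} {d : Fin n → ℕ} (hN : Pool.Agent.Y703.CT.Cls N) (hd : d ∈ Ik n (sp D)) :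
    rho N d ≤ rank N ℚ + 2 * Gs N d := by
  unfold rho Gs
  rw [← Finset.add_sum_erase Finset.univ _ (Finset.mem_univ (0 : Fin n → ZMod 3)), Finset.mul_sum]
  have h0 : cubeFree (N * ∏ i, d i ^ ((0 : Fin n → ZMod 3) i).val) = N := by
    have h1 : cf (N * fo (0 : Fin n → ZMod 3) d) = N := by
      rw [fo_zero, mul_one]
      exact cf_self hN.1
    exact h1
  rw [h0]
  refine Nat.add_le_add_left ?_ _
  have h1 : (Finset.univ.erase (0 : Fin n → ZMod 3)) =
      Finset.univ.filter fun e : Fin n → ZMod 3 => e ≠ 0 := by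
    ext e
    rw [Finset.mem_erase, Finset.mem_filter]
    tauto
  rw [h1]
  refine Finset.sum_le_sum fun e _ => ?_
  rw [rank_eq]
  exact rQ_le (cls_fo hN (mem_Ik.1 hd).1).1

end proof

open Q283.Q3B Q283.Q3N Q283.ND Q283.NJ Q283.NK Q283.NR in
theorem result :
    (∀ (n N D : ℕ) (d : Fin n → ℕ), IsBase N → d ∈ tuples n D →
      ∀ (F : Type) [Field F] [NumberField F], IsMulticubic d F →
        ∃ r : ℕ, (r = 1 ∨ r = 2) ∧ Module.finrank ℚ F = r * 3 ^ n ∧ rank N F = r * rho N d) ∧
    (∀ D : ℕ, Split (splitPart D) ∧ (Split D → splitPart D = D)) ∧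
    ∃ S : ℕ → Prop, Tendsto (fun X : ℕ => (count S X : ℝ) / X) atTop (nhds 1) ∧
      Tendsto (fun X : ℕ => (count (fun D => Split D ∧ S D) X : ℝ) / count Split X) atTop (nhds 1) ∧
      ∀ (n N : ℕ), IsBase N → ∀ ε : ℝ, 0 < ε → ∃ D₀ : ℕ, ∀ D : ℕ, D₀ ≤ D → S D →
        (tuples n D).Nonempty ∧ (1 - ε) * ((divs D).card : ℝ) ^ n ≤ (tuples n D).card ∧
        mean n D (fun d => (rho N d : ℝ) / 3 ^ n) ≤
          0.92 * (1 - 1 / 3 ^ n) + (rank N ℚ : ℝ) / 3 ^ n ∧
        1 - 0.998 ^ (3 ^ n - 1) - ε ≤ share n D (fun d =>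
          ∀ (F : Type) [Field F] [NumberField F], IsMulticubic d F →
            ∀ r : ℕ, Module.finrank ℚ F = r * 3 ^ n → rank N F < r * rank N ℚ + r * (3 ^ n - 1)) ∧
        1 / ε < (divs D).card ∧
        (∀ (K : Type) [Field K] [NumberField K], IsLarge D K →
          (Module.finrank ℚ K = (divs D).card ∨ Module.finrank ℚ K = 2 * (divs D).card) ∧
          (rank N K : ℝ) < 0.92 * Module.finrank ℚ K) ∧
        0.56 * ((divs D).card : ℝ) ≤
          ((divs D).filter fun x => Finite (curve (cubeFree (N * x))).toAffine.Point).card := by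
  refine ⟨fun n N D d hN hd F _ _ hF => ?_, fun D => ⟨sp_ac D, fun h => sp_split h⟩, ?_⟩
  · rw [tuples_eq] at hd
    exact formula ((base_iff N).1 hN) hd F hF
  · obtain ⟨S, hS, hS', hJ, hG, hL⟩ := mainS
    refine ⟨S, ?_, Q155.NL.tendsto_of_alm (C := Dc) ⟨1, le_rfl, squarefree_one, fun p hp hd =>
      absurd (Nat.dvd_one.1 hd) hp.one_lt.ne'⟩ hS', fun n N hN ε hε => ?_⟩
    · have h1 := Q155.NL.tendsto_of_alm (C := fun _ => True) ⟨1, le_rfl, trivial⟩ hS
      refine h1.congr fun X => ?_
      have h2 : Q155.NL.cnt (fun _ => True) X = X := by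
        have h0 : Q155.NL.cs (fun _ => True) X = Finset.Icc 1 X := by
          ext D
          rw [Q155.NL.mem_cs, Finset.mem_Icc]
          exact ⟨fun h => h.1, fun h => ⟨h, trivial⟩⟩
        unfold Q155.NL.cnt
        rw [h0, Nat.card_Icc]
        omega
      rw [h2]
      congr 2
      unfold Q155.NL.cnt Q155.NL.cs count
      congr 1
      ext D
      simp
    · have hC : Pool.Agent.Y703.CT.Cls N := (base_iff N).1 hN
      have hmu := mu_lt
      have hc := Q283.ND.c3_lt.2
      obtain ⟨δ, hδ⟩ : ∃ δ : ℝ, δ = min ((0.92 - 2 * mu) / 4)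
        (Pool.Agent.Y703.CX.c3 - 0.56) := ⟨_, rfl⟩
      have hδ0 : 0 < δ := by
        rw [hδ]
        exact lt_min (by linarith) (by linarith)
      have hδ1 : δ ≤ (0.92 - 2 * mu) / 4 := by rw [hδ]; exact min_le_left _ _
      have hδ2 : δ ≤ Pool.Agent.Y703.CX.c3 - 0.56 := by rw [hδ]; exact min_le_right _ _
      obtain ⟨B, hB⟩ := exists_nat_gt (1 / ε)
      obtain ⟨D₀, hD₀⟩ := Filter.eventually_atTop.1
        ((((hJ 1 n (fun _ => N) (fun _ => hC) (fun j l h => absurd (Subsingleton.elim j l) h) ε hε).and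
          (hG n N hC ε hε)).and (hL N hC δ hδ0)).and (card_large hL B))
      refine ⟨D₀, fun D hD hSD => ?_⟩
      obtain ⟨⟨⟨k1, k2⟩, k3⟩, k4⟩ := hD₀ D hD
      obtain ⟨g1, g2, -⟩ := k1 hSD
      obtain ⟨g3, g4⟩ := k2 hSD
      have g5 := k3 hSD 1 (by rw [mul_one]; exact hC.2.1) (by rw [mul_one]; exact hC.2.2.1)
      have g6 := k4 hSD
      have hne' : (tuples n D).Nonempty := by rw [tuples_eq]; exact g2
      have hpos : (0 : ℝ) < (tuples n D).card := by exact_mod_cast Finset.card_pos.2 hne'
      have h3n : (0 : ℝ) < 3 ^ n := by positivity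
      have hcl : ∀ x ∈ Dk 1 (sp D), Pool.Agent.Y703.CT.Cls (cf (N * x)) := by
        intro x hx
        have h9 : N * x % 9 = N % 9 := by
          rw [Nat.mul_mod, ((mem_Dk (sp_sqf D)).1 hx).2, mul_one, Nat.mod_mod]
        exact Q283.ND.cls_cf hC (sp_ac D) ((mem_Dk (sp_sqf D)).1 hx).1 (by rw [h9]; exact hC.2.1)
          (by rw [h9]; exact hC.2.2.1)
      have hDpos : (0 : ℝ) < (Dk 1 (sp D)).card := by
        exact_mod_cast Finset.card_pos.2 (Q283.ND.one_mem (sp_ac D))
      refine ⟨hne', ?_, ?_, ?_, ?_, fun K _ _ hK => ?_, ?_⟩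
      · have h1 : ((DkK (fun _ : Fin n => 1) (sp D)).card : ℝ) = ((divs D).card : ℝ) ^ n := by
          have h2 : (DkK (fun _ : Fin n => 1) (sp D)).card = (divs D).card ^ n := by
            rw [dkk_card, Fintype.card_fin]
            rfl
          rw [h2]
          push_cast
          rfl
        rw [tuples_eq, ← h1]
        exact g1
      · unfold mean
        rw [div_le_iff₀ hpos, tuples_eq]
        have h1 : ∀ d ∈ Ik n (sp D), (rho N d : ℝ) / 3 ^ n ≤
            ((rank N ℚ : ℝ) + 2 * Gs N d) / 3 ^ n := by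
          intro d hd
          refine div_le_div_of_nonneg_right ?_ h3n.le
          exact_mod_cast rho_le hC hd
        refine (Finset.sum_le_sum h1).trans ?_
        rw [← Finset.sum_div, Finset.sum_add_distrib, ← Finset.mul_sum, Finset.sum_const,
          nsmul_eq_mul, div_le_iff₀ h3n]
        have h2 : ((3 ^ n - 1 : ℕ) : ℝ) = 3 ^ n - 1 := by
          rw [Nat.cast_sub (Nat.one_le_pow _ _ (by norm_num))]
          push_cast
          rfl
        rw [h2] at g4
        have h3 : (0.92 * (1 - 1 / 3 ^ n) + (rank N ℚ : ℝ) / 3 ^ n) * ((Ik n (sp D)).card : ℝ) *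
            3 ^ n = (0.92 * (3 ^ n - 1) + rank N ℚ) * (Ik n (sp D)).card := by
          field_simp
        rw [h3]
        nlinarith
      · have h1 : share n D (fun d => ¬ ∀ (F : Type) [Field F] [NumberField F], IsMulticubic d F →
            ∀ r : ℕ, Module.finrank ℚ F = r * 3 ^ n → rank N F < r * rank N ℚ + r * (3 ^ n - 1)) ≤
            share n D (fun d => 3 ^ n - 1 ≤ 2 * Gs N d) := by
          refine share_mono fun d hd h => ?_
          by_contra hlt
          apply h
          intro F _ _ hF r hr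
          rw [tuples_eq] at hd
          obtain ⟨r', hr', hdeg, hrk⟩ := formula hC hd F hF
          have h2 : r = r' := Nat.eq_of_mul_eq_mul_right (by positivity) (hr.symm.trans hdeg)
          subst h2
          have h3 := rho_le hC hd
          have h4 : rho N d < rank N ℚ + (3 ^ n - 1) := by omega
          rw [hrk, ← mul_add]
          exact Nat.mul_lt_mul_of_pos_left h4 (by omega)
        have h2 : share n D (fun d => 3 ^ n - 1 ≤ 2 * Gs N d) ≤ 0.998 ^ (3 ^ n - 1) + ε := by
          unfold share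
          rw [div_le_iff₀ hpos, tuples_eq]
          refine le_trans (le_of_eq ?_) g3
          rw [Nat.cast_inj]
          exact Pool.Agent.XLK.fcc fun _ _ => Iff.rfl
        rw [share_not hne']
        linarith
      · have h1 : (B : ℝ) < (divs D).card := by exact_mod_cast g6
        linarith
      · obtain ⟨θ, hθ, hgen⟩ := hK
        obtain ⟨r, hr, hdeg, hrk⟩ := kummer (N := N) hC hθ hgen
        have hdeg' : Module.finrank ℚ K = r * (divs D).card := hdeg
        refine ⟨?_, ?_⟩
        · rcases hr with rfl | rfl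
          · left
            rw [hdeg', one_mul]
          · right
            exact hdeg'
        · have h1 : ∑ x ∈ Dk 1 (sp D), Cardinal.toNat (rQ (cf (N * x))) ≤
              2 * ∑ x ∈ Dk 1 (sp D), rr (cf (N * x)) := by
            rw [Finset.mul_sum]
            exact Finset.sum_le_sum fun x hx => rQ_le (hcl x hx)
          have h2 : (∑ x ∈ Dk 1 (sp D), (Cardinal.toNat (rQ (cf (N * x))) : ℝ)) ≤
              2 * ∑ x ∈ Dk 1 (sp D), (rr (cf (N * x)) : ℝ) := by exact_mod_cast h1
          have h3 := (abs_le.1 g5.mean).2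
          have h4 : 2 * ∑ x ∈ Dk 1 (sp D), (rr (cf (N * x)) : ℝ) < 0.92 * (Dk 1 (sp D)).card := by
            have h5 : ∑ x ∈ Dk 1 (sp D), (rr (cf (N * x)) : ℝ) ≤ (mu + δ) * (Dk 1 (sp D)).card := by
              linarith
            have h6 : (mu + δ) * (Dk 1 (sp D)).card < 0.46 * ((Dk 1 (sp D)).card : ℝ) :=
              mul_lt_mul_of_pos_right (by linarith) hDpos
            linarith
          rw [rank_eq, hrk, hdeg]
          push_cast
          have hr0 : (0 : ℝ) < r := by
            rcases hr with rfl | rfl <;> norm_num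
          calc (r : ℝ) * ∑ x ∈ Dk 1 (sp D), (Cardinal.toNat (rQ (cf (N * x))) : ℝ) ≤
              r * (2 * ∑ x ∈ Dk 1 (sp D), (rr (cf (N * x)) : ℝ)) :=
                mul_le_mul_of_nonneg_left h2 hr0.le
            _ < r * (0.92 * (Dk 1 (sp D)).card) := mul_lt_mul_of_pos_left h4 hr0
            _ = 0.92 * (r * (Dk 1 (sp D)).card) := by ring
      · have h1 := (abs_le.1 (g5.law {0})).1
        have h2 : ms {0} = Pool.Agent.Y703.CX.c3 := by
          rw [ms_single, Q283.Q3.cq_zero]
        rw [h2] at h1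
        have h3 : ((Dk 1 (sp D)).filter fun x => rr (cf (N * x)) ∈ ({0} : Set ℕ)).card ≤
            ((divs D).filter fun x => Finite (curve (cubeFree (N * x))).toAffine.Point).card := by
          refine Finset.card_le_card fun x hx => ?_
          rw [Finset.mem_filter] at hx ⊢
          refine ⟨hx.1, ?_⟩
          have h4 := ((rr_triv (hcl x hx.1)).1 hx.2).1
          rw [curve_eq]
          exact h4
        have h4 : (((Dk 1 (sp D)).filter fun x => rr (cf (N * x)) ∈ ({0} : Set ℕ)).card : ℝ) ≤
            ((divs D).filter fun x => Finite (curve (cubeFree (N * x))).toAffine.Point).card := by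
          exact_mod_cast h3
        refine le_trans ?_ h4
        have h5 : ((divs D).card : ℝ) = (Dk 1 (sp D)).card := rfl
        rw [h5]
        have h6 := mul_le_mul_of_nonneg_right
          (by linarith : (0.56 : ℝ) ≤ Pool.Agent.Y703.CX.c3 - δ) hDpos.le
        rw [sub_mul] at h6
        have key : ∀ a b : ℕ, a = b → -(δ * ((Dk 1 (sp D)).card : ℝ)) ≤
            (a : ℝ) - Pool.Agent.Y703.CX.c3 * (Dk 1 (sp D)).card →
            0.56 * ((Dk 1 (sp D)).card : ℝ) ≤ b := by
          rintro a b rfl h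
          linarith
        exact key _ _ (Pool.Agent.XLK.fcc fun _ _ => Iff.rfl) h1

end Pool.Agent.Results.MP_7cad78_nt.RanksInsideDivisors
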