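import Pool.Agent.Q161.ESN.Fin

/-!
# The distribution of the ranks of ALL quadratic twists of ANY elliptic curve without 2-torsion over EVERY number field

Let `F` be a number field, `E_i : y² = x³ + a_i x + b_i`, `1 ≤ i ≤ r`, elliptic curves over `F` without `F`-rational point of
order two, and `R(D)` the sum of the ranks over `F` of their quadratic twists by `D ∈ F^*`.  The twists are ordered by
`oddNorm D`, the norm of the product of the prime ideals of `F` at which the valuation of `D` is odd.  We prove: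

* there is a function `ψ` with `a^n ψ(n) → 0` for all `a` such that for all `X` the proportion of the quadratic twists up to
  `X` with `R(D) ≥ n` is at most `ψ(n)` for all `n`; the averages of `a^R(D)`, so also of all powers of `R(D)`, over the
  twists up to `X` are bounded, for every `a`;
* for all `A, ε` the number of the twists up to `X` with `R(D) > ε log log X` is `O(X / (log X)^A)`;
* for all `A, ε` the average of `R(D)` over ANY set of at least `X / (log X)^A` twists up to `X` is at most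
  `ε log log X + O(1)`.

(The number of the primes dividing `D` is about `log log X` for most `D`, and this is the order of the bounds which follow
directly from a descent.)

The proof (projects ESM, ESF, ESN; `Pool/Agent/Q161`) bounds all moments of the orders of the 2-Selmer groups: the
2-descent over `F`, a system of quadratic characters of ray classes of `F` and of fields containing `F` attached to the
elements of a finite semisimple Galois module, and high moments of these characters.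
Project of helper161 with helpers 14, 24, 26, 38, 63, 65, 68, 79, 92, 96, 121, 123, 124, 129, 147, 149, 150, 151, 153, 166,
177, 182, 184, 190, 193, 195, 208, 211, 223, 224, 237, 238, 241, 261, 275, 285, 299.
-/

set_option autoImplicit false

namespace Pool.Agent.Results.MP_7cad78_nt.RanksOfAllTwists

open Finset NumberField Pool.Agent.Q161.ESN

open scoped Classical

/-- the sum of the ranks over `F` of the twists by `D` of the curves `y² = x³ + a i x + b i` -/
noncomputable def rankSum {F : Type} [Field F] [NumberField F] {r : ℕ} (a b : Fin r → F) (D : F) : ℕ :=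
  ∑ i, rank (a i) (b i) D

/-- the number of the `D ∈ 𝒟` with the property `p` -/
noncomputable def num {F : Type} (𝒟 : Finset F) (p : F → Prop) : ℝ := ((𝒟.filter p).card : ℝ)

section aux

variable {F : Type} [Field F] [NumberField F] {r : ℕ} {a b : Fin r → F}

theorem base (h : ∀ i, ∀ x : F, x ^ 3 + a i * x + b i ≠ 0) (k : ℕ) :
    ∃ C : ℝ, 0 < C ∧ ∀ X : ℝ, 1 ≤ X → ∀ 𝒟 : Finset F,
      (Twists X 𝒟 → (∑ D ∈ 𝒟, (2 : ℝ) ^ (k * rankSum a b D) ≤ C * X) ∧
        (∑ D ∈ 𝒟, (rankSum a b D : ℝ) ^ k ≤ C * X) ∧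
        (∀ n : ℕ, ((𝒟.filter (fun D => n ≤ rankSum a b D)).card : ℝ) ≤ C * X / 2 ^ (k * n)) ∧
        (𝒟.Nonempty → k * ∑ D ∈ 𝒟, (rankSum a b D : ℝ) ≤
          𝒟.card * Real.logb 2 (C * X / 𝒟.card))) ∧
      (AllTwists X 𝒟 → (∑ D ∈ 𝒟, (2 : ℝ) ^ (k * rankSum a b D) ≤ C * 𝒟.card) ∧
        (∑ D ∈ 𝒟, (rankSum a b D : ℝ) ^ k ≤ C * 𝒟.card) ∧
        ∀ n : ℕ, ((𝒟.filter (fun D => n ≤ rankSum a b D)).card : ℝ) ≤
          C * 𝒟.card / 2 ^ (k * n)) := by
  refine rankBounded _ k ?_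
  obtain ⟨C, hC, hmain⟩ := moments t_goal (Fin r) F a b h k
  refine ⟨C, hC, fun X hX 𝒟 h𝒟 => (sum_le_sum fun D hD => ?_).trans (hmain X hX 𝒟 h𝒟)⟩
  rw [rankSum, ← prod_pow_eq_pow_sum]
  refine pow_le_pow_left₀ (by positivity) (prod_le_prod (fun _ _ => by positivity) fun i _ => ?_) k
  exact_mod_cast rank_le t_fin (h i) (h𝒟.ne D hD)

theorem loglog_pos {X : ℝ} (hX : 3 ≤ X) : 0 < Real.log (Real.log X) := by
  have h1 : 1 < Real.log X := by
    rw [Real.lt_log_iff_exp_lt (by linarith)]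
    exact lt_of_lt_of_le Real.exp_one_lt_three hX
  exact Real.log_pos h1

theorem many (h : ∀ i, ∀ x : F, x ^ 3 + a i * x + b i ≠ 0) (A ε : ℝ) (hε : 0 < ε) :
    ∃ C : ℝ, 0 < C ∧ ∀ X : ℝ, 3 ≤ X → ∀ 𝒟 : Finset F, Twists X 𝒟 →
      num 𝒟 (fun D => ε * Real.log (Real.log X) < rankSum a b D) ≤ C * X / Real.log X ^ A := by
  obtain ⟨k, hk⟩ := exists_nat_ge (A / (ε * Real.log 2))
  obtain ⟨C, hC, hmain⟩ := base h k
  have hl2 : 0 < Real.log 2 := Real.log_pos one_lt_two
  refine ⟨C, hC, fun X hX 𝒟 h𝒟 => ?_⟩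
  have hX0 : 0 < X := by linarith
  have hll := loglog_pos hX
  have hl : 0 < Real.log X := Real.log_pos (by linarith)
  have h1 := ((hmain X (by linarith) 𝒟).1 h𝒟).2.2.1 (⌊ε * Real.log (Real.log X)⌋₊ + 1)
  have h2 : num 𝒟 (fun D => ε * Real.log (Real.log X) < rankSum a b D) ≤
      ((𝒟.filter (fun D => ⌊ε * Real.log (Real.log X)⌋₊ + 1 ≤ rankSum a b D)).card : ℝ) := by
    unfold num
    have h3 : 𝒟.filter (fun D => ε * Real.log (Real.log X) < rankSum a b D) ⊆
        𝒟.filter (fun D => ⌊ε * Real.log (Real.log X)⌋₊ + 1 ≤ rankSum a b D) := by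
      intro D hD
      rw [mem_filter] at hD ⊢
      refine ⟨hD.1, ?_⟩
      have h4 := Nat.floor_le (mul_pos hε hll).le
      have h5 : (⌊ε * Real.log (Real.log X)⌋₊ : ℝ) < rankSum a b D := lt_of_le_of_lt h4 hD.2
      exact_mod_cast h5
    exact_mod_cast card_le_card h3
  refine (h2.trans h1).trans ?_
  have h6 : Real.log X ^ A ≤ 2 ^ (k * (⌊ε * Real.log (Real.log X)⌋₊ + 1)) := by
    rw [← Real.rpow_natCast, Real.rpow_def_of_pos hl, Real.rpow_def_of_pos two_pos, Real.exp_le_exp]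
    have h7 : A ≤ k * (ε * Real.log 2) := by
      rw [div_le_iff₀ (mul_pos hε hl2)] at hk
      exact hk
    have h8 : ε * Real.log (Real.log X) ≤ (⌊ε * Real.log (Real.log X)⌋₊ : ℝ) + 1 :=
      (Nat.lt_floor_add_one _).le
    push_cast
    calc Real.log (Real.log X) * A ≤ Real.log (Real.log X) * (k * (ε * Real.log 2)) :=
          mul_le_mul_of_nonneg_left h7 hll.le
      _ = Real.log 2 * (k * (ε * Real.log (Real.log X))) := by ring
      _ ≤ Real.log 2 * (k * ((⌊ε * Real.log (Real.log X)⌋₊ : ℝ) + 1)) := by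
          refine mul_le_mul_of_nonneg_left (mul_le_mul_of_nonneg_left h8 (Nat.cast_nonneg _)) hl2.le
  exact div_le_div_of_nonneg_left (mul_pos hC hX0).le (Real.rpow_pos_of_pos hl A) h6

theorem sparse (h : ∀ i, ∀ x : F, x ^ 3 + a i * x + b i ≠ 0) (A ε : ℝ) (hε : 0 < ε) :
    ∃ C : ℝ, 0 < C ∧ ∀ X : ℝ, 3 ≤ X → ∀ 𝒟 : Finset F, Twists X 𝒟 →
      X / Real.log X ^ A ≤ 𝒟.card →
      ∑ D ∈ 𝒟, (rankSum a b D : ℝ) ≤ (ε * Real.log (Real.log X) + C) * 𝒟.card := by
  have hl2 : 0 < Real.log 2 := Real.log_pos one_lt_two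
  obtain ⟨k, hk⟩ := exists_nat_ge (max 1 (A / (ε * Real.log 2)))
  have hk1 : (1 : ℝ) ≤ k := (le_max_left _ _).trans hk
  have hk2 : A / (ε * Real.log 2) ≤ k := (le_max_right _ _).trans hk
  obtain ⟨C, hC, hmain⟩ := base h k
  refine ⟨|Real.logb 2 C| + 1, by positivity, fun X hX 𝒟 h𝒟 hcard => ?_⟩
  have hX0 : 0 < X := by linarith
  have hll := loglog_pos hX
  have hl : 0 < Real.log X := Real.log_pos (by linarith)
  have hlA : 0 < Real.log X ^ A := Real.rpow_pos_of_pos hl A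
  have hc : (0 : ℝ) < 𝒟.card := lt_of_lt_of_le (div_pos hX0 hlA) hcard
  have hne : 𝒟.Nonempty := card_pos.1 (by exact_mod_cast hc)
  have h1 := ((hmain X (by linarith) 𝒟).1 h𝒟).2.2.2 hne
  have h2 : C * X / 𝒟.card ≤ C * Real.log X ^ A := by
    rw [div_le_iff₀ hc, mul_assoc]
    refine mul_le_mul_of_nonneg_left ?_ hC.le
    rw [div_le_iff₀ hlA] at hcard
    linarith
  have h3 : Real.logb 2 (C * X / 𝒟.card) ≤ Real.logb 2 C + A * Real.log (Real.log X) / Real.log 2 := by
    have h4 := Real.logb_le_logb_of_le one_lt_two (div_pos (mul_pos hC hX0) hc) h2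
    rw [Real.logb_mul hC.ne' hlA.ne'] at h4
    have h5 : Real.logb 2 (Real.log X ^ A) = A * Real.log (Real.log X) / Real.log 2 := by
      rw [Real.logb, Real.log_rpow hl]
    rw [h5] at h4
    exact h4
  have h6 : A ≤ k * (ε * Real.log 2) := by
    rw [div_le_iff₀ (mul_pos hε hl2)] at hk2
    exact hk2
  have h7 : A * Real.log (Real.log X) / Real.log 2 ≤ k * (ε * Real.log (Real.log X)) := by
    rw [div_le_iff₀ hl2]
    calc A * Real.log (Real.log X) ≤ k * (ε * Real.log 2) * Real.log (Real.log X) :=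
          mul_le_mul_of_nonneg_right h6 hll.le
      _ = k * (ε * Real.log (Real.log X)) * Real.log 2 := by ring
  have h8 : Real.logb 2 C ≤ k * (|Real.logb 2 C| + 1) := by
    have h9 : Real.logb 2 C ≤ |Real.logb 2 C| := le_abs_self _
    have h10 : 0 ≤ |Real.logb 2 C| := abs_nonneg _
    nlinarith
  have h11 : (k : ℝ) * ∑ D ∈ 𝒟, (rankSum a b D : ℝ) ≤
      k * ((ε * Real.log (Real.log X) + (|Real.logb 2 C| + 1)) * 𝒟.card) := by
    refine h1.trans ?_
    calc (𝒟.card : ℝ) * Real.logb 2 (C * X / 𝒟.card) ≤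
          𝒟.card * (k * (|Real.logb 2 C| + 1) + k * (ε * Real.log (Real.log X))) :=
          mul_le_mul_of_nonneg_left (h3.trans (add_le_add h8 h7)) hc.le
      _ = _ := by ring
  exact le_of_mul_le_mul_left h11 (by linarith)

/-- one function for all tails -/
theorem psi (h : ∀ i, ∀ x : F, x ^ 3 + a i * x + b i ≠ 0) :
    ∃ ψ : ℕ → ℝ, (∀ c : ℝ, Filter.Tendsto (fun n => c ^ n * ψ n) Filter.atTop (nhds 0)) ∧
      ∀ X : ℝ, 1 ≤ X → ∀ 𝒟 : Finset F, AllTwists X 𝒟 → ∀ n : ℕ,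
        num 𝒟 (fun D => n ≤ rankSum a b D) ≤ ψ n * 𝒟.card := by
  choose C hC hmain using fun k : ℕ => base h k
  -- the infimum of the bounds
  have hne : ∀ n : ℕ, (Set.range fun k : ℕ => C k / 2 ^ (k * n)).Nonempty := fun n =>
    Set.range_nonempty _
  have hbd : ∀ n : ℕ, BddBelow (Set.range fun k : ℕ => C k / 2 ^ (k * n)) := fun n =>
    ⟨0, by
      rintro x ⟨k, rfl⟩
      exact div_nonneg (hC k).le (by positivity)⟩
  refine ⟨fun n => sInf (Set.range fun k : ℕ => C k / 2 ^ (k * n)), fun c => ?_,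
    fun X hX 𝒟 h𝒟 n => ?_⟩
  · obtain ⟨k, hk⟩ : ∃ k : ℕ, |c| < 2 ^ k := by
      obtain ⟨k, hk⟩ := pow_unbounded_of_one_lt |c| (one_lt_two : (1 : ℝ) < 2)
      exact ⟨k, hk⟩
    have h1 : Filter.Tendsto (fun n : ℕ => C k * (|c| / 2 ^ k) ^ n) Filter.atTop (nhds 0) := by
      have h2 : |c| / 2 ^ k < 1 := (div_lt_one (by positivity)).2 hk
      have h3 := tendsto_pow_atTop_nhds_zero_of_lt_one (div_nonneg (abs_nonneg c)
        (by positivity : (0 : ℝ) ≤ 2 ^ k)) h2
      simpa using h3.const_mul (C k)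
    refine squeeze_zero_norm (fun n => ?_) h1
    have h4 : 0 ≤ sInf (Set.range fun k : ℕ => C k / 2 ^ (k * n)) := le_csInf (hne n) (by
      rintro x ⟨k, rfl⟩
      exact div_nonneg (hC k).le (by positivity))
    have h5 : sInf (Set.range fun k : ℕ => C k / 2 ^ (k * n)) ≤ C k / 2 ^ (k * n) :=
      csInf_le (hbd n) ⟨k, rfl⟩
    rw [Real.norm_eq_abs, abs_mul, abs_pow, abs_of_nonneg h4]
    calc |c| ^ n * sInf (Set.range fun k : ℕ => C k / 2 ^ (k * n)) ≤ |c| ^ n * (C k / 2 ^ (k * n)) :=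
          mul_le_mul_of_nonneg_left h5 (by positivity)
      _ = C k * (|c| / 2 ^ k) ^ n := by
          rw [div_pow, ← pow_mul]
          ring
  · rcases eq_or_lt_of_le (Nat.cast_nonneg 𝒟.card : (0 : ℝ) ≤ 𝒟.card) with h0 | h0
    · have h1 : 𝒟.card = 0 := by exact_mod_cast h0.symm
      rw [card_eq_zero] at h1
      rw [h1]
      simp [num]
    · rw [← div_le_iff₀ h0]
      refine le_csInf (hne n) ?_
      rintro x ⟨k, rfl⟩
      change num 𝒟 (fun D => n ≤ rankSum a b D) / 𝒟.card ≤ C k / 2 ^ (k * n)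
      rw [div_le_iff₀ h0]
      have h6 : num 𝒟 (fun D => n ≤ rankSum a b D) =
          ((𝒟.filter (fun D => n ≤ rankSum a b D)).card : ℝ) := by
        unfold num
        congr!
      rw [h6]
      refine (((hmain k X hX 𝒟).2 h𝒟).2.2 n).trans (le_of_eq ?_)
      ring

end aux

/-- Let `F` be any number field.  (A) For all `X ≥ 1` there are complete sets of representatives of the quadratic twists up
to `X`, and they have between `X/C` and `C X` elements, `C` depending on `F`.  (B) Let `E_i : y² = x³ + a_i x + b_i`,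
`1 ≤ i ≤ r`, be elliptic curves over `F` without `F`-rational points of order two, and `R(D)` the sum of the ranks over `F`
of their twists by `D`.
(1) There is a `ψ : ℕ → ℝ` with `c^n ψ(n) → 0` for all `c` such that for all `X ≥ 1` and all complete `𝒟` the proportion
of the `D ∈ 𝒟` with `R(D) ≥ n` is at most `ψ(n)`, for all `n`.  (2) For every `k` there is a `C` such that for all `X ≥ 1` and
all complete `𝒟` the means of `2^(k R(D))` and of `R(D)^k` over `𝒟` are at most `C`.  For all `A` and `ε > 0` there is a `C`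
such that for all `X ≥ 3` and all finite sets `𝒟` of representatives of different twists up to `X`: (3) at most
`C X / (log X)^A` of the `D ∈ 𝒟` satisfy `R(D) > ε log log X`; (4) if `𝒟` has at least `X / (log X)^A` elements the mean of
`R(D)` over `𝒟` is at most `ε log log X + C`. -/
theorem result (F : Type) [Field F] [NumberField F] :
    (∃ C : ℝ, 0 < C ∧ ∀ X : ℝ, 1 ≤ X → (∃ 𝒟 : Finset F, AllTwists X 𝒟) ∧
      ∀ 𝒟 : Finset F, AllTwists X 𝒟 → X / C ≤ 𝒟.card ∧ (𝒟.card : ℝ) ≤ C * X) ∧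
    ∀ (r : ℕ) (a b : Fin r → F), (∀ i, ∀ x : F, x ^ 3 + a i * x + b i ≠ 0) →
      (∃ ψ : ℕ → ℝ, (∀ c : ℝ, Filter.Tendsto (fun n => c ^ n * ψ n) Filter.atTop (nhds 0)) ∧
        ∀ X : ℝ, 1 ≤ X → ∀ 𝒟 : Finset F, AllTwists X 𝒟 → ∀ n : ℕ,
          num 𝒟 (fun D => n ≤ rankSum a b D) ≤ ψ n * 𝒟.card) ∧
      (∀ k : ℕ, ∃ C : ℝ, 0 < C ∧ ∀ X : ℝ, 1 ≤ X → ∀ 𝒟 : Finset F, AllTwists X 𝒟 →
        (∑ D ∈ 𝒟, (2 : ℝ) ^ (k * rankSum a b D) ≤ C * 𝒟.card) ∧
          ∑ D ∈ 𝒟, (rankSum a b D : ℝ) ^ k ≤ C * 𝒟.card) ∧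
      ∀ A ε : ℝ, 0 < ε → ∃ C : ℝ, 0 < C ∧ ∀ X : ℝ, 3 ≤ X → ∀ 𝒟 : Finset F, Twists X 𝒟 →
        num 𝒟 (fun D => ε * Real.log (Real.log X) < rankSum a b D) ≤ C * X / Real.log X ^ A ∧
        (X / Real.log X ^ A ≤ 𝒟.card →
          ∑ D ∈ 𝒟, (rankSum a b D : ℝ) ≤ (ε * Real.log (Real.log X) + C) * 𝒟.card) := by
  refine ⟨t_family F, fun r a b h => ⟨psi h, fun k => ?_, fun A ε hε => ?_⟩⟩
  · obtain ⟨C, hC, hmain⟩ := base h k
    exact ⟨C, hC, fun X hX 𝒟 h𝒟 => ⟨((hmain X hX 𝒟).2 h𝒟).1, ((hmain X hX 𝒟).2 h𝒟).2.1⟩⟩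
  · obtain ⟨C1, hC1, h1⟩ := many h A ε hε
    obtain ⟨C2, hC2, h2⟩ := sparse h A ε hε
    refine ⟨max C1 C2, by positivity, fun X hX 𝒟 h𝒟 => ⟨(h1 X hX 𝒟 h𝒟).trans ?_, fun hc =>
      (h2 X hX 𝒟 h𝒟 hc).trans ?_⟩⟩
    · have hl : 0 < Real.log X := Real.log_pos (by linarith)
      have := Real.rpow_pos_of_pos hl A
      gcongr
      exact le_max_left _ _
    · gcongr
      exact le_max_right _ _

end Pool.Agent.Results.MP_7cad78_nt.RanksOfAllTwists
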