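import Mathlib

/-!
# 4-homogeneous latin squares of the orders 12 k

For every odd `k` there is a `4`-homogeneous latin square of order `12 k`.
-/

set_option autoImplicit false

namespace Pool.Agent.Results.MP_7e41f2_co.MultiplesOfTwelve

/-- `L` is a latin square (rows, columns and symbols indexed by `α`): no symbol twice in a row or in a column. -/
def IsLatin {α : Type} (L : α → α → α) : Prop :=
  (∀ r, Function.Injective (L r)) ∧ (∀ c, Function.Injective (fun r => L r c))

/-- The number of intercalates containing the cell `(r, c)`: such an intercalate is given by its cell `(r', c')` in the other row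
and the other column. -/
def intercalates {α : Type} [Fintype α] [DecidableEq α] (L : α → α → α) (r c : α) : ℕ :=
  (Finset.univ.filter (fun x : α × α => x.1 ≠ r ∧ x.2 ≠ c ∧ L r c = L x.1 x.2 ∧ L r x.2 = L x.1 c)).card

/-- transport along a bijection -/
theorem transport {α β : Type} [Fintype α] [DecidableEq α] [Fintype β] [DecidableEq β] (e : α ≃ β) (L : α → α → α) (h : ℕ)
    (hL : IsLatin L) (hh : ∀ r c, intercalates L r c = h) :
    ∃ M : β → β → β, IsLatin M ∧ ∀ r c, intercalates M r c = h := by
  refine ⟨fun r c => e (L (e.symm r) (e.symm c)), ⟨?_, ?_⟩, ?_⟩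
  · intro r c c' hc
    exact e.symm.injective (hL.1 _ (e.injective hc))
  · intro c r r' hr
    exact e.symm.injective (hL.2 (e.symm c) (e.injective hr))
  · intro r c
    rw [← hh (e.symm r) (e.symm c)]
    unfold intercalates
    apply Finset.card_bij (fun x _ => (e.symm x.1, e.symm x.2))
    · intro x hx
      simp only [Finset.mem_filter, Finset.mem_univ, true_and, ne_eq] at hx ⊢
      obtain ⟨h1, h2, h3, h4⟩ := hx
      exact ⟨fun h => h1 (e.symm.injective h), fun h => h2 (e.symm.injective h), e.injective h3, e.injective h4⟩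
    · intro x _ y _ hxy
      simp only [Prod.mk.injEq] at hxy
      exact Prod.ext (e.symm.injective hxy.1) (e.symm.injective hxy.2)
    · intro y hy
      simp only [Finset.mem_filter, Finset.mem_univ, true_and, ne_eq] at hy
      obtain ⟨h1, h2, h3, h4⟩ := hy
      refine ⟨(e y.1, e y.2), ?_, by simp⟩
      simp only [Finset.mem_filter, Finset.mem_univ, true_and, ne_eq, Equiv.symm_apply_apply, h3, h4, and_true]
      exact ⟨fun h => h1 (by rw [← h, Equiv.symm_apply_apply]), fun h => h2 (by rw [← h, Equiv.symm_apply_apply])⟩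

/-- the product with the cyclic group of odd order -/
theorem product {α : Type} [Fintype α] [DecidableEq α] (L : α → α → α) (h : ℕ) (k : ℕ) [NeZero k] (hk : Odd k)
    (hL : IsLatin L) (hh : ∀ r c, intercalates L r c = h) :
    ∃ M : α × ZMod k → α × ZMod k → α × ZMod k, IsLatin M ∧ ∀ r c, intercalates M r c = h := by
  have h2 : ∀ z : ZMod k, 2 * z = 0 → z = 0 := by
    intro z hz
    have hu : IsUnit ((2 : ℕ) : ZMod k) := by
      rw [ZMod.isUnit_iff_coprime]
      exact Nat.coprime_two_left.2 hk
    have h3 : ((2 : ℕ) : ZMod k) * z = 0 := by exact_mod_cast hz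
    exact (hu.mul_right_eq_zero).1 h3
  refine ⟨fun r c => (L r.1 c.1, r.2 + c.2), ⟨?_, ?_⟩, ?_⟩
  · intro r c c' hc
    simp only [Prod.mk.injEq] at hc
    exact Prod.ext (hL.1 _ hc.1) (add_left_cancel hc.2)
  · intro c r r' hr
    simp only [Prod.mk.injEq] at hr
    exact Prod.ext (hL.2 c.1 hr.1) (add_right_cancel hr.2)
  · intro r c
    rw [← hh r.1 c.1]
    unfold intercalates
    symm
    apply Finset.card_bij (fun x _ => ((x.1, r.2), (x.2, c.2)))
    · intro x hx
      simp only [Finset.mem_filter, Finset.mem_univ, true_and, ne_eq] at hx ⊢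
      obtain ⟨h1, h2, h3, h4⟩ := hx
      exact ⟨fun h => h1 (congrArg Prod.fst h), fun h => h2 (congrArg Prod.fst h), by rw [h3], by rw [h4]⟩
    · intro x _ y _ hxy
      simp only [Prod.mk.injEq, and_true] at hxy
      exact Prod.ext hxy.1 hxy.2
    · intro y hy
      simp only [Finset.mem_filter, Finset.mem_univ, true_and, ne_eq, Prod.mk.injEq] at hy
      obtain ⟨h1, h3, ⟨h4, h5⟩, ⟨h6, h7⟩⟩ := hy
      have h8 : y.2.2 = c.2 := by
        have h9 : 2 * (y.2.2 - c.2) = 0 := by linear_combination h7 - h5
        exact sub_eq_zero.1 (h2 _ h9)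
      have h10 : y.1.2 = r.2 := by
        rw [h8] at h5
        exact (add_right_cancel h5).symm
      refine ⟨(y.1.1, y.2.1), ?_, ?_⟩
      · simp only [Finset.mem_filter, Finset.mem_univ, true_and, ne_eq]
        exact ⟨fun h => h1 (Prod.ext h h10), fun h => h3 (Prod.ext h h8), h4, h6⟩
      · exact Prod.ext (Prod.ext rfl h10.symm) (Prod.ext rfl h8.symm)

/-- the square of order 12, on `Bool × Bool × ZMod 3` -/
def sq (u v : Bool × Bool × ZMod 3) : Bool × Bool × ZMod 3 :=
  (xor u.1 v.1, xor u.2.1 v.2.1,
    u.2.2 + (if u.2.1 then -v.2.2 else v.2.2) +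
      (if u.1 then 0 else if v.2.1 then 0 else if u.2.1 then -1 else 1))

theorem sq_latin : IsLatin sq := by
  constructor
  · unfold Function.Injective
    decide +kernel
  · unfold Function.Injective
    decide +kernel

theorem sq_four : ∀ r c, intercalates sq r c = 4 := by
  decide +kernel

/-- For every odd `k` there is a latin square of order `12 k` all of whose cells are in exactly four intercalates. -/
theorem result : ∀ k : ℕ, Odd k → ∃ L : Fin (12 * k) → Fin (12 * k) → Fin (12 * k),
    IsLatin L ∧ ∀ r c, intercalates L r c = 4 := by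
  intro k hk
  have : NeZero k := ⟨by rintro rfl; exact absurd hk (by decide)⟩
  obtain ⟨M, hM1, hM2⟩ := product sq 4 k hk sq_latin sq_four
  have hcard : Fintype.card ((Bool × Bool × ZMod 3) × ZMod k) = Fintype.card (Fin (12 * k)) := by
    simp only [Fintype.card_prod, Fintype.card_bool, ZMod.card, Fintype.card_fin]
  exact transport (Fintype.equivOfCardEq hcard) M 4 hM1 hM2

end Pool.Agent.Results.MP_7e41f2_co.MultiplesOfTwelve
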