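import Mathlib
import Pool.Agent.Q65.PMCd
import Pool.Agent.Q65.PMCi

/-! Lower bound `c₁ ≥ 1/2` for Hausdorff approximation of plane continua by polynomial curves. -/

set_option autoImplicit false

open Set Metric Filter Topology

namespace Pool.Agent.Results.MP_7e59b3_an.PolynomialCurvesLower

/-- the plane set `{(P(t), Q(t)) : t ∈ [0,1]}` -/
def curve (P Q : Polynomial ℝ) : Set (ℝ × ℝ) := (fun t : ℝ => (P.eval t, Q.eval t)) '' Icc (0:ℝ) 1

/-- `E(H_n²; F)`; the distance of `ℝ × ℝ` in Mathlib is the maximum metric -/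
noncomputable def E1 (n : ℕ) (F : Set (ℝ × ℝ)) : ℝ :=
  sInf {r : ℝ | ∃ P Q : Polynomial ℝ, P.natDegree ≤ n ∧ Q.natDegree ≤ n ∧
    r = hausdorffDist F (curve P Q)}

/-- `Z_D`: the nonempty compact connected subsets of `[a,b] × [a,b]` -/
def ZD (a b : ℝ) : Set (Set (ℝ × ℝ)) :=
  {F | F ⊆ Icc a b ×ˢ Icc a b ∧ IsCompact F ∧ IsConnected F}

/-- `E(H_n²; Z_D)` -/
noncomputable def E (n : ℕ) (a b : ℝ) : ℝ := sSup (E1 n '' ZD a b)

lemma bddBelow_set (n : ℕ) (F : Set (ℝ × ℝ)) :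
    BddBelow {r : ℝ | ∃ P Q : Polynomial ℝ, P.natDegree ≤ n ∧ Q.natDegree ≤ n ∧
      r = hausdorffDist F (curve P Q)} := by
  refine ⟨0, ?_⟩
  rintro r ⟨P, Q, -, -, rfl⟩
  exact hausdorffDist_nonneg

lemma curve_const (a : ℝ) : curve (Polynomial.C a) (Polynomial.C a) = {(a, a)} := by
  unfold curve
  ext p
  simp only [mem_image, mem_Icc, mem_singleton_iff, Polynomial.eval_C]
  constructor
  · rintro ⟨t, -, rfl⟩; rfl
  · rintro rfl; exact ⟨0, ⟨le_rfl, zero_le_one⟩, rfl⟩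

lemma E1_le_width (n : ℕ) {a b : ℝ} (hab : a < b) {F : Set (ℝ × ℝ)}
    (hF : F ∈ ZD a b) : E1 n F ≤ b - a := by
  have h1 : E1 n F ≤ hausdorffDist F (curve (Polynomial.C a) (Polynomial.C a)) :=
    csInf_le (bddBelow_set n F) ⟨_, _, by simp, by simp, rfl⟩
  refine h1.trans ?_
  rw [curve_const]
  obtain ⟨hsub, hcomp, hconn⟩ := hF
  have hdist : ∀ p ∈ F, dist p (a, a) ≤ b - a := by
    intro p hp
    obtain ⟨h1, h2⟩ := hsub hp
    rw [Prod.dist_eq, Real.dist_eq, Real.dist_eq]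
    refine max_le ?_ ?_
    · rw [abs_le]; constructor <;> [linarith [h1.1, h1.2]; linarith [h1.1, h1.2]]
    · rw [abs_le]; constructor <;> [linarith [h2.1, h2.2]; linarith [h2.1, h2.2]]
  refine hausdorffDist_le_of_mem_dist (by linarith) ?_ ?_
  · intro p hp
    exact ⟨(a, a), rfl, hdist p hp⟩
  · intro q hq
    obtain ⟨p, hp⟩ := hconn.nonempty
    refine ⟨p, hp, ?_⟩
    rw [mem_singleton_iff] at hq
    rw [hq, dist_comm]
    exact hdist p hp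

lemma bddAbove_E (n : ℕ) {a b : ℝ} (hab : a < b) : BddAbove (E1 n '' ZD a b) := by
  refine ⟨b - a, ?_⟩
  rintro r ⟨F, hF, rfl⟩
  exact E1_le_width n hab hF

lemma lowerE {a b : ℝ} (hab : a < b) {n p : ℕ} (hn1 : 1 ≤ n) (hp : 1 ≤ p)
    (hn : n + 3 ≤ 4 * p ^ 2) : (b - a) / (4 * p) ≤ E n a b := by
  have hp0 : (0:ℝ) < p := by exact_mod_cast hp
  set h : ℝ := (b - a) / (4 * p) with hh
  have hh0 : 0 < h := div_pos (by linarith) (by positivity)
  have hb : a + 4 * p * h = b := by rw [hh]; field_simp; ring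
  have hmem : Q65.PMC.comb a h p ∈ ZD a b := by
    refine ⟨?_, Q65.PMC.comb_compact a h p, Q65.PMC.comb_conn hh0 p⟩
    have := Q65.PMC.comb_sub (a := a) hh0 p
    rwa [hb] at this
  refine le_trans ?_ (le_csSup (bddAbove_E n hab) ⟨_, hmem, rfl⟩)
  refine le_csInf ⟨_, Polynomial.C a, Polynomial.C a, by simp, by simp, rfl⟩ ?_
  rintro r ⟨P, Q, hP, hQ, rfl⟩
  by_contra hcon
  push Not at hcon
  obtain ⟨m, rfl⟩ : ∃ m, n = m + 1 := ⟨n - 1, by omega⟩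
  have hSp : Q65.PMC.Sp m (m + 1) 1 (fun t => P.eval t) := by
    have hPc : ContDiff ℝ ((m : ℕ∞) : WithTop ℕ∞) (fun t : ℝ => P.eval t) := by
      simpa using Polynomial.contDiff_aeval (𝕜 := ℝ) P ((m : ℕ∞) : WithTop ℕ∞)
    refine ⟨hPc.contDiffOn, fun i => i, by simp, by simp, ?_, ?_⟩
    · intro i _; push_cast; linarith
    · intro i _; exact ⟨P, hP, fun x _ => rfl⟩
  have h1 := Q65.PMC.lower hh0 hp P.continuous.continuousOn Q.continuous.continuousOn hSp.pw hcon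
  omega

lemma tendsto_ratio (c : ℝ) (d : ℝ) :
    Tendsto (fun n : ℕ => √(n:ℝ) / (2 * √((n:ℝ) + d) + c)) atTop (𝓝 (1/2)) := by
  have h1 : Tendsto (fun n : ℕ => √(1 + d / (n:ℝ))) atTop (𝓝 1) := by
    have h2 : Tendsto (fun n : ℕ => 1 + d / (n:ℝ)) atTop (𝓝 (1 + 0)) :=
      tendsto_const_nhds.add (tendsto_const_div_atTop_nhds_zero_nat d)
    have h3 := h2.sqrt
    rw [add_zero, Real.sqrt_one] at h3
    exact h3
  have h4 : Tendsto (fun n : ℕ => c / √(n:ℝ)) atTop (𝓝 0) := by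
    refine Tendsto.div_atTop tendsto_const_nhds ?_
    exact Real.tendsto_sqrt_atTop.comp tendsto_natCast_atTop_atTop
  have h5 : Tendsto (fun n : ℕ => 1 / (2 * √(1 + d / (n:ℝ)) + c / √(n:ℝ))) atTop
      (𝓝 (1 / (2 * 1 + 0))) := by
    refine Tendsto.div tendsto_const_nhds ((h1.const_mul 2).add h4) (by norm_num)
  have e : (1:ℝ) / (2 * 1 + 0) = 1/2 := by norm_num
  rw [e] at h5
  refine h5.congr' ?_
  filter_upwards [eventually_gt_atTop 0] with n hn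
  have hn0 : (0:ℝ) < n := by exact_mod_cast hn
  have hs : 0 < √(n:ℝ) := Real.sqrt_pos.mpr hn0
  have e1 : √((n:ℝ) + d) = √(n:ℝ) * √(1 + d / n) := by
    rw [← Real.sqrt_mul hn0.le]
    congr 1
    field_simp
  rw [e1]
  have e2 : 2 * (√(n:ℝ) * √(1 + d / n)) + c = √(n:ℝ) * (2 * √(1 + d / n) + c / √(n:ℝ)) := by
    field_simp
  rw [e2, ← div_div, div_self hs.ne']

/-- `c₁ ≥ 1/2`: explicit lower bound for `E(H_n²; Z_D)`, and `√n E(H_n²; Z_D)/(b-a)` eventually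
exceeds every number below `1/2`. -/
theorem result (a b : ℝ) (hab : a < b) :
    (∀ n : ℕ, BddAbove (E1 n '' ZD a b)) ∧
    (∀ n p : ℕ, 1 ≤ n → 1 ≤ p → n + 3 ≤ 4 * p ^ 2 → (b - a) / (4 * p) ≤ E n a b) ∧
    (∀ c : ℝ, c < 1/2 → ∀ᶠ n : ℕ in atTop, c < √(n:ℝ) * E n a b / (b - a)) := by
  refine ⟨fun n => bddAbove_E n hab, fun _ _ hn hp h => lowerE hab hn hp h, ?_⟩
  intro c hc
  have hba : 0 < b - a := by linarith
  filter_upwards [(tendsto_ratio 4 3).eventually (Ioi_mem_nhds hc), eventually_ge_atTop 1]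
    with n hcn hn
  refine lt_of_lt_of_le hcn ?_
  set p : ℕ := ⌈√(((n:ℝ) + 3) / 4)⌉₊ with hp
  have hn0 : (1:ℝ) ≤ n := by exact_mod_cast hn
  have hpos : 0 < √(((n:ℝ) + 3) / 4) := Real.sqrt_pos.mpr (by linarith)
  have hp1 : 1 ≤ p := Nat.one_le_iff_ne_zero.mpr (Nat.ceil_pos.mpr hpos).ne'
  have hp0 : (0:ℝ) < p := by exact_mod_cast hp1
  have hp2 : √(((n:ℝ) + 3) / 4) ≤ p := Nat.le_ceil _
  have hp3 : (p:ℝ) < √(((n:ℝ) + 3) / 4) + 1 := Nat.ceil_lt_add_one hpos.le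
  have hsq : √(((n:ℝ) + 3) / 4) = √((n:ℝ) + 3) / 2 := by
    rw [Real.sqrt_div (by linarith)]
    congr 1
    rw [show (4:ℝ) = 2 ^ 2 by norm_num, Real.sqrt_sq (by norm_num)]
  have h4 : (n:ℝ) + 3 ≤ 4 * (p:ℝ) ^ 2 := by
    have := Real.sq_sqrt (show (0:ℝ) ≤ ((n:ℝ) + 3) / 4 by linarith)
    nlinarith
  have h5 : n + 3 ≤ 4 * p ^ 2 := by exact_mod_cast h4
  have h6 := lowerE hab hn hp1 h5
  have h7 : √(n:ℝ) / (4 * p) ≤ √(n:ℝ) * E n a b / (b - a) := by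
    rw [le_div_iff₀ hba]
    calc √(n:ℝ) / (4 * p) * (b - a) = √(n:ℝ) * ((b - a) / (4 * p)) := by ring
      _ ≤ _ := mul_le_mul_of_nonneg_left h6 (Real.sqrt_nonneg _)
  refine le_trans ?_ h7
  refine div_le_div_of_nonneg_left (Real.sqrt_nonneg _) (by positivity) ?_
  rw [hsq] at hp3
  linarith

end Pool.Agent.Results.MP_7e59b3_an.PolynomialCurvesLower
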