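import Pool.Agent.Q278.TR.K

/-!
# The averages `Ξ(z + i h) + Ξ(z - i h)`: `h = 1 / log T` is the threshold for the law of the gaps

Let `Ξ(z) = ξ(1/2 + i z)` be Riemann's function, so that the zeros of `ζ` are `1/2 + i γ`, `Ξ(γ) = 0`.  For `h > 0` and
`|u| = 1` put `Ξ_(h,u)(z) = Ξ(z + i h) + u Ξ(z - i h)`.  Under RH all zeros of these functions are real and simple (de
Bruijn, Taylor), and for fixed `h` almost all gaps between neighbouring zeros are asymptotically equal (Lagarias), while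
the gaps of `Ξ` itself are conjectured to follow the GUE law (question Q1).  We find the scale of this transition and
show that it is sharp.

(1) Equal spacing, with no hypothesis and for all `h`: for every `η > 0` there are `c, C > 0` such that, for all `T ≥ 2`,
`0 < h ≤ 1`, `|u| = 1`, all but at most the proportion `C T^(-c h)` of the zeros of `Ξ_(h,u)` with real part in `(0, T]`
are real, simple, and followed by the next zero at distance `(1 + θ) 2π / log x`, `|θ| ≤ η`.

(2) Under RH, let `h_N log N → 0`.  Then for almost all `n ≤ N` the `n`-th zero of `Ξ_(h_N)` and the `n`-th zero of `Ξ`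
differ by `o(1 / log N)`, which is `o(mean gap)`.  So the unfolded gaps have the same limit law: for every continuous
distribution function `P` on `(0, ∞)` (for example that of Gaudin's law) the assertion of Q1 holds for `Ξ` if and only
if it holds for the averages `Ξ_(h_N)`.

(3) Under RH, let `h_N ≤ 1` and `h_N log N → ∞`.  Then almost all unfolded gaps of `Ξ_(h_N)` among the first `N` tend to
`1`; the limit law is the unit mass at `1`.

Proof.  Good heights: by mollified mean squares at all scales `r` (starting project GD2, here for `(s - 1) ζ(s)`), for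
most heights `t` the logarithmic derivative of `ξ` at distance `r` from the line is close to `(log t) / 2` in a window of
length `r`; the exceptional set at scale `r = 2a / log T` has measure `O(T e^(-c a))`.  (1) as in `MP_cd509c_nt`.
(2) At a good height there are `O(a)` zeros in the window, and by the continuity of the zeros (Rouché, all functions
`Ξ_s`, `0 ≤ s ≤ h`, being real on the line and zero free near a point at distance `≫ x / a` from all zeros) the number of
zeros up to this point is the same for `Ξ_h` and `Ξ`; the exceptional heights carry few zeros (Jensen).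
-/

set_option autoImplicit false

open Filter Topology

namespace Pool.Agent.Results.MP_7eacff_nt.AveragingThreshold

/-- Riemann's `ξ(s) = s (s - 1) π^(-s/2) Γ(s/2) ζ(s) / 2`, written with Mathlib's entire function `Λ₀`, for which
`π^(-s/2) Γ(s/2) ζ(s) = Λ₀(s) - 1/s - 1/(1-s)`. -/
noncomputable def xi (s : ℂ) : ℂ := (1 + s * (s - 1) * completedRiemannZeta₀ s) / 2

/-- `Ξ(z) = ξ(1/2 + i z)`. -/
noncomputable def Xi (z : ℂ) : ℂ := xi (1 / 2 + Complex.I * z)

/-- The average `Ξ_(h,u)(z) = Ξ(z + i h) + u Ξ(z - i h)`. -/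
noncomputable def avg (h : ℝ) (u z : ℂ) : ℂ := Xi (z + h * Complex.I) + u * Xi (z - h * Complex.I)

/-- The zeros of `F` with real part in `(0, T]`. -/
def Zer (F : ℂ → ℂ) (T : ℝ) : Set ℂ := {z | F z = 0 ∧ 0 < z.re ∧ z.re ≤ T}

/-- `z` is a real simple zero of `F`, and the next zero of `F` on its right is a real number `x`, at distance
`(1 + θ) 2π / log z` with `|θ| ≤ η`: there is no zero `w` of `F`, real or not, with `z < Re w < x`. -/
def Regular (η : ℝ) (F : ℂ → ℂ) (z : ℂ) : Prop :=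
  z.im = 0 ∧ deriv F z ≠ 0 ∧ ∃ x : ℝ, z.re < x ∧ F x = 0 ∧
    (∀ w : ℂ, F w = 0 → z.re < w.re → x ≤ w.re) ∧
    |(x - z.re) * (Real.log z.re / (2 * Real.pi)) - 1| ≤ η

/-- The exceptional zeros. -/
def Exc (η : ℝ) (F : ℂ → ℂ) (T : ℝ) : Set ℂ := {z | z ∈ Zer F T ∧ ¬ Regular η F z}

/-- The number of points of `A`, each counted with its multiplicity as a zero of `F`. -/
noncomputable def num (F : ℂ → ℂ) (A : Set ℂ) : ℕ := ∑ᶠ z ∈ A, analyticOrderNatAt F z

/-- The number of points in `(0, T]`, for a multiset of positive numbers given by its multiplicities `m`. -/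
noncomputable def count (m : ℝ → ℕ) (T : ℝ) : ℕ := ∑ᶠ t ∈ Set.Ioc (0 : ℝ) T, m t

/-- The `n`-th point in increasing order, with multiplicity: the least `T > 0` with at least `n` points in `(0, T]`. -/
noncomputable def nth (m : ℝ → ℕ) (n : ℕ) : ℝ := sInf {T : ℝ | 0 < T ∧ n ≤ count m T}

/-- The `n`-th unfolded gap `(γ_(n+1) - γ_n) / (2π) · log (γ_n / (2π))`. -/
noncomputable def gap (m : ℝ → ℕ) (n : ℕ) : ℝ :=
  (nth m (n + 1) - nth m n) / (2 * Real.pi) * Real.log (nth m n / (2 * Real.pi))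

/-- The multiplicity of the zero `1/2 + i t` of `ζ`. So, under RH, `nth zetaMult n` is the ordinate `γ_n` and
`gap zetaMult n` is the unfolded gap `δ_n` of the problem. -/
noncomputable def zetaMult (t : ℝ) : ℕ := analyticOrderNatAt riemannZeta (1 / 2 + t * Complex.I)

/-- The multiplicity of the real zero `t` of `Ξ(z + i h) + Ξ(z - i h)`. -/
noncomputable def avgMult (h t : ℝ) : ℕ := analyticOrderNatAt (avg h 1) t

/-- The assertion of Q1 for the array `x N n` and the distribution function `P`: for all `0 < α < β` the proportion of the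
`n ≤ N` with `α ≤ x N n ≤ β` tends to `P β - P α`. -/
def HasLaw (x : ℕ → ℕ → ℝ) (P : ℝ → ℝ) : Prop := ∀ α β : ℝ, 0 < α → α < β →
  Tendsto (fun N : ℕ => (((Finset.Icc 1 N).filter fun n => α ≤ x N n ∧ x N n ≤ β).card : ℝ) / N) atTop (𝓝 (P β - P α))

section aux

open Pool.Agent.H24R2.JP (XX)
open Pool.Agent.Q278.TR (mu Ave)

theorem Xi_eq (z : ℂ) : Xi z = 1 / 8 * XX (Complex.I * z) := by
  unfold Xi xi XX
  have e1 : (1 / 2 + Complex.I * z) * (1 / 2 + Complex.I * z - 1) = (4 * (Complex.I * z) ^ 2 - 1) / 4 := by ring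
  rw [e1]
  ring

theorem avg_eq (h : ℝ) (z : ℂ) : avg h 1 z = 1 / 8 * Ave XX h (Complex.I * z) := by
  unfold avg Ave
  rw [Xi_eq, Xi_eq]
  have e1 : Complex.I * (z + h * Complex.I) = Complex.I * z - h := by
    have := Complex.I_mul_I
    linear_combination (h : ℂ) * this
  have e2 : Complex.I * (z - h * Complex.I) = Complex.I * z + h := by
    have := Complex.I_mul_I
    linear_combination (-(h : ℂ)) * this
  rw [e1, e2]
  ring

theorem avgMult_eq (h : ℝ) : avgMult h = mu (Ave XX h) := by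
  funext t
  unfold avgMult mu
  rw [Pool.Agent.Y771.NF.Cnt.order_rot (by norm_num : (1 / 8 : ℂ) ≠ 0)
    (Pool.Agent.Q278.TR.ave_diff Pool.Agent.Q278.ZA.sy_zeta.diff h) (avg_eq h), mul_comm]

theorem count_zeta (T : ℝ) : count zetaMult T = Pool.Agent.Q278.TR.cn (mu XX) T := by
  unfold count Pool.Agent.Q278.TR.cn
  refine finsum_mem_congr rfl fun t ht => ?_
  exact Pool.Agent.Q278.TR.zeta_ord ht.1

theorem nth_zeta : nth zetaMult = Pool.Agent.Q278.TR.nt (mu XX) := by
  funext n
  unfold nth Pool.Agent.Q278.TR.nt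
  simp only [count_zeta]

theorem nth_avg (h : ℝ) : nth (avgMult h) = Pool.Agent.Q278.TR.nt (mu (Ave XX h)) := by
  rw [avgMult_eq]
  rfl

theorem gap_zeta (n : ℕ) : gap zetaMult n = Pool.Agent.Q278.TR.gp (mu XX) n := by
  unfold gap
  rw [nth_zeta]
  rfl

theorem gap_avg (h : ℝ) (n : ℕ) : gap (avgMult h) n = Pool.Agent.Q278.TR.gp (mu (Ave XX h)) n := by
  unfold gap
  rw [nth_avg]
  rfl

end aux

/-- (1) With no hypothesis: finiteness, lower bound for the number of zeros, and equal spacing of almost all zeros of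
`Ξ_(h,u)`, uniformly in `h` and `u`, with the exceptional proportion `C T^(-c h)`.
(2) Under RH, if `h_N > 0` and `h_N log N → 0`: for almost all `n ≤ N` the distance of the `n`-th zeros of `Ξ_(h_N)` and
`Ξ` is `o(1 / log N)`, and the unfolded gaps have the same law.
(3) Under RH, if `0 < h_N ≤ 1` and `h_N log N → ∞`: almost all of the first `N` unfolded gaps of `Ξ_(h_N)` tend to `1`. -/
theorem result :
    ((∀ (h : ℝ) (u : ℂ) (T : ℝ), 0 < h → ‖u‖ = 1 → (Zer (avg h u) T).Finite) ∧
      (∃ c T0 : ℝ, 0 < c ∧ 2 ≤ T0 ∧ ∀ (h T : ℝ) (u : ℂ), T0 ≤ T → 1 / Real.log T ≤ h → h ≤ 1 → ‖u‖ = 1 →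
        c * T * Real.log T ≤ num (avg h u) (Zer (avg h u) T)) ∧
      ∀ η : ℝ, 0 < η → ∃ c C : ℝ, 0 < c ∧ 0 < C ∧ ∀ (h T : ℝ) (u : ℂ), 2 ≤ T → 0 < h → h ≤ 1 → ‖u‖ = 1 →
        (num (avg h u) (Exc η (avg h u) T) : ℝ) ≤ C * T ^ (-(c * h)) * num (avg h u) (Zer (avg h u) T)) ∧
    (RiemannHypothesis →
      (∀ h : ℕ → ℝ, (∀ N, 0 < h N) → Tendsto (fun N : ℕ => h N * Real.log N) atTop (𝓝 0) →
        (∀ ε : ℝ, 0 < ε → Tendsto (fun N : ℕ => (((Finset.Icc 1 N).filter fun n =>
          ε < |nth (avgMult (h N)) n - nth zetaMult n| * Real.log N).card : ℝ) / N) atTop (𝓝 0)) ∧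
        ∀ P : ℝ → ℝ, ContinuousOn P (Set.Ioi 0) →
          (HasLaw (fun _ n => gap zetaMult n) P ↔ HasLaw (fun N n => gap (avgMult (h N)) n) P)) ∧
      ∀ h : ℕ → ℝ, (∀ N, 0 < h N) → (∀ N, h N ≤ 1) → Tendsto (fun N : ℕ => h N * Real.log N) atTop atTop →
        ∀ ε : ℝ, 0 < ε → Tendsto (fun N : ℕ => (((Finset.Icc 1 N).filter fun n =>
          ε < |gap (avgMult (h N)) n - 1|).card : ℝ) / N) atTop (𝓝 0)) := by
  have hv : (1 / 8 : ℂ) ≠ 0 := by norm_num
  refine ⟨?_, fun hRH => ?_⟩
  · obtain ⟨h1, h2, h3⟩ := Pool.Agent.Q278.ES.main hv Xi_eq Pool.Agent.Q278.ZA.lx_zeta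
    refine ⟨h1, h2, fun η hη => ?_⟩
    obtain ⟨c, C, hc, hC, h4⟩ := h3 η hη
    refine ⟨c, C, hc, hC, fun h T u hT hh hh1 hu1 => ?_⟩
    have h5 := h4 h T u hT hh hh1 hu1
    have e : Exc η (avg h u) T = {z | z ∈ Pool.Agent.Q278.ES.Zer (Pool.Agent.Q278.ES.Av Xi h u) T ∧
        ¬ Pool.Agent.Q278.ES.Reg (1 / 2) η (Pool.Agent.Q278.ES.Av Xi h u) z} := by
      ext z
      have e1 : Regular η (avg h u) z ↔ Pool.Agent.Q278.ES.Reg (1 / 2) η (Pool.Agent.Q278.ES.Av Xi h u) z := by
        unfold Regular Pool.Agent.Q278.ES.Reg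
        have e2 : ∀ x : ℝ, (x - z.re) * (Real.log z.re / (2 * Real.pi)) - 1 =
            1 / 2 * Real.log z.re * (x - z.re) / Real.pi - 1 := fun x => by
          have := Real.pi_ne_zero
          field_simp
        simp only [e2]
        rfl
      show z ∈ Zer (avg h u) T ∧ ¬ Regular η (avg h u) z ↔ _
      rw [e1]
      rfl
    rw [e]
    exact h5
  · have hR : ∀ b, Pool.Agent.H24R2.JP.XX b = 0 → b.re = 0 := Pool.Agent.H986R2.DBN.Rhr.re_zero hRH
    refine ⟨fun h hpos hlim => ⟨fun ε hε => ?_, fun P hP => ?_⟩, fun h hpos hone hlim ε hε => ?_⟩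
    · simp only [nth_zeta, nth_avg]
      exact Pool.Agent.Q278.TR.prop_tends (f := fun s N n => |Pool.Agent.Q278.TR.nt (Pool.Agent.Q278.TR.mu
        (Pool.Agent.Q278.TR.Ave Pool.Agent.H24R2.JP.XX s)) n - Pool.Agent.Q278.TR.nt (Pool.Agent.Q278.TR.mu
        Pool.Agent.H24R2.JP.XX) n| * Real.log N) hpos hlim (fun θ hθ => Pool.Agent.Q278.TR.quant hR hε hθ)
    · have hgap : ∀ ε : ℝ, 0 < ε → Tendsto (fun N : ℕ => (((Finset.Icc 1 N).filter fun n =>
          ε < |gap (avgMult (h N)) n - gap zetaMult n|).card : ℝ) / N) atTop (𝓝 0) := by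
        intro ε hε
        simp only [gap_zeta, gap_avg]
        exact Pool.Agent.Q278.TR.prop_tends (f := fun s N n => |Pool.Agent.Q278.TR.gp (Pool.Agent.Q278.TR.mu
          (Pool.Agent.Q278.TR.Ave Pool.Agent.H24R2.JP.XX s)) n - Pool.Agent.Q278.TR.gp (Pool.Agent.Q278.TR.mu
          Pool.Agent.H24R2.JP.XX) n|) hpos hlim (fun θ hθ => Pool.Agent.Q278.TR.gap_quant hR hε hθ)
      refine ⟨fun hl => ?_, fun hl => ?_⟩
      · exact Pool.Agent.Q278.TR.law_transfer (x := fun _ n => gap zetaMult n) (y := fun N n => gap (avgMult (h N)) n)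
          hgap hP hl
      · refine Pool.Agent.Q278.TR.law_transfer (y := fun _ n => gap zetaMult n) (x := fun N n => gap (avgMult (h N)) n)
          (fun ε hε => ?_) hP hl
        simp only [abs_sub_comm (gap zetaMult _)]
        exact hgap ε hε
    · simp only [gap_avg]
      exact Pool.Agent.Q278.TR.prop_tends2 (f := fun s N n => |Pool.Agent.Q278.TR.gp (Pool.Agent.Q278.TR.mu
        (Pool.Agent.Q278.TR.Ave Pool.Agent.H24R2.JP.XX s)) n - 1|) hpos hone hlim
        (fun θ hθ => Pool.Agent.Q278.TR.super hR hε hθ)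

end Pool.Agent.Results.MP_7eacff_nt.AveragingThreshold
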