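import Pool.Agent.Q241.GL.H
import Pool.Agent.Q241.SC.G4

/-!
# One-sided bounds for the correlations at infinitely many levels imply the Gaudin law

Nothing is assumed, in particular not the Riemann hypothesis; `γ n` are the ordinates of the
nontrivial zeros of `ζ` (on the line or not, with multiplicity), `δ n` the unfolded gaps of the
problem.

(1) If for one `k ≥ 2` the `k`-level correlations are asymptotically at most those of the sine
process, or at least those of the sine process, or at least those of some mixture of stationary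
determinantal processes of mean density one, then the distribution function of the gaps differs
from the one of the Gaudin law by at most `e^s s^(k-1) / (k-1)!` in the limit, at every `s > 0`.
(2) If this holds for infinitely many `k`, then Q1 holds.
(3) For every law on `(0, ∞)` with continuous distribution function and mean one: the gaps have
this limit law (in the sense of Q1) if and only if their distribution function is at most the one of
the law in the limit, at every point.

Idea of the proof.  By the starting point of this file (`Pool/Agent/Q241/SC`, the hand-in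
MP_67227b_nt.OneLevelOneSide) a bound of one of the three kinds at the level `k` implies the full
correlation conjecture for all levels `≤ k`.  The number of the gaps larger than `s` is then obtained from
truncated inclusion-exclusion (Bonferroni inequalities), where the error is controlled by
`0 ≤ det A ≤ 1`.  The Fredholm series `E` of the sine kernel is differentiated twice: the derivative
of an integral over a cube `[0,s]^k` of a symmetric function is `k` times an integral over the
face.  For (3) the mean of the gaps is one, and stochastic domination of a law by another one with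
the same mean is an equality.
-/

open Filter Topology MeasureTheory Set

namespace Pool.Agent.Results.MP_7eacff_nt.EitherSideLevels

/-- multiplicity of `s` as a zero of the Riemann zeta function (order of vanishing at `s`) -/
noncomputable def zmult (s : ℂ) : ℕ := analyticOrderNatAt riemannZeta s

/-- the number of nontrivial zeros of `ζ` with ordinate in `(0, t]`, with multiplicity -/
noncomputable def NZ (t : ℝ) : ℕ :=
  ∑ᶠ s ∈ {s : ℂ | riemannZeta s = 0 ∧ 0 < s.re ∧ s.re < 1 ∧ 0 < s.im ∧ s.im ≤ t}, zmult s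

/-- for `n ≥ 1`: the `n`-th positive ordinate `γ n` of a nontrivial zero of `ζ`, the ordinates being
listed in nondecreasing order and repeated according to multiplicity -/
noncomputable def γ (n : ℕ) : ℝ := sInf {t : ℝ | n ≤ NZ t}

/-- the unfolded consecutive gaps `δ_n = (γ_{n+1} - γ_n) / 2π · log (γ_n / 2π)` -/
noncomputable def δ (n : ℕ) : ℝ := (γ (n + 1) - γ n) / (2 * Real.pi) * Real.log (γ n / (2 * Real.pi))

/-- the proportion of the indices `1 ≤ n ≤ N` for which `δ_n` lies in the set `I` -/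
noncomputable def P (N : ℕ) (I : Set ℝ) : ℝ :=
  (1 / N : ℝ) * ({n : ℕ | 1 ≤ n ∧ n ≤ N ∧ δ n ∈ I}.ncard : ℝ)

/-- the matrix with the entries `sin π(u_i - u_j) / π(u_i - u_j)`, and `1` if `u_i = u_j` -/
noncomputable def A {n : ℕ} (u : Fin n → ℝ) : Matrix (Fin n) (Fin n) ℝ :=
  Matrix.of fun i j => Real.sinc (Real.pi * (u i - u j))

/-- the Fredholm determinant `det(1 - K_s)` of the sine kernel on `(0, s)`:
`E(s) = ∑_k (-1)^k / k! ∫_{[0,s]^k} det A(u) du` -/
noncomputable def E (s : ℝ) : ℝ :=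
  ∑' k : ℕ, (-1) ^ k / (k.factorial : ℝ) * ∫ u in Icc (0 : Fin k → ℝ) (fun _ => s), (A u).det

/-- the nontrivial zeros of `ζ` with ordinate in `(0, T]`, every zero being listed with as many
labels `0, 1, …` as its multiplicity -/
def Z (T : ℝ) : Set (ℂ × ℕ) :=
  {p | riemannZeta p.1 = 0 ∧ 0 < p.1.re ∧ p.1.re < 1 ∧ 0 < p.1.im ∧ p.1.im ≤ T ∧
    p.2 < analyticOrderNatAt riemannZeta p.1}

/-- with `k = r + 1`: the number of `k`-tuples of pairwise distinct (labelled) zeros with ordinates
at most `T` whose normalised differences with the last ordinate lie in the box `∏ [a_i, b_i]` -/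
noncomputable def Nk (r : ℕ) (T : ℝ) (a b : Fin r → ℝ) : ℕ :=
  {t : Fin (r + 1) → ℂ × ℕ | Function.Injective t ∧ (∀ i, t i ∈ Z T) ∧
    ∀ i : Fin r, ((t i.castSucc).1.im - (t (Fin.last r)).1.im) * Real.log T / (2 * Real.pi) ∈
      Set.Icc (a i) (b i)}.ncard

/-- the upper half of the `k`-level correlation conjecture, `k = r + 1`: for all boxes the number of
the `k`-tuples is at most `(∫_B det A(u_1, …, u_{k-1}, 0) du + ε) (T / 2π) log T` for large `T` -/
def Upper (r : ℕ) : Prop := ∀ a b : Fin r → ℝ, (∀ i, a i < b i) → ∀ ε : ℝ, 0 < ε →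
  ∀ᶠ T : ℝ in atTop, (Nk r T a b : ℝ) ≤
    ((∫ u in Set.Icc a b, (A (Fin.snoc u 0 : Fin (r + 1) → ℝ)).det) + ε) *
      (T * Real.log T / (2 * Real.pi))

/-- the lower half -/
def Lower (r : ℕ) : Prop := ∀ a b : Fin r → ℝ, (∀ i, a i < b i) → ∀ ε : ℝ, 0 < ε →
  ∀ᶠ T : ℝ in atTop, ((∫ u in Set.Icc a b, (A (Fin.snoc u 0 : Fin (r + 1) → ℝ)).det) - ε) *
    (T * Real.log T / (2 * Real.pi)) ≤ (Nk r T a b : ℝ)

/-- `∫ φ(t) e^{2πiut} dt`: the stationary determinantal process with symbol `φ`, `0 ≤ φ ≤ 1`, has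
the kernel `K φ (x - y)` -/
noncomputable def K (φ : ℝ → ℝ) (u : ℝ) : ℂ :=
  ∫ t : ℝ, (φ t : ℂ) * Complex.exp (2 * Real.pi * u * t * Complex.I)

/-- the symbols `φ ω` of a mixture of stationary determinantal processes with mean density one,
whose correlation functions of order `k = r + 1` are finite -/
structure Mixture {Ω : Type*} [MeasurableSpace Ω] (r : ℕ) (μ : Measure Ω) (φ : Ω → ℝ → ℝ) :
    Prop where
  prob : IsProbabilityMeasure μ
  meas : Measurable (Function.uncurry φ)
  nonneg : ∀ ω t, 0 ≤ φ ω t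
  le_one : ∀ ω t, φ ω t ≤ 1
  int : ∀ ω, Integrable (φ ω)
  mean : ∫ ω, ∫ t, φ ω t ∂volume ∂μ = 1
  pow : Integrable (fun ω => (∫ t, φ ω t) ^ (r + 1)) μ

/-- the correlation function of order `n` of the mixture: the mean of `det (K (u_i - u_j))` -/
noncomputable def ρ {Ω : Type*} [MeasurableSpace Ω] (μ : Measure Ω) (φ : Ω → ℝ → ℝ) {n : ℕ}
    (u : Fin n → ℝ) : ℝ :=
  ∫ ω, ((Matrix.of fun i j => K (φ ω) (u i - u j)).det).re ∂μ

/-- the numbers of the `k`-tuples, `k = r + 1`, are asymptotically at least those of some mixture of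
stationary determinantal processes with mean density one -/
def LowerDet (r : ℕ) : Prop := ∃ (Ω : Type) (_ : MeasurableSpace Ω) (μ : Measure Ω)
  (φ : Ω → ℝ → ℝ), Mixture r μ φ ∧ ∀ a b : Fin r → ℝ, (∀ i, a i < b i) → ∀ ε : ℝ, 0 < ε →
    ∀ᶠ T : ℝ in atTop, ((∫ u in Set.Icc a b, ρ μ φ (Fin.snoc u 0 : Fin (r + 1) → ℝ)) - ε) *
      (T * Real.log T / (2 * Real.pi)) ≤ (Nk r T a b : ℝ)

/-- one of the three one-sided bounds -/
def OneSided (r : ℕ) : Prop := Upper r ∨ Lower r ∨ LowerDet r

/-- `H(s)` is the probability of `(s, ∞)`, `s ≥ 0`, for a law on `(0, ∞)` with continuous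
distribution function and mean one -/
def Tail (H : ℝ → ℝ) : Prop := Antitone H ∧ Continuous H ∧ (∀ s, 0 ≤ H s ∧ H s ≤ 1) ∧
  ∫ s in Ioi (0 : ℝ), H s = 1

lemma low_iff {r : ℕ} {D : (Fin (r + 1) → ℝ) → ℝ} :
    (∀ a b : Fin r → ℝ, (∀ i, a i < b i) → ∀ ε : ℝ, 0 < ε → ∀ᶠ T : ℝ in atTop,
      ((∫ u in Set.Icc a b, D (Fin.snoc u 0 : Fin (r + 1) → ℝ)) - ε) *
        (T * Real.log T / (2 * Real.pi)) ≤ (Nk r T a b : ℝ)) ↔
    Q241.SC.LowD Q241.KL.FZ D := by
  constructor
  · intro h a b hab ε hε
    filter_upwards [h a b hab ε hε, eventually_gt_atTop (1 : ℝ)] with T h1 hT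
    have hX : 0 < Q241.KL.X T := Pool.Agent.Y744.Xf_pos hT
    rw [Q241.KL.n_eq]
    exact (le_div_iff₀ hX).2 h1
  · intro h a b hab ε hε
    filter_upwards [h a b hab ε hε, eventually_gt_atTop (1 : ℝ)] with T h1 hT
    have hX : 0 < Q241.KL.X T := Pool.Agent.Y744.Xf_pos hT
    rw [Q241.KL.n_eq] at h1
    exact (le_div_iff₀ hX).1 h1

lemma rho_eq {Ω : Type*} [MeasurableSpace Ω] (μ : Measure Ω) (φ : Ω → ℝ → ℝ) {n : ℕ}
    (u : Fin n → ℝ) : ρ μ φ u = Q241.SC.RD μ φ 0 n u := by
  unfold ρ Q241.SC.RD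
  refine integral_congr_ae (Eventually.of_forall fun ω => ?_)
  show ((Matrix.of fun i j => K (φ ω) (u i - u j)).det).re =
    (∫ t, φ ω t) ^ 0 * ((Q241.SC.DK (φ ω) u).det).re
  rw [pow_zero, one_mul]
  rfl

/-- each of the three bounds implies the upper half -/
lemma upper_of {r : ℕ} (hr : 1 ≤ r) (h : OneSided r) : Q241.KL.Upper r := by
  rcases h with h | h | h
  · exact h
  · exact Q241.KL.conj_upper (Q241.SC.conj_of_low
      ((low_iff (D := fun p => (Q241.KL.SA p).det)).1 h))
  · obtain ⟨Ω, _, μ, φ, h1, h2⟩ := h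
    have := h1.prob
    simp_rw [rho_eq] at h2
    exact Q241.KL.conj_upper (Q241.SC.conj_of_det hr
      ⟨h1.meas, h1.nonneg, h1.le_one, h1.int, h1.mean, h1.pow⟩ (low_iff.1 h2)).1

/-- (1) a one-sided bound at one level `k = r + 1` gives the law of the gaps with an error
`e^s s^(k-1) / (k-1)!`; (2) one-sided bounds at infinitely many levels imply Q1 (the density of the
Gaudin law is `E''`); (3) for laws with mean one: an upper bound for the distribution function of
the gaps suffices. -/
theorem result :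
    (∀ r : ℕ, 1 ≤ r → OneSided r → ∀ s : ℝ, 0 < s → ∀ ε : ℝ, 0 < ε → ∀ᶠ N : ℕ in atTop,
      |P N (Ioi s) - (-deriv E s)| ≤ Real.exp s * s ^ r / (r.factorial : ℝ) + ε) ∧
    ((∀ r₀ : ℕ, ∃ r : ℕ, r₀ ≤ r ∧ OneSided r) → ∀ α β : ℝ, 0 < α → α < β →
      Tendsto (fun N : ℕ => P N (Icc α β)) atTop (𝓝 (∫ s in α..β, deriv (deriv E) s))) ∧
    (∀ H : ℝ → ℝ, Tail H →
      ((∀ α β : ℝ, 0 < α → α < β → Tendsto (fun N : ℕ => P N (Icc α β)) atTop (𝓝 (H α - H β))) ↔
        ∀ s : ℝ, 0 < s → ∀ ε : ℝ, 0 < ε → ∀ᶠ N : ℕ in atTop, P N (Iic s) ≤ 1 - H s + ε)) := by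
  refine ⟨fun r hr h s hs ε hε => ?_, fun h α β hα hαβ => ?_, fun H hH => ?_⟩
  · have h1 := Q241.GL.level Q241.GL.Cmp_D1 hr (upper_of hr h) hs hε
    filter_upwards [h1] with N hN
    rw [sub_neg_eq_add, mul_comm (Real.exp s)]
    exact hN
  · have h' : ∀ r0 : ℕ, ∃ r : ℕ, r0 ≤ r ∧ Q241.KL.Upper r := fun r0 => by
      obtain ⟨r, h1, h2⟩ := h (max r0 1)
      exact ⟨r, (le_max_left _ _).trans h1, upper_of ((le_max_right _ _).trans h1) h2⟩
    exact Q241.GL.levels Q241.GL.Cmp_D1 h' hα hαβ
  · obtain ⟨h1, h2, h3, h4⟩ := hH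
    exact Q241.GL.half Q241.GL.MeanLe_D1 (H := H) ⟨h1, h2, fun s => (h3 s).1, fun s => (h3 s).2, h4⟩

end Pool.Agent.Results.MP_7eacff_nt.EitherSideLevels
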