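import Pool.Agent.Q26.CP.Main

/-!
# Bloch's conjecture for surfaces with `p_g = 0` is the existence of one number

For a surface `X` the group `B(X)` is finite-dimensional (`d(X) = 0`) if and only if a multiple of
the diagonal of `X × X` is rationally equivalent to a cycle supported on `C × X ∪ X × C`, with a
curve `C` (Bloch-Srinivas). Let us say that `X ⊂ ℙ^N` has a decomposition of complexity at most
`n` if this holds for the `a`-fold of the diagonal with `1 ≤ a ≤ n`, such that the curve, the cycle
and the cycle on `X × X × ℙ¹` which gives the rational equivalence have degrees at most `n`.

The following are equivalent.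
1. Bloch's conjecture: `d(X) = 0` for all smooth projective complex surfaces with `p_g = 0`.
2. There is a number `n` such that all canonical surfaces with `p_g = q = 0` and `K² ≤ 9` over all
   algebraically closed fields of characteristic zero, embedded by `|5K|`, have a
   decomposition of complexity at most `n`.
3. There is a number `n` such that for infinitely many primes `p` all canonical surfaces with
   `p_g = q = 0` and `K² ≤ 9` over `F̄_p`, embedded by `|5K|`, have a decomposition of complexity
   at most `n`.
4. There is a number `n` such that the same is true for all but finitely many primes `p`.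

Here a canonical surface is a normal surface with at most rational double points and `K` ample.
-/

set_option autoImplicit false

namespace Pool.Agent.Results.MP_7ebcb6_ag.OneNumber

open Pool.Agent.Q26.CP

/-- The smooth projective complex surfaces with `p_g = 0`, and the canonical surfaces with
`p_g = q = 0` and `K² ≤ 9` over all algebraically closed fields.

`S` is the type of smooth projective complex surfaces `X` with `p_g = 0` and `d X` is the integer
`d(X)` of Roitman. A canonical surface with `p_g = q = 0` and `K² ≤ 9` over `K`, embedded by
`|5K|` in a projective space, is given by the coefficients of equations, a point of `K ^ k` which has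
the first-order property `can`; the first-order property `dec n` says that the surface has a
decomposition of complexity at most `n`. Finally `IsModel X x` says that the canonical surface over
`ℂ` with parameters `x` is the canonical model of the surface `X`.

`d_eq_zero`: if `X` is not of general type, then `d(X) = 0` (Bloch, Kas, Lieberman), and otherwise
`X` has a canonical model embedded by `|5K|` (Bombieri), where `q = 0` and `K² ≤ 9` as `χ ≥ 1` and by
the inequality of Bogomolov, Miyaoka and Yau. `exists_surface`: the resolution of a canonical surface
has this surface as its canonical model. `dec_iff`: the theorem of Bloch and Srinivas. -/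
structure SurfacesPgZero where
  S : Type
  d : S → ℕ
  k : ℕ
  can : Pred k
  dec : ℕ → Pred k
  fo_can : IsFirstOrder can
  fo_dec : ∀ n, IsFirstOrder (dec n)
  dec_mono : ∀ (m n : ℕ), m ≤ n → ∀ (K : Type) [Field K] (x : Fin k → K), dec m K x → dec n K x
  IsModel : S → (Fin k → ℂ) → Prop
  can_of_isModel : ∀ X x, IsModel X x → can ℂ x
  d_eq_zero : ∀ X, d X = 0 ∨ ∃ x, IsModel X x
  exists_surface : ∀ x, can ℂ x → ∃ X, IsModel X x
  dec_iff : ∀ X x, IsModel X x → (d X = 0 ↔ ∃ n, dec n ℂ x)

/-- all canonical surfaces with `p_g = q = 0` and `K² ≤ 9` over `K` have a decomposition of
complexity at most `n` -/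
def Bounded (M : SurfacesPgZero) (n : ℕ) (K : Type) [Field K] : Prop :=
  ∀ x : Fin M.k → K, M.can K x → M.dec n K x

/-- Bloch's conjecture: `d(X) = 0` for all complex surfaces with `p_g = 0` -/
def BlochConjecture (M : SurfacesPgZero) : Prop := ∀ X : M.S, M.d X = 0

/-- one number for all algebraically closed fields of characteristic zero -/
def OneNumberCharZero (M : SurfacesPgZero) : Prop :=
  ∃ n, ∀ (K : Type) [Field K] [IsAlgClosed K] [CharZero K], Bounded M n K

/-- one number for infinitely many primes -/
def OneNumberInfinitely (M : SurfacesPgZero) : Prop :=
  ∃ n, {p : Nat.Primes | Bounded M n (Fbar p)}.Infinite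

/-- one number for all but finitely many primes -/
def OneNumberAlmost (M : SurfacesPgZero) : Prop :=
  ∃ n, {p : Nat.Primes | ¬ Bounded M n (Fbar p)}.Finite

/-- the conjecture as a `Problem` -/
def SurfacesPgZero.problem (M : SurfacesPgZero) : Problem where
  k := M.k
  hyp _ := M.can
  con := M.dec
  fo_hyp _ := M.fo_can
  fo_con := M.fo_dec
  hyp_anti _ _ _ _ _ _ h := h
  con_mono := M.dec_mono

/-- The following are equivalent: Bloch's conjecture for all complex surfaces with `p_g = 0`;
there is one number `n` such that all canonical surfaces with `p_g = q = 0`, `K² ≤ 9` over all
algebraically closed fields of characteristic zero have a decomposition of the diagonal of complexity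
at most `n`; there is one such number for the canonical surfaces over `F̄_p`, for infinitely
many primes `p`; there is one such number for all but finitely many primes `p`. -/
theorem result (M : SurfacesPgZero) : [BlochConjecture M, OneNumberCharZero M,
    OneNumberInfinitely M, OneNumberAlmost M].TFAE := by
  have key : BlochConjecture M ↔ M.problem.Solved ℂ := by
    constructor
    · intro h x hx
      obtain ⟨X, hX⟩ := M.exists_surface x (hx 0)
      exact (M.dec_iff X x hX).1 (h X)
    · intro h X
      rcases M.d_eq_zero X with h0 | ⟨x, hx⟩
      · exact h0
      · exact (M.dec_iff X x hx).2 (h x fun _ => M.can_of_isModel X x hx)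
  tfae_have 1 → 2 := fun h => (M.problem.tfae.out 0 2).1 (key.1 h)
  tfae_have 2 → 4 := fun h => (M.problem.tfae.out 2 4).1 h
  tfae_have 4 → 3 := fun h => (M.problem.tfae.out 4 3).1 h
  tfae_have 3 → 1 := fun h => key.2 ((M.problem.tfae.out 3 0).1 h)
  tfae_finish

end Pool.Agent.Results.MP_7ebcb6_ag.OneNumber
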