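import Mathlib
import Pool.Agent.Results.MP_7ecdd4_nt.FewExceptions
import Pool.Agent.Q273.Apx

/-!
# The strong n-conjecture at the approximations of given points
-/

set_option autoImplicit false

namespace Pool.Agent.Results.MP_7ecdd4_nt.GoodApproximations

/-- an admissible tuple: nonzero pairwise coprime integers with sum zero -/
structure Admissible (n : ℕ) where
  /-- the entries -/
  x : Fin n → ℤ
  /-- they are not zero -/
  ne_zero : ∀ i, x i ≠ 0
  /-- they are pairwise coprime -/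
  coprime : ∀ i j, i ≠ j → Int.gcd (x i) (x j) = 1
  /-- their sum is zero -/
  sum_zero : ∑ i, x i = 0

/-- the radical of the product of the entries -/
def Admissible.rad {n : ℕ} (P : Admissible n) : ℕ := ∏ p ∈ (∏ i, P.x i).natAbs.primeFactors, p

/-- the largest absolute value of the entries -/
def Admissible.size {n : ℕ} (P : Admissible n) : ℕ := Finset.univ.sup fun i => (P.x i).natAbs

private theorem le_size {n : ℕ} (P : Admissible n) (i : Fin n) : (P.x i).natAbs ≤ P.size :=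
  Finset.le_sup (f := fun i => (P.x i).natAbs) (Finset.mem_univ i)

private theorem prod_ne {n : ℕ} (P : Admissible n) : (∏ i, P.x i).natAbs ≠ 0 := by
  rw [Int.natAbs_ne_zero]
  exact Finset.prod_ne_zero_iff.2 fun i _ => P.ne_zero i

private theorem rad_pos {n : ℕ} (P : Admissible n) : 1 ≤ P.rad :=
  Finset.prod_pos fun _ hp => (Nat.prime_of_mem_primeFactors hp).pos

/-- either all entries are units or the radical is at least two -/
private theorem size_le_one {n : ℕ} (P : Admissible n) (h : P.rad ≤ 1) : P.size ≤ 1 := by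
  unfold Admissible.size
  apply Finset.sup_le
  intro i _
  by_contra hcon
  push Not at hcon
  obtain ⟨p, hp, hdvd⟩ := Nat.exists_prime_and_dvd (show (P.x i).natAbs ≠ 1 by omega)
  have h1 : p ∣ (∏ i, P.x i).natAbs := by
    refine hdvd.trans ?_
    rw [Int.natAbs_dvd_natAbs]
    exact Finset.dvd_prod_of_mem _ (Finset.mem_univ i)
  have h2 : p ∈ (∏ i, P.x i).natAbs.primeFactors := Nat.mem_primeFactors.2 ⟨hp, h1, prod_ne P⟩
  have h3 : p ≤ P.rad := Nat.le_of_dvd (rad_pos P) (Finset.dvd_prod_of_mem _ h2)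
  have := hp.two_le
  omega

private theorem ext_x {n : ℕ} : Function.Injective (fun P : Admissible n => P.x) := by
  rintro ⟨x, _, _, _⟩ ⟨y, _, _, _⟩ h
  simp only at h
  subst h
  rfl

/-- the exponent of the count of the exceptions -/
noncomputable def expo (n : ℕ) (M : ℝ) : ℝ := (3 * (n : ℝ) - 5) / ((3 * (n : ℝ) - 2) * M)

private theorem count {n : ℕ} (hn : 4 ≤ n) {M : ℝ} (hM : 10 / (3 * (n : ℝ) - 2) ≤ M) (ε : ℝ)
    (hε : 0 < ε) : ∃ C : ℝ, ∀ X : ℝ, 1 ≤ X →
      {P : Admissible n | P ∈ {P : Admissible n | (P.rad : ℝ) ^ M < P.size} ∧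
        (P.size : ℝ) ≤ X}.Finite ∧
      ({P : Admissible n | P ∈ {P : Admissible n | (P.rad : ℝ) ^ M < P.size} ∧
        (P.size : ℝ) ≤ X}.ncard : ℝ) ≤ C * X ^ (expo n M + ε) := by
  obtain ⟨C, hC⟩ := FewExceptions.result n hn M hM ε hε
  refine ⟨|C|, fun X hX => ?_⟩
  have hX0 : 0 < X := by linarith
  set N : ℕ := ⌊X⌋₊ with hN
  have hN1 : 1 ≤ N := Nat.le_floor (by exact_mod_cast hX)
  have hNX : (N : ℝ) ≤ X := Nat.floor_le hX0.le
  have hn' : (4 : ℝ) ≤ n := by exact_mod_cast hn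
  have hM0 : 0 < M := lt_of_lt_of_le (div_pos (by norm_num) (by linarith)) hM
  set S := {P : Admissible n | P ∈ {P : Admissible n | (P.rad : ℝ) ^ M < P.size} ∧
        (P.size : ℝ) ≤ X} with hS
  set V := {x : Fin n → ℤ | FewExceptions.Admissible x ∧ (∀ i, |x i| ≤ (N : ℤ)) ∧
    ¬ FewExceptions.Holds M x} with hV
  have hVfin : V.Finite := by
    apply Set.Finite.subset (Set.Finite.pi' (fun _ : Fin n => Set.finite_Icc (-(N : ℤ)) N))
    rintro x ⟨-, h1, -⟩
    intro i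
    exact abs_le.1 (h1 i)
  have hmaps : (fun P : Admissible n => P.x) '' S ⊆ V := by
    rintro _ ⟨P, ⟨h1, h2⟩, rfl⟩
    have h3 : P.size ≤ N := Nat.le_floor h2
    refine ⟨⟨P.ne_zero, P.coprime, P.sum_zero⟩, fun i => ?_, ?_⟩
    · have := le_size P i
      rw [Int.abs_eq_natAbs]
      exact_mod_cast this.trans h3
    · intro h4
      have h5 : ((P.rad : ℕ) : ℝ) ^ M < (P.size : ℝ) := h1
      have hne : (Finset.univ : Finset (Fin n)).Nonempty := ⟨⟨0, by omega⟩, Finset.mem_univ _⟩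
      obtain ⟨i, -, hi⟩ := Finset.exists_mem_eq_sup Finset.univ hne (fun i => (P.x i).natAbs)
      have h6 := h4 i
      have h7 : |((P.x i : ℤ) : ℝ)| = (P.size : ℝ) := by
        have h8 : P.size = (P.x i).natAbs := hi
        rw [h8, Nat.cast_natAbs]
        push_cast
        rfl
      rw [h7] at h6
      have h8 : (∏ i, P.x i).natAbs.primeFactors.prod id = P.rad := rfl
      rw [h8] at h6
      linarith
  have hfin : S.Finite := Set.Finite.of_finite_image (hVfin.subset hmaps) ext_x.injOn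
  refine ⟨hfin, ?_⟩
  have h9 : (S.ncard : ℝ) ≤ V.ncard := by
    rw [← Set.ncard_image_of_injective S ext_x]
    exact_mod_cast Set.ncard_le_ncard hmaps hVfin
  have h10 : (0 : ℝ) ≤ expo n M + ε := by
    unfold expo
    have : 0 ≤ (3 * (n : ℝ) - 5) / ((3 * (n : ℝ) - 2) * M) :=
      div_nonneg (by linarith) (mul_nonneg (by linarith) hM0.le)
    linarith
  calc (S.ncard : ℝ) ≤ V.ncard := h9
    _ ≤ C * (N : ℝ) ^ (expo n M + ε) := hC N hN1
    _ ≤ |C| * X ^ (expo n M + ε) := by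
        refine mul_le_mul (le_abs_self C) ?_ (by positivity) (abs_nonneg C)
        exact Real.rpow_le_rpow (Nat.cast_nonneg _) hNX h10

private theorem expo_nonneg {n : ℕ} (hn : 4 ≤ n) {M : ℝ} (hM : 0 < M) : 0 ≤ expo n M := by
  have hn' : (4 : ℝ) ≤ n := by exact_mod_cast hn
  unfold expo
  exact div_nonneg (by linarith) (mul_nonneg (by linarith) hM.le)

/-- **The strong n-conjecture at the approximations of given points.** Let `n ≥ 4`, let `Y` be a
metric space and `φ` any map from the admissible `n`-tuples to `Y`, for instance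
`(x_1 / x_n, …, x_(n-1) / x_n)` in a real or `p`-adic space.
(1) Let `M ≥ 10 / (3 n - 2)` and `τ > 0`. There is a set `E` in `Y` of Hausdorff dimension at most
`(3 n - 5) / ((3 n - 2) M τ)` such that for each `ξ` outside `E` and each `A`, all but finitely many
admissible tuples with `dist(ξ, φ(x)) ≤ A (max |x_j|) ^ (-τ)` satisfy `max |x_j| ≤ rad ^ M`.
(2) There is a set `E` in `Y` of Hausdorff dimension zero such that for each `ξ` outside `E`, all
`τ > 0` and `A` there is an `M` with `max |x_j| ≤ rad ^ M` for ALL admissible tuples with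
`dist(ξ, φ(x)) ≤ A (max |x_j|) ^ (-τ)`. -/
theorem result.{u} (n : ℕ) (hn : 4 ≤ n) (Y : Type u) [MetricSpace Y] (φ : Admissible n → Y) :
    (∀ M τ : ℝ, 10 / (3 * (n : ℝ) - 2) ≤ M → 0 < τ → ∃ E : Set Y,
      dimH E ≤ ENNReal.ofReal ((3 * (n : ℝ) - 5) / ((3 * (n : ℝ) - 2) * M * τ)) ∧
      ∀ ξ : Y, ξ ∉ E → ∀ A : ℝ, {P : Admissible n | dist ξ (φ P) ≤ A * (P.size : ℝ) ^ (-τ) ∧
        ¬ (P.size : ℝ) ≤ (P.rad : ℝ) ^ M}.Finite) ∧
    ∃ E : Set Y, dimH E = 0 ∧ ∀ ξ : Y, ξ ∉ E → ∀ τ A : ℝ, 0 < τ → ∃ M : ℝ,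
      ∀ P : Admissible n, dist ξ (φ P) ≤ A * (P.size : ℝ) ^ (-τ) →
        (P.size : ℝ) ≤ (P.rad : ℝ) ^ M := by
  have hn' : (4 : ℝ) ≤ n := by exact_mod_cast hn
  have hone : ∀ M τ : ℝ, 10 / (3 * (n : ℝ) - 2) ≤ M → 0 < τ → ∃ E : Set Y,
      dimH E ≤ ENNReal.ofReal ((3 * (n : ℝ) - 5) / ((3 * (n : ℝ) - 2) * M * τ)) ∧
      ∀ ξ : Y, ξ ∉ E → ∀ A : ℝ, {P : Admissible n | dist ξ (φ P) ≤ A * (P.size : ℝ) ^ (-τ) ∧
        ¬ (P.size : ℝ) ≤ (P.rad : ℝ) ^ M}.Finite := by
    intro M τ hM hτ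
    have hM0 : 0 < M := lt_of_lt_of_le (div_pos (by norm_num) (by linarith)) hM
    obtain ⟨E, h1, h2⟩ := Q273.Apx.approx {P : Admissible n | (P.rad : ℝ) ^ M < P.size}
      (fun P => (P.size : ℝ)) φ (s := expo n M) (τ := τ) (expo_nonneg hn hM0) hτ (count hn hM)
    refine ⟨E, ?_, fun ξ hξ A => (h2 ξ hξ A).subset ?_⟩
    · unfold expo at h1
      rw [div_div] at h1
      exact h1
    · rintro P ⟨h3, h4⟩
      push Not at h4
      exact ⟨h4, h3⟩
  refine ⟨hone, ?_⟩
  have hex : ∀ m k : ℕ, ∃ E : Set Y,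
      dimH E ≤ ENNReal.ofReal ((3 * (n : ℝ) - 5) /
        ((3 * (n : ℝ) - 2) * ((k : ℝ) + 1) * (1 / ((m : ℝ) + 1)))) ∧
      ∀ ξ : Y, ξ ∉ E → ∀ A : ℝ, {P : Admissible n | dist ξ (φ P) ≤
        A * (P.size : ℝ) ^ (-(1 / ((m : ℝ) + 1))) ∧
        ¬ (P.size : ℝ) ≤ (P.rad : ℝ) ^ ((k : ℝ) + 1)}.Finite := by
    intro m k
    apply hone _ _ _ (by positivity)
    have hk : (0 : ℝ) ≤ k := Nat.cast_nonneg k
    rw [div_le_iff₀ (by linarith)]
    nlinarith
  choose E h4 h5 using hex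
  refine ⟨⋃ m, ⋂ k, E m k, ?_, fun ξ hξ τ A hτ => ?_⟩
  · rw [dimH_iUnion]
    simp only [ENNReal.iSup_eq_zero]
    intro m
    have h6 : ∀ k : ℕ, dimH (⋂ k, E m k) ≤ ENNReal.ofReal ((3 * (n : ℝ) - 5) /
        ((3 * (n : ℝ) - 2) * ((k : ℝ) + 1) * (1 / ((m : ℝ) + 1)))) :=
      fun k => (dimH_mono (Set.iInter_subset _ k)).trans (h4 m k)
    have h7 : Filter.Tendsto (fun k : ℕ => ENNReal.ofReal ((3 * (n : ℝ) - 5) /
        ((3 * (n : ℝ) - 2) * ((k : ℝ) + 1) * (1 / ((m : ℝ) + 1))))) Filter.atTop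
        (nhds (ENNReal.ofReal 0)) := by
      apply ENNReal.tendsto_ofReal
      have h8 : Filter.Tendsto (fun k : ℕ => (3 * (n : ℝ) - 2) * ((k : ℝ) + 1) *
          (1 / ((m : ℝ) + 1))) Filter.atTop Filter.atTop :=
        ((Filter.tendsto_atTop_add_const_right _ _ tendsto_natCast_atTop_atTop).const_mul_atTop
          (by linarith)).atTop_mul_const (by positivity)
      exact h8.const_div_atTop _
    rw [ENNReal.ofReal_zero] at h7
    exact le_antisymm (ge_of_tendsto' h7 h6) zero_le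
  · obtain ⟨m, hm⟩ := exists_nat_one_div_lt hτ
    have hξ' : ξ ∉ ⋂ k, E m k := fun h => hξ (Set.mem_iUnion.2 ⟨m, h⟩)
    rw [Set.mem_iInter] at hξ'
    push Not at hξ'
    obtain ⟨k, hk⟩ := hξ'
    have hfin := h5 m k ξ hk |A|
    obtain ⟨L, hL⟩ := (hfin.image (fun P => (P.size : ℝ))).bddAbove
    obtain ⟨j, hj⟩ := pow_unbounded_of_one_lt L (one_lt_two : (1 : ℝ) < 2)
    refine ⟨max ((k : ℝ) + 1) j, fun P hP => ?_⟩
    rcases Nat.lt_or_ge P.rad 2 with hr | hr
    · have h6 : P.rad = 1 := by have := rad_pos P; omega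
      rw [h6, Nat.cast_one, Real.one_rpow]
      exact_mod_cast size_le_one P (by omega)
    · have h2r : (2 : ℝ) ≤ (P.rad : ℝ) := by exact_mod_cast hr
      have hs1 : (1 : ℝ) ≤ (P.size : ℝ) := by
        have h6 := le_size P ⟨0, by omega⟩
        have h7 : (P.x ⟨0, by omega⟩).natAbs ≠ 0 := Int.natAbs_ne_zero.2 (P.ne_zero _)
        exact_mod_cast (by omega : 1 ≤ P.size)
      by_cases hbad : (P.size : ℝ) ≤ (P.rad : ℝ) ^ ((k : ℝ) + 1)
      · exact hbad.trans (Real.rpow_le_rpow_of_exponent_le (by linarith) (le_max_left _ _))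
      · have h6 : (P.size : ℝ) ≤ L := by
          apply hL
          refine ⟨P, ⟨?_, hbad⟩, rfl⟩
          refine hP.trans (mul_le_mul (le_abs_self A) ?_ (by positivity) (abs_nonneg A))
          exact Real.rpow_le_rpow_of_exponent_le hs1 (by linarith)
        calc (P.size : ℝ) ≤ 2 ^ j := h6.trans hj.le
          _ = (2 : ℝ) ^ (j : ℝ) := (Real.rpow_natCast 2 j).symm
          _ ≤ (P.rad : ℝ) ^ (j : ℝ) := Real.rpow_le_rpow (by norm_num) h2r (Nat.cast_nonneg _)
          _ ≤ _ := Real.rpow_le_rpow_of_exponent_le (by linarith) (le_max_right _ _)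

end Pool.Agent.Results.MP_7ecdd4_nt.GoodApproximations
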