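import Pool.Agent.Q125.Tmr.Main

set_option autoImplicit false

namespace Pool.Agent.Results.MP_7ecff9_co.DijoinTriangle

open Q125.Tmr

/-- The answer to Q1 is positive: for every tournament `D`, both dijoins of `D` with the directed
triangle have tournament minimum rank `tmr D + 1`. -/
theorem result (V : Type) [Fintype V] (D : Tournament V) :
    tmr (dijoin D triangle) = tmr D + 1 ∧ tmr (dijoin triangle D) = tmr D + 1 :=
  main D

end Pool.Agent.Results.MP_7ecff9_co.DijoinTriangle
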