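import Mathlib
import Pool.Agent.Q7.SZ.Ell

/-!
# No poles of L(E/F, s) where L(E/M, s) has order at most two

`Pool.Agent.H541R3.ART.Irr G` is the set of irreducible complex characters of the finite group `G`.

Let `E` be an elliptic curve over a number field `K` and `M/K` a Galois extension with group `G` such
that `E` is automorphic over `M`. (If `K` is totally real or CM, every `E/K` has such an `M`:
potential modularity.) By solvable descent `E` is then automorphic over the fixed field `M ^ H` for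
every SOLVABLE subgroup `H` of `G`; for the other subgroups nothing is known. Accordingly
`Pool.Agent.Q7.SZ.TwistData G s₀` is a family of functions with the known formal properties of the
twisted L-functions of `E` near `s₀`: functions `L χ` (for `L(E ⊗ χ, s)`, `χ ∈ Irr G`), meromorphic
and not identically zero near `s₀` (Brauer), and `Lin H ψ` (for `L(E / M ^ H ⊗ ψ, s)`, `ψ` a linear
character of a subgroup `H`) which have no pole at `s₀` if `H` is solvable, and which are the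
products of the `L χ ^ ⟨χ|_H, ψ⟩` (induction). In particular `Lin ⊥ 1` stands for `L(E/M, s)` and
`Lin H 1` for `L(E / M ^ H, s)`.

`Pool.Agent.Y788.res G` is the intersection of the derived series of `G`; it is the smallest normal
subgroup with solvable quotient, and it is perfect.

For a linear character `D` of `G` and a function `χ` on `G`, `Pool.Agent.Q7.TZ.dual D χ` is the
function `g ↦ D g * χ g⁻¹`, and `Pool.Agent.Q7.TZ.Symplectic D χ` says that `dual D χ = χ` and that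
the twisted Frobenius-Schur indicator `|G|⁻¹ ∑ χ (g ^ 2) * (D g)⁻¹` is `-1` (for `D = 1`: `χ` is
symplectic).
-/

set_option autoImplicit false

open Pool.Agent.H541R3.ART Pool.Agent.H302R2 Pool.Agent.H302R3 Pool.Agent.W446.AS Pool.Agent.Y788
  Pool.Agent.Q7.TZ Pool.Agent.Q7.SZ

/-- Let `G`, an arbitrary finite group, be the Galois group of `M/K`, and let `L(E/M, s)` have order
`r ≤ 2` at `s₀`.
(1) `L(E/F ⊗ ψ, s)` is holomorphic at `s₀` for every field `F` between `K` and `M` and every linear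
character `ψ` of the Galois group of `M/F`; in particular `L(E/F, s)` is holomorphic at `s₀`.
(2) Either `L(E ⊗ χ, s)` is holomorphic and nonzero at `s₀` for all `χ` which are nontrivial on
`res G`, or `r = 2` and `res G` has a normal subgroup `N` such that `res G / N` has exactly one
involution and such that `N` acts trivially and this involution acts as `-1` in all `χ` for which
`L(E ⊗ χ, s)` has a zero or a pole at `s₀`.
(3) Let `r = 2`. Then there is a linear character `D` of `G` such that `L χ` and `L (dual D χ)` have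
the same order at `s₀` for all `χ`, and one of the following holds: `L μ` has a double zero for a
linear character `μ` with `μ ^ 2 = D`, and all other `L χ` are holomorphic and nonzero at `s₀`; or
`L χ₀` has a simple zero for one `χ₀` which is symplectic for `D`, and all other `L χ` are
holomorphic and nonzero at `s₀` except for at most two which have simple poles; or `L χ₀` and
`L (dual D χ₀)` have simple zeros for one `χ₀ ≠ dual D χ₀`, and all other `L χ` are holomorphic and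
nonzero at `s₀` except for at most one which has a simple pole. The characters with a pole are
symplectic for `D`. -/
theorem Pool.Agent.Results.MP_7ed9c3_nt.DoubleZeroTwists.result
    (G : Type) [Group G] [Finite G] (s₀ : ℂ) (A : TwistData G s₀) (r : ℕ) (hr2 : r ≤ 2)
    (hr : meromorphicOrderAt (A.Lin ⊥ 1) s₀ = (r : WithTop ℤ)) :
    (∀ (H : Subgroup G) (ψ : H →* ℂˣ), 0 ≤ meromorphicOrderAt (A.Lin H ψ) s₀) ∧
    ((∀ χ ∈ Irr G, (∃ n ∈ res G, χ n ≠ χ 1) → meromorphicOrderAt (A.L χ) s₀ = 0) ∨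
      (r = 2 ∧ ∃ (N : Subgroup (res G)) (_ : N.Normal),
        (∃! t : res G ⧸ N, t ≠ 1 ∧ t * t = 1) ∧
        ∀ χ ∈ Irr G, meromorphicOrderAt (A.L χ) s₀ ≠ 0 → (∀ k ∈ N, χ k = χ 1) ∧
          ∀ z : res G, z ∉ N → z * z ∈ N → χ z = -χ 1)) ∧
    (r = 2 →
      ∃ D : G →* ℂˣ,
        (∀ χ ∈ Irr G, dual D χ ∈ Irr G ∧
          meromorphicOrderAt (A.L (dual D χ)) s₀ = meromorphicOrderAt (A.L χ) s₀) ∧
        ((∃ μ : G →* ℂˣ, μ * μ = D ∧
            meromorphicOrderAt (A.L fun g => ((μ g : ℂˣ) : ℂ)) s₀ = ((2 : ℤ) : WithTop ℤ) ∧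
            ∀ χ ∈ Irr G, χ ≠ (fun g => ((μ g : ℂˣ) : ℂ)) → meromorphicOrderAt (A.L χ) s₀ = 0) ∨
          (∃ χ₀ ∈ Irr G, Symplectic D χ₀ ∧
            meromorphicOrderAt (A.L χ₀) s₀ = ((1 : ℤ) : WithTop ℤ) ∧
            ∃ N : Finset (G → ℂ), N.card ≤ 2 ∧
              (∀ ψ ∈ N, ψ ∈ Irr G ∧ Symplectic D ψ ∧
                meromorphicOrderAt (A.L ψ) s₀ = ((-1 : ℤ) : WithTop ℤ)) ∧
              ∀ χ ∈ Irr G, χ ≠ χ₀ → χ ∉ N → meromorphicOrderAt (A.L χ) s₀ = 0) ∨
          (∃ χ₀ ∈ Irr G, dual D χ₀ ≠ χ₀ ∧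
            meromorphicOrderAt (A.L χ₀) s₀ = ((1 : ℤ) : WithTop ℤ) ∧
            meromorphicOrderAt (A.L (dual D χ₀)) s₀ = ((1 : ℤ) : WithTop ℤ) ∧
            ∃ N : Finset (G → ℂ), N.card ≤ 1 ∧
              (∀ ψ ∈ N, ψ ∈ Irr G ∧ Symplectic D ψ ∧
                meromorphicOrderAt (A.L ψ) s₀ = ((-1 : ℤ) : WithTop ℤ)) ∧
              ∀ χ ∈ Irr G, χ ≠ χ₀ → χ ≠ dual D χ₀ → χ ∉ N →
                meromorphicOrderAt (A.L χ) s₀ = 0))) := by
  have hord : ∀ χ ∈ Irr G, ∀ k : ℤ, meromorphicOrderAt (A.L χ) s₀ = (k : WithTop ℤ) ↔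
      A.ord χ = k := by
    intro χ hχ k
    rw [← A.coe_ord hχ]
    exact WithTop.coe_eq_coe
  have hord0 : ∀ χ ∈ Irr G, meromorphicOrderAt (A.L χ) s₀ = 0 ↔ A.ord χ = 0 := by
    intro χ hχ
    exact hord χ hχ 0
  have hpr : ∀ χ ∈ Irr G, meromorphicOrderAt (A.L χ) s₀ ≠ 0 → pr (theta A.ord) χ ≠ 0 := by
    intro χ hχ h
    rw [pr_theta A.ord hχ]
    intro h0
    exact h ((hord0 χ hχ).mpr (by exact_mod_cast h0))
  have hH := heil_of_sol A.isSol (theta_virt A.ord) hr2 (A.theta_one hr)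
  refine ⟨(A.toArtin hr2 hr).hecke, ?_, fun h2 => ?_⟩
  · rcases dich hH (theta_virt A.ord) hr2 (A.theta_one hr) with h | ⟨h1, K, h2, h3, h4⟩
    · left
      exact (artin_of_const (A.toArtin hr2 hr) hr2 hr h).1
    · right
      exact ⟨h1, K, h2, h3, fun χ hχ h5 => h4 χ hχ (hpr χ hχ h5)⟩
  · subst h2
    have h1 : (theta A.ord : G → ℂ) 1 = 2 := by
      rw [A.theta_one hr]; simp
    obtain ⟨D, -, hdual, hshape, -⟩ := Pool.Agent.Q7.SZ.shape_gen A.ord A.isSol h1
    refine ⟨D, fun χ hχ => ⟨(hdual χ hχ).1, ?_⟩, ?_⟩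
    · rw [← A.coe_ord (hdual χ hχ).1, ← A.coe_ord hχ, (hdual χ hχ).2]
    · rcases hshape with ⟨μ, e1, e2, e3⟩ | ⟨χ₀, hχ₀, e1, e2, N, e3, e4, e5⟩ |
        ⟨χ₀, hχ₀, e1, e2, e2', N, e3, e4, e5⟩
      · left
        exact ⟨μ, e1, (hord _ (lin_irr μ) 2).mpr e2,
          fun χ hχ hne => (hord0 χ hχ).mpr (e3 χ hχ hne)⟩
      · right; left
        exact ⟨χ₀, hχ₀, e1, (hord χ₀ hχ₀ 1).mpr e2, N, e3, fun ψ hψ =>
          ⟨(e4 ψ hψ).1, (e4 ψ hψ).2.1, (hord ψ (e4 ψ hψ).1 (-1)).mpr (e4 ψ hψ).2.2⟩,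
          fun χ hχ hne hN => (hord0 χ hχ).mpr (e5 χ hχ hne hN)⟩
      · right; right
        exact ⟨χ₀, hχ₀, e1, (hord χ₀ hχ₀ 1).mpr e2, (hord _ (hdual χ₀ hχ₀).1 1).mpr e2', N, e3,
          fun ψ hψ =>
            ⟨(e4 ψ hψ).1, (e4 ψ hψ).2.1, (hord ψ (e4 ψ hψ).1 (-1)).mpr (e4 ψ hψ).2.2⟩,
          fun χ hχ hne hne' hN => (hord0 χ hχ).mpr (e5 χ hχ hne hne' hN)⟩
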