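import Mathlib
import Pool.Agent.Q7.GR.Grow

/-!
# Holomorphy of L(E/F, s) relative to a subfield, where the order grows by at most two

`Pool.Agent.H541R3.ART.Irr G` is the set of irreducible complex characters of the finite group `G`.

Let `E` be an elliptic curve over a number field `K` and `M/K` a Galois extension with group `G` such
that `E` is automorphic over `M`. (If `K` is totally real or CM, every `E/K` has such an `M`:
potential modularity.) By solvable descent `E` is then automorphic over the fixed field `M ^ H` for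
every SOLVABLE subgroup `H` of `G`; for the other subgroups nothing is known. Accordingly
`Pool.Agent.Q7.SZ.TwistData G s₀` is a family of functions with the known formal properties of the
twisted L-functions of `E` near `s₀`: functions `L χ` (for `L(E ⊗ χ, s)`, `χ ∈ Irr G`), meromorphic
and not identically zero near `s₀` (Brauer), and `Lin H ψ` (for `L(E / M ^ H ⊗ ψ, s)`, `ψ` a linear
character of a subgroup `H`) which have no pole at `s₀` if `H` is solvable, and which are the
products of the `L χ ^ ⟨χ|_H, ψ⟩` (induction). In particular `Lin ⊥ 1` stands for `L(E/M, s)` and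
`Lin H 1` for `L(E / M ^ H, s)`.

Let `N` be a normal subgroup of `G` and `L = M ^ N`, a Galois extension of `K`. For `F = M ^ H` one
has `F ∩ L = M ^ (H ⊔ N)`. The characters `χ` which are not trivial on `N` are the ones which do not
come from the Galois group of `L/K`; the twists with them are called new.
-/

set_option autoImplicit false

open Pool.Agent.H541R3.ART Pool.Agent.H302R2 Pool.Agent.H302R3 Pool.Agent.W446.AS
  Pool.Agent.Q7.TZ Pool.Agent.Q7.SZ Pool.Agent.Q7.GR

/-- Let `r` and `r₀` be the orders of `L(E/M, s)` and of `L(E/L, s)` at `s₀`.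
(1) No growth: let `r = r₀`, and let `M/L` be solvable, or let every element of the Galois group of
`L/K` have prime power order. Then the new twists `L(E ⊗ χ, s)` are holomorphic and nonzero at `s₀`,
and `L(E/F, s)` and `L(E/F ∩ L, s)` have the same order at `s₀` for all fields `F` between `K` and
`M`.
(2) Growth at most two: let `M/L` be solvable and `r ≤ r₀ + 2` (`r₀` and the Galois group of `L/K`
are arbitrary). Then `r₀ ≤ r`; for all fields `F` between `K` and `M` the quotient
`L(E/F, s) / L(E/F ∩ L, s)` is holomorphic at `s₀`; `L(E/F ⊗ ψ, s)` is holomorphic at `s₀` for every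
linear character `ψ` of the Galois group of `M/F` which is not trivial on the one of `M/FL`; all
poles of new twists `L(E ⊗ χ, s)` at `s₀` are simple and all zeros at most double; and if
`r = r₀ + 1`, then exactly one new twist vanishes at `s₀`, a simple zero of `L(E ⊗ l, s)` for a
linear character `l`, and the others are holomorphic and nonzero. -/
theorem Pool.Agent.Results.MP_7ed9c3_nt.GrowthAtMostTwo.result
    (G : Type) [Group G] [Finite G] (s₀ : ℂ) (A : TwistData G s₀) (N : Subgroup G) [N.Normal]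
    (r r₀ : ℤ) (hr : meromorphicOrderAt (A.Lin ⊥ 1) s₀ = (r : WithTop ℤ))
    (hr₀ : meromorphicOrderAt (A.Lin N 1) s₀ = (r₀ : WithTop ℤ)) :
    (r = r₀ → (Group.IsSolvable N ∨ ∀ g : G, ∃ p k : ℕ, p.Prime ∧ g ^ p ^ k ∈ N) →
      (∀ χ ∈ Irr G, (∃ x ∈ N, χ x ≠ χ 1) → meromorphicOrderAt (A.L χ) s₀ = 0) ∧
      ∀ H : Subgroup G, meromorphicOrderAt (A.Lin (H ⊔ N) 1) s₀ =
        meromorphicOrderAt (A.Lin H 1) s₀) ∧
    (Group.IsSolvable N → r ≤ r₀ + 2 →
      r₀ ≤ r ∧
      (∀ H : Subgroup G, meromorphicOrderAt (A.Lin (H ⊔ N) 1) s₀ ≤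
        meromorphicOrderAt (A.Lin H 1) s₀) ∧
      (∀ (H : Subgroup G) (ψ : H →* ℂˣ), (∃ x : H, (x : G) ∈ N ∧ ψ x ≠ 1) →
        0 ≤ meromorphicOrderAt (A.Lin H ψ) s₀) ∧
      (∀ χ ∈ Irr G, (∃ x ∈ N, χ x ≠ χ 1) →
        ((-1 : ℤ) : WithTop ℤ) ≤ meromorphicOrderAt (A.L χ) s₀ ∧
        meromorphicOrderAt (A.L χ) s₀ ≤ ((2 : ℤ) : WithTop ℤ)) ∧
      (r = r₀ + 1 → ∃ l : G →* ℂˣ, (∃ x ∈ N, l x ≠ 1) ∧
        meromorphicOrderAt (A.L fun g => ((l g : ℂˣ) : ℂ)) s₀ = ((1 : ℤ) : WithTop ℤ) ∧
        ∀ χ ∈ Irr G, (∃ x ∈ N, χ x ≠ χ 1) → χ ≠ (fun g => ((l g : ℂˣ) : ℂ)) →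
          meromorphicOrderAt (A.L χ) s₀ = 0)) := by
  classical
  refine ⟨fun h hc => ?_, fun hs h2 => ?_⟩
  · subst h
    have hconst := no_growth A N hc hr hr₀
    have htriv : ∀ χ ∈ Irr G, A.ord χ ≠ 0 → ∀ x ∈ N, χ x = χ 1 := by
      intro χ hχ hne
      refine const_pr N hconst hχ ?_
      rw [pr_theta A.ord hχ]
      exact_mod_cast hne
    refine ⟨fun χ hχ hnew => ?_, fun H => A.order_sup htriv H⟩
    obtain ⟨x, hx, hx1⟩ := hnew
    rw [← A.coe_ord hχ]
    by_contra hcon
    exact hx1 (htriv χ hχ (fun h0 => hcon (by rw [h0]; rfl)) x hx)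
  · obtain ⟨n, hn⟩ := exists_newPart A N hs hr hr₀
    refine ⟨?_, hn.mono h2, hn.lin_nonneg h2, fun χ hχ hne => ?_, fun h1 => ?_⟩
    · obtain ⟨d, hd, -⟩ := hn.deg
      omega
    · obtain ⟨h3, h4⟩ := hn.bounds h2 hχ hne
      rw [← A.coe_ord hχ]
      exact ⟨by exact_mod_cast h3, by exact_mod_cast h4⟩
    · obtain ⟨l, hl1, hl2, hl3⟩ := hn.stark h1
      refine ⟨l, hl1, ?_, fun χ hχ hne hχl => ?_⟩
      · rw [← A.coe_ord (lin_irr l), hl2]
      · rw [← A.coe_ord hχ, hl3 χ hχ hne hχl]
        rfl
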