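import Mathlib
import Pool.Agent.Q290.RL.Refl
import Pool.Agent.Q290.RL.RpCore
import Pool.Agent.Q290.RL.Defs

/-!
# Real points: poles of L(E/F, s) and zeros of order three of L(E/M, s)

`M/K` is a Galois extension of number fields with group `M ≃ₐ[K] M`, an arbitrary finite group, and
`E` is an elliptic curve over `K` with an integral equation `W` (`IsModel E W`).

The L-functions are real ones. `LSeries V` is the Euler product `L(E/F, s)` of the problem, computed
from the models `V`, minimal at all primes of `F`, for `Re s > 3/2`.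
`Pool.Agent.Q92.RT.twistedL M W φ` is `L(E ⊗ φ, s)` for a class function `φ` of the Galois group:
`exp ∑ φ(Frob_v ^ n) (α_v ^ n + β_v ^ n) / (n q_v ^ (n s))` over `n ≥ 1` and the primes `v` of `K`
which do not divide `6` and the discriminant of `W` and are unramified in `M`; the finitely many
Euler factors left out have no zeros and poles for `Re s ≥ 1`. `Continues f g` says that `f` is
meromorphic on `ℂ` and equal to `g` for `Re s > 3/2`; `HasOrder g s₀ n` and `LOrder E s₀ n` say that
`g`, or `L(E, s)`, has a meromorphic continuation to `ℂ`, of order `n` at `s₀`.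
`Pool.Agent.Q7.RL.Orders E W s₀ n o` says that `n χ` is the order of `L(E ⊗ χ, s)` for all
irreducible characters `χ` of the Galois group, and `o F` the order of `L(E/F, s)` for all fields
`F` between `K = ⊥` and `M = ⊤`.

`Pool.Agent.Q92.RT.Automorphic M W s₀` is the instance of the conjecture which is known if `E` is
automorphic over `M` (potential modularity; Brauer; solvable descent): `L(E ⊗ χ, s)` has a
meromorphic continuation for the irreducible characters `χ` of the Galois group, and
`L(E/M ^ H ⊗ ψ, s)` has one which is holomorphic at `s₀` for the linear characters `ψ` of the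
SOLVABLE subgroups `H`; for the other subgroups nothing is known.

A character `χ` is orthogonal, `Pool.Agent.Q290.Schur.Ort χ`, if it is real and its Frobenius-Schur
indicator `|G|⁻¹ ∑ χ (g ^ 2)` is `1`, and symplectic, `Pool.Agent.Q7.TZ.Sy χ`, if it is real and its
indicator is `-1`. `Pool.Agent.Q290.Schur.Light n χ` says that `n χ = 0`, or that `n χ = 1` and `χ`
is orthogonal, or that `n χ = -1` and `χ` is symplectic. The properties `SumBound`, `OneQuadratic`,
`IndividualBound` of (2) and the patterns (b), (c), (d), (e) of (3) are defined in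
`Pool.Agent.Q290.RL.Defs`; `lin ε` is the linear character `ε` as a function.
-/

set_option autoImplicit false

open NumberField Pool.Agent.H541R3.ART Pool.Agent.Q7.TZ Pool.Agent.Q7.SZ Pool.Agent.Q7.RL
  Pool.Agent.Q290.Schur Pool.Agent.Q92.RT Pool.Agent.W353.NF Pool.Agent.H341R2.EC Pool.Agent.Q290.RL
  ComplexConjugate

/-- Let `s₀ ≥ 1` be a real number, for example the centre `s₀ = 1`, `r` the order of `L(E/M, s)` at
`s₀`, `o F` that of `L(E/F, s)` and `n χ` that of `L(E ⊗ χ, s)`.

(1) For every field `F` between `K` and `M` the function `L(E/F, s)` has at `s₀` no pole of order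
greater than `r - 2`, and no pole at all if `r ≤ 2`; the same holds for its twists by the quadratic
characters of the Galois group of `M/F`. If `ψ` is a linear character with `ψ ^ 2 ≠ 1` and `r ≥ 3`,
then the order `k` of `L(E/F ⊗ ψ, s)` satisfies `2 k² < r (r - 1)`.

(2) With the Frobenius-Schur indicators `ν` and `T = ∑ ν χ n χ`, `2 ∑ (n χ)² ≤ r (r + T)` and
`T ≤ r`. If `r ≥ 3` then either all zeros are those of one `L(E ⊗ μ, s)` with `μ ^ 2 = 1`, or
`2 - r ≤ n χ ≤ r - 1` for orthogonal `χ`, `1 - r ≤ n χ ≤ r - 2` for symplectic `χ`, and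
`2 (n χ)² < r (r - 1)` for all other `χ`.

(3) Let `r = 3`. There is a linear character `ε` with `ε ^ 2 = 1` such that one of the following
holds. (a) `L(E ⊗ ε, s)` has a zero of order three, and no other `L(E ⊗ χ, s)` has a zero or a pole
at `s₀`. (b) `L(E ⊗ ε, s)` is finite and nonzero at `s₀`, and at most three of the `L(E ⊗ χ, s)` have
a zero or pole at `s₀`: simple zeros for orthogonal `χ`, simple poles for symplectic `χ`.
(c) `L(E ⊗ ε, s)` has a simple zero and one `L(E ⊗ μ, s)`, `μ ^ 2 = 1`, has a double zero, and there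
are no other zeros and poles. (d) `L(E ⊗ ε, s)` has a zero of order one or two, and there is one
exceptional character `χ₀`, orthogonal with a simple pole or symplectic with a simple zero, or
(e) one exceptional pair of complex conjugate characters `χ₀`, both with simple zeros or both with
simple poles, while for all other `χ` there are at most simple zeros, if `χ` is orthogonal, or simple
poles, if `χ` is symplectic, whose number is at most `4 - n ε` in the case (d), and at most
`3 - n ε` in the case (e). -/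
theorem Pool.Agent.Results.MP_7ed9c3_nt.RealPointsOfTwists.result
    (K M : Type) [Field K] [NumberField K] [Field M] [NumberField M] [Algebra K M] [IsGalois K M]
    (E : WeierstrassCurve K) (hE : E.IsElliptic) (W : WeierstrassCurve (𝓞 K)) (hW : IsModel E W)
    (s₀ : ℂ) (hs : conj s₀ = s₀) (hs1 : 1 ≤ s₀.re) (a : Automorphic M W s₀) :
    ∃ (r : ℕ) (n : ((M ≃ₐ[K] M) → ℂ) → ℤ) (o : IntermediateField K M → ℤ),
    Orders E W s₀ n o ∧ o ⊤ = r ∧
    ((∀ F : IntermediateField K M, -((r - 2 : ℕ) : ℤ) ≤ o F) ∧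
      ∀ (H : Subgroup (M ≃ₐ[K] M)) (ψ : H →* ℂˣ), ∃ k : ℤ,
        HasOrder (twistedL M W (induced H ψ)) s₀ k ∧ (r ≤ 2 → 0 ≤ k) ∧
        (ψ * ψ = 1 → -((r - 2 : ℕ) : ℤ) ≤ k) ∧
        (ψ * ψ ≠ 1 → 3 ≤ r → 2 * k ^ 2 < r * (r - 1))) ∧
    (SumBound r n ∧ (3 ≤ r → OneQuadratic r n ∨ IndividualBound r n)) ∧
    (r = 3 → ∃ ε : (M ≃ₐ[K] M) →* ℂˣ, ε * ε = 1 ∧
      ((n (lin ε) = 3 ∧ ∀ χ ∈ Irr (M ≃ₐ[K] M), χ ≠ lin ε → n χ = 0) ∨ PatternB n ε ∨
        PatternC n ε ∨ PatternD n ε ∨ PatternE n ε)) := by
  obtain ⟨n, o, ho⟩ := exists_orders (M := M) hE hW hs1 a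
  obtain ⟨r, hr⟩ := Int.eq_ofNat_of_zero_le (ho.nonneg hE hW hs1 a)
  have hb := ho.bot hE hW hs1 a
  rw [hr] at hb
  obtain ⟨h1, h2, h3⟩ := Pool.Agent.Q290.RL.rp_core (M ≃ₐ[K] M) s₀ hs (TwistData.ofCurve a)
    (Pool.Agent.Q290.RL.refl_ofCurve a) r hb n (fun χ hχ => ho.irr a hχ)
  refine ⟨r, n, o, ho, hr, ⟨fun F => ?_, fun H ψ => ?_⟩, h2, h3⟩
  · obtain ⟨k, hk, -, hk2, -⟩ := h1 F.fixingSubgroup 1
    rw [ho.lin hE hW hs1 a F] at hk
    have h4 : o F = k := WithTop.coe_injective hk
    rw [h4]
    exact hk2 (MonoidHom.ext fun g => mul_one _)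
  · obtain ⟨k, hk, hk1, hk2, hk3⟩ := h1 H ψ
    exact ⟨k, (ind_iff a H ψ k).2 hk, hk1, hk2, hk3⟩
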