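import Pool.Agent.Q34.CL.Fin

set_option autoImplicit false

/-!
# The strong Lang conjecture for cyclotomic points

Let `X` be the closed subvariety of projective `n`-space over a number field `k` given by the forms
of degree at most `d` in `FF`, which generate a prime ideal.

(1) Suppose that `X` is not uniruled (for instance of general type, of positive dimension). For every
`r` there is a proper closed subset `Z = X ∩ {G = 0}` of `X`, defined over `k`, such that the following
holds for ALL fields `K ⊇ k` over which the roots of unity of order `m` have degree at least `φ(m) / D`,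
for every `m` (`CycDegree`; by (2) all number fields of degree at most `D` are of this kind), all
extensions `L` of `K` and ALL vectors `V_1, …, V_r` with coordinates in `K`. Every point of `X(L)`
outside `Z` with homogeneous coordinates `∑ u_j V_j`, where the `u_j` are roots of unity or zero, is also
given by such a sum `∑ w_j V_j` where the `w_j` are zero or roots of unity of one order
`m ≤ (9 r d D) ^ (2 r)`. So these points are defined over `K(μ_m)`, and for given `V_1, …, V_r` there are
at most `((9 r d D) ^ (2 r) + 1) ^ (r + 1)` of them. Neither `Z` nor the bounds depend on the vectors `V_j`,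
and the bounds depend on `X` only through `d` and on `K` only through `D`.

(3) For every `B` there is `Λ` such that for every `X` as in (1) there is a proper closed subset
`Z = X ∩ {G = 0}` outside of which `X` has only finitely many points with homogeneous coordinates
which are cyclotomic integers (elements of `ℤ[μ_N]`, for any `N`) all of whose conjugates have absolute
value at most `B`, namely at most `(M + 1) ^ (s + 1)`, where `s = (n + 1) Λ` and
`M = (9 s d [k : ℚ]) ^ (2 s)`.

(4) If `X` is uniruled, (1) fails: for some `r` and every proper closed subset `G = 0` there are a number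
field `K` and vectors `V_1, …, V_r` over `K` such that infinitely many points of `X` off `G = 0`, over an
algebraic closure of `K`, have homogeneous coordinates `∑ u_j V_j`, the `u_j` being roots of unity.

Method: let `ζ` be a root of unity of order `N`, `u_j = ζ ^ (a_j)`. Dirichlet's theorem gives a small `t`
such that all `t a_j` are close to `0` modulo `N`; dividing by `g = gcd (t, N)` one gets a conjugate
`ω` of `ζ` and roots of unity `η_j` of order dividing `g` with `u_j = ω ^ (s_j) η_j`, `|s_j| ≤ N / (g Q)`.
The degree of `ω` over `K(μ_g)` is larger than the degree of the equations in `ω`, so the whole curve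
`T ↦ ∑ T ^ (s_j) η_j V_j` lies on `X`. All the nonconstant curves with `r` terms lie in a fixed
hypersurface since `X` is not uniruled; so the curve is constant and `∑ u_j V_j` is proportional to a
partial sum of `∑ η_j V_j`, and `g` is smaller than `N` as long as `N > (2 d D N / φ(N) + 1) ^ r`. Part (3)
follows with Loxton's theorem (cyclotomic integers of bounded house are sums of a bounded number of
roots of unity), which is in the starting library.
-/

namespace Pool.Agent.Results.MP_7ede32_ag.CyclotomicPoints

open MvPolynomial Pool.Agent.H533R3.SL Pool.Agent.Q34.CL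

/-- **The strong Lang conjecture for cyclotomic points.** -/
theorem result :
    -- (1) points given by few roots of unity
    (∀ (k : Type) [Field k] [NumberField k] (n : ℕ) (FF : Set (MvPolynomial (Fin (n + 1)) k))
      (d : ℕ), 1 ≤ d → (∀ F ∈ FF, ∃ e, e ≤ d ∧ F.IsHomogeneous e) → (Ideal.span FF).IsPrime →
      ¬ Uniruled (Ideal.span FF) → ∀ r : ℕ,
      ∃ G : MvPolynomial (Fin (n + 1)) k, (∃ e, G.IsHomogeneous e) ∧ G ∉ Ideal.span FF ∧
        ∀ (K L : Type) [Field K] [Field L] [Algebra k K] [Algebra K L] [Algebra k L]
          [IsScalarTower k K L] (D : ℕ), CycDegree K L D → ∀ V : Fin r → Fin (n + 1) → K,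
          (∀ u : Fin r → L, (∀ j, u j = 0 ∨ ∃ m : ℕ, 0 < m ∧ u j ^ m = 1) →
            OnOff FF G (lin u V) →
            ∃ m, 0 < m ∧ m ≤ (9 * r * d * D) ^ (2 * r) ∧ ∃ (w : Fin r → L) (c : L),
              (∀ j, w j = 0 ∨ w j ^ m = 1) ∧ c ≠ 0 ∧ ∀ i, lin w V i = c * lin u V i) ∧
          (cycPts (L := L) FF G V).encard ≤ (((9 * r * d * D) ^ (2 * r) + 1) ^ (r + 1) : ℕ)) ∧
    -- (2) number fields of degree at most `D`
    (∀ (K L : Type) [Field K] [NumberField K] [Field L] [Algebra K L] (D : ℕ),
      Module.finrank ℚ K ≤ D → CycDegree K L D) ∧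
    -- (3) cyclotomic integers of bounded house
    (∀ B : ℝ, ∃ Λ : ℕ, ∀ (k : Type) [Field k] [NumberField k] (n : ℕ)
      (FF : Set (MvPolynomial (Fin (n + 1)) k)) (d : ℕ), 1 ≤ d →
      (∀ F ∈ FF, ∃ e, e ≤ d ∧ F.IsHomogeneous e) → (Ideal.span FF).IsPrime →
      ¬ Uniruled (Ideal.span FF) →
      ∃ G : MvPolynomial (Fin (n + 1)) k, (∃ e, G.IsHomogeneous e) ∧ G ∉ Ideal.span FF ∧
        ∀ [Algebra k ℂ], (housePts FF G B).encard ≤
          (((9 * ((n + 1) * Λ) * d * Module.finrank ℚ k) ^ (2 * ((n + 1) * Λ)) + 1) ^
            ((n + 1) * Λ + 1) : ℕ)) ∧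
    -- (4) the converse
    (∀ (k : Type) [Field k] [NumberField k] (n : ℕ) (FF : Set (MvPolynomial (Fin (n + 1)) k)),
      Uniruled (Ideal.span FF) →
      ∃ r : ℕ, ∀ G : MvPolynomial (Fin (n + 1)) k, (∃ e, G.IsHomogeneous e) →
        G ∉ Ideal.span FF →
        ∃ (K : Type) (_ : Field K) (_ : NumberField K) (_ : Algebra k K)
          (V : Fin r → Fin (n + 1) → K),
          (cycPts (L := AlgebraicClosure K) FF G V).Infinite) := by
  refine ⟨?_, fun K L _ _ _ _ D hD => cycDegree_numberField K L D hD, ?_,
    fun k _ _ n FF hu => converse FF hu⟩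
  · intro k _ _ n FF d hd hFF hprime hnu r
    obtain ⟨G, hG1, hG2, hG3⟩ := exists_hyper FF hprime hnu d hd hFF r
    refine ⟨G, hG1, hG2, ?_⟩
    intro K L _ _ _ _ _ _ D hD V
    have h := fun u hu hx => bounded_order (L := L) FF d hd hFF G hG1
      (fun c l h1 h2 => hG3 L c l h1 h2) D hD V u hu hx
    exact ⟨h, count_of_bounded FF G V _ h⟩
  · intro B
    obtain ⟨Λ, hΛ⟩ := house_sub B
    refine ⟨Λ, ?_⟩
    intro k _ _ n FF d hd hFF hprime hnu
    obtain ⟨G, hG1, hG2, hG3⟩ := exists_hyper FF hprime hnu d hd hFF ((n + 1) * Λ)
    refine ⟨G, hG1, hG2, ?_⟩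
    intro _
    refine (Set.encard_le_encard (hΛ k n FF G)).trans ?_
    exact count_of_bounded FF G _ _ fun u hu hx => bounded_order (L := ℂ) FF d hd hFF G hG1
      (fun c l h1 h2 => hG3 ℂ c l h1 h2) (Module.finrank ℚ k)
      (cycDegree_numberField k ℂ _ le_rfl) (base k n Λ) u hu hx

end Pool.Agent.Results.MP_7ede32_ag.CyclotomicPoints
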