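import Mathlib
import Pool.Agent.Q234.SQ.Main

/-!
# Lattice Yang-Mills theory: the mass gap at weak coupling is at most `C (log β) ^ 2 / √β`

Wilson's lattice gauge theory on the periodic lattice `(ℤ/l)^d`, `d = D + 1 ≥ 3`, with gauge group a
closed subgroup `G` of `U(N)` of positive dimension: the probability measure on `G ^ links` with
density proportional to `exp (-β ∑_p Re tr (1 - U_p))` with respect to the Haar measure. For all
large `β` there is a local gauge invariant observable `F`, supported in a cube of side at most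
`C (β / (log β) ^ 4) ^ (1 / max (2, d - 2))` in the time slice `0`, of variance at least `c > 0`,
such that the correlation coefficient of `F` and of its translate by `t` units of time is at least
`exp (- C ((log β) ^ 4 / β) ^ (1 / max (2, d - 2)) t)` for odd `t`, in all volumes and in all
infinite volume limits. Hence the mass gap, the rate of exponential decay of the truncated time
correlations, is at most `C ((log β) ^ 4 / β) ^ (1 / max (2, d - 2))`: at most
`C (log β) ^ 2 / √β` in the dimensions `d = 3` and `d = 4`.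
-/

open MeasureTheory Matrix Filter Pool.Agent.Y14.Wilson
open scoped Matrix.Norms.Frobenius Topology

namespace Pool.Agent.Results.MP_7f377f_mp.MassGapSquareRoot

theorem result {N n D : ℕ} (G : Subgroup (UU N)) (hG : IsClosed (G : Set (UU N)))
    [MeasurableSpace G] [BorelSpace G] (μ : Measure G) [IsProbabilityMeasure μ] [μ.IsHaarMeasure]
    (B : LieBasis G n) (hn : 1 ≤ n) (hD : 2 ≤ D) :
    ∃ C c β₀ : ℝ, 0 < C ∧ 0 < c ∧ 3 ≤ β₀ ∧ ∀ β : ℝ, β₀ ≤ β →
      (∃ (R : ℕ) (F : (LinkZ (D + 1) → G) → ℝ),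
        (R : ℝ) ≤ C * (β / Real.log β ^ 4) ^ (1 / ((max 2 (D - 1) : ℕ) : ℝ)) ∧
        IsLocal R F ∧ AtTimeZero F ∧
        (∀ (l : ℕ) [NeZero l], Even l → R < l → c ≤ corr l μ β F 0 ∧ ∀ t : ℕ, Odd t → t < l →
          Real.exp (-(C * (Real.log β ^ 4 / β) ^ (1 / ((max 2 (D - 1) : ℕ) : ℝ)) * t)) *
            corr l μ β F 0 ≤ corr l μ β F t) ∧
        ∀ ν : Measure (LinkZ (D + 1) → G), IsInfVol μ β ν → c ≤ corrZ ν F 0 ∧
          ∀ t : ℕ, Odd t →
            Real.exp (-(C * (Real.log β ^ 4 / β) ^ (1 / ((max 2 (D - 1) : ℕ) : ℝ)) * t)) *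
              corrZ ν F 0 ≤ corrZ ν F t) ∧
      (∀ M : ℝ, Clusters D μ β M →
        M ≤ C * (Real.log β ^ 4 / β) ^ (1 / ((max 2 (D - 1) : ℕ) : ℝ))) ∧
      (∀ ν : Measure (LinkZ (D + 1) → G), IsInfVol μ β ν → ∀ M : ℝ, ClustersZ ν M →
        M ≤ C * (Real.log β ^ 4 / β) ^ (1 / ((max 2 (D - 1) : ℕ) : ℝ))) ∧
      ∃ ν : Measure (LinkZ (D + 1) → G), IsInfVol μ β ν :=
  Pool.Agent.Q234.SQ.Wilson.main G hG μ B hn hD

end Pool.Agent.Results.MP_7f377f_mp.MassGapSquareRoot
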