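import Mathlib
import Pool.Agent.H906R3.YM.Conc
import Pool.Agent.W793.YM.Inf
import Pool.Agent.TH618.YM.Cartan
import Pool.Agent.Y15.Main2
import Pool.Agent.Q234.SL.Ind

/-!
# Lattice Yang-Mills theory: the mass gap of slabs and the string tension

Wilson's lattice gauge theory in dimension `d ≥ 3` with gauge group an arbitrary closed subgroup `G`
of `U(N)` containing a scalar matrix `ζ 1`, `ζ ≠ 1`, at a large inverse coupling `β`. If the
correlations along the direction `j` in the slab `0 ≤ x_i ≤ ℓ` decay like `exp (- m t)`, uniformly in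
the boundary condition and in the volume, then the static potential `P` and the string tension `σ`
satisfy `m ⌊R / ℓ⌋ ≤ P(R)` and `m ≤ ℓ σ`. Together with the bound `σ ≤ C (log β) ^ 3 / β ^ 2` this
gives `m ≤ C ℓ (log β) ^ 3 / β ^ 2`, and `m ≤ (C Λ (log β) ^ 3) ^ (1/2) / β` if `ℓ ≤ Λ / m`.
-/

open MeasureTheory Matrix Filter
open scoped Matrix.Norms.Frobenius Topology

namespace Pool.Agent.Results.MP_7f377f_mp.SlabMassGap

set_option linter.unusedSectionVars false

noncomputable section

/-- Complex `N × N` matrices. -/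
abbrev Mt (N : ℕ) := Matrix (Fin N) (Fin N) ℂ

/-- The unitary group `U(N)`. -/
abbrev UU (N : ℕ) := Matrix.unitaryGroup (Fin N) ℂ

/-- The matrix of an element of a subgroup of `U(N)`. -/
def mt {N : ℕ} {G : Subgroup (UU N)} (g : G) : Mt N := ((g : UU N) : Mt N)

/-- Links of the periodic lattice `(ℤ/l)^d`: base point and direction. -/
abbrev Link (d l : ℕ) := (Fin d → ZMod l) × Fin d

/-- Links of the lattice `ℤ^d`: base point and direction. -/
abbrev LinkZ (d : ℕ) := (Fin d → ℤ) × Fin d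

section

variable {N n d l : ℕ} {G : Subgroup (UU N)}

/-- The product of the link variables around the plaquette at `x` in the directions `i`, `j`. -/
def plaq (U : Link d l → G) (x : Fin d → ZMod l) (i j : Fin d) : G :=
  U (x, i) * U (x + Pi.single i 1, j) * (U (x + Pi.single j 1, i))⁻¹ * (U (x, j))⁻¹

/-- The Wilson action `∑_p Re tr (1 - U_p)`, the sum over the plaquettes. -/
def action [NeZero l] (U : Link d l → G) : ℝ :=
  ∑ x : Fin d → ZMod l, ∑ i : Fin d, ∑ j : Fin d,
    if i < j then (trace (1 - mt (plaq U x i j))).re else 0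

/-- The periodic extension of a configuration. -/
def per (U : Link d l → G) : LinkZ d → G := fun e => U (fun i => (e.1 i : ZMod l), e.2)

/-- The expectation of `F` in the lattice Yang-Mills theory on `(ℤ/l)^d`, `μ` being the Haar
measure. -/
def expect (l : ℕ) [NeZero l] [MeasurableSpace G] (μ : Measure G) (β : ℝ)
    (F : (LinkZ d → G) → ℝ) : ℝ :=
  (∫ U : Link d l → G, F (per U) * Real.exp (-(β * action U)) ∂(Measure.pi fun _ => μ)) /
    ∫ U : Link d l → G, Real.exp (-(β * action U)) ∂(Measure.pi fun _ => μ)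

/-- `ν` is an infinite volume limit (weak limit along a subsequence) of the theories on the tori of
even side at inverse coupling `β`. -/
structure IsInfVol [MeasurableSpace G] (μ : Measure G) (β : ℝ)
    (ν : Measure (LinkZ d → G)) : Prop where
  prob : IsProbabilityMeasure ν
  lim : ∃ s : ℕ → ℕ, Tendsto s atTop atTop ∧ ∀ F : (LinkZ d → G) → ℝ, Continuous F →
    Tendsto (fun j => expect (2 * (s j + 1)) μ β F) atTop (𝓝 (∫ V, F V ∂ν))

/-- The product of the link variables along the path of `k` steps in the direction `i` from `x`. -/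
def line (V : LinkZ d → G) (i : Fin d) : ℕ → (Fin d → ℤ) → G
  | 0, _ => 1
  | k + 1, x => V (x, i) * line V i k (x + Pi.single i 1)

/-- The product of the link variables around the rectangle with corner `x` and with the sides `R`
in the direction `i` and `T` in the direction `j`. -/
def loop (V : LinkZ d → G) (x : Fin d → ℤ) (i j : Fin d) (R T : ℕ) : G :=
  line V i R x * line V j T (x + Pi.single i (R : ℤ)) *
    (line V i R (x + Pi.single j (T : ℤ)))⁻¹ * (line V j T x)⁻¹

/-- The Wilson loop: the expectation of `(1/N) Re tr` of the product around the rectangle. -/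
def wilson [MeasurableSpace G] (ν : Measure (LinkZ d → G)) (x : Fin d → ℤ) (i j : Fin d)
    (R T : ℕ) : ℝ := ∫ V, (trace (mt (loop V x i j R T))).re / N ∂ν

/-- The links inside the slab `0 ≤ x_i ≤ ℓ` of the periodic lattice: those in the direction `i` with
the base point in `0 ≤ x_i < ℓ` and those in the other directions with `0 < x_i < ℓ`. -/
def Inside (i : Fin d) (ℓ : ℕ) (e : Link d l) : Prop :=
  (e.1 i).val < ℓ ∧ (e.2 = i ∨ 0 < (e.1 i).val)

open Classical in
/-- The configuration equal to `U` inside the slab and to `ω` elsewhere. -/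
def glue (i : Fin d) (ℓ : ℕ) (ω U : Link d l → G) : Link d l → G :=
  fun e => if Inside i ℓ e then U e else ω e

/-- The expectation in the slab with the boundary condition `ω`: the link variables inside the slab
are random, all the others are fixed and equal to `ω`. -/
def slabExpect (l : ℕ) [NeZero l] [MeasurableSpace G] (μ : Measure G) (β : ℝ) (i : Fin d) (ℓ : ℕ)
    (ω : Link d l → G) (F : (LinkZ d → G) → ℝ) : ℝ :=
  (∫ U : Link d l → G, F (per (glue i ℓ ω U)) * Real.exp (-(β * action (glue i ℓ ω U)))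
    ∂(Measure.pi fun _ => μ)) /
    ∫ U : Link d l → G, Real.exp (-(β * action (glue i ℓ ω U))) ∂(Measure.pi fun _ => μ)

/-- Gauge transformation of the link variables of the infinite lattice. -/
def gauge (γ : (Fin d → ℤ) → G) (V : LinkZ d → G) : LinkZ d → G :=
  fun e => γ e.1 * V e * (γ (e.1 + Pi.single e.2 1))⁻¹

/-- The configuration shifted by `t` steps in the direction `j`. -/
def shift (j : Fin d) (t : ℕ) (V : LinkZ d → G) : LinkZ d → G :=
  fun e => V (e.1 + Pi.single j (t : ℤ), e.2)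

/-- Local observables of the slab `0 ≤ x_i ≤ ℓ`: continuous functions of the links inside the slab
based in the cube `{0, ..., R - 1}^d`, invariant under the gauge transformations which are trivial
off `0 < x_i < ℓ`. -/
structure IsSlabObs (i : Fin d) (ℓ R : ℕ) (F : (LinkZ d → G) → ℝ) : Prop where
  cont : Continuous F
  inv : ∀ (γ : (Fin d → ℤ) → G) (V : LinkZ d → G), (∀ x : Fin d → ℤ, ¬ (0 < x i ∧ x i < ℓ) → γ x = 1) → F (gauge γ V) = F V
  loc : ∀ V V' : LinkZ d → G, (∀ e : LinkZ d, (∀ a, 0 ≤ e.1 a ∧ e.1 a < R) → e.1 i < ℓ →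
    (e.2 = i ∨ 0 < e.1 i) → V e = V' e) → F V = F V'

/-- Exponential clustering with the rate `m` along the direction `j` in the slab `0 ≤ x_i ≤ ℓ`,
uniformly in the boundary condition and in the volume: for all local observables `F`, `F'` of the
slab the truncated correlation of `F` and of the translate of `F'` by `t` steps is at most
`K exp (-m t)` for all `t ≤ l / 2`, all boundary conditions and all large even `l`. -/
def SlabClusters [MeasurableSpace G] (μ : Measure G) (β : ℝ) (i j : Fin d) (ℓ : ℕ) (m : ℝ) :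
    Prop :=
  ∀ (R : ℕ) (F F' : (LinkZ d → G) → ℝ), IsSlabObs i ℓ R F → IsSlabObs i ℓ R F' →
    ∃ (K : ℝ) (l₀ : ℕ), ∀ (l : ℕ) [NeZero l], Even l → l₀ ≤ l → ∀ (ω : Link d l → G) (t : ℕ),
      2 * t ≤ l → |slabExpect l μ β i ℓ ω (fun V => F V * F' (shift j t V)) -
        slabExpect l μ β i ℓ ω F * slabExpect l μ β i ℓ ω (fun V => F' (shift j t V))| ≤
          K * Real.exp (-(m * t))

end

open Pool.Agent.H906R3 Pool.Agent.W793 Pool.Agent.TH618 Pool.Agent.Q234

variable {N n d l : ℕ} {G : Subgroup (UU N)}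

/-- A Haar probability measure is invariant under right multiplications. -/
lemma right_inv {H : Type*} [Group H] [TopologicalSpace H] [IsTopologicalGroup H]
    [CompactSpace H] [MeasurableSpace H] [BorelSpace H] (μ : Measure H)
    [IsProbabilityMeasure μ] [μ.IsHaarMeasure] : μ.IsMulRightInvariant := by
  refine ⟨fun g => ?_⟩
  have h1 : IsProbabilityMeasure (Measure.map (fun x => x * g) μ) :=
    Measure.isProbabilityMeasure_map (measurable_mul_const g).aemeasurable
  exact Measure.isHaarMeasure_eq_of_isProbabilityMeasure _ _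

/-- A Haar probability measure is invariant under the inversion. -/
lemma inv_inv' {H : Type*} [Group H] [TopologicalSpace H] [IsTopologicalGroup H]
    [CompactSpace H] [MeasurableSpace H] [BorelSpace H] (μ : Measure H)
    [IsProbabilityMeasure μ] [μ.IsHaarMeasure] : μ.IsInvInvariant := by
  have hr := right_inv μ
  refine ⟨?_⟩
  have h1 : IsProbabilityMeasure μ.inv :=
    Measure.isProbabilityMeasure_map measurable_inv.aemeasurable
  have h2 : μ.inv.IsMulLeftInvariant := inferInstance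
  have h3 : μ.inv.IsHaarMeasure :=
    Measure.isHaarMeasure_of_isCompact_nonempty_interior μ.inv Set.univ isCompact_univ
      (by simp) (by simp) (by simp)
  exact Measure.isHaarMeasure_eq_of_isProbabilityMeasure _ _

section bridge

variable [CompactSpace G] [SecondCountableTopology G] [MeasurableSpace G] [BorelSpace G]
  (μ : Measure G) [IsProbabilityMeasure μ] [μ.IsHaarMeasure] (B : YM.Frame G n)

lemma expect_eq [NeZero l] (β : ℝ) (F : (LinkZ d → G) → ℝ) : expect l μ β F =
    YM.EX μ B.toLD β (fun U : YM.Ed d l → G => F (YM.lf U)) := by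
  unfold expect YM.EX YM.Zt
  simp only [one_mul]
  rfl

include B in
lemma action_cont [NeZero l] : Continuous (action : (Link d l → G) → ℝ) :=
  YM.act_cont (L := B.toLD)

include B in
/-- existence of infinite volume limits -/
lemma exists_infVol (β : ℝ) : ∃ ν : Measure (LinkZ d → G), IsInfVol μ β ν := by
  have hP : ∀ j : ℕ, ∃ P : ProbabilityMeasure (LinkZ d → G),
      ∀ F : (LinkZ d → G) → ℝ, Continuous F →
        ∫ V, F V ∂(P : Measure (LinkZ d → G)) = expect (2 * (j + 1)) μ β F := by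
    intro j
    have hper : Continuous (per : (Link d (2 * (j + 1)) → G) → LinkZ d → G) :=
      continuous_pi fun e => continuous_apply _
    have hexp : Continuous fun U : Link d (2 * (j + 1)) → G =>
        Real.exp (-(β * action U)) :=
      Real.continuous_exp.comp (continuous_const.mul (action_cont B)).neg
    have hint : Integrable (fun U : Link d (2 * (j + 1)) → G =>
        Real.exp (-(β * action U))) (Measure.pi fun _ => μ) :=
      hexp.integrable_of_hasCompactSupport (HasCompactSupport.of_compactSpace _)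
    have h1 := isProbabilityMeasure_tilted (f := fun U : Link d (2 * (j + 1)) → G =>
      -(β * action U)) hint
    refine ⟨⟨((Measure.pi fun _ => μ).tilted fun U : Link d (2 * (j + 1)) → G =>
      -(β * action U)).map per, Measure.isProbabilityMeasure_map hper.aemeasurable⟩,
      fun F hF => ?_⟩
    show ∫ V, F V ∂(((Measure.pi fun _ => μ).tilted fun U : Link d (2 * (j + 1)) → G =>
      -(β * action U)).map per) = _
    rw [integral_map hper.aemeasurable hF.aestronglyMeasurable, integral_tilted]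
    unfold expect
    rw [← integral_div]
    refine integral_congr_ae (Filter.Eventually.of_forall fun U => ?_)
    simp only [smul_eq_mul]
    ring
  choose P hP using hP
  obtain ⟨ν, s, hs, hlim⟩ := CompactSpace.tendsto_subseq P
  refine ⟨ν, ⟨inferInstance, s, hs.tendsto_atTop, fun F hF => ?_⟩⟩
  have h1 := (ProbabilityMeasure.tendsto_iff_forall_integral_tendsto.1 hlim)
    (BoundedContinuousFunction.mkOfCompact ⟨F, hF⟩)
  simp only [Function.comp_apply, BoundedContinuousFunction.mkOfCompact_apply,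
    ContinuousMap.coe_mk] at h1
  simpa only [hP _ F hF] using h1

/-- straight lines in a periodic configuration -/
lemma line_lf (U : YM.Ed d l → G) (i : Fin d) (k : ℕ) (x : Fin d → ℤ) :
    line (YM.lf U) i k x = YM.ln U i k (YM.zt l x) := by
  induction k generalizing x with
  | zero => rfl
  | succ k ih =>
    rw [YM.ln_succ]
    show YM.lf U (x, i) * line (YM.lf U) i k (x + Pi.single i 1) = _
    rw [ih, YM.zt_add]
    rfl

lemma zt_nsmul (x : Fin d → ℤ) (i : Fin d) (k : ℕ) :
    YM.zt l (x + Pi.single i (k : ℤ)) = YM.zt l x + k • YM.eT i := by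
  funext j
  unfold YM.zt YM.eT
  by_cases h : j = i
  · subst h; simp
  · simp [h]

lemma loop_lf (U : YM.Ed d l → G) (x : Fin d → ℤ) (i j : Fin d) (R T : ℕ) :
    loop (YM.lf U) x i j R T = YM.rect U (YM.zt l x) i j R T := by
  unfold loop YM.rect
  rw [line_lf, line_lf, line_lf, line_lf, zt_nsmul, zt_nsmul]

lemma line_cont (i : Fin d) (k : ℕ) (x : Fin d → ℤ) :
    Continuous fun V : LinkZ d → G => line V i k x := by
  induction k generalizing x with
  | zero => exact continuous_const
  | succ k ih => exact (continuous_apply _).mul (ih _)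

lemma loop_cont (x : Fin d → ℤ) (i j : Fin d) (R T : ℕ) :
    Continuous fun V : LinkZ d → G => (trace (mt (loop V x i j R T))).re / N := by
  have h1 : Continuous fun V : LinkZ d → G => loop V x i j R T :=
    (((line_cont _ _ _).mul (line_cont _ _ _)).mul (line_cont _ _ _).inv).mul (line_cont _ _ _).inv
  have h2 : Continuous (mt : G → Mt N) := continuous_subtype_val.comp continuous_subtype_val
  exact (Complex.continuous_re.comp (h2.comp h1).matrix_trace).div_const _

lemma expect_loop [NeZero l] (β : ℝ) (x : Fin d → ℤ) (i j : Fin d) (R T : ℕ) :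
    expect l μ β (fun V : LinkZ d → G => (trace (mt (loop V x i j R T))).re / N) =
      YM.EX μ B.toLD β (fun U : YM.Ed d l → G => YM.rt B.toLD (YM.rect U 0 i j R T)) / N := by
  have := right_inv μ
  have := inv_inv' μ
  rw [expect_eq μ B]
  have h1 : (fun U : YM.Ed d l → G => (trace (mt (loop (YM.lf U) x i j R T))).re / N) =
      fun U => (1 / (N : ℝ)) * YM.rt B.toLD (YM.rect (YM.tr (YM.zt l x) U) 0 i j R T) := by
    funext U
    rw [loop_lf, YM.rect_tr, zero_add, div_eq_mul_one_div, mul_comm]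
    rfl
  rw [h1, YM.EX_smul, YM.EX_tr μ (YM.zt l x)
    (fun U : YM.Ed d l → G => YM.rt B.toLD (YM.rect U 0 i j R T))]
  ring

end bridge

section slab

/-- the same in the notation of the helper files -/
lemma glue_eq (i : Fin d) (ℓ : ℕ) (ω U : Link d l → G) :
    glue i ℓ ω U = SL.mix (SL.Ins i ℓ) ω U := rfl

lemma line_eq (V : LinkZ d → G) (i : Fin d) (k : ℕ) (x : Fin d → ℤ) :
    line V i k x = SL.line V i k x := by
  induction k generalizing x with
  | zero => rfl
  | succ k ih =>
    show V (x, i) * line V i k (x + Pi.single i 1) = V (x, i) * SL.line V i k (x + Pi.single i 1)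
    rw [ih]

lemma loop_eq (V : LinkZ d → G) (x : Fin d → ℤ) (i j : Fin d) (R T : ℕ) :
    loop V x i j R T = SL.loop V x i j R T := by
  unfold loop SL.loop
  rw [line_eq, line_eq, line_eq, line_eq]

variable [CompactSpace G] [SecondCountableTopology G] [MeasurableSpace G] [BorelSpace G]
  (μ : Measure G) [IsProbabilityMeasure μ]

lemma slab_EC [NeZero l] (β : ℝ) (i : Fin d) (ℓ : ℕ) (ω : Link d l → G)
    (F : (LinkZ d → G) → ℝ) :
    SL.EC μ (SL.Ins i ℓ) (fun U => β * SL.action U) ω (fun V => (F (per V) : ℂ)) =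
      (slabExpect l μ β i ℓ ω F : ℂ) := by
  have h1 : SL.NA μ (SL.Ins i ℓ) (fun U => β * SL.action U) ω (fun V => (F (per V) : ℂ)) =
      ((∫ U : Link d l → G, F (per (glue i ℓ ω U)) * Real.exp (-(β * action (glue i ℓ ω U)))
        ∂(Measure.pi fun _ => μ) : ℝ) : ℂ) := by
    rw [← integral_complex_ofReal]
    refine integral_congr_ae (Eventually.of_forall fun U => ?_)
    exact (Complex.ofReal_mul _ _).symm
  unfold SL.EC
  rw [h1, slabExpect, Complex.ofReal_div]
  rfl

/-- real or imaginary part -/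
def part (κ : Bool) (w : ℂ) : ℝ := if κ then w.re else w.im

lemma part_cont (κ : Bool) : Continuous (part κ) := by
  unfold part
  cases κ
  · simpa using Complex.continuous_im
  · simpa using Complex.continuous_re

/-- the real and imaginary parts of the entries of the crossing line -/
def Ob (i : Fin d) (ℓ : ℕ) (p : Bool × Fin N × Fin N) (V : LinkZ d → G) : ℝ :=
  part p.1 (mt (line V i ℓ 0) p.2.1 p.2.2)

lemma mt_cont' : Continuous (mt : G → Mt N) :=
  continuous_subtype_val.comp continuous_subtype_val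

lemma line_zero (V : LinkZ d → G) (i : Fin d) (x : Fin d → ℤ) : line V i 0 x = 1 := rfl

lemma line_succ (V : LinkZ d → G) (i : Fin d) (k : ℕ) (x : Fin d → ℤ) :
    line V i (k + 1) x = V (x, i) * line V i k (x + Pi.single i 1) := rfl

lemma gauge_app (γ : (Fin d → ℤ) → G) (V : LinkZ d → G) (x : Fin d → ℤ) (i : Fin d) :
    gauge γ V (x, i) = γ x * V (x, i) * (γ (x + Pi.single i 1))⁻¹ := rfl

lemma line_gauge (γ : (Fin d → ℤ) → G) (V : LinkZ d → G) (i : Fin d) (k : ℕ) (x : Fin d → ℤ) :
    line (gauge γ V) i k x = γ x * line V i k x * (γ (x + Pi.single i (k : ℤ)))⁻¹ := by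
  induction k generalizing x with
  | zero =>
    have h0 : (x + Pi.single i ((0 : ℕ) : ℤ) : Fin d → ℤ) = x := by simp
    have hg : ∀ a : G, (1 : G) = a * 1 * a⁻¹ := fun a => by rw [mul_one, mul_inv_cancel]
    rw [line_zero, line_zero, h0]
    exact hg _
  | succ k ih =>
    have h1 : (x + Pi.single i 1 + Pi.single i (k : ℤ) : Fin d → ℤ) =
        x + Pi.single i ((k + 1 : ℕ) : ℤ) := by
      rw [add_assoc, ← Pi.single_add]
      congr 2
      push_cast
      ring
    have hg : ∀ a b c e f : G, a * b * c⁻¹ * (c * e * f) = a * (b * e) * f := by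
      intro a b c e f
      simp only [mul_assoc, inv_mul_cancel_left]
    rw [line_succ, line_succ, ih, h1, gauge_app]
    exact hg _ _ _ _ _

lemma obs (i : Fin d) {ℓ : ℕ} (hℓ : 1 ≤ ℓ) (p : Bool × Fin N × Fin N) :
    IsSlabObs i ℓ ℓ (Ob i ℓ p : (LinkZ d → G) → ℝ) where
  cont := by
    unfold Ob
    exact (part_cont _).comp ((mt_cont'.comp (line_cont i ℓ 0)).matrix_elem _ _)
  inv γ V h := by
    unfold Ob
    have h0 : γ 0 = 1 := h 0 (by simp)
    have h1 : γ (0 + Pi.single i (ℓ : ℤ)) = 1 := h _ (by simp)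
    rw [line_gauge, h0, h1, one_mul, inv_one, mul_one]
  loc V V' h := by
    unfold Ob
    have h1 : line V i ℓ 0 = line V' i ℓ 0 := by
      rw [line_eq, line_eq]
      refine SL.line_congr _ _ _ _ _ fun s hs => h _ (fun a => ?_) ?_ (Or.inl rfl)
      · simp only [zero_add]
        by_cases ha : a = i
        · subst ha
          rw [Pi.single_eq_same]
          constructor
          · positivity
          · exact_mod_cast hs
        · rw [Pi.single_eq_of_ne ha]
          constructor
          · rfl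
          · exact_mod_cast hℓ
      · simp only [zero_add, Pi.single_eq_same]
        exact_mod_cast hs
    rw [h1]

lemma line_shift (j : Fin d) (t : ℕ) (V : LinkZ d → G) (i : Fin d) (k : ℕ) (x : Fin d → ℤ) :
    line (shift j t V) i k x = line V i k (x + Pi.single j (t : ℤ)) := by
  induction k generalizing x with
  | zero => rfl
  | succ k ih =>
    show shift j t V (x, i) * line (shift j t V) i k (x + Pi.single i 1) =
      V (x + Pi.single j (t : ℤ), i) * line V i k (x + Pi.single j (t : ℤ) + Pi.single i 1)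
    rw [ih, add_right_comm]
    rfl

/-- the decay of the correlations of the crossing lines -/
lemma cross [μ.IsMulLeftInvariant] {z : G} {ζ : ℂ} (hz : mt z = ζ • (1 : Mt N)) (hζ : ζ ≠ 1)
    {i j : Fin d} {ℓ : ℕ} (hℓ : 1 ≤ ℓ) {β m : ℝ} (hcl : SlabClusters μ β i j ℓ m) :
    ∃ (K : ℝ) (l₀ : ℕ), 0 ≤ K ∧ ∀ (l : ℕ) [NeZero l], Even l → l₀ ≤ l → ∀ T : ℕ, 2 * T ≤ l →
      ∀ (ω : Link d l → G) (a b c e : Fin N),
      ‖SL.EC μ (SL.Ins i ℓ) (fun U => β * SL.action U) ω
        (fun V => SL.mt (SL.line (SL.per V) i ℓ 0) a b *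
        star (SL.mt (SL.line (SL.per V) i ℓ (Pi.single j (T : ℤ))) e c))‖ ≤
          K * Real.exp (-(m * T)) := by
  choose K l₀ hK using fun p q : Bool × Fin N × Fin N =>
    hcl ℓ (Ob i ℓ p) (Ob i ℓ q) (obs i hℓ p) (obs i hℓ q)
  obtain ⟨K₀, hK₀⟩ : ∃ K₀ : ℝ, K₀ = ∑ p : Bool × Fin N × Fin N, ∑ q : Bool × Fin N × Fin N,
    |K p q| := ⟨_, rfl⟩
  obtain ⟨L₀, hL₀⟩ : ∃ L₀ : ℕ, L₀ = ∑ p : Bool × Fin N × Fin N, ∑ q : Bool × Fin N × Fin N,
    l₀ p q := ⟨_, rfl⟩
  have hKle : ∀ p q, |K p q| ≤ K₀ := by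
    intro p q
    rw [hK₀]
    refine (Finset.single_le_sum (f := fun q => |K p q|) (fun q _ => abs_nonneg _)
      (Finset.mem_univ q)).trans ?_
    exact Finset.single_le_sum (f := fun p => ∑ q, |K p q|)
      (fun p _ => Finset.sum_nonneg fun q _ => abs_nonneg _) (Finset.mem_univ p)
  have hLle : ∀ p q, l₀ p q ≤ L₀ := by
    intro p q
    rw [hL₀]
    refine (Finset.single_le_sum (f := fun q => l₀ p q) (fun q _ => Nat.zero_le _)
      (Finset.mem_univ q)).trans ?_
    exact Finset.single_le_sum (f := fun p => ∑ q, l₀ p q)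
      (fun p _ => Nat.zero_le _) (Finset.mem_univ p)
  have hK0 : 0 ≤ K₀ := by
    rw [hK₀]
    exact Finset.sum_nonneg fun p _ => Finset.sum_nonneg fun q _ => abs_nonneg _
  refine ⟨4 * K₀, L₀ + ℓ, by positivity, ?_⟩
  intro l _ hl hll T hT ω a b c e
  have hS := SL.Sc (d := d) (l := l) (G := G) β
  -- the expectations of the parts vanish
  have hPc : ∀ (x : Fin d → ℤ) (a b : Fin N), Continuous fun V : Link d l → G =>
      SL.mt (SL.line (SL.per V) i ℓ x) a b := fun x a b =>
    SL.entry_cont (SL.lineU_cont _ _ _) _ _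
  have hpc : ∀ (κ : Bool) (x : Fin d → ℤ) (a b : Fin N), Continuous fun V : Link d l → G =>
      ((part κ (SL.mt (SL.line (SL.per V) i ℓ x) a b) : ℝ) : ℂ) := fun κ x a b =>
    Complex.continuous_ofReal.comp ((part_cont κ).comp (hPc x a b))
  have hOb : ∀ (κ : Bool) (a b : Fin N) (V : Link d l → G), Ob i ℓ (κ, a, b) (per V) =
      part κ (SL.mt (SL.line (SL.per V) i ℓ 0) a b) := by
    intro κ a b V
    unfold Ob
    rw [line_eq]
    rfl
  have hOb' : ∀ (κ : Bool) (a b : Fin N) (V : Link d l → G),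
      Ob i ℓ (κ, a, b) (shift j T (per V)) =
      part κ (SL.mt (SL.line (SL.per V) i ℓ (Pi.single j (T : ℤ))) a b) := by
    intro κ a b V
    unfold Ob
    rw [line_shift, line_eq, zero_add]
    rfl
  have hmean : ∀ κ : Bool, slabExpect l μ β i ℓ ω (Ob i ℓ (κ, a, b)) = 0 := by
    have h0 := SL.mean_zero μ (β := β) (i := i) hℓ (l := l) (by omega) (z := z) hz hζ ω a b
    have h1 := SL.EC_sum (μ := μ) (A := SL.Ins i ℓ) hS (Finset.univ : Finset Bool) (ω := ω)
      (F := fun V => SL.mt (SL.line (SL.per V) i ℓ 0) a b)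
      (f := fun κ V => ((part κ (SL.mt (SL.line (SL.per V) i ℓ 0) a b) : ℝ) : ℂ))
      (fun κ => hpc κ 0 a b) (fun κ => if κ then 1 else Complex.I) (fun U => by
        simp only [Fintype.sum_bool, part]
        simp only [if_true, Bool.false_eq_true, if_false, one_mul]
        rw [mul_comm Complex.I]
        exact (Complex.re_add_im _).symm)
    have h2 : ∀ κ : Bool, SL.EC μ (SL.Ins i ℓ) (fun U => β * SL.action U) ω
        (fun V => ((part κ (SL.mt (SL.line (SL.per V) i ℓ 0) a b) : ℝ) : ℂ)) =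
        (slabExpect l μ β i ℓ ω (Ob i ℓ (κ, a, b)) : ℂ) := by
      intro κ
      rw [← slab_EC]
      congr 1
      funext V
      rw [hOb]
    rw [h0] at h1
    simp only [Fintype.sum_bool, h2, if_true, Bool.false_eq_true, if_false, one_mul] at h1
    have h3 := congrArg Complex.re h1
    have h4 := congrArg Complex.im h1
    simp only [Complex.zero_re, Complex.zero_im, Complex.add_re, Complex.add_im,
      Complex.ofReal_re, Complex.ofReal_im, Complex.mul_re, Complex.mul_im, Complex.I_re,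
      Complex.I_im, zero_mul, one_mul, mul_zero, add_zero, zero_add, sub_self] at h3 h4
    intro κ
    cases κ
    · exact h4.symm
    · exact h3.symm
  have hcov : ∀ κ κ' : Bool, ‖SL.EC μ (SL.Ins i ℓ) (fun U => β * SL.action U) ω
      (fun V => ((part κ (SL.mt (SL.line (SL.per V) i ℓ 0) a b) : ℝ) : ℂ) *
        ((part κ' (SL.mt (SL.line (SL.per V) i ℓ (Pi.single j (T : ℤ))) e c) : ℝ) : ℂ))‖ ≤
          K₀ * Real.exp (-(m * T)) := by
    intro κ κ'
    have h1 : SL.EC μ (SL.Ins i ℓ) (fun U => β * SL.action U) ω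
      (fun V => ((part κ (SL.mt (SL.line (SL.per V) i ℓ 0) a b) : ℝ) : ℂ) *
        ((part κ' (SL.mt (SL.line (SL.per V) i ℓ (Pi.single j (T : ℤ))) e c) : ℝ) : ℂ)) =
        (slabExpect l μ β i ℓ ω
          (fun V => Ob i ℓ (κ, a, b) V * Ob i ℓ (κ', e, c) (shift j T V)) : ℂ) := by
      rw [← slab_EC]
      congr 1
      funext V
      rw [hOb, hOb']
      push_cast
      rfl
    rw [h1, Complex.norm_real, Real.norm_eq_abs]
    have h2 := hK (κ, a, b) (κ', e, c) l hl (by have := hLle (κ, a, b) (κ', e, c); omega) ω T hT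
    rw [hmean κ, zero_mul, sub_zero] at h2
    refine h2.trans (mul_le_mul_of_nonneg_right ((le_abs_self _).trans (hKle _ _))
      (Real.exp_pos _).le)
  have h1 := SL.EC_sum (μ := μ) (A := SL.Ins i ℓ) hS (Finset.univ : Finset (Bool × Bool)) (ω := ω)
      (F := fun V => SL.mt (SL.line (SL.per V) i ℓ 0) a b *
        star (SL.mt (SL.line (SL.per V) i ℓ (Pi.single j (T : ℤ))) e c))
      (f := fun p V => ((part p.1 (SL.mt (SL.line (SL.per V) i ℓ 0) a b) : ℝ) : ℂ) *
        ((part p.2 (SL.mt (SL.line (SL.per V) i ℓ (Pi.single j (T : ℤ))) e c) : ℝ) : ℂ))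
      (fun p => (hpc p.1 0 a b).mul (hpc p.2 _ e c))
      (fun p => (if p.1 then 1 else Complex.I) * (if p.2 then 1 else -Complex.I)) (fun U => by
        simp only [Fintype.sum_prod_type, Fintype.sum_bool, part]
        simp only [if_true, Bool.false_eq_true, if_false, one_mul]
        obtain ⟨p, hp⟩ : ∃ p, p = SL.mt (SL.line (SL.per (SL.mix (SL.Ins i ℓ) ω U)) i ℓ 0) a b :=
          ⟨_, rfl⟩
        obtain ⟨q, hq⟩ : ∃ q, q = SL.mt (SL.line (SL.per (SL.mix (SL.Ins i ℓ) ω U)) i ℓ
          (Pi.single j (T : ℤ))) e c := ⟨_, rfl⟩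
        rw [← hp, ← hq]
        apply Complex.ext
        · simp
        · simp)
  rw [h1]
  refine (norm_sum_le _ _).trans ?_
  have h2 : ∀ p : Bool × Bool, ‖((if p.1 then 1 else Complex.I) *
      (if p.2 then 1 else -Complex.I) : ℂ) * SL.EC μ (SL.Ins i ℓ) (fun U => β * SL.action U) ω
      (fun V => ((part p.1 (SL.mt (SL.line (SL.per V) i ℓ 0) a b) : ℝ) : ℂ) *
        ((part p.2 (SL.mt (SL.line (SL.per V) i ℓ (Pi.single j (T : ℤ))) e c) : ℝ) : ℂ))‖ ≤
          K₀ * Real.exp (-(m * T)) := by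
    intro p
    have h3 : ‖((if p.1 then 1 else Complex.I) * (if p.2 then 1 else -Complex.I) : ℂ)‖ = 1 := by
      obtain ⟨p1, p2⟩ := p
      cases p1 <;> cases p2 <;> simp
    rw [norm_mul, h3, one_mul]
    exact hcov p.1 p.2
  refine (Finset.sum_le_sum fun p _ => h2 p).trans (le_of_eq ?_)
  simp
  ring

/-- the area law in finite volume -/
lemma area_fin [μ.IsMulLeftInvariant] (hN : 1 ≤ N) {z : G} {ζ : ℂ}
    (hz : mt z = ζ • (1 : Mt N)) (hζ : ζ ≠ 1)
    {i j : Fin d} (hij : i ≠ j) {ℓ : ℕ} (hℓ : 1 ≤ ℓ) {β m : ℝ} (hcl : SlabClusters μ β i j ℓ m) :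
    ∃ (K : ℝ) (l₀ : ℕ), ∀ (l : ℕ) [NeZero l], Even l → l₀ ≤ l → ∀ R T : ℕ, R < l → 2 * T ≤ l →
      |expect l μ β (fun V : LinkZ d → G => (trace (mt (loop V 0 i j R T))).re / N)| ≤
        K ^ (R / ℓ + 1) * Real.exp (-(m * (R / ℓ : ℕ) * T)) := by
  obtain ⟨K, l₀, hK0, hK⟩ := cross μ hz hζ hℓ hcl
  refine ⟨N + N ^ 2 * K + 1, l₀, ?_⟩
  intro l _ hl hll R T hR hT
  have hS := SL.Sc (d := d) (l := l) (G := G) β
  obtain ⟨n, hn⟩ : ∃ n, n = R / ℓ := ⟨_, rfl⟩
  obtain ⟨r, hr⟩ : ∃ r, r = R % ℓ := ⟨_, rfl⟩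
  have hnr : n * ℓ + r = R := by rw [hn, hr, mul_comm]; exact Nat.div_add_mod R ℓ
  have h1 := SL.torus_bound μ (β := β) hij.symm hℓ (T := T)
    (δ := K * Real.exp (-(m * T))) (by positivity) (hK l hl hll T hT) n r (by omega)
  rw [hnr] at h1
  obtain ⟨Z, hZ⟩ : ∃ Z : ℝ, Z = ∫ U : Link d l → G, Real.exp (-(β * action U))
    ∂(Measure.pi fun _ => μ) := ⟨_, rfl⟩
  have hZ0 : 0 < Z := by
    rw [hZ]
    exact integral_exp_pos (SL.int_cont _ (SL.exp_cont hS))
  have h2 : (∫ U : Link d l → G, (trace (mt (loop (per U) 0 i j R T))).re / N *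
      Real.exp (-(β * action U)) ∂(Measure.pi fun _ => μ)) = (∫ U : Link d l → G,
        trace (SL.mt (SL.loop (SL.per U) 0 i j R T)) * (Real.exp (-(β * SL.action U)) : ℂ)
          ∂(Measure.pi fun _ => μ)).re / N := by
    have hint : Integrable (fun U : Link d l → G =>
        trace (SL.mt (SL.loop (SL.per U) 0 i j R T)) * (Real.exp (-(β * SL.action U)) : ℂ))
          (Measure.pi fun _ => μ) := by
      refine SL.int_cont _ (Continuous.mul ?_ (SL.expC_cont hS))
      have h3 : Continuous fun U : Link d l → G => SL.loop (SL.per U) 0 i j R T :=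
        ((((SL.line_cont _ _ _).comp SL.per_cont).mul ((SL.line_cont _ _ _).comp SL.per_cont)).mul
          ((SL.line_cont _ _ _).comp SL.per_cont).inv).mul
          ((SL.line_cont _ _ _).comp SL.per_cont).inv
      exact (SL.mt_cont.comp h3).matrix_trace
    have h3 := integral_re hint
    have h4 : (∫ U : Link d l → G,
        trace (SL.mt (SL.loop (SL.per U) 0 i j R T)) * (Real.exp (-(β * SL.action U)) : ℂ)
          ∂(Measure.pi fun _ => μ)).re = RCLike.re (∫ U : Link d l → G,
        trace (SL.mt (SL.loop (SL.per U) 0 i j R T)) * (Real.exp (-(β * SL.action U)) : ℂ)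
          ∂(Measure.pi fun _ => μ)) := rfl
    rw [h4, ← h3, ← integral_div]
    refine integral_congr_ae (Eventually.of_forall fun U => ?_)
    simp only
    rw [loop_eq]
    have h5 : RCLike.re (trace (SL.mt (SL.loop (SL.per U) 0 i j R T)) *
        (Real.exp (-(β * SL.action U)) : ℂ)) =
        (trace (SL.mt (SL.loop (SL.per U) 0 i j R T))).re * Real.exp (-(β * SL.action U)) := by
      show (trace (SL.mt (SL.loop (SL.per U) 0 i j R T)) *
        (Real.exp (-(β * SL.action U)) : ℂ)).re = _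
      rw [Complex.re_mul_ofReal]
    rw [h5]
    show (trace (SL.mt (SL.loop (SL.per U) 0 i j R T))).re / N * Real.exp (-(β * SL.action U)) = _
    ring
  have hN0 : (1 : ℝ) ≤ N := by exact_mod_cast hN
  unfold expect
  rw [h2, ← hZ, abs_div, abs_of_pos hZ0, div_le_iff₀ hZ0, abs_div, Nat.abs_cast,
    div_le_iff₀ (by linarith)]
  refine (Complex.abs_re_le_norm _).trans (h1.trans ?_)
  have h6 : (∫ U : Link d l → G, Real.exp (-(β * SL.action U)) ∂(Measure.pi fun _ => μ)) = Z :=
    hZ.symm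
  rw [h6, ← hn]
  have h7 : Real.exp (-(m * T)) ^ n = Real.exp (-(m * n * T)) := by
    rw [← Real.exp_nat_mul]
    congr 1
    ring
  have h8 : (N : ℝ) ^ 2 * (N ^ 2 * (K * Real.exp (-(m * T)))) ^ n =
      N ^ 2 * (N ^ 2 * K) ^ n * Real.exp (-(m * n * T)) := by
    rw [← h7]
    ring
  rw [h8]
  have h9 : (N : ℝ) * (N ^ 2 * K) ^ n ≤ (N + N ^ 2 * K + 1) ^ (n + 1) := by
    rw [pow_succ, mul_comm]
    have : 0 ≤ (N : ℝ) ^ 2 * K := by positivity
    exact mul_le_mul (pow_le_pow_left₀ this (by linarith) _) (by linarith) (by linarith)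
      (pow_nonneg (by linarith) _)
  calc (N : ℝ) ^ 2 * (N ^ 2 * K) ^ n * Real.exp (-(m * n * T)) * Z
      = (N * (N ^ 2 * K) ^ n) * Real.exp (-(m * n * T)) * Z * N := by ring
    _ ≤ (N + N ^ 2 * K + 1) ^ (n + 1) * Real.exp (-(m * n * T)) * Z * N := by
        have := Real.exp_pos (-(m * n * T))
        gcongr

end slab

theorem result {N : ℕ} (hN : 1 ≤ N) : ∃ C β₀ : ℝ, 0 < C ∧ 1 < β₀ ∧
    ∀ {d : ℕ}, 3 ≤ d → ∀ G : Subgroup (UU N), IsClosed (G : Set (UU N)) →
    ∀ [MeasurableSpace G] [BorelSpace G] (μ : Measure G) [IsProbabilityMeasure μ]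
      [μ.IsHaarMeasure] (z : G) (ζ : ℂ), mt z = ζ • (1 : Mt N) → ζ ≠ 1 →
    ∀ (i j : Fin d), i ≠ j → ∀ ℓ : ℕ, 1 ≤ ℓ → ∀ β m : ℝ, β₀ ≤ β → SlabClusters μ β i j ℓ m →
      (∀ ν : Measure (LinkZ d → G), IsInfVol μ β ν → ∃ (P : ℕ → ℝ) (σ : ℝ),
        (∀ (x : Fin d → ℤ) (R : ℕ), Tendsto (fun T : ℕ => -Real.log (wilson ν x i j R T) / T)
          atTop (𝓝 (P R))) ∧
        Tendsto (fun R : ℕ => P R / R) atTop (𝓝 σ) ∧
        (∀ R : ℕ, m * (R / ℓ : ℕ) ≤ P R) ∧
        m ≤ ℓ * σ ∧ σ ≤ C * Real.log β ^ 3 / β ^ 2) ∧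
      (∃ ν : Measure (LinkZ d → G), IsInfVol μ β ν) ∧
      m ≤ C * ℓ * Real.log β ^ 3 / β ^ 2 ∧
      ∀ Λ : ℝ, m * ℓ ≤ Λ → m ≤ Real.sqrt (C * Λ * Real.log β ^ 3) / β := by
  refine ⟨Y15.Cc N, Y15.bc N, ?_, ?_, ?_⟩
  · have h1 := Y15.cN_nonneg N
    have h2 := Y15.C0c_pos N
    unfold Y15.Cc
    positivity
  · have : (3 : ℝ) ≤ Y15.bc N := le_max_right _ _
    linarith
  intro d hd G hG _ _ μ _ _ z ζ hz hζ i j hij ℓ hℓ β m hβ hcl
  have : CompactSpace G := by
    have h1 : IsCompact (G : Set (UU N)) := hG.isCompact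
    exact isCompact_iff_compactSpace.1 h1
  have h00 : SecondCountableTopology (UU N) := TopologicalSpace.Subtype.secondCountableTopology _
  have : SecondCountableTopology G := TopologicalSpace.Subtype.secondCountableTopology _
  have := right_inv μ
  have := inv_inv' μ
  obtain ⟨n, ⟨B⟩⟩ := YM.exists_frame hG
  obtain ⟨K, l₀, hK⟩ := area_fin μ hN hz hζ hij hℓ hcl
  have harea : ∀ ν : Measure (LinkZ d → G), IsInfVol μ β ν → ∀ (x : Fin d → ℤ) (R T : ℕ),
      |wilson ν x i j R T| ≤ K ^ (R / ℓ + 1) * Real.exp (-(m * (R / ℓ : ℕ) * T)) := by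
    intro ν hν x R T
    obtain ⟨s, hs, hlim⟩ := hν.lim
    have h1 := (hlim _ (loop_cont x i j R T)).abs
    refine le_of_tendsto h1 ?_
    filter_upwards [hs.eventually_ge_atTop (l₀ + R + T)] with k hk
    have h2 : expect (2 * (s k + 1)) μ β
        (fun V : LinkZ d → G => (trace (mt (loop V x i j R T))).re / N) =
        expect (2 * (s k + 1)) μ β
        (fun V : LinkZ d → G => (trace (mt (loop V 0 i j R T))).re / N) := by
      rw [expect_loop μ B β x i j R T, expect_loop μ B β 0 i j R T]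
    rw [h2]
    exact hK (2 * (s k + 1)) (even_two_mul _) (by omega) R T (by omega) (by omega)
  obtain ⟨-, -, hmain⟩ := Pool.Agent.Y15.pot16 μ (L := B.toLD) (d := d) hN hd
  have hpot : ∀ ν : Measure (LinkZ d → G), IsInfVol μ β ν → ∃ (P : ℕ → ℝ) (σ : ℝ),
          (∀ (x : Fin d → ℤ) (R : ℕ), Tendsto (fun T : ℕ => -Real.log (wilson ν x i j R T) / T)
            atTop (𝓝 (P R))) ∧
          Tendsto (fun R : ℕ => P R / R) atTop (𝓝 σ) ∧
          (∀ R : ℕ, m * (R / ℓ : ℕ) ≤ P R) ∧
          m ≤ ℓ * σ ∧ σ ≤ Y15.Cc N * Real.log β ^ 3 / β ^ 2 := by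
    intro ν hν
    obtain ⟨s, hs, hlim⟩ := hν.lim
    have hw : ∀ (x : Fin d → ℤ) (R T : ℕ),
        Tendsto (fun k => YM.wR2 μ B.toLD (s k + 1) β i j R T) atTop (𝓝 (wilson ν x i j R T)) := by
      intro x R T
      refine (hlim _ (loop_cont x i j R T)).congr fun k => ?_
      exact expect_loop μ B β x i j R T
    have hx : ∀ (x : Fin d → ℤ) (R T : ℕ), wilson ν x i j R T = wilson ν 0 i j R T :=
      fun x R T => tendsto_nhds_unique (hw x R T) (hw 0 R T)
    obtain ⟨hpos, -, P, σ, h1, h2, h3, h4, h5⟩ := hmain β hβ i j hij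
      (fun R T => wilson ν 0 i j R T) s hs (fun R T => hw 0 R T)
    have hP : ∀ R : ℕ, m * (R / ℓ : ℕ) ≤ P R := by
      intro R
      -- `- log W / T ≥ m n - c / T`
      have h6 : Tendsto (fun T : ℕ => m * (R / ℓ : ℕ) - Real.log (K ^ (R / ℓ + 1)) / T) atTop
          (𝓝 (m * (R / ℓ : ℕ) - 0)) :=
        tendsto_const_nhds.sub (tendsto_const_div_atTop_nhds_zero_nat _)
      rw [sub_zero] at h6
      refine le_of_tendsto_of_tendsto h6 (h1 R) ?_
      filter_upwards [eventually_ge_atTop 1] with T hT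
      have hT0 : (0 : ℝ) < T := by exact_mod_cast hT
      have h7 := harea ν hν 0 R T
      have h8 : 0 < wilson ν 0 i j R T := hpos R T
      rw [abs_of_pos h8] at h7
      have h9 : 0 < K ^ (R / ℓ + 1) := by
        by_contra hcon
        push Not at hcon
        have := mul_nonpos_of_nonpos_of_nonneg hcon
          (Real.exp_pos (-(m * (R / ℓ : ℕ) * T))).le
        linarith
      have h10 := Real.log_le_log h8 h7
      rw [Real.log_mul h9.ne' (Real.exp_pos _).ne', Real.log_exp] at h10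
      rw [le_div_iff₀ hT0, sub_mul, div_mul_cancel₀ _ hT0.ne']
      linarith
    have hσ : m ≤ ℓ * σ := by
      have hℓ0 : (0 : ℝ) < ℓ := by exact_mod_cast hℓ
      have h6 : Tendsto (fun k : ℕ => P (k * ℓ) / ((k * ℓ : ℕ) : ℝ)) atTop (𝓝 σ) :=
        h2.comp (tendsto_id.atTop_mul_const' (by omega))
      have h7 : m / ℓ ≤ σ := by
        refine ge_of_tendsto h6 ?_
        filter_upwards [eventually_ge_atTop 1] with k hk
        have hk0 : (0 : ℝ) < k := by exact_mod_cast hk
        have h8 := hP (k * ℓ)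
        rw [Nat.mul_div_cancel _ (by omega)] at h8
        push_cast
        rw [div_le_div_iff₀ hℓ0 (by positivity)]
        nlinarith [mul_le_mul_of_nonneg_right h8 hℓ0.le]
      rw [div_le_iff₀ hℓ0] at h7
      linarith
    refine ⟨P, σ, fun x R => ?_, h2, hP, hσ, h5⟩
    simp only [hx x]
    exact h1 R
  obtain ⟨ν, hν⟩ := exists_infVol (d := d) μ B β
  have hβ3 : (3 : ℝ) ≤ Y15.bc N := le_max_right _ _
  have hβ0 : 0 < β := by linarith
  have hm : m ≤ Y15.Cc N * ℓ * Real.log β ^ 3 / β ^ 2 := by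
    obtain ⟨P, σ, -, -, -, h6, h7⟩ := hpot ν hν
    have hℓ0 : (0 : ℝ) ≤ ℓ := Nat.cast_nonneg ℓ
    calc m ≤ ℓ * σ := h6
      _ ≤ ℓ * (Y15.Cc N * Real.log β ^ 3 / β ^ 2) := mul_le_mul_of_nonneg_left h7 hℓ0
      _ = Y15.Cc N * ℓ * Real.log β ^ 3 / β ^ 2 := by ring
  refine ⟨hpot, ⟨ν, hν⟩, hm, fun Λ hΛ => ?_⟩
  have hC : 0 ≤ Y15.Cc N := by
    have h1 := Y15.cN_nonneg N
    have h2 := Y15.C0c_pos N
    unfold Y15.Cc
    positivity
  have hlog : 0 ≤ Real.log β := Real.log_nonneg (by linarith)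
  rcases le_or_gt m 0 with hm0 | hm0
  · exact hm0.trans (by positivity)
  · rw [le_div_iff₀ hβ0]
    refine Real.le_sqrt_of_sq_le ?_
    have h6 : m * β ^ 2 ≤ Y15.Cc N * ℓ * Real.log β ^ 3 := by
      rwa [le_div_iff₀ (by positivity)] at hm
    have h7 : 0 ≤ Y15.Cc N * Real.log β ^ 3 := by positivity
    calc (m * β) ^ 2 = m * (m * β ^ 2) := by ring
      _ ≤ m * (Y15.Cc N * ℓ * Real.log β ^ 3) := mul_le_mul_of_nonneg_left h6 hm0.le
      _ = (m * ℓ) * (Y15.Cc N * Real.log β ^ 3) := by ring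
      _ ≤ Λ * (Y15.Cc N * Real.log β ^ 3) := mul_le_mul_of_nonneg_right hΛ h7
      _ = Y15.Cc N * Λ * Real.log β ^ 3 := by ring

end

end Pool.Agent.Results.MP_7f377f_mp.SlabMassGap
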