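import Mathlib
import Pool.Agent.Q77.LU.Final

/-!
# The mass gap of lattice Yang-Mills theory in a small volume

Space is the periodic cubic lattice `(ℤ/l)^D`, `D ≥ 2`, the gauge group `G` is a closed connected
subgroup of `U(N)` whose Lie algebra has trivial centre (every compact connected semisimple group),
and the Hamiltonian is the one of Kogut and Susskind,
`H = - (g ^ 2 / 2) Δ + g ^ (-2) ∑_p Re tr (1 - U_p)`. For weak coupling `g → 0` all energy levels are
determined up to `o (g ^ (2 / 3))`: on functions invariant under gauge and centre transformations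
`E_k = e₀ + g ^ (2 / 3) l ^ (-D / 3) (λ_k + o (1))`, where `e₀` is the zero point energy of the free
gluons on the lattice and `λ_0 < λ_1 ≤ λ_2 ≤ …` are the levels of Yang-Mills quantum mechanics
`-½ Δ + ½ ∑_{i<j} |[A_i, A_j]|²` on the functions on `Lie(G)^D` invariant under the adjoint
representation. On all gauge invariant functions every level is repeated `|Z|^D` times, `Z` the
centre of `G`, and the distance of the lowest `|Z|^D` levels is exponentially small.
-/

open MeasureTheory Matrix Filter Topology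
open scoped ContDiff Matrix.Norms.Frobenius

namespace Pool.Agent.Results.MP_7f377f_mp.SmallVolumeMassGap

noncomputable section

/-! ### the lattice theory -/

/-- Complex `N × N` matrices. -/
abbrev Mt (N : ℕ) := Matrix (Fin N) (Fin N) ℂ

/-- The matrix of an element of a subgroup of `U(N)`. -/
def mt {N : ℕ} {G : Subgroup (unitaryGroup (Fin N) ℂ)} (g : G) : Mt N := ((g : unitaryGroup (Fin N) ℂ) : Mt N)

/-- Links of the periodic lattice `(ℤ/l)^D`: base point and direction. -/
abbrev Link (D l : ℕ) := (Fin D → ZMod l) × Fin D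

/-- Unit vector of the lattice in direction `i`. -/
def unitv {D l : ℕ} (i : Fin D) : Fin D → ZMod l := Pi.single i 1

/-- An orthonormal basis `X` of the Lie algebra of `G`, that is of the real space of all matrices `Y`
with `exp (t Y) ∈ G` for all real `t`, with the scalar product `Re tr (Y* Z)`; `ex a t` is the
element `exp (t X_a)` of `G`. -/
structure LieBasis {N : ℕ} (G : Subgroup (unitaryGroup (Fin N) ℂ)) (n : ℕ) where
  X : Fin n → Mt N
  ex : Fin n → ℝ → G
  ex_eq : ∀ a t, mt (ex a t) = NormedSpace.exp (t • X a)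
  orth : ∀ a b, (trace ((X a)ᴴ * X b)).re = if a = b then 1 else 0
  full : ∀ Y : Mt N, (∀ t : ℝ, ∃ g : G, mt g = NormedSpace.exp (t • Y)) →
    Y ∈ Submodule.span ℝ (Set.range X)

section

variable {N n D l : ℕ} {G : Subgroup (unitaryGroup (Fin N) ℂ)}

/-- The element of the Lie algebra with coordinates `v`. -/
def lin (B : LieBasis G n) (v : Fin n → ℝ) : Mt N := ∑ a, v a • B.X a

/-- The Lie algebra has trivial centre: `G` is semisimple. -/
def NoCentre (B : LieBasis G n) : Prop :=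
  ∀ v : Fin n → ℝ, (∀ a, lin B v * B.X a = B.X a * lin B v) → v = 0

/-- The product of the link variables around the plaquette at `x` in the directions `i`, `j`. -/
def plaq (U : Link D l → G) (x : Fin D → ZMod l) (i j : Fin D) : G :=
  U (x, i) * U (x + unitv i, j) * (U (x + unitv j, i))⁻¹ * (U (x, j))⁻¹

/-- The magnetic energy `∑_p Re tr (1 - U_p)`, the sum over the plaquettes. -/
def magnetic [NeZero l] (U : Link D l → G) : ℝ :=
  ∑ x : Fin D → ZMod l, ∑ i : Fin D, ∑ j : Fin D,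
    if i < j then (trace (1 - mt (plaq U x i j))).re else 0

/-- Smooth functions of the link variables: restrictions of smooth functions of the matrices. -/
def IsSmooth [NeZero l] (F : (Link D l → G) → ℝ) : Prop :=
  ∃ f : (Link D l → Mt N) → ℝ, ContDiff ℝ ∞ f ∧ ∀ U, F U = f fun e => mt (U e)

/-- The derivative of `F` at `U` when the variable of the link `e` moves as `exp (t X_a) U_e`. -/
def dlink (B : LieBasis G n) (e : Link D l) (a : Fin n) (F : (Link D l → G) → ℝ)
    (U : Link D l → G) : ℝ :=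
  deriv (fun t => F (Function.update U e (B.ex a t * U e))) 0

/-- The energy `⟨F, H F⟩` of a smooth function `F`, as a quadratic form, `μ` being the Haar measure:
`(g ^ 2 / 2) ∑_{e, a} ∫ (D_{e, a} F) ^ 2 + g ^ (-2) ∫ (∑_p Re tr (1 - U_p)) F ^ 2`. -/
def energy [NeZero l] [MeasurableSpace G] (B : LieBasis G n) (μ : Measure G) (g : ℝ)
    (F : (Link D l → G) → ℝ) : ℝ :=
  g ^ 2 / 2 * (∑ e : Link D l, ∑ a : Fin n,
    ∫ U, (dlink B e a F U) ^ 2 ∂(Measure.pi fun _ : Link D l => μ)) +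
  1 / g ^ 2 * ∫ U, magnetic U * F U ^ 2 ∂(Measure.pi fun _ : Link D l => μ)

/-- Gauge transformation of the link variables. -/
def gauge (γ : (Fin D → ZMod l) → G) (U : Link D l → G) : Link D l → G :=
  fun e => γ e.1 * U e * (γ (e.1 + unitv e.2))⁻¹

/-- Gauge invariant functions. -/
def GaugeInv (F : (Link D l → G) → ℝ) : Prop := ∀ γ U, F (gauge γ U) = F U

/-- Centre transformation: the links of direction `i` which leave the last layer are multiplied by
`z i`. -/
def centre (z : Fin D → G) (U : Link D l → G) : Link D l → G :=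
  fun e => if e.1 e.2 = -1 then z e.2 * U e else U e

/-- Functions invariant under the centre transformations. -/
def CentreInv (F : (Link D l → G) → ℝ) : Prop :=
  ∀ z : Fin D → G, (∀ i, z i ∈ Subgroup.center G) → ∀ U, F (centre z U) = F U

/-- The `k`-th energy level of the Hamiltonian, `k = 0, 1, …`, on the functions invariant under
gauge and centre transformations, by the minimum-maximum principle: the infimum of the numbers `E`,
such that for some orthonormal smooth invariant functions `Ψ_0, …, Ψ_k` the energies of all unit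
vectors of their span are at most `E`. -/
def level (D l : ℕ) [NeZero l] [MeasurableSpace G] (B : LieBasis G n) (μ : Measure G) (g : ℝ)
    (k : ℕ) : ℝ :=
  sInf {E : ℝ | ∃ Ψ : Fin (k + 1) → (Link D l → G) → ℝ,
    (∀ i, IsSmooth (Ψ i) ∧ GaugeInv (Ψ i) ∧ CentreInv (Ψ i)) ∧
    (∀ i j, ∫ U, Ψ i U * Ψ j U ∂(Measure.pi fun _ : Link D l => μ) = if i = j then 1 else 0) ∧
    ∀ c : Fin (k + 1) → ℝ, energy B μ g (fun U => ∑ i, c i * Ψ i U) ≤ E * ∑ i, c i ^ 2}

/-- The `k`-th energy level on all gauge invariant functions. -/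
def glevel (D l : ℕ) [NeZero l] [MeasurableSpace G] (B : LieBasis G n) (μ : Measure G) (g : ℝ)
    (k : ℕ) : ℝ :=
  sInf {E : ℝ | ∃ Ψ : Fin (k + 1) → (Link D l → G) → ℝ,
    (∀ i, IsSmooth (Ψ i) ∧ GaugeInv (Ψ i)) ∧
    (∀ i j, ∫ U, Ψ i U * Ψ j U ∂(Measure.pi fun _ : Link D l => μ) = if i = j then 1 else 0) ∧
    ∀ c : Fin (k + 1) → ℝ, energy B μ g (fun U => ∑ i, c i * Ψ i U) ≤ E * ∑ i, c i ^ 2}

/-- The zero point energy of the free gluons on the lattice:
`(D - 1) n / 2 · ∑_k (∑_i 4 sin² (π k_i / l))^(1/2)`. -/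
def ezero (n D l : ℕ) [NeZero l] : ℝ :=
  (D - 1 : ℝ) * n / 2 * ∑ k : Fin D → ZMod l,
    Real.sqrt (∑ i, 4 * Real.sin (Real.pi * ((k i).val : ℝ) / l) ^ 2)

/-! ### Yang-Mills quantum mechanics -/

/-- The potential `½ ∑_{i<j} |[A_i, A_j]|²`, `A_i` the elements of the Lie algebra with coordinates
`A (i, ·)`, `|M|² = tr (M* M)`. -/
def redPot (B : LieBasis G n) (D : ℕ) (A : Fin D × Fin n → ℝ) : ℝ :=
  1 / 2 * ∑ i : Fin D, ∑ j : Fin D, if i < j then
    (trace ((lin B (fun a => A (i, a)) * lin B (fun a => A (j, a)) -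
      lin B (fun a => A (j, a)) * lin B (fun a => A (i, a)))ᴴ *
      (lin B (fun a => A (i, a)) * lin B (fun a => A (j, a)) -
      lin B (fun a => A (j, a)) * lin B (fun a => A (i, a))))).re else 0

/-- The adjoint representation: `h A_i h⁻¹` in coordinates. -/
def adj (B : LieBasis G n) (h : G) (A : Fin D × Fin n → ℝ) : Fin D × Fin n → ℝ :=
  fun p => (trace ((B.X p.2)ᴴ * (mt h * lin B (fun c => A (p.1, c)) * (mt h)ᴴ))).re

/-- The energy `∫ (½ |∇ψ|² + ½ ∑_{i<j} |[A_i, A_j]|² ψ²)` of a function `ψ` on `Lie(G)^D`. -/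
def redEnergy (B : LieBasis G n) (D : ℕ) (ψ : (Fin D × Fin n → ℝ) → ℝ) : ℝ :=
  ∫ A, (1 / 2 * ∑ p, (fderiv ℝ ψ A (Pi.single p 1)) ^ 2 + redPot B D A * ψ A ^ 2)

/-- The `k`-th level of Yang-Mills quantum mechanics `-½ Δ + ½ ∑_{i<j} |[A_i, A_j]|²` on the
functions invariant under the adjoint representation (minimum-maximum principle). -/
def redLevel (B : LieBasis G n) (D k : ℕ) : ℝ :=
  sInf {E : ℝ | ∃ ψ : Fin (k + 1) → (Fin D × Fin n → ℝ) → ℝ,
    (∀ i, ContDiff ℝ ∞ (ψ i) ∧ HasCompactSupport (ψ i) ∧ ∀ h : G, ∀ A, ψ i (adj B h A) = ψ i A) ∧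
    (∀ i j, ∫ A, ψ i A * ψ j A = if i = j then 1 else 0) ∧
    ∀ c : Fin (k + 1) → ℝ, redEnergy B D (fun A => ∑ i, c i * ψ i A) ≤ E * ∑ i, c i ^ 2}

/-- The levels of Yang-Mills quantum mechanics: `0 < λ_0 < λ_1 ≤ λ_2 ≤ …`, `λ_k → ∞`. -/
def RedLevels (B : LieBasis G n) (D : ℕ) : Prop :=
  0 < redLevel B D 0 ∧ redLevel B D 0 < redLevel B D 1 ∧ Monotone (redLevel B D) ∧
    Tendsto (redLevel B D) atTop atTop

/-- The energy `E` (a function of the coupling `g`) satisfies, as `g → 0`,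
`E = e₀ + g ^ (2 / 3) l ^ (-D / 3) (lam + o (1))`, `e₀` the zero point energy `ezero n D l`. -/
def Asymp (n D l : ℕ) [NeZero l] (E : ℝ → ℝ) (lam : ℝ) : Prop :=
  Tendsto (fun g : ℝ => (E g - ezero n D l) / g ^ (2 / 3 : ℝ)) (𝓝[>] 0)
    (𝓝 ((l : ℝ) ^ (-(D : ℝ) / 3) * lam))

/-- The number of elements of the centre of `G` (`0` would mean that the centre is infinite). -/
def centreCard (G : Subgroup (unitaryGroup (Fin N) ℂ)) : ℕ := Nat.card (Subgroup.center G)

/-- The lowest `m` levels on all gauge invariant functions lie within `exp (- c / g)`. -/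
def NearDegenerate (D l : ℕ) [NeZero l] [MeasurableSpace G] (B : LieBasis G n) (μ : Measure G)
    (m : ℕ) : Prop :=
  ∃ c g₀ : ℝ, 0 < c ∧ 0 < g₀ ∧ ∀ g : ℝ, 0 < g → g < g₀ →
    glevel D l B μ g (m - 1) ≤ glevel D l B μ g 0 + Real.exp (-c / g)

/-- The mass gap in large volumes at very weak coupling: for some positive `g₀(l)`, whenever
`0 < g_l ≤ g₀(l)`, the gap on the lattice of side `l + 1` at the coupling `g_l`, divided by
`g_l ^ (2 / 3) (l + 1) ^ (-D / 3)`, tends to `δ` as `l → ∞`. -/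
def LargeVolumeGap (D : ℕ) [MeasurableSpace G] (B : LieBasis G n) (μ : Measure G) (δ : ℝ) : Prop :=
  ∃ g₀ : ℕ → ℝ, (∀ l, 0 < g₀ l) ∧ ∀ g : ℕ → ℝ, (∀ l, 0 < g l ∧ g l ≤ g₀ l) →
    Tendsto (fun l : ℕ => ((l + 1 : ℕ) : ℝ) ^ ((D : ℝ) / 3) *
      (level D (l + 1) B μ (g l) 1 - level D (l + 1) B μ (g l) 0) / g l ^ (2 / 3 : ℝ)) atTop
      (𝓝 δ)

/-- The same data in the form used by the helper files. -/
def cv (B : LieBasis G n) : Q77.LU.LieBasis G n where
  X := B.X
  ex := B.ex
  ex_eq := B.ex_eq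
  orth := B.orth
  full := B.full

lemma redLevel_eq (B : LieBasis G n) (D k : ℕ) :
    redLevel B D k = Q77.LU.lev (Q77.LU.vred (cv B) D) (Q77.LU.AdS (cv B) D) k := by
  have h1 : ∀ ψ : (Fin D × Fin n → ℝ) → ℝ,
      redEnergy B D ψ = Q77.LU.qf (Q77.LU.vred (cv B) D) ψ := fun ψ => rfl
  have h2 : ∀ ψ : (Fin D × Fin n → ℝ) → ℝ,
      (ContDiff ℝ ∞ ψ ∧ HasCompactSupport ψ ∧ ∀ h : G, ∀ A, ψ (adj B h A) = ψ A) ↔
        Q77.LU.CI (Q77.LU.AdS (cv B) D) ψ := by
    intro ψ
    constructor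
    · rintro ⟨a, b, c⟩
      refine ⟨a, b, ?_⟩
      rintro σ ⟨h, rfl⟩ x
      exact c h x
    · rintro ⟨a, b, c⟩
      exact ⟨a, b, fun h A => c _ ⟨h, rfl⟩ A⟩
  unfold redLevel Q77.LU.lev
  simp only [h1, h2]

lemma level_eq (D l : ℕ) [NeZero l] [MeasurableSpace G] (B : LieBasis G n) (μ : Measure G)
    (g : ℝ) (k : ℕ) : level D l B μ g k = Q77.LU.level D l (cv B) μ g k := rfl

lemma glevel_eq (D l : ℕ) [NeZero l] [MeasurableSpace G] (B : LieBasis G n) (μ : Measure G)
    (g : ℝ) (k : ℕ) : glevel D l B μ g k = Q77.LU.glevel D l (cv B) μ g k := rfl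

end

/-- **The mass gap of lattice Yang-Mills theory in a small volume.** -/
theorem result {N n D : ℕ} (G : Subgroup (unitaryGroup (Fin N) ℂ)) (hG : IsClosed (G : Set (unitaryGroup (Fin N) ℂ)))
    [ConnectedSpace G] [MeasurableSpace G] [BorelSpace G] (μ : Measure G)
    [IsProbabilityMeasure μ] [μ.IsHaarMeasure] (B : LieBasis G n) (hn : 1 ≤ n)
    (hz : NoCentre B) (hD : 2 ≤ D) :
    RedLevels B D ∧ 0 < centreCard G ∧
    (∀ (l : ℕ) [NeZero l],
      (∀ k : ℕ, Asymp n D l (fun g => level D l B μ g k) (redLevel B D k)) ∧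
      (∀ k : ℕ, Asymp n D l (fun g => glevel D l B μ g k)
        (redLevel B D (k / centreCard G ^ D))) ∧
      NearDegenerate D l B μ (centreCard G ^ D)) ∧
    LargeVolumeGap D B μ (redLevel B D 1 - redLevel B D 0) := by
  have h := Q77.LU.t_FIN N n D G hG inferInstance (cv B) μ hz hD hn
  have hfin : Finite (Subgroup.center G) := h.2.1
  have h1 : redLevel B D = Q77.LU.lev (Q77.LU.vred (cv B) D) (Q77.LU.AdS (cv B) D) :=
    funext fun k => redLevel_eq B D k
  unfold RedLevels Asymp NearDegenerate LargeVolumeGap centreCard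
  rw [h1]
  exact ⟨h.1, Nat.card_pos, h.2.2⟩

end

end Pool.Agent.Results.MP_7f377f_mp.SmallVolumeMassGap
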