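import Pool.Agent.Q234.SC.Fin

/-!
# Lattice Yang-Mills theory with gauge group `SU(2)`: the mass gap for `β < √3 / (6 d - 10)`

Wilson's lattice gauge theory on `ℤ^d` with gauge group `SU(2)` and the weight
`exp (β ∑_p Re Tr U_p)`. In every dimension `d ≥ 2` and for all `β` with `(6 d - 10) |β| < √3` (in
`d = 4` this is `|β| < 0.1237…`, in `d = 3` it is `|β| < 0.2165…`) the theory exists in the infinite
volume, its state is unique on the gauge invariant observables, and it has a mass gap of at least
`arcosh (√3 / (2 |β|) - 3 (d - 2)) > 0`: the truncated correlations decay exponentially with this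
rate, and by reflection positivity the transfer matrix of the theory has no spectrum between
`exp (- m)` and `1`.
-/

namespace Pool.Agent.Results.MP_7f377f_mp.StrongCouplingSU2

open MeasureTheory Filter
open scoped Topology

/-- The group `SU(2)`, realised as the group of unit quaternions; the trace of a matrix of `SU(2)`
is twice the real part of the unit quaternion. -/
abbrev SU2 : Type := Metric.sphere (0 : Quaternion ℝ) 1

/-- The links of the lattice `ℤ^d` (for `R = ℤ`) or of the periodic lattice `(ℤ/l)^d` (for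
`R = ZMod l`): `(x, i)` is the link from `x` to `x + e i`. -/
abbrev Link (R : Type) (d : ℕ) : Type := (Fin d → R) × Fin d

section

variable {R : Type} [AddCommGroup R] [One R] {d : ℕ}

/-- The `i`-th unit vector. -/
def e (R : Type) [AddCommGroup R] [One R] {d : ℕ} (i : Fin d) : Fin d → R := Pi.single i 1

/-- The plaquette variable `U_p` of the plaquette with the corners `x`, `x + e i`, `x + e i + e j`,
`x + e j`. -/
noncomputable def plaquette (V : Link R d → SU2) (x : Fin d → R) (i j : Fin d) : SU2 :=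
  V (x, i) * V (x + e R i, j) * (V (x + e R j, i))⁻¹ * (V (x, j))⁻¹

/-- `Re Tr U_p`. -/
noncomputable def reTr (V : Link R d → SU2) (x : Fin d → R) (i j : Fin d) : ℝ :=
  2 * (plaquette V x i j : Quaternion ℝ).re

/-- The sum of `Re Tr U_p` over the `2 (d - 1)` plaquettes `p` which contain the link `b`. -/
noncomputable def energy (V : Link R d → SU2) (b : Link R d) : ℝ :=
  ∑ j ∈ Finset.univ.erase b.2, (reTr V b.1 b.2 j + reTr V (b.1 - e R j) b.2 j)

/-- Gauge transformation. -/
noncomputable def gauge (γ : (Fin d → R) → SU2) (V : Link R d → SU2) : Link R d → SU2 :=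
  fun b => γ b.1 * V b * (γ (b.1 + e R b.2))⁻¹

/-- The configuration shifted by `a`. -/
def shift (a : Fin d → R) (V : Link R d → SU2) : Link R d → SU2 := fun b => V (b.1 + a, b.2)

/-- The reflection of the point `x` in the hyperplane `x i = 0`. -/
def mirror (i : Fin d) (x : Fin d → R) : Fin d → R := Function.update x i (-(x i))

/-- The reflection of the configuration in the hyperplane `x i = 0`; the links in the direction `i`
change their orientation. -/
noncomputable def reflect (i : Fin d) (V : Link R d → SU2) : Link R d → SU2 :=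
  fun b => if b.2 = i then (V (mirror i b.1 - e R i, i))⁻¹ else V (mirror i b.1, b.2)

end

section

variable {d : ℕ}

/-- The observables supported in the finite set `B` of links: gauge invariant functions which are
Lipschitz functions of the link variables of `B`, such as products of Wilson loops. -/
structure IsObservable (B : Finset (Link ℤ d)) (F : (Link ℤ d → SU2) → ℝ) : Prop where
  inv : ∀ γ V, F (gauge γ V) = F V
  lip : ∃ L : ℝ, ∀ V V' : Link ℤ d → SU2,
    |F V - F V'| ≤ L * ∑ b ∈ B, ‖(V b : Quaternion ℝ) - (V' b : Quaternion ℝ)‖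

/-- Infinite volume Gibbs states of the weight `exp (β ∑_p Re Tr U_p)`, `σ` being the normalised
Haar measure: the conditional law of each link variable, given all the others, has the density
`exp (β ∑ Re Tr U_p) / Z`, with the sum over the plaquettes which contain the link. -/
structure IsGibbs [MeasurableSpace SU2] (σ : Measure SU2) (β : ℝ)
    (ν : Measure (Link ℤ d → SU2)) : Prop where
  prob : IsProbabilityMeasure ν
  dlr : ∀ (b : Link ℤ d) (f : (Link ℤ d → SU2) → ℝ), Measurable f → (∃ C, ∀ V, |f V| ≤ C) →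
    ∫ V, (∫ g, f (Function.update V b g) *
        Real.exp (β * energy (Function.update V b g) b) ∂σ) /
      (∫ g, Real.exp (β * energy (Function.update V b g) b) ∂σ) ∂ν = ∫ V, f V ∂ν

/-- The periodic extension of a configuration on the periodic lattice. -/
def periodic {l : ℕ} (U : Link (ZMod l) d → SU2) : Link ℤ d → SU2 :=
  fun b => U (fun i => (b.1 i : ZMod l), b.2)

/-- `∑_p Re Tr U_p`, the sum over all plaquettes of the periodic lattice. -/
noncomputable def action {l : ℕ} [NeZero l] (U : Link (ZMod l) d → SU2) : ℝ :=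
  ∑ x : Fin d → ZMod l, ∑ i : Fin d, ∑ j : Fin d, if i < j then reTr U x i j else 0

/-- The expectation of `F` in the theory on the periodic lattice `(ℤ/l)^d`. -/
noncomputable def torusExpect [MeasurableSpace SU2] (σ : Measure SU2) (β : ℝ) (l : ℕ) [NeZero l]
    (F : (Link ℤ d → SU2) → ℝ) : ℝ :=
  (∫ U : Link (ZMod l) d → SU2, F (periodic U) * Real.exp (β * action U)
      ∂(Measure.pi fun _ => σ)) /
    ∫ U : Link (ZMod l) d → SU2, Real.exp (β * action U) ∂(Measure.pi fun _ => σ)

open Pool.Agent.Q234 Pool.Agent.H556R4.SU2 in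
lemma energy_eq [MeasurableSpace SU2] [BorelSpace SU2] (β : ℝ) (b : Link ℤ d) (V : Link ℤ d → SU2) (g : SU2) :
    β * energy (Function.update V b g) b = inner ℝ (SC.fl β b V) (g : Quaternion ℝ) := by
  have hself : SC.fl β b (Function.update V b g) = SC.fl β b V :=
    (SC.fld_ok (d := d) β (∑ i, (b.1 i).natAbs) {b} (by
      intro y hy
      rw [Finset.mem_singleton] at hy
      subst hy
      refine SC.mem_lks.2 fun i => ?_
      have h1 : (y.1 i).natAbs ≤ ∑ i, (y.1 i).natAbs :=
        Finset.single_le_sum (f := fun i => (y.1 i).natAbs) (fun _ _ => Nat.zero_le _)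
          (Finset.mem_univ i)
      omega)).self b (by simp) V g
  rw [← hself]
  set W := Function.update V b g with hW
  have hWb : W (b.1, b.2) = g := by rw [hW]; exact Function.update_self b g V
  unfold energy SC.fl
  rw [real_inner_smul_left, sum_inner, mul_assoc, Finset.mul_sum, Finset.mul_sum, Finset.mul_sum]
  refine Finset.sum_congr rfl fun j _ => ?_
  have h1 : reTr W b.1 b.2 j = 2 * inner ℝ ((SC.stp W b.1 b.2 j : SU2) : Quaternion ℝ)
      (g : Quaternion ℝ) := by
    unfold reTr plaquette SC.stp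
    rw [hWb, SC.inner_first]
    rfl
  have h2 : reTr W (b.1 - e ℤ j) b.2 j = 2 * inner ℝ ((SC.stm W b.1 b.2 j : SU2) : Quaternion ℝ)
      (g : Quaternion ℝ) := by
    unfold reTr plaquette SC.stm
    rw [sub_add_cancel, hWb, SC.inner_third]
    rfl
  rw [h1, h2, inner_add_left]
  ring

open Pool.Agent.Q234 in
lemma reflect_eq (i : Fin d) (V : Link ℤ d → SU2) : reflect i V = SC.refl i V := by
  funext b
  obtain ⟨x, k⟩ := b
  unfold reflect SC.refl SC.rl
  by_cases h : k = i
  · subst h
    simp only [if_true]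
    rfl
  · simp only [h, if_false]
    rfl

end

open Pool.Agent.Q234 Pool.Agent.H556R4.SU2 in
/-- **Existence, uniqueness and mass gap.** Let `d ≥ 2` and `(6 d - 10) |β| < √3`. Gibbs states of
the infinite volume exist. Every Gibbs state `ν` has the following properties. The expectations of
every observable on the periodic lattices `(ℤ/l)^d` converge to its expectation in `ν`, as `l → ∞`;
in particular the expectations of the observables do not depend on the Gibbs state and are
invariant under translations. Let `m ≥ 0` with `|β| (6 (d - 2) + 2 cosh m) ≤ √3`, for example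
`m = arcosh (√3 / (2 |β|) - 3 (d - 2)) > 0` for `β ≠ 0` (such `m > 0` exist). Then the truncated correlation of an
observable `F` and of the translate of an observable `H` by `t` units in any of the `d` directions is
at most `K exp (- m t)`, and for every observable `F` supported in the half space `x i ≥ 0` and the
reflection `θ` in the hyperplane `x i = 0` one has
`|⟨θF τ_t F⟩ - ⟨F⟩²| ≤ exp (- m t) (⟨θF F⟩ - ⟨F⟩²)` for all `t ≥ 0`, that is
`‖T ^ t (1 - |Ω⟩⟨Ω|)‖ ≤ exp (- m t)` for the transfer matrix `T` on the physical Hilbert space. -/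
theorem result [MeasurableSpace SU2] [BorelSpace SU2] (σ : Measure SU2) [IsProbabilityMeasure σ]
    [σ.IsHaarMeasure] {d : ℕ} (hd : 2 ≤ d) {β : ℝ} (hβ : (6 * (d : ℝ) - 10) * |β| < Real.sqrt 3) :
    (∃ m : ℝ, 0 < m ∧ |β| * (6 * ((d : ℝ) - 2) + 2 * Real.cosh m) ≤ Real.sqrt 3) ∧
    (∃ ν : Measure (Link ℤ d → SU2), IsGibbs σ β ν) ∧
    ∀ ν : Measure (Link ℤ d → SU2), IsGibbs σ β ν →
      (∀ (B : Finset (Link ℤ d)) (F : (Link ℤ d → SU2) → ℝ), IsObservable B F →
        Tendsto (fun l : ℕ => torusExpect σ β (l + 1) F) atTop (𝓝 (∫ V, F V ∂ν)) ∧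
        ∀ a : Fin d → ℤ, ∫ V, F (shift a V) ∂ν = ∫ V, F V ∂ν) ∧
      ∀ m : ℝ, 0 ≤ m → |β| * (6 * ((d : ℝ) - 2) + 2 * Real.cosh m) ≤ Real.sqrt 3 →
        ∀ (i : Fin d) (B : Finset (Link ℤ d)) (F : (Link ℤ d → SU2) → ℝ), IsObservable B F →
        (∀ (B' : Finset (Link ℤ d)) (H : (Link ℤ d → SU2) → ℝ), IsObservable B' H →
          ∃ K : ℝ, ∀ t : ℕ, |∫ V, F V * H (shift (Pi.single i (t : ℤ)) V) ∂ν -
            (∫ V, F V ∂ν) * ∫ V, H V ∂ν| ≤ K * Real.exp (-(m * t))) ∧
        ((∀ b ∈ B, 0 ≤ b.1 i) → ∀ t : ℕ,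
          |∫ V, F (reflect i V) * F (shift (Pi.single i (t : ℤ)) V) ∂ν - (∫ V, F V ∂ν) ^ 2| ≤
            Real.exp (-(m * t)) * (∫ V, F (reflect i V) * F V ∂ν - (∫ V, F V ∂ν) ^ 2)) := by
  have i1 : σ.IsMulRightInvariant := right_inv σ
  have i2 : σ.IsInvInvariant := inv_inv' σ
  -- the two notions of Gibbs states
  have hhb : ∀ (b : Link ℤ d) (f : (Link ℤ d → SU2) → ℝ) (V : Link ℤ d → SU2),
      (∫ g, f (Function.update V b g) * Real.exp (β * energy (Function.update V b g) b) ∂σ) /
      (∫ g, Real.exp (β * energy (Function.update V b g) b) ∂σ) =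
        SC.hb σ (SC.fl β) b f V := by
    intro b f V
    unfold SC.hb Eh Zs
    simp only [energy_eq]
  have hG : ∀ ν : Measure (Link ℤ d → SU2), IsGibbs σ β ν ↔ SC.Gb σ β ν := by
    intro ν
    constructor
    · intro h
      refine ⟨h.prob, fun b f hf => ?_⟩
      have := h.dlr b f hf.meas hf.bdd
      simpa only [hhb] using this
    · intro h
      refine ⟨h.prob, fun b f hf hf' => ?_⟩
      simp only [hhb]
      exact h.inv b f ⟨hf, hf'⟩
  have hO : ∀ (B : Finset (Link ℤ d)) (F : (Link ℤ d → SU2) → ℝ), IsObservable B F →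
      SC.Og B F := by
    intro B F hF
    obtain ⟨L, hL⟩ := hF.lip
    refine ⟨hF.inv, max L 0, le_max_right _ _, fun V V' => (hL V V').trans ?_⟩
    exact mul_le_mul_of_nonneg_right (le_max_left _ _) (Finset.sum_nonneg fun _ _ => norm_nonneg _)
  refine ⟨?_, ?_, ?_⟩
  · obtain ⟨m, hm, h⟩ := SC.exists_rate (d := d) hβ
    refine ⟨m, hm, ?_⟩
    have h3 : Real.sqrt 3 * Real.sqrt 3 = 3 := Real.mul_self_sqrt (by norm_num)
    have hs : 0 < Real.sqrt 3 := Real.sqrt_pos.2 (by norm_num)
    have hd2 : (2 : ℝ) ≤ d := by exact_mod_cast hd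
    have hc : Real.cosh m ≤ Real.exp m := by
      rw [Real.cosh_eq]
      have := Real.exp_le_exp.2 (by linarith : -m ≤ m)
      linarith
    have he : 1 ≤ Real.exp m := Real.one_le_exp hm.le
    have e1 : 6 * ((d : ℝ) - 2) + 2 * Real.cosh m ≤ (6 * ((d : ℝ) - 2) + 2) * Real.exp m := by
      nlinarith
    have e2 := mul_le_mul_of_nonneg_left e1 (abs_nonneg β)
    have e3 : SC.kc * (2 * |β|) * ((6 * ((d : ℝ) - 2) + 2) * Real.exp m) =
        Real.sqrt 3 / 3 * (|β| * ((6 * ((d : ℝ) - 2) + 2) * Real.exp m)) := by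
      unfold SC.kc; ring
    rw [e3] at h
    have h4 := mul_le_mul_of_nonneg_left h hs.le
    have e4 : Real.sqrt 3 * (Real.sqrt 3 / 3 * (|β| * ((6 * ((d : ℝ) - 2) + 2) * Real.exp m))) =
        |β| * ((6 * ((d : ℝ) - 2) + 2) * Real.exp m) := by
      rw [← mul_assoc, ← mul_div_assoc, h3]; norm_num
    rw [e4, mul_one] at h4
    linarith
  · obtain ⟨ν, hν⟩ := SC.exists_gb (d := d) σ β
    exact ⟨ν, (hG ν).2 hν⟩
  intro ν hν'
  have hν := (hG ν).1 hν'
  refine ⟨fun B F hF => ⟨?_, fun a => SC.Gb_sh σ hd hβ hν (hO B F hF) a⟩, ?_⟩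
  · have h := SC.lim_torus σ hd hβ hν (hO B F hF)
    refine h.congr fun l => ?_
    rw [SC.nuT_int σ β (hO B F hF).bm.meas]
    rfl
  · intro m hm h1 i B F hF
    refine ⟨fun B' H hH => ?_, fun hB t => ?_⟩
    swap
    · simp only [reflect_eq]
      exact SC.gapG σ hd hβ hm h1 hν i hB (hO B F hF) t
    obtain ⟨K, hK⟩ := SC.clusG σ hd hβ hm h1 hν i (hO B F hF) (hO B' H hH)
    refine ⟨K, fun t => ?_⟩
    have h3 := hK t
    rwa [SC.Gb_sh σ hd hβ hν (hO B' H hH)] at h3

end Pool.Agent.Results.MP_7f377f_mp.StrongCouplingSU2
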