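import Pool.Agent.Q203.TRS.Hyp

set_option autoImplicit false

/-!
# MP_8067b8_lc: every topological Ramsey space canonizes every CBER to `E_0`

Negative answer to Q1: there is no topological Ramsey space `R` and no countable Borel equivalence
relation `E` on `R` with `E_0 <_B E` and `E` in the spectrum of `I(R)`.
-/

namespace Pool.Agent.Results.MP_8067b8_lc.CanonizesE0

open Set MeasureTheory Topology Pool.Agent.Q203.TRS

variable {R AR : Type}

/-- `E` is a countable Borel equivalence relation on `R` (Borel: for the Polish topology). -/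
def CBER (S : TopRamsey R AR) (E : R → R → Prop) : Prop :=
  Equivalence E ∧
    (@MeasurableSet (R × R) (@Prod.instMeasurableSpace R R S.bor S.bor)
      {p : R × R | E p.1 p.2}) ∧
    ∀ x, {y | E x y}.Countable

/-- `C` is a Borel set (for the Polish topology) which is not Ellentuck meager,
i.e. not in `I(R)`. -/
def Large (S : TopRamsey R AR) (C : Set R) : Prop :=
  (@MeasurableSet R S.bor C) ∧ ¬ @IsMeagre R S.ellentuck C

/-- The restriction of `E` to `C`. -/
def Restr (E : R → R → Prop) (C : Set R) : C → C → Prop := fun x y => E x.1 y.1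

/-- Borel reducibility of `E ↾ C` to a relation `F` on a measurable space `Y`. -/
def RestrLe (S : TopRamsey R AR) (E : R → R → Prop) (C : Set R) {Y : Type} (mY : MeasurableSpace Y)
    (F : Y → Y → Prop) : Prop :=
  @BorelRed C Y (@Subtype.instMeasurableSpace R (fun x => x ∈ C) S.bor) mY (Restr E C) F

/-- `E` is in the spectrum of `I(R)`. -/
def InSpectrum (S : TopRamsey R AR) (E : R → R → Prop) : Prop :=
  ∀ B : Set R, Large S B → ∃ C ⊆ B, Large S C ∧ RestrLe S E C S.bor E ∧
    @BorelRed R C S.bor (@Subtype.instMeasurableSpace R (fun x => x ∈ C) S.bor) E (Restr E C)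

/-- `I(R)` canonizes `E` to `F`. -/
def Canonizes (S : TopRamsey R AR) (E : R → R → Prop) {Y : Type} (mY : MeasurableSpace Y)
    (F : Y → Y → Prop) : Prop :=
  ∀ B : Set R, Large S B → ∃ C ⊆ B, Large S C ∧ RestrLe S E C mY F

/-- `E_0 <_B E`. -/
def AboveE0 (S : TopRamsey R AR) (E : R → R → Prop) : Prop :=
  @BorelRed (ℕ → Bool) R _ S.bor E0 E ∧ ¬ @BorelRed R (ℕ → Bool) S.bor _ E E0

theorem canonizes [Countable AR] (S : TopRamsey R AR) (E : R → R → Prop) (hE : CBER S E) :
    Canonizes S E (inferInstance : MeasurableSpace (ℕ → Bool)) E0 := by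
  rintro B ⟨hB, hBm⟩
  obtain ⟨hE1, hE2, hE3⟩ := hE
  obtain ⟨a, A, hne, hsub⟩ := S.exists_cube_of_not_meagre hB hBm
  obtain ⟨n, hn⟩ := S.exists_depth' hne
  obtain ⟨D, hD, F, hF1, hF2, hF3, hF4, hF5⟩ := S.hyperfinite_below E hE1 hE2 hE3 A n
  have hcube : MeasurableSet[S.bor] (S.cube a D) := by
    have : S.cube a D = {x | S.le x D} ∩ ⋃ k, {x | S.r k x ∈ ({a} : Set AR)} := by
      ext x
      simp [TopRamsey.cube]
    rw [this]
    exact @MeasurableSet.inter R S.bor _ _ (S.meas_le D)
      (@MeasurableSet.iUnion R ℕ S.bor _ _ fun k => S.meas_r k _)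
  refine ⟨S.cube a D, (S.cube_mono hD.1).trans hsub, ⟨hcube,
    S.not_meagre_cube (S.cube_nonempty hn hD)⟩, ?_⟩
  let _ := S.polish
  let _ : MeasurableSpace R := S.bor
  have : BorelSpace R := ⟨rfl⟩
  have : PolishSpace R := S.polishSpace
  obtain ⟨f, hf, hff⟩ := red_E0 F hF1 hF2 hF3 hF4
  refine ⟨fun x => f x.1, hf.comp measurable_subtype_coe, fun x y => ?_⟩
  exact (hF5 x.1 y.1 x.2.1 y.2.1).trans (hff x.1 y.1)

theorem large_univ (S : TopRamsey R AR) (x : R) : Large S univ := by
  refine ⟨@MeasurableSet.univ R S.bor, fun h => ?_⟩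
  have h2 : ¬ @IsMeagre R S.ellentuck (S.cube (S.r 0 x) x) := S.not_meagre_cube ⟨x, S.self_cube 0 x⟩
  exact h2 (@IsMeagre.mono R S.ellentuck _ _ (subset_univ _) h)

/-- **Main result.** Let `R` be a topological Ramsey space (with countably many approximations) and
`E` a countable Borel equivalence relation on `R`. Then `I(R)` canonizes `E` to `E_0`; and if
`E_0 <_B E` then `E` is not in the spectrum of `I(R)`, in the strong form that there is a Borel
`B ∉ I(R)` such that `E` is not Borel reducible to `E ↾ C` for any Borel `C ⊆ B`. -/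
theorem result [Countable AR] (S : TopRamsey R AR) (E : R → R → Prop) (hE : CBER S E) :
    Canonizes S E (inferInstance : MeasurableSpace (ℕ → Bool)) E0 ∧
      (AboveE0 S E → ¬ InSpectrum S E) ∧
      (AboveE0 S E → ∃ B : Set R, Large S B ∧ ∀ C ⊆ B,
        ¬ @BorelRed R C S.bor (@Subtype.instMeasurableSpace R (fun x => x ∈ C) S.bor) E
          (Restr E C)) := by
  have h3 : AboveE0 S E → ∃ B : Set R, Large S B ∧ ∀ C ⊆ B,
        ¬ @BorelRed R C S.bor (@Subtype.instMeasurableSpace R (fun x => x ∈ C) S.bor) E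
          (Restr E C) := by
    rintro ⟨⟨g, _, _⟩, h2⟩
    obtain ⟨B, _, hB, f, hf, hff⟩ := canonizes S E hE univ (large_univ S (g fun _ => true))
    refine ⟨B, hB, ?_⟩
    rintro C hC ⟨h, hh, hhh⟩
    apply h2
    let _ : MeasurableSpace R := S.bor
    have hinc : Measurable (Set.inclusion hC) := measurable_inclusion hC
    exact ⟨fun x => f (Set.inclusion hC (h x)), hf.comp (hinc.comp hh), fun x y =>
      (hhh x y).trans (hff (Set.inclusion hC (h x)) (Set.inclusion hC (h y)))⟩
  refine ⟨canonizes S E hE, fun h1 h2 => ?_, h3⟩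
  obtain ⟨B, hB, h⟩ := h3 h1
  obtain ⟨C, hC, _, _, h4⟩ := h2 B hB
  exact h C hC h4

end Pool.Agent.Results.MP_8067b8_lc.CanonizesE0
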