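import Pool.Agent.Q86.MBasisSum2

/-!
# A Banach space with an extended `M`-basis which contains `ℓ_∞` (`MP_810de6_an`, Q1: yes)

Let `X` be a Banach space with a countable total set of functionals. A Gram-Schmidt argument gives
`e_n ∈ X` and a total sequence `f_n ∈ X*` which is biorthogonal to it; let
`P_n y = f_0(y) e_0 + ... + f_(n-1)(y) e_(n-1)`. In `X × ℓ₁(B × ℕ)`, `B` the unit ball of `X`, the
vectors `(e_k, 0)` and `((n + 1) (y - P_n y), u_(y,n))`, with the unit vectors `u_(y,n)`, form an
extended `M`-basis. For `X = ℓ_∞` this answers the question.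
-/

set_option autoImplicit false

namespace Pool.Agent.Results.MP_810de6_an.ContainsEllInfinity

open Q86.MB
open scoped ENNReal

/-- **Theorem.** Let `𝕜` be the real or the complex field.

(1) There is a Banach space `E` with an extended `M`-basis and with a closed subspace `G` which is
linearly homeomorphic to `ℓ_∞`.

(2) More generally, for every Banach space `X` with a countable total set of functionals (that is,
with weak* separable dual) there is a Banach space `Z` such that `X × Z` has an extended
`M`-basis. -/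
theorem result (𝕜 : Type) [RCLike 𝕜] :
    (∃ (E : Type) (_ : NormedAddCommGroup E) (_ : NormedSpace 𝕜 E) (_ : CompleteSpace E),
      (∃ (I : Type) (x : I → E), IsExtendedMBasis 𝕜 x) ∧
      ∃ G : Submodule 𝕜 E, IsClosed (G : Set E) ∧
        Nonempty (G ≃L[𝕜] lp (fun _ : ℕ => 𝕜) ∞)) ∧
    (∀ (X : Type) [NormedAddCommGroup X] [NormedSpace 𝕜 X] [CompleteSpace X],
      (∃ g : ℕ → (X →L[𝕜] 𝕜), ∀ v, (∀ n, g n v = 0) → v = 0) →
      ∃ (Z : Type) (_ : NormedAddCommGroup Z) (_ : NormedSpace 𝕜 Z) (_ : CompleteSpace Z),
        ∃ (I : Type) (x : I → X × Z), IsExtendedMBasis 𝕜 x) := by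
  constructor
  · let X : Type := lp (fun _ : ℕ => 𝕜) ∞
    let g : ℕ → (X →L[𝕜] 𝕜) := fun n => lp.evalCLM 𝕜 (fun _ : ℕ => 𝕜) ∞ n
    have hg : ∀ v : X, (∀ n, g n v = 0) → v = 0 := by
      intro v hv
      ext n
      exact hv n
    refine ⟨X × Z 𝕜 X, inferInstance, inferInstance, inferInstance,
      ⟨Idx g, bx g, isExtendedMBasis g hg⟩,
      LinearMap.ker (ContinuousLinearMap.snd 𝕜 X (Z 𝕜 X)).toLinearMap,
      ContinuousLinearMap.isClosed_ker _, ⟨?_⟩⟩
    exact
      { toFun := fun v => v.1.1
        map_add' := fun _ _ => rfl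
        map_smul' := fun _ _ => rfl
        invFun := fun x => ⟨(x, 0), rfl⟩
        left_inv := fun v => Subtype.ext (Prod.ext rfl (Eq.symm v.2))
        right_inv := fun _ => rfl
        continuous_toFun := continuous_fst.comp continuous_subtype_val
        continuous_invFun := Continuous.subtype_mk (continuous_id.prodMk continuous_const) _ }
  · intro X _ _ _ ⟨g, hg⟩
    exact ⟨Z 𝕜 X, inferInstance, inferInstance, inferInstance, Idx g, bx g,
      isExtendedMBasis g hg⟩

end Pool.Agent.Results.MP_810de6_an.ContainsEllInfinity
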