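import Pool.Agent.Q36.GV.Uw

/-!
# Nonvanishing for varieties dominated by products of arbitrary varieties

Let `W 1, ..., W s` be arbitrary projective manifolds, each of which is uniruled, or such that the
canonical forms of `W i` separate `m i ≥ 1` points in an open set: `m i` different general points impose
independent conditions on `H⁰(W i, K)`. (For `m i = 1` this is `p_g(W i) > 0`; a curve of gonality
greater than `m i` has this property; for a smooth hypersurface of degree `D` in `P^(N+1)` one may take
`m i = D - N - 1`.) Let `W 1 × ... × W s ⇢ X` be any dominant rational map of finite degree to a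
projective manifold `X`; it need not be a quotient by a group. For a general point `x` of `X` let `r_i`
be the number of different `i`-th coordinates of the points over `x`, and for a set `Q` of indices
let `r(Q)` be the number of the points over `x` which have the same `j`-th coordinates as a given one of
them for all `j` outside `Q`. Assume that

* `r_i ≤ m i` for all `i` in some set `B` (which may be empty), and
* `r(Q) - 1 ≤ ∑ j ∈ Q, (m j - 1)` for all `Q` disjoint from `B`.

For instance `B` empty, all `r_i` equal to the degree `r`, and `r ≤ 1 + ∑ (m j - 1)`. The theorem:
`K_X` is pseudo-effective if and only if `p_g(X) > 0`, if and only if `κ(X) ≥ 0`, if and only if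
`ν(X) ≥ 0`, if and only if `X` is not uniruled, if and only if none of the `W i` is uniruled.

Proof: exterior products of canonical forms `f i` of the `W i` are canonical forms of the product, and
their traces are canonical forms of `X`. If all these traces vanish, there is a linear relation between
the products of the values of the `f i` at the points of a general fibre. Hall's theorem on the
marriage problem yields a way of separating one of these points from all the other ones with at most
`m j - 1` conditions in the factor `j`, and the separation property gives forms `f j` which satisfy these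
conditions and do not vanish at the given point.
-/

set_option autoImplicit false
set_option linter.overlappingInstances false

open FF IntermediateField Pool.Agent.W619.PQ Pool.Agent.W619.TW

namespace Pool.Agent.Results.MP_813db1_ag.DominatedByArbitraryProducts

/-- Every nonconstant function on the curve with function field `F` has degree at least `γ`. -/
def GonalityGe (F : Type) [Field F] [Algebra ℂ F] (γ : ℕ) : Prop :=
  ∀ b : F, Transcendental ℂ b → γ ≤ Module.finrank ℂ⟮b⟯ F

/-- `p_g(X) > 0`: the projective manifolds with function field `K`, of dimension `n`, have a nonzero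
canonical form. -/
def GenusPos (K : Type) [Field K] [Algebra ℂ K] (n : ℕ) : Prop :=
  ∃ ω : (Fin n → Derivation ℂ K K) → K, IsPluriForm ℂ K n 1 ω ∧
    (∀ v : Place ℂ K, IsDivisorial v n → RegularAt v n ω) ∧ ∃ D, ω D ≠ 0

/-- The coefficients of the canonical forms of the projective manifold of dimension `d` with function
field `K`, with respect to the rational vector fields `E`. -/
def canonicalForms {K : Type} [Field K] [Algebra ℂ K] (d : ℕ) (E : Fin d → Derivation ℂ K K) :
    Set K :=
  {f | ∃ η : (Fin d → Derivation ℂ K K) → K, IsPluriForm ℂ K d 1 η ∧
    (∀ u : Place ℂ K, IsDivisorial u d → RegularAt u d η) ∧ η E = f}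

/-- The canonical forms of the manifold with function field `K` separate `m` points in an open set:
the values of the canonical forms at at most `m` different generic points `φ i`, with coordinates in a
field `Ω`, are linearly independent. (For the coefficients with respect to a frame `E`; this does not
depend on the choice of the frame.) -/
def SeparatesPoints (K : Type) [Field K] [Algebra ℂ K] (d m : ℕ) : Prop :=
  ∀ (y : Fin d → K) (E : Fin d → Derivation ℂ K K), IsTranscendenceBasis ℂ y →
    (∀ i j, E i (y j) = if i = j then 1 else 0) →
    ∀ (Ω : Type) [Field Ω] [Algebra ℂ Ω] (ι : Type) [Fintype ι] (φ : ι → (K →ₐ[ℂ] Ω))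
      (c : ι → Ω), Function.Injective φ → Fintype.card ι ≤ m →
      (∀ f ∈ canonicalForms d E, ∑ i, c i * φ i f = 0) → ∀ i, c i = 0

section

variable (L : Type) {M : Type} [Field L] [Field M] [Algebra ℂ L] [Algebra ℂ M] [Algebra L M]

/-- The number of different coordinates in the factor with function field `F` on a general fibre of
`Z ⇢ X`: the degree over `X` of the image of `Z` in the product of `X` and the factor. -/
noncomputable def coordinates (F : IntermediateField ℂ M) : ℕ :=
  Module.finrank L (IntermediateField.adjoin L (F : Set M))

/-- The number of the points of a general fibre of `Z ⇢ X` with the same coordinates outside `Q` as a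
given one: the degree of `Z` over its image in the product of `X` and the factors `j ∉ Q`. -/
noncomputable def agreeing {n : ℕ} (F : Fin n → IntermediateField ℂ M) (Q : Finset (Fin n)) : ℕ :=
  Module.finrank (IntermediateField.adjoin L {z : M | ∃ j, j ∉ Q ∧ z ∈ F j}) M

end

/-- **Nonvanishing for varieties dominated by products of arbitrary varieties.** Let `W i`, `i < s`, be
the function fields of projective manifolds of dimensions `d i`, each of which is uniruled, or has
canonical forms which separate `m i` points, or is a curve of gonality greater than `m i`. Let `M` be the
function field of the product, of dimension `∑ d i`, and `L` the function field of a projective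
manifold `X` with a dominant rational map of finite degree from the product to `X`. Let `B` be a set
of indices such that the number of the `i`-th coordinates on a general fibre is at most `m i` for
`i ∈ B`, and assume that for every set `Q` of indices disjoint from `B` the number `r(Q)` of the points
of a general fibre with the same coordinates outside `Q` as a given one is at most
`1 + ∑ j ∈ Q, (m j - 1)`. Then the following are equivalent: `p_g(X) = 0`; `κ(X) = -∞`; `K_X` is not
pseudo-effective; the numerical dimension of `K_X` is `-∞`; `X` is uniruled; some `W i` is uniruled. -/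
theorem result {L M : Type} [Field L] [Field M] [Algebra ℂ L] [Algebra ℂ M] [Algebra L M]
    [IsScalarTower ℂ L M] [FiniteDimensional L M] (s : ℕ) (d : Fin s → ℕ)
    (hM : Algebra.trdeg ℂ M = (∑ i, d i : ℕ)) (W : Fin s → IntermediateField ℂ M)
    (hess : ∀ i, Algebra.EssFiniteType ℂ (W i)) (hd : ∀ i, Algebra.trdeg ℂ (W i) = d i)
    (hsup : ⨆ i, W i = ⊤) (m : Fin s → ℕ) (hm : ∀ i, 1 ≤ m i)
    (hW : ∀ i, IsUniruled ℂ (W i) (d i) ∨ SeparatesPoints (W i) (d i) (m i) ∨
      (IsFF ℂ (W i) ∧ GonalityGe (W i) (m i + 1)))
    (B : Finset (Fin s)) (hB : ∀ i ∈ B, coordinates L (W i) ≤ m i)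
    (hQ : ∀ Q : Finset (Fin s), Disjoint Q B → agreeing L W Q ≤ 1 + ∑ j ∈ Q, (m j - 1)) :
    List.TFAE [¬ GenusPos L (∑ i, d i), KodairaNeg ℂ L (∑ i, d i),
      ¬ IsPsef ℂ L (∑ i, d i) (fun _ => False), NumNeg ℂ L (∑ i, d i) (fun _ => False),
      IsUniruled ℂ L (∑ i, d i), ∃ i, IsUniruled ℂ (W i) (d i)] := by
  have hessM : Algebra.EssFiniteType ℂ M := Q36.GV.ess_supW W hsup
  have hessL : Algebra.EssFiniteType ℂ L := Q36.SD.ess_below (K := M)
  refine Q36.GV.tfaeV W hd hM hsup fun hU => ?_
  refine Q36.GV.genusV W hM (Q36.GV.alg_of_sup' W hsup) hd hm (fun i => ?_) B hB hQ
  rcases (hW i).resolve_left (hU i) with h | ⟨h1, h2⟩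
  · exact h
  · have h3 : d i = 1 := by
      have h4 := IsFF.trdeg (k := ℂ) (K := W i)
      rw [hd i] at h4
      exact_mod_cast h4
    have h5 : Q36.GV.CanSepJ ℂ (W i) 1 (m i) := Q36.GV.sep_curve fun b hb => h2 b hb
    rw [h3]
    exact h5.canSep

end Pool.Agent.Results.MP_813db1_ag.DominatedByArbitraryProducts
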