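import Pool.Agent.Q54.CC.Row
import Pool.Agent.Q54.CU.Smo

/-!
# The Tate conjecture for higher Chow groups and smooth affine cubic hypersurfaces

Let `q_0, …, q_r` be polynomials of degree at most two in `M` variables over the field `k`. The
cubic hypersurface `E : ∑ λ_j q_j(x) = 1` in the affine space of dimension `M + r + 1`
(`hypO q 1`) is smooth over `k`, of dimension `M + r`. We show that the cycle class maps
`c^{i,j} : CH^j(X, 2 j - i) → H^i(X, K(j))^G` are surjective for all smooth varieties `X` over `k`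
and all `i` and `j` if and only if they are surjective for these hypersurfaces `E` and all
`j < i < 2 j`; that it is enough to know this for `2 j - i = s` with `s` in an infinite set; and
that then the cycle class maps are surjective for all quasi-projective varieties, singular ones
included (in Borel-Moore homology).

With `n = d - j` and `s = 2 j - i` the group `CH^j(X, 2 j - i)` of a variety `X` of dimension `d` is
`CH_n(X, s)`, and, for smooth `X`, the group `H^i(X, K(j))` is `H_(2 n + s)(X, K(n))`. The condition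
`i > j` means `s < j`.
-/

namespace Pool.Agent.Results.MP_81b968_ag.CubicsAboveTheDiagonal

universe u v w x

open Q54.CU Q54.CC CategoryTheory Limits AlgebraicGeometry

variable {k : Type u} [Field k] {𝓜 : Type w} [Category.{v} 𝓜] [Abelian 𝓜] {I : 𝓜}

/-- The cycle class map `CH_n(X, s) → Hom(I, H_(2 n + s)(X, K(n)))` is surjective. -/
def Onto (D : CycData.{u, v, w, x} k 𝓜 I) (n s : ℤ) (X : SchO k) : Prop :=
  Function.Surjective (D.c n s X)

/-- The cycle class maps are surjective for all smooth varieties and all degrees. -/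
def TateSmooth (D : CycData.{u, v, w, x} k 𝓜 I) : Prop :=
  ∀ X : SchO k, IsVar X → Smooth X.hom → ∀ n s : ℤ, Onto D n s X

/-- The cycle class maps are surjective for all varieties over which there is an affine bundle with
affine total space, singular ones included, and all degrees. -/
def TateTorsor (D : CycData.{u, v, w, x} k 𝓜 I) : Prop :=
  ∀ X : SchO k, IsVar X → HasAffineTorsor X → ∀ n s : ℤ, Onto D n s X

/-- The maps `c^{i,j}` with `2 j - i = s` and `i > j` are surjective for all hypersurfaces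
`E : ∑ λ_j q_j(x) = 1`; the dimension of `E` is `M + r`. -/
def TateCubicsRow (D : CycData.{u, v, w, x} k 𝓜 I) (s : ℤ) : Prop :=
  ∀ (M r : ℕ) (q : Fin (r + 1) → MvPolynomial (Fin M) k), (∀ j, (q j).totalDegree ≤ 2) →
    ∀ j : ℤ, s < j → Onto D (M + r - j) s (hypO q 1)

/-- The maps `c^{i,j}` with `j < i < 2 j` are surjective for all hypersurfaces
`E : ∑ λ_j q_j(x) = 1`. -/
def TateCubics (D : CycData.{u, v, w, x} k 𝓜 I) : Prop :=
  ∀ s : ℤ, 0 < s → TateCubicsRow D s

/-- The maps `c^{i,j}` with `2 j - i = s` and `i > j` are surjective for all hypersurfaces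
`E : ∑ λ_j q_j(x) = 1`, for infinitely many `s`. -/
def TateCubicsInfinitely (D : CycData.{u, v, w, x} k 𝓜 I) : Prop :=
  ∀ s₀ : ℤ, ∃ s : ℤ, s₀ < s ∧ TateCubicsRow D s

/-- **The Tate conjecture for higher Chow groups and smooth affine cubic hypersurfaces.** -/
theorem result (D : CycData.{u, v, w, x} k 𝓜 I) (hD : IsCycTheory D)
    (hT : ∀ X : SchO k, IsVar X → Smooth X.hom → HasAffineTorsor X) :
    List.TFAE [TateSmooth D, TateTorsor D, TateCubics D, TateCubicsInfinitely D] ∧
    (∀ s : ℤ, 0 ≤ s → (TateCubicsRow D (s + 1) ↔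
      ∀ X : SchO k, IsVar X → HasAffineTorsor X → ∀ n : ℤ, Onto D n s X)) ∧
    (∀ X : SchO k, IsVar X → IsAffine X.left → ∀ N : ℕ,
      ∃ (M r : ℕ) (q : Fin (r + 1) → MvPolynomial (Fin M) k), (∀ j, (q j).totalDegree ≤ 2) ∧
        ∀ n s : ℤ, 0 ≤ s → n + s ≤ N → HasIso D (n + r) (s + 1) (hypO q 1) n s X) ∧
    ∀ (M r : ℕ) (q : Fin (r + 1) → MvPolynomial (Fin M) k), (∀ j, (q j).totalDegree ≤ 2) →
      IsVar (hypO q 1) ∧ Smooth (hypO q 1).hom ∧ IsAffine (hypO q 1).left ∧
        (hypPoly q 1).totalDegree ≤ 3 := by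
  have hQ : ∀ n s X n' s' Y, HasIso D n s X n' s' Y → (Onto D n s X ↔ Onto D n' s' Y) := by
    rintro n s X n' s' Y ⟨a, e, h⟩
    have h : ∀ x, D.c n' s' Y (a x) = D.c n s X x ≫ e.hom := h
    constructor
    · intro h1 y
      obtain ⟨x, hx⟩ := h1 (y ≫ e.inv)
      refine ⟨a x, ?_⟩
      rw [h, hx, Category.assoc, e.inv_hom_id, Category.comp_id]
    · intro h1 x
      obtain ⟨y, hy⟩ := h1 (x ≫ e.hom)
      obtain ⟨z, rfl⟩ := a.surjective y
      refine ⟨z, ?_⟩
      rw [h] at hy
      exact (cancel_mono e.hom).1 hy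
  have hneg : ∀ X : SchO k, IsVar X → ∀ n s : ℤ, s < 0 → Onto D n s X := fun X hX n s hs f =>
    ⟨0, (hD.weights n s X hX hs _).trans (hD.weights n s X hX hs f).symm⟩
  have hrows := rows_tfae hD hQ
  have h01 := hrows.out 1 2
  have h20 := hrows.out 2 0
  refine ⟨?_, ?_, ?_, ?_⟩
  · tfae_have 1 → 3 := fun h s _ M r q _ j _ => h _ (isVar_hypO q 1) (smooth_hyp q) _ _
    tfae_have 3 → 4 := fun h s₀ => h01.1 h s₀
    tfae_have 4 → 2 := by
      intro h X hX hXT n s
      rcases lt_or_ge s 0 with hs | hs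
      · exact hneg X hX n s hs
      · exact h20.1 h s hs X hX hXT n
    tfae_have 2 → 1 := fun h X hX hs n s => h X hX (hT X hX hs) n s
    tfae_finish
  · intro s hs
    exact cubRow_iff hD hQ hs
  · intro X hX ha N
    obtain ⟨M, r, q, i, hM, hq, hd⟩ := exists_decomp X hX.ft ha (N + 2)
    exact ⟨M, r, q, hq, fun n s hs hn =>
      smooth_iso hD q i hd (by omega) (by omega) (by omega)⟩
  · intro M r q hq
    exact ⟨isVar_hypO q 1, smooth_hyp q, (inferInstance : IsAffine (HypSch q (1 : k))),
      totalDegree_hypPoly q 1 hq⟩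

end Pool.Agent.Results.MP_81b968_ag.CubicsAboveTheDiagonal
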