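import Pool.Agent.Q269.AV.A6

/-!
# The average rank of the quadratic twists of an elliptic curve over `k(t)` with given root number, and
# the moments of the order of the 2-torsion of the Tate-Shafarevich group

Let `k` be a finite field of characteristic different from 2 in which `-1` is a square, `K = k(t)`, and
let `a 1, a 2, a 3` be polynomials over `k` whose differences have the same degree `N ≥ 1` and a
squarefree product `Δ`. For a monic squarefree polynomial `D` prime to `Δ` let `E_D` be the elliptic curve

`y ^ 2 = D(t) (x - a 1) (x - a 2) (x - a 3)`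

over `K`, the quadratic twist by `D` of `E_1` (the `j`-invariant is not constant). The field `k` is fixed
and the degree `m` of `D` tends to infinity, `m + N` odd. The bad places are the primes `Q` of `k[t]` which
divide `Δ`. At a bad place `Q`, which divides `a i - a j`, say, `E_D` has multiplicative reduction, split if
`D (a i - a l)` is a square modulo `Q` (`l` the third index), and non-split otherwise. Let `T(D)` be the
set of the bad places at which `E_D` has split multiplicative reduction. The root number of `E_D` is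
`(-1) ^ |T(D)|` (see MP_81dc49_nt, RootNumberLaw).

Let `Sha'` be the group of the classes in `H ^ 1 (K, E_D)` which are trivial over the completions of `K`
at all the places different from infinity; it contains the Tate-Shafarevich group `Sha`. Let

`S(D) = |E_D(K) / (E_D(K)[2] + 2 E_D(K))| |Sha'[2]|`.

The first factor is at least `2 ^ rank E_D(K)`, and the second one is at least `|Sha[2]| ≥ 2 ^ c`, `c` the
corank of the 2-primary part of `Sha`, so `log₂ S(D) ≥ rank E_D(K) + c`.

Let `p(e) = (β / 2) 2 ^ e / ((2 - 1) (2 ^ 2 - 1) ⋯ (2 ^ e - 1))`, `β = ∏_{i ≥ 0} (1 - 2 ^ (- 2 i - 1))`.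
The sum of the `2 p(e)` with `e` even is 1 and so is the sum of the `2 p(e)` with `e` odd. Let `ρ₊`
(`ρ₋`) be the sum of the `2 e p(e)` with `e` even (odd). Then `ρ₊ ≤ 1.204` and `ρ₋ ≤ 1.3251`.

Theorem. The numbers `S(D)` are finite. Let `T` be a set of bad places. Then for the twists `E_D` with
`T(D) = T` (up to `ε` the proportion `2 ^ (- number of bad places)` of all the twists)

(1) for each `j` the mean of `S(D) ^ j` is at most `(1 + 2) (1 + 2 ^ 2) ⋯ (1 + 2 ^ j) + ε`;
(2) the mean of `log₂ S(D)` is at most `ρ₊ + ε` if the root number `(-1) ^ |T|` is 1, and at most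
`ρ₋ + ε` if the root number is -1.

So over `k(t)`, `k` fixed, the average of the rank, and even of the sum of the rank and of the corank of
the 2-primary part of the Tate-Shafarevich group, is at most 1.204 over all the twists with root number 1
and at most 1.3251 over all the twists with root number -1 (the 50/50 conjecture: 0 and 1), so at most
1.265 over all the twists (conjecture: 1/2); the average order of `Sha[2]` is at most 3, the average of
its square at most 15, and so on, for each type of the reduction at the bad places. These averages are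
not consequences of the law of the bounds in MP_81dc49_nt, RootNumberLaw, since the law does not exclude
that a set of twists of density zero carries all the mass of the averages.

The proof: `S(D)` is at most the order `z(D)` of the kernel of an explicit symmetric matrix over the
field with two elements whose entries are quadratic residue symbols of the prime factors of `D` and of
`Δ`. The moments of `z(D)` are computed in each class of twists modulo `Δ`, for the polynomials `D` which
have many prime factors of large degree, and the other `D` are so rare that they do not matter even with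
the weight `w ^ ω(D)`, for every `w` (`ω` the number of the prime factors). The mean of the logarithm
follows from the law of `z(D)` in the class, whose parity is given by the root number, and from the
bound for the second moment.
-/

set_option autoImplicit false
set_option linter.all false

namespace Pool.Agent.Results.MP_81dc49_nt.AverageRank

open Polynomial Filter Pool.Agent.Y713.Jac IsDedekindDomain
open scoped Classical

/-- The product of the differences `a i - a j`, `i < j`. -/
noncomputable def differences {k : Type} [Field k] {n : ℕ} (a : Fin n → k[X]) : k[X] :=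
  ∏ x ∈ (Finset.univ : Finset (Fin n × Fin n)).filter (fun x => x.1 < x.2), (a x.1 - a x.2)

/-- The monic squarefree polynomials `D` of degree `m` prime to the differences `a i - a j`. -/
def Twists {k : Type} [Field k] (a : Fin 3 → k[X]) (m : ℕ) : Set k[X] :=
  {D | D.Monic ∧ D.natDegree = m ∧ Squarefree D ∧ ∀ i j, i ≠ j → IsCoprime D (a i - a j)}

/-- The polynomial `D(t) (x - a 1) (x - a 2) (x - a 3)` in `x` over `K = k(t)`. -/
noncomputable def twist {k : Type} [Field k] (K : Type) [Field K] [Algebra k[X] K]
    (a : Fin 3 → k[X]) (D : k[X]) : K[X] :=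
  C (algebraMap k[X] K D) * ∏ i, (X - C (algebraMap k[X] K (a i)))

/-- The bad places: the monic irreducible divisors of the product of the differences. -/
def badPlaces {k : Type} [Field k] (a : Fin 3 → k[X]) : Set k[X] :=
  {Q | Q.Monic ∧ Irreducible Q ∧ Q ∣ differences a}

/-- `E_D` has split multiplicative reduction at the bad place `Q`: if `Q` divides `a i - a j` and `l`
is the third index then `D (a i - a l)` is a square modulo `Q`. -/
def SplitAt {k : Type} [Field k] (a : Fin 3 → k[X]) (D Q : k[X]) : Prop :=
  ∃ i j l : Fin 3, i ≠ j ∧ l ≠ i ∧ l ≠ j ∧ Q ∣ a i - a j ∧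
    ∃ h : k[X], Q ∣ h ^ 2 - D * (a i - a l)

/-- The set `T(D)` of the bad places at which `E_D` has split multiplicative reduction. -/
def splitPlaces {k : Type} [Field k] (a : Fin 3 → k[X]) (D : k[X]) : Set k[X] :=
  {Q ∈ badPlaces a | SplitAt a D Q}

/-- For the elliptic curve `E : y ^ 2 = F(x)` over `K = Frac R`, the number of the elements of
`E(K) / (E(K)[2] + 2 E(K))` times the number of the classes in `H ^ 1 (K, E)` killed by 2 which are
trivial over the completions of `K` at the primes of `R` is at most `M`: if `x 1, …, x A` are points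
different modulo `E(K)[2] + 2 E(K)` and `c 1, …, c B` are cocycles, locally trivial, killed by 2 in
`H ^ 1` and pairwise not cohomologous, then `A * B ≤ M`. The group `E(L)` is the Picard group of the
affine curve, `J 2 F L` in the library. -/
def BoundsPointsAndSha {K : Type} [Field K] (F : K[X]) (R : Type) [CommRing R]
    [IsDedekindDomain R] [Algebra R K] [IsFractionRing R K] (M : ℕ) : Prop :=
  ∀ (A B : ℕ) (x : Fin A → J 2 F K) (c : Fin B → Cochain 2 F),
    (∀ i j, i ≠ j → ¬ ∃ T y : J 2 F K, T ^ 2 = 1 ∧ x i = x j * T * y ^ 2) →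
    (∀ j, IsCocycle 2 F (c j)) → (∀ j, IsLocallyTrivial 2 F R (c j)) →
    (∀ j, IsCoboundary 2 F (fun σ => c j σ ^ 2)) →
    (∀ i j, i ≠ j → ¬ IsCoboundary 2 F (fun σ => c i σ / c j σ)) → A * B ≤ M

/-- The number `S`: the product of the orders of the groups `E(K) / (E(K)[2] + 2 E(K))` and
`Sha'[2]`, the smallest number which satisfies `BoundsPointsAndSha`. -/
noncomputable def order {K : Type} [Field K] (F : K[X]) (R : Type) [CommRing R]
    [IsDedekindDomain R] [Algebra R K] [IsFractionRing R K] : ℕ :=
  sInf {M : ℕ | BoundsPointsAndSha F R M}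

/-- The mean of `f` over the set `S`. -/
noncomputable def mean {α : Type} (S : Set α) (f : α → ℝ) : ℝ := (∑ᶠ D ∈ S, f D) / (S.ncard : ℝ)

/-- The infinite product of the numbers `1 - 2 ^ (- 2 i - 1)`, `i ≥ 0`. -/
noncomputable def beta : ℝ := ∏' i : ℕ, (1 - (1 / 2 : ℝ) ^ (2 * i + 1))

/-- The number `p(e)`. -/
noncomputable def law (e : ℕ) : ℝ :=
  beta / 2 * (2 ^ e / ∏ i ∈ Finset.range e, ((2 : ℝ) ^ (i + 1) - 1))

/-- The law for the twists with `s` places of split multiplicative reduction at the bad places:
`2 p(e)` if `e` and `s` have the same parity. -/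
noncomputable def signedLaw (s e : ℕ) : ℝ := if Even (e + s) then 2 * law e else 0

/-- The mean value of the law `signedLaw s`: `ρ₊` for even `s`, `ρ₋` for odd `s`. -/
noncomputable def rho (s : ℕ) : ℝ := ∑' e : ℕ, (e : ℝ) * signedLaw s e

theorem law_eq : law = Pool.Agent.Q269.SL.law2 := by
  funext e
  rw [Pool.Agent.Q269.SL.law2_eq]
  rfl

theorem signedLaw_eq (s : ℕ) : signedLaw s = Pool.Agent.Q269.SL.lawc (s : ZMod 2) := by
  rw [← Pool.Agent.Q269.AV.hasSum_rho_par, ← law_eq]
  rfl

theorem rho_eq (s : ℕ) : rho s = Pool.Agent.Q269.AV.rhoc (s : ZMod 2) := by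
  rw [rho, signedLaw_eq]
  rfl

theorem mean_le {α : Type} {S : Set α} {f : α → ℝ} {c : ℝ} (hc : 0 ≤ c)
    (h : ∑ᶠ D ∈ S, f D ≤ c * (S.ncard : ℝ)) : mean S f ≤ c :=
  div_le_of_le_mul₀ (Nat.cast_nonneg _) hc h

theorem result (k : Type) [Field k] [Finite k] (h2 : (2 : k) ≠ 0) (hi : IsSquare (-1 : k))
    (K : Type) [Field K] [Algebra k[X] K] [IsFractionRing k[X] K]
    (N : ℕ) (hN : 1 ≤ N) (a : Fin 3 → k[X])
    (ha : ∀ i j, i ≠ j → (a i - a j).natDegree = N) (hs : Squarefree (differences a)) :
    (∀ s : ℕ, HasSum (signedLaw s) 1 ∧ Summable (fun e : ℕ => (e : ℝ) * signedLaw s e) ∧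
      (Even s → rho s ≤ 1.204) ∧ (Odd s → rho s ≤ 1.3251)) ∧
    (badPlaces a).Finite ∧
    (∃ c : ℝ, 0 < c ∧ ∀ᶠ m : ℕ in atTop,
      c * (Nat.card k : ℝ) ^ m ≤ ((Twists a m).ncard : ℝ)) ∧
    (∀ m : ℕ, Odd (m + N) → ∀ D ∈ Twists a m,
      BoundsPointsAndSha (twist K a D) k[X] (order (twist K a D) k[X])) ∧
    ∀ T : Set k[X], T ⊆ badPlaces a →
    (∀ ε : ℝ, 0 < ε → ∀ᶠ m : ℕ in atTop, Odd (m + N) →
      |(2 : ℝ) ^ (badPlaces a).ncard * (({D ∈ Twists a m | splitPlaces a D = T}).ncard : ℝ) -
        ((Twists a m).ncard : ℝ)| ≤ ε * ((Twists a m).ncard : ℝ)) ∧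
    (∀ j : ℕ, ∀ ε : ℝ, 0 < ε → ∀ᶠ m : ℕ in atTop, Odd (m + N) →
      mean {D ∈ Twists a m | splitPlaces a D = T} (fun D => (order (twist K a D) k[X] : ℝ) ^ j) ≤
        ∏ i ∈ Finset.range j, (1 + (2 : ℝ) ^ (i + 1)) + ε) ∧
    (∀ ε : ℝ, 0 < ε → ∀ᶠ m : ℕ in atTop, Odd (m + N) →
      mean {D ∈ Twists a m | splitPlaces a D = T}
        (fun D => Real.logb 2 (order (twist K a D) k[X])) ≤ rho T.ncard + ε) := by
  obtain ⟨g1, g2, g3⟩ := Pool.Agent.Q269.SL.split_final h2 hi K N hN a ha hs
  obtain ⟨f1, f2⟩ := Pool.Agent.Q269.AV.split_mom h2 hi K N hN a ha hs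
  refine ⟨?_, g1, g2, f1, ?_⟩
  · intro s
    refine ⟨?_, ?_, ?_, ?_⟩
    · rw [signedLaw_eq]
      exact Pool.Agent.Q269.SL.hasSum_lawc _
    · rw [signedLaw_eq]
      exact Pool.Agent.Q269.AV.summable_ec _
    · intro h
      rw [rho_eq, (ZMod.natCast_eq_zero_iff_even).2 h]
      refine Pool.Agent.Q269.AV.rhoc_zero.trans (le_of_eq ?_)
      norm_num
    · intro h
      rw [rho_eq, (ZMod.natCast_eq_one_iff_odd).2 h]
      refine Pool.Agent.Q269.AV.rhoc_one.trans (le_of_eq ?_)
      norm_num
  · intro T hT
    obtain ⟨e1, e2⟩ := f2 T hT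
    refine ⟨(g3 T hT).1, ?_, ?_⟩
    · intro j ε hε
      filter_upwards [e1 j ε hε] with m hm ho
      apply mean_le _ (hm ho)
      have : 0 ≤ ∏ i ∈ Finset.range j, (1 + (2 : ℝ) ^ (i + 1)) :=
        Finset.prod_nonneg fun i _ => by positivity
      linarith
    · intro ε hε
      filter_upwards [e2 ε hε] with m hm ho
      rw [rho_eq]
      apply mean_le _ (hm ho)
      have := Pool.Agent.Q269.AV.rhoc_nonneg ((T.ncard : ℕ) : ZMod 2)
      linarith

end Pool.Agent.Results.MP_81dc49_nt.AverageRank
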