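import Pool.Agent.Q7.CE.All2
import Pool.Agent.Q7.LK.Uni

/-!
# The average rank of cubic twists over every number field containing the third roots of unity

Let `F` be any number field which contains a primitive third root of unity. The curves `E_D : y² + D y = x³`, `D ∈ F^*`, are the
cubic twists over `F` of `y² + y = x³`. Prescribe `D` up to cubes in the completions at all places above the prime numbers
`≤ y` (it is equal to `D₀` there), and the orders `z_i ≠ 0` modulo `3` of `D` at `k` further primes `q_0, …, q_(k-1)`, of norms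
`≤ X_0, …, X_(k-1)` (the order is divisible by `3` at all other primes), for large `k`, `X_0`, then `X_1` large in terms of
`X_0`, and so on.

Theorem. In each of these families the mean of `√(3^(rank E_D(F)) · #Ш(E_D / F)[3])` is at most `2 + ε`, and the average rank is
at most `1 + ε`.

Since the number is at least `1`, the share of the twists with `3^rank · #Ш[3] ≥ 9^t` is at most `(1 + ε) / (3^t - 1)`, for
every `t`.

Proof. Let `V` be the group of the locally trivial classes with values in the kernel of `√-3`, modulo those of the points of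
order `3`. Then `3^rank · #Ш[3] ≤ (#V)²`. The elements of `V` belong to classes `a ∈ F^*` modulo cubes and powers of `D` such that
the diagonal cubic `w³ = a² u³ + a D s³` has points over all completions, and the mean of the number of the nontrivial ones
is at most `3^(∑ [F_v : ℚ_3]/2 - r) ≤ 1` (isotropy of the local images at the places above `3` for the cubic Hilbert symbol, cubic
reciprocity over `F`, Chebotarev's theorem, first moment; see `HalfOfTheCubicTwists` of MP_78d38b_nt).

The parts were proved together with helpers 14, 22, 38, 65, 123, 129, 150, 153, 162, 190, 193, 224, 241, 251, 262, 265, 277 and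
285; helper283 had the same idea of the mean.
-/

set_option autoImplicit false

namespace Pool.Agent.Results.MP_81dc49_nt.CubicTwistsOverNumberFields

open NumberField IsDedekindDomain Filter Topology WeierstrassCurve
open Pool.Agent.TH841.NF.D (Sha)
open Pool.Agent.TH841.SH.D (Pt)

/-- The curve `E_D : y² + D y = x³`. -/
def curve {F : Type} [Field F] (D : F) : WeierstrassCurve F := ⟨0, 0, D, 0, 0⟩

section Ensemble

variable {F : Type} [Field F] [NumberField F]

/-- The rank of the group `E_D(F)` over `ℤ`. -/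
noncomputable def rank (D : F) : ℕ := Module.finrank ℤ (Pt (curve D) F)

/-- The elements of `Ш(E_D / F)` which are killed by `3`. -/
def ShaThree (D : F) : Type := {x : Sha (curve D) // (3 : ℕ) • x = 0}

/-- The order of `a` at `v` modulo `3`. -/
noncomputable def orderMod (v : HeightOneSpectrum (𝓞 F)) (a : F) : ZMod 3 :=
  -((WithZero.log (v.valuation F a) : ℤ) : ZMod 3)

/-- `a` is the cube of a nonzero element of the completion of `F` at `v`. -/
def CubeAt (v : HeightOneSpectrum (𝓞 F)) (a : F) : Prop :=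
  a ≠ 0 ∧ ∃ s : v.adicCompletion F, (a : v.adicCompletion F) = s ^ 3

/-- `v` lies above a prime number `l ≤ y`. -/
def Small (y : ℕ) (v : HeightOneSpectrum (𝓞 F)) : Prop :=
  ∃ l : ℕ, l.Prime ∧ l ≤ y ∧ (l : 𝓞 F) ∈ v.asIdeal

open Classical in
/-- Among the primes not above prime numbers `≤ y` the order of `D` modulo `3` is `z i` at the prime `q i` and `0` at the
others; and at the primes above prime numbers `≤ y` the number `D` is equal to `D₀` up to local cubes. -/
structure Fits (y : ℕ) (D₀ : F) {k : ℕ} (z : Fin k → ZMod 3) (q : Fin k → HeightOneSpectrum (𝓞 F)) (D : F) :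
    Prop where
  ne : D ≠ 0
  ram : ∀ v : HeightOneSpectrum (𝓞 F), ¬ Small y v → orderMod v D = ∑ i, if q i = v then z i else 0
  loc : ∀ v : HeightOneSpectrum (𝓞 F), Small y v → CubeAt v (D / D₀)

/-- The ensemble: the tuples of `k` different primes `q i`, not above prime numbers `≤ y`, of norm `≤ X i`, to which a
`D` belongs. -/
def Ensemble (y : ℕ) (D₀ : F) {k : ℕ} (z : Fin k → ZMod 3) (X : Fin k → ℕ) : Set (Fin k → HeightOneSpectrum (𝓞 F)) :=
  {q | (Function.Injective q ∧ ∀ i, ¬ Small y (q i) ∧ Ideal.absNorm (q i).asIdeal ≤ X i) ∧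
    ∃ D, Fits y D₀ z q D}

end Ensemble

/-- `P X` is true for all large `X 0`, for all `X 1` which are large in terms of `X 0`, …, for all `X (k-1)` which are
large in terms of the others. -/
def Nested : (k : ℕ) → ((Fin k → ℕ) → Prop) → Prop
  | 0, P => P Fin.elim0
  | k + 1, P => Nested k fun X => ∀ᶠ x : ℕ in atTop, P (Fin.snoc (α := fun _ => ℕ) X x)

/-- The mean of `f` over the finite set `T`. -/
noncomputable def mean {α : Type} (T : Finset α) (f : α → ℝ) : ℝ := (∑ q ∈ T, f q) / T.card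

section Proof

theorem nested_iff : ∀ (k : ℕ) (P : (Fin k → ℕ) → Prop), Nested k P ↔ Q283.LQ.Nest k P
  | 0, _ => Iff.rfl
  | k + 1, _ => nested_iff k _

variable {F : Type} [Field F] [NumberField F]

theorem fits_iff {y : ℕ} {D₀ : F} {k : ℕ} {z : Fin k → ZMod 3}
    {q : Fin k → HeightOneSpectrum (𝓞 F)} {D : F} : Fits y D₀ z q D ↔ Q7.LK.Fits 3 y D₀ z q D := by
  constructor
  · intro h
    exact ⟨h.ne, h.ram, fun v hv => (Q7.LK.t_CPL 3 F v _).mpr (h.loc v hv)⟩
  · intro h
    exact ⟨h.ne, h.ram, fun v hv => (Q7.LK.t_CPL 3 F v _).mp (h.loc v hv)⟩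

end Proof

/-- **Main result.** -/
theorem result (F : Type) [Field F] [NumberField F] (ω : F) (hω : IsPrimitiveRoot ω 3) :
    ∃ y₀ : ℕ, ∀ y, y₀ ≤ y → ∀ D₀ : F, D₀ ≠ 0 →
      (∀ (k : ℕ) (z : Fin k → ZMod 3) (q : Fin k → HeightOneSpectrum (𝓞 F)) (D D' : F),
        Fits y D₀ z q D → Fits y D₀ z q D' → ∃ x : F, D = D' * x ^ 3) ∧
      ∀ ε : ℝ, 0 < ε → ∃ k₀ : ℕ, ∀ k, k₀ ≤ k → ∀ z : Fin k → ZMod 3, (∀ i, z i ≠ 0) → Nested k fun X =>
        (Ensemble y D₀ z X).Finite ∧ (Ensemble y D₀ z X).Nonempty ∧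
        ∀ (T : Finset (Fin k → HeightOneSpectrum (𝓞 F))) (D : (Fin k → HeightOneSpectrum (𝓞 F)) → F),
          (∀ q, q ∈ T ↔ q ∈ Ensemble y D₀ z X) → (∀ q ∈ T, Fits y D₀ z q (D q)) →
          (∀ q ∈ T, Finite (ShaThree (D q))) ∧
          mean T (fun q => √(3 ^ rank (D q) * Nat.card (ShaThree (D q)))) ≤ 2 + ε ∧
          mean T (fun q => (rank (D q) : ℝ)) ≤ 1 + ε := by
  obtain ⟨y1, hy1⟩ := Q7.CE.t_EMEAN F ω hω
  obtain ⟨y2, hy2⟩ := Q7.LK.uniq Q7.LK.t_BAS Q7.LK.t_BASE 3 (by norm_num) F ω hω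
  refine ⟨max y1 y2, fun y hy D₀ hD₀ => ⟨fun k z q D D' hD hD' => ?_, fun ε hε => ?_⟩⟩
  · obtain ⟨x, hx⟩ := hy2 y (le_trans (le_max_right _ _) hy) D₀ hD₀ k z q D D' (fits_iff.mp hD) (fits_iff.mp hD')
    refine ⟨x, ?_⟩
    rw [← hx, mul_div_cancel₀ _ hD'.ne]
  obtain ⟨k0, hk0⟩ := hy1 y (le_trans (le_max_left _ _) hy) D₀ hD₀ ε hε
  refine ⟨k0, fun k hk z hz => (nested_iff k _).mpr (Q7.LK.nest_mono k _ _ (fun X hX => ?_) (hk0 k hk z hz))⟩
  obtain ⟨hfin, hpos, hN⟩ := hX
  have hE : Ensemble y D₀ z X =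
      {q ∈ (Q283.LQ.Box y X : Set (Fin k → HeightOneSpectrum (𝓞 F))) | ∃ D, Q7.LK.Fits 3 y D₀ z q D} := by
    ext q
    simp only [Ensemble, Q283.LQ.Box, Set.mem_ofPred_eq, fits_iff]
    rfl
  have hEfin : (Ensemble y D₀ z X).Finite := by
    rw [hE]
    exact hfin.subset (fun q hq => hq.1)
  rw [← hE] at hpos
  have hne : (Ensemble y D₀ z X).Nonempty := by
    rw [← Set.ncard_pos hEfin]
    exact_mod_cast hpos
  refine ⟨hEfin, hne, fun T D hT hD => ?_⟩
  have hT' : ∀ q, q ∈ T ↔ q ∈ (Q283.LQ.Box y X : Set (Fin k → HeightOneSpectrum (𝓞 F))) ∧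
      ∃ D, Q7.LK.Fits 3 y D₀ z q D := by
    intro q
    rw [hT q, hE]
    rfl
  have hcard : 0 < (T.card : ℝ) := by
    obtain ⟨q, hq⟩ := hne
    exact_mod_cast Finset.card_pos.2 ⟨q, (hT q).2 hq⟩
  obtain ⟨h1, h2, h3⟩ := hN T D hT' (fun q hq => fits_iff.mp (hD q hq))
  refine ⟨h1, ?_, ?_⟩
  · unfold mean
    rw [div_le_iff₀ hcard]
    exact h2
  · unfold mean
    rw [div_le_iff₀ hcard]
    exact h3

end Pool.Agent.Results.MP_81dc49_nt.CubicTwistsOverNumberFields
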