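import Pool.Agent.Q269.SL.Sp2

/-!
# Ranks and root numbers of the quadratic twists of an elliptic curve over `k(t)`

Let `k` be a finite field of characteristic different from 2 in which `-1` is a square, `K = k(t)`, and
let `a 1, a 2, a 3` be polynomials over `k` whose differences have the same degree `N ≥ 1` and a
squarefree product `Δ`. For a monic squarefree polynomial `D` prime to `Δ` let `E_D` be the elliptic curve

`y ^ 2 = D(t) (x - a 1) (x - a 2) (x - a 3)`

over `K`, the quadratic twist by `D` of `E_1` (the `j`-invariant is not constant). The field `k` is fixed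
and the degree `m` of `D` tends to infinity, `m + N` odd. The bad places are the primes `Q` of `k[t]` which
divide `Δ`. At a bad place `Q`, which divides `a i - a j`, say, `E_D` has multiplicative reduction, split if
`D (a i - a l)` is a square modulo `Q` (`l` the third index), and non-split otherwise. Let `S(D)` be the
set of the bad places at which `E_D` has split multiplicative reduction. At all the other places at
which the reduction is bad (the prime divisors of `D` and infinity) `E_D` is a ramified quadratic twist
of a curve with good reduction, and since `-1` is a square in `k` the local root number is 1. So the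
root number of `E_D` is `w(E_D) = (-1) ^ |S(D)|`.

We say that the number `M` bounds the points and the Tate-Shafarevich group of `E = E_D` if the product
of the order of the group `E(K) / (E(K)[2] + 2 E(K))` and of the order of the group of the classes in
`H ^ 1 (K, E)[2]` which are trivial over the completions of `K` at all the places different from infinity
is at most `M`. For `M = 2 ^ e` this implies that the sum of the rank of `E(K)` and of the corank of the
2-primary part of the Tate-Shafarevich group is at most `e`; for `e = 0` rank and order of vanishing of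
the L-function are zero (Artin-Tate, Milne).

Theorem. (1) The sets `S(D)` are uniformly distributed: for each set `S` of bad places the proportion of
the `D` with `S(D) = S` tends to `2 ^ (- number of bad places)`. In particular the root number is 1 for
half of the twists and -1 for the other half.

(2) Let `p(e) = (β / 2) 2 ^ e / ((2 - 1) (2 ^ 2 - 1) ⋯ (2 ^ e - 1))`, `β = ∏_{i ≥ 0} (1 - 2 ^ (- 2 i - 1))`.
For each set `S` of bad places and each set `𝒜` of natural numbers the proportion among the `D` with
`S(D) = S` of those for which `2 ^ e` bounds the points and the Tate-Shafarevich group of `E_D` for some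
`e` in `𝒜` is at least (up to `ε`) the sum of the `2 p(e)` with `e` in `𝒜`, `(-1) ^ e = (-1) ^ |S|`. The
sum of all these `2 p(e)` is 1.

So for each type of the reduction at the bad places with root number 1 at least `2 p(0) - ε = 0.4194...`
of the `E_D` have rank 0 (and satisfy the conjecture of Birch and Swinnerton-Dyer), and at least
`2 (p(0) + p(2)) - ε = 0.978...` have rank at most 2; for each type with root number -1 the rank is at
most 1 for at least `2 p(1) - ε = 0.8388...` of the `E_D` and at most 3 for at least
`2 (p(1) + p(3)) - ε = 0.998...`. According to the 50/50 conjecture the rank is 0 for 100 percent of the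
twists with root number 1, and 1 for 100 percent of the others.

The proof: the 2-Selmer group of `E_D` modulo the torsion points is contained in the kernel of an
explicit symmetric matrix over the field with two elements, whose entries are quadratic residue
symbols of the prime factors of `D` and of `Δ`. The parity of the dimension of the kernel is that of
`|S(D)|`. All the moments of the order of the kernel are computed in each class of twists; they are
asymptotically `2 ^ (j (j + 1) / 2)`, and together with the parity they determine the law of the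
dimension of the kernel.
-/

set_option autoImplicit false
set_option linter.all false

namespace Pool.Agent.Results.MP_81dc49_nt.RootNumberLaw

open Polynomial Filter Pool.Agent.Y713.Jac IsDedekindDomain
open scoped Classical

/-- The product of the differences `a i - a j`, `i < j`. -/
noncomputable def differences {k : Type} [Field k] {n : ℕ} (a : Fin n → k[X]) : k[X] :=
  ∏ x ∈ (Finset.univ : Finset (Fin n × Fin n)).filter (fun x => x.1 < x.2), (a x.1 - a x.2)

/-- The monic squarefree polynomials `D` of degree `m` prime to the differences `a i - a j`. -/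
def Twists {k : Type} [Field k] (a : Fin 3 → k[X]) (m : ℕ) : Set k[X] :=
  {D | D.Monic ∧ D.natDegree = m ∧ Squarefree D ∧ ∀ i j, i ≠ j → IsCoprime D (a i - a j)}

/-- The polynomial `D(t) (x - a 1) (x - a 2) (x - a 3)` in `x` over `K = k(t)`. -/
noncomputable def twist {k : Type} [Field k] (K : Type) [Field K] [Algebra k[X] K]
    (a : Fin 3 → k[X]) (D : k[X]) : K[X] :=
  C (algebraMap k[X] K D) * ∏ i, (X - C (algebraMap k[X] K (a i)))

/-- The bad places: the monic irreducible divisors of the product of the differences. -/
def badPlaces {k : Type} [Field k] (a : Fin 3 → k[X]) : Set k[X] :=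
  {Q | Q.Monic ∧ Irreducible Q ∧ Q ∣ differences a}

/-- `E_D` has split multiplicative reduction at the bad place `Q`: if `Q` divides `a i - a j` and `l`
is the third index then `D (a i - a l)` is a square modulo `Q`. -/
def SplitAt {k : Type} [Field k] (a : Fin 3 → k[X]) (D Q : k[X]) : Prop :=
  ∃ i j l : Fin 3, i ≠ j ∧ l ≠ i ∧ l ≠ j ∧ Q ∣ a i - a j ∧
    ∃ h : k[X], Q ∣ h ^ 2 - D * (a i - a l)

/-- The set `S(D)` of the bad places at which `E_D` has split multiplicative reduction. -/
def splitPlaces {k : Type} [Field k] (a : Fin 3 → k[X]) (D : k[X]) : Set k[X] :=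
  {Q ∈ badPlaces a | SplitAt a D Q}

/-- For the elliptic curve `E : y ^ 2 = F(x)` over `K = Frac R`, the number of the elements of
`E(K) / (E(K)[2] + 2 E(K))` times the number of the classes in `H ^ 1 (K, E)` killed by 2 which are
trivial over the completions of `K` at the primes of `R` is at most `M`: if `x 1, …, x A` are points
different modulo `E(K)[2] + 2 E(K)` and `c 1, …, c B` are cocycles, locally trivial, killed by 2 in
`H ^ 1` and pairwise not cohomologous, then `A * B ≤ M`. The group `E(L)` is the Picard group of the
affine curve, `J 2 F L` in the library. -/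
def BoundsPointsAndSha {K : Type} [Field K] (F : K[X]) (R : Type) [CommRing R]
    [IsDedekindDomain R] [Algebra R K] [IsFractionRing R K] (M : ℕ) : Prop :=
  ∀ (A B : ℕ) (x : Fin A → J 2 F K) (c : Fin B → Cochain 2 F),
    (∀ i j, i ≠ j → ¬ ∃ T y : J 2 F K, T ^ 2 = 1 ∧ x i = x j * T * y ^ 2) →
    (∀ j, IsCocycle 2 F (c j)) → (∀ j, IsLocallyTrivial 2 F R (c j)) →
    (∀ j, IsCoboundary 2 F (fun σ => c j σ ^ 2)) →
    (∀ i j, i ≠ j → ¬ IsCoboundary 2 F (fun σ => c i σ / c j σ)) → A * B ≤ M

/-- The infinite product of the numbers `1 - 2 ^ (- 2 i - 1)`, `i ≥ 0`. -/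
noncomputable def beta : ℝ := ∏' i : ℕ, (1 - (1 / 2 : ℝ) ^ (2 * i + 1))

/-- The number `p(e)`. -/
noncomputable def law (e : ℕ) : ℝ :=
  beta / 2 * (2 ^ e / ∏ i ∈ Finset.range e, ((2 : ℝ) ^ (i + 1) - 1))

/-- The law for the twists with `s` places of split multiplicative reduction at the bad places:
`2 p(e)` if `e` and `s` have the same parity. -/
noncomputable def signedLaw (s e : ℕ) : ℝ := if Even (e + s) then 2 * law e else 0

theorem law_eq : law = Pool.Agent.Q269.SL.law2 := by
  funext e
  rw [Pool.Agent.Q269.SL.law2_eq]
  rfl

theorem result (k : Type) [Field k] [Finite k] (h2 : (2 : k) ≠ 0) (hi : IsSquare (-1 : k))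
    (K : Type) [Field K] [Algebra k[X] K] [IsFractionRing k[X] K]
    (N : ℕ) (hN : 1 ≤ N) (a : Fin 3 → k[X])
    (ha : ∀ i j, i ≠ j → (a i - a j).natDegree = N) (hs : Squarefree (differences a)) :
    (∀ s : ℕ, HasSum (signedLaw s) 1) ∧ (badPlaces a).Finite ∧
    (∃ c : ℝ, 0 < c ∧ ∀ᶠ m : ℕ in atTop,
      c * (Nat.card k : ℝ) ^ m ≤ ((Twists a m).ncard : ℝ)) ∧
    ∀ S : Set k[X], S ⊆ badPlaces a →
    (∀ ε : ℝ, 0 < ε → ∀ᶠ m : ℕ in atTop, Odd (m + N) →
      |(2 : ℝ) ^ (badPlaces a).ncard * (({D ∈ Twists a m | splitPlaces a D = S}).ncard : ℝ) -
        ((Twists a m).ncard : ℝ)| ≤ ε * ((Twists a m).ncard : ℝ)) ∧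
    ∀ 𝒜 : Set ℕ, ∀ ε : ℝ, 0 < ε → ∀ᶠ m : ℕ in atTop, Odd (m + N) →
      ((∑' e : ℕ, if e ∈ 𝒜 then signedLaw S.ncard e else 0) - ε) *
        (({D ∈ Twists a m | splitPlaces a D = S}).ncard : ℝ) ≤
        (({D ∈ {D ∈ Twists a m | splitPlaces a D = S} | ∃ e ∈ 𝒜,
          BoundsPointsAndSha (twist K a D) k[X] (2 ^ e)}).ncard : ℝ) := by
  obtain ⟨g1, g2, g3⟩ := Pool.Agent.Q269.SL.split_final h2 hi K N hN a ha hs
  unfold signedLaw
  rw [law_eq]
  exact ⟨Pool.Agent.Q269.SL.hasSum_par, g1, g2, g3⟩

end Pool.Agent.Results.MP_81dc49_nt.RootNumberLaw
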