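import Pool.Agent.Q183.UH.Size

/-!
# The size of the integer points of plane curves in recurrent sequences

For all `D`, `r` and `d` there are numbers `M ≥ 1` and `c` with the following property.  Let
`F(x, y)` be a polynomial of degree at most `D` such that the curve `F = 0` has no rational
parametrisation (for instance `F ∈ ℤ[x, y]` absolutely irreducible of genus at least one).  Let
`(x t, y t)`, `0 ≤ t < l ≤ ∞`, be a finite or infinite sequence of points of this curve (for instance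
integer points) such that each of the sequences `x` and `y` satisfies a linear recurrence of order at
most `r` whose coefficients are polynomials in the index of degree at most `d` with integer
coefficients of absolute value at most `A`.  Let `|x t|, |y t| ≤ B` for `t ≤ A + r`.  Then

(i) `(x (t + M), y (t + M)) = (x t, y t)` for all `t` with `A + c ≤ t ≤ l - M - c`;

(ii) `|x t|, |y t| ≤ (c A) ^ c B` for all `t ≤ l - c`;

(iii) `|x t|, |y t| ≤ (c A (t + 1) ^ d) ^ c B` for all `t < l`.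

The numbers `M` and `c` do not depend on the coefficients of `F`.
-/

set_option autoImplicit false

namespace Pool.Agent.Results.MP_821da1_nt.UniformRecurrences

open MvPolynomial

/-- The curve `F = 0` has no rational parametrisation: rational functions `u`, `v` with
`F(u, v) = 0` are constant. -/
def NoRationalParametrisation (F : MvPolynomial (Fin 2) ℂ) : Prop :=
  ∀ u v : RatFunc ℂ, aeval ![u, v] F = 0 → ∃ a b : ℂ, u = RatFunc.C a ∧ v = RatFunc.C b

/-- The sequence `x` of length `l ≤ ∞` satisfies a linear recurrence of order at most `r` whose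
coefficients are polynomials in the index of degree at most `d` with integer coefficients of absolute
value at most `A`, the first and the last one not the zero polynomial. -/
def Recurrence (r d A : ℕ) (l : ℕ∞) (x : ℕ → ℂ) : Prop :=
  ∃ (q : ℕ) (a : ℕ → Polynomial ℤ), q ≤ r ∧ a 0 ≠ 0 ∧ a q ≠ 0 ∧
    (∀ k, (a k).natDegree ≤ d ∧ ∀ i, |(a k).coeff i| ≤ A) ∧
    ∀ m : ℕ, ((m + q : ℕ) : ℕ∞) < l →
      ∑ k ∈ Finset.range (q + 1), (((a k).eval (m : ℤ) : ℤ) : ℂ) * x (m + k) = 0

theorem result (D r d : ℕ) : ∃ M c : ℕ, 0 < M ∧ ∀ (F : MvPolynomial (Fin 2) ℂ),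
    F.totalDegree ≤ D → NoRationalParametrisation F → ∀ (A : ℕ), 1 ≤ A → ∀ (B : ℝ), 0 ≤ B →
    ∀ (l : ℕ∞) (x y : ℕ → ℂ), (∀ t : ℕ, (t : ℕ∞) < l → eval ![x t, y t] F = 0) →
    Recurrence r d A l x → Recurrence r d A l y →
    (∀ t : ℕ, t ≤ A + r → (t : ℕ∞) < l → ‖x t‖ ≤ B ∧ ‖y t‖ ≤ B) →
    (∀ t : ℕ, A + c ≤ t → ((t + M + c : ℕ) : ℕ∞) ≤ l → x (t + M) = x t ∧ y (t + M) = y t) ∧
    (∀ t : ℕ, ((t + c : ℕ) : ℕ∞) ≤ l →
      ‖x t‖ ≤ ((c : ℝ) * A) ^ c * B ∧ ‖y t‖ ≤ ((c : ℝ) * A) ^ c * B) ∧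
    ∀ t : ℕ, (t : ℕ∞) < l → ‖x t‖ ≤ ((c : ℝ) * (A * (t + 1) ^ d)) ^ c * B ∧
      ‖y t‖ ≤ ((c : ℝ) * (A * (t + 1) ^ d)) ^ c * B := by
  obtain ⟨M, c, hM, h⟩ := Pool.Agent.Q183.UH.plane_size D r d
  refine ⟨M, c, hM, fun F hF hno A hA B hB0 l x y hX hx hy hB => ?_⟩
  exact h F hF hno A hA B hB0 l x y (fun t ht => by rw [aeval_eq_eval]; exact hX t ht) hx hy hB

end Pool.Agent.Results.MP_821da1_nt.UniformRecurrences
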