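import Mathlib
import Pool.Agent.Q127.CR.Count

/-!
# MP_8269f7_co, Q2 (full answer: there is no sublinear bound in terms of the second-largest degree)

`M₂(k) ≥ k - 2` for every `k ≥ 3`, so `liminf M₂(k) / k ≥ 1` and in particular `M₂(k)` is not `o(k)`.

The graphs: a complete `m`-ary tree of depth `n`, `m = k - 1`, with one more vertex above the root, and
an apex joined to that vertex and to all the leaves.  With `u = 1 / (q - 1)` the ratios of the numbers
of colourings satisfy `h_{n+1} = 1 + u (h_n ^ (-m) - 1)`; if no `h_n` had a zero in `|u| < ρ`, where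
`ρ > 1 / m`, Schottky's theorem would bound all the `h_n ^ (-m)` on a circle `|u| = U > 1 / m`, which
contradicts the growth of the Taylor coefficient `± m ^ (n + 1)` of `u ^ (n + 1)`.
-/

set_option autoImplicit false

open SimpleGraph Polynomial

namespace Pool.Agent.Results.MP_8269f7_co.SecondDegreeLinear

/-- `G` has a `K₄` minor: there are four pairwise disjoint vertex sets, each inducing a connected
subgraph, any two of which are joined by an edge of `G`. -/
def HasK4Minor {V : Type} (G : SimpleGraph V) : Prop :=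
  ∃ f : Fin 4 → Set V, (∀ i, (G.induce (f i)).Connected) ∧
    (∀ i j, i ≠ j → Disjoint (f i) (f j)) ∧
    (∀ i j, i ≠ j → ∃ a ∈ f i, ∃ b ∈ f j, G.Adj a b)

/-- The degree sequence of a finite graph, in non-increasing order and with repetitions. -/
noncomputable def degreeSequence {V : Type} [Fintype V] (G : SimpleGraph V) : List ℕ :=
  ((Finset.univ : Finset V).val.map fun v => (G.neighborSet v).ncard).sort (fun a b => a ≥ b)

/-- The second-largest degree: the second entry of the degree sequence (`0` if there is none). -/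
noncomputable def secondDegree {V : Type} [Fintype V] (G : SimpleGraph V) : ℕ :=
  (degreeSequence G).getD 1 0

/-- `P` is the chromatic polynomial of `G`: its value at every positive integer `q` is the number of
proper colourings of `G` with `q` colours. -/
def IsChromaticPolynomial {V : Type} (G : SimpleGraph V) (P : ℂ[X]) : Prop :=
  ∀ q : ℕ, 0 < q → P.eval (q : ℂ) = (Nat.card (G.Coloring (Fin q)) : ℂ)

/-- `M₂(k)`: the supremum of the moduli of the chromatic roots of the series-parallel graphs with
second-largest degree at most `k`. -/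
noncomputable def M2 (k : ℕ) : ENNReal :=
  sSup {r | ∃ (V : Type) (_ : Fintype V) (G : SimpleGraph V) (P : ℂ[X]) (z : ℂ),
    ¬ HasK4Minor G ∧ secondDegree G ≤ k ∧ IsChromaticPolynomial G P ∧ P.eval z = 0 ∧
    r = ENNReal.ofReal ‖z‖}

theorem secondDegree_le {V : Type} [Fintype V] (G : SimpleGraph V) (x : V) (k : ℕ)
    (h : ∀ v, v ≠ x → (G.neighborSet v).ncard ≤ k) : secondDegree G ≤ k := by
  classical
  by_contra hcon
  push Not at hcon
  have hs : (degreeSequence G : Multiset ℕ) =
      (Finset.univ : Finset V).val.map fun v => (G.neighborSet v).ncard :=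
    Multiset.sort_eq _ _
  have hsorted : (degreeSequence G).Pairwise (fun a b => a ≥ b) := Multiset.pairwise_sort _ _
  have hcount : Multiset.countP (fun a => k < a) (degreeSequence G : Multiset ℕ) ≤ 1 := by
    rw [hs, Multiset.countP_map]
    have : (Multiset.filter (fun v => k < (G.neighborSet v).ncard) (Finset.univ : Finset V).val).card
        = (Finset.univ.filter fun v => k < (G.neighborSet v).ncard).card := rfl
    rw [this]
    refine (Finset.card_le_card (t := {x}) ?_).trans (by simp)
    intro v hv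
    rw [Finset.mem_filter] at hv
    rw [Finset.mem_singleton]
    by_contra hvx
    exact absurd (h v hvx) (by omega)
  unfold secondDegree at hcon
  rcases hl : degreeSequence G with _ | ⟨a, _ | ⟨b, l⟩⟩
  · rw [hl] at hcon; simp at hcon
  · rw [hl] at hcon; simp at hcon
  · rw [hl] at hcon hsorted hcount
    have hb : k < b := by simpa using hcon
    have hab : b ≤ a := by
      have := (List.pairwise_cons.1 hsorted).1 b (by simp)
      exact this
    rw [Multiset.coe_countP, List.countP_cons_of_pos (by simpa using hb.trans_le hab),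
      List.countP_cons_of_pos (by simpa using hb)] at hcount
    omega

/-- Q2 of the problem. -/
theorem result :
    (∀ k : ℕ, 3 ≤ k → ∀ t : ℝ, t < k - 2 →
      ∃ (V : Type) (_ : Fintype V) (G : SimpleGraph V) (P : ℂ[X]) (z : ℂ),
        ¬ HasK4Minor G ∧ secondDegree G ≤ k ∧ IsChromaticPolynomial G P ∧ P.eval z = 0 ∧
        t < ‖z‖) ∧
    1 ≤ Filter.liminf (fun k : ℕ => M2 k / k) Filter.atTop ∧
    0 < Filter.limsup (fun k : ℕ => M2 k / k) Filter.atTop := by
  have main : ∀ k : ℕ, 3 ≤ k → ∀ t : ℝ, t < k - 2 →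
      ∃ (V : Type) (_ : Fintype V) (G : SimpleGraph V) (P : ℂ[X]) (z : ℂ),
        ¬ HasK4Minor G ∧ secondDegree G ≤ k ∧ IsChromaticPolynomial G P ∧ P.eval z = 0 ∧
        t < ‖z‖ := by
    intro k hk t ht
    obtain ⟨m, rfl⟩ : ∃ m, k = m + 1 := ⟨k - 1, by omega⟩
    obtain ⟨n, z, hz, hzt⟩ := Pool.Agent.Q127.CR.exists_root (m := m) (by omega) (t := t + 1)
      (by push_cast at ht; linarith)
    have hfin : Fintype (Option (Option (Pool.Agent.Q127.CR.T m n))) := Fintype.ofFinite _
    refine ⟨_, hfin, Pool.Agent.Q127.CR.F m n, Pool.Agent.Q127.CR.P m n, z,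
      Pool.Agent.Q127.CR.F_no_K4 m n, ?_, fun q _ => Pool.Agent.Q127.CR.card_col m n q, ?_, ?_⟩
    · exact secondDegree_le _ none _ (Pool.Agent.Q127.CR.F_degree m (by omega) n)
    · simp [Pool.Agent.Q127.CR.P, hz]
    · have : ‖z - 1‖ ≤ ‖z‖ + ‖(1 : ℂ)‖ := norm_sub_le _ _
      rw [norm_one] at this
      linarith
  have hlow : ∀ k : ℕ, 3 ≤ k → ENNReal.ofReal ((k : ℝ) - 2) ≤ M2 k := by
    intro k hk
    refine le_of_forall_lt fun c hc => ?_
    have hc' : c ≠ ⊤ := (hc.trans_le le_top).ne
    obtain ⟨V, hV, G, P, z, h1, h2, h3, h4, h5⟩ := main k hk c.toReal (by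
      have := (ENNReal.lt_ofReal_iff_toReal_lt hc').1 hc
      exact this)
    refine lt_of_lt_of_le ?_ (le_sSup ⟨V, hV, G, P, z, h1, h2, h3, h4, rfl⟩)
    exact (ENNReal.lt_ofReal_iff_toReal_lt hc').2 h5
  have hliminf : 1 ≤ Filter.liminf (fun k : ℕ => M2 k / k) Filter.atTop := by
    have ht : Filter.Tendsto (fun k : ℕ => ENNReal.ofReal (1 - 2 * (1 / (k : ℝ)))) Filter.atTop
        (nhds (ENNReal.ofReal (1 - 2 * 0))) :=
      ENNReal.tendsto_ofReal (tendsto_one_div_atTop_nhds_zero_nat.const_mul 2 |>.const_sub 1)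
    have h1 : ENNReal.ofReal (1 - 2 * 0) = 1 := by simp
    rw [h1] at ht
    rw [← ht.liminf_eq]
    refine Filter.liminf_le_liminf ?_
    filter_upwards [Filter.eventually_ge_atTop 3] with k hk
    have hk0 : (0 : ℝ) < k := by
      have : 0 < k := by omega
      exact_mod_cast this
    have e1 : (1 : ℝ) - 2 * (1 / (k : ℝ)) = (k - 2) / k := by field_simp
    rw [e1, ENNReal.ofReal_div_of_pos hk0, ENNReal.ofReal_natCast]
    exact ENNReal.div_le_div_right (hlow k hk) _
  refine ⟨main, hliminf, ?_⟩
  calc (0 : ENNReal) < 1 := zero_lt_one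
    _ ≤ Filter.liminf (fun k : ℕ => M2 k / k) Filter.atTop := hliminf
    _ ≤ Filter.limsup (fun k : ℕ => M2 k / k) Filter.atTop := Filter.liminf_le_limsup

end Pool.Agent.Results.MP_8269f7_co.SecondDegreeLinear
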