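import Pool.Agent.Q86.ZeroAlg
import Pool.Agent.Q86.FrCores

set_option autoImplicit false

open Pool.Agent.Q86.FrMod

universe u

/-- There is a Fréchet algebra over which no non-zero Fréchet module has an injective
coresolution. -/
theorem Pool.Agent.Results.MP_8296bc_an.NoCores.result :
    ∃ A : FrechetAlgebra.{0},
      (∃ X : FrechetModule.{u, 0} A, Nontrivial X.carrier) ∧
      ∀ X : FrechetModule.{u, 0} A, Nontrivial X.carrier → IsEmpty (InjectiveCoresolution X) := by
  refine ⟨zeroAlg, exists_nontrivial_module zeroAlg, fun X hX => ⟨fun R => ?_⟩⟩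
  refine zeroAlg_not_injective (R.J 0) ?_ (R.injective 0)
  exact (Function.LeftInverse.injective R.s_ι).nontrivial
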