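import Mathlib
import Pool.Agent.Q239.GS.Scale

/-!
# The Ramanujan conjecture for `GL(3)` over number fields: tempered places which split completely in an extension

Let `K` be a number field, let `π` be a unitary cuspidal automorphic representation of `GL_3` over `K`, with Satake
parameters `α_{i,v}` and Hecke eigenvalues `a_v = ∑_i α_{i,v}`, and let `L/K` be a finite Galois extension. The
component `π_v` is tempered iff `|α_{i,v}| = 1` for `i = 1, 2, 3`, i.e. iff the *defect* `Δ_v = ∑_i (|α_{i,v}| - 1)²`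
vanishes. Write `N v` for the norm of `v` (`qq v` below), and let `S` be a finite set of places of `K`, which contains
the places at which `π` or `L/K` is ramified. We assume that `π` has a cuspidal base change `π_L` to `L`, and show:

* *More than `x^{1/2}` tempered places split completely in `L`.* For every `c < 1/2 + 1/(16 [L : ℚ])` the series
  `∑ max(0, 1 - |a_v|²) (N v)^{-c}` over the completely split places diverges, and the number of the completely split
  places `v` with `N v ≤ x`, `|a_v| < 1` is not `O(x^c)`; at these places `π_v` is tempered.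
* *At every scale.* For every `ε > 0` and all large `X`, the sums and numbers being over the completely split places,

    `∑_{N v ≤ X} Δ_v ≤ X^ε (#{v : N v ≤ X^{1+ε}, π_v tempered} + X^{1/2})`.

* *Dirichlet series.* For some `C` and all `σ > 1`, the sums being over the completely split places,

    `∑ Δ_v (N v)^{-σ} ≤ ∑_{π_v tempered} max(0, 1 - |a_v|²) (N v)^{-σ} + C`.

* *Densities.* For every `δ > 0` there is a `C` such that for all `σ > 1`, with `T = (1 + δ) + (1 + δ)⁻¹`, over the
  completely split places, `T (T - 2) ∑_{|α_{i,v}| ≥ 1 + δ for some i} (N v)^{-σ} ≤ ∑_{π_v tempered} (N v)^{-σ} + C`.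

**Solvable extensions.** For solvable `L/K` the base change `π_L` exists (Arthur-Clozel), and if it is not cuspidal,
then `π` becomes automorphically induced from a Hecke character over a cubic cyclic subextension `M'/M` of `L/K`, and
`π_v` is tempered for all `v ∉ S`. So for every cuspidal `π` on `GL_3` over `K` and every solvable Galois
extension `L/K` there are infinitely many, and more than `x^{1/2 + 1/(16 [L : ℚ]) - ε}` for some arbitrarily large `x`,
places of norm `≤ x` which split completely in `L` and at which `π_v` is tempered.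

Known before: infinitely many tempered places for `K = ℚ` (Ramakrishnan), `SmallEigenvaluesGL3` and `TemperedMajority`
of this problem (`L = K`), and, for spherical cusp forms on `PGL_3` over `ℚ` and abelian `L/ℚ`,
`MP_fa98d2_nt.TemperedSplitPrimes`: a divergent series with exponent `1/2` (larger exponents need a large Satake
parameter and a hypothesis on the real zeros of Dirichlet `L`-functions). Here `K` is arbitrary, `L/K` need not be
abelian, the exponent is larger than `1/2`, and the other three statements are new for `L ≠ K`.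

The structure `AdjointGL3` (from the starting results) lists what is used of `π_L`, all of it is known: the local
components are unitary; the Rankin-Selberg series converges absolutely for `Re s > 1`; the adjoint
`L`-function `L(s, π_L, Ad) = L(s, π_L × π_L~) / ζ_L(s)` is meromorphic in the plane, satisfies the functional equation,
has polynomial growth in vertical strips and is holomorphic for `Re s ≥ 1/2` and for `|Im s|` large (Ginzburg-Jiang,
Hundley-Zhang). `IsBaseChange` says that the Satake parameters of `π_L` at `w | v`, `v ∉ S`, are the `α_{i,v}^{f(w|v)}`.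

The proof: the starting results for `π_L` concern the places `w` of `L`. A place `w` above `v ∉ S` of residue
degree `1` over `K` is above a completely split place, and there are `[L : K]` such `w` above each such `v`, with
`N w = N v` and the same parameters. The places `w` of degree `≥ 2` over `K` have `N w ≥ (N v)²`, so that their
contribution converges for exponents larger than `1/2`, and is bounded for `σ > 1`.
-/

set_option autoImplicit false

namespace Pool.Agent.Results.MP_8410ab_nt.TemperedSplitPlaces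

open NumberField IsDedekindDomain Pool.Agent.TH861.GL3 Q239.GS
open Pool.Agent.TH949.TX (AdjointGL3)

open scoped Classical in
/-- **Tempered places of cusp forms on `GL(3)` which split completely.** -/
theorem result {K L : Type*} [Field K] [NumberField K] [Field L] [NumberField L] [Algebra K L] [IsGalois K L]
    {S : Finset (HeightOneSpectrum (𝓞 K))} {T : Finset (HeightOneSpectrum (𝓞 L))}
    {α : PL S → Fin 3 → ℂ} {β : PL T → Fin 3 → ℂ} (h : IsBaseChange α β) (hβ : AdjointGL3 β) :
    (∀ v : PL S, SplitsIn L v.1 → ‖∑ i, α v i‖ < 1 → ∀ i, ‖α v i‖ = 1) ∧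
    (∀ c : ℝ, c < 1 / 2 + 1 / (16 * (Module.finrank ℚ L : ℝ)) →
      (¬ Summable fun v : PL S =>
        if SplitsIn L v.1 then max 0 (1 - ‖∑ i, α v i‖ ^ 2) * (qq v.1 : ℝ) ^ (-c) else 0) ∧
      ∀ C X : ℝ, ∃ x : ℝ, X ≤ x ∧
        C * x ^ c < (({v : PL S | (qq v.1 : ℝ) ≤ x ∧ SplitsIn L v.1 ∧ ‖∑ i, α v i‖ < 1}.ncard : ℕ) : ℝ)) ∧
    (∀ ε : ℝ, 0 < ε → ∃ X₀ : ℝ, ∀ X : ℝ, X₀ ≤ X →
      (∑' v : PL S, if SplitsIn L v.1 ∧ (qq v.1 : ℝ) ≤ X then ∑ i, (‖α v i‖ - 1) ^ 2 else 0) ≤
        X ^ ε * ((({v : PL S | SplitsIn L v.1 ∧ (qq v.1 : ℝ) ≤ X ^ (1 + ε) ∧ ∀ i, ‖α v i‖ = 1}.ncard : ℕ) : ℝ) +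
          X ^ (1 / 2 : ℝ))) ∧
    (∃ C : ℝ, ∀ σ : ℝ, 1 < σ →
      (Summable fun v : PL S => if SplitsIn L v.1 then (∑ i, (‖α v i‖ - 1) ^ 2) * (qq v.1 : ℝ) ^ (-σ) else 0) ∧
      ∑' v : PL S, (if SplitsIn L v.1 then (∑ i, (‖α v i‖ - 1) ^ 2) * (qq v.1 : ℝ) ^ (-σ) else 0) ≤
        ∑' v : PL S, (if SplitsIn L v.1 ∧ ∀ i, ‖α v i‖ = 1 then
          max 0 (1 - ‖∑ i, α v i‖ ^ 2) * (qq v.1 : ℝ) ^ (-σ) else 0) + C) ∧
    ∀ δ : ℝ, 0 < δ → ∃ C : ℝ, ∀ σ : ℝ, 1 < σ →
      ((1 + δ ^ 2 / (1 + δ)) ^ 2 - 1) *
          ∑' v : PL S, (if SplitsIn L v.1 ∧ ∃ i, 1 + δ ≤ ‖α v i‖ then (qq v.1 : ℝ) ^ (-σ) else 0) ≤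
        ∑' v : PL S, (if SplitsIn L v.1 ∧ ∀ i, ‖α v i‖ = 1 then (qq v.1 : ℝ) ^ (-σ) else 0) + C := by
  have hU : ∀ v : PL S, SplitsIn L v.1 → (∀ i, α v i ≠ 0) ∧
      Multiset.map (fun i => ((starRingEnd ℂ) (α v i))⁻¹) Finset.univ.val = Multiset.map (α v) Finset.univ.val :=
    fun v hv => unitary_split h hβ.unitary hv
  refine ⟨fun v hv hlt => ?_, fun c hc => ⟨split_diverge h hβ.auto hc, ?_⟩,
    fun ε hε => Filter.eventually_atTop.1 (scales_split h hβ hε), ?_, fun δ hδ => ?_⟩
  · obtain ⟨w, rfl⟩ := exists_above h hv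
    have hw := (deg_one_iff h w).2 hv
    refine (forall_iff h hw (fun z => ‖z‖ = 1)).1 (Pool.Agent.TH949.RES.tempered_of_small hβ.auto ?_)
    have := sum_eq h hw (fun z : ℂ => z)
    rw [this]
    exact hlt
  · have hd : (1 : ℝ) ≤ (Module.finrank ℚ L : ℝ) := by
      exact_mod_cast (Module.finrank_pos : 0 < Module.finrank ℚ L)
    exact Pool.Agent.TH949.RES.count_large (N := fun v : PL S => qq v.1)
      (fun v => (two_le_qq v.1).trans' (by norm_num))
      (fun b => (finite_nm_le (K := K) b).preimage Subtype.val_injective.injOn)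
      (fun v : PL S => SplitsIn L v.1 ∧ ‖∑ i, α v i‖ < 1) (by positivity)
      (fun c hc => split_diverge' h hβ.auto hc) c hc
  · obtain ⟨C, hC⟩ := weight_split h hβ.auto.cuspidal (f := fun v => ∑ i, (‖α v i‖ - 1) ^ 2)
      (g := fun v => if ∀ i, ‖α v i‖ = 1 then max 0 (1 - ‖∑ i, α v i‖ ^ 2) else 0)
      (fun v => Finset.sum_nonneg fun i _ => sq_nonneg _)
      (fun v => by
        split_ifs
        · exact le_max_left _ _
        · exact le_rfl)
      (fun v => by
        split_ifs
        · exact max_le zero_le_one (by nlinarith [sq_nonneg ‖∑ i, α v i‖])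
        · exact zero_le_one)
      (fun v hv => by
        by_cases ht : ∀ i, ‖α v i‖ = 1
        · have e : ∑ i, (‖α v i‖ - 1) ^ 2 = 0 := Finset.sum_eq_zero fun i _ => by rw [ht i]; norm_num
          rw [e, if_pos ht]
          have := le_max_right 0 (1 - ‖∑ i, α v i‖ ^ 2)
          linarith
        · rw [if_neg ht, sub_zero]
          exact Pool.Agent.Y816.GL3T.defect_le (hU v hv) ht)
    refine ⟨C, fun σ hσ => ⟨(hC σ hσ).1, (hC σ hσ).2.trans (le_of_eq ?_)⟩⟩
    congr 1
    refine tsum_congr fun v => ?_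
    by_cases hv : SplitsIn L v.1 <;> by_cases ht : ∀ i, ‖α v i‖ = 1 <;> simp [hv, ht]
  · have hm : 0 ≤ (1 + δ ^ 2 / (1 + δ)) ^ 2 - 1 := by
      have h1 : 0 ≤ δ ^ 2 / (1 + δ) := by positivity
      nlinarith
    obtain ⟨C, hC⟩ := weight_split h hβ.auto.cuspidal
      (f := fun v => ((1 + δ ^ 2 / (1 + δ)) ^ 2 - 1) * if ∃ i, 1 + δ ≤ ‖α v i‖ then 1 else 0)
      (g := fun v => if ∀ i, ‖α v i‖ = 1 then 1 else 0) (fun v => mul_nonneg hm (by split_ifs <;> norm_num))
      (fun v => by split_ifs <;> norm_num) (fun v => by split_ifs <;> norm_num)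
      (fun v hv => by
        have h3 : 0 ≤ ‖∑ i, α v i‖ ^ 2 := sq_nonneg _
        by_cases ht : ∀ i, ‖α v i‖ = 1
        · have hB : ¬ ∃ i, 1 + δ ≤ ‖α v i‖ := by
            rintro ⟨i, hi⟩
            have := ht i
            linarith
          rw [if_neg hB, if_pos ht]
          linarith
        · rw [if_neg ht, sub_zero]
          by_cases hB : ∃ i, 1 + δ ≤ ‖α v i‖
          · rw [if_pos hB, mul_one]
            exact Pool.Agent.Y816.GL3T.large_le (hU v hv) hδ hB
          · rw [if_neg hB, mul_zero]
            have := nontemp_pow (hU v hv) ht 1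
            simpa using this)
    refine ⟨C, fun σ hσ => ?_⟩
    have h2 := (hC σ hσ).2
    rw [← tsum_mul_left]
    refine le_trans (le_of_eq (tsum_congr fun v => ?_)) (h2.trans (le_of_eq ?_))
    · by_cases hv : SplitsIn L v.1 <;> by_cases hB : ∃ i, 1 + δ ≤ ‖α v i‖ <;> simp [hv, hB]
    · congr 1
      refine tsum_congr fun v => ?_
      by_cases hv : SplitsIn L v.1 <;> by_cases ht : ∀ i, ‖α v i‖ = 1 <;> simp [hv, ht]

end Pool.Agent.Results.MP_8410ab_nt.TemperedSplitPlaces
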