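import Pool.Agent.Q172.Fan.Ret

/-!
# The hyperspace of subcontinua of the harmonic fan is a retract of the hyperspace of closed sets

`Cone Z` is the quotient of `Z × [0,1]` by the top level. If `Z` is a compact metric space with
exactly one limit point, then `M = Cone Z` is a metrizable continuum, it is not locally connected,
and there is a continuous map `r` from `2^M` (the nonempty compact subsets of `M` with the Vietoris
topology, which is the topology of the Hausdorff metric) to itself whose values are connected and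
which fixes every subcontinuum: a retraction of `2^M` onto `C(M)`.

The retraction is explicit. Let `m` and `h` be the smallest and the largest height over the vertex
`v` of the points of `A`, and `a` the largest slope of a leg which meets `A`. If `v ∈ A` then `r(A)`
is the union of the segments from `v` to the points of `A`; if `A` is on one leg then `r(A)` is the
hull of `A` in this leg; otherwise `r(A)` is, for `m ≥ 3a`, the part of the leg of slope `a` between
the heights `m` and `h`, and as `m / a` decreases from `3` to `0` this is first extended to `v`,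
then the segments from `v` to the points of `A` are added, and finally the segment of slope `a` is
shrunk.
-/

set_option autoImplicit false

open Set Topology TopologicalSpace Filter Metric

namespace Pool.Agent.Results.MP_85483e_gt.HarmonicFan

/-- the relation on `Z × [0,1]` which identifies the points of the top level -/
def coneSetoid (Z : Type*) : Setoid (Z × unitInterval) where
  r p q := p = q ∨ (p.2 = 1 ∧ q.2 = 1)
  iseqv := by
    refine ⟨fun p => Or.inl rfl, ?_, ?_⟩
    · rintro p q (h | h)
      · exact Or.inl h.symm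
      · exact Or.inr ⟨h.2, h.1⟩
    · rintro p q s (h | h) (h' | h')
      · exact Or.inl (h.trans h')
      · exact Or.inr ⟨h ▸ h'.1, h'.2⟩
      · exact Or.inr ⟨h.1, h' ▸ h.2⟩
      · exact Or.inr ⟨h.1, h'.2⟩

/-- the cone over `Z`, the quotient of `Z × [0,1]` by the top level -/
def Cone (Z : Type*) : Type _ := Quotient (coneSetoid Z)

instance (Z : Type*) [TopologicalSpace Z] : TopologicalSpace (Cone Z) :=
  inferInstanceAs (TopologicalSpace (Quotient (coneSetoid Z)))

open Q172.Fan in
/-- slopes for the legs -/
theorem exists_slopes (Z : Type*) [MetricSpace Z] [CompactSpace Z] (z₀ : Z)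
    (hz : ∀ z : Z, (𝓝[≠] z).NeBot ↔ z = z₀) :
    ∃ ρ : Z → ℝ, Continuous ρ ∧ Function.Injective ρ ∧ Good (range ρ) := by
  classical
  have hiso : ∀ z, z ≠ z₀ → IsOpen ({z} : Set Z) := by
    intro z h
    have h1 : ¬ (𝓝[≠] z).NeBot := fun h2 => h ((hz z).1 h2)
    rw [neBot_iff, not_not] at h1
    exact isOpen_singleton_iff_punctured_nhds z |>.2 h1
  have hfin : ∀ n : ℕ, {z : Z | 1 / ((n : ℝ) + 1) ≤ dist z z₀}.Finite := by
    intro n
    have hcl : IsClosed {z : Z | 1 / ((n : ℝ) + 1) ≤ dist z z₀} :=
      isClosed_le continuous_const (continuous_id.dist continuous_const)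
    refine hcl.isCompact.finite ?_
    refine isDiscrete_iff_discreteTopology.2 (discreteTopology_subtype_iff.2 ?_)
    intro z hz'
    have hne : z ≠ z₀ := by
      rintro rfl
      have : 1 / ((n : ℝ) + 1) ≤ dist z z := hz'
      rw [dist_self] at this
      have h2 : 0 < 1 / ((n : ℝ) + 1) := by positivity
      linarith
    have h1 : 𝓝[≠] z = ⊥ := isOpen_singleton_iff_punctured_nhds z |>.1 (hiso z hne)
    rw [h1, bot_inf_eq]
  have hcount : Countable Z := by
    rw [← Set.countable_univ_iff]
    have : (univ : Set Z) ⊆ {z₀} ∪ ⋃ n : ℕ, {z : Z | 1 / ((n : ℝ) + 1) ≤ dist z z₀} := by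
      intro z _
      by_cases h : z = z₀
      · exact Or.inl h
      · right
        obtain ⟨n, hn⟩ := exists_nat_one_div_lt (dist_pos.2 h)
        exact mem_iUnion.2 ⟨n, hn.le⟩
    exact ((countable_singleton _).union (countable_iUnion fun n => (hfin n).countable)).mono this
  obtain ⟨φ, hφ⟩ := exists_injective_nat Z
  let ρ : Z → ℝ := fun z => if z = z₀ then 0 else 1 / ((φ z : ℝ) + 1)
  have hρ0 : ρ z₀ = 0 := if_pos rfl
  have hρ : ∀ z, z ≠ z₀ → ρ z = 1 / ((φ z : ℝ) + 1) := fun z h => if_neg h
  have hpos : ∀ z, z ≠ z₀ → 0 < ρ z := fun z h => by rw [hρ z h]; positivity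
  have hcont : Continuous ρ := by
    rw [continuous_iff_continuousAt]
    intro z
    by_cases h : z = z₀
    · subst h
      rw [ContinuousAt, hρ0, Metric.tendsto_nhds]
      intro ε hε
      obtain ⟨n, hn⟩ := exists_nat_one_div_lt hε
      have hF : {w : Z | φ w < n}.Finite := (Set.finite_lt_nat n).preimage hφ.injOn
      have hF' : ({w : Z | φ w < n} \ {z}).Finite := hF.subset sdiff_subset
      have : ({w : Z | φ w < n} \ {z})ᶜ ∈ 𝓝 z :=
        hF'.isClosed.isOpen_compl.mem_nhds fun h => h.2 rfl
      filter_upwards [this] with w hw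
      by_cases hwz : w = z
      · rw [hwz, hρ0, dist_self]; exact hε
      · have hn' : n ≤ φ w := by
          by_contra hlt
          exact hw ⟨not_le.1 hlt, hwz⟩
        rw [hρ w hwz, Real.dist_eq, sub_zero, abs_of_pos (by positivity)]
        refine lt_of_le_of_lt ?_ hn
        apply one_div_le_one_div_of_le (by positivity)
        have : (n : ℝ) ≤ φ w := by exact_mod_cast hn'
        linarith
    · rw [ContinuousAt, (isOpen_singleton_iff_nhds_eq_pure z).1 (hiso z h)]
      exact tendsto_pure_nhds _ _
  have hinj : Function.Injective ρ := by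
    intro z w h
    by_cases h1 : z = z₀
    · by_cases h2 : w = z₀
      · rw [h1, h2]
      · rw [h1, hρ0] at h
        exact absurd h (hpos w h2).ne
    · by_cases h2 : w = z₀
      · rw [h2, hρ0] at h
        exact absurd h (hpos z h1).ne'
      · rw [hρ z h1, hρ w h2] at h
        have h3 : ((φ z : ℝ) + 1) = (φ w : ℝ) + 1 := by
          have := congrArg (fun x : ℝ => 1 / x) h
          simpa using this
        apply hφ
        have h4 : (φ z : ℝ) = φ w := by linarith
        exact_mod_cast h4
  refine ⟨ρ, hcont, hinj, ⟨⟨z₀, hρ0⟩, ?_, countable_range ρ, ?_, ?_⟩⟩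
  · rintro _ ⟨z, rfl⟩
    by_cases h : z = z₀
    · rw [h, hρ0]; exact ⟨le_refl _, zero_le_one⟩
    · refine ⟨(hpos z h).le, ?_⟩
      rw [hρ z h, div_le_one (by positivity)]
      have : (0 : ℝ) ≤ φ z := by positivity
      linarith
  · rintro _ ⟨z, rfl⟩ hne
    have h : z ≠ z₀ := by
      rintro rfl
      exact hne hρ0
    refine ⟨1 / (((φ z : ℝ) + 1) * ((φ z : ℝ) + 2)), by positivity, ?_⟩
    rintro _ ⟨w, rfl⟩ hw
    set n : ℝ := (φ z : ℝ) with hn
    have hn0 : 0 ≤ n := by positivity
    by_cases h2 : w = z₀
    · exfalso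
      rw [h2, hρ0, hρ z h, zero_sub, abs_neg, abs_of_pos (by positivity)] at hw
      rw [div_lt_div_iff₀ (by positivity) (by positivity)] at hw
      nlinarith
    · rw [hρ w h2, hρ z h] at hw ⊢
      have h5 : φ w = φ z := by
        by_contra hcon
        rcases lt_or_gt_of_ne hcon with hlt | hgt
        · have h6 : (φ w : ℝ) + 1 ≤ n := by rw [hn]; exact_mod_cast hlt
          have hw0 : (0 : ℝ) ≤ φ w := by positivity
          have h7 := (abs_lt.1 hw).2
          have h8 : 1 / ((φ w : ℝ) + 1) - 1 / (n + 1) =
              (n - φ w) / (((φ w : ℝ) + 1) * (n + 1)) := by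
            field_simp
            ring
          rw [h8, div_lt_div_iff₀ (by positivity) (by positivity)] at h7
          have h9 : 1 * ((n + 1) * (n + 2)) ≤ (n - φ w) * ((n + 1) * (n + 2)) :=
            mul_le_mul_of_nonneg_right (by linarith) (by positivity)
          have h10 : ((φ w : ℝ) + 1) * (n + 1) < (n + 2) * (n + 1) :=
            mul_lt_mul_of_pos_right (by linarith) (by positivity)
          nlinarith
        · have h6 : n + 1 ≤ (φ w : ℝ) := by rw [hn]; exact_mod_cast hgt
          have h7 := (abs_lt.1 hw).1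
          have h8 : 1 / ((φ w : ℝ) + 1) - 1 / (n + 1) =
              -((φ w - n) / (((φ w : ℝ) + 1) * (n + 1))) := by
            field_simp
            ring
          rw [h8, neg_lt_neg_iff, div_lt_div_iff₀ (by positivity) (by positivity)] at h7
          have h9 : 0 ≤ ((φ w : ℝ) - n - 1) * ((n + 1) * (n + 1)) :=
            mul_nonneg (by linarith) (by positivity)
          nlinarith
      rw [h5]
  · intro ε hε
    have h1 : (𝓝[≠] z₀).NeBot := (hz z₀).2 rfl
    have h2 : ∀ᶠ z in 𝓝[≠] z₀, ρ z < ε := by
      have := (hcont.tendsto z₀).eventually (gt_mem_nhds (show ρ z₀ < ε by rw [hρ0]; exact hε))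
      exact nhdsWithin_le_nhds this
    obtain ⟨z, hz1, hz2⟩ := (h2.and self_mem_nhdsWithin).exists
    exact ⟨ρ z, ⟨z, rfl⟩, hpos z hz2, hz1⟩

open Q172.Fan in
/-- Let `Z` be a compact metric space with exactly one limit point and `M` the cone over `Z`. Then
`M` is a metrizable continuum which is not locally connected, and there is a retraction of `2^M`
onto `C(M)`. -/
theorem result (Z : Type*) [MetricSpace Z] [CompactSpace Z] (z₀ : Z)
    (hz : ∀ z : Z, (𝓝[≠] z).NeBot ↔ z = z₀) :
    (MetrizableSpace (Cone Z) ∧ CompactSpace (Cone Z) ∧ ConnectedSpace (Cone Z)) ∧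
    ¬ LocallyConnectedSpace (Cone Z) ∧
    ∃ r : NonemptyCompacts (Cone Z) → NonemptyCompacts (Cone Z), Continuous r ∧
      (∀ A : NonemptyCompacts (Cone Z), IsConnected (r A : Set (Cone Z))) ∧
      ∀ A : NonemptyCompacts (Cone Z), IsConnected (A : Set (Cone Z)) → r A = A := by
  obtain ⟨ρ, hρ, hinj, hgood⟩ := exists_slopes Z z₀ hz
  have hmem : ∀ p : Z × unitInterval, pt (ρ p.1) (1 - p.2) ∈ Fan (range ρ) := fun p =>
    ⟨ρ p.1, ⟨p.1, rfl⟩, 1 - p.2, ⟨by linarith [p.2.2.2], by linarith [p.2.2.1]⟩, rfl⟩
  let g : Z × unitInterval → Fan (range ρ) := fun p => ⟨pt (ρ p.1) (1 - p.2), hmem p⟩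
  have hg : Continuous g := by
    refine Continuous.subtype_mk ?_ _
    unfold pt
    fun_prop
  have hgr : ∀ p q : Z × unitInterval, (coneSetoid Z).r p q ↔ g p = g q := by
    intro p q
    have h1 : g p = g q ↔ pt (ρ p.1) (1 - p.2) = pt (ρ q.1) (1 - q.2) := Subtype.ext_iff
    rw [h1]
    constructor
    · rintro (h | ⟨h, h'⟩)
      · rw [h]
      · rw [h, h']
        simp [pt]
    · intro h
      have h2 : (1 : ℝ) - p.2 = 1 - q.2 := congrArg Prod.snd h
      have h3 : ρ p.1 * (1 - p.2) = ρ q.1 * (1 - q.2) := congrArg Prod.fst h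
      have h4 : p.2 = q.2 := Subtype.ext (by linarith)
      by_cases h5 : p.2 = 1
      · exact Or.inr ⟨h5, h4 ▸ h5⟩
      · left
        have h6 : (1 : ℝ) - p.2 ≠ 0 := by
          intro h7
          exact h5 (Subtype.ext (by show (p.2 : ℝ) = 1; linarith))
        rw [← h2] at h3
        exact Prod.ext (hinj (mul_right_cancel₀ h6 h3)) h4
  let G : Cone Z → Fan (range ρ) := Quotient.lift g fun p q h => (hgr p q).1 h
  have hG : Continuous G := hg.quotient_lift _
  have hGinj : Function.Injective G := by
    intro x y h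
    induction x using Quotient.inductionOn with | _ p
    induction y using Quotient.inductionOn with | _ q
    exact Quotient.sound ((hgr p q).2 h)
  have hGsurj : Function.Surjective G := by
    rintro ⟨x, a, ⟨z, rfl⟩, s, hs, rfl⟩
    refine ⟨Quotient.mk _ (z, ⟨1 - s, by linarith [hs.2], by linarith [hs.1]⟩), ?_⟩
    apply Subtype.ext
    show pt (ρ z) (1 - (1 - s)) = pt (ρ z) s
    rw [sub_sub_cancel]
  have : CompactSpace (Cone Z) := inferInstanceAs (CompactSpace (Quotient (coneSetoid Z)))
  let H : Cone Z ≃ₜ Fan (range ρ) :=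
    Continuous.homeoOfEquivCompactToT2 (f := Equiv.ofBijective G ⟨hGinj, hGsurj⟩) hG
  refine ⟨⟨H.isEmbedding.metrizableSpace, inferInstance, ?_⟩, ?_, ?_⟩
  · -- connected
    let mk : Z × unitInterval → Cone Z := Quotient.mk (coneSetoid Z)
    have hmk : Continuous mk := continuous_quotient_mk'
    have h1 : IsConnected (univ : Set (Cone Z)) := by
      have hv : ∀ z w : Z, mk (z, 1) = mk (w, 1) :=
        fun z w => Quotient.sound (Or.inr ⟨rfl, rfl⟩)
      refine ⟨⟨mk (z₀, 1), trivial⟩, ?_⟩
      have h2 : ∀ x : Cone Z, ∃ p, mk p = x := fun x => Quotient.exists_rep x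
      refine isPreconnected_of_forall (mk (z₀, 1)) fun x _ => ?_
      obtain ⟨⟨z, t⟩, rfl⟩ := h2 x
      refine ⟨(fun t : unitInterval => mk (z, t)) '' univ, subset_univ _,
        ⟨1, trivial, hv z z₀⟩, ⟨t, trivial, rfl⟩, ?_⟩
      exact isPreconnected_univ.image _ (hmk.comp (by fun_prop)).continuousOn
    exact connectedSpace_iff_univ.2 h1
  · intro h
    exact not_lc hgood (H.symm.isOpenEmbedding.locallyConnectedSpace)
  · obtain ⟨r, hr, hc, hf⟩ := fan_ret hgood
    let e : NonemptyCompacts (Cone Z) → NonemptyCompacts (Fan (range ρ)) :=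
      NonemptyCompacts.map H H.continuous
    let e' : NonemptyCompacts (Fan (range ρ)) → NonemptyCompacts (Cone Z) :=
      NonemptyCompacts.map H.symm H.symm.continuous
    have hee : ∀ A, e' (e A) = A := by
      intro A
      apply NonemptyCompacts.ext
      show H.symm '' (H '' (A : Set (Cone Z))) = A
      rw [← image_comp]
      simp
    refine ⟨fun A => e' (r (e A)), ?_, ?_, ?_⟩
    · exact H.symm.continuous.nonemptyCompacts_map.comp
        (hr.comp H.continuous.nonemptyCompacts_map)
    · intro A
      exact (hc (e A)).image _ H.symm.continuous.continuousOn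
    · intro A hA
      show e' (r (e A)) = A
      rw [hf (e A) (hA.image _ H.continuous.continuousOn), hee]

end Pool.Agent.Results.MP_85483e_gt.HarmonicFan
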