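import Pool.Agent.Q59.TC.Fro

/-!
# Unramified cohomology of `Z × C ^ n`, `Z` a given variety, `C` a random cover

Let `Z` be a smooth projective variety over a finite field `𝔽` of characteristic `p`, and let `G` be a
finite group of order prime to `p`. Let `𝒮 → B` be a family of smooth projective curves of
genus `g ≥ 0` with disjoint sections `a_1, ..., a_r`, over a smooth geometrically connected scheme `B`
of finite type over `𝔽` which dominates the moduli space of `r`-pointed curves, and `𝒞 → 𝒮` a family of
Galois covers with the group `G`, ramified only over the `a_j`, with ramification indices which divide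
`N`. For a closed point `b` of `B` let `C` be the fibre of `𝒞` at `b`, a curve over the residue field of
`b`, which has `q` elements. The results hold for all closed points `b` outside a set of density zero.
We write `H_nr (X)` for the prime to `p` part of `H ^ 3_nr (X, ℚ/ℤ(2))`, the group of the question Q1.

**The functor.** For smooth projective `X` there is an exact sequence
`0 → CH ^ 2 (X) → H ^ 4_et (X, ℤ(2)) → H_nr (X) → 0` (up to `p`-torsion; Lichtenbaum, Kahn,
Colliot-Thélène). So `H_nr` is a functor on integral effective Chow motives, the Frobenius acts on it as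
`q ^ 2`, and `H_nr (M ⊗ L) = 0` for the Lefschetz motive `L`, as `CH ^ 1 (X) = H ^ 2_et (X, ℤ(1))`. The
quotient of each primary part of `H_nr (X)` by its maximal divisible subgroup is finite (Colliot-Thélène,
Kahn). Let `H` be the group `H_nr (Z × C ^ n) / H_nr (Z)`.

**Parts.** The notation for local systems and the facts about the Frobenius are those of
`MP_0f183b_ag.RandomCoversTimesVarieties`: the letters are eigenvectors of the Frobenius, and form bases of
the spaces `V_i` (the first cohomology of the local systems), `π` are the eigenvalues of the letters,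
`Λ` is the set of the eigenvalues of the Frobenius on the cohomology of `Z`; for all `b` outside a
set of density zero the Frobenius torus contains a maximal torus of the automorphism group `D` of the
spaces `V_i` (Serre; Chi; monodromy: Boggi, Looijenga, Landesman, Litt, Sawin), which acts trivially on
the cohomology of `Z`, and this gives the structure `Frobenius`. With coefficients in the ring `Ints` of
algebraic integers, and up to factors different from zero, the Chow motive of `C` is the sum of the unit,
of `L`, and of the motives of rank one `M_x` of the letters, and so `HO = H ⊗ Ints` is up to bounded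
groups the direct sum of the groups `H_nr (h(Z) ⊗ M_w)`, where `w` runs through words of positive
length (indices `j : J`) and `M_w` is the tensor product of the motives of its letters. Suppose that
there is an `m` such that `∏ (F - α) ^ m`, `α ∈ Λ`, annihilates the Chow motive of `Z` (this is known if
`Z` is dominated by a product of curves, or if its motive is finite dimensional in the sense of Kimura; it
is enough to know it modulo correspondences with support in `D × Z`, `D ≠ Z`). Then a power of the
product of the `F - α π_w` annihilates `h(Z) ⊗ M_w`, up to a factor. If `w` consists of pairs (a letter and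
its dual) and full blocks (all letters of a space `V_(μ j)` once), then `M_w` is, up to factors, a
Tate twist of the motive of rank one `M_u` which belongs to the character `u = exAll μ` of a Fermat variety of
degree `N` (Schoen; Brauer; Kimura); if `u` is empty or an algebraic line then `M_w` is, over a finite
extension of the field, a positive power of `L` (the number of the letters of `w` is even and positive).
For `c ≥ 0` let `HF c u` be the part which belongs to `h(Z) ⊗ M_u` of the cokernel of
`CH ^ c (X) → H ^ (2 c)_et (X, ℤ(c))` for `X = Z × Y`, `Y` a Fermat variety (for `c = 2` a part of `H_nr (X)`; the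
twists of `M_u` lead to other `c`). The family of the characters of algebraic lines on Fermat varieties
in characteristic `p` is `Admissible` (Shioda, Katsura, Aoki; Tate's theorem for Fermat surfaces;
specialization of algebraic cycles). These facts form the structure `UnramifiedTheory`.

**The theorem.** The group `H_nr (Z × C ^ n) / H_nr (Z)` is finite in each of the following cases; so
**Q1 (prime to `p`) for `Z × C ^ n` is equivalent to Q1 for `Z`.**

(1) All spaces `V_i` have the dimension at least five (many branch points or large genus `g`).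

(2) The covers are unramified.

(3) The cohomology of `Z` contains no nontrivial Weil numbers of Fermat type (`IntegralSlopes`), and
`N ≤ 54`, or `N` is a `GoodDegree`, or a power of `p` is minus one modulo all odd primes
dividing `N`; for instance if `Z` is a point.

(4) The cokernels of `CH ^ c (X) → H ^ (2 c)_et (X, ℤ(c))` have finite exponents for the products `X` of `Z`
with Fermat varieties of degree `N` and all `c` (`HoldsF`; a case of the conjectures of Lichtenbaum).

The Tate conjecture for `Z` is not supposed (the finiteness of Colliot-Thélène and Kahn needs it).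
-/

namespace Pool.Agent.Results.MP_859dd5_ag.RandomCoversUnramified

open Pool.Agent.Q59.GC Pool.Agent.Q59.TC Pool.Agent.Q59.TC.Sys Pool.Agent.Q59.TC.Res
  Pool.Agent.Q59.TC.Fro

/-- The group `H = H_nr (Z × C ^ n) / H_nr (Z)`, embedded by `ι` in `HO = H ⊗ Ints`, with the operators
`part j` (given by correspondences) of the words `word j` of positive length; their sum is a nonzero
factor. The Frobenius acts as `q ^ 2`, and a power of the product of the `F - α π_w` annihilates the part
of `w`, up to a factor. If `w` consists of pairs and full blocks and the exponents of the blocks give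
the empty character or the character of an algebraic line, then the part is bounded, and it is also bounded
if the groups `HF c u` of the Fermat character `u` have finite exponents. For `n ≠ 0` there is an
`n`-divisible subgroup modulo which the `n`-torsion is finite. -/
structure UnramifiedTheory {N : ℕ} {I : Type} {S : LocalSystems N I} {p : ℕ} (Φ : Frobenius S p)
    (A : ∀ M : ℕ, Multiset (ZMod M) → Prop) where
  H : Type
  [addH : AddCommGroup H]
  HO : Type
  [addHO : AddCommGroup HO]
  [modHO : Module Ints HO]
  ι : H →+ HO
  ι_injective : Function.Injective ι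
  J : Type
  [finJ : Fintype J]
  len : J → ℕ
  word : ∀ j, Fin (len j + 1) → Letter S.labels
  part : J → HO →ₗ[Ints] HO
  frob : HO →ₗ[Ints] HO
  sum_part : ∃ a : Ints, a ≠ 0 ∧ ∀ x, ∑ j, part j x = a • x
  frob_eq : ∀ x, frob x = (Φ.q : Ints) ^ 2 • x
  nilpotent : ∀ j, ∃ (m : ℕ) (b : Ints), b ≠ 0 ∧
    ∀ x, b • Polynomial.aeval frob (Φ.poly (word j) ^ m) (part j x) = 0
  HF : ℕ → Multiset (ZMod N) → Type
  [addHF : ∀ c u, AddCommGroup (HF c u)]
  [modHF : ∀ c u, Module Ints (HF c u)]
  lefschetz : ∀ (j : J) (l r : ℕ) (μ : Fin l → I)
    (e : (Σ i : Fin l, Fin (S.labels.dim (μ i))) ⊕ (Fin r × Fin 2) ≃ Fin (len j + 1)),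
    IsDecomposed (word j) μ e → (exAll S.labels μ = 0 ∨ A N (exAll S.labels μ)) → Bounded (part j)
  fermat : ∀ (j : J) (l r : ℕ) (μ : Fin l → I)
    (e : (Σ i : Fin l, Fin (S.labels.dim (μ i))) ⊕ (Fin r × Fin 2) ≃ Fin (len j + 1)),
    IsDecomposed (word j) μ e →
      (∀ c, ∃ b : Ints, b ≠ 0 ∧ ∀ x : HF c (exAll S.labels μ), b • x = 0) → Bounded (part j)
  divisible : ∀ n : ℕ, n ≠ 0 → ∃ (D : AddSubgroup H) (E : Finset H),
    (∀ x ∈ D, ∃ y ∈ D, n • y = x) ∧ ∀ x : H, n • x = 0 → ∃ y ∈ E, x - y ∈ D

attribute [instance] UnramifiedTheory.addH UnramifiedTheory.addHO UnramifiedTheory.modHO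
  UnramifiedTheory.finJ UnramifiedTheory.addHF UnramifiedTheory.modHF

/-- The groups `HF c u` of the products of `Z` with Fermat varieties of degree `N` have finite
exponents. -/
def UnramifiedTheory.HoldsF {N : ℕ} {I : Type} {S : LocalSystems N I} {p : ℕ} {Φ : Frobenius S p}
    {A : ∀ M : ℕ, Multiset (ZMod M) → Prop} (T : UnramifiedTheory Φ A) : Prop :=
  ∀ c u, ∃ b : Ints, b ≠ 0 ∧ ∀ x : T.HF c u, b • x = 0

/-- bounded parts imply finiteness -/
lemma finite_of_bounded {N : ℕ} {I : Type} {S : LocalSystems N I} {p : ℕ} {Φ : Frobenius S p}
    {A : ∀ M : ℕ, Multiset (ZMod M) → Prop} (T : UnramifiedTheory Φ A)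
    (h : ∀ j, Bounded (T.part j)) : Finite T.H := by
  obtain ⟨n, hn, hx⟩ := exponent_of_bounded T.ι T.ι_injective T.part T.sum_part h
  obtain ⟨D, E, hD, hE⟩ := T.divisible n hn
  have h0 : ∀ x ∈ D, x = 0 := by
    intro x hxD
    obtain ⟨y, -, hy⟩ := hD x hxD
    rw [← hy, hx]
  refine Finite.of_surjective (fun y : E => (y : T.H)) fun x => ?_
  obtain ⟨y, hy, hxy⟩ := hE x (hx x)
  exact ⟨⟨y, hy⟩, (sub_eq_zero.mp (h0 _ hxy)).symm⟩

/-- **Unramified cohomology of the products of a given variety with powers of random covers of pointed
curves over finite fields.** -/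
theorem result (p : ℕ) (hp : p.Prime) (N : ℕ) [NeZero N] (hpN : p.Coprime N) (I : Type) [Fintype I]
    (S : LocalSystems N I) (Φ : Frobenius S p) (A : ∀ M : ℕ, Multiset (ZMod M) → Prop)
    (hA : Admissible p A) (T : UnramifiedTheory Φ A) :
    ((∀ i, 5 ≤ S.labels.dim i) → Finite T.H) ∧
    ((∀ i, S.ex i = 0) → Finite T.H) ∧
    (IntegralSlopes Φ → KnownDegree p N → Finite T.H) ∧
    (T.HoldsF → Finite T.H) := by
  have hno : ∀ j, (¬ ∃ α ∈ Φ.Λ, α * ∏ k, Φ.π (T.word j k) = (Φ.q : Ints) ^ 2) →
      Bounded (T.part j) := fun j h =>
    Φ.bounded_of_no_resonance (T.part j) T.frob 2 (fun x => T.frob_eq _) (T.word j) (T.nilpotent j) h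
  refine ⟨fun hd => finite_of_bounded T fun j => ?_, fun hex => finite_of_bounded T fun j => ?_,
    fun hInt hN => finite_of_bounded T fun j => ?_, fun hF => finite_of_bounded T fun j => ?_⟩
  · by_cases h : ∃ α ∈ Φ.Λ, α * ∏ k, Φ.π (T.word j k) = (Φ.q : Ints) ^ 2
    · obtain ⟨hs, l, r, μ, e, hdec, -⟩ := Φ.resonance hp hpN 2 _ (T.word j) h
      have hl : l = 0 := by
        by_contra hl
        have h1 := Fintype.card_congr e
        simp only [Fintype.card_sum, Fintype.card_sigma, Fintype.card_fin, Fintype.card_prod] at h1
        have h2 : S.labels.dim (μ ⟨0, Nat.pos_of_ne_zero hl⟩) ≤ ∑ i, S.labels.dim (μ i) :=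
          Finset.single_le_sum (f := fun i => S.labels.dim (μ i)) (fun i _ => Nat.zero_le _)
            (Finset.mem_univ _)
        have h3 := hd (μ ⟨0, Nat.pos_of_ne_zero hl⟩)
        omega
      subst hl
      refine T.lefschetz j 0 r μ e hdec (Or.inl ?_)
      unfold exAll
      simp
    · exact hno j h
  · by_cases h : ∃ α ∈ Φ.Λ, α * ∏ k, Φ.π (T.word j k) = (Φ.q : Ints) ^ 2
    · obtain ⟨-, l, r, μ, e, hdec, -⟩ := Φ.resonance hp hpN 2 _ (T.word j) h
      exact T.lefschetz j l r μ e hdec (Or.inl (Finset.sum_eq_zero fun i _ => hex (μ i)))
    · exact hno j h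
  · by_cases h : ∃ α ∈ Φ.Λ, α * ∏ k, Φ.π (T.word j k) = (Φ.q : Ints) ^ 2
    · obtain ⟨-, l, r, μ, e, hdec, hl⟩ := Φ.resonance hp hpN 2 _ (T.word j) h
      exact T.lefschetz j l r μ e hdec (Or.inr (hl hInt hN A hA))
    · exact hno j h
  · by_cases h : ∃ α ∈ Φ.Λ, α * ∏ k, Φ.π (T.word j k) = (Φ.q : Ints) ^ 2
    · obtain ⟨-, l, r, μ, e, hdec, -⟩ := Φ.resonance hp hpN 2 _ (T.word j) h
      exact T.fermat j l r μ e hdec fun c => hF c _
    · exact hno j h

end Pool.Agent.Results.MP_859dd5_ag.RandomCoversUnramified
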