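import Pool.Agent.Q239.RT.Sharp

/-!
# Homogeneous subsets of sets of small doubling in torsion-free groups

`φ 0, ..., φ (d-1)` are homomorphisms to a torsion-free group which together are injective, for
instance the coordinates of `ℤ ^ d`. A finite set `B` is homogeneous if for every `k` the number of
the values of `φ k` on the elements of `B` with given values of `φ j` for all `j < k` is `0` or a
constant `n k`: the tree of the tuples `(φ 0 x, φ 1 x, ...)` has the same number of branches at all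
nodes of a level.

Proof of (1): the `n` for which `A` contains a homogeneous subset with sizes `n + 1` form a down-set
`D(A)` of the integer points of an orthant with `|A|` elements, and `D(A) + D(A') ⊆ D(A + A')` by
Kneser's theorem (Cauchy-Davenport) in a torsion-free group; a functional inequality of
Prekopa-Leindler type for `n ↦ max(n, m)` gives a box of `|A| ^ 2 / |D(8A)|` points in `D(A)`.
Proof of (2): the sumset of two homogeneous trees fibre by fibre, and the chain rule for the entropy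
of the sum of two independent uniform elements.
-/

set_option autoImplicit false

namespace Pool.Agent.Results.MP_86f7a7_co.HomogeneousSubsets

open Finset
open scoped Pointwise

section defs

variable {G Γ : Type*} [AddCommGroup G] [AddCommGroup Γ] [DecidableEq Γ] {d : ℕ}

/-- the values of `φ k` at the elements of `B` at which `φ j` has the same value as at `b` for all
`j < k` -/
def fibre (φ : Fin d → (G →+ Γ)) (B : Finset G) (b : G) (k : Fin d) : Finset Γ :=
  (B.filter (fun x => ∀ j, j < k → φ j x = φ j b)).image (φ k)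

/-- `B` is nonempty and homogeneous with fibre sizes `n` -/
def Homogeneous (φ : Fin d → (G →+ Γ)) (B : Finset G) (n : Fin d → ℕ) : Prop :=
  B.Nonempty ∧ ∀ b ∈ B, ∀ k, (fibre φ B b k).card = n k

/-- the number of representations of `z` as `x + y` with `x` in `S`, `y` in `T` -/
def rep (S T : Finset Γ) (z : Γ) : ℕ := ((S ×ˢ T).filter (fun p => p.1 + p.2 = z)).card

/-- the Shannon entropy of `x + y` for independent uniform elements `x` of `S` and `y` of `T` -/
noncomputable def ent (S T : Finset Γ) : ℝ :=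
  ∑ z ∈ S + T, Real.negMulLog ((rep S T z : ℝ) / (S.card * T.card))

/-- the set of the points of a progression -/
def prog {r : ℕ} (a : Γ) (v : Fin r → Γ) (N : Fin r → ℕ) : Set Γ :=
  {x | ∃ m : Fin r → ℕ, (∀ i, m i < N i) ∧ x = a + ∑ i, m i • v i}

/-- a progression of rank at most `L` with at most `L |A|` elements has at least `|A| / L` elements
of `A` -/
def Conclusion (A : Finset Γ) (L : ℝ) : Prop :=
  ∃ (r : ℕ) (a : Γ) (v : Fin r → Γ) (N : Fin r → ℕ),
    (r : ℝ) ≤ L ∧ ((prog a v N).ncard : ℝ) ≤ L * A.card ∧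
      (A.card : ℝ) ≤ L * (((A : Set Γ) ∩ prog a v N).ncard : ℝ)

end defs

/-- the `k`-th coordinate -/
def coord (d : ℕ) (k : Fin d) : (Fin d → ℤ) →+ ℤ := Pi.evalAddMonoidHom (fun _ => ℤ) k

/-- Q1 -/
def Q1 : Prop := ∃ C : ℝ, 1 ≤ C ∧ ∀ (Z : Type) [AddCommGroup Z] [DecidableEq Z],
  (∀ (n : ℕ) (x : Z), n ≠ 0 → n • x = 0 → x = 0) →
  ∀ (K : ℝ) (A : Finset Z), 1 ≤ K → A.Nonempty → ((A + A).card : ℝ) ≤ K * A.card →
    Conclusion A (C * K ^ C)

/-- Q1 for the subsets of `ℤ ^ d` which are homogeneous for the coordinates -/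
def Q1Homogeneous : Prop := ∃ C : ℝ, 1 ≤ C ∧
  ∀ (d : ℕ) (n : Fin d → ℕ) (K : ℝ) (B : Finset (Fin d → ℤ)),
    1 ≤ K → Homogeneous (coord d) B n → ((B + B).card : ℝ) ≤ K * B.card → Conclusion B (C * K ^ C)

/-- **Homogeneous subsets of all sets of small doubling.**
(1) For all homomorphisms `φ k`, `k < d`, of `G` to a torsion-free group with trivial common kernel,
every nonempty finite `A ⊆ G` has a homogeneous subset `B` with `|A| ^ 2 ≤ |8A| |B|`; if
`|A + A| ≤ K |A|`, then `|A| ≤ K ^ 8 |B|` and `|B + B| ≤ K ^ 9 |B|`.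
(2) If `B` is homogeneous with sizes `n` and `|B + B| ≤ K |B|`, then `|B| = ∏ n k`, the `φ k` with
`n k ≥ 2` are together injective on `B`, there are at most `log K / log (3/2)` of them, the entropy
of the sum of two fibres of level `k` (uniform and independent) exceeds `log (n k)` by a number
which is at least 0 and whose average over the pairs of elements of `B`, summed over all levels, is
at most `log K`, and there is a fibre `S k` at each level with `∏ |S k + S k| ≤ K ^ 2 ∏ |S k|`.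
(3) Q1 is equivalent to Q1 for homogeneous sets of integer points.
(4) The loss in (1) is a power of `K` in general: there is `A ⊆ ℤ ^ d` with `|A| = d` and
`|A + A| ≤ K |A|` for `K = (d + 1) / 2` whose homogeneous subsets have at most 2 elements. -/
theorem result :
    (∀ (G Γ : Type*) [DecidableEq G] [DecidableEq Γ] [AddCommGroup G] [AddCommGroup Γ]
      [IsAddTorsionFree Γ] (d : ℕ) (φ : Fin d → (G →+ Γ)), (∀ x, (∀ k, φ k x = 0) → x = 0) →
      ∀ A : Finset G, A.Nonempty → ∃ B ⊆ A, ∃ n : Fin d → ℕ, Homogeneous φ B n ∧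
        (A.card : ℝ) ^ 2 ≤ ((8:ℕ) • A).card * B.card ∧
        ∀ K : ℝ, ((A + A).card : ℝ) ≤ K * A.card →
          (A.card : ℝ) ≤ K ^ 8 * B.card ∧ ((B + B).card : ℝ) ≤ K ^ 9 * B.card) ∧
    (∀ (G Γ : Type*) [DecidableEq G] [DecidableEq Γ] [AddCommGroup G] [AddCommGroup Γ]
      [IsAddTorsionFree Γ] (d : ℕ) (φ : Fin d → (G →+ Γ)), (∀ x, (∀ k, φ k x = 0) → x = 0) →
      ∀ (B : Finset G) (n : Fin d → ℕ), Homogeneous φ B n →
      ∀ K : ℝ, ((B + B).card : ℝ) ≤ K * B.card →
        B.card = ∏ k, n k ∧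
        (∀ x ∈ B, ∀ y ∈ B, (∀ k, 2 ≤ n k → φ k x = φ k y) → x = y) ∧
        ((univ.filter (fun k => 2 ≤ n k)).card : ℝ) * Real.log (3 / 2) ≤ Real.log K ∧
        (∀ k, ∀ b ∈ B, ∀ b' ∈ B, Real.log (n k) ≤ ent (fibre φ B b k) (fibre φ B b' k)) ∧
        (∑ k, ∑ b ∈ B, ∑ b' ∈ B, (ent (fibre φ B b k) (fibre φ B b' k) - Real.log (n k)) ≤
          (B.card : ℝ) ^ 2 * Real.log K) ∧
        ∃ c : Fin d → G, (∀ k, c k ∈ B) ∧
          ∏ k, ((fibre φ B (c k) k + fibre φ B (c k) k).card : ℝ) ≤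
            K ^ 2 * ∏ k, ((fibre φ B (c k) k).card : ℝ)) ∧
    (Q1 ↔ Q1Homogeneous) ∧
    (∀ d : ℕ, 1 ≤ d → ∃ A : Finset (Fin d → ℤ), A.card = d ∧
      ((A + A).card : ℝ) ≤ ((d : ℝ) + 1) / 2 * A.card ∧
      ∀ B ⊆ A, ∀ n : Fin d → ℕ, Homogeneous (coord d) B n → B.card ≤ 2) := by
  refine ⟨?_, ?_, ?_, ?_⟩
  · intro G Γ _ _ _ _ _ d φ hφ A hA
    obtain ⟨B, h1, n, h2, h3, h4⟩ := Q239.RT.exists_homogeneousK φ hφ A hA
    exact ⟨B, h1, n, ⟨h2, h3⟩, h4⟩
  · intro G Γ _ _ _ _ _ d φ hφ B n hB K hK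
    exact Q239.RT.rigidK φ hφ B n hB.1 hB.2 K hK
  · refine Iff.trans (show Q1 ↔ Q239.RT.Q1 from Iff.rfl) (Q239.RT.Q1_iff.trans ?_)
    constructor
    · rintro ⟨C, hC, h⟩
      exact ⟨C, hC, fun d n K B hK hB hBB => h d n K B hK hB.1 hBB hB.2⟩
    · rintro ⟨C, hC, h⟩
      exact ⟨C, hC, fun d n K B hK hB hBB hB2 => h d n K B hK ⟨hB, hB2⟩ hBB⟩
  · intro d hd
    obtain ⟨A, h1, h2, h3⟩ := Q239.RT.sharp d hd
    exact ⟨A, h1, h2, fun B hB n hn => h3 B hB n hn.1 hn.2⟩

end Pool.Agent.Results.MP_86f7a7_co.HomogeneousSubsets
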