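import Pool.Agent.Q241.DT.Fin

/-!
# The pair correlation conjecture and determinantal processes

No hypothesis is assumed (in particular not the Riemann hypothesis).  A stationary determinantal
process on the line with Hermitian kernel `K(x - y)` and finite intensity is given by its symbol, a
measurable function `φ : ℝ → [0, 1]` with finite integral, `K(u) = ∫ φ(t) exp(2 π i u t) dt`
(Macchi, Soshnikov).  Its intensity is `∫ φ` and the density of its pairs at distance `u` is
`(∫ φ)² - |K(u)|²`.  A mixture of such processes is given by a probability space `Ω` and a jointly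
measurable family `φ ω` of symbols; the density of its pairs is
`R(u) = ∫ ((∫ φ ω)² - |K_ω(u)|²) dμ(ω)`.  The mean intensity is assumed to be one (`Mixture`), as it
is for the zeros.

**Theorem.** If the pair counts of the zeros are, at large distances and up to an exponentially small
loss, asymptotically at least as large as those of SOME mixture of stationary determinantal
processes of mean intensity one, then the pair correlation conjecture (Q1) holds, and almost all
components of the mixture are the sine process (`φ ω` is the indicator of an interval of length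
one).  Conversely Q1 gives such a lower bound.  So Q1 is equivalent to such a lower bound.

Idea of the proof.  Test the pair counts with an average of Fejer kernels of scale `1/δ`, `δ → 0`.
Without hypothesis the result is known up to `O(δ²)`.  Order `1/δ` of the lower bound gives
`E (∫ φ)² ≤ 1`, so all components have intensity one.  Order `1` gives `E ∫ φ² ≥ 1`, so all the
symbols are indicators of sets, the zeros are almost all simple and on the line, and the result of
the test is known up to `o(1)` for fixed `δ`.  Order `δ` gives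
`E liminf (1 - ∫ φ(t) φ(t + α) dt) / |α| ≤ 1` as `α → 0`; but this lower limit is at least one for
every set, and at least two for a set which is not an interval.
-/

open Filter Topology MeasureTheory

namespace Pool.Agent.Results.MP_8958e8_nt.DeterminantalLowerBound

/-- the nontrivial zeros of `ζ` with ordinate in `[0, T]` -/
def zeros (T : ℝ) : Set ℂ :=
  {s : ℂ | riemannZeta s = 0 ∧ 0 < s.re ∧ s.re < 1 ∧ 0 ≤ s.im ∧ s.im ≤ T}

/-- the multiplicity of a zero -/
noncomputable def mult (s : ℂ) : ℕ := analyticOrderNatAt riemannZeta s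

/-- `N(T; α, β)` as in the problem: the number of ordered pairs of ordinates in `[0, T]`, counted
with multiplicity, whose normalised difference lies in `[α, β]` -/
noncomputable def N (T α β : ℝ) : ℕ :=
  ∑ᶠ p ∈ {p : ℂ × ℂ | p.1 ∈ zeros T ∧ p.2 ∈ zeros T ∧
    α ≤ (p.1.im - p.2.im) * Real.log T / (2 * Real.pi) ∧
    (p.1.im - p.2.im) * Real.log T / (2 * Real.pi) ≤ β}, mult p.1 * mult p.2

/-- the same with the normalised difference in `(0, β]` -/
noncomputable def N0 (T β : ℝ) : ℕ :=
  ∑ᶠ p ∈ {p : ℂ × ℂ | p.1 ∈ zeros T ∧ p.2 ∈ zeros T ∧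
    0 < (p.1.im - p.2.im) * Real.log T / (2 * Real.pi) ∧
    (p.1.im - p.2.im) * Real.log T / (2 * Real.pi) ≤ β}, mult p.1 * mult p.2

/-- the pair correlation function -/
noncomputable def F (u : ℝ) : ℝ := 1 - (Real.sin (Real.pi * u) / (Real.pi * u)) ^ 2

/-- the normalisation -/
noncomputable def X (T : ℝ) : ℝ := T * Real.log T / (2 * Real.pi)

/-- the conjecture (Q1) -/
def Mont : Prop := ∀ α β : ℝ, 0 < α → α < β →
  Tendsto (fun T => (N T α β : ℝ) / (X T * ∫ u in α..β, F u)) atTop (𝓝 1)

/-- the symbols `φ ω` of a mixture of stationary determinantal processes of mean intensity one -/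
structure Mixture {Ω : Type} [MeasurableSpace Ω] (μ : Measure Ω) (φ : Ω → ℝ → ℝ) : Prop where
  prob : IsProbabilityMeasure μ
  meas : Measurable (Function.uncurry φ)
  nonneg : ∀ ω t, 0 ≤ φ ω t
  le_one : ∀ ω t, φ ω t ≤ 1
  int : ∀ ω, Integrable (φ ω)
  mean : ∫ ω, ∫ t, φ ω t ∂volume ∂μ = 1
  sq : Integrable (fun ω => (∫ t, φ ω t) ^ 2) μ

/-- the kernel of the process with symbol `f` -/
noncomputable def K (f : ℝ → ℝ) (u : ℝ) : ℂ :=
  ∫ t : ℝ, (f t : ℂ) * Complex.exp (2 * Real.pi * u * t * Complex.I)

/-- the density of the pairs at distance `u` of the mixture -/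
noncomputable def R {Ω : Type} [MeasurableSpace Ω] (μ : Measure Ω) (φ : Ω → ℝ → ℝ) (u : ℝ) : ℝ :=
  ∫ ω, ((∫ t, φ ω t) ^ 2 - ‖K (φ ω) u‖ ^ 2) ∂μ

/-- the pair counts of the zeros are asymptotically at least those of the mixture, at large
distances, with an exponentially small loss -/
def LowBy {Ω : Type} [MeasurableSpace Ω] (μ : Measure Ω) (φ : Ω → ℝ → ℝ) : Prop :=
  ∃ C c A : ℝ, 0 < c ∧ ∀ β : ℝ, A ≤ β → ∀ ε : ℝ, 0 < ε → ∀ᶠ T : ℝ in atTop,
    ((∫ u in (0 : ℝ)..β, R μ φ u) - C * Real.exp (-(c * β)) - ε) * X T ≤ N0 T β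

/-- Without hypothesis: (1) if the pair counts of the zeros are asymptotically at least those of some
mixture of stationary determinantal processes, at large distances and up to an exponentially small
loss, then the pair correlation conjecture holds and almost all components of the mixture are sine
processes; (2) the conjecture is equivalent to the existence of such a lower bound. -/
theorem result :
    (∀ (Ω : Type) [MeasurableSpace Ω] (μ : Measure Ω) (φ : Ω → ℝ → ℝ), Mixture μ φ → LowBy μ φ →
      Mont ∧ ∀ᵐ ω ∂μ, ∃ a : ℝ, φ ω =ᵐ[volume] (Set.Ioo a (a + 1)).indicator fun _ => (1 : ℝ)) ∧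
    (Mont ↔ ∃ (Ω : Type) (_ : MeasurableSpace Ω) (μ : Measure Ω) (φ : Ω → ℝ → ℝ),
      Mixture μ φ ∧ LowBy μ φ) := by
  have h1 : ∀ (Ω : Type) [MeasurableSpace Ω] (μ : Measure Ω) (φ : Ω → ℝ → ℝ), Mixture μ φ →
      LowBy μ φ → Mont ∧ ∀ᵐ ω ∂μ, ∃ a : ℝ,
        φ ω =ᵐ[volume] (Set.Ioo a (a + 1)).indicator fun _ => (1 : ℝ) := by
    intro Ω _ μ φ hm hl
    have := hm.prob
    exact Q241.DT.mont_of ⟨hm.meas, hm.nonneg, hm.le_one, hm.int, hm.mean, hm.sq⟩ hl
  refine ⟨h1, fun h => ?_, fun ⟨Ω, _, μ, φ, hm, hl⟩ => (h1 Ω μ φ hm hl).1⟩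
  have hs := Q241.DT.sn_mix
  exact ⟨Unit, inferInstance, Measure.dirac (), Q241.DT.sn,
    ⟨inferInstance, hs.meas, hs.nonneg, hs.le_one, hs.int, hs.mean, hs.sq⟩, Q241.DT.of_mont h⟩

end Pool.Agent.Results.MP_8958e8_nt.DeterminantalLowerBound
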