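import Pool.Agent.Q241.OP.Fin8

/-!
# Pair correlation without the Riemann hypothesis: one side, and wide windows, suffice

No hypothesis is assumed.  `N T α β` is the number of pairs `N(T; α, β)` of the problem, and
`X T = (T / 2π) log T`.

Idea of the proof.  For small `δ` the unconditional form of Montgomery's theorem is applied to the
even function `k(x) = ∫_1^2 sinc²(π δ R x) dR / R`, which is band-limited and decreasing on
`[0, ∞)`; the zeros off the line enter with an error `O(δ²)`, while `k(0) = log 2`.  Partial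
summation turns the pair sum into `(diagonal) log 2 + ∫ (number of pairs with difference ≤ y) g(y) dy`
with `g = -k' ≥ 0`, a mass which moves to infinity as `δ → 0`.  Hence lower bounds for wide windows
bound the diagonal, which contains the multiple zeros and the pairs of zeros symmetric about the
critical line.  Once almost all zeros are on the line there is no error term, and the one-sided
information can be closed.
-/

open Filter Topology

namespace Pool.Agent.Results.MP_8958e8_nt.WideWindows

/-- the nontrivial zeros of `ζ` with ordinate in `[0, T]` -/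
def zeros (T : ℝ) : Set ℂ :=
  {s : ℂ | riemannZeta s = 0 ∧ 0 < s.re ∧ s.re < 1 ∧ 0 ≤ s.im ∧ s.im ≤ T}

/-- the multiplicity of a zero (order of vanishing) -/
noncomputable def mult (s : ℂ) : ℕ := analyticOrderNatAt riemannZeta s

/-- `N(T; α, β)` as in the problem: the number of ordered pairs of ordinates in `[0, T]`, with
multiplicity, with difference times `log T / (2π)` in `[α, β]` -/
noncomputable def N (T α β : ℝ) : ℕ :=
  ∑ᶠ p ∈ {p : ℂ × ℂ | p.1 ∈ zeros T ∧ p.2 ∈ zeros T ∧
    α ≤ (p.1.im - p.2.im) * Real.log T / (2 * Real.pi) ∧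
    (p.1.im - p.2.im) * Real.log T / (2 * Real.pi) ≤ β}, mult p.1 * mult p.2

/-- the pair correlation function -/
noncomputable def F (u : ℝ) : ℝ := 1 - (Real.sin (Real.pi * u) / (Real.pi * u)) ^ 2

/-- `(T / 2π) log T` -/
noncomputable def X (T : ℝ) : ℝ := T * Real.log T / (2 * Real.pi)

/-- the number of nontrivial zeros with ordinate in `(0, T]` and property `A`, counted with
multiplicity -/
noncomputable def Num (A : ℂ → Prop) (T : ℝ) : ℕ :=
  ∑ᶠ s ∈ {s : ℂ | s ∈ {s : ℂ | riemannZeta s = 0 ∧ 0 < s.re ∧ s.re < 1} ∧ 0 < s.im ∧ s.im ≤ T ∧ A s},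
    mult s

/-- almost all zeros are simple and on the critical line -/
def Good : Prop := Tendsto (fun T => (Num (fun s => s.re ≠ 1 / 2 ∨ deriv riemannZeta s = 0) T : ℝ) /
  Num (fun _ => True) T) atTop (𝓝 0)

/-- the lower limit of `N(T; α, β) / X(T)` is at least `c` -/
def Low (α β c : ℝ) : Prop := ∀ ε : ℝ, 0 < ε → ∀ᶠ T : ℝ in atTop, (c - ε) * X T ≤ N T α β

/-- the lower half of the conjecture for windows `[α, β]` with `α` near `0` and `β` large, up to `η`
and an error which tends to zero as `β → ∞` (by monotonicity in `α` it is enough to ask for one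
`α`) -/
def LowLarge (η : ℝ) : Prop := ∀ ε : ℝ, 0 < ε → ∃ A : ℝ, ∀ β : ℝ, A ≤ β → ∃ α : ℝ, 0 < α ∧
  Low α β ((∫ u in (0 : ℝ)..β, F u) - (η + ε))

/-- the asymptotic formula of the conjecture for one window -/
def As (α β : ℝ) : Prop :=
  Tendsto (fun T => (N T α β : ℝ) / (X T * ∫ u in α..β, F u)) atTop (𝓝 1)

/-- the conjecture (Q1) -/
def Mont : Prop := ∀ α β : ℝ, 0 < α → α < β →
  Tendsto (fun T => (N T α β : ℝ) / (X T * ∫ u in α..β, F u)) atTop (𝓝 1)

/-- one-sided bound (upper for `s = 1`, lower for `s = -1`) for the windows `[a, a + ℓ]`, for all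
large `a`, with an exponentially small loss -/
def Win (ℓ s : ℝ) : Prop := ∃ C c A : ℝ, 0 < C ∧ 0 < c ∧ 0 < A ∧ ∀ a : ℝ, A ≤ a →
  ∀ ε : ℝ, 0 < ε → ∀ᶠ T : ℝ in atTop,
    s * ((N T a (a + ℓ) : ℝ) / X T - ∫ u in a..(a + ℓ), F u) ≤ C * Real.exp (-(c * a)) + ε

/-- Without hypothesis:
(1) if `η ≥ 0` and the lower half of the conjecture holds for wide windows up to `η`, then the
proportion of the zeros which are multiple or off the critical line has upper limit at most `2η`;
(2) the lower half of the conjecture implies the conjecture, and that almost all zeros are simple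
and on the critical line;
(3) if almost all zeros are on the critical line, then the conjecture is equivalent to one-sided
bounds, with exponentially small loss, for the windows of two incommensurable lengths;
(4) the conjecture is equivalent to its lower half for wide windows (up to an error tending to
zero) together with the bounds in (3);
(5) if the asymptotic formula holds for the windows `[α, β]` with `0 < α < κ` and `β ≥ A`, for some
`κ > 0` and some `A`, then the conjecture holds, and almost all zeros are simple and on the critical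
line. -/
theorem result :
    (∀ η : ℝ, 0 ≤ η → LowLarge η → ∀ ε : ℝ, 0 < ε → ∀ᶠ T : ℝ in atTop,
      (Num (fun s => s.re ≠ 1 / 2 ∨ deriv riemannZeta s = 0) T : ℝ) ≤
        (2 * η + ε) * Num (fun _ => True) T) ∧
    ((∀ α β : ℝ, 0 < α → α < β → Low α β (∫ u in α..β, F u)) → Mont ∧ Good) ∧
    (Tendsto (fun T => (Num (fun s => s.re ≠ 1 / 2) T : ℝ) / Num (fun _ => True) T) atTop (𝓝 0) →
      ∀ ℓ₁ ℓ₂ s₁ s₂ : ℝ, 0 < ℓ₁ → 0 < ℓ₂ → Irrational (ℓ₁ / ℓ₂) → (s₁ = 1 ∨ s₁ = -1) →
        (s₂ = 1 ∨ s₂ = -1) → (Mont ↔ Win ℓ₁ s₁ ∧ Win ℓ₂ s₂)) ∧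
    (∀ ℓ₁ ℓ₂ s₁ s₂ : ℝ, 0 < ℓ₁ → 0 < ℓ₂ → Irrational (ℓ₁ / ℓ₂) → (s₁ = 1 ∨ s₁ = -1) →
      (s₂ = 1 ∨ s₂ = -1) → (Mont ↔ LowLarge 0 ∧ Win ℓ₁ s₁ ∧ Win ℓ₂ s₂)) ∧
    (∀ κ A : ℝ, 0 < κ → (∀ α β : ℝ, 0 < α → α < κ → α < β → A ≤ β → As α β) → Mont ∧ Good) :=
  Q241.OP.G.main

end Pool.Agent.Results.MP_8958e8_nt.WideWindows
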