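import Pool.Agent.Q138.PS.XN
import Pool.Agent.Results.MP_896029_ag.SectionsNearBranchPoint
import Pool.Agent.Results.MP_896029_ag.BranchPoints
import Pool.Agent.Results.MP_896029_ag.LiftableSectionsOfTwists

/-!
# Sections of the fundamental groups of the twists by integers near the powers of a real number

For almost every real `α > 1`, all positive algebraic numbers `c`, all integers `j`, all `D`, `κ` and `ε > 0` the following
properties hold for the squarefree part `d` of ALL integers `m ≠ 0` with `| |m| - c n ^ j α ^ n| ≤ D n ^ κ`, for all but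
`N ^ (max 0 (1 + κ - δ) + ε)` of the `n ≤ N`.
(1) (some `δ > 0`) All sections of the fundamental group of `d y² = ∏ k, f k (x)` (and of its open subcurves and coverings) have
modulo 2 the type of one and the same rational branch point.
(2) (`δ = 1 / 5`) Every section for `d y² = ∏ (x - e i)` is attached modulo 2 to exactly one branch point, and, if suitable
elliptic quotients have rank zero, every liftable section is valuative.
-/

set_option autoImplicit false

universe v w

open Finset Filter Topology MeasureTheory Polynomial
open Pool.Agent.Q138.PS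

namespace Pool.Agent.Results.MP_896029_ag.AllSectionsNearPowers

open Pool.Agent.Results.MP_896029_ag.SectionsNearBranchPoint (Factors General Ln OtherSection)
open Pool.Agent.Results.MP_896029_ag.BranchPoints (SectionsAttached CrossRatio)
open Pool.Agent.Results.MP_896029_ag.LiftableSectionsOfTwists (FourPoints LiftableSectionsAreValuative)

theorem countable_pol : Countable ℤ[X] :=
  Cardinal.mk_le_aleph0_iff.1 (by
    refine (Polynomial.cardinalMk_le_max (R := ℤ)).trans ?_
    simp)

/-- **Theorem.** For almost every real number `α > 1`:
(1) for all polynomials `f k ∈ ℤ[x]`, irreducible over `ℚ`, pairwise non-associated, of even total degree, at least four of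
odd degree and at least one linear, the linear factors in general position, there is `δ > 0` such that for all but few `n` (see
`NearFew`) no section for the twist `d y² = ∏ k, f k (x)`, `d` the squarefree part of an integer near `± c n ^ j α ^ n`, has
a type different from that of the zero of a linear factor;
(2) for an even number `≥ 6` of different integers `e i` with `CrossRatio`, for all but few `n` (`δ = 1 / 5`) the sections for
`d y² = ∏ (x - e i)` are attached modulo 2 to exactly one branch point, and, with `FourPoints`, its liftable sections are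
valuative. -/
theorem result : ∀ᵐ α : ℝ, 1 < α → ∀ k : ℕ,
      (∀ f : Fin k → ℤ[X], Factors f → General f → (Ln f).Nonempty →
        ∃ δ : ℝ, 0 < δ ∧ NearFew α δ (SqPart fun d => ¬ OtherSection.{v, w} f d)) ∧
      (∀ e : Fin k → ℤ, Function.Injective e → Even k → 6 ≤ k → CrossRatio e →
        NearFew α (1 / 5) (SqPart fun d => SectionsAttached.{0, v, w} (fun i => (e i : ℚ)) (d : ℚ)) ∧
        (FourPoints e → NearFew α (1 / 5) (SqPart fun d => LiftableSectionsAreValuative e d))) := by
  classical
  have := countable_pol
  filter_upwards [pow_ae_sqf (ι := Σ k : ℕ, (Fin k → ℤ[X])) (fun i d => OtherSection.{v, w} i.2 d),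
    pow_ae_sqf (ι := Σ k : ℕ, (Fin k → ℤ)) (fun i d => ¬ SectionsAttached.{0, v, w} (fun j => (i.2 j : ℚ)) (d : ℚ)),
    pow_ae_sqf (ι := Σ k : ℕ, (Fin k → ℤ)) (fun i d => ¬ LiftableSectionsAreValuative i.2 d)] with α h1 h2 h3 hα k
  refine ⟨fun f hF hG hL => ?_, fun e he hev hk hCR => ⟨?_, fun hE => ?_⟩⟩
  · obtain ⟨δ, hδ, C, hC⟩ := MP_896029_ag.SectionsNearBranchPoint.result.{v, w} (Fin k) f hF hG hL
    exact ⟨δ, hδ, h1 hα ⟨k, f⟩ δ hδ ⟨C, hC⟩⟩
  · obtain ⟨C, hC⟩ := MP_896029_ag.BranchPoints.result.{v, w}.1 (Fin k) e he (by simpa using hev)
      (by simpa using hk) hCR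
    have h4 := h2 hα ⟨k, e⟩ (1 / 5) (by norm_num) ⟨C, fun Y hY => hC Y (by omega)⟩
    simpa only [not_not] using h4
  · obtain ⟨C, hC⟩ := MP_896029_ag.LiftableSectionsOfTwists.result (Fin k) e he (by simpa using hev)
      (by simpa using hk) hCR hE
    have h4 := h3 hα ⟨k, e⟩ (1 / 5) (by norm_num) ⟨C, fun Y hY => hC Y (by omega)⟩
    simpa only [not_not] using h4

end Pool.Agent.Results.MP_896029_ag.AllSectionsNearPowers
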