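import Pool.Agent.Q173.WD.Main

/-!
# The local Euler factors of the products with Tate curves determine the Weil–Deligne representations

For an elliptic curve `E` over `ℚ` with split multiplicative reduction at `p` the kernel of `N` on `V ⊗ H^1(E)` is the
kernel of `N ^ 2` on `V`, and the kernel of `N ^ m` on `V ⊗ H^1(E)` is the sum of the kernel of `N ^ (m + 1)` on `V` and a
Tate twist of the kernel of `N ^ (m - 1)` on `V`. So the statement of Q1 (the Euler factors at `p`, i.e. the
characteristic polynomials of the Frobenius on the inertia invariants, have integral coefficients and do not depend on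
`ℓ ≠ p`) for all smooth projective varieties is EQUIVALENT to the same statement for the whole Weil–Deligne
representations: for all the kernels of the powers of `N`, over all finite extensions of `ℚ_p`.
-/

set_option autoImplicit false

namespace Pool.Agent.Results.MP_898f40_nt.EulerFactorsDetermine

open Pool.Agent.Q173.WD

variable {p : ℕ} [hp : Fact p.Prime] {W : Type} [Group W] [TopologicalSpace W] {C : Type*}

/-- The statement of Q1 for the prime `p` and the varieties of the class `C`: for all `X`, `n` and every geometric
Frobenius element `F` the polynomial `det(1 - T F)` on the inertia invariants (the invariants of the inertia group in the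
kernel of `N`) has integral coefficients and does not depend on `ℓ`. -/
def Q1 (T : Theory p W C) (ν : W →* Multiplicative ℤ) : Prop :=
  ∀ (X : C) (F : W), dg ν F = 1 → T.Good ν ⊤ F 1 X

/-- Let `C` be a class of smooth projective varieties over `ℚ` (or a class of smooth proper varieties) which contains
with `X` also `X × E`, `E` a fixed elliptic curve over `ℚ` with split multiplicative reduction at `p`, and `X × Spec L`
for the number fields `L` with one prime above `p`.

(1) For every `X` in `C`, every finite extension `K` of `ℚ_p` (with Weil group `U` and Frobenius element `w`) and all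
`k₀`: the Euler factors over `K` of the varieties `X × E ^ k`, `k ≤ k₀`, have integral coefficients and do not depend on
`ℓ` if and only if this is true for the polynomials `det(1 - T w)` on the inertia invariants of `H^n(X)` in the kernel of
`N ^ m`, for all `m ≤ k₀ + 1` and all `n`.

(2) Q1 holds for `C` if and only if for all `X`, `n`, `m` and all finite extensions of `ℚ_p` the polynomials
`det(1 - T w)` on the inertia invariants in the kernel of `N ^ m` have integral coefficients and do not depend on `ℓ`.

(3) If Q1 holds for `C`, then for all `X`, `n`, `m` and all `w` of positive degree in the Weil group of `ℚ_p` the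
characteristic polynomial of `w` on the kernel of `N ^ m` on `H^n(X)` has integral coefficients and does not depend on
`ℓ`.

(4) If Q1 holds for `C`, then the dimensions of the inertia invariants (of all finite extensions) in the kernels of the
`N ^ m` do not depend on `ℓ`. -/
theorem result [IsTopologicalGroup W] (ν : W →* Multiplicative ℤ) (T : Theory p W C) (E : C → C)
    (hT : T.IsKnown ν E) :
    (∀ (X : C) (U : Subgroup W) (w : W), IsField ν U → IsFrob ν U w → ∀ k₀ : ℕ,
      ((∀ k ≤ k₀, T.Good ν U w 1 (stack E X k)) ↔ ∀ m ≤ k₀ + 1, T.Good ν U w m X)) ∧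
    (Q1 T ν ↔ ∀ (X : C) (U : Subgroup W) (w : W), IsField ν U → IsFrob ν U w → ∀ m, T.Good ν U w m X) ∧
    (Q1 T ν → ∀ (X : C) (w : W), 0 < dg ν w → ∀ m, T.GoodChar w m X) ∧
    (Q1 T ν → ∀ (X : C) (U : Subgroup W), IsField ν U → ∀ m n ℓ ℓ',
      (T.H X ℓ n).invDim ν U m = (T.H X ℓ' n).invDim ν U m) := by
  obtain ⟨F, hF⟩ := hT.frob
  have hQ : Q1 T ν ↔ ∀ X, J T ν ⊤ F 1 X := by
    constructor
    · intro h X
      exact (good_iff hT (Subgroup.mem_top F) (by omega) 1 X).1 (h X F hF)
    · intro h X G hG
      have h1 := (all_iff hT hF).1 h ⊤ G ⟨isOpen_univ, G, Subgroup.mem_top G, by omega⟩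
        ⟨Subgroup.mem_top G, by omega, fun u _ hu => by omega⟩ 1 X
      exact (good_iff hT (Subgroup.mem_top G) (by omega) 1 X).2 h1
  refine ⟨?_, ?_, ?_, ?_⟩
  · intro X U w _ hf k₀
    have h1 := stack_iff hT hf.1 X k₀
    constructor
    · intro h m hm
      exact (good_iff hT hf.1 hf.2.1 m X).2 (h1.1 (fun k hk => (good_iff hT hf.1 hf.2.1 1 _).1 (h k hk)) m hm)
    · intro h k hk
      exact (good_iff hT hf.1 hf.2.1 1 _).2 (h1.2 (fun m hm => (good_iff hT hf.1 hf.2.1 m X).1 (h m hm)) k hk)
  · rw [hQ, all_iff hT hF]
    constructor
    · intro h X U w hU hf m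
      exact (good_iff hT hf.1 hf.2.1 m X).2 (h U w hU hf m X)
    · intro h U w hU hf m X
      exact (good_iff hT hf.1 hf.2.1 m X).1 (h X U w hU hf m)
  · intro h X w h0 m n
    refine RatSame.same (elements hT ((all_iff hT hF).1 (hQ.1 h)) h0 m X n) ?_
    intro ℓ
    exact integral_resChar _ ((hT.rep X ℓ n).ker_map w m) (hT.int X ℓ n w h0)
  · intro h X U hU m n ℓ ℓ'
    obtain ⟨w, hf⟩ := exists_frob hU
    exact dim_eq hT hf.1 m X n ((all_iff hT hF).1 (hQ.1 h) U w hU hf m X n) ℓ ℓ'

end Pool.Agent.Results.MP_898f40_nt.EulerFactorsDetermine
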