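import Pool.Agent.Q56.PG.Geo

/-!
# Surfaces in characteristic `p`: the parity of the number of the Tate classes, and defect two

Let `k` be a finitely generated field of characteristic `p > 0`, `X` a smooth projective surface over
`k`, and `l`, `l'` two primes different from `p`. As in the other files on finitely generated fields
of characteristic `p`, `Γ` is the Weil group of `k`, `D` the geometric Galois group and `φ` a
Frobenius element, so that every element of `Γ` is `φ ^ m * d` with `d ∈ D`. We consider (up to finite
extensions of `k`)

* `P = poleOrder`, the dimension of the space of the generalised Tate classes in `H²(X)(1)`: the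
  classes fixed by a subgroup of finite index of the geometric Galois group, on which a power of
  Frobenius acts unipotently. This is the order of the pole of the L-function of `H²(X)` at the
  first critical point, it does not depend on `l` (hypothesis `hL`, Grothendieck and Deligne);
* `T_l = tateDim`, the dimension of the space of the Tate classes, so that
  `T_l - ρ = dim (V_l Br X)^Γ'` for `Γ'` small open;
* `r`, a number of divisors whose intersection matrix is invertible. By the Hodge index theorem we
  can take `r = ρ`, the rank of the Neron-Severi group.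

One has `ρ ≤ T_l ≤ P`, and the full conjecture of Tate is `ρ = T_l = P`. We prove, for all `l`:

* `T_l ≡ P` modulo `2`; so the parity of the corank of `Br(X)(l)` is independent of `l`;
* `T_l = ρ` if and only if `P = ρ`;
* if `P ≤ ρ + 2`, then `T_l = P` for all `l`: the generalised Tate classes are Tate classes, and the
  corank of `Br(X)(l)` is `P - ρ ∈ {0, 1, 2}` for all `l`.

The theorem holds for classes of codimension `j` on a variety of dimension `2 j + e`, `h` being
the power `e` of a hyperplane section (`h = X` for the divisors of a surface). The hypothesis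
`NondegOn` is then a consequence of Poincare duality, of the hard Lefschetz theorem and of the
semisimplicity of the geometric monodromy (Deligne, Weil II). The reason is that a unipotent isometry
of a nondegenerate symmetric form has a fixed space of even codimension, and is trivial if its space
has dimension at most two.
-/

open CategoryTheory AlgebraicGeometry

universe u v v' w

namespace Pool.Agent.Results.MP_89bcae_ag.ParityAndDefectTwo

open Pool.Agent.H914 Pool.Agent.H914.VarClass Pool.Agent.H914.VarClass.Obj
open Pool.Agent.Q55 (GaloisAction)
open Pool.Agent.Q56.PG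

/-- **Parity of the number of the Tate classes and equality with the order of the pole if the defect
is at most two.** -/
theorem result {k : Type u} [Field k] {𝒱 : VarClass k} {ops : CycleOps 𝒱}
    {W : WeilCohomology.{u, v} ops} {W' : WeilCohomology.{u, v'} ops} {Γ : Type w} [Group Γ]
    (G : GaloisAction W Γ) (G' : GaloisAction W' Γ) (D : Subgroup Γ) [D.Normal] (φ : Γ)
    (hφ : ∀ g : Γ, ∃ m : ℤ, ∃ d ∈ D, g = φ ^ m * d) (X : 𝒱.Obj) {j e : ℕ}
    (hje : 2 * j + e = X.dim) {h : X.Cycles} (hh : X.IsCyc e h) (hnd : NondegOn G D X j h)
    (hnd' : NondegOn G' D X j h) (hL : poleOrder G D φ X j = poleOrder G' D φ X j)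
    {r : ℕ} (z : Fin r → X.Cycles) (hz : ∀ i, X.IsCyc j (z i))
    (hdet : (interMatrix ops h z).det ≠ 0) :
    (∃ m, poleOrder G D φ X j = tateDim G X j + 2 * m) ∧
      tateDim G X j ≡ tateDim G' X j [MOD 2] ∧
      r ≤ tateDim G X j ∧ (tateDim G X j = r ↔ poleOrder G D φ X j = r) ∧
      (tateDim G X j = r ↔ tateDim G' X j = r) ∧
      (poleOrder G D φ X j ≤ r + 2 →
        tateDim G X j = poleOrder G D φ X j ∧ tateDim G' X j = poleOrder G D φ X j) := by
  obtain ⟨⟨m, hm⟩, h1⟩ := parity_gap (G := G) hφ hje hh hnd
  obtain ⟨⟨m', hm'⟩, h1'⟩ := parity_gap (G := G') hφ hje hh hnd'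
  obtain ⟨h2, h3⟩ := h1 r z hz hdet
  obtain ⟨h2', h3'⟩ := h1' r z hz hdet
  refine ⟨⟨m, hm⟩, ?_, h2, ?_, ?_, ?_⟩
  · rw [Nat.ModEq]; omega
  · omega
  · omega
  · omega

end Pool.Agent.Results.MP_89bcae_ag.ParityAndDefectTwo
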