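import Pool.Agent.Q269.MF.Odd
import Pool.Agent.Y43.SZ2.Crit
import Pool.Agent.Y43.SZ2.Eqs
import Pool.Agent.Y547.SZ.Comb
import Pool.Agent.Y547.SZ.Kda
import Pool.Agent.Y547.SZ.Rep
import Pool.Agent.Y98.SZ.Adj

/-!
# The Tate conjecture for the surfaces of several families at the same time

Let `k` be a finite field of characteristic different from 2 with `q` elements, `ℓ` an odd prime which
divides `q - 1` and `K = k(t)`. Let `R` be a finite set, and for each `r` in `R` let `n r ≥ 3` be prime
to `ℓ` and let `a r 1, …, a r (n r)` be polynomials over `k` such that all the differences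
`a r i - a r j` (`i ≠ j`) have the same degree `N r ≥ 1` and the product `Δ r` of the differences
`a r i - a r j`, `i < j`, is squarefree; suppose that `Δ r` and `Δ r'` are coprime for `r ≠ r'`. For a
monic squarefree polynomial `D` prime to all the `Δ r` let `J(r, D)` be the Jacobian of the curve of
genus `(ℓ - 1) (n r - 1) / 2`

`y ^ ℓ = D(t) (x - a r 1) ⋯ (x - a r (n r))`

over `K`. All these families are twisted by the same polynomial `D`. We say that `J(r, D)` is good if

* every point of `J(r, D)(K)` is the sum of a `K`-point killed by `ℓ` and of `ℓ` times a `K`-point, so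
  `J(r, D)(K)` is finite (Mordell-Weil theorem of Lang and Neron);
* all classes in `H ^ 1 (K, J(r, D))` killed by a power of `ℓ` which are trivial over the completions
  of `K` at all the places of `K` different from infinity are zero; in particular the `ℓ`-primary part
  of the Tate-Shafarevich group of `J(r, D)` over `K` is zero. The Brauer group of a smooth projective
  model over `k` of the surface `y ^ ℓ = D(t) ∏ (x - a r i)` is isomorphic to this group (Artin,
  Grothendieck), so the model satisfies the Tate conjecture for divisors (Tate, Milne), and `J(r, D)`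
  the full conjecture of Birch and Swinnerton-Dyer (Kato-Trihan).

Theorem (independence of the families). Let `α = ∏_{i ≥ 1} (1 + ℓ ^ (-i)) ^ (-1)` and let `𝒜` be a set
of subsets of `R` which contains with a set `S` all the larger sets. As the degree `m` of `D` tends to
infinity, `m + n r * N r` not divisible by `ℓ` for all `r`, the proportion of the `D` for which the set
of the `r` such that `J(r, D)` is good belongs to `𝒜` is at least the probability (up to `ε`) of the
event that the set of the successes belongs to `𝒜`, when for each `r` in `R` an independent experiment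
with probability of success `α` is made, that is `∑_{S ∈ 𝒜} α ^ |S| (1 - α) ^ (|R| - |S|)`.

For instance all the Jacobians `J(r, D)` are good for at least the proportion `α ^ |R| - ε` of the `D`;
at least one of them is good for at least the proportion `1 - (1 - α) ^ |R| - ε`, and at least `s` of
them are good for at least the proportion `P(X ≥ s) - ε`, `X` a binomial random variable with
parameters `|R|` and `α`.

The proof: the `(1 - ζ)`-Selmer group of `J(r, D)` modulo the torsion points is contained in the kernel
of an explicit symmetric matrix over the field with `ℓ` elements, whose entries are `ℓ`-th power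
residue symbols of the prime factors of `D` and of `Δ r`. The block of the symbols of the prime factors
of `D` is the same for all `r`. All the mixed moments of the orders of the `|R|` kernels are computed;
the configurations which give the main term are classified with the help of the sum of the quadratic
forms of the families on the product of the spaces of labels. The mixed moments are asymptotically
the products of the moments, and inclusion-exclusion gives the independence.
-/

set_option autoImplicit false
set_option linter.all false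

namespace Pool.Agent.Results.MP_89bcae_ag.SimultaneousFamilies

open Polynomial Filter Pool.Agent.Y713.Jac
open scoped Classical

/-- The product of the differences `a i - a j`, `i < j`. -/
noncomputable def differences {k : Type} [Field k] {n : ℕ} (a : Fin n → k[X]) : k[X] :=
  ∏ x ∈ (Finset.univ : Finset (Fin n × Fin n)).filter (fun x => x.1 < x.2), (a x.1 - a x.2)

/-- The monic squarefree polynomials `D` of degree `m` prime to the differences `a r i - a r j` of all
the families. -/
def Twists {k : Type} [Field k] {R : Type} {n : R → ℕ} (a : (r : R) → Fin (n r) → k[X]) (m : ℕ) :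
    Set k[X] :=
  {D | D.Monic ∧ D.natDegree = m ∧ Squarefree D ∧ ∀ r i j, i ≠ j → IsCoprime D (a r i - a r j)}

/-- The polynomial `D(t) ∏ (x - a i)` in `x` over `K = k(t)`. -/
noncomputable def twist {k : Type} [Field k] (K : Type) [Field K] [Algebra k[X] K] {n : ℕ}
    (a : Fin n → k[X]) (D : k[X]) : K[X] :=
  C (algebraMap k[X] K D) * ∏ i, (X - C (algebraMap k[X] K (a i)))

/-- Every element of the group is the product of an element killed by `ℓ` and of an `ℓ`-th power. -/
def TorsionTimesPowers (ℓ : ℕ) (G : Type) [CommGroup G] : Prop :=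
  ∀ P : G, ∃ T Q : G, T ^ ℓ = 1 ∧ P = T * Q ^ ℓ

/-- For the Jacobian `J_D` of the curve `y ^ ℓ = D ∏ (x - a i)`, the group `J_D(K)` is
`J_D(K)[ℓ] + ℓ J_D(K)`, and the `ℓ`-primary part of the group of the classes in `H ^ 1 (K, J_D)` which
are trivial over the completions of `K = k(t)` at the places different from infinity is zero. -/
def IsGood {k : Type} [Field k] (ℓ : ℕ) (K : Type) [Field K] [Algebra k[X] K]
    [IsFractionRing k[X] K] {n : ℕ} (a : Fin n → k[X]) (D : k[X]) : Prop :=
  ShaPrimaryTrivial ℓ (twist K a D) k[X] ∧ TorsionTimesPowers ℓ (J ℓ (twist K a D) K)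

/-- The set of the families `r` for which the Jacobian twisted by `D` is good. -/
noncomputable def goodSet {k : Type} [Field k] (ℓ : ℕ) (K : Type) [Field K] [Algebra k[X] K]
    [IsFractionRing k[X] K] {R : Type} [Fintype R] {n : R → ℕ} (a : (r : R) → Fin (n r) → k[X])
    (D : k[X]) : Finset R := Finset.univ.filter fun r => IsGood ℓ K (a r) D

/-- The infinite product of the numbers `(1 + ℓ ^ (-i)) ^ (-1)`, `i ≥ 1`. -/
noncomputable def density (ℓ : ℕ) : ℝ := ∏' i : ℕ, (1 + ((ℓ : ℝ)⁻¹) ^ (i + 1))⁻¹

/-- The probability that the set of the successes belongs to `𝒜` in independent experiments indexed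
by `R`, each with probability of success `α`. -/
noncomputable def probability {R : Type} [Fintype R] (α : ℝ) (𝒜 : Finset (Finset R)) : ℝ :=
  ∑ S ∈ 𝒜, α ^ S.card * (1 - α) ^ (Fintype.card R - S.card)

theorem result (ℓ : ℕ) (hℓ : ℓ.Prime) (hl2 : ℓ ≠ 2) (k : Type) [Field k] [Finite k]
    (h2 : (2 : k) ≠ 0) (hk : ℓ ∣ Nat.card k - 1)
    (K : Type) [Field K] [Algebra k[X] K] [IsFractionRing k[X] K] (R : Type) [Fintype R]
    (n : R → ℕ) (hn : ∀ r, ¬ ℓ ∣ n r) (hn3 : ∀ r, 3 ≤ n r) (N : R → ℕ) (hN : ∀ r, 1 ≤ N r)
    (a : (r : R) → Fin (n r) → k[X])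
    (ha : ∀ r i j, i ≠ j → (a r i - a r j).natDegree = N r)
    (hs : ∀ r, Squarefree (differences (a r)))
    (hc : ∀ r r', r ≠ r' → IsCoprime (differences (a r)) (differences (a r'))) :
    (∃ c : ℝ, 0 < c ∧ ∀ᶠ m : ℕ in atTop,
      c * (Nat.card k : ℝ) ^ m ≤ ((Twists a m).ncard : ℝ)) ∧
    ∀ 𝒜 : Finset (Finset R), (∀ S ∈ 𝒜, ∀ S', S ⊆ S' → S' ∈ 𝒜) →
    ∀ ε : ℝ, 0 < ε → ∀ᶠ m : ℕ in atTop, (∀ r, ¬ ℓ ∣ m + n r * N r) →
      (probability (density ℓ) 𝒜 - ε) * ((Twists a m).ncard : ℝ) ≤
        (({D ∈ Twists a m | goodSet ℓ K a D ∈ 𝒜}).ncard : ℝ) :=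
  Pool.Agent.Q269.MF.final_odd
    (Pool.Agent.Y43.SZ2.t Pool.Agent.Y547.SZ.Rep.t Pool.Agent.Y98.SZ.Adj.t
      Pool.Agent.Y547.SZ.t_kda (Pool.Agent.Y43.SZ2.e1 Pool.Agent.Y547.SZ.Rep.t)
      (Pool.Agent.Y43.SZ2.e2 Pool.Agent.Y547.SZ.Rep.t))
    Pool.Agent.Y547.SZ.t_comb hℓ hl2 h2 hk K hn hn3 N hN a ha hs hc

end Pool.Agent.Results.MP_89bcae_ag.SimultaneousFamilies
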