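import Pool.Agent.Q28.MS.Summand

/-!
# Self-dual Chow-Kunneth decompositions: a criterion by triple products, and descent

`𝒱` is a class of smooth projective geometrically irreducible varieties over the field `k` closed
under products (for example all of them), `C` the Chow groups with rational coefficients (in the
form of their formal properties, `IsChowProj`) and `H` a Weil cohomology theory (`IsWeilProj`).

(1) `X` has a self-dual Chow-Kunneth decomposition if and only if it has a Chow-Kunneth
decomposition `π` such that the finitely many triple products `π_b ∘ σ^* π_j ∘ π_a` with `a < b` and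
`a < dim X < j` vanish.
(2) It is also equivalent that `X` has mutually orthogonal Künneth projectors `q_n` for `n < dim X`
only, with `σ^* q_m ∘ q_n = 0`.
(3) Let `Z` have one Chow-Kunneth decomposition without non-zero morphisms `h^a(Z) → h^b(Z)`,
`a < b`. Then every variety `X` such that a twist of `h(X)` is a direct summand of `h(Z)` (for
example, every `X` dominated by `Z`) has a self-dual Chow-Kunneth decomposition, and one without
non-zero morphisms `h^a(X) → h^b(X)`, `a < b`.

No finite-dimensionality is assumed, and only one decomposition is considered.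
-/

open CategoryTheory AlgebraicGeometry

set_option autoImplicit false

universe u v w

namespace Pool.Agent.Results.MP_8a7054_ag.TripleProducts

open Pool.Agent.H914 Pool.Agent.W492.BB Pool.Agent.TH133 Pool.Agent.Q28.MS

/-- Self-dual Chow-Kunneth decompositions: triple products, lower halves, and descent. -/
theorem result {k : Type u} [Field k] {𝒱 : VarClass k} (C : TheoryData.{u, v, 0} 𝒱 ℚ)
    [IsChowProj C] {K : Type w} [Field K] (H : WeilTheoryData.{u, v, w} C K) [IsWeilProj H] :
    (∀ X : 𝒱.Obj, HasSelfDualCK H X ↔
      ∃ π, IsCK H X π ∧ ∀ a b j : ℕ, a < b → a < X.dim → X.dim < j →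
        C.comp (C.comp (π a) (tp C (π j))) (π b) = 0) ∧
    (∀ X : 𝒱.Obj, HasSelfDualCK H X ↔ HasLowerHalf H X) ∧
    (∀ (X Z : 𝒱.Obj) (c : ℕ), Summand C c X Z → (∃ π, IsCK H Z π ∧ NeverRaises π) →
      HasSelfDualCK H X ∧ ∃ π : ℕ → C.A (X.prod X), IsCK H X π ∧ NeverRaises π) := by
  refine ⟨fun X => selfDual_iff X, fun X => ⟨lowerHalf_of_selfDual, selfDual_of_lowerHalf⟩, ?_⟩
  rintro X Z c hs ⟨π, h, hr⟩
  obtain ⟨π', h', hr'⟩ := neverRaises_of_summand hs h hr
  exact ⟨selfDual_of_neverRaises h' hr', π', h', hr'⟩

end Pool.Agent.Results.MP_8a7054_ag.TripleProducts
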