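import Pool.Agent.Q21.MI.Dim

/-!
# The modular isomorphism problem over all fields when the third dimension subgroup is trivial

For every odd prime `p`, every finite `p`-group `G` whose third dimension subgroup is trivial,
every field `F` of characteristic `p` and every group `H`: if the group algebras `FG` and `FH` are
isomorphic as `F`-algebras, then `G` and `H` are isomorphic.
-/

set_option autoImplicit false

namespace Pool.Agent.Results.MP_8bb7de_al.OddPrimes

open Q21.MI

theorem result (p : ℕ) [Fact p.Prime] (hp : p ≠ 2) (F : Type*) [Field F] [CharP F p]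
    (G : Type*) [Group G] [Finite G] (_hG : IsPGroup p G) (hD : dimSubgroup F G 3 = {1})
    (H : Type*) [Group H]
    (hiso : Nonempty (MonoidAlgebra F G ≃ₐ[F] MonoidAlgebra F H)) :
    Nonempty (G ≃* H) := by
  obtain ⟨e⟩ := hiso
  have hp3 : 3 ≤ p := by
    have h2 := (Fact.out : p.Prime).two_le
    omega
  exact GBasis.iso (GBasis.std F G) ((GBasis.std F H).map e.symm) p (exp_odd p hp3 hD)
    (class_two hD)

end Pool.Agent.Results.MP_8bb7de_al.OddPrimes
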