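import Pool.Agent.Q236.GW.PrimeU
import Pool.Agent.Q236.GW.WAsym

set_option autoImplicit false

/-!
# Primes `q` with `a + q d` almost prime: number and Poisson law, uniformly in `a` and `d`

For `a`, `d` as in the question, up to an arbitrary power of `X`, let `P` be the set of the PRIMES
`q ∈ (u, u + Y]`, `q > X ^ (1 / r)`, such that `a + q d` has no prime factor `p ≤ X ^ (1 / r)`; then `a + q d` has a
bounded number of prime factors. If `Y ≥ δ X`, `u + Y ≤ X`, the set `P` has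
`(1 + O(ε)) r exp (-γ) 𝔖(|a| d) Y / log ^ 2 X` elements, with the singular series
`𝔖(n) = 2 C₂ ∏_{p ∣ n, p > 2} (p - 1) / (p - 2)`, and the number of the `m ∈ (q, q + T]` for which no prime
`p ≤ X ^ (1 / r)` divides `m (a + m d)`, `q` running over `P`, has the Poisson law of the expected mean, up to
`ε`. This is uniform in `a` and `d` (if `d = 1`, for `|a| > X ^ η`).
-/

namespace Pool.Agent.Results.MP_8bf9c2_nt.PrimesPoisson

open Finset Filter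

/-- The twin prime constant: the infimum (the limit) of the decreasing products of `1 - 1 / (p - 1) ^ 2`
over the primes `3 ≤ p ≤ z`. -/
noncomputable def C₂ : ℝ := ⨅ z : ℕ, ∏ p ∈ (Finset.Icc 3 z).filter Nat.Prime, (1 - 1 / ((p : ℝ) - 1) ^ 2)

/-- The singular series `2 C₂ ∏_{p ∣ n, p > 2} (p - 1) / (p - 2)`. -/
noncomputable def 𝔖 (n : ℕ) : ℝ :=
  2 * C₂ * ∏ p ∈ n.primeFactors.filter (fun p => 2 < p), ((p : ℝ) - 1) / ((p : ℝ) - 2)

/-- The hypotheses of the question, with `a ≠ 0`. -/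
structure Admissible (a d : ℤ) : Prop where
  dpos : 1 ≤ d
  ane : a ≠ 0
  cop : IsCoprime a d
  even : Even (a * d)

/-- No prime `p ≤ X ^ (1 / r)` divides `m (a + m d)`. -/
def Good (X : ℕ) (a d : ℤ) (r m : ℕ) : Prop :=
  ∀ p : ℕ, p.Prime → (p : ℝ) ≤ (X : ℝ) ^ (1 / (r : ℝ)) → ¬ (p : ℤ) ∣ (m : ℤ) * (a + m * d)

/-- The density of the good numbers: the product of `1 - ρ(p) / p` over the primes `p ≤ X ^ (1 / r)`, where
`ρ(p) = 1` if `p ∣ n` and `ρ(p) = 2` otherwise; `n = |a| d`. -/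
noncomputable def V (X n r : ℕ) : ℝ :=
  ∏ p ∈ (Finset.Icc 1 ⌊(X : ℝ) ^ (1 / (r : ℝ))⌋₊).filter Nat.Prime,
    (1 - (if p ∣ n then (1 : ℝ) else 2) / p)

/-- The density of the good numbers among the primes. -/
noncomputable def W (X n r : ℕ) : ℝ :=
  ∏ p ∈ (Finset.Icc 1 ⌊(X : ℝ) ^ (1 / (r : ℝ))⌋₊).filter Nat.Prime,
    (1 - (if p ∣ n then (1 : ℝ) else 2) / p) / (1 - 1 / p)

open Classical in
/-- The good primes in `(u, u + Y]`. -/
noncomputable def P (X : ℕ) (a d : ℤ) (r u Y : ℕ) : Finset ℕ :=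
  (Finset.Ioc u (u + Y)).filter (fun q => q.Prime ∧ Good X a d r q)

open Classical in
/-- The number of the good `m` in `(q, q + T]`. -/
noncomputable def next (X : ℕ) (a d : ℤ) (r T q : ℕ) : ℕ :=
  ((Finset.Ioc q (q + T)).filter (fun m => Good X a d r m)).card

open Pool.Agent.W123.RP Pool.Agent.H373R2.T7 Pool.Agent.W123.RU Pool.Agent.TH464.PO
open Pool.Agent.Y879.AP Pool.Agent.Y879.GL Pool.Agent.Q236.GW
open Pool.Agent.W123.RU.Poly (Q)

lemma V_eq (X n r : ℕ) : V X n r = VG n ⌊(X : ℝ) ^ (1 / (r : ℝ))⌋₊ := (VG_eq n _).symm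

lemma W_eq (X n r : ℕ) : W X n r =
    VG n ⌊(X : ℝ) ^ (1 / (r : ℝ))⌋₊ / Vz ⌊(X : ℝ) ^ (1 / (r : ℝ))⌋₊ := by
  rw [VG_eq]
  unfold W Vz
  rw [Finset.prod_div_distrib]
  rfl

lemma S_eq (n : ℕ) : 𝔖 n = SG n := rfl

lemma good_iff (X : ℕ) (a d : ℤ) (r t : ℕ) :
    Sf (Q (gl a d)) ⌊(X : ℝ) ^ (1 / (r : ℝ))⌋₊ t ↔ Good X a d r t := by
  have h0 : (0 : ℝ) ≤ (X : ℝ) ^ (1 / (r : ℝ)) := by positivity
  have key : ∀ q : ℕ, q.Prime → (Q (gl a d) q t ↔ (q : ℤ) ∣ (t : ℤ) * (a + t * d)) := by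
    intro q hq
    rw [gl_Q a d q t hq, mul_comm d (t : ℤ)]
  constructor
  · intro h q hq hqn hd
    exact h q (mem_pz.2 ⟨Nat.le_floor hqn, hq⟩) ((key q hq).2 hd)
  · intro h q hq hd
    have hqq := (mem_pz.1 hq).2
    exact h q hqq (mem_pz' h0 hq) ((key q hqq).1 hd)

lemma few (X r K m : ℕ) (hr : 1 ≤ r) (hX : 2 ^ r ≤ X) (hm : 0 < m) (hmX : m ≤ X ^ K)
    (h : ∀ p : ℕ, p.Prime → p ∣ m → (X : ℝ) ^ (1 / (r : ℝ)) < (p : ℝ)) :
    m.primeFactorsList.length ≤ K * r := by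
  have hr0 : (r : ℝ) ≠ 0 := by exact_mod_cast (by omega : r ≠ 0)
  have hX1 : (1 : ℝ) ≤ X := by
    have : 1 ≤ 2 ^ r := Nat.one_le_two_pow
    exact_mod_cast this.trans hX
  have hz1 : 1 ≤ (X : ℝ) ^ (1 / (r : ℝ)) := Real.one_le_rpow hX1 (by positivity)
  apply length_le m (K * r) (by omega) _ h _ hz1
  have e : ((X : ℝ) ^ (1 / (r : ℝ))) ^ r = X := by
    rw [← Real.rpow_natCast, ← Real.rpow_mul (by linarith), one_div, inv_mul_cancel₀ hr0, Real.rpow_one]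
  have hmX' : (m : ℝ) ≤ (X : ℝ) ^ K := by exact_mod_cast hmX
  rw [pow_succ, mul_comm K r, pow_mul, e]
  have h0 : (0 : ℝ) ≤ (X : ℝ) ^ K := by positivity
  nlinarith

/-- **Primes `q` with `a + q d` almost prime: number and Poisson law, uniformly in `a` and `d`.** -/
theorem result :
    (∀ (X r K : ℕ) (a d : ℤ) (m : ℕ), 1 ≤ r → 2 ^ r ≤ X → Good X a d r m →
      0 < (a + m * d).natAbs → (a + m * d).natAbs ≤ X ^ K →
        (a + m * d).natAbs.primeFactorsList.length ≤ K * r) ∧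
    (∀ A : ℝ, ∀ r : ℕ, 2 ≤ r → ∀ δ : ℝ, 0 < δ → ∀ᶠ X : ℕ in atTop, ∀ n : ℕ, Even n → 1 ≤ n →
      (n : ℝ) ≤ (X : ℝ) ^ A →
      |V X n r * Real.log X ^ 2 - (r * Real.exp (-Real.eulerMascheroniConstant)) ^ 2 * 𝔖 n| ≤ δ * 𝔖 n ∧
      |W X n r * Real.log X - r * Real.exp (-Real.eulerMascheroniConstant) * 𝔖 n| ≤ δ * 𝔖 n) ∧
    ∀ A η δ : ℝ, 0 < A → 0 < η → 0 < δ → δ ≤ 1 → ∀ x₀ ε : ℝ, 0 < ε → ε ≤ 1 → ∃ r₀ : ℕ, 2 ≤ r₀ ∧
      ∀ r : ℕ, r₀ ≤ r → ∀ᶠ X : ℕ in atTop, ∀ a d : ℤ, Admissible a d →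
        |(a : ℝ)| ≤ (X : ℝ) ^ A → (d : ℝ) ≤ (X : ℝ) ^ A → (d = 1 → (X : ℝ) ^ η < |(a : ℝ)|) →
        ∀ u Y : ℕ, δ * X ≤ Y → u + Y ≤ X →
          |((P X a d r u Y).card : ℝ) * Real.log X - Y * W X (a * d).natAbs r| ≤
            ε * (Y * W X (a * d).natAbs r) ∧
          ∀ T : ℕ, T * V X (a * d).natAbs r ≤ x₀ → ∀ B : Finset ℕ,
            |(((P X a d r u Y).filter (fun q => next X a d r T q ∈ B)).card : ℝ) - (P X a d r u Y).card *
                ∑ j ∈ B, Real.exp (-(T * V X (a * d).natAbs r)) *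
                  (T * V X (a * d).natAbs r) ^ j / (j.factorial : ℝ)| ≤
              ε * (P X a d r u Y).card := by
  classical
  refine ⟨?_, ?_, ?_⟩
  · intro X r K a d m hr hX hG h1 h2
    apply few X r K _ hr hX h1 h2
    intro p hp hd
    by_contra hcon
    rw [not_lt] at hcon
    exact hG p hp hcon ((Int.natCast_dvd.2 hd).mul_left _)
  · intro A r hr δ hδ
    filter_upwards [VG_asymU A r hr δ hδ, WG_asymU A r hr δ hδ] with X hX hX' n hn h1 h2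
    rw [V_eq, W_eq, S_eq]
    exact ⟨hX n hn h1 h2, hX' n hn h1 h2⟩
  · intro A η δ hA hη hδ hδ1 x₀ ε hε hε1
    obtain ⟨r₀, hr₀, h⟩ := prime_gl A η 1 δ hA hη one_pos hδ hδ1 x₀ ε hε hε1
    refine ⟨r₀, hr₀, ?_⟩
    intro r hr
    filter_upwards [h r hr] with X hX
    intro a d had haX hdX hdη u Y hY huY
    have hdX' : |(d : ℝ)| ≤ (X : ℝ) ^ A := by
      have : (0 : ℝ) < d := by exact_mod_cast had.dpos
      rw [abs_of_pos this]
      exact hdX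
    have hmain := hX a d had.ane (by have := had.dpos; omega) had.cop had.even haX hdX' (by
      rintro (h1 | h1)
      · exact hdη h1
      · have := had.dpos
        omega) X (by rw [Real.rpow_one]) u Y hY huY
    have e1 : Sf (Q (gl a d)) ⌊(X : ℝ) ^ (1 / (r : ℝ))⌋₊ = Good X a d r := by
      funext m
      exact propext (good_iff X a d r m)
    have e2 : (Ioc u (u + Y)).filter (fun n => n.Prime ∧ Sf (Q (gl a d)) ⌊(X : ℝ) ^ (1 / (r : ℝ))⌋₊ n) =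
        P X a d r u Y := by
      unfold P
      rw [e1]
    rw [e2, ← W_eq] at hmain
    refine ⟨hmain.1, fun T hT B => ?_⟩
    rw [V_eq] at hT ⊢
    have h3 := hmain.2 T hT B
    have e3 : (Ioc u (u + Y)).filter (fun n => (n.Prime ∧ Sf (Q (gl a d)) ⌊(X : ℝ) ^ (1 / (r : ℝ))⌋₊ n) ∧
          Wc (Sf (Q (gl a d)) ⌊(X : ℝ) ^ (1 / (r : ℝ))⌋₊) n T ∈ B) =
        (P X a d r u Y).filter (fun q => next X a d r T q ∈ B) := by
      unfold P next Wc
      rw [e1, Finset.filter_filter]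
    rw [e3] at h3
    exact h3

end Pool.Agent.Results.MP_8bf9c2_nt.PrimesPoisson
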