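import Pool.Agent.Q236.GW.RegGl

set_option autoImplicit false

/-!
# Primes `q` with `a + q d` almost prime: almost all of them have regular neighbourhoods at all scales

For `a`, `d` as in the question, up to an arbitrary power of `X`, let `S` be the set of the PRIMES `q` such that no
prime `p ≤ X ^ (1 / r)` divides `q (a + q d)`; then `a + q d` is an almost prime. Let `D = 𝔖(|a| d) / log ^ 2 X`, with
the singular series `𝔖(n) = 2 C₂ ∏_{p ∣ n, p > 2} (p - 1) / (p - 2)`. In every interval `(u, u + Y]`,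
`δ₀ X ≤ Y ≤ u`, `u + Y ≤ X`, there are at least `κ Y D` such primes, and all but a proportion `ε` of them are regular
points: ALL intervals of length between `1 / (c D)` (which is of the order `log ^ 2 X / 𝔖`) and `Y` around them
contain the right order of such primes, and these have constant density up to `δ` at all but `B` dyadic scales. This
is uniform in ALL pairs `a`, `d`.
-/

namespace Pool.Agent.Results.MP_8bf9c2_nt.RegularPrimes

open Finset Filter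

/-- The twin prime constant: the infimum (the limit) of the decreasing products of `1 - 1 / (p - 1) ^ 2`
over the primes `3 ≤ p ≤ z`. -/
noncomputable def C₂ : ℝ := ⨅ z : ℕ, ∏ p ∈ (Finset.Icc 3 z).filter Nat.Prime, (1 - 1 / ((p : ℝ) - 1) ^ 2)

/-- The singular series `2 C₂ ∏_{p ∣ n, p > 2} (p - 1) / (p - 2)`. -/
noncomputable def 𝔖 (n : ℕ) : ℝ :=
  2 * C₂ * ∏ p ∈ n.primeFactors.filter (fun p => 2 < p), ((p : ℝ) - 1) / ((p : ℝ) - 2)

/-- The expected density near `X` of the primes `q` with `a + q d` prime, up to the size of `a + q d`. -/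
noncomputable def dens (X : ℕ) (a d : ℤ) : ℝ := 𝔖 (a * d).natAbs / Real.log X ^ 2

/-- The hypotheses of the question, with `a ≠ 0`. -/
structure Admissible (a d : ℤ) : Prop where
  dpos : 1 ≤ d
  ane : a ≠ 0
  cop : IsCoprime a d
  even : Even (a * d)

/-- The primes `q` such that no prime `p ≤ X ^ (1 / r)` divides `q (a + q d)`. -/
def S (X : ℕ) (a d : ℤ) (r : ℕ) : Set ℕ :=
  {q | q.Prime ∧ ∀ p : ℕ, p.Prime → (p : ℝ) ≤ (X : ℝ) ^ (1 / (r : ℝ)) → ¬ (p : ℤ) ∣ (q : ℤ) * (a + q * d)}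

open Classical in
/-- the number of the elements of `A` in `(x, y]` -/
noncomputable def N (A : Set ℕ) (x y : ℕ) : ℕ := ((Finset.Ioc x y).filter (fun m => m ∈ A)).card

/-- All intervals `(m - s, m + t]` with `s, t ≤ Y` of length at least `1 / (c D)` contain the right order
of elements of `A`, for the density `D`. -/
def RightOrder (A : Set ℕ) (c D : ℝ) (Y m : ℕ) : Prop :=
  ∀ s t : ℕ, s ≤ Y → t ≤ Y → 1 ≤ c * (D * (s + t)) →
    c * (D * (s + t)) ≤ N A (m - s) (m + t) ∧ (N A (m - s) (m + t) : ℝ) ≤ D * (s + t) / c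

/-- Up to `δ`, `A` has a constant density on both sides of `m` up to the distance `2 ^ j`. -/
def ConstantDensity (A : Set ℕ) (c D δ : ℝ) (m j : ℕ) : Prop :=
  ∃ lam : ℝ, c ≤ lam ∧ lam ≤ 1 / c ∧ ∀ s t : ℕ, s ≤ 2 ^ j → t ≤ 2 ^ j →
    |(N A (m - s) (m + t) : ℝ) - lam * (D * (s + t))| ≤ δ * (D * 2 ^ j)

open Classical in
/-- The number of the scales `1 / (c D) ≤ 2 ^ j ≤ Y` without this property. -/
noncomputable def badScales (A : Set ℕ) (c D δ : ℝ) (Y m : ℕ) : ℕ :=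
  ((Finset.range (Nat.log 2 Y + 1)).filter (fun j => 1 ≤ c * (D * (2 : ℝ) ^ j) ∧
    ¬ ConstantDensity A c D δ m j)).card

/-- The elements of `A` that are not regular points of `A`. -/
def Irregular (A : Set ℕ) (c D δ : ℝ) (B Y : ℕ) : Set ℕ :=
  {m | m ∈ A ∧ ¬ (RightOrder A c D Y m ∧ badScales A c D δ Y m ≤ B)}

open Pool.Agent.W123.RU Pool.Agent.H373R2.T7 Pool.Agent.TH464.PO Pool.Agent.Q236.GW
open Pool.Agent.W123.RU.Poly (Q)

lemma sf_iff (X : ℕ) (a d : ℤ) (r m : ℕ) :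
    Sf (Q (gl a d)) ⌊(X : ℝ) ^ (1 / (r : ℝ))⌋₊ m ↔
      ∀ p : ℕ, p.Prime → (p : ℝ) ≤ (X : ℝ) ^ (1 / (r : ℝ)) → ¬ (p : ℤ) ∣ (m : ℤ) * (a + m * d) := by
  have h0 : (0 : ℝ) ≤ (X : ℝ) ^ (1 / (r : ℝ)) := by positivity
  have key : ∀ q : ℕ, q.Prime → (Q (gl a d) q m ↔ (q : ℤ) ∣ (m : ℤ) * (a + m * d)) := by
    intro q hq
    rw [gl_Q a d q m hq, mul_comm d (m : ℤ)]
  constructor
  · intro h q hq hqn hd
    exact h q (mem_pz.2 ⟨Nat.le_floor hqn, hq⟩) ((key q hq).2 hd)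
  · intro h q hq hd
    have hqq := (mem_pz.1 hq).2
    exact h q hqq (mem_pz' h0 hq) ((key q hqq).1 hd)

lemma S_eq (X : ℕ) (a d : ℤ) (r : ℕ) : PS 1 0 (gl a d) ⌊(X : ℝ) ^ (1 / (r : ℝ))⌋₊ = S X a d r := by
  unfold PS S
  ext m
  rw [Set.mem_ofPred_eq, Set.mem_ofPred_eq, one_mul, add_zero, sf_iff]

lemma few (X r K m : ℕ) (hr : 1 ≤ r) (hX : 2 ^ r ≤ X) (hm : 0 < m) (hmX : m ≤ X ^ K)
    (h : ∀ p : ℕ, p.Prime → p ∣ m → (X : ℝ) ^ (1 / (r : ℝ)) < (p : ℝ)) :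
    m.primeFactorsList.length ≤ K * r := by
  have hr0 : (r : ℝ) ≠ 0 := by exact_mod_cast (by omega : r ≠ 0)
  have hX1 : (1 : ℝ) ≤ X := by
    have : 1 ≤ 2 ^ r := Nat.one_le_two_pow
    exact_mod_cast this.trans hX
  have hz1 : 1 ≤ (X : ℝ) ^ (1 / (r : ℝ)) := Real.one_le_rpow hX1 (by positivity)
  apply length_le m (K * r) (by omega) _ h _ hz1
  have e : ((X : ℝ) ^ (1 / (r : ℝ))) ^ r = X := by
    rw [← Real.rpow_natCast, ← Real.rpow_mul (by linarith), one_div, inv_mul_cancel₀ hr0, Real.rpow_one]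
  have hmX' : (m : ℝ) ≤ (X : ℝ) ^ K := by exact_mod_cast hmX
  rw [pow_succ, mul_comm K r, pow_mul, e]
  have h0 : (0 : ℝ) ≤ (X : ℝ) ^ K := by positivity
  nlinarith

/-- **Almost all primes `q` with `a + q d` almost prime have regular neighbourhoods, uniformly in `a`, `d`.** -/
theorem result :
    (∀ (X r K : ℕ) (a d : ℤ) (q : ℕ), 1 ≤ r → 2 ^ r ≤ X → q ∈ S X a d r →
      0 < (a + q * d).natAbs → (a + q * d).natAbs ≤ X ^ K →
        (a + q * d).natAbs.primeFactorsList.length ≤ K * r) ∧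
    ∀ A δ₀ : ℝ, 0 < A → 0 < δ₀ → δ₀ ≤ 1 → ∃ r₀ : ℕ, 2 ≤ r₀ ∧ ∀ r : ℕ, r₀ ≤ r → ∃ κ : ℝ, 0 < κ ∧
      ∀ ε : ℝ, 0 < ε → ∃ c : ℝ, 0 < c ∧ ∀ δ : ℝ, 0 < δ → ∃ B : ℕ, ∀ᶠ X : ℕ in atTop,
        ∀ a d : ℤ, Admissible a d → |(a : ℝ)| ≤ (X : ℝ) ^ A → (d : ℝ) ≤ (X : ℝ) ^ A →
          ∀ u Y : ℕ, δ₀ * X ≤ Y → Y ≤ u → u + Y ≤ X →
            κ * (Y * dens X a d) ≤ N (S X a d r) u (u + Y) ∧
            (N (Irregular (S X a d r) c (dens X a d) δ B Y) u (u + Y) : ℝ) ≤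
              ε * N (S X a d r) u (u + Y) := by
  refine ⟨?_, ?_⟩
  · intro X r K a d q hr hX hq h1 h2
    apply few X r K _ hr hX h1 h2
    intro p hp hd
    by_contra hcon
    rw [not_lt] at hcon
    exact hq.2 p hp hcon ((Int.natCast_dvd.2 hd).mul_left _)
  · intro A δ₀ hA hδ₀ hδ₁
    obtain ⟨r0, hr0, h⟩ := reg_gl A δ₀ hA hδ₀ hδ₁
    refine ⟨r0, hr0, ?_⟩
    intro r hr
    obtain ⟨κ, hκ, h2⟩ := h r hr
    refine ⟨κ, hκ, ?_⟩
    intro ε hε
    obtain ⟨c, hc, h3⟩ := h2 ε hε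
    refine ⟨c, hc, fun δ hδ => ?_⟩
    obtain ⟨B, h4⟩ := h3 δ hδ
    refine ⟨B, ?_⟩
    filter_upwards [h4] with X hX
    intro a d had haX hdX u Y hY hYu huY
    have hdX' : |(d : ℝ)| ≤ (X : ℝ) ^ A := by
      have : (0 : ℝ) < d := by exact_mod_cast had.dpos
      rw [abs_of_pos this]
      exact hdX
    have h5 := hX a d had.cop had.even had.ane (by have := had.dpos; omega) haX hdX' u Y hY hYu huY
    rw [S_eq] at h5
    exact h5

end Pool.Agent.Results.MP_8bf9c2_nt.RegularPrimes
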