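import Pool.Agent.Q236.GW.Lin2

set_option autoImplicit false

/-!
# Primes `q` with `a + q d` prime: regular neighbourhoods, uniformly in `a` and `d`

For `a`, `d` as in the question let `𝔖(a d)` be the singular series `2 C₂ ∏_{p ∣ a d, p > 2} (p - 1) / (p - 2)`,
so that `𝔖 / log ^ 2 X` is the conjectured density of the primes `q` near `X` with `a + q d` prime. Let
`R X a d r` be the set of the `m` such that no prime `p ≤ X ^ (1 / r)` divides `m (a + m d)`; it contains all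
primes `q > X ^ (1 / r)` for which `a + q d` is a prime (up to sign) larger than `X ^ (1 / r)`. Let `S` be an
ARBITRARY subset of `R X a d r`. In every short interval `(u, u + Y]`, `X ^ θ ≤ Y ≤ X`, `Y ≤ u`, all but
`ε Y 𝔖 / log ^ 2 X` of the elements of `S` are regular points of `S`: the elements of `S` in ALL intervals of
length between `log ^ 2 X / (c 𝔖)` and `Y` around them have the right order, and constant density up to `δ` at
all but `B (ε, δ)` dyadic scales. This is uniform in all `a`, `d` up to an arbitrary power of `X` and in `u`.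
-/

namespace Pool.Agent.Results.MP_8bf9c2_nt.RegularUniform

open Finset Filter

/-- The twin prime constant: the infimum (the limit) of the decreasing products of `1 - 1 / (p - 1) ^ 2`
over the primes `3 ≤ p ≤ z`. -/
noncomputable def C₂ : ℝ := ⨅ z : ℕ, ∏ p ∈ (Finset.Icc 3 z).filter Nat.Prime, (1 - 1 / ((p : ℝ) - 1) ^ 2)

/-- The singular series `2 C₂ ∏_{p ∣ n, p > 2} (p - 1) / (p - 2)`. -/
noncomputable def 𝔖 (n : ℕ) : ℝ :=
  2 * C₂ * ∏ p ∈ n.primeFactors.filter (fun p => 2 < p), ((p : ℝ) - 1) / ((p : ℝ) - 2)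

/-- The expected density near `X` of the primes `q` with `a + q d` prime. -/
noncomputable def dens (X : ℕ) (a : ℤ) (d : ℕ) : ℝ := 𝔖 (a.natAbs * d) / Real.log X ^ 2

/-- the `m` such that no prime `p ≤ X ^ (1 / r)` divides `m (a + m d)` -/
def R (X : ℕ) (a : ℤ) (d r : ℕ) : Set ℕ :=
  {m | ∀ p : ℕ, p.Prime → (p : ℝ) ≤ (X : ℝ) ^ (1 / (r : ℝ)) → ¬ (p : ℤ) ∣ (m : ℤ) * (a + m * d)}

open Classical in
/-- the number of the elements of `S` in `(x, y]` -/
noncomputable def N (S : Set ℕ) (x y : ℕ) : ℕ := ((Finset.Ioc x y).filter (fun m => m ∈ S)).card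

/-- All intervals `(m - s, m + t]` with `s, t ≤ Y` of length at least `1 / (c D)` contain the right order
of elements of `S`, for the density `D`. -/
def RightOrder (S : Set ℕ) (c D : ℝ) (Y m : ℕ) : Prop :=
  ∀ s t : ℕ, s ≤ Y → t ≤ Y → 1 ≤ c * (D * (s + t)) →
    c * (D * (s + t)) ≤ N S (m - s) (m + t) ∧ (N S (m - s) (m + t) : ℝ) ≤ D * (s + t) / c

/-- Up to `δ`, `S` has a constant density on both sides of `m` up to the distance `2 ^ j`. -/
def ConstantDensity (S : Set ℕ) (c D δ : ℝ) (m j : ℕ) : Prop :=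
  ∃ lam : ℝ, c ≤ lam ∧ lam ≤ 1 / c ∧ ∀ s t : ℕ, s ≤ 2 ^ j → t ≤ 2 ^ j →
    |(N S (m - s) (m + t) : ℝ) - lam * (D * (s + t))| ≤ δ * (D * 2 ^ j)

open Classical in
/-- The number of the scales `1 / (c D) ≤ 2 ^ j ≤ Y` without this property. -/
noncomputable def badScales (S : Set ℕ) (c D δ : ℝ) (Y m : ℕ) : ℕ :=
  ((Finset.range (Nat.log 2 Y + 1)).filter (fun j => 1 ≤ c * (D * (2 : ℝ) ^ j) ∧
    ¬ ConstantDensity S c D δ m j)).card

/-- The elements of `S` that are not regular points of `S`. -/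
def Irregular (S : Set ℕ) (c D δ : ℝ) (B Y : ℕ) : Set ℕ :=
  {m | m ∈ S ∧ ¬ (RightOrder S c D Y m ∧ badScales S c D δ Y m ≤ B)}

open Pool.Agent.W123.RU Pool.Agent.H373R2.T7 Pool.Agent.TH464.PO Pool.Agent.Q236.GW
open Pool.Agent.W123.RU.Poly (Q)

lemma sf_iff (X : ℕ) (a : ℤ) (d r m : ℕ) :
    Sf (Q (fl a d)) ⌊(X : ℝ) ^ (1 / (r : ℝ))⌋₊ m ↔ m ∈ R X a d r := by
  have h0 : (0 : ℝ) ≤ (X : ℝ) ^ (1 / (r : ℝ)) := by positivity
  constructor
  · intro h q hq hqn hd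
    exact h q (mem_pz.2 ⟨Nat.le_floor hqn, hq⟩) ((fl_Q a d q m hq).2 hd)
  · intro h q hq hd
    have hqq := (mem_pz.1 hq).2
    exact h q hqq (mem_pz' h0 hq) ((fl_Q a d q m hqq).1 hd)

/-- **Primes `q` with `a + q d` prime: regular neighbourhoods, uniformly in `a` and `d`.** -/
theorem result (A θ : ℝ) (hA : 0 < A) (hθ : 0 < θ) :
    ∃ r₀ : ℕ, 2 ≤ r₀ ∧ ∀ r : ℕ, r₀ ≤ r →
      (∀ (X : ℕ) (a : ℤ) (d q : ℕ), q.Prime → (a + q * d).natAbs.Prime →
        (X : ℝ) ^ (1 / (r : ℝ)) < (q : ℝ) → (X : ℝ) ^ (1 / (r : ℝ)) < ((a + q * d).natAbs : ℝ) →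
        q ∈ R X a d r) ∧
      ∀ ε : ℝ, 0 < ε → ∃ c : ℝ, 0 < c ∧ ∀ δ : ℝ, 0 < δ → ∃ B : ℕ, ∀ᶠ X : ℕ in atTop,
        ∀ (a : ℤ) (d : ℕ), a ≠ 0 → 1 ≤ d → IsCoprime a (d : ℤ) → Even (a * d) →
          |(a : ℝ)| ≤ (X : ℝ) ^ A → (d : ℝ) ≤ (X : ℝ) ^ A →
          ∀ u Y : ℕ, (X : ℝ) ^ θ ≤ Y → Y ≤ X → Y ≤ u → ∀ S : Set ℕ, S ⊆ R X a d r →
            (N (Irregular S c (dens X a d) δ B Y) u (u + Y) : ℝ) ≤ ε * (Y * dens X a d) := by
  obtain ⟨r0, hr0, h⟩ := her_fl A θ hA hθ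
  refine ⟨r0, hr0, ?_⟩
  intro r hr
  refine ⟨?_, ?_⟩
  · intro X a d q hq haq h1 h2 p hp hpX hd
    have hpi : Prime (p : ℤ) := Nat.prime_iff_prime_int.1 hp
    rcases hpi.dvd_or_dvd hd with h3 | h3
    · have h4 := (Nat.prime_dvd_prime_iff_eq hp hq).1 (Int.natCast_dvd_natCast.1 h3)
      rw [h4] at hpX
      linarith
    · have h4 := (Nat.prime_dvd_prime_iff_eq hp haq).1 (Int.natCast_dvd.1 h3)
      rw [← h4] at h2
      linarith
  · intro ε hε
    obtain ⟨c, hc, h2⟩ := h r hr ε hε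
    refine ⟨c, hc, fun δ hδ => ?_⟩
    obtain ⟨B, h3⟩ := h2 δ hδ
    refine ⟨B, ?_⟩
    filter_upwards [h3] with X hX
    intro a d ha0 hd had hev haX hdX u Y hXY hYX hYu S hS
    exact hX a d hd ha0 had hev haX hdX u Y hXY hYX hYu S
      (fun m hm => (sf_iff X a d r m).2 (hS hm))

end Pool.Agent.Results.MP_8bf9c2_nt.RegularUniform
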