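import Mathlib

/-!
# Polynomial value sets recognisable in abstract numeration systems (MP_8c22a7)

If `P` is a rational polynomial of degree at least two with `P(ℕ) ⊆ ℕ` and `P(ℕ)` is recognisable
in an abstract numeration system built on a regular language `L`, then `L` is polynomial.

Idea: the gaps between consecutive large values of `P` are pairwise distinct.  If a state of a
finite automaton for the pair (`L`, `rep(P(ℕ))`) is reached by two different words `u`, `u'` and
`u z`, `u z'` are consecutive representations of values of `P` of the same length, then so are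
`u' z`, `u' z'`, with the same gap.  So `rep(P(ℕ))` has a bounded number of words of each length,
which forces polynomial growth of `L`.
-/

namespace Pool.Agent.Results.MP_8c22a7_lc.PolynomialGrowth

open Filter Asymptotics Polynomial

/-- The genealogical (radix) order on words: first by length, then lexicographically. -/
def Radix {A : Type} [LinearOrder A] (u v : List A) : Prop :=
  u.length < v.length ∨ (u.length = v.length ∧ List.Lex (· < ·) u v)

/-- `rep` enumerates the words of `L` in increasing radix order: `rep n` is the `(n+1)`-st word. -/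
def IsEnumeration {A : Type} [LinearOrder A] (L : Language A) (rep : ℕ → List A) : Prop :=
  (∀ m n, m < n → Radix (rep m) (rep n)) ∧ ∀ w, w ∈ L ↔ ∃ n, rep n = w

/-- The set of values `P(ℕ)` of the polynomial `P`. -/
def valueSet (P : Polynomial ℚ) : Set ℕ := {m | ∃ n : ℕ, P.eval (n : ℚ) = (m : ℚ)}

/-- The representations of the elements of `X`. -/
def repSet {A : Type} (rep : ℕ → List A) (X : Set ℕ) : Language A := {w | ∃ n ∈ X, rep n = w}

/-- The number of words of length `n` of `L` is `O(n^k)` for some `k`. -/
def PolynomialLanguage {A : Type} (L : Language A) : Prop :=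
  ∃ k : ℕ, (fun n : ℕ => (({w : List A | w ∈ L ∧ w.length = n}.ncard : ℕ) : ℝ)) =O[atTop]
    (fun n : ℕ => (n : ℝ) ^ k)

/-! ## Facts on the radix order -/

section Order

variable {A : Type} [LinearOrder A]

theorem radix_iff (u v : List A) : Radix u v ↔ List.Shortlex (· < ·) u v :=
  List.shortlex_def.symm

theorem radix_asymm {u v : List A} (h : Radix u v) : ¬ Radix v u := by
  rw [radix_iff] at h ⊢
  exact Std.Asymm.asymm _ _ h

theorem radix_irrefl (u : List A) : ¬ Radix u u := fun h => radix_asymm h h

theorem radix_tri (u v : List A) : Radix u v ∨ u = v ∨ Radix v u := by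
  rw [radix_iff, radix_iff]
  by_cases h1 : List.Shortlex (· < ·) u v
  · exact Or.inl h1
  by_cases h2 : List.Shortlex (· < ·) v u
  · exact Or.inr (Or.inr h2)
  · exact Or.inr (Or.inl (Std.Trichotomous.trichotomous _ _ h1 h2))

theorem radix_append_left {z t : List A} (h : Radix z t) (u : List A) :
    Radix (u ++ z) (u ++ t) := by
  rw [radix_iff] at h ⊢
  exact h.append_left u

theorem radix_of_append {z t : List A} (u : List A) (h : Radix (u ++ z) (u ++ t)) :
    Radix z t := by
  rcases radix_tri z t with h1 | h1 | h1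
  · exact h1
  · subst h1
    exact absurd h (radix_irrefl _)
  · exact absurd h (radix_asymm (radix_append_left h1 u))

theorem radix_length {u v : List A} (h : Radix u v) : u.length ≤ v.length := by
  rcases h with h | h
  · exact h.le
  · exact h.1.le

theorem lex_between (u : List A) : ∀ z t w : List A, w.length = (u ++ z).length →
    List.Lex (· < ·) (u ++ z) w → List.Lex (· < ·) w (u ++ t) → ∃ r, w = u ++ r := by
  induction u with
  | nil => intro z t w _ _ _; exact ⟨w, rfl⟩
  | cons a u ih =>
    intro z t w hw h1 h2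
    cases w with
    | nil => simp at hw
    | cons b w =>
      rw [List.cons_append] at h1 h2
      simp only [List.cons_append, List.length_cons, Nat.add_right_cancel_iff] at hw
      rcases lt_trichotomy a b with hab | hab | hab
      · exfalso
        cases h2 with
        | cons h => exact lt_irrefl _ hab
        | rel h => exact lt_asymm hab h
      · subst hab
        have h1' : List.Lex (· < ·) (u ++ z) w := by
          cases h1 with
          | cons h => exact h
          | rel h => exact absurd h (lt_irrefl _)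
        have h2' : List.Lex (· < ·) w (u ++ t) := by
          cases h2 with
          | cons h => exact h
          | rel h => exact absurd h (lt_irrefl _)
        obtain ⟨r, hr⟩ := ih z t w hw h1' h2'
        exact ⟨r, by rw [hr]; rfl⟩
      · exfalso
        cases h1 with
        | cons h => exact lt_irrefl _ hab
        | rel h => exact lt_asymm hab h

theorem radix_between {u z t w : List A} (hzt : z.length = t.length)
    (h1 : Radix (u ++ z) w) (h2 : Radix w (u ++ t)) : ∃ r, w = u ++ r := by
  have l1 := radix_length h1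
  have l2 := radix_length h2
  have e : w.length = (u ++ z).length := by
    simp only [List.length_append] at *
    omega
  have e2 : w.length = (u ++ t).length := by
    simp only [List.length_append] at *
    omega
  rcases h1 with h1 | h1
  · omega
  rcases h2 with h2 | h2
  · omega
  exact lex_between u z t w e h1.2 h2.2

end Order

/-! ## Enumerations -/

section Enum

variable {A : Type} [LinearOrder A] {L : Language A} {rep : ℕ → List A}

theorem rep_lt_iff (h : IsEnumeration L rep) (m n : ℕ) : Radix (rep m) (rep n) ↔ m < n := by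
  constructor
  · intro hr
    rcases lt_trichotomy m n with h1 | h1 | h1
    · exact h1
    · subst h1; exact absurd hr (radix_irrefl _)
    · exact absurd (h.1 _ _ h1) (radix_asymm hr)
  · exact h.1 m n

theorem rep_inj (h : IsEnumeration L rep) {m n : ℕ} (e : rep m = rep n) : m = n := by
  rcases lt_trichotomy m n with h1 | h1 | h1
  · have := h.1 _ _ h1
    rw [e] at this
    exact absurd this (radix_irrefl _)
  · exact h1
  · have := h.1 _ _ h1
    rw [e] at this
    exact absurd this (radix_irrefl _)

theorem rep_mem (h : IsEnumeration L rep) (n : ℕ) : rep n ∈ L := (h.2 _).2 ⟨n, rfl⟩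

theorem rep_length_mono (h : IsEnumeration L rep) {m n : ℕ} (hmn : m ≤ n) :
    (rep m).length ≤ (rep n).length := by
  rcases hmn.lt_or_eq with h1 | h1
  · exact radix_length (h.1 _ _ h1)
  · rw [h1]

/-- Comparison of words with a common prefix does not depend on the prefix. -/
theorem transfer (h : IsEnumeration L rep) {u u' z t : List A} {k l k' l' : ℕ}
    (hk : rep k = u ++ z) (hl : rep l = u ++ t) (hk' : rep k' = u' ++ z)
    (hl' : rep l' = u' ++ t) (hkl : k < l) : k' < l' := by
  have h1 := h.1 k l hkl
  rw [hk, hl] at h1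
  have h2 := radix_append_left (radix_of_append u h1) u'
  rw [← hk', ← hl'] at h2
  exact (rep_lt_iff h _ _).1 h2

theorem between (h : IsEnumeration L rep) {u z t : List A} {x y k : ℕ}
    (hx : rep x = u ++ z) (hy : rep y = u ++ t) (hzt : z.length = t.length)
    (h1 : x ≤ k) (h2 : k ≤ y) : ∃ r, rep k = u ++ r := by
  rcases h1.lt_or_eq with h1 | h1
  · rcases h2.lt_or_eq with h2 | h2
    · have r1 := h.1 _ _ h1
      have r2 := h.1 _ _ h2
      rw [hx] at r1
      rw [hy] at r2
      exact radix_between hzt r1 r2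
    · exact ⟨t, by rw [h2, hy]⟩
  · exact ⟨z, by rw [← h1, hx]⟩

/-- The gap only depends on the suffixes. -/
theorem gap_le (h : IsEnumeration L rep) {u u' z t : List A} {x y x' y' : ℕ}
    (hx : rep x = u ++ z) (hy : rep y = u ++ t) (hx' : rep x' = u' ++ z)
    (hy' : rep y' = u' ++ t) (hzt : z.length = t.length)
    (hst : ∀ r, u ++ r ∈ L → u' ++ r ∈ L) : y - x ≤ y' - x' := by
  have key : ∀ k ∈ Finset.Ico x y, ∃ k', k' ∈ Finset.Ico x' y' ∧
      ∃ r, rep k = u ++ r ∧ rep k' = u' ++ r := by
    intro k hk
    rw [Finset.mem_Ico] at hk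
    obtain ⟨r, hr⟩ := between h hx hy hzt hk.1 hk.2.le
    have hm : u' ++ r ∈ L := hst r (by rw [← hr]; exact rep_mem h k)
    obtain ⟨k', hk'⟩ := (h.2 _).1 hm
    refine ⟨k', ?_, r, hr, hk'⟩
    rw [Finset.mem_Ico]
    refine ⟨?_, transfer h hr hy hk' hy' hk.2⟩
    rcases hk.1.lt_or_eq with h1 | h1
    · exact (transfer h hx hr hx' hk' h1).le
    · subst h1
      have : z = r := List.append_cancel_left (hx.symm.trans hr)
      subst this
      exact (rep_inj h (hx'.trans hk'.symm)).le
  choose! g hg1 r hg2 hg3 using key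
  have := Finset.card_le_card_of_injOn (s := Finset.Ico x y) (t := Finset.Ico x' y') g
    (fun k hk => hg1 k hk) (by
      intro k hk l hl hkl
      have e1 := hg3 k hk
      have e2 := hg3 l hl
      rw [hkl] at e1
      have e3 : r k = r l := List.append_cancel_left (e1.symm.trans e2)
      refine rep_inj h ?_
      rw [hg2 k hk, hg2 l hl, e3])
  simpa using this

end Enum

/-! ## The polynomial -/

theorem eventually_pos (q : ℝ[X]) (hq : 0 < q.leadingCoeff) : ∀ᶠ x : ℝ in atTop, 0 < q.eval x := by
  rcases Nat.eq_zero_or_pos q.natDegree with h | h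
  · rw [eq_C_of_natDegree_eq_zero h] at hq ⊢
    rw [leadingCoeff_C] at hq
    refine Eventually.of_forall (fun x => ?_)
    rw [eval_C]
    exact hq
  · exact (q.tendsto_atTop_of_leadingCoeff_nonneg (natDegree_pos_iff_degree_pos.1 h)
      hq.le).eventually_gt_atTop 0

theorem lc_deriv (p : ℝ[X]) (h1 : 1 ≤ p.natDegree) (h2 : 0 < p.leadingCoeff) :
    0 < (derivative p).leadingCoeff ∧ (derivative p).natDegree = p.natDegree - 1 := by
  have hn : (derivative p).natDegree = p.natDegree - 1 := natDegree_derivative p
  refine ⟨?_, hn⟩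
  rw [leadingCoeff, hn, coeff_derivative, Nat.sub_add_cancel h1]
  have : (0 : ℝ) ≤ ((p.natDegree - 1 : ℕ) : ℝ) := Nat.cast_nonneg _
  rw [leadingCoeff] at h2
  positivity

theorem poly_facts (P : Polynomial ℚ) (hd : 2 ≤ P.natDegree) (f : ℕ → ℕ)
    (hf : ∀ n : ℕ, P.eval (n : ℚ) = (f n : ℚ)) :
    ∃ n₁ : ℕ, ∀ n ≥ n₁, f n < f (n + 1) ∧ 2 * f (n + 1) < f n + f (n + 2) := by
  set p : ℝ[X] := P.map (algebraMap ℚ ℝ) with hp
  have hpe : ∀ n : ℕ, p.eval (n : ℝ) = (f n : ℝ) := by
    intro n
    have h1 : p.eval ((algebraMap ℚ ℝ) (n : ℚ)) = (algebraMap ℚ ℝ) (P.eval (n : ℚ)) := by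
      rw [hp, eval_map_algebraMap, aeval_algebraMap_apply, coe_aeval_eq_eval]
    rw [hf n] at h1
    simpa using h1
  have hpd : p.natDegree = P.natDegree := natDegree_map _
  have hdeg : 0 < p.degree := natDegree_pos_iff_degree_pos.1 (by omega)
  have hlc : 0 < p.leadingCoeff := by
    by_contra hneg
    have hneg : p.leadingCoeff ≤ 0 := not_lt.1 hneg
    have h1 := (p.tendsto_atBot_of_leadingCoeff_nonpos hdeg hneg).comp
      (tendsto_natCast_atTop_atTop (R := ℝ))
    have h2 := h1.eventually_lt_atBot 0
    obtain ⟨n, hn⟩ := h2.exists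
    simp only [Function.comp_apply] at hn
    rw [hpe n] at hn
    exact absurd hn (not_lt.2 (Nat.cast_nonneg _))
  have hd1 := lc_deriv p (by omega) hlc
  have hd2 := lc_deriv (derivative p) (by omega) hd1.1
  obtain ⟨a, ha⟩ := eventually_atTop.1 (eventually_pos _ hd1.1)
  obtain ⟨b, hb⟩ := eventually_atTop.1 (eventually_pos _ hd2.1)
  obtain ⟨n₁, hn₁⟩ := exists_nat_ge (max a b)
  have hderiv : deriv (fun x => p.eval x) = fun x => (derivative p).eval x := by
    funext x
    exact p.deriv
  have hderiv2 : deriv (fun x => (derivative p).eval x) =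
      fun x => (derivative (derivative p)).eval x := by
    funext x
    exact (derivative p).deriv
  refine ⟨n₁, fun n hn => ?_⟩
  have hn' : max a b ≤ (n : ℝ) := le_trans hn₁ (by exact_mod_cast hn)
  have hna : a ≤ (n : ℝ) := le_trans (le_max_left _ _) hn'
  have hnb : b ≤ (n : ℝ) := le_trans (le_max_right _ _) hn'
  constructor
  · have hmono : StrictMonoOn (fun x => p.eval x) (Set.Ici (n : ℝ)) := by
      refine strictMonoOn_of_deriv_pos (convex_Ici _) p.continuous.continuousOn ?_
      intro x hx
      rw [interior_Ici] at hx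
      rw [hderiv]
      exact ha x (le_trans hna hx.le)
    have h1 := hmono (Set.mem_Ici.2 le_rfl) (Set.mem_Ici.2 (by simp : (n : ℝ) ≤ (n : ℝ) + 1))
      (by simp)
    simp only at h1
    rw [hpe n] at h1
    have h2 := hpe (n + 1)
    push_cast at h2
    rw [h2] at h1
    exact_mod_cast h1
  · have hconv : StrictConvexOn ℝ (Set.Ici (n : ℝ)) (fun x => p.eval x) := by
      refine strictConvexOn_of_deriv2_pos (convex_Ici _) p.continuous.continuousOn ?_
      intro x hx
      rw [interior_Ici] at hx
      simp only [Function.iterate_succ, Function.iterate_zero, Function.comp_apply, id]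
      rw [hderiv, hderiv2]
      exact hb x (le_trans hnb hx.le)
    have h1 := hconv.2 (Set.mem_Ici.2 le_rfl)
      (Set.mem_Ici.2 (by simp : (n : ℝ) ≤ (n : ℝ) + 2)) (by simp)
      (show (0 : ℝ) < 1 / 2 by norm_num) (show (0 : ℝ) < 1 / 2 by norm_num) (by norm_num)
    simp only [smul_eq_mul] at h1
    have e : (1 / 2 : ℝ) * n + 1 / 2 * (n + 2) = ((n + 1 : ℕ) : ℝ) := by push_cast; ring
    have e2 : (n : ℝ) + 2 = ((n + 2 : ℕ) : ℝ) := by push_cast; ring
    rw [e, e2, hpe, hpe, hpe] at h1
    have h3 : (2 * f (n + 1) : ℝ) < f n + f (n + 2) := by linarith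
    exact_mod_cast h3

theorem f_strict {f : ℕ → ℕ} {n₁ : ℕ}
    (hf : ∀ n ≥ n₁, f n < f (n + 1) ∧ 2 * f (n + 1) < f n + f (n + 2)) {m n : ℕ}
    (hm : n₁ ≤ m) (hmn : m < n) : f m < f n := by
  induction n, hmn using Nat.le_induction with
  | base => exact (hf m hm).1
  | succ n hn ih => exact lt_trans ih (hf n (by omega)).1

theorem gap_strict {f : ℕ → ℕ} {n₁ : ℕ}
    (hf : ∀ n ≥ n₁, f n < f (n + 1) ∧ 2 * f (n + 1) < f n + f (n + 2)) {m n : ℕ}
    (hm : n₁ ≤ m) (hmn : m < n) : f (m + 1) - f m < f (n + 1) - f n := by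
  induction n, hmn using Nat.le_induction with
  | base =>
    have h1 := hf m hm
    have h2 := hf (m + 1) (by omega)
    simp only [Nat.succ_eq_add_one, Nat.add_assoc, Nat.reduceAdd] at h1 h2 ⊢
    omega
  | succ n hn ih =>
    have h1 := hf n (by omega)
    have h2 := hf (n + 1) (by omega)
    have h3 : f (n + 1 + 1) = f (n + 2) := rfl
    rw [h3] at h2 ⊢
    omega

/-! ## The automata argument -/

theorem regular_states {A : Type} (L R : Language A) (hL : L.IsRegular) (hR : R.IsRegular) :
    ∃ m₀ : ℕ, ∀ u : List A, u.length = m₀ → ∃ u' : List A, u' ≠ u ∧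
      ∀ z, (u ++ z ∈ L ↔ u' ++ z ∈ L) ∧ (u ++ z ∈ R ↔ u' ++ z ∈ R) := by
  obtain ⟨σ₁, hσ₁, M₁, rfl⟩ := hL
  obtain ⟨σ₂, hσ₂, M₂, rfl⟩ := hR
  let st : List A → σ₁ × σ₂ := fun u => (M₁.eval u, M₂.eval u)
  let T : Set (List A) := {u | ∀ u', st u' = st u → u' = u}
  have hT : T.Finite := by
    refine Set.Finite.of_finite_image (f := st) (Set.toFinite _) ?_
    intro u hu v hv huv
    exact (hu v huv.symm).symm
  obtain ⟨B, hB⟩ := (hT.image List.length).bddAbove
  refine ⟨B + 1, fun u hu => ?_⟩
  have hnT : u ∉ T := by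
    intro h
    have := hB ⟨u, h, rfl⟩
    omega
  have : ∃ u', st u' = st u ∧ u' ≠ u := by
    by_contra hcon
    push Not at hcon
    exact hnT hcon
  obtain ⟨u', h1, h2⟩ := this
  refine ⟨u', h2, fun z => ?_⟩
  have e1 : M₁.eval u' = M₁.eval u := congrArg Prod.fst h1
  have e2 : M₂.eval u' = M₂.eval u := congrArg Prod.snd h1
  have a1 : ∀ v, M₁.eval (v ++ z) = M₁.evalFrom (M₁.eval v) z := fun v =>
    DFA.evalFrom_of_append _ _ _ _
  have a2 : ∀ v, M₂.eval (v ++ z) = M₂.evalFrom (M₂.eval v) z := fun v =>
    DFA.evalFrom_of_append _ _ _ _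
  constructor
  · rw [DFA.mem_accepts, DFA.mem_accepts, a1, a1, e1]
  · rw [DFA.mem_accepts, DFA.mem_accepts, a2, a2, e2]

theorem bounded_level {A : Type} [Fintype A] [LinearOrder A] {L R : Language A}
    (hL : L.IsRegular) (hR : R.IsRegular) {rep : ℕ → List A} (hrep : IsEnumeration L rep)
    {f : ℕ → ℕ} {n₁ : ℕ}
    (hf : ∀ n ≥ n₁, f n < f (n + 1) ∧ 2 * f (n + 1) < f n + f (n + 2))
    (hRf : ∀ w, w ∈ R ↔ ∃ n, rep (f n) = w) :
    ∃ C N₀ : ℕ, ∀ n ≥ N₀, {w : List A | w ∈ R ∧ w.length = n}.ncard ≤ C := by
  obtain ⟨m₀, hm₀⟩ := regular_states L R hL hR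
  -- large values
  obtain ⟨x₀, hx₀⟩ : ∃ x₀ : ℕ, ∀ n, x₀ ≤ f n → n₁ < n := by
    refine ⟨(Finset.range (n₁ + 1)).sup f + 1, fun n hn => ?_⟩
    by_contra hlt
    have : f n ≤ (Finset.range (n₁ + 1)).sup f :=
      Finset.le_sup (f := f) (Finset.mem_range.2 (by omega))
    omega
  have hlarge : ∀ n, (rep x₀).length + 1 ≤ (rep (f n)).length → n₁ < n := by
    intro n hn
    refine hx₀ n ?_
    by_contra hlt
    have := rep_length_mono hrep (m := f n) (n := x₀) (by omega)
    omega
  refine ⟨{l : List A | l.length = m₀}.ncard, m₀ + ((rep x₀).length + 1), fun n hn => ?_⟩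
  refine Set.ncard_le_ncard_of_injOn (fun w => w.take m₀) ?_ ?_ (List.finite_length_eq A m₀)
  · intro w hw
    show (w.take m₀).length = m₀
    rw [List.length_take, hw.2]
    omega
  -- the main argument
  have main : ∀ u z₁ z₂ : List A, u.length = m₀ → z₁.length = n - m₀ → z₂.length = n - m₀ →
      ∀ i j, rep (f i) = u ++ z₁ → rep (f j) = u ++ z₂ → ¬ f i < f j := by
    intro u z₁ z₂ hu hz₁ hz₂ i j hi hj hlt
    obtain ⟨u', hne, hst⟩ := hm₀ u hu
    have hi1 : n₁ < i := hlarge i (by rw [hi, List.length_append]; omega)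
    have hj1 : n₁ < j := hlarge j (by rw [hj, List.length_append]; omega)
    have hij : i < j := by
      by_contra hcon
      rcases Nat.lt_or_ge j i with h | h
      · exact absurd (f_strict hf hj1.le h) (by omega)
      · have : i = j := by omega
        subst this
        exact absurd hlt (lt_irrefl _)
    have hle : f (i + 1) ≤ f j := by
      rcases Nat.lt_or_ge (i + 1) j with h | h
      · exact (f_strict hf (by omega) h).le
      · have : i + 1 = j := by omega
        rw [this]
    obtain ⟨z', hz'⟩ := between hrep hi hj (by omega) (k := f (i + 1))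
      (hf i (by omega)).1.le hle
    have hlen' : z'.length = z₁.length := by
      have a1 := rep_length_mono hrep (m := f i) (n := f (i + 1)) (hf i (by omega)).1.le
      have a2 := rep_length_mono hrep hle
      rw [hi, hz', List.length_append, List.length_append] at a1
      rw [hj, hz', List.length_append, List.length_append] at a2
      omega
    -- transfer to u'
    have hR1 : u' ++ z₁ ∈ R := (hst z₁).2.1 ((hRf _).2 ⟨i, hi⟩)
    have hR2 : u' ++ z' ∈ R := (hst z').2.1 ((hRf _).2 ⟨i + 1, hz'⟩)
    obtain ⟨i', hi'⟩ := (hRf _).1 hR1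
    obtain ⟨j', hj'⟩ := (hRf _).1 hR2
    have hlt' : f i' < f j' := transfer hrep hi hz' hi' hj' (hf i (by omega)).1
    have hi1' : n₁ < i' := hlarge i' (by rw [hi', List.length_append]; omega)
    have hj1' : n₁ < j' := hlarge j' (by rw [hj', List.length_append]; omega)
    have hij' : i' < j' := by
      by_contra hcon
      rcases Nat.lt_or_ge j' i' with h | h
      · exact absurd (f_strict hf hj1'.le h) (by omega)
      · have : i' = j' := by omega
        subst this
        exact absurd hlt' (lt_irrefl _)
    have hj'eq : j' = i' + 1 := by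
      by_contra hcon
      have hlt2 : i' + 1 < j' := by omega
      have s1 : f i' < f (i' + 1) := (hf i' (by omega)).1
      have s2 : f (i' + 1) < f j' := f_strict hf (by omega) hlt2
      obtain ⟨r, hr⟩ := between hrep hi' hj' (by omega) s1.le s2.le
      have hR3 : u ++ r ∈ R := (hst r).2.2 ((hRf _).2 ⟨i' + 1, hr⟩)
      obtain ⟨l, hl⟩ := (hRf _).1 hR3
      have t1 : f i < f l := transfer hrep hi' hr hi hl s1
      have t2 : f l < f (i + 1) := transfer hrep hr hj' hl hz' s2
      have hl1 : n₁ < l := by
        refine hlarge l ?_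
        have a1 := rep_length_mono hrep t1.le
        rw [hi, List.length_append] at a1
        omega
      rcases Nat.lt_or_ge i l with h | h
      · rcases Nat.lt_or_ge (i + 1) l with h2 | h2
        · have := f_strict hf (by omega) h2
          omega
        · have : l = i + 1 := by omega
          subst this
          omega
      · rcases Nat.lt_or_ge l i with h2 | h2
        · have := f_strict hf hl1.le h2
          omega
        · have : l = i := by omega
          subst this
          omega
    subst hj'eq
    have g1 := gap_le hrep hi hz' hi' hj' hlen'.symm (fun r hr => (hst r).1.1 hr)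
    have g2 := gap_le hrep hi' hj' hi hz' hlen'.symm (fun r hr => (hst r).1.2 hr)
    have hne' : i ≠ i' := by
      rintro rfl
      have := hi.symm.trans hi'
      exact hne (List.append_cancel_right this).symm
    rcases Nat.lt_or_ge i i' with h | h
    · have := gap_strict hf hi1.le h
      omega
    · have := gap_strict hf hi1'.le (show i' < i by omega)
      omega
  intro w₁ hw₁ w₂ hw₂ htake
  obtain ⟨i, hi⟩ := (hRf _).1 hw₁.1
  obtain ⟨j, hj⟩ := (hRf _).1 hw₂.1
  have e1 : rep (f i) = w₁.take m₀ ++ w₁.drop m₀ := by rw [hi, List.take_append_drop]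
  have e2 : rep (f j) = w₁.take m₀ ++ w₂.drop m₀ := by
    rw [hj]
    simp only at htake
    rw [htake, List.take_append_drop]
  have l0 : (w₁.take m₀).length = m₀ := by
    rw [List.length_take, hw₁.2]
    omega
  have l1 : (w₁.drop m₀).length = n - m₀ := by rw [List.length_drop, hw₁.2]
  have l2 : (w₂.drop m₀).length = n - m₀ := by rw [List.length_drop, hw₂.2]
  have n1 := main _ _ _ l0 l1 l2 i j e1 e2
  have n2 := main _ _ _ l0 l2 l1 j i e2 e1
  have : f i = f j := by omega
  rw [← hi, ← hj, this]

/-! ## Counting -/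

theorem count_short {A : Type} [Finite A] (R : Language A) (C N₀ : ℕ)
    (h : ∀ n ≥ N₀, {w : List A | w ∈ R ∧ w.length = n}.ncard ≤ C) (n : ℕ) :
    {w : List A | w ∈ R ∧ w.length < n}.ncard ≤ {w : List A | w.length < N₀}.ncard + C * n := by
  induction n with
  | zero => simp
  | succ n ih =>
    have hfin : ∀ m : ℕ, {w : List A | w ∈ R ∧ w.length < m}.Finite := fun m =>
      (List.finite_length_lt A m).subset (fun w hw => hw.2)
    rcases Nat.lt_or_ge n N₀ with hn | hn
    · have : {w : List A | w ∈ R ∧ w.length < n + 1}.ncard ≤ {w : List A | w.length < N₀}.ncard :=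
        Set.ncard_le_ncard (fun w hw => lt_of_lt_of_le hw.2 (by omega)) (List.finite_length_lt A N₀)
      omega
    · have h1 : {w : List A | w ∈ R ∧ w.length < n + 1} ⊆
          {w : List A | w ∈ R ∧ w.length < n} ∪ {w : List A | w ∈ R ∧ w.length = n} := by
        rintro w ⟨hw, hl⟩
        rcases Nat.lt_or_ge w.length n with h2 | h2
        · exact Or.inl ⟨hw, h2⟩
        · exact Or.inr ⟨hw, by omega⟩
      have hfin2 : {w : List A | w ∈ R ∧ w.length = n}.Finite :=
        (List.finite_length_eq A n).subset (fun w hw => hw.2)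
      have h2 := Set.ncard_le_ncard h1 ((hfin n).union hfin2)
      have h3 := Set.ncard_union_le {w : List A | w ∈ R ∧ w.length < n}
        {w : List A | w ∈ R ∧ w.length = n}
      have h4 := h n hn
      have h5 : C * (n + 1) = C * n + C := by ring
      omega

theorem growth {A : Type} [Fintype A] [LinearOrder A] {L R : Language A}
    {rep : ℕ → List A} (hrep : IsEnumeration L rep)
    {f : ℕ → ℕ} {n₁ : ℕ}
    (hf : ∀ n ≥ n₁, f n < f (n + 1) ∧ 2 * f (n + 1) < f n + f (n + 2))
    (hRf : ∀ w, w ∈ R ↔ ∃ n, rep (f n) = w) {C N₀ : ℕ}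
    (h : ∀ n ≥ N₀, {w : List A | w ∈ R ∧ w.length = n}.ncard ≤ C) (n : ℕ) :
    {w : List A | w ∈ L ∧ w.length = n}.ncard ≤
      f (n₁ + ({w : List A | w.length < N₀}.ncard + C * (n + 1))) := by
  set m := {w : List A | w.length < N₀}.ncard + C * (n + 1) with hm
  have hcount := count_short R C N₀ h (n + 1)
  rw [← hm] at hcount
  have hlong : n < (rep (f (n₁ + m))).length := by
    by_contra hcon
    have hfin : {w : List A | w ∈ R ∧ w.length < n + 1}.Finite :=
      (List.finite_length_lt A (n + 1)).subset (fun w hw => hw.2)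
    have h1 : (Finset.range (m + 1)).card ≤ hfin.toFinset.card := by
      refine Finset.card_le_card_of_injOn (fun i => rep (f (n₁ + i))) ?_ ?_
      · intro i hi
        have hi' : i < m + 1 := by simpa using hi
        simp only [Set.Finite.coe_toFinset]
        refine ⟨(hRf _).2 ⟨_, rfl⟩, ?_⟩
        have : f (n₁ + i) ≤ f (n₁ + m) := by
          rcases Nat.lt_or_ge i m with h2 | h2
          · exact (f_strict hf (by omega) (by omega)).le
          · have : i = m := by omega
            rw [this]
        have := rep_length_mono hrep this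
        omega
      · intro i _ j _ hij
        have h2 := rep_inj hrep hij
        rcases lt_trichotomy i j with h3 | h3 | h3
        · have := f_strict hf (m := n₁ + i) (n := n₁ + j) (by omega) (by omega)
          omega
        · exact h3
        · have := f_strict hf (m := n₁ + j) (n := n₁ + i) (by omega) (by omega)
          omega
    rw [Finset.card_range, ← Set.ncard_eq_toFinset_card _ hfin] at h1
    omega
  have hsub : {w : List A | w ∈ L ∧ w.length = n} ⊆
      rep '' (↑(Finset.range (f (n₁ + m))) : Set ℕ) := by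
    rintro w ⟨hw, hl⟩
    obtain ⟨k, hk⟩ := (hrep.2 w).1 hw
    refine ⟨k, ?_, hk⟩
    rw [Finset.coe_range, Set.mem_Iio]
    by_contra hcon
    have := rep_length_mono hrep (m := f (n₁ + m)) (n := k) (by omega)
    rw [hk] at this
    omega
  have h1 := Set.ncard_le_ncard hsub ((Finset.finite_toSet _).image _)
  have h2 := Set.ncard_image_le (f := rep) (Finset.finite_toSet (Finset.range (f (n₁ + m))))
  rw [Set.ncard_coe_finset, Finset.card_range] at h2
  exact le_trans h1 h2

theorem polynomial_of_recognisable {A : Type} [Fintype A] [LinearOrder A] {L : Language A}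
    (hL : L.IsRegular) {rep : ℕ → List A} (hrep : IsEnumeration L rep) (P : Polynomial ℚ)
    (hP : ∀ n : ℕ, ∃ m : ℕ, P.eval (n : ℚ) = (m : ℚ)) (hd : 2 ≤ P.natDegree)
    (hR : (repSet rep (valueSet P)).IsRegular) : PolynomialLanguage L := by
  choose f hf using hP
  obtain ⟨n₁, hn₁⟩ := poly_facts P hd f hf
  have hRf : ∀ w, w ∈ repSet rep (valueSet P) ↔ ∃ n, rep (f n) = w := by
    intro w
    constructor
    · rintro ⟨k, ⟨n, hn⟩, rfl⟩
      refine ⟨n, ?_⟩
      rw [hf n] at hn
      have : f n = k := by exact_mod_cast hn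
      rw [this]
    · rintro ⟨n, rfl⟩
      exact ⟨f n, ⟨n, hf n⟩, rfl⟩
  obtain ⟨C, N₀, hC⟩ := bounded_level hL hR hrep hn₁ hRf
  have hg := growth hrep hn₁ hRf hC
  set c : ℕ := n₁ + {w : List A | w.length < N₀}.ncard + C with hc
  set q : ℝ[X] := (P.map (algebraMap ℚ ℝ)).comp (Polynomial.C (C : ℝ) * X +
    Polynomial.C (c : ℝ)) with hq
  refine ⟨q.natDegree, ?_⟩
  have hqe : ∀ n : ℕ, q.eval (n : ℝ) =
      (f (n₁ + ({w : List A | w.length < N₀}.ncard + C * (n + 1))) : ℝ) := by
    intro n
    have e : (C : ℝ) * n + c =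
        ((n₁ + ({w : List A | w.length < N₀}.ncard + C * (n + 1)) : ℕ) : ℝ) := by
      rw [hc]; push_cast; ring
    rw [hq, eval_comp]
    simp only [eval_add, eval_mul, eval_C, eval_X]
    rw [e]
    have h1 : (P.map (algebraMap ℚ ℝ)).eval ((algebraMap ℚ ℝ)
        ((n₁ + ({w : List A | w.length < N₀}.ncard + C * (n + 1)) : ℕ) : ℚ)) =
        (algebraMap ℚ ℝ) (P.eval
          ((n₁ + ({w : List A | w.length < N₀}.ncard + C * (n + 1)) : ℕ) : ℚ)) := by
      rw [eval_map_algebraMap, aeval_algebraMap_apply, coe_aeval_eq_eval]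
    rw [hf] at h1
    simpa using h1
  have hbig : q.eval =O[atTop] ((X : ℝ[X]) ^ q.natDegree).eval := by
    refine isBigO_atTop_of_degree_le _ _ ?_
    rw [degree_X_pow]
    exact degree_le_natDegree
  have hbig2 := hbig.comp_tendsto (tendsto_natCast_atTop_atTop (R := ℝ))
  refine IsBigO.trans ?_ (hbig2.congr_right (fun n => by simp))
  refine IsBigO.of_bound 1 (Eventually.of_forall fun n => ?_)
  simp only [Function.comp_apply]
  rw [hqe n, Real.norm_natCast, Real.norm_natCast, one_mul]
  exact_mod_cast hg n

/-! ## The enumeration exists and is unique -/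

theorem radix_trans {A : Type} [LinearOrder A] {u v w : List A} (h1 : Radix u v)
    (h2 : Radix v w) : Radix u w := by
  rcases h1 with h1 | ⟨h1, h1'⟩
  · exact Or.inl (lt_of_lt_of_le h1 (radix_length h2))
  · rcases h2 with h2 | ⟨h2, h2'⟩
    · exact Or.inl (by omega)
    · refine Or.inr ⟨by omega, ?_⟩
      have a1 : u < v := h1'
      have a2 : v < w := h2'
      exact lt_trans a1 a2

theorem enumeration_exists_unique {A : Type} [Fintype A] [LinearOrder A] (L : Language A)
    (hinf : (L : Set (List A)).Infinite) : ∃! rep : ℕ → List A, IsEnumeration L rep := by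
  have hfin : ∀ w : List A, {v : List A | Radix v w}.Finite := fun w =>
    (List.finite_length_le A w.length).subset (fun v hv => radix_length hv)
  let idx : List A → ℕ := fun w => {v : List A | Radix v w}.ncard
  have hidx : ∀ v w, Radix v w → idx v < idx w := by
    intro v w h
    refine Set.ncard_lt_ncard ?_ (hfin w)
    have hsub : {x : List A | Radix x v} ⊆ {x : List A | Radix x w} :=
      fun x (hx : Radix x v) => radix_trans hx h
    exact (Set.ssubset_iff_of_subset hsub).2 ⟨v, h, radix_irrefl v⟩
  have hinj : ∀ v w, idx v = idx w → v = w := by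
    intro v w h
    rcases radix_tri v w with h1 | h1 | h1
    · have := hidx _ _ h1; omega
    · exact h1
    · have := hidx _ _ h1; omega
  have hlt : ∀ v w, idx v < idx w → Radix v w := by
    intro v w h
    rcases radix_tri v w with h1 | h1 | h1
    · exact h1
    · subst h1; exact absurd h (lt_irrefl _)
    · have := hidx _ _ h1; omega
  have hSinf : (idx '' (L : Set (List A))).Infinite :=
    hinf.image (fun v _ w _ h => hinj v w h)
  have hmem : ∀ n, Nat.nth (· ∈ idx '' (L : Set (List A))) n ∈ idx '' (L : Set (List A)) :=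
    fun n => Nat.nth_mem_of_infinite (p := (· ∈ idx '' (L : Set (List A)))) hSinf n
  have hmem2 : ∀ n, ∃ w, w ∈ L ∧ idx w = Nat.nth (· ∈ idx '' (L : Set (List A))) n := by
    intro n
    obtain ⟨w, hw, he⟩ := hmem n
    exact ⟨w, hw, he⟩
  choose rep hrep1 hrep2 using hmem2
  refine ⟨rep, ⟨?_, ?_⟩, ?_⟩
  · intro m n hmn
    refine hlt _ _ ?_
    rw [hrep2, hrep2]
    exact Nat.nth_strictMono hSinf hmn
  · intro w
    constructor
    · intro hw
      have h1 : idx w ∈ Set.range (Nat.nth (· ∈ idx '' (L : Set (List A)))) := by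
        rw [Nat.range_nth_of_infinite (p := (· ∈ idx '' (L : Set (List A)))) hSinf]
        exact ⟨w, hw, rfl⟩
      obtain ⟨n, hn⟩ := h1
      exact ⟨n, hinj _ _ ((hrep2 n).trans hn)⟩
    · rintro ⟨n, rfl⟩
      exact hrep1 n
  · intro rep' h'
    have hrep : IsEnumeration L rep := by
      refine ⟨?_, ?_⟩
      · intro m n hmn
        refine hlt _ _ ?_
        rw [hrep2, hrep2]
        exact Nat.nth_strictMono hSinf hmn
      · intro w
        constructor
        · intro hw
          have h1 : idx w ∈ Set.range (Nat.nth (· ∈ idx '' (L : Set (List A)))) := by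
            rw [Nat.range_nth_of_infinite (p := (· ∈ idx '' (L : Set (List A)))) hSinf]
            exact ⟨w, hw, rfl⟩
          obtain ⟨n, hn⟩ := h1
          exact ⟨n, hinj _ _ ((hrep2 n).trans hn)⟩
        · rintro ⟨n, rfl⟩
          exact hrep1 n
    have hcount : ∀ r : ℕ → List A, IsEnumeration L r → ∀ n,
        {v : List A | v ∈ L ∧ Radix v (r n)}.ncard = n := by
      intro r hr n
      have : {v : List A | v ∈ L ∧ Radix v (r n)} = r '' (↑(Finset.range n) : Set ℕ) := by
        ext v
        constructor
        · rintro ⟨hv, hlt⟩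
          obtain ⟨k, rfl⟩ := (hr.2 v).1 hv
          refine ⟨k, ?_, rfl⟩
          rw [Finset.coe_range]
          exact (rep_lt_iff hr _ _).1 hlt
        · rintro ⟨k, hk, rfl⟩
          rw [Finset.coe_range] at hk
          exact ⟨rep_mem hr k, hr.1 _ _ hk⟩
      rw [this, Set.ncard_image_of_injective _ (fun a b h => rep_inj hr h),
        Set.ncard_coe_finset, Finset.card_range]
    funext n
    obtain ⟨m, hm⟩ := (hrep.2 _).1 (rep_mem h' n)
    have c1 := hcount rep' h' n
    have c2 := hcount rep hrep m
    rw [hm, c1] at c2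
    rw [← hm, c2]

/-- Main theorem.  Part one: every infinite language over a finite ordered alphabet has exactly one
enumeration `rep`.  Part two (Q1): if `P` has degree at least two and `P(ℕ) ⊆ ℕ`, and `P(ℕ)` is
recognisable in the abstract numeration system built on the regular language `L`, then `L` is
polynomial. -/
theorem result :
    (∀ (A : Type) [Fintype A] [LinearOrder A] (L : Language A), (L : Set (List A)).Infinite →
      ∃! rep : ℕ → List A, IsEnumeration L rep) ∧
    ∀ P : Polynomial ℚ, (∀ n : ℕ, ∃ m : ℕ, P.eval (n : ℚ) = (m : ℚ)) → 2 ≤ P.natDegree →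
      ∀ (A : Type) [Fintype A] [LinearOrder A] (L : Language A) (rep : ℕ → List A),
        L.IsRegular → IsEnumeration L rep → (repSet rep (valueSet P)).IsRegular →
          PolynomialLanguage L :=
  ⟨fun _ _ _ L hL => enumeration_exists_unique L hL,
    fun P hP hd _ _ _ _ _ hL hrep hR => polynomial_of_recognisable hL hrep P hP hd hR⟩

end Pool.Agent.Results.MP_8c22a7_lc.PolynomialGrowth
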