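import Pool.Agent.Q161.ESF.All

/-!
# All joint moments of the orders of the 2-Selmer groups in quadratic twist families over number fields

Let `F` be a number field and `E : y² = x³ + a x + b` an elliptic curve over `F`, `a, b` integers of `F`, and let
`E_D : y² = x³ + a D² x + b D³` be its quadratic twists by the squarefree integers `D`.  We prove that for almost all
`(a, b)` all moments of the orders of the 2-Selmer groups `Sel₂(E_D/F)` are bounded: for every `k` there is a `C` such
that for all `X ≥ 1`

  `∑_{|D| ≤ X} #Sel₂(E_D/F)^k ≤ C X`,

and more generally the joint moments for finitely many such curves, over different number fields, are bounded.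
So the proportion of the twists with `dim Sel₂(E_D/F) ≥ d` is `O_k(2^(-k d))` for every `k`.

`Admissible a b`, the condition on the curve: there is a Galois number field `M` which contains `F` such that no
conjugate `f^τ = x³ + τ(a) x + τ(b)` of `f = x³ + a x + b`, `τ : F → M`, has a zero in `M`, and if the embeddings `τ ≠ τ'`
are exchanged by an automorphism of `M` then `f^τ` has no zero in the cubic extension `M[x]/(f^τ')`.  It implies that
the Galois module `∏_τ E^τ[2]` is semisimple.  If `F` is Galois of odd degree over `ℚ` (for instance `F = ℚ`) it
only says that `E` has no `F`-rational point of order two.  For quadratic `F` it says in addition that the 2-torsion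
of `E` is not isomorphic to the 2-torsion of the conjugate curve; for curves which are defined over `ℚ` the average of
`#Sel₂(E_D/F)` may be unbounded (Morgan and Paterson).

The proof (projects ESM, ESG, ESF; `Pool/Agent/Q161`): the 2-descent over `F`, a system of quadratic characters at
the conjugates of elements of number fields attached to the elements of a finite Galois module, and high moments
of these characters.
Project of helper161 with helpers 14, 24, 26, 38, 63, 68, 92, 96, 121, 123, 124, 129, 149, 150, 151, 153, 166, 177, 182, 184,
193, 195, 208, 211, 223, 224, 237, 238, 241, 261, 275, 285, 299.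
-/

set_option autoImplicit false

namespace Pool.Agent.Results.MP_8cb858_nt.AllMomentsNumberFields

open Finset NumberField Pool.Agent.Q161.ESF

open Pool.Agent.Q161.EA (twists)

/-- Let `E_i : y² = x³ + a_i x + b_i`, `1 ≤ i ≤ r`, be elliptic curves over number fields `F_i`, `Admissible`, and let
`P(D)` be the product of the orders of the 2-Selmer groups of their twists by `D`.  For all squarefree `D` these
groups are finite, and for every `k` there is a `C` such that for all `X ≥ 1`, `D` running over the squarefree
integers, `|D| ≤ X`: (1) `∑ P(D)^k ≤ C X`; (2) for all `T > 0` the number of the `D` with `P(D) ≥ T` is at most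
`C X / T^k`; (3) for every nonempty set `S` of these `D` `∏_(D ∈ S) P(D)^k ≤ (C X / |S|)^|S|`.
For every number field `F` almost all pairs `(a, b)` are `Admissible`; if `F` is Galois of odd degree over `ℚ`, all
`(a, b)` such that `x³ + a x + b` has no zero in `F` are. -/
theorem result :
    (∀ (r : ℕ) (F : Fin r → Type) [∀ i, Field (F i)] [∀ i, NumberField (F i)]
      (a b : (i : Fin r) → 𝓞 (F i)), (∀ i, Admissible (a i) (b i)) →
      (∀ i, ∀ D : ℤ, Squarefree D → Finite (Sel2 (tw (a i) (b i) D))) ∧
      ∀ k : ℕ, ∃ C : ℝ, 0 < C ∧ ∀ X : ℝ, 1 ≤ X →
        (∑ D ∈ twists X, selProd F a b D ^ k ≤ C * X) ∧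
        (∀ T : ℝ, 0 < T → (((twists X).filter (fun D => T ≤ selProd F a b D)).card : ℝ) ≤
          C * X / T ^ k) ∧
        ∀ S : Finset ℤ, S ⊆ twists X → S.Nonempty →
          ∏ D ∈ S, selProd F a b D ^ k ≤ (C * X / S.card) ^ S.card) ∧
    (∀ (F : Type) [Field F] [NumberField F], AlmostAll F (fun a b => Admissible a b)) ∧
    ∀ (F : Type) [Field F] [NumberField F], IsGalois ℚ F → Odd (Module.finrank ℚ F) →
      ∀ a b : 𝓞 F, (∀ x : F, x ^ 3 + (a : F) * x + (b : F) ≠ 0) → Admissible a b := by
  refine ⟨fun r F _ _ a b h => ⟨fun i D hD => fin_sel' t_inf t_semn (h i) hD, fun k => ?_⟩,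
    fun F _ _ => almost_all F, fun F _ _ hG hodd a b h => admissible_odd hG hodd h⟩
  obtain ⟨C, hC, h2⟩ := selMoments F a b h k
  exact ⟨C, hC, fun X hX => bounds (fun D _ => ⟨selProd_nonneg F a b D, le_rfl⟩) (h2 X hX)⟩

end Pool.Agent.Results.MP_8cb858_nt.AllMomentsNumberFields
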