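import Pool.Agent.Q155.NB.Prt

/-!
# The Selmer groups of the twists of an elliptic curve by the divisors of `D`, for almost all squarefree `D`

Let `E : y² = x³ + a x² + b x`, `a` and `b` integers such that `b` is not a square and `b (a² - 4 b)` is a
square different from `0`, and let `E_N : y² = x³ + a N x² + b N² x` be its quadratic twists, `E_N'` the
curve isogenous to `E_N`. There is ONE set `𝒮` of squarefree positive integers which contains almost all of them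
(its density among the squarefree positive integers, in the natural order, is one), such that for all
these curves and EVERY squarefree integer `M` (positive or negative) the following holds for all
sufficiently large `D ∈ 𝒮` (how large may depend on the curve, on `M`, `D₀` and `ε`, not on `g`).
Let `M ∘ d` be the squarefree integer in the square class of `M d`; consider the `2 ^ ω(D)` curves `E_{M ∘ d}`,
`d ∣ D`.

For squarefree `D₀` the local class of `D₀` consists of the divisors `d` of `D` for which `D₀ (M ∘ d)` is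
positive and a square in `ℚ_p` for the primes `p` which divide `2 b (a² - 4 b)`. Let `τ` be the product, over
the infinite place and these primes, of `1/2` times the order of the image of `E_{D₀}(ℚ_v)` in `ℚ_v*/ℚ_v*²`
under the abscissa, and let `τ'` be the same for the isogenous curve. The orders of the Selmer groups of
the two isogenies of degree two between `E_{M ∘ d}` and `E_{M ∘ d}'` are `2 ^ (r + 1)` and `2 ^ (s + 1)`. If the class
is not empty then

* it contains at least `c 2 ^ ω(D)` divisors, `c > 0` depending on `a`, `b` only;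
* for EVERY function `g` with `|g n| ≤ 2 ^ n` the mean of `g(r)` over the divisors of the class differs by
  less than `ε` from `∑ g(n) law(τ, n)`, and the mean of `g(s)` from `∑ g(n) law(τ', n)`, where
  `law(t, n) = t ^ n / ((2 ^ n - 1) (2 ^ n - 2) ⋯ (2 ^ n - 2 ^ (n - 1))) · ∏_{i > n} (1 - t / 2 ^ i)`; hence the
  dimensions follow these laws, uniformly (in a weighted distance);
* the mean orders of the two Selmer groups differ by less than `2 ε` from `2 (1 + τ)` and `2 (1 + τ')`.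

For `a = 4`, `b = 2`, `M` negative and odd, `D` odd, and for `a = b = 5`, `M` negative and even, `D` odd, the
same holds with the laws `law(1, n)` for the set of ALL the divisors of `D`; in particular the mean orders
differ by less than `2 ε` from `4`. (The law `law(1, n)` is the law of the corank of a large random square
matrix over the field with two elements.)

Nothing is assumed about the curve `E_M`: its Selmer groups can be large.
-/

set_option autoImplicit false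

open Finset Filter

namespace Pool.Agent.Results.MP_8cb858_nt.SelmerLawOverDivisors

/-- the curve `y² = x³ + A x² + B x` over `ℚ` -/
def E (A B : ℤ) : WeierstrassCurve ℚ :=
  { a₁ := 0, a₂ := (A : ℚ), a₃ := 0, a₄ := (B : ℚ), a₆ := 0 }

/-- the rank of the group of rational points of `y² = x³ + A x² + B x` -/
noncomputable def rank (A B : ℤ) : ℕ := Module.finrank ℤ (E A B).toAffine.Point

open Classical in
/-- the `2`-torsion of the Tate-Shafarevich group of `y² = x³ + A x² + B x` -/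
def ShaTwo (A B : ℤ) : Type := {x : Pool.Agent.W262.SH.Sha (E A B) // x + x = 0}

/-- `z` is, up to squares, the abscissa of a point over `F` of `y² = x³ + A x² + B x` -/
def Loc (F : Type) [Field F] (A B z : ℤ) : Prop :=
  ∃ x y r : F, x ≠ 0 ∧ y ^ 2 = x ^ 3 + (A : F) * x ^ 2 + (B : F) * x ∧ x = (z : F) * r ^ 2

/-- the Selmer group of the isogeny of degree two onto `y² = x³ + A x² + B x`, a subgroup of `ℚ*/ℚ*²`
which is described by squarefree integers -/
def Sel (A B : ℤ) : Set ℤ :=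
  {z | Squarefree z ∧ (∀ (p : ℕ) [Fact p.Prime], Loc ℚ_[p] A B z) ∧ Loc ℝ A B z}

/-- the Selmer group of the isogeny onto `E_D : y² = x³ + a D x² + b D² x` -/
def SelDual (a b D : ℤ) : Set ℤ := Sel (a * D) (b * D ^ 2)

/-- the Selmer group of the isogeny from `E_D` onto
`E_D' : y² = x³ - 2 a D x² + (a² - 4 b) D² x` -/
def SelPhi (a b D : ℤ) : Set ℤ := Sel (-2 * a * D) ((a ^ 2 - 4 * b) * D ^ 2)

/-- the number `2 ^ rank · # Ш[2]` of the curve `E_D` -/
noncomputable def size (a b D : ℤ) : ℕ :=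
  2 ^ rank (a * D) (b * D ^ 2) * Nat.card (ShaTwo (a * D) (b * D ^ 2))

/-- the curves: `b` is not a square, `b (a² - 4 b)` is a square different from `0` -/
def Exceptional (a b : ℤ) : Prop :=
  ¬ IsSquare b ∧ a ^ 2 - 4 * b ≠ 0 ∧ IsSquare (b * (a ^ 2 - 4 * b))

/-- the group of the square classes of a field -/
abbrev SquareClasses (K : Type) [Field K] : Type := Kˣ ⧸ (powMonoidHom 2 : Kˣ →* Kˣ).range

/-- the square classes of the abscissae of the points over `K` of `y² = x³ + A x² + B x` -/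
def image (K : Type) [Field K] (A B : ℤ) : Set (SquareClasses K) :=
  {c | ∃ (x : Kˣ) (y : K), y ^ 2 = (x : K) ^ 3 + (A : K) * (x : K) ^ 2 + (B : K) * (x : K) ∧
    c = QuotientGroup.mk x}

open Classical in
/-- the number of these classes over `ℚ_p` -/
noncomputable def imageCard (A B : ℤ) (p : ℕ) : ℕ :=
  if h : p.Prime then (haveI : Fact p.Prime := ⟨h⟩; Nat.card (image ℚ_[p] A B)) else 1

/-- the primes which divide `2 b (a² - 4 b)` -/
def bad (a b : ℤ) : Finset ℕ := (2 * (b * (a ^ 2 - 4 * b))).natAbs.primeFactors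

/-- the product over the primes of `S` and the infinite place of `1/2` times the number of the classes -/
noncomputable def ratio (S : Finset ℕ) (A B : ℤ) : ℝ :=
  (((∏ p ∈ S, imageCard A B p) * Nat.card (image ℝ A B) : ℕ) : ℝ) / 2 ^ (S.card + 1)

/-- the constant of the curve `E_D` -/
noncomputable def τ (a b D : ℤ) : ℝ := ratio (bad a b) (a * D) (b * D ^ 2)

/-- the constant of the curve `E_D'` -/
noncomputable def τ' (a b D : ℤ) : ℝ := ratio (bad a b) (-2 * a * D) ((a ^ 2 - 4 * b) * D ^ 2)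

/-- `D` and `D₀` have the same sign and the same square classes at the bad primes -/
def Same (a b D₀ D : ℤ) : Prop := 0 < D₀ * D ∧
  ∀ (p : ℕ) [Fact p.Prime], (p : ℤ) ∣ 2 * (b * (a ^ 2 - 4 * b)) → IsSquare ((D₀ * D : ℤ) : ℚ_[p])

/-- the squarefree integer in the square class of `M d`, for `M` and `d` squarefree -/
def tw (M : ℤ) (d : ℕ) : ℤ := M * d / (Int.gcd M d : ℤ) ^ 2

open Classical in
/-- the divisors `d` of `D` for which the squarefree part of `M d` is in the local class of `D₀` -/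
noncomputable def Class (a b M D₀ : ℤ) (D : ℕ) : Finset ℕ :=
  D.divisors.filter fun d => Same a b D₀ (tw M d)

/-- the law of the dimensions -/
noncomputable def law (t : ℝ) (r : ℕ) : ℝ :=
  t ^ r / (∏ i ∈ range r, ((2 : ℝ) ^ r - 2 ^ i)) * ∏' i : ℕ, (1 - t / 2 ^ (r + i + 1))

open Classical in
/-- `𝒮` consists of squarefree positive integers and contains almost all of them -/
def AlmostAll (𝒮 : Set ℕ) : Prop := (∀ D ∈ 𝒮, Squarefree D) ∧
  Tendsto (fun X : ℕ => (((Icc 1 X).filter fun D => D ∈ 𝒮).card : ℝ) /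
    ((Icc 1 X).filter fun D => Squarefree D).card) atTop (nhds 1)

/-- the number `r` if `n = 2 ^ (r + 1)` -/
def dim (n : ℕ) : ℕ := Nat.log 2 n - 1

/-- the dimensions of the Selmer groups of the twists by the elements of `s` follow the laws of
parameters `t` and `t'` -/
def Laws (a b M : ℤ) (s : Finset ℕ) (t t' ε : ℝ) : Prop :=
  (∀ g : ℕ → ℝ, (∀ n, |g n| ≤ 2 ^ n) →
    |(∑ d ∈ s, g (dim (SelDual a b (tw M d)).ncard)) / s.card - ∑' n, g n * law t n| < ε ∧
    |(∑ d ∈ s, g (dim (SelPhi a b (tw M d)).ncard)) / s.card - ∑' n, g n * law t' n| < ε) ∧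
  |(∑ d ∈ s, ((SelDual a b (tw M d)).ncard : ℝ)) / s.card - 2 * (1 + t)| < 2 * ε ∧
  |(∑ d ∈ s, ((SelPhi a b (tw M d)).ncard : ℝ)) / s.card - 2 * (1 + t')| < 2 * ε

/-- the laws in the local class of `D₀` -/
def ClassLaws (a b M D₀ : ℤ) (c ε : ℝ) (D : ℕ) : Prop := (Class a b M D₀ D).Nonempty →
  c * D.divisors.card ≤ ((Class a b M D₀ D).card : ℝ) ∧
  Laws a b M (Class a b M D₀ D) (τ a b D₀) (τ' a b D₀) ε

/-- the orders of the Selmer groups are powers of two, and the bound for `2 ^ rank · # Ш[2]` -/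
def Bounds (a b : ℤ) : Prop := ∀ D : ℤ, Squarefree D →
  (SelDual a b D).Finite ∧ (SelPhi a b D).Finite ∧ Finite (ShaTwo (a * D) (b * D ^ 2)) ∧
    ∃ r s : ℕ, (SelDual a b D).ncard = 2 ^ (r + 1) ∧ (SelPhi a b D).ncard = 2 ^ (s + 1) ∧
      size a b D ≤ 2 ^ (r + s)

/-- the parameters are positive, the laws have the sum one and the mean `1 + t` of `2 ^ n` -/
def Parameters (a b : ℤ) : Prop := ∀ D₀ : ℤ, Squarefree D₀ → 0 < τ a b D₀ ∧ 0 < τ' a b D₀ ∧
  HasSum (law (τ a b D₀)) 1 ∧ HasSum (law (τ' a b D₀)) 1 ∧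
  HasSum (fun n => 2 ^ n * law (τ a b D₀) n) (1 + τ a b D₀) ∧
  HasSum (fun n => 2 ^ n * law (τ' a b D₀) n) (1 + τ' a b D₀)

/-- the examples -/
def Examples (𝒮 : Set ℕ) : Prop :=
  (Exceptional 4 2 ∧ ∀ M : ℤ, Squarefree M → M < 0 → M % 2 = 1 → ∀ ε : ℝ, 0 < ε →
    ∀ᶠ D : ℕ in atTop, D ∈ 𝒮 → D % 2 = 1 → Laws 4 2 M D.divisors 1 1 ε) ∧
  (Exceptional 5 5 ∧ ∀ M : ℤ, Squarefree M → M < 0 → M % 4 = 2 → ∀ ε : ℝ, 0 < ε →
    ∀ᶠ D : ℕ in atTop, D ∈ 𝒮 → D % 2 = 1 → Laws 5 5 M D.divisors 1 1 ε)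

/-! ### The proof -/

open scoped Classical

/-- the data -/
def cd {a b : ℤ} (h : Exceptional a b) : Q44.BN.Cd := ⟨a, b, h.1, h.2.1, h.2.2⟩

lemma e1 (a D : ℤ) : -2 * a * D = -2 * (a * D) := by ring

lemma e2 (a b D : ℤ) : (a ^ 2 - 4 * b) * D ^ 2 = (a * D) ^ 2 - 4 * (b * D ^ 2) := by ring

lemma nS'_eq {a b : ℤ} (h : Exceptional a b) (D : ℤ) : (cd h).nS' D = (SelPhi a b D).ncard := by
  unfold SelPhi
  rw [e1, e2]
  rfl

lemma nS_eq {a b : ℤ} (h : Exceptional a b) (D : ℤ) : (cd h).nS D = (SelDual a b D).ncard := rfl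

lemma rs_eq {a b : ℤ} (h : Exceptional a b) (D : ℤ) : (cd h).rs D = size a b D := rfl

lemma tau_eq {a b : ℤ} (h : Exceptional a b) (D : ℤ) : (cd h).tau D = τ a b D := rfl

lemma tau_eq' {a b : ℤ} (h : Exceptional a b) (D : ℤ) : (cd h).tau' D = τ' a b D := by
  unfold τ'
  rw [e1, e2]
  rfl

lemma law_eq {t : ℝ} (ht : 0 ≤ t) (r : ℕ) : Q44.BC.lam t r = law t r := Q44.BN.lam_tprod ht r

lemma law_fun {t : ℝ} (ht : 0 ≤ t) : Q44.BC.lam t = law t := funext (law_eq ht)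

lemma taus {a b : ℤ} (h : Exceptional a b) {D₀ : ℤ} (hD : Squarefree D₀) :
    (0 < τ a b D₀ ∧ 0 < τ' a b D₀) ∧ Q44.BC.lam ((cd h).tau D₀) = law (τ a b D₀) ∧
      Q44.BC.lam ((cd h).tau' D₀) = law (τ' a b D₀) := by
  obtain ⟨⟨t1, t2⟩, -⟩ := (cd h).facts hD
  rw [tau_eq h] at t1 ⊢
  rw [tau_eq' h] at t2 ⊢
  exact ⟨⟨t1, t2⟩, funext fun r => law_eq t1.le r, funext fun r => law_eq t2.le r⟩

lemma tw_eq {M : ℤ} (hM : M ≠ 0) (d : ℕ) : tw M d = _root_.Q155.NB.twz M d := by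
  have hg : (Int.gcd M d : ℤ) ^ 2 ≠ 0 := by
    have : Int.gcd M d ≠ 0 := fun h => hM (Int.gcd_eq_zero_iff.1 h).1
    exact pow_ne_zero 2 (by exact_mod_cast this)
  unfold tw
  rw [_root_.Q155.NB.twz_mul, Int.mul_ediv_cancel _ hg]

lemma class_eq {a b : ℤ} (h : Exceptional a b) {M : ℤ} (hM : M ≠ 0) (D₀ : ℤ) (D : ℕ) :
    Class a b M D₀ D = _root_.Q155.NB.cls (cd h) M D₀ D := by
  unfold Class _root_.Q155.NB.cls
  refine Finset.filter_congr fun d _ => ?_
  rw [tw_eq hM]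
  exact Iff.rfl

/-- the set of almost all the squarefree integers -/
lemma almost_all : ∃ 𝒮 : Set ℕ, AlmostAll 𝒮 ∧ _root_.Q155.NB.LS (fun D => D ∈ 𝒮) := by
  obtain ⟨S, h1, h2, h3⟩ := _root_.Q155.NB.ex_S _root_.Q155.NB.prt
  refine ⟨{D | S D}, ⟨h1, h2.congr fun X => ?_⟩, h3⟩
  unfold _root_.Q155.NL.cnt _root_.Q155.NL.cs
  refine congrArg₂ (fun x y : ℕ => (x : ℝ) / (y : ℝ)) ?_ ?_
  · exact Q44.BO.cardS (fun D => Iff.rfl) _
  · exact Q44.BO.cardS (fun D => Iff.rfl) _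

lemma bad_42 : bad 4 2 = {2} := by
  unfold bad
  have : (2 * (2 * (4 ^ 2 - 4 * 2)) : ℤ).natAbs = 2 ^ 5 := by norm_num
  rw [this, Nat.primeFactors_prime_pow (by norm_num) Nat.prime_two]

lemma bad_55 : bad 5 5 = {2, 5} := by
  unfold bad
  have : (2 * (5 * (5 ^ 2 - 4 * 5)) : ℤ).natAbs = 2 * 5 ^ 2 := by norm_num
  rw [this, Nat.primeFactors_mul (by norm_num) (by norm_num),
    Nat.primeFactors_prime_pow (by norm_num) (by norm_num : Nat.Prime 5),
    Nat.Prime.primeFactors Nat.prime_two]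
  rfl

lemma exc_42 : Exceptional 4 2 := by
  refine ⟨?_, by norm_num, ⟨4, by norm_num⟩⟩
  rintro ⟨r, hr⟩
  have h1 : r < 2 := by nlinarith
  have h2 : -2 < r := by nlinarith
  interval_cases r <;> norm_num at hr

lemma exc_55 : Exceptional 5 5 := by
  refine ⟨?_, by norm_num, ⟨5, by norm_num⟩⟩
  rintro ⟨r, hr⟩
  have h1 : r < 3 := by nlinarith
  have h2 : -3 < r := by nlinarith
  interval_cases r <;> norm_num at hr

lemma tau_42 {D : ℤ} (h1 : D < 0) (h2 : D % 2 = 1) : τ 4 2 D = 1 ∧ τ' 4 2 D = 1 := by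
  obtain ⟨k1, k2⟩ := Q44.BN.ex1 h2 h1
  unfold τ τ'
  rw [bad_42]
  refine ⟨k1, ?_⟩
  have g1 : -2 * 4 * D = -2 * (4 * D) := by ring
  have g2 : (4 ^ 2 - 4 * 2) * D ^ 2 = (4 * D) ^ 2 - 4 * (2 * D ^ 2) := by ring
  rw [g1, g2]
  exact k2

lemma tau_55 {D : ℤ} (h1 : D < 0) (h2 : D % 4 = 2) : τ 5 5 D = 1 ∧ τ' 5 5 D = 1 := by
  obtain ⟨k1, k2⟩ := Q44.BN.ex2 h2 h1
  unfold τ τ'
  rw [bad_55]
  refine ⟨k1, ?_⟩
  have g1 : -2 * 5 * D = -2 * (5 * D) := by ring
  have g2 : (5 ^ 2 - 4 * 5) * D ^ 2 = (5 * D) ^ 2 - 4 * (5 * D ^ 2) := by ring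
  rw [g1, g2]
  exact k2

/-- the twists by odd integers -/
lemma tw_facts {M : ℤ} (hM : Squarefree M) (h0 : M < 0) {d : ℕ} (hd : Squarefree d)
    (hodd : d % 2 = 1) : tw M d < 0 ∧ (M % 2 = 1 → tw M d % 2 = 1) ∧ (M % 4 = 2 → tw M d % 4 = 2) := by
  rw [tw_eq hM.ne_zero]
  have e1 := _root_.Q155.NB.twz_mul M d
  set t := _root_.Q155.NB.twz M d with ht
  set g : ℤ := (Int.gcd M d : ℤ) with hg
  have hd0 : (0 : ℤ) < d := by exact_mod_cast Nat.pos_of_ne_zero hd.ne_zero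
  have hgd : g ∣ (d : ℤ) := Int.gcd_dvd_right M d
  obtain ⟨c, hc⟩ := hgd
  have hdo : (d : ℤ) % 2 = 1 := by omega
  have hgo : g % 2 = 1 := by
    rcases Int.emod_two_eq_zero_or_one g with h | h
    · exfalso
      have h1 : (2 : ℤ) ∣ d := by
        rw [hc]
        exact Dvd.dvd.mul_right (Int.dvd_of_emod_eq_zero h) c
      omega
    · exact h
  have hg0 : g ≠ 0 := by
    rintro h
    rw [h] at hgo
    norm_num at hgo
  have hg4 : g ^ 2 % 4 = 1 := by
    rcases (by omega : g % 4 = 1 ∨ g % 4 = 3) with h | h <;> rw [sq, Int.mul_emod, h] <;> norm_num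
  have hg2 : 0 < g ^ 2 := by positivity
  refine ⟨?_, fun h => ?_, fun h => ?_⟩
  · have h1 : M * d < 0 := mul_neg_of_neg_of_pos h0 hd0
    rw [e1] at h1
    by_contra h2
    exact absurd (mul_nonneg (not_lt.1 h2) hg2.le) (not_le.2 h1)
  · have h1 : (M * d) % 2 = 1 := by rw [Int.mul_emod, h, hdo]; norm_num
    rw [e1] at h1
    rcases Int.emod_two_eq_zero_or_one t with h2 | h2
    · rw [Int.mul_emod, h2] at h1
      norm_num at h1
    · exact h2
  · have h1 : (M * d) % 4 = 2 := by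
      rcases (by omega : (d : ℤ) % 4 = 1 ∨ (d : ℤ) % 4 = 3) with h2 | h2 <;>
        rw [Int.mul_emod, h, h2] <;> norm_num
    rw [e1, Int.mul_emod, hg4, mul_one, Int.emod_emod_of_dvd _ (dvd_refl 4)] at h1
    exact h1

lemma odd_dvd {D d : ℕ} (hD : D % 2 = 1) (h : d ∣ D) : d % 2 = 1 := by
  obtain ⟨c, rfl⟩ := h
  rcases Nat.mod_two_eq_zero_or_one d with h1 | h1
  · rw [Nat.mul_mod, h1] at hD
    simp at hD
  · exact h1

lemma bal_42 {M : ℤ} (hM : Squarefree M) (h0 : M < 0) (h1 : M % 2 = 1) {D : ℕ} (hD : Squarefree D)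
    (h2 : D % 2 = 1) : _root_.Q155.NB.Bal (cd exc_42) M D := by
  intro d hd
  have hdd := Nat.dvd_of_mem_divisors hd
  obtain ⟨k1, k2, -⟩ := tw_facts hM h0 (hD.squarefree_of_dvd hdd) (odd_dvd h2 hdd)
  rw [tau_eq, tau_eq', ← tw_eq hM.ne_zero]
  exact tau_42 k1 (k2 h1)

lemma bal_55 {M : ℤ} (hM : Squarefree M) (h0 : M < 0) (h1 : M % 4 = 2) {D : ℕ} (hD : Squarefree D)
    (h2 : D % 2 = 1) : _root_.Q155.NB.Bal (cd exc_55) M D := by
  intro d hd
  have hdd := Nat.dvd_of_mem_divisors hd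
  obtain ⟨k1, -, k2⟩ := tw_facts hM h0 (hD.squarefree_of_dvd hdd) (odd_dvd h2 hdd)
  rw [tau_eq, tau_eq', ← tw_eq hM.ne_zero]
  exact tau_55 k1 (k2 h1)

lemma dim_eq (n : ℕ) : dim n = Q44.BO.lg n := rfl

/-- from the functions of the dimensions to the laws -/
lemma laws_of {a b : ℤ} (h : Exceptional a b) {M : ℤ} (hM : Squarefree M) {s : Finset ℕ} {t t' ε : ℝ}
    (hs : ∀ d ∈ s, Squarefree d) (ht : 0 ≤ t) (ht' : 0 ≤ t')
    (h1 : ∀ g : ℕ → ℝ, (∀ n, |g n| ≤ 2 ^ n) →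
      |(∑ d ∈ s, g (Q44.BO.lg ((cd h).nS (_root_.Q155.NB.twz M d)))) / s.card -
        ∑' n, g n * Q44.BC.lam t n| < ε ∧
      |(∑ d ∈ s, g (Q44.BO.lg ((cd h).nS' (_root_.Q155.NB.twz M d)))) / s.card -
        ∑' n, g n * Q44.BC.lam t' n| < ε) : Laws a b M s t t' ε := by
  have h2 : ∀ g : ℕ → ℝ, (∀ n, |g n| ≤ 2 ^ n) →
      |(∑ d ∈ s, g (dim (SelDual a b (tw M d)).ncard)) / s.card - ∑' n, g n * law t n| < ε ∧
      |(∑ d ∈ s, g (dim (SelPhi a b (tw M d)).ncard)) / s.card - ∑' n, g n * law t' n| < ε := by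
    intro g hg
    obtain ⟨k1, k2⟩ := h1 g hg
    rw [law_fun ht] at k1
    rw [law_fun ht'] at k2
    have g1 : ∑ d ∈ s, g (dim (SelDual a b (tw M d)).ncard) =
        ∑ d ∈ s, g (Q44.BO.lg ((cd h).nS (_root_.Q155.NB.twz M d))) :=
      Finset.sum_congr rfl fun d _ => by rw [tw_eq hM.ne_zero, nS_eq, dim_eq]
    have g2 : ∑ d ∈ s, g (dim (SelPhi a b (tw M d)).ncard) =
        ∑ d ∈ s, g (Q44.BO.lg ((cd h).nS' (_root_.Q155.NB.twz M d))) :=
      Finset.sum_congr rfl fun d _ => by rw [tw_eq hM.ne_zero, nS'_eq, dim_eq]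
    rw [g1, g2]
    exact ⟨k1, k2⟩
  have hg : ∀ n : ℕ, |(2 : ℝ) ^ n| ≤ 2 ^ n := fun n => by rw [abs_of_nonneg (by positivity)]
  obtain ⟨k1, k2⟩ := h2 _ hg
  have hsum : ∀ {u : ℝ}, 0 ≤ u → ∑' n : ℕ, (2 : ℝ) ^ n * law u n = 1 + u := by
    intro u hu
    rw [← law_fun hu]
    exact (Q44.BO.sum_two_lam hu).tsum_eq
  rw [hsum ht] at k1
  rw [hsum ht'] at k2
  have key : ∀ {f : ℕ → ℕ}, (∀ d ∈ s, ∃ r, f d = 2 ^ (r + 1)) → ∀ {u : ℝ},
      |(∑ d ∈ s, (2 : ℝ) ^ dim (f d)) / s.card - (1 + u)| < ε →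
      |(∑ d ∈ s, (f d : ℝ)) / s.card - 2 * (1 + u)| < 2 * ε := by
    intro f hf u hu
    have e1 : ∑ d ∈ s, (f d : ℝ) = 2 * ∑ d ∈ s, (2 : ℝ) ^ dim (f d) := by
      rw [Finset.mul_sum]
      refine Finset.sum_congr rfl fun d hd => ?_
      obtain ⟨r, hr⟩ := hf d hd
      rw [hr, dim_eq, Q44.BO.lg_pow]
      push_cast
      ring
    have e2 : (∑ d ∈ s, (f d : ℝ)) / s.card - 2 * (1 + u) =
        2 * ((∑ d ∈ s, (2 : ℝ) ^ dim (f d)) / s.card - (1 + u)) := by
      rw [e1]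
      ring
    rw [e2, abs_mul, abs_of_pos (by norm_num : (0 : ℝ) < 2)]
    linarith
  have hp : ∀ d ∈ s, (∃ r, (SelDual a b (tw M d)).ncard = 2 ^ (r + 1)) ∧
      ∃ r, (SelPhi a b (tw M d)).ncard = 2 ^ (r + 1) := by
    intro d hd
    have h3 := (cd h).pow_nS (_root_.Q155.NB.twz_sqf hM (hs d hd))
    rw [nS'_eq, nS_eq, ← tw_eq hM.ne_zero] at h3
    exact h3.2.2
  exact ⟨h2, key (fun d hd => (hp d hd).1) k1, key (fun d hd => (hp d hd).2) k2⟩

lemma bounds {a b : ℤ} (h : Exceptional a b) : Bounds a b := by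
  intro D hD
  obtain ⟨f1, f2, ⟨r, hr⟩, s, hs⟩ := (cd h).pow_nS hD
  obtain ⟨k1, k2⟩ := (cd h).rs_le hD
  have e3 : SelPhi a b D = Q44.TI.SelS (-2 * (a * D)) ((a * D) ^ 2 - 4 * (b * D ^ 2)) := by
    unfold SelPhi
    rw [e1, e2]
    rfl
  refine ⟨f1, ?_, k1, r, s, hr, ?_, ?_⟩
  · rw [e3]
    exact f2
  · rw [← nS'_eq h]
    exact hs
  · rw [hr, hs, rs_eq h] at k2
    have h3 : 2 ^ (r + 1) * 2 ^ (s + 1) = 4 * 2 ^ (r + s) := by
      rw [← pow_add]
      have : r + 1 + (s + 1) = r + s + 2 := by ring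
      rw [this, pow_add]
      ring
    omega

lemma parameters {a b : ℤ} (h : Exceptional a b) : Parameters a b := by
  intro D₀ hD
  obtain ⟨⟨t1, t2⟩, -⟩ := taus h hD
  refine ⟨t1, t2, ?_, ?_, ?_, ?_⟩
  · rw [← law_fun t1.le]
    exact Q44.BN.lam_hasSum t1.le
  · rw [← law_fun t2.le]
    exact Q44.BN.lam_hasSum t2.le
  · rw [← law_fun t1.le]
    exact Q44.BO.sum_two_lam t1.le
  · rw [← law_fun t2.le]
    exact Q44.BO.sum_two_lam t2.le

/-- the balanced case -/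
lemma explicit {a b : ℤ} (h : Exceptional a b) {𝒮 : Set ℕ} (hs : AlmostAll 𝒮)
    (hL : _root_.Q155.NB.LS (fun D => D ∈ 𝒮)) {M : ℤ} (hM : Squarefree M) {ε : ℝ} (hε : 0 < ε) :
    ∀ᶠ D : ℕ in atTop, D ∈ 𝒮 → _root_.Q155.NB.Bal (cd h) M D → Laws a b M D.divisors 1 1 ε := by
  have h1 := _root_.Q155.NB.bal_all (e := cd h) _root_.Q155.NB.prt (fun D hD => hs.1 D hD) hL hM hε
  filter_upwards [h1] with D hD hDS hB
  obtain ⟨-, -, -, k⟩ := hD hDS hB
  exact laws_of h hM (fun d hd => (hs.1 D hDS).squarefree_of_dvd (Nat.dvd_of_mem_divisors hd))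
    zero_le_one zero_le_one k

/-- **The Selmer groups of the twists by the divisors of `D`.** -/
theorem result : (∀ a b : ℤ, Exceptional a b → Bounds a b ∧ Parameters a b) ∧
    ∃ 𝒮 : Set ℕ, AlmostAll 𝒮 ∧ (∀ a b : ℤ, Exceptional a b → ∃ c : ℝ, 0 < c ∧
      ∀ M D₀ : ℤ, Squarefree M → Squarefree D₀ → ∀ ε : ℝ, 0 < ε →
        ∀ᶠ D : ℕ in atTop, D ∈ 𝒮 → ClassLaws a b M D₀ c ε D) ∧ Examples 𝒮 := by
  refine ⟨fun a b h => ⟨bounds h, parameters h⟩, ?_⟩
  obtain ⟨𝒮, hs, hL⟩ := almost_all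
  refine ⟨𝒮, hs, fun a b h => ?_, ⟨exc_42, fun M hM h0 h1 ε hε => ?_⟩,
    exc_55, fun M hM h0 h1 ε hε => ?_⟩
  · refine ⟨_root_.Q155.NB.c00 (cd h), _root_.Q155.NB.c00_pos (cd h),
      fun M D₀ hM hD₀ ε hε => ?_⟩
    filter_upwards [hL (cd h) M D₀ hM hD₀ ε hε] with D hD hDS hne
    rw [class_eq h hM.ne_zero] at hne ⊢
    have h1 := hD hDS hne
    have hDs := hs.1 D hDS
    obtain ⟨⟨t1, t2⟩, -⟩ := taus h hD₀
    refine ⟨h1.low, laws_of h hM (fun d hd => hDs.squarefree_of_dvd (Nat.dvd_of_mem_divisors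
      (Finset.mem_filter.1 hd).1)) t1.le t2.le fun g hg => ?_⟩
    have h2 := h1.fn _root_.Q155.NB.prt hM hD₀ hDs hg
    rw [tau_eq, tau_eq'] at h2
    exact h2
  · filter_upwards [explicit exc_42 hs hL hM hε] with D hD hDS h2
    exact hD hDS (bal_42 hM h0 h1 (hs.1 D hDS) h2)
  · filter_upwards [explicit exc_55 hs hL hM hε] with D hD hDS h2
    exact hD hDS (bal_55 hM h0 h1 (hs.1 D hDS) h2)

end Pool.Agent.Results.MP_8cb858_nt.SelmerLawOverDivisors
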