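import Pool.Agent.Q231.Circ.NP

/-!
# Deciding whether the circular chromatic number is less than three is NP-complete

`IsColouring V E p q c` says that `c` is a `(p, q)`-colouring of the graph with vertices `V` and
edges `E`, `circularChromaticNumber V E` is the infimum of the fractions `p / q` (`p ≥ 2 q ≥ 2`) with
such a colouring, and `CircLessThree (V, E)` says that `(V, E)` is a finite simple graph whose
circular chromatic number is less than `3`.

The reduction is from not-all-equal satisfiability.  If `p < 3 q` then in a `(p, q)`-colouring every
pentagon has a sign; three pentagons with a common vertex which pairwise share an edge do not all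
have the same sign, and the signs of pentagons sharing a path with two edges are linked.
-/

set_option autoImplicit false

namespace Pool.Agent.Results.MP_8cd8c6_lc.CircLessThreeNPComplete

open Pool.Agent.NPC Pool.Agent.NPC.H634R2 Pool.Agent.Q231.Circ

/-- **Deciding whether `χ_c(G) < 3` is NP-complete**: the problem is in `NP` and `NP`-hard.  It is
even `NP`-hard to distinguish the graphs with `χ_c ≤ 8 / 3` from the graphs with `χ_c ≥ 3` (third
part). In particular the problem is solvable in polynomial time if and only if `P = NP` (last part). -/
theorem result :
    InNPP CircLessThree ∧ NPHardP CircLessThree ∧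
    (∀ L : Set (List Bool), InNP L → ∃ f : List Bool → List ℕ × List (ℕ × ℕ),
      PolyTime (fun x => bits (f x)) ∧ (∀ x, IsGraph (f x).1 (f x).2) ∧
      (∀ x ∈ L, circularChromaticNumber (f x).1 (f x).2 ≤ 8 / 3) ∧
      ∀ x ∉ L, 3 ≤ circularChromaticNumber (f x).1 (f x).2) ∧
    (InPP CircLessThree ↔ ∀ L : Set (List Bool), InNP L → InP L) :=
  ⟨inNP, hardI.toNPHardP, fun _ hL => gap hL,
    ⟨fun h => NPHard.collapse hardI.toNPHardP h, fun h => h _ inNP⟩⟩

end Pool.Agent.Results.MP_8cd8c6_lc.CircLessThreeNPComplete
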