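import Mathlib
import Pool.Agent.Q128.BadTriDefs
import Pool.Agent.Q128.BadTriMain

/-!
# MP_8cfbc5_co, Q1: the threshold for bad triangles in Hilbert space

`H = ℓ²`, `Bad δ x y z`: two of the three distances are `≤ 1` and the remaining one is `≥ 1 + δ`;
`P δ`: for some `lam > 0` every `n ≥ 1` points of `ℓ²` contain at least `lam · n` (indices) without
bad triangle; `deltaStar = sup {δ > 0 : P δ fails}` (all in `Pool/Agent/Q128/BadTriDefs.lean`).

Answer: `δ* = 1`, and `P(1)` holds, so the supremum is not attained and there is no largest `δ` for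
which `P(δ)` fails: `P(δ)` fails exactly for `0 < δ < 1`.
-/

set_option autoImplicit false

namespace Pool.Agent.Results.MP_8cfbc5_co.Threshold

open Q128.BadTri

/-- `δ* = 1`, the supremum is not attained (`P(1)` holds), and for `δ > 0` property `P(δ)` holds
if and only if `δ ≥ 1`. -/
theorem result :
    deltaStar = 1 ∧ P deltaStar ∧ ∀ δ : ℝ, 0 < δ → (P δ ↔ 1 ≤ δ) :=
  ⟨deltaStar_eq, by rw [deltaStar_eq]; exact P_one, fun _ h => P_iff h⟩

end Pool.Agent.Results.MP_8cfbc5_co.Threshold
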