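import Pool.Agent.Q73.KL.Fin

/-!
# The KLS conjecture for convex bodies fibred in boxes over a space of fixed dimension

Q1, for sets of measure one half (to which the infimum may be restricted by a known theorem), with a
constant `c ^ (k + 1)` independent of `n`, for all convex bodies `K ⊂ ℝ^k × ℝ^n` whose sections
`{x : (t, x) ∈ K}` are boxes (products of intervals) for all `t ∈ ℝ^k`; equivalently,
`K = {(t, x) : (t, x_i) ∈ L_i for all i}` with convex bodies `L_i ⊂ ℝ^{k + 1}`. No symmetry is assumed. In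
particular, with `k = 1`, for all convex sets `{(t, x) : t ∈ I, a_i(t) ≤ x_i ≤ b_i(t)}` with arbitrary
convex functions `a_i` and concave functions `b_i`. The number of facets of such a polytope is not bounded in
terms of `n` and `k`.

Method. See `Pool.Agent.Results.MP_6d896a_gt.ConditionallyIndependent` for the variance of Lipschitz
functions. The passage to sets of measure one half is by the heat flow lemmas of the starting files. The
variances of the linear functionals are compared with the halfspaces, for every convex body, by integrating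
the differential inequality which the halfspace inequality gives for the tails of the marginals.
-/

set_option autoImplicit false

namespace Pool.Agent.Results.MP_8d00da_gt.BoxFibredBodies

open MeasureTheory Set
open scoped ENNReal InnerProductSpace

/-- `ℝ^k × ℝ^n` with its Euclidean norm -/
abbrev Space (k n : ℕ) : Type := EuclideanSpace ℝ (Fin k ⊕ Fin n)

/-- convex body: compact, convex, with nonempty interior -/
structure ConvexBody {k n : ℕ} (K : Set (Space k n)) : Prop where
  conv : Convex ℝ K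
  comp : IsCompact K
  int : (interior K).Nonempty

/-- All sections `{x : (t, x) ∈ K}`, `t ∈ ℝ^k`, are boxes: `(t, x) ∈ K` as soon as for every `i` there is a
point of `K` with first component `t` and with the same coordinate `x_i`. -/
def BoxFibred {k n : ℕ} (K : Set (Space k n)) : Prop :=
  ∀ x : Space k n, (∀ i : Fin n, ∃ y ∈ K, (∀ j : Fin k, y (Sum.inl j) = x (Sum.inl j)) ∧
    y (Sum.inr i) = x (Sum.inr i)) → x ∈ K

/-- Minkowski (exterior) boundary measure `μ⁺(A)` -/
noncomputable def bdry {k n : ℕ} (μ : Measure (Space k n)) (A : Set (Space k n)) : ℝ≥0∞ :=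
  Filter.liminf (fun ε : ℝ => (μ (Metric.thickening ε A) - μ A) / ENNReal.ofReal ε)
    (nhdsWithin 0 (Set.Ioi 0))

/-- the halfspace `⟪u, x⟫ ≤ b` -/
def halfspace {k n : ℕ} (u : Space k n) (b : ℝ) : Set (Space k n) := {x | inner ℝ u x ≤ b}

/-- the uniform probability measure on `K` -/
noncomputable def unif {k n : ℕ} (K : Set (Space k n)) : Measure (Space k n) :=
  (volume K)⁻¹ • volume.restrict K

/-- Spectral gap estimate with constant `D` in three forms: Lipschitz functions, bounded functions,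
and sets of measure one half. -/
structure Gap {k n : ℕ} (D : ℝ) (μ : Measure (Space k n)) : Prop where
  lip : ∀ f : Space k n → ℝ, ContDiff ℝ 1 f → (∀ x, ‖fderiv ℝ f x‖ ≤ 1) →
    ProbabilityTheory.variance f μ ≤ D
  bdd : ∀ f : Space k n → ℝ, ContDiff ℝ 1 f → (∀ x, |f x| ≤ 1) →
    ProbabilityTheory.variance f μ ^ 2 ≤ 8 * D * ∫ x, ‖fderiv ℝ f x‖ ^ 2 ∂μ
  half : ∀ S : Set (Space k n), μ S = 1 / 2 →
    ENNReal.ofReal (1 / (240 * Real.sqrt D)) ≤ bdry μ S

/-- the covariance matrix of `μ` has norm at most `s` -/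
def CovLe {k n : ℕ} (μ : Measure (Space k n)) (s : ℝ) : Prop :=
  ∀ θ : Space k n, ‖θ‖ = 1 → ProbabilityTheory.variance (fun x => ⟪x, θ⟫_ℝ) μ ≤ s

/-- if `t min(μ H, 1 - μ H) ≤ μ⁺(H)` for all halfspaces `H` then `c t / 2 ≤ μ⁺(A)` for all
`A` with `μ A = 1/2`, where `μ` is uniform on `K`. -/
def KLSBoundHalf {k n : ℕ} (c : ℝ) (K : Set (Space k n)) : Prop :=
  ∀ t : ℝ≥0∞, (∀ (u : Space k n) (b : ℝ), u ≠ 0 →
      t * min (unif K (halfspace u b)) (1 - unif K (halfspace u b)) ≤
        bdry (unif K) (halfspace u b)) →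
    ∀ A : Set (Space k n), unif K A = 1 / 2 → ENNReal.ofReal c * t * (1 / 2) ≤ bdry (unif K) A

/-- **KLS for convex bodies fibred in boxes.** There are absolute constants `C, c > 0` such that for all
`k ≥ 0`, `n ≥ 1` and all convex bodies `K ⊂ ℝ^k × ℝ^n` whose sections over the points of `ℝ^k` are boxes:
the uniform measure on `K` satisfies the spectral gap estimates with the constant `C^(k+1) s` for every bound
`s` of the norm of its covariance matrix, and `μ⁺(A) ≥ c^(k+1) t / 2` for all sets `A` of measure one half,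
whenever `μ⁺(H) ≥ t min(μ H, 1 - μ H)` for all halfspaces `H`. -/
theorem result : ∃ C c : ℝ, 0 < C ∧ 0 < c ∧ ∀ k n : ℕ, 1 ≤ n → ∀ K : Set (Space k n),
    ConvexBody K → BoxFibred K →
    (∀ s : ℝ, 0 < s → CovLe (unif K) s → Gap (C ^ (k + 1) * s) (unif K)) ∧
      KLSBoundHalf (c ^ (k + 1)) K := by
  refine ⟨2 ^ 51, 1 / 2 ^ 36, by positivity, by positivity, ?_⟩
  intro k n hn K hK hbox
  have hpos : 0 < volume K :=
    lt_of_lt_of_le (isOpen_interior.measure_pos volume hK.int) (measure_mono interior_subset)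
  have hn0 : 0 < n := by omega
  have hCC0 := Pool.Agent.Q73.KL.CC_pos k
  have hCC : Pool.Agent.Q73.KL.CC k ≤ (2 ^ 51) ^ (k + 1) := by
    unfold Pool.Agent.Q73.KL.CC
    have h1 : (48 : ℝ) ^ k ≤ (2 ^ 51) ^ k := pow_le_pow_left₀ (by norm_num) (by norm_num) k
    have h2 : ((2 : ℝ) ^ 51) ^ (k + 1) = (2 ^ 51) ^ k * 2 ^ 51 := pow_succ _ _
    rw [h2]
    linarith
  refine ⟨fun s hs hcov => ?_, fun t ht A hA => ?_⟩
  · obtain ⟨h1, h2, h3⟩ := Pool.Agent.Q73.KL.gap3 hK.conv hK.comp hpos hbox hn0 hs (fun θ hθ => by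
      have := hcov θ hθ
      rwa [show unif K = Pool.Agent.Q188.SB.un K from rfl,
        Pool.Agent.Q188.SB.var_un K hK.comp hpos _ (by fun_prop)] at this)
    have hle : Pool.Agent.Q73.KL.CC k * s ≤ (2 ^ 51) ^ (k + 1) * s :=
      mul_le_mul_of_nonneg_right hCC hs.le
    have hDpos : 0 < Pool.Agent.Q73.KL.CC k * s := mul_pos hCC0 hs
    refine ⟨fun f hf hf1 => (h1 f hf hf1).trans hle, fun f hf hf1 => (h2 f hf hf1).trans ?_,
      fun S hS => le_trans (ENNReal.ofReal_le_ofReal ?_) (h3 S hS)⟩
    · refine mul_le_mul_of_nonneg_right (by linarith) (integral_nonneg fun x => sq_nonneg _)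
    · have h4 : 0 < Real.sqrt (Pool.Agent.Q73.KL.CC k * s) := Real.sqrt_pos.2 hDpos
      apply one_div_le_one_div_of_le (by positivity)
      gcongr
  · have h1 := Pool.Agent.Q73.KL.half3 hK.conv hK.comp hpos hbox hn0 t ht A hA
    refine le_trans ?_ h1
    have hsC : 0 < Real.sqrt (Pool.Agent.Q73.KL.CC k) := Real.sqrt_pos.2 hCC0
    have h2 : (1 / 2 ^ 36 : ℝ) ^ (k + 1) ≤ 1 / (720 * Real.sqrt (Pool.Agent.Q73.KL.CC k)) := by
      have h3 : Real.sqrt (Pool.Agent.Q73.KL.CC k) ≤ 2 ^ 26 * 8 ^ k := by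
        rw [Real.sqrt_le_left (by positivity)]
        unfold Pool.Agent.Q73.KL.CC
        have h4 : (48 : ℝ) ^ k ≤ 64 ^ k := pow_le_pow_left₀ (by norm_num) (by norm_num) k
        have h5 : ((8 : ℝ) ^ k) ^ 2 = 64 ^ k := by rw [← pow_mul, mul_comm, pow_mul]; norm_num
        rw [mul_pow, h5]
        nlinarith [show (0:ℝ) < 64 ^ k by positivity]
      rw [one_div_pow]
      apply one_div_le_one_div_of_le (by positivity)
      have h6 : (8 : ℝ) ^ k ≤ (2 ^ 36) ^ k := pow_le_pow_left₀ (by norm_num) (by norm_num) k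
      have h7 : ((2 : ℝ) ^ 36) ^ (k + 1) = (2 ^ 36) ^ k * 2 ^ 36 := pow_succ _ _
      rw [h7]
      have h8 : 0 < (8 : ℝ) ^ k := by positivity
      nlinarith
    calc ENNReal.ofReal ((1 / 2 ^ 36) ^ (k + 1)) * t * (1 / 2)
        ≤ ENNReal.ofReal (1 / (720 * Real.sqrt (Pool.Agent.Q73.KL.CC k))) * t * 1 := by
          refine mul_le_mul' (mul_le_mul' (ENNReal.ofReal_le_ofReal h2) le_rfl) ?_
          rw [one_div]
          exact ENNReal.inv_le_one.2 (by norm_num)
      _ = _ := mul_one _

end Pool.Agent.Results.MP_8d00da_gt.BoxFibredBodies
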