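import Mathlib
import Pool.Agent.Q188.SB.Fin

set_option autoImplicit false

namespace Pool.Agent.Results.MP_8d00da_gt.StronglyConvexBodies

open MeasureTheory Set
open scoped ENNReal InnerProductSpace

/-- `ℝ^n` -/
abbrev Rn (n : ℕ) : Type := EuclideanSpace ℝ (Fin n)

/-- convex body: compact, convex, with nonempty interior -/
structure ConvexBody {n : ℕ} (K : Set (Rn n)) : Prop where
  conv : Convex ℝ K
  comp : IsCompact K
  int : (interior K).Nonempty

/-- Minkowski (exterior) boundary measure `μ⁺(A)` -/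
noncomputable def bdry {n : ℕ} (μ : Measure (Rn n)) (A : Set (Rn n)) : ℝ≥0∞ :=
  Filter.liminf (fun ε : ℝ => (μ (Metric.thickening ε A) - μ A) / ENNReal.ofReal ε)
    (nhdsWithin 0 (Set.Ioi 0))

/-- the halfspace `⟪u, x⟫ ≤ b` -/
def halfspace {n : ℕ} (u : Rn n) (b : ℝ) : Set (Rn n) := {x | inner ℝ u x ≤ b}

/-- the uniform probability measure on `K` -/
noncomputable def unif {n : ℕ} (K : Set (Rn n)) : Measure (Rn n) :=
  (volume K)⁻¹ • volume.restrict K

/-- Spectral gap estimate with constant `D` in three forms: Lipschitz functions, bounded functions,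
and sets of measure one half. -/
structure Gap {n : ℕ} (D : ℝ) (μ : Measure (Rn n)) : Prop where
  lip : ∀ f : Rn n → ℝ, ContDiff ℝ 1 f → (∀ x, ‖fderiv ℝ f x‖ ≤ 1) →
    ProbabilityTheory.variance f μ ≤ D
  bdd : ∀ f : Rn n → ℝ, ContDiff ℝ 1 f → (∀ x, |f x| ≤ 1) →
    ProbabilityTheory.variance f μ ^ 2 ≤ 8 * D * ∫ x, ‖fderiv ℝ f x‖ ^ 2 ∂μ
  half : ∀ S : Set (Rn n), μ S = 1 / 2 →
    ENNReal.ofReal (1 / (240 * Real.sqrt D)) ≤ bdry μ S

/-- `μ⁺(S) √s ≥ c / 2` for all sets `S` of measure `1/2` and every bound `s` of the variances of the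
marginals of `μ` in directions of length one -/
def KLSHalf {n : ℕ} (c : ℝ) (μ : Measure (Rn n)) : Prop :=
  ∀ s : ℝ, 0 < s →
    (∀ θ : Rn n, ‖θ‖ = 1 → ProbabilityTheory.variance (fun x => ⟪x, θ⟫_ℝ) μ ≤ s) →
    ∀ S : Set (Rn n), MeasurableSet S → μ S = 1 / 2 →
      ENNReal.ofReal (c / Real.sqrt s) * (1 / 2) ≤ bdry μ S

/-- if `t min(μ H, 1 - μ H) ≤ μ⁺(H)` for all halfspaces `H` then `c t / 2 ≤ μ⁺(A)` for all measurable
`A` with `μ A = 1/2`, where `μ` is uniform on `K`. -/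
def KLSBoundHalf {n : ℕ} (c : ℝ) (K : Set (Rn n)) : Prop :=
  ∀ t : ℝ≥0∞, (∀ (u : Rn n) (b : ℝ), u ≠ 0 →
      t * min (unif K (halfspace u b)) (1 - unif K (halfspace u b)) ≤
        bdry (unif K) (halfspace u b)) →
    ∀ A : Set (Rn n), MeasurableSet A → unif K A = 1 / 2 →
      ENNReal.ofReal c * t * (1 / 2) ≤ bdry (unif K) A

/-- `κ |y - x|² / 2 ≤ V(y) - V(x) - ⟪b(x), y - x⟫ ≤ Λ |y - x|² / 2`: for `C²` functions this says that the
eigenvalues of the Hessian of `V` lie between `κ` and `Λ` -/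
structure HessianBounds {n : ℕ} (V : Rn n → ℝ) (b : Rn n → Rn n) (κ Λ : ℝ) : Prop where
  pos : 0 < κ
  low : ∀ x y, V x + ⟪b x, y - x⟫_ℝ + κ / 2 * ‖y - x‖ ^ 2 ≤ V y
  up : ∀ x y, V y ≤ V x + ⟪b x, y - x⟫_ℝ + Λ / 2 * ‖y - x‖ ^ 2

/-- **KLS for strongly convex bodies.** Let `K ⊆ ℝ^n` be a convex body of volume radius `v` (the volume of
`K` is the volume of the ball of radius `v`).
* If `K` is an intersection of closed balls of radius `R`, then the uniform measure on `K` satisfies the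
  spectral gap estimates with the constant `4 R v / n`, and the KLS inequality with the constant
  `c √(v / R)`.
* If `K` is the sublevel set `V ≤ 0` of a function whose Hessian lies between `κ` and `Λ`, then it
  satisfies the spectral gap estimates with the constant `4 (Λ / κ) v² / n`, and the KLS inequality with
  the constant `c √(κ / Λ)`. -/
theorem result : ∃ c : ℝ, 0 < c ∧ ∀ n : ℕ, 1 ≤ n → ∀ K : Set (Rn n), ConvexBody K →
    ∀ v : ℝ, 0 < v → volume K = volume (Metric.closedBall (0 : Rn n) v) →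
    (∀ (R : ℝ) (Z : Set (Rn n)), 0 < R → K = ⋂ z ∈ Z, Metric.closedBall z R →
      Gap (4 * R * v / n) (unif K) ∧ KLSHalf (c * Real.sqrt (v / R)) (unif K) ∧
        ((∀ x ∈ K, -x ∈ K) → KLSBoundHalf (c * Real.sqrt (v / R)) K)) ∧
    (∀ (V : Rn n → ℝ) (b : Rn n → Rn n) (κ Λ : ℝ), HessianBounds V b κ Λ → K = {x | V x ≤ 0} →
      Gap (4 * Λ * v ^ 2 / (κ * n)) (unif K) ∧ KLSHalf (c * Real.sqrt (κ / Λ)) (unif K) ∧
        ((∀ x ∈ K, -x ∈ K) → KLSBoundHalf (c * Real.sqrt (κ / Λ)) K)) := by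
  obtain ⟨c0, hc0, hform⟩ := Pool.Agent.Q188.SB.half_form
  refine ⟨min (1 / 1000) c0, lt_min (by norm_num) hc0, ?_⟩
  intro n hn K hK v hv hvol
  have hne' : Nonempty (Fin n) := ⟨⟨0, hn⟩⟩
  have hpos : 0 < volume K :=
    lt_of_lt_of_le (isOpen_interior.measure_pos volume hK.int) (measure_mono interior_subset)
  have hcard : (Fintype.card (Fin n) : ℝ) = n := by simp
  -- from the structure `Bd`
  have main : ∀ (h : Rn n → ℝ) (c L : ℝ), Pool.Agent.Q188.SB.Bd K h c L v →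
      Gap (4 * L * v / (c * n)) (unif K) ∧
      KLSHalf (min (1 / 1000) c0 * Real.sqrt (c * v / L)) (unif K) ∧
      ((∀ x ∈ K, -x ∈ K) → KLSBoundHalf (min (1 / 1000) c0 * Real.sqrt (c * v / L)) K) := by
    intro h c L H
    refine ⟨?_, ?_, ?_⟩
    · obtain ⟨h1, h2, h3⟩ := H.gap
      rw [hcard] at h1 h2 h3
      exact ⟨h1, h2, h3⟩
    · intro s hs hvar S _ hS
      refine le_trans ?_ (H.kls s hs hvar S hS)
      gcongr
      exact min_le_left _ _
    · intro hsym t ht A _ hA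
      refine le_trans ?_ (hform (Fin n) K h c L v H hK.int hsym t ht A hA)
      gcongr
      exact min_le_right _ _
  refine ⟨fun R Z hR hZ => ?_, fun V b κ Λ hV hKV => ?_⟩
  · have H := Pool.Agent.Q188.SB.bd_ball K hK.comp hK.conv hpos R hR Z hZ v hv hvol
    have h1 := main _ _ _ H
    rw [one_mul, one_mul] at h1
    exact h1
  · subst hKV
    have H0 : Pool.Agent.Q188.SB.Cond V b κ Λ := ⟨hV.pos, hV.low, hV.up⟩
    have H := Pool.Agent.Q188.SB.bd_level H0 hpos v hv hvol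
    have h1 := main _ _ _ H
    have hκ := hV.pos
    have hΛ : 0 < Λ := hκ.trans_le H0.le
    have e1 : 4 * (Λ * v) * v / (κ * n) = 4 * Λ * v ^ 2 / (κ * n) := by ring
    have e2 : κ * v / (Λ * v) = κ / Λ := by field_simp
    rw [e1, e2] at h1
    exact h1

end Pool.Agent.Results.MP_8d00da_gt.StronglyConvexBodies
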