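import Pool.Agent.Q64.LC.Arith
import Pool.Agent.Results.MP_8d161d_ag.VeryGeneralIntersections

/-!
# Very general intersections on an arbitrary projective variety and holomorphic curves with gaps

Let `X ⊂ ℙ^N` be a projective algebraic set of dimension at most `m` given by forms of degree at
most `D`, and let `D_1, …, D_q` be very general hypersurface sections of `X` of degrees
`d_1, …, d_q ≤ D` with `d_1 + … + d_q + q ≥ 2 m + 1`. Then `Y = D_1 ∩ … ∩ D_q` contains no nonconstant
holomorphic curve `f = ∑ z ^ i a i`, on the plane or only on a small disc, whose power series has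
infinitely many gaps `(α, β)` with `D α < β`.

In general, a projective algebraic set `X` given by forms of degree at most `D` contains such a
curve if and only if it contains a rational curve.
-/

set_option autoImplicit false

namespace Pool.Agent.Results.MP_8d161d_ag.GapSeries

open MvPolynomial Pool.Agent.Q64.LC Pool.Agent.TH182.VI
open Pool.Agent.TH143.HE Pool.Agent.TH143.EL

/-- All holomorphic curves `f = ∑ z ^ i a i`, on discs `|z| < r`, in the projective algebraic set
given by the forms `F i`, with infinitely many gaps `(α, β)`, `D α < β`, are constant. -/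
def NoGapDiscs {N : ℕ} {ι : Type} (D : ℕ) (F : ι → MvPolynomial (Fin (N + 1)) ℂ) : Prop :=
  ∀ (r : ℝ) (a : ℕ → Fin (N + 1) → ℂ) (f : ℂ → Fin (N + 1) → ℂ), 0 < r → HasSeries r a f →
    (∀ i, ∀ z : ℂ, ‖z‖ < r → eval (f z) (F i) = 0) → Gaps D a → ¬ NonConst r f

/-- The projective algebraic set given by the forms `F i` contains no rational curves. -/
def NoRatCurves {N : ℕ} {ι : Type} (F : ι → MvPolynomial (Fin (N + 1)) ℂ) : Prop :=
  ∀ T : Fin (N + 1) → Polynomial ℂ, (∀ i, ∀ z : ℂ, eval (fun j => (T j).eval z) (F i) = 0) →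
    ∀ (s t : ℂ) (j k : Fin (N + 1)), (T j).eval s * (T k).eval t = (T k).eval s * (T j).eval t

theorem mem_of_all {N : ℕ} {ι : Type} {F : ι → MvPolynomial (Fin (N + 1)) ℂ}
    {x : Fin (N + 1) → ℂ} (h : ∀ i, eval x (F i) = 0) {G : MvPolynomial (Fin (N + 1)) ℂ}
    (hG : G ∈ Ideal.span (Set.range F)) : eval x G = 0 := by
  have h1 : Ideal.span (Set.range F) ≤ RingHom.ker (eval x) := by
    rw [Ideal.span_le]
    rintro _ ⟨i, rfl⟩
    exact h i
  exact h1 hG

theorem cut_span {N D : ℕ} {ι : Type} {F : ι → MvPolynomial (Fin (N + 1)) ℂ}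
    (hF : ∀ i, ∃ d ≤ D, (F i).IsHomogeneous d) : Cut D (RingHom.id ℂ) (Ideal.span (Set.range F)) := by
  intro x hx G hG _
  rw [eval₂_id]
  refine mem_of_all (fun i => ?_) hG
  obtain ⟨d, hd, hi⟩ := hF i
  have h1 := hx (F i) (Ideal.subset_span ⟨i, rfl⟩) d hd hi
  rwa [eval₂_id] at h1

theorem not_top {N : ℕ} {x : Fin (N + 1) → ℂ}
    (h : IsPtP (RingHom.id ℂ) (⊤ : Ideal (MvPolynomial (Fin (N + 1)) ℂ)) x) : False := by
  have h1 := h 1 (Submodule.mem_top) ⟨0, isHomogeneous_one _ _⟩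
  rw [eval₂_one] at h1
  exact one_ne_zero h1

theorem ratCurvesIn_of {N : ℕ} {ι : Type} {F : ι → MvPolynomial (Fin (N + 1)) ℂ}
    (hF : ∀ i, ∃ d, (F i).IsHomogeneous d) (h : NoRatCurves F) :
    RatCurvesIn (RingHom.id ℂ) (Ideal.span (Set.range F)) ⊤ := by
  intro T hT hnc u
  exfalso
  obtain ⟨j, k, s, t, hst⟩ := hnc
  refine hst (h T (fun i z => ?_) s t j k)
  have h1 := hT z (F i) (Ideal.subset_span ⟨i, rfl⟩) (hF i)
  rwa [eval₂_id] at h1

theorem of_ratCurvesIn {N : ℕ} {ι : Type} {F : ι → MvPolynomial (Fin (N + 1)) ℂ}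
    (h : RatCurvesIn (RingHom.id ℂ) (Ideal.span (Set.range F)) ⊤) : NoRatCurves F := by
  intro T hT s t j k
  by_contra hst
  refine not_top (h T (fun u G hG _ => ?_) ⟨j, k, s, t, hst⟩ 0)
  rw [eval₂_id]
  exact mem_of_all (fun i => hT i u) hG

theorem noGapDiscs_iff {N D : ℕ} {ι : Type} {F : ι → MvPolynomial (Fin (N + 1)) ℂ} (hD : 1 ≤ D)
    (hF : ∀ i, ∃ d ≤ D, (F i).IsHomogeneous d) : NoGapDiscs D F ↔ NoRatCurves F := by
  constructor
  · intro h
    apply of_ratCurvesIn
    apply rat_of_gapEntire (D := D)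
    intro a f hf hnc hb z
    exfalso
    obtain ⟨r, s, t, hs, ht, hst⟩ := hnc
    have hr : 0 < r := (norm_nonneg s).trans_lt hs
    refine h r a f hr (hf r hr).series (fun i z hz => ?_) hb ⟨s, t, hs, ht, hst⟩
    obtain ⟨d, -, hi⟩ := hF i
    have h1 := (hf r hr).mem z hz (F i) (Ideal.subset_span ⟨i, rfl⟩) ⟨d, hi⟩
    rwa [eval₂_id] at h1
  · intro h r a f hr hs hX hb hnc
    have h1 := gapDiscs_of_rat hD (cut_span hF)
      (ratCurvesIn_of (fun i => ⟨_, (hF i).choose_spec.2⟩) h) r a f ⟨hr, hs, fun z hz G hG _ => by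
        rw [eval₂_id]
        exact mem_of_all (fun i => hX i z hz) hG⟩ hnc hb 0 (by rw [norm_zero]; exact hr)
    exact not_top h1

theorem noRat_of_noTorus {N : ℕ} {ι : Type} {F : ι → MvPolynomial (Fin (N + 1)) ℂ}
    (hF : ∀ i, ∃ d, (F i).IsHomogeneous d) (h : NoTorus F) : NoRatCurves F := by
  apply of_ratCurvesIn
  apply ratCurves_of_torus
  intro ω₁ ω₂ hω g hg h1 h2 hgX hgnc
  exfalso
  obtain ⟨z, w, hzw⟩ := hgnc
  exact hzw (h ω₁ ω₂ hω g hg h1 h2 (fun i z => hgX z (F i) (Ideal.subset_span ⟨i, rfl⟩) (hF i)) z w)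

/-- Let `X` be a closed subset of the projective space of dimension at most `m`, given by forms
`G i` of degree at most `D` (the ring of homogeneous coordinates has transcendence degree at most
`m + 1`).

1. There is a countable subfield `k₁` of `ℂ`, depending only on `X`, such that for all forms
`F i`, `i < q`, of degrees `d i ≤ D` with `∑ d i + q ≥ 2 m + 1`, whose coefficients together are
algebraically independent over `k₁`, the set `Y` of the points of `X` on all `F i = 0` contains no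
nonconstant holomorphic curve with infinitely many gaps `(α, β)`, `D α < β`, even on small discs.

2. For given degrees, this holds for all `F` for which a countable set of nonzero polynomials in the
coefficients do not vanish.

3. An arbitrary projective algebraic set given by forms of degree at most `D` contains no such
curves if and only if it contains no rational curves; in particular this holds if all holomorphic
maps from one-dimensional complex tori to it are constant. -/
theorem result {N m D : ℕ} (hD : 1 ≤ D) {κ : Type} (G : κ → MvPolynomial (Fin (N + 1)) ℂ)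
    (hG : ∀ i, ∃ n ≤ D, (G i).IsHomogeneous n)
    (hdim : Algebra.trdeg ℂ (MvPolynomial (Fin (N + 1)) ℂ ⧸ Ideal.span (Set.range G)) ≤ m + 1) :
    (∃ k₁ : Subfield ℂ, Countable k₁ ∧ ∀ (q : ℕ) (d : Fin q → ℕ)
      (F : Fin q → MvPolynomial (Fin (N + 1)) ℂ), 2 * m + 1 ≤ ∑ i, d i + q → (∀ i, d i ≤ D) →
      (∀ i, (F i).IsHomogeneous (d i)) → AlgebraicIndependent k₁ (coeffs d F) →
      NoGapDiscs D (Sum.elim G F)) ∧
    (∀ (q : ℕ) (d : Fin q → ℕ), 2 * m + 1 ≤ ∑ i, d i + q → (∀ i, d i ≤ D) →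
      ∃ Ps : Set (MvPolynomial (CI N d) ℂ), Ps.Countable ∧ 0 ∉ Ps ∧
        ∀ F : Fin q → MvPolynomial (Fin (N + 1)) ℂ, (∀ i, (F i).IsHomogeneous (d i)) →
          (∀ P ∈ Ps, eval (coeffs d F) P ≠ 0) → NoGapDiscs D (Sum.elim G F)) ∧
    ((NoGapDiscs D G ↔ NoRatCurves G) ∧ (NoTorus G → NoGapDiscs D G)) := by
  obtain ⟨h1, h2, -⟩ := Pool.Agent.Results.MP_8d161d_ag.VeryGeneralIntersections.result G
    (fun i => ⟨_, (hG i).choose_spec.2⟩) hdim
  have hS : ∀ (q : ℕ) (d : Fin q → ℕ) (F : Fin q → MvPolynomial (Fin (N + 1)) ℂ),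
      (∀ i, d i ≤ D) → (∀ i, (F i).IsHomogeneous (d i)) →
      ∀ i, ∃ n ≤ D, (Sum.elim G F i).IsHomogeneous n := by
    rintro q d F hd hF (i | i)
    · exact hG i
    · exact ⟨d i, hd i, hF i⟩
  have key : ∀ {ι : Type} {F : ι → MvPolynomial (Fin (N + 1)) ℂ},
      (∀ i, ∃ n ≤ D, (F i).IsHomogeneous n) → NoTorus F → NoGapDiscs D F := fun hF h =>
    (noGapDiscs_iff hD hF).2 (noRat_of_noTorus (fun i => ⟨_, (hF i).choose_spec.2⟩) h)
  refine ⟨?_, fun q d hq hd => ?_, noGapDiscs_iff hD hG, key hG⟩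
  · obtain ⟨k₁, hk, h⟩ := h1
    exact ⟨k₁, hk, fun q d F hq hd hF hind => key (hS q d F hd hF) (h q d F hq hF hind).1⟩
  · obtain ⟨Ps, hc, h0, h⟩ := h2 q d hq
    exact ⟨Ps, hc, h0, fun F hF hP => key (hS q d F hd hF) (h F hF hP).1⟩

end Pool.Agent.Results.MP_8d161d_ag.GapSeries
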