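import Pool.Agent.Q278.HF

set_option autoImplicit false

namespace Pool.Agent.Results.MP_8d9088_nt.Full

open Finset Q278.HA Q278.HF

/-- For every prime `p > 3` and every `r ≥ 1`,
`∑_{k=0}^{(p^r-1)/2} (4k+1) ((1/2)_k / k!)^4 ≡ p^r + (7/6) B_{p-3} p^{r+3} (mod p^{r+4})`. -/
theorem result (p r : ℕ) (hp : p.Prime) (h3 : 3 < p) (hr : 1 ≤ r) :
    ∃ w : ℚ, ¬ p ∣ w.den ∧
      ∑ k ∈ range ((p ^ r - 1) / 2 + 1), (4 * (k : ℚ) + 1) *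
          ((∏ i ∈ range k, ((1 : ℚ) / 2 + i)) / k.factorial) ^ 4 -
        ((p : ℚ) ^ r + 7 / 6 * bernoulli (p - 3) * (p : ℚ) ^ (r + 3)) = (p : ℚ) ^ (r + 4) * w := by
  obtain ⟨w, hw, e⟩ := sunA hp h3 hr
  refine ⟨w, hw, ?_⟩
  rw [← e]
  congr 1
  apply sum_congr rfl
  intro k _
  rw [u_eq]

end Pool.Agent.Results.MP_8d9088_nt.Full
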