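import Pool.Agent.Q54.HT.Res

/-!
# The Grothendieck-Serre conjecture over all number fields and cubic hypersurfaces over the rationals

For a tensor `T` of integers of format `(M + 1) × (M + 1) × (r + 1)` let `C_T` be the hypersurface
`∑ T_{abc} x_a y_b z_c = 0`, `x_0 = y_0 = 1`, in the affine space of dimension `2 M + r + 1` over the
rational numbers (`cone T`). Choose for each `T` a completion `comp T` of `C_T`, for example the closure
in the projective space, a hypersurface of degree at most three, and a resolution of singularities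
`res T` of the completion. We show that the cohomology of all smooth projective varieties over all
number fields is semisimple if the cohomology of the varieties `res T` over `ℚ` is semisimple.
-/

namespace Pool.Agent.Results.MP_8f1292_ag.ResolvedIntegralCubics

universe v w

open Q54.CU Q54.CC Q54.HT CategoryTheory AlgebraicGeometry

/-- The hypersurface `C_T` over the rational numbers. -/
noncomputable def cone {M r : ℕ} (T : Fin (M + 1) → Fin (M + 1) → Fin (r + 1) → ℤ) : SchO ℚ :=
  tenO (fun a b c => (T a b c : ℚ)) 0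

/-- The variety `X` is complete and smooth and there is an affine bundle over `X` with affine total
space. By Jouanolou all smooth projective varieties have these properties. -/
def IsSmoothProjective {K : Type} [Field K] (X : SchO K) : Prop :=
  IsVar X ∧ IsProper X.hom ∧ Smooth X.hom ∧ HasAffineTorsor X

/-- The variety `V` is complete and contains `C` as an open subscheme. -/
def IsCompletion (V C : SchO ℚ) : Prop := IsVar V ∧ IsProper V.hom ∧ ContainsOpen V C

/-- The homology of `X` is semisimple. If `X` is complete, `H_i(X)` is the dual of `H^i(X)`. -/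
def IsSemisimpleHomology {K : Type} [Field K] {𝓜 : Type w} [Category.{v} 𝓜] [Abelian 𝓜]
    (h : ℤ → ℤ → SchO K → 𝓜) (X : SchO K) : Prop :=
  ∀ n s, IsSemisimpleObj (h n s X)

/-- The functor `R` is the restriction from the Galois group of `ℚ` to that of `K`: it preserves
semisimplicity, and the homology of a smooth projective variety `X` over `K` is a quotient (a direct
summand) of the restriction of the homology of `X` as a variety over `ℚ`; the scheme `X` is open and
closed in `X ⊗_ℚ K`. -/
structure IsRestriction {K : Type} [Field K] [CharZero K] {𝓜 : Type w} [Category.{v} 𝓜] [Abelian 𝓜]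
    {𝓝 : Type w} [Category.{v} 𝓝] [Abelian 𝓝] (h : ℤ → ℤ → SchO ℚ → 𝓜) (h' : ℤ → ℤ → SchO K → 𝓝)
    (R : 𝓜 ⥤ 𝓝) : Prop where
  semisimple : ∀ A : 𝓜, IsSemisimpleObj A → IsSemisimpleObj (R.obj A)
  summand : ∀ X : SchO K, IsSmoothProjective X → ∀ n s : ℤ,
    IsQuotient (R.obj (h n s (resO ℚ K X))) (h' n s X)

/-- A smooth projective variety over a number field is one over the rational numbers. -/
theorem isSmoothProjective_res {K : Type} [Field K] [CharZero K] [FiniteDimensional ℚ K] {X : SchO K}
    (hX : IsSmoothProjective X) : IsSmoothProjective (resO ℚ K X) := by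
  obtain ⟨h1, h2, h3, h4⟩ := hX
  exact ⟨isVar_resO ℚ h1, isProper_resO ℚ h2, smooth_resO ℚ h3, hasAffineTorsor_resO ℚ h4⟩

/-- **Semisimplicity over number fields and resolutions of cubic hypersurfaces.** -/
theorem result {𝓜 : Type w} [Category.{v} 𝓜] [Abelian 𝓜] (h : ℤ → ℤ → SchO ℚ → 𝓜) (hh : IsHomology h)
    (P W : ℤ → 𝓜 → Prop) (hW : IsWeights P W) (hw : HasWeights h P W)
    (comp res : ∀ {M r : ℕ}, (Fin (M + 1) → Fin (M + 1) → Fin (r + 1) → ℤ) → SchO ℚ)
    (hcomp : ∀ {M r : ℕ} (T : Fin (M + 1) → Fin (M + 1) → Fin (r + 1) → ℤ), IsCompletion (comp T) (cone T))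
    (hres : ∀ {M r : ℕ} (T : Fin (M + 1) → Fin (M + 1) → Fin (r + 1) → ℤ),
      IsSmoothProjective (res T) ∧ Covers h W (res T) (comp T)) :
    ((∀ X : SchO ℚ, IsSmoothProjective X → IsSemisimpleHomology h X) ↔
      ∀ (M r : ℕ) (T : Fin (M + 1) → Fin (M + 1) → Fin (r + 1) → ℤ), IsSemisimpleHomology h (res T)) ∧
    ∀ (K : Type) [Field K] [CharZero K] [FiniteDimensional ℚ K] (𝓝 : Type w) [Category.{v} 𝓝] [Abelian 𝓝]
      (h' : ℤ → ℤ → SchO K → 𝓝) (R : 𝓜 ⥤ 𝓝), IsRestriction h h' R →
      (∀ X : SchO K, IsSmoothProjective X → ∃ (M r : ℕ) (T : Fin (M + 1) → Fin (M + 1) → Fin (r + 1) → ℤ),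
        IsSemisimpleHomology h (res T) → IsSemisimpleHomology h' X) ∧
      ((∀ (M r : ℕ) (T : Fin (M + 1) → Fin (M + 1) → Fin (r + 1) → ℤ), IsSemisimpleHomology h (res T)) →
        ∀ X : SchO K, IsSmoothProjective X → IsSemisimpleHomology h' X) := by
  have h1 : ∀ X : SchO ℚ, IsSmoothProjective X → ∃ (M r : ℕ) (T : Fin (M + 1) → Fin (M + 1) → Fin (r + 1) → ℤ),
      IsSemisimpleHomology h (res T) → IsSemisimpleHomology h X := by
    rintro X ⟨hX, hp, hs, hT⟩
    obtain ⟨M, r, c, T, h2⟩ := exists_quotient_res_int hh hW hw hX hs hp hT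
    exact ⟨M, r, T, fun h3 n s => (h3 (n + c) s).quotient
      (h2 (comp T) (res T) (hcomp T).1 (hcomp T).2.2 (hres T).2 n s)⟩
  refine ⟨⟨fun h2 M r T => h2 _ (hres T).1, fun h2 X hX => ?_⟩, ?_⟩
  · obtain ⟨M, r, T, h3⟩ := h1 X hX
    exact h3 (h2 M r T)
  · intro K _ _ _ 𝓝 _ _ h' R hR
    have h4 : ∀ X : SchO K, IsSmoothProjective X → ∃ (M r : ℕ)
        (T : Fin (M + 1) → Fin (M + 1) → Fin (r + 1) → ℤ),
        IsSemisimpleHomology h (res T) → IsSemisimpleHomology h' X := by
      intro X hX
      obtain ⟨M, r, T, h3⟩ := h1 _ (isSmoothProjective_res hX)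
      exact ⟨M, r, T, fun h5 n s => (hR.semisimple _ (h3 h5 n s)).quotient (hR.summand X hX n s)⟩
    refine ⟨h4, fun h2 X hX => ?_⟩
    obtain ⟨M, r, T, h3⟩ := h4 X hX
    exact h3 (h2 M r T)

end Pool.Agent.Results.MP_8f1292_ag.ResolvedIntegralCubics
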