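import Pool.Agent.Q181.LW.Law

set_option autoImplicit false

/-! The logarithmic law: representatives of norm at most `3 / √2 + 2⁻ᴸ` of a class of the Whitehead
group which is not zero have size and inverse at least proportional to `L`, and there are such
representatives whose size and inverse are at most proportional to `L`. -/

namespace Pool.Agent.Results.MP_8f66f0_al.LogarithmicLaw

open TH57.Thr Pool.Agent.Q181.LW

theorem result (Γ : Type) [Group Γ] (htf : ∀ g : Γ, ∀ k : ℕ, 0 < k → g ^ k = 1 → g = 1)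
    (n : ℕ) (A : (Matrix (Fin n) (Fin n) (MonoidAlgebra ℤ Γ))ˣ) :
    (NormLE A.val (3 / Real.sqrt 2 + (1 / 2) ^ (2 * n + 30)) → TrivialTorsion A) ∧
    (∀ K : ℕ, NormLE A⁻¹.val K → NormLE A.val (3 / Real.sqrt 2 + (1 / 2) ^ (8 * K + 31)) →
      TrivialTorsion A) ∧
    (¬ TrivialTorsion A → ∀ (L m : ℕ)
      (B : (Matrix (Fin n ⊕ Fin m) (Fin n ⊕ Fin m) (MonoidAlgebra ℤ Γ))ˣ),
      Represents A B → NormLE B.val (3 / Real.sqrt 2 + (1 / 2) ^ L) →
        L < 2 * (n + m) + 30 ∧ ∀ K : ℕ, NormLE B⁻¹.val K → L < 8 * K + 31) ∧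
    (∃ C : ℕ, ∀ L : ℕ, 1 ≤ L → ∃ (m : ℕ)
      (B : (Matrix (Fin n ⊕ Fin m) (Fin n ⊕ Fin m) (MonoidAlgebra ℤ Γ))ˣ),
      Represents A B ∧ NormLE B.val (3 / Real.sqrt 2 + (1 / 2) ^ L) ∧ m ≤ C * L ∧
        NormLE B⁻¹.val (C * L : ℕ)) := by
  refine ⟨fun hA => TT_frozen n A (TT_size htf A (by rwa [Fintype.card_fin])),
    fun K hB hA => TT_frozen n A (TT_inv_law htf A K hB hA), fun hA L m B hAB hB => ⟨?_, ?_⟩, ?_⟩
  · by_contra hcon
    push Not at hcon
    exact hA (TT_frozen n A (TT_of_represents A B hAB (TT_size htf B (by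
      rw [Fintype.card_sum, Fintype.card_fin, Fintype.card_fin]
      exact thr_mono B.val hcon hB))))
  · intro K hK
    by_contra hcon
    push Not at hcon
    exact hA (TT_frozen n A (TT_of_represents A B hAB (TT_inv_law htf B K hK
      (thr_mono B.val hcon hB))))
  · obtain ⟨C, hC⟩ := upper_fin n A
    refine ⟨C, fun L hL => ?_⟩
    obtain ⟨m, B, h1, h2, h3, h4⟩ := hC L hL
    exact ⟨m, B, h1, h3, h2, h4⟩

end Pool.Agent.Results.MP_8f66f0_al.LogarithmicLaw
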