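import Pool.Agent.Q169.RC.Bdy

/-!
# `ℓ²`-Betti numbers of compact aspherical manifolds with boundary from full subcomplexes of flag spheres

Let the flag complex `L` of the graph `G` on `0, ..., N-1` be a homology sphere of dimension `n - 1`, and let `A` be a
full subcomplex. A regular neighbourhood of the Davis complex of the right-angled Coxeter group `W_A` in the Davis
manifold of `L`, divided by a torsion-free subgroup of finite index of `W_A`, is a compact aspherical `n`-manifold with
boundary. We prove that the `ℓ²`-homology of `W_A` vanishes above the middle under a local colouring criterion on the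
simplices which meet `A`, and compute all `ℓ²`-Betti numbers (in the language of the growth of Betti numbers) if `A` is
the complement of an independent set of vertices.
-/

set_option autoImplicit false

namespace Pool.Agent.Results.MP_8fe54c_gt.DeletedVertices

open Finset Pool.Agent.W907.SG Pool.Agent.W907.SM Pool.Agent.TH652.Above Pool.Agent.Q169.RC Pool.Agent.Y132.SI

/-- the flag complex of a graph: its simplices are the cliques -/
noncomputable def flagComplex {n : ℕ} (G : SimpleGraph (Fin n)) : Finset (Finset (Fin n)) := by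
  classical exact univ.filter (fun T => G.IsClique (T : Set (Fin n)))

/-! ### homology spheres -/

/-- the chain `c`, with coefficients modulo `2`, is supported on the faces of `K` with `j`
vertices -/
def SupportedOn {N : ℕ} (K : Finset (Finset (Fin N))) (j : ℕ) (c : Finset (Fin N) → ZMod 2) :
    Prop :=
  ∀ σ, c σ ≠ 0 → σ ∈ K ∧ σ.card = j

/-- the boundary of a chain (the augmentation is included: the empty face has dimension `-1`) -/
def boundary {N : ℕ} (c : Finset (Fin N) → ZMod 2) (ρ : Finset (Fin N)) : ZMod 2 :=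
  ∑ v ∈ ρᶜ, c (insert v ρ)

/-- the reduced mod `2` homology of `K` vanishes in dimension `j - 1` -/
def AcyclicAt {N : ℕ} (K : Finset (Finset (Fin N))) (j : ℕ) : Prop :=
  ∀ c : Finset (Fin N) → ZMod 2, SupportedOn K j c → (∀ ρ, boundary c ρ = 0) →
    ∃ b, SupportedOn K (j + 1) b ∧ ∀ ρ, c ρ = boundary b ρ

/-- the link of the face `σ` -/
def link {N : ℕ} (K : Finset (Finset (Fin N))) (σ : Finset (Fin N)) : Finset (Finset (Fin N)) :=
  univ.filter (fun τ => Disjoint τ σ ∧ τ ∪ σ ∈ K)

/-- mod `2` homology spheres of dimension `d - 1`: the complex `K` contains the empty face and is closed under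
subsets, and the link of every face `σ` (also of the empty face) has the reduced mod `2` homology of a sphere of
dimension `d - 1 - |σ|` -/
def IsHomologySphere {N : ℕ} (K : Finset (Finset (Fin N))) (d : ℕ) : Prop :=
  (∅ ∈ K ∧ ∀ σ ∈ K, ∀ τ : Finset (Fin N), τ ⊆ σ → τ ∈ K) ∧ (∀ σ ∈ K, σ.card ≤ d) ∧
    (∀ σ ∈ K, ∀ j, j + σ.card ≠ d → AcyclicAt (link K σ) j) ∧
    ∀ σ ∈ K, ∃ z : Finset (Fin N) → ZMod 2, z ≠ 0 ∧ SupportedOn (link K σ) (d - σ.card) z ∧
      (∀ ρ, boundary z ρ = 0) ∧
      ∀ z', SupportedOn (link K σ) (d - σ.card) z' → (∀ ρ, boundary z' ρ = 0) → z' = 0 ∨ z' = z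

/-! ### the theorem -/

theorem mem_flag {n : ℕ} (G : SimpleGraph (Fin n)) (T : Finset (Fin n)) :
    T ∈ flagComplex G ↔ G.IsClique (T : Set (Fin n)) := by
  classical
  unfold flagComplex
  simp

/-- The criterion for the set `A` of vertices: there is a set `B` of vertices, coloured with `n / 2 + 1` colours
(adjacent vertices of `B` have different colours), such that all simplices with a vertex in `A` outside `B` are good
and, if `n` is odd, `χ_v = 0` for the vertices `v` of `A` outside `B`; here `χ_v` is the Euler characteristic of the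
right-angled Coxeter group of the link of `v`. -/
def Criterion {N : ℕ} (n : ℕ) (G : SimpleGraph (Fin N)) (A : Set (Fin N)) : Prop :=
  ∃ (B : Set (Fin N)) (κ : Fin N → Fin (n / 2 + 1)), (∀ u v, u ∈ B → v ∈ B → G.Adj u v → κ u ≠ κ v) ∧
    ∀ v, v ∈ A → v ∉ B → (∀ T : Finset (Fin N), v ∈ T → G.IsClique (T : Set (Fin N)) → Good n G T) ∧
      (Odd n → chiS G (G.neighborSet v) = 0)

/-- The `ℓ²`-homology of `W G` vanishes in the degrees `i ≠ m`, and the `m`-th `ℓ²`-Betti number is `x`, in the
following sense: for each `ε > 0` there is a finite set `E` of nontrivial elements such that for each subgroup `H` of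
finite index which contains no conjugate of an element of `E` and each `i` the `i`-th real Betti number of `H` differs
from `x [W G : H]` (`i = m`) or `0` (`i ≠ m`) by at most `ε [W G : H]`. -/
def OnlyMiddle {V : Type} [Fintype V] [LinearOrder V] (m : ℕ) (G : SimpleGraph V) (x : ℚ) : Prop :=
  (∀ i : ℕ, i ≠ m → L2Van G i) ∧
  ∀ ε : ℝ, 0 < ε → ∃ E : Finset (W G), (1 : W G) ∉ E ∧ ∀ H : Subgroup (W G), H.FiniteIndex →
    (∀ g ∈ E, ∀ y : W G, y * g * y⁻¹ ∉ H) → ∀ i : ℕ,
      |(Module.finrank ℝ (HInv G H i) : ℝ) - (if i = m then (x : ℝ) else 0) * H.index| ≤ ε * H.index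

theorem onlyMiddle {V : Type} [Fintype V] [LinearOrder V] (m : ℕ) (G : SimpleGraph V) (x : ℚ)
    (h : ∀ i : ℕ, i ≠ m → L2Van G i) (hx : (-1) ^ m * chiW G = x) : OnlyMiddle m G x := by
  refine ⟨h, fun ε hε => ?_⟩
  obtain ⟨E, h1, h2⟩ := growth_free G (2 * m) (fun i hi => h i (by omega)) ε hε
  refine ⟨E, h1, fun H hH hE i => ?_⟩
  have h3 := h2 H hH hE i
  have h4 : (if 2 * i = 2 * m then (-1 : ℝ) ^ i * (chiW G : ℝ) else 0) = (if i = m then (x : ℝ) else 0) := by
    by_cases hi : i = m
    · subst hi
      rw [if_pos rfl, if_pos rfl, ← hx]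
      push_cast
      ring
    · rw [if_neg hi, if_neg (by omega)]
  rw [h4] at h3
  exact h3

/-- Let the flag complex of `G` be a homology sphere of dimension `n - 1` over the reals and modulo `2`.
(1) If the set `A` of vertices satisfies the criterion then for all full subcomplexes `A'` with vertices in `A` and all
`i > n / 2` the Davis complex of the right-angled Coxeter group of `A'` has no nonzero `ℓ²` harmonic `i`-chains.
(2) Let `n = 2 m`, assume the criterion for the set of all vertices, and let `I` be an independent set of vertices such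
that all simplices with a vertex in `I` are good. Then the right-angled Coxeter group of the complement of `I` has
`ℓ²`-homology only in the degree `m`, and its `m`-th `ℓ²`-Betti number is `(-1)^m χ(W G)`.
(3) Let `n = 2 m + 1`, assume the criterion for the set of all vertices, and let `I` be an independent set of vertices
such that all simplices with a vertex in `I` are good. Then the right-angled Coxeter group of the complement of `I`
has `ℓ²`-homology only in the degree `m`, and its `m`-th `ℓ²`-Betti number is `(1/2) ∑_(v ∈ I) (-1)^m χ_v`. -/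
theorem result (n N : ℕ) (G : SimpleGraph (Fin N)) (hR : HSph n G) (h2 : IsHomologySphere (flagComplex G) n) :
    (∀ A : Set (Fin N), Criterion n G A → ∀ (A' : Set (Fin N)) [Fintype A'], A' ⊆ A → ∀ i : ℕ, n < 2 * i →
      L2Van (G.induce A') i) ∧
    (∀ m : ℕ, n = 2 * m → Criterion n G Set.univ → ∀ (I : Finset (Fin N)) [Fintype ↥((I : Set (Fin N))ᶜ)],
      (∀ u ∈ I, ∀ v ∈ I, ¬ G.Adj u v) →
      (∀ v ∈ I, ∀ T : Finset (Fin N), v ∈ T → G.IsClique (T : Set (Fin N)) → Good n G T) →
      OnlyMiddle m (G.induce ((I : Set (Fin N))ᶜ)) ((-1) ^ m * chiW G)) ∧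
    (∀ m : ℕ, n = 2 * m + 1 → Criterion n G Set.univ → ∀ (I : Finset (Fin N)) [Fintype ↥((I : Set (Fin N))ᶜ)],
      (∀ u ∈ I, ∀ v ∈ I, ¬ G.Adj u v) →
      (∀ v ∈ I, ∀ T : Finset (Fin N), v ∈ T → G.IsClique (T : Set (Fin N)) → Good n G T) →
      OnlyMiddle m (G.induce ((I : Set (Fin N))ᶜ))
        ((1 / 2) * ∑ v ∈ I, (-1) ^ m * chiS G (G.neighborSet v))) := by
  classical
  have hH : Pool.Agent.Y131.KS.HSph (flagComplex G) n := ⟨h2.1, h2.2.1, h2.2.2.1, h2.2.2.2⟩
  have hrel : ∀ A : Set (Fin N), Criterion n G A → ∀ A' : Set (Fin N), A' ⊆ A → ∀ i : ℕ, n < 2 * i →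
      LV (G.induce A') i := by
    rintro A ⟨B, κ, hκ, hB⟩ A' hA' i hi
    exact Q_rel (k := n / 2) G (flagComplex G) (mem_flag G) hH hR (by omega) A B κ hκ hB A' hA' i hi
  have hS : Criterion n G Set.univ → ∀ i, 2 * i ≠ n → LV G i := by
    intro hc i hi
    exact Pool.Agent.Q169.RC.lv_of (singer_of_above hR
      (fun j hj => (lv_univ G j).1 (hrel Set.univ hc Set.univ (le_refl _) j hj) _ _) i hi)
  refine ⟨fun A hA A' _ hA' i hi => hrel A hA A' hA' i hi _ _, ?_, ?_⟩
  · rintro m rfl hc I _ hI hg
    refine onlyMiddle m _ _ (fun i hi => ?_) ?_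
    · refine del_indep G i (hS hc i (by omega)) I hI (fun v hv => ?_) _ _
      rcases Nat.eq_zero_or_pos m with hm | hm
      · exfalso
        have h3 := hH.card_le {v} ((mem_flag G _).2 (by simp))
        rw [card_singleton] at h3
        omega
      · exact link_singer (k := 2 * m - 1) G (flagComplex G) (mem_flag G) hH hR (by omega) v (hg v hv) i (by omega)
    · rw [chiW_induce, chi_indep G I hI]
      have h3 : ∑ v ∈ I, chiS G (G.neighborSet v) = 0 := by
        refine sum_eq_zero fun v _ => ?_
        have h4 := hH.card_le {v} ((mem_flag G _).2 (by simp))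
        rw [card_singleton] at h4
        have h5 := HSph_lk (k := 2 * (m - 1) + 1) G {v} (by simp) (by rw [card_singleton]; omega) hR
        have h6 := chi_odd _ h5
        rw [chiW_induce, lk_one] at h6
        exact h6
      rw [h3, mul_zero, add_zero]
  · rintro m rfl hc I _ hI hg
    refine onlyMiddle m _ _ (fun i hi => ?_) ?_
    · refine del_indep G i (hS hc i (by omega)) I hI (fun v hv => ?_) _ _
      exact link_singer (k := 2 * m) G (flagComplex G) (mem_flag G) hH hR rfl v (hg v hv) i (by omega)
    · rw [chiW_induce, chi_indep G I hI, chi_odd G hR, zero_add, mul_sum, mul_sum, mul_sum]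
      exact sum_congr rfl fun v _ => by ring

end Pool.Agent.Results.MP_8fe54c_gt.DeletedVertices
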