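import Pool.Agent.Q173.LB.Data

/-!
# L²-Betti numbers of compact aspherical manifolds with boundary
-/

set_option autoImplicit false

open Pool.Agent.Q173.LB

namespace Pool.Agent.Results.MP_8fe54c_gt.SubexponentialProportions

universe u

theorem result {V : Type u} {D : CellData V} (h : D.IsKnown) :
    -- the least dimension for each degree
    ((∀ n k, D.Nonzero n k ↔ D.least k ≤ n) ∧
      (∀ k l, D.least (k + l) ≤ D.least k + D.least l) ∧
      (∀ k, 1 ≤ k → k + 1 ≤ D.least k ∧ D.least k ≤ 2 * k) ∧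
      ∀ m₀, D.least m₀ < 2 * m₀ → ∀ m, D.least m + m / m₀ ≤ 2 * m) ∧
    -- the question
    ((∀ X k, D.dim X < 2 * k → D.b X k = 0) ↔
      ∀ c : ℝ, ∀ ε : ℝ, 0 < ε → ∀ M : ℕ, ∃ k, M ≤ k ∧
        ∀ X, (D.dim X : ℝ) < (2 - ε) * k →
          D.b X k < Real.exp (-c * D.dim X) * D.cells X) ∧
    -- generators
    ∃ R : AddSubmonoid (ℕ × ℕ), (∀ n k, (n, k) ∈ R ↔ D.Nonzero n k) ∧
      ((∀ X k, D.dim X < 2 * k → D.b X k = 0) ↔ R = AddSubmonoid.closure {(1, 0), (2, 1)}) ∧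
      List.TFAE [
        R.FG,
        {x | Indecomposable R x}.Finite,
        ∃ m₀ : ℕ, 1 ≤ m₀ ∧ ∀ m, D.least m₀ * m ≤ D.least m * m₀,
        ∃ m₀ : ℕ, 1 ≤ m₀ ∧ ∃ N : ℕ, ∀ m, N ≤ m →
          D.least (m + m₀) = D.least m + D.least m₀] := by
  have hR := h.full_isRange
  refine ⟨⟨fun n k => hR.mem_iff n k, fun k l => hR.low_add k l,
    fun k hk => ⟨hR.top' (by omega), hR.low_le_two k⟩, fun m₀ hm m => hR.spread hm m⟩,
    h.question_iff, h.full, h.mem_full, ?_, hR.finite_generation⟩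
  refine Iff.trans (b := ∀ n k, (n, k) ∈ h.full → 2 * k ≤ n) ?_ (hR.question.out 0 2)
  constructor
  · rintro hQ n k ⟨X, hX, hX'⟩
    by_contra hlt
    have h1 : D.dim X = n := hX
    exact hX' (hQ X k (by omega))
  · intro hQ X k hXk
    by_contra hb
    have := hQ _ _ (show (D.dim X, k) ∈ h.full from ⟨X, rfl, hb⟩)
    omega

end Pool.Agent.Results.MP_8fe54c_gt.SubexponentialProportions
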