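import Mathlib

/-!
# Tail functions of tropicalized Gaussians: the characterisation fails in every dimension `≥ 3`

For every non-archimedean local field and every `d ≥ 3` there is a tropical polynomial supported on
the cube with integer supermodular coefficients that is not the tail function of any lattice, and
not even the tail function of any random vector.
-/

namespace Pool.Agent.Results.MP_90534d_pr.FailsFromDimensionThree

open MeasureTheory ValuativeRel
open scoped Matrix

section Definitions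

variable {K : Type*} [Field K] [ValuativeRel K]

/-- The lattice `A 𝒪ᵈ`. -/
def lattice {d : ℕ} (A : GL (Fin d) K) : Set (Fin d → K) :=
  {x | ∃ z : Fin d → K, (∀ i, z i ∈ 𝒪[K]) ∧ x = (A : Matrix (Fin d) (Fin d) K) *ᵥ z}

/-- The event `V ≥ v`: for every `i` the normalised valuation of `x i` is at least `v i`, i.e.
`|x i| ≤ |π| ^ (v i)`, where `π` is the uniformiser. -/
def tailEvent {d : ℕ} (π : K) (v : Fin d → ℤ) : Set (Fin d → K) :=
  {x | ∀ i, valuation K (x i) ≤ valuation K π ^ v i}

/-- The tail function `- log_q P(V ≥ v)` of a random vector in `Kᵈ` with the law `P`, where `q` is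
the size of the residue field. -/
noncomputable def tailOf {d : ℕ} [MeasurableSpace (Fin d → K)] (P : Measure (Fin d → K))
    (π : K) (v : Fin d → ℤ) : ℝ :=
  -Real.logb (Nat.card 𝓀[K]) (P (tailEvent π v)).toReal

/-- The tail function `φ_L(v) = - log_q P(V ≥ v)`, where `X` is uniformly distributed on the lattice
`L = A 𝒪ᵈ` (normalised Haar measure on `L`; `μ` is a Haar measure on `Kᵈ`), and `q` is the size of
the residue field. -/
noncomputable def tailFunction {d : ℕ} [MeasurableSpace (Fin d → K)] (μ : Measure (Fin d → K))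
    (π : K) (A : GL (Fin d) K) (v : Fin d → ℤ) : ℝ :=
  -Real.logb (Nat.card 𝓀[K]) ((μ (lattice A ∩ tailEvent π v) / μ (lattice A)).toReal)

/-- The tropical polynomial `max_I (∑ i ∈ I, v i - c I)`. -/
noncomputable def tropicalPolynomial {d : ℕ} (c : Finset (Fin d) → ℤ) (v : Fin d → ℝ) : ℝ :=
  (Finset.univ : Finset (Finset (Fin d))).sup' Finset.univ_nonempty fun I => ∑ i ∈ I, v i - c I

/-- Integer supermodular coefficients with `c ∅ = 0`. -/
def Supermodular {d : ℕ} (c : Finset (Fin d) → ℤ) : Prop :=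
  c ∅ = 0 ∧ ∀ I J, c I + c J ≤ c (I ∪ J) + c (I ∩ J)

end Definitions

/-! ### The coefficients -/

/-- The value of the coefficient in terms of membership of the first three coordinates. -/
def c3 : Bool → Bool → Bool → ℤ
  | true, true, true => 2
  | true, true, false => 1
  | true, false, true => 1
  | _, _, _ => 0

lemma c3_super : ∀ a b c a' b' c' : Bool, c3 a b c + c3 a' b' c' ≤
    c3 (a || a') (b || b') (c || c') + c3 (a && a') (b && b') (c && c') := by
  decide

section Coeff

variable {d : ℕ} (hd : 3 ≤ d)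

/-- The coefficients. -/
def coef (I : Finset (Fin d)) : ℤ :=
  c3 (decide ((⟨0, by omega⟩ : Fin d) ∈ I)) (decide ((⟨1, by omega⟩ : Fin d) ∈ I))
    (decide ((⟨2, by omega⟩ : Fin d) ∈ I))

lemma coef_super : Supermodular (coef hd) := by
  refine ⟨by simp [coef, c3], fun I J => ?_⟩
  unfold coef
  have h := c3_super (decide ((⟨0, by omega⟩ : Fin d) ∈ I)) (decide ((⟨1, by omega⟩ : Fin d) ∈ I))
    (decide ((⟨2, by omega⟩ : Fin d) ∈ I)) (decide ((⟨0, by omega⟩ : Fin d) ∈ J))
    (decide ((⟨1, by omega⟩ : Fin d) ∈ J)) (decide ((⟨2, by omega⟩ : Fin d) ∈ J))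
  simpa only [Finset.mem_union, Finset.mem_inter, Bool.decide_or, Bool.decide_and] using h

/-- The point `v` with `v i = 1` for `i ∈ I` and `v i = -1` for `i ∉ I`. -/
def pt (I : Finset (Fin d)) : Fin d → ℤ := fun i => if i ∈ I then 1 else -1

/-- upper bound for the terms of the tropical polynomial -/
lemma term_le (v : Fin d → ℝ) (x y z m : ℝ) (hx : v ⟨0, by omega⟩ = x) (hy : v ⟨1, by omega⟩ = y)
    (hz : v ⟨2, by omega⟩ = z) (hv : ∀ i : Fin d, 3 ≤ i.1 → v i ≤ 0)
    (hm : ∀ a b c : Bool, (if a then x else 0) + (if b then y else 0) + (if c then z else 0) -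
      c3 a b c ≤ m) (J : Finset (Fin d)) : ∑ i ∈ J, v i - coef hd J ≤ m := by
  set a0 : Fin d := ⟨0, by omega⟩ with ha0
  set a1 : Fin d := ⟨1, by omega⟩ with ha1
  set a2 : Fin d := ⟨2, by omega⟩ with ha2
  have h01 : a0 ≠ a1 := by simp [ha0, ha1]
  have h02 : a0 ≠ a2 := by simp [ha0, ha2]
  have h12 : a1 ≠ a2 := by simp [ha1, ha2]
  have h1 : ∑ i ∈ J, v i ≤ ∑ i ∈ J ∩ {a0, a1, a2}, v i := by
    have hs : ∑ i ∈ J, v i = ∑ i ∈ J ∩ {a0, a1, a2}, v i + ∑ i ∈ J \ {a0, a1, a2}, v i :=
      (Finset.sum_inter_add_sum_sdiff J _ _).symm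
    have hn : ∑ i ∈ J \ {a0, a1, a2}, v i ≤ 0 := by
      refine Finset.sum_nonpos fun i hi => hv i ?_
      have hi2 := (Finset.mem_sdiff.mp hi).2
      by_contra hlt
      apply hi2
      have h3 : i.1 = 0 ∨ i.1 = 1 ∨ i.1 = 2 := by omega
      rcases h3 with h3 | h3 | h3
      · have : i = a0 := Fin.ext h3
        simp [this]
      · have : i = a1 := Fin.ext h3
        simp [this]
      · have : i = a2 := Fin.ext h3
        simp [this]
    linarith
  have h2 : ∑ i ∈ J ∩ {a0, a1, a2}, v i =
      (if a0 ∈ J then x else 0) + (if a1 ∈ J then y else 0) + (if a2 ∈ J then z else 0) := by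
    rw [Finset.inter_comm, ← Finset.filter_mem_eq_inter, Finset.sum_filter,
      Finset.sum_insert (by simp [h01, h02]), Finset.sum_insert (by simp [h12]),
      Finset.sum_singleton, hx, hy, hz]
    ring
  have h3 := hm (decide (a0 ∈ J)) (decide (a1 ∈ J)) (decide (a2 ∈ J))
  simp only [decide_eq_true_eq] at h3
  have h4 : coef hd J = c3 (decide (a0 ∈ J)) (decide (a1 ∈ J)) (decide (a2 ∈ J)) := rfl
  rw [h4]
  linarith

/-- the value at a point whose coordinates `0`, `1`, `2` are given -/
lemma value_eq (v : Fin d → ℝ) (x y z m : ℝ) (hx : v ⟨0, by omega⟩ = x) (hy : v ⟨1, by omega⟩ = y)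
    (hz : v ⟨2, by omega⟩ = z) (hv : ∀ i : Fin d, 3 ≤ i.1 → v i ≤ 0)
    (hm : ∀ a b c : Bool, (if a then x else 0) + (if b then y else 0) + (if c then z else 0) -
      c3 a b c ≤ m) (J : Finset (Fin d)) (hJ : ∑ i ∈ J, v i - coef hd J = m) :
    tropicalPolynomial (coef hd) v = m := by
  unfold tropicalPolynomial
  apply le_antisymm
  · exact Finset.sup'_le _ _ fun I _ => term_le hd v x y z m hx hy hz hv hm I
  · rw [← hJ]
    exact Finset.le_sup' (fun I : Finset (Fin d) => ∑ i ∈ I, v i - coef hd I) (Finset.mem_univ J)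

lemma pt_le (I : Finset (Fin d)) (hI : ∀ i ∈ I, i.1 < 3) (i : Fin d) (hi : 3 ≤ i.1) :
    ((pt I i : ℤ) : ℝ) ≤ 0 := by
  unfold pt
  have : i ∉ I := fun h => by have := hI i h; omega
  simp [this]

lemma value0 : tropicalPolynomial (coef hd)
    (fun i => ((pt ({⟨0, by omega⟩} : Finset (Fin d)) i : ℤ) : ℝ)) = 1 := by
  refine value_eq hd _ 1 (-1) (-1) 1 (by simp [pt]) (by simp [pt]) (by simp [pt])
    (pt_le _ (by simp)) ?_ ({⟨0, by omega⟩} : Finset (Fin d)) ?_
  · intro a b c
    cases a <;> cases b <;> cases c <;> norm_num [c3]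
  · simp [pt, coef, c3]

lemma value01 : tropicalPolynomial (coef hd)
    (fun i => ((pt ({⟨0, by omega⟩, ⟨1, by omega⟩} : Finset (Fin d)) i : ℤ) : ℝ)) = 1 := by
  refine value_eq hd _ 1 1 (-1) 1 (by simp [pt]) (by simp [pt]) (by simp [pt])
    (pt_le _ (by simp)) ?_ ({⟨0, by omega⟩} : Finset (Fin d)) ?_
  · intro a b c
    cases a <;> cases b <;> cases c <;> norm_num [c3]
  · simp [pt, coef, c3]

lemma value02 : tropicalPolynomial (coef hd)
    (fun i => ((pt ({⟨0, by omega⟩, ⟨2, by omega⟩} : Finset (Fin d)) i : ℤ) : ℝ)) = 1 := by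
  refine value_eq hd _ 1 (-1) 1 1 (by simp [pt]) (by simp [pt]) (by simp [pt])
    (pt_le _ (by simp)) ?_ ({⟨0, by omega⟩} : Finset (Fin d)) ?_
  · intro a b c
    cases a <;> cases b <;> cases c <;> norm_num [c3]
  · simp [pt, coef, c3]

lemma value12 : tropicalPolynomial (coef hd)
    (fun i => ((pt ({⟨1, by omega⟩, ⟨2, by omega⟩} : Finset (Fin d)) i : ℤ) : ℝ)) = 2 := by
  refine value_eq hd _ (-1) 1 1 2 (by simp [pt]) (by simp [pt]) (by simp [pt])
    (pt_le _ (by simp)) ?_ ({⟨1, by omega⟩, ⟨2, by omega⟩} : Finset (Fin d)) ?_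
  · intro a b c
    cases a <;> cases b <;> cases c <;> norm_num [c3]
  have hne : (⟨1, by omega⟩ : Fin d) ≠ ⟨2, by omega⟩ := by simp
  rw [Finset.sum_pair hne]
  simp [pt, coef, c3]
  norm_num

end Coeff

section Local

variable {K : Type*} [Field K] [ValuativeRel K] [TopologicalSpace K] [IsNonarchimedeanLocalField K]

lemma isOpen_ball (r : K) (hr : r ≠ 0) : IsOpen {x : K | valuation K x ≤ valuation K r} := by
  simp_rw [← (valuation K).restrict_le_iff]
  apply Valuation.isOpen_closedBall
  simpa using hr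

lemma isOpen_tail {d : ℕ} {π : K} (hπ : π ≠ 0) (v : Fin d → ℤ) : IsOpen (tailEvent π v) := by
  unfold tailEvent
  rw [Set.ofPred_forall]
  refine isOpen_iInter_of_finite fun i => ?_
  have h1 := isOpen_ball (K := K) (π ^ v i) (zpow_ne_zero _ hπ)
  rw [map_zpow₀] at h1
  exact h1.preimage (f := fun x : Fin d → K => x i) (continuous_apply i)

/-- No random vector has the tail function with the coefficients `coef`. -/
lemma noTail {d : ℕ} (hd : 3 ≤ d) [MeasurableSpace (Fin d → K)] [BorelSpace (Fin d → K)]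
    (π : 𝒪[K]) (hπ : Irreducible π) (P : Measure (Fin d → K)) [IsProbabilityMeasure P] :
    ∃ v : Fin d → ℤ, tailOf P (π : K) v ≠ tropicalPolynomial (coef hd) fun i => (v i : ℝ) := by
  by_contra hcon
  push Not at hcon
  have hπ0 : (π : K) ≠ 0 := by
    intro h
    exact hπ.ne_zero (Subtype.ext h)
  have hle : valuation K (π : K) ^ (1 : ℤ) ≤ valuation K (π : K) ^ (-1 : ℤ) :=
    zpow_le_zpow_right_of_le_one₀ (zero_lt_iff.mpr ((valuation K).ne_zero_iff.mpr hπ0)) π.2
      (by norm_num)
  set q : ℕ := Nat.card 𝓀[K] with hq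
  have hq1 : 1 < q := by
    rw [hq]
    exact Finite.one_lt_card
  have hq1' : (1 : ℝ) < q := by exact_mod_cast hq1
  have hq0 : (0 : ℝ) < q := by linarith
  set a0 : Fin d := ⟨0, by omega⟩ with ha0
  set a1 : Fin d := ⟨1, by omega⟩ with ha1
  set a2 : Fin d := ⟨2, by omega⟩ with ha2
  -- the probabilities
  have hprob : ∀ (v : Fin d → ℤ) (m : ℝ), m ≠ 0 →
      tropicalPolynomial (coef hd) (fun i => (v i : ℝ)) = m →
      P.real (tailEvent (π : K) v) = (q : ℝ) ^ (-m) := by
    intro v m hm hv
    have h1 := hcon v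
    rw [hv, tailOf, ← hq] at h1
    have h2 : Real.logb q (P.real (tailEvent (π : K) v)) = -m := by
      unfold Measure.real
      linarith
    have h3 : P.real (tailEvent (π : K) v) ≠ 0 := by
      intro h0
      rw [h0, Real.logb_zero] at h2
      exact hm (by linarith)
    have h4 : 0 < P.real (tailEvent (π : K) v) := lt_of_le_of_ne measureReal_nonneg (Ne.symm h3)
    rw [← h2, Real.rpow_logb hq0 hq1'.ne' h4]
  have e0 := hprob (pt {a0}) 1 (by norm_num) (value0 hd)
  have e01 := hprob (pt {a0, a1}) 1 (by norm_num) (value01 hd)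
  have e02 := hprob (pt {a0, a2}) 1 (by norm_num) (value02 hd)
  have e12 := hprob (pt {a1, a2}) 2 (by norm_num) (value12 hd)
  have hU : tailEvent (π : K) (pt {a0, a1}) ∪ tailEvent (π : K) (pt {a0, a2}) ⊆
      tailEvent (π : K) (pt {a0}) := by
    rintro x (hx | hx) i
    · have hi := hx i
      unfold pt at hi ⊢
      by_cases h0 : i = a0
      · simpa [h0] using hi
      · by_cases h1 : i = a1
        · simp only [h1, Finset.mem_insert, Finset.mem_singleton] at hi ⊢
          have h10 : a1 ≠ a0 := by simp [ha0, ha1]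
          simp only [h10, or_true, if_true, if_false] at hi ⊢
          exact hi.trans hle
        · simpa [h0, h1] using hi
    · have hi := hx i
      unfold pt at hi ⊢
      by_cases h0 : i = a0
      · simpa [h0] using hi
      · by_cases h1 : i = a2
        · simp only [h1, Finset.mem_insert, Finset.mem_singleton] at hi ⊢
          have h10 : a2 ≠ a0 := by simp [ha0, ha2]
          simp only [h10, or_true, if_true, if_false] at hi ⊢
          exact hi.trans hle
        · simpa [h0, h1] using hi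
  have hI : tailEvent (π : K) (pt {a0, a1}) ∩ tailEvent (π : K) (pt {a0, a2}) ⊆
      tailEvent (π : K) (pt {a1, a2}) := by
    rintro x ⟨hx, hx'⟩ i
    have hi := hx i
    have hi' := hx' i
    unfold pt at hi hi' ⊢
    by_cases h1 : i = a1
    · simpa [h1] using hi
    · by_cases h2 : i = a2
      · simpa [h2] using hi'
      · have h3 : i ∉ ({a1, a2} : Finset (Fin d)) := by simp [h1, h2]
        rw [if_neg h3]
        by_cases h0 : i ∈ ({a0, a1} : Finset (Fin d))
        · rw [if_pos h0] at hi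
          exact hi.trans hle
        · rwa [if_neg h0] at hi
  have hmeas : MeasurableSet (tailEvent (π : K) (pt {a0, a2})) := (isOpen_tail hπ0 _).measurableSet
  have h1 := measureReal_union_add_inter (μ := P) (s := tailEvent (π : K) (pt {a0, a1}))
    (t := tailEvent (π : K) (pt {a0, a2})) hmeas
  have h2 := measureReal_mono (μ := P) hU
  have h3 := measureReal_mono (μ := P) hI
  rw [e01, e02] at h1
  rw [e0] at h2
  rw [e12] at h3
  have h4 : (q : ℝ) ^ (-(2 : ℝ)) < (q : ℝ) ^ (-(1 : ℝ)) :=
    Real.rpow_lt_rpow_of_exponent_lt hq1' (by norm_num)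
  linarith

omit [TopologicalSpace K] [IsNonarchimedeanLocalField K] in
lemma lattice_eq {d : ℕ} (A : GL (Fin d) K) :
    lattice A = {x | ∀ i, valuation K ((((A⁻¹ : GL (Fin d) K) : Matrix (Fin d) (Fin d) K) *ᵥ x) i)
      ≤ 1} := by
  ext x
  constructor
  · rintro ⟨z, hz, rfl⟩ i
    rw [Matrix.mulVec_mulVec, ← Units.val_mul, inv_mul_cancel, Units.val_one, Matrix.one_mulVec]
    exact hz i
  · intro hx
    refine ⟨((A⁻¹ : GL (Fin d) K) : Matrix (Fin d) (Fin d) K) *ᵥ x, hx, ?_⟩
    rw [Matrix.mulVec_mulVec, ← Units.val_mul, mul_inv_cancel, Units.val_one, Matrix.one_mulVec]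

lemma isOpen_lattice {d : ℕ} (A : GL (Fin d) K) : IsOpen (lattice A) := by
  rw [lattice_eq, Set.ofPred_forall]
  refine isOpen_iInter_of_finite fun i => ?_
  have h1 : IsOpen {x : K | valuation K x ≤ 1} := by
    simpa using isOpen_ball (K := K) 1 one_ne_zero
  refine h1.preimage (f := fun x : Fin d → K =>
    (((A⁻¹ : GL (Fin d) K) : Matrix (Fin d) (Fin d) K) *ᵥ x) i) ?_
  fun_prop

lemma isCompact_lattice {d : ℕ} (A : GL (Fin d) K) : IsCompact (lattice A) := by
  have h1 : IsCompact (Set.pi Set.univ fun _ : Fin d => {x : K | valuation K x ≤ 1}) :=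
    isCompact_univ_pi fun _ => IsNonarchimedeanLocalField.isCompact_closedBall K 1
  have h2 : Continuous fun z : Fin d → K => (A : Matrix (Fin d) (Fin d) K) *ᵥ z := by
    fun_prop
  have h3 := h1.image h2
  convert h3 using 1
  ext x
  constructor
  · rintro ⟨z, hz, rfl⟩
    exact ⟨z, fun i _ => hz i, rfl⟩
  · rintro ⟨z, hz, rfl⟩
    exact ⟨z, fun i => hz i (Set.mem_univ i), rfl⟩

end Local

/-- For every non-archimedean local field `K` and every `d ≥ 3` there are integer supermodular
coefficients `c` such that the tropical polynomial with coefficients `c` does not agree on `ℤᵈ`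
with the tail function of any lattice of `Kᵈ`, and not even with the function `- log_q P(V ≥ v)` of
any random vector in `Kᵈ`. -/
theorem result {K : Type*} [Field K] [ValuativeRel K] [TopologicalSpace K]
    [IsNonarchimedeanLocalField K] {d : ℕ} (hd : 3 ≤ d) [MeasurableSpace (Fin d → K)]
    [BorelSpace (Fin d → K)] (π : 𝒪[K]) (hπ : Irreducible π) :
    ∃ c : Finset (Fin d) → ℤ, Supermodular c ∧
      (∀ μ : Measure (Fin d → K), μ.IsAddHaarMeasure → ∀ A : GL (Fin d) K, ∃ v : Fin d → ℤ,
        tailFunction μ (π : K) A v ≠ tropicalPolynomial c fun i => (v i : ℝ)) ∧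
      (∀ P : Measure (Fin d → K), IsProbabilityMeasure P → ∃ v : Fin d → ℤ,
        tailOf P (π : K) v ≠ tropicalPolynomial c fun i => (v i : ℝ)) := by
  refine ⟨coef hd, coef_super hd, fun μ hμ A => ?_, fun P hP => noTail hd π hπ P⟩
  have hLpos : μ (lattice A) ≠ 0 :=
    ((isOpen_lattice A).measure_pos μ ⟨0, fun _ => 0, fun _ => zero_mem _, by
      rw [show (fun _ : Fin d => (0 : K)) = 0 from rfl, Matrix.mulVec_zero]⟩).ne'
  have hLfin : μ (lattice A) ≠ ⊤ := (isCompact_lattice A).measure_lt_top.ne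
  have hP : IsProbabilityMeasure (ProbabilityTheory.cond μ (lattice A)) :=
    ProbabilityTheory.cond_isProbabilityMeasure_of_finite hLpos hLfin
  obtain ⟨v, hv⟩ := noTail hd π hπ (ProbabilityTheory.cond μ (lattice A))
  refine ⟨v, fun h => hv ?_⟩
  rw [← h, tailOf, tailFunction,
    ProbabilityTheory.cond_apply (isOpen_lattice A).measurableSet, ENNReal.div_eq_inv_mul]

end Pool.Agent.Results.MP_90534d_pr.FailsFromDimensionThree
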