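import Pool.Agent.Q154.War.SqInt

/-!
# Lattice points on `k`-spheres with generic centre: almost all radii, all `d ≥ k + 1`

Let `k ≥ 3` and `n ≥ k + 1`. For Lebesgue-almost every centre `α ∈ ℝⁿ` the number of points of
`α + ℤⁿ` in the shell `N ≤ |y₁|^k + ⋯ + |yₙ|^k < N + 1` is, with a power saving in the error term,
the volume `(2 Γ(1 + 1/k))ⁿ / Γ(n/k) · N^(n/k - 1)` for all integers `N ≤ X` but `O(X^(1 - δ))`. The
same holds for shells of width `η ≥ N^(-γ)` and almost all real `N`, for every `γ < n/k - 1`. Both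
conditions are optimal: for `n ≤ k`, and for shells of width `N^(-γ)` with `γ > n/k - 1`, there are
not enough lattice points.
-/

set_option autoImplicit false

namespace Pool.Agent.Results.MP_927be3_nt.AlmostAllRadii

open MeasureTheory Filter Topology Pool.Agent.Q154.War

lemma const_eq {k n : ℕ} (hk : 1 ≤ k) (hn : 1 ≤ n) :
    Lc k n = (2 * Real.Gamma (1 + 1 / (k : ℝ))) ^ n / Real.Gamma ((n : ℝ) / k) := by
  have hk0 : (0 : ℝ) < k := by exact_mod_cast hk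
  have hn0 : (0 : ℝ) < n := by exact_mod_cast hn
  have hp : (0 : ℝ) < (n : ℝ) / k := by positivity
  have h1 : Real.Gamma ((n : ℝ) / k + 1) = (n : ℝ) / k * Real.Gamma ((n : ℝ) / k) :=
    Real.Gamma_add_one hp.ne'
  have h2 : 0 < Real.Gamma ((n : ℝ) / k) := Real.Gamma_pos_of_pos hp
  unfold Lc vc
  rw [h1, add_comm (1 / (k : ℝ)) 1]
  field_simp

/-- **Almost all radii.** -/
theorem result (k n : ℕ) (hk : 3 ≤ k) (hn : k + 1 ≤ n) :
    -- (1) integers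
    (∃ δ : ℝ, 0 < δ ∧ ∀ᵐ α : Fin n → ℝ, ∃ C : ℝ, ∀ X : ℝ, 1 ≤ X →
      ({N : ℕ | 1 ≤ N ∧ (N : ℝ) ≤ X ∧ C * (N : ℝ) ^ ((n : ℝ) / k - 1 - δ) <
        |({x : Fin n → ℤ | ⌊∑ i, |(x i : ℝ) + α i| ^ k⌋ = (N : ℤ)}.ncard : ℝ) -
          (2 * Real.Gamma (1 + 1 / (k : ℝ))) ^ n / Real.Gamma ((n : ℝ) / k) *
            (N : ℝ) ^ ((n : ℝ) / k - 1)|}.ncard : ℝ) ≤ C * X ^ (1 - δ)) ∧
    -- (2) thin shells
    (∀ γ : ℝ, 0 ≤ γ → k * γ < n - k → ∃ δ : ℝ, 0 < δ ∧ ∀ a : ℝ, 0 < a → ∀ η : ℕ → ℝ,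
      (∀ j, a * ((2 : ℝ) ^ j) ^ (-γ) ≤ η j ∧ η j ≤ 1) → ∀ᵐ α : Fin n → ℝ, ∃ C : ℝ, ∀ j : ℕ,
        volume {N : ℝ | 2 ^ j ≤ N ∧ N < 2 ^ (j + 1) ∧ η j * N ^ ((n : ℝ) / k - 1 - δ) <
          |({x : Fin n → ℤ | |∑ i, |(x i : ℝ) + α i| ^ k - N| < η j}.ncard : ℝ) -
            2 * η j * ((2 * Real.Gamma (1 + 1 / (k : ℝ))) ^ n / Real.Gamma ((n : ℝ) / k)) *
              N ^ ((n : ℝ) / k - 1)|} ≤ ENNReal.ofReal (C * ((2 : ℝ) ^ j) ^ (1 - δ))) := by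
  have hce := const_eq (k := k) (n := n) (by omega) (by omega)
  have hk0 : (0 : ℝ) < k := by exact_mod_cast (show 0 < k by omega)
  have hp2 : ∀ (j : ℕ) (e : ℝ), ((2 : ℝ) ^ j) ^ e = ((2 : ℝ) ^ e) ^ j := by
    intro j e
    rw [← Real.rpow_natCast 2 j, ← Real.rpow_mul (by norm_num),
      ← Real.rpow_mul_natCast (by norm_num)]
    congr 1
    ring
  constructor
  · obtain ⟨δ, h1, _, h3⟩ := ae_int (k := k) (n := n) hk hn
    rw [hce] at h3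
    exact ⟨δ, h1, h3⟩
  · intro γ hγ hγ2
    have hγ3 : γ < n / k - 1 := by
      rw [lt_sub_iff_add_lt, lt_div_iff₀ hk0]
      nlinarith
    obtain ⟨δ, h1, _, _, h4⟩ := ae_shell' (k := k) (n := n) hk hn hγ hγ3
    refine ⟨δ, h1, fun a ha η hη => ?_⟩
    have h5 := h4 a ha η (fun j => by rw [← hp2]; exact (hη j).1) (fun j => (hη j).2)
    filter_upwards [h5] with α ⟨C, hC⟩
    refine ⟨C, fun j => ?_⟩
    have h6 := hC j
    rw [← hp2] at h6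
    refine le_trans (measure_mono ?_) h6
    rintro N ⟨hN1, hN2, hN3⟩
    refine ⟨⟨hN1, hN2⟩, ?_⟩
    rw [hce]
    exact hN3

end Pool.Agent.Results.MP_927be3_nt.AlmostAllRadii
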