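import Pool.Agent.Q282.CL.Loc2
import Pool.Agent.Q282.BP.Bad
import Pool.Agent.Q282.BP.RankFam
import Pool.Agent.Y57.FD.HypM

/-!
# The truncated factor of the Birch and Swinnerton-Dyer formula is a Brownian motion

The leading-term formula for an elliptic curve over the rational numbers is equivalent to the formula with the Euler factors at a
finite set `Σ` of primes removed, in which the algebraic side is multiplied by the product of the numbers `N_p / p`, `p ∈ Σ`,
`N_p` the number of the nonsingular points modulo `p`. Here the law of this factor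
`P(X) = ∏_{p ≤ X} (N_p + 1) / p` (`N_p` the number of the affine points, `p` not dividing twice the discriminant) is determined for
the curves `E_t : y ^ 2 = x ^ 3 + b x ^ 2 + c x + d` with `r = 0, 1, 2` marked independent points:

* `r = 0`: all `b, c, d`;
* `r = 1`: all curves with an integral point `(x₁, y₁)`: `x ^ 3 + b x ^ 2 + c x + d = (x - x₁) (x ^ 2 + u x + v) + y₁ ^ 2`;
* `r = 2`: all curves with three integral points on a line `y = l x + m`:
  `x ^ 3 + b x ^ 2 + c x + d = (x - x₁) (x - x₂) (x - x₃) + (l x + m) ^ 2`.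

Let `X → ∞` and let the parameters `t` be taken at random in any box with sides at least `X ^ 5`. Then the process
`s ↦ (log P(exp ((log X) ^ s)) - (r + 1 / 2) s log log X) / sqrt (log log X)`, `0 < s ≤ 1`, converges to the Brownian motion in the
sense of the finite-dimensional distributions; for `s = 1` this says that `log P(X)` is asymptotically normal with mean
`(r + 1 / 2) log log X` and variance `log log X`. The convergence is uniform in the box, and the curves are elliptic
curves with at least `r` independent rational points.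

Proof. The mean and the mean square of `log ((N_p + 1) / p)` over the family modulo `p` are `(r + 1 / 2) / p + O (p ^ (-3 / 2))` and
`1 / p + O (p ^ (-3 / 2))`. The characteristic functions of the weighted sums over the primes `p ≤ X ^ (1 / k)` are compared with
those of independent variables by the Taylor polynomial of degree `2 k`, the chinese remainder theorem and exponential moments; the
primes between `X ^ (1 / k)` and `X` are estimated in mean square. The theorem of Lévy on characteristic functions is in Mathlib.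
The independence of the marked points is taken from the sieve of `MP_696deb_nt.MarkedPoints`, with the local means.
-/

set_option autoImplicit false

namespace Pool.Agent.Results.MP_92892c_nt.BrownianMotionLaw

open Finset
open scoped NNReal

/-- The coefficients `(b, c, d)` of the cubic polynomials `x ^ 3 + b x ^ 2 + c x + d` of the families:
all polynomials (`r = 0`), `(x - t 0) (x ^ 2 + t 2 x + t 3) + (t 1) ^ 2` (`r = 1`), and
`(x - t 0) (x - t 1) (x - t 2) + (t 3 x + t 4) ^ 2` (`r = 2`). -/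
def family : (r : ℕ) → (Fin (r + 3) → ℤ) → ℤ × ℤ × ℤ
  | 0, t => (t 0, t 1, t 2)
  | 1, t => (t 2 - t 0, t 3 - t 0 * t 2, t 1 ^ 2 - t 0 * t 3)
  | _ + 2, t => (t 3 ^ 2 - (t 0 + t 1 + t 2), t 0 * t 1 + t 0 * t 2 + t 1 * t 2 + 2 * t 3 * t 4, t 4 ^ 2 - t 0 * t 1 * t 2)

/-- `N_p`: the number of the solutions of `y ^ 2 = x ^ 3 + b x ^ 2 + c x + d` modulo `p`. -/
noncomputable def points (C : ℤ × ℤ × ℤ) (p : ℕ) : ℕ :=
  Nat.card {P : ZMod p × ZMod p // P.2 ^ 2 = P.1 ^ 3 + (C.1 : ZMod p) * P.1 ^ 2 + (C.2.1 : ZMod p) * P.1 + (C.2.2 : ZMod p)}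

/-- The discriminant of `x ^ 3 + b x ^ 2 + c x + d`. -/
def disc (C : ℤ × ℤ × ℤ) : ℤ :=
  C.1 ^ 2 * C.2.1 ^ 2 - 4 * C.2.1 ^ 3 - 4 * C.1 ^ 3 * C.2.2 + 18 * C.1 * C.2.1 * C.2.2 - 27 * C.2.2 ^ 2

/-- `p` is a prime which does not divide twice the discriminant. -/
def Good (C : ℤ × ℤ × ℤ) (p : ℕ) : Prop := p.Prime ∧ ¬ (p : ℤ) ∣ 2 * disc C

open Classical in
/-- The product of Birch and Swinnerton-Dyer: `P(X) = ∏ (N_p + 1) / p` over the good primes `p ≤ X`. -/
noncomputable def product (C : ℤ × ℤ × ℤ) (X : ℕ) : ℝ :=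
  ∏ p ∈ (Icc 1 X).filter (Good C), ((points C p : ℝ) + 1) / p

/-- The curve `y ^ 2 = x ^ 3 + b x ^ 2 + c x + d` over the rational numbers, where `C = (b, c, d)`. -/
def curve (C : ℤ × ℤ × ℤ) : WeierstrassCurve ℚ := { a₁ := 0, a₂ := C.1, a₃ := 0, a₄ := C.2.1, a₆ := C.2.2 }

/-- The box of the parameters `t` with `N i ≤ t i < N i + L i` for all `i`. -/
noncomputable def box {k : ℕ} (N : Fin k → ℤ) (L : Fin k → ℕ) : Finset (Fin k → ℤ) := Fintype.piFinset fun i => Ico (N i) (N i + L i)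

/-- The integer part of `exp ((log X) ^ s)`. -/
noncomputable def time (X : ℕ) (s : ℝ) : ℕ := ⌊Real.exp (Real.log X ^ s)⌋₊

/-- `(log P(exp ((log X) ^ s)) - (r + 1 / 2) s log log X) / sqrt (log log X)` for the curve with the parameters `t`. -/
noncomputable def deviation (r : ℕ) (t : Fin (r + 3) → ℤ) (X : ℕ) (s : ℝ) : ℝ :=
  (Real.log (product (family r t) (time X s)) - (r + 1 / 2) * s * Real.log (Real.log X)) / Real.sqrt (Real.log (Real.log X))

/-- The distribution function of the Brownian motion `B` at the times `s ∈ I`: the probability that `B_s ≤ x_s` for all `s ∈ I`. -/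
noncomputable def brownian (I : Finset ℝ≥0) (x : I → ℝ) : ℝ :=
  (ProbabilityTheory.BrownianReal.projectiveFamily I (Set.Iic x)).toReal

open Classical in
/-- The proportion of the `t` of the box with the property `P`. -/
noncomputable def proportion {k : ℕ} (N : Fin k → ℤ) (L : Fin k → ℕ) (P : (Fin k → ℤ) → Prop) : ℝ :=
  (((box N L).filter P).card : ℝ) / ∏ i, (L i : ℝ)

/-- `E_t` is an elliptic curve with at least `r` independent rational points. -/
def Rank (r : ℕ) (t : Fin (r + 3) → ℤ) : Prop :=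
  (curve (family r t)).IsElliptic ∧ (r : Cardinal) ≤ Module.rank ℤ (curve (family r t)).toAffine.Point

/-! ### Proofs -/

lemma card_affine {F : Type} [Field F] [Fintype F] [DecidableEq F] (hchar : ringChar F ≠ 2) (f : F → F) :
    (Nat.card {P : F × F // P.2 ^ 2 = f P.1} : ℝ) = (Fintype.card F : ℝ) + ∑ x : F, Q282.BP.ch (f x) := by
  classical
  have h1 : Nat.card {P : F × F // P.2 ^ 2 = f P.1} = ∑ x : F, Nat.card {y : F // y ^ 2 = f x} := by
    rw [← Nat.card_sigma]
    refine Nat.card_congr ⟨fun P => ⟨P.1.1, ⟨P.1.2, P.2⟩⟩, fun P => ⟨(P.1, P.2.1), P.2.2⟩, fun _ => rfl, fun _ => rfl⟩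
  have h2 : ∀ x : F, ((Nat.card {y : F // y ^ 2 = f x} : ℕ) : ℤ) = quadraticChar F (f x) + 1 := by
    intro x
    rw [← quadraticChar_card_sqrts hchar (f x)]
    congr 1
    rw [Nat.card_eq_fintype_card, Fintype.card_subtype]
    congr 1
    ext y
    simp
  rw [h1]
  push_cast
  have h3 : ∀ x : F, ((Nat.card {y : F // y ^ 2 = f x} : ℕ) : ℝ) = Q282.BP.ch (f x) + 1 := by
    intro x
    have := h2 x
    unfold Q282.BP.ch
    exact_mod_cast this
  rw [sum_congr rfl (fun x _ => h3 x), sum_add_distrib, sum_const, card_univ, nsmul_eq_mul, mul_one]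
  ring

/-- Hasse's bound -/
lemma hasse {K : Type} [Field K] [Fintype K] [DecidableEq K] (hK : ringChar K ≠ 2) (c : K × K × K) :
    |Q282.BP.SS c| ≤ 2 * Real.sqrt (Fintype.card K) := by
  obtain ⟨f, hf⟩ : ∃ f : Polynomial K, f = Polynomial.X ^ 3 + (Polynomial.C c.1 * Polynomial.X ^ 2 +
    Polynomial.C c.2.1 * Polynomial.X + Polynomial.C c.2.2) := ⟨_, rfl⟩
  have hlow : (Polynomial.C c.1 * Polynomial.X ^ 2 + Polynomial.C c.2.1 * Polynomial.X + Polynomial.C c.2.2 :
      Polynomial K).degree < ((3 : ℕ) : WithBot ℕ) := by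
    refine lt_of_le_of_lt (Polynomial.degree_quadratic_le) ?_
    exact_mod_cast (by norm_num : 2 < 3)
  have hm : f.Monic := by
    rw [hf]
    exact Polynomial.monic_X_pow_add hlow
  have hd : f.natDegree = 3 := by
    apply Polynomial.natDegree_eq_of_degree_eq_some
    rw [hf, Polynomial.degree_add_eq_left_of_degree_lt, Polynomial.degree_X_pow]
    rw [Polynomial.degree_X_pow]
    exact hlow
  have h1 := Pool.Agent.H341R2.Sharp.weil_sharp_monic hK hm (by rw [hd]; norm_num) (by
    intro a h hc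
    have h3 : f ≠ 0 := hm.ne_zero
    have ha0 : a ≠ 0 := by
      rintro rfl
      rw [Polynomial.C_0, zero_mul] at hc
      exact h3 hc
    have h2 := hd
    rw [hc, Polynomial.natDegree_C_mul ha0, Polynomial.natDegree_pow] at h2
    omega)
  rw [hd] at h1
  have h2 : ∀ x : K, f.eval x = Q282.BP.cub c x := by
    intro x
    rw [hf]
    unfold Q282.BP.cub
    simp
    ring
  have h3 : Q282.BP.SS c = ∑ x : K, (quadraticChar K (f.eval x) : ℝ) := by
    unfold Q282.BP.SS Q282.BP.ch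
    exact sum_congr rfl fun x _ => by rw [h2 x]
  rw [h3]
  refine h1.trans (le_of_eq ?_)
  norm_num

open Classical in
/-- the summand of `log P(X)` -/
noncomputable def hh (C : ℤ × ℤ × ℤ) (p : ℕ) : ℝ := if Good C p then Real.log (((points C p : ℝ) + 1) / p) else 0

lemma log_product (C : ℤ × ℤ × ℤ) (X : ℕ) : Real.log (product C X) = ∑ p ∈ Q282.BP.PP X, hh C p := by
  classical
  unfold product
  rw [Real.log_prod]
  · have h1 : (Icc 1 X).filter (Good C) = (Q282.BP.PP X).filter (Good C) := by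
      ext p
      simp only [mem_filter]
      constructor
      · rintro ⟨h1, h2⟩
        exact ⟨⟨h1, h2.1⟩, h2⟩
      · rintro ⟨⟨h1, _⟩, h2⟩
        exact ⟨h1, h2⟩
    rw [h1, sum_filter]
    rfl
  · intro p hp
    rw [mem_filter, mem_Icc] at hp
    have : (0 : ℝ) < p := by exact_mod_cast hp.1.1
    positivity

/-- the value modulo `p` -/
noncomputable def loc (p : ℕ) [Fact p.Prime] (c : ZMod p × ZMod p × ZMod p) : ℝ :=
  if Q282.BP.dis c = 0 then 0 else Real.log (1 + (1 + Q282.BP.SS c) / p)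

/-- reduction of the coefficients -/
def redc (p : ℕ) (C : ℤ × ℤ × ℤ) : ZMod p × ZMod p × ZMod p := ((C.1 : ZMod p), (C.2.1 : ZMod p), (C.2.2 : ZMod p))

lemma redc_family (p r : ℕ) (t : Fin (r + 3) → ℤ) :
    redc p (family r t) = Q282.BP.fam r (fun i => (t i : ZMod p)) := by
  match r, t with
  | 0, t => rfl
  | 1, t =>
    unfold redc family Q282.BP.fam
    push_cast
    rfl
  | r + 2, t =>
    unfold redc family Q282.BP.fam
    push_cast
    rfl

lemma hh_eq (p : ℕ) [Fact p.Prime] (hp2 : p ≠ 2) (C : ℤ × ℤ × ℤ) : hh C p = loc p (redc p C) := by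
  classical
  have hp : p.Prime := Fact.out
  have hchar : ringChar (ZMod p) ≠ 2 := by
    rw [ZMod.ringChar_zmod_n]
    exact hp2
  have hp0 : (0 : ℝ) < p := by exact_mod_cast hp.pos
  have hgood : Good C p ↔ ¬ Q282.BP.dis (redc p C) = 0 := by
    have e : Q282.BP.dis (redc p C) = ((disc C : ℤ) : ZMod p) := by
      unfold Q282.BP.dis redc disc
      push_cast
      rfl
    have h2 : (2 : ZMod p) ≠ 0 := by
      intro h
      have h3 : ((2 : ℕ) : ZMod p) = 0 := by exact_mod_cast h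
      rw [ZMod.natCast_eq_zero_iff] at h3
      exact hp2 ((Nat.prime_dvd_prime_iff_eq hp Nat.prime_two).1 h3)
    unfold Good
    rw [e]
    constructor
    · rintro ⟨-, h⟩ h0
      rw [ZMod.intCast_zmod_eq_zero_iff_dvd] at h0
      exact h (h0.mul_left 2)
    · intro h
      refine ⟨hp, fun hdvd => ?_⟩
      rw [← ZMod.intCast_zmod_eq_zero_iff_dvd] at hdvd
      push_cast at hdvd
      rcases mul_eq_zero.1 hdvd with h3 | h3
      · exact h2 h3
      · exact h h3
  have hpts : (points C p : ℝ) = p + Q282.BP.SS (redc p C) := by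
    unfold points
    rw [card_affine hchar (fun x => x ^ 3 + (C.1 : ZMod p) * x ^ 2 + (C.2.1 : ZMod p) * x + (C.2.2 : ZMod p)), ZMod.card]
    rfl
  unfold hh loc
  by_cases hg : Good C p
  · rw [if_pos hg, if_neg (hgood.1 hg), hpts]
    congr 1
    field_simp
    ring
  · rw [if_neg hg, if_pos (not_not.1 fun h => hg (hgood.2 h))]

lemma hh_two (C : ℤ × ℤ × ℤ) : hh C 2 = 0 := by
  unfold hh
  rw [if_neg]
  rintro ⟨-, h⟩
  exact h (Dvd.intro _ rfl)

lemma sqrt_ge {p : ℕ} (hp : 3 ≤ p) : 3 / 2 ≤ Real.sqrt p := by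
  refine Real.le_sqrt_of_sq_le ?_
  have : (3 : ℝ) ≤ p := by exact_mod_cast hp
  norm_num
  linarith

lemma hh_le (C : ℤ × ℤ × ℤ) (p : ℕ) (hp : p.Prime) : |hh C p| ≤ 6 / Real.sqrt p := by
  by_cases hp2 : p = 2
  · rw [hp2, hh_two, abs_zero]
    positivity
  · have : Fact p.Prime := ⟨hp⟩
    have hp3 : 3 ≤ p := by
      have := hp.two_le
      omega
    have hchar : ringChar (ZMod p) ≠ 2 := by
      rw [ZMod.ringChar_zmod_n]
      exact hp2
    rw [hh_eq p hp2]
    unfold loc
    split_ifs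
    · rw [abs_zero]
      positivity
    · have h1 := hasse hchar (redc p C)
      rw [ZMod.card] at h1
      have h2 := Q282.BP.log_bound (sqrt_ge hp3) h1
      rw [Real.sq_sqrt (by positivity)] at h2
      exact h2

lemma family_eq (r : ℕ) (t : Fin (r + 3) → ℤ) : family r t = Q282.BP.fam r t := by
  match r, t with
  | 0, t => rfl
  | 1, t => rfl
  | r + 2, t => rfl

/-- the function of the residues -/
noncomputable def HH (r p : ℕ) (u : Fin (r + 3) → ZMod p) : ℝ :=
  if h : p.Prime then (if p = 2 then 0 else haveI : Fact p.Prime := ⟨h⟩; loc p (Q282.BP.fam r u)) else 0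

lemma HH_eq (r : ℕ) (t : Fin (r + 3) → ℤ) (p : ℕ) (hp : p.Prime) : hh (family r t) p = HH r p (fun i => (t i : ZMod p)) := by
  unfold HH
  rw [dif_pos hp]
  by_cases hp2 : p = 2
  · subst hp2
    rw [if_pos rfl, hh_two]
  · have : Fact p.Prime := ⟨hp⟩
    rw [if_neg hp2, hh_eq p hp2, redc_family]

lemma HH_le (r p : ℕ) (hp : p.Prime) (u : Fin (r + 3) → ZMod p) : |HH r p u| ≤ 6 / Real.sqrt p := by
  have : Fact p.Prime := ⟨hp⟩
  have h1 : u = fun i => (((u i).val : ℤ) : ZMod p) := by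
    funext i
    rw [Int.cast_natCast, ZMod.natCast_zmod_val]
  rw [h1, ← HH_eq r (fun i => ((u i).val : ℤ)) p hp]
  exact hh_le _ p hp

lemma local_data (r : ℕ) (hr : r ≤ 2) (p : ℕ) [hp : Fact p.Prime] (hp2 : p ≠ 2) : 3 ≤ p ∧
    (∀ t : Fin (r + 3) → ZMod p, |Q282.BP.SS (Q282.BP.fam r t)| ≤ 2 * Real.sqrt p) ∧
    ((univ.filter fun t : Fin (r + 3) → ZMod p => Q282.BP.dis (Q282.BP.fam r t) = 0).card : ℝ) * p ≤
      20 * Fintype.card (Fin (r + 3) → ZMod p) ∧
    |∑ t : Fin (r + 3) → ZMod p, Q282.BP.SS (Q282.BP.fam r t) - r * Fintype.card (Fin (r + 3) → ZMod p)| * p ≤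
      20 * Fintype.card (Fin (r + 3) → ZMod p) ∧
    |∑ t : Fin (r + 3) → ZMod p, Q282.BP.SS (Q282.BP.fam r t) ^ 2 - p * Fintype.card (Fin (r + 3) → ZMod p)| ≤
      20 * Fintype.card (Fin (r + 3) → ZMod p) := by
  classical
  have hpp : p.Prime := hp.out
  have hp3 : 3 ≤ p := by
    have := hpp.two_le
    omega
  have hchar : ringChar (ZMod p) ≠ 2 := by
    rw [ZMod.ringChar_zmod_n]
    exact hp2
  have h27 : (27 : ZMod p) ≠ 0 ∨ Fintype.card (ZMod p) = 3 := by
    by_cases h3 : p = 3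
    · right
      rw [ZMod.card, h3]
    · left
      intro h
      have h4 : ((27 : ℕ) : ZMod p) = 0 := by exact_mod_cast h
      rw [ZMod.natCast_eq_zero_iff] at h4
      have h5 : p ∣ 3 ^ 3 := by norm_num; exact h4
      exact h3 ((Nat.prime_dvd_prime_iff_eq hpp Nat.prime_three).1 (hpp.dvd_of_dvd_pow h5))
  obtain ⟨hb, hm1, hm2⟩ := Q282.BP.loc_fam hchar h27 r hr
  rw [ZMod.card] at hb hm1 hm2
  refine ⟨hp3, fun t => ?_, hb, hm1, hm2⟩
  have := hasse hchar (Q282.BP.fam r t)
  rwa [ZMod.card] at this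

lemma small_two {c : ℝ} {B : ℝ} (hB : 0 ≤ B) (h : |c| ≤ 3) : |0 - c| ≤ (B + 12) / ((2 : ℕ) : ℝ) ^ (3 / 2 : ℝ) := by
  have h2 : ((2 : ℕ) : ℝ) ^ (3 / 2 : ℝ) ≤ 4 := by
    calc ((2 : ℕ) : ℝ) ^ (3 / 2 : ℝ) ≤ ((2 : ℕ) : ℝ) ^ (2 : ℝ) :=
          Real.rpow_le_rpow_of_exponent_le (by norm_num) (by norm_num)
      _ = 4 := by norm_num
  rw [zero_sub, abs_neg]
  refine h.trans ?_
  rw [le_div_iff₀ (by positivity)]
  have h4 : (0 : ℝ) < ((2 : ℕ) : ℝ) ^ (3 / 2 : ℝ) := by positivity
  linarith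

/-- the local means and mean squares -/
lemma means (r : ℕ) (hr : r ≤ 2) : ∃ B₁ : ℝ, 0 ≤ B₁ ∧
    (∀ p : ℕ, p.Prime → |Q282.CL.mn (HH r) p - (r + 1 / 2) * (1 / p)| ≤ B₁ / (p : ℝ) ^ (3 / 2 : ℝ)) ∧
    (∀ p : ℕ, p.Prime → |Q282.CL.mn (fun p u => HH r p u ^ 2) p - 1 / p| ≤ B₁ / (p : ℝ) ^ (3 / 2 : ℝ)) := by
  classical
  obtain ⟨C₁, hC₁0, hC₁⟩ := Q282.BP.local_gen r 20 (by norm_num)
  obtain ⟨C₂, hC₂0, hC₂⟩ := Q282.CL.local_sq 20 (by norm_num)
  have hr2 : (r : ℝ) ≤ 2 := by exact_mod_cast hr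
  have hr0 : (0 : ℝ) ≤ r := Nat.cast_nonneg r
  have hval : ∀ (p : ℕ) [Fact p.Prime], p ≠ 2 → ∀ u, HH r p u = loc p (Q282.BP.fam r u) := by
    intro p hp hp2 u
    unfold HH
    rw [dif_pos hp.out, if_neg hp2]
  have hval2 : ∀ u, HH r 2 u = 0 := by
    intro u
    unfold HH
    rw [dif_pos Nat.prime_two, if_pos rfl]
  refine ⟨C₁ + C₂ + 12, by positivity, fun p hp => ?_, fun p hp => ?_⟩
  · have : Fact p.Prime := ⟨hp⟩
    have hp0 : (0 : ℝ) < p := by exact_mod_cast hp.pos
    by_cases hp2 : p = 2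
    · subst hp2
      rw [Q282.CL.mn_eq]
      have e1 : Q282.CL.av (HH r 2) = 0 := by
        have : HH r 2 = fun _ => (0 : ℝ) := funext hval2
        rw [this, Q282.CL.av_const]
      rw [e1]
      refine small_two (by positivity) ?_
      rw [abs_of_nonneg (by positivity)]
      push_cast
      linarith
    · obtain ⟨hp3, hS, hb, hm1, hm2⟩ := local_data r hr p hp2
      have h1 := hC₁ p hp3 (Fin (r + 3) → ZMod p) (fun t => Q282.BP.SS (Q282.BP.fam r t))
        (fun t => Q282.BP.dis (Q282.BP.fam r t) = 0) hS (by convert hb) hm1 hm2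
      rw [Q282.CL.mn_eq]
      unfold Q282.CL.av
      have e1 : ∑ u : Fin (r + 3) → ZMod p, HH r p u = ∑ u : Fin (r + 3) → ZMod p, if Q282.BP.dis (Q282.BP.fam r u) = 0 then 0 else
          Real.log (1 + (1 + Q282.BP.SS (Q282.BP.fam r u)) / p) := by
        refine sum_congr rfl fun u _ => ?_
        rw [hval p hp2]
        unfold loc
        split_ifs <;> rfl
      rw [e1, mul_one_div]
      have h9 : C₁ / (p : ℝ) ^ (3 / 2 : ℝ) ≤ (C₁ + C₂ + 12) / (p : ℝ) ^ (3 / 2 : ℝ) :=
        div_le_div_of_nonneg_right (by linarith) (by positivity)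
      refine le_trans (le_of_eq ?_) (h1.trans h9)
      congr 3
      refine sum_congr rfl fun u _ => ?_
      split_ifs <;> rfl
  · have : Fact p.Prime := ⟨hp⟩
    have hp0 : (0 : ℝ) < p := by exact_mod_cast hp.pos
    by_cases hp2 : p = 2
    · subst hp2
      rw [Q282.CL.mn_eq]
      have e1 : Q282.CL.av (fun u => HH r 2 u ^ 2) = 0 := by
        have : (fun u => HH r 2 u ^ 2) = fun _ => (0 : ℝ) := by
          funext u
          rw [hval2]
          norm_num
        rw [this, Q282.CL.av_const]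
      rw [e1]
      refine small_two (by positivity) ?_
      rw [abs_of_nonneg (by positivity)]
      norm_num
    · obtain ⟨hp3, hS, hb, hm1, hm2⟩ := local_data r hr p hp2
      have h1 := hC₂ p hp3 (Fin (r + 3) → ZMod p) (fun t => Q282.BP.SS (Q282.BP.fam r t))
        (fun t => Q282.BP.dis (Q282.BP.fam r t) = 0) hS (by convert hb) hm2
      rw [Q282.CL.mn_eq]
      unfold Q282.CL.av
      have e1 : ∑ u : Fin (r + 3) → ZMod p, HH r p u ^ 2 = ∑ u : Fin (r + 3) → ZMod p, (if Q282.BP.dis (Q282.BP.fam r u) = 0 then 0 else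
          Real.log (1 + (1 + Q282.BP.SS (Q282.BP.fam r u)) / p)) ^ 2 := by
        refine sum_congr rfl fun u _ => ?_
        rw [hval p hp2]
        unfold loc
        split_ifs <;> rfl
      rw [e1]
      have h9 : C₂ / (p : ℝ) ^ (3 / 2 : ℝ) ≤ (C₁ + C₂ + 12) / (p : ℝ) ^ (3 / 2 : ℝ) :=
        div_le_div_of_nonneg_right (by linarith) (by positivity)
      refine le_trans (le_of_eq ?_) (h1.trans h9)
      congr 3
      refine sum_congr rfl fun u _ => ?_
      split_ifs <;> rfl

lemma proportion_eq {k : ℕ} (N : Fin k → ℤ) (L : Fin k → ℕ) (P : (Fin k → ℤ) → Prop) [DecidablePred P] :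
    proportion N L P = (((box N L).filter P).card : ℝ) / ∏ i, (L i : ℝ) := by
  classical
  unfold proportion
  congr 2
  refine congrArg Finset.card ?_
  ext t
  simp only [mem_filter]

open Classical in
/-- Let `r = 0, 1, 2`, let `I` be a finite set of times `s` with `0 < s ≤ 1`, let `x_s`, `s ∈ I`, be real numbers, and `ε > 0`.
There is an `X₁` such that for all integers `X ≥ X₁` and for every box `N i ≤ t i < N i + L i` with sides `L i ≥ X ^ 5` the
proportion of the `t` of the box for which `E_t : y ^ 2 = x ^ 3 + b x ^ 2 + c x + d`, `(b, c, d) = family r t`, is an elliptic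
curve of rank at least `r` over the rational numbers, such that
`(log P(exp ((log X) ^ s)) - (r + 1 / 2) s log log X) / sqrt (log log X) ≤ x_s` for all `s ∈ I`, differs by at most `ε` from the
probability that the Brownian motion `B` satisfies `B_s ≤ x_s` for all `s ∈ I`. -/
theorem result (r : ℕ) (hr : r ≤ 2) (I : Finset ℝ≥0) (hI : ∀ s ∈ I, 0 < s ∧ s ≤ 1) (x : I → ℝ) (ε : ℝ) (hε : 0 < ε) :
    ∃ X₁ : ℕ, ∀ X : ℕ, X₁ ≤ X → ∀ (N : Fin (r + 3) → ℤ) (L : Fin (r + 3) → ℕ), (∀ i, X ^ 5 ≤ L i) →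
      |proportion N L (fun t => Rank r t ∧ ∀ s : I, deviation r t X (s : ℝ≥0) ≤ x s) - brownian I x| ≤ ε := by
  obtain ⟨B₁, hB₁0, hm, hs⟩ := means r hr
  obtain ⟨M₁, hM₁⟩ := Pool.Agent.Erdos456.Mert.mertens_inv
  obtain ⟨M₀, hM₀⟩ := Q282.CL.sums_close (fun _ => 1) M₁ 1 (r + 1 / 2) B₁ zero_le_one hB₁0 (fun _ => by rw [abs_one]) hM₁
  obtain ⟨h2, h3⟩ := hM₀ (Fin (r + 3)) (HH r) hm hs
  obtain ⟨M, hM⟩ : ∃ M : ℝ, M = max M₀ 0 := ⟨_, rfl⟩
  obtain ⟨X₁, h⟩ := Q282.CL.brown (κ := Fin (r + 3)) (B := 6) (κ₀ := r + 1 / 2) (M := M) (by norm_num) I hI x (ε / 2) (by positivity)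
  obtain ⟨K, hK, hrank⟩ := Q282.BP.rank_box r hr 1 zero_lt_one
  obtain ⟨X₂, hX₂⟩ := Filter.eventually_atTop.1 (Q282.BP.loglog_tendsto.eventually_ge_atTop (2 * K / ε + 1))
  refine ⟨max 16 (max X₁ X₂), fun X hX N L hL => ?_⟩
  have hX16 : 16 ≤ X := (le_max_left _ _).trans hX
  have hX1 : X₁ ≤ X := (le_max_left _ _).trans ((le_max_right _ _).trans hX)
  have hll := hX₂ X ((le_max_right _ _).trans ((le_max_right _ _).trans hX))
  have hL' : ∀ i, (X : ℝ) ^ 5 ≤ L i := fun i => by exact_mod_cast hL i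
  have hX0 : (16 : ℝ) ≤ X := by exact_mod_cast hX16
  have hL0 : ∀ i, (0 : ℝ) < L i := fun i => lt_of_lt_of_le (by positivity) (hL' i)
  have hP0 : 0 < ∏ i, (L i : ℝ) := prod_pos fun i _ => hL0 i
  have hsum : ∀ (Y : ℕ) (t : Fin (r + 3) → ℤ), Real.log (product (family r t) Y) = ∑ p ∈ Q282.BP.PP Y, HH r p (fun i => (t i : ZMod p)) := by
    intro Y t
    rw [log_product]
    exact sum_congr rfl fun p hp => HH_eq r t p (mem_filter.1 hp).2
  have h1 := h
    { X := X
      N := N
      L := L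
      H := HH r
      F := fun Y t => Real.log (product (family r t) Y)
      hX := hX16
      hL := hL'
      hH := fun p hp u => HH_le r p hp u
      h2 := fun Y hY => (h2 Y hY).trans (by rw [hM]; exact le_max_left _ _)
      h3 := fun Y hY => (h3 Y hY).trans (by rw [hM]; exact le_max_left _ _)
      hF := fun Y _ _ => by
        have : Nonempty (Q282.GK.kbox N L) := Q282.CL.kbox_nonempty fun i => by exact_mod_cast hL0 i
        have e1 : (fun t : Q282.GK.kbox N L => |Real.log (product (family r t) Y) - ∑ p ∈ Q282.BP.PP Y, HH r p (fun i => ((t : Fin (r + 3) → ℤ) i : ZMod p))|) =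
            fun _ => (0 : ℝ) := by
          funext t
          rw [hsum, sub_self, abs_zero]
        rw [e1, Q282.CL.av_const, hM]
        exact le_max_right _ _ } hX1
  have h1' : |proportion N L (fun t => ∀ s : I, deviation r t X (s : ℝ≥0) ≤ x s) - brownian I x| ≤ ε / 2 := by
    rw [proportion_eq]
    exact h1
  -- the exceptions
  have h4 := hrank ((X : ℝ) ^ 5) X hX16 (by
    calc (X : ℝ) = (X : ℝ) ^ 1 := (pow_one _).symm
      _ ≤ (X : ℝ) ^ 5 := pow_le_pow_right₀ (by linarith) (by norm_num)) N L hL' ((box N L).filter fun t => ¬ Rank r t) (filter_subset _ _)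
    (fun t ht hOk => (mem_filter.1 ht).2 (by
      unfold Q282.BP.Ok at hOk
      rw [← family_eq] at hOk
      exact hOk))
  have h5 : (((box N L).filter fun t => ¬ Rank r t).card : ℝ) / ∏ i, (L i : ℝ) ≤ ε / 2 := by
    rw [div_le_iff₀ hP0]
    refine h4.trans ?_
    have hpos : 0 < Real.log (Real.log X) := by
      have : 0 ≤ 2 * K / ε := by positivity
      linarith
    rw [Real.rpow_neg_one, mul_comm K, mul_assoc, mul_comm (∏ i, (L i : ℝ))]
    refine mul_le_mul_of_nonneg_right ?_ hP0.le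
    rw [← div_eq_mul_inv, div_le_iff₀ hpos]
    have h6 : 2 * K / ε ≤ Real.log (Real.log X) := by linarith
    rw [div_le_iff₀ hε] at h6
    linarith
  obtain ⟨A, hA⟩ : ∃ A : Finset (Fin (r + 3) → ℤ), A = (box N L).filter (fun t => ∀ s : I, deviation r t X (s : ℝ≥0) ≤ x s) := ⟨_, rfl⟩
  obtain ⟨A', hA'⟩ : ∃ A' : Finset (Fin (r + 3) → ℤ), A' = (box N L).filter (fun t => Rank r t ∧ ∀ s : I, deviation r t X (s : ℝ≥0) ≤ x s) := ⟨_, rfl⟩
  have h6 : (A'.card : ℝ) ≤ A.card := by
    have : A' ⊆ A := by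
      rw [hA, hA']
      intro t ht
      rw [mem_filter] at ht ⊢
      exact ⟨ht.1, ht.2.2⟩
    exact_mod_cast card_le_card this
  have h7 : (A.card : ℝ) ≤ A'.card + ((box N L).filter fun t => ¬ Rank r t).card := by
    have : A ⊆ A' ∪ (box N L).filter fun t => ¬ Rank r t := by
      rw [hA, hA']
      intro t ht
      rw [mem_filter] at ht
      rw [mem_union, mem_filter, mem_filter]
      by_cases hR : Rank r t
      · exact Or.inl ⟨ht.1, hR, ht.2⟩
      · exact Or.inr ⟨ht.1, hR⟩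
    exact_mod_cast (card_le_card this).trans (card_union_le _ _)
  have e1 : proportion N L (fun t => ∀ s : I, deviation r t X (s : ℝ≥0) ≤ x s) = (A.card : ℝ) / ∏ i, (L i : ℝ) := by
    rw [hA, proportion_eq]
  have e2 : proportion N L (fun t => Rank r t ∧ ∀ s : I, deviation r t X (s : ℝ≥0) ≤ x s) = (A'.card : ℝ) / ∏ i, (L i : ℝ) := by
    rw [hA', proportion_eq]
  rw [e1] at h1'
  rw [e2]
  have h8 : (A'.card : ℝ) / ∏ i, (L i : ℝ) ≤ (A.card : ℝ) / ∏ i, (L i : ℝ) := div_le_div_of_nonneg_right h6 hP0.le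
  have h9 : (A.card : ℝ) / ∏ i, (L i : ℝ) ≤ (A'.card : ℝ) / ∏ i, (L i : ℝ) + ε / 2 := by
    have := div_le_div_of_nonneg_right h7 hP0.le
    rw [add_div] at this
    linarith
  have h10 := abs_le.1 h1'
  rw [abs_le]
  constructor <;> linarith

end Pool.Agent.Results.MP_92892c_nt.BrownianMotionLaw
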