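import Pool.Agent.Q155.KG.Crv
import Pool.Agent.Q283.GM.BQ
import Pool.Agent.Q283.GM.Eul

/-!
# The 2-part of the leading-term formula for the twists of `X_0(49)` by the divisors of `D p_1 ⋯ p_k`

`E_D` is the quadratic twist by `D` of `X_0(49) : y² + x y = x³ - x² - 2 x - 1`, where `D` is a squarefree
positive integer whose prime factors are `1` modulo `4` (the class). A `D` of the class is called odd if
`E_D(ℚ)` is finite, the 2-primary part of `Ш(E_D/ℚ)` is zero, `L(E_D, 1) ≠ 0` and the quotient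
`#E_D(ℚ)_tors² L(E_D, 1) / (Ω⁺ ∏ c_p)` (an algebraic number, equal to the order of `Ш(E_D/ℚ)` according to
the formula) is a unit at all the primes above two: the 2-part of the leading-term formula holds.

* (almost all tuples) For every finite set `𝒟` of members of the class, with no condition on the ranks of
  the curves `E_D`, on their Tate-Shafarevich groups or on their L-functions, and every `ε > 0` there is a
  constant `C` such that for all `k` and all large `X` the following holds for at least the proportion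
  `1 - C (15/16)^k` of the `k`-tuples `(p_1, …, p_k)` of primes `≤ X` which are `1` modulo `4`: the primes
  `p_i` are different and prime to the `D ∈ 𝒟`, and for each `D ∈ 𝒟` the share of the odd members among the
  `2^k` numbers `D d`, `d ∣ p_1 ⋯ p_k`, differs by less than `ε` from
  `κ = (1 - 1/2) (1 - 1/8) (1 - 1/32) ⋯ = 0.4194…`. Moreover the coranks of the matrices of the
  `D d` (symmetric matrices over `𝔽₂` of quadratic residue symbols, with quartic symbols of `-7` on the
  diagonal) have up to `ε` the law `α_b = κ / ((2 - 1) (4 - 1) ⋯ (2^b - 1))` over these `2^k` divisors.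
* (one sequence for all the curves) There is a sequence `p_1 < p_2 < ⋯` of primes such that, for EVERY `D`
  of the class which is prime to all the `p_i`, the shares over the divisors of `p_1 ⋯ p_k` differ from
  `κ` and from all the `α_b` by less than `(31/32)^k` for all large `k`.
* (the formula modulo two) For all `D` of the class the quotient is integral at all the primes above two,
  and it is a unit at these primes if and only if `D` is odd, if and only if the corank is zero.

So the 2-part of the formula has, inside the family of the twists of ANY curve `E_D` (of any rank) by the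
divisors of one random product of primes, the frequency `κ`: not only in the mean over all the
discriminants, as in `FormulaModTwo`, but with a variance which is exponentially small in the number of
the primes. The proof: the kernel of the matrix of `D d p` is obtained from that of `D d` by one step of a
Markov chain when the symbols of `p` are random; so the correlation of the events for `d` and `d'` is
exponentially small in the number of the primes of `d / (d, d')`; equidistribution of the symbols in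
boxes; and, for the sequence, the method of conditional expectations with all the `D` at once.
-/

set_option autoImplicit false

open NumberField IsDedekindDomain WeierstrassCurve MeasureTheory

namespace Pool.Agent.Results.MP_92892c_nt.DivisorLawTwoPart

open Pool.Agent.TH841.SH.D (Pt Sha)

/-- For `D ≡ 1 mod 4` the quadratic twist by `D` of the elliptic curve
`X_0(49) : y² + x y = x³ - x² - 2 x - 1`:
the curve `y² + x y = x³ - (3 D + 1) / 4 x² - 2 D² x - D³`. -/
def twist (D : ℕ) : WeierstrassCurve ℤ := ⟨1, -((3 * D + 1) / 4), 0, -2 * D ^ 2, -D ^ 3⟩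

/-- The curve `E_D` over `ℚ`. -/
def E (D : ℕ) : WeierstrassCurve ℚ := (twist D).map (Int.castRingHom ℚ)

/-- The equation is minimal at the finite place `v` of `ℚ`: no change of variables over `ℚ` that
keeps the coefficients integral at `v` decreases the order of the discriminant. -/
def MinimalAt (W : WeierstrassCurve ℚ) (v : HeightOneSpectrum (𝓞 ℚ)) : Prop :=
  ∀ C : VariableChange ℚ, v.valuation ℚ (C • W).a₁ ≤ 1 → v.valuation ℚ (C • W).a₂ ≤ 1 →
    v.valuation ℚ (C • W).a₃ ≤ 1 → v.valuation ℚ (C • W).a₄ ≤ 1 → v.valuation ℚ (C • W).a₆ ≤ 1 →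
    v.valuation ℚ (C • W).Δ ≤ v.valuation ℚ W.Δ

/-- `W⁰(ℚ_v)`, the group of the points of `W` over the completion `ℚ_v` with nonsingular reduction:
the point at infinity and the points `(x, y)` where `x` is not integral, or one of the two
derivatives of `y² + a₁ x y + a₃ y - x³ - a₂ x² - a₄ x - a₆` is a unit at `(x, y)`.
Here `Pt W ℚ_v` is the group of the points of `W` over `ℚ_v`. -/
noncomputable def nonsing (W : WeierstrassCurve ℚ) (v : HeightOneSpectrum (𝓞 ℚ)) :
    AddSubgroup (Pt W (v.adicCompletion ℚ)) :=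
  AddSubgroup.closure {P | ∀ x y h, P = Affine.Point.some x y h →
    1 < Valued.v x ∨
    Valued.v ((W.baseChange (v.adicCompletion ℚ)).a₁ * y -
      (3 * x ^ 2 + 2 * (W.baseChange (v.adicCompletion ℚ)).a₂ * x +
        (W.baseChange (v.adicCompletion ℚ)).a₄)) = 1 ∨
    Valued.v (2 * y + (W.baseChange (v.adicCompletion ℚ)).a₁ * x +
      (W.baseChange (v.adicCompletion ℚ)).a₃) = 1}

/-- The Tamagawa number `c_v = [W(ℚ_v) : W⁰(ℚ_v)]` of a minimal equation. -/
noncomputable def c (W : WeierstrassCurve ℚ) (v : HeightOneSpectrum (𝓞 ℚ)) : ℕ :=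
  (nonsing W v).index

/-- The product of the Tamagawa numbers. -/
noncomputable def Tam (W : WeierstrassCurve ℚ) : ℕ := ∏ᶠ v : HeightOneSpectrum (𝓞 ℚ), c W v

/-- `4 x³ + b₂ x² + 2 b₄ x + b₆ = (2 y + a₁ x + a₃)²`. -/
def cubic (W : WeierstrassCurve ℤ) {R : Type} [CommRing R] (x : R) : R :=
  4 * x ^ 3 + W.b₂ * x ^ 2 + 2 * W.b₄ * x + W.b₆

/-- `∫_{W(ℝ)} |ω|` with `ω = dx / (2 y + a₁ x + a₃)`, as an integral over `x`: two real points lie
over each `x` with `cubic x > 0`. -/
noncomputable def realPeriod (W : WeierstrassCurve ℤ) : ℝ :=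
  2 * ∫ x in {x : ℝ | 0 < cubic W x}, 1 / √(cubic W x)

open Classical in
/-- The order of the torsion subgroup of `E_D(ℚ)`. -/
noncomputable def torsOrder (D : ℕ) : ℕ :=
  Nat.card (AddCommGroup.torsion (E D).toAffine.Point)

/-- The order of the Tate-Shafarevich group predicted by the formula in rank zero, for the value `l` of
the L-function at `s = 1`: `#E_D(ℚ)_tors² l / (Ω⁺ ∏ c_p)`. -/
noncomputable def anOrder (D : ℕ) (l : ℂ) : ℂ :=
  l * (torsOrder D : ℂ) ^ 2 / ((realPeriod (twist D) : ℝ) * (Tam (E D) : ℂ))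

/-- An algebraic number which is integral at all the primes above two. -/
def IntegralAtTwo (z : ℂ) : Prop := ∃ m : ℤ, Odd m ∧ _root_.IsIntegral ℤ ((m : ℂ) * z)

/-- `E_D(ℚ)` is finite and `Ш(E_D/ℚ)` has no element of order two. -/
def Good (D : ℕ) : Prop := Finite (E D).toAffine.Point ∧ ∀ x : Sha (E D), x + x = 0 → x = 0

/-- The 2-primary part of `Ш(E_D/ℚ)` is zero. -/
def ShaTwoPrimaryZero (D : ℕ) : Prop := ∀ (x : Sha (E D)) (n : ℕ), 2 ^ n • x = 0 → x = 0

open Classical in
/-- `1` if `m` is not a square modulo `p`, and `0` if it is -/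
noncomputable def nonsq (p m : ℕ) : ZMod 2 := if IsSquare (m : ZMod p) then 0 else 1

open Classical in
/-- `1` if `-7` is not a fourth power modulo `p`, and `0` if it is -/
noncomputable def nonfourth (p : ℕ) : ZMod 2 := if ∃ y : ZMod p, y ^ 4 = -7 then 0 else 1

/-- The matrix over the field with two elements, with rows and columns indexed by `P`: the entry at
`(i, j)` is `nonsq i j` for `i ≠ j`, and the entry at `(i, i)` is the sum of `nonfourth i` and of the
`nonsq i l` for all the `l ≠ i` in `Q` and `P`. -/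
noncomputable def mat (Q P : Finset ℕ) : Matrix P P (ZMod 2) := Matrix.of fun i j =>
  if i = j then nonfourth i + ∑ q ∈ Q, nonsq i q + ∑ p ∈ P.erase i, nonsq i p else nonsq i j

/-- The class of the `D`: squarefree, all prime factors `1` modulo `4`. -/
def Class (D : ℕ) : Prop := Squarefree D ∧ ∀ p : ℕ, p.Prime → p ∣ D → p % 4 = 1

open Classical in
/-- The prime factors of `D` which split in `ℚ(√-7)`. -/
noncomputable def splitPart (D : ℕ) : Finset ℕ := D.primeFactors.filter fun p => IsSquare (-7 : ZMod p)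

open Classical in
/-- The prime factors of `D` which do not split in `ℚ(√-7)`. -/
noncomputable def inertPart (D : ℕ) : Finset ℕ := D.primeFactors.filter fun p => ¬ IsSquare (-7 : ZMod p)

/-- The corank of the matrix of `D`: the number of the columns minus the rank. -/
noncomputable def corank (D : ℕ) : ℕ :=
  (splitPart D).card - (mat (inertPart D) (splitPart D)).rank

/-- The number `κ = (1 - 1/2) (1 - 1/8) (1 - 1/32) ⋯`. -/
noncomputable def κ : ℝ := ∏' i : ℕ, (1 - (1 / 2 : ℝ) ^ (2 * i + 1))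

/-- The limit law `κ / ((2 - 1) (4 - 1) ⋯ (2 ^ b - 1))`. -/
noncomputable def α (b : ℕ) : ℝ := κ / ∏ i ∈ Finset.range b, ((2 : ℝ) ^ (i + 1) - 1)

/-- The formula modulo the primes above two, for all the `D` of the class. -/
def Formula : Prop :=
  ∀ D : ℕ, Class D →
    (∀ v : HeightOneSpectrum (𝓞 ℚ), MinimalAt (E D) v) ∧
    (∃ t : ℕ, Odd t ∧ torsOrder D = 2 * t) ∧
    Tam (E D) = 2 ^ (1 + ((inertPart D).card + 2 * (splitPart D).card)) ∧
    (∃ Λ : ℂ → ℂ, Differentiable ℂ Λ ∧ (∀ s : ℂ, 2 < s.re → Λ s = (E D).LSeries s) ∧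
      IntegralAtTwo (anOrder D (Λ 1)) ∧
      ((Λ 1 ≠ 0 ∧ IntegralAtTwo (anOrder D (Λ 1))⁻¹) ↔ Good D)) ∧
    (Good D ↔ corank D = 0) ∧ (Good D → ShaTwoPrimaryZero D)

/-- `D` is odd: `E_D(ℚ)` is finite, the 2-primary part of `Ш(E_D/ℚ)` is zero, `L(E_D, s)` is entire with
`L(E_D, 1) ≠ 0`, and the order of `Ш` which is predicted by the formula is an algebraic number which is a
unit at all the primes above two. -/
def OddFormula (D : ℕ) : Prop :=
  Finite (E D).toAffine.Point ∧ ShaTwoPrimaryZero D ∧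
    ∃ Λ : ℂ → ℂ, Differentiable ℂ Λ ∧ (∀ s : ℂ, 2 < s.re → Λ s = (E D).LSeries s) ∧ Λ 1 ≠ 0 ∧
      IntegralAtTwo (anOrder D (Λ 1)) ∧ IntegralAtTwo (anOrder D (Λ 1))⁻¹

open Classical in
/-- The `k`-tuples of primes `≤ X` which are `1` modulo `4`. -/
noncomputable def tuples (k X : ℕ) : Finset (Fin k → ℕ) :=
  Fintype.piFinset fun _ => (Finset.range (X + 1)).filter fun p => p.Prime ∧ p % 4 = 1

/-- The share of the numbers `D ∏_{i ∈ U} p_i`, `U ⊆ {1, …, k}`, which have the property `T`. -/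
noncomputable def share {k : ℕ} (p : Fin k → ℕ) (D : ℕ) (T : ℕ → Prop) : ℝ :=
  (Nat.card {U : Finset (Fin k) // T (D * ∏ i ∈ U, p i)} : ℝ) / 2 ^ k

/-- The `p_i` are prime to `D`, and the shares of the numbers `D ∏_{i ∈ U} p_i` which are odd, and which
have the corank `b`, differ by less than `ε` from `κ` and from `α_b`, for all `b`. -/
def Typical {k : ℕ} (p : Fin k → ℕ) (D : ℕ) (ε : ℝ) : Prop :=
  (∀ i, ¬ p i ∣ D) ∧ |share p D OddFormula - κ| < ε ∧
    ∀ b : ℕ, |share p D (fun m => corank m = b) - α b| < ε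

section proof

open Pool.Agent.Y698

lemma base_eq {D j : ℕ} (hj : D = 1 + 4 * j) : E D = AX ℚ j :=
  twZ_map hj ℚ

lemma cubic_eq {D j : ℕ} (hj : D = 1 + 4 * j) {R : Type} [CommRing R] (x : R) :
    cubic (twist D) x = psD (1 + 4 * j) x := by
  have h1 : (3 * (D : ℤ) + 1) / 4 = 1 + 3 * j := by
    rw [hj]
    push_cast
    omega
  unfold cubic twist WeierstrassCurve.b₂ WeierstrassCurve.b₄ WeierstrassCurve.b₆ psD
  simp only
  rw [h1, hj]
  push_cast
  ring

lemma real_eq {D j : ℕ} (hj : D = 1 + 4 * j) : realPeriod (twist D) =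
    ∫ x in {x : ℝ | 0 < psD (1 + 4 * j) x}, 2 / Real.sqrt (psD (1 + 4 * j) x) := by
  unfold realPeriod
  simp only [cubic_eq hj]
  rw [← integral_const_mul]
  congr 1
  funext x
  ring

lemma tors_eq {D j : ℕ} (hj : D = 1 + 4 * j) :
    torsOrder D = Pool.Agent.Y698.SG.tnum (Pool.Agent.Y698.AX ℚ j) := by
  have key : ∀ i : DecidableEq ℚ, Nat.card (@AddCommGroup.torsion _
      (@WeierstrassCurve.Affine.Point.instAddCommGroup ℚ _ (Pool.Agent.Y698.AX ℚ j).toAffine i)) =
      Pool.Agent.Y698.SG.tnum (Pool.Agent.Y698.AX ℚ j) := by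
    intro i
    cases Subsingleton.elim i (fun a b => Classical.propDecidable (a = b))
    rfl
  unfold torsOrder
  rw [base_eq hj]
  exact key _

lemma an_eq {D j : ℕ} (hj : D = 1 + 4 * j) (l : ℂ) : anOrder D l = Pool.Agent.Y698.SG.quoT ℚ j l := by
  rw [Q283.GB.quoT_Q]
  unfold anOrder
  rw [tors_eq hj, base_eq hj, real_eq hj]
  have hT : Tam (Pool.Agent.Y698.AX ℚ j) = ∏ᶠ v, Pool.Agent.Y698.tam (Pool.Agent.Y698.AX ℚ j) v := rfl
  rw [hT]

lemma v_integral {Γ : Type} [LinearOrderedCommGroupWithZero Γ] (v : Valuation ℂ Γ) {x : ℂ}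
    (h : _root_.IsIntegral ℤ x) : v x ≤ 1 := by
  have h1 : _root_.IsIntegral v.integer x := h.tower_top
  exact (Valuation.integer.integers v).mem_of_integral h1

lemma v_atTwo {z : ℂ} (h : IntegralAtTwo z) {Γ : Type} [LinearOrderedCommGroupWithZero Γ]
    (v : Valuation ℂ Γ) (hv : v 2 < 1) : v z ≤ 1 := by
  obtain ⟨m, hm, hi⟩ := h
  have h1 := v_integral v hi
  rw [map_mul, v_oddI v hv hm, one_mul] at h1
  exact h1

open Q283.GW Q283.GB
open Q283.XF (nf)
open Q283.GM (rk cR)
open scoped Classical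

lemma class_iff (D : ℕ) : Class D ↔ C4 D := by
  unfold Class C4 CF
  constructor
  · rintro ⟨h1, h2⟩
    exact ⟨h1, fun p hp => ⟨Nat.prime_of_mem_primeFactors hp,
      h2 p (Nat.prime_of_mem_primeFactors hp) (Nat.dvd_of_mem_primeFactors hp)⟩⟩
  · rintro ⟨h1, h2⟩
    exact ⟨h1, fun p hp hd => (h2 p (Nat.mem_primeFactors.2 ⟨hp, hd, h1.ne_zero⟩)).2⟩

lemma A_sq {p : ℕ} (h1 : p.Prime) (h2 : p % 4 = 1) : ρ49.Φ.A p ↔ IsSquare (-7 : ZMod p) := by
  constructor
  · intro h
    exact (spl_A h).sq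
  · intro h
    by_contra h3
    exact (inq_B h1 h2 h3).ns h

lemma split_eq {D : ℕ} (h : CF D.primeFactors) : splitPart D = PA D.primeFactors := by
  unfold splitPart PA
  refine Finset.filter_congr fun p hp => ?_
  rw [A_sq (h p hp).1 (h p hp).2]

lemma inert_eq {D : ℕ} (h : CF D.primeFactors) : inertPart D = QA D.primeFactors := by
  unfold inertPart QA
  refine Finset.filter_congr fun p hp => ?_
  rw [A_sq (h p hp).1 (h p hp).2]

lemma rank_null (Q P : Finset ℕ) : P.card - (Y698.SG.mat Q P).rank =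
    Module.finrank (ZMod 2) (LinearMap.ker (Y698.SG.mat Q P).mulVecLin) := by
  have h1 := LinearMap.finrank_range_add_finrank_ker (Y698.SG.mat Q P).mulVecLin
  rw [Module.finrank_fintype_fun_eq_card, Fintype.card_coe] at h1
  have h2 : (Y698.SG.mat Q P).rank =
    Module.finrank (ZMod 2) (LinearMap.range (Y698.SG.mat Q P).mulVecLin) := rfl
  omega

lemma corank_eq {D : ℕ} (h : CF D.primeFactors) : corank D = rk ρ49.Φ nf D.primeFactors := by
  have key : ∀ Q P Q' P' : Finset ℕ, Q = Q' → P = P' →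
      P.card - (mat Q P).rank = P'.card - (Y698.SG.mat Q' P').rank := by
    rintro Q P _ _ rfl rfl
    rfl
  rw [Q283.GW.rk_eq, ← rank_null]
  exact key _ _ _ _ (inert_eq h) (split_eq h)

lemma det_eq {D : ℕ} (h : CF D.primeFactors) :
    (mat (inertPart D) (splitPart D)).det ≠ 0 ↔ corank D = 0 := by
  rw [corank_eq h, split_eq h, inert_eq h]
  exact det_rk _

lemma prod_parts {D : ℕ} (hD : Squarefree D) :
    D = (∏ q ∈ inertPart D, q) * ∏ p ∈ splitPart D, p := by
  conv_lhs => rw [← Nat.prod_primeFactors_of_squarefree hD]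
  unfold inertPart splitPart
  rw [mul_comm]
  exact (Finset.prod_filter_mul_prod_filter_not _ _ _).symm

lemma good_iff {D : ℕ} (hD : C4 D) : Good D ↔ corank D = 0 := by
  obtain ⟨j, hj⟩ := hD.2.prod
  have hDj : D = 1 + 4 * j := by
    rw [← hj, union_A, Nat.prod_primeFactors_of_squarefree hD.1]
  unfold Good
  rw [base_eq hDj, crit_AX (QA_inq hD.2) (PA_spl _) hj, det_rk, corank_eq hD.2]

lemma formula {D : ℕ} (hD : C4 D) :
    (∀ v : HeightOneSpectrum (𝓞 ℚ), MinimalAt (E D) v) ∧
    (∃ t : ℕ, Odd t ∧ torsOrder D = 2 * t) ∧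
    Tam (E D) = 2 ^ (1 + ((inertPart D).card + 2 * (splitPart D).card)) ∧
    (∃ Λ : ℂ → ℂ, Differentiable ℂ Λ ∧ (∀ s : ℂ, 2 < s.re → Λ s = (E D).LSeries s) ∧
      IntegralAtTwo (anOrder D (Λ 1)) ∧
      ((Λ 1 ≠ 0 ∧ IntegralAtTwo (anOrder D (Λ 1))⁻¹) ↔ Good D)) := by
  obtain ⟨j, hj⟩ := hD.2.prod
  have hDj : D = 1 + 4 * j := by
    rw [← hj, union_A, Nat.prod_primeFactors_of_squarefree hD.1]
  have hQ := QA_inq hD.2
  have hP := PA_spl D.primeFactors
  obtain ⟨t1, t2, t3⟩ := tam_Q hQ hP hj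
  obtain ⟨Λ, h1, h2, h3⟩ := main_Q hQ hP hj
  have hst := tors_eq hDj
  rw [good_iff hD, hst, split_eq hD.2, inert_eq hD.2]
  simp only [an_eq hDj]
  rw [base_eq hDj]
  refine ⟨t2, t3, t1, Λ, h1, h2, Pool.Agent.Y698.int_of_val fun Γ _ v hv => (h3 Γ v hv).1, ?_⟩
  rw [corank_eq hD.2, ← det_rk]
  constructor
  · rintro ⟨h4, h5⟩
    intro hdet
    refine Pool.Agent.Y698.SG.exists_val2 fun Γ _ v hv => ?_
    refine ((h3 Γ v hv).2).1 (le_antisymm (h3 Γ v hv).1 ?_) hdet
    have h6 := v_atTwo h5 v hv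
    rw [map_inv₀] at h6
    by_cases h0 : v (Pool.Agent.Y698.SG.quoT ℚ j (Λ 1)) = 0
    · exfalso
      rw [Valuation.zero_iff] at h0
      rw [Q283.GB.quoT_Q] at h0
      rcases div_eq_zero_iff.1 h0 with h7 | h7
      · rcases mul_eq_zero.1 h7 with h8 | h8
        · exact h4 h8
        · obtain ⟨m, hm, hm2⟩ := t3
          rw [hm2] at h8
          have h9 : ((2 * m : ℕ) : ℂ) = 0 := pow_eq_zero_iff (two_ne_zero) |>.1 h8
          have h10 : 2 * m = 0 := by exact_mod_cast h9
          have h11 : m = 0 := by omega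
          rw [h11] at hm
          exact absurd hm (by decide)
      · have hL := Pool.Agent.Y698.exists_LD
        obtain ⟨L, Ω, hL⟩ := hL
        have hΩ : v Ω ≠ 0 := (v.ne_zero_iff).2 hL.lat.ne
        rcases mul_eq_zero.1 h7 with h8 | h8
        · obtain ⟨k2, -⟩ := Pool.Agent.Y698.v_periodsD hL v hv (D := 1 + 4 * j) (by omega)
            ⟨2 * j, by ring⟩
          rw [h8, map_zero] at k2
          exact hΩ k2.symm
        · rw [t1] at h8
          have h9 : (2 : ℂ) ^ (1 + ((QA D.primeFactors).card + 2 * (PA D.primeFactors).card)) = 0 := by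
            exact_mod_cast h8
          exact pow_ne_zero _ two_ne_zero h9
    · exact (inv_le_one₀ (zero_lt_iff.2 h0)).1 h6
  · intro hdet
    refine ⟨?_, Pool.Agent.Y698.int_of_val fun Γ _ v hv => by
      rw [map_inv₀, ((h3 Γ v hv).2).2 hdet, inv_one]⟩
    intro h0
    refine Pool.Agent.Y698.SG.exists_val2 fun Γ _ v hv => ?_
    have h5 := ((h3 Γ v hv).2).2 hdet
    rw [h0] at h5
    unfold Pool.Agent.Y698.SG.quoT at h5
    rw [zero_mul, zero_mul, zero_div, map_zero] at h5
    exact zero_ne_one h5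

lemma α_eq (b : ℕ) : α b = Y703.CQ.c2 * Y697.PQ.cf b := by
  unfold α
  have h : ∀ r, Y697.PQ.cf r = (∏ i ∈ Finset.range r, ((2 : ℝ) ^ (i + 1) - 1))⁻¹ := by
    intro r
    induction r with
    | zero => simp [Y697.PQ.cf]
    | succ r ih =>
      rw [show Y697.PQ.cf (r + 1) = Y697.PQ.cf r / (2 ^ (r + 1) - 1) from rfl, ih,
        Finset.prod_range_succ, mul_inv, div_eq_mul_inv]
  rw [h, div_eq_mul_inv]
  rfl

lemma odd_iff {D : ℕ} (hD : C4 D) : OddFormula D ↔ corank D = 0 := by
  rw [← good_iff hD]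
  constructor
  · rintro ⟨h1, h2, -⟩
    exact ⟨h1, fun x hx => h2 x 1 (by rw [pow_one, two_nsmul]; exact hx)⟩
  · intro hG
    obtain ⟨-, -, -, Λ, h1, h2, h3, h4⟩ := formula hD
    obtain ⟨h5, h6⟩ := h4.2 hG
    refine ⟨hG.1, ?_, Λ, h1, h2, h5, h3, h6⟩
    intro x n
    induction n with
    | zero => intro h; rwa [pow_zero, one_smul] at h
    | succ n ih =>
      intro h
      apply ih
      apply hG.2
      rw [← two_nsmul, smul_smul, ← pow_succ']
      exact h

lemma corank_kn {D : ℕ} (hD : C4 D) (b : ℕ) : corank D = b ↔ _root_.Q155.KG.kn D = 2 ^ b := by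
  rw [corank_eq hD.2, _root_.Q155.KG.kn_rk hD]
  exact ⟨fun h => by rw [h], fun h => Nat.pow_right_injective le_rfl h⟩

lemma α_al (b : ℕ) : α b = _root_.Q155.KG.al b := rfl

lemma typical_of {k : ℕ} {p : Fin k → ℕ} {D : ℕ} {ε : ℝ} (hD : C4 D)
    (hp : ∀ i, _root_.Q155.KG.P1 (p i)) (hinj : Function.Injective p) (hpD : ∀ i, ¬ p i ∣ D)
    (h : _root_.Q155.KG.Nr (fun U : Finset (Fin k) => _root_.Q155.KG.kn (D * ∏ i ∈ U, p i)) ε) :
    Typical p D ε := by
  have hpf : ∀ i, p i ∉ D.primeFactors := fun i hi => hpD i (Nat.dvd_of_mem_primeFactors hi)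
  have hC : ∀ U : Finset (Fin k), C4 (D * ∏ i ∈ U, p i) := fun U =>
    _root_.Q155.KG.ad_mul hD hp hinj hpf U
  have hs : ∀ b : ℕ, share p D (fun m => corank m = b) =
      _root_.Q155.KG.shr (fun U : Finset (Fin k) => _root_.Q155.KG.kn (D * ∏ i ∈ U, p i)) b := by
    intro b
    unfold share _root_.Q155.KG.shr
    congr 2
    exact Nat.card_congr (Equiv.subtypeEquivRight fun U => corank_kn (hC U) b)
  have hs0 : share p D OddFormula = share p D (fun m => corank m = 0) := by
    unfold share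
    congr 2
    exact Nat.card_congr (Equiv.subtypeEquivRight fun U => odd_iff (hC U))
  have hb : ∀ b : ℕ, |share p D (fun m => corank m = b) - α b| < ε := fun b => by
    rw [hs, α_al]
    exact h.1 b
  refine ⟨hpD, ?_, hb⟩
  rw [hs0]
  have h0 := hb 0
  have e : α 0 = κ := by
    unfold α
    rw [Finset.range_zero, Finset.prod_empty, div_one]
  rwa [e] at h0

lemma tuples_eq (k X : ℕ) : tuples k X = _root_.Q155.KG.tupP k X := by
  unfold tuples _root_.Q155.KG.tupP
  congr 1
  funext i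
  ext p
  rw [_root_.Q155.KG.mem_ps, Finset.mem_filter, Finset.mem_range, Nat.lt_succ_iff]
  exact Iff.rfl

end proof

open Classical in
/-- **The 2-part of the leading-term formula over the divisors of products of primes.** -/
theorem result :
    -- almost all the tuples of primes
    (∀ 𝒟 : Finset ℕ, (∀ D ∈ 𝒟, Class D) → ∀ ε : ℝ, 0 < ε → ∃ C : ℝ, ∀ k : ℕ, ∃ X₀ : ℕ, ∀ X : ℕ,
      X₀ ≤ X → (1 - C * (15 / 16) ^ k) * ((tuples k X).card : ℝ) ≤
        (((tuples k X).filter fun p => Function.Injective p ∧ ∀ D ∈ 𝒟, Typical p D ε).card : ℝ)) ∧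
    -- one sequence of primes for all the curves
    (∃ p : ℕ → ℕ, StrictMono p ∧
      (∀ i, (p i).Prime ∧ p i % 4 = 1 ∧ IsSquare (-7 : ZMod (p i))) ∧
      ∀ D : ℕ, Class D → (∀ i, ¬ p i ∣ D) → ∃ k₀ : ℕ, ∀ k : ℕ, k₀ ≤ k →
        Typical (fun i : Fin k => p i) D ((31 / 32) ^ k)) ∧
    -- the formula modulo the primes above two
    Formula ∧ (∀ D : ℕ, Class D → (OddFormula D ↔ corank D = 0)) ∧
    HasSum α 1 ∧ 0.4194 < κ ∧ κ < 0.4195 := by
  classical
  refine ⟨fun 𝒟 h𝒟 ε hε => ?_, ?_, fun D hD => ?_, fun D hD => odd_iff ((class_iff D).1 hD), ?_,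
    Pool.Agent.Y948.CQ.t_C2.2.2.2.1, Pool.Agent.Y948.CQ.t_C2.2.2.2.2⟩
  · obtain ⟨C, hC⟩ := _root_.Q155.KG.divisors_law (𝒟 := 𝒟) (fun D hD => (class_iff D).1 (h𝒟 D hD)) hε
    refine ⟨C, fun k => ?_⟩
    obtain ⟨X₀, hX₀⟩ := hC k
    refine ⟨X₀, fun X hX => ?_⟩
    rw [tuples_eq]
    refine (hX₀ X hX).trans ?_
    refine (Nat.cast_le (α := ℝ)).2 (Finset.card_le_card fun p hp => ?_)
    obtain ⟨h1, h2, h3⟩ := Finset.mem_filter.1 hp
    refine Finset.mem_filter.2 ⟨h1, h2, fun D hD => ?_⟩
    exact typical_of ((class_iff D).1 (h𝒟 D hD)) (fun i => (_root_.Q155.KG.mem_tupP.1 h1 i).2) h2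
      (h3 D hD).1 (h3 D hD).2
  · obtain ⟨p, h1, h2, h3⟩ := _root_.Q155.KG.sequence_law
    refine ⟨p, h1, fun i => ⟨(h2 i).1.1, (h2 i).1.2, (h2 i).2⟩, fun D hD hpD => ?_⟩
    obtain ⟨k₀, hk₀⟩ := h3 D ((class_iff D).1 hD) hpD
    refine ⟨k₀, fun k hk => typical_of ((class_iff D).1 hD) (fun i => (h2 i).1) ?_
      (fun i => hpD i) (hk₀ k hk)⟩
    intro i j hij
    exact Fin.ext (h1.injective hij)
  · have hC := (class_iff D).1 hD
    obtain ⟨h1, h2, h3, h4⟩ := formula hC
    refine ⟨h1, h2, h3, h4, good_iff hC, fun hG => ?_⟩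
    exact ((odd_iff hC).2 ((good_iff hC).1 hG)).2.1
  · have e : α = Q283.GS.al := funext fun b => α_eq b
    rw [e]
    exact Q283.GS.hasSum_al

end Pool.Agent.Results.MP_92892c_nt.DivisorLawTwoPart
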