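import Mathlib
import Pool.Agent.Q21.AC.Main

/-!
MP_932391_al: the finite p-groups with `|Aut_c(G)| = |γ₂(G)|^{d(G)}`.

`AutC G` is the group of class-preserving automorphisms, `commutator G = γ₂(G)`,
`⁅commutator G, ⊤⁆ = γ₃(G)`, `frattini G = Φ(G)`, `Group.rank G = d(G)` (the least size of a
generating set), and `M ⋖ commutator G` says that `M` is a maximal subgroup of `γ₂(G)`.
-/

set_option autoImplicit false

open scoped commutatorElement

namespace Pool.Agent.Results.MP_932391_al.Classification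

open Pool.Agent.Helper832.AutC

theorem result (p : ℕ) (G : Type) [Fact p.Prime] [Group G] [Finite G] (hG : IsPGroup p G) :
    -- the classification
    (Nat.card (AutC G) = Nat.card (commutator G) ^ Group.rank G ↔
      -- (A) class at most two, and `Z(G/M) = Φ(G)/M` for every maximal subgroup `M` of `γ₂(G)`
      (⁅commutator G, (⊤ : Subgroup G)⁆ = ⊥ ∧
        ∀ M : Subgroup G, M ⋖ commutator G → ∀ x, (∀ g, ⁅x, g⁆ ∈ M) ↔ x ∈ frattini G) ∨
      -- (B) two generators, `γ₂(G)` cyclic, and `γ₃(G) ≤ γ₂(G)⁴` if `p = 2`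
      (Group.rank G = 2 ∧ IsCyclic (commutator G) ∧
        (p = 2 → ∀ c ∈ ⁅commutator G, (⊤ : Subgroup G)⁆, ∃ e ∈ commutator G, c = e ^ 4)) ∨
      -- (C) a two-generator 2-group with `γ₄(G) = 1` and `γ₂(G)` of exponent at most two
      (p = 2 ∧ Group.rank G = 2 ∧
        ⁅⁅commutator G, (⊤ : Subgroup G)⁆, (⊤ : Subgroup G)⁆ = ⊥ ∧
        ∀ c ∈ commutator G, c ^ 2 = 1)) ∧
    -- in class at most two the condition in (A) says that `x^G = x γ₂(G)` for all `x ∉ Φ(G)`
    (⁅commutator G, (⊤ : Subgroup G)⁆ = ⊥ →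
      ((∀ M : Subgroup G, M ⋖ commutator G → ∀ x, (∀ g, ⁅x, g⁆ ∈ M) ↔ x ∈ frattini G) ↔
        ∀ x, x ∉ frattini G → ∀ c ∈ commutator G, IsConj x (x * c))) :=
  ⟨Pool.Agent.Q21.AC.main hG, fun h3 => Pool.Agent.Q21.AC.cam_iff_coset hG h3⟩

end Pool.Agent.Results.MP_932391_al.Classification
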