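import Pool.Agent.Q282.NA.Fin

/-!
# Tate's conjecture for the powers of almost all complete intersections over number fields, in truncated form

Let `K` be a number field with ring of integers `O`. Let `W` be a closed subscheme of a projective space over `O` of relative dimension
`D + r`, and `Z` a closed subscheme of `W` of relative dimension at most `D / 2`, given in `W` by forms `h_j` of degrees `e_j`. For
`a = 1, ..., r` let the forms `f_{a,j}` span the forms of degree `d_a` that vanish on `Z`. For integers `c = (c_{a,j})` of `K` let `V_c`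
be the complete intersection

  `W ∩ {∑_j c_{1,j} f_{1,j} = 0} ∩ ... ∩ {∑_j c_{r,j} f_{r,j} = 0}`,

a variety of dimension `D` over `K`; it is smooth if `Δ(c) ≠ 0`, where `Δ` is a polynomial in the parameters with coefficients in `O`
(a multiple of the discriminant), and it has good reduction at the primes that do not divide `Δ(c)`.

The primes of degree one over a rational prime `p` are the homomorphisms `ψ : O → ZMod p`. Let `T_p(c)` be the sum of the traces of the
Frobenius automorphisms on `H^{2i}(V_c^ν)(i)` over the `ψ` of good reduction. The order of the pole of the `L`-function of `H^{2i}(V_c^ν)`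
at the edge, which by Tate's conjecture is the rank of the group of the classes of cycles over `K`, is the limit of the averages

  `1 / X ∑_{p ≤ X} T_p(c) log p`

(in the sense that Tate gives to it; primes of higher degree do not contribute). It is proved here: with a constant `K₁` that does not
depend on `K'`, `X` or the box, for all `K' ≥ K₁`, all `X` and all boxes of families `c` (in the coordinates of any integral basis of `O`,
with any centre) with sides at least `K₁ (X + 1)^3`, all the members but a proportion of at most `K₁ / K' ^ 2` satisfy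

  `| ∑_{p ≤ X'} T_p(c) log p - ∑_{p ≤ X'} log p ∑_ψ ∑_l T(l) z(ψ)^l | ≤ K' √X' (log X')^3`  for all `2 ≤ X' ≤ X` at once,

if `e_j + 2 ν ≤ d_a + 1`. Here `z(ψ)` is the number of the components of dimension `D / 2` of `Z` that are defined over the
residue field, and `∑_l T(l) z(ψ)^l` is the trace of Frobenius on the span of the products of classes of `W`, components of
`Z` and diagonals in `H^{2i}(V_c^ν)(i)`. So to the precision of the Riemann hypothesis, up to a factor `log X`, the primes up
to `X` see exactly the Tate classes that are predicted, and no others, on the power with `ν` factors of almost all `V_c`.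

The second part of the theorem is the case of the projective space and of a union `Z` of any `s ≥ 0` linear subspaces: no number of
points is assumed. For `s = 0` these are all complete intersections of degrees `d_a ≥ 2 ν - 1`.

Proof. Means and mean squares of the traces over the members over a finite field (separation of `2 ν` points by the linear
system); independence of different rational primes for the members of a box; a maximal inequality over dyadic blocks.
-/

set_option autoImplicit false

namespace Pool.Agent.Results.MP_938ce2_ag.AlmostAllTruncatedSums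

open Finset MvPolynomial NumberField
open scoped LinearAlgebra.Projectivization

/-- The polynomials in `n + 1` variables over the ring of integers of `K`. -/
abbrev Forms (K : Type) [Field K] (n : ℕ) : Type := MvPolynomial (Fin (n + 1)) (𝓞 K)

/-- The number of the points with coordinates in the field `F` of the closed subscheme of the projective space of dimension `n` over
`A` that is defined by the forms of the set `S`, for a homomorphism `φ : A → F`. -/
noncomputable def points {A F : Type} [CommRing A] [Field F] {n : ℕ} (φ : A →+* F) (S : Set (MvPolynomial (Fin (n + 1)) A)) : ℕ :=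
  Nat.card {P : ℙ F (Fin (n + 1) → F) // ∀ G ∈ S, eval₂ φ P.rep G = 0}

/-- The forms `f j` span the linear system of the hypersurfaces of degree `d` through the scheme `h = 0`: they have degree
`d`, vanish on this scheme (belong to the radical of the ideal), and every form of degree `d` in the ideal is a combination of them. -/
structure Spans {O : Type} [CommRing O] {n : ℕ} {J ι : Type} [Fintype ι] (h : J → MvPolynomial (Fin (n + 1)) O) (d : ℕ)
    (f : ι → MvPolynomial (Fin (n + 1)) O) : Prop where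
  hom : ∀ j, (f j).IsHomogeneous d
  mem : ∀ j, f j ∈ (Ideal.span (Set.range h)).radical
  gen : ∀ G : MvPolynomial (Fin (n + 1)) O, G.IsHomogeneous d → G ∈ Ideal.span (Set.range h) → ∃ c : ι → O, G = ∑ j, C (c j) * f j

/-- The equations of a union of linear subspaces: the products of one equation `∑ v_j X_j` of each of them (for `s = 0` the only such
product is `1`, and the union is empty). -/
noncomputable def unionEquations {O : Type} [CommRing O] {n s c : ℕ} (l : Fin s → Fin c → Fin (n + 1) → O) (φ : Fin s → Fin c) :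
    MvPolynomial (Fin (n + 1)) O := ∏ i, ∑ j, C (l i (φ i) j) * X j

/-- The polynomial `Δ` is not zero modulo the prime `ψ`. -/
def Generic {O F : Type} [CommRing O] [Field F] {S : Type} (Δ : MvPolynomial S O) (ψ : O →+* F) : Prop := map ψ Δ ≠ 0

/-- Modulo the prime `ψ` the linear equations `l i 0, ..., l i (c - 1)` are independent for every `i`, and the linear subspaces of
codimension `c` that they define for different `i` are different. -/
def AreSubspaces {O F : Type} [CommRing O] [Field F] {n s c : ℕ} (ψ : O →+* F) (l : Fin s → Fin c → Fin (n + 1) → O) : Prop :=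
  (∀ i, LinearIndependent F fun a j => ψ (l i a j)) ∧
  ∀ i i', i ≠ i' → ∃ y : Fin (n + 1) → F, ¬ ((∀ a, ∑ j, ψ (l i a j) * y j = 0) ↔ ∀ a, ∑ j, ψ (l i' a j) * y j = 0)

/-- The equations of the complete intersection `V_c` in the scheme with the equations `E`. -/
noncomputable def member {O : Type} [CommRing O] {n r : ℕ} {ν : Fin r → ℕ} (E : Set (MvPolynomial (Fin (n + 1)) O))
    (f : (a : Fin r) → Fin (ν a) → MvPolynomial (Fin (n + 1)) O) (c : (Σ a, Fin (ν a)) → O) : Set (MvPolynomial (Fin (n + 1)) O) :=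
  Set.range (fun a => ∑ j, C (c ⟨a, j⟩) * f a j) ∪ E

/-- The Betti number in degree `2 a`, for `2 a ≠ D`, of a section of dimension `D` and codimension `r` of a variety with the Betti
numbers `w j` in degree `2 j`. -/
def betti (w : ℕ → ℕ) (D r a : ℕ) : ℕ := if 2 * a < D then w a else if D < 2 * a ∧ a ≤ D then w (a + r) else 0

section

variable {K : Type} [Field K]

/-- The eigenvalues `α p ψ` for the primes `ψ` of degree one that do not divide `Δ(c)` satisfy the trace formula for the reduction modulo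
`ψ` of the scheme with the equations `V`. For smooth fibres of dimension `D` these are the eigenvalues of Frobenius on the
cohomology in degree `D` (Grothendieck, Lefschetz). -/
def IsFrobenius {n : ℕ} {S : Type} (w : ℕ → ℕ) (D r : ℕ) (V : Set (Forms K n)) (Δ : MvPolynomial S (𝓞 K)) (c : S → 𝓞 K)
    (α : (p : ℕ) → (𝓞 K →+* ZMod p) → Multiset ℂ) : Prop :=
  ∀ (p : ℕ) [Fact p.Prime] (ψ : 𝓞 K →+* ZMod p), ψ (eval c Δ) ≠ 0 →
    (points ψ V : ℂ) = ((∑ a ∈ range (D + 1), betti w D r a * (p : ℝ) ^ a : ℝ) : ℂ) + (-1) ^ D * (α p ψ).sum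

/-- The eigenvalues on the cohomology of the fibre in degree `j`. -/
noncomputable def cohomology (w : ℕ → ℕ) (D r q : ℕ) (α : Multiset ℂ) (j : ℕ) : Multiset ℂ :=
  if j = D then α else if Even j then Multiset.replicate (betti w D r (j / 2)) ((q : ℂ) ^ (j / 2)) else 0

/-- The eigenvalues on the cohomology in degree `j` of the power with `ν` factors (Kunneth). -/
noncomputable def kunneth (H : ℕ → Multiset ℂ) : ℕ → ℕ → Multiset ℂ
  | 0, j => if j = 0 then {1} else 0
  | ν + 1, j => ∑ x ∈ antidiagonal j, (H x.1 ×ˢ kunneth H ν x.2).map (fun z => z.1 * z.2)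

/-- The sum over the primes `ψ` of degree one over `p` that do not divide `Δ(c)` of the traces of Frobenius on `H^{2i}(V_c^ν)(i)`. -/
noncomputable def traceSum {S : Type} (w : ℕ → ℕ) (D r ν i : ℕ) (Δ : MvPolynomial S (𝓞 K)) (c : S → 𝓞 K)
    (α : (p : ℕ) → (𝓞 K →+* ZMod p) → Multiset ℂ) (p : ℕ) : ℂ :=
  (∑ᶠ ψ : {ψ : 𝓞 K →+* ZMod p // ψ (eval c Δ) ≠ 0}, (kunneth (cohomology w D r p (α p ψ.1)) ν (2 * i)).sum) / (p : ℂ) ^ i

/-- The number of the perfect matchings of `j` elements: the moments of the normal law. -/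
def matchings (j : ℕ) : ℕ := if Even j then (j - 1).doubleFactorial else 0

/-- The number of the ways to choose, among `k` factors, `j` that are matched, `l` that carry components of the base scheme, and one of
`v` classes of the ambient variety on each of the others. -/
def middle (v k l : ℕ) : ℕ := ∑ j ∈ range (k + 1), k.choose j * (k - j).choose l * matchings j * v ^ (k - j - l)

/-- The generating series of the Betti numbers outside the middle degree. -/
noncomputable def outer (w : ℕ → ℕ) (D r : ℕ) : PowerSeries ℕ := PowerSeries.mk fun b => if Even b then betti w D r (b / 2) else 0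

/-- The exponents `T(l)`. -/
noncomputable def exponent (w : ℕ → ℕ) (D r ν i l : ℕ) : ℕ :=
  ∑ k ∈ range (ν + 1), (ν.choose k * (if D * k ≤ 2 * i then PowerSeries.coeff (2 * i - D * k) (outer w D r ^ (ν - k)) else 0)) *
    middle (if Even D then w (D / 2 + r) else 0) k l

/-- The sum over the primes `ψ` of degree one over `p` with `Δ ≠ 0` modulo `ψ` of the predicted numbers `∑_l T(l) z(ψ)^l`. -/
noncomputable def predicted {S : Type} (w : ℕ → ℕ) (D r ν i : ℕ) (Δ : MvPolynomial S (𝓞 K)) (z : (p : ℕ) → (𝓞 K →+* ZMod p) → ℕ)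
    (p : ℕ) : ℝ :=
  ∑ᶠ ψ : {ψ : 𝓞 K →+* ZMod p // map ψ Δ ≠ 0}, ∑ l ∈ range (ν + 1), exponent w D r ν i l * (z p ψ.1 : ℝ) ^ l

/-- The sums over the primes up to `X'` of the traces on `H^{2i}(V_c^ν)(i)` differ from the predicted ones by at most
`K' √X' (log X')^3`, for all `X'` with `2 ≤ X' ≤ X`. -/
def TateSums {n r : ℕ} {μ : Fin r → ℕ} (w : ℕ → ℕ) (D ν i : ℕ) (E : Set (Forms K n)) (f : (a : Fin r) → Fin (μ a) → Forms K n)
    (Δ : MvPolynomial (Σ a, Fin (μ a)) (𝓞 K)) (z : (p : ℕ) → (𝓞 K →+* ZMod p) → ℕ)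
    (K' : ℝ) (X : ℕ) (c : (Σ a, Fin (μ a)) → 𝓞 K) : Prop :=
  ∀ α : (p : ℕ) → (𝓞 K →+* ZMod p) → Multiset ℂ, IsFrobenius w D r (member E f c) Δ c α → ∀ X' : ℕ, 2 ≤ X' → X' ≤ X →
    ‖∑ p ∈ Nat.primesLE X', (Real.log p : ℂ) * traceSum w D r ν i Δ c α p -
      (∑ p ∈ Nat.primesLE X', Real.log p * predicted w D r ν i Δ z p : ℝ)‖ ≤ K' * (Real.sqrt X' * (Real.log X') ^ 3)

/-- The box of the families of integers with coordinates in the intervals `[m, m + L)`. -/
def box {κ S : Type} (ω : Module.Basis κ ℤ (𝓞 K)) (m : S × κ → ℤ) (L : S × κ → ℕ) : Set (S → 𝓞 K) :=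
  {c | ∀ s k, m (s, k) ≤ ω.repr (c s) k ∧ ω.repr (c s) k < m (s, k) + L (s, k)}

/-- There is a constant `K₁` such that for all `K' ≥ K₁`, all `X` and all boxes with sides at least `K₁ (X + 1)^3` the property
`R K' X` holds for all members of the box, but a proportion of at most `K₁ / K' ^ 2` of them. -/
def AlmostAll {κ S : Type} (ω : Module.Basis κ ℤ (𝓞 K)) (R : ℝ → ℕ → (S → 𝓞 K) → Prop) : Prop :=
  ∃ K₁ : ℝ, 0 < K₁ ∧ ∀ K' : ℝ, K₁ ≤ K' → ∀ (X : ℕ) (m : S × κ → ℤ) (L : S × κ → ℕ), (∀ x, K₁ * (X + 1) ^ 3 ≤ L x) →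
    (Set.ncard {c ∈ box ω m L | ¬ R K' X c} : ℝ) ≤ K₁ / K' ^ 2 * Set.ncard (box ω m L)

/-- The fibres of the scheme `E = 0` at the primes `ψ` of degree one with `Δ ≠ 0` modulo `ψ` have the number of points of a variety
of dimension `D + r` with the Betti numbers `w j`, up to an error of the size of cohomology of weight `2 r + D - 1`. -/
def AmbientCounts {n : ℕ} {S : Type} (Δ : MvPolynomial S (𝓞 K)) (E : Set (Forms K n)) (w : ℕ → ℕ) (D r : ℕ) : Prop :=
  ∃ C₀ : ℝ, ∀ (p : ℕ) [Fact p.Prime] (ψ : 𝓞 K →+* ZMod p), Generic Δ ψ →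
    |(points ψ E : ℝ) - ∑ j ∈ range (D + r + 1), w j * (p : ℝ) ^ j| ≤ C₀ * Real.sqrt p ^ (2 * r + D - 1)

/-- The fibre of the scheme `S = 0` at `ψ` has `z p ψ` components of dimension `D / 2` over the field with `p` elements, and
none of larger dimension, in the form of the estimate of Lang and Weil; the numbers `z p ψ` are bounded. -/
def BaseCounts {n : ℕ} {T : Type} (Δ : MvPolynomial T (𝓞 K)) (S : Set (Forms K n)) (z : (p : ℕ) → (𝓞 K →+* ZMod p) → ℕ) (D : ℕ) : Prop :=
  ∃ C₁ : ℝ, ∀ (p : ℕ) [Fact p.Prime] (ψ : 𝓞 K →+* ZMod p), Generic Δ ψ →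
    z p ψ ≤ C₁ ∧ |(points ψ S : ℝ) - z p ψ * Real.sqrt p ^ D| ≤ C₁ * Real.sqrt p ^ D / Real.sqrt p

end

theorem kunneth_eq (H : ℕ → Multiset ℂ) (ν j : ℕ) : kunneth H ν j = Q282GP.kun H ν j := by
  induction ν generalizing j with
  | zero => rfl
  | succ ν ih =>
    unfold kunneth Q282GP.kun
    refine sum_congr rfl fun x _ => ?_
    rw [ih]

section

variable {K : Type} [Field K]

theorem traceSum_eq {r : ℕ} {μ : Fin r → ℕ} (w : ℕ → ℕ) (D ν i : ℕ) (Δ : MvPolynomial (Σ a, Fin (μ a)) (𝓞 K)) (c : (Σ a, Fin (μ a)) → 𝓞 K)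
    (α : (p : ℕ) → (𝓞 K →+* ZMod p) → Multiset ℂ) (p : ℕ) :
    traceSum w D r ν i Δ c α p = Q282NA.traceSum w D r ν i Δ c α p / (p : ℂ) ^ i := by
  unfold traceSum Q282NA.traceSum
  simp only [kunneth_eq]
  rfl

theorem near {n r : ℕ} {μ : Fin r → ℕ} (w : ℕ → ℕ) (D ν i : ℕ) (E : Set (MvPolynomial (Fin (n + 1)) (𝓞 K)))
    (f : (a : Fin r) → Fin (μ a) → MvPolynomial (Fin (n + 1)) (𝓞 K))
    (Δ : MvPolynomial (Σ a, Fin (μ a)) (𝓞 K)) (z : (p : ℕ) → (𝓞 K →+* ZMod p) → ℕ)
    (K' : ℝ) (X : ℕ) (c : (Σ a, Fin (μ a)) → 𝓞 K) (h : Q282NA.Near w D r ν i E f Δ z K' X c) : TateSums w D ν i E f Δ z K' X c := by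
  intro α hα X' h1 h2
  have h3 := h α hα X' h1 h2
  simp only [traceSum_eq]
  exact h3

variable [NumberField K]

theorem almostAll {κ S : Type} [Fintype κ] (ω : Module.Basis κ ℤ (𝓞 K)) [Fintype S] (R R' : ℝ → ℕ → (S → 𝓞 K) → Prop)
    (hR : ∀ K' X c, R K' X c → R' K' X c) (h : Q282NA.AlmostAll ω R) : AlmostAll ω R' := by
  classical
  obtain ⟨K₁, h0, h1⟩ := h
  refine ⟨K₁, h0, fun K' hK' X m L hL => ?_⟩
  refine le_trans ?_ (h1 K' hK' X m L hL)
  have hfin : (Q282NA.Box ω m L).Finite := by
    refine (((Q282RH.tbox m L).finite_toSet).image (Q282NA.dec ω)).subset ?_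
    intro c hc
    refine ⟨fun x => ω.repr (c x.1) x.2, ?_, Q282NA.dec_repr ω c⟩
    rw [mem_coe]
    unfold Q282RH.tbox
    rw [Fintype.mem_piFinset]
    intro x
    rw [mem_Ico]
    exact hc x.1 x.2
  have h3 : {c ∈ box ω m L | ¬ R' K' X c} ⊆ {c ∈ Q282NA.Box ω m L | ¬ R K' X c} := fun c hc => ⟨hc.1, fun h => hc.2 (hR K' X c h)⟩
  have h4 : {c ∈ Q282NA.Box ω m L | ¬ R K' X c}.Finite := hfin.subset fun c hc => hc.1
  exact_mod_cast Set.ncard_le_ncard h3 h4

end

/-- **Tate's conjecture for the powers of almost all complete intersections over number fields, in truncated form.** -/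
theorem result (K : Type) [Field K] [NumberField K] (κ : Type) [Fintype κ] (ω : Module.Basis κ ℤ (𝓞 K))
    (D r : ℕ) (hD : 1 ≤ D) (hr : 1 ≤ r) (μ d : Fin r → ℕ) (Δ : MvPolynomial (Σ a, Fin (μ a)) (𝓞 K)) (ν : ℕ) (hν : 1 ≤ ν) (i : ℕ) :
    -- complete intersections in `W` through `Z`
    (∀ (n : ℕ) (E : Set (Forms K n)) (w : ℕ → ℕ) (_ : w (D + r) = 1) (_ : AmbientCounts Δ E w D r)
      (J : Type) (h : J → Forms K n) (e : J → ℕ) (_ : ∀ j, (h j).IsHomogeneous (e j)) (_ : ∀ j a, e j + 2 * ν ≤ d a + 1)
      (z : (p : ℕ) → (𝓞 K →+* ZMod p) → ℕ) (_ : BaseCounts Δ (E ∪ Set.range h) z D)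
      (f : (a : Fin r) → Fin (μ a) → Forms K n) (_ : ∀ a, Spans h (d a) (f a)),
      AlmostAll ω fun K' X c => TateSums w D ν i E f Δ z K' X c) ∧
    -- complete intersections in the projective space through `s` linear subspaces of dimension `g`
    ∀ (s g : ℕ) (_ : 2 * g ≤ D) (l : Fin s → Fin (D + r - g) → Fin (D + r + 1) → 𝓞 K)
      (_ : ∀ (p : ℕ) [Fact p.Prime] (ψ : 𝓞 K →+* ZMod p), Generic Δ ψ → AreSubspaces ψ l) (_ : ∀ a, s + 2 * ν ≤ d a + 1)
      (f : (a : Fin r) → Fin (μ a) → Forms K (D + r)) (_ : ∀ a, Spans (unionEquations l) (d a) (f a)),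
      AlmostAll ω fun K' X c => TateSums (fun _ => 1) D ν i ∅ f Δ (fun _ _ => if 2 * g = D then s else 0) K' X c := by
  refine ⟨?_, ?_⟩
  · intro n E w hw hW' J h e hh hd z hz' f hf
    obtain ⟨C₀, hW⟩ := hW'
    obtain ⟨C₁, hZ⟩ := hz'
    have key := Q282NA.almost (A := Fin r) (ι := fun a => Fin (μ a)) ω D hD r hr (Fintype.card_fin r) w hw C₀ C₁ ν hν i
      hh hd (fun a => ⟨(hf a).hom, (hf a).mem, (hf a).gen⟩) E Δ z (fun p _ ψ hψ => hW p ψ hψ)
      (fun p _ ψ hψ => (hZ p ψ hψ).1) (fun p _ ψ hψ => (hZ p ψ hψ).2)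
    exact almostAll ω _ _ (fun K' X c => near w D ν i E f Δ z K' X c) key
  · intro s g hg l hl hd f hf
    have key := Q282NA.almost_lin (A := Fin r) (ι := fun a => Fin (μ a)) ω D hD r hr (Fintype.card_fin r) ν hν i hg l hd
      (fun a => ⟨(hf a).hom, (hf a).mem, (hf a).gen⟩) Δ (fun p _ ψ hψ => hl p ψ hψ)
    exact almostAll ω _ _ (fun K' X c => near (fun _ => 1) D ν i ∅ f Δ (fun _ _ => if 2 * g = D then s else 0) K' X c) key

end Pool.Agent.Results.MP_938ce2_ag.AlmostAllTruncatedSums
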