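import Pool.Agent.Q50.FP.B1M

/-!
# The Tate conjecture for the fourth power and the Hodge conjecture imply the Tate conjecture

Let `X` be a smooth projective variety over the algebraic closure `k` of a number field `F`, with
`k` embedded into the complex numbers, and let `ℓ` be a prime. Assume that the Galois
representations on the `ℓ`-adic cohomology of `X` are semisimple and that the Tate conjecture holds
for the fourth power of `X`. Then for every `n` all Tate classes on `X ^ n` are linear combinations
over `ℚ_ℓ` of Hodge classes, and if the Hodge conjecture holds for `X ^ n` then the Tate conjecture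
holds for `X ^ n`.

The theorem is proved for every Hodge theory `T` and every Weil cohomology theory `E` with an
action of a compact group which are related by Artin's comparison `A` and by the Hodge-Tate
comparison `H` at all embeddings of `k` into the completion of an algebraic closure of `ℚ_ℓ`.
Here `pw X n` is the product of `n + 1` copies of `X`.
-/

open CategoryTheory AlgebraicGeometry

universe u w

namespace Pool.Agent.Results.MP_938ce2_ag.FourthPowerDecides

open Pool.Agent.H914
open Pool.Agent.Y121.AHS (HodgeTheory IsHodge Comparison)
open Pool.Agent.Q55 (GaloisAction)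
open Pool.Agent.Q60.TD (SemisimpleAt)
open Pool.Agent.Y133.Half (pw)
open Pool.Agent.Q50.FP (HodgeTateComparison IsLadic IsTate HodgeFor TateFor IsHodgeComb)

variable {k : Type u} [Field k] {𝒱 : VarClass k} {ops : CycleOps 𝒱} {T : HodgeTheory ops}
  {E : WeilCohomology.{u, 0} ops} [Algebra T.W.K E.K] [Algebra E.K ℂ] {Γ : Type w} [Group Γ]
  [TopologicalSpace Γ] {G : GaloisAction E Γ}

/-- **The fourth power decides.** -/
theorem result (A : Comparison T.W E E.K) (H : HodgeTateComparison G T) (ℓ : ℕ)
    [Fact ℓ.Prime] (X : 𝒱.Obj) (hX : IsLadic G ℓ X) (hss : ∀ i, SemisimpleAt G X i)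
    (hTC : TateFor G (pw X 3)) (n : ℕ) :
    (∀ j c, IsTate G (pw X n) j c → IsHodgeComb A (pw X n) j c) ∧
      (HodgeFor T (pw X n) → TateFor G (pw X n)) :=
  Pool.Agent.Q50.FP.b1_main A H hX hss hTC n

end Pool.Agent.Results.MP_938ce2_ag.FourthPowerDecides
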