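import Pool.Agent.Q28.ZO.TFin

/-!
# The zero-one law for the Tate classes on the powers of a variety

Let `X` be a smooth projective variety over a number field in `ℂ` and let `l` be a prime number. A
class on a power of `X` in rational singular cohomology is an HT class if it is a Hodge class and its
image in `l`-adic cohomology is a Tate class; the classes of algebraic cycles are HT classes. We
prove unconditionally:

* either all Tate classes on all powers of `X` are linear combinations over `ℚ_l` of HT classes, or
  the HT classes are asymptotically zero percent of the Tate classes on `X^n`: the dimension of the
  space of the HT classes divided by the dimension of the space of the Tate classes tends to zero;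
* hence, if the algebraic classes are not asymptotically zero percent of the Tate classes, then all
  Tate classes on all powers are linear combinations of Hodge classes, and the Hodge conjecture for
  `X^n` implies the Tate conjecture for `X^n`, for all `n`;
* and if the algebraic classes are neither asymptotically zero percent of the Tate classes nor of the
  Hodge classes, then the Mumford-Tate conjecture holds for all powers of `X`, and the Hodge
  conjecture for `X^n` is equivalent to the Tate conjecture for `X^n`, for all `n`.

No conjecture and no semisimplicity of the Galois representations is assumed. The reason for the law
is that the algebraic groups over `ℚ_l` which should describe the Tate classes and the HT classes are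
connected. In the proof this is replaced by the following. If the quotient does not tend to zero then
all Tate classes are generated by those on one power under correspondences given by HT classes. Embed
`ℚ_l` into `ℂ` and consider the images of a Tate class in complex cohomology for all conjugates of
this embedding. The external powers of these images satisfy a fixed polynomial relation with respect
to the operator `2^(p-q)`, and their matrix coefficients, as functions on the Galois group modulo
functions which vanish on a subgroup of finite index, lie in a space of finite dimension. Therefore
the images are of type `(j,j)` and are fixed by subgroups of finite index. By descent the class is a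
combination of HT classes.

The theorem is proved for an arbitrary class of smooth projective varieties which is stable under
products, with a Hodge theory `T`, a Weil cohomology `W'` with coefficients embeddable into `ℂ`, a
comparison isomorphism `C` and a group `Γ` acting on `W'` with the formal properties of the Galois
group.
-/

open CategoryTheory AlgebraicGeometry

universe u w

namespace Pool.Agent.Results.MP_938ce2_ag.ZeroOneLaw

open Pool.Agent.H914
open Pool.Agent.Y121.AHS (HodgeTheory IsHodge RatioToZero)
open Pool.Agent.Y133.Half (pw)
open Pool.Agent.Q55 (GaloisAction IsTate)
open Pool.Agent.Q57.DS (dimP cycRk)
open Pool.Agent.Q60.MT (Artin MumfordTate)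
open Pool.Agent.Q28.ZO

variable {k : Type u} [Field k] {𝒱 : VarClass k} {ops : CycleOps 𝒱}

/-- **The zero-one law for Tate classes.** `pw X n` is the product of `n + 1` copies of `X`. -/
theorem result {T : HodgeTheory ops} {W' : WeilCohomology.{u, 0} ops} {Γ : Type w} [Group Γ]
    (C : Artin T.W W') (hC : RespectsCycles C) (hK : Nonempty (W'.K →+* ℂ))
    (G : GaloisAction W' Γ) (X : 𝒱.Obj) [Nontrivial (T.W.H X)] :
    ((∀ n, TateAreHT C G (pw X n)) ∨
      RatioToZero (fun n => dimP (IsHT C G) (pw X n)) fun n => dimP (IsTate G) (pw X n)) ∧
    ((∀ n, TateAreHT C G (pw X n) ∧ (HodgeConj T (pw X n) → TateConj G (pw X n))) ∨
      RatioToZero (fun n => cycRk ops (pw X n)) fun n => dimP (IsTate G) (pw X n)) ∧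
    ((∀ n, MumfordTate C G (pw X n) ∧ (HodgeConj T (pw X n) ↔ TateConj G (pw X n))) ∨
      RatioToZero (fun n => cycRk ops (pw X n)) (fun n => dimP (IsTate G) (pw X n)) ∨
      RatioToZero (fun n => cycRk ops (pw X n)) fun n => dimP (IsHodge T) (pw X n)) := by
  obtain ⟨τ⟩ := hK
  exact ⟨Pool.Agent.Q28.ZO.t_law hC G X τ, Pool.Agent.Q28.ZO.cyc_tate hC G X τ,
    Pool.Agent.Q28.ZO.cyc_both hC G X τ⟩

end Pool.Agent.Results.MP_938ce2_ag.ZeroOneLaw
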