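import Pool.Agent.Q147.TG.Tower

/-!
# Towers `a ^ (α ^ β)` whose top is a random element of a number field

The number of the problem is `√2 ^ (√2 ^ β)` for `β = √2`.  We fix an algebraic number `α = e ^ l`,
`l ≠ 0`, and let `β` run through a number field (or a finitely generated group of algebraic numbers).
More generally we consider the monomials `g ^ m = g_1 ^ m_1 ⋯ g_r ^ m_r` in arbitrary complex numbers
`g_i` such that no nontrivial monomial is algebraic.

(1) Let `y_1, ..., y_N` be any complex numbers.  For all but `C H ^ (r N / (N + 1))` of the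
`(2 H + 1) ^ r` exponents `m`, `|m_i| ≤ H`, *none* of the numbers `g ^ m (b_1 y_1 + ... + b_N y_N) ≠ 0`
with algebraic `b_j` is a linear form in `1` and logarithms of algebraic numbers, with algebraic
coefficients; in particular all their exponentials are transcendental.  `C` depends only on `r`, `N`.

(2) This applies to `g_i = α ^ β_i` when `1, β_1, ..., β_r` are algebraic and linearly independent over
`ℚ`: for almost all `β = ∑ m_i β_i`, all rational `q` and all algebraic `b_j` the numbers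
`exp (α ^ (q + β) ∑ b_j y_j)` are transcendental.  With `y_j = log a_j` these are the numbers
`∏ a_j ^ (b_j α ^ (q + β))`: one exceptional set, of the size given in (1), for all bases `a` in a
finitely generated group at once.

(3) Let `K` be a number field of degree `d`, `s ≠ 0` any complex number.  For every irrational
algebraic number `δ`, the `β` in `K` for which both `s α ^ β` and `s α ^ (β + δ)` are such linear forms
lie in at most `d` classes modulo `ℚ`.  Hence if `F` is a finite subset of `K`, and `B` consists of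
members `β` of `F`, different modulo `ℚ`, for which `s α ^ β` is a linear form (for instance
`e ^ (s α ^ β)` is algebraic), then `|B| (|B| - 1) ≤ d |F - F|`.

(4) For real algebraic `β_i` as in (2) at most `C H ^ (r / 2)` of the `β = ∑ m_i β_i`, `|m_i| ≤ H`, are
such that `√2 ^ (√2 ^ (q + β))` is algebraic for some rational `q`.

The proof.  The new tool is a bound for the number of elements of a multiplicative group in a vector
space: if `k` is algebraically closed in `Ω` and `Γ ⊂ Ω ˣ` has rank `r` modulo `k ˣ`, then `Γ` meets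
every `k`-space of dimension `D` in at most `binom (D + r - 1) r` classes modulo `k ˣ` (places of `Ω`
over `k`, induction on `D` and `r`).  For `D = 2` this is `r + 1`, and the theorem of Roy (strong six
exponentials) gives (3).  For (1), if `g ^ (m + μ_i) y_i`, `y_i` in `Y = ∑ ℚ̄ y_j`, are linear forms for
`i = 0, ..., N`, a relation between the `y_i` gives a point with coordinates in the space of linear
forms on the hyperplane `∑ g ^ (-μ_i) X_i = 0`.  By the hyperplane case of the linear subgroup theorem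
(Waldschmidt, Roy; in the starting library) these points span a space of dimension `≤ N (N + 1)`, hence
`g ^ m` is a quotient of elements of two spaces of bounded dimension, which happens for boundedly many
`m`.  Then one counts the `(N + 1)`-tuples of exceptional exponents.
-/

set_option autoImplicit false

namespace Pool.Agent.Results.MP_93d8d2_nt.AlgebraicExponents

open Module
open Pool.Agent.Q147.TG
open Pool.Agent.Y787 (QC mem_QC)
open Pool.Agent.H301R2.SSE (Lt Lt_log Lt_alg Lt_mul)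

/-- algebraic over the rational numbers -/
abbrev Alg (z : ℂ) : Prop := IsAlgebraic ℚ z

/-- `z = γ + β₁ l₁ + … + β_n l_n` with `γ`, the `β_i` and the exponentials of the `l_i` algebraic:
`z` is a linear form in `1` and logarithms of algebraic numbers, with algebraic coefficients -/
def LinForm (z : ℂ) : Prop := ∃ (n : ℕ) (γ : ℂ) (β l : Fin n → ℂ), Alg γ ∧ (∀ i, Alg (β i)) ∧
  (∀ i, Alg (Complex.exp (l i))) ∧ z = γ + ∑ i, β i * l i

/-- pairwise different modulo the rational numbers -/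
def Incongruent (B : Finset ℂ) : Prop := ∀ β ∈ B, ∀ β' ∈ B, ∀ q : ℚ, β - β' = q → β = β'

theorem LinForm.mem {z : ℂ} (h : LinForm z) : z ∈ Lt := by
  obtain ⟨m, γ, β, l, hγ, hβ, hl, rfl⟩ := h
  exact Lt.add_mem (Lt_alg hγ) (Submodule.sum_mem _ fun i _ => Lt_mul (hβ i) (Lt_log (hl i)))

theorem linForm_of_exp {z : ℂ} (h : Alg (Complex.exp z)) : LinForm z :=
  ⟨1, 0, fun _ => 1, fun _ => z, isAlgebraic_zero, fun _ => isAlgebraic_one, fun _ => h, by simp⟩

theorem finite_box (r H : ℕ) (P : (Fin r → ℤ) → Prop) :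
    {m : Fin r → ℤ | (∀ i, |m i| ≤ H) ∧ P m}.Finite :=
  (box r H).finite_toSet.subset fun _ hm => Finset.mem_coe.2 (mem_box.2 hm.1)

/-- the general count, in terms of units -/
theorem count {r N : ℕ} (g : Fin r → ℂˣ) (hg : Free (QC ℂ) g) (y : Fin N → ℂ) {H : ℕ} (hH : 1 ≤ H)
    (P : (Fin r → ℤ) → Prop)
    (hP : ∀ m, P m → ∃ b : Fin N → ℂ, (∀ j, Alg (b j)) ∧ ∑ j, b j * y j ≠ 0 ∧
      ((mon g m : ℂˣ) : ℂ) * ∑ j, b j * y j ∈ Lt) :
    {m : Fin r → ℤ | (∀ i, |m i| ≤ H) ∧ P m}.ncard ^ (N + 1) ≤ cst N r * H ^ (r * N) := by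
  classical
  let Y : Submodule (QC ℂ) ℂ := Submodule.span (QC ℂ) (Set.range y)
  have hfin : FiniteDimensional (QC ℂ) Y := FiniteDimensional.span_of_finite _ (Set.finite_range _)
  have hY : finrank (QC ℂ) Y ≤ N := (finrank_range_le_card _).trans (by rw [Fintype.card_fin])
  rw [Set.ncard_eq_toFinset_card _ (finite_box r H P)]
  refine card_exc_box (Lt := (Lt : Submodule (QC ℂ) ℂ)) hg Y hY hH _ ?_ ?_
  · intro m hm
    exact ((finite_box r H P).mem_toFinset.1 hm).1
  · intro m hm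
    obtain ⟨b, hb, hb0, hbL⟩ := hP m ((finite_box r H P).mem_toFinset.1 hm).2
    refine ⟨∑ j, b j * y j, Submodule.sum_mem _ fun j _ => ?_, hb0, hbL⟩
    have : b j * y j = (⟨b j, mem_QC.2 (hb j)⟩ : QC ℂ) • y j := by
      rw [Algebra.smul_def]
      rfl
    rw [this]
    exact Submodule.smul_mem _ _ (Submodule.subset_span ⟨j, rfl⟩)

/-- the count for towers -/
theorem count_tower {r N : ℕ} {l : ℂ} (hl : l ≠ 0) (hal : Alg (Complex.exp l)) (β : Fin r → ℂ)
    (hβ : ∀ i, Alg (β i)) (hli : LinearIndependent ℚ (Fin.cons 1 β : Fin (r + 1) → ℂ))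
    (y : Fin N → ℂ) {H : ℕ} (hH : 1 ≤ H) (P : (Fin r → ℤ) → Prop)
    (hP : ∀ m, P m → ∃ (q : ℚ) (b : Fin N → ℂ), (∀ j, Alg (b j)) ∧ ∑ j, b j * y j ≠ 0 ∧
      Complex.exp ((q + ∑ i, m i * β i) * l) * ∑ j, b j * y j ∈ Lt) :
    {m : Fin r → ℤ | (∀ i, |m i| ≤ H) ∧ P m}.ncard ^ (N + 1) ≤ cst N r * H ^ (r * N) := by
  refine count (fun i => ex (β i * l)) (free_tower hl hal β hβ hli) y hH P fun m hm => ?_
  obtain ⟨q, b, hb, hb0, hbL⟩ := hP m hm
  have hq : Alg (Complex.exp (q * l)) := alg_rat hal q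
  have e : ∀ z : ℂ, ∑ j, (Complex.exp (q * l) * b j) * y j =
      Complex.exp (q * l) * ∑ j, b j * y j := fun _ => by
    rw [Finset.mul_sum]
    exact Finset.sum_congr rfl fun j _ => by ring
  refine ⟨fun j => Complex.exp (q * l) * b j, fun j => hq.mul (hb j), ?_, ?_⟩
  · rw [e 0]
    exact mul_ne_zero (Complex.exp_ne_zero _) hb0
  · rw [e 0, mon_ex]
    have e2 : Complex.exp ((q + ∑ i, (m i : ℂ) * β i) * l) =
        Complex.exp (∑ i, (m i : ℂ) * (β i * l)) * Complex.exp (q * l) := by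
      rw [← Complex.exp_add]
      congr 1
      rw [add_mul, Finset.sum_mul, add_comm]
      congr 1
      exact Finset.sum_congr rfl fun i _ => by ring
    rw [e2, mul_assoc] at hbL
    exact hbL

theorem sqrt_two_pow (x : ℝ) :
    ((Real.sqrt 2 ^ x : ℝ) : ℂ) = Complex.exp ((x : ℂ) * (Real.log (Real.sqrt 2) : ℝ)) := by
  have h : (0 : ℝ) < Real.sqrt 2 := Real.sqrt_pos.2 (by norm_num)
  rw [Real.rpow_def_of_pos h, Complex.ofReal_exp, Complex.ofReal_mul, mul_comm]

/-- **Main result.** -/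
theorem result :
    -- (1) arbitrary numbers
    (∀ r N : ℕ, ∃ C : ℕ, ∀ g : Fin r → ℂ, (∀ i, g i ≠ 0) →
      (∀ m : Fin r → ℤ, Alg (∏ i, g i ^ m i) → m = 0) → ∀ y : Fin N → ℂ, ∀ H : ℕ, 1 ≤ H →
      {m : Fin r → ℤ | (∀ i, |m i| ≤ H) ∧ ∃ b : Fin N → ℂ, (∀ j, Alg (b j)) ∧
        ∑ j, b j * y j ≠ 0 ∧ LinForm ((∏ i, g i ^ m i) * ∑ j, b j * y j)}.ncard ^ (N + 1) ≤
          C * H ^ (r * N)) ∧
    -- (2) towers over a finitely generated group of algebraic numbers
    (∀ r N : ℕ, ∃ C : ℕ, ∀ l : ℂ, l ≠ 0 → Alg (Complex.exp l) → ∀ β : Fin r → ℂ,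
      (∀ i, Alg (β i)) → LinearIndependent ℚ (Fin.cons 1 β : Fin (r + 1) → ℂ) →
      ∀ y : Fin N → ℂ, ∀ H : ℕ, 1 ≤ H →
      {m : Fin r → ℤ | (∀ i, |m i| ≤ H) ∧ ∃ (q : ℚ) (b : Fin N → ℂ), (∀ j, Alg (b j)) ∧
        ∑ j, b j * y j ≠ 0 ∧
        LinForm (Complex.exp ((q + ∑ i, m i * β i) * l) * ∑ j, b j * y j)}.ncard ^ (N + 1) ≤
          C * H ^ (r * N)) ∧
    -- (3) number fields
    (∀ (K : IntermediateField ℚ ℂ) [FiniteDimensional ℚ K], ∀ l : ℂ, l ≠ 0 →
      Alg (Complex.exp l) → ∀ s : ℂ, s ≠ 0 →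
      (∀ δ : ℂ, Alg δ → (∀ q : ℚ, δ ≠ q) → ∀ B : Finset ℂ, Incongruent B →
        (∀ β ∈ B, β ∈ K ∧ LinForm (s * Complex.exp (β * l)) ∧
          LinForm (s * Complex.exp ((β + δ) * l))) → B.card ≤ finrank ℚ K) ∧
      ∀ F B : Finset ℂ, B ⊆ F → (∀ β ∈ F, β ∈ K) → Incongruent B →
        (∀ β ∈ B, LinForm (s * Complex.exp (β * l))) →
        B.card * (B.card - 1) ≤ finrank ℚ K * ((F ×ˢ F).image (fun p => p.2 - p.1)).card) ∧
    -- (4) the towers of the problem
    (∀ r : ℕ, ∃ C : ℕ, ∀ β : Fin r → ℝ, (∀ i, IsAlgebraic ℚ (β i)) →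
      LinearIndependent ℚ (Fin.cons 1 β : Fin (r + 1) → ℝ) → ∀ H : ℕ, 1 ≤ H →
      {m : Fin r → ℤ | (∀ i, |m i| ≤ H) ∧ ∃ q : ℚ,
        IsAlgebraic ℚ (Real.sqrt 2 ^ (Real.sqrt 2 ^ ((q : ℝ) + ∑ i, m i * β i)))}.ncard ^ 2 ≤
          C * H ^ r) := by
  refine ⟨fun r N => ⟨cst N r, ?_⟩, fun r N => ⟨cst N r, ?_⟩, ?_, fun r => ⟨cst 1 r, ?_⟩⟩
  · intro g hg0 hg y H hH
    let g' : Fin r → ℂˣ := fun i => Units.mk0 (g i) (hg0 i)
    have hval : ∀ m : Fin r → ℤ, ((mon g' m : ℂˣ) : ℂ) = ∏ i, g i ^ m i := by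
      intro m
      rw [mon, Units.coe_prod]
      exact Finset.prod_congr rfl fun i _ => by
        rw [Units.val_zpow_eq_zpow_val]
        rfl
    refine count g' (fun m hm => hg m ?_) y hH _ ?_
    · rw [cst_iff, hval] at hm
      exact hm
    · rintro m ⟨b, hb, hb0, hbL⟩
      refine ⟨b, hb, hb0, ?_⟩
      rw [hval]
      exact hbL.mem
  · intro l hl hal β hβ hli y H hH
    refine count_tower hl hal β hβ hli y hH _ ?_
    rintro m ⟨q, b, hb, hb0, hbL⟩
    exact ⟨q, b, hb, hb0, hbL.mem⟩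
  · intro K _ l hl hal s hs
    refine ⟨fun δ hδ hδq B hinc hB => ?_, fun F B hBF hFK hinc hB => ?_⟩
    · exact card_pair K hl hal hs hδ hδq B (fun β hβ => (hB β hβ).1)
        (fun β hβ => ⟨(hB β hβ).2.1.mem, (hB β hβ).2.2.mem⟩) hinc
    · exact card_field K hl hal hs F B hBF hFK (fun β hβ => (hB β hβ).mem) hinc
  · intro β hβ hli H hH
    have hlog : (0 : ℝ) < Real.log (Real.sqrt 2) := by
      refine Real.log_pos ?_
      rw [Real.lt_sqrt (by norm_num)]
      norm_num
    have hl : ((Real.log (Real.sqrt 2) : ℝ) : ℂ) ≠ 0 := by exact_mod_cast hlog.ne'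
    have hal : Alg (Complex.exp ((Real.log (Real.sqrt 2) : ℝ) : ℂ)) := by
      have h := sqrt_two_pow 1
      rw [Real.rpow_one, Complex.ofReal_one, one_mul] at h
      rw [← h]
      have h2 : IsAlgebraic ℚ (((Real.sqrt 2 : ℝ) : ℂ) ^ 2) := by
        rw [← Complex.ofReal_pow, Real.sq_sqrt (by norm_num)]
        exact_mod_cast isAlgebraic_natCast (R := ℚ) (A := ℂ) 2
      exact h2.of_pow (by norm_num)
    have hli' : LinearIndependent ℚ (Fin.cons 1 (fun i => ((β i : ℝ) : ℂ)) : Fin (r + 1) → ℂ) := by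
      have h1 := hli.map' (Complex.ofRealAm.restrictScalars ℚ).toLinearMap
        (LinearMap.ker_eq_bot.2 Complex.ofReal_injective)
      have h2 : (Complex.ofRealAm.restrictScalars ℚ).toLinearMap ∘
          (Fin.cons 1 β : Fin (r + 1) → ℝ) = Fin.cons 1 (fun i => ((β i : ℝ) : ℂ)) := by
        funext i
        refine Fin.cases ?_ (fun i => ?_) i
        · simp
        · simp
      rwa [h2] at h1
    have key := count_tower (N := 1) hl hal (fun i => ((β i : ℝ) : ℂ))
      (fun i => (hβ i).algebraMap (A := ℂ)) hli'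
      (fun _ => ((Real.log (Real.sqrt 2) : ℝ) : ℂ)) hH
      (fun m => ∃ q : ℚ,
        IsAlgebraic ℚ (Real.sqrt 2 ^ (Real.sqrt 2 ^ ((q : ℝ) + ∑ i, m i * β i)))) (by
        rintro m ⟨q, hq⟩
        refine ⟨q, fun _ => 1, fun _ => isAlgebraic_one, ?_, ?_⟩
        · rw [Fin.sum_univ_one, one_mul]
          exact hl
        · rw [Fin.sum_univ_one, one_mul]
          have h1 : Alg ((Real.sqrt 2 ^ (Real.sqrt 2 ^ ((q : ℝ) + ∑ i, m i * β i)) : ℝ) : ℂ) :=
            hq.algebraMap (A := ℂ)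
          rw [sqrt_two_pow, sqrt_two_pow] at h1
          push_cast at h1
          exact Lt_log h1)
    rwa [mul_one] at key

end Pool.Agent.Results.MP_93d8d2_nt.AlgebraicExponents
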