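import Pool.Agent.Q64.FS.Spd

/-!
# Flat sequences of rational points in all dimensions

Let `k` be a countable subfield of `ℂ`, for instance a number field, and let `σ : k → F` be an
embedding in a locally compact normed field of characteristic zero (a place of `k`). A sequence of
points over `k` is `ε`-flat if the absolute values of its `i`-th differences at `0` are at most `ε i`
for all large `i`.

There is one positive function `ε` with the following two properties.

1. Let `V`, `V'` be affine varieties over `k`. If `g1 / g0` is constant along all polynomial curves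
in `V` and not in `V'`, over all extensions of `k`, then it is constant along all `ε`-flat sequences
of points over `k` in `V` and not in `V'`.

2. If the quasi-projective variety `X - D` over `k`, of any dimension, has a Zariski-dense `ε`-flat
sequence of points over `k`, then every quotient of forms over `k` which is constant along all
polynomial curves in `X - D` is constant.

3. Conversely, if `X - D` is dominated by a polynomial map over `k`, then for every positive function
`ε'` it has a Zariski-dense `ε'`-flat sequence of points over `k`.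
-/

set_option autoImplicit false

namespace Pool.Agent.Results.MP_9410e4_ag.FlatPointsAnyDimension

open MvPolynomial Pool.Agent.TH143.GT Pool.Agent.W602.GT Pool.Agent.W603.GR Pool.Agent.W603.PV
open Pool.Agent.Q64.LC Pool.Agent.Q64.FS

/-- There is a sequence of points over `k` of the variety of `p` off `Q = 0`, given by coordinate
vectors on which `Q` has a constant nonzero value, which is flat for `σ` with bound `ε` and
Zariski dense. -/
def FlatDense (k : Subfield ℂ) {F : Type} [NormedField F] (σ : k →+* F) (ε : ℕ → ℝ) {n : ℕ}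
    (p : Ideal (MvPolynomial (Fin (n + 1)) ℂ)) (Q : MvPolynomial (Fin (n + 1)) ℂ) : Prop :=
  ∃ x : ℕ → Fin (n + 1) → k, (∀ m, ∀ H ∈ p, eval (fun j => (x m j : ℂ)) H = 0) ∧
    (∃ c : ℂ, c ≠ 0 ∧ ∀ m, eval (fun j => (x m j : ℂ)) Q = c) ∧ FlatAt σ ε x ∧ SeqDense k p x

/-- The variety of `p` minus `Q = 0` is the closure of the image of a polynomial map over `k` with
values off `Q = 0`. -/
def Dominated (k : Subfield ℂ) {n : ℕ} (p : Ideal (MvPolynomial (Fin (n + 1)) ℂ))
    (Q : MvPolynomial (Fin (n + 1)) ℂ) : Prop :=
  ∃ (w : ℕ) (T : Fin (n + 1) → MvPolynomial (Fin w) k),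
    (∀ G ∈ p, aeval (fun j => MvPolynomial.map k.subtype (T j)) G = 0) ∧
    (∀ G : MvPolynomial (Fin (n + 1)) ℂ, IsForm G →
      aeval (fun j => MvPolynomial.map k.subtype (T j)) G = 0 → G ∈ p) ∧
    ∃ c : ℂ, c ≠ 0 ∧ aeval (fun j => MvPolynomial.map k.subtype (T j)) Q = C c

/-- The polynomial curve `T` over the extension `E` of `k` lies in the variety of `p` off `Q = 0`:
the polynomials over `k` in `p` vanish on it, and `Q` has a constant nonzero value. -/
def CurveIn (k : Subfield ℂ) {n : ℕ} (p : Ideal (MvPolynomial (Fin (n + 1)) ℂ))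
    (Q : MvPolynomial (Fin (n + 1)) k) (E : Type) [Field E] [Algebra k E]
    (T : Fin (n + 1) → Polynomial E) : Prop :=
  (∀ P : MvPolynomial (Fin (n + 1)) k, MvPolynomial.map k.subtype P ∈ p → aeval T P = 0) ∧
    ∃ e : E, e ≠ 0 ∧ aeval T Q = Polynomial.C e

lemma eval_sub {k : Subfield ℂ} {n : ℕ} (x : Fin n → k) (G : MvPolynomial (Fin n) k) :
    eval (fun j => (x j : ℂ)) (MvPolynomial.map k.subtype G) = ((eval x G : k) : ℂ) :=
  eval_map' k.subtype x G

theorem result (k : Subfield ℂ) [Countable k] (F : Type) [NormedField F] [ProperSpace F]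
    [CharZero F] (σ : k →+* F) :
    (∃ ε : ℕ → ℝ, (∀ s, 0 < ε s) ∧
      -- 1. affine varieties
      (∀ (n D : ℕ) (V V' : Set (MvPolynomial (Fin n) k)) (g1 g0 : MvPolynomial (Fin n) k), 1 ≤ D →
        (∀ P ∈ V, P.totalDegree ≤ D) →
        (∀ (E : Type) [Field E] [Algebra k E] (T : Fin n → Polynomial E),
          (∀ P ∈ V, aeval T P = 0) → (∃ P ∈ V', aeval T P ≠ 0) → ∀ s t : E,
          aeval (fun j => (T j).eval s) g1 * aeval (fun j => (T j).eval t) g0 =
            aeval (fun j => (T j).eval t) g1 * aeval (fun j => (T j).eval s) g0) →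
        ∀ x : ℕ → Fin n → k, (∀ m, ∀ P ∈ V, eval (x m) P = 0) →
          (∃ m, ∃ P ∈ V', eval (x m) P ≠ 0) → FlatAt σ ε x →
          ∀ s t, eval (x s) g1 * eval (x t) g0 = eval (x t) g1 * eval (x s) g0) ∧
      -- 2. dense sequences
      (∀ (n d : ℕ) (p : Ideal (MvPolynomial (Fin (n + 1)) ℂ)) (Q g1 g0 : MvPolynomial (Fin (n + 1)) k),
        g1.IsHomogeneous d → g0.IsHomogeneous d →
        (∀ (E : Type) [Field E] [Algebra k E] (T : Fin (n + 1) → Polynomial E),
          CurveIn k p Q E T → ∀ s t : E,
          aeval (fun j => (T j).eval s) g1 * aeval (fun j => (T j).eval t) g0 =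
            aeval (fun j => (T j).eval t) g1 * aeval (fun j => (T j).eval s) g0) →
        FlatDense k σ ε p (MvPolynomial.map k.subtype Q) →
        ∃ a b : k, (a ≠ 0 ∨ b ≠ 0) ∧ MvPolynomial.map k.subtype (C a * g1 - C b * g0) ∈ p)) ∧
    -- 3. the converse
    (∀ ε : ℕ → ℝ, (∀ s, 0 < ε s) → ∀ (n : ℕ) (p : Ideal (MvPolynomial (Fin (n + 1)) ℂ))
      (Q : MvPolynomial (Fin (n + 1)) ℂ), Dominated k p Q → FlatDense k σ ε p Q) := by
  refine ⟨?_, ?_⟩
  · obtain ⟨ε, h3, h4⟩ := const_of_curves σ
    refine ⟨ε, h3, ?_, ?_⟩
    · intro n D V V' g1 g0 hD hV hcur x hx hm hfl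
      exact h4 n D V V' g1 g0 hD hV hcur x hx hm hfl
    · intro n d p Q g1 g0 hg1 hg0 hcur hfd
      obtain ⟨x, hx1, ⟨c, hc0, hc⟩, hfl, hd⟩ := hfd
      -- the constant value of `Q` is in `k`
      set c₀ : k := eval (x 0) Q with hc₀
      have hcc : (c₀ : ℂ) = c := by rw [hc₀, ← eval_sub]; exact hc 0
      have hc₀0 : c₀ ≠ 0 := by
        intro h0
        apply hc0
        rw [← hcc, h0]
        rfl
      have hxQ : ∀ m, eval (x m) Q = c₀ := by
        intro m
        have h5 : ((eval (x m) Q : k) : ℂ) = (c₀ : ℂ) := by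
          rw [← eval_sub, hcc]
          exact hc m
        exact_mod_cast h5
      -- generators of the ideal over `k`
      obtain ⟨S, hS⟩ := (isNoetherianRing_iff_ideal_fg _).1 inferInstance
        (p.comap (MvPolynomial.map (σ := Fin (n + 1)) k.subtype))
      set V : Set (MvPolynomial (Fin (n + 1)) k) := (S : Set _) ∪ {Q - C c₀} with hVdef
      have hVfin : V.Finite := S.finite_toSet.union (Set.finite_singleton _)
      obtain ⟨D, hD⟩ := (hVfin.image MvPolynomial.totalDegree).bddAbove
      have hSp : ∀ P ∈ S, MvPolynomial.map k.subtype P ∈ p := by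
        intro P hP
        have h5 : P ∈ Ideal.span (S : Set (MvPolynomial (Fin (n + 1)) k)) := Ideal.subset_span hP
        rw [hS] at h5
        exact h5
      have h5 := h4 (n + 1) (max 1 D) V {1} g1 g0 (le_max_left _ _)
        (fun P hP => (hD ⟨P, hP, rfl⟩).trans (le_max_right _ _)) ?_ x ?_
        ⟨0, 1, rfl, by rw [map_one]; exact one_ne_zero⟩ hfl
      · -- from the identity to the conclusion
        by_cases h0 : ∃ t, eval (x t) g0 ≠ 0
        · obtain ⟨t, ht⟩ := h0
          refine ⟨eval (x t) g0, eval (x t) g1, Or.inl ht, hd _ ⟨d, ?_⟩ fun m => ?_⟩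
          · apply IsHomogeneous.map
            exact (hg1.C_mul _).sub (hg0.C_mul _)
          · rw [eval_sub]
            have h6 := h5 m t
            have h7 : eval (x m) (C (eval (x t) g0) * g1 - C (eval (x t) g1) * g0) = 0 := by
              rw [map_sub, map_mul, map_mul, eval_C, eval_C]
              linear_combination h6
            rw [h7]
            rfl
        · push Not at h0
          refine ⟨0, 1, Or.inr one_ne_zero, hd _ ⟨d, ?_⟩ fun m => ?_⟩
          · apply IsHomogeneous.map
            exact (hg1.C_mul _).sub (hg0.C_mul _)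
          · rw [eval_sub]
            have h7 : eval (x m) (C 0 * g1 - C 1 * g0) = 0 := by
              rw [map_sub, map_mul, map_mul, eval_C, eval_C, h0 m]
              ring
            rw [h7]
            rfl
      · intro E _ _ T hT _
        refine hcur E T ⟨fun P hP => ?_, ⟨algebraMap k E c₀, ?_, ?_⟩⟩
        · have h6 : P ∈ Ideal.span (S : Set (MvPolynomial (Fin (n + 1)) k)) := by
            rw [hS]; exact hP
          have h7 : Ideal.span (S : Set (MvPolynomial (Fin (n + 1)) k)) ≤
              RingHom.ker (aeval T : MvPolynomial (Fin (n + 1)) k →ₐ[k] Polynomial E) := by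
            rw [Ideal.span_le]
            intro G hG
            exact hT G (Or.inl hG)
          exact h7 h6
        · exact (map_ne_zero _).2 hc₀0
        · have h6 := hT (Q - C c₀) (Or.inr rfl)
          rw [map_sub, sub_eq_zero] at h6
          rw [h6, MvPolynomial.algHom_C]
          rfl
      · intro m P hP
        rcases hP with hP | hP
        · have h6 := hx1 m _ (hSp P hP)
          rw [eval_sub] at h6
          exact_mod_cast h6
        · rw [Set.mem_singleton_iff] at hP
          rw [hP, map_sub, hxQ, eval_C, sub_self]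
  · rintro ε hε n p Q ⟨w, T, hT, hd, c, hc0, hc⟩
    obtain ⟨x, -, h2, h3, h4, h5⟩ := dense_of_dom k σ hε T hT hd hc
    exact ⟨x, h2, ⟨c, hc0, h3⟩, h4, h5⟩

end Pool.Agent.Results.MP_9410e4_ag.FlatPointsAnyDimension
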