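import Pool.Agent.Q64.FS.Spd

/-!
# Zariski-dense flat sequences of rational points, special surfaces and unirational varieties

Let `k` be a countable subfield of `ℂ`, for instance a number field, and let `σ : k → F` be an
embedding in a locally compact normed field of characteristic zero (a place of `k`). A sequence of
points over `k` is `ε`-flat if the absolute values of its `i`-th differences at `0` are at most `ε i`
for all large `i`.

There is one positive function `ε` with the following properties.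

1. If a quasi-projective surface `X - D` over `k` (`D` the section of `X` by a hypersurface over `k`,
possibly empty) has a Zariski-dense `ε`-flat sequence of points over `k`, then `X - D` is special in
the sense of Campana, `X` is covered by rational curves and all logarithmic pluricanonical forms are
zero.

2. If `g1 / g0` is the quotient of two sections of a power of a subsheaf of rank one of a sheaf of
logarithmic forms, then every nonconstant `ε`-flat sequence lies in the closure of one polynomial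
curve in `X - D` or in one level set of `g1 / g0`.

3. In all dimensions: if `g1 / g0` is constant along all polynomial curves outside a closed subset,
then it is constant along all `ε`-flat sequences outside this closed subset.

4. Conversely, if `X - D`, of any dimension, is dominated by a polynomial map over `k`, then for every
positive function `ε'` it has a Zariski-dense `ε'`-flat sequence of points over `k`.
-/

set_option autoImplicit false

namespace Pool.Agent.Results.MP_9410e4_ag.FlatPotentialDensity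

open MvPolynomial Pool.Agent.TH143.GT Pool.Agent.W602.GT Pool.Agent.W603.GR Pool.Agent.W603.PV
open Pool.Agent.Q64.LC Pool.Agent.Q64.FS

/-- The surface `X - D` is special, `X` is covered by rational curves, and there are no nonzero
logarithmic pluricanonical forms. -/
def SpecialCovered {n : ℕ} (Q : MvPolynomial (Fin (n + 1)) ℂ) (q : ℕ) (K : Type) [Field K]
    [Algebra ℂ K] (y : Fin (n + 1) → K) : Prop :=
  Special ℂ K 2 (OffQ Q q y) ∧ Covered K ∧
    ∀ N : ℕ, 0 < N → ∀ ω : (Fin 2 → Derivation ℂ K K) → K, LogSec ℂ K 2 N (OffQ Q q y) ω → ω = 0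

/-- There is a sequence of points over `k` of the variety of `p` off `Q = 0`, given by coordinate
vectors on which `Q` has a constant nonzero value, which is flat for `σ` with bound `ε` and
Zariski dense. -/
def FlatDense (k : Subfield ℂ) {F : Type} [NormedField F] (σ : k →+* F) (ε : ℕ → ℝ) {n : ℕ}
    (p : Ideal (MvPolynomial (Fin (n + 1)) ℂ)) (Q : MvPolynomial (Fin (n + 1)) ℂ) : Prop :=
  ∃ x : ℕ → Fin (n + 1) → k, (∀ m, ∀ H ∈ p, eval (fun j => (x m j : ℂ)) H = 0) ∧
    (∃ c : ℂ, c ≠ 0 ∧ ∀ m, eval (fun j => (x m j : ℂ)) Q = c) ∧ FlatAt σ ε x ∧ SeqDense k p x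

/-- The variety of `p` minus `Q = 0` is the closure of the image of a polynomial map over `k` with
values off `Q = 0`. -/
def Dominated (k : Subfield ℂ) {n : ℕ} (p : Ideal (MvPolynomial (Fin (n + 1)) ℂ))
    (Q : MvPolynomial (Fin (n + 1)) ℂ) : Prop :=
  ∃ (w : ℕ) (T : Fin (n + 1) → MvPolynomial (Fin w) k),
    (∀ G ∈ p, aeval (fun j => MvPolynomial.map k.subtype (T j)) G = 0) ∧
    (∀ G : MvPolynomial (Fin (n + 1)) ℂ, IsForm G →
      aeval (fun j => MvPolynomial.map k.subtype (T j)) G = 0 → G ∈ p) ∧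
    ∃ c : ℂ, c ≠ 0 ∧ aeval (fun j => MvPolynomial.map k.subtype (T j)) Q = C c

theorem result (k : Subfield ℂ) [Countable k] (F : Type) [NormedField F] [ProperSpace F]
    [CharZero F] (σ : k →+* F) :
    (∃ ε : ℕ → ℝ, (∀ s, 0 < ε s) ∧
      -- surfaces
      (∀ (n : ℕ) (p : Ideal (MvPolynomial (Fin (n + 1)) ℂ)) (Q : MvPolynomial (Fin (n + 1)) ℂ)
        (q : ℕ), IsHomog p → Q.IsHomogeneous q → OverK k p → CoeffK k Q →
        ∀ (K : Type) [Field K] [Algebra ℂ K] (y : Fin (n + 1) → K), FunField p Q K 2 y →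
          (FlatDense k σ ε p Q → SpecialCovered Q q K y) ∧
          (∀ (d : ℕ) (g1 g0 : MvPolynomial (Fin (n + 1)) ℂ), g1.IsHomogeneous d →
            g0.IsHomogeneous d → CoeffK k g1 → CoeffK k g0 → g0 ∉ p →
            SheafQuot K 2 (OffQ Q q y) (W602.GT.val y g1 / W602.GT.val y g0) →
            ∀ x, SeqIn k p Q x → FlatAt σ ε x → SeqInPoly k p Q x ∨ SeqConst k g1 g0 x)) ∧
      -- all dimensions
      (∀ (n D : ℕ) (V V' : Set (MvPolynomial (Fin n) k)) (g1 g0 : MvPolynomial (Fin n) k), 1 ≤ D →
        (∀ P ∈ V, P.totalDegree ≤ D) →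
        (∀ (E : Type) [Field E] [Algebra k E] (T : Fin n → Polynomial E),
          (∀ P ∈ V, aeval T P = 0) → (∃ P ∈ V', aeval T P ≠ 0) → ∀ s t : E,
          aeval (fun j => (T j).eval s) g1 * aeval (fun j => (T j).eval t) g0 =
            aeval (fun j => (T j).eval t) g1 * aeval (fun j => (T j).eval s) g0) →
        ∀ x : ℕ → Fin n → k, (∀ m, ∀ P ∈ V, eval (x m) P = 0) →
          (∃ m, ∃ P ∈ V', eval (x m) P ≠ 0) → FlatAt σ ε x →
          ∀ s t, eval (x s) g1 * eval (x t) g0 = eval (x t) g1 * eval (x s) g0)) ∧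
    -- the converse
    (∀ ε : ℕ → ℝ, (∀ s, 0 < ε s) → ∀ (n : ℕ) (p : Ideal (MvPolynomial (Fin (n + 1)) ℂ))
      (Q : MvPolynomial (Fin (n + 1)) ℂ), Dominated k p Q → FlatDense k σ ε p Q) := by
  refine ⟨?_, ?_⟩
  · obtain ⟨ε₁, h1, h2⟩ := flat_special k σ
    obtain ⟨ε₂, h3, h4⟩ := const_of_curves σ
    refine ⟨fun s => min (ε₁ s) (ε₂ s), fun s => lt_min (h1 s) (h3 s), ?_, ?_⟩
    · intro n p Q q hp hQ hpk hQk K _ _ y hy
      refine ⟨fun hfd => ?_, fun d g1 g0 hg1 hg0 hk1 hk0 hg0p hr x hx hfl =>
        (h2 n p Q q hp hQ hpk hQk K y hy x hx (hfl.le 0 fun s _ => min_le_left _ _)).2.1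
          d g1 g0 hg1 hg0 hk1 hk0 hg0p hr⟩
      obtain ⟨x, hx1, hx2, hfl, hd⟩ := hfd
      obtain ⟨e1, -, e3⟩ := h2 n p Q q hp hQ hpk hQk K y hy x
        ⟨hx1, hx2, nc_of_dense hy (by norm_num) hd⟩ (hfl.le 0 fun s _ => min_le_left _ _)
      have h6 : ¬ NonNeg Q q 2 y := fun hnn => not_seqInPoly hy hd (e3 hnn)
      unfold NonNeg at h6
      push Not at h6
      exact ⟨e1 hd, h6.1, h6.2⟩
    · intro n D V V' g1 g0 hD hV hcur x hx hm hfl
      exact h4 n D V V' g1 g0 hD hV hcur x hx hm (hfl.le 0 fun s _ => min_le_right _ _)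
  · rintro ε hε n p Q ⟨w, T, hT, hd, c, hc0, hc⟩
    obtain ⟨x, -, h2, h3, h4, h5⟩ := dense_of_dom k σ hε T hT hd hc
    exact ⟨x, h2, ⟨c, hc0, h3⟩, h4, h5⟩

end Pool.Agent.Results.MP_9410e4_ag.FlatPotentialDensity
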