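import Mathlib
import Pool.Agent.Q133.WienerReal

set_option autoImplicit false

/-!
# The closure of the set of real Wiener roots of trees is `(-∞, 0]`
-/

open Polynomial

namespace Pool.Agent.Results.MP_9469ec_co.RealRootsDense

open Classical in
/-- The Wiener polynomial `W(G; x) = ∑ x^{d(u,v)}`, the sum over all unordered pairs `{u, v}` of
distinct vertices of `G`, where `d` is the graph distance. -/
noncomputable def wienerPoly {V : Type} [Fintype V] (G : SimpleGraph V) : ℝ[X] :=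
  ∑ e ∈ Finset.univ.filter (fun e : Sym2 V => ¬ e.IsDiag),
    X ^ (Sym2.lift ⟨G.dist, fun _ _ => G.dist_comm⟩ e)

/-- The set `R` of all real numbers that are Wiener roots of at least one finite tree with at least
two vertices. -/
def realTreeRoots : Set ℝ :=
  {x | ∃ (V : Type) (_ : Fintype V) (G : SimpleGraph V),
    2 ≤ Fintype.card V ∧ G.IsTree ∧ (wienerPoly G).eval x = 0}

theorem eval_eq {V : Type} [Fintype V] [DecidableEq V] (G : SimpleGraph V) (x : ℝ) :
    2 * (wienerPoly G).eval x = Q133.Wiener.Cat.W G x := by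
  classical
  have h1 := Q133.Wiener.two_mul_sum_sym2 (V := V)
      (fun e => (X : ℝ[X]) ^ (Sym2.lift ⟨G.dist, fun _ _ => G.dist_comm⟩ e))
  have h2 : (2 : ℝ[X]) * wienerPoly G = ∑ q ∈ (Finset.univ : Finset V).offDiag, X ^ (G.dist q.1 q.2) := by
    rw [two_mul, ← two_nsmul, wienerPoly]
    convert h1 using 1
    · congr!
    · refine Finset.sum_congr (by congr!) fun q _ => ?_
      rw [Sym2.lift_mk]
  have h3 := congrArg (Polynomial.eval x) h2
  rw [eval_mul, eval_finsetSum] at h3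
  rw [Q133.Wiener.Cat.W]
  simpa using h3

theorem mem_of_cat {L : ℕ} {c : ℕ → ℕ} (hL : 0 < L) (x : ℝ)
    (hcard : 2 ≤ Fintype.card (Q133.Wiener.Cat.CV L c))
    (h : Q133.Wiener.Cat.W (Q133.Wiener.Cat.T L c hL) x = 0) : x ∈ realTreeRoots := by
  refine ⟨_, inferInstance, Q133.Wiener.Cat.T L c hL, hcard, Q133.Wiener.Cat.T_tree L c hL, ?_⟩
  have := eval_eq (Q133.Wiener.Cat.T L c hL) x
  rw [h] at this
  linarith

/-- Real Wiener roots of trees in `(-1, 0)`. -/
theorem near_small (s0 δ : ℝ) (h0 : 0 < s0) (h1 : s0 < 1) (hδ : 0 < δ) :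
    ∃ x ∈ realTreeRoots, |x - (-s0)| < δ := by
  obtain ⟨L, m, hL, x, hm, hx1, hx2, hx⟩ := Q133.Wiener.Cat.broom_root s0 (max (s0 - δ) (s0 / 2))
    (min (s0 + δ) ((s0 + 1) / 2)) (lt_max_of_lt_right (by linarith)) (max_lt (by linarith) (by linarith))
    (lt_min (by linarith) (by linarith)) (min_lt_of_right_lt (by linarith))
  refine ⟨x, mem_of_cat hL x ?_ hx, ?_⟩
  · rw [Fintype.card_sigma]
    have h2 : Fintype.card (Fin ((if ((⟨0, hL⟩ : Fin L) : ℕ) = 0 then m else 0) + 1)) ≤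
        ∑ i : Fin L, Fintype.card (Fin ((if (i : ℕ) = 0 then m else 0) + 1)) :=
      Finset.single_le_sum (f := fun i : Fin L => Fintype.card (Fin ((if (i : ℕ) = 0 then m else 0) + 1)))
        (fun _ _ => Nat.zero_le _) (Finset.mem_univ _)
    simp only [if_true, Fintype.card_fin] at h2
    simp only [Fintype.card_fin]
    omega
  · have h2 : s0 - δ ≤ max (s0 - δ) (s0 / 2) := le_max_left _ _
    have h3 : min (s0 + δ) ((s0 + 1) / 2) ≤ s0 + δ := min_le_left _ _
    rw [abs_lt]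
    constructor <;> linarith

/-- Real Wiener roots of trees in `(-∞, -1)`. -/
theorem near_large (s0 δ : ℝ) (h1 : 1 < s0) (hδ : 0 < δ) :
    ∃ x ∈ realTreeRoots, |x - (-s0)| < δ := by
  set s1 : ℝ := max (s0 - δ) ((s0 + 1) / 2) with hs1
  set s2 : ℝ := s0 + δ with hs2
  have hs1' : 1 < s1 := lt_max_of_lt_right (by linarith)
  have hs10 : s1 < s0 := max_lt (by linarith) (by linarith)
  have hlt : s1 + √(s1 ^ 2 - 1) < s2 + √(s2 ^ 2 - 1) := by
    have : √(s1 ^ 2 - 1) ≤ √(s2 ^ 2 - 1) := Real.sqrt_le_sqrt (by nlinarith)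
    linarith
  obtain ⟨t, ht1, ht2⟩ := exists_rat_btwn hlt
  have hq1 : √(s1 ^ 2 - 1) ^ 2 = s1 ^ 2 - 1 := Real.sq_sqrt (by nlinarith)
  have hq2 : √(s2 ^ 2 - 1) ^ 2 = s2 ^ 2 - 1 := Real.sq_sqrt (by nlinarith)
  have hr1 : 0 ≤ √(s1 ^ 2 - 1) := Real.sqrt_nonneg _
  have hr2 : 0 ≤ √(s2 ^ 2 - 1) := Real.sqrt_nonneg _
  have ht0 : (1 : ℝ) < t := by linarith
  have hA : 2 * (t : ℝ) * s1 < (t : ℝ) ^ 2 + 1 := by nlinarith
  have hs2m : s2 - √(s2 ^ 2 - 1) ≤ 1 := by
    have : s2 - 1 ≤ √(s2 ^ 2 - 1) := by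
      apply Real.le_sqrt_of_sq_le
      nlinarith
    linarith
  have hB : (t : ℝ) ^ 2 + 1 < 2 * t * s2 := by nlinarith
  have htq : 0 < t := by exact_mod_cast (lt_trans zero_lt_one ht0)
  set p : ℕ := t.num.toNat with hp
  set q : ℕ := t.den with hq
  have hnum : 0 < t.num := Rat.num_pos.mpr htq
  have hp1 : 1 ≤ p := by omega
  have hq1' : 1 ≤ q := t.den_pos
  have hqr : (0 : ℝ) < q := by exact_mod_cast hq1'
  have hpt : (p : ℝ) = t * q := by
    have h4 : (p : ℝ) = (t.num : ℝ) := by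
      have : ((t.num.toNat : ℤ) : ℝ) = (t.num : ℝ) := by rw [Int.toNat_of_nonneg hnum.le]
      exact_mod_cast this
    rw [h4]
    exact_mod_cast (Rat.mul_den_eq_num t).symm
  obtain ⟨a, b, x, hx1, hx2, hx⟩ := Q133.Wiener.Cat.double_root p q hp1 hq1' s1 s2 (by linarith)
    (by rw [hpt]; nlinarith [mul_pos hqr hqr]) (by rw [hpt]; nlinarith [mul_pos hqr hqr]) (by linarith)
  refine ⟨x, mem_of_cat (by norm_num) x ?_ hx, ?_⟩
  · rw [Fintype.card_sigma, Fin.sum_univ_two]
    simp only [Fintype.card_fin]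
    omega
  · have h2 : s0 - δ ≤ s1 := le_max_left _ _
    rw [abs_lt]
    constructor <;> linarith

/-- **Theorem.** The closure of the set of all real Wiener roots of trees is `(-∞, 0]`. -/
theorem result : closure realTreeRoots = Set.Iic (0 : ℝ) := by
  apply Set.Subset.antisymm
  · classical
    refine closure_minimal ?_ isClosed_Iic
    rintro x ⟨V, hV, G, hcard, _, hx⟩
    rw [Set.mem_Iic]
    by_contra hpos
    push Not at hpos
    rw [wienerPoly, eval_finsetSum] at hx
    have hne : ∃ u v : V, u ≠ v := by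
      have : Nontrivial V := Fintype.one_lt_card_iff_nontrivial.mp (by omega)
      exact exists_pair_ne V
    obtain ⟨u, v, huv⟩ := hne
    have : 0 < ∑ e ∈ Finset.univ.filter (fun e : Sym2 V => ¬ e.IsDiag),
        eval x ((X : ℝ[X]) ^ (Sym2.lift ⟨G.dist, fun _ _ => G.dist_comm⟩ e)) := by
      refine Finset.sum_pos (fun e _ => ?_) ⟨s(u, v), ?_⟩
      · rw [eval_pow, eval_X]; positivity
      · simp [huv]
    have hx' : ∑ e ∈ Finset.univ.filter (fun e : Sym2 V => ¬ e.IsDiag),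
        eval x ((X : ℝ[X]) ^ (Sym2.lift ⟨G.dist, fun _ _ => G.dist_comm⟩ e)) = 0 := by
      rw [← hx]
    rw [hx'] at this
    exact lt_irrefl _ this
  · intro w hw
    rw [Set.mem_Iic] at hw
    rw [Metric.mem_closure_iff]
    intro ε hε
    obtain ⟨w', hw'0, hw'1, hww'⟩ : ∃ w' : ℝ, w' < 0 ∧ w' ≠ -1 ∧ |w - w'| < ε / 2 + ε / 4 := by
      by_cases h : w - ε / 2 = -1
      · refine ⟨w - ε / 4, by linarith, by intro h'; linarith, ?_⟩
        rw [abs_lt]; constructor <;> linarith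
      · refine ⟨w - ε / 2, by linarith, h, ?_⟩
        rw [abs_lt]; constructor <;> linarith
    have key : ∃ x ∈ realTreeRoots, |x - w'| < ε / 4 := by
      rcases lt_or_gt_of_ne hw'1 with h | h
      · have := near_large (-w') (ε / 4) (by linarith) (by positivity)
        simpa using this
      · have := near_small (-w') (ε / 4) (by linarith) (by linarith) (by positivity)
        simpa using this
    obtain ⟨x, hx, hxw⟩ := key
    refine ⟨x, hx, ?_⟩
    rw [Real.dist_eq]
    rw [abs_lt] at *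
    constructor <;> linarith

end Pool.Agent.Results.MP_9469ec_co.RealRootsDense
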