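import Pool.Agent.Q162.LG.At

set_option autoImplicit false

/-!
# The Atiyah conjecture for torsion-free groups and spectral gaps

An integer matrix over a torsion-free group whose norm is at most `3 / √2 + 2 ^ -(16 K + 31)` and whose
spectrum has a gap `(0, 1 / K)` at zero has an integral kernel dimension, and so has every complex matrix
with the same support. The dependence on the gap is optimal up to the constants: every
integer matrix with a spectral gap can be replaced, for each `L`, by one with the same kernel
dimension, norm at most `3 / √2 + 2 ^ -L`, and size and inverse gap linear in `L`. So the conjecture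
for all integer matrices with a spectral gap is a statement about this logarithmic scale.
-/

noncomputable section

namespace Pool.Agent.Results.MP_95030e_al.GapLaw

open TH57.Thr

/-- The kernel of right multiplication by the matrix `A` on `ℓ²(G)^m`. -/
def kernel {G : Type} [Group G] {m n : ℕ} (A : Matrix (Fin m) (Fin n) (G →₀ ℂ)) :
    Set (lp (fun _ : Fin m × G => ℂ) 2) :=
  {x | ∀ (j : Fin n) (g : G),
    ∑ i : Fin m, (A i j).sum (fun h c => x (i, g * h⁻¹) * c) = 0}

open Classical in
/-- The von Neumann dimension of this kernel: the sum over `i` of one minus the squared distance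
from the basis vector at `(i, 1)` to the kernel, that is, the trace of the projection onto the
kernel. -/
def kerDim {G : Type} [Group G] {m n : ℕ} (A : Matrix (Fin m) (Fin n) (G →₀ ℂ)) : ℝ :=
  ∑ i : Fin m, (1 - (Metric.infDist
    (lp.single 2 (i, (1 : G)) (1 : ℂ) : lp (fun _ : Fin m × G => ℂ) 2) (kernel A)) ^ 2)

/-- An integer matrix as a complex matrix. -/
def complex {G : Type} [Group G] {m n : ℕ} (N : Matrix (Fin m) (Fin n) (MonoidAlgebra ℤ G)) :
    Matrix (Fin m) (Fin n) (G →₀ ℂ) :=
  fun i j => (N i j).coeff.mapRange (fun z : ℤ => (z : ℂ)) Int.cast_zero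

/-- `G` is torsion-free. -/
def TorsionFree (G : Type) [Group G] : Prop := ∀ g : G, ∀ n : ℕ, 0 < n → g ^ n = 1 → g = 1

/-- **Spectral gap at zero.** Every finitely supported real row vector `x` is within distance
`√(D |x N|²)` of the kernel of `N` on `ℓ²`, approximated by finitely supported vectors `x'`; that is, the
spectrum of `N N*` is contained in `{0} ∪ [1 / D, ∞)`. Here `normSq` is the squared `ℓ²`-norm and
`x ᵥ* toReal N` is the row vector `x N`. -/
def Gapped {G : Type} [Group G] {m n : ℕ} (N : Matrix (Fin m) (Fin n) (MonoidAlgebra ℤ G))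
    (D : ℝ) : Prop :=
  ∀ (x : Fin m → MonoidAlgebra ℝ G) (ε : ℝ), 0 < ε → ∃ x' : Fin m → MonoidAlgebra ℝ G,
    normSq (Matrix.vecMul x' (toReal N)) ≤ ε ∧
      normSq (x - x') ≤ D * normSq (Matrix.vecMul x (toReal N)) + ε

/-- `N` has a generalised inverse `Y` over the integral group ring of norm at most `K`, for example
an inverse, or a left or right inverse. -/
def GenInverse {G : Type} [Group G] {m n : ℕ} (N : Matrix (Fin m) (Fin n) (MonoidAlgebra ℤ G))
    (K : ℝ) : Prop :=
  ∃ Y : Matrix (Fin n) (Fin m) (MonoidAlgebra ℤ G), N * Y * N = N ∧ NormLE Y K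

/-- `NormLE N c` (from `Pool.Agent.TH57.Thr.Defs`): right multiplication by `N` on `ℓ²` has norm at
most `|c|`.

1. Let `G` be torsion-free, let `N` be an integer matrix, `K` a natural number. Assume that `N` has
   spectral gap `1 / K²` (for `N N*`) or a generalised inverse of norm at most `K`, and that the norm of
   `N` is at most `3 / √2 + 2 ^ -(16 K + 31)`. Then the kernel dimension of every complex matrix `A` which
   is supported in the support of `N`, for example `A = N`, is an integer.
2. So if some complex matrix supported in the support of `N` has a kernel dimension which is not an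
   integer, then `L < 16 K + 31` whenever the norm of `N` is at most `3 / √2 + 2 ^ -L` and `K` is as in (1).
3. For every group and every integer matrix `A` there is a constant `C` such that for every `L ≥ 1` some
   integer matrix `B` with at most `C L` more rows and columns and norm at most `3 / √2 + 2 ^ -L` has the
   same kernel dimension; if `A A*` has a spectral gap `1 / D`, then `B B*` has a spectral
   gap `1 / (C (D + 1) L²)`, and if `A` has a generalised inverse of norm at most `K`, then `B` has one of
   norm at most `C (K + 1) L`.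
4. For every torsion-free group the following are equivalent: all integer matrices with a spectral
   gap have integral kernel dimension; for every `k` there is one `L ≥ 1` such that the kernel dimension is an
   integer for all integer matrices `N` with at most `k L` rows and columns, norm at most
   `3 / √2 + 2 ^ -L` and spectral gap `1 / (k L)²` for which in addition `min(m, n) > (L - 30) / 2` and
   `K > (L - 31) / 16` for all natural numbers `K` such that `N` has spectral gap `1 / K²` or a generalised
   inverse of norm at most `K`. -/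
theorem result :
    (∀ (G : Type) [Group G], TorsionFree G →
      ∀ (m n K : ℕ) (N : Matrix (Fin m) (Fin n) (MonoidAlgebra ℤ G)),
      (Gapped N ((K : ℝ) ^ 2) ∨ GenInverse N K) →
      NormLE N (3 / Real.sqrt 2 + (1 / 2) ^ (16 * K + 31)) →
      ∀ A : Matrix (Fin m) (Fin n) (G →₀ ℂ),
        (∀ i j g, A i j g ≠ 0 → (N i j).coeff g ≠ 0) → ∃ z : ℤ, kerDim A = z) ∧
    (∀ (G : Type) [Group G], TorsionFree G →
      ∀ (m n : ℕ) (N : Matrix (Fin m) (Fin n) (MonoidAlgebra ℤ G)),
      (∃ A : Matrix (Fin m) (Fin n) (G →₀ ℂ),
        (∀ i j g, A i j g ≠ 0 → (N i j).coeff g ≠ 0) ∧ ¬ ∃ z : ℤ, kerDim A = z) →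
      ∀ L K : ℕ, NormLE N (3 / Real.sqrt 2 + (1 / 2) ^ L) →
        (Gapped N ((K : ℝ) ^ 2) ∨ GenInverse N K) → L < 16 * K + 31) ∧
    (∀ (G : Type) [Group G] (m n : ℕ) (A : Matrix (Fin m) (Fin n) (MonoidAlgebra ℤ G)),
      ∃ C : ℕ, ∀ L : ℕ, 1 ≤ L →
        ∃ (k : ℕ) (B : Matrix (Fin (m + k)) (Fin (n + k)) (MonoidAlgebra ℤ G)),
          k ≤ C * L ∧ NormLE B (3 / Real.sqrt 2 + (1 / 2) ^ L) ∧
          kerDim (complex B) = kerDim (complex A) ∧
          (∀ D : ℝ, 0 ≤ D → Gapped A D → Gapped B (C * (D + 1) * L ^ 2)) ∧
          (∀ K : ℝ, 0 ≤ K → GenInverse A K → GenInverse B (C * (K + 1) * L))) ∧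
    (∀ (G : Type) [Group G], TorsionFree G →
      ((∀ (m n : ℕ) (N : Matrix (Fin m) (Fin n) (MonoidAlgebra ℤ G)), (∃ D : ℝ, Gapped N D) →
        ∃ z : ℤ, kerDim (complex N) = z) ↔
      ∀ k : ℕ, ∃ L : ℕ, 1 ≤ L ∧
        ∀ (m n : ℕ) (N : Matrix (Fin m) (Fin n) (MonoidAlgebra ℤ G)), m ≤ k * L → n ≤ k * L →
          NormLE N (3 / Real.sqrt 2 + (1 / 2) ^ L) → Gapped N (((k * L : ℕ) : ℝ) ^ 2) →
          L < 2 * min m n + 30 →
          (∀ K : ℕ, Gapped N ((K : ℝ) ^ 2) ∨ GenInverse N K → L < 16 * K + 31) →
          ∃ z : ℤ, kerDim (complex N) = z)) := by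
  refine ⟨?_, ?_, ?_, ?_⟩
  · intro G _ hG m n K N hK hN A hA
    exact Pool.Agent.Q162.LG.gap_law hG K N hK hN A hA
  · rintro G _ hG m n N ⟨A, hA, hne⟩ L K hN hK
    by_contra h
    exact hne (Pool.Agent.Q162.LG.win_law hG L N hN (Or.inr ⟨K, by omega, hK⟩) A hA)
  · intro G _ m n A
    exact Pool.Agent.Q162.LG.small A
  · intro G _ hG
    exact Pool.Agent.Q162.LG.windows_tf hG

end Pool.Agent.Results.MP_95030e_al.GapLaw
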