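import Pool.Agent.H180.FF.Fin
import Pool.Agent.Q34.FF.DistM
import Pool.Agent.Q34.FF.ValSqM
import Pool.Agent.Q34.FF.EvM
import Pool.Agent.Q14.FF.Lift
import Pool.Agent.Q169.RS.Conics
import Pool.Agent.Q190.FF.HodgeF
import Pool.Agent.Q190.FF.DensF

/-!
# Tate's conjecture for all products of diagonal hypersurfaces of degree `p ^ a q ^ b` over finite fields

Let `m = p ^ a q ^ b` be odd with two prime factors `p ≠ q`, `q = 1` modulo `4`, `p` a square modulo
`q`. Then there are integers `x, y, z` with `x² - p* y² = q z²`, `x, y` coprime, `z ≠ 0`. Let `ℓ` be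
a prime which is `1` modulo `8 m`, does not divide `z`, and for which `x + y √p*` is not a square
modulo `ℓ` (its quadratic residue symbol, a symbol of Redei, does not depend on the choice of the
square root of `p*` modulo `ℓ`). These primes have the natural density `1 / (2 φ(8 m))`; they are one
half of the primes `1` modulo `8 m`.

Let `F` be a field with `ℓ ^ k` elements, `k` odd. The cohomology of a diagonal hypersurface
`∑ c_i x_i ^ m = 0` over `F`, and of a product of such hypersurfaces, is a sum of lines `V(s)` stable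
under the Frobenius endomorphism (Weil); the line of the primitive cohomology attached to nonzero
residues `a_i` with sum zero has the character `s = {(a_i, c_i)}`, the character of a tensor product
of lines is the union, and the Frobenius endomorphism acts on `V(s)` as
`± q_F ^ (-t) ∏ g(χ ^ a_i) / χ ^ a_i (c_i)`, where `χ` is a fixed character of order `m` of `F`,
`q_F = ℓ ^ k` and `t` is the number of factors. So `V(s)` consists of Tate classes over `F` if and
only if `∏ g(χ ^ a_i) = q_F ^ (|s| / 2) ∏ χ ^ a_i (c_i)` (`IsTate`). Let `A` be the family of the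
multisets of residues for which the line over an algebraic closure of `F` is spanned by an algebraic
class (a line of Tate classes over `F` with this property is spanned by the class of a cycle over
`F`). The family `A` is `Admissible` (Shioda, Katsura, Aoki; members are Hodge characters by the
theorem of Stickelberger, since `ℓ` is `1` modulo `m`).

The theorem: every Tate character over `F` is in `A`. So the conjecture of Tate holds for all products
of diagonal hypersurfaces of degree `m` over `F`, in all codimensions. The Frobenius endomorphism acts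
on these cohomology groups in a semisimple way, and the motives of these varieties are of
abelian type, so rational and numerical equivalence coincide on them (Kahn).

Reason: up to standard ones there is one exotic class of degree `m`, and the Frobenius
endomorphism acts on it by the sign `-1`. This sign is computed by the reduction of the product of
Gauss sums modulo a prime over `q` and the reciprocity law of Redei.
-/

namespace Pool.Agent.Results.MP_950c68_ag.DiagonalTwoPrimes

open Filter Topology Pool.Agent.H916R2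

/-- The closure properties of the family of the characters of algebraic classes on the Fermat
varieties of odd degree `m`, in characteristic zero or `ℓ`, where `ℓ` is `1` modulo `m`. -/
structure Admissible (m : ℕ) (A : Multiset (ZMod m) → Prop) : Prop where
  /-- members are Hodge characters -/
  hodge : ∀ s, A s → IsHodge m s
  /-- conjugation -/
  neg : ∀ s, A s → A (s.map fun a => -a)
  /-- pairs -/
  pair : ∀ a : ZMod m, a ≠ 0 → A {a, -a}
  /-- standard characters -/
  standard : ∀ p : ℕ, p.Prime → p ≠ 2 → p ∣ m → ∀ a : ZMod m, (p : ZMod m) * a ≠ 0 →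
    A (-((p : ZMod m) * a) ::ₘ
      (Multiset.range p).map fun i : ℕ => a + (i : ZMod m) * ((m / p : ℕ) : ZMod m))
  /-- closed under union -/
  join : ∀ s t, A s → A t → A (s + t)
  /-- closed under removal of a pair -/
  cancel : ∀ a s, A (a ::ₘ -a ::ₘ s) → A s

/-- `p* = ± p`, congruent to `1` modulo `4`, for an odd prime `p` -/
def pstar (p : ℕ) : ℤ := if p % 4 = 1 then (p : ℤ) else -(p : ℤ)

/-- a point of the conic `x² - p* y² = q z²` -/
def ConicPoint (p q : ℕ) (x y z : ℤ) : Prop :=
  IsCoprime x y ∧ z ≠ 0 ∧ x ^ 2 - pstar p * y ^ 2 = q * z ^ 2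

/-- The prime `ℓ` is `1` modulo `8 m`, does not divide `z`, and `x + y r` is not a square modulo `ℓ` for
a square root `r` of `p*` modulo `ℓ`. -/
def Negative (m p : ℕ) (x y z : ℤ) (ℓ : ℕ) : Prop :=
  ℓ.Prime ∧ 8 * m ∣ ℓ - 1 ∧ ¬ (ℓ : ℤ) ∣ z ∧
    ∀ r : ZMod ℓ, r ^ 2 = (pstar p : ZMod ℓ) → ¬ IsSquare ((x : ZMod ℓ) + y * r)

/-- The line with the character `s = {(a_i, c_i)}`, `a_i` nonzero with sum zero, `c_i` nonzero, consists
of Tate classes over `F`: `∏ g(χ ^ a_i) = q ^ (|s| / 2) * ∏ χ ^ a_i (c_i)`, `q` the number of elements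
of `F`. -/
structure IsTate (m : ℕ) {F : Type} [Field F] [Fintype F] (χ : MulChar F ℂ) (ψ : AddChar F ℂ)
    (s : Multiset (ZMod m × F)) : Prop where
  ne_zero : ∀ z ∈ s, z.1 ≠ 0 ∧ z.2 ≠ 0
  sum : (s.map Prod.fst).sum = 0
  frobenius : (s.map fun z => gaussSum (χ ^ z.1.val) ψ).prod =
    (Fintype.card F : ℂ) ^ (Multiset.card s / 2) * (s.map fun z => (χ ^ z.1.val) z.2).prod

/-- **The conjecture of Tate for products of diagonal hypersurfaces of degree `p ^ a q ^ b`.** -/
theorem result (p q m : ℕ) (hm : Odd m) (hpm : m.primeFactors = {p, q}) (hpq : p ≠ q)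
    (hq : q % 4 = 1) (hp : IsSquare ((p : ℕ) : ZMod q)) :
    (∃ x y z : ℤ, ConicPoint p q x y z) ∧ ∀ x y z : ℤ, ConicPoint p q x y z →
      Tendsto (fun N : ℕ => (Nat.card {ℓ : ℕ // ℓ ≤ N ∧ Negative m p x y z ℓ} : ℝ) /
        (Nat.primeCounting N : ℝ)) atTop (𝓝 (1 / (2 * (Nat.totient (8 * m) : ℝ)))) ∧
      ∀ ℓ : ℕ, Negative m p x y z ℓ → ∀ k : ℕ, Odd k →
        ∀ (F : Type) [Field F] [Fintype F], Fintype.card F = ℓ ^ k →
        ∀ (χ : MulChar F ℂ) (ψ : AddChar F ℂ), orderOf χ = m → ψ ≠ 1 →
        ∀ A : Multiset (ZMod m) → Prop, Admissible m A →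
        ∀ s : Multiset (ZMod m × F), IsTate m χ ψ s → A (s.map Prod.fst) := by
  have hp' : p ∈ m.primeFactors := by rw [hpm]; exact Finset.mem_insert_self _ _
  have hq' : q ∈ m.primeFactors := by
    rw [hpm]; exact Finset.mem_insert_of_mem (Finset.mem_singleton_self _)
  have hpp := Nat.prime_of_mem_primeFactors hp'
  have hqq := Nat.prime_of_mem_primeFactors hq'
  have hpd := Nat.dvd_of_mem_primeFactors hp'
  have hqd := Nat.dvd_of_mem_primeFactors hq'
  have hm0 : m ≠ 0 := by
    rintro rfl
    simp at hp'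
  have : NeZero m := ⟨hm0⟩
  have hp2 := Pool.Agent.Q6.RS.ne_two_of_dvd hm hpd
  refine ⟨Pool.Agent.Q169.RS.con.2.1 p q hpp hqq hp2 hpq hq hp, ?_⟩
  rintro x y z ⟨hxy, hz, hN⟩
  refine ⟨Pool.Agent.Q190.FF.densF m p q hm hpp hqq hpq hpd hqd hq x y z hxy hz hN, ?_⟩
  intro ℓ hℓ k hk F _ _ hF χ ψ hχ hψ A hA s hs
  have : Fact ℓ.Prime := ⟨hℓ.1⟩
  have hAd : Pool.Agent.Q59.RL.Adm m A :=
    ⟨hA.hodge, hA.neg, hA.pair, hA.standard, fun h => absurd (even_iff_two_dvd.mpr h)
      (Nat.not_even_iff_odd.mpr hm), hA.join, hA.cancel⟩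
  exact Pool.Agent.H180.FF.tate_ff Pool.Agent.Q34.FF.distM Pool.Agent.Q34.FF.valM
    Pool.Agent.Q34.FF.sqM Pool.Agent.Q34.FF.evM' Pool.Agent.Q190.FF.hodgeF
    Pool.Agent.Q14.FF.lift hm hpm hpq hq hp
    hxy hz hN hℓ hAd hk hF hψ hχ hs.ne_zero hs.sum hs.frobenius

end Pool.Agent.Results.MP_950c68_ag.DiagonalTwoPrimes
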