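import Pool.Agent.Q59.OT.Main

/-!
# Tate and Hodge classes on Fermat varieties when the characteristic has odd order

Let `X` be the Fermat variety `x_0 ^ m + ... + x_(n+1) ^ m = 0` over the algebraic closure of the
field with `p` elements, `p` not dividing `m`, and let `f` be the order of `p` modulo `m`. Its
primitive cohomology is the sum of the lines `V(s)` of the multisets `s` of `n + 2` nonzero residues
modulo `m` with sum zero; a power of the Frobenius acts on `V(s)` as the expected power of `p` if and
only if `s` is a Tate character (Weil, Stickelberger). In characteristic zero `V(s)` consists of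
Hodge classes if and only if `s` is a Hodge character (Shioda, Katsura).

The characters with algebraic lines form an admissible family (Shioda, Katsura, Aoki; Tate's theorem
for Fermat surfaces), and contain the Hodge characters with algebraic lines in characteristic zero
(specialization of algebraic cycles), in particular those which are `AlgebraicLine` (see
`FermatLargePrimes`).

The theorem. Let `f` be odd, and let `s` be a Tate character. The union `U` of the Frobenius conjugates
`s, p s, ..., p ^ (f - 1) s` is a Hodge character, and for every admissible family `A` the character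
`s` belongs to `A` if and only if `U` does. So if `f` is odd, the Hodge conjecture for the complex
Fermat varieties of degree `m` implies the Tate conjecture for those of degree `m` in characteristic
`p`. Moreover the line of `s` is algebraic if `m = m1 * m2`, where `m1` is a product of powers of
`2, 3, 5`, or of `2, 3, 7`, or `2, 5, 7`, or `2, 3, 11`, or `2, 3, 13`, or not divisible by 4 and a
product of powers of `2, 3, 5, 7`, or `2, 3, 17`, or `2, 3, 19`, or (twice) a prime power, and for
every prime `q` dividing `m2` we have `q ≥ 5` and one of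

* `2 * f * weight q s < q - 1`;
* `4` does not divide `m`, `f * weight q s < q - 1`, and `3` does not divide `m` or
  `q` is `11`, `13`, `17` or `19`,

`weight q s` being the number of the entries of `s` of order divisible by `q`, those of order `2` modulo
`4` counted twice. For instance the Tate conjecture holds for the Fermat varieties of dimension `n` and
odd degree `m1 * m2` over all finite fields of characteristic `p` if `f` is odd and all primes
dividing `m2` are greater than `2 f (n + 2) + 1`.
-/

namespace Pool.Agent.Results.MP_950c68_ag.FermatOddOrder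

open Pool.Agent.H916T Pool.Agent.Y2.Cv

/-- The closure properties of the families of the characters of algebraic classes in characteristic
`p`. -/
structure Admissible (p : ℕ) (A : ∀ M : ℕ, Multiset (ZMod M) → Prop) : Prop where
  /-- members are Tate characters -/
  tate : ∀ M, 0 < M → p.Coprime M → ∀ s, A M s → IsTate p M s
  /-- duality -/
  neg : ∀ M, 0 < M → p.Coprime M → ∀ s, A M s → A M (s.map fun a => -a)
  /-- pairs -/
  pair : ∀ M, 0 < M → p.Coprime M → ∀ a : ZMod M, a ≠ 0 → A M {a, -a}
  /-- surfaces -/
  surface : ∀ M, 0 < M → p.Coprime M → ∀ s, SurfaceTate p M s → A M s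
  /-- standard characters -/
  standard : ∀ M, 0 < M → p.Coprime M → ∀ q : ℕ, q.Prime → q ∣ M → ∀ s, Standard q M s → A M s
  /-- closed under union -/
  join : ∀ M, 0 < M → p.Coprime M → ∀ s t, A M s → A M t → A M (s + t)
  /-- closed under removal of a pair -/
  cancel : ∀ M, 0 < M → p.Coprime M → ∀ a s, A M (a ::ₘ -a ::ₘ s) → A M s
  /-- descent of the degree -/
  descend : ∀ M N, 0 < M → 0 < N → p.Coprime M → p.Coprime N → ∀ s : Multiset (ZMod M),
    A (N * M) (s.map fun a => ((N * a.val : ℕ) : ZMod (N * M))) → A M s

/-- Membership in the family of Hodge characters generated by the pairs, the standard characters, the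
characters with four entries and the curve products, in the degree `m` if `m` is even and in the degree
`2 * m` if `m` is odd; their lines are algebraic in characteristic zero. -/
def AlgebraicLine (m : ℕ) (s : Multiset (ZMod m)) : Prop :=
  (Even m → Pool.Agent.H916R2.Generated m (SurfaceOrCurveProduct m) s) ∧
    (Odd m → Pool.Agent.H916R2.Generated (2 * m) (SurfaceOrCurveProduct (2 * m))
      (s.map fun a => ((2 * a.val : ℕ) : ZMod (2 * m))))

/-- The union of the Frobenius conjugates `p ^ j * s`, `j < f`, where `f` is the order of `p`. -/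
noncomputable def conjugates (p : ℕ) {m : ℕ} (s : Multiset (ZMod m)) : Multiset (ZMod m) :=
  ∑ j ∈ Finset.range (orderOf (p : ZMod m)), s.map fun a => (p : ZMod m) ^ j * a

/-- The number of the entries of `s` of order divisible by `q`; entries of order `2` modulo `4` are
counted twice. -/
noncomputable def weight (q : ℕ) {m : ℕ} (s : Multiset (ZMod m)) : ℕ :=
  (s.map fun a => if q ∣ addOrderOf a then (if addOrderOf a % 4 = 2 then 2 else 1) else 0).sum

/-- The number `w` is small for the prime `q`. -/
def Small (m q w : ℕ) : Prop :=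
  5 ≤ q ∧ (2 * w < q - 1 ∨
    (¬ 4 ∣ m ∧ w < q - 1 ∧ (¬ 3 ∣ m ∨ q = 11 ∨ q = 13 ∨ q = 17 ∨ q = 19)))

lemma weight_eq (q : ℕ) {m : ℕ} (s : Multiset (ZMod m)) :
    ((weight q s : ℕ) : ℤ) = Pool.Agent.Q59.PL.wq q s := by
  induction s using Multiset.induction_on with
  | empty => simp [weight, Pool.Agent.Q59.PL.wq]
  | cons a s ih =>
    unfold weight Pool.Agent.Q59.PL.wq at ih ⊢
    rw [Multiset.map_cons, Multiset.sum_cons, Multiset.map_cons, Multiset.sum_cons, ← ih]
    push_cast
    rfl

lemma Small.cond {m q : ℕ} [NeZero m] {p : ℕ} (hpm : p.Coprime m) {s : Multiset (ZMod m)}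
    (h : Small m q (orderOf (p : ZMod m) * weight q s)) :
    Pool.Agent.Q59.PL.Cond m q (Pool.Agent.Q59.PL.wq q (Pool.Agent.Q59.OT.fr p s)) := by
  obtain ⟨h5, h⟩ := h
  refine ⟨h5, ?_⟩
  rw [Pool.Agent.Q59.OT.wq_fr hpm, ← weight_eq]
  have e : ((orderOf (p : ZMod m) : ℕ) : ℤ) * ((weight q s : ℕ) : ℤ) =
      ((orderOf (p : ZMod m) * weight q s : ℕ) : ℤ) := by push_cast; ring
  rw [e]
  rcases h with h | ⟨h4, h, h3⟩
  · left
    have : ((2 * (orderOf (p : ZMod m) * weight q s) + 1 : ℕ) : ℤ) < q := by exact_mod_cast (by omega)
    push_cast at this ⊢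
    linarith
  · refine Or.inr ⟨h4, ?_, h3⟩
    have : ((orderOf (p : ZMod m) * weight q s + 1 : ℕ) : ℤ) < q := by exact_mod_cast (by omega)
    push_cast at this ⊢
    linarith

/-- **Tate characters in characteristics of odd order.** -/
theorem result (p : ℕ) (hp : p.Prime) (A : ∀ M : ℕ, Multiset (ZMod M) → Prop)
    (hA : Admissible p A) (m : ℕ) (hm : 2 ≤ m) (hpm : p.Coprime m)
    (hf : Odd (orderOf (p : ZMod m))) (s : Multiset (ZMod m)) (hs : IsTate p m s) :
    Pool.Agent.H916R2.IsHodge m (conjugates p s) ∧ (A m s ↔ A m (conjugates p s)) ∧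
    ((∀ t : Multiset (ZMod m), Pool.Agent.H916R2.IsHodge m t → t ≠ 0 → AlgebraicLine m t → A m t) →
      ∀ m1 m2 : ℕ, m1 * m2 = m → GoodDegree2 m1 →
        (∀ q : ℕ, q.Prime → q ∣ m2 → Small m q (orderOf (p : ZMod m) * weight q s)) → A m s) := by
  have : NeZero m := ⟨by omega⟩
  have hA' : Pool.Agent.Q59.RL.AdmT p A :=
    ⟨hA.tate, hA.neg, hA.pair, hA.surface, hA.standard, hA.join, hA.cancel, hA.descend⟩
  have hH : Pool.Agent.H916R2.IsHodge m (conjugates p s) := Pool.Agent.Q59.OT.fr_hodge hpm hs
  have hiff : A m s ↔ A m (conjugates p s) := Pool.Agent.Q59.OT.iff_fr hA' hp hpm hm hf hs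
  refine ⟨hH, hiff, fun hchar m1 m2 h12 hgood hbig => ?_⟩
  by_cases hne : conjugates p s = 0
  · rw [hiff, hne]; exact hA'.zero hpm hm
  · rw [hiff]
    refine hchar _ hH hne ⟨fun he => ?_, fun ho => ?_⟩
    · refine Pool.Agent.Q59.PL.main_even h12 ?_ hgood hH hne fun q hq hqm =>
        (hbig q hq hqm).cond hpm
      by_contra h
      have h1 : 2 ∣ m1 * m2 := by rw [h12]; exact he.two_dvd
      have h2 : 2 ∣ m2 := (Nat.prime_two.dvd_mul.mp h1).resolve_left h
      exact absurd (hbig 2 Nat.prime_two h2).1 (by norm_num)
    · exact Pool.Agent.Q59.PL.main_odd (Nat.odd_iff.mp ho) h12 hgood hH hne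
        fun q hq hqm => (hbig q hq hqm).cond hpm

end Pool.Agent.Results.MP_950c68_ag.FermatOddOrder
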