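import Pool.Agent.Q278.HF

set_option autoImplicit false

namespace Pool.Agent.Results.MP_950ea9_nt.Full

open Finset Q278.HA Q278.HF

/-- For every prime `p > 3` and every `r ≥ 1`,
`∑_{k=0}^{p^r-1} (3k+1) ((1/2)_k / k!)^3 2^{2k} ≡ p^r + (7/6) B_{p-3} p^{r+3} (mod p^{r+4})`. -/
theorem result (p r : ℕ) (hp : p.Prime) (h3 : 3 < p) (hr : 1 ≤ r) :
    ∃ w : ℚ, ¬ p ∣ w.den ∧
      ∑ k ∈ range (p ^ r), (3 * (k : ℚ) + 1) *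
          ((∏ i ∈ range k, ((1 : ℚ) / 2 + i)) ^ 3 / (k.factorial : ℚ) ^ 3) * 2 ^ (2 * k) -
        ((p : ℚ) ^ r + 7 / 6 * bernoulli (p - 3) * (p : ℚ) ^ (r + 3)) = (p : ℚ) ^ (r + 4) * w := by
  obtain ⟨w, hw, e⟩ := sunB hp h3 hr
  refine ⟨w, hw, ?_⟩
  rw [← e]
  congr 1
  apply sum_congr rfl
  intro k _
  rw [← div_pow, u_eq, pow_mul]
  norm_num

end Pool.Agent.Results.MP_950ea9_nt.Full
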