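import Mathlib
import Pool.Agent.TH461.FGK.Sup
import Pool.Agent.Q68.RF.Dense
import Pool.Agent.Q68.RF.Exc

/-!
# Random sparse subsets of the semigroup generated by `p` and `q`

Let every pair `(i, j)` of exponents be selected independently with a probability about
`(1 + i + j) ^ (-α)`.  For `α < 1` the selected multipliers `p ^ i q ^ j` still see the whole
problem of Furstenberg: all irrational points have dense orbits along them (for `p, q` coprime) and
the weak limits of the averages along them are exactly the measures invariant under `×p` and `×q`.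
For `α > 1` both statements fail for uncountably many points.
-/

set_option autoImplicit false

open MeasureTheory Filter Topology ProbabilityTheory

namespace Pool.Agent.Results.MP_96e181_an.RandomSparseAverages

open Pool.Agent.Q68.RF (avg)

/-- The random sparse theorem; `avg p q S n f x` is the average of `f (p ^ i q ^ j x)` over the
pairs `(i, j)` in `S` with `i, j < n`. -/
theorem result (p q : ℕ) (hp : 2 ≤ p) (hq : 2 ≤ q)
    (hpq : Irrational (Real.log (p : ℝ) / Real.log (q : ℝ))) :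
    ∃ κ₀ : ℝ, 0 ≤ κ₀ ∧ κ₀ < 1 ∧
      ((∃ u v a b c d : ℕ, 2 ≤ u ∧ 2 ≤ v ∧ Nat.Coprime u v ∧ p = u ^ a * v ^ b ∧
        q = u ^ c * v ^ d ∧ a * d ≠ b * c) → κ₀ = 0) ∧
      ∀ (Ω : Type) (_ : MeasurableSpace Ω) (P : Measure Ω), IsProbabilityMeasure P →
        ∀ A : ℕ × ℕ → Set Ω, (∀ u, MeasurableSet (A u)) → iIndepSet A P →
        -- (1) many visits of all irrational points to all open sets
        (∀ α c : ℝ, 0 ≤ α → α < 1 - κ₀ → 0 < c →
          (∀ i j : ℕ, c * (1 + i + j : ℝ) ^ (-α) ≤ P.real (A (i, j))) →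
          ∀ᵐ ω ∂P, ∀ x : ℝ, Irrational x →
            Dense {y : UnitAddCircle | ∃ i j : ℕ, ω ∈ A (i, j) ∧ y = (p ^ i * q ^ j) • (x : UnitAddCircle)} ∧
            ∀ U : Set UnitAddCircle, IsOpen U → U.Nonempty → ∀ β : ℝ, β < 2 - κ₀ - α →
              ∃ᶠ n : ℕ in atTop, (n : ℝ) ^ β ≤ ({u : ℕ × ℕ | u.1 ≤ n ∧ u.2 ≤ n ∧ ω ∈ A u ∧
                (p ^ u.1 * q ^ u.2) • (x : UnitAddCircle) ∈ U}.ncard : ℝ)) ∧
        -- (2) the limits of the averages are exactly the invariant measures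
        (∀ π : ℕ → ℝ, Antitone π → Tendsto (fun n : ℕ => (n : ℝ) * π n) atTop atTop →
          (∀ i j : ℕ, P.real (A (i, j)) = π (i + j)) →
          ∀ᵐ ω ∂P, ∀ μ : Measure UnitAddCircle, IsProbabilityMeasure μ →
            ((MeasurePreserving (fun y : UnitAddCircle => p • y) μ μ ∧
              MeasurePreserving (fun y : UnitAddCircle => q • y) μ μ) ↔
              ∃ (ν : ℕ → Measure UnitAddCircle) (φ : ℕ → ℕ), (∀ k, IsProbabilityMeasure (ν k)) ∧
                Tendsto φ atTop atTop ∧ ∀ f : C(UnitAddCircle, ℝ),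
                  Tendsto (fun k => ∫ y, avg p q {u | ω ∈ A u} (φ k) f y ∂(ν k)) atTop
                    (𝓝 (∫ y, f y ∂μ)))) ∧
        -- (3) failure of both for sparser sets
        (∀ α C : ℝ, 1 < α → (∀ i j : ℕ, P.real (A (i, j)) ≤ C * (1 + i + j : ℝ) ^ (-α)) →
          ∀ᵐ ω ∂P, ¬ {x : UnitAddCircle |
            (∃ δ : ℝ, 0 < δ ∧ ∀ i j : ℕ, ω ∈ A (i, j) → δ ≤ ‖(p ^ i * q ^ j) • x‖) ∧
            ∀ μ : Measure UnitAddCircle, IsProbabilityMeasure μ →
              MeasurePreserving (fun y : UnitAddCircle => p • y) μ μ →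
              MeasurePreserving (fun y : UnitAddCircle => q • y) μ μ →
              ∀ φ : ℕ → ℕ, Tendsto φ atTop atTop → ¬ ∀ f : C(UnitAddCircle, ℝ),
                Tendsto (fun k => avg p q {u | ω ∈ A u} (φ k) f x) atTop
                  (𝓝 (∫ y, f y ∂μ))}.Countable) := by
  classical
  obtain ⟨κ₀, h0, h1, h2, hGr⟩ := Pool.Agent.TH461.FGK.gr2_all hp hq hpq
  refine ⟨κ₀, h0, h1, fun h => h2 h, ?_⟩
  intro Ω mΩ P hPp A hA hind
  refine ⟨?_, ?_, ?_⟩
  · intro α c hα0 hα hc hP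
    have hall : ∀ᵐ ω ∂P, ∀ m : ℕ, ∀ x : ℝ, Irrational x → ∀ U : Set UnitAddCircle, IsOpen U →
        U.Nonempty → ∀ β : ℝ, β < 2 - (κ₀ + (1 - κ₀ - α) / (m + 2)) - α →
          ∃ᶠ n : ℕ in atTop, (n : ℝ) ^ β ≤ ({u : ℕ × ℕ | u.1 ≤ n ∧ u.2 ≤ n ∧ ω ∈ A u ∧
            (p ^ u.1 * q ^ u.2) • (x : UnitAddCircle) ∈ U}.ncard : ℝ) := by
      rw [ae_all_iff]
      intro m
      have hm : (0 : ℝ) < (m : ℝ) + 2 := by positivity
      have hpos : 0 < (1 - κ₀ - α) / (m + 2) := div_pos (by linarith) hm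
      have hlt : (1 - κ₀ - α) / ((m : ℝ) + 2) < 1 - κ₀ - α := by
        rw [div_lt_iff₀ hm]
        have hm0 : (0 : ℝ) ≤ m := Nat.cast_nonneg m
        nlinarith
      refine Pool.Agent.Q68.RF.dense_of_io (P := P) (by omega) (by omega) hA hind hc hα0
        (by linarith) (fun u => hP u.1 u.2) (fun U hU hne => ?_)
      exact Pool.Agent.TH461.FGK.io2 hp hq hpq (hGr (κ₀ + (1 - κ₀ - α) / (m + 2)) (by linarith)) hU hne
    filter_upwards [hall] with ω hω x hx
    have hmain : ∀ U : Set UnitAddCircle, IsOpen U → U.Nonempty → ∀ β : ℝ, β < 2 - κ₀ - α →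
        ∃ᶠ n : ℕ in atTop, (n : ℝ) ^ β ≤ ({u : ℕ × ℕ | u.1 ≤ n ∧ u.2 ≤ n ∧ ω ∈ A u ∧
          (p ^ u.1 * q ^ u.2) • (x : UnitAddCircle) ∈ U}.ncard : ℝ) := by
      intro U hU hne β hβ
      obtain ⟨m, hm⟩ := exists_nat_gt ((1 - κ₀ - α) / (2 - κ₀ - α - β))
      refine hω m x hx U hU hne β ?_
      have h3 : 0 < 2 - κ₀ - α - β := by linarith
      rw [div_lt_iff₀ h3] at hm
      have hm2 : (0 : ℝ) < (m : ℝ) + 2 := by positivity
      have h4 : (1 - κ₀ - α) / ((m : ℝ) + 2) < 2 - κ₀ - α - β := by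
        rw [div_lt_iff₀ hm2]
        nlinarith
      linarith
    refine ⟨?_, hmain⟩
    rw [dense_iff_inter_open]
    intro U hU hne
    obtain ⟨n, hn⟩ := (hmain U hU hne 0 (by linarith)).exists
    rw [Real.rpow_zero] at hn
    have h5 : 0 < {u : ℕ × ℕ | u.1 ≤ n ∧ u.2 ≤ n ∧ ω ∈ A u ∧
      (p ^ u.1 * q ^ u.2) • (x : UnitAddCircle) ∈ U}.ncard := by
      have : (0 : ℝ) < ({u : ℕ × ℕ | u.1 ≤ n ∧ u.2 ≤ n ∧ ω ∈ A u ∧
        (p ^ u.1 * q ^ u.2) • (x : UnitAddCircle) ∈ U}.ncard : ℝ) := by linarith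
      exact_mod_cast this
    obtain ⟨u, hu⟩ := Set.nonempty_of_ncard_ne_zero h5.ne'
    exact ⟨_, hu.2.2.2, u.1, u.2, hu.2.2.1, rfl⟩
  · intro π hπ hlim hP
    exact Pool.Agent.Q68.RF.limits (P := P) (by omega) (by omega) hA hind hπ hlim
      (fun u => hP u.1 u.2)
  · intro α C hα hP
    filter_upwards [Pool.Agent.Q68.RF.window_bound (P := P) hp hq hind hα (fun u => hP u.1 u.2)]
      with ω hω
    obtain ⟨M, hM⟩ := hω
    have h := Pool.Agent.Q68.RF.exceptional hp hq hpq {u | ω ∈ A u} M (by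
      intro k
      refine le_trans (le_of_eq ?_) (hM k)
      congr 1)
    intro hc
    apply h
    refine hc.mono ?_
    rintro x ⟨⟨δ, hδ, hx⟩, h6⟩
    exact ⟨⟨δ, hδ, fun i j hij => hx (i, j) hij⟩, fun μ h7 h8 h9 φ hφ => h6 μ h7 h8 h9 φ hφ⟩

end Pool.Agent.Results.MP_96e181_an.RandomSparseAverages
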