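import Pool.Agent.Q36.GV.Sq

/-!
# Abundance and the Iitaka fibration of varieties dominated by products

Let `Y` be a projective manifold of dimension `d` with one of the following properties:

* `p_g(Y) > 0` and `ν(Y) ≤ 0`; then let `a = 0` and `c 0 = 0` (for instance an abelian variety, a
  Calabi-Yau or hyperkähler manifold, a point), or
* the canonical map of `Y` is generically finite; then let `a = d`, and let `c 0 = 0`, or more generally
  let the canonical forms of `Y` separate `c 0 + 1` points and tangent vectors in an open set.

Let `C 1, ..., C n` be irrational curves, `c i + 2` at most the gonality of `C i`, and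
`Y × C 1 × ... × C n ⇢ X` any dominant rational map of finite degree to a projective manifold `X` (not
necessarily a quotient by a group). For a general point `x` of `X` let `r_i` be the number of
different `i`-th coordinates of the points over `x` (`i = 0` is the coordinate in `Y`), and for a set
`Q` of indices let `r(Q)` be the number of the points over `x` which have the same `j`-th
coordinates as a given one of them for all `j` outside `Q`. Assume that

* `2 r_i ≤ c i + 1` for all `i` in some set `B` (which may be empty), and
* for all `Q` disjoint from `B` the points over `x` are determined by their coordinates outside `Q`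
  (`r(Q) = 1`), or `2 r(Q) - 1 ≤ ∑ j ∈ Q, c j`.

For instance, if all `C i` have gonality `γ > 2` and `d = 0`, any map of degree at most
`(n (γ - 2) + 1) / 2` with `r_i = r` for all `i` and `r(Q) ≤ (|Q| (γ - 2) + 1) / 2`.

The theorem. Let `h` be the sum of `a` and the number of the non-elliptic curves. Then
`κ(X) = ν(X) = h`: the canonical map of `X` has an image of dimension `h`, and `ν(X) ≤ h`. The Iitaka
fibration is `X ⇢ I` with `dim I = h`, where

* the canonical map of `I` is generically finite; so `I` is of general type;
* the quotients of pluricanonical forms of `X` are functions on `I`;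
* `I` is dominated by the product `N` of the factors of general type, and the base change of `X ⇢ I` by
  `N ⇢ I` is birational to the product of `N` and the other factors. So the general fibre is
  birational to the product of the elliptic curves and of `Y`, if `a < d`: the Iitaka fibration is
  birationally isotrivial.

If `K_X` is nef, it is semiample by `κ(X) = ν(X)` and Kawamata's theorem, `X → I` can be taken to be the
morphism given by a multiple of `K_X`, and it is an isotrivial fibration onto a variety of general type
of dimension `ν(X)`, while in general only `K_I + D` is big for some divisor `D` (elliptic surfaces of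
Kodaira dimension one may have a rational base curve).

Proof. Exterior products of canonical forms of the factors are canonical forms of the product, and
their traces are canonical forms of `X`. If a vector field kills all their quotients, there is a
relation between the values and the derivatives of the forms at the points of a general fibre. Hall's
theorem on the marriage problem and the gonality are used to isolate one point of the fibre and one
factor in this relation. This gives `h` algebraically independent quotients, `h` the number of the
non-elliptic curves, while sections on the product are expanded along the curves for `ν(X) ≤ h`. So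
the quotients of the pluricanonical forms of `X` are functions on the product of the non-elliptic
curves, in which the functions of `X` define a subfield `K`. The conditions for `X` imply the same
conditions for the map of degree `[N : K]` from the product (with function field `N`) of the
non-elliptic curves, and thus the canonical map of the base is generically finite.
-/

set_option autoImplicit false
set_option linter.overlappingInstances false

open FF IntermediateField Pool.Agent.W619.PQ Pool.Agent.W619.TW

namespace Pool.Agent.Results.MP_97d78d_ag.IitakaFibrations

/-- Every nonconstant function on the curve with function field `F` has degree at least `γ`. -/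
def GonalityGe (k F : Type) [Field k] [Field F] [Algebra k F] (γ : ℕ) : Prop :=
  ∀ b : F, Transcendental k b → γ ≤ Module.finrank k⟮b⟯ F

/-- The canonical map of the projective manifolds of dimension `n` with function field `K` has an
image of dimension at least `h`: there are `h + 1` canonical forms whose ratios to the first one are
algebraically independent. For `h = 0`: `p_g > 0`. -/
def CanonicalImageGe (k K : Type) [Field k] [Field K] [Algebra k K] (n h : ℕ) : Prop :=
  ∃ ω : Fin (h + 1) → (Fin n → Derivation k K K) → K,
    (∀ l, IsSec k K n (fun _ => False) {1} 1 0 (ω l)) ∧
    ∃ D, (∀ l, ω l D ≠ 0) ∧ AlgebraicIndependent k (fun l : Fin h => ω l.succ D / ω 0 D)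

/-- The quotients of two sections of the same multiple of the canonical class of the projective
manifolds of dimension `n` with function field `L` belong to the subfield `K`. -/
def ContainsQuotients {k L : Type} [Field k] [Field L] [Algebra k L] (n : ℕ)
    (K : IntermediateField k L) : Prop :=
  ∀ (m : ℕ) (ω ω' : (Fin n → Derivation k L L) → L), IsSec k L n (fun _ => False) {1} m 0 ω →
    IsSec k L n (fun _ => False) {1} m 0 ω' → ∀ D, ω D ≠ 0 → ω' D / ω D ∈ K

/-- The coefficients of the canonical forms of the projective manifold of dimension `d` with function
field `K`, with respect to the rational vector fields `E`. -/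
def canonicalForms (k : Type) {K : Type} [Field k] [Field K] [Algebra k K] (d : ℕ)
    (E : Fin d → Derivation k K K) : Set K :=
  {f | ∃ η : (Fin d → Derivation k K K) → K, IsPluriForm k K d 1 η ∧
    (∀ u : Place k K, IsDivisorial u d → RegularAt u d η) ∧ η E = f}

/-- The canonical forms of the manifold with function field `K` separate `m` points and tangent
vectors in an open set: let `φ i` be different generic points, with coordinates in a field `Ω`, with
multiplicities `1` or `2` of sum at most `m`, and `θ i` tangent vectors at the points of multiplicity
`2`; then the values at the `φ i` are linearly independent of each other and of the derivatives in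
the directions `θ i ≠ 0`. (For the coefficients with respect to a frame `E`; this does not depend on
the choice of the frame.) -/
def Separates (k K : Type) [Field k] [Field K] [Algebra k K] (d m : ℕ) : Prop :=
  ∀ (y : Fin d → K) (E : Fin d → Derivation k K K), IsTranscendenceBasis k y →
    (∀ i j, E i (y j) = if i = j then 1 else 0) →
    ∀ (Ω : Type) [Field Ω] [Algebra k Ω] (ι : Type) [Fintype ι] (φ : ι → (K →ₐ[k] Ω)) (μ : ι → ℕ)
      (c : ι → Ω) (θ : ι → (K →ₗ[k] Ω)), Function.Injective φ → (∀ i, μ i = 1 ∨ μ i = 2) →
      ∑ i, μ i ≤ m → (∀ i, ∀ a b, θ i (a * b) = φ i a * θ i b + φ i b * θ i a) →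
      (∀ i, μ i = 1 → θ i = 0) →
      (∀ f ∈ canonicalForms k d E, ∑ i, (c i * φ i f + θ i f) = 0) → ∀ i, c i = 0 ∧ θ i = 0

/-- The function field of the product of the factors of general type: of `W 0`, if `p` holds, and of the
curves `W 1, ..., W n` which are not elliptic. -/
def generalTypePart {k M : Type} [Field k] [Field M] [Algebra k M] {n : ℕ}
    (W : Fin (n + 1) → IntermediateField k M) (p : Prop) : IntermediateField k M :=
  ⨆ i : {i : Fin (n + 1) // (i = 0 ∧ p) ∨ ∃ j : Fin n, i = j.succ ∧ ¬ IsElliptic (W i)}, W i.1

section

variable {k : Type} (L : Type) {M : Type} [Field k] [Field L] [Field M] [Algebra k L] [Algebra k M]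
  [Algebra L M]

/-- The number of different coordinates in the factor with function field `F` on a general fibre of
`Z ⇢ X`: the degree over `X` of the image of `Z` in the product of `X` and the factor. -/
noncomputable def coordinates (F : IntermediateField k M) : ℕ :=
  Module.finrank L (IntermediateField.adjoin L (F : Set M))

/-- The number of the points of a general fibre of `Z ⇢ X` with the same coordinates outside `Q` as a
given one: the degree of `Z` over its image in the product of `X` and the factors `j ∉ Q`. -/
noncomputable def agreeing {n : ℕ} (W : Fin n → IntermediateField k M) (Q : Finset (Fin n)) : ℕ :=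
  Module.finrank (IntermediateField.adjoin L {z : M | ∃ j, j ∉ Q ∧ z ∈ W j}) M

end

/-- **Abundance and the Iitaka fibration for varieties dominated by products.** Let `W 0` be the function field of a projective manifold `Y` of dimension `d` whose canonical
image has dimension at least `a` and with `ν(Y) ≤ a`, where `a = 0` and `c 0 = 0`, or `a = d` and
`c 0 = 0` or the canonical forms of `Y` separate `c 0 + 1` points and tangent vectors. Let `W i`
(`0 < i ≤ n`) be the function fields of curves of gonality at least `c i + 2` (`c i = 0` for elliptic
curves), `M` the function field of the product, of dimension `d + n`, and `L` the function field of a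
projective manifold `X` with a dominant rational map of finite degree from the product to `X`. Let `B`
be a set of indices such that twice the number of the `i`-th coordinates on a general fibre is at
most `c i + 1` for `i ∈ B`, and assume that for every set `Q` of indices disjoint from `B` the number
`r(Q)` of the points of a general fibre with the same coordinates outside `Q` as a given one satisfies
`r(Q) = 1` or `2 r(Q) - 1 ≤ ∑ j ∈ Q, c j`.
Let `h` be the sum of `a` and the number of the non-elliptic curves. Then the dimension of the
canonical image of `X` is at least `h` and `ν(X) ≤ h`, so that `κ(X) = ν(X) = h`. There is a fibration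
`X ⇢ I`, with function field `K` of the base algebraically closed in `L`, such that `dim I = h`, the
canonical map of `I` is generically finite, all quotients of pluricanonical forms of `X` belong to `K`,
and for the function field `N` of the product of the non-elliptic curves and of `Y`, if `a = d`: `N` has
transcendence degree `h`, `K ⊆ N` and `L N = M`. -/
theorem result {k L M : Type} [Field k] [CharZero k] [IsAlgClosed k] [Field L] [Field M]
    [Algebra k L] [Algebra k M] [Algebra L M] [IsScalarTower k L M] [FiniteDimensional L M]
    (d n : ℕ) (hM : Algebra.trdeg k M = (d + n : ℕ)) (W : Fin (n + 1) → IntermediateField k M)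
    (hY : Algebra.EssFiniteType k (W 0)) (hd : Algebra.trdeg k (W 0) = d)
    (hC : ∀ i : Fin n, IsFF k (W i.succ)) (hsup : ⨆ i, W i = ⊤) (a : ℕ)
    (hY1 : CanonicalImageGe k (W 0) d a) (hY2 : NumLe k (W 0) d (fun _ => False) a)
    (c : Fin (n + 1) → ℕ)
    (ha : (a = d ∧ (c 0 = 0 ∨ Separates k (W 0) d (c 0 + 1))) ∨ (a = 0 ∧ c 0 = 0))
    (hc : ∀ i : Fin n, IsElliptic (W i.succ) → c i.succ = 0)
    (hγ : ∀ i : Fin n, GonalityGe k (W i.succ) (c i.succ + 2))
    (B : Finset (Fin (n + 1))) (hB : ∀ i ∈ B, 2 * coordinates L (W i) ≤ c i + 1)
    (hQ : ∀ Q : Finset (Fin (n + 1)), Disjoint Q B →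
      agreeing L W Q = 1 ∨ 2 * agreeing L W Q ≤ 1 + ∑ j ∈ Q, c j) :
    CanonicalImageGe k L (d + n) (a + {i : Fin n | ¬ IsElliptic (W i.succ)}.ncard) ∧
    NumLe k L (d + n) (fun _ => False) (a + {i : Fin n | ¬ IsElliptic (W i.succ)}.ncard) ∧
    ∃ K : IntermediateField k L, (∀ x : L, IsAlgebraic K x → x ∈ K) ∧
      Algebra.EssFiniteType k K ∧
      Algebra.trdeg k K = (a + {i : Fin n | ¬ IsElliptic (W i.succ)}.ncard : ℕ) ∧
      CanonicalImageGe k K (a + {i : Fin n | ¬ IsElliptic (W i.succ)}.ncard)
        (a + {i : Fin n | ¬ IsElliptic (W i.succ)}.ncard) ∧
      ContainsQuotients (d + n) K ∧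
      (∀ x ∈ K, algebraMap L M x ∈ generalTypePart W (a = d)) ∧
      Algebra.trdeg k (generalTypePart W (a = d)) =
        (a + {i : Fin n | ¬ IsElliptic (W i.succ)}.ncard : ℕ) ∧
      IntermediateField.adjoin L (generalTypePart W (a = d) : Set M) = ⊤ := by
  have hessM : Algebra.EssFiniteType k M := Q36.GV.ess_supS W hsup
  have hessL : Algebra.EssFiniteType k L := Q36.SD.ess_below (K := M)
  have hc0 : c 0 = 0 ∨ Separates k (W 0) d (c 0 + 1) := by
    rcases ha with ⟨-, h⟩ | ⟨-, h⟩
    · exact h
    · exact Or.inl h
  obtain ⟨K, h1, h2, h3, h4, h5, h6, h7, h8, h9⟩ :=
    Q36.GV.core1 (L := L) W hd hM hsup hY1 hY2 ha hγ hc B hB hQ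
  have h2γ : ∀ i : Fin n, ∀ b : W i.succ, Transcendental k b →
      2 ≤ Module.finrank k⟮b⟯ (W i.succ) := fun i b hb => le_trans (by omega) (hγ i b hb)
  have hirr : ∀ i : Fin n, ¬ ∃ t : W i.succ, k⟮t⟯ = ⊤ := fun i => Q36.HB.irr_of_gon (h2γ i)
  exact ⟨Q36.GV.imageYC (L := L) W hd hM (Q36.GV.alg_of_sup' W hsup) hc0 hY1 hγ B hB hQ,
    Q36.GV.numYC (L := L) W hd hM hsup hirr hY2, K, h1, h2, h3, h4, h5, h6, h7, h8⟩

end Pool.Agent.Results.MP_97d78d_ag.IitakaFibrations
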