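import Pool.Agent.Q57.TC.TopA

/-!
# Nef real combinations of log canonical divisors are semiample, and their cone is rational
polyhedral, for covers of projective space branched along normal crossings

Let `F k`, `k = 0, ..., n`, be forms of degrees `d k` in `n + 1` variables whose zero sets in the
projective `n`-space are smooth hypersurfaces with normal crossings, and `∑ k, d k ≥ n + 1`. Let `K`
be the function field of an abelian cover `Y` of the projective space which is branched only along
these hypersurfaces: `K` is generated by the affine coordinates and by roots `z j`,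
`z j ^ (m j) = ∏ k, (F k (x) / x 0 ^ (d k)) ^ (a j k)`, where `m j` divides `∑ k, a j k * d k`. (For
`n ≥ 2` all finite covers which are branched only along these hypersurfaces are abelian; covers
which are branched along fewer hypersurfaces are included: add general hyperplanes, `a j k = 0`.)

A prime divisor `P` over `Y` (a divisorial place of `K`) has the vector `multiplicities F d x P`
of the multiplicities `v k` of the hypersurfaces along `P`, and the log discrepancy
`logDiscrepancy F d x P` of the projective space with the boundary `∑ k, (F k = 0)`: the order of the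
logarithmic canonical forms along `P`, plus one. It is `0` for the toroidal divisors `P`, whose
vectors `v ≠ 0` of nonnegative integers, not all positive, have `m j ∣ ∑ k, a j k * v k` for all `j`
(`Admissible`), and it is positive for all other `P`.

**The pairs.** The boundaries `Δ 1, ..., Δ p` are given by functions `ψ i ≥ 0`, `ψ i 0 = 0`, on the
vectors: the log discrepancy of the pair `(X, Δ i)` along any prime divisor `P` over `X` is
`ψ i v + logDiscrepancy F d x P`, `v` the vector of `P`, so that
`δ i P = 1 - ψ i v - logDiscrepancy F d x P` (`coefficient`) is the coefficient of `P` in the pullback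
of `K + Δ i`. Let `X` be a toroidal modification of `Y` (for example `X = Y`, or a toroidal minimal
model of it), given by a subdivision of the fan of the faces of the positive orthant, and let
`Δ i = ∑ δ_{i, ρ} D_ρ` be divisors supported over the hypersurfaces with rational coefficients
`0 ≤ δ_{i, ρ} ≤ 1`, such that the `K + Δ i` are `ℚ`-Cartier (`(X, Δ i)` is log canonical). Then
`ψ i` is the function which is linear on the cones of the fan, with the value `1 - δ_{i, ρ}` at the
generator `ρ` of a ray.

**The theorem.** For real numbers `lam i ≥ 0` the divisor `∑ i, lam i (K + Δ i)` is nef if and only if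
it is semiample, and the cone of these `lam` is rational polyhedral. More precisely, there are finitely
many sections `ω b` of divisors `∑ i, g b i (K + Δ i)`, and finitely many sets `B` of indices `b`, such
that

* for every prime divisor `P` over `Y` the set of the `b` for which `ω b` does not vanish at `P`
  is one of the sets `B`;
* `∑ i, lam i (K + Δ i)` is nef if and only if for each of the sets `B` the vector `lam` is a
  combination `∑ b ∈ B, t b * g b` with real `t b ≥ 0`.

So a nef divisor `∑ i, lam i (K + Δ i)` is for every prime divisor `P` over `Y` `ℝ`-linearly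
equivalent to an effective divisor, `∑ b ∈ B, t b div (ω b)`, which does not contain `P`. For `p = 1`
this is abundance for the pair `(X, Δ)`: `K + Δ` is semiample if it is nef, in particular the canonical
divisor of a minimal model, in all dimensions. For `p > 1` it is abundance for nef `K + Δ` with real
boundaries `Δ` in the polytope of the `Δ i` (`∑ i, lam i = 1`), for nef divisors `∑ i, lam i Δ i`
supported over the hypersurfaces if the canonical class is torsion, and a theorem on the shape of
the nef cone (rational polyhedral, although there is no condition of bigness and the pairs are only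
log canonical), which is one of the main consequences that the cone theorem and abundance would have.
The sections `ω b` are those of `MP_fa3f7f_ag.GeographyOfModels`, which is on the asymptotic orders
and on pseudo-effective divisors, and does not say anything on nef divisors; nef combinations for
another family, covers of products of projective spaces, are in
`MP_c2a5fc_ag.NefRealCombinations`.
-/

set_option autoImplicit false

open FF MvPolynomial Pool.Agent.W602.GT

namespace Pool.Agent.Results.MP_97d78d_ag.NefConeOfCovers

/-- The hypersurfaces `F k = 0` have normal crossings: at every point of the projective space the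
gradients of the forms `F k` which vanish at this point are linearly independent. -/
def NormalCrossings {n : ℕ} (F : Fin (n + 1) → MvPolynomial (Fin (n + 1)) ℂ) : Prop :=
  ∀ x : Fin (n + 1) → ℂ, x ≠ 0 → LinearIndependent ℂ
    fun (k : {k // eval x (F k) = 0}) (l : Fin (n + 1)) => eval x (pderiv l (F k.1))

section places

variable {n R p : ℕ} {K : Type} [Field K] [Algebra ℂ K]

/-- The affine coordinates of the projective space. -/
noncomputable def affine (x : Fin (n + 1) → K) (b : Fin n) : K := x b.succ / x 0

/-- The minimal order at `P` of the homogeneous coordinates `x`. -/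
noncomputable def minimalOrder (x : Fin (n + 1) → K) (P : Place ℂ K) : ℤ :=
  Finset.univ.inf' Finset.univ_nonempty fun j => P.ord (x j)

/-- The multiplicities of the hypersurfaces `F k = 0` along the prime divisor `P`; the `x j` are the
homogeneous coordinates, which are divided by one of minimal order at `P`. -/
noncomputable def multiplicities (F : Fin (n + 1) → MvPolynomial (Fin (n + 1)) ℂ)
    (d : Fin (n + 1) → ℕ) (x : Fin (n + 1) → K) (P : Place ℂ K) (k : Fin (n + 1)) : ℕ :=
  (P.ord (aeval x (F k)) - d k * minimalOrder x P).toNat

/-- The canonical form of the projective space, evaluated at the vector fields `D`: `x 0 ^ (n + 1)`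
times the determinant of the derivatives of the affine coordinates. -/
noncomputable def canonicalForm (x : Fin (n + 1) → K) (D : Fin n → Derivation ℂ K K) : K :=
  x 0 ^ (n + 1) * (Matrix.of fun a b : Fin n => D a (affine x b)).det

/-- The order of the canonical form along `P`: the minimal order of its values at vector fields which
are regular at `P`. -/
noncomputable def formOrder (x : Fin (n + 1) → K) (P : Place ℂ K) : ℤ :=
  sInf {k : ℤ | ∃ D : Fin n → Derivation ℂ K K, (∀ a, DerReg P (D a)) ∧
    canonicalForm x D ≠ 0 ∧ P.ord (canonicalForm x D) = k}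

/-- The log discrepancy along `P` of the projective space, with the boundary `∑ k, (F k = 0)`: the
order along `P` of the logarithmic canonical forms, which are obtained from the canonical form by the
division by the local equations of the hypersurfaces and by the power `n + 1` of a coordinate `x j` of
minimal order, plus one. -/
noncomputable def logDiscrepancy (F : Fin (n + 1) → MvPolynomial (Fin (n + 1)) ℂ)
    (d : Fin (n + 1) → ℕ) (x : Fin (n + 1) → K) (P : Place ℂ K) : ℤ :=
  formOrder x P + 1 - ∑ k, (multiplicities F d x P k : ℤ) - ((n : ℤ) + 1) * minimalOrder x P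

/-- The coefficient of `P` in the pullback of `K + Δ`, for the pair with the function `ψ`: its log
discrepancy along `P` is `ψ v + logDiscrepancy F d x P`, `v` the vector of the multiplicities. -/
noncomputable def coefficient (F : Fin (n + 1) → MvPolynomial (Fin (n + 1)) ℂ)
    (d : Fin (n + 1) → ℕ) (x : Fin (n + 1) → K) (ψ : (Fin (n + 1) → ℕ) → ℚ) (P : Place ℂ K) : ℚ :=
  1 - ψ (multiplicities F d x P) - logDiscrepancy F d x P

/-- The multiplicities which satisfy the divisibility conditions. -/
def Admissible (m : Fin R → ℕ) (a : Fin R → Fin (n + 1) → ℕ) (v : Fin (n + 1) → ℕ) : Prop :=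
  v ≠ 0 ∧ (∃ k, v k = 0) ∧ ∀ j, m j ∣ ∑ k, a j k * v k

/-- The functions `ψ i` are the log discrepancies of boundaries along the toroidal divisors: they are
not negative (the pairs are log canonical), at most homogeneous along the rays, and for a finite set
`T` of vectors every admissible vector `v` is at least a nonnegative combination of the vectors in
`T`, such that all `ψ i v` are at most the combinations of the values at the vectors in `T`. -/
structure AreBoundaries (m : Fin R → ℕ) (a : Fin R → Fin (n + 1) → ℕ)
    (ψ : Fin p → (Fin (n + 1) → ℕ) → ℚ) : Prop where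
  zero : ∀ i, ψ i 0 = 0
  nonneg : ∀ i v, 0 ≤ ψ i v
  ray : ∀ i v (r : ℕ), 1 ≤ r → Admissible m a v → ψ i (r • v) ≤ r * ψ i v
  finite : ∃ T : Finset (Fin (n + 1) → ℕ), (∀ s ∈ T, Admissible m a s) ∧ ∀ v, Admissible m a v →
    ∃ w : (Fin (n + 1) → ℕ) → ℚ, (∀ s, 0 ≤ w s) ∧ (∀ k, ∑ s ∈ T, w s * s k ≤ v k) ∧
      ∀ i, ψ i v ≤ ∑ s ∈ T, w s * ψ i s

end places

section sections

variable {K : Type} [Field K] [Algebra ℂ K] {p : ℕ} (N : ℕ) (δ : Fin p → Place ℂ K → ℚ)

/-- `ω` is a section of `∑ i, μ i (K + Δ i) + j A`: a rational section of the power of the canonical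
bundle with the exponent `∑ i, μ i` (`IsPluri`: a function of `N` rational vector fields which is
multiplied by the power of `det B` under a linear substitution `B`) whose order on the vector fields
which are regular at `P` is at least `j` times the order of one of the functions in `S`, minus
`∑ i, μ i * δ i P`, where `δ i P` is the coefficient of `P` in the pullback of `K + Δ i`, for all
prime divisors `P` (all divisorial places `P` of `K`). Here `A` is the divisor which is generated by
the finite set `S` of functions; `A = 0` if `S = {1}`. -/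
def IsSection (S : Finset K) (μ : Fin p →₀ ℕ) (j : ℕ) (ω : (Fin N → Derivation ℂ K K) → K) :
    Prop :=
  IsPluri (∑ i, μ i) ω ∧ ∀ P : Place ℂ K, Divisorial N P → ∀ D : Fin N → Derivation ℂ K K,
    (∀ c, DerReg P (D c)) → ω D = 0 ∨ ∃ s ∈ S, s ≠ 0 ∧
      (j : ℚ) * P.ord s - ∑ i, (μ i : ℚ) * δ i P ≤ P.ord (ω D)

/-- The real combination `∑ i, lam i (K + Δ i)` is nef: there is a divisor `A` such that for all
`M ≥ 1` a positive multiple `j (M ∑ i, lam i (K + Δ i) + A)` has no base points: for every prime
divisor `P` there is, after a change of the coefficients `j M lam i` by at most `j`, a section which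
does not vanish at `P`. -/
def Nef (lam : Fin p → ℝ) : Prop :=
  ∃ S : Finset K, (∃ s ∈ S, s ≠ 0) ∧ ∀ M : ℕ, 1 ≤ M → ∃ j : ℕ, 1 ≤ j ∧
    ∀ P : Place ℂ K, Divisorial N P → ∃ μ : Fin p →₀ ℕ, (∀ i, |(μ i : ℝ) - j * M * lam i| ≤ j) ∧
      ∃ η, IsSection N δ S μ j η ∧ ∃ D, (∀ c, DerReg P (D c)) ∧ η D ≠ 0 ∧ ∀ s ∈ S, s ≠ 0 →
        (P.ord (η D) : ℚ) ≤ j * P.ord s - ∑ i, (μ i : ℚ) * δ i P

/-- The section `ω` of `∑ i, g i (K + Δ i)` does not vanish at `P`. -/
def DoesNotVanish (g : Fin p →₀ ℕ) (ω : (Fin N → Derivation ℂ K K) → K) (P : Place ℂ K) : Prop :=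
  ∃ D, (∀ c, DerReg P (D c)) ∧ ω D ≠ 0 ∧ (P.ord (ω D) : ℚ) ≤ - ∑ i, (g i : ℚ) * δ i P

end sections

/-- **The nef cone.** Let `K` be the function field of an abelian cover of the projective `n`-space
which is branched along `n + 1` hypersurfaces `F k = 0` with normal crossings, and let
`Δ 1, ..., Δ p` be the boundaries whose log discrepancies along the toroidal divisors are given by
`ψ`. There are finitely many nonzero sections `ω b` of divisors `∑ i, g b i (K + Δ i)` and finitely
many sets `B` of indices, such that for every prime divisor `P` the set of the `b` for which `ω b` does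
not vanish at `P` is one of the sets `B`, and a combination `∑ i, lam i (K + Δ i)` with real
`lam i ≥ 0` is nef if and only if for each of the sets `B` the vector `lam` is a nonnegative
combination of the degrees `g b`, `b ∈ B`. -/
theorem result (n R p : ℕ) (hn : 1 ≤ n) (d : Fin (n + 1) → ℕ) (hd : ∀ k, 1 ≤ d k)
    (hsum : n + 1 ≤ ∑ k, d k)
    (F : Fin (n + 1) → MvPolynomial (Fin (n + 1)) ℂ) (hF : ∀ k, (F k).IsHomogeneous (d k))
    (hs : NormalCrossings F) (m : Fin R → ℕ) (hm : ∀ j, 1 ≤ m j) (a : Fin R → Fin (n + 1) → ℕ)
    (hdiv : ∀ j, m j ∣ ∑ k, a j k * d k)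
    (K : Type) [Field K] [Algebra ℂ K] (x : Fin (n + 1) → K) (hx0 : x 0 ≠ 0)
    (hbas : IsTranscendenceBasis ℂ (affine x)) (z : Fin R → K)
    (hz : ∀ j, z j ^ m j = ∏ k, (aeval x (F k) / x 0 ^ d k) ^ a j k)
    (hgen : IntermediateField.adjoin ℂ (Set.range (affine x) ∪ Set.range z) = ⊤)
    (ψ : Fin p → (Fin (n + 1) → ℕ) → ℚ) (hψ : AreBoundaries m a ψ)
    (δ : Fin p → Place ℂ K → ℚ) (hδ : ∀ i, δ i = coefficient F d x (ψ i)) :
    ∃ (r : ℕ) (g : Fin r → Fin p →₀ ℕ) (ω : Fin r → (Fin n → Derivation ℂ K K) → K)
      (𝔅 : Finset (Finset (Fin r))),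
      (∀ b, g b ≠ 0 ∧ ω b ≠ 0 ∧ IsSection n δ {1} (g b) 0 (ω b)) ∧
      (∀ P : Place ℂ K, Divisorial n P →
        ∃ B ∈ 𝔅, ∀ b, b ∈ B ↔ DoesNotVanish n δ (g b) (ω b) P) ∧
      ∀ lam : Fin p → ℝ, (∀ i, 0 ≤ lam i) →
        (Nef n δ lam ↔ ∀ B ∈ 𝔅, ∃ t : Fin r → ℝ, (∀ b, 0 ≤ t b) ∧ (∀ b, b ∉ B → t b = 0) ∧
          ∀ i, lam i = ∑ b, t b * g b i) := by
  obtain ⟨e, rfl⟩ : ∃ e, n = e + 1 := ⟨n - 1, by omega⟩
  obtain ⟨r, g, ω, BB, h1, h2, h3⟩ := Pool.Agent.Q57.TC.main_anp (δ := δ) hx0 hbas hd hF hs hm hz
    hdiv hgen hsum hψ.zero hψ.nonneg hψ.ray hψ.finite fun i P => by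
      rw [hδ]
      unfold coefficient
      congr 2
  exact ⟨r, g, ω, BB, fun b => ⟨(h1 b).1, (h1 b).2.1, Pool.Agent.Q57.GG.msec_asec (h1 b).2.2⟩, h2,
    h3⟩

end Pool.Agent.Results.MP_97d78d_ag.NefConeOfCovers
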