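import Pool.Agent.Q181.TG.Fin
import Pool.Agent.Q181.TG.Chain

/-!
# Torsion growth: the threshold `3 / √2`

`Γ` is a torsion-free group and `ℤ[Γ]^ι → ℤ[Γ]^κ → ℤ[Γ]^θ` a part of a complex of finitely generated
free modules, with matrices `A`, `B` (for instance the cellular chain complex of the universal cover
of a closed aspherical manifold in the degrees `k + 1`, `k`, `k - 1`). For a finite `Γ`-set `X`, for
instance `X = Γ ⧸ N`, it gives a complex of free abelian groups; in the example its homology is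
`H_k` of the finite cover.
-/

set_option autoImplicit false

namespace Pool.Agent.Results.MP_98dedd_gt.TorsionGrowthThreshold

open Pool.Agent.Q181.TG TH57.Thr Filter Topology Matrix
open Pool.Agent.Q181.LR (Eqv)
open Pool.Agent.Helper993.HeisDet

/-- The order of the torsion subgroup of the homology, at the middle term, of the complex
`ℤ^(X × ι) → ℤ^(X × κ) → ℤ^(X × θ)` of the `Γ`-set `X`. -/
noncomputable def torsH {G : Type} [Group G] {ι κ θ : Type} [Fintype κ]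
    (A : Matrix ι κ (MonoidAlgebra ℤ G)) (B : Matrix κ θ (MonoidAlgebra ℤ G)) (X : Type)
    [Fintype X] [MulAction G X] : ℕ :=
  tc (LinearMap.ker (reg X B).vecMulLinear ⧸
    (Submodule.span ℤ (Set.range (reg X A))).submoduleOf (LinearMap.ker (reg X B).vecMulLinear))

/-- A decreasing chain of normal subgroups of finite index with trivial intersection. -/
def IsChain {G : Type} [Group G] (N : ℕ → Subgroup G) : Prop :=
  (∀ n, (N n).Normal) ∧ (∀ n, (N n).FiniteIndex) ∧ N 0 = ⊤ ∧ Antitone N ∧ ⨅ n, N n = ⊥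

theorem result :
    -- (1) below `3 / √2`
    (∀ (G : Type) [Group G], (∀ g : G, ∀ k : ℕ, 0 < k → g ^ k = 1 → g = 1) →
      ∀ (ι κ : Type) [Fintype ι] [Fintype κ] [DecidableEq ι] [DecidableEq κ]
        (A : Matrix ι κ (MonoidAlgebra ℤ G)) (c : ℝ), 0 ≤ c → c < 3 / Real.sqrt 2 → NormLE A c →
      ∃ K : ℕ, 1 ≤ K ∧
        (∀ (θ : Type) [Fintype θ] (B : Matrix κ θ (MonoidAlgebra ℤ G)), A * B = 0 →
          ∀ (X : ℕ → Type) [∀ n, Fintype (X n)] [∀ n, Nonempty (X n)] [∀ n, MulAction G (X n)],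
            Far G X → Tendsto (fun n => Real.log (torsH A B (X n)) / Fintype.card (X n)) atTop
              (𝓝 (Real.log K))) ∧
        ∀ (θ : Type) [Fintype θ] (B : Matrix κ θ (MonoidAlgebra ℤ G)), A * B = 0 →
          ∀ (N : ℕ → Subgroup G) [∀ n, Fintype (G ⧸ N n)], IsChain N →
            Tendsto (fun n => Real.log (torsH A B (G ⧸ N n)) / (N n).index) atTop
              (𝓝 (Real.log K))) ∧
    -- (2) above `3 / √2`
    (∀ c : ℝ, 3 / Real.sqrt 2 < c → ∀ N : ℕ, 2 ≤ N →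
      ∃ (n : ℕ) (A : Matrix (Fin n) (Fin n) (MonoidAlgebra ℤ (Heis ℤ))), NormLE A c ∧
        (∀ x : ℝ, 0 < x → x ≤ Real.log N → ∃ C : ℕ → Subgroup (Heis ℤ), IsChain C ∧
          (∀ i, Finite (Cok (reg (Heis ℤ ⧸ C i) A))) ∧ Tendsto (nlog A C) atTop (𝓝 x)) ∧
        (N = 10 → ∃ C : ℕ → Subgroup (Heis ℤ), IsChain C ∧
          (∀ i, Finite (Cok (reg (Heis ℤ ⧸ C i) A))) ∧
            ¬ ∃ x : ℝ, Tendsto (nlog A C) atTop (𝓝 x))) ∧
    -- (3) every matrix is stably equivalent to one of norm slightly above `3 / √2`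
    ∀ (G : Type) [Group G] (ι κ : Type) [Fintype ι] [Fintype κ] [DecidableEq ι] [DecidableEq κ]
      (A : Matrix ι κ (MonoidAlgebra ℤ G)) (c : ℝ), 3 / Real.sqrt 2 < c →
      ∃ (m : ℕ) (B : Matrix (ι ⊕ Fin m) (κ ⊕ Fin m) (MonoidAlgebra ℤ G)),
        Eqv A B ∧ NormLE B c ∧ ∀ (X : Type) [Finite X] [MulAction G X],
          Nonempty (Cok (reg X B) ≃+ Cok (reg X A)) := by
  have key : ∀ (G : Type) [Group G] (ι κ θ : Type) [Fintype κ] [Fintype θ] 
      (A : Matrix ι κ (MonoidAlgebra ℤ G)) (B : Matrix κ θ (MonoidAlgebra ℤ G)), A * B = 0 →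
      ∀ (X : Type) [Fintype X] [MulAction G X], torsH A B X = tc (Cok (reg X A)) := by
    intro G _ ι κ θ _ _ A B hAB X _ _
    classical
    have h0 : reg X (0 : Matrix ι θ (MonoidAlgebra ℤ G)) = 0 := by
      ext p q
      simp [reg]
    exact Pool.Agent.Q66.TG.t_hom _ _ _ (reg X A) (reg X B)
      (by rw [← Pool.Agent.Q151.TG.reg_mul, hAB, h0])
  refine ⟨?_, ?_, ?_⟩
  · intro G _ htf ι κ _ _ _ _ A c hc0 hc hA
    obtain ⟨K, hK, h⟩ := below G htf ι κ A c hc0 hc hA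
    refine ⟨K, hK, ?_, ?_⟩
    · intro θ _ B hAB X _ _ _ hX
      refine (h X hX).congr fun n => ?_
      rw [key G ι κ θ A B hAB (X n), Nat.card_eq_fintype_card]
    · intro θ _ B hAB N _ hN
      obtain ⟨h1, h2, -, h4, h5⟩ := hN
      have := h1
      have hX := t_chain G N h1 h2 h4 h5
      refine (h (fun n => G ⧸ N n) hX).congr fun n => ?_
      rw [key G ι κ θ A B hAB (G ⧸ N n)]
      rfl
  · intro c hc N hN
    obtain ⟨n, A, h1, h2, h3⟩ := f_neg c hc N hN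
    refine ⟨n, A, h1, ?_, ?_⟩
    · intro x hx0 hx
      obtain ⟨C, c1, c2, c3, c4, c5, c6, c7⟩ := h2 x hx0 hx
      exact ⟨C, ⟨c1, c2, c3, c4, c5⟩, c6, c7⟩
    · intro h10
      obtain ⟨C, c1, c2, c3, c4, c5, c6, c7⟩ := h3 h10
      exact ⟨C, ⟨c1, c2, c3, c4, c5⟩, c6, c7⟩
  · intro G _ ι κ _ _ _ _ A c hc
    obtain ⟨C₀, hC₀⟩ := Pool.Agent.Q181.LR.upper_rect A
    obtain ⟨L₀, hL₀⟩ := exists_pow_lt_of_lt_one (sub_pos.2 hc) (by norm_num : (1 / 2 : ℝ) < 1)
    obtain ⟨m, B, hE, -, hB, -⟩ := hC₀ (L₀ + 1) (by omega)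
    have hs : (0 : ℝ) ≤ 3 / Real.sqrt 2 := by positivity
    have hp : ((1 : ℝ) / 2) ^ (L₀ + 1) ≤ (1 / 2) ^ L₀ :=
      pow_le_pow_of_le_one (by norm_num) (by norm_num) (by omega)
    have hp0 : (0 : ℝ) ≤ (1 / 2) ^ (L₀ + 1) := by positivity
    refine ⟨m, B, hE, fun x => (hB x).trans ?_, ?_⟩
    · refine mul_le_mul_of_nonneg_right ?_ (normSq_nonneg _)
      exact pow_le_pow_left₀ (by linarith) (by linarith) 2
    · intro X _ _
      exact Pool.Agent.Q151.TG.t_req G ι κ (Fin m) A B hE X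

end Pool.Agent.Results.MP_98dedd_gt.TorsionGrowthThreshold
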