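import Pool.Agent.Q4.ActF.Main

/-!
# A class of representations which is not definable by formulas of action
-/

namespace Pool.Agent.Results.MP_98e941_al.FixedVectorClass

open Q4.ActF

/-- For every nonzero ring `K` there is an abstract class of representations over `K` (in the
proof: the class of all representations with a nonzero fixed vector) which is axiomatizable,
saturated and right hereditary, but not defined by any set of formulas of action. -/
theorem result (K : Type) [Ring K] [Nontrivial K] :
    ∃ C : Rep K → Prop, IsAbstract C ∧ IsAxiomatizable C ∧ IsSaturated C ∧ IsRightHereditary C ∧
      ¬ IsDefinedByAction C :=
  ⟨Fix K, fix_abstract, fix_axiomatizable, fix_saturated, fix_hereditary, not_definedByAction⟩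

end Pool.Agent.Results.MP_98e941_al.FixedVectorClass
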