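import Mathlib
import Pool.Agent.Q138.Met.ArtinNull
import Pool.Agent.Q138.Met.Squares
import Pool.Agent.H74R5.DatumC
import Pool.Agent.H74R5.Pos

set_option autoImplicit false

/-! # The integer parts `⌊α u_k⌋` of the multiples of a real number `α`: the exceptional `α` form a set
of Hausdorff measure zero, and of dimension `1 / 2` in the limit

Let `P r n x` be the number of primes `p ≤ x` with `gcd (p - 1, r) = 1` modulo which `n` is a
primitive root (`P 1 n x` counts all primes modulo which `n` is a primitive root), `A` Artin's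
constant, `δ D r` the density with the correction factor of the squarefree part `D`; `δ D 1` is the
density of Q1.

Let `1 / 2 < θ < 1`, `C > 1` and `θ (1 - θ) < C (2 θ - 1)`.  There is `κ > 0` such that for every
sequence `u_k > 0` of reals and every `s > θ` with `∑ u_k ^ (θ - s) < ∞` the following holds for all
real numbers `α > 0` outside a set of `s`-dimensional Hausdorff measure zero.

* For every integer `D ≠ 0` and every `ε > 0`, for all large `k`,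
  `|P 1 (D ⌊α u_k⌋) x - A π(x)| ≤ ε π(x)` for EVERY `x` with
  `u_k ^ C ≤ x ≤ exp ((log u_k) ^ (1 + κ))`.
* For every squarefree `D ≡ 1 mod 4`, `D ≠ 1`, every `b ≠ 0`, every odd squarefree `r`, every even
  exponent `l` all of whose odd prime factors divide `r` (`l = 2, 4, 8, …` if `r = 1`) and every
  `ε > 0`, for all large `k`, `|P r (D b² ⌊α u_k⌋ ^ l) x - δ D r π(x)| ≤ ε π(x)` for all the same `x`.

The case `s = 1` is about almost all `α`.  For `u_k = 4 ^ k` the exceptional set has Hausdorff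
dimension at most `θ`, where `θ > 1 / 2` is arbitrary if `C` is large; and the exceptional set of the
first statement has dimension at least `1 / 2`, for all `C` and `κ`.  So `1 / 2` is the right value
(the integer parts `⌊α 4 ^ k⌋` are perfect squares for infinitely many `k` for a set of `α` of
dimension `1 / 2`).

Libraries: helper771 and team (large sieve with `N ^ θ` exceptions, `Pool.Agent.H771R4.SE.allX2`),
the team of `Pool.Agent.H74R5` (main terms with the correction factor), helper261 (mass distribution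
principle). -/

namespace Pool.Agent.Results.MP_991e92_nt.RealMultiples

open Filter Topology MeasureTheory Set
open scoped ENNReal NNReal
open Pool.Agent.H771R4.SE (Dat badY cntE dLin allX2)
open Pool.Agent.H74R5 (cst cstD dEvenC Adapted cst_pos cstD_pos)
open Pool.Agent.Q138.Met (NearL null_dat dim_squares)

open Classical in
/-- the number of primes `p ≤ x` with `gcd (p - 1, r) = 1` modulo which `n` is a primitive root -/
noncomputable def P (r : ℕ) (n : ℤ) (x : ℕ) : ℕ :=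
  ((Finset.range (x + 1)).filter (fun p : ℕ => p.Prime ∧ Nat.Coprime (p - 1) r ∧
    orderOf (n : ZMod p) = p - 1)).card

/-- Artin's constant -/
noncomputable def A : ℝ := ∏' p : Nat.Primes, (1 - 1 / (((p : ℕ) : ℝ) * (((p : ℕ) : ℝ) - 1)))

/-- `∏_{l ∣ r} (1 - 1 / (l - 1)) ∏_{l ∤ r} (1 - 1 / (l (l - 1)))` -/
noncomputable def c (r : ℕ) : ℝ :=
  (∏ l ∈ r.primeFactors, (1 - 1 / ((l : ℝ) - 1))) *
    ∏' p : Nat.Primes, (if (p : ℕ) ∣ r then 1 else 1 - 1 / (((p : ℕ) : ℝ) * (((p : ℕ) : ℝ) - 1)))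

/-- the density, with its correction factor -/
noncomputable def δ (D : ℤ) (r : ℕ) : ℝ :=
  (1 - ((ArithmeticFunction.moebius D.natAbs : ℤ) : ℝ) * ∏ q ∈ D.natAbs.primeFactors,
    (if q ∣ r then 1 / ((q : ℝ) - 2) else 1 / ((q : ℝ) ^ 2 - (q : ℝ) - 1))) * c r

/-- the counts `f k x` are `(a + o(1)) π(x)` as `k → ∞`, uniformly for
`u_k ^ C ≤ x ≤ exp ((log u_k) ^ (1 + κ))` -/
def Near (u : ℕ → ℝ) (C κ : ℝ) (f : ℕ → ℕ → ℕ) (a : ℝ) : Prop :=
  ∀ ε : ℝ, 0 < ε → ∀ᶠ k in atTop, ∀ x : ℕ, (u k) ^ C ≤ x →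
    (x : ℝ) ≤ Real.exp ((Real.log (u k)) ^ (1 + κ)) →
      |(f k x : ℝ) - a * (Nat.primeCounting x : ℝ)| ≤ ε * (Nat.primeCounting x : ℝ)

/-- the exceptional `α` for the integers `D ⌊α u_k⌋` -/
def LinE (u : ℕ → ℝ) (C κ : ℝ) : Set ℝ :=
  {α | 0 < α ∧ ∃ D : ℤ, D ≠ 0 ∧ ¬ Near u C κ (fun k x => P 1 (D * (⌊α * u k⌋₊ : ℤ)) x) A}

/-- the exceptional `α` for the integers `D b² ⌊α u_k⌋ ^ l` -/
def FamE (u : ℕ → ℝ) (C κ : ℝ) : Set ℝ :=
  {α | 0 < α ∧ ∃ (D b : ℤ) (r l : ℕ), Squarefree D ∧ D % 4 = 1 ∧ D ≠ 1 ∧ b ≠ 0 ∧ Squarefree r ∧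
    Odd r ∧ 1 ≤ l ∧ 2 ∣ l ∧ (∀ q : ℕ, q.Prime → q ∣ l → q ≠ 2 → q ∣ r) ∧
    ¬ Near u C κ (fun k x => P r (D * b ^ 2 * (⌊α * u k⌋₊ : ℤ) ^ l) x) (δ D r)}

lemma A_eq : A = cst 1 := by
  unfold A cst
  rw [Nat.primeFactors_one, Finset.prod_empty, one_mul]
  apply tprod_congr
  intro p
  have : ¬ (p : ℕ) ∣ 1 := fun h => p.2.one_lt.ne' (Nat.dvd_one.1 h)
  rw [if_neg this]

lemma A_pos : 0 < A := by
  rw [A_eq]
  exact cst_pos 1 odd_one

lemma P_lin (D : ℤ) (hD : D ≠ 0) (n x : ℕ) : P 1 (D * (n : ℤ)) x = cntE (dLin D hD) n x := by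
  classical
  unfold P cntE
  apply congrArg Finset.card
  ext p
  rw [Finset.mem_filter, Finset.mem_filter]
  simp only [dLin, Int.cast_mul, Int.cast_natCast, Nat.coprime_one_right_eq_true, true_and]

lemma P_fam (D : ℤ) (hD : Squarefree D) (h4 : D % 4 = 1) (hD1 : D ≠ 1) (b : ℤ) (hb : b ≠ 0) (r : ℕ)
    (hr : Squarefree r) (hro : Odd r) (l : ℕ) (hl : 0 < l) (hl2 : 2 ∣ l) (hlr : Adapted r l)
    (n x : ℕ) : P r (D * b ^ 2 * (n : ℤ) ^ l) x =
      cntE (dEvenC D hD h4 hD1 b hb r hr hro l hl hl2 hlr) n x := by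
  classical
  unfold P cntE
  apply congrArg Finset.card
  ext p
  simp only [Finset.mem_filter, dEvenC, Int.cast_mul, Int.cast_pow, Int.cast_natCast]

lemma null_union {θ C C0 κ s : ℝ} (hθ : 0 ≤ θ) (hθs : θ < s) (hC0 : 0 ≤ C0) (hCC : C0 < C)
    (hκ : 0 < κ)
    (hall : ∀ (d : Dat) (ε : ℝ), 0 < ε → ∃ N₀ : ℕ, ∀ N : ℕ, N₀ ≤ N →
      ((badY d ε C0 κ N).card : ℝ) ≤ (N : ℝ) ^ θ)
    (u : ℕ → ℝ) (hu : ∀ k, 0 < u k) (hsum : Summable fun k => (u k) ^ (θ - s)) :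
    μH[s] (LinE u C κ ∪ FamE u C κ) = 0 := by
  refine measure_union_null ?_ ?_
  · have hsub : LinE u C κ ⊆ ⋃ D : ℤ, {α : ℝ | ∃ hD : D ≠ 0, 0 < α ∧
        ¬ NearL u C κ (fun k x => cntE (dLin D hD) ⌊α * u k⌋₊ x) (dLin D hD).A} := by
      rintro α ⟨hα, D, hD, hn⟩
      refine mem_iUnion.2 ⟨D, hD, hα, fun h => hn ?_⟩
      intro ε hε
      filter_upwards [h ε hε] with k hk x hx1 hx2
      have := hk x hx1 hx2
      rw [P_lin D hD]
      exact this
    refine measure_mono_null hsub (measure_iUnion_null fun D => ?_)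
    by_cases hD : D = 0
    · convert measure_empty (μ := (μH[s] : Measure ℝ))
      ext α
      simp [hD]
    · refine measure_mono_null ?_ (null_dat hθ hθs hC0 hCC hκ (dLin D hD) (hall _) u hu hsum)
      rintro α ⟨_, h⟩
      exact h
  · have hsub : FamE u C κ ⊆ ⋃ i : ℤ × ℤ × ℕ × ℕ, {α : ℝ | ∃ (hD : Squarefree i.1)
        (h4 : i.1 % 4 = 1) (hD1 : i.1 ≠ 1) (hb : i.2.1 ≠ 0) (hr : Squarefree i.2.2.1)
        (hro : Odd i.2.2.1) (hl : 0 < i.2.2.2) (hl2 : 2 ∣ i.2.2.2)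
        (hlr : Adapted i.2.2.1 i.2.2.2), 0 < α ∧
        ¬ NearL u C κ (fun k x => cntE (dEvenC i.1 hD h4 hD1 i.2.1 hb i.2.2.1 hr hro i.2.2.2 hl hl2
          hlr) ⌊α * u k⌋₊ x) (cstD i.1 i.2.2.1)} := by
      rintro α ⟨hα, D, b, r, l, hD, h4, hD1, hb, hr, hro, hl, hl2, hlr, hn⟩
      refine mem_iUnion.2 ⟨(D, b, r, l), hD, h4, hD1, hb, hr, hro, hl, hl2, hlr, hα, fun h => hn ?_⟩
      intro ε hε
      filter_upwards [h ε hε] with k hk x hx1 hx2
      have := hk x hx1 hx2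
      rw [P_fam D hD h4 hD1 b hb r hr hro l hl hl2 hlr]
      exact this
    refine measure_mono_null hsub (measure_iUnion_null fun i => ?_)
    by_cases hi : ∃ (hD : Squarefree i.1)
        (h4 : i.1 % 4 = 1) (hD1 : i.1 ≠ 1) (hb : i.2.1 ≠ 0) (hr : Squarefree i.2.2.1)
        (hro : Odd i.2.2.1) (hl : 0 < i.2.2.2) (hl2 : 2 ∣ i.2.2.2), Adapted i.2.2.1 i.2.2.2
    · obtain ⟨hD, h4, hD1, hb, hr, hro, hl, hl2, hlr⟩ := hi
      refine measure_mono_null ?_ (null_dat hθ hθs hC0 hCC hκ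
        (dEvenC i.1 hD h4 hD1 i.2.1 hb i.2.2.1 hr hro i.2.2.2 hl hl2 hlr) (hall _) u hu hsum)
      rintro α ⟨_, _, _, _, _, _, _, _, _, h⟩
      exact h
    · convert measure_empty (μ := (μH[s] : Measure ℝ))
      rw [eq_empty_iff_forall_notMem]
      rintro α ⟨hD, h4, hD1, hb, hr, hro, hl, hl2, hlr, _⟩
      exact hi ⟨hD, h4, hD1, hb, hr, hro, hl, hl2, hlr⟩

/-- a perfect square is a primitive root modulo `2` at most -/
lemma P_square (n x : ℕ) (hn : IsSquare n) : P 1 (1 * (n : ℤ)) x ≤ 1 := by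
  classical
  obtain ⟨m, rfl⟩ := hn
  have hsub : (Finset.range (x + 1)).filter (fun p : ℕ => p.Prime ∧ Nat.Coprime (p - 1) 1 ∧
      orderOf (((1 * ((m * m : ℕ) : ℤ) : ℤ)) : ZMod p) = p - 1) ⊆ {2} := by
    intro p hp
    rw [Finset.mem_filter] at hp
    obtain ⟨_, hp, _, ho⟩ := hp
    rw [Finset.mem_singleton]
    by_contra hp2
    have : Fact p.Prime := ⟨hp⟩
    have hp3 : 3 ≤ p := by
      have := hp.two_le
      omega
    have e : (((1 * ((m * m : ℕ) : ℤ) : ℤ)) : ZMod p) = ((m : ZMod p)) ^ 2 := by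
      push_cast
      ring
    rw [e] at ho
    by_cases hm : (m : ZMod p) = 0
    · rw [hm, zero_pow two_ne_zero, orderOf_zero] at ho
      omega
    · have hodd : p % 2 = 1 := hp.eq_two_or_odd.resolve_left hp2
      have h1 : ((m : ZMod p) ^ 2) ^ ((p - 1) / 2) = 1 := by
        rw [← pow_mul, show 2 * ((p - 1) / 2) = p - 1 by omega]
        exact ZMod.pow_card_sub_one_eq_one hm
      have h2 := orderOf_dvd_of_pow_eq_one h1
      rw [ho] at h2
      have h3 := Nat.le_of_dvd (by omega) h2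
      omega
  have h := Finset.card_le_card hsub
  rw [Finset.card_singleton] at h
  unfold P
  refine le_trans (le_of_eq ?_) h
  congr

lemma sub_squares {C κ : ℝ} (hC : 0 < C) (hκ : 0 < κ) :
    {α : ℝ | 0 < α ∧ ∃ᶠ k : ℕ in atTop, IsSquare ⌊α * 4 ^ k⌋₊} ⊆
      LinE (fun k => (4 : ℝ) ^ k) C κ := by
  rintro α ⟨hα, hfr⟩
  refine ⟨hα, 1, one_ne_zero, fun hN => ?_⟩
  have hA := A_pos
  have h1 := hN (A / 2) (by positivity)
  -- the logarithms
  have hL : Tendsto (fun k : ℕ => Real.log ((4 : ℝ) ^ k)) atTop atTop := by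
    have h2 : (fun k : ℕ => Real.log ((4 : ℝ) ^ k)) = fun k : ℕ => (k : ℝ) * Real.log 4 := by
      funext k
      rw [Real.log_pow]
    rw [h2]
    exact tendsto_natCast_atTop_atTop.atTop_mul_const (Real.log_pos (by norm_num))
  have h3 : ∀ᶠ k : ℕ in atTop, C + 1 ≤ (Real.log ((4 : ℝ) ^ k)) ^ κ :=
    ((tendsto_rpow_atTop hκ).comp hL).eventually_ge_atTop _
  have h4 : ∀ᶠ k : ℕ in atTop, 1 ≤ Real.log ((4 : ℝ) ^ k) := hL.eventually_ge_atTop 1
  have hX : Tendsto (fun k : ℕ => ((4 : ℝ) ^ k) ^ C) atTop atTop :=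
    (tendsto_rpow_atTop hC).comp (tendsto_pow_atTop_atTop_of_one_lt (by norm_num))
  have hπ : Tendsto (fun k : ℕ => (Nat.primeCounting ⌈((4 : ℝ) ^ k) ^ C⌉₊ : ℝ)) atTop atTop :=
    tendsto_natCast_atTop_atTop.comp (Nat.tendsto_primeCounting.comp
      (tendsto_nat_ceil_atTop.comp hX))
  have h5 : ∀ᶠ k : ℕ in atTop, 4 / A ≤ (Nat.primeCounting ⌈((4 : ℝ) ^ k) ^ C⌉₊ : ℝ) :=
    hπ.eventually_ge_atTop _
  obtain ⟨k, hk, h1, h3, h4, h5⟩ := (hfr.and_eventually (h1.and (h3.and (h4.and h5)))).exists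
  set x := ⌈((4 : ℝ) ^ k) ^ C⌉₊ with hx
  set L := Real.log ((4 : ℝ) ^ k) with hLdef
  have h4k : (0 : ℝ) < 4 ^ k := by positivity
  have hx1 : ((4 : ℝ) ^ k) ^ C ≤ x := Nat.le_ceil _
  have hx2 : (x : ℝ) ≤ Real.exp (L ^ (1 + κ)) := by
    have h6 : (x : ℝ) ≤ ((4 : ℝ) ^ k) ^ C + 1 := (Nat.ceil_lt_add_one (by positivity)).le
    have h7 : ((4 : ℝ) ^ k) ^ C = Real.exp (L * C) := by
      rw [Real.rpow_def_of_pos h4k]
    have h8 : L * C + 1 ≤ L ^ (1 + κ) := by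
      have h9 : L ^ (1 + κ) = L * L ^ κ := by
        rw [Real.rpow_add (by linarith), Real.rpow_one]
      rw [h9]
      nlinarith
    have h9 : Real.exp (L * C) + 1 ≤ Real.exp (L * C + 1) := by
      rw [Real.exp_add]
      have h10 : (1 : ℝ) ≤ Real.exp (L * C) := Real.one_le_exp (by positivity)
      have h11 : (2 : ℝ) ≤ Real.exp 1 := by
        have := Real.add_one_le_exp 1
        linarith
      nlinarith
    calc (x : ℝ) ≤ Real.exp (L * C) + 1 := by rw [← h7]; exact h6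
      _ ≤ Real.exp (L * C + 1) := h9
      _ ≤ _ := Real.exp_le_exp.2 h8
  have h10 := h1 x hx1 hx2
  have h11 : (P 1 (1 * (⌊α * 4 ^ k⌋₊ : ℤ)) x : ℝ) ≤ 1 := by
    exact_mod_cast P_square _ x hk
  have h12 : 4 ≤ A * (Nat.primeCounting x : ℝ) := by
    rw [div_le_iff₀ hA] at h5
    linarith
  rw [abs_le] at h10
  simp only at h10
  linarith [h10.1]

theorem result (θ C : ℝ) (hθ : 1 / 2 < θ) (hθ1 : θ < 1) (hC : 1 < C)
    (hCθ : θ * (1 - θ) < C * (2 * θ - 1)) :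
    ∃ κ : ℝ, 0 < κ ∧
      (∀ u : ℕ → ℝ, (∀ k, 0 < u k) → ∀ s : ℝ, θ < s → Summable (fun k => (u k) ^ (θ - s)) →
        μH[s] (LinE u C κ ∪ FamE u C κ) = 0) ∧
      (∀ u : ℕ → ℝ, (∀ k, 0 < u k) → Summable (fun k => (u k) ^ (θ - 1)) →
        volume (LinE u C κ ∪ FamE u C κ) = 0) ∧
      1 / 2 ≤ dimH (LinE (fun k => (4 : ℝ) ^ k) C κ) ∧
      dimH (LinE (fun k => (4 : ℝ) ^ k) C κ ∪ FamE (fun k => (4 : ℝ) ^ k) C κ) ≤
        ENNReal.ofReal θ := by
  have h2θ : 0 < 2 * θ - 1 := by linarith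
  obtain ⟨C0, hC01, hC0C, hC0θ⟩ : ∃ C0 : ℝ, 1 < C0 ∧ C0 < C ∧ θ * (1 - θ) < C0 * (2 * θ - 1) := by
    have h1 : θ * (1 - θ) / (2 * θ - 1) < C := by
      rw [div_lt_iff₀ h2θ]
      exact hCθ
    obtain ⟨C0, h2, h3⟩ := exists_between (max_lt hC h1)
    refine ⟨C0, lt_of_le_of_lt (le_max_left _ _) h2, h3, ?_⟩
    have h4 := lt_of_le_of_lt (le_max_right _ _) h2
    rwa [div_lt_iff₀ h2θ] at h4
  obtain ⟨κ, hκ, hall⟩ := allX2 θ C0 hθ hθ1 hC01 hC0θ
  have hnull : ∀ u : ℕ → ℝ, (∀ k, 0 < u k) → ∀ s : ℝ, θ < s →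
      Summable (fun k => (u k) ^ (θ - s)) → μH[s] (LinE u C κ ∪ FamE u C κ) = 0 :=
    fun u hu s hs hsum => null_union (by linarith) hs (by linarith) hC0C hκ hall u hu hsum
  refine ⟨κ, hκ, hnull, fun u hu hsum => ?_, ?_, ?_⟩
  · rw [← hausdorffMeasure_real]
    exact hnull u hu 1 hθ1 hsum
  · exact dim_squares.trans (dimH_mono (sub_squares (by linarith) hκ))
  · have h4 : ∀ s : ℝ, θ < s → dimH (LinE (fun k => (4 : ℝ) ^ k) C κ ∪
        FamE (fun k => (4 : ℝ) ^ k) C κ) ≤ ENNReal.ofReal s := by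
      intro s hs
      have hs0 : 0 ≤ s := by linarith
      have h5 := hnull (fun k => (4 : ℝ) ^ k) (fun k => by positivity) s hs ?_
      · change _ ≤ ((s.toNNReal : ℝ≥0) : ℝ≥0∞)
        apply dimH_le_of_hausdorffMeasure_ne_top
        rw [Real.coe_toNNReal s hs0, h5]
        exact ENNReal.zero_ne_top
      · have h7 : (fun k : ℕ => ((4 : ℝ) ^ k) ^ (θ - s)) = fun k : ℕ => ((4 : ℝ) ^ (θ - s)) ^ k := by
          funext k
          rw [← Real.rpow_natCast, ← Real.rpow_natCast, ← Real.rpow_mul (by norm_num),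
            ← Real.rpow_mul (by norm_num), mul_comm]
        rw [h7]
        apply summable_geometric_of_lt_one (by positivity)
        apply Real.rpow_lt_one_of_one_lt_of_neg (by norm_num) (by linarith)
    apply ENNReal.le_of_forall_pos_le_add
    intro ε hε _
    have h5 := h4 (θ + ε) (by have : (0 : ℝ) < ε := by exact_mod_cast hε
                              linarith)
    refine h5.trans (le_of_eq ?_)
    rw [ENNReal.ofReal_add (by linarith) (NNReal.coe_nonneg _), ENNReal.ofReal_coe_nnreal]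

end Pool.Agent.Results.MP_991e92_nt.RealMultiples
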