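import Mathlib
import Pool.Agent.Q283.Q3.Fld

/-!
# Elliptic curves over a fixed multicubic field, for an explicit positive proportion of ALL `D`

`E_D : y² + D y = x³`, a curve over `ℚ`, `3`-isogenous to `x³ + y³ = D`. Fix numbers `d_1, …, d_k`
(`k` arbitrary), `1` modulo `9`, with all prime divisors `1` modulo `3`, independent modulo cubes, and let
`F` be a number field generated by cube roots of the `d_j` and the cube roots of unity in `F`: that is,
`F = ℚ(∛d_1, …, ∛d_k)`, of degree `3 ^ k` and not Galois over `ℚ`, or its Galois closure, of degree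
`2 · 3 ^ k`. Let `D` run through ALL squarefree numbers prime to `3`, not `±1` modulo `9`, with exactly one
prime divisor `2` modulo `3` (at least `a X / sqrt (log X)` of them up to `X`).

* The `3 ^ k` cubic twists of `E_D` by the characters of `F`, that is, the curves `E_N` for the cube-free
  parts `N` of `D ∏ d_j ^ e_j`, all have finite `E_N(ℚ)` and `Ш(E_N / ℚ)[3^∞] = 0` for EXACTLY the proportion
  `c ^ (3 ^ k)` of the `D`, `c = ∏_{i ≥ 1} (1 - 3^{-i}) = 0.5601…`. (They are asymptotically independent.)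
* For all these `D`: `E_D(F)` is finite, the Euler product of `L(E_D / F, s)` over the places that do not
  divide `6 D d_1 ⋯ d_k` has an entire continuation which is not zero at `s = 1` (the omitted factors are
  finite and not zero at `s = 1`), so rank and order of vanishing are both `0` over `F`, and the
  `3`-primary part of `Ш(E_D / F)` is killed by `3 ^ k`, hence finite.
-/

set_option autoImplicit false

open scoped Classical

namespace Pool.Agent.Results.MP_9ab903_nt.MulticubicFieldsExactProportion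

open NumberField IsDedekindDomain

/-- The curve `E_N : y² + N y = x³` over `ℚ`. -/
def curve (N : ℕ) : WeierstrassCurve ℚ := ⟨0, 0, N, 0, 0⟩

/-- `D` is squarefree, prime to `3`, not `±1` modulo `9`, and exactly one prime divisor of `D` is `2`
modulo `3`. -/
def Class (D : ℕ) : Prop :=
  Squarefree D ∧ ¬ 3 ∣ D ∧ D % 9 ≠ 1 ∧ D % 9 ≠ 8 ∧
    ∃ q : ℕ, q.Prime ∧ q % 3 = 2 ∧ q ∣ D ∧ ∀ p : ℕ, p.Prime → p ∣ D → p ≠ q → p % 3 = 1

/-- No product `∏ d_j ^ e_j` with exponents `0, 1, 2`, not all zero, is a cube. -/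
def Independent {k : ℕ} (d : Fin k → ℕ) : Prop :=
  ∀ e : Fin k → ZMod 3, e ≠ 0 → ∀ c : ℕ, ∏ j, d j ^ (e j).val ≠ c ^ 3

/-- `F` is generated by cube roots of the `d_j` and the cube roots of unity in `F`. -/
def IsMulticubic {k : ℕ} (d : Fin k → ℕ) (F : Type) [Field F] [NumberField F] : Prop :=
  ∃ θ : Fin k → F, (∀ j, θ j ^ 3 = (d j : F)) ∧
    IntermediateField.adjoin ℚ ({x : F | x ^ 3 = 1} ∪ Set.range θ) = ⊤

/-- `E_N(ℚ)` is finite and `Ш(E_N / ℚ)[3^∞] = 0`. -/
def TrivialThree (N : ℕ) : Prop :=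
  Finite (curve N).toAffine.Point ∧
    ∀ (n : ℕ) (x : Pool.Agent.TH841.SH.D.Sha (curve N)), 3 ^ n • x = 0 → x = 0

/-- For all `3 ^ k` vectors of exponents `e`, the cube-free part `N` of `D ∏ d_j ^ e_j` has finite
`E_N(ℚ)` and `Ш(E_N / ℚ)[3^∞] = 0`. -/
def AllTwistsTrivial {k : ℕ} (d : Fin k → ℕ) (D : ℕ) : Prop :=
  ∀ e : Fin k → ZMod 3, ∃ N c : ℕ, D * ∏ j, d j ^ (e j).val = N * c ^ 3 ∧
    (∀ p : ℕ, p.Prime → ¬ p ^ 3 ∣ N) ∧ TrivialThree N

/-- `a_v(E_N)`: the norm of `v` minus the number of the affine points of `y² + N y = x³` over the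
residue field of `v`. -/
noncomputable def a {F : Type} [Field F] [NumberField F] (N : ℕ) (v : HeightOneSpectrum (𝓞 F)) : ℤ :=
  ((Ideal.absNorm v.asIdeal : ℕ) : ℤ) -
    ((Nat.card {x : (𝓞 F ⧸ v.asIdeal) × (𝓞 F ⧸ v.asIdeal) //
      x.2 ^ 2 + (N : 𝓞 F ⧸ v.asIdeal) * x.2 = x.1 ^ 3} : ℕ) : ℤ)

/-- The Euler factor of `L(E_N/F, s)` at `v`; it is replaced by `1` if `v` divides `M`. -/
noncomputable def factor {F : Type} [Field F] [NumberField F] (M N : ℕ) (s : ℂ)
    (v : HeightOneSpectrum (𝓞 F)) : ℂ :=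
  if ((M : ℕ) : 𝓞 F) ∈ v.asIdeal then 1 else
    (1 - ((a N v : ℤ) : ℂ) * ((Ideal.absNorm v.asIdeal : ℕ) : ℂ) ^ (-s) +
      ((Ideal.absNorm v.asIdeal : ℕ) : ℂ) ^ (1 - 2 * s))⁻¹

/-- `E_N(F)` is finite, and there is an entire function `L` equal to the Euler product of `E_N` over
the places of `F` that do not divide `M` for `Re s > 3/2`, with `L(1) ≠ 0`. -/
def RankZero (M N : ℕ) (F : Type) [Field F] [NumberField F] : Prop :=
  Finite ((curve N).baseChange F).toAffine.Point ∧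
    ∃ L : ℂ → ℂ, Differentiable ℂ L ∧
      (∀ s : ℂ, 3 / 2 < s.re → HasProd (factor (F := F) M N s) (L s)) ∧ L 1 ≠ 0

/-- Every element of `3`-power order of `Ш(E_N/F)` is killed by `3 ^ k`. Here `Sha W` is the group of
the continuous cocycles `Gal(F̄/F) → W(F̄)` which are coboundaries at all finite and infinite places
of `F`, modulo the coboundaries. -/
def ShaThree (k N : ℕ) (F : Type) [Field F] [NumberField F] : Prop :=
  ∀ (n : ℕ) (x : Pool.Agent.TH841.NF.D.Sha ((curve N).baseChange F)),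
    3 ^ n • x = 0 → 3 ^ k • x = 0

/-- the number of the `D ≤ X` in the class with the property `P` -/
noncomputable def count (P : ℕ → Prop) (X : ℕ) : ℕ :=
  ((Finset.Icc 1 X).filter fun D => Class D ∧ P D).card

/-- `c = ∏_{i ≥ 1} (1 - 3^{-i})` -/
noncomputable def c : ℝ := ∏' i : ℕ, (1 - (1 / 3 : ℝ) ^ (i + 1))

theorem curve_eq (N : ℕ) :
    curve N = Pool.Agent.Y703.CT.EQ (Pool.Agent.Y703.CT.WD ((N : ℕ) : ℤ)) := by
  ext <;> simp [curve, Pool.Agent.Y703.CT.WD]

theorem triv_eq (N : ℕ) : TrivialThree N ↔ Pool.Agent.Y703.CT.Triv3 N := by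
  unfold TrivialThree Pool.Agent.Y703.CT.Triv3
  rw [curve_eq]

theorem class_iff (D : ℕ) : Class D ↔ Squarefree D ∧ Pool.Agent.Y703.CT.Cls D := by
  unfold Class Pool.Agent.Y703.CT.Cls Pool.Agent.Y703.CT.Base
  constructor
  · rintro ⟨h1, h2, h3, h4, h5⟩
    refine ⟨h1, ⟨h1.ne_zero, h2, ?_⟩, h3, h4, h5⟩
    intro p hp h
    have h6 : p * p ∣ D := (Dvd.intro p (by ring)).trans h
    exact hp.one_lt.ne' (Nat.isUnit_iff.1 (h1 p h6))
  · rintro ⟨h1, ⟨h6, h2, h7⟩, h3, h4, h5⟩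
    exact ⟨h1, h2, h3, h4, h5⟩

theorem all_iff {k : ℕ} {d : Fin k → ℕ} (hd : ∀ j, Q283.Q3N.Mul3 (d j)) {D : ℕ} (hD : Class D) :
    AllTwistsTrivial d D ↔ Q283.Q3N.AllG d D := by
  have hC := ((class_iff D).1 hD).2
  refine forall_congr' fun e => ?_
  have h := Q283.Q3N.g3_triv hC (Q283.Q3N.mul3_prod hd e)
  refine Iff.trans ?_ h.symm
  refine exists_congr fun N => exists_congr fun c => ?_
  rw [triv_eq]

theorem result (k : ℕ) (d : Fin k → ℕ) (hd : ∀ j, d j % 9 = 1)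
    (hp : ∀ (j : Fin k) (p : ℕ), p.Prime → p ∣ d j → p % 3 = 1) (hind : Independent d) :
    Filter.Tendsto (fun X : ℕ => (count (AllTwistsTrivial d) X : ℝ) /
      (count (fun _ => True) X : ℝ)) Filter.atTop (nhds (c ^ (3 ^ k))) ∧
    (∀ D : ℕ, Class D → AllTwistsTrivial d D →
      ∀ (F : Type) [Field F] [NumberField F], IsMulticubic d F →
        3 ^ k ∣ Module.finrank ℚ F ∧ RankZero (6 * D * ∏ j, d j) D F ∧ ShaThree k D F) ∧
    (∃ (a : ℝ) (X₀ : ℕ), 0 < a ∧ ∀ X : ℕ, X₀ ≤ X →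
      a * (X / Real.sqrt (Real.log X)) ≤ (count (fun _ => True) X : ℝ)) ∧
    0.56 < c ∧ c < 0.5602 := by
  have hm : ∀ j, Q283.Q3N.Mul3 (d j) := fun j => ⟨hd j, hp j⟩
  refine ⟨?_, ?_, ?_, ?_⟩
  · refine (Q283.Q3N.law_all hm hind).congr fun X => ?_
    unfold count Q283.Q3N.SN
    rw [Finset.filter_filter]
    congr 2
    · refine Pool.Agent.XLK.fcc fun D _ => ?_
      rw [← class_iff]
      exact and_congr_right fun hD => (all_iff hm hD).symm
    · refine Pool.Agent.XLK.fcc fun D _ => ?_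
      rw [← class_iff]
      exact ⟨fun h => ⟨h, trivial⟩, fun h => h.1⟩
  · rintro D hD hA F _ _ ⟨θ, hθ, hgen⟩
    have hC := ((class_iff D).1 hD).2
    obtain ⟨h1, ⟨h2, L, h3, h4, h5⟩, h6⟩ := Q283.Q3N.fld hm hind hC.1.1 ((all_iff hm hD).1 hA) hθ hgen
    refine ⟨h1, ⟨?_, L, h3, fun s hs => (h4 s hs).congr_fun fun v => rfl, h5⟩, ?_⟩
    · rw [curve_eq]
      exact h2
    · unfold ShaThree
      rw [curve_eq]
      exact h6
  · obtain ⟨a, X₀, ha, h⟩ := Q283.Q3N.low_SN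
    refine ⟨a, X₀, ha, fun X hX => (h X hX).trans (le_of_eq ?_)⟩
    unfold count Q283.Q3N.SN
    congr 1
    refine Pool.Agent.XLK.fcc fun D _ => ?_
    rw [← class_iff]
    exact ⟨fun h => ⟨h, trivial⟩, fun h => h.1⟩
  · obtain ⟨h1, -, -, h4⟩ := Pool.Agent.Y461.CX.t_C3
    refine ⟨h4, ?_⟩
    have h5 := (abs_le.1 (h1 10)).1
    have h6 : ∏ i ∈ Finset.range 10, (1 - (1 / 3 : ℝ) ^ (i + 1)) < 0.56015 := by
      norm_num [Finset.prod_range_succ]
    have h7 : (1 / 3 : ℝ) ^ 10 < 0.00002 := by norm_num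
    have h8 : c = Pool.Agent.Y703.CX.c3 := rfl
    rw [h8]
    linarith

end Pool.Agent.Results.MP_9ab903_nt.MulticubicFieldsExactProportion
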