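import Mathlib
import Pool.Agent.Q273.ApxF
import Pool.Agent.Results.MP_9b9442_nt.ProductsOfCurves

/-!
# Vojta's inequality on products of curves above the good approximations of almost all points

Let `C_1, …, C_n` be smooth projective curves (over number fields) and `t_i : C_i → ℙ¹` finite maps
of degree `N_i` over `ℚ` which are unramified outside the fibres over rational points
`a_{i 1}, …, a_{i q_i} ≠ ∞`; by Belyi's theorem every curve has such a map with `q_i = 3`. Let `A_i`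
be the ring of functions on `C_i` with poles only over `∞`: a Dedekind domain, finite over `ℚ[t]`.
Let `y_{i j 0} = t - a_{i j}, y_{i j 1}, …` be generators of the radical of the ideal
`(t - a_{i j})`, the ideal of the reduced fibre over `a_{i j}`. By the formula of Riemann and Hurwitz
`(deg K_{C_i}) / N_i = q_i - 2 - (∑_j dim (A_i / (y_{i j 0}, y_{i j 1}, …))) / N_i`.

Let `X = C_1 × ⋯ × C_n`. The points `P` of `X` (not over `∞`) over a number field `L` are the
families of homomorphisms `φ_i : A_i → L`, `t_i(P) = φ_i(t)`, and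
`h_K(P) = ∑_i ((deg K_{C_i}) / N_i) h(t_i(P))` up to `ε ∑_i h(t_i(P)) + O(1)`.

Let `K` be a number field, `Y` a metric space and `ψ : K^n → Y` a map, for instance the inclusion in
the points over a completion. We consider all points `P` of `X`, of any degree at most
`N_1 ⋯ N_n` over `K`, above those `x ∈ K^n` which are good approximations of a point `ξ` of `Y`.
-/

set_option autoImplicit false

namespace Pool.Agent.Results.MP_9b9442_nt.GoodApproximations

open Polynomial NumberField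

/-- The function `t`. -/
noncomputable def coord (A : Type) [CommRing A] [Algebra ℚ[X] A] : A := algebraMap ℚ[X] A X

/-- The logarithmic height of `x ∈ K`, relative to `K`. -/
noncomputable def height {K : Type} [Field K] [NumberField K] (x : K) : ℝ := Height.logHeight₁ x

/-- The logarithmic discriminant `log |disc L| / [L : K] - log |disc K|`. -/
noncomputable def logDisc (K L : Type) [Field K] [NumberField K] [Field L] [NumberField L]
    [Algebra K L] : ℝ :=
  Real.log |(discr L : ℝ)| / Module.finrank K L - Real.log |(discr K : ℝ)|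

/-- `q - 2 - (∑_j dim (A / (y_{j 0}, y_{j 1}, …))) / N`, where `N` is the rank of `A` over `ℚ[t]`. -/
noncomputable def canonicalDegree {A : Type} [CommRing A] [Algebra ℚ A] [Algebra ℚ[X] A] {q : ℕ}
    {u : Fin q → ℕ} (y : ∀ j, Fin (u j + 1) → A) : ℝ :=
  q - 2 - (∑ j, (Module.finrank ℚ (A ⧸ Ideal.span (Set.range (y j))) : ℝ)) /
    Module.finrank ℚ[X] A

/-- The `x = (x_1, …, x_n) ∈ K ^ n`, `x_i ≠ a_{i j}`, with
`dist(ξ, ψ(x)) ≤ B max_i H(x_i) ^ (-τ)` above which there is, over some number field `L` which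
contains `K`, a point `P = (φ_i)` of the product of the curves with
`d_K(L) + c < ∑_i (canonicalDegree_i + θ) h(x_i)`; here `H(x_i) = exp h(x_i)`. -/
def BadApproximations (K : Type) [Field K] [NumberField K] {n : ℕ} {q : Fin n → ℕ}
    {A : Fin n → Type} [∀ i, CommRing (A i)] [∀ i, Algebra ℚ (A i)] [∀ i, Algebra ℚ[X] (A i)]
    (a : ∀ i, Fin (q i) → ℚ) {u : ∀ i, Fin (q i) → ℕ} (y : ∀ i j, Fin (u i j + 1) → A i)
    {Y : Type} [MetricSpace Y] (ψ : (Fin n → K) → Y) (ξ : Y) (τ B θ c : ℝ) : Set (Fin n → K) :=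
  {x | (∀ i j, x i ≠ (a i j : K)) ∧
    dist ξ (ψ x) ≤ B * (Real.exp (⨆ i, height (x i))) ^ (-τ) ∧
    ∃ (L : Type) (_ : Field L) (_ : NumberField L) (_ : Algebra K L) (φ : ∀ i, A i →+* L),
      (∀ i, φ i (coord (A i)) = algebraMap K L (x i)) ∧
      logDisc K L + c < ∑ i, (canonicalDegree (y i) + θ) * height (x i)}

/-- The exponent. -/
noncomputable def exponent (n Q : ℕ) (θ : ℝ) : ℝ :=
  min (max (θ * n) (2 * n - 4 / 5))
    (min ((2 - 4 * (2 - θ) / (Q : ℝ) ^ 2) * n)
      (((Q : ℝ) - 2 + θ) * (1 - (1 - 2 / (Q : ℝ)) ^ n) * n))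

private theorem exponent_nonneg {n Q : ℕ} (hn : 1 ≤ n) (hQ : 2 ≤ Q) {θ : ℝ} (hθ0 : 0 ≤ θ)
    : 0 ≤ exponent n Q θ := by
  have hn1 : (1 : ℝ) ≤ n := by exact_mod_cast hn
  have hQ2 : (2 : ℝ) ≤ Q := by exact_mod_cast hQ
  have hQ0 : (0 : ℝ) < Q := by linarith
  unfold exponent
  refine le_min ((by linarith : (0 : ℝ) ≤ 2 * n - 4 / 5).trans (le_max_right _ _))
    (le_min ?_ ?_)
  · apply mul_nonneg _ (by linarith)
    have h1 : 4 * (2 - θ) / (Q : ℝ) ^ 2 ≤ 2 := by
      rw [div_le_iff₀ (by positivity)]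
      nlinarith
    linarith
  · have h1 : (0 : ℝ) ≤ 1 - 2 / (Q : ℝ) := by
      rw [sub_nonneg, div_le_one hQ0]
      exact hQ2
    have h2 : 1 - 2 / (Q : ℝ) ≤ 1 := by
      have : 0 ≤ 2 / (Q : ℝ) := by positivity
      linarith
    have h3 : (1 - 2 / (Q : ℝ)) ^ n ≤ 1 := pow_le_one₀ h1 h2
    apply mul_nonneg (mul_nonneg (by linarith) (by linarith)) (by linarith)

/-- **Vojta's inequality on products of curves above the good approximations of almost all points.**
For `i = 1, …, n` let `A_i` be a Dedekind domain, finite over `ℚ[t]` and containing it (the ring of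
functions of a smooth affine curve which is finite over the `t`-line), `a_{i 1}, …, a_{i q_i}` distinct
rational numbers, `1 ≤ q_i ≤ Q`, `Q ≥ 2`, and `y_{i j 0} = t - a_{i j}, y_{i j 1}, …` elements of the
radical of the ideal `(t - a_{i j})`, for example generators. Let `K` be a number field, `Y` a metric
space, `ψ : K ^ n → Y` a map, `0 ≤ θ < 2` and `τ > 0`. There is a set `E ⊆ Y` of Hausdorff dimension
at most `exponent n Q θ / τ` such that for each `ξ ∈ Y` outside `E` and all real `B`, `c`, for all but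
finitely many of the `x ∈ K ^ n`, `x_i ≠ a_{i j}`, with `dist(ξ, ψ(x)) ≤ B max_i H(x_i) ^ (-τ)`, ALL
points `P` of the product of the curves above `x`, over any number field `L` containing `K`, satisfy
`∑_i (canonicalDegree_i + θ) h(x_i) ≤ d_K(L) + c`. The exponent is smaller than `2 n`. -/
theorem result (K : Type) [Field K] [NumberField K] (n : ℕ) (hn : 1 ≤ n) (Q : ℕ) (hQ : 2 ≤ Q)
    (q : Fin n → ℕ) (hq : ∀ i, 1 ≤ q i) (hqQ : ∀ i, q i ≤ Q) (A : Fin n → Type)
    [∀ i, CommRing (A i)] [∀ i, IsDedekindDomain (A i)] [∀ i, Algebra ℚ (A i)]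
    [∀ i, Algebra ℚ[X] (A i)] [∀ i, IsScalarTower ℚ ℚ[X] (A i)] [∀ i, Module.Finite ℚ[X] (A i)]
    [∀ i, FaithfulSMul ℚ[X] (A i)]
    (a : ∀ i, Fin (q i) → ℚ) (ha : ∀ i, Function.Injective (a i))
    (u : ∀ i, Fin (q i) → ℕ) (y : ∀ i j, Fin (u i j + 1) → A i)
    (hy0 : ∀ i j, y i j 0 = coord (A i) - algebraMap ℚ[X] (A i) (C (a i j)))
    (hyr : ∀ i j l, y i j l ∈
      (Ideal.span {coord (A i) - algebraMap ℚ[X] (A i) (C (a i j))}).radical)
    (Y : Type) [MetricSpace Y] (ψ : (Fin n → K) → Y) (θ τ : ℝ) (hθ0 : 0 ≤ θ) (hθ2 : θ < 2)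
    (hτ : 0 < τ) :
    exponent n Q θ < 2 * n ∧
    ∃ E : Set Y, dimH E ≤ ENNReal.ofReal (exponent n Q θ / τ) ∧
      ∀ ξ : Y, ξ ∉ E → ∀ B c : ℝ, (BadApproximations K a y ψ ξ τ B θ c).Finite := by
  have hcount := fun c δ hδ =>
    ProductsOfCurves.result K n hn Q hQ q hq hqQ A a ha u y hy0 hyr θ c δ hθ0 hθ2 hδ
  refine ⟨(hcount 0 1 one_pos).1, ?_⟩
  have : Nonempty (Fin n) := ⟨⟨0, by omega⟩⟩
  let V : ℝ → Set (Fin n → K) := fun c => {x | (∀ i j, x i ≠ (a i j : K)) ∧
    ∃ (L : Type) (_ : Field L) (_ : NumberField L) (_ : Algebra K L) (φ : ∀ i, A i →+* L),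
      (∀ i, φ i (coord (A i)) = algebraMap K L (x i)) ∧
      logDisc K L + c < ∑ i, (canonicalDegree (y i) + θ) * height (x i)}
  obtain ⟨E, hE1, hE2⟩ := Q273.Apx.approx_family (ι := ℕ) (fun i => V (-(i : ℝ)))
    (fun x => Real.exp (⨆ i, height (x i))) ψ (s := exponent n Q θ) (τ := τ)
    (exponent_nonneg hn hQ hθ0) hτ (by
      intro i ε hε
      obtain ⟨C, hC⟩ := (hcount (-(i : ℝ)) ε hε).2.2
      refine ⟨C, fun X hX => ?_⟩
      have hset : {x : Fin n → K | x ∈ V (-(i : ℝ)) ∧ Real.exp (⨆ i, height (x i)) ≤ X} =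
          ProductsOfCurves.exceptional K a y θ (-(i : ℝ)) X := by
        ext x
        have h0 : Real.exp (⨆ i, height (x i)) ≤ X ↔ ∀ i, height (x i) ≤ Real.log X := by
          rw [← Real.le_log_iff_exp_le (by linarith)]
          exact ciSup_le_iff (Set.finite_range _).bddAbove
        constructor
        · rintro ⟨⟨h1, h2⟩, h3⟩
          exact ⟨h1, h0.1 h3, h2⟩
        · rintro ⟨h1, h3, h2⟩
          exact ⟨⟨h1, h2⟩, h0.2 h3⟩
      rw [hset]
      exact hC X hX)
  refine ⟨E, hE1, fun ξ hξ B c => ?_⟩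
  obtain ⟨N, hN⟩ := exists_nat_ge (-c)
  refine (hE2 ξ hξ N B).subset ?_
  rintro x ⟨h1, h2, L, i1, i2, i3, φ, h3, h4⟩
  exact ⟨⟨h1, L, i1, i2, i3, φ, h3, lt_of_le_of_lt (by linarith) h4⟩, h2⟩

end Pool.Agent.Results.MP_9b9442_nt.GoodApproximations
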