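import Mathlib
import Pool.Agent.Q256.LN.Sml

set_option autoImplicit false

/-!
# Almost all hypersurfaces of general type: no points of degree less than `d` on small lines

A hypersurface `X ⊂ ℙ^(n+1)` of degree `d ≥ n + 3` has ample canonical bundle, so that Vojta's
conjecture predicts few points of small discriminant on it.  Points of degree at most `d` on `X`
exist in abundance: every rational line not contained in `X` meets `X` in a cycle of degree `d`,
e.g. in one closed point of degree `d`.  We show that, for all forms `F` of degree `d` with
coefficients in `[-H, H]` but `O(T^(N-1))` among `(2H+1)^N`, no line cut out by linear forms with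
integral coefficients in `[-T, T]` contains a point of `X` of smaller degree, of any height.

* `Box n d B` : forms of degree `d` in `n + 1` variables, integral coefficients in `[-B, B]`;
* `InL L x` : the integral point `x` is a common zero of the linear forms `L j`;
* `LowDeg d H T` : forms `F` in `Box (n+1) d H` such that for some `n` independent integral linear
  forms `L j` with coefficients in `[-T, T]` the line `L = 0` in `ℙ^(n+1)` contains a point
  `a + θ b`, with `a, b` independent integral points of the line and `θ` algebraic of degree
  less than `d`, at which `F` vanishes.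
-/

namespace Pool.Agent.Results.MP_9b9442_nt.PointsOfSmallDegreeOnLines

open Pool.Agent.Q256.CI Pool.Agent.Q256.LN

theorem result :
    (∀ n d : ℕ, n + 3 ≤ d →
      -- few forms have a point of degree less than `d` on a small line
      (∃ C : ℝ, ∀ H T : ℕ, 1 ≤ H → H ≤ T →
        (Nat.card (LowDeg (n := n) d H T) : ℝ) ≤
          C * (T : ℝ) ^ ((n + 1 + d).choose (n + 1) - 1)) ∧
      -- the exponent is the best possible
      ∀ H T : ℕ, 1 ≤ T →
        (2 * H + 1) ^ ((n + 1 + d).choose (n + 1) - 1) ≤ Nat.card (LowDeg (n := n) d H T)) ∧
    -- the number of all forms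
    (∀ n d H : ℕ, Nat.card (Box (n + 1) d H) = (2 * H + 1) ^ ((n + 1 + d).choose (n + 1))) ∧
    -- the line through two integral points with coordinates at most `√(T/2)` is a small line
    (∀ (n T B : ℕ), 2 * B ^ 2 ≤ T → ∀ a b : Fin (n + 2) → ℤ,
      (∀ k, |a k| ≤ B) → (∀ k, |b k| ≤ B) → (∃ i j, a i * b j ≠ a j * b i) →
      ∃ L : Fin n → Fin (n + 2) → ℤ, (∀ j k, |L j k| ≤ T) ∧
        LinearIndependent ℚ (fun j => (fun k => (L j k : ℚ))) ∧ InL L a ∧ InL L b) := by
  refine ⟨fun n d hd => ⟨?_, fun H T hT => lowDeg_lower d H T (by omega) hT⟩,
    fun n d H => card_box (n + 1) d H, fun n T B hBT a b ha hb hab => line_small T B hBT a b ha hb hab⟩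
  obtain ⟨C, hC⟩ := lowDeg_upper (n := n) d hd
  exact ⟨C, fun H T hH hHT => hC H T (hH.trans hHT) hHT⟩

end Pool.Agent.Results.MP_9b9442_nt.PointsOfSmallDegreeOnLines
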