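import Mathlib
import Pool.Agent.Results.MP_157626_nt.UnbalancedPencils
import Pool.Agent.Q1.RS.Frq

/-!
# Elliptic curves with torsion group containing `Z/2 x Z/2` along arbitrary sequences

`W_t : y² = x (x - D(t) u₀(t)) (x - D(t) u₁(t))` is a family of elliptic curves over `ℚ` as in
`UnbalancedPencils`: `u₀`, `u₁` and `u₂ = u₀ - u₁` are constants times products of `n_k` irreducible
polynomials, all different, `D` is any nonzero polynomial prime to them, and
`2 n_k + s_k ≤ n₀ + n₁ + n₂` for `k = 0, 1, 2`, where `s_k` is the number of the factors of `u_k`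
with split multiplicative reduction. We study the rank and the 2-primary part of the Tate-Shafarevich
group of `W_t` for `t = ⌊α x_n⌋`, where `x_n` is an arbitrary sequence of real numbers.

* For every real sequence and almost every real `α`, the rank is at most `(1 + ε) log₂ n`.
* If `x_(n+1) ≥ x_n ^ (1 + δ)`, then for almost every `α` the frequency of the `n` with rank at
  least `r` is at most `K / 2 ^ r`, and for all `α` in a set of Hausdorff dimension one the ranks of
  all the curves are at most `R`, where `K` and `R` depend on the family and `δ` only.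
-/

set_option autoImplicit false

namespace Pool.Agent.Results.MP_9e6228_nt.PencilsAlongSequences

open Finset Polynomial Filter MeasureTheory

open Pool.Agent.TH841.SH.D (Sha ShaTor HasDiv rk)

open Pool.Agent.Results.MP_157626_nt.UnbalancedPencils (E SqMod v s fib u)

variable {n : Fin 3 → ℕ}

/-- the fibre at `t` is an elliptic curve -/
def Nonsingular (D : ℤ[X]) (a : Fin 3 → ℤ) (f : ∀ k : Fin 3, Fin (n k) → ℤ[X]) (t : ℤ) : Prop :=
  ∀ k, (D * u a f k).eval t ≠ 0

/-- the rank of the fibre at `t` is at most `log₂ y`, and for all `k ≥ 1` the group `Ш[2 ^ k]` of the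
fibre is finite and `2 ^ (k rank) * #Ш[2 ^ k] ≤ y ^ k` -/
def Bounded (D : ℤ[X]) (a : Fin 3 → ℤ) (f : ∀ k : Fin 3, Fin (n k) → ℤ[X]) (y : ℝ) (t : ℤ) :
    Prop :=
  (rk (fib D a f t) : ℝ) ≤ Real.logb 2 y ∧ ∀ k : ℕ, 1 ≤ k → Finite (ShaTor (fib D a f t) (2 ^ k)) ∧
    (2 : ℝ) ^ (k * rk (fib D a f t)) * Nat.card (ShaTor (fib D a f t) (2 ^ k)) ≤ y ^ k

open Classical in
/-- **Theorem.** Let `u_k = a_k ∏_{i < n_k} f_{k,i}`, `k = 0, 1, 2`, be polynomials with integer
coefficients with `u₀ - u₁ = u₂`, where `a_k ≠ 0` and the `n₀ + n₁ + n₂` polynomials `f_{k,i}` are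
irreducible of positive degree and pairwise non-associated, let `D ≠ 0` be a polynomial with integer
coefficients not divisible by any `f_{k,i}`, and let `s_k` be the number of the `i` such that
`y² = x (x - D u₀) (x - D u₁)` has split multiplicative reduction at `f_{k,i}`. Assume that
`2 n_k + s_k ≤ n₀ + n₁ + n₂` for `k = 0, 1, 2`. Let `W_t : y² = x (x - D(t) u₀(t)) (x - D(t) u₁(t))`.

* (1) For every real sequence `x_n` and almost every real `α`: for all `ε > 0`, from some `n` on, if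
  `W_t`, `t = ⌊α x_n⌋`, is an elliptic curve, then it is `Bounded` with `y = n ^ (1 + ε)`; so its
  rank is at most `(1 + ε) log₂ n`.
* (2) For all `δ > 0` there is `K` such that for every sequence `x_n → ∞` with
  `x_(n+1) ≥ x_n ^ (1 + δ)` from some `n` on, for almost every `α` and all integers `y ≥ 1`, from
  some `N` on: at most `K N / y` of the `n < N` are such that `W_t`, `t = ⌊α x_n⌋`, is an elliptic
  curve which is not `Bounded` with `y`. In particular at most `K N / 2 ^ r` of these curves have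
  rank greater than `r`.
* (3) For all `δ > 0` there is `R` such that for all `b < c` and all sequences with
  `x_(n+1) ≥ x_n ^ (1 + δ)` for all `n` and `x_0` large enough (in terms of `b` and `c`) the set of
  the `α` in `[b, c]` such that for all `n` the curve `W_t`, `t = ⌊α x_n⌋`, is an elliptic curve and
  `Bounded` with `y = 2 ^ R` (so of rank at most `R`) has Hausdorff dimension one. -/
theorem result (n : Fin 3 → ℕ) (a : Fin 3 → ℤ) (f : ∀ k : Fin 3, Fin (n k) → ℤ[X]) (D : ℤ[X])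
    (ha : ∀ k, a k ≠ 0) (hf : ∀ k i, Irreducible (f k i) ∧ 0 < (f k i).natDegree)
    (hf' : ∀ k i l j, (⟨k, i⟩ : Σ k : Fin 3, Fin (n k)) ≠ ⟨l, j⟩ → ¬ Associated (f k i) (f l j))
    (hu : u a f 0 - u a f 1 = u a f 2) (hD : D ≠ 0) (hDf : ∀ k i, ¬ f k i ∣ D)
    (hs : ∀ k, 2 * n k + s D a f k ≤ n 0 + n 1 + n 2) :
    (∀ x : ℕ → ℝ, ∀ᵐ α : ℝ, ∀ ε : ℝ, 0 < ε → ∀ᶠ m : ℕ in atTop,
      Nonsingular D a f ⌊α * x m⌋ → Bounded D a f ((m : ℝ) ^ (1 + ε)) ⌊α * x m⌋) ∧
    (∀ δ : ℝ, 0 < δ → ∃ K : ℝ, ∀ x : ℕ → ℝ, Tendsto x atTop atTop →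
      (∀ᶠ m in atTop, x m ^ (1 + δ) ≤ x (m + 1)) → ∀ᵐ α : ℝ, ∀ y : ℕ, 1 ≤ y →
      ∀ᶠ N : ℕ in atTop, (((range N).filter (fun m => Nonsingular D a f ⌊α * x m⌋ ∧
        ¬ Bounded D a f y ⌊α * x m⌋)).card : ℝ) ≤ K * N / y) ∧
    (∀ δ : ℝ, 0 < δ → ∃ R : ℕ, ∀ b c : ℝ, b < c → ∃ X₀ : ℝ, ∀ x : ℕ → ℝ, X₀ ≤ x 0 →
      (∀ m, x m ^ (1 + δ) ≤ x (m + 1)) →
      dimH {α : ℝ | b ≤ α ∧ α ≤ c ∧ ∀ m, Nonsingular D a f ⌊α * x m⌋ ∧
        Bounded D a f (2 ^ R) ⌊α * x m⌋} = 1) := by
  have hirr : Pool.Agent.TH841.PT.Irr (Pool.Agent.TH841.TR.fp f) :=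
    ⟨fun x => (hf x.1 x.2).1, fun x => (hf x.1 x.2).2, fun x y hxy => hf' x.1 x.2 y.1 y.2 hxy⟩
  have hB : Pool.Agent.TH841.TR.Bal D a f :=
    Pool.Agent.TH841.TR.bal_of (v := v D a f) rfl rfl rfl hs
  set F : ℤ → ℝ := fun t => if Nonsingular D a f t then
    Pool.Agent.W307.SE.SN ((D * u a f 0).eval t) ((D * u a f 1).eval t) else 0 with hFd
  have hF0 : ∀ t, 0 ≤ F t := fun t => by
    rw [hFd]
    dsimp only
    split_ifs
    · exact Pool.Agent.W307.SE.SN_nonneg _ _
    · exact le_rfl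
  have hFs : ∀ t, Nonsingular D a f t → F t =
      Pool.Agent.W307.SE.SN ((D * u a f 0).eval t) ((D * u a f 1).eval t) := fun t ht => by
    rw [hFd]
    dsimp only
    rw [if_pos ht]
  have hbd : ∀ t, Nonsingular D a f t → Pool.Agent.TH841.SH.Bd (fib D a f t) (F t) := by
    intro t ht
    obtain ⟨e1, e2, e3⟩ := Pool.Agent.TH841.TR.ne_three hu ht
    rw [hFs t ht]
    exact Pool.Agent.TH841.PT.bd_EQ e1 e2 e3
  have hsm : ∀ (t : ℤ) (y : ℝ), Nonsingular D a f t → F t ≤ y → Bounded D a f y t := by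
    intro t y ht hy
    have h0 := hbd t ht
    refine ⟨?_, fun k hk => ⟨h0.fin k, ?_⟩⟩
    · have h1 : (2 : ℝ) ^ rk (fib D a f t) ≤ F t := by
        have h2 := h0.2
        refine le_trans ?_ h2
        refine le_mul_of_one_le_right (by positivity) ?_
        have h3 : 0 < Nat.card {x : Pool.Agent.W262.SH.Sha (fib D a f t) // x + x = 0} := by
          have : Finite {x : Pool.Agent.W262.SH.Sha (fib D a f t) // x + x = 0} := h0.1
          have : Nonempty {x : Pool.Agent.W262.SH.Sha (fib D a f t) // x + x = 0} :=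
            ⟨⟨0, add_zero 0⟩⟩
          exact Nat.card_pos
        exact_mod_cast h3
      have h2 : (2 : ℝ) ^ (rk (fib D a f t) : ℝ) ≤ y := by
        rw [Real.rpow_natCast]
        exact h1.trans hy
      rw [Real.le_logb_iff_rpow_le (by norm_num) (lt_of_lt_of_le (by positivity) h2)]
      exact h2
    · have e4 := (h0.wt_le hk).trans hy
      unfold Pool.Agent.TH841.SH.wt at e4
      have e5 := pow_le_pow_left₀ (by positivity) e4 k
      rw [mul_pow, ← pow_mul, mul_comm (rk (fib D a f t)) k, ← Real.rpow_mul_natCast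
        (Nat.cast_nonneg _)] at e5
      have hk0 : (k : ℝ) ≠ 0 := by exact_mod_cast (by omega : k ≠ 0)
      rwa [one_div_mul_cancel hk0, Real.rpow_one] at e5
  have hmom : Pool.Agent.Q1.RS.Mom F 1 := by
    intro L
    obtain ⟨C, _, hC⟩ := Pool.Agent.TH841.TR.pen_all Pool.Agent.TH841.TR.tav3x a f ha hirr hu D hD
      hDf hB L
    refine ⟨C, fun N M hM hN => ?_⟩
    refine le_trans (le_of_eq ?_) (hC N M (by omega) hN)
    rw [sum_filter]
    refine sum_congr rfl fun t _ => ?_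
    rw [pow_one, hFd]
    dsimp only
    exact if_congr Iff.rfl rfl rfl
  refine ⟨fun x => ?_, fun δ hδ => ?_, fun δ hδ => ?_⟩
  · -- growth
    have h1 : ∀ m : ℕ, ∀ᵐ α : ℝ, ∀ᶠ n : ℕ in atTop,
        F ⌊α * x n⌋ ≤ (n : ℝ) ^ (1 + 1 / ((m : ℝ) + 1)) := by
      intro m
      refine Pool.Agent.Q1.RS.growth_ae hF0 hmom ?_ x
      have h2 : (0 : ℝ) < 1 / ((m : ℝ) + 1) := by positivity
      push_cast
      linarith
    filter_upwards [ae_all_iff.2 h1] with α hα ε hε
    obtain ⟨m, hm⟩ := exists_nat_one_div_lt hε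
    filter_upwards [hα m, eventually_ge_atTop 1] with n hn hn1 h2
    refine hsm _ _ h2 (hn.trans (Real.rpow_le_rpow_of_exponent_le (by exact_mod_cast hn1) ?_))
    linarith
  · -- frequencies
    obtain ⟨K, hK0, hK⟩ := Pool.Agent.Q1.RS.freq_ae hF0 hmom hδ
    refine ⟨K, fun x hxt hxg => ?_⟩
    have h1 : ∀ y : ℕ, ∀ᵐ α : ℝ, 1 ≤ y → ∀ᶠ N : ℕ in atTop,
        (((range N).filter (fun n => (y : ℝ) ≤ F ⌊α * x n⌋)).card : ℝ) ≤ K * N / y := by
      intro y
      rcases Nat.eq_zero_or_pos y with rfl | hy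
      · exact Eventually.of_forall fun α h => absurd h (by omega)
      · filter_upwards [hK x hxt hxg y (by exact_mod_cast hy)] with α hα _
        rw [pow_one] at hα
        exact hα
    filter_upwards [ae_all_iff.2 h1] with α hα y hy
    filter_upwards [hα y hy] with N hN
    refine le_trans (Nat.cast_le.2 (card_le_card fun n hn => ?_)) hN
    rw [mem_filter] at hn ⊢
    refine ⟨hn.1, ?_⟩
    by_contra h2
    exact hn.2.2 (hsm _ _ hn.2.1 (not_le.1 h2).le)
  · -- dimension
    have hne : ∀ k, D * u a f k ≠ 0 := fun k => mul_ne_zero hD (by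
      unfold Pool.Agent.Results.MP_157626_nt.UnbalancedPencils.u
      exact mul_ne_zero (C_ne_zero.2 (ha k)) (prod_ne_zero_iff.2 fun i _ => (hf k i).1.ne_zero))
    have hZ : {t : ℤ | ¬ Nonsingular D a f t}.Finite := by
      refine ((∏ k, (D * u a f k)).roots.toFinset.finite_toSet).subset fun t ht => ?_
      rw [Set.mem_ofPred_eq, Nonsingular] at ht
      push Not at ht
      obtain ⟨k, hk⟩ := ht
      rw [mem_coe, Multiset.mem_toFinset, mem_roots (prod_ne_zero_iff.2 fun k _ => hne k), IsRoot,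
        eval_prod]
      exact prod_eq_zero (mem_univ k) hk
    obtain ⟨R, hR⟩ := Pool.Agent.Q1.RS.dim_mom' hF0 one_ne_zero hmom hZ hδ
    obtain ⟨R', hR'⟩ := pow_unbounded_of_one_lt R (show (1 : ℝ) < 2 by norm_num)
    refine ⟨R', fun b c hbc => ?_⟩
    obtain ⟨X₀, hX₀⟩ := hR b c hbc
    refine ⟨X₀, fun x hx0 hx => ?_⟩
    refine le_antisymm ((dimH_mono (Set.subset_univ _)).trans (by rw [Real.dimH_univ])) ?_
    rw [← hX₀ x hx0 hx]
    refine dimH_mono fun α hα => ⟨hα.1, hα.2.1, fun m => ?_⟩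
    obtain ⟨h1, h2⟩ := hα.2.2 m
    have h3 : Nonsingular D a f ⌊α * x m⌋ := not_not.1 h1
    exact ⟨h3, hsm _ _ h3 (h2.trans hR'.le)⟩

end Pool.Agent.Results.MP_9e6228_nt.PencilsAlongSequences
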