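import Mathlib
import Pool.Agent.Q273.ApxF
import Pool.Agent.Results.MP_9ec3f0_nt.HyperplaneArrangements

/-!
# Vojta's inequality for log resolutions of hyperplane arrangements at the good approximations of almost all points

Arbitrary hyperplane arrangements in projective space of dimension `n` over a number field `K` (no
general position). `X` is the log resolution of the arrangement obtained by blowing up all its flats,
`D` the reduced preimage of the arrangement, a normal crossings divisor. The local height of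
`K_X + D + (n + 1) H` at a place `v` is, up to a bounded function which is zero for almost all `v`,
the largest sum of the local heights of the hyperplanes of a linearly independent subfamily; `hW` is
the sum of these, a height for `K_X + D + (n + 1) H`.
-/

set_option autoImplicit false

open NumberField Height Finset IsDedekindDomain LinearAlgebra.Projectivization

namespace Pool.Agent.Results.MP_9ec3f0_nt.ArrangementApproximations

variable {K : Type} [Field K] {n r : ℕ}

/-- the value at `x` of the linear form with coefficients `a` -/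
def lin (a x : Fin (n + 1) → K) : K := ∑ j, a j * x j

/-- the local height of the hyperplane `a = 0` at `x` for the absolute value `f` -/
noncomputable def lam (f : AbsoluteValue K ℝ) (a x : Fin (n + 1) → K) : ℝ :=
  Real.log ((⨆ j, f (a j)) * (⨆ j, f (x j)) / f (lin a x))

/-- the largest sum of local heights over a linearly independent subfamily of the arrangement -/
noncomputable def wt (f : AbsoluteValue K ℝ) (a : Fin r → Fin (n + 1) → K) (x : Fin (n + 1) → K) : ℝ :=
  ⨆ I : {I : Finset (Fin r) // LinearIndependent K (fun i : I => a i)}, ∑ i ∈ I.1, lam f (a i) x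

variable [NumberField K]

/-- the `v`-adic absolute value -/
noncomputable def fv (v : HeightOneSpectrum (𝓞 K)) : AbsoluteValue K ℝ := (FinitePlace.mk v).1

/-- the norm of a prime -/
noncomputable def Nv (v : HeightOneSpectrum (𝓞 K)) : ℝ := (Ideal.absNorm v.asIdeal : ℝ)

/-- the sum of the local heights `wt` over all places, a height for `K_X + D + (n + 1) H` -/
noncomputable def hW (a : Fin r → Fin (n + 1) → K) (x : Fin (n + 1) → K) : ℝ :=
  ∑ w : InfinitePlace K, (w.mult : ℝ) * wt w.1 a x + ∑ᶠ v : HeightOneSpectrum (𝓞 K), wt (fv v) a x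

open Classical in
/-- the truncated counting function of the arrangement: the sum of `log N(v)` over the primes outside
`S` at which the point reduces into one of the hyperplanes -/
noncomputable def N1 (S : Finset (HeightOneSpectrum (𝓞 K))) (a : Fin r → Fin (n + 1) → K)
    (x : Fin (n + 1) → K) : ℝ :=
  ∑ᶠ v : HeightOneSpectrum (𝓞 K), if v ∉ S ∧ ∃ i, 0 < lam (fv v) (a i) x then Real.log (Nv v) else 0

/-- the points `P` off the arrangement with `dist(ξ, φ(P)) ≤ A H(P) ^ (-τ)` at which the truncated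
counting function is at most `hW - κ h + c`; here `H` is the multiplicative height relative to `K`
and `h = log H` -/
def BadApproximations {Y : Type} [MetricSpace Y] (φ : ℙ K (Fin (n + 1) → K) → Y) (ξ : Y)
    (τ A : ℝ) (S : Finset (HeightOneSpectrum (𝓞 K))) (a : Fin r → Fin (n + 1) → K) (κ c : ℝ) :
    Set (ℙ K (Fin (n + 1) → K)) :=
  {P | (∀ i, lin (a i) P.rep ≠ 0) ∧ dist ξ (φ P) ≤ A * P.mulHeight ^ (-τ) ∧
    N1 S a P.rep ≤ hW a P.rep - κ * Real.log P.mulHeight + c}

/-- **Vojta's inequality for all arrangements at the good approximations of almost all points.** Let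
`K` be a number field, `n ≥ 1`, `Y` a metric space, `φ` a map from `ℙ^n(K)` to `Y`,
`0 ≤ κ ≤ 1 / 2` and `τ > 0`. There is a set `E ⊆ Y` of Hausdorff dimension at most
`(n + 1 - κ) / τ` such that for each `ξ ∈ Y` outside `E`, every arrangement of hyperplanes over `K`,
every finite set `S` of primes and all real `A` and `c`, only finitely many points `P` of `ℙ^n(K)`
off the arrangement have `dist(ξ, φ(P)) ≤ A H(P) ^ (-τ)` and `N¹_S(P) ≤ hW(P) - κ h(P) + c`. -/
theorem result (K : Type) [Field K] [NumberField K] (n : ℕ) (hn : 1 ≤ n)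
    (Y : Type) [MetricSpace Y] (φ : ℙ K (Fin (n + 1) → K) → Y) (κ τ : ℝ) (hκ0 : 0 ≤ κ)
    (hκ : κ ≤ 1 / 2) (hτ : 0 < τ) :
    ∃ E : Set Y, dimH E ≤ ENNReal.ofReal (((n : ℝ) + 1 - κ) / τ) ∧
      ∀ ξ : Y, ξ ∉ E → ∀ r : ℕ, 1 ≤ r → ∀ a : Fin r → Fin (n + 1) → K, (∀ i, a i ≠ 0) →
        ∀ (S : Finset (HeightOneSpectrum (𝓞 K))) (A c : ℝ),
          (BadApproximations φ ξ τ A S a κ c).Finite := by
  classical
  have : Countable K := Q273.Apx.countable_numberField K
  have : Countable (HeightOneSpectrum (𝓞 K)) := Q273.Apx.countable_primes K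
  have hn0 : (0 : ℝ) ≤ n := Nat.cast_nonneg n
  let ι : Type := (Σ r : {r : ℕ // 1 ≤ r}, {a : Fin r.1 → Fin (n + 1) → K // ∀ i, a i ≠ 0}) ×
      Finset (HeightOneSpectrum (𝓞 K)) × ℕ
  obtain ⟨E, hE1, hE2⟩ := Q273.Apx.approx_family (ι := ι)
    (fun i => {P : ℙ K (Fin (n + 1) → K) | (∀ j, lin (i.1.2.1 j) P.rep ≠ 0) ∧
      N1 i.2.1 i.1.2.1 P.rep ≤ hW i.1.2.1 P.rep - κ * Real.log P.mulHeight + (i.2.2 : ℝ)})
    (fun P => P.mulHeight) φ (s := (n : ℝ) + 1 - κ) (τ := τ) (by linarith) hτ (by
      rintro ⟨⟨⟨r, hr⟩, ⟨a, ha⟩⟩, S, C⟩ ε hε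
      obtain ⟨M, hM⟩ := (HyperplaneArrangements.result K n r hn hr a ha S κ hκ0 hκ).1 C ε hε
      refine ⟨M, fun X hX => ?_⟩
      have hset : {P : ℙ K (Fin (n + 1) → K) | P ∈ {P : ℙ K (Fin (n + 1) → K) |
          (∀ j, lin (a j) P.rep ≠ 0) ∧
            N1 S a P.rep ≤ hW a P.rep - κ * Real.log P.mulHeight + (C : ℝ)} ∧
          P.mulHeight ≤ X} = HyperplaneArrangements.Exc S a κ C X := by
        ext P
        constructor
        · rintro ⟨⟨h1, h2⟩, h3⟩
          exact ⟨h1, h3, h2⟩
        · rintro ⟨h1, h3, h2⟩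
          exact ⟨⟨h1, h2⟩, h3⟩
      rw [hset]
      exact hM X hX)
  refine ⟨E, hE1, fun ξ hξ r hr a ha S A C => ?_⟩
  obtain ⟨N, hN⟩ := exists_nat_ge C
  refine (hE2 ξ hξ ⟨⟨⟨r, hr⟩, ⟨a, ha⟩⟩, S, N⟩ A).subset ?_
  rintro P ⟨h1, h2, h3⟩
  exact ⟨⟨h1, h3.trans (by linarith)⟩, h2⟩

end Pool.Agent.Results.MP_9ec3f0_nt.ArrangementApproximations
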