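import Mathlib
import Pool.Agent.Q273.ApxF
import Pool.Agent.Results.MP_9ec3f0_nt.HyperplaneExceptions

/-!
# Vojta's inequality with truncated counting function at the good approximations of almost all points

`K` is a number field, `Y` a metric space and `φ` a map from the `K`-points of projective space of
dimension `n` to `Y`, for instance the inclusion in the points over a completion of `K`. For all
`ξ ∈ Y` outside one set of small Hausdorff dimension, all but finitely many of the points `P` with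
`dist(ξ, φ(P)) ≤ A H(P) ^ (-τ)` satisfy `θ h(P) + C < N¹_S(D, P)`, for every sum `D` of `r`
hyperplanes in general position, every `S`, `C` and `A`.
-/

set_option autoImplicit false

open NumberField Height Finset IsDedekindDomain LinearAlgebra.Projectivization

namespace Pool.Agent.Results.MP_9ec3f0_nt.GoodApproximations

variable {K : Type} [Field K] {n r : ℕ}

/-- the value at `x` of the linear form with coefficients `b` -/
def lin (b x : Fin (n + 1) → K) : K := ∑ j, b j * x j

variable [NumberField K]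

open Classical in
/-- the truncated counting function of the sum of the hyperplanes `a i` at the point with
coordinates `x`: the sum of `log N(v)` over the finite places `v` outside `S` at which the local
height of some hyperplane is positive -/
noncomputable def N1 (S : Finset (FinitePlace K)) (a : Fin r → Fin (n + 1) → K)
    (x : Fin (n + 1) → K) : ℝ :=
  ∑ᶠ v : FinitePlace K, if v ∉ S ∧ ∃ i, v (lin (a i) x) < (⨆ j, v (a i j)) * (⨆ j, v (x j)) then
    Real.log (Ideal.absNorm v.maximalIdeal.asIdeal : ℝ) else 0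

/-- the exponent; it is smaller than `n + 1` for all `θ < r` -/
noncomputable def expo (n r : ℕ) (θ : ℝ) : ℝ :=
  min (θ * (1 - ((r - n).choose (n + 1) : ℝ) / (r.choose (n + 1) : ℝ)))
    (((n : ℝ) + 1) * (1 - (n : ℝ) * ((r : ℝ) - θ) / ((r : ℝ) * ((r : ℝ) - 1))))

/-- the points `P` off the hyperplanes with `dist(ξ, φ(P)) ≤ A H(P) ^ (-τ)` at which the truncated
counting function is at most `θ h(P) + C`; here `H` is the multiplicative height relative to `K`
and `h = log H` -/
def BadApproximations {Y : Type} [MetricSpace Y] (φ : ℙ K (Fin (n + 1) → K) → Y) (ξ : Y)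
    (τ A : ℝ) (S : Finset (FinitePlace K)) (a : Fin r → Fin (n + 1) → K) (θ C : ℝ) :
    Set (ℙ K (Fin (n + 1) → K)) :=
  {P | (∀ i, lin (a i) P.rep ≠ 0) ∧ dist ξ (φ P) ≤ A * P.mulHeight ^ (-τ) ∧
    N1 S a P.rep ≤ θ * Real.log P.mulHeight + C}

private theorem expo_nonneg {n r : ℕ} (hn : 1 ≤ n) (hr : n + 1 ≤ r) {θ : ℝ} (hθ : 0 ≤ θ) :
    0 ≤ expo n r θ := by
  have hr0 : (0 : ℝ) < r := by
    have : 0 < r := by omega
    exact_mod_cast this
  have hr1 : (0 : ℝ) < (r : ℝ) - 1 := by
    have h2 : 2 ≤ r := by omega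
    have h3 : (2 : ℝ) ≤ r := by exact_mod_cast h2
    linarith
  have hnr : (n : ℝ) ≤ (r : ℝ) - 1 := by
    have h2 : ((n + 1 : ℕ) : ℝ) ≤ r := by exact_mod_cast hr
    push_cast at h2
    linarith
  have hn0 : (0 : ℝ) ≤ n := Nat.cast_nonneg n
  unfold expo
  apply le_min
  · apply mul_nonneg hθ
    have h1 : (r - n).choose (n + 1) ≤ r.choose (n + 1) := Nat.choose_le_choose _ (by omega)
    have h2 : ((r - n).choose (n + 1) : ℝ) ≤ (r.choose (n + 1) : ℝ) := by exact_mod_cast h1
    have h3 : (0 : ℝ) < (r.choose (n + 1) : ℝ) := by exact_mod_cast Nat.choose_pos hr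
    rw [sub_nonneg, div_le_one h3]
    exact h2
  · apply mul_nonneg (by positivity)
    rw [sub_nonneg, div_le_one (by positivity)]
    have h4 : (n : ℝ) * ((r : ℝ) - θ) ≤ n * r := by
      apply mul_le_mul_of_nonneg_left _ hn0
      linarith
    have h5 : (n : ℝ) * r ≤ ((r : ℝ) - 1) * r := mul_le_mul_of_nonneg_right hnr hr0.le
    linarith

/-- **Truncated counting functions at the good approximations of almost all points.** Let `K` be a
number field, `n ≥ 1`, `r ≥ n + 1`, `Y` a metric space, `φ` a map from `ℙ^n(K)` to `Y`, `θ ≥ 0` and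
`τ > 0`. There is a set `E ⊆ Y` of Hausdorff dimension at most `expo n r θ / τ` such that for each
`ξ ∈ Y` outside `E`, all hyperplanes `a_1, …, a_r` over `K` in general position, every finite set `S`
of finite places and all real `A` and `C`, only finitely many points `P` of `ℙ^n(K)` off the
hyperplanes have `dist(ξ, φ(P)) ≤ A H(P) ^ (-τ)` and `N¹_S(P) ≤ θ h(P) + C`. For `θ < r` the number
`expo n r θ` is smaller than `n + 1`. -/
theorem result (K : Type) [Field K] [NumberField K] (n r : ℕ) (hn : 1 ≤ n) (hr : n + 1 ≤ r)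
    (Y : Type) [MetricSpace Y] (φ : ℙ K (Fin (n + 1) → K) → Y) (θ τ : ℝ) (hθ : 0 ≤ θ)
    (hτ : 0 < τ) :
    (θ < r → expo n r θ < n + 1) ∧
    ∃ E : Set Y, dimH E ≤ ENNReal.ofReal (expo n r θ / τ) ∧
      ∀ ξ : Y, ξ ∉ E → ∀ a : Fin r → Fin (n + 1) → K,
        (∀ I : Finset (Fin r), I.card = n + 1 → LinearIndependent K (fun i : I => a i)) →
        ∀ (S : Finset (FinitePlace K)) (A C : ℝ), (BadApproximations φ ξ τ A S a θ C).Finite := by
  classical
  refine ⟨fun h => ?_, ?_⟩
  · have hr2 : (2 : ℝ) ≤ r := by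
      have : 2 ≤ r := by omega
      exact_mod_cast this
    have hn1 : (1 : ℝ) ≤ n := by exact_mod_cast hn
    refine lt_of_le_of_lt (min_le_right _ _) ?_
    have h1 : 0 < (n : ℝ) * ((r : ℝ) - θ) / ((r : ℝ) * ((r : ℝ) - 1)) := by
      apply div_pos
      · apply mul_pos <;> linarith
      · apply mul_pos <;> linarith
    nlinarith
  have : Countable K := Q273.Apx.countable_numberField K
  have : Countable (HeightOneSpectrum (𝓞 K)) := Q273.Apx.countable_primes K
  have : Countable (FinitePlace K) :=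
    (FinitePlace.equivHeightOneSpectrum (K := K)).countable_iff.2 inferInstance
  let ι : Type := {a : Fin r → Fin (n + 1) → K //
    ∀ I : Finset (Fin r), I.card = n + 1 → LinearIndependent K (fun i : I => a i)} ×
      Finset (FinitePlace K) × ℕ
  obtain ⟨E, hE1, hE2⟩ := Q273.Apx.approx_family (ι := ι)
    (fun i => {P : ℙ K (Fin (n + 1) → K) | (∀ j, lin (i.1.1 j) P.rep ≠ 0) ∧
      N1 i.2.1 i.1.1 P.rep ≤ θ * Real.log P.mulHeight + (i.2.2 : ℝ)})
    (fun P => P.mulHeight) φ (s := expo n r θ) (τ := τ) (expo_nonneg hn hr hθ) hτ (by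
      rintro ⟨⟨a, ha⟩, S, C⟩ ε hε
      obtain ⟨M, hM⟩ := (HyperplaneExceptions.result K n r hn hr a ha S θ C ε hθ hε).2
      refine ⟨M, fun X hX => ?_⟩
      have hset : {P : ℙ K (Fin (n + 1) → K) | P ∈ {P : ℙ K (Fin (n + 1) → K) |
          (∀ j, lin (a j) P.rep ≠ 0) ∧ N1 S a P.rep ≤ θ * Real.log P.mulHeight + (C : ℝ)} ∧
          P.mulHeight ≤ X} = HyperplaneExceptions.Exc S a θ C X := by
        ext P
        constructor
        · rintro ⟨⟨h1, h2⟩, h3⟩
          refine ⟨h1, h3, ?_⟩
          exact h2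
        · rintro ⟨h1, h3, h2⟩
          exact ⟨⟨h1, h2⟩, h3⟩
      rw [hset]
      exact hM X hX)
  refine ⟨E, hE1, fun ξ hξ a ha S A C => ?_⟩
  obtain ⟨N, hN⟩ := exists_nat_ge C
  refine (hE2 ξ hξ ⟨⟨a, ha⟩, S, N⟩ A).subset ?_
  rintro P ⟨h1, h2, h3⟩
  exact ⟨⟨h1, h3.trans (by linarith)⟩, h2⟩

end Pool.Agent.Results.MP_9ec3f0_nt.GoodApproximations
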