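import Mathlib
import Pool.Agent.Q69.SX.Sob

/-!
# Spectral gaps and exponential mixing for random standard maps (MP_9ee088_an)

Let `S_a(x,y) = (2x - y + a sin 2πx, x)` on the torus.

* Two maps: if `a` is not a half integer and `b ≠ a`, then `ε ‖f‖² ≤ ‖f ∘ S_a - f‖² + ‖f ∘ S_b - f‖²`
  for all mean zero square integrable functions `f` of `k` points moved simultaneously, with `ε > 0`
  uniform for `a` in compact sets away from the half integers and all `b` away from `a`.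
* Independent kicks `w 0, w 1, …` with an arbitrary law `ν` which is neither a point mass nor
  carried by the half integers: the motions of `k` points are exponentially mixing in `L²`, the
  second moments of all correlations of square integrable functions decay exponentially, and for
  almost every sequence of kicks the correlations of all functions with continuous mixed second
  derivatives decay exponentially, uniformly.
-/

set_option autoImplicit false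

open MeasureTheory Filter Real

namespace Pool.Agent.Results.MP_9ee088_an.RandomMixing

/-- the orbit `T (w (n-1)) ∘ ⋯ ∘ T (w 0)` -/
def orbit (T : ℝ → UnitAddCircle × UnitAddCircle → UnitAddCircle × UnitAddCircle) (w : ℕ → ℝ) :
    ℕ → UnitAddCircle × UnitAddCircle → UnitAddCircle × UnitAddCircle
  | 0 => fun p => p
  | n + 1 => fun p => T (w n) (orbit T w n p)

/-- `φ` has continuous derivatives `φ_x`, `φ_y`, `φ_xy`, all bounded by `M` -/
def MixedBound (φ : UnitAddCircle × UnitAddCircle → ℝ) (M : ℝ) : Prop :=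
  ∃ φ₁ φ₂ φ₁₂ : UnitAddCircle × UnitAddCircle → ℝ,
    Continuous φ ∧ Continuous φ₁ ∧ Continuous φ₂ ∧ Continuous φ₁₂ ∧
    (∀ (x y : UnitAddCircle) (t : ℝ), HasDerivAt (fun t : ℝ => φ (x + (t : UnitAddCircle), y))
      (φ₁ (x + (t : UnitAddCircle), y)) t) ∧
    (∀ (x y : UnitAddCircle) (t : ℝ), HasDerivAt (fun t : ℝ => φ (x, y + (t : UnitAddCircle)))
      (φ₂ (x, y + (t : UnitAddCircle))) t) ∧
    (∀ (x y : UnitAddCircle) (t : ℝ), HasDerivAt (fun t : ℝ => φ₁ (x, y + (t : UnitAddCircle)))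
      (φ₁₂ (x, y + (t : UnitAddCircle))) t) ∧
    ∀ p, |φ p| ≤ M ∧ |φ₁ p| ≤ M ∧ |φ₂ p| ≤ M ∧ |φ₁₂ p| ≤ M

theorem result (T : ℝ → UnitAddCircle × UnitAddCircle → UnitAddCircle × UnitAddCircle)
    (hT : ∀ a x y : ℝ, T a ((x : UnitAddCircle), (y : UnitAddCircle)) =
      (((2 * x - y + a * sin (2 * π * x) : ℝ) : UnitAddCircle), (x : UnitAddCircle))) :
    (∀ (k : ℕ) (R t s : ℝ), 0 < t → 0 < s → ∃ ε : ℝ, 0 < ε ∧
      ∀ a b : ℝ, |a| ≤ R → s ≤ |sin (2 * π * a)| → t ≤ |b - a| →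
        ∀ f : (Fin k → UnitAddCircle × UnitAddCircle) → ℝ, Measurable f →
          Integrable (fun q => f q ^ 2) → ∫ q, f q = 0 →
          ε * ∫ q, f q ^ 2 ≤ (∫ q, (f (fun i => T a (q i)) - f q) ^ 2) +
            ∫ q, (f (fun i => T b (q i)) - f q) ^ 2) ∧
    ∀ (ν : Measure ℝ) [IsProbabilityMeasure ν], (∀ a, ν {a} ≠ 1) →
      ν {a | sin (2 * π * a) ≠ 0} ≠ 0 →
      (∀ k : ℕ, ∃ c : ℝ, 0 < c ∧ ∀ f : (Fin k → UnitAddCircle × UnitAddCircle) → ℝ,
        Measurable f → Integrable (fun q => f q ^ 2) → ∫ q, f q = 0 → ∀ n : ℕ,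
          ∫ q : Fin k → UnitAddCircle × UnitAddCircle,
            (∫ w, f (fun i => orbit T w n (q i)) ∂(Measure.infinitePi fun _ : ℕ => ν)) ^ 2 ≤
            3 * exp (-(c * n)) * ∫ q, f q ^ 2) ∧
      ∃ c : ℝ, 0 < c ∧
        (∀ φ ψ : UnitAddCircle × UnitAddCircle → ℝ, Measurable φ →
          Integrable (fun p => φ p ^ 2) → Measurable ψ → Integrable (fun p => ψ p ^ 2) →
          (∀ n : ℕ, ∫ w, ((∫ p, φ (orbit T w n p) * ψ p) - (∫ p, φ p) * ∫ p, ψ p) ^ 2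
            ∂(Measure.infinitePi fun _ : ℕ => ν) ≤
              2 * exp (-(c * n)) * ((∫ p, φ p ^ 2) * ∫ p, ψ p ^ 2)) ∧
          ∀ᵐ w ∂(Measure.infinitePi fun _ : ℕ => ν), ∀ᶠ n : ℕ in atTop,
            |(∫ p, φ (orbit T w n p) * ψ p) - (∫ p, φ p) * ∫ p, ψ p| ≤ exp (-(c * n))) ∧
        ∀ᵐ w ∂(Measure.infinitePi fun _ : ℕ => ν), ∀ᶠ n : ℕ in atTop,
          ∀ (φ ψ : UnitAddCircle × UnitAddCircle → ℝ) (M N : ℝ),
            MixedBound φ M → MixedBound ψ N →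
              |(∫ p, φ (orbit T w n p) * ψ p) - (∫ p, φ p) * ∫ p, ψ p| ≤
                16 * exp (-(c * n)) * (M * N) := by
  have hTS : ∀ a p, T a p = Q69.SM.S a p := by
    intro a z
    obtain ⟨x, y⟩ := z
    obtain ⟨r, rfl⟩ := Q69.SM.exists_coe x
    obtain ⟨s, rfl⟩ := Q69.SM.exists_coe y
    rw [hT]
    unfold Q69.SM.S
    simp only [Q69.SM.sn_coe]
    refine Prod.ext ?_ rfl
    simp only
    rw [← AddCircle.coe_add, ← AddCircle.coe_sub, ← AddCircle.coe_add]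
    congr 1
    ring
  have horb : ∀ w n p, orbit T w n p = Q69.SX.orbY Q69.SM.S w n p := by
    intro w n p
    induction n with
    | zero => rfl
    | succ n ih =>
      change T (w n) (orbit T w n p) = Q69.SM.S (w n) (Q69.SX.orbY Q69.SM.S w n p)
      rw [ih, hTS]
  refine ⟨fun k R t s ht hs => ?_, fun ν hν h1 h2 => ⟨fun k => ?_, ?_⟩⟩
  · obtain ⟨ε, hε, h⟩ := Q69.SX.pair_gap (κ := Fin k) R t s ht hs
    refine ⟨ε ^ 2 / 2, by positivity, fun a b ha hsa hab f hf hf2 hf0 => ?_⟩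
    have hfL : Q69.SM.L2 volume f := ⟨hf, hf2⟩
    have h3 := h a b ha hsa hab (fun q => f (Q69.SX.EX (Fin k) q)) (Q69.SX.L2_EX hfL)
      (by rw [Q69.SX.int_EX]; exact hf0)
    have e1 : ∀ c : ℝ, Q69.SX.nrm volume (fun q => f (Q69.SX.EX (Fin k) (Q69.SX.SX c q)) -
        f (Q69.SX.EX (Fin k) q)) ^ 2 = ∫ q, (f (fun i => T c (q i)) - f q) ^ 2 := by
      intro c
      rw [Q69.SX.nrm_sq, ← Q69.SX.int_EX (fun q => (f (fun i => T c (q i)) - f q) ^ 2)]
      congr 1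
      funext q
      congr 3
      funext i
      rw [hTS]
      rfl
    have e2 : Q69.SX.nrm volume (fun q => f (Q69.SX.EX (Fin k) q)) ^ 2 = ∫ q, f q ^ 2 := by
      rw [Q69.SX.nrm_sq, ← Q69.SX.int_EX (fun q => f q ^ 2)]
    rw [← e1, ← e1, ← e2]
    obtain ⟨A, hA⟩ : ∃ A, A = Q69.SX.nrm volume (fun q =>
      f (Q69.SX.EX (Fin k) (Q69.SX.SX a q)) - f (Q69.SX.EX (Fin k) q)) := ⟨_, rfl⟩
    obtain ⟨B, hB⟩ : ∃ B, B = Q69.SX.nrm volume (fun q =>
      f (Q69.SX.EX (Fin k) (Q69.SX.SX b q)) - f (Q69.SX.EX (Fin k) q)) := ⟨_, rfl⟩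
    obtain ⟨C, hC⟩ : ∃ C, C = Q69.SX.nrm volume (fun q => f (Q69.SX.EX (Fin k) q)) := ⟨_, rfl⟩
    rw [← hA, ← hB, ← hC] at h3 ⊢
    have hC0 : 0 ≤ C := by rw [hC]; exact Q69.SX.nrm_nonneg _
    have h4 := pow_le_pow_left₀ (mul_nonneg hε.le hC0) h3 2
    nlinarith [sq_nonneg (A - B)]
  · obtain ⟨c, hc, h⟩ := Q69.SX.annealed (κ := Fin k) ν h1 h2
    refine ⟨c, hc, fun f hf hf2 hf0 n => ?_⟩
    simp only [horb]
    exact h f ⟨hf, hf2⟩ hf0 n
  · obtain ⟨c, hc, h⟩ := Q69.SX.quenched ν h1 h2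
    obtain ⟨c', hc', h'⟩ := Q69.SX.quenched_all ν h1 h2
    obtain ⟨m, hm⟩ : ∃ m, m = min c c' := ⟨_, rfl⟩
    have hm0 : 0 < m := by rw [hm]; exact lt_min hc hc'
    have hmc : m ≤ c := by rw [hm]; exact min_le_left _ _
    have hmc' : m ≤ c' := by rw [hm]; exact min_le_right _ _
    have hexp : ∀ n : ℕ, exp (-(c * n)) ≤ exp (-(m * n)) := by
      intro n
      apply exp_le_exp.2
      have : (0:ℝ) ≤ n := Nat.cast_nonneg n
      nlinarith
    have hexp' : ∀ n : ℕ, exp (-(c' * n)) ≤ exp (-(m * n)) := by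
      intro n
      apply exp_le_exp.2
      have : (0:ℝ) ≤ n := Nat.cast_nonneg n
      nlinarith
    simp only [horb]
    refine ⟨m, hm0, fun φ ψ hφ hφ2 hψ hψ2 => ⟨fun n => ?_, ?_⟩, ?_⟩
    · refine ((h φ ψ ⟨hφ, hφ2⟩ ⟨hψ, hψ2⟩).1 n).trans ?_
      have hA : 0 ≤ (∫ p, φ p ^ 2) * ∫ p, ψ p ^ 2 :=
        mul_nonneg (integral_nonneg fun p => sq_nonneg _) (integral_nonneg fun p => sq_nonneg _)
      exact mul_le_mul_of_nonneg_right (mul_le_mul_of_nonneg_left (hexp n) two_pos.le) hA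
    · filter_upwards [(h φ ψ ⟨hφ, hφ2⟩ ⟨hψ, hψ2⟩).2] with w hw
      filter_upwards [hw] with n hn
      exact hn.trans (hexp n)
    · filter_upwards [h'] with w hw
      filter_upwards [hw] with n hn
      intro φ ψ M N hM hN
      refine (hn φ ψ M N hM hN).trans ?_
      obtain ⟨_, _, _, -, -, -, -, -, -, -, hMb⟩ := hM
      obtain ⟨_, _, _, -, -, -, -, -, -, -, hNb⟩ := hN
      have hM0 : 0 ≤ M := (abs_nonneg _).trans (hMb 0).1
      have hN0 : 0 ≤ N := (abs_nonneg _).trans (hNb 0).1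
      exact mul_le_mul_of_nonneg_right (mul_le_mul_of_nonneg_left (hexp' n) (by norm_num))
        (mul_nonneg hM0 hN0)

end Pool.Agent.Results.MP_9ee088_an.RandomMixing
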