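import Mathlib

set_option autoImplicit false

/-!
# Points with equal logical kernels in a free algebra which are not conjugate

Let `Θ` be the variety of the algebras with unary operations `t` and `s i` (`i ∈ ℕ`) and the
identities `t (s i x) = x`, and let `W` be its free algebra on one generator `x`.  For every `k`
there is a permutation `σ` of `W` with `σ x = t x` which commutes with `t` and with `s i` for
`i < k`: as regards these operations the element `s k x`, for example, plays the same role for `x` as
the element `x` does for `t x`.  So `x` and `t x` satisfy the same first-order formulas.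
But no automorphism of `W` maps `x` to `t x`, because `t x` does not generate `W`.
-/

namespace Pool.Agent.Results.MP_9f131e_lc.NotConjugate

open FirstOrder FirstOrder.Language

/-- The algebra `A` satisfies the identities of the set `E`. -/
def Satisfies {L : FirstOrder.Language.{0, 0}} (E : Set (L.Term ℕ × L.Term ℕ)) (A : Type)
    [L.Structure A] : Prop :=
  ∀ e ∈ E, ∀ v : ℕ → A, e.1.realize v = e.2.realize v

/-- `H` is the free algebra of the variety defined by the identities of `E`, with the free
generators `ι y`. -/
structure IsFree {L : FirstOrder.Language.{0, 0}} (E : Set (L.Term ℕ × L.Term ℕ)) (H : Type)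
    [L.Structure H] {Y : Type} (ι : Y → H) : Prop where
  satisfies : Satisfies E H
  universal : ∀ (A : Type) [L.Structure A], Satisfies E A → ∀ a : Y → A,
    ∃! f : H →[L] A, ∀ y, f (ι y) = a y

/-- The logical kernel of a point `μ : W(X) → H`, given as a tuple `X → H`: the formulas satisfied by
the tuple. -/
def LKer {L : FirstOrder.Language.{0, 0}} {H : Type} [L.Structure H] {X : Type} (μ : X → H) :
    Set (L.Formula X) :=
  {φ | φ.Realize μ}

/-- Isotypic algebras. -/
def Isotypic (L : FirstOrder.Language.{0, 0}) (H₁ H₂ : Type) [L.Structure H₁]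
    [L.Structure H₂] : Prop :=
  ∀ (X : Type) [Finite X], {T : Set (L.Formula X) | ∃ μ : X → H₁, T = LKer μ} =
    {T : Set (L.Formula X) | ∃ ν : X → H₂, T = LKer ν}

/-! ### The variety -/

/-- The operations `t` and `s i`. -/
inductive Fn : ℕ → Type
  | t : Fn 1
  | s (i : ℕ) : Fn 1

/-- The signature. -/
abbrev Θ : FirstOrder.Language.{0, 0} := ⟨Fn, fun _ => Empty⟩

/-- The identities `t (s i x) = x`. -/
def E : Set (Θ.Term ℕ × Θ.Term ℕ) :=
  {e | ∃ i : ℕ, e = (Term.func Fn.t ![Term.func (Fn.s i) ![Term.var 0] ], Term.var 0)}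

/-- The free algebra on one generator: `(l, n)` stands for `s l_m (... (s l_1 (t ^ n x)))`. -/
abbrev W : Type := List ℕ × ℕ

/-- The operation `t`. -/
def tW : W → W := fun w => if w.1 = [] then ([], w.2 + 1) else (w.1.dropLast, w.2)

/-- The operations `s i`. -/
def sW (i : ℕ) : W → W := fun w => (w.1 ++ [i], w.2)

instance : Θ.Structure W where
  funMap := fun f => match f with
    | Fn.t => fun v => tW (v 0)
    | Fn.s i => fun v => sW i (v 0)
  RelMap := fun r => nomatch r

theorem tW_sW (i : ℕ) (w : W) : tW (sW i w) = w := by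
  simp [tW, sW]

theorem satisfies_W : Satisfies E W := by
  rintro _ ⟨i, rfl⟩ v
  exact tW_sW i _

/-- The generator. -/
def gen : Unit → W := fun _ => ([], 0)

section Free

variable {A : Type} [Θ.Structure A]

/-- The operation `t` of an algebra. -/
def tA (a : A) : A := Structure.funMap (L := Θ) Fn.t ![a]

/-- The operation `s i` of an algebra. -/
def sA (i : ℕ) (a : A) : A := Structure.funMap (L := Θ) (Fn.s i) ![a]

theorem tA_sA (h : Satisfies E A) (i : ℕ) (a : A) : tA (sA i a) = a := by
  have h1 := h _ ⟨i, rfl⟩ (fun _ => a)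
  simp only [Term.realize_func, Term.realize_var] at h1
  unfold tA sA
  convert! h1 using 2
  funext j
  fin_cases j
  simp only [Fin.zero_eta, Matrix.cons_val_zero, Term.realize_func]
  congr 1
  funext j
  fin_cases j
  rfl

theorem funMap_t (v : Fin 1 → A) : Structure.funMap (L := Θ) Fn.t v = tA (v 0) := by
  unfold tA
  congr 1
  funext j
  fin_cases j
  rfl

theorem funMap_s (i : ℕ) (v : Fin 1 → A) :
    Structure.funMap (L := Θ) (Fn.s i) v = sA i (v 0) := by
  unfold sA
  congr 1
  funext j
  fin_cases j
  rfl

/-- The image of an element of `W`. -/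
def ev (a : A) (w : W) : A := w.1.foldl (fun b i => sA i b) (tA^[w.2] a)

theorem ev_s (a : A) (i : ℕ) (w : W) : ev a (sW i w) = sA i (ev a w) := by
  simp [ev, sW, List.foldl_append]

theorem ev_t (h : Satisfies E A) (a : A) (w : W) : ev a (tW w) = tA (ev a w) := by
  obtain ⟨l, n⟩ := w
  induction l using List.reverseRecOn with
  | nil => simp [ev, tW, Function.iterate_succ_apply']
  | append_singleton l i _ =>
    change ev a (tW (sW i (l, n))) = tA (ev a (sW i (l, n)))
    rw [tW_sW, ev_s, tA_sA h]

theorem hom_t (f : W →[Θ] A) (w : W) : f (tW w) = tA (f w) := by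
  have h1 := f.map_fun Fn.t ![w]
  rw [funMap_t (f ∘ ![w])] at h1
  exact h1

theorem hom_s (f : W →[Θ] A) (i : ℕ) (w : W) : f (sW i w) = sA i (f w) := by
  have h1 := f.map_fun (Fn.s i) ![w]
  rw [funMap_s i (f ∘ ![w])] at h1
  exact h1

end Free

theorem isFree_W : IsFree E W gen where
  satisfies := satisfies_W
  universal := by
    intro A _ hA a
    refine ⟨⟨ev (a ()), ?_, ?_⟩, ?_, ?_⟩
    · intro n f v
      cases f with
      | t =>
        rw [funMap_t (ev (a ()) ∘ v)]
        exact ev_t hA _ _
      | s i =>
        rw [funMap_s i (ev (a ()) ∘ v)]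
        exact ev_s _ _ _
    · intro n r
      exact nomatch r
    · intro y
      rfl
    · intro f hf
      apply DFunLike.ext
      rintro ⟨l, n⟩
      change f (l, n) = ev (a ()) (l, n)
      induction l using List.reverseRecOn with
      | nil =>
        induction n with
        | zero => exact hf ()
        | succ n ih =>
          change f (tW ([], n)) = ev (a ()) (tW ([], n))
          rw [hom_t, ih, ev_t hA]
      | append_singleton l i ih =>
        change f (sW i (l, n)) = ev (a ()) (sW i (l, n))
        rw [hom_s, ih, ev_s]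

/-! ### The automorphisms of the reducts -/

/-- The permutation for the reduct with the operations `t` and `s i`, `i < k`. -/
def σf (k : ℕ) : W → W
  | (l, n + 1) => (l, n + 2)
  | ([], 0) => ([], 1)
  | (i :: l, 0) => if i < k then (i :: l, 1) else if i = k then (l, 0) else ((i - 1) :: l, 1)

/-- The inverse of the permutation. -/
def τf (k : ℕ) : W → W
  | (l, n + 2) => (l, n + 1)
  | ([], 1) => ([], 0)
  | (i :: l, 1) => if i < k then (i :: l, 0) else ((i + 1) :: l, 0)
  | (l, 0) => (k :: l, 0)

/-- The permutation for the reduct with the operations `t` and `s i`, `i < k`. -/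
def σ (k : ℕ) : W ≃ W where
  toFun := σf k
  invFun := τf k
  left_inv := by
    rintro ⟨l, n⟩
    match l, n with
    | l, n + 1 => rfl
    | [], 0 => rfl
    | i :: l, 0 =>
      rcases lt_trichotomy i k with h | h | h
      · have h1 : σf k (i :: l, 0) = (i :: l, 1) := if_pos h
        rw [h1]
        exact if_pos h
      · have h1 : σf k (i :: l, 0) = (l, 0) := by
          simp [σf, h]
        rw [h1, h]
        cases l <;> rfl
      · have h1 : σf k (i :: l, 0) = ((i - 1) :: l, 1) := by
          have h2 : ¬ i < k := by omega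
          have h3 : ¬ i = k := by omega
          simp [σf, h2, h3]
        rw [h1]
        have h2 : ¬ i - 1 < k := by omega
        have h3 : τf k ((i - 1) :: l, 1) = ((i - 1 + 1) :: l, 0) := if_neg h2
        rw [h3]
        have h4 : i - 1 + 1 = i := by omega
        rw [h4]
  right_inv := by
    rintro ⟨l, n⟩
    match l, n with
    | l, n + 2 => rfl
    | [], 1 => rfl
    | i :: l, 1 =>
      by_cases h : i < k
      · have h1 : τf k (i :: l, 1) = (i :: l, 0) := if_pos h
        rw [h1]
        exact if_pos h
      · have h1 : τf k (i :: l, 1) = ((i + 1) :: l, 0) := if_neg h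
        rw [h1]
        have h2 : ¬ i + 1 < k := by omega
        have h3 : ¬ i + 1 = k := by omega
        simp [σf, h2, h3]
    | l, 0 =>
      have h1 : τf k (l, 0) = (k :: l, 0) := by cases l <;> rfl
      rw [h1]
      simp [σf]

theorem σ_gen (k : ℕ) : σ k (gen ()) = tW (gen ()) := rfl

theorem σ_s (k i : ℕ) (hi : i < k) (w : W) : σ k (sW i w) = sW i (σ k w) := by
  obtain ⟨l, n⟩ := w
  match l, n with
  | l, n + 1 => rfl
  | [], 0 => exact if_pos hi
  | j :: l, 0 =>
    change σf k (j :: (l ++ [i]), 0) = sW i (σf k (j :: l, 0))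
    unfold σf
    simp only
    split_ifs <;> rfl

theorem σ_t (k : ℕ) (w : W) : σ k (tW w) = tW (σ k w) := by
  obtain ⟨l, n⟩ := w
  match l, n with
  | [], n + 1 => rfl
  | i :: l, n + 1 => rfl
  | [], 0 => rfl
  | [i], 0 =>
    change _ = tW (σf k ([i], 0))
    unfold σf
    simp only
    split_ifs <;> rfl
  | i :: j :: l, 0 =>
    change σf k (i :: (j :: l).dropLast, 0) = tW (σf k (i :: j :: l, 0))
    unfold σf
    simp only
    split_ifs <;> rfl

/-! ### Formulas -/

/-- For every term the permutations with large index preserve its value. -/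
theorem term_inv {α : Type} (u : Θ.Term α) : ∃ k₀, ∀ k, k₀ ≤ k → ∀ v : α → W,
    u.realize (fun a => σ k (v a)) = σ k (u.realize v) := by
  induction u with
  | var a => exact ⟨0, fun k _ v => rfl⟩
  | func f ts ih =>
    cases f with
    | t =>
      obtain ⟨k₀, h⟩ := ih 0
      refine ⟨k₀, fun k hk v => ?_⟩
      change tW ((ts 0).realize _) = σ k (tW ((ts 0).realize v))
      rw [h k hk v, σ_t]
    | s i =>
      obtain ⟨k₀, h⟩ := ih 0
      refine ⟨max k₀ (i + 1), fun k hk v => ?_⟩
      change sW i ((ts 0).realize _) = σ k (sW i ((ts 0).realize v))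
      rw [h k ((le_max_left _ _).trans hk) v, σ_s k i]
      have := (le_max_right k₀ (i + 1)).trans hk
      omega

/-- For every formula the permutations with large index preserve its truth value. -/
theorem formula_inv {α : Type} {n : ℕ} (φ : Θ.BoundedFormula α n) : ∃ k₀, ∀ k, k₀ ≤ k →
    ∀ (v : α → W) (xs : Fin n → W),
      (φ.Realize (fun a => σ k (v a)) (fun i => σ k (xs i)) ↔ φ.Realize v xs) := by
  induction φ with
  | falsum => exact ⟨0, fun k _ v xs => Iff.rfl⟩
  | equal t₁ t₂ =>
    obtain ⟨k₁, h₁⟩ := term_inv t₁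
    obtain ⟨k₂, h₂⟩ := term_inv t₂
    refine ⟨max k₁ k₂, fun k hk v xs => ?_⟩
    have e : (Sum.elim (fun a => σ k (v a)) fun i => σ k (xs i)) =
        fun a => σ k (Sum.elim v xs a) := by
      funext a
      rcases a with a | a <;> rfl
    change (t₁.realize _ = t₂.realize _) ↔ (t₁.realize _ = t₂.realize _)
    rw [e, h₁ k ((le_max_left _ _).trans hk), h₂ k ((le_max_right _ _).trans hk)]
    exact (σ k).injective.eq_iff
  | rel R ts => exact nomatch R
  | imp φ ψ ih₁ ih₂ =>
    obtain ⟨k₁, h₁⟩ := ih₁
    obtain ⟨k₂, h₂⟩ := ih₂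
    refine ⟨max k₁ k₂, fun k hk v xs => ?_⟩
    rw [BoundedFormula.realize_imp, BoundedFormula.realize_imp,
      h₁ k ((le_max_left _ _).trans hk), h₂ k ((le_max_right _ _).trans hk)]
  | @all m φ ih =>
    obtain ⟨k₀, h⟩ := ih
    refine ⟨k₀, fun k hk v xs => ?_⟩
    rw [BoundedFormula.realize_all, BoundedFormula.realize_all]
    have e : ∀ y : W, (Fin.snoc (fun i => σ k (xs i)) (σ k y) : Fin (m + 1) → W) =
        fun i => σ k ((Fin.snoc xs y : Fin (m + 1) → W) i) := by
      intro y
      funext i
      refine Fin.lastCases ?_ (fun j => ?_) i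
      · simp
      · simp
    constructor
    · intro h1 y
      have h2 := h1 (σ k y)
      rw [e y, h k hk] at h2
      exact h2
    · intro h1 y
      obtain ⟨z, rfl⟩ := (σ k).surjective y
      rw [e z, h k hk]
      exact h1 z

/-- The generator `x` and `t x` have the same logical kernel. -/
theorem lker_eq : LKer (L := Θ) gen = LKer (L := Θ) (fun y => tW (gen y)) := by
  ext φ
  obtain ⟨k, hk⟩ := formula_inv φ
  have h1 := hk k le_rfl gen (fun i => i.elim0)
  have e0 : ∀ v : Unit → W, φ.Realize v ↔ BoundedFormula.Realize φ v (fun i => i.elim0) :=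
    fun v => iff_of_eq (congrArg (BoundedFormula.Realize φ v) (Subsingleton.elim _ _))
  have e1 : (fun i : Fin 0 => σ k (i.elim0 : W)) = (fun i => i.elim0) := Subsingleton.elim _ _
  have e2 : (fun a => σ k (gen a)) = fun y => tW (gen y) := by
    funext a
    exact σ_gen k
  rw [e1, e2, ← e0, ← e0] at h1
  exact h1.symm

/-- No automorphism maps `x` to `t x`. -/
theorem no_aut : ¬ ∃ f : W ≃[Θ] W, ∀ y, f (gen y) = tW (gen y) := by
  rintro ⟨f, hf⟩
  have h1 : ∀ w : W, f w = (w.1, w.2 + 1) := by
    have ht : ∀ w, f (tW w) = tW (f w) := fun w => f.map_fun' Fn.t ![w]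
    have hs : ∀ i w, f (sW i w) = sW i (f w) := fun i w => f.map_fun' (Fn.s i) ![w]
    rintro ⟨l, n⟩
    induction l using List.reverseRecOn with
    | nil =>
      induction n with
      | zero => exact hf ()
      | succ n ih =>
        change f (tW ([], n)) = _
        rw [ht, ih]
        rfl
    | append_singleton l i ih =>
      change f (sW i (l, n)) = _
      rw [hs, ih]
      rfl
  obtain ⟨w, hw⟩ := f.surjective (([], 0) : W)
  rw [h1] at hw
  have := congrArg Prod.snd hw
  simp at this

/-- **Answer to Q1 (no).**  There are a variety (given by a signature `L` without relation symbols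
and a set `E` of identities) and a free algebra `H` on one generator in it, with two points
`μ, ν` (one-tuples of elements of `H`) which have equal logical kernels, such that no automorphism
of `H` maps `μ` to `ν`.  (So this holds for the isotypic algebras `H₁ = H₂ = H`.) -/
theorem result : ∃ (L : FirstOrder.Language.{0, 0}) (_ : L.IsAlgebraic)
    (E : Set (L.Term ℕ × L.Term ℕ)) (H : Type) (_ : L.Structure H) (ι : Unit → H),
    IsFree E H ι ∧ Isotypic L H H ∧
      ∃ μ ν : Unit → H, LKer (L := L) μ = LKer (L := L) ν ∧
        ¬ ∃ σ : H ≃[L] H, ∀ y, σ (μ y) = ν y :=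
  ⟨Θ, fun _ => (inferInstance : IsEmpty Empty), E, W, inferInstance, gen, isFree_W,
    fun _ _ => rfl, gen, fun y => tW (gen y), lker_eq, no_aut⟩

end Pool.Agent.Results.MP_9f131e_lc.NotConjugate
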