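import Pool.Agent.Q47.CY.Br

/-!
# The nef cone conjecture for klt Calabi–Yau pairs on toric bundles over torus quotients

Let `X = V / Γ` be a projective quotient of a complex torus of any dimension by any finite group
(reflections are allowed, so that `K_X` need not be trivial), and let `Y → X` be a toric bundle: a
locally trivial bundle whose fibre is a smooth projective toric variety, twisted by arbitrary line
bundles `c_i` on `X` (for example the projectivisation of a direct sum of line bundles). Let
`Δ = ∑ δ_j B_j` be any effective divisor with real coefficients on `Y` such that `K_Y + Δ` is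
numerically trivial and such that for one fibre `Y_v` of `Y → X` the pair `(Y_v, Δ_v)` is klt (this
holds if `(Y, Δ)` is klt). In general `Δ` is neither torus invariant nor a pullback.

The theorem says that the cone `Nef^e(Y)` of the nef and effective classes has a rational polyhedral
fundamental domain for the action of `Aut(Y, Δ)`, and for the action of each subgroup of finite index,
that `Nef^e(Y)` is the convex hull `Nef^+(Y)` of the rational nef classes, and that its faces form
finitely many orbits.

The proof. (a) Let `F_j` be the equation of `B_j` in the Cox coordinates. Since one fibre is klt, for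
each weight `w ≥ 0`, `w ≠ 0`, on a cone of the fan there are monomials `α_j` in `F_j` with
`∑ δ_j w(α_j) < ∑ w_i`. The coefficient of each monomial is a section of a line bundle on `X`, so
that its Chern form is semidefinite; `K_Y + Δ ≡ 0` and the convexity of the set of exponents show
that these forms, and those of all line bundles `∏ c_i ^ u_{ik}`, vanish in all directions which are
parallel to the mirrors of the reflections in `Γ`; and the differences of the exponents generate a
subgroup of finite index in `ℤ^n`, so that the factors of these line bundles on the lattice vectors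
in these directions are roots of unity, because the sections are invariant by Liouville's theorem.
(b) Reduction theory (Voronoi's theory for an order in a real algebra with positive involution) covers
the ample classes of `X` by the translates of a cone spanned by finitely many nef integral classes,
under units which are congruent to `1`. Such a unit extends to an affine automorphism `f` of `V` which
normalises `Γ` and moves all points in directions parallel to all mirrors; by (a) there are functions
`a_i` such that `(v, x) ↦ (f v, (a_i(v) x_i)_i)` is an automorphism of the pair `(Y, Δ)`.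
(c) A class in the interior of `Nef(Y)` is `∑ β_i D_i + x`, `β_i ≥ 0`, with `x` ample on `X`. The
automorphisms in (b) fix all `D_i`. So one only has to show that the nef classes
`∑ β_i D_i + x` with `β_i ≥ 0` and `x` in a rational polyhedral cone form a rational polyhedral cone.
Nefness means that `x` remains nef after twists by certain combinations of the forms
`∑_i u_{ik} c_1(c_i)`. These forms vanish in the directions of the mirrors, so this can be tested on
finitely many vectors, one for each reflection. Finally a Dirichlet domain is a fundamental domain.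

`IsSmoothFan`, `LinEquiv` and `IsSection` are defined in `Pool.Agent.Q47.TB.Defs`; `IsFibreAmple` in
`Pool.Agent.Q47.AL.Def`; `IsLogCanonical` in `Pool.Agent.Q47.TR.Stm`; `Bundle`, `Bdry`,
`Bdry.IsKltAt` and `Bdry.IsFixedBy` in `Pool.Agent.Q47.CY.Def`; `IsTQ`, `NY`, `D`, `pb`, `hull`,
`intY`, `effY`, `nefY`, `IsAutY`, `IsPullbackY`, `IsCY`, `absGrp` and `PresLatt` in
`Pool.Agent.Q47.CY.St`; `LineBundle` in `Pool.Agent.W594.SYZ.Defs2`; `IsChernForm` and
`IsPositiveForm` in `Pool.Agent.W594.SYZ.TQDefs`; `IsRamification` and `IsLogPluricanonical` in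
`Pool.Agent.TH735.AQ.MirDefs`; `AffGrp`, `IsClass` and `Normalizes` in `Pool.Agent.Y167.Defs`;
`LinGrp`, `Preserves`, `IsFundDomain`, `N1`, `form` and `nefCone` in `Pool.Agent.Y167.Stm`; `IsFace`
in `Pool.Agent.Y167.StmFace`; `cone` in `Pool.Agent.Y167.ConeDef`. In the absolute case the linear
subspace `E` of `V` of the general definitions is `V` itself, embedded by the identity map.
-/

set_option autoImplicit false

namespace Pool.Agent.Results.MP_9f99c5_ag.ToricBundlePairs

open Pool.Agent.W594.SYZ2 Pool.Agent.TH735.AQ
open Pool.Agent.Y167 (AffGrp cone rel_abs IsFace)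
open Pool.Agent.Y167.CC (LinGrp Preserves IsFundDomain)
open Q47.CY (Bundle Bdry)
open Q47.CP

variable {V : Type*} [NormedAddCommGroup V] [NormedSpace ℂ V] {Γ : AffGrp V}
  {ι : Type*} [Fintype ι] {n r : ℕ}

/-- The space `N^1(Y)`. -/
abbrev NS (Y : Bundle Γ ι n) : Type _ := NY Y (LinearMap.id : V →ₗ[ℂ] V)

/-- The cone `Nef^e(Y)` of the nef and effective classes. -/
def nefEff (Y : Bundle Γ ι n) : Set (NS Y) := nefY Y LinearMap.id ∩ effY Y LinearMap.id

/-- `𝒢` is a group of linear automorphisms of `N^1(Y)` which preserves a lattice commensurable with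
the lattice of the integral classes and the cone of the nef and effective classes, and which contains
a subgroup of finite index of the group generated by the pullbacks by the automorphisms
`(v, x) ↦ (f v, (a_i(v) x_i)_i)` of `Y` which map all components `B_j` of `Δ` to themselves. The image
of `Aut(Y, Δ)` has these properties, also if `Aut(Y, Δ)` is defined as the group of the automorphisms
which map the support of `Δ` to itself, and so have its subgroups of finite index. -/
def IsAutGroup {Y : Bundle Γ ι n} (Δ : Bdry Y r) (𝒢 : LinGrp (NS Y)) : Prop :=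
  PresLatt (intY Y LinearMap.id) 𝒢 ∧ Preserves 𝒢 (nefEff Y) ∧ 𝒢.relIndex (absGrp Δ) ≠ 0

/-- Let `X = V / Γ` be a projective torus quotient, `Y → X` a toric bundle, and `Δ` an effective
divisor with real coefficients on `Y` such that `K_Y + Δ` is numerically trivial and such that
`(Y_v, Δ_v)` is klt for one `v ∈ V`. There is a finite set `S` of integral classes such that the cone
spanned by `S` is contained in `Nef^e(Y)` and is a fundamental domain for the action of `𝒢` on
`Nef^e(Y)`. Moreover `Nef^e(Y)` is the convex cone spanned by the integral nef classes, and its faces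
form finitely many orbits under `𝒢`. -/
theorem result [FiniteDimensional ℂ V] (Γ : AffGrp V) (hΓ : IsTQ Γ)
    (hproj : ∃ (L : LineBundle Γ) (H : V → V → ℂ), IsChernForm L H ∧ IsPositiveForm H)
    (Y : Bundle Γ ι n) (Δ : Bdry Y r) (hklt : ∃ v, Δ.IsKltAt v) (hCY : IsCY Δ LinearMap.id)
    (𝒢 : LinGrp (NS Y)) (h𝒢 : IsAutGroup Δ 𝒢) :
    (∃ S : Finset (NS Y), ↑S ⊆ intY Y LinearMap.id ∧ cone S ⊆ nefEff Y ∧
      IsFundDomain 𝒢 (nefEff Y) (cone S)) ∧
    nefEff Y = hull (intY Y LinearMap.id ∩ nefY Y LinearMap.id) ∧
    ∃ 𝓕 : Set (Set (NS Y)), 𝓕.Finite ∧ (∀ F ∈ 𝓕, IsFace F (nefEff Y)) ∧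
      ∀ F, IsFace F (nefEff Y) → ∃ g ∈ 𝒢, ∃ F' ∈ 𝓕, F = g '' F' := by
  obtain ⟨L, H, hc, hp⟩ := hproj
  obtain ⟨v, hv⟩ := hklt
  have R := rel_abs (isTQ_iff.1 hΓ) hc hp
  have h0 : (Y.S).Nonempty := ⟨∅, Y.fan.empty_mem⟩
  have hjr : LinearMap.range (LinearMap.id : V →ₗ[ℂ] V) = LinearMap.ker (0 : V →ₗ[ℂ] PUnit) := by
    rw [LinearMap.range_id, LinearMap.ker_zero]
  have h1 := h𝒢.2.2
  rw [absGrp_eq] at h1
  obtain ⟨S, hS1, hS2, hS3⟩ := main R hjr Δ hv hCY subset_rfl h0 nefY_eq 𝒢 h𝒢.1 h𝒢.2.1 h1
  exact ⟨⟨S, hS1, hS2, hS3⟩, plus R Δ hv hCY h0 nefY_eq, faces R nefY_eq 𝒢 h𝒢.2.1 hS2 hS3⟩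

end Pool.Agent.Results.MP_9f99c5_ag.ToricBundlePairs
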