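import Pool.Agent.Q269.SL.Prb

/-!
# The ranks of the Picard varieties of products of twisted hyperelliptic curves of genus `≥ 2`

Let `k` be a finite field of characteristic different from 2 in which `-1` is a square, `K = k(t)`, and
let `R` be a finite set. For each `r` in `R` let `n r ≥ 5` be an odd number and let `a r 1, …, a r (n r)`
be polynomials over `k` whose differences have the same degree `N r ≥ 1` and a squarefree product `Δ r`;
suppose that `Δ r` and `Δ r'` are coprime for `r ≠ r'`. For a monic squarefree polynomial `D` prime to
all the `Δ r` let `C(r, D)` be the hyperelliptic curve of genus `(n r - 1) / 2 ≥ 2`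

`y ^ 2 = D(t) (x - a r 1) ⋯ (x - a r (n r))`

over `K`, the quadratic twist by `D` of `C(r, 1)`, and let `J(r, D)` be its Jacobian. All the curves are
twisted by the same polynomial `D`. The product of the `J(r, D)` is the Picard variety of the product
`X(D)` of the curves `C(r, D)`. The group `J(r, D)(L)`, `L` an extension of `K`, is the class group of
the affine curve, `Pic(L[x, y] / (y ^ 2 - D(t) ∏ (x - a r i)))` (there is one point at infinity and it
is rational), the group `J` of the library.

We say that the number `M` bounds the points and the Tate-Shafarevich group of `J = J(r, D)` if the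
product of the order of the group `J(K) / (J(K)[2] + 2 J(K))` and of the order of the group of the
classes in `H ^ 1 (K, J)[2]` which are trivial over the completions of `K` at all the places of `K`
different from infinity is at most `M`. Since the second group contains the elements of order 1 or 2
of the Tate-Shafarevich group and the first one has at least `2 ^ rank` elements, for `M = 2 ^ e` this
implies that the sum of the rank of `J(K)` and of the corank of the 2-primary part of the
Tate-Shafarevich group (which is conjecturally finite, the conjecture being equivalent to the equality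
of the rank and of the order of the L-function) is at most `e`; and for `e = 0` the full conjecture of
Birch and Swinnerton-Dyer holds for `J`: rank and order of vanishing are zero.

Theorem. Let `β = ∏_{i ≥ 0} (1 - 2 ^ (- 2 i - 1)) = 0.4194...` and let `p` be the probability
distribution on the set of the natural numbers with

`p(e) = (β / 2) 2 ^ e / ((2 - 1) (2 ^ 2 - 1) ⋯ (2 ^ e - 1))`

(`p(0) = 0.2097...`, `p(1) = 0.4194...`, `p(2) = 0.2796...`, `p(3) = 0.0798...`, `p(4) = 0.0106...`).
Let `𝒜` be any set of vectors of natural numbers indexed by `R`. As the degree `m` of `D` tends to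
infinity, `m + N r` odd for all `r`, the proportion of the `D` for which there is a vector `e` in `𝒜`
such that `2 ^ (e r)` bounds the points and the Tate-Shafarevich group of `J(r, D)` for all `r` is at
least the probability (up to `ε`) that a vector of independent random variables with the
distribution `p` belongs to `𝒜`.

So the joint distribution of the ranks of the `J(r, D)` is, in the limit, dominated by that of
independent random variables with the law `p`, which depends neither on the genus nor on the
field `k`. For instance for the vectors with sum at most `s`: the Picard variety of `X(D)` has rank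
at most `s` over `K` for at least the proportion `P(Y_1 + ⋯ + Y_|R| ≤ s) - ε` of the `D`. For one family
the rank is 0 for at least `0.2096`, at most 1 for at least `0.629` and at most 3 for at least `0.988` of
the `D`, for every genus at least 2. (For elliptic curves, that is `n r = 3`, the part of the law with
`e = 0` is the theorem `SimultaneousCurves` for MP_48b749_nt.)

The proof: the 2-Selmer group of `J(r, D)` modulo the torsion points is contained in the kernel of an
explicit symmetric matrix over the field with two elements, whose entries are quadratic residue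
symbols of the prime factors of `D` and of `Δ r`. The parity of the dimension of the kernel depends
only on the class of `D` modulo `Δ r`. The block of the symbols of the prime factors of `D` is the same
for all `r`. All the mixed moments of the orders of the `|R|` kernels are computed in each class;
together with the parity they determine the probabilities of all the vectors of dimensions, and the
classes are independent for different `r`.
-/

set_option autoImplicit false
set_option linter.all false

namespace Pool.Agent.Results.MP_9faec4_nt.SelmerLawSeveralFamilies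

open Polynomial Filter Pool.Agent.Y713.Jac IsDedekindDomain
open scoped Classical

/-- The product of the differences `a i - a j`, `i < j`. -/
noncomputable def differences {k : Type} [Field k] {n : ℕ} (a : Fin n → k[X]) : k[X] :=
  ∏ x ∈ (Finset.univ : Finset (Fin n × Fin n)).filter (fun x => x.1 < x.2), (a x.1 - a x.2)

/-- The monic squarefree polynomials `D` of degree `m` prime to the differences `a r i - a r j` of all
the families. -/
def Twists {k : Type} [Field k] {R : Type} {n : R → ℕ} (a : (r : R) → Fin (n r) → k[X]) (m : ℕ) :
    Set k[X] :=
  {D | D.Monic ∧ D.natDegree = m ∧ Squarefree D ∧ ∀ r i j, i ≠ j → IsCoprime D (a r i - a r j)}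

/-- The polynomial `D(t) (x - a 1) ⋯ (x - a n)` in `x` over `K = k(t)`. -/
noncomputable def twist {k : Type} [Field k] (K : Type) [Field K] [Algebra k[X] K] {n : ℕ}
    (a : Fin n → k[X]) (D : k[X]) : K[X] :=
  C (algebraMap k[X] K D) * ∏ i, (X - C (algebraMap k[X] K (a i)))

/-- For the Jacobian `J` of `y ^ 2 = F(x)` over `K = Frac R`, the number of the elements of
`J(K) / (J(K)[2] + 2 J(K))` times the number of the classes in `H ^ 1 (K, J)` killed by 2 which are
trivial over the completions of `K` at the primes of `R` is at most `M`: if `x 1, …, x A` are points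
different modulo `J(K)[2] + 2 J(K)` and `c 1, …, c B` are cocycles, locally trivial, killed by 2 in
`H ^ 1` and pairwise not cohomologous, then `A * B ≤ M`. -/
def BoundsPointsAndSha {K : Type} [Field K] (F : K[X]) (R : Type) [CommRing R]
    [IsDedekindDomain R] [Algebra R K] [IsFractionRing R K] (M : ℕ) : Prop :=
  ∀ (A B : ℕ) (x : Fin A → J 2 F K) (c : Fin B → Cochain 2 F),
    (∀ i j, i ≠ j → ¬ ∃ T y : J 2 F K, T ^ 2 = 1 ∧ x i = x j * T * y ^ 2) →
    (∀ j, IsCocycle 2 F (c j)) → (∀ j, IsLocallyTrivial 2 F R (c j)) →
    (∀ j, IsCoboundary 2 F (fun σ => c j σ ^ 2)) →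
    (∀ i j, i ≠ j → ¬ IsCoboundary 2 F (fun σ => c i σ / c j σ)) → A * B ≤ M

/-- The infinite product of the numbers `1 - 2 ^ (- 2 i - 1)`, `i ≥ 0`. -/
noncomputable def beta : ℝ := ∏' i : ℕ, (1 - (1 / 2 : ℝ) ^ (2 * i + 1))

/-- The probability of `e` in the law `p`. -/
noncomputable def law (e : ℕ) : ℝ :=
  beta / 2 * (2 ^ e / ∏ i ∈ Finset.range e, ((2 : ℝ) ^ (i + 1) - 1))

/-- The probability that a vector of independent random variables with the law `p` belongs to `𝒜`. -/
noncomputable def probability {R : Type} [Fintype R] (𝒜 : Set (R → ℕ)) : ℝ :=
  ∑' e : R → ℕ, if e ∈ 𝒜 then ∏ r, law (e r) else 0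

theorem law_eq : law = Pool.Agent.Q269.SL.law2 := by
  funext e
  rw [Pool.Agent.Q269.SL.law2_eq]
  rfl

theorem result (k : Type) [Field k] [Finite k] (h2 : (2 : k) ≠ 0) (hi : IsSquare (-1 : k))
    (K : Type) [Field K] [Algebra k[X] K] [IsFractionRing k[X] K] (R : Type) [Fintype R]
    (n : R → ℕ) (hn : ∀ r, Odd (n r)) (hn5 : ∀ r, 5 ≤ n r)
    (N : R → ℕ) (hN : ∀ r, 1 ≤ N r) (a : (r : R) → Fin (n r) → k[X])
    (ha : ∀ r i j, i ≠ j → (a r i - a r j).natDegree = N r)
    (hs : ∀ r, Squarefree (differences (a r)))
    (hc : ∀ r r', r ≠ r' → IsCoprime (differences (a r)) (differences (a r'))) :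
    HasSum law 1 ∧ HasSum (fun e : R → ℕ => ∏ r, law (e r)) 1 ∧
    (∃ c : ℝ, 0 < c ∧ ∀ᶠ m : ℕ in atTop,
      c * (Nat.card k : ℝ) ^ m ≤ ((Twists a m).ncard : ℝ)) ∧
    ∀ 𝒜 : Set (R → ℕ), ∀ ε : ℝ, 0 < ε → ∀ᶠ m : ℕ in atTop, (∀ r, Odd (m + N r)) →
      (probability 𝒜 - ε) * ((Twists a m).ncard : ℝ) ≤
        (({D ∈ Twists a m | ∃ e ∈ 𝒜, ∀ r,
          BoundsPointsAndSha (twist K (a r) D) k[X] (2 ^ e r)}).ncard : ℝ) := by
  have h := Pool.Agent.Q269.SL.final_all h2 hi K hn
    (fun r => le_trans (by norm_num) (hn5 r)) N hN a ha hs hc
  unfold probability
  rw [law_eq]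
  exact ⟨Pool.Agent.Q269.SL.hasSum_law, Pool.Agent.Q269.SL.hasSum_pi, h.1, h.2⟩

end Pool.Agent.Results.MP_9faec4_nt.SelmerLawSeveralFamilies
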