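import Mathlib
import Pool.Agent.Q7.AN.E

/-!
# The rank conjecture in extensions with symmetric or alternating Galois group

`Pool.Agent.H541R3.ART.Irr G` is the set of irreducible complex characters of the finite group `G`.

Let `X = E` be an elliptic curve over a number field `K` and `M/K` a Galois extension with group `G`
such that `E` is automorphic over `M`. (If `K` is totally real or CM, every `E/K` has such an `M`; for
`K = ℚ` one can take any totally real `M`.) By solvable descent `E` is automorphic over the fixed
field `M ^ H` for every SOLVABLE subgroup `H` of `G`. `Pool.Agent.Q7.SZ.TwistData G s₀` is a family of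
functions with the known formal properties of the twisted L-functions of `E` near a point `s₀`:
`L χ` (for `L(E ⊗ χ, s)`, `χ ∈ Irr G`), meromorphic and not identically zero (Brauer), and
`Lin H ψ` (for `L(E / M ^ H ⊗ ψ, s)`, `ψ` a linear character of a subgroup `H`) without pole at `s₀`
if `H` is solvable, which are the products of the `L χ ^ ⟨χ|_H, ψ⟩` (induction). In particular
`Lin ⊥ 1` stands for `L(E/M, s)` and `Lin H 1` for `L(E / M ^ H, s)`. The fields `M ^ H` with `H`
not solvable are not known to be without poles at `s₀ = 1`; for `H = G` this is the function of the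
conjecture for `E` over `K`.

`G` is the group of all permutations, or of all even permutations, of `n` letters, and
`Pool.Agent.Q7.AN.alt G` is the subgroup of the even permutations in `G`, so that `M ^ (alt G)` is the
quadratic extension of `K` in `M`, or `K`.

For a representation `ρ` of `G` on a vector space over a field (here `E(M) ⊗ ℚ`), `Pool.Agent.Q7.SZ.rk ρ H`
is the dimension of the invariants of `H` (the rank of `E(M ^ H)`), and
`Pool.Agent.Q7.SZ.RankHolds A ρ H` says that it is the order of `Lin H 1` at the point: the
conjecture for `E` over `M ^ H`.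
-/

set_option autoImplicit false

open Pool.Agent.H541R3.ART Pool.Agent.H302R2 Pool.Agent.H302R3 Pool.Agent.W446.AS
  Pool.Agent.Q7.TZ Pool.Agent.Q7.SZ Pool.Agent.Q7.GR Pool.Agent.Q7.AN Equiv

/-- Let `Gal(M/K)` be the symmetric or the alternating group of degree `n ≥ 5`. Suppose that the
order of `L(E/M, s)` at `s₀` is less than `(2 ^ k - 1) ⌊n / 2 ^ k⌋` for some `k ≥ 2` (for a power
`n` of two, the bound `n - 1` is the degree of the smallest irreducible character which is not
linear, so that the result is the best possible; for all `n` it is at least `3 ⌊n / 4⌋`). Then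

* for all irreducible characters `χ` of `Gal(M/K)` which are not trivial on the even permutations the
  function `L(E ⊗ χ, s)` is holomorphic and not zero at `s₀`;
* for the other irreducible characters (the trivial character and the sign) it is holomorphic at `s₀`;
* for every field `F` between `K` and `M` the order of `L(E/F, s)` at `s₀` is the order of
  `L(E / F ∩ Q, s)`, where `Q` is the quadratic extension of `K` in `M` (`Q = K` in the case of the
  alternating group);
* at `s₀ = 1` the rank conjecture holds for `E` over ALL fields between `K` and `M` if and only if it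
  holds over the three fields `K`, `Q` and `M`. -/
theorem Pool.Agent.Results.MP_9faec4_nt.SymmetricExtensions.result
    (n k : ℕ) (hn : 5 ≤ n) (hk : 2 ≤ k) (G : Subgroup (Perm (Fin n)))
    (hG : alternatingGroup (Fin n) ≤ G) (s₀ : ℂ) (A : TwistData G s₀) (r : ℤ)
    (hr : meromorphicOrderAt (A.Lin ⊥ 1) s₀ = (r : WithTop ℤ))
    (hlt : r < ((2 ^ k - 1) * (n / 2 ^ k) : ℕ)) :
    (∀ χ ∈ Irr G, (∃ g ∈ alt G, χ g ≠ χ 1) → meromorphicOrderAt (A.L χ) s₀ = 0) ∧
    (∀ ψ : G →* ℂˣ, 0 ≤ meromorphicOrderAt (A.L (fun g => ((ψ g : ℂˣ) : ℂ))) s₀) ∧
    (∀ H, meromorphicOrderAt (A.Lin (H ⊔ alt G) 1) s₀ = meromorphicOrderAt (A.Lin H 1) s₀) ∧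
    ∀ (K : Type) [Field K] (V : Type) [AddCommGroup V] [Module K V] [FiniteDimensional K V]
      (ρ : Representation K G V),
      (∀ H, RankHolds A ρ H) ↔ RankHolds A ρ ⊥ ∧ RankHolds A ρ (alt G) ∧ RankHolds A ρ ⊤ :=
  small hn hk hG A hr hlt
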