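import Pool.Agent.Q282.FF.Meso4

/-!
# The zeros near the point of Tate's conjecture, for Jacobians over `k(T)` with marked points

Let `k` be a finite field with `q` elements, of odd characteristic, and `r + m = 2 g + 1`, `r ≤ g`. We consider the curves
`y ^ 2 = f_t(x)` over `K = k(T)`, where `f_t = ∏ (x - a_i) h(x) + l(x) ^ 2` with `h` monic of degree `m` and `l` of degree less
than `r`, and the parameters `t`, namely the `a_i` and the coefficients of `h` and of `l`, are arbitrary polynomials in `T` of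
degree less than `n`. The Jacobian `J_t` has dimension `g`, and there are the `r` marked points `(a_i, l(a_i))`.

The `L`-function is `∏ (1 - β_j q ^ (1 - s))` with `β_j = exp (i θ_j)`. For a continuous function `φ` let
`Φ_M(θ) = (φ 0 + 2 ∑_{0 < m < M} φ(m / M) cos (m θ)) / M`, a function which is concentrated near `θ = 0` on the scale `1 / M`. The
theorem says that `∑_j Φ_M(θ_j) - N φ(0) / M` has asymptotically the normal law with mean `(2 r + 1) ∫ φ`, that is `r + 1 / 2` times
the value which a zero at the central point contributes, and variance `4 ∫ x φ(x) ^ 2`.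
-/

set_option autoImplicit false

namespace Pool.Agent.Results.MP_9faec4_nt.ZerosNearCentralPoint

open Polynomial Finset MeasureTheory ProbabilityTheory
open Q282.FF (IsSpectrum Par curve)
open Q282.JK (HasClassRank CoordRing)

/-- The distribution function of the standard normal law. -/
noncomputable def normal (x : ℝ) : ℝ := (gaussianReal 0 1 (Set.Iic x)).toReal

/-- The smooth linear statistic `∑_j Φ_M(θ_j)` of the zeros `β_j = exp (i θ_j)`. -/
noncomputable def statistic (φ : ℝ → ℝ) (M : ℕ) {N : ℕ} (β : Fin N → ℂ) : ℝ :=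
  (∑ j, (φ 0 + 2 * ∑ m ∈ Ico 1 M, φ (m / M) * (β j ^ m).re)) / M

/-- The Jacobian `J_t` has rank at least `r` and, if its `L`-function is `∏ (1 - β_j q ^ (1 - s))` with `N` factors, the value of
`(∑_j Φ_M(θ_j) - N φ(0) / M - (2 r + 1) ∫ φ) / (4 ∫ x φ(x) ^ 2) ^ (1 / 2)` lies between `x` and `y`. -/
def Between (g : ℕ) (φ : ℝ → ℝ) (M : ℕ) (x y : ℝ) {k : Type} [Field k] {r m n : ℕ} (t : Par k r m n) : Prop :=
  HasClassRank (CoordRing ((curve t).map (algebraMap k[X] (RatFunc k)))) r ∧
    ∀ (N : ℕ) (β : Fin N → ℂ), IsSpectrum g (curve t) β →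
      (statistic φ M β - N * φ 0 / M - (2 * r + 1) * ∫ z in (0 : ℝ)..1, φ z) /
        (2 * Real.sqrt (∫ z in (0 : ℝ)..1, z * φ z ^ 2)) ∈ Set.Ioc x y

/-- **Main theorem.** Let `φ` be continuous and not zero on `[0, 1]`. For all `x`, `y` and `ε > 0` there is `n₀` such that for all
finite fields `k` of odd characteristic and all `n` and `M` with `n₀ ≤ M` and `n₀ M ≤ n` the proportion of the parameters `t` with the
property `Between` is at least `normal y - normal x - ε`. -/
theorem result (g r m : ℕ) (hrm : r + m = 2 * g + 1) (hrg : r ≤ g) (hg : 1 ≤ g) (φ : ℝ → ℝ) (hφ : Continuous φ)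
    (hpos : 0 < ∫ z in (0 : ℝ)..1, z * φ z ^ 2) (x y ε : ℝ) (hε : 0 < ε) :
    ∃ n₀ : ℕ, ∀ (k : Type) [Field k] [Finite k], (2 : k) ≠ 0 → ∀ n M : ℕ, n₀ ≤ M → n₀ * M ≤ n →
      (normal y - normal x - ε) * Nat.card (Par k r m n) ≤ Nat.card {t : Par k r m n // Between g φ M x y t} := by
  classical
  obtain ⟨n₀, hn₀⟩ := Q282.FF.count_meso g r m hrm hrg hg φ hφ hpos x y ε hε
  refine ⟨n₀, fun k _ _ h2 n M hM hMn => ?_⟩
  let _ : Fintype k := Fintype.ofFinite k
  have h1 := hn₀ k h2 n M hM hMn
  rw [Nat.card_eq_fintype_card, Nat.card_eq_fintype_card, Fintype.card_subtype]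
  refine le_trans (le_of_eq ?_) (h1.trans (le_of_eq ?_))
  · rfl
  · congr 1

end Pool.Agent.Results.MP_9faec4_nt.ZerosNearCentralPoint
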