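import Mathlib
import Pool.Agent.W446.AS.FArt
import Pool.Agent.Q7.DB.Main
import Pool.Agent.Q7.DB.Jor

/-!
# Quotients of Dedekind zeta functions at a zero of order `r`: reduction to bounded complexity

`Pool.Agent.H541R3.ART.Irr G` is the set of irreducible complex characters of the finite group `G`.
`Pool.Agent.H541R3.ART.ArtinData G s₀` is a family of functions with the formal properties of the
Artin L-functions of a Galois extension `E/K` with group `G` near a point `s₀ ≠ 1`: functions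
`L χ` for the irreducible characters `χ` of `G` and `Lin H ψ` for the linear characters `ψ` of the
subgroups `H`, such that `L χ` is meromorphic and not identically zero near `s₀` (Brauer), `Lin H ψ`
has no pole at `s₀` (Artin reciprocity and Hecke), and `Lin H ψ` is the product of the
`L χ ^ ⟨χ|_H, ψ⟩` (induction). In particular `Lin H 1` stands for the Dedekind zeta function of the
fixed field of `H`.
-/

set_option autoImplicit false

namespace Pool.Agent.Results.MP_9fc8a5_nt.BoundedReduction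

open Pool.Agent.H541R3.ART Pool.Agent.W446.AS Pool.Agent.Q7.DB

/-- Let `G` be the Galois group of `E/K`, `R` a solvable normal subgroup of `G`, `r` the order of
`ζ_E` at `s₀`, and `D = [G : R] (r ^ (1 + ⌊2 log₂ r⌋)) ^ 2`. There are a normal subgroup `N` of `G`,
with the fixed field `F`, and a subgroup `B ≥ N` with `B / N` abelian and
`[G : B] ≤ 5 ^ (2 D r ^ 2)` (so that `F` is an abelian extension of the fixed field of `B`, which
has degree at most `5 ^ (2 D r ^ 2)` over `K`) such that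
(1) `L χ` is holomorphic and nonzero at `s₀` for all irreducible `χ` which are nontrivial on `N`;
(2) the zeta functions of `E ^ U` and of `E ^ U ∩ F` have the same order at `s₀`, for all
subgroups `U` of `G`; in particular `ζ_F` has order `r` at `s₀`;
(3) hence, for `V ≤ U`, the quotient of the zeta functions of `E ^ V` and `E ^ U` is holomorphic at
`s₀` iff the quotient of the zeta functions of `E ^ V ∩ F` and `E ^ U ∩ F` is. -/
theorem result (G : Type) [Group G] [Finite G] (R : Subgroup G) (hR : R.Normal)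
    (hRs : Group.IsSolvable R) (s₀ : ℂ) (A : ArtinData G s₀) (r : ℕ)
    (hr : meromorphicOrderAt (A.Lin ⊥ 1) s₀ = (r : WithTop ℤ)) :
    ∃ N B : Subgroup G, N.Normal ∧ N ≤ B ∧ (∀ a ∈ B, ∀ b ∈ B, a * b * a⁻¹ * b⁻¹ ∈ N) ∧
      B.index ≤ 5 ^ (2 * (R.index * (r ^ (1 + Nat.log 2 (r ^ 2))) ^ 2) * r ^ 2) ∧
      (∀ χ ∈ Irr G, (∃ x ∈ N, χ x ≠ χ 1) → meromorphicOrderAt (A.L χ) s₀ = 0) ∧
      (∀ U : Subgroup G,
        meromorphicOrderAt (A.Lin (U ⊔ N) 1) s₀ = meromorphicOrderAt (A.Lin U 1) s₀) ∧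
      meromorphicOrderAt (A.Lin N 1) s₀ = (r : WithTop ℤ) ∧
      (∀ V U : Subgroup G, V ≤ U →
        (meromorphicOrderAt (A.Lin U 1) s₀ ≤ meromorphicOrderAt (A.Lin V 1) s₀ ↔
          meromorphicOrderAt (A.Lin (U ⊔ N) 1) s₀ ≤ meromorphicOrderAt (A.Lin (V ⊔ N) 1) s₀)) := by
  classical
  have : Fintype G := Fintype.ofFinite G
  have hD : ∀ χ ∈ Irr G, A.ord χ ≠ 0 →
      ∃ d : ℕ, χ 1 = d ∧ d ^ 2 ≤ R.index * (r ^ (1 + Nat.log 2 (r ^ 2))) ^ 2 := by
    intro χ hχ hne
    obtain ⟨d, -, hd⟩ := irr_deg_pos hχ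
    refine ⟨d, hd, ?_⟩
    refine deg_main _ G rfl R hR hRs (theta A.ord) A.isHeilbronn (theta_virt _) r
      (A.theta_one hr) χ hχ ?_ d hd
    intro h0
    apply hne
    have h1 := A.order_eq hχ (k := 0) (by rw [sum_eq_pr, h0]; simp)
    rw [← A.coe_ord hχ] at h1
    exact_mod_cast h1
  obtain ⟨N, B, h1, h2, h3, h4, h5⟩ := struct A.ord A.isHeilbronn (A.theta_one hr) hD
  have h6 : ∀ χ ∈ Irr G, (∃ x ∈ N, χ x ≠ χ 1) → meromorphicOrderAt (A.L χ) s₀ = 0 := by
    rintro χ hχ ⟨x, hx, hne⟩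
    rw [← A.coe_ord hχ]
    by_contra hcon
    have h7 : A.ord χ ≠ 0 := fun h => hcon (by rw [h]; rfl)
    obtain ⟨d, ρ, hρ, h8⟩ := h5 χ hχ h7
    apply hne
    rw [hρ]
    change LinearMap.trace ℂ _ (ρ x) = LinearMap.trace ℂ _ (ρ 1)
    rw [mem_kr.mp (h8 hx), show ρ 1 = 1 from map_one ρ]
  have h7 := order_sup A h5
  refine ⟨N, B, h1, h2, h3, h4, h6, h7, ?_, ?_⟩
  · rw [← hr, ← h7 ⊥, bot_sup_eq]
  · intro V U _
    rw [h7 V, h7 U]

end Pool.Agent.Results.MP_9fc8a5_nt.BoundedReduction
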