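import Mathlib
import Pool.Agent.Q290.Schur.LinTwo

/-!
# Quotients of Dedekind zeta functions at zeros of order at most two

`Pool.Agent.H541R3.ART.Irr G` is the set of irreducible complex characters of the finite group `G`.

`Pool.Agent.H541R3.ART.ArtinData G s₀` is a family of functions with the formal properties of the
Artin L-functions of a Galois extension `F/K` with group `G` near a point `s₀ ≠ 1`: functions
`L χ` for the irreducible characters `χ` of `G` and `Lin H ψ` for the linear characters `ψ` of the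
subgroups `H`, such that `L χ` is meromorphic and not identically zero near `s₀` (Brauer), `Lin H ψ`
has no pole at `s₀` (Artin reciprocity and Hecke), and `Lin H ψ` is the product of the
`L χ ^ ⟨χ|_H, ψ⟩` (induction). In particular `Lin H 1` stands for the Dedekind zeta function of the
fixed field `F ^ H`, and `Lin H ψ` for the L-function of the Hecke character of `F ^ H` attached to
`ψ`; if `U ≤ M`, the restriction of `ψ` from `M` to `U` belongs to the pull-back of the Hecke
character of `F ^ M` to `F ^ U` by the norm.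
-/

set_option autoImplicit false

open Pool.Agent.H541R3.ART Pool.Agent.Q290.Schur

open Classical in
/-- Let `F/K` be a Galois extension whose group `G` is an arbitrary finite group, and suppose that
the order `r` of `ζ_F` at `s₀` is at most two.
(1) For all fields `F ^ M ⊆ F ^ U` between `K` and `F` the order of `ζ_{F ^ M}` at `s₀` is at most
that of `ζ_{F ^ U}`, so `ζ_{F ^ U} / ζ_{F ^ M}` is holomorphic at `s₀`; more generally this holds
for the L-functions of a Hecke character `ρ` of `F ^ M` which splits over `F` and of its pull-back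
to `F ^ U`.
(2) If such an L-function `L(s, ρ)` over `F ^ M` vanishes at `s₀`, then all abelian L-functions of
the fields between `F ^ M` and `F` which vanish at `s₀` are pull-backs: `r = 1` and `L(s, ψ)`
vanishes, simply, exactly for the restriction `ψ` of `ρ`; or `r = 2` and there is a second linear
character `ρ'` of `M` such that the order of `L(s, ψ)` at `s₀` is the number of members of the list
`ρ, ρ'` which restrict to `ψ`.
(3) If `L(s, ρ)` vanishes at `s₀` for a linear character `ρ` of `G`, then the conjecture of Artin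
holds at `s₀` for `F/K`, and `L(s, χ)` is finite and nonzero at `s₀` for all irreducible characters
`χ` of `G` of degree greater than one. -/
theorem Pool.Agent.Results.MP_9fc8a5_nt.OrderTwo.result
    (G : Type) [Group G] [Finite G] (s₀ : ℂ) (A : ArtinData G s₀) (r : ℕ) (hr2 : r ≤ 2)
    (hr : meromorphicOrderAt (A.Lin ⊥ 1) s₀ = (r : WithTop ℤ)) :
    (∀ (U M : Subgroup G) (hUM : U ≤ M) (ρ : M →* ℂˣ),
      meromorphicOrderAt (A.Lin M ρ) s₀
        ≤ meromorphicOrderAt (A.Lin U (ρ.comp (Subgroup.inclusion hUM))) s₀) ∧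
    (∀ (M : Subgroup G) (ρ : M →* ℂˣ), meromorphicOrderAt (A.Lin M ρ) s₀ ≠ 0 →
      (r = 1 ∧ ∀ (H : Subgroup G) (hHM : H ≤ M) (ψ : H →* ℂˣ),
        meromorphicOrderAt (A.Lin H ψ) s₀
          = if ψ = ρ.comp (Subgroup.inclusion hHM) then 1 else 0) ∨
      (r = 2 ∧ ∃ ρ' : M →* ℂˣ, ∀ (H : Subgroup G) (hHM : H ≤ M) (ψ : H →* ℂˣ),
        meromorphicOrderAt (A.Lin H ψ) s₀
          = (if ψ = ρ.comp (Subgroup.inclusion hHM) then 1 else 0)
            + (if ψ = ρ'.comp (Subgroup.inclusion hHM) then 1 else 0))) ∧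
    (∀ ρ : G →* ℂˣ, meromorphicOrderAt (A.L fun g => ((ρ g : ℂˣ) : ℂ)) s₀ ≠ 0 →
      ∀ χ ∈ Irr G, 0 ≤ meromorphicOrderAt (A.L χ) s₀ ∧
        (χ 1 ≠ 1 → meromorphicOrderAt (A.L χ) s₀ = 0)) := by
  have h2 : ∀ (M : Subgroup G) (ρ : M →* ℂˣ), meromorphicOrderAt (A.Lin M ρ) s₀ ≠ 0 →
      (r = 1 ∧ ∀ (H : Subgroup G) (hHM : H ≤ M) (ψ : H →* ℂˣ),
        meromorphicOrderAt (A.Lin H ψ) s₀
          = if ψ = ρ.comp (Subgroup.inclusion hHM) then 1 else 0) ∨
      (r = 2 ∧ ∃ ρ' : M →* ℂˣ, ∀ (H : Subgroup G) (hHM : H ≤ M) (ψ : H →* ℂˣ),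
        meromorphicOrderAt (A.Lin H ψ) s₀
          = (if ψ = ρ.comp (Subgroup.inclusion hHM) then 1 else 0)
            + (if ψ = ρ'.comp (Subgroup.inclusion hHM) then 1 else 0)) := by
    intro M ρ h
    rcases below A hr2 hr M ρ h with ⟨hr1, h3⟩ | ⟨hr1, ρ', h3⟩
    · left
      exact ⟨hr1, fun H hHM ψ => below_order_one A h3 H hHM ψ⟩
    · right
      exact ⟨hr1, ρ', fun H hHM ψ => below_order A h3 H hHM ψ⟩
  refine ⟨fun U M hUM ρ => ?_, h2, fun ρ hρ χ hχ => ?_⟩
  · by_cases h : meromorphicOrderAt (A.Lin M ρ) s₀ = 0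
    · rw [h]
      exact A.hecke U _
    · have hρ : ρ = ρ.comp (Subgroup.inclusion (le_refl M)) := by ext g; rfl
      rcases h2 M ρ h with ⟨-, h3⟩ | ⟨-, ρ', h3⟩
      · rw [h3 M le_rfl ρ, h3 U hUM _, if_pos hρ, if_pos rfl]
      · rw [h3 M le_rfl ρ, h3 U hUM _, if_pos hρ, if_pos rfl]
        by_cases h4 : ρ = ρ'.comp (Subgroup.inclusion (le_refl M))
        · have h5 : ρ.comp (Subgroup.inclusion hUM) = ρ'.comp (Subgroup.inclusion hUM) := by
            conv_lhs => rw [h4]
            ext g; rfl
          rw [if_pos h4, if_pos h5]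
        · rw [if_neg h4, add_zero]
          split_ifs
          · norm_num
          · norm_num
  · have : Fintype G := Fintype.ofFinite G
    have hG : (Nat.card G : ℂ) ≠ 0 := by exact_mod_cast Nat.card_pos.ne'
    have hθ := A.isHeilbronn
    have h1 := A.theta_one hr
    have hI := irr_of_lin ρ
    have hnρ : A.ord (fun g => ((ρ g : ℂˣ) : ℂ)) ≠ 0 := by
      intro h
      apply hρ
      rw [← A.coe_ord hI, h]
      rfl
    -- the multiplicities
    have key : ∃ k : ℕ, (A.ord χ : ℂ) = k ∧ (χ 1 ≠ 1 → k = 0) := by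
      have hone : ∀ φ : G →* ℂˣ, ∃ k : ℕ, (∑ g : G, ((φ g : ℂˣ) : ℂ) * χ g⁻¹ = k * Nat.card G) ∧
          (χ 1 ≠ 1 → k = 0) := by
        intro φ
        by_cases h : (fun g => ((φ g : ℂˣ) : ℂ)) = χ
        · refine ⟨1, ?_, fun h4 => ?_⟩
          · rw [← h]
            have := pair_self (irr_of_lin φ)
            rw [Nat.cast_one, one_mul]
            exact this
          · exfalso
            apply h4
            rw [← h]
            simp
        · refine ⟨0, ?_, fun _ => rfl⟩
          rw [Nat.cast_zero, zero_mul]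
          exact pair_ne (irr_of_lin φ) hχ h
      have h3 := theta_pair A.ord hχ
      interval_cases r
      · exfalso
        have h4 : ∀ g, (theta A.ord : G → ℂ) g = 0 := by
          intro g
          have h5 := norm_le A.ord hθ h1 g
          rw [Nat.cast_zero] at h5
          exact norm_le_zero_iff.mp h5
        have h5 := theta_pair A.ord hI
        rw [Finset.sum_eq_zero (fun g _ => by rw [h4, zero_mul])] at h5
        have h6 := (mul_eq_zero.mp h5.symm).resolve_right hG
        exact hnρ (by exact_mod_cast h6)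
      · obtain ⟨φ, hφ⟩ := hθ.deg_one (by rw [h1]; simp)
        obtain ⟨k, hk, hk'⟩ := hone φ
        refine ⟨k, ?_, hk'⟩
        rw [Finset.sum_congr rfl (fun g _ => by rw [hφ g]), hk] at h3
        exact (mul_right_cancel₀ hG h3).symm
      · obtain ⟨ρ', hρ'⟩ := two_of_lin A.ord hθ (by rw [h1]; simp) ρ hnρ
        obtain ⟨k, hk, hk'⟩ := hone ρ
        obtain ⟨l, hl, hl'⟩ := hone ρ'
        refine ⟨k + l, ?_, fun h4 => by rw [hk' h4, hl' h4]⟩
        rw [Finset.sum_congr rfl (fun g _ => by rw [hρ' g, add_mul]), Finset.sum_add_distrib,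
          hk, hl, ← add_mul] at h3
        rw [← mul_right_cancel₀ hG h3]
        push_cast
        rfl
    obtain ⟨k, hk, hk'⟩ := key
    have hk2 : A.ord χ = (k : ℤ) := by exact_mod_cast hk
    rw [← A.coe_ord hχ, hk2]
    constructor
    · exact_mod_cast Int.natCast_nonneg k
    · intro h4
      rw [hk' h4]
      rfl
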