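import Pool.Agent.Q268.ZS.Nine

/-!
# Zero-sum subsequences avoiding prescribed length residues: the statement is false

Let `G = C_2 ⊕ C_2 ⊕ C_2 ⊕ C_6`, so that `n_1 = 2`.  Then `D(G) = 9`, and the sequence of length `10 = D(G) + 2 - 1`
with the terms `(1,1,1,4)`, `(1,1,0,1)`, `(1,0,1,1)`, `(1,0,0,4)`, `(0,1,0,4)`, `(0,0,1,4)`, `(0,0,0,1)` and three
times `(0,0,0,2)` has no nonempty zero-sum subsequence of even length.  So the assertion of Q1 fails for `G`,
`i = 2` and `𝒜 = {1}`.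

Reason: identify `G` with `C_2^4 × C_3`.  The first seven terms are the columns of a parity check matrix of the
binary simplex code `[7, 3, 4]`, all with `C_3`-component `1`, the last three are `(0, 2)`.  A zero-sum subsequence
takes `0` or `4` of the first seven terms and then `3` or `1` of the others.  The upper bound `D(G) ≤ 9` is proved by
choosing a maximal linearly independent set of `C_2^4`-components and a search over the remaining terms.
-/

set_option autoImplicit false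

namespace Pool.Agent.Results.MP_9fddba_co.AvoidingResiduesFails

/-- The Davenport constant of `G`: the least positive `t` such that every sequence (multiset) over `G` of length at
least `t` has a nonempty zero-sum subsequence. -/
noncomputable def davenport (G : Type) [AddCommGroup G] : ℕ :=
  sInf {t : ℕ | 0 < t ∧ ∀ S : Multiset G, t ≤ Multiset.card S → ∃ T ≤ S, T ≠ 0 ∧ T.sum = 0}

/-- The assertion of Q1, for `G = C_{n_1} ⊕ ⋯ ⊕ C_{n_r}` with `1 < n_1 ∣ n_2 ∣ ⋯ ∣ n_r` (here `r` is `r + 1` and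
`n_1` is `n 0`), `i ∈ [1, n_1]`, a sequence `S` over `G` of length `D(G) + i - 1` and a set `𝒜 ⊆ [1, n_1 - 1]` with
`i - 1` elements. -/
def Assertion : Prop :=
  ∀ (r : ℕ) (n : Fin (r + 1) → ℕ), 1 < n 0 → (∀ j k, j ≤ k → n j ∣ n k) →
    ∀ i : ℕ, 1 ≤ i → i ≤ n 0 → ∀ S : Multiset (∀ k, ZMod (n k)),
      Multiset.card S = davenport (∀ k, ZMod (n k)) + i - 1 →
      ∀ 𝒜 : Finset ℕ, 𝒜 ⊆ Finset.Icc 1 (n 0 - 1) → 𝒜.card = i - 1 →
        ∃ T ≤ S, T ≠ 0 ∧ T.sum = 0 ∧ ∀ b ∈ 𝒜, ¬ Multiset.card T ≡ b [MOD n 0]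

/-- the invariants of `C_2 ⊕ C_2 ⊕ C_2 ⊕ C_6` -/
def inv : Fin (3 + 1) → ℕ := ![2, 2, 2, 6]

/-- `C_2 ⊕ C_2 ⊕ C_2 ⊕ C_6` -/
abbrev G : Type := ∀ k, ZMod (inv k)

/-- the element `(a, b, c, d)` of `G` -/
def el (a b c d : ℕ) : G := fun k => ((![a, b, c, d] k : ℕ) : ZMod (inv k))

/-- the sequence of length ten -/
def S : Multiset G :=
  {el 1 1 1 4, el 1 1 0 1, el 1 0 1 1, el 1 0 0 4, el 0 1 0 4, el 0 0 1 4, el 0 0 0 1,
    el 0 0 0 2, el 0 0 0 2, el 0 0 0 2}

/-- a zero-sum free sequence of length eight -/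
def S8 : Multiset G :=
  {el 1 0 0 0, el 0 1 0 0, el 0 0 1 0, el 0 0 0 1, el 0 0 0 1, el 0 0 0 1, el 0 0 0 1, el 0 0 0 1}

/-- an injective homomorphism to `C_2^4 × C_3` -/
def phi : G →+ (Fin 4 → ZMod 2) × ZMod 3 where
  toFun x := (![(x 0 : ZMod 2), (x 1 : ZMod 2), (x 2 : ZMod 2),
    ZMod.castHom (show 2 ∣ 6 by norm_num) (ZMod 2) (x 3 : ZMod 6)],
    ZMod.castHom (show 3 ∣ 6 by norm_num) (ZMod 3) (x 3 : ZMod 6))
  map_zero' := by
    refine Prod.ext ?_ ?_
    · funext k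
      fin_cases k <;> rfl
    · rfl
  map_add' x y := by
    have h2 : ∀ a b : ZMod 6, ZMod.castHom (show 2 ∣ 6 by norm_num) (ZMod 2) (a + b) =
      ZMod.castHom (show 2 ∣ 6 by norm_num) (ZMod 2) a + ZMod.castHom (show 2 ∣ 6 by norm_num) (ZMod 2) b :=
      fun a b => map_add _ a b
    have h3 : ∀ a b : ZMod 6, ZMod.castHom (show 3 ∣ 6 by norm_num) (ZMod 3) (a + b) =
      ZMod.castHom (show 3 ∣ 6 by norm_num) (ZMod 3) a + ZMod.castHom (show 3 ∣ 6 by norm_num) (ZMod 3) b :=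
      fun a b => map_add _ a b
    refine Prod.ext ?_ ?_
    · funext k
      fin_cases k
      · rfl
      · rfl
      · rfl
      · exact h2 (x 3) (y 3)
    · exact h3 (x 3) (y 3)

theorem phi_inj : Function.Injective phi := by
  rw [injective_iff_map_eq_zero]
  intro x hx
  have h0 := congrFun (congrArg Prod.fst hx) 0
  have h1 := congrFun (congrArg Prod.fst hx) 1
  have h2 := congrFun (congrArg Prod.fst hx) 2
  have h3 := congrFun (congrArg Prod.fst hx) 3
  have h4 := congrArg Prod.snd hx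
  have key : ∀ a : ZMod 6, ZMod.castHom (show 2 ∣ 6 by norm_num) (ZMod 2) a = 0 →
      ZMod.castHom (show 3 ∣ 6 by norm_num) (ZMod 3) a = 0 → a = 0 := by decide
  funext k
  fin_cases k
  · exact h0
  · exact h1
  · exact h2
  · exact key (x 3) h3 h4

theorem upper (T : Multiset G) (hT : 9 ≤ Multiset.card T) : ∃ U ≤ T, U ≠ 0 ∧ U.sum = 0 := by
  obtain ⟨l, rfl⟩ := Quot.exists_rep T
  have hl : 9 ≤ l.length := hT
  set f : Fin 9 → G := fun i => l[(i : ℕ)]'(lt_of_lt_of_le i.2 hl) with hf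
  obtain ⟨I, hI, hs⟩ := Q268.ZS.nine (fun i => phi (f i))
  refine ⟨Multiset.map f I.val, ?_, ?_, ?_⟩
  · refine (Multiset.map_le_map (Finset.val_le_iff.mpr (Finset.subset_univ I))).trans ?_
    have e : List.ofFn f = l.take 9 := by
      apply List.ext_getElem
      · simp [hl]
      · intro i h1 h2
        rw [List.getElem_ofFn, List.getElem_take]
    have e2 : Multiset.map f (Finset.univ : Finset (Fin 9)).val = ((List.ofFn f : List G) : Multiset G) := by
      rw [Fin.univ_val_map]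
    rw [e2, e]
    exact (List.take_sublist 9 l).subperm
  · rw [Ne, Multiset.map_eq_zero, Finset.val_eq_zero]
    exact hI.ne_empty
  · apply phi_inj
    rw [map_zero, map_multiset_sum, Multiset.map_map]
    exact hs

theorem lower : ∀ U ∈ S8.powerset, U ≠ 0 → U.sum ≠ 0 := by
  decide +kernel

theorem odd_of_sum : ∀ T ∈ S.powerset, T ≠ 0 → T.sum = 0 → Multiset.card T % 2 = 1 := by
  decide +kernel

theorem davenport_eq : davenport G = 9 := by
  refine IsLeast.csInf_eq ⟨⟨by norm_num, upper⟩, ?_⟩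
  rintro t ⟨_, ht⟩
  by_contra hlt
  obtain ⟨U, hU, hU0, hs⟩ := ht S8 (by
    have : Multiset.card S8 = 8 := rfl
    omega)
  exact lower U (Multiset.mem_powerset.mpr hU) hU0 hs

/-- **The assertion of Q1 is false.**  For `G = C_2 ⊕ C_2 ⊕ C_2 ⊕ C_6` one has `D(G) = 9`, and the sequence `S` of
length `10 = D(G) + 2 - 1` has no nonempty zero-sum subsequence of even length; this is a counterexample with
`n_1 = 2`, `i = 2`, `𝒜 = {1}`. -/
theorem result :
    (davenport G = 9 ∧ Multiset.card S = 10 ∧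
      ∀ T ≤ S, T ≠ 0 → T.sum = 0 → Multiset.card T ≡ 1 [MOD 2]) ∧ ¬ Assertion := by
  have hodd : ∀ T ≤ S, T ≠ 0 → T.sum = 0 → Multiset.card T ≡ 1 [MOD 2] := fun T hT h0 hs =>
    odd_of_sum T (Multiset.mem_powerset.mpr hT) h0 hs
  refine ⟨⟨davenport_eq, rfl, hodd⟩, fun h => ?_⟩
  obtain ⟨T, hT, h0, hs, hb⟩ := h 3 inv (by decide) (by decide) 2 (by norm_num) (by decide) S
    (by rw [davenport_eq]; rfl) {1} (by decide) rfl
  exact hb 1 (by simp) (hodd T hT h0 hs)

end Pool.Agent.Results.MP_9fddba_co.AvoidingResiduesFails
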