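import Pool.Agent.Q173.BR.Main

/-!
# Beilinson's conjecture for rational schemes, and for the members of a sequence
-/

set_option autoImplicit false

open Pool.Agent.Q173.BR

namespace Pool.Agent.Results.MP_a09a03_nt.RationalSchemes

universe u v

theorem result {V : Type u} (T : Theory.{u, v} V) (hT : T.Known) [Countable V] :
    (∀ X m, T.Conj (T.P X m) ↔
      T.Conj X ∧ ∀ n : ℕ, T.dim X + 2 ≤ n → n ≤ T.dim X + 1 + m → T.All n X) ∧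
    (∀ {k N : ℕ} (X : Fin k → V) (Y : V), T.IsBl N X Y →
      (T.Conj Y ↔ ∀ i (n : ℕ), T.dim (X i) + 2 ≤ n → n ≤ N → T.All n (X i))) ∧
    (∃ Y : ℕ → V, (∀ k, ∃ (r N : ℕ) (X : Fin r → V), T.IsBl N X (Y k)) ∧
      ∀ S : Set ℕ, S.Infinite →
        ((∀ k ∈ S, T.Conj (Y k)) ↔ ∀ X (n : ℕ), T.dim X + 2 ≤ n → T.All n X)) ∧
    (∃ Z : ℕ → V, ∀ S : Set ℕ, S.Infinite → ((∀ k ∈ S, T.Conj (Z k)) ↔ ∀ X, T.Conj X)) ∧
    ((∀ X, T.Conj X) ↔ ∀ X, T.Conj X ∧ ∀ n : ℕ, T.dim X + 2 ≤ n → T.All n X) :=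
  Theory.main hT

end Pool.Agent.Results.MP_a09a03_nt.RationalSchemes
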