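import Pool.Agent.Q56.SP.Exa
set_option autoImplicit false

/-!
Beilinson's regulator conjecture (Q1) for powers of a variety and for symmetric powers of its square.

Let `X` be a smooth projective variety over `ℚ` and let `Sym^n(X × X)` be the quotient of `X^(2n)` by
the group `S_n` which permutes the `n` factors `X × X`. The rational motivic cohomology of the
quotient, its integral part, its real Deligne cohomology and its group of cycles of codimension `0`
are the `S_n`-invariants of those of `X^(2n)`. We prove that the two assertions (a) and (b) of Q1 hold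
for `X^(2n)` if and only if they hold for the quotient `Sym^n(X × X)`, of which `X^(2n)` is a
covering of degree `n!`. More generally `X^(2n+r)` and `Sym^n(X × X) × X^r` are treated.

The proof shows that every nonzero rational representation of the symmetric group on `2n` letters
has a nonzero vector fixed by this group `S_n`.
-/

namespace Pool.Agent.Results.MP_a09a03_nt.SymmetricPowersOfSquares

open Equiv Function Pool.Agent.Q56.SP

/-- The ingredients of the conjecture for one variety: `M p` and `D p` are the real vector spaces
`M^p` and `D^p` of the problem file, `C = CH^0(X)^*_ℝ`, `d` the dimension of the model, `reg p` the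
regulator in degree `p` and `tr` the map of the exact sequence (b). -/
structure Regulators where
  d : ℤ
  M : ℤ → Type
  D : ℤ → Type
  C : Type
  [groupM : ∀ p, AddCommGroup (M p)]
  [moduleM : ∀ p, Module ℝ (M p)]
  [groupD : ∀ p, AddCommGroup (D p)]
  [moduleD : ∀ p, Module ℝ (D p)]
  [groupC : AddCommGroup C]
  [moduleC : Module ℝ C]
  reg : ∀ p, M p →ₗ[ℝ] D p
  tr : D (2 * d - 1) →ₗ[ℝ] C

attribute [instance] Regulators.groupM Regulators.moduleM Regulators.groupD Regulators.moduleD
  Regulators.groupC Regulators.moduleC

/-- The assertions (a) and (b) of Q1: the regulator in degree `2d - 1 - i` is bijective for all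
`i ≥ 1`, and `0 → M^(2d-1) → D^(2d-1) → C → 0` is exact. -/
def Regulators.Conjecture (B : Regulators) : Prop :=
  (∀ i : ℕ, 1 ≤ i → Bijective (B.reg (2 * B.d - 1 - i))) ∧
    Injective (B.reg (2 * B.d - 1)) ∧ Exact (B.reg (2 * B.d - 1)) B.tr ∧ Surjective B.tr

/-- The ingredients of the conjecture for the power `X^(2n+r)`, whose factors are indexed by
`(Fin n × Bool) ⊕ Fin r`: the permutations of the factors act, and the regulators and the map `tr`
are compatible with these actions. -/
structure PowerRegulators (n r : ℕ) extends Regulators where
  onM : ∀ p, Representation ℝ (Perm ((Fin n × Bool) ⊕ Fin r)) (M p)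
  onD : ∀ p, Representation ℝ (Perm ((Fin n × Bool) ⊕ Fin r)) (D p)
  onC : Representation ℝ (Perm ((Fin n × Bool) ⊕ Fin r)) C
  reg_equivariant : ∀ p g x, reg p (onM p g x) = onD p g (reg p x)
  tr_equivariant : ∀ g x, tr (onD _ g x) = onC g (tr x)

/-- The permutation of the factors of `X^(2n+r) = (X × X)^n × X^r` given by a permutation `σ` of the
`n` factors `X × X`. -/
def pairPerm {n : ℕ} (r : ℕ) (σ : Perm (Fin n)) : Perm ((Fin n × Bool) ⊕ Fin r) :=
  (σ.prodCongr (Equiv.refl Bool)).sumCongr (Equiv.refl (Fin r))

/-- The vectors fixed by the permutations of the `n` factors `X × X`. -/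
def invariants {n r : ℕ} {V : Type} [AddCommGroup V] [Module ℝ V]
    (ρ : Representation ℝ (Perm ((Fin n × Bool) ⊕ Fin r)) V) : Submodule ℝ V where
  carrier := {v | ∀ σ : Perm (Fin n), ρ (pairPerm r σ) v = v}
  add_mem' := fun hv hw σ => by rw [map_add, hv σ, hw σ]
  zero_mem' := fun σ => map_zero _
  smul_mem' := fun c v hv σ => by rw [map_smul, hv σ]

/-- The ingredients of the conjecture for the quotient `Sym^n(X × X) × X^r` of `X^(2n+r)`: the
invariants of the group `S_n` which permutes the `n` factors `X × X`, and the restricted maps. -/
def PowerRegulators.quotient {n r : ℕ} (B : PowerRegulators n r) : Regulators where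
  d := B.d
  M := fun p => invariants (B.onM p)
  D := fun p => invariants (B.onD p)
  C := invariants B.onC
  reg := fun p => (B.reg p).restrict fun v hv σ => by rw [← B.reg_equivariant, hv σ]
  tr := B.tr.restrict fun v hv σ => by rw [← B.tr_equivariant, hv σ]

/-- The assertions (a) and (b) of Beilinson's conjecture hold for the power `X^(2n+r)` if and only if
they hold for its quotient `Sym^n(X × X) × X^r`. -/
theorem result {n r : ℕ} (B : PowerRegulators n r) :
    B.Conjecture ↔ B.quotient.Conjecture := by
  refine and_congr ?_ (and_congr ?_ (and_congr ?_ ?_))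
  · exact forall₂_congr fun i _ => bijective_iff (B.reg _) (B.reg_equivariant _)
  · exact injective_iff (B.reg _) (B.reg_equivariant _)
  · exact exact_iff (B.reg _) B.tr (B.reg_equivariant _) B.tr_equivariant
  · exact surjective_iff B.tr B.tr_equivariant

end Pool.Agent.Results.MP_a09a03_nt.SymmetricPowersOfSquares
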