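import Pool.Agent.Q54.BZ.Five
import Pool.Agent.Q54.CU.Trip

/-!
# Beilinson's regulator conjecture and the cubic hypersurfaces of tripartite hypergraphs

For a finite set `H` of triples `(i, j, k)` let `E_H` (`tripS ℤ H`) be the hypersurface
`∑_{(i, j, k) ∈ H} x_i y_j z_k = 1` in an affine space over `ℤ`; it is smooth over `ℤ`. For an
arithmetic scheme `X` (separated and of finite type over `ℤ`) consider the pairings between the
motivic Borel-Moore homology `CH_j(X, i - 2 j) ⊗ ℝ` and the Arakelov motivic cohomology with compact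
supports `Ĥ_c^i(X, ℝ(j))` (the cohomology of the fibre of the regulator to real Deligne cohomology).
We show that they are perfect for all arithmetic schemes, singular ones included, if and only if
they are perfect for the schemes `E_H`, and that this implies the conjecture of Beilinson on the
integral motivic cohomology groups `H^{2 d - 1 - i}_M(X_{/ℤ}, ℚ(d))` for all regular schemes of
dimension `d` which are proper and flat over `ℤ`.
-/

namespace Pool.Agent.Results.MP_a09a03_nt.TripartiteHypergraphs

open Q54.BZ Q54.CU CategoryTheory AlgebraicGeometry Pool.Agent.Y116.UV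

/-- The groups in the conjecture of Beilinson for a regular connected scheme `X` of dimension `d`,
proper and flat over `ℤ`, with generic fibre `X_ℚ`:

* `M i` is the real span of the integral part `H^{2 d - 1 - i}_M(X_{/ℤ}, ℚ(d))`;
* `E i` is the Deligne cohomology `H^{2 d - 1 - i}_𝒟(X_{/ℝ}, ℝ(d))`;
* `C` is the space `CH^0(X_ℚ)^* ⊗ ℝ`;
* `rho i` is the regulator and `eps` is the map to `C`;
* `res i` is the restriction from `H^{2 d - 1 - i}(X, ℚ(d)) ⊗ ℝ = CH_0(X, i + 1) ⊗ ℝ`, whose image is
  the integral part;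
* `comp i` is the dual of the boundary map from Deligne cohomology to Arakelov motivic
  cohomology. Since `H^i(X, ℚ(0))` is zero for `i ≠ 0` it is bijective for `i ≥ 1`, and for `i = 0`
  its image is the kernel of `eps`. -/
structure Regulators (D : ℤ → ℤ → Sch ℤ → RegSp) (X : Sch ℤ) where
  M : ℕ → Type
  E : ℕ → Type
  C : Type
  [groupM : ∀ i, AddCommGroup (M i)]
  [modM : ∀ i, Module ℝ (M i)]
  [groupE : ∀ i, AddCommGroup (E i)]
  [modE : ∀ i, Module ℝ (E i)]
  [groupC : AddCommGroup C]
  [modC : Module ℝ C]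
  rho : ∀ i, M i →ₗ[ℝ] E i
  eps : E 0 →ₗ[ℝ] C
  res : ∀ i : ℕ, (D (i + 1) 0 X).A →ₗ[ℝ] M i
  comp : ∀ i : ℕ, (D (i + 1) 0 X).H →ₗ[ℝ] E i
  res_surj : ∀ i, Function.Surjective (res i)
  comm : ∀ i x, rho i (res i x) = comp i ((D (i + 1) 0 X).reg x)
  comp_bij : ∀ i, 1 ≤ i → Function.Bijective (comp i)
  comp_inj : Function.Injective (comp 0)
  comp_exact : Function.Exact (comp 0) eps
  eps_surj : Function.Surjective eps

attribute [instance] Regulators.groupM Regulators.modM Regulators.groupE Regulators.modE
  Regulators.groupC Regulators.modC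

/-- The conjecture of Beilinson: the regulator is bijective for `i ≥ 1`, and for `i = 0` there is
the exact sequence `0 → M 0 → E 0 → C → 0`. -/
structure Beilinson {D : ℤ → ℤ → Sch ℤ → RegSp} {X : Sch ℤ} (R : Regulators D X) : Prop where
  bijective : ∀ i, 1 ≤ i → Function.Bijective (R.rho i)
  injective : Function.Injective (R.rho 0)
  exact : Function.Exact (R.rho 0) R.eps
  surjective : Function.Surjective R.eps

/-- The restrictions of the motivic cohomology of the model to the generic fibre are injective (the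
conjecture of Flach). -/
def FlachInjective {D : ℤ → ℤ → Sch ℤ → RegSp} {X : Sch ℤ} (R : Regulators D X) : Prop :=
  ∀ i, Function.Injective (R.res i)

/-- **The conjecture of Beilinson and the hypersurfaces of tripartite hypergraphs.** -/
theorem result (D : ℤ → ℤ → Sch ℤ → RegSp) (hD : IsBeilinsonTheory D)
    (point : Perfect D (aff ℤ ℤ)) :
    List.TFAE
      [∀ X : Sch ℤ, FT True X → Perfect D X,
        ∀ X : Sch ℤ, FT True X → Smooth X.hom → Perfect D X,
        ∀ (a b c : ℕ) (H : Finset (Fin a × Fin b × Fin c)), Perfect D (tripS ℤ H)] ∧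
    ((∀ (a b c : ℕ) (H : Finset (Fin a × Fin b × Fin c)), Perfect D (tripS ℤ H)) →
      ∀ (X : Sch ℤ), FT True X → ∀ R : Regulators D X, Beilinson R ∧ FlachInjective R) ∧
    ∀ (a b c : ℕ) (H : Finset (Fin a × Fin b × Fin c)),
      FT True (tripS ℤ H) ∧ IsRegularSch (tripS ℤ H).left ∧ Smooth (tripS ℤ H).hom := by
  have hft : ∀ (a b c : ℕ) (H : Finset (Fin a × Fin b × Fin c)), FT True (tripS ℤ H) :=
    fun a b c H => ft_aff True
  have hsm : ∀ (a b c : ℕ) (H : Finset (Fin a × Fin b × Fin c)), Smooth (tripS ℤ H).hom := by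
    intro a b c H
    change Smooth (Spec.map (CommRingCat.ofHom (algebraMap ℤ (Trip ℤ H))))
    rw [HasRingHomProperty.Spec_iff (P := @Smooth)]
    exact RingHom.smooth_algebraMap.2 (trip_smooth H)
  have key : (∀ (a b c : ℕ) (H : Finset (Fin a × Fin b × Fin c)), Perfect D (tripS ℤ H)) →
      ∀ X : Sch ℤ, FT True X → Perfect D X := fun h X hX =>
    universal_int (fun x => ⟨x, Int.cast_id⟩) (bnd_perfect hD point).toUni h X hX
  refine ⟨?_, ?_, fun a b c H => ⟨hft a b c H, regular_trip H, hsm a b c H⟩⟩
  · tfae_have 1 → 2 := fun h X hX _ => h X hX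
    tfae_have 2 → 3 := fun h a b c H => h _ (hft a b c H) (hsm a b c H)
    tfae_have 3 → 1 := key
    tfae_finish
  · intro h X hX R
    have hP := key h X hX
    have h1 : ∀ i : ℕ, Function.Bijective (D (i + 1) 0 X).reg := fun i => hP (i + 1) 0
    have h2 : ∀ i, (R.rho i : R.M i → R.E i) ∘ R.res i = R.comp i ∘ (D (i + 1) 0 X).reg :=
      fun i => funext (R.comm i)
    have h3 : ∀ i, Function.Injective (R.comp i) := by
      intro i
      rcases Nat.eq_zero_or_pos i with rfl | hi
      · exact R.comp_inj
      · exact (R.comp_bij i hi).injective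
    have h4 : ∀ i, Function.Injective (R.rho i ∘ R.res i) := by
      intro i
      rw [h2 i]
      exact (h3 i).comp (h1 i).injective
    have h5 : ∀ i, Function.Injective (R.res i) := fun i => (h4 i).of_comp
    have h6 : ∀ i, Function.Injective (R.rho i) := by
      intro i x y hxy
      obtain ⟨x, rfl⟩ := R.res_surj i x
      obtain ⟨y, rfl⟩ := R.res_surj i y
      rw [h4 i hxy]
    refine ⟨⟨?_, h6 0, ?_, R.eps_surj⟩, h5⟩
    · intro i hi
      refine ⟨h6 i, fun y => ?_⟩
      obtain ⟨z, rfl⟩ := (R.comp_bij i hi).surjective y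
      obtain ⟨x, rfl⟩ := (h1 i).surjective z
      exact ⟨R.res i x, R.comm i x⟩
    · intro y
      rw [R.comp_exact y]
      constructor
      · rintro ⟨z, rfl⟩
        obtain ⟨x, rfl⟩ := (h1 0).surjective z
        exact ⟨R.res 0 x, R.comm 0 x⟩
      · rintro ⟨x, rfl⟩
        obtain ⟨x, rfl⟩ := R.res_surj 0 x
        exact ⟨_, (R.comm 0 x).symm⟩

end Pool.Agent.Results.MP_a09a03_nt.TripartiteHypergraphs
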