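import Mathlib

/-!
# The exponent in the Hall–Lang conjecture is at least `15 / 2`

For every integer `v` the point

`x = 256 v^10 + 256 v^8 + 160 v^6 + 80 v^4 + 17 v^2 + 2`,
`y = v (4096 v^14 + 6144 v^12 + 5376 v^10 + 3584 v^8 + 1584 v^6 + 504 v^4 + 111 v^2 + 9)`

is an integral point of the elliptic curve `y ^ 2 = x ^ 3 - (8 v^2 + 7) x + (12 v^2 + 6)`.
So `|x|` is of the order of `H ^ 5` and `|y|` of the order of `H ^ (15 / 2)`, where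
`H = max |A| |B| = 12 v^2 + 6`. Hence every exponent `M` for which the bound of Hall and Lang
`max |x| |y| ≤ K H ^ M` could hold is at least `15 / 2`, and every exponent `M` with
`|x| ≤ K H ^ M` is at least `5`.

The identity comes from a solution of
`T Y(T)^2 = X(T)^3 + (a T + a') X(T) + (b T + b')` in polynomials with `deg X = 5`, `deg Y = 7`
(this solution is unique up to the obvious changes of variables), with `T = w^2`.
-/

namespace Pool.Agent.Results.MP_a1107e_nt.ExponentLowerBound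

/-- The abscissa of the point. -/
def px (v : ℤ) : ℤ := 256 * v ^ 10 + 256 * v ^ 8 + 160 * v ^ 6 + 80 * v ^ 4 + 17 * v ^ 2 + 2

/-- The ordinate of the point. -/
def py (v : ℤ) : ℤ := v * (4096 * v ^ 14 + 6144 * v ^ 12 + 5376 * v ^ 10 + 3584 * v ^ 8 +
  1584 * v ^ 6 + 504 * v ^ 4 + 111 * v ^ 2 + 9)

theorem on_curve (v : ℤ) :
    py v ^ 2 = px v ^ 3 + (-(8 * v ^ 2 + 7)) * px v + (12 * v ^ 2 + 6) := by
  unfold py px; ring

theorem disc_ne (v : ℤ) : 4 * (-(8 * v ^ 2 + 7)) ^ 3 + 27 * (12 * v ^ 2 + 6) ^ 2 ≠ 0 := by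
  have h : 4 * (-(8 * v ^ 2 + 7)) ^ 3 + 27 * (12 * v ^ 2 + 6) ^ 2 =
      -(2048 * (v ^ 2) ^ 3 + 1488 * (v ^ 2) ^ 2 + 816 * v ^ 2 + 400) := by ring
  rw [h]
  have : 0 < 2048 * (v ^ 2) ^ 3 + 1488 * (v ^ 2) ^ 2 + 816 * v ^ 2 + 400 := by positivity
  omega

theorem height_eq (v : ℤ) (hv : 1 ≤ v) :
    max |(-(8 * v ^ 2 + 7) : ℤ)| |12 * v ^ 2 + 6| = 12 * v ^ 2 + 6 := by
  have h1 : 1 ≤ v ^ 2 := by nlinarith
  rw [abs_neg, abs_of_pos (by positivity : (0 : ℤ) < 8 * v ^ 2 + 7),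
    abs_of_pos (by positivity : (0 : ℤ) < 12 * v ^ 2 + 6)]
  exact max_eq_right (by omega)

theorem px_pos (v : ℤ) : 0 < px v := by unfold px; positivity

theorem py_pos (v : ℤ) (hv : 1 ≤ v) : 0 < py v := by
  have : 0 < v := by omega
  unfold py; positivity

theorem px_ge (v : ℤ) (hv : 1 ≤ v) : (12 * v ^ 2 + 6) ^ 5 ≤ 2500 * px v := by
  have h1 : 0 ≤ v ^ 2 - 1 := by nlinarith
  obtain ⟨s, hs⟩ : ∃ s : ℤ, v ^ 2 = s + 1 := ⟨v ^ 2 - 1, by ring⟩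
  have hs0 : 0 ≤ s := by omega
  have hpx : px v = 256 * (v ^ 2) ^ 5 + 256 * (v ^ 2) ^ 4 + 160 * (v ^ 2) ^ 3 +
      80 * (v ^ 2) ^ 2 + 17 * v ^ 2 + 2 := by unfold px; ring
  rw [hpx, hs]
  have : 0 ≤ 2500 * (256 * (s + 1) ^ 5 + 256 * (s + 1) ^ 4 + 160 * (s + 1) ^ 3 +
      80 * (s + 1) ^ 2 + 17 * (s + 1) + 2) - (12 * (s + 1) + 6) ^ 5 := by
    ring_nf
    positivity
  linarith

theorem py_ge (v : ℤ) (hv : 1 ≤ v) : (12 * v ^ 2 + 6) ^ 15 ≤ 2 * 2500 ^ 3 * py v ^ 2 := by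
  have h := px_ge v hv
  have hx := px_pos v
  have hv2 : 1 ≤ v ^ 2 := by nlinarith
  have h3 : ((12 * v ^ 2 + 6) ^ 5) ^ 3 ≤ (2500 * px v) ^ 3 :=
    pow_le_pow_left₀ (by positivity) h 3
  have hx2 : 8 * v ^ 2 + 7 ≤ px v := by
    unfold px
    nlinarith [sq_nonneg v, sq_nonneg (v ^ 2), sq_nonneg (v ^ 3), sq_nonneg (v ^ 4),
      sq_nonneg (v ^ 5), mul_le_mul hv2 hv2 zero_le_one (sq_nonneg v)]
  have hx1 : 15 ≤ px v := by omega
  have hy : px v ^ 3 ≤ 2 * py v ^ 2 := by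
    rw [on_curve]
    nlinarith [mul_le_mul_of_nonneg_right hx2 hx.le, mul_pos hx hx,
      mul_le_mul_of_nonneg_right hx1 (mul_pos hx hx).le]
  calc (12 * v ^ 2 + 6) ^ 15 = ((12 * v ^ 2 + 6) ^ 5) ^ 3 := by ring
    _ ≤ (2500 * px v) ^ 3 := h3
    _ = 2500 ^ 3 * px v ^ 3 := by ring
    _ ≤ 2500 ^ 3 * (2 * py v ^ 2) := by gcongr
    _ = 2 * 2500 ^ 3 * py v ^ 2 := by ring

/-- If `H ^ a ≤ C * (K * H ^ M) ^ b` for all the numbers `H = 12 v ^ 2 + 6`, then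
`a ≤ b * M`. -/
theorem exponent_le (a b : ℕ) (C K M : ℝ)
    (h : ∀ v : ℤ, 1 ≤ v → ((12 * v ^ 2 + 6 : ℤ) : ℝ) ^ a ≤
      C * (K * ((12 * v ^ 2 + 6 : ℤ) : ℝ) ^ M) ^ b) : (a : ℝ) ≤ b * M := by
  by_contra hlt
  push Not at hlt
  have ht : Filter.Tendsto (fun n : ℕ => ((12 * ((n : ℤ) + 1) ^ 2 + 6 : ℤ) : ℝ))
      Filter.atTop Filter.atTop := by
    refine Filter.tendsto_atTop_mono (fun n => ?_) tendsto_natCast_atTop_atTop
    push_cast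
    nlinarith [sq_nonneg (n : ℝ), Nat.cast_nonneg (α := ℝ) n]
  have ht2 := (tendsto_rpow_atTop (sub_pos.mpr hlt)).comp ht
  obtain ⟨n, hn⟩ := (ht2.eventually_gt_atTop (C * K ^ b)).exists
  simp only [Function.comp] at hn
  set H : ℝ := ((12 * ((n : ℤ) + 1) ^ 2 + 6 : ℤ) : ℝ) with hH
  have hHpos : 0 < H := by
    rw [hH]; push_cast; positivity
  have h1 := h ((n : ℤ) + 1) (by omega)
  rw [← hH, mul_pow, ← mul_assoc, ← Real.rpow_natCast (H ^ M) b, ← Real.rpow_mul hHpos.le,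
    ← Real.rpow_natCast H a] at h1
  have h2 : H ^ ((a : ℝ) - b * M) * H ^ (M * b) = H ^ (a : ℝ) := by
    rw [← Real.rpow_add hHpos]; congr 1; ring
  have h3 : 0 < H ^ (M * b) := Real.rpow_pos_of_pos hHpos _
  rw [← h2] at h1
  have h4 := le_of_mul_le_mul_right h1 h3
  linarith

/-- **The exponents in the Hall–Lang conjecture are at least `5` for `|x|` and `15 / 2` for
`max |x| |y|`.**
1. There are nonsingular curves `y ^ 2 = x ^ 3 + A x + B` with `max |A| |B| = 12 v ^ 2 + 6`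
(`v = 1, 2, 3, …`) and integral points on them with `(max |A| |B|) ^ 5 ≤ 2500 |x|` and
`(max |A| |B|) ^ 15 ≤ 2 · 2500 ^ 3 y ^ 2`.
2. If `K`, `M` are such that `max |x| |y| ≤ K (max |A| |B|) ^ M` for all integral points of all
nonsingular curves, then `M ≥ 15 / 2`.
3. If `K`, `M` are such that `|x| ≤ K (max |A| |B|) ^ M` for all of them, then `M ≥ 5`. -/
theorem result :
    (∀ v : ℤ, 1 ≤ v → ∃ A B x y : ℤ, 4 * A ^ 3 + 27 * B ^ 2 ≠ 0 ∧ y ^ 2 = x ^ 3 + A * x + B ∧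
      max |A| |B| = 12 * v ^ 2 + 6 ∧ (max |A| |B|) ^ 5 ≤ 2500 * |x| ∧
      (max |A| |B|) ^ 15 ≤ 2 * 2500 ^ 3 * y ^ 2) ∧
    (∀ K M : ℝ, (∀ A B x y : ℤ, 4 * A ^ 3 + 27 * B ^ 2 ≠ 0 → y ^ 2 = x ^ 3 + A * x + B →
      ((max |x| |y| : ℤ) : ℝ) ≤ K * ((max |A| |B| : ℤ) : ℝ) ^ M) → 15 / 2 ≤ M) ∧
    (∀ K M : ℝ, (∀ A B x y : ℤ, 4 * A ^ 3 + 27 * B ^ 2 ≠ 0 → y ^ 2 = x ^ 3 + A * x + B →
      ((|x| : ℤ) : ℝ) ≤ K * ((max |A| |B| : ℤ) : ℝ) ^ M) → 5 ≤ M) := by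
  refine ⟨fun v hv => ?_, fun K M h => ?_, fun K M h => ?_⟩
  · refine ⟨-(8 * v ^ 2 + 7), 12 * v ^ 2 + 6, px v, py v, disc_ne v, on_curve v,
      height_eq v hv, ?_, ?_⟩
    · rw [height_eq v hv, abs_of_pos (px_pos v)]; exact px_ge v hv
    · rw [height_eq v hv]; exact py_ge v hv
  · have key := exponent_le 15 2 (2 * 2500 ^ 3) K M (fun v hv => ?_)
    · push_cast at key; linarith
    · have h1 := h _ _ _ _ (disc_ne v) (on_curve v)
      rw [height_eq v hv] at h1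
      have h2 : ((py v : ℤ) : ℝ) ≤ K * ((12 * v ^ 2 + 6 : ℤ) : ℝ) ^ M := by
        refine le_trans ?_ h1
        exact_mod_cast (le_abs_self (py v)).trans (le_max_right _ _)
      have h3 : (0 : ℝ) ≤ ((py v : ℤ) : ℝ) := by exact_mod_cast (py_pos v hv).le
      have h4 : ((12 * v ^ 2 + 6 : ℤ) : ℝ) ^ 15 ≤ 2 * 2500 ^ 3 * ((py v : ℤ) : ℝ) ^ 2 := by
        exact_mod_cast py_ge v hv
      refine h4.trans ?_
      have h5 := pow_le_pow_left₀ h3 h2 2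
      linarith
  · have key := exponent_le 5 1 2500 K M (fun v hv => ?_)
    · push_cast at key; linarith
    · have h1 := h _ _ _ _ (disc_ne v) (on_curve v)
      rw [height_eq v hv, abs_of_pos (px_pos v)] at h1
      have h4 : ((12 * v ^ 2 + 6 : ℤ) : ℝ) ^ 5 ≤ 2500 * ((px v : ℤ) : ℝ) := by
        exact_mod_cast px_ge v hv
      refine h4.trans ?_
      rw [pow_one]
      linarith

end Pool.Agent.Results.MP_a1107e_nt.ExponentLowerBound
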