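import Pool.Agent.Q273.CI.QuadE

set_option autoImplicit false

/-!
# Almost prime values of quadratic polynomials: exact density in all windows, at every term

Let `f(m) = a m ^ 2 + b m + c` be admissible, `C > 1`, `0 < h < 1 - 1 / C` and `ε > 0`. There are `K`
and `r0` such that for every `r ≥ r0`, all positive `x_n → ∞` with `x_{n+1} ≥ x_n ^ C` for large `n`
and all `0 < u < v` the following set of `α` in `(u, v)` has Hausdorff dimension one: for ALL large
`n`, with `X = ⌊x_n⌋` and `m = ⌊α x_n⌋`, the value `f(m)` has at most `2 r` prime factors, all larger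
than `X ^ (1 / r)`, and ALL windows `(s, t]` around `m` of length at most `x_n ^ h` and at least
`K / V` contain `(1 ± ε) (t - s) V` integers with this property, where `V` is the product of
`1 - ρ(p) / p` over the primes `p ≤ X ^ (1 / r)`.
-/

open Filter Topology

namespace Pool.Agent.Results.MP_a1177c_nt.EveryTermExactWindows

/-- `a m ^ 2 + b m + c` has at most `2 r` prime factors (with multiplicity), all larger than
`X ^ (1 / r)`. -/
def AlmostPrimeValue (a b c : ℤ) (r X m : ℕ) : Prop :=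
  (a * (m : ℤ) ^ 2 + b * m + c).natAbs.primeFactorsList.length ≤ 2 * r ∧
    ∀ p : ℕ, p.Prime → (p : ℤ) ∣ a * (m : ℤ) ^ 2 + b * m + c → (X : ℝ) ^ (1 / (r : ℝ)) < (p : ℝ)

open Classical in
/-- The number of the `m` in `(s, t]` with an almost prime value. -/
noncomputable def N (a b c : ℤ) (r X s t : ℕ) : ℕ :=
  ((Finset.Ioc s t).filter (fun m => AlmostPrimeValue a b c r X m)).card

open Classical in
/-- The sieve density: the product of `1 - ρ(p) / p` over the primes `p ≤ X ^ (1 / r)`, where `ρ(p)` is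
the number of the `m` mod `p` with `p ∣ a m ^ 2 + b m + c`. -/
noncomputable def V (a b c : ℤ) (r X : ℕ) : ℝ :=
  ∏ p ∈ (Finset.range (⌊(X : ℝ) ^ (1 / (r : ℝ))⌋₊ + 1)).filter Nat.Prime,
    (1 - (((Finset.range p).filter
      (fun m : ℕ => (p : ℤ) ∣ a * (m : ℤ) ^ 2 + b * m + c)).card : ℝ) / p)

/-- The value at `m` is almost prime and all windows around `m` of length at most `x ^ h` and at least
`K / V` have the density `V` up to `ε`; here `X = ⌊x⌋`. -/
def GoodTerm (a b c : ℤ) (K ε h : ℝ) (r : ℕ) (x : ℝ) (m : ℕ) : Prop :=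
  AlmostPrimeValue a b c r ⌊x⌋₊ m ∧ ∀ s t : ℕ, s < m → m ≤ t → (t : ℝ) - s ≤ x ^ h →
    K ≤ ((t : ℝ) - s) * V a b c r ⌊x⌋₊ →
    |(N a b c r ⌊x⌋₊ s t : ℝ) - (t - s) * V a b c r ⌊x⌋₊| ≤ ε * ((t - s) * V a b c r ⌊x⌋₊)

/-- **Exact density of the almost prime values in all windows around every term.** -/
theorem result (a b c : ℤ) (ha : 0 < a)
    (hg : ∀ p : ℕ, p.Prime → ¬ ((p : ℤ) ∣ a ∧ (p : ℤ) ∣ b ∧ (p : ℤ) ∣ c))
    (hpar : ¬ (Even (a + b) ∧ Even c)) (hD : ¬ IsSquare (b ^ 2 - 4 * a * c))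
    (C h ε : ℝ) (hC : 1 < C) (hh : 0 < h) (hη : h < 1 - 1 / C) (hε : 0 < ε) :
    ∃ (K : ℝ) (r0 : ℕ), 0 < K ∧ ∀ r : ℕ, r0 ≤ r → ∀ x : ℕ → ℝ, (∀ n, 0 < x n) →
      Tendsto x atTop atTop → (∀ᶠ n in atTop, (x n) ^ C ≤ x (n + 1)) → ∀ u v : ℝ, 0 < u → u < v →
      dimH {α : ℝ | u < α ∧ α < v ∧ ∀ᶠ n in atTop, GoodTerm a b c K ε h r (x n) ⌊α * x n⌋₊} = 1 :=
  Pool.Agent.Q273.CI.quad_exact a b c ha hg hpar hD C h ε hC hh hη hε

end Pool.Agent.Results.MP_a1177c_nt.EveryTermExactWindows
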