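import Mathlib
import Pool.Agent.Q160.GP6

set_option autoImplicit false

/-!
# Prime values of growing systems of polynomials with variable constant terms

For systems `f_1 + c_1, ..., f_k + c_k` of polynomials of degree at most `d` with non-negative
coefficients (for instance `a_i m² + b_i m + c_i`), where the nonconstant parts are arbitrary and the
constant terms vary over `[1, H]`, and where `k` may grow with `H`.
-/

namespace Pool.Agent.Results.MP_a1177c_nt.GrowingSystems

open Finset Polynomial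

/-- the greatest common divisor of the coefficients -/
def content (f : ℕ[X]) : ℕ := f.support.gcd f.coeff

/-- the factor `∏_{p ∣ a, p > k} p / (p - 1)` -/
noncomputable def G (k a : ℕ) : ℝ := ∏ p ∈ a.primeFactors.filter (fun p => k < p), (1 - (p : ℝ)⁻¹)⁻¹

/-- the expected gap `log H / (log (k + 2) G_k(content f))` -/
noncomputable def W (k H : ℕ) (f : ℕ[X]) : ℝ := Real.log H / (Real.log (k + 2) * G k (content f))

/-- the box `[1, H]^k` of constant terms -/
def box (k H : ℕ) : Finset (Fin k → ℕ) := Fintype.piFinset (fun _ => Icc 1 H)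

open Classical in
/-- the vectors `c` in `[1, H]^k` such that the polynomials `f i + c i` are distinct and no prime divides
all the values of their product -/
noncomputable def systems {k : ℕ} (f : Fin k → ℕ[X]) (H : ℕ) : Finset (Fin k → ℕ) :=
  (box k H).filter (fun c => (∀ p : ℕ, p.Prime → ∃ m : ℕ, ∀ i, ¬ p ∣ (f i).eval m + c i) ∧
    ∀ i j, i ≠ j → ¬ (f i = f j ∧ c i = c j))

/-- the arguments `m` in `N` for which all the numbers `f i (m) + c i` are prime -/
def good {k : ℕ} (f : Fin k → ℕ[X]) (c : Fin k → ℕ) (N : Finset ℕ) : Finset ℕ :=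
  N.filter (fun m => ∀ i, ((f i).eval m + c i).Prime)

open Classical in
theorem result (d : ℕ) (hd : 1 ≤ d) : ∃ C : ℝ, 1 ≤ C ∧ ∀ k : ℕ, 1 ≤ k → ∀ H : ℕ, C * k ≤ Real.log H →
    ∀ f : Fin k → ℕ[X], (∀ i, f i ≠ 0 ∧ (f i).coeff 0 = 0 ∧ (f i).natDegree ≤ d) →
    (∀ y : ℕ, 1 ≤ y → (∀ i, (((f i).eval (2 * y) : ℕ) : ℝ) ≤ (H : ℝ) ^ (1 + 1 / C)) → ∏ i, (C * W k H (f i)) ≤ y →
      (C ^ k)⁻¹ * ((systems f H).card : ℝ) ≤
        (((systems f H).filter (fun c => y * ∏ i, (C * W k H (f i))⁻¹ ≤ ((good f c (Ioc y (2 * y))).card : ℝ))).card : ℝ)) ∧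
    (∀ N : Finset ℕ, ∀ t : ℝ, 0 < t → (∀ i, content (f i) ≤ H ^ 2) →
      (((box k H).filter (fun c => t ≤ ((good f c N).card : ℝ))).card : ℝ) ≤
        (N.card : ℝ) / t * (∏ i, (C / W k H (f i))) * ((systems f H).card : ℝ)) := by
  obtain ⟨θ, hθ, hθ1, C1, hC1, hlow⟩ := Pool.Agent.Q160.GP.genDP d hd
  obtain ⟨C2, hC2, hup⟩ := Pool.Agent.Q160.GP.genDP_up 2 d hd
  obtain ⟨C, hC⟩ : ∃ C : ℝ, C = max (max C1 C2) (max (2 / (1 / θ - 1)) 2) := ⟨_, rfl⟩
  have hCa : C1 ≤ C := by rw [hC]; exact le_trans (le_max_left _ _) (le_max_left _ _)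
  have hCb : C2 ≤ C := by rw [hC]; exact le_trans (le_max_right _ _) (le_max_left _ _)
  have hCc : 2 / (1 / θ - 1) ≤ C := by rw [hC]; exact le_trans (le_max_left _ _) (le_max_right _ _)
  have hCd : 2 ≤ C := by rw [hC]; exact le_trans (le_max_right _ _) (le_max_right _ _)
  have hC0 : 1 ≤ C := by linarith
  have hθi : 0 < 1 / θ - 1 := by
    rw [sub_pos, lt_div_iff₀ hθ]
    linarith
  refine ⟨C, hC0, fun k hk H hkH f hf => ?_⟩
  have hkr : (1 : ℝ) ≤ k := by exact_mod_cast hk
  have hHpos : (0 : ℝ) < H := by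
    by_contra hcon
    push Not at hcon
    have h7 : (H : ℝ) = 0 := le_antisymm hcon (Nat.cast_nonneg _)
    rw [h7, Real.log_zero] at hkH
    nlinarith
  have hL : C ≤ Real.log H := by nlinarith
  have hL0 : 0 < Real.log H := by linarith
  have hlk := Pool.Agent.Q160.GK.log_two_add k
  have hgg : ∀ i, 1 ≤ Pool.Agent.Q160.GK.gg k (Pool.Agent.Q160.GP.ct (f i)) := fun i => Pool.Agent.Q160.GK.one_le_gg _ _
  have hW : ∀ i, W k H (f i) = Real.log H / (Real.log (k + 2) * Pool.Agent.Q160.GK.gg k (Pool.Agent.Q160.GP.ct (f i))) :=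
    fun i => rfl
  have hW0 : ∀ i, 0 < W k H (f i) := fun i => by
    rw [hW]
    have := hgg i
    positivity
  have hbox : box k H = Fintype.piFinset (fun _ : Fin k => Ioc 0 (0 + H)) := by
    unfold box
    congr 1
    funext _
    ext x
    rw [mem_Icc, mem_Ioc]
    omega
  have hsys : systems f H = (Fintype.piFinset (fun _ : Fin k => Ioc 0 (0 + H))).filter
      (fun c => Pool.Agent.Q160.GP.AdmP f c ∧ Pool.Agent.Q160.GP.DistP f c) := by
    rw [← hbox]
    ext c
    unfold systems
    rw [mem_filter, mem_filter]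
    exact Iff.rfl
  refine ⟨fun y hy hfy hyL => ?_, fun N t ht hct => ?_⟩
  · have hθy : ∀ i, (((f i).eval (2 * y) + 0 + H : ℕ) : ℝ) ^ θ ≤ H := by
      intro i
      have hH1 : (1 : ℝ) ≤ H := by
        by_contra hcon
        push Not at hcon
        have := Real.log_neg hHpos hcon
        linarith
      have h1 : (((f i).eval (2 * y) + 0 + H : ℕ) : ℝ) ≤ (H : ℝ) ^ (1 + 2 / C) := by
        have h2 := hfy i
        have h3 : (H : ℝ) ≤ (H : ℝ) ^ (1 + 1 / C) := by
          calc (H : ℝ) = (H : ℝ) ^ (1 : ℝ) := (Real.rpow_one _).symm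
            _ ≤ _ := Real.rpow_le_rpow_of_exponent_le hH1 (by
              have : 0 ≤ 1 / C := by positivity
              linarith)
        have h4 : (2 : ℝ) ≤ (H : ℝ) ^ (1 / C) := by
          have h5 : (H : ℝ) ^ (1 / C) = Real.exp (Real.log H * (1 / C)) := Real.rpow_def_of_pos hHpos _
          rw [h5]
          have h6 : 1 ≤ Real.log H * (1 / C) := by
            rw [mul_one_div, le_div_iff₀ (by linarith)]
            linarith
          have h7 := Real.add_one_le_exp (Real.log H * (1 / C))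
          linarith
        have h5 : (H : ℝ) ^ (1 + 2 / C) = (H : ℝ) ^ (1 / C) * (H : ℝ) ^ (1 + 1 / C) := by
          rw [← Real.rpow_add hHpos]
          congr 1
          ring
        rw [h5]
        push_cast
        nlinarith
      have h2 : 1 + 2 / C ≤ 1 / θ := by
        have h3 : 2 / C ≤ 1 / θ - 1 := by
          rw [div_le_iff₀ (by linarith)]
          rw [div_le_iff₀ hθi] at hCc
          linarith
        linarith
      have h3 : (((f i).eval (2 * y) + 0 + H : ℕ) : ℝ) ≤ (H : ℝ) ^ (1 / θ) :=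
        h1.trans (Real.rpow_le_rpow_of_exponent_le hH1 h2)
      calc (((f i).eval (2 * y) + 0 + H : ℕ) : ℝ) ^ θ ≤ ((H : ℝ) ^ (1 / θ)) ^ θ :=
            Real.rpow_le_rpow (by positivity) h3 hθ.le
        _ = H := by rw [← Real.rpow_mul hHpos.le, one_div_mul_cancel hθ.ne', Real.rpow_one]
    have hprod : ∏ i, (C1 * W k H (f i)) ≤ ∏ i, (C * W k H (f i)) :=
      prod_le_prod (fun i _ => by have := hW0 i; positivity)
        fun i _ => mul_le_mul_of_nonneg_right hCa (hW0 i).le
    have h1 := hlow k hk f (fun _ => 0) H y hy (le_trans (mul_le_mul_of_nonneg_right hCa (by positivity)) hkH) hf hθy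
      (hprod.trans hyL)
    rw [← hsys] at h1
    have h2 : (C ^ k)⁻¹ * ((systems f H).card : ℝ) ≤ (C1 ^ k)⁻¹ * ((systems f H).card : ℝ) :=
      mul_le_mul_of_nonneg_right (inv_anti₀ (by positivity) (pow_le_pow_left₀ (by linarith) hCa k)) (Nat.cast_nonneg _)
    refine h2.trans (h1.trans ?_)
    have h3 : (Fintype.piFinset (fun _ : Fin k => Ioc 0 (0 + H))).filter (fun b =>
        (Pool.Agent.Q160.GP.AdmP f b ∧ Pool.Agent.Q160.GP.DistP f b) ∧
        (y : ℝ) * ∏ i, (C1 * (Real.log H / (Real.log (k + 2) * Pool.Agent.Q160.GK.gg k (Pool.Agent.Q160.GP.ct (f i)))))⁻¹ ≤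
          (((Ioc y (2 * y)).filter (fun n => ∀ i, ((f i).eval n + b i).Prime)).card : ℝ)) ⊆
        (systems f H).filter (fun c => y * ∏ i, (C * W k H (f i))⁻¹ ≤ ((good f c (Ioc y (2 * y))).card : ℝ)) := by
      intro b hb
      rw [mem_filter] at hb
      rw [hsys, mem_filter, mem_filter]
      refine ⟨⟨hb.1, hb.2.1⟩, le_trans ?_ hb.2.2⟩
      refine mul_le_mul_of_nonneg_left ?_ (Nat.cast_nonneg _)
      refine prod_le_prod (fun i _ => by have := hW0 i; positivity) fun i _ => ?_
      have := hW0 i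
      exact inv_anti₀ (by rw [← hW]; positivity) (mul_le_mul_of_nonneg_right hCa (hW0 i).le)
    exact_mod_cast card_le_card h3
  · have h1 := hup k hk f (fun _ => 0) H N t ht hf hct (le_trans (mul_le_mul_of_nonneg_right hCb (by positivity)) hkH)
    rw [← hsys, ← hbox] at h1
    refine h1.trans ?_
    refine mul_le_mul_of_nonneg_right (mul_le_mul_of_nonneg_left ?_ (by positivity)) (Nat.cast_nonneg _)
    refine prod_le_prod (fun i _ => ?_) fun i _ => ?_
    · have := hgg i
      positivity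
    · have h3 := hgg i
      have h4 : C / W k H (f i) =
          C * ((Real.log (k + 2) * Pool.Agent.Q160.GK.gg k (Pool.Agent.Q160.GP.ct (f i))) / Real.log H) := by
        rw [hW, div_div_eq_mul_div, mul_div_assoc]
      rw [h4]
      exact mul_le_mul_of_nonneg_right hCb (by positivity)

end Pool.Agent.Results.MP_a1177c_nt.GrowingSystems
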