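import Pool.Agent.Q236.ML.Main

set_option autoImplicit false

/-!
# The values of a polynomial with a varying constant term
-/

namespace Pool.Agent.Results.MP_a1177c_nt.MixedPoisson

open Finset Polynomial

/-- `n` has no prime factor `≤ y` -/
def Rough (y : ℕ) (n : ℤ) : Prop := ∀ p : ℕ, p.Prime → p ≤ y → ¬ (p : ℤ) ∣ n

open Classical in
/-- the number of `1 ≤ m ≤ M` such that `g(m) + c` has no prime factor `≤ y` -/
noncomputable def N (g : ℤ[X]) (y M : ℕ) (c : ℤ) : ℕ :=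
  ((Icc 1 M).filter (fun m : ℕ => Rough y (g.eval (m : ℤ) + c))).card

/-- `V(y) = ∏_{p ≤ y} (1 - 1/p)` -/
noncomputable def V (y : ℕ) : ℝ := ∏ p ∈ (range (y + 1)).filter Nat.Prime, (1 - 1 / (p : ℝ))

/-- the number of zeros of `g + c` modulo `p` -/
def ρ (g : ℤ[X]) (p : ℕ) (c : ℤ) : ℕ :=
  ((range p).filter (fun r : ℕ => (p : ℤ) ∣ g.eval (r : ℤ) + c)).card

/-- the singular series of Bateman and Horn for the polynomial `g + c`, truncated at `w` -/
noncomputable def 𝔖 (g : ℤ[X]) (w : ℕ) (c : ℤ) : ℝ :=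
  ∏ p ∈ (range (w + 1)).filter Nat.Prime, (1 - (ρ g p c : ℝ) / p) / (1 - 1 / (p : ℝ))

/-- the Poisson weight of the finite set `A`: `∑_{j ∈ A} e^{-x} x^j / j!` -/
noncomputable def Poisson (x : ℝ) (A : Finset ℕ) : ℝ :=
  ∑ j ∈ A, Real.exp (-x) * x ^ j / j.factorial

/-- the values of a polynomial -/
noncomputable def ev (g : ℤ[X]) (m : ℕ) : ℤ := g.eval (m : ℤ)

lemma pz_eq (y : ℕ) : Pool.Agent.H373R2.T7.pz y = (range (y + 1)).filter Nat.Prime := by
  ext p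
  rw [Pool.Agent.H373R2.T7.mem_pz, mem_filter, mem_range, Nat.lt_succ_iff]

lemma V_eq (y : ℕ) : V y = Pool.Agent.H373R2.T7.Vz y := by
  unfold V Pool.Agent.H373R2.T7.Vz
  rw [pz_eq]

lemma N_eq (g : ℤ[X]) (y M : ℕ) (c : ℤ) : N g y M c = Pool.Agent.Q236.ML.cnt (ev g) y M c := by
  classical
  unfold N Pool.Agent.Q236.ML.cnt
  apply congrArg Finset.card
  ext m
  rw [mem_filter, mem_filter]
  unfold Rough ev
  apply and_congr_right
  intro _
  constructor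
  · intro h p hp
    rw [Pool.Agent.H373R2.T7.mem_pz] at hp
    exact h p hp.2 hp.1
  · intro h p hp hpy
    exact h p (Pool.Agent.H373R2.T7.mem_pz.2 ⟨hpy, hp⟩)

lemma S_eq (g : ℤ[X]) (w : ℕ) (c : ℤ) : 𝔖 g w c = Pool.Agent.Q236.ML.SS (ev g) w c := by
  unfold 𝔖 Pool.Agent.Q236.ML.SS
  rw [pz_eq]
  rfl

/-- few zeros -/
lemma roots_le (g : ℤ[X]) (p d : ℕ) (hp : p.Prime) (hd : g.natDegree ≤ d)
    (hg : ∃ i : ℕ, 1 ≤ i ∧ ¬ (p : ℤ) ∣ g.coeff i) (a : ℤ) :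
    ((range p).filter (fun r : ℕ => (p : ℤ) ∣ g.eval (r : ℤ) - a)).card ≤ d := by
  classical
  have : Fact p.Prime := ⟨hp⟩
  obtain ⟨f, hf⟩ : ∃ f : (ZMod p)[X], f = (g - C a).map (Int.castRingHom (ZMod p)) := ⟨_, rfl⟩
  obtain ⟨i, hi, hpi⟩ := hg
  have hf0 : f ≠ 0 := by
    intro h
    apply hpi
    have h1 : f.coeff i = 0 := by rw [h, coeff_zero]
    rw [hf, coeff_map, coeff_sub, coeff_C_of_ne_zero (by omega : i ≠ 0), sub_zero] at h1
    exact (ZMod.intCast_zmod_eq_zero_iff_dvd (g.coeff i) p).1 h1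
  have hfd : f.natDegree ≤ d := by
    rw [hf]
    refine natDegree_map_le.trans ?_
    refine (natDegree_sub_le _ _).trans ?_
    rw [natDegree_C]
    omega
  have h2 : ((range p).filter (fun r : ℕ => (p : ℤ) ∣ g.eval (r : ℤ) - a)).card ≤ f.roots.toFinset.card := by
    apply card_le_card_of_injOn (fun r : ℕ => (r : ZMod p))
    · intro r hr
      rw [mem_coe, mem_filter] at hr
      rw [mem_coe, Multiset.mem_toFinset, mem_roots hf0, IsRoot.def, hf]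
      have h3 : ((g - C a).map (Int.castRingHom (ZMod p))).eval ((r : ℕ) : ZMod p) =
          (((g - C a).eval (r : ℤ) : ℤ) : ZMod p) := by
        have h4 := eval_intCast_map (Int.castRingHom (ZMod p)) (g - C a) (r : ℤ)
        simpa using h4
      rw [h3, eval_sub, eval_C]
      exact (ZMod.intCast_zmod_eq_zero_iff_dvd _ p).2 hr.2
    · intro r hr s hs hrs
      rw [mem_coe, mem_filter, mem_range] at hr hs
      simp only at hrs
      have h3 := (ZMod.natCast_eq_natCast_iff' r s p).1 hrs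
      rwa [Nat.mod_eq_of_lt hr.1, Nat.mod_eq_of_lt hs.1] at h3
  refine h2.trans ?_
  exact (Multiset.toFinset_card_le _).trans ((card_roots' f).trans hfd)

lemma ev_PL (g : ℤ[X]) (w d : ℕ) (hd : g.natDegree ≤ d)
    (hg : ∀ p : ℕ, p.Prime → w < p → ∃ i : ℕ, 1 ≤ i ∧ ¬ (p : ℤ) ∣ g.coeff i) :
    Pool.Agent.Q236.ML.PL (ev g) w d := by
  constructor
  · intro p n
    unfold ev
    have h1 : ((n : ℤ) - ((n % p : ℕ) : ℤ)) ∣ g.eval (n : ℤ) - g.eval ((n % p : ℕ) : ℤ) :=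
      sub_dvd_eval_sub _ _ _
    have h2 : (p : ℤ) ∣ (n : ℤ) - ((n % p : ℕ) : ℤ) :=
      Nat.modEq_iff_dvd.1 (show n % p ≡ n [MOD p] from Nat.mod_modEq n p)
    exact h2.trans h1
  · intro p hp hwp a
    exact roots_le g p d hp hd (hg p hp hwp) a

/-- the sizes of the differences -/
lemma ev_size (g : ℤ[X]) (d C y M : ℕ) (hd : g.natDegree ≤ d) (hc : ∀ i : ℕ, 1 ≤ i → |g.coeff i| ≤ (y : ℤ) ^ C)
    (hMy : M ≤ y) (hdy : d + 1 ≤ y) (m m' : ℕ) (hm : m ∈ Icc 1 M) (hm' : m' ∈ Icc 1 M) :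
    |ev g m' - ev g m| ≤ (y : ℤ) ^ (C + d + 1) := by
  rw [mem_Icc] at hm hm'
  unfold ev
  rw [eval_eq_sum_range, eval_eq_sum_range, ← sum_sub_distrib]
  have hy1 : (1 : ℤ) ≤ y := by exact_mod_cast (by omega : 1 ≤ y)
  have h1 : ∀ i ∈ range (g.natDegree + 1), |g.coeff i * (m' : ℤ) ^ i - g.coeff i * (m : ℤ) ^ i| ≤
      (y : ℤ) ^ (C + d) := by
    intro i hi
    rw [mem_range] at hi
    rcases Nat.eq_zero_or_pos i with h0 | h0
    · rw [h0]
      simp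
    · rw [← mul_sub, abs_mul, pow_add]
      apply mul_le_mul (hc i h0) _ (abs_nonneg _) (by positivity)
      have a1 : (m' : ℤ) ^ i ≤ (y : ℤ) ^ d := by
        calc (m' : ℤ) ^ i ≤ (y : ℤ) ^ i := pow_le_pow_left₀ (by positivity) (by exact_mod_cast (by omega)) i
          _ ≤ (y : ℤ) ^ d := pow_le_pow_right₀ hy1 (by omega)
      have a2 : (m : ℤ) ^ i ≤ (y : ℤ) ^ d := by
        calc (m : ℤ) ^ i ≤ (y : ℤ) ^ i := pow_le_pow_left₀ (by positivity) (by exact_mod_cast (by omega)) i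
          _ ≤ (y : ℤ) ^ d := pow_le_pow_right₀ hy1 (by omega)
      have a3 : (0 : ℤ) ≤ (m' : ℤ) ^ i := by positivity
      have a4 : (0 : ℤ) ≤ (m : ℤ) ^ i := by positivity
      rw [abs_le]
      constructor <;> linarith
  refine (abs_sum_le_sum_abs _ _).trans ((sum_le_sum h1).trans ?_)
  rw [sum_const, card_range, nsmul_eq_mul, pow_succ, mul_comm]
  apply mul_le_mul_of_nonneg_left _ (by positivity)
  exact_mod_cast (by omega : g.natDegree + 1 ≤ y)

/-- **Mixed Poisson law for the number of almost prime values of `g(m) + c`.**  Let `d`, `x₀` and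
`ε > 0` be given.  There is `w₀` such that for every `w ≥ w₀` there is `K`, and for every `C` there is
`y₀`, with the following property.  Let `y ≥ y₀` and `Y ≥ y ^ K`, let `g` be an integer polynomial
of degree at most `d` whose nonconstant coefficients are at most `y ^ C` in absolute value and have
no common prime factor `> w`, and let `M` be such that `M V(y) ≤ x₀` and `g(1), …, g(M)` are
different.  Then, when `c` runs through any `Y` consecutive integers, the number of `m ≤ M` such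
that `g(m) + c` has no prime factor `≤ y` follows, up to `ε` in total variation, the mixture of the
Poisson laws with the parameters `M V(y) 𝔖_w(g + c)`. -/
theorem result : ∀ (d : ℕ) (x₀ ε : ℝ), 0 ≤ x₀ → 0 < ε → ∃ w₀ : ℕ, ∀ w : ℕ, w₀ ≤ w → ∃ K : ℕ, ∀ C : ℕ,
    ∃ y₀ : ℕ, ∀ y Y : ℕ, y₀ ≤ y → y ^ K ≤ Y → ∀ g : ℤ[X], g.natDegree ≤ d →
      (∀ i : ℕ, 1 ≤ i → |g.coeff i| ≤ (y : ℤ) ^ C) →
      (∀ p : ℕ, p.Prime → w < p → ∃ i : ℕ, 1 ≤ i ∧ ¬ (p : ℤ) ∣ g.coeff i) →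
      ∀ M : ℕ, M * V y ≤ x₀ →
      (∀ m m' : ℕ, 1 ≤ m → m < m' → m' ≤ M → g.eval (m : ℤ) ≠ g.eval (m' : ℤ)) →
      ∀ (Z : ℤ) (A : Finset ℕ),
        |(((Icc 1 Y).filter (fun n : ℕ => N g y M (Z + n) ∈ A)).card : ℝ) -
          ∑ n ∈ Icc 1 Y, Poisson (M * V y * 𝔖 g w (Z + (n : ℕ))) A| ≤ ε * Y := by
  intro d x₀ ε hx₀ hε
  obtain ⟨w₀, hw⟩ := Pool.Agent.Q236.ML.mixed_PL d x₀ ε hx₀ hε
  refine ⟨w₀, ?_⟩
  intro w hw0
  obtain ⟨K, hK⟩ := hw w hw0
  refine ⟨K, ?_⟩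
  intro C
  obtain ⟨y₀, hy⟩ := hK (C + d + 1)
  obtain ⟨cl, cu, hcl, hcu, hVz⟩ := Pool.Agent.W123.RP.Vz_bounds
  obtain ⟨y₁, hy₁, hsz⟩ := Pool.Agent.Q236.ML.sizes 1 1 cu 1 1 x₀ cl 1 1 0 0 one_pos one_pos hcl hcu one_pos
    one_pos hx₀ one_pos
  refine ⟨max (max y₀ y₁) (d + 1), ?_⟩
  intro y Y hyy hyY g hgd hgc hgp M hM hinj' Z A
  have hinj : ∀ m ∈ Icc 1 M, ∀ m' ∈ Icc 1 M, ev g m = ev g m' → m = m' := by
    intro m hm m' hm' h
    rw [mem_Icc] at hm hm'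
    rcases lt_trichotomy m m' with h1 | h1 | h1
    · exact absurd h (hinj' m m' hm.1 h1 hm'.2)
    · exact h1
    · exact absurd h.symm (hinj' m' m hm'.1 h1 hm.2)
  obtain ⟨b1, b2, b3, b4, b5, b6⟩ := hsz y (by omega)
  have hM' : M * Pool.Agent.H373R2.T7.Vz y ≤ x₀ := by
    rw [← V_eq]
    exact hM
  have hlog : 0 < Real.log y := by linarith
  have hMy : M ≤ y := by
    have hM0 : (0 : ℝ) ≤ M := Nat.cast_nonneg M
    have hV1 := (hVz y (by omega)).1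
    have h1 : (M : ℝ) ≤ y := by
      refine le_trans ?_ b5
      rw [le_div_iff₀ hcl]
      have h2 : (M : ℝ) * (cl / Real.log y) ≤ x₀ := (mul_le_mul_of_nonneg_left hV1 hM0).trans hM'
      rw [← mul_div_assoc, div_le_iff₀ hlog] at h2
      exact h2
    exact_mod_cast h1
  have hfin := hy y Y (by omega) hyY (ev g) M (ev_PL g w d hgd hgp) hM' hinj
    (fun m hm m' hm' => ev_size g d C y M hgd hgc hMy (by omega) m m' hm hm') Z A
  have e1 : (Icc 1 Y).filter (fun n : ℕ => N g y M (Z + n) ∈ A) =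
      (Icc 1 Y).filter (fun n : ℕ => Pool.Agent.Q236.ML.cnt (ev g) y M (Z + n) ∈ A) := by
    apply filter_congr
    intro n _
    rw [N_eq]
  have e2 : ∑ n ∈ Icc 1 Y, Poisson (M * V y * 𝔖 g w (Z + (n : ℕ))) A =
      ∑ n ∈ Icc 1 Y, Pool.Agent.Q236.ML.Po (M * Pool.Agent.H373R2.T7.Vz y *
        Pool.Agent.Q236.ML.SS (ev g) w (Z + (n : ℕ))) A := by
    apply sum_congr rfl
    intro n _
    rw [S_eq, V_eq]
    rfl
  rw [e1, e2]
  exact hfin

end Pool.Agent.Results.MP_a1177c_nt.MixedPoisson
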