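import Pool.Agent.Q133.ELFin

/-!
# Products of `k` consecutive values of the Liouville function, for every length `k`

The starting file `AlmostAllLengths` of this problem bounds `S_k` by one half of the trivial bound for almost all
lengths `k`. Here all the lengths `k` are treated: by one half at almost all scales and for the logarithmic averages,
and by `1 - c / k` at every scale `N ≥ K k`.

From the starting files: the two-point sums of the Liouville function with periodic weights at almost all scales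
(`Pool.Agent.Y842.EL`, after Tao and Matomäki, Radziwiłł, Tao), and the number of the sign changes
(`Pool.Agent.H376R2.MR`, after Matomäki and Radziwiłł).
-/

set_option autoImplicit false

namespace Pool.Agent.Results.MP_a14ce1_nt.EveryLength

open Finset

/-- The Liouville function, with real values. -/
noncomputable def lam (n : ℕ) : ℝ := (-1 : ℝ) ^ ArithmeticFunction.cardFactors n

/-- The product `λ(a n + c) λ(a (n + 1) + c) ... λ(a (n + k - 1) + c)` of the values of the Liouville function at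
`k` consecutive terms of a progression. For `a = 1` and `c = 0` it is `λ(n) λ(n + 1) ... λ(n + k - 1)`. -/
noncomputable def prodL (a c k n : ℕ) : ℝ := ∏ j ∈ range k, lam (a * (n + j) + c)

/-- The sum of the products over `1 ≤ n ≤ N`. For `a = 1`, `c = 0` it is `S_k(N)`. -/
noncomputable def S (a c k N : ℕ) : ℝ := ∑ n ∈ Icc 1 N, prodL a c k n

open Classical in
/-- `E` has logarithmic density zero. -/
def LogDensityZero (E : Set ℕ) : Prop := Filter.Tendsto
  (fun X : ℕ => (∑ n ∈ Icc 1 X, if n ∈ E then (1 : ℝ) / n else 0) / Real.log X) Filter.atTop (nhds 0)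

/-- There is one set `E` of scales, of logarithmic density zero, such that the following holds for all the lengths
`k ≥ 1` and all the progressions `a n + c`, `a ≥ 1`, and every `ε > 0`.

1. `|∑_{n ≤ N} b(n) λ(a n + c) ... λ(a (n + k - 1) + c)| ≤ (1/2 + ε) N` for all large `N ∉ E` and all real weights
  `b`, bounded by `1`, of period `q` (for `b = 1`, `a = 1`, `c = 0` the sum is `S_k(N)`).
2. `2 |S_k(N)| + |S_{k-1}(N) + S_{k+1}(N)| ≤ (1 + ε) N` for all large `N ∉ E`.
3. For arbitrary complex weights `g`, bounded by `1`, the sum of the squares of the absolute values of the sums of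
  `g(n)` times the product of length `k`, `k + 1`, `k + 2` at `n`, and times the product of length `k` at `n + 1`, is
  at most `(1 + ε) N ^ 2`, for all large `N ∉ E`.
4. For arbitrary weights `g`, bounded by `1` (for instance the product of length `k`), the sum over the displacements
  `h < H` of `|∑_{n < N} g(n) λ(a (n + h) + c)| ^ 2` is at most `(1 + ε) N ^ 2`, for all large `N ∉ E`. (So at most
  `(1 + ε) / δ ^ 2` of the displacements `h` of the last factor have a sum larger than `δ N`.)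
5. The logarithmic averages satisfy `|∑_{n ≤ X} λ(a n + c) ... λ(a (n + k - 1) + c) / n| ≤ (1/2 + ε) log X` for all
  large `X`, without exceptional scales.

Moreover, at every scale:

6. There are `C > 0` and `K` such that for all `k ≥ 1` and all `N ≥ K k` the product `λ(n) λ(n + 1) ... λ(n + k - 1)`
  takes each of the values `1` and `-1` for at least `C N / k` of the `n ≤ N`; hence `|S_k(N)| ≤ (1 - 2 C / k) N`. -/
theorem result :
    (∃ E : Set ℕ, LogDensityZero E ∧ ∀ k a c : ℕ, 1 ≤ k → 1 ≤ a → ∀ ε : ℝ, 0 < ε →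
      (∀ q : ℕ, 1 ≤ q → ∃ N₀ : ℕ, ∀ N : ℕ, N₀ ≤ N → N ∉ E →
        ∀ b : ℕ → ℝ, (∀ n, |b n| ≤ 1) → (∀ n, b (n + q) = b n) →
          |∑ n ∈ Icc 1 N, b n * prodL a c k n| ≤ (1 / 2 + ε) * N) ∧
      (∃ N₀ : ℕ, ∀ N : ℕ, N₀ ≤ N → N ∉ E →
        2 * |S a c k N| + |S a c (k - 1) N + S a c (k + 1) N| ≤ (1 + ε) * N) ∧
      (∃ N₀ : ℕ, ∀ N : ℕ, N₀ ≤ N → N ∉ E → ∀ g : ℕ → ℂ, (∀ n, ‖g n‖ ≤ 1) →
        ‖∑ n ∈ range N, g n * (prodL a c k n : ℂ)‖ ^ 2 +
        ‖∑ n ∈ range N, g n * (prodL a c (k + 1) n : ℂ)‖ ^ 2 +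
        ‖∑ n ∈ range N, g n * (prodL a c (k + 2) n : ℂ)‖ ^ 2 +
        ‖∑ n ∈ range N, g n * (prodL a c k (n + 1) : ℂ)‖ ^ 2 ≤ (1 + ε) * (N : ℝ) ^ 2) ∧
      (∀ H : ℕ, ∃ N₀ : ℕ, ∀ N : ℕ, N₀ ≤ N → N ∉ E → ∀ g : ℕ → ℂ, (∀ n, ‖g n‖ ≤ 1) →
        ∑ h ∈ range H, ‖∑ n ∈ range N, g n * (lam (a * (n + h) + c) : ℂ)‖ ^ 2 ≤ (1 + ε) * (N : ℝ) ^ 2) ∧
      (∃ X₀ : ℕ, ∀ X : ℕ, X₀ ≤ X →
        |∑ n ∈ Icc 1 X, prodL a c k n / n| ≤ (1 / 2 + ε) * Real.log X)) ∧
    (∃ C : ℝ, 0 < C ∧ ∃ K : ℕ, ∀ k N : ℕ, 1 ≤ k → K * k ≤ N →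
      (∀ σ : ℝ, (σ = 1 ∨ σ = -1) →
        C * N / k ≤ Set.ncard {n : ℕ | 1 ≤ n ∧ n ≤ N ∧ prodL 1 0 k n = σ}) ∧
      |S 1 0 k N| ≤ (1 - 2 * C / k) * N) := by
  have hp : ∀ a c k n, prodL a c k n = Pool.Agent.Q133.EL.pr (Pool.Agent.Q133.EL.xx a c) k n :=
    fun _ _ _ _ => rfl
  have hl : ∀ a c n h, lam (a * (n + h) + c) = Pool.Agent.Q133.EL.xx a c (n + h) :=
    fun _ _ _ _ => rfl
  refine ⟨?_, ?_⟩
  · obtain ⟨E, hE, hG⟩ := Pool.Agent.Q133.EL.two_pt
    have hG' : Pool.Agent.Q133.EL.Good E := hG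
    refine ⟨E, hE, fun k a c hk ha ε hε => ⟨fun q hq => ?_, ?_, ?_, fun H => ?_, ?_⟩⟩
    · exact Pool.Agent.Q133.EL.half_bd hG' k a c q hk ha hq ε hε
    · obtain ⟨k, rfl⟩ : ∃ k', k = k' + 1 := ⟨k - 1, by omega⟩
      exact Pool.Agent.Q133.EL.three_bd hG' k a c ha ε hε
    · exact Pool.Agent.Q133.EL.four_bd hG' k a c hk ha ε hε
    · exact Pool.Agent.Q133.EL.bessel_bd hG' H a c ha ε hε
    · apply Pool.Agent.Q133.EL.log_avg hE _
        (Pool.Agent.Q133.EL.pr_abs (Pool.Agent.Q133.EL.xx_pm a c) k) (1 / 2) (by norm_num) _ ε hε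
      intro δ hδ
      obtain ⟨N₀, h⟩ := Pool.Agent.Q133.EL.half_bd hG' k a c 1 hk ha le_rfl δ hδ
      refine ⟨N₀, fun N hN hNE => ?_⟩
      have := h N hN hNE (fun _ => 1) (fun _ => by simp) (fun _ => rfl)
      simpa using this
  · obtain ⟨C, hC, K, h⟩ := Pool.Agent.Q133.EL.all_scales
    refine ⟨C, hC, K, fun k N hk hN => ?_⟩
    have h1 : ∀ σ : ℝ, (σ = 1 ∨ σ = -1) →
        C * N / k ≤ ((Icc 1 N).filter (fun n => prodL 1 0 k n = σ)).card := fun σ hσ =>
      h k N hk hN σ hσ
    refine ⟨fun σ hσ => ?_, ?_⟩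
    · refine (h1 σ hσ).trans (le_of_eq ?_)
      congr 1
      rw [← Set.ncard_coe_finset]
      congr 1
      ext n
      simp [and_assoc]
    · have hpm : ∀ n, prodL 1 0 k n = 1 ∨ prodL 1 0 k n = -1 :=
        Pool.Agent.Q133.EL.pr_pm (Pool.Agent.Q133.EL.xx_pm 1 0) k
      have e1 := h1 1 (Or.inl rfl)
      have e2 := h1 (-1) (Or.inr rfl)
      have e3 : ((Icc 1 N).filter (fun n => prodL 1 0 k n = 1)).card +
          ((Icc 1 N).filter (fun n => prodL 1 0 k n = -1)).card = N := by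
        have h4 := Finset.card_filter_add_card_filter_not (s := Icc 1 N) (fun n => prodL 1 0 k n = 1)
        have h5 : (Icc 1 N).filter (fun n => ¬ prodL 1 0 k n = 1) =
            (Icc 1 N).filter (fun n => prodL 1 0 k n = -1) := by
          ext n
          simp only [mem_filter]
          constructor
          · rintro ⟨a, b⟩
            exact ⟨a, (hpm n).resolve_left b⟩
          · rintro ⟨a, b⟩
            refine ⟨a, ?_⟩
            rw [b]; norm_num
        rw [h5, Nat.card_Icc] at h4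
        simpa using h4
      have e4 : S 1 0 k N = (((Icc 1 N).filter (fun n => prodL 1 0 k n = 1)).card : ℝ) -
          (((Icc 1 N).filter (fun n => prodL 1 0 k n = -1)).card : ℝ) := by
        unfold S
        have h7 : ∀ n ∈ Icc 1 N, prodL 1 0 k n = (if prodL 1 0 k n = 1 then (1 : ℝ) else 0) -
            (if prodL 1 0 k n = -1 then (1 : ℝ) else 0) := by
          intro n _
          rcases hpm n with h | h
          · rw [h]; norm_num
          · rw [h]; norm_num
        rw [Finset.sum_congr rfl h7, Finset.sum_sub_distrib, Finset.sum_boole, Finset.sum_boole]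
      have e5 : (((Icc 1 N).filter (fun n => prodL 1 0 k n = 1)).card : ℝ) +
          (((Icc 1 N).filter (fun n => prodL 1 0 k n = -1)).card : ℝ) = N := by exact_mod_cast e3
      have e6 : (1 - 2 * C / k) * (N : ℝ) = N - 2 * (C * N / k) := by ring
      rw [e4, e6, abs_le]
      constructor <;> linarith

end Pool.Agent.Results.MP_a14ce1_nt.EveryLength
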