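import Pool.Agent.Q138.GS.Lio

/-!
# Products of consecutive Liouville values with further factors at real dilates

For almost every `α > 0` the sum over `n ≤ N` of `λ(n) λ(n + 1) ⋯ λ(n + m - 1) λ(⌊α n⌋)` is smaller than
`N / (log N) ^ K` for every `K` and every `m`. More generally there may be several further factors
`λ(⌊α_i x_i(n) + β_i⌋)`, where `x_i(n)` is the value of a polynomial or a power `n ^ c`, and the product of the
consecutive values may be replaced by arbitrary weights. So the signs at the dilates are independent of all the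
sign patterns around `n`, along every set of integers.
-/

set_option autoImplicit false

open Finset Filter Topology MeasureTheory
open scoped Classical

namespace Pool.Agent.Results.MP_a14ce1_nt.LiouvilleAtRealDilates

/-- the Liouville function -/
noncomputable def lam (n : ℕ) : ℝ := (-1 : ℝ) ^ ArithmeticFunction.cardFactors n

/-- the sequence of the values of a nonconstant real polynomial with positive leading coefficient, or the
sequence `n ^ c` for a real `c > 0` -/
def Good (x : ℕ → ℝ) : Prop :=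
  (∃ P : Polynomial ℝ, 1 ≤ P.natDegree ∧ 0 < P.leadingCoeff ∧ ∀ n : ℕ, x n = P.eval (n : ℝ)) ∨
    ∃ c : ℝ, 0 < c ∧ ∀ n : ℕ, x n = (n : ℝ) ^ c

/-- the number of elements `n` of `S` with `1 ≤ n ≤ N` -/
noncomputable def count (S : Set ℕ) (N : ℕ) : ℝ := ((Icc 1 N).filter (fun n => n ∈ S)).card

/-- the value at `n` of the polynomial `a X ^ d + e (d - 1) X ^ (d - 1) + ... + e 0` -/
noncomputable def value {d : ℕ} (a : ℝ) (e : Fin d → ℝ) (n : ℕ) : ℝ :=
  a * (n : ℝ) ^ d + ∑ j, e j * (n : ℝ) ^ (j : ℕ)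

/-- `|s N|` is `o (N / (log N) ^ K)` for every `K` -/
def Small (s : ℕ → ℂ) : Prop := ∀ K : ℕ, Tendsto (fun N : ℕ => (Real.log N) ^ K / N * ‖s N‖) atTop (𝓝 0)

theorem Good.sm {x : ℕ → ℝ} (h : Good x) : ∃ c : ℝ, Pool.Agent.Q138.GS.Sm c x := by
  rcases h with ⟨P, h1, h2, h3⟩ | ⟨c, h1, h2⟩
  · have e : x = fun n : ℕ => P.eval (n : ℝ) := funext h3
    rw [e]
    exact ⟨_, Pool.Agent.Q138.GS.sm_pol h1 h2⟩
  · have e : x = fun n : ℕ => (n : ℝ) ^ c := funext h2
    rw [e]
    exact ⟨_, Pool.Agent.Q138.GS.sm_rpow h1⟩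

theorem lam_eq (n : ℕ) : ((lam n : ℝ) : ℂ) = Pool.Agent.Y957.VK.liou n := Pool.Agent.Q138.GS.lamR_eq n

theorem result :
    -- arbitrary weights
    (∀ (k : ℕ) (x : Fin (k + 1) → ℕ → ℝ) (β : Fin (k + 1) → ℝ), (∀ i, Good (x i)) →
      ∀ (g : ℕ → ℂ) (C : ℝ) (B : ℕ), (∀ n : ℕ, 1 ≤ n → ‖g n‖ ≤ C * (Real.log (n + 3)) ^ B) →
      ∀ᵐ α : Fin (k + 1) → ℝ, (∀ i, 0 < α i) →
        Small fun N => ∑ n ∈ Icc 1 N, g n * ((∏ i, lam ⌊α i * x i n + β i⌋₊ : ℝ) : ℂ)) ∧
    -- products of shifted Liouville values and of values at the dilates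
    (∀ (k : ℕ) (x : Fin (k + 1) → ℕ → ℝ) (β : Fin (k + 1) → ℝ), (∀ i, Good (x i)) →
      ∀ᵐ α : Fin (k + 1) → ℝ, (∀ i, 0 < α i) → ∀ (H : Finset ℕ) (I : Finset (Fin (k + 1))), I.Nonempty →
        Small fun N => ∑ n ∈ Icc 1 N,
          (((∏ h ∈ H, lam (n + h)) * ∏ i ∈ I, lam ⌊α i * x i n + β i⌋₊ : ℝ) : ℂ)) ∧
    -- all sign patterns at the dilates have the same frequency along an arbitrary set
    (∀ (k : ℕ) (x : Fin (k + 1) → ℕ → ℝ) (β : Fin (k + 1) → ℝ), (∀ i, Good (x i)) → ∀ S : Set ℕ,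
      ∀ᵐ α : Fin (k + 1) → ℝ, (∀ i, 0 < α i) → ∀ η : Fin (k + 1) → ℝ, (∀ i, η i = 1 ∨ η i = -1) →
        Small fun N => ((count {n | n ∈ S ∧ ∀ i, lam ⌊α i * x i n + β i⌋₊ = η i} N -
          count S N / 2 ^ (k + 1) : ℝ) : ℂ)) ∧
    -- almost all systems of real polynomials
    (∀ (k : ℕ) (d : Fin (k + 1) → ℕ), (∀ i, 1 ≤ d i) →
      ∀ (g : ℕ → ℂ) (C : ℝ) (B : ℕ), (∀ n : ℕ, 1 ≤ n → ‖g n‖ ≤ C * (Real.log (n + 3)) ^ B) →
      ∀ᵐ f : (Fin (k + 1) → ℝ) × (∀ i, Fin (d i) → ℝ), (∀ i, 0 < f.1 i) →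
        Small fun N => ∑ n ∈ Icc 1 N, g n * ((∏ i, lam ⌊value (f.1 i) (f.2 i) n⌋₊ : ℝ) : ℂ)) := by
  refine ⟨fun k x β hx g C B hg => ?_, fun k x β hx => ?_, fun k x β hx S => ?_, fun k d hd g C B hg => ?_⟩
  · choose c hc using fun i => (hx i).sm
    have h := Pool.Agent.Q138.GS.gen_sav k c x hc β (fun _ => Pool.Agent.Y957.VK.liou)
      (fun _ => Pool.Agent.Y957.VK.liou) (fun _ => 0) (fun _ n => (zero_add _).symm)
      (fun _ n => Pool.Agent.Q138.GS.liou_le n) (fun _ n => Pool.Agent.Q138.GS.liou_le n)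
      (fun _ => Pool.Agent.Y957.VK.neg_liou) g C B hg
    unfold Pool.Agent.Q138.GS.pm at h
    rw [ae_restrict_iff' (Pool.Agent.Q138.GS.pos_meas _)] at h
    filter_upwards [h] with α hα hpos K
    refine (hα hpos K).congr fun N => ?_
    congr 2
    refine sum_congr rfl fun n _ => ?_
    push_cast
    simp only [lam_eq, prod_const, card_univ, Fintype.card_fin]
    rw [zero_pow (by omega), sub_zero]
  · choose c hc using fun i => (hx i).sm
    have h : ∀ (H : Finset ℕ) (I : Finset (Fin (k + 1))), I.Nonempty →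
        ∀ᵐ α : Fin (k + 1) → ℝ, (∀ i, 0 < α i) →
        Small fun N => ∑ n ∈ Icc 1 N,
          (((∏ h ∈ H, lam (n + h)) * ∏ i ∈ I, lam ⌊α i * x i n + β i⌋₊ : ℝ) : ℂ) := by
      intro H I hI
      have h := Pool.Agent.Q138.GS.gen_sav k c x hc β (Pool.Agent.Q138.GS.FI k I)
        (Pool.Agent.Q138.GS.fI k I) (Pool.Agent.Q138.GS.cI k I) (Pool.Agent.Q138.GS.FI_eq k I)
        (Pool.Agent.Q138.GS.FI_le k I) (Pool.Agent.Q138.GS.fI_le k I) (Pool.Agent.Q138.GS.fI_neg k I)
        (fun n => ((∏ h ∈ H, lam (n + h) : ℝ) : ℂ)) 1 0 (fun n _ => by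
          rw [Complex.norm_real, Real.norm_eq_abs, abs_prod]
          have : ∏ h ∈ H, |lam (n + h)| = 1 := prod_eq_one fun h _ => by
            unfold lam
            rw [abs_pow, abs_neg, abs_one, one_pow]
          rw [this]
          simp)
      unfold Pool.Agent.Q138.GS.pm at h
      rw [ae_restrict_iff' (Pool.Agent.Q138.GS.pos_meas _)] at h
      filter_upwards [h] with α hα hpos K
      refine (hα hpos K).congr fun N => ?_
      congr 2
      refine sum_congr rfl fun n _ => ?_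
      beta_reduce
      rw [Pool.Agent.Q138.GS.cI_prod k hI, sub_zero, Pool.Agent.Q138.GS.FI_prod]
      push_cast
      simp only [lam_eq]
    have h2 : ∀ᵐ α : Fin (k + 1) → ℝ, ∀ (H : Finset ℕ) (I : Finset (Fin (k + 1))), I.Nonempty → (∀ i, 0 < α i) →
        Small fun N => ∑ n ∈ Icc 1 N,
          (((∏ h ∈ H, lam (n + h)) * ∏ i ∈ I, lam ⌊α i * x i n + β i⌋₊ : ℝ) : ℂ) := by
      rw [ae_all_iff]
      intro H
      rw [ae_all_iff]
      intro I
      rw [ae_all_iff]
      intro hI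
      exact h H I hI
    filter_upwards [h2] with α hα hpos H I hI
    exact hα H I hI hpos
  · choose c hc using fun i => (hx i).sm
    have h : ∀ η : Fin (k + 1) → Bool, ∀ᵐ α : Fin (k + 1) → ℝ, (∀ i, 0 < α i) →
        Small fun N => ((count {n | n ∈ S ∧ ∀ i, lam ⌊α i * x i n + β i⌋₊ = if η i then 1 else -1} N -
          count S N / 2 ^ (k + 1) : ℝ) : ℂ) := by
      intro η
      have hη : ∀ i, (if η i then (1 : ℝ) else -1) = 1 ∨ (if η i then (1 : ℝ) else -1) = -1 := by
        intro i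
        by_cases hb : η i <;> simp [hb]
      have h := Pool.Agent.Q138.GS.gen_sav k c x hc β
        (fun i => Pool.Agent.Q138.GS.FP (if η i then 1 else -1))
        (fun i n => (((if η i then (1 : ℝ) else -1) / 2 : ℝ) : ℂ) * Pool.Agent.Y957.VK.liou n)
        (fun _ => 1 / 2) (fun i n => rfl) (fun i n => Pool.Agent.Q138.GS.FP_le (hη i) n)
        (fun i n => Pool.Agent.Q138.GS.fP_le (hη i) n)
        (fun i => Pool.Agent.Q138.GS.neg_smul Pool.Agent.Y957.VK.neg_liou _)
        (fun n => if n ∈ S then 1 else 0) 1 0 (fun n _ => by split_ifs <;> simp)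
      unfold Pool.Agent.Q138.GS.pm at h
      rw [ae_restrict_iff' (Pool.Agent.Q138.GS.pos_meas _)] at h
      filter_upwards [h] with α hα hpos K
      refine (hα hpos K).congr fun N => ?_
      congr 2
      have e1 : ∀ n : ℕ, ∏ i, Pool.Agent.Q138.GS.FP (if η i then 1 else -1) ⌊α i * x i n + β i⌋₊ =
          if ∀ i, lam ⌊α i * x i n + β i⌋₊ = (if η i then (1 : ℝ) else -1) then (1 : ℂ) else 0 := by
        intro n
        simp only [Pool.Agent.Q138.GS.FP_eq (hη _)]
        have e2 : ∀ i, Pool.Agent.Q138.GS.lamR ⌊α i * x i n + β i⌋₊ = lam ⌊α i * x i n + β i⌋₊ := fun _ => rfl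
        simp only [e2]
        by_cases hall : ∀ i, lam ⌊α i * x i n + β i⌋₊ = (if η i then (1 : ℝ) else -1)
        · rw [if_pos hall]
          exact prod_eq_one fun i _ => if_pos (hall i)
        · rw [if_neg hall]
          rw [not_forall] at hall
          obtain ⟨i, hi⟩ := hall
          exact prod_eq_zero (mem_univ i) (if_neg hi)
      beta_reduce
      unfold count
      rw [card_filter, card_filter]
      push_cast
      rw [Finset.sum_div, ← sum_sub_distrib]
      refine sum_congr rfl fun n _ => ?_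
      rw [e1]
      simp only [prod_const, card_univ, Fintype.card_fin, Set.mem_ofPred_eq]
      by_cases hs : n ∈ S
      · by_cases hall : ∀ i, lam ⌊α i * x i n + β i⌋₊ = (if η i then (1 : ℝ) else -1)
        · rw [if_pos hs, if_pos hall, if_pos ⟨hs, hall⟩, if_pos hs]
          simp
        · rw [if_pos hs, if_neg hall, if_neg (fun h => hall h.2), if_pos hs]
          simp
      · simp [hs]
    have h2 := ae_all_iff.2 h
    filter_upwards [h2] with α hα hpos η hη
    have h3 := hα (fun i => decide (η i = 1)) hpos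
    have e : ∀ i, (if decide (η i = 1) = true then (1 : ℝ) else -1) = η i := by
      intro i
      rcases hη i with h | h
      · simp [h]
      · rw [h]
        norm_num
    simp only [e] at h3
    exact h3
  · have h := Pool.Agent.Q138.GS.poly_sav k d hd (fun _ => Pool.Agent.Y957.VK.liou)
      (fun _ => Pool.Agent.Y957.VK.liou) (fun _ => 0) (fun _ n => (zero_add _).symm)
      (fun _ n => Pool.Agent.Q138.GS.liou_le n) (fun _ n => Pool.Agent.Q138.GS.liou_le n)
      (fun _ => Pool.Agent.Y957.VK.neg_liou) g C B hg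
    filter_upwards [h] with f hf hpos K
    refine (hf hpos K).congr fun N => ?_
    congr 2
    refine sum_congr rfl fun n _ => ?_
    push_cast
    simp only [lam_eq, prod_const, card_univ, Fintype.card_fin]
    rw [zero_pow (by omega), sub_zero]
    rfl

end Pool.Agent.Results.MP_a14ce1_nt.LiouvilleAtRealDilates
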