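import Pool.Agent.Q132.CS.D
import Pool.Agent.Q132.CS.E
import Pool.Agent.Q132.CS.G

set_option autoImplicit false

/-!
# Chowla's conjecture follows from its case of widely spaced shifts

Let `f` be completely multiplicative with values `± 1`, for instance the Liouville function. If all
correlations of `f` with shifts in a set `S` vanish, then all correlations of `f` vanish, in particular
those of consecutive values, as soon as `S` contains progressions of difference `d` and length `L` with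
`L / log (2 d)` unbounded. There are arbitrarily sparse sets `S` of this kind whose gaps tend to infinity.
If `L / d` is unbounded, then the correlations of order `2 k` with shifts in `S` control all correlations
of order `k`. It is enough to know the correlations along a sequence of scales with bounded ratios.
For general sign sequences the only sets of shifts that suffice are those with arbitrarily long
intervals.
-/

open Filter Topology Finset

namespace Pool.Agent.Results.MP_a14ce1_nt.WideShiftsSuffice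

/-- The correlations of order `k` of `f` with shifts in `S` vanish along the scales in `𝒩`. -/
def Order (f : ℕ → ℝ) (S 𝒩 : Set ℕ) (k : ℕ) : Prop :=
  ∀ T : Finset ℕ, (T : Set ℕ) ⊆ S → T.card = k →
    Tendsto (fun N : ℕ => (∑ n ∈ Finset.Icc 1 N, ∏ h ∈ T, f (n + h)) / (N : ℝ)) (atTop ⊓ 𝓟 𝒩) (𝓝 0)

/-- The scales in `𝒩` have bounded ratios. -/
def Scales (𝒩 : Set ℕ) : Prop :=
  ∃ C : ℝ, ∀ x : ℕ, 1 ≤ x → ∃ N ∈ 𝒩, x ≤ N ∧ (N : ℝ) ≤ C * x

/-- `S` contains progressions of difference `d` and length `L` with `L / w d` unbounded. -/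
def Long (w : ℕ → ℝ) (S : Set ℕ) : Prop :=
  ∀ K : ℕ, ∃ t d L : ℕ, 0 < d ∧ K * w d ≤ L ∧ ∀ i < L, t + d * i ∈ S

/-- completely multiplicative with values `± 1` -/
def MultSign (f : ℕ → ℝ) : Prop :=
  (∀ n, 0 < n → f n = 1 ∨ f n = -1) ∧ ∀ m n, 0 < m → 0 < n → f (m * n) = f m * f n

/-- the Liouville function -/
noncomputable def liouville (n : ℕ) : ℝ := (-1 : ℝ) ^ ArithmeticFunction.cardFactors n

lemma liouville_multSign : MultSign liouville := by
  refine ⟨fun n _ => neg_one_pow_eq_or ℝ _, fun m n hm hn => ?_⟩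
  unfold liouville
  rw [ArithmeticFunction.cardFactors_mul hm.ne' hn.ne', pow_add]

/-- the extension to the integers -/
noncomputable def ext (f : ℕ → ℝ) (m : ℤ) : ℝ := if 0 < m then f m.toNat else 0

lemma ext_cast (f : ℕ → ℝ) {n : ℕ} (hn : 0 < n) : ext f (n : ℤ) = f n := by
  unfold ext
  rw [if_pos (by exact_mod_cast hn), Int.toNat_natCast]

lemma ext_tern {f : ℕ → ℝ} (hf : ∀ n, 0 < n → f n = 1 ∨ f n = -1) : Q132.CS.Tern (ext f) := by
  intro m
  unfold ext
  split_ifs with h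
  · rcases hf m.toNat (by omega) with h' | h'
    · exact Or.inr (Or.inr h')
    · exact Or.inl h'
  · exact Or.inr (Or.inl rfl)

/-- the set of shifts as a set of integers -/
def castSet (S : Set ℕ) : Set ℤ := {z | ∃ s ∈ S, z = (s : ℤ)}

lemma van_of_order {f : ℕ → ℝ} (hf : ∀ n, 0 < n → f n = 1 ∨ f n = -1) {S 𝒩 : Set ℕ} {Q : ℕ → Prop}
    (h : ∀ k, 1 ≤ k → Q k → Order f S 𝒩 k) :
    Q132.CS.Van (ext f) (atTop ⊓ 𝓟 𝒩) (castSet S) Q := by
  classical
  intro T U hTS hUS _ hT hQ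
  have hT0 : ∀ z ∈ T, 0 ≤ z := by
    intro z hz
    obtain ⟨s, _, rfl⟩ := hTS (Finset.mem_coe.2 hz)
    positivity
  have hU0 : ∀ z ∈ U, 0 ≤ z := by
    intro z hz
    obtain ⟨s, _, rfl⟩ := hUS (Finset.mem_coe.2 hz)
    positivity
  have hinj : Set.InjOn Int.toNat (T : Set ℤ) := by
    intro a ha b hb hab
    have h1 := hT0 a (Finset.mem_coe.1 ha)
    have h2 := hT0 b (Finset.mem_coe.1 hb)
    omega
  have h1 := h T.card (Finset.card_pos.2 hT) hQ (T.image Int.toNat) (by
    intro s hs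
    obtain ⟨z, hz, rfl⟩ := Finset.mem_image.1 (Finset.mem_coe.1 hs)
    obtain ⟨s, hs, rfl⟩ := hTS (Finset.mem_coe.2 hz)
    rwa [Int.toNat_natCast]) (Finset.card_image_of_injOn hinj)
  refine h1.congr fun N => ?_
  unfold Q132.CS.cor
  congr 1
  refine Finset.sum_congr rfl fun n hn => ?_
  have hn1 := (Finset.mem_Icc.1 hn).1
  have hval : ∀ z : ℤ, 0 ≤ z → ext f ((n : ℤ) + z) = f (n + z.toNat) := by
    intro z hz
    have h2 : (n : ℤ) + z = ((n + z.toNat : ℕ) : ℤ) := by
      push_cast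
      rw [Int.toNat_of_nonneg hz]
    rw [h2, ext_cast f (by omega)]
  have h2 : ∏ z ∈ U, ext f ((n : ℤ) + z) ^ 2 = 1 := by
    refine Finset.prod_eq_one fun z hz => ?_
    rw [hval z (hU0 z hz)]
    rcases hf (n + z.toNat) (by omega) with h' | h' <;> rw [h'] <;> norm_num
  rw [h2, mul_one, Finset.prod_image hinj]
  exact Finset.prod_congr rfl fun z hz => (hval z (hT0 z hz)).symm

lemma rich_of_long {f : ℕ → ℝ} (hf : MultSign f) {S : Set ℕ} {w : ℕ → ℝ} (h : Long w S) :
    Q132.CS.Rich w (ext f) (castSet S) := by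
  intro K _
  obtain ⟨t, d, L, hd, hL, hS⟩ := h K
  refine ⟨t, d, L, f d, 0, hd, hf.1 d hd, hL, fun R => ?_, fun i hi => ⟨t + d * i, hS i hi, by push_cast; rfl⟩⟩
  have h1 : (Finset.Icc 1 R).filter (fun x : ℕ => f d * ext f ((d : ℤ) * x) ≠ ext f x) = ∅ := by
    refine Finset.filter_eq_empty_iff.2 fun x hx => ?_
    rw [not_not]
    have hx1 := (Finset.mem_Icc.1 hx).1
    have h2 : (d : ℤ) * x = ((d * x : ℕ) : ℤ) := by push_cast; rfl
    rw [h2, ext_cast f (Nat.mul_pos hd hx1), ext_cast f hx1, hf.2 d x hd hx1, ← mul_assoc]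
    rcases hf.1 d hd with h' | h' <;> rw [h'] <;> norm_num
  rw [h1]
  simp only [Finset.card_empty, Nat.cast_zero]
  positivity

lemma order_of_tendsto {f : ℕ → ℝ} {k : ℕ} (hk : 1 ≤ k)
    (h : ∀ T H : Finset ℤ, T ⊆ H → T.Nonempty → T.card = k →
      Tendsto (fun R : ℕ => (∑ m ∈ Finset.Icc 1 R, Q132.CS.mon (ext f) T H (m : ℤ) 0 1) / (R : ℝ)) atTop (𝓝 0)) :
    Order f Set.univ Set.univ k := by
  intro T _ hT
  rw [Filter.principal_univ, inf_top_eq]
  set T' : Finset ℤ := T.map Nat.castEmbedding with hT'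
  have h1 := h T' T' subset_rfl ((Finset.card_pos.1 (by omega)).map) (by rw [hT', Finset.card_map, hT])
  refine h1.congr fun N => ?_
  congr 1
  refine Finset.sum_congr rfl fun n hn => ?_
  have hn1 := (Finset.mem_Icc.1 hn).1
  unfold Q132.CS.mon
  rw [Finset.prod_congr rfl fun z hz => by rw [if_pos hz, pow_one], hT', Finset.prod_map]
  refine Finset.prod_congr rfl fun s _ => ?_
  have h2 : (n : ℤ) + (0 + 1 * (Nat.castEmbedding s : ℤ)) = ((n + s : ℕ) : ℤ) := by
    simp
  rw [h2, ext_cast f (by omega)]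

lemma suffices_of_runs {f : ℕ → ℝ} (hf : ∀ n, f n = 1 ∨ f n = -1) {S : Set ℕ}
    (hS : ∀ g : ℕ, ∃ x, ∀ i < g, x + i ∈ S) {k : ℕ} (h : Order f S Set.univ k) :
    Order f Set.univ Set.univ k := by
  intro T _ hT
  obtain ⟨x, hx⟩ := hS (∑ s ∈ T, s + 1)
  have h1 := h (T.map (addLeftEmbedding x)) (by
    intro z hz
    obtain ⟨s, hs, rfl⟩ := Finset.mem_map.1 (Finset.mem_coe.1 hz)
    have h2 : s ≤ ∑ s ∈ T, s := Finset.single_le_sum (f := fun s : ℕ => s) (fun _ _ => Nat.zero_le _) hs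
    exact hx s (by omega)) (by rw [Finset.card_map, hT])
  rw [Filter.principal_univ, inf_top_eq] at h1 ⊢
  have h2 : Tendsto (fun N : ℕ => (2 * (x : ℝ)) / (N : ℝ)) atTop (𝓝 0) := tendsto_const_div_atTop_nhds_zero_nat _
  refine tendsto_of_tendsto_of_dist h1 (squeeze_zero (fun _ => dist_nonneg) (fun N => ?_) h2)
  rw [Real.dist_eq, ← sub_div, abs_div, abs_of_nonneg (show (0 : ℝ) ≤ N by positivity)]
  refine div_le_div_of_nonneg_right ?_ (by positivity)
  have h3 := Q132.CS.sum_shift_le (fun m => ∏ s ∈ T, f (m.toNat + s)) (fun m => by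
    rw [Finset.abs_prod]
    refine Finset.prod_le_one (fun _ _ => abs_nonneg _) fun s _ => ?_
    rcases hf (m.toNat + s) with h' | h' <;> rw [h'] <;> norm_num) N x
  rw [abs_sub_comm]
  refine le_trans (le_of_eq ?_) h3
  congr 2
  refine Finset.sum_congr rfl fun n _ => ?_
  rw [Finset.prod_map]
  refine Finset.prod_congr rfl fun s _ => ?_
  have h4 : ((n : ℤ) + (x : ℤ)).toNat = n + x := by
    rw [← Nat.cast_add, Int.toNat_natCast]
  rw [h4]
  congr 1
  simp only [addLeftEmbedding_apply]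
  ring

/-- **Chowla's conjecture follows from its case of widely spaced shifts.** -/
theorem result :
    -- completely multiplicative signs: order by order, and all orders
    (∀ S 𝒩 : Set ℕ, Scales 𝒩 → ∀ f : ℕ → ℝ, MultSign f →
      (Long (fun d => d) S → ∀ k, 1 ≤ k → Order f S 𝒩 (2 * k) → Order f Set.univ Set.univ k) ∧
      (Long (fun d => Real.log (2 * d)) S → (∀ k, 1 ≤ k → Order f S 𝒩 k) →
        ∀ k, 1 ≤ k → Order f Set.univ Set.univ k)) ∧
    -- well separated shifts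
    (∀ (D : ℕ) (𝒩 : Set ℕ), Scales 𝒩 → ∀ f : ℕ → ℝ, MultSign f → ∀ k, 1 ≤ k →
      (∀ T : Finset ℕ, (∀ s ∈ T, ∀ s' ∈ T, s < s' → s + D ≤ s') → T.card = 2 * k →
        Tendsto (fun N : ℕ => (∑ n ∈ Finset.Icc 1 N, ∏ h ∈ T, f (n + h)) / (N : ℝ))
          (atTop ⊓ 𝓟 𝒩) (𝓝 0)) → Order f Set.univ Set.univ k) ∧
    -- consecutive values of the Liouville function
    (∀ S 𝒩 : Set ℕ, Scales 𝒩 → Long (fun d => Real.log (2 * d)) S → (∀ k, 1 ≤ k → Order liouville S 𝒩 k) →
      ∀ k : ℕ, 0 < k → Asymptotics.IsLittleO atTop (fun N : ℕ => ∑ n ∈ Finset.Icc 1 N,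
        ∏ i ∈ Finset.range k, ((-1 : ℝ) ^ ArithmeticFunction.cardFactors (n + i))) (fun N : ℕ => (N : ℝ))) ∧
    (∀ S 𝒩 : Set ℕ, Scales 𝒩 → Long (fun d => d) S → ∀ k : ℕ, 0 < k → Order liouville S 𝒩 (2 * k) →
      Asymptotics.IsLittleO atTop (fun N : ℕ => ∑ n ∈ Finset.Icc 1 N,
        ∏ i ∈ Finset.range k, ((-1 : ℝ) ^ ArithmeticFunction.cardFactors (n + i))) (fun N : ℕ => (N : ℝ))) ∧
    -- arbitrarily sparse sets of shifts with gaps tending to infinity
    (∀ φ : ℕ → ℕ, ∃ S : Set ℕ, (∀ j, {s | s ∈ S ∧ s < φ j}.Finite ∧ {s | s ∈ S ∧ s < φ j}.ncard ≤ j) ∧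
      (∀ D : ℕ, {s | s ∈ S ∧ ∃ s' ∈ S, s < s' ∧ s' ≤ s + D}.Finite) ∧
      Long (fun d => d) S ∧ Long (fun d => Real.log (2 * d)) S) ∧
    -- general sign sequences
    (∀ S : Set ℕ, (∀ f : ℕ → ℝ, (∀ n, f n = 1 ∨ f n = -1) → (∀ k, 1 ≤ k → Order f S Set.univ k) →
      ∀ k, 1 ≤ k → Order f Set.univ Set.univ k) ↔ ∀ g : ℕ, ∃ x, ∀ i < g, x + i ∈ S) := by
  have hA : ∀ S 𝒩 : Set ℕ, Scales 𝒩 → ∀ f : ℕ → ℝ, MultSign f →
      (Long (fun d => d) S → ∀ k, 1 ≤ k → Order f S 𝒩 (2 * k) → Order f Set.univ Set.univ k) ∧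
      (Long (fun d => Real.log (2 * d)) S → (∀ k, 1 ≤ k → Order f S 𝒩 k) →
        ∀ k, 1 ≤ k → Order f Set.univ Set.univ k) := by
    intro S 𝒩 h𝒩 f hf
    refine ⟨fun hS k hk h => ?_, fun hS h k hk => ?_⟩
    · refine order_of_tendsto hk fun T H hTH hT hTk => ?_
      exact Q132.CS.order_by_order (ext_tern hf.1) h𝒩
        (van_of_order hf.1 (Q := fun c => c = 2 * k) fun k' _ hk' => by rw [hk']; exact h)
        (rich_of_long hf hS) T H hTH hT hTk
    · refine order_of_tendsto hk fun T H hTH hT _ => ?_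
      exact Q132.CS.all_orders (ext_tern hf.1) h𝒩
        (van_of_order hf.1 (Q := fun _ => True) fun k' hk' _ => h k' hk')
        (rich_of_long hf hS) T H hTH hT
  have hB : ∀ k : ℕ, 0 < k → Order liouville Set.univ Set.univ k →
      Asymptotics.IsLittleO atTop (fun N : ℕ => ∑ n ∈ Finset.Icc 1 N,
        ∏ i ∈ Finset.range k, ((-1 : ℝ) ^ ArithmeticFunction.cardFactors (n + i))) (fun N : ℕ => (N : ℝ)) := by
    intro k _ h
    have h1 := h (Finset.range k) (Set.subset_univ _) (Finset.card_range k)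
    rw [Filter.principal_univ, inf_top_eq] at h1
    rw [Asymptotics.isLittleO_iff_tendsto']
    · exact h1
    · filter_upwards [eventually_ge_atTop 1] with N hN h0
      have : (0 : ℝ) < N := by exact_mod_cast hN
      exact absurd h0 this.ne'
  have hC : ∀ (D : ℕ) (𝒩 : Set ℕ), Scales 𝒩 → ∀ f : ℕ → ℝ, MultSign f → ∀ k, 1 ≤ k →
      (∀ T : Finset ℕ, (∀ s ∈ T, ∀ s' ∈ T, s < s' → s + D ≤ s') → T.card = 2 * k →
        Tendsto (fun N : ℕ => (∑ n ∈ Finset.Icc 1 N, ∏ h ∈ T, f (n + h)) / (N : ℝ))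
          (atTop ⊓ 𝓟 𝒩) (𝓝 0)) → Order f Set.univ Set.univ k := by
    intro D 𝒩 h𝒩 f hf k hk h
    refine (hA {n | (D + 1) ∣ n} 𝒩 h𝒩 f hf).1 (fun K => ⟨0, D + 1, K * (D + 1), by omega, by push_cast; rfl,
      fun i _ => by rw [zero_add]; exact Dvd.intro _ rfl⟩) k hk fun T hTS hT => h T (fun s hs s' hs' hlt => ?_) hT
    obtain ⟨a, ha⟩ : (D + 1) ∣ s := hTS (Finset.mem_coe.2 hs)
    obtain ⟨b, hb⟩ : (D + 1) ∣ s' := hTS (Finset.mem_coe.2 hs')
    have h1 : a < b := by
      by_contra hc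
      push Not at hc
      have := Nat.mul_le_mul_left (D + 1) hc
      omega
    have h2 : (D + 1) * (a + 1) ≤ (D + 1) * b := Nat.mul_le_mul_left _ h1
    rw [mul_add, mul_one] at h2
    omega
  refine ⟨hA, hC, fun S 𝒩 h𝒩 hS h k hk => hB k hk ((hA S 𝒩 h𝒩 _ liouville_multSign).2 hS h k hk),
    fun S 𝒩 h𝒩 hS k hk h => hB k hk ((hA S 𝒩 h𝒩 _ liouville_multSign).1 hS k hk h), fun φ => ?_, fun S => ?_⟩
  · set d : ℕ → ℕ := fun K => K + 1 with hd
    set L : ℕ → ℕ := fun K => K * (2 * d K) with hL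
    refine ⟨Q132.CS.SS φ d L, Q132.CS.card_le φ d L, Q132.CS.gaps φ d L fun K => le_rfl,
      fun K => ⟨Q132.CS.tt φ d L K, d K, L K, by simp [hd], ?_, fun i hi => ⟨K, i, hi, rfl⟩⟩,
      fun K => ⟨Q132.CS.tt φ d L K, d K, L K, by simp [hd], ?_, fun i hi => ⟨K, i, hi, rfl⟩⟩⟩
    · simp only [hL]
      push_cast
      refine mul_le_mul_of_nonneg_left ?_ (by positivity)
      have : (0 : ℝ) ≤ (d K : ℝ) := by positivity
      linarith
    · simp only [hL]
      push_cast
      refine mul_le_mul_of_nonneg_left ?_ (by positivity)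
      have h1 : (0 : ℝ) < 2 * (d K : ℝ) := by
        have : 0 < d K := by simp [hd]
        positivity
      have := Real.log_le_sub_one_of_pos h1
      linarith
  · constructor
    · intro h g
      by_contra hc
      have hg : 0 < g := by
        rcases Nat.eq_zero_or_pos g with h0 | h0
        · exact absurd ⟨0, fun i hi => by omega⟩ hc
        · exact h0
      obtain ⟨f, hf, hfS, hfg⟩ := Q132.CS.not_suffice S g hg hc
      have h1 := h f hf (fun k hk T hTS hT => by
        rw [Filter.principal_univ, inf_top_eq]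
        exact hfS T hTS (Finset.card_pos.1 (by omega))) g hg (Finset.range g) (Set.subset_univ _)
        (Finset.card_range g)
      rw [Filter.principal_univ, inf_top_eq] at h1
      exact hfg h1
    · intro hS f hf h k hk
      exact suffices_of_runs hf hS (h k hk)

end Pool.Agent.Results.MP_a14ce1_nt.WideShiftsSuffice
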