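import Mathlib
import Pool.Agent.Q210.Gal.Main

/-!
Failure of the Galvin property for fine normal ultrafilters on `P_κ(κ⁺)`.

The setting is the one of the problem file: `κ` is uncountable, `X` is a set of size `κ⁺`, and
`U` is a `κ`-complete fine normal ultrafilter on `P_κ(X) = {x ⊆ X : |x| < κ}`.
-/

open Cardinal Set

namespace Pool.Agent.Results.MP_a3089e_lc.NonGalvinSucc

universe u

/-- `P_κ(X)`, the set of subsets of `X` of size less than `κ`. -/
abbrev PK (κ : Cardinal.{u}) (X : Type u) : Type u := {x : Set X // #x < κ}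

/-- `U` is a fine normal ultrafilter on `P_κ(X)`: it is `κ`-complete, fine, and every function
which is regressive on a set in `U` is constant on a set in `U`. -/
structure FineNormal {κ : Cardinal.{u}} {X : Type u} (U : Ultrafilter (PK κ X)) : Prop where
  complete : ∀ S : Set (Set (PK κ X)), #S < κ → (∀ s ∈ S, s ∈ U) → ⋂₀ S ∈ U
  fine : ∀ a : X, {x : PK κ X | a ∈ x.1} ∈ U
  normal : ∀ f : PK κ X → X, {x : PK κ X | f x ∈ x.1} ∈ U →
    ∃ a : X, {x : PK κ X | f x = a} ∈ U

/-- The Galvin property `Gal(U, μ, θ)`: every family of `θ` distinct members of `U` has a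
subfamily of size `μ` whose intersection is in `U`. -/
def Gal {α : Type u} (U : Ultrafilter α) (μ θ : Cardinal.{u}) : Prop :=
  ∀ S : Set (Set α), (∀ s ∈ S, s ∈ U) → #S = θ → ∃ T ⊆ S, #T = μ ∧ ⋂₀ T ∈ U

/-- A family `B` of subsets of the cardinal `κ⁺` is thin if for every `b < κ⁺` its members have
at most `κ⁺` different traces `A ∩ b` on `b`. (If `2 ^ κ = κ⁺`, then every family is thin.) -/
def Thin {κ : Cardinal.{u}} (B : Set (Set (Order.succ κ).ord.ToType)) : Prop :=
  ∀ b : (Order.succ κ).ord.ToType, #((fun A => A ∩ Set.Iio b) '' B) ≤ Order.succ κ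

/-- Let `U` be a fine normal ultrafilter on `P_κ(κ⁺)`. If `2 ^ κ = κ⁺`, then
`Gal(U, κ, 2 ^ κ⁺)` fails. More generally, with no hypothesis on cardinal arithmetic,
`Gal(U, κ, |B|)` fails for every thin family `B` of at least `κ⁺` subsets of `κ⁺`, so
`Gal(U, κ, 2 ^ κ⁺)` fails as soon as some thin family has size `2 ^ κ⁺`. -/
theorem result (κ : Cardinal.{u}) (X : Type u) (hκ : ℵ₀ < κ) (hX : #X = Order.succ κ)
    (U : Ultrafilter (PK κ X)) (hU : FineNormal U) :
    (2 ^ κ = Order.succ κ → ¬ Gal U κ (2 ^ Order.succ κ)) ∧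
    (∀ B : Set (Set (Order.succ κ).ord.ToType), Order.succ κ ≤ #B → Thin B →
      ¬ Gal U κ #B) := by
  have key : ∀ B : Set (Set (Order.succ κ).ord.ToType), Order.succ κ ≤ #B → Thin B →
      ¬ Gal U κ #B := by
    intro B hB hB2 hGal
    obtain ⟨S, hS, hSB, hT⟩ := Q210.Gal.main hκ hX U hU.complete hU.fine hU.normal B hB hB2
    obtain ⟨T, hTS, hTκ, hTU⟩ := hGal S hS hSB
    exact hT T hTS hTκ.ge hTU
  refine ⟨fun h2 => ?_, key⟩
  have hKc : #((Order.succ κ).ord.ToType) = Order.succ κ := by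
    rw [Cardinal.mk_toType, Cardinal.card_ord]
  have h3 : #(Set.univ : Set (Set (Order.succ κ).ord.ToType)) = 2 ^ Order.succ κ := by
    rw [Cardinal.mk_univ, Cardinal.mk_set, hKc]
  rw [← h3]
  refine key _ ?_ ?_
  · rw [h3]
    exact (Cardinal.cantor _).le
  · intro b
    have hb : #(Set.Iio b) ≤ κ := by
      have := Cardinal.mk_Iio_toType_ord_lt b
      exact Order.lt_succ_iff.1 this
    have h4 : (fun A => A ∩ Set.Iio b) '' (Set.univ : Set (Set (Order.succ κ).ord.ToType)) ⊆
        𝒫 (Set.Iio b) := by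
      rintro _ ⟨A, _, rfl⟩
      exact Set.inter_subset_right
    refine (Cardinal.mk_le_mk_of_subset h4).trans ?_
    rw [Cardinal.mk_powerset]
    exact (Cardinal.power_le_power_left two_ne_zero hb).trans h2.le

end Pool.Agent.Results.MP_a3089e_lc.NonGalvinSucc
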