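import Pool.Agent.Q197.PS.D

/-! # The parity of the multipartition functions in random unions of residue classes

For every `t` the following holds for the number `p_t(n)` of `t`-multipartitions of `n`, the
coefficient of `q ^ n` in `1 / f_1 ^ t`. It is odd for half of the `n` in every residue class as soon
as, for arbitrarily divisible `P`, this is true in a proportion `K / √P` (any `K`) of the `2 ^ P`
unions of residue classes modulo `P`. If the proportion of the `n ≤ N` with `p_t(n)` odd differs by at
least `c` from `1 / 2` for infinitely many `N`, then for every `P` at most a proportion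
`(10 + 27 / c) / √P` of the unions of classes modulo `P` contain `n` with `p_t(n)` odd with relative
density `1 / 2`. Unconditionally, for every finite set `T` of values of `t`, for all but a proportion
`|T| / s ^ 2` of the unions the excess of odd values of `p_t` in the union is half the excess of odd
values among all `n ≤ N`, up to `s N / √P`, for all `t ∈ T`. -/

set_option autoImplicit false

open Finset Filter Topology

namespace Pool.Agent.Results.MP_a3366f_nt.UnionsOfClasses

/-- The number of `t`-multipartitions of `n`, the coefficient of `q ^ n` in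
`(∑ p(m) q ^ m) ^ t = 1 / f_1 ^ t`: the sum of `p(n_1) ⋯ p(n_t)` over all `n_1 + … + n_t = n`. -/
noncomputable def multi (t n : ℕ) : ℕ :=
  ∑ x ∈ Finset.Nat.antidiagonalTuple t n, ∏ i : Fin t, Fintype.card (Nat.Partition (x i))

open Classical in
/-- The number of the `1 ≤ n ≤ N` whose residue modulo `P` is in `A` with `p_t(n)` odd. -/
noncomputable def odds (t P : ℕ) (A : Finset ℕ) (N : ℕ) : ℕ :=
  ((Icc 1 N).filter (fun n => n % P ∈ A ∧ Odd (multi t n))).card

open Classical in
/-- The number of the `1 ≤ n ≤ N` whose residue modulo `P` is in `A` with `p_t(n)` even. -/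
noncomputable def evens (t P : ℕ) (A : Finset ℕ) (N : ℕ) : ℕ :=
  ((Icc 1 N).filter (fun n => n % P ∈ A ∧ ¬ Odd (multi t n))).card

/-- The proportion of the `n` in the union of the classes of `A` modulo `P` with `p_t(n)` odd is
asymptotically `1 / 2`. -/
def Half (t P : ℕ) (A : Finset ℕ) : Prop :=
  Tendsto (fun N : ℕ => (odds t P A N : ℝ) / N) atTop (𝓝 ((A.card : ℝ) / (2 * P)))

open Classical in
/-- The number of the sets `A` of residues modulo `P` with this property. -/
noncomputable def good (t P : ℕ) : ℕ := ((range P).powerset.filter (fun A => Half t P A)).card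

lemma odds_eq (t P : ℕ) (A : Finset ℕ) (N : ℕ) : (odds t P A N : ℝ) / N =
    Q197.PS.densA (fun n => Odd (multi t n)) P A N := by
  unfold odds Q197.PS.densA
  refine congrArg (fun s : Finset ℕ => (s.card : ℝ) / N) ?_
  ext n
  simp only [mem_filter]

lemma evens_eq (t P : ℕ) (A : Finset ℕ) (N : ℕ) : (evens t P A N : ℝ) / N =
    Q197.PS.densA (fun n => ¬ Odd (multi t n)) P A N := by
  unfold evens Q197.PS.densA
  refine congrArg (fun s : Finset ℕ => (s.card : ℝ) / N) ?_
  ext n
  simp only [mem_filter]

lemma half_eq (t P : ℕ) (A : Finset ℕ) :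
    Half t P A ↔ Q197.PS.Half (fun n => Odd (multi t n)) P A := by
  unfold Half Q197.PS.Half
  simp only [odds_eq]

lemma good_eq (t P : ℕ) : good t P = Q197.PS.nHalf (fun n => Odd (multi t n)) P := by
  classical
  unfold good Q197.PS.nHalf
  simp only [half_eq]

open Classical in
theorem result :
    (∀ t : ℕ, ((∀ q : ℕ, 0 < q → ∀ a < q, Half t q {a}) ↔
      ∀ q : ℕ, 0 < q → ∀ K : ℝ, ∃ P : ℕ, 0 < P ∧ q ∣ P ∧ K * 2 ^ P / √P ≤ good t P) ∧
    (∀ c : ℝ, 0 < c → (∃ᶠ N : ℕ in atTop, c ≤ |(odds t 1 {0} N : ℝ) / N - 1 / 2|) →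
      ∀ P : ℕ, 0 < P → (good t P : ℝ) ≤ (10 + 27 / c) * 2 ^ P / √P)) ∧
    (∀ (T : Finset ℕ) (P N : ℕ), 0 < P → P ≤ N → ∀ s : ℝ, 0 < s →
      (((range P).powerset.filter (fun A => ¬ ∀ t ∈ T,
        |((odds t P A N : ℝ) / N - (evens t P A N : ℝ) / N) -
          ((odds t 1 {0} N : ℝ) / N - (evens t 1 {0} N : ℝ) / N) / 2| < s / √P)).card : ℝ) ≤
        T.card * (2 ^ P / s ^ 2)) := by
  refine ⟨fun t => ?_, fun T P N hP hN s hs => ?_⟩
  · have h := Q197.PS.half_main (fun n => Odd (multi t n))
    simp only [half_eq, good_eq, odds_eq]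
    exact ⟨h.1, h.2.1⟩
  · have hsub : ((range P).powerset.filter (fun A => ¬ ∀ t ∈ T,
        |((odds t P A N : ℝ) / N - (evens t P A N : ℝ) / N) -
          ((odds t 1 {0} N : ℝ) / N - (evens t 1 {0} N : ℝ) / N) / 2| < s / √P)) ⊆
        T.biUnion (fun t => (range P).powerset.filter (fun A =>
        s / √P ≤ |((odds t P A N : ℝ) / N - (evens t P A N : ℝ) / N) -
          ((odds t 1 {0} N : ℝ) / N - (evens t 1 {0} N : ℝ) / N) / 2|)) := by
      intro A hA
      rw [mem_filter] at hA
      obtain ⟨h1, h2⟩ := hA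
      push Not at h2
      obtain ⟨t, ht, h3⟩ := h2
      rw [mem_biUnion]
      exact ⟨t, ht, mem_filter.2 ⟨h1, h3⟩⟩
    calc _ ≤ ((T.biUnion (fun t => (range P).powerset.filter (fun A =>
        s / √P ≤ |((odds t P A N : ℝ) / N - (evens t P A N : ℝ) / N) -
          ((odds t 1 {0} N : ℝ) / N - (evens t 1 {0} N : ℝ) / N) / 2|))).card : ℝ) := by
          exact_mod_cast card_le_card hsub
      _ ≤ ∑ t ∈ T, (((range P).powerset.filter (fun A =>
        s / √P ≤ |((odds t P A N : ℝ) / N - (evens t P A N : ℝ) / N) -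
          ((odds t 1 {0} N : ℝ) / N - (evens t 1 {0} N : ℝ) / N) / 2|)).card : ℝ) := by
          exact_mod_cast card_biUnion_le
      _ ≤ ∑ t ∈ T, (2 ^ P / s ^ 2 : ℝ) := sum_le_sum fun t _ => by
          have h := (Q197.PS.half_main (fun n => Odd (multi t n))).2.2 P N hP hN s hs
          simp only [odds_eq, evens_eq]
          exact h
      _ = T.card * (2 ^ P / s ^ 2) := by rw [sum_const, nsmul_eq_mul]

end Pool.Agent.Results.MP_a3366f_nt.UnionsOfClasses
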