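import Mathlib
import Pool.Agent.Q248.ZU.Final

/-!
# Only finitely many moduli in `E` have a realizing set without a unit
-/

set_option autoImplicit false

open Finset

namespace Pool.Agent.Results.MP_a37b83_nt.OnlyFinitelyMany

/-- A set `S` of residue classes modulo `m` is zero-sum-free if no nonempty subset of `S` has
sum zero. -/
def ZeroSumFree (m : ℕ) (S : Finset (ZMod m)) : Prop :=
  ∀ T ⊆ S, T.Nonempty → ∑ t ∈ T, t ≠ 0

/-- `k(m)`: the largest size of a zero-sum-free set of residues modulo `m` (for `m ≥ 1`). -/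
noncomputable def k (m : ℕ) : ℕ := sSup {n | ∃ S : Finset (ZMod m), ZeroSumFree m S ∧ S.card = n}

/-- A realizing set for `m`: a zero-sum-free set of residues modulo `m` with exactly `k(m)`
elements. -/
def Realizing (m : ℕ) (S : Finset (ZMod m)) : Prop := ZeroSumFree m S ∧ S.card = k m

/-- `b(m) = ⌊(-1 + √(8 m + 9)) / 2⌋`. -/
noncomputable def b (m : ℕ) : ℤ := ⌊(-1 + Real.sqrt (8 * (m : ℝ) + 9)) / 2⌋

/-- `E`: the integers `m ≥ 5` with `k(m) = b(m)`. -/
def E : Set ℕ := {m | 5 ≤ m ∧ (k m : ℤ) = b m}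

theorem card_le_k (m : ℕ) (hm : m ≠ 0) (S : Finset (ZMod m)) (hS : ZeroSumFree m S) :
    S.card ≤ k m := by
  have : NeZero m := ⟨hm⟩
  apply le_csSup
  · refine ⟨m, ?_⟩
    rintro n ⟨T, _, rfl⟩
    have h := Finset.card_le_univ T
    rwa [ZMod.card] at h
  · exact ⟨S, hS, rfl⟩

/-- (1) For all large `m`, in `E` or not, every realizing set for `m` contains an element coprime
to `m`. (2) So there are only finitely many `m` in `E` for which there is a realizing set without an
element coprime to `m`. (3) No prime power has such a realizing set. -/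
theorem result :
    (∃ M : ℕ, ∀ m : ℕ, M ≤ m → ∀ S : Finset (ZMod m), Realizing m S →
      ∃ a ∈ S, Nat.gcd a.val m = 1) ∧
    {m : ℕ | m ∈ E ∧ ∃ S : Finset (ZMod m), Realizing m S ∧ ∀ a ∈ S, Nat.gcd a.val m ≠ 1}.Finite ∧
    ∀ p r : ℕ, p.Prime → 1 ≤ r → ∀ S : Finset (ZMod (p ^ r)), Realizing (p ^ r) S →
      ∃ a ∈ S, Nat.gcd a.val (p ^ r) = 1 := by
  have main : ∃ M : ℕ, ∀ m : ℕ, M ≤ m → ∀ S : Finset (ZMod m), Realizing m S →
      ∃ a ∈ S, Nat.gcd a.val m = 1 := by
    obtain ⟨M, hM⟩ := Pool.Agent.Q248.ZU.large_unit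
    refine ⟨M + 1, fun m hm S hS => ?_⟩
    have : NeZero m := ⟨by omega⟩
    obtain ⟨a, ha, hu⟩ := hM m (by omega) S hS.1 (fun S' hS' => by
      rw [hS.2]
      exact card_le_k m (by omega) S' hS')
    refine ⟨a, ha, ?_⟩
    rw [← ZMod.natCast_zmod_val a, ZMod.isUnit_iff_coprime] at hu
    exact hu
  refine ⟨main, ?_, ?_⟩
  · obtain ⟨M, hM⟩ := main
    apply (Set.finite_lt_nat M).subset
    rintro m ⟨_, S, hS, hU⟩
    by_contra hc
    obtain ⟨a, ha, h1⟩ := hM m (not_lt.1 hc) S hS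
    exact hU a ha h1
  · intro p r hp hr S hS
    by_contra hcon
    push Not at hcon
    have hp0 : p ^ r ≠ 0 := pow_ne_zero _ hp.ne_zero
    have : NeZero (p ^ r) := ⟨hp0⟩
    have hdvd : p ∣ p ^ r := dvd_pow_self p (by omega)
    obtain ⟨f, hf⟩ : ∃ f : ZMod (p ^ r) →+ ZMod p,
      f = (ZMod.castHom hdvd (ZMod p)).toAddMonoidHom := ⟨_, rfl⟩
    have hp1 : Fact p.Prime := ⟨hp⟩
    have h1 : (1 : ZMod (p ^ r)) ∉ AddSubgroup.closure (S : Set (ZMod (p ^ r))) := by
      intro hc
      have h2 : AddSubgroup.closure (S : Set (ZMod (p ^ r))) ≤ f.ker := by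
        rw [AddSubgroup.closure_le]
        intro s hs
        rw [SetLike.mem_coe, AddMonoidHom.mem_ker]
        have h3 := hcon s hs
        have h4 : p ∣ s.val := by
          by_contra h5
          exact h3 (((Nat.Prime.coprime_iff_not_dvd hp).2 h5).symm.pow_right r)
        have h7 : f s = (s.val : ZMod p) := by
          rw [hf]
          show ZMod.castHom hdvd (ZMod p) s = _
          rw [ZMod.castHom_apply, ZMod.cast_eq_val]
        rw [h7]
        exact (ZMod.natCast_eq_zero_iff _ _).2 h4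
      have h3 := h2 hc
      rw [AddMonoidHom.mem_ker, hf] at h3
      have h4 : ZMod.castHom hdvd (ZMod p) 1 = 0 := h3
      rw [map_one] at h4
      exact one_ne_zero h4
    obtain ⟨h2, h3⟩ := Pool.Agent.Q248.ZU.insert_one_ZSF S hS.1 h1
    have h4 := card_le_k _ hp0 _ h3
    rw [Finset.card_insert_of_notMem h2, hS.2] at h4
    omega

end Pool.Agent.Results.MP_a37b83_nt.OnlyFinitelyMany
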