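import Pool.Agent.Q86.MK.Main
import Pool.Agent.Q86.MK.F

/-!
# Property (P) and inner product spaces

Property (P) (minimal `K`-sets are exactly the bases of unit vectors which do not split into two
parts the first of which is Birkhoff-James orthogonal to the second) forces the norm to be
Hilbertian in each of the following cases: the dimension is two; the norm is differentiable away
from the origin (any dimension); the unit ball has a facet (any dimension).

Idea. For a unit vector `y` with support functional `g` and `0 < s < 1`, a maximum of
`(∏ |g (v i)|) ^ s * |det (v 0, ..., v m)| ^ (1 - s)` over all `v` in the unit ball with `v 0 = y`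
is a system of unit vectors `v i` with support functionals `h i` such that the matrix
`h i (v j)` depends only on `s` up to a diagonal conjugation. So two such systems are related by
a linear map which preserves Birkhoff-James orthogonality at each point of the first one if these
points are smooth, and (P) gives an isometry from the first vector of one system to the first
vector of the other one. Hence the isometries are transitive on the sphere.
-/

set_option autoImplicit false

namespace Pool.Agent.Results.MP_a3b3eb_an.SmoothOrPlane

open Module Q86.MK

/-- **Theorem.** Let `X` be a real normed space of finite dimension `n ≥ 2` with property (P).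
Suppose that `n = 2`, or that the norm is differentiable at each nonzero point, or that the unit
ball has a facet (the norm is equal to a linear functional on a nonempty open set). Then the norm
of `X` is induced by an inner product. -/
theorem result {X : Type*} [NormedAddCommGroup X] [NormedSpace ℝ X] [FiniteDimensional ℝ X]
    (hdim : 2 ≤ finrank ℝ X)
    (hX : finrank ℝ X = 2 ∨ (∀ x : X, x ≠ 0 → DifferentiableAt ℝ (fun z : X => ‖z‖) x) ∨
      ∃ (f : X →ₗ[ℝ] ℝ) (O : Set X), IsOpen O ∧ O.Nonempty ∧ ∀ x ∈ O, ‖x‖ = f x)
    (hP : PropertyP X) : IsHilbert X := by
  have hP' : ∀ A : Set X, A ⊆ Metric.sphere 0 1 → IsGoodBasis A → IsKSet A := by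
    intro A hA hG
    have hne : A.Nonempty := by
      obtain ⟨⟨x, -, hx⟩, -⟩ := hG
      rw [hx]
      exact ⟨x ⟨0, by omega⟩, Set.mem_range_self _⟩
    exact ((hP A hne hA).2 hG).1
  rcases hX with h2 | hs | ⟨f, O, hO, hne, hf⟩
  · exact hilbert_of_propertyP hdim (Or.inl h2) hP'
  · exact hilbert_of_propertyP hdim (Or.inr hs) hP'
  · exact (false_of_facet hdim f hO hne hf hP').elim

end Pool.Agent.Results.MP_a3b3eb_an.SmoothOrPlane
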