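import Pool.Agent.Q44.BN.Pub

/-!
# The isogeny Selmer groups and the Tate-Shafarevich groups of all the quadratic twists of the elliptic
# curves with a cyclic isogeny of degree four over the field of their `2`-torsion

Let `E : y² = x³ + a x² + b x`, `a` and `b` integers such that `b` is not a square and `b (a² - 4 b)` is a
square different from `0`. These are the curves with exactly one rational point of order two which have a
cyclic isogeny of degree four over `ℚ(E[2])` but not over `ℚ`; for them the ratio of the orders of the two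
isogeny Selmer groups is bounded on the quadratic twists. Let `E_D : y² = x³ + a D x² + b D² x`,
for *all* squarefree integers `D`.

For a squarefree `D₀` the local class of `D₀` consists of the squarefree integers `D` of the same sign which
are in the same square class as `D₀` in `ℚ_p` for all the primes `p` which divide `2 b (a² - 4 b)`. Let
`τ` be the product, over the infinite place and these primes, of `1/2` times the order of the image of
`E_{D₀}(ℚ_v)` in `ℚ_v*/ℚ_v*²` under the abscissa, and let `τ'` be the same for the isogenous curve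
`E'_{D₀} : y² = x³ - 2 a D₀ x² + (a² - 4 b) D₀² x`. The results:

* every local class has positive lower density;
* in the local class of `D₀` the number of the `D` with `# Sel = 2 ^ (r + 1)`, for the two isogeny Selmer
  groups, has the proportion `law τ r`, `law τ' r`, where
  `law t r = t ^ r / ((2 ^ r - 1) (2 ^ r - 2) ⋯ (2 ^ r - 2 ^ (r - 1))) · ∏_{i ≥ r + 1} (1 - t / 2 ^ i)`, the sum
  of these numbers being `1`;
* if `τ = τ' = 1` then the proportion of the `D` of the local class such that `E_D` has rank `0` and no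
  element of `2`-power order in its Tate-Shafarevich group is exactly `∏_{i ≥ 1} (1 - 1 / 2 ^ i) = 0.288…`;
* for every `T` a positive proportion of the `D` of each local class has `2 ^ rank · # Ш[2] ≥ 2 ^ T`;
* the upper proportion of the `D` with `2 ^ rank · # Ш[2] > 4 ^ R` is at most
  `C ^ (R + 1) / 2 ^ (R (R + 1))`, for all `R`, on all the squarefree integers.

The condition `τ = τ' = 1` holds for `a = 4`, `b = 2`, the odd negative `D₀`, and for `a = b = 5`, the
even negative `D₀`.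
-/

set_option autoImplicit false

open Finset Filter

namespace Pool.Agent.Results.MP_a43263_nt.AllTwistsSha

/-- the curve `y² = x³ + A x² + B x` over `ℚ` -/
def E (A B : ℤ) : WeierstrassCurve ℚ :=
  { a₁ := 0, a₂ := (A : ℚ), a₃ := 0, a₄ := (B : ℚ), a₆ := 0 }

/-- the rank of the group of rational points of `y² = x³ + A x² + B x` -/
noncomputable def rank (A B : ℤ) : ℕ := Module.finrank ℤ (E A B).toAffine.Point

open Classical in
/-- the `2`-torsion of the Tate-Shafarevich group of `y² = x³ + A x² + B x` -/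
def ShaTwo (A B : ℤ) : Type := {x : Pool.Agent.W262.SH.Sha (E A B) // x + x = 0}

open Classical in
/-- the rank of `y² = x³ + A x² + B x` is `0` and its Tate-Shafarevich group contains no element of
`2`-power order different from `0` -/
def Trivial (A B : ℤ) : Prop :=
  rank A B = 0 ∧ ∀ (x : Pool.Agent.W262.SH.Sha (E A B)) (n : ℕ), 2 ^ n • x = 0 → x = 0

/-- `z` is, up to squares, the abscissa of a point over `F` of `y² = x³ + A x² + B x` -/
def Loc (F : Type) [Field F] (A B z : ℤ) : Prop :=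
  ∃ x y r : F, x ≠ 0 ∧ y ^ 2 = x ^ 3 + (A : F) * x ^ 2 + (B : F) * x ∧ x = (z : F) * r ^ 2

/-- the Selmer group of the isogeny of degree two onto `y² = x³ + A x² + B x`, a subgroup of `ℚ*/ℚ*²`
which is described by squarefree integers -/
def Sel (A B : ℤ) : Set ℤ :=
  {z | Squarefree z ∧ (∀ (p : ℕ) [Fact p.Prime], Loc ℚ_[p] A B z) ∧ Loc ℝ A B z}

/-- the Selmer group of the isogeny onto `E_D : y² = x³ + a D x² + b D² x` -/
def SelDual (a b D : ℤ) : Set ℤ := Sel (a * D) (b * D ^ 2)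

/-- the Selmer group of the isogeny from `E_D` onto
`E_D' : y² = x³ - 2 a D x² + (a² - 4 b) D² x` -/
def SelPhi (a b D : ℤ) : Set ℤ := Sel (-2 * a * D) ((a ^ 2 - 4 * b) * D ^ 2)

/-- the number `2 ^ rank · # Ш[2]` of the curve `E_D` -/
noncomputable def size (a b D : ℤ) : ℕ :=
  2 ^ rank (a * D) (b * D ^ 2) * Nat.card (ShaTwo (a * D) (b * D ^ 2))

/-- the curves: `b` is not a square, `b (a² - 4 b)` is a square different from `0` -/
def Exceptional (a b : ℤ) : Prop :=
  ¬ IsSquare b ∧ a ^ 2 - 4 * b ≠ 0 ∧ IsSquare (b * (a ^ 2 - 4 * b))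

/-- the group of the square classes of a field -/
abbrev SquareClasses (K : Type) [Field K] : Type := Kˣ ⧸ (powMonoidHom 2 : Kˣ →* Kˣ).range

/-- the square classes of the abscissae of the points over `K` of `y² = x³ + A x² + B x` -/
def image (K : Type) [Field K] (A B : ℤ) : Set (SquareClasses K) :=
  {c | ∃ (x : Kˣ) (y : K), y ^ 2 = (x : K) ^ 3 + (A : K) * (x : K) ^ 2 + (B : K) * (x : K) ∧
    c = QuotientGroup.mk x}

open Classical in
/-- the number of these classes over `ℚ_p` -/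
noncomputable def imageCard (A B : ℤ) (p : ℕ) : ℕ :=
  if h : p.Prime then (haveI : Fact p.Prime := ⟨h⟩; Nat.card (image ℚ_[p] A B)) else 1

/-- the primes which divide `2 b (a² - 4 b)` -/
def bad (a b : ℤ) : Finset ℕ := (2 * (b * (a ^ 2 - 4 * b))).natAbs.primeFactors

/-- the product over the primes of `S` and the infinite place of `1/2` times the number of the classes -/
noncomputable def ratio (S : Finset ℕ) (A B : ℤ) : ℝ :=
  (((∏ p ∈ S, imageCard A B p) * Nat.card (image ℝ A B) : ℕ) : ℝ) / 2 ^ (S.card + 1)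

/-- the constant of the curve `E_D` -/
noncomputable def τ (a b D : ℤ) : ℝ := ratio (bad a b) (a * D) (b * D ^ 2)

/-- the constant of the curve `E_D'` -/
noncomputable def τ' (a b D : ℤ) : ℝ := ratio (bad a b) (-2 * a * D) ((a ^ 2 - 4 * b) * D ^ 2)

/-- `D` and `D₀` have the same sign and the same square classes at the bad primes -/
def Same (a b D₀ D : ℤ) : Prop := 0 < D₀ * D ∧
  ∀ (p : ℕ) [Fact p.Prime], (p : ℤ) ∣ 2 * (b * (a ^ 2 - 4 * b)) → IsSquare ((D₀ * D : ℤ) : ℚ_[p])

open Classical in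
/-- the number of the squarefree `D` with `|D| ≤ X` in the local class of `D₀` with the property `P` -/
noncomputable def count (a b D₀ : ℤ) (P : ℤ → Prop) (X : ℕ) : ℕ :=
  ((Icc (-(X : ℤ)) X).filter fun D => Squarefree D ∧ Same a b D₀ D ∧ P D).card

/-- the `D` with the property `P` have the proportion `c` in the local class of `D₀` -/
def Proportion (a b D₀ : ℤ) (P : ℤ → Prop) (c : ℝ) : Prop :=
  Tendsto (fun X : ℕ => (count a b D₀ P X : ℝ) / (count a b D₀ (fun _ => True) X : ℝ)) atTop (nhds c)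

/-- the law of the dimensions -/
noncomputable def law (t : ℝ) (r : ℕ) : ℝ :=
  t ^ r / (∏ i ∈ range r, ((2 : ℝ) ^ r - 2 ^ i)) * ∏' i : ℕ, (1 - t / 2 ^ (r + i + 1))

/-- the number `(1 - 1/2) (1 - 1/4) (1 - 1/8) ⋯` -/
noncomputable def κ : ℝ := ∏' i : ℕ, (1 - (1 : ℝ) / 2 ^ (i + 1))

/-- the groups are finite, and the bounds for `2 ^ rank · # Ш[2]` -/
def Bounds (a b : ℤ) : Prop := ∀ D : ℤ, Squarefree D →
  (SelDual a b D).Finite ∧ (SelPhi a b D).Finite ∧ Finite (ShaTwo (a * D) (b * D ^ 2)) ∧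
    (SelPhi a b D).ncard ≤ 2 * size a b D ∧
    4 * size a b D ≤ (SelDual a b D).ncard * (SelPhi a b D).ncard

/-- the local class of `D₀` has positive lower density -/
def Dense (a b D₀ : ℤ) : Prop := ∃ η : ℝ, 0 < η ∧
  ∀ᶠ X : ℕ in atTop, η * (X : ℝ) ≤ (count a b D₀ (fun _ => True) X : ℝ)

/-- the laws of the two Selmer groups in the local class of `D₀` -/
def Laws (a b D₀ : ℤ) : Prop :=
  (HasSum (law (τ a b D₀)) 1 ∧ HasSum (law (τ' a b D₀)) 1) ∧ ∀ r : ℕ,
    Proportion a b D₀ (fun D => (SelDual a b D).ncard = 2 ^ (r + 1)) (law (τ a b D₀) r) ∧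
    Proportion a b D₀ (fun D => (SelPhi a b D).ncard = 2 ^ (r + 1)) (law (τ' a b D₀) r)

/-- the exact proportion of the trivial groups in the balanced classes -/
def Balanced (a b D₀ : ℤ) : Prop := τ a b D₀ = 1 → τ' a b D₀ = 1 →
  Proportion a b D₀ (fun D => Trivial (a * D) (b * D ^ 2)) κ

/-- large values of `2 ^ rank · # Ш[2]` in the local class of `D₀` -/
def Large (a b D₀ : ℤ) : Prop := ∀ T : ℕ, ∃ η : ℝ, 0 < η ∧
  ∀ᶠ X : ℕ in atTop, η * (X : ℝ) ≤ (count a b D₀ (fun D => 2 ^ T ≤ size a b D) X : ℝ)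

open Classical in
/-- the values of `2 ^ rank · # Ш[2]` on all the squarefree integers -/
def Tails (a b : ℤ) : Prop := ∃ C : ℝ, 0 < C ∧ ∀ R : ℕ, ∀ᶠ X : ℕ in atTop,
  (((Icc (-(X : ℤ)) X).filter fun D => Squarefree D ∧ 4 ^ R < size a b D).card : ℝ) ≤
    C ^ (R + 1) / 2 ^ ((R + 1) * R) * (((Icc (-(X : ℤ)) X).filter fun D => Squarefree D).card : ℝ)

/-- the examples of balanced classes -/
def Examples : Prop :=
  (Exceptional 4 2 ∧ ∀ D : ℤ, D < 0 → D % 2 = 1 → τ 4 2 D = 1 ∧ τ' 4 2 D = 1) ∧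
  (Exceptional 5 5 ∧ ∀ D : ℤ, D < 0 → D % 4 = 2 → τ 5 5 D = 1 ∧ τ' 5 5 D = 1)

/-! ### The proof -/

open scoped Classical

/-- the data -/
def cd {a b : ℤ} (h : Exceptional a b) : Q44.BN.Cd := ⟨a, b, h.1, h.2.1, h.2.2⟩

lemma e1 (a D : ℤ) : -2 * a * D = -2 * (a * D) := by ring

lemma e2 (a b D : ℤ) : (a ^ 2 - 4 * b) * D ^ 2 = (a * D) ^ 2 - 4 * (b * D ^ 2) := by ring

lemma nS'_eq {a b : ℤ} (h : Exceptional a b) (D : ℤ) : (cd h).nS' D = (SelPhi a b D).ncard := by
  unfold SelPhi
  rw [e1, e2]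
  rfl

lemma nS_eq {a b : ℤ} (h : Exceptional a b) (D : ℤ) : (cd h).nS D = (SelDual a b D).ncard := rfl

lemma rs_eq {a b : ℤ} (h : Exceptional a b) (D : ℤ) : (cd h).rs D = size a b D := rfl

lemma tau_eq {a b : ℤ} (h : Exceptional a b) (D : ℤ) : (cd h).tau D = τ a b D := rfl

lemma tau_eq' {a b : ℤ} (h : Exceptional a b) (D : ℤ) : (cd h).tau' D = τ' a b D := by
  unfold τ'
  rw [e1, e2]
  rfl

lemma count_eq (a b D₀ : ℤ) (P : ℤ → Prop) (X : ℕ)
    {i : DecidablePred fun D => Q44.BN.Same a b D₀ D ∧ P D} : count a b D₀ P X =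
      ((Q44.BN.Sq X).filter fun D => Q44.BN.Same a b D₀ D ∧ P D).card := by
  unfold count
  congr 1
  ext D
  unfold Q44.BN.Sq
  rw [mem_filter, mem_filter, mem_filter, and_assoc]
  rfl

lemma count_true (a b D₀ : ℤ) (X : ℕ) {i : DecidablePred fun D => Q44.BN.Same a b D₀ D} :
    count a b D₀ (fun _ => True) X =
      ((Q44.BN.Sq X).filter fun D => Q44.BN.Same a b D₀ D).card :=
  (count_eq a b D₀ (fun _ => True) X (i := Classical.decPred _)).trans
    (Q44.BN.cardS (fun _ => ⟨fun h => h.1, fun h => ⟨h, trivial⟩⟩) _)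

lemma prop_of {a b : ℤ} (h : Exceptional a b) {D₀ : ℤ} {P : ℤ → Prop} {c : ℝ}
    (hp : (cd h).Prp D₀ P c) : Proportion a b D₀ P c := by
  refine hp.congr fun X => ?_
  rw [count_eq, count_true]
  rfl

lemma law_eq {t : ℝ} (ht : 0 ≤ t) (r : ℕ) : Q44.BC.lam t r = law t r := Q44.BN.lam_tprod ht r

lemma kappa_eq : Q44.BC.lam 1 0 = κ := by
  rw [Q44.BN.lam_tprod zero_le_one 0]
  unfold κ
  simp

lemma size_pos {a b : ℤ} (h : Exceptional a b) {D : ℤ} (hD : Squarefree D) : 0 < size a b D :=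
  (cd h).rs_pos hD

/-- the trivial groups -/
lemma trivial_iff (a b D : ℤ) : Trivial (a * D) (b * D ^ 2) ↔ size a b D = 1 := by
  constructor
  · rintro ⟨g1, g2⟩
    have h7 : Nat.card (ShaTwo (a * D) (b * D ^ 2)) = 1 := by
      rw [Nat.card_eq_one_iff_unique]
      constructor
      · constructor
        rintro ⟨x, hx⟩ ⟨y, hy⟩
        apply Subtype.ext
        show x = y
        rw [g2 x 1 (by rw [pow_one, two_nsmul]; exact hx), g2 y 1 (by rw [pow_one, two_nsmul]; exact hy)]
      · exact ⟨⟨0, add_zero 0⟩⟩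
    unfold size
    rw [g1, h7, pow_zero, mul_one]
  · intro h7
    unfold size at h7
    have h8 := Nat.eq_one_of_mul_eq_one_right h7
    have h9 := Nat.eq_one_of_mul_eq_one_left h7
    refine ⟨?_, ?_⟩
    · by_contra hs
      have : 2 ^ 1 ≤ 2 ^ rank (a * D) (b * D ^ 2) :=
        Nat.pow_le_pow_right two_pos (Nat.one_le_iff_ne_zero.2 hs)
      omega
    · have h10 : ∀ x : Pool.Agent.W262.SH.Sha (E (a * D) (b * D ^ 2)), x + x = 0 → x = 0 := by
        intro x hx
        obtain ⟨⟨h11⟩, -⟩ := Nat.card_eq_one_iff_unique.1 h9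
        have h12 := h11 (⟨x, hx⟩ : ShaTwo (a * D) (b * D ^ 2)) ⟨0, add_zero 0⟩
        exact congrArg Subtype.val h12
      intro x n
      induction n with
      | zero =>
        intro hx
        rwa [pow_zero, one_nsmul] at hx
      | succ n ih =>
        intro hx
        apply ih
        apply h10
        rw [← two_nsmul, ← mul_nsmul', ← pow_succ']
        exact hx

lemma bounds {a b : ℤ} (h : Exceptional a b) : Bounds a b := by
  intro D hD
  obtain ⟨f1, f2, -, -⟩ := (cd h).pow_nS hD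
  obtain ⟨k1, k2⟩ := (cd h).rs_le hD
  have k3 := (cd h).nS'_le hD
  rw [nS'_eq] at k2 k3
  refine ⟨f1, ?_, k1, k3, k2⟩
  unfold SelPhi
  rw [e1, e2]
  exact f2

lemma dense {a b : ℤ} (h : Exceptional a b) {D₀ : ℤ} (hD : Squarefree D₀) : Dense a b D₀ := by
  obtain ⟨η, X₀, hη, hX⟩ := (cd h).density hD
  refine ⟨η, hη, ?_⟩
  filter_upwards [eventually_ge_atTop X₀] with X hX0
  rw [count_true]
  exact hX X hX0

lemma laws {a b : ℤ} (h : Exceptional a b) {D₀ : ℤ} (hD : Squarefree D₀) : Laws a b D₀ := by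
  obtain ⟨⟨t1, t2⟩, l1, l2, -⟩ := (cd h).facts hD
  rw [tau_eq h] at t1 l1
  rw [tau_eq' h] at t2 l2
  have g1 : Q44.BC.lam (τ a b D₀) = law (τ a b D₀) := funext fun r => law_eq t1.le r
  have g2 : Q44.BC.lam (τ' a b D₀) = law (τ' a b D₀) := funext fun r => law_eq t2.le r
  refine ⟨⟨?_, ?_⟩, fun r => ⟨?_, ?_⟩⟩
  · rw [← g1]
    exact Q44.BN.lam_hasSum t1.le
  · rw [← g2]
    exact Q44.BN.lam_hasSum t2.le
  · rw [← g1]
    exact prop_of h (l1 r)
  · rw [← g2]
    have k := l2 r
    simp only [nS'_eq h] at k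
    exact prop_of h k

lemma balanced {a b : ℤ} (h : Exceptional a b) {D₀ : ℤ} (hD : Squarefree D₀) : Balanced a b D₀ := by
  intro t1 t2
  obtain ⟨-, -, -, l⟩ := (cd h).facts hD
  have k := prop_of h (l (by rw [tau_eq h, t1]) (by rw [tau_eq' h, t2]))
  rw [kappa_eq] at k
  simp only [rs_eq h, ← trivial_iff] at k
  exact k

lemma large {a b : ℤ} (h : Exceptional a b) {D₀ : ℤ} (hD : Squarefree D₀) : Large a b D₀ := by
  intro T
  obtain ⟨η, hη, hX⟩ := (cd h).large hD T
  refine ⟨η, hη, ?_⟩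
  filter_upwards [hX] with X hX0
  rw [count_eq]
  exact hX0

lemma tails {a b : ℤ} (h : Exceptional a b) : Tails a b := by
  obtain ⟨C, hC, hR⟩ := (cd h).rank_tail
  refine ⟨C, hC, fun R => ?_⟩
  filter_upwards [hR R] with X hX
  refine le_trans (le_of_eq ?_) (hX.trans (le_of_eq ?_))
  · congr 2
    ext D
    unfold Q44.BN.Sq
    rw [mem_filter, mem_filter, mem_filter, and_assoc]
    rfl
  · congr 3

lemma bad_42 : bad 4 2 = {2} := by
  unfold bad
  have : (2 * (2 * (4 ^ 2 - 4 * 2)) : ℤ).natAbs = 2 ^ 5 := by norm_num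
  rw [this, Nat.primeFactors_prime_pow (by norm_num) Nat.prime_two]

lemma bad_55 : bad 5 5 = {2, 5} := by
  unfold bad
  have : (2 * (5 * (5 ^ 2 - 4 * 5)) : ℤ).natAbs = 2 * 5 ^ 2 := by norm_num
  rw [this, Nat.primeFactors_mul (by norm_num) (by norm_num),
    Nat.primeFactors_prime_pow (by norm_num) (by norm_num : Nat.Prime 5),
    Nat.Prime.primeFactors Nat.prime_two]
  rfl

lemma examples : Examples := by
  refine ⟨⟨⟨?_, by norm_num, ⟨4, by norm_num⟩⟩, fun D h1 h2 => ?_⟩,
    ⟨⟨?_, by norm_num, ⟨5, by norm_num⟩⟩, fun D h1 h2 => ?_⟩⟩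
  · rintro ⟨r, hr⟩
    have h1 : r < 2 := by nlinarith
    have h2 : -2 < r := by nlinarith
    interval_cases r <;> norm_num at hr
  · obtain ⟨k1, k2⟩ := Q44.BN.ex1 h2 h1
    unfold τ τ'
    rw [bad_42]
    refine ⟨k1, ?_⟩
    have g1 : -2 * 4 * D = -2 * (4 * D) := by ring
    have g2 : (4 ^ 2 - 4 * 2) * D ^ 2 = (4 * D) ^ 2 - 4 * (2 * D ^ 2) := by ring
    rw [g1, g2]
    exact k2
  · rintro ⟨r, hr⟩
    have h1 : r < 3 := by nlinarith
    have h2 : -3 < r := by nlinarith
    interval_cases r <;> norm_num at hr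
  · obtain ⟨k1, k2⟩ := Q44.BN.ex2 h2 h1
    unfold τ τ'
    rw [bad_55]
    refine ⟨k1, ?_⟩
    have g1 : -2 * 5 * D = -2 * (5 * D) := by ring
    have g2 : (5 ^ 2 - 4 * 5) * D ^ 2 = (5 * D) ^ 2 - 4 * (5 * D ^ 2) := by ring
    rw [g1, g2]
    exact k2

/-- **The Selmer groups and the Tate-Shafarevich groups of all the quadratic twists.** -/
theorem result : (∀ a b : ℤ, Exceptional a b → (Bounds a b ∧ Tails a b) ∧
    ∀ D₀ : ℤ, Squarefree D₀ →
      Dense a b D₀ ∧ Laws a b D₀ ∧ Balanced a b D₀ ∧ Large a b D₀) ∧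
    (0.288 < κ ∧ κ < 0.290) ∧ Examples := by
  refine ⟨fun a b h => ⟨⟨bounds h, tails h⟩, fun D₀ hD => ⟨dense h hD, laws h hD, balanced h hD,
    large h hD⟩⟩, ?_, examples⟩
  rw [← kappa_eq]
  exact Q44.BN.lam_one

end Pool.Agent.Results.MP_a43263_nt.AllTwistsSha
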