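import Mathlib
import Pool.Agent.Results.MP_a43263_nt.PencilMoments
import Pool.Agent.Q1.RS.Frq

/-!
# Tate-Shafarevich groups of Jacobians along arbitrary sequences

Let `g ≥ 1` and let `U_0, ..., U_(2 g)` be polynomials with integer coefficients such that the product
of the differences `U_i - U_j`, `i < j`, is squarefree over `ℚ`. For an integer `t` with distinct
values `U_i(t)` let `J_t` be the Jacobian of `y² = ∏ (x - U_i(t))`. We study `Ш(J_t)[2 ^ m]`, for
all `m`, and the rank of `J_t(ℚ)` for `t = ⌊α x_n⌋`, where `x_n` is an arbitrary sequence of real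
numbers.

* For every real sequence and almost every real `α` the orders of `Ш(J_t)[2 ^ m]` grow at most like
  `n ^ (β m)`, for every `β > 1 / k`, uniformly in `m`.
* If `x_(n+1) ≥ x_n ^ (1 + δ)`, then the frequency of the `n` with `#Ш(J_t)[2 ^ m] > y ^ m` for
  some `m` is at most `K / y ^ k` for almost every `α`, and for all `α` in a set of Hausdorff
  dimension one `#Ш(J_t)[2 ^ m] ≤ R ^ m` for all `m` and all `n`.

Here `k` is such that the numbers of the irreducible factors of the differences are balanced for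
`2 ^ k`; if all these numbers are equal the condition is `2 ^ k ≤ 2 g`.
-/

set_option autoImplicit false

namespace Pool.Agent.Results.MP_a43263_nt.JacobiansAlongSequences

open Finset Polynomial Filter MeasureTheory Pool.Agent.Y723.SJ

open Pool.Agent.Results.MP_a43263_nt.PencilMoments (val sha quo corank Pairs diff Balanced Args)

variable {g : ℕ}

/-- For the Jacobian `J` of `y² = ∏ (x - a i)` and all `m` the groups `J(ℚ) / 2 ^ m` and
`Ш(J)[2 ^ m]` are finite and the product of their orders is at most `y ^ m`; and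
`#(J(ℚ) / 2) * 2 ^ corank ≤ y`, where `corank` is the corank of the 2-primary part of `Ш(J)`. -/
def Small (a : Fin (2 * g + 1) → ℤ) (y : ℝ) : Prop :=
  (∀ m : ℕ, Finite (ShaTorsion a (2 ^ m)) ∧ Finite (QuotQ a (2 ^ m)) ∧
    ((quo (2 ^ m) a * sha (2 ^ m) a : ℕ) : ℝ) ≤ y ^ m) ∧
  ((quo 2 a * 2 ^ corank a : ℕ) : ℝ) ≤ y

open Classical in
/-- **Theorem.** Let `g ≥ 1`, `k ≥ 1` and let `U_0, ..., U_(2 g)` be polynomials with integer
coefficients such that the product of the differences `U_i - U_j`, `i < j`, is squarefree over `ℚ`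
and `U` is balanced for `2 ^ k`. Let `J_t` be the Jacobian of `y² = ∏ (x - U_i(t))`, for the integers
`t` with distinct `U_i(t)`.

* (1) For every real sequence `x_n` and almost every real `α`: for all `β > 1 / k`, from some `n`
  on, if `t = ⌊α x_n⌋` has distinct `U_i(t)`, then `J_t` is `Small` with `y = n ^ β`.
* (2) For all `δ > 0` there is `K` such that for every sequence `x_n → ∞` with
  `x_(n+1) ≥ x_n ^ (1 + δ)` from some `n` on, for almost every `α` and all `y ≥ 1`, from some `N`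
  on: at most `K N / y ^ k` of the `n < N` are such that `t = ⌊α x_n⌋` has distinct `U_i(t)` and
  `J_t` is not `Small` with `y`.
* (3) For all `δ > 0` there is `R` such that for all `u < v` and all sequences with
  `x_(n+1) ≥ x_n ^ (1 + δ)` for all `n` and `x_0` large enough (in terms of `u` and `v`) the set of
  the `α` in `[u, v]` such that for all `n` the number `t = ⌊α x_n⌋` has distinct `U_i(t)` and `J_t`
  is `Small` with `R` has Hausdorff dimension one. -/
theorem result (g k : ℕ) (hg : 1 ≤ g) (hk : 1 ≤ k) (U : Fin (2 * g + 1) → ℤ[X])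
    (hsq : Squarefree (∏ c ∈ Pairs g, diff U c)) (hbal : Balanced U (2 ^ k)) :
    (∀ x : ℕ → ℝ, ∀ᵐ α : ℝ, ∀ β : ℝ, 1 / k < β → ∀ᶠ n : ℕ in atTop,
      Function.Injective (val U ⌊α * x n⌋) → Small (val U ⌊α * x n⌋) ((n : ℝ) ^ β)) ∧
    (∀ δ : ℝ, 0 < δ → ∃ K : ℝ, ∀ x : ℕ → ℝ, Tendsto x atTop atTop →
      (∀ᶠ n in atTop, x n ^ (1 + δ) ≤ x (n + 1)) → ∀ᵐ α : ℝ, ∀ y : ℕ, 1 ≤ y →
      ∀ᶠ N : ℕ in atTop, (((range N).filter (fun n => Function.Injective (val U ⌊α * x n⌋) ∧
        ¬ Small (val U ⌊α * x n⌋) y)).card : ℝ) ≤ K * N / y ^ k) ∧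
    (∀ δ : ℝ, 0 < δ → ∃ R : ℕ, ∀ u v : ℝ, u < v → ∃ X₀ : ℝ, ∀ x : ℕ → ℝ, X₀ ≤ x 0 →
      (∀ n, x n ^ (1 + δ) ≤ x (n + 1)) →
      dimH {α : ℝ | u ≤ α ∧ α ≤ v ∧ ∀ n, Function.Injective (val U ⌊α * x n⌋) ∧
        Small (val U ⌊α * x n⌋) R} = 1) := by
  set f : ℤ → ℝ := fun t => if Function.Injective (val U t) then
    ((Pool.Agent.TH344.JG.SelJ (val U t)).ncard : ℝ) else 0 with hfd
  have hf0 : ∀ t, 0 ≤ f t := fun t => by
    rw [hfd]
    dsimp only
    split_ifs
    · exact Nat.cast_nonneg _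
    · exact le_rfl
  have hfs : ∀ t, Function.Injective (val U t) →
      f t = ((Pool.Agent.TH344.JG.SelJ (val U t)).ncard : ℝ) := fun t ht => by
    rw [hfd]
    dsimp only
    rw [if_pos ht]
  have hsm : ∀ (t : ℤ) (y : ℝ), Function.Injective (val U t) → f t ≤ y →
      Small (val U t) y := by
    intro t y ht hy
    rw [hfs t ht] at hy
    have h0 := PencilMoments.curve ht
    refine ⟨fun m => ⟨(h0 m).1, (h0 m).2.1, ?_⟩, ?_⟩
    · have h1 : ((quo (2 ^ m) (val U t) * sha (2 ^ m) (val U t) : ℕ) : ℝ) ≤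
          ((Pool.Agent.TH344.JG.SelJ (val U t)).ncard : ℝ) ^ m := by
        exact_mod_cast (h0 m).2.2.1
      exact h1.trans (pow_le_pow_left₀ (Nat.cast_nonneg _) hy m)
    · have h1 : ((quo 2 (val U t) * 2 ^ corank (val U t) : ℕ) : ℝ) ≤
          ((Pool.Agent.TH344.JG.SelJ (val U t)).ncard : ℝ) := by
        exact_mod_cast (h0 0).2.2.2
      exact h1.trans hy
  have hk0 : k ≠ 0 := by omega
  have hkr : (0 : ℝ) < k := by exact_mod_cast hk
  have hmom : Pool.Agent.Q1.RS.Mom f k := by
    intro L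
    obtain ⟨C, hC⟩ := PencilMoments.sel_bound hg hk U hbal (r := 0) (fun i => i.elim0)
      (fun i => i.elim0) (by simpa using hsq) L
    refine ⟨C, fun N M hM hN => ?_⟩
    have h1 := hC N M hM hN
    rw [pow_zero, div_one] at h1
    refine le_trans (le_of_eq ?_) h1
    unfold Args
    rw [sum_filter]
    refine sum_congr rfl fun t _ => ?_
    rw [hfd]
    dsimp only
    by_cases h2 : Function.Injective (val U t)
    · rw [if_pos h2, if_pos ⟨h2, fun i => i.elim0⟩]
    · rw [if_neg h2, if_neg (fun h3 => h2 h3.1), zero_pow hk0]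
  refine ⟨fun x => ?_, fun δ hδ => ?_, fun δ hδ => ?_⟩
  · -- growth
    have h1 : ∀ m : ℕ, ∀ᵐ α : ℝ, ∀ᶠ n : ℕ in atTop,
        f ⌊α * x n⌋ ≤ (n : ℝ) ^ (1 / (k : ℝ) + 1 / ((m : ℝ) + 1)) := by
      intro m
      refine Pool.Agent.Q1.RS.growth_ae hf0 hmom ?_ x
      have h2 : (0 : ℝ) < 1 / ((m : ℝ) + 1) * k := by positivity
      rw [add_mul, one_div_mul_cancel hkr.ne']
      linarith
    filter_upwards [ae_all_iff.2 h1] with α hα β hβ
    obtain ⟨m, hm⟩ := exists_nat_one_div_lt (sub_pos.2 hβ)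
    filter_upwards [hα m, eventually_ge_atTop 1] with n hn hn1 h2
    refine hsm _ _ h2 (hn.trans (Real.rpow_le_rpow_of_exponent_le (by exact_mod_cast hn1) ?_))
    linarith
  · -- frequencies
    obtain ⟨K, hK0, hK⟩ := Pool.Agent.Q1.RS.freq_ae hf0 hmom hδ
    refine ⟨K, fun x hxt hxg => ?_⟩
    have h1 : ∀ y : ℕ, ∀ᵐ α : ℝ, 1 ≤ y → ∀ᶠ N : ℕ in atTop,
        (((range N).filter (fun n => (y : ℝ) ≤ f ⌊α * x n⌋)).card : ℝ) ≤ K * N / (y : ℝ) ^ k := by
      intro y
      rcases Nat.eq_zero_or_pos y with rfl | hy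
      · exact Eventually.of_forall fun α h => absurd h (by omega)
      · filter_upwards [hK x hxt hxg y (by exact_mod_cast hy)] with α hα _
        exact hα
    filter_upwards [ae_all_iff.2 h1] with α hα y hy
    filter_upwards [hα y hy] with N hN
    refine le_trans (Nat.cast_le.2 (card_le_card fun n hn => ?_)) hN
    rw [mem_filter] at hn ⊢
    refine ⟨hn.1, ?_⟩
    by_contra h2
    exact hn.2.2 (hsm _ _ hn.2.1 (not_le.1 h2).le)
  · -- dimension
    have hne : ∀ c ∈ Pairs g, U c.1 - U c.2 ≠ 0 := by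
      intro c hc h0
      have h1 : diff U c = 0 := by
        unfold PencilMoments.diff
        rw [h0, Polynomial.map_zero]
      exact hsq.ne_zero (prod_eq_zero hc h1)
    have hZ : {t : ℤ | ¬ Function.Injective (val U t)}.Finite := by
      have h1 : {t : ℤ | ¬ Function.Injective (val U t)} ⊆
          ⋃ c ∈ (Pairs g : Set (Fin (2 * g + 1) × Fin (2 * g + 1))),
            ((U c.1 - U c.2).roots.toFinset : Set ℤ) := by
        intro t ht
        rw [Set.mem_ofPred_eq, Function.Injective] at ht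
        push Not at ht
        obtain ⟨i, j, h2, h3⟩ := ht
        unfold PencilMoments.val at h2
        simp only [Set.mem_iUnion, mem_coe, Multiset.mem_toFinset, exists_prop]
        rcases lt_or_gt_of_ne h3 with h4 | h4
        · refine ⟨(i, j), (PencilMoments.mem_Pairs _).2 h4, ?_⟩
          rw [mem_roots (hne (i, j) ((PencilMoments.mem_Pairs _).2 h4)), IsRoot, eval_sub,
            sub_eq_zero]
          exact h2
        · refine ⟨(j, i), (PencilMoments.mem_Pairs _).2 h4, ?_⟩
          rw [mem_roots (hne (j, i) ((PencilMoments.mem_Pairs _).2 h4)), IsRoot, eval_sub,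
            sub_eq_zero]
          exact h2.symm
      exact ((finite_toSet _).biUnion fun c _ => finite_toSet _).subset h1
    obtain ⟨R, hR⟩ := Pool.Agent.Q1.RS.dim_mom' hf0 hk0 hmom hZ hδ
    obtain ⟨R', hR'⟩ := exists_nat_ge R
    refine ⟨R', fun u v huv => ?_⟩
    obtain ⟨X₀, hX₀⟩ := hR u v huv
    refine ⟨X₀, fun x hx0 hx => ?_⟩
    refine le_antisymm ((dimH_mono (Set.subset_univ _)).trans (by rw [Real.dimH_univ])) ?_
    rw [← hX₀ x hx0 hx]
    refine dimH_mono fun α hα => ⟨hα.1, hα.2.1, fun n => ?_⟩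
    obtain ⟨h1, h2⟩ := hα.2.2 n
    have h3 : Function.Injective (val U ⌊α * x n⌋) := not_not.1 h1
    exact ⟨h3, hsm _ _ h3 (h2.trans hR')⟩

end Pool.Agent.Results.MP_a43263_nt.JacobiansAlongSequences
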