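import Pool.Agent.Q161.ESG.JFin

/-!
# The groups `Ш(J_D)[2]` for ALL quadratic twists of hyperelliptic Jacobians: all moments are bounded

Let `h` be a monic polynomial of odd degree with integral coefficients, irreducible over `ℚ`, and `J_D` the
Jacobian of `D y² = h(x)`, `D` squarefree, in the natural order.  The only other hypothesis is that `h` has
degree three, or Galois group the full symmetric group, or that `J[2]` is a semisimple Galois module.
For every `k` there is a constant `C` such that

  `∑_{|D| ≤ X} (#Ш(J_D)[2])^k ≤ C X`,  `X ≥ 1`,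

and more generally the joint moments for finitely many such curves, of different genera, are bounded.

The proof (projects ESM, ESG, `Pool/Agent/Q161/ESM`, `Pool/Agent/Q161/ESG`) is a 2-descent on the Jacobians
combined with a sieve for the conjugates of elements of number fields and high moments of quadratic characters.
-/

set_option autoImplicit false

namespace Pool.Agent.Results.MP_a43263_nt.JointMomentsJacobians

open Finset Pool.Agent.Q161.ESG

/-- the product of the orders of the groups `Ш(J_(i,D))[2]`, `J_(i,D)` the Jacobian of `D y² = h_i(x)` -/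
noncomputable def shaSize {r : ℕ} (H : Fin r → HP) (D : ℤ) : ℕ :=
  ∏ i, Nat.card (ShaTorsion ((H i).twist D) 2)

/-- Let `h_1, …, h_r` be admissible polynomials.  (1) `Ш(J_(i,D))[2]` is finite for all squarefree `D`.  Let
`P(D)` be the product over `i` of the orders of these groups.  For every `k` there is a `C` such that for all
`X ≥ 1`, `D` running over the squarefree integers, `|D| ≤ X`: (2) `∑ P(D)^k ≤ C X`; (3) for all `T > 0` the
number of the `D` with `P(D) ≥ T` is at most `C X / T^k`; (4) for any nonempty set `S` of these `D`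
`∏_(D ∈ S) P(D)^k ≤ (C X / |S|)^|S|`.  (5) `x^5 - 4 x + 2` is admissible. -/
theorem result :
    (∀ (r : ℕ) (H : Fin r → HP), (∀ i, Admissible (H i)) →
      (∀ i, ∀ D : ℤ, Squarefree D → Finite (ShaTorsion ((H i).twist D) 2)) ∧
      ∀ k : ℕ, ∃ C : ℝ, 0 < C ∧ ∀ X : ℝ, 1 ≤ X →
        (∑ D ∈ sqfree X, (shaSize H D : ℝ) ^ k ≤ C * X) ∧
        (∀ T : ℝ, 0 < T →
          (((sqfree X).filter (fun D => T ≤ (shaSize H D : ℝ))).card : ℝ) ≤ C * X / T ^ k) ∧
        (∀ S : Finset ℤ, S ⊆ sqfree X → S.Nonempty →
          ∏ D ∈ S, (shaSize H D : ℝ) ^ k ≤ (C * X / S.card) ^ S.card)) ∧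
      Admissible quintic := by
  refine ⟨fun r H h => ⟨fun i D hD => (fin_both (h i) hD).2, fun k => ?_⟩, quintic_adm⟩
  obtain ⟨C, hC, h2⟩ := sha_moments H h k
  have hcast : ∀ D, (shaSize H D : ℝ) = ∏ i, (Nat.card (ShaTorsion ((H i).twist D) 2) : ℝ) := fun D => by
    unfold shaSize
    rw [Nat.cast_prod]
  refine ⟨C, hC, fun X hX => ?_⟩
  have h3 : ∑ D ∈ sqfree X, (shaSize H D : ℝ) ^ k ≤ C * X := by
    refine le_trans (le_of_eq (sum_congr rfl fun D _ => ?_)) (h2 X hX)
    rw [hcast]
  refine ⟨h3, fun T hT => ?_, fun S hS hne => ?_⟩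
  · rw [le_div_iff₀ (pow_pos hT k)]
    refine le_trans ?_ (le_trans (sum_le_sum_of_subset_of_nonneg (filter_subset
      (fun D => T ≤ (shaSize H D : ℝ)) (sqfree X)) (fun _ _ _ => by positivity)) h3)
    rw [← nsmul_eq_mul]
    exact card_nsmul_le_sum _ _ _ fun D hD => pow_le_pow_left₀ hT.le (mem_filter.1 hD).2 k
  · exact Pool.Agent.Q161.ESM.geom S hne _ (fun D _ => by positivity)
      (le_trans (sum_le_sum_of_subset_of_nonneg hS (fun _ _ _ => by positivity)) h3)

end Pool.Agent.Results.MP_a43263_nt.JointMomentsJacobians
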