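import Pool.Agent.Q50.MU.Growth

/-!
# The `μ`-invariants of the cyclotomic `ℤ_p`-extensions grow strictly unless they vanish

Let `p` be an odd prime and `L / F` an extension of number fields with `L ∩ F_∞ = F`, where `F_∞` is the cyclotomic
`ℤ_p`-extension of `F`.

* If `L / F` is a Galois `p`-extension whose group has a quotient `(ℤ/p)^d` and `F` has `r` archimedean places, then
  `μ(L) ≥ μ(F) + d m(F) - r`, where `m(F)` is the number of the summands `Λ / (p ^ (m_i))` of `X(F_∞)`. So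
  `μ(L) > μ(F)` if `d > r` and `μ(F) ≠ 0`.
* If `F` and `L` are CM fields then `μ⁻(L) ≥ μ⁻(F) + m⁻(F)` for every `L / F` of degree divisible by `p`, Galois or not
  (and `μ⁻(L) ≥ 2 μ⁻(F)` if the degree is divisible by `p ^ μ⁻(F)`), and
  `μ⁻(L) ≥ μ⁻(F) + (i(G) - 1) m⁻(F)` if `L / F` is a Galois `p`-extension with group `G`, where `i(G)` is the number of the
  irreducible constituents of the regular representation of `G` over `ℚ`.
-/

set_option autoImplicit false
set_option maxHeartbeats 4000000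
set_option synthInstance.maxHeartbeats 400000

namespace Pool.Agent.Results.MP_a4986b_nt.StrictGrowth

open Pool.Agent.Q173.MU Pool.Agent.Q50.MU NumberField IsLocalRing

/-- The exponent of `p` in the class number of `K`. -/
noncomputable def vh (p : ℕ) (K : IntermediateField ℚ ℂ) : ℕ := padicValNat p (Nat.card (ClassGroup (𝓞 K)))

/-- Iwasawa's conjecture for the field `F` (the form of the frozen statement): the exponent of `p` in the class number of
the layer `F_m` is at most `C (m + 1)`, i.e. `μ(F) = 0`. -/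
def MuZero (p : ℕ) (F : IntermediateField ℚ ℂ) : Prop :=
  ∃ C : ℕ, ∀ m K, IsLayer p m F K → vh p K ≤ C * (m + 1)

/-- The real numbers as a subfield of `ℂ`. -/
noncomputable def realField : IntermediateField ℚ ℂ := (IsScalarTower.toAlgHom ℚ ℝ ℂ).fieldRange

/-- The maximal real subfield of `K`. -/
noncomputable def plus (K : IntermediateField ℚ ℂ) : IntermediateField ℚ ℂ := K ⊓ realField

/-- `K` is totally real. -/
def IsTotReal (K : IntermediateField ℚ ℂ) : Prop :=
  FiniteDimensional ℚ K ∧ ∀ v : InfinitePlace K, v.IsReal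

/-- `K` is a CM field. -/
def IsCM (K : IntermediateField ℚ ℂ) : Prop :=
  FiniteDimensional ℚ K ∧ (∀ v : InfinitePlace K, v.IsComplex) ∧ (∀ v : InfinitePlace (plus K), v.IsReal) ∧
    deg (plus K) K = 2

/-- The exponent of `p` in the class number, as a real number. -/
noncomputable def vR (p : ℕ) (K : IntermediateField ℚ ℂ) : ℝ := vh p K

/-- The exponent of `p` in the relative class number `h(K) / h(K⁺)`. -/
noncomputable def vM (p : ℕ) (K : IntermediateField ℚ ℂ) : ℝ := (vh p K : ℝ) - vh p (plus K)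

/-- `F` contains a primitive `p`-th root of unity. -/
def HasRoot (p : ℕ) (F : IntermediateField ℚ ℂ) : Prop := ∃ ζ ∈ F, IsPrimitiveRoot ζ p

/-- The known properties of the modules `D.X F = X(F_∞) ⊗_Λ Λ_(p)`. -/
structure Known (D : IwData) (p : ℕ) : Prop where
  loc : D.IsLoc p
  dvr : IsDvr D.O
  torsion : D.IsTorsion
  formula : ∀ F : IntermediateField ℚ ℂ, FiniteDimensional ℚ F → HasFormula p (vR p) F (D.mu F)
  pres : D.HasPres p (fun _ => True)
  layers : HasLayers p
  /-- every number field has Galois `p`-extensions with the group `(ℤ/p)^d` and `L ∩ F_∞ = F` (composites with cyclic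
  extensions of `ℚ` of degree `p` ramified at suitable primes) -/
  ext : ∀ (F : IntermediateField ℚ ℂ) (d : ℕ), FiniteDimensional ℚ F → ∃ (L : IntermediateField ℚ ℂ) (h : F ≤ L), IsExt p h ∧
    IsPGroup p (GalGrp h) ∧ HasElemQuot p d (GalGrp h)

/-- The known properties of the minus parts: for CM fields, `D.X F = X(F_∞)⁻ ⊗_Λ Λ_(p)`. -/
structure KnownMinus (D : IwData) (p : ℕ) : Prop where
  loc : D.IsLoc p
  dvr : IsDvr D.O
  torsion : ∀ F, IsCM F → Module.Finite D.O (D.X F) ∧ Module.length D.O (D.X F) ≠ ⊤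
  formula : ∀ F, IsCM F → HasFormula p (vM p) F (D.mu F)
  /-- Square presentations: for a Galois `p`-extension `L / F` of CM fields with group `G` and `L ∩ F_∞ = F` the minus part
  of the complex `RΓ_Iw(𝓞_{F,S}, ℤ_p[G](1)) ⊗_Λ O` of `O[G]`-modules has the Euler characteristic `0`, and its only
  cohomology module is `D.X L`, in degree `2`. -/
  pres : ∀ (F L : IntermediateField ℚ ℂ) (h : F ≤ L), IsCM F → IsCM L → IsExt p h → IsPGroup p (GalGrp h) →
    IsPres D.O (GalGrp h) (D.X L) (D.X F) (D.m F) (D.m F)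
  /-- For every extension `L / F` of CM fields with `L ∩ F_∞ = F` the extension of ideals is injective on the localised
  modules (the minus part of the units is finite), the norm is surjective, and the composite is `[L : F]`. -/
  transfer : ∀ (F L : IntermediateField ℚ ℂ), F ≤ L → IsCM F → IsCM L → IsDisj p F L →
    ∃ (j : D.X F →ₗ[D.O] D.X L) (N : D.X L →ₗ[D.O] D.X F), Function.Injective j ∧ Function.Surjective N ∧
      ∀ x, N (j x) = (deg F L : D.O) • x
  /-- If `F` contains the `p`-th roots of unity then `μ⁺ ≤ μ⁻`. -/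
  reflection : ∀ F, IsCM F → HasRoot p F → IsSmall p (vM p) F → IsSmall p (vR p) F
  /-- Iwasawa's conjecture for a field implies the conjecture for the subfields. -/
  mono : ∀ F L : IntermediateField ℚ ℂ, F ≤ L → FiniteDimensional ℚ L → MuZero p L → MuZero p F
  /-- A totally real field or a CM field is contained in a CM field with the `p`-th roots of unity. -/
  adj : ∀ F, (IsTotReal F ∨ IsCM F) → ∃ F', F ≤ F' ∧ IsCM F' ∧ HasRoot p F'
  /-- Every CM field has cyclic extensions of degree `p` which are CM fields and satisfy `L ∩ F_∞ = F`. -/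
  ext : ∀ F, IsCM F → ∃ (L : IntermediateField ℚ ℂ) (h : F ≤ L), IsCM L ∧ IsExt p h ∧
    IsPGroup p (GalGrp h) ∧ p ∣ deg F L

/-- `L / F` is a Galois `p`-extension with `L ∩ F_∞ = F` whose group has a quotient `(ℤ/p)^d`. -/
def IsPExt (p d : ℕ) (F L : IntermediateField ℚ ℂ) : Prop :=
  ∃ h : F ≤ L, IsExt p h ∧ IsPGroup p (GalGrp h) ∧ HasElemQuot p d (GalGrp h)

/-- `L / F` is an extension of CM fields of degree divisible by `p` with `L ∩ F_∞ = F` (not necessarily Galois). -/
def IsCMExt (p : ℕ) (F L : IntermediateField ℚ ℂ) : Prop :=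
  F ≤ L ∧ IsCM F ∧ IsCM L ∧ IsDisj p F L ∧ p ∣ deg F L

section

variable {p : ℕ}

lemma muZero_iff (F : IntermediateField ℚ ℂ) : MuZero p F ↔ IsSmall p (vR p) F := by
  constructor
  · rintro ⟨C, hC⟩
    refine ⟨C, fun m K hK => ?_⟩
    have h1 := hC m K hK
    unfold vR
    exact_mod_cast h1
  · rintro ⟨C, hC⟩
    refine ⟨⌈C⌉₊, fun m K hK => ?_⟩
    have h1 := hC m K hK
    have h2 : (vh p K : ℝ) ≤ (⌈C⌉₊ * (m + 1) : ℕ) := by
      refine h1.trans ?_
      push_cast
      exact mul_le_mul_of_nonneg_right (Nat.le_ceil C) (by positivity)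
    exact_mod_cast h2

lemma isSmall_minus {F : IntermediateField ℚ ℂ} (h : MuZero p F) : IsSmall p (vM p) F := by
  rw [muZero_iff] at h
  obtain ⟨C, hC⟩ := h
  refine ⟨C, fun m K hK => le_trans ?_ (hC m K hK)⟩
  unfold vM vR
  linarith [(Nat.cast_nonneg (vh p (plus K)) : (0 : ℝ) ≤ _)]

lemma finite_left {d : ℕ} {F L : IntermediateField ℚ ℂ} (hL : IsPExt p d F L) :
    F ≤ L ∧ FiniteDimensional ℚ F ∧ FiniteDimensional ℚ L ∧ IsDisj p F L := by
  obtain ⟨h, hE, hP, hd⟩ := hL
  have hLf : FiniteDimensional ℚ L := hE.1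
  exact ⟨h, Module.Finite.of_injective (IntermediateField.inclusion h).toLinearMap
    (IntermediateField.inclusion_injective h), hE.1, hE.2.2⟩

variable {D Dm : IwData}

/-- The minus part vanishes if and only if it has no generators. -/
lemma mu_zero_minus (hm : KnownMinus Dm p) {F : IntermediateField ℚ ℂ} (hF : IsCM F) :
    Dm.mu F = 0 ↔ Dm.m F = 0 := by
  obtain ⟨h1, h2⟩ := hm.torsion F hF
  have h3 : Dm.m F = 0 ↔ Module.length Dm.O (Dm.X F) = 0 := rk_eq_zero_iff
  rw [h3]
  unfold IwData.mu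
  rw [ENat.toNat_eq_zero]
  constructor
  · rintro (h | h)
    · exact h
    · exact absurd h h2
  · exact Or.inl

/-- **CM fields, arbitrary extensions.** -/
lemma mu_le_cm (hm : KnownMinus Dm p) {F L : IntermediateField ℚ ℂ} (hL : IsCMExt p F L) :
    Dm.mu F + Dm.m F ≤ Dm.mu L := by
  obtain ⟨h, hF, hLc, hdj, hdvd⟩ := hL
  obtain ⟨j, N, hj, hN, hjN⟩ := hm.transfer F L h hF hLc hdj
  have hC := hm.loc.2
  obtain ⟨hfin, hlen⟩ := hm.torsion F hF
  have h1 := length_ge_of_dvd (p := p) hlen j N (deg F L) hj hN hjN hdvd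
  have h2 := (hm.torsion L hLc).2
  rw [← len_eq h2, ← len_eq hlen] at h1
  exact_mod_cast h1

/-- **CM fields: doubling.** -/
lemma two_mu_le_cm (hm : KnownMinus Dm p) {F L : IntermediateField ℚ ℂ} (hL : IsCMExt p F L)
    (hd : p ^ Dm.mu F ∣ deg F L) : 2 * Dm.mu F ≤ Dm.mu L := by
  obtain ⟨h, hF, hLc, hdj, hdvd⟩ := hL
  obtain ⟨j, N, hj, hN, hjN⟩ := hm.transfer F L h hF hLc hdj
  have hC := hm.loc.2
  obtain ⟨hfin, hlen⟩ := hm.torsion F hF
  exact two_len_le (p := p) (hm.torsion L hLc).2 hlen j N (deg F L) hj hN hjN hd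

variable [hp : Fact p.Prime]

/-- **All number fields.** -/
lemma mu_add_le (hD : Known D p) {d : ℕ} {F L : IntermediateField ℚ ℂ} (hL : IsPExt p d F L) :
    D.mu F + d * D.m F ≤ D.mu L + places F := by
  obtain ⟨h, hE, hP, hd⟩ := hL
  have hfin := finite_gal hE
  have hC := hD.loc.2
  have hLf : FiniteDimensional ℚ L := hE.1
  have hF : FiniteDimensional ℚ F := Module.Finite.of_injective (IntermediateField.inclusion h).toLinearMap
    (IntermediateField.inclusion_injective h)
  exact len_add_ge (p := p) hD.dvr hP (hD.pres F L h trivial hE hP) (hD.torsion L hLf).2 (hD.torsion F hF).2 hd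

lemma growth_all (hD : Known D p) {d : ℕ} {F L : IntermediateField ℚ ℂ} (hL : IsPExt p d F L) (h0 : ¬ MuZero p F) :
    GrowsBy p (vR p) F L (d - places F) := by
  obtain ⟨h, hF, hLf, hdj⟩ := finite_left hL
  rw [muZero_iff, isSmall_iff hD.layers hF (hD.formula F hF)] at h0
  have hm : 1 ≤ D.m F := by
    rw [D.mu_eq_zero_iff hD.torsion hF] at h0
    exact Nat.one_le_iff_ne_zero.2 h0
  have h1 := mu_add_le hD hL
  have h2 : D.mu F + d ≤ D.mu L + places F := by
    have : d * 1 ≤ d * D.m F := Nat.mul_le_mul_left d hm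
    omega
  refine growsBy_of h hLf hdj (hD.formula F hF) (hD.formula L hLf) ?_
  have h3 : (D.mu F : ℝ) + d ≤ D.mu L + places F := by exact_mod_cast h2
  linarith

omit hp in
/-- Iwasawa's theorem: the vanishing of `μ` goes up. -/
lemma mu_up (hD : Known D p) {d : ℕ} {F L : IntermediateField ℚ ℂ} (hL : IsPExt p d F L) (h0 : D.mu F = 0) :
    D.mu L = 0 := by
  obtain ⟨_, hF, hLf, _⟩ := finite_left hL
  obtain ⟨h, hE, hP, hd⟩ := hL
  have hfin := finite_gal hE
  rw [D.mu_eq_zero_iff hD.torsion hF] at h0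
  rw [D.mu_eq_zero_iff hD.torsion hLf]
  have h1 : D.m L ≤ Nat.card (GalGrp h) * D.m F := (hD.pres F L h trivial hE hP).rk_le
  rw [h0, mul_zero] at h1
  exact Nat.le_zero.1 h1

lemma iff_all (hD : Known D p) {d : ℕ} {F L : IntermediateField ℚ ℂ} (hL : IsPExt p d F L) {c : ℝ} (hc : 0 < c)
    (hc' : c < d - places F) : MuZero p F ↔ SmallGrowth p (vR p) F L c := by
  obtain ⟨h, hF, hLf, hdj⟩ := finite_left hL
  constructor
  · intro h0
    have h1 : D.mu F = 0 := by
      rwa [muZero_iff, isSmall_iff hD.layers hF (hD.formula F hF)] at h0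
    have h2 := hD.formula F hF
    have h3 := hD.formula L hLf
    rw [h1] at h2
    rw [mu_up hD hL h1] at h3
    exact smallGrowth_of hD.layers h hF h2 h3 hc
  · intro hs
    by_contra h0
    exact not_smallGrowth hF hc' (growth_all hD hL h0) hs

/-- **CM fields, Galois `p`-extensions.** -/
lemma mu_le_irr (hm : KnownMinus Dm p) {F L : IntermediateField ℚ ℂ} (h : F ≤ L) (hF : IsCM F) (hL : IsCM L)
    (hE : IsExt p h) (hP : IsPGroup p (GalGrp h)) : Dm.mu F + (irr (GalGrp h) - 1) * Dm.m F ≤ Dm.mu L := by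
  have hfin := finite_gal hE
  have hC := hm.loc.2
  exact len_ge_irr (p := p) hm.dvr hP (hm.pres F L h hF hL hE hP) (hm.torsion L hL).2 (hm.torsion F hF).2

lemma growth_of_mu (hl : HasLayers p) (hm : KnownMinus Dm p) {F L : IntermediateField ℚ ℂ} (h : F ≤ L) (hF : IsCM F)
    (hL : IsCM L) (hdj : IsDisj p F L) (h0 : ¬ IsSmall p (vM p) F) {n : ℕ} (hmu : Dm.mu F + n * Dm.m F ≤ Dm.mu L) :
    GrowsBy p (vM p) F L n := by
  rw [isSmall_iff hl hF.1 (hm.formula F hF), mu_zero_minus hm hF] at h0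
  have h1 : 1 ≤ Dm.m F := Nat.one_le_iff_ne_zero.2 h0
  refine growsBy_of h hL.1 hdj (hm.formula F hF) (hm.formula L hL) ?_
  have h2 : Dm.mu F + n ≤ Dm.mu L := by
    have : n * 1 ≤ n * Dm.m F := Nat.mul_le_mul_left n h1
    omega
  exact_mod_cast h2

lemma iff_irr (hl : HasLayers p) (hm : KnownMinus Dm p) {F L : IntermediateField ℚ ℂ} (h : F ≤ L) (hF : IsCM F)
    (hL : IsCM L) (hE : IsExt p h) (hP : IsPGroup p (GalGrp h)) {c : ℝ} (hc : 0 < c)
    (hc' : c < (irr (GalGrp h) - 1 : ℕ)) : IsSmall p (vM p) F ↔ SmallGrowth p (vM p) F L c := by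
  constructor
  · intro h0
    have h1 : Dm.mu F = 0 := by
      rwa [isSmall_iff hl hF.1 (hm.formula F hF)] at h0
    have h4 : Dm.mu L = 0 := by
      have hfin := finite_gal hE
      rw [mu_zero_minus hm hL]
      have h5 : Dm.m L ≤ Nat.card (GalGrp h) * Dm.m F := (hm.pres F L h hF hL hE hP).rk_le
      rw [(mu_zero_minus hm hF).1 h1, mul_zero] at h5
      exact Nat.le_zero.1 h5
    have h2 := hm.formula F hF
    have h3 := hm.formula L hL
    rw [h1] at h2
    rw [h4] at h3
    exact smallGrowth_of hl h hF.1 h2 h3 hc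
  · intro hs
    by_contra h0
    exact not_smallGrowth hF.1 hc' (growth_of_mu hl hm h hF hL hE.2.2 h0 (mu_le_irr hm h hF hL hE hP)) hs

end

/-- Let `p` be an odd prime. `F_m = F ℚ_m` are the layers of the cyclotomic `ℤ_p`-extension `F_∞` of the number field `F`,
`v` is the exponent of `p` in the class number and `v⁻` the exponent of `p` in the relative class number of a CM field.
Assume the known properties of the Iwasawa modules.

(1) Let `F` be a number field with `r` archimedean places and `L / F` a Galois `p`-extension with `L ∩ F_∞ = F` whose group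
has a quotient `(ℤ/p)^d`. Then `μ(L) ≥ μ(F) + d m(F) - r`. Either `v(F_m) = O(m)` (Iwasawa's conjecture for `F`) or
`v(L F_m) ≥ v(F_m) + (d - r) [F_m : F] - O(m)`. For `0 < c < d - r` the conjecture for `F` holds if and only if
`v(L F_m) ≤ v(F_m) + c [F_m : F]` for infinitely many `m`.

(2) Let `L / F` be an extension of CM fields with `L ∩ F_∞ = F` and `p ∣ [L : F]`, Galois or not. Then
`μ⁻(L) ≥ μ⁻(F) + m⁻(F)`, and `μ⁻(L) ≥ 2 μ⁻(F)` if `[L : F]` is divisible by `p ^ μ⁻(F)`. Either `v⁻(F_m) = O(m)` or `v⁻(L F_m) ≥ v⁻(F_m) + [F_m : F] - O(m)`.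

(3) Let `L / F` be a Galois `p`-extension of CM fields with group `G` and `L ∩ F_∞ = F`. Let `i(G)` be the number of the
irreducible constituents of the regular representation of `G` over `ℚ`. Then `μ⁻(L) ≥ μ⁻(F) + (i(G) - 1) m⁻(F)`. Either
`v⁻(F_m) = O(m)` or `v⁻(L F_m) ≥ v⁻(F_m) + (i(G) - 1) [F_m : F] - O(m)`. For `0 < c < i(G) - 1` one has `v⁻(F_m) = O(m)` if
and only if `v⁻(L F_m) ≤ v⁻(F_m) + c [F_m : F]` for infinitely many `m`.

(4) If the CM field `F` contains the `p`-th roots of unity then `v⁻(F_m) = O(m)` if and only if `v(F_m) = O(m)`.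

(5) Iwasawa's conjecture holds for all number fields if and only if for every number field `F` there are `d`, `L` as in (1)
and `c < d - r` such that `v(L F_m) ≤ v(F_m) + c [F_m : F]` for infinitely many `m`.

(6) Iwasawa's conjecture holds for all totally real fields and all CM fields if and only if for every CM field `F` which
contains the `p`-th roots of unity there are `L` as in (2) and `c < 1` such that `v⁻(L F_m) ≤ v⁻(F_m) + c [F_m : F]` for
infinitely many `m`.

(7) `i(G) ≥ n + 1` for a group of order `p ^ n`, and `(i(G) - 1) φ(N) ≥ |G| - 1` for a finite abelian group of exponent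
dividing `N`. -/
theorem result (p : ℕ) [Fact p.Prime] (_ : p ≠ 2) (D Dm : IwData) (hD : Known D p) (hm : KnownMinus Dm p) :
    (∀ (d : ℕ) (F L : IntermediateField ℚ ℂ), IsPExt p d F L → D.mu F + d * D.m F ≤ D.mu L + places F ∧
      (MuZero p F ∨ GrowsBy p (vR p) F L (d - places F)) ∧
      ∀ c : ℝ, 0 < c → c < d - places F → (MuZero p F ↔ SmallGrowth p (vR p) F L c)) ∧
    (∀ F L : IntermediateField ℚ ℂ, IsCMExt p F L → Dm.mu F + Dm.m F ≤ Dm.mu L ∧
      (p ^ Dm.mu F ∣ deg F L → 2 * Dm.mu F ≤ Dm.mu L) ∧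
      (IsSmall p (vM p) F ∨ GrowsBy p (vM p) F L 1) ∧
      ∀ c : ℝ, c < 1 → SmallGrowth p (vM p) F L c → IsSmall p (vM p) F) ∧
    (∀ (F L : IntermediateField ℚ ℂ) (h : F ≤ L), IsCM F → IsCM L → IsExt p h → IsPGroup p (GalGrp h) →
      Dm.mu F + (irr (GalGrp h) - 1) * Dm.m F ≤ Dm.mu L ∧
      (IsSmall p (vM p) F ∨ GrowsBy p (vM p) F L (irr (GalGrp h) - 1 : ℕ)) ∧
      ∀ c : ℝ, 0 < c → c < (irr (GalGrp h) - 1 : ℕ) → (IsSmall p (vM p) F ↔ SmallGrowth p (vM p) F L c)) ∧
    (∀ F, IsCM F → HasRoot p F → (IsSmall p (vM p) F ↔ MuZero p F)) ∧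
    ((∀ F : IntermediateField ℚ ℂ, FiniteDimensional ℚ F → MuZero p F) ↔
      ∀ F : IntermediateField ℚ ℂ, FiniteDimensional ℚ F → ∃ (d : ℕ) (L : IntermediateField ℚ ℂ) (c : ℝ),
        IsPExt p d F L ∧ c < d - places F ∧ SmallGrowth p (vR p) F L c) ∧
    ((∀ F : IntermediateField ℚ ℂ, (IsTotReal F ∨ IsCM F) → MuZero p F) ↔
      ∀ F : IntermediateField ℚ ℂ, IsCM F → HasRoot p F → ∃ (L : IntermediateField ℚ ℂ) (c : ℝ),
        IsCMExt p F L ∧ c < 1 ∧ SmallGrowth p (vM p) F L c) ∧
    ((∀ (G : Type) [Group G] [Finite G] (n : ℕ), Nat.card G = p ^ n → n + 1 ≤ irr G) ∧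
      ∀ (G : Type) [CommGroup G] [Finite G] (N : ℕ), 0 < N → (∀ g : G, g ^ N = 1) →
        Nat.card G ≤ 1 + (irr G - 1) * N.totient) := by
  have h2 : ∀ F L : IntermediateField ℚ ℂ, IsCMExt p F L → Dm.mu F + Dm.m F ≤ Dm.mu L ∧
      (p ^ Dm.mu F ∣ deg F L → 2 * Dm.mu F ≤ Dm.mu L) ∧
      (IsSmall p (vM p) F ∨ GrowsBy p (vM p) F L 1) ∧
      ∀ c : ℝ, c < 1 → SmallGrowth p (vM p) F L c → IsSmall p (vM p) F := by
    intro F L hL
    have h3 := mu_le_cm hm hL
    obtain ⟨h, hF, hLc, hdj, hdvd⟩ := id hL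
    have hg : ¬ IsSmall p (vM p) F → GrowsBy p (vM p) F L 1 := by
      intro h0
      have h4 := growth_of_mu (n := 1) hD.layers hm h hF hLc hdj h0 (by rw [one_mul]; exact h3)
      rwa [Nat.cast_one] at h4
    refine ⟨h3, two_mu_le_cm hm hL, ?_, fun c hc hs => ?_⟩
    · by_cases h0 : IsSmall p (vM p) F
      · exact Or.inl h0
      · exact Or.inr (hg h0)
    · by_contra h0
      exact not_smallGrowth hF.1 hc (hg h0) hs
  have h4 : ∀ F, IsCM F → HasRoot p F → (IsSmall p (vM p) F ↔ MuZero p F) := by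
    intro F hF hr
    exact ⟨fun h => (muZero_iff F).2 (hm.reflection F hF hr h), isSmall_minus⟩
  refine ⟨?_, h2, ?_, h4, ?_, ?_, ?_⟩
  · intro d F L hL
    refine ⟨mu_add_le hD hL, ?_, fun c hc hc' => iff_all hD hL hc hc'⟩
    by_cases h0 : MuZero p F
    · exact Or.inl h0
    · exact Or.inr (growth_all hD hL h0)
  · intro F L h hF hL hE hP
    have h3 := mu_le_irr hm h hF hL hE hP
    refine ⟨h3, ?_, fun c hc hc' => iff_irr hD.layers hm h hF hL hE hP hc hc'⟩
    by_cases h0 : IsSmall p (vM p) F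
    · exact Or.inl h0
    · exact Or.inr (growth_of_mu hD.layers hm h hF hL hE.2.2 h0 h3)
  · constructor
    · intro hall F hF
      obtain ⟨L, h, hE, hP, hd⟩ := hD.ext F (places F + 1) hF
      refine ⟨places F + 1, L, 1 / 2, ⟨h, hE, hP, hd⟩, ?_, ?_⟩
      · push_cast
        linarith
      · refine (iff_all hD ⟨h, hE, hP, hd⟩ (by norm_num) ?_).1 (hall F hF)
        push_cast
        linarith
    · intro hall F hF
      obtain ⟨d, L, c, hL, hc, hs⟩ := hall F hF
      by_contra h0
      exact not_smallGrowth hF hc (growth_all hD hL h0) hs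
  · constructor
    · intro hall F hF hr
      obtain ⟨L, h, hL, hE, hP, hdvd⟩ := hm.ext F hF
      refine ⟨L, 1 / 2, ⟨h, hF, hL, hE.2.2, hdvd⟩, by norm_num, ?_⟩
      have e1 := isSmall_minus (hall F (Or.inr hF))
      have e2 := isSmall_minus (hall L (Or.inr hL))
      rw [isSmall_iff hD.layers hF.1 (hm.formula F hF)] at e1
      rw [isSmall_iff hD.layers hL.1 (hm.formula L hL)] at e2
      have e3 := hm.formula F hF
      have e4 := hm.formula L hL
      rw [e1] at e3
      rw [e2] at e4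
      exact smallGrowth_of hD.layers h hF.1 e3 e4 (by norm_num)
    · intro hall F hF
      obtain ⟨F', hle, hF', hr⟩ := hm.adj F hF
      obtain ⟨L, c, hL, hc, hs⟩ := hall F' hF' hr
      exact hm.mono F F' hle hF'.1 ((h4 F' hF' hr).1 ((h2 F' L hL).2.2.2 c hc hs))
  · exact ⟨fun G _ _ n hn => le_irr_of_card hn, fun G _ _ N hN hG => card_le_irr hN hG⟩

end Pool.Agent.Results.MP_a4986b_nt.StrictGrowth
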