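import Pool.Agent.Q241.SPL.Gen

/-!
# Thick oscillations of `M(x)` and `L(x)`

Let `0 ≤ θ < 1`. Unconditionally:

* for every nontrivial zero `ρ` there is `c > 0` such that every window `[X, X log X]`, `X` large, contains a
  whole interval `[x - x^θ, x + x^θ]` on which `M(y) ≥ c y^(Re ρ)`, and another one on which
  `M(y) ≤ -c y^(Re ρ)`; with an additional factor `log y` if `ρ` is a multiple zero;
* if for all large `x` the interval `[x - x^θ, x + x^θ]` contains at least one point `y` with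
  `± M(y) ≤ D √y`, then RH holds, all zeros are simple and all the sums of Ingham (which Odlyzko and
  te Riele evaluated, for bounds at all `y`) are at most `D`; the same for `L(x)`;
* for `c ≥ 1/2` there are no zeros with real part `> c` iff for every `ε > 0` and all large `x` some `y` in
  `[x - x^θ, x + x^θ]` satisfies `± M(y) ≤ y^(c+ε)`, and iff this holds for `± L(y)`.

In particular it is enough to know the values at the `k`-th powers, for one fixed `k`.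
-/

set_option autoImplicit false

open Filter Topology

namespace Pool.Agent.Results.MP_a499ba_nt.ThickOscillations

/-- the summatory function of the Moebius function -/
noncomputable def M (x : ℝ) : ℝ := ∑ n ∈ Finset.Icc 1 ⌊x⌋₊, ((ArithmeticFunction.moebius n : ℤ) : ℝ)

/-- the summatory function of the Liouville function -/
noncomputable def L (x : ℝ) : ℝ := ∑ n ∈ Finset.Icc 1 ⌊x⌋₊, ((ArithmeticFunction.liouville n : ℤ) : ℝ)

/-- the nontrivial zeros of the Riemann zeta function -/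
def Zer : Set ℂ := {ρ : ℂ | riemannZeta ρ = 0 ∧ 0 < ρ.re ∧ ρ.re < 1}

/-- for all large `x` the interval `[x - x^θ, x + x^θ]` contains a point `y` with `s A(y) ≤ D y^c` -/
def Thin (θ s : ℝ) (A : ℝ → ℝ) (D c : ℝ) : Prop :=
  ∃ x₀ : ℝ, ∀ x : ℝ, x₀ ≤ x → ∃ y : ℝ, |y - x| ≤ x ^ θ ∧ s * A y ≤ D * y ^ c

/-- Ingham's sum `∑_{|γ| < T} (1 - |γ|/T) e^(iγv) q(ρ)/(ρ ζ'(ρ))` over the nontrivial zeros `ρ` with
ordinate `γ`, `|γ| < T` (finitely many) -/
noncomputable def Ingham (q : ℂ → ℂ) (T v : ℝ) : ℝ :=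
  ∑ᶠ ρ ∈ {ρ : ℂ | ρ ∈ Zer ∧ |ρ.im| < T},
    (1 - |ρ.im| / T) * (Complex.exp (ρ.im * v * Complex.I) * (q ρ / (ρ * deriv riemannZeta ρ))).re

theorem result {θ : ℝ} (hθ0 : 0 ≤ θ) (hθ : θ < 1) :
    -- whole intervals of large values, of both signs, in every window
    (∀ ρ ∈ Zer, ∃ c : ℝ, 0 < c ∧ ∀ᶠ X : ℝ in atTop, ∀ s : ℝ, s = 1 ∨ s = -1 →
      ∃ x : ℝ, X ≤ x - x ^ θ ∧ x + x ^ θ ≤ X * Real.log X ∧
        ∀ y : ℝ, |y - x| ≤ x ^ θ → c * y ^ ρ.re ≤ s * M y) ∧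
    (∀ ρ ∈ Zer, deriv riemannZeta ρ = 0 → ∃ c : ℝ, 0 < c ∧ ∀ᶠ X : ℝ in atTop, ∀ s : ℝ, s = 1 ∨ s = -1 →
      ∃ x : ℝ, X ≤ x - x ^ θ ∧ x + x ^ θ ≤ X * Real.log X ∧
        ∀ y : ℝ, |y - x| ≤ x ^ θ → c * (y ^ ρ.re * Real.log y) ≤ s * M y) ∧
    -- the constants, for `M`
    (∀ s : ℝ, s = 1 ∨ s = -1 → ∀ D : ℝ, Thin θ s M D (1 / 2) →
      (∀ ρ ∈ Zer, ρ.re = 1 / 2 ∧ deriv riemannZeta ρ ≠ 0 ∧ 1 / ‖ρ * deriv riemannZeta ρ‖ ≤ D) ∧
      ∀ T : ℝ, 0 < T → ∀ v : ℝ, s * Ingham (fun _ => 1) T v ≤ D) ∧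
    -- the constants, for `L`
    (∀ s : ℝ, s = 1 ∨ s = -1 → ∀ D : ℝ, Thin θ s L D (1 / 2) →
      (∀ ρ ∈ Zer, ρ.re = 1 / 2 ∧ deriv riemannZeta ρ ≠ 0 ∧
        s * (1 / riemannZeta (1 / 2)).re + ‖riemannZeta (2 * ρ) / (ρ * deriv riemannZeta ρ)‖ ≤ D) ∧
      ∀ T : ℝ, 0 < T → ∀ v : ℝ,
        s * ((1 / riemannZeta (1 / 2)).re + Ingham (fun ρ => riemannZeta (2 * ρ)) T v) ≤ D) ∧
    -- zero-free half planes
    (∀ c : ℝ, 1 / 2 ≤ c → ∀ s : ℝ, s = 1 ∨ s = -1 →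
      ((∀ ρ ∈ Zer, ρ.re ≤ c) ↔ ∀ ε : ℝ, 0 < ε → Thin θ s M 1 (c + ε)) ∧
      ((∀ ρ ∈ Zer, ρ.re ≤ c) ↔ ∀ ε : ℝ, 0 < ε → Thin θ s L 1 (c + ε))) ∧
    -- bounds on a set which meets all the intervals suffice
    (∀ P : Set ℝ, (∃ x₀ : ℝ, ∀ x : ℝ, x₀ ≤ x → ∃ y ∈ P, |y - x| ≤ x ^ θ) → ∀ (s : ℝ) (A : ℝ → ℝ) (D c : ℝ),
      (∃ y₀ : ℝ, ∀ y ∈ P, y₀ ≤ y → s * A y ≤ D * y ^ c) → Thin θ s A D c) ∧
    -- the `k`-th powers are such a set for `θ = 1 - 1/(2k)`
    (∀ k : ℕ, 1 ≤ k → ∃ x₀ : ℝ, ∀ x : ℝ, x₀ ≤ x →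
      ∃ y ∈ {y : ℝ | ∃ n : ℕ, y = (n : ℝ) ^ k}, |y - x| ≤ x ^ (1 - 1 / (2 * (k : ℝ)))) := by
  -- the sets of good points
  have hthin : ∀ {s : ℝ} {A : ℝ → ℝ} {D c : ℝ}, Thin θ s A D c →
      Q241SPL.Meets θ {y : ℝ | s * A y ≤ D * y ^ c} := by
    rintro s A D c ⟨x₀, h⟩
    refine ⟨x₀, fun x hx => ?_⟩
    obtain ⟨y, h1, h2⟩ := h x hx
    exact ⟨y, h2, h1⟩
  have hlarge : ∀ Y : ℝ, ∃ X : ℝ, ∀ x : ℝ, X ≤ x → ∀ y : ℝ, |y - x| ≤ x ^ θ → Y ≤ y := by
    intro Y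
    obtain ⟨v₁, hv₁, h⟩ := Q241SPL.ratio (c := 0) hθ (show (0:ℝ) < 1 by norm_num) 0
    refine ⟨max (Real.exp v₁) (2 * |Y|), fun x hx y hy => ?_⟩
    have hx0 : 0 < x := (Real.exp_pos v₁).trans_le ((le_max_left _ _).trans hx)
    have h1 := (h (Real.log x) (by
      rw [Real.le_log_iff_exp_le hx0]; exact (le_max_left _ _).trans hx) y (by
      rw [Real.exp_log hx0, mul_comm, Real.exp_mul, Real.exp_log hx0]; exact hy)).1
    rw [Real.exp_log hx0] at h1
    have h2 := (le_max_right _ _).trans hx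
    have h3 := le_abs_self Y
    linarith
  refine ⟨fun ρ hρ => Q241SPL.both_signs hθ0 hθ hρ, fun ρ hρ hd => Q241SPL.both_signs_multiple hθ0 hθ hρ hd,
    ?_, ?_, ?_, ?_, fun k hk => Q241SPL.meets_powers hk⟩
  · intro s hs D hD
    have hP := hthin hD
    rcases hs with rfl | rfl
    · obtain ⟨h1, h2, h3⟩ := Q241SPL.qd_mu.final Q241SPL.beta_mu hθ hP (D := D) (by
        refine ⟨0, fun y hy _ => ?_⟩
        have h4 : 1 * M y ≤ D * y ^ (1 / 2 : ℝ) := hy
        rw [one_mul] at h4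
        exact h4)
      refine ⟨fun ρ hρ => ⟨(h1 ρ hρ).1, (h1 ρ hρ).2, ?_⟩, fun T hT v => ?_⟩
      · have := h2 ρ hρ
        simpa using this
      · have := h3 T hT v
        simp only [mul_zero, zero_div, Complex.zero_re, zero_add] at this
        rw [one_mul]
        exact this
    · obtain ⟨h1, h2, h3⟩ := Q241SPL.qd_mu.neg.final (β := 0) (by
        have := Q241SPL.beta_mu.neg
        rw [neg_zero] at this
        refine this.congr fun σ => by ring) hθ hP (D := D) (by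
        refine ⟨0, fun y hy _ => ?_⟩
        have h4 : -1 * M y ≤ D * y ^ (1 / 2 : ℝ) := hy
        rw [Q241SPL.S_neg]
        rw [neg_one_mul] at h4
        exact h4)
      refine ⟨fun ρ hρ => ⟨(h1 ρ hρ).1, (h1 ρ hρ).2, ?_⟩, fun T hT v => ?_⟩
      · have := h2 ρ hρ
        simpa using this
      · have := h3 T hT v
        simp only [mul_zero, zero_div, Complex.zero_re, zero_add] at this
        refine le_trans (le_of_eq ?_) this
        unfold Ingham
        rw [neg_one_mul, ← finsum_neg_distrib]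
        refine finsum_congr fun ρ => ?_
        rw [← finsum_neg_distrib]
        refine finsum_congr fun _ => ?_
        rw [neg_div, mul_neg, Complex.neg_re, mul_neg]
  · intro s hs D hD
    have hP := hthin hD
    rcases hs with rfl | rfl
    · obtain ⟨h1, h2, h3⟩ := Q241SPL.qd_lam.final Q241SPL.beta_lam hθ hP (D := D) (by
        refine ⟨0, fun y hy _ => ?_⟩
        have h4 : 1 * L y ≤ D * y ^ (1 / 2 : ℝ) := hy
        rw [one_mul] at h4
        exact h4)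
      have e : (2 * (1 / 2) / riemannZeta (1 / 2) : ℂ) = 1 / riemannZeta (1 / 2) := by norm_num
      rw [e] at h2 h3
      refine ⟨fun ρ hρ => ⟨(h1 ρ hρ).1, (h1 ρ hρ).2, ?_⟩, fun T hT v => ?_⟩
      · rw [one_mul]; exact h2 ρ hρ
      · rw [one_mul]; exact h3 T hT v
    · obtain ⟨h1, h2, h3⟩ := Q241SPL.qd_lam.neg.final (β := -(1 / 2)) (by
        have := Q241SPL.beta_lam.neg
        refine this.congr fun σ => by ring) hθ hP (D := D) (by
        refine ⟨0, fun y hy _ => ?_⟩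
        have h4 : -1 * L y ≤ D * y ^ (1 / 2 : ℝ) := hy
        rw [Q241SPL.S_neg]
        rw [neg_one_mul] at h4
        exact h4)
      have e : (2 * -(1 / 2) / riemannZeta (1 / 2) : ℂ) = -(1 / riemannZeta (1 / 2)) := by ring
      rw [e, Complex.neg_re] at h2 h3
      refine ⟨fun ρ hρ => ⟨(h1 ρ hρ).1, (h1 ρ hρ).2, ?_⟩, fun T hT v => ?_⟩
      · have := h2 ρ hρ
        rw [neg_div, norm_neg] at this
        rw [neg_one_mul]; exact this
      · have := h3 T hT v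
        refine le_trans (le_of_eq ?_) this
        unfold Ingham
        rw [neg_one_mul, neg_add, ← finsum_neg_distrib]
        congr 1
        refine finsum_congr fun ρ => ?_
        rw [← finsum_neg_distrib]
        refine finsum_congr fun _ => ?_
        rw [neg_div, mul_neg, Complex.neg_re, mul_neg]
  · -- zero-free half planes
    have key : ∀ {f : ℕ → ℝ} {Q : ℂ → ℂ}, Q241SPL.QD f Q → ∀ (c : ℝ), 1 / 2 ≤ c → ∀ (s : ℝ) (A : ℝ → ℝ),
        (∀ y, s * A y = Q241SPL.S f y) → ((∀ ρ ∈ Zer, ρ.re ≤ c) ↔ ∀ ε : ℝ, 0 < ε → Thin θ s A 1 (c + ε)) := by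
      intro f Q q c hc s A hA
      constructor
      · intro h ε hε
        obtain ⟨y₀, h1⟩ := (q.half_plane hθ (P := Set.univ) ⟨1, fun x hx => ⟨x, Set.mem_univ _, by
          rw [sub_self, abs_zero]; positivity⟩⟩ hc).1 h ε hε
        refine ⟨max y₀ 0, fun x hx => ⟨x, ?_, ?_⟩⟩
        · rw [sub_self, abs_zero]
          have : 0 ≤ x := (le_max_right _ _).trans hx
          positivity
        · rw [one_mul, hA]
          exact h1 x (Set.mem_univ _) ((le_max_left _ _).trans hx)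
      · intro h ρ hρ
        refine le_of_forall_pos_le_add fun ε hε => ?_
        refine (q.half_plane hθ (hthin (h (ε / 2) (by positivity))) (c := c + ε / 2) (by linarith)).2 ?_ ρ hρ |>.trans
          (by linarith)
        intro ε' hε'
        refine ⟨1, fun y hy hy1 => ?_⟩
        have h4 : s * A y ≤ 1 * y ^ (c + ε / 2) := hy
        rw [hA, one_mul] at h4
        exact h4.trans (Real.rpow_le_rpow_of_exponent_le hy1 (by linarith))
    intro c hc s hs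
    rcases hs with rfl | rfl
    · exact ⟨key Q241SPL.qd_mu c hc 1 M (fun y => one_mul _), key Q241SPL.qd_lam c hc 1 L (fun y => one_mul _)⟩
    · exact ⟨key Q241SPL.qd_mu.neg c hc (-1) M (fun y => by rw [neg_one_mul, Q241SPL.S_neg]; rfl),
        key Q241SPL.qd_lam.neg c hc (-1) L (fun y => by rw [neg_one_mul, Q241SPL.S_neg]; rfl)⟩
  · rintro P ⟨x₀, hP⟩ s A D c ⟨y₀, h⟩
    obtain ⟨X, hX⟩ := hlarge y₀
    refine ⟨max x₀ X, fun x hx => ?_⟩
    obtain ⟨y, hyP, hy⟩ := hP x ((le_max_left _ _).trans hx)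
    exact ⟨y, hy, h y hyP (hX x ((le_max_right _ _).trans hx) y hy)⟩

end Pool.Agent.Results.MP_a499ba_nt.ThickOscillations
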