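import Pool.Agent.Q165.CPSingle

/-!
# MP_a5b9bd_co: ratios of counts of permutations with one double descent

`IsDD w i` (in `Q165.CP`): the one-based index `i` is a double descent of the permutation `w`.
`ddc I n` is the number `dd(I; n)` of permutations of length `n` whose double descent set is `I`.

For all `i, j ≥ 2` the quotient `dd({i}; n) / dd({j}; n)` converges to a positive real number.
-/

open Filter Topology

namespace Pool.Agent.Results.MP_a5b9bd_co.Ratio

open Q165.CP

/-- For all `i, j ≥ 2` the quotient `dd({i}; n) / dd({j}; n)` converges to a positive real. -/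
theorem result (i j : ℕ) (hi : 2 ≤ i) (hj : 2 ≤ j) :
    ∃ L : ℝ, 0 < L ∧ Tendsto (fun n => (ddc {i} n : ℝ) / ddc {j} n) atTop (𝓝 L) := by
  apply dd_ratio
  · filter_upwards [eventually_ge_atTop (i + 1)] with n hn
    exact ddc_single_pos hi hn
  · filter_upwards [eventually_ge_atTop (j + 1)] with n hn
    exact ddc_single_pos hj hn

end Pool.Agent.Results.MP_a5b9bd_co.Ratio
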