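import Mathlib
import Pool.Agent.Q273.ApxF
import Pool.Agent.Results.MP_a793bb_nt.ExceptionalPointsNumberFields

/-!
# The abc inequality at the good approximations of almost all points

`K` is a number field of degree `d`, `Y` a metric space and `φ` a map from the points of the
projective plane over `K` to `Y`, for instance the inclusion in the points over a completion. For
all `ξ ∈ Y` outside a set of Hausdorff dimension at most `20 d / (37 τ)`, all but finitely many of
the points `P = (a : b : c)` with `a + b + c = 0`, `abc ≠ 0` and `dist(ξ, φ(P)) ≤ A H(P) ^ (-τ)`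
satisfy `h(P) + c₀ < rad_T(P)`, for all `A` and `c₀` and all finite sets `T` of primes at once.
-/

set_option autoImplicit false

namespace Pool.Agent.Results.MP_a793bb_nt.GoodApproximations

open NumberField IsDedekindDomain

variable {K : Type} [Field K] [NumberField K]

/-- the height `h(P)` of the point `P` with coordinates `x` -/
noncomputable def height (x : Fin 3 → K) : ℝ :=
  (∑ w : InfinitePlace K, (w.mult : ℝ) * Real.log (max (w (x 0)) (max (w (x 1)) (w (x 2)))) +
    ∑ᶠ v : HeightOneSpectrum (𝓞 K), Real.log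
      (max (FinitePlace.mk v (x 0)) (max (FinitePlace.mk v (x 1)) (FinitePlace.mk v (x 2))))) /
    (Module.finrank ℚ K : ℝ)

/-- the radical of the point `P` with coordinates `x`, without the primes of `T`: the sum of
`log N(v) / d` over the primes `v ∉ T` at which the valuations of the coordinates are not all
equal -/
noncomputable def rad (T : Set (HeightOneSpectrum (𝓞 K))) (x : Fin 3 → K) : ℝ :=
  (∑ᶠ (v : HeightOneSpectrum (𝓞 K)) (_ : v ∉ T ∧
      ¬ (FinitePlace.mk v (x 0) = FinitePlace.mk v (x 1) ∧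
        FinitePlace.mk v (x 1) = FinitePlace.mk v (x 2))),
    Real.log (Ideal.absNorm v.asIdeal : ℝ)) / (Module.finrank ℚ K : ℝ)

/-- the points `P = (a : b : c)` with `a + b + c = 0`, `abc ≠ 0`,
`dist(ξ, φ(P)) ≤ A H(P) ^ (-τ)` and `rad_T(P) ≤ h(P) + c₀` -/
def BadApproximations {Y : Type} [MetricSpace Y] (φ : Projectivization K (Fin 3 → K) → Y) (ξ : Y)
    (τ A : ℝ) (T : Set (HeightOneSpectrum (𝓞 K))) (c₀ : ℝ) :
    Set (Projectivization K (Fin 3 → K)) :=
  {P | ∃ (x : Fin 3 → K) (hx : x ≠ 0), P = Projectivization.mk K x hx ∧ x 0 + x 1 + x 2 = 0 ∧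
    x 0 * x 1 * x 2 ≠ 0 ∧ dist ξ (φ P) ≤ A * (Real.exp (height x)) ^ (-τ) ∧
    rad T x ≤ height x + c₀}

/-- the set of the quotients `a / b` for the points violating the inequality -/
private def Quot (T : Set (HeightOneSpectrum (𝓞 K))) (c : ℝ) : Set K :=
  {t : K | ∃ x : Fin 3 → K, x 0 ≠ 0 ∧ x 1 ≠ 0 ∧ x 2 ≠ 0 ∧ x 0 + x 1 + x 2 = 0 ∧ x 0 / x 1 = t ∧
    Pool.Agent.W223.AK.R3 T x ≤ Pool.Agent.W223.AK.H3 x + c}

/-- the height of the quotient, normalised -/
private noncomputable def hq (t : K) : ℝ := Pool.Agent.W223.AK.ht t / (Module.finrank ℚ K : ℝ)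

private theorem count (T : Set (HeightOneSpectrum (𝓞 K))) (hT : T.Finite) (c ε : ℝ) (hε : 0 < ε) :
    ∃ C : ℝ, ∀ X : ℝ, 1 ≤ X →
      {t : K | t ∈ Quot T c ∧ Real.exp (hq t) ≤ X}.Finite ∧
      ({t : K | t ∈ Quot T c ∧ Real.exp (hq t) ≤ X}.ncard : ℝ) ≤
        C * X ^ ((Module.finrank ℚ K : ℝ) * (20 / 37) + ε) := by
  classical
  set d : ℝ := (Module.finrank ℚ K : ℝ) with hd
  have hdpos : 0 < d := by
    rw [hd]
    exact_mod_cast Module.finrank_pos
  set L : ℝ := Pool.Agent.H691R3.lossK K with hL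
  have hL0 : 0 ≤ L := by
    rw [hL]
    unfold Pool.Agent.H691R3.lossK
    exact Finset.sum_nonneg fun w _ => mul_nonneg (Nat.cast_nonneg _) (Real.log_nonneg one_le_two)
  obtain ⟨D, hD, hmain⟩ := Pool.Agent.W223.AK.final_count
    (Pool.Agent.W223.AK.main K) T hT c (ε / d) (div_pos hε hdpos)
  refine ⟨D * Real.exp ((20 / 37 + ε / d) * L), fun X hX => ?_⟩
  have hX0 : 0 < X := by linarith
  have hlogX : 0 ≤ Real.log X := Real.log_nonneg hX
  apply Q273.Apx.count_of_finset
  intro F hF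
  have hex : ∀ t : K, ∃ x : Fin 3 → K, t ∈ F → x 0 ≠ 0 ∧ x 1 ≠ 0 ∧ x 2 ≠ 0 ∧
      x 0 + x 1 + x 2 = 0 ∧ x 0 / x 1 = t ∧
      Pool.Agent.W223.AK.R3 T x ≤ Pool.Agent.W223.AK.H3 x + c := by
    intro t
    by_cases ht : t ∈ F
    · obtain ⟨x, h⟩ := (hF ht).1
      exact ⟨x, fun _ => h⟩
    · exact ⟨0, fun h => absurd h ht⟩
  choose f hf using hex
  have hinj : Set.InjOn f F := by
    intro t ht u hu htu
    rw [← (hf t ht).2.2.2.2.1, ← (hf u hu).2.2.2.2.1, htu]
  have hcard : (F.image f).card = F.card := Finset.card_image_of_injOn hinj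
  have h1 := hmain (d * Real.log X + L) (F.image f) (by positivity) (by
    intro x hx
    obtain ⟨t, ht, rfl⟩ := Finset.mem_image.mp hx
    obtain ⟨h0, h1, h2, hs, hq', hR⟩ := hf t ht
    refine ⟨h0, h1, h2, hs, ?_, hR⟩
    have hb := (Pool.Agent.W223.AK.H3_bounds h1 hs).2
    rw [hq'] at hb
    have h5 : hq t ≤ Real.log X := by
      rw [Real.le_log_iff_exp_le hX0]
      exact (hF ht).2
    unfold hq at h5
    rw [div_le_iff₀ hdpos] at h5
    linarith) (by
    intro x hx y hy hxy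
    obtain ⟨t, ht, rfl⟩ := Finset.mem_image.mp hx
    obtain ⟨u, hu, rfl⟩ := Finset.mem_image.mp hy
    rw [(hf t ht).2.2.2.2.1, (hf u hu).2.2.2.2.1] at hxy
    rw [hxy])
  rw [hcard] at h1
  refine h1.trans (le_of_eq ?_)
  rw [Real.rpow_def_of_pos hX0, mul_assoc, ← Real.exp_add]
  congr 2
  field_simp
  ring

/-- **The abc inequality at the good approximations of almost all points.** Let `K` be a number
field of degree `d`, `Y` a metric space, `φ` a map from `ℙ²(K)` to `Y` and `τ > 0`. There is a set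
`E ⊆ Y` of Hausdorff dimension at most `20 d / (37 τ)` such that for every `ξ ∈ Y` outside `E`,
every finite set `T` of primes and all real `A`, `c₀`, only finitely many points `P = (a : b : c)`
over `K` with `a + b + c = 0`, `abc ≠ 0` and `dist(ξ, φ(P)) ≤ A H(P) ^ (-τ)` violate
`h(P) + c₀ < rad_T(P)`. -/
theorem result : ∀ (K : Type) [Field K] [NumberField K] (Y : Type) [MetricSpace Y]
    (φ : Projectivization K (Fin 3 → K) → Y) (τ : ℝ), 0 < τ →
    ∃ E : Set Y, dimH E ≤ ENNReal.ofReal ((Module.finrank ℚ K : ℝ) * (20 / 37) / τ) ∧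
      ∀ ξ : Y, ξ ∉ E → ∀ T : Set (HeightOneSpectrum (𝓞 K)), T.Finite → ∀ A c₀ : ℝ,
        (BadApproximations φ ξ τ A T c₀).Finite := by
  intro K _ _ Y _ φ τ hτ
  set d : ℝ := (Module.finrank ℚ K : ℝ) with hd
  have hdpos : 0 < d := by
    rw [hd]
    exact_mod_cast Module.finrank_pos
  have hh : ∀ x : Fin 3 → K, height x = Pool.Agent.W223.AK.H3 x / d := fun x => rfl
  have hr : ∀ (T : Set (HeightOneSpectrum (𝓞 K))) (x : Fin 3 → K),
      rad T x = Pool.Agent.W223.AK.R3 T x / d := fun T x => rfl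
  have := Q273.Apx.countable_finite_sets K
  have hne : ∀ t : K, (![t, 1, -1 - t] : Fin 3 → K) ≠ 0 := by
    intro t h
    have h1 := congrFun h 1
    simp at h1
  let ι : Type := {T : Set (HeightOneSpectrum (𝓞 K)) // T.Finite} × ℕ
  obtain ⟨E, hE1, hE2⟩ := Q273.Apx.approx_family (ι := ι) (fun i => Quot i.1.1 (i.2 : ℝ))
    (fun t : K => Real.exp (hq t)) (fun t : K => φ (Projectivization.mk K _ (hne t)))
    (s := d * (20 / 37)) (τ := τ) (by positivity) hτ
    (fun i ε hε => count i.1.1 i.1.2 i.2 ε hε)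
  refine ⟨E, hE1, fun ξ hξ T hT A c₀ => ?_⟩
  obtain ⟨N, hN⟩ := exists_nat_ge (d * c₀)
  have hfin := hE2 ξ hξ ⟨⟨T, hT⟩, N⟩ |A|
  refine (hfin.image (fun t : K => Projectivization.mk K _ (hne t))).subset ?_
  rintro P ⟨x, hx, rfl, hs, hprod, hdist, hrad⟩
  have h0 : x 0 ≠ 0 := fun h => hprod (by rw [h]; ring)
  have h1 : x 1 ≠ 0 := fun h => hprod (by rw [h]; ring)
  have h2 : x 2 ≠ 0 := fun h => hprod (by rw [h]; ring)
  have hP : Projectivization.mk K x hx = Projectivization.mk K _ (hne (x 0 / x 1)) := by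
    rw [Projectivization.mk_eq_mk_iff']
    refine ⟨x 1, ?_⟩
    funext i
    rw [Pi.smul_apply, smul_eq_mul]
    fin_cases i
    · show x 1 * (x 0 / x 1) = x 0
      field_simp
    · show x 1 * 1 = x 1
      ring
    · show x 1 * (-1 - x 0 / x 1) = x 2
      have h4 : x 1 * (x 0 / x 1) = x 0 := by field_simp
      linear_combination -hs - h4
  refine ⟨x 0 / x 1, ⟨⟨x, h0, h1, h2, hs, rfl, ?_⟩, ?_⟩, hP.symm⟩
  · rw [hh, hr, div_add' _ _ _ hdpos.ne', div_le_div_iff_of_pos_right hdpos] at hrad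
    show Pool.Agent.W223.AK.R3 T x ≤ Pool.Agent.W223.AK.H3 x + (N : ℝ)
    linarith
  · rw [hP] at hdist
    refine hdist.trans ?_
    have h5 : hq (x 0 / x 1) ≤ height x := by
      rw [hh]
      exact div_le_div_of_nonneg_right (Pool.Agent.W223.AK.H3_bounds h1 hs).1 hdpos.le
    refine mul_le_mul (le_abs_self A) ?_ (by positivity) (abs_nonneg A)
    exact Real.rpow_le_rpow_of_nonpos (Real.exp_pos _) (Real.exp_le_exp.2 h5) (by linarith)

end Pool.Agent.Results.MP_a793bb_nt.GoodApproximations
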