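import Pool.Agent.H902R3.PZ.W1
import Pool.Agent.Q286.SP.Elt

/-!
# Exceptional gamma factors

The `L`-function of a Maass form of eigenvalue `1/4 - r²`, `0 < r < 1/2`, has a gamma factor with a pole at the point
`s = r` of the critical strip (and the `L`-function has a trivial zero there).  We show that for every real `r` with
`0 ≤ r < 1/2` there are entire Dirichlet series with real coefficients, Euler product, functional equation and
Ramanujan bound `|a(n)| ≤ 1` whose gamma factor is `Γ(λ (s - r))`.  So no bound for the archimedean parameters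
beyond the one of Jacquet and Shalika, `r < 1/2`, follows from these properties of the standard `L`-function; in
Selberg's axioms the condition `Re μ_j ≥ 0` does not follow from the other ones.
-/

set_option autoImplicit false

open Complex Filter

namespace Pool.Agent.Results.MP_a812b2_nt.ExceptionalGammaFactors

/-- The completed function `Φ(s) = Q^s ∏_{j < k} Γ(λ_j s + μ_j) F(s)`. -/
noncomputable def Phi (F : ℂ → ℂ) (Q : ℝ) {k : ℕ} (lam : Fin k → ℝ) (mu : Fin k → ℂ) (s : ℂ) : ℂ :=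
  (Q : ℂ) ^ s * (∏ j, Gamma ((lam j : ℂ) * s + mu j)) * F s

/-- The functional equation `Φ(s) = ω conj Φ(1 - conj s)` with `Q > 0`, `λ_j > 0`, `|ω| = 1`, at every `s ≠ 0, 1` at
which no gamma factor of `Φ(s)` or of `Φ(1 - conj s)` has a pole.  No condition on the `μ_j`. -/
def FE (F : ℂ → ℂ) (Q : ℝ) {k : ℕ} (lam : Fin k → ℝ) (mu : Fin k → ℂ) (ω : ℂ) : Prop :=
  0 < Q ∧ (∀ j, 0 < lam j) ∧ ‖ω‖ = 1 ∧
    ∀ s : ℂ, s ≠ 0 → s ≠ 1 →
      (∀ j, ∀ n : ℕ, (lam j : ℂ) * s + mu j ≠ -(n : ℂ)) →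
      (∀ j, ∀ n : ℕ, (lam j : ℂ) * (1 - starRingEnd ℂ s) + mu j ≠ -(n : ℂ)) →
      Phi F Q lam mu s = ω * starRingEnd ℂ (Phi F Q lam mu (1 - starRingEnd ℂ s))

/-- Selberg's axioms without the condition `Re μ_j ≥ 0`, for the entire function `F`: `a` is the sequence of
coefficients of the Dirichlet series and `F` is its continuation. -/
structure Axioms (a : ℕ → ℂ) (F : ℂ → ℂ) : Prop where
  /-- the Dirichlet series converges absolutely for `Re s > 1` -/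
  abs_conv : ∀ s : ℂ, 1 < s.re → LSeriesSummable a s
  /-- `F` is the sum of the Dirichlet series for `Re s > 1` -/
  eq_series : ∀ s : ℂ, 1 < s.re → F s = LSeries a s
  /-- `F` is entire -/
  entire : Differentiable ℂ F
  /-- `F` has finite order -/
  finite_order : ∃ A C : ℝ, 0 < A ∧ ∀ s : ℂ, ‖F s‖ ≤ C * Real.exp (‖s‖ ^ A)
  /-- functional equation -/
  functional : ∃ (Q : ℝ) (k : ℕ) (lam : Fin k → ℝ) (mu : Fin k → ℂ) (ω : ℂ), FE F Q lam mu ω
  /-- Ramanujan hypothesis, in the strong form `|a(n)| ≤ 1` -/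
  ramanujan : ∀ n : ℕ, ‖a n‖ ≤ 1
  /-- real coefficients -/
  real : ∀ n : ℕ, (a n).im = 0
  /-- Euler product, first part -/
  a_one : a 1 = 1
  /-- Euler product: `log F(s) = ∑ b(n) n^{-s}`, `b` supported on prime powers, `b(n) ≪ n^θ`, `θ < 1/2` -/
  euler : ∃ (b : ℕ → ℂ) (θ : ℝ), θ < 1 / 2 ∧ (∀ n : ℕ, ¬ IsPrimePow n → b n = 0) ∧
    (∃ C : ℝ, ∀ n : ℕ, 1 ≤ n → ‖b n‖ ≤ C * (n : ℝ) ^ θ) ∧
    ∀ s : ℂ, 1 < s.re → LSeriesSummable b s ∧ exp (LSeries b s) = F s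

open Pool.Agent.Y532.SC in
/-- the functional equation of `One` -/
theorem fe_of_one {lam nu Q ε : ℝ} {g : ℕ → ℝ} {F : ℂ → ℂ} (h : One lam nu Q ε g F) (hlam : 0 < lam)
    (hQ : 0 < Q) : FE F Q ![lam] ![(nu : ℂ)] (ε : ℂ) := by
  refine ⟨hQ, ?_, ?_, ?_⟩
  · intro j
    fin_cases j
    simpa using hlam
  · rcases h.eps with h | h <;> rw [h] <;> simp
  · intro s _ _ h1 h2
    have key := h.fe s (fun n => h1 0 n) (fun n => h2 0 n)
    have hPhi : ∀ w : ℂ, Phi F Q ![lam] ![(nu : ℂ)] w = F w * (Q : ℂ) ^ w * Gamma ((lam : ℂ) * w + nu) := by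
      intro w
      unfold Phi
      rw [Fin.prod_univ_one]
      simp only [Matrix.cons_val_zero]
      ring
    rw [hPhi, hPhi]
    exact key

open Pool.Agent.Y532.SC in
/-- the elements of `Y532.SC` satisfy the axioms -/
theorem axioms_of_one {lam nu Q ε : ℝ} {g : ℕ → ℝ} {F : ℂ → ℂ} (h : One lam nu Q ε g F) (hlam : 0 < lam)
    (hQ : 0 < Q) : Axioms (co g) F where
  abs_conv := fun s hs => co_summable h.bdd hs
  eq_series := h.series
  entire := h.diff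
  finite_order := by
    obtain ⟨C, hC⟩ := h.growth
    exact ⟨3, C, by norm_num, hC⟩
  functional := ⟨Q, 1, ![lam], ![(nu : ℂ)], ε, fe_of_one h hlam hQ⟩
  ramanujan := fun n => co_bdd h.bdd n
  real := by
    intro n
    unfold co Pool.Agent.H902R3.I469.ff
    exact Complex.ofReal_im _
  a_one := co_one g
  euler := by
    have hb := cf_bound h.bdd
    refine ⟨Pool.Agent.H902R3.PZ.bH 1 (cf g), 0, by norm_num, ?_, ⟨1, fun n _ => ?_⟩, fun s hs => ⟨?_, ?_⟩⟩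
    · intro n hn
      unfold Pool.Agent.H902R3.PZ.bH
      rw [if_neg hn]
    · rw [Real.rpow_zero, mul_one]
      exact Pool.Agent.H902R3.PZ.norm_bH_le hb n
    · exact Pool.Agent.H902R3.PZ.summable_bH hb hs
    · rw [Pool.Agent.H902R3.PZ.exp_bH hb hs, h.series s hs]
      rfl

open Pool.Agent.Y532.SC in
/-- the trivial zero at a pole `r > 0` of the gamma factor -/
theorem zero_of_one {lam r Q ε : ℝ} {g : ℕ → ℝ} {F : ℂ → ℂ} (h : One lam (-(lam * r)) Q ε g F) (hlam : 0 < lam)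
    (hr1 : r < 1 / 2) (hQ : 0 < Q) : F r = 0 := by
  have hQ0 : (Q : ℂ) ≠ 0 := by exact_mod_cast hQ.ne'
  -- `t Γ(λ t) F(r + t) = t * (bounded)`
  obtain ⟨R, hR⟩ : ∃ R : ℝ → ℂ, R = fun t : ℝ => (ε : ℂ) * starRingEnd ℂ (F (1 - r - t) * (Q : ℂ) ^ ((1 - r - t : ℂ)) *
    Gamma ((lam : ℂ) * (1 - 2 * r - t))) := ⟨_, rfl⟩
  have hq : Continuous fun t : ℝ => (Q : ℂ) ^ ((r : ℂ) + t) := by
    refine Continuous.const_cpow (by fun_prop) (Or.inl hQ0)
  have hq2 : Continuous fun t : ℝ => (Q : ℂ) ^ ((1 - r - t : ℂ)) := by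
    refine Continuous.const_cpow (by fun_prop) (Or.inl hQ0)
  have hGam : ContinuousAt (fun t : ℝ => Gamma ((lam : ℂ) * (1 - 2 * r - t))) 0 := by
    have h1 : DifferentiableAt ℂ Gamma ((lam : ℂ) * (1 - 2 * r - ((0 : ℝ) : ℂ))) := by
      apply differentiableAt_Gamma
      intro n hn
      have h2 := congrArg Complex.re hn
      have h3 : ((lam : ℂ) * (1 - 2 * r - ((0 : ℝ) : ℂ))).re = lam * (1 - 2 * r) := by
        have : (lam : ℂ) * (1 - 2 * r - ((0 : ℝ) : ℂ)) = ((lam * (1 - 2 * r) : ℝ) : ℂ) := by push_cast; ring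
        rw [this, ofReal_re]
      rw [h3, neg_re, natCast_re] at h2
      have h4 : 0 < lam * (1 - 2 * r) := mul_pos hlam (by linarith)
      have h5 : (0 : ℝ) ≤ n := Nat.cast_nonneg n
      linarith
    exact ContinuousAt.comp (f := fun t : ℝ => (lam : ℂ) * (1 - 2 * r - t)) h1.continuousAt (by fun_prop)
  have hRc : ContinuousAt R 0 := by
    rw [hR]
    have h1 : Continuous fun t : ℝ => F (1 - r - t) := h.diff.continuous.comp (by fun_prop)
    refine ContinuousAt.mul continuousAt_const ?_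
    exact Complex.continuous_conj.continuousAt.comp ((h1.continuousAt.mul hq2.continuousAt).mul hGam)
  -- the identity for small positive `t`
  have hid : ∀ᶠ t : ℝ in nhdsWithin 0 (Set.Ioi 0), F (r + t) * (Q : ℂ) ^ ((r : ℂ) + t) * Gamma ((lam : ℂ) * t) = R t := by
    have h1 : ∀ᶠ t : ℝ in nhdsWithin 0 (Set.Ioi 0), t < (1 - 2 * r) := by
      filter_upwards [nhdsWithin_le_nhds (Iio_mem_nhds (show (0 : ℝ) < 1 - 2 * r by linarith))] with t ht
      exact ht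
    filter_upwards [h1, self_mem_nhdsWithin] with t ht1 ht0
    have ht0' : 0 < t := ht0
    have key := h.fe ((r : ℂ) + t) ?_ ?_
    · have hc : starRingEnd ℂ ((r : ℂ) + t) = (r : ℂ) + t := by simp
      have e1 : (lam : ℂ) * ((r : ℂ) + t) + ((-(lam * r) : ℝ) : ℂ) = (lam : ℂ) * t := by push_cast; ring
      have e2 : (lam : ℂ) * (1 - ((r : ℂ) + t)) + ((-(lam * r) : ℝ) : ℂ) = (lam : ℂ) * (1 - 2 * r - t) := by
        push_cast
        ring
      have e3 : (1 : ℂ) - ((r : ℂ) + t) = 1 - r - t := by ring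
      rw [hc, e1, e2, e3] at key
      rw [hR]
      exact key
    · intro n hn
      have h2 := congrArg Complex.re hn
      have h3 : ((lam : ℂ) * ((r : ℂ) + t) + ((-(lam * r) : ℝ) : ℂ)).re = lam * t := by
        have : (lam : ℂ) * ((r : ℂ) + t) + ((-(lam * r) : ℝ) : ℂ) = ((lam * t : ℝ) : ℂ) := by push_cast; ring
        rw [this, ofReal_re]
      rw [h3, neg_re, natCast_re] at h2
      have h4 : 0 < lam * t := mul_pos hlam ht0'
      have h5 : (0 : ℝ) ≤ n := Nat.cast_nonneg n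
      linarith
    · intro n hn
      have h2 := congrArg Complex.re hn
      have h3 : ((lam : ℂ) * (1 - starRingEnd ℂ ((r : ℂ) + t)) + ((-(lam * r) : ℝ) : ℂ)).re = lam * (1 - 2 * r - t) := by
        have : (lam : ℂ) * (1 - starRingEnd ℂ ((r : ℂ) + t)) + ((-(lam * r) : ℝ) : ℂ) =
            ((lam * (1 - 2 * r - t) : ℝ) : ℂ) := by
          rw [map_add, conj_ofReal, conj_ofReal]
          push_cast
          ring
        rw [this, ofReal_re]
      rw [h3, neg_re, natCast_re] at h2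
      have h4 : 0 < lam * (1 - 2 * r - t) := mul_pos hlam (by linarith)
      have h5 : (0 : ℝ) ≤ n := Nat.cast_nonneg n
      linarith
  -- multiply by `λ t`: `Γ(λ t + 1) Q^{r+t} F(r + t) = λ t R(t)`
  have hid2 : ∀ᶠ t : ℝ in nhdsWithin 0 (Set.Ioi 0),
      F (r + t) * (Q : ℂ) ^ ((r : ℂ) + t) * Gamma ((lam : ℂ) * t + 1) = (lam : ℂ) * t * R t := by
    filter_upwards [hid, self_mem_nhdsWithin] with t ht ht0
    have ht0' : 0 < t := ht0
    have hne : (lam : ℂ) * t ≠ 0 := by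
      have : (0 : ℝ) < lam * t := mul_pos hlam ht0'
      exact_mod_cast this.ne'
    rw [Gamma_add_one _ hne, ← ht]
    ring
  have hG1 : ContinuousAt (fun t : ℝ => Gamma ((lam : ℂ) * t + 1)) 0 := by
    have h1 : DifferentiableAt ℂ Gamma ((lam : ℂ) * ((0 : ℝ) : ℂ) + 1) := by
      apply differentiableAt_Gamma
      intro n hn
      have h2 := congrArg Complex.re hn
      simp at h2
      have h5 : (0 : ℝ) ≤ n := Nat.cast_nonneg n
      linarith
    exact ContinuousAt.comp (f := fun t : ℝ => (lam : ℂ) * t + 1) h1.continuousAt (by fun_prop)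
  have hL : Tendsto (fun t : ℝ => F (r + t) * (Q : ℂ) ^ ((r : ℂ) + t) * Gamma ((lam : ℂ) * t + 1))
      (nhdsWithin 0 (Set.Ioi 0)) (nhds (F (r + ((0 : ℝ) : ℂ)) * (Q : ℂ) ^ ((r : ℂ) + ((0 : ℝ) : ℂ)) *
        Gamma ((lam : ℂ) * ((0 : ℝ) : ℂ) + 1))) := by
    have h1 : Continuous fun t : ℝ => F (r + t) := h.diff.continuous.comp (by fun_prop)
    exact ((h1.continuousAt.mul hq.continuousAt).mul hG1).tendsto.mono_left nhdsWithin_le_nhds
  have hRR : Tendsto (fun t : ℝ => (lam : ℂ) * t * R t) (nhdsWithin 0 (Set.Ioi 0))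
      (nhds ((lam : ℂ) * ((0 : ℝ) : ℂ) * R 0)) := by
    have h1 : ContinuousAt (fun t : ℝ => (lam : ℂ) * t) 0 := by fun_prop
    exact (h1.mul hRc).tendsto.mono_left nhdsWithin_le_nhds
  have hEq := tendsto_nhds_unique (hL.congr' hid2) hRR
  rw [ofReal_zero, mul_zero, zero_mul, zero_add, Gamma_one, mul_one, add_zero] at hEq
  rcases mul_eq_zero.1 hEq with h1 | h1
  · exact h1
  · exfalso
    rw [cpow_def_of_ne_zero hQ0] at h1
    exact exp_ne_zero _ h1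

/-- **Exceptional archimedean parameters: every real number `r` with `0 ≤ r < 1/2` occurs.** -/
theorem result :
    -- (1) every `r` of `[0, 1/2)` and all large degrees `2λ = 4(m + 1)/(1 - 2r)`
    (∀ r : ℝ, 0 ≤ r → r < 1 / 2 → ∃ m₀ : ℕ, ∀ m : ℕ, m₀ ≤ m → ∃ Q₀ : ℝ, 0 < Q₀ ∧ ∀ Q : ℝ, Q₀ ≤ Q →
      ∃ (a : ℕ → ℂ) (F : ℂ → ℂ), Axioms a F ∧
        FE F Q ![2 * (m + 1) / (1 - 2 * r)] ![((-(2 * (m + 1) / (1 - 2 * r) * r) : ℝ) : ℂ)]
          (((-1 : ℝ) ^ (m + 1) : ℝ) : ℂ) ∧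
        F r = 0) ∧
    -- (2) one integer `m`, all degrees `2λ > 4m + 2`: the gamma factor is `Γ(λ s + m + 1 - λ/2)`
    (∃ m₀ : ℕ, ∀ m : ℕ, m₀ ≤ m → ∀ lam : ℝ, 2 * m + 1 < lam → ∃ Q₀ : ℝ, 0 < Q₀ ∧ ∀ Q : ℝ, Q₀ ≤ Q →
      ∃ (a : ℕ → ℂ) (F : ℂ → ℂ), Axioms a F ∧
        FE F Q ![lam] ![((m + 1 - lam / 2 : ℝ) : ℂ)] (((-1 : ℝ) ^ (m + 1) : ℝ) : ℂ) ∧
        ∀ k : ℕ, 1 ≤ k → k < m → F (1 / 2 + (m - 2 * k) / lam) = 0) := by
  have A : ∃ m₀ : ℕ, ∀ m : ℕ, m₀ ≤ m → ∀ lam : ℝ, 2 * m + 1 < lam → ∃ Q₀ : ℝ, 0 < Q₀ ∧ ∀ Q : ℝ, Q₀ ≤ Q →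
      ∃ (g : ℕ → ℝ) (F : ℂ → ℂ), Pool.Agent.Y532.SC.One lam (m + 1 - lam / 2) Q ((-1) ^ (m + 1)) g F ∧
        ∀ k : ℕ, 1 ≤ k → k < m → F (1 / 2 + (m - 2 * k) / lam) = 0 := by
    obtain ⟨m₀, hm₀2, H⟩ := Pool.Agent.Y532.SC.core_all
    refine ⟨m₀, fun m hm lam hlm => ?_⟩
    obtain ⟨c₀, hc₀, K⟩ := H m hm lam hlm
    have hm1 : 1 ≤ m := by omega
    have hmR : (0:ℝ) ≤ m := Nat.cast_nonneg m
    have hl : 0 < lam := by linarith
    have hlam1 : 1 ≤ lam := by linarith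
    refine ⟨max 1 (c₀ ^ (-lam)), lt_max_of_lt_left one_pos, fun Q hQ => ?_⟩
    have hQ1 : 1 ≤ Q := (le_max_left _ _).trans hQ
    have hQ0 : 0 < Q := by linarith
    obtain ⟨c, hcd⟩ : ∃ c : ℝ, c = Q ^ (-(1 / lam)) := ⟨_, rfl⟩
    have hc : 0 < c := by rw [hcd]; exact Real.rpow_pos_of_pos hQ0 _
    have hcc₀ : c ≤ c₀ := by
      rw [hcd]
      calc Q ^ (-(1 / lam)) ≤ (c₀ ^ (-lam)) ^ (-(1 / lam)) :=
            Real.rpow_le_rpow_of_nonpos (Real.rpow_pos_of_pos hc₀ _) ((le_max_right _ _).trans hQ) (by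
              rw [neg_nonpos]; positivity)
        _ = c₀ := by
            rw [← Real.rpow_mul hc₀.le]
            have : -lam * -(1 / lam) = 1 := by field_simp
            rw [this, Real.rpow_one]
    have hQc : Real.exp (-(lam * Real.log c)) = Q := by
      rw [hcd, Real.log_rpow hQ0]
      have : -(lam * (-(1 / lam) * Real.log Q)) = Real.log Q := by field_simp
      rw [this, Real.exp_log hQ0]
    obtain ⟨β, α, hβ, hα, hsum, hrel⟩ := K c hc hcc₀
    obtain ⟨F, hF, hz⟩ := Pool.Agent.Q286.SP.one_of_core hm1 hlam1 hc hβ hα hsum hrel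
    rw [hQc] at hF
    exact ⟨_, F, hF, fun k hk1 hk2 => hz k hk1 (by omega)⟩
  obtain ⟨m₀, H⟩ := A
  refine ⟨?_, m₀, ?_⟩
  · intro r hr0 hr1
    refine ⟨m₀, fun m hm => ?_⟩
    have hmR : (0:ℝ) ≤ m := Nat.cast_nonneg m
    have h1r : 0 < 1 - 2 * r := by linarith
    obtain ⟨lam, hlam⟩ : ∃ lam : ℝ, lam = 2 * (m + 1) / (1 - 2 * r) := ⟨_, rfl⟩
    have hlm : 2 * m + 1 < lam := by
      rw [hlam, lt_div_iff₀ h1r]
      nlinarith
    have hl : 0 < lam := by linarith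
    obtain ⟨Q₀, hQ₀, K⟩ := H m hm lam hlm
    refine ⟨Q₀, hQ₀, fun Q hQ => ?_⟩
    have hQ0 : 0 < Q := hQ₀.trans_le hQ
    obtain ⟨g, F, hF, -⟩ := K Q hQ
    have hnu : (m + 1 - lam / 2 : ℝ) = -(lam * r) := by
      have h3 : lam * (1 - 2 * r) = 2 * (m + 1) := by
        rw [hlam]
        field_simp
      linarith
    rw [hnu] at hF
    rw [← hlam]
    exact ⟨_, F, axioms_of_one hF hl hQ0, fe_of_one hF hl hQ0, zero_of_one hF hl hr1 hQ0⟩
  · intro m hm lam hlm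
    have hmR : (0:ℝ) ≤ m := Nat.cast_nonneg m
    have hl : 0 < lam := by linarith
    obtain ⟨Q₀, hQ₀, K⟩ := H m hm lam hlm
    refine ⟨Q₀, hQ₀, fun Q hQ => ?_⟩
    have hQ0 : 0 < Q := hQ₀.trans_le hQ
    obtain ⟨g, F, hF, hz⟩ := K Q hQ
    exact ⟨_, F, axioms_of_one hF hl hQ0, fe_of_one hF hl hQ0, hz⟩

end Pool.Agent.Results.MP_a812b2_nt.ExceptionalGammaFactors
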