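import Mathlib
import Pool.Agent.Q158.EqD.ZOdd
import Pool.Agent.Q158.EqD.ZThree
import Pool.Agent.Q158.EqD.MinPol2

/-!
# `π` and the odd zeta values at every finite scale

Let `D_N(y)` be the discrepancy of the numbers `y, 2 y, …, N y` modulo one; `y` is rational if and
only if `D_N(y)` does not tend to zero. For a finite set `Y` of real numbers, `κ, K > 0`
and a scale `N` let `F_N` be the field generated by all the elements `y ∈ Y` with
`D_M(y) > K N ^ (-κ)` for some `M ≥ N`.

1. For every finite set `Y` (for instance, of monomials in `π` and odd zeta values) there are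
   `κ, K > 0` such that for EVERY `N ≥ 1`: `π` is transcendental over `F_N`, and if
   `2 ^ (132 (D + 1)) (b + 1)² m³ log (m + 1) ≤ s²` then for all real numbers `v_1, …, v_D` at least `m` of
   the odd zeta values `ζ(j)`, `b < j ≤ s`, are not in `F_N + F_N v_1 + ⋯ + F_N v_D`. For example
   (`v_l = π ^ l`) at least `c (s² / log s) ^ (1/3)` of the numbers `ζ(3), …, ζ(s)` are not values at `π` of
   polynomials of degree `≤ D` with coefficients in `F_N`.
   Moreover `1, π ^ 2, ζ(3)` are linearly independent over `F_N`.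
2. For every `k₀` there are `κ, K > 0` such that for every `N ≥ 1` there is a pair of integers
   `(a₀, b₀)`, either `(0, 0)` or with `b₀ ≠ 0` and different from `±(0, 1)` and `±(-2, 1)`, such that all
   monomials `y = π ^ a ζ(3) ^ b` with `|a|, |b| ≤ k₀`, for which `(a, b)` is not an integer multiple of
   `(a₀, b₀)`, satisfy `D_M(y) ≤ K N ^ (-κ)` for ALL `M ≥ N`.
3. For every `d` there are `κ, K > 0` such that for all `j ≥ 2` and every `N ≥ 1` there is an
   irreducible polynomial `f = f_(j, N) ∈ ℤ[X, Y]` which contains the variable `Y`, such that for all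
   nonconstant rational functions `P / Q` of degree at most `d` in each variable and with integer
   coefficients at most `N ^ κ` (and with `Q ≠ 0`, `|P / Q| ≤ N ^ κ` at the point) the number
   `y = P(π, ζ(j)) / Q(π, ζ(j))` satisfies `D_M(y) ≤ K N ^ (-κ)` for ALL `M ≥ N`, unless `P / Q` is
   constant modulo `f`, i.e. `f` divides `q P - p Q` for some integers `p` and `0 < q ≤ 12 N ^ κ`, where
   `|y - p / q| ≤ 16 N ^ (κ - 1)`.

Proof. If `D_M(y) > δ` then `y` has a rational approximation with a denominator `≤ 12 / δ` and the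
error at most `16 / (δ M)`. Such approximations are inherited by all the elements of `F_N`, so that
relations over `F_N` give relations with small rational coefficients, which hold approximately;
these contradict the transcendence measure of `π`, the measure of linear independence of
`1, π ^ 2, ζ(3)` and the lower bound of
`Pool/Agent/Results/MP_a89d6d_nt/OutsideSubspacesTwoThirds.lean` for the distance of odd zeta values
from rational combinations of `1, v_1, …, v_D`. In 3 the polynomial `q P - p Q` has a very small value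
at `(π, ζ(j))`, and so it has an irreducible factor with a very small value; it contains `Y` by
the transcendence measure of `π`, and two factors which are not proportional have a resultant, a
polynomial in `X`, which is too small at `π`.
-/

set_option autoImplicit false

open Real Polynomial

namespace Pool.Agent.Results.MP_a89d6d_nt.AtEveryScale

noncomputable section

/-- The number of the `n`, `1 ≤ n ≤ N`, for which the fractional part of `n x` lies in `[a, b)`. -/
def count (x : ℝ) (N : ℕ) (a b : ℝ) : ℕ :=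
  ((Finset.Icc 1 N).filter fun n : ℕ => a ≤ Int.fract (n * x) ∧ Int.fract (n * x) < b).card

/-- The discrepancy of `x, 2 x, …, N x` modulo one: the supremum over the intervals
`[a, b) ⊆ [0, 1)` of the difference between the proportion of the `n ≤ N` with `n x` in `[a, b)`
modulo one and the length of the interval. -/
def discrepancy (x : ℝ) (N : ℕ) : ℝ :=
  sSup {d | ∃ a b : ℝ, 0 ≤ a ∧ a ≤ b ∧ b ≤ 1 ∧ d = |(count x N a b : ℝ) / N - (b - a)|}

/-- The field generated by the elements `y` of `Y` with `D_M(y) > K N ^ (-κ)` for some `M ≥ N`. -/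
def badField (Y : Finset ℝ) (κ K : ℝ) (N : ℕ) : Subfield ℝ :=
  Subfield.closure {y | y ∈ Y ∧ ∃ M : ℕ, N ≤ M ∧ K * (N : ℝ) ^ (-κ) < discrepancy y M}

/-- `ζ(3)` -/
def zeta3 : ℝ := ∑' n : ℕ, 1 / ((n : ℝ) + 1) ^ 3

theorem resultB :
    (∀ Y : Finset ℝ, ∃ κ K : ℝ, 0 < κ ∧ 0 < K ∧ ∀ N : ℕ, 0 < N →
      Transcendental (badField Y κ K N) π ∧
      ∀ a ∈ badField Y κ K N, ∀ b ∈ badField Y κ K N, ∀ d ∈ badField Y κ K N,
        a + b * π ^ 2 + d * zeta3 = 0 → a = 0 ∧ b = 0 ∧ d = 0) ∧
    (∀ k₀ : ℕ, ∃ κ K : ℝ, 0 < κ ∧ 0 < K ∧ ∀ N : ℕ, 0 < N → ∃ a₀ b₀ : ℤ,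
      (b₀ = 0 → a₀ = 0) ∧
      (a₀, b₀) ≠ (0, 1) ∧ (a₀, b₀) ≠ (0, -1) ∧ (a₀, b₀) ≠ (-2, 1) ∧ (a₀, b₀) ≠ (2, -1) ∧
      ∀ a b : ℤ, |a| ≤ k₀ → |b| ≤ k₀ → (¬ ∃ n : ℤ, a = n * a₀ ∧ b = n * b₀) → ∀ M : ℕ, N ≤ M →
        discrepancy (π ^ a * zeta3 ^ b) M ≤ K * (N : ℝ) ^ (-κ)) ∧
    -- the discrepancy tends to zero exactly for the irrational numbers
    (∀ x : ℝ, Filter.Tendsto (fun N : ℕ => discrepancy x N) Filter.atTop (nhds 0) ↔
      Irrational x) := by
  refine ⟨?_, ?_, Pool.Agent.Q158.EqD.tendsto_iff⟩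
  · intro Y
    obtain ⟨κ, K, h1, h2, h3⟩ := Pool.Agent.Q158.EqD.bad_field Y
    exact ⟨κ, K, h1, h2, fun N hN => ⟨(h3 N hN).1 _ Pool.Agent.Q158.EqD.measR_pi,
      fun a ha b hb d hd h0 => Pool.Agent.Q158.EqD.poor_pi2_z3 (h3 N hN) a b d ha hb hd h0⟩⟩
  · intro k₀
    have hz0 : zeta3 ≠ 0 := by
      have hs : Summable fun n : ℕ => 1 / ((n : ℝ) + 1) ^ 3 := by
        have := (summable_nat_add_iff 1).2 (Real.summable_one_div_nat_pow.2 (by norm_num : 1 < 3))
        simpa using this
      exact (hs.tsum_pos (fun n => by positivity) 0 (by norm_num)).ne'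
    obtain ⟨κ, K, h1, h2, h3⟩ := Pool.Agent.Q158.EqD.monomials (![π, zeta3])
      (by
        intro i
        fin_cases i
        · exact pi_ne_zero
        · exact hz0) k₀
    refine ⟨κ, K, h1, h2, fun N hN => ?_⟩
    obtain ⟨F, hF, h4⟩ := h3 N hN
    set G := AddSubgroup.closure (Pool.Agent.Q158.EqD.badExp ![π, zeta3] k₀ κ K N) with hG
    have hval : ∀ a b : ℤ, ![a, b] ∈ G → π ^ a * zeta3 ^ b ∈ F := by
      intro a b hab
      have := h4 _ hab
      rwa [Fin.prod_univ_two] at this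
    have hpi : ∀ m : ℤ, ![m, 0] ∈ G → m = 0 := by
      intro m hm
      by_contra hne
      have := hval m 0 hm
      rw [zpow_zero, mul_one] at this
      exact hF.1 _ Pool.Agent.Q158.EqD.measR_pi (Pool.Agent.Q158.EqD.alg_of_zpow hne this)
    have hz1 : ![(0 : ℤ), 1] ∉ G := by
      intro h
      have := hval 0 1 h
      rw [zpow_zero, one_mul, zpow_one] at this
      have h5 := Pool.Agent.Q158.EqD.poor_pi2_z3 hF (-zeta3) 0 1 (F.neg_mem this) F.zero_mem
        F.one_mem (by unfold zeta3; ring)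
      exact one_ne_zero h5.2.2
    have hz2 : ![(-2 : ℤ), 1] ∉ G := by
      intro h
      have h6 := hval (-2) 1 h
      rw [zpow_one] at h6
      have h5 := Pool.Agent.Q158.EqD.poor_pi2_z3 hF 0 (-(π ^ (-2 : ℤ) * zeta3)) 1 F.zero_mem
        (F.neg_mem h6) F.one_mem (by
          have e1 : π ^ (-2 : ℤ) * zeta3 * π ^ 2 = zeta3 := by
            have : π ^ (-2 : ℤ) = (π ^ 2)⁻¹ := by
              rw [zpow_neg]; norm_cast
            rw [this]
            field_simp
          have e2 : zeta3 = ∑' n : ℕ, 1 / ((n : ℝ) + 1) ^ 3 := rfl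
          rw [← e2]
          linarith)
      exact one_ne_zero h5.2.2
    -- the second coordinates
    set H : AddSubgroup ℤ := G.map (Pi.evalAddMonoidHom (fun _ : Fin 2 => ℤ) 1) with hH
    obtain ⟨b₀, hb₀⟩ := Int.subgroup_cyclic H
    have hb₀H : b₀ ∈ H := by
      rw [hb₀]; exact AddSubgroup.mem_closure_singleton_self b₀
    obtain ⟨v, hv, hvb⟩ := AddSubgroup.mem_map.1 hb₀H
    have hv' : v = ![v 0, b₀] := by
      ext j
      fin_cases j
      · rfl
      · exact hvb
    have hgen : ∀ w ∈ G, ∃ n : ℤ, w = n • v := by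
      intro w hw
      have hw1 : w 1 ∈ H := AddSubgroup.mem_map.2 ⟨w, hw, rfl⟩
      rw [hb₀, AddSubgroup.mem_closure_singleton] at hw1
      obtain ⟨n, hn⟩ := hw1
      refine ⟨n, ?_⟩
      have h7 : w - n • v ∈ G := G.sub_mem hw (G.zsmul_mem hv n)
      have h8 : w - n • v = ![w 0 - n * v 0, 0] := by
        ext j
        fin_cases j
        · simp
        · have : v 1 = b₀ := hvb
          simp [this]
          rw [← hn]; simp
      rw [h8] at h7
      have h9 := hpi _ h7
      rw [h9] at h8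
      have h10 : w - n • v = 0 := by
        rw [h8]
        ext j
        fin_cases j <;> rfl
      exact sub_eq_zero.1 h10
    refine ⟨v 0, b₀, ?_, ?_, ?_, ?_, ?_, ?_⟩
    · intro h
      apply hpi
      rw [h] at hv'
      rw [← hv']
      exact hv
    · intro h
      rw [Prod.mk.injEq] at h
      rw [h.1, h.2] at hv'
      exact hz1 (hv' ▸ hv)
    · intro h
      rw [Prod.mk.injEq] at h
      apply hz1
      have : ![(0 : ℤ), 1] = -v := by
        rw [hv', h.1, h.2]
        ext j
        fin_cases j <;> simp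
      rw [this]
      exact G.neg_mem hv
    · intro h
      rw [Prod.mk.injEq] at h
      rw [h.1, h.2] at hv'
      exact hz2 (hv' ▸ hv)
    · intro h
      rw [Prod.mk.injEq] at h
      apply hz2
      have : ![(-2 : ℤ), 1] = -v := by
        rw [hv', h.1, h.2]
        ext j
        fin_cases j <;> simp
      rw [this]
      exact G.neg_mem hv
    · intro a b ha hb hn M hM
      by_contra hcon
      push Not at hcon
      apply hn
      have hmem : ![a, b] ∈ G := by
        apply AddSubgroup.subset_closure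
        refine ⟨?_, M, hM, ?_⟩
        · intro j
          fin_cases j
          · exact ha
          · exact hb
        · rw [Fin.prod_univ_two]
          exact hcon
      obtain ⟨n, hn'⟩ := hgen _ hmem
      refine ⟨n, ?_, ?_⟩
      · have := congrFun hn' 0
        simpa using this
      · have := congrFun hn' 1
        have h11 : v 1 = b₀ := hvb
        simp only [Pi.smul_apply, smul_eq_mul, h11] at this
        simpa using this

/-- The discrepancy of `y` is at most `K N ^ (-κ)` at all the scales `M ≥ N`. -/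
def Uniform (κ K : ℝ) (N : ℕ) (y : ℝ) : Prop :=
  ∀ M : ℕ, N ≤ M → discrepancy y M ≤ K * (N : ℝ) ^ (-κ)

/-- The value `P(x, y)` of a polynomial `P` in `X` and `Y`, considered as a polynomial in `Y` whose
coefficients are polynomials in `X`. -/
def value (x y : ℝ) (P : ℤ[X][X]) : ℝ := P.eval₂ (eval₂RingHom (Int.castRingHom ℝ) x) y

/-- The degree of `P` in each of the variables is at most `d`, the coefficients are at most `H` in
absolute value. -/
def Bounded (d : ℕ) (H : ℝ) (P : ℤ[X][X]) : Prop :=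
  P.natDegree ≤ d ∧ (∀ i, (P.coeff i).natDegree ≤ d) ∧ ∀ i j, |((P.coeff i).coeff j : ℝ)| ≤ H

/-- `P / Q` is a nonconstant rational function in two variables with degrees at most `d` and
coefficients at most `H`, defined at `(x, y)` and with a value of modulus at most `H` there. -/
def Admissible (x y : ℝ) (d : ℕ) (H : ℝ) (P Q : ℤ[X][X]) : Prop :=
  Bounded d H P ∧ Bounded d H Q ∧ value x y Q ≠ 0 ∧ |value x y P| ≤ H * |value x y Q| ∧
    ∀ (q : ℕ) (p : ℤ), 0 < q → C (C (q : ℤ)) * P ≠ C (C p) * Q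

/-- `P / Q` is constant modulo `f`, and the constant is a rational number `p / q` with a denominator
`q ≤ 12 N ^ κ`, which is very close to the value of `P / Q` at `(x, y)`. -/
def ConstantMod (x y : ℝ) (κ : ℝ) (N : ℕ) (f P Q : ℤ[X][X]) : Prop :=
  ∃ (q : ℕ) (p : ℤ), 0 < q ∧ (q : ℝ) ≤ 12 * (N : ℝ) ^ κ ∧
    |value x y P / value x y Q - p / q| ≤ 16 * (N : ℝ) ^ κ / N ∧
    f ∣ C (C (q : ℤ)) * P - C (C p) * Q

/-- At every scale `N` there is an irreducible polynomial `f` which contains the variable `Y` such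
that the values at `(x, y)` of all admissible rational functions are well distributed at
all scales `M ≥ N`, unless the function is constant modulo `f`. -/
def RelationAtScales (x y : ℝ) (d : ℕ) (κ K : ℝ) : Prop :=
  ∀ N : ℕ, 0 < N → ∃ f : ℤ[X][X], Irreducible f ∧ 0 < f.natDegree ∧
    ∀ P Q : ℤ[X][X], Admissible x y d ((N : ℝ) ^ κ) P Q →
      Uniform κ K N (value x y P / value x y Q) ∨ ConstantMod x y κ N f P Q

theorem any (x : ℝ) (hx : Pool.Agent.Q158.EqD.MeasR x) (T : ℝ) (d : ℕ) :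
    ∃ κ K : ℝ, 0 < κ ∧ 0 < K ∧ ∀ y : ℝ, |y| ≤ T → RelationAtScales x y d κ K := by
  obtain ⟨κ, K, h1, h2, h3⟩ := Pool.Agent.Q158.EqD.minpol2_any x hx T d
  refine ⟨κ, K, h1, h2, fun y hy N hN => ?_⟩
  obtain ⟨f, hf1, hf2, hf4⟩ := h3 y hy N hN
  refine ⟨f, hf1, hf2, ?_⟩
  intro P Q hPQ
  by_cases hU : Uniform κ K N (value x y P / value x y Q)
  · exact Or.inl hU
  · refine Or.inr (hf4 P Q hPQ ?_)
    unfold Uniform at hU
    push Not at hU
    exact hU

/-- `ζ(j)` -/
def zeta (j : ℕ) : ℝ := ∑' n : ℕ, 1 / ((n : ℝ) + 1) ^ j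

theorem zeta_le (j : ℕ) (hj : 2 ≤ j) : |zeta j| ≤ zeta 2 := by
  have hs : ∀ j : ℕ, 2 ≤ j → Summable fun n : ℕ => 1 / ((n : ℝ) + 1) ^ j := by
    intro j hj
    have := (summable_nat_add_iff 1).2 (Real.summable_one_div_nat_pow.2 (by omega : 1 < j))
    simpa using this
  have h0 : 0 ≤ zeta j := tsum_nonneg fun n => by positivity
  rw [abs_of_nonneg h0]
  apply (hs j hj).tsum_le_tsum _ (hs 2 le_rfl)
  intro n
  apply one_div_le_one_div_of_le (by positivity)
  exact pow_le_pow_right₀ (by have : (0 : ℝ) ≤ n := by positivity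
                              linarith) hj

theorem resultC :
    (∀ d : ℕ, ∃ κ K : ℝ, 0 < κ ∧ 0 < K ∧ ∀ j : ℕ, 2 ≤ j → RelationAtScales π (zeta j) d κ K) ∧
    -- the discrepancy tends to zero exactly for the irrational numbers
    (∀ x : ℝ, Filter.Tendsto (fun N : ℕ => discrepancy x N) Filter.atTop (nhds 0) ↔
      Irrational x) := by
  refine ⟨?_, Pool.Agent.Q158.EqD.tendsto_iff⟩
  intro d
  obtain ⟨κ, K, h1, h2, h3⟩ := any π Pool.Agent.Q158.EqD.measR_pi (zeta 2) d
  exact ⟨κ, K, h1, h2, fun j hj => h3 _ (zeta_le j hj)⟩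

theorem result :
    -- the field generated by the badly distributed elements of a finite set
    (∀ Y : Finset ℝ, ∃ κ K : ℝ, 0 < κ ∧ 0 < K ∧ ∀ N : ℕ, 0 < N →
      Transcendental (badField Y κ K N) π ∧
      (∀ a ∈ badField Y κ K N, ∀ b ∈ badField Y κ K N, ∀ d ∈ badField Y κ K N,
        a + b * π ^ 2 + d * zeta3 = 0 → a = 0 ∧ b = 0 ∧ d = 0) ∧
      ∀ b m s D : ℕ, 1 ≤ m →
        (2 : ℝ) ^ (132 * (D + 1)) * ((b : ℝ) + 1) ^ 2 * (m : ℝ) ^ 3 * Real.log (m + 1) ≤ (s : ℝ) ^ 2 →
        ∀ v : Fin D → ℝ, m ≤ Set.ncard {j : ℕ | b < j ∧ j ≤ s ∧ Odd j ∧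
          zeta j ∉ Submodule.span (badField Y κ K N) (insert (1 : ℝ) (Set.range v))}) ∧
    -- the badly distributed monomials in `π` and `ζ(3)` are powers of a single one
    (∀ k₀ : ℕ, ∃ κ K : ℝ, 0 < κ ∧ 0 < K ∧ ∀ N : ℕ, 0 < N → ∃ a₀ b₀ : ℤ,
      (b₀ = 0 → a₀ = 0) ∧
      (a₀, b₀) ≠ (0, 1) ∧ (a₀, b₀) ≠ (0, -1) ∧ (a₀, b₀) ≠ (-2, 1) ∧ (a₀, b₀) ≠ (2, -1) ∧
      ∀ a b : ℤ, |a| ≤ k₀ → |b| ≤ k₀ → (¬ ∃ n : ℤ, a = n * a₀ ∧ b = n * b₀) → ∀ M : ℕ, N ≤ M →
        discrepancy (π ^ a * zeta3 ^ b) M ≤ K * (N : ℝ) ^ (-κ)) ∧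
    -- the badly distributed rational functions of `π` and `ζ(j)` are constant on one curve
    (∀ d : ℕ, ∃ κ K : ℝ, 0 < κ ∧ 0 < K ∧ ∀ j : ℕ, 2 ≤ j → RelationAtScales π (zeta j) d κ K) ∧
    -- the discrepancy tends to zero exactly for the irrational numbers
    (∀ x : ℝ, Filter.Tendsto (fun N : ℕ => discrepancy x N) Filter.atTop (nhds 0) ↔
      Irrational x) := by
  refine ⟨?_, resultB.2.1, resultC.1, resultC.2⟩
  intro Y
  obtain ⟨κ, K, h1, h2, h3⟩ := Pool.Agent.Q158.EqD.bad_field Y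
  exact ⟨κ, K, h1, h2, fun N hN => ⟨(h3 N hN).1 _ Pool.Agent.Q158.EqD.measR_pi,
    fun a ha b hb d hd h0 => Pool.Agent.Q158.EqD.poor_pi2_z3 (h3 N hN) a b d ha hb hd h0,
    fun b m s D hm hs v => Pool.Agent.Q158.EqD.poor_odd (h3 N hN) b m s D hm hs v⟩⟩

end

end Pool.Agent.Results.MP_a89d6d_nt.AtEveryScale
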