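import Pool.Agent.Q20.BX.Bxp

/-!
# The equivariant Beilinson conjecture over totally real fields
-/

set_option autoImplicit false

namespace Pool.Agent.Results.MP_a93ca1_nt.ExactOverTotallyRealFields

open NumberField Pool.Agent.Q20.RS.RL

/-- **Theorem.** Let `K` be a number field, `k ≥ 2`, and `H` a family of subsets of the spaces
`ℂ ⊗ V⁺` (the groups `K_{2k-1}(N) ⊗ ℚ`).
(0) The numbers `A_k(χ)` at all sufficiently large levels are those of the representations.
(1) Let `ψ` be a linear character of `Gal(K̄/F)` and `η` a quadratic character which is trivial on the
decomposition groups of the finite places at which `ψ` is ramified. There are finite extensions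
`F₁, F₂ ⊆ F₃` of `F` over which `ψ` becomes unramified at all finite places, such that
`ψ + Ind ψ|F₃ = ψη + Ind ψ|F₁ + Ind ψ|F₂`; so
`L(s, ψ) L(s, ψ|F₃) = L(s, ψη) L(s, ψ|F₁) L(s, ψ|F₂)`, and the same holds for the numbers `A_k`.
(2) Such `η` exist with prescribed signs at the real places.
(3) A character of `Gal(K̄/F)`, `F` totally real, is an integral combination of characters induced
from linear characters over totally real fields if and only if the complex conjugations commute in
the representation.
(4) Grant Beilinson's equality for the linear characters which are unramified at all finite places.
Then it holds for `ψη` if and only if it holds for `ψ`, so over totally real fields for a linear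
character if and only if for a twist of parity `(-1)^k`, and it holds for all linear characters over
totally real fields and for all the characters of (3) if it holds for the linear characters of parity
`(-1)^k` over totally real fields (Siegel, Klingen). -/
theorem result (K : Type) [Field K] [NumberField K] (k : ℕ) (H : Pool.Agent.Q20.RS.BK.Motivic K k) :
    BL.WellDefined K k H ∧ BX.Relations K k H ∧ Twists K ∧ InductionReal K ∧ BX.Beilinson K k H :=
  ⟨BL.well_defined H, BX.relations H, twists, induction_real, BX.beilinson H⟩

end Pool.Agent.Results.MP_a93ca1_nt.ExactOverTotallyRealFields
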