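import Mathlib

set_option autoImplicit false

/-!
# A circulant self-complementary graph on thirteen vertices
-/

namespace Pool.Agent.Results.MP_a93e77_co.NotSRG

/-- `P` is an isomorphism-permutation of `G`: an isomorphism of `G` onto its complement. -/
def IsoPerm {V : Type} (G : SimpleGraph V) (P : Equiv.Perm V) : Prop :=
  ∀ u v : V, u ≠ v → (G.Adj u v ↔ ¬ G.Adj (P u) (P v))

/-- `F(G)`: the vertices fixed by at least one isomorphism-permutation. -/
def F {V : Type} (G : SimpleGraph V) : Set V := {v | ∃ P, IsoPerm G P ∧ P v = v}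

/-- `N(G)`: the edges `uv` such that `P u = v` or `P v = u` for some isomorphism-permutation. -/
def N {V : Type} (G : SimpleGraph V) : Set (Sym2 V) :=
  {e | e ∈ G.edgeSet ∧ ∃ P u v, IsoPerm G P ∧ e = s(u, v) ∧ (P u = v ∨ P v = u)}

/-- Strongly regular: regular, with constant numbers of common neighbours of the ends of an edge
and of two distinct nonadjacent vertices. -/
def StronglyRegular {V : Type} (G : SimpleGraph V) : Prop :=
  ∃ d l m : ℕ, (∀ v, (G.neighborSet v).ncard = d) ∧
    (∀ u v, G.Adj u v → (G.commonNeighbors u v).ncard = l) ∧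
    (∀ u v, u ≠ v → ¬ G.Adj u v → (G.commonNeighbors u v).ncard = m)

/-- The circulant graph. -/
def G : SimpleGraph (Fin 13) where
  Adj x y := y - x ∈ ([1, 2, 4, 9, 11, 12] : List (Fin 13))
  symm := ⟨by decide⟩
  loopless := ⟨by decide⟩

instance : DecidableRel G.Adj := fun x y =>
  inferInstanceAs (Decidable (y - x ∈ ([1, 2, 4, 9, 11, 12] : List (Fin 13))))

/-- `x ↦ 8 x + c`. -/
def P (c : Fin 13) : Equiv.Perm (Fin 13) where
  toFun x := 8 * x + c
  invFun y := 5 * (y - c)
  left_inv := by revert c; unfold Function.LeftInverse; decide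
  right_inv := by revert c; unfold Function.RightInverse Function.LeftInverse; decide

lemma key : ∀ c u v : Fin 13, u ≠ v → (G.Adj u v ↔ ¬ G.Adj (8 * u + c) (8 * v + c)) := by
  decide

lemma anti (c : Fin 13) : IsoPerm G (P c) := fun u v h => key c u v h

lemma exists_anti (u v : Fin 13) : ∃ Q, IsoPerm G Q ∧ Q u = v :=
  ⟨P (v - 8 * u), anti _, by show 8 * u + (v - 8 * u) = v; abel⟩

lemma deg (v : Fin 13) : (G.neighborSet v).ncard = 6 := by
  rw [Set.ncard_eq_toFinset_card', ← SimpleGraph.neighborFinset_def,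
    SimpleGraph.card_neighborFinset_eq_degree]
  revert v
  decide

lemma common (u v : Fin 13) : (G.commonNeighbors u v).ncard =
    (Finset.univ.filter fun w => G.Adj u w ∧ G.Adj v w).card := by
  rw [← Set.ncard_coe_finset]
  congr 1
  ext w
  simp [SimpleGraph.mem_commonNeighbors]

lemma not_sr : ¬ StronglyRegular G := by
  rintro ⟨d, l, m, _, h, _⟩
  have h1 := h 0 1 (by decide)
  have h2 := h 0 2 (by decide)
  rw [common] at h1 h2
  rw [← h2] at h1
  revert h1
  decide

/-- It is not true that a regular self-complementary graph is strongly regular if and only if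
`F(G) = V(G)` and `N(G) = E(G)`. -/
theorem result :
    ¬ ∀ (n : ℕ) (G : SimpleGraph (Fin n)), Nonempty (G ≃g Gᶜ) →
        (∃ d, ∀ v, (G.neighborSet v).ncard = d) →
        (StronglyRegular G ↔ F G = Set.univ ∧ N G = G.edgeSet) := by
  intro H
  refine not_sr ((H 13 G ⟨⟨P 0, ?_⟩⟩ ⟨6, deg⟩).2 ⟨?_, ?_⟩)
  · intro a b
    by_cases hab : a = b
    · subst hab; simp
    · rw [SimpleGraph.compl_adj]
      have := anti 0 a b hab
      constructor
      · intro h; exact this.2 h.2
      · intro h; exact ⟨(P 0).injective.ne hab, this.1 h⟩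
  · ext v
    simp only [F, Set.mem_ofPred_eq, Set.mem_univ, iff_true]
    exact exists_anti v v
  · ext e
    constructor
    · intro h; exact h.1
    · intro h
      refine ⟨h, ?_⟩
      induction e with
      | _ u v =>
        obtain ⟨Q, hQ, hv⟩ := exists_anti u v
        exact ⟨Q, u, v, hQ, rfl, Or.inl hv⟩

end Pool.Agent.Results.MP_a93e77_co.NotSRG
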