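import Pool.Agent.Q267.Kos.Bound
import Pool.Agent.Q267.Kos.Count

/-!
# Nonvanishing of the Koszul cohomology of Veronese embeddings for all `d ≥ b + q + 1`
-/

namespace Pool.Agent.Results.MP_ab447a_ag.QuestionTwo

open Pool.Agent.Q267.Kos

/-- For `1 ≤ q ≤ n`, `b ≥ 0` and every `d ≥ b + q + 1`, `K_{p,q}(P^n, b; d) ≠ 0` for all `p` with
`λ_q ≤ p ≤ μ_q`, over any field `k`. Such a `p` is positive, `p = r + 1`, and with
`m = (q - 1) d + b` the group `K_{p,q}(P^n, b; d)` is the cohomology at the middle term of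
`Λ^(r+2)(S^d U) ⊗ S^m U → Λ^(r+1)(S^d U) ⊗ S^(m+d) U → Λ^r(S^d U) ⊗ S^(m+2d) U`. -/
theorem result (k : Type*) [Field k] (n b d q p : ℕ) (hq : 1 ≤ q) (hqn : q ≤ n)
    (hd : b + q + 1 ≤ d)
    (hlo : ((d + q).choose q : ℤ) - ((d - b - 1).choose q : ℤ) - (q : ℤ) ≤ (p : ℤ))
    (hhi : (p : ℤ) ≤ ((d + n).choose n : ℤ) - ((d + n - q).choose (n - q) : ℤ)
      + ((n + b).choose (n - q) : ℤ) - (q : ℤ) - 1) :
    ∃ r : ℕ, p = r + 1 ∧
      KoszulNonzero k (mulForm k n d ((q - 1) * d + b)) (mulForm k n d ((q - 1) * d + b + d)) r := by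
  have h1 : (Dset n d q b).card ≤ p := by
    have := card_Dset (n := n) (b := b) hqn hd
    omega
  have h2 : p ≤ (Zset n d q b).card := by
    have := card_Zset (n := n) (b := b) hqn hd
    omega
  have h3 : 0 < p := lt_of_lt_of_le (Finset.card_pos.2 (Dset_nonempty hq hqn hd)) h1
  obtain ⟨r, rfl⟩ := Nat.exists_eq_add_of_le' h3
  refine ⟨r, rfl, ?_⟩
  obtain ⟨T, hDT, hTZ, hT⟩ :=
    Finset.exists_subsuperset_card_eq (Dset_subset_Zset (n := n) hd) h1 h2
  set e := T.equivFinOfCardEq hT with he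
  set mon : Fin (r + 1) → Fin (n + 1) →₀ ℕ := fun i => (e.symm i).1 with hmon
  have hmem : ∀ i, mon i ∈ Zset n d q b := fun i => hTZ (e.symm i).2
  have hmem' : ∀ i, (mon i).degree = d ∧ (∀ j, mon i ≠ Finsupp.single j d) ∧
      ∃ j, Finsupp.single j d ≤ mon i + fexp n d q b := by
    intro i
    have := hmem i
    unfold Zset at this
    rwa [Finset.mem_filter, mem_univ_antidiag] at this
  choose hdeg hpure jj hjj using hmem'
  refine nonzero_of_mons (fexp n d q b) (degree_fexp hq hqn hd) mon jj hdeg ?_ ?_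
    (fun i i' => hpure i (jj i')) hjj
  · intro i i' h
    exact e.symm.injective (Subtype.ext h)
  · intro g hg hle
    have hgT : g ∈ T := by
      apply hDT
      unfold Dset
      rw [Finset.mem_filter, mem_univ_antidiag]
      exact ⟨hg, hle⟩
    refine ⟨e ⟨g, hgT⟩, ?_⟩
    simp [hmon]

end Pool.Agent.Results.MP_ab447a_ag.QuestionTwo
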