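import Pool.Agent.Q87.KX.Rank2

/-!
# MP_ac5134: the Kakeya inequality in tube form and functions of low multiscale rank

Work in `ℝ^n = ℝ^d × ℝ`, `n = d + 1`, with its Euclidean norm (`Space d`), and let `P` be the
paraboloid `{(ω, |ω|²)}`, `|ω| ≤ 1`.  The box dual to the cap at `ω` is `box N (nor ω) f 0`: its long
side `N²` is in the direction of the unit normal `nor ω = (-2ω, 1)/√(1+4|ω|²)` and its other sides `N`
are in the directions of an arbitrary orthonormal frame `f` of the orthogonal complement.  The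
translates (the centres `a i`) are arbitrary.

Let `b ≥ 2` and `b^k ≤ N ≤ b^(k+1)`. Some orthonormal coordinates are given by an isometry `U` onto the
Euclidean space `Sp (d+1)`, where we use the `b`-adic grid of the cubes of side `s b^(k-j)`,
`j = 0, …, k`. The smallest cubes, the cells, have the side `s = 2 d N² / b^k`, which is comparable to
the width `N` of the boxes; the cubes of level `0` have the side `2 d N²`.  A nonnegative function on
the cells has multiscale rank at most `r` if on each cube of level `0` there are, for every level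
`j ≤ k`, nonnegative functions `ψ_j(1), …, ψ_j(r)` on a cube of level `j`, such that the function is a
nonnegative combination of the `ψ_0(i)`, and such that the restriction of every `ψ_j(i)` to each of
the `b^n` subcubes of the next level is a nonnegative combination of the `ψ_{j+1}(i')`.

(1) If the number `F` of the boxes through a point is at most `g^(n-1)` and the integral of `g^n` is at
most `Λ` times the one of `F^(n/(n-1))`, for some `g` of multiscale rank at most `r`, then the
comparison of Q1 with the centred family holds for all `p` in `[1, ∞]` with the factor `C N^ε r^A Λ`.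

(2) The volume form for sets of cells with at most `r` different zooms at each level.

The maximal inequality for functions of low multiscale rank is `MP_5168f5_an.LowMultiscaleRank`.
-/

set_option autoImplicit false

open MeasureTheory Set ENNReal NNReal

namespace Pool.Agent.Results.MP_ac5134_an.LowMultiscaleRank

open Pool.Agent.H810R3.Tub Pool.Agent.W772
open Q85.ZE (Sp cells idx)
open Q85.ZR (cellFun LowRank FewZooms)

/-- The caps have centres `ω i` in the closed unit ball, `σ/N`-separated and at least `κ N^d` in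
number, and `f i` is an orthonormal frame of the orthogonal complement of the normal at `ω i`. -/
def Caps {d : ℕ} {ι : Type} [Fintype ι] (σ κ N : ℝ) (ω : ι → Vec d) (f : ι → Fin d → Space d) : Prop :=
  (∀ i, ‖ω i‖ ≤ 1) ∧ (∀ i j, i ≠ j → σ / N ≤ ‖ω i - ω j‖) ∧ κ * N ^ d ≤ (Fintype.card ι : ℝ) ∧
    ∀ i, Orthonormal ℝ (Fin.cons (nor (ω i)) (f i) : Fin (d + 1) → Space d)

/-- The sum of the indicators of the boxes of the caps with centres `a i`. -/
noncomputable def boxSum {d : ℕ} {ι : Type} [Fintype ι] (N : ℝ) (ω : ι → Vec d)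
    (f : ι → Fin d → Space d) (a : ι → Space d) (y : Space d) : ℝ :=
  ∑ i, (box N (nor (ω i)) (f i) (a i)).indicator (fun _ => (1 : ℝ)) y

/-- The side of the cells. -/
noncomputable def side (d b k : ℕ) (N : ℝ) : ℝ := 2 * d * N ^ 2 / (b : ℝ) ^ k

/-- The nonnegative function `F` on `ℝ^(d+1)` is, in the coordinates given by `U`, at most `g ^ d`, and
the integral of `g ^ (d+1)` is at most `Λ` times the integral of `F ^ (1+1/d)`; here `g` is the function
with the values `φ v` on the cells (the cubes of side `s`) number `v`. -/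
def Majorant {d : ℕ} (s Λ : ℝ) (U : Space d ≃ₗᵢ[ℝ] Sp (d + 1)) (φ : (Fin (d + 1) → ℤ) → ℝ)
    (F : Space d → ℝ) : Prop :=
  (∀ y, F y ≤ φ (idx s (U y)) ^ d) ∧
    ∫⁻ x, cellFun s φ x ^ (d + 1) ≤
      ENNReal.ofReal Λ * ∫⁻ y, ENNReal.ofReal (F y) ^ (1 + 1 / (d : ℝ))

/-- The comparison of Q1 with the factor `K`: the `L^p` norm of the sum of the indicators of the boxes
with the centres `a i` is at most `K` times the one for the boxes centred at `0`, for all `p` in
`[1, ∞]`. -/
def Comparison {d : ℕ} {ι : Type} [Fintype ι] (K N : ℝ) (ω : ι → Vec d) (f : ι → Fin d → Space d)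
    (a : ι → Space d) : Prop :=
  ∀ p : ℝ≥0∞, 1 ≤ p → eLpNorm (boxSum N ω f a) p volume ≤
    ENNReal.ofReal K * eLpNorm (boxSum N ω f 0) p volume

/-- The volume inequality with the factor `K` for the set `E`: if on the average the proportion of the
boxes in `E` is at least `lam`, then `lam^(d+1)` times the sum of the volumes of the boxes is at most
`K` times the volume of `E`. -/
def Filled {d : ℕ} {ι : Type} [Fintype ι] (K N : ℝ) (ω : ι → Vec d) (f : ι → Fin d → Space d)
    (a : ι → Space d) (E : Set (Space d)) : Prop :=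
  ∀ lam : ℝ, 0 ≤ lam →
    ENNReal.ofReal lam * ∑ i, volume (box N (nor (ω i)) (f i) (a i)) ≤
      ∑ i, volume (box N (nor (ω i)) (f i) (a i) ∩ E) →
    ENNReal.ofReal (lam ^ (d + 1)) * ∑ i, volume (box N (nor (ω i)) (f i) (a i)) ≤
      ENNReal.ofReal K * volume E

/-- **The Kakeya inequality in tube form, for all `p` in `[1, ∞]` and all translates for which the
multiplicity function has a majorant of low multiscale rank, and the volume form for sets with few
zooms.** -/
theorem result (d b : ℕ) (hd : 1 ≤ d) (hb : 2 ≤ b) (σ κ ε : ℝ) (hσ : 0 < σ) (hσ1 : σ ≤ 1)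
    (hκ : 0 < κ) (hε : 0 < ε) :
    ∃ (C : ℝ) (A : ℕ), 0 < C ∧ ∀ k : ℕ, 1 ≤ k → ∀ N : ℝ, (b : ℝ) ^ k ≤ N → N ≤ (b : ℝ) ^ (k + 1) →
      ∀ (ι : Type) [Fintype ι] (ω : ι → Vec d) (f : ι → Fin d → Space d), Caps σ κ N ω f →
      ∀ (a : ι → Space d) (U : Space d ≃ₗᵢ[ℝ] Sp (d + 1)) (r : ℕ), 1 ≤ r →
        (∀ φ : (Fin (d + 1) → ℤ) → ℝ, LowRank b k r φ → ∀ Λ : ℝ, 1 ≤ Λ →
          Majorant (side d b k N) Λ U φ (boxSum N ω f a) →
          Comparison (C * N ^ ε * (r : ℝ) ^ A * Λ) N ω f a) ∧
        (∀ 𝒜 : Set (Fin (d + 1) → ℤ), FewZooms b k r 𝒜 →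
          Filled (C * N ^ ε * (r : ℝ) ^ A) N ω f a (U ⁻¹' cells (side d b k N) 𝒜)) := by
  have hb1 : (1 : ℝ) ≤ b := by exact_mod_cast (by omega : 1 ≤ b)
  have hd0 : (0 : ℝ) < d := by exact_mod_cast hd
  obtain ⟨E, A₁, hE0, hE⟩ := Q87.KX.rank_int d b hd hb hε hσ hσ1 hb1
  obtain ⟨D, hD1, hD⟩ := compare_tri d hd κ E hκ hE0
  obtain ⟨G, A₂, hG0, hG⟩ := Q87.KX.sets_int d b hd hb hε hσ hσ1 hb1
  refine ⟨D + G / κ ^ d, max A₁ A₂, by positivity, ?_⟩
  intro k hk N hN1 hN2 ι _ ω f hcaps a U r hr
  obtain ⟨hω, hsep, hcard, hf⟩ := hcaps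
  have hbk : (1 : ℝ) ≤ (b : ℝ) ^ k := one_le_pow₀ hb1
  have hN : 1 ≤ N := by linarith
  have hN0 : 0 < N := by linarith
  have hN2' : N ≤ b * (b : ℝ) ^ k := by rw [pow_succ] at hN2; linarith
  have hne : Nonempty ι := by
    have h1 : 0 < κ * N ^ d := by positivity
    have h2 : (0 : ℝ) < (Fintype.card ι : ℝ) := by linarith
    have h3 : 0 < Fintype.card ι := by exact_mod_cast h2
    exact Fintype.card_pos_iff.1 h3
  have hr1 : (1 : ℝ) ≤ r := by exact_mod_cast hr
  have hNε : 1 ≤ N ^ ε := Real.one_le_rpow hN hε.le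
  have hGκ : 0 < G / κ ^ d := by positivity
  refine ⟨?_, ?_⟩
  · intro φ hφ Λ hΛ hmaj p hp
    have hFb : ∀ y, Fb N ω f a y = ENNReal.ofReal (boxSum N ω f a y) := by
      intro y
      have h1 := enorm_sum_box N ω f a y
      rw [← h1]
      have h2 : 0 ≤ ∑ i, (box N (nor (ω i)) (f i) (a i)).indicator (fun _ => (1 : ℝ)) y :=
        Finset.sum_nonneg fun i _ => indicator_nonneg (fun _ _ => zero_le_one) _
      rw [Real.enorm_eq_ofReal h2]
      rfl
    have hrA : (1 : ℝ) ≤ (r : ℝ) ^ A₁ := one_le_pow₀ hr1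
    set W : ℝ := N ^ ε * (r : ℝ) ^ A₁ * Λ with hW
    have hW1 : 1 ≤ W := by
      have h1 : 1 ≤ N ^ ε * (r : ℝ) ^ A₁ := one_le_mul_of_one_le_of_one_le hNε hrA
      exact one_le_mul_of_one_le_of_one_le h1 hΛ
    have hW0 : 0 < W := by linarith
    have hWd : 1 ≤ W ^ (1 / (d : ℝ)) := Real.one_le_rpow hW1 (by positivity)
    have h1 := hE k hk N hN1 hN2' ι ω hω hsep f hf a U r hr φ hφ Λ hΛ (by
      intro y
      rw [hFb y]
      unfold cellFun
      rw [← ENNReal.ofReal_pow (hφ.1 _)]
      exact ENNReal.ofReal_le_ofReal (hmaj.1 y)) (by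
      simp only [hFb]
      exact hmaj.2)
    have h2 := hD hN hWd ω f hf a hcard h1 p hp
    refine h2.trans (mul_le_mul' (ENNReal.ofReal_le_ofReal ?_) le_rfl)
    have hth1 : th d p ≤ 1 := by
      unfold th
      rcases eq_or_ne p ∞ with ht | ht
      · rw [ht]
        refine (min_le_right _ _).trans ?_
        simp
      · refine (min_le_right _ _).trans ?_
        have h3 : 1 ≤ p.toReal := by
          rw [← ENNReal.toReal_one]
          exact ENNReal.toReal_mono ht hp
        rw [div_le_one (by linarith)]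
        exact h3
    have h4 : (W ^ (1 / (d : ℝ))) ^ th d p ≤ W := by
      calc (W ^ (1 / (d : ℝ))) ^ th d p ≤ (W ^ (1 / (d : ℝ))) ^ (1 : ℝ) :=
            Real.rpow_le_rpow_of_exponent_le hWd hth1
        _ = W ^ (1 / (d : ℝ)) := Real.rpow_one _
        _ ≤ W ^ (1 : ℝ) := by
            apply Real.rpow_le_rpow_of_exponent_le hW1
            rw [div_le_one hd0]
            exact_mod_cast hd
        _ = W := Real.rpow_one _
    have hD0 : 0 < D := by linarith
    calc D * (W ^ (1 / (d : ℝ))) ^ th d p ≤ (D + G / κ ^ d) * W :=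
          mul_le_mul (by linarith) h4 (by positivity) (by positivity)
      _ = (D + G / κ ^ d) * N ^ ε * (r : ℝ) ^ A₁ * Λ := by rw [hW]; ring
      _ ≤ (D + G / κ ^ d) * N ^ ε * (r : ℝ) ^ (max A₁ A₂) * Λ := by
          gcongr
          exact le_max_left _ _
  · intro 𝒜 hZ lam hlam hle
    have hvol : volume (U ⁻¹' cells (side d b k N) 𝒜) =
        volume (cells (2 * d * N ^ 2 / (b : ℝ) ^ k) 𝒜) :=
      MeasurePreserving.measure_preimage_equiv (f := U.toMeasurableEquiv) U.measurePreserving _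
    rw [hvol]
    have h1 := hG k hk N hN1 hN2' ι ω hω hsep f hf a U r hr 𝒜 hZ
    set V : ℝ := (Fintype.card ι : ℝ) * N ^ (d + 2) with hV
    have hsum : ∑ i, volume (box N (nor (ω i)) (f i) (a i)) = ENNReal.ofReal V := by
      simp only [vol_box hN (hf _)]
      rw [Finset.sum_const, Finset.card_univ, nsmul_eq_mul, hV,
        ENNReal.ofReal_mul (Nat.cast_nonneg _), ENNReal.ofReal_natCast]
    have hVge : κ * N ^ (2 * (d + 1)) ≤ V := by
      calc κ * N ^ (2 * (d + 1)) = (κ * N ^ d) * N ^ (d + 2) := by ring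
        _ ≤ V := mul_le_mul_of_nonneg_right hcard (by positivity)
    have hV0 : 0 < V := lt_of_lt_of_le (by positivity) hVge
    rw [hsum] at hle ⊢
    have h2 : (ENNReal.ofReal lam * ENNReal.ofReal V) ^ (d + 1) ≤
        ENNReal.ofReal (G * N ^ (2 * d * (d + 1)) * (N ^ ε * (r : ℝ) ^ A₂)) *
        volume (cells (2 * d * N ^ 2 / (b : ℝ) ^ k) 𝒜) := (pow_le_pow_left' hle _).trans h1
    have hX : 0 < κ ^ d * N ^ (2 * d * (d + 1)) := by positivity
    have hX0 : ENNReal.ofReal (κ ^ d * N ^ (2 * d * (d + 1))) ≠ 0 := (ENNReal.ofReal_pos.2 hX).ne'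
    rw [← ENNReal.mul_le_mul_iff_right hX0 ENNReal.ofReal_ne_top]
    calc ENNReal.ofReal (κ ^ d * N ^ (2 * d * (d + 1))) *
          (ENNReal.ofReal (lam ^ (d + 1)) * ENNReal.ofReal V)
        = ENNReal.ofReal (lam ^ (d + 1) * ((κ * N ^ (2 * (d + 1))) ^ d * V)) := by
          rw [← ENNReal.ofReal_mul (by positivity), ← ENNReal.ofReal_mul (by positivity)]
          congr 1
          rw [mul_pow, ← pow_mul]
          ring
      _ ≤ ENNReal.ofReal (lam ^ (d + 1) * (V ^ d * V)) := by
          apply ENNReal.ofReal_le_ofReal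
          gcongr
      _ = (ENNReal.ofReal lam * ENNReal.ofReal V) ^ (d + 1) := by
          rw [← ENNReal.ofReal_mul hlam, ← ENNReal.ofReal_pow (by positivity)]
          congr 1
          rw [mul_pow]
          ring
      _ ≤ ENNReal.ofReal (G * N ^ (2 * d * (d + 1)) * (N ^ ε * (r : ℝ) ^ A₂)) *
          volume (cells (2 * d * N ^ 2 / (b : ℝ) ^ k) 𝒜) := h2
      _ ≤ ENNReal.ofReal ((κ ^ d * N ^ (2 * d * (d + 1))) *
            ((D + G / κ ^ d) * N ^ ε * (r : ℝ) ^ (max A₁ A₂))) *
          volume (cells (2 * d * N ^ 2 / (b : ℝ) ^ k) 𝒜) := by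
          refine mul_le_mul' (ENNReal.ofReal_le_ofReal ?_) le_rfl
          have h3 : G ≤ κ ^ d * (D + G / κ ^ d) := by
            rw [mul_add, mul_div_cancel₀ _ (by positivity)]
            have : 0 ≤ κ ^ d * D := by positivity
            linarith
          have h4 : (r : ℝ) ^ A₂ ≤ (r : ℝ) ^ (max A₁ A₂) :=
            pow_le_pow_right₀ hr1 (le_max_right _ _)
          calc G * N ^ (2 * d * (d + 1)) * (N ^ ε * (r : ℝ) ^ A₂)
              ≤ (κ ^ d * (D + G / κ ^ d)) * N ^ (2 * d * (d + 1)) *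
                (N ^ ε * (r : ℝ) ^ (max A₁ A₂)) := by gcongr
            _ = _ := by ring
      _ = _ := by
          rw [ENNReal.ofReal_mul (p := κ ^ d * N ^ (2 * d * (d + 1))) (by positivity), mul_assoc]

end Pool.Agent.Results.MP_ac5134_an.LowMultiscaleRank
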