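import Mathlib

/-!
The maximum number of complete extensions of an argumentation framework with `n` arguments.
-/

namespace Pool.Agent.Results.MP_acab80_co.MaxComplete

open Finset

/-- `S` defends `a` in the argumentation framework with arguments `V` and attack relation `R`. -/
def Defends {V : Type*} (R : V → V → Prop) (S : Set V) (a : V) : Prop :=
  ∀ b, R b a → ∃ c ∈ S, R c b

/-- `S` is conflict-free. -/
def ConflictFree {V : Type*} (R : V → V → Prop) (S : Set V) : Prop :=
  ∀ a ∈ S, ∀ b ∈ S, ¬ R a b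

/-- `S` is admissible. -/
def Admissible {V : Type*} (R : V → V → Prop) (S : Set V) : Prop :=
  ConflictFree R S ∧ ∀ a ∈ S, Defends R S a

/-- `S` is a complete extension. -/
def IsComplete {V : Type*} (R : V → V → Prop) (S : Set V) : Prop :=
  Admissible R S ∧ ∀ a, Defends R S a → a ∈ S

/-- The number of complete extensions. -/
noncomputable def numCom {V : Type*} (R : V → V → Prop) : ℕ := Nat.card {S : Set V // IsComplete R S}

/-- The conjectured maximum. -/
def T (n : ℕ) : ℕ := if n ≤ 1 then 1 else if Even n then 3 ^ (n / 2) else 4 * 3 ^ ((n - 3) / 2)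

/-! ### Upper bound -/

section upper

variable {V : Type*} [DecidableEq V]

/-- Complete extensions of the framework induced on the finite set `A`. -/
def IsCom (A : Finset V) (R : V → V → Prop) (S : Finset V) : Prop :=
  S ⊆ A ∧ (∀ a ∈ S, ∀ b ∈ S, ¬ R a b) ∧ (∀ a ∈ S, ∀ b ∈ A, R b a → ∃ c ∈ S, R c b) ∧
    (∀ a ∈ A, (∀ b ∈ A, R b a → ∃ c ∈ S, R c b) → a ∈ S)

open Classical in
noncomputable def com (A : Finset V) (R : V → V → Prop) : Finset (Finset V) :=
  A.powerset.filter (IsCom A R)

omit [DecidableEq V] in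
lemma mem_com {A : Finset V} {R : V → V → Prop} {S : Finset V} : S ∈ com A R ↔ IsCom A R S := by
  classical
  unfold com
  rw [mem_filter, mem_powerset]
  exact ⟨fun h => h.2, fun h => ⟨h.1, h⟩⟩

open Classical in
noncomputable def nonSelf (A : Finset V) (R : V → V → Prop) : Finset V := A.filter (fun a => ¬ R a a)

open Classical in
noncomputable def self (A : Finset V) (R : V → V → Prop) : Finset V := A.filter (fun a => R a a)

omit [DecidableEq V] in
lemma mem_nonSelf {A : Finset V} {R : V → V → Prop} {a : V} :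
    a ∈ nonSelf A R ↔ a ∈ A ∧ ¬ R a a := by
  classical
  unfold nonSelf
  rw [mem_filter]

omit [DecidableEq V] in
lemma mem_self {A : Finset V} {R : V → V → Prop} {a : V} :
    a ∈ self A R ↔ a ∈ A ∧ R a a := by
  classical
  unfold self
  rw [mem_filter]

open Classical in
/-- Remove `a` and all its neighbours. -/
noncomputable def rem (A : Finset V) (R : V → V → Prop) (a : V) : Finset V :=
  A.filter (fun x => x ≠ a ∧ ¬ R a x ∧ ¬ R x a)

lemma mem_rem {A : Finset V} {R : V → V → Prop} {a x : V} :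
    x ∈ rem A R a ↔ x ∈ A ∧ x ≠ a ∧ ¬ R a x ∧ ¬ R x a := by
  classical
  unfold rem
  rw [mem_filter]

/-- Add a self-attack at `a`. -/
def addSelf (R : V → V → Prop) (a : V) : V → V → Prop := fun x y => R x y ∨ (x = a ∧ y = a)

open Classical in
lemma card_contain (A : Finset V) (R : V → V → Prop) (a : V) :
    ((com A R).filter (fun S => a ∈ S)).card ≤ (com (rem A R a) R).card := by
  refine card_le_card_of_injOn (fun S => S.erase a) ?_ ?_
  · intro S hS
    rw [coe_filter] at hS
    obtain ⟨h0, haS⟩ := hS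
    rw [mem_com] at h0
    obtain ⟨h1, h2, h3, h4⟩ := h0
    rw [mem_coe, mem_com]
    refine ⟨?_, ?_, ?_, ?_⟩
    · intro x hx
      rw [mem_erase] at hx
      exact mem_rem.2 ⟨h1 hx.2, hx.1, h2 a haS x hx.2, h2 x hx.2 a haS⟩
    · intro x hx y hy
      exact h2 x (mem_of_mem_erase hx) y (mem_of_mem_erase hy)
    · intro x hx b hb hbx
      rw [mem_rem] at hb
      obtain ⟨c, hc, hcb⟩ := h3 x (mem_of_mem_erase hx) b hb.1 hbx
      refine ⟨c, mem_erase.2 ⟨?_, hc⟩, hcb⟩
      rintro rfl
      exact hb.2.2.1 hcb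
    · intro x hx hdef
      rw [mem_rem] at hx
      refine mem_erase.2 ⟨hx.2.1, h4 x hx.1 ?_⟩
      intro b hb hbx
      by_cases hba : b = a
      · rw [hba] at hbx
        exact absurd hbx hx.2.2.1
      by_cases h5 : R a b
      · exact ⟨a, haS, h5⟩
      by_cases h6 : R b a
      · exact h3 a haS b hb h6
      · obtain ⟨c, hc, hcb⟩ := hdef b (mem_rem.2 ⟨hb, hba, h5, h6⟩) hbx
        exact ⟨c, mem_of_mem_erase hc, hcb⟩
  · intro S hS S' hS' h
    rw [coe_filter] at hS hS'
    have h1 : insert a (S.erase a) = S := insert_erase hS.2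
    have h2 : insert a (S'.erase a) = S' := insert_erase hS'.2
    rw [← h1, ← h2]
    exact congrArg (insert a) h

open Classical in
lemma card_avoid (A : Finset V) (R : V → V → Prop) (a : V) :
    ((com A R).filter (fun S => a ∉ S)).card ≤ (com A (addSelf R a)).card := by
  refine card_le_card ?_
  intro S hS
  rw [mem_filter, mem_com] at hS
  obtain ⟨⟨h1, h2, h3, h4⟩, haS⟩ := hS
  rw [mem_com]
  have hne : ∀ x ∈ S, x ≠ a := by
    rintro x hx rfl; exact haS hx
  refine ⟨h1, ?_, ?_, ?_⟩
  · rintro x hx y hy (h | ⟨h, -⟩)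
    · exact h2 x hx y hy h
    · exact hne x hx h
  · rintro x hx b hb (h | ⟨-, h⟩)
    · obtain ⟨c, hc, hcb⟩ := h3 x hx b hb h
      exact ⟨c, hc, Or.inl hcb⟩
    · exact absurd h (hne x hx)
  · intro x hx hdef
    by_cases hxa : x = a
    · exfalso
      subst hxa
      obtain ⟨c, hc, hcx⟩ := hdef x hx (Or.inr ⟨rfl, rfl⟩)
      obtain hcx | ⟨h, -⟩ := hcx
      · obtain ⟨d, hd, hdc⟩ := hdef c (h1 hc) (Or.inl hcx)
        obtain hdc | ⟨h, -⟩ := hdc
        · exact h2 d hd c hc hdc
        · exact hne d hd h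
      · exact hne c hc h
    · refine h4 x hx ?_
      intro b hb hbx
      obtain ⟨c, hc, hcb⟩ := hdef b hb (Or.inl hbx)
      obtain hcb | ⟨h, -⟩ := hcb
      · exact ⟨c, hc, hcb⟩
      · exact absurd h (hne c hc)

lemma card_split (A : Finset V) (R : V → V → Prop) (a : V) :
    (com A R).card ≤ (com (rem A R a) R).card + (com A (addSelf R a)).card := by
  classical
  rw [← card_filter_add_card_filter_not (s := com A R) (fun S => a ∈ S)]
  exact add_le_add (card_contain A R a) (card_avoid A R a)

lemma card_isolated (A : Finset V) (R : V → V → Prop) (a : V) (ha : a ∈ A)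
    (h : ∀ b ∈ A, ¬ R b a) : (com A R).card ≤ (com (rem A R a) R).card := by
  classical
  have : (com A R).filter (fun S => a ∈ S) = com A R := by
    rw [filter_eq_self]
    intro S hS
    rw [mem_com] at hS
    exact hS.2.2.2 a ha (fun b hb hba => absurd hba (h b hb))
  rw [← this]
  exact card_contain A R a

/-- If distinct arguments that are not self-attacking never attack each other. -/
lemma card_bipartite (A : Finset V) (R : V → V → Prop)
    (h : ∀ a ∈ nonSelf A R, ∀ b ∈ nonSelf A R, ¬ R a b) :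
    (com A R).card ≤ 2 ^ (nonSelf A R).card ∧ (com A R).card ≤ 2 ^ (self A R).card := by
  classical
  constructor
  · rw [← card_powerset]
    apply card_le_card
    intro S hS
    rw [mem_com] at hS
    rw [mem_powerset]
    intro x hx
    exact mem_nonSelf.2 ⟨hS.1 hx, hS.2.1 x hx x hx⟩
  · rw [← card_powerset]
    refine card_le_card_of_injOn (fun S => (self A R).filter (fun w => ∃ c ∈ S, R c w)) ?_ ?_
    · intro S _
      rw [mem_coe, mem_powerset]
      exact filter_subset _ _
    · have key : ∀ S S', IsCom A R S → IsCom A R S' →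
          (self A R).filter (fun w => ∃ c ∈ S, R c w) = (self A R).filter (fun w => ∃ c ∈ S', R c w) →
          S ⊆ S' := by
        rintro S S' ⟨h1, h2, h3, h4⟩ ⟨h1', h2', h3', h4'⟩ hE x hx
        refine h4' x (h1 hx) ?_
        intro b hb hbx
        have hxN : x ∈ nonSelf A R := mem_nonSelf.2 ⟨h1 hx, h2 x hx x hx⟩
        have hbW : b ∈ self A R := by
          by_contra hcon
          have : b ∈ nonSelf A R := mem_nonSelf.2 ⟨hb, fun hbb => hcon (mem_self.2 ⟨hb, hbb⟩)⟩
          exact h b this x hxN hbx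
        have : b ∈ (self A R).filter (fun w => ∃ c ∈ S, R c w) :=
          mem_filter.2 ⟨hbW, h3 x hx b hb hbx⟩
        rw [hE, mem_filter] at this
        exact this.2
      intro S hS S' hS' hE
      rw [mem_coe, mem_com] at hS hS'
      exact Subset.antisymm (key S S' hS hS' hE) (key S' S hS' hS hE.symm)

/-- The refined bound: `M` arguments without self-attack, `U` with self-attack. -/
def B (M U : ℕ) : ℕ :=
  if M ≤ U then 2 ^ M
  else if (M - U) % 2 = 0 then 3 ^ ((M - U) / 2) * 2 ^ U
  else if 1 ≤ U then 3 ^ ((M - U + 1) / 2) * 2 ^ (U - 1)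
  else if M = 1 then 1 else 4 * 3 ^ ((M - 3) / 2)

lemma B_le {M U : ℕ} (h : M ≤ U) : B M U = 2 ^ M := by
  unfold B; rw [if_pos h]

lemma B_even (e U : ℕ) : B (U + 2 * e) U = 3 ^ e * 2 ^ U := by
  unfold B
  split_ifs with h1 h2 h3 h4
  · have : e = 0 := by omega
    subst this; simp
  · congr 2; omega
  · omega
  · omega
  · omega

lemma B_odd (e U : ℕ) : B (U + 1 + 2 * e + 1) (U + 1) = 3 ^ (e + 1) * 2 ^ U := by
  unfold B
  split_ifs with h1 h2 h3 h4
  · omega
  · omega
  · congr 2; omega
  · omega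
  · omega

lemma B_one : B 1 0 = 1 := by decide

lemma B_odd0 (e : ℕ) : B (2 * e + 3) 0 = 4 * 3 ^ e := by
  unfold B
  split_ifs with h1 h2 h3 h4
  · omega
  · omega
  · omega
  · omega
  · congr 2; omega

lemma p3 (e : ℕ) : 0 < 3 ^ e := Nat.pow_pos (by norm_num)

lemma p2 (e : ℕ) : 0 < 2 ^ e := Nat.pow_pos (by norm_num)

lemma B_mono_left_succ (M U : ℕ) : B M U ≤ B (M + 1) U := by
  rcases Nat.lt_or_ge M U with h | h
  · rw [B_le h.le, B_le h]; exact Nat.pow_le_pow_right (by norm_num) (by omega)
  obtain ⟨d, rfl⟩ := Nat.exists_eq_add_of_le h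
  obtain ⟨e, he | he⟩ := Nat.even_or_odd' d
  · subst he
    rw [B_even]
    rcases U with _ | U
    · rcases e with _ | e
      · simp [B_one]
      · have : 0 + 2 * (e + 1) + 1 = 2 * e + 3 := by ring
        rw [this, B_odd0, pow_succ]
        omega
    · have : U + 1 + 2 * e + 1 = U + 1 + 2 * e + 1 := rfl
      rw [B_odd, pow_succ, pow_succ]
      nlinarith [Nat.mul_pos (p3 e) (p2 U)]
  · subst he
    have h2 : U + (2 * e + 1) + 1 = U + 2 * (e + 1) := by ring
    rw [h2, B_even]
    rcases U with _ | U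
    · rcases e with _ | e
      · simp [B_one]
      · have : 0 + (2 * (e + 1) + 1) = 2 * e + 3 := by ring
        rw [this, B_odd0, pow_succ, pow_succ]
        have := p3 e
        omega
    · have : U + 1 + (2 * e + 1) = U + 1 + 2 * e + 1 := by ring
      rw [this, B_odd]
      exact Nat.mul_le_mul_left _ (Nat.pow_le_pow_right (by norm_num) (by omega))

lemma B_mono_right_succ (M U : ℕ) : B M U ≤ B M (U + 1) := by
  rcases Nat.lt_or_ge M (U + 1) with h | h
  · rw [B_le (by omega), B_le (by omega)]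
  obtain ⟨d, rfl⟩ := Nat.exists_eq_add_of_le h
  obtain ⟨e, he | he⟩ := Nat.even_or_odd' d
  · subst he
    rw [B_even]
    rcases U with _ | U
    · rcases e with _ | e
      · simp [B_one]
      · have : 0 + 1 + 2 * (e + 1) = 2 * e + 3 := by ring
        rw [this, B_odd0, pow_succ, pow_succ]
        omega
    · have : U + 1 + 1 + 2 * e = U + 1 + 2 * e + 1 := by ring
      rw [this, B_odd, pow_succ, pow_succ, pow_succ]
      nlinarith [Nat.mul_pos (p3 e) (p2 U)]
  · subst he
    have h1 : U + 1 + (2 * e + 1) = U + 1 + 2 * e + 1 := by ring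
    have h2 : U + 1 + (2 * e + 1) = U + 2 * (e + 1) := by ring
    have h3 : B (U + 1 + (2 * e + 1)) (U + 1) = 3 ^ (e + 1) * 2 ^ U := by rw [h1, B_odd]
    rw [h3, h2, B_even]

lemma B_mono {M M' U U' : ℕ} (h1 : M ≤ M') (h2 : U ≤ U') : B M U ≤ B M' U' :=
  (monotone_nat_of_le_succ (f := fun m => B m U) (fun m => B_mono_left_succ m U) h1).trans
    (monotone_nat_of_le_succ (f := fun u => B M' u) (fun u => B_mono_right_succ M' u) h2)

lemma pow_min_le_B (M U c : ℕ) (h1 : c ≤ 2 ^ M) (h2 : c ≤ 2 ^ U) : c ≤ B M U := by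
  rcases Nat.le_total M U with h | h
  · rw [B_le h]; exact h1
  · have h3 : B U U = 2 ^ U := B_le le_rfl
    calc c ≤ B U U := by rw [h3]; exact h2
      _ ≤ B M U := B_mono h le_rfl

lemma rec1 (m U : ℕ) (h : 1 ≤ U ∨ m % 2 = 0 ∨ m = 1) :
    B m U + B (m + 1) (U + 1) ≤ B (m + 2) U := by
  rcases Nat.lt_or_ge m U with h1 | h1
  · rw [B_le h1.le, B_le (by omega : m + 1 ≤ U + 1)]
    rcases Nat.lt_or_ge (m + 1) U with h2 | h2
    · rw [B_le (by omega : m + 2 ≤ U), pow_succ, pow_succ]
      have := p2 m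
      omega
    · have h3 : U = m + 1 := by omega
      subst h3
      have h4 : B (m + 2) (m + 1) = 3 ^ (0 + 1) * 2 ^ m := B_odd 0 m
      rw [h4, pow_succ]
      omega
  obtain ⟨d, rfl⟩ := Nat.exists_eq_add_of_le h1
  obtain ⟨e, he | he⟩ := Nat.even_or_odd' d
  · subst he
    have h2 : U + 2 * e + 1 = U + 1 + 2 * e := by ring
    have h3 : U + 2 * e + 2 = U + 2 * (e + 1) := by ring
    rw [h2, h3, B_even, B_even, B_even, pow_succ, pow_succ]
    nlinarith [Nat.mul_pos (p3 e) (p2 U)]
  · subst he
    rcases U with _ | U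
    · rcases e with _ | e
      · decide
      · exfalso
        omega
    · have h2 : U + 1 + (2 * e + 1) = U + 1 + 2 * e + 1 := by ring
      have h3 : U + 1 + (2 * e + 1) + 1 = U + 1 + 1 + 2 * e + 1 := by ring
      have h4 : U + 1 + (2 * e + 1) + 2 = U + 1 + 2 * (e + 1) + 1 := by ring
      rw [h4, h3, h2, B_odd, B_odd, B_odd]
      simp only [pow_succ]
      nlinarith [Nat.mul_pos (p3 e) (p2 U)]

lemma rec2 (e : ℕ) : B (2 * e + 2) 0 + B (2 * e + 4) 1 ≤ B (2 * e + 5) 0 := by
  have h1 : 2 * e + 2 = 0 + 2 * (e + 1) := by ring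
  have h2 : 2 * e + 4 = 0 + 1 + 2 * (e + 1) + 1 := by ring
  have h3 : 2 * e + 5 = 2 * (e + 1) + 3 := by ring
  have e1 : B (2 * e + 2) 0 = 3 ^ (e + 1) * 2 ^ 0 := by rw [h1, B_even]
  have e2 : B (2 * e + 4) 1 = 3 ^ (e + 1 + 1) * 2 ^ 0 := by rw [h2]; exact B_odd (e + 1) 0
  have e3 : B (2 * e + 5) 0 = 4 * 3 ^ (e + 1) := by rw [h3, B_odd0]
  rw [e1, e2, e3, pow_succ 3 (e + 1)]
  omega

lemma rec3 (e : ℕ) : B (2 * e + 4) 0 ≤ B (2 * e + 5) 0 := B_mono (by omega) le_rfl

lemma T_even (e : ℕ) : T (2 * e) = 3 ^ e := by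
  unfold T
  split_ifs with h1 h2
  · have : e = 0 := by omega
    subst this; rfl
  · congr 1; omega
  · exact absurd ⟨e, by ring⟩ h2

lemma T_odd (e : ℕ) : T (2 * e + 3) = 4 * 3 ^ e := by
  unfold T
  split_ifs with h1 h2
  · omega
  · exfalso
    obtain ⟨r, hr⟩ := h2
    omega
  · congr 2; omega

lemma T_one : T 1 = 1 := by decide

lemma B_le_T (M U : ℕ) : B M U ≤ T (M + U) := by
  rcases Nat.lt_or_ge M U with h | h
  · rw [B_le h.le]
    obtain ⟨d, rfl⟩ := Nat.exists_eq_add_of_lt h
    obtain ⟨e, he | he⟩ := Nat.even_or_odd' d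
    · subst he
      rcases Nat.eq_zero_or_pos (M + e) with h0 | h0
      · have h1 : M = 0 := by omega
        have h2 : e = 0 := by omega
        subst h1; subst h2; decide
      · have h1 : M + (M + 2 * e + 1) = 2 * (M + e - 1) + 3 := by omega
        rw [h1, T_odd]
        calc 2 ^ M ≤ 2 ^ (M + e - 1 + 1) := Nat.pow_le_pow_right (by norm_num) (by omega)
          _ = 2 * 2 ^ (M + e - 1) := by rw [pow_succ]; ring
          _ ≤ 4 * 3 ^ (M + e - 1) :=
            Nat.mul_le_mul (by norm_num) (Nat.pow_le_pow_left (by norm_num) _)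
    · subst he
      have h1 : M + (M + (2 * e + 1) + 1) = 2 * (M + e + 1) := by ring
      rw [h1, T_even]
      calc 2 ^ M ≤ 3 ^ M := Nat.pow_le_pow_left (by norm_num) _
        _ ≤ 3 ^ (M + e + 1) := Nat.pow_le_pow_right (by norm_num) (by omega)
  · obtain ⟨d, rfl⟩ := Nat.exists_eq_add_of_le h
    obtain ⟨e, he | he⟩ := Nat.even_or_odd' d
    · subst he
      have h1 : U + 2 * e + U = 2 * (e + U) := by ring
      rw [h1, T_even, B_even, pow_add]
      exact Nat.mul_le_mul_left _ (Nat.pow_le_pow_left (by norm_num) _)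
    · subst he
      rcases U with _ | U
      · rcases e with _ | e
        · decide
        · have h1 : 0 + (2 * (e + 1) + 1) = 2 * e + 3 := by ring
          have h2 : 0 + (2 * (e + 1) + 1) + 0 = 2 * e + 3 := by ring
          rw [h2, h1, T_odd, B_odd0]
      · have h1 : U + 1 + (2 * e + 1) = U + 1 + 2 * e + 1 := by ring
        have h2 : U + 1 + (2 * e + 1) + (U + 1) = 2 * (e + U) + 3 := by ring
        rw [h2, h1, T_odd, B_odd, pow_succ, pow_add]
        have h3 : 2 ^ U ≤ 3 ^ U := Nat.pow_le_pow_left (by norm_num) _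
        nlinarith [Nat.mul_le_mul_left (3 ^ e) h3, p3 e, p3 U, Nat.mul_pos (p3 e) (p3 U)]

lemma card_nonSelf_rem (A : Finset V) (R : V → V → Prop) (a : V) (D : Finset V)
    (hD : D ⊆ nonSelf A R) (h : ∀ x ∈ D, x = a ∨ R a x ∨ R x a) :
    (nonSelf (rem A R a) R).card ≤ (nonSelf A R).card - D.card := by
  rw [← card_sdiff_of_subset hD]
  apply card_le_card
  intro x hx
  rw [mem_nonSelf, mem_rem] at hx
  rw [mem_sdiff, mem_nonSelf]
  refine ⟨⟨hx.1.1, hx.2⟩, fun hxD => ?_⟩
  rcases h x hxD with h1 | h1 | h1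
  · exact hx.1.2.1 h1
  · exact hx.1.2.2.1 h1
  · exact hx.1.2.2.2 h1

lemma card_self_rem (A : Finset V) (R : V → V → Prop) (a : V) :
    (self (rem A R a) R).card ≤ (self A R).card := by
  apply card_le_card
  intro x hx
  rw [mem_self, mem_rem] at hx
  exact mem_self.2 ⟨hx.1.1, hx.2⟩

lemma nonSelf_addSelf (A : Finset V) (R : V → V → Prop) (a : V) :
    nonSelf A (addSelf R a) = (nonSelf A R).erase a := by
  ext x
  rw [mem_erase, mem_nonSelf, mem_nonSelf]
  unfold addSelf
  tauto

lemma self_addSelf (A : Finset V) (R : V → V → Prop) (a : V) (ha : a ∈ A) :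
    self A (addSelf R a) = insert a (self A R) := by
  ext x
  rw [mem_insert, mem_self, mem_self]
  unfold addSelf
  constructor
  · rintro ⟨h1, h2 | h2⟩
    · exact Or.inr ⟨h1, h2⟩
    · exact Or.inl h2.1
  · rintro (h | h)
    · subst h; exact ⟨ha, Or.inr ⟨rfl, rfl⟩⟩
    · exact ⟨h.1, Or.inl h.2⟩

theorem upper (M : ℕ) : ∀ (A : Finset V) (R : V → V → Prop), (nonSelf A R).card = M →
    (com A R).card ≤ B M (self A R).card := by
  classical
  induction M using Nat.strong_induction_on with
  | _ M ih =>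
    intro A R hM
    by_cases hbip : ∀ a ∈ nonSelf A R, ∀ b ∈ nonSelf A R, ¬ R a b
    · obtain ⟨h1, h2⟩ := card_bipartite A R hbip
      rw [hM] at h1
      exact pow_min_le_B _ _ _ h1 h2
    push Not at hbip
    obtain ⟨a, ha, b, hb, hab⟩ := hbip
    -- the two branches
    have branch : ∀ a ∈ nonSelf A R, ∀ D : Finset V, a ∈ D → D ⊆ nonSelf A R →
        (∀ x ∈ D, x = a ∨ R a x ∨ R x a) →
        (com A R).card ≤ B (M - D.card) (self A R).card + B (M - 1) ((self A R).card + 1) := by
      intro a ha D haD hD h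
      have haA : a ∈ A := (mem_nonSelf.1 ha).1
      have hanot : a ∉ self A R := fun h => (mem_nonSelf.1 ha).2 (mem_self.1 h).2
      have hpos : 0 < D.card := card_pos.2 ⟨a, haD⟩
      have hMpos : 0 < M := by rw [← hM]; exact card_pos.2 ⟨a, ha⟩
      have h1 := card_nonSelf_rem A R a D hD h
      rw [hM] at h1
      have h2 := ih _ (by omega : (nonSelf (rem A R a) R).card < M) (rem A R a) R rfl
      have h3 := h2.trans (B_mono h1 (card_self_rem A R a))
      have h4 : (nonSelf A (addSelf R a)).card = M - 1 := by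
        rw [nonSelf_addSelf, card_erase_of_mem ha, hM]
      have h5 := ih (M - 1) (by omega) A (addSelf R a) h4
      rw [self_addSelf A R a haA, card_insert_of_notMem hanot] at h5
      exact (card_split A R a).trans (add_le_add h3 h5)
    have hne : a ≠ b := by
      rintro rfl
      exact (mem_nonSelf.1 ha).2 hab
    have hpair : ({a, b} : Finset V).card = 2 := card_pair hne
    have hsub : ({a, b} : Finset V) ⊆ nonSelf A R := by
      intro x hx
      rw [mem_insert, mem_singleton] at hx
      rcases hx with h | h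
      · rw [h]; exact ha
      · rw [h]; exact hb
    have hM2 : 2 ≤ M := by
      rw [← hM, ← hpair]; exact card_le_card hsub
    by_cases hcase : 1 ≤ (self A R).card ∨ M % 2 = 0 ∨ M = 3
    · have h1 := branch a ha {a, b} (by simp) hsub (by
        intro x hx
        rw [mem_insert, mem_singleton] at hx
        rcases hx with h | h
        · exact Or.inl h
        · rw [h]; exact Or.inr (Or.inl hab))
      rw [hpair] at h1
      obtain ⟨m, rfl⟩ : ∃ m, M = m + 2 := ⟨M - 2, by omega⟩
      have h2 := rec1 m (self A R).card (by omega)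
      exact h1.trans h2
    push Not at hcase
    obtain ⟨hU, hodd, hM3⟩ := hcase
    have hU0 : (self A R).card = 0 := by omega
    obtain ⟨e, rfl⟩ : ∃ e, M = 2 * e + 5 := ⟨(M - 5) / 2, by omega⟩
    rw [hU0]
    by_cases htwo : ∃ a ∈ nonSelf A R, ∃ b ∈ nonSelf A R, ∃ c ∈ nonSelf A R,
        a ≠ b ∧ a ≠ c ∧ b ≠ c ∧ (R a b ∨ R b a) ∧ (R a c ∨ R c a)
    · obtain ⟨a, ha, b, hb, c, hc, hab, hac, hbc, h1, h2⟩ := htwo
      have hcard : ({a, b, c} : Finset V).card = 3 := by
        rw [card_insert_of_notMem, card_pair hbc]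
        rw [mem_insert, mem_singleton]
        push Not
        exact ⟨hab, hac⟩
      have h3 := branch a ha {a, b, c} (by simp) (by
        intro x hx
        rw [mem_insert, mem_insert, mem_singleton] at hx
        rcases hx with h | h | h
        · rw [h]; exact ha
        · rw [h]; exact hb
        · rw [h]; exact hc) (by
        intro x hx
        rw [mem_insert, mem_insert, mem_singleton] at hx
        rcases hx with h | h | h
        · exact Or.inl h
        · rw [h]; exact Or.inr h1
        · rw [h]; exact Or.inr h2)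
      rw [hcard, hU0] at h3
      have h4 := rec2 e
      have e1 : 2 * e + 5 - 3 = 2 * e + 2 := by omega
      have e2 : 2 * e + 5 - 1 = 2 * e + 4 := by omega
      rw [e1, e2, zero_add] at h3
      exact h3.trans h4
    push Not at htwo
    -- a vertex without neighbours
    have hAN : ∀ x ∈ A, x ∈ nonSelf A R := by
      intro x hx
      refine mem_nonSelf.2 ⟨hx, fun h => ?_⟩
      have : x ∈ self A R := mem_self.2 ⟨hx, h⟩
      rw [card_eq_zero] at hU0
      rw [hU0] at this
      exact absurd this (notMem_empty _)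
    have hiso : ∃ v ∈ A, ∀ b ∈ A, ¬ (R v b ∨ R b v) := by
      by_contra hcon
      push Not at hcon
      choose! g hg1 hg2 using hcon
      have hgne : ∀ v ∈ A, g v ≠ v := by
        intro v hv h
        have := hg2 v hv
        rw [h] at this
        have h1 := (mem_nonSelf.1 (hAN v hv)).2
        tauto
      have huniq : ∀ v ∈ A, ∀ b ∈ A, b ≠ v → (R v b ∨ R b v) → b = g v := by
        intro v hv b hb hbv h
        by_contra hne'
        have := htwo v (hAN v hv) b (hAN b hb) (g v) (hAN _ (hg1 v hv)) hbv.symm (hgne v hv).symm hne' h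
        have h2 := hg2 v hv
        tauto
      have hsum : ∑ x ∈ A, (1 : ZMod 2) = 0 := by
        refine sum_involution (fun v _ => g v) ?_ ?_ ?_ ?_
        · intro v _; decide
        · intro v hv _; exact hgne v hv
        · intro v hv; exact hg1 v hv
        · intro v hv
          refine (huniq (g v) (hg1 v hv) v hv (hgne v hv).symm ?_).symm
          have := hg2 v hv
          tauto
      rw [sum_const, nsmul_eq_mul, mul_one] at hsum
      have hA : A.card = 2 * e + 5 := by
        rw [← hM]
        congr 1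
        ext x
        exact ⟨fun h => hAN x h, fun h => (mem_nonSelf.1 h).1⟩
      rw [hA] at hsum
      have := (ZMod.natCast_eq_zero_iff _ 2).1 hsum
      omega
    obtain ⟨v, hv, hvb⟩ := hiso
    have h1 := card_isolated A R v hv (fun b hb h => hvb b hb (Or.inr h))
    have h2 := card_nonSelf_rem A R v {v} (by
      intro x hx
      rw [mem_singleton] at hx
      rw [hx]; exact hAN v hv) (by
      intro x hx
      rw [mem_singleton] at hx
      exact Or.inl hx)
    rw [hM, card_singleton] at h2
    have h3 := ih _ (by omega : (nonSelf (rem A R v) R).card < 2 * e + 5) (rem A R v) R rfl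
    have h4 := card_self_rem A R v
    rw [hU0] at h4
    have h5 := h3.trans (B_mono h2 h4)
    have e2 : 2 * e + 5 - 1 = 2 * e + 4 := by omega
    rw [e2] at h5
    exact h1.trans (h5.trans (rec3 e))

end upper

theorem numCom_le (n : ℕ) (R : Fin n → Fin n → Prop) : numCom R ≤ T n := by
  classical
  have h1 := upper _ (univ : Finset (Fin n)) R rfl
  have h2 : (nonSelf (univ : Finset (Fin n)) R).card + (self (univ : Finset (Fin n)) R).card = n := by
    unfold nonSelf self
    rw [add_comm, card_filter_add_card_filter_not, card_univ, Fintype.card_fin]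
  have h3 := B_le_T (nonSelf (univ : Finset (Fin n)) R).card (self (univ : Finset (Fin n)) R).card
  rw [h2] at h3
  refine le_trans ?_ (h1.trans h3)
  unfold numCom
  rw [Nat.card_eq_fintype_card, Fintype.card_subtype]
  refine card_le_card_of_injOn (fun S : Set (Fin n) => S.toFinset) ?_ ?_
  · intro S hS
    rw [mem_coe, mem_filter] at hS
    obtain ⟨-, ⟨hS1, hS2⟩, hS3⟩ := hS
    rw [mem_coe, mem_com]
    refine ⟨subset_univ _, ?_, ?_, ?_⟩
    · intro a ha b hb
      exact hS1 a (Set.mem_toFinset.1 ha) b (Set.mem_toFinset.1 hb)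
    · intro a ha b _ hba
      obtain ⟨c, hc, hcb⟩ := hS2 a (Set.mem_toFinset.1 ha) b hba
      exact ⟨c, Set.mem_toFinset.2 hc, hcb⟩
    · intro a _ hdef
      refine Set.mem_toFinset.2 (hS3 a fun b hba => ?_)
      obtain ⟨c, hc, hcb⟩ := hdef b (mem_univ _) hba
      exact ⟨c, Set.mem_toFinset.1 hc, hcb⟩
  · intro S _ S' _ h
    exact Set.toFinset_inj.1 h

/-! ### Lower bound -/

/-- There is a framework with `n` arguments and at least `m` complete extensions. -/
def Has (n m : ℕ) : Prop :=
  ∃ R : Fin n → Fin n → Prop, m ≤ numCom R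

lemma has_of_type {V : Type} [Fintype V] {n m : ℕ} (hn : Fintype.card V = n) (R : V → V → Prop)
    (h : m ≤ numCom R) : Has n m := by
  let e := Fintype.equivFinOfCardEq hn
  refine ⟨fun i j => R (e.symm i) (e.symm j), h.trans ?_⟩
  unfold numCom
  refine Nat.card_le_card_of_injective
    (fun S : {S : Set V // IsComplete R S} =>
      (⟨e.symm ⁻¹' S.1, ?_⟩ : {S : Set (Fin n) // IsComplete (fun i j => R (e.symm i) (e.symm j)) S})) ?_
  · obtain ⟨S, ⟨hS1, hS2⟩, hS3⟩ := S
    have hdef : ∀ a, Defends (fun i j => R (e.symm i) (e.symm j)) (e.symm ⁻¹' S) a ↔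
        Defends R S (e.symm a) := by
      intro a
      constructor
      · intro h b hb
        obtain ⟨c, hc, hcb⟩ := h (e b) (by simpa using hb)
        exact ⟨e.symm c, hc, by simpa using hcb⟩
      · intro h b hb
        obtain ⟨c, hc, hcb⟩ := h (e.symm b) hb
        exact ⟨e c, by simpa using hc, by simpa using hcb⟩
    refine ⟨⟨fun a ha b hb => hS1 _ ha _ hb, fun a ha => (hdef a).2 (hS2 _ ha)⟩, fun a ha => ?_⟩
    exact hS3 _ ((hdef a).1 ha)
  · intro S S' h
    apply Subtype.ext
    have h1 := congrArg Subtype.val h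
    exact Set.preimage_injective.2 e.symm.surjective h1

/-- Disjoint union of frameworks. -/
def sumRel {V W : Type} (R : V → V → Prop) (R' : W → W → Prop) : V ⊕ W → V ⊕ W → Prop
  | Sum.inl a, Sum.inl b => R a b
  | Sum.inr a, Sum.inr b => R' a b
  | _, _ => False

/-- Union of a set on the left and a set on the right. -/
def sumSet {V W : Type} (S : Set V) (S' : Set W) : Set (V ⊕ W)
  | Sum.inl a => S a
  | Sum.inr a => S' a

lemma isComplete_sum {V W : Type} (R : V → V → Prop) (R' : W → W → Prop) (S : Set V) (S' : Set W)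
    (h : IsComplete R S) (h' : IsComplete R' S') : IsComplete (sumRel R R') (sumSet S S') := by
  obtain ⟨⟨h1, h2⟩, h3⟩ := h
  obtain ⟨⟨h1', h2'⟩, h3'⟩ := h'
  refine ⟨⟨?_, ?_⟩, ?_⟩
  · rintro (a | a) ha (b | b) hb hab
    · exact h1 a ha b hb hab
    · exact hab
    · exact hab
    · exact h1' a ha b hb hab
  · rintro (a | a) ha (b | b) hba
    · obtain ⟨c, hc, hcb⟩ := h2 a ha b hba
      exact ⟨Sum.inl c, hc, hcb⟩
    · exact absurd hba id
    · exact absurd hba id
    · obtain ⟨c, hc, hcb⟩ := h2' a ha b hba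
      exact ⟨Sum.inr c, hc, hcb⟩
  · rintro (a | a) hdef
    · refine h3 a fun b hba => ?_
      obtain ⟨c | c, hc, hcb⟩ := hdef (Sum.inl b) hba
      · exact ⟨c, hc, hcb⟩
      · exact absurd hcb id
    · refine h3' a fun b hba => ?_
      obtain ⟨c | c, hc, hcb⟩ := hdef (Sum.inr b) hba
      · exact absurd hcb id
      · exact ⟨c, hc, hcb⟩

lemma has_mul {n m n' m' : ℕ} (h : Has n m) (h' : Has n' m') : Has (n + n') (m * m') := by
  obtain ⟨R, hR⟩ := h
  obtain ⟨R', hR'⟩ := h'
  refine has_of_type (V := Fin n ⊕ Fin n') (by simp) (sumRel R R') ?_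
  refine (Nat.mul_le_mul hR hR').trans ?_
  unfold numCom
  rw [← Nat.card_prod]
  refine Nat.card_le_card_of_injective
    (fun p : {S : Set (Fin n) // IsComplete R S} × {S : Set (Fin n') // IsComplete R' S} =>
      (⟨sumSet p.1.1 p.2.1, isComplete_sum R R' _ _ p.1.2 p.2.2⟩ :
        {S : Set (Fin n ⊕ Fin n') // IsComplete (sumRel R R') S})) ?_
  rintro ⟨⟨S, hS⟩, ⟨S', hS'⟩⟩ ⟨⟨U, hU⟩, ⟨U', hU'⟩⟩ h
  have h1 : sumSet S S' = sumSet U U' := congrArg Subtype.val h
  have h2 : S = U := by
    ext x
    exact iff_of_eq (congrFun h1 (Sum.inl x))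
  have h3 : S' = U' := by
    ext x
    exact iff_of_eq (congrFun h1 (Sum.inr x))
  subst h2; subst h3; rfl

/-- The complete framework on `n` arguments: the empty set and the singletons. -/
lemma has_clique (n : ℕ) (hn : 2 ≤ n) : Has n (n + 1) := by
  classical
  refine ⟨fun a b => a ≠ b, ?_⟩
  unfold numCom
  have h1 : n + 1 = Nat.card (Option (Fin n)) := by simp
  rw [h1]
  have hempty : IsComplete (fun a b : Fin n => a ≠ b) ∅ := by
    refine ⟨⟨fun a ha => absurd ha (Set.notMem_empty a), fun a ha => absurd ha (Set.notMem_empty a)⟩, ?_⟩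
    intro a ha
    exfalso
    obtain ⟨b, hb⟩ : ∃ b : Fin n, b ≠ a := by
      by_cases h0 : a = ⟨0, by omega⟩
      · refine ⟨⟨1, by omega⟩, ?_⟩
        rw [h0]; intro h; simpa using congrArg Fin.val h
      · exact ⟨⟨0, by omega⟩, fun h => h0 h.symm⟩
    obtain ⟨c, hc, -⟩ := ha b hb
    exact absurd hc (Set.notMem_empty c)
  have hsingle : ∀ x, IsComplete (fun a b : Fin n => a ≠ b) {x} := by
    intro x
    refine ⟨⟨?_, ?_⟩, ?_⟩
    · rintro a rfl b rfl h
      exact h rfl
    · rintro a rfl b hb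
      exact ⟨a, rfl, hb.symm⟩
    · intro a ha
      by_contra hne
      obtain ⟨c, hc, hcx⟩ := ha x (fun h => hne h.symm)
      exact hcx hc
  refine Nat.card_le_card_of_injective
    (fun o : Option (Fin n) => (match o with
      | none => ⟨∅, hempty⟩
      | some x => ⟨{x}, hsingle x⟩ : {S : Set (Fin n) // IsComplete (fun a b : Fin n => a ≠ b) S})) ?_
  rintro (_ | x) (_ | y) h
  · rfl
  · exact absurd (congrArg Subtype.val h).symm (Set.singleton_ne_empty y)
  · exact absurd (congrArg Subtype.val h) (Set.singleton_ne_empty x)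
  · have := congrArg Subtype.val h
    exact congrArg some (Set.singleton_injective this)

lemma has_small (n : ℕ) (R : Fin n → Fin n → Prop) (S : Set (Fin n)) (h : IsComplete R S) : Has n 1 := by
  refine ⟨R, ?_⟩
  unfold numCom
  have : Nonempty {S : Set (Fin n) // IsComplete R S} := ⟨⟨S, h⟩⟩
  exact Nat.card_pos

lemma has_T (n : ℕ) : Has n (T n) := by
  have hfull : ∀ n, Has n 1 := by
    intro n
    refine has_small n (fun _ _ => False) Set.univ ⟨⟨?_, ?_⟩, ?_⟩
    · intro a _ b _ h; exact h
    · intro a _ b hb; exact absurd hb id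
    · intro a _; exact Set.mem_univ a
  have heven : ∀ e, Has (2 * e) (3 ^ e) := by
    intro e
    induction e with
    | zero => exact hfull 0
    | succ e ih => exact has_mul ih (has_clique 2 le_rfl)
  have hodd : ∀ e, Has (2 * e + 3) (4 * 3 ^ e) := by
    intro e
    have h1 := has_mul (heven e) (has_clique 3 (by norm_num))
    have h2 : 4 * 3 ^ e = 3 ^ e * (3 + 1) := mul_comm _ _
    rw [h2]
    exact h1
  obtain ⟨e, he | he⟩ := Nat.even_or_odd' n
  · subst he
    rw [T_even]
    exact heven e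
  · subst he
    rcases e with _ | e
    · exact hfull 1
    · have h1 : 2 * (e + 1) + 1 = 2 * e + 3 := by ring
      rw [h1, T_odd]
      exact hodd e

/-- **Main theorem.** For every `n`, the maximum number of complete extensions of an argumentation
framework with `n` arguments is `1` if `n ≤ 1`, `3 ^ (n/2)` if `n ≥ 2` is even, and
`4 * 3 ^ ((n-3)/2)` if `n ≥ 3` is odd. -/
theorem result (n : ℕ) :
    IsGreatest {m : ℕ | ∃ R : Fin n → Fin n → Prop, numCom R = m}
      (if n ≤ 1 then 1 else if Even n then 3 ^ (n / 2) else 4 * 3 ^ ((n - 3) / 2)) := by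
  change IsGreatest _ (T n)
  refine ⟨?_, ?_⟩
  · obtain ⟨R, hR⟩ := has_T n
    exact ⟨R, le_antisymm (numCom_le n R) hR⟩
  · rintro m ⟨R, rfl⟩
    exact numCom_le n R

end Pool.Agent.Results.MP_acab80_co.MaxComplete
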