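import Pool.Agent.Q246.RP.Fin2

/-!
# The Birch and Swinnerton-Dyer rank conjecture and the real places

`E` is an elliptic curve over a number field `K`, and `F` runs through the finite extensions of `K`.
If the rank conjecture holds for `E` over the totally complex fields `F` (it is enough to know this for
the fields with degree divisible by a given number and with large rank), then the defect
`rank E(F) - ord L(E/F, s)` depends only on the real places of `F`, linearly in their numbers above the
real places of `K`; over `ℚ` it is `r₁(F)` times the defect for `ℚ`. So one field with a real place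
decides.

The minimal models `V` and the Euler product `LSeries V s` with the correct factors at all primes are
those of `Pool.Agent.TH322.BC.Defs`.
-/

set_option autoImplicit false

namespace Pool.Agent.Results.MP_ae0bd0_nt.LawOfRealPlaces

open NumberField IsDedekindDomain
open Pool.Agent.TH322.BC.Edge (MinimalModels LSeries)

/-- The rank of the group `E(F)`. -/
noncomputable def rank {F : Type} [Field F] (E : WeierstrassCurve F) : ℕ := by
  classical
  exact Module.finrank ℤ E.toAffine.Point

/-- The domains on which the `L`-functions are considered: a nonempty family of connected open sets which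
contain the half plane `Re s > 3/2` and the point `1`, closed under intersections.  For example
`U = {ℂ}`, or the half planes `Re s > σ` with `σ < 1`. -/
def IsDomains (U : Set (Set ℂ)) : Prop :=
  U.Nonempty ∧ (∀ u ∈ U, IsOpen u ∧ IsPreconnected u ∧ (1 : ℂ) ∈ u ∧ ∀ s : ℂ, 3 / 2 < s.re → s ∈ u) ∧
    ∀ u ∈ U, ∀ u' ∈ U, u ∩ u' ∈ U

/-- `L(E/F, s)^t` has a meromorphic continuation to a domain in `U`, of order `r` at `s = 1`. -/
def PowerHasOrder (U : Set (Set ℂ)) {F : Type} [Field F] [NumberField F] (E : WeierstrassCurve F)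
    (t : ℕ) (r : ℤ) : Prop :=
  ∀ V : HeightOneSpectrum (𝓞 F) → WeierstrassCurve (𝓞 F), MinimalModels E V →
    ∃ u ∈ U, ∃ f : ℂ → ℂ, MeromorphicOn f u ∧ (∀ s : ℂ, 3 / 2 < s.re → f s = LSeries V s ^ t) ∧
      meromorphicOrderAt f 1 = (r : WithTop ℤ)

/-- `L(E/F, s)` has a meromorphic continuation to a domain in `U`, of order `r` at `s = 1`. -/
def HasOrder (U : Set (Set ℂ)) {F : Type} [Field F] [NumberField F] (E : WeierstrassCurve F)
    (r : ℤ) : Prop := PowerHasOrder U E 1 r

/-- The rank conjecture for `E/F`: `L(E/F, s)` has a meromorphic continuation to a domain in `U`, and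
its order at `s = 1` is the rank of `E(F)`. -/
def BSD (U : Set (Set ℂ)) {F : Type} [Field F] [NumberField F] (E : WeierstrassCurve F) : Prop :=
  HasOrder U E (rank E)

/-- `L(E/F, s)` has a meromorphic continuation to a domain in `U`. -/
def Continues (U : Set (Set ℂ)) {F : Type} [Field F] [NumberField F] (E : WeierstrassCurve F) :
    Prop :=
  ∀ V : HeightOneSpectrum (𝓞 F) → WeierstrassCurve (𝓞 F), MinimalModels E V →
    ∃ u ∈ U, ∃ f : ℂ → ℂ, MeromorphicOn f u ∧ ∀ s : ℂ, 3 / 2 < s.re → f s = LSeries V s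

/-- The rank conjecture for `E/F` for all totally complex `F` such that `M` divides `[F : K]` and
`rank E(F) ≥ R`. -/
def HoldsOverComplexFields (U : Set (Set ℂ)) {K : Type} [Field K] [NumberField K] (M R : ℕ)
    (E : WeierstrassCurve K) : Prop :=
  ∀ (F : Type) [Field F] [NumberField F] [Algebra K F], IsTotallyComplex F →
    M ∣ Module.finrank K F → R ≤ rank (E.map (algebraMap K F)) → BSD U (E.map (algebraMap K F))

/-- `M > 0`, and `R = 0` or `j(E) ≠ 0, 1728`. -/
def Admissible {K : Type} [Field K] (M R : ℕ) (E : WeierstrassCurve K) : Prop :=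
  E.IsElliptic ∧ 0 < M ∧ (R = 0 ∨ (E.c₄ ≠ 0 ∧ E.c₆ ≠ 0))

/-- The number of the real places of `F` above the real place `ρ` of `K`. -/
noncomputable def realAbove {K : Type} [Field K] (ρ : K →+* ℝ) (F : Type) [Field F] [Algebra K F] :
    ℕ :=
  Nat.card {j : F →+* ℝ // j.comp (algebraMap K F) = ρ}

/-- A finite extension of `K`. -/
structure Extension (K : Type) [Field K] [NumberField K] where
  F : Type
  [fF : Field F]
  [nF : NumberField F]
  [aF : Algebra K F]

attribute [instance] Extension.fF Extension.nF Extension.aF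

/-- `E` over the extension `X`. -/
noncomputable def curveOver {K : Type} [Field K] [NumberField K] (E : WeierstrassCurve K)
    (X : Extension K) : WeierstrassCurve X.F := E.map (algebraMap K X.F)

/-- `∏ L(E/X_i, s)^(a_i)` has a meromorphic continuation to a domain in `U`, of order `r` at
`s = 1`. -/
def ProductHasOrder (U : Set (Set ℂ)) {K : Type} [Field K] [NumberField K] {n : ℕ}
    (X : Fin n → Extension K) (E : WeierstrassCurve K) (a : Fin n → ℤ) (r : ℤ) : Prop :=
  ∀ V : ∀ i, HeightOneSpectrum (𝓞 (X i).F) → WeierstrassCurve (𝓞 (X i).F),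
    (∀ i, MinimalModels (curveOver E (X i)) (V i)) →
    ∃ u ∈ U, ∃ f : ℂ → ℂ, MeromorphicOn f u ∧
      (∀ s : ℂ, 3 / 2 < s.re → f s = ∏ i, (LSeries (V i) s) ^ (a i)) ∧
      meromorphicOrderAt f 1 = (r : WithTop ℤ)

theorem powerHasOrder_iff (U : Set (Set ℂ)) {F : Type} [Field F] [NumberField F]
    (E : WeierstrassCurve F) (t : ℕ) (r : ℤ) : PowerHasOrder U E t r ↔
      Pool.Agent.Q5.BR.AllB U E (t : ℤ) r := by
  unfold PowerHasOrder Pool.Agent.Q5.BR.AllB Pool.Agent.Q5.BR.PowB
  simp only [zpow_natCast]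

theorem hasOrder_iff (U : Set (Set ℂ)) {F : Type} [Field F] [NumberField F]
    (E : WeierstrassCurve F) (r : ℤ) : HasOrder U E r ↔ Pool.Agent.Q5.BR.AllB U E 1 r := by
  unfold HasOrder
  rw [powerHasOrder_iff]
  rfl

theorem bsd_of_power {U : Set (Set ℂ)} (hU : Pool.Agent.Q5.BR.IsDomains U) {F : Type} [Field F]
    [NumberField F] (E : WeierstrassCurve F) {t : ℕ} (ht : 0 < t)
    (h : PowerHasOrder U E t (t * rank E)) (hc : Continues U E) : BSD U E := by
  rw [powerHasOrder_iff] at h
  intro V hV
  obtain ⟨u, hu, f, hf, hf'⟩ := hc V hV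
  refine ⟨u, hu, f, hf, fun s hs => by rw [pow_one]; exact hf' s hs, ?_⟩
  exact Pool.Agent.Q5.BR.order_of_power hU ht.ne' (h V hV) hu hf hf'

/-- **The law of real places.**
1. Let the rank conjecture hold for `E/F` for all totally complex `F/K` with `M ∣ [F:K]` and
`rank E(F) ≥ R`. Let `X_1, …, X_n` be finite extensions of `K` and `c_1, …, c_n` integers such that
`∑ c_i r_ρ(X_i) = 0` for all real places `ρ` of `K`, where `r_ρ` counts the real places above `ρ`. Then
for some `m > 0` the product of the `L(E/X_i, s)^(m c_i)` has a meromorphic continuation of order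
`m ∑ c_i rank E(X_i)` at `s = 1`; if the `L(E/X_i, s)` have continuations of orders `r_i` then
`∑ c_i (rank E(X_i) - r_i) = 0`.
2. For `K = ℚ`: if `L(E/F, s)` and `L(E/F', s)` have orders `r` and `r'` at `s = 1` then
`r₁(F') (rank E(F) - r) = r₁(F) (rank E(F') - r')`; with `F' = ℚ` this is
`rank E(F) - r = r₁(F) (rank E(ℚ) - r')`.
3. If moreover for each real place `ρ` of `K` the rank conjecture holds for `E` over one extension whose
real places are all above `ρ` (and which has at least one), then for all finite `F/K` some power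
`L(E/F, s)^t` has a continuation of order `t · rank E(F)`, and the rank conjecture holds for `E/F` if
`L(E/F, s)` has a continuation.
4. All or nothing over `ℚ`: if all `L(E/F, s)` have continuations, then the rank conjecture holds for
`E/F` for all number fields `F`, or it fails for all `F` with a real place. -/
theorem result (U : Set (Set ℂ)) (hU : IsDomains U) :
    (∀ (K : Type) [Field K] [NumberField K] (E : WeierstrassCurve K) (M R : ℕ), Admissible M R E →
      HoldsOverComplexFields U M R E → ∀ (n : ℕ) (X : Fin n → Extension K) (c : Fin n → ℤ),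
      (∀ ρ : K →+* ℝ, ∑ i, c i * (realAbove ρ (X i).F : ℤ) = 0) →
      (∃ m : ℕ, 0 < m ∧ ProductHasOrder U X E (fun i => m * c i)
        (m * ∑ i, c i * (rank (curveOver E (X i)) : ℤ))) ∧
      ∀ r : Fin n → ℤ, (∀ i, HasOrder U (curveOver E (X i)) (r i)) →
        ∑ i, c i * ((rank (curveOver E (X i)) : ℤ) - r i) = 0) ∧
    (∀ (E : WeierstrassCurve ℚ) (M R : ℕ), Admissible M R E → HoldsOverComplexFields U M R E →
      ∀ (F F' : Type) [Field F] [NumberField F] [Field F'] [NumberField F'] (r r' : ℤ),
      HasOrder U (E.map (algebraMap ℚ F)) r → HasOrder U (E.map (algebraMap ℚ F')) r' →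
      InfinitePlace.nrRealPlaces F' * ((rank (E.map (algebraMap ℚ F)) : ℤ) - r) =
        InfinitePlace.nrRealPlaces F * ((rank (E.map (algebraMap ℚ F')) : ℤ) - r')) ∧
    (∀ (K : Type) [Field K] [NumberField K] (E : WeierstrassCurve K) (M R : ℕ), Admissible M R E →
      HoldsOverComplexFields U M R E →
      (∀ ρ : K →+* ℝ, ∃ X : Extension K, 0 < realAbove ρ X.F ∧
        (∀ ρ' : K →+* ℝ, ρ' ≠ ρ → realAbove ρ' X.F = 0) ∧ BSD U (curveOver E X)) →
      ∀ (F : Type) [Field F] [NumberField F] [Algebra K F],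
        (∃ t : ℕ, 0 < t ∧ PowerHasOrder U (E.map (algebraMap K F)) t
          (t * rank (E.map (algebraMap K F)))) ∧
        (Continues U (E.map (algebraMap K F)) → BSD U (E.map (algebraMap K F)))) ∧
    (∀ (E : WeierstrassCurve ℚ) (M R : ℕ), Admissible M R E → HoldsOverComplexFields U M R E →
      (∀ (F : Type) [Field F] [NumberField F], Continues U (E.map (algebraMap ℚ F))) →
      (∀ (F : Type) [Field F] [NumberField F], BSD U (E.map (algebraMap ℚ F))) ∨
      (∀ (F : Type) [Field F] [NumberField F], 0 < InfinitePlace.nrRealPlaces F →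
        ¬ BSD U (E.map (algebraMap ℚ F)))) := by
  have hU' : Pool.Agent.Q5.BR.IsDomains U := hU
  have hyp : ∀ (K : Type) [Field K] [NumberField K] (E : WeierstrassCurve K) (M R : ℕ),
      HoldsOverComplexFields U M R E →
      ∀ (F : Type) [Field F] [NumberField F] [Algebra K F], IsTotallyComplex F →
      M ∣ Module.finrank K F → R ≤ Pool.Agent.Q5.BR.rk (E.map (algebraMap K F)) →
      Pool.Agent.Q5.BR.AllB U (E.map (algebraMap K F)) 1
        (Pool.Agent.Q5.BR.rk (E.map (algebraMap K F))) := by
    intro K _ _ E M R h F _ _ _ h1 h2 h3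
    exact (hasOrder_iff U _ _).1 (h F h1 h2 h3)
  have part1 : ∀ (K : Type) [Field K] [NumberField K] (E : WeierstrassCurve K) (M R : ℕ),
      Admissible M R E →
      HoldsOverComplexFields U M R E → ∀ (n : ℕ) (X : Fin n → Extension K) (c : Fin n → ℤ),
      (∀ ρ : K →+* ℝ, ∑ i, c i * (realAbove ρ (X i).F : ℤ) = 0) →
      (∃ m : ℕ, 0 < m ∧ ProductHasOrder U X E (fun i => m * c i)
        (m * ∑ i, c i * (rank (curveOver E (X i)) : ℤ))) ∧
      ∀ r : Fin n → ℤ, (∀ i, HasOrder U (curveOver E (X i)) (r i)) →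
        ∑ i, c i * ((rank (curveOver E (X i)) : ℤ) - r i) = 0 := by
    intro K _ _ E M R hA h n X c hc
    let Y : Fin n → Pool.Agent.Q5.BR.Ext K := fun i => Pool.Agent.Q5.BR.Ext.mk (X i).F
    obtain ⟨m, hm, h1⟩ := Pool.Agent.Q246.RP.law_of_fields hU' hA.1 hA.2.1 R hA.2.2
      (hyp K E M R h) Y c hc
    refine ⟨⟨m, hm, h1⟩, fun r hr => ?_⟩
    exact Pool.Agent.Q246.RP.orders_of_prodB hU' hA.1 (X := Y) hm h1 r
      fun i => (hasOrder_iff U _ _).1 (hr i)
  have part3 : ∀ (K : Type) [Field K] [NumberField K] (E : WeierstrassCurve K) (M R : ℕ),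
      Admissible M R E →
      HoldsOverComplexFields U M R E →
      (∀ ρ : K →+* ℝ, ∃ X : Extension K, 0 < realAbove ρ X.F ∧
        (∀ ρ' : K →+* ℝ, ρ' ≠ ρ → realAbove ρ' X.F = 0) ∧ BSD U (curveOver E X)) →
      ∀ (F : Type) [Field F] [NumberField F] [Algebra K F],
        (∃ t : ℕ, 0 < t ∧ PowerHasOrder U (E.map (algebraMap K F)) t
          (t * rank (E.map (algebraMap K F)))) ∧
        (Continues U (E.map (algebraMap K F)) → BSD U (E.map (algebraMap K F))) := by
    intro K _ _ E M R hA h hX F _ _ _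
    choose X hX1 hX2 hX3 using hX
    obtain ⟨t, ht, h1⟩ := Pool.Agent.Q246.RP.power_of_tests hU' hA.1 hA.2.1 R hA.2.2
      (hyp K E M R h) (fun ρ => Pool.Agent.Q5.BR.Ext.mk (X ρ).F) hX1 hX2
      (fun ρ => (hasOrder_iff U _ _).1 (hX3 ρ)) F
    have h2 := (powerHasOrder_iff U _ _ _).2 h1
    exact ⟨⟨t, ht, h2⟩, bsd_of_power hU' _ ht h2⟩
  refine ⟨part1, ?_, part3, ?_⟩
  · intro E M R hA h F F' _ _ _ _ r r' hr hr'
    let X : Fin 2 → Extension ℚ := ![Extension.mk F, Extension.mk F']
    have h1 := (part1 ℚ E M R hA h 2 X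
      ![(InfinitePlace.nrRealPlaces F' : ℤ), -(InfinitePlace.nrRealPlaces F : ℤ)] (by
        intro ρ
        rw [Fin.sum_univ_two]
        change (InfinitePlace.nrRealPlaces F' : ℤ) * (Pool.Agent.Q246.RP.above' ρ F : ℤ) +
          (-(InfinitePlace.nrRealPlaces F : ℤ)) * (Pool.Agent.Q246.RP.above' ρ F' : ℤ) = 0
        rw [Pool.Agent.Q246.RP.above_rat, Pool.Agent.Q246.RP.above_rat]
        ring)).2 ![r, r'] (by
        intro i
        fin_cases i
        · exact hr
        · exact hr')
    rw [Fin.sum_univ_two] at h1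
    change (InfinitePlace.nrRealPlaces F' : ℤ) * ((rank (E.map (algebraMap ℚ F)) : ℤ) - r) +
      (-(InfinitePlace.nrRealPlaces F : ℤ)) * ((rank (E.map (algebraMap ℚ F')) : ℤ) - r') = 0 at h1
    linarith
  · intro E M R hA h hcont
    by_cases hex : ∃ (F : Type) (_ : Field F) (_ : NumberField F),
        0 < InfinitePlace.nrRealPlaces F ∧ BSD U (E.map (algebraMap ℚ F))
    · left
      obtain ⟨F₀, _, _, hpos, hb⟩ := hex
      intro F _ _
      refine (part3 ℚ E M R hA h (fun ρ => ⟨Extension.mk F₀, ?_, fun ρ' hne =>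
        absurd (Subsingleton.elim _ _) hne, hb⟩) F).2 (hcont F)
      change 0 < Pool.Agent.Q246.RP.above' ρ F₀
      rw [Pool.Agent.Q246.RP.above_rat]
      exact hpos
    · right
      intro F _ _ hpos hb
      exact hex ⟨F, _, _, hpos, hb⟩

end Pool.Agent.Results.MP_ae0bd0_nt.LawOfRealPlaces
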