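import Mathlib
import Pool.Agent.Q7.GR.Sym
import Pool.Agent.Q7.GR.Min

/-!
# The rank conjecture in extensions with symmetric Galois group: one nonzero value decides

`Pool.Agent.H541R3.ART.Irr G` is the set of irreducible complex characters of the finite group `G`.

Let `E` be an elliptic curve over a number field `K` and `M/K` a Galois extension with group `G` such
that `E` is automorphic over `M`. (If `K` is totally real or CM, every `E/K` has such an `M`; for
`K = ℚ` one can take any totally real `M`.) By solvable descent `E` is automorphic over the fixed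
field `M ^ H` for every SOLVABLE subgroup `H` of `G`. `Pool.Agent.Q7.SZ.TwistData G s₀` is a family of
functions with the known formal properties of the twisted L-functions of `E` near a point `s₀`:
`L χ` (for `L(E ⊗ χ, s)`, `χ ∈ Irr G`), meromorphic and not identically zero (Brauer), and
`Lin H ψ` (for `L(E / M ^ H ⊗ ψ, s)`, `ψ` a linear character of a subgroup `H`) without pole at `s₀`
if `H` is solvable, which are the products of the `L χ ^ ⟨χ|_H, ψ⟩` (induction). In particular
`Lin ⊥ 1` stands for `L(E/M, s)` and `Lin H 1` for `L(E / M ^ H, s)`. If `t` is an element of order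
two and `F = M ^ t`, then `L(E/M, s) = L(E/F, s) * L(E_ε/F, s)`, where `E_ε` is the quadratic twist
of `E` for `M/F`, so `Lin ⊥ 1` and `Lin (zpowers t) 1` have the same order at `s = 1` if and only if
`L(E_ε/F, 1) ≠ 0`.

For a rational representation `ρ` of `G` (of `E(M) ⊗ ℚ`), `Pool.Agent.Q7.SZ.rk ρ H` is the dimension
of the invariants of `H` (the rank of `E(M ^ H)`), and `Pool.Agent.Q7.SZ.RankHolds A ρ H` says that
it is the order of `Lin H 1` at the point: the rank conjecture for `E` over `M ^ H`.

`Pool.Agent.Q7.GR.Reach T g`: the element `g` is reached from the subset `T` of `G`: the elements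
reached from `T` are the smallest set which contains `1` and `T` and is closed under conjugation,
under products of two commuting elements and under products of two elements of square one.
-/

set_option autoImplicit false

open Pool.Agent.H541R3.ART Pool.Agent.H302R2 Pool.Agent.H302R3 Pool.Agent.W446.AS
  Pool.Agent.Q7.TZ Pool.Agent.Q7.SZ Pool.Agent.Q7.GR Equiv

/-- (1) Let `T` be a subset of `Gal(M/K)` from which all elements are reached, and `s₀` any point.
If `L(E/M, s)` and `L(E / M ^ t, s)` have the same order at `s₀` for the elements `t` of `T`, then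
for ALL nontrivial irreducible characters `χ` of `Gal(M/K)` the function `L(E ⊗ χ, s)` is
holomorphic and not zero at `s₀` (and conversely), the L-functions of `E` over all fields between `K`
and `M` have the same order at `s₀` as `L(E/K, s)`, and at `s₀ = 1` the rank conjecture holds for `E`
over all these fields if and only if it holds over `K` and over `M`; if the elements of `T` act
trivially on `E(M) ⊗ ℚ`, it holds over all these fields if and only if it holds over `K`.
(2) For the symmetric group `S_n` one can take for `T` one transposition. So if `Gal(M/K) = S_n` and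
`M/F` is the quadratic extension fixed by one transposition, the single value `L(E_ε/F, 1) ≠ 0`
decides: then all twists of `E` by nontrivial irreducible characters of `S_n` are holomorphic and not
zero at `s = 1`. (If `K = ℚ` and `M` is totally real, `L(E_ε/F, 1) ≠ 0` implies that the transposition
acts trivially on `E(M) ⊗ ℚ`, by the theorems of Kolyvagin, Logachev and Zhang; so if the order of
`L(E/ℚ, s)` at `s = 1` is at most one, the rank conjecture holds for `E` over all fields in `M`.)
(3) If every element of `G` is a product of two elements of square one, one can take for `T` the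
set of elements of square one. -/
theorem Pool.Agent.Results.MP_ae0bd0_nt.OneValueDecides.result :
    (∀ (G : Type) [Group G] [Finite G] (T : Set G), (∀ g, Reach T g) →
      ∀ (s₀ : ℂ) (A : TwistData G s₀),
      ((∀ t ∈ T, meromorphicOrderAt (A.Lin (Subgroup.zpowers t) 1) s₀ =
          meromorphicOrderAt (A.Lin ⊥ 1) s₀) ↔
        ∀ χ ∈ Irr G, χ ≠ (fun _ => 1) → meromorphicOrderAt (A.L χ) s₀ = 0) ∧
      ((∀ t ∈ T, meromorphicOrderAt (A.Lin (Subgroup.zpowers t) 1) s₀ =
          meromorphicOrderAt (A.Lin ⊥ 1) s₀) →
        (∀ H : Subgroup G, meromorphicOrderAt (A.Lin H 1) s₀ =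
          meromorphicOrderAt (A.L (fun _ => 1)) s₀) ∧
        ∀ (V : Type) [AddCommGroup V] [Module ℚ V] [FiniteDimensional ℚ V]
          (ρ : Representation ℚ G V),
          ((∀ H, RankHolds A ρ H) ↔ RankHolds A ρ ⊤ ∧ RankHolds A ρ ⊥) ∧
          ((∀ t ∈ T, ρ t = 1) → ((∀ H, RankHolds A ρ H) ↔ RankHolds A ρ ⊤)))) ∧
    (∀ (n : ℕ) (i j : Fin n), i ≠ j → ∀ g : Perm (Fin n),
      Reach ({swap i j} : Set (Perm (Fin n))) g) ∧
    (∀ (G : Type) [Group G], (∀ g : G, ∃ s t : G, s * s = 1 ∧ t * t = 1 ∧ g = s * t) →
      ∀ g : G, Reach {t : G | t * t = 1} g) := by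
  classical
  refine ⟨?_, fun n i j hij g => perm_reach hij g, ?_⟩
  · intro G _ _ T hT s₀ A
    have : Fintype G := Fintype.ofFinite G
    have hθ := A.isSol
    obtain ⟨r, hr, -⟩ := A.order_one' ⊥
    have h1 := theta_one_int A hr
    obtain ⟨d, hd⟩ := hθ.exists_deg
    have hrd : r = d := by
      rw [hd] at h1
      exact_mod_cast h1.symm
    -- the trivial character
    have h1irr : (fun _ => 1 : G → ℂ) ∈ Irr G := by
      have h2 := lin_irr (1 : G →* ℂˣ)
      have h3 : (fun g => (((1 : G →* ℂˣ) g : ℂˣ) : ℂ)) = (fun _ => 1 : G → ℂ) := by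
        funext g; simp
      rwa [h3] at h2
    -- constant irreducible characters
    have hconst : ∀ χ ∈ Irr G, (∀ g, χ g = χ 1) → χ = fun _ => 1 := by
      intro χ hχ h
      obtain ⟨e, he, he1⟩ := irr_deg_pos hχ
      have h2 := pair_self hχ
      have h3 : ∑ g : G, χ g * χ g⁻¹ = (Nat.card G : ℂ) * ((e : ℂ) * e) := by
        rw [Finset.sum_congr rfl (fun g _ => by rw [h g, h g⁻¹, he1]), Finset.sum_const,
          Finset.card_univ, nsmul_eq_mul, ← Nat.card_eq_fintype_card]
      rw [h3] at h2
      have h4 : (Nat.card G : ℂ) ≠ 0 := card_ne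
      have h5 : (e : ℂ) * e = 1 := by
        have h6 : (Nat.card G : ℂ) * ((e : ℂ) * e) = (Nat.card G : ℂ) * 1 := by rw [h2, mul_one]
        exact mul_left_cancel₀ h4 h6
      have h6 : e * e = 1 := by exact_mod_cast h5
      have h7 : e = 1 := Nat.eq_one_of_mul_eq_one_left h6
      funext g
      rw [h g, he1, h7, Nat.cast_one]
    -- the orders over all fields
    have hall : (∀ χ ∈ Irr G, χ ≠ (fun _ => 1) → meromorphicOrderAt (A.L χ) s₀ = 0) →
        ∀ H : Subgroup G, meromorphicOrderAt (A.Lin H 1) s₀ =
          meromorphicOrderAt (A.L (fun _ => 1)) s₀ := by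
      intro h H
      have : Fintype H := Fintype.ofFinite H
      choose! m hm using fun χ (hχ : χ ∈ Irr G) => exists_mult hχ H 1
      rw [A.order_Lin H 1 m hm, ← A.coe_ord h1irr]
      congr 1
      rw [Finset.sum_eq_single_of_mem _ (mem_irrF.mpr h1irr)]
      · have h2 := hm _ h1irr
        rw [finsum_eq_sum_of_fintype] at h2
        simp only [MonoidHom.one_apply, inv_one, Units.val_one, Finset.sum_const,
          Finset.card_univ, nsmul_eq_mul, mul_one, ← Nat.card_eq_fintype_card] at h2
        have h3 : (Nat.card H : ℂ) ≠ 0 := card_ne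
        have h4 : (m (fun _ => 1) : ℂ) = 1 := by
          have h5 : (1 : ℂ) * Nat.card H = (m (fun _ => 1) : ℂ) * Nat.card H := by
            rw [one_mul]; exact h2
          exact (mul_right_cancel₀ h3 h5).symm
        have h5 : m (fun _ => 1) = 1 := by exact_mod_cast h4
        rw [h5, Nat.cast_one, one_mul]
      · intro χ hχ hne
        have h2 := h χ (mem_irrF.mp hχ) hne
        rw [← A.coe_ord (mem_irrF.mp hχ)] at h2
        have h3 : A.ord χ = 0 := by exact_mod_cast h2
        rw [h3, mul_zero]
    have hiff : (∀ t ∈ T, meromorphicOrderAt (A.Lin (Subgroup.zpowers t) 1) s₀ =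
        meromorphicOrderAt (A.Lin ⊥ 1) s₀) ↔
        ∀ χ ∈ Irr G, χ ≠ (fun _ => 1) → meromorphicOrderAt (A.L χ) s₀ = 0 := by
      constructor
      · intro h
        have hval : ∀ t ∈ T, (theta A.ord : G → ℂ) t = (theta A.ord : G → ℂ) 1 := by
          intro t ht
          obtain ⟨k, hk1, hk2⟩ := A.order_one' (Subgroup.zpowers t)
          rw [h t ht, hr] at hk1
          have hk : k = (d : ℤ) := by
            have h2 : r = k := by exact_mod_cast hk1
            rw [← h2, hrd]
          exact const_of_sum hθ hd (Subgroup.zpowers t) (by rw [hk2, hk]; simp) t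
            (Subgroup.mem_zpowers t)
        have hc : ∀ g, (theta A.ord : G → ℂ) g = (theta A.ord : G → ℂ) 1 := fun g =>
          (hT g).const hθ hval
        intro χ hχ hne
        by_contra h0
        apply hne
        apply hconst χ hχ
        intro g
        refine const_pr (⊤ : Subgroup G) (θ := theta A.ord) (fun x n _ => ?_) hχ ?_ g
          (Subgroup.mem_top g)
        · rw [hc (x * n), hc x]
        · rw [pr_theta A.ord hχ]
          intro h2
          apply h0
          rw [← A.coe_ord hχ]
          have h3 : A.ord χ = 0 := by exact_mod_cast h2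
          rw [h3]
          rfl
      · intro h t _
        rw [hall h, hall h]
    refine ⟨hiff, fun h => ⟨hall (hiff.mp h), ?_⟩⟩
    intro V _ _ _ ρ
    have hord := hall (hiff.mp h)
    constructor
    · constructor
      · intro h2
        exact ⟨h2 ⊤, h2 ⊥⟩
      · rintro ⟨h2, h3⟩ H
        unfold RankHolds at h2 h3 ⊢
        rw [hord] at h2 h3 ⊢
        rw [h2] at h3
        have h4 : (rk ρ (⊤ : Subgroup G) : ℤ) = rk ρ (⊥ : Subgroup G) := by
          exact_mod_cast WithTop.coe_injective h3
        have h5 := rk_mono ρ (le_top : H ≤ ⊤)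
        have h6 := rk_mono ρ (bot_le : ⊥ ≤ H)
        have h7 : rk ρ H = rk ρ (⊤ : Subgroup G) := by omega
        rw [h2, h7]
    · intro htriv
      have hρ : ∀ g, ρ g = 1 := fun g => (hT g).rep ρ htriv
      constructor
      · intro h2
        exact h2 ⊤
      · intro h2 H
        have h3 := rk_sup ρ (N := ⊤) (fun x _ => hρ x) H
        rw [sup_top_eq] at h3
        unfold RankHolds at h2 ⊢
        rw [hord] at h2 ⊢
        rw [h2, h3]
  · intro G _ h g
    obtain ⟨s, t, hs, ht, rfl⟩ := h g
    exact Reach.dih hs ht (Reach.base hs) (Reach.base ht)
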