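import Pool.Agent.Q188.FC.Fin

/-!
# Every nonshortcutting filling of a round sphere has at least 163/200 of the hemisphere

Let `M` be a compact nonshortcutting filling of the unit round sphere `S^d`, `n = d + 1` (of any
topology, orientable or not: triangulated, or such that `M` does not retract onto its boundary).
Then `vol(M) ≥ (163/200) · vol(S^(d+1)) / 2`, for every `d ≥ 1`.

Proof.  A point `q` of `M` is represented by the odd part `φ_q` of the function
`y ↦ |y| cos(distance of q in the direction y)` on `ℝ^n`; it is homogeneous, `1`-Lipschitz, and
`φ_x = ⟨·, x⟩` for `x` in the boundary.  Its graph is a spacelike cone in the Minkowski space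
`ℝ × ℝ^n`.  The *centre* of `φ` is the point `p` of the open unit ball (the Klein model of hyperbolic
space) such that the function `ψ` whose graph is the image of the graph of `φ` under the Lorentz
boost taking `(1, p)` to the time axis satisfies `E[ψ(z) z] = 0` (`z` standard Gaussian).

(1) There is at most one centre, by a monotonicity property which rests on the spectral inequality
`E|∇h|² ≥ 2 Var h` for even functions.
(2) Every point of the ball is the centre of `φ_q` for some `q` (a covering theorem).
(3) The Jacobian of `q ↦ centre` is at most `(1-|p|²)^(1/2) exp(-(s+b)/2) / det(1-X)`, with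
`s = E ψ²`, `X = E[(zzᵀ-1)ψ²]/2`, `b = E[⟨p,z⟩ψ³]/3`.
(4) `exp(-(s+b)/2) ≤ (200/163) det(1-X)`: the spectral inequality `E|∇h|² ≥ 3 E h² - 2|E z h|²` for
the odd functions `h = (1+q)ψ` (`q` a quadratic polynomial) and `h = ψ + εℓψ²` (`ℓ` linear) bounds
`s`, `|X|` and `b`.
(5) The integral of `(1-|p|²)^(-1/2)` over the ball is the volume of the hemisphere.
-/

set_option autoImplicit false

open MeasureTheory

namespace Pool.Agent.Results.MP_aeade1_gt.FourFifths

open Pool.Agent.H241R3.FV

/-- For every `d ≥ 1`, every compact nonshortcutting filling of the round sphere `S^d`, orientable or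
not and of any topology (triangulated, or without retraction onto the boundary), has volume at least
`163/200` of the volume `vol(S^(d+1)) / 2` of the round hemisphere. -/
theorem result (d : ℕ) (hd : 1 ≤ d) (M : Type) [MetricSpace M] [CompactSpace M] (S : Fill d M)
    (hS : S.NonShort) (htop : S.Triangulated ∨ S.NoRetraction) :
    ENNReal.ofReal (163 / 200) *
      ((volume : Measure (EuclideanSpace ℝ (Fin (d + 2)))).toSphere Set.univ / 2) ≤ S.vol :=
  Pool.Agent.Q188.FC.final d hd M S hS htop

end Pool.Agent.Results.MP_aeade1_gt.FourFifths
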