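import Pool.Agent.Q142.TWK.Poly

set_option autoImplicit false

/-!
# Spanning walks in the graphs of simple polytopes visit no vertex more than twice

For every `d ≥ 2`, the graph of every simple `d`-polytope has a closed walk which visits every vertex
once or twice. So `m(d) ≤ 2` for all `d`, while the known bound on `m(d)` is of order `d / 2`.
What remains of the question is whether `m(d) = 1`, that is whether all graphs of simple
`d`-polytopes have Hamiltonian paths.

The proof. The graph is `d`-regular, and it is `d`-connected by Balinski's theorem, so every nonempty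
proper set of vertices is left by at least `d` edges. Counting edges, the deletion of a nonempty set
`S` of vertices leaves at most `|S|` components, and Win's theorem gives a spanning tree `T` of
maximum degree three. Let `O` be the set of its vertices of odd degree. There is a multiset `J` of
edges which meets every vertex of `O` exactly once and every other vertex either not at all or
exactly twice (the parity factor): replace every vertex outside `O` by two copies which are joined
by `2 d` parallel edges, put four parallel edges between two vertices of `O`, two between a vertex of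
`O` and a copy and one between copies, for every edge of the graph; the multigraph is
`4 d`-regular, all its odd cuts have at least `4 d` edges, and its perfect matchings, which exist by
Tutte's theorem, are the multisets `J`. Then `T + J` is a connected multigraph all of whose degrees are two or four: degrees one
and three of `T` become two and four, and degree two becomes two or four. An Euler tour of `T + J`
is the closed walk.
-/

namespace Pool.Agent.Withdrawn.MP_af8dfd_co_AtMostTwice

/-- Euclidean space of dimension `d`. -/
abbrev E (d : ℕ) : Type := EuclideanSpace ℝ (Fin d)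

variable {d : ℕ}

/-- `x` is a vertex of the polytope `P`: the set `{x}` is an exposed face of `P`. -/
def IsVertex (P : Set (E d)) (x : E d) : Prop := IsExposed ℝ P {x}

/-- `F` is an edge of the polytope `P`: an exposed face of `P` of dimension one. -/
def IsEdge (P : Set (E d)) (F : Set (E d)) : Prop :=
  IsExposed ℝ P F ∧ Module.finrank ℝ (affineSpan ℝ F).direction = 1

/-- `P` is a simple `d`-polytope in `ℝ^d`: the convex hull of a finite set, of dimension `d`, and every
vertex of `P` lies on exactly `d` edges of `P`. -/
def IsSimplePolytope (P : Set (E d)) : Prop :=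
  (∃ S : Finset (E d), P = convexHull ℝ (S : Set (E d))) ∧ affineSpan ℝ P = ⊤ ∧
    ∀ x, IsVertex P x → {F | IsEdge P F ∧ x ∈ F}.ncard = d

/-- `x` and `y` are two different vertices of `P` which lie on a common edge of `P`. -/
def Joined (P : Set (E d)) (x y : E d) : Prop :=
  x ≠ y ∧ IsVertex P x ∧ IsVertex P y ∧ ∃ F, IsEdge P F ∧ x ∈ F ∧ y ∈ F

/-- `l` is a walk in the graph of `P`: a nonempty sequence of vertices of `P` in which consecutive
vertices are joined by an edge of `P`. -/
def IsWalk (P : Set (E d)) (l : List (E d)) : Prop :=
  l ≠ [] ∧ (∀ x ∈ l, IsVertex P x) ∧ l.IsChain (Joined P)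

open Classical in
/-- The number of occurrences of `x` in `l`. -/
noncomputable def visits (l : List (E d)) (x : E d) : ℕ := l.count x

/-- `m(d)`: the least `m ≥ 1` such that every simple `d`-polytope `P` has a walk which visits every
vertex of `P` at least once and at most `m` times. -/
noncomputable def m (d : ℕ) : ℕ :=
  sInf {m : ℕ | 1 ≤ m ∧ ∀ P : Set (E d), IsSimplePolytope P →
    ∃ l, IsWalk P l ∧ ∀ x, IsVertex P x → 1 ≤ visits l x ∧ visits l x ≤ m}

/-- **Closed walks visiting every vertex once or twice.** -/
theorem closed (hd : 1 ≤ d) (P : Set (E d)) (hP : IsSimplePolytope P) :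
    ∃ l, IsWalk P l ∧ (∀ x y, l.head? = some x → l.getLast? = some y → Joined P y x) ∧
      ∀ x, IsVertex P x → 1 ≤ visits l x ∧ visits l x ≤ 2 := by
  classical
  obtain ⟨⟨S, rfl⟩, h1, h2⟩ := hP
  have hS : Pool.Agent.H63R3.Sep.IsSimple S := by
    refine ⟨?_, fun x => h2 x.1 x.2⟩
    rw [affineSpan_convexHull] at h1
    exact h1
  have : DecidableEq (Pool.Agent.H63R3.Sep.Node S) := Classical.decEq _
  obtain ⟨r, l, hl1, hl2, hl3⟩ := Pool.Agent.Q142.TWK.skel_walk hd hS
  have hadj : ∀ a b : Pool.Agent.H63R3.Sep.Node S, (Pool.Agent.H63R3.Sep.skel S).Adj a b →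
      Joined (convexHull ℝ (S : Set (E d))) a.1 b.1 := by
    intro a b h
    exact ⟨fun h' => h.1 (Subtype.ext h'), a.2, b.2, h.2⟩
  obtain ⟨f, hf⟩ : ∃ f : Pool.Agent.H63R3.Sep.Node S → E d, ∀ v, f v = v.1 := ⟨fun v => v.1, fun _ => rfl⟩
  have hfi : Function.Injective f := by
    intro v w h
    rw [hf, hf] at h
    exact Subtype.ext h
  have hcount : ∀ v : Pool.Agent.H63R3.Sep.Node S, visits (l.map f) (f v) = l.count v := by
    intro v
    unfold visits
    rw [List.count_map_of_injective l f hfi]
  cases l with
  | nil =>
    have := (hl3 r).1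
    simp at this
  | cons a l =>
    refine ⟨(a :: l).map f, ⟨List.cons_ne_nil _ _, ?_, ?_⟩, ?_, ?_⟩
    · intro x hx
      obtain ⟨v, _, rfl⟩ := List.mem_map.1 hx
      rw [hf]
      exact v.2
    · rw [List.isChain_map]
      refine (List.isChain_cons_cons.1 hl1).2.imp fun a b h => ?_
      rw [hf, hf]
      exact hadj a b h
    · intro x y hx hy
      rw [List.getLast?_cons_cons] at hl2
      rw [List.getLast?_map, hl2] at hy
      rw [List.map_cons, List.head?_cons] at hx
      simp only [Option.map_some, Option.some.injEq] at hx hy
      rw [← hx, ← hy, hf, hf]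
      exact hadj _ _ (List.isChain_cons_cons.1 hl1).1
    · intro x hx
      obtain ⟨v, hv⟩ : ∃ v : Pool.Agent.H63R3.Sep.Node S, v.1 = x := ⟨⟨x, hx⟩, rfl⟩
      rw [← hv, ← hf, hcount v]
      exact hl3 v

/-- For every `d ≥ 2`, every simple `d`-polytope has a closed walk in its graph which visits every vertex
once or twice, and `m(d)` is one or two. -/
theorem result : ∀ d : ℕ, 2 ≤ d →
    (∀ P : Set (E d), IsSimplePolytope P →
      ∃ l, IsWalk P l ∧ (∀ x y, l.head? = some x → l.getLast? = some y → Joined P y x) ∧
        ∀ x, IsVertex P x → 1 ≤ visits l x ∧ visits l x ≤ 2) ∧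
    (m d = 1 ∨ m d = 2) := by
  intro d hd
  refine ⟨fun P hP => closed (by omega) P hP, ?_⟩
  have h2 : (2 : ℕ) ∈ {m : ℕ | 1 ≤ m ∧ ∀ P : Set (E d), IsSimplePolytope P →
      ∃ l, IsWalk P l ∧ ∀ x, IsVertex P x → 1 ≤ visits l x ∧ visits l x ≤ m} := by
    refine ⟨by norm_num, fun P hP => ?_⟩
    obtain ⟨l, h1, _, h3⟩ := closed (by omega) P hP
    exact ⟨l, h1, h3⟩
  have h3 : m d ≤ 2 := Nat.sInf_le h2
  have h4 : 1 ≤ m d := (Nat.sInf_mem ⟨2, h2⟩).1
  omega

end Pool.Agent.Withdrawn.MP_af8dfd_co_AtMostTwice
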