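import Mathlib
import Pool.Prelude.Def_F_c31e40fa
import Pool.Agent.Q79.PerLawC

set_option autoImplicit false

/-!
# The law of the period of a random parameter

Let `c` be uniformly distributed in the annulus `Y ≤ n |c| ^ (n - 1) ≤ lam Y`. As `n → ∞` and
`Y → ∞` (slowly: `Y ≤ log^[K] n`), the exact period of the attracting cycle of `z ^ n + c`
converges in total variation to the geometric law: period `k + 1` has probability `2 ^ (-k)`,
`k ≥ 1`. In particular the proportion of the parameters with an attracting cycle tends to `1`.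
-/

open MeasureTheory Filter Topology

namespace Pool.Agent.Results.MP_af9036_an.PeriodLaw

/-- The parameters for which `z ^ n + c` has an attracting cycle of exact period `m`. -/
def Exact (n m : ℕ) : Set ℂ :=
  {c | ∃ z, N62a1eb23.IsAttractingCycle (fun z => z ^ n + c) m z ∧
    Function.minimalPeriod (fun z => z ^ n + c) z = m}

/-- The annulus `y ≤ n |c| ^ (n - 1) ≤ y'`. -/
def Annulus (n : ℕ) (y y' : ℝ) : Set ℂ :=
  {c | y ≤ n * ‖c‖ ^ (n - 1) ∧ n * ‖c‖ ^ (n - 1) ≤ y'}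

/-- The proportion, in the annulus, of the parameters for which `z ^ n + c` has an attracting cycle
whose exact period belongs to `S`. -/
noncomputable def Proportion (n : ℕ) (y y' : ℝ) (S : Set ℕ) : ℝ :=
  (volume ({c | ∃ m ∈ S, c ∈ Exact n m} ∩ Annulus n y y')).toReal /
    (volume (Annulus n y y')).toReal

open Classical in
theorem result {lam ε : ℝ} (hl : 1 < lam) (hε : 0 < ε) : ∃ (K : ℕ) (Y₀ : ℝ),
    ∀ᶠ n : ℕ in atTop, ∀ Y : ℝ, Y₀ ≤ Y → Y ≤ Real.log^[K] (n : ℝ) → ∀ S : Set ℕ,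
      |Proportion n Y (lam * Y) S - ∑' k : ℕ, if k + 2 ∈ S then (1 / 2 : ℝ) ^ (k + 1) else 0| ≤
        ε := by
  obtain ⟨K, Y₀, h⟩ := Pool.Agent.Q79.PL.law hl hε
  refine ⟨K, Y₀, ?_⟩
  filter_upwards [h] with n hn
  intro Y hY hYn S
  obtain ⟨h1, h2⟩ := hn Y hY hYn S
  set V := (volume (Annulus n Y (lam * Y))).toReal with hV
  have h1' : 0 < V := h1
  have h2' : |(volume ({c | ∃ m ∈ S, c ∈ Exact n m} ∩ Annulus n Y (lam * Y))).toReal -
      (∑' j : ℕ, if j + 2 ∈ S then (1 / 2 : ℝ) ^ (j + 1) else 0) * V| ≤ ε * V := h2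
  unfold Proportion
  rw [← hV, ← mul_le_mul_iff_left₀ h1']
  calc _ = |(((volume ({c | ∃ m ∈ S, c ∈ Exact n m} ∩ Annulus n Y (lam * Y))).toReal / V) -
        ∑' j : ℕ, if j + 2 ∈ S then (1 / 2 : ℝ) ^ (j + 1) else 0) * V| := by
        rw [abs_mul, abs_of_pos h1']
    _ = |(volume ({c | ∃ m ∈ S, c ∈ Exact n m} ∩ Annulus n Y (lam * Y))).toReal -
      (∑' j : ℕ, if j + 2 ∈ S then (1 / 2 : ℝ) ^ (j + 1) else 0) * V| := by
        congr 1
        rw [sub_mul, div_mul_cancel₀ _ h1'.ne']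
    _ ≤ _ := h2'

end Pool.Agent.Results.MP_af9036_an.PeriodLaw
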