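import Pool.Agent.Q148.HD.Dim
import Pool.Agent.Q148.HD.Small

set_option autoImplicit false

namespace Pool.Agent.Results.MP_afadd1_co.OrdersWithFewPrimes

/-- For every `n ≥ 4` and every `t ≥ 1` such that the number of distinct odd primes dividing `t` is at
most `3 (v + 1)`, where `2 ^ v` is the exact power of two dividing `t` (in particular for every
`1 ≤ t < 1155`), there is an `n`-dimensional Hadamard matrix of order `2 t`. -/
theorem result : ∀ n : ℕ, 4 ≤ n → ∀ t : ℕ, 1 ≤ t →
    ((t.primeFactors.erase 2).card ≤ 3 * (t.factorization 2 + 1) ∨ t < 1155) →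
      ∃ A : (Fin n → Fin (2 * t)) → ℤ,
        (∀ i, A i = 1 ∨ A i = -1) ∧
        ∀ l : Fin n, ∀ x y : Fin (2 * t),
          (∑ i : Fin n → Fin (2 * t),
              A (Function.update i l x) * A (Function.update i l y)) =
            if x = y then ((2 * t : ℕ) : ℤ) ^ n else 0 := by
  intro n hn t ht h
  refine Pool.Agent.Q148.HD.main_orders n hn t ht ?_
  rcases h with h | h
  · exact h
  · have := Pool.Agent.Q148.HD.card_odd_primes_le ht h
    omega

end Pool.Agent.Results.MP_afadd1_co.OrdersWithFewPrimes
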