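import Pool.Agent.Q170.DM.Main
import Pool.Agent.Q170.ZP.MultiCount

/-!
# MP_b15c9e_ag: Dynamical Mordell-Lang for almost all members of families with several parameters
which are preperiodic over a hypersurface

**Families.** Let `F_{t,0}, …, F_{t,N}` be forms of degree `d` in `N + 1` variables whose
coefficients are complex polynomials in `t = (t_1, …, t_r)` (`member F t`), let `x_0, …, x_N` be
complex polynomials in `t` (`start x t`). So `F_t` is a family of rational self-maps of `ℙ^N` with
`r` parameters (for example of endomorphisms, for example a constant family) and `x(t)` is a family of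
starting points. Let `D` and `E` be polynomials in `t` with integral coefficients.

**Hypothesis** (`EtaleOver`). There are `n₀` and `m > 0` such that for all `t ∈ ℂ^r` with
`D(t) = 0 ≠ E(t)`: the orbit of `x(t)` under `F_t` is defined (no iterate is zero), the iterates of
index `n₀` and `n₀ + m` are equal in `ℙ^N`, and the determinant of the matrix of the partial
derivatives of the `F_{t,i}` does not vanish at the iterates of index `n ≥ n₀` (that is, `F_t` is
étale at the points of the cycle).

**Theorem.** There is a `Q` with the following properties.

1. For all `t ∈ ℤ^r` for which there is a prime `p > Q` with `p ∣ D(t)` and `p ∤ E(t)`: the orbit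
   of `x(t)` under `F_t` is defined, and for every set `S` of polynomials in `N + 1` variables (for
   closed subsets of `ℙ^N`: a set of forms) the set of the `n` such that all members of `S` vanish at
   the `n`-th iterate is a finite union of arithmetic progressions (`DMLAt`).
2. If `D` is not constant and has no common factor with `E` then for all `ε > 0` there is a `C` such
   that this is the case for all but at most `C H^(r - 1 + ε)` of the `(2 H + 1)^r` points `t ∈ ℤ^r`
   with `|t_j| ≤ H`.

For example let `F` be any endomorphism of `ℙ^N` over `ℂ` and let `P` be any point of `ℙ^N(ℂ)` whose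
orbit is finite and such that `F` is étale at the points of the cycle. Let `D ∈ ℤ[T_1, …, T_r]` be not
constant and let `y_0, …, y_N` be any complex polynomials in `r` variables. Then the dynamical
Mordell-Lang conjecture holds for `F` and the starting point `P + D(t) y(t)`, for all but
`C H^(r - 1 + ε)` of the `t`. The same is true for `F_t = F + D(t) G_t`, `G_t` any family of systems of
forms of the same degree. But in general the preperiodic points over the points of the hypersurface
vary, and the hypersurface can be given by a dynatomic polynomial.

The case `r = 1` (one algebraic number `α`, with the exceptional set `C (log B)^s`) is the theorem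
`OnePreperiodicMember` of the starting files; it does not imply the present one, because the
constants of that theorem depend on the curve in an uncontrolled way.

The proof: if `p ∣ D(t)`, `p ∤ E(t)` for a large prime `p` then there is an embedding of `ℂ` into the
algebraic closure of `ℚ_p` for which all data have good reduction. By the Nullstellensatz all
algebraic conditions which are satisfied over the hypersurface are satisfied by the orbit of `x(t)`
modulo the maximal ideal: so it is preperiodic modulo the maximal ideal (all multipliers being
units), the determinants are units, and `p`-adic interpolation applies. For the second part: the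
values of `D` have a prime divisor as required for almost all `t` (`card_bad`).
-/

set_option autoImplicit false

open MvPolynomial Pool.Agent.H936R2 Pool.Agent.Y199.DM Pool.Agent.Q170.DM

namespace Pool.Agent.Results.MP_b15c9e_ag.PreperiodicHypersurface

variable {N r : ℕ}

/-- Over the hypersurface `D = 0`, outside of `E = 0`, the starting point is étale preperiodic. -/
def EtaleOver (F : Fin (N + 1) → MvPolynomial (Fin (N + 1)) (MvPolynomial (Fin r) ℂ))
    (x : Fin (N + 1) → MvPolynomial (Fin r) ℂ) (D E : MvPolynomial (Fin r) ℤ) (n₀ m : ℕ) : Prop :=
  ∀ t : Fin r → ℂ, aeval t D = 0 → aeval t E ≠ 0 →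
    (∀ n, (pt (member F t))^[n] (start x t) ≠ 0) ∧
    (∃ c : ℂ, (pt (member F t))^[n₀ + m] (start x t) =
      c • (pt (member F t))^[n₀] (start x t)) ∧
    ∀ n, n₀ ≤ n → (Matrix.of fun i j => eval ((pt (member F t))^[n] (start x t))
      (pderiv j (member F t i))).det ≠ 0

/-- **Dynamical Mordell-Lang for almost all members of a family with several parameters which is
preperiodic over a hypersurface.** -/
theorem result {d : ℕ} (F : Fin (N + 1) → MvPolynomial (Fin (N + 1)) (MvPolynomial (Fin r) ℂ))
    (hF : ∀ i, (F i).IsHomogeneous d) (x : Fin (N + 1) → MvPolynomial (Fin r) ℂ)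
    (D E : MvPolynomial (Fin r) ℤ) (n₀ m : ℕ) (hm : 0 < m) (h : EtaleOver F x D E n₀ m) :
    ∃ Q : ℕ, (∀ t : Fin r → ℤ, (∃ p : ℕ, p.Prime ∧ Q < p ∧ (p : ℤ) ∣ eval t D ∧
        ¬ (p : ℤ) ∣ eval t E) →
        DMLAt (member F fun j => (t j : ℂ)) (start x fun j => (t j : ℂ))) ∧
      (0 < D.totalDegree → IsRelPrime D E → ∀ ε : ℝ, 0 < ε → ∃ C : ℝ, 0 < C ∧
        ∀ H : ℕ, 1 ≤ H → ({t : Fin r → ℤ | (∀ j, |t j| ≤ H) ∧
          ¬ DMLAt (member F fun j => (t j : ℂ)) (start x fun j => (t j : ℂ))}.ncard : ℝ) ≤
            C * (H : ℝ) ^ ((r : ℝ) - 1 + ε)) := by
  classical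
  obtain ⟨S, hS, h1⟩ := near_dml F hF x D E n₀ m n₀ hm
    (fun t hD hE => ⟨(h t hD hE).1, (h t hD hE).2.1⟩) (fun t hD hE => (h t hD hE).2.2)
  obtain ⟨Q, hQ⟩ := int_points D E hS h1
  refine ⟨Q, hQ, fun hDd hDE ε hε => ?_⟩
  obtain ⟨C, hC, hcard⟩ := Pool.Agent.Q170.ZP.Count.card_bad D E hDd hDE Q ε hε
  refine ⟨C, hC, fun H hH => (Nat.cast_le.2 ?_).trans (hcard H hH)⟩
  rw [← Set.ncard_coe_finset]
  refine Set.ncard_le_ncard (fun t ht => ?_) (Finset.finite_toSet _)
  rw [Finset.mem_coe, Finset.mem_filter]
  exact ⟨Pool.Agent.Q170.ZP.Count.mem_box.2 ht.1, fun hex => ht.2 (hQ t hex)⟩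

end Pool.Agent.Results.MP_b15c9e_ag.PreperiodicHypersurface
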