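import Pool.Agent.Q170.DM.Main
import Pool.Agent.Q170.ZP.MultiCount

/-!
# MP_b15c9e_ag: the dynamical Mordell-Lang conjecture for almost all integral members of families
with several parameters which are preperiodic over hypersurfaces

**Families.** Let `F_{t,0}, …, F_{t,N}` be forms of degree `d` in `N + 1` variables, let `x(t)` be a
point with coordinates `x_0(t), …, x_N(t)`, and let `V_t ⊂ ℙ^N` be the closed set defined by forms
`G_{t,k}`, `k ∈ κ` (`κ` finite), all coefficients being complex polynomials in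
`t = (t_1, …, t_r)`. So `F_t` is a family of rational self-maps of `ℙ^N` with `r` parameters. It can
be a family of endomorphisms of `ℙ^N`, a family of polynomial self-maps of the affine space
(`F_{t,0} = X_0^d`), hence of an affine variety, or be constant. For `t ∈ ℂ^r` let `R_t` be the
set of the `n` such that the `n`-th iterate of `x(t)` is a point of `V_t` (`returnSet`).

**Hypersurfaces.** For `l = 1, …, M` let `D_l`, `E_l` be polynomials in `t` with integral
coefficients, and suppose that there are `n₀` and `m > 0` (they may depend on `l`) such that for all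
`t ∈ ℂ^r` with `D_l(t) = 0 ≠ E_l(t)` the orbit of `x(t)` under `F_t` is defined (no iterate is zero)
and the iterates of index `n₀` and `n₀ + m` are equal in `ℙ^N` (`PreperiodicOn`). Let `R(D_l)` be the
union of the sets `R_t` for all these `t` (`returnsOn`). Suppose that

* the intersection of the sets `R(D_1), …, R(D_M)` is finite, or
* for some `l` and `n₁`, for all these `t`, the matrix of the partial derivatives of the `F_{t, i}` is
  invertible at the iterates of `x(t)` of index `n ≥ n₁` (that is, `F_t` is étale at the points of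
  the cycle; `EtaleOn`).

**Theorem.** There is a `Q` with the following properties. Call `t ∈ ℤ^r` good if the orbit of `x(t)`
under `F_t` is defined, `R_t` is a finite union of arithmetic progressions, and `R_t ⊆ R(D_l)`
for all `l`.

1. All `t ∈ ℤ^r` such that for every `l` there is a prime `p > Q` with `p ∣ D_l(t)` and
   `p ∤ E_l(t)` are good.
2. If the `D_l` are not constant and have no common factors with the `E_l` then for all `ε > 0` there
   is a `C` such that all but at most `C H^(r - 1 + ε)` of the `(2 H + 1)^r` points `t ∈ ℤ^r` with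
   `|t_j| ≤ H` are good.

So the dynamical Mordell-Lang conjecture holds for these `F_t`, `x(t)`, `V_t`, in a uniform way.
For example (`M = 1`) let `F` be any endomorphism of `ℙ^N` over `ℂ`, let `P` be any preperiodic point
of `F` and let `V` be any closed set which does not meet the cycle of `P`. Let `D` be a polynomial in
`r` variables with integral coefficients which is not constant, and let `y` be any system of `N + 1`
complex polynomials in `r` variables. Then for all but
`C H^(r - 1 + ε)` of the `t ∈ ℤ^r`, `|t_j| ≤ H`, the set of the `n` with `F^n (P + D(t) y(t)) ∈ V` is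
finite and contained in the set of the `n` with `F^n(P) ∈ V`; so it is empty if `V` does not meet the
orbit of `P`. No condition on the ramification of `F` is needed. And if `x(t)` is preperiodic over
several hypersurfaces and no `n` is in all the `R(D_l)` then almost all the orbits of the `x(t)` do
not meet `V_t`, even if all the cycles meet `V_t`.

The case `r = 1` (algebraic numbers `α_l`, with exceptional set `C (log B)^s`) is the theorem
`MP_295d38_ag.AlgebraicPreperiodicMembers` of the starting files; it does not imply the present one, because its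
constants depend on the curve in an uncontrolled way.

The proof: if `p ∣ D_l(t)`, `p ∤ E_l(t)` for a large prime `p` then there is an embedding of `ℂ` into
the algebraic closure of `ℚ_p` for which all data have good reduction. By the Nullstellensatz the
orbit of `x(t)` is preperiodic modulo the maximal ideal, with units as multipliers, and its
iterates of index `n ∉ R(D_l)` are not in `V_t` modulo the maximal ideal. For the second part: the
values of the `D_l` have prime divisors as required for almost all `t` (`card_bad`).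
-/

set_option autoImplicit false

open MvPolynomial Pool.Agent.H936R2 Pool.Agent.Y199.DM Pool.Agent.Q170.DM

namespace Pool.Agent.Results.MP_b15c9e_ag.SeveralHypersurfaces

variable {N r : ℕ} {κ : Type}

/-- The orbit of the starting point at `t` is defined, `R_t` is a finite union of arithmetic
progressions and it is contained in the sets `R(D_l)`. -/
def Good {M : ℕ} (F : Fin (N + 1) → MvPolynomial (Fin (N + 1)) (MvPolynomial (Fin r) ℂ))
    (x : Fin (N + 1) → MvPolynomial (Fin r) ℂ)
    (G : κ → MvPolynomial (Fin (N + 1)) (MvPolynomial (Fin r) ℂ))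
    (D E : Fin M → MvPolynomial (Fin r) ℤ) (t : Fin r → ℂ) : Prop :=
  (∀ n, (pt (member F t))^[n] (start x t) ≠ 0) ∧
  IsFiniteUnionOfAP (returnSet (member F t) (start x t) (member G t)) ∧
  ∀ l, returnSet (member F t) (start x t) (member G t) ⊆ returnsOn F x G (D l) (E l)

/-- **The dynamical Mordell-Lang conjecture for almost all integral members of families with several
parameters which are preperiodic over hypersurfaces.** -/
theorem result {d M : ℕ} [Finite κ]
    (F : Fin (N + 1) → MvPolynomial (Fin (N + 1)) (MvPolynomial (Fin r) ℂ))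
    (hF : ∀ i, (F i).IsHomogeneous d) (x : Fin (N + 1) → MvPolynomial (Fin r) ℂ)
    (G : κ → MvPolynomial (Fin (N + 1)) (MvPolynomial (Fin r) ℂ)) (e : κ → ℕ)
    (hG : ∀ k, (G k).IsHomogeneous (e k)) (D E : Fin M → MvPolynomial (Fin r) ℤ)
    (h : ∀ l, ∃ n₀ m : ℕ, 0 < m ∧ PreperiodicOn F x (D l) (E l) n₀ m)
    (hR : (⋂ l, returnsOn F x G (D l) (E l)).Finite ∨ ∃ l n₁, EtaleOn F x (D l) (E l) n₁) :
    ∃ Q : ℕ, (∀ t : Fin r → ℤ, (∀ l, ∃ p : ℕ, p.Prime ∧ Q < p ∧ (p : ℤ) ∣ eval t (D l) ∧
        ¬ (p : ℤ) ∣ eval t (E l)) → Good F x G D E fun j => (t j : ℂ)) ∧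
      ((∀ l, 0 < (D l).totalDegree ∧ IsRelPrime (D l) (E l)) → ∀ ε : ℝ, 0 < ε → ∃ C : ℝ, 0 < C ∧
        ∀ H : ℕ, 1 ≤ H → ({t : Fin r → ℤ | (∀ j, |t j| ≤ H) ∧
          ¬ Good F x G D E fun j => (t j : ℂ)}.ncard : ℝ) ≤
            C * (H : ℝ) ^ ((r : ℝ) - 1 + ε)) := by
  classical
  choose n₀ m hm hpre using h
  have h1 : ∀ l, ∃ Q : ℕ, ∀ t : Fin r → ℤ, (∃ p : ℕ, p.Prime ∧ Q < p ∧ (p : ℤ) ∣ eval t (D l) ∧
      ¬ (p : ℤ) ∣ eval t (E l)) →
      (∀ n, (pt (member F fun j => (t j : ℂ)))^[n] (start x fun j => (t j : ℂ)) ≠ 0) ∧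
      returnSet (member F fun j => (t j : ℂ)) (start x fun j => (t j : ℂ))
        (member G fun j => (t j : ℂ)) ⊆ returnsOn F x G (D l) (E l) := by
    intro l
    obtain ⟨S, hS, h1⟩ := near_ret F hF x G e hG (D l) (E l) (n₀ l) (m l) (hm l) (hpre l)
    exact int_points (P := fun t => (∀ n, (pt (member F t))^[n] (start x t) ≠ 0) ∧
      returnSet (member F t) (start x t) (member G t) ⊆ returnsOn F x G (D l) (E l))
      (D l) (E l) hS h1
  choose Q1 hQ1 using h1
  -- the étale case
  obtain ⟨Q2, hQ2⟩ : ∃ Q2 : ℕ, ∀ t : Fin r → ℤ,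
      (∀ l, ∃ p : ℕ, p.Prime ∧ Q2 < p ∧ (p : ℤ) ∣ eval t (D l) ∧ ¬ (p : ℤ) ∣ eval t (E l)) →
      (⋂ l, returnsOn F x G (D l) (E l)).Finite ∨
        DMLAt (member F fun j => (t j : ℂ)) (start x fun j => (t j : ℂ)) := by
    rcases hR with hR | ⟨l, n₁, hl⟩
    · exact ⟨0, fun t _ => Or.inl hR⟩
    · obtain ⟨S, hS, h1⟩ := near_dml F hF x (D l) (E l) (n₀ l) (m l) n₁ (hm l) (hpre l) hl
      obtain ⟨Q, hQ⟩ := int_points (D l) (E l) hS h1
      exact ⟨Q, fun t ht => Or.inr (hQ t (ht l))⟩
  have key : ∀ t : Fin r → ℤ, (∀ l, ∃ p : ℕ, p.Prime ∧ Q2 + ∑ l, Q1 l < p ∧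
      (p : ℤ) ∣ eval t (D l) ∧ ¬ (p : ℤ) ∣ eval t (E l)) → Good F x G D E fun j => (t j : ℂ) := by
    intro t ht
    have ht1 : ∀ l, ∃ p : ℕ, p.Prime ∧ Q1 l < p ∧ (p : ℤ) ∣ eval t (D l) ∧
        ¬ (p : ℤ) ∣ eval t (E l) := by
      intro l
      obtain ⟨p, hp, hlt, h2⟩ := ht l
      have h3 := Finset.single_le_sum (f := Q1) (fun _ _ => Nat.zero_le _) (Finset.mem_univ l)
      exact ⟨p, hp, by omega, h2⟩
    have ht2 : ∀ l, ∃ p : ℕ, p.Prime ∧ Q2 < p ∧ (p : ℤ) ∣ eval t (D l) ∧
        ¬ (p : ℤ) ∣ eval t (E l) := by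
      intro l
      obtain ⟨p, hp, hlt, h2⟩ := ht l
      exact ⟨p, hp, by omega, h2⟩
    have hsub := fun l => (hQ1 l t (ht1 l)).2
    rcases hQ2 t ht2 with hfin | hdml
    · -- there is at least one hypersurface
      have hM : Nonempty (Fin M) := by
        by_contra hcon
        rw [not_nonempty_iff] at hcon
        rw [Set.iInter_of_empty] at hfin
        exact Set.infinite_univ hfin
      obtain ⟨l⟩ := hM
      exact ⟨(hQ1 l t (ht1 l)).1, isFiniteUnionOfAP_of_finite
        (hfin.subset (Set.subset_iInter hsub)), hsub⟩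
    · refine ⟨hdml.1, ?_, hsub⟩
      obtain ⟨T, hT⟩ := hdml.2 (Set.range (member G fun j => (t j : ℂ)))
      refine ⟨T, ?_⟩
      rw [← hT]
      ext n
      simp [returnSet]
  refine ⟨Q2 + ∑ l, Q1 l, key, fun hDE ε hε => ?_⟩
  choose C hC hcard using fun l => Pool.Agent.Q170.ZP.Count.card_bad (D l) (E l) (hDE l).1
    (hDE l).2 (Q2 + ∑ l, Q1 l) ε hε
  refine ⟨1 + ∑ l, C l, add_pos_of_pos_of_nonneg one_pos
    (Finset.sum_nonneg fun l _ => (hC l).le), fun H hH => ?_⟩
  have hH0 : (0 : ℝ) ≤ (H : ℝ) ^ ((r : ℝ) - 1 + ε) := Real.rpow_nonneg (Nat.cast_nonneg _) _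
  have h2 : {t : Fin r → ℤ | (∀ j, |t j| ≤ H) ∧ ¬ Good F x G D E fun j => (t j : ℂ)} ⊆
      ((Finset.univ.biUnion fun l => (Pool.Agent.Q170.ZP.Count.box r H).filter fun t =>
        ¬ ∃ p : ℕ, p.Prime ∧ Q2 + ∑ l, Q1 l < p ∧ (p : ℤ) ∣ eval t (D l) ∧
        ¬ (p : ℤ) ∣ eval t (E l) : Finset (Fin r → ℤ)) : Set (Fin r → ℤ)) := by
    intro t ht
    rw [Finset.mem_coe, Finset.mem_biUnion]
    by_contra hcon
    refine ht.2 (key t fun l => ?_)
    by_contra hex
    exact hcon ⟨l, Finset.mem_univ l, Finset.mem_filter.2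
      ⟨Pool.Agent.Q170.ZP.Count.mem_box.2 ht.1, hex⟩⟩
  have h3 := Set.ncard_le_ncard h2 (Finset.finite_toSet _)
  rw [Set.ncard_coe_finset] at h3
  calc ({t : Fin r → ℤ | (∀ j, |t j| ≤ H) ∧
        ¬ Good F x G D E fun j => (t j : ℂ)}.ncard : ℝ)
      ≤ (∑ l, ((Pool.Agent.Q170.ZP.Count.box r H).filter fun t =>
        ¬ ∃ p : ℕ, p.Prime ∧ Q2 + ∑ l, Q1 l < p ∧ (p : ℤ) ∣ eval t (D l) ∧
        ¬ (p : ℤ) ∣ eval t (E l)).card : ℕ) := Nat.cast_le.2 (h3.trans Finset.card_biUnion_le)
    _ ≤ ∑ l, C l * (H : ℝ) ^ ((r : ℝ) - 1 + ε) := by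
      rw [Nat.cast_sum]
      exact Finset.sum_le_sum fun l _ => hcard l H hH
    _ = (∑ l, C l) * (H : ℝ) ^ ((r : ℝ) - 1 + ε) := by rw [Finset.sum_mul]
    _ ≤ (1 + ∑ l, C l) * (H : ℝ) ^ ((r : ℝ) - 1 + ε) :=
      mul_le_mul_of_nonneg_right (by linarith) hH0

end Pool.Agent.Results.MP_b15c9e_ag.SeveralHypersurfaces
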