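import Pool.Agent.Q28.GE.Tate

/-!
# The conjecture of Gross and Deligne is a statement on Hodge classes

Let `F` be an abelian number field of conductor `d > 1`. We consider all admissible triples
`(H, F, ι)`, `H ⊆ H^m(X)`, for all smooth projective varieties `X` over the field of algebraic
numbers and all `m`, as in the conjecture of Gross and Deligne. We prove exact reductions of the
conjecture:

* it holds for all triples if and only if it holds for the triples which consist of Hodge classes
  (there it says that the Hodge classes are, up to the power `π ^ k`, defined over the algebraic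
  numbers in de Rham cohomology), if and only if the periods depend only on the Hodge numbers;
* for each triple `H` there is one triple of Hodge classes (on the product of `X` with abelian
  varieties with complex multiplication by `F`) which decides the conjecture for `H`;
* the conjecture for `H` can be decided on tensor products over `F` of Galois twists of `H`, for
  example on one tensor power of `H`.
-/

namespace Pool.Agent.Results.MP_b23d8d_ag.HodgeClassesSuffice

open Pool.Agent.Q28.GD Pool.Agent.Q28.GE

/-- **Reductions of the conjecture of Gross and Deligne.** -/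
theorem result {d : ℕ} [NeZero d] (hd : 1 < d) {Δ : Subgroup (ZMod d)ˣ} {D : AllTriples d}
    (hF : Facts Δ D) :
    List.TFAE [∀ t, GrossDeligne D t,
      ∀ t k, IsTateType D t k → ∀ l, Sim (D.tr.period t l) ((Real.pi : ℂ) ^ k),
      ∀ t u, D.tr.hodge t = D.tr.hodge u → ∀ l, Sim (D.tr.period t l) (D.tr.period u l)] ∧
    ((-1 : (ZMod d)ˣ) ∉ Δ → ∀ t, ∃ As : List D.tr.T, (∀ A ∈ As, D.AV A) ∧
      As.length = D.tr.weight t ∧ IsTateType D (prod D t As) (D.tr.weight t) ∧
      (GrossDeligne D t ↔
        ∀ l, Sim (D.tr.period (prod D t As) l) ((Real.pi : ℂ) ^ D.tr.weight t))) ∧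
    ∀ t g L, NoZero Δ (g :: L) → (GrossDeligne D t ↔ GrossDeligne D (twists D t g L)) := by
  refine ⟨tfae hF hd, fun hΔ t => ?_, fun t g L hL => gd_twists hF t g L hL⟩
  obtain ⟨As, h1, h2, h3, h4⟩ := to_tate hF hΔ t
  exact ⟨As, h1, h2, h3, h4.trans (gd_tate hF hd h3)⟩

end Pool.Agent.Results.MP_b23d8d_ag.HodgeClassesSuffice
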