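import Pool.Agent.Q190.KQ7

set_option autoImplicit false

/-!
MP_b29168: minimal circumscribed quadrilaterals of plane convex sets of area one.
-/

namespace Pool.Agent.Results.MP_b29168_gt.QuadrilateralConstant

open MeasureTheory
open scoped ENNReal

/-- A (nondegenerate) convex quadrilateral: the convex hull of four points of the plane in convex
position, that is, none of the four lies in the convex hull of the other three. -/
def IsConvexQuadrilateral (Q : Set (ℝ × ℝ)) : Prop :=
  ∃ a b c d : ℝ × ℝ, ConvexIndependent ℝ ![a, b, c, d] ∧ Q = convexHull ℝ {a, b, c, d}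

/-- `q K`, the infimum of the areas of the convex quadrilaterals containing `K`. -/
noncomputable def q (K : Set (ℝ × ℝ)) : ℝ≥0∞ :=
  ⨅ (Q : Set (ℝ × ℝ)) (_ : IsConvexQuadrilateral Q) (_ : K ⊆ Q), volume Q

/-- There is a constant `c < √2` such that every plane convex set of area one lies in a convex
quadrilateral of area at most `c`; in other words the supremum of `q K` over all plane convex sets
of area one is smaller than `√2`. -/
theorem result :
    (∃ c : ℝ, c < Real.sqrt 2 ∧ ∀ K : Set (ℝ × ℝ), Convex ℝ K → volume K = 1 →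
      ∃ Q : Set (ℝ × ℝ), IsConvexQuadrilateral Q ∧ K ⊆ Q ∧ volume Q ≤ ENNReal.ofReal c) ∧
    (⨆ (K : Set (ℝ × ℝ)) (_ : Convex ℝ K) (_ : volume K = 1), q K) <
      ENNReal.ofReal (Real.sqrt 2) := by
  obtain ⟨t, ht, h⟩ := Q190.KQ.uniform_nondeg
  have key : ∀ K : Set (ℝ × ℝ), Convex ℝ K → volume K = 1 →
      ∃ Q : Set (ℝ × ℝ), IsConvexQuadrilateral Q ∧ K ⊆ Q ∧ volume Q ≤ ENNReal.ofReal t := by
    intro K hK hv
    obtain ⟨a, b, c, d, h1, h2, h3⟩ := h K hK hv
    exact ⟨_, ⟨a, b, c, d, h1, rfl⟩, h2, h3⟩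
  refine ⟨⟨t, ht, key⟩, ?_⟩
  refine lt_of_le_of_lt (b := ENNReal.ofReal t) ?_
    ((ENNReal.ofReal_lt_ofReal_iff (by positivity)).2 ht)
  refine iSup_le fun K => iSup_le fun hK => iSup_le fun hv => ?_
  obtain ⟨Q, h1, h2, h3⟩ := key K hK hv
  unfold q
  exact (iInf_le _ Q).trans ((iInf_le _ h1).trans ((iInf_le _ h2).trans h3))

end Pool.Agent.Results.MP_b29168_gt.QuadrilateralConstant
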