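import Mathlib
import Pool.Agent.Q79.KvL
import Pool.Agent.Q79.KpE

/-!
# The Kashaev invariant does not vanish at almost all levels with `r` prime factors

For every knot `K` (closure of a braid word `w` on `n + 1` strands), every `a` with `⟨K⟩_a ≠ 0` (for
instance `a = 1`), every `Q` and every `r ≥ 2`: among the levels `N = a p_1 ⋯ p_r ≤ x` with distinct
primes `p_i > Q` not dividing `a` at most `C x (log log x)^(r-2) / log x` satisfy `⟨K⟩_N = 0`, and
there are at least `c x (log log x)^(r-1) / log x` such levels.  At all the other ones every Galois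
conjugate of `⟨K⟩_N` has absolute value at least `exp (-137 (n + length w) N (log N)^2)`.

The invariants are defined from the R-matrix of `U_q(sl_2)`, with `v = q^{1/2}` and
`{k} = v^k - v^{-k}`.  The `N`-coloured Jones polynomial `cjones N n w v` of the closure of a braid
word `w` on `n + 1` strands is the entry at the highest weight vector of the partial quantum trace
(over all strands but the first one) of the operator of `w` on the tensor power of the
`N`-dimensional irreducible representation.  The crossings carry the framing correction and the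
unknot has value `1`.  (The same definitions as in `TurkHeadKnots`.)
-/

set_option autoImplicit false

namespace Pool.Agent.Results.MP_b30479_gt.AlmostAllLevels

open Finset Filter

/-! ### The coloured Jones polynomial -/

/-- `{n} = v^n - v^{-n}` -/
noncomputable def br (v : ℂ) (n : ℤ) : ℂ := v ^ n - v ^ (-n)

/-- `{n}! = {1} {2} ⋯ {n}` -/
noncomputable def brf (v : ℂ) (n : ℕ) : ℂ := ∏ j ∈ range n, br v ((j : ℤ) + 1)

/-- The positive crossing: the R-matrix of `U_q(sl_2)` on `V_N ⊗ V_N`, `V_N` with basis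
`e_0, …, e_{N-1}`, times the framing factor `v^{-(N^2-1)/2}`; `crossP N v p q` is the coefficient
of `e_{p.1} ⊗ e_{p.2}` in the image of `e_{q.1} ⊗ e_{q.2}`:
`e_i ⊗ e_j ↦ ∑_n v^{-(N-1)(1+i+j) + 2(i-n)(j+n) + n(n-1)/2}
({j+n}! / ({j}! {n}!)) ∏_{t<n} {N-i+t} e_{j+n} ⊗ e_{i-n}`. -/
noncomputable def crossP (N : ℕ) (v : ℂ) : Matrix (Fin N × Fin N) (Fin N × Fin N) ℂ :=
  fun p q => if (p.1 : ℕ) + p.2 = q.1 + q.2 ∧ (q.2 : ℕ) ≤ p.1 then
    v ^ (-((N : ℤ) - 1) * (1 + (q.1 : ℕ) + (q.2 : ℕ)) + 2 * (p.1 : ℕ) * (p.2 : ℕ)) *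
      v ^ (((p.1 : ℕ) - q.2) * ((p.1 : ℕ) - q.2 - 1) / 2) *
      (brf v p.1 / (brf v q.2 * brf v ((p.1 : ℕ) - q.2))) *
      ∏ t ∈ range ((p.1 : ℕ) - q.2), br v ((N : ℤ) - (q.1 : ℕ) + t)
    else 0

/-- The negative crossing, inverse of `crossP N v`:
`e_i ⊗ e_j ↦ ∑_n (-1)^n v^{(N-1)(1+i+j) - 2ij - n(n-1)/2}
({i+n}! / ({i}! {n}!)) ∏_{t<n} {N-j+t} e_{j-n} ⊗ e_{i+n}`. -/
noncomputable def crossN (N : ℕ) (v : ℂ) : Matrix (Fin N × Fin N) (Fin N × Fin N) ℂ :=
  fun p q => if (p.1 : ℕ) + p.2 = q.1 + q.2 ∧ (q.1 : ℕ) ≤ p.2 then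
    (-1) ^ ((p.2 : ℕ) - q.1) *
      v ^ (((N : ℤ) - 1) * (1 + (q.1 : ℕ) + (q.2 : ℕ)) - 2 * (q.1 : ℕ) * (q.2 : ℕ)) /
      v ^ (((p.2 : ℕ) - q.1) * ((p.2 : ℕ) - q.1 - 1) / 2) *
      (brf v p.2 / (brf v q.1 * brf v ((p.2 : ℕ) - q.1))) *
      ∏ t ∈ range ((p.2 : ℕ) - q.1), br v ((N : ℤ) - (q.2 : ℕ) + t)
    else 0

/-- The braid generator `s_k` on `n` strands (it acts on the strands number `k` and `k + 1`,
counted from `0`) by the crossing matrix `A`. -/
def gen {ι : Type} [DecidableEq ι] (A : Matrix (ι × ι) (ι × ι) ℂ) (n k : ℕ) :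
    Matrix (Fin n → ι) (Fin n → ι) ℂ :=
  fun s t => if h : k + 1 < n then
    (if ∀ j : Fin n, (j : ℕ) ≠ k → (j : ℕ) ≠ k + 1 → s j = t j then
      A (s ⟨k, by omega⟩, s ⟨k + 1, h⟩) (t ⟨k, by omega⟩, t ⟨k + 1, h⟩) else 0)
    else (if s = t then 1 else 0)

/-- The operator of a braid word on `n` strands: the letter `(k, true)` is `s_k`, the letter
`(k, false)` is its inverse; `P` and `Q` are the matrices of the two crossings. -/
def rep {ι : Type} [Fintype ι] [DecidableEq ι] (P Q : Matrix (ι × ι) (ι × ι) ℂ) (n : ℕ)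
    (w : List (ℕ × Bool)) : Matrix (Fin n → ι) (Fin n → ι) ℂ :=
  (w.map fun g => gen (if g.2 then P else Q) n g.1).prod

/-- The partial trace over all strands but the first one, with weights `k`; `n + 1` strands. -/
def tail {ι : Type} [Fintype ι] (k : ι → ℂ) (n : ℕ)
    (A : Matrix (Fin (n + 1) → ι) (Fin (n + 1) → ι) ℂ) : Matrix ι ι ℂ :=
  fun i j => ∑ s : Fin n → ι, (∏ x, k (s x)) * A (Fin.cons i s) (Fin.cons j s)

/-- The `N`-coloured Jones polynomial (unknot `= 1`) of the closure of the braid word `w` on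
`n + 1` strands, at `q = v^2`: the entry at the highest weight vector `e_0` of the partial quantum
trace, with the weights `v^{N-1-2x}` of `K`. -/
noncomputable def cjones (N n : ℕ) (w : List (ℕ × Bool)) (v : ℂ) : ℂ :=
  if h : 0 < N then
    tail (fun x : Fin N => v ^ ((N : ℤ) - 1 - 2 * (x : ℕ))) n
      (rep (crossP N v) (crossN N v) (n + 1) w) ⟨0, h⟩ ⟨0, h⟩ else 0

/-- `v_N = exp (π i / N)`, so that `q = v_N^2 = exp (2 π i / N)`. -/
noncomputable def root (N : ℕ) : ℂ := Complex.exp (Real.pi * Complex.I / N)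

/-- The Kashaev invariant of the closure of the braid word `w` on `n + 1` strands. -/
noncomputable def kashaev (n : ℕ) (w : List (ℕ × Bool)) (N : ℕ) : ℂ := cjones N n w (root N)

/-! ### Knots -/

/-- The permutation of a braid word on `n` strands. -/
def permOf (n : ℕ) (w : List (ℕ × Bool)) : Equiv.Perm (Fin n) :=
  (w.map fun g => if h : g.1 + 1 < n then
    Equiv.swap (⟨g.1, by omega⟩ : Fin n) ⟨g.1 + 1, h⟩ else 1).prod

/-- `w` is a braid word on `n + 1` strands and its closure is a knot: the permutation is one cycle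
through all strands. -/
def IsKnot (n : ℕ) (w : List (ℕ × Bool)) : Prop :=
  (∀ g ∈ w, g.1 < n) ∧ ∀ x : Fin (n + 1), ∃ k : ℕ, (permOf (n + 1) w ^ k) 0 = x

/-! ### The link to the helper files -/

theorem cjones_eq (M n : ℕ) (w : List (ℕ × Bool)) (v : ℂ) :
    cjones M n w v = Pool.Agent.Q79.KV.cjones M n w v := rfl

theorem isKnot_iff (n : ℕ) (w : List (ℕ × Bool)) :
    IsKnot n w ↔ Pool.Agent.Q79.KV.IsKnot n w := Iff.rfl

theorem root_prim {N : ℕ} (hN : 0 < N) : IsPrimitiveRoot (root N) (2 * N) := by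
  have h := Complex.isPrimitiveRoot_exp (2 * N) (by omega)
  have e : Complex.exp (2 * Real.pi * Complex.I / ((2 * N : ℕ) : ℂ)) = root N := by
    unfold root
    congr 1
    have : (N : ℂ) ≠ 0 := by exact_mod_cast hN.ne'
    push_cast
    field_simp
  rw [e] at h
  exact h

theorem kashaev_ne {n : ℕ} {w : List (ℕ × Bool)} {N : ℕ} (hN : 0 < N)
    (h : ∀ v, IsPrimitiveRoot v (2 * N) → cjones N n w v ≠ 0) : kashaev n w N ≠ 0 :=
  h _ (root_prim hN)

/-- All the Galois conjugates `J_N(K; v^2)` (`v` runs over the primitive `2N`-th roots of unity) of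
the Kashaev invariant `⟨K⟩_N` are at least `exp (-137 (n + length w) N (log N)^2)` in absolute
value. -/
def Regular (n : ℕ) (w : List (ℕ × Bool)) (N : ℕ) : Prop :=
  ∀ v : ℂ, IsPrimitiveRoot v (2 * N) →
    Real.exp (-(137 * (n + w.length) * N * (Real.log N) ^ 2)) ≤ ‖cjones N n w v‖

/-- The levels `N ≤ x` of the form `N = a p_1 ⋯ p_r` with distinct primes `p_i > Q` which do not
divide `a` (for `a = Q = 1`: the square-free numbers with `r` prime factors). -/
noncomputable def levels (a Q r x : ℕ) : Finset ℕ := by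
  classical exact (Finset.Icc 1 x).filter (fun N => ∃ m, N = a * m ∧ Squarefree m ∧
    m.primeFactors.card = r ∧ ∀ p ∈ m.primeFactors, Q < p ∧ ¬ p ∣ a)

theorem levels_eq (a Q r x : ℕ) : levels a Q r x = Pool.Agent.Q79.KP.lev a Q r x := rfl

/-- At a level where the Kashaev invariant is not zero all its conjugates are bounded below. -/
theorem regular_of {N n : ℕ} {w : List (ℕ × Bool)} (hw : IsKnot n w) (hN : 0 < N)
    (h : ∀ v, IsPrimitiveRoot v (2 * N) → cjones N n w v ≠ 0) : Regular n w N := by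
  intro v hv
  rcases Nat.lt_or_ge N 2 with h1 | h1
  · have h2 : N = 1 := by omega
    subst h2
    have h3 : ‖Pool.Agent.Q79.KV.cjones 1 n w v‖ = 1 := Pool.Agent.Q79.KV.level_one hw hv
    change _ ≤ ‖Pool.Agent.Q79.KV.cjones 1 n w v‖
    rw [h3]
    simp
  · have h2 : 0 ≤ ∑ v ∈ primitiveRoots (2 * N) ℂ,
        Real.log ‖Pool.Agent.Q79.KV.cjones N n w v‖ := by
      rcases Pool.Agent.Q79.KV.dichotomy h1 (by omega) (le_refl N) n w with h1' | h1'
      · exact absurd (h1' _ (root_prim (by omega))) (h _ (root_prim (by omega)))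
      · exact h1'.2
    exact Pool.Agent.Q79.KV.low_of h1 (by omega) le_rfl n w h2 hv (h v hv)

theorem all_ne_of {N n : ℕ} {w : List (ℕ × Bool)} (hN : 0 < N) (h : kashaev n w N ≠ 0) :
    ∀ v, IsPrimitiveRoot v (2 * N) → cjones N n w v ≠ 0 := by
  intro v hv h0
  obtain ⟨P, hP⟩ := Pool.Agent.Q79.KV.exists_poly N n w (m := 2 * N) (by omega)
  have h0' : Pool.Agent.Q79.KV.cjones N n w v = 0 := h0
  rw [Pool.Agent.Q79.KV.cjones_eq_aeval hN le_rfl hP hv] at h0'
  have h1 : Pool.Agent.Q79.KV.cjones N n w (root N) ≠ 0 := h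
  rw [Pool.Agent.Q79.KV.cjones_eq_aeval hN le_rfl hP (root_prim hN)] at h1
  exact Pool.Agent.Q79.KV.all_ne (by omega) (root_prim hN) h1 hv h0'

/-- **The Kashaev invariant does not vanish at almost all levels with `r` prime factors.**  Let the
closure of the braid word `w` on `n + 1` strands be a knot `K`.  Let `a ≥ 1` with `⟨K⟩_a ≠ 0` (for
instance `a = 1`, since `⟨K⟩_1 ≠ 0`; or `a = p^k` with a prime `p`), `Q ≥ 0`, and `r = s + 2 ≥ 2`.
There are constants `C` and `c > 0` such that for all large `x`, among the levels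
`N = a p_1 ⋯ p_r ≤ x` (distinct primes `p_i > Q` not dividing `a`), of which there are at least
`c x (log log x)^(r-1) / log x`, all but at most `C x (log log x)^(r-2) / log x` are regular:
`⟨K⟩_N ≠ 0` and `|J_N(K; v^2)| ≥ exp (-137 (n + length w) N (log N)^2)` for every primitive
`2N`-th root of unity `v`.  In particular the proportion of the levels which are not regular, or
where `⟨K⟩_N = 0`, tends to `0`. -/
theorem result (n : ℕ) (w : List (ℕ × Bool)) (hw : IsKnot n w) :
    (∀ p k : ℕ, p.Prime → kashaev n w (p ^ k) ≠ 0) ∧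
    (∀ N : ℕ, 1 ≤ N → (Regular n w N ↔ kashaev n w N ≠ 0)) ∧
    ∀ a : ℕ, 1 ≤ a → kashaev n w a ≠ 0 → ∀ Q s : ℕ, ∃ C c : ℝ, 0 < c ∧
      (∀ᶠ x : ℕ in atTop,
        (Nat.card {N // N ∈ levels a Q (s + 2) x ∧ ¬ Regular n w N} : ℝ) ≤
          C * x * Real.log (Real.log x) ^ s / Real.log x ∧
        c * x * Real.log (Real.log x) ^ (s + 1) / Real.log x ≤
          ((levels a Q (s + 2) x).card : ℝ)) ∧
      Tendsto (fun x : ℕ =>
        (Nat.card {N // N ∈ levels a Q (s + 2) x ∧ ¬ Regular n w N} : ℝ) /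
          (levels a Q (s + 2) x).card) atTop (nhds 0) := by
  classical
  have hreg : ∀ N : ℕ, 1 ≤ N → (Regular n w N ↔ kashaev n w N ≠ 0) := by
    intro N hN
    constructor
    · intro h h0
      have h1 := h _ (root_prim hN)
      have h2 : cjones N n w (root N) = 0 := h0
      rw [h2, norm_zero] at h1
      exact absurd h1 (not_le.2 (Real.exp_pos _))
    · intro h
      exact regular_of hw hN (all_ne_of hN h)
  -- the integers attached to the levels
  have hex : ∀ m : ℕ, 0 < m → ∃ z : ℕ,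
      (z : ℝ) = ∏ v ∈ primitiveRoots (2 * m) ℂ, ‖Pool.Agent.Q79.KV.cjones m n w v‖ ∧
      ∀ p k : ℕ, p.Prime → 0 < k → ¬ p ∣ m * z →
        ∀ v : ℂ, IsPrimitiveRoot v (2 * (m * p ^ k)) →
          Pool.Agent.Q79.KV.cjones (m * p ^ k) n w v ≠ 0 :=
    fun m hm => Pool.Agent.Q79.KV.exists_level hm hw
  refine ⟨?_, hreg, ?_⟩
  · intro p k hp
    rcases Nat.eq_zero_or_pos k with hk | hk
    · subst hk
      rw [pow_zero]
      intro h0
      have h1 : ‖Pool.Agent.Q79.KV.cjones 1 n w (root 1)‖ = 1 :=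
        Pool.Agent.Q79.KV.level_one hw (root_prim one_pos)
      have h2 : Pool.Agent.Q79.KV.cjones 1 n w (root 1) = 0 := h0
      rw [h2, norm_zero] at h1
      norm_num at h1
    · obtain ⟨z, hz, hst⟩ := hex 1 one_pos
      rw [Pool.Agent.Q79.KV.prod_level_one hw] at hz
      have hz1 : z = 1 := by exact_mod_cast hz
      subst hz1
      have h1 : ¬ p ∣ 1 * 1 := by
        rw [mul_one]
        exact hp.one_lt.ne' ∘ Nat.dvd_one.1
      have h2 := hst p k hp hk h1
      rw [one_mul] at h2
      exact kashaev_ne (pow_pos hp.pos k) h2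
  · intro a ha hka Q s
    choose! z hz hst using hex
    have hGa : ∀ v, IsPrimitiveRoot v (2 * a) → cjones a n w v ≠ 0 := all_ne_of ha hka
    have hz0 : ∀ m, 0 < m → (∀ v, IsPrimitiveRoot v (2 * m) → cjones m n w v ≠ 0) →
        z m ≠ 0 := by
      intro m hm hg h0
      have h1 := hz m hm
      rw [h0, Nat.cast_zero, eq_comm, Finset.prod_eq_zero_iff] at h1
      obtain ⟨v, hv, h2⟩ := h1
      rw [mem_primitiveRoots (by omega)] at hv
      rw [norm_eq_zero] at h2
      exact hg v hv h2
    have hl2 : 0 < Real.log 2 := Real.log_pos (by norm_num)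
    obtain ⟨C, c, hc, hmain⟩ := Pool.Agent.Q79.KP.main (a := a) ha
      (fun N => ∀ v, IsPrimitiveRoot v (2 * N) → cjones N n w v ≠ 0) hGa
      (B := 137 * (n + w.length) * 4 / Real.log 2) (by positivity)
      (fun m => (z m).primeFactors)
      (by
        intro m hm hg
        have h1 := Pool.Agent.Q79.KV.prod_le hm hw
        rw [← hz m hm] at h1
        refine (Pool.Agent.Q79.KV.card_primeFactors_le (z m) (by positivity) h1).trans ?_
        have hmR : (1 : ℝ) ≤ m := by exact_mod_cast hm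
        have hm0 : (0 : ℝ) < m := by linarith
        have hs0 : 0 < Real.sqrt m := Real.sqrt_pos.2 hm0
        have h2 : Real.log m ≤ 2 * Real.sqrt m := by
          have h3 : Real.log (Real.sqrt m) = Real.log m / 2 := Real.log_sqrt hm0.le
          have h4 := Real.log_le_sub_one_of_pos hs0
          linarith
        have h3 : (Real.log m) ^ 2 ≤ 4 * m := by
          calc (Real.log m) ^ 2 ≤ (2 * Real.sqrt m) ^ 2 :=
                pow_le_pow_left₀ (Real.log_nonneg hmR) h2 2
            _ = 4 * m := by rw [mul_pow, Real.sq_sqrt hm0.le]; norm_num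
        calc 137 * ((n : ℝ) + w.length) * m * (Real.log m) ^ 2 / Real.log 2
            ≤ 137 * ((n : ℝ) + w.length) * m * (4 * m) / Real.log 2 := by gcongr
          _ = 137 * (n + w.length) * 4 / Real.log 2 * (m : ℝ) ^ 2 := by ring)
      (by
        intro m p hm hg hp hpm hpE
        have h1 : ¬ p ∣ m * z m := by
          rw [hp.dvd_mul, not_or]
          exact ⟨hpm, fun h => hpE (Nat.mem_primeFactors.2 ⟨hp, h, hz0 m hm hg⟩)⟩
        have h2 := hst m hm p 1 hp one_pos h1
        rw [pow_one] at h2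
        exact h2)
      Q s
    have hcardeq : ∀ x : ℕ,
        (Nat.card {N // N ∈ levels a Q (s + 2) x ∧ ¬ Regular n w N} : ℝ) =
        (((Pool.Agent.Q79.KP.lev a Q (s + 2) x).filter (fun N =>
          ¬ ∀ v, IsPrimitiveRoot v (2 * N) → cjones N n w v ≠ 0)).card : ℝ) := by
      intro x
      rw [← levels_eq, ← Nat.card_eq_finsetCard]
      congr 1
      apply Nat.card_congr
      apply Equiv.subtypeEquivRight
      intro N
      rw [Finset.mem_filter]
      constructor
      · rintro ⟨h1, h2⟩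
        refine ⟨h1, fun h3 => h2 ?_⟩
        exact regular_of hw (Pool.Agent.Q79.KP.mem_lev.1 h1).1.1 h3
      · rintro ⟨h1, h2⟩
        refine ⟨h1, fun h3 => h2 ?_⟩
        exact all_ne_of (Pool.Agent.Q79.KP.mem_lev.1 h1).1.1
          ((hreg N (Pool.Agent.Q79.KP.mem_lev.1 h1).1.1).1 h3)
    have hev : ∀ᶠ x : ℕ in atTop,
        (Nat.card {N // N ∈ levels a Q (s + 2) x ∧ ¬ Regular n w N} : ℝ) ≤
          C * x * Real.log (Real.log x) ^ s / Real.log x ∧
        c * x * Real.log (Real.log x) ^ (s + 1) / Real.log x ≤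
          ((levels a Q (s + 2) x).card : ℝ) := by
      filter_upwards [hmain] with x hx
      rw [hcardeq]
      exact hx
    refine ⟨C, c, hc, hev, ?_⟩
    have hT : Tendsto (fun x : ℕ => Real.log (Real.log x)) atTop atTop :=
      Real.tendsto_log_atTop.comp (Real.tendsto_log_atTop.comp tendsto_natCast_atTop_atTop)
    have hlim : Tendsto (fun x : ℕ => (C / c) / Real.log (Real.log x)) atTop (nhds 0) :=
      Tendsto.div_atTop tendsto_const_nhds hT
    apply squeeze_zero' _ _ hlim
    · exact Eventually.of_forall (fun x => by positivity)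
    · filter_upwards [hev, eventually_ge_atTop 3, hT.eventually_ge_atTop 1] with x hx h3 h1
      have hlx : 0 < Real.log x := Real.log_pos (by exact_mod_cast (by omega : 1 < x))
      have hx0 : (0 : ℝ) < x := by exact_mod_cast (by omega : 0 < x)
      have hLL : 0 < Real.log (Real.log x) := by linarith
      have h4 : 0 < c * x * Real.log (Real.log x) ^ (s + 1) / Real.log x := by positivity
      have h5 : 0 < ((levels a Q (s + 2) x).card : ℝ) := h4.trans_le hx.2
      have hnum : 0 ≤ C * x * Real.log (Real.log x) ^ s / Real.log x := by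
        refine le_trans ?_ hx.1
        positivity
      calc (Nat.card {N // N ∈ levels a Q (s + 2) x ∧ ¬ Regular n w N} : ℝ) /
            (levels a Q (s + 2) x).card
          ≤ (C * x * Real.log (Real.log x) ^ s / Real.log x) /
            (levels a Q (s + 2) x).card := div_le_div_of_nonneg_right hx.1 h5.le
        _ ≤ (C * x * Real.log (Real.log x) ^ s / Real.log x) /
            (c * x * Real.log (Real.log x) ^ (s + 1) / Real.log x) :=
            div_le_div_of_nonneg_left hnum h4 hx.2
        _ = C / c / Real.log (Real.log x) := by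
            rw [pow_succ]
            field_simp

end Pool.Agent.Results.MP_b30479_gt.AlmostAllLevels
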