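import Mathlib
import Pool.Agent.Q79.KrF
import Pool.Agent.Q79.KX.SysD
import Pool.Agent.Q79.KX.EvC

/-!
# The Kashaev invariants at the levels `m r`, `r` a prime power, for every `m`

For every knot `K` and EVERY `m ≥ 1` (no assumption on `⟨K⟩_m`): `⟨K⟩_{mr} ≠ 0` for all prime powers
`r` outside a finite set `E` with `∑_{r ∈ E} Λ(r) ≤ (C log (m + 2))^{5 (ω(m) + 1)}`, where `ω(m)` is the
number of prime factors of `m`; the same for the values of every polynomial in `q` and the Kashaev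
invariants of several knots and their complex conjugates, unless it vanishes at all levels.

The invariants are defined from the R-matrix of `U_q(sl_2)`, with `v = q^{1/2}` and
`{k} = v^k - v^{-k}`.  The `N`-coloured Jones polynomial `cjones N n w v` of the closure of a braid
word `w` on `n + 1` strands is the entry at the highest weight vector of the partial quantum trace
(over all strands but the first one) of the operator of `w` on the tensor power of the
`N`-dimensional irreducible representation.  The crossings carry the framing correction and the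
unknot has value `1`.  (The same definitions as in `TurkHeadKnots`.)
-/

set_option autoImplicit false

namespace Pool.Agent.Results.MP_b30479_gt.EveryLevel

open Finset

/-! ### The coloured Jones polynomial -/

/-- `{n} = v^n - v^{-n}` -/
noncomputable def br (v : ℂ) (n : ℤ) : ℂ := v ^ n - v ^ (-n)

/-- `{n}! = {1} {2} ⋯ {n}` -/
noncomputable def brf (v : ℂ) (n : ℕ) : ℂ := ∏ j ∈ range n, br v ((j : ℤ) + 1)

/-- The positive crossing: the R-matrix of `U_q(sl_2)` on `V_N ⊗ V_N`, `V_N` with basis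
`e_0, …, e_{N-1}`, times the framing factor `v^{-(N^2-1)/2}`; `crossP N v p q` is the coefficient
of `e_{p.1} ⊗ e_{p.2}` in the image of `e_{q.1} ⊗ e_{q.2}`:
`e_i ⊗ e_j ↦ ∑_n v^{-(N-1)(1+i+j) + 2(i-n)(j+n) + n(n-1)/2}
({j+n}! / ({j}! {n}!)) ∏_{t<n} {N-i+t} e_{j+n} ⊗ e_{i-n}`. -/
noncomputable def crossP (N : ℕ) (v : ℂ) : Matrix (Fin N × Fin N) (Fin N × Fin N) ℂ :=
  fun p q => if (p.1 : ℕ) + p.2 = q.1 + q.2 ∧ (q.2 : ℕ) ≤ p.1 then
    v ^ (-((N : ℤ) - 1) * (1 + (q.1 : ℕ) + (q.2 : ℕ)) + 2 * (p.1 : ℕ) * (p.2 : ℕ)) *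
      v ^ (((p.1 : ℕ) - q.2) * ((p.1 : ℕ) - q.2 - 1) / 2) *
      (brf v p.1 / (brf v q.2 * brf v ((p.1 : ℕ) - q.2))) *
      ∏ t ∈ range ((p.1 : ℕ) - q.2), br v ((N : ℤ) - (q.1 : ℕ) + t)
    else 0

/-- The negative crossing, inverse of `crossP N v`:
`e_i ⊗ e_j ↦ ∑_n (-1)^n v^{(N-1)(1+i+j) - 2ij - n(n-1)/2}
({i+n}! / ({i}! {n}!)) ∏_{t<n} {N-j+t} e_{j-n} ⊗ e_{i+n}`. -/
noncomputable def crossN (N : ℕ) (v : ℂ) : Matrix (Fin N × Fin N) (Fin N × Fin N) ℂ :=
  fun p q => if (p.1 : ℕ) + p.2 = q.1 + q.2 ∧ (q.1 : ℕ) ≤ p.2 then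
    (-1) ^ ((p.2 : ℕ) - q.1) *
      v ^ (((N : ℤ) - 1) * (1 + (q.1 : ℕ) + (q.2 : ℕ)) - 2 * (q.1 : ℕ) * (q.2 : ℕ)) /
      v ^ (((p.2 : ℕ) - q.1) * ((p.2 : ℕ) - q.1 - 1) / 2) *
      (brf v p.2 / (brf v q.1 * brf v ((p.2 : ℕ) - q.1))) *
      ∏ t ∈ range ((p.2 : ℕ) - q.1), br v ((N : ℤ) - (q.2 : ℕ) + t)
    else 0

/-- The braid generator `s_k` on `n` strands (it acts on the strands number `k` and `k + 1`,
counted from `0`) by the crossing matrix `A`. -/
def gen {ι : Type} [DecidableEq ι] (A : Matrix (ι × ι) (ι × ι) ℂ) (n k : ℕ) :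
    Matrix (Fin n → ι) (Fin n → ι) ℂ :=
  fun s t => if h : k + 1 < n then
    (if ∀ j : Fin n, (j : ℕ) ≠ k → (j : ℕ) ≠ k + 1 → s j = t j then
      A (s ⟨k, by omega⟩, s ⟨k + 1, h⟩) (t ⟨k, by omega⟩, t ⟨k + 1, h⟩) else 0)
    else (if s = t then 1 else 0)

/-- The operator of a braid word on `n` strands: the letter `(k, true)` is `s_k`, the letter
`(k, false)` is its inverse; `P` and `Q` are the matrices of the two crossings. -/
def rep {ι : Type} [Fintype ι] [DecidableEq ι] (P Q : Matrix (ι × ι) (ι × ι) ℂ) (n : ℕ)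
    (w : List (ℕ × Bool)) : Matrix (Fin n → ι) (Fin n → ι) ℂ :=
  (w.map fun g => gen (if g.2 then P else Q) n g.1).prod

/-- The partial trace over all strands but the first one, with weights `k`; `n + 1` strands. -/
def tail {ι : Type} [Fintype ι] (k : ι → ℂ) (n : ℕ)
    (A : Matrix (Fin (n + 1) → ι) (Fin (n + 1) → ι) ℂ) : Matrix ι ι ℂ :=
  fun i j => ∑ s : Fin n → ι, (∏ x, k (s x)) * A (Fin.cons i s) (Fin.cons j s)

/-- The `N`-coloured Jones polynomial (unknot `= 1`) of the closure of the braid word `w` on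
`n + 1` strands, at `q = v^2`: the entry at the highest weight vector `e_0` of the partial quantum
trace, with the weights `v^{N-1-2x}` of `K`. -/
noncomputable def cjones (N n : ℕ) (w : List (ℕ × Bool)) (v : ℂ) : ℂ :=
  if h : 0 < N then
    tail (fun x : Fin N => v ^ ((N : ℤ) - 1 - 2 * (x : ℕ))) n
      (rep (crossP N v) (crossN N v) (n + 1) w) ⟨0, h⟩ ⟨0, h⟩ else 0

/-- `v_N = exp (π i / N)`, so that `q = v_N^2 = exp (2 π i / N)`. -/
noncomputable def root (N : ℕ) : ℂ := Complex.exp (Real.pi * Complex.I / N)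

/-- The Kashaev invariant of the closure of the braid word `w` on `n + 1` strands. -/
noncomputable def kashaev (n : ℕ) (w : List (ℕ × Bool)) (N : ℕ) : ℂ := cjones N n w (root N)

/-! ### Knots -/

/-- The permutation of a braid word on `n` strands. -/
def permOf (n : ℕ) (w : List (ℕ × Bool)) : Equiv.Perm (Fin n) :=
  (w.map fun g => if h : g.1 + 1 < n then
    Equiv.swap (⟨g.1, by omega⟩ : Fin n) ⟨g.1 + 1, h⟩ else 1).prod

/-- `w` is a braid word on `n + 1` strands and its closure is a knot: the permutation is one cycle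
through all strands. -/
def IsKnot (n : ℕ) (w : List (ℕ × Bool)) : Prop :=
  (∀ g ∈ w, g.1 < n) ∧ ∀ x : Fin (n + 1), ∃ k : ℕ, (permOf (n + 1) w ^ k) 0 = x

/-! ### The link to the helper files -/

theorem cjones_eq (M n : ℕ) (w : List (ℕ × Bool)) (v : ℂ) :
    cjones M n w v = Pool.Agent.Q79.KV.cjones M n w v := rfl

theorem isKnot_iff (n : ℕ) (w : List (ℕ × Bool)) :
    IsKnot n w ↔ Pool.Agent.Q79.KV.IsKnot n w := Iff.rfl

theorem root_prim {N : ℕ} (hN : 0 < N) : IsPrimitiveRoot (root N) (2 * N) := by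
  have h := Complex.isPrimitiveRoot_exp (2 * N) (by omega)
  have e : Complex.exp (2 * Real.pi * Complex.I / ((2 * N : ℕ) : ℂ)) = root N := by
    unfold root
    congr 1
    have : (N : ℂ) ≠ 0 := by exact_mod_cast hN.ne'
    push_cast
    field_simp
  rw [e] at h
  exact h

theorem kashaev_ne {n : ℕ} {w : List (ℕ × Bool)} {N : ℕ} (hN : 0 < N)
    (h : ∀ v, IsPrimitiveRoot v (2 * N) → cjones N n w v ≠ 0) : kashaev n w N ≠ 0 :=
  h _ (root_prim hN)

/-- All the Galois conjugates `J_N(K; v^2)` (`v` runs over the primitive `2N`-th roots of unity) of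
the Kashaev invariant `⟨K⟩_N` are at least `exp (-137 (n + length w) N (log N)^2)` in absolute
value, and the sum over the conjugates of the `|log |J_N(K; v^2)||` is at most
`274 (n + length w) N (log N)^2`. -/
def Regular (n : ℕ) (w : List (ℕ × Bool)) (N : ℕ) : Prop :=
  (∀ v : ℂ, IsPrimitiveRoot v (2 * N) →
    Real.exp (-(137 * (n + w.length) * N * (Real.log N) ^ 2)) ≤ ‖cjones N n w v‖) ∧
  ∑ v ∈ primitiveRoots (2 * N) ℂ, |Real.log ‖cjones N n w v‖| ≤
    274 * (n + w.length) * N * (Real.log N) ^ 2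

/-- At a level where the Kashaev invariant is not zero all its conjugates are bounded below. -/
theorem regular_of {N n : ℕ} {w : List (ℕ × Bool)} (hw : IsKnot n w) (hN : 0 < N)
    (h : ∀ v, IsPrimitiveRoot v (2 * N) → cjones N n w v ≠ 0) : Regular n w N := by
  rcases Nat.lt_or_ge N 2 with h1 | h1
  · have h2 : N = 1 := by omega
    subst h2
    have h3 : ∀ v : ℂ, IsPrimitiveRoot v (2 * 1) → ‖cjones 1 n w v‖ = 1 := fun v hv =>
      Pool.Agent.Q79.KV.level_one hw hv
    constructor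
    · intro v hv
      rw [h3 v hv]
      simp
    · rw [Finset.sum_eq_zero (fun v hv => by
        rw [h3 v ((mem_primitiveRoots (by norm_num)).1 hv), Real.log_one, abs_zero])]
      simp
  · have h2 : 0 ≤ ∑ v ∈ primitiveRoots (2 * N) ℂ,
        Real.log ‖Pool.Agent.Q79.KV.cjones N n w v‖ := by
      rcases Pool.Agent.Q79.KV.dichotomy h1 (by omega) (le_refl N) n w with h1' | h1'
      · exact absurd (h1' _ (root_prim (by omega))) (h _ (root_prim (by omega)))
      · exact h1'.2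
    exact ⟨fun v hv => Pool.Agent.Q79.KV.low_of h1 (by omega) le_rfl n w h2 hv (h v hv),
      Pool.Agent.Q79.KV.sum_abs_of h1 (by omega) le_rfl n w h2⟩

theorem all_ne_of {N n : ℕ} {w : List (ℕ × Bool)} (hN : 0 < N) (h : kashaev n w N ≠ 0) :
    ∀ v, IsPrimitiveRoot v (2 * N) → cjones N n w v ≠ 0 := by
  intro v hv h0
  obtain ⟨P, hP⟩ := Pool.Agent.Q79.KV.exists_poly N n w (m := 2 * N) (by omega)
  have h0' : Pool.Agent.Q79.KV.cjones N n w v = 0 := h0
  rw [Pool.Agent.Q79.KV.cjones_eq_aeval hN le_rfl hP hv] at h0'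
  have h1 : Pool.Agent.Q79.KV.cjones N n w (root N) ≠ 0 := h
  rw [Pool.Agent.Q79.KV.cjones_eq_aeval hN le_rfl hP (root_prim hN)] at h1
  exact Pool.Agent.Q79.KV.all_ne (by omega) (root_prim hN) h1 hv h0'

/-! ### Polynomial relations -/

/-- The value of the polynomial `P` in `x_1, ..., x_r, y_1, ..., y_r` with coefficients in `ℤ[q]` at
`q = v^2`, `x_j = J_N(K_j; v^2)` and `y_j` the complex conjugate of `x_j`, where `K_j` is the closure of
the braid word `w j` on `n j + 1` strands. -/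
noncomputable def value {r : ℕ} (n : Fin r → ℕ) (w : Fin r → List (ℕ × Bool))
    (P : MvPolynomial (Fin r ⊕ Fin r) (Polynomial ℤ)) (N : ℕ) (v : ℂ) : ℂ :=
  P.eval₂ (Polynomial.eval₂RingHom (Int.castRingHom ℂ) (v ^ 2))
    (Sum.elim (fun j => cjones N (n j) (w j) v) (fun j => star (cjones N (n j) (w j) v)))

/-- the system of truncated state sums of a polynomial relation -/
noncomputable def FP {r : ℕ} (n : Fin r → ℕ) (w : Fin r → List (ℕ × Bool))
    (P : MvPolynomial (Fin r ⊕ Fin r) (Polynomial ℤ)) : Pool.Agent.Q79.KX.Fam := fun L R _ u =>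
  P.eval₂ (Polynomial.eval₂RingHom (Int.castRingHom R) ((u : R) ^ 2))
    (Sum.elim (fun j => Pool.Agent.Q79.KX.G L (n j) (w j) u)
      (fun j => Pool.Agent.Q79.KX.G L (n j) (w j) u⁻¹))

theorem sys_coeff (p : Polynomial ℤ) : Pool.Agent.Q79.KX.IsSys
    (fun _ R _ u => p.eval₂ (Int.castRingHom R) ((u : R) ^ 2)) := by
  induction p using Polynomial.induction_on' with
  | add p q hp hq =>
    simp only [Polynomial.eval₂_add]
    exact hp.add hq
  | monomial k a =>
    simp only [Polynomial.eval₂_monomial]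
    have h1 := (Pool.Agent.Q79.KX.sys_const a).mul (Pool.Agent.Q79.KX.sys_unit ((2 * k : ℕ) : ℤ))
    convert h1 using 5
    rw [zpow_natCast, Units.val_pow_eq_pow_val, pow_mul]
    rfl

theorem sys_FP {r : ℕ} (n : Fin r → ℕ) (w : Fin r → List (ℕ × Bool))
    (hw : ∀ j, IsKnot (n j) (w j)) (P : MvPolynomial (Fin r ⊕ Fin r) (Polynomial ℤ)) :
    Pool.Agent.Q79.KX.IsSys (FP n w P) := by
  unfold FP
  induction P using MvPolynomial.induction_on with
  | C p =>
    simp only [MvPolynomial.eval₂_C, Polynomial.coe_eval₂RingHom]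
    exact sys_coeff p
  | add p q hp hq =>
    simp only [MvPolynomial.eval₂_add]
    exact hp.add hq
  | mul_X p j hp =>
    simp only [MvPolynomial.eval₂_mul, MvPolynomial.eval₂_X]
    rcases j with j | j
    · exact hp.mul (Pool.Agent.Q79.KX.sys_G (hw j))
    · exact hp.mul (Pool.Agent.Q79.KX.sys_G (hw j)).inv

theorem FP_eq {r : ℕ} (n : Fin r → ℕ) (w : Fin r → List (ℕ × Bool))
    (P : MvPolynomial (Fin r ⊕ Fin r) (Polynomial ℤ)) {N : ℕ} (hN : 1 ≤ N) {u : ℂˣ}
    (hu : IsPrimitiveRoot (u : ℂ) (2 * N)) : FP n w P N ℂ u = value n w P N (u : ℂ) := by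
  have hu0 : (u : ℂ) ≠ 0 := u.ne_zero
  have hmk : Units.mk0 (u : ℂ) hu0 = u := Units.ext rfl
  have hp : u ^ N = -1 := Units.ext (by
    rw [Units.val_pow_eq_pow_val, Units.val_neg, Units.val_one]
    exact Pool.Agent.Q79.KX.prim_pow hN hu)
  have hG : ∀ j, Pool.Agent.Q79.KX.G N (n j) (w j) u = cjones N (n j) (w j) (u : ℂ) := by
    intro j
    rw [← Pool.Agent.Q79.KX.cj_G hp, ← hmk]
    exact Pool.Agent.Q79.KV.cj_eq hu0
      (fun k hk hkN => Pool.Agent.Q79.KV.br_ne hu (by omega) hk hkN) (n j) (w j)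
  have hn : ‖(u : ℂ)‖ = 1 := hu.norm'_eq_one (by omega)
  unfold FP value
  congr 1
  funext j
  rcases j with j | j
  · exact hG j
  · change Pool.Agent.Q79.KX.G N (n j) (w j) u⁻¹ = star (cjones N (n j) (w j) (u : ℂ))
    rw [Pool.Agent.Q79.KX.conj_G _ _ _ hn, hG j]
    rfl

/-! ### Towers of levels -/

/-- a set of prime powers with bounded sums of `Λ` is finite -/
theorem exists_E {S : Set ℕ} (hS : ∀ r ∈ S, IsPrimePow r) {B : ℝ}
    (h : ∀ T : Finset ℕ, (∀ r ∈ T, r ∈ S) → ∑ r ∈ T, ArithmeticFunction.vonMangoldt r ≤ B) :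
    ∃ E : Finset ℕ, (∀ r, r ∈ E ↔ r ∈ S) ∧ ∑ r ∈ E, ArithmeticFunction.vonMangoldt r ≤ B := by
  have hlog2 := Real.log_two_gt_d9
  have hlow : ∀ r, IsPrimePow r → (0.69 : ℝ) ≤ ArithmeticFunction.vonMangoldt r := by
    intro r hr
    obtain ⟨p, a, hp, ha, rfl⟩ := (isPrimePow_nat_iff r).1 hr
    rw [ArithmeticFunction.vonMangoldt_apply_pow (by omega),
      ArithmeticFunction.vonMangoldt_apply_prime hp]
    have : Real.log 2 ≤ Real.log p :=
      Real.log_le_log (by norm_num) (by exact_mod_cast hp.two_le)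
    linarith
  have hfin : S.Finite := by
    by_contra hinf
    obtain ⟨k, hk⟩ := exists_nat_gt (B / 0.69)
    obtain ⟨T, hT, hcard⟩ := Set.Infinite.exists_subset_card_eq hinf k
    have h1 := h T (fun r hr => hT hr)
    have h2 : (k : ℝ) * 0.69 ≤ ∑ r ∈ T, ArithmeticFunction.vonMangoldt r := by
      rw [← hcard, ← nsmul_eq_mul, ← Finset.sum_const]
      exact Finset.sum_le_sum (fun r hr => hlow r (hS r (hT hr)))
    rw [div_lt_iff₀ (by norm_num)] at hk
    linarith
  refine ⟨hfin.toFinset, fun r => hfin.mem_toFinset, h _ (fun r hr => hfin.mem_toFinset.1 hr)⟩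

/-- one knot -/
theorem knots {n : ℕ} {w : List (ℕ × Bool)} (hw : IsKnot n w) {m : ℕ} (hm : 1 ≤ m) :
    ∃ E : Finset ℕ, (∀ r ∈ E, IsPrimePow r) ∧
      ∑ r ∈ E, ArithmeticFunction.vonMangoldt r ≤
        (2560 * ((n : ℝ) + w.length + 1) * Real.log ((m : ℝ) + 2)) ^
          (5 * (m.primeFactors.card + 1)) ∧
      ∀ r : ℕ, IsPrimePow r → r ∉ E → kashaev n w (m * r) ≠ 0 ∧ Regular n w (m * r) := by
  obtain ⟨E, h1, h2⟩ := exists_E (S := {r | IsPrimePow r ∧ kashaev n w (m * r) = 0})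
    (fun r hr => hr.1) (fun T hT => Pool.Agent.Q79.KX.knot_tower hw hm T (fun r hr => by
      have h3 : 0 < m * r := Nat.mul_pos hm (hT r hr).1.pos
      exact ⟨h3, root (m * r), root_prim h3, (hT r hr).2⟩))
  refine ⟨E, fun r hr => ((h1 r).1 hr).1, h2, fun r hr hrE => ?_⟩
  have h3 : 0 < m * r := Nat.mul_pos hm hr.pos
  have h4 : kashaev n w (m * r) ≠ 0 := fun h => hrE ((h1 r).2 ⟨hr, h⟩)
  exact ⟨h4, regular_of hw h3 (all_ne_of h3 h4)⟩

/-- polynomial relations -/
theorem relations {k : ℕ} (n : Fin k → ℕ) (w : Fin k → List (ℕ × Bool))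
    (hw : ∀ j, IsKnot (n j) (w j)) (P : MvPolynomial (Fin k ⊕ Fin k) (Polynomial ℤ)) :
    (∀ N : ℕ, 1 ≤ N → ∀ v : ℂ, IsPrimitiveRoot v (2 * N) → value n w P N v = 0) ∨
    ∃ C : ℝ, 1 ≤ C ∧ ∀ m : ℕ, 1 ≤ m → ∃ E : Finset ℕ, (∀ r ∈ E, IsPrimePow r) ∧
      ∑ r ∈ E, ArithmeticFunction.vonMangoldt r ≤
        (C * Real.log ((m : ℝ) + 2)) ^ (5 * (m.primeFactors.card + 1)) ∧
      ∀ r : ℕ, IsPrimePow r → r ∉ E → ∀ v : ℂ, IsPrimitiveRoot v (2 * (m * r)) →
        value n w P (m * r) v ≠ 0 := by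
  have hval : ∀ (N : ℕ) (_ : 1 ≤ N) (v : ℂ) (hv : IsPrimitiveRoot v (2 * N)),
      value n w P N v = FP n w P N ℂ (Units.mk0 v (hv.ne_zero (by omega))) := by
    intro N hN v hv
    have hv0 : v ≠ 0 := hv.ne_zero (by omega)
    have h := FP_eq n w P hN (u := Units.mk0 v hv0) hv
    rw [Units.val_mk0] at h
    exact h.symm
  rcases Pool.Agent.Q79.KX.sys_tower (sys_FP n w hw P) with h | ⟨C, hC, h2⟩
  · left
    intro N hN v hv
    rw [hval N hN v hv]
    exact h N hN _ hv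
  · right
    refine ⟨C, hC, fun m hm => ?_⟩
    obtain ⟨E, h3, h4⟩ := exists_E (S := {r | IsPrimePow r ∧
      Pool.Agent.Q79.KX.SBad (FP n w P) (m * r)}) (fun r hr => hr.1)
      (fun T hT => h2 m hm T (fun r hr => (hT r hr).2))
    refine ⟨E, fun r hr => ((h3 r).1 hr).1, h4, fun r hr hrE v hv h0 => ?_⟩
    apply hrE
    have h5 : 0 < m * r := Nat.mul_pos hm hr.pos
    have hv0 : v ≠ 0 := hv.ne_zero (by omega)
    exact (h3 r).2 ⟨hr, h5, Units.mk0 v hv0, hv, by rw [← hval _ h5 v hv]; exact h0⟩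

/-- **The Kashaev invariants at the levels `m r`, `r` a prime power, for every `m`.**

(1) Let the closure of the braid word `w` on `n + 1` strands be a knot `K`, and let `m ≥ 1`.  There is
a finite set `E` of prime powers with
`∑_{r ∈ E} Λ(r) ≤ (2560 (n + length w + 1) log (m + 2))^{5 (ω(m) + 1)}` such that for all prime powers
`r` not in `E`: `⟨K⟩_{mr} ≠ 0`, and with `N = m r` all `|J_N(K; v^2)|`, `v` a primitive `2N`-th root of
unity, are at least `exp (-137 (n + length w) N (log N)^2)`, and the sum over all these `v` of the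
`|log |J_N(K; v^2)||` is at most `274 (n + length w) N (log N)^2`.

(2) Let the closures of the braid words `w j` on `n j + 1` strands be knots `K_j` (`1 ≤ j ≤ k`), and
let `P` be a polynomial in `x_1, ..., x_k, y_1, ..., y_k` with coefficients in `ℤ[q]`; put
`x_j = J_N(K_j; q)` and let `y_j` be the complex conjugate of `x_j`.  Either `P = 0` for all `N ≥ 1` and
all primitive `N`-th roots of unity `q = v^2`, or there is a `C` such that for every `m ≥ 1` there is a
finite set `E` of prime powers with `∑_{r ∈ E} Λ(r) ≤ (C log (m + 2))^{5 (ω(m) + 1)}` such that `P ≠ 0`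
for `N = m r` and all primitive `N`-th roots of unity `q`, for all prime powers `r` not in `E`. -/
theorem result :
    (∀ (n : ℕ) (w : List (ℕ × Bool)), IsKnot n w → ∀ m : ℕ, 1 ≤ m →
      ∃ E : Finset ℕ, (∀ r ∈ E, IsPrimePow r) ∧
      ∑ r ∈ E, ArithmeticFunction.vonMangoldt r ≤
        (2560 * ((n : ℝ) + w.length + 1) * Real.log ((m : ℝ) + 2)) ^
          (5 * (m.primeFactors.card + 1)) ∧
      ∀ r : ℕ, IsPrimePow r → r ∉ E → kashaev n w (m * r) ≠ 0 ∧ Regular n w (m * r)) ∧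
    (∀ (k : ℕ) (n : Fin k → ℕ) (w : Fin k → List (ℕ × Bool)), (∀ j, IsKnot (n j) (w j)) →
      ∀ P : MvPolynomial (Fin k ⊕ Fin k) (Polynomial ℤ),
      (∀ N : ℕ, 1 ≤ N → ∀ v : ℂ, IsPrimitiveRoot v (2 * N) → value n w P N v = 0) ∨
      ∃ C : ℝ, 1 ≤ C ∧ ∀ m : ℕ, 1 ≤ m → ∃ E : Finset ℕ, (∀ r ∈ E, IsPrimePow r) ∧
        ∑ r ∈ E, ArithmeticFunction.vonMangoldt r ≤
          (C * Real.log ((m : ℝ) + 2)) ^ (5 * (m.primeFactors.card + 1)) ∧
        ∀ r : ℕ, IsPrimePow r → r ∉ E → ∀ v : ℂ, IsPrimitiveRoot v (2 * (m * r)) →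
          value n w P (m * r) v ≠ 0) :=
  ⟨fun _ _ hw _ hm => knots hw hm, fun _ n w hw P => relations n w hw P⟩

end Pool.Agent.Results.MP_b30479_gt.EveryLevel
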