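import Pool.Agent.Q185.HT.Data
import Pool.Agent.Q185.HT.Conv
import Pool.Agent.Q185.HT.Law
import Pool.Agent.Q185.HT.Moments

/-!
# The distribution of the Kashaev invariant over the twist numbers has a power tail of exponent 4

Let `L_A` be the arborescent link of a weighted planar tree with the weight `A` at the root and `c`
the crossing circle of the root.  All the `L_A ∪ c` have the same volume `V` (their complements are
homeomorphic for `A` of the same parity), for fixed `A` the modulus of `J_N(L_A ∪ c)` is of order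
`N^(3/2) e^(N V / (2 π))`, but the typical size over the `A` in an interval is
`N^(5/4) e^(N V / (2 π))`.  We determine the order of the whole tail between these two sizes, it is
`R^(-4)`, and the order of all moments, with a phase transition at the fourth moment.

The definitions (weighted planar trees, the coloured Jones polynomial of the arborescent link of a
tree from the R-matrix of `U_q(sl_2)`, angle structures of its complement and their volume) are in
`Pool.Agent.TH563.UV.Arb`; `twist`, `circ`, `others` are in `Pool.Agent.Q185.HT.Conv`.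
-/

set_option autoImplicit false

namespace Pool.Agent.Results.MP_b30479_gt.HeavyTail

open Finset Filter Topology Pool.Agent.TH563.UV.Arb Pool.Agent.TH563.UB.Arb Pool.Agent.Q185.HT
open Pool.Agent.W719.AX (EXY)
open Pool.Agent.Q99.VC (Pn Zs)

/-- `N^(5/4) e^(N V / (2 π))` -/
noncomputable def typical (V : ℝ) (N : ℕ) : ℝ := (N : ℝ) ^ (5 / 4 : ℝ) * Real.exp (N * V / (2 * Real.pi))

/-- **The distribution of the Kashaev invariant over the twist numbers.**  There is an absolute `M`
such that the following holds for all weighted planar trees `t` without crossing circles whose root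
has at least one neighbour and whose vertices other than the root have weights of absolute value at
least `M`.  The volume functional has the same maximum `V` over the angle structures of all the
`L_A ∪ c` (by Casson and Rivin this is the hyperbolic volume), and there are `c₁, C₁ > 0` such that
for all large `N` (odd or even) and all intervals of `L ≥ 4 N` consecutive integers `A`
(1) `|J_N(L_A ∪ c)| ≤ C₁ N^(3/2) e^(N V / (2 π))` for all `A`;
(2) the number of the `A` with `|J_N(L_A ∪ c)| ≥ R N^(5/4) e^(N V / (2 π))` is at most `C₁ L / R^4`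
for all `R ≥ 1`, and at least `c₁ L / R^4` for `1 ≤ R ≤ c₁ N^(1/4)`;
(3) for every real `p > 0` the mean of the `p`-th powers of
`|J_N(L_A ∪ c)| / (N^(5/4) e^(N V / (2 π)))` is between constant multiples of `1` if `p < 4`, of
`log N` if `p = 4` and of `N^(p/4 - 1)` if `p > 4`. -/
theorem result :
    (∀ (t : Tree) (N : ℕ), ContinuousAt (jones t N) (root N)) ∧
    ∃ M : ℕ, ∀ t : Tree, t.Free → 1 ≤ t.children → (∀ p ∈ others t, (M : ℤ) ≤ |p.2|) →
      ∃ V c₁ C₁ : ℝ, 0 < c₁ ∧ 0 < C₁ ∧
        (∀ A : ℤ, IsGreatest {v : ℝ | ∃ y : AngleTree, y.tree = circ (twist A t) ∧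
          IsAngle y ∧ vol y = v} V) ∧
        (∀ᶠ N : ℕ in atTop, ∀ e f : ℤ,
          (∀ A : ℤ, ‖kashaev e f (circ (twist A t)) N‖ ≤
            C₁ * ((N : ℝ) ^ (3 / 2 : ℝ) * Real.exp (N * V / (2 * Real.pi)))) ∧
          ∀ (B : ℤ) (L : ℕ), 4 * N ≤ L →
            (∀ R : ℝ, 1 ≤ R → (((Finset.Ico B (B + L)).filter fun A =>
              R * typical V N ≤ ‖kashaev e f (circ (twist A t)) N‖).card : ℝ) ≤ C₁ * L / R ^ 4) ∧
            (∀ R : ℝ, 1 ≤ R → R ≤ c₁ * (N : ℝ) ^ (1 / 4 : ℝ) → c₁ * L / R ^ 4 ≤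
              (((Finset.Ico B (B + L)).filter fun A =>
                R * typical V N ≤ ‖kashaev e f (circ (twist A t)) N‖).card : ℝ))) ∧
        ∀ p : ℝ, 0 < p → ∃ c C : ℝ, 0 < c ∧ 0 < C ∧ ∀ᶠ N : ℕ in atTop, ∀ (e f B : ℤ) (L : ℕ),
          4 * N ≤ L →
            c * size p N * L ≤ ∑ A ∈ Finset.Ico B (B + L),
              (‖kashaev e f (circ (twist A t)) N‖ / typical V N) ^ p ∧
            ∑ A ∈ Finset.Ico B (B + L),
              (‖kashaev e f (circ (twist A t)) N‖ / typical V N) ^ p ≤ C * size p N * L := by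
  classical
  have hpi := Real.pi_pos
  refine ⟨fun t N => ?_, ?_⟩
  · rw [jones_to]
    exact Pool.Agent.TH639.J28.cnt _ _
  obtain ⟨K₀, hK₀, hdata⟩ := theta_data'
  obtain ⟨M₁, hM₁⟩ := ub_opt 1 one_pos
  refine ⟨max (max M₁ ⌈K₀⌉₊) 1, fun t hf ht hoth => ?_⟩
  have hoth1 : ∀ p ∈ others t, (M₁ : ℤ) ≤ |p.2| := fun p hp =>
    le_trans (by exact_mod_cast (le_max_left M₁ ⌈K₀⌉₊).trans (le_max_left _ 1)) (hoth p hp)
  have hbelow : (toTb t).Below K₀ := below_of hK₀
    ((Nat.le_ceil K₀).trans (by exact_mod_cast (le_max_right M₁ ⌈K₀⌉₊).trans (le_max_left _ 1)))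
    t hoth
  obtain ⟨F0, ⟨α, β, a, C', hβ, ha, hC', hsums⟩, hcirc⟩ :=
    hdata (toTb t) hbelow (by rw [nc_to]; exact ht)
  obtain ⟨V, hV⟩ : ∃ V : ℝ, V = 2 * Real.pi * F0.re := ⟨_, rfl⟩
  -- the volume with the circle
  have hgc : ∀ A : ℤ, IsGreatest {v : ℝ | ∃ y : AngleTree, y.tree = circ (twist A t) ∧
          IsAngle y ∧ vol y = v} V := by
    intro A
    obtain ⟨y1, hy1, hux1⟩ := hcirc A
    rw [ne_to] at hux1
    obtain ⟨z1, hz1, hE1⟩ := Pool.Agent.Q99.VC.exy_of hy1 hux1 (toTb (twist A t)).ws 1 (c₀ := 1)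
      one_ne_zero
    obtain ⟨φ', hφ', hE1'⟩ := hE1.frame hz1 0 0
    have hE : EXY (kashaev 0 0 (circ (twist A t))) (F0 - Complex.I * Real.pi *
        (toTb (twist A t)).ws / 4 + Real.pi * Complex.I * ((0 : ℤ) + (0 : ℤ))) φ' := by
      refine exy_congr hE1' ?_
      filter_upwards [eventually_ge_atTop 2] with N hN
      unfold kashaev
      rw [jones_circ _ (free_twist _ _ hf) hN, weight_twist, xx_twist]
      unfold CC root
      rw [edges_twist, pow_one, one_mul]
    obtain ⟨-, -, -, hlim, -⟩ := Pool.Agent.W460.AX.rat _ _ φ' hφ' hE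
    obtain ⟨V', hV1, -, hV3, hV4⟩ := hM₁ (circ (twist A t))
      (by rw [children_circ, children_twist]; exact ht)
      (heavy_circ _ (by rw [others_twist]; exact hoth1))
    have hVv := tendsto_nhds_unique (hV4 0 0) hlim
    have e1 : (F0 - Complex.I * Real.pi * (toTb (twist A t)).ws / 4 +
        Real.pi * Complex.I * ((0 : ℤ) + (0 : ℤ))).re = F0.re := by
      have : (Complex.I * Real.pi * (toTb (twist A t)).ws / 4 : ℂ) =
          ((Real.pi * (toTb (twist A t)).ws / 4 : ℝ) : ℂ) * Complex.I := by push_cast; ring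
      rw [this]
      simp
    rw [e1, ← hV] at hVv
    rw [hVv] at hV3
    exact hV3
  -- the law
  obtain ⟨k, hk⟩ : ∃ k : ℝ, k = (1 / (2 * Real.pi)) ^ edges t := ⟨_, rfl⟩
  have hk0 : 0 < k := by rw [hk]; positivity
  obtain ⟨z, hz⟩ : ∃ z : ℕ → ℤ → ℝ, z = fun N A => k * ‖Pn (toTb t).ne F0 N *
    Zs (Pool.Agent.TH563.UV.XX (toTb t)) A N‖ := ⟨_, rfl⟩
  have hz0 : ∀ N A, 0 ≤ z N A := fun N A => by rw [hz]; positivity
  have hzlaw : ∀ᶠ N : ℕ in atTop, ∀ A : ℤ, |z N A - (k * a) * th (lab N) (Pool.Agent.Q99.VC.ta α β N A)| ≤ k * C' := by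
    filter_upwards [hsums] with N hN A
    have e : z N A - (k * a) * th (lab N) (Pool.Agent.Q99.VC.ta α β N A) =
        k * (‖Pn (toTb t).ne F0 N * Zs (Pool.Agent.TH563.UV.XX (toTb t)) A N‖ -
          a * th (lab N) (Pool.Agent.Q99.VC.ta α β N A)) := by
      rw [hz]
      ring
    rw [e, abs_mul, abs_of_pos hk0]
    exact mul_le_mul_of_nonneg_left (hN A) hk0.le
  obtain ⟨c₁, C₁, hc₁, hC₁, hlaw⟩ := law hβ (mul_pos hk0 ha) (mul_pos hk0 hC') hzlaw
  -- the modulus
  have hJ : ∀ N : ℕ, 2 ≤ N → ∀ e f A : ℤ, ‖kashaev e f (circ (twist A t)) N‖ =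
      (N * Real.exp (N * V / (2 * Real.pi))) * z N A := by
    intro N hN e f A
    have hVe : N * V / (2 * Real.pi) = N * F0.re := by rw [hV]; field_simp
    rw [norm_circ t hf A e f hN F0, hVe, hz, ← hk]
    ring
  have hty : ∀ N : ℕ, 2 ≤ N → typical V N = (N * Real.exp (N * V / (2 * Real.pi))) * (N : ℝ) ^ (1 / 4 : ℝ) := by
    intro N hN
    have hN0 : (0 : ℝ) < N := by exact_mod_cast (by omega : 0 < N)
    unfold typical
    rw [show (5 / 4 : ℝ) = 1 + 1 / 4 by norm_num, Real.rpow_add hN0, Real.rpow_one]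
    ring
  have hpos : ∀ N : ℕ, 2 ≤ N → (0 : ℝ) < N * Real.exp (N * V / (2 * Real.pi)) := by
    intro N hN
    have hN0 : (0 : ℝ) < N := by exact_mod_cast (by omega : 0 < N)
    positivity
  have hiff : ∀ N : ℕ, 2 ≤ N → ∀ (R : ℝ) (e f A : ℤ), R * typical V N ≤ ‖kashaev e f (circ (twist A t)) N‖ ↔
      R * (N : ℝ) ^ (1 / 4 : ℝ) ≤ z N A := by
    intro N hN R e f A
    rw [hJ N hN, hty N hN]
    have h1 := hpos N hN
    rw [show R * ((N * Real.exp (N * V / (2 * Real.pi))) * (N : ℝ) ^ (1 / 4 : ℝ)) =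
      (N * Real.exp (N * V / (2 * Real.pi))) * (R * (N : ℝ) ^ (1 / 4 : ℝ)) by ring]
    exact mul_le_mul_iff_right₀ h1
  refine ⟨V, c₁, C₁, hc₁, hC₁, hgc, ?_, ?_⟩
  · filter_upwards [hlaw, eventually_ge_atTop 2] with N h1 hN e f
    have hN0 : (0 : ℝ) < N := by exact_mod_cast (by omega : 0 < N)
    obtain ⟨h2, h3⟩ := h1
    constructor
    · intro A
      rw [hJ N hN]
      have h4 := mul_le_mul_of_nonneg_left (h2 A) (hpos N hN).le
      refine h4.trans (le_of_eq ?_)
      rw [show (3 / 2 : ℝ) = 1 + 1 / 2 by norm_num, Real.rpow_add hN0, Real.rpow_one]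
      ring
    · intro B L hL
      obtain ⟨h4, h5⟩ := h3 B L hL
      constructor
      · intro R hR
        simp only [hiff N hN]
        exact h4 R hR
      · intro R hR hRc
        simp only [hiff N hN]
        exact h5 R hR hRc
  · intro p hp
    obtain ⟨c, C, hc, hC, hmom⟩ := moments hc₁ hC₁ hp
    refine ⟨c, C, hc, hC, ?_⟩
    filter_upwards [hlaw, hmom, eventually_ge_atTop 2] with N h1 h2 hN e f B L hL
    have hN0 : (0 : ℝ) < N := by exact_mod_cast (by omega : 0 < N)
    have hu0 : 0 < (N : ℝ) ^ (1 / 4 : ℝ) := Real.rpow_pos_of_pos hN0 _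
    obtain ⟨h3, h4⟩ := h1
    obtain ⟨h5, h6⟩ := h4 B L hL
    have hcard : ((Finset.Ico B (B + L)).card : ℝ) = L := by
      rw [Int.card_Ico]
      simp
    have hx : ∀ A : ℤ, ‖kashaev e f (circ (twist A t)) N‖ / typical V N = z N A / (N : ℝ) ^ (1 / 4 : ℝ) := by
      intro A
      rw [hJ N hN, hty N hN, mul_div_mul_left _ _ (hpos N hN).ne']
    simp only [hx]
    have h7 := h2 (Finset.Ico B (B + L)) (fun A => z N A / (N : ℝ) ^ (1 / 4 : ℝ))
      (fun A => div_nonneg (hz0 N A) hu0.le) (fun A _ => by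
        rw [div_le_iff₀ hu0]
        refine (h3 A).trans (le_of_eq ?_)
        rw [mul_assoc, ← Real.rpow_add hN0]
        norm_num) (fun R hR => by
        rw [hcard]
        simp only [le_div_iff₀ hu0]
        exact h5 R hR) (fun R hR hRc => by
        rw [hcard]
        simp only [le_div_iff₀ hu0]
        exact h6 R hR hRc)
    rw [hcard] at h7
    exact h7

end Pool.Agent.Results.MP_b30479_gt.HeavyTail
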