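import Pool.Agent.S08183

set_option autoImplicit false

/-!
MP_b446ae_co, question Q1 (Gowers, Erdős): the order of magnitude of `f(n)` is `n ^ 2`.
-/

namespace Pool.Agent.Results.MP_b446ae_co.QuadraticOrder

/-- The plane `ℝ × ℝ`. -/
abbrev Plane := ℝ × ℝ

/-- `N` points force `n` collinear points or `n` points in general position. -/
def Forces (n N : ℕ) : Prop :=
  ∀ P : Finset Plane, P.card = N →
    (∃ S ⊆ P, S.card = n ∧ Collinear ℝ (S : Set Plane)) ∨
    (∃ S ⊆ P, S.card = n ∧ ∀ T ⊆ S, T.card = 3 → ¬ Collinear ℝ (T : Set Plane))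

/-- `f(n)`: the least number of points which forces `n` collinear points or `n` points in general
position. -/
noncomputable def f (n : ℕ) : ℕ := sInf {N | Forces n N}

/-- The upper bound, from the theorem that a planar set of `N` points with at most `√N` of them
on a line contains `c √N` points in general position. -/
lemma upper : ∃ C : ℕ, ∀ n N : ℕ, 1 ≤ n → C * n ^ 2 ≤ N → Forces n N := by
  obtain ⟨c, hc, h⟩ := Pool.Agent.S08183.result
  obtain ⟨C, hC⟩ := exists_nat_ge (max 1 (1 / c ^ 2))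
  have hC1 : (1 : ℝ) ≤ C := (le_max_left _ _).trans hC
  have hC2 : 1 / c ^ 2 ≤ (C : ℝ) := (le_max_right _ _).trans hC
  refine ⟨C, fun n N hn hN P hP => ?_⟩
  have hN' : (C : ℝ) * (n : ℝ) ^ 2 ≤ (P.card : ℝ) := by rw [hP]; exact_mod_cast hN
  have hn0 : (0 : ℝ) ≤ n := Nat.cast_nonneg n
  have h1 : (n : ℝ) ≤ Real.sqrt (P.card : ℝ) := by
    apply Real.le_sqrt_of_sq_le
    nlinarith [sq_nonneg (n : ℝ)]
  have h2 : (n : ℝ) ≤ c * Real.sqrt (P.card : ℝ) := by
    have h3 : (n : ℝ) / c ≤ Real.sqrt (P.card : ℝ) := by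
      apply Real.le_sqrt_of_sq_le
      refine le_trans ?_ hN'
      rw [div_pow, div_eq_mul_one_div, mul_comm]
      exact mul_le_mul_of_nonneg_right hC2 (sq_nonneg _)
    rw [div_le_iff₀ hc] at h3
    linarith
  by_cases hcol : ∀ T ⊆ P, Collinear ℝ (T : Set (ℝ × ℝ)) → (T.card : ℝ) ≤ Real.sqrt (P.card : ℝ)
  · obtain ⟨S, hS, hS1, hS2⟩ := h P hcol
    have h4 : n ≤ S.card := by exact_mod_cast h2.trans hS2
    obtain ⟨S', hS', hc'⟩ := Finset.exists_subset_card_eq h4
    exact Or.inr ⟨S', hS'.trans hS, hc', fun T hT => hS1 T (hT.trans hS')⟩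
  · push Not at hcol
    obtain ⟨T, hT, hT1, hT2⟩ := hcol
    have h4 : n ≤ T.card := by exact_mod_cast h1.trans hT2.le
    obtain ⟨T', hT', hc'⟩ := Finset.exists_subset_card_eq h4
    exact Or.inl ⟨T', hT'.trans hT, hc', hT1.subset (Finset.coe_subset.2 hT')⟩

/-- The grid with `a` rows of `b` points. -/
noncomputable def grid (a b : ℕ) : Finset Plane :=
  (Finset.range a ×ˢ Finset.range b).image fun p => ((p.2 : ℝ), (p.1 : ℝ))

lemma grid_card (a b : ℕ) : (grid a b).card = a * b := by
  rw [grid, Finset.card_image_of_injective, Finset.card_product, Finset.card_range,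
    Finset.card_range]
  rintro ⟨x, y⟩ ⟨z, w⟩ h
  simp only [Prod.mk.injEq, Nat.cast_inj] at h
  exact Prod.ext h.2 h.1

/-- A set of grid points has the form of a set of index pairs. -/
lemma grid_sub (a b : ℕ) (S : Finset Plane) (hS : S ⊆ grid a b) (p : Plane) (hp : p ∈ S) :
    ∃ i < a, ∃ j < b, p = ((j : ℝ), (i : ℝ)) := by
  have := hS hp
  rw [grid, Finset.mem_image] at this
  obtain ⟨⟨i, j⟩, hij, rfl⟩ := this
  rw [Finset.mem_product, Finset.mem_range, Finset.mem_range] at hij
  exact ⟨i, hij.1, j, hij.2, rfl⟩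

/-- A collinear subset of a grid has at most as many points as the longer side. -/
lemma grid_collinear (a b : ℕ) (hab : a ≤ b) (S : Finset Plane) (hS : S ⊆ grid a b)
    (hcol : Collinear ℝ (S : Set Plane)) : S.card ≤ b := by
  classical
  obtain ⟨p₀, v, hv⟩ := (collinear_iff_exists_forall_eq_smul_vadd _).1 hcol
  by_cases h0 : v.1 = 0
  · -- all points have the same first coordinate
    refine le_trans ?_ hab
    have : S.card ≤ (Finset.range a).card := by
      refine Finset.card_le_card_of_forall_subsingleton (fun (p : Plane) (i : ℕ) => p.2 = (i : ℝ)) ?_ ?_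
      · intro p hp
        obtain ⟨i, hi, j, hj, rfl⟩ := grid_sub a b S hS p hp
        exact ⟨i, Finset.mem_range.2 hi, rfl⟩
      · rintro i - p ⟨hp, hp2⟩ q ⟨hq, hq2⟩
        obtain ⟨r, hr⟩ := hv p hp
        obtain ⟨s, hs⟩ := hv q hq
        apply Prod.ext
        · rw [hr, hs]
          simp [h0]
        · rw [hp2, hq2]
    rwa [Finset.card_range] at this
  · have : S.card ≤ (Finset.range b).card := by
      refine Finset.card_le_card_of_forall_subsingleton (fun (p : Plane) (j : ℕ) => p.1 = (j : ℝ)) ?_ ?_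
      · intro p hp
        obtain ⟨i, hi, j, hj, rfl⟩ := grid_sub a b S hS p hp
        exact ⟨j, Finset.mem_range.2 hj, rfl⟩
      · rintro j - p ⟨hp, hp2⟩ q ⟨hq, hq2⟩
        obtain ⟨r, hr⟩ := hv p hp
        obtain ⟨s, hs⟩ := hv q hq
        have e : p.1 = q.1 := by rw [hp2, hq2]
        rw [hr, hs] at e
        simp only [vadd_eq_add, Prod.fst_add, Prod.smul_fst, smul_eq_mul, add_left_inj] at e
        have := mul_right_cancel₀ h0 e
        rw [hr, hs, this]
    rwa [Finset.card_range] at this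

/-- A subset in general position of a grid has at most two points in every row. -/
lemma grid_general (a b : ℕ) (S : Finset Plane) (hS : S ⊆ grid a b)
    (hgen : ∀ T ⊆ S, T.card = 3 → ¬ Collinear ℝ (T : Set Plane)) : S.card ≤ 2 * a := by
  classical
  have h1 : ∀ i ∈ Finset.range a, (S.filter (fun p => p.2 = (i : ℝ))).card ≤ 2 := by
    intro i _
    by_contra hc
    push Not at hc
    obtain ⟨T, hT, hT3⟩ := Finset.exists_subset_card_eq hc
    refine hgen T (hT.trans (Finset.filter_subset _ _)) hT3 ?_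
    rw [collinear_iff_exists_forall_eq_smul_vadd]
    refine ⟨((0 : ℝ), (i : ℝ)), ((1 : ℝ), (0 : ℝ)), fun p hp => ⟨p.1, ?_⟩⟩
    have h2 := (Finset.mem_filter.1 (hT hp)).2
    apply Prod.ext
    · simp
    · simp [h2]
  have h2 : S ⊆ (Finset.range a).biUnion (fun i => S.filter (fun p => p.2 = (i : ℝ))) := by
    intro p hp
    obtain ⟨i, hi, j, hj, rfl⟩ := grid_sub a b S hS p hp
    rw [Finset.mem_biUnion]
    exact ⟨i, Finset.mem_range.2 hi, Finset.mem_filter.2 ⟨hp, rfl⟩⟩
  calc S.card ≤ _ := Finset.card_le_card h2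
    _ ≤ ∑ i ∈ Finset.range a, (S.filter (fun p => p.2 = (i : ℝ))).card := Finset.card_biUnion_le
    _ ≤ ∑ i ∈ Finset.range a, 2 := Finset.sum_le_sum h1
    _ = 2 * a := by simp [mul_comm]

/-- The lower bound, from the grid with `(n - 1) / 2` rows of `n - 1` points. -/
lemma lower (n N : ℕ) (hn : 3 ≤ n) (hN : N ≤ (n - 1) / 2 * (n - 1)) : ¬ Forces n N := by
  intro h
  rw [← grid_card] at hN
  obtain ⟨P, hP, hc⟩ := Finset.exists_subset_card_eq hN
  rcases h P hc with ⟨S, hS, hc', hcol⟩ | ⟨S, hS, hc', hgen⟩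
  · have := grid_collinear _ _ (by omega) S (hS.trans hP) hcol
    omega
  · have := grid_general _ _ S (hS.trans hP) hgen
    omega

/-- **The order of magnitude of `f(n)` is `n ^ 2`.** There is an absolute constant `C` such that
`(n - 1) * ⌊(n - 1) / 2⌋ < f(n) ≤ C * n ^ 2` for all `n ≥ 3`; moreover all `N ≥ C * n ^ 2` points
contain `n` collinear points or `n` points in general position. -/
theorem result : ∃ C : ℕ, ∀ n : ℕ, 3 ≤ n →
    (n - 1) / 2 * (n - 1) < f n ∧ f n ≤ C * n ^ 2 ∧ ∀ N : ℕ, C * n ^ 2 ≤ N → Forces n N := by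
  obtain ⟨C, hC⟩ := upper
  refine ⟨C, fun n hn => ⟨?_, ?_, fun N hN => hC n N (by omega) hN⟩⟩
  · by_contra hlt
    push Not at hlt
    have hne : {N | Forces n N}.Nonempty := ⟨C * n ^ 2, hC n _ (by omega) le_rfl⟩
    exact lower n (f n) hn hlt (Nat.sInf_mem hne)
  · exact Nat.sInf_le (hC n _ (by omega) le_rfl)

end Pool.Agent.Results.MP_b446ae_co.QuadraticOrder
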