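import Pool.Agent.Q112.KT.VT

/-!
MP_b47bfb_co: Hadwiger's conjecture for dense graphs with small fractional chromatic number, in
particular for dense vertex-transitive graphs with a large independent set and for at least one of
any dense vertex-transitive graph and its complement.

Let `G` have `n` vertices, each with at most `D ≤ (1 - δ) n` non-neighbours (counting the vertex
itself), and put `L = log n / log (n / D)`.  So `L ≤ log n / δ`, and `L ≤ 1 / ε` if `D ≤ n ^ (1 - ε)`.

Proof.  (1) `G` has a clique minor of order at least `c n / √L`: for `L` of order `log n` this is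
the Kostochka-Thomason theorem for dense graphs, whose proof (blocks of `s` random vertices with few
common non-neighbours, connected by short paths) is carried out here with the dependence on `D`.
(2) If the fractional chromatic number is at most `n / a`, then the greedy algorithm finds a
colouring with about `(n / a) (1 + log a)` colours (Lovász).  (3) A vertex-transitive graph with
independence number `a` has fractional chromatic number `n / a`.  (4) Ramsey's theorem.
-/

set_option autoImplicit false

namespace Pool.Agent.Results.MP_b47bfb_co.FractionalDense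

open Pool.Agent.Q112.KT

/-- `K_k` is a minor of `G`: there are `k` pairwise disjoint vertex sets, each inducing a connected
subgraph, any two of them joined by an edge of `G`. -/
def HasCliqueMinor {V : Type} (G : SimpleGraph V) (k : ℕ) : Prop :=
  ∃ f : Fin k → Set V,
    (∀ i, (G.induce (f i)).Connected) ∧
    (∀ i j, i ≠ j → Disjoint (f i) (f j)) ∧
    (∀ i j, i ≠ j → ∃ u ∈ f i, ∃ v ∈ f j, G.Adj u v)

/-- Hadwiger's conjecture with a factor `K`: if `G` is not `k`-colourable, then `K_{K (k + 1)}` is a
minor of `G`; so `G` has a clique minor of order at least `K` times its chromatic number.  For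
`K = 1` this is Hadwiger's conjecture for `G`. -/
def Hadwiger {V : Type} (K : ℕ) (G : SimpleGraph V) : Prop :=
  ∀ k : ℕ, ¬ G.Colorable k → HasCliqueMinor G (K * (k + 1))

/-- Every vertex of `G` has at most `D` non-neighbours, counting the vertex itself. -/
def NonNbrsLe {V : Type} (G : SimpleGraph V) (D : ℕ) : Prop :=
  ∀ x : V, {y | ¬ G.Adj x y}.ncard ≤ D

open Classical in
/-- The fractional chromatic number of `G` is at most `x`: there are finitely many independent sets
with non-negative weights of sum at most `x` such that the sets containing any vertex have weights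
of sum at least `1`. -/
def FracColorable {V : Type} (G : SimpleGraph V) (x : ℝ) : Prop :=
  ∃ (m : ℕ) (I : Fin m → Set V) (w : Fin m → ℝ), (∀ i, 0 ≤ w i) ∧
    (∀ i, ∀ u ∈ I i, ∀ v ∈ I i, ¬ G.Adj u v) ∧
    (∀ v, 1 ≤ ∑ i, if v ∈ I i then w i else 0) ∧ ∑ i, w i ≤ x

/-- `G` is vertex-transitive. -/
def IsTransitive {V : Type} (G : SimpleGraph V) : Prop :=
  ∀ x y : V, ∃ φ : G ≃g G, φ x = y

/-- `L = log n / log (n / D)` -/
noncomputable def ell (n D : ℕ) : ℝ := Real.log n / Real.log ((n : ℝ) / D)

theorem dg_of_ncard {V : Type} [Fintype V] (G : SimpleGraph V) (x : V) :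
    dg G Finset.univ x + {y | ¬ G.Adj x y}.ncard = Fintype.card V := by
  classical
  have h := dg_add_non G Finset.univ x
  rw [Finset.card_univ] at h
  rw [← h]
  congr 1
  rw [← Set.ncard_coe_finset]
  congr 1
  ext y
  simp

theorem deg_le {V : Type} [Fintype V] (G : SimpleGraph V) (D : ℕ) (h : NonNbrsLe G D) :
    ∀ v, Fintype.card V ≤ dg G Finset.univ v + D := by
  intro v
  have h1 := dg_of_ncard G v
  have h2 := h v
  omega

theorem D_pos {V : Type} [Fintype V] [Nonempty V] (G : SimpleGraph V) (D : ℕ)
    (h : NonNbrsLe G D) : 1 ≤ D := by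
  obtain ⟨x⟩ := ‹Nonempty V›
  refine le_trans ?_ (h x)
  rw [Nat.one_le_iff_ne_zero]
  intro h0
  rw [Set.ncard_eq_zero (Set.toFinite _)] at h0
  have : x ∈ {y | ¬ G.Adj x y} := G.loopless.irrefl x
  rw [h0] at this
  exact this

theorem cov_of_frac {V : Type} [Fintype V] (G : SimpleGraph V) (x : ℝ)
    (h : FracColorable G x) : Cov G x := by
  classical
  obtain ⟨m, I, w, hw, hI, hcov, hsum⟩ := h
  intro R
  rcases R.eq_empty_or_nonempty with rfl | hR
  · exact ⟨∅, Finset.empty_subset _, by simp, by simp⟩
  have hRc : (0 : ℝ) < R.card := by exact_mod_cast hR.card_pos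
  have hdouble : (R.card : ℝ) ≤ ∑ i, w i * ((R.filter (fun v => v ∈ I i)).card : ℝ) := by
    calc (R.card : ℝ) = ∑ v ∈ R, (1 : ℝ) := by simp
      _ ≤ ∑ v ∈ R, ∑ i, if v ∈ I i then w i else 0 := by
          apply Finset.sum_le_sum
          intro v _
          refine (hcov v).trans (le_of_eq ?_)
          apply Finset.sum_congr rfl
          intro i _
          congr
      _ = ∑ i, ∑ v ∈ R, if v ∈ I i then w i else 0 := Finset.sum_comm
      _ = ∑ i, w i * ((R.filter (fun v => v ∈ I i)).card : ℝ) := by
          apply Finset.sum_congr rfl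
          intro i _
          rw [← Finset.sum_filter, Finset.sum_const, nsmul_eq_mul, mul_comm]
  have hx : 0 < x := by
    by_contra hx
    push Not at hx
    have h1 : ∑ i, w i = 0 :=
      le_antisymm (hsum.trans hx) (Finset.sum_nonneg fun i _ => hw i)
    have h2 : ∀ i, w i = 0 := fun i =>
      (Finset.sum_eq_zero_iff_of_nonneg (fun i _ => hw i)).1 h1 i (Finset.mem_univ i)
    have h3 : ∑ i, w i * ((R.filter (fun v => v ∈ I i)).card : ℝ) = 0 := by
      apply Finset.sum_eq_zero
      intro i _
      rw [h2 i, zero_mul]
    linarith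
  have hex : ∃ i, (R.card : ℝ) ≤ x * (R.filter (fun v => v ∈ I i)).card := by
    by_contra hno
    push Not at hno
    have h1 : ∀ i, w i * ((R.filter (fun v => v ∈ I i)).card : ℝ) ≤ w i * (R.card / x) := by
      intro i
      apply mul_le_mul_of_nonneg_left _ (hw i)
      rw [le_div_iff₀ hx]
      linarith [hno i]
    have h2 : ∃ i, 0 < w i := by
      by_contra hz
      push Not at hz
      have h3 : ∑ i, w i * ((R.filter (fun v => v ∈ I i)).card : ℝ) = 0 := by
        apply Finset.sum_eq_zero
        intro i _
        rw [le_antisymm (hz i) (hw i), zero_mul]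
      linarith
    obtain ⟨i0, hi0⟩ := h2
    have h3 : ∑ i, w i * ((R.filter (fun v => v ∈ I i)).card : ℝ) <
        ∑ i, w i * ((R.card : ℝ) / x) := by
      apply Finset.sum_lt_sum (fun i _ => h1 i)
      refine ⟨i0, Finset.mem_univ _, ?_⟩
      apply mul_lt_mul_of_pos_left _ hi0
      rw [lt_div_iff₀ hx]
      linarith [hno i0]
    rw [← Finset.sum_mul] at h3
    have h4 : (∑ i, w i) * ((R.card : ℝ) / x) ≤ x * ((R.card : ℝ) / x) :=
      mul_le_mul_of_nonneg_right hsum (by positivity)
    have h5 : x * ((R.card : ℝ) / x) = R.card := by field_simp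
    linarith
  obtain ⟨i, hi⟩ := hex
  refine ⟨R.filter (fun v => v ∈ I i), Finset.filter_subset _ _, ?_, hi⟩
  intro u hu v hv
  exact hI i u (Finset.mem_filter.1 hu).2 v (Finset.mem_filter.1 hv).2

/-- (1) For every `δ > 0` and every `K` there are `C` and `n₀` such that the following holds for
every graph `G` with `n ≥ n₀` vertices, each of which has at most `D ≤ (1 - δ) n` non-neighbours.
Put `L = log n / log (n / D)`.  If the fractional chromatic number of `G` is at most `n / a`, where
`a ≥ C √L (1 + log L)`, then Hadwiger's conjecture holds for `G`, even with a factor `K`.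
(2) The same holds if `G` is vertex-transitive and has an independent set of at least
`C √L (1 + log L)` vertices.
(3) For every `δ > 0` and every `K` there is `n₀` such that for every vertex-transitive graph with
`n ≥ n₀` vertices and degree at least `δ n` and at most `(1 - δ) n`, Hadwiger's conjecture with a
factor `K` holds for `G` or for the complement of `G`. -/
theorem result (δ : ℝ) (hδ : 0 < δ) (K : ℕ) :
    (∃ C : ℝ, 0 < C ∧ ∃ n₀ : ℕ, ∀ (V : Type) [Fintype V] (G : SimpleGraph V) (D : ℕ),
      n₀ ≤ Fintype.card V → NonNbrsLe G D → (D : ℝ) ≤ (1 - δ) * Fintype.card V →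
      (∀ a : ℝ, C * √(ell (Fintype.card V) D) * (1 + Real.log (ell (Fintype.card V) D)) ≤ a →
        FracColorable G (Fintype.card V / a) → Hadwiger K G) ∧
      (IsTransitive G → ∀ I : Set V, (∀ u ∈ I, ∀ v ∈ I, ¬ G.Adj u v) →
        C * √(ell (Fintype.card V) D) * (1 + Real.log (ell (Fintype.card V) D)) ≤ I.ncard →
        Hadwiger K G)) ∧
    (∃ n₀ : ℕ, ∀ (V : Type) [Fintype V] (G : SimpleGraph V), n₀ ≤ Fintype.card V →
      IsTransitive G →
      (∀ x : V, δ * Fintype.card V ≤ ({y | G.Adj x y}.ncard : ℝ) ∧
        ({y | G.Adj x y}.ncard : ℝ) ≤ (1 - δ) * Fintype.card V) →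
      Hadwiger K G ∨ Hadwiger K Gᶜ) := by
  classical
  constructor
  · obtain ⟨C, hC, n0, h⟩ := frac_main δ hδ K
    refine ⟨C, hC, max n0 2, ?_⟩
    intro V _ G D hn hD hDn
    have hn0 : n0 ≤ Fintype.card V := (le_max_left _ _).trans hn
    have hn2 : 2 ≤ Fintype.card V := (le_max_right _ _).trans hn
    have hne : Nonempty V := Fintype.card_pos_iff.1 (by omega)
    have hD1 : 1 ≤ D := D_pos G D hD
    refine ⟨?_, ?_⟩
    · intro a ha hfrac k hk
      exact h V G hn0 D hD1 hDn (deg_le G D hD) a ha (cov_of_frac G _ hfrac) k hk
    · intro htr I hI ha k hk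
      have hIf : ((I.toFinset.card : ℕ) : ℝ) = (I.ncard : ℝ) := by
        rw [Set.ncard_eq_toFinset_card']
      have hIne : I.toFinset.Nonempty := by
        -- the bound is positive
        have hnR : (2 : ℝ) ≤ Fintype.card V := by exact_mod_cast hn2
        have hn0' : (0 : ℝ) < Fintype.card V := by linarith
        have hDR : (1 : ℝ) ≤ D := by exact_mod_cast hD1
        have hlogn : 0 < Real.log (Fintype.card V) := Real.log_pos (by linarith)
        have hlt : (D : ℝ) < Fintype.card V := by nlinarith
        have hlam0 : 0 < Real.log ((Fintype.card V : ℝ) / D) := by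
          apply Real.log_pos
          rw [lt_div_iff₀ (by linarith)]
          linarith
        have hlamle : Real.log ((Fintype.card V : ℝ) / D) ≤ Real.log (Fintype.card V) := by
          apply Real.log_le_log (by positivity)
          rw [div_le_iff₀ (by linarith)]
          nlinarith
        have hL1 : 1 ≤ ell (Fintype.card V) D := by
          unfold ell
          rw [le_div_iff₀ hlam0]
          linarith
        have hpos : 0 < C * √(ell (Fintype.card V) D) *
            (1 + Real.log (ell (Fintype.card V) D)) := by
          have h1 : 0 < √(ell (Fintype.card V) D) := Real.sqrt_pos.2 (by linarith)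
          have h2 : 0 ≤ Real.log (ell (Fintype.card V) D) := Real.log_nonneg hL1
          positivity
        have h3 : (0 : ℝ) < I.toFinset.card := by
          rw [hIf]
          linarith
        exact Finset.card_pos.1 (by exact_mod_cast h3)
      refine h V G hn0 D hD1 hDn (deg_le G D hD) (I.toFinset.card : ℝ) ?_
        (cov_of_transitive G htr I.toFinset (by
          intro x hx y hy
          exact hI x (by simpa using hx) y (by simpa using hy)) hIne) k hk
      rw [hIf]
      exact ha
  · obtain ⟨n0, h⟩ := vt_log (δ / 2) (by positivity) K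
    refine ⟨max (max n0 2) ⌈2 / δ⌉₊, ?_⟩
    intro V _ G hn htr hdeg
    have hn0 : n0 ≤ Fintype.card V := (le_max_left _ _).trans ((le_max_left _ _).trans hn)
    have hn2 : 2 ≤ Fintype.card V := (le_max_right _ _).trans ((le_max_left _ _).trans hn)
    have hn3 : 2 / δ ≤ (Fintype.card V : ℝ) :=
      (Nat.le_ceil _).trans (by exact_mod_cast (le_max_right _ _).trans hn)
    rw [div_le_iff₀ hδ] at hn3
    have hne : Nonempty V := Fintype.card_pos_iff.1 (by omega)
    obtain ⟨x0⟩ := hne
    set n : ℕ := Fintype.card V with hnd
    have hnpos : (0 : ℝ) < n := by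
      have : (2 : ℝ) ≤ n := by exact_mod_cast hn2
      linarith
    -- the degree is constant
    set d : ℕ := dg G Finset.univ x0 with hd
    have hdgn : ∀ x : V, dg G Finset.univ x = {y | G.Adj x y}.ncard := by
      intro x
      unfold dg
      rw [← Set.ncard_coe_finset]
      congr 1
      ext y
      simp
    have hconst : ∀ x, {y | G.Adj x y}.ncard = d := by
      intro x
      obtain ⟨φ, hφ⟩ := htr x0 x
      rw [hd, hdgn x0]
      have himg : {y | G.Adj x y} = (φ : V → V) '' {y | G.Adj x0 y} := by
        ext y
        constructor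
        · intro hy
          refine ⟨φ.symm y, ?_, φ.apply_symm_apply y⟩
          show G.Adj x0 (φ.symm y)
          rw [← φ.map_adj_iff, hφ, φ.apply_symm_apply]
          exact hy
        · rintro ⟨z, hz, rfl⟩
          show G.Adj x (φ z)
          rw [← hφ]
          exact φ.map_adj_iff.2 hz
      rw [himg, Set.ncard_image_of_injective _ φ.injective]
    have hd1 := (hdeg x0).1
    have hd2 := (hdeg x0).2
    rw [hconst x0] at hd1 hd2
    have hnc : ∀ x, {y | ¬ G.Adj x y}.ncard = n - d := by
      intro x
      have h1 := dg_of_ncard G x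
      rw [hdgn, hconst] at h1
      omega
    have hdn : d ≤ n := by
      have h1 := dg_of_ncard G x0
      omega
    have hj := Nat.pow_log_le_self 4 (by omega : n ≠ 0)
    have hU : 2 ^ (Nat.log 4 n + Nat.log 4 n) ≤ (Finset.univ : Finset V).card := by
      rw [Finset.card_univ, ← hnd]
      have e : 2 ^ (Nat.log 4 n + Nat.log 4 n) = 4 ^ Nat.log 4 n := by
        rw [← two_mul, pow_mul]
        norm_num
      rw [e]
      exact hj
    rcases ramsey G (Nat.log 4 n) (Nat.log 4 n) Finset.univ hU with ⟨T, _, hT2, hT3⟩ |
      ⟨T, _, hT2, hT3⟩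
    · right
      have hcompl : ∀ x, {y | ¬ Gᶜ.Adj x y}.ncard ≤ d + 1 := by
        intro x
        have hsub : {y | ¬ Gᶜ.Adj x y} ⊆ insert x {y | G.Adj x y} := by
          intro y hy
          rw [Set.mem_setOf_eq, SimpleGraph.compl_adj, not_and_or, not_not, not_not] at hy
          rcases hy with rfl | hy
          · exact Set.mem_insert _ _
          · exact Set.mem_insert_of_mem _ hy
        refine (Set.ncard_le_ncard hsub (Set.toFinite _)).trans ?_
        refine (Set.ncard_insert_le _ _).trans ?_
        rw [hconst]
      refine h V Gᶜ hn0 (d + 1) (by omega) ?_ (deg_le Gᶜ (d + 1) hcompl)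
        (compl_trans G htr) T ?_ hT2
      · push_cast
        linarith
      · intro x hx y hy hxy
        rw [SimpleGraph.compl_adj] at hxy
        exact hxy.2 (hT3 x hx y hy hxy.1)
    · left
      have hDle : NonNbrsLe G (n - d) := fun x => (hnc x).le
      have hcast : ((n - d : ℕ) : ℝ) = (n : ℝ) - d := by
        rw [Nat.cast_sub hdn]
      refine h V G hn0 (n - d) ?_ ?_ (deg_le G (n - d) hDle) htr T hT3 hT2
      · haveI : Nonempty V := ⟨x0⟩
        exact D_pos G _ hDle
      · rw [hcast]
        linarith

end Pool.Agent.Results.MP_b47bfb_co.FractionalDense
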