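import Mathlib
import Pool.Agent.Q274.DV.Chain

/-!
# Distributive varieties of Lie algebras that need identities of large degree

Over every field of characteristic `0` and for every `N` there is a variety of Lie algebras whose
subvarieties form a chain, so that its lattice of subvarieties is distributive, and which is not
defined by identities of degree at most `N`.
-/

set_option autoImplicit false

namespace Pool.Agent.Results.MP_b4a71d_al.ChainNotLowDegree

open Pool.Agent.Q274.DV

universe u

/-- A Lie algebra over `F`, of arbitrary dimension. -/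
structure LieAlg (F : Type u) [Field F] where
  carrier : Type u
  [lieRing : LieRing carrier]
  [lieAlgebra : LieAlgebra F carrier]

attribute [instance] LieAlg.lieRing LieAlg.lieAlgebra

variable {F : Type u} [Field F]

/-- `f` is an identity of `A`: it vanishes under every substitution of elements of `A` for the
variables. -/
def LieAlg.Satisfies (A : LieAlg F) (f : FreeLieAlgebra F ℕ) : Prop :=
  ∀ a : ℕ → A.carrier, FreeLieAlgebra.lift F a f = 0

/-- The class of all Lie algebras satisfying every identity in `S`. -/
def models (S : Set (FreeLieAlgebra F ℕ)) : Set (LieAlg F) :=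
  {A | ∀ f ∈ S, A.Satisfies f}

/-- The identities of a class of Lie algebras. -/
def ids (C : Set (LieAlg F)) : Set (FreeLieAlgebra F ℕ) :=
  {f | ∀ A ∈ C, A.Satisfies f}

/-- A variety: the class of all Lie algebras satisfying every identity in some set. -/
@[ext] structure Variety (F : Type u) [Field F] where
  carrier : Set (LieAlg F)
  exists_basis : ∃ S : Set (FreeLieAlgebra F ℕ), carrier = models S

theorem models_ids (V : Variety F) : models (ids V.carrier) = V.carrier := by
  obtain ⟨S, hS⟩ := V.exists_basis
  apply Set.Subset.antisymm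
  · intro A hA
    rw [hS]
    intro f hf
    refine hA f ?_
    intro B hB
    rw [hS] at hB
    exact hB f hf
  · intro A hA f hf
    exact hf A hA

/-- Varieties ordered by inclusion. -/
instance : PartialOrder (Variety F) :=
  PartialOrder.lift Variety.carrier (fun _ _ h => Variety.ext h)

/-- The lattice of varieties: the meet is the intersection, the join of two varieties is the
smallest variety containing both. -/
instance : Lattice (Variety F) where
  sup V W := ⟨models (ids (V.carrier ∪ W.carrier)), _, rfl⟩
  inf V W := ⟨V.carrier ∩ W.carrier, by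
    obtain ⟨S, hS⟩ := V.exists_basis
    obtain ⟨S', hS'⟩ := W.exists_basis
    refine ⟨S ∪ S', ?_⟩
    rw [hS, hS']
    ext A
    constructor
    · rintro ⟨h1, h2⟩ f (hf | hf)
      · exact h1 f hf
      · exact h2 f hf
    · intro h
      exact ⟨fun f hf => h f (Or.inl hf), fun f hf => h f (Or.inr hf)⟩⟩
  le_sup_left V W := fun A hA f hf => hf A (Or.inl hA)
  le_sup_right V W := fun A hA f hf => hf A (Or.inr hA)
  sup_le V W Z h1 h2 := by
    intro A hA
    rw [← models_ids Z]
    intro f hf
    refine hA f ?_
    rintro B (hB | hB)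
    · exact hf B (h1 hB)
    · exact hf B (h2 hB)
  inf_le_left V W := Set.inter_subset_left
  inf_le_right V W := Set.inter_subset_right
  le_inf V W Z h1 h2 := Set.subset_inter h1 h2

/-- The lattice of subvarieties of `V` is distributive. -/
def Variety.Distributive (V : Variety F) : Prop :=
  ∀ A B C : Variety F, A ≤ V → B ≤ V → C ≤ V → A ⊓ (B ⊔ C) = (A ⊓ B) ⊔ (A ⊓ C)

/-- `V` is defined by identities of degree at most `N`: it has a basis of identities all of whose
elements have degree at most `N`. -/
def Variety.DefinedInDegree (V : Variety F) (N : ℕ) : Prop :=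
  ∃ S : Set (FreeLieAlgebra F ℕ), (∀ f ∈ S, DegreeLE N f) ∧ V.carrier = models S

/-- The varieties of the chain. -/
def VC (F : Type u) [Field F] (c : ℕ) : Variety F := ⟨models (Tset F c), _, rfl⟩

theorem VC_mono {c c' : ℕ} (h : c ≤ c') : VC F c ≤ VC F c' :=
  fun _ hA f hf => hA f (Tset_anti h hf)

theorem eq_VC [CharZero F] {n : ℕ} {A : Variety F} (hA : A ≤ VC F n) : ∃ k ≤ n, A = VC F k := by
  classical
  have h0 : ids A.carrier ⊆ Tset F 0 := fun f _ a l j hj => absurd hj (Nat.not_lt_zero j)
  let P : ℕ → Prop := fun c => ids A.carrier ⊆ Tset F c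
  let k := Nat.findGreatest P n
  have hk : k ≤ n := Nat.findGreatest_le n
  have hPk : P k := Nat.findGreatest_spec (P := P) (Nat.zero_le n) h0
  refine ⟨k, hk, le_antisymm ?_ ?_⟩
  · rcases Nat.lt_or_ge k n with hlt | hge
    · have hnot : ¬ P (k + 1) := Nat.findGreatest_is_greatest (Nat.lt_succ_self k) hlt
      obtain ⟨f, hf, hf'⟩ := Set.not_subset.1 hnot
      intro B hB g hg
      exact satisfies_Tset (n := n) (k := k) (fun f hf => hA hB f hf) (hf B hB) (hPk hf) hf' hg
    · have : k = n := le_antisymm hk hge
      rw [this]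
      exact hA
  · intro B hB
    rw [← models_ids A]
    intro f hf
    exact hB f (hPk hf)

theorem chain [CharZero F] {n : ℕ} {A B : Variety F} (hA : A ≤ VC F n) (hB : B ≤ VC F n) :
    A ≤ B ∨ B ≤ A := by
  obtain ⟨k, _, rfl⟩ := eq_VC hA
  obtain ⟨k', _, rfl⟩ := eq_VC hB
  rcases le_total k k' with h | h
  · exact Or.inl (VC_mono h)
  · exact Or.inr (VC_mono h)

theorem distributive_of_chain {V : Variety F}
    (h : ∀ A B : Variety F, A ≤ V → B ≤ V → A ≤ B ∨ B ≤ A) : V.Distributive := by
  intro A B C _ hB hC
  rcases h B C hB hC with h1 | h1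
  · rw [sup_eq_right.2 h1, sup_eq_right.2 (inf_le_inf_left A h1)]
  · rw [sup_eq_left.2 h1, sup_eq_left.2 (inf_le_inf_left A h1)]

theorem not_definedInDegree (N : ℕ) : ¬ (VC F (N + 1)).DefinedInDegree N := by
  rintro ⟨S, hS, hV⟩
  have h1 : ∀ f ∈ S, f ∈ Tset F (N + 1) := by
    intro f hf
    have hmem : (⟨SD F (QM F (N + 1))⟩ : LieAlg F) ∈ (VC F (N + 1)).carrier :=
      fun g hg => isId_SD_quot (by omega) hg
    rw [hV] at hmem
    exact mem_Tset_of_isId (hmem f hf)
  have h2 : (⟨SD F (Polynomial F)⟩ : LieAlg F) ∈ (VC F (N + 1)).carrier := by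
    rw [hV]
    intro f hf
    refine isId_SD_poly (n := N + 1) (by omega) (h1 f hf) ?_
    have hsub : {a : FreeLieAlgebra F ℕ | ∃ m ≤ N, IsMonomial m a} ⊆
        {a : FreeLieAlgebra F ℕ | ∃ m ≤ N + 1, IsMonomial m a} := by
      rintro a ⟨m, hm, h⟩
      exact ⟨m, by omega, h⟩
    exact Submodule.span_mono hsub (hS f hf)
  exact not_isId_eng (N + 1) (h2 _ (eng_mem (N + 1)))

/-- **Theorem.** Let `F` be any field of characteristic `0` and `N` any natural number. There is a
variety `V` of Lie algebras over `F` such that any two subvarieties of `V` are comparable, in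
particular the lattice of subvarieties of `V` is distributive, and such that `V` is not defined by
identities of degree at most `N`. (The problem asks this for `N = 6`.) -/
theorem result (F : Type u) [Field F] [CharZero F] (N : ℕ) :
    ∃ V : Variety F, V.Distributive ∧ (∀ A B : Variety F, A ≤ V → B ≤ V → A ≤ B ∨ B ≤ A) ∧
      ¬ V.DefinedInDegree N :=
  ⟨VC F (N + 1), distributive_of_chain fun _ _ => chain, fun _ _ => chain,
    not_definedInDegree N⟩

end Pool.Agent.Results.MP_b4a71d_al.ChainNotLowDegree
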