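import Pool.Agent.Q200.HE.TBMain

/-!
# Higher Chow groups of affine hypersurfaces given by sums of ternary cubic forms

Let `F` be a finite field of characteristic `p ≥ 5` and let `W` be a smooth hypersurface over `F`, of
ARBITRARY dimension, with the equation

  `f_1(x_1, y_1, z_1) + f_2(x_2, y_2, z_2) + ⋯ + f_r(x_r, y_r, z_r) = 0`,

`f_j` cubic forms in at most three variables, or with the equation `f_1(x_1, y_1) + ⋯ + f_r(x_r, y_r)
= 0`, `f_j` binary quartic forms; one more term `u_j^3`, respectively `u_j^4`, is allowed for every
`j`. We prove that the maps `c_X^{i,j}` are bijective, for all `i` and `j`, for all smooth varieties
`X` over `F` which can be built by decompositions into closed and open parts from products of such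
hypersurfaces and of elliptic curves. Examples: the affine hypersurfaces `f_1 + ⋯ + f_r = 1`, their
products, the complement of `W` in the projective space.
-/

open CategoryTheory MonoidalCategory

universe v u w

namespace Pool.Agent.Results.MP_b52861_ag.SumsOfTernaryCubics

open Pool.Agent.Q200.HE

/-- **Beilinson's conjecture for varieties built from sums of ternary cubics.** Let `T` be the Chow
motives with rational coefficients over an algebraic closure of a finite field `F` of characteristic at
least five, and the quasi-projective schemes over `F` (`hT`: known facts). Let `Built` be the smallest
class of schemes which contains the smooth projective schemes with motives obtained by tensor products,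
direct sums, direct summands and Tate twists from the motives `h^1(E)` of elliptic curves and the
motives of the smooth hypersurfaces `W`, of any dimensions, which are sums, in disjoint sets of
variables, of cubic forms in at most three variables or of binary quartic forms; and which contains
with two of `Z`, `X`, `U = X - Z` also the third one.

1. For all `X` in this class the regulators from `CH_j(X, i - 2 j)` to the Galois invariants of the
  `l`-adic homology `H_i(X, ℚ_l(j))` are bijective, and the eigenvalue one of Frobenius is semisimple.
2. For all smooth `X` in this class the maps `c_X^{i,j}` are bijective (in particular injective).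
3. The class is stable under products. -/
theorem result {𝓜 : Type u} [Category.{v} 𝓜] [Preadditive 𝓜] [MonoidalCategory 𝓜]
    {T : TBData.{v, u, w} 𝓜} (hT : T.Facts) :
    (∀ X : T.Var, T.Built X → T.TB X) ∧
      (∀ X : T.Var, T.Built X → T.SmoothV X → T.Bij X) ∧
        ∀ X Y : T.Var, T.Built X → T.Built Y → T.Built (T.prodV X Y) :=
  TBData.final hT

end Pool.Agent.Results.MP_b52861_ag.SumsOfTernaryCubics
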