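import Pool.Agent.Q277.TC.At

/-!
The maximal height of the ternary cyclotomic polynomials `Φ_{pqr}` for `q ≡ 2 / (2k+1) mod p`.
-/

set_option autoImplicit false

open Polynomial

namespace Pool.Agent.Results.MP_b5a0ea_nt.MaximalHeights

/-- The height of the `n`-th cyclotomic polynomial: the largest absolute value of a coefficient. -/
noncomputable def height (n : ℕ) : ℕ :=
  (cyclotomic n ℤ).support.sup fun m => ((cyclotomic n ℤ).coeff m).natAbs

theorem le_height (n m : ℕ) : ((cyclotomic n ℤ).coeff m).natAbs ≤ height n := by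
  by_cases h : (cyclotomic n ℤ).coeff m = 0
  · rw [h]; exact Nat.zero_le _
  · exact Finset.le_sup (f := fun m => ((cyclotomic n ℤ).coeff m).natAbs) (mem_support_iff.2 h)

theorem height_le {n c : ℕ} (h : ∀ m, ((cyclotomic n ℤ).coeff m).natAbs ≤ c) : height n ≤ c :=
  Finset.sup_le fun m _ => h m

theorem result (k p q : ℕ) (hk : 1 ≤ k) (hp : p.Prime) (hq : q.Prime)
    (hpk : (2 * k + 1) ^ 2 + 4 ≤ p) (hpq : p ^ 2 ≤ q) (h : (2 * k + 1) * q ≡ 2 [MOD p]) :
    IsGreatest {a : ℕ | ∃ r : ℕ, r.Prime ∧ q < r ∧ a = height (p * q * r)}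
      ((p + 2 * k + 1) / 2) := by
  have hp13 : 13 ≤ p := by nlinarith
  have hodd : p % 2 = 1 := hp.mod_two_eq_one_iff_ne_two.2 (by omega)
  obtain ⟨lam, hlam⟩ : ∃ lam, (p + 2 * k + 1) / 2 = lam := ⟨_, rfl⟩
  have h2l : 2 * lam = p + 2 * k + 1 := by omega
  have hkp : 2 * k + 1 < p := by nlinarith
  have hlp : lam < p := by omega
  have hpltq : p < q := by nlinarith
  have hpq' : p * lam ≤ q := by
    have : p * lam ≤ p * p := Nat.mul_le_mul_left _ hlp.le
    nlinarith
  have hP : (0 : ℤ) < p := by exact_mod_cast hp.pos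
  obtain ⟨z, hz⟩ := (Nat.modEq_iff_dvd.1 h.symm)
  push_cast at hz
  -- the inverse
  have hlq : (p : ℤ) ∣ lam * q - 1 := by
    have h1 : (p : ℤ) ∣ 2 * (lam * q - 1) := by
      refine ⟨z + q, ?_⟩
      have : (2 : ℤ) * lam = p + 2 * k + 1 := by exact_mod_cast h2l
      linear_combination (q : ℤ) * this + hz
    rcases (Nat.prime_iff_prime_int.1 hp).dvd_or_dvd h1 with h2 | h2
    · exfalso
      have := Int.le_of_dvd (by norm_num) h2
      omega
    · exact h2
  obtain ⟨c, hc⟩ := hlq
  have hl0 : 0 < lam := by omega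
  have hc0 : 0 ≤ c := by
    by_contra h0
    push Not at h0
    have h1 : (p : ℤ) * c ≤ p * (-1) := mul_le_mul_of_nonneg_left (by omega) hP.le
    have h2 : (0 : ℤ) ≤ lam * q := by positivity
    omega
  obtain ⟨c, rfl⟩ := Int.eq_ofNat_of_zero_le hc0
  have hcq : c < q := by
    by_contra h0
    push Not at h0
    have h1 : (p : ℤ) * q ≤ p * c := mul_le_mul_of_nonneg_left (by exact_mod_cast h0) hP.le
    have h2 : (lam : ℤ) * q ≤ p * q := mul_le_mul_of_nonneg_right (by exact_mod_cast hlp.le) (by positivity)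
    omega
  have hμ : (q - c) * p + lam * q = p * q + 1 := by
    have h1 : (((q - c) * p + lam * q : ℕ) : ℤ) = ((p * q + 1 : ℕ) : ℤ) := by
      push_cast [Nat.cast_sub hcq.le]
      linear_combination hc
    exact_mod_cast h1
  have hs : p + q ≤ p * q := by nlinarith
  constructor
  · -- the residue
    have hδ : (p : ℤ) ∣ (2 * k + 1) * (q % p : ℕ) - 2 := by
      refine ⟨z - (2 * k + 1) * (q / p : ℕ), ?_⟩
      have h1 : ((q % p : ℕ) : ℤ) + p * (q / p : ℕ) = q := by exact_mod_cast Nat.mod_add_div q p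
      linear_combination hz + (2 * k + 1 : ℤ) * h1
    obtain ⟨j, hj⟩ := hδ
    have hδp : q % p < p := Nat.mod_lt _ hp.pos
    have hqd : (q : ℤ) = (q % p : ℕ) + p * (q / p : ℕ) := by exact_mod_cast (Nat.mod_add_div q p).symm
    generalize q % p = δ at hj hδp hqd
    generalize q / p = Q at hqd
    have hj0 : 1 ≤ j := by
      by_contra h0
      push Not at h0
      have h1 : (p : ℤ) * j ≤ p * 0 := mul_le_mul_of_nonneg_left (by omega) hP.le
      have h2 : (0 : ℤ) ≤ (2 * k + 1) * δ := by positivity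
      have h3 : -1 < j := by
        by_contra h4
        push Not at h4
        have h5 : (p : ℤ) * j ≤ p * (-1) := mul_le_mul_of_nonneg_left h4 hP.le
        omega
      have h4 : j = 0 := by omega
      rw [h4] at hj
      have h5 : (2 * k + 1) * δ = 2 := by
        have : (2 * (k : ℤ) + 1) * δ = 2 := by linarith
        exact_mod_cast this
      rcases Nat.eq_zero_or_pos δ with h6 | h6
      · rw [h6] at h5; omega
      · have : (2 * k + 1) * 1 ≤ (2 * k + 1) * δ := Nat.mul_le_mul_left _ h6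
        omega
    have hpk' : (2 * (k : ℤ) + 1) ^ 2 + 4 ≤ p := by exact_mod_cast hpk
    have hδp' : (δ : ℤ) + 1 ≤ p := by exact_mod_cast hδp
    have hK : (0 : ℤ) < 2 * k + 1 := by positivity
    have hj2 : j ≤ 2 * k := by
      by_contra h0
      push Not at h0
      have h1 : (p : ℤ) * (2 * k + 1) ≤ p * j := mul_le_mul_of_nonneg_left (by omega) hP.le
      have h2 : (2 * (k : ℤ) + 1) * δ ≤ (2 * k + 1) * p := mul_le_mul_of_nonneg_left (by omega) hK.le
      have h3 : (p : ℤ) * (2 * k + 1) = (2 * k + 1) * p := mul_comm _ _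
      omega
    have h2l' : 2 * (lam : ℤ) = p + 2 * k + 1 := by exact_mod_cast h2l
    obtain ⟨δ', h1, h2, h3⟩ : ∃ δ' : ℕ, lam ≤ δ' ∧ δ' + 2 * lam ≤ 2 * p ∧
        ((p : ℤ) ∣ (q : ℤ) - δ' ∨ (p : ℤ) ∣ (q : ℤ) + δ') := by
      rcases le_or_gt j k with hjk | hjk
      · have a1 : (2 * (k : ℤ) + 1) ≤ δ := by
          by_contra h0
          push Not at h0
          have b1 : (2 * (k : ℤ) + 1) * δ ≤ (2 * k + 1) * (2 * k + 1) :=
            mul_le_mul_of_nonneg_left h0.le hK.le
          have b2 : (p : ℤ) * 1 ≤ p * j := mul_le_mul_of_nonneg_left hj0 hP.le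
          linarith
        have a2 : 2 * (δ : ℤ) ≤ p - 2 * k - 1 := by
          by_contra h0
          push Not at h0
          have b1' : (2 * (k : ℤ) + 1) * (p - 2 * k) ≤ (2 * k + 1) * (2 * δ) :=
            mul_le_mul_of_nonneg_left (by omega) hK.le
          have b2 : (p : ℤ) * j ≤ p * k := mul_le_mul_of_nonneg_left hjk hP.le
          linarith
        refine ⟨p - δ, by omega, by omega, Or.inr ⟨Q + 1, ?_⟩⟩
        rw [Nat.cast_sub hδp.le, hqd]
        ring
      · have a1 : (p : ℤ) + 2 * k + 1 ≤ 2 * δ := by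
          by_contra h0
          push Not at h0
          have b1 : (2 * (k : ℤ) + 1) * (2 * δ) ≤ (2 * k + 1) * (p + 2 * k) :=
            mul_le_mul_of_nonneg_left (by omega) hK.le
          have b2 : (p : ℤ) * (k + 1) ≤ p * j := mul_le_mul_of_nonneg_left (by omega) hP.le
          linarith
        have a2 : (δ : ℤ) ≤ p - 2 * k - 1 := by
          by_contra h0
          push Not at h0
          have b1 : (2 * (k : ℤ) + 1) * (p - 2 * k) ≤ (2 * k + 1) * δ :=
            mul_le_mul_of_nonneg_left (by omega) hK.le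
          have b2 : (p : ℤ) * j ≤ p * (2 * k) := mul_le_mul_of_nonneg_left hj2 hP.le
          linarith
        refine ⟨δ, by omega, by omega, Or.inl ⟨Q, ?_⟩⟩
        rw [hqd]
        ring
    obtain ⟨r, hr, hqr, n, hn⟩ := Pool.Agent.Q277.TC.attain hp hq hpltq hμ (by omega) (by omega)
      hlp (by omega) hpq' h1 h2 h3
    refine ⟨r, hr, hqr, ?_⟩
    rw [hlam]
    apply le_antisymm
    · rw [← hn]
      exact le_height _ _
    · exact height_le fun m => Pool.Agent.Q277.TC.upper hp hq hr hpltq.ne (by omega) hqr.ne hμ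
        (by omega) hlp.le hs (by omega) m
  · rintro a ⟨r, hr, hqr, rfl⟩
    rw [hlam]
    exact height_le fun m => Pool.Agent.Q277.TC.upper hp hq hr hpltq.ne (by omega) hqr.ne hμ
        (by omega) hlp.le hs (by omega) m

end Pool.Agent.Results.MP_b5a0ea_nt.MaximalHeights
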