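import Pool.Agent.Q129.Cog.Main

/-!
There is a planar triangle-free graph whose vertex set can be partitioned into three, but not into
two, sets each of which induces a cograph.
-/

set_option autoImplicit false

namespace Pool.Agent.Results.MP_b5aa49_co.Exists

open Q129.Cog

/-- There is a finite planar (drawn in the plane with straight edges and without crossings),
triangle-free graph `G` with `c(G) = 3`. -/
theorem result : ∃ (n : ℕ) (G : SimpleGraph (Fin n)) (p : Fin n → ℝ × ℝ),
    IsPlaneDrawing G p ∧ G.CliqueFree 3 ∧ cNumber G = 3 :=
  ⟨181, G, P, drawing, triangle_free, cNumber_eq⟩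

end Pool.Agent.Results.MP_b5aa49_co.Exists
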