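import Mathlib

/-!
# Nontrivial integer roots of the Moser polynomials `F_{4,k}`: `k_max(4) = 7`

A positive root `n` of `F_{4,k}` divides `6 * 4^(k-1)`; if `16` divides `n`, the cofactor is `4` or
`8` modulo `16`, so `n` is too large.  The other divisors are treated one by one.
-/

set_option autoImplicit false

namespace Pool.Agent.Results.MP_b5d28a_nt.CaseFour

open Finset

/-- The binomial coefficient `x (x - 1) ... (x - j + 1) / j!`. -/
def binom (x : ℚ) (j : ℕ) : ℚ := (∏ i ∈ range j, (x - i)) / (Nat.factorial j : ℚ)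

/-- The value at `x` of the Moser polynomial `F_{s,k}`. -/
def F (s k : ℕ) (x : ℚ) : ℚ :=
  ∑ p ∈ Icc 1 s, (-1) ^ (p - 1) * (p : ℚ) ^ (k - 1) * binom x (s - p)

/-- The indices `k ≥ 1` for which `F_{s,k}` has an integer root other than `1, ..., s`. -/
def nontrivial (s : ℕ) : Set ℕ :=
  {k | 1 ≤ k ∧ ∃ n : ℤ, ¬ (1 ≤ n ∧ n ≤ s) ∧ F s k n = 0}

theorem F4 (j : ℕ) (x : ℚ) : 6 * F 4 (j + 1) x =
    x * (x - 1) * (x - 2) - 3 * 2 ^ j * (x * (x - 1)) + 6 * 3 ^ j * x - 6 * 4 ^ j := by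
  have h : Icc 1 4 = ({1, 2, 3, 4} : Finset ℕ) := by decide
  unfold F binom
  rw [h]
  simp only [add_tsub_cancel_right]
  rw [sum_insert (by decide), sum_insert (by decide), sum_insert (by decide), sum_singleton]
  simp only [Nat.reduceSub, prod_range_succ, prod_range_zero, Nat.factorial]
  push_cast
  ring

theorem ind {A D B j0 : ℕ} (h0 : A * 3 ^ j0 + D < 4 ^ j0 + B * 2 ^ j0) (hB : B ≤ 2 ^ j0)
    (j : ℕ) (hj : j0 ≤ j) : A * 3 ^ j + D < 4 ^ j + B * 2 ^ j := by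
  induction j, hj using Nat.le_induction with
  | base => exact h0
  | succ j hj ih =>
    have h1 : B ≤ 2 ^ j := hB.trans (Nat.pow_le_pow_right (by norm_num) hj)
    have h2 : B * 2 ^ j ≤ 4 ^ j := by
      calc B * 2 ^ j ≤ 2 ^ j * 2 ^ j := Nat.mul_le_mul_right _ h1
        _ = 4 ^ j := by rw [← mul_pow]; norm_num
    have e1 : 3 ^ (j + 1) = 3 * 3 ^ j := by ring
    have e2 : 4 ^ (j + 1) = 4 * 4 ^ j := by ring
    have e3 : 2 ^ (j + 1) = 2 * 2 ^ j := by ring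
    rw [e1, e2, e3]
    have h3 : A * (3 * 3 ^ j) = 3 * (A * 3 ^ j) := by ring
    have h4 : B * (2 * 2 ^ j) = 2 * (B * 2 ^ j) := by ring
    rw [h3, h4]
    omega

/-- the equation in positive integers -/
theorem small {n j : ℕ} (hj : 7 ≤ j) (hn : n = 6 ∨ n = 8 ∨ n = 12 ∨ n = 24)
    (h : n * ((n - 1) * (n - 2)) + 6 * 3 ^ j * n = 3 * 2 ^ j * (n * (n - 1)) + 6 * 4 ^ j) :
    False := by
  rcases hn with rfl | rfl | rfl | rfl
  · have := ind (A := 6) (D := 20) (B := 15) (j0 := 7) (by norm_num) (by norm_num) j hj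
    omega
  · have := ind (A := 8) (D := 56) (B := 28) (j0 := 7) (by norm_num) (by norm_num) j hj
    omega
  · rcases Nat.lt_or_ge j 8 with h8 | h8
    · have : j = 7 := by omega
      subst this
      norm_num at h
    · have := ind (A := 12) (D := 220) (B := 66) (j0 := 8) (by norm_num) (by norm_num) j h8
      omega
  · rcases Nat.lt_or_ge j 11 with h8 | h8
    · interval_cases j <;> norm_num at h
    · have := ind (A := 24) (D := 2024) (B := 276) (j0 := 11) (by norm_num) (by norm_num) j h8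
      omega

theorem large {c a j : ℕ} (hj : 7 ≤ j) (hc : c = 1 ∨ c = 3) (ha : 4 ≤ a) (B : ℤ)
    (hB : B = ((c * 2 ^ a : ℕ) : ℤ) ^ 2 - 3 * ((c * 2 ^ a : ℕ) : ℤ) + 2 -
      3 * 2 ^ j * (((c * 2 ^ a : ℕ) : ℤ) - 1) + 6 * 3 ^ j)
    (h : ((c * 2 ^ a : ℕ) : ℤ) * B = 3 * 2 ^ (2 * j + 1)) : False := by
  obtain ⟨n, hn⟩ : ∃ n : ℤ, n = ((c * 2 ^ a : ℕ) : ℤ) := ⟨_, rfl⟩
  rw [← hn] at hB h
  have hn' : n = (c : ℤ) * 2 ^ a := by rw [hn]; push_cast; ring
  have hc1 : (1 : ℤ) ≤ c := by rcases hc with rfl | rfl <;> norm_num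
  -- `B` modulo 16
  have h16n : (16 : ℤ) ∣ n := by
    rw [hn']
    exact Dvd.dvd.mul_left (pow_dvd_pow 2 ha : (2 : ℤ) ^ 4 ∣ 2 ^ a) _
  have h16j : (16 : ℤ) ∣ 2 ^ j := (pow_dvd_pow 2 (by omega) : (2 : ℤ) ^ 4 ∣ 2 ^ j)
  have h8 : ∀ i : ℕ, (3 : ℤ) ^ i % 8 = 1 ∨ (3 : ℤ) ^ i % 8 = 3 := by
    intro i
    induction i with
    | zero => left; norm_num
    | succ i ih =>
      rw [pow_succ]
      rcases ih with h | h <;> omega
  have hB16 : ¬ (16 : ℤ) ∣ B := by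
    intro hd
    have h1 : (16 : ℤ) ∣ 2 + 6 * 3 ^ j := by
      have e : 2 + 6 * 3 ^ j = B - n * (n - 3) + 3 * (2 ^ j * (n - 1)) := by rw [hB]; ring
      rw [e]
      exact ((hd.sub (h16n.mul_right _)).add ((h16j.mul_right _).mul_left _))
    rcases h8 j with h2 | h2 <;> omega
  -- the exponent
  have ha2 : 2 * j - 2 ≤ a := by
    by_contra hlt
    push Not at hlt
    have e : (2 : ℤ) ^ (2 * j + 1) = 2 ^ a * (2 ^ (2 * j + 1 - a)) := by
      rw [← pow_add]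
      congr 1
      omega
    rw [e, hn'] at h
    have h1 : (c : ℤ) * B = 3 * 2 ^ (2 * j + 1 - a) := by
      have h2 : (2 : ℤ) ^ a ≠ 0 := by positivity
      apply mul_left_cancel₀ h2
      linear_combination h
    have h3 : (16 : ℤ) ∣ c * B := by
      rw [h1]
      exact Dvd.dvd.mul_left (pow_dvd_pow 2 (by omega) : (2 : ℤ) ^ 4 ∣ 2 ^ (2 * j + 1 - a)) _
    apply hB16
    rcases hc with rfl | rfl
    · simpa using h3
    · push_cast at h3
      omega
  -- size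
  have hn1 : (2 : ℤ) ^ (2 * j - 2) ≤ n := by
    rw [hn']
    calc (2 : ℤ) ^ (2 * j - 2) ≤ 2 ^ a := pow_le_pow_right₀ (by norm_num) ha2
      _ ≤ c * 2 ^ a := le_mul_of_one_le_left (by positivity) hc1
  have e1 : (2 : ℤ) ^ (2 * j - 2) = 2 ^ (j - 2) * 2 ^ j := by
    rw [← pow_add]
    congr 1
    omega
  have h32 : (32 : ℤ) ≤ 2 ^ (j - 2) := by
    calc (32 : ℤ) = 2 ^ 5 := by norm_num
      _ ≤ 2 ^ (j - 2) := pow_le_pow_right₀ (by norm_num) (by omega)
  have h128 : (128 : ℤ) ≤ 2 ^ j := by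
    calc (128 : ℤ) = 2 ^ 7 := by norm_num
      _ ≤ 2 ^ j := pow_le_pow_right₀ (by norm_num) hj
  have hn2 : 32 * (2 : ℤ) ^ j ≤ n := by
    rw [e1] at hn1
    exact (mul_le_mul_of_nonneg_right h32 (by positivity)).trans hn1
  have h3j : (0 : ℤ) < 3 ^ j := by positivity
  have hBbig : 25 * n ≤ B := by
    rw [hB]
    nlinarith
  have e2 : (2 : ℤ) ^ (2 * j + 1) = 8 * 2 ^ (2 * j - 2) := by
    have : 2 * j + 1 = 3 + (2 * j - 2) := by omega
    rw [this, pow_add]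
    norm_num
  rw [e2] at h
  nlinarith

/-- For `k ≥ 8` the only integer roots of `F_{4,k}` are among `1, 2, 3, 4`, and `k_max(4) = 7`. -/
theorem result :
    (∀ k : ℕ, 8 ≤ k → ∀ n : ℤ, F 4 k n = 0 → 1 ≤ n ∧ n ≤ 4) ∧ IsGreatest (nontrivial 4) 7 := by
  have key : ∀ k : ℕ, 8 ≤ k → ∀ n : ℤ, F 4 k n = 0 → 1 ≤ n ∧ n ≤ 4 := by
    intro k hk n hF
    obtain ⟨j, rfl⟩ : ∃ j, k = j + 1 := ⟨k - 1, by omega⟩
    have hj : 7 ≤ j := by omega
    have h1 := F4 j n
    rw [hF, mul_zero] at h1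
    have h2 : n * (n - 1) * (n - 2) - 3 * 2 ^ j * (n * (n - 1)) + 6 * 3 ^ j * n - 6 * 4 ^ j = 0 := by
      have : ((n * (n - 1) * (n - 2) - 3 * 2 ^ j * (n * (n - 1)) + 6 * 3 ^ j * n - 6 * 4 ^ j : ℤ)
          : ℚ) = 0 := by
        push_cast
        exact h1.symm
      exact_mod_cast this
    have p2 : (0 : ℤ) < 2 ^ j := by positivity
    have p3 : (0 : ℤ) < 3 ^ j := by positivity
    have p4 : (0 : ℤ) < 4 ^ j := by positivity
    have hpos : 0 < n := by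
      by_contra hle
      push Not at hle
      have a1 : n * (n - 1) * (n - 2) ≤ 0 := by
        have : 0 ≤ (1 - n) * (2 - n) := mul_nonneg (by linarith) (by linarith)
        nlinarith
      have a2 : 0 ≤ 3 * 2 ^ j * (n * (n - 1)) := by
        have : 0 ≤ n * (n - 1) := by nlinarith
        positivity
      have a3 : 6 * 3 ^ j * n ≤ 0 := mul_nonpos_of_nonneg_of_nonpos (by positivity) hle
      linarith
    obtain ⟨B, hB⟩ : ∃ B : ℤ, B = n ^ 2 - 3 * n + 2 - 3 * 2 ^ j * (n - 1) + 6 * 3 ^ j := ⟨_, rfl⟩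
    have h4 : (4 : ℤ) ^ j = 2 ^ (2 * j) := by rw [pow_mul]; norm_num
    have hnB : n * B = 3 * 2 ^ (2 * j + 1) := by
      have e5 : (2 : ℤ) ^ (2 * j + 1) = 2 * 4 ^ j := by rw [pow_succ, ← h4]; ring
      rw [hB, e5]
      linear_combination h2
    lift n to ℕ using hpos.le
    have hd : n ∣ 3 * 2 ^ (2 * j + 1) := by
      have : (n : ℤ) ∣ ((3 * 2 ^ (2 * j + 1) : ℕ) : ℤ) := by
        push_cast
        exact ⟨B, hnB.symm⟩
      exact_mod_cast this
    obtain ⟨c, d, hc, hdd, hcd⟩ := (Nat.dvd_mul).1 hd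
    obtain ⟨a, -, rfl⟩ := (Nat.dvd_prime_pow Nat.prime_two).1 hdd
    have hc' : c = 1 ∨ c = 3 := (Nat.dvd_prime Nat.prime_three).1 hc
    rcases Nat.lt_or_ge a 4 with ha | ha
    · by_contra hcon
      have hn5 : 5 ≤ n := by omega
      have hn : n = 6 ∨ n = 8 ∨ n = 12 ∨ n = 24 := by
        rcases hc' with rfl | rfl <;> interval_cases a <;> omega
      have h5 : n * ((n - 1) * (n - 2)) + 6 * 3 ^ j * n =
          3 * 2 ^ j * (n * (n - 1)) + 6 * 4 ^ j := by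
        have e1 : ((n - 1 : ℕ) : ℤ) = (n : ℤ) - 1 := by
          rw [Nat.cast_sub (by omega)]
          rfl
        have e2 : ((n - 2 : ℕ) : ℤ) = (n : ℤ) - 2 := by
          rw [Nat.cast_sub (by omega)]
          rfl
        have : ((n * ((n - 1) * (n - 2)) + 6 * 3 ^ j * n : ℕ) : ℤ) =
            ((3 * 2 ^ j * (n * (n - 1)) + 6 * 4 ^ j : ℕ) : ℤ) := by
          push_cast
          rw [e1, e2]
          linarith
        exact_mod_cast this
      exact small hj hn h5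
    · exfalso
      rw [← hcd] at hB hnB
      exact large hj hc' ha B hB hnB
  refine ⟨key, ⟨⟨by norm_num, 8, by norm_num, ?_⟩, ?_⟩⟩
  · have h := F4 6 8
    norm_num at h ⊢
    linarith
  · rintro k ⟨-, n, hn, hF⟩
    by_contra hlt
    exact hn (by exact_mod_cast key k (by omega) n hF)

end Pool.Agent.Results.MP_b5d28a_nt.CaseFour
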