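import Mathlib
import Pool.Agent.Q7.DC.Pps

/-!
# Deligne's conjecture over number fields without new zeros

`Pool.Agent.H541R3.ART.Irr G` is the set of irreducible complex characters of the finite group `G`.

Let `E` be an elliptic curve over `ℚ` (or a newform of weight `≥ 2` with rational coefficients) and
`M/ℚ` a Galois extension with group `G`, solvable or not, such that `E` is automorphic over `M`. By
solvable descent `E` is automorphic over the fixed field `M ^ H` for every SOLVABLE subgroup `H` of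
`G`, but this is not known for the other fields between `ℚ` and `M`.
`Pool.Agent.Q7.SZ.TwistData G s₀` is a family of functions with the known formal properties of the
twisted L-functions of `E` near the point `s₀`: `L χ` (for `L(E ⊗ χ, s)`, `χ ∈ Irr G`), meromorphic
and not identically zero (Brauer), and `Lin H ψ` (for `L(E / M ^ H ⊗ ψ, s)`, `ψ` a linear character
of a subgroup `H`) without pole at `s₀` if `H` is solvable, which are the products of the
`L χ ^ ⟨χ|_H, ψ⟩` (induction). In particular `Lin H 1` is `L(E / M ^ H, s)`, the L-function of the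
motive `h¹(E / M ^ H)` over `ℚ`, with rational coefficients. No functional equation is used, and `s₀`
and the orders are arbitrary.

`N` is a normal subgroup, solvable or not, such that `G / N` is a `p`-group; `F = M ^ N` is a
`p`-extension of `ℚ`, for example `F = ℚ` (`N = G`). `Z` is a central subgroup. Application: `M` is a
CM field, `c` complex conjugation and `Z = {1, c}`; then the fields `M ^ H` with `Z ≤ H` are the
(totally real) fields between `ℚ` and `M⁺`. (For totally real `M` take `Z = 1`.)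

`Pool.Agent.Q7.GR.galL σ ψ` is the linear character `h ↦ σ (ψ h)`, `σ` an automorphism of `ℂ`, and
`Pool.Agent.Q7.DC.Agree σ s₀ g a g' a'` says that `g`, `g'` have values `v` and `v'` at `s₀`, and
`σ (v / a) = v' / a'`. `Pool.Agent.Q7.DC.Periods A` is a family of numbers `per χ ≠ 0` with the
products `perLin H ψ = ∏ per χ ^ ⟨χ|_H, ψ⟩` (for `Ind ψ`). Application: `per χ` is the Gauss sum of
`det χ`, times a fixed power of `2πi` to the power `χ(1)`; up to a power of `2πi` and a rational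
factor `perLin H 1` is the square root of the discriminant of `M ^ H`.

The hypothesis in part (3) is, for a critical integer `s₀` and the set `T` of all automorphisms of
`ℂ`, a theorem of Shimura (Duke Math. J. 45, 1978) on the Hilbert modular form of `E` over the
totally real fields `M ^ H`, `H` solvable: there are periods `u H ψ`, which depend on `M ^ H` and the
sign `ψ(c)` only, such that `L(E / M ^ H ⊗ ψ, s₀)`, divided by the Gauss sum of `ψ`, a power of `2πi`
and this period, is an algebraic number with the expected conjugates.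
-/

set_option autoImplicit false

open Pool.Agent.H541R3.ART Pool.Agent.H302R2 Pool.Agent.H302R3 Pool.Agent.W446.AS
  Pool.Agent.Q7.TZ Pool.Agent.Q7.SZ Pool.Agent.Q7.GR Pool.Agent.Q7.DC Topology

/-- Let `N` be a normal subgroup of `G` such that `G / N` is a `p`-group, `F = M ^ N`, and suppose
that `L(E/M, s)` and `L(E/F, s)` have the same order at `s₀` (no new zeros in `M/F`). Then:
(1) For ALL irreducible characters `χ` of `G` the function `L(E ⊗ χ, s)` is holomorphic at `s₀`, and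
it is not zero there if `χ` does not factor through `Gal(F/ℚ)`.
(2) If `L(E ⊗ χ, s₀)` is not zero, there are solvable subgroups `H_i` containing `Z`, linear
characters `ψ_i` of them with `L(E / M ^ H_i ⊗ ψ_i, s₀)` NOT ZERO and `ψ_i = χ / χ(1)` on `Z`, and
integers `a_i`, such that `L(E ⊗ χ, s) = ∏ L(E / M ^ H_i ⊗ ψ_i, s) ^ a_i` near `s₀`, and the same for
all conjugates `σ ∘ χ`, `σ ∘ ψ_i`.
(3) Suppose that for `σ ∈ T`, the SOLVABLE `H` containing `Z` and their linear characters `ψ` the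
values `L(E / M ^ H ⊗ ψ, s₀)` are `σ`-equivariant with the periods `perLin H ψ * u H ψ`. Then there is
for every `χ` a product `v` of powers of numbers `u H ψ`, with `ψ = χ / χ(1)` on `Z`, such that
`σ (L(E ⊗ χ, s₀) / (per χ * v)) = L(E ⊗ (σ ∘ χ), s₀) / (per (σ ∘ χ) * v)` for all `σ ∈ T`. And for ALL
subgroups `J` and their linear characters `ψ` there is a product `v` of powers of the numbers `u`
such that `L(E / M ^ J ⊗ ψ, s₀) / (perLin J ψ * v)` is `σ`-equivariant for all `σ ∈ T`. If `ψ = 1` and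
`T` is the set of all automorphisms of `ℂ`, this number is fixed by all automorphisms, so it is
rational: `L(E / M ^ J, s₀)` is a rational multiple of `perLin J 1 * v`. -/
theorem Pool.Agent.Results.MP_b696eb_nt.FieldsWithoutNewZeros.result
    (G : Type) [Group G] [Finite G] (s₀ : ℂ) (A : TwistData G s₀)
    (Z N : Subgroup G) (hZ : Z ≤ Subgroup.center G) (hN : N.Normal) (p : ℕ) (hp : p.Prime)
    (hG : IsPGroup p (G ⧸ N))
    (hr : meromorphicOrderAt (A.Lin ⊥ 1) s₀ = meromorphicOrderAt (A.Lin N 1) s₀) :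
    (∀ χ ∈ Irr G, 0 ≤ meromorphicOrderAt (A.L χ) s₀ ∧
      ((∃ n ∈ N, χ n ≠ χ 1) → meromorphicOrderAt (A.L χ) s₀ = 0)) ∧
    (∀ χ ∈ Irr G, meromorphicOrderAt (A.L χ) s₀ = 0 →
      ∃ l : List ((Σ H : Subgroup G, (H →* ℂˣ)) × ℤ),
        (∀ t ∈ l, Z ≤ t.1.1 ∧ Group.IsSolvable t.1.1 ∧
          (∀ z ∈ Z, ∀ hz' : z ∈ t.1.1, χ z = ((t.1.2 ⟨z, hz'⟩ : ℂˣ) : ℂ) * χ 1) ∧
          meromorphicOrderAt (A.Lin t.1.1 t.1.2) s₀ = 0) ∧
        A.L χ =ᶠ[𝓝[≠] s₀] (fun s => (l.map fun t => A.Lin t.1.1 t.1.2 s ^ t.2).prod) ∧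
        ∀ σ : ℂ ≃+* ℂ, A.L (fun g => σ (χ g)) =ᶠ[𝓝[≠] s₀]
          fun s => (l.map fun t => A.Lin t.1.1 (galL σ t.1.2) s ^ t.2).prod) ∧
    (∀ (P : Periods A) (T : Set (ℂ ≃+* ℂ)) (u : (H : Subgroup G) → (H →* ℂˣ) → ℂˣ),
      (∀ σ ∈ T, ∀ H : Subgroup G, Z ≤ H → Group.IsSolvable H → ∀ ψ : H →* ℂˣ,
        Agree σ s₀ (A.Lin H ψ) (P.perLin H ψ * (u H ψ : ℂ))
          (A.Lin H (galL σ ψ)) (P.perLin H (galL σ ψ) * (u H ψ : ℂ))) →
      (∀ χ ∈ Irr G, ∃ v ∈ Subgroup.closure {x : ℂˣ | ∃ (H : Subgroup G) (ψ : H →* ℂˣ), Z ≤ H ∧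
          Group.IsSolvable H ∧
          (∀ z ∈ Z, ∀ hz' : z ∈ H, χ z = ((ψ ⟨z, hz'⟩ : ℂˣ) : ℂ) * χ 1) ∧ x = u H ψ},
        ∀ σ ∈ T, Agree σ s₀ (A.L χ) (P.per χ * (v : ℂ)) (A.L fun g => σ (χ g))
            (P.per (fun g => σ (χ g)) * (v : ℂ))) ∧
      ∀ (J : Subgroup G) (ψ : J →* ℂˣ), ∃ v ∈ Subgroup.closure {x : ℂˣ | ∃ (H : Subgroup G)
          (ψ : H →* ℂˣ), Z ≤ H ∧ Group.IsSolvable H ∧ x = u H ψ},
        ∀ σ ∈ T, Agree σ s₀ (A.Lin J ψ) (P.perLin J ψ * (v : ℂ)) (A.Lin J (galL σ ψ))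
            (P.perLin J (galL σ ψ) * (v : ℂ))) := by
  classical
  refine ⟨?_, ?_, ?_⟩
  · intro χ hχ
    rw [← A.coe_ord hχ]
    refine ⟨by exact_mod_cast nonneg_pp A hN hp hG hr hχ, ?_⟩
    rintro ⟨n, hn, hne⟩
    by_contra hcon
    have h0 : A.ord χ ≠ 0 := fun h => hcon (by rw [h]; rfl)
    obtain ⟨η, -, rfl⟩ := supp_coset A hN hp hG hr hχ h0
    apply hne
    have h1 : QuotientGroup.mk' N n = 1 := (QuotientGroup.eq_one_iff n).mpr hn
    simp only [h1, map_one]
  · intro χ hχ h0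
    have h1 : A.ord χ = 0 := by
      rw [← A.coe_ord hχ] at h0
      exact_mod_cast h0
    obtain ⟨l, h2, h3⟩ := expand_pp A hZ hN hp hG hr hχ h1
    refine ⟨l, h2, ?_, fun σ => L_expand_gal A hχ h3 σ⟩
    have h4 := L_expand_gal A hχ h3 (RingEquiv.refl ℂ)
    simp only [galL_refl] at h4
    exact h4
  · intro P T u hu
    have h1 := values_pp A P hZ hN hp hG hr T u hu
    refine ⟨h1, fun J ψ => ?_⟩
    have h2 : ∀ χ : G → ℂ, ∃ v ∈ Subgroup.closure {x : ℂˣ | ∃ (H : Subgroup G)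
        (ψ : H →* ℂˣ), Z ≤ H ∧ Group.IsSolvable H ∧ x = u H ψ}, χ ∈ Irr G →
        ∀ σ ∈ T, Agree σ s₀ (A.L χ) (P.per χ * (v : ℂ)) (A.L fun g => σ (χ g))
          (P.per (fun g => σ (χ g)) * (v : ℂ)) := by
      intro χ
      by_cases hχ : χ ∈ Irr G
      · obtain ⟨v, hv, hv'⟩ := h1 χ hχ
        refine ⟨v, Subgroup.closure_mono ?_ hv, fun _ => hv'⟩
        rintro x ⟨H, ψ', i1, i2, -, i4⟩
        exact ⟨H, ψ', i1, i2, i4⟩
      · exact ⟨1, one_mem _, fun h => absurd h hχ⟩
    choose v hv hv' using h2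
    refine ⟨∏ χ ∈ irrF G, v χ ^ mt J ψ χ, Subgroup.prod_mem _ fun χ _ =>
      Subgroup.pow_mem _ (hv χ) _, fun σ hσ => ?_⟩
    exact agree_lin_v A P σ v (fun χ hχ => hv' χ hχ σ hσ) J ψ
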