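import Mathlib

set_option autoImplicit false

/-!
# A vertex in the right number of triangles that no antimorphism fixes
-/

namespace Pool.Agent.Results.MP_b6be33_co.Converse

/-- `P` is an isomorphism-permutation of `G`: an isomorphism of `G` onto its complement. -/
def IsoPerm {V : Type} (G : SimpleGraph V) (P : Equiv.Perm V) : Prop :=
  ∀ u v : V, u ≠ v → (G.Adj u v ↔ ¬ G.Adj (P u) (P v))

/-- Adjacency of the nine-vertex graph, from the upper half of its adjacency lists. -/
def up : Fin 9 → List (Fin 9)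
  | 0 => [2, 4, 5, 7]
  | 1 => [4, 6, 7, 8]
  | 2 => [3, 4, 6]
  | 3 => [5, 6, 8]
  | 4 => [8]
  | 5 => [6, 7]
  | 6 => []
  | 7 => [8]
  | 8 => []

/-- The nine-vertex graph. -/
def G : SimpleGraph (Fin 9) where
  Adj x y := y ∈ up x ∨ x ∈ up y
  symm := ⟨fun _ _ h => h.symm⟩
  loopless := ⟨by decide⟩

instance : DecidableRel G.Adj := fun x y => inferInstanceAs (Decidable (y ∈ up x ∨ x ∈ up y))

/-- An antimorphism with cycles `(0)(1 2 3 4)(5 6 7 8)`. -/
def P : Equiv.Perm (Fin 9) where
  toFun := ![0, 2, 3, 4, 1, 6, 7, 8, 5]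
  invFun := ![0, 4, 1, 2, 3, 8, 5, 6, 7]
  left_inv := by decide
  right_inv := by decide

lemma anti : IsoPerm G P := by
  unfold IsoPerm
  decide

lemma reg : G.IsRegularOfDegree 4 := by
  intro v
  revert v
  decide

lemma noncentre : ∀ a b c : Fin 9, a ≠ b → a ≠ c → b ≠ c → 1 ≠ a → 1 ≠ b → 1 ≠ c →
    ¬ G.Adj 1 a → ¬ G.Adj 1 b → ¬ G.Adj 1 c → ¬ G.Adj a b → G.Adj a c := by
  decide

lemma notfixed (Q : Equiv.Perm (Fin 9)) (hQ : IsoPerm G Q) : Q 1 ≠ 1 := by
  intro h
  have inj := Q.injective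
  have h8 : ¬ G.Adj 1 (Q 8) := by
    have := (hQ 1 8 (by decide)).1 (by decide); rwa [h] at this
  have h4 : ¬ G.Adj 1 (Q 4) := by
    have := (hQ 1 4 (by decide)).1 (by decide); rwa [h] at this
  have h7 : ¬ G.Adj 1 (Q 7) := by
    have := (hQ 1 7 (by decide)).1 (by decide); rwa [h] at this
  have ne : ∀ x : Fin 9, 1 ≠ x → 1 ≠ Q x := fun x hx hh => hx (inj (h.trans hh))
  have e84 : ¬ G.Adj (Q 8) (Q 4) := (hQ 8 4 (by decide)).1 (by decide)
  have e87 : ¬ G.Adj (Q 8) (Q 7) := (hQ 8 7 (by decide)).1 (by decide)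
  exact e87 (noncentre (Q 8) (Q 4) (Q 7) (inj.ne (by decide)) (inj.ne (by decide))
    (inj.ne (by decide)) (ne 8 (by decide)) (ne 4 (by decide)) (ne 7 (by decide)) h8 h4 h7 e84)

/-- The negated form of the question: it is not true that in every regular self-complementary graph
on `4 k + 1` vertices every vertex in exactly `k (k - 1)` triangles is fixed by some
isomorphism-permutation. -/
theorem result :
    ¬ ∀ (k : ℕ) (G : SimpleGraph (Fin (4 * k + 1))), Nonempty (G ≃g Gᶜ) →
        (∀ v, (G.neighborSet v).ncard = 2 * k) →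
        ∀ v, {T : Finset (Fin (4 * k + 1)) | G.IsNClique 3 T ∧ v ∈ T}.ncard = k * (k - 1) →
          ∃ P : Equiv.Perm (Fin (4 * k + 1)), IsoPerm G P ∧ P v = v := by
  intro H
  obtain ⟨Q, hQ, h1⟩ := H 2 G
    ⟨⟨P, by
      intro a b
      by_cases hab : a = b
      · subst hab; simp
      · rw [SimpleGraph.compl_adj]
        have := anti a b hab
        constructor
        · intro h; exact this.2 h.2
        · intro h; exact ⟨P.injective.ne hab, this.1 h⟩⟩⟩
    (fun v => by
      rw [Set.ncard_eq_toFinset_card', ← SimpleGraph.neighborFinset_def,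
        SimpleGraph.card_neighborFinset_eq_degree]
      exact reg v)
    1 (by
      have e : {T : Finset (Fin (4 * 2 + 1)) | G.IsNClique 3 T ∧ 1 ∈ T} =
          (((G.cliqueFinset 3).filter (fun T => 1 ∈ T) : Finset (Finset (Fin 9))) :
            Set (Finset (Fin 9))) := by
        ext T; simp
      rw [e, Set.ncard_coe_finset]
      decide)
  exact notfixed Q hQ h1

end Pool.Agent.Results.MP_b6be33_co.Converse
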