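import Mathlib
import Pool.Agent.Q85.HN.C
set_option autoImplicit false

/-! The restriction conjecture for the paraboloid in `ℝ^d`, `d = n + 1 ≥ 3`, in the full range
`q > 2d/(d-1)`, for functions `M(a_1(ξ·e_1), …, a_n(ξ·e_n))` and their countable sums, where `M` is
a bounded multilinear form on a Hilbert space, `e` is any orthonormal frame and the factors `a_j`
are in `L^(p_j)`, with a separate exponent for each factor and all exponents down to the scaling
line. -/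

namespace Pool.Agent.Results.MP_b7167f_an.MixedExponents

open MeasureTheory Set Complex Matrix
open scoped ENNReal NNReal

/-- The extension operator of the paraboloid in `ℝ^(n+1)`. For functions which vanish outside the
cube `[-1,1]^n` it is the extension operator of the problem. -/
noncomputable def ext {n : ℕ} (f : (Fin n → ℝ) → ℂ) (y : (Fin n → ℝ) × ℝ) : ℂ :=
  ∫ ξ : Fin n → ℝ,
    f ξ * cexp (2 * Real.pi * I * ((∑ j, ξ j * y.1 j + (∑ j, ξ j ^ 2) * y.2 : ℝ) : ℂ))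

/-- The `L^p` norm on `[-1, 1]`. -/
noncomputable def norm {H : Type} [NormedAddCommGroup H] (p : ℝ) (a : ℝ → H) : ℝ≥0∞ :=
  eLpNorm a (ENNReal.ofReal p) (volume.restrict (Icc (-1) 1))

/-- `M(a_1(z_1), …, a_n(z_n))` with `z = O ξ`, restricted to `z ∈ [-1,1]^n`. -/
noncomputable def kernel {H : Type} [NormedAddCommGroup H] [InnerProductSpace ℂ H] {n : ℕ}
    (M : ContinuousMultilinearMap ℂ (fun _ : Fin n => H) ℂ) (a : Fin n → ℝ → H)
    (O : Matrix (Fin n) (Fin n) ℝ) (ξ : Fin n → ℝ) : ℂ :=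
  (Icc (-1 : Fin n → ℝ) 1).indicator (fun z => M fun j => a j (z j)) (O *ᵥ ξ)

theorem result (n : ℕ) (hn : 2 ≤ n) (q : ℝ) (hq : 1 < q) (p : Fin n → ℝ) (hp : ∀ j, 1 ≤ p j)
    (h1 : ∀ j, 1 / p j < 1 - 1 / q)
    (h2 : ∑ j, max (1 / p j) (1 / q) < n - (n + 2) / q) : ∃ C : ℝ≥0, ∀ (H : Type)
    [NormedAddCommGroup H] [InnerProductSpace ℂ H] [CompleteSpace H]
    (M : ℕ → ContinuousMultilinearMap ℂ (fun _ : Fin n => H) ℂ) (a : ℕ → Fin n → ℝ → H)
    (O : ℕ → Matrix (Fin n) (Fin n) ℝ) (f : (Fin n → ℝ) → ℂ),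
    (∀ k x, ‖M k x‖ ≤ ∏ j, ‖x j‖) → (∀ k, (O k)ᵀ * O k = 1) →
    (∀ k j, StronglyMeasurable (a k j)) → (∀ k j, norm (p j) (a k j) < ⊤) →
    (∀ᵐ ξ, f ξ = ∑' k, kernel (M k) (a k) (O k) ξ) →
    eLpNorm (ext f) (ENNReal.ofReal q) volume ≤ C * ∑' k, ∏ j, norm (p j) (a k j) := by
  obtain ⟨C, hC⟩ := Pool.Agent.Q85.HN.main n hn q hq p hp h1 h2
  refine ⟨C, ?_⟩
  intro H _ _ _ M a O f hM hO ha hN hf
  have h3 := hC H M a O f hM hO ha (fun k j => (hN k j).ne) hf
  have h4 : ext f = Pool.Agent.Q85.HN.EN f := by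
    ext y
    unfold ext Pool.Agent.Q85.HN.EN Pool.Agent.Q85.HN.pn Pool.Agent.TH277.HT.ch
    simp only [mul_comm (f _)]
  rw [h4]
  exact h3

end Pool.Agent.Results.MP_b7167f_an.MixedExponents
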