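import Pool.Agent.Q50.MU.Growth

/-!
# Abelian extensions of an imaginary quadratic field: the `μ`-invariant grows in every non-cyclic `p`-extension

Let `k` be an imaginary quadratic field, `K / k` an abelian extension of degree prime to `p` and `M / k` a Galois
`p`-extension with `M ∩ k_∞ = k` whose group has a quotient `(ℤ/p)^d`, `d ≥ 1`. Then
`μ(K M) ≥ μ(K) + (d - 1) m(K)`, where `m(K)` is the number of the summands `Λ / (p ^ (m_i))` of `X(K_∞)`. So if the group of
`M / k` is not cyclic then `μ(K M) > μ(K)` unless `μ(K) = 0`. The reason is that every character of `Gal(K / k)` gives a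
module over the group ring of `Gal(M / k)` which has only one relation more than generators.
-/

set_option autoImplicit false
set_option maxHeartbeats 4000000
set_option synthInstance.maxHeartbeats 400000

namespace Pool.Agent.Results.MP_b78433_nt.StrictGrowth

open Pool.Agent.Q173.MU Pool.Agent.Q50.MU NumberField IsLocalRing

/-- The exponent of `p` in the class number of `K`. -/
noncomputable def vh (p : ℕ) (K : IntermediateField ℚ ℂ) : ℕ := padicValNat p (Nat.card (ClassGroup (𝓞 K)))

/-- The exponent of `p` in the class number, as a real number. -/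
noncomputable def vR (p : ℕ) (K : IntermediateField ℚ ℂ) : ℝ := vh p K

/-- The conjecture for the field `K`: the exponent of `p` in the class number of the `m`-th layer of the cyclotomic
`ℤ_p`-extension of `K` is at most `C (m + 1)`, i.e. the `μ`-invariant is zero. -/
def MuZero (p : ℕ) (K : IntermediateField ℚ ℂ) : Prop :=
  ∃ C : ℕ, ∀ m L, IsLayer p m K L → vh p L ≤ C * (m + 1)

/-- `K` is a finite abelian extension of `k`. -/
def IsAbelian (k K : IntermediateField ℚ ℂ) : Prop :=
  ∃ h : k ≤ K, FiniteDimensional ℚ K ∧ IsGalois k (IntermediateField.extendScalars h) ∧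
    ∀ σ τ : GalGrp h, σ * τ = τ * σ

/-- `K` is a finite abelian extension of `k` of degree prime to `p`. -/
def IsTame (p : ℕ) (k K : IntermediateField ℚ ℂ) : Prop := IsAbelian k K ∧ ¬ p ∣ deg k K

/-- `M / k` is a Galois `p`-extension with `M ∩ k_∞ = k` and `K M ∩ K_∞ = K` whose group has a quotient `(ℤ/p)^d`. -/
def IsPExt (p d : ℕ) (k K M : IntermediateField ℚ ℂ) : Prop :=
  ∃ h : k ≤ M, IsExt p h ∧ IsPGroup p (GalGrp h) ∧ HasElemQuot p d (GalGrp h) ∧ IsDisj p K (K ⊔ M)

/-- Local rings and modules for the characters: `ι K` is the set of the irreducible characters `ψ` of `Gal(K / k)` over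
`ℚ_p`, `O K ψ` the localisation at `(p)` of `ℤ_p[ψ][[T]]`, `d K ψ` the degree of `ℤ_p[ψ]` over `ℤ_p`, and `X K ψ M` the
`ψ`-component of the unramified Iwasawa module of the field `K M`, localised at `(p)`. -/
structure CharData where
  /-- the characters -/
  ι : IntermediateField ℚ ℂ → Type
  [fin : ∀ K, Fintype (ι K)]
  /-- the degrees -/
  d : ∀ K, ι K → ℕ
  /-- the rings -/
  O : ∀ K, ι K → Type
  [ring : ∀ K i, CommRing (O K i)]
  [loc : ∀ K i, IsLocalRing (O K i)]
  /-- the modules -/
  X : ∀ K, ι K → IntermediateField ℚ ℂ → Type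
  [grp : ∀ K i M, AddCommGroup (X K i M)]
  [mod : ∀ K i M, Module (O K i) (X K i M)]

attribute [instance] CharData.fin CharData.ring CharData.loc CharData.grp CharData.mod

/-- The `μ`-invariant of `K M`: the sum of the `μ`-invariants of the components. -/
noncomputable def CharData.mu (D : CharData) (K M : IntermediateField ℚ ℂ) : ℕ :=
  ∑ i : D.ι K, D.d K i * (Module.length (D.O K i) (D.X K i M)).toNat

/-- The number `m(K)` of the summands `Λ / (p ^ (m_i))` of `X(K_∞)`: the sum of the numbers of generators of the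
components. -/
noncomputable def CharData.m (D : CharData) (K k : IntermediateField ℚ ℂ) : ℕ :=
  ∑ i : D.ι K, D.d K i * rk (D.O K i) (D.X K i k)

/-- The known properties. -/
structure Known (D : CharData) (p : ℕ) (k : IntermediateField ℚ ℂ) : Prop where
  /-- the residue fields are infinite of characteristic `p`, and the degrees are positive -/
  loc : ∀ K i, Infinite (ResidueField (D.O K i)) ∧ CharP (ResidueField (D.O K i)) p ∧ 0 < D.d K i
  /-- the rings are discrete valuation rings of characteristic zero -/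
  dvr : ∀ K i, IsDvr (D.O K i)
  /-- the modules have finite length (Iwasawa) -/
  torsion : ∀ K i M, Module.Finite (D.O K i) (D.X K i M) ∧ Module.length (D.O K i) (D.X K i M) ≠ ⊤
  /-- Iwasawa's formula for the fields `K` -/
  formula : ∀ K, IsTame p k K → HasFormula p (vR p) K (D.mu K k)
  /-- Iwasawa's formula for the fields `K M` -/
  formulaM : ∀ K M d, IsTame p k K → IsPExt p d k K M → HasFormula p (vR p) (K ⊔ M) (D.mu K M)
  /-- Presentations: if `M / k` is a finite Galois `p`-extension with group `G` and `M ∩ k_∞ = k`, then `X K ψ M` is a module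
  over the group ring of `G` with `g` generators and `g + 1` relations, `g` the number of generators of `X K ψ k`, and its
  coinvariants are `X K ψ k`. (This is the `ψ`-component of `RΓ_Iw(𝓞_{k,S}, ℤ_p[G × Gal(K / k)](1))`, localised at `(p)`,
  whose Euler characteristic is minus the number of the complex places of `k`, for every `ψ`.) -/
  pres : ∀ (K M : IntermediateField ℚ ℂ) (i : D.ι K) (h : k ≤ M), IsTame p k K → IsExt p h → IsPGroup p (GalGrp h) →
    IsPres (D.O K i) (GalGrp h) (D.X K i M) (D.X K i k) (rk (D.O K i) (D.X K i k)) (rk (D.O K i) (D.X K i k) + 1)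
  /-- The result of Iwasawa quoted in the problem: every finite abelian extension `K'` of `k` contains one of degree prime
  to `p` such that the conjecture for it implies the conjecture for `K'`. -/
  descent : ∀ K', IsAbelian k K' → ∃ K, IsTame p k K ∧ (MuZero p K → MuZero p K')
  layers : HasLayers p
  /-- There are Galois `p`-extensions `M / k` as above with the group `(ℤ/p)^2`, also abelian over `k`. -/
  ext : ∀ K, IsTame p k K → ∃ M, IsPExt p 2 k K M

section

variable {p : ℕ} [hp : Fact p.Prime] {D : CharData} {k : IntermediateField ℚ ℂ}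

omit hp in
lemma muZero_iff_small (F : IntermediateField ℚ ℂ) : MuZero p F ↔ IsSmall p (vR p) F := by
  constructor
  · rintro ⟨C, hC⟩
    refine ⟨C, fun m K hK => ?_⟩
    have h1 := hC m K hK
    unfold vR
    exact_mod_cast h1
  · rintro ⟨C, hC⟩
    refine ⟨⌈C⌉₊, fun m K hK => ?_⟩
    have h1 := hC m K hK
    have h2 : (vh p K : ℝ) ≤ (⌈C⌉₊ * (m + 1) : ℕ) := by
      refine h1.trans ?_
      push_cast
      exact mul_le_mul_of_nonneg_right (Nat.le_ceil C) (by positivity)
    exact_mod_cast h2

omit hp in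
lemma fin_tame {K : IntermediateField ℚ ℂ} (hK : IsTame p k K) : FiniteDimensional ℚ K := by
  obtain ⟨⟨_, h, _⟩, _⟩ := hK
  exact h

lemma muZero_iff (hD : Known D p k) {K : IntermediateField ℚ ℂ} (hK : IsTame p k K) :
    MuZero p K ↔ D.mu K k = 0 := by
  rw [muZero_iff_small, isSmall_iff hD.layers (fin_tame hK) (hD.formula K hK)]

omit hp in
lemma mu_zero_iff (hD : Known D p k) (K : IntermediateField ℚ ℂ) : D.mu K k = 0 ↔ D.m K k = 0 := by
  unfold CharData.mu CharData.m
  rw [Finset.sum_eq_zero_iff, Finset.sum_eq_zero_iff]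
  refine forall_congr' fun i => forall_congr' fun _ => ?_
  obtain ⟨h1, h2⟩ := hD.torsion K i k
  have hd := (hD.loc K i).2.2
  have h3 : rk (D.O K i) (D.X K i k) = 0 ↔ Module.length (D.O K i) (D.X K i k) = 0 := rk_eq_zero_iff
  rw [mul_eq_zero, mul_eq_zero, h3, ENat.toNat_eq_zero]
  constructor
  · rintro (h | h | h)
    · exact Or.inl h
    · exact Or.inr h
    · exact absurd h h2
  · rintro (h | h)
    · exact Or.inl h
    · exact Or.inr (Or.inl h)

/-- the growth of one component -/
lemma comp_growth (hD : Known D p k) {K M : IntermediateField ℚ ℂ} {d : ℕ} (hK : IsTame p k K)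
    (hM : IsPExt p d k K M) (i : D.ι K) :
    (Module.length (D.O K i) (D.X K i k)).toNat + d * rk (D.O K i) (D.X K i k) ≤
      (Module.length (D.O K i) (D.X K i M)).toNat + 1 := by
  obtain ⟨h, hE, hP, hd, -⟩ := hM
  have hfin := finite_gal hE
  have hC := (hD.loc K i).2.1
  exact len_add_ge (p := p) (hD.dvr K i) hP (hD.pres K M i h hK hE hP) (hD.torsion K i M).2 (hD.torsion K i k).2 hd

/-- **The growth of the `μ`-invariant.** -/
lemma mu_growth (hD : Known D p k) {K M : IntermediateField ℚ ℂ} {d : ℕ} (hd : 1 ≤ d) (hK : IsTame p k K)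
    (hM : IsPExt p d k K M) : D.mu K k + (d - 1) * D.m K k ≤ D.mu K M := by
  unfold CharData.mu CharData.m
  rw [Finset.mul_sum, ← Finset.sum_add_distrib]
  refine Finset.sum_le_sum fun i _ => ?_
  have h1 := comp_growth hD hK hM i
  obtain ⟨hf, h2⟩ := hD.torsion K i k
  rw [mul_left_comm, ← mul_add]
  refine Nat.mul_le_mul_left _ ?_
  rcases Nat.eq_zero_or_pos (rk (D.O K i) (D.X K i k)) with h0 | h0
  · rw [h0, mul_zero, add_zero]
    rw [rk_eq_zero_iff.1 h0]
    exact Nat.zero_le _
  · obtain ⟨e, rfl⟩ : ∃ e, d = e + 1 := ⟨d - 1, by omega⟩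
    rw [Nat.add_sub_cancel]
    rw [add_mul, one_mul] at h1
    omega

/-- If the `μ`-invariant does not grow in one nontrivial extension then the components are cyclic. -/
lemma cyclic_of_eq (hD : Known D p k) {K M : IntermediateField ℚ ℂ} (hK : IsTame p k K)
    (hM : IsPExt p 1 k K M) (h0 : D.mu K M ≤ D.mu K k) (i : D.ι K) : rk (D.O K i) (D.X K i k) ≤ 1 := by
  have h1 : ∀ j, D.d K j * (Module.length (D.O K j) (D.X K j k)).toNat ≤
      D.d K j * (Module.length (D.O K j) (D.X K j M)).toNat := by
    intro j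
    refine Nat.mul_le_mul_left _ ?_
    have h2 := comp_growth hD hK hM j
    obtain ⟨hf, h3⟩ := hD.torsion K j k
    rcases Nat.eq_zero_or_pos (rk (D.O K j) (D.X K j k)) with h4 | h4
    · rw [rk_eq_zero_iff.1 h4]
      exact Nat.zero_le _
    · omega
  have h2 : D.d K i * (Module.length (D.O K i) (D.X K i M)).toNat ≤
      D.d K i * (Module.length (D.O K i) (D.X K i k)).toNat := by
    by_contra hlt
    rw [not_le] at hlt
    have h3 : D.mu K k < D.mu K M := Finset.sum_lt_sum (fun j _ => h1 j) ⟨i, Finset.mem_univ i, hlt⟩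
    exact absurd h0 (not_le.2 h3)
  have h3 := Nat.le_of_mul_le_mul_left h2 (hD.loc K i).2.2
  have h4 := comp_growth hD hK hM i
  omega

lemma growth (hD : Known D p k) {K M : IntermediateField ℚ ℂ} {d : ℕ} (hd : 1 ≤ d) (hK : IsTame p k K)
    (hM : IsPExt p d k K M) (h0 : ¬ MuZero p K) : GrowsBy p (vR p) K (K ⊔ M) (d - 1) := by
  rw [muZero_iff hD hK, mu_zero_iff hD] at h0
  have h1 := mu_growth hD hd hK hM
  have hKf := fin_tame hK
  have hMf : FiniteDimensional ℚ M := by
    obtain ⟨h, hE, _⟩ := hM
    exact hE.1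
  have hKM : FiniteDimensional ℚ ↥(K ⊔ M) := IntermediateField.finiteDimensional_sup K M
  have hdj : IsDisj p K (K ⊔ M) := by
    obtain ⟨h, _, _, _, hdj⟩ := hM
    exact hdj
  refine growsBy_of le_sup_left hKM hdj (hD.formula K hK) (hD.formulaM K M d hK hM) ?_
  have h2 : (d - 1) * 1 ≤ (d - 1) * D.m K k := Nat.mul_le_mul_left _ (Nat.one_le_iff_ne_zero.2 h0)
  have h3 : D.mu K k + (d - 1) ≤ D.mu K M := by omega
  have h4 : ((D.mu K k + (d - 1) : ℕ) : ℝ) ≤ D.mu K M := by exact_mod_cast h3
  rw [Nat.cast_add, Nat.cast_sub hd, Nat.cast_one] at h4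
  exact h4

omit hp in
/-- the vanishing goes up -/
lemma mu_up (hD : Known D p k) {K M : IntermediateField ℚ ℂ} {d : ℕ} (hK : IsTame p k K)
    (hM : IsPExt p d k K M) (h0 : D.mu K k = 0) : D.mu K M = 0 := by
  obtain ⟨h, hE, hP, _, -⟩ := hM
  have hfin := finite_gal hE
  unfold CharData.mu at h0 ⊢
  rw [Finset.sum_eq_zero_iff] at h0 ⊢
  intro i hi
  have h1 := h0 i hi
  obtain ⟨hf, h2⟩ := hD.torsion K i k
  obtain ⟨hf', h2'⟩ := hD.torsion K i M
  have hdp := (hD.loc K i).2.2
  rw [mul_eq_zero, ENat.toNat_eq_zero] at h1 ⊢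
  have h3 : Module.length (D.O K i) (D.X K i k) = 0 := by
    rcases h1 with h | h | h
    · omega
    · exact h
    · exact absurd h h2
  have h4 := (hD.pres K M i h hK hE hP).rk_le
  rw [rk_eq_zero_iff.2 h3, mul_zero] at h4
  exact Or.inr (Or.inl (rk_eq_zero_iff.1 (Nat.le_zero.1 h4)))

lemma iff_growth (hD : Known D p k) {K M : IntermediateField ℚ ℂ} {d : ℕ} (hd : 1 ≤ d) (hK : IsTame p k K)
    (hM : IsPExt p d k K M) {c : ℝ} (hc : 0 < c) (hc' : c < d - 1) :
    MuZero p K ↔ SmallGrowth p (vR p) K (K ⊔ M) c := by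
  have hKf := fin_tame hK
  constructor
  · intro h0
    rw [muZero_iff hD hK] at h0
    have h2 := hD.formula K hK
    have h3 := hD.formulaM K M d hK hM
    rw [h0] at h2
    rw [mu_up hD hK hM h0] at h3
    exact smallGrowth_of hD.layers le_sup_left hKf h2 h3 hc
  · intro hs
    by_contra h0
    exact not_smallGrowth hKf hc' (growth hD hd hK hM h0) hs

end

/-- Let `p` be a prime, `k` an imaginary quadratic field, `F_m` the `m`-th layer of the cyclotomic `ℤ_p`-extension of
the number field `F`, and `v` the exponent of `p` in the class number. Assume the known properties of the Iwasawa modules.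
Let `K / k` be an abelian extension of degree prime to `p`, `μ(K)` its `μ`-invariant and `m(K)` the number of the summands
`Λ / (p ^ (m_i))` of `X(K_∞)`. Then:

(1) `μ(K) = 0` if and only if `m(K) = 0`. For ALL Galois `p`-extensions `M / k` with `M ∩ k_∞ = k` whose group has a
quotient `(ℤ/p)^d`, `d ≥ 1`, one has `μ(K M) ≥ μ(K) + (d - 1) m(K)`.

(2) Either `v(K_m) = O(m)` (the conjecture for `K`) or `v(K_m M) ≥ v(K_m) + (d - 1) [K_m : K] - O(m)`. For `0 < c < d - 1`
the conjecture for `K` holds if and only if `v(K_m M) ≤ v(K_m) + c [K_m : K]` for infinitely many `m`.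

(3) If `μ(K M) ≤ μ(K)` for one such `M ≠ k` (`d = 1`), then for every character `ψ` of `Gal(K / k)` the `ψ`-component of
`X(K_∞)`, localised at `(p)`, is a cyclic module.

(4) The conjecture holds for all finite abelian extensions of `k` if and only if for every abelian extension `K` of `k` of
degree prime to `p` there are `M` with a quotient `(ℤ/p)^2` of its group and `c < 1` such that
`v(K_m M) ≤ v(K_m) + c [K_m : K]` for infinitely many `m`. -/
theorem result (p : ℕ) [Fact p.Prime] (k : IntermediateField ℚ ℂ) (_ : Module.finrank ℚ k = 2) (_ : IsTotImag k)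
    (D : CharData) (hD : Known D p k) :
    (∀ K, IsTame p k K → (MuZero p K ↔ D.mu K k = 0) ∧ (D.mu K k = 0 ↔ D.m K k = 0) ∧
      ∀ d M, 1 ≤ d → IsPExt p d k K M → D.mu K k + (d - 1) * D.m K k ≤ D.mu K M) ∧
    (∀ K d M, IsTame p k K → 1 ≤ d → IsPExt p d k K M → (MuZero p K ∨ GrowsBy p (vR p) K (K ⊔ M) (d - 1)) ∧
      ∀ c : ℝ, 0 < c → c < d - 1 → (MuZero p K ↔ SmallGrowth p (vR p) K (K ⊔ M) c)) ∧
    (∀ K M, IsTame p k K → IsPExt p 1 k K M → D.mu K M ≤ D.mu K k → ∀ i, rk (D.O K i) (D.X K i k) ≤ 1) ∧
    ((∀ K, IsAbelian k K → MuZero p K) ↔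
      ∀ K, IsTame p k K → ∃ (M : IntermediateField ℚ ℂ) (c : ℝ), IsPExt p 2 k K M ∧ c < 1 ∧
        SmallGrowth p (vR p) K (K ⊔ M) c) := by
  refine ⟨fun K hK => ⟨muZero_iff hD hK, mu_zero_iff hD K, fun d M hd hM => mu_growth hD hd hK hM⟩,
    fun K d M hK hd hM => ⟨?_, fun c hc hc' => iff_growth hD hd hK hM hc hc'⟩,
    fun K M hK hM h0 i => cyclic_of_eq hD hK hM h0 i, ?_⟩
  · by_cases h : MuZero p K
    · exact Or.inl h
    · exact Or.inr (growth hD hd hK hM h)
  · constructor
    · intro h K hK
      obtain ⟨M, hM⟩ := hD.ext K hK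
      refine ⟨M, 1 / 2, hM, by norm_num, (iff_growth hD (by norm_num) hK hM (by norm_num) ?_).1 (h K hK.1)⟩
      norm_num
    · intro h K' hK'
      obtain ⟨K, hK, himp⟩ := hD.descent K' hK'
      apply himp
      obtain ⟨M, c, hM, hc, hs⟩ := h K hK
      by_contra h0
      have h1 := growth hD (by norm_num) hK hM h0
      refine not_smallGrowth (fin_tame hK) ?_ h1 hs
      norm_num
      linarith

end Pool.Agent.Results.MP_b78433_nt.StrictGrowth
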