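import Pool.Agent.Q69.LJ.JointC

/-!
# Joint large deviations of the central Euler products of all constituents of the cohomology of products of curves

Let `K` be a number field with the ring of integers `𝓞`, and let `C_1, ..., C_n` be the curves of genus `g_j ≥ 1`
`C_j : y ^ 2 = f_j(x) = (x - a_1) ⋯ (x - a_{r_j}) h(x) + l(x) ^ 2`,
with monic `h` of degree `2 g_j + 1 - r_j` and `l` of degree `< r_j` over `𝓞`, `0 ≤ r_j ≤ g_j`: these are the curves `y ^ 2 = f(x)`,
`f` monic of degree `2 g_j + 1`, with `r_j` marked points `(a_i, l(a_i))` in general position. Let `X = C_1 × ⋯ × C_n`. By the formula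
of Künneth the groups `H^(2m-1)(X)` are sums of twists of the representations `V_S = ⊗_{j ∈ S} H^1(C_j)`, `S` a set of an odd
number of indices, and `L(H^(2m-1)(X), s)` at the central point `s = m` of the conjecture of Beilinson and Bloch is the product of the
`L(V_S, s)` at their centres `s = (|S| + 1) / 2`.

Let `P_S(Y)` be the product of the `det (1 - Frob_v (N v) ^ (-(|S| + 1) / 2) | V_S)` over the good primes `v` of norm at most `Y`. For
almost all parameters one has `P_S(Y) = (log Y) ^ (κ_S + o(1))`, `κ_S = r_j + 1 / 2` for `S = {j}` and `κ_S = 1 / 2` for `|S| ≥ 3`. Here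
the joint behaviour of the exceptional ones is determined: let the coordinates of the parameters in a `ℤ`-basis of `𝓞` run through
any box with sides at least `X ^ ((log log X) ^ 3)`. For all real numbers `h_S` the proportion of the parameters for which
`P_S(X) = (log X) ^ (h_S ± η)` for all the `2 ^ (n - 1)` sets `S` at the same time is `(log X) ^ (-c + o(1))`, `c = ∑_S (h_S - κ_S) ^ 2 / 2`;
this is a joint large deviation principle with speed `log log X` and a rate function that is a sum over the constituents: they
deviate independently of each other. It holds also if only the parameters are counted for which the Jacobians of all `C_j` have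
rank at least `r_j` over `K`. By the formula of Künneth the exponents of the products for all the groups `H^(2m-1)(X)` are the sums
of the `mult(S) h_S`. In particular the exponent for `H^(2m-1)(X)` can deviate although those for the `H^1(C_j)` do not.

Proof. The logarithms of the factors are functions of the residues modulo `v`. The products `∏_{j ∈ S} T_1(C_j)` of the traces of
Frobenius for different `S` are orthogonal, so that every linear combination `∑_S u_S log P_S` with `∑ u_S ^ 2 = 1` is a sum over the
primes with the variance `log log X + O(1)`; its large deviations follow from exponential moments, compared with those of independent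
variables by the polynomials `(1 + x / 2 N) ^ (2 N)`. Large deviations in all directions `u` give those of the vector, since the
balls are strictly convex: a vector whose component in the direction `u` is at least `ρ` and whose norm is at most `ρ + δ` is close
to `ρ u`. The rank: a sieve.
-/

set_option autoImplicit false

namespace Pool.Agent.Results.MP_b8021b_nt.JointLargeDeviations

open Finset NumberField Polynomial
open Q282.JK Q282.PX Q282.MJ

/-- The sets of an odd number of indices `0, ..., n - 1`. -/
abbrev OddSet (n : ℕ) : Type := {S : Finset (Fin n) // Odd S.card}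

/-- `κ_S = r_j + 1 / 2` for `S = {j}`, and `κ_S = 1 / 2` if `S` has more than one element. -/
noncomputable def exponentS {n : ℕ} (r : Fin n → ℕ) (S : Finset (Fin n)) : ℝ :=
  (if S.card = 1 then ∑ j ∈ S, (r j : ℝ) else 0) + 1 / 2

/-- The cost of the exponents `h`: the sum of the `(h_S - κ_S) ^ 2 / 2`. -/
noncomputable def cost {n : ℕ} (r : Fin n → ℕ) (h : OddSet n → ℝ) : ℝ := ∑ S : OddSet n, (h S - exponentS r S.1) ^ 2 / 2

/-- The exponent `log P_S(X) / log log X`. -/
noncomputable def growthS {K : Type} [Field K] [NumberField K] {n : ℕ} (f : Fin n → (𝓞 K)[X]) (X : ℕ) (S : OddSet n) : ℝ :=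
  Real.log (productS f S.1 X) / Real.log (Real.log X)

/-- The exponent `log P_m(X) / log log X`, where `P_m(X)` is the product of the
`det (1 - Frob_v (N v) ^ (-m) | H^(2m-1)(C_1 × ... × C_n))` over the primes `v` with `GoodP f v` and `N v ≤ X`. -/
noncomputable def growth {K : Type} [Field K] [NumberField K] {n : ℕ} (f : Fin n → (𝓞 K)[X]) (X m : ℕ) : ℝ :=
  Real.log (productP f m X) / Real.log (Real.log X)

/-- The box of the integers `n k` with `N k ≤ n k < N k + L k` for all `k`. -/
noncomputable def box {κ : Type} [Fintype κ] [DecidableEq κ] (N : κ → ℤ) (L : κ → ℕ) : Finset (κ → ℤ) :=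
  Fintype.piFinset fun k => Ico (N k) (N k + L k)

/-- The elements `t i = ∑ n (i, j) b j` with the coordinates `n (i, j)`. -/
def combine {O : Type} [CommRing O] {ι : Type} {d : ℕ} (b : Fin d → O) (n : ι × Fin d → ℤ) : ι → O :=
  fun i => ∑ j, (n (i, j) : O) * b j

open Classical in
/-- The proportion of the `n` of the box with the property `P`. -/
noncomputable def proportion {κ : Type} [Fintype κ] [DecidableEq κ] (N : κ → ℤ) (L : κ → ℕ) (P : (κ → ℤ) → Prop) : ℝ :=
  (((box N L).filter P).card : ℝ) / ∏ k, (L k : ℝ)

/-- Every `f j` is irreducible over `K`, and the group of the `K`-rational points of the Jacobian of the curve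
`C_j : y ^ 2 = f_j(x)`, which is the class group of its affine coordinate ring over `K`, has rank at least `r j`. -/
def Ranks (K : Type) [Field K] [NumberField K] {n : ℕ} (r : Fin n → ℕ) (f : Fin n → (𝓞 K)[X]) : Prop :=
  ∀ j, Irreducible ((f j).map (algebraMap (𝓞 K) K)) ∧ HasClassRank (CoordRing ((f j).map (algebraMap (𝓞 K) K))) (r j)

lemma mult_le (n m : ℕ) (S : Finset (Fin n)) : mult n m S ≤ 3 ^ n := by
  unfold mult
  refine (card_le_univ _).trans ?_
  rw [Fintype.card_fun, Fintype.card_fin, Fintype.card_fin]

open Classical in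
/-- Let `K` be a number field, `n ≥ 1`, `g_j ≥ 1` and `0 ≤ r_j ≤ g_j` for `j = 1, ..., n`, `Y` real, `η > 0`, `ε > 0`, and consider the
polynomials `f_j = fj t j = (x - a_1) ⋯ (x - a_{r_j}) h(x) + l(x) ^ 2` of degree `2 g_j + 1` over the ring of integers of `K`, whose
coefficients are the parameters `t` with the index `j`, and the curves `C_j : y ^ 2 = f_j(x)`. There is an `X₁` with the following
property. Let `X ≥ X₁` and `T ≥ X ^ ((log log X) ^ 3)`, let `b` be a basis of the ring of integers of `K` over `ℤ`, and let a box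
`N k ≤ ν k < N k + L k` of coordinates be given all sides `L k` of which are at least `T`. Then:

* for all real numbers `h_S`, `|h_S| ≤ Y`, `S` a set of an odd number of indices, the proportion of the `ν` of the box for which, with
  the parameters `t = combine b ν`, all `f_j` are irreducible over `K`, the rank of the Jacobian of every `C_j` over `K` is at least
  `r_j`, `|log P_S(X) / log log X - h_S| ≤ η` for all `S`, and
  `|log P_m(X) / log log X - ∑_S mult(S) h_S| ≤ η` for all `m ≥ 1`, is at least
  `(log X) ^ (-c - ε)`, where `c = ∑_S (h_S - κ_S) ^ 2 / 2`, `κ_S = r_j + 1 / 2` for `S = {j}` and `κ_S = 1 / 2` for `|S| ≥ 3`;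
* for all `0 ≤ I ≤ Y` the proportion of the `ν` for which `∑_S (h_S - κ_S) ^ 2 / 2 ≥ I`, where `h_S = log P_S(X) / log log X`, is at
  most `(log X) ^ (-I + ε)`.

Here `P_S(X)` is the product of the values at the centre `(|S| + 1) / 2` of the reciprocals of the Euler factors of
`L(⊗_{j ∈ S} H^1(C_j), s)` at the primes `v` with `GoodP f v` and `N v ≤ X`, `P_m(X)` is the product of the
`det (1 - Frob_v (N v) ^ (-m) | H^(2m-1)(C_1 × ... × C_n))` over the same primes, and `mult(S)` is the multiplicity of
`⊗_{j ∈ S} H^1(C_j)` in `H^(2m-1)(C_1 × ... × C_n)`. -/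
theorem result (K : Type) [Field K] [NumberField K] (n : ℕ) (hn : 1 ≤ n) (g r : Fin n → ℕ) (hg : ∀ j, 1 ≤ g j)
    (hr : ∀ j, r j ≤ g j) (Y η ε : ℝ) (hη : 0 < η) (hε : 0 < ε) :
    ∃ X₁ : ℕ, ∀ X : ℕ, X₁ ≤ X → ∀ T : ℝ, (X : ℝ) ^ ((Real.log (Real.log X)) ^ 3) ≤ T →
    ∀ (b : Module.Basis (Fin (Module.finrank ℚ K)) ℤ (𝓞 K))
    (N : Ix g r × Fin (Module.finrank ℚ K) → ℤ) (L : Ix g r × Fin (Module.finrank ℚ K) → ℕ), (∀ k, T ≤ L k) →
      (∀ h : OddSet n → ℝ, (∀ S, |h S| ≤ Y) →
        (Real.log X) ^ (-cost r h - ε) ≤ proportion N L (fun ν => Ranks K r (fj (combine b ν)) ∧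
          (∀ S : OddSet n, |growthS (fj (combine b ν)) X S - h S| ≤ η) ∧
          ∀ m : ℕ, 1 ≤ m → |growth (fj (combine b ν)) X m - ∑ S : OddSet n, mult n m S.1 * h S| ≤ η)) ∧
      (∀ I : ℝ, 0 ≤ I → I ≤ Y →
        proportion N L (fun ν => I ≤ cost r (growthS (fj (combine b ν)) X)) ≤ (Real.log X) ^ (-I + ε)) := by
  -- the constant in the contraction
  obtain ⟨M, hM⟩ : ∃ M : ℝ, M = 1 + (Fintype.card (OddSet n) : ℝ) * 3 ^ n := ⟨_, rfl⟩
  have hM1 : 1 ≤ M := by
    rw [hM]
    have : (0 : ℝ) ≤ (Fintype.card (OddSet n) : ℝ) * 3 ^ n := by positivity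
    linarith
  have hη' : η / M ≤ η := div_le_self hη.le hM1
  obtain ⟨X₁, hX₁, h⟩ := Q69.LJ.joint_C K n hn g r hg hr Y (η / M) ε (by positivity) hε
  refine ⟨X₁, ?_⟩
  intro X hX T hT b N L hL
  have hX16 : 16 ≤ X := hX₁.trans hX
  have hX0 : (16 : ℝ) ≤ X := by exact_mod_cast hX16
  have hlogX : 1 < Real.log X := by
    rw [Real.lt_log_iff_exp_lt (by linarith)]
    linarith [Real.exp_one_lt_three]
  have hlog0 : 0 < Real.log X := by linarith
  have hV : 0 < Real.log (Real.log X) := Real.log_pos hlogX
  have hb : ∀ x : 𝓞 K, ∃ a : Fin (Module.finrank ℚ K) → ℤ, x = ∑ j, (a j : 𝓞 K) * b j := by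
    intro x
    refine ⟨fun j => b.repr x j, ?_⟩
    have h1 := b.sum_repr x
    rw [← h1]
    refine sum_congr rfl fun j _ => ?_
    rw [h1, zsmul_eq_mul]
  have hT0 : 0 < T := lt_of_lt_of_le (Real.rpow_pos_of_pos (by linarith) _) hT
  have hP0 : 0 < ∏ k, (L k : ℝ) := prod_pos fun k _ => hT0.trans_le (hL k)
  have hpow : ∀ a : ℝ, (Real.log X) ^ a = Real.exp (a * Real.log (Real.log X)) := by
    intro a
    rw [Real.rpow_def_of_pos hlog0, mul_comm]
  obtain ⟨h1, h2⟩ := h X hX T hT (fun j => b j) hb N L hL
  have hgr : ∀ (ν : Ix g r × Fin (Module.finrank ℚ K) → ℤ) (S : OddSet n),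
      Real.log (productS (fj (combine b ν)) S.1 X) = growthS (fj (combine b ν)) X S * Real.log (Real.log X) := by
    intro ν S
    unfold growthS
    rw [div_mul_cancel₀ _ hV.ne']
  refine ⟨fun a ha => ?_, fun I hI hIY => ?_⟩
  · have h3 := h1 a ha
    have e1 : -cost r a - ε = -(cost r a + ε) := by ring
    unfold proportion
    rw [hpow, e1, le_div_iff₀ hP0, neg_mul]
    refine h3.trans (Nat.cast_le.2 (card_le_card fun ν hν => ?_))
    replace hν := (@mem_filter _ _ (_) _ _).1 hν
    have hS : ∀ S : OddSet n, |growthS (fj (combine b ν)) X S - a S| ≤ η / M := by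
      intro S
      have h4 : |Real.log (productS (fj (combine b ν)) S.1 X) - a S * Real.log (Real.log X)| ≤ η / M * Real.log (Real.log X) := hν.2.2 S
      rw [hgr, ← sub_mul, abs_mul, abs_of_pos hV] at h4
      exact le_of_mul_le_mul_right h4 hV
    refine (@mem_filter _ _ (_) _ _).2 ⟨hν.1, fun j => ⟨(hν.2.1 j).1, (hν.2.1 j).2⟩, fun S => (hS S).trans hη', fun m hm => ?_⟩
    have h5 : Real.log (productP (fj (combine b ν)) m X) = ∑ S : OddSet n, mult n m S.1 * Real.log (productS (fj (combine b ν)) S.1 X) := by
      rw [log_kunneth (fj (combine b ν)) g (fj_monic hr _) (fj_natDegree hr _) m hm X]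
      exact sum_subtype (s := (univ : Finset (Finset (Fin n))).filter (fun S => Odd S.card)) (p := fun S => Odd S.card) (fun S => by simp)
        (fun S : Finset (Fin n) => (mult n m S : ℝ) * Real.log (productS (fj (combine b ν)) S X))
    have h6 : growth (fj (combine b ν)) X m = ∑ S : OddSet n, mult n m S.1 * growthS (fj (combine b ν)) X S := by
      unfold growth growthS
      rw [h5, sum_div]
      exact sum_congr rfl fun S _ => by rw [mul_div_assoc]
    rw [h6, ← sum_sub_distrib]
    calc |∑ S : OddSet n, ((mult n m S.1 : ℝ) * growthS (fj (combine b ν)) X S - mult n m S.1 * a S)| ≤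
          ∑ S : OddSet n, 3 ^ n * (η / M) := by
          refine (abs_sum_le_sum_abs _ _).trans (sum_le_sum fun S _ => ?_)
          rw [← mul_sub, abs_mul, Nat.abs_cast]
          refine mul_le_mul ?_ (hS S) (abs_nonneg _) (by positivity)
          exact_mod_cast mult_le n m S.1
      _ = (M - 1) * (η / M) := by
          rw [sum_const, card_univ, nsmul_eq_mul, hM]
          ring
      _ ≤ M * (η / M) := mul_le_mul_of_nonneg_right (by linarith) (by positivity)
      _ = η := by field_simp
  · have h3 := h2 I hI hIY
    have e1 : -I + ε = -(I - ε) := by ring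
    unfold proportion
    rw [hpow, e1, div_le_iff₀ hP0, neg_mul]
    refine le_trans (Nat.cast_le.2 (card_le_card fun ν hν => ?_)) h3
    replace hν := (@mem_filter _ _ (_) _ _).1 hν
    refine (@mem_filter _ _ (_) _ _).2 ⟨hν.1, ?_⟩
    have h4 : ∑ S : OddSet n, (Real.log (productS (fj (combine b ν)) S.1 X) - kS r S.1 * Real.log (Real.log X)) ^ 2 / 2 =
        cost r (growthS (fj (combine b ν)) X) * Real.log (Real.log X) ^ 2 := by
      unfold cost
      rw [sum_mul]
      refine sum_congr rfl fun S _ => ?_
      rw [hgr]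
      have : kS r S.1 = exponentS r S.1 := rfl
      rw [this]
      ring
    have h5 := mul_le_mul_of_nonneg_right hν.2 (sq_nonneg (Real.log (Real.log X)))
    rw [← h4] at h5
    exact h5

end Pool.Agent.Results.MP_b8021b_nt.JointLargeDeviations
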