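import Pool.Agent.Q282.GS.Fin2

/-!
# The central zeros of the L-functions of all odd cohomology groups of all powers of generic complete intersections

The conjecture of Beilinson and Bloch, over a field `k` that is finitely generated over `ℚ` (for divisors this form is due to
Tate): for a smooth projective variety `X` over `k` with a model over `Y` the rank of the group of homologically trivial cycles of
codimension `i` is the order of the zero at the centre `s = i + dim Y - 1` of the `L`-function `Φ_{2i-1}(s)`, the Euler product over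
the closed points of `Y` of the characteristic polynomials of Frobenius on `H^{2i-1}`. It converges for `Re s > i + dim Y - 1/2` only.

Let `K` be a number field, `W` a closed subscheme of a projective space over `𝓞 K` of relative dimension `D + r`, `D` odd, and `Z` a
closed subscheme of `W`, defined in `W` by forms `h_j` of degrees `e_j`. For `a = 1, ..., r` let the forms `f_{a,l}` span the forms
of degree `d_a` that vanish on `Z`, let `M ≥ 2` be the number of all these forms, and let `V` be the generic complete intersection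
`∑_l u_{a,l} f_{a,l} = 0 (a = 1, ..., r)` in `W` through `Z`, a variety of dimension `D` over the field `k = K(u)`, with the model
over `Y = {Δ ≠ 0}` in the affine space of dimension `M` over `𝓞 K`; `dim Y = M + 1`.

Theorem. Let `ν ≥ 0` with `e_j + 2 (ν + 1) ≤ d_a + 1`. For all `i ≥ 1` the product `Φ_{2i-1}(s)` of the power `V^ν` has an analytic
continuation without zeros to `Re s > M + i`, and
`Φ_{2i-1}(s) = F(s) ∏_j ζ_{L_j}(s - M - i + 1) ^ (-t_1) ζ_K(s - M - i + 1) ^ (-t_1 δ - t_3)`
with a function `F` that is analytic and has no zero for `Re s > M + i - η`, `η > 0`, where the `L_j` are the fields of definition of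
the `(D - 1) / 2`-dimensional components of `Z`, `δ = w_{(D-1)/2+r} - w_{(D-1)/2}` is the difference of the Betti numbers of `W` for
which the theorem of Lefschetz gives only an inclusion, and `t_1`, `t_3` are explicit natural numbers. So `Φ_{2i-1}` continues to a
neighbourhood of every point of the line `Re s = M + i = i + dim Y - 1`, it has a zero of order exactly
`t_1 (#{j} + δ) + t_3` at the centre `s = i + dim Y - 1` of the conjecture, and no other zero or pole on this line.

This is the number of independent cycles that one can write down: `H^{2i-1}(V^ν)` contains `t_1` copies of (a twist of) `H^D(V)` that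
come from classes of `W` and diagonals on the other factors; `V` has `#{j} + δ` homologically trivial cycles of codimension
`(D + 1) / 2` modulo torsion (combinations of the components of `Z` and of linear sections); and for curves (`D = 1`) there are
moreover `t_3` cycles of Gross and Schoen (modified diagonals) on three of the factors. For a generic plane curve `V` of degree
`d ≥ 7 + e` through a scheme `Z` with `κ` closed points over `K`: the order is `κ` for `H^1(V)` and `9 κ + 1` for `H^3(V^3)`.

Proof. The values of the equations at any `2 (ν + 1)` points outside `Z` are independent for random parameters over any finite field,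
so the moments of order at most `ν` of the normalised number of points of the members are known to the second order in `q ^ (-1/2)`:
the odd ones are a multiple of `q ^ (-1/2)` up to a smaller error, and the multiple is computed (the first and the third cumulants). The
members with `Δ = 0` are removed by the inequality of Hoelder: they are a proportion `O(1 / q)`, and the moments of order
`2 (ν + 1)` are bounded. One needs the points of `Y` over the fields with `p` and `p ^ 2` elements. The Euler product is compared with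
those of Dedekind zeta functions.
-/

set_option autoImplicit false

namespace Pool.Agent.Results.MP_b8021b_nt.OddCohomologyOfPowers

open Finset MvPolynomial NumberField Filter Topology
open scoped LinearAlgebra.Projectivization

/-- The number of the points with values in the field `F` of the closed subscheme of the projective space of dimension `n` over
`A` that is defined by the forms of the set `S`, for a homomorphism `φ : A → F`. -/
noncomputable def points {A F : Type} [CommRing A] [Field F] {n : ℕ} (φ : A →+* F) (S : Set (MvPolynomial (Fin (n + 1)) A)) : ℕ :=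
  Nat.card {P : ℙ F (Fin (n + 1) → F) // ∀ G ∈ S, eval₂ φ P.rep G = 0}

/-- The forms `f l` span the linear system of the hypersurfaces of degree `d` through the scheme `h = 0`: they have degree
`d`, vanish on this scheme (belong to the radical of the ideal), and every form of degree `d` in the ideal is a combination of them. -/
structure Spans {O : Type} [CommRing O] {n : ℕ} {J ι : Type} [Fintype ι] (h : J → MvPolynomial (Fin (n + 1)) O) (d : ℕ)
    (f : ι → MvPolynomial (Fin (n + 1)) O) : Prop where
  hom : ∀ l, (f l).IsHomogeneous d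
  mem : ∀ l, f l ∈ (Ideal.span (Set.range h)).radical
  gen : ∀ F : MvPolynomial (Fin (n + 1)) O, F.IsHomogeneous d → F ∈ Ideal.span (Set.range h) → ∃ a : ι → O, F = ∑ l, C (a l) * f l

/-- The equation number `a` of the generic complete intersection; its coefficients are polynomials in the parameters. -/
noncomputable def equation {O : Type} [CommRing O] {n r : ℕ} {N : Fin r → ℕ} (f : (a : Fin r) → Fin (N a) → MvPolynomial (Fin (n + 1)) O)
    (a : Fin r) : MvPolynomial (Fin (n + 1)) (MvPolynomial (Σ a, Fin (N a)) O) := ∑ l, C (X ⟨a, l⟩) * map C (f a l)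

/-- The equations of the generic complete intersection in the scheme with the equations `E`. -/
noncomputable def family {O : Type} [CommRing O] {n r : ℕ} {N : Fin r → ℕ} (E : Set (MvPolynomial (Fin (n + 1)) O))
    (f : (a : Fin r) → Fin (N a) → MvPolynomial (Fin (n + 1)) O) : Set (MvPolynomial (Fin (n + 1)) (MvPolynomial (Σ a, Fin (N a)) O)) :=
  Set.range (equation f) ∪ (map C : MvPolynomial (Fin (n + 1)) O →+* _) '' E

/-- The norm of a closed point: the number of the elements of its residue field. -/
noncomputable def norm {R : Type} [CommRing R] (y : MaximalSpectrum R) : ℕ := Nat.card (R ⧸ y.asIdeal)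

/-- The number of the points of the fibre at a closed point over the residue field. -/
noncomputable def fibre {R : Type} [CommRing R] (y : MaximalSpectrum R) {n : ℕ} (S : Set (MvPolynomial (Fin (n + 1)) R)) : ℕ :=
  letI : Field (R ⧸ y.asIdeal) := Ideal.Quotient.field y.asIdeal
  points (Ideal.Quotient.mk y.asIdeal) S

/-- The Betti number in degree `2 a`, for `2 a ≠ D`, of a section of dimension `D` and codimension `r` of a variety with the Betti
numbers `w j` in degree `2 j`. -/
def betti (w : ℕ → ℕ) (D r a : ℕ) : ℕ := if 2 * a < D then w a else if D < 2 * a ∧ a ≤ D then w (a + r) else 0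

/-- The eigenvalues `α y` for the closed points `y` outside `Δ = 0`: their number is `B`, they are at most `q ^ (D / 2)`, and the
trace formula holds for the fibre over the residue field with `q` elements. For smooth fibres of dimension `D` these are the properties
of the eigenvalues of Frobenius on the cohomology in degree `D` (Grothendieck, Lefschetz, Deligne). -/
def IsFrobenius (w : ℕ → ℕ) (D r : ℕ) {R : Type} [CommRing R] {n : ℕ} (S : Set (MvPolynomial (Fin (n + 1)) R)) (Δ : R) (B : ℕ)
    (α : MaximalSpectrum R → Multiset ℂ) : Prop :=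
  ∀ y, Δ ∉ y.asIdeal → (α y).card = B ∧ (∀ x ∈ α y, ‖x‖ ≤ Real.sqrt (norm y) ^ D) ∧
    (α y).sum = (-1) ^ D * (((fibre y S : ℝ) - ∑ a ∈ range (D + 1), betti w D r a * (norm y : ℝ) ^ a : ℝ) : ℂ)

/-- The eigenvalues on the cohomology of the fibre in degree `b`. -/
noncomputable def cohomology (w : ℕ → ℕ) (D r q : ℕ) (α : Multiset ℂ) (b : ℕ) : Multiset ℂ :=
  if b = D then α else if Even b then Multiset.replicate (betti w D r (b / 2)) ((q : ℂ) ^ (b / 2)) else 0

/-- The eigenvalues on the cohomology in degree `j` of the power with `ν` factors (Kunneth). -/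
noncomputable def kunneth (H : ℕ → Multiset ℂ) : ℕ → ℕ → Multiset ℂ
  | 0, j => if j = 0 then {1} else 0
  | ν + 1, j => ∑ x ∈ antidiagonal j, (H x.1 ×ˢ kunneth H ν x.2).map (fun z => z.1 * z.2)

/-- The Euler factor. -/
noncomputable def factor (M : Multiset ℂ) (q : ℕ) (s : ℂ) : ℂ := (M.map fun a => (1 - a * (q : ℂ) ^ (-s))⁻¹).prod

/-- The number of the perfect matchings of `j` elements. -/
def matchings (j : ℕ) : ℕ := if Even j then (j - 1).doubleFactorial else 0

/-- The generating series of the Betti numbers outside the middle degree. -/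
noncomputable def outer (w : ℕ → ℕ) (D r : ℕ) : PowerSeries ℕ := PowerSeries.mk fun b => if Even b then betti w D r (b / 2) else 0

/-- The multiplicity of the tensor powers of order `k` of the middle cohomology (for all sets of `k` factors) in the cohomology in
degree `j` of the power with `ν` factors. -/
noncomputable def multiplicity (w : ℕ → ℕ) (D r ν j k : ℕ) : ℕ :=
  ν.choose k * (if D * k ≤ j then PowerSeries.coeff (j - D * k) (outer w D r ^ (ν - k)) else 0)

/-- `t_1`: one of the `k` factors in the middle degree is singled out, the others are matched. -/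
noncomputable def linear (w : ℕ → ℕ) (D r ν j : ℕ) : ℕ := ∑ k ∈ range (ν + 1), multiplicity w D r ν j k * (k * matchings (k - 1))

/-- `t_3`: three of the `k` factors in the middle degree are singled out, the others are matched; only for curves. -/
noncomputable def cubic (w : ℕ → ℕ) (D r ν j : ℕ) : ℕ :=
  ∑ k ∈ range (ν + 1), multiplicity w D r ν j k * (if D = 1 then k.choose 3 * matchings (k - 3) else 0)

/-- The Euler product with the factors `H y` over the closed points outside `Δ = 0` converges to `Φ(s)` for `Re s > s₀ + 1/2`, `Φ` is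
analytic without zeros for `Re s > s₀` and equal to `F(s) / Z(s)` there, where `F` is analytic without zeros for `Re s > s₀ - η`; for
every real `t` the function `Φ(s) / (s - s₀) ^ m` has an analytic continuation `G` to a neighbourhood of `s₀ + i t` which is not zero at
this point, and it has a nonzero limit for `s → s₀` from the right. So `Φ` has a zero of order exactly `m` at `s₀` and no other zero
or pole on the line `Re s = s₀`. -/
def HasCentralZero {R : Type} [CommRing R] (Δ : R) (H : MaximalSpectrum R → Multiset ℂ) (s₀ m : ℕ) (Z : ℂ → ℂ) : Prop :=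
  ∃ η : ℝ, 0 < η ∧ ∃ Φ F : ℂ → ℂ,
    (∀ s : ℂ, (s₀ : ℝ) + 1 / 2 < s.re → HasProd (fun y : {y : MaximalSpectrum R // Δ ∉ y.asIdeal} => factor (H y.1) (norm y.1) s) (Φ s)) ∧
    (∀ s : ℂ, (s₀ : ℝ) < s.re → AnalyticAt ℂ Φ s ∧ Φ s ≠ 0) ∧
    (∀ s : ℂ, (s₀ : ℝ) - η < s.re → AnalyticAt ℂ F s ∧ F s ≠ 0) ∧
    (∀ s : ℂ, (s₀ : ℝ) < s.re → Φ s * Z s = F s) ∧
    (∀ t : ℝ, ∃ G : ℂ → ℂ, AnalyticAt ℂ G (s₀ + t * Complex.I) ∧ G (s₀ + t * Complex.I) ≠ 0 ∧
      ∀ᶠ s in 𝓝 ((s₀ : ℂ) + t * Complex.I), (s₀ : ℝ) < s.re → Φ s = (s - s₀) ^ m * G s) ∧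
    ∃ c : ℂ, c ≠ 0 ∧ Tendsto (fun s : ℝ => Φ s / ((s : ℂ) - s₀) ^ m) (𝓝[>] (s₀ : ℝ)) (𝓝 c)

theorem kunneth_eq (H : ℕ → Multiset ℂ) (ν j : ℕ) : kunneth H ν j = Q282GP.kun H ν j := by
  induction ν generalizing j with
  | zero => rfl
  | succ ν ih =>
    unfold kunneth Q282GP.kun
    refine sum_congr rfl fun x _ => ?_
    rw [ih]

/-- **The central zeros of the `L`-functions of the powers of the generic complete intersections.** Let `K` be a number field, `D` odd,
`r ≥ 1`, `M = ∑ N a ≥ 2` the number of parameters, `Δ ≠ 0` a polynomial in the parameters and `ν ≥ 0`, `i ≥ 1`.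

1. `dim Y = M + 1`.
2. Let `E` be the equations of `W` in a projective space over `𝓞 K`, such that the number of points of `W` over the fields
   with `q = p` and with `q = p ^ 2` elements is `∑ w_j q ^ j + O(q ^ (r + D / 2 - 1))`, `w_{D+r} = 1`,
   `w_{(D-1)/2+r} = w_{(D-1)/2} + δ`. Let `h` be the equations of `Z` in `W`, of degrees `e_j` with `e_j + 2 (ν + 1) ≤ d_a + 1`, and
   assume that the number of points of `Z` over the fields with `q = p`, `p ^ 2` elements, summed over the homomorphisms of `𝓞 K` to the
   field, is `q ^ ((D - 1) / 2)` times the number of the homomorphisms of the rings of integers of the `L_j` up to `O(q ^ (D / 2 - 1))`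
   (theorem of Lang and Weil: the `L_j` are the fields of definition of the components of `Z` of dimension `(D - 1) / 2`, and
   `Z` has at most this dimension). Let the `f_a` span the forms of degree `d_a` through `Z`. Then the `L`-function of
   `H^{2i-1}(V^ν)` has a zero of order exactly `t_1 (#{j} + δ) + t_3` at the centre `s = M + i = i + dim Y - 1`, and no other zero
   or pole on the line `Re s = M + i`.
3. The same if `W` is the projective space of dimension `D + r` (`δ = 0`); nothing is assumed on `W` then.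
4. If moreover `Z` is empty and `2 ν + 1 ≤ d_a`: the order is `t_3`; nothing is assumed on point counts.
5. For plane curves: `t_1 = 1`, `t_3 = 0` for `H^1(V)`, and `t_1 = 9`, `t_3 = 1` for `H^3(V^3)`. -/
theorem result (K : Type) [Field K] [NumberField K] (D r : ℕ) (hD : Odd D) (N : Fin r → ℕ) (hN : 2 ≤ ∑ a, N a) (ν : ℕ)
    (d : Fin r → ℕ) (Δ : MvPolynomial (Σ a, Fin (N a)) (𝓞 K)) (hΔ : Δ ≠ 0) (B : ℕ)
    (α : MaximalSpectrum (MvPolynomial (Σ a, Fin (N a)) (𝓞 K)) → Multiset ℂ) (i : ℕ) (hi : 1 ≤ i) :
    ringKrullDim (MvPolynomial (Σ a, Fin (N a)) (𝓞 K)) = (∑ a, N a + 1 : ℕ) ∧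
    (∀ (n : ℕ) (E : Set (MvPolynomial (Fin (n + 1)) (𝓞 K))) (_ : ∀ G ∈ E, ∃ k, G.IsHomogeneous k)
      (w : ℕ → ℕ) (_ : w (D + r) = 1) (δ : ℕ) (_ : w (D / 2 + r) = w (D / 2) + δ) (C₀ : ℝ)
      (_ : ∀ (p : ℕ) [Fact p.Prime] (k : ℕ), 1 ≤ k → k ≤ 2 → ∀ ψ : 𝓞 K →+* GaloisField p k,
        |(points ψ E : ℝ) - ∑ j ∈ range (D + r + 1), w j * ((p : ℝ) ^ k) ^ j| ≤ C₀ * Real.sqrt ((p : ℝ) ^ k) ^ (2 * r + D - 2))
      (J : Type) (h : J → MvPolynomial (Fin (n + 1)) (𝓞 K)) (e : J → ℕ) (_ : ∀ j, (h j).IsHomogeneous (e j))
      (_ : ∀ j a, e j + 2 * (ν + 1) ≤ d a + 1)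
      (κ : Type) [Fintype κ] (L : κ → Type) [∀ j, Field (L j)] [∀ j, NumberField (L j)] (C₁ : ℝ)
      (_ : ∀ (p : ℕ) [Fact p.Prime] (k : ℕ), 1 ≤ k → k ≤ 2 →
        |∑ᶠ ψ : 𝓞 K →+* GaloisField p k, (points ψ (E ∪ Set.range h) : ℝ) -
          Real.sqrt ((p : ℝ) ^ k) ^ (D - 1) * ∑ j, (Nat.card (𝓞 (L j) →+* GaloisField p k) : ℝ)| ≤
            C₁ * Real.sqrt ((p : ℝ) ^ k) ^ (D - 1) / Real.sqrt ((p : ℝ) ^ k))
      (f : (a : Fin r) → Fin (N a) → MvPolynomial (Fin (n + 1)) (𝓞 K)) (_ : ∀ a, Spans h (d a) (f a)),
      IsFrobenius w D r (family E f) Δ B α →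
      HasCentralZero Δ (fun y => kunneth (cohomology w D r (norm y) (α y)) ν (2 * i - 1)) (∑ a, N a + i)
        (linear w D r ν (2 * i - 1) * (Fintype.card κ + δ) + cubic w D r ν (2 * i - 1))
        (fun s => (∏ j, dedekindZeta (L j) (s - (∑ a, N a + i - 1 : ℕ))) ^ linear w D r ν (2 * i - 1) *
          dedekindZeta K (s - (∑ a, N a + i - 1 : ℕ)) ^ (linear w D r ν (2 * i - 1) * δ + cubic w D r ν (2 * i - 1)))) ∧
    (∀ (J : Type) (h : J → MvPolynomial (Fin (D + r + 1)) (𝓞 K)) (e : J → ℕ) (_ : ∀ j, (h j).IsHomogeneous (e j))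
      (_ : ∀ j a, e j + 2 * (ν + 1) ≤ d a + 1)
      (κ : Type) [Fintype κ] (L : κ → Type) [∀ j, Field (L j)] [∀ j, NumberField (L j)] (C₁ : ℝ)
      (_ : ∀ (p : ℕ) [Fact p.Prime] (k : ℕ), 1 ≤ k → k ≤ 2 →
        |∑ᶠ ψ : 𝓞 K →+* GaloisField p k, (points ψ (∅ ∪ Set.range h) : ℝ) -
          Real.sqrt ((p : ℝ) ^ k) ^ (D - 1) * ∑ j, (Nat.card (𝓞 (L j) →+* GaloisField p k) : ℝ)| ≤
            C₁ * Real.sqrt ((p : ℝ) ^ k) ^ (D - 1) / Real.sqrt ((p : ℝ) ^ k))
      (f : (a : Fin r) → Fin (N a) → MvPolynomial (Fin (D + r + 1)) (𝓞 K)) (_ : ∀ a, Spans h (d a) (f a)),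
      IsFrobenius (fun _ => 1) D r (family ∅ f) Δ B α →
      HasCentralZero Δ (fun y => kunneth (cohomology (fun _ => 1) D r (norm y) (α y)) ν (2 * i - 1)) (∑ a, N a + i)
        (linear (fun _ => 1) D r ν (2 * i - 1) * Fintype.card κ + cubic (fun _ => 1) D r ν (2 * i - 1))
        (fun s => (∏ j, dedekindZeta (L j) (s - (∑ a, N a + i - 1 : ℕ))) ^ linear (fun _ => 1) D r ν (2 * i - 1) *
          dedekindZeta K (s - (∑ a, N a + i - 1 : ℕ)) ^ cubic (fun _ => 1) D r ν (2 * i - 1))) ∧
    (∀ f : (a : Fin r) → Fin (N a) → MvPolynomial (Fin (D + r + 1)) (𝓞 K), (∀ a, 2 * (ν + 1) ≤ d a + 1) →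
      (∀ a l, (f a l).IsHomogeneous (d a)) →
      (∀ a, ∀ F : MvPolynomial (Fin (D + r + 1)) (𝓞 K), F.IsHomogeneous (d a) → ∃ c : Fin (N a) → 𝓞 K, F = ∑ l, C (c l) * f a l) →
      IsFrobenius (fun _ => 1) D r (family ∅ f) Δ B α →
      HasCentralZero Δ (fun y => kunneth (cohomology (fun _ => 1) D r (norm y) (α y)) ν (2 * i - 1)) (∑ a, N a + i)
        (cubic (fun _ => 1) D r ν (2 * i - 1))
        (fun s => dedekindZeta K (s - (∑ a, N a + i - 1 : ℕ)) ^ cubic (fun _ => 1) D r ν (2 * i - 1))) ∧
    (linear (fun _ => 1) 1 1 1 1 = 1 ∧ cubic (fun _ => 1) 1 1 1 1 = 0 ∧ linear (fun _ => 1) 1 1 3 3 = 9 ∧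
      cubic (fun _ => 1) 1 1 3 3 = 1) := by
  have hcard : Fintype.card (Σ a, Fin (N a)) = ∑ a, N a := by
    rw [Fintype.card_sigma]
    simp only [Fintype.card_fin]
  have hr : 1 ≤ r := by
    rcases Nat.eq_zero_or_pos r with rfl | h
    · simp at hN
    · exact h
  have hN' : 2 ≤ Fintype.card (Σ a, Fin (N a)) := by
    rw [hcard]
    exact hN
  refine ⟨?_, ?_, ?_, ?_, Q282GS.exponents⟩
  · rw [Q282GP.dim_base, hcard]
  · intro n E hE w hw δ hδ C₀ hW J h e hh hd κ _ L _ _ C₁ hZ f hf hα
    have key := Q282GS.centre_main (K := K) (A := Fin r) (ι := fun a => Fin (N a)) D r hD hr (Fintype.card_fin r) hN' w hw δ hδ C₀ C₁ ν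
      hh hd (fun a => ⟨(hf a).hom, (hf a).mem, (hf a).gen⟩) E hE hW L hZ Δ hΔ B α hα i hi
    rw [hcard] at key
    simp only [kunneth_eq]
    exact key
  · intro J h e hh hd κ _ L _ _ C₁ hZ f hf hα
    have key := Q282GS.centre_proj_through (K := K) (A := Fin r) (ι := fun a => Fin (N a)) D r hD hr (Fintype.card_fin r) hN' C₁ ν
      hh hd (fun a => ⟨(hf a).hom, (hf a).mem, (hf a).gen⟩) L hZ Δ hΔ B α hα i hi
    rw [hcard] at key
    simp only [kunneth_eq]
    exact key
  · intro f hd hf1 hf2 hα
    have key := Q282GS.centre_proj (K := K) (A := Fin r) (ι := fun a => Fin (N a)) D r hD hr (Fintype.card_fin r) hN' ν hd hf1 hf2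
      Δ hΔ B α hα i hi
    rw [hcard] at key
    simp only [kunneth_eq]
    exact key

end Pool.Agent.Results.MP_b8021b_nt.OddCohomologyOfPowers
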