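import Mathlib
import Pool.Agent.Q109.HY.Class
import Pool.Agent.Y388.CF.Basic

set_option autoImplicit false

/-!
# The Havet-Yu conjecture for hereditary classes of graphs and for `F`-free graphs

Let `f (D)` be a bound for the chromatic numbers of the graphs of maximum degree at most `D` in a
class of graphs closed under induced subgraphs. Then the bound `D + 2 p - 1` of Havet and Yu holds
for all graphs of large maximum degree at most `D` in the class and all `p` a little larger than
`f (D) / 2`.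

Proof. The vertices are distributed at random into `2 m` types (local lemma) such that every vertex
has at most `w` neighbours in every type, `w` close to `D / (2 m)`; the graph inside a type belongs
to the class, so it has a colouring with about `f (w)` colours. The types of one half get the
smallest labels, those of the other half the largest labels, and the edges between two given types
get labels in an interval of length `w + 1` (Vizing); these intervals are placed by the modified
Latin square of the starting file `TH104.HY.C`.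
-/

namespace Pool.Agent.Results.MP_b8729f_co.HereditaryClasses

open Filter

/-- `TotalLabeling G p l`: the graph `G` has a `(p,1)`-total labeling of span `l`, that is, labels
`0, …, l` for the vertices (`fV`) and the edges (`fE`) such that adjacent vertices get different
labels, edges sharing an endpoint get different labels, and the labels of a vertex and of an
incident edge differ by at least `p`. -/
def TotalLabeling {V : Type} (G : SimpleGraph V) (p l : ℕ) : Prop :=
  ∃ (fV : V → ℕ) (fE : Sym2 V → ℕ),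
    (∀ v, fV v ≤ l) ∧ (∀ e ∈ G.edgeSet, fE e ≤ l) ∧
    (∀ u v, G.Adj u v → fV u ≠ fV v) ∧
    (∀ u v w, G.Adj u v → G.Adj u w → v ≠ w → fE s(u, v) ≠ fE s(u, w)) ∧
    (∀ u v, G.Adj u v → (p : ℤ) ≤ |(fV u : ℤ) - (fE s(u, v) : ℤ)|)

/-- A class of graphs which contains all induced subgraphs of its members. -/
def Hereditary (Φ : (V : Type) → SimpleGraph V → Prop) : Prop :=
  ∀ (V : Type) (G : SimpleGraph V) (P : Set V), Φ V G → Φ P (G.induce P)

/-- All degrees of `G` are at most `D`. -/
def DegreesLe {V : Type} (G : SimpleGraph V) (D : ℕ) : Prop := ∀ v, (G.neighborSet v).ncard ≤ D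

/-- The bound `D + 2 p - 1` of Havet and Yu holds for all finite graphs of the class `Φ` with
degrees at most `D`, for all sufficiently large `D` and all `p ≥ b D`. -/
def HavetYuAbove (Φ : (V : Type) → SimpleGraph V → Prop) (b : ℕ → ℝ) : Prop :=
  ∃ D₀ : ℕ, ∀ (V : Type) [Fintype V] (G : SimpleGraph V) (D p : ℕ), D₀ ≤ D → DegreesLe G D →
    Φ V G → b D ≤ p → TotalLabeling G p (D + 2 * p - 1)

/-- `c(F) ≤ C`: for every `δ > 0`, all finite graphs without a subgraph isomorphic to `F` and
with degrees at most `D`, `D` sufficiently large, are colourable with `(C + δ) D / log D`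
colours. -/
def ColourBound {W : Type} (F : SimpleGraph W) (C : ℝ) : Prop :=
  ∀ δ : ℝ, 0 < δ → ∃ D₀ : ℕ, ∀ (V : Type) [Fintype V] (G : SimpleGraph V) (D : ℕ), D₀ ≤ D →
    F.Free G → DegreesLe G D → ∃ n : ℕ, G.Colorable n ∧ (n : ℝ) ≤ (C + δ) * (D / Real.log D)

/-- `F` is almost bipartite: it is bipartite, or it becomes bipartite on deleting one vertex. -/
def NearBipartite {W : Type} (F : SimpleGraph W) : Prop :=
  F.Colorable 2 ∨ ∃ x, (F.induce {y | y ≠ x}).Colorable 2

/-- `F` has treewidth at most two: there are a finite tree `T` and sets `B i` of at most three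
vertices of `F`, one for each vertex `i` of `T`, such that every edge of `F` lies inside one of
them and, for every vertex `w` of `F`, the `i` with `w ∈ B i` induce a connected (so nonempty)
subgraph of `T`. -/
def TreewidthAtMostTwo {W : Type} (F : SimpleGraph W) : Prop :=
  ∃ (I : Type) (_ : Fintype I) (T : SimpleGraph I) (B : I → Set W), T.IsTree ∧
    (∀ i, (B i).ncard ≤ 3) ∧ (∀ a b, F.Adj a b → ∃ i, a ∈ B i ∧ b ∈ B i) ∧
    ∀ w, (T.induce {i | w ∈ B i}).Connected

lemma deg_iff {V : Type} [Fintype V] (G : SimpleGraph V) [DecidableRel G.Adj] (D : ℕ) :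
    DegreesLe G D ↔ ∀ v, G.degree v ≤ D := by
  unfold DegreesLe
  refine forall_congr' fun v => ?_
  rw [Set.ncard_eq_toFinset_card', ← SimpleGraph.neighborFinset_def,
      SimpleGraph.card_neighborFinset_eq_degree]

lemma upTo {W : Type} (F : SimpleGraph W) (C : ℝ) (h : ColourBound F C) :
    Pool.Agent.Helper311.Glue.UpTo F C := by
  intro ε hε
  obtain ⟨D₀, h1⟩ := h ε hε
  refine ⟨D₀, ?_⟩
  intro Δ hΔ V _ G _ hF hmax
  exact h1 V G Δ hΔ hF ((deg_iff G Δ).2 fun v => hmax ▸ G.degree_le_maxDegree v)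

lemma free_of_upTo {W : Type} (F : SimpleGraph W) (C : ℝ) (hC : 0 ≤ C)
    (h : Pool.Agent.Helper311.Glue.UpTo F C) (ε : ℝ) (hε : 0 < ε) :
    HavetYuAbove (fun _ G => F.Free G) (fun D => (C / 2 + ε) * (D / Real.log D)) := by
  classical
  obtain ⟨D₀, h1⟩ := Pool.Agent.Q109.HY.free_main F C hC h ε hε
  refine ⟨D₀, ?_⟩
  intro V _ G D p h2 h3 h4 h5
  exact h1 V G D p h2 ((deg_iff G D).1 h3) h4 h5

/-- Let `Φ` be a class of graphs closed under induced subgraphs.
(1) Let `D / log² D ≤ f D ≤ D / 6` for all large `D`, and suppose that for every `ε > 0`, all large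
`D` and all `w` with `D / log⁴ D ≤ w ≤ D` every finite graph of `Φ` with degrees at most `w` is
colourable with at most `(1 + ε) (w / D) f D` colours. Then the bound of Havet and Yu holds for `Φ`
and `p ≥ (1/2 + ε) f D`, `D` large.
(2) Let `0 ≤ a < 1` and suppose that for every `ε > 0` and all large `w` every finite graph of `Φ`
with degrees at most `w` is colourable with at most `(a + ε) w` colours. Then the bound of Havet
and Yu holds for `Φ` and `p ≥ (a / 2 + ε) D`, `D` large.
(3) If `c(F) ≤ C` then it holds for all `F`-free graphs and `p ≥ (C / 2 + ε) D / log D`, `D` large.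
(4) If `F` is a finite almost bipartite graph, it holds for all `F`-free graphs and
`p ≥ (1 / 2 + ε) D / log D`, `D` large.
(5) If `F` is a finite graph of treewidth at most two, it holds for all `F`-free graphs and
`p ≥ (1 + ε) D / log D`, `D` large. -/
theorem result :
    (∀ (Φ : (V : Type) → SimpleGraph V → Prop) (f : ℕ → ℝ), Hereditary Φ →
      (∀ᶠ D : ℕ in atTop, (D : ℝ) / Real.log D ^ 2 ≤ f D ∧ f D ≤ D / 6) →
      (∀ ε : ℝ, 0 < ε → ∃ D₀ : ℕ, ∀ D w : ℕ, D₀ ≤ D → (D : ℝ) / Real.log D ^ 4 ≤ w → w ≤ D →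
        ∀ (V : Type) [Fintype V] (G : SimpleGraph V), Φ V G → DegreesLe G w →
          ∃ k : ℕ, G.Colorable k ∧ (k : ℝ) ≤ (1 + ε) * (w / D) * f D) →
      ∀ ε : ℝ, 0 < ε → HavetYuAbove Φ (fun D => (1 / 2 + ε) * f D)) ∧
    (∀ (Φ : (V : Type) → SimpleGraph V → Prop) (a : ℝ), Hereditary Φ → 0 ≤ a → a < 1 →
      (∀ ε : ℝ, 0 < ε → ∃ w₀ : ℕ, ∀ w : ℕ, w₀ ≤ w →
        ∀ (V : Type) [Fintype V] (G : SimpleGraph V), Φ V G → DegreesLe G w →
          ∃ k : ℕ, G.Colorable k ∧ (k : ℝ) ≤ (a + ε) * w) →
      ∀ ε : ℝ, 0 < ε → HavetYuAbove Φ (fun D => (a / 2 + ε) * D)) ∧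
    (∀ (W : Type) (F : SimpleGraph W) (C : ℝ), 0 ≤ C → ColourBound F C →
      ∀ ε : ℝ, 0 < ε →
        HavetYuAbove (fun _ G => F.Free G) (fun D => (C / 2 + ε) * (D / Real.log D))) ∧
    (∀ (W : Type) [Fintype W] (F : SimpleGraph W), NearBipartite F → ∀ ε : ℝ, 0 < ε →
      HavetYuAbove (fun _ G => F.Free G) (fun D => (1 / 2 + ε) * (D / Real.log D))) ∧
    (∀ (W : Type) [Fintype W] (F : SimpleGraph W), TreewidthAtMostTwo F → ∀ ε : ℝ, 0 < ε →
      HavetYuAbove (fun _ G => F.Free G) (fun D => (1 + ε) * (D / Real.log D))) := by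
  classical
  refine ⟨?_, ?_, ?_, ?_, ?_⟩
  · intro Φ f hΦ hf hcol ε hε
    obtain ⟨D₀, h1⟩ := Pool.Agent.Q109.HY.class_small Φ hΦ f hf hcol ε hε
    exact ⟨D₀, fun V _ G D p h2 h3 h4 h5 => h1 V G D p h2 ((deg_iff G D).1 h3) h4 h5⟩
  · intro Φ a hΦ ha0 ha1 hcol ε hε
    obtain ⟨D₀, h1⟩ := Pool.Agent.Q109.HY.class_linear Φ hΦ a ha0 ha1 hcol ε hε
    exact ⟨D₀, fun V _ G D p h2 h3 h4 h5 => h1 V G D p h2 ((deg_iff G D).1 h3) h4 h5⟩
  · intro W F C hC hF ε hε
    exact free_of_upTo F C hC (upTo F C hF) ε hε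
  · intro W _ F hF ε hε
    refine free_of_upTo F 1 zero_le_one ?_ ε hε
    refine Pool.Agent.TH855.upTo_of_c_le F 1 zero_le_one ?_
    rw [ENNReal.ofReal_one]
    exact Pool.Agent.Y388.CF.c_almost_bipartite F hF
  · intro W _ F hF ε hε
    have h := free_of_upTo F 2 (by norm_num) (Pool.Agent.TH855.upTo_of_c_le F 2 (by norm_num) (by
      have h1 := Pool.Agent.TH855.treewidth_bound F 2 (by omega) hF
      refine h1.trans ?_
      calc ((2 : ℕ) : ENNReal) * Pool.Agent.TH855.c (⊤ : SimpleGraph (Fin (2 + 1)))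
          ≤ (2 : ℕ) * 1 := mul_le_mul_right Pool.Agent.TH855.c_triangle_le_one _
        _ = ENNReal.ofReal 2 := by norm_num)) ε hε
    have e : ((2 : ℝ) / 2 + ε) = 1 + ε := by norm_num
    rw [e] at h
    exact h

end Pool.Agent.Results.MP_b8729f_co.HereditaryClasses
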