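import Pool.Agent.Q60.GU.Final

/-!
# For every pure motive, the Mumford-Tate group, the motivic Galois group and the monodromy group are
# compared by finitely many classes

Let `M` be a polarised pure motive (for motivated cycles) over a finitely generated subfield `k` of
`ℂ`, `V` its Hodge realisation, of weight `w`, with a basis indexed by `κ`, `b = dim V`, `d` the maximum
of `|p - q|` for the types `(p, q)` of `V`, `Q` the matrix of a polarisation, `ρ` the representation of
the absolute Galois group `Γ` of `k` on `V_ℓ = V ⊗ ℚ_ℓ`, and `G` (the complex points of) the motivic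
Galois group `G_mot(M_ℂ)`. The only properties of `G` which are used are collected in
`IsMotivicGroup`: it is an algebraic group over `ℚ` of similitudes of `Q` which contains the image of
`ℂ^×`, and the image of a subgroup of finite index of `Γ` consists of points of `G` over `ℚ_ℓ`.

Let `Z` be the centre of the algebra of the endomorphisms of the Hodge structure `V`, and let
`N ≥ exp (64 b ^ (2/3) log (2 (b + d)))`, or let `Z` be totally real (no nonzero element is skew for
`Q`) and `N ≥ 2` in the first and the third assertion, `N ≥ b ^ 3` in the second and the fourth one.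

* `MT(V) = G°` if and only if every homomorphism of Hodge structures between `V^(⊗ c)` and `V^(⊗ a)`
  with `a, c ≤ N` commutes with a subgroup of finite index of `G`;
* `MT(V) = G` if and only if these homomorphisms are motivated;
* `MT(V) = G°` and `G_ℓ° = G°` over `ℚ_ℓ` if and only if `V_ℓ` is semisimple, the endomorphisms of
  `V_ℓ ⊗ V_ℓ` which commute with a subgroup of finite index of `Γ` are combinations of endomorphisms
  of the Hodge structure `V ⊗ V`, for all `B` in the Lie algebra of `MT(V)` over `ℚ_ℓ` there is `B'` in
  the Lie algebra of `G_ℓ°` with `tr (B c) = tr (B' c)` for all `c ∈ Z` (this is not needed if `Z` is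
  totally real), and the condition of the first assertion holds;
* the conjecture for `M`, `MT(V) = G` and `G_ℓ° = G` over `ℚ_ℓ`, holds if and only if the same
  conditions hold with the condition of the second assertion.

These are equalities of algebraic groups, given by their points over an algebraically closed field.
-/

set_option autoImplicit false

namespace Pool.Agent.Results.MP_b8862a_ag.DecidedForEveryMotive

open Pool.Agent.Q60.GL
open Pool.Agent.Q60.GT (TracesAbove)
open Pool.Agent.Q60.GU (IsLarge HodgeVirtually)

variable {κ : Type} [Fintype κ] [DecidableEq κ] {w : ℤ} {ℓ : ℕ} [Fact ℓ.Prime] {Γ : Type}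
  [Group Γ]

/-- **The three groups are compared by finitely many classes.** -/
theorem result (V : HodgeStructure κ w) (Q : Matrix κ κ ℚ) (hQ : IsPolarisation V Q)
    (ρ : Γ →* Matrix κ κ ℚ_[ℓ]) (hρ : Similitudes w Q ρ) (hpure : w ≠ 0 → HasPureElement ρ)
    (G : Set (Matrix κ κ ℂ)) (hG : IsMotivicGroup V Q ρ G) (N : ℕ) :
    (IsLarge V Q 2 N → (mumfordTate V.h = identityComponent G ↔ HodgeVirtually V G N)) ∧
    (IsLarge V Q (Fintype.card κ ^ 3) N → (mumfordTate V.h = G ↔ HodgeMotivated V G N)) ∧
    (IsLarge V Q 2 N →
      ((mumfordTate V.h = identityComponent G ∧ MonodromyIs ρ (identityComponent G)) ↔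
        Semisimple ρ ∧ TateIsHodge V ρ ∧ (TracesAbove V ρ ∨ TotallyRealCentre V Q) ∧
          HodgeVirtually V G N)) ∧
    (IsLarge V Q (Fintype.card κ ^ 3) N →
      ((mumfordTate V.h = G ∧ MonodromyIs ρ G) ↔
        Semisimple ρ ∧ TateIsHodge V ρ ∧ (TracesAbove V ρ ∨ TotallyRealCentre V Q) ∧
          HodgeMotivated V G N)) :=
  ⟨Pool.Agent.Q60.GU.idc_of_large hQ hG,
    fun h => Pool.Agent.Q60.GU.first_gen hQ hG (Pool.Agent.Q60.GU.det_of_large hQ h),
    fun h => Pool.Agent.Q60.GU.three_idc_gen hQ hρ hpure hG
      (Pool.Agent.Q60.GU.idc_of_large hQ hG h),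
    fun h => Pool.Agent.Q60.GU.three_gen hQ hρ hpure hG (Pool.Agent.Q60.GU.det_of_large hQ h)⟩

end Pool.Agent.Results.MP_b8862a_ag.DecidedForEveryMotive
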