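import Pool.Agent.Q50.MO.CFin

/-!
# Hodge classes and motivated classes: finitely many powers suffice

The first equality in the motivated Mumford-Tate conjecture asks that every Hodge class be
motivated. Let `X` be a smooth projective complex variety with total Betti number `b`, and let `l` be
a natural number. We prove:

* motivated classes are Hodge classes (this is well known);
* if all Hodge classes on the single power `X ^ N`, with `N = (2 b) ^ (3 b ^ 2)`, are motivated, then
  all Hodge classes on all powers of `X` are motivated;
* the same conclusion holds if the motivated classes are slightly more than one half of the Hodge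
  classes on one power of `X` with a large exponent: if, for some `ε > 0` and some
  `n ≥ (2 b) ^ (3 (2 b) ^ (3 b ^ 2)) / ε ^ 2`, the dimension of the space of the motivated classes on
  `X ^ n` is larger than `(1 / 2 + ε)` times the dimension of the space of the Hodge classes;
* there is a set `M` of at most `(2 l + 1) ^ (b ^ 2)` exponents, depending only on `X` and `l`, such
  that, if `N` is at least as large as the elements of `M` and as `(2 b) ^ (3 b ^ 2)`, for every
  smooth projective variety `Z` of Hodge level at most `l` (for example for every `Z` of dimension at
  most `l`; there is no bound for the Betti numbers of `Z`) the following holds: if all Hodge classes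
  on the single variety `Z × X ^ N` are motivated, then all Hodge classes on all the varieties
  `Z × X ^ n` are motivated.

The theorem is proved for the varieties of an arbitrary class of smooth projective varieties which
is stable under products, and for an arbitrary polarisable Hodge theory on this class, that is a Weil
cohomology theory with rational coefficients and with a polarisable Hodge decomposition. The
motivated classes are formed with the varieties in this class, as in André's definition.
-/

open CategoryTheory AlgebraicGeometry

universe u

namespace Pool.Agent.Results.MP_b8862a_ag.HodgeClassesMotivated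

open Pool.Agent.H914
open Pool.Agent.Y121.AHS (IsHodge hodgeDim)
open Pool.Agent.Q60.HDS (PolHodgeTheory totalBetti power)
open Pool.Agent.Q50.BL (LevelLE)
open Pool.Agent.Q50.MO (Motivated AllMotivated motDim)

variable {k : Type u} [Field k] {𝒱 : VarClass k} {ops : CycleOps 𝒱}

/-- **Finitely many powers of `X` suffice to see whether the Hodge classes are motivated.**
`power X n` is the product of `n` copies of `X`. -/
theorem result (T : PolHodgeTheory ops) (X : 𝒱.Obj) (l b : ℕ)
    (hb : totalBetti T.toHodgeTheory X = b) :
    (∀ (Y : 𝒱.Obj) j c, Motivated T.W Y j c → IsHodge T.toHodgeTheory Y j c) ∧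
    (AllMotivated T.toHodgeTheory (power X ((2 * b) ^ (3 * b ^ 2))) →
      ∀ n, AllMotivated T.toHodgeTheory (power X n)) ∧
    (∀ (ε : ℝ) (n : ℕ), 0 < ε → (2 * (b : ℝ)) ^ (3 * (2 * b) ^ (3 * b ^ 2)) / ε ^ 2 ≤ n →
      (1 / 2 + ε) * hodgeDim T.toHodgeTheory (power X n) < motDim T.W (power X n) →
        ∀ m, AllMotivated T.toHodgeTheory (power X m)) ∧
    ∃ M : Finset ℕ, M.card ≤ (2 * l + 1) ^ (b ^ 2) ∧
      ∀ N : ℕ, (∀ m ∈ M, m ≤ N) → (2 * b) ^ (3 * b ^ 2) ≤ N →
        ∀ Z : 𝒱.Obj, LevelLE T.toHodgeTheory Z l →
          AllMotivated T.toHodgeTheory (Z.prod (power X N)) →
            ∀ n, AllMotivated T.toHodgeTheory (Z.prod (power X n)) := by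
  subst hb
  exact ⟨Pool.Agent.Q50.MO.c_isHodge T, Pool.Agent.Q50.MO.c_determination T,
    fun ε n hε hn h m => Pool.Agent.Q50.MO.c_half T hε hn h m,
    Pool.Agent.Q50.MO.c_bounded_level T X l⟩

end Pool.Agent.Results.MP_b8862a_ag.HodgeClassesMotivated
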