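import Pool.Agent.Q57.HM.Fin

/-!
# The index of the Hodge classes over the motivated classes

The first equality of the motivated Mumford-Tate conjecture, for all motives in the tensor category
generated by `h(X)`, asks that all Hodge classes on all powers of `X` be motivated. Let `X` be a
smooth projective complex variety. We prove unconditionally:

* motivated classes are Hodge classes (this is well known);
* the quotient of the dimensions of the spaces of the Hodge classes and of the motivated classes on
  `X^n` tends to an element `N ≥ 1` of `ℕ ∪ {∞}`; we have `N = 1` if and only if all Hodge classes on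
  all powers of `X` are motivated, and if `N` is finite, then all Hodge classes on all powers of `X`
  are generated, under motivated correspondences, by the motivated classes and at most `N - 1` Hodge
  classes;
* the analogous quotient for the motivated classes and the algebraic cycles modulo numerical
  equivalence tends to an element `M ≥ 1` of `ℕ ∪ {∞}`, with `M = 1` if and only if all motivated
  classes on the powers of `X` are algebraic, and the quotient for the Hodge classes and the algebraic
  cycles tends to `N M`.

The theorem is proved for an arbitrary class of smooth projective varieties which is stable under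
products, and a Hodge theory `T` on it. The motivated classes are formed with the varieties in this
class, as in André's definition.
-/

open CategoryTheory AlgebraicGeometry

universe u

namespace Pool.Agent.Results.MP_b8862a_ag.HodgeIndex

open Pool.Agent.H914
open Pool.Agent.Y121.AHS (HodgeTheory IsHodge)
open Pool.Agent.Y133.Half (pw)
open Pool.Agent.Q50.MO (Motivated)
open Pool.Agent.Q57.DS

variable {k : Type u} [Field k] {𝒱 : VarClass k} {ops : CycleOps 𝒱}

/-- **The index of the Hodge classes over the motivated classes.** `pw X n` is the product of
`n + 1` copies of `X`. -/
theorem result (T : HodgeTheory ops) (X : 𝒱.Obj) [Nontrivial (T.W.H X)] :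
    (∀ (Y : 𝒱.Obj) (j : ℕ) (c : T.W.H Y), Motivated T.W Y j c → IsHodge T Y j c) ∧
    ∃ N M : ℕ∞, 1 ≤ N ∧ 1 ≤ M ∧
      Index (fun n => dimP (IsHodge T) (pw X n)) (fun n => dimP (Motivated T.W) (pw X n)) N ∧
      Index (fun n => dimP (Motivated T.W) (pw X n)) (fun n => cycRk ops (pw X n)) M ∧
      Index (fun n => dimP (IsHodge T) (pw X n)) (fun n => cycRk ops (pw X n)) (N * M) ∧
      (N = 1 ↔ ∀ n j c, IsHodge T (pw X n) j c → Motivated T.W (pw X n) j c) ∧
      (M = 1 ↔ ∀ n j c, Motivated T.W (pw X n) j c → IsAlg T.W (pw X n) j c) ∧
      (N ≠ ⊤ → GeneratedP (Motivated T.W) (IsHodge T) X N) :=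
  ⟨Pool.Agent.Q57.HM.h_hodge T, Pool.Agent.Q57.HM.h_tower T X⟩

end Pool.Agent.Results.MP_b8862a_ag.HodgeIndex
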