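import Pool.Agent.Q60.GL.MotFinal

/-!
# The Mumford-Tate group, the motivic Galois group and the monodromy group are compared by
finitely many classes

Let `M` be a polarised pure motive (for motivated cycles) over a finitely generated subfield `k` of
`ℂ`, `V` its Hodge realisation, of weight `w`, with a basis indexed by `κ` and `b = dim V`, `Q` the
matrix of a polarisation, `ρ` the representation of the absolute Galois group `Γ` of `k` on
`V_ℓ = V ⊗ ℚ_ℓ`, and `G` (the complex points of) the motivic Galois group `G_mot(M_ℂ)`. The only
properties of `G` which are used are collected in `IsMotivicGroup`: it is an algebraic group over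
`ℚ` of similitudes of `Q` which contains the image of `ℂ^×`, and the image of a subgroup of finite
index of `Γ` consists of points of `G` over `ℚ_ℓ`.

We suppose that the centre of the algebra of the endomorphisms of the Hodge structure `V` contains no
nonzero element which is skew for `Q`, so it is a product of totally real fields. Then

* `MT(V) = G°` if and only if every endomorphism of the Hodge structure `V ⊗ V` commutes with a
  subgroup of finite index of `G`;
* `MT(V) = G` if and only if the homomorphisms of Hodge structures between `V^(⊗ c)` and `V^(⊗ a)`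
  with `a, c ≤ b ^ 3` are motivated;
* `MT(V) = G°` and `G_ℓ° = G°` over `ℚ_ℓ` if and only if `V_ℓ` is semisimple, the endomorphisms of
  `V_ℓ ⊗ V_ℓ` which commute with a subgroup of finite index of `Γ` are combinations of endomorphisms
  of the Hodge structure `V ⊗ V`, and every one of the latter commutes with a subgroup of finite
  index of `G`;
* the conjecture for `M`, `MT(V) = G` and `G_ℓ° = G` over `ℚ_ℓ`, holds if and only if `V_ℓ` is
  semisimple, the endomorphisms of `V_ℓ ⊗ V_ℓ` which commute with a subgroup of finite index of `Γ`
  are combinations of endomorphisms of the Hodge structure `V ⊗ V`, and the homomorphisms of Hodge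
  structures between `V^(⊗ c)` and `V^(⊗ a)` with `a, c ≤ b ^ 3` are motivated.

These are equalities of algebraic groups, given by their points over an algebraically closed field.
-/

namespace Pool.Agent.Results.MP_b8862a_ag.MotivicGroupDecided

open Pool.Agent.Q60.GL

variable {κ : Type} [Fintype κ] [DecidableEq κ] {w : ℤ} {ℓ : ℕ} [Fact ℓ.Prime] {Γ : Type}
  [Group Γ]

/-- **The three groups are compared by finitely many classes.** -/
theorem result (V : HodgeStructure κ w) (Q : Matrix κ κ ℚ) (hQ : IsPolarisation V Q)
    (htr : TotallyRealCentre V Q) (ρ : Γ →* Matrix κ κ ℚ_[ℓ]) (hρ : Similitudes w Q ρ)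
    (hpure : w ≠ 0 → HasPureElement ρ) (G : Set (Matrix κ κ ℂ)) (hG : IsMotivicGroup V Q ρ G) :
    (mumfordTate V.h = identityComponent G ↔ HodgeVirtuallyMotivated V G) ∧
    (mumfordTate V.h = G ↔ HodgeMotivated V G (Fintype.card κ ^ 3)) ∧
    ((mumfordTate V.h = identityComponent G ∧ MonodromyIs ρ (identityComponent G)) ↔
      Semisimple ρ ∧ TateIsHodge V ρ ∧ HodgeVirtuallyMotivated V G) ∧
    ((mumfordTate V.h = G ∧ MonodromyIs ρ G) ↔
      Semisimple ρ ∧ TateIsHodge V ρ ∧ HodgeMotivated V G (Fintype.card κ ^ 3)) :=
  ⟨idc_iff hQ htr hG.group hG.hodge hG.sim, first_iff hQ hG htr,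
    three_idc_iff hQ hρ hpure hG htr, three_iff hQ hρ hpure hG htr⟩

end Pool.Agent.Results.MP_b8862a_ag.MotivicGroupDecided
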