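import Pool.Agent.Q57.TM.Fin

/-!
# The index of the Tate classes over the motivated classes

The last equality of the motivated Mumford-Tate conjecture, for all motives in the tensor category
generated by `h(X)`, asks that for every prime number `ℓ` all `ℓ`-adic Tate classes on all powers of
`X` be linear combinations of motivated classes. Let `X` be a smooth projective variety over a
finitely generated subfield of `ℂ` and let `b` be its total Betti number. We prove unconditionally:

* there is an element `M ≥ 1` of `ℕ ∪ {∞}`, which does not depend on `ℓ`, such that the quotient of the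
  dimension of the space of the motivated classes on `X^n` and of the rank of the group of the
  algebraic cycles modulo numerical equivalence tends to `M`, and `M = 1` if and only if all motivated
  classes on the powers of `X` are algebraic;
* motivated classes are Tate classes (this is well known; it is deduced here from the comparison
  isomorphism and the formal properties of the action of the Galois group);
* for every `ℓ`, the quotient of the dimensions of the spaces of the Tate classes and of the motivated
  classes on `X^n` tends to an element `N ≥ 1` of `ℕ ∪ {∞}`, and the one for the Tate classes and the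
  algebraic cycles tends to `N M`; we have `N = 1` if and only if all Tate classes on all powers of
  `X` are combinations of motivated classes, and if `N` is finite, then all Tate classes on all powers
  of `X` are generated, under motivated correspondences, by the motivated classes and at most `N - 1`
  Tate classes;
* if `N ≠ 1`, the motivated classes are at most about one half of the Tate classes, with an explicit
  bound: if `N₀ ≥ 8` is even and there is a Tate class on one of the varieties `X, X^2, …, X^(N₀)`
  which is not a combination of motivated classes, then for every `ε > 0` and all `n` with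
  `n + 1 ≥ (2 b)^(3 N₀) / ε^2` the motivated classes on `X^(n+1)` span a space of dimension at most
  `1/2 + ε` times the dimension of the space of the Tate classes.

The theorem is proved for an arbitrary class of smooth projective varieties which is stable under
products, a Hodge theory `T` on it, and every Weil cohomology theory `W'` with a comparison isomorphism
and a Galois action (`ℓ`-adic cohomology).
-/

open CategoryTheory AlgebraicGeometry

universe u w

namespace Pool.Agent.Results.MP_b8862a_ag.TateIndex

open Pool.Agent.H914
open Pool.Agent.Y121.AHS (HodgeTheory)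
open Pool.Agent.Y133.Half (pw)
open Pool.Agent.Q50.MO (Motivated)
open Pool.Agent.Q55 (GaloisAction IsTate)
open Pool.Agent.Q57.DS
open Pool.Agent.Q57.TM

variable {k : Type u} [Field k] {𝒱 : VarClass k} {ops : CycleOps 𝒱}

/-- **The index of the Tate classes over the motivated classes.** `pw X n` is the product of
`n + 1` copies of `X`. -/
theorem result (T : HodgeTheory ops) (X : 𝒱.Obj) [Nontrivial (T.W.H X)] :
    ∃ M : ℕ∞, 1 ≤ M ∧
      Index (fun n => dimP (Motivated T.W) (pw X n)) (fun n => cycRk ops (pw X n)) M ∧
      (M = 1 ↔ ∀ n j c, Motivated T.W (pw X n) j c → IsAlg T.W (pw X n) j c) ∧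
      ∀ (W' : WeilCohomology.{u, 0} ops) (C : Compare T.W W') (Γ : Type w) [Group Γ]
        (G : GaloisAction W' Γ),
        (∀ (Y : 𝒱.Obj) (j : ℕ) (c : T.W.H Y), Motivated T.W Y j c → IsTate G Y j (C.f Y c)) ∧
        (∃ N : ℕ∞, 1 ≤ N ∧
          Index (fun n => dimP (IsTate G) (pw X n)) (fun n => dimP (Motivated T.W) (pw X n)) N ∧
          Index (fun n => dimP (IsTate G) (pw X n)) (fun n => cycRk ops (pw X n)) (N * M) ∧
          (N = 1 ↔ ∀ n j c, IsTate G (pw X n) j c → Img C (Motivated T.W) (pw X n) j c) ∧
          (N ≠ ⊤ → GeneratedP (Img C (Motivated T.W)) (IsTate G) X N)) ∧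
        ∀ N₀ : ℕ, 8 ≤ N₀ → N₀ % 2 = 0 →
          (∃ m < N₀, ∃ j c, IsTate G (pw X m) j c ∧ ¬ Img C (Motivated T.W) (pw X m) j c) →
          ∀ (ε : ℝ) (n : ℕ), 0 < ε →
            (2 * (rk T.W.K (Set.univ : Set (T.W.H X)) : ℝ)) ^ (3 * N₀) / ε ^ 2 ≤ n + 1 →
            (dimP (Motivated T.W) (pw X n) : ℝ) ≤ (1 / 2 + ε) * dimP (IsTate G) (pw X n) := by
  obtain ⟨_, M, _, h2, _, h4, _, _, h7, _⟩ := Pool.Agent.Q57.HM.h_tower T X
  refine ⟨M, h2, h4, h7, ?_⟩
  intro W' C Γ _ G
  rw [mot_fun] at h4 ⊢
  refine ⟨fun Y j c h => mot_tate C T.rat G h, ?_, ?_⟩
  · obtain ⟨N, k1, k2, k3, k4, k5⟩ := t_tower T X h4 C G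
    exact ⟨N, k1, k2, k3, k4, fun hN => generated_iff.2 (k5 hN)⟩
  · rintro N₀ h8 h2 ⟨m, hm, j, c, hc, hc'⟩ ε n hε hn
    have h1 : rk T.W.K (Set.univ : Set (T.W.H X)) = Module.finrank T.W.K (T.W.H X) := by
      unfold rk Set.finrank
      rw [Submodule.span_univ, finrank_top]
    rw [h1] at hn
    exact t_half T X C G h8 h2 hm hc hc' hε hn

end Pool.Agent.Results.MP_b8862a_ag.TateIndex
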