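import Pool.Agent.Q118.TreeProf3

/-!
# Vanishing path density in limit profiles of trees

For every `k ≥ 4` and every limit `k`-profile of trees: if the path density is `0`, then the star
density is `1`.
-/

namespace Pool.Agent.Results.MP_b90d6a_co.VanishingPathsForceStars

open SimpleGraph Filter Topology

/-- `c(S, T)`: the number of vertex sets `U` of `T` such that the induced subgraph `T[U]` is
isomorphic to `S`. -/
noncomputable def copies {V W : Type} (S : SimpleGraph W) (T : SimpleGraph V) : ℕ :=
  Set.ncard {U : Finset V | Nonempty (T.induce (U : Set V) ≃g S)}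

/-- `Z_k(T)`: the number of `k`-element vertex sets `U` of `T` such that `T[U]` is a tree; this is
the sum of `c(S, T)` over the isomorphism types of trees `S` on `k` vertices. -/
noncomputable def total (k : ℕ) {V : Type} (T : SimpleGraph V) : ℕ :=
  Set.ncard {U : Finset V | U.card = k ∧ (T.induce (U : Set V)).IsTree}

/-- The `k`-profile of `T`: its coordinate at a graph `S` on `k` vertices is `c(S, T) / Z_k(T)`
(for a tree `T` only the coordinates at trees `S` can be non-zero, and isomorphic graphs `S` have
the same coordinate). -/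
noncomputable def profile (k : ℕ) {V : Type} (T : SimpleGraph V) : SimpleGraph (Fin k) → ℝ :=
  fun S => (copies S T : ℝ) / (total k T : ℝ)

/-- The limit set of `k`-profiles: all limits of the profiles of sequences of finite trees whose
orders tend to infinity. -/
def limitSet (k : ℕ) : Set (SimpleGraph (Fin k) → ℝ) :=
  {p | ∃ (N : ℕ → ℕ) (T : ∀ i, SimpleGraph (Fin (N i))), (∀ i, (T i).IsTree) ∧
    Tendsto N atTop atTop ∧ Tendsto (fun i => profile k (T i)) atTop (𝓝 p)}

lemma copies_path {V : Type} [Fintype V] (T : SimpleGraph V) (k : ℕ) :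
    copies (pathGraph k) T = (Q118.TreeProf.paths T k).card := by
  classical
  rw [copies, ← Set.ncard_coe_finset]
  congr 1
  ext U
  simp [Q118.TreeProf.paths]

lemma copies_star {V : Type} [Fintype V] (T : SimpleGraph V) {k : ℕ} (r : Fin k) :
    copies (starGraph r) T = (Q118.TreeProf.stars T r).card := by
  classical
  rw [copies, ← Set.ncard_coe_finset]
  congr 1
  ext U
  simp [Q118.TreeProf.stars]

lemma total_eq {V : Type} [Fintype V] (T : SimpleGraph V) (k : ℕ) :
    total k T = (Q118.TreeProf.trees T k).card := by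
  classical
  rw [total, ← Set.ncard_coe_finset]
  congr 1
  ext U
  simp [Q118.TreeProf.trees]

/-- For every `k ≥ 4` and every `p` in the limit set of `k`-profiles of trees, if the path
coordinate of `p` is `0`, then the star coordinate of `p` is `1`. -/
theorem result : ∀ (k : ℕ) (hk : 4 ≤ k), ∀ p ∈ limitSet k,
    p (pathGraph k) = 0 → p (starGraph (⟨0, by omega⟩ : Fin k)) = 1 := by
  intro k hk p hp h0
  obtain ⟨m, rfl⟩ : ∃ m, k = m + 3 := ⟨k - 3, by omega⟩
  obtain ⟨N, T, hT, hN, hlim⟩ := hp
  rw [tendsto_pi_nhds] at hlim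
  have hP := hlim (pathGraph (m + 3))
  rw [h0] at hP
  have hS := hlim (starGraph (⟨0, by omega⟩ : Fin (m + 3)))
  set r : Fin (m + 3) := ⟨0, by omega⟩ with hr
  have hle : ∀ i, profile (m + 3) (T i) (starGraph r) ≤ 1 := by
    intro i
    have h1 : (copies (starGraph r) (T i) : ℝ) ≤ total (m + 3) (T i) := by
      rw [copies_star, total_eq]
      exact_mod_cast Finset.card_le_card (Q118.TreeProf.stars_sub (hT i) r)
    exact div_le_one_of_le₀ h1 (by positivity)
  refine le_antisymm (le_of_tendsto' hS hle) ?_
  refine le_of_forall_pos_le_add fun ε hε => ?_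
  obtain ⟨n₀, C, hmain⟩ := Q118.TreeProf.main_ineq m ε hε
  have hev : ∀ᶠ i in atTop, 1 ≤ profile (m + 3) (T i) (starGraph r) + ε +
      C * profile (m + 3) (T i) (pathGraph (m + 3)) := by
    filter_upwards [hN.eventually_ge_atTop n₀] with i hi
    obtain ⟨hZ, hineq⟩ := hmain (Fin (N i)) (T i) r (hT i) (by simpa using hi)
    rw [← total_eq, ← copies_star, ← copies_path] at hineq
    rw [← total_eq] at hZ
    have hZ' : (0 : ℝ) < total (m + 3) (T i) := by exact_mod_cast hZ
    rw [profile, profile]
    have e1 : (copies (starGraph r) (T i) : ℝ) / (total (m + 3) (T i) : ℝ) + ε +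
        C * ((copies (pathGraph (m + 3)) (T i) : ℝ) / (total (m + 3) (T i) : ℝ)) =
        ((copies (starGraph r) (T i) : ℝ) + ε * (total (m + 3) (T i) : ℝ) +
          C * (copies (pathGraph (m + 3)) (T i) : ℝ)) / (total (m + 3) (T i) : ℝ) := by
      field_simp
    rw [e1, le_div_iff₀ hZ']
    linarith
  have hlim2 : Tendsto (fun i => profile (m + 3) (T i) (starGraph r) + ε +
      C * profile (m + 3) (T i) (pathGraph (m + 3))) atTop
      (𝓝 (p (starGraph r) + ε + C * 0)) :=
    (hS.add_const ε).add (hP.const_mul C)
  have := ge_of_tendsto hlim2 hev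
  simpa using this

end Pool.Agent.Results.MP_b90d6a_co.VanishingPathsForceStars
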