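import Pool.Agent.Q64.LD.Conv
import Pool.Agent.Q64.LC.Sub
import Pool.Agent.TH143.EL.Wp

/-!
# Images of complex tori and curves given by Dirichlet series with gaps

Let `X` be a projective algebraic set which is cut out by the forms of degree at most `D` in the
ideal `I`, and let `Z` be the closed set of the ideal `I'`. If all nonconstant holomorphic maps from
one-dimensional complex tori to `X` map to `Z`, then all nonconstant holomorphic curves
`f = ∑ exp (- l i * s) a i` in `X`, on a half plane or on the plane, given by a general Dirichlet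
series with infinitely many gaps `D * l m < l (m + 1)`, lie in `Z`. In particular, if there are no
nonconstant holomorphic maps from one-dimensional complex tori to `X`, then there are no curves of
this type. The first condition can be weakened to the rational curves in `X`, and then the converse
holds.
-/

set_option autoImplicit false

namespace Pool.Agent.Results.MP_b9fedf_ag.DirichletCurves

open MvPolynomial Pool.Agent.TH143.GT Pool.Agent.W602.GT Pool.Agent.W603.GR
  Pool.Agent.Q64.LC Pool.Agent.Q64.LD Pool.Agent.TH143.EL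
open scoped LinearAlgebra.Projectivization

theorem result {n D : ℕ} (hD : 1 ≤ D) {I : Ideal (MvPolynomial (Fin (n + 1)) ℂ)}
    (hcut : CutBy D I) :
    (∀ I' : Ideal (MvPolynomial (Fin (n + 1)) ℂ), TorusMapsIn I I' →
      ∀ (σ : ℝ) (l : ℕ → ℝ) (a : ℕ → Fin (n + 1) → ℂ) (f : ℂ → Fin (n + 1) → ℂ),
        DCurve I 1 σ l a f → NonConstH σ f → DGaps D l → ∀ s : ℂ, σ < s.re → InZ I' (f s)) ∧
    ((∀ ω₁ ω₂ : ℂ, LinearIndependent ℝ ![ω₁, ω₂] → ∀ g : ℂ → ℙ ℂ (Fin (n + 1) → ℂ), HolMap g →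
        (∀ z, g (z + ω₁) = g z) → (∀ z, g (z + ω₂) = g z) → (∀ z, InV I (g z)) →
        ∀ z w, g z = g w) →
      ∀ (σ : ℝ) (l : ℕ → ℝ) (a : ℕ → Fin (n + 1) → ℂ) (f : ℂ → Fin (n + 1) → ℂ),
        DCurve I 1 σ l a f → DGaps D l → ¬ NonConstH σ f) ∧
    ∀ I' : Ideal (MvPolynomial (Fin (n + 1)) ℂ), List.TFAE [
      MorIn I 1 I',
      ∀ (l : ℕ → ℝ) (a : ℕ → Fin (n + 1) → ℂ) (f : ℂ → Fin (n + 1) → ℂ), (∀ σ, DCurve I 1 σ l a f) →
        (∃ σ, NonConstH σ f) → DGaps D l → ∀ s : ℂ, InZ I' (f s),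
      ∀ (σ : ℝ) (l : ℕ → ℝ) (a : ℕ → Fin (n + 1) → ℂ) (f : ℂ → Fin (n + 1) → ℂ),
        DCurve I 1 σ l a f → NonConstH σ f → DGaps D l → ∀ s : ℂ, σ < s.re → InZ I' (f s)] := by
  have key : ∀ I' : Ideal (MvPolynomial (Fin (n + 1)) ℂ), TorusMapsIn I I' →
      ∀ (σ : ℝ) (l : ℕ → ℝ) (a : ℕ → Fin (n + 1) → ℂ) (f : ℂ → Fin (n + 1) → ℂ),
        DCurve I 1 σ l a f → NonConstH σ f → DGaps D l → ∀ s : ℂ, σ < s.re → InZ I' (f s) := by
    rintro I' hT σ l a f hf hnc hb s hs H hH ⟨d, hd⟩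
    have h1 := ratCurves_of_torus hT
    refine Pool.Agent.Q64.LD.vanish_gap (isHomogeneous_one _ _) (Nat.zero_le _) hcut (fun T hT z => ?_) hf hnc hb hs
    obtain ⟨u, v, j, k, huv⟩ := hT.ind
    have h2 := h1 T (fun u G hG hGf => by
      rw [eval₂_id]
      exact hT.mem G hG hGf u) ⟨j, k, u, v, huv⟩ z H hH ⟨d, hd⟩
    rwa [eval₂_id] at h2
  refine ⟨key, fun h σ l a f hf hb hnc => ?_, fun I' => ?_⟩
  · have hT : TorusMapsIn I ⊤ := by
      intro ω₁ ω₂ hω g hg h1 h2 hgX hgnc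
      exfalso
      obtain ⟨z, w, hzw⟩ := hgnc
      exact hzw (h ω₁ ω₂ hω g hg h1 h2 hgX z w)
    have h1 := key ⊤ hT σ l a f hf hnc hb (σ + 1 : ℝ) (by rw [Complex.ofReal_re]; linarith) 1
      Submodule.mem_top ⟨0, isHomogeneous_one _ _⟩
    rw [map_one] at h1
    exact one_ne_zero h1
  · have hform : ∀ G : MvPolynomial (Fin (n + 1)) ℂ, IsForm G →
        ((∀ T, Mor I 1 T → NC T → ∀ z : ℂ, eval (fun j => (T j).eval z) G = 0) ↔
          ∀ T, PolyCurve I 1 T → ∀ z : ℂ, eval (fun j => (T j).eval z) G = 0) := by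
      rintro G ⟨d, hd⟩
      refine ⟨fun h T hT z => ?_, fun h T hM hN => h T (hM.poly hN)⟩
      obtain ⟨g, T', hT', hM, hN⟩ := hT.reduce (isHomogeneous_one _ _)
      have h1 : (fun j => (T j).eval z) = fun j => g.eval z * (T' j).eval z := by
        funext j
        rw [hT' j, Polynomial.eval_mul]
      rw [h1, eval_mul_form hd, h T' hM hN z, mul_zero]
    tfae_have 1 → 3 := by
      intro h σ l a f hf hnc hb s hs H hH hHf
      refine Pool.Agent.Q64.LD.vanish_gap (isHomogeneous_one _ _) (Nat.zero_le _) hcut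
        ((hform H hHf).1 fun T hM hN z => h T hM hN z H hH hHf) hf hnc hb hs
    tfae_have 3 → 2 := by
      intro h l a f hf hnc hb s H hH hHf
      have h1 := (tfae_gap hD (isHomogeneous_one _ _) (Nat.zero_le _) hcut H).out 2 1
      exact h1.1 (fun σ l a f hf hnc hb s hs => h σ l a f hf hnc hb s hs H hH hHf) l a f hf hnc hb s
    tfae_have 2 → 1 := by
      intro h T hM hN z H hH hHf
      have h1 := (tfae_gap hD (isHomogeneous_one _ _) (Nat.zero_le _) hcut H).out 1 0
      exact h1.1 (fun l a f hf hnc hb s => h l a f hf hnc hb s H hH hHf) T (hM.poly hN) z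
    tfae_finish

end Pool.Agent.Results.MP_b9fedf_ag.DirichletCurves
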