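import Pool.Agent.Q4.Kantor.Conv

/-!
# Irreducible Jordan supermodules over a Kantor double which are not Kantor doubles
-/

namespace Pool.Agent.Results.MP_ba200f_al.NotKantorType

open Q4.JSuper

/-- Over every field `F` of characteristic `0` there is a simple unital dot-bracket superalgebra `A`
with a Jordan bracket (in the proof `A = F[t]` with `{a, b} = a'b - ab'`) and a unital irreducible
Jordan supermodule `M` over `Kan(A)` such that for every dot-bracket supermodule `V` with a Jordan
bracket over `A` there is no linear bijection from `M` to `Kan(V)` commuting with the right action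
of `Kan(A)`; in particular `M` is not isomorphic to `Kan(V)`. -/
theorem result (F : Type) [Field F] [CharZero F] :
    ∃ (A : DB F) (e : A.carrier) (M : Mod (Kan A)),
      A.IsOne e ∧ A.IsSimple ∧ A.IsJordanBracket ∧
      M.IsJordan ∧ M.ActsAsOne (e, 0) ∧ M.IsIrreducible ∧
      ∀ V : DBMod A, V.IsJordanBracket → ¬ M.RightIso V.Kan :=
  main F

end Pool.Agent.Results.MP_ba200f_al.NotKantorType
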