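import Pool.Agent.Q129.MT.Main

/-!
# The motivic Mumford–Tate conjecture for products of hypersurfaces

Let `k` be a finitely generated field of characteristic zero and `ℓ` a prime number. The motivic
Mumford–Tate conjecture for a motive `M` over `k` says that the identity components of the `ℓ`-adic
monodromy group `G_{ℓ,k}(M)` and of the motivic Galois group `𝒢_k(M)` over `ℚ_ℓ` are equal; since
`G_{ℓ,k}(M) ⊆ 𝒢_k(M)` this is the equality of the dimensions. It is not known to pass from `M` and
`N` to `M ⊕ N` or `M ⊗ N`.

We prove: if it holds for each single smooth hypersurface over `k`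

  `W : f(x_0, …, x_(a+1)) + y_1^d - z_1^d + ⋯ + y_m^d - z_m^d = 0`, `a ≤ ω(dim W)`,

for a set of pairs `(dim W, d)` with arbitrarily large dimensions and arbitrarily divisible degrees
(`ω` is any function which tends to infinity, however slowly, so almost all variables are diagonal),
then it holds for all finite products `X_1 × ⋯ × X_r` of smooth hypersurfaces over `k` of any
dimensions and degrees, and all motives in the Tannakian category generated by such a product.
-/

open CategoryTheory MonoidalCategory Limits

universe v u w

namespace Pool.Agent.Results.MP_bbcdf5_ag.SingleHypersurfacesDecide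

open Pool.Agent.Q28.HJ Pool.Agent.Q129.MT

/-- **The motivic Mumford–Tate conjecture for products of hypersurfaces.** Let `𝓜` be the category
of motives over a finitely generated field `k` of characteristic zero (in the sense of André, or for
absolute Hodge cycles), `T` the hypersurfaces over `k` with the dimensions of the `ℓ`-adic monodromy
groups and of the motivic Galois groups (`hT`: known facts). Let `S` be a set of pairs `(n, d)` which
contains, for all `N` and `D`, a pair with `n ≥ N` and `D ∣ d`, and `ω : ℕ → ℕ` a function which tends
to infinity. The following statements are equivalent (`L` is the Lefschetz motive; `M_W ⊞ L`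
generates the same Tannakian category as the motive of `W`):

1. `G_{ℓ,k}(M)° = 𝒢_k(M)°` over `ℚ_ℓ` for `M = M_W ⊞ L`, for all `W` with `(dim W, deg W) ∈ S` which
  are iterated suspensions `f(x) + y_1^d - z_1^d + ⋯ + y_m^d - z_m^d = 0` of smooth hypersurfaces `X`
  over `k` with `dim X ≤ ω (dim W)`;
2. for all finite sets of smooth hypersurfaces `X_1, …, X_r` over `k`, `G_{ℓ,k}(N)° = 𝒢_k(N)°` over
  `ℚ_ℓ` for all the motives `N` which are obtained from `M_{X_1} ⊞ ⋯ ⊞ M_{X_r} ⊞ L` by tensor
  products, direct sums, direct summands and negative Tate twists, in particular for the motive of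
  `X_1 × ⋯ × X_r`. -/
theorem result {𝓜 : Type u} [Category.{v} 𝓜] [Preadditive 𝓜] [MonoidalCategory 𝓜]
    [BraidedCategory 𝓜] [Limits.HasBinaryBiproducts 𝓜] {T : MTData.{v, u, w} 𝓜}
    (hT : T.Facts) (S : Set (ℕ × ℕ)) (hS : AnyCofinal S) (ω : ℕ → ℕ)
    (hω : Filter.Tendsto ω Filter.atTop Filter.atTop) :
    (∀ X W : T.Hyp, T.Smooth X → Relation.ReflTransGen T.Susp X W →
      (T.dim W, T.deg W) ∈ S → T.dim X ≤ ω (T.dim W) → T.MT (T.prim W ⊞ T.L)) ↔
    ∀ l : List T.Hyp, (∀ X ∈ l, T.Smooth X) → ∀ N, Below T.L (T.total l) N → T.MT N :=
  final hT S hS ω hω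

end Pool.Agent.Results.MP_bbcdf5_ag.SingleHypersurfacesDecide
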