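import Pool.Agent.Q130.UQ.Main

/-!
# MP_bd2638_an: transitivity of Anosov diffeomorphisms that are quasiconformal on one bundle
-/

set_option autoImplicit false

open scoped Manifold ContDiff Topology Bundle
open Set Filter Bundle

namespace Pool.Agent.Results.MP_bd2638_an.OneQuasiconformalBundle

open Pool.Agent.H721R2 Pool.Agent.H789R2.AN Pool.Agent.H779R2.An

/-- The return maps `D(fᵏ)`, `fᵏ(p) = p`, `k ≥ 1`, have uniformly bounded distortion on the
subspaces `V p`: for some constant `K`, `‖D(fᵏ) v‖ / ‖v‖ ≤ K ‖D(fᵏ) w‖ / ‖w‖` for all such `k`, `p`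
and all `v, w ∈ V p` (written without denominators). Only periodic points are involved. -/
def PeriodicDistortion {E : Type*} [NormedAddCommGroup E] [NormedSpace ℝ E]
    {M : Type*} [TopologicalSpace M] [ChartedSpace E M] (f : M → M)
    (N : TangentBundle 𝓘(ℝ, E) M → ℝ) (V : ∀ x : M, Submodule ℝ (TangentSpace 𝓘(ℝ, E) x)) : Prop :=
  ∃ K : ℝ, ∀ (k : ℕ) (p : M), 1 ≤ k → f^[k] p = p → ∀ v ∈ V p, ∀ w ∈ V p,
    N (tangentMap 𝓘(ℝ, E) 𝓘(ℝ, E) (f^[k]) ⟨p, v⟩) * N ⟨p, w⟩ ≤
      K * (N (tangentMap 𝓘(ℝ, E) 𝓘(ℝ, E) (f^[k]) ⟨p, w⟩) * N ⟨p, v⟩)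

/-- **Anosov diffeomorphisms that are quasiconformal on one bundle are transitive.**

Let `f` be a `C²` Anosov diffeomorphism of a closed connected smooth manifold `M`, with splitting
`TM = Es ⊕ Eu` of ranks `ds`, `du`.  Suppose that

* `du ≥ 2` and the return maps `D(fᵏ)(p)`, `fᵏ(p) = p`, have uniformly bounded distortion on `Eu`
  (`PeriodicDistortion`; this holds if `f` is uniformly quasiconformal on `Eu`), nothing at all
  being assumed on `Es`; or
* the same with `Es` in place of `Eu`.

Then `f` is topologically transitive.  Moreover, for each of the two bundles and without any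
transitivity or rank assumption, bounded distortion at the periodic points is equivalent to uniform
quasiconformality (`UniformlyQC`).

The proof: in the linearizing coordinates of the unstable leaves the stable holonomies are
`K`-quasiconformal maps with the same `K` at all distances.  By a counting argument, the image of a
unit disc in an unstable leaf of an attractor under a holonomy along an arbitrarily long stable path
does not contain a disc of a certain fixed size; a Koebe type distortion theorem (rank at least two)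
then bounds these images at all scales, so that holonomies extend to entire unstable leaves, and
they are onto. Hence the basin of the attractor is open and closed. -/
theorem result (E : Type*) [NormedAddCommGroup E] [NormedSpace ℝ E] [FiniteDimensional ℝ E]
    (M : Type*) [TopologicalSpace M] [T2Space M] [CompactSpace M] [ConnectedSpace M]
    [ChartedSpace E M] [IsManifold 𝓘(ℝ, E) ∞ M] (f : Diffeomorph 𝓘(ℝ, E) 𝓘(ℝ, E) M M 1)
    (hf2 : ContMDiff 𝓘(ℝ, E) 𝓘(ℝ, E) 2 f) (hf2' : ContMDiff 𝓘(ℝ, E) 𝓘(ℝ, E) 2 f.symm)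
    (Es Eu : ∀ x : M, Submodule ℝ (TangentSpace 𝓘(ℝ, E) x)) (hA : IsAnosov f Es Eu)
    (N : TangentBundle 𝓘(ℝ, E) M → ℝ) (hN : IsTangentNorm N)
    (ds du : ℕ) (hds : ∀ x, Module.finrank ℝ (Es x) = ds)
    (hdu : ∀ x, Module.finrank ℝ (Eu x) = du) :
    ((2 ≤ du ∧ PeriodicDistortion f N Eu) ∨ (2 ≤ ds ∧ PeriodicDistortion f N Es) →
      TopTransitive f) ∧
    (PeriodicDistortion f N Eu ↔ UniformlyQC f N Eu) ∧
    (PeriodicDistortion f N Es ↔ UniformlyQC f N Es) := by
  obtain ⟨hu, hs⟩ := Pool.Agent.Q130.AN.main_crit E M f hf2 hf2' Es Eu hA N hN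
  refine ⟨fun h => Pool.Agent.Q130.UQ.main_per E M f hf2 hf2' Es Eu hA N hN ds du hds hdu h,
    ⟨hu, ?_⟩, ⟨hs, ?_⟩⟩
  · rintro ⟨K, hK⟩
    refine ⟨K, fun k p _ hp v hv w hw => ?_⟩
    exact hK k p v hv w hw
  · rintro ⟨K, hK⟩
    refine ⟨K, fun k p _ hp v hv w hw => ?_⟩
    exact hK k p v hv w hw

end Pool.Agent.Results.MP_bd2638_an.OneQuasiconformalBundle
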