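import Pool.Agent.Q57.DS.Fin2

/-!
# Cycles, Hodge classes and de Rham-Betti classes on the powers of a variety

The conjectures `GPC^k(X^n)` for all `k` and `n` have two parts: all classes which are Hodge classes
and de Rham-Betti classes are combinations of classes of algebraic cycles, and all de Rham-Betti
classes are Hodge classes. Let `X` be a smooth projective variety over the field of algebraic
numbers, with total Betti number `b`. We call the classes which are both Hodge classes and de
Rham-Betti classes HD classes. We prove unconditionally: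

* the quotients of the dimensions of the spaces of the HD classes and of the cycles modulo numerical
  equivalence, of the de Rham-Betti classes and of the HD classes, and of the Hodge classes and of
  the HD classes on `X^n` tend to elements `M`, `N`, `N'` of `{1, 2, …, ∞}`, so that the index of the
  de Rham-Betti classes over the cycles is `N M` and the index of the Hodge classes is `N' M`; the
  two parts of the conjecture for the powers of `X` are equivalent to `M = 1` and to `N = 1`, and all
  Hodge classes on the powers are de Rham-Betti classes if and only if `N' = 1`; if `N` (or `N'`) is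
  finite, at most `N - 1` (or `N' - 1`) classes generate all de Rham-Betti classes (Hodge classes)
  over the HD classes, under correspondences given by HD classes;
* explicitly: if a de Rham-Betti class on one of the varieties `X, …, X^(N₀)`, `N₀ ≥ 8` even, is not
  a Hodge class, then for `n + 1 ≥ (2 b)^(3 N₀) / ε^2` the dimension of the space of the HD classes
  on `X^(n+1)` is at most `1/2 + ε` times the dimension of the space of the de Rham-Betti classes.

The theorem is proved for an arbitrary class of smooth projective varieties which is stable under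
products, a Hodge theory `T` on it, and a de Rham structure `D` on `T` over a subfield `F` of `ℂ`.
-/

open CategoryTheory AlgebraicGeometry

universe u

namespace Pool.Agent.Results.MP_bf54cf_ag.HodgeSplitting

open Pool.Agent.H914 Pool.Agent.H914.VarClass.Obj Pool.Agent.H914.WeilCohomology
open Pool.Agent.Y121.AHS (HodgeTheory IsHodge)
open Pool.Agent.Y133.Half (pw)
open Pool.Agent.Q57.DS

variable {k : Type u} [Field k] {𝒱 : VarClass k} {ops : CycleOps 𝒱}

/-- **Cycles, Hodge classes and de Rham-Betti classes on the powers of a variety.** `pw X n` is the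
product of `n + 1` copies of `X`. -/
theorem result (T : HodgeTheory ops) {F : Subfield ℂ} (D : DRStr T F) (X : 𝒱.Obj)
    [Nontrivial (T.W.H X)] :
    (∃ M N N' : ℕ∞, 1 ≤ M ∧ 1 ≤ N ∧ 1 ≤ N' ∧
      Index (fun n => dimP (IsHD D) (pw X n)) (fun n => cycRk ops (pw X n)) M ∧
      Index (fun n => dimP (IsDRB D) (pw X n)) (fun n => dimP (IsHD D) (pw X n)) N ∧
      Index (fun n => dimP (IsHodge T) (pw X n)) (fun n => dimP (IsHD D) (pw X n)) N' ∧
      Index (fun n => dimP (IsDRB D) (pw X n)) (fun n => cycRk ops (pw X n)) (N * M) ∧
      Index (fun n => dimP (IsHodge T) (pw X n)) (fun n => cycRk ops (pw X n)) (N' * M) ∧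
      (M = 1 ↔ ∀ n, AreAlg (IsHD D) (pw X n)) ∧
      (N = 1 ↔ ∀ n, DRBAreHodge D (pw X n)) ∧
      (N' = 1 ↔ ∀ n, HodgeAreDRB D (pw X n)) ∧
      (M = 1 ∧ N = 1 ↔ ∀ n, AreAlg (IsDRB D) (pw X n)) ∧
      (N ≠ ⊤ → GeneratedP (IsHD D) (IsDRB D) X N) ∧
      (N' ≠ ⊤ → GeneratedP (IsHD D) (IsHodge T) X N')) ∧
    ∀ N₀ : ℕ, 8 ≤ N₀ → N₀ % 2 = 0 → (∃ m < N₀, ¬ DRBAreHodge D (pw X m)) →
      ∀ (ε : ℝ) (n : ℕ), 0 < ε →
        (2 * (rk T.W.K (Set.univ : Set (T.W.H X)) : ℝ)) ^ (3 * N₀) / ε ^ 2 ≤ n + 1 →
        (dimP (IsHD D) (pw X n) : ℝ) ≤ (1 / 2 + ε) * dimP (IsDRB D) (pw X n) := by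
  refine ⟨p_tower D X, ?_⟩
  rintro N₀ h8 h2 ⟨m, hm, hc⟩ ε n hε hn
  have h1 : rk T.W.K (Set.univ : Set (T.W.H X)) = Module.finrank T.W.K (T.W.H X) := by
    unfold rk Set.finrank
    rw [Submodule.span_univ, finrank_top]
  rw [h1] at hn
  exact p_half D X h8 h2 hm hc hε hn

end Pool.Agent.Results.MP_bf54cf_ag.HodgeSplitting
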