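import Pool.Agent.Q57.DS.Fin2

/-!
# One power decides whether the Hodge classes are de Rham-Betti classes

The Hodge conjecture and the period conjecture for cycles would both imply that on a smooth
projective variety over the field of algebraic numbers the Hodge classes are exactly the de
Rham-Betti classes. Let `X` be such a variety, with total Betti number `b`. We prove unconditionally:

* if all Hodge classes on the single power `X^m`, `m = (2 b)^(3 b^2)`, are de Rham-Betti classes,
  then all Hodge classes on all powers of `X` are de Rham-Betti classes;
* the same conclusion holds if for some `ε > 0` and one `n ≥ (2 b)^(3 (2 b)^(3 b^2)) / ε^2` the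
  classes on `X^n` which are Hodge classes and de Rham-Betti classes span a space of dimension
  greater than `1/2 + ε` times the dimension of the space of the Hodge classes.

The theorem is proved for an arbitrary class of smooth projective varieties which is stable under
products, a polarisable Hodge theory `T` on it, and a de Rham structure `D` on `T`.
-/

open CategoryTheory AlgebraicGeometry

universe u

namespace Pool.Agent.Results.MP_bf54cf_ag.OnePower

open Pool.Agent.H914
open Pool.Agent.Y121.AHS (IsHodge)
open Pool.Agent.Q60.HDS (PolHodgeTheory totalBetti power)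
open Pool.Agent.Q57.DS

variable {k : Type u} [Field k] {𝒱 : VarClass k} {ops : CycleOps 𝒱}

/-- **One power decides.** `power X n` is the product of `n` copies of `X`, for `n ≥ 1`. -/
theorem result (T : PolHodgeTheory ops) {F : Subfield ℂ} (D : DRStr T.toHodgeTheory F) (X : 𝒱.Obj)
    (b : ℕ) (hb : totalBetti T.toHodgeTheory X = b) :
    (HodgeAreDRB D (power X ((2 * b) ^ (3 * b ^ 2))) → ∀ n, HodgeAreDRB D (power X n)) ∧
    ∀ (ε : ℝ) (n : ℕ), 0 < ε → (2 * (b : ℝ)) ^ (3 * (2 * b) ^ (3 * b ^ 2)) / ε ^ 2 ≤ n →
      (1 / 2 + ε) * dimP (IsHodge T.toHodgeTheory) (power X n) < dimP (IsHD D) (power X n) →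
      ∀ m, HodgeAreDRB D (power X m) := by
  subst hb
  exact ⟨p_determination D X, fun ε n hε hn h m => p_hodge_half D X hε hn h m⟩

end Pool.Agent.Results.MP_bf54cf_ag.OnePower
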