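import Pool.Agent.Q28.HJ.DRB

/-!
# The period conjecture for cycles on hypersurfaces given by sums of ternary cubic forms

Let `W` be a smooth hypersurface over the field of algebraic numbers, of ARBITRARY dimension, with the
equation

  `f_1(x_1, y_1, z_1) + f_2(x_2, y_2, z_2) + ⋯ + f_r(x_r, y_r, z_r) = 0`,

`f_j` cubic forms in at most three variables, or with the equation `f_1(x_1, y_1) + ⋯ + f_r(x_r, y_r)
= 0`, `f_j` binary quartic forms; one more term `u_j^3`, respectively `u_j^4`, is allowed for every
`j`. We prove `GPC^k(X)` for all `k` and for all products `X = W_1 × ⋯ × W_s × E_1 × ⋯ × E_t` of such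
hypersurfaces and elliptic curves.
-/

open CategoryTheory MonoidalCategory

universe v u w v' u'

namespace Pool.Agent.Results.MP_bf54cf_ag.SumsOfTernaryCubics

open Pool.Agent.Q28.HJ

/-- **De Rham-Betti classes on sums of ternary cubics are algebraic.** Let `T` be the homological
motives over the field of algebraic numbers with their de Rham-Betti realizations (`hT`: known
facts). Let `M` be a motive obtained by tensor products, direct sums, direct summands and Tate
twists from the motives `h^1(E)` of elliptic curves and from the motives `T.mot W` of the smooth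
hypersurfaces `W` which are sums, in disjoint sets of variables, of cubic forms in at most three
variables or of binary quartic forms (`IsEllipticSum`). Then all de Rham-Betti classes of `M` are
algebraic. -/
theorem result {𝓜 : Type u} [Category.{v} 𝓜] [Preadditive 𝓜] [MonoidalCategory 𝓜]
    {𝓓 : Type u'} [Category.{v'} 𝓓] {T : DRBData.{v, u, w, v', u'} 𝓜 𝓓} (hT : T.Facts) (M : 𝓜)
    (hM : GenBy T.L (fun N => T.Ell N ∨ ∃ W, T.IsEllipticSum W ∧ N = T.mot W) M) : T.GPC M :=
  DRBData.final hT M hM

end Pool.Agent.Results.MP_bf54cf_ag.SumsOfTernaryCubics
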