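import Mathlib
import Pool.Agent.Q7.SZ.Sml

/-!
# The centre: all Artin twists are holomorphic if L(E/M, s) has order at most two

`Pool.Agent.H541R3.ART.Irr G` is the set of irreducible complex characters of the finite group `G`,
and `Pool.Agent.Q7.TZ.Sy χ` says that `χ` is symplectic: real valued with Frobenius-Schur indicator
`-1`.

Let `E` be an elliptic curve over a number field `K` and `M/K` a Galois extension with group `G` such
that `E` is automorphic over `M`. (If `K` is totally real or CM, every `E/K` has such an `M`.) By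
solvable descent `E` is automorphic over the fixed field `M ^ H` for every SOLVABLE subgroup `H` of
`G`. `Pool.Agent.Q7.SZ.TwistData G 1` is a family of functions with the known formal properties of
the twisted L-functions of `E` near the central point `s = 1`: `L χ` (for `L(E ⊗ χ, s)`,
`χ ∈ Irr G`), meromorphic and not identically zero (Brauer), and `Lin H ψ` (for
`L(E / M ^ H ⊗ ψ, s)`, `ψ` a linear character of a subgroup `H`) without pole at `1` if `H` is
solvable, which are the products of the `L χ ^ ⟨χ|_H, ψ⟩` (induction). In particular `Lin ⊥ 1`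
stands for `L(E/M, s)` and `Lin H 1` for `L(E / M ^ H, s)`.

`Pool.Agent.Q7.SZ.FunEq A` are the functional equations
`gam χ (s) * L χ (s) = W χ * gam χ (2 - s) * L χ̄ (2 - s)`, where `gam χ` is the exponential and
Gamma factor (analytic and nonzero at `1`) and the root number `W χ` is not zero, and equal to `1`
for symplectic characters (Rohrlich).
-/

set_option autoImplicit false

open Pool.Agent.H541R3.ART Pool.Agent.H302R2 Pool.Agent.H302R3 Pool.Agent.W446.AS
  Pool.Agent.Q7.TZ Pool.Agent.Q7.SZ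

/-- Let `G`, an arbitrary finite group, be the Galois group of `M/K`, and let `L(E/M, s)` have order
`r ≤ 2` at `s = 1`.
(1) `L(E ⊗ χ, s)` is holomorphic at `s = 1` for every irreducible character `χ` of `G`, and so are
`L(E/F, s)` and `L(E/F ⊗ ψ, s)` for all fields `F` between `K` and `M` and all linear characters `ψ`
of the Galois group of `M/F`.
(2) Let `r = 2`. Then exactly the following is possible. Either `L(E ⊗ μ, s)` has a double zero at
`1` for one trivial or quadratic character `μ` and no other `L(E ⊗ χ, s)` vanishes; or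
`L(E ⊗ μ, s)` and `L(E ⊗ ν, s)` have simple zeros for two different linear characters, both trivial
or quadratic or inverse to each other, and no other `L(E ⊗ χ, s)` vanishes; or `L(E ⊗ χ₀, s)` has a
simple zero for one irreducible dihedral character `χ₀` and no other `L(E ⊗ χ, s)` vanishes:
`χ₀` is zero off the kernel of a quadratic character `D` (of a quadratic extension of `K`), on which
`χ₀ = l + l⁻¹` for a linear character `l ≠ l⁻¹` of this kernel. -/
theorem Pool.Agent.Results.MP_bf61d2_nt.CentralTwists.result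
    (G : Type) [Group G] [Finite G] (A : TwistData G 1) (F : FunEq A) (r : ℕ) (hr2 : r ≤ 2)
    (hr : meromorphicOrderAt (A.Lin ⊥ 1) 1 = (r : WithTop ℤ)) :
    (∀ χ ∈ Irr G, 0 ≤ meromorphicOrderAt (A.L χ) 1) ∧
    (∀ (H : Subgroup G) (ψ : H →* ℂˣ), 0 ≤ meromorphicOrderAt (A.Lin H ψ) 1) ∧
    (r = 2 →
      (∃ μ : G →* ℂˣ, μ * μ = 1 ∧
        meromorphicOrderAt (A.L fun g => ((μ g : ℂˣ) : ℂ)) 1 = ((2 : ℤ) : WithTop ℤ) ∧
        ∀ χ ∈ Irr G, χ ≠ (fun g => ((μ g : ℂˣ) : ℂ)) → meromorphicOrderAt (A.L χ) 1 = 0) ∨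
      (∃ μ ν : G →* ℂˣ, μ ≠ ν ∧ ((μ * μ = 1 ∧ ν * ν = 1) ∨ μ * ν = 1) ∧
        meromorphicOrderAt (A.L fun g => ((μ g : ℂˣ) : ℂ)) 1 = ((1 : ℤ) : WithTop ℤ) ∧
        meromorphicOrderAt (A.L fun g => ((ν g : ℂˣ) : ℂ)) 1 = ((1 : ℤ) : WithTop ℤ) ∧
        ∀ χ ∈ Irr G, χ ≠ (fun g => ((μ g : ℂˣ) : ℂ)) → χ ≠ (fun g => ((ν g : ℂˣ) : ℂ)) →
          meromorphicOrderAt (A.L χ) 1 = 0) ∨
      (∃ χ₀ ∈ Irr G, meromorphicOrderAt (A.L χ₀) 1 = ((1 : ℤ) : WithTop ℤ) ∧
        (∀ χ ∈ Irr G, χ ≠ χ₀ → meromorphicOrderAt (A.L χ) 1 = 0) ∧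
        ∃ D : G →* ℂˣ, D ≠ 1 ∧ D * D = 1 ∧ (∀ g, D g ≠ 1 → χ₀ g = 0) ∧
          ∃ l : D.ker →* ℂˣ, l ≠ l⁻¹ ∧
            ∀ x : D.ker, χ₀ x = ((l x : ℂˣ) : ℂ) + (((l x)⁻¹ : ℂˣ) : ℂ))) := by
  classical
  have hord : ∀ χ ∈ Irr G, ∀ k : ℤ, meromorphicOrderAt (A.L χ) 1 = (k : WithTop ℤ) ↔
      A.ord χ = k := by
    intro χ hχ k
    rw [← A.coe_ord hχ]
    exact WithTop.coe_eq_coe
  have hord0 : ∀ χ ∈ Irr G, meromorphicOrderAt (A.L χ) 1 = 0 ↔ A.ord χ = 0 := by
    intro χ hχ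
    exact hord χ hχ 0
  have hev : ∀ χ ∈ Irr G, Sy χ → Even (A.ord χ) := fun χ hχ h => F.ord_even hχ h
  have h1 := A.theta_one hr
  refine ⟨?_, (A.toArtin hr2 hr).hecke, fun h2 => ?_⟩
  · intro χ hχ
    rw [← A.coe_ord hχ]
    have key : 0 ≤ A.ord χ := by
      by_cases h2 : r = 2
      · subst h2
        obtain ⟨D, -, -, h3, -⟩ := central_nonneg A.ord A.isSol (by rw [h1]; simp) F.theta_real hev
        exact h3 χ hχ
      · exact small_nonneg A.ord A.isSol (by omega) h1 χ hχ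
    exact_mod_cast key
  · subst h2
    rcases central_shape A.ord A.isSol (by rw [h1]; simp) F.theta_real hev with
      ⟨μ, e1, e2, e3⟩ | ⟨μ, ν, e0, e1, e2, e3, e4⟩ | ⟨χ₀, hχ₀, e1, e2, e3⟩
    · left
      exact ⟨μ, e1, (hord _ (lin_irr μ) 2).mpr e2, fun χ hχ hne => (hord0 χ hχ).mpr (e3 χ hχ hne)⟩
    · right; left
      exact ⟨μ, ν, e0, e1, (hord _ (lin_irr μ) 1).mpr e2, (hord _ (lin_irr ν) 1).mpr e3,
        fun χ hχ h3 h4 => (hord0 χ hχ).mpr (e4 χ hχ h3 h4)⟩
    · right; right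
      exact ⟨χ₀, hχ₀, (hord χ₀ hχ₀ 1).mpr e1, fun χ hχ hne => (hord0 χ hχ).mpr (e2 χ hχ hne), e3⟩
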