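import Pool.Agent.Q259.AS.FrmEq

/-!
# Prime points on the lines `a p - b q = c` which pass near the dilates of a typical point of the plane

Definitions used from `Pool.Agent.Q259.AS`: `SelfSim μ`: `μ` is a self-similar measure `μ = ∑ p i * (f i)_* μ` of
finitely many maps `f i x = ρ i * x + t i` with `0 < |ρ i| < 1` and `p i > 0`, not all with the same fixed point (that
is, `μ` is not a point mass; overlaps are allowed and the ratios are arbitrary); `FourLp μ`: the Fourier transform of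
`μ` belongs to `L^q` for some `q < ∞` (for instance because it is `O(|t| ^ (-δ))` for some `δ > 0`).
-/

set_option autoImplicit false

namespace Pool.Agent.Results.MP_bf63dc_nt.LinesNearTypicalPoints

open MeasureTheory Filter Pool.Agent.Q259.AS

/-- `a, b, c` are pairwise relatively prime and not all odd, `a, b ≥ 1`. -/
def Ok (a b : ℕ) (c : ℤ) : Prop :=
  1 ≤ a ∧ 1 ≤ b ∧ Nat.Coprime a b ∧ IsCoprime (a : ℤ) c ∧ IsCoprime (b : ℤ) c ∧ (2 : ℤ) ∣ a * b * c

/-- The number of the prime solutions `(p, q)` of `a p - b q = c` with `P < p ≤ P + b N`. -/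
noncomputable def sol (a b : ℕ) (c : ℤ) (P N : ℕ) : ℕ :=
  Set.ncard {x : ℕ × ℕ | x.1.Prime ∧ x.2.Prime ∧ (a : ℤ) * x.1 - b * x.2 = c ∧ P < x.1 ∧ x.1 ≤ P + b * N}

open Classical in
/-- The partial products of the singular series: the factor of a prime `p ≤ z` is `(1 - 1 / p) / (1 - 1 / p) ^ 2` if `p`
divides `a b c`, and `(1 - 2 / p) / (1 - 1 / p) ^ 2` otherwise. -/
noncomputable def sing (a b : ℕ) (c : ℤ) (z : ℕ) : ℝ :=
  ∏ p ∈ (Finset.Icc 1 z).filter Nat.Prime, (1 - (if (p : ℤ) ∣ a * b * c then 1 else 2) / (p : ℝ)) / (1 - 1 / (p : ℝ)) ^ 2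

/-- The partial products of the singular series converge to some `G > 0`, and the number of the prime solutions
`(p, q)` of `a p - b q = c` with `P < p ≤ P + b N` is `G N / log ^ 2 N` up to the factor `1 ± ε`. -/
def Formula (ε : ℝ) (a b : ℕ) (c : ℤ) (P N : ℕ) : Prop :=
  ∃ G : ℝ, 0 < G ∧ Tendsto (sing a b c) atTop (nhds G) ∧
    |(sol a b c P N : ℝ) - G * (N / Real.log N ^ 2)| ≤ ε * (G * (N / Real.log N ^ 2))

/-- Let `μ 0` and `μ 1` be probability measures on the line each of which is self-similar and not a point mass, or has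
a Fourier transform in some `L^q`, `q < ∞`. Let `r 1, r 2, ...` be arbitrary positive real numbers with
`log (r k) ≥ k ^ ρ` for large `k`, where `ρ > 0`, and let `Y k` be arbitrary sets of at most `k ^ T` points `y` of the
plane with `|y i| ≤ B r k`. Then almost every point `x` of the plane, with respect to the product of `μ 0` and `μ 1`,
has the following property. For all `ε > 0` and `A, Q`, for all large `k` and all `y` in `Y k`: for all
`1 ≤ a, b ≤ Q` and all integers `c` which satisfy the hypotheses of the question and for which the line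
`a X - b Y = c` passes near the point `r k * x + y`, in the sense that
`|c - (a * (r k * x 0 + y 0) - b * (r k * x 1 + y 1))| ≤ log (r k) ^ A`, the equation `a p - b q = c` has the predicted
number of prime solutions with `P < p ≤ P + b N`, up to a relative error of `ε`, for all `0 ≤ P ≤ Q r k` with
`c ≤ a P` (so that `q > 0`) and all `r k / Q ≤ N ≤ Q r k`. -/
theorem result (μ : Fin 2 → Measure ℝ) [∀ i, IsProbabilityMeasure (μ i)]
    (hμ : ∀ i, SelfSim (μ i) ∨ FourLp (μ i)) (r : ℕ → ℝ) (ρ : ℝ) (hρ : 0 < ρ)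
    (hr : ∀ᶠ k : ℕ in atTop, 0 < r k ∧ (k : ℝ) ^ ρ ≤ Real.log (r k)) (B T : ℕ) (Y : ℕ → Finset (Fin 2 → ℝ))
    (hY : ∀ᶠ k : ℕ in atTop, (Y k).card ≤ k ^ T ∧ ∀ y ∈ Y k, ∀ i, |y i| ≤ B * r k) :
    ∀ᵐ x ∂(Measure.pi μ), ∀ ε : ℝ, 0 < ε → ∀ A Q : ℕ, ∀ᶠ k : ℕ in atTop, ∀ y ∈ Y k, ∀ a b : ℕ, ∀ c : ℤ,
      Ok a b c → a ≤ Q → b ≤ Q →
      |(c : ℝ) - (a * (r k * x 0 + y 0) - b * (r k * x 1 + y 1))| ≤ Real.log (r k) ^ A →
      ∀ P N : ℕ, (P : ℝ) ≤ Q * r k → (N : ℝ) ≤ Q * r k → r k ≤ Q * N → c ≤ a * P → Formula ε a b c P N := by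
  filter_upwards [as_forms 2 B T (by norm_num) μ hμ r ρ hρ hr Y hY] with x hx ε hε A Q
  obtain ⟨m, hm⟩ := exists_nat_one_div_lt hε
  obtain ⟨Q', hQ'⟩ := exists_nat_ge (2 * (Q : ℝ) + |x 0| + B + 1)
  filter_upwards [hx m (A + 1) Q', sizes_ev r ρ hρ hr (Q + 1), hY] with k hk hsz hYk y hy a b c hok haQ hbQ hc P N hP hN1 hN2 hcP
  obtain ⟨hl1, hl2, hrk⟩ := hsz
  have hr0 : 0 < r k := by linarith
  have hQQ : (Q : ℝ) ≤ Q' := by
    have h1 : (0 : ℝ) ≤ Q := Nat.cast_nonneg _
    have h2 : (0 : ℝ) ≤ B := Nat.cast_nonneg _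
    have h3 := abs_nonneg (x 0)
    linarith
  have hQQn : Q ≤ Q' := by exact_mod_cast hQQ
  have ha1 := hok.1
  have hb1 := hok.2.1
  obtain ⟨u, v, huv, hu⟩ := exists_uv a b ha1 hb1 hok.2.2.1 c (r k * x 0 + y 0)
  have har : (1 : ℝ) ≤ a := by exact_mod_cast ha1
  have hbr : (1 : ℝ) ≤ b := by exact_mod_cast hb1
  have haQr : (a : ℝ) ≤ Q := by exact_mod_cast haQ
  have hbQr : (b : ℝ) ≤ Q := by exact_mod_cast hbQ
  have hlA : 1 ≤ Real.log (r k) ^ A := one_le_pow₀ hl2
  have hlA1 : (Q + 1) * Real.log (r k) ^ A ≤ Real.log (r k) ^ (A + 1) := by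
    rw [pow_succ, mul_comm]
    exact mul_le_mul_of_nonneg_left hl1 (by linarith)
  have hQ0 : (0 : ℝ) ≤ Q := Nat.cast_nonneg _
  have hbz : (0 : ℤ) < b := by exact_mod_cast hb1
  have haz : (0 : ℤ) < a := by exact_mod_cast ha1
  have huvr : (a : ℝ) * u - b * v = c := by exact_mod_cast huv
  have hnear0 : |(u : ℝ) - (r k * x 0 + y 0)| ≤ Real.log (r k) ^ (A + 1) := by nlinarith
  have hnear1 : |(v : ℝ) - (r k * x 1 + y 1)| ≤ Real.log (r k) ^ (A + 1) := by
    have e1 : (b : ℝ) * ((v : ℝ) - (r k * x 1 + y 1)) = a * ((u : ℝ) - (r k * x 0 + y 0)) -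
        (c - (a * (r k * x 0 + y 0) - b * (r k * x 1 + y 1))) := by rw [← huvr]; ring
    have e2 : (b : ℝ) * |(v : ℝ) - (r k * x 1 + y 1)| ≤ a * b + Real.log (r k) ^ A := by
      have e3 : |(b : ℝ) * ((v : ℝ) - (r k * x 1 + y 1))| ≤ a * b + Real.log (r k) ^ A := by
        rw [e1]
        refine (abs_sub _ _).trans ?_
        rw [abs_mul, abs_of_nonneg (by linarith : (0 : ℝ) ≤ a)]
        exact add_le_add (mul_le_mul_of_nonneg_left hu (by linarith)) hc
      rwa [abs_mul, abs_of_nonneg (by linarith : (0 : ℝ) ≤ b)] at e3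
    have e4 : (b : ℝ) * |(v : ℝ) - (r k * x 1 + y 1)| ≤ b * (Q + Real.log (r k) ^ A) := by
      have e5 : Real.log (r k) ^ A ≤ b * Real.log (r k) ^ A := le_mul_of_one_le_left (by linarith) hbr
      have e6 : (a : ℝ) * b ≤ b * Q := by nlinarith
      linarith
    have e7 := le_of_mul_le_mul_left e4 (by linarith)
    nlinarith
  obtain ⟨M, hM⟩ : ∃ M : ℤ, M = ((P : ℤ) - u) / b := ⟨_, rfl⟩
  have hM1 : b * M ≤ P - u := by rw [hM]; exact Int.mul_ediv_self_le hbz.ne'
  have hM2 : P - u < b * (M + 1) := by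
    have h1 := Int.lt_ediv_add_one_mul_self ((P : ℤ) - u) hbz
    rw [← hM] at h1
    linarith
  have hy0 := (hYk.2 y hy 0)
  have hu1 : |(u : ℝ)| ≤ Q + (|x 0| + B) * r k := by
    have h1 : (u : ℝ) = (u - (r k * x 0 + y 0)) + (r k * x 0 + y 0) := by ring
    rw [h1]
    refine (abs_add_le _ _).trans ?_
    have h2 : |r k * x 0 + y 0| ≤ r k * |x 0| + B * r k := by
      refine (abs_add_le _ _).trans ?_
      rw [abs_mul, abs_of_pos hr0]
      linarith
    linarith
  have hMabs : |(M : ℝ)| ≤ Q' * r k := by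
    have h1r : (b : ℝ) * M ≤ P - u := by exact_mod_cast hM1
    have h2r : (P : ℝ) - u < b * (M + 1) := by exact_mod_cast hM2
    have h3 : |(P : ℝ) - u| ≤ Q * r k + (Q + (|x 0| + B) * r k) := by
      refine (abs_sub _ _).trans ?_
      rw [abs_of_nonneg (Nat.cast_nonneg P : (0 : ℝ) ≤ P)]
      exact add_le_add hP hu1
    obtain ⟨h4, h5⟩ := abs_le.1 h3
    have h6 : (Q : ℝ) ≤ Q * r k := le_mul_of_one_le_right hQ0 hrk.le
    have h7 : (2 * (Q : ℝ) + |x 0| + B + 1) * r k ≤ Q' * r k := mul_le_mul_of_nonneg_right hQ' hr0.le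
    have h8 : (0 : ℝ) ≤ (|x 0| + B) * r k := by positivity
    rw [abs_le]
    constructor
    · by_contra hcon
      push Not at hcon
      have h9 : (b : ℝ) * (M + 1) ≤ 1 * (M + 1) := by
        apply mul_le_mul_of_nonpos_right hbr
        nlinarith
      nlinarith
    · by_contra hcon
      push Not at hcon
      have h9 : 1 * (M : ℝ) ≤ b * M := by
        apply mul_le_mul_of_nonneg_right hbr
        nlinarith
      nlinarith
  have hok' : EqOk a b c := hok
  obtain ⟨G, hG0, hG1, hG2⟩ := hk y hy (eqH u v) (by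
      intro i
      fin_cases i
      · exact hnear0
      · exact hnear1) (eqC a b) (by
      intro i
      fin_cases i
      · refine ⟨hbz.ne', ?_⟩
        show |(b : ℤ)| ≤ Q'
        rw [abs_of_pos hbz]
        exact_mod_cast hbQ.trans hQQn
      · refine ⟨haz.ne', ?_⟩
        show |(a : ℤ)| ≤ Q'
        rw [abs_of_pos haz]
        exact_mod_cast haQ.trans hQQn) (eq_adm a b c hok' u v huv) M N hMabs
    (hN1.trans (mul_le_mul_of_nonneg_right hQQ hr0.le))
    (hN2.trans (mul_le_mul_of_nonneg_right hQQ (Nat.cast_nonneg _))) (by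
      have hN0 : 1 ≤ N := by
        by_contra hcon
        have h1 : N = 0 := by omega
        rw [h1] at hN2
        simp only [Nat.cast_zero, mul_zero] at hN2
        linarith
      have hN0z : (1 : ℤ) ≤ N := by exact_mod_cast hN0
      -- positivity at `M + 1`
      have q1 : (P : ℤ) < b * (M + 1) + u := by linarith
      have q0 : (0 : ℤ) ≤ P := Int.natCast_nonneg _
      have q2 : 0 < (a : ℤ) * (M + 1) + v := by
        have e1 : (b : ℤ) * (a * (M + 1) + v) = a * (b * (M + 1) + u) - c := by rw [← huv]; ring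
        have e2 : (a : ℤ) * P < a * (b * (M + 1) + u) := mul_lt_mul_of_pos_left q1 haz
        have e3 : (b : ℤ) * 0 < b * (a * (M + 1) + v) := by rw [e1, mul_zero]; linarith
        exact lt_of_mul_lt_mul_left e3 hbz.le
      have q3 : (b : ℤ) * (M + 1) ≤ b * (M + N) := mul_le_mul_of_nonneg_left (by linarith) hbz.le
      have q4 : (a : ℤ) * (M + 1) ≤ a * (M + N) := mul_le_mul_of_nonneg_left (by linarith) haz.le
      intro i
      fin_cases i
      · show 1 ≤ (b : ℤ) + (u + b * M) ∧ 1 ≤ (b : ℤ) * N + (u + b * M)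
        constructor
        · linarith
        · linarith
      · show 1 ≤ (a : ℤ) + (v + a * M) ∧ 1 ≤ (a : ℤ) * N + (v + a * M)
        constructor
        · linarith
        · linarith)
  have hsing : Pool.Agent.Y820.LF.singF (eqC a b) (eqH u v) = sing a b c := by
    classical
    funext z
    unfold Pool.Agent.Y820.LF.singF sing
    apply Finset.prod_congr rfl
    intro p hp
    rw [eq_nu a b c hok' u v huv p (Finset.mem_filter.1 hp).2]
    congr 3
    split_ifs <;> norm_num
  have hsol : (sol a b c P N : ℝ) = cntW (eqC a b) (eqH u v) M N := by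
    rw [hM, ← eq_sol a b c hok' u v huv P N]
    rfl
  refine ⟨G, hG0, hsing ▸ hG1, ?_⟩
  rw [hsol]
  refine hG2.trans ?_
  apply mul_le_mul_of_nonneg_right hm.le
  have : 0 ≤ Real.log (N : ℝ) := Real.log_natCast_nonneg N
  positivity

end Pool.Agent.Results.MP_bf63dc_nt.LinesNearTypicalPoints
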