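import Pool.Agent.Q236.GW.PairU

set_option autoImplicit false

/-!
# The equation `a p - b q = c`: the Poisson law for almost prime solutions, uniformly in `a`, `b`, `c`

Let `a, b ≥ 1` and `c ≠ 0` be pairwise coprime and not all odd, and let `(p₀, q₀)` be a solution in integers
of `a p - b q = c`; all solutions are `(p₀ + b t, q₀ + a t)`. Call `t` good if no prime `p ≤ X ^ (1 / r)` divides
`(p₀ + b t) (q₀ + a t)`: both numbers are almost primes, with a bounded number of prime factors. The density `V`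
of the good `t` is `(r exp (-γ)) ^ 2 𝔖(|a b c|) / log ^ 2 X`, with the singular series of the problem. In every
interval `(Z, Z + Y]`, `Y ≥ X ^ θ`, the distances of the good `t` to their `k`-th predecessors, multiplied by
`V`, have the law of the `k`-th point of a Poisson process of intensity one, up to `ε`, uniformly in ALL
equations with `a`, `b`, `|p₀|`, `|q₀|` up to an arbitrary power of `X` (if `a = b = 1`, for `|c| > X ^ η`).
-/

namespace Pool.Agent.Results.MP_bf63dc_nt.PoissonSolutions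

open Finset Filter

/-- The hypotheses of the question (positive `a`, `b`), and a solution in integers. -/
structure Equation (a b c p₀ q₀ : ℤ) : Prop where
  apos : 0 < a
  bpos : 0 < b
  cne : c ≠ 0
  ab : IsCoprime a b
  ac : IsCoprime a c
  bc : IsCoprime b c
  notAllOdd : ¬ (Odd a ∧ Odd b ∧ Odd c)
  eq : a * p₀ - b * q₀ = c

/-- No prime `p ≤ X ^ (1 / r)` divides `(p₀ + b t) (q₀ + a t)`. -/
def Good (X : ℕ) (a b p₀ q₀ : ℤ) (r t : ℕ) : Prop :=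
  ∀ p : ℕ, p.Prime → (p : ℝ) ≤ (X : ℝ) ^ (1 / (r : ℝ)) → ¬ (p : ℤ) ∣ (p₀ + b * t) * (q₀ + a * t)

/-- The density of the good numbers: the product of `1 - ρ(p) / p` over the primes `p ≤ X ^ (1 / r)`, where
`ρ(p) = 1` if `p ∣ n` and `ρ(p) = 2` otherwise; `n = |a b c|`. -/
noncomputable def V (X n r : ℕ) : ℝ :=
  ∏ p ∈ (Finset.Icc 1 ⌊(X : ℝ) ^ (1 / (r : ℝ))⌋₊).filter Nat.Prime,
    (1 - (if p ∣ n then (1 : ℝ) else 2) / p)

/-- The twin prime constant: the infimum (the limit) of the decreasing products of `1 - 1 / (p - 1) ^ 2`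
over the primes `3 ≤ p ≤ z`. -/
noncomputable def C₂ : ℝ := ⨅ z : ℕ, ∏ p ∈ (Finset.Icc 3 z).filter Nat.Prime, (1 - 1 / ((p : ℝ) - 1) ^ 2)

/-- The singular series `2 C₂ ∏_{p ∣ n, p > 2} (p - 1) / (p - 2)`. -/
noncomputable def 𝔖 (n : ℕ) : ℝ :=
  2 * C₂ * ∏ p ∈ n.primeFactors.filter (fun p => 2 < p), ((p : ℝ) - 1) / ((p : ℝ) - 2)

open Classical in
/-- The number of the good `t` in `(Z, Z + Y]` with fewer than `k` good numbers in `[t - T, t)`. -/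
noncomputable def G (X : ℕ) (a b p₀ q₀ : ℤ) (r k T Z Y : ℕ) : ℕ :=
  ((Finset.Ioc Z (Z + Y)).filter (fun t => Good X a b p₀ q₀ r t ∧
    ((Finset.Ico (t - T) t).filter (fun l => Good X a b p₀ q₀ r l)).card < k)).card

open Pool.Agent.W123.RP Pool.Agent.H373R2.T7 Pool.Agent.W123.RU Pool.Agent.TH464.PO
open Pool.Agent.Y879.AP Pool.Agent.Y879.GL Pool.Agent.Q236.GW
open Pool.Agent.W123.RU.Poly (Q)

lemma V_eq (X n r : ℕ) : V X n r = VG n ⌊(X : ℝ) ^ (1 / (r : ℝ))⌋₊ := (VG_eq n _).symm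

lemma S_eq (n : ℕ) : 𝔖 n = SG n := rfl

lemma good_iff (X : ℕ) (a b p₀ q₀ : ℤ) (r t : ℕ) :
    Sf (Q (pl a b p₀ q₀)) ⌊(X : ℝ) ^ (1 / (r : ℝ))⌋₊ t ↔ Good X a b p₀ q₀ r t := by
  have h0 : (0 : ℝ) ≤ (X : ℝ) ^ (1 / (r : ℝ)) := by positivity
  constructor
  · intro h q hq hqn hd
    exact h q (mem_pz.2 ⟨Nat.le_floor hqn, hq⟩) ((pl_Q a b p₀ q₀ q t hq).2 hd)
  · intro h q hq hd
    have hqq := (mem_pz.1 hq).2
    exact h q hqq (mem_pz' h0 hq) ((pl_Q a b p₀ q₀ q t hqq).1 hd)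

lemma toEqn {a b c p₀ q₀ : ℤ} (h : Equation a b c p₀ q₀) : Eqn a b c p₀ q₀ where
  apos := h.apos
  bpos := h.bpos
  cne := h.cne
  ab := h.ab
  ac := h.ac
  bc := h.bc
  eq := h.eq
  ev := by
    by_contra hcon
    rw [Int.not_even_iff_odd, Int.odd_mul, Int.odd_mul] at hcon
    exact h.notAllOdd ⟨hcon.1.1, hcon.1.2, hcon.2⟩

lemma few (X r K m : ℕ) (hr : 1 ≤ r) (hX : 2 ^ r ≤ X) (hm : 0 < m) (hmX : m ≤ X ^ K)
    (h : ∀ p : ℕ, p.Prime → p ∣ m → (X : ℝ) ^ (1 / (r : ℝ)) < (p : ℝ)) :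
    m.primeFactorsList.length ≤ K * r := by
  have hr0 : (r : ℝ) ≠ 0 := by exact_mod_cast (by omega : r ≠ 0)
  have hX1 : (1 : ℝ) ≤ X := by
    have : 1 ≤ 2 ^ r := Nat.one_le_two_pow
    exact_mod_cast this.trans hX
  have hz1 : 1 ≤ (X : ℝ) ^ (1 / (r : ℝ)) := Real.one_le_rpow hX1 (by positivity)
  apply length_le m (K * r) (by omega) _ h _ hz1
  have e : ((X : ℝ) ^ (1 / (r : ℝ))) ^ r = X := by
    rw [← Real.rpow_natCast, ← Real.rpow_mul (by linarith), one_div, inv_mul_cancel₀ hr0, Real.rpow_one]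
  have hmX' : (m : ℝ) ≤ (X : ℝ) ^ K := by exact_mod_cast hmX
  rw [pow_succ, mul_comm K r, pow_mul, e]
  have h0 : (0 : ℝ) ≤ (X : ℝ) ^ K := by positivity
  nlinarith

/-- **The equation `a p - b q = c`: the Poisson law, uniformly in `a`, `b`, `c`.** -/
theorem result :
    (∀ a b c p₀ q₀ : ℤ, Equation a b c p₀ q₀ →
      ∀ m n : ℤ, a * m - b * n = c ↔ ∃ t : ℤ, m = p₀ + b * t ∧ n = q₀ + a * t) ∧
    (∀ (X r K : ℕ) (a b p₀ q₀ : ℤ) (t : ℕ), 1 ≤ r → 2 ^ r ≤ X → Good X a b p₀ q₀ r t →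
      (0 < (p₀ + b * t).natAbs → (p₀ + b * t).natAbs ≤ X ^ K →
        (p₀ + b * t).natAbs.primeFactorsList.length ≤ K * r) ∧
      (0 < (q₀ + a * t).natAbs → (q₀ + a * t).natAbs ≤ X ^ K →
        (q₀ + a * t).natAbs.primeFactorsList.length ≤ K * r)) ∧
    (∀ A : ℝ, ∀ r : ℕ, 2 ≤ r → ∀ δ : ℝ, 0 < δ → ∀ᶠ X : ℕ in atTop, ∀ n : ℕ, Even n → 1 ≤ n →
      (n : ℝ) ≤ (X : ℝ) ^ A →
      |V X n r * Real.log X ^ 2 - (r * Real.exp (-Real.eulerMascheroniConstant)) ^ 2 * 𝔖 n| ≤ δ * 𝔖 n) ∧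
    ∀ A η θ : ℝ, 0 < A → 0 < η → 0 < θ → ∀ (k₀ : ℕ) (x₀ ε : ℝ), 0 < ε → ∃ r₀ : ℕ, 2 ≤ r₀ ∧
      ∀ r : ℕ, r₀ ≤ r → ∀ᶠ X : ℕ in atTop, ∀ a b c p₀ q₀ : ℤ, Equation a b c p₀ q₀ →
        (a : ℝ) ≤ (X : ℝ) ^ A → (b : ℝ) ≤ (X : ℝ) ^ A →
        |(p₀ : ℝ)| ≤ (X : ℝ) ^ A → |(q₀ : ℝ)| ≤ (X : ℝ) ^ A →
        (a = 1 → b = 1 → (X : ℝ) ^ η < |(c : ℝ)|) →
        ∀ Z Y : ℕ, (X : ℝ) ^ θ ≤ Y →
          ∀ k T : ℕ, (k ≤ k₀ ∨ T * V X (a * b * c).natAbs r ≤ x₀) →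
            |(G X a b p₀ q₀ r k T Z Y : ℝ) - Y * V X (a * b * c).natAbs r *
                ∑ j ∈ Finset.range k, Real.exp (-(T * V X (a * b * c).natAbs r)) *
                  (T * V X (a * b * c).natAbs r) ^ j / (j.factorial : ℝ)| ≤
              ε * (Y * V X (a * b * c).natAbs r) := by
  refine ⟨?_, ?_, ?_, ?_⟩
  · intro a b c p₀ q₀ h m n
    constructor
    · intro hmn
      have h1 : a * (m - p₀) = b * (n - q₀) := by
        have := h.eq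
        linear_combination hmn - this
      have h2 : b ∣ m - p₀ := h.ab.symm.dvd_of_dvd_mul_left (Dvd.intro _ h1.symm)
      obtain ⟨t, ht⟩ := h2
      refine ⟨t, by linarith, ?_⟩
      rw [ht] at h1
      have h3 : b * (n - q₀) = b * (a * t) := by rw [← h1]; ring
      have h4 := mul_left_cancel₀ h.bpos.ne' h3
      linarith
    · rintro ⟨t, rfl, rfl⟩
      have := h.eq
      linear_combination this
  · intro X r K a b p₀ q₀ t hr hX hG
    refine ⟨fun h1 h2 => few X r K _ hr hX h1 h2 (fun p hp hd => ?_),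
      fun h1 h2 => few X r K _ hr hX h1 h2 (fun p hp hd => ?_)⟩
    · by_contra hcon
      rw [not_lt] at hcon
      exact hG p hp hcon ((Int.natCast_dvd.2 hd).mul_right _)
    · by_contra hcon
      rw [not_lt] at hcon
      exact hG p hp hcon ((Int.natCast_dvd.2 hd).mul_left _)
  · intro A r hr δ hδ
    filter_upwards [VG_asymU A r hr δ hδ] with X hX n hn h1 h2
    rw [V_eq, S_eq]
    exact hX n hn h1 h2
  · intro A η θ hA hη hθ k₀ x₀ ε hε
    obtain ⟨r₀, hr₀, h⟩ := gap_eqn A η θ hA hη hθ k₀ x₀ ε hε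
    refine ⟨r₀, hr₀, ?_⟩
    intro r hr
    filter_upwards [h r hr] with X hX
    intro a b c p₀ q₀ he haX hbX hpX hqX hcX Z Y hY k T hkT
    rw [V_eq] at hkT ⊢
    have hmain := hX a b c p₀ q₀ (toEqn he) haX hbX hpX hqX hcX Z Y hY k T hkT
    have e3 : Pk (Sf (Q (pl a b p₀ q₀)) ⌊(X : ℝ) ^ (1 / (r : ℝ))⌋₊) k T Z Y = G X a b p₀ q₀ r k T Z Y := by
      have e2 : Sf (Q (pl a b p₀ q₀)) ⌊(X : ℝ) ^ (1 / (r : ℝ))⌋₊ = Good X a b p₀ q₀ r := by
        funext m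
        exact propext (good_iff X a b p₀ q₀ r m)
      unfold Pk G
      rw [e2]
    rw [e3] at hmain
    unfold Ck pw at hmain
    exact hmain

end Pool.Agent.Results.MP_bf63dc_nt.PoissonSolutions
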