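import Pool.Agent.Q236.LG.ParL

set_option autoImplicit false

/-!
# Prime solutions of `α p - β q = n` in short pieces of polynomial sequences, for almost all `n`

Let `P_i = F_i + c_{i0} + c_{i1} x + … + c_{i,d-1} x^(d-1)`, `i = 1, …, m`, with ARBITRARY `F_i ∈ ℤ[x]` of bounded degree
and `m ≤ log^E X`, where the coefficients `c_{ij}` run independently through the integers of intervals of length at
least `X / log^C X`, and let `n` run through the integers of an interval of length at least `X / log^C X`.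

If the number `d` of the random coefficients is large enough in terms of `M, K, B, E, η`, then for all but a proportion
`log^(-B) X` of the families `(P_1, …, P_m)`, for all but a proportion `log^(-B) X` of the integers `n`, the following
holds AT THE SAME TIME for all sets `J` of at most `M` members of the family, all systems of equations
`α_i p_i - β_i q_i = n`, `i ∈ J`, with `1 ≤ α_i, β_i ≤ K`, all the solutions `(u_i, v_i)` of these equations with
`0 ≤ u_i < β_i`, all progressions `b + q k` and all intervals `(a, a + h]` with `b + q (a + h) ≤ log^E X` and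
`h ≥ log^(2 |J| + η) X`:

* the number of the `k` in `(a, a + h]` such that all the numbers `p_i = u_i + β_i P_i(b + q k)` and
  `q_i = v_i + α_i P_i(b + q k)`, `i ∈ J`, are PRIME is `(1 + O*(ε)) 𝔖 h / log^(2 |J|) X`, with the singular series `𝔖`
  of this system;
* without a fixed prime divisor there is such a `k`, and the `(p_i, q_i)` are prime solutions of the equations.
-/

namespace Pool.Agent.Results.MP_bf63dc_nt.PolynomialSolutions

open Finset Filter

/-- The value at `k` of `F + c_0 + c_1 x + … + c_{d-1} x^(d-1)`. -/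
noncomputable def value {d : ℕ} (F : Polynomial ℤ) (c : Fin d → ℤ) (k : ℕ) : ℤ :=
  F.eval (k : ℤ) + ∑ j, c j * (k : ℤ) ^ (j : ℕ)

/-- The arrays of coefficients `Z i j < c i j ≤ Z i j + Y i j`. -/
noncomputable def Arrays {m d : ℕ} (Z : Fin m → Fin d → ℤ) (Y : Fin m → Fin d → ℕ) : Finset (Fin m → Fin d → ℤ) :=
  Fintype.piFinset fun i => Fintype.piFinset fun j => Ioc (Z i j) (Z i j + Y i j)

/-- Coefficients `1 ≤ α_i, β_i ≤ K` and solutions `(u_i, v_i)`, `0 ≤ u_i < β_i`, of the equations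
`α_i u_i - β_i v_i = n`, for `i ∈ J`. -/
def Equations (K : ℕ) {m : ℕ} (J : Finset (Fin m)) (α β : Fin m → ℕ) (u v : Fin m → ℤ) (n : ℤ) : Prop :=
  ∀ i ∈ J, 1 ≤ α i ∧ α i ≤ K ∧ 1 ≤ β i ∧ β i ≤ K ∧ 0 ≤ u i ∧ u i < β i ∧ α i * u i - β i * v i = n

open Classical in
/-- The number of the `k` with `a < k ≤ a + h` such that all the `u_i + β_i P_i(b + q k)` and all the
`v_i + α_i P_i(b + q k)`, `i ∈ J`, are primes. -/
noncomputable def primePoints {m d : ℕ} (F : Fin m → Polynomial ℤ) (c : Fin m → Fin d → ℤ) (J : Finset (Fin m))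
    (α β : Fin m → ℕ) (u v : Fin m → ℤ) (b q a h : ℕ) : ℕ :=
  ((Ioc a (a + h)).filter (fun k => ∀ i ∈ J, (u i + β i * value (F i) (c i) (b + q * k)).toNat.Prime ∧
    (v i + α i * value (F i) (c i) (b + q * k)).toNat.Prime)).card

open Classical in
/-- The number of the residues `k` modulo `p` such that `p` divides one of these numbers. -/
noncomputable def omega {m d : ℕ} (F : Fin m → Polynomial ℤ) (c : Fin m → Fin d → ℤ) (J : Finset (Fin m))
    (α β : Fin m → ℕ) (u v : Fin m → ℤ) (b q p : ℕ) : ℕ :=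
  ((range p).filter (fun k => ∃ i ∈ J, (p : ℤ) ∣ u i + β i * value (F i) (c i) (b + q * k) ∨
    (p : ℤ) ∣ v i + α i * value (F i) (c i) (b + q * k))).card

/-- The singular series: the product of `(1 - ω(p) / p) / (1 - 1 / p)^(2 |J|)` over the primes `p ≤ z`. -/
noncomputable def singular {m d : ℕ} (F : Fin m → Polynomial ℤ) (c : Fin m → Fin d → ℤ) (J : Finset (Fin m))
    (α β : Fin m → ℕ) (u v : Fin m → ℤ) (b q z : ℕ) : ℝ :=
  ∏ p ∈ (Icc 1 z).filter Nat.Prime, ((1 - (omega F c J α β u v b q p : ℝ) / p) / (1 - 1 / (p : ℝ)) ^ (2 * J.card))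

/-- For `1 ≤ k ≤ log^E X`, all arrays and all `n` with `z' < n ≤ z' + y'` the numbers `u_i + β_i P_i(k)` and
`v + α_i P_i(k)` with `α_i u_i - β_i v = n`, `i ∈ J`, are between `X / log^C X` and `X log^C X`. -/
def Sizes (C E X : ℕ) {m d : ℕ} (F : Fin m → Polynomial ℤ) (Z : Fin m → Fin d → ℤ) (Y : Fin m → Fin d → ℕ) (z' : ℤ) (y' : ℕ)
    (J : Finset (Fin m)) (α β : Fin m → ℕ) (u : Fin m → ℤ) : Prop :=
  ∀ c ∈ Arrays Z Y, ∀ n ∈ Ioc z' (z' + y'), ∀ k : ℕ, 1 ≤ k → (k : ℝ) ≤ Real.log X ^ E →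
    ∀ i ∈ J, ∀ v : ℤ, α i * u i - β i * v = n →
      ((X : ℝ) / Real.log X ^ C ≤ (u i + β i * value (F i) (c i) k : ℤ) ∧
        ((u i + β i * value (F i) (c i) k : ℤ) : ℝ) ≤ X * Real.log X ^ C) ∧
      (X : ℝ) / Real.log X ^ C ≤ (v + α i * value (F i) (c i) k : ℤ) ∧
        ((v + α i * value (F i) (c i) k : ℤ) : ℝ) ≤ X * Real.log X ^ C

/-- The asymptotic formula and the existence of prime solutions for the constant `n`, all systems of `|J| ≤ M` equations,
all intervals of length at least `log^(2 |J| + η) X` and all progressions below `log^E X`. -/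
def Regular (M K C E : ℕ) (η ε : ℝ) (z X : ℕ) {m d : ℕ} (F : Fin m → Polynomial ℤ) (Z : Fin m → Fin d → ℤ)
    (Y : Fin m → Fin d → ℕ) (z' : ℤ) (y' : ℕ) (c : Fin m → Fin d → ℤ) (n : ℤ) : Prop :=
  ∀ (J : Finset (Fin m)) (α β : Fin m → ℕ) (u v : Fin m → ℤ), J.Nonempty → J.card ≤ M → Equations K J α β u v n →
    Sizes C E X F Z Y z' y' J α β u → ∀ b q a h : ℕ, 1 ≤ q →
    ((b + q * (a + h) : ℕ) : ℝ) ≤ Real.log X ^ E → Real.log X ^ (((2 * J.card : ℕ) : ℝ) + η) ≤ h →
    -- the number of the prime points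
    |(primePoints F c J α β u v b q a h : ℝ) - singular F c J α β u v b q z * (h / Real.log X ^ (2 * J.card))| ≤
      ε * (singular F c J α β u v b q z * (h / Real.log X ^ (2 * J.card))) ∧
    -- without a fixed prime divisor there are prime solutions
    ((∀ p : ℕ, p.Prime → p ≤ z → ∃ k : ℕ, ∀ i ∈ J, ¬ (p : ℤ) ∣ u i + β i * value (F i) (c i) (b + q * k) ∧
        ¬ (p : ℤ) ∣ v i + α i * value (F i) (c i) (b + q * k)) →
      ∃ k : ℕ, a < k ∧ k ≤ a + h ∧ ∀ i ∈ J, ∃ p₁ p₂ : ℕ, p₁.Prime ∧ p₂.Prime ∧ (α i * p₁ : ℤ) - β i * p₂ = n ∧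
        (p₁ : ℤ) = u i + β i * value (F i) (c i) (b + q * k) ∧ (p₂ : ℤ) = v i + α i * value (F i) (c i) (b + q * k))

open Pool.Agent.Q236.RP Pool.Agent.Q236.LG Pool.Agent.Q236.CG
open Pool.Agent.Q236.MR (pv)

/-- the linear part of the forms -/
noncomputable def sm {m : ℕ} (J : Finset (Fin m)) (α β : Fin m → ℕ) : Fin (J.card + J.card) → Fin m → ℤ :=
  Fin.append (fun t => Pi.single (J.orderEmbOfFin rfl t) (β (J.orderEmbOfFin rfl t) : ℤ))
    (fun t => Pi.single (J.orderEmbOfFin rfl t) (α (J.orderEmbOfFin rfl t) : ℤ))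

/-- the coefficients of the parameter -/
noncomputable def gm {m : ℕ} (Λ : ℕ) (J : Finset (Fin m)) (β : Fin m → ℕ) : Fin (J.card + J.card) → Fin 1 → ℤ :=
  Fin.append (fun _ _ => 0) (fun t _ => -((Λ / β (J.orderEmbOfFin rfl t) : ℕ) : ℤ))

/-- the constant terms -/
noncomputable def rm {m : ℕ} (c0 : ℤ) (J : Finset (Fin m)) (α β : Fin m → ℕ) (u : Fin m → ℤ) : Fin (J.card + J.card) → ℤ :=
  Fin.append (fun t => u (J.orderEmbOfFin rfl t))
    (fun t => (α (J.orderEmbOfFin rfl t) * u (J.orderEmbOfFin rfl t) - c0) / β (J.orderEmbOfFin rfl t))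

lemma sum_single {m : ℕ} (i : Fin m) (x : ℤ) (v : Fin m → ℤ) : ∑ j, (Pi.single i x : Fin m → ℤ) j * v j = x * v i := by
  rw [Finset.sum_eq_single i]
  · rw [Pi.single_eq_same]
  · intro j _ hj
    rw [Pi.single_eq_of_ne hj, zero_mul]
  · intro h
    exact absurd (mem_univ i) h

lemma fvl_left {m d : ℕ} (F : Fin m → Polynomial ℤ) (c : Fin m → Fin d → ℤ) (x : ℤ) (Λ : ℕ) (c0 : ℤ) (J : Finset (Fin m))
    (α β : Fin m → ℕ) (u : Fin m → ℤ) (k : ℕ) (t : Fin J.card) :
    fvl F c (fun _ => x) (sm J α β) (gm Λ J β) (rm c0 J α β u) k (Fin.castAdd J.card t) =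
      u (J.orderEmbOfFin rfl t) + β (J.orderEmbOfFin rfl t) * value (F (J.orderEmbOfFin rfl t)) (c (J.orderEmbOfFin rfl t)) k := by
  unfold fvl sm gm rm
  rw [Fin.append_left, Fin.append_left, Fin.append_left, sum_single]
  simp only [univ_unique, Fin.default_eq_zero, sum_singleton, zero_mul, add_zero]
  have : pv F c k (J.orderEmbOfFin rfl t) = value (F (J.orderEmbOfFin rfl t)) (c (J.orderEmbOfFin rfl t)) k := rfl
  rw [this]
  ring

lemma fvl_right {m d : ℕ} (F : Fin m → Polynomial ℤ) (c : Fin m → Fin d → ℤ) (x : ℤ) (Λ : ℕ) (c0 n : ℤ) (J : Finset (Fin m))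
    (α β : Fin m → ℕ) (u : Fin m → ℤ) (k : ℕ) (t : Fin J.card) (v : ℤ) (hΛ : β (J.orderEmbOfFin rfl t) ∣ Λ)
    (hβ : 1 ≤ β (J.orderEmbOfFin rfl t)) (hn : n = c0 + Λ * x)
    (huv : α (J.orderEmbOfFin rfl t) * u (J.orderEmbOfFin rfl t) - β (J.orderEmbOfFin rfl t) * v = n) :
    fvl F c (fun _ => x) (sm J α β) (gm Λ J β) (rm c0 J α β u) k (Fin.natAdd J.card t) =
      v + α (J.orderEmbOfFin rfl t) * value (F (J.orderEmbOfFin rfl t)) (c (J.orderEmbOfFin rfl t)) k := by
  unfold fvl sm gm rm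
  rw [Fin.append_right, Fin.append_right, Fin.append_right, sum_single]
  simp only [univ_unique, Fin.default_eq_zero, sum_singleton]
  have h1 : pv F c k (J.orderEmbOfFin rfl t) = value (F (J.orderEmbOfFin rfl t)) (c (J.orderEmbOfFin rfl t)) k := rfl
  rw [h1]
  obtain ⟨i, hi⟩ : ∃ i, i = J.orderEmbOfFin rfl t := ⟨_, rfl⟩
  rw [← hi] at hΛ hβ huv ⊢
  obtain ⟨l, hl⟩ := hΛ
  have hβ0 : (β i : ℤ) ≠ 0 := by
    have : (1 : ℤ) ≤ β i := by exact_mod_cast hβ
    omega
  have h2 : Λ / β i = l := by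
    rw [hl]
    exact Nat.mul_div_cancel_left l (by omega)
  have h3 : (α i * u i - c0 : ℤ) = β i * (v + l * x) := by
    have h4 : (Λ : ℤ) = β i * l := by exact_mod_cast hl
    have h5 : (α i * u i : ℤ) - β i * v = c0 + β i * l * x := by
      rw [huv, hn, h4]
    linear_combination h5
  rw [h2, h3, Int.mul_ediv_cancel_left _ hβ0]
  ring

lemma co {m : ℕ} (Λ : ℕ) (hΛ0 : 1 ≤ Λ) (J : Finset (Fin m)) (α β : Fin m → ℕ) (hα : ∀ i ∈ J, 1 ≤ α i) (hβ : ∀ i ∈ J, 1 ≤ β i)
    (hΛ : ∀ i ∈ J, β i ∣ Λ) : CO (sm J α β) (gm Λ J β) := by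
  have hdiv : ∀ t : Fin J.card, ((Λ / β (J.orderEmbOfFin rfl t) : ℕ) : ℤ) ≠ 0 := by
    intro t
    have h1 := Nat.div_pos (Nat.le_of_dvd hΛ0 (hΛ _ (Finset.orderEmbOfFin_mem J rfl t))) (hβ _ (Finset.orderEmbOfFin_mem J rfl t))
    exact_mod_cast h1.ne'
  have hα0 : ∀ t : Fin J.card, (α (J.orderEmbOfFin rfl t) : ℤ) ≠ 0 := by
    intro t
    have h1 := hα _ (Finset.orderEmbOfFin_mem J rfl t)
    exact_mod_cast (by omega : α (J.orderEmbOfFin rfl t) ≠ 0)
  have hβ0 : ∀ t : Fin J.card, (β (J.orderEmbOfFin rfl t) : ℤ) ≠ 0 := by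
    intro t
    have h1 := hβ _ (Finset.orderEmbOfFin_mem J rfl t)
    exact_mod_cast (by omega : β (J.orderEmbOfFin rfl t) ≠ 0)
  intro t
  refine Fin.addCases (fun t => ?_) (fun t => ?_) t
  · refine ⟨Pi.single (J.orderEmbOfFin rfl t) 1, Pi.single (J.orderEmbOfFin rfl t) ((Λ / β (J.orderEmbOfFin rfl t) : ℕ) : ℤ),
      fun _ => α (J.orderEmbOfFin rfl t), ?_, ?_, ?_⟩
    · unfold sm
      rw [Fin.append_left, sum_single, Pi.single_eq_same, mul_one]
      exact hβ0 t
    · unfold sm gm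
      rw [Fin.append_left, Fin.append_left, sum_single, Pi.single_eq_same]
      simp only [univ_unique, Fin.default_eq_zero, sum_singleton, zero_mul, add_zero]
      exact mul_ne_zero (hβ0 t) (hdiv t)
    · intro t' ht'
      refine Fin.addCases (fun t' ht' => ?_) (fun t' ht' => ?_) t' ht'
      · left
        unfold sm
        rw [Fin.append_left, sum_single, Pi.single_eq_of_ne, mul_zero]
        intro h
        apply ht'
        rw [(J.orderEmbOfFin rfl).injective h]
      · by_cases h : t' = t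
        · right
          subst h
          unfold sm gm
          rw [Fin.append_right, Fin.append_right, sum_single, Pi.single_eq_same]
          simp only [univ_unique, Fin.default_eq_zero, sum_singleton]
          ring
        · left
          unfold sm
          rw [Fin.append_right, sum_single, Pi.single_eq_of_ne, mul_zero]
          intro h'
          exact h ((J.orderEmbOfFin rfl).injective h')
  · refine ⟨Pi.single (J.orderEmbOfFin rfl t) 1, fun _ => 0, fun _ => 1, ?_, ?_, ?_⟩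
    · unfold sm
      rw [Fin.append_right, sum_single, Pi.single_eq_same, mul_one]
      exact hα0 t
    · unfold sm gm
      rw [Fin.append_right, Fin.append_right, sum_single]
      simp only [univ_unique, Fin.default_eq_zero, sum_singleton, mul_zero, zero_add, mul_one]
      exact neg_ne_zero.2 (hdiv t)
    · intro t' ht'
      refine Fin.addCases (fun t' ht' => ?_) (fun t' ht' => ?_) t' ht'
      · right
        unfold sm gm
        rw [Fin.append_left, Fin.append_left, sum_single]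
        simp
      · left
        unfold sm
        rw [Fin.append_right, sum_single, Pi.single_eq_of_ne, mul_zero]
        intro h
        apply ht'
        rw [(J.orderEmbOfFin rfl).injective h]



/-- the constant `n` decomposed -/
lemma dec (Λ : ℕ) (hΛ : 1 ≤ Λ) (n : ℤ) : n = (n % Λ) + Λ * (n / Λ) := (Int.emod_add_mul_ediv n Λ).symm

/-- data for one system -/
structure Dat (K Λ : ℕ) {m : ℕ} (J : Finset (Fin m)) (α β : Fin m → ℕ) (u : Fin m → ℤ) (c0 : ℤ) : Prop where
  a1 : ∀ i ∈ J, 1 ≤ α i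
  aK : ∀ i ∈ J, α i ≤ K
  b1 : ∀ i ∈ J, 1 ≤ β i
  bK : ∀ i ∈ J, β i ≤ K
  dv : ∀ i ∈ J, β i ∣ Λ
  u0 : ∀ i ∈ J, 0 ≤ u i
  uK : ∀ i ∈ J, u i < β i
  cn : 0 ≤ c0
  cl : c0 < Λ

lemma norm_sm {K Λ m : ℕ} {J : Finset (Fin m)} {α β : Fin m → ℕ} {u : Fin m → ℤ} {c0 : ℤ} (h : Dat K Λ J α β u c0)
    (t : Fin (J.card + J.card)) (i : Fin m) : |sm J α β t i| ≤ ((K + Λ : ℕ) : ℤ) := by
  refine Fin.addCases (fun t => ?_) (fun t => ?_) t
  · unfold sm
    rw [Fin.append_left, Pi.single_apply]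
    have h1 := h.bK _ (Finset.orderEmbOfFin_mem J rfl t)
    split_ifs
    · rw [Nat.abs_cast]
      exact_mod_cast (by omega)
    · simp
      positivity
  · unfold sm
    rw [Fin.append_right, Pi.single_apply]
    have h1 := h.aK _ (Finset.orderEmbOfFin_mem J rfl t)
    split_ifs
    · rw [Nat.abs_cast]
      exact_mod_cast (by omega)
    · simp
      positivity

lemma norm_gm {K Λ m : ℕ} {J : Finset (Fin m)} {α β : Fin m → ℕ} {u : Fin m → ℤ} {c0 : ℤ} (_h : Dat K Λ J α β u c0)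
    (t : Fin (J.card + J.card)) (j : Fin 1) : |gm Λ J β t j| ≤ ((K + Λ : ℕ) : ℤ) := by
  refine Fin.addCases (fun t => ?_) (fun t => ?_) t
  · unfold gm
    rw [Fin.append_left, abs_zero]
    positivity
  · unfold gm
    rw [Fin.append_right, abs_neg, Nat.abs_cast]
    have h1 : Λ / β (J.orderEmbOfFin rfl t) ≤ Λ := Nat.div_le_self _ _
    exact_mod_cast (by omega)

lemma mem_rm {K Λ m : ℕ} {J : Finset (Fin m)} {α β : Fin m → ℕ} {u : Fin m → ℤ} {c0 : ℤ} (h : Dat K Λ J α β u c0)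
    (t : Fin (J.card + J.card)) : rm c0 J α β u t ∈ Icc (-((K * K + K + Λ : ℕ) : ℤ)) ((K * K + K + Λ : ℕ) : ℤ) := by
  refine Fin.addCases (fun t => ?_) (fun t => ?_) t
  · unfold rm
    rw [Fin.append_left, mem_Icc]
    have hm := Finset.orderEmbOfFin_mem J rfl t
    have h1 := h.bK _ hm
    have h2 := h.u0 _ hm
    have h3 := h.uK _ hm
    have h4 : (β (J.orderEmbOfFin rfl t) : ℤ) ≤ K := by exact_mod_cast h1
    have h5 : (0 : ℤ) ≤ K * K := by positivity
    push_cast
    constructor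
    · have : (0 : ℤ) ≤ (K : ℤ) := by positivity
      have : (0 : ℤ) ≤ (Λ : ℤ) := by positivity
      linarith
    · have : (0 : ℤ) ≤ (Λ : ℤ) := by positivity
      linarith
  · unfold rm
    rw [Fin.append_right, mem_Icc]
    have hm := Finset.orderEmbOfFin_mem J rfl t
    obtain ⟨i, hi⟩ : ∃ i, i = J.orderEmbOfFin rfl t := ⟨_, rfl⟩
    rw [← hi] at hm ⊢
    have h1 : (β i : ℤ) ≤ K := by exact_mod_cast h.bK i hm
    have h1' : (1 : ℤ) ≤ β i := by exact_mod_cast h.b1 i hm
    have h2 : (α i : ℤ) ≤ K := by exact_mod_cast h.aK i hm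
    have h2' : (1 : ℤ) ≤ α i := by exact_mod_cast h.a1 i hm
    have h3 := h.u0 i hm
    have h4 := h.uK i hm
    have h5 := h.cn
    have h6 := h.cl
    have h7 : (α i * u i : ℤ) ≤ K * K := mul_le_mul h2 (by linarith) h3 (by linarith)
    have h8 : (0 : ℤ) ≤ α i * u i := mul_nonneg (by linarith) h3
    have h9 : ((α i * u i - c0) / β i : ℤ) ≤ K * K := by
      rcases le_or_gt 0 (α i * u i - c0) with h10 | h10
      · exact (Int.ediv_le_self _ h10).trans (by linarith)
      · have h11 : ((α i * u i - c0) / β i : ℤ) ≤ 0 := (Int.ediv_neg_of_neg_of_pos h10 (by linarith)).le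
        have : (0 : ℤ) ≤ K * K := by positivity
        linarith
    have h10 : -(Λ : ℤ) ≤ (α i * u i - c0) / β i := by
      rw [Int.le_ediv_iff_mul_le (by linarith)]
      have h11 : (0 : ℤ) ≤ Λ := by positivity
      nlinarith
    push_cast
    constructor
    · have : (0 : ℤ) ≤ K * K := by positivity
      linarith
    · have : (0 : ℤ) ≤ (Λ : ℤ) := by positivity
      linarith

lemma supp_sm {m : ℕ} (J : Finset (Fin m)) (α β : Fin m → ℕ) (t : Fin (J.card + J.card)) (i : Fin m) (hi : i ∉ J) :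
    sm J α β t i = 0 := by
  refine Fin.addCases (fun t => ?_) (fun t => ?_) t
  · unfold sm
    rw [Fin.append_left, Pi.single_eq_of_ne]
    rintro rfl
    exact hi (Finset.orderEmbOfFin_mem J rfl t)
  · unfold sm
    rw [Fin.append_right, Pi.single_eq_of_ne]
    rintro rfl
    exact hi (Finset.orderEmbOfFin_mem J rfl t)

/-- statements on the forms -/
lemma all_iff {K Λ m d : ℕ} {J : Finset (Fin m)} {α β : Fin m → ℕ} {u : Fin m → ℤ} {c0 : ℤ} (h : Dat K Λ J α β u c0)
    (F : Fin m → Polynomial ℤ) (c : Fin m → Fin d → ℤ) (x n : ℤ) (hn : n = c0 + Λ * x) (v : Fin m → ℤ)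
    (hv : ∀ i ∈ J, α i * u i - β i * v i = n) (k : ℕ) (Q : ℤ → Prop) :
    (∀ t, Q (fvl F c (fun _ => x) (sm J α β) (gm Λ J β) (rm c0 J α β u) k t)) ↔
      ∀ i ∈ J, Q (u i + β i * value (F i) (c i) k) ∧ Q (v i + α i * value (F i) (c i) k) := by
  have h1 := forall_append (n := 0) J J (fun i => Q (u i + β i * value (F i) (c i) k))
    (fun i => Q (v i + α i * value (F i) (c i) k))
    (fun t => Q (fvl F c (fun _ => x) (sm J α β) (gm Λ J β) (rm c0 J α β u) k t))
    (fun t => by rw [fvl_left])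
    (fun t => by
      have hm := Finset.orderEmbOfFin_mem J rfl t
      rw [fvl_right F c x Λ c0 n J α β u k t (v (J.orderEmbOfFin rfl t)) (h.dv _ hm) (h.b1 _ hm) hn (hv _ hm)]) rfl
  rw [h1]
  constructor
  · rintro ⟨ha, hb⟩ i hi
    exact ⟨ha i hi, hb i hi⟩
  · intro ha
    exact ⟨fun i hi => (ha i hi).1, fun i hi => (ha i hi).2⟩

lemma points_eq {K Λ m d : ℕ} {J : Finset (Fin m)} {α β : Fin m → ℕ} {u : Fin m → ℤ} {c0 : ℤ} (h : Dat K Λ J α β u c0)
    (F : Fin m → Polynomial ℤ) (c : Fin m → Fin d → ℤ) (x n : ℤ) (hn : n = c0 + Λ * x) (v : Fin m → ℤ)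
    (hv : ∀ i ∈ J, α i * u i - β i * v i = n) (b q a l : ℕ) :
    cntL F c (fun _ => x) (sm J α β) (gm Λ J β) (rm c0 J α β u) b q a l = primePoints F c J α β u v b q a l := by
  classical
  unfold cntL primePoints
  congr 1
  ext k
  simp only [mem_filter]
  apply and_congr_right
  intro _
  exact all_iff h F c x n hn v hv (b + q * k) (fun y => y.toNat.Prime)

lemma singular_eq {K Λ m d : ℕ} {J : Finset (Fin m)} {α β : Fin m → ℕ} {u : Fin m → ℤ} {c0 : ℤ} (h : Dat K Λ J α β u c0)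
    (F : Fin m → Polynomial ℤ) (c : Fin m → Fin d → ℤ) (x n : ℤ) (hn : n = c0 + Λ * x) (v : Fin m → ℤ)
    (hv : ∀ i ∈ J, α i * u i - β i * v i = n) (b q z : ℕ) :
    sgL F c (fun _ => x) (sm J α β) (gm Λ J β) (rm c0 J α β u) b q z = singular F c J α β u v b q z := by
  classical
  unfold sgL singular
  apply Finset.prod_congr rfl
  intro p _
  rw [two_mul]
  congr 4
  unfold omL omega
  congr 1
  ext k
  simp only [mem_filter]
  apply and_congr_right
  intro _
  have h1 := not_congr (all_iff h F c x n hn v hv (b + q * k) (fun y => ¬ (p : ℤ) ∣ y))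
  push Not at h1
  rw [h1]
  constructor
  · rintro ⟨i, hi, h2⟩
    refine ⟨i, hi, ?_⟩
    by_cases h3 : (p : ℤ) ∣ u i + β i * value (F i) (c i) (b + q * k)
    · exact Or.inl h3
    · exact Or.inr (h2 h3)
  · rintro ⟨i, hi, h2⟩
    refine ⟨i, hi, fun h3 => ?_⟩
    rcases h2 with h2 | h2
    · exact absurd h2 h3
    · exact h2

open Classical in
/-- **Prime solutions of `α p - β q = n` in short pieces of almost all polynomial sequences, for almost all `n`.** -/
theorem result (M K B E : ℕ) (hE : 1 ≤ E) (η : ℝ) (hη : 0 < η) : ∃ d₀ : ℕ, ∀ C d : ℕ, d₀ ≤ d → ∃ A₀ : ℕ,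
    ∀ (A D : ℕ) (ε : ℝ), 0 < ε → ∃ X₀ : ℕ, ∀ X, X₀ ≤ X → ∀ z : ℕ, Real.log X ^ A₀ ≤ z → (z : ℝ) ≤ Real.log X ^ A →
    ∀ m : ℕ, (m : ℝ) ≤ Real.log X ^ E →
    ∀ (F : Fin m → Polynomial ℤ) (Z : Fin m → Fin d → ℤ) (Y : Fin m → Fin d → ℕ) (z' : ℤ) (y' : ℕ),
    (∀ i, (F i).natDegree ≤ D) → (∀ i j, (X : ℝ) / Real.log X ^ C ≤ Y i j) → (X : ℝ) / Real.log X ^ C ≤ y' →
    (((Arrays Z Y).filter (fun c => (y' : ℝ) / Real.log X ^ B <
      ((Ioc z' (z' + y')).filter (fun n => ¬ Regular M K C E η ε z X F Z Y z' y' c n)).card)).card : ℝ) ≤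
      (Arrays Z Y).card / Real.log X ^ B := by
  obtain ⟨Λ, hΛ⟩ : ∃ Λ, Λ = K.factorial := ⟨_, rfl⟩
  have hΛ1 : 1 ≤ Λ := by rw [hΛ]; exact Nat.factorial_pos K
  obtain ⟨d0, hd0⟩ := all_lin (2 * M) (K + Λ) 1 (B + B + 1) E η hη
  refine ⟨d0, ?_⟩
  intro C d hd
  obtain ⟨A0, hA0⟩ := hd0 (C + 1) d hd
  refine ⟨A0, ?_⟩
  intro A D ε hε
  obtain ⟨X0, hX0⟩ := eventually_atTop.1 ((hA0 A D (min ε (1 / 2)) (by positivity)).and
    ((ev_log_ge (2 * Λ + (2 * (K * K + K + Λ : ℕ) + 1))).and (ev_pow_log (C + 1))))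
  refine ⟨X0, ?_⟩
  intro X hX z hz1 hz2 m hm F Z Y z' y' hF hS hy'
  obtain ⟨h1, hLbig, hP⟩ := hX0 X hX
  obtain ⟨L, hL⟩ : ∃ L, L = Real.log (X : ℝ) := ⟨_, rfl⟩
  rw [← hL] at hLbig hP hz1 hz2 hm hS hy' h1 ⊢
  have hΛr : (1 : ℝ) ≤ Λ := by exact_mod_cast hΛ1
  have hKr : (0 : ℝ) ≤ ((K * K + K + Λ : ℕ) : ℝ) := by positivity
  have hL1 : 1 ≤ L := by linarith
  have hL0 : 0 < L := by linarith
  have hLΛ : 2 * (Λ : ℝ) ≤ L := by linarith
  have hX0' : (0 : ℝ) ≤ X := Nat.cast_nonneg _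
  obtain ⟨R, hR⟩ : ∃ R : Finset ℤ, R = Icc (-((K * K + K + Λ : ℕ) : ℤ)) ((K * K + K + Λ : ℕ) : ℤ) := ⟨_, rfl⟩
  have hRc : (R.card : ℝ) ≤ L ^ E := by
    have h2 : (R.card : ℝ) = 2 * (K * K + K + Λ : ℕ) + 1 := by
      rw [hR, Int.card_Icc]
      have : ((((K * K + K + Λ : ℕ) : ℤ) + 1 - -((K * K + K + Λ : ℕ) : ℤ)).toNat : ℕ) = 2 * (K * K + K + Λ) + 1 := by omega
      rw [this]
      push_cast
      ring
    rw [h2]
    calc (2 * (K * K + K + Λ : ℕ) + 1 : ℝ) ≤ L := by linarith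
      _ = L ^ 1 := (pow_one L).symm
      _ ≤ L ^ E := pow_le_pow_right₀ hL1 hE
  have hside : ∀ i j, (X : ℝ) / L ^ (C + 1) ≤ Y i j := by
    intro i j
    refine le_trans ?_ (hS i j)
    exact div_le_div_of_nonneg_left hX0' (by positivity) (pow_le_pow_right₀ hL1 (by omega))
  have hcard : ((Ioc z' (z' + y')).card : ℝ) = y' := by
    rw [Int.card_Ioc]
    simp
  -- one residue class
  obtain ⟨P, hPd⟩ : ∃ P : ℕ → Finset ((Fin m → Fin d → ℤ) × ℤ), P = fun c0 : ℕ => (Arrays Z Y ×ˢ Ioc z' (z' + y')).filter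
    (fun ω => ¬ Regular M K C E η ε z X F Z Y z' y' ω.1 ω.2 ∧ ω.2 % (Λ : ℤ) = (c0 : ℤ)) := ⟨_, rfl⟩
  have hΛz : (0 : ℤ) < Λ := by exact_mod_cast hΛ1
  have hclass : ∀ c0 ∈ range Λ, ((P c0).card : ℝ) ≤ (Arrays Z Y).card * y' / L ^ (B + B + 1) := by
    intro c0 hc0
    rw [mem_range] at hc0
    obtain ⟨z1, hz1'⟩ : ∃ z1 : ℤ, z1 = (z' - c0) / Λ := ⟨_, rfl⟩
    obtain ⟨z2, hz2'⟩ : ∃ z2 : ℤ, z2 = (z' + y' - c0) / Λ := ⟨_, rfl⟩
    have hz12 : z1 ≤ z2 := by
      rw [hz1', hz2']
      exact Int.ediv_le_ediv hΛz (by have : (0 : ℤ) ≤ y' := by positivity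
                                     linarith)
    obtain ⟨y1, hy1⟩ : ∃ y1 : ℕ, y1 = (z2 - z1).toNat := ⟨_, rfl⟩
    have hy1z : (y1 : ℤ) = z2 - z1 := by
      rw [hy1]
      exact Int.toNat_of_nonneg (by linarith)
    have e1 : Λ * z1 ≤ z' - c0 := by
      rw [hz1']
      exact Int.mul_ediv_self_le hΛz.ne'
    have e2 : z' - c0 < Λ * z1 + Λ := by
      rw [hz1']
      have := Int.lt_mul_ediv_self_add (x := z' - c0) hΛz
      linarith
    have e3 : Λ * z2 ≤ z' + y' - c0 := by
      rw [hz2']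
      exact Int.mul_ediv_self_le hΛz.ne'
    have e4 : z' + y' - c0 < Λ * z2 + Λ := by
      rw [hz2']
      have := Int.lt_mul_ediv_self_add (x := z' + y' - c0) hΛz
      linarith
    have hy1y : y1 ≤ y' := by
      have h2 : (y1 : ℤ) ≤ y' := by
        by_contra hlt
        push Not at hlt
        have h3 : (y' : ℤ) + 1 ≤ z2 - z1 := by rw [← hy1z]; linarith
        have h4 : (Λ : ℤ) * (y' + 1) ≤ Λ * (z2 - z1) := mul_le_mul_of_nonneg_left h3 hΛz.le
        have h5 : (0 : ℤ) ≤ y' := by positivity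
        have h6 : (0 : ℤ) ≤ (Λ - 1) * y' := mul_nonneg (by linarith) h5
        nlinarith
      exact_mod_cast h2
    have hy1r : (y' : ℝ) ≤ Λ * y1 + Λ := by
      have h2 : (y' : ℤ) ≤ Λ * y1 + Λ := by
        rw [hy1z]
        linarith
      exact_mod_cast h2
    have hy1big : (X : ℝ) / L ^ (C + 1) ≤ y1 := by
      have h2 : (X : ℝ) / L ^ C ≤ Λ * y1 + Λ := hy'.trans hy1r
      have h3 : (X : ℝ) / L ^ C = (X / L ^ (C + 1)) * L := by
        rw [pow_succ]
        field_simp
      have h4 : (1 : ℝ) ≤ X / L ^ (C + 1) := by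
        rw [one_le_div (by positivity)]
        exact hP
      obtain ⟨q, hq⟩ : ∃ q, q = (X : ℝ) / L ^ (C + 1) := ⟨_, rfl⟩
      rw [← hq] at h3 h4 ⊢
      rw [h3] at h2
      have h5 : q * (2 * Λ) ≤ q * L := mul_le_mul_of_nonneg_left hLΛ (by linarith)
      have h6 : (Λ : ℝ) * (2 * q) ≤ Λ * (y1 + 1) := by linarith
      have h7 := le_of_mul_le_mul_left h6 (by linarith)
      linarith
    have h2 := h1 z hz1 hz2 m hm R hRc F Z Y (fun _ : Fin 1 => z1) (fun _ : Fin 1 => y1) hF hside (fun _ => hy1big)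
    have hcb : (Box (fun _ : Fin 1 => z1) (fun _ : Fin 1 => y1)).card = y1 := by
      rw [card_Box]
      simp
    rw [card_product, hcb] at h2
    have hAr : Arrays Z Y = BA Z Y := rfl
    have h3 : ((P c0).card : ℝ) ≤ ((BA Z Y).card * y1 : ℕ) / L ^ (B + B + 1) := by
      refine le_trans ?_ h2
      have hinj : (P c0).card ≤
          ((BA Z Y ×ˢ Box (fun _ : Fin 1 => z1) (fun _ : Fin 1 => y1)).filter (fun ω =>
          ∃ (J : Finset (Fin m)) (e : ℕ) (s : Fin e → Fin m → ℤ) (g : Fin e → Fin 1 → ℤ)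
          (r : Fin e → ℤ), J.card ≤ 2 * M ∧ 1 ≤ e ∧ e ≤ 2 * M ∧ (∀ t i, |s t i| ≤ ((K + Λ : ℕ) : ℤ)) ∧
          (∀ t j, |g t j| ≤ ((K + Λ : ℕ) : ℤ)) ∧
          (∀ t, ∀ i, i ∉ J → s t i = 0) ∧ (∀ t, r t ∈ R) ∧ CO s g ∧
          (∀ c ∈ BA Z Y, ∀ N' ∈ Box (fun _ : Fin 1 => z1) (fun _ : Fin 1 => y1), ∀ k : ℕ, 1 ≤ k → (k : ℝ) ≤ L ^ E → ∀ t,
            (X : ℝ) / L ^ (C + 1) ≤ fvl F c N' s g r k t ∧ (fvl F c N' s g r k t : ℝ) ≤ X * L ^ (C + 1)) ∧
          ∃ b q a h : ℕ, 1 ≤ q ∧ ((b + q * (a + h) : ℕ) : ℝ) ≤ L ^ E ∧ L ^ ((e : ℝ) + η) ≤ h ∧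
          ¬ |(cntL F ω.1 ω.2 s g r b q a h : ℝ) - sgL F ω.1 ω.2 s g r b q z * (h / L ^ e)| ≤
            min ε (1 / 2) * (sgL F ω.1 ω.2 s g r b q z * (h / L ^ e)))).card := by
        apply card_le_card_of_injOn (fun ω : (Fin m → Fin d → ℤ) × ℤ => (ω.1, fun _ : Fin 1 => ω.2 / (Λ : ℤ)))
        · rintro ⟨c, n⟩ hω
          rw [hPd] at hω
          simp only [coe_filter, Set.mem_setOf_eq, mem_product] at hω ⊢
          obtain ⟨⟨hω1, hω2⟩, hω3, hω4⟩ := hω
          obtain ⟨x, hx⟩ : ∃ x : ℤ, x = n / Λ := ⟨_, rfl⟩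
          have hn : n = c0 + Λ * x := by
            rw [hx, ← hω4]
            exact dec Λ hΛ1 n
          rw [← hx]
          rw [mem_Ioc] at hω2
          refine ⟨⟨hω1, ?_⟩, ?_⟩
          · rw [mem_Box]
            intro _
            constructor
            · rw [hz1', Int.ediv_lt_iff_lt_mul hΛz]
              linarith [hω2.1]
            · rw [hy1z]
              have : x ≤ z2 := by
                rw [hz2', Int.le_ediv_iff_mul_le hΛz]
                linarith [hω2.2]
              linarith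
          by_contra hno
          push Not at hno
          apply hω3
          intro J α β u v hJ hJM hEq hsize b q a h hq hbq hh
          have hD : Dat K Λ J α β u (c0 : ℤ) := by
            constructor
            · exact fun i hi => (hEq i hi).1
            · exact fun i hi => (hEq i hi).2.1
            · exact fun i hi => (hEq i hi).2.2.1
            · exact fun i hi => (hEq i hi).2.2.2.1
            · intro i hi
              rw [hΛ]
              exact Nat.dvd_factorial (hEq i hi).2.2.1 (hEq i hi).2.2.2.1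
            · exact fun i hi => (hEq i hi).2.2.2.2.1
            · exact fun i hi => (hEq i hi).2.2.2.2.2.1
            · positivity
            · exact_mod_cast hc0
          have hv : ∀ i ∈ J, α i * u i - β i * v i = n := fun i hi => (hEq i hi).2.2.2.2.2.2
          have hJ1 : 1 ≤ J.card := card_pos.2 hJ
          rw [← hL] at hbq hh ⊢
          rw [two_mul] at hh ⊢
          have h3 := hno J (J.card + J.card) (sm J α β) (gm Λ J β) (rm (c0 : ℤ) J α β u) (by omega) (by omega) (by omega)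
            (norm_sm hD) (norm_gm hD) (fun t i hi => supp_sm J α β t i hi) (fun t => by rw [hR]; exact mem_rm hD t)
            (co Λ hΛ1 J α β hD.a1 hD.b1 hD.dv) (by
              intro c' hc' N' hN' k hk1 hk2
              have hN0 : N' = fun _ => N' 0 := by
                funext j
                rw [Subsingleton.elim j 0]
              have hN1 := (mem_Box _ _ _).1 hN' 0
              obtain ⟨x', hx'⟩ : ∃ x', x' = N' 0 := ⟨_, rfl⟩
              rw [← hx'] at hN1 hN0
              rw [hN0]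
              have hn1 : (c0 : ℤ) + Λ * x' ∈ Ioc z' (z' + y') := by
                rw [mem_Ioc]
                constructor
                · have h4 := hN1.1
                  rw [hz1', Int.ediv_lt_iff_lt_mul hΛz] at h4
                  linarith
                · have h4 := hN1.2
                  rw [hy1z] at h4
                  have h5 : x' ≤ z2 := by linarith
                  rw [hz2', Int.le_ediv_iff_mul_le hΛz] at h5
                  linarith
              have hv' : ∀ i ∈ J, α i * u i - β i * (v i + ((Λ / β i : ℕ) : ℤ) * (x - x')) = (c0 : ℤ) + Λ * x' := by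
                intro i hi
                have h4 : (β i : ℤ) * ((Λ / β i : ℕ) : ℤ) = Λ := by exact_mod_cast Nat.mul_div_cancel' (hD.dv i hi)
                have h5 := hv i hi
                rw [hn] at h5
                linear_combination h5 - (x - x') * h4
              refine (all_iff hD F c' x' ((c0 : ℤ) + Λ * x') rfl _ hv' k
                (fun y => (X : ℝ) / L ^ (C + 1) ≤ y ∧ (y : ℝ) ≤ X * L ^ (C + 1))).2 ?_
              intro i hi
              have h6 := hsize c' hc' _ hn1 k hk1 (by rw [← hL]; exact hk2) i hi _ (hv' i hi)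
              rw [← hL] at h6
              have h7 : (X : ℝ) / L ^ (C + 1) ≤ X / L ^ C :=
                div_le_div_of_nonneg_left hX0' (by positivity) (pow_le_pow_right₀ hL1 (by omega))
              have h8 : (X : ℝ) * L ^ C ≤ X * L ^ (C + 1) :=
                mul_le_mul_of_nonneg_left (pow_le_pow_right₀ hL1 (by omega)) hX0'
              exact ⟨⟨h7.trans h6.1.1, h6.1.2.trans h8⟩, h7.trans h6.2.1, h6.2.2.trans h8⟩) b q a h hq hbq hh
          have h4 := concl hL0 hε F c (fun _ => x) (sm J α β) (gm Λ J β) (rm (c0 : ℤ) J α β u) b q a h z hh h3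
          rw [points_eq hD F c x n hn v hv, singular_eq hD F c x n hn v hv] at h4
          refine ⟨h4.1, ?_⟩
          intro hadm
          obtain ⟨k, hk1, hk2, hk3⟩ := h4.2 (by
            intro p hp hpz
            obtain ⟨k, hk⟩ := hadm p hp hpz
            exact ⟨k, (all_iff hD F c x n hn v hv (b + q * k) (fun y => ¬ (p : ℤ) ∣ y)).2 hk⟩)
          refine ⟨k, hk1, hk2, ?_⟩
          have hk4 := (all_iff hD F c x n hn v hv (b + q * k) (fun y => y.toNat.Prime)).1 hk3
          intro i hi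
          obtain ⟨h5, h6⟩ := hk4 i hi
          have e5 : ((u i + β i * value (F i) (c i) (b + q * k)).toNat : ℤ) = u i + β i * value (F i) (c i) (b + q * k) := by
            apply Int.toNat_of_nonneg
            by_contra hlt
            push Not at hlt
            rw [Int.toNat_of_nonpos hlt.le] at h5
            exact Nat.not_prime_zero h5
          have e6 : ((v i + α i * value (F i) (c i) (b + q * k)).toNat : ℤ) = v i + α i * value (F i) (c i) (b + q * k) := by
            apply Int.toNat_of_nonneg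
            by_contra hlt
            push Not at hlt
            rw [Int.toNat_of_nonpos hlt.le] at h6
            exact Nat.not_prime_zero h6
          refine ⟨_, _, h5, h6, ?_, e5, e6⟩
          rw [e5, e6]
          have h7 := hv i hi
          linear_combination h7
        · rintro ⟨c, n⟩ hω ⟨c', n'⟩ hω' h
          rw [hPd] at hω hω'
          simp only [coe_filter, Set.mem_setOf_eq] at hω hω'
          have h5 := (Prod.mk.inj h).1
          have h6 := congrFun (Prod.mk.inj h).2 0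
          simp only at h5 h6
          have h7 := dec Λ hΛ1 n
          have h8 := dec Λ hΛ1 n'
          rw [hω.2.2, h6] at h7
          rw [hω'.2.2] at h8
          rw [h5, h7, ← h8]
      exact_mod_cast hinj
    refine h3.trans ?_
    apply div_le_div_of_nonneg_right _ (by positivity)
    rw [hAr]
    push_cast
    apply mul_le_mul_of_nonneg_left _ (by positivity)
    exact_mod_cast hy1y
  have hpair : (((Arrays Z Y ×ˢ Ioc z' (z' + y')).filter (fun ω => ¬ Regular M K C E η ε z X F Z Y z' y' ω.1 ω.2)).card : ℝ) ≤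
      ((Arrays Z Y ×ˢ Ioc z' (z' + y')).card : ℝ) / (L ^ B * L ^ B) := by
    have hsub : (Arrays Z Y ×ˢ Ioc z' (z' + y')).filter (fun ω => ¬ Regular M K C E η ε z X F Z Y z' y' ω.1 ω.2) ⊆
        (range Λ).biUnion P := by
      intro ω hω
      rw [mem_filter] at hω
      rw [mem_biUnion]
      have h2 := Int.emod_nonneg ω.2 hΛz.ne'
      have h3 := Int.emod_lt_of_pos ω.2 hΛz
      refine ⟨(ω.2 % Λ).toNat, mem_range.2 (by omega), ?_⟩
      rw [hPd]
      simp only [mem_filter]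
      exact ⟨hω.1, hω.2, (Int.toNat_of_nonneg h2).symm⟩
    have h2 := (Nat.cast_le (α := ℝ)).2 (card_le_card hsub)
    refine h2.trans ?_
    refine (cbu (range Λ) P Λ _ (by rw [card_range]) (by positivity) hclass).trans ?_
    rw [card_product]
    push_cast
    rw [hcard, ← pow_add, pow_succ]
    have h3 : (Λ : ℝ) * ((Arrays Z Y).card * y' / (L ^ (B + B) * L)) = (Λ / L) * ((Arrays Z Y).card * y' / L ^ (B + B)) := by
      field_simp
    rw [h3]
    calc ((Λ : ℝ) / L) * ((Arrays Z Y).card * y' / L ^ (B + B)) ≤ 1 * ((Arrays Z Y).card * y' / L ^ (B + B)) := by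
          apply mul_le_mul_of_nonneg_right _ (by positivity)
          rw [div_le_one hL0]
          linarith
      _ = _ := one_mul _
  have h3 := fub (Arrays Z Y) (Ioc z' (z' + y')) (fun c n => ¬ Regular M K C E η ε z X F Z Y z' y' c n) (L ^ B)
    (pow_pos hL0 B) (by convert hpair)
  rw [hcard] at h3
  convert h3

end Pool.Agent.Results.MP_bf63dc_nt.PolynomialSolutions
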