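import Pool.Agent.Q236.GW.PairU

set_option autoImplicit false

/-!
# The equation `a p - b q = c`: regular neighbourhoods of the solutions, uniformly in `a`, `b`, `c`

Let `a, b ≥ 1` and `c ≠ 0` be pairwise coprime and not all odd, and let `(p₀, q₀)` be a solution in integers
of `a p - b q = c`; all solutions are `(p₀ + b t, q₀ + a t)`. The expected density near `X` of the `t` for which
both are primes is `𝔖(a b c) / log ^ 2 X`, up to the sizes of `a` and `b`, with the singular series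
`𝔖(n) = 2 C₂ ∏_{p ∣ n, p > 2} (p - 1) / (p - 2)`. Let `R` be the set of the `t` such that no prime
`p ≤ X ^ (1 / r)` divides `(p₀ + b t) (q₀ + a t)`, and let `S` be an ARBITRARY subset of `R`, for instance the set
of all prime solutions. In every short interval `(u, u + Y]`, `X ^ θ ≤ Y ≤ X`, `Y ≤ u`, all but
`ε Y 𝔖 / log ^ 2 X` of the elements of `S` are regular points of `S`: the elements of `S` in ALL intervals of
length between `log ^ 2 X / (c₀ 𝔖)` and `Y` around them have the right order, and constant density up to `δ` at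
all but `B (ε, δ)` dyadic scales. This is uniform in `a`, `b`, `p₀`, `q₀` up to an arbitrary power of `X`.
-/

namespace Pool.Agent.Results.MP_bf63dc_nt.RegularSolutions

open Finset Filter

/-- The twin prime constant: the infimum (the limit) of the decreasing products of `1 - 1 / (p - 1) ^ 2`
over the primes `3 ≤ p ≤ z`. -/
noncomputable def C₂ : ℝ := ⨅ z : ℕ, ∏ p ∈ (Finset.Icc 3 z).filter Nat.Prime, (1 - 1 / ((p : ℝ) - 1) ^ 2)

/-- The singular series `2 C₂ ∏_{p ∣ n, p > 2} (p - 1) / (p - 2)`. -/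
noncomputable def 𝔖 (n : ℕ) : ℝ :=
  2 * C₂ * ∏ p ∈ n.primeFactors.filter (fun p => 2 < p), ((p : ℝ) - 1) / ((p : ℝ) - 2)

/-- The expected density `𝔖(a b c) / log ^ 2 X`. -/
noncomputable def dens (X : ℕ) (a b c : ℤ) : ℝ := 𝔖 (a * b * c).natAbs / Real.log X ^ 2

/-- The hypotheses of the question (positive `a`, `b`), and a solution in integers. -/
structure Equation (a b c p₀ q₀ : ℤ) : Prop where
  apos : 0 < a
  bpos : 0 < b
  cne : c ≠ 0
  ab : IsCoprime a b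
  ac : IsCoprime a c
  bc : IsCoprime b c
  notAllOdd : ¬ (Odd a ∧ Odd b ∧ Odd c)
  eq : a * p₀ - b * q₀ = c

/-- the `t` such that no prime `p ≤ X ^ (1 / r)` divides `(p₀ + b t) (q₀ + a t)` -/
def R (X : ℕ) (a b p₀ q₀ : ℤ) (r : ℕ) : Set ℕ :=
  {t | ∀ p : ℕ, p.Prime → (p : ℝ) ≤ (X : ℝ) ^ (1 / (r : ℝ)) → ¬ (p : ℤ) ∣ (p₀ + b * t) * (q₀ + a * t)}

open Classical in
/-- the number of the elements of `S` in `(x, y]` -/
noncomputable def N (S : Set ℕ) (x y : ℕ) : ℕ := ((Finset.Ioc x y).filter (fun m => m ∈ S)).card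

/-- All intervals `(m - s, m + t]` with `s, t ≤ Y` of length at least `1 / (c₀ D)` contain the right order
of elements of `S`, for the density `D`. -/
def RightOrder (S : Set ℕ) (c₀ D : ℝ) (Y m : ℕ) : Prop :=
  ∀ s t : ℕ, s ≤ Y → t ≤ Y → 1 ≤ c₀ * (D * (s + t)) →
    c₀ * (D * (s + t)) ≤ N S (m - s) (m + t) ∧ (N S (m - s) (m + t) : ℝ) ≤ D * (s + t) / c₀

/-- Up to `δ`, `S` has a constant density on both sides of `m` up to the distance `2 ^ j`. -/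
def ConstantDensity (S : Set ℕ) (c₀ D δ : ℝ) (m j : ℕ) : Prop :=
  ∃ lam : ℝ, c₀ ≤ lam ∧ lam ≤ 1 / c₀ ∧ ∀ s t : ℕ, s ≤ 2 ^ j → t ≤ 2 ^ j →
    |(N S (m - s) (m + t) : ℝ) - lam * (D * (s + t))| ≤ δ * (D * 2 ^ j)

open Classical in
/-- The number of the scales `1 / (c₀ D) ≤ 2 ^ j ≤ Y` without this property. -/
noncomputable def badScales (S : Set ℕ) (c₀ D δ : ℝ) (Y m : ℕ) : ℕ :=
  ((Finset.range (Nat.log 2 Y + 1)).filter (fun j => 1 ≤ c₀ * (D * (2 : ℝ) ^ j) ∧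
    ¬ ConstantDensity S c₀ D δ m j)).card

/-- The elements of `S` that are not regular points of `S`. -/
def Irregular (S : Set ℕ) (c₀ D δ : ℝ) (B Y : ℕ) : Set ℕ :=
  {m | m ∈ S ∧ ¬ (RightOrder S c₀ D Y m ∧ badScales S c₀ D δ Y m ≤ B)}

open Pool.Agent.W123.RU Pool.Agent.H373R2.T7 Pool.Agent.TH464.PO Pool.Agent.Q236.GW
open Pool.Agent.W123.RU.Poly (Q)

lemma sf_iff (X : ℕ) (a b p₀ q₀ : ℤ) (r m : ℕ) :
    Sf (Q (pl a b p₀ q₀)) ⌊(X : ℝ) ^ (1 / (r : ℝ))⌋₊ m ↔ m ∈ R X a b p₀ q₀ r := by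
  have h0 : (0 : ℝ) ≤ (X : ℝ) ^ (1 / (r : ℝ)) := by positivity
  constructor
  · intro h q hq hqn hd
    exact h q (mem_pz.2 ⟨Nat.le_floor hqn, hq⟩) ((pl_Q a b p₀ q₀ q m hq).2 hd)
  · intro h q hq hd
    have hqq := (mem_pz.1 hq).2
    exact h q hqq (mem_pz' h0 hq) ((pl_Q a b p₀ q₀ q m hqq).1 hd)

lemma toEqn {a b c p₀ q₀ : ℤ} (h : Equation a b c p₀ q₀) : Eqn a b c p₀ q₀ where
  apos := h.apos
  bpos := h.bpos
  cne := h.cne
  ab := h.ab
  ac := h.ac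
  bc := h.bc
  eq := h.eq
  ev := by
    by_contra hcon
    rw [Int.not_even_iff_odd, Int.odd_mul, Int.odd_mul] at hcon
    exact h.notAllOdd ⟨hcon.1.1, hcon.1.2, hcon.2⟩

/-- **The equation `a p - b q = c`: regular neighbourhoods, uniformly in `a`, `b`, `c`.** -/
theorem result (A θ : ℝ) (hA : 0 < A) (hθ : 0 < θ) :
    (∀ a b c p₀ q₀ : ℤ, Equation a b c p₀ q₀ →
      ∀ m n : ℤ, a * m - b * n = c ↔ ∃ t : ℤ, m = p₀ + b * t ∧ n = q₀ + a * t) ∧
    ∃ r₀ : ℕ, 2 ≤ r₀ ∧ ∀ r : ℕ, r₀ ≤ r →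
      (∀ (X : ℕ) (a b p₀ q₀ : ℤ) (t : ℕ), (p₀ + b * t).natAbs.Prime → (q₀ + a * t).natAbs.Prime →
        (X : ℝ) ^ (1 / (r : ℝ)) < ((p₀ + b * t).natAbs : ℝ) →
        (X : ℝ) ^ (1 / (r : ℝ)) < ((q₀ + a * t).natAbs : ℝ) → t ∈ R X a b p₀ q₀ r) ∧
      ∀ ε : ℝ, 0 < ε → ∃ c₀ : ℝ, 0 < c₀ ∧ ∀ δ : ℝ, 0 < δ → ∃ B : ℕ, ∀ᶠ X : ℕ in atTop,
        ∀ a b c p₀ q₀ : ℤ, Equation a b c p₀ q₀ → (a : ℝ) ≤ (X : ℝ) ^ A → (b : ℝ) ≤ (X : ℝ) ^ A →
          |(p₀ : ℝ)| ≤ (X : ℝ) ^ A → |(q₀ : ℝ)| ≤ (X : ℝ) ^ A →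
          ∀ u Y : ℕ, (X : ℝ) ^ θ ≤ Y → Y ≤ X → Y ≤ u → ∀ S : Set ℕ, S ⊆ R X a b p₀ q₀ r →
            (N (Irregular S c₀ (dens X a b c) δ B Y) u (u + Y) : ℝ) ≤ ε * (Y * dens X a b c) := by
  refine ⟨?_, ?_⟩
  · intro a b c p₀ q₀ h m n
    constructor
    · intro hmn
      have h1 : a * (m - p₀) = b * (n - q₀) := by
        have := h.eq
        linear_combination hmn - this
      have h2 : b ∣ m - p₀ := h.ab.symm.dvd_of_dvd_mul_left (Dvd.intro _ h1.symm)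
      obtain ⟨t, ht⟩ := h2
      refine ⟨t, by linarith, ?_⟩
      rw [ht] at h1
      have h3 : b * (n - q₀) = b * (a * t) := by rw [← h1]; ring
      have h4 := mul_left_cancel₀ h.bpos.ne' h3
      linarith
    · rintro ⟨t, rfl, rfl⟩
      have := h.eq
      linear_combination this
  · obtain ⟨r0, hr0, h⟩ := her_eqn A θ hA hθ
    refine ⟨r0, hr0, ?_⟩
    intro r hr
    refine ⟨?_, ?_⟩
    · intro X a b p₀ q₀ t hp hq h1 h2 p hpp hpX hd
      have hpi : Prime (p : ℤ) := Nat.prime_iff_prime_int.1 hpp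
      rcases hpi.dvd_or_dvd hd with h3 | h3
      · have h4 := (Nat.prime_dvd_prime_iff_eq hpp hp).1 (Int.natCast_dvd.1 h3)
        rw [← h4] at h1
        linarith
      · have h4 := (Nat.prime_dvd_prime_iff_eq hpp hq).1 (Int.natCast_dvd.1 h3)
        rw [← h4] at h2
        linarith
    · intro ε hε
      obtain ⟨c₀, hc₀, h2⟩ := h r hr ε hε
      refine ⟨c₀, hc₀, fun δ hδ => ?_⟩
      obtain ⟨B, h3⟩ := h2 δ hδ
      refine ⟨B, ?_⟩
      filter_upwards [h3] with X hX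
      intro a b c p₀ q₀ he haX hbX hpX hqX u Y hXY hYX hYu S hS
      exact hX a b c p₀ q₀ (toEqn he) haX hbX hpX hqX u Y hXY hYX hYu S
        (fun m hm => (sf_iff X a b p₀ q₀ r m).2 (hS hm))

end Pool.Agent.Results.MP_bf63dc_nt.RegularSolutions
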