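import Pool.Agent.Q200.HS.SMain

/-!
# Smash-nilpotent cycles on products of hypersurfaces: sparse codimensions suffice

Call `2 i - n` the *defect* of a cycle of codimension `i` on a motive of weight `n`. A cycle `a` is
smash-nilpotent if and only if `a^(× k)` is, and the defect of `a^(× k)` is `k` times the defect
of `a`; so the defects in a very sparse set suffice, if one can pass from `X^k` back to a single
variety. For products of hypersurfaces this is possible: the tensor products of the primitive motives
of hypersurfaces `f(x) = 0`, `g(y) = 0` are direct summands, up to a Tate twist, of the motives of the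
joins `f(x) + g(y) = 0` (Shioda, Katsura), and all defects are preserved.

We prove that Voevodsky's conjecture holds for all products of smooth hypersurfaces over the complex
numbers, in all codimensions, as soon as it holds for the single hypersurfaces

  `W : f(x_0, …, x_(a+1)) + (y_1^d - z_1^d) + ⋯ + (y_k^d - z_k^d) = 0`, `a ≤ ω(n)`, `n = dim W`,

of even dimension `n`, and for the codimensions `m = (n + e) / 2`, `e` in `E`, `|e| ≤ φ(n)`. Here `E`
is any set of integers which contains a positive multiple of each integer, for example
`{0} ∪ {± j! : j ≥ 1}`, `ω` and `φ` tend to infinity, however slowly, and the pairs `(n, d)` are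
restricted to any set with arbitrarily large even `n` and arbitrarily divisible `d`.
-/

open CategoryTheory MonoidalCategory

universe v u w

namespace Pool.Agent.Results.MP_bf8edd_ag.SparseCodimensions

open Pool.Agent.Q200.HS

/-- **Voevodsky's smash-nilpotence conjecture for products of hypersurfaces.** Let `T` be the Chow
motives over the complex numbers with rational coefficients, the smooth hypersurfaces and the
homologically trivial cycles (`hT`: known facts). Let `S` be a set of pairs `(n, d)` which contains,
for all `N` and `D`, a pair with `n ≥ N` even and `D ∣ d`; let `E` be a set of integers which contains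
a positive multiple of each integer; and let `ω, φ : ℕ → ℕ` tend to infinity. The following statements
are equivalent.

1. The homologically trivial cycles in `CH^m(W)` are smash-nilpotent for all hypersurfaces `W` with
  `(dim W, deg W) ∈ S` which are iterated suspensions `f(x) + (y_1^d - z_1^d) + ⋯ = 0` of
  hypersurfaces `X : f(x) = 0` with `dim X ≤ ω(dim W)`, and for the codimensions `m` with
  `2 m - dim W ∈ E` and `|2 m - dim W| ≤ φ(dim W)`.
2. The homologically trivial cycles in `CH^i(X)` are smash-nilpotent, for all smooth hypersurfaces `X`
  of even dimension and all `i`.
3. The homologically trivial cycles in `CH^i(M)` are smash-nilpotent, for all `i` and all motives `M`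
  which are obtained from motives of smooth hypersurfaces (of any dimensions and degrees), the unit and
  the Lefschetz motive by tensor products, direct sums and direct summands; in particular for all
  products `X_1 × ⋯ × X_r`. -/
theorem result {𝓜 : Type u} [Category.{v} 𝓜] [MonoidalCategory 𝓜] [Preadditive 𝓜]
    [BraidedCategory 𝓜] [MonoidalPreadditive 𝓜] {T : NullMot.{v, u, w} 𝓜} (hT : T.Facts)
    (S : Set (ℕ × ℕ)) (hS : EvenPairs S) (E : Set ℤ) (hE : HitsRays E) (ω φ : ℕ → ℕ)
    (hω : Filter.Tendsto ω Filter.atTop Filter.atTop)
    (hφ : Filter.Tendsto φ Filter.atTop Filter.atTop) :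
    [T.Diagonal S E ω φ,
      ∀ X : T.Hyp, Even (T.dim X) → ∀ i, T.Smash i (T.mot X),
      ∀ M : 𝓜, T.Gen M → ∀ i, T.Smash i M].TFAE :=
  NullMot.final hT S hS E hE ω φ hω hφ

end Pool.Agent.Results.MP_bf8edd_ag.SparseCodimensions
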