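import Pool.Agent.Q273.SQ.LF

/-!
# `L(E/F, s)` over all number fields `F`: fields with one bad place suffice

`E` is an elliptic curve over a number field `K` (in the problem `K = ℚ`), and `F` runs through the finite
extensions of `K` in its algebraic closure. The minimal models `V` and the Euler product `LSeries V s`
with the factors at all primes are those of `Pool.Agent.TH322.BC.Defs`; `Lout S V s` is the Euler
product without the factors at the primes above the finite set `S` of primes of `K`.
-/

set_option autoImplicit false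

namespace Pool.Agent.Results.MP_bf9450_nt.OneBadPlace

open NumberField IsDedekindDomain
open Pool.Agent.TH322.BC.Edge (MinimalModels)
open Pool.Agent.Q273.SQ (Lout)

/-- A finite place of the algebraic closure: a nonarchimedean absolute value with value `1/p`
at a prime number `p`. -/
def IsFinitePlace {K : Type} [Field K] (w : AlgebraicClosure K → ℝ) : Prop :=
  ∃ p : ℕ, p.Prime ∧ (∀ x, 0 ≤ w x) ∧ w 0 = 0 ∧ (∀ x y, w (x * y) = w x * w y) ∧
    (∀ x y, w (x + y) ≤ max (w x) (w y)) ∧ w p = (p : ℝ)⁻¹

/-- `E` is semistable over `F` at (the restriction of) `w`: it has a Weierstrass model over `F` with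
coefficients integral at `w` whose discriminant (good reduction) or `c₄` (multiplicative reduction) is
a unit at `w`. -/
def SemistableAt {K : Type} [Field K] (E : WeierstrassCurve K)
    (F : IntermediateField K (AlgebraicClosure K)) (w : AlgebraicClosure K → ℝ) : Prop :=
  ∃ C : WeierstrassCurve.VariableChange F,
    (w (C • E.map (algebraMap K F)).a₁ ≤ 1 ∧ w (C • E.map (algebraMap K F)).a₂ ≤ 1 ∧
      w (C • E.map (algebraMap K F)).a₃ ≤ 1 ∧ w (C • E.map (algebraMap K F)).a₄ ≤ 1 ∧
      w (C • E.map (algebraMap K F)).a₆ ≤ 1) ∧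
    (w (C • E.map (algebraMap K F)).Δ = 1 ∨ w (C • E.map (algebraMap K F)).c₄ = 1)

/-- `F` is totally complex, and all finite places at which `E` is not semistable over `F` lie above
one and the same prime ideal of `N`. -/
def OnePlace {K : Type} [Field K] (E : WeierstrassCurve K)
    (N F : IntermediateField K (AlgebraicClosure K)) : Prop :=
  IsEmpty (F →+* ℝ) ∧ ∀ w u : AlgebraicClosure K → ℝ, IsFinitePlace w → IsFinitePlace u →
    ¬ SemistableAt E F w → ¬ SemistableAt E F u →
    ∀ y : 𝓞 N, (w ((y : N) : AlgebraicClosure K) < 1 ↔ u ((y : N) : AlgebraicClosure K) < 1)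

/-- There is a prime number `l` (`l = 2` if `F` has a real place) such that at every finite place `w`
of `F` the curve `E` acquires semistable reduction over an extension of local degree a power of `l`:
over a finite Galois extension `F'/F` in which the decomposition group of `w` is an `l`-group. -/
def LocalPower {K : Type} [Field K] (E : WeierstrassCurve K)
    (F : IntermediateField K (AlgebraicClosure K)) : Prop :=
  ∃ l : ℕ, l.Prime ∧ (l = 2 ∨ IsEmpty (F →+* ℝ)) ∧
    ∀ w : AlgebraicClosure K → ℝ, IsFinitePlace w →
      ∃ F' : IntermediateField K (AlgebraicClosure K), F ≤ F' ∧ FiniteDimensional K F' ∧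
        (∀ g ∈ F.fixingSubgroup, ∀ x ∈ F', g x ∈ F') ∧ SemistableAt E F' w ∧
        ∀ g ∈ F.fixingSubgroup, (∀ x, w (g x) = w x) → ∃ k : ℕ, ∀ x ∈ F', (g ^ l ^ k) x = x

/-- `L(E, s) ^ m` has a meromorphic continuation to `ℂ`. -/
def PowerContinues {F : Type} [Field F] [NumberField F] (E : WeierstrassCurve F) (m : ℕ) : Prop :=
  ∀ V : HeightOneSpectrum (𝓞 F) → WeierstrassCurve (𝓞 F), MinimalModels E V →
    ∃ f : ℂ → ℂ, MeromorphicOn f Set.univ ∧
      ∀ s : ℂ, 3 / 2 < s.re → f s = Pool.Agent.TH322.BC.Edge.LSeries V s ^ m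

theorem powAll_iff {F : Type} [Field F] [NumberField F] (E : WeierstrassCurve F) (m : ℕ) :
    PowerContinues E m ↔ Pool.Agent.Q5.BR.PowAll E (m : ℤ) := by
  unfold PowerContinues Pool.Agent.Q5.BR.PowAll Pool.Agent.Q5.BR.PowC
  simp only [zpow_natCast]

theorem place_iff {K : Type} [Field K] (w : AlgebraicClosure K → ℝ) :
    IsFinitePlace w ↔ ∃ p : ℕ, p.Prime ∧ Pool.Agent.Q273.SP.IsPl p w := by
  constructor
  · rintro ⟨p, hp, h1, h2, h3, h4, h5⟩
    exact ⟨p, hp, h1, h2, h3, h4, h5⟩
  · rintro ⟨p, hp, h⟩
    exact ⟨p, hp, h.nonneg, h.zero, h.mul, h.add, h.prime⟩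

theorem semi_iff {K : Type} [Field K] [NumberField K] (E : WeierstrassCurve K) (F : IntermediateField K (AlgebraicClosure K))
    (w : AlgebraicClosure K → ℝ) : SemistableAt E F w ↔ Pool.Agent.Q273.SQ.SemiAt E F w := by
  have h1 : ∀ W : WeierstrassCurve F,
      (W.map (algebraMap F (AlgebraicClosure K))).Δ = (W.Δ : AlgebraicClosure K) := fun W =>
    WeierstrassCurve.map_Δ W _
  have h2 : ∀ W : WeierstrassCurve F,
      (W.map (algebraMap F (AlgebraicClosure K))).c₄ = (W.c₄ : AlgebraicClosure K) := fun W =>
    WeierstrassCurve.map_c₄ W _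
  constructor
  · rintro ⟨C, h3, h4⟩
    refine ⟨C, h3, ?_⟩
    rw [h1, h2]
    exact h4
  · rintro ⟨C, h3, h4⟩
    refine ⟨C, h3, ?_⟩
    rw [h1, h2] at h4
    exact h4

theorem one_of {K : Type} [Field K] [NumberField K] (E : WeierstrassCurve K) (N F : IntermediateField K (AlgebraicClosure K))
    (h : Pool.Agent.Q273.SQ.OneE E N F) : OnePlace E N F :=
  ⟨h.1, fun w u hw hu hws hus => h.2 w u ((place_iff w).1 hw) ((place_iff u).1 hu)
    (fun h' => hws ((semi_iff E F w).2 h')) (fun h' => hus ((semi_iff E F u).2 h'))⟩

theorem local_of {K : Type} [Field K] [NumberField K] (E : WeierstrassCurve K) (F : IntermediateField K (AlgebraicClosure K))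
    (h : Pool.Agent.Q273.SQ.PowE E F) : LocalPower E F := by
  obtain ⟨l, hl, hr, h1⟩ := h
  refine ⟨l, hl, hr, fun w hw => ?_⟩
  obtain ⟨F', a1, a2, a3, a4, a5⟩ := h1 w ((place_iff w).1 hw)
  exact ⟨F', a1, a2, a3, (semi_iff E F' w).2 a4, a5⟩

theorem semi_of {K : Type} [Field K] [NumberField K] (E : WeierstrassCurve K) (F : IntermediateField K (AlgebraicClosure K))
    (h : Pool.Agent.Q273.SQ.SemiE E F) : ∀ w, IsFinitePlace w → SemistableAt E F w :=
  fun w hw => (semi_iff E F w).2 (h w ((place_iff w).1 hw))

/-- **Number fields with one bad place suffice.** Let `E` be an elliptic curve over a number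
field `K` (for example `ℚ`) and `N` any finite extension of `K` (a measure of fineness).
1. For every finite extension `F₀` of `K` the function `L(E/F₀, s)` is, up to the Euler factors at finitely many
primes, a product of integral powers of the functions `L(E/F_j, s)` of finitely many number fields
`F_j ⊇ F₀`, each of which is totally complex with all places of non-semistable reduction above one
prime of `N`, or has for a prime number `l` only places at which `E` becomes semistable in local degree a
power of `l`.
2. So if `L(E/F, s)` has a meromorphic continuation for all `F` of these two kinds, it has one for all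
finite extensions `F` of `K`.
3. If `L(E/F, s)` has a meromorphic continuation for all `F` of degree divisible by `M` over `K` such that `F` is totally complex with all places of non-semistable reduction above one prime of `N`, or `E` is
semistable over `F` at all places, then for every finite extension `F` of `K` a power `L(E/F, s) ^ m`, `m > 0`, has
one. -/
theorem result (K : Type) [Field K] [NumberField K] (E : WeierstrassCurve K) (hE : E.IsElliptic)
    (N : IntermediateField K (AlgebraicClosure K)) [NumberField N] :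
    (∀ (F₀ : IntermediateField K (AlgebraicClosure K)) [NumberField F₀],
      ∃ (ι : Type) (_ : Fintype ι) (F : ι → IntermediateField K (AlgebraicClosure K))
        (_ : ∀ j, NumberField (F j)) (n : ι → ℤ),
        (∀ j, F₀ ≤ F j ∧ (OnePlace E N (F j) ∨ LocalPower E (F j))) ∧
        ∀ (V₀ : HeightOneSpectrum (𝓞 F₀) → WeierstrassCurve (𝓞 F₀))
          (V : ∀ j, HeightOneSpectrum (𝓞 (F j)) → WeierstrassCurve (𝓞 (F j))),
          MinimalModels (E.map (algebraMap K F₀)) V₀ →
          (∀ j, MinimalModels (E.map (algebraMap K (F j))) (V j)) →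
          ∃ S : Finset (HeightOneSpectrum (𝓞 K)), ∀ s : ℂ, 3 / 2 < s.re →
            Lout S V₀ s = ∏ j, Lout S (V j) s ^ n j) ∧
    ((∀ (F : IntermediateField K (AlgebraicClosure K)) [NumberField F],
        OnePlace E N F ∨ LocalPower E F → PowerContinues (E.map (algebraMap K F)) 1) →
      ∀ (F : IntermediateField K (AlgebraicClosure K)) [NumberField F],
        PowerContinues (E.map (algebraMap K F)) 1) ∧
    (∀ M : ℕ, 0 < M →
      (∀ (F : IntermediateField K (AlgebraicClosure K)) [NumberField F],
        M ∣ Module.finrank K F →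
        OnePlace E N F ∨ (∀ w, IsFinitePlace w → SemistableAt E F w) →
        PowerContinues (E.map (algebraMap K F)) 1) →
      ∀ (F : IntermediateField K (AlgebraicClosure K)) [NumberField F],
        ∃ m : ℕ, 0 < m ∧ PowerContinues (E.map (algebraMap K F)) m) := by
  have hN : FiniteDimensional K N := inferInstance
  refine ⟨fun F₀ _ => ?_, fun h F₀ _ => ?_, fun M hM h F₀ _ => ?_⟩
  · have hF₀ : FiniteDimensional K F₀ := inferInstance
    obtain ⟨ι, hι, F, n, hF, hrel⟩ := Pool.Agent.Q273.SQ.ec_exact hE N F₀
    have hnf : ∀ j, NumberField (F j) := fun j => by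
      have := (hF j).1
      exact NumberField.of_module_finite K _
    refine ⟨ι, hι, F, hnf, n, fun j => ⟨(hF j).2.1, ?_⟩, fun V₀ V hV₀ hV => ?_⟩
    · rcases (hF j).2.2 with h | h
      · exact Or.inl (one_of E N _ h)
      · exact Or.inr (local_of E _ h)
    · obtain ⟨S, hS⟩ := Pool.Agent.Q273.SQ.lout_rel (m := 1)
        (X := fun j => @Pool.Agent.Q5.BR.Ext.mk K _ _ (F j) _ (hnf j) _)
        (Pool.Agent.Q5.BR.Ext.mk F₀) (fun σ => by rw [one_mul]; exact hrel σ) hE hV₀ hV
      refine ⟨S, fun s hs => ?_⟩
      have h1 := hS s hs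
      rw [zpow_one] at h1
      exact h1
  · have hF₀ : FiniteDimensional K F₀ := inferInstance
    obtain ⟨ι, hι, F, n, hF, hrel⟩ := Pool.Agent.Q273.SQ.ec_exact hE N F₀
    have hnf : ∀ j, NumberField (F j) := fun j => by
      have := (hF j).1
      exact NumberField.of_module_finite K _
    rw [powAll_iff]
    have h1 := Pool.Agent.Q273.SQ.cont_rel (m := 1)
      (X := fun j => @Pool.Agent.Q5.BR.Ext.mk K _ _ (F j) _ (hnf j) _)
      (Pool.Agent.Q5.BR.Ext.mk F₀) (fun σ => by rw [one_mul]; exact hrel σ) hE (fun j => by
        have h2 := h (F j) (by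
          rcases (hF j).2.2 with h | h
          · exact Or.inl (one_of E N _ h)
          · exact Or.inr (local_of E _ h))
        rw [powAll_iff] at h2
        exact_mod_cast h2)
    exact_mod_cast h1
  · have hF₀ : FiniteDimensional K F₀ := inferInstance
    obtain ⟨ι, hι, F, n, m, hm, hF, hrel⟩ := Pool.Agent.Q273.SQ.ec_rational hE hM N F₀
    have hnf : ∀ j, NumberField (F j) := fun j => by
      have := (hF j).1
      exact NumberField.of_module_finite K _
    refine ⟨m, hm, ?_⟩
    rw [powAll_iff]
    exact Pool.Agent.Q273.SQ.cont_rel (m := m)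
      (X := fun j => @Pool.Agent.Q5.BR.Ext.mk K _ _ (F j) _ (hnf j) _)
      (Pool.Agent.Q5.BR.Ext.mk F₀) hrel hE (fun j => by
        have h2 := h (F j) (hF j).2.2.1 (by
          rcases (hF j).2.2.2 with h | h
          · exact Or.inl (one_of E N _ h)
          · exact Or.inr (semi_of E _ h))
        rw [powAll_iff] at h2
        exact_mod_cast h2)

end Pool.Agent.Results.MP_bf9450_nt.OneBadPlace
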