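import Pool.Agent.Q10.Heller.Upper2
import Pool.Agent.Q10.Heller.Lower

/-!
# MP_c07b9b_co — Growth of the shifted Heller constant

We prove that the shifted Heller constant has quadratic growth, `h_s(m) = Θ(m²)`.
-/

set_option autoImplicit false

open Finset Filter Asymptotics

namespace Pool.Agent.Results.MP_c07b9b_co.HellerQuadratic

/-- A real matrix is *totally 1-submodular* if all its minors have absolute value at most `1`.
(A `k × k` submatrix is given by `k` different rows and `k` different columns; their order only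
affects the sign of the determinant.) -/
def TotallyOneSubmodular {m n : ℕ} (M : Matrix (Fin m) (Fin n) ℝ) : Prop :=
  ∀ (k : ℕ) (f : Fin k → Fin m) (g : Fin k → Fin n), Function.Injective f → Function.Injective g →
    |(M.submatrix f g).det| ≤ 1

/-- The matrix `t + A`, whose `j`-th column is `t + A_j`. -/
def shift {m n : ℕ} (t : Fin m → ℝ) (A : Matrix (Fin m) (Fin n) ℤ) : Matrix (Fin m) (Fin n) ℝ :=
  Matrix.of fun i j => t i + (A i j : ℝ)

/-- There are a nonzero vector `t ∈ [0,1)^m` and a matrix `A ∈ {-1,0,1}^{m × n}` with pairwise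
distinct columns such that `t + A` is totally 1-submodular. -/
def Admissible (m n : ℕ) : Prop :=
  ∃ (t : Fin m → ℝ) (A : Matrix (Fin m) (Fin n) ℤ),
    (∀ i, 0 ≤ t i ∧ t i < 1) ∧ t ≠ 0 ∧ (∀ i j, A i j = -1 ∨ A i j = 0 ∨ A i j = 1) ∧
    (∀ j j', (∀ i, A i j = A i j') → j = j') ∧ TotallyOneSubmodular (shift t A)

/-- The shifted Heller constant: the largest `n` such that `Admissible m n`. -/
noncomputable def hs (m : ℕ) : ℕ := sSup {n | Admissible m n}

open Q10.Heller

/-- Minors with repeated rows or columns vanish. -/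
theorem subR_of {m n : ℕ} {t : Fin m → ℝ} {A : Matrix (Fin m) (Fin n) ℤ}
    (h : TotallyOneSubmodular (shift t A)) :
    SubR t (univ.image (fun j : Fin n => fun i => A i j)) := by
  intro k f g hg
  have h1 : ∀ j, ∃ c : Fin n, (fun i => A i c) = g j := by
    intro j
    have := hg j
    rw [mem_image] at this
    obtain ⟨c, _, hc⟩ := this
    exact ⟨c, hc⟩
  choose c hc using h1
  have h2 : (Matrix.of fun i j => t (f i) + (g j (f i) : ℝ)) = (shift t A).submatrix f c := by
    ext i j
    rw [Matrix.of_apply, Matrix.submatrix_apply, shift, Matrix.of_apply, ← hc j]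
  rw [h2]
  by_cases hf : Function.Injective f
  · by_cases hci : Function.Injective c
    · exact h k f c hf hci
    · rw [Function.Injective] at hci
      push Not at hci
      obtain ⟨a, b, hab, hne⟩ := hci
      rw [Matrix.det_zero_of_column_eq hne (fun i => by
        rw [Matrix.submatrix_apply, Matrix.submatrix_apply, hab])]
      simp
  · rw [Function.Injective] at hf
    push Not at hf
    obtain ⟨a, b, hab, hne⟩ := hf
    rw [Matrix.det_zero_of_row_eq hne (by
      funext j
      rw [Matrix.submatrix_apply, Matrix.submatrix_apply, hab])]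
    simp

theorem upper : ∃ C : ℕ, ∀ m : ℕ, 1 ≤ m → ∀ n, Admissible m n → n ≤ C * m ^ 2 := by
  obtain ⟨C, hC⟩ := case_one
  refine ⟨6 + 2 * C, ?_⟩
  rintro m hm n ⟨t, A, ht, _, hent, hcol, hsub⟩
  have h1 := subR_of hsub
  have h2 : (univ.image (fun j : Fin n => fun i => A i j)).card = n := by
    rw [card_image_of_injective, card_univ, Fintype.card_fin]
    intro j j' h
    exact hcol j j' (fun i => congrFun h i)
  have h3 : ∀ x ∈ univ.image (fun j : Fin n => fun i => A i j), ∀ i, -1 ≤ x i ∧ x i ≤ 1 := by
    intro x hx i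
    obtain ⟨j, _, rfl⟩ := mem_image.1 hx
    rcases hent i j with h | h | h <;> dsimp only <;> rw [h] <;> decide
  have h4 : m ≤ m ^ 2 := by nlinarith
  have h5 : 1 ≤ m ^ 2 := by nlinarith
  by_cases h : ∃ i, 1 / 20 ≤ t i ∧ t i ≤ 19 / 20
  · have h6 := hC m t _ h3 h1 h
    rw [h2] at h6
    nlinarith
  · push Not at h
    have h6 := case_two h3 h1 ht (by
      intro i
      by_cases h7 : t i < 1 / 20
      · exact Or.inl h7
      · exact Or.inr (h i (not_lt.1 h7)))
    rw [h2] at h6
    nlinarith

theorem lower {m : ℕ} (hm : 2 ≤ m) : Admissible m (m * m - m) := by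
  obtain ⟨m, rfl⟩ : ∃ m', m = m' + 1 := ⟨m - 1, by omega⟩
  have hcard : ((univ : Finset (Fin (m + 1))).offDiag).card = (m + 1) * (m + 1) - (m + 1) := by
    rw [offDiag_card, card_univ, Fintype.card_fin]
  obtain ⟨n, hn⟩ : ∃ n, n = (m + 1) * (m + 1) - (m + 1) := ⟨_, rfl⟩
  rw [← hn] at hcard ⊢
  have e := ((univ : Finset (Fin (m + 1))).offDiag).equivFinOfCardEq hcard
  obtain ⟨P, hP⟩ : ∃ P : Fin n → Fin (m + 1), P = fun j => (e.symm j).1.1 := ⟨_, rfl⟩
  obtain ⟨Q, hQ⟩ : ∃ Q : Fin n → Fin (m + 1), Q = fun j => (e.symm j).1.2 := ⟨_, rfl⟩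
  have hPQ : ∀ j, P j ≠ Q j := by
    intro j
    have := (e.symm j).2
    rw [mem_offDiag] at this
    rw [hP, hQ]
    exact this.2.2
  have hinj : ∀ j j', P j = P j' → Q j = Q j' → j = j' := by
    intro j j' h1 h2
    rw [hP] at h1
    rw [hQ] at h2
    exact e.symm.injective (Subtype.ext (Prod.ext h1 h2))
  obtain ⟨A, hA⟩ : ∃ A : Matrix (Fin (m + 1)) (Fin n) ℤ, A = Matrix.of fun i j =>
    if i = 0 then 0 else (if i = P j then 1 else 0) - (if i = Q j then 1 else 0) := ⟨_, rfl⟩
  obtain ⟨t, ht⟩ : ∃ t : Fin (m + 1) → ℝ, t = fun i => if i = 0 then 1 / ((m : ℝ) + 1) else 0 :=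
    ⟨_, rfl⟩
  have hm0 : (0 : ℝ) < (m : ℝ) + 1 := by positivity
  have hm1 : (1 : ℝ) < (m : ℝ) + 1 := by
    have : (1 : ℝ) ≤ m := by exact_mod_cast (show 1 ≤ m by omega)
    linarith
  refine ⟨t, A, ?_, ?_, ?_, ?_, ?_⟩
  · intro i
    rw [ht]
    dsimp only
    split_ifs
    · refine ⟨by positivity, ?_⟩
      rw [div_lt_one hm0]
      exact hm1
    · simp
  · intro h
    have := congrFun h 0
    rw [ht] at this
    simp only [if_pos, Pi.zero_apply] at this
    have h2 : (1 : ℝ) / ((m : ℝ) + 1) ≠ 0 := by positivity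
    exact h2 this
  · intro i j
    rw [hA, Matrix.of_apply]
    have h1 := hPQ j
    split_ifs <;> simp
  · intro j j' h
    have h0 : ∀ i, i ≠ 0 → ((i = P j ↔ i = P j') ∧ (i = Q j ↔ i = Q j')) := by
      intro i hi
      have h1 := h i
      rw [hA, Matrix.of_apply, Matrix.of_apply, if_neg hi, if_neg hi] at h1
      by_cases a1 : i = P j
      · have a2 : i ≠ Q j := fun h => hPQ j (a1.symm.trans h)
        rw [if_pos a1, if_neg a2] at h1
        by_cases b1 : i = P j'
        · have b2 : i ≠ Q j' := fun h => hPQ j' (b1.symm.trans h)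
          exact ⟨iff_of_true a1 b1, iff_of_false a2 b2⟩
        · rw [if_neg b1] at h1
          split_ifs at h1 <;> omega
      · by_cases b1 : i = P j'
        · have b2 : i ≠ Q j' := fun h => hPQ j' (b1.symm.trans h)
          rw [if_pos b1, if_neg b2, if_neg a1] at h1
          split_ifs at h1 <;> omega
        · rw [if_neg a1, if_neg b1] at h1
          refine ⟨iff_of_false a1 b1, ?_⟩
          by_cases a2 : i = Q j
          · by_cases b2 : i = Q j'
            · exact iff_of_true a2 b2
            · rw [if_pos a2, if_neg b2] at h1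
              simp at h1
          · by_cases b2 : i = Q j'
            · rw [if_neg a2, if_pos b2] at h1
              simp at h1
            · exact iff_of_false a2 b2
    apply hinj
    · by_cases h1 : P j = 0
      · by_cases h2 : P j' = 0
        · rw [h1, h2]
        · exact (((h0 _ h2).1).2 rfl).symm
      · exact ((h0 _ h1).1).1 rfl
    · by_cases h1 : Q j = 0
      · by_cases h2 : Q j' = 0
        · rw [h1, h2]
        · exact (((h0 _ h2).2).2 rfl).symm
      · exact ((h0 _ h1).2).1 rfl
  · intro k f g hf hg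
    have hrow : ∀ i j, i ≠ 0 → shift t A i j =
        (if i = P j then (1 : ℝ) else 0) - (if i = Q j then (1 : ℝ) else 0) := by
      intro i j hi
      rw [shift, Matrix.of_apply, ht, hA, Matrix.of_apply, if_neg hi]
      dsimp only
      rw [if_neg hi]
      push_cast
      ring
    have hrow0 : ∀ j, shift t A 0 j = 1 / ((m : ℝ) + 1) := by
      intro j
      rw [shift, Matrix.of_apply, ht, hA, Matrix.of_apply, if_pos rfl]
      dsimp only
      rw [if_pos rfl]
      push_cast
      ring
    by_cases h0 : ∃ i, f i = 0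
    · obtain ⟨i, hi⟩ := h0
      obtain ⟨k, rfl⟩ : ∃ k', k = k' + 1 := ⟨k - 1, by have := i.2; omega⟩
      rw [Matrix.det_succ_row _ i]
      refine (abs_sum_le_sum_abs _ _).trans ?_
      have h3 : ∀ j ∈ (univ : Finset (Fin (k + 1))),
          |(-1 : ℝ) ^ ((i : ℕ) + (j : ℕ)) * ((shift t A).submatrix f g) i j *
            (((shift t A).submatrix f g).submatrix i.succAbove j.succAbove).det| ≤
            1 / ((m : ℝ) + 1) := by
        intro j _
        rw [abs_mul, abs_mul, abs_pow, abs_neg, abs_one, one_pow, one_mul, Matrix.submatrix_apply,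
          hi, hrow0, abs_of_pos (by positivity)]
        have h4 := net k (f ∘ i.succAbove) (hf.comp Fin.succAbove_right_injective)
          (P ∘ g ∘ j.succAbove) (Q ∘ g ∘ j.succAbove)
        have h5 : ((shift t A).submatrix f g).submatrix i.succAbove j.succAbove =
            Matrix.of fun a b =>
            (if (f ∘ i.succAbove) a = (P ∘ g ∘ j.succAbove) b then (1 : ℝ) else 0) -
              (if (f ∘ i.succAbove) a = (Q ∘ g ∘ j.succAbove) b then (1 : ℝ) else 0) := by
          ext a b
          rw [Matrix.submatrix_apply, Matrix.submatrix_apply, hrow]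
          · rfl
          · intro h
            exact Fin.succAbove_ne i a (hf (h.trans hi.symm))
        rw [h5]
        exact mul_le_of_le_one_right (by positivity) h4
      refine (sum_le_sum h3).trans ?_
      rw [sum_const, card_univ, Fintype.card_fin, nsmul_eq_mul, mul_one_div, div_le_one hm0]
      have h6 := Fintype.card_le_of_injective f hf
      rw [Fintype.card_fin, Fintype.card_fin] at h6
      exact_mod_cast h6
    · push Not at h0
      have h4 := net k f hf (P ∘ g) (Q ∘ g)
      have h5 : (shift t A).submatrix f g = Matrix.of fun a b =>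
          (if f a = (P ∘ g) b then (1 : ℝ) else 0) -
            (if f a = (Q ∘ g) b then (1 : ℝ) else 0) := by
        ext a b
        rw [Matrix.submatrix_apply, hrow _ _ (h0 a)]
        rfl
      rw [h5]
      exact h4

/-- **MP_c07b9b_co.** For every `m ≥ 1` the shifted Heller constant `hs m` is the largest `n` for
which `Admissible m n` holds, and `hs m = Θ(m²)` as `m → ∞`. -/
theorem result : (∀ m : ℕ, 1 ≤ m → IsGreatest {n | Admissible m n} (hs m)) ∧
    (fun m : ℕ => (hs m : ℝ)) =Θ[atTop] (fun m : ℕ => (m : ℝ) ^ 2) := by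
  obtain ⟨C, hC⟩ := upper
  have hne : ∀ m : ℕ, 1 ≤ m → {n | Admissible m n}.Nonempty := by
    intro m hm
    refine ⟨0, fun _ => 1 / 2, 0, ?_, ?_, ?_, ?_, ?_⟩
    · intro i
      norm_num
    · intro h
      have := congrFun h ⟨0, hm⟩
      norm_num at this
    · intro i j
      exact j.elim0
    · intro j
      exact j.elim0
    · intro k f g _ hg
      obtain rfl | hk := Nat.eq_zero_or_pos k
      · rw [Matrix.det_fin_zero]
        simp
      · exact (g ⟨0, hk⟩).elim0
  have hbdd : ∀ m : ℕ, 1 ≤ m → BddAbove {n | Admissible m n} := fun m hm =>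
    ⟨C * m ^ 2, fun n hn => hC m hm n hn⟩
  have hgr : ∀ m : ℕ, 1 ≤ m → IsGreatest {n | Admissible m n} (hs m) := fun m hm =>
    ⟨Nat.sSup_mem (hne m hm) (hbdd m hm), fun n hn => le_csSup (hbdd m hm) hn⟩
  refine ⟨hgr, ?_, ?_⟩
  · apply IsBigO.of_bound (C : ℝ)
    filter_upwards [eventually_ge_atTop 1] with m hm
    rw [Real.norm_of_nonneg (by positivity), Real.norm_of_nonneg (by positivity)]
    have := hC m hm _ (hgr m hm).1
    exact_mod_cast this
  · apply IsBigO.of_bound 2
    filter_upwards [eventually_ge_atTop 2] with m hm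
    rw [Real.norm_of_nonneg (by positivity), Real.norm_of_nonneg (by positivity)]
    have h1 := (hgr m (by omega)).2 (lower hm)
    have h2 : m ^ 2 ≤ 2 * hs m := by
      have h3 : m * m - m ≤ hs m := h1
      have h4 : m ≤ m * m := by nlinarith
      have h5 : 2 * m ≤ m * m := by nlinarith
      have h6 : m ^ 2 = m * m := sq m
      omega
    exact_mod_cast h2

end Pool.Agent.Results.MP_c07b9b_co.HellerQuadratic
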