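import Pool.Agent.Q26.CP.AllFour
import Pool.Agent.Q26.CP.Four

/-!
# The numerical Hodge standard conjecture for abelian varieties in almost all characteristics

Consider triples `(A, L, α)` of a bounded type `t`: `A` is an abelian variety of dimension `g` over an
algebraically closed field, `L` an ample class of given degree, and `α = Z₁ - Z₂` with `Z₁`, `Z₂`
effective of codimension `n ≤ g/2` and given degree. Say that `α` is `M`-primitive if
`α · L^{g-2n+1} · β = 0` for all effective cycles `β` of codimension `n - 1` and degree at most `M`, and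
`m`-nontrivial if `α · β ≠ 0` for some effective `β` of codimension `g - n` and degree at most `m`. So
`α` is primitive modulo numerical equivalence iff it is `M`-primitive for all `M`, and it is not
numerically trivial iff it is `m`-nontrivial for some `m`.

1. For all `t` and `m` there is an `M` such that over all algebraically closed fields of
   characteristic zero and over `F̄_p` for all but finitely many primes `p`: if `α` is `M`-primitive and
   `m`-nontrivial, then `(-1)^n α · α · L^{g-2n} > 0`. In particular, for all but finitely many `p` the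
   form is positive on all primitive `α` of type `t` over `F̄_p`, and over all fields of
   characteristic `p`, which are `m`-nontrivial.
2. The conjecture for all abelian varieties over algebraically closed fields of characteristic `p` is
   equivalent to: for all `t` and `m` there is an `M` such that the implication in 1 holds over
   `F̄_p`. So it implies that the primitivity needed for positivity can be tested by cycles of bounded
   degree.
3. The conjecture over all algebraically closed fields is equivalent to: for all `t` and `m` there is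
   an `M` such that the implication holds over `F̄_p` for all primes `p`.
-/

set_option autoImplicit false

namespace Pool.Agent.Results.MP_c0b458_ag.AlmostAllCharacteristics

open Pool.Agent.Q26.CP

/-- The triples `(A, L, α)` of an abelian variety over an algebraically closed field `K`, an ample
class and a cycle of codimension at most half of the dimension. There are bounded types `t : Ty`; the
triples of type `t` over `K` are parametrized by the points of `K ^ k t` with the property
`isTriple t`. The properties `prim t M` (`α` is `M`-primitive), `nontrivial t m` (`α` is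
`m`-nontrivial) and `pos t` (`(-1)^n α · α · L^{g-2n} > 0`) are first-order properties of the parameters
(intersection numbers are locally constant in families). `Primitive` and `NumTrivial` say that `α` is
primitive, numerically trivial.

`hodge` is the conjecture in characteristic zero, where it follows from the Hodge-Riemann bilinear
relations and the theorem of Lieberman. -/
structure Triples where
  Ty : Type
  k : Ty → ℕ
  isTriple : ∀ t, Pred (k t)
  prim : ∀ t, ℕ → Pred (k t)
  nontrivial : ∀ t, ℕ → Pred (k t)
  pos : ∀ t, Pred (k t)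
  fo_isTriple : ∀ t, IsFirstOrder (isTriple t)
  fo_prim : ∀ t M, IsFirstOrder (prim t M)
  fo_nontrivial : ∀ t m, IsFirstOrder (nontrivial t m)
  fo_pos : ∀ t, IsFirstOrder (pos t)
  prim_anti : ∀ t (m n : ℕ), m ≤ n → ∀ (K : Type) [Field K] (x : Fin (k t) → K),
    prim t n K x → prim t m K x
  Primitive : ∀ (K : Type) [Field K] (t : Ty), (Fin (k t) → K) → Prop
  NumTrivial : ∀ (K : Type) [Field K] (t : Ty), (Fin (k t) → K) → Prop
  primitive_iff : ∀ (K : Type) [Field K] [IsAlgClosed K] (t : Ty) (x : Fin (k t) → K),
    isTriple t K x → (Primitive K t x ↔ ∀ M, prim t M K x)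
  numTrivial_iff : ∀ (K : Type) [Field K] [IsAlgClosed K] (t : Ty) (x : Fin (k t) → K),
    isTriple t K x → (NumTrivial K t x ↔ ∀ m, ¬ nontrivial t m K x)
  hodge : ∀ (K : Type) [Field K] [IsAlgClosed K] [CharZero K] (t : Ty) (x : Fin (k t) → K),
    isTriple t K x → Primitive K t x → ¬ NumTrivial K t x → pos t K x

/-- the numerical Hodge standard conjecture for all abelian varieties over `K` -/
def HodgeStandard (T : Triples) (K : Type) [Field K] : Prop :=
  ∀ (t : T.Ty) (x : Fin (T.k t) → K), T.isTriple t K x → T.Primitive K t x →
    ¬ T.NumTrivial K t x → T.pos t K x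

/-- for all triples of type `t` over `K`: if `α` is `M`-primitive and `m`-nontrivial then
`(-1)^n α · α · L^{g-2n} > 0` -/
def Positive (T : Triples) (t : T.Ty) (m M : ℕ) (K : Type) [Field K] : Prop :=
  ∀ x : Fin (T.k t) → K, T.isTriple t K x → T.prim t M K x → T.nontrivial t m K x → T.pos t K x

/-- the conjecture for given `t` and `m` as a `Problem` -/
def Triples.problem (T : Triples) (t : T.Ty × ℕ) : Problem where
  k := T.k t.1
  hyp M := fun K _ x => T.isTriple t.1 K x ∧ (T.prim t.1 M K x ∧ T.nontrivial t.1 t.2 K x)
  con _ := T.pos t.1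
  fo_hyp M := (T.fo_isTriple t.1).and ((T.fo_prim t.1 M).and (T.fo_nontrivial t.1 t.2))
  fo_con _ := T.fo_pos t.1
  hyp_anti m n h K _ x hx := ⟨hx.1, T.prim_anti t.1 m n h K x hx.2.1, hx.2.2⟩
  con_mono _ _ _ _ _ _ h := h

theorem uniform_iff (T : Triples) (t : T.Ty × ℕ) (M : ℕ) (K : Type) [Field K] :
    (T.problem t).Uniform M K ↔ Positive T t.1 t.2 M K :=
  ⟨fun h x h1 h2 h3 => h x ⟨h1, h2, h3⟩, fun h x hx => h x hx.1 hx.2.1 hx.2.2⟩

theorem hodgeStandard_iff (T : Triples) (K : Type) [Field K] [IsAlgClosed K] :
    HodgeStandard T K ↔ ∀ t, (T.problem t).Solved K := by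
  constructor
  · intro h t x hx
    refine ⟨0, h t.1 x (hx 0).1 ?_ ?_⟩
    · exact (T.primitive_iff K t.1 x (hx 0).1).2 fun M => (hx M).2.1
    · exact fun h1 => (T.numTrivial_iff K t.1 x (hx 0).1).1 h1 t.2 (hx 0).2.2
  · intro h t x h1 h2 h3
    rw [T.numTrivial_iff K t x h1] at h3
    push Not at h3
    obtain ⟨m, hm⟩ := h3
    obtain ⟨_, h4⟩ := h (t, m) x fun M => ⟨h1, (T.primitive_iff K t x h1).1 h2 M, hm⟩
    exact h4

/-- 1: for all `t` and `m` there is an `M` such that all `M`-primitive and `m`-nontrivial `α` of type
`t` over all algebraically closed fields of characteristic zero, and over `F̄_p` for all but finitely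
many `p`, have positive norm; so for all but finitely many `p` this is true for all primitive
`m`-nontrivial `α` of type `t` over all algebraically closed fields of characteristic `p`. 2 and 3: the
numerical Hodge standard conjecture in characteristic `p`, in all characteristics, is equivalent to
the existence of such an `M` for all `t` and `m`, for `F̄_p`, for all `F̄_p` simultaneously. -/
theorem result (T : Triples) :
    (∀ (t : T.Ty) (m : ℕ), ∃ M,
      (∀ (K : Type) [Field K] [IsAlgClosed K] [CharZero K], Positive T t m M K) ∧
      {p : Nat.Primes | ¬ Positive T t m M (Fbar p)}.Finite) ∧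
    (∀ (t : T.Ty) (m : ℕ), {p : Nat.Primes | ¬ ∀ (K : Type) [Field K] [IsAlgClosed K] [CharP K p]
      (x : Fin (T.k t) → K), T.isTriple t K x → T.Primitive K t x → T.nontrivial t m K x →
        T.pos t K x}.Finite) ∧
    (∀ p : Nat.Primes, (∀ (K : Type) [Field K] [IsAlgClosed K] [CharP K p], HodgeStandard T K) ↔
      ∀ (t : T.Ty) (m : ℕ), ∃ M, Positive T t m M (Fbar p)) ∧
    ((∀ (K : Type) [Field K] [IsAlgClosed K], HodgeStandard T K) ↔
      ∀ (t : T.Ty) (m : ℕ), ∃ M, ∀ p : Nat.Primes, Positive T t m M (Fbar p)) := by
  have h1 : ∀ (t : T.Ty) (m : ℕ), ∃ M,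
      (∀ (K : Type) [Field K] [IsAlgClosed K] [CharZero K], Positive T t m M K) ∧
      {p : Nat.Primes | ¬ Positive T t m M (Fbar p)}.Finite := by
    intro t m
    have h2 : (T.problem (t, m)).Solved ℂ :=
      (hodgeStandard_iff T ℂ).1 (fun t x hx h3 h4 => T.hodge ℂ t x hx h3 h4) (t, m)
    obtain ⟨M, hM⟩ : ∃ M, ∀ (K : Type) [Field K] [IsAlgClosed K] [CharZero K],
      (T.problem (t, m)).Uniform M K := ((T.problem (t, m)).tfae.out 0 2).1 h2
    refine ⟨M, fun K _ _ _ => (uniform_iff T (t, m) M K).1 (hM K), ?_⟩
    have h3 := ((T.problem (t, m)).uniform_iff_finite M ℂ).1 (hM ℂ)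
    simpa only [uniform_iff] using h3
  refine ⟨h1, fun t m => ?_, fun p => ?_, ?_⟩
  · obtain ⟨M, -, hM⟩ := h1 t m
    refine hM.subset fun p hp hpos => hp ?_
    intro K _ _ _ x h2 h3 h4
    have h5 : (T.problem (t, m)).Uniform M K :=
      (((T.problem (t, m)).fo M).holdsOver_iff p (Or.inl p.2) (Fbar p) K).1
        ((uniform_iff T (t, m) M (Fbar p)).2 hpos)
    exact (uniform_iff T (t, m) M K).1 h5 x h2 ((T.primitive_iff K t x h2).1 h3 M) h4
  · rw [char_iff T.problem (HodgeStandard T) (fun K _ _ => hodgeStandard_iff T K)
      (fun t M p => Positive T t.1 t.2 M (Fbar p)) (fun t M p => uniform_iff T t M (Fbar p)) p]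
    exact ⟨fun h t m => h (t, m), fun h t => h t.1 t.2⟩
  · rw [all_iff T.problem (HodgeStandard T) (fun K _ _ => hodgeStandard_iff T K)
      (fun t M p => Positive T t.1 t.2 M (Fbar p)) (fun t M p => uniform_iff T t M (Fbar p))]
    exact ⟨fun h t m => h (t, m), fun h t => h t.1 t.2⟩

end Pool.Agent.Results.MP_c0b458_ag.AlmostAllCharacteristics
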