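import Pool.Agent.Q59.TC.Fro

/-!
# The Hodge standard conjecture for `A × J(C) ^ n`, `C` a random Galois cover

Let `A` be an abelian variety over a finite field `𝔽` of characteristic `p`, and let `G` be a finite group
of order prime to `p`. Let `𝒮 → B` be a family of smooth projective curves of genus `g ≥ 0` with disjoint
sections `a_1, ..., a_r`, over a smooth geometrically connected scheme `B` of finite type over `𝔽` which
dominates the moduli space of `r`-pointed curves, and `𝒞 → 𝒮` a family of Galois covers with the group
`G`, ramified only over the `a_j`, with ramification indices which divide `N`. For a closed point `b` of `B`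
let `C` be the fibre of `𝒞` at `b`, a curve over the residue field of `b`, which has `q` elements, and
let `X = A × J(C) ^ n`, with the sum of polarizations of the factors as polarization. The results hold for
all closed points `b` outside a set of density zero, for the cycles over the residue field and over its
finite extensions. (The signature of the form of the question does not depend on the polarization: the
polarizations form a convex cone, and by hard Lefschetz the form is nondegenerate for all of them.)

**Exotic classes.** `H ^ 1 (C)` is the direct sum of the `χ ⊗ V_χ`, where `χ` runs through the irreducible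
representations of `G` and `V_χ` is the first cohomology of a local system on the pointed curve; the
determinants of the `V_χ` of complex type give Weil classes on the powers of `J(C)`, which are not
generated by divisors and whose codimension tends to infinity with the genus.

**Parts.** The notation for local systems and the facts about the Frobenius are those of
`MP_0f183b_ag.RandomCoversTimesVarieties`: the letters are eigenvectors of the Frobenius, and form bases of
the spaces `V_i`, `π` are the eigenvalues of the letters, `Λ` is the set of the eigenvalues of the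
Frobenius on the cohomology of `A`; for all `b` outside a set of density zero the Frobenius torus
contains a maximal torus of the automorphism group `D` of the spaces `V_i` (Serre; Chi; monodromy:
Boggi, Looijenga, Landesman, Litt, Sawin), which acts trivially on the cohomology of `A`, and this
gives the structure `Frobenius`. All cycles are considered modulo numerical equivalence and with complex
coefficients. The motive of `J(C)` is the tensor product, over the pairs of dual letters `x`, `x̄` of the
spaces `V_χ` (with the multiplicity `dim χ`), of `(1 + L) + M_x + M_x̄`, where `M_x` is a motive of rank one,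
and the class of the polarization is a positive combination of the classes of the factors `L`. So the space `V c` of the primitive cycles
of codimension `c` on `X` is the orthogonal sum of spaces of primitive cycles of the motives
`h(A × (ℙ ^ 1) ^ m) ⊗ M_w`, where `w` is a word and `M_w` the tensor product of the motives of its letters
(`parts`, `indices`); `form` is the hermitian form `(x, y) ↦ (-1) ^ c x · ȳ · L ^ (dim X - 2 c)`. The
Frobenius acts on the cycles as a power of `q`, and the product of the `F - α π_w`, `α ∈ Λ`, annihilates the
motive. Suppose that `w` consists of pairs and full blocks (all letters of a space `V_(μ j)` once). Then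
`M_w` is a Tate twist of the motive of rank one `M_u` of a Fermat variety which belongs to the character
`u = exAll μ` (Schoen; Brauer), and the hermitian forms of both agree up to a positive number: the form of
a pair is positive (Weil), the blocks and the isomorphism lift to characteristic zero with the cover (for
cyclic covers of the projective line it is the pull-back by a morphism from `C ^ d` to a quotient of the
Fermat variety), where both forms satisfy the Hodge-Riemann relations. So the form is positive for
`w` if it is positive for `h(A × (ℙ ^ 1) ^ m) ⊗ M_u` (`F c m u`); if `u` is empty this is the form of the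
primitive cycles on `A × (ℙ ^ 1) ^ m` (`Z c m`), and if `u` is the character of an algebraic line it is
this form times the sign `ε u` of the line. The signs of the algebraic lines on Fermat varieties have
the properties of `Signs` (see `MP_ffcd14_ag.FermatPositivity`: Hodge index theorem, Hodge-Riemann
relations for classes which lift, Shioda and Katsura). These facts form the structure `Positivity`.

**The theorem.** The Hodge standard conjecture holds for `A × J(C) ^ n`, for all `n`, in the following
cases.

(1) It holds for the products of `A` with projective lines and Fermat varieties of degree `N`.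

(2) It holds for `A`, and the covers are unramified. (It holds for `A × (ℙ ^ 1) ^ m` if it holds for `A`, by the
theorem of Lefschetz and the theory of representations of `sl_2`.)

(3) It holds for `A`, the cohomology of `A` contains no nontrivial Weil numbers of Fermat type
(`IntegralSlopes`), and `N ≤ 54`, or `N` is a `GoodDegree`, or a power of `p` is minus one modulo all odd
primes dividing `N`.

In particular **the conjecture holds for all powers of the Jacobians of almost all unramified covers, and
of almost all covers with ramification indices dividing a number `N` as in (3)**, for all groups of order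
prime to `p`, in every characteristic `p`.
-/

namespace Pool.Agent.Results.MP_c0b458_ag.RandomCoversPositivity

open Pool.Agent.Q59.GC Pool.Agent.Q59.TC Pool.Agent.Q59.TC.Sys Pool.Agent.Q59.TC.Res
  Pool.Agent.Q59.TC.Fro
open Pool.Agent.H916T (SurfaceTate Standard)

/-- The properties of the signs of the hermitian form on the lines of algebraic classes on Fermat
varieties in characteristic `p`. -/
structure Signs (p : ℕ) (A : ∀ M : ℕ, Multiset (ZMod M) → Prop)
    (ε : ∀ M : ℕ, Multiset (ZMod M) → ℤˣ) : Prop where
  /-- the entries of the characters are not zero -/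
  ne : ∀ M, 0 < M → p.Coprime M → ∀ s, A M s → (0 : ZMod M) ∉ s
  /-- pairs -/
  pair : ∀ M, 0 < M → p.Coprime M → ∀ a : ZMod M, a ≠ 0 → ε M {a, -a} = 1
  /-- surfaces (Hodge index theorem) -/
  surface : ∀ M, 0 < M → p.Coprime M → ∀ s, SurfaceTate p M s → ε M s = 1
  /-- standard characters (Hodge-Riemann relations in characteristic zero) -/
  standard : ∀ M, 0 < M → p.Coprime M → ∀ q : ℕ, q.Prime → q ∣ M → ∀ s, Standard q M s → ε M s = 1
  /-- algebraic lines in characteristic zero (Hodge-Riemann relations) -/
  hodge : ∀ M, 0 < M → p.Coprime M → ∀ s, Pool.Agent.H916R2.IsHodge M s → s ≠ 0 →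
    AlgebraicLine M s → ε M s = 1
  /-- unions -/
  join : ∀ M, 0 < M → p.Coprime M → ∀ s t, A M s → A M t → ε M (s + t) = ε M s * ε M t
  /-- pull-back -/
  level : ∀ M N, 0 < M → 0 < N → p.Coprime M → p.Coprime N → ∀ s : Multiset (ZMod M), A M s →
    ε (N * M) (s.map fun a => ((N * a.val : ℕ) : ZMod (N * M))) = ε M s

/-- A space of primitive cycles with a hermitian form and the operator of the Frobenius. -/
structure Part where
  V : Type
  [addV : AddCommGroup V]
  [modV : Module ℂ V]
  form : V → V → ℂ
  frob : V →ₗ[ℂ] V

attribute [instance] Part.addV Part.modV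

/-- The form is positive definite. -/
def Part.Good (P : Part) : Prop := ∀ x : P.V, x ≠ 0 → 0 < (P.form x x).re

/-- The primitive cycles `V c` on `X = A × J(C) ^ n` with the hermitian form, decomposed orthogonally into
the `parts`, where the part of the index `j` belongs to the motive `h(A × (ℙ ^ 1) ^ (lines j)) ⊗ M_w`,
`w = word j`, in codimension `c`; the parts `F c m u` of the Fermat characters `u`, and `Z c m`. The Frobenius
acts on the cycles as `q ^ c`, a power of the product of the `F - α π_w` is zero; the form of a
decomposed word is positive if those of the Fermat character are positive; the forms of the empty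
character and of algebraic lines of sign one are positive if those of `A × (ℙ ^ 1) ^ m` are positive. -/
structure Positivity {N : ℕ} {I : Type} {S : LocalSystems N I} {p : ℕ} (Φ : Frobenius S p)
    (A : ∀ M : ℕ, Multiset (ZMod M) → Prop) (ε : ∀ M : ℕ, Multiset (ZMod M) → ℤˣ) where
  V : ℕ → Type
  [addV : ∀ c, AddCommGroup (V c)]
  [modV : ∀ c, Module ℂ (V c)]
  form : ∀ c, V c → V c → ℂ
  J : ℕ → Type
  [finJ : ∀ c, Fintype (J c)]
  lines : ∀ {c}, J c → ℕ
  len : ∀ {c}, J c → ℕ
  word : ∀ {c} (j : J c), Fin (len j) → Letter S.labels
  part : ∀ {c}, J c → Part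
  F : ℕ → ℕ → Multiset (ZMod N) → Part
  Z : ℕ → ℕ → Part
  parts : ∀ c, V c ≃ₗ[ℂ] ∀ j : J c, (part j).V
  orthogonal : ∀ c x, form c x x = ∑ j : J c, (part j).form (parts c x j) (parts c x j)
  form_zero : ∀ {c} (j : J c), (part j).form 0 0 = 0
  scalar : ∀ {c} (j : J c) (x : (part j).V), (part j).frob x = (Φ.q : ℂ) ^ c • x
  nilpotent : ∀ {c} (j : J c), ∃ m : ℕ, Polynomial.aeval (part j).frob
    ((∏ α ∈ Φ.Λ, (Polynomial.X - Polynomial.C ((α : ℂ) * ∏ k, (Φ.π (word j k) : ℂ)))) ^ m) = 0
  decomposed : ∀ {c} (j : J c) (l r : ℕ) (μ : Fin l → I)
    (e : (Σ i : Fin l, Fin (S.labels.dim (μ i))) ⊕ (Fin r × Fin 2) ≃ Fin (len j)),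
    IsDecomposed (word j) μ e → (∀ c', (F c' (lines j) (exAll S.labels μ)).Good) → (part j).Good
  empty : (∀ c m, (Z c m).Good) → ∀ c m, (F c m 0).Good
  line : ∀ u : Multiset (ZMod N), A N u → ε N u = 1 → (∀ c m, (Z c m).Good) → ∀ c m, (F c m u).Good

attribute [instance] Positivity.addV Positivity.modV Positivity.finJ

section

variable {N : ℕ} {I : Type} {S : LocalSystems N I} {p : ℕ} {Φ : Frobenius S p}
  {A : ∀ M : ℕ, Multiset (ZMod M) → Prop} {ε : ∀ M : ℕ, Multiset (ZMod M) → ℤˣ}

/-- the Hodge standard conjecture for `X = A × J(C) ^ n` -/
def Positivity.HoldsX (T : Positivity Φ A ε) : Prop := ∀ c (x : T.V c), x ≠ 0 → 0 < (T.form c x x).re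

/-- the Hodge standard conjecture for the varieties `A × (ℙ ^ 1) ^ m` -/
def Positivity.HoldsZ (T : Positivity Φ A ε) : Prop := ∀ c m, (T.Z c m).Good

/-- the Hodge standard conjecture for the products of `A × (ℙ ^ 1) ^ m` with Fermat varieties -/
def Positivity.HoldsF (T : Positivity Φ A ε) : Prop := ∀ c m u, (T.F c m u).Good

/-- the algebraic lines of sign one form an admissible family -/
lemma positive_admissible (hA : Admissible p A) (hε : Signs p A ε) :
    Admissible p fun M s => A M s ∧ ε M s = 1 where
  pair M hM hpM a ha := ⟨hA.pair M hM hpM a ha, hε.pair M hM hpM a ha⟩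
  surface M hM hpM s hs := ⟨hA.surface M hM hpM s hs, hε.surface M hM hpM s hs⟩
  standard M hM hpM q hq hqM s hs := ⟨hA.standard M hM hpM q hq hqM s hs,
    hε.standard M hM hpM q hq hqM s hs⟩
  hodge M hM hpM s hs hne h := ⟨hA.hodge M hM hpM s hs hne h, hε.hodge M hM hpM s hs hne h⟩
  join M hM hpM s t hs ht := ⟨hA.join M hM hpM s t hs.1 ht.1, by
    rw [hε.join M hM hpM s t hs.1 ht.1, hs.2, ht.2, one_mul]⟩
  cancel M hM hpM a s h := by
    have h1 : A M s := hA.cancel M hM hpM a s h.1
    refine ⟨h1, ?_⟩
    by_cases ha : a = 0
    · exact absurd (hε.ne M hM hpM _ h.1) (by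
        rw [ha]; exact not_not.mpr (Multiset.mem_cons_self _ _))
    · have h2 := hε.join M hM hpM {a, -a} s (hA.pair M hM hpM a ha) h1
      rw [hε.pair M hM hpM a ha, one_mul, Multiset.insert_eq_cons, Multiset.cons_add,
        Multiset.singleton_add] at h2
      rw [← h2]
      exact h.2
  descend M N hM hN hpM hpN s h := by
    have h1 := hA.descend M N hM hN hpM hpN s h.1
    exact ⟨h1, by rw [← hε.level M N hM hN hpM hpN s h1]; exact h.2⟩

/-- without a resonance the part is zero -/
lemma good_of_no_resonance (T : Positivity Φ A ε) {c : ℕ} (j : T.J c)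
    (h : ¬ ∃ α ∈ Φ.Λ, α * ∏ k, Φ.π (T.word j k) = (Φ.q : Ints) ^ c) : (T.part j).Good := by
  push Not at h
  obtain ⟨m, hm⟩ := T.nilpotent j
  intro x hx
  refine absurd ?_ hx
  have h2 : Polynomial.aeval (T.part j).frob
    ((∏ α ∈ Φ.Λ, (Polynomial.X - Polynomial.C ((α : ℂ) * ∏ k, (Φ.π (T.word j k) : ℂ)))) ^ m) x = 0 := by
    rw [hm, LinearMap.zero_apply]
  rw [aeval_eigen _ _ _ (T.scalar j x)] at h2
  refine (smul_eq_zero.mp h2).resolve_left ?_
  rw [Polynomial.eval_pow, Polynomial.eval_prod]
  refine pow_ne_zero _ (Finset.prod_ne_zero_iff.mpr fun α hα => ?_)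
  rw [Polynomial.eval_sub, Polynomial.eval_X, Polynomial.eval_C, sub_ne_zero]
  intro h3
  refine h α hα (Subtype.ext ?_)
  push_cast
  exact h3.symm

/-- positivity of all parts is positivity -/
lemma holdsX_of_parts (T : Positivity Φ A ε) (h : ∀ c (j : T.J c), (T.part j).Good) : T.HoldsX := by
  classical
  intro c x hx
  rw [T.orthogonal, Complex.re_sum]
  have hnn : ∀ j : T.J c, 0 ≤ ((T.part j).form (T.parts c x j) (T.parts c x j)).re := by
    intro j
    by_cases hj : T.parts c x j = 0
    · rw [hj, T.form_zero, Complex.zero_re]
    · exact (h c j _ hj).le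
  have hex : ∃ j : T.J c, T.parts c x j ≠ 0 := by
    by_contra hcon
    push Not at hcon
    exact hx ((T.parts c).map_eq_zero_iff.mp (funext hcon))
  obtain ⟨j, hj⟩ := hex
  exact Finset.sum_pos' (fun j _ => hnn j) ⟨j, Finset.mem_univ j, h c j _ hj⟩

end

/-- **The Hodge standard conjecture for the products of an abelian variety with powers of the Jacobians
of random covers of pointed curves over finite fields.** -/
theorem result (p : ℕ) (hp : p.Prime) (N : ℕ) [NeZero N] (hpN : p.Coprime N) (I : Type) [Fintype I]
    (S : LocalSystems N I) (Φ : Frobenius S p) (A : ∀ M : ℕ, Multiset (ZMod M) → Prop)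
    (ε : ∀ M : ℕ, Multiset (ZMod M) → ℤˣ) (hA : Admissible p A) (hε : Signs p A ε)
    (T : Positivity Φ A ε) :
    (T.HoldsF → T.HoldsX) ∧
    ((∀ i, S.ex i = 0) → T.HoldsZ → T.HoldsX) ∧
    (IntegralSlopes Φ → KnownDegree p N → T.HoldsZ → T.HoldsX) := by
  refine ⟨fun hF => holdsX_of_parts T fun c j => ?_, fun hex hZ => holdsX_of_parts T fun c j => ?_,
    fun hInt hN hZ => holdsX_of_parts T fun c j => ?_⟩
  · by_cases h : ∃ α ∈ Φ.Λ, α * ∏ k, Φ.π (T.word j k) = (Φ.q : Ints) ^ c
    · obtain ⟨-, l, r, μ, e, hdec, -⟩ := Φ.resonance hp hpN c _ (T.word j) h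
      exact T.decomposed j l r μ e hdec fun c' => hF c' _ _
    · exact good_of_no_resonance T j h
  · by_cases h : ∃ α ∈ Φ.Λ, α * ∏ k, Φ.π (T.word j k) = (Φ.q : Ints) ^ c
    · obtain ⟨-, l, r, μ, e, hdec, -⟩ := Φ.resonance hp hpN c _ (T.word j) h
      refine T.decomposed j l r μ e hdec fun c' => ?_
      have h0 : exAll S.labels μ = 0 := Finset.sum_eq_zero fun i _ => hex (μ i)
      rw [h0]
      exact T.empty hZ c' _
    · exact good_of_no_resonance T j h
  · by_cases h : ∃ α ∈ Φ.Λ, α * ∏ k, Φ.π (T.word j k) = (Φ.q : Ints) ^ c
    · obtain ⟨-, l, r, μ, e, hdec, hl⟩ := Φ.resonance hp hpN c _ (T.word j) h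
      have h1 := hl hInt hN _ (positive_admissible hA hε)
      exact T.decomposed j l r μ e hdec fun c' => T.line _ h1.1 h1.2 hZ c' _
    · exact good_of_no_resonance T j h

end Pool.Agent.Results.MP_c0b458_ag.RandomCoversPositivity
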