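import Mathlib

/-!
# MP_c0ccbe_al: a 4-transitive group that is not 3-set primitive

We build a generic system of blocks (4-element sets of natural numbers, each with exactly one odd
element, two of them meeting in at most two points).  The even numbers are the points, the odd
numbers are the names of the classes of 3-sets of points: two 3-sets are equivalent when they form
a block with the same odd number.  The group of all permutations of the points preserving this
equivalence relation is 4-transitive.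
-/

namespace Pool.Agent.Results.MP_c0ccbe_al.ParallelTriples

open Finset

/-! ### Definitions -/

/-- The set `X^(t)` of `t`-element subsets of `X`. -/
abbrev TSet (X : Type) (t : ℕ) : Type := {s : Finset X // s.card = t}

/-- The action of a permutation on `X^(t)`. -/
def act {X : Type} {t : ℕ} (g : Equiv.Perm X) (s : TSet X t) : TSet X t :=
  ⟨s.1.map g.toEmbedding, by rw [card_map]; exact s.2⟩

/-- `G` is transitive on ordered `k`-tuples of distinct points. -/
def TransitiveOnTuples {X : Type} (G : Subgroup (Equiv.Perm X)) (k : ℕ) : Prop :=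
  ∀ a b : Fin k → X, Function.Injective a → Function.Injective b → ∃ g ∈ G, ∀ i, g (a i) = b i

/-- `G` is `t`-set primitive: its action on `X^(t)` is transitive and preserves no equivalence
relation except the two trivial ones. -/
def SetPrimitive {X : Type} (G : Subgroup (Equiv.Perm X)) (t : ℕ) : Prop :=
  (∀ s s' : TSet X t, ∃ g ∈ G, act g s = s') ∧
    ∀ r : Setoid (TSet X t), (∀ g ∈ G, ∀ s s', r s s' → r (act g s) (act g s')) →
      (∀ s s', r s s' → s = s') ∨ ∀ s s', r s s'

/-- `S` is a block of imprimitivity of `G` on `X^(t)`. -/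
def IsImprimitivityBlock {X : Type} {t : ℕ} (G : Subgroup (Equiv.Perm X)) (S : Set (TSet X t)) :
    Prop :=
  S.Nontrivial ∧ S ≠ Set.univ ∧ ∀ g ∈ G, act g '' S = S ∨ Disjoint (act g '' S) S

/-- `S` is a partition of `X`: every point lies in exactly one member of `S`. -/
def IsPartitionOf {X : Type} {t : ℕ} (S : Set (TSet X t)) : Prop := ∀ x : X, ∃! s, s ∈ S ∧ x ∈ s.1

/-! ### Systems of blocks -/

/-- The even elements of a set. -/
def ev (W : Finset ℕ) : Finset ℕ := W.filter fun n => n % 2 = 0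

/-- The blocks inside a set. -/
def bl (B : Finset (Finset ℕ)) (W : Finset ℕ) : Finset (Finset ℕ) := B.filter fun β => β ⊆ W

theorem mem_bl {B : Finset (Finset ℕ)} {W β : Finset ℕ} : β ∈ bl B W ↔ β ∈ B ∧ β ⊆ W := by
  simp [bl]

theorem bl_mono {B : Finset (Finset ℕ)} {W W' : Finset ℕ} (h : W ⊆ W') : bl B W ⊆ bl B W' :=
  fun _ hβ => mem_bl.2 ⟨(mem_bl.1 hβ).1, (mem_bl.1 hβ).2.trans h⟩

/-- Systems of blocks without the sparsity condition. -/
structure Pre (B : Finset (Finset ℕ)) : Prop where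
  card4 : ∀ β ∈ B, β.card = 4
  ev3 : ∀ β ∈ B, (ev β).card = 3
  meet : ∀ β ∈ B, ∀ γ ∈ B, 3 ≤ (β ∩ γ).card → β = γ

/-- Sparse systems of blocks. -/
structure Sys (B : Finset (Finset ℕ)) : Prop extends Pre B where
  free : ∀ W, 4 ≤ (ev W).card → (bl B W).card + 4 ≤ W.card

theorem ev_subset (W : Finset ℕ) : ev W ⊆ W := filter_subset _ _

theorem small_case {B : Finset (Finset ℕ)} (hB : Pre B) {W : Finset ℕ} (hW : 4 ≤ (ev W).card)
    (h2 : (bl B W).card ≤ 2) : (bl B W).card + 4 ≤ W.card := by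
  have hev : (ev W).card ≤ W.card := card_le_card (ev_subset W)
  rcases Nat.lt_or_ge (bl B W).card 2 with h | h
  · rcases Nat.eq_zero_or_pos (bl B W).card with h0 | h0
    · omega
    · obtain ⟨β, hβ⟩ := card_pos.1 h0
      have hlt : (ev W).card < W.card := by
        refine card_lt_card ⟨ev_subset W, fun hsub => ?_⟩
        have h3 : ev β = β := by
          apply Finset.Subset.antisymm (ev_subset β)
          intro x hx
          have := hsub ((mem_bl.1 hβ).2 hx)
          exact mem_filter.2 ⟨hx, (mem_filter.1 this).2⟩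
        have h4 := hB.card4 β (mem_bl.1 hβ).1
        have h5 := hB.ev3 β (mem_bl.1 hβ).1
        rw [h3] at h5
        omega
      omega
  · obtain ⟨β, γ, hne, hβγ⟩ := card_eq_two.1 (le_antisymm h2 h)
    have hβ : β ∈ bl B W := by rw [hβγ]; simp
    have hγ : γ ∈ bl B W := by rw [hβγ]; simp
    have h3 : (β ∩ γ).card < 3 := by
      by_contra hcon
      exact hne (hB.meet β (mem_bl.1 hβ).1 γ (mem_bl.1 hγ).1 (by omega))
    have h4 := card_union_add_card_inter β γ
    rw [hB.card4 β (mem_bl.1 hβ).1, hB.card4 γ (mem_bl.1 hγ).1] at h4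
    have h5 : (β ∪ γ).card ≤ W.card :=
      card_le_card (union_subset (mem_bl.1 hβ).2 (mem_bl.1 hγ).2)
    omega

/-- A set is strong if no finite superset has smaller predimension. -/
def Strong (B : Finset (Finset ℕ)) (D : Finset ℕ) : Prop :=
  ∀ W, D ⊆ W → (bl B W).card + D.card ≤ (bl B D).card + W.card

theorem submod (B : Finset (Finset ℕ)) (W D : Finset ℕ) :
    (bl B W).card + (bl B D).card ≤ (bl B (W ∪ D)).card + (bl B (W ∩ D)).card := by
  rw [← card_union_add_card_inter]
  refine add_le_add (card_le_card ?_) (card_le_card ?_)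
  · exact union_subset (bl_mono subset_union_left) (bl_mono subset_union_right)
  · intro β hβ
    rw [mem_inter, mem_bl, mem_bl] at hβ
    exact mem_bl.2 ⟨hβ.1.1, subset_inter hβ.1.2 hβ.2.2⟩

theorem Strong.all {B : Finset (Finset ℕ)} {D : Finset ℕ} (h : Strong B D) (W : Finset ℕ) :
    (bl B W).card + (W ∩ D).card ≤ (bl B (W ∩ D)).card + W.card := by
  have h1 := h (W ∪ D) subset_union_right
  have h2 := submod B W D
  have h3 := card_union_add_card_inter W D
  omega

/-- Strong partial isomorphisms. -/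
structure PI (B : Finset (Finset ℕ)) (V D R : Finset ℕ) (f h : ℕ → ℕ) : Prop where
  DV : D ⊆ V
  RV : R ⊆ V
  sD : Strong B D
  sR : Strong B R
  fR : ∀ x ∈ D, f x ∈ R
  hf : ∀ x ∈ D, h (f x) = x
  par : ∀ x ∈ D, f x % 2 = x % 2
  hD : ∀ y ∈ R, h y ∈ D
  fh : ∀ y ∈ R, f (h y) = y
  iso : ∀ β ⊆ D, β ∈ B ↔ β.image f ∈ B

section PI

variable {B : Finset (Finset ℕ)} {V D R : Finset ℕ} {f h : ℕ → ℕ}

theorem PI.injOn (hp : PI B V D R f h) : Set.InjOn f D := by
  intro x hx y hy hxy
  rw [← hp.hf x hx, ← hp.hf y hy, hxy]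

theorem PI.image_image (hp : PI B V D R f h) {β : Finset ℕ} (hβ : β ⊆ R) :
    (β.image h).image f = β := by
  rw [Finset.image_image]
  ext x
  simp only [mem_image, Function.comp]
  constructor
  · rintro ⟨y, hy, rfl⟩
    rw [hp.fh y (hβ hy)]; exact hy
  · intro hx
    exact ⟨x, hx, hp.fh x (hβ hx)⟩

theorem PI.image_sub (hp : PI B V D R f h) {β : Finset ℕ} (hβ : β ⊆ D) : β.image f ⊆ R := by
  intro x hx
  obtain ⟨y, hy, rfl⟩ := mem_image.1 hx
  exact hp.fR y (hβ hy)

theorem PI.image_sub' (hp : PI B V D R f h) {β : Finset ℕ} (hβ : β ⊆ R) : β.image h ⊆ D := by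
  intro x hx
  obtain ⟨y, hy, rfl⟩ := mem_image.1 hx
  exact hp.hD y (hβ hy)

theorem PI.symm (hp : PI B V D R f h) : PI B V R D h f where
  DV := hp.RV
  RV := hp.DV
  sD := hp.sR
  sR := hp.sD
  fR := hp.hD
  hf := hp.fh
  par := fun y hy => by
    have h1 := hp.par (h y) (hp.hD y hy)
    rw [hp.fh y hy] at h1
    exact h1.symm
  hD := hp.fR
  fh := hp.hf
  iso := fun β hβ => by
    rw [hp.iso (β.image h) (hp.image_sub' hβ), hp.image_image hβ]

end PI

/-- Saturated partial isomorphisms: no block forces a further value. -/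
def Sat (B : Finset (Finset ℕ)) (D : Finset ℕ) (f : ℕ → ℕ) : Prop :=
  ∀ γ ∈ B, (γ ∩ D).card = 3 → ∀ β ∈ B, ¬ (γ ∩ D).image f ⊆ β

/-- Adding a point lying in a block with a strong set. -/
theorem strong_insert {B : Finset (Finset ℕ)} {D γ : Finset ℕ} {x : ℕ} (hD : Strong B D)
    (hx : x ∉ D) (hγ : γ ∈ B) (hxγ : x ∈ γ) (hγD : γ ⊆ insert x D) :
    Strong B (insert x D) ∧ ∀ δ ∈ B, δ ⊆ insert x D → x ∈ δ → δ = γ := by
  have h1 : insert γ (bl B D) ⊆ bl B (insert x D) := by
    intro δ hδ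
    rcases mem_insert.1 hδ with rfl | hδ
    · exact mem_bl.2 ⟨hγ, hγD⟩
    · exact bl_mono (subset_insert x D) hδ
  have h2 : γ ∉ bl B D := fun h => hx ((mem_bl.1 h).2 hxγ)
  have h3 : (bl B D).card + 1 ≤ (bl B (insert x D)).card := by
    rw [← card_insert_of_notMem h2]
    exact card_le_card h1
  refine ⟨?_, ?_⟩
  · intro W hW
    have h4 := hD W ((subset_insert x D).trans hW)
    rw [card_insert_of_notMem hx]
    omega
  · intro δ hδ hδD hxδ
    by_contra hne
    have h5 : δ ∉ insert γ (bl B D) := by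
      intro h
      rcases mem_insert.1 h with h | h
      · exact hne h
      · exact hx ((mem_bl.1 h).2 hxδ)
    have h6 : insert δ (insert γ (bl B D)) ⊆ bl B (insert x D) := by
      intro ε hε
      rcases mem_insert.1 hε with rfl | hε
      · exact mem_bl.2 ⟨hδ, hδD⟩
      · exact h1 hε
    have h7 := card_le_card h6
    rw [card_insert_of_notMem h5, card_insert_of_notMem h2] at h7
    have h8 := hD (insert x D) (subset_insert x D)
    rw [card_insert_of_notMem hx] at h8
    omega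

theorem ev_image {f : ℕ → ℕ} {T : Finset ℕ} (hf : Set.InjOn f T)
    (hpar : ∀ x ∈ T, f x % 2 = x % 2) : (ev (T.image f)).card = (ev T).card := by
  have h1 : ev (T.image f) = (ev T).image f := by
    ext y
    simp only [ev, mem_filter, mem_image]
    constructor
    · rintro ⟨⟨x, hx, rfl⟩, h⟩
      exact ⟨x, ⟨hx, by rw [← hpar x hx]; exact h⟩, rfl⟩
    · rintro ⟨x, ⟨hx, h⟩, rfl⟩
      exact ⟨⟨x, hx, rfl⟩, by rw [hpar x hx]; exact h⟩
  rw [h1, card_image_of_injOn]
  exact hf.mono (by exact_mod_cast ev_subset T)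

theorem ev_insert_card {x : ℕ} {T : Finset ℕ} (hx : x ∉ T) :
    (ev (insert x T)).card = (ev T).card + (if x % 2 = 0 then 1 else 0) := by
  unfold ev
  rw [filter_insert]
  split_ifs with h
  · rw [card_insert_of_notMem]
    exact fun h' => hx (mem_filter.1 h').1
  · rfl

theorem extend_one {B : Finset (Finset ℕ)} (hB : Pre B) {V D R : Finset ℕ} {f h : ℕ → ℕ}
    (hV : ∀ β ∈ B, β ⊆ V) (hp : PI B V D R f h) (hns : ¬ Sat B D f) :
    ∃ D' R' f' h', PI B V D' R' f' h' ∧ D ⊂ D' ∧ ∀ x ∈ D, f' x = f x := by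
  unfold Sat at hns
  push Not at hns
  obtain ⟨γ, hγ, hT, β, hβ, hTβ⟩ := hns
  obtain ⟨T, hTdef⟩ : ∃ T, T = γ ∩ D := ⟨_, rfl⟩
  rw [← hTdef] at hT hTβ
  have hTγ : T ⊆ γ := hTdef ▸ inter_subset_left
  have hTD : T ⊆ D := hTdef ▸ inter_subset_right
  have hTcard : (T.image f).card = 3 := by
    rw [card_image_of_injOn (hp.injOn.mono (by exact_mod_cast hTD)), hT]
  -- the fourth elements
  obtain ⟨x, hxT, hγx⟩ : ∃ x, x ∉ T ∧ insert x T = γ :=
    exists_eq_insert_iff.2 ⟨hTγ, by rw [hT, hB.card4 γ hγ]⟩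
  obtain ⟨y, hyT, hβy⟩ : ∃ y, y ∉ T.image f ∧ insert y (T.image f) = β :=
    exists_eq_insert_iff.2 ⟨hTβ, by rw [hTcard, hB.card4 β hβ]⟩
  have hxγ : x ∈ γ := hγx ▸ mem_insert_self x T
  have hyβ : y ∈ β := hβy ▸ mem_insert_self y _
  have hxD : x ∉ D := fun h => hxT (by rw [hTdef]; exact mem_inter.2 ⟨hxγ, h⟩)
  have hTR : T.image f ⊆ R := hp.image_sub hTD
  have hyR : y ∉ R := by
    intro h1
    have hβR : β ⊆ R := by
      rw [← hβy]; exact insert_subset h1 hTR
    have h2 : β.image h ∈ B := (hp.symm.iso β hβR).1 hβ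
    have h3 : T ⊆ γ ∩ β.image h := by
      refine subset_inter hTγ fun z hz => ?_
      exact mem_image.2 ⟨f z, hTβ (mem_image_of_mem f hz), hp.hf z (hTD hz)⟩
    have h4 : γ = β.image h := hB.meet _ hγ _ h2 (by rw [← hT]; exact card_le_card h3)
    exact hxD (by
      have h5 := hp.image_sub' hβR
      rw [← h4] at h5
      exact h5 hxγ)
  have hγD : γ ⊆ insert x D := by
    rw [← hγx]; exact insert_subset_insert x hTD
  have hβR : β ⊆ insert y R := by
    rw [← hβy]; exact insert_subset_insert y hTR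
  obtain ⟨s1, u1⟩ := strong_insert hp.sD hxD hγ hxγ hγD
  obtain ⟨s2, u2⟩ := strong_insert hp.sR hyR hβ hyβ hβR
  have hpar : y % 2 = x % 2 := by
    have e1 := hB.ev3 γ hγ
    have e2 := hB.ev3 β hβ
    rw [← hγx, ev_insert_card hxT] at e1
    rw [← hβy, ev_insert_card hyT,
      ev_image (hp.injOn.mono (by exact_mod_cast hTD)) fun z hz => hp.par z (hTD hz)] at e2
    split_ifs at e1 e2 <;> omega
  obtain ⟨f', hf'⟩ : ∃ f', f' = Function.update f x y := ⟨_, rfl⟩
  obtain ⟨h', hh'⟩ : ∃ h', h' = Function.update h y x := ⟨_, rfl⟩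
  have f'x : f' x = y := by rw [hf', Function.update_self]
  have h'y : h' y = x := by rw [hh', Function.update_self]
  have f'D : ∀ z ∈ D, f' z = f z := fun z hz => by
    rw [hf', Function.update_of_ne]
    rintro rfl
    exact hxD hz
  have h'R : ∀ z ∈ R, h' z = h z := fun z hz => by
    rw [hh', Function.update_of_ne]
    rintro rfl
    exact hyR hz
  have himgD : ∀ δ ⊆ D, δ.image f' = δ.image f := fun δ hδ =>
    image_congr fun z hz => f'D z (hδ hz)
  have himgγ : γ.image f' = β := by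
    rw [← hγx, image_insert, f'x, himgD T hTD, hβy]
  have hinj : Set.InjOn f' (insert x D : Finset ℕ) := by
    intro a ha0 b hb0 hab
    rcases mem_insert.1 (mem_coe.1 ha0) with ha | ha
    · rcases mem_insert.1 (mem_coe.1 hb0) with hb | hb
      · rw [ha, hb]
      · rw [ha, f'x, f'D b hb] at hab
        exact absurd (by rw [hab]; exact hp.fR b hb) hyR
    · rcases mem_insert.1 (mem_coe.1 hb0) with hb | hb
      · rw [hb, f'x, f'D a ha] at hab
        exact absurd (by rw [← hab]; exact hp.fR a ha) hyR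
      · rw [f'D a ha, f'D b hb] at hab
        exact hp.injOn ha hb hab
  refine ⟨insert x D, insert y R, f', h', ?_, ssubset_insert hxD, f'D⟩
  refine
    { DV := insert_subset (hV γ hγ hxγ) hp.DV
      RV := insert_subset (hV β hβ hyβ) hp.RV
      sD := s1
      sR := s2
      fR := ?_
      hf := ?_
      par := ?_
      hD := ?_
      fh := ?_
      iso := ?_ }
  · intro z hz
    rcases mem_insert.1 hz with rfl | hz
    · rw [f'x]; exact mem_insert_self _ _
    · rw [f'D z hz]; exact mem_insert_of_mem (hp.fR z hz)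
  · intro z hz
    rcases mem_insert.1 hz with rfl | hz
    · rw [f'x, h'y]
    · rw [f'D z hz, h'R _ (hp.fR z hz), hp.hf z hz]
  · intro z hz
    rcases mem_insert.1 hz with rfl | hz
    · rw [f'x]; exact hpar
    · rw [f'D z hz]; exact hp.par z hz
  · intro z hz
    rcases mem_insert.1 hz with rfl | hz
    · rw [h'y]; exact mem_insert_self _ _
    · rw [h'R z hz]; exact mem_insert_of_mem (hp.hD z hz)
  · intro z hz
    rcases mem_insert.1 hz with rfl | hz
    · rw [h'y, f'x]
    · rw [h'R z hz, f'D _ (hp.hD z hz), hp.fh z hz]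
  · intro δ hδ
    by_cases hx : x ∈ δ
    · constructor
      · intro h1
        rw [u1 δ h1 hδ hx, himgγ]
        exact hβ
      · intro h1
        have h2 : δ.image f' ⊆ insert y R := by
          intro z hz
          obtain ⟨w, hw, rfl⟩ := mem_image.1 hz
          rcases mem_insert.1 (hδ hw) with rfl | hw
          · rw [f'x]; exact mem_insert_self _ _
          · rw [f'D w hw]; exact mem_insert_of_mem (hp.fR w hw)
        have h3 : δ.image f' = β := u2 _ h1 h2 (mem_image.2 ⟨x, hx, f'x⟩)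
        have h4 : δ = γ := by
          apply Finset.coe_injective
          refine (hinj.image_eq_image_iff (by exact_mod_cast hδ) (by exact_mod_cast hγD)).1 ?_
          rw [← Finset.coe_image, ← Finset.coe_image, h3, himgγ]
        rw [h4]; exact hγ
    · have hδD : δ ⊆ D := fun z hz =>
        (mem_insert.1 (hδ hz)).resolve_left (fun h => hx (h ▸ hz))
      rw [himgD δ hδD]
      exact hp.iso δ hδD

theorem exists_sat {B : Finset (Finset ℕ)} (hB : Pre B) {V : Finset ℕ}
    (hV : ∀ β ∈ B, β ⊆ V) (n : ℕ) : ∀ {D R : Finset ℕ} {f h : ℕ → ℕ}, PI B V D R f h →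
    V.card ≤ D.card + n →
    ∃ D' R' f' h', PI B V D' R' f' h' ∧ D ⊆ D' ∧ (∀ x ∈ D, f' x = f x) ∧ Sat B D' f' := by
  induction n with
  | zero =>
    intro D R f h hp hn
    by_cases hs : Sat B D f
    · exact ⟨D, R, f, h, hp, Subset.rfl, fun _ _ => rfl, hs⟩
    · obtain ⟨D', R', f', h', hp', hlt, -⟩ := extend_one hB hV hp hs
      have h1 := card_lt_card hlt
      have h2 := card_le_card hp'.DV
      omega
  | succ n ih =>
    intro D R f h hp hn
    by_cases hs : Sat B D f
    · exact ⟨D, R, f, h, hp, Subset.rfl, fun _ _ => rfl, hs⟩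
    · obtain ⟨D', R', f', h', hp', hlt, hf'⟩ := extend_one hB hV hp hs
      have h1 := card_lt_card hlt
      obtain ⟨D2, R2, f2, h2, hp2, hsub2, hf2, hs2⟩ := ih hp' (by omega)
      exact ⟨D2, R2, f2, h2, hp2, hlt.1.trans hsub2,
        fun x hx => by rw [hf2 x (hlt.1 hx), hf' x hx], hs2⟩

/-! ### States and amalgamation -/

/-- A finite stage of the construction. -/
structure St where
  V : Finset ℕ
  B : Finset (Finset ℕ)
  sys : Sys B
  supp : ∀ β ∈ B, β ⊆ V

/-- A later stage. -/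
structure Le (P Q : St) : Prop where
  V : P.V ⊆ Q.V
  B : P.B ⊆ Q.B
  inside : ∀ β ∈ Q.B, β ⊆ P.V → β ∈ P.B
  strong : Strong Q.B P.V

theorem Le.bl {P Q : St} (h : Le P Q) {U : Finset ℕ} (hU : U ⊆ P.V) : bl Q.B U = bl P.B U := by
  ext β
  rw [mem_bl, mem_bl]
  exact ⟨fun hβ => ⟨h.inside β hβ.1 (hβ.2.trans hU), hβ.2⟩, fun hβ => ⟨h.B hβ.1, hβ.2⟩⟩

theorem Le.strong_of {P Q : St} (h : Le P Q) {D : Finset ℕ} (hD : D ⊆ P.V)
    (hs : Strong P.B D) : Strong Q.B D := by
  intro W hW
  have h1 := h.strong.all W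
  have h2 := hs (W ∩ P.V) (subset_inter hW hD)
  rw [h.bl inter_subset_right] at h1
  rw [h.bl hD]
  omega

theorem Le.pi {P Q : St} (h : Le P Q) {D R : Finset ℕ} {f g : ℕ → ℕ}
    (hp : PI P.B P.V D R f g) : PI Q.B Q.V D R f g where
  DV := hp.DV.trans h.V
  RV := hp.RV.trans h.V
  sD := h.strong_of hp.DV hp.sD
  sR := h.strong_of hp.RV hp.sR
  fR := hp.fR
  hf := hp.hf
  par := hp.par
  hD := hp.hD
  fh := hp.fh
  iso := fun β hβ => by
    have h1 : β ∈ Q.B ↔ β ∈ P.B :=
      ⟨fun hb => h.inside β hb (hβ.trans hp.DV), fun hb => h.B hb⟩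
    have h2 : β.image f ∈ Q.B ↔ β.image f ∈ P.B :=
      ⟨fun hb => h.inside _ hb ((hp.image_sub hβ).trans hp.RV), fun hb => h.B hb⟩
    rw [h1, h2, hp.iso β hβ]

theorem Le.refl (P : St) : Le P P where
  V := Subset.rfl
  B := Subset.rfl
  inside := fun _ h _ => h
  strong := by
    intro W _
    have h1 : ParallelTriples.bl P.B W = ParallelTriples.bl P.B P.V := by
      apply Finset.Subset.antisymm
      · intro β hβ; exact mem_bl.2 ⟨(mem_bl.1 hβ).1, P.supp β (mem_bl.1 hβ).1⟩
      · exact bl_mono (by assumption)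
    rw [h1]
    have h2 : P.V.card ≤ W.card := card_le_card (by assumption)
    omega

theorem Le.trans {P Q S : St} (h1 : Le P Q) (h2 : Le Q S) : Le P S where
  V := h1.V.trans h2.V
  B := h1.B.trans h2.B
  inside := fun β hβ hV => h1.inside β (h2.inside β hβ (hV.trans h1.V)) hV
  strong := h2.strong_of h1.V h1.strong

/-- Enlarging the set of committed points. -/
def St.enlarge (P : St) (F : Finset ℕ) : St := ⟨P.V ∪ F, P.B, P.sys,
  fun β hβ => (P.supp β hβ).trans subset_union_left⟩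

theorem St.le_enlarge (P : St) (F : Finset ℕ) : Le P (P.enlarge F) where
  V := subset_union_left
  B := Subset.rfl
  inside := fun _ h _ => h
  strong := (Le.refl P).strong

/-- **Amalgamation.** -/
theorem amalgam (P : St) {D R : Finset ℕ} {f h : ℕ → ℕ} (hp : PI P.B P.V D R f h)
    (hsat : Sat P.B D f) :
    ∃ (Q : St) (R' : Finset ℕ) (f' h' : ℕ → ℕ), Le P Q ∧ PI Q.B Q.V P.V R' f' h' ∧
      ∀ x ∈ D, f' x = f x := by
  obtain ⟨V, B, sys, supp⟩ := P
  simp only at hp hsat
  obtain ⟨N, hN⟩ : ∃ N, ∀ x ∈ V, x < N := ⟨V.sup id + 1, fun x hx =>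
    Nat.lt_succ_of_le (le_sup (f := id) hx)⟩
  obtain ⟨φ, hφ⟩ : ∃ φ : ℕ → ℕ, φ = fun n => if n ∈ D then f n else n + 2 * N := ⟨_, rfl⟩
  obtain ⟨ψ, hψ⟩ : ∃ ψ : ℕ → ℕ, ψ = fun n => if n ∈ R then h n else n - 2 * N := ⟨_, rfl⟩
  have φD : ∀ x ∈ D, φ x = f x := fun x hx => by rw [hφ]; exact if_pos hx
  have φN : ∀ x, x ∉ D → φ x = x + 2 * N := fun x hx => by rw [hφ]; exact if_neg hx
  have ψR : ∀ x ∈ R, ψ x = h x := fun x hx => by rw [hψ]; exact if_pos hx
  have ψN : ∀ x, x ∉ R → ψ x = x - 2 * N := fun x hx => by rw [hψ]; exact if_neg hx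
  have φV : ∀ x, φ x ∈ V → x ∈ D := by
    intro x hx
    by_contra hxD
    rw [φN x hxD] at hx
    have := hN _ hx
    omega
  have φR : ∀ x ∈ V, φ x ∈ V → φ x ∈ R := fun x _ hx => by
    have h1 := φV x hx
    rw [φD x h1]; exact hp.fR x h1
  have ψφ : ∀ x ∈ V, ψ (φ x) = x := by
    intro x hx
    by_cases hxD : x ∈ D
    · rw [φD x hxD, ψR _ (hp.fR x hxD), hp.hf x hxD]
    · rw [φN x hxD, ψN]
      · omega
      · intro h1
        have := hN _ (hp.RV h1)
        omega
  have φinj : Set.InjOn φ V := by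
    intro x hx y hy hxy
    rw [← ψφ x hx, ← ψφ y hy, hxy]
  have φpar : ∀ x, φ x % 2 = x % 2 := by
    intro x
    by_cases hxD : x ∈ D
    · rw [φD x hxD]; exact hp.par x hxD
    · rw [φN x hxD]; omega
  have RV' : R ⊆ V.image φ := by
    intro y hy
    refine mem_image.2 ⟨h y, hp.DV (hp.hD y hy), ?_⟩
    rw [φD _ (hp.hD y hy), hp.fh y hy]
  obtain ⟨R', hR'⟩ : ∃ R', R' = V.image φ := ⟨_, rfl⟩
  rw [← hR'] at RV'
  have VR : ∀ x, x ∈ V → x ∈ R' → x ∈ R := by
    intro x hx hx'
    rw [hR'] at hx'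
    obtain ⟨y, hy, rfl⟩ := mem_image.1 hx'
    exact φR y hy hx
  obtain ⟨B', hB'⟩ : ∃ B', B' = B ∪ B.image (fun β => β.image φ) := ⟨_, rfl⟩
  have memB' : ∀ δ, δ ∈ B' ↔ δ ∈ B ∨ ∃ γ ∈ B, γ.image φ = δ := by
    intro δ; rw [hB', mem_union, mem_image]
  have imD : ∀ β ⊆ D, β.image φ = β.image f := fun β hβ => image_congr fun x hx => φD x (hβ hx)
  -- blocks of the copy inside `V`
  have inV : ∀ γ ∈ B, γ.image φ ⊆ V → γ.image φ ∈ B := by
    intro γ hγ hsub
    have h1 : γ ⊆ D := fun x hx => φV x (hsub (mem_image_of_mem φ hx))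
    rw [imD γ h1]
    exact (hp.iso γ h1).1 hγ
  have inside : ∀ β ∈ B', β ⊆ V → β ∈ B := by
    intro β hβ hsub
    rcases (memB' β).1 hβ with h1 | ⟨γ, hγ, rfl⟩
    · exact h1
    · exact inV γ hγ hsub
  -- old blocks inside the copy
  have inR' : ∀ β ∈ B, β ⊆ R' → ∃ γ ∈ B, γ.image φ = β := by
    intro β hβ hsub
    have h1 : β ⊆ R := fun x hx => VR x (supp β hβ hx) (hsub hx)
    refine ⟨β.image h, (hp.symm.iso β h1).1 hβ, ?_⟩
    rw [imD _ (hp.image_sub' h1), hp.image_image h1]
  have inR : ∀ β ∈ B', β ⊆ R' → ∃ γ ∈ B, γ.image φ = β := by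
    intro β hβ hsub
    rcases (memB' β).1 hβ with h1 | h1
    · exact inR' β h1 hsub
    · exact h1
  have imR' : ∀ γ ∈ B, γ.image φ ⊆ R' := by
    intro γ hγ
    rw [hR']; exact image_subset_image (supp γ hγ)
  have iminj : ∀ β γ : Finset ℕ, β ⊆ V → γ ⊆ V → β.image φ = γ.image φ → β = γ := by
    intro β γ hβ hγ heq
    apply Finset.coe_injective
    refine (φinj.image_eq_image_iff (by exact_mod_cast hβ) (by exact_mod_cast hγ)).1 ?_
    rw [← Finset.coe_image, ← Finset.coe_image, heq]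
  -- the new system
  have pre : Pre B' := by
    refine ⟨?_, ?_, ?_⟩
    · intro β hβ
      rcases (memB' β).1 hβ with h1 | ⟨γ, hγ, rfl⟩
      · exact sys.card4 β h1
      · rw [card_image_of_injOn (φinj.mono (by exact_mod_cast supp γ hγ)), sys.card4 γ hγ]
    · intro β hβ
      rcases (memB' β).1 hβ with h1 | ⟨γ, hγ, rfl⟩
      · exact sys.ev3 β h1
      · rw [ev_image (φinj.mono (by exact_mod_cast supp γ hγ)) fun z _ => φpar z, sys.ev3 γ hγ]
    · have key : ∀ β ∈ B, ∀ γ ∈ B, 3 ≤ (β ∩ γ.image φ).card → β = γ.image φ := by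
        intro β hβ γ hγ h3
        have h4 : β ∩ γ.image φ ⊆ (γ ∩ D).image f := by
          intro y hy
          obtain ⟨hy1, hy2⟩ := mem_inter.1 hy
          obtain ⟨x, hx, rfl⟩ := mem_image.1 hy2
          have h5 := φV x (supp β hβ hy1)
          exact mem_image.2 ⟨x, mem_inter.2 ⟨hx, h5⟩, (φD x h5).symm⟩
        have h5 : 3 ≤ (γ ∩ D).card := h3.trans ((card_le_card h4).trans card_image_le)
        have h6 : (γ ∩ D).card ≤ 4 := by
          rw [← sys.card4 γ hγ]; exact card_le_card inter_subset_left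
        rcases Nat.lt_or_ge (γ ∩ D).card 4 with h7 | h7
        · exfalso
          have h8 : (γ ∩ D).card = 3 := by omega
          refine hsat γ hγ h8 β hβ ?_
          have h9 : β ∩ γ.image φ = (γ ∩ D).image f := by
            refine Finset.eq_of_subset_of_card_le h4 ?_
            exact (card_image_le.trans h8.le).trans h3
          rw [← h9]; exact inter_subset_left
        · have h8 : γ ⊆ D := by
            have h9 : γ ∩ D = γ := by
              refine Finset.eq_of_subset_of_card_le inter_subset_left ?_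
              rw [sys.card4 γ hγ]; exact h7
            rw [← h9]; exact inter_subset_right
          have h9 : γ.image φ ∈ B := by
            rw [imD γ h8]; exact (hp.iso γ h8).1 hγ
          exact sys.meet β hβ _ h9 h3
      intro β hβ0 γ hγ0 h3
      rcases (memB' β).1 hβ0 with hβ | ⟨β, hβ, rfl⟩
      · rcases (memB' γ).1 hγ0 with hγ | ⟨γ, hγ, rfl⟩
        · exact sys.meet β hβ γ hγ h3
        · exact key β hβ γ hγ h3
      · rcases (memB' γ).1 hγ0 with hγ | ⟨γ, hγ, rfl⟩
        · rw [inter_comm] at h3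
          exact (key γ hγ β hβ h3).symm
        · rw [← image_inter_of_injOn _ _ (φinj.mono (by
            rw [← Finset.coe_union]
            exact_mod_cast union_subset (supp β hβ) (supp γ hγ)))] at h3
          rw [sys.meet β hβ γ hγ (h3.trans card_image_le)]
  -- `V` is strong
  have sV : Strong B' V := by
    intro W hW
    obtain ⟨U, hU⟩ : ∃ U, U = V.filter (fun n => φ n ∈ W) := ⟨_, rfl⟩
    have hUV : U ⊆ V := hU ▸ filter_subset _ _
    have hDU : D ⊆ U := by
      intro x hx
      rw [hU, mem_filter]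
      exact ⟨hp.DV hx, by rw [φD x hx]; exact hW (hp.RV (hp.fR x hx))⟩
    have h1 : bl B' W ⊆ bl B' V ∪ (bl B U \ bl B D).image (fun β => β.image φ) := by
      intro δ hδ
      obtain ⟨hδ1, hδ2⟩ := mem_bl.1 hδ
      rcases (memB' δ).1 hδ1 with h1 | ⟨γ, hγ, rfl⟩
      · exact mem_union_left _ (mem_bl.2 ⟨hδ1, supp δ h1⟩)
      · by_cases hγD : γ ⊆ D
        · refine mem_union_left _ (mem_bl.2 ⟨hδ1, ?_⟩)
          rw [imD γ hγD]
          exact (hp.image_sub hγD).trans hp.RV
        · refine mem_union_right _ (mem_image.2 ⟨γ, ?_, rfl⟩)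
          rw [mem_sdiff, mem_bl, mem_bl]
          refine ⟨⟨hγ, fun x hx => ?_⟩, fun h => hγD h.2⟩
          rw [hU, mem_filter]
          exact ⟨supp γ hγ hx, hδ2 (mem_image_of_mem φ hx)⟩
    have h2 := (card_le_card h1).trans (card_union_le _ _)
    have h3 : ((bl B U \ bl B D).image (fun β => β.image φ)).card + (bl B D).card ≤
        (bl B U).card := by
      have h4 : ((bl B U \ bl B D).image (fun β => β.image φ)).card ≤ (bl B U \ bl B D).card :=
        card_image_le
      have h5 := card_sdiff_add_card_eq_card (bl_mono (B := B) hDU)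
      omega
    have h4 := hp.sD U hDU
    have h5 : (U \ D).card ≤ (W \ V).card := by
      refine card_le_card_of_injOn φ ?_ (φinj.mono ?_)
      · intro x hx
        obtain ⟨hx1, hx2⟩ := mem_sdiff.1 hx
        rw [hU, mem_filter] at hx1
        exact mem_sdiff.2 ⟨hx1.2, fun h => hx2 (φV x h)⟩
      · exact_mod_cast (sdiff_subset.trans hUV)
    have h6 := card_sdiff_add_card_eq_card hDU
    have h7 := card_sdiff_add_card_eq_card hW
    omega
  have sR' : Strong B' R' := by
    intro W hW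
    have hRW : R ⊆ W ∩ V := subset_inter (RV'.trans hW) hp.RV
    have h1 : bl B' W ⊆ bl B' R' ∪ (bl B (W ∩ V) \ bl B R) := by
      intro δ hδ
      obtain ⟨hδ1, hδ2⟩ := mem_bl.1 hδ
      rcases (memB' δ).1 hδ1 with h1 | ⟨γ, hγ, rfl⟩
      · by_cases hδR : δ ⊆ R
        · exact mem_union_left _ (mem_bl.2 ⟨hδ1, hδR.trans RV'⟩)
        · refine mem_union_right _ ?_
          rw [mem_sdiff, mem_bl, mem_bl]
          exact ⟨⟨h1, subset_inter hδ2 (supp δ h1)⟩, fun h => hδR h.2⟩
      · exact mem_union_left _ (mem_bl.2 ⟨hδ1, imR' γ hγ⟩)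
    have h2 := (card_le_card h1).trans (card_union_le _ _)
    have h3 := card_sdiff_add_card_eq_card (bl_mono (B := B) hRW)
    have h4 := hp.sR (W ∩ V) hRW
    have h5 : ((W ∩ V) \ R).card ≤ (W \ R').card := by
      refine card_le_card fun x hx => ?_
      obtain ⟨hx1, hx2⟩ := mem_sdiff.1 hx
      obtain ⟨hx3, hx4⟩ := mem_inter.1 hx1
      exact mem_sdiff.2 ⟨hx3, fun h => hx2 (VR x hx4 h)⟩
    have h6 := card_sdiff_add_card_eq_card hRW
    have h7 := card_sdiff_add_card_eq_card hW
    omega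
  have small : ∀ U W : Finset ℕ, (ev (W ∩ U)).card ≤ 3 →
      ((bl B' W).filter (fun δ => δ ⊆ U)).card ≤ 1 := by
    intro U W hUW
    rw [card_le_one]
    intro β hβ γ hγ
    obtain ⟨hβ1, hβ2⟩ := mem_filter.1 hβ
    obtain ⟨hγ1, hγ2⟩ := mem_filter.1 hγ
    obtain ⟨hβ3, hβ4⟩ := mem_bl.1 hβ1
    obtain ⟨hγ3, hγ4⟩ := mem_bl.1 hγ1
    have e : ∀ δ ∈ B', δ ⊆ W → δ ⊆ U → ev δ = ev (W ∩ U) := by
      intro δ hδ h1 h2
      refine Finset.eq_of_subset_of_card_le ?_ ?_
      · exact filter_subset_filter _ (subset_inter h1 h2)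
      · rw [pre.ev3 δ hδ]; exact hUW
    apply pre.meet β hβ3 γ hγ3
    rw [← pre.ev3 β hβ3]
    refine card_le_card (subset_inter (ev_subset β) ?_)
    rw [e β hβ3 hβ4 hβ2, ← e γ hγ3 hγ4 hγ2]
    exact ev_subset γ
  have free : ∀ W, 4 ≤ (ev W).card → (bl B' W).card + 4 ≤ W.card := by
    intro W hW
    rcases Nat.lt_or_ge (ev (W ∩ V)).card 4 with hc1 | hc1
    · rcases Nat.lt_or_ge (ev (W ∩ R')).card 4 with hc2 | hc2
      · refine small_case pre hW ?_
        have h1 : bl B' W ⊆ (bl B' W).filter (fun δ => δ ⊆ V) ∪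
            (bl B' W).filter (fun δ => δ ⊆ R') := by
          intro δ hδ
          rcases (memB' δ).1 (mem_bl.1 hδ).1 with h1 | ⟨γ, hγ, rfl⟩
          · exact mem_union_left _ (mem_filter.2 ⟨hδ, supp δ h1⟩)
          · exact mem_union_right _ (mem_filter.2 ⟨hδ, imR' γ hγ⟩)
        have h2 := (card_le_card h1).trans (card_union_le _ _)
        have h3 := small V W (by omega)
        have h4 := small R' W (by omega)
        omega
      · -- the copy contains four points
        have h1 := sR'.all W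
        obtain ⟨U, hU⟩ : ∃ U, U = V.filter (fun n => φ n ∈ W) := ⟨_, rfl⟩
        have hUV : U ⊆ V := hU ▸ filter_subset _ _
        have hUim : U.image φ = W ∩ R' := by
          ext y
          rw [mem_image, mem_inter, hR', mem_image]
          constructor
          · rintro ⟨x, hx, rfl⟩
            rw [hU, mem_filter] at hx
            exact ⟨hx.2, x, hx.1, rfl⟩
          · rintro ⟨h2, x, hx, rfl⟩
            exact ⟨x, by rw [hU, mem_filter]; exact ⟨hx, h2⟩, rfl⟩
        have hφU : Set.InjOn φ U := φinj.mono (by exact_mod_cast hUV)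
        have h2 : (W ∩ R').card = U.card := by rw [← hUim, card_image_of_injOn hφU]
        have h3 : (ev (W ∩ R')).card = (ev U).card := by
          rw [← hUim, ev_image hφU fun z _ => φpar z]
        have h4 := sys.free U (by omega)
        have h5 : (bl B' (W ∩ R')).card ≤ (bl B U).card := by
          have h6 : bl B' (W ∩ R') ⊆ (bl B U).image (fun β => β.image φ) := by
            intro δ hδ
            obtain ⟨hδ1, hδ2⟩ := mem_bl.1 hδ
            obtain ⟨γ, hγ, rfl⟩ := inR δ hδ1 (hδ2.trans inter_subset_right)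
            refine mem_image.2 ⟨γ, mem_bl.2 ⟨hγ, fun x hx => ?_⟩, rfl⟩
            rw [hU, mem_filter]
            exact ⟨supp γ hγ hx, (mem_inter.1 (hδ2 (mem_image_of_mem φ hx))).1⟩
          exact (card_le_card h6).trans card_image_le
        omega
    · have h1 := sV.all W
      have h2 : bl B' (W ∩ V) = bl B (W ∩ V) := by
        ext β
        rw [mem_bl, mem_bl]
        exact ⟨fun hβ => ⟨inside β hβ.1 (hβ.2.trans inter_subset_right), hβ.2⟩,
          fun hβ => ⟨(memB' β).2 (Or.inl hβ.1), hβ.2⟩⟩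
      have h3 := sys.free (W ∩ V) hc1
      rw [h2] at h1
      omega
  refine ⟨⟨V ∪ R', B', ⟨pre, free⟩, ?_⟩, R', φ, ψ, ?_, ?_, φD⟩
  · intro β hβ
    rcases (memB' β).1 hβ with h1 | ⟨γ, hγ, rfl⟩
    · exact (supp β h1).trans subset_union_left
    · exact (imR' γ hγ).trans subset_union_right
  · exact ⟨subset_union_left, fun β hβ => (memB' β).2 (Or.inl hβ), inside, sV⟩
  · refine
      { DV := subset_union_left
        RV := subset_union_right
        sD := sV
        sR := sR'
        fR := fun x hx => by rw [hR']; exact mem_image_of_mem φ hx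
        hf := ψφ
        par := fun x _ => φpar x
        hD := ?_
        fh := ?_
        iso := ?_ }
    · intro y hy
      rw [hR'] at hy
      obtain ⟨x, hx, rfl⟩ := mem_image.1 hy
      rw [ψφ x hx]; exact hx
    · intro y hy
      rw [hR'] at hy
      obtain ⟨x, hx, rfl⟩ := mem_image.1 hy
      rw [ψφ x hx]
    · intro β hβ
      constructor
      · intro h1
        exact (memB' _).2 (Or.inr ⟨β, inside β h1 hβ, rfl⟩)
      · intro h1
        have h2 : β.image φ ⊆ R' := by rw [hR']; exact image_subset_image hβ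
        obtain ⟨γ, hγ, h3⟩ := inR _ h1 h2
        rw [← iminj γ β (supp γ hγ) hβ h3]
        exact (memB' γ).2 (Or.inl hγ)

/-! ### The sequence of stages -/

/-- Every finite set of pairs is coded by arbitrarily large numbers. -/
theorem exists_coding : ∃ e : ℕ → Finset (ℕ × ℕ), ∀ P N, ∃ n, N < n ∧ e n = P := by
  classical
  obtain ⟨e, he⟩ := exists_surjective_nat (Finset (ℕ × ℕ))
  refine ⟨fun n => e (Nat.unpair n).1, fun P N => ?_⟩
  obtain ⟨i, hi⟩ := he P
  refine ⟨Nat.pair i (N + 1), ?_, ?_⟩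
  · exact lt_of_lt_of_le (Nat.lt_succ_self N) (Nat.right_le_pair i (N + 1))
  · simp only [Nat.unpair_pair]; exact hi

/-- The coding. -/
noncomputable def e : ℕ → Finset (ℕ × ℕ) := exists_coding.choose

theorem e_spec : ∀ P N, ∃ n, N < n ∧ e n = P := exists_coding.choose_spec

/-- The graph of a function on a finite set. -/
def graph (D : Finset ℕ) (f : ℕ → ℕ) : Finset (ℕ × ℕ) := D.image fun x => (x, f x)

/-- The requirements of step `n`. -/
structure Good (n : ℕ) (P Q : St) : Prop where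
  le : Le P Q
  range : Finset.range (n + 1) ⊆ Q.V
  ext : ∀ D R f h, PI P.B P.V D R f h → graph D f = e n →
    ∃ R' f' h', PI Q.B Q.V P.V R' f' h' ∧ ∀ x ∈ D, f' x = f x

theorem exists_good (n : ℕ) (P : St) : ∃ Q, Good n P Q := by
  by_cases hx : ∃ D R f h, PI P.B P.V D R f h ∧ graph D f = e n
  · obtain ⟨D, R, f, h, hp, hg⟩ := hx
    obtain ⟨D1, R1, f1, h1, hp1, hsub, hf1, hsat⟩ := exists_sat P.sys.toPre P.supp P.V.card hp
      (Nat.le_add_left _ _)
    obtain ⟨Q, R2, f2, h2, hle, hp2, hf2⟩ := amalgam P hp1 hsat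
    refine ⟨Q.enlarge (range (n + 1)), hle.trans (Q.le_enlarge _), subset_union_right, ?_⟩
    intro D' R' f' h' hp' hg'
    refine ⟨R2, f2, h2, (Q.le_enlarge _).pi hp2, ?_⟩
    intro x hx
    have h3 : (x, f' x) ∈ graph D f := by
      rw [hg, ← hg']; exact mem_image.2 ⟨x, hx, rfl⟩
    obtain ⟨y, hy, hxy⟩ := mem_image.1 h3
    obtain ⟨rfl, h4⟩ := Prod.mk.injEq .. ▸ hxy
    rw [hf2 y (hsub hy), hf1 y hy, h4]
  · refine ⟨P.enlarge (range (n + 1)), P.le_enlarge _, subset_union_right, ?_⟩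
    intro D R f h hp hg
    exact absurd ⟨D, R, f, h, hp, hg⟩ hx

/-- The first stage: two blocks sharing an odd and an even number. -/
def start : St where
  V := {0, 1, 2, 4, 6, 8}
  B := {{0, 1, 2, 4}, {0, 1, 6, 8}}
  sys := by
    have hpre : Pre ({{0, 1, 2, 4}, {0, 1, 6, 8}} : Finset (Finset ℕ)) := by
      refine ⟨by decide, by decide, by decide⟩
    refine ⟨hpre, fun W hW => small_case hpre hW ?_⟩
    exact (card_le_card (filter_subset _ _)).trans (by decide)
  supp := by decide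

/-- The stages. -/
noncomputable def stage : ℕ → St
  | 0 => start
  | n + 1 => (exists_good n (stage n)).choose

theorem stage_good (n : ℕ) : Good n (stage n) (stage (n + 1)) :=
  (exists_good n (stage n)).choose_spec

theorem stage_le {m n : ℕ} (h : m ≤ n) : Le (stage m) (stage n) := by
  induction n, h using Nat.le_induction with
  | base => exact Le.refl _
  | succ n _ ih => exact ih.trans (stage_good n).le

theorem mem_stage {x n : ℕ} (h : x < n) : x ∈ (stage n).V := by
  obtain ⟨m, rfl⟩ : ∃ m, n = m + 1 := ⟨n - 1, by omega⟩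
  exact (stage_good m).range (mem_range.2 h)

/-- All blocks. -/
def Blocks : Set (Finset ℕ) := {β | ∃ n, β ∈ (stage n).B}

theorem mem_of_blocks {β : Finset ℕ} (h : β ∈ Blocks) {n : ℕ} (hV : β ⊆ (stage n).V) :
    β ∈ (stage n).B := by
  obtain ⟨m, hm⟩ := h
  rcases le_total m n with h1 | h1
  · exact (stage_le h1).B hm
  · exact (stage_le h1).inside β hm hV

/-- Approximations of automorphisms. -/
structure Ap where
  n : ℕ
  D : Finset ℕ
  R : Finset ℕ
  f : ℕ → ℕ
  h : ℕ → ℕ
  pi : PI (stage n).B (stage n).V D R f h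

/-- Extension of approximations. -/
structure Ap.Ext (a b : Ap) : Prop where
  D : a.D ⊆ b.D
  f : ∀ x ∈ a.D, b.f x = a.f x

/-- The inverse approximation. -/
def Ap.symm (a : Ap) : Ap := ⟨a.n, a.R, a.D, a.h, a.f, a.pi.symm⟩

theorem Ap.Ext.symm {a b : Ap} (h : a.Ext b) : a.symm.Ext b.symm where
  D := by
    intro y hy
    change y ∈ b.R
    have h1 : a.h y ∈ a.D := a.pi.hD y hy
    have h2 := b.pi.fR _ (h.D h1)
    rw [h.f _ h1, a.pi.fh y hy] at h2
    exact h2
  f := by
    intro y hy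
    change b.h y = a.h y
    have h1 : a.h y ∈ a.D := a.pi.hD y hy
    have h2 := b.pi.hf _ (h.D h1)
    rw [h.f _ h1, a.pi.fh y hy] at h2
    exact h2

theorem Ap.Ext.trans {a b c : Ap} (h1 : a.Ext b) (h2 : b.Ext c) : a.Ext c :=
  ⟨h1.D.trans h2.D, fun x hx => by rw [h2.f x (h1.D hx), h1.f x hx]⟩

theorem Ap.forth (a : Ap) (k : ℕ) : ∃ b : Ap, a.Ext b ∧ k ∈ b.D := by
  obtain ⟨n, hn, he⟩ := e_spec (graph a.D a.f) (max a.n k)
  have h1 : a.n ≤ n := (le_max_left _ _).trans hn.le
  have h2 : k < n := lt_of_le_of_lt (le_max_right _ _) hn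
  obtain ⟨R', f', h', hp, hf⟩ := (stage_good n).ext _ _ _ _ ((stage_le h1).pi a.pi) he.symm
  exact ⟨⟨n + 1, _, R', f', h', hp⟩, ⟨a.pi.DV.trans (stage_le h1).V, hf⟩, mem_stage h2⟩

theorem Ap.next (a : Ap) (k : ℕ) : ∃ b : Ap, a.Ext b ∧ k ∈ b.D ∧ k ∈ b.R := by
  obtain ⟨b, hb, hk⟩ := a.forth k
  obtain ⟨c, hc, hk'⟩ := b.symm.forth k
  exact ⟨c.symm, hb.trans hc.symm, hc.symm.D hk, hk'⟩

/-- Extending an approximation step by step. -/
noncomputable def Ap.seq (a : Ap) : ℕ → Ap
  | 0 => a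
  | k + 1 => ((a.seq k).next k).choose

theorem Ap.seq_spec (a : Ap) (k : ℕ) :
    (a.seq k).Ext (a.seq (k + 1)) ∧ k ∈ (a.seq (k + 1)).D ∧ k ∈ (a.seq (k + 1)).R :=
  ((a.seq k).next k).choose_spec

theorem Ap.seq_ext (a : Ap) {j k : ℕ} (h : j ≤ k) : (a.seq j).Ext (a.seq k) := by
  induction k, h using Nat.le_induction with
  | base => exact ⟨Subset.rfl, fun _ _ => rfl⟩
  | succ k _ ih => exact ih.trans (a.seq_spec k).1

/-- **Every approximation extends to an automorphism.** -/
theorem Ap.exists_perm (a : Ap) : ∃ F : Equiv.Perm ℕ, (∀ x ∈ a.D, F x = a.f x) ∧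
    (∀ x, F x % 2 = x % 2) ∧ ∀ β : Finset ℕ, β ∈ Blocks ↔ β.image F ∈ Blocks := by
  have hfwd : ∀ x k, x + 1 ≤ k → (a.seq k).f x = (a.seq (x + 1)).f x ∧ x ∈ (a.seq k).D :=
    fun x k hk => ⟨(a.seq_ext hk).f x (a.seq_spec x).2.1, (a.seq_ext hk).D (a.seq_spec x).2.1⟩
  have hbwd : ∀ x k, x + 1 ≤ k → (a.seq k).h x = (a.seq (x + 1)).h x ∧ x ∈ (a.seq k).R :=
    fun x k hk => ⟨(a.seq_ext hk).symm.f x (a.seq_spec x).2.2,
      (a.seq_ext hk).symm.D (a.seq_spec x).2.2⟩
  let F : Equiv.Perm ℕ :=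
    { toFun := fun x => (a.seq (x + 1)).f x
      invFun := fun x => (a.seq (x + 1)).h x
      left_inv := by
        intro x
        change (a.seq ((a.seq (x + 1)).f x + 1)).h ((a.seq (x + 1)).f x) = x
        obtain ⟨k, hk⟩ : ∃ k, k = max (x + 1) ((a.seq (x + 1)).f x + 1) := ⟨_, rfl⟩
        have h1 := hfwd x k (by rw [hk]; exact le_max_left _ _)
        have h2 := hbwd ((a.seq (x + 1)).f x) k (by rw [hk]; exact le_max_right _ _)
        rw [← h2.1, ← h1.1]
        exact (a.seq k).pi.hf x h1.2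
      right_inv := by
        intro x
        change (a.seq ((a.seq (x + 1)).h x + 1)).f ((a.seq (x + 1)).h x) = x
        obtain ⟨k, hk⟩ : ∃ k, k = max (x + 1) ((a.seq (x + 1)).h x + 1) := ⟨_, rfl⟩
        have h1 := hbwd x k (by rw [hk]; exact le_max_left _ _)
        have h2 := hfwd ((a.seq (x + 1)).h x) k (by rw [hk]; exact le_max_right _ _)
        rw [← h2.1, ← h1.1]
        exact (a.seq k).pi.fh x h1.2 }
  have hF : ∀ x, F x = (a.seq (x + 1)).f x := fun _ => rfl
  refine ⟨F, ?_, ?_, ?_⟩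
  · intro x hx
    rw [hF]
    exact (a.seq_ext (Nat.zero_le _)).f x hx
  · intro x
    rw [hF]
    exact (a.seq (x + 1)).pi.par x (a.seq_spec x).2.1
  · intro β
    obtain ⟨k, hk⟩ : ∃ k, ∀ x ∈ β, x + 1 ≤ k := ⟨β.sup id + 1, fun x hx => by
      have := le_sup (f := id) hx
      simp only [id] at this
      omega⟩
    have h1 : β ⊆ (a.seq k).D := fun x hx => (hfwd x k (hk x hx)).2
    have h2 : β.image F = β.image (a.seq k).f :=
      image_congr fun x hx => by rw [hF]; exact (hfwd x k (hk x hx)).1.symm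
    have h3 := (a.seq k).pi.iso β h1
    rw [h2]
    constructor
    · intro hβ
      exact ⟨_, h3.1 (mem_of_blocks hβ (h1.trans (a.seq k).pi.DV))⟩
    · intro hβ
      exact ⟨_, h3.2 (mem_of_blocks hβ (((a.seq k).pi.image_sub h1).trans (a.seq k).pi.RV))⟩

/-! ### The group -/

theorem blocks_meet {β γ : Finset ℕ} (hβ : β ∈ Blocks) (hγ : γ ∈ Blocks)
    (h : 3 ≤ (β ∩ γ).card) : β = γ := by
  obtain ⟨m, hm⟩ := hβ
  obtain ⟨n, hn⟩ := hγ
  exact (stage (max m n)).sys.meet β ((stage_le (le_max_left m n)).B hm) γ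
    ((stage_le (le_max_right m n)).B hn) h

/-- The points named by the elements of a 3-set. -/
def dbl (s : Finset ℕ) : Finset ℕ := s.image fun x => 2 * x

theorem dbl_card (s : Finset ℕ) : (dbl s).card = s.card :=
  card_image_of_injective _ fun x y h => by simpa using h

theorem even_of_mem_dbl {s : Finset ℕ} {x : ℕ} (h : x ∈ dbl s) : x % 2 = 0 := by
  obtain ⟨y, _, rfl⟩ := mem_image.1 h
  omega

/-- The equivalence relation on 3-sets. -/
def E (s t : TSet ℕ 3) : Prop :=
  s = t ∨ ∃ c, c % 2 = 1 ∧ insert c (dbl s.1) ∈ Blocks ∧ insert c (dbl t.1) ∈ Blocks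

theorem E.symm {s t : TSet ℕ 3} (h : E s t) : E t s := by
  rcases h with rfl | ⟨c, hc, h1, h2⟩
  · exact Or.inl rfl
  · exact Or.inr ⟨c, hc, h2, h1⟩

theorem E.trans {s t u : TSet ℕ 3} (h1 : E s t) (h2 : E t u) : E s u := by
  rcases h1 with rfl | ⟨c, hc, h3, h4⟩
  · exact h2
  · rcases h2 with rfl | ⟨d, hd, h5, h6⟩
    · exact Or.inr ⟨c, hc, h3, h4⟩
    · have h7 : insert c (dbl t.1) = insert d (dbl t.1) := by
        refine blocks_meet h4 h5 ?_
        have e1 : (dbl t.1).card = 3 := (dbl_card _).trans t.2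
        exact e1.symm.le.trans
          (card_le_card (subset_inter (subset_insert _ _) (subset_insert _ _)))
      have h8 : c ∈ insert d (dbl t.1) := by rw [← h7]; exact mem_insert_self _ _
      have h9 : c = d := by
        rcases mem_insert.1 h8 with h9 | h9
        · exact h9
        · have := even_of_mem_dbl h9
          omega
      subst h9
      exact Or.inr ⟨c, hc, h3, h6⟩

theorem act_one {X : Type} {t : ℕ} (s : TSet X t) : act 1 s = s := by
  apply Subtype.ext
  change s.1.map (Equiv.toEmbedding 1) = s.1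
  exact map_refl

theorem act_mul {X : Type} {t : ℕ} (g h : Equiv.Perm X) (s : TSet X t) :
    act (g * h) s = act g (act h s) := by
  apply Subtype.ext
  change s.1.map (g * h).toEmbedding = (s.1.map h.toEmbedding).map g.toEmbedding
  rw [map_map]
  rfl

/-- The group of all permutations preserving the equivalence relation. -/
def Grp : Subgroup (Equiv.Perm ℕ) where
  carrier := {g | ∀ s t, E s t ↔ E (act g s) (act g t)}
  one_mem' := fun s t => by rw [act_one, act_one]
  mul_mem' := fun {g h} hg hh s t => by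
    rw [act_mul, act_mul, ← hg, ← hh]
  inv_mem' := fun {g} hg s t => by
    rw [hg (act g⁻¹ s) (act g⁻¹ t), ← act_mul, ← act_mul, mul_inv_cancel, act_one, act_one]

theorem mem_Grp {g : Equiv.Perm ℕ} : g ∈ Grp ↔ ∀ s t, E s t ↔ E (act g s) (act g t) := Iff.rfl

/-- An automorphism of the system of blocks induces an element of the group. -/
theorem exists_mem_Grp (F : Equiv.Perm ℕ) (hpar : ∀ x, F x % 2 = x % 2)
    (hB : ∀ β : Finset ℕ, β ∈ Blocks ↔ β.image F ∈ Blocks) :
    ∃ g ∈ Grp, ∀ x, 2 * g x = F (2 * x) := by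
  have h1 : ∀ x, 2 * (F (2 * x) / 2) = F (2 * x) := fun x => by
    have := hpar (2 * x)
    omega
  have h2 : ∀ x, 2 * (F.symm (2 * x) / 2) = F.symm (2 * x) := fun x => by
    have := hpar (F.symm (2 * x))
    rw [Equiv.apply_symm_apply] at this
    omega
  let g : Equiv.Perm ℕ :=
    { toFun := fun x => F (2 * x) / 2
      invFun := fun x => F.symm (2 * x) / 2
      left_inv := by
        intro x
        change F.symm (2 * (F (2 * x) / 2)) / 2 = x
        rw [h1, Equiv.symm_apply_apply]; omega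
      right_inv := by
        intro x
        change F (2 * (F.symm (2 * x) / 2)) / 2 = x
        rw [h2, Equiv.apply_symm_apply]; omega }
  have hg : ∀ x, 2 * g x = F (2 * x) := h1
  refine ⟨g, ?_, hg⟩
  rw [mem_Grp]
  have hd : ∀ s : TSet ℕ 3, dbl (act g s).1 = (dbl s.1).image F := by
    intro s
    ext x
    simp only [dbl, act, mem_image, mem_map]
    constructor
    · rintro ⟨_, ⟨y, hy, rfl⟩, rfl⟩
      exact ⟨2 * y, ⟨y, hy, rfl⟩, (hg y).symm⟩
    · rintro ⟨_, ⟨y, hy, rfl⟩, rfl⟩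
      exact ⟨g y, ⟨y, hy, rfl⟩, hg y⟩
  have hb : ∀ (c : ℕ) (s : TSet ℕ 3),
      insert c (dbl s.1) ∈ Blocks ↔ insert (F c) (dbl (act g s).1) ∈ Blocks := by
    intro c s
    rw [hB, image_insert, hd]
  intro s t
  constructor
  · rintro (rfl | ⟨c, hc, h3, h4⟩)
    · exact Or.inl rfl
    · exact Or.inr ⟨F c, by rw [hpar]; exact hc, (hb c s).1 h3, (hb c t).1 h4⟩
  · rintro (h | ⟨c, hc, h3, h4⟩)
    · left
      have := congrArg (act g⁻¹) h
      rwa [← act_mul, ← act_mul, inv_mul_cancel, act_one, act_one] at this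
    · right
      refine ⟨F.symm c, ?_, (hb _ s).2 ?_, (hb _ t).2 ?_⟩
      · rw [← hpar, Equiv.apply_symm_apply]; exact hc
      · rwa [Equiv.apply_symm_apply]
      · rwa [Equiv.apply_symm_apply]

/-- Four even points form a strong set. -/
theorem strong_four {B : Finset (Finset ℕ)} (hB : Sys B) {D : Finset ℕ} (hD : D.card = 4)
    (hev : ∀ x ∈ D, x % 2 = 0) : Strong B D := by
  intro W hW
  have h1 : 4 ≤ (ev W).card := by
    rw [← hD]
    exact card_le_card fun x hx => mem_filter.2 ⟨hW hx, hev x hx⟩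
  have := hB.free W h1
  omega

theorem not_mem_of_even {B : Finset (Finset ℕ)} (hB : Sys B) {β : Finset ℕ}
    (hev : ∀ x ∈ β, x % 2 = 0) : β ∉ B := by
  intro h
  have h1 : ev β = β := filter_true_of_mem hev
  have h2 := hB.ev3 β h
  have h3 := hB.card4 β h
  rw [h1] at h2
  omega

theorem four_transitive : TransitiveOnTuples Grp 4 := by
  classical
  intro a b ha hb
  let D : Finset ℕ := univ.image fun i => 2 * a i
  let R : Finset ℕ := univ.image fun i => 2 * b i
  have ha2 : Function.Injective fun i => 2 * a i := fun i j hij => ha (by simpa using hij)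
  have hb2 : Function.Injective fun i => 2 * b i := fun i j hij => hb (by simpa using hij)
  obtain ⟨n, hn⟩ : ∃ n, ∀ x ∈ D ∪ R, x < n := ⟨(D ∪ R).sup id + 1, fun x hx =>
    Nat.lt_succ_of_le (le_sup (f := id) hx)⟩
  have hDe : ∀ x ∈ D, x % 2 = 0 := by
    intro x hx
    obtain ⟨i, _, rfl⟩ := mem_image.1 hx
    omega
  have hRe : ∀ x ∈ R, x % 2 = 0 := by
    intro x hx
    obtain ⟨i, _, rfl⟩ := mem_image.1 hx
    omega
  let f : ℕ → ℕ := fun x => if h : ∃ i, 2 * a i = x then 2 * b h.choose else 0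
  let g : ℕ → ℕ := fun x => if h : ∃ i, 2 * b i = x then 2 * a h.choose else 0
  have hf : ∀ i, f (2 * a i) = 2 * b i := by
    intro i
    have h : ∃ j, 2 * a j = 2 * a i := ⟨i, rfl⟩
    have h1 : h.choose = i := ha2 h.choose_spec
    simp only [f]
    rw [dif_pos h, h1]
  have hg : ∀ i, g (2 * b i) = 2 * a i := by
    intro i
    have h : ∃ j, 2 * b j = 2 * b i := ⟨i, rfl⟩
    have h1 : h.choose = i := hb2 h.choose_spec
    simp only [g]
    rw [dif_pos h, h1]
  have hfR : ∀ x ∈ D, f x ∈ R := by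
    intro x hx
    obtain ⟨i, _, rfl⟩ := mem_image.1 hx
    rw [hf]
    exact mem_image.2 ⟨i, mem_univ _, rfl⟩
  have hgD : ∀ x ∈ R, g x ∈ D := by
    intro x hx
    obtain ⟨i, _, rfl⟩ := mem_image.1 hx
    rw [hg]
    exact mem_image.2 ⟨i, mem_univ _, rfl⟩
  have hpi : PI (stage n).B (stage n).V D R f g :=
    { DV := fun x hx => mem_stage (hn x (mem_union_left _ hx))
      RV := fun x hx => mem_stage (hn x (mem_union_right _ hx))
      sD := strong_four (stage n).sys
        (by rw [card_image_of_injective _ ha2]; rfl) hDe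
      sR := strong_four (stage n).sys
        (by rw [card_image_of_injective _ hb2]; rfl) hRe
      fR := hfR
      hf := by
        intro x hx
        obtain ⟨i, _, rfl⟩ := mem_image.1 hx
        rw [hf, hg]
      par := by
        intro x hx
        rw [hDe x hx, hRe _ (hfR x hx)]
      hD := hgD
      fh := by
        intro x hx
        obtain ⟨i, _, rfl⟩ := mem_image.1 hx
        rw [hg, hf]
      iso := by
        intro β hβ
        refine iff_of_false (not_mem_of_even (stage n).sys fun x hx => hDe x (hβ hx))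
          (not_mem_of_even (stage n).sys fun x hx => ?_)
        obtain ⟨y, hy, rfl⟩ := mem_image.1 hx
        exact hRe _ (hfR y (hβ hy)) }
  obtain ⟨F, h1, h2, h3⟩ := (Ap.mk n D R f g hpi).exists_perm
  obtain ⟨k, hk, h4⟩ := exists_mem_Grp F h2 h3
  refine ⟨k, hk, fun i => ?_⟩
  have h5 := h1 (2 * a i) (mem_image.2 ⟨i, mem_univ _, rfl⟩)
  change F (2 * a i) = f (2 * a i) at h5
  rw [hf, ← h4] at h5
  omega

/-! ### The block of imprimitivity -/

/-- The 3-set `{0, 1, 2}`. -/
def s0 : TSet ℕ 3 := ⟨{0, 1, 2}, by decide⟩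

/-- The 3-set `{0, 3, 4}`. -/
def s1 : TSet ℕ 3 := ⟨{0, 3, 4}, by decide⟩

/-- The 3-set `{0, 1, 3}`. -/
def s2 : TSet ℕ 3 := ⟨{0, 1, 3}, by decide⟩

theorem E_s0_s1 : E s0 s1 := by
  refine Or.inr ⟨1, rfl, ⟨0, ?_⟩, ⟨0, ?_⟩⟩
  · change insert 1 (dbl {0, 1, 2}) ∈ ({{0, 1, 2, 4}, {0, 1, 6, 8}} : Finset (Finset ℕ))
    decide
  · change insert 1 (dbl {0, 3, 4}) ∈ ({{0, 1, 2, 4}, {0, 1, 6, 8}} : Finset (Finset ℕ))
    decide

theorem not_E_s0_s2 : ¬ E s0 s2 := by
  rintro (h | ⟨c, hc, h1, h2⟩)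
  · exact absurd (congrArg Subtype.val h) (by decide)
  · have h3 : insert c (dbl s0.1) = insert c (dbl s2.1) := by
      refine blocks_meet h1 h2 ?_
      have h4 : ({c, 0, 2} : Finset ℕ) ⊆ insert c (dbl s0.1) ∩ insert c (dbl s2.1) := by
        intro x hx
        simp only [mem_insert, mem_singleton] at hx
        rw [mem_inter, mem_insert, mem_insert]
        rcases hx with rfl | rfl | rfl
        · exact ⟨Or.inl rfl, Or.inl rfl⟩
        · exact ⟨Or.inr (by decide), Or.inr (by decide)⟩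
        · exact ⟨Or.inr (by decide), Or.inr (by decide)⟩
      refine le_trans ?_ (card_le_card h4)
      rw [card_insert_of_notMem, card_insert_of_notMem, card_singleton]
      · decide
      · simp only [mem_insert, mem_singleton]
        rintro (rfl | rfl) <;> omega
    have h4 : 4 ∈ insert c (dbl s2.1) := by
      rw [← h3]
      exact mem_insert_of_mem (by decide)
    rcases mem_insert.1 h4 with h5 | h5
    · omega
    · revert h5; decide

theorem not_setPrimitive : ¬ SetPrimitive Grp 3 := by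
  intro h
  rcases h.2 ⟨E, fun _ => Or.inl rfl, E.symm, E.trans⟩
    (fun g hg s s' hs => (mem_Grp.1 hg s s').1 hs) with h1 | h1
  · exact absurd (congrArg Subtype.val (h1 s0 s1 E_s0_s1)) (by decide)
  · exact not_E_s0_s2 (h1 s0 s2)

/-- **Disproof.** -/
theorem result : ∃ G : Subgroup (Equiv.Perm ℕ), TransitiveOnTuples G 4 ∧ ¬ SetPrimitive G 3 ∧
    ∃ S : Set (TSet ℕ 3), IsImprimitivityBlock G S ∧ ¬ IsPartitionOf S := by
  refine ⟨Grp, four_transitive, not_setPrimitive, {s | E s0 s}, ⟨?_, ?_, ?_⟩, ?_⟩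
  · exact ⟨s0, Or.inl rfl, s1, E_s0_s1, fun h => absurd (congrArg Subtype.val h) (by decide)⟩
  · intro h
    have h1 : s2 ∈ {s | E s0 s} := by rw [h]; trivial
    exact not_E_s0_s2 h1
  · intro g hg
    by_cases h : E s0 (act g s0)
    · left
      ext t
      constructor
      · rintro ⟨s, hs, rfl⟩
        exact h.trans ((mem_Grp.1 hg s0 s).1 hs)
      · intro ht
        refine ⟨act g⁻¹ t, ?_, ?_⟩
        · have h1 : act g (act g⁻¹ t) = t := by
            rw [← act_mul, mul_inv_cancel, act_one]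
          refine (mem_Grp.1 hg s0 _).2 ?_
          rw [h1]
          exact h.symm.trans ht
        · rw [← act_mul, mul_inv_cancel, act_one]
    · right
      rw [Set.disjoint_left]
      rintro _ ⟨s, hs, rfl⟩ h2
      exact h (E.trans h2 ((mem_Grp.1 hg s0 s).1 hs).symm)
  · intro h
    obtain ⟨s, _, hu⟩ := h 0
    have h1 := hu s0 ⟨Or.inl rfl, by decide⟩
    have h2 := hu s1 ⟨E_s0_s1, by decide⟩
    exact absurd (congrArg Subtype.val (h1.trans h2.symm)) (by decide)

end Pool.Agent.Results.MP_c0ccbe_al.ParallelTriples
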