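import Mathlib

/-!
In the `ℓ₁`-sum of the Euclidean spaces `ℓ₂¹, ℓ₂², ℓ₂³, …` the origin is an almost preserved
extreme point of the unit ball, although it is not one in any of the (finite-dimensional) summands:
a weak neighbourhood of the origin is given by finitely many functionals, which vanish at some unit
vector `u` of a summand of large dimension, and a small slice of the unit ball given by
`x ↦ ⟪u, x_n⟫` lies close to `u`.
-/

namespace Pool.Agent.Results.MP_c12391_an.HilbertSummands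

open Filter Topology

section Defs

variable {X : Type} [NormedAddCommGroup X] [NormedSpace ℝ X]

/-- The slice `S(C, f, α) = {x ∈ C : f x > sup f(C) - α}`. -/
def slice (C : Set X) (f : StrongDual ℝ X) (α : ℝ) : Set X :=
  {x | x ∈ C ∧ sSup (f '' C) - α < f x}

/-- `x₀` is an almost preserved extreme point of `C`: it is a point of `C`, and every relatively
weakly open subset of `C` that contains `x₀` contains a nonempty slice of `C`. -/
def IsAPEP (C : Set X) (x₀ : X) : Prop :=
  x₀ ∈ C ∧ ∀ U : Set (WeakSpace ℝ X), IsOpen U → toWeakSpace ℝ X x₀ ∈ U →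
    ∃ (f : StrongDual ℝ X) (α : ℝ), 0 < α ∧ (slice C f α).Nonempty ∧
      slice C f α ⊆ {x | toWeakSpace ℝ X x ∈ U} ∩ C

end Defs

/-- The origin is an almost preserved extreme point of the closed unit ball of `X`. -/
def OriginAPEP (X : Type) [NormedAddCommGroup X] [NormedSpace ℝ X] : Prop :=
  IsAPEP (Metric.closedBall (0 : X) 1) 0

/-- The summands: Euclidean spaces of dimensions `1, 2, 3, …`. -/
abbrev E (n : ℕ) : Type := EuclideanSpace ℝ (Fin (n + 1))

/-- The `ℓ₁`-sum. -/
abbrev L1 : Type := lp E 1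

/-- the origin is not an almost preserved extreme point of a summand -/
lemma not_apep (n : ℕ) : ¬ IsAPEP (Metric.closedBall (0 : E n) 1) 0 := by
  rintro ⟨_, h⟩
  -- the weak neighbourhood given by the coordinates
  set δ : ℝ := 1 / ((n : ℝ) + 1) with hδ
  have hδ0 : 0 < δ := by positivity
  let U : Set (WeakSpace ℝ (E n)) :=
    ⋂ j : Fin (n + 1), {y | |((toWeakSpace ℝ (E n)).symm y) j| < δ}
  have hU : IsOpen U := by
    refine isOpen_iInter_of_finite fun j => ?_
    have hc : Continuous fun y : WeakSpace ℝ (E n) => ((toWeakSpace ℝ (E n)).symm y) j :=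
      WeakBilin.eval_continuous (topDualPairing ℝ (E n)).flip (EuclideanSpace.proj j)
    exact isOpen_lt hc.abs continuous_const
  obtain ⟨f, α, hα, ⟨x, hx, hfx⟩, hsub⟩ := h U hU (Set.mem_iInter.2 fun j => by simpa using hδ0)
  have hx1 : ‖x‖ ≤ 1 := by simpa using hx
  -- a norm one point of the slice
  obtain ⟨u, hu1, hfu⟩ : ∃ u : E n, ‖u‖ = 1 ∧ f x ≤ f u := by
    have hkey : ∀ v : E n, v ≠ 0 → ∃ u : E n, ‖u‖ = 1 ∧ |f v| ≤ ‖v‖ * f u := by
      intro v hv
      have hv0 : 0 < ‖v‖ := norm_pos_iff.2 hv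
      rcases le_total 0 (f v) with h0 | h0
      · refine ⟨‖v‖⁻¹ • v, by rw [norm_smul, norm_inv, norm_norm, inv_mul_cancel₀ hv0.ne'], ?_⟩
        rw [map_smul, smul_eq_mul, ← mul_assoc, mul_inv_cancel₀ hv0.ne', one_mul, abs_of_nonneg h0]
      · refine ⟨-(‖v‖⁻¹ • v), by
          rw [norm_neg, norm_smul, norm_inv, norm_norm, inv_mul_cancel₀ hv0.ne'], ?_⟩
        rw [map_neg, map_smul, smul_eq_mul, mul_neg, ← mul_assoc, mul_inv_cancel₀ hv0.ne', one_mul,
          abs_of_nonpos h0]
    by_cases hx0 : x = 0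
    · obtain ⟨v, hv⟩ := exists_ne (0 : E n)
      obtain ⟨u, hu, hfu⟩ := hkey v hv
      refine ⟨u, hu, ?_⟩
      rw [hx0, map_zero]
      have hv0 : 0 < ‖v‖ := norm_pos_iff.2 hv
      exact nonneg_of_mul_nonneg_right ((abs_nonneg _).trans hfu) hv0
    · obtain ⟨u, hu, hfu⟩ := hkey x hx0
      refine ⟨u, hu, ?_⟩
      have hx0' : 0 < ‖x‖ := norm_pos_iff.2 hx0
      have h2 : 0 ≤ f u := nonneg_of_mul_nonneg_right ((abs_nonneg _).trans hfu) hx0'
      calc f x ≤ |f x| := le_abs_self _
        _ ≤ ‖x‖ * f u := hfu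
        _ ≤ 1 * f u := mul_le_mul_of_nonneg_right hx1 h2
        _ = f u := one_mul _
  have hu : u ∈ slice (Metric.closedBall (0 : E n) 1) f α :=
    ⟨by simp [hu1], lt_of_lt_of_le hfx hfu⟩
  have hmem := (hsub hu).1
  have hcoord : ∀ j, |u j| < δ := fun j => Set.mem_iInter.1 hmem j
  have h1 : ‖u‖ ^ 2 < 1 := by
    rw [EuclideanSpace.norm_sq_eq]
    calc ∑ j, ‖u j‖ ^ 2 < ∑ _j : Fin (n + 1), δ ^ 2 := by
          refine Finset.sum_lt_sum_of_nonempty Finset.univ_nonempty fun j _ => ?_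
          rw [Real.norm_eq_abs]
          exact pow_lt_pow_left₀ (hcoord j) (abs_nonneg _) two_ne_zero
      _ = δ := by
          rw [Finset.sum_const, Finset.card_univ, Fintype.card_fin, nsmul_eq_mul, hδ]
          push_cast
          field_simp
      _ ≤ 1 := by
          rw [hδ, div_le_one (by positivity)]
          linarith [Nat.cast_nonneg (α := ℝ) n]
  rw [hu1] at h1
  norm_num at h1

/-- the origin is an almost preserved extreme point of the unit ball of the `ℓ₁`-sum -/
lemma apep : IsAPEP (Metric.closedBall (0 : L1) 1) 0 := by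
  refine ⟨by simp, fun U hU h0 => ?_⟩
  -- finitely many functionals
  have hnhds : U ∈ 𝓝 (0 : WeakSpace ℝ L1) := hU.mem_nhds (by simpa using h0)
  obtain ⟨V, hV, hVU⟩ := ((topDualPairing ℝ L1).flip.hasBasis_weakBilin.mem_iff).1 hnhds
  obtain ⟨s, r, hr, rfl⟩ := (SeminormFamily.basisSets_iff _).1 hV
  have hV2 : ∀ x : L1, (∀ g ∈ s, |g x| < r) → toWeakSpace ℝ L1 x ∈ U := by
    intro x hx
    have h1 : (s.sup (topDualPairing ℝ L1).flip.toSeminormFamily) x < r :=
      Seminorm.finset_sup_apply_lt hr fun g hg => hx g hg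
    exact hVU ((Seminorm.mem_ball_zero _).2 h1)
  -- a unit vector of a summand killed by the functionals
  set n := s.card with hn
  let T : E n →ₗ[ℝ] (s → ℝ) :=
    LinearMap.pi fun g => (g.1 : L1 →ₗ[ℝ] ℝ) ∘ₗ lp.lsingle (𝕜 := ℝ) 1 n
  have hker : LinearMap.ker T ≠ ⊥ := by
    apply LinearMap.ker_ne_bot_of_finrank_lt
    rw [Module.finrank_fintype_fun_eq_card, Fintype.card_coe, finrank_euclideanSpace,
      Fintype.card_fin]
    omega
  obtain ⟨w, hw, hw0⟩ := (Submodule.ne_bot_iff _).1 hker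
  have hwn : 0 < ‖w‖ := norm_pos_iff.2 hw0
  set u : E n := ‖w‖⁻¹ • w with hu
  have hu1 : ‖u‖ = 1 := by rw [hu, norm_smul, norm_inv, norm_norm, inv_mul_cancel₀ hwn.ne']
  have hgu : ∀ g ∈ s, g (lp.single 1 n u) = 0 := by
    intro g hg
    have h1 : T w = 0 := hw
    have h2 : g (lp.single 1 n w) = 0 := congrFun h1 ⟨g, hg⟩
    rw [hu, lp.single_smul, map_smul, h2, smul_zero]
  -- the functional
  let f : StrongDual ℝ L1 := (innerSL ℝ u) ∘L (lp.evalCLM ℝ E 1 n)
  have hf : ∀ x : L1, f x = inner ℝ u (x n) := fun x => rfl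
  have hsup : sSup (f '' Metric.closedBall (0 : L1) 1) = 1 := by
    apply le_antisymm
    · refine csSup_le ⟨f 0, 0, by simp, rfl⟩ ?_
      rintro _ ⟨x, hx, rfl⟩
      rw [hf]
      have h1 : ‖x‖ ≤ 1 := by simpa using hx
      calc inner ℝ u (x n) ≤ ‖u‖ * ‖x n‖ := real_inner_le_norm _ _
        _ = ‖x n‖ := by rw [hu1, one_mul]
        _ ≤ ‖x‖ := lp.norm_apply_le_norm one_ne_zero x n
        _ ≤ 1 := h1
    · refine le_csSup ⟨1, ?_⟩ ⟨lp.single 1 n u, ?_, ?_⟩
      · rintro _ ⟨x, hx, rfl⟩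
        rw [hf]
        have h1 : ‖x‖ ≤ 1 := by simpa using hx
        calc inner ℝ u (x n) ≤ ‖u‖ * ‖x n‖ := real_inner_le_norm _ _
          _ = ‖x n‖ := by rw [hu1, one_mul]
          _ ≤ ‖x‖ := lp.norm_apply_le_norm one_ne_zero x n
          _ ≤ 1 := h1
      · rw [mem_closedBall_zero_iff, lp.norm_single one_pos, hu1]
      · rw [hf, lp.single_apply_self, real_inner_self_eq_norm_sq, hu1, one_pow]
  -- a bound for the functionals
  obtain ⟨M, hM0, hM⟩ : ∃ M : ℝ, 0 < M ∧ ∀ g ∈ s, ‖g‖ ≤ M := by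
    refine ⟨∑ g ∈ s, ‖g‖ + 1, ?_, fun g hg => ?_⟩
    · have : 0 ≤ ∑ g ∈ s, ‖g‖ := Finset.sum_nonneg fun g _ => norm_nonneg g
      linarith
    · have := Finset.single_le_sum (f := fun g : StrongDual ℝ L1 => ‖g‖)
        (fun g _ => norm_nonneg g) hg
      linarith
  -- choice of the width
  obtain ⟨η, hη0, hη1, hη2⟩ : ∃ η : ℝ, 0 < η ∧ η < 1 ∧ M * (2 * η) < r := by
    refine ⟨min (1 / 2) (r / (4 * M)), by positivity, ?_, ?_⟩
    · exact (min_le_left _ _).trans_lt (by norm_num)
    · have h1 : min (1 / 2) (r / (4 * M)) ≤ r / (4 * M) := min_le_right _ _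
      have h2 : M * (2 * (r / (4 * M))) = r / 2 := by field_simp; ring
      have h3 : M * (2 * min (1 / 2) (r / (4 * M))) ≤ M * (2 * (r / (4 * M))) := by gcongr
      linarith
  refine ⟨f, η ^ 2 / 2, by positivity, ⟨lp.single 1 n u, ?_, ?_⟩, ?_⟩
  · rw [mem_closedBall_zero_iff, lp.norm_single one_pos, hu1]
  · rw [hsup, hf, lp.single_apply_self, real_inner_self_eq_norm_sq, hu1]
    have : 0 < η ^ 2 / 2 := by positivity
    linarith
  · rintro x ⟨hx, hfx⟩
    refine ⟨hV2 x fun g hg => ?_, hx⟩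
    have hx1 : ‖x‖ ≤ 1 := by simpa using hx
    rw [hsup, hf] at hfx
    have hxn : ‖x n‖ ≤ 1 := (lp.norm_apply_le_norm one_ne_zero x n).trans hx1
    have hxn2 : 1 - η ^ 2 / 2 < ‖x n‖ := by
      refine hfx.trans_le ?_
      calc inner ℝ u (x n) ≤ ‖u‖ * ‖x n‖ := real_inner_le_norm _ _
        _ = ‖x n‖ := by rw [hu1, one_mul]
    -- the other coordinates are small
    have hrest : ‖x - lp.single 1 n (x n)‖ ≤ η := by
      have h1 := lp.norm_sub_norm_compl_sub_single (p := 1) (by simp) x {n}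
      simp only [Finset.sum_singleton, ENNReal.toReal_one, Real.rpow_one] at h1
      have h2 : ‖x - lp.single 1 n (x n)‖ ≤ η ^ 2 / 2 := by linarith
      nlinarith
    -- the coordinate of index n is close to u
    have hclose : ‖x n - u‖ ≤ η := by
      have h1 : ‖x n - u‖ ^ 2 ≤ η ^ 2 := by
        rw [norm_sub_sq_real, hu1, real_inner_comm]
        nlinarith [norm_nonneg (x n)]
      exact abs_le_of_sq_le_sq' h1 hη0.le |>.2
    have hdecomp : x = (x - lp.single 1 n (x n)) + lp.single 1 n (x n - u) + lp.single 1 n u := by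
      rw [lp.single_sub]
      abel
    have hgx : g x = g ((x - lp.single 1 n (x n)) + lp.single 1 n (x n - u)) := by
      conv_lhs => rw [hdecomp]
      rw [map_add, hgu g hg, add_zero]
    rw [hgx, ← Real.norm_eq_abs]
    calc ‖g ((x - lp.single 1 n (x n)) + lp.single 1 n (x n - u))‖
        ≤ ‖g‖ * ‖(x - lp.single 1 n (x n)) + lp.single 1 n (x n - u)‖ := g.le_opNorm _
      _ ≤ M * (2 * η) := by
          refine mul_le_mul (hM g hg) ?_ (norm_nonneg _) hM0.le
          refine (norm_add_le _ _).trans ?_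
          rw [lp.norm_single one_pos]
          linarith
      _ < r := hη2

/-- There is an infinite family of Banach spaces (the Euclidean spaces of dimensions `1, 2, 3, …`)
such that the origin is an almost preserved extreme point of the unit ball of the `ℓ₁`-sum, but of
none of the unit balls of the summands. -/
theorem result : ∃ (Y : ℕ → Type) (_ : ∀ n, NormedAddCommGroup (Y n))
    (_ : ∀ n, NormedSpace ℝ (Y n)), (∀ n, CompleteSpace (Y n)) ∧ OriginAPEP (lp Y 1) ∧
      ∀ n, ¬ OriginAPEP (Y n) :=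
  ⟨E, fun _ => inferInstance, fun _ => inferInstance, fun _ => inferInstance, apep, not_apep⟩

end Pool.Agent.Results.MP_c12391_an.HilbertSummands
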