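import Pool.Agent.Q41.AB.Fx
import Pool.Agent.Q34.AB.Int
import Pool.Agent.Q176.AB.FG

/-!
# Log canonical rings of abelian covers

Let `K` be the function field of an abelian cover of the product of the projective spaces of the
dimensions `n l`, branched along any number `N` of hypersurfaces `F c = 0` with normal crossings, of any
multidegrees `d c`: `K` is generated by the affine coordinates `x` and by roots `z j`,
`z j ^ m j = ∏ c, F c (x) ^ a j c` (by Kummer theory all abelian covers are of this form). Let `(V, D)`
be a log smooth pair, `V` a smooth projective model of `K` such that the preimage of the hypersurfaces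
`F c = 0`, `c ∈ S`, is a divisor `D` with normal crossings (with coefficients one). The definitions of
covers, normal crossings and of the boundary are in `Pool.Agent.Q41.RC.Defs`.

**Theorem.** The log canonical ring, the direct sum of the spaces `H⁰ (m (K_V + D))`, is a finitely
generated algebra. There is no condition on `K_V + D`: the pair is log canonical, not klt, and
`K_V + D` need not be big.

For log canonical pairs of log general type finite generation is equivalent to the existence of a log
canonical model, and it is not known in general.

**Proof.** The sections of a multiple `T (K_V + D)` which compute the asymptotic orders of vanishing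
(`Pool.Agent.Results.MP_badc2d_ag.NormalCrossingCovers`) generate a graded algebra over which all other
sections are integral: the quotient `η ^ T / ω i ^ m` is regular at all divisorial places where all
`ω j / ω i` are regular. So the log canonical ring is contained in the integral closure of a finitely
generated algebra in a finitely generated field extension.
-/

set_option autoImplicit false

open FF MvPolynomial Pool.Agent.W602.GT Pool.Agent.Q41.RC.Def

namespace Pool.Agent.Results.MP_c1e25c_ag.LogCanonicalRings

section sections

/-- `ω` is a section of `m (K_V + D)`: a rational section of the `m`-th power of the canonical bundle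
(`IsPluri`: a function of `w` rational vector fields which is multiplied by `det B ^ m` under a linear
substitution `B`) whose order on the vector fields which are regular at `P` is at least minus `m` times
the coefficient `δ P` of `P` in the boundary, for all prime divisors `P` (all divisorial places `P` of
`K`). -/
def IsSection {K : Type} [Field K] [Algebra ℂ K] (w : ℕ) (δ : Place ℂ K → ℚ) (m : ℕ)
    (ω : (Fin w → Derivation ℂ K K) → K) : Prop :=
  IsPluri m ω ∧ ∀ P : Place ℂ K, Divisorial w P → ∀ D : Fin w → Derivation ℂ K K,
    (∀ c, DerReg P (D c)) → ω D = 0 ∨ - (m * δ P) ≤ P.ord (ω D)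

/-- The log canonical ring, the direct sum of the spaces of the sections of `m (K_V + D)` for `m ≥ 0`,
is a finitely generated algebra: there are finitely many sections `ω i` of multiples `u i (K_V + D)`,
`u i ≥ 1`, such that every section of `m (K_V + D)` is a linear combination of monomials `∏ i, ω i ^ a i`
of the degree `∑ i, a i * u i = m`, for all `m`. -/
def FinitelyGenerated {K : Type} [Field K] [Algebra ℂ K] (w : ℕ) (δ : Place ℂ K → ℚ) : Prop :=
  ∃ (s : ℕ) (u : Fin s → ℕ) (ω : Fin s → (Fin w → Derivation ℂ K K) → K),
    (∀ i, 1 ≤ u i ∧ IsSection w δ (u i) (ω i)) ∧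
    ∀ (m : ℕ) (η : (Fin w → Derivation ℂ K K) → K), IsSection w δ m η →
      η ∈ Submodule.span ℂ {p | ∃ a : Fin s → ℕ, ∑ i, a i * u i = m ∧
        p = fun D => ∏ i, ω i D ^ a i}

end sections

open scoped Classical in
/-- The coefficients of the boundary: `1` for the prime divisors over the hypersurfaces `F c = 0`,
`c ∈ S`, and `0` for the others. -/
noncomputable def coefficient {r N : ℕ} {n : Fin r → ℕ} (d : Fin N → Fin r → ℕ)
    (F : Fin N → MvPolynomial (Coord n) ℂ) (S : Set (Fin N)) {K : Type} [Field K] [Algebra ℂ K]
    (x : Coord n → K) (P : Place ℂ K) : ℚ :=
  if Boundary d F S x P then 1 else 0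

/-- **Log canonical rings.** Let `K` be the function field of an abelian cover of the product of the
projective spaces of the dimensions `n l`, `l < r`, branched at most along the hypersurfaces `F c = 0`,
`c < N`, of the multidegrees `d c`, which have normal crossings, and let `(V, D)` be a log smooth model
of `K` such that `D` is the preimage of the hypersurfaces `F c = 0` with `c ∈ S`. Then the log canonical
ring of `(V, D)` is finitely generated. -/
theorem result {r N R : ℕ} (hr : 0 < r) {n : Fin r → ℕ} {d : Fin N → Fin r → ℕ}
    {F : Fin N → MvPolynomial (Coord n) ℂ} {m : Fin R → ℕ} {a : Fin R → Fin N → ℕ} {K : Type}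
    [Field K] [Algebra ℂ K] {x : Coord n → K} {z : Fin R → K} (h : IsCover d F m a x z)
    (hF : NormalCrossings F) (S : Set (Fin N)) :
    FinitelyGenerated (∑ l, n l) (coefficient d F S x) := by
  have h1 : ∀ (m : ℕ) (ω : (Fin (∑ l, n l) → Derivation ℂ K K) → K),
      Pool.Agent.Q57.TP.BSec (∑ l, n l) (coefficient d F S x) {1} m 1 ω ↔
        IsSection (∑ l, n l) (coefficient d F S x) m ω := by
    intro m ω
    refine and_congr Iff.rfl (forall_congr' fun P => forall_congr' fun _ => forall_congr' fun D =>
      forall_congr' fun _ => or_congr Iff.rfl ?_)
    constructor
    · rintro ⟨s, hs, -, hle⟩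
      rw [Finset.mem_singleton] at hs
      rw [hs, P.ord_one] at hle
      push_cast at hle
      linarith
    · intro hle
      refine ⟨1, Finset.mem_singleton_self _, one_ne_zero, ?_⟩
      rw [P.ord_one]
      push_cast
      linarith
  obtain ⟨s, u, ω, h2, h3⟩ := Pool.Agent.Q41.AB.final_fin Pool.Agent.Q34.AB.int
    Pool.Agent.Q176.AB.fg h hF hr (S := S) (δb := coefficient d F S x) (fun _ hP => if_pos hP)
    (fun _ hP => if_neg hP)
  exact ⟨s, u, ω, fun i => ⟨(h2 i).1, (h1 _ _).1 (h2 i).2⟩, fun m η hη => h3 m η ((h1 _ _).2 hη)⟩

end Pool.Agent.Results.MP_c1e25c_ag.LogCanonicalRings
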