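import Pool.Agent.Q173.FG.Main

/-!
# Finite generation of étale motivic cohomology for schemes built from hypersurfaces of any dimension

Let `n < 0`. The groups `H^i(X_et, ℤ^c(n))` are finite, for all integers `i`, for all smooth projective
varieties `X` over finite fields of characteristic `p ≥ 5` whose Chow motive over the algebraic closure
is generated (tensor products, direct sums, direct summands, Tate twists) by the motives of abelian
varieties and of the smooth hypersurfaces of ARBITRARY dimension

  `f_1 + f_2 + ⋯ + f_r = 0`, `f_j` in disjoint sets of variables,

the `f_j` binary forms of one degree `d` prime to `p`, or cubic forms in at most four variables (one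
further term `u_j ^ d` is allowed for each `j`). They are finite for all (also singular, non-proper)
schemes built from these by closed-open decompositions (two out of three), affine and projective
bundles, and finite étale coverings, for example for the affine varieties `f_1 + ⋯ + f_r = 1`.

They are finitely generated, for all `i`, for all arithmetic schemes built in the same way from these
and from flat schemes over rings of integers with cellular geometric fibres; for example for the regular
proper flat schemes obtained from the projective space over a ring of integers by blowing up such
hypersurfaces `W` in its closed fibres.
-/

set_option autoImplicit false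

open CategoryTheory MonoidalCategory

universe v u w

namespace Pool.Agent.Results.MP_c1eb4d_ag.BuiltFromHypersurfaces

open Pool.Agent.Q173.FG

/-- **Finiteness and finite generation in negative weights.** `T`: motives over algebraic closures of
the prime fields, arithmetic schemes and their étale motivic cohomology (`hT`: known facts); `T.Good`:
smooth projective over a finite field of characteristic at least five, with a motive generated by
abelian varieties and hypersurfaces of arbitrary dimension as above; `T.Cell`: flat over a ring of
integers, with cellular geometric fibres; `T.toCoh.Built S`: built from the schemes with property `S`. -/
theorem result {𝓜 : ℕ → Type u} [∀ p, Category.{v} (𝓜 p)] [∀ p, Preadditive (𝓜 p)]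
    [∀ p, MonoidalCategory (𝓜 p)] {T : EData.{v, u, w} 𝓜} (hT : T.Facts) :
    (∀ X, T.toCoh.Built T.Good X → ∀ n i : ℤ, n < 0 → Finite (T.H X n i)) ∧
    (∀ X, T.toCoh.Built (fun X => T.Good X ∨ T.Cell X) X → ∀ n i : ℤ, n < 0 →
      AddGroup.FG (T.H X n i)) :=
  EData.main hT

end Pool.Agent.Results.MP_c1eb4d_ag.BuiltFromHypersurfaces
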