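import Pool.Agent.Q173.FG.Main

/-!
# Finiteness of étale motivic cohomology for schemes over finite fields built from hypersurfaces of any dimension

Let `n < 0`. The groups `H^i(X_et, ℤ^c(n))` are finite, for all integers `i`, for all smooth projective
varieties `X` over finite fields of characteristic `p ≥ 5` whose Chow motive over the algebraic closure
is generated (tensor products, direct sums, direct summands, Tate twists) by the motives of abelian
varieties and of the smooth hypersurfaces of ARBITRARY dimension

  `f_1 + f_2 + ⋯ + f_r = 0`, `f_j` in disjoint sets of variables,

the `f_j` binary forms of one degree `d` prime to `p`, or cubic forms in at most four variables (one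
further term `u_j ^ d` is allowed for each `j`). They are finite for all (also singular, non-proper)
schemes built from these by closed-open decompositions (two out of three), affine and projective
bundles, and finite étale coverings, for example for the affine varieties `f_1 + ⋯ + f_r = 1`.
-/

set_option autoImplicit false

open CategoryTheory MonoidalCategory

universe v u w

namespace Pool.Agent.Results.MP_c1eb4d_ag.FiniteInCharacteristicP

open Pool.Agent.Q173.FG

/-- **Finiteness in negative weights.** `T`: motives over algebraic closures of the prime fields,
arithmetic schemes and their étale motivic cohomology (`hT`: known facts); `T.Good`: smooth projective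
over a finite field of characteristic at least five, with a motive generated by abelian varieties and
hypersurfaces of arbitrary dimension as above; `T.toCoh.Built S`: built from the schemes with property
`S`. -/
theorem result {𝓜 : ℕ → Type u} [∀ p, Category.{v} (𝓜 p)] [∀ p, Preadditive (𝓜 p)]
    [∀ p, MonoidalCategory (𝓜 p)] {T : EData.{v, u, w} 𝓜} (hT : T.Facts) :
    ∀ X, T.toCoh.Built T.Good X → ∀ n i : ℤ, n < 0 → Finite (T.H X n i) :=
  (EData.main hT).1

end Pool.Agent.Results.MP_c1eb4d_ag.FiniteInCharacteristicP
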