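import Pool.Agent.Q173.FG.Main

/-!
# Finite generation of étale motivic cohomology for arithmetic schemes of mixed characteristic

Let `n < 0`. The groups `H^i(X_et, ℤ^c(n))` are finitely generated, for all integers `i`, for all
arithmetic schemes `X` built by closed-open decompositions (two out of three), affine and projective
bundles and finite étale coverings from

* flat schemes over rings of integers with cellular geometric fibres;
* smooth projective varieties over finite fields of characteristic `p ≥ 5` whose Chow motive over the
  algebraic closure is generated by the motives of abelian varieties and of the smooth hypersurfaces of
  ARBITRARY dimension `f_1 + f_2 + ⋯ + f_r = 0`, `f_j` in disjoint sets of variables, the `f_j` binary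
  forms of one degree `d` prime to `p`, or cubic forms in at most four variables (one further term
  `u_j ^ d` is allowed for each `j`);

for example for the regular proper flat schemes obtained from the projective space over a ring of
integers by blowing up such hypersurfaces in its closed fibres.
-/

set_option autoImplicit false

open CategoryTheory MonoidalCategory

universe v u w

namespace Pool.Agent.Results.MP_c1eb4d_ag.MixedCharacteristic

open Pool.Agent.Q173.FG

/-- **Finite generation in negative weights.** `T`: motives over algebraic closures of the prime fields,
arithmetic schemes and their étale motivic cohomology (`hT`: known facts); `T.Good`: smooth projective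
over a finite field of characteristic at least five, with a motive generated by abelian varieties and
hypersurfaces of arbitrary dimension as above; `T.Cell`: flat over a ring of integers, with cellular
geometric fibres; `T.toCoh.Built S`: built from the schemes with property `S`. -/
theorem result {𝓜 : ℕ → Type u} [∀ p, Category.{v} (𝓜 p)] [∀ p, Preadditive (𝓜 p)]
    [∀ p, MonoidalCategory (𝓜 p)] {T : EData.{v, u, w} 𝓜} (hT : T.Facts) :
    ∀ X, T.toCoh.Built (fun X => T.Good X ∨ T.Cell X) X → ∀ n i : ℤ, n < 0 →
      AddGroup.FG (T.H X n i) :=
  (EData.main hT).2

end Pool.Agent.Results.MP_c1eb4d_ag.MixedCharacteristic
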