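import Pool.Agent.Q252.ZU4

/-!
# Odd zeta values are not simultaneously close to algebraic numbers of a field of bounded degree

Let `2^(132 (D + 1)) (b + 1)² K³ log (K + 1) ≤ s²`. There are an exponent `C` and a bound `H₀` such that for all `H ≥ H₀`
and for *every* real number field `F` of degree at most `D + 1` (its discriminant may be arbitrarily large in terms of
`H`) at least `K` of the odd zeta values `ζ(j)`, `b < j ≤ s`, have distance at least `H^(-C)` from all elements of `F`
which are roots of a nonzero integer polynomial with coefficients bounded by `H`.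

The proof combines the simultaneous approximation theorem of the starting files (`Pool/Agent/Y926/TW/Main.lean`) with
Dirichlet's theorem, applied to the powers of a primitive element `θ` of the field generated by the approximating
algebraic numbers. All of them have the form `(∑ c_i θ^i) / q` with integers `q`, `c_i` bounded by a power of `H`
(`Pool/Agent/Q252/ZU1.lean` to `ZU3.lean`); the bound comes from the trace form and does not depend on the field.
-/

namespace Pool.Agent.Results.MP_c2395a_nt.AlgebraicApproximations

open Polynomial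

/-- **Simultaneous approximation of odd zeta values by algebraic numbers of a common number field of bounded degree,
uniformly in the field.** -/
theorem result (b K s D : ℕ) (hK : 1 ≤ K)
    (hs : (2 : ℝ) ^ (132 * (D + 1)) * ((b : ℝ) + 1) ^ 2 * (K : ℝ) ^ 3 * Real.log (K + 1) ≤ (s : ℝ) ^ 2) :
    ∃ C H0 : ℕ, ∀ H : ℕ, H0 ≤ H → ∀ F : IntermediateField ℚ ℝ, FiniteDimensional ℚ F →
      Module.finrank ℚ F ≤ D + 1 → K ≤ Set.ncard {j : ℕ | b < j ∧ j ≤ s ∧ Odd j ∧
        ∀ α ∈ F, (∃ P : ℤ[X], P ≠ 0 ∧ (∀ i, |P.coeff i| ≤ (H : ℤ)) ∧ aeval α P = 0) →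
          1 / (H : ℝ) ^ C ≤ |(∑' n : ℕ, 1 / ((n : ℝ) + 1) ^ j) - α|} :=
  Pool.Agent.Q252.ZU.main b K s D hK hs

end Pool.Agent.Results.MP_c2395a_nt.AlgebraicApproximations
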