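import Pool.Agent.Q36.GV.Yc

/-!
# Abundance for varieties dominated by products of an arbitrary variety and curves

Let `Y` be a projective manifold of dimension `d` whose canonical map has an image of dimension
`a ≥ 0`: for instance an abelian variety or a variety with trivial canonical bundle (`a = 0`), a
variety of general type with generically finite canonical map (`a = d`), or a product of such
varieties. Let `C 1, ..., C n` be irrational curves, `Z` a variety with a generically finite rational
map to `Y × C 1 × ... × C n`, and `Z ⇢ X` any dominant rational map of finite degree to a projective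
manifold `X`. The map need not be a quotient by a group, and nothing is assumed about `X`.

For a general point `x` of `X` let `r_i` be the number of different `i`-th coordinates of the points
of `Z` over `x` (`i = 0` is the coordinate in `Y`), and for a set `Q` of indices let `r(Q)` be the
number of the points over `x` which have the same `j`-th coordinates as a given one of them for all
`j` outside `Q`. Let `c i + 2` be at most the gonality of `C i` for `i ≥ 1`, and `c 0 = 0`, or more
generally let the canonical forms of `Y` separate `c 0 + 1` points and tangent vectors in an open
set. The theorem: if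

* `2 r_i ≤ c i + 1` for all `i` in some set `B` (which may be empty), and
* for all `Q` disjoint from `B` the points over `x` are determined by their coordinates outside `Q`
  (`r(Q) = 1`), or `2 r(Q) - 1 ≤ ∑ j ∈ Q, c j`,

then the image of the canonical map of `X` has dimension at least `a + h`, `h` the number of the
curves which are not elliptic. If `Z` is the product and `ν(Y) ≤ a`, then `ν(X) ≤ a + h`. So
`κ(X) = ν(X) = a + h`, and this number is already the dimension of the canonical image of `X`.

Example. Let `Y` be an abelian variety or a manifold with trivial canonical bundle, and let the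
points over `x` have different coordinates in each curve `C j`, `j ∈ S` (for instance `r` is prime and
the projections of `Z = Y × C 1 × ... × C n` to the `C j`, `j ∈ S`, do not factor through `X`). If
`S` is not empty and `2 r - 1 ≤ ∑ j ∈ S, (gon (C j) - 2)`, then the assumptions hold with `B` empty,
and `κ(X) = ν(X) = h`. The degree may grow linearly with the number of curves.

Proof: exterior products of canonical forms of `Y` and regular differentials `f i` of the curves are
canonical forms of `Z`, and their traces are canonical forms `G_f` on `X`. If a vector field of `X`
kills all their quotients, there is a relation between the values and the derivatives of the `f i` at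
the points of a general fibre. Hall's theorem on the marriage problem and the separation properties
of the canonical forms of the factors are used to isolate one point of the fibre and one factor in
this relation: in that point the vector field kills the quotients of the canonical forms of the
factor. The upper bound: sections on `Z` of multiples of `K_Z` plus an ample divisor are expanded
along the curves.
-/

set_option autoImplicit false
set_option linter.overlappingInstances false

open FF IntermediateField Pool.Agent.W619.PQ Pool.Agent.W619.TW

namespace Pool.Agent.Results.MP_c2a5fc_ag.DominatedByMixedProducts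

/-- Every nonconstant function on the curve with function field `F` has degree at least `γ`. -/
def GonalityGe (F : Type) [Field F] [Algebra ℂ F] (γ : ℕ) : Prop :=
  ∀ b : F, Transcendental ℂ b → γ ≤ Module.finrank ℂ⟮b⟯ F

/-- The image of the map given by the sections of `m K_X` has dimension at least `h`: there are
`h + 1` sections of `m K_X` whose ratios to the first one are algebraically independent. -/
def ImageGe (K : Type) [Field K] [Algebra ℂ K] (n m h : ℕ) : Prop :=
  ∃ ω : Fin (h + 1) → (Fin n → Derivation ℂ K K) → K,
    (∀ l, IsSec ℂ K n (fun _ => False) {1} m 0 (ω l)) ∧
    ∃ D, (∀ l, ω l D ≠ 0) ∧ AlgebraicIndependent ℂ (fun l : Fin h => ω l.succ D / ω 0 D)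

/-- The coefficients of the canonical forms of the projective manifold of dimension `d` with function
field `K`, with respect to the rational vector fields `E`. -/
def canonicalForms {K : Type} [Field K] [Algebra ℂ K] (d : ℕ) (E : Fin d → Derivation ℂ K K) :
    Set K :=
  {f | ∃ η : (Fin d → Derivation ℂ K K) → K, IsPluriForm ℂ K d 1 η ∧
    (∀ u : Place ℂ K, IsDivisorial u d → RegularAt u d η) ∧ η E = f}

/-- The canonical forms of the manifold with function field `K` separate `m` points and tangent
vectors in an open set: let `φ i` be different generic points, with coordinates in a field `Ω`, with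
multiplicities `1` or `2` of sum at most `m`, and `θ i` tangent vectors at the points of multiplicity
`2`; then the values at the `φ i` are linearly independent of each other and of the derivatives in
the directions `θ i ≠ 0`. (For the coefficients with respect to a frame `E`; this does not depend on
the choice of the frame.) -/
def Separates (K : Type) [Field K] [Algebra ℂ K] (d m : ℕ) : Prop :=
  ∀ (y : Fin d → K) (E : Fin d → Derivation ℂ K K), IsTranscendenceBasis ℂ y →
    (∀ i j, E i (y j) = if i = j then 1 else 0) →
    ∀ (Ω : Type) [Field Ω] [Algebra ℂ Ω] (ι : Type) [Fintype ι] (φ : ι → (K →ₐ[ℂ] Ω)) (μ : ι → ℕ)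
      (c : ι → Ω) (θ : ι → (K →ₗ[ℂ] Ω)), Function.Injective φ → (∀ i, μ i = 1 ∨ μ i = 2) →
      ∑ i, μ i ≤ m → (∀ i, ∀ a b, θ i (a * b) = φ i a * θ i b + φ i b * θ i a) →
      (∀ i, μ i = 1 → θ i = 0) →
      (∀ f ∈ canonicalForms d E, ∑ i, (c i * φ i f + θ i f) = 0) → ∀ i, c i = 0 ∧ θ i = 0

section

variable (L : Type) {M : Type} [Field L] [Field M] [Algebra ℂ L] [Algebra ℂ M] [Algebra L M]

/-- The number of different coordinates in the factor with function field `F` on a general fibre of
`Z ⇢ X`: the degree over `X` of the image of `Z` in the product of `X` and the factor. -/
noncomputable def coordinates (F : IntermediateField ℂ M) : ℕ :=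
  Module.finrank L (IntermediateField.adjoin L (F : Set M))

/-- The number of the points of a general fibre of `Z ⇢ X` with the same coordinates outside `Q` as a
given one: the degree of `Z` over its image in the product of `X` and the factors `j ∉ Q`. -/
noncomputable def agreeing {n : ℕ} (F : Fin n → IntermediateField ℂ M) (Q : Finset (Fin n)) : ℕ :=
  Module.finrank (IntermediateField.adjoin L {z : M | ∃ j, j ∉ Q ∧ z ∈ F j}) M

end

/-- **Abundance for varieties dominated by products of a variety and curves.** Let `F 0` be the
function field of a projective manifold `Y` of dimension `d` whose canonical map has an image of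
dimension at least `a`, and `F i` (`0 < i ≤ n`) the function fields of curves of gonality at least
`c i + 2`; let `c 0 = 0` or let the canonical forms of `Y` separate `c 0 + 1` points and tangent
vectors. Let `M` be the function field of a variety `Z` of dimension `d + n` with a generically finite
rational map to the product of `Y` and the curves, and `Z ⇢ X` a dominant rational map of finite
degree to a projective manifold with function field `L`. Let `B` be a set of indices such that twice
the number of the `i`-th coordinates on a general fibre is at most `c i + 1` for `i ∈ B`. Assume that
for every set `Q` of indices disjoint from `B` the number `r(Q)` of the points of a general fibre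
with the same coordinates outside `Q` as a given one satisfies `r(Q) = 1` or
`2 r(Q) - 1 ≤ ∑ j ∈ Q, c j`. Let `h` be the number of the curves which are not elliptic. Then the
canonical map of `X` has an image of dimension at least `a + h`; if `Z` is the product and
`ν(Y) ≤ a`, then `ν(X) ≤ a + h`, so that `κ(X) = ν(X) = a + h`. -/
theorem result {L M : Type} [Field L] [Field M] [Algebra ℂ L] [Algebra ℂ M] [Algebra L M]
    [IsScalarTower ℂ L M] [FiniteDimensional L M] [Algebra.EssFiniteType ℂ L] (d n : ℕ)
    (hM : Algebra.trdeg ℂ M = (d + n : ℕ)) (F : Fin (n + 1) → IntermediateField ℂ M)
    (hess : Algebra.EssFiniteType ℂ (F 0)) (hY : Algebra.trdeg ℂ (F 0) = d)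
    (hF : ∀ i : Fin n, IsFF ℂ (F i.succ)) (halg : Algebra.IsAlgebraic ↥(⨆ i, F i) M)
    (a : ℕ) (ha : ImageGe (F 0) d 1 a) (c : Fin (n + 1) → ℕ)
    (hc : c 0 = 0 ∨ Separates (F 0) d (c 0 + 1))
    (hγ : ∀ i : Fin n, GonalityGe (F i.succ) (c i.succ + 2))
    (B : Finset (Fin (n + 1))) (hB : ∀ i ∈ B, 2 * coordinates L (F i) ≤ c i + 1)
    (hQ : ∀ Q : Finset (Fin (n + 1)), Disjoint Q B →
      agreeing L F Q = 1 ∨ 2 * agreeing L F Q ≤ 1 + ∑ j ∈ Q, c j) :
    ImageGe L (d + n) 1 (a + {i : Fin n | ¬ IsElliptic (F i.succ)}.ncard) ∧
    (⨆ i, F i = ⊤ → NumLe ℂ (F 0) d (fun _ => False) a →
      NumLe ℂ L (d + n) (fun _ => False) (a + {i : Fin n | ¬ IsElliptic (F i.succ)}.ncard)) := by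
  have hirr : ∀ i : Fin n, ¬ ∃ t : F i.succ, ℂ⟮t⟯ = ⊤ := fun i =>
    Q36.HB.irr_of_gon fun b hb => le_trans (by omega) (hγ i b hb)
  exact ⟨Q36.GV.imageYC F hY hM halg hc ha hγ B hB hQ,
    fun hsup hnum => Q36.GV.numYC F hY hM hsup hirr hnum⟩

end Pool.Agent.Results.MP_c2a5fc_ag.DominatedByMixedProducts
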