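import Pool.Agent.Q57.TC.TopB

/-!
# Nef real combinations of log canonical divisors, and the geography of models, for quotients of
products of cyclic hypersurfaces

Let `F i` be a form of degree `d i` in `n i + 1` variables whose zero set in the projective
`n i`-space is a smooth hypersurface, and let `H i` be the cyclic hypersurface `w ^ (d i) = F i` in
the projective `(n i + 1)`-space. Let `K` be the function field of a quotient
`Y = (H 1 × ... × H r) / G`, where `G` is any group of diagonal automorphisms
`w i ↦ ζ i * w i`, `ζ i ^ (d i) = 1`. Equivalently, `K` is generated by the affine coordinates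
`x i j / x i 0` of the product `X₀` of the projective `n i`-spaces and by roots `z j`,
`z j ^ (m j) = ∏ i, (F i (x i) / x i 0 ^ (d i)) ^ (a j i)`, where `m j` divides `a j i * d i`: the
abelian covers of `X₀` which are branched along the hypersurfaces `F i = 0` of the factors. There is
no condition on the dimensions and the degrees.

A prime divisor `P` over `Y` (a divisorial place of `K`) has the vector `multiplicities F d x P` of the
multiplicities `v i` of the hypersurfaces along `P`, and the log discrepancy `logDiscrepancy F d x P`
of the pair `(X₀, ∑ i, (F i = 0))`: the order of its logarithmic canonical forms along `P`, plus one.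
It is `0` for the toroidal divisors `P`, whose vectors `v ≠ 0` have `m j ∣ ∑ i, a j i * v i` for all
`j` (`Admissible`), and it is positive for all other `P`.

**The pairs.** The boundaries `Δ 1, ..., Δ p` are given by functions `ψ i ≥ 0`, `ψ i 0 = 0`, on the
vectors: the log discrepancy of the pair `(X, Δ i)` along any prime divisor `P` over `X` is
`ψ i v + logDiscrepancy F d x P`, `v` the vector of `P`, so that
`δ i P = 1 - ψ i v - logDiscrepancy F d x P` (`coefficient`) is the coefficient of `P` in the pullback
of `K + Δ i`. Let `X` be a toroidal modification of `Y` (for example `X = Y`, or a toroidal minimal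
model of it), given by a subdivision of the fan of the faces of the positive orthant, and let
`Δ i = ∑ δ_{i, ρ} D_ρ` be divisors supported over the hypersurfaces with rational coefficients
`0 ≤ δ_{i, ρ} ≤ 1`, such that the `K + Δ i` are `ℚ`-Cartier (`(X, Δ i)` is log canonical). Then
`ψ i` is the function which is linear on the cones of the fan, with the value `1 - δ_{i, ρ}` at the
generator `ρ` of a ray. The case `ψ i v = 1` for all `v ≠ 0` is that of the canonical divisors of the
smooth models of `K`. The pairs are the same as in `MP_a27c81_ag.ProductAdjointRings`, where the ring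
of the sections of the divisors `∑ i, μ i (K + Δ i)` is shown to be finitely generated.

**The theorem.** There are finitely many sections `ω b` of divisors `∑ i, g b i (K + Δ i)`,
`g b ∈ ℕ ^ p`, such that

* (orders) every section `η` of `∑ i, μ i (K + Δ i) + j A`, for any `μ ∈ ℕ ^ p`, `j` and any divisor
  `A`, has at every prime divisor `P` the order at least that of a monomial in the sections `ω b`
  whose degree is `μ`, up to an error `C (j + 1)`, where `C` depends only on `P` and `A`;
* (the pseudo-effective cone) for real numbers `lam i ≥ 0` the divisor `∑ i, lam i (K + Δ i)` is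
  pseudo-effective if and only if `lam` is a nonnegative combination of the degrees `g b`;
* (nef divisors are semiample) for real numbers `lam i ≥ 0` the divisor `∑ i, lam i (K + Δ i)` is
  nef if and only if for every prime divisor `P` over `Y` there are real `t b ≥ 0` with
  `∑ b, t b * g b = lam`, such that all `ω b` with `t b ≠ 0` do not vanish at `P` (as sections of
  the divisors `∑ i, g b i (K + Δ i)`). So the effective divisor `∑ b, t b div (ω b)`, which is
  `ℝ`-linearly equivalent to `∑ i, lam i (K + Δ i)`, does not contain `P`.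

The third statement is abundance for real divisors, in particular for nef `K + Δ` with real
boundaries `Δ` in the polytope of the `Δ i`: a real combination of log canonical divisors which is
nef is semiample. The first two are the geography (finiteness) of the models of the pairs `(X, Δ)`,
`Δ` in this polytope: the asymptotic order of vanishing (Nakayama's `σ_P`) of
`∑ i, lam i (K + Δ i)` is at each prime divisor `P` over `Y` the minimum of
`∑ b, t b * ord_P (ω b)` over all real `t b ≥ 0` with `∑ b, t b * g b = lam`, and the
pseudo-effective cone has a finite decomposition into rational polyhedral cones on which all these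
functions of `lam` are linear. All this was known for klt pairs with big boundaries (Birkar, Cascini,
Hacon, McKernan); here the pairs are log canonical, and nothing is assumed about the divisors
`K + Δ i`. The case `p = 1` of one rational boundary is
`MP_e23cd6_ag.HypersurfaceQuotientAbundance`; the first two statements for abelian covers of one
projective space which are branched along normal crossings are `MP_fa3f7f_ag.GeographyOfModels`.
-/

set_option autoImplicit false

open FF MvPolynomial Pool.Agent.W602.GT

namespace Pool.Agent.Results.MP_c2a5fc_ag.NefRealCombinations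

/-- The form `F` has no singular zeros: its partial derivatives have no common zero but `0`. -/
def Smooth {n : ℕ} (F : MvPolynomial (Fin (n + 1)) ℂ) : Prop :=
  ∀ x : Fin (n + 1) → ℂ, x ≠ 0 → ∃ l, eval x (pderiv l F) ≠ 0

section places

variable {r R p : ℕ} {n : Fin r → ℕ} {K : Type} [Field K] [Algebra ℂ K]

/-- The affine coordinates of the product of the projective spaces. -/
noncomputable def affine (x : ∀ i, Fin (n i + 1) → K) (b : (i : Fin r) × Fin (n i)) : K :=
  x b.1 b.2.succ / x b.1 0

/-- The minimal order at `P` of the homogeneous coordinates `y` of one factor. -/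
noncomputable def minimalOrder {k : ℕ} (y : Fin (k + 1) → K) (P : Place ℂ K) : ℤ :=
  Finset.univ.inf' Finset.univ_nonempty fun j => P.ord (y j)

/-- The multiplicities of the hypersurfaces `F i = 0` along the prime divisor `P`; the `x i j` are the
homogeneous coordinates of the `i`-th factor, which are divided by one of minimal order at `P`. -/
noncomputable def multiplicities (F : ∀ i, MvPolynomial (Fin (n i + 1)) ℂ) (d : Fin r → ℕ)
    (x : ∀ i, Fin (n i + 1) → K) (P : Place ℂ K) (i : Fin r) : ℕ :=
  (P.ord (aeval (x i) (F i)) - d i * minimalOrder (x i) P).toNat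

/-- The canonical form of the product of the projective spaces, evaluated at the vector fields `D`:
`∏ i, x i 0 ^ (n i + 1)` times the determinant of the derivatives of the affine coordinates. -/
noncomputable def canonicalForm (x : ∀ i, Fin (n i + 1) → K)
    (D : ((i : Fin r) × Fin (n i)) → Derivation ℂ K K) : K :=
  (∏ i, x i 0 ^ (n i + 1)) * (Matrix.of fun b b' => D b (affine x b')).det

/-- The order of the canonical form along `P`: the minimal order of its values at vector fields which
are regular at `P`. -/
noncomputable def formOrder (x : ∀ i, Fin (n i + 1) → K) (P : Place ℂ K) : ℤ :=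
  sInf {k : ℤ | ∃ D : ((i : Fin r) × Fin (n i)) → Derivation ℂ K K, (∀ b, DerReg P (D b)) ∧
    canonicalForm x D ≠ 0 ∧ P.ord (canonicalForm x D) = k}

/-- The log discrepancy along `P` of the product of the projective spaces, with the boundary
`∑ i, (F i = 0)`: the order along `P` of the logarithmic canonical forms, which are obtained from the
canonical form by the division by the local equations of the hypersurfaces and by the power
`n i + 1` of a coordinate `x i j` of minimal order, plus one. -/
noncomputable def logDiscrepancy (F : ∀ i, MvPolynomial (Fin (n i + 1)) ℂ) (d : Fin r → ℕ)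
    (x : ∀ i, Fin (n i + 1) → K) (P : Place ℂ K) : ℤ :=
  formOrder x P + 1 - ∑ i, (multiplicities F d x P i : ℤ) -
    ∑ i, ((n i : ℤ) + 1) * minimalOrder (x i) P

/-- The coefficient of `P` in the pullback of `K + Δ`, for the pair with the function `ψ`: its log
discrepancy along `P` is `ψ v + logDiscrepancy F d x P`, `v` the vector of the multiplicities. -/
noncomputable def coefficient (F : ∀ i, MvPolynomial (Fin (n i + 1)) ℂ) (d : Fin r → ℕ)
    (x : ∀ i, Fin (n i + 1) → K) (ψ : (Fin r → ℕ) → ℚ) (P : Place ℂ K) : ℚ :=
  1 - ψ (multiplicities F d x P) - logDiscrepancy F d x P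

/-- The multiplicities which satisfy the divisibility conditions. -/
def Admissible (m : Fin R → ℕ) (a : Fin R → Fin r → ℕ) (v : Fin r → ℕ) : Prop :=
  v ≠ 0 ∧ ∀ j, m j ∣ ∑ i, a j i * v i

/-- The functions `ψ i` are the log discrepancies of boundaries along the toroidal divisors: they are
not negative (the pairs are log canonical), at most homogeneous along the rays, and for a finite set
`T` of vectors every admissible vector `v` is at least a nonnegative combination of the vectors in
`T`, such that all `ψ i v` are at most the combinations of the values at the vectors in `T`. -/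
structure AreBoundaries (m : Fin R → ℕ) (a : Fin R → Fin r → ℕ)
    (ψ : Fin p → (Fin r → ℕ) → ℚ) : Prop where
  zero : ∀ i, ψ i 0 = 0
  nonneg : ∀ i v, 0 ≤ ψ i v
  ray : ∀ i v (k : ℕ), 1 ≤ k → Admissible m a v → ψ i (k • v) ≤ k * ψ i v
  finite : ∃ T : Finset (Fin r → ℕ), (∀ s ∈ T, Admissible m a s) ∧ ∀ v, Admissible m a v →
    ∃ w : (Fin r → ℕ) → ℚ, (∀ s, 0 ≤ w s) ∧ (∀ k, ∑ s ∈ T, w s * s k ≤ v k) ∧
      ∀ i, ψ i v ≤ ∑ s ∈ T, w s * ψ i s

end places

section sections

variable {K : Type} [Field K] [Algebra ℂ K] {p : ℕ} (N : ℕ) (δ : Fin p → Place ℂ K → ℚ)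

/-- `ω` is a section of `∑ i, μ i (K + Δ i) + j A`: a rational section of the power of the canonical
bundle with the exponent `∑ i, μ i` (`IsPluri`: a function of `N` rational vector fields which is
multiplied by the power of `det B` under a linear substitution `B`) whose order on the vector fields
which are regular at `P` is at least `j` times the order of one of the functions in `S`, minus
`∑ i, μ i * δ i P`, where `δ i P` is the coefficient of `P` in the pullback of `K + Δ i`, for all
prime divisors `P` (all divisorial places `P` of `K`). Here `A` is the divisor which is generated by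
the finite set `S` of functions; `A = 0` if `S = {1}`. -/
def IsSection (S : Finset K) (μ : Fin p →₀ ℕ) (j : ℕ) (ω : (Fin N → Derivation ℂ K K) → K) :
    Prop :=
  IsPluri (∑ i, μ i) ω ∧ ∀ P : Place ℂ K, Divisorial N P → ∀ D : Fin N → Derivation ℂ K K,
    (∀ c, DerReg P (D c)) → ω D = 0 ∨ ∃ s ∈ S, s ≠ 0 ∧
      (j : ℚ) * P.ord s - ∑ i, (μ i : ℚ) * δ i P ≤ P.ord (ω D)

/-- The real combination `∑ i, lam i (K + Δ i)` is pseudo-effective: there is a divisor `A` such that
for all `M` a positive multiple `j (M ∑ i, lam i (K + Δ i) + A)` has a nonzero section, after a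
change of the coefficients `j M lam i` by at most `j`. -/
def Pseudoeffective (lam : Fin p → ℝ) : Prop :=
  ∃ S : Finset K, ∀ M : ℕ, ∃ j : ℕ, 1 ≤ j ∧ ∃ μ : Fin p →₀ ℕ,
    (∀ i, |(μ i : ℝ) - j * M * lam i| ≤ j) ∧ ∃ η, η ≠ 0 ∧ IsSection N δ S μ j η

/-- The sections `ω b` of `∑ i, g b i (K + Δ i)` compute all asymptotic orders: for every prime
divisor `P`, divisor `A` and vector fields `D` there is a constant `C` such that for every section
`η` of `∑ i, μ i (K + Δ i) + j A`, `μ ≠ 0`, with `η D ≠ 0` there is a monomial in the `ω b`, with
exponents `e b`, whose degree differs from `μ` by at most `C (j + 1)`, and whose order at `P` (the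
order of the value at `D`) is at most that of `η`, plus `C (j + 1)`. -/
def ComputeOrders {r : ℕ} (g : Fin r → Fin p →₀ ℕ)
    (ω : Fin r → (Fin N → Derivation ℂ K K) → K) : Prop :=
  ∀ (P : Place ℂ K) (S : Finset K) (D : Fin N → Derivation ℂ K K), ∃ C : ℕ,
    ∀ (μ : Fin p →₀ ℕ) (j : ℕ) (η : (Fin N → Derivation ℂ K K) → K), μ ≠ 0 →
      IsSection N δ S μ j η → η D = 0 ∨ ((∀ b, ω b D ≠ 0) ∧ ∃ e : Fin r → ℕ,
        (∀ i, |∑ b, (e b : ℤ) * g b i - μ i| ≤ C * (j + 1)) ∧
        ∑ b, (e b : ℤ) * P.ord (ω b D) ≤ P.ord (η D) + C * (j + 1))

/-- The real combination `∑ i, lam i (K + Δ i)` is nef: there is a divisor `A` such that for all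
`M ≥ 1` a positive multiple `j (M ∑ i, lam i (K + Δ i) + A)` has no base points: for every prime
divisor `P` there is, after a change of the coefficients `j M lam i` by at most `j`, a section which
does not vanish at `P`. -/
def Nef (lam : Fin p → ℝ) : Prop :=
  ∃ S : Finset K, (∃ s ∈ S, s ≠ 0) ∧ ∀ M : ℕ, 1 ≤ M → ∃ j : ℕ, 1 ≤ j ∧
    ∀ P : Place ℂ K, Divisorial N P → ∃ μ : Fin p →₀ ℕ, (∀ i, |(μ i : ℝ) - j * M * lam i| ≤ j) ∧
      ∃ η, IsSection N δ S μ j η ∧ ∃ D, (∀ c, DerReg P (D c)) ∧ η D ≠ 0 ∧ ∀ s ∈ S, s ≠ 0 →
        (P.ord (η D) : ℚ) ≤ j * P.ord s - ∑ i, (μ i : ℚ) * δ i P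

/-- The section `ω` of `∑ i, g i (K + Δ i)` does not vanish at `P`. -/
def DoesNotVanish (g : Fin p →₀ ℕ) (ω : (Fin N → Derivation ℂ K K) → K) (P : Place ℂ K) : Prop :=
  ∃ D, (∀ c, DerReg P (D c)) ∧ ω D ≠ 0 ∧ (P.ord (ω D) : ℚ) ≤ - ∑ i, (g i : ℚ) * δ i P

end sections

/-- **The main theorem.** Let `K` be the function field of an abelian cover of the product of the
projective `n i`-spaces which is branched along smooth hypersurfaces `F i = 0` of the factors, and
let `Δ 1, ..., Δ p` be the boundaries whose log discrepancies along the toroidal divisors are given by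
`ψ`. There are finitely many nonzero sections `ω b` of divisors `∑ i, g b i (K + Δ i)` which compute
the asymptotic orders of all combinations of the `K + Δ i` at all prime divisors, the cone of the
pseudo-effective real combinations is generated by the vectors `g b`, and the nef real combinations
are the semiample ones: for every prime divisor `P` they are combinations of divisors of sections
`ω b` which do not vanish at `P`. -/
theorem result (r N R p : ℕ) (n d : Fin r → ℕ) (hr : 1 ≤ r) (hn : ∀ i, 1 ≤ n i)
    (hd : ∀ i, 1 ≤ d i) (hN : N = ∑ i, n i)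
    (F : ∀ i, MvPolynomial (Fin (n i + 1)) ℂ) (hF : ∀ i, (F i).IsHomogeneous (d i))
    (hs : ∀ i, Smooth (F i)) (m : Fin R → ℕ) (hm : ∀ j, 1 ≤ m j) (a : Fin R → Fin r → ℕ)
    (hdiv : ∀ j i, m j ∣ a j i * d i)
    (K : Type) [Field K] [Algebra ℂ K] (x : ∀ i, Fin (n i + 1) → K) (hx0 : ∀ i, x i 0 ≠ 0)
    (hbas : IsTranscendenceBasis ℂ (affine x)) (z : Fin R → K)
    (hz : ∀ j, z j ^ m j = ∏ i, (aeval (x i) (F i) / x i 0 ^ d i) ^ a j i)
    (hgen : IntermediateField.adjoin ℂ (Set.range (affine x) ∪ Set.range z) = ⊤)
    (ψ : Fin p → (Fin r → ℕ) → ℚ) (hψ : AreBoundaries m a ψ)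
    (δ : Fin p → Place ℂ K → ℚ) (hδ : ∀ i, δ i = coefficient F d x (ψ i)) :
    ∃ (s : ℕ) (g : Fin s → Fin p →₀ ℕ) (ω : Fin s → (Fin N → Derivation ℂ K K) → K),
      (∀ b, g b ≠ 0 ∧ ω b ≠ 0 ∧ IsSection N δ {1} (g b) 0 (ω b)) ∧
      ComputeOrders N δ g ω ∧
      (∀ lam : Fin p → ℝ, (∀ i, 0 ≤ lam i) →
        (Pseudoeffective N δ lam ↔
          ∃ t : Fin s → ℝ, (∀ b, 0 ≤ t b) ∧ ∀ i, lam i = ∑ b, t b * g b i)) ∧
      ∀ lam : Fin p → ℝ, (∀ i, 0 ≤ lam i) →
        (Nef N δ lam ↔ ∀ P : Place ℂ K, Divisorial N P →
          ∃ t : Fin s → ℝ, (∀ b, 0 ≤ t b) ∧ (∀ i, lam i = ∑ b, t b * g b i) ∧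
            ∀ b, t b ≠ 0 → DoesNotVanish N δ (g b) (ω b) P) := by
  obtain ⟨s, g, ω, h1, h2, h3, h4⟩ := Pool.Agent.Q57.TC.main_ps hr hn hN hd hF hs hx0 hbas hm hdiv
    hz hgen hψ.zero hψ.nonneg hψ.ray hψ.finite fun i P => congrFun (hδ i) P
  exact ⟨s, g, ω, fun b => ⟨(h1 b).1, (h1 b).2.1, Pool.Agent.Q57.GG.msec_asec (h1 b).2.2⟩, h2, h3,
    h4⟩

end Pool.Agent.Results.MP_c2a5fc_ag.NefRealCombinations
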