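import Pool.Agent.Q26.CP.Main

/-!
# Abundance for nef canonical bundles: uniformity and reduction modulo `p`

Fix a bounded type of projective manifolds, e.g. all the connected smooth `M ⊂ ℙ^N` of dimension `d`
and degree `δ`. The following are equivalent.

1. `κ(M) = ν(M)` for all complex manifolds `M` of this type with `K_M` nef.
2. There is a number `n` such that for all manifolds `M` of this type over all algebraically closed
   fields of characteristic zero: if `K_M · C ≥ 0` for all curves `C ⊂ M` of degree at most `n`,
   then `|m K_M|` is base point free for some `1 ≤ m ≤ n`.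
3. There is a number `n` such that the same holds for all smooth projective varieties of this
   type over `F̄_p`, for infinitely many primes `p`.
4. There is a number `n` such that the same holds for all smooth projective varieties of this
   type over `F̄_p`, for all but finitely many primes `p`.

So abundance for the manifolds of one type implies that the nefness of `K_M` can be tested on the
curves of bounded degree, that it is preserved under reduction modulo almost all primes, and that the
reductions have `K_M` semiample. In dimension at most three, where abundance is known, 2, 3 and 4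
hold.
-/

set_option autoImplicit false

namespace Pool.Agent.Results.MP_c2a5fc_ag.UniformModPrimes

open Pool.Agent.Q26.CP

/-- The smooth projective varieties over algebraically closed fields `K`. There are bounded types
`t : Ty` of dimension `dim t`; the varieties `M` of type `t` over `K` are parametrized by the points
of `K ^ k t` with the property `isVar t`. The property `nonneg t n` says that `K_M · C ≥ 0` for all
curves `C ⊂ M` of degree at most `n`, and `free t n` says that `|m K_M|` is base point free for some
`1 ≤ m ≤ n`. These are first-order properties of the parameters (relative Hilbert schemes). Over the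
complex numbers `Nef` says that `K_M` is nef, and `kappa`, `nu` are the Kodaira dimension and the
numerical dimension of `M`.

`nef_iff` is the definition of nefness, `kawamata` is the theorem of Kawamata that for `K_M` nef one
has `κ(M) = ν(M)` iff `K_M` is semiample, and `known` is abundance in dimension at most three. -/
structure Manifolds where
  Ty : Type
  dim : Ty → ℕ
  k : Ty → ℕ
  isVar : ∀ t, Pred (k t)
  nonneg : ∀ t, ℕ → Pred (k t)
  free : ∀ t, ℕ → Pred (k t)
  fo_isVar : ∀ t, IsFirstOrder (isVar t)
  fo_nonneg : ∀ t n, IsFirstOrder (nonneg t n)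
  fo_free : ∀ t n, IsFirstOrder (free t n)
  nonneg_anti : ∀ t (m n : ℕ), m ≤ n → ∀ (K : Type) [Field K] (x : Fin (k t) → K),
    nonneg t n K x → nonneg t m K x
  free_mono : ∀ t (m n : ℕ), m ≤ n → ∀ (K : Type) [Field K] (x : Fin (k t) → K),
    free t m K x → free t n K x
  Nef : ∀ t, (Fin (k t) → ℂ) → Prop
  kappa : ∀ t, (Fin (k t) → ℂ) → WithBot ℕ
  nu : ∀ t, (Fin (k t) → ℂ) → WithBot ℕ
  nef_iff : ∀ t x, isVar t ℂ x → (Nef t x ↔ ∀ n, nonneg t n ℂ x)
  kawamata : ∀ t x, isVar t ℂ x → Nef t x → (kappa t x = nu t x ↔ ∃ n, free t n ℂ x)
  known : ∀ t, dim t ≤ 3 → ∀ x, isVar t ℂ x → Nef t x → kappa t x = nu t x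

/-- `κ(M) = ν(M)` for all complex manifolds of type `t` with nef canonical bundle -/
def Abundance (A : Manifolds) (t : A.Ty) : Prop :=
  ∀ x : Fin (A.k t) → ℂ, A.isVar t ℂ x → A.Nef t x → A.kappa t x = A.nu t x

/-- for all varieties `M` of type `t` over `K`: if `K_M · C ≥ 0` for all curves `C` of degree at most
`n`, then `|m K_M|` is base point free for some `1 ≤ m ≤ n` -/
def EffectiveAbundance (A : Manifolds) (t : A.Ty) (n : ℕ) (K : Type) [Field K] : Prop :=
  ∀ x : Fin (A.k t) → K, A.isVar t K x → A.nonneg t n K x → A.free t n K x

/-- there is a number which works for all algebraically closed fields of characteristic zero -/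
def UniformCharZero (A : Manifolds) (t : A.Ty) : Prop :=
  ∃ n, ∀ (K : Type) [Field K] [IsAlgClosed K] [CharZero K], EffectiveAbundance A t n K

/-- there is a number which works for `F̄_p`, for infinitely many primes `p` -/
def UniformInfinitely (A : Manifolds) (t : A.Ty) : Prop :=
  ∃ n, {p : Nat.Primes | EffectiveAbundance A t n (Fbar p)}.Infinite

/-- there is a number which works for `F̄_p`, for all but finitely many primes `p` -/
def UniformAlmost (A : Manifolds) (t : A.Ty) : Prop :=
  ∃ n, {p : Nat.Primes | ¬ EffectiveAbundance A t n (Fbar p)}.Finite

/-- abundance for one type as a `Problem` -/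
def Manifolds.problem (A : Manifolds) (t : A.Ty) : Problem where
  k := A.k t
  hyp n := fun K _ x => A.isVar t K x ∧ A.nonneg t n K x
  con := A.free t
  fo_hyp n := (A.fo_isVar t).and (A.fo_nonneg t n)
  fo_con := A.fo_free t
  hyp_anti m n h K _ x hx := ⟨hx.1, A.nonneg_anti t m n h K x hx.2⟩
  con_mono := A.free_mono t

theorem uniform_iff (A : Manifolds) (t : A.Ty) (n : ℕ) (K : Type) [Field K] :
    (A.problem t).Uniform n K ↔ EffectiveAbundance A t n K :=
  ⟨fun h x h1 h2 => h x ⟨h1, h2⟩, fun h x hx => h x hx.1 hx.2⟩

theorem abundance_iff (A : Manifolds) (t : A.Ty) : Abundance A t ↔ (A.problem t).Solved ℂ := by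
  constructor
  · intro h x hx
    have h1 := (hx 0).1
    have h2 := (A.nef_iff t x h1).2 fun n => (hx n).2
    exact (A.kawamata t x h1 h2).1 (h x h1 h2)
  · intro h x h1 h2
    exact (A.kawamata t x h1 h2).2 (h x fun n => ⟨h1, (A.nef_iff t x h1).1 h2 n⟩)

/-- For each bounded type `t` of projective manifolds the following are equivalent: `κ(M) = ν(M)` for
all complex `M` of type `t` with `K_M` nef; there is an `n` such that for all `M` of type `t` over
algebraically closed fields of characteristic zero with `K_M · C ≥ 0` for all curves `C` of degree at
most `n`, some `|m K_M|` with `1 ≤ m ≤ n` is base point free; there is an `n` with the same property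
for all `M` of type `t` over `F̄_p`, for infinitely many primes `p`; there is such an `n` for all but
finitely many primes `p`. They are true if the dimension is at most three. -/
theorem result (A : Manifolds) (t : A.Ty) :
    [Abundance A t, UniformCharZero A t, UniformInfinitely A t, UniformAlmost A t].TFAE ∧
    (A.dim t ≤ 3 → UniformAlmost A t) := by
  have h0 : [Abundance A t, UniformCharZero A t, UniformInfinitely A t,
      UniformAlmost A t].TFAE := by
    tfae_have 1 → 2 := by
      intro h
      obtain ⟨n, hn⟩ : ∃ n, ∀ (K : Type) [Field K] [IsAlgClosed K] [CharZero K],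
        (A.problem t).Uniform n K := ((A.problem t).tfae.out 0 2).1 ((abundance_iff A t).1 h)
      exact ⟨n, fun K _ _ _ => (uniform_iff A t n K).1 (hn K)⟩
    tfae_have 2 → 4 := by
      rintro ⟨n, hn⟩
      refine ⟨n, ?_⟩
      simp only [← uniform_iff]
      exact ((A.problem t).uniform_iff_finite n ℂ).1 ((uniform_iff A t n ℂ).2 (hn ℂ))
    tfae_have 4 → 3 := by
      rintro ⟨n, hn⟩
      simp only [← uniform_iff] at hn
      refine ⟨n, ?_⟩
      simp only [← uniform_iff]
      exact ((A.problem t).uniform_iff_infinite n ℂ).1
        (((A.problem t).uniform_iff_finite n ℂ).2 hn)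
    tfae_have 3 → 1 := by
      rintro ⟨n, hn⟩
      simp only [← uniform_iff] at hn
      rw [abundance_iff]
      exact (((A.problem t).uniform_iff_infinite n ℂ).2 hn).solved
    tfae_finish
  exact ⟨h0, fun h => (h0.out 0 3).1 (A.known t h)⟩

end Pool.Agent.Results.MP_c2a5fc_ag.UniformModPrimes
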