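import Pool.Agent.Q102.SP.Fam

set_option autoImplicit false

/-!
# The competitive ratio of splaying is at least `13/4`

`Tr`, `keys`, `IsBST`, `dep`, `splay`, `costSplay` are those of `Pool.Agent.H581R2.SplayDef`;
`Exec T X c` (`Pool.Agent.TH49.Spl.Defs`): there is an execution of cost `c` for the requests `X` with
initial tree `T`, a request costs one plus the depth of the key, a rotation anywhere costs one;
`optAny K X` is the least cost over all initial trees with the keys `K`.

A request sequence is perfectly alternating for a binary reference tree if only the keys at its leaves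
are requested and at each internal node `s` the requests to keys below `s` and above `s` in the subtree
alternate. (Examples: bit reversal permutations.) The inductive predicate `Alternating T X d` lists
these sequences `X`, together with a search tree `T` from which splaying starts, and the total number
`d` of alternations, that is, the sum of the depths of the requested leaves in the reference tree.

(1) On perfectly alternating sequences splaying costs exactly `|X| + 2 d`, while every execution,
starting from any tree, costs at least `|X| + d / 2`. So splaying is within a factor of four of the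
optimum.

(2) For a self-similar sequence of reference trees both costs are computed exactly: they are
`(13 * 4 ^ j - 12 * 3 ^ j) N` and `(4 ^ (j + 1) - 3 ^ (j + 1)) N` for `4 ^ j N` requests.

(3) So the constant of the dynamic optimality conjecture is at least `13/4`, even if an additive term
which depends on the number of keys in an arbitrary way is allowed.

Proof. Let `T` be the tree with the root `y` (the last request), whose right child is the separator
`s`, the subtrees being the parts of a tree `TL` with root `y` and a tree `TR`. If a key of even depth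
in `TR` is requested then splaying in `T` acts as in `TR`, and one further double rotation exchanges
the roles of the two sides. For the lower bound an execution is restricted to the two sides of `s`; a
rotation acts in one side only, or it changes the side of the root, and of two consecutive requests on
different sides one has a root on the other side above it unless the side of the root was changed
between them.
-/

namespace Pool.Agent.Results.MP_c42954_lc.AlternatingRequests

open Pool.Agent.H581R2.Splay Pool.Agent.TH49.Spl

/-- `v₁, u₁, v₂, u₂, …` -/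
def interleave : List ℕ → List ℕ → List ℕ
  | v :: V, u :: U => v :: u :: interleave V U
  | _, _ => []

/-- Perfectly alternating request sequences `X`, together with an initial search tree `T` and the
total number `d` of alternations. -/
inductive Alternating : Tr → List ℕ → ℕ → Prop
  | single (k N : ℕ) : Alternating (Tr.node k Tr.nil Tr.nil) (List.replicate N k) 0
  | join (s y : ℕ) (A C R : Tr) (U V : List ℕ) (dU dV : ℕ) :
      Alternating (Tr.node y A C) U dU → Alternating R V dV → V.length = U.length →
      (∀ k ∈ keys (Tr.node y A C), k < s) → (∀ k ∈ keys R, s < k) →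
      Alternating (Tr.node y A (Tr.node s C R)) (interleave V U) (dU + dV + 2 * U.length)

/-- the least cost of an execution for `X` with initial tree `T` -/
noncomputable def opt (T : Tr) (X : List ℕ) : ℕ := sInf {c : ℕ | Exec T X c}

open Pool.Agent.Q102.SP

lemma interleave_eq : ∀ V U : List ℕ, interleave V U = mix V U := by
  intro V
  induction V with
  | nil => intro U; simp [interleave, mix]
  | cons v V ih =>
    intro U
    cases U with
    | nil => simp [interleave, mix]
    | cons u U => simp [interleave, mix, ih]

lemma alt_iff {T : Tr} {X : List ℕ} {d : ℕ} :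
    Alternating T X d ↔ Pool.Agent.Q102.SP.Alternating T X d := by
  constructor
  · intro h
    induction h with
    | single k N => exact .single k N
    | join s y A C R U V dU dV _ _ hl hL hR ih1 ih2 =>
      rw [interleave_eq]
      exact .join s y A C R U V dU dV ih1 ih2 hl hL hR
  · intro h
    induction h with
    | single k N => exact .single k N
    | join s y A C R U V dU dV _ _ hl hL hR ih1 ih2 =>
      rw [← interleave_eq]
      exact .join s y A C R U V dU dV ih1 ih2 hl hL hR

lemma optAny_mem (T : Tr) (X : List ℕ) : ∃ O : Tr, keys O = keys T ∧ Exec O X (optAny (keys T) X) :=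
  Nat.sInf_mem (s := {c : ℕ | ∃ O : Tr, keys O = keys T ∧ Exec O X c}) ⟨stat T X, T, rfl, exec_stat T X⟩

theorem result :
    -- (1) perfectly alternating requests
    (∀ (T : Tr) (X : List ℕ) (d : ℕ), Alternating T X d →
      IsBST T ∧ (∀ x ∈ X, x ∈ keys T) ∧ costSplay T X = X.length + 2 * d ∧
      2 * X.length + d ≤ 2 * optAny (keys T) X ∧
      costSplay T X + 3 * X.length ≤ 4 * optAny (keys T) X) ∧
    -- (2) a family for which everything is known exactly
    (∀ j : ℕ, ∃ (T : Tr) (X : ℕ → List ℕ) (K : ℕ), IsBST T ∧ ∀ N : ℕ,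
      (∃ d, Alternating T (X N) d) ∧ (X N).length = 4 ^ j * N ∧
      costSplay T (X N) + 12 * 3 ^ j * N = 13 * 4 ^ j * N ∧
      optAny (keys T) (X N) + 3 ^ (j + 1) * N = 4 ^ (j + 1) * N ∧
      opt T (X N) ≤ optAny (keys T) (X N) + K) ∧
    -- (3) the competitive ratio is at least `13/4`
    (∀ (c : ℝ) (g : ℕ → ℝ), 0 ≤ c → c < 13 / 4 → ∃ (T : Tr) (X : List ℕ), IsBST T ∧
      (∀ x ∈ X, x ∈ keys T) ∧ c * opt T X + g (keys T).length < costSplay T X) := by
  have P1 : ∀ (T : Tr) (X : List ℕ) (d : ℕ), Alternating T X d →
      IsBST T ∧ (∀ x ∈ X, x ∈ keys T) ∧ costSplay T X = X.length + 2 * d ∧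
      2 * X.length + d ≤ 2 * optAny (keys T) X ∧
      costSplay T X + 3 * X.length ≤ 4 * optAny (keys T) X := by
    intro T X d h
    have h := alt_iff.1 h
    obtain ⟨O, hO, hE⟩ := optAny_mem T X
    have hb := h.bst
    have hlow := h.low O _ (by unfold IsBST; rw [hO]; exact hb) (by rw [hO]; exact fun k hk => hk) hE
    have hc := h.cost.1
    exact ⟨hb, h.mem, hc, hlow, by omega⟩
  have P2 : ∀ j : ℕ, ∃ (T : Tr) (X : ℕ → List ℕ) (K : ℕ), IsBST T ∧ ∀ N : ℕ,
      (∃ d, Alternating T (X N) d) ∧ (X N).length = 4 ^ j * N ∧
      costSplay T (X N) + 12 * 3 ^ j * N = 13 * 4 ^ j * N ∧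
      optAny (keys T) (X N) + 3 ^ (j + 1) * N = 4 ^ (j + 1) * N ∧
      opt T (X N) ≤ optAny (keys T) (X N) + K := by
    intro j
    obtain ⟨K, hK⟩ := exec_from (T := TT j 0) (O := OO j 0) (OO_keys j 0).symm
    refine ⟨TT j 0, fun N => XX j 0 N, K, ?_, ?_⟩
    · obtain ⟨d, hd, -⟩ := TT_alt j 0 0
      exact hd.bst
    · intro N
      beta_reduce
      obtain ⟨d, hd, hd2⟩ := TT_alt j 0 N
      obtain ⟨-, hm, hc, hlow, -⟩ := P1 _ _ d (alt_iff.2 hd)
      have hlen := XX_len j 0 N
      have hst := OO_stat j 0 N
      have hle : optAny (keys (TT j 0)) (XX j 0 N) ≤ stat (OO j 0) (XX j 0 N) :=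
        Nat.sInf_le ⟨OO j 0, OO_keys j 0, exec_stat _ _⟩
      obtain ⟨c, hE, hcK⟩ := hK (XX j 0 N) hm
      have hopt : opt (TT j 0) (XX j 0 N) ≤ c := Nat.sInf_le hE
      rw [hlen] at hc hlow
      refine ⟨⟨d, alt_iff.2 hd⟩, hlen, ?_, ?_, ?_⟩
      · rw [hc]
        nlinarith
      · rw [pow_succ] at hst ⊢
        rw [pow_succ 4 j] at hst ⊢
        apply le_antisymm
        · omega
        · nlinarith
      · have : stat (OO j 0) (XX j 0 N) ≤ optAny (keys (TT j 0)) (XX j 0 N) := by
          rw [pow_succ] at hst
          rw [pow_succ 4 j] at hst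
          nlinarith
        omega
  refine ⟨P1, P2, ?_⟩
  intro c g hc0 hc
  -- a large `j`
  have hj : ∃ j : ℕ, (12 - 3 * c) * 3 ^ j < (13 - 4 * c) * 4 ^ j := by
    have h1 : Filter.Tendsto (fun j : ℕ => (12 - 3 * c) * (3 / 4 : ℝ) ^ j) Filter.atTop
        (nhds ((12 - 3 * c) * 0)) :=
      (tendsto_pow_atTop_nhds_zero_of_lt_one (by norm_num) (by norm_num)).const_mul _
    rw [mul_zero] at h1
    have h2 : (0 : ℝ) < 13 - 4 * c := by linarith
    obtain ⟨j, hj⟩ := (h1.eventually (gt_mem_nhds h2)).exists
    refine ⟨j, ?_⟩
    have h4 : (0 : ℝ) < 4 ^ j := by positivity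
    have h5 : (3 / 4 : ℝ) ^ j = 3 ^ j / 4 ^ j := by rw [div_pow]
    rw [h5, ← mul_div_assoc, div_lt_iff₀ h4] at hj
    exact hj
  obtain ⟨j, hj⟩ := hj
  obtain ⟨T, X, K, hb, h⟩ := P2 j
  obtain ⟨N, hN⟩ := exists_nat_gt ((c * K + g (keys T).length) / ((13 - 4 * c) * 4 ^ j - (12 - 3 * c) * 3 ^ j))
  have hpos : (0 : ℝ) < (13 - 4 * c) * 4 ^ j - (12 - 3 * c) * 3 ^ j := by linarith
  rw [div_lt_iff₀ hpos] at hN
  obtain ⟨⟨d, hd⟩, -, h2, h3, h4⟩ := h N
  refine ⟨T, X N, hb, (P1 _ _ d hd).2.1, ?_⟩
  have h2' : (costSplay T (X N) : ℝ) + 12 * 3 ^ j * N = 13 * 4 ^ j * N := by exact_mod_cast h2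
  have h3' : (optAny (keys T) (X N) : ℝ) + 3 ^ (j + 1) * N = 4 ^ (j + 1) * N := by exact_mod_cast h3
  have h4' : (opt T (X N) : ℝ) ≤ optAny (keys T) (X N) + K := by exact_mod_cast h4
  rw [pow_succ, pow_succ] at h3'
  have h5 : c * (opt T (X N) : ℝ) ≤ c * (optAny (keys T) (X N) + K) := mul_le_mul_of_nonneg_left h4' hc0
  have h6 : (optAny (keys T) (X N) : ℝ) = 4 ^ j * 4 * N - 3 ^ j * 3 * N := by linarith
  rw [h6] at h5
  nlinarith

end Pool.Agent.Results.MP_c42954_lc.AlternatingRequests
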