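import Mathlib
import Pool.Agent.Q80.OddLeg

/-!
# No cubic sequence is a Legendre multiplier sequence
-/

open Polynomial

namespace Pool.Agent.Results.MP_c471e0_an.NoCubic

/-- `P` is the family of Legendre polynomials, in an arbitrary normalisation: `P n` has degree
exactly `n` and `y = P n` solves `(1 - x²) y'' - 2 x y' + n (n + 1) y = 0`. -/
def LegendreFamily (P : ℕ → ℝ[X]) : Prop :=
  ∀ n : ℕ, (P n).degree = n ∧
    (1 - X ^ 2) * derivative (derivative (P n)) - 2 * X * derivative (P n) +
      (n : ℝ[X]) * ((n : ℝ[X]) + 1) * P n = 0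

/-- all complex zeros are real; nonzero constants and the zero polynomial are included -/
def OnlyRealZeros (p : ℝ[X]) : Prop := p = 0 ∨ ∀ z : ℂ, aeval z p = 0 → z.im = 0

/-- No cubic sequence is a Legendre multiplier sequence: for every Legendre family `P` and every
`q` of degree exactly `3` there is `p = ∑_{n < N} a n • P n` with only real zeros such that
`∑_{n < N} (q(n) a n) • P n` has a non-real zero.  (First clause: Legendre families exist.) -/
theorem result :
    (∃ P, LegendreFamily P) ∧
    ∀ P : ℕ → ℝ[X], LegendreFamily P → ∀ q : ℝ[X], q.degree = 3 →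
      ∃ (N : ℕ) (a : ℕ → ℝ), OnlyRealZeros (∑ n ∈ Finset.range N, a n • P n) ∧
        ¬ OnlyRealZeros (∑ n ∈ Finset.range N, (q.eval (n : ℝ) * a n) • P n) := by
  constructor
  · exact ⟨_, Q80.Leg.isLegendre_rod⟩
  · intro P hP q hq
    have hP' : Q80.Leg.IsLegendre P := hP
    have hq' : q.natDegree = 3 := natDegree_eq_of_degree_eq_some (by exact_mod_cast hq)
    obtain ⟨Γ, hΓ⟩ := Q80.Leg.exists_mult hP' (fun k => q.eval (k : ℝ))
    obtain ⟨m, hm⟩ := Q80.Leg.exists_bad hP' (by rw [hq']; decide) hΓ
    have hmem : ((X + 1 : ℝ[X]) ^ m) ∈ Submodule.span ℝ (Set.range P) := by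
      rw [Q80.Leg.span_legendre hP']; trivial
    obtain ⟨c, hc⟩ := (Finsupp.mem_span_range_iff_exists_finsupp).1 hmem
    obtain ⟨N, hN⟩ : ∃ N, c.support ⊆ Finset.range N := by
      refine ⟨c.support.sup id + 1, fun x hx => ?_⟩
      rw [Finset.mem_range]
      have : id x ≤ c.support.sup id := Finset.le_sup hx
      simp only [id] at this
      omega
    have hsum : ∑ n ∈ Finset.range N, c n • P n = (X + 1) ^ m := by
      rw [← hc, Finsupp.sum]
      symm
      apply Finset.sum_subset hN
      intro x _ hx
      rw [Finsupp.notMem_support_iff] at hx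
      rw [hx, zero_smul]
    have hsum' : ∑ n ∈ Finset.range N, (q.eval (n : ℝ) * c n) • P n = Γ ((X + 1) ^ m) := by
      rw [← hsum, map_sum]
      apply Finset.sum_congr rfl
      intro n _
      rw [map_smul, hΓ, smul_smul, mul_comm]
    refine ⟨N, c, ?_, ?_⟩
    · rw [hsum]
      right
      intro z hz
      rw [map_pow, map_add, aeval_X, map_one] at hz
      have h1 : z + 1 = 0 := eq_zero_of_pow_eq_zero hz
      have h2 : z = -1 := by linear_combination h1
      rw [h2]; simp
    · rw [hsum']; exact hm

end Pool.Agent.Results.MP_c471e0_an.NoCubic
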