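import Pool.Agent.Q282.ST.Cont

/-!
# Sato-Tate at almost every height, for all abelian varieties over all number fields

If the sequence of the classes `x_v` of an abelian variety `A` over a number field `K` is
equidistributed, then for every real `τ ≠ 0` and every continuous class function `F` the means of
`F(x_v) N(v)^{-iτ}` over the primes of `K` with the weights `1 / N(v)` tend to `0`, that is
`∑_{N(v) < x} F(x_v) N(v)^{-1-iτ} = o(log log x)`.  This is proved here for all `τ` outside of one
set of Hausdorff dimension zero, the same for all number fields, all abelian varieties and all class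
functions, also for the primes in an arbitrary residue class `N(v) ≡ a` modulo `q`.  For the
characters of the unitary symplectic group, and all symmetric polynomials in the eigenvalues, the
series even converges, which means that the corresponding L-functions of `A` have finite boundary
values different from zero at the point `1 + iτ` of the edge.

The definitions are in `Pool/Agent/Q282/ST/Defs.lean`.  No modularity, no continuation of an
L-function and no unproved hypothesis is used.
-/

set_option autoImplicit false

namespace Pool.Agent.Results.MP_c481b3_nt.EveryHeightUniversal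

open NumberField IsDedekindDomain Filter Topology Q282.ST

/-- **Sato-Tate at almost every height.**  There is a set `T` of real numbers of Hausdorff dimension
`0` such that for every real `τ ∉ T`, every number field `K`, every abelian variety `A` of dimension
`g ≥ 1` over `K` (given by the equations `X`, with the eigenvalues `α v` of Frobenius at almost all
primes `v`) and every residue class `a` modulo `q`:

* for every symmetric polynomial `P` in the normalised eigenvalues (for example for every character of
  the group `USp(2g)`) the sum `∑ P(x_v) N(v)^{-1-iτ}` over the primes `v` with `N(v) < x`,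
  `N(v) ≡ a` modulo `q` converges as `x → ∞`;
* for every continuous class function `F` the sum `∑ F(x_v) N(v)^{-1-iτ}` over these primes is
  `o(log log x)`. -/
theorem result : ∃ T : Set ℝ, dimH T = 0 ∧
    ∀ τ : ℝ, τ ∉ T → ∀ (K : Type) [Field K] [NumberField K] (n g : ℕ), 1 ≤ g →
    ∀ (X : Set (MvPolynomial (Fin n) (𝓞 K))) (α : HeightOneSpectrum (𝓞 K) → Fin (2 * g) → ℂ),
    (∀ᶠ v in cofinite, IsFrob X g v (α v)) → ∀ q a : ℕ,
      (∀ P : MvPolynomial (Fin (2 * g)) ℂ, P.IsSymmetric → ∃ l : ℂ,
        Tendsto (twistedSum α (fun z => MvPolynomial.eval z P) q a τ) atTop (𝓝 l)) ∧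
      ∀ F : (Fin (2 * g) → ℂ) → ℂ, ContinuousOn F {z | ∀ j, ‖z j‖ = 1} → IsClass F →
        Tendsto (fun x : ℕ => twistedSum α F q a τ x / (Real.log (Real.log x) : ℂ)) atTop (𝓝 0) := by
  classical
  refine ⟨TM, dimH_TM, ?_⟩
  intro τ hτ K _ _ n g hg X α hα q a
  have hbad : {v | ¬ IsFrob X g v (α v)}.Finite := hα
  have hE : ∀ v, (Pool.Agent.H921R2.TatePole.below v : ℕ) ∉
      hbad.toFinset.image (fun v => (Pool.Agent.H921R2.TatePole.below v : ℕ)) →
      IsFrob X g v (α v) := by
    intro v hv
    by_contra h
    exact hv (Finset.mem_image.2 ⟨v, by simpa using h, rfl⟩)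
  exact ⟨fun P hP => conv_poly hg q a hE hτ hP, fun F hF hc => conv_cont hg q a hE hτ hF hc⟩

end Pool.Agent.Results.MP_c481b3_nt.EveryHeightUniversal
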