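import Pool.Agent.Q284.PX.All4

/-!
# One representation with all its abelian twists does not locate a single Frobenius class

`K = F_q(T)`, `q` odd.  Let `α a`, `a ∈ A`, be the positive roots of a compact connected simple group of rank `r`,
for instance `USp(2g)` (more generally any finite family of linear forms on `ℝ^r`, one of which, `α a₀`, is not
proportional to any other).  For `N ≥ 1` the representation `V_((N-1)ρ)` is irreducible of dimension `N^|A|`, and by
Weyl's character formula its weights are `wt α N x = ∑ a, ((N-1)/2 - x a) α a`, `x : A → Fin N`; for `SU(2)`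
(`r = 1`, `A` one element, `α = 2`) it is `Sym^(N-1)`.

For all `N ≥ N₀` and EVERY function `φ` from the finite places of `K` to `ℝ^r` (the conjugacy class at `P` is
`exp (i φ P)`; so any law of the classes whatsoever, or no law) there is `ψ` with `|ψ P - φ P| ≤ C/N` at EVERY place,
such that for EVERY idele class character `χ` of `K`, with whatever ramification, `L(s, V_((N-1)ρ) ⊗ χ)` is nice: its
Euler product converges for `Re s ≥ 1 - 5/(2 N^|A|)` to an entire function without zeros there, a polynomial in
`q^(-s)` of the prescribed degree `D χ` with functional equation with the prescribed root number `ε χ`.  `C` and `N₀`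
depend only on the roots, not on `q`.

So the complete analytic theory of the twists by `GL(1)` of the `L`-function of ONE representation, of dimension as
large as one likes, is compatible with every distribution of the classes up to `O(1/N)`.

Project PX4: plan, statements with paper proofs and assembly by helper284; lemmas proved by helpers 38, 79, 92 (and,
projects PS and PX, helpers 16, 24, 53, 58, 68, 92, 95, 137, 149, 162, 166, 177, 184, 222, 223, 225, 237, 239, 249,
251, 261, 277, 285).
-/

set_option autoImplicit false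

open Finset Polynomial ComplexConjugate

namespace Pool.Agent.Results.MP_c481b3_nt.OneRepresentationAllTwists

open Pool.Agent.Q284.PS Pool.Agent.Q284.PX

theorem result : ∀ (A : Type) [Fintype A] [DecidableEq A] (r : ℕ) (α : A → Fin r → ℝ) (a₀ : A),
    α a₀ ≠ 0 → (∀ b : A, b ≠ a₀ → LinearIndependent ℝ ![α a₀, α b]) →
    ∃ (C : ℝ) (N₀ : ℕ), ∀ N : ℕ, N₀ ≤ N → ∀ (F : Type) [Field F] [Fintype F], ringChar F ≠ 2 →
    ∀ φ : F[X] → Fin r → ℝ, ∀ (D : F[X] → ℕ → (F[X] → ℂ) → ℕ) (ε : (F[X] → ℂ) → ℂ),
    (∀ (Q : F[X]) (l : ℕ) (χ : F[X] → ℂ), Prim Q l χ →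
      N ^ Fintype.card A * (Q.natDegree + max 2 l - 1) ≤ D Q l χ ∧
        D Q l (fun f => conj (χ f)) = D Q l χ) →
    (∀ χ, ‖ε χ‖ = 1) → (∀ χ, ε (fun f => conj (χ f)) = conj (ε χ)) →
    ∃ ψ : F[X] → Fin r → ℝ, (∀ P i, |ψ P i - φ P i| ≤ C / N) ∧
      ∀ (Q : F[X]) (l : ℕ) (χ : F[X] → ℂ), Prim Q l χ → ∃ L : ℂ → ℂ,
        Nice (Fintype.card F) (D Q l χ) (ε χ) L ∧
        ∀ s : ℂ, 1 - 5 / (2 * ((N ^ Fintype.card A : ℕ) : ℝ)) ≤ s.re →
          L s ≠ 0 ∧ HasProd (repFactor α N ψ χ s) (L s) :=
  aStm

end Pool.Agent.Results.MP_c481b3_nt.OneRepresentationAllTwists
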