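import Pool.Agent.Q77.Camp.Main

/-!
# Campbell's majorization conjecture for the linear-invariant families `𝒰_α`

For every `α ≥ 1`, `F ∈ 𝒰_α` and `f ≺ F` with `f'(0) ≥ 0` one has `|f'(z)| ≤ |F'(z)|` for
`|z| < ρ(α) = α + 1 - √(α² + 2α)`. This settles the range `1 < α < 1.65` left open by Campbell.
-/

namespace Pool.Agent.Results.MP_c4ccc8_an.CampbellMajorization

open Complex Metric Set Filter Topology
open scoped ENNReal ComplexConjugate

/-- The order of a locally univalent function of the unit disc,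
`ord f = sup_{|z|<1} | -z̄ + (1-|z|²) f''(z) / (2 f'(z)) |`, as an extended nonnegative number. -/
noncomputable def ord (f : ℂ → ℂ) : ℝ≥0∞ :=
  ⨆ z ∈ ball (0 : ℂ) 1,
    ‖-conj z + (1 - (‖z‖ : ℂ) ^ 2) * iteratedDeriv 2 f z / (2 * deriv f z)‖ₑ

/-- The class `𝒰_α`: analytic locally univalent `f` on the unit disc with `f(0) = 0`,
`f'(0) = 1` and `ord f ≤ α`. -/
def ClassU (α : ℝ) : Set (ℂ → ℂ) :=
  {f | DifferentiableOn ℂ f (ball 0 1) ∧ (∀ z ∈ ball (0 : ℂ) 1, deriv f z ≠ 0) ∧ f 0 = 0 ∧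
    deriv f 0 = 1 ∧ ord f ≤ ENNReal.ofReal α}

/-- `f ≺ F`: `f = F ∘ w` on the disc for an analytic `w` with `|w(z)| ≤ |z|`. -/
def Subordinate (f F : ℂ → ℂ) : Prop :=
  ∃ w : ℂ → ℂ, DifferentiableOn ℂ w (ball 0 1) ∧ (∀ z ∈ ball (0 : ℂ) 1, ‖w z‖ ≤ ‖z‖) ∧
    ∀ z ∈ ball (0 : ℂ) 1, f z = F (w z)

/-- `ρ(α) = α + 1 - √(α² + 2α)`. -/
noncomputable def rho (α : ℝ) : ℝ := α + 1 - √(α ^ 2 + 2 * α)

/-- **Campbell's conjecture, for all `α ≥ 1`** (the range `1 < α < 1.65` was open). If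
`F ∈ 𝒰_α`, `f ≺ F` and `f'(0) ≥ 0` then `|f'(z)| ≤ |F'(z)|` for all `|z| < ρ(α)`. -/
theorem result : ∀ α : ℝ, 1 ≤ α → ∀ F ∈ ClassU α, ∀ f : ℂ → ℂ, Subordinate f F →
    (deriv f 0).im = 0 → 0 ≤ (deriv f 0).re →
      ∀ z : ℂ, ‖z‖ < rho α → ‖deriv f z‖ ≤ ‖deriv F z‖ := by
  intro α hα F hF f hf him hre z hz
  obtain ⟨hFd, hFne, hF0, hF1, hFo⟩ := hF
  obtain ⟨w, hwd, hwb, hfw⟩ := hf
  have hα0 : 0 ≤ α := by linarith
  have hord : ∀ z : ℂ, ‖z‖ < 1 →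
      ‖-conj z + (1 - (‖z‖ : ℂ) ^ 2) * iteratedDeriv 2 F z / (2 * deriv F z)‖ ≤ α := by
    intro x hx
    have h1 : ‖-conj x + (1 - (‖x‖ : ℂ) ^ 2) * iteratedDeriv 2 F x / (2 * deriv F x)‖ₑ
        ≤ ENNReal.ofReal α :=
      (le_iSup₂ (f := fun (z : ℂ) (_ : z ∈ ball (0 : ℂ) 1) =>
        ‖-conj z + (1 - (‖z‖ : ℂ) ^ 2) * iteratedDeriv 2 F z / (2 * deriv F z)‖ₑ) x
        (by simpa using hx)).trans hFo
    rw [← ofReal_norm_eq_enorm] at h1
    exact (ENNReal.ofReal_le_ofReal_iff hα0).mp h1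
  have hne : ∀ z : ℂ, ‖z‖ < 1 → deriv F z ≠ 0 := fun x hx => hFne x (by simpa using hx)
  have hwb' : ∀ z : ℂ, ‖z‖ < 1 → ‖w z‖ ≤ ‖z‖ := fun x hx => hwb x (by simpa using hx)
  obtain ⟨hr1, hr2⟩ := Q77.Camp.rho_facts hα (norm_nonneg z) hz
  have hw0 : w 0 = 0 := by
    have := hwb' 0 (by simp)
    simpa using this
  -- chain rule
  have hchain : ∀ x : ℂ, ‖x‖ < 1 → deriv f x = deriv F (w x) * deriv w x := by
    intro x hx
    have hxm : x ∈ ball (0 : ℂ) 1 := by simpa using hx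
    have hwx : ‖w x‖ < 1 := lt_of_le_of_lt (hwb' x hx) hx
    have h1 : HasDerivAt w (deriv w x) x :=
      (hwd.differentiableAt (isOpen_ball.mem_nhds hxm)).hasDerivAt
    have h2 : HasDerivAt F (deriv F (w x)) (w x) :=
      (hFd.differentiableAt (isOpen_ball.mem_nhds (by simpa using hwx))).hasDerivAt
    have h3 : HasDerivAt (fun y => F (w y)) (deriv F (w x) * deriv w x) x := h2.comp x h1
    have h4 : f =ᶠ[𝓝 x] fun y => F (w y) := by
      filter_upwards [isOpen_ball.mem_nhds hxm] with y hy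
      exact hfw y hy
    exact (h3.congr_of_eventuallyEq h4).deriv
  have ha : deriv w 0 = (((deriv f 0).re : ℝ) : ℂ) := by
    have h1 := hchain 0 (by simp)
    rw [hw0, hF1, one_mul] at h1
    rw [← h1]
    apply Complex.ext
    · simp
    · simp [him]
  rcases Q77.Camp.schwarz_struct hwd hwb' ha hre with hid | ⟨ha1, hstr⟩
  · -- `w = id`
    have hzm : z ∈ ball (0 : ℂ) 1 := by simpa using hr2
    have h4 : f =ᶠ[𝓝 z] F := by
      filter_upwards [isOpen_ball.mem_nhds hzm] with y hy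
      rw [hfw y hy, hid y (by simpa using hy)]
    rw [h4.deriv_eq]
  · obtain ⟨y, e, hy, he, hwz, hw'z⟩ := hstr z hr2
    have hwn : ‖w z‖ < 1 := lt_of_le_of_lt (hwb' z hr2) hr2
    have hpt := Q77.Camp.point_ineq hre ha1 hα rfl hr2 hr1 hy he hwz hw'z hwn rfl
    have hdist := Q77.Camp.distortion hFd hne hord hr2 hwn
      (δ := ‖(w z - z) / (1 - conj z * w z)‖) rfl
    have hw2 : 0 < 1 - ‖w z‖ ^ 2 := by nlinarith [norm_nonneg (w z)]
    rw [hchain z hr2, norm_mul]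
    have h1 : (1 - ‖w z‖ ^ 2) * (‖deriv F (w z)‖ * ‖deriv w z‖)
        ≤ (1 - ‖w z‖ ^ 2) * ‖deriv F z‖ := by
      calc (1 - ‖w z‖ ^ 2) * (‖deriv F (w z)‖ * ‖deriv w z‖)
          = ((1 - ‖w z‖ ^ 2) * ‖deriv F (w z)‖) * ‖deriv w z‖ := by ring
        _ ≤ ((1 - ‖z‖ ^ 2) * ‖deriv F z‖ *
            ((1 + ‖(w z - z) / (1 - conj z * w z)‖) /
              (1 - ‖(w z - z) / (1 - conj z * w z)‖)) ^ α) * ‖deriv w z‖ :=
            mul_le_mul_of_nonneg_right hdist (norm_nonneg _)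
        _ = ‖deriv F z‖ * (‖deriv w z‖ * ((1 - ‖z‖ ^ 2) *
            ((1 + ‖(w z - z) / (1 - conj z * w z)‖) /
              (1 - ‖(w z - z) / (1 - conj z * w z)‖)) ^ α)) := by ring
        _ ≤ ‖deriv F z‖ * (1 - ‖w z‖ ^ 2) :=
            mul_le_mul_of_nonneg_left hpt (norm_nonneg _)
        _ = _ := by ring
    exact le_of_mul_le_mul_left h1 hw2

end Pool.Agent.Results.MP_c4ccc8_an.CampbellMajorization
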