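import Pool.Agent.Q259.LU.Hj

/-! The local Gowers norms of the Moebius function, of every order and at every scale, are at most
`(2 ^ k - 1) / (2 ^ (k + 1) - 1) < 1 / 2` times those of its square. -/

set_option autoImplicit false

open Finset

namespace Pool.Agent.Results.MP_c59857_nt.LocalGowersNorms

/-- The Moebius function, real valued. -/
def mob (n : ℕ) : ℝ := ((ArithmeticFunction.moebius n : ℤ) : ℝ)

/-- The Liouville function, real valued. -/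
def lio (n : ℕ) : ℝ := (-1) ^ ArithmeticFunction.cardFactors n

/-- The box of all `s` with `s i < S i`. -/
def box {j : ℕ} (S : Fin j → ℕ) : Finset (Fin j → ℕ) := Fintype.piFinset fun i => range (S i)

/-- The product of the values of `u` at the `2 ^ j` points `x + ∑ i, q i * r i` with `r i = s i` or `r i = s' i`. -/
noncomputable def cube {j : ℕ} (u : ℕ → ℝ) (q s s' : Fin j → ℕ) (x : ℕ) : ℝ :=
  ∏ ω : Fin j → Bool, u (x + ∑ i, q i * if ω i then s' i else s i)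

/-- The box norms of `u`, of order `k + 1`, are at most `(2 ^ k - 1) / (2 ^ (k + 1) - 1)` times those of `v`, on
average over `X ≤ n < X + N`, for boxes with arbitrary sides `S i` between `ℓ₀` and `A * N` and steps `q i ≤ A`. -/
def GowersBound (u v : ℕ → ℝ) : Prop := ∀ k A : ℕ, ∀ ε : ℝ, 0 < ε → ∃ ℓ₀ : ℕ,
  ∀ (N X : ℕ) (q S : Fin (k + 1) → ℕ), X ≤ A * N → (∀ i, 1 ≤ q i ∧ q i ≤ A ∧ ℓ₀ ≤ S i ∧ S i ≤ A * N) →
    ∑ n ∈ Ico X (X + N), ∑ s ∈ box S, ∑ s' ∈ box S, cube u q s s' n ≤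
      (2 ^ k - 1) / (2 ^ (k + 1) - 1) * ∑ n ∈ Ico X (X + N), ∑ s ∈ box S, ∑ s' ∈ box S, cube v q s s' n +
        ε * N * ∏ i, (S i : ℝ) ^ 2

/-- The `2 κ`-th moments of the averages of the products of `2 ^ j` values of `u` over the progressions
`n, n + p, …, n + p (L - 1)`, with arbitrary weights `g n m`, over all parallelepipeds in a box and over
`X ≤ n < X + N`, are at most `(2 ^ j - 1) / (2 ^ j * (κ + 1) - 1)` times the moments for `v`. -/
def MomentBound (u v : ℕ → ℝ) : Prop := ∀ j κ A : ℕ, 1 ≤ j → 1 ≤ κ → ∀ ε : ℝ, 0 < ε → ∃ ℓ₀ : ℕ,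
  ∀ (N X p L : ℕ) (q S : Fin j → ℕ), X ≤ A * N → 1 ≤ p → p ≤ A → ℓ₀ ≤ L → L ≤ A * N →
    (∀ i, 1 ≤ q i ∧ q i ≤ A ∧ ℓ₀ ≤ S i ∧ S i ≤ A * N) → ∀ g : ℕ → ℕ → ℂ, (∀ n m, ‖g n m‖ ≤ 1) →
      ∑ n ∈ Ico X (X + N), ∑ s ∈ box S, ∑ s' ∈ box S,
          ‖∑ m ∈ range L, g n m * (cube u q s s' (n + p * m) : ℂ)‖ ^ (2 * κ) ≤
        (2 ^ j - 1) / (2 ^ j * (κ + 1) - 1) * ∑ n ∈ Ico X (X + N), ∑ s ∈ box S, ∑ s' ∈ box S,
          (∑ m ∈ range L, cube v q s s' (n + p * m)) ^ (2 * κ) +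
        ε * N * (L : ℝ) ^ (2 * κ) * ∏ i, (S i : ℝ) ^ 2

/-- If `(κ + 1) η θ ^ (2 κ) ≥ 1`, then in every box the average over the progression is at most `θ` in absolute
value, except for a proportion at most `η` of the base points and parallelepipeds. -/
def FewLarge (u : ℕ → ℝ) : Prop := ∀ j κ A : ℕ, 1 ≤ j → 1 ≤ κ → ∀ η θ : ℝ, 0 < η → 0 < θ →
  1 ≤ (κ + 1) * (η * θ ^ (2 * κ)) → ∃ ℓ₀ : ℕ,
  ∀ (N X p L : ℕ) (q S : Fin j → ℕ), X ≤ A * N → 1 ≤ p → p ≤ A → ℓ₀ ≤ L → L ≤ A * N →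
    (∀ i, 1 ≤ q i ∧ q i ≤ A ∧ ℓ₀ ≤ S i ∧ S i ≤ A * N) → ∀ g : ℕ → ℕ → ℂ, (∀ n m, ‖g n m‖ ≤ 1) →
      ∀ E : Finset (ℕ × (Fin j → ℕ) × (Fin j → ℕ)), E ⊆ Ico X (X + N) ×ˢ box S ×ˢ box S →
        (∀ e ∈ E, θ * L < ‖∑ m ∈ range L, g e.1 m * (cube u q e.2.1 e.2.2 (e.1 + p * m) : ℂ)‖) →
        (E.card : ℝ) ≤ η * N * ∏ i, (S i : ℝ) ^ 2

/-- The averages of `u` over short progressions of bounded difference tend to `0` in mean, as the length of the
progressions grows. -/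
def SmallOnProgressions (u : ℕ → ℝ) : Prop := ∀ ε : ℝ, 0 < ε → ∀ Q : ℕ, ∃ M : ℕ, 1 ≤ M ∧ ∃ X₀ : ℕ, ∀ X, X₀ ≤ X →
  ∀ q ∈ Icc 1 Q, ∑ n ∈ range X, |∑ j ∈ range M, u (n + q * j)| ≤ ε * M * X

/-- `v` is, in mean, a limit from above of periodic functions with values `0` and `1`. -/
def LimitOfPeriodic (v : ℕ → ℝ) : Prop := ∀ δ : ℝ, 0 < δ → ∃ (Q : ℕ) (w : ℕ → ℝ), 1 ≤ Q ∧ (∀ n, w (n + Q) = w n) ∧
  (∀ n, w n = 0 ∨ w n = 1) ∧ (∀ n, v n ≤ w n) ∧ ∃ X₀ : ℕ, ∀ X, X₀ ≤ X → ∑ n ∈ range X, (w n - v n) ≤ δ * X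

lemma mob_le (n : ℕ) : |mob n| ≤ 1 := by
  have := ArithmeticFunction.abs_moebius_le_one (n := n)
  unfold mob
  exact_mod_cast this

lemma lio_le (n : ℕ) : |lio n| ≤ 1 := by
  unfold lio
  rw [abs_pow, abs_neg, abs_one, one_pow]

lemma SA_mob : Pool.Agent.Q259.LU.SA mob := by
  refine Pool.Agent.Q259.LU.SA_of _ mob_le fun C hC => ?_
  have := Pool.Agent.TH327.Dim.good_mob hC (le_refl (0 : ℝ)) (by norm_num : (0 : ℝ) < 1 / 2)
  have e : (fun n : ℕ => (((mob n) : ℝ) : ℂ)) = Pool.Agent.TH327.Dim.muf := by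
    funext n
    simp [Pool.Agent.TH327.Dim.muf, mob]
  rw [e]
  exact this

lemma SA_lio : Pool.Agent.Q259.LU.SA lio := by
  refine Pool.Agent.Q259.LU.SA_of _ lio_le fun C hC => ?_
  have := Pool.Agent.TH327.Dim.good_lam hC (le_refl (0 : ℝ)) (by norm_num : (0 : ℝ) < 1 / 2)
  have e : (fun n : ℕ => (((lio n) : ℝ) : ℂ)) = Pool.Agent.TH327.Dim.laf := by
    funext n
    simp [Pool.Agent.TH327.Dim.laf, lio]
  rw [e]
  exact this

lemma mob_abs (n : ℕ) : |mob n| = mob n ^ 2 := by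
  have h : ∀ z : ℤ, |z| ≤ 1 → |z| = z ^ 2 := by
    intro z hz
    rw [abs_le] at hz
    obtain ⟨h1, h2⟩ := hz
    interval_cases z <;> rfl
  have := h _ (ArithmeticFunction.abs_moebius_le_one (n := n))
  unfold mob
  exact_mod_cast this

lemma LP_iff (v : ℕ → ℝ) (hv : ∀ n, |v n| ≤ 1) (h : LimitOfPeriodic v) :
    Pool.Agent.Q259.LU.LP (Pool.Agent.Q259.LU.mkAl v hv) := by
  intro δ hδ
  obtain ⟨Q, w, hQ, hw, hz, hvw, X₀, h1⟩ := h δ hδ
  refine ⟨Q, hQ, Pool.Agent.Q259.LU.mkAl w (fun n => by rcases hz n with h | h <;> rw [h] <;> simp), hw, hz, hvw, X₀, h1⟩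

lemma LP_mob : LimitOfPeriodic (fun n => mob n ^ 2) := by
  have hv : ∀ n, |mob n ^ 2| ≤ 1 := fun n => by
    rw [abs_pow]
    exact pow_le_one₀ (abs_nonneg _) (mob_le n)
  have h := Pool.Agent.Q259.LU.LP_mu (Pool.Agent.Q259.LU.mkAl _ hv) (fun n => rfl)
  intro δ hδ
  obtain ⟨Q, hQ, w, hw, hz, hvw, X₀, h1⟩ := h δ hδ
  exact ⟨Q, w, hQ, hw, hz, hvw, X₀, h1⟩

lemma LP_one : LimitOfPeriodic (fun _ => 1) := by
  intro δ hδ
  refine ⟨1, fun _ => 1, le_rfl, fun n => rfl, fun n => Or.inr rfl, fun n => le_rfl, 0, fun X _ => ?_⟩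
  simp only [sub_self, sum_const_zero]
  positivity

section
variable (u v : ℕ → ℝ) (huv : ∀ n, |u n| ≤ v n) (hv1 : ∀ n, v n ≤ 1) (hlp : LimitOfPeriodic v)
  (hs : SmallOnProgressions u)

include huv hv1 hlp hs

lemma gowers : GowersBound u v := by
  have hu : ∀ n, |u n| ≤ 1 := fun n => (huv n).trans (hv1 n)
  have hv : ∀ n, |v n| ≤ 1 := fun n => by
    rw [abs_of_nonneg ((abs_nonneg _).trans (huv n))]
    exact hv1 n
  intro k A ε hε
  obtain ⟨ℓ₀, h⟩ := Pool.Agent.Q259.LU.gowers_final u v hu hv huv (LP_iff v hv hlp) hs k A ε hε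
  refine ⟨ℓ₀, fun N X q S hX hqS => (h N X q S hX hqS).trans (le_of_eq ?_)⟩
  congr 2
  unfold Pool.Agent.Q259.LU.ck
  push_cast
  rw [pow_succ]
  ring

lemma moments : MomentBound u v := by
  have hu : ∀ n, |u n| ≤ 1 := fun n => (huv n).trans (hv1 n)
  have hv : ∀ n, |v n| ≤ 1 := fun n => by
    rw [abs_of_nonneg ((abs_nonneg _).trans (huv n))]
    exact hv1 n
  intro j κ A hj hκ ε hε
  exact Pool.Agent.Q259.LU.moments_final u v hu hv huv (LP_iff v hv hlp) hs j κ A hj hκ ε hε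

end

lemma const_lt (j κ : ℕ) (hκ : 1 ≤ κ) : ((2 : ℝ) ^ j - 1) / (2 ^ j * (κ + 1) - 1) < 1 / (κ + 1) := by
  have h2 : (1 : ℝ) ≤ 2 ^ j := one_le_pow₀ (by norm_num)
  have hκ1 : (1 : ℝ) ≤ κ := by exact_mod_cast hκ
  rw [div_lt_div_iff₀ (by nlinarith) (by positivity)]
  nlinarith

lemma few (u v : ℕ → ℝ) (huv : ∀ n, |u n| ≤ v n) (hv1 : ∀ n, v n ≤ 1) (h : MomentBound u v) : FewLarge u := by
  intro j κ A hj hκ η θ hη hθ hc
  have hk0 : (0 : ℝ) < κ + 1 := by positivity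
  have hε : 0 < η * θ ^ (2 * κ) - (2 ^ j - 1) / (2 ^ j * (κ + 1) - 1) := by
    have h1 := const_lt j κ hκ
    have h2 : 1 / ((κ : ℝ) + 1) ≤ η * θ ^ (2 * κ) := by
      rw [div_le_iff₀ hk0]
      linarith
    linarith
  obtain ⟨ℓ₀, h⟩ := h j κ A hj hκ _ hε
  refine ⟨ℓ₀ + 1, fun N X p L q S hX hp1 hpA hL hLN hqS g hg E hE hEl => ?_⟩
  have h1 := h N X p L q S hX hp1 hpA (by omega) hLN (fun i => by
    obtain ⟨f1, f2, f3, f4⟩ := hqS i
    exact ⟨f1, f2, by omega, f4⟩) g hg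
  have hL0 : (0 : ℝ) < L := by exact_mod_cast (show 0 < L by omega)
  have hv0 : ∀ n, 0 ≤ v n := fun n => (abs_nonneg _).trans (huv n)
  have hc0 : ∀ s s' x, 0 ≤ cube v q s s' x := fun s s' x => prod_nonneg fun _ _ => hv0 _
  have hc1 : ∀ s s' x, cube v q s s' x ≤ 1 := fun s s' x => prod_le_one (fun _ _ => hv0 _) fun _ _ => hv1 _
  have hbox : ((box S).card : ℝ) = ∏ i, (S i : ℝ) := by
    unfold box
    rw [Fintype.card_piFinset]
    simp
  have h2 : ∑ n ∈ Ico X (X + N), ∑ s ∈ box S, ∑ s' ∈ box S, (∑ m ∈ range L, cube v q s s' (n + p * m)) ^ (2 * κ) ≤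
      N * (L : ℝ) ^ (2 * κ) * ∏ i, (S i : ℝ) ^ 2 := by
    have e1 : ∀ n s s', (∑ m ∈ range L, cube v q s s' (n + p * m)) ^ (2 * κ) ≤ (L : ℝ) ^ (2 * κ) := by
      intro n s s'
      refine pow_le_pow_left₀ (sum_nonneg fun m _ => hc0 _ _ _) ?_ _
      refine (sum_le_sum fun m _ => hc1 _ _ _).trans (le_of_eq ?_)
      simp
    refine (sum_le_sum fun n _ => sum_le_sum fun s _ => sum_le_sum fun s' _ => e1 n s s').trans (le_of_eq ?_)
    simp only [sum_const, nsmul_eq_mul, Nat.card_Ico, Nat.add_sub_cancel_left]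
    rw [hbox, prod_pow]
    ring
  have hcn : (0 : ℝ) ≤ (2 ^ j - 1) / (2 ^ j * (κ + 1) - 1) := by
    have h2 : (1 : ℝ) ≤ 2 ^ j := one_le_pow₀ (by norm_num)
    have hκ0 : (0 : ℝ) ≤ κ := Nat.cast_nonneg _
    exact div_nonneg (by linarith) (by nlinarith)
  have h3 := mul_le_mul_of_nonneg_left h2 hcn
  have h4 : (E.card : ℝ) * (θ * L) ^ (2 * κ) ≤ ∑ n ∈ Ico X (X + N), ∑ s ∈ box S, ∑ s' ∈ box S,
      ‖∑ m ∈ range L, g n m * (cube u q s s' (n + p * m) : ℂ)‖ ^ (2 * κ) := by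
    calc (E.card : ℝ) * (θ * L) ^ (2 * κ) = ∑ _e ∈ E, (θ * L) ^ (2 * κ) := by rw [sum_const, nsmul_eq_mul]
      _ ≤ ∑ e ∈ E, ‖∑ m ∈ range L, g e.1 m * (cube u q e.2.1 e.2.2 (e.1 + p * m) : ℂ)‖ ^ (2 * κ) :=
          sum_le_sum fun e he => pow_le_pow_left₀ (by positivity) (hEl e he).le _
      _ ≤ ∑ e ∈ Ico X (X + N) ×ˢ box S ×ˢ box S,
            ‖∑ m ∈ range L, g e.1 m * (cube u q e.2.1 e.2.2 (e.1 + p * m) : ℂ)‖ ^ (2 * κ) :=
          sum_le_sum_of_subset_of_nonneg hE fun _ _ _ => by positivity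
      _ = _ := by
          rw [sum_product]
          exact sum_congr rfl fun n _ => sum_product _ _ _
  have h5 : (E.card : ℝ) * (θ * L) ^ (2 * κ) ≤ η * θ ^ (2 * κ) * (N * (L : ℝ) ^ (2 * κ) * ∏ i, (S i : ℝ) ^ 2) := by
    refine (h4.trans (h1.trans (add_le_add_left h3 _))).trans (le_of_eq ?_)
    ring
  have h6 : (θ * L) ^ (2 * κ) * (E.card : ℝ) ≤ (θ * L) ^ (2 * κ) * (η * N * ∏ i, (S i : ℝ) ^ 2) := by
    refine le_trans (le_of_eq ?_) (h5.trans (le_of_eq ?_))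
    · ring
    · rw [mul_pow]; ring
  exact le_of_mul_le_mul_left h6 (by positivity)

/-- **Local Gowers norms of the Moebius and the Liouville function, of every order and at every scale.**

(1) The box norms of order `k + 1` of the Moebius function, over boxes of arbitrary sides between `ℓ₀` and `A N` and on
average over `X ≤ n < X + N`, `X ≤ A N`, are at most `(2 ^ k - 1) / (2 ^ (k + 1) - 1) < 1 / 2` times those of its
square, up to `ε`; those of the Liouville function are at most `(2 ^ k - 1) / (2 ^ (k + 1) - 1) + ε`.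

(2) More generally, all moments of the averages of the products of `2 ^ j` values over short progressions, with
arbitrary weights: the constant for the moment of order `2 κ` is `(2 ^ j - 1) / (2 ^ j (κ + 1) - 1) < 1 / (κ + 1)`.

(3) Hence, if `(κ + 1) η θ ^ (2 κ) ≥ 1`, these averages are at most `θ` in absolute value, except for a proportion at
most `η` of the base points and parallelepipeds; this holds for every `j`.

(4) The bounds hold for all `|u| ≤ v ≤ 1` such that the averages of `u` over short progressions are small in mean and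
`v` is a limit from above of periodic functions with values `0` and `1`. -/
theorem result :
    (GowersBound mob (fun n => mob n ^ 2) ∧ GowersBound lio (fun _ => 1)) ∧
    (MomentBound mob (fun n => mob n ^ 2) ∧ MomentBound lio (fun _ => 1)) ∧
    (FewLarge mob ∧ FewLarge lio) ∧
    (∀ u v : ℕ → ℝ, (∀ n, |u n| ≤ v n) → (∀ n, v n ≤ 1) → LimitOfPeriodic v → SmallOnProgressions u →
      GowersBound u v ∧ MomentBound u v ∧ FewLarge u) ∧
    SmallOnProgressions mob ∧ SmallOnProgressions lio ∧ LimitOfPeriodic (fun n => mob n ^ 2) := by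
  have hm1 : ∀ n, |mob n| ≤ mob n ^ 2 := fun n => (mob_abs n).le
  have hm2 : ∀ n, mob n ^ 2 ≤ 1 := fun n => by rw [← mob_abs]; exact mob_le n
  have g1 := gowers mob _ hm1 hm2 LP_mob SA_mob
  have m1 := moments mob _ hm1 hm2 LP_mob SA_mob
  have g2 := gowers lio (fun _ => 1) lio_le (fun _ => le_rfl) LP_one SA_lio
  have m2 := moments lio (fun _ => 1) lio_le (fun _ => le_rfl) LP_one SA_lio
  exact ⟨⟨g1, g2⟩, ⟨m1, m2⟩, ⟨few _ _ hm1 hm2 m1, few _ (fun _ => 1) lio_le (fun _ => le_rfl) m2⟩,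
    fun u v huv hv hlp hs => ⟨gowers u v huv hv hlp hs, moments u v huv hv hlp hs,
      few u v huv hv (moments u v huv hv hlp hs)⟩, SA_mob, SA_lio, LP_mob⟩

end Pool.Agent.Results.MP_c59857_nt.LocalGowersNorms
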