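import Pool.Agent.Q241.CH.Moeb3

set_option autoImplicit false

/-!
# Which orders suffice in Chowla's conjecture for the Möbius function

The sets `K` of orders such that the vanishing of all the correlations with `k` simple exponents, `k` in `K`,
implies, for every function with the square of the Möbius function, the vanishing of all the correlations with
`m` simple exponents; and what this gives for the Möbius function.
-/

open Filter Topology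

namespace Pool.Agent.Results.MP_c59857_nt.OrdersThatSuffice

/-- All the correlations of order `k` of the function `f` vanish: for distinct integers `α i` and exponents
`ε i` in `{1, 2}`, exactly `k` of which are equal to one, the product of the `f (n + α i) ^ ε i` has mean value
zero. -/
def Order (f : ℕ → ℝ) (k : ℕ) : Prop :=
  ∀ (r : ℕ) (α : Fin r → ℤ), Function.Injective α → ∀ ε : Fin r → ℕ, (∀ i, ε i = 1 ∨ ε i = 2) →
    (Finset.univ.filter fun i => ε i = 1).card = k →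
    Tendsto (fun N : ℕ => (∑ n ∈ Finset.Icc 1 N, ∏ i, f (((n : ℤ) + α i).toNat) ^ (ε i)) / (N : ℝ)) atTop (𝓝 0)

/-- the Möbius function -/
noncomputable def mu (n : ℕ) : ℝ := ((ArithmeticFunction.moebius n : ℤ) : ℝ)

/-- Chowla's conjecture for the Möbius function -/
def Chowla : Prop :=
  ∀ (r : ℕ) (α : Fin r → ℤ), Function.Injective α → ∀ ε : Fin r → ℕ, (∀ i, ε i = 1 ∨ ε i = 2) → (∃ i, ε i = 1) →
    Tendsto (fun N : ℕ => (∑ n ∈ Finset.Icc 1 N, ∏ i, mu (((n : ℤ) + α i).toNat) ^ (ε i)) / (N : ℝ)) atTop (𝓝 0)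

/-- The condition: `m` is in `K`, or `K` contains a multiple of `2 * m`, or the sum of the inverses of the
elements of `K` divisible by `m` diverges. -/
def Suffices (K : Set ℕ) (m : ℕ) : Prop :=
  m ∈ K ∨ (∃ k ∈ K, 2 * m ∣ k) ∨ ¬ Summable (fun k : {k : ℕ // k ∈ K ∧ m ∣ k} => 1 / ((k : ℕ) : ℝ))

lemma abs_of_sq {f : ℕ → ℝ} (hf : ∀ n, f n ^ 2 = mu n ^ 2) (n : ℕ) : |f n| ≤ 1 := by
  have h1 : mu n ^ 2 ≤ 1 := by
    unfold mu
    have h2 := ArithmeticFunction.abs_moebius_le_one (n := n)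
    have h3 : |((ArithmeticFunction.moebius n : ℤ) : ℝ)| ≤ 1 := by exact_mod_cast h2
    rw [← sq_abs]
    exact pow_le_one₀ (abs_nonneg _) h3
  rw [← hf n] at h1
  exact (sq_le_one_iff_abs_le_one _).1 h1

lemma chowla_iff : Chowla ↔ ∀ k, 1 ≤ k → Order mu k := by
  constructor
  · intro h k hk r α hα ε hε hc
    refine h r α hα ε hε ?_
    have h1 : 0 < (Finset.univ.filter fun i => ε i = 1).card := by omega
    obtain ⟨i, hi⟩ := Finset.card_pos.1 h1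
    exact ⟨i, (Finset.mem_filter.1 hi).2⟩
  · intro h r α hα ε hε hi
    obtain ⟨i, hi⟩ := hi
    exact h _ (Finset.card_pos.2 ⟨i, Finset.mem_filter.2 ⟨Finset.mem_univ _, hi⟩⟩) r α hα ε hε rfl

lemma suffices_mult (M : ℕ) (hM : 1 ≤ M) (m : ℕ) (hm : 1 ≤ m) : Suffices {k | 1 ≤ k ∧ M ∣ k} m :=
  Or.inr (Or.inl ⟨2 * m * M, ⟨Nat.mul_pos (by omega) hM, Dvd.intro_left _ rfl⟩, Dvd.intro _ rfl⟩)

lemma suffices_fact (m : ℕ) (hm : 1 ≤ m) : Suffices {k | ∃ j : ℕ, 1 ≤ j ∧ k = 2 * j.factorial} m :=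
  Or.inr (Or.inl ⟨2 * m.factorial, ⟨m, hm, rfl⟩, Nat.mul_dvd_mul_left 2 (Nat.dvd_factorial hm le_rfl)⟩)

lemma not_suffices_odd (m : ℕ) (hm : 4 ≤ m) (he : Even m) : ¬ Suffices {k | Odd k ∨ k = 2} m := by
  have h1 : ∀ k : ℕ, (Odd k ∨ k = 2) → ¬ m ∣ k := by
    rintro k (hk | hk) hmk
    · exact (Nat.not_even_iff_odd.2 hk) ((he.trans_dvd hmk))
    · rw [hk] at hmk
      have := Nat.le_of_dvd (by norm_num) hmk
      omega
  rintro (h | ⟨k, hk, hmk⟩ | h)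
  · exact h1 m h (dvd_refl m)
  · exact h1 k hk ((Dvd.intro_left 2 rfl).trans hmk)
  · apply h
    have : IsEmpty {k : ℕ // k ∈ {k | Odd k ∨ k = 2} ∧ m ∣ k} := ⟨fun k => h1 k k.2.1 k.2.2⟩
    exact summable_empty

/-- the correlation along a progression of common difference `D` -/
lemma order_prog {f : ℕ → ℝ} {m : ℕ} (h : Order f m) {D : ℕ} (hD : 0 < D) :
    Tendsto (fun N : ℕ => (∑ n ∈ Finset.Icc 1 N, ∏ i : Fin m, f (n + D * i)) / (N : ℝ)) atTop (𝓝 0) := by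
  have h1 := h m (fun i => ((D * (i : ℕ) : ℕ) : ℤ)) (fun i j hij => by
      have h2 : D * (i : ℕ) = D * (j : ℕ) := Nat.cast_injective (R := ℤ) hij
      exact Fin.ext (Nat.eq_of_mul_eq_mul_left hD h2)) (fun _ => 1) (fun _ => Or.inl rfl) (by simp)
  refine h1.congr fun N => ?_
  congr 1
  refine Finset.sum_congr rfl fun n _ => Finset.prod_congr rfl fun i _ => ?_
  rw [pow_one]
  congr 1

/-- **Which orders suffice.** -/
theorem result :
    -- the exact condition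
    (∀ K : Set ℕ, (∀ k ∈ K, 1 ≤ k) → ∀ m, 1 ≤ m →
      (Suffices K m ↔ ∀ f : ℕ → ℝ, (∀ n, f n ^ 2 = mu n ^ 2) → (∀ k ∈ K, Order f k) → Order f m)) ∧
    -- sufficiency for all bounded functions
    (∀ K : Set ℕ, (∀ k ∈ K, 1 ≤ k) → ∀ m, 1 ≤ m → Suffices K m →
      ∀ f : ℕ → ℝ, (∀ n, |f n| ≤ 1) → (∀ k ∈ K, Order f k) → Order f m) ∧
    -- necessity: a progression of length `m`
    (∀ K : Set ℕ, (∀ k ∈ K, 1 ≤ k) → ∀ m, 1 ≤ m → ¬ Suffices K m →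
      ∃ f : ℕ → ℝ, (∀ n, f n ^ 2 = mu n ^ 2) ∧ (∀ k ∈ K, Order f k) ∧ ∃ D : ℕ, 0 < D ∧
        ¬ Tendsto (fun N : ℕ => (∑ n ∈ Finset.Icc 1 N, ∏ i : Fin m, f (n + D * i)) / (N : ℝ)) atTop (𝓝 0)) ∧
    -- Chowla's conjecture
    (∀ K : Set ℕ, (∀ k ∈ K, 1 ≤ k) → (∀ m, 1 ≤ m → Suffices K m) → (Chowla ↔ ∀ k ∈ K, Order mu k)) ∧
    (∀ M : ℕ, 1 ≤ M → (Chowla ↔ ∀ k, 1 ≤ k → M ∣ k → Order mu k)) ∧
    (Chowla ↔ ∀ j : ℕ, 1 ≤ j → Order mu (2 * j.factorial)) ∧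
    -- the odd orders and the order two
    (∀ m, 4 ≤ m → Even m → ∃ f : ℕ → ℝ, (∀ n, f n ^ 2 = mu n ^ 2) ∧ (∀ k, Odd k ∨ k = 2 → Order f k) ∧
      ∃ D : ℕ, 0 < D ∧
        ¬ Tendsto (fun N : ℕ => (∑ n ∈ Finset.Icc 1 N, ∏ i : Fin m, f (n + D * i)) / (N : ℝ)) atTop (𝓝 0)) := by
  have hA : ∀ K : Set ℕ, (∀ k ∈ K, 1 ≤ k) → ∀ m, 1 ≤ m → Suffices K m →
      ∀ f : ℕ → ℝ, (∀ n, |f n| ≤ 1) → (∀ k ∈ K, Order f k) → Order f m := fun K hK m hm hS f hf1 hf =>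
    Q241CH.orderM_of_suffices K hK m hm hS f hf1 hf
  have hB : ∀ K : Set ℕ, (∀ k ∈ K, 1 ≤ k) → ∀ m, 1 ≤ m → ¬ Suffices K m →
      ∃ f : ℕ → ℝ, (∀ n, f n ^ 2 = mu n ^ 2) ∧ (∀ k ∈ K, Order f k) ∧ ∃ D : ℕ, 0 < D ∧
        ¬ Tendsto (fun N : ℕ => (∑ n ∈ Finset.Icc 1 N, ∏ i : Fin m, f (n + D * i)) / (N : ℝ)) atTop (𝓝 0) :=
    fun K hK m hm hS => Q241CH.exists_moeb K hK m hm hS
  have hC : ∀ K : Set ℕ, (∀ k ∈ K, 1 ≤ k) → (∀ m, 1 ≤ m → Suffices K m) → (Chowla ↔ ∀ k ∈ K, Order mu k) := by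
    intro K hK hS
    rw [chowla_iff]
    exact ⟨fun h k hk => h k (hK k hk), fun h m hm => hA K hK m hm (hS m hm) mu (abs_of_sq fun _ => rfl) h⟩
  refine ⟨fun K hK m hm => ⟨fun hS f hf => hA K hK m hm hS f (abs_of_sq hf), fun h => ?_⟩, hA, hB, hC, fun M hM => ?_, ?_,
    fun m hm he => ?_⟩
  · by_contra hS
    obtain ⟨f, hf, hfK, D, hD, hfm⟩ := hB K hK m hm hS
    exact hfm (order_prog (h f hf hfK) hD)
  · rw [hC {k | 1 ≤ k ∧ M ∣ k} (fun k hk => hk.1) (fun m hm => suffices_mult M hM m hm)]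
    exact ⟨fun h k h1 h2 => h k ⟨h1, h2⟩, fun h k hk => h k hk.1 hk.2⟩
  · rw [hC {k | ∃ j : ℕ, 1 ≤ j ∧ k = 2 * j.factorial} (fun k ⟨j, _, hk⟩ => by
      rw [hk]; have := j.factorial_pos; omega) (fun m hm => suffices_fact m hm)]
    exact ⟨fun h j hj => h _ ⟨j, hj, rfl⟩, fun h k ⟨j, hj, hk⟩ => by rw [hk]; exact h j hj⟩
  · exact hB {k | Odd k ∨ k = 2} (fun k hk => by
      rcases hk with h | h
      · exact h.pos
      · rw [h]; norm_num) m (by omega) (not_suffices_odd m hm he)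

end Pool.Agent.Results.MP_c59857_nt.OrdersThatSuffice
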