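import Pool.Agent.Q132.CS.D
import Pool.Agent.Q132.CS.E

set_option autoImplicit false

/-!
# Which shifts suffice in Chowla's conjecture for the Möbius function

If all correlations of the Möbius function with shifts in a set `S` of integers vanish, then all of them
vanish, as soon as `S` contains progressions with squarefree difference `d` and length `L` for which
`L / log (2 d)` is unbounded and the sum of `1 / p` over the primes dividing `d` tends to zero. There are
arbitrarily sparse sets of this kind with gaps tending to infinity. If `L / d` is unbounded, then the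
correlations with `2 k` simple exponents and shifts in `S` control all those with `k` simple exponents.
The same holds for all multiplicative functions `f` with `f ^ 2 = μ ^ 2`.
-/

open Filter Topology Finset

namespace Pool.Agent.Results.MP_c59857_nt.ShiftsThatSuffice

/-- the Möbius function -/
noncomputable def mu (n : ℕ) : ℝ := ((ArithmeticFunction.moebius n : ℤ) : ℝ)

/-- The correlations of `f` with exactly `k` simple exponents and with shifts in `S` vanish along the
scales in `𝒩`: for distinct integers `α i ∈ S` and exponents `ε i` in `{1, 2}`, exactly `k` of which are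
equal to one, the product of the `f (n + α i) ^ ε i` has mean value zero along `𝒩`. -/
def Order (f : ℕ → ℝ) (S : Set ℤ) (𝒩 : Set ℕ) (k : ℕ) : Prop :=
  ∀ (r : ℕ) (α : Fin r → ℤ), Function.Injective α → (∀ i, α i ∈ S) →
    ∀ ε : Fin r → ℕ, (∀ i, ε i = 1 ∨ ε i = 2) → (Finset.univ.filter fun i => ε i = 1).card = k →
    Tendsto (fun N : ℕ => (∑ n ∈ Finset.Icc 1 N, ∏ i, f (((n : ℤ) + α i).toNat) ^ (ε i)) / (N : ℝ))
      (atTop ⊓ 𝓟 𝒩) (𝓝 0)

/-- Chowla's conjecture for the Möbius function -/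
def Chowla : Prop :=
  ∀ (r : ℕ) (α : Fin r → ℤ), Function.Injective α → ∀ ε : Fin r → ℕ, (∀ i, ε i = 1 ∨ ε i = 2) →
    (∃ i, ε i = 1) →
    Tendsto (fun N : ℕ => (∑ n ∈ Finset.Icc 1 N, ∏ i, mu (((n : ℤ) + α i).toNat) ^ (ε i)) / (N : ℝ))
      atTop (𝓝 0)

/-- The scales in `𝒩` have bounded ratios. -/
def Scales (𝒩 : Set ℕ) : Prop :=
  ∃ C : ℝ, ∀ x : ℕ, 1 ≤ x → ∃ N ∈ 𝒩, x ≤ N ∧ (N : ℝ) ≤ C * x

/-- `S` contains progressions of squarefree difference `d` and length `L` with `L / w d` unbounded and with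
`∑ 1 / p`, `p ∣ d`, tending to zero. -/
def Long (w : ℕ → ℝ) (S : Set ℤ) : Prop :=
  ∀ K : ℕ, ∃ (t : ℤ) (d L : ℕ), Squarefree d ∧ K * ∑ p ∈ d.primeFactors, 1 / (p : ℝ) ≤ 1 ∧
    K * w d ≤ L ∧ ∀ i < L, t + d * (i : ℤ) ∈ S

/-- multiplicative functions with the square of the Möbius function -/
def MoebiusLike (f : ℕ → ℝ) : Prop :=
  (∀ n, f n ^ 2 = mu n ^ 2) ∧ ∀ m n, Nat.Coprime m n → f (m * n) = f m * f n

lemma mu_like : MoebiusLike mu := by
  refine ⟨fun _ => rfl, fun m n h => ?_⟩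
  unfold mu
  rw [ArithmeticFunction.isMultiplicative_moebius.map_mul_of_coprime h]
  push_cast
  rfl

/-- the extension to the integers -/
noncomputable def ext (f : ℕ → ℝ) (m : ℤ) : ℝ := f m.toNat

lemma tern {f : ℕ → ℝ} (hf : MoebiusLike f) : Q132.CS.Tern (ext f) := by
  intro m
  unfold ext
  have h := hf.1 m.toNat
  have h2 : mu m.toNat ^ 2 = 0 ∨ mu m.toNat ^ 2 = 1 := by
    unfold mu
    rcases ArithmeticFunction.moebius_eq_or m.toNat with h' | h' | h' <;> rw [h'] <;> norm_num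
  rw [← h] at h2
  rcases h2 with h2 | h2
  · exact Or.inr (Or.inl (pow_eq_zero_iff two_ne_zero |>.1 h2))
  · rcases mul_self_eq_one_iff.1 (show f m.toNat * f m.toNat = 1 by rw [← sq]; exact h2) with h3 | h3
    · exact Or.inr (Or.inr h3)
    · exact Or.inl h3

lemma van_of_order {f : ℕ → ℝ} {S : Set ℤ} {𝒩 : Set ℕ} {Q : ℕ → Prop}
    (h : ∀ k, 1 ≤ k → Q k → Order f S 𝒩 k) :
    Q132.CS.Van (ext f) (atTop ⊓ 𝓟 𝒩) S Q := by
  classical
  intro T U hTS hUS hTU hT hQ
  set E : Finset ℤ := T ∪ U with hE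
  let e : Fin E.card ≃ E := E.equivFin.symm
  have h1 := h T.card (Finset.card_pos.2 hT) hQ E.card (fun i => (e i : ℤ))
    (fun i j hij => e.injective (Subtype.ext hij))
    (fun i => by
      rcases Finset.mem_union.1 (e i).2 with h' | h'
      · exact hTS (Finset.mem_coe.2 h')
      · exact hUS (Finset.mem_coe.2 h'))
    (fun i => if (e i : ℤ) ∈ T then 1 else 2) (fun i => by split_ifs <;> simp) (by
      have h2 : (Finset.univ.filter fun i : Fin E.card => (if (e i : ℤ) ∈ T then 1 else 2) = 1) =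
          Finset.univ.filter fun i : Fin E.card => (e i : ℤ) ∈ T := by
        ext i
        simp only [Finset.mem_filter, Finset.mem_univ, true_and]
        split_ifs with h' <;> simp [h']
      rw [h2]
      refine Finset.card_bij (fun i _ => (e i : ℤ)) (fun i hi => (Finset.mem_filter.1 hi).2)
        (fun i _ j _ hij => e.injective (Subtype.ext hij)) (fun z hz => ?_)
      refine ⟨e.symm ⟨z, Finset.mem_union_left _ hz⟩, ?_, ?_⟩
      · rw [Finset.mem_filter]
        refine ⟨Finset.mem_univ _, ?_⟩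
        rw [Equiv.apply_symm_apply]; exact hz
      · rw [Equiv.apply_symm_apply])
  refine h1.congr fun N => ?_
  unfold Q132.CS.cor
  congr 1
  refine Finset.sum_congr rfl fun n _ => ?_
  have h3 : ∏ i : Fin E.card, f (((n : ℤ) + (e i : ℤ)).toNat) ^ (if (e i : ℤ) ∈ T then 1 else 2) =
      ∏ z ∈ E, f (((n : ℤ) + z).toNat) ^ (if z ∈ T then 1 else 2) := by
    rw [← Finset.prod_coe_sort E, ← Equiv.prod_comp e]
  rw [h3, hE, Finset.prod_union hTU]
  congr 1
  · exact Finset.prod_congr rfl fun z hz => by rw [if_pos hz, pow_one]; rfl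
  · exact Finset.prod_congr rfl fun z hz => by
      rw [if_neg fun hz' => Finset.disjoint_left.1 hTU hz' hz]; rfl

lemma count_dvd (p R : ℕ) : (((Finset.Icc 1 R).filter (fun x => p ∣ x)).card : ℝ) ≤ R / p := by
  have h1 : ((Finset.Icc 1 R).filter (fun x => p ∣ x)).card = R / p := by
    rw [← Nat.Ioc_filter_dvd_card_eq_div R p]
    rfl
  rw [h1]
  exact Nat.cast_div_le

lemma rich_of_long {f : ℕ → ℝ} (hf : MoebiusLike f) {S : Set ℤ} {w : ℕ → ℝ} (h : Long w S) :
    Q132.CS.Rich w (ext f) S := by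
  classical
  intro K hK
  obtain ⟨t, d, L, hd, hsum, hL, hS⟩ := h K
  have hd0 : 0 < d := Nat.pos_of_ne_zero hd.ne_zero
  have hfd : f d = 1 ∨ f d = -1 := by
    have h1 := hf.1 d
    have h2 : mu d ^ 2 = 1 := by
      unfold mu
      have := ArithmeticFunction.moebius_sq_eq_one_of_squarefree hd
      exact_mod_cast this
    rw [h2] at h1
    exact mul_self_eq_one_iff.1 (by rw [← sq]; exact h1)
  refine ⟨t, d, L, f d, 0, hd0, hfd, hL, fun R => ?_, hS⟩
  have hsub : (Finset.Icc 1 R).filter (fun x : ℕ => f d * ext f ((d : ℤ) * x) ≠ ext f x) ⊆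
      d.primeFactors.biUnion fun p => (Finset.Icc 1 R).filter (fun x => p ∣ x) := by
    intro x hx
    rw [Finset.mem_filter] at hx
    have hcop : ¬ Nat.Coprime d x := by
      intro hc
      apply hx.2
      unfold ext
      have h1 : ((d : ℤ) * x).toNat = d * x := by
        rw [← Nat.cast_mul, Int.toNat_natCast]
      rw [h1, Int.toNat_natCast, hf.2 d x hc, ← mul_assoc]
      rcases hfd with h' | h' <;> rw [h'] <;> norm_num
    obtain ⟨p, hp, hpd, hpx⟩ := Nat.Prime.not_coprime_iff_dvd.1 hcop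
    exact Finset.mem_biUnion.2 ⟨p, Nat.mem_primeFactors.2 ⟨hp, hpd, hd.ne_zero⟩,
      Finset.mem_filter.2 ⟨hx.1, hpx⟩⟩
  have h1 := (Finset.card_le_card hsub).trans Finset.card_biUnion_le
  have h2 : (((Finset.Icc 1 R).filter
      (fun x : ℕ => f d * ext f ((d : ℤ) * x) ≠ ext f x)).card : ℝ) ≤
      ∑ p ∈ d.primeFactors, (((Finset.Icc 1 R).filter (fun x => p ∣ x)).card : ℝ) := by exact_mod_cast h1
  have h3 : ∑ p ∈ d.primeFactors, (((Finset.Icc 1 R).filter (fun x => p ∣ x)).card : ℝ) ≤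
      (∑ p ∈ d.primeFactors, 1 / (p : ℝ)) * R := by
    rw [Finset.sum_mul]
    refine Finset.sum_le_sum fun p _ => (count_dvd p R).trans (le_of_eq ?_)
    ring
  have hKr : (0 : ℝ) < K := by exact_mod_cast hK
  have h4 : ∑ p ∈ d.primeFactors, 1 / (p : ℝ) ≤ 1 / K := by
    rw [le_div_iff₀ hKr]; linarith
  have h5 : (∑ p ∈ d.primeFactors, 1 / (p : ℝ)) * R ≤ 1 / K * R :=
    mul_le_mul_of_nonneg_right h4 (by positivity)
  linarith

lemma order_of_tendsto {f : ℕ → ℝ} {k : ℕ} (hk : 1 ≤ k)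
    (h : ∀ T H : Finset ℤ, T ⊆ H → T.Nonempty → T.card = k →
      Tendsto (fun R : ℕ => (∑ m ∈ Finset.Icc 1 R, Q132.CS.mon (ext f) T H (m : ℤ) 0 1) / (R : ℝ)) atTop (𝓝 0)) :
    Order f Set.univ Set.univ k := by
  classical
  intro r α hα _ ε hε hcard
  rw [Filter.principal_univ, inf_top_eq]
  set T : Finset ℤ := (Finset.univ.filter fun i => ε i = 1).image α with hT
  set H : Finset ℤ := Finset.univ.image α with hH
  have hTcard : T.card = k := by rw [hT, Finset.card_image_of_injective _ hα, hcard]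
  have h1 := h T H (Finset.image_subset_image (Finset.filter_subset _ _))
    (Finset.card_pos.1 (by omega)) hTcard
  refine h1.congr fun N => ?_
  congr 1
  refine Finset.sum_congr rfl fun n _ => ?_
  unfold Q132.CS.mon
  rw [hH, Finset.prod_image fun i _ j _ hij => hα hij]
  refine Finset.prod_congr rfl fun i _ => ?_
  have h2 : (n : ℤ) + (0 + 1 * α i) = n + α i := by ring
  rw [h2]
  have h3 : (if α i ∈ T then 1 else 2) = ε i := by
    split_ifs with h'
    · obtain ⟨j, hj, hij⟩ := Finset.mem_image.1 h'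
      rw [← hα hij]; exact (Finset.mem_filter.1 hj).2.symm
    · rcases hε i with h4 | h4
      · exact absurd (Finset.mem_image_of_mem α (Finset.mem_filter.2 ⟨Finset.mem_univ _, h4⟩)) h'
      · exact h4.symm
  rw [h3]; rfl

lemma chowla_iff : Chowla ↔ ∀ k, 1 ≤ k → Order mu Set.univ Set.univ k := by
  constructor
  · intro h k hk r α hα _ ε hε hcard
    rw [Filter.principal_univ, inf_top_eq]
    refine h r α hα ε hε ?_
    obtain ⟨i, hi⟩ := Finset.card_pos.1 (show 0 < (Finset.univ.filter fun i => ε i = 1).card by omega)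
    exact ⟨i, (Finset.mem_filter.1 hi).2⟩
  · intro h r α hα ε hε hi
    obtain ⟨i, hi⟩ := hi
    have h1 := h _ (Finset.card_pos.2 ⟨i, Finset.mem_filter.2 ⟨Finset.mem_univ i, hi⟩⟩) r α hα
      (fun _ => Set.mem_univ _) ε hε rfl
    rwa [Filter.principal_univ, inf_top_eq] at h1

/-- **Which shifts suffice in Chowla's conjecture for the Möbius function.** -/
theorem result :
    -- multiplicative functions with the square of the Möbius function: order by order, and all orders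
    (∀ (S : Set ℤ) (𝒩 : Set ℕ), Scales 𝒩 → ∀ f : ℕ → ℝ, MoebiusLike f →
      (Long (fun d => d) S → ∀ k, 1 ≤ k → Order f S 𝒩 (2 * k) → Order f Set.univ Set.univ k) ∧
      (Long (fun d => Real.log (2 * d)) S → (∀ k, 1 ≤ k → Order f S 𝒩 k) →
        ∀ k, 1 ≤ k → Order f Set.univ Set.univ k)) ∧
    -- the Möbius function
    (∀ (S : Set ℤ) (𝒩 : Set ℕ), Scales 𝒩 → Long (fun d => Real.log (2 * d)) S →
      (Chowla ↔ ∀ k, 1 ≤ k → Order mu S 𝒩 k)) ∧
    -- well separated shifts
    (∀ (D : ℕ) (𝒩 : Set ℕ), Scales 𝒩 → ∀ f : ℕ → ℝ, MoebiusLike f → ∀ k, 1 ≤ k →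
      (∀ (r : ℕ) (α : Fin r → ℤ), (∀ i j, i ≠ j → (D : ℤ) ≤ |α i - α j|) →
        Function.Injective α → ∀ ε : Fin r → ℕ, (∀ i, ε i = 1 ∨ ε i = 2) →
        (Finset.univ.filter fun i => ε i = 1).card = 2 * k →
        Tendsto (fun N : ℕ => (∑ n ∈ Finset.Icc 1 N, ∏ i, f (((n : ℤ) + α i).toNat) ^ (ε i)) / (N : ℝ))
          (atTop ⊓ 𝓟 𝒩) (𝓝 0)) → Order f Set.univ Set.univ k) ∧
    -- arbitrarily sparse sets of shifts with gaps tending to infinity
    (∀ φ : ℕ → ℕ, ∃ S : Set ℕ, (∀ j, {s | s ∈ S ∧ s < φ j}.Finite ∧ {s | s ∈ S ∧ s < φ j}.ncard ≤ j) ∧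
      (∀ D : ℕ, {s | s ∈ S ∧ ∃ s' ∈ S, s < s' ∧ s' ≤ s + D}.Finite) ∧
      Long (fun d => d) {z | ∃ s ∈ S, z = (s : ℤ)} ∧
      Long (fun d => Real.log (2 * d)) {z | ∃ s ∈ S, z = (s : ℤ)}) := by
  classical
  have hA : ∀ (S : Set ℤ) (𝒩 : Set ℕ), Scales 𝒩 → ∀ f : ℕ → ℝ, MoebiusLike f →
      (Long (fun d => d) S → ∀ k, 1 ≤ k → Order f S 𝒩 (2 * k) → Order f Set.univ Set.univ k) ∧
      (Long (fun d => Real.log (2 * d)) S → (∀ k, 1 ≤ k → Order f S 𝒩 k) →
        ∀ k, 1 ≤ k → Order f Set.univ Set.univ k) := by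
    intro S 𝒩 h𝒩 f hf
    refine ⟨fun hS k hk h => ?_, fun hS h k hk => ?_⟩
    · refine order_of_tendsto hk fun T H hTH hT hTk => ?_
      exact Q132.CS.order_by_order (tern hf) h𝒩
        (van_of_order (Q := fun c => c = 2 * k) fun k' _ hk' => by rw [hk']; exact h)
        (rich_of_long hf hS) T H hTH hT hTk
    · refine order_of_tendsto hk fun T H hTH hT _ => ?_
      exact Q132.CS.all_orders (tern hf) h𝒩
        (van_of_order (Q := fun _ => True) fun k' hk' _ => h k' hk')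
        (rich_of_long hf hS) T H hTH hT
  -- the construction
  have hprime : ∀ K : ℕ, ∃ p : ℕ, K + 1 ≤ p ∧ p.Prime := fun K => Nat.exists_infinite_primes (K + 1)
  choose q hq1 hq2 using hprime
  set L : ℕ → ℕ := fun K => K * (2 * q K) with hL
  have hLw : ∀ K K' : ℕ, K ≤ K' → (K : ℝ) * (q K' : ℝ) ≤ (L K' : ℝ) := by
    intro K K' h
    simp only [hL]
    push_cast
    have h1 : (K : ℝ) ≤ K' := by exact_mod_cast h
    have h2 : (0 : ℝ) ≤ (q K' : ℝ) := by positivity
    nlinarith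
  have hLlog : ∀ K K' : ℕ, K ≤ K' → (K : ℝ) * Real.log (2 * (q K' : ℝ)) ≤ (L K' : ℝ) := by
    intro K K' h
    simp only [hL]
    push_cast
    have h0 : (0 : ℝ) < 2 * (q K' : ℝ) := by
      have := (hq2 K').pos
      positivity
    have h1 : (K : ℝ) ≤ K' := by exact_mod_cast h
    have h2 : Real.log (2 * (q K' : ℝ)) ≤ 2 * q K' := by
      have := Real.log_le_sub_one_of_pos h0
      linarith
    have h3 : (0 : ℝ) ≤ K := by positivity
    calc (K : ℝ) * Real.log (2 * (q K' : ℝ)) ≤ K * (2 * q K') := mul_le_mul_of_nonneg_left h2 h3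
      _ ≤ K' * (2 * q K') := mul_le_mul_of_nonneg_right h1 h0.le
  have hsumq : ∀ K K' : ℕ, K ≤ K' → (K : ℝ) * ∑ p ∈ (q K').primeFactors, 1 / (p : ℝ) ≤ 1 := by
    intro K K' h
    rw [(hq2 K').primeFactors, Finset.sum_singleton, mul_one_div,
      div_le_one (by exact_mod_cast (hq2 K').pos)]
    have := hq1 K'
    exact_mod_cast (by omega : K ≤ q K')
  refine ⟨hA, fun S 𝒩 h𝒩 hS => ⟨fun h k _ => ?_, fun h => ?_⟩, ?_, fun φ => ?_⟩
  · intro r α hα _ ε hε hcard
    have h1 : ∃ i, ε i = 1 := by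
      obtain ⟨i, hi⟩ := Finset.card_pos.1 (show 0 < (Finset.univ.filter fun i => ε i = 1).card by omega)
      exact ⟨i, (Finset.mem_filter.1 hi).2⟩
    exact (h r α hα ε hε h1).mono_left inf_le_left
  · rw [chowla_iff]
    exact (hA S 𝒩 h𝒩 mu mu_like).2 hS h
  · intro D 𝒩 h𝒩 f hf k hk h
    obtain ⟨S, _, hsep, hbl⟩ := Q132.CS.sep (fun _ => 0) q L hq1 D
    refine (hA {z | ∃ s ∈ S, z = (s : ℤ)} 𝒩 h𝒩 f hf).1 (fun K => ?_) k hk
      fun r α hα hαS ε hε hcard => h r α (fun i j hij => ?_) hα ε hε hcard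
    · obtain ⟨K', hK', hi⟩ := hbl K
      exact ⟨Q132.CS.tt (fun _ => 0) q L K', q K', L K', (hq2 K').squarefree, hsumq K K' hK',
        hLw K K' hK', fun i hi' => ⟨_, hi i hi', by push_cast; rfl⟩⟩
    · obtain ⟨s, hs, hs'⟩ := hαS i
      obtain ⟨t, ht, ht'⟩ := hαS j
      have hne : s ≠ t := fun hc => hij (hα (by rw [hs', ht', hc]))
      rw [hs', ht']
      rcases lt_or_gt_of_ne hne with h1 | h1
      · have h2 := hsep s hs t ht h1
        rw [abs_of_neg (by omega)]
        omega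
      · have h2 := hsep t ht s hs h1
        rw [abs_of_pos (by omega)]
        omega
  · refine ⟨Q132.CS.SS φ q L, Q132.CS.card_le φ q L, Q132.CS.gaps φ q L hq1,
      fun K => ⟨Q132.CS.tt φ q L K, q K, L K, (hq2 K).squarefree, hsumq K K le_rfl, hLw K K le_rfl,
        fun i hi => ⟨_, ⟨K, i, hi, rfl⟩, by push_cast; rfl⟩⟩,
      fun K => ⟨Q132.CS.tt φ q L K, q K, L K, (hq2 K).squarefree, hsumq K K le_rfl, hLlog K K le_rfl,
        fun i hi => ⟨_, ⟨K, i, hi, rfl⟩, by push_cast; rfl⟩⟩⟩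

end Pool.Agent.Results.MP_c59857_nt.ShiftsThatSuffice
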