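import Pool.Agent.Q259.AS.FnA

/-!
# Chowla's conjecture for shifts near the dilates of typical points of self-similar measures

Definitions used (`Pool.Agent.Q259.AS`): `SelfSim μ`: `μ` is a self-similar measure `μ = ∑ p i * (f i)_* μ` of
finitely many maps `f i x = ρ i * x + t i` with `0 < |ρ i| < 1` and `p i > 0`, not all with the same fixed point (that
is, `μ` is not a point mass; overlaps are allowed and the ratios are arbitrary); `FourLp μ`: the Fourier transform of
`μ` belongs to `L^q` for some `q < ∞` (for instance because it is `O(|t| ^ (-δ))` for some `δ > 0`).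
-/

set_option autoImplicit false

namespace Pool.Agent.Results.MP_c59857_nt.TypicalTuples

open MeasureTheory Filter Finset Pool.Agent.Q259.AS

/-- The Möbius function, with the value `0` at the integers `m ≤ 0`. -/
noncomputable def mob (m : ℤ) : ℂ := if 1 ≤ m then ((ArithmeticFunction.moebius m.toNat : ℤ) : ℂ) else 0

lemma mob_le (m : ℤ) : ‖mob m‖ ≤ 1 := by
  unfold mob
  split_ifs
  · rw [Complex.norm_intCast]
    exact_mod_cast ArithmeticFunction.abs_moebius_le_one
  · simp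

lemma mob_eq (m : ℤ) : mob m = Pool.Agent.H373R2.T7.exI (fun n => ((Pool.Agent.H373R2.T7.muR n : ℝ) : ℂ)) m := by
  unfold mob Pool.Agent.H373R2.T7.exI Pool.Agent.H373R2.T7.muR
  split_ifs
  · push_cast
    rfl
  · rfl

/-- Let `μ 1, ..., μ s` be probability measures on the line, each of which is self-similar and not a point mass, or
has a Fourier transform which belongs to some `L^q`, `q < ∞`. Let `a 1, a 2, ...` be positive real numbers with
`log (a k) ≥ k ^ ρ` for large `k`, where `ρ > 0`, let `Y k` be arbitrary sets of at most `k ^ T` vectors `y` with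
`|y i| ≤ B a k`, and, for each `k`, let `g` run through an arbitrary family of at most `log (a k) ^ κ` functions
bounded by `log (a k) ^ κ` (for instance products `μ (n + c 1) ^ e 1 ⋯ μ (n + c r) ^ e r`). Then almost every point
`x` with respect to the product measure has the following property. For all `A` and `U`, for all large `k`, all `y` in
`Y k`, all integers `h 1, ..., h s` with `|h i - (a k * x i + y i)| ≤ log (a k) ^ A`, all exponents
`ε 1, ..., ε s ∈ {0, 1, 2}` not all even, all `g` in the family and all `N ≤ B a k`, the sum of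
`g n * μ (n + h 1) ^ ε 1 ⋯ μ (n + h s) ^ ε s` over `n ≤ N` is at most `a k / log (a k) ^ U` in absolute value. -/
theorem result (s κ B T : ℕ) (μ : Fin s → Measure ℝ) [∀ i, IsProbabilityMeasure (μ i)]
    (hμ : ∀ i, SelfSim (μ i) ∨ FourLp (μ i)) (a : ℕ → ℝ) (ρ : ℝ) (hρ : 0 < ρ)
    (ha : ∀ᶠ k : ℕ in atTop, 0 < a k ∧ (k : ℝ) ^ ρ ≤ Real.log (a k))
    (Y : ℕ → Finset (Fin s → ℝ)) (hY : ∀ᶠ k : ℕ in atTop, (Y k).card ≤ k ^ T ∧ ∀ y ∈ Y k, ∀ i, |y i| ≤ B * a k)
    (L : ℕ → ℕ) (g : ∀ k, Fin (L k) → ℕ → ℂ)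
    (hg : ∀ᶠ k : ℕ in atTop, (L k : ℝ) ≤ Real.log (a k) ^ κ ∧ ∀ l n, ‖g k l n‖ ≤ Real.log (a k) ^ κ) :
    ∀ᵐ x ∂(Measure.pi μ), ∀ A U : ℕ, ∀ᶠ k : ℕ in atTop, ∀ y ∈ Y k, ∀ h : Fin s → ℤ,
      (∀ i, |(h i : ℝ) - (a k * x i + y i)| ≤ Real.log (a k) ^ A) →
      ∀ ε : Fin s → ℕ, (∀ i, ε i ≤ 2) → (∃ i, ε i = 1) → ∀ l : Fin (L k), ∀ N : ℕ, (N : ℝ) ≤ B * a k →
      ‖∑ n ∈ Icc 1 N, g k l n * ∏ i, mob (n + h i) ^ ε i‖ ≤ a k / Real.log (a k) ^ U := by
  classical
  have hev := sizes_ev a ρ hρ ha ((3 : ℝ) ^ s * s + B + 2)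
  have hYB : ∀ᶠ k : ℕ in atTop, (Y k).card ≤ k ^ T ∧ ∀ y ∈ Y k, ∀ i, |y i| ≤ ((B + 2 : ℕ) : ℝ) * a k := by
    filter_upwards [hY, hev] with k h h1
    refine ⟨h.1, fun y hy i => (h.2 y hy i).trans (mul_le_mul_of_nonneg_right ?_ (by linarith))⟩
    push_cast
    linarith
  have key := as_fine Pool.Agent.H373R2.T7.muR Pool.Agent.Y885.fine_mu s (κ + 1) μ hμ a ρ hρ ha (B + 2) T Y hYB
    (fun k => ⌈((B : ℝ) + 1) * a k⌉₊)
    (by
      filter_upwards [hev] with k h
      have hB0 : (0 : ℝ) ≤ B := Nat.cast_nonneg _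
      have h3 : (0 : ℝ) ≤ (3 : ℝ) ^ s * s := by positivity
      obtain ⟨h4, h5, _, _⟩ := size_cmp B (a k) h.2.2 h.2.1 (by linarith [h.1])
      push_cast
      refine ⟨h4.trans ?_, h5⟩
      have : (0 : ℝ) ≤ ⌈((B : ℝ) + 1) * a k⌉₊ := Nat.cast_nonneg _
      nlinarith)
    (fun k => Fin (L k) × (Fin s → Fin 3) × Fin s) (fun _ q => q.2.2) (fun _ _ => 1)
    (fun k q n h => g k q.1 n * ∏ j ∈ univ.erase q.2.2, mob (n + h j) ^ (q.2.1 j : ℕ))
    (by
      filter_upwards [hev, hg] with k h h1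
      have hB0 : (0 : ℝ) ≤ B := Nat.cast_nonneg _
      have h3 : (0 : ℝ) ≤ (3 : ℝ) ^ s * s := by positivity
      obtain ⟨_, _, h6, _⟩ := size_cmp B (a k) h.2.2 h.2.1 (by linarith [h.1])
      rw [Fintype.card_prod, Fintype.card_prod, Fintype.card_fun, Fintype.card_fin, Fintype.card_fin, Fintype.card_fin]
      push_cast
      have h7 : (3 : ℝ) ^ s * s ≤ Real.log (a k) := by linarith [h.1]
      calc (L k : ℝ) * ((3 : ℝ) ^ s * s) ≤ Real.log (a k) ^ κ * Real.log (a k) :=
            mul_le_mul h1.1 h7 h3 (pow_nonneg (by linarith [h.2.1]) _)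
        _ = Real.log (a k) ^ (κ + 1) := by rw [pow_succ]
        _ ≤ _ := pow_le_pow_left₀ (by linarith [h.2.1]) h6 _)
    (Eventually.of_forall fun _ _ => le_rfl)
    (by
      filter_upwards [hev, hg] with k h h1 q n h' _ _
      have hB0 : (0 : ℝ) ≤ B := Nat.cast_nonneg _
      have h3 : (0 : ℝ) ≤ (3 : ℝ) ^ s * s := by positivity
      obtain ⟨_, _, h6, _⟩ := size_cmp B (a k) h.2.2 h.2.1 (by linarith [h.1])
      have hl1 := h.2.1
      rw [norm_mul, norm_prod]
      calc ‖g k q.1 n‖ * ∏ j ∈ univ.erase q.2.2, ‖mob (n + h' j) ^ (q.2.1 j : ℕ)‖ ≤ Real.log (a k) ^ κ * 1 := by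
            apply mul_le_mul (h1.2 _ _) _ (prod_nonneg fun _ _ => norm_nonneg _) (by positivity)
            apply prod_le_one (fun _ _ => norm_nonneg _)
            intro j _
            rw [norm_pow]
            exact pow_le_one₀ (norm_nonneg _) (mob_le _)
        _ ≤ Real.log (a k) ^ (κ + 1) := by
            rw [mul_one]
            exact pow_le_pow_right₀ hl1 (by omega)
        _ ≤ _ := pow_le_pow_left₀ (by linarith) h6 _)
  filter_upwards [key] with x hx A U
  filter_upwards [hx A (U + 1), hev] with k hk h y hy hh hnear ε hε1 hε2 l N hN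
  have hB0 : (0 : ℝ) ≤ B := Nat.cast_nonneg _
  have h3 : (0 : ℝ) ≤ (3 : ℝ) ^ s * s := by positivity
  obtain ⟨h4, h5, h6, h7⟩ := size_cmp B (a k) h.2.2 h.2.1 (by linarith [h.1])
  obtain ⟨i, hi⟩ := hε2
  have h8 := hk y hy hh hnear (l, fun j => ⟨ε j, by have := hε1 j; omega⟩, i) N (by
    rw [one_mul]
    apply Nat.cast_le.1 (le_trans hN _ : (N : ℝ) ≤ _)
    refine le_trans ?_ (Nat.le_ceil _)
    nlinarith [h.2.2])
  refine le_trans (le_of_eq ?_) (h8.trans (h7 U))
  congr 1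
  apply sum_congr rfl
  intro n _
  simp only [one_mul]
  rw [← mob_eq, mul_assoc]
  congr 1
  rw [← prod_erase_mul univ _ (mem_univ i), hi, pow_one]
  congr 1
  apply prod_congr rfl
  intro j hj
  rw [Function.update_of_ne (ne_of_mem_erase hj)]

end Pool.Agent.Results.MP_c59857_nt.TypicalTuples
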