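import Pool.Agent.Q7.IM.Main

/-!
# Ratios of successive critical values over totally imaginary fields: finite extensions

`K` is a totally imaginary number field and `M₀` a motive over `K` with coefficients in the number
field `E`, without middle Hodge type. `F` runs over the finite extensions of `K`; `M₀ ⊗ F` is the base
change. An element of `E ⊗ ℂ = ∏_τ ℂ` is a family `ℓ τ` of numbers, `τ : E →+* ℂ`.

`Data K E`: the weight `wt`, the rank `n`, the Hodge numbers `hodge p = h^{p, wt-p}`, `p < wt - p`, of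
`M = Res_{K/ℚ} M₀`, and the Frobenius polynomials `P v f = det (1 - Frob_v ^ f X)`. At a prime `w` of
`F` above `v` with residue degree `f`, so that `N(w) = N(v)^f`, the Euler factor of `M₀ ⊗ F` is
`P v f` at `N(w)^(-s)`. `IsValue D F m ℓ`: `ℓ` is the value at `s = m` of the completed L-function of
`M₀ ⊗ F`, `(∏_p Γ_ℂ(m - p)^(hodge p))^[F:K] ∏_w b_w⁻¹`, where `b_w` is the Euler factor at `m` for almost
all `w`, and any element of `E^×` at the finitely many others (this does not matter modulo `E^×`).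

`IsDelta F δ` says that `δ` is the number `Δ_F` of the problem: let `F₀` be the maximal totally real
subfield. In the CM-case there is `y` in `F` such that `D = y²` is a totally negative element of `F₀`;
then `F₁ = F₀(y)` is the maximal CM subfield and `Δ_F = √(N_{F₀/ℚ}(D)) ^ [F : F₁]` (both square roots
are allowed). In the TR-case there is no such `y`, and `Δ_F = 1`.
-/

set_option autoImplicit false

namespace Pool.Agent.Results.MP_c63a07_nt.FiniteExtensions

open Module NumberField Pool.Agent.Q7.IM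

variable {K E : Type} [Field K] [NumberField K] [Field E] [NumberField E]

/-- The integers `m` and `m + 1` are critical: `p < m` and `m + 1 ≤ q` for the Hodge types `(p, q)`,
`p < q`, `p + q = wt`. There is no middle Hodge type. -/
structure Critical (D : Data K E) (m : ℤ) : Prop where
  half : ∀ p ∈ D.hodge.support, p < D.wt - p
  total : 2 * (D.hodge.sum fun _ h => h) = D.rank * finrank ℚ K
  critical : ∀ p ∈ D.hodge.support, p < m ∧ m + 1 ≤ D.wt - p

/-- The assertion of Q1 for `M₀ ⊗ F` and `m`, with an exponent `t`: the `t`-th power of the quotient of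
`L(m) / L(m + 1)` and `(i^(d_F/2) Δ_F)^n` is an element of `E^×`. -/
def Power (D : Data K E) (m : ℤ) (F : Type) [Field F] [NumberField F] [Algebra K F] (t : ℕ) : Prop :=
  ∀ δ, IsDelta F δ → ∀ ℓ ℓ' : (E →+* ℂ) → ℂ, IsValue D F m ℓ → IsValue D F (m + 1) ℓ' →
    ∃ e : E, e ≠ 0 ∧ ∀ τ,
      (ℓ τ / ((Complex.I ^ (finrank ℚ F / 2) * δ) ^ D.rank * ℓ' τ)) ^ t = τ e

/-- The assertion of Q1 for `M₀ ⊗ F` and `m`: `L(m) / L(m + 1) = e (i^(d_F/2) Δ_F)^n` with `e` in `E^×`. -/
def Deligne (D : Data K E) (m : ℤ) (F : Type) [Field F] [NumberField F] [Algebra K F] : Prop :=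
  ∀ δ, IsDelta F δ → ∀ ℓ ℓ' : (E →+* ℂ) → ℂ, IsValue D F m ℓ → IsValue D F (m + 1) ℓ' →
    ∃ e : E, e ≠ 0 ∧ ∀ τ, ℓ τ / ℓ' τ = τ e * (Complex.I ^ (finrank ℚ F / 2) * δ) ^ D.rank

/-- hyperelementary groups -/
def Hyper (G : Type) [Group G] : Prop :=
  ∃ p : ℕ, p.Prime ∧ ∃ C : Subgroup G, C.Normal ∧ IsCyclic C ∧ (Nat.card C).Coprime p ∧
    ∀ g : G, ∃ k : ℕ, g ^ p ^ k ∈ C

/-- families of finite extensions of `K`, closed under isomorphisms and composita, such that for all
automorphisms `g` and primes `p` some member has a number of embeddings fixed by `g` prime to `p` -/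
def Exact (𝓕 : Set (IntermediateField K (AlgebraicClosure K))) : Prop :=
  (∀ F ∈ 𝓕, FiniteDimensional K F) ∧
  (∀ F ∈ 𝓕, ∀ F' : IntermediateField K (AlgebraicClosure K), Nonempty (F ≃ₐ[K] F') → F' ∈ 𝓕) ∧
  (∀ F ∈ 𝓕, ∀ F' ∈ 𝓕, F ⊔ F' ∈ 𝓕) ∧
  ∀ (g : AlgebraicClosure K ≃ₐ[K] AlgebraicClosure K) (p : ℕ), p.Prime → ∃ F ∈ 𝓕,
    ¬ p ∣ Nat.card {i : F →ₐ[K] AlgebraicClosure K // ∀ x, g (i x) = i x}

omit [NumberField E] in
theorem power_iff {D : Data K E} {m : ℤ} {F : Type} [Field F] [NumberField F] [Algebra K F]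
    {t : ℕ} : Power D m F t ↔ ConjP D m F t := by
  unfold Power ConjP
  simp only [zpow_natCast]

theorem deligne_iff {D : Data K E} (hD : D.Pure) {m : ℤ} (hwt : D.wt + 3 ≤ 2 * m)
    (hc : Critical D m) {F : Type} [Field F] [NumberField F] [Algebra K F]
    (h0 : ∀ δ, IsDelta F δ → δ ≠ 0) : Deligne D m F ↔ ConjP D m F 1 := by
  have hc' : Crit D m := fun p hp => (hc.critical p hp).1
  have key : ∀ (δ : ℂ), IsDelta F δ → ∀ ℓ ℓ' : (E →+* ℂ) → ℂ, IsValue D F m ℓ →
      IsValue D F (m + 1) ℓ' → ∀ (e : E) (τ : E →+* ℂ),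
      (ℓ τ / ℓ' τ = τ e * (Complex.I ^ (finrank ℚ F / 2) * δ) ^ D.rank ↔
        (ℓ τ / ((Complex.I ^ (finrank ℚ F / 2) * δ) ^ D.rank * ℓ' τ)) ^ (1 : ℤ) = τ e) := by
    intro δ hδ ℓ ℓ' hℓ hℓ' e τ
    have h1 : (Complex.I ^ (finrank ℚ F / 2) * δ) ^ D.rank ≠ 0 :=
      pow_ne_zero _ (mul_ne_zero (pow_ne_zero _ Complex.I_ne_zero) (h0 δ hδ))
    have h2 := value_ne hD (up hwt) hc'.up hℓ' τ
    rw [zpow_one, div_eq_iff h2, div_eq_iff (mul_ne_zero h1 h2)]
    constructor
    · intro h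
      rw [h]
      ring
    · intro h
      rw [h]
      ring
  constructor
  · intro h δ hδ ℓ ℓ' hℓ hℓ'
    obtain ⟨e, he, h1⟩ := h δ hδ ℓ ℓ' hℓ hℓ'
    exact ⟨e, he, fun τ => (key δ hδ ℓ ℓ' hℓ hℓ' e τ).1 (h1 τ)⟩
  · intro h δ hδ ℓ ℓ' hℓ hℓ'
    obtain ⟨e, he, h1⟩ := h δ hδ ℓ ℓ' hℓ hℓ'
    exact ⟨e, he, fun τ => (key δ hδ ℓ ℓ' hℓ hℓ' e τ).2 (h1 τ)⟩

theorem delta_ne (F : Type) [Field F] [NumberField F] (δ : ℂ) (h : IsDelta F δ) : δ ≠ 0 := by
  rcases h with ⟨y, hy, s, hs, rfl⟩ | ⟨-, rfl⟩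
  · refine pow_ne_zero _ ?_
    rintro rfl
    rw [zero_pow two_ne_zero] at hs
    have h1 : Algebra.norm ℚ (⟨y ^ 2, hy.1⟩ : maximalRealSubfield F) = 0 := by
      exact_mod_cast hs.symm
    rw [Algebra.norm_eq_zero_iff] at h1
    have h2 : y ^ 2 = 0 := congrArg Subtype.val h1
    exact hy.ne (by simpa using h2)
  · exact one_ne_zero

/-- Let `M₀` be a motive over the totally imaginary field `K`, pure at almost all places, `m` and
`m + 1` critical, and `m` to the right of the critical strip, `2 m ≥ wt + 3`.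
(1) The values of the completed L-functions at `m` and `m + 1` exist and are not zero, for all finite
extensions `F` of `K`; `Δ_F` exists, and the number predicted over `F` is, up to a rational factor, the
power of the number predicted over `K`: `i^(d_F/2) Δ_F = q (i^(d_K/2) Δ_K)^[F:K]`.
(2) Let `L/K` be a finite Galois extension. If the assertion of Q1 holds for `M₀ ⊗ F` for the fields
`K ⊆ F ⊆ L` such that the Galois group of `L/F` is hyperelementary, then it holds for all
`K ⊆ F ⊆ L`, in particular for `M₀`.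
(3) If it holds for the members of an exact family, it holds for `M₀`.
(4) Let `S` be a set of positive integers which is closed under multiples and has no common divisor.
If it holds for all `F` with `[F : K]` in `S`, it holds for all `F`.
(5) Let `S` be a finite set of primes, and for `q` in `S` let `A q` be a set of integers closed under
multiples without common divisor. If it holds for all `F` with the local degrees `[F_w : ℚ_q]` in
`A q` for all `q` in `S` and `w | q`, then it holds for all `F`.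
(6) If it holds for all `F` with `[F : K]` divisible by `N`, then it holds for all `F` with the
exponent `N / gcd(N, [F : K])`. -/
theorem result (K E : Type) [Field K] [NumberField K] [Field E] [NumberField E]
    [IsTotallyComplex K] (D : Data K E) (hD : D.Pure) (m : ℤ) (hc : Critical D m)
    (hm : D.wt + 3 ≤ 2 * m) :
    -- (1)
    (∀ (F : Type) [Field F] [NumberField F] [Algebra K F],
      (∃ ℓ, IsValue D F m ℓ) ∧ (∃ ℓ, IsValue D F (m + 1) ℓ) ∧
      (∀ ℓ, (IsValue D F m ℓ ∨ IsValue D F (m + 1) ℓ) → ∀ τ, ℓ τ ≠ 0) ∧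
      (∃ δ, IsDelta F δ) ∧ ∀ δ δ', IsDelta K δ → IsDelta F δ' → ∃ q : ℚ, q ≠ 0 ∧
        Complex.I ^ (finrank ℚ F / 2) * δ' =
          q * (Complex.I ^ (finrank ℚ K / 2) * δ) ^ finrank K F) ∧
    -- (2)
    (∀ (L : Type) [Field L] [NumberField L] [Algebra K L] [IsGalois K L],
      (∀ (F : Type) [Field F] [NumberField F] [Algebra K F] [Algebra F L] [IsScalarTower K F L],
        Hyper (L ≃ₐ[F] L) → Deligne D m F) →
      ∀ (F : Type) [Field F] [NumberField F] [Algebra K F] [Algebra F L] [IsScalarTower K F L],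
        Deligne D m F) ∧
    -- (3)
    (∀ 𝓕 : Set (IntermediateField K (AlgebraicClosure K)), Exact 𝓕 →
      (∀ F ∈ 𝓕, ∀ [NumberField F], Deligne D m F) → Deligne D m K) ∧
    -- (4)
    (∀ S : Set ℕ, (∀ d ∈ S, ∀ n : ℕ, 0 < n → d * n ∈ S) → (∀ g : ℕ, (∀ d ∈ S, g ∣ d) → g = 1) →
      (∀ (F : Type) [Field F] [NumberField F] [Algebra K F], finrank K F ∈ S → Deligne D m F) →
      ∀ (F : Type) [Field F] [NumberField F] [Algebra K F], Deligne D m F) ∧
    -- (5)
    (∀ (S : Finset ℕ) (A : ℕ → Set ℕ), (∀ q ∈ S, q.Prime) →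
      (∀ q ∈ S, ∀ d ∈ A q, ∀ n : ℕ, 0 < n → d * n ∈ A q) →
      (∀ q ∈ S, ∀ g : ℕ, (∀ d ∈ A q, g ∣ d) → g = 1) →
      (∀ (F : Type) [Field F] [NumberField F] [Algebra K F], (∀ q ∈ S, ∀ w : Ideal (𝓞 F), w.IsPrime →
        (q : 𝓞 F) ∈ w → w.ramificationIdx ℤ * w.inertiaDeg ℤ ∈ A q) → Deligne D m F) →
      ∀ (F : Type) [Field F] [NumberField F] [Algebra K F], Deligne D m F) ∧
    -- (6)
    ∀ N : ℕ, (∀ (F : Type) [Field F] [NumberField F] [Algebra K F], N ∣ finrank K F →
        Deligne D m F) →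
      ∀ (F : Type) [Field F] [NumberField F] [Algebra K F],
        Power D m F (N / N.gcd (finrank K F)) := by
  have hK : IsTotallyComplex K := inferInstance
  have hc' : Crit D m := fun p hp => (hc.critical p hp).1
  have hlaw := conj_isLaw hK hD hm hc'
  have hiff : ∀ (F : Type) [Field F] [NumberField F] [Algebra K F],
      Deligne D m F ↔ ConjP D m F 1 := fun F _ _ _ => deligne_iff hD hm hc (delta_ne F)
  refine ⟨fun F _ _ _ => ⟨exists_value hD hm F, exists_value hD (up hm) F, ?_, ?_, ?_⟩, ?_, ?_, ?_,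
    ?_, ?_⟩
  · rintro ℓ (h | h) τ
    · exact value_ne hD hm hc' h τ
    · exact value_ne hD (up hm) hc'.up h τ
  · obtain ⟨δ, h, -⟩ := exists_delta F
    exact ⟨δ, h⟩
  · intro δ δ' h h'
    obtain ⟨q, hq, h1⟩ := delta_mul (conj_ne hK) h h'
    refine ⟨q, hq, ?_⟩
    rw [h1, degree_even hK F]
    ring
  · intro L _ _ _ _ h F _ _ _ _ _
    exact (hiff F).2 (hyper_law hlaw L (fun F _ _ _ _ _ hF => (hiff F).1 (h F hF)) F)
  · intro 𝓕 h h1
    refine (hiff K).2 (exact_law hlaw (𝓕 := 𝓕) ⟨h.1, h.2.1, h.2.2.1, fun σ p hp => ?_⟩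
      fun F hF _ => (hiff F).1 (h1 F hF))
    obtain ⟨F, hF, h2⟩ := h.2.2.2 σ p hp
    refine ⟨F, hF, ?_⟩
    convert h2 using 2
    unfold Pool.Agent.W353.NF.fixn
    refine Nat.card_congr (Equiv.subtypeEquivRight fun i => ?_)
    constructor
    · intro h3 x
      exact DFunLike.congr_fun h3 x
    · intro h3
      exact AlgHom.ext h3
  · intro S hS hS' h F _ _ _
    exact (hiff F).2 (Pool.Agent.Q5.VL.gen_sparse_law hlaw hS hS'
      (fun F _ _ _ hF => (hiff F).1 (h F hF)) F)
  · intro S A hS hA hA' h F _ _ _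
    exact (hiff F).2 (Pool.Agent.Q223.LD.loc_law hlaw hS hA hA'
      (fun F _ _ _ hF => (hiff F).1 (h F hF)) F)
  · intro N h F _ _ _
    rw [power_iff]
    exact Pool.Agent.Q5.VL.gen_power_law' hlaw (M := N) (fun F _ _ _ hF => (hiff F).1 (h F hF)) F

end Pool.Agent.Results.MP_c63a07_nt.FiniteExtensions
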