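import Pool.Agent.Q7.IM.Fin

/-!
# Ratios of successive critical values over totally imaginary fields: extensions of sparse degrees

`K` is a totally imaginary number field and `M₀` a motive over `K` with coefficients in the number
field `E`, without middle Hodge type. `F` runs over the finite extensions of `K`; `M₀ ⊗ F` is the base
change. An element of `E ⊗ ℂ = ∏_τ ℂ` is a family `ℓ τ` of numbers, `τ : E →+* ℂ`.

`Data K E`: the weight `wt`, the rank `n`, the Hodge numbers `hodge p = h^{p, wt-p}`, `p < wt - p`, of
`M = Res_{K/ℚ} M₀`, and the Frobenius polynomials `P v f = det (1 - Frob_v ^ f X)`. At a prime `w` of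
`F` above `v` with residue degree `f`, so that `N(w) = N(v)^f`, the Euler factor of `M₀ ⊗ F` is
`P v f` at `N(w)^(-s)`. `IsValue D F m ℓ`: `ℓ` is the value at `s = m` of the completed L-function of
`M₀ ⊗ F`, `(∏_p Γ_ℂ(m - p)^(hodge p))^[F:K] ∏_w b_w⁻¹`, where `b_w` is the Euler factor at `m` for almost
all `w`, and any element of `E^×` at the finitely many others (this does not matter modulo `E^×`).

`IsDelta F δ` says that `δ` is the number `Δ_F` of the problem: let `F₀` be the maximal totally real
subfield. In the CM-case there is `y` in `F` such that `D = y²` is a totally negative element of `F₀`;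
then `F₁ = F₀(y)` is the maximal CM subfield and `Δ_F = √(N_{F₀/ℚ}(D)) ^ [F : F₁]` (both square roots
are allowed). In the TR-case there is no such `y`, and `Δ_F = 1`.

`Deligne D m F` is the assertion of Q1 for `M₀ ⊗ F` and `m`: `L(m) / L(m + 1) = e (i^(d_F/2) Δ_F)^n`
with `e` in `E^×`.
`Power D m F t`: its `t`-th power.
-/

set_option autoImplicit false

namespace Pool.Agent.Results.MP_c63a07_nt.SparseDegrees

open Module NumberField Pool.Agent.Q7.IM Pool.Agent.Q7.IM.Fin

/-- Let `M₀` be a motive over the totally imaginary field `K`, pure at almost all places, `m` and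
`m + 1` critical, and `m` to the right of the critical strip, `2 m ≥ wt + 3`.
(1) Let `S` be a set of positive integers which is closed under multiples and has no common divisor.
If the assertion of Q1 holds for all `F` with `[F : K]` in `S`, it holds for all `F`.
(2) If it holds for all `F` with `[F : K]` divisible by `N`, then it holds for all `F` with the
exponent `N / gcd(N, [F : K])`. -/
theorem result (K E : Type) [Field K] [NumberField K] [Field E] [NumberField E]
    [IsTotallyComplex K] (D : Data K E) (hD : D.Pure) (m : ℤ) (hc : Critical D m)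
    (hm : D.wt + 3 ≤ 2 * m) :
    (∀ S : Set ℕ, (∀ d ∈ S, ∀ n : ℕ, 0 < n → d * n ∈ S) → (∀ g : ℕ, (∀ d ∈ S, g ∣ d) → g = 1) →
      (∀ (F : Type) [Field F] [NumberField F] [Algebra K F], finrank K F ∈ S → Deligne D m F) →
      ∀ (F : Type) [Field F] [NumberField F] [Algebra K F], Deligne D m F) ∧
    ∀ N : ℕ, (∀ (F : Type) [Field F] [NumberField F] [Algebra K F], N ∣ finrank K F →
        Deligne D m F) →
      ∀ (F : Type) [Field F] [NumberField F] [Algebra K F],
        Power D m F (N / N.gcd (finrank K F)) :=
  ⟨(all K E D hD m hc hm).2.2.2.1, (all K E D hD m hc hm).2.2.2.2.2⟩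

end Pool.Agent.Results.MP_c63a07_nt.SparseDegrees
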