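import Mathlib
import Pool.Agent.Q183.DF.Log

/-!
MP_c69980_ag, Q1: projective varieties with a pluricanonical form, and holomorphic maps from half
planes, from the punctured disc and from the complex plane which are given by linear difference
equations.
-/

set_option autoImplicit false

namespace Pool.Agent.Results.MP_c69980_ag.DifferenceEquationsPicard

open MvPolynomial Metric Set Filter Topology FF
open Pool.Agent.W602.GT Pool.Agent.TH143 Pool.Agent.TH143.GT Pool.Agent.W603.BP
  Pool.Agent.W603.BPR Pool.Agent.W603.GR Pool.Agent.W603.PV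
open Pool.Agent.Q183.DF (DiffEq SlimR UniqAlg HP slimS merS uniqAlg DiffPunct DiffEntire DiffHyp)
open Pool.Agent.TH8.QD (FunEq AlgQ)

/-- The variety with the function field `K` of transcendence degree `w` is covered by rational
curves, and all pluricanonical forms vanish. -/
def NoForms (K : Type) [Field K] [Algebra ℂ K] (w : ℕ) : Prop :=
  Covered K ∧ ∀ n, 0 < n → ∀ ω : (Fin w → Derivation ℂ K K) → K, Pluricanonical w n ω → ω = 0

/-- `S` is an algebra of holomorphic functions on the half plane `Re z > ρ`, closed under the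
substitution `z ↦ z + 1`, of at most exponential growth and of type zero in the imaginary direction,
and the nonzero functions in `S` have only finitely many zeros on the sequences `z0 + m`. -/
structure CoeffAlg (ρ : ℝ) (S : Subalgebra ℂ (ℂ → ℂ)) : Prop where
  le : S ≤ slimS ρ
  shift : ∀ a ∈ S, (fun z => a (z + 1)) ∈ S
  dich : ∀ z0 ∈ HP ρ, ∀ a ∈ S, (∀ x ∈ HP ρ, a x = 0) ∨ ∀ᶠ m : ℕ in atTop, a (z0 + m) ≠ 0

theorem CoeffAlg.uniqAlg {ρ : ℝ} {S : Subalgebra ℂ (ℂ → ℂ)} (h : CoeffAlg ρ S) {z0 : ℂ}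
    (hz0 : z0 ∈ HP ρ) : UniqAlg (HP ρ) (fun z => z + 1) (fun m => z0 + m) (slimS ρ) S := by
  have h1 := Pool.Agent.Q183.DF.uniqAlg (z0 := z0) (ρ := ρ) hz0
  exact ⟨h1.conn, h1.mem, h1.step, h1.maps, h.le, h1.an, h1.compF,
    fun a ha => ⟨_, h.shift a ha, fun _ _ => rfl⟩, h1.uniq, h.dich z0 hz0⟩

theorem hyp_one {n : ℕ} (f : ℂ → Fin (n + 1) → ℂ) :
    DiffHyp (fun z => eval (f z) (1 : MvPolynomial (Fin (n + 1)) ℂ)) :=
  ⟨fun _ => 1, MeromorphicAt.const _ _, 0, fun z _ => by simp⟩

theorem noForms {n : ℕ} {p : Ideal (MvPolynomial (Fin (n + 1)) ℂ)} {K : Type} [Field K]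
    [Algebra ℂ K] {w : ℕ} {y : Fin (n + 1) → K} (hy : FunField p 1 K w y)
    (h : ∃ r : K, ¬ AllFlat (1 : MvPolynomial (Fin (n + 1)) ℂ) y r) : NoForms K w := by
  obtain ⟨r, hr⟩ := h
  exact ⟨Pool.Agent.TH143.DE.covered' hy hr,
    fun m hm ω hω => Pool.Agent.TH143.DE.sec_zero' hy hr hm hω⟩

/-- Let `X` be the projective variety with the homogeneous ideal `p`, the function field `K` and the
generic point `y`.

(1) Let `S` be an algebra of coefficients on a half plane. If a Zariski-dense holomorphic map `f`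
from the half plane to `X`, with homogeneous coordinates of at most exponential growth and of type
zero in the imaginary direction, satisfies linear difference equations with coefficients in `S`,
then `X` is covered by rational curves and has no pluricanonical forms, or all quotients of the
homogeneous coordinates are algebraic over `S`, after a translation.

(2) The functions of this growth on a half plane which are meromorphic at infinity are such an
algebra `S`.

(3) Let `f` be a Zariski-dense holomorphic map from the punctured disc to `X`, whose homogeneous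
coordinates, in the coordinate `z = 1 / w`, satisfy linear difference equations with coefficients
meromorphic at infinity, and the growth condition in a right half plane. Then `X` is covered by
rational curves and has no pluricanonical forms, or `f` extends to the disc.

(4) If there is a Zariski-dense entire curve in `X` whose homogeneous coordinates satisfy such
equations and the growth condition in a right half plane, then `X` is covered by rational curves and
has no pluricanonical forms.

(5) This is a general principle: in (1) the half plane, the translation, and the functions of type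
zero may be replaced by any preconnected set `Ω`, any map `σ` of `Ω` to itself with an orbit `x m`,
and any algebra `A` of holomorphic functions on `Ω`, closed under the composition with `σ`, whose
elements are determined by their values at the points `x m`, for large `m`. -/
theorem result {n : ℕ} (p : Ideal (MvPolynomial (Fin (n + 1)) ℂ)) (K : Type) [Field K]
    [Algebra ℂ K] (w : ℕ) (y : Fin (n + 1) → K) (hy : FunField p 1 K w y) :
    (∀ (ρ : ℝ) (S : Subalgebra ℂ (ℂ → ℂ)), CoeffAlg ρ S → ∀ f : ℂ → Fin (n + 1) → ℂ,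
      (∀ j, (fun z => f z j) ∈ slimS ρ) → (∀ z ∈ HP ρ, ∀ H ∈ p, eval (f z) H = 0) →
      ZDense p f (HP ρ) → (∀ j, FunEq (HP ρ) (fun z => z + 1) S (fun z => f z j)) →
      NoForms K w ∨ ∀ j k, (∃ z ∈ HP ρ, f z k ≠ 0) → ∃ s : ℕ,
        AlgQ (HP ρ) S (fun z => f (z + s) j) (fun z => f (z + s) k)) ∧
    (∀ ρ : ℝ, CoeffAlg ρ (merS ρ)) ∧
    (∀ f, PCurve p 1 f → (∀ j, DiffEq (fun z => f z⁻¹ j)) → (∀ j, SlimR (fun z => f z⁻¹ j)) →
      ZDense p f (ball 0 1 \ {0}) → NoForms K w ∨ Extends f) ∧
    (∀ f, EntireCurve p 1 f → (∀ j, DiffEq (fun z => f z j)) → (∀ j, SlimR (fun z => f z j)) →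
      ZDense p f univ → NoForms K w) ∧
    (∀ (Ω : Set ℂ) (σ : ℂ → ℂ) (x : ℕ → ℂ) (A S : Subalgebra ℂ (ℂ → ℂ)), UniqAlg Ω σ x A S →
      ∀ f : ℂ → Fin (n + 1) → ℂ, (∀ j, (fun z => f z j) ∈ A) →
      (∀ z ∈ Ω, ∀ H ∈ p, eval (f z) H = 0) → ZDense p f Ω →
      (∀ j, FunEq Ω σ S (fun z => f z j)) →
      NoForms K w ∨ ∀ j k, (∃ z ∈ Ω, f z k ≠ 0) → ∃ s : ℕ,
        AlgQ Ω S (fun z => f (σ^[s] z) j) (fun z => f (σ^[s] z) k)) := by
  have hgen : ∀ (Ω : Set ℂ) (σ : ℂ → ℂ) (x : ℕ → ℂ) (A S : Subalgebra ℂ (ℂ → ℂ)),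
      UniqAlg Ω σ x A S → ∀ f : ℂ → Fin (n + 1) → ℂ, (∀ j, (fun z => f z j) ∈ A) →
      (∀ z ∈ Ω, ∀ H ∈ p, eval (f z) H = 0) → ZDense p f Ω →
      (∀ j, FunEq Ω σ S (fun z => f z j)) →
      NoForms K w ∨ ∀ j k, (∃ z ∈ Ω, f z k ≠ 0) → ∃ s : ℕ,
        AlgQ Ω S (fun z => f (σ^[s] z) j) (fun z => f (σ^[s] z) k) := by
    intro Ω σ x A S hu f hf hX hd hfe
    by_contra hcon
    push Not at hcon
    obtain ⟨h1, j, k, hk, hs⟩ := hcon
    exact h1 (hu.gen hy hf hX hfe hd hk hs)
  refine ⟨fun ρ S hS f hf hX hd hfe => ?_, fun ρ => ?_, fun f hf he hs hd => ?_,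
    fun f hf he hs hd => ?_, hgen⟩
  · have hz0 : ((ρ + 1 : ℝ) : ℂ) ∈ HP ρ := by
      change ρ < (((ρ + 1 : ℝ) : ℂ)).re
      rw [Complex.ofReal_re]
      linarith
    rcases hgen _ _ _ _ _ (hS.uniqAlg hz0) f hf hX hd hfe with h | h
    · exact Or.inl h
    · refine Or.inr fun j k hk => ?_
      obtain ⟨s, hs⟩ := h j k hk
      refine ⟨s, ?_⟩
      simpa only [Pool.Agent.Q183.DF.iter_add] using hs
  · exact ⟨Pool.Agent.Q183.DF.merS_le ρ, fun a ha => ⟨Pool.Agent.Q183.DF.slim_shift ha.1, by
      have := ha.2.affine one_ne_zero 1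
      simpa using this⟩, fun z0 hz0 => (Pool.Agent.Q183.DF.uniqAlg (z0 := z0) hz0).dich⟩
  · have hset : ∀ z : ℂ, z ∈ ball (0 : ℂ) 1 \ {0} ↔ z ∈ PB 1 := fun z => mem_disc
    have hd' : ZDense p f (PB 1) := fun H hH h => hd H hH fun z hz => h z ((hset z).1 hz)
    have hgp : GenPt f (PB 1) K w y := hy.genPt
      (fun z hz => (hf.2 z ((hset z).2 hz)).2.1) hd'
    by_contra hcon
    push Not at hcon
    exact hcon.1 (noForms hy (Pool.Agent.Q183.DF.fam_p ⟨he, hs, Or.inr (hyp_one _)⟩ hgp hf.an
      (isHomogeneous_one _ _) (fun w hw => (hf.2 w ((hset w).2 hw)).1)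
      (fun z hz => (hf.2 z ((hset z).2 hz)).2.2) hcon.2))
  · obtain ⟨hdf, hne, hfQ, hnc⟩ := ent_data hf
    have hgp : GenPt f univ K w y := hy.genPt (fun z _ => (hf.2.1 z).2.1) hd
    exact noForms hy (Pool.Agent.Q183.DF.fam_e ⟨he, hs⟩ hgp hdf (isHomogeneous_one _ _) hne hfQ hnc)

end Pool.Agent.Results.MP_c69980_ag.DifferenceEquationsPicard
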