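import Mathlib
import Pool.Agent.Q72.KCh.Defs
import Pool.Agent.Q72.KCh.Main

/-!
# No universal number of discs realizes the Kobayashi distance

For every `K` there are a strongly pseudoconvex domain `Ω ⊂ ℂⁿ` (bounded, `C²` boundary; in the
proof `n = 2K` for `K ≥ 1`) and points `z, w ∈ Ω` such that every Kobayashi chain of `K` discs
from `z` to `w` is strictly longer than `k_Ω(z, w)`.
-/

set_option autoImplicit false

open Q72.KCh

namespace Pool.Agent.Results.MP_c6b81c_an.NoUniversalNumberOfDiscs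

lemma kob_le {n : ℕ} {Ω : Set (Cn n)} {m : ℕ} {z w : Cn n} {R : ℝ} (h : IsChain Ω m z w R) :
    kob Ω z w ≤ R :=
  csInf_le ⟨0, fun _ ⟨_, hs⟩ => chain_nonneg hs⟩ ⟨m, h⟩

theorem result (K : ℕ) : ∃ (n : ℕ) (Ω : Set (Cn n)) (z w : Cn n),
    IsStronglyPseudoconvex Ω ∧ z ∈ Ω ∧ w ∈ Ω ∧
    (∀ s : ℝ, IsChain Ω K z w s → kob Ω z w < s) ∧
    (1 ≤ K → ∃ R : ℝ, IsChain Ω (K + 1) z w R ∧ ∀ s : ℝ, IsChain Ω K z w s → R < s) := by
  rcases Nat.eq_zero_or_pos K with rfl | hK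
  · obtain ⟨n, Ω, z, w, h1, h2, h3, h4, -⟩ := main 1 le_rfl
    refine ⟨n, Ω, z, w, h1, h2, h3, ?_, by simp⟩
    rintro s ⟨p, f, a, b, hz, hw, -⟩
    exact absurd (hz.symm.trans hw) h4
  · obtain ⟨n, Ω, z, w, h1, h2, h3, -, R, hR, h⟩ := main K hK
    exact ⟨n, Ω, z, w, h1, h2, h3, fun s hs => (kob_le hR).trans_lt (h s hs), fun _ => ⟨R, hR, h⟩⟩

end Pool.Agent.Results.MP_c6b81c_an.NoUniversalNumberOfDiscs
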