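import Pool.Agent.Q64.LD.Conv
import Pool.Agent.Q64.LC.Sub

/-!
# Subvarieties with pluricanonical forms and curves given by Dirichlet series with gaps

Let `X` be a projective algebraic set which is cut out by the forms of degree at most `D` in the
homogeneous ideal `p`. If all subvarieties of `X` of positive dimension have a nonzero pluricanonical
form (in particular, if they are of general type), then `X` contains no nonconstant holomorphic curve
`f = ∑ exp (- l i * s) a i` on a half plane or on the plane, given by a general Dirichlet series with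
infinitely many gaps `D * l m < l (m + 1)`. In particular it contains no nonconstant holomorphic curve
`∑ z ^ i a i`, on a disc or on the plane, with infinitely many gaps in the exponents.

There are nonconstant curves of this type, on half planes or on the plane, if and only if `X` contains
a rational curve.
-/

set_option autoImplicit false

namespace Pool.Agent.Results.MP_c6ff8d_ag.DirichletCurves

open MvPolynomial Pool.Agent.TH143.GT Pool.Agent.W602.GT Pool.Agent.W603.GR
  Pool.Agent.W603.PV Pool.Agent.W603.BP Pool.Agent.W603.BPR Pool.Agent.Q64.LC Pool.Agent.Q64.LD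

theorem result {n D : ℕ} (hD : 1 ≤ D) {p : Ideal (MvPolynomial (Fin (n + 1)) ℂ)}
    (hp : IsHomog p) (hcut : CutBy D p) :
    List.TFAE [
      -- all morphisms from the affine line are constant
      ∀ T, Mor p 1 T → ¬ NC T,
      -- all entire curves given by Dirichlet series with infinitely many gaps are constant
      ∀ (l : ℕ → ℝ) (a : ℕ → Fin (n + 1) → ℂ) (f : ℂ → Fin (n + 1) → ℂ), (∀ σ, DCurve p 1 σ l a f) →
        DGaps D l → ¬ ∃ σ, NonConstH σ f,
      -- the same on half planes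
      ∀ (σ : ℝ) (l : ℕ → ℝ) (a : ℕ → Fin (n + 1) → ℂ) (f : ℂ → Fin (n + 1) → ℂ),
        DCurve p 1 σ l a f → DGaps D l → ¬ NonConstH σ f] ∧
    ((∀ (K : Type) [Field K] [Algebra ℂ K] (w : ℕ) (y : Fin (n + 1) → K), SubVarP p 1 K w y →
        0 < w → ∃ N : ℕ, 0 < N ∧ ∃ ω : (Fin w → Derivation ℂ K K) → K,
          Pluricanonical w N ω ∧ ω ≠ 0) →
      (∀ (σ : ℝ) (l : ℕ → ℝ) (a : ℕ → Fin (n + 1) → ℂ) (f : ℂ → Fin (n + 1) → ℂ),
        DCurve p 1 σ l a f → DGaps D l → ¬ NonConstH σ f) ∧
      ∀ (r : ℝ) (a : ℕ → Fin (n + 1) → ℂ) (f : ℂ → Fin (n + 1) → ℂ), Curve p 1 r a f →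
        Gaps D a → ¬ NonConst r f) := by
  have hone : ∀ {x : Fin (n + 1) → ℂ}, eval x (1 : MvPolynomial (Fin (n + 1)) ℂ) ≠ 0 := by
    intro x
    rw [map_one]
    exact one_ne_zero
  have hT : (∀ T, Mor p 1 T → ¬ NC T) → ∀ T, ¬ PolyCurve p 1 T := by
    intro h T hT
    obtain ⟨g, T', -, hM, hN⟩ := hT.reduce (isHomogeneous_one _ _)
    exact h T' hM hN
  have h13 : (∀ T, Mor p 1 T → ¬ NC T) → ∀ (σ : ℝ) (l : ℕ → ℝ) (a : ℕ → Fin (n + 1) → ℂ)
      (f : ℂ → Fin (n + 1) → ℂ), DCurve p 1 σ l a f → DGaps D l → ¬ NonConstH σ f := by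
    intro h σ l a f hf hb hnc
    refine hone (Pool.Agent.Q64.LD.vanish_gap (G := 1) (isHomogeneous_one _ _) (Nat.zero_le _) hcut
      (fun T h' => absurd h' (hT h T)) hf hnc hb (s := (σ + 1 : ℝ)) ?_)
    rw [Complex.ofReal_re]
    linarith
  refine ⟨?_, fun h => ?_⟩
  · tfae_have 1 → 3 := h13
    tfae_have 3 → 2 := fun h l a f hf hb ⟨σ, hσ⟩ => h σ l a f (hf σ) hb hσ
    tfae_have 2 → 1 := by
      intro h T hM hN
      obtain ⟨l, a, f, hf, hnc, hb, -⟩ := poly_dcurve hD (hM.poly hN)
      exact h l a f hf hb hnc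
    tfae_finish
  · have h1 : ∀ T, Mor p 1 T → ¬ NC T := by
      intro T hM hN
      obtain ⟨K, i1, i2, w, y, h1, h2, -, h4⟩ := sub_of_mor hp (isHomogeneous_one _ _) hM hN
      obtain ⟨N, hN0, ω, hω, hω0⟩ := h K w y h1 h2
      exact hω0 (h4 N hN0 ω (hω.logSec _))
    refine ⟨h13 h1, fun r a f hf hb hnc => ?_⟩
    exact hone (Pool.Agent.Q64.LC.vanish_gap (G := 1) hD (isHomogeneous_one _ _) (Nat.zero_le _) hcut
      (fun T h' => absurd h' (hT h1 T)) hf hnc hb (z := 0) (by rw [norm_zero]; exact hf.pos))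

end Pool.Agent.Results.MP_c6ff8d_ag.DirichletCurves
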