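import Pool.Agent.Q151.WS.Core

/-! # `MP_c789b2_co`, Q2: at most `d + 1` lines of the Wang–Shi split are concurrent inside -/

namespace Pool.Agent.Results.MP_c789b2_co.AtMostDPlusOne

open Pool.Agent.Q151.WS

abbrev Plane := EuclideanSpace ℝ (Fin 2)

/-- the side of the triangle joining the vertices `A k` and `A (k+1)` (indices mod 3) -/
def side (A : Fin 3 → Plane) (k : Fin 3) : Set Plane := segment ℝ (A k) (A (k + 1))

/-- the `3d` marked points: the points dividing the sides into `d` equal parts and the vertices -/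
def marked (A : Fin 3 → Plane) (d : ℕ) : Set Plane :=
  {P | ∃ k : Fin 3, ∃ i : ℕ, i ≤ d ∧ P = AffineMap.lineMap (A k) (A (k + 1)) ((i : ℝ) / d)}

/-- the lines of the Wang–Shi split: lines through two marked points not on a common side -/
def wsLines (A : Fin 3 → Plane) (d : ℕ) : Set (AffineSubspace ℝ Plane) :=
  {L | ∃ P ∈ marked A d, ∃ Q ∈ marked A d, (∀ k, ¬ (P ∈ side A k ∧ Q ∈ side A k)) ∧
    L = line[ℝ, P, Q]}

/-- the degree of a point: the number of lines of the split through it -/
noncomputable def degree (A : Fin 3 → Plane) (d : ℕ) (p : Plane) : ℕ∞ :=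
  {L | L ∈ wsLines A d ∧ p ∈ L}.encard

/-- `μ_d`: the largest degree of an interior point of the triangle -/
noncomputable def mu (A : Fin 3 → Plane) (d : ℕ) : ℕ∞ :=
  ⨆ p ∈ interior (convexHull ℝ (Set.range A)), degree A d p

/-- the affine basis given by the vertices -/
noncomputable def basis (A : Fin 3 → Plane) (hA : AffineIndependent ℝ A) :
    AffineBasis (Fin 3) ℝ Plane :=
  ⟨A, hA, by
    rw [hA.affineSpan_eq_top_iff_card_eq_finrank_add_one]
    simp⟩

theorem basis_apply (A : Fin 3 → Plane) (hA : AffineIndependent ℝ A) (k : Fin 3) :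
    basis A hA k = A k := rfl

noncomputable def pt (A : Fin 3 → Plane) {d : ℕ} (s : Pos d) : Plane :=
  AffineMap.lineMap (A s.1) (A (s.1 + 1)) ((s.2.1 : ℝ) / d)

theorem coord_pt (A : Fin 3 → Plane) (hA : AffineIndependent ℝ A) {d : ℕ} (s : Pos d)
    (c : Fin 3) : (d : ℝ) * (basis A hA).coord c (pt A s) = mm s c := by
  have hd : (0 : ℝ) < d := by
    have := s.2.2
    exact_mod_cast (by omega : 0 < d)
  unfold pt mm
  rw [AffineMap.apply_lineMap, ← basis_apply A hA, ← basis_apply A hA,
    AffineMap.lineMap_apply_ring]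
  rcases f3b s.1 c with rfl | rfl | rfl
  · rw [pc0, AffineBasis.coord_apply_eq, AffineBasis.coord_apply_ne _ (f3a s.1).2.2.2.2.1]
    field_simp
    ring
  · rw [pc1, AffineBasis.coord_apply_eq, AffineBasis.coord_apply_ne _ (f3a s.1).1]
    field_simp
    ring
  · rw [pc2, AffineBasis.coord_apply_ne _ (f3a s.1).2.1,
      AffineBasis.coord_apply_ne _ (f3a s.1).2.2.1]
    ring

theorem exists_pos (A : Fin 3 → Plane) (d : ℕ) (hd : 2 ≤ d) (P : Plane) (hP : P ∈ marked A d) :
    ∃ s : Pos d, P = pt A s := by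
  obtain ⟨k, i, hi, rfl⟩ := hP
  by_cases h : i < d
  · exact ⟨(k, ⟨i, h⟩), rfl⟩
  · have e : i = d := by omega
    subst e
    refine ⟨(k + 1, ⟨0, by omega⟩), ?_⟩
    unfold pt
    have : ((i : ℕ) : ℝ) ≠ 0 := by
      have : 0 < i := by omega
      positivity
    rw [div_self this]
    simp

theorem degree_le (d : ℕ) (hd : 2 ≤ d) (A : Fin 3 → Plane) (hA : AffineIndependent ℝ A)
    (p : Plane) (hp : p ∈ interior (convexHull ℝ (Set.range A))) :
    degree A d p ≤ d + 1 := by
  classical
  set b := basis A hA with hb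
  have hp' : p ∈ interior (convexHull ℝ (Set.range b)) := hp
  rw [b.interior_convexHull] at hp'
  set x : Fin 3 → ℝ := fun c => b.coord c p with hx
  have hxpos : ∀ k, 0 < x k := hp'
  have hxsum : x 0 + x 1 + x 2 = 1 := by
    have := b.sum_coord_apply_eq_one p
    rw [Fin.sum_univ_three] at this
    exact this
  have hd0 : (0 : ℝ) < d := by exact_mod_cast (by omega : 0 < d)
  have hsub : {L | L ∈ wsLines A d ∧ p ∈ L} ⊆
      (fun z : Pos d × Pos d => line[ℝ, pt A z.1, pt A z.2]) '' (Z x d : Set (Pos d × Pos d)) := by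
    rintro L ⟨⟨P, hP, Q, hQ, hPQ, rfl⟩, hpL⟩
    obtain ⟨s, rfl⟩ := exists_pos A d hd P hP
    obtain ⟨t, rfl⟩ := exists_pos A d hd Q hQ
    have hst : s ≠ t := by
      rintro rfl
      apply hPQ s.1
      have : pt A s ∈ side A s.1 := by
        unfold side
        rw [segment_eq_image_lineMap]
        refine ⟨(s.2.1 : ℝ) / d, ⟨by positivity, ?_⟩, rfl⟩
        rw [div_le_one hd0]
        exact_mod_cast s.2.2.le
      exact ⟨this, this⟩
    rw [mem_affineSpan_pair_iff_exists_lineMap_eq] at hpL
    obtain ⟨r, hr⟩ := hpL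
    have hc : ∀ c, (d : ℝ) * x c = (1 - r) * mm s c + r * mm t c := by
      intro c
      rw [← coord_pt A hA s c, ← coord_pt A hA t c, hx]
      simp only
      rw [← hr, AffineMap.apply_lineMap, AffineMap.lineMap_apply_ring]
      ring
    have hD : D x s t = 0 := by
      have h0 := hc 0
      have h1 := hc 1
      have h2 := hc 2
      have : (d : ℝ) * D x s t = 0 := by
        unfold D det3
        linear_combination (mm s 1 * mm t 2 - mm s 2 * mm t 1) * h0 -
          (mm s 0 * mm t 2 - mm s 2 * mm t 0) * h1 + (mm s 0 * mm t 1 - mm s 1 * mm t 0) * h2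
      rcases mul_eq_zero.1 this with h | h
      · exact absurd h (ne_of_gt hd0)
      · exact h
    rcases f3b s.1 t.1 with h1 | h1 | h1
    · exact absurd (D_same x hxpos s t h1 hD) hst
    · refine ⟨(s, t), ?_, rfl⟩
      rw [Finset.mem_coe, Z, Finset.mem_filter]
      exact ⟨Finset.mem_univ _, h1, hD⟩
    · have h2 : s.1 = t.1 + 1 := by rw [h1, (f3a s.1).2.2.2.2.2.2.1]
      refine ⟨(t, s), ?_, ?_⟩
      · rw [Finset.mem_coe, Z, Finset.mem_filter]
        exact ⟨Finset.mem_univ _, h2, by rw [D_antisymm, hD, neg_zero]⟩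
      · simp only
        rw [Set.pair_comm]
  unfold degree
  calc {L | L ∈ wsLines A d ∧ p ∈ L}.encard
      ≤ ((fun z : Pos d × Pos d => line[ℝ, pt A z.1, pt A z.2]) ''
          (Z x d : Set (Pos d × Pos d))).encard := Set.encard_le_encard hsub
    _ ≤ (Z x d : Set (Pos d × Pos d)).encard := Set.encard_image_le _ _
    _ = ((Z x d).card : ℕ∞) := Set.encard_coe_eq_coe_finsetCard _
    _ ≤ ((d + 1 : ℕ) : ℕ∞) := by exact_mod_cast card_Z x hxpos hxsum
    _ = d + 1 := by push_cast; rfl

/-- Q2: for every `d ≥ 2` and every triangle, every interior point lies on at most `d + 1`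
lines of the Wang–Shi split, that is `μ_d ≤ d + 1`. -/
theorem result : ∀ d : ℕ, 2 ≤ d → ∀ A : Fin 3 → Plane, AffineIndependent ℝ A →
    mu A d ≤ d + 1 := by
  intro d hd A hA
  unfold mu
  exact iSup₂_le fun p hp => degree_le d hd A hA p hp

end Pool.Agent.Results.MP_c789b2_co.AtMostDPlusOne
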