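import Pool.Agent.Q123.VQ.Sets

/-!
Problem MP_c7a479_co (maximum size of a variational set of permutation cubes), for the variational
sets which have a compatible operation: their structure and their largest size.
-/

set_option autoImplicit false

open Function

namespace Pool.Agent.Results.MP_c7a479_co.CompatibleOperations

/-- `C : [n]^m → [n]` is an `m`-dimensional permutation cube of order `n`. -/
def IsPermutationCube (m n : ℕ) (C : (Fin m → Fin n) → Fin n) : Prop :=
  ∀ (i : Fin m) (x : Fin m → Fin n), Bijective (fun t : Fin n => C (update x i t))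

/-- A variational set: permutation cubes, any `m` of which have a bijective joint map. -/
def IsVariationalSet (m n k : ℕ) (C : Fin k → (Fin m → Fin n) → Fin n) : Prop :=
  (∀ j, IsPermutationCube m n (C j)) ∧
    ∀ e : Fin m → Fin k, Injective e →
      Bijective (fun (x : Fin m → Fin n) (i : Fin m) => C (e i) x)

/-- The family `C` has a compatible operation of some arity `r`: an operation `F i` on the
positions of each axis `i` and an operation `H j` on the symbols of each cube `j` with
`C j (F (x¹, …, xʳ)) = H j (C j x¹, …, C j xʳ)` (`F` applied coordinatewise), and there are two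
variables `s ≠ t` and a base point `e` such that every `F i` is bijective in the variable `s`, and
also in the variable `t`, if all other variables are equal to `e i`. -/
def HasCompatibleOperation {m n k : ℕ} (C : Fin k → (Fin m → Fin n) → Fin n) : Prop :=
  ∃ (r : ℕ) (s t : Fin r) (F : Fin m → (Fin r → Fin n) → Fin n)
    (H : Fin k → (Fin r → Fin n) → Fin n) (e : Fin m → Fin n),
    s ≠ t ∧ (∀ i, Bijective fun x => F i (update (fun _ => e i) s x)) ∧
      (∀ i, Bijective fun x => F i (update (fun _ => e i) t x)) ∧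
      ∀ j (X : Fin r → Fin m → Fin n),
        C j (fun i => F i (fun a => X a i)) = H j (fun a => C j (X a))

/-- After relabelling the positions of the axes (by `τ i`) and the symbols (by `σ j`) with the
elements of the group `G`, every cube is a sum of endomorphisms of `G` applied to the coordinates. -/
def IsHomomorphic (G : Type) [AddCommGroup G] {m n k : ℕ}
    (C : Fin k → (Fin m → Fin n) → Fin n) : Prop :=
  ∃ (τ : Fin m → (Fin n ≃ G)) (σ : Fin k → (Fin n ≃ G)) (φ : Fin k → Fin m → (G →+ G)),
    ∀ j x, σ j (C j x) = ∑ i, φ j i (τ i (x i))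

/-- The sizes of the variational sets with a compatible operation. -/
def sizes (m n : ℕ) : Set ℕ :=
  {k | ∃ C : Fin k → (Fin m → Fin n) → Fin n, IsVariationalSet m n k C ∧ HasCompatibleOperation C}

/-- `q - 1` for `m = 2`, and for `m ≥ 3`: `m - 1` if `q = 2`, `m + 1` if `3 ≤ q ≤ m`, `q + 2` if
`q > m` is even and `m` is `3` or `q - 1`, and `q + 1` in the other cases. -/
def value (m q : ℕ) : ℕ :=
  if m = 2 then q - 1
  else if q = 2 then m - 1
  else if q ≤ m then m + 1
  else if q % 2 = 0 ∧ (m = 3 ∨ m + 1 = q) then q + 2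
  else q + 1

theorem result :
    -- (1) structure
    (∀ (m n k : ℕ) (C : Fin k → (Fin m → Fin n) → Fin n), 2 ≤ m → 1 ≤ n →
      (∀ j, IsPermutationCube m n (C j)) →
      (HasCompatibleOperation C ↔
        ∃ (G : Type) (_ : AddCommGroup G), Nat.card G = n ∧ IsHomomorphic G C)) ∧
    -- (2) sizes; `q` is the least of the prime powers that divide `n` exactly
    (∀ m n q : ℕ, 2 ≤ m → 2 ≤ n →
      IsLeast {x | ∃ p : ℕ, p.Prime ∧ p ∣ n ∧ x = p ^ n.factorization p} q →
      value m q ∈ sizes m n ∧
      (m = 2 ∨ m = 3 ∨ q ≤ m + 1 ∨ q.Prime ∨ (q % 2 = 0 ∧ q ≤ m + 2) →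
        IsGreatest (sizes m n) (value m q))) := by
  have hmem : ∀ m n q : ℕ, 2 ≤ m → 2 ≤ n →
      IsLeast {x | ∃ p : ℕ, p.Prime ∧ p ∣ n ∧ x = p ^ n.factorization p} q →
      value m q ∈ sizes m n := by
    intro m n q hm hn hq
    obtain ⟨G, _, -, C, hC, hG⟩ := Q123.VQ.value_mem hm hn hq
    exact ⟨C, hC, Q123.VQ.op_of_homomorphic (by omega) C G hG⟩
  refine ⟨?_, ?_⟩
  · intro m n k C hm hn hC
    constructor
    · intro h
      exact Q123.VQ.homomorphic_of_op hm hn C hC h
    · rintro ⟨G, _, -, h⟩
      exact Q123.VQ.op_of_homomorphic hn C G h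
  · intro m n q hm hn hq
    refine ⟨hmem m n q hm hn hq, fun hc => ⟨hmem m n q hm hn hq, ?_⟩⟩
    rintro k ⟨C, hC, h⟩
    obtain ⟨G, _, hG, hhom⟩ := Q123.VQ.homomorphic_of_op hm (by omega) C hC.1 h
    exact Q123.VQ.le_value hm hn G hG ⟨C, hC, hhom⟩ hq hc

end Pool.Agent.Results.MP_c7a479_co.CompatibleOperations
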