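import Pool.Agent.H14CR.Vmax

/-!
Problem MP_c7e63d_co (signed `[0, s]`-critical number of cyclic groups): the formula
`χ (Z_n, [0, s]) = v (n, s) + 1` holds for all positive integers `n` and `s`.
-/

set_option autoImplicit false

namespace Pool.Agent.Results.MP_c7e63d_co.AllModuli

/-- The `h`-fold signed sumset of `A`. -/
def signedSumset (n h : ℕ) (A : Finset (ZMod n)) : Set (ZMod n) :=
  {x | ∃ l : ZMod n → ℤ, ∑ a ∈ A, (l a).natAbs = h ∧ ∑ a ∈ A, l a • a = x}

/-- The union of the `h`-fold signed sumsets of `A` for `0 ≤ h ≤ s`. -/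
def signedSumsetLe (n s : ℕ) (A : Finset (ZMod n)) : Set (ZMod n) :=
  {x | ∃ h ≤ s, x ∈ signedSumset n h A}

/-- The signed `[0, s]`-critical number of `Z_n`. -/
noncomputable def chi (n s : ℕ) : ℕ :=
  sInf {m | ∀ A : Finset (ZMod n), m ≤ A.card → signedSumsetLe n s A = Set.univ}

/-- `v (n, h)`, the maximum of `(2 ⌊(d - 2) / (2 h)⌋ + 1) n / d` over the divisors `d` of `n`. -/
noncomputable def v (n h : ℕ) : ℤ :=
  sSup {y | ∃ d ∈ n.divisors, y = (2 * (((d : ℤ) - 2) / (2 * h)) + 1) * ((n / d : ℕ) : ℤ)}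

theorem result (n s : ℕ) (hn : 0 < n) (hs : 0 < s) : (chi n s : ℤ) = v n s + 1 := by
  obtain ⟨h1, d, hd, h2⟩ := H14CR.sSup_spec n s hn
  have h3 : v n s = sSup (H14CR.vals n s) := rfl
  have h4 := H14CR.neg_one_le n s hn hs
  rw [← h3] at h1 h2 h4
  set S := {m | ∀ A : Finset (ZMod n), m ≤ A.card → signedSumsetLe n s A = Set.univ} with hS
  have hmem : (v n s + 1).toNat ∈ S := by
    intro A hA
    apply Set.eq_univ_of_forall
    intro x
    exact H14CR.upper hn hs A (v n s) h1 (by omega) x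
  have hle : ∀ m ∈ S, (v n s + 1).toNat ≤ m := by
    intro m hm
    by_contra hcon
    obtain ⟨A, hA, x, hx⟩ := H14CR.lower hn hs hd m (by rw [← h2]; omega)
    apply hx
    have h5 : x ∈ signedSumsetLe n s A := by
      rw [hm A (by omega)]
      exact Set.mem_univ x
    exact h5
  have h6 : chi n s = (v n s + 1).toNat :=
    le_antisymm (Nat.sInf_le hmem) (hle _ (Nat.sInf_mem ⟨_, hmem⟩))
  rw [h6]
  omega

end Pool.Agent.Results.MP_c7e63d_co.AllModuli
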