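import Pool.Agent.Y291.PH.Half

/-!
# The average doubling index on tori whose metric is analytic in one variable

The torus is `ℝ × ℝ` modulo the lattice generated by `(L, α)` and `(0, 2π)`, with the metric
`ρ(x, y)(dx² + dy²)`, where `ρ` is continuous in both variables and real analytic in `y` only
(uniformly). This contains, with no assumption on the profile besides continuity, all metrics
invariant under a circle action on the torus.

* The average doubling index of every eigenfunction over every admissible covering is at most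
  `A log(2 + lam)`.
* For every nonnegative increasing `ψ` with `∑ ψ(2^(k+1)) / 2^k < ∞` the average of `ψ(N(B_i))` is
  bounded by a constant independent of the eigenfunction and of the covering.
-/

set_option autoImplicit false
set_option maxHeartbeats 400000

namespace Pool.Agent.Results.MP_c7f82c_an.LogAverage

open Pool.Agent.Y291.DB Pool.Agent.Y291.PA

/-- The geodesic discs of radius `r` with centers `c i` cover the torus and every point lies in at
most `C₁` of them. -/
structure BoundedCovering (ρ : ℝ × ℝ → ℝ) (L α r C₁ : ℝ) {ι : Type} [Fintype ι]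
    (c : ι → ℝ × ℝ) : Prop where
  cover : ∀ q : ℝ × ℝ, ∃ i, q ∈ disc ρ L α (c i) r
  mult : ∀ q : ℝ × ℝ, ({i | q ∈ disc ρ L α (c i) r}.ncard : ℝ) ≤ C₁

/-- The maximum is controlled by a weak type inequality. -/
theorem max_le {ι : Type} [Fintype ι] {N : ι → ℝ} {a : ℝ}
    (h : ∀ t : ℝ, 0 < t → (({i | t ≤ N i}.ncard : ℕ) : ℝ) ≤ a / t * Fintype.card ι)
    (ha : 0 < a) (i : ι) : N i ≤ a * Fintype.card ι := by
  classical
  rcases le_or_gt (N i) 0 with h0 | h0
  · exact h0.trans (by positivity)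
  have h1 := h (N i) h0
  have h2 : 1 ≤ {j | N i ≤ N j}.ncard :=
    Nat.one_le_iff_ne_zero.2 (Set.ncard_ne_zero_of_mem (a := i) (by simp))
  have h3 : (1 : ℝ) ≤ ({j | N i ≤ N j}.ncard : ℕ) := by exact_mod_cast h2
  have h4 := h3.trans h1
  rw [div_mul_eq_mul_div, le_div_iff₀ h0] at h4
  linarith

/-- Dyadic decomposition of an increasing function of one real number. -/
theorem psi_le {ψ : ℝ → ℝ} (hmono : Monotone ψ) (hpos : ∀ t, 0 ≤ ψ t) {x : ℝ} {K : ℕ}
    (hx : x < 2 ^ K) :
    ψ x ≤ ψ 1 + ∑ k ∈ Finset.range K, (if (2 : ℝ) ^ k ≤ x then ψ (2 ^ (k + 1)) else 0) := by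
  have hnn : 0 ≤ ∑ k ∈ Finset.range K, (if (2 : ℝ) ^ k ≤ x then ψ (2 ^ (k + 1)) else 0) :=
    Finset.sum_nonneg fun k _ => by split_ifs <;> [exact hpos _; exact le_rfl]
  rcases le_or_gt x 1 with h1 | h1
  · have := hmono h1
    linarith
  · -- the first power above `x`
    have hex : ∃ j : ℕ, x < 2 ^ j := ⟨K, hx⟩
    classical
    set j := Nat.find hex with hj
    have hjx : x < 2 ^ j := Nat.find_spec hex
    have hj0 : j ≠ 0 := by
      intro h0
      rw [h0, pow_zero] at hjx
      linarith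
    obtain ⟨m, hm⟩ := Nat.exists_eq_succ_of_ne_zero hj0
    have hmx : (2 : ℝ) ^ m ≤ x := by
      by_contra hc
      push Not at hc
      have := Nat.find_min' hex hc
      rw [← hj, hm] at this
      omega
    have hmK : m < K := by
      have := Nat.find_min' hex hx
      rw [← hj, hm] at this
      omega
    have hle : ψ x ≤ ψ (2 ^ (m + 1)) := by
      apply hmono
      rw [hm] at hjx
      exact hjx.le
    have hs : (if (2 : ℝ) ^ m ≤ x then ψ (2 ^ (m + 1)) else 0) ≤
        ∑ k ∈ Finset.range K, (if (2 : ℝ) ^ k ≤ x then ψ (2 ^ (k + 1)) else 0) :=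
      Finset.single_le_sum
        (f := fun k => if (2 : ℝ) ^ k ≤ x then ψ (2 ^ (k + 1)) else 0)
        (fun k _ => by split_ifs <;> [exact hpos _; exact le_rfl])
        (Finset.mem_range.2 hmK)
    rw [if_pos hmx] at hs
    have := hpos 1
    linarith

/-- Averages of increasing functions under a weak type inequality. -/
theorem avg_le {ι : Type} [Fintype ι] {N : ι → ℝ} {a : ℝ} (ha : 0 < a)
    (h : ∀ t : ℝ, 0 < t → (({i | t ≤ N i}.ncard : ℕ) : ℝ) ≤ a / t * Fintype.card ι)
    {ψ : ℝ → ℝ} (hmono : Monotone ψ) (hpos : ∀ t, 0 ≤ ψ t) {K : ℕ}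
    (hK : a * Fintype.card ι < 2 ^ K) :
    ∑ i, ψ (N i) ≤ (ψ 1 + a * ∑ k ∈ Finset.range K, ψ (2 ^ (k + 1)) / 2 ^ k) *
      Fintype.card ι := by
  classical
  have h1 : ∑ i, ψ (N i) ≤ ∑ i : ι, (ψ 1 +
      ∑ k ∈ Finset.range K, (if (2 : ℝ) ^ k ≤ N i then ψ (2 ^ (k + 1)) else 0)) :=
    Finset.sum_le_sum fun i _ => psi_le hmono hpos ((max_le h ha i).trans_lt hK)
  refine h1.trans ?_
  rw [Finset.sum_add_distrib, Finset.sum_comm]
  have h2 : ∑ _i : ι, ψ 1 = Fintype.card ι * ψ 1 := by
    rw [Finset.sum_const, Finset.card_univ, nsmul_eq_mul]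
  have h3 : ∀ k ∈ Finset.range K,
      ∑ i : ι, (if (2 : ℝ) ^ k ≤ N i then ψ (2 ^ (k + 1)) else 0) ≤
        a * (ψ (2 ^ (k + 1)) / 2 ^ k) * Fintype.card ι := by
    intro k _
    rw [← Finset.sum_filter, Finset.sum_const, nsmul_eq_mul]
    have h4 := h (2 ^ k) (by positivity)
    have h5 : ((Finset.univ.filter fun i : ι => (2 : ℝ) ^ k ≤ N i).card : ℝ) =
        (({i | (2 : ℝ) ^ k ≤ N i}.ncard : ℕ) : ℝ) := by
      rw [← Set.ncard_coe_finset]
      congr 2
      ext i
      simp
    rw [h5]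
    refine (mul_le_mul_of_nonneg_right h4 (hpos _)).trans (le_of_eq ?_)
    ring
  refine (add_le_add h2.le (Finset.sum_le_sum h3)).trans (le_of_eq ?_)
  rw [← Finset.sum_mul, ← Finset.mul_sum]
  ring

/-- A power of two above `x` whose exponent is logarithmic. -/
theorem exists_pow {x : ℝ} (hx : 0 < x) :
    ∃ K : ℕ, x < 2 ^ K ∧ (K : ℝ) ≤ 1 + Real.log (1 + x) / Real.log 2 := by
  have hl2 : 0 < Real.log 2 := Real.log_pos one_lt_two
  have hlog : 0 ≤ Real.log (1 + x) / Real.log 2 :=
    div_nonneg (Real.log_nonneg (by linarith)) hl2.le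
  refine ⟨⌊Real.log (1 + x) / Real.log 2⌋₊ + 1, ?_, ?_⟩
  · have h1 := Nat.lt_floor_add_one (Real.log (1 + x) / Real.log 2)
    rw [div_lt_iff₀ hl2] at h1
    have h2 : Real.log (1 + x) < Real.log (2 ^ (⌊Real.log (1 + x) / Real.log 2⌋₊ + 1)) := by
      rw [Real.log_pow]
      push_cast
      exact h1
    have h3 := (Real.log_lt_log_iff (by linarith) (by positivity)).1 h2
    linarith
  · push_cast
    have := Nat.floor_le hlog
    linarith

/-- Let `ρ` be a continuous positive function on the torus, analytic in the second variable.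

(1) For all `C, C₁, C₂ > 0` there is a constant `A` such that for every eigenfunction and every
admissible covering with constants `C, C₁, C₂` the average doubling index is at most
`A log (2 + lam)`.

(2) For all `C, C₁ > 0` and every nonnegative increasing function `ψ` such that
`∑ ψ(2^(k+1)) / 2^k` converges (for instance `ψ(t) = t^p` with `p < 1` or
`ψ(t) = t / log(2 + t)^(1 + ε)` for large `t`) there is a constant `A` such that for every
eigenfunction and every covering by discs of radius `C / √lam` with multiplicity at most `C₁`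
(centred at zeros or not) the average of `ψ` of the doubling index is at most `A`. -/
theorem result (ρ : ℝ × ℝ → ℝ) (L α : ℝ) (hL : 0 < L) (hρc : Continuous ρ)
    (hρpos : ∀ p, 0 < ρ p) (hρx : ∀ p : ℝ × ℝ, ρ (p.1 + L, p.2 + α) = ρ p)
    (hρy : ∀ p : ℝ × ℝ, ρ (p.1, p.2 + 2 * Real.pi) = ρ p) (hρa : AnalyticInSecond ρ)
    (C C₁ : ℝ) (hC : 0 < C) (hC₁ : 0 < C₁) :
    (∀ C₂ : ℝ, 0 < C₂ → ∃ A : ℝ, 0 < A ∧ ∀ (lam : ℝ) (φ : ℝ × ℝ → ℝ), Eigen ρ L α lam φ →
      ∀ (ι : Type) [Fintype ι] (c : ι → ℝ × ℝ), Admissible ρ L α lam φ C C₁ C₂ c →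
        (∑ i, doubling ρ L α φ (c i) (C / Real.sqrt lam)) / Fintype.card ι ≤
          A * Real.log (2 + lam)) ∧
    ∀ ψ : ℝ → ℝ, Monotone ψ → (∀ t, 0 ≤ ψ t) → Summable (fun k : ℕ => ψ (2 ^ (k + 1)) / 2 ^ k) →
      ∃ A : ℝ, 0 < A ∧ ∀ (lam : ℝ) (φ : ℝ × ℝ → ℝ), Eigen ρ L α lam φ →
        ∀ (ι : Type) [Fintype ι] (c : ι → ℝ × ℝ),
          BoundedCovering ρ L α (C / Real.sqrt lam) C₁ c →
          (∑ i, ψ (doubling ρ L α φ (c i) (C / Real.sqrt lam))) / Fintype.card ι ≤ A := by
  classical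
  obtain ⟨a, ha, hmain⟩ := Pool.Agent.Y291.PH.main hL hρc hρpos hρx hρy hρa hC hC₁
  have hl2 : 0 < Real.log 2 := Real.log_pos one_lt_two
  constructor
  · intro C₂ hC₂
    -- constant
    set B : ℝ := 1 + Real.log (1 + a * C₂) / Real.log 2 with hB
    have hB1 : 1 ≤ B := by
      have : 0 ≤ Real.log (1 + a * C₂) / Real.log 2 :=
        div_nonneg (Real.log_nonneg (by nlinarith [mul_pos ha hC₂])) hl2.le
      linarith
    refine ⟨(1 + 2 * a * (B + 1)) / Real.log 2, by positivity, fun lam φ hφ ι _ c hc => ?_⟩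
    have hw := hmain lam φ hφ ι c hc.cover hc.mult
    have hlam := hφ.pos
    have hn : (1 : ℝ) ≤ Fintype.card ι := by
      obtain ⟨i, -⟩ := hc.cover (0, 0)
      have : 0 < Fintype.card ι := Fintype.card_pos_iff.2 ⟨i⟩
      exact_mod_cast this
    have hn0 : (0 : ℝ) < Fintype.card ι := by linarith
    obtain ⟨K, hK, hK'⟩ := exists_pow (x := a * Fintype.card ι) (by positivity)
    have hψ : Monotone (fun t : ℝ => max t 0) := fun s t hst => max_le_max hst le_rfl
    have hs := avg_le ha hw hψ (fun t => le_max_right _ _) hK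
    have h1 : ∑ i, doubling ρ L α φ (c i) (C / Real.sqrt lam) ≤
        ∑ i, max (doubling ρ L α φ (c i) (C / Real.sqrt lam)) 0 :=
      Finset.sum_le_sum fun i _ => le_max_left _ _
    have h2 : ∑ k ∈ Finset.range K, max ((2 : ℝ) ^ (k + 1)) 0 / 2 ^ k = 2 * K := by
      have : ∀ k ∈ Finset.range K, max ((2 : ℝ) ^ (k + 1)) 0 / 2 ^ k = 2 := by
        intro k _
        rw [max_eq_left (by positivity), pow_succ]
        field_simp
      rw [Finset.sum_congr rfl this, Finset.sum_const, Finset.card_range, nsmul_eq_mul]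
      ring
    rw [h2, max_eq_left (zero_le_one' ℝ)] at hs
    rw [div_le_iff₀ hn0]
    refine (h1.trans hs).trans (mul_le_mul_of_nonneg_right ?_ hn0.le)
    -- the logarithm of the number of discs
    have hlog1 : Real.log 2 ≤ Real.log (2 + lam) :=
      Real.log_le_log two_pos (by linarith)
    have hu : (1 : ℝ) ≤ Real.log (2 + lam) / Real.log 2 := (one_le_div hl2).2 hlog1
    have hK2 : (K : ℝ) ≤ B + Real.log (2 + lam) / Real.log 2 := by
      refine hK'.trans ?_
      have h3 : Real.log (1 + a * Fintype.card ι) ≤ Real.log ((1 + a * C₂) * (2 + lam)) := by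
        apply Real.log_le_log (by positivity)
        have h4 := hc.upper
        have h5 : a * Fintype.card ι ≤ a * (C₂ * lam) := mul_le_mul_of_nonneg_left h4 ha.le
        nlinarith [mul_pos ha hC₂, mul_pos (mul_pos ha hC₂) hlam]
      rw [Real.log_mul (by positivity) (by positivity)] at h3
      have h6 : Real.log (1 + a * Fintype.card ι) / Real.log 2 ≤
          (Real.log (1 + a * C₂) + Real.log (2 + lam)) / Real.log 2 :=
        div_le_div_of_nonneg_right h3 hl2.le
      rw [add_div] at h6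
      rw [hB]
      linarith
    set u : ℝ := Real.log (2 + lam) / Real.log 2 with hu'
    have h7 : (1 + 2 * a * (B + 1)) / Real.log 2 * Real.log (2 + lam) =
        (1 + 2 * a * (B + 1)) * u := by
      rw [hu']
      ring
    rw [h7]
    have h8 : a * (2 * K) ≤ a * (2 * (B + u)) := by
      apply mul_le_mul_of_nonneg_left _ ha.le
      linarith
    have h9 : B + u ≤ (B + 1) * u := by nlinarith
    have h10 : a * (2 * (B + u)) ≤ a * (2 * ((B + 1) * u)) := by
      apply mul_le_mul_of_nonneg_left _ ha.le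
      linarith
    nlinarith
  · intro ψ hmono hpos hsum
    refine ⟨ψ 1 + a * (∑' k : ℕ, ψ (2 ^ (k + 1)) / 2 ^ k) + 1, ?_, fun lam φ hφ ι _ c hc => ?_⟩
    · have h0 : 0 ≤ ∑' k : ℕ, ψ (2 ^ (k + 1)) / 2 ^ k :=
        tsum_nonneg fun k => div_nonneg (hpos _) (by positivity)
      have := hpos 1
      positivity
    have hw := hmain lam φ hφ ι c hc.cover hc.mult
    have hn : (1 : ℝ) ≤ Fintype.card ι := by
      obtain ⟨i, -⟩ := hc.cover (0, 0)
      have : 0 < Fintype.card ι := Fintype.card_pos_iff.2 ⟨i⟩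
      exact_mod_cast this
    have hn0 : (0 : ℝ) < Fintype.card ι := by linarith
    obtain ⟨K, hK, -⟩ := exists_pow (x := a * Fintype.card ι) (by positivity)
    have hs := avg_le ha hw hmono hpos hK
    rw [div_le_iff₀ hn0]
    refine hs.trans (mul_le_mul_of_nonneg_right ?_ hn0.le)
    have h1 : ∑ k ∈ Finset.range K, ψ (2 ^ (k + 1)) / 2 ^ k ≤ ∑' k : ℕ, ψ (2 ^ (k + 1)) / 2 ^ k :=
      hsum.sum_le_tsum _ fun k _ => div_nonneg (hpos _) (by positivity)
    have h2 := mul_le_mul_of_nonneg_left h1 ha.le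
    linarith

end Pool.Agent.Results.MP_c7f82c_an.LogAverage
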