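import Pool.Agent.Q262.ReflMain

set_option autoImplicit false

namespace Pool.Agent.Results.MP_c80912_nt.NotReflexive105

open Q262.Refl

/-- The cyclopolytope `N_105` is not reflexive: its polar has a vertex that is not a lattice
point. -/
theorem result :
    (∃ y ∈ Set.extremePoints ℝ (polarSet (cyclopolytope 105)), ¬ IsLatticePoint y) ∧
      ¬ IsReflexive (cyclopolytope 105) :=
  ⟨⟨ypt, ypt_extreme, ypt_not_lattice⟩, fun h => ypt_not_lattice (h.2.2 ypt ypt_extreme)⟩

end Pool.Agent.Results.MP_c80912_nt.NotReflexive105
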