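import Mathlib
import Pool.Agent.Q273.CG.Uni2

set_option autoImplicit false

/-!
# Large values of `g` at ALL the terms of dilated sequences with ratios at least a constant

For `0 < ε < 1` there are `c > 0` and `R₀` such that for EVERY sequence of positive numbers with
`x_{n+1} ≥ R₀ x_n` for all `n` (no other condition; the ratios may be bounded, as for `b^n`) the
set of the `α` in an interval of length `≥ 1 / x_0` such that
`g(⌊α x_{n+1}⌋) > c f(x_{n+1} / x_n)` for ALL `n ≥ 0` has Hausdorff dimension at least `1 - ε`; the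
integer parts can moreover be prescribed modulo numbers `d_n` without large prime factors. So all
the starting points `⌊α b^n⌋`, `n ≥ 1`, have `g > c f(b)`, for most `α` in the sense of dimension.
-/

open Filter Topology

namespace Pool.Agent.Results.MP_c853c5_nt.EveryTermUniformRatio

/-- `g(n) = q(n) - n`, where `q(n)` is the least prime `> n`. -/
noncomputable def g (n : ℕ) : ℕ := sInf {p : ℕ | p.Prime ∧ n < p} - n

/-- The record scale `f(x) = log x (log₂ x)² log₄ x / (log₃ x)²` (iterated natural logarithms). -/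
noncomputable def f (x : ℝ) : ℝ :=
  Real.log x * (Real.log (Real.log x)) ^ 2 * Real.log (Real.log (Real.log (Real.log x))) /
    (Real.log (Real.log (Real.log x))) ^ 2

/-- Every prime is at a distance greater than `H` from the real number `y`. -/
def Far (H y : ℝ) : Prop := ∀ q : ℕ, q.Prime → H < |(q : ℝ) - y|

/-- 1. relates `Far` to the function `g` of the problem. 2. is the general theorem, 3. the case of
the powers of a (real) base `b`. -/
theorem result :
    (∀ H y : ℝ, 0 ≤ y → Far H y → H < g ⌊y⌋₊) ∧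
    (∀ ε : ℝ, 0 < ε → ε < 1 → ∀ B : ℕ, ∃ c R₀ : ℝ, 0 < c ∧ 1 < R₀ ∧
      ∀ x : ℕ → ℝ, (∀ n, 0 < x n) → (∀ n, R₀ ≤ x (n + 1) / x n) →
      ∀ d r : ℕ → ℕ, (∀ n, 1 ≤ d n) → (∀ n, ∀ p : ℕ, p.Prime → p ∣ d n → p ≤ B) →
      (∀ n, (d n : ℝ) ≤ (x (n + 1) / x n) ^ (ε / 4)) →
      ∀ u v : ℝ, 0 < u → u < v → 1 ≤ x 0 * (v - u) → ENNReal.ofReal (1 - ε) ≤
        dimH {α : ℝ | u < α ∧ α < v ∧ ∀ n, ⌊α * x (n + 1)⌋₊ ≡ r n [MOD d n] ∧
          Far (c * f (x (n + 1) / x n)) (α * x (n + 1))}) ∧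
    (∀ ε : ℝ, 0 < ε → ε < 1 → ∃ c b₀ : ℝ, 0 < c ∧ 1 < b₀ ∧
      ∀ b : ℝ, b₀ ≤ b → ENNReal.ofReal (1 - ε) ≤
        dimH {α : ℝ | 1 < α ∧ α < 2 ∧ ∀ n : ℕ, 1 ≤ n → Far (c * f b) (α * b ^ n)}) :=
  ⟨fun _ _ hy h => Pool.Agent.Q273.CG.Far.lt_gap hy h,
    fun ε h0 h1 B => Pool.Agent.Q273.CG.uni_core ε h0 h1 B,
    fun ε h0 h1 => Pool.Agent.Q273.CG.uni_pow ε h0 h1⟩

end Pool.Agent.Results.MP_c853c5_nt.EveryTermUniformRatio
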