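import Pool.Agent.Q22.PK.ALL

/-!
# The optimal pinching of the sectional curvature for a positive curvature operator

For every `d ≥ 4`, with `m = ⌊d / 2⌋`, the optimal pointwise pinching constant is
`δ(d) = (2 m - 2) / (2 m + 1)`. Upper bound: a bivector has a normal form `∑_{i ≤ m} c_i u_i ∧ v_i`,
the diagonal terms of the curvature operator are at least `δ`, and by Berger's inequality the others are at
most `2 (1 - δ) / 3` (if the largest sectional curvature is `1`). Lower bound: for a skew map `J` with `m` planes
(`J² = -1` on them) and `t > 1 / (2 m + 1)` a metric near `0 ∈ ℝ^d` with the sectional curvature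
`1 - 3 t ⟨J a, b⟩²` at `0` has the pinching `1 - 3 t` at `0`, and its curvature operator is
negative on the bivector of `J`.
-/

set_option autoImplicit false

namespace Pool.Agent.Results.MP_c9e91a_gt.PinchingConstant

open Pool.Agent.H821R2

/-- For every `d ≥ 4` the infimum `δ(d)` of the `δ ∈ (0, 1]` such that every pointwise `δ`-pinched
Riemannian `d`-manifold has positive curvature operator is
`(2 ⌊d / 2⌋ - 2) / (2 ⌊d / 2⌋ + 1)` (`d / 2` is the quotient of natural numbers). -/
theorem result : ∀ d : ℕ, 4 ≤ d →
    pinchingConstant d = (2 * ((d / 2 : ℕ) : ℝ) - 2) / (2 * ((d / 2 : ℕ) : ℝ) + 1) :=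
  Pool.Agent.Q22.PK.final

end Pool.Agent.Results.MP_c9e91a_gt.PinchingConstant
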