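import Pool.Agent.Q28.TM.Main

/-!
# The period conjecture for varieties with a motivic Galois group of dimension at most two

Let `X` be an irreducible smooth projective variety over the field of algebraic numbers whose motive
is of abelian type (a motive of the Tannakian category generated by abelian varieties). We prove Q1
for `X`, and for all varieties and motives in `⟨h(X)⟩`, if `dim G_mod(X) ≤ 2`. Examples: K3 surfaces
with Picard number 20, cubic fourfolds with 21 independent algebraic classes in `H^4`, hyperkähler
varieties with `b_2 - 2` independent algebraic classes in `H^2` (motive of abelian type), and all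
powers of these. For every K3 surface (and cubic fourfold, ...) over the algebraic numbers, without
condition on the Picard number, the transcendence degree is at least two, and it is the one of the
Kuga-Satake abelian variety. The proof: a torus of dimension two which carries a Hodge cocharacter of
nonzero weight is isogenous to the Mumford-Tate group of an elliptic curve with complex
multiplication, compatibly with the Hodge cocharacters; then Chudnovsky's theorem applies.
-/

open CategoryTheory MonoidalCategory Limits

universe v u w

namespace Pool.Agent.Results.MP_caab05_ag.SmallMotivicGroups

open Pool.Agent.Q28.TM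

/-- **The period conjecture for small motivic Galois groups.** Let `T` be the category of motives of
abelian type over the algebraic numbers, with the transcendence degrees `T.trdeg` of the fields of
periods and the dimensions `T.gdim` of the motivic Galois groups (`hT`: known facts). `T.PCAll M`
means `trdeg = dim G` for all motives in `⟨M⟩`.
(1) Let `M` be a motive with `dim G(M) ≤ 1`, or with `dim G(M) = 2` and such that `⟨M⟩` contains a
Tate motive of nonzero weight (`T.Small M`). Then the period conjecture holds for all `N` in
`⟨M⟩`.
(2) Let `X` be a variety with `dim G_mod(X) ≤ 2`. Then the period conjecture holds for `X`, for the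
powers of `X` and all motives in `⟨h(X)⟩`.
(3) Let `X` be a K3 surface, a cubic fourfold or a hyperkähler variety with `b_2 > 3`. Then the
transcendence degree of the field of periods of `X` is at least two; there is an abelian variety `A`
such that `trdeg` and `dim G` are the same for `X` and `A`; and if the transcendental part of `H^2`
(`H^4` for cubic fourfolds) has rank two, the period conjecture holds for `X`, for its powers, and
for all motives in `⟨h(X)⟩`. -/
theorem result {𝓜 : Type u} [Category.{v} 𝓜] [Preadditive 𝓜] [MonoidalCategory 𝓜]
    [HasBinaryBiproducts 𝓜] {Γ : Type} [Group Γ] [TopologicalSpace Γ] [IsTopologicalGroup Γ] {c : Γ}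
    {T : AbelianMotives.{v, u, w} 𝓜 Γ c} (hT : T.Facts) :
    (∀ M, T.Small M → T.PCAll M) ∧
    (∀ X, T.gdim (T.h X) ≤ 2 → T.PCAll (T.h X)) ∧
    (∀ X, T.K3Type X → 2 ≤ T.trdeg (T.h X) ∧ (T.trank X = 2 → T.PCAll (T.h X)) ∧
      ∃ A, T.AV A ∧ T.trdeg (T.h X) = T.trdeg A ∧ T.gdim (T.h X) = T.gdim A) :=
  AbelianMotives.final hT

end Pool.Agent.Results.MP_caab05_ag.SmallMotivicGroups
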