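import Pool.Agent.Q207.AF.Dg
import Pool.Agent.Y123.GN.E8
import Pool.Agent.Y123.ST.Out

/-!
# The torsor form of the period conjecture for almost all members over number fields of families of varieties

Let `h = (h_1, ..., h_r)` be a connected family of G-functions over `ℚ` (with the conditions of Siegel and Galochkin, regular
singular with rational exponents at `0`; connected: no element of `ℚ(x, h)` outside `ℚ(x)` is algebraic over `ℚ(x)`), and let
`P_i(x)`, `1 ≤ i ≤ k`, be square matrices whose entries are polynomials with arbitrary complex coefficients in a logarithm and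
in the `h_l(x)`: the period matrices (rows: Betti, columns: de Rham) of the cohomology of families `X_{i,x}` of smooth
projective varieties over an open part of the line, near a rational point, which may be a point of degeneration. Let
`Gal(P_i)` be the group of the matrices `g` such that `g` and `g⁻¹` preserve the functional relations of `P_i` over `ℂ(x)`. Let
`M_0` be any object over a number field, with period matrix `C₀`. For algebraic numbers `α_i` let `c = C₀ ⊕ ⨁_i P_i(1 / α_i)` be
the period matrix of the sum of `M_0` and of the fibres at the points `x_i = 1 / α_i`, which are varieties over number fields.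

For a number field `K ⊂ ℂ` a `K`-subtorsor is a subset `T` of `GL` which is defined by polynomials over `K`, of any degree,
and closed under `x y⁻¹ z`. The torsor of motivic isomorphisms of `H_dR` and `H_B` is one and contains `c`, and
Grothendieck's conjecture implies that it is contained in all others with `c ∈ T`, up to connected components, for all `K`.
The starting file `BigMonodromyTorsors` shows that this is the case, relative to `M_0`, for almost all fibres at reciprocal
integers `1 / t_i`, so for varieties over `ℚ`, if the monodromy groups are big. Here is the theorem for almost all algebraic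
points, so for varieties over number fields.

**Theorem.** For almost all `k`-tuples of algebraic integers `α_i` of degree `≤ m`, each in its own number field (all but
`C T^(-c) |I|^k` of the tuples in `I^k` without coordinates in a finite set `B`, where `I` is the set of the algebraic
integers of degree `≤ m` with conjugates at most `T`, and `c > 0` and `C` depend only on `D`, `m`, `k`, `h`, the ranks and the
degrees of the `P_i`, not on the `P_i` and `C₀`), for all logarithms of the `α_i`, all number fields `K` of degree at most `D`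
at once and all `K`-subtorsors `T` with `c ∈ T`:

1. `T` is stable under `1 × ∏_i known_i`, where `known_i` is the commutator group of the group generated by all unipotent
   one-parameter groups in `Gal(P_i)`.
2. If `Gal(P_i)` contains, for all `i`, the group `special(B_i)` (`Sp`, `SO`, or `SL`), then `T` is, in the torsor of all
   isomorphisms `x_0 ⊕ ⨁ X_i` which respect polarisations, the full inverse image of its image under
   `(x_0, det X_1, …, det X_k)`.
3. If moreover `M_0 = ℚ(-1)`, `C₀ = 2πi` and `T` is contained in the torsor of the isomorphisms `z ⊕ ⨁ X_i` with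
   `X_i Q_i X_i^t = z^(w_i) B_i` and `det X_i = δ_i z^(m_i)` then it is equal to this torsor.

There are functions `D(T) → ∞` and `ε(T) → 0`, depending on the `P_i`, such that for all but `ε(T) |I|^k` tuples all this is true
for all number fields of degree at most `D(T)`.

Proof. (1) For almost all tuples the relations of bounded degree over the space of the constants hold on the product of the
fibres of the closure of the graph of `h` and of the lines of the logarithms (starting engine of
MP_12eca1_ag.AlgebraicFibres). (2) For all but finitely many `α` all complex polynomials of bounded degree in the entries of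
`P_i` which vanish on this set at `1 / α` are specialisations of functional relations over `ℂ[x]` (ultraproducts, Q207/AF/Core),
so they vanish at `g P_i(1 / α)`, `g ∈ Gal(P_i)`: functional relations hold at all complex points and for all logarithms,
because the logarithm is transcendental over the meromorphic functions. Coordinate by coordinate this moves the relations of
the period matrix `c`. (3) The argument for subtorsors of the starting file (Pool/Agent/Y123/GN).
-/

set_option autoImplicit false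

open PowerSeries Filter
open scoped commutatorElement Matrix

namespace Pool.Agent.Results.MP_caab05_ag.TorsorsOverNumberFields

/-! ### Families of G-functions -/

/-- an integer polynomial as a power series with rational coefficients -/
noncomputable def toQ (P : Polynomial ℤ) : PowerSeries ℚ := ((P.map (Int.castRingHom ℚ) : Polynomial ℚ) : PowerSeries ℚ)

/-- the power series `P(u^e)` -/
noncomputable def atPow (e : ℕ) (P : Polynomial ℤ) : PowerSeries ℂ :=
  ((Polynomial.expand ℂ e (P.map (Int.castRingHom ℂ)) : Polynomial ℂ) : PowerSeries ℂ)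

/-- the matrices `G_s` over `ℤ[x]` with `T^s y^(s) = G_s y` for all solutions `y` of `T y' = A y` -/
noncomputable def iter {r : ℕ} (T : Polynomial ℤ) (A : Fin r → Fin r → Polynomial ℤ) : ℕ → Fin r → Fin r → Polynomial ℤ
  | 0 => fun i j => if i = j then 1 else 0
  | s + 1 => fun i j => T * Polynomial.derivative (iter T A s i j) + ∑ l, iter T A s i l * A l j -
      (s : Polynomial ℤ) * (Polynomial.derivative T * iter T A s i j)

/-- The system `T y' = A y` has a fundamental matrix of solutions of the form `u^(-M) ∑_n Φ_n(u) (log u)^n` with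
`u^e = x` and convergent power series `Φ_n`: the point `0` is an ordinary point or a regular singularity with rational
exponents. -/
def QuasiUnipotent {r : ℕ} (T : Polynomial ℤ) (A : Fin r → Fin r → Polynomial ℤ) : Prop :=
  ∃ (e M : ℕ) (K : ℝ) (Φ : Matrix (Fin r) (Fin r) (Polynomial (PowerSeries ℂ))), 1 ≤ e ∧ Φ.det ≠ 0 ∧
    (∀ i j n m, ‖coeff m ((Φ i j).coeff n)‖ ≤ K ^ (m + 1)) ∧
    ∀ i j n, atPow e T * (X * PowerSeries.derivative ℂ ((Φ i j).coeff n) +
        ((n : PowerSeries ℂ) + 1) * (Φ i j).coeff (n + 1) - (M : PowerSeries ℂ) * (Φ i j).coeff n) =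
      (e : PowerSeries ℂ) * X ^ e * ∑ l, atPow e (A i l) * (Φ l j).coeff n

/-- `h_1, ..., h_r` are G-functions with rational coefficients which solve the differential system `T y' = A y`, with
the conditions of Siegel and Galochkin, and the system is regular with rational exponents at `0`. -/
structure GFamily {r : ℕ} (T : Polynomial ℤ) (A : Fin r → Fin r → Polynomial ℤ) (h : Fin r → PowerSeries ℚ) : Prop where
  /-- the denominator is not zero -/
  T_ne : T ≠ 0
  /-- the differential equations -/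
  ode : ∀ i, toQ T * PowerSeries.derivative ℚ (h i) = ∑ j, toQ (A i j) * h j
  /-- the coefficients have geometric growth -/
  size : ∃ C : ℝ, ∀ i m, |((coeff m (h i) : ℚ) : ℝ)| ≤ C ^ (m + 1)
  /-- the common denominators of the coefficients have geometric growth -/
  den : ∃ C : ℝ, ∀ m : ℕ, ∃ d : ℕ, 0 < d ∧ (d : ℝ) ≤ C ^ (m + 1) ∧ ∀ i, ∀ j ≤ m, ∃ a : ℤ, (d : ℚ) * coeff j (h i) = a
  /-- Galochkin's condition: the common denominators of the matrices `G_s / s!` have geometric growth -/
  galochkin : ∃ C : ℝ, ∀ m : ℕ, ∃ d : ℕ, 0 < d ∧ (d : ℝ) ≤ C ^ (m + 1) ∧ ∀ s ≤ m, ∀ i j,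
    ∃ H : Polynomial ℤ, (d : Polynomial ℤ) * iter T A s i j = (s.factorial : Polynomial ℤ) * H
  /-- the local exponents at `0` are rational and the singularity is regular -/
  regular : QuasiUnipotent T A

section
variable {r n : ℕ}

/-- the quotient `A(h) / B(h)` of formal power series -/
noncomputable def quotient (h : Fin r → PowerSeries ℚ) (A B : MvPolynomial (Fin r) (Polynomial ℚ)) :
    FractionRing (PowerSeries ℚ) :=
  algebraMap (PowerSeries ℚ) (FractionRing (PowerSeries ℚ)) (MvPolynomial.aeval h A) /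
    algebraMap (PowerSeries ℚ) (FractionRing (PowerSeries ℚ)) (MvPolynomial.aeval h B)

/-- `f` is a rational function of `x` -/
def IsRational (f : FractionRing (PowerSeries ℚ)) : Prop :=
  ∃ a b : Polynomial ℚ, b ≠ 0 ∧ f = algebraMap (Polynomial ℚ) (FractionRing (PowerSeries ℚ)) a /
    algebraMap (Polynomial ℚ) (FractionRing (PowerSeries ℚ)) b

/-- The family is connected: every element of the field `ℚ(x, h_1, ..., h_r)` which is algebraic over `ℚ(x)` is in
`ℚ(x)`; the elements of this field are the quotients `A(h) / B(h)`, where `A`, `B` are polynomials over `ℚ[x]`. -/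
def Connected (h : Fin r → PowerSeries ℚ) : Prop := ∀ A B : MvPolynomial (Fin r) (Polynomial ℚ),
  IsAlgebraic (Polynomial ℚ) (quotient h A B) → IsRational (quotient h A B)

/-- the algebraic integers of degree at most `m` all of whose conjugates have absolute value at most `T` -/
def integers (m T : ℕ) : Set ℂ :=
  {α | IsIntegral ℤ α ∧ (minpoly ℚ α).natDegree ≤ m ∧ ∀ z : ℂ, Polynomial.aeval z (minpoly ℚ α) = 0 → ‖z‖ ≤ T}

/-! ### Period matrices and the groups of their functional relations -/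

/-- The period matrix at `x = 1 / α`: the entries are the polynomials `P a b` in a logarithm `ℓ` of `α` and in the
`h_l(1 / α)`. The rows belong to a basis of the rational homology, the columns to a basis of the de Rham cohomology. -/
noncomputable def perMat (h : Fin r → PowerSeries ℚ) (P : Fin n → Fin n → MvPolynomial (Option (Fin r)) ℂ) (α ℓ : ℂ) :
    Matrix (Fin n) (Fin n) ℂ :=
  Matrix.of fun a b => MvPolynomial.eval (fun o : Option (Fin r) => o.elim ℓ
    fun l => ∑' m : ℕ, ((coeff m (h l) : ℚ) : ℂ) * (1 / α) ^ m) (P a b)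

/-- the value at `x = 1 / s` and at the matrix `Z` of a polynomial in the entries of a matrix over `ℂ[x]` -/
noncomputable def relAt (R : MvPolynomial (Fin n × Fin n) (Polynomial ℂ)) (s : ℝ) (Z : Matrix (Fin n) (Fin n) ℂ) : ℂ :=
  MvPolynomial.eval₂ (Polynomial.evalRingHom (1 / (s : ℂ))) (fun v => Z v.1 v.2) R

/-- `g P(x)` satisfies all polynomial relations over `ℂ[x]` which `P(x)` satisfies (for small real `x = 1 / s`, so
identically). -/
def Preserves (h : Fin r → PowerSeries ℚ) (P : Fin n → Fin n → MvPolynomial (Option (Fin r)) ℂ)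
    (g : Matrix (Fin n) (Fin n) ℂ) : Prop :=
  ∀ R : MvPolynomial (Fin n × Fin n) (Polynomial ℂ),
    (∀ᶠ s : ℝ in Filter.atTop, relAt R s (perMat h P s (Real.log s)) = 0) →
    ∀ᶠ s : ℝ in Filter.atTop, relAt R s (g * perMat h P s (Real.log s)) = 0

theorem pres_eq {h : Fin r → PowerSeries ℚ} {P : Fin n → Fin n → MvPolynomial (Option (Fin r)) ℂ}
    {g : Matrix (Fin n) (Fin n) ℂ} : Preserves h P g ↔ Pool.Agent.Y123.GN.Prs h P g := by
  have h1 : ∀ s : ℝ, perMat h P s (Real.log s) = Pool.Agent.Y120.R.pM h P s := by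
    intro s
    ext a b
    exact Q207.AF.pw_real h (fun v : Fin n × Fin n => P v.1 v.2) s (a, b)
  unfold Preserves Pool.Agent.Y123.GN.Prs
  simp only [h1]
  rfl

/-- The group of the matrices `g` such that `g` and `g⁻¹` preserve the relations. If `P` is a fundamental matrix of a linear
differential system over `ℂ(x)` this is its differential Galois group. -/
noncomputable def Gal (h : Fin r → PowerSeries ℚ) (P : Fin n → Fin n → MvPolynomial (Option (Fin r)) ℂ) :
    Subgroup (Matrix.GeneralLinearGroup (Fin n) ℂ) where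
  carrier := {g | Preserves h P (g : Matrix (Fin n) (Fin n) ℂ) ∧
    Preserves h P ((g⁻¹ : Matrix.GeneralLinearGroup (Fin n) ℂ) : Matrix (Fin n) (Fin n) ℂ)}
  mul_mem' := by
    intro g g' hg hg'
    have h1 := (Pool.Agent.Y123.GN.Gs h P).mul_mem' (a := g) (b := g') ⟨pres_eq.1 hg.1, pres_eq.1 hg.2⟩
      ⟨pres_eq.1 hg'.1, pres_eq.1 hg'.2⟩
    exact ⟨pres_eq.2 h1.1, pres_eq.2 h1.2⟩
  one_mem' := by
    have h1 := (Pool.Agent.Y123.GN.Gs h P).one_mem'
    exact ⟨pres_eq.2 h1.1, pres_eq.2 h1.2⟩
  inv_mem' := by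
    intro g hg
    have h1 := (Pool.Agent.Y123.GN.Gs h P).inv_mem' (x := g) ⟨pres_eq.1 hg.1, pres_eq.1 hg.2⟩
    exact ⟨pres_eq.2 h1.1, pres_eq.2 h1.2⟩

theorem gal_eq (h : Fin r → PowerSeries ℚ) (P : Fin n → Fin n → MvPolynomial (Option (Fin r)) ℂ) :
    Gal h P = Pool.Agent.Y123.GN.Gs h P := by
  ext g
  constructor
  · intro hg
    exact ⟨pres_eq.1 hg.1, pres_eq.1 hg.2⟩
  · intro hg
    exact ⟨pres_eq.2 hg.1, pres_eq.2 hg.2⟩

/-- the nilpotent matrices `N` with `exp (t N) ∈ H` for all `t` -/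
def nilpotents (H : Subgroup (Matrix.GeneralLinearGroup (Fin n) ℂ)) : Set (Matrix (Fin n) (Fin n) ℂ) :=
  {N | IsNilpotent N ∧ ∀ t : ℂ, ∃ u ∈ H, (u : Matrix (Fin n) (Fin n) ℂ) = IsNilpotent.exp (t • N)}

/-- the subgroup generated by all unipotent one-parameter groups in `H` -/
def unipotents (H : Subgroup (Matrix.GeneralLinearGroup (Fin n) ℂ)) : Subgroup (Matrix.GeneralLinearGroup (Fin n) ℂ) :=
  Subgroup.closure {u | ∃ N ∈ nilpotents H, ∃ t : ℂ, (u : Matrix (Fin n) (Fin n) ℂ) = IsNilpotent.exp (t • N)}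

/-- the commutator group of the group generated by the unipotent one-parameter groups -/
def known (H : Subgroup (Matrix.GeneralLinearGroup (Fin n) ℂ)) : Subgroup (Matrix.GeneralLinearGroup (Fin n) ℂ) :=
  ⁅unipotents H, unipotents H⁆

/-- the matrices of determinant `1` which respect the form `B`; the special linear group for `B = 0` -/
def special (B : Matrix (Fin n) (Fin n) ℂ) : Subgroup (Matrix.GeneralLinearGroup (Fin n) ℂ) where
  carrier := {g | (g : Matrix (Fin n) (Fin n) ℂ).det = 1 ∧
    (g : Matrix (Fin n) (Fin n) ℂ) * B * (g : Matrix (Fin n) (Fin n) ℂ)ᵀ = B}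
  mul_mem' := fun hg hg' => (Pool.Agent.Y123.GN.GB B).mul_mem' hg hg'
  one_mem' := (Pool.Agent.Y123.GN.GB B).one_mem'
  inv_mem' := fun hg => (Pool.Agent.Y123.GN.GB B).inv_mem' hg

/-- nondegenerate alternating forms -/
def Symplectic (B : Matrix (Fin n) (Fin n) ℂ) : Prop := IsUnit B ∧ Bᵀ = -B

/-- The form is zero, or nondegenerate and alternating, or nondegenerate and symmetric of rank different from `2`. -/
def Classical (B : Matrix (Fin n) (Fin n) ℂ) : Prop := B = 0 ∨ Symplectic B ∨ (IsUnit B ∧ Bᵀ = B ∧ n ≠ 2)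

end

/-! ### Subtorsors -/

/-- `T` is (the set of complex points of) a `K`-subtorsor of `GL_B = Iso (M_dR, M_B)`: it is closed under `x y⁻¹ z`, and
it is defined in `GL_B` by polynomials with coefficients in `K`. -/
def IsSubtorsor (K : Subfield ℂ) {B : Type} [Fintype B] [DecidableEq B] (T : Set (Matrix B B ℂ)) : Prop :=
  (∀ x ∈ T, ∀ y ∈ T, ∀ z ∈ T, x * y⁻¹ * z ∈ T) ∧ ∃ I : Set (MvPolynomial (B × B) K), ∀ x : Matrix B B ℂ, x ∈ T ↔
    IsUnit x ∧ ∀ p ∈ I, MvPolynomial.eval (fun b => x b.1 b.2) (MvPolynomial.map (algebraMap K ℂ) p) = 0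

section
variable {k r q : ℕ} {n : Fin k → ℕ}

/-- the index set of the block matrices -/
abbrev Index (q : ℕ) (n : Fin k → ℕ) : Type := Fin q ⊕ Σ i, Fin (n i)

/-- the block matrix `x ⊕ X_1 ⊕ … ⊕ X_k` -/
noncomputable def total (x : Matrix (Fin q) (Fin q) ℂ) (X : ∀ i, Matrix (Fin (n i)) (Fin (n i)) ℂ) :
    Matrix (Index q n) (Index q n) ℂ :=
  Matrix.fromBlocks x 0 0 (Matrix.blockDiagonal' X)

/-- the isomorphisms `X_i` respect the polarisations `Q_i` (de Rham) and `B_i` (Betti) up to the factors `μ_i` -/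
def Respects (B Q : ∀ i, Matrix (Fin (n i)) (Fin (n i)) ℂ) (μ : Fin k → ℂ)
    (X : ∀ i, Matrix (Fin (n i)) (Fin (n i)) ℂ) : Prop :=
  (∀ i, μ i ≠ 0) ∧ ∀ i, X i * Q i * (X i)ᵀ = μ i • B i

/-- The isomorphisms `z ⊕ … ⊕ z ⊕ X_1 ⊕ … ⊕ X_k` of a `q`-fold sum of the object `ℚ(-1)` and of the `M_i` which respect the
polarisations, with values in `ℚ(-w_i)`, and the identifications of `det M_i` with `ℚ(-m_i)` up to a twist. -/
def torsorOf (q : ℕ) (B Q : ∀ i, Matrix (Fin (n i)) (Fin (n i)) ℂ) (w m : Fin k → ℤ) (δ : Fin k → ℂ) :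
    Set (Matrix (Index q n) (Index q n) ℂ) :=
  {y | ∃ z : ℂ, z ≠ 0 ∧ ∃ X : ∀ i, Matrix (Fin (n i)) (Fin (n i)) ℂ, y = total (z • 1) X ∧
    ∀ i, X i * Q i * (X i)ᵀ = z ^ (w i) • B i ∧ (Symplectic (B i) ∨ (X i).det = δ i * z ^ (m i))}

/-- `T` is stable under the groups `known` of the functional relations. -/
def Stable (h : Fin r → PowerSeries ℚ) (P : ∀ i, Fin (n i) → Fin (n i) → MvPolynomial (Option (Fin r)) ℂ)
    (T : Set (Matrix (Index q n) (Index q n) ℂ)) : Prop :=
  ∀ g : ∀ i, Matrix.GeneralLinearGroup (Fin (n i)) ℂ, (∀ i, g i ∈ known (Gal h (P i))) →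
    ∀ x ∈ T, total 1 (fun i => (g i : Matrix (Fin (n i)) (Fin (n i)) ℂ)) * x ∈ T

/-- Big monodromy: the forms `B_i` are classical and the group of the functional relations of `P_i` contains the group
`special` of `B_i`, for all `i`. -/
def Big (h : Fin r → PowerSeries ℚ) (P : ∀ i, Fin (n i) → Fin (n i) → MvPolynomial (Option (Fin r)) ℂ)
    (B : ∀ i, Matrix (Fin (n i)) (Fin (n i)) ℂ) : Prop :=
  (∀ i, Classical (B i)) ∧ ∀ i, special (B i) ≤ Gal h (P i)

/-- the relative statement: `T` contains with `x_0 ⊕ X` all `x_0 ⊕ Y` with the same multipliers and determinants -/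
def Relative (B : ∀ i, Matrix (Fin (n i)) (Fin (n i)) ℂ) (T : Set (Matrix (Index q n) (Index q n) ℂ)) : Prop :=
  ∀ (Q : ∀ i, Matrix (Fin (n i)) (Fin (n i)) ℂ) (μ : Fin k → ℂ) (x₀ : Matrix (Fin q) (Fin q) ℂ)
    (X Y : ∀ i, Matrix (Fin (n i)) (Fin (n i)) ℂ), Respects B Q μ X → Respects B Q μ Y →
    (∀ i, Symplectic (B i) ∨ (X i).det = (Y i).det) → total x₀ X ∈ T → total x₀ Y ∈ T

/-- the absolute statement: if `T` is contained in a torsor `torsorOf` then it is equal to it -/
def Absolute (B : ∀ i, Matrix (Fin (n i)) (Fin (n i)) ℂ) (T : Set (Matrix (Index q n) (Index q n) ℂ)) : Prop :=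
  ∀ (Q : ∀ i, Matrix (Fin (n i)) (Fin (n i)) ℂ) (w m : Fin k → ℤ) (δ : Fin k → ℂ),
    T ⊆ torsorOf q B Q w m δ → T = torsorOf q B Q w m δ

/-- The conclusion for one tuple `α` of algebraic numbers: for all logarithms `ℓ_i` of the `α_i`, all number fields `K` of
degree at most `D` and all `K`-subtorsors `T` which contain the period matrix `C₀ ⊕ ⨁ P_i(1/α_i)`. -/
def Good (D : ℕ) (C₀ : Matrix (Fin q) (Fin q) ℂ) (h : Fin r → PowerSeries ℚ)
    (P : ∀ i, Fin (n i) → Fin (n i) → MvPolynomial (Option (Fin r)) ℂ) (α : Fin k → ℂ) : Prop :=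
  ∀ ℓ : Fin k → ℂ, (∀ i, Complex.exp (ℓ i) = α i) → ∀ K : Subfield ℂ, FiniteDimensional ℚ K → Module.finrank ℚ K ≤ D →
  ∀ T : Set (Matrix (Index q n) (Index q n) ℂ), IsSubtorsor K T →
    total C₀ (fun i => perMat h (P i) (α i) (ℓ i)) ∈ T →
  -- 1: stability
  Stable h P T ∧
  -- 2: big monodromy, relative case
  (∀ B, Big h P B → Relative B T) ∧
  -- 3: big monodromy, absolute case
  (0 < q → C₀ = (2 * Real.pi * Complex.I : ℂ) • 1 → ∀ B, Big h P B → Absolute B T)

theorem good_of {D : ℕ} {C₀ : Matrix (Fin q) (Fin q) ℂ} {h : Fin r → PowerSeries ℚ}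
    {P : ∀ i, Fin (n i) → Fin (n i) → MvPolynomial (Option (Fin r)) ℂ} {α : Fin k → ℂ}
    (hg : ∀ ℓ : Fin k → ℂ, (∀ i, Complex.exp (ℓ i) = α i) →
      Q207.AF.GoodZ D C₀ (fun i => Pool.Agent.Y123.GN.Gs h (P i)) fun i => Q207.AF.zM h (P i) (α i) (ℓ i)) :
    Good D C₀ h P α := by
  intro ℓ hℓ K hKf hKD T hT hcT
  have hT' := Pool.Agent.Y123.ST.subT_iff.1 hT
  have h1 := hg ℓ hℓ K hKf hKD T hT' hcT
  have hKalg : ∀ x ∈ K, IsAlgebraic ℚ x := by
    intro x hx
    have : NumberField K := { to_charZero := inferInstance, to_finiteDimensional := hKf }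
    have h6 : IsAlgebraic ℚ (⟨x, hx⟩ : K) := Algebra.IsAlgebraic.isAlgebraic _
    exact h6.algebraMap (A := ℂ)
  have h2 : ∀ B : ∀ i, Matrix (Fin (n i)) (Fin (n i)) ℂ, Big h P B →
      ∀ g : ∀ i, (Matrix (Fin (n i)) (Fin (n i)) ℂ)ˣ, (∀ i, g i ∈ Pool.Agent.Y123.GN.GB (B i)) →
      ∀ x ∈ T, Pool.Agent.Y123.GN.EG 1 (fun i => (g i : Matrix (Fin (n i)) (Fin (n i)) ℂ)) * x ∈ T := by
    intro B hB g hgB x hx
    refine h1 g (fun i => ?_) x hx
    have h3 : Pool.Agent.Y123.GN.GB (B i) ≤ Pool.Agent.Y123.GN.Gs h (P i) := by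
      rw [← gal_eq]
      exact hB.2 i
    exact Pool.Agent.Y123.GN.mono_comm h3 (Pool.Agent.Y123.GN.cl_perf (hB.1 i)) (hgB i)
  refine ⟨?_, ?_, ?_⟩
  · intro g hg' x hx
    refine h1 g (fun i => ?_) x hx
    have h3 := hg' i
    rw [gal_eq] at h3
    exact h3
  · intro B hB Q μ x₀ X Y hX hY hd hx
    exact Pool.Agent.Y123.GN.fibre_full hT' (h2 B hB) hX.1 hx hX.2 hY.2 hd
  · intro hq hC₀ B hB Q w m δ hTF
    have hne : Nonempty (Fin q) := ⟨⟨0, hq⟩⟩
    rw [hC₀] at hcT
    exact Pool.Agent.Y123.GN.absolute hKalg hT' hcT (h2 B hB) hTF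

end

theorem iter_eq {r : ℕ} (T : Polynomial ℤ) (A : Fin r → Fin r → Polynomial ℤ) (s : ℕ) :
    iter T A s = Pool.Agent.Y120.GH.itm T A s := by
  induction s with
  | zero => rfl
  | succ s ih =>
    funext i j
    rw [iter, Pool.Agent.Y120.GH.itm, ih]

theorem qu_eq {r : ℕ} {T : Polynomial ℤ} {A : Fin r → Fin r → Polynomial ℤ} (h : QuasiUnipotent T A) :
    Pool.Agent.Y120.GH.QU0 T A := by
  obtain ⟨e, M, K, Φ, he, hdet, hc, heq⟩ := h
  have he0 : e ≠ 0 := by omega
  refine ⟨e, he0, M, K, Φ, hc, fun i j n => ?_, hdet⟩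
  have h1 := heq i j n
  simp only [atPow] at h1
  rw [Pool.Agent.Y120.GH.expand_poly he0]
  simp only [Pool.Agent.Y120.GH.expand_poly he0]
  exact h1

theorem GFamily.fam {r : ℕ} {T : Polynomial ℤ} {A : Fin r → Fin r → Polynomial ℤ} {h : Fin r → PowerSeries ℚ}
    (hG : GFamily T A h) : Pool.Agent.Y916.Af.GFam T A h := by
  refine ⟨hG.T_ne, hG.ode, hG.size, hG.den, ?_, qu_eq hG.regular⟩
  obtain ⟨C, hC⟩ := hG.galochkin
  refine ⟨C, fun m => ?_⟩
  obtain ⟨d, h1, h2, h3⟩ := hC m
  refine ⟨d, h1, h2, fun s hs i' j' => ?_⟩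
  rw [← iter_eq]
  exact h3 s hs i' j'

/-- **The theorem.** -/
theorem result (k e q m r : ℕ) (hm : 1 ≤ m) (n : Fin k → ℕ) (T₀ : Polynomial ℤ) (A : Fin r → Fin r → Polynomial ℤ)
    (h : Fin r → PowerSeries ℚ) (hG : GFamily T₀ A h) (hc : Connected h) :
    -- number fields of degree at most `D`
    (∀ D : ℕ, ∃ c C : ℝ, 0 < c ∧ ∀ P : ∀ i, Fin (n i) → Fin (n i) → MvPolynomial (Option (Fin r)) ℂ,
      (∀ i a b, (P i a b).totalDegree ≤ e) → ∃ B : Set ℂ, B.Finite ∧ ∀ (C₀ : Matrix (Fin q) (Fin q) ℂ) (T : ℕ), 1 ≤ T →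
      ({α : Fin k → ℂ | (∀ i, α i ∈ integers m T ∧ α i ∉ B) ∧ ¬ Good D C₀ h P α}.ncard : ℝ) ≤
        C * (T : ℝ) ^ (-c) * ((integers m T).ncard : ℝ) ^ k) ∧
    -- number fields of degree at most `D T`, which tends to infinity
    ∀ P : ∀ i, Fin (n i) → Fin (n i) → MvPolynomial (Option (Fin r)) ℂ, (∀ i a b, (P i a b).totalDegree ≤ e) →
      ∃ (D : ℕ → ℕ) (ε : ℕ → ℝ), Tendsto D atTop atTop ∧ Tendsto ε atTop (nhds 0) ∧
        ∀ (C₀ : Matrix (Fin q) (Fin q) ℂ) (T : ℕ), 1 ≤ T →
        ({α : Fin k → ℂ | (∀ i, α i ∈ integers m T) ∧ ¬ Good (D T) C₀ h P α}.ncard : ℝ) ≤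
          ε T * ((integers m T).ncard : ℝ) ^ k := by
  classical
  have hmain : ∀ D : ℕ, ∃ c C : ℝ, 0 < c ∧ ∀ P : ∀ i, Fin (n i) → Fin (n i) → MvPolynomial (Option (Fin r)) ℂ,
      (∀ i a b, (P i a b).totalDegree ≤ e) → ∃ B : Set ℂ, B.Finite ∧ ∀ (C₀ : Matrix (Fin q) (Fin q) ℂ) (T : ℕ), 1 ≤ T →
      ({α : Fin k → ℂ | (∀ i, α i ∈ integers m T ∧ α i ∉ B) ∧ ¬ Good D C₀ h P α}.ncard : ℝ) ≤
        C * (T : ℝ) ^ (-c) * ((integers m T).ncard : ℝ) ^ k := by
    intro D
    obtain ⟨c, hc0, C, hC0, hmain⟩ := Q207.AF.tors_alg (n := n) hG.fam hc m hm D e q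
    refine ⟨c, C, hc0, fun P hP => ?_⟩
    obtain ⟨B, hBf, hB⟩ := hmain P hP
    refine ⟨B, hBf, fun C₀ T hT => le_trans ?_ (hB C₀ T hT)⟩
    refine Nat.cast_le.2 (Set.ncard_le_ncard ?_ ?_)
    · rintro α ⟨h1, h2⟩
      exact ⟨h1, fun h3 => h2 (good_of h3)⟩
    · refine (Set.Finite.pi (fun _ : Fin k => Pool.Agent.Y916.Sl.sint_fin m T)).subset ?_
      intro α hα i _
      exact (hα.1 i).1
  refine ⟨hmain, fun P hP => ?_⟩
  refine Q207.AF.grow m hm k (fun D (C₀ : Matrix (Fin q) (Fin q) ℂ) α => Good D C₀ h P α) fun D => ?_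
  obtain ⟨c, C, hc0, h1⟩ := hmain D
  obtain ⟨B, hBf, h2⟩ := h1 P hP
  exact ⟨c, C, hc0, B, hBf, h2⟩

end Pool.Agent.Results.MP_caab05_ag.TorsorsOverNumberFields
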