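import Pool.Agent.Q57.PH.Law

/-!
# A zero-one law for the linear relations among the periods of the powers of a variety

Let `X` be an irreducible smooth projective variety over `K = ℚ̄`, let `β ∈ GL_N(ℂ)` be its period
matrix, and let `G` be the motivic Galois group of `X`. The periods of `X ^ n` are the entries of
`β^{⊗ n}`, that is, the products of `n` entries of `β`; they are the values at `β` of the formal
periods, the products of `n` matrix entries on the torsor of periods, which is a translate `G g₀` as `K`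
is algebraically closed. Let `p n` be the dimension of the `K`-span of the periods of `X ^ n` and `r n`
the dimension of the `K`-span of the formal periods of `X ^ n`. Let `c` be the number of the components
of `G`.

* If Grothendieck's conjecture `trdeg K(β) = dim G` holds for `X`, then `p n / r n` tends to `1 / c`.
* If the conjecture fails for `X`, then `p n / r n ≤ C / n` for some constant `C` and all `n ≥ 1`.

So the conjecture holds for `X` as soon as `p n ≥ δ * r n` for some `δ > 0` and infinitely many `n`, and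
the strong form of the conjecture holds as soon as `p n ≥ δ * r n` for some `δ > 1 / 2` and infinitely
many `n`.
-/

set_option autoImplicit false

open MvPolynomial Filter Topology

namespace Pool.Agent.Results.MP_caab05_ag.ZeroOneLaw

/-- A complex matrix `β` with a torsor of periods: a translate `G g₀` of a group of matrices over a field
`K` such that every polynomial over `K` which vanishes on `G g₀` vanishes at `β`. One entry is constant
equal to one on `G g₀` (the period of the class `1` in degree zero). -/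
structure PeriodMatrix (K : Type) [Field K] [Algebra K ℂ] (N : ℕ) where
  /-- the group of the `K`-points of the motivic Galois group -/
  G : Subgroup (GL (Fin N) K)
  /-- a `K`-point of the torsor of periods -/
  g₀ : GL (Fin N) K
  /-- the matrix of periods -/
  β : Matrix (Fin N) (Fin N) ℂ
  /-- `β` is a complex point of the torsor of periods -/
  mem_torsor : ∀ P : MvPolynomial (Fin N × Fin N) K,
    (∀ g ∈ G, eval (fun e => (g * g₀).val e.1 e.2) P = 0) → aeval (fun e => β e.1 e.2) P = 0
  /-- one entry is equal to one -/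
  one_entry : ∃ e : Fin N × Fin N, ∀ g ∈ G, (g * g₀).val e.1 e.2 = 1

namespace PeriodMatrix

variable {K : Type} [Field K] [Algebra K ℂ] {N : ℕ} (M : PeriodMatrix K N)

/-- The dimension of the `K`-span of the periods of `X ^ n`, the products of `n` entries of `β`. -/
noncomputable def p (n : ℕ) : ℕ :=
  Module.finrank K (Submodule.span K (Set.range fun w : Fin n → Fin N × Fin N =>
    ∏ k, M.β (w k).1 (w k).2))

/-- The dimension of the `K`-span of the formal periods of `X ^ n`: the functions on the torsor of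
periods `{g g₀ | g ∈ G}` which are products of `n` matrix entries. -/
noncomputable def r (n : ℕ) : ℕ :=
  Module.finrank K (Submodule.span K (Set.range fun w : Fin n → Fin N × Fin N =>
    fun g : M.G => ∏ k, (g.1 * M.g₀).val (w k).1 (w k).2))

/-- The algebra of the polynomial functions on `G`. -/
noncomputable def functions : Subalgebra K (M.G → K) :=
  Algebra.adjoin K (Set.range fun e : Fin N × Fin N => fun g : M.G => g.1.val e.1 e.2)

/-- The number of the irreducible components of `G`. -/
noncomputable def c : ℕ := (minimalPrimes M.functions).ncard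

/-- Grothendieck's conjecture: the transcendence degree of the field generated by the entries of `β` is the
dimension of `G`, the transcendence degree of the algebra of the polynomial functions on `G`. -/
def PeriodConjecture : Prop :=
  Algebra.trdeg K (IntermediateField.adjoin K (Set.range fun e : Fin N × Fin N => M.β e.1 e.2)) =
    Algebra.trdeg K M.functions

/-- The strong form: every polynomial over `K` which vanishes at `β` vanishes on the torsor of periods. -/
def StrongForm : Prop :=
  ∀ P : MvPolynomial (Fin N × Fin N) K, aeval (fun e => M.β e.1 e.2) P = 0 →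
    ∀ g ∈ M.G, eval (fun e => (g * M.g₀).val e.1 e.2) P = 0

section Lemmas

open Pool.Agent.Q57.PH

/-- the entries of `β` -/
def b (e : Fin N × Fin N) : ℂ := M.β e.1 e.2

theorem vI_le : vI (pts M.G M.g₀) ≤ RingHom.ker (aeval (R := K) M.b) := by
  intro P hP
  rw [mem_vI] at hP
  rw [RingHom.mem_ker]
  exact M.mem_torsor P fun g hg => hP _ ⟨g, hg, rfl⟩

theorem p_eq (n : ℕ) : M.p n = hf K M.b n := by
  obtain ⟨e, he⟩ := M.one_entry
  have h1 : M.b e = 1 := by
    have h2 := M.mem_torsor (X e - 1) fun g hg => by rw [map_sub, eval_X, map_one, he g hg, sub_self]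
    rw [map_sub, aeval_X, map_one, sub_eq_zero] at h2
    exact h2
  unfold p hf
  rw [← span_prod (K := K) M.b e h1 n]
  rfl

theorem r_eq (n : ℕ) : M.r n = hf K (xT (pts M.G M.g₀)) n := by
  obtain ⟨e, he⟩ := M.one_entry
  have h1 : tr M.G M.g₀ e = 1 := by
    funext g
    exact he g.1 g.2
  have h2 : M.r n = hf K (tr M.G M.g₀) n := by
    have h3 : (fun w : Fin n → Fin N × Fin N => fun g : M.G => ∏ k, (g.1 * M.g₀).val (w k).1 (w k).2) =
        fun w => ∏ k, tr M.G M.g₀ (w k) := by
      funext w g
      rw [Finset.prod_apply]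
      rfl
    unfold r hf
    rw [← span_prod (K := K) (tr M.G M.g₀) e h1 n, h3]
  rw [h2]
  refine hf_eq_of_ker _ _ (fun P => ?_) n
  rw [← RingHom.mem_ker, ← RingHom.mem_ker, ker_tr]
  rfl

theorem trdeg_eq : Algebra.trdeg K M.functions = Algebra.trdeg K (MvPolynomial (Fin N × Fin N) K ⧸
    vI (pts M.G M.g₀)) := (trdeg_congr (ringEquiv M.G M.g₀)).symm

theorem c_eq : M.c = (comps (pts M.G M.g₀)).card := ncard_comps M.G M.g₀

theorem strong_eq : M.StrongForm ↔ RingHom.ker (aeval (R := K) M.b) = vI (pts M.G M.g₀) := by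
  constructor
  · intro h
    refine le_antisymm (fun P hP => ?_) M.vI_le
    rw [mem_vI]
    rintro _ ⟨g, hg, rfl⟩
    exact h P hP g hg
  · intro h P hP g hg
    have h1 : P ∈ RingHom.ker (aeval (R := K) M.b) := hP
    rw [h, mem_vI] at h1
    exact h1 _ ⟨g, hg, rfl⟩

theorem r_pos (n : ℕ) : 0 < M.r n := by
  rw [M.r_eq]
  have h : (pts M.G M.g₀).Nonempty := ⟨ent (1 * M.g₀ : GL (Fin N) K).val, 1, M.G.one_mem, rfl⟩
  exact hf_xT_pos h n

theorem c_pos : 0 < M.c := by
  rw [M.c_eq]
  obtain ⟨Q, hQ, -⟩ := exists_comp M.b M.vI_le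
  exact Finset.card_pos.2 ⟨Q, hQ⟩

theorem dense (h : M.PeriodConjecture) :
    Tendsto (fun n => (M.p n : ℝ) / M.r n) atTop (𝓝 (1 / M.c)) := by
  unfold PeriodConjecture at h
  rw [M.trdeg_eq] at h
  simp only [M.p_eq, M.r_eq, M.c_eq]
  exact dense_case (homog M.G M.g₀) M.b M.vI_le h

theorem sparse (h : ¬ M.PeriodConjecture) :
    ∃ C : ℝ, ∀ n : ℕ, 1 ≤ n → (M.p n : ℝ) / M.r n ≤ C / n := by
  unfold PeriodConjecture at h
  rw [M.trdeg_eq] at h
  obtain ⟨C, -, hC⟩ := sparse_case (homog M.G M.g₀) M.b M.vI_le h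
  refine ⟨C, fun n hn => ?_⟩
  rw [div_le_iff₀ (by exact_mod_cast M.r_pos n)]
  simp only [M.p_eq, M.r_eq]
  exact hC n hn

theorem sparse_limit (h : ¬ M.PeriodConjecture) :
    Tendsto (fun n => (M.p n : ℝ) / M.r n) atTop (𝓝 0) := by
  obtain ⟨C, hC⟩ := M.sparse h
  have h1 : Tendsto (fun n : ℕ => C / (n : ℝ)) atTop (𝓝 0) := tendsto_const_div_atTop_nhds_zero_nat C
  refine tendsto_of_tendsto_of_tendsto_of_le_of_le' tendsto_const_nhds h1
    (Eventually.of_forall fun n => by positivity) ?_
  filter_upwards [eventually_ge_atTop 1] with n hn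
  exact hC n hn

theorem strong_iff_one : M.StrongForm ↔ M.PeriodConjecture ∧ M.c = 1 := by
  rw [M.strong_eq, strong_iff (homog M.G M.g₀) M.b M.vI_le, ← M.trdeg_eq, ← M.c_eq]
  rfl

theorem of_frequently {δ : ℝ} (hδ : 0 < δ) (h : ∃ᶠ n in atTop, δ * M.r n ≤ M.p n) :
    M.PeriodConjecture ∧ δ ≤ 1 / M.c := by
  have h1 : ∃ᶠ n in atTop, δ ≤ (M.p n : ℝ) / M.r n := by
    refine h.mono fun n hn => ?_
    rwa [le_div_iff₀ (by exact_mod_cast M.r_pos n)]
  have hP : M.PeriodConjecture := by
    by_contra hcon
    have h2 := (M.sparse_limit hcon).eventually_lt_const hδ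
    obtain ⟨n, h3, h4⟩ := (h1.and_eventually h2).exists
    linarith
  refine ⟨hP, ?_⟩
  by_contra hcon
  push Not at hcon
  have h2 := (M.dense hP).eventually_lt_const hcon
  obtain ⟨n, h3, h4⟩ := (h1.and_eventually h2).exists
  linarith

end Lemmas

end PeriodMatrix

/-- **Zero-one law for the periods of the powers of a variety.** -/
theorem result {K : Type} [Field K] [Algebra K ℂ] {N : ℕ} (M : PeriodMatrix K N) :
    (M.PeriodConjecture → Tendsto (fun n => (M.p n : ℝ) / M.r n) atTop (𝓝 (1 / M.c))) ∧
    (¬ M.PeriodConjecture → ∃ C : ℝ, ∀ n : ℕ, 1 ≤ n → (M.p n : ℝ) / M.r n ≤ C / n) ∧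
    (M.PeriodConjecture ↔ ∃ δ : ℝ, 0 < δ ∧ ∃ᶠ n in atTop, δ * M.r n ≤ M.p n) ∧
    (M.StrongForm ↔ ∃ δ : ℝ, 1 / 2 < δ ∧ ∃ᶠ n in atTop, δ * M.r n ≤ M.p n) ∧
    (M.StrongForm ↔ M.PeriodConjecture ∧ M.c = 1) := by
  have key : ∀ δ : ℝ, δ < 1 / M.c → M.PeriodConjecture → ∃ᶠ n in atTop, δ * M.r n ≤ M.p n := by
    intro δ hδ hP
    refine ((M.dense hP).eventually_const_lt hδ).frequently.mono fun n hn => ?_
    rw [lt_div_iff₀ (by exact_mod_cast M.r_pos n)] at hn
    exact hn.le
  have hc : (0 : ℝ) < M.c := by exact_mod_cast M.c_pos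
  refine ⟨M.dense, M.sparse, ⟨fun h => ?_, ?_⟩, ⟨fun h => ?_, ?_⟩, M.strong_iff_one⟩
  · refine ⟨1 / (2 * M.c), by positivity, key _ ?_ h⟩
    exact one_div_lt_one_div_of_lt hc (by linarith)
  · rintro ⟨δ, hδ, h⟩
    exact (M.of_frequently hδ h).1
  · obtain ⟨h1, h2⟩ := M.strong_iff_one.1 h
    refine ⟨3 / 4, by norm_num, key _ ?_ h1⟩
    rw [h2]
    norm_num
  · rintro ⟨δ, hδ, h⟩
    obtain ⟨h1, h2⟩ := M.of_frequently (by linarith) h
    rw [M.strong_iff_one]
    refine ⟨h1, ?_⟩
    by_contra hne
    have h3 : 2 ≤ M.c := by have := M.c_pos; omega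
    have h4 : (2 : ℝ) ≤ M.c := by exact_mod_cast h3
    have h5 : 1 / (M.c : ℝ) ≤ 1 / 2 := one_div_le_one_div_of_le (by norm_num) h4
    linarith

end Pool.Agent.Results.MP_caab05_ag.ZeroOneLaw
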