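import Pool.Agent.Q50.MS.Main

/-!
# Traces mod p at more than seven eighths of the places decide modularity

Let `ρ`, `σ` be representations of dimension `n ≥ 1` of a finite group `G` over any field, `ρ` absolutely
irreducible. If their traces differ on less than `|G| / (2 n ^ 2)` elements, they are isomorphic. No
hypothesis on the characteristic is made, and `σ` is arbitrary.

Consequences for the weak Serre conjecture over totally real fields: an irreducible representation mod
`p` is modular if and only if some Hilbert eigenform has the same traces mod `p` for a set of places of
upper density greater than `7/8`; for totally odd representations with non-solvable image it is enough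
to find the eigenform over the end of a tower of cyclic totally real extensions; and the
conjecture for `p` holds for all totally real fields if and only if such eigenforms exist for the
representations, over fields containing a given solvable totally real field, which are unramified
everywhere, trivial on the decomposition groups above `p` and have cyclotomic determinant.
-/

set_option autoImplicit false
set_option linter.ambiguousOpen false

universe u

namespace Pool.Agent.Results.MP_cab3fc_nt.SevenEighthsOfThePlaces

open Pool.Agent.Q50.ES Pool.Agent.Q50.ES.MS NumberField

/-- **Traces at most places.** (0) Two representations of dimension `n` of a finite group over any field,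
one of them absolutely irreducible, whose traces differ on less than `|G| / (2 n ^ 2)` elements are
isomorphic. (1) An irreducible representation mod `p` over a totally real field is modular if and only if
an eigenform over the field has the same traces at places of upper density greater than `7/8`. (2) A
totally odd irreducible representation with non-solvable image is modular if and only if this holds
over the end of some tower. (3) For every solvable totally real `M₀`: all totally odd irreducible
representations are modular if and only if those over fields containing `M₀`, with non-solvable
image, unramified, trivial above `p` and with cyclotomic determinant have the property in (2). -/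
theorem result {k : Type u} [Field k] (T : MS.Data k) (hT : T.Facts) :
    MostTracesDecide k ∧
    (∀ (F : Fld) (r : Mod k F), Irreducible r → (T.Modular r ↔ T.Matched F r)) ∧
    (∀ F, TotallyReal F → ∀ r : Mod k F, Good r → ¬ T.Solvable r →
      (T.Modular r ↔ ∃ L, GM.Tower F L ∧ T.Matched L r)) ∧
    ∀ M₀, TotallyReal M₀ → SolvableGalois M₀ →
      ((∀ F, TotallyReal F → ∀ r : Mod k F, Good r → T.Modular r) ↔
        ∀ F, TotallyReal F → M₀ ≤ F → ∀ r : Mod k F, Good r → ¬ T.Solvable r → T.Simple r →
          ∃ L, GM.Tower F L ∧ T.Matched L r) :=
  ⟨mostTracesDecide k, fun _ r hr => MS.Data.modular_iff hT r hr,
    fun _ hF r hr hs => MS.Data.modular_iff_tower hT hF r hr hs,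
    fun _ hM hG => MS.Data.all_iff hT hM hG⟩

end Pool.Agent.Results.MP_cab3fc_nt.SevenEighthsOfThePlaces
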