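import Pool.Agent.Q127.Surf.Final

/-!
# Locally planar even-faced graphs on orientable surfaces are 4-list colourable
(MP_caf32e_co, Q1)

The definitions are in `Pool.Agent.Q127.Surf.Defs`. The proof gives `N = 82 g + 4`.
-/

set_option autoImplicit false

namespace Pool.Agent.Results.MP_caf32e_co.FourListLocallyPlanar

open Q127.Surf

/-- For every `g` there is `N` such that every finite graph embedded in the closed orientable
surface of genus `g` with all faces of even length and all noncontractible cycles of length at
least `N` is 4-list colourable. -/
theorem result (g : ℕ) : ∃ N : ℕ, ∀ (V : Type) [Fintype V] (G : SimpleGraph V)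
    (σ : Equiv.Perm G.Dart), IsRotation G σ → GenusAtMost G σ g → EvenFaced G σ →
    (∀ (u : V) (p : G.Walk u u), p.IsCycle → ¬ Contractible G σ p → N ≤ p.length) →
    ListColourable G 4 :=
  ⟨82 * g + 4, fun _ _ _ _ hσ hg heven hcontr => main hσ g hg heven hcontr⟩

end Pool.Agent.Results.MP_caf32e_co.FourListLocallyPlanar
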