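import Pool.Agent.Q285.WEM.Main

/-!
# Lichtenbaum's conjecture and the middle weight of rational varieties

`Bl X N` is the blow-up of the projective space of dimension `2N` along a smooth projective variety
`X`. Finite generation of the Weil-etale motivic cohomology of all smooth projective varieties over
finite fields in all weights is equivalent to the comparison isomorphisms `K^N(Bl X N)` (equivalently,
to `L^N(Bl X N)`), in the middle weight `N` only, with one `N > dim X` for each `X`; and for every
infinite set `S` and every `c` to these statements for `N` in `S` and `X` of dimension less than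
`N - c`.
-/

namespace Pool.Agent.Results.MP_cb388a_ag.MiddleWeight

open Pool.Agent.Q285.WEM

universe u

theorem result (T : WeilEtale.{u}) (hT : IsWeilEtale T) :
    (Lichtenbaum T ↔ ∀ X : T.Var, ∃ N, T.N0 X ≤ N ∧ T.dim X < N ∧ K T (T.Bl X N) N) ∧
    (Lichtenbaum T ↔ ∀ X : T.Var, ∃ N, T.N0 X ≤ N ∧ T.dim X < N ∧ L T (T.Bl X N) N) ∧
    ∀ (S : Set ℕ), S.Infinite → ∀ c : ℕ, (Lichtenbaum T ↔ ∀ N ∈ S, ∀ X : T.Var, T.N0 X ≤ N →
      T.dim X + c < N → K T (T.Bl X N) N) :=
  middle_weight hT

end Pool.Agent.Results.MP_cb388a_ag.MiddleWeight
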