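import Pool.Agent.Y840.CT.GenF
import Pool.Agent.Q253.Thin.Int

/-!
# Sieve windows filled with almost primes, one prime and one product of two primes

For all `k`, `m` and every two of the `h_m(k)` integers of `(m, m + k]` without prime factors `≤ k` there are at least
`c X / (log X) ^ (h_m(k))` (the conjectured order) translates `(x, x + k]` of the window in which the first one becomes a prime, the second
one a prime or a product of two primes, the others almost primes, while all other integers of `(x, x + k]` have a prime factor `≤ k`; and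
every dense set of these `x` contains narrow progressions.

Libraries (starting files): `Y840.CT.genF` (Chen's theorem with classes depending on the prime modulus), `Q253.Thin.VZ_low`.
-/

set_option autoImplicit false

namespace Pool.Agent.Results.MP_cbf366_nt.ChenWindows

open Finset Filter
open Pool.Agent.Y840.CT (SysF GoodF VF genF rho Rough)
open Pool.Agent.Q253.Thin (SysZ VZ_low)
open Pool.Agent.Y843.HS (Pr VV Pr_mem Pr_prime)

/-- the `1 ≤ h ≤ k` for which `m + h` has no prime factor `≤ k` -/
def offsets (m k : ℕ) : Finset ℕ := (Icc 1 k).filter (fun h => ∀ p ∈ (Icc 1 k).filter Nat.Prime, ¬ p ∣ m + h)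

/-- `h_m(k)`: the number of the integers of `(m, m + k]` without prime factors `≤ k` -/
def hcount (m k : ℕ) : ℕ := (offsets m k).card

open Classical in
/-- the `x` of `(A, B]`, congruent to `m` modulo all primes `≤ k`, for which the integers of `(x, x + k]` without prime factors `≤ X ^ (1/t)`
are exactly the `x + h`, `h ∈ offsets m k`, and of these `x + a` is a prime and `x + b` has at most two prime factors, all `> X ^ (1/9)` -/
noncomputable def windows (m k a b t X A B : ℕ) : Finset ℕ :=
  (Ioc A B).filter (fun x => (∀ p : ℕ, p.Prime → p ≤ k → x ≡ m [MOD p]) ∧ (x + a).Prime ∧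
    ((x + b).primeFactorsList.length ≤ 2 ∧ ∀ q : ℕ, q.Prime → q ∣ x + b → (X : ℝ) ^ (1 / 9 : ℝ) < q) ∧
    ∀ n : ℕ, x < n → n ≤ x + k → ((∀ p : ℕ, p.Prime → (p : ℝ) ≤ (X : ℝ) ^ (1 / (t : ℝ)) → ¬ p ∣ n) ↔ n - x ∈ offsets m k))

lemma mem_offsets {m k h : ℕ} : h ∈ offsets m k ↔ (1 ≤ h ∧ h ≤ k) ∧ ∀ p : ℕ, p.Prime → p ≤ k → ¬ p ∣ m + h := by
  unfold offsets
  rw [mem_filter, mem_Icc]
  refine and_congr_right fun _ => ?_
  constructor
  · intro h1 p hp hpk
    exact h1 p (mem_filter.2 ⟨mem_Icc.2 ⟨hp.one_le, hpk⟩, hp⟩)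
  · intro h1 p hp
    rw [mem_filter, mem_Icc] at hp
    exact h1 p hp.2 hp.1.2

/-- the forbidden classes for `p = x + a` -/
def FF (m k a b q : ℕ) : Finset ℤ :=
  if q ≤ k then insert ((a : ℤ) - b) (((range q).erase ((m + a) % q)).image (fun c : ℕ => (c : ℤ)))
  else ((offsets m k).erase a).image (fun h : ℕ => (a : ℤ) - h)

lemma hcount_le (m k : ℕ) : hcount m k ≤ k := by
  unfold hcount offsets
  refine (card_filter_le _ _).trans ?_
  rw [Nat.card_Icc]
  omega

lemma FF_card {m k a b : ℕ} (ha : a ∈ offsets m k) (q : ℕ) (hq : q.Prime) : (FF m k a b q).card ≤ k := by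
  unfold FF
  split_ifs with h
  · refine (card_insert_le _ _).trans ?_
    have h1 : (((range q).erase ((m + a) % q)).image (fun c : ℕ => (c : ℤ))).card ≤ q - 1 := by
      refine card_image_le.trans ?_
      rw [card_erase_of_mem (mem_range.2 (Nat.mod_lt _ hq.pos)), card_range]
    have := hq.one_le
    omega
  · refine card_image_le.trans ?_
    rw [card_erase_of_mem ha]
    have := hcount_le m k
    unfold hcount at this
    omega

lemma FF_mem {m k a b : ℕ} (hb : b ∈ offsets m k) (hab : a ≠ b) (q : ℕ) : ((a : ℤ) - b) ∈ FF m k a b q := by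
  unfold FF
  split_ifs with h
  · exact mem_insert_self _ _
  · rw [mem_image]
    exact ⟨b, mem_erase.2 ⟨hab.symm, hb⟩, rfl⟩

lemma rho_small {m k a b : ℕ} (ha : a ∈ offsets m k) (hb : b ∈ offsets m k) (q : ℕ) (hq : q.Prime) (hqk : q ≤ k) :
    rho (FF m k a b q) q ≤ q - 1 := by
  have hq0 : (0 : ℤ) < q := by exact_mod_cast hq.pos
  unfold rho
  have h1 : (insert 0 (FF m k a b q)).image (fun h : ℤ => h % q) ⊆
      ((range q).erase ((m + a) % q)).image (fun c : ℕ => (c : ℤ)) := by
    intro z hz
    rw [mem_image] at hz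
    obtain ⟨h, hh, rfl⟩ := hz
    rw [mem_image]
    have h2 := Int.emod_nonneg h hq0.ne'
    have h3 := Int.emod_lt_of_pos h hq0
    refine ⟨(h % q).toNat, ?_, Int.toNat_of_nonneg h2⟩
    rw [mem_erase, mem_range]
    refine ⟨?_, by omega⟩
    intro hcon
    -- the class of m + a
    have h4 : h % q = (((m + a) % q : ℕ) : ℤ) := by
      rw [← hcon, Int.toNat_of_nonneg h2]
    push_cast at h4
    have h5 : h ≡ (m : ℤ) + a [ZMOD q] := h4
    rw [mem_insert] at hh
    rcases hh with hh | hh
    · rw [hh] at h5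
      have h6 : (q : ℤ) ∣ (m : ℤ) + a := by
        have := Int.modEq_iff_dvd.1 h5
        simpa using this
      exact (mem_offsets.1 ha).2 q hq hqk (by exact_mod_cast h6)
    · unfold FF at hh
      rw [if_pos hqk, mem_insert, mem_image] at hh
      rcases hh with hh | ⟨c, hc, hh⟩
      · rw [hh] at h5
        have h6 : (q : ℤ) ∣ (m : ℤ) + b := by
          have := Int.modEq_iff_dvd.1 h5
          have e : (m : ℤ) + a - (a - b) = m + b := by ring
          rwa [e] at this
        exact (mem_offsets.1 hb).2 q hq hqk (by exact_mod_cast h6)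
      · rw [mem_erase, mem_range] at hc
        apply hc.1
        rw [← hh] at h5
        have h6 : (c : ℕ) ≡ m + a [MOD q] := by
          have : ((c : ℕ) : ℤ) ≡ ((m + a : ℕ) : ℤ) [ZMOD q] := by
            push_cast
            exact h5
          exact (Int.natCast_modEq_iff).1 this
        unfold Nat.ModEq at h6
        rwa [Nat.mod_eq_of_lt hc.2] at h6
  refine (card_le_card h1).trans (card_image_le.trans ?_)
  rw [card_erase_of_mem (mem_range.2 (Nat.mod_lt _ hq.pos)), card_range]

lemma rho_large {m k a b : ℕ} (ha : a ∈ offsets m k) (q : ℕ) (hqk : ¬ q ≤ k) :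
    rho (FF m k a b q) q ≤ hcount m k := by
  unfold rho
  refine card_image_le.trans ((card_insert_le _ _).trans ?_)
  unfold FF
  rw [if_neg hqk]
  have h1 : (((offsets m k).erase a).image (fun h : ℕ => (a : ℤ) - h)).card ≤ hcount m k - 1 := by
    refine card_image_le.trans ?_
    rw [card_erase_of_mem ha]
    rfl
  have h2 : 1 ≤ hcount m k := card_pos.2 ⟨a, ha⟩
  omega

lemma FF_sys {m k a b X : ℕ} (ha : a ∈ offsets m k) (hb : b ∈ offsets m k) (hab : a ≠ b) (hX : k ≤ X) :
    SysF k X (FF m k a b) ((a : ℤ) - b) where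
  card := fun q hq => FF_card ha q hq
  ne := by
    intro h
    apply hab
    omega
  size := by
    have h1 := (mem_offsets.1 ha).1
    have h2 := (mem_offsets.1 hb).1
    rw [abs_le]
    omega
  mem := fun q _ => FF_mem hb hab q
  loc := by
    intro q hq
    by_cases hqk : q ≤ k
    · have := rho_small ha hb q hq hqk
      have := hq.pos
      omega
    · have := rho_large (b := b) ha q hqk
      have := hcount_le m k
      omega

/-- the correspondence -/
lemma windows_iff {m k a b t X A B : ℕ} (ha : a ∈ offsets m k) (hb : b ∈ offsets m k)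
    (hX : (k : ℝ) ≤ (X : ℝ) ^ (1 / (t : ℝ))) (x : ℕ) :
    x ∈ windows m k a b t X A B ↔ x + a ∈ GoodF t X (A + a) (B + a) (FF m k a b) ((a : ℤ) - b) := by
  classical
  have ha' := mem_offsets.1 ha
  have hb' := mem_offsets.1 hb
  have hxb : ((a : ℤ) - b) - ((x + a : ℕ) : ℤ) = -((x + b : ℕ) : ℤ) := by
    push_cast
    ring
  unfold windows GoodF
  rw [mem_filter, mem_filter, mem_Ioc, mem_Ioc]
  constructor
  · rintro ⟨⟨x1, x2⟩, hmod, hpr, ⟨hb1, hb2⟩, hwin⟩
    refine ⟨⟨by omega, by omega⟩, hpr, ?_, ⟨?_, ?_, ?_⟩, ?_⟩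
    · by_contra hcon
      push Not at hcon
      have h1 := (hwin (x + a) (by omega) (by omega)).2 (by rw [Nat.add_sub_cancel_left]; exact ha)
      exact h1 (x + a) hpr hcon dvd_rfl
    · rw [hxb]
      intro h
      omega
    · rw [hxb, Int.natAbs_neg, Int.natAbs_natCast]
      exact hb1
    · intro q hq hqd
      rw [hxb, dvd_neg] at hqd
      exact hb2 q hq (by exact_mod_cast hqd)
    · intro q hq hqX h hh hd
      unfold FF at hh
      split_ifs at hh with hqk
      · have hx : x ≡ m [MOD q] := hmod q hq hqk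
        rw [mem_insert, mem_image] at hh
        rcases hh with hh | ⟨c, hc, hh⟩
        · rw [hh, hxb, dvd_neg] at hd
          have h1 : q ∣ x + b := by exact_mod_cast hd
          apply hb'.2 q hq hqk
          exact ((hx.add_right b).dvd_iff dvd_rfl).1 h1
        · rw [mem_erase, mem_range] at hc
          apply hc.1
          rw [← hh] at hd
          have h1 : (c : ℕ) ≡ x + a [MOD q] := ((Nat.modEq_iff_dvd).2 (by
            have := (dvd_neg).2 hd
            rwa [neg_sub] at this))
          have h2 := h1.trans (hx.add_right a)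
          unfold Nat.ModEq at h2
          rwa [Nat.mod_eq_of_lt hc.2] at h2
      · rw [mem_image] at hh
        obtain ⟨h', hh', rfl⟩ := hh
        have hh2 := (mem_erase.1 hh').2
        have hh3 := (mem_offsets.1 hh2).1
        have e : (a : ℤ) - h' - ((x + a : ℕ) : ℤ) = -((x + h' : ℕ) : ℤ) := by
          push_cast
          ring
        rw [e, dvd_neg] at hd
        have h1 : q ∣ x + h' := by exact_mod_cast hd
        exact (hwin (x + h') (by omega) (by omega)).2 (by rw [Nat.add_sub_cancel_left]; exact hh2) q hq hqX h1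
  · rintro ⟨⟨x1, x2⟩, hpr, hpX, ⟨_, hr1, hr2⟩, hF⟩
    rw [hxb, Int.natAbs_neg, Int.natAbs_natCast] at hr1
    have hmod : ∀ p : ℕ, p.Prime → p ≤ k → x ≡ m [MOD p] := by
      intro q hq hqk
      have hqX : (q : ℝ) ≤ (X : ℝ) ^ (1 / (t : ℝ)) := le_trans (by exact_mod_cast hqk) hX
      by_contra hcon
      obtain ⟨c, hc⟩ : ∃ c, c = (x + a) % q := ⟨_, rfl⟩
      have hcq : c < q := by rw [hc]; exact Nat.mod_lt _ hq.pos
      have hcne : c ≠ (m + a) % q := by
        intro h
        apply hcon
        have h1 : x + a ≡ m + a [MOD q] := by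
          unfold Nat.ModEq
          rw [← hc, h]
        exact Nat.ModEq.add_right_cancel' a h1
      have h1 : ((c : ℕ) : ℤ) ∈ FF m k a b q := by
        unfold FF
        rw [if_pos hqk]
        apply mem_insert_of_mem
        rw [mem_image]
        exact ⟨c, mem_erase.2 ⟨hcne, mem_range.2 hcq⟩, rfl⟩
      apply hF q hq hqX _ h1
      have h2 : c ≡ x + a [MOD q] := by
        rw [hc]
        exact Nat.mod_modEq _ _
      have h3 := (Nat.modEq_iff_dvd).1 h2
      have := (dvd_neg).2 h3
      rwa [neg_sub] at this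
    refine ⟨⟨by omega, by omega⟩, hmod, hpr, ⟨hr1, ?_⟩, ?_⟩
    · intro q hq hqd
      apply hr2 q hq
      rw [hxb, dvd_neg]
      exact_mod_cast hqd
    · intro n hn1 hn2
      constructor
      · intro hn
        rw [mem_offsets]
        refine ⟨⟨by omega, by omega⟩, ?_⟩
        intro p hp hpk hpd
        apply hn p hp (le_trans (by exact_mod_cast hpk) hX)
        have h1 : x + (n - x) = n := by omega
        rw [← h1]
        exact (((hmod p hp hpk).add_right (n - x)).dvd_iff dvd_rfl).2 hpd
      · intro hn p hp hpX2 hpd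
        have hn' := mem_offsets.1 hn
        by_cases hpk : p ≤ k
        · apply hn'.2 p hp hpk
          have h1 : x + (n - x) = n := by omega
          rw [← h1] at hpd
          exact (((hmod p hp hpk).add_right (n - x)).dvd_iff dvd_rfl).1 hpd
        · by_cases hna : n = x + a
          · rw [hna] at hpd
            have := (Nat.prime_dvd_prime_iff_eq hp hpr).1 hpd
            rw [← this] at hpX
            linarith
          · have h1 : ((a : ℤ) - ((n - x : ℕ) : ℤ)) ∈ FF m k a b p := by
              unfold FF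
              rw [if_neg hpk, mem_image]
              refine ⟨n - x, mem_erase.2 ⟨?_, hn⟩, rfl⟩
              omega
            apply hF p hp hpX2 _ h1
            have e : (a : ℤ) - ((n - x : ℕ) : ℤ) - ((x + a : ℕ) : ℤ) = -(n : ℤ) := by
              have : ((n - x : ℕ) : ℤ) = (n : ℤ) - x := by omega
              rw [this]
              push_cast
              ring
            rw [e, dvd_neg]
            exact_mod_cast hpd

lemma windows_image {m k a b t X A B : ℕ} (ha : a ∈ offsets m k) (hb : b ∈ offsets m k)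
    (hX : (k : ℝ) ≤ (X : ℝ) ^ (1 / (t : ℝ))) :
    (windows m k a b t X A B).image (fun x => x + a) = GoodF t X (A + a) (B + a) (FF m k a b) ((a : ℤ) - b) := by
  classical
  ext p
  rw [mem_image]
  constructor
  · rintro ⟨x, hx, rfl⟩
    exact (windows_iff ha hb hX x).1 hx
  · intro hp
    have h1 := hp
    unfold GoodF at h1
    rw [mem_filter, mem_Ioc] at h1
    refine ⟨p - a, ?_, by omega⟩
    rw [windows_iff ha hb hX, Nat.sub_add_cancel (by omega)]
    exact hp

lemma windows_card {m k a b t X A B : ℕ} (ha : a ∈ offsets m k) (hb : b ∈ offsets m k)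
    (hX : (k : ℝ) ≤ (X : ℝ) ^ (1 / (t : ℝ))) :
    (windows m k a b t X A B).card = (GoodF t X (A + a) (B + a) (FF m k a b) ((a : ℤ) - b)).card := by
  rw [← windows_image ha hb hX, card_image_of_injective _ (fun x y h => by simpa using h)]

/-- the sieve product -/
lemma VF_low (k : ℕ) : ∃ c : ℝ, 0 < c ∧ ∀ m a b X : ℕ, a ∈ offsets m k → b ∈ offsets m k → 2 ≤ X →
    c / Real.log X ^ (hcount m k) ≤ VF (FF m k a b) X := by
  have h0 : ∀ r : ℕ, ∃ c : ℝ, 0 < c ∧ (1 ≤ r → ∀ X : ℕ, 2 ≤ X → ∀ Z : ℕ → Finset ℕ, SysZ r Z → c / Real.log X ^ r ≤ VV Z 0 X) := by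
    intro r
    by_cases hr : 1 ≤ r
    · obtain ⟨c, hc, h⟩ := VZ_low r hr
      exact ⟨c, hc, fun _ => h⟩
    · exact ⟨1, one_pos, fun h => absurd h hr⟩
  choose cV hcV hV using h0
  have hkey : ∀ n : ℕ, ∃ c : ℝ, 0 < c ∧ ∀ r ≤ n, c ≤ cV r := by
    intro n
    induction n with
    | zero => exact ⟨cV 0, hcV 0, fun r hr => by rw [Nat.le_zero.1 hr]⟩
    | succ n ih =>
      obtain ⟨c, hc, h⟩ := ih
      refine ⟨min c (cV (n + 1)), lt_min hc (hcV _), fun r hr => ?_⟩
      rcases Nat.lt_or_ge r (n + 1) with h1 | h1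
      · exact (min_le_left _ _).trans (h r (by omega))
      · have : r = n + 1 := by omega
        rw [this]
        exact min_le_right _ _
  obtain ⟨c, hc, hcr⟩ := hkey k
  refine ⟨(∏ q ∈ (Icc 1 k).filter Nat.Prime, (1 / (q : ℝ))) * c, ?_, ?_⟩
  · apply mul_pos _ hc
    apply prod_pos
    intro q hq
    have : (0 : ℝ) < q := by exact_mod_cast (mem_filter.1 hq).2.pos
    positivity
  · intro m a b X ha hb hX
    obtain ⟨r, hr⟩ : ∃ r, r = hcount m k := ⟨_, rfl⟩
    have hr1 : 1 ≤ r := by rw [hr]; exact card_pos.2 ⟨a, ha⟩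
    have hrk : r ≤ k := by rw [hr]; exact hcount_le m k
    rw [← hr]
    have hlX : 0 < Real.log X := Real.log_pos (by exact_mod_cast (by omega : 1 < X))
    obtain ⟨Z, hZ⟩ : ∃ Z : ℕ → Finset ℕ, Z = fun q => if q ≤ k then ∅ else range r := ⟨_, rfl⟩
    have hsys : SysZ r Z := by
      constructor
      · intro p _
        rw [hZ]
        simp only
        split_ifs
        · simp
        · rw [card_range]
      · intro p hp
        rw [hZ]
        simp only
        split_ifs with h
        · rw [card_empty]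
          exact hp.pos
        · rw [card_range]
          omega
      · intro p hp c hc
        rw [hZ] at hc
        simp only at hc
        split_ifs at hc with h
        · exact absurd hc (notMem_empty _)
        · rw [mem_range] at hc
          omega
    have h1 := hV r hr1 X hX Z hsys
    have h2 : (∏ q ∈ (Icc 1 k).filter Nat.Prime, (1 / (q : ℝ))) ≤
        ∏ q ∈ ((Icc 1 X).filter Nat.Prime).filter (fun q => q ≤ k), (1 / (q : ℝ)) := by
      have hs : ((Icc 1 X).filter Nat.Prime).filter (fun q => q ≤ k) ⊆ (Icc 1 k).filter Nat.Prime := by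
        intro q hq
        rw [mem_filter, mem_filter, mem_Icc] at hq
        rw [mem_filter, mem_Icc]
        exact ⟨⟨hq.1.1.1, hq.2⟩, hq.1.2⟩
      rw [← prod_sdiff hs]
      apply mul_le_of_le_one_left
      · exact prod_nonneg fun q _ => by positivity
      · apply prod_le_one
        · intro q _
          positivity
        · intro q hq
          have h3 : (1 : ℝ) ≤ q := by exact_mod_cast (mem_filter.1 (Finset.mem_sdiff.1 hq).1).2.one_le
          rw [div_le_one (by linarith)]
          exact h3
    have h3 : VF (FF m k a b) X = (∏ q ∈ ((Icc 1 X).filter Nat.Prime).filter (fun q => q ≤ k), (1 - (rho (FF m k a b q) q : ℝ) / q)) *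
        ∏ q ∈ ((Icc 1 X).filter Nat.Prime).filter (fun q => ¬ q ≤ k), (1 - (rho (FF m k a b q) q : ℝ) / q) := by
      rw [prod_filter_mul_prod_filter_not]
      rfl
    have h4 : VV Z 0 X ≤ ∏ q ∈ ((Icc 1 X).filter Nat.Prime).filter (fun q => ¬ q ≤ k), (1 - (rho (FF m k a b q) q : ℝ) / q) := by
      have h5 : VV Z 0 X = (∏ q ∈ ((Icc 1 X).filter Nat.Prime).filter (fun q => q ≤ k), (1 - ((Z q).card : ℝ) / q)) *
          ∏ q ∈ ((Icc 1 X).filter Nat.Prime).filter (fun q => ¬ q ≤ k), (1 - ((Z q).card : ℝ) / q) := by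
        rw [prod_filter_mul_prod_filter_not]
        unfold VV
        apply prod_congr
        · ext q
          rw [Pr_mem, mem_filter, mem_Icc]
          constructor
          · rintro ⟨⟨a, b⟩, c⟩
            exact ⟨⟨c.pos, b⟩, c⟩
          · rintro ⟨⟨a, b⟩, c⟩
            exact ⟨⟨c.pos, b⟩, c⟩
        · intro q _
          rfl
      have h6 : (∏ q ∈ ((Icc 1 X).filter Nat.Prime).filter (fun q => q ≤ k), (1 - ((Z q).card : ℝ) / q)) = 1 := by
        apply prod_eq_one
        intro q hq
        rw [hZ]
        simp only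
        rw [if_pos (mem_filter.1 hq).2, card_empty]
        simp
      rw [h5, h6, one_mul]
      apply Finset.prod_le_prod
      · intro q hq
        rw [mem_filter, mem_filter] at hq
        have hq0 : (0 : ℝ) < q := by exact_mod_cast hq.1.2.pos
        rw [sub_nonneg, div_le_one hq0]
        exact_mod_cast (hsys.loc q hq.1.2).le
      · intro q hq
        rw [mem_filter, mem_filter] at hq
        have hq0 : (0 : ℝ) < q := by exact_mod_cast hq.1.2.pos
        have h7 : rho (FF m k a b q) q ≤ (Z q).card := by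
          rw [hZ]
          simp only
          rw [if_neg hq.2, card_range, hr]
          exact rho_large ha q hq.2
        have h8 : (rho (FF m k a b q) q : ℝ) / q ≤ ((Z q).card : ℝ) / q :=
          div_le_div_of_nonneg_right (by exact_mod_cast h7) hq0.le
        linarith
    have h5 : ∏ q ∈ ((Icc 1 X).filter Nat.Prime).filter (fun q => q ≤ k), (1 / (q : ℝ)) ≤
        ∏ q ∈ ((Icc 1 X).filter Nat.Prime).filter (fun q => q ≤ k), (1 - (rho (FF m k a b q) q : ℝ) / q) := by
      apply Finset.prod_le_prod
      · intro q _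
        positivity
      · intro q hq
        rw [mem_filter, mem_filter] at hq
        have hq0 : (0 : ℝ) < q := by exact_mod_cast hq.1.2.pos
        have h6 := rho_small ha hb q hq.1.2 hq.2
        have h7 : (rho (FF m k a b q) q : ℝ) + 1 ≤ q := by
          have : rho (FF m k a b q) q + 1 ≤ q := by
            have := hq.1.2.pos
            omega
          exact_mod_cast this
        rw [le_sub_iff_add_le, ← add_div, div_le_one hq0]
        linarith
    rw [h3]
    calc (∏ q ∈ (Icc 1 k).filter Nat.Prime, (1 / (q : ℝ))) * c / Real.log X ^ r =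
          (∏ q ∈ (Icc 1 k).filter Nat.Prime, (1 / (q : ℝ))) * (c / Real.log X ^ r) := by ring
      _ ≤ (∏ q ∈ ((Icc 1 X).filter Nat.Prime).filter (fun q => q ≤ k), (1 / (q : ℝ))) * VV Z 0 X := by
          apply mul_le_mul h2 _ (by positivity) (prod_nonneg fun q _ => by positivity)
          refine le_trans ?_ h1
          exact div_le_div_of_nonneg_right (hcr r hrk) (by positivity)
      _ ≤ _ := by
          apply mul_le_mul h5 h4
          · exact Pool.Agent.Q253.Thin.VZ_nonneg hsys _ _
          · exact (prod_nonneg fun q _ => by positivity).trans h5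

/-- **Sieve windows filled with almost primes, one prime and one product of two primes.** For every `k` there are `t ≥ 1` and `c > 0` such that
(1) for all `θ > 0` and `X ≥ X₀(θ)`, all `m`, every two different `a`, `b ∈ offsets m k`, and all `A`, `B` with `B + k ≤ X` and
`B - A ≥ θ X` at least `c (B - A) / (log X) ^ (h_m(k))` of the integers `x ∈ (A, B]` are such that `x ≡ m` modulo all primes `≤ k`, exactly
`h_m(k)` of the integers of `(x, x + k]` have no prime factor `≤ X ^ (1/t)`, namely the `x + h` with `h ∈ offsets m k`, and of these `x + a` is a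
prime and `x + b` has at most two prime factors, all `> X ^ (1/9)`; (2) for all `L` and `θ, η > 0` there are `D` and `X₀` such that for these
`X`, `m`, `a`, `b`, `A`, `B` every set of at least `η` times all these `x` contains a progression of `L` terms with difference
`1 ≤ d ≤ log ^ D X`. -/
theorem result : ∀ k : ℕ, ∃ t : ℕ, 1 ≤ t ∧ ∃ c : ℝ, 0 < c ∧
    (∀ θ : ℝ, 0 < θ → ∃ X₀ : ℕ, ∀ X : ℕ, X₀ ≤ X → ∀ m a b : ℕ, a ∈ offsets m k → b ∈ offsets m k → a ≠ b →
      ∀ A B : ℕ, B + k ≤ X → θ * X ≤ (B : ℝ) - A →
      c * (((B : ℝ) - A) / Real.log X ^ (hcount m k)) ≤ ((windows m k a b t X A B).card : ℝ)) ∧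
    (∀ (L : ℕ) (θ η : ℝ), 0 < θ → 0 < η → ∃ D X₀ : ℕ, ∀ X : ℕ, X₀ ≤ X → ∀ m a b : ℕ, a ∈ offsets m k → b ∈ offsets m k → a ≠ b →
      ∀ A B : ℕ, B + k ≤ X → θ * X ≤ (B : ℝ) - A → ∀ S ⊆ windows m k a b t X A B,
      η * ((windows m k a b t X A B).card : ℝ) ≤ S.card →
      ∃ x d : ℕ, 1 ≤ d ∧ (d : ℝ) ≤ Real.log X ^ D ∧ ∀ j < L, x + j * d ∈ S) := by
  classical
  intro k
  obtain ⟨t, ht, c, hc, G1, G2⟩ := genF k
  obtain ⟨cV, hcV, hV⟩ := VF_low k
  have ht0 : (0 : ℝ) < t := by exact_mod_cast ht
  have ev : ∀ᶠ X : ℕ in atTop, (k : ℝ) ≤ (X : ℝ) ^ (1 / (t : ℝ)) :=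
    ((tendsto_rpow_atTop (by positivity)).comp tendsto_natCast_atTop_atTop).eventually_ge_atTop _
  obtain ⟨X₁, hX₁⟩ := eventually_atTop.1 ev
  refine ⟨t, ht, c * cV, by positivity, ?_, ?_⟩
  · intro θ hθ
    obtain ⟨X₀, H⟩ := G1 θ hθ
    refine ⟨max (max X₀ X₁) (k + 2), ?_⟩
    intro X hX m a b ha hb hab A B hBX hAB
    have g1 : X₀ ≤ X := ((le_max_left _ _).trans (le_max_left _ _)).trans hX
    have g2 := hX₁ X (((le_max_right _ _).trans (le_max_left _ _)).trans hX)
    have g3 : k + 2 ≤ X := (le_max_right _ _).trans hX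
    have hak := (mem_offsets.1 ha).1
    have h1 := H X g1 (FF m k a b) ((a : ℤ) - b) (FF_sys ha hb hab (by omega)) (A + a) (B + a) (by omega) (by
      push_cast
      linarith)
    rw [windows_card ha hb g2]
    refine le_trans ?_ h1
    have e : (((B + a : ℕ) : ℝ)) - ((A + a : ℕ) : ℝ) = (B : ℝ) - A := by push_cast; ring
    rw [e]
    have h2 := hV m a b X ha hb (by omega)
    have h3 : 0 ≤ (B : ℝ) - A := le_trans (by positivity) hAB
    calc c * cV * (((B : ℝ) - A) / Real.log X ^ (hcount m k)) = c * ((B : ℝ) - A) * (cV / Real.log X ^ (hcount m k)) := by ring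
      _ ≤ _ := mul_le_mul_of_nonneg_left h2 (by positivity)
  · intro L θ η hθ hη
    obtain ⟨D, X₀, H⟩ := G2 L θ η hθ hη
    refine ⟨D, max (max X₀ X₁) (k + 2), ?_⟩
    intro X hX m a b ha hb hab A B hBX hAB S hS hSc
    have g1 : X₀ ≤ X := ((le_max_left _ _).trans (le_max_left _ _)).trans hX
    have g2 := hX₁ X (((le_max_right _ _).trans (le_max_left _ _)).trans hX)
    have g3 : k + 2 ≤ X := (le_max_right _ _).trans hX
    have hak := (mem_offsets.1 ha).1
    have hinj : Function.Injective (fun x : ℕ => x + a) := fun x y h => by simpa using h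
    obtain ⟨x, d, hd1, hd2, hd3⟩ := H X g1 (FF m k a b) ((a : ℤ) - b) (FF_sys ha hb hab (by omega)) (A + a) (B + a) (by omega) (by
      push_cast
      linarith) (S.image (fun x => x + a)) (by
        rw [← windows_image ha hb g2]
        exact image_subset_image hS) (by
        rw [card_image_of_injective _ hinj, ← windows_card ha hb g2]
        exact hSc)
    rcases Nat.eq_zero_or_pos L with hL | hL
    · exact ⟨0, d, hd1, hd2, fun j hj => by omega⟩
    have hx : a ≤ x := by
      have h1 := hd3 0 hL
      rw [mem_image] at h1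
      obtain ⟨y, _, hy⟩ := h1
      omega
    refine ⟨x - a, d, hd1, hd2, fun j hj => ?_⟩
    have h1 := hd3 j hj
    rw [mem_image] at h1
    obtain ⟨y, hy1, hy2⟩ := h1
    have : x - a + j * d = y := by omega
    rw [this]
    exact hy1

end Pool.Agent.Results.MP_cbf366_nt.ChenWindows
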