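import Pool.Agent.Q93.AN.NoMax
import Pool.Agent.H770R2.Maz5
import Pool.Agent.Helper570.Hyp.SepDual

set_option autoImplicit false

/-! # Banach-Mazur rotation problem: the asymptotic norm at one point

Let `E` be a separable reflexive infinite-dimensional real Banach space with transitive norm. If at
one unit vector `x` the limit of `‖x + t w_n‖` exists for all `t > 0` and all weakly null sequences
`w_n` of unit vectors and depends on `t` only (or if this is so up to every `ε > 0` at some unit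
vector `x_ε`), then `E` is a Hilbert space.

Proof. By transitivity the norm of `u + t w_n` tends to `N (‖u‖, t)` for all `u`. Iterated sequences
show that `N` is associative, so `N` is the maximum or an `ℓ_p` norm (Bohnenblust). The maximum is
impossible in a reflexive space: norming functionals `g_n` of `w_n` are weakly null, and a sum of a
sparse subsequence of `w_n` is bounded and clusters weakly at a vector `b` with `g_n b ≥ 1/2`. If
`N` is an `ℓ_p` norm the starting theorem `AsympAdditive` applies. -/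

namespace Pool.Agent.Results.MP_cc72b1_an.AsymptoticallyRound

open Filter Topology Pool.Agent.Q93.AN

/-- `w` tends to zero weakly -/
def WeaklyNull {E : Type} [NormedAddCommGroup E] [NormedSpace ℝ E] (w : ℕ → E) : Prop :=
  ∀ f : StrongDual ℝ E, Tendsto (fun n => f (w n)) atTop (𝓝 0)

variable {E : Type} [NormedAddCommGroup E] [NormedSpace ℝ E]

lemma ballW [TopologicalSpace.SeparableSpace E]
    (hrefl : Function.Surjective (NormedSpace.inclusionInDoubleDual ℝ E)) : BallW E := by
  intro C u hu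
  haveI hsep : TopologicalSpace.SeparableSpace (StrongDual ℝ E) := by
    haveI h1 : TopologicalSpace.SeparableSpace (StrongDual ℝ (StrongDual ℝ E)) :=
      (hrefl.denseRange).separableSpace (NormedSpace.inclusionInDoubleDual ℝ E).continuous
    exact Pool.Helper570.Hyp.separable_of_dual _
  obtain ⟨L, _, ψ, hψ, hlim⟩ := WeakDual.isSeqCompact_closedBall ℝ (StrongDual ℝ E) 0 C
    (x := fun n => StrongDual.toWeakDual (NormedSpace.inclusionInDoubleDual ℝ E (u n)))
    (fun n => Set.mem_preimage.2 (mem_closedBall_zero_iff.2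
      ((NormedSpace.double_dual_bound ℝ E (u n)).trans (hu n))))
  obtain ⟨a, ha⟩ := hrefl (WeakDual.toStrongDual L)
  refine ⟨a, ψ, hψ, fun f => ?_⟩
  have h1 := ((WeakDual.eval_continuous f).tendsto L).comp hlim
  have h2 : L f = f a := by
    have := congrArg (fun G : StrongDual ℝ (StrongDual ℝ E) => G f) ha
    exact this.symm
  rw [h2] at h1
  exact h1

/-- from one point to all points -/
lemma asy_of (htr : ∀ x y : E, ‖x‖ = 1 → ‖y‖ = 1 → ∃ T : E ≃ₗᵢ[ℝ] E, T x = y) (φ : ℝ → ℝ)
    (h : ∀ ε : ℝ, 0 < ε → ∃ x : E, ‖x‖ = 1 ∧ ∀ t : ℝ, 0 < t → ∀ w : ℕ → E, (∀ n, ‖w n‖ = 1) →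
      WeaklyNull w → ∀ᶠ n in atTop, |‖x + t • w n‖ - φ t| ≤ ε) : Asy E φ := by
  intro y hy t ht w hw hw0
  rw [Metric.tendsto_nhds]
  intro ε hε
  obtain ⟨x, hx, hxw⟩ := h (ε / 2) (by linarith)
  obtain ⟨T, hT⟩ := htr x y hx hy
  have h1 := hxw t ht (fun n => T.symm (w n)) (fun n => by rw [T.symm.norm_map, hw]) (by
    intro f
    exact hw0 (f.comp (T.symm.toContinuousLinearEquiv : E →L[ℝ] E)))
  filter_upwards [h1] with n hn
  have e : ‖y + t • w n‖ = ‖x + t • T.symm (w n)‖ := by
    rw [← T.norm_map (x + t • T.symm (w n)), map_add, map_smul, hT, T.apply_symm_apply]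
  rw [Real.dist_eq, e]
  linarith

/-- the linear map into the product of the lines -/
def jj (E : Type) [NormedAddCommGroup E] [NormedSpace ℝ E] : E →ₗ[ℝ] (StrongDual ℝ E → ℝ) where
  toFun x := fun f => f x
  map_add' x y := by funext f; simp
  map_smul' c x := by funext f; simp

lemma jj_tendsto {u : ℕ → E} {a : E} :
    Tendsto (fun k => jj E (u k)) atTop (𝓝 (jj E a)) ↔
      ∀ f : StrongDual ℝ E, Tendsto (fun k => f (u k)) atTop (𝓝 (f a)) := tendsto_pi_nhds

theorem result (E : Type) [NormedAddCommGroup E] [NormedSpace ℝ E] [CompleteSpace E]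
    [TopologicalSpace.SeparableSpace E] (hinf : ¬ FiniteDimensional ℝ E)
    (hrefl : Function.Surjective (NormedSpace.inclusionInDoubleDual ℝ E))
    (htr : ∀ x y : E, ‖x‖ = 1 → ‖y‖ = 1 → ∃ T : E ≃ₗᵢ[ℝ] E, T x = y)
    (φ : ℝ → ℝ)
    (h : ∀ ε : ℝ, 0 < ε → ∃ x : E, ‖x‖ = 1 ∧ ∀ t : ℝ, 0 < t → ∀ w : ℕ → E, (∀ n, ‖w n‖ = 1) →
      WeaklyNull w → ∀ᶠ n in atTop, |‖x + t • w n‖ - φ t| ≤ ε) :
    ∃ (H : Type) (_ : NormedAddCommGroup H) (_ : InnerProductSpace ℝ H)
      (_ : CompleteSpace H), Nonempty (E ≃ₗᵢ[ℝ] H) := by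
  have hK := ballW hrefl
  have hasy := asy_of htr φ h
  obtain ⟨w, hw, hw0⟩ := exists_wn hinf hK
  have hA := asso hasy hw hw0
  obtain ⟨p, hp0, hp⟩ := hA.power (nn_one_ne hinf hK hasy)
  set Ph : ℝ → ℝ := fun t => |t| ^ p with hPh
  have hPc : Continuous Ph := continuous_abs.rpow_const fun x => Or.inr hp0.le
  have hG : Pool.H770R2.Maz.Gauge Ph := by
    refine ⟨hPc, ?_, ?_⟩
    · intro a ha b hb hab
      show |a| ^ p < |b| ^ p
      rw [abs_of_nonneg ha, abs_of_nonneg hb]
      exact Real.rpow_lt_rpow ha hab hp0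
    · show |(0 : ℝ)| ^ p = 0
      rw [abs_zero, Real.zero_rpow hp0.ne']
  have hinj : Function.Injective (jj E) := by
    intro x y hxy
    rw [← sub_eq_zero]
    by_contra hne
    obtain ⟨g, _, hg⟩ := exists_dual_vector ℝ (x - y) (norm_ne_zero_iff.2 hne)
    have h1 : g x = g y := congrFun hxy g
    rw [map_sub, h1, sub_self] at hg
    exact hne (norm_eq_zero.1 (by exact_mod_cast hg.symm))
  have hball : Pool.H770R2.Maz.BallCpt (jj E) := by
    intro u hu
    obtain ⟨a, ψ, hψ, hlim⟩ := hK 1 u hu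
    refine ⟨a, ?_, ψ, hψ, jj_tendsto.2 hlim⟩
    by_cases ha : a = 0
    · rw [ha, norm_zero]; exact zero_le_one
    · obtain ⟨g, hg1, hg2⟩ := exists_dual_vector ℝ a (norm_ne_zero_iff.2 ha)
      have h1 : g a ≤ 1 := by
        refine le_of_tendsto' (hlim g) fun k => ?_
        refine (le_abs_self _).trans ?_
        have := g.le_opNorm (u (ψ k))
        rw [hg1, one_mul] at this
        exact this.trans (hu _)
      rw [hg2] at h1
      exact_mod_cast h1
  have hasymp : Pool.H770R2.Maz.AsympV Ph (jj E) := by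
    rintro v ⟨C, hC⟩ hv u
    have hvw : WN v := by
      have h0 : jj E 0 = 0 := map_zero _
      rw [← h0] at hv
      intro f
      have := jj_tendsto.1 hv f
      rwa [map_zero] at this
    refine tendsto_of_subseq_tendsto fun ns hns => ?_
    have hmem : ∀ n, ‖v (ns n)‖ ∈ Set.Icc (0 : ℝ) C := fun n => ⟨norm_nonneg _, hC _⟩
    obtain ⟨c, hc, ms, hms, hlim⟩ := isCompact_Icc.tendsto_subseq hmem
    refine ⟨ms, ?_⟩
    have h1 : WN fun n => v (ns (ms n)) := fun f => (hvw f).comp (hns.comp hms.tendsto_atTop)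
    have h2 := lim2 hasy hw hw0 u hlim h1
    have h3 := ((hPc.tendsto _).comp h2).sub ((hPc.tendsto _).comp hlim)
    have h4 : Ph (NN φ ‖u‖ c) - Ph c = Ph ‖u‖ := by
      show |NN φ ‖u‖ c| ^ p - |c| ^ p = |‖u‖| ^ p
      rw [abs_of_nonneg (hA.nonneg (norm_nonneg u) hc.1), abs_of_nonneg hc.1,
        abs_of_nonneg (norm_nonneg u), hp _ _ (norm_nonneg u) hc.1]
      ring
    rw [h4] at h3
    exact h3
  have hpar := Pool.H770R2.Maz.parv_of_tau hG hinf hinj hball hasymp htr
  have key := Pool.H770R2.Maz.parallelogram_of hG hpar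
  exact ⟨E, inferInstance, InnerProductSpace.ofNorm ℝ key, inferInstance,
    ⟨LinearIsometryEquiv.refl ℝ E⟩⟩

end Pool.Agent.Results.MP_cc72b1_an.AsymptoticallyRound
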