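import Mathlib
import Pool.Agent.Q7.DC.Omg

/-!
# Central values of Artin twists of elliptic curves and the periods of totally real fields

`Pool.Agent.H541R3.ART.Irr G` is the set of irreducible complex characters of the finite group `G`.

Let `E` be an elliptic curve over a totally real field `K`, for example `K = ℚ`, and `M/K` a Galois
extension with group `G` (any finite group), `M` a CM field, such that `E` is automorphic over `M`.
(Every such `M/K` is contained in one over which `E` is automorphic, by potential automorphy.) By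
solvable descent `E` is automorphic over the fixed field `M ^ H` for every SOLVABLE subgroup `H` of
`G`. `Pool.Agent.Q7.SZ.TwistData G 1` is a family of functions with the known formal properties of
the twisted L-functions of `E` near the central point `s = 1`: `L χ` (for `L(E ⊗ χ, s)`,
`χ ∈ Irr G`), meromorphic and not identically zero (Brauer), and `Lin H ψ` (for
`L(E / M ^ H ⊗ ψ, s)`, `ψ` a linear character of a subgroup `H`) without pole at `1` if `H` is
solvable, which are the products of the `L χ ^ ⟨χ|_H, ψ⟩` (induction). `Pool.Agent.Q7.SZ.FunEq A` are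
the functional equations `gam χ (s) * L χ (s) = W χ * gam χ (2 - s) * L χ̄ (2 - s)`, with `W χ = 1`
for symplectic characters (Rohrlich).

Complex conjugation `c` is central in `G`. Application: `Z = {1, c}` and `ω` one of its two
characters. The irreducible characters `χ` of `G` with central character `ω` on `Z` are those with
`χ(c) = ε χ(1)`, `ε = ω(c) = ±1`. The fields `M ^ H` with `Z ≤ H` are the (totally real) fields
between `K` and `M⁺ = M ^ Z`, and `Lin Z ω` is `L(E / M⁺, s)` if `ε = 1` and the L-function of the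
quadratic twist of `E / M⁺` by `M / M⁺` if `ε = -1`. (With `Z = 1` the theorem covers all characters of
totally real `M`.)

`Pool.Agent.Q7.GR.galL σ ψ` is the linear character `h ↦ σ (ψ h)`, `σ` an automorphism of `ℂ`, and
`Pool.Agent.Q7.DC.Agree σ 1 f a f' a'` says that `f`, `f'` have values `v` and `v'` at `s = 1`, and
`σ (v / a) = v' / a'`. `Pool.Agent.Q7.DC.Periods A` is a family of numbers `per χ ≠ 0` with the
products `perLin H ψ = ∏ per χ ^ ⟨χ|_H, ψ⟩` (for `Ind ψ`). Application: `per χ` is the Gauss sum of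
`det χ`, times a fixed power of `2πi` to the power `χ(1)`.

The hypothesis in part (3) is then a theorem of Shimura (Duke Math. J. 45, 1978) on the Hilbert
modular form of `E` over the totally real fields `M ^ H`, `H` solvable: for the sign `ε` (at all real
places) there is one period `u H` such that `L(E / M ^ H ⊗ ψ, 1)`, divided by the Gauss sum of `ψ`, a
power of `2πi` and this period, is an algebraic number with the expected Galois conjugates, for all
`ψ` with `ψ(c) = ε`. (The square root of the discriminant of `M ^ H` is put into `u H`.)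

Let `ρ` be a representation of `G` over a number field `F'`, absolutely irreducible with character
`χ`, and `K = ℚ`. The motive `h¹(E) ⊗ ρ` has coefficients in `F'` and odd weight, `s₀ = 1` is
critical, and the components of its L-function in `F' ⊗ ℂ = ∏ ℂ` are the `L(E ⊗ (σ ∘ χ), s)`. As
`χ(c) = ε χ(1)`, the period of Deligne is the Gauss sum of `det ρ` times a power of `2πi` times the
complex number `c^ε(E) ^ χ(1)`. So Deligne's conjecture is the last assertion in (3) with
`v = c^ε(E) ^ χ(1)`, and (3) is this conjecture up to one complex number `v`, independent of the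
component.
-/

set_option autoImplicit false

open Pool.Agent.H541R3.ART Pool.Agent.H302R2 Pool.Agent.H302R3 Pool.Agent.W446.AS
  Pool.Agent.Q7.TZ Pool.Agent.Q7.SZ Pool.Agent.Q7.GR Pool.Agent.Q7.DC Topology

/-- Let `ω` be a real linear character of the central subgroup `Z` of `G = Gal(M/K)`, and suppose that
the order `r` of `L(E / M ^ Z ⊗ ω, s)` at `s = 1` is at most two. Then, for ALL irreducible
characters `χ` of `G` with the central character `ω` on `Z`:
(1) `L(E ⊗ χ, s)` is holomorphic at `s = 1`.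
(2) If `L(E ⊗ χ, 1)` is not zero, there are solvable subgroups `H_i` containing `Z`, linear
characters `ψ_i` of them which are `ω` on `Z`, with `L(E / M ^ H_i ⊗ ψ_i, 1)` NOT ZERO, and integers
`a_i` such that `L(E ⊗ χ, s) = ∏ L(E / M ^ H_i ⊗ ψ_i, s) ^ a_i` (near `s = 1`), and the same holds for
all conjugates `σ ∘ χ`, `σ ∘ ψ_i`.
(3) Suppose that for the solvable `H` containing `Z` and the linear characters `ψ` of `H` which are
`ω` on `Z` the values `L(E / M ^ H ⊗ ψ, 1)` are Galois equivariant with the periods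
`perLin H ψ * u H`. Then there is a product `v` of powers of the numbers `u H` such that the values
`L(E ⊗ χ, 1)` are Galois equivariant with the periods `per χ * v`, that is
`σ (L(E ⊗ χ, 1) / (per χ * v)) = L(E ⊗ (σ ∘ χ), 1) / (per (σ ∘ χ) * v)` for all automorphisms `σ` of
`ℂ`. -/
theorem Pool.Agent.Results.MP_cd171c_nt.PeriodsOfTotallyRealFields.result
    (G : Type) [Group G] [Finite G] (A : TwistData G 1) (F : FunEq A)
    (Z : Subgroup G) (hZ : Z ≤ Subgroup.center G) (ω : Z →* ℂˣ) (hω : ω ^ 2 = 1)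
    (r : ℕ) (hr2 : r ≤ 2) (hr : meromorphicOrderAt (A.Lin Z ω) 1 = (r : WithTop ℤ)) :
    (∀ χ ∈ Irr G, (∀ z : Z, χ z = ((ω z : ℂˣ) : ℂ) * χ 1) →
      0 ≤ meromorphicOrderAt (A.L χ) 1) ∧
    (∀ χ ∈ Irr G, (∀ z : Z, χ z = ((ω z : ℂˣ) : ℂ) * χ 1) →
      meromorphicOrderAt (A.L χ) 1 = 0 →
      ∃ l : List ((Σ H : Subgroup G, (H →* ℂˣ)) × ℤ),
        (∀ t ∈ l, Z ≤ t.1.1 ∧ Group.IsSolvable t.1.1 ∧
          (∀ (z : G) (hz : z ∈ Z) (hz' : z ∈ t.1.1), t.1.2 ⟨z, hz'⟩ = ω ⟨z, hz⟩) ∧
          meromorphicOrderAt (A.Lin t.1.1 t.1.2) 1 = 0) ∧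
        A.L χ =ᶠ[𝓝[≠] 1] (fun s => (l.map fun t => A.Lin t.1.1 t.1.2 s ^ t.2).prod) ∧
        ∀ σ : ℂ ≃+* ℂ, A.L (fun g => σ (χ g)) =ᶠ[𝓝[≠] 1]
          fun s => (l.map fun t => A.Lin t.1.1 (galL σ t.1.2) s ^ t.2).prod) ∧
    (∀ (P : Periods A) (u : Subgroup G → ℂˣ),
      (∀ (σ : ℂ ≃+* ℂ) (H : Subgroup G), Z ≤ H → Group.IsSolvable H → ∀ ψ : H →* ℂˣ,
        (∀ (z : G) (hz : z ∈ Z) (hz' : z ∈ H), ψ ⟨z, hz'⟩ = ω ⟨z, hz⟩) →
        Agree σ 1 (A.Lin H ψ) (P.perLin H ψ * (u H : ℂ))
          (A.Lin H (galL σ ψ)) (P.perLin H (galL σ ψ) * (u H : ℂ))) →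
      ∀ χ ∈ Irr G, (∀ z : Z, χ z = ((ω z : ℂˣ) : ℂ) * χ 1) →
        ∃ v ∈ Subgroup.closure {x : ℂˣ | ∃ H : Subgroup G, Z ≤ H ∧
          Group.IsSolvable H ∧ x = u H}, ∀ σ : ℂ ≃+* ℂ,
          Agree σ 1 (A.L χ) (P.per χ * (v : ℂ)) (A.L fun g => σ (χ g))
            (P.per (fun g => σ (χ g)) * (v : ℂ))) := by
  refine ⟨?_, ?_, ?_⟩
  · intro χ hχ hC
    rw [← A.coe_ord hχ]
    exact_mod_cast omega_nonneg A F hZ hω hr2 hr hχ ((hasC_iff hZ ω hχ).mpr hC)
  · intro χ hχ hC h0
    have h1 : A.ord χ = 0 := by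
      rw [← A.coe_ord hχ] at h0
      exact_mod_cast h0
    obtain ⟨l, h2, h3⟩ := omega_expand A F hZ hω hr2 hr hχ ((hasC_iff hZ ω hχ).mpr hC) h1
    refine ⟨l, h2, ?_, fun σ => L_expand_gal A hχ h3 σ⟩
    have h4 := L_expand_gal A hχ h3 (RingEquiv.refl ℂ)
    simp only [galL_refl] at h4
    exact h4
  · intro P u hu χ hχ hC
    exact omega_values A F P hZ hω hr2 hr u hu χ hχ ((hasC_iff hZ ω hχ).mpr hC)
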