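import Mathlib
import Pool.Agent.Q7.GR.Gal

/-!
# Deligne's conjecture for the vanishing central values of the Artin twists of an elliptic curve

`Pool.Agent.H541R3.ART.Irr G` is the set of irreducible complex characters of the finite group `G`.

Let `E` be an elliptic curve over a number field `K`, for example `K = ℚ`, and `M/K` a Galois
extension with group `G` (any finite group) such that `E` is automorphic over `M`. (If `K` is totally
real or CM, every `E/K` has such an `M`.) By solvable descent `E` is automorphic over the fixed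
field `M ^ H` for every SOLVABLE subgroup `H` of `G`. `Pool.Agent.Q7.SZ.TwistData G 1` is a family of
functions with the known formal properties of the twisted L-functions of `E` near the central
point `s = 1`: `L χ` (for `L(E ⊗ χ, s)`, `χ ∈ Irr G`), meromorphic and not identically zero (Brauer),
and `Lin H ψ` (for `L(E / M ^ H ⊗ ψ, s)`, `ψ` a linear character of a subgroup `H`) without pole at
`1` if `H` is solvable, which are the products of the `L χ ^ ⟨χ|_H, ψ⟩` (induction). In particular
`Lin ⊥ 1` stands for `L(E/M, s)`.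

`Pool.Agent.Q7.SZ.FunEq A` are the functional equations
`gam χ (s) * L χ (s) = W χ * gam χ (2 - s) * L χ̄ (2 - s)`, where `gam χ` is the exponential and
Gamma factor (analytic and nonzero at `1`) and the root number `W χ` is not zero, and equal to `1`
for symplectic characters (Rohrlich).

`Pool.Agent.Q7.GR.galL σ ψ` is the linear character `h ↦ σ (ψ h)`, `σ` an automorphism of `ℂ`. The
hypothesis `hsh` says that for the cyclic extensions `M / M ^ g` the nonvanishing of the central
value `L(E / M ^ g ⊗ ψ, 1)` depends only on the Galois orbit of `ψ`. This is known by the theorems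
on the algebraicity of these values of Shimura (totally real fields) and Hida (all number fields),
as `E` is automorphic over `M ^ g`.

Let `ρ` be a representation of `G` over a number field `F'`, absolutely irreducible, and `K = ℚ`. The
motive `h¹(E) ⊗ ρ` has coefficients in `F'` and odd weight, `s₀ = 1` is critical for it, and the
components of its L-function in `F' ⊗ ℂ = ∏ ℂ` are the `L(E ⊗ χ', s)`, where `χ'` runs over the
conjugates `σ ∘ χ` of the character `χ` of `ρ`.
-/

set_option autoImplicit false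

open Pool.Agent.H541R3.ART Pool.Agent.H302R2 Pool.Agent.H302R3 Pool.Agent.W446.AS
  Pool.Agent.Q7.TZ Pool.Agent.Q7.SZ Pool.Agent.Q7.GR

/-- Suppose that the order `r` of `L(E/M, s)` at `s = 1` is at most five. Then
(1) `L(E ⊗ χ, s)` and `L(E ⊗ (σ ∘ χ), s)` have the same order at `s = 1`, for ALL irreducible
characters `χ` of `Gal(M/K)` and all automorphisms `σ` of `ℂ`. In particular, if one component of the
L-function of the motive `h¹(E) ⊗ ρ` vanishes at `s = 1`, all do; so the value in `F' ⊗ ℂ` at the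
critical point `1` is zero and Deligne's conjecture holds for `h¹(E) ⊗ ρ` at `s₀ = 1`.
(2) For all fields `M ^ H` between `K` and `M` (with `H` solvable or not) and all linear characters
`ψ` of `H` the functions `L(E / M ^ H ⊗ ψ, s)` and `L(E / M ^ H ⊗ (σ ∘ ψ), s)` have the same order at
`s = 1`.
(3) If `n` is the order of `L(E ⊗ χ, s)` at `s = 1` and `χ` has at least `m` different conjugates
`σ ∘ χ`, then `m * n ^ 2 ≤ r ^ 2`. So `L(E ⊗ χ, s)` is holomorphic and not zero at `s = 1` if the
field of the values of `χ` has degree greater than `r ^ 2` over `ℚ`. -/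
theorem Pool.Agent.Results.MP_cd171c_nt.VanishingCentralValues.result
    (G : Type) [Group G] [Finite G] (A : TwistData G 1) (F : FunEq A) (r : ℕ) (hr5 : r ≤ 5)
    (hr : meromorphicOrderAt (A.Lin ⊥ 1) 1 = (r : WithTop ℤ))
    (hsh : ∀ (σ : ℂ ≃+* ℂ) (g : G) (ψ : Subgroup.zpowers g →* ℂˣ),
      meromorphicOrderAt (A.Lin (Subgroup.zpowers g) ψ) 1 = 0 ↔
        meromorphicOrderAt (A.Lin (Subgroup.zpowers g) (galL σ ψ)) 1 = 0) :
    (∀ χ ∈ Irr G, ∀ σ : ℂ ≃+* ℂ, meromorphicOrderAt (A.L (fun g => σ (χ g))) 1 =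
      meromorphicOrderAt (A.L χ) 1) ∧
    (∀ (H : Subgroup G) (ψ : H →* ℂˣ) (σ : ℂ ≃+* ℂ),
      meromorphicOrderAt (A.Lin H (galL σ ψ)) 1 = meromorphicOrderAt (A.Lin H ψ) 1) ∧
    (∀ χ ∈ Irr G, ∀ n : ℤ, meromorphicOrderAt (A.L χ) 1 = (n : WithTop ℤ) →
      ∀ S : Finset (G → ℂ), (∀ η ∈ S, ∃ σ : ℂ ≃+* ℂ, η = fun g => σ (χ g)) →
        (S.card : ℤ) * n ^ 2 ≤ (r : ℤ) ^ 2) := by
  classical
  have hrat : ∀ (σ : ℂ ≃+* ℂ) (g : G), σ ((theta A.ord : G → ℂ) g) = (theta A.ord : G → ℂ) g :=
    fun σ g => (theta_gal F hr5 hr σ (hsh σ)).2 g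
  refine ⟨?_, ?_, ?_⟩
  · intro χ hχ σ
    rw [← A.coe_ord hχ, ← A.coe_ord (irr_gal σ hχ), ord_gal (hrat σ) hχ]
  · intro H ψ σ
    have : Fintype H := Fintype.ofFinite H
    obtain ⟨a, ha1, ha2⟩ := A.order_mult H ψ
    obtain ⟨b, hb1, hb2⟩ := A.order_mult H (galL σ ψ)
    rw [finsum_eq_sum_of_fintype] at ha2 hb2
    have h1 := congrArg σ ha2
    rw [map_sum, map_mul, map_intCast, map_natCast] at h1
    have h2 : ∑ h : H, σ ((theta A.ord : G → ℂ) h * (((ψ h)⁻¹ : ℂˣ) : ℂ)) =
        ∑ h : H, (theta A.ord : G → ℂ) h * (((galL σ ψ h)⁻¹ : ℂˣ) : ℂ) := by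
      refine Finset.sum_congr rfl fun h _ => ?_
      rw [map_mul, hrat, Units.val_inv_eq_inv_val, map_inv₀, Units.val_inv_eq_inv_val, galL_val]
    rw [h2, hb2] at h1
    have h3 : (Nat.card H : ℂ) ≠ 0 := card_ne
    have h4 := mul_right_cancel₀ h3 h1
    have h5 : b = a := by exact_mod_cast h4
    rw [ha1, hb1, h5]
  · intro χ hχ n hn S hS
    have hn' : A.ord χ = n := by
      rw [← A.coe_ord hχ] at hn
      exact_mod_cast hn
    have hSI : S ⊆ irrF G := by
      intro η hη
      obtain ⟨σ, rfl⟩ := hS η hη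
      exact mem_irrF.mpr (irr_gal σ hχ)
    have h1 : ∑ η ∈ S, A.ord η ^ 2 = (S.card : ℤ) * n ^ 2 := by
      rw [Finset.sum_congr rfl (fun η hη => ?_), Finset.sum_const, nsmul_eq_mul]
      obtain ⟨σ, rfl⟩ := hS η hη
      rw [ord_gal (hrat σ) hχ, hn']
    rw [← h1]
    exact (Finset.sum_le_sum_of_subset_of_nonneg hSI fun _ _ _ => sq_nonneg _).trans
      (sum_sq_ord A hr)
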