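import Pool.Agent.Q57.WM.Fam
import Pool.Agent.Q57.PL.Slopes

/-!
# MP_cd312e_ag: the ranks of the powers of the monodromy operator on `ℓ`-adic cohomology

`X` is a smooth proper variety over a finite extension `K` of `ℚ_p` whose residue field has `q`
elements. The varieties `SmVar K` are schemes of Mathlib; the cohomology theories `Theories` (the
`ℓ`-adic cohomology for all `ℓ ≠ p`, and the Hyodo-Kato cohomology) are data with the known properties
`IsLocal` (for `X`). Let `S_k = ∑_{r > k} rank (N ^ r)` on `H^m(X)` and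
`W_k = ∑_w (2 (w - m - k) - 1)^+`, the sum being over the weights `w` of the eigenvalues of the
Frobenius on `H^m(X)`.

(1) For every theory and all `m`, `k`: `S_k ≤ W_k`, with equality exactly if the monodromy-weight
conjecture for `H^m` holds in the range above `k`; the range above `0` is the whole conjecture.

(2) Two theories with the same characteristic polynomial of the Frobenius on `H^m` have the same
`W_k`. If the conjecture holds for one of them above `k`, then its `S_k` is the larger one, and the
conjecture holds for the other one above `k` exactly if its `S_k` is the same. If the conjecture holds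
for the Hyodo-Kato cohomology above `k`, then `S_k ≤ ∑_λ (2 (2 λ - m - k) - 1)^+ ≤
∑_{a + b = m} (2 (a - b - k) - 1)^+ h^(a, b)` for every theory with the same characteristic polynomial;
for the Hyodo-Kato cohomology itself these inequalities hold without any condition.

(3) If the cohomology in the degrees `j ≠ m` is good (`GoodOutside`), then
`S_k ≤ W_k ≤ ∑_λ (2 (2 λ - m - k) - 1)^+ ≤ ∑_{a + b = m} (2 (a - b - k) - 1)^+ h^(a, b)` for every
theory, `W_k` does not depend on the theory, and the conjecture holds above `k` if `S_k` reaches the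
bound given by the Hodge numbers.
-/

set_option autoImplicit false

open Module

universe u v w

namespace Pool.Agent.Results.MP_cd312e_ag.RanksOfMonodromy

open Pool.Agent.H914 Pool.Agent.Y163.MW Pool.Agent.Y143 Pool.Agent.Y163.MX Pool.Agent.Q57.WM

section

variable {K : Type u} [Field K] {Ω : Type w} [Field Ω] [CharZero Ω]

/-- For every theory `∑_{r > k} rank (N ^ r) ≤ ∑_w (2 (w - m - k) - 1)^+`, with equality exactly if
the monodromy-weight conjecture for `H^m` holds in the range above `k`, and the range above `0` is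
the conjecture for `H^m`. -/
def Criterion (T : Theories.{u, v, w} K Ω) (q : ℕ) (X : SmVar.{u} K) (m : ℕ) : Prop :=
  ∀ i : Option T.ι,
    (∀ k : ℕ, rankTail (T.H i X) m k ≤ weightTail (T.H i X) q m k ∧
      (WMAbove (T.H i X) q m k ↔ rankTail (T.H i X) m k = weightTail (T.H i X) q m k)) ∧
    (WMAbove (T.H i X) q m 0 ↔ (T.H i X).MWPure q m)

/-- Two theories with the same characteristic polynomial of the Frobenius on `H^m`. -/
def Comparison (T : Theories.{u, v, w} K Ω) (q : ℕ) (X : SmVar.{u} K) (m : ℕ) : Prop :=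
  ∀ i i' : Option T.ι, charP (T.H i X) m = charP (T.H i' X) m → ∀ k : ℕ,
    weightTail (T.H i X) q m k = weightTail (T.H i' X) q m k ∧
    (WMAbove (T.H i X) q m k → rankTail (T.H i' X) m k ≤ rankTail (T.H i X) m k ∧
      (WMAbove (T.H i' X) q m k ↔ rankTail (T.H i' X) m k = rankTail (T.H i X) m k))

/-- The Hyodo-Kato cohomology: `∑_{r > k} rank (N ^ r)` is at most the sum of the numbers
`(2 (2 λ - m - k) - 1)^+` over the slopes `λ`, and this is at most the sum for the Hodge numbers. If
the conjecture holds for it above `k`, then the same holds for the `ℓ`-adic cohomology, if the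
characteristic polynomials of the Frobenius on `H^m` are the same. -/
def Crystalline (T : Theories.{u, v, w} K Ω) (q : ℕ) (X : SmVar.{u} K) (m : ℕ) : Prop :=
  ∀ k : ℕ, (rankTail (T.H none X) m k : ℝ) ≤ slopeTail (T.H none X) T.val m k ∧
    slopeTail (T.H none X) T.val m k ≤ (hodgeTail m k (T.hodge X m) : ℝ) ∧
    (WMAbove (T.H none X) q m k → ∀ i : Option T.ι, charP (T.H none X) m = charP (T.H i X) m →
      (rankTail (T.H i X) m k : ℝ) ≤ slopeTail (T.H none X) T.val m k)

/-- For every theory and every `k` the inequalities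
`∑_w (2 (w - m - k) - 1)^+ ≤ ∑_λ (2 (2 λ - m - k) - 1)^+ ≤ ∑_{a + b = m} (2 (a - b - k) - 1)^+ h^(a, b)`,
and the first sum is the same for all theories. -/
def Chain (T : Theories.{u, v, w} K Ω) (q : ℕ) (X : SmVar.{u} K) (m : ℕ) : Prop :=
  (∀ (i : Option T.ι) (k : ℕ),
    (weightTail (T.H i X) q m k : ℝ) ≤ slopeTail (T.H i X) T.val m k ∧
    slopeTail (T.H i X) T.val m k ≤ (hodgeTail m k (T.hodge X m) : ℝ)) ∧
  ∀ (i i' : Option T.ι) (k : ℕ), weightTail (T.H i X) q m k = weightTail (T.H i' X) q m k

/-- If `∑_{r > k} rank (N ^ r)` is at least `∑ (2 (a - b - k) - 1)^+ h^(a, b)`, then the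
monodromy-weight conjecture holds in the range above `k`. -/
def Maximal (T : Theories.{u, v, w} K Ω) (q : ℕ) (X : SmVar.{u} K) (m : ℕ) : Prop :=
  ∀ (i : Option T.ι) (k : ℕ), hodgeTail m k (T.hodge X m) ≤ rankTail (T.H i X) m k →
    WMAbove (T.H i X) q m k

end

/-- **Powers of the monodromy operator, weights, slopes and Hodge numbers.** -/
theorem result {K : Type u} [Field K] {Ω : Type w} [Field Ω] [CharZero Ω] [IsAlgClosed Ω]
    {T : Theories.{u, v, w} K Ω} {q : ℕ} (hq : 1 < q) (X : SmVar.{u} K) (hT : T.IsLocal q X) :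
    (∀ m : ℕ, Criterion T q X m ∧ Comparison T q X m ∧ Crystalline T q X m) ∧
    ∀ m : ℕ, m ≤ 2 * X.dim → GoodOutside (fun i => T.H i X) (2 * X.dim) m →
      Chain T q X m ∧ Maximal T q X m := by
  have hcrit : ∀ m, Criterion T q X m := fun m i =>
    ⟨fun k => ⟨(tail_deg hq (hT.coh i) m k).1, (tail_deg hq (hT.coh i) m k).2.symm⟩,
      wmAbove_zero hq (hT.coh i) m⟩
  have hcomp : ∀ m, Comparison T q X m := by
    intro m i i' hch k
    have h1 : weightTail (T.H i X) q m k = weightTail (T.H i' X) q m k :=
      weightTail_congr hq (hT.coh i) (hT.coh i') hch k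
    refine ⟨h1, fun hk => ?_⟩
    have h2 := ((hcrit m i).1 k).2.1 hk
    have h3 := ((hcrit m i').1 k).1
    refine ⟨by omega, ?_⟩
    rw [((hcrit m i').1 k).2]
    omega
  refine ⟨fun m => ⟨hcrit m, hcomp m, fun k => ?_⟩, fun m hm hX => ?_⟩
  · have h1 := Pool.Agent.Q57.PL.rank_le_slope hq (hT.coh none) hT.val m k
    refine ⟨h1, slope_le_hodge (hT.polygons m) k, fun hk i hch => ?_⟩
    have h2 := ((hcomp m none i hch k).2 hk).1
    have h3 : (rankTail (T.H i X) m k : ℝ) ≤ (rankTail (T.H none X) m k : ℝ) := by
      exact_mod_cast h2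
    exact h3.trans h1
  · obtain ⟨hrat, hsame⟩ := same_charP (fun i => hT.coh i) hm hT.zeta hX
    have hchain : ∀ (i : Option T.ι) (k : ℕ),
        (weightTail (T.H i X) q m k : ℝ) ≤ slopeTail (T.H i X) T.val m k ∧
        slopeTail (T.H i X) T.val m k ≤ (hodgeTail m k (T.hodge X m) : ℝ) := by
      intro i k
      refine ⟨weight_le_slope hq (hT.coh i) (hrat i) hT.val k, ?_⟩
      rw [slopeTail_congr (hT.coh i) (hT.coh none) (hsame i none)]
      exact slope_le_hodge (hT.polygons m) k
    refine ⟨⟨hchain, fun i i' k => weightTail_congr hq (hT.coh i) (hT.coh i') (hsame i i') k⟩, ?_⟩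
    intro i k h
    rw [((hcrit m i).1 k).2]
    obtain ⟨h2, h3⟩ := hchain i k
    have h1 := ((hcrit m i).1 k).1
    have h5 : weightTail (T.H i X) q m k ≤ hodgeTail m k (T.hodge X m) := by
      exact_mod_cast h2.trans h3
    omega

end Pool.Agent.Results.MP_cd312e_ag.RanksOfMonodromy
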