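import Pool.Agent.Q161.ESF.NF

/-!
# Ranks over EVERY number field of all quadratic twists of almost all elliptic curves: all exponential
# moments are bounded

Let `F` be a number field, `N` an elementary abelian 2-extension of `F` (for example `N = F`, or
`N = F(√d_1, …, √d_m)`), `E : y² = x³ + a x + b` an elliptic curve over `F`, `a, b` integers of `F`, and
`E_D : y² = x³ + a D² x + b D³` its quadratic twists by the squarefree integers `D`, in their natural order.
For almost all `(a, b)` there is for every `k` a constant `C` such that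

  `∑_{|D| ≤ X} 2^(k rank E_D(N)) ≤ C X`,  `X ≥ 1`,

and more generally the joint moments for finitely many such curves, over different fields, are bounded.
So the average rank over `N` of the twists is bounded, and the proportion of the twists of rank at least
`n` over `N` is `O_k(2^(-k n))` for every `k`.

`Admissible a b`, the condition on the curve: there is a Galois number field `M` which contains `F` such that no
conjugate `f^τ = x³ + τ(a) x + τ(b)` of `f = x³ + a x + b`, `τ : F → M`, has a zero in `M`, and if the embeddings `τ ≠ τ'`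
are exchanged by an automorphism of `M` then `f^τ` has no zero in the cubic extension `M[x]/(f^τ')`.  If `F` is Galois
of odd degree over `ℚ` (for instance `F = ℚ`) it only says that `E` has no `F`-rational point of order two.

The proof (projects ESM, ESG, ESF, in `Pool/Agent/Q161`) is a 2-descent over `F` combined with a sieve for the
conjugates of elements of number fields and high moments of quadratic characters.
Project of helper161 with helpers 14, 24, 26, 38, 63, 68, 92, 96, 121, 123, 124, 129, 149, 150, 151, 153, 166, 177, 182, 184,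
193, 195, 208, 211, 223, 224, 237, 238, 241, 261, 275, 285, 299.
-/

set_option autoImplicit false

namespace Pool.Agent.Results.MP_cd906c_nt.AllMomentsAllFields

open Finset NumberField Pool.Agent.Q161.ESF

open Pool.Agent.Q161.EA (twists)

/-- the sum of the ranks of the twists by `D` of the curves `E i`, each over its field `N` -/
noncomputable def rankSum {r : ℕ} (E : Fin r → AdmCurve) (D : ℤ) : ℕ := ∑ i, (E i).rank D

/-- Let `E_i`, `1 ≤ i ≤ r`, be elliptic curves as in `AdmCurve` (over `F_i`, with extensions `N_i`) and `R(D)` the sum of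
the ranks over the `N_i` of their twists by `D`.  For every `k` there is a `C` such that for all `X ≥ 1`, `D`
running over the squarefree integers, `|D| ≤ X`: (1) `∑ 2^(k R(D)) ≤ C X`; (2) for all `n` the number of the `D`
with `R(D) ≥ n` is at most `C X / 2^(k n)`; (3) for any nonempty set `S` of these `D`
`k ∑_(D ∈ S) R(D) ≤ |S| log₂ (C X / |S|)`; (4) `∑ R(D)^k ≤ C X`.
For every number field `F` almost all pairs `(a, b)` are `Admissible`; if `F` is Galois of odd degree over `ℚ`, all
`(a, b)` such that `x³ + a x + b` has no zero in `F` are. -/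
theorem result :
    (∀ (r : ℕ) (E : Fin r → AdmCurve) (k : ℕ), ∃ C : ℝ, 0 < C ∧ ∀ X : ℝ, 1 ≤ X →
      (∑ D ∈ twists X, (2 : ℝ) ^ (k * rankSum E D) ≤ C * X) ∧
      (∀ n : ℕ, (((twists X).filter (fun D => n ≤ rankSum E D)).card : ℝ) ≤
        C * X / 2 ^ (k * n)) ∧
      (∀ S : Finset ℤ, S ⊆ twists X → S.Nonempty →
        k * ∑ D ∈ S, (rankSum E D : ℝ) ≤ S.card * Real.logb 2 (C * X / S.card)) ∧
      ∑ D ∈ twists X, (rankSum E D : ℝ) ^ k ≤ C * X) ∧
    (∀ (F : Type) [Field F] [NumberField F], AlmostAll F (fun a b => Admissible a b)) ∧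
    ∀ (F : Type) [Field F] [NumberField F], IsGalois ℚ F → Odd (Module.finrank ℚ F) →
      ∀ a b : 𝓞 F, (∀ x : F, x ^ 3 + (a : F) * x + (b : F) ≠ 0) → Admissible a b := by
  refine ⟨fun r E k => ?_, fun F _ _ => almost_all F,
    fun F _ _ hG hodd a b h => admissible_odd hG hodd h⟩
  obtain ⟨C, hC, h2⟩ := adm_moments E k
  refine ⟨C, hC, fun X hX => ?_⟩
  have h3 : ∑ D ∈ twists X, (2 : ℝ) ^ (k * rankSum E D) ≤ C * X := by
    refine le_trans (le_of_eq (sum_congr rfl fun D hD => ?_)) (h2 X hX)
    rw [prod_pow, prod_pow_eq_pow_sum, ← pow_mul, mul_comm]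
    rfl
  have hS : ∀ S : Finset ℤ, S ⊆ twists X → ∑ D ∈ S, (2 : ℝ) ^ (k * rankSum E D) ≤ C * X :=
    fun S hS => le_trans (sum_le_sum_of_subset_of_nonneg hS (fun _ _ _ => by positivity)) h3
  refine ⟨h3, fun n => ?_, fun S hSX hne => ?_, ?_⟩
  · rw [le_div_iff₀ (by positivity)]
    refine le_trans ?_ (hS ((twists X).filter (fun D => n ≤ rankSum E D)) (filter_subset _ _))
    rw [← nsmul_eq_mul]
    refine card_nsmul_le_sum _ _ _ fun D hD => ?_
    exact pow_le_pow_right₀ one_le_two (Nat.mul_le_mul_left k (mem_filter.1 hD).2)
  · have h6 := Pool.Agent.Q161.EA.jensen S (fun D => k * rankSum E D) hne _ (hS S hSX)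
    rw [mul_sum]
    refine le_trans (le_of_eq (sum_congr rfl fun D _ => ?_)) h6
    push_cast
    rfl
  · refine le_trans (sum_le_sum fun D _ => ?_) h3
    rw [mul_comm k, pow_mul]
    refine pow_le_pow_left₀ (Nat.cast_nonneg _) ?_ k
    exact_mod_cast (Nat.lt_two_pow_self (n := rankSum E D)).le

end Pool.Agent.Results.MP_cd906c_nt.AllMomentsAllFields
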