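import Pool.Agent.Q161.ESG.NF

/-!
# Ranks over number fields of ALL quadratic twists: all exponential moments are bounded

Let `F` be a Galois number field of odd degree over `ℚ`, `M` an elementary abelian 2-extension of `F` (for
example `M = F`, or `M = F(√d_1, …, √d_m)`), and `E : y² = x³ + a x + b` an elliptic curve over `F` without
points of order two over `F`.  Let `E_D : y² = x³ + a D² x + b D³` be its quadratic twists by the squarefree
integers `D`, in their natural order.  For every `k` there is a constant `C` such that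

  `∑_{|D| ≤ X} 2^(k rank E_D(M)) ≤ C X`,  `X ≥ 1`,

and more generally the joint moments for finitely many such curves, over different fields, are bounded.
So the average rank over `M` of the twists is bounded, and the proportion of the twists of rank at least
`n` over `M` is `O_k(2^(-k n))` for every `k`.

The proof (projects ESM, ESG, `Pool/Agent/Q161/ESM`, `Pool/Agent/Q161/ESG`) is a 2-descent over `F` combined
with a sieve for the conjugates of elements of number fields and high moments of quadratic characters.
-/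

set_option autoImplicit false

namespace Pool.Agent.Results.MP_cd906c_nt.AllMomentsNumberFields

open Finset Pool.Agent.Q161.ESG

open Pool.Agent.Q161.EA (twists)

/-- the sum of the ranks of the twists by `D` of the curves `E i`, each over its field `M` -/
noncomputable def rankSum {r : ℕ} (E : Fin r → NFCurve) (D : ℤ) : ℕ := ∑ i, (E i).rank D

/-- Let `E_i`, `1 ≤ i ≤ r`, be elliptic curves over number fields `M_i` as in `NFCurve`, and `R(D)` the sum of
the ranks over the `M_i` of their twists by `D`.  For every `k` there is a `C` such that for all `X ≥ 1`, `D`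
running over the squarefree integers, `|D| ≤ X`: (1) `∑ 2^(k R(D)) ≤ C X`; (2) for all `n` the number of the `D`
with `R(D) ≥ n` is at most `C X / 2^(k n)`; (3) for any nonempty set `S` of these `D`
`k ∑_(D ∈ S) R(D) ≤ |S| log₂ (C X / |S|)`; (4) `∑ R(D)^k ≤ C X`. -/
theorem result (r : ℕ) (E : Fin r → NFCurve) (k : ℕ) :
    ∃ C : ℝ, 0 < C ∧ ∀ X : ℝ, 1 ≤ X →
      (∑ D ∈ twists X, (2 : ℝ) ^ (k * rankSum E D) ≤ C * X) ∧
      (∀ n : ℕ, (((twists X).filter (fun D => n ≤ rankSum E D)).card : ℝ) ≤
        C * X / 2 ^ (k * n)) ∧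
      (∀ S : Finset ℤ, S ⊆ twists X → S.Nonempty →
        k * ∑ D ∈ S, (rankSum E D : ℝ) ≤ S.card * Real.logb 2 (C * X / S.card)) ∧
      ∑ D ∈ twists X, (rankSum E D : ℝ) ^ k ≤ C * X := by
  obtain ⟨C, hC, h2⟩ := nf_moments E k
  refine ⟨C, hC, fun X hX => ?_⟩
  have h3 : ∑ D ∈ twists X, (2 : ℝ) ^ (k * rankSum E D) ≤ C * X := by
    refine le_trans (le_of_eq (sum_congr rfl fun D hD => ?_)) (h2 X hX)
    rw [prod_pow, prod_pow_eq_pow_sum, ← pow_mul, mul_comm]
    rfl
  have hS : ∀ S : Finset ℤ, S ⊆ twists X → ∑ D ∈ S, (2 : ℝ) ^ (k * rankSum E D) ≤ C * X :=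
    fun S hS => le_trans (sum_le_sum_of_subset_of_nonneg hS (fun _ _ _ => by positivity)) h3
  refine ⟨h3, fun n => ?_, fun S hSX hne => ?_, ?_⟩
  · rw [le_div_iff₀ (by positivity)]
    refine le_trans ?_ (hS ((twists X).filter (fun D => n ≤ rankSum E D)) (filter_subset _ _))
    rw [← nsmul_eq_mul]
    refine card_nsmul_le_sum _ _ _ fun D hD => ?_
    exact pow_le_pow_right₀ one_le_two (Nat.mul_le_mul_left k (mem_filter.1 hD).2)
  · have h6 := Pool.Agent.Q161.EA.jensen S (fun D => k * rankSum E D) hne _ (hS S hSX)
    rw [mul_sum]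
    refine le_trans (le_of_eq (sum_congr rfl fun D _ => ?_)) h6
    push_cast
    rfl
  · refine le_trans (sum_le_sum fun D _ => ?_) h3
    rw [mul_comm k, pow_mul]
    refine pow_le_pow_left₀ (Nat.cast_nonneg _) ?_ k
    exact_mod_cast (Nat.lt_two_pow_self (n := rankSum E D)).le

end Pool.Agent.Results.MP_cd906c_nt.AllMomentsNumberFields
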