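import Pool.Agent.Q5.HR.Crit

/-!
# The Birch and Swinnerton-Dyer rank conjecture follows from its case of large rank

`E` is an elliptic curve over a number field `K`, and `F` runs through finite extensions of `K`.  The
minimal models `V` and the Euler product `LSeries V s` with the correct factors at all primes are those of
`Pool.Agent.TH322.BC.Defs`.
-/

set_option autoImplicit false

namespace Pool.Agent.Results.MP_cd906c_nt.HighRankLaw

open NumberField IsDedekindDomain
open Pool.Agent.TH322.BC.Edge (MinimalModels)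

/-- The rank of the group `E(F)`. -/
noncomputable def rank {F : Type} [Field F] (E : WeierstrassCurve F) : ℕ := by
  classical
  exact Module.finrank ℤ E.toAffine.Point

/-- The domains on which the `L`-functions are considered: a nonempty family of connected open sets which
contain the half plane `Re s > 3/2` and the point `1`, closed under intersections.  For example
`U = {ℂ}`, or the half planes `Re s > σ` with `σ < 1`. -/
def IsDomains (U : Set (Set ℂ)) : Prop :=
  U.Nonempty ∧ (∀ u ∈ U, IsOpen u ∧ IsPreconnected u ∧ (1 : ℂ) ∈ u ∧ ∀ s : ℂ, 3 / 2 < s.re → s ∈ u) ∧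
    ∀ u ∈ U, ∀ u' ∈ U, u ∩ u' ∈ U

/-- The rank conjecture for `E/F`: `L(E/F, s)` has a meromorphic continuation to a domain in `U`, and
its order at `s = 1` is the rank of `E(F)`. -/
def BSD (U : Set (Set ℂ)) {F : Type} [Field F] [NumberField F] (E : WeierstrassCurve F) : Prop :=
  ∀ V : HeightOneSpectrum (𝓞 F) → WeierstrassCurve (𝓞 F), MinimalModels E V →
    ∃ u ∈ U, ∃ f : ℂ → ℂ, MeromorphicOn f u ∧
      (∀ s : ℂ, 3 / 2 < s.re → f s = Pool.Agent.TH322.BC.Edge.LSeries V s) ∧
      meromorphicOrderAt f 1 = ((rank E : ℤ) : WithTop ℤ)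

/-- `L(E/F, s)^t` has a meromorphic continuation to a domain in `U`, and its order at `s = 1` is
`t` times the rank of `E(F)`. -/
def PowerBSD (U : Set (Set ℂ)) {F : Type} [Field F] [NumberField F] (E : WeierstrassCurve F)
    (t : ℕ) : Prop :=
  ∀ V : HeightOneSpectrum (𝓞 F) → WeierstrassCurve (𝓞 F), MinimalModels E V →
    ∃ u ∈ U, ∃ f : ℂ → ℂ, MeromorphicOn f u ∧
      (∀ s : ℂ, 3 / 2 < s.re → f s = Pool.Agent.TH322.BC.Edge.LSeries V s ^ t) ∧
      meromorphicOrderAt f 1 = ((t * rank E : ℤ) : WithTop ℤ)

/-- `L(E/F, s)` has a meromorphic continuation to a domain in `U`. -/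
def Continues (U : Set (Set ℂ)) {F : Type} [Field F] [NumberField F] (E : WeierstrassCurve F) :
    Prop :=
  ∀ V : HeightOneSpectrum (𝓞 F) → WeierstrassCurve (𝓞 F), MinimalModels E V →
    ∃ u ∈ U, ∃ f : ℂ → ℂ, MeromorphicOn f u ∧
      ∀ s : ℂ, 3 / 2 < s.re → f s = Pool.Agent.TH322.BC.Edge.LSeries V s

/-- The extension `F/K` is multiquadratic: Galois, and the squares of the automorphisms are trivial. -/
def Multiquadratic (K F : Type) [Field K] [Field F] [Algebra K F] : Prop :=
  IsGalois K F ∧ ∀ g : F ≃ₐ[K] F, g * g = 1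

/-- A family of finite extensions of `K` inside the algebraic closure is wide if it is closed under
passing to larger finite extensions, and every automorphism of the algebraic closure over `K` fixes all
elements of some member of the family. -/
def Wide (K : Type) [Field K] (𝓕 : Set (IntermediateField K (AlgebraicClosure K))) : Prop :=
  (∀ F ∈ 𝓕, FiniteDimensional K F) ∧
  (∀ F ∈ 𝓕, ∀ F' : IntermediateField K (AlgebraicClosure K), FiniteDimensional K F' → F ≤ F' →
    F' ∈ 𝓕) ∧
  ∀ σ : AlgebraicClosure K ≃ₐ[K] AlgebraicClosure K, ∃ F ∈ 𝓕, ∀ x ∈ F, σ x = x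

/-- An elliptic curve whose invariant `j` is different from `0` and `1728`. -/
def Generic {F : Type} [Field F] (E : WeierstrassCurve F) : Prop :=
  E.IsElliptic ∧ E.c₄ ≠ 0 ∧ E.c₆ ≠ 0

/-- The law for multiquadratic extensions `F/K` with `rank E(F) ≥ R`. -/
def MultiquadraticLaw (U : Set (Set ℂ)) : Prop :=
  ∀ (K : Type) [Field K] [NumberField K] (E : WeierstrassCurve K), Generic E → ∀ R : ℕ,
    (∀ (F : Type) [Field F] [NumberField F] [Algebra K F], Multiquadratic K F →
      R ≤ rank (E.map (algebraMap K F)) → BSD U (E.map (algebraMap K F))) →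
    (∃ k : ℕ, PowerBSD U E (2 ^ k)) ∧ (Continues U E → BSD U E)

/-- Counterexamples spread to arbitrarily large ranks. -/
def SpreadLaw (U : Set (Set ℂ)) : Prop :=
  ∀ (K : Type) [Field K] [NumberField K] (E : WeierstrassCurve K), Generic E →
    Continues U E → ¬ BSD U E → ∀ R : ℕ,
    ∃ (F : Type) (_ : Field F) (_ : NumberField F) (_ : Algebra K F), Multiquadratic K F ∧
      R ≤ rank (E.map (algebraMap K F)) ∧ ¬ BSD U (E.map (algebraMap K F))

/-- The rank conjecture for large ranks and degrees implies the rank conjecture. -/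
def RankLaw (U : Set (Set ℂ)) : Prop :=
  ∀ R M : ℕ, 0 < M →
    (∀ (F : Type) [Field F] [NumberField F] (E : WeierstrassCurve F), Generic E →
      R ≤ rank E → M ∣ Module.finrank ℚ F → BSD U E) →
    ∀ (K : Type) [Field K] [NumberField K] (E : WeierstrassCurve K), Generic E →
      Continues U E → BSD U E

/-- The law for wide families. -/
def WideLaw (U : Set (Set ℂ)) : Prop :=
  ∀ (K : Type) [Field K] [NumberField K] (E : WeierstrassCurve K), E.IsElliptic →
    ∀ 𝓕 : Set (IntermediateField K (AlgebraicClosure K)), Wide K 𝓕 →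
    (∀ F ∈ 𝓕, ∀ [NumberField F], BSD U (E.map (algebraMap K F))) →
    (∃ m : ℕ, 0 < m ∧ PowerBSD U E m) ∧ (Continues U E → BSD U E)

theorem powerBSD_iff (U : Set (Set ℂ)) {F : Type} [Field F] [NumberField F]
    (E : WeierstrassCurve F) (t : ℕ) : PowerBSD U E t ↔
      Pool.Agent.Q5.BR.AllB U E (t : ℤ) (t * Pool.Agent.Q5.BR.rk E) := by
  unfold PowerBSD Pool.Agent.Q5.BR.AllB Pool.Agent.Q5.BR.PowB
  simp only [zpow_natCast]
  rfl

theorem bsd_iff (U : Set (Set ℂ)) {F : Type} [Field F] [NumberField F]
    (E : WeierstrassCurve F) : BSD U E ↔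
      Pool.Agent.Q5.BR.AllB U E 1 (Pool.Agent.Q5.BR.rk E) := by
  unfold BSD Pool.Agent.Q5.BR.AllB Pool.Agent.Q5.BR.PowB
  simp only [zpow_one]
  rfl

/-- **The rank conjecture follows from its case of large rank.**  Let `U` be a family of domains, and
let `K` be a number field, `E/K` an elliptic curve; in 1, 2, 3 and 6 its invariant `j` is different from
`0` and `1728`, that is, `c₄ ≠ 0` and `c₆ ≠ 0`.
1. If for some `R` the rank conjecture holds for `E/F` for all multiquadratic `F/K` with
`rank E(F) ≥ R`, then for some `k` the function `L(E/K, s)^(2^k)` has a continuation of order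
`2^k · rank E(K)` at `s = 1`; hence the rank conjecture holds for `E/K` if `L(E/K, s)` has a continuation.
2. Counterexamples spread to arbitrarily large ranks: if `L(E/K, s)` has a continuation and the rank
conjecture fails for `E/K`, then for every `R` there is a multiquadratic extension `F/K` with
`rank E(F) ≥ R` such that it fails for `E/F`.
3. Let `R` and `M > 0` be given.  If the rank conjecture holds for all elliptic curves with `j ≠ 0, 1728`
and rank at least `R` over the number fields of degree divisible by `M`, then it holds for all elliptic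
curves with `j ≠ 0, 1728` over all number fields whose `L`-function has a continuation.
4. If the rank conjecture holds for `E/F` for all `F` in a wide family of finite extensions of `K`, then
for some `m > 0` the function `L(E/K, s)^m` has a continuation of order `m · rank E(K)` at `s = 1`; hence
the rank conjecture holds for `E/K` if `L(E/K, s)` has a continuation.
5. The intersection of two wide families is wide, and the extensions of degree divisible by `M` form a wide
family.
6. The extensions `F/K` with `rank E(F) ≥ R` form a wide family. -/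
theorem result (U : Set (Set ℂ)) (hU : IsDomains U) :
    MultiquadraticLaw U ∧ SpreadLaw U ∧ RankLaw U ∧ WideLaw U ∧
    (∀ (K : Type) [Field K] [NumberField K],
      (∀ 𝓕 𝓖 : Set (IntermediateField K (AlgebraicClosure K)), Wide K 𝓕 → Wide K 𝓖 →
        Wide K (𝓕 ∩ 𝓖)) ∧
      ∀ M : ℕ, 0 < M → Wide K {F | FiniteDimensional K F ∧ M ∣ Module.finrank K F}) ∧
    (∀ (K : Type) [Field K] [NumberField K] (E : WeierstrassCurve K), Generic E → ∀ R : ℕ,
      Wide K {F | FiniteDimensional K F ∧ R ≤ rank (E.map (algebraMap K F))}) := by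
  have hU' : Pool.Agent.Q5.BR.IsDomains U := hU
  have cont : ∀ (F : Type) [Field F] [NumberField F] (E : WeierstrassCurve F) (m : ℕ), m ≠ 0 →
      PowerBSD U E m → Continues U E → BSD U E := by
    intro F _ _ E m hm h hc V hV
    rw [powerBSD_iff] at h
    obtain ⟨u, hu, f, hf, hf'⟩ := hc V hV
    exact ⟨u, hu, f, hf, hf', Pool.Agent.Q5.BR.order_of_power hU' hm (h V hV) hu hf hf'⟩
  have part1 : MultiquadraticLaw U := by
    intro K _ _ E hE R h
    obtain ⟨k, hk⟩ := Pool.Agent.Q5.HR.law hU' hE.1 hE.2.1 hE.2.2 R (fun F _ _ _ hF hR => by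
      have h1 := h F hF hR
      rw [bsd_iff] at h1
      exact h1)
    have h2 : PowerBSD U E (2 ^ k) := by
      rw [powerBSD_iff]
      exact hk
    exact ⟨⟨k, h2⟩, cont K E _ (pow_ne_zero k two_ne_zero) h2⟩
  have part4 : WideLaw U := by
    intro K _ _ E hE 𝓕 hF h
    obtain ⟨m, hm, h1⟩ := Pool.Agent.Q5.HR.crit (𝓕 := 𝓕) hU' hE hF (fun F hF' => by
      intro _
      have h1 := h F hF'
      rw [bsd_iff] at h1
      exact h1)
    have h2 : PowerBSD U E m := by
      rw [powerBSD_iff]
      exact h1
    exact ⟨⟨m, hm, h2⟩, cont K E _ hm.ne' h2⟩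
  refine ⟨part1, ?_, ?_, part4, ?_, ?_⟩
  · intro K _ _ E hE hc hnot R
    by_contra hcon
    push Not at hcon
    exact hnot ((part1 K E hE R fun F _ _ _ hF hR => hcon F _ _ _ hF hR).2 hc)
  · intro R M hM h K _ _ E hE hc
    have hw := (Pool.Agent.Q5.HR.wide_rank hE.1 hE.2.1 hE.2.2 R).inter
      (Pool.Agent.Q5.HR.wide_deg (K := K) hM)
    refine (part4 K E hE.1 _ hw ?_).2 hc
    rintro F ⟨⟨-, hR⟩, -, hd⟩ _
    have hE1 := hE.1
    have hEF : (E.map (algebraMap K F)).IsElliptic := inferInstance
    refine h F (E.map (algebraMap K F)) ⟨hEF, ?_, ?_⟩ hR ?_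
    · rw [WeierstrassCurve.map_c₄]
      exact (map_ne_zero_iff _ (algebraMap K F).injective).2 hE.2.1
    · rw [WeierstrassCurve.map_c₆]
      exact (map_ne_zero_iff _ (algebraMap K F).injective).2 hE.2.2
    · rw [← Module.finrank_mul_finrank ℚ K F]
      exact hd.mul_left _
  · intro K _ _
    exact ⟨fun 𝓕 𝓖 hF hG => Pool.Agent.Q5.HR.Wide.inter hF hG,
      fun M hM => Pool.Agent.Q5.HR.wide_deg hM⟩
  · intro K _ _ E hE R
    exact Pool.Agent.Q5.HR.wide_rank hE.1 hE.2.1 hE.2.2 R

end Pool.Agent.Results.MP_cd906c_nt.HighRankLaw
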