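import Pool.Agent.Q282.LD.NF4

/-!
# Large deviations of the products of Birch and Swinnerton-Dyer over every number field

Birch and Swinnerton-Dyer were led to their conjecture by the products `P(X) = ∏ #E(k_v) / q_v` over the primes `v` of good
reduction of norm `q_v ≤ X`: the conjecture predicts that `P(X)` is of the order of magnitude `(log X) ^ rank E(K)`, up to a
constant, for `X` tending to infinity.

Here `K` is any number field and the curves `E_t : y ^ 2 = x ^ 3 + b x ^ 2 + c x + d` with `r = 0, 1, 2` marked independent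
integral points over the ring of integers `𝓞` of `K` are considered:

* `r = 0`: all `b, c, d` in `𝓞`;
* `r = 1`: all curves with an integral point `(x₁, y₁)`: `x ^ 3 + b x ^ 2 + c x + d = (x - x₁) (x ^ 2 + u x + v) + y₁ ^ 2`;
* `r = 2`: all curves with three integral points on a line `y = l x + m`:
  `x ^ 3 + b x ^ 2 + c x + d = (x - x₁) (x - x₂) (x - x₃) + (l x + m) ^ 2`.

For almost all curves of the families `P(X)` is `(log X) ^ (r + 1 / 2 + o(1))`.  It is proved here how many curves have products
of another order of magnitude: the proportion of the curves of the families with `P(X) ≥ (log X) ^ (r + 1 / 2 + y)`, `y ≥ 0`, is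
`(log X) ^ (-y ^ 2 / 2 + o(1))`, and the same holds for `P(X) ≤ (log X) ^ (r + 1 / 2 - y)`; this remains true if only the curves
with rank `≥ r` are counted. So, the proportion of the curves whose product looks like that of a curve of rank `ρ` (with the
average value `ρ + 1 / 2` of the exponent) is `(log X) ^ (-(ρ - r) ^ 2 / 2 + o(1))`.

Proof. For a prime `v` of degree one over `p` the local mean and second moment of `log (#E(k_v) / q_v)` over the families are
`(r + 1 / 2) / p + O (p ^ (-3 / 2))` and `1 / p + O (p ^ (-3 / 2))`, and the values at different primes over `p` are independent.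
The exponential moments of the sum over `p ≤ X` of the model of independent variables are computed up to a constant factor. The
parameters of a box with sides `≥ X ^ ((log log X) ^ 3)` have the same joint moments as the model up to the order
`(log log X) ^ 2`, up to a tiny error, and `(1 + x / 2 N) ^ (2 N)` is used instead of the exponential. The rank is at least `r`
with the exception of a proportion smaller than any power of `1 / log X` by a sieve with `(log log X) ^ 2` primes.
-/

set_option autoImplicit false

namespace Pool.Agent.Results.MP_cd906c_nt.LargeDeviations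

open Finset NumberField
open Q282.NF

open Classical in
/-- The proportion of the elements of a finite set which have a property. -/
noncomputable def proportion {α : Type} (s : Finset α) (P : α → Prop) : ℝ := ((s.filter P).card : ℝ) / (s.card : ℝ)

open Classical in
/-- Let `K` be a number field, `r = 0, 1, 2`, `y ≥ 0` and `ε > 0`. There is an `X₁` with the following property. Let `X ≥ X₁` and
`T ≥ X ^ ((log log X) ^ 3)`, let `b` be a basis of the ring of integers of `K` over `ℤ`, and let a box
`N i j ≤ n i j < N i j + L i j` of coordinates be given all sides `L i j` of which are at least `T`. For `n` in the box let `E_n` be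
the curve `y ^ 2 = x ^ 3 + b x ^ 2 + c x + d`, `(b, c, d) = family r t`, `t i = ∑ n i j b j`, with `r` marked points, and `P_n(X)` its
product of Birch and Swinnerton-Dyer over the primes of `K` of norm at most `X`. Then

* the proportion of the `n` of the box such that `E_n` is an elliptic curve, the rank of the group of its `K`-rational points is at
  least `r`, and `P_n(X) ≥ (log X) ^ (r + 1 / 2 + y)`, is at least `(log X) ^ (-y ^ 2 / 2 - ε)`;
* the proportion of the `n` of the box with `P_n(X) ≥ (log X) ^ (r + 1 / 2 + y)` is at most `(log X) ^ (-y ^ 2 / 2 + ε)`;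
* both bounds hold with `P_n(X) ≤ (log X) ^ (r + 1 / 2 - y)` instead of `P_n(X) ≥ (log X) ^ (r + 1 / 2 + y)`. -/
theorem result (K : Type) [Field K] [NumberField K] (r : ℕ) (hr : r ≤ 2) (y ε : ℝ) (hy : 0 ≤ y) (hε : 0 < ε) :
    ∃ X₁ : ℕ, ∀ X : ℕ, X₁ ≤ X → ∀ T : ℝ, (X : ℝ) ^ ((Real.log (Real.log X)) ^ 3) ≤ T →
    ∀ (b : Module.Basis (Fin (Module.finrank ℚ K)) ℤ (𝓞 K))
    (N : Fin (r + 3) → Fin (Module.finrank ℚ K) → ℤ) (L : Fin (r + 3) → Fin (Module.finrank ℚ K) → ℕ),
    (∀ i j, T ≤ L i j) →
      ((Real.log X) ^ (-(y ^ 2 / 2) - ε) ≤ proportion (box N L) (fun n => (curve (family r (combine b n))).IsElliptic ∧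
          (r : Cardinal) ≤ Module.rank ℤ (curve (family r (combine b n))).toAffine.Point ∧
          (Real.log X) ^ (r + 1 / 2 + y) ≤ product (family r (combine b n)) X) ∧
        proportion (box N L) (fun n => (Real.log X) ^ (r + 1 / 2 + y) ≤ product (family r (combine b n)) X) ≤
          (Real.log X) ^ (-(y ^ 2 / 2) + ε)) ∧
      ((Real.log X) ^ (-(y ^ 2 / 2) - ε) ≤ proportion (box N L) (fun n => (curve (family r (combine b n))).IsElliptic ∧
          (r : Cardinal) ≤ Module.rank ℤ (curve (family r (combine b n))).toAffine.Point ∧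
          product (family r (combine b n)) X ≤ (Real.log X) ^ (r + 1 / 2 - y)) ∧
        proportion (box N L) (fun n => product (family r (combine b n)) X ≤ (Real.log X) ^ (r + 1 / 2 - y)) ≤
          (Real.log X) ^ (-(y ^ 2 / 2) + ε)) := by
  obtain ⟨X₁, -, h⟩ := Q282.LD.ldp_nf K r hr y ε hy hε
  refine ⟨max 16 X₁, ?_⟩
  intro X hX T hT b N L hL
  rw [max_le_iff] at hX
  obtain ⟨hX16, hX₁⟩ := hX
  have hX0 : (16 : ℝ) ≤ X := by exact_mod_cast hX16
  have hlogX : 1 < Real.log X := by
    rw [Real.lt_log_iff_exp_lt (by linarith)]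
    linarith [Real.exp_one_lt_three]
  have hlog0 : 0 < Real.log X := by linarith
  have hb : ∀ x : 𝓞 K, ∃ a : Fin (Module.finrank ℚ K) → ℤ, x = ∑ j, (a j : 𝓞 K) * b j := by
    intro x
    refine ⟨fun j => b.repr x j, ?_⟩
    have h1 := b.sum_repr x
    rw [← h1]
    refine sum_congr rfl fun j _ => ?_
    rw [h1, zsmul_eq_mul]
  have hT0 : 0 < T := lt_of_lt_of_le (Real.rpow_pos_of_pos (by linarith) _) hT
  have hP0 : 0 < ∏ i, ∏ j, (L i j : ℝ) := prod_pos fun i _ => prod_pos fun j _ => hT0.trans_le (hL i j)
  have hcard : ((box N L).card : ℝ) = ∏ i, ∏ j, (L i j : ℝ) := by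
    have h1 := box_card_filter N L (fun _ => True)
    rw [filter_true, filter_true] at h1
    rw [h1, Q282.BP.card_bx, Nat.cast_prod, prod_flat]
  have hpow : ∀ a : ℝ, (Real.log X) ^ a = Real.exp (a * Real.log (Real.log X)) := by
    intro a
    rw [Real.rpow_def_of_pos hlog0, mul_comm]
  have key : ∀ (P Q : (Fin (r + 3) → Fin (Module.finrank ℚ K) → ℤ) → Prop) (σ : ℝ), (σ = 1 ∨ σ = -1) →
      (∀ n, P n ↔ Ok K r (combine b n) ∧
        (σ * (r + 1 / 2) + y) * Real.log (Real.log X) ≤ σ * Real.log (product (family r (combine b n)) X)) →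
      (∀ n, Q n ↔ (σ * (r + 1 / 2) + y) * Real.log (Real.log X) ≤ σ * Real.log (product (family r (combine b n)) X)) →
      (Real.log X) ^ (-(y ^ 2 / 2) - ε) ≤ proportion (box N L) P ∧ proportion (box N L) Q ≤ (Real.log X) ^ (-(y ^ 2 / 2) + ε) := by
    intro P Q σ hσ hP hQ
    obtain ⟨h1, h2⟩ := h X hX₁ T hT (fun j => b j) hb N L hL σ hσ
    unfold proportion
    rw [hcard, hpow, hpow]
    have e1 : -(y ^ 2 / 2) - ε = -(y ^ 2 / 2 + ε) := by ring
    have e2 : -(y ^ 2 / 2) + ε = -(y ^ 2 / 2 - ε) := by ring
    rw [e1, e2, le_div_iff₀ hP0, div_le_iff₀ hP0, neg_mul, neg_mul, filter_congr fun n _ => hP n, filter_congr fun n _ => hQ n]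
    exact ⟨h1, h2⟩
  have hle : ∀ (a : ℝ) (x : ℝ), 0 < x → ((Real.log X) ^ a ≤ x ↔ a * Real.log (Real.log X) ≤ Real.log x) := by
    intro a x hx
    rw [hpow, Real.le_log_iff_exp_le hx]
  have hge : ∀ (a : ℝ) (x : ℝ), 0 < x → (x ≤ (Real.log X) ^ a ↔ Real.log x ≤ a * Real.log (Real.log X)) := by
    intro a x hx
    rw [hpow, Real.log_le_iff_le_exp hx]
  constructor
  · refine key _ _ 1 (Or.inl rfl) (fun n => ?_) fun n => ?_
    · rw [hle _ _ (Q282.LD.product_pos _ _), ← and_assoc, one_mul, one_mul]
      rfl
    · rw [hle _ _ (Q282.LD.product_pos _ _), one_mul, one_mul]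
  · refine key _ _ (-1) (Or.inr rfl) (fun n => ?_) fun n => ?_
    · rw [hge _ _ (Q282.LD.product_pos _ _), ← and_assoc]
      refine and_congr_right fun _ => ?_
      constructor <;> intro h1 <;> linarith
    · rw [hge _ _ (Q282.LD.product_pos _ _)]
      constructor <;> intro h1 <;> linarith

end Pool.Agent.Results.MP_cd906c_nt.LargeDeviations
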