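import Pool.Agent.Q282.NF.RankFam

/-!
# The original products of Birch and Swinnerton-Dyer over every number field, for almost all curves with marked points

Birch and Swinnerton-Dyer were led to their conjecture by the observation that curves with many rational points have many points
modulo the primes.  Over a number field `K`, with the products `P(X) = ∏ #E(k_v) / q_v` over the primes `v` of good reduction
of norm `q_v ≤ X`, the conjecture predicts the order of magnitude `(log X) ^ rank E(K)`, up to a constant, for `X` tending to
infinity.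

Here `K` is any number field and the curves `E_t : y ^ 2 = x ^ 3 + b x ^ 2 + c x + d` with `r = 0, 1, 2` marked independent
integral points over the ring of integers `𝓞` of `K` are considered:

* `r = 0`: all `b, c, d` in `𝓞`;
* `r = 1`: all curves with an integral point `(x₁, y₁)`: `x ^ 3 + b x ^ 2 + c x + d = (x - x₁) (x ^ 2 + u x + v) + y₁ ^ 2`;
* `r = 2`: all curves with three integral points on a line `y = l x + m`:
  `x ^ 3 + b x ^ 2 + c x + d = (x - x₁) (x - x₂) (x - x₃) + (l x + m) ^ 2`.

The parameters are given by their coordinates in an arbitrary `ℤ`-basis of `𝓞`, which run through an arbitrary box with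
sides `≥ T`.  It is proved that for almost all curves of the families the rank of `E(K)` is at least `r`, and
`P(X) = (log X) ^ (r + 1 / 2) exp (O ((log log X) ^ (1 / 2 + δ)))` simultaneously for all `X` between `X₀` and `T ^ c`, up to a
proportion `O ((log log X₀) ^ (-A))` of exceptions.  The exponent does not depend on the field: it is the generic rank `r` over
`K` plus `1 / 2`.

Proof. Let `v` be a prime of degree `f` over `p`. The local mean of `log (#E(k_v) / q_v)` over the families is
`(r + 1 / 2) / q_v + O (q_v ^ (-3 / 2))`; the number of the primes of degree one over `p` is `1` on average, in the form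
`∑_{p ≤ X} ν(p) / p = log log X + O(1)` (starting files). For each `f` the sum of the values at the primes of degree `f` over `p`
is a function of the integral coordinates modulo `p`, and the law for such functions is proved by moments and a maximal
inequality. For `f ≥ 2` it says that these primes do not contribute. The marked points are independent if there is no
point of order two over `K` and if they are not divisible by two; otherwise certain cubic or quartic polynomials have roots in
`𝓞`, hence in all residue fields, and this is excluded for almost all `t` by a sieve.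
-/

set_option autoImplicit false

namespace Pool.Agent.Results.MP_cd906c_nt.MarkedPointsEveryField

open Finset NumberField
open Q282.NF

open Classical in
/-- Let `K` be a number field, `r = 0, 1, 2`, `δ > 0` and `A > 0`. There are `c > 0` and `C` with the following property. Let
`b` be a basis of the ring of integers of `K` over `ℤ`, let a box `N i j ≤ n i j < N i j + L i j` of coordinates be given all
sides `L i j` of which are at least `T`, and let `16 ≤ X₀ ≤ T ^ c`. Then all but at most a proportion `C (log log X₀) ^ (-A)` of
the `n` of the box have the following properties for the parameters `t i = ∑ n i j b j`: the curve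
`y ^ 2 = x ^ 3 + b x ^ 2 + c x + d`, `(b, c, d) = family r t`, with `r` marked points is an elliptic curve over `K`, its group
of `K`-rational points has rank at least `r`, and its product `P(X)` of Birch and Swinnerton-Dyer over the primes of `K` of norm
at most `X` satisfies `|log P(X) - (r + 1 / 2) log log X| ≤ (log log X) ^ (1 / 2 + δ)` for all integers `X` with
`X₀ ≤ X ≤ T ^ c`. -/
theorem result (K : Type) [Field K] [NumberField K] (r : ℕ) (hr : r ≤ 2) (δ A : ℝ) (hδ : 0 < δ) (hA : 0 < A) :
    ∃ c : ℝ, 0 < c ∧ ∃ C : ℝ, ∀ (b : Module.Basis (Fin (Module.finrank ℚ K)) ℤ (𝓞 K))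
    (N : Fin (r + 3) → Fin (Module.finrank ℚ K) → ℤ) (L : Fin (r + 3) → Fin (Module.finrank ℚ K) → ℕ) (T : ℝ),
    0 < T → (∀ i j, T ≤ L i j) → ∀ X₀ : ℕ, 16 ≤ X₀ → (X₀ : ℝ) ≤ T ^ c →
      (((box N L).filter fun n => ¬ ((curve (family r (combine b n))).IsElliptic ∧
        (r : Cardinal) ≤ Module.rank ℤ (curve (family r (combine b n))).toAffine.Point ∧
        ∀ X : ℕ, X₀ ≤ X → (X : ℝ) ≤ T ^ c →
          |Real.log (product (family r (combine b n)) X) - (r + 1 / 2) * Real.log (Real.log X)| ≤
            (Real.log (Real.log X)) ^ (1 / 2 + δ))).card : ℝ) ≤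
        C * (Real.log (Real.log X₀)) ^ (-A) * ∏ i, ∏ j, (L i j : ℝ) := by
  obtain ⟨c, hc, C, hC, h⟩ := law_nf K r hr δ A hδ hA
  obtain ⟨C', hC', h'⟩ := rank_nf K r hr A hA
  refine ⟨min c 1, lt_min hc zero_lt_one, C + C', fun b N L T hT0 hTL X₀ hX₀ hXT => ?_⟩
  have hb : ∀ x : 𝓞 K, ∃ a : Fin (Module.finrank ℚ K) → ℤ, x = ∑ j, (a j : 𝓞 K) * b j := by
    intro x
    refine ⟨fun j => b.repr x j, ?_⟩
    have h1 := b.sum_repr x
    rw [← h1]
    refine sum_congr rfl fun j _ => ?_
    rw [h1, zsmul_eq_mul]
  have hX₀' : (16 : ℝ) ≤ X₀ := by exact_mod_cast hX₀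
  have hT1 : 1 ≤ T := by
    by_contra hlt
    push Not at hlt
    have := Real.rpow_le_one hT0.le hlt.le (lt_min hc zero_lt_one).le
    linarith
  have hXT' : (X₀ : ℝ) ≤ T := by
    refine hXT.trans ?_
    calc T ^ (min c 1) ≤ T ^ (1 : ℝ) := Real.rpow_le_rpow_of_exponent_le hT1 (min_le_right _ _)
      _ = T := Real.rpow_one T
  have hTc : T ^ (min c 1) ≤ T ^ c := Real.rpow_le_rpow_of_exponent_le hT1 (min_le_left _ _)
  have h1 := h (fun j => b j) hb N L T hT0 hTL X₀ hX₀
  have h2 := h' (fun j => b j) hb T X₀ hX₀ hXT' N L hTL ((box N L).filter fun n => ¬ Ok K r (combine (fun j => b j) n))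
    (filter_subset _ _) (fun t ht => (mem_filter.1 ht).2)
  have h3 : ((box N L).filter fun n => ¬ ((curve (family r (combine b n))).IsElliptic ∧
        (r : Cardinal) ≤ Module.rank ℤ (curve (family r (combine b n))).toAffine.Point ∧
        ∀ X : ℕ, X₀ ≤ X → (X : ℝ) ≤ T ^ (min c 1) →
          |Real.log (product (family r (combine b n)) X) - (r + 1 / 2) * Real.log (Real.log X)| ≤
            (Real.log (Real.log X)) ^ (1 / 2 + δ))) ⊆
      ((box N L).filter fun n => ¬ ∀ X : ℕ, X₀ ≤ X → (X : ℝ) ≤ T ^ c →
        |Real.log (product (family r (combine (fun j => b j) n)) X) - (r + 1 / 2) * Real.log (Real.log X)| ≤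
          (Real.log (Real.log X)) ^ (1 / 2 + δ)) ∪ ((box N L).filter fun n => ¬ Ok K r (combine (fun j => b j) n)) := by
    intro t ht
    rw [mem_filter] at ht
    rw [mem_union, mem_filter, mem_filter]
    by_contra hno
    rw [not_or] at hno
    have h4 : ∀ X : ℕ, X₀ ≤ X → (X : ℝ) ≤ T ^ c →
        |Real.log (product (family r (combine (fun j => b j) t)) X) - (r + 1 / 2) * Real.log (Real.log X)| ≤
          (Real.log (Real.log X)) ^ (1 / 2 + δ) := by
      by_contra h5
      exact hno.1 ⟨ht.1, h5⟩
    have h5 : Ok K r (combine (fun j => b j) t) := by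
      by_contra h5
      exact hno.2 ⟨ht.1, h5⟩
    exact ht.2 ⟨h5.1, h5.2, fun X hX1 hX2 => h4 X hX1 (hX2.trans hTc)⟩
  have h4 := card_le_card h3
  have h5 := (Nat.cast_le (α := ℝ)).2 (h4.trans (card_union_le _ _))
  push_cast at h5
  refine h5.trans ((add_le_add h1 h2).trans (le_of_eq ?_))
  ring

end Pool.Agent.Results.MP_cd906c_nt.MarkedPointsEveryField
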