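import Mathlib
import Pool.Agent.Q7.RL.Model
import Pool.Agent.Q7.RL.ASol

/-!
# The rank conjecture in a solvable extension reduces to a subfield of bounded degree

`M/K` is a solvable Galois extension of number fields with group `M ≃ₐ[K] M`, and `E` is an elliptic
curve over `K` with an integral equation `W` (`IsModel E W`).

The L-functions and ranks are real ones. `LSeries V` is the Euler product `L(E/F, s)` with the right
factors at all primes of `F`, for `Re s > 3/2`; `rank E` is the rank of the group of points.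
`Pool.Agent.Q92.RT.twistedL M W φ` is `L(E ⊗ φ, s)` for a class function `φ` of the Galois group:
`exp ∑ φ(Frob_v ^ n) (α_v ^ n + β_v ^ n) / (n q_v ^ (n s))` over `n ≥ 1` and the primes `v` of `K` which do not
divide `6` and the discriminant of `W` and are unramified in `M`; the finitely many Euler factors left
out have no zeros and poles for `Re s ≥ 1`. `Continues f g` says that `f` is meromorphic on `ℂ` and
equal to `g` for `Re s > 3/2`; `HasOrder g s₀ n` and `LOrder E s₀ n` say that `g`, or `L(E, s)`, has a
meromorphic continuation to `ℂ`, of order `n` at `s₀`.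

`Pool.Agent.Q92.RT.Automorphic M W 1` is the only assumption, and concerns continuation only:
`L(E ⊗ χ, s)` has a meromorphic continuation for the irreducible characters `χ` of the Galois group,
and `L(E/M^H ⊗ ψ, s)` has one which is holomorphic at `1` for the linear characters `ψ` of the
subgroups `H`. For `K = ℚ`, and for all modular `E`, this is known (solvable base change and descent).
-/

set_option autoImplicit false

open NumberField IsDedekindDomain Pool.Agent.H541R3.ART Pool.Agent.W446.AS Pool.Agent.H302R2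
  Pool.Agent.H302R3 Pool.Agent.Q7.TZ Pool.Agent.Q7.SZ Pool.Agent.Q92.RT Pool.Agent.W353.NF
  Pool.Agent.H341R2.EC Pool.Agent.Q7.RL

/-- Let `E` be an elliptic curve over the number field `K` and `M/K` a solvable Galois extension; let
`k` be the order of `L(E/M, s)` at `s = 1`, and let `n χ` and `r F` be the orders at `1` of
`L(E ⊗ χ, s)` and `L(E/F, s)`. There is a smallest Galois extension `L` of `K` in `M` such that
`L(E/L, s)` has order `k` at `1`, and the following holds.
(1) All `χ` with `n χ ≠ 0` come from the Galois group of `L/K`, and `r F = r (F ∩ L)` for all fields `F`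
between `K` and `M`.
(2) `L` is abelian over an extension `D` of `K` whose degree is bounded in terms of `k` only.
(3) The rank conjecture holds for `E` over ALL fields between `K` and `M` if and only if it holds over
`M` and over the subfields of `L` over `K`.
(4) If this is the case, then `[L : K] ≤ 3 ^ (k ^ 2)`. -/
theorem Pool.Agent.Results.MP_cd906c_nt.SmallestField.result
    (K M : Type) [Field K] [NumberField K] [Field M] [NumberField M] [Algebra K M] [IsGalois K M]
    (hsol : Group.IsSolvable (M ≃ₐ[K] M))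
    (E : WeierstrassCurve K) (hE : E.IsElliptic) (W : WeierstrassCurve (𝓞 K)) (hW : IsModel E W)
    (a : Automorphic M W 1) (k : ℕ) (hk : LOrder (E.map (algebraMap K M)) 1 k) :
    ∃ (n : ((M ≃ₐ[K] M) → ℂ) → ℤ) (r : IntermediateField K M → ℤ), Orders E W 1 n r ∧
    ∃ L : IntermediateField K M, IsGalois K L ∧
      (∀ L' : IntermediateField K M, IsGalois K L' → (r L' = k ↔ L ≤ L')) ∧
      (∀ χ ∈ Irr (M ≃ₐ[K] M), n χ ≠ 0 → ∀ x ∈ L.fixingSubgroup, χ x = χ 1) ∧
      (∀ F, r F = r (F ⊓ L)) ∧
      (∃ D : IntermediateField K M, D ≤ L ∧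
        (∀ σ ∈ D.fixingSubgroup, ∀ τ ∈ D.fixingSubgroup, σ * τ * σ⁻¹ * τ⁻¹ ∈ L.fixingSubgroup) ∧
        Module.finrank K D ≤ 5 ^ (2 * ((k ^ (1 + Nat.log 2 (k ^ 2))) ^ 2) * k ^ 2)) ∧
      ((∀ F : IntermediateField K M, r F = rank (E.map (algebraMap K F))) ↔
        (k : ℤ) = rank (E.map (algebraMap K M)) ∧
          ∀ F : IntermediateField K M, F ≤ L → r F = rank (E.map (algebraMap K F))) ∧
      ((∀ F : IntermediateField K M, r F = rank (E.map (algebraMap K F))) →
        Module.finrank K L ≤ 3 ^ (k ^ 2)) := by
  classical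
  obtain ⟨n, r, ho⟩ := exists_orders (M := M) hE hW (by simp) a
  refine ⟨n, r, ho, ?_⟩
  have hM := ho.eq_of_lorder_top hE hW (by simp) a hk
  have hb := ho.mbot hE hW (by simp) a
  rw [hM] at hb
  have hfin : FiniteDimensional ℚ (TensorProduct ℤ ℚ (E.baseChange M).toAffine.Point) :=
    mw_finite hE
  obtain ⟨N, hN, h1, ⟨h3, h4⟩, ⟨B, hNB, hB, hBi⟩, h6⟩ := abs_sol (M ≃ₐ[K] M) hsol
    (TwistData.ofCurve a).model k hb
  obtain ⟨h7, h8⟩ := h6 (TensorProduct ℤ ℚ (E.baseChange M).toAffine.Point) (mw E M)
  obtain ⟨L, hL, rfl⟩ := exists_galois N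
  have key : ∀ F : IntermediateField K M, ∀ k : ℤ,
      meromorphicOrderAt ((TwistData.ofCurve a).model.Lin F.fixingSubgroup 1) 1 =
        (k : WithTop ℤ) ↔ r F = k := by
    intro F k
    rw [ho.mlin hE hW (by simp) a F]
    exact WithTop.coe_eq_coe
  refine ⟨L, hL, fun L' hL' => ?_, fun χ hχ hne => ?_, fun F => ?_, ?_, ?_, fun h => ?_⟩
  · rw [← key L' k, ← fixing_le_iff]
    exact h1 L'.fixingSubgroup inferInstance
  · refine h3 χ hχ fun h0 => hne ?_
    rw [ho.mL a hχ] at h0
    exact_mod_cast h0
  · have h9 := h4 F.fixingSubgroup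
    rw [← fixingSubgroup_inf, ho.mlin hE hW (by simp) a, ho.mlin hE hW (by simp) a] at h9
    exact_mod_cast h9.symm
  · obtain ⟨D, rfl⟩ := exists_fixing B
    exact ⟨D, fixing_le_iff.1 hNB, hB, by rw [finrank_eq_index]; exact hBi⟩
  · rw [← ho.rankHolds_all hE hW a, h7]
    refine and_congr ?_ ?_
    · unfold RankHolds
      rw [hb, rk_mw_bot]
      exact WithTop.coe_eq_coe
    · constructor
      · intro h9 F hF
        exact (ho.rankHolds hE hW a F).1 (h9 F.fixingSubgroup (fixing_le_iff.2 hF))
      · intro h9 H hH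
        obtain ⟨F, rfl⟩ := exists_fixing H
        exact (ho.rankHolds hE hW a F).2 (h9 F (fixing_le_iff.1 hH))
  · rw [finrank_eq_index]
    exact h8 ((ho.rankHolds_all hE hW a).2 h)
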