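import Mathlib
import Pool.Agent.Q7.SZ.SolR

/-!
# The rank conjecture in solvable extensions: reduction to one field of bounded complexity

`Pool.Agent.H541R3.ART.Irr G` is the set of irreducible complex characters of the finite group `G`.

Let `E` be an elliptic curve over a number field `K` and `M/K` a solvable Galois extension with group
`G` such that `E` is automorphic over `M` (for example `E/K` modular). Then `E` is automorphic over
the fixed fields `M ^ H` of all subgroups `H` of `G`, by solvable descent.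
`Pool.Agent.Q7.SZ.TwistData G 1` is a family of functions with the formal properties of the twisted
L-functions of `E` near `s = 1`: `L χ` (for `L(E ⊗ χ, s)`, `χ ∈ Irr G`), meromorphic and not
identically zero (Brauer), and `Lin H ψ` (for `L(E / M ^ H ⊗ ψ, s)`, `ψ` a linear character of a
subgroup `H`) without pole at `1` if `H` is solvable, which are the products of the
`L χ ^ ⟨χ|_H, ψ⟩` (induction). In particular `Lin ⊥ 1` stands for `L(E/M, s)` and `Lin H 1` for
`L(E / M ^ H, s)`.

For a representation `ρ` of `G` on a rational vector space `V`, `Pool.Agent.Q7.SZ.rk ρ H` is the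
dimension of the subspace of the vectors fixed by `H`. If `V = E(M) ⊗ ℚ`, then `rk ρ H` is the rank
of `E(M ^ H)`. `Pool.Agent.Q7.SZ.RankHolds A ρ H` says that the order of `Lin H 1` at `1` is
`rk ρ H`; for `V = E(M) ⊗ ℚ` this is the rank conjecture of Birch and Swinnerton-Dyer for `E` over
`M ^ H`.
-/

set_option autoImplicit false

open Pool.Agent.H541R3.ART Pool.Agent.H302R2 Pool.Agent.H302R3 Pool.Agent.W446.AS
  Pool.Agent.Q7.TZ Pool.Agent.Q7.SZ

/-- Let `G` be solvable, the Galois group of `M/K`, and let `r` be the order of `L(E/M, s)` at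
`s = 1`. Then there is a SMALLEST Galois extension `F` of `K` in `M`, with group `G / N`, such that
`L(E/F, s)` has order `r` at `s = 1`, and
(1) `L(E ⊗ χ, s)` is holomorphic and nonzero at `s = 1` for all irreducible characters `χ` of `G`
which are not characters of `G / N`, and `L(E/F', s)` and `L(E/F' ∩ F, s)` have the same order at
`s = 1`, for all fields `F'` between `K` and `M`;
(2) `F` is an abelian extension of an extension of `K` of degree at most `5 ^ (2 D r ^ 2)`,
`D = (r ^ (1 + ⌊2 log₂ r⌋)) ^ 2`;
(3) the rank conjecture holds for all fields between `K` and `M` if (and only if) it holds for `M`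
and for the subfields of `F` which contain `K`;
(4) if the rank conjecture holds for all fields between `K` and `M` then the degree of `F` over `K`
is at most `3 ^ (r ^ 2)`. -/
theorem Pool.Agent.Results.MP_cd906c_nt.SolvableExtensions.result
    (G : Type) [Group G] [Finite G] (hG : Group.IsSolvable G) (A : TwistData G 1) (r : ℕ)
    (hr : meromorphicOrderAt (A.Lin ⊥ 1) 1 = (r : WithTop ℤ)) :
    ∃ N : Subgroup G, N.Normal ∧
      (∀ N' : Subgroup G, N'.Normal →
        (meromorphicOrderAt (A.Lin N' 1) 1 = (r : WithTop ℤ) ↔ N' ≤ N)) ∧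
      ((∀ χ ∈ Irr G, meromorphicOrderAt (A.L χ) 1 ≠ 0 → ∀ x ∈ N, χ x = χ 1) ∧
        ∀ H : Subgroup G,
          meromorphicOrderAt (A.Lin (H ⊔ N) 1) 1 = meromorphicOrderAt (A.Lin H 1) 1) ∧
      (∃ B : Subgroup G, N ≤ B ∧ (∀ a ∈ B, ∀ b ∈ B, a * b * a⁻¹ * b⁻¹ ∈ N) ∧
        B.index ≤ 5 ^ (2 * ((r ^ (1 + Nat.log 2 (r ^ 2))) ^ 2) * r ^ 2)) ∧
      ∀ (V : Type) [AddCommGroup V] [Module ℚ V] [FiniteDimensional ℚ V]
        (ρ : Representation ℚ G V),
        ((∀ H, RankHolds A ρ H) ↔ RankHolds A ρ ⊥ ∧ ∀ H, N ≤ H → RankHolds A ρ H) ∧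
        ((∀ H, RankHolds A ρ H) → N.index ≤ 3 ^ (r ^ 2)) := by
  refine ⟨KerS (theta A.ord : G → ℂ), inferInstance, fun N' hN' => ?_, ⟨fun χ hχ h => ?_, fun H => ?_⟩,
    exists_jordan A hr, fun V _ _ _ ρ => ⟨?_, fun h => index_le_of_rank A hr ρ h⟩⟩
  · exact A.order_iff hr N' hN' inferInstance
  · refine A.kerS_triv χ hχ fun h0 => h ?_
    rw [← A.coe_ord hχ, h0]
    rfl
  · exact A.order_sup A.kerS_triv H
  · exact rank_reduction A ρ A.kerS_triv
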