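import Mathlib
import Pool.Agent.Results.MP_fe892a_gt.ClosedCounterexample

open Set Topology

noncomputable section

namespace Pool.Agent.Results.MP_cdfe0d_gt.ContinuumT

/-- `K` is a subcontinuum of the space `S`: a nonempty compact connected subset. -/
def IsSubcontinuum {S : Type*} [TopologicalSpace S] (K : Set S) : Prop :=
  IsCompact K ∧ IsConnected K

/-- `X` is an indecomposable continuum: a nonempty compact connected Hausdorff space which is not
the union of two proper subcontinua. -/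
def IsIndecomposableContinuum (X : Type*) [TopologicalSpace X] : Prop :=
  T2Space X ∧ CompactSpace X ∧ ConnectedSpace X ∧
    ¬ ∃ A B : Set X, IsSubcontinuum A ∧ IsSubcontinuum B ∧ A ≠ univ ∧ B ≠ univ ∧ A ∪ B = univ

/-- Jones's set function `T`: the complement of the set of all points that lie in the interior of
a subcontinuum of `S` disjoint from `A`. -/
def jonesT {S : Type*} [TopologicalSpace S] (A : Set S) : Set S :=
  {p | ∃ K : Set S, IsSubcontinuum K ∧ p ∈ interior K ∧ K ∩ A = ∅}ᶜ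

open Pool.Agent.Results.MP_fe892a_gt.ClosedCounterexample (Sol zpt hlf zpt_coord norm_half
  continuous_c1 continuous_c2 isConnected_strip Sol.indecomposable Sol.nontrivial
  Sol.metrizable) in
/-- There are nondegenerate metrizable indecomposable continua `X`, `Y` and a subcontinuum `W` of
`X × Y` with nonempty interior such that `T W` is not the whole product. -/
theorem result : ∃ (X Y : Type) (_ : TopologicalSpace X) (_ : TopologicalSpace Y),
    IsIndecomposableContinuum X ∧ IsIndecomposableContinuum Y ∧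
    Nontrivial X ∧ Nontrivial Y ∧
    TopologicalSpace.MetrizableSpace X ∧ TopologicalSpace.MetrizableSpace Y ∧
    ∃ W : Set (X × Y), IsSubcontinuum W ∧ (interior W).Nonempty ∧ jonesT W ≠ univ := by
  have hc : ∀ c : ℝ, Continuous fun w : Sol 2 × Sol 3 =>
      ‖w.1.1 0 - w.2.1 0 - ((c : ℝ) : UnitAddCircle)‖ := fun c =>
    (((continuous_c1 0).sub (continuous_c2 0)).sub continuous_const).norm
  have hsub : ∀ c : ℝ, IsSubcontinuum {w : Sol 2 × Sol 3 |
      ‖w.1.1 0 - w.2.1 0 - ((c : ℝ) : UnitAddCircle)‖ ≤ 1 / 16} := fun c =>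
    ⟨(isClosed_le (hc c) continuous_const).isCompact, isConnected_strip c (1 / 16) (by norm_num)⟩
  have hint : ∀ c : ℝ, {w : Sol 2 × Sol 3 |
      ‖w.1.1 0 - w.2.1 0 - ((c : ℝ) : UnitAddCircle)‖ < 1 / 16} ⊆ interior {w : Sol 2 × Sol 3 |
      ‖w.1.1 0 - w.2.1 0 - ((c : ℝ) : UnitAddCircle)‖ ≤ 1 / 16} := fun c =>
    interior_maximal (fun w hw => le_of_lt (show ‖_‖ < _ from hw)) (isOpen_lt (hc c) continuous_const)
  refine ⟨Sol 2, Sol 3, inferInstance, inferInstance, Sol.indecomposable (by norm_num),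
    Sol.indecomposable (by norm_num), Sol.nontrivial (by norm_num), Sol.nontrivial (by norm_num),
    Sol.metrizable 2, Sol.metrizable 3,
    {w | ‖w.1.1 0 - w.2.1 0 - ((0 : ℝ) : UnitAddCircle)‖ ≤ 1 / 16}, hsub 0, ?_, ?_⟩
  · refine ⟨(0, 0), hint 0 ?_⟩
    show ‖(0 : Sol 2).1 0 - (0 : Sol 3).1 0 - ((0 : ℝ) : UnitAddCircle)‖ < 1 / 16
    have e1 : (0 : Sol 2).1 0 = 0 := rfl
    have e2 : (0 : Sol 3).1 0 = 0 := rfl
    rw [e1, e2, AddCircle.coe_zero, sub_zero, sub_zero, norm_zero]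
    norm_num
  · intro huniv
    have hmem : ((zpt, 0) : Sol 2 × Sol 3) ∈ jonesT {w : Sol 2 × Sol 3 |
        ‖w.1.1 0 - w.2.1 0 - ((0 : ℝ) : UnitAddCircle)‖ ≤ 1 / 16} := by
      rw [huniv]; trivial
    apply hmem
    refine ⟨{w | ‖w.1.1 0 - w.2.1 0 - ((1 / 2 : ℝ) : UnitAddCircle)‖ ≤ 1 / 16}, hsub (1 / 2),
      hint (1 / 2) ?_, ?_⟩
    · show ‖zpt.1 0 - (0 : Sol 3).1 0 - ((1 / 2 : ℝ) : UnitAddCircle)‖ < 1 / 16
      have e2 : (0 : Sol 3).1 0 = 0 := rfl
      have e3 : ((1 / 2 : ℝ) : UnitAddCircle) = hlf := rfl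
      rw [zpt_coord, e2, e3, sub_zero, sub_self, norm_zero]
      norm_num
    · rw [eq_empty_iff_forall_notMem]
      rintro w ⟨h1, h2⟩
      have h1' : ‖w.1.1 0 - w.2.1 0 - ((1 / 2 : ℝ) : UnitAddCircle)‖ ≤ 1 / 16 := h1
      have h2' : ‖w.1.1 0 - w.2.1 0 - ((0 : ℝ) : UnitAddCircle)‖ ≤ 1 / 16 := h2
      rw [AddCircle.coe_zero, sub_zero] at h2'
      have h3 := norm_sub_le (w.1.1 0 - w.2.1 0) (w.1.1 0 - w.2.1 0 - ((1 / 2 : ℝ) : UnitAddCircle))
      rw [sub_sub_cancel, norm_half] at h3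
      linarith

end Pool.Agent.Results.MP_cdfe0d_gt.ContinuumT
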