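import Pool.Agent.Q120.WG.Coset

/-!
# MP_ce4c25_co, question Q1: the subleading orthogonal Weingarten coefficient for one-row partitions

`h n k` is `h_k(J_1, J_3, …, J_{2n-1})` in the group algebra of the symmetric group on `2n` points,
`P n` the sum over the hyperoctahedral group, `redType σ` the reduced coset-type, `ψ n μ` the sum of
all `σ` of reduced coset-type `μ` (all in `Pool.Agent.Q120.WG.Basic`).

The theorem answers Q1 positively, and computes the leading and the subleading coefficient for every
reduced coset-type.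
-/

namespace Pool.Agent.Results.MP_ce4c25_co.SubleadingCoefficient

open Equiv Finset Pool.Agent.Q120.WG

/-- the one-row partition `(k)`, empty if `k = 0` -/
def oneRow (k : ℕ) : Multiset ℕ := if k = 0 then 0 else {k}

/-- `G` gives the coefficients in `h_k(J_1,J_3,…,J_{2n-1}) P_n = ∑_μ G μ • ψ_μ(n)`, the sum being
over all reduced coset-types `μ` of permutations of `2n` points -/
def IsExpansion (n k : ℕ) (G : Multiset ℕ → ℂ) : Prop :=
  h n k * P n = ∑ μ ∈ univ.image (fun σ : Perm (Fin (2 * n)) => redType σ), G μ • ψ n μ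

lemma oneRow_sum (k : ℕ) : (oneRow k).sum = k := by
  unfold oneRow
  split_ifs with h
  · simp [h]
  · simp

lemma oneRow_snd (k : ℕ) : (W (oneRow k)).snd = 4 ^ k - ((2 * k + 1).choose k : ℂ) := by
  unfold oneRow
  split_ifs with h
  · subst h; simp [W]
  · simp [W, T_snd, area]

lemma expansion_coeff {n k : ℕ} {G : Multiset ℕ → ℂ} (hG : IsExpansion n k G)
    (σ : Perm (Fin (2 * n))) : (h n k * P n).coeff σ = G (redType σ) := by
  classical
  unfold IsExpansion at hG
  rw [hG, MonoidAlgebra.coeff_sum, Finsupp.finsetSum_apply]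
  have h1 : ∀ μ : Multiset ℕ, (G μ • ψ n μ).coeff σ = if redType σ = μ then G μ else 0 := by
    intro μ
    rw [MonoidAlgebra.coeff_smul_apply]
    unfold ψ
    rw [MonoidAlgebra.coeff_sum, Finsupp.finsetSum_apply]
    simp only [MonoidAlgebra.coeff_single, Finsupp.single_apply]
    rw [Finset.sum_ite_eq']
    simp only [mem_filter, mem_univ, true_and, smul_eq_mul, mul_ite, mul_one, mul_zero]
  rw [Finset.sum_congr rfl (fun μ _ => h1 μ), Finset.sum_ite_eq]
  rw [if_pos (mem_image.2 ⟨σ, mem_univ _, rfl⟩)]

/-- the Jucys-Murphy elements commute, so the order of the factors in `h n k` does not matter -/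
theorem J_commute {n : ℕ} (a b : Fin (2 * n)) : Commute (J a) (J b) := by
  have key : ∀ a b : Fin (2 * n), a < b → Commute (J a) (J b) := by
    intro a b hab
    rw [J]
    apply Commute.sum_left
    intro i hi
    have hia : i < a := (mem_filter.1 hi).2
    show MonoidAlgebra.single (swap i a) (1 : ℂ) * J b = J b * MonoidAlgebra.single (swap i a) 1
    unfold J
    rw [Finset.mul_sum, Finset.sum_mul]
    have hfix : swap i a b = b := by
      apply swap_apply_of_ne_of_ne
      · rintro rfl; exact absurd (hia.trans hab) (lt_irrefl _)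
      · rintro rfl; exact lt_irrefl _ hab
    have hlt : ∀ s : Fin (2 * n), s < b → swap i a s < b := by
      intro s hs
      by_cases h1 : s = i
      · rw [h1, swap_apply_left]; exact hab
      · by_cases h2 : s = a
        · rw [h2, swap_apply_right]; exact hia.trans hab
        · rw [swap_apply_of_ne_of_ne h1 h2]; exact hs
    refine Finset.sum_bij' (fun s _ => swap i a s) (fun s _ => swap i a s) ?_ ?_ ?_ ?_ ?_
    · intro s hs
      rw [mem_filter] at hs ⊢
      exact ⟨mem_univ _, hlt s hs.2⟩
    · intro s hs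
      rw [mem_filter] at hs ⊢
      exact ⟨mem_univ _, hlt s hs.2⟩
    · intro s _; exact swap_apply_self i a s
    · intro s _; exact swap_apply_self i a s
    · intro s _
      rw [MonoidAlgebra.single_mul_single, MonoidAlgebra.single_mul_single,
        Equiv.mul_swap_eq_swap_mul, hfix]
  rcases lt_trichotomy a b with h | h | h
  · exact key a b h
  · rw [h]
  · exact (key b a h).symm

theorem result :
    -- Q1: for `n > k`, the coefficient `G^{k+1}_{(k)}(n)` of `ψ_(k)(n)` equals `4^k - binom(2k+1,k)`
    (∀ k n : ℕ, k < n → ∀ G : Multiset ℕ → ℂ, IsExpansion n (k + 1) G →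
      G (oneRow k) = 4 ^ k - ((2 * k + 1).choose k : ℂ)) ∧
    -- the same, for the coefficient of each permutation of reduced coset-type `(k)`
    (∀ k n : ℕ, k < n → (∃ σ : Perm (Fin (2 * n)), redType σ = oneRow k) ∧
      ∀ σ : Perm (Fin (2 * n)), redType σ = oneRow k →
        (h n (k + 1) * P n).coeff σ = 4 ^ k - ((2 * k + 1).choose k : ℂ)) ∧
    -- every reduced coset-type: vanishing, the leading and the subleading coefficient
    (∀ (k n : ℕ) (σ : Perm (Fin (2 * n))),
      (k < (redType σ).sum → (h n k * P n).coeff σ = 0) ∧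
      (k = (redType σ).sum → (h n k * P n).coeff σ =
        ((redType σ).map (fun j => (catalan j : ℂ))).prod) ∧
      (k = (redType σ).sum + 1 → (h n k * P n).coeff σ =
        ((redType σ).map (fun i => (4 ^ i - ((2 * i + 1).choose i : ℂ)) *
          (((redType σ).erase i).map (fun j => (catalan j : ℂ))).prod)).sum)) ∧
    -- the Jucys-Murphy elements commute
    (∀ (n : ℕ) (a b : Fin (2 * n)), Commute (J a) (J b)) := by
  have hex : ∀ k n : ℕ, k < n → ∃ σ : Perm (Fin (2 * n)), redType σ = oneRow k := by
    intro k n hkn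
    obtain ⟨σ, L, hL, hl⟩ := exists_row n k hkn
    refine ⟨σ, ?_⟩
    rw [redType_eq hL, hl]
    unfold oneRow
    have hrep : (Multiset.replicate (n - 1 - k) 0).filter (fun k : ℕ => k ≠ 0) = 0 := by
      rw [Multiset.filter_eq_nil]
      intro a ha
      rw [Multiset.eq_of_mem_replicate ha]
      simp
    split_ifs with h
    · rw [Multiset.filter_cons_of_neg (p := fun k : ℕ => k ≠ 0) _ (by simp [h]), hrep]
    · rw [Multiset.filter_cons_of_pos (p := fun k : ℕ => k ≠ 0) _ h, hrep]
      rfl
  have hval : ∀ k n : ℕ, ∀ σ : Perm (Fin (2 * n)), redType σ = oneRow k →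
      (h n (k + 1) * P n).coeff σ = 4 ^ k - ((2 * k + 1).choose k : ℂ) := by
    intro k n σ hσ
    rw [(coeff_eq (k + 1) σ).2.2 (by rw [hσ, oneRow_sum]), hσ, oneRow_snd]
  refine ⟨?_, ?_, ?_, fun n a b => J_commute a b⟩
  · intro k n hkn G hG
    obtain ⟨σ, hσ⟩ := hex k n hkn
    rw [← hσ, ← expansion_coeff hG σ, hval k n σ hσ]
  · intro k n hkn
    exact ⟨hex k n hkn, hval k n⟩
  · intro k n σ
    refine ⟨(coeff_eq k σ).1, ?_, ?_⟩
    · intro hk
      rw [(coeff_eq k σ).2.1 hk, W_fst]
    · intro hk
      rw [(coeff_eq k σ).2.2 hk, W_snd]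
      rfl

end Pool.Agent.Results.MP_ce4c25_co.SubleadingCoefficient
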