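import Mathlib
import Pool.Agent.Q160.TB6
import Pool.Agent.H447R2.ML.Spec

set_option autoImplicit false

/-!
# Primes near the generalized Wagstaff numbers, in intervals of length `b ^ (s n)`

For a base `b ≥ 2` let `Q b p` be the integer part of `(b ^ p + 1) / (b + 1)`, for odd `p` the number of
the question.  For `0 < s < 1` and `0 ≤ θ < 1` let `N b s θ p = Q b p + ⌊θ b ^ ⌊s p⌋⌋`, an integer of the
interval `[Q b p, Q b p + b ^ (s p))`, and let `M S b s θ n` be the number of primes `p ≤ n` in `S` for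
which the `p`-rough part of `N b s θ p` is prime; for `θ = 0` these are the numbers `Q b p` themselves.
We prove, with Hoheisel's theorem, that there is `δ > 0` such that for every base `b`, every `s` in
`[1 - δ, 1)` and almost every `θ` we have `c log n ≤ M b s θ n ≤ C log n` for all large `n`, where `c`
and `C` depend on `b` only, with the dichotomy and the same bounds for every set of primes.
-/

namespace Pool.Agent.Results.MP_ce8d0c_nt.LeadingDigits

open Filter Topology MeasureTheory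

/-- The product, with multiplicity, of the prime factors of `m` that are larger than `p`. -/
def roughPart (p m : ℕ) : ℕ := (m.primeFactorsList.filter (fun r => p < r)).prod

/-- The number `(b ^ n + 1) / (b + 1)` (its integer part for even `n`). -/
def Q (b n : ℕ) : ℕ := (b ^ n + 1) / (b + 1)

/-- An integer of the interval `[Q b p, Q b p + b ^ (s p))`. -/
noncomputable def N (b : ℕ) (s θ : ℝ) (p : ℕ) : ℕ := Q b p + ⌊θ * (b : ℝ) ^ ⌊s * p⌋₊⌋₊

open Classical in
/-- The number of primes `p ≤ n` in `S` for which the `p`-rough part of `N b s θ p` is prime. -/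
noncomputable def M (S : Set ℕ) (b : ℕ) (s θ : ℝ) (n : ℕ) : ℕ :=
  ((Finset.range (n + 1)).filter (fun p => p.Prime ∧ p ∈ S ∧ (roughPart p (N b s θ p)).Prime)).card

open Classical in
/-- The sum of `log p / p` over the primes `p ≤ n` in `S`. -/
noncomputable def V (S : Set ℕ) (n : ℕ) : ℝ :=
  ∑ p ∈ (Finset.range (n + 1)).filter (fun p => p.Prime ∧ p ∈ S), Real.log p / p

lemma V_eq (S : Set ℕ) (n : ℕ) : V S n = Pool.Agent.TH888.R.VS S n := by
  classical
  unfold V Pool.Agent.TH888.R.VS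
  rw [Finset.sum_filter]
  refine Finset.sum_congr rfl fun p _ => ?_
  by_cases h : p.Prime ∧ p ∈ S
  · rw [if_pos h, if_pos ⟨h.2, h.1⟩]
    rfl
  · rw [if_neg h, if_neg fun h1 => h ⟨h1.2, h1.1⟩]

lemma Q_mul {b : ℕ} {p : ℕ} (hodd : Odd p) : Q b p * (b + 1) = b ^ p + 1 := by
  have h : b + 1 ∣ b ^ p + 1 := by
    have := hodd.nat_add_dvd_pow_add_pow b 1
    rwa [one_pow] at this
  exact Nat.div_mul_cancel h

/-- The special values. -/
lemma rough_Q {b : ℕ} (hb : 2 ≤ b) {p : ℕ} (hp : p.Prime) (hp2 : p ≠ 2) (hpd : ¬ p ∣ b + 1) :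
    roughPart p (Q b p) = Q b p := by
  have hodd : Odd p := hp.odd_of_ne_two hp2
  have hQ := Q_mul (b := b) hodd
  have hMr : ((Q b p : ℕ) : ℝ) * (b + 1) = (b : ℝ) ^ p + 1 := by exact_mod_cast hQ
  have hb0 : (0 : ℝ) < (b : ℝ) + 1 := by positivity
  have hb2 : (2 : ℝ) ≤ b := by exact_mod_cast hb
  have hr := Pool.Agent.H447R2.ML.rough_quot (a := (b : ℤ)) (b := -1)
    (IsCoprime.neg_right isCoprime_one_right) (by omega) (by omega) hp
    (by
      intro h
      apply hpd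
      have : ((p : ℕ) : ℤ) ∣ ((b + 1 : ℕ) : ℤ) := by push_cast; simpa using h
      exact_mod_cast this) (x := ((Q b p : ℕ) : ℝ)) (by
        push_cast
        rw [hodd.neg_one_pow]
        have hne : (b : ℝ) - -1 ≠ 0 := by linarith
        field_simp
        linarith)
  rw [Nat.floor_natCast] at hr
  have hgeom : (∑ i ∈ Finset.range p, (b : ℤ) ^ i * (-1) ^ (p - 1 - i)) * ((b : ℤ) - -1) =
      (b : ℤ) ^ p - (-1) ^ p := (Commute.all (b : ℤ) (-1)).geom_sum₂_mul p
  rw [← hr, hodd.neg_one_pow] at hgeom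
  have h4 : ((roughPart p (Q b p) : ℕ) : ℤ) * ((b : ℤ) + 1) = (b : ℤ) ^ p + 1 := by
    have h5 : (roughPart p (Q b p) : ℤ) = (Pool.Agent.H305R2.roughPart p (Q b p) : ℤ) := rfl
    rw [h5]
    linarith
  have h6 : roughPart p (Q b p) * (b + 1) = Q b p * (b + 1) := by
    rw [hQ]
    exact_mod_cast h4
  exact Nat.eq_of_mul_eq_mul_right (by omega) h6

lemma M_eq (S : Set ℕ) (b : ℕ) (s θ : ℝ) (n : ℕ) :
    M S b s θ n = Pool.Agent.TH888.R.cS S (N b s θ) n := by
  classical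
  unfold M Pool.Agent.TH888.R.cS
  rfl

/-- The numbers for `θ = 0` are the numbers `Q b p`, their own `p`-rough parts; for almost every `θ` the
counting function has the order of magnitude `log n`, and for sets of primes the order of magnitude
of `V`. -/
theorem result :
    (∀ b : ℕ, 2 ≤ b → ∀ s : ℝ, ∀ p : ℕ, p.Prime → p ≠ 2 → ¬ p ∣ b + 1 →
      Q b p * (b + 1) = b ^ p + 1 ∧ N b s 0 p = Q b p ∧ roughPart p (Q b p) = Q b p) ∧
    ∃ δ : ℝ, 0 < δ ∧ δ < 1 ∧ ∀ b : ℕ, 2 ≤ b → ∃ c C : ℝ, 0 < c ∧ 0 < C ∧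
      ∀ s : ℝ, 1 - δ ≤ s → s < 1 →
      (∀ᵐ θ : ℝ, θ ∈ Set.Ico (0 : ℝ) 1 → ∀ᶠ n : ℕ in atTop,
        c * Real.log n ≤ M Set.univ b s θ n ∧ (M Set.univ b s θ n : ℝ) ≤ C * Real.log n) ∧
      (∀ S : Set ℕ, Tendsto (V S) atTop atTop → ∀ᵐ θ : ℝ, θ ∈ Set.Ico (0 : ℝ) 1 →
        ∀ᶠ n : ℕ in atTop, c * V S n ≤ M S b s θ n ∧ (M S b s θ n : ℝ) ≤ C * V S n) ∧
      (∀ S : Set ℕ, ∀ᵐ θ : ℝ, θ ∈ Set.Ico (0 : ℝ) 1 →
        ({p : ℕ | p.Prime ∧ p ∈ S ∧ (roughPart p (N b s θ p)).Prime}.Infinite ↔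
          Tendsto (V S) atTop atTop)) := by
  classical
  have hV : ∀ S, V S = Pool.Agent.TH888.R.VS S := fun S => funext fun n => V_eq S n
  refine ⟨fun b hb s p hp hp2 hpd => ⟨Q_mul (hp.odd_of_ne_two hp2), ?_, rough_Q hb hp hp2 hpd⟩, ?_⟩
  · unfold N
    simp
  · obtain ⟨δ, hδ, hδ1, h⟩ := Pool.Agent.Q160.TB.plus_law
    refine ⟨δ, hδ, hδ1, fun b hb => ?_⟩
    obtain ⟨c1, c2, hc1, hc2, hpt⟩ := h b hb 1 one_pos
    refine ⟨c1 / 2, 2 * c2, by positivity, by positivity, fun s hs hs1 => ?_⟩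
    have hb0 : (0 : ℝ) < b := by exact_mod_cast (by omega : 0 < b)
    have hall : ∀ S : Set ℕ, ∀ᵐ θ : ℝ, θ ∈ Set.Ico (0 : ℝ) 1 →
        Pool.Agent.Q160.TB.PtO (N b s θ) c1 c2 S := by
      intro S
      have h1 := hpt s hs hs1 (Q b) 2 (by
        have hev : ∀ᶠ p : ℕ in atTop, 2 / (1 - s) ≤ (p : ℝ) :=
          tendsto_natCast_atTop_atTop.eventually_ge_atTop _
        filter_upwards [hev] with p hp
        rw [div_le_iff₀ (by linarith)] at hp
        rw [one_mul]
        have h2 : ⌊s * (p : ℝ)⌋₊ + 2 ≤ p := by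
          have h3 : ((⌊s * (p : ℝ)⌋₊ : ℕ) : ℝ) ≤ s * p :=
            Nat.floor_le (mul_nonneg (by linarith) (Nat.cast_nonneg p))
          have h4 : ((⌊s * (p : ℝ)⌋₊ : ℕ) : ℝ) + 2 ≤ p := by linarith
          exact_mod_cast h4
        unfold Q
        rw [Nat.le_div_iff_mul_le (by omega)]
        calc b ^ ⌊s * (p : ℝ)⌋₊ * (b + 1) ≤ b ^ ⌊s * (p : ℝ)⌋₊ * b ^ 2 :=
              Nat.mul_le_mul_left _ (by nlinarith)
          _ = b ^ (⌊s * (p : ℝ)⌋₊ + 2) := by rw [pow_add]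
          _ ≤ b ^ p := Nat.pow_le_pow_right (by omega) h2
          _ ≤ b ^ p + 1 := Nat.le_succ _) (by
        refine Eventually.of_forall fun p => ?_
        have h5 : Real.exp (Real.log (b : ℝ) * (1 * (p : ℝ))) = (b : ℝ) ^ p := by
          rw [one_mul, mul_comm, Real.exp_nat_mul, Real.exp_log hb0]
        rw [h5]
        have h6 : Q b p ≤ 2 * b ^ p := by
          unfold Q
          refine (Nat.div_le_self _ _).trans ?_
          have : 1 ≤ b ^ p := Nat.one_le_pow _ _ (by omega)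
          omega
        exact_mod_cast h6) S
      simp only [one_mul] at h1
      exact h1
    obtain ⟨r1, r2, r3⟩ := Pool.Agent.Q160.TB.conc hc1 hc2 hall
    refine ⟨?_, fun S hS => ?_, fun S => ?_⟩
    · simp only [M_eq]
      exact r1
    · rw [hV] at hS ⊢
      simp only [M_eq]
      exact r2 S hS
    · rw [hV]
      exact r3 S

end Pool.Agent.Results.MP_ce8d0c_nt.LeadingDigits
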