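import Mathlib
import Pool.Agent.Q160.TA3
import Pool.Agent.W66.LU

set_option autoImplicit false

/-!
# The Lenstra-Pomerance-Wagstaff law for almost every 2-adic unit: error term and sets of exponents

For a 2-adic integer `α` and a prime `p` let `W α p` be the `p`-rough part (the product, with
multiplicity, of the prime factors larger than `p`) of the residue of `α` modulo `2 ^ p` in
`[0, 2 ^ p)`, the integer formed by the last `p` binary digits of `α`.  For `α = -1` this is the
Mersenne number `2 ^ p - 1` itself.  For a set `S` let `M S α n` be the number of primes `p ≤ n` in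
`S` with `W α p` prime, and let `V S n` be the sum of `log p / p` over the primes `p ≤ n` in `S`.

We prove that for almost every 2-adic unit `α` the number of primes `p ≤ n` with `W α p` prime is
`(e ^ γ / log 2) log n + O((log n) ^ (1/2) (log log n) ^ (5/2))`; that for every set `S` of primes
with `V S n → ∞` and almost every 2-adic unit it is, within `S`,
`(e ^ γ / log 2) V S n + O((V L) ^ (1/2) (log (V L)) ^ 2)` with `V = V S n`, `L = log log n`; and that
for every set `S` and almost every 2-adic unit there are infinitely many such primes `p` in `S` if and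
only if the sum of `log p / p` over the primes of `S` diverges.
-/

namespace Pool.Agent.Results.MP_ce8d0c_nt.TwoAdicSets

open Filter Topology MeasureTheory Asymptotics

/-- The product, with multiplicity, of the prime factors of `m` that are larger than `p`. -/
def roughPart (p m : ℕ) : ℕ := (m.primeFactorsList.filter (fun r => p < r)).prod

/-- The `p`-rough part of the residue of the 2-adic integer `α` modulo `2 ^ p`. -/
noncomputable def W (α : ℤ_[2]) (p : ℕ) : ℕ := roughPart p (PadicInt.toZModPow p α).val

open Classical in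
/-- The number of primes `p ≤ n` in the set `S` for which `W α p` is prime. -/
noncomputable def M (S : Set ℕ) (α : ℤ_[2]) (n : ℕ) : ℕ :=
  ((Finset.range (n + 1)).filter (fun p => p.Prime ∧ p ∈ S ∧ (W α p).Prime)).card

open Classical in
/-- The sum of `log p / p` over the primes `p ≤ n` in the set `S`. -/
noncomputable def V (S : Set ℕ) (n : ℕ) : ℝ :=
  ∑ p ∈ (Finset.range (n + 1)).filter (fun p => p.Prime ∧ p ∈ S), Real.log p / p

lemma V_eq (S : Set ℕ) (n : ℕ) : V S n = Pool.Agent.TH888.R.VS S n := by
  classical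
  unfold V Pool.Agent.TH888.R.VS
  rw [Finset.sum_filter]
  refine Finset.sum_congr rfl fun p _ => ?_
  by_cases h : p.Prime ∧ p ∈ S
  · rw [if_pos h, if_pos ⟨h.2, h.1⟩]
    rfl
  · rw [if_neg h, if_neg fun h1 => h ⟨h1.2, h1.1⟩]

lemma W_mersenne {p : ℕ} (hp : p.Prime) : W (-1) p = 2 ^ p - 1 := by
  have h1 : (PadicInt.toZModPow p (-1 : ℤ_[2])).val = 2 ^ p - 1 := by
    rw [map_neg, map_one]
    have h2 : 1 ≤ 2 ^ p := Nat.one_le_two_pow
    have h3 : (-1 : ZMod (2 ^ p)) = ((2 ^ p - 1 : ℕ) : ZMod (2 ^ p)) := by
      rw [Nat.cast_sub h2, ZMod.natCast_self, Nat.cast_one, zero_sub]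
    rw [h3, ZMod.val_natCast, Nat.mod_eq_of_lt (by omega)]
  have h2 : W (-1) p = Pool.Agent.H305R2.roughPart p (PadicInt.toZModPow p (-1 : ℤ_[2])).val := rfl
  rw [h2, h1, Pool.Agent.W66L.rough_mersenne hp]

lemma M_eq (S : Set ℕ) (α : ℤ_[2]) (n : ℕ) :
    M S α n = Pool.Agent.TH888.R.cS S (fun p => Pool.Agent.W66L.res 2 p α) n := by
  classical
  unfold M Pool.Agent.TH888.R.cS
  rfl

lemma pt [MeasurableSpace ℤ_[2]] [BorelSpace ℤ_[2]] (μ : Measure ℤ_[2]) [μ.IsAddHaarMeasure]
    (S : Set ℕ) : ∀ᵐ α : ℤ_[2] ∂μ, IsUnit α →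
      Pool.Agent.TH888.R.Pt (fun p => Pool.Agent.W66L.res 2 p α)
        (Real.exp Real.eulerMascheroniConstant / Real.log 2) S := by
  have h := Pool.Agent.Q160.TA.pt_full (μ := μ) le_rfl (Pool.Agent.W66L.full_padic 2 μ) S
  filter_upwards [h] with α hα hu
  have hc : (Pool.Agent.W66L.res 2 1 α).Coprime 2 := by
    unfold Pool.Agent.W66L.res
    have h1 : IsUnit (PadicInt.toZModPow 1 α) := hu.map _
    have h2 := ZMod.isUnit_iff_coprime (PadicInt.toZModPow 1 α).val (2 ^ 1)
    rw [ZMod.natCast_zmod_val] at h2
    simpa using h2.1 h1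
  have h3 := hα hc
  simpa using h3

/-- The counting function at `α = -1` is that of the Mersenne primes; for almost every 2-adic unit the
law holds with a square root error term, for the set of all primes and for every set of primes of
divergent weight, and for every set of primes the number of prime values is finite or infinite
according to the weight of the set. -/
theorem result :
    (∀ n : ℕ, M Set.univ (-1) n =
      ((Finset.range (n + 1)).filter (fun p => p.Prime ∧ (2 ^ p - 1).Prime)).card) ∧
    (∀ [MeasurableSpace ℤ_[2]] [BorelSpace ℤ_[2]] (μ : Measure ℤ_[2]) [μ.IsAddHaarMeasure],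
      (∀ᵐ α : ℤ_[2] ∂μ, IsUnit α →
        (fun n : ℕ => (M Set.univ α n : ℝ) -
          Real.exp Real.eulerMascheroniConstant / Real.log 2 * Real.log n) =O[atTop]
        (fun n : ℕ => Real.sqrt (Real.log n) * (Real.log (Real.log n)) ^ ((5 : ℝ) / 2))) ∧
      (∀ S : Set ℕ, Tendsto (V S) atTop atTop → ∀ᵐ α : ℤ_[2] ∂μ, IsUnit α →
        (fun n : ℕ => (M S α n : ℝ) -
          Real.exp Real.eulerMascheroniConstant / Real.log 2 * V S n) =O[atTop]
        (fun n : ℕ => Real.sqrt (V S n * Real.log (Real.log n)) *
          (Real.log (V S n * Real.log (Real.log n))) ^ 2)) ∧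
      (∀ S : Set ℕ, ∀ᵐ α : ℤ_[2] ∂μ, IsUnit α →
        ({p : ℕ | p.Prime ∧ p ∈ S ∧ (W α p).Prime}.Infinite ↔ Tendsto (V S) atTop atTop))) := by
  have hV : ∀ S, V S = Pool.Agent.TH888.R.VS S := fun S => funext fun n => V_eq S n
  refine ⟨fun n => ?_, ?_⟩
  · unfold M
    congr 1
    ext p
    simp only [Finset.mem_filter, Set.mem_univ, true_and]
    exact and_congr_right fun _ => and_congr_right fun hp => by rw [W_mersenne hp]
  · intro _ _ μ _
    refine ⟨?_, fun S hS => ?_, fun S => ?_⟩
    · filter_upwards [pt μ Set.univ] with α hα hu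
      obtain ⟨B, hB, h⟩ := (hα hu).law Pool.Agent.TH888.R.VS_univ_tendsto
      simp only [M_eq]
      exact Pool.Agent.TH888.R.bigO_all hB h
    · rw [hV] at hS ⊢
      filter_upwards [pt μ S] with α hα hu
      obtain ⟨B, hB, h⟩ := (hα hu).law hS
      simp only [M_eq]
      exact Pool.Agent.TH888.R.bigO_set hB hS h
    · rw [hV]
      filter_upwards [pt μ S] with α hα hu
      constructor
      · intro hi
        by_contra hn
        exact hi ((hα hu).fin hn)
      · exact (hα hu).inf

end Pool.Agent.Results.MP_ce8d0c_nt.TwoAdicSets
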