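import Pool.Agent.Q69.HolderMdim

/-!
# MP_d02d3c_an: maps that are Hölder for every exponent have metric mean dimension zero
-/

set_option autoImplicit false

namespace Pool.Agent.Results.MP_d02d3c_an.AllExponents

open Q69.HolderMdim

/-- If `φ : [0,1] → [0,1]` is `α`-Hölder for every `α ∈ (0,1)`, then its (upper, and hence lower)
metric mean dimension is `0`. -/
theorem result (φ : unitInterval → unitInterval)
    (hφ : ∀ α : ℝ, 0 < α → α < 1 → IsHolder α φ) : upperMdim φ = 0 ∧ lowerMdim φ = 0 := by
  have h0 := lowerMdim_nonneg φ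
  have h1 := lowerMdim_le_upperMdim φ
  have h2 : upperMdim φ ≤ 0 := by
    apply le_of_forall_gt
    intro c hc
    obtain ⟨r, hr0, hrc⟩ := EReal.lt_iff_exists_real_btwn.1 hc
    have hr : 0 < r := by exact_mod_cast hr0
    by_cases hr1 : r < 1
    · have h := upperMdim_le (α := 1 - r) (by linarith) (by linarith)
        (hφ (1 - r) (by linarith) (by linarith))
      rw [sub_sub_cancel] at h
      exact lt_of_le_of_lt h hrc
    · have h := upperMdim_le (α := 1 / 2) (by norm_num) (by norm_num)
        (hφ (1 / 2) (by norm_num) (by norm_num))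
      refine lt_of_le_of_lt (h.trans ?_) hrc
      rw [EReal.coe_le_coe_iff]
      push Not at hr1
      linarith
  have h3 : upperMdim φ = 0 := le_antisymm h2 (h0.trans h1)
  exact ⟨h3, le_antisymm (h1.trans h2) h0⟩

end Pool.Agent.Results.MP_d02d3c_an.AllExponents
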