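import Mathlib

/-!
# A Noetherian residually nilpotent Lie algebra of infinite dimension

Over any field of characteristic `0` the Lie algebra of derivations `f d/dx` of `k[x]` with
`x^2 ∣ f` (the positive part of the Witt algebra, with basis `e_i = x^{i+1} d/dx`, `i ≥ 1`, and
`[e_i, e_j] = (j-i) e_{i+j}`) satisfies the maximal condition on subalgebras.
-/

open Polynomial

namespace Pool.Agent.Results.MP_d0ec72_al.PositiveWitt

/-- `L` satisfies the maximal condition on subalgebras. -/
def IsNoeth (k L : Type*) [Field k] [LieRing L] [LieAlgebra k L] : Prop :=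
  ∀ H : ℕ → LieSubalgebra k L, (∀ i, H i ≤ H (i + 1)) → ∃ N, ∀ m, N ≤ m → H m = H N

/-- `L` is approximable by nilpotent Lie algebras. -/
def IsResNilp (k L : Type*) [Field k] [LieRing L] [LieAlgebra k L] : Prop :=
  ∀ x : L, x ≠ 0 → ∃ I : LieIdeal k L, x ∉ I ∧ LieRing.IsNilpotent (L ⧸ I)

section combinatorics

/-- a chain of sets of positive integers closed under sums of distinct elements stabilises -/
lemma chain_stable (f : ℕ → Set ℕ) (hmono : ∀ i, f i ⊆ f (i + 1))
    (hcl : ∀ i, ∀ a ∈ f i, ∀ b ∈ f i, a ≠ b → a + b ∈ f i) (hpos : ∀ i, ∀ a ∈ f i, 0 < a) :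
    ∃ N, ∀ m, f m ⊆ f N := by
  classical
  have hm : ∀ i j, i ≤ j → f i ⊆ f j := by
    intro i j hij
    induction j, hij using Nat.le_induction with
    | base => exact subset_rfl
    | succ j _ ih => exact ih.trans (hmono j)
  by_cases hne : ∃ i, (f i).Nonempty
  · obtain ⟨i0, a, ha⟩ := hne
    have ha0 := hpos i0 a ha
    have hr : ∀ r : ℕ, ∃ N, i0 ≤ N ∧ ∀ m, ∀ u ∈ f m, u ≠ a → u % a = r → u ∈ f N := by
      intro r
      by_cases hex : ∃ u, (∃ m, u ∈ f m) ∧ u ≠ a ∧ u % a = r
      · set u0 := Nat.find hex with hu0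
        obtain ⟨⟨m0, hm0⟩, hne0, hmod0⟩ := Nat.find_spec hex
        refine ⟨max i0 m0, le_max_left _ _, ?_⟩
        intro m u hu hua hur
        have hle : u0 ≤ u := Nat.find_min' hex ⟨⟨m, hu⟩, hua, hur⟩
        have haN : a ∈ f (max i0 m0) := hm _ _ (le_max_left _ _) ha
        have hall : ∀ k : ℕ, u0 + k * a ∈ f (max i0 m0) := by
          intro k
          induction k with
          | zero => simpa using hm _ _ (le_max_right _ _) hm0
          | succ k ih =>
            have hneq : u0 + k * a ≠ a := by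
              rcases Nat.eq_zero_or_pos k with hk | hk
              · subst hk; simpa using hne0
              · have : 0 < u0 := hpos m0 u0 hm0
                have : a ≤ k * a := Nat.le_mul_of_pos_left a hk
                omega
            have := hcl _ _ ih a haN hneq
            have e : u0 + (k + 1) * a = u0 + k * a + a := by ring
            rw [e]; exact this
        have hdvd : a ∣ u - u0 := (Nat.modEq_iff_dvd' hle).1 (by
          change u0 % a = u % a
          rw [hur]; exact hmod0)
        obtain ⟨k, hk⟩ := hdvd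
        have e : u = u0 + k * a := by rw [mul_comm] at hk; omega
        rw [e]
        exact hall k
      · exact ⟨i0, le_rfl, fun m u hu hua hur => absurd ⟨u, ⟨m, hu⟩, hua, hur⟩ hex⟩
    choose N hN0 hN using hr
    refine ⟨(Finset.range a).sup N, ?_⟩
    have hsup : ∀ r, r < a → N r ≤ (Finset.range a).sup N := fun r hr =>
      Finset.le_sup (f := N) (Finset.mem_range.2 hr)
    intro m u hu
    by_cases hua : u = a
    · rw [hua]
      exact hm _ _ ((hN0 0).trans (hsup 0 ha0)) ha
    · exact hm _ _ (hsup (u % a) (Nat.mod_lt _ ha0)) (hN (u % a) m u hu hua rfl)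
  · push Not at hne
    exact ⟨0, fun m => by rw [hne m]; exact Set.empty_subset _⟩

end combinatorics

variable (k : Type*) [Field k]

lemma der_apply (D : Derivation k k[X] k[X]) (p : k[X]) : D p = derivative p * D X := by
  have h : D = mkDerivation k (D X) := derivation_ext (by rw [mkDerivation_X])
  conv_lhs => rw [h]
  rw [mkDerivation_apply, smul_eq_mul]

lemma comm_apply (D D' : Derivation k k[X] k[X]) :
    ⁅D, D'⁆ X = derivative (D' X) * D X - derivative (D X) * D' X := by
  rw [Derivation.commutator_apply, der_apply k D (D' X), der_apply k D' (D X)]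

lemma dvd_derivative {m : ℕ} {f : k[X]} (h : (X : k[X]) ^ (m + 1) ∣ f) :
    (X : k[X]) ^ m ∣ derivative f := by
  obtain ⟨g, rfl⟩ := h
  rw [derivative_mul, derivative_X_pow]
  refine dvd_add ?_ ?_
  · rw [Nat.add_sub_cancel]
    exact Dvd.dvd.mul_right (Dvd.intro_left _ rfl) _
  · exact Dvd.dvd.mul_right (pow_dvd_pow _ (Nat.le_succ m)) _

/-- The positive part of the Witt algebra: the derivations `f d/dx` of `k[x]` with `x^2 ∣ f`. -/
def W : LieSubalgebra k (Derivation k k[X] k[X]) where
  carrier := {D | (X : k[X]) ^ 2 ∣ D X}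
  add_mem' := by
    intro D D' h h'
    change (X : k[X]) ^ 2 ∣ (D + D') X
    rw [Derivation.add_apply]
    exact dvd_add h h'
  zero_mem' := by
    change (X : k[X]) ^ 2 ∣ (0 : Derivation k k[X] k[X]) X
    simp
  smul_mem' := by
    intro c D h
    change (X : k[X]) ^ 2 ∣ (c • D) X
    rw [Derivation.smul_apply, smul_eq_C_mul]
    exact Dvd.dvd.mul_left h _
  lie_mem' := by
    intro D D' h h'
    change (X : k[X]) ^ 2 ∣ ⁅D, D'⁆ X
    rw [comm_apply]
    exact dvd_sub (Dvd.dvd.mul_left h _) (Dvd.dvd.mul_left h' _)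

/-- the ideal of the `f d/dx` with `x^{m+2} ∣ f` -/
def I (m : ℕ) : LieIdeal k (W k) where
  carrier := {D | (X : k[X]) ^ (m + 2) ∣ D.1 X}
  add_mem' := by
    intro D D' h h'
    change (X : k[X]) ^ (m + 2) ∣ (D.1 + D'.1) X
    rw [Derivation.add_apply]
    exact dvd_add h h'
  zero_mem' := by
    change (X : k[X]) ^ (m + 2) ∣ (0 : Derivation k k[X] k[X]) X
    simp
  smul_mem' := by
    intro c D h
    change (X : k[X]) ^ (m + 2) ∣ (c • D.1) X
    rw [Derivation.smul_apply, smul_eq_C_mul]
    exact Dvd.dvd.mul_left h _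
  lie_mem := by
    intro D D' h'
    change (X : k[X]) ^ (m + 2) ∣ ⁅D.1, D'.1⁆ X
    have h' : (X : k[X]) ^ (m + 2) ∣ D'.1 X := h'
    have h : (X : k[X]) ^ 2 ∣ D.1 X := D.2
    rw [comm_apply]
    refine dvd_sub ?_ (Dvd.dvd.mul_left h' _)
    have e : (X : k[X]) ^ (m + 2) = X ^ m * X ^ 2 := pow_add _ _ _
    rw [e]
    exact mul_dvd_mul (dvd_derivative k (dvd_trans (pow_dvd_pow _ (by omega)) h')) h

lemma mem_I {m : ℕ} {D : W k} : D ∈ I k m ↔ (X : k[X]) ^ (m + 2) ∣ D.1 X := Iff.rfl

lemma lcs_le (m : ℕ) : LieModule.lowerCentralSeries k (W k) (W k) m ≤ I k m := by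
  induction m with
  | zero =>
    intro D _
    exact D.2
  | succ m ih =>
    rw [LieModule.lowerCentralSeries_succ, LieSubmodule.lieIdeal_oper_eq_span,
      LieSubmodule.lieSpan_le]
    rintro _ ⟨⟨D, -⟩, ⟨D', hD'⟩, rfl⟩
    have h' : (X : k[X]) ^ (m + 2) ∣ D'.1 X := ih hD'
    have h : (X : k[X]) ^ 2 ∣ D.1 X := D.2
    change (X : k[X]) ^ (m + 1 + 2) ∣ ⁅D.1, D'.1⁆ X
    rw [comm_apply]
    refine dvd_sub ?_ ?_
    · have e : (X : k[X]) ^ (m + 1 + 2) = X ^ (m + 1) * X ^ 2 := pow_add _ _ _
      rw [e]
      exact mul_dvd_mul (dvd_derivative k h') h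
    · have e : (X : k[X]) ^ (m + 1 + 2) = X ^ 1 * X ^ (m + 2) := by rw [← pow_add]; congr 1; omega
      rw [e]
      exact mul_dvd_mul (dvd_derivative k h) h'

lemma quot_nilpotent (m : ℕ) : LieRing.IsNilpotent (W k ⧸ I k m) := by
  have h : LieModule.IsNilpotent (W k) (W k ⧸ I k m) :=
    (LieModule.isNilpotent_quotient_iff k (W k) (W k) (I k m)).2 ⟨m, lcs_le k m⟩
  rw [LieModule.isNilpotent_iff k] at h
  change LieModule.IsNilpotent (W k ⧸ I k m) (W k ⧸ I k m)
  rw [LieModule.isNilpotent_iff k]
  obtain ⟨n, hn⟩ := h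
  refine ⟨n, ?_⟩
  rw [← LieSubmodule.toSubmodule_inj] at hn ⊢
  rw [← coe_lowerCentralSeries_ideal_quot_eq, hn]
  rfl

lemma ne_zero_iff (D : W k) : D ≠ 0 ↔ D.1 X ≠ 0 := by
  rw [not_iff_not]
  constructor
  · intro h; rw [h]; rfl
  · intro h
    apply Subtype.ext
    apply derivation_ext
    rw [h]; rfl

theorem resNilp : IsResNilp k (W k) := by
  intro D hD
  refine ⟨I k ((D.1 X).natDegree), ?_, quot_nilpotent k _⟩
  intro h
  rw [mem_I] at h
  have h1 := (ne_zero_iff k D).1 hD
  have := Polynomial.natDegree_le_of_dvd h h1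
  rw [natDegree_X_pow] at this
  omega

/-- the set of `degree - 1` of the nonzero elements -/
def S (H : LieSubalgebra k (W k)) : Set ℕ :=
  {a | ∃ D ∈ H, D ≠ 0 ∧ (D.1 X).natDegree = a + 1}

lemma S_pos (H : LieSubalgebra k (W k)) : ∀ a ∈ S k H, 0 < a := by
  rintro a ⟨D, -, hD0, hDa⟩
  have h : (X : k[X]) ^ 2 ∣ D.1 X := D.2
  have := Polynomial.natDegree_le_of_dvd h ((ne_zero_iff k D).1 hD0)
  rw [natDegree_X_pow] at this
  omega

lemma exists_deg (D : W k) (hD : D ≠ 0) : ∃ a, (D.1 X).natDegree = a + 1 := by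
  have h : (X : k[X]) ^ 2 ∣ D.1 X := D.2
  have := Polynomial.natDegree_le_of_dvd h ((ne_zero_iff k D).1 hD)
  rw [natDegree_X_pow] at this
  exact ⟨(D.1 X).natDegree - 1, by omega⟩

lemma S_closed [CharZero k] (H : LieSubalgebra k (W k)) :
    ∀ a ∈ S k H, ∀ b ∈ S k H, a ≠ b → a + b ∈ S k H := by
  rintro a ⟨D, hD, hD0, hDa⟩ b ⟨D', hD', hD0', hDb⟩ hab
  set f := D.1 X with hf
  set g := D'.1 X with hg
  have hf0 : f ≠ 0 := (ne_zero_iff k D).1 hD0
  have hg0 : g ≠ 0 := (ne_zero_iff k D').1 hD0'
  have hbr : (⁅D, D'⁆ : W k).1 X = derivative g * f - derivative f * g := comm_apply k D.1 D'.1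
  -- coefficient of degree a + b + 1
  have hdeg1 : (derivative g * f).natDegree ≤ b + (a + 1) := by
    refine natDegree_mul_le.trans (add_le_add ?_ hDa.le)
    exact (natDegree_derivative_le g).trans (by omega)
  have hdeg2 : (derivative f * g).natDegree ≤ a + (b + 1) := by
    refine natDegree_mul_le.trans (add_le_add ?_ hDb.le)
    exact (natDegree_derivative_le f).trans (by omega)
  have hc1 : (derivative g * f).coeff (b + (a + 1)) = g.leadingCoeff * (b + 1) * f.leadingCoeff := by
    rw [coeff_mul_add_eq_of_natDegree_le ((natDegree_derivative_le g).trans (by omega)) hDa.le,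
      coeff_derivative, leadingCoeff, leadingCoeff, hDa, hDb]
  have hc2 : (derivative f * g).coeff (a + (b + 1)) = f.leadingCoeff * (a + 1) * g.leadingCoeff := by
    rw [coeff_mul_add_eq_of_natDegree_le ((natDegree_derivative_le f).trans (by omega)) hDb.le,
      coeff_derivative, leadingCoeff, leadingCoeff, hDa, hDb]
  have e1 : b + (a + 1) = a + b + 1 := by ring
  have e2 : a + (b + 1) = a + b + 1 := by ring
  rw [e1] at hdeg1 hc1
  rw [e2] at hdeg2 hc2
  have hcoef : (derivative g * f - derivative f * g).coeff (a + b + 1) ≠ 0 := by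
    rw [coeff_sub, hc1, hc2]
    have : g.leadingCoeff * ((b : k) + 1) * f.leadingCoeff -
        f.leadingCoeff * ((a : k) + 1) * g.leadingCoeff =
        f.leadingCoeff * g.leadingCoeff * ((b : k) - a) := by ring
    rw [this]
    refine mul_ne_zero (mul_ne_zero (leadingCoeff_ne_zero.2 hf0) (leadingCoeff_ne_zero.2 hg0)) ?_
    rw [sub_ne_zero]
    exact fun h => hab (Nat.cast_injective h).symm
  refine ⟨⁅D, D'⁆, H.lie_mem hD hD', ?_, ?_⟩
  · rw [ne_zero_iff, hbr]
    intro h
    rw [h, coeff_zero] at hcoef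
    exact hcoef rfl
  · rw [hbr]
    apply le_antisymm
    · exact (natDegree_sub_le _ _).trans (max_le hdeg1 hdeg2)
    · exact le_natDegree_of_ne_zero hcoef

lemma le_of_S (H H' : LieSubalgebra k (W k)) (hle : H ≤ H') (hS : S k H' ⊆ S k H) : H' ≤ H := by
  have key : ∀ n : ℕ, ∀ D ∈ H', (D.1 X).natDegree < n → D ∈ H := by
    intro n
    induction n with
    | zero => intro D _ h; exact absurd h (Nat.not_lt_zero _)
    | succ n ih =>
      intro D hD hn
      by_cases hD0 : D = 0
      · rw [hD0]; exact H.zero_mem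
      · obtain ⟨a, ha⟩ := exists_deg k D hD0
        obtain ⟨E, hE, hE0, hEa⟩ := hS ⟨D, hD, hD0, ha⟩
        set c := (D.1 X).leadingCoeff / (E.1 X).leadingCoeff with hc
        have hElc : (E.1 X).leadingCoeff ≠ 0 := leadingCoeff_ne_zero.2 ((ne_zero_iff k E).1 hE0)
        have hmem : D - c • E ∈ H' := H'.sub_mem hD (H'.smul_mem c (hle hE))
        have hDE : (D - c • E).1 X = D.1 X - C c * E.1 X := by
          change (D.1 - c • E.1) X = _
          rw [Derivation.sub_apply, Derivation.smul_apply, smul_eq_C_mul]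
        have hlt : ((D - c • E).1 X).natDegree < n := by
          rw [hDE]
          have hle1 : (D.1 X - C c * E.1 X).natDegree ≤ a + 1 := by
            refine (natDegree_sub_le _ _).trans (max_le ha.le ?_)
            exact (natDegree_C_mul_le _ _).trans hEa.le
          have hco : (D.1 X - C c * E.1 X).coeff (a + 1) = 0 := by
            rw [coeff_sub, coeff_C_mul]
            have h1 : (D.1 X).coeff (a + 1) = (D.1 X).leadingCoeff := by rw [leadingCoeff, ha]
            have h2 : (E.1 X).coeff (a + 1) = (E.1 X).leadingCoeff := by rw [leadingCoeff, hEa]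
            rw [h1, h2, hc, div_mul_cancel₀ _ hElc, sub_self]
          rcases hle1.lt_or_eq with h | h
          · omega
          · exfalso
            have hne : (D.1 X - C c * E.1 X) ≠ 0 := by
              intro h0
              rw [h0, natDegree_zero] at h
              omega
            have := leadingCoeff_ne_zero.2 hne
            rw [leadingCoeff, h, hco] at this
            exact this rfl
        have h3 := ih _ hmem hlt
        have h4 : D = (D - c • E) + c • E := by abel
        rw [h4]
        exact H.add_mem h3 (H.smul_mem c hE)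
  intro D hD
  exact key _ D hD (Nat.lt_succ_self _)

theorem noeth [CharZero k] : IsNoeth k (W k) := by
  intro H hH
  obtain ⟨N, hN⟩ := chain_stable (fun i => S k (H i))
    (by rintro i a ⟨D, hD, h⟩; exact ⟨D, hH i hD, h⟩)
    (fun i => S_closed k (H i)) (fun i => S_pos k (H i))
  have hmono : ∀ i j, i ≤ j → H i ≤ H j := by
    intro i j hij
    induction j, hij using Nat.le_induction with
    | base => exact le_rfl
    | succ j _ ih => exact ih.trans (hH j)
  refine ⟨N, fun m hm => ?_⟩
  exact le_antisymm (le_of_S k (H N) (H m) (hmono N m hm) (hN m)) (hmono N m hm)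

theorem infinite_dim : ¬ Module.Finite k (W k) := by
  intro hfin
  have hli : LinearIndependent k (fun n : ℕ => (⟨mkDerivation k ((X : k[X]) ^ (n + 2)), by
      change (X : k[X]) ^ 2 ∣ mkDerivation k _ X
      rw [mkDerivation_X]
      exact pow_dvd_pow _ (by omega)⟩ : W k)) := by
    have hlin : LinearIndependent k (fun n : ℕ => (X : k[X]) ^ (n + 2)) := by
      have h1 := (Polynomial.basisMonomials k).linearIndependent
      have h2 : LinearIndependent k (fun n : ℕ => (Polynomial.basisMonomials k) (n + 2)) :=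
        h1.comp (fun n : ℕ => n + 2) (fun a b h => by simpa using h)
      convert h2 using 2 with n
      rw [Polynomial.coe_basisMonomials, X_pow_eq_monomial]
    let φ : W k →ₗ[k] k[X] :=
      { toFun := fun D => D.1 X
        map_add' := fun _ _ => rfl
        map_smul' := fun _ _ => rfl }
    refine LinearIndependent.of_comp φ ?_
    convert hlin using 2 with n
    exact mkDerivation_X _ _
  exact (inferInstance : Infinite ℕ).not_finite hli.finite

/-- **Theorem.** Over every field `k` of characteristic `0` the positive part `W k` of the Witt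
algebra (the derivations `f d/dx` of `k[x]` with `x^2 ∣ f`) is an infinite-dimensional Lie algebra
which satisfies the maximal condition on subalgebras and is approximable by nilpotent Lie
algebras. -/
theorem result (k : Type*) [Field k] [CharZero k] :
    ¬ Module.Finite k (W k) ∧ IsNoeth k (W k) ∧ IsResNilp k (W k) :=
  ⟨infinite_dim k, noeth k, resNilp k⟩

end Pool.Agent.Results.MP_d0ec72_al.PositiveWitt
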