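import Pool.Agent.Q218.HB.Fin7

/-!
# The bulk of the spectrum of the Anderson model in high dimension

The operator `H = -Δ + ω` on the torus `(ℤ/n)^d`, `n` large, with independent centered `ω_x`,
`|ω_x| ≤ M d^m` (fair signs: `M = 1`, `m = 0`); the disorder is fixed or grows with the dimension,
`m < 1/4`. In high dimension almost all eigenfunctions, in the whole spectrum and in each window of
energies of width `d^(-1/2 + 2 m + ε)` in the bulk, are spread over distances
`d^(1/2 - 2 m - 2 ε)` in every direction (up to the exponent `ε` the mean free path) and over the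
distance `d^(3/2 - 2 m - 2 ε) / 2` in the sense of the `ℓ¹` norm, and their Fourier transforms are
concentrated on the energy shell of the free operator.

Idea of the proof. With `G₀ = (-Δ - z)⁻¹`, `G = (H - z)⁻¹`, `Im z = η`, the Hilbert-Schmidt norm
of `G - G₀` is estimated by a self-consistent inequality for the random variables `‖G(z) δ_x‖`,
going down in `η` by steps `d^(-ε/4)`: `Im G₀(x,x)` is `O(d^(-1/2))` uniformly in the energy (Bessel
functions), so one collision costs `d^(2 m - 1/2) / η`. The free resolvent spreads over the distance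
`1/η` in every direction (a commutator estimate) and all statements follow for almost all
eigenfunctions by Bessel's inequality.

Parts of the proof: helpers 65, 121, 123, 124, 129, 130, 150, 153, 164, 182, 190, 198, 224, 265, 285.
-/

set_option autoImplicit false

open MeasureTheory

namespace Pool.Agent.Results.MP_d0f69c_mp.HighDimensionBulk

/-- the torus `(ℤ/n)^d` -/
abbrev Torus (d n : ℕ) : Type := Fin d → ZMod n

/-- `(H u)(x) = -∑_{|y - x| = 1} (u(y) - u(x)) + ω_x u(x)` -/
noncomputable def H {d n : ℕ} (ω : Torus d n → ℝ) (u : Torus d n → ℂ) (x : Torus d n) : ℂ :=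
  -∑ i : Fin d, ((u (x + Pi.single i 1) - u x) + (u (x - Pi.single i 1) - u x)) + (ω x : ℂ) * u x

/-- `φ` is an orthonormal basis of eigenfunctions of `H`, with the eigenvalues `e`; its members are
indexed by the `n^d` points of the torus -/
structure IsEigenbasis {d n : ℕ} [NeZero n] (ω : Torus d n → ℝ) (φ : Torus d n → Torus d n → ℂ)
    (e : Torus d n → ℝ) : Prop where
  orthonormal : ∀ j k, ∑ x, (starRingEnd ℂ) (φ j x) * φ k x = if j = k then 1 else 0
  eigen : ∀ j x, H ω (φ j) x = (e j : ℂ) * φ j x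

/-- the distance on `ℤ/n` -/
def dist1 {n : ℕ} (a b : ZMod n) : ℕ := (a - b).valMinAbs.natAbs

/-- the mass of `u` in every ball `∑_i |x_i - b_i| ≤ d L / 2` is at most `τ` -/
def Spread {d n : ℕ} [NeZero n] (u : Torus d n → ℂ) (L : ℕ) (τ : ℝ) : Prop :=
  ∀ b : Torus d n, ∑ x with 2 * ∑ i, dist1 (x i) (b i) ≤ d * L, ‖u x‖ ^ 2 ≤ τ

/-- the mass of `u` in every slab `|x_i - b| ≤ L` is at most `τ` -/
def SpreadIn {d n : ℕ} [NeZero n] (u : Torus d n → ℂ) (i : Fin d) (L : ℕ) (τ : ℝ) : Prop :=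
  ∀ b : ZMod n, ∑ x with dist1 (x i) b ≤ L, ‖u x‖ ^ 2 ≤ τ

/-- the unitary Fourier transform `n^(-d/2) ∑_x exp(-2 π i k·x/n) u(x)` -/
noncomputable def fourier {d n : ℕ} [NeZero n] (u : Torus d n → ℂ) (k : Torus d n) : ℂ :=
  ((Real.sqrt ((n : ℝ) ^ d))⁻¹ : ℝ) * ∑ x : Torus d n,
    Complex.exp (-(2 * Real.pi * (∑ j : Fin d, ((k j).val : ℝ) * ((x j).val : ℝ)) / n : ℝ) * Complex.I) * u x

/-- the symbol of `-Δ` -/
noncomputable def symbol {d n : ℕ} (k : Torus d n) : ℝ :=
  ∑ j : Fin d, (2 - 2 * Real.cos (2 * Real.pi * ((k j).val : ℝ) / n))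

/-- the mass of the Fourier transform of `u` outside `|e(k) - e| ≤ 4 η` is at most `τ` -/
def OnShell {d n : ℕ} [NeZero n] (u : Torus d n → ℂ) (e η τ : ℝ) : Prop :=
  ∑ k with 4 * η < |symbol k - e|, ‖fourier u k‖ ^ 2 ≤ τ

open Classical in
/-- all but at most `τ T` of the `φ j`, `j ∈ J`, satisfy `Spread` and `OnShell`, and for each
direction `i` all but at most `τ T` of them satisfy `SpreadIn` -/
def Most {d n : ℕ} [NeZero n] (φ : Torus d n → Torus d n → ℂ) (e : Torus d n → ℝ) (η τ : ℝ) (L : ℕ)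
    (J : Finset (Torus d n)) (T : ℝ) : Prop :=
  (((J.filter fun j => ¬ (Spread (φ j) L τ ∧ OnShell (φ j) (e j) η τ)).card : ℝ) ≤ τ * T) ∧
  ∀ i : Fin d, (((J.filter fun j => ¬ SpreadIn (φ j) i L τ).card : ℝ) ≤ τ * T)

/-- the indices of the eigenvalues in `[E - η, E + η]` -/
noncomputable def window {d n : ℕ} [NeZero n] (e : Torus d n → ℝ) (E η : ℝ) : Finset (Torus d n) :=
  Finset.univ.filter fun j => |e j - E| ≤ η

open Pool.Agent.Q218.HB

theorem sum_hm {d n : ℕ} [NeZero n] (ω : Torus d n → ℝ) (u : Torus d n → ℂ) (x : Torus d n) :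
    ∑ y, Hm hop ω x y * u y = H ω u x - 2 * d * u x := by
  have h1 : ∀ y, Hm hop ω x y * u y = -∑ i : Fin d, ((if y = x + ev i then u y else 0) +
      (if y = x - ev i then u y else 0)) + (if x = y then (ω x : ℂ) * u y else 0) := fun y => by
    unfold Hm hop
    rw [add_mul, ite_mul, zero_mul]
    congr 1
    push_cast
    rw [neg_mul, Finset.sum_mul]
    congr 1
    refine Finset.sum_congr rfl fun i _ => ?_
    split_ifs <;> (push_cast; ring)
  rw [Finset.sum_congr rfl fun y _ => h1 y, Finset.sum_add_distrib, Finset.sum_neg_distrib, Finset.sum_comm,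
    Finset.sum_ite_eq]
  simp only [Finset.mem_univ, if_true]
  have h2 : ∀ i : Fin d, ∑ y, ((if y = x + ev i then u y else 0) + (if y = x - ev i then u y else 0)) =
      u (x + Pi.single i 1) + u (x - Pi.single i 1) := fun i => by
    rw [Finset.sum_add_distrib, Finset.sum_ite_eq', Finset.sum_ite_eq']
    simp only [Finset.mem_univ, if_true]
    rfl
  rw [Finset.sum_congr rfl fun i _ => h2 i, H]
  have h3 : ∑ i : Fin d, ((u (x + Pi.single i 1) - u x) + (u (x - Pi.single i 1) - u x)) =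
      ∑ i : Fin d, (u (x + Pi.single i 1) + u (x - Pi.single i 1)) - 2 * d * u x := by
    have : ∀ i : Fin d, (u (x + Pi.single i 1) - u x) + (u (x - Pi.single i 1) - u x) =
        (u (x + Pi.single i 1) + u (x - Pi.single i 1)) - 2 * u x := fun i => by ring
    rw [Finset.sum_congr rfl fun i _ => this i, Finset.sum_sub_distrib, Finset.sum_const, Finset.card_univ,
      Fintype.card_fin, nsmul_eq_mul]
    ring
  rw [h3]; ring

theorem eb_of {d n : ℕ} [NeZero n] {ω : Torus d n → ℝ} {φ : Torus d n → Torus d n → ℂ}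
    {e : Torus d n → ℝ} (h : IsEigenbasis ω φ e) : EB ω φ fun j => e j - 2 * d := by
  refine ⟨h.orthonormal, fun j x => ?_⟩
  rw [sum_hm, h.eigen]
  push_cast; ring

theorem exists_basis {d n : ℕ} [NeZero n] (ω : Torus d n → ℝ) :
    ∃ (φ : Torus d n → Torus d n → ℂ) (e : Torus d n → ℝ), IsEigenbasis ω φ e := by
  have hA : (Hm hop ω : Matrix (Torus d n) (Torus d n) ℂ).IsHermitian := by
    ext x y
    rw [Matrix.conjTranspose_apply, Hm, Hm, hop_symm x y, star_add, Complex.star_def, Complex.conj_ofReal]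
    congr 1
    by_cases hxy : x = y
    · subst hxy; simp
    · rw [if_neg hxy, if_neg fun h => hxy h.symm]; simp
  refine ⟨fun j => ⇑(hA.eigenvectorBasis j), fun j => hA.eigenvalues j + 2 * d, fun j k => ?_, fun j x => ?_⟩
  · have h1 := orthonormal_iff_ite.1 hA.eigenvectorBasis.orthonormal j k
    rw [PiLp.inner_apply] at h1
    simp only [RCLike.inner_apply] at h1
    rw [← h1]
    exact Finset.sum_congr rfl fun x _ => mul_comm _ _
  · have h1 := congrFun (hA.mulVec_eigenvectorBasis j) x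
    have h2 := sum_hm ω (⇑(hA.eigenvectorBasis j)) x
    rw [Matrix.mulVec, dotProduct] at h1
    rw [h1] at h2
    simp only [Pi.smul_apply, Complex.real_smul] at h2
    push_cast
    rw [add_mul, h2]; ring

theorem most_of {d n : ℕ} [NeZero n] {φ : Torus d n → Torus d n → ℂ} {e : Torus d n → ℝ} {η τ : ℝ} {L : ℕ}
    {J : Finset (Torus d n)} {T : ℝ} (h : Few φ (fun j => e j - 2 * d) η τ L J T) : Most φ e η τ L J T := by
  classical
  obtain ⟨h1, h2⟩ := h
  constructor
  · refine le_trans ?_ h1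
    refine Nat.cast_le.2 (Finset.card_le_card fun j hj => ?_)
    rw [Finset.mem_filter] at hj ⊢
    refine ⟨hj.1, fun hh => hj.2 ⟨fun b => ?_, ?_⟩⟩
    · refine le_trans (le_of_eq ?_) (hh.1 b)
      rw [Finset.sum_filter]
      exact Finset.sum_congr rfl fun x _ => by
        by_cases hx : 2 * ∑ i, dist1 (x i) (b i) ≤ d * L
        · rw [if_pos hx, Set.indicator_of_mem (show x ∈ {x : Tor d n | 2 * ∑ i, (x i - b i).valMinAbs.natAbs ≤
            d * L} from hx)]
        · rw [if_neg hx, Set.indicator_of_notMem (show x ∉ {x : Tor d n | 2 * ∑ i, (x i - b i).valMinAbs.natAbs ≤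
            d * L} from hx)]
    · refine le_trans (le_of_eq ?_) hh.2
      rw [Finset.sum_filter]
      refine Finset.sum_congr rfl fun k _ => ?_
      have e1 : symbol k - e j = en k - (e j - 2 * d) := by
        unfold symbol en
        rw [Finset.sum_sub_distrib, Finset.sum_const, Finset.card_univ, Fintype.card_fin, nsmul_eq_mul,
          ← Finset.mul_sum]
        ring
      rw [e1]
      by_cases hk : 4 * η < |en k - (e j - 2 * d)|
      · rw [if_pos hk, Set.indicator_of_mem (show k ∈ {k : Tor d n | 4 * η < |en k - (e j - 2 * d)|} from hk)]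
        rfl
      · rw [if_neg hk, Set.indicator_of_notMem (show k ∉ {k : Tor d n | 4 * η < |en k - (e j - 2 * d)|} from hk)]
  · intro i
    refine le_trans ?_ (h2 i)
    refine Nat.cast_le.2 (Finset.card_le_card fun j hj => ?_)
    rw [Finset.mem_filter] at hj ⊢
    refine ⟨hj.1, ?_⟩
    have h3 := hj.2
    unfold SpreadIn at h3
    push Not at h3
    obtain ⟨b, hb⟩ := h3
    refine ⟨b, lt_of_lt_of_le hb ?_⟩
    rw [Finset.sum_filter]
    unfold sm
    refine Finset.sum_le_sum fun x _ => ?_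
    by_cases hx : dist1 (x i) b ≤ L
    · rw [if_pos hx, Set.indicator_of_mem (show x ∈ {x : Tor d n | x i ∈ slab b L} from mem_slab _ _ _ hx)]
    · rw [if_neg hx]
      exact Set.indicator_nonneg (fun _ _ => by positivity) x

/-- Orthonormal bases of eigenfunctions exist. For `κ > 0` there is `c > 0` such that for all `m ≥ 0`,
`ε > 0` with `2 m + 3 ε ≤ 1/2` and all `M`, all large `d` and all `n ≥ n₀(d)`: if the `ω_x` are independent
with a law `ν` on `[-M d^m, M d^m]` of mean zero then, with `η = d^(-1/2 + 2 m + ε)`, `τ = d^(-ε/64)` and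
`L = ⌊d^(1/2 - 2 m - 2 ε)⌋`,
* with probability at least `1 - τ`, for all orthonormal bases of eigenfunctions on the torus, `Most` of the
  `n^d` eigenfunctions are spread and concentrated on the energy shell;
* for every energy `|E - 2 d| ≤ κ √d`, with probability at least `1 - τ`, for all orthonormal bases of
  eigenfunctions the window `[E - η, E + η]` contains between `c η d^(-1/2) n^d` and
  `c⁻¹ η d^(-1/2) n^d` eigenvalues and the same holds for `Most` of the eigenfunctions of the window. -/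
theorem result :
    (∀ (d n : ℕ) [NeZero n] (ω : Torus d n → ℝ), ∃ (φ : Torus d n → Torus d n → ℂ) (e : Torus d n → ℝ),
      IsEigenbasis ω φ e) ∧
    ∀ κ : ℝ, 0 < κ → ∃ c : ℝ, 0 < c ∧ ∀ m ε M : ℝ, 0 ≤ m → 0 < ε → 2 * m + 3 * ε ≤ 1 / 2 → 0 ≤ M →
    ∃ d₀ : ℕ, ∀ d : ℕ, d₀ ≤ d → ∃ n₀ : ℕ, ∀ (n : ℕ) [NeZero n], n₀ ≤ n →
    ∀ (ν : Measure ℝ) [IsProbabilityMeasure ν],
      ν (Set.Icc (-(M * (d : ℝ) ^ m)) (M * (d : ℝ) ^ m))ᶜ = 0 → ∫ t, t ∂ν = 0 →
    ∀ (η τ : ℝ) (L : ℕ), η = (d : ℝ) ^ (-(1 / 2) + 2 * m + ε) → τ = (d : ℝ) ^ (-(ε / 64)) →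
      L = ⌊(d : ℝ) ^ (1 / 2 - 2 * m - 2 * ε)⌋₊ →
    (Measure.pi fun _ : Torus d n => ν) {ω | ¬ ∀ (φ : Torus d n → Torus d n → ℂ) (e : Torus d n → ℝ),
      IsEigenbasis ω φ e → Most φ e η τ L Finset.univ ((n : ℝ) ^ d)} ≤ ENNReal.ofReal τ ∧
    ∀ E : ℝ, |E - 2 * d| ≤ κ * Real.sqrt d →
      (Measure.pi fun _ : Torus d n => ν) {ω | ¬ ∀ (φ : Torus d n → Torus d n → ℂ) (e : Torus d n → ℝ),
        IsEigenbasis ω φ e →
          c * (η * (d : ℝ) ^ (-(1 / 2 : ℝ)) * (n : ℝ) ^ d) ≤ (window e E η).card ∧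
          c * (window e E η).card ≤ η * (d : ℝ) ^ (-(1 / 2 : ℝ)) * (n : ℝ) ^ d ∧
          Most φ e η τ L (window e E η) (window e E η).card} ≤ ENNReal.ofReal τ := by
  refine ⟨fun d n _ ω => exists_basis ω, fun κ hκ => ?_⟩
  obtain ⟨c, hc, hmain⟩ := main κ hκ
  refine ⟨c, hc, fun m ε M hm hε hmε hM => ?_⟩
  obtain ⟨d₀, -, hd₀⟩ := hmain m ε M hm hε hmε hM
  refine ⟨d₀, fun d hd => ?_⟩
  obtain ⟨n₀, hn₀⟩ := hd₀ d hd
  refine ⟨n₀, ?_⟩
  intro n _ hn ν _ hν hν0 η τ L hη hτ hL
  obtain ⟨hB, hA⟩ := hn₀ n hn ν hν hν0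
  have hη' : (d : ℝ) ^ (-(1 / 2 - 2 * m - ε)) = η := by rw [hη]; congr 1; ring
  rw [hη', ← hτ, ← hL] at hB
  refine ⟨?_, fun E hE => ?_⟩
  · refine (measure_mono ?_).trans hB
    intro ω hω hGB
    exact hω fun φ e h => most_of (hGB φ _ (eb_of h))
  · have hA' := hA (E - 2 * d) hE
    rw [hη', ← hτ, ← hL] at hA'
    refine (measure_mono ?_).trans hA'
    intro ω hω hGA
    refine hω fun φ e h => ?_
    obtain ⟨r1, r2, r3⟩ := hGA φ _ (eb_of h)
    have hw : Wd (fun j => e j - 2 * d) (E - 2 * d) η = window e E η := by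
      unfold Wd window
      refine Finset.filter_congr fun j _ => ?_
      rw [sub_sub_sub_cancel_right]
    rw [hw] at r1 r2 r3
    exact ⟨r1, r2, most_of r3⟩

end Pool.Agent.Results.MP_d0f69c_mp.HighDimensionBulk
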