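import Pool.Agent.Q197.PS.J

/-! # Class number one along random unions of reduced residue classes

Let `h(p)` be the class number of the field of the square root of `p`. For a function `f` of the class
number with values in `[0, 1]`, a real `m` in `[0, 1]` and a set `A` of reduced residues modulo `P` let
`dev f m P A N` be the sum of the `f(h(p)) - m` over the primes `p ≤ N` with residue in `A`, divided by
the number of all primes up to `N`. -/

set_option autoImplicit false

open Finset Filter Topology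

namespace Pool.Agent.Results.MP_d0fd9b_nt.UnionsOfReducedClasses

/-- The field generated by the square root of `d` in the real numbers. -/
noncomputable abbrev QS (d : ℕ) : IntermediateField ℚ ℝ := IntermediateField.adjoin ℚ {Real.sqrt (d : ℝ)}

theorem sqrt_integral (d : ℕ) : IsIntegral ℚ (Real.sqrt (d : ℝ)) := by
  refine ⟨Polynomial.X ^ 2 - Polynomial.C (d : ℚ), Polynomial.monic_X_pow_sub_C _ two_ne_zero, ?_⟩
  simp

noncomputable instance (d : ℕ) : NumberField (QS d) where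
  to_charZero := inferInstance
  to_finiteDimensional := by
    exact IntermediateField.adjoin.finiteDimensional (sqrt_integral d)

/-- The class number `h(d)` of the field of the square root of `d`. -/
noncomputable def h (d : ℕ) : ℕ := NumberField.classNumber (QS d)

/-- The residues `a < P` coprime to `P`; there are `φ(P)` of them. -/
def reduced (P : ℕ) : Finset ℕ := (range P).filter (fun a => P.Coprime a)

/-- The sum of the `f(h(p)) - m` over the primes `p ≤ N` with `p mod P ∈ A`, divided by `π(N)`. -/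
noncomputable def dev (f : ℕ → ℝ) (m : ℝ) (P : ℕ) (A : Finset ℕ) (N : ℕ) : ℝ :=
  (∑ p ∈ (Icc 1 N).filter (fun p => p.Prime ∧ p % P ∈ A), (f (h p) - m)) / (Nat.primeCounting N : ℝ)

/-- The same for all primes `p ≤ N`. -/
noncomputable def devAll (f : ℕ → ℝ) (m : ℝ) (N : ℕ) : ℝ :=
  (∑ p ∈ (Icc 1 N).filter (fun p => p.Prime), (f (h p) - m)) / (Nat.primeCounting N : ℝ)

/-- The function `1` at `k` and `0` elsewhere. -/
def ind (k n : ℕ) : ℝ := if n = k then 1 else 0

/-- The proportion `R(N)` of the primes `p ≤ N` with `h(p) = 1`. -/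
noncomputable def R (N : ℕ) : ℝ :=
  (((Icc 1 N).filter (fun p => p.Prime ∧ h p = 1)).card : ℝ) / (Nat.primeCounting N : ℝ)

open Classical in
/-- The number of the sets `A` of reduced residues modulo `P` such that the primes `p` with residue in `A`
have `h(p) = 1` with the density `m`. -/
noncomputable def good (m : ℝ) (P : ℕ) : ℕ :=
  ((reduced P).powerset.filter (fun A => Tendsto (dev (ind 1) m P A) atTop (𝓝 0))).card

/-- The constant `C` of Cohen and Lenstra. -/
noncomputable def cohenLenstra : ℝ :=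
  ∏' q : {q : ℕ // q.Prime ∧ q ≠ 2}, ∏' k : ℕ, (1 - 1 / ((q : ℕ) : ℝ) ^ (k + 2))

lemma tprod_mem {ι : Type*} {f : ι → ℝ} (hf : ∀ i, f i ∈ Set.Icc (0 : ℝ) 1) : ∏' i, f i ∈ Set.Icc (0 : ℝ) 1 := by
  by_cases hm : Multipliable f
  · refine isClosed_Icc.mem_of_tendsto hm.hasProd (Eventually.of_forall fun s => ⟨?_, ?_⟩)
    · exact prod_nonneg fun i _ => (hf i).1
    · exact prod_le_one (fun i _ => (hf i).1) fun i _ => (hf i).2
  · rw [tprod_eq_one_of_not_multipliable hm]
    exact ⟨zero_le_one, le_rfl⟩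

lemma cl_mem : cohenLenstra ∈ Set.Icc (0 : ℝ) 1 := by
  unfold cohenLenstra
  refine tprod_mem fun q => tprod_mem fun k => ?_
  have h1 : (1 : ℝ) ≤ ((q : ℕ) : ℝ) ^ (k + 2) := by
    apply one_le_pow₀
    exact_mod_cast q.2.1.one_lt.le
  have h2 : 1 / ((q : ℕ) : ℝ) ^ (k + 2) ≤ 1 := by
    rw [div_le_one (by linarith)]
    exact h1
  have h3 : 0 ≤ 1 / ((q : ℕ) : ℝ) ^ (k + 2) := by positivity
  exact ⟨by linarith, by linarith⟩

lemma ind_mem (k n : ℕ) : 0 ≤ ind k n ∧ ind k n ≤ 1 := by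
  unfold ind
  split_ifs <;> norm_num

lemma test_le {f : ℕ → ℝ} (hf : ∀ n, 0 ≤ f n ∧ f n ≤ 1) {m : ℝ} (h0 : 0 ≤ m) (h1 : m ≤ 1) (n : ℕ) :
    |f (h n) - m| ≤ 1 := by
  have := hf (h n)
  rw [abs_le]
  constructor <;> linarith

lemma devAll_eq (f : ℕ → ℝ) (m : ℝ) (N : ℕ) : devAll f m N = dev f m 1 {0} N := by
  unfold dev devAll
  simp only [mem_singleton, Nat.mod_one, and_true]

open Classical in
theorem result :
    (∃ C : ℝ, 1 ≤ C ∧
      (∀ f : ℕ → ℝ, (∀ n, 0 ≤ f n ∧ f n ≤ 1) → ∀ m : ℝ, 0 ≤ m → m ≤ 1 → ∀ c : ℝ, 0 < c →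
        ((∃ᶠ N in atTop, c ≤ |devAll f m N|) → ∀ P : ℕ, 0 < P →
          (((reduced P).powerset.filter (fun A => Tendsto (dev f m P A) atTop (𝓝 0))).card : ℝ) ≤
            C * (1 + 1 / c) * 2 ^ P.totient / √P.totient) ∧
        (∀ q j : ℕ, (∃ᶠ N in atTop, c ≤ |dev f m q {j} N|) → ∀ P : ℕ, 0 < P → q ∣ P →
          (((reduced P).powerset.filter (fun A => Tendsto (dev f m P A) atTop (𝓝 0))).card : ℝ) ≤
            C * (1 + 1 / c) * 2 ^ P.totient / √P.totient)) ∧
      (∀ P : ℕ, 0 < P → ∀ᶠ N : ℕ in atTop, ∀ f : ℕ → ℝ, (∀ n, 0 ≤ f n ∧ f n ≤ 1) →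
        ∀ m : ℝ, 0 ≤ m → m ≤ 1 → ∀ t : ℝ, 0 < t →
        (((reduced P).powerset.filter (fun A =>
          t * C / √P.totient ≤ |dev f m P A N - devAll f m N / 2|)).card : ℝ) ≤ 2 ^ P.totient / t ^ 2)) ∧
    (∀ m : ℝ, 0 ≤ m → m ≤ 1 →
      ((∀ q : ℕ, 0 < q → ∀ j ∈ reduced q, Tendsto (dev (ind 1) m q {j}) atTop (𝓝 0)) ↔
      ∀ q : ℕ, 0 < q → ∀ K : ℝ, ∃ P : ℕ, 0 < P ∧ q ∣ P ∧
        K * 2 ^ P.totient / √P.totient ≤ good m P) ∧
      ((∀ K : ℝ, ∃ P : ℕ, 0 < P ∧ K * 2 ^ P.totient / √P.totient ≤ good m P) →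
        Tendsto R atTop (𝓝 m))) ∧
    ((∀ K : ℝ, ∃ P : ℕ, 0 < P ∧ K * 2 ^ P.totient / √P.totient ≤ good cohenLenstra P) →
      Tendsto R atTop (𝓝 cohenLenstra)) := by
  obtain ⟨C, hC, h1, h2⟩ := Q197.PS.pack_pi
  have hlim : ∀ m : ℝ, 0 ≤ m → m ≤ 1 →
      (∀ K : ℝ, ∃ P : ℕ, 0 < P ∧ K * 2 ^ P.totient / √P.totient ≤ good m P) → Tendsto R atTop (𝓝 m) := by
    intro m h0 h1' hK
    have h3 := Q197.PS.fam_all (κ := Unit) (F := fun _ n => ind 1 (h n) - m)
      (fun _ n => test_le (ind_mem 1) h0 h1' n) (fun K => by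
        obtain ⟨P, hP, h4⟩ := hK K
        refine ⟨P, hP, h4.trans ?_⟩
        have h5 : good m P ≤ Q197.PS.nF (fun (_ : Unit) n => ind 1 (h n) - m) P := by
          unfold good Q197.PS.nF
          apply card_le_card
          intro A hA
          rw [mem_filter] at hA ⊢
          exact ⟨hA.1, fun _ => hA.2⟩
        exact_mod_cast h5) ()
    have h7 := h3.add_const m
    rw [zero_add] at h7
    refine h7.congr' ?_
    filter_upwards [eventually_ge_atTop 2] with N hN
    have hcard : ((Icc 1 N).filter (fun p => p.Prime)).card = Nat.primeCounting N := by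
      rw [Nat.primeCounting, Nat.primeCounting', Nat.count_eq_card_filter_range]
      congr 1
      ext p
      simp only [mem_filter, mem_Icc, mem_range]
      constructor
      · rintro ⟨⟨_, h8⟩, h9⟩
        exact ⟨by omega, h9⟩
      · rintro ⟨h8, h9⟩
        exact ⟨⟨h9.one_lt.le, by omega⟩, h9⟩
    have hpc : (0 : ℝ) < Nat.primeCounting N := by
      have h8 : 0 < Nat.primeCounting N := by
        rw [← hcard]
        exact card_pos.2 ⟨2, mem_filter.2 ⟨mem_Icc.2 ⟨by omega, hN⟩, Nat.prime_two⟩⟩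
      exact_mod_cast h8
    have h8 : Q197.PS.mI (fun n => ind 1 (h n) - m) 1 {0} N = devAll (ind 1) m N := by
      rw [devAll_eq]
      rfl
    rw [h8]
    unfold devAll R
    rw [sum_sub_distrib, sum_const, nsmul_eq_mul, hcard]
    have h9 : ∑ p ∈ (Icc 1 N).filter (fun p => p.Prime), ind 1 (h p) =
        (((Icc 1 N).filter (fun p => p.Prime ∧ h p = 1)).card : ℝ) := by
      unfold ind
      rw [← sum_filter, filter_filter]
      simp
    rw [h9]
    field_simp
    ring
  refine ⟨⟨C, hC, ?_, ?_⟩, ?_, ?_⟩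
  · intro f hf m h0 h1' c hc
    constructor
    · intro hfr P hP
      refine h1 (fun n => f (h n) - m) (test_le hf h0 h1') c hc 1 {0} ?_ P hP (one_dvd P)
      simp only [devAll_eq] at hfr
      exact hfr
    · intro q j hfr P hP hd
      exact h1 (fun n => f (h n) - m) (test_le hf h0 h1') c hc q {j} hfr P hP hd
  · intro P hP
    filter_upwards [h2 P hP] with N hN f hf m h0 h1' t ht
    have h3 := hN (fun n => f (h n) - m) (test_le hf h0 h1') t ht
    rw [devAll_eq]
    exact h3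
  · intro m h0 h1'
    refine ⟨?_, hlim m h0 h1'⟩
    have h3 := Q197.PS.fam_iff (κ := Unit) (F := fun _ n => ind 1 (h n) - m)
      (fun _ n => test_le (ind_mem 1) h0 h1' n)
    have h4 : ∀ (q : ℕ) (A : Finset ℕ), Q197.PS.GoodF (fun (_ : Unit) n => ind 1 (h n) - m) q A ↔
        Tendsto (dev (ind 1) m q A) atTop (𝓝 0) := fun q A => ⟨fun h => h (), fun h _ => h⟩
    have h5 : ∀ P, Q197.PS.nF (fun (_ : Unit) n => ind 1 (h n) - m) P = good m P := by
      intro P
      unfold Q197.PS.nF good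
      simp only [h4]
      rfl
    simp only [h4, h5] at h3
    exact h3
  · exact hlim _ cl_mem.1 cl_mem.2

end Pool.Agent.Results.MP_d0fd9b_nt.UnionsOfReducedClasses
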