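import Pool.Agent.Q27.TRC.Main

/-!
# Farrell–Jones groups: linear kernels with algebraic characters

`ClosedE C` lists closure properties of the class of groups which satisfy the K-theoretic
Farrell–Jones conjecture with additive category coefficients and finite wreath products (subgroups,
finite products, free products, overgroups of finite index, directed colimits, the extension
criterion); this class contains all solvable groups and the groups `GL_m(ℚ)`. A torsion-free group `G`
in the class has trivial reduced projective class group, so that `G` is of type (FF) if it is of type
(FP).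

Outline of the proof. Let `χ` be the character of a representation `ρ` of degree `n` of a normal
subgroup `M` of `V` with values in the field `F`, invariant under `V`. The functions
`y ↦ χ (y x)` span a vector space `W` over `F` of dimension at most `n ^ 2`, on which `V` acts by
conjugation. Let `k` in `M` act trivially on `W`. The commutators `[k, l]` of such elements satisfy
`χ (z [k, l]) = χ z` for all `z`, so `ρ [k, l] - 1` is in the radical of the trace form of the span of
`ρ(M)` and nilpotent. By Kolchin's theorem the derived series of the group of these `k` reaches the
kernel of `ρ` after `n` steps. The quotient of `V` by the term of the derived series is an extension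
of a solvable group by a subgroup of `GL(W) × V/M`. Finitely many conjugate characters are treated by
a sum of representations, and algebraic extensions of `F` by restriction of scalars and directed
unions. If there are only finitely many characters over an algebraically closed field of
characteristic zero, they have algebraic values since a field endomorphism can move a transcendental
element to infinitely many places.
-/

set_option autoImplicit false

namespace Pool.Agent.Results.MP_d19827_al.AlgebraicTraces

open Matrix
open Q27.TRC (tr chars)
open Pool.Agent.Y110.FJ (ClosedE)
open Q30.FJ (ClosedOver)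

/-- Let `C` be a class of groups with the closure properties `ClosedE C` which contains all solvable
groups, and let the class `D` be closed under subgroups and satisfy the extension principle over `C`
(`D = C` is possible). `tr ρ x` is the trace of the matrix `ρ x`.

(1) Let `F ≤ K` be fields with all `GL_m(F)` in `C`, and `G` a group with a faithful representation of
degree `n` over `K`, where `1, ..., n` are invertible in `K`, with all traces algebraic over `F`. Then
`G` is in `C`.

(2) Let `C` contain all `GL_m(ℚ)`, and let `N` be a normal subgroup of `G` with `G ⧸ N` in `D` so that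
for each finite subset `E` of `N` there is a representation of `N` over an algebraically closed field
`K` of characteristic zero which is injective on the subgroup generated by `E` and whose degree `n` is
such that `N` has only finitely many characters of degree `n` over `K`. Then `G` is in `D`.

(3) Let `N` be a normal subgroup of `G` with `G ⧸ N` in `D`. Suppose that for each `g` in `G` and each
finite `E` in `N` there are a subgroup `M` of `G` containing `E` with `g M g⁻¹ = M`, fields `F ≤ K` with
all `GL_m(F)` in `C`, and a representation `ρ` of `M` of degree `n` over `K`, injective on the subgroup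
generated by `E`, such that all traces are algebraic over `F`, and the character is invariant under
`g ^ k` for some `k > 0`, where `1, ..., n k` are invertible in `K`. Then `G` is in `D`. -/
theorem result (C D : ∀ (G : Type) [Group G], Prop) (hC : ClosedE C) (hD : ClosedOver C D)
    (hsol : ∀ (G : Type) [Group G], Group.IsSolvable G → C G) :
    (∀ (F K : Type) [Field F] [Field K] [Algebra F K], (∀ m : ℕ, C (GL (Fin m) F)) →
      ∀ (G : Type) [Group G] (n : ℕ), (∀ m : ℕ, 1 ≤ m → m ≤ n → (m : K) ≠ 0) →
      ∀ ρ : G →* GL (Fin n) K, Function.Injective ρ → (∀ x, IsAlgebraic F (tr ρ x)) → C G) ∧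
    ((∀ m : ℕ, C (GL (Fin m) ℚ)) → ∀ (G : Type) [Group G] (N : Subgroup G) [N.Normal],
      D (G ⧸ N) →
      (∀ E : Set N, E.Finite → ∃ (n : ℕ) (K : Type) (_ : Field K) (_ : IsAlgClosed K)
        (_ : CharZero K) (ρ : N →* GL (Fin n) K), (chars N n K).Finite ∧
        ∀ x ∈ Subgroup.closure E, ρ x = 1 → x = 1) → D G) ∧
    (∀ (G : Type) [Group G] (N : Subgroup G) [N.Normal], D (G ⧸ N) →
      (∀ (g : G) (E : Set G), E.Finite → E ⊆ N → ∃ M : Subgroup G, E ⊆ M ∧
        (∀ x, x ∈ M ↔ g * x * g⁻¹ ∈ M) ∧
        ∃ (F K : Type) (_ : Field F) (_ : Field K) (_ : Algebra F K) (n k : ℕ)
          (ρ : M →* GL (Fin n) K),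
          (∀ m : ℕ, C (GL (Fin m) F)) ∧ 0 < k ∧ (∀ m : ℕ, 1 ≤ m → m ≤ n * k → (m : K) ≠ 0) ∧
          (∀ x, IsAlgebraic F (tr ρ x)) ∧
          (∀ x y : M, (y : G) = g ^ k * x * (g ^ k)⁻¹ → tr ρ y = tr ρ x) ∧
          ∀ x : M, (x : G) ∈ Subgroup.closure E → ρ x = 1 → x = 1) → D G) :=
  ⟨fun F K _ _ _ hF G _ n hn ρ hρ halg => Q27.TRC.alg_traces hC hsol hF G n hn ρ hρ halg,
    fun hQQ G _ N _ hQ h => Q27.TRC.fin_chars hC hD hsol hQQ G N hQ h,
    fun G _ N _ hQ h => Q27.TRC.loc_chi hC hD hsol G N hQ h⟩

end Pool.Agent.Results.MP_d19827_al.AlgebraicTraces
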