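import Mathlib
import Pool.Agent.H990R2.CTFam
import Pool.Agent.Y307.Prof.Cont

/-!
# The relaxation-time condition does not imply cutoff from a typical start

We exhibit, in the conventions of the problem, a sequence of finite irreducible
(even reversible and transitive) continuous-time Markov chains with
`τ / τ₂ → ∞` for which both stationary probabilities in the definition of the cutoff from
a typical start tend to `0`.
-/

open Finset Filter Topology
open Pool.Agent

namespace Pool.Agent.Results.MP_d1aba8_pr.NoTypicalCutoff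

noncomputable section

section defs

variable {V : Type} [Fintype V] [DecidableEq V]

/-- `Q` is the generator (rate matrix) of a continuous-time Markov chain. -/
structure IsGenerator (Q : Matrix V V ℝ) : Prop where
  nonneg : ∀ x y, x ≠ y → 0 ≤ Q x y
  row : ∀ x, ∑ y, Q x y = 0

/-- The chain is irreducible: any state can be reached from any other one by jumps of
positive rate. -/
def IsIrreducible (Q : Matrix V V ℝ) : Prop :=
  ∀ x y, Relation.ReflTransGen (fun a b => a ≠ b ∧ 0 < Q a b) x y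

/-- `π` is a stationary distribution of the chain. -/
structure IsStationary (Q : Matrix V V ℝ) (π : V → ℝ) : Prop where
  nonneg : ∀ x, 0 ≤ π x
  sum_one : ∑ x, π x = 1
  invariant : ∀ y, ∑ x, π x * Q x y = 0

/-- Law of `X_t` under `P_x`: row `x` of the matrix exponential `e^{tQ}`. -/
def law (Q : Matrix V V ℝ) (t : ℝ) (x y : V) : ℝ := NormedSpace.exp (t • Q) x y

/-- `‖P_x(X_t ∈ ·) - π‖`, total variation norm. -/
def dist (Q : Matrix V V ℝ) (π : V → ℝ) (x : V) (t : ℝ) : ℝ :=
  (1 / 2 : ℝ) * ∑ y, |law Q t x y - π y|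

/-- `τ_x = inf {t ≥ 0 : ‖P_x(X_t ∈ ·) - π‖ ≤ 1/4}`. -/
def tau (Q : Matrix V V ℝ) (π : V → ℝ) (x : V) : ℝ :=
  sInf {t : ℝ | 0 ≤ t ∧ dist Q π x t ≤ 1 / 4}

open Classical in
/-- The `π`-measure of the set of states with the property `A`. -/
def prob (π : V → ℝ) (A : V → Prop) : ℝ := ∑ x, if A x then π x else 0

/-- `m` is a median of `τ_x` when `x` is drawn from `π`. -/
def IsMedian (Q : Matrix V V ℝ) (π : V → ℝ) (m : ℝ) : Prop :=
  1 / 2 ≤ prob π (fun x => tau Q π x ≤ m) ∧ 1 / 2 ≤ prob π (fun x => m ≤ tau Q π x)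

/-- The spectral gap: the smallest real part of a nonzero (complex) eigenvalue of `-Q`. -/
def gap (Q : Matrix V V ℝ) : ℝ :=
  sInf {r : ℝ | ∃ z : ℂ, z ∈ spectrum ℂ (-(Q.map Complex.ofReal)) ∧ z ≠ 0 ∧ r = z.re}

/-- The relaxation time `τ₂ = 1/λ`. -/
def trel (Q : Matrix V V ℝ) : ℝ := 1 / gap Q

end defs

section aux

variable {G : Type} [AddCommGroup G] [Fintype G] [DecidableEq G] {S : Finset G} {T : ℕ}

theorem dist_eq (h : Helper394.Bad S T) (x : G) (t : ℝ) :
    dist (H990R2.CT.srw S h.zero h.neg - 1) (fun _ => 1 / (Fintype.card G : ℝ)) x t =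
      (1 / 2 : ℝ) * ∑ y, |H990R2.CT.H (H990R2.CT.srw S h.zero h.neg) t x y -
        1 / (Fintype.card G : ℝ)| := by
  simp only [dist, law]
  rfl

theorem tau_eq (h : Helper394.Bad S T) (x : G) :
    tau (H990R2.CT.srw S h.zero h.neg - 1) (fun _ => 1 / (Fintype.card G : ℝ)) x =
      H990R2.CT.tau0 (H990R2.CT.srw S h.zero h.neg) := by
  simp only [tau, H990R2.CT.tau0, dist_eq h]
  simp only [H990R2.CT.tv_translate (H990R2.CT.srw_mulVec S h.zero h.neg) _ _ x]

omit [DecidableEq G] in
theorem prob_const (A : G → Prop) (p : Prop) [Decidable p]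
    (hA : ∀ x, A x ↔ p) :
    prob (fun _ : G => 1 / (Fintype.card G : ℝ)) A = if p then 1 else 0 := by
  have hG : (0 : ℝ) < Fintype.card G := by exact_mod_cast Fintype.card_pos
  simp only [prob, hA]
  split_ifs
  · simp only [Finset.sum_const, Finset.card_univ, nsmul_eq_mul]
    field_simp
  · simp

theorem srw_entry (h : Helper394.Bad S T) (x y : G) :
    H990R2.CT.srw S h.zero h.neg x y = if y - x ∈ S then 1 / (S.card : ℝ) else 0 := by
  simp only [H990R2.CT.srw, Helper394.cay_degree, Helper394.cay_adj]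

theorem srw_symm (h : Helper394.Bad S T) (x y : G) :
    H990R2.CT.srw S h.zero h.neg x y = H990R2.CT.srw S h.zero h.neg y x := by
  rw [srw_entry h, srw_entry h]
  have h2 : (y - x ∈ S) ↔ (x - y ∈ S) := by
    constructor
    · intro h3; have := h.neg _ h3; rwa [neg_sub] at this
    · intro h3; have := h.neg _ h3; rwa [neg_sub] at this
  simp only [h2]

theorem srw_row (h : Helper394.Bad S T) (x : G) :
    ∑ y, H990R2.CT.srw S h.zero h.neg x y = 1 := by
  simp only [srw_entry h]
  have hc : (0 : ℝ) < S.card := by exact_mod_cast h.nonempty.card_pos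
  rw [← Finset.sum_filter, Finset.sum_const, nsmul_eq_mul]
  have : (Finset.univ.filter (fun y => y - x ∈ S)).card = S.card := by
    refine Finset.card_bij' (fun y _ => y - x) (fun s _ => x + s) ?_ ?_ ?_ ?_
    · intro y hy; simpa using hy
    · intro s hs; simpa using hs
    · intro y _; simp
    · intro s _; simp
  rw [this]
  field_simp

theorem isGenerator (h : Helper394.Bad S T) :
    IsGenerator (H990R2.CT.srw S h.zero h.neg - 1) := by
  have hc : (0 : ℝ) < S.card := by exact_mod_cast h.nonempty.card_pos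
  refine ⟨fun x y hxy => ?_, fun x => ?_⟩
  · rw [Matrix.sub_apply, Matrix.one_apply_ne hxy, sub_zero, srw_entry h]
    split_ifs <;> positivity
  · simp only [Matrix.sub_apply, Finset.sum_sub_distrib, srw_row h, Matrix.one_apply,
      Finset.sum_ite_eq, mem_univ, if_true, sub_self]

theorem isStationary (h : Helper394.Bad S T) :
    IsStationary (H990R2.CT.srw S h.zero h.neg - 1) (fun _ => 1 / (Fintype.card G : ℝ)) := by
  have hG : (0 : ℝ) < Fintype.card G := by exact_mod_cast Fintype.card_pos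
  refine ⟨fun x => by positivity, ?_, fun y => ?_⟩
  · simp only [Finset.sum_const, Finset.card_univ, nsmul_eq_mul]
    field_simp
  · rw [← Finset.mul_sum]
    have h1 : ∑ x, (H990R2.CT.srw S h.zero h.neg - 1) x y =
        ∑ x, (H990R2.CT.srw S h.zero h.neg - 1) y x := by
      refine Finset.sum_congr rfl fun x _ => ?_
      rw [Matrix.sub_apply, Matrix.sub_apply, srw_symm h, Matrix.one_apply, Matrix.one_apply]
      simp only [eq_comm]
    rw [h1, (isGenerator h).row, mul_zero]

theorem isIrreducible (h : Helper394.Bad S T) :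
    IsIrreducible (H990R2.CT.srw S h.zero h.neg - 1) := by
  have hc : (0 : ℝ) < S.card := by exact_mod_cast h.nonempty.card_pos
  intro x z
  refine h.closed {y | Relation.ReflTransGen (fun a b => a ≠ b ∧
    0 < (H990R2.CT.srw S h.zero h.neg - 1) a b) x y} x Relation.ReflTransGen.refl ?_ z
  intro y hy s hs
  refine Relation.ReflTransGen.tail hy ⟨?_, ?_⟩
  · intro h1
    have h2 : s = 0 := by
      have := congrArg (fun w => w - y) h1
      simpa using this.symm
    exact h.zero (h2 ▸ hs)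
  · have hne : y ≠ y + s := by
      intro h1
      have h2 : s = 0 := by
        have := congrArg (fun w => w - y) h1
        simpa using this.symm
      exact h.zero (h2 ▸ hs)
    rw [Matrix.sub_apply, Matrix.one_apply_ne hne, sub_zero, srw_entry h,
      if_pos (by simpa using hs)]
    positivity

theorem gap_ge (h : Helper394.Bad S T) :
    1 / 4 ≤ gap (H990R2.CT.srw S h.zero h.neg - 1) := by
  have hP := H990R2.CT.srw_mulVec S h.zero h.neg
  obtain ⟨z, hz, hz0⟩ := H990R2.CT.specC_nonempty h hP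
  apply le_csInf
  · exact ⟨z.re, z, hz, hz0, rfl⟩
  · rintro r ⟨w, hw, hw0, rfl⟩
    exact H990R2.CT.specC h hP w hw hw0

end aux

/-- There is a sequence of finite irreducible continuous-time Markov chains (generators `Q n`
on `V n` with stationary distributions `π n`), reversible, for which the median `τ n` of
`τ_x` under `π n` is unique, `τ n / τ₂ → ∞`, but there is no cutoff from a typical start:
for every `ε ∈ (0,1/2)` the first probability `π {x : ‖P_x(X_{(1-ε)τ} ∈ ·) - π‖ > 1 - ε}` is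
eventually `0`, and for every `ε ∈ (0,1/8]` the second probability
`π {x : ‖P_x(X_{(1+ε)τ} ∈ ·) - π‖ < ε}` is eventually `0`.  More precisely, the distance at
time `s τ n` converges to `4^{-s}`, uniformly in the starting state, for every `s ≥ 0`. -/
theorem result :
    ∃ (V : ℕ → Type) (_ : ∀ n, Fintype (V n)) (_ : ∀ n, DecidableEq (V n))
      (Q : ∀ n, Matrix (V n) (V n) ℝ) (π : ∀ n, V n → ℝ) (τ : ℕ → ℝ),
      (∀ n, IsGenerator (Q n)) ∧
      (∀ n, IsIrreducible (Q n)) ∧
      (∀ n, IsStationary (Q n) (π n)) ∧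
      (∀ n x y, π n x * Q n x y = π n y * Q n y x) ∧
      (∀ n m, IsMedian (Q n) (π n) m ↔ m = τ n) ∧
      (∀ n, 0 < trel (Q n)) ∧
      Tendsto (fun n => τ n / trel (Q n)) atTop atTop ∧
      (∀ s : ℝ, 0 ≤ s → ∀ x : ∀ n, V n,
        Tendsto (fun n => dist (Q n) (π n) (x n) (s * τ n)) atTop (𝓝 ((4 : ℝ) ^ (-s)))) ∧
      (∀ ε : ℝ, 0 < ε → ε < 1 / 2 → ∀ᶠ n in atTop,
        prob (π n) (fun x => 1 - ε < dist (Q n) (π n) x ((1 - ε) * τ n)) = 0) ∧
      (∀ ε : ℝ, 0 < ε → ε ≤ 1 / 8 → ∀ᶠ n in atTop,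
        prob (π n) (fun x => dist (Q n) (π n) x ((1 + ε) * τ n) < ε) = 0) ∧
      ¬ (∀ ε : ℝ, 0 < ε →
        Tendsto (fun n => prob (π n)
          (fun x => 1 - ε < dist (Q n) (π n) x ((1 - ε) * τ n))) atTop (𝓝 1) ∧
        Tendsto (fun n => prob (π n)
          (fun x => dist (Q n) (π n) x ((1 + ε) * τ n) < ε)) atTop (𝓝 1)) := by
  obtain ⟨N, hN, S, w, hNn, hw1, hw2, hE⟩ := Y307.Prof.exists_seq
  have hB : ∀ n, Helper394.Bad (S n) (n + 64) := fun n =>
    (hE n).bad (by omega) (by nlinarith) (by omega) (by push_cast; exact hw1 n)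
      (by push_cast; exact hw2 n)
  let P : ∀ n, Matrix (ZMod (N n)) (ZMod (N n)) ℝ := fun n =>
    H990R2.CT.srw (S n) (hB n).zero (hB n).neg
  let Q : ∀ n, Matrix (ZMod (N n)) (ZMod (N n)) ℝ := fun n => P n - 1
  let π : ∀ n, ZMod (N n) → ℝ := fun n _ => 1 / (Fintype.card (ZMod (N n)) : ℝ)
  have hP : ∀ n, ∀ f : ZMod (N n) → ℝ, (P n).mulVec f = Helper394.U (S n) f :=
    fun n f => H990R2.CT.srw_mulVec (S n) _ _ f
  have hdx : ∀ n (x : ZMod (N n)) r, dist (Q n) (π n) x r = dist (Q n) (π n) 0 r := by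
    intro n x r
    change dist (H990R2.CT.srw (S n) (hB n).zero (hB n).neg - 1) _ x r =
      dist (H990R2.CT.srw (S n) (hB n).zero (hB n).neg - 1) _ 0 r
    rw [dist_eq (hB n), dist_eq (hB n), H990R2.CT.tv_translate (hP n) r _ x]
  have hsq : Y307.Prof.CSq (fun n r => dist (Q n) (π n) 0 r) (fun n => 1 / w n ^ 2)
      (fun n => 1 / (1 - w n)) (fun n => (1 / 2) ^ ((n + 64) ^ 2)) (fun n => n + 64) := by
    refine Y307.Prof.csq_of hw1 hw2 _ ?_ ?_
    · intro n r hr
      have h1 := (hE n).ct_low (by omega) (Y307.Prof.w_pos hw2 n) (Y307.Prof.w_lt hw1 n) (hB n)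
        (hP n) hr
      change _ ≤ dist (H990R2.CT.srw (S n) (hB n).zero (hB n).neg - 1) _ 0 r
      rw [dist_eq (hB n)]
      exact h1
    · intro n r hr
      have h1 := (hE n).ct_up (by omega) (Y307.Prof.w_pos hw2 n) (Y307.Prof.w_lt hw1 n) (hB n)
        (hP n) hr 0
      change dist (H990R2.CT.srw (S n) (hB n).zero (hB n).neg - 1) _ 0 r ≤ _
      rw [dist_eq (hB n)]
      exact h1
  have hτt : Tendsto (fun n => H990R2.CT.tau0 (P n) / (1 / (1 - w n))) atTop
      (𝓝 (Real.log 4)) := by
    have h1 := hsq.mixing (ε := 1 / 4) (by norm_num) (by norm_num)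
    rw [one_div_one_div] at h1
    refine h1.congr fun n => ?_
    congr 1
  have hL : 0 < Real.log 4 := Real.log_pos (by norm_num)
  have hτ0 : ∀ n, 0 ≤ H990R2.CT.tau0 (P n) := by
    intro n
    have h1 := H990R2.CT.tau0_ge (hB n) (by omega) (hP n)
    exact le_trans (by positivity) h1
  have hτ : Tendsto (fun n => H990R2.CT.tau0 (P n)) atTop atTop := by
    refine (hτt.pos_mul_atTop hL hsq.tlim).congr fun n => ?_
    exact div_mul_cancel₀ _ (hsq.tpos n).ne'
  have hprof : ∀ s : ℝ, 0 ≤ s →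
      Tendsto (fun n => dist (Q n) (π n) 0 (s * H990R2.CT.tau0 (P n))) atTop
        (𝓝 ((4 : ℝ) ^ (-s))) := by
    intro s hs
    have h1 : Tendsto (fun n => (s * H990R2.CT.tau0 (P n)) / (1 / (1 - w n))) atTop
        (𝓝 (s * Real.log 4)) := by
      refine (hτt.const_mul s).congr fun n => ?_
      ring
    have h2 := hsq.profile (fun n => mul_nonneg hs (hτ0 n)) h1
    have e : (4 : ℝ) ^ (-s) = Real.exp (-(s * Real.log 4)) := by
      rw [Real.rpow_def_of_pos (by norm_num)]
      congr 1
      ring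
    rw [e]
    exact h2
  have hrel : ∀ n, 0 < trel (Q n) ∧ trel (Q n) ≤ 4 := by
    intro n
    have hge : 1 / 4 ≤ gap (Q n) := gap_ge (hB n)
    refine ⟨one_div_pos.mpr (by linarith), ?_⟩
    rw [trel, div_le_iff₀ (by linarith)]
    linarith
  have hf1 : ∀ ε : ℝ, 0 < ε → ε < 1 / 2 →
      ∀ᶠ n in atTop, prob (π n) (fun x => 1 - ε <
        dist (Q n) (π n) x ((1 - ε) * H990R2.CT.tau0 (P n))) = 0 := by
    intro ε h0 h1
    have h2 : (4 : ℝ) ^ (-(1 - ε)) < 1 - ε := by
      have h4 : (4 : ℝ) ^ ε = (2 : ℝ) ^ (2 * ε) := by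
        rw [Real.rpow_mul (by norm_num)]
        norm_num
      have h5 : (2 : ℝ) ^ (2 * ε) ≤ 1 + 2 * ε := by
        have h6 := rpow_one_add_le_one_add_mul_self (s := 1) (by norm_num)
          (p := 2 * ε) (by linarith) (by linarith)
        norm_num at h6
        linarith
      have h7 : (4 : ℝ) ^ (-(1 - ε)) = (1 / 4) * (4 : ℝ) ^ ε := by
        rw [neg_sub, Real.rpow_sub (by norm_num), Real.rpow_one]
        ring
      rw [h7, h4]
      linarith
    filter_upwards [(hprof (1 - ε) (by linarith)).eventually (gt_mem_nhds h2)] with n hn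
    have h3 := prob_const (G := ZMod (N n)) (fun x => 1 - ε <
      dist (Q n) (π n) x ((1 - ε) * H990R2.CT.tau0 (P n))) False (fun x => by
        rw [iff_false, not_lt, hdx]
        exact hn.le)
    rw [if_neg not_false] at h3
    exact h3
  have hf2 : ∀ ε : ℝ, 0 < ε → ε ≤ 1 / 8 →
      ∀ᶠ n in atTop, prob (π n) (fun x =>
        dist (Q n) (π n) x ((1 + ε) * H990R2.CT.tau0 (P n)) < ε) = 0 := by
    intro ε h0 h1
    have h2 : ε < (4 : ℝ) ^ (-(1 + ε)) := by
      have h3 : (4 : ℝ) ^ (-(3 / 2 : ℝ)) = 1 / 8 := by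
        rw [Real.rpow_neg (by norm_num), show (4 : ℝ) = 2 ^ (2 : ℝ) by norm_num,
          ← Real.rpow_mul (by norm_num)]
        norm_num
      have h4 : (4 : ℝ) ^ (-(3 / 2 : ℝ)) < (4 : ℝ) ^ (-(1 + ε)) :=
        Real.rpow_lt_rpow_of_exponent_lt (by norm_num) (by linarith)
      linarith
    filter_upwards [(hprof (1 + ε) (by linarith)).eventually (lt_mem_nhds h2)] with n hn
    have h3 := prob_const (G := ZMod (N n)) (fun x =>
      dist (Q n) (π n) x ((1 + ε) * H990R2.CT.tau0 (P n)) < ε) False (fun x => by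
        rw [iff_false, not_lt, hdx]
        exact hn.le)
    rw [if_neg not_false] at h3
    exact h3
  refine ⟨fun n => ZMod (N n), fun n => inferInstance, fun n => inferInstance, Q, π,
    fun n => H990R2.CT.tau0 (P n), fun n => isGenerator (hB n), fun n => isIrreducible (hB n),
    fun n => isStationary (hB n), ?_, ?_, fun n => (hrel n).1, ?_, ?_, hf1, hf2, ?_⟩
  · intro n x y
    change 1 / (Fintype.card (ZMod (N n)) : ℝ) * (P n - 1) x y =
      1 / (Fintype.card (ZMod (N n)) : ℝ) * (P n - 1) y x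
    congr 1
    rw [Matrix.sub_apply, Matrix.sub_apply, Matrix.one_apply, Matrix.one_apply]
    have := srw_symm (hB n) x y
    change P n x y = P n y x at this
    rw [this]
    simp only [eq_comm]
  · intro n m
    classical
    have hmed : IsMedian (Q n) (π n) m ↔
        (1 / 2 ≤ prob (π n) (fun x => H990R2.CT.tau0 (P n) ≤ m) ∧
          1 / 2 ≤ prob (π n) (fun x => m ≤ H990R2.CT.tau0 (P n))) := by
      unfold IsMedian
      have h1 : ∀ x, tau (Q n) (π n) x = H990R2.CT.tau0 (P n) := fun x => tau_eq (hB n) x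
      simp only [h1]
    rw [hmed]
    have e1 := prob_const (G := ZMod (N n)) (fun _ => H990R2.CT.tau0 (P n) ≤ m)
      (H990R2.CT.tau0 (P n) ≤ m) (fun x => Iff.rfl)
    have e2 := prob_const (G := ZMod (N n)) (fun _ => m ≤ H990R2.CT.tau0 (P n))
      (m ≤ H990R2.CT.tau0 (P n)) (fun x => Iff.rfl)
    change (1 / 2 ≤ prob (fun _ : ZMod (N n) => 1 / (Fintype.card (ZMod (N n)) : ℝ)) _ ∧
      1 / 2 ≤ prob (fun _ : ZMod (N n) => 1 / (Fintype.card (ZMod (N n)) : ℝ)) _) ↔ _
    rw [e1, e2]
    constructor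
    · rintro ⟨h1, h2⟩
      have h3 : H990R2.CT.tau0 (P n) ≤ m := by
        by_contra hcon
        rw [if_neg hcon] at h1
        norm_num at h1
      have h4 : m ≤ H990R2.CT.tau0 (P n) := by
        by_contra hcon
        rw [if_neg hcon] at h2
        norm_num at h2
      exact le_antisymm h4 h3
    · rintro rfl
      rw [if_pos le_rfl]
      norm_num
  · refine tendsto_atTop_mono (fun n => ?_) (hτ.atTop_div_const (by norm_num : (0 : ℝ) < 4))
    exact div_le_div_of_nonneg_left (hτ0 n) (hrel n).1 (hrel n).2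
  · intro s hs x
    refine (hprof s hs).congr fun n => ?_
    rw [hdx n (x n)]
  · intro hcut
    obtain ⟨h1, _⟩ := hcut (1 / 4) (by norm_num)
    have h2 := hf1 (1 / 4) (by norm_num) (by norm_num)
    have h3 : Tendsto (fun n => prob (π n) (fun x => 1 - 1 / 4 <
        dist (Q n) (π n) x ((1 - 1 / 4) * H990R2.CT.tau0 (P n)))) atTop (𝓝 0) :=
      tendsto_const_nhds.congr' (by filter_upwards [h2] with n hn; exact hn.symm)
    have := tendsto_nhds_unique h1 h3
    norm_num at this

end

end Pool.Agent.Results.MP_d1aba8_pr.NoTypicalCutoff
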