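import Mathlib
import Pool.Agent.W446.AS.FArt
import Pool.Agent.Q7.DB.Main

/-!
# Artin's holomorphy conjecture: zeros and poles occur only in characters of bounded degree

`Pool.Agent.H541R3.ART.Irr G` is the set of irreducible complex characters of the finite group `G`.
`Pool.Agent.H541R3.ART.ArtinData G s₀` is a family of functions with the formal properties of the
Artin L-functions of a Galois extension `E/K` with group `G` near a point `s₀ ≠ 1`: functions
`L χ` for the irreducible characters `χ` of `G` and `Lin H ψ` for the linear characters `ψ` of the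
subgroups `H`, such that `L χ` is meromorphic and not identically zero near `s₀` (Brauer), `Lin H ψ`
has no pole at `s₀` (Artin reciprocity and Hecke), and `Lin H ψ` is the product of the
`L χ ^ ⟨χ|_H, ψ⟩` (induction). In particular `Lin ⊥ 1` stands for the Dedekind zeta function of `E`.
-/

set_option autoImplicit false

namespace Pool.Agent.Results.MP_d2121a_nt.DegreeBound

open Pool.Agent.H541R3.ART Pool.Agent.W446.AS Pool.Agent.Q7.DB

/-- Let `G` be the Galois group of `E/K`, let `r` be the order of `ζ_E` at `s₀`, and let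
`B = r ^ (1 + ⌊2 log₂ r⌋)`.
(1) If `R` is a solvable normal subgroup of `G` and `L χ` has a zero or a pole at `s₀`, then
`χ(1) ^ 2 ≤ [G : R] B ^ 2`.
(2) If `G` is solvable, then `L χ` is holomorphic and nonzero at `s₀` for every irreducible
character `χ` with `χ(1) > B`. -/
theorem result :
    (∀ (G : Type) [Group G] [Finite G] (s₀ : ℂ) (A : ArtinData G s₀) (r : ℕ),
      meromorphicOrderAt (A.Lin ⊥ 1) s₀ = (r : WithTop ℤ) →
      ∀ R : Subgroup G, R.Normal → Group.IsSolvable R →
      ∀ χ ∈ Irr G, meromorphicOrderAt (A.L χ) s₀ ≠ 0 →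
        ∃ d : ℕ, χ 1 = d ∧ d ^ 2 ≤ R.index * (r ^ (1 + Nat.log 2 (r ^ 2))) ^ 2) ∧
    (∀ (G : Type) [Group G] [Finite G] [Group.IsSolvable G] (s₀ : ℂ) (A : ArtinData G s₀) (r : ℕ),
      meromorphicOrderAt (A.Lin ⊥ 1) s₀ = (r : WithTop ℤ) →
      ∀ χ ∈ Irr G, ∀ d : ℕ, χ 1 = d → r ^ (1 + Nat.log 2 (r ^ 2)) < d →
        meromorphicOrderAt (A.L χ) s₀ = 0) := by
  have key : ∀ (G : Type) [Group G] [Finite G] (s₀ : ℂ) (A : ArtinData G s₀) (r : ℕ),
      meromorphicOrderAt (A.Lin ⊥ 1) s₀ = (r : WithTop ℤ) →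
      ∀ R : Subgroup G, R.Normal → Group.IsSolvable R →
      ∀ χ ∈ Irr G, meromorphicOrderAt (A.L χ) s₀ ≠ 0 →
        ∃ d : ℕ, χ 1 = d ∧ d ^ 2 ≤ R.index * (r ^ (1 + Nat.log 2 (r ^ 2))) ^ 2 := by
    intro G _ _ s₀ A r hr R hR hRs χ hχ hne
    classical
    have : Fintype G := Fintype.ofFinite G
    obtain ⟨d, -, hd⟩ := irr_deg_pos hχ
    refine ⟨d, hd, ?_⟩
    refine deg_main _ G rfl R hR hRs (theta A.ord) A.isHeilbronn (theta_virt _) r
      (A.theta_one hr) χ hχ ?_ d hd
    intro h0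
    apply hne
    have h1 := A.order_eq hχ (k := 0) (by rw [sum_eq_pr, h0]; simp)
    exact_mod_cast h1
  refine ⟨key, ?_⟩
  intro G _ _ _ s₀ A r hr χ hχ d hd hlt
  by_contra hne
  obtain ⟨d', hd', h1⟩ := key G s₀ A r hr ⊤ inferInstance inferInstance χ hχ hne
  rw [Subgroup.index_top, one_mul] at h1
  have h2 : d' = d := by
    rw [hd] at hd'
    exact_mod_cast hd'.symm
  rw [h2] at h1
  exact absurd ((Nat.pow_le_pow_iff_left two_ne_zero).mp h1) (not_le.mpr hlt)

end Pool.Agent.Results.MP_d2121a_nt.DegreeBound
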