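import Mathlib
import Pool.Agent.Q7.TZ.Dich

/-!
# Artin's holomorphy conjecture at double zeros of Dedekind zeta functions, for all Galois groups

`Pool.Agent.H541R3.ART.Irr G` is the set of irreducible complex characters of the finite group `G`.

`Pool.Agent.H541R3.ART.ArtinData G s₀` is a family of functions with the formal properties of the
Artin L-functions of a Galois extension `E/K` with group `G` near a point `s₀ ≠ 1`: functions
`L χ` for the irreducible characters `χ` of `G` and `Lin H ψ` for the linear characters `ψ` of the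
subgroups `H`, such that `L χ` is meromorphic and not identically zero near `s₀` (Brauer), `Lin H ψ`
has no pole at `s₀` (Artin reciprocity and Hecke), and `Lin H ψ` is the product of the
`L χ ^ ⟨χ|_H, ψ⟩` (induction). In particular `Lin ⊥ 1` stands for the Dedekind zeta function of `E`.

`Pool.Agent.Y788.V.LTData A` are functions with the formal properties of the Artin L-functions of
the irreducible characters of degree two with solvable image of the subgroups of `G`; they have no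
pole at `s₀` by the theorem of Langlands and Tunnell.

`Pool.Agent.Y788.res G` is the intersection of the derived series of `G`; it is the smallest normal
subgroup with solvable quotient, and it is perfect.

For a linear character `D` of `G` and a function `χ` on `G`, `Pool.Agent.Q7.TZ.dual D χ` is the
function `g ↦ D g * χ g⁻¹`, and `Pool.Agent.Q7.TZ.Symplectic D χ` says that `dual D χ = χ` and that
the twisted Frobenius-Schur indicator `|G|⁻¹ ∑ χ (g ^ 2) * (D g)⁻¹` is `-1` (for `D = 1`: `χ` is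
symplectic).
-/

set_option autoImplicit false

open Pool.Agent.H541R3.ART Pool.Agent.H302R2 Pool.Agent.W446.AS Pool.Agent.Y788 Pool.Agent.Y788.V
  Pool.Agent.Q7.TZ

/-- Let `G` be the Galois group of `E/K`, an arbitrary finite group.
(1) Let `ζ_E` have order at most two at `s₀`. If no quotient of `res G` has exactly one involution,
then `L χ` is holomorphic and nonzero at `s₀` for all `χ` which are nontrivial on `res G`, and all
`L χ` are holomorphic at `s₀` by the theorem of Langlands and Tunnell.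
(2) If the conclusion of (1) fails, `res G` has a normal subgroup `K` such that `res G / K` has
exactly one involution and such that `K` acts trivially and this involution acts as `-1` in all
`χ` for which `L χ` has a zero or a pole at `s₀`.
(3) Let `ζ_E` have a zero of order two at `s₀`. Then there is a linear character `D` of `G` such
that `L χ` and `L (dual D χ)` have the same order at `s₀` for all `χ`, and one of the following
holds: `L μ` has a double zero for a linear character `μ` with `μ ^ 2 = D`, and all other `L χ` are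
holomorphic and nonzero at `s₀`; or `L χ₀` has a simple zero for one `χ₀` which is symplectic for
`D`, and all other `L χ` are holomorphic and nonzero at `s₀` except for at most two which have
simple poles; or `L χ₀` and `L (dual D χ₀)` have simple zeros for one `χ₀ ≠ dual D χ₀`, and all
other `L χ` are holomorphic and nonzero at `s₀` except for at most one which has a simple pole. The
characters with a pole are symplectic for `D`. Every involution `t` of `G` with `D t = 1` (and every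
`t` with `D t = 1` for which `t ^ 2` is in the kernels) acts by one and the same sign in all `χ` for
which `L χ` has a zero or a pole at `s₀`. -/
theorem Pool.Agent.Results.MP_d2121a_nt.DoubleZeros.result
    (G : Type) [Group G] [Finite G] (s₀ : ℂ) (A : ArtinData G s₀) :
    (∀ r : ℕ, r ≤ 2 → meromorphicOrderAt (A.Lin ⊥ 1) s₀ = (r : WithTop ℤ) →
      (∀ (M : Type) [Group M] (f : res G →* M), Function.Surjective f →
        ¬ ∃! t : M, t ≠ 1 ∧ t * t = 1) →
      (∀ χ ∈ Irr G, (∃ n ∈ res G, χ n ≠ χ 1) → meromorphicOrderAt (A.L χ) s₀ = 0) ∧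
      (Nonempty (LTData A) → ∀ χ ∈ Irr G, 0 ≤ meromorphicOrderAt (A.L χ) s₀)) ∧
    (∀ r : ℕ, r ≤ 2 → meromorphicOrderAt (A.Lin ⊥ 1) s₀ = (r : WithTop ℤ) →
      ((∀ χ ∈ Irr G, (∃ n ∈ res G, χ n ≠ χ 1) → meromorphicOrderAt (A.L χ) s₀ = 0) ∧
        (Nonempty (LTData A) → ∀ χ ∈ Irr G, 0 ≤ meromorphicOrderAt (A.L χ) s₀)) ∨
      (r = 2 ∧ ∃ (K : Subgroup (res G)) (_ : K.Normal),
        (∃! t : res G ⧸ K, t ≠ 1 ∧ t * t = 1) ∧
        ∀ χ ∈ Irr G, meromorphicOrderAt (A.L χ) s₀ ≠ 0 → (∀ k ∈ K, χ k = χ 1) ∧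
          ∀ z : res G, z ∉ K → z * z ∈ K → χ z = -χ 1)) ∧
    (meromorphicOrderAt (A.Lin ⊥ 1) s₀ = ((2 : ℕ) : WithTop ℤ) →
      ∃ D : G →* ℂˣ,
        (∀ χ ∈ Irr G, dual D χ ∈ Irr G ∧
          meromorphicOrderAt (A.L (dual D χ)) s₀ = meromorphicOrderAt (A.L χ) s₀) ∧
        ((∃ μ : G →* ℂˣ, μ * μ = D ∧
            meromorphicOrderAt (A.L fun g => ((μ g : ℂˣ) : ℂ)) s₀ = ((2 : ℤ) : WithTop ℤ) ∧
            ∀ χ ∈ Irr G, χ ≠ (fun g => ((μ g : ℂˣ) : ℂ)) → meromorphicOrderAt (A.L χ) s₀ = 0) ∨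
          (∃ χ₀ ∈ Irr G, Symplectic D χ₀ ∧
            meromorphicOrderAt (A.L χ₀) s₀ = ((1 : ℤ) : WithTop ℤ) ∧
            ∃ N : Finset (G → ℂ), N.card ≤ 2 ∧
              (∀ ψ ∈ N, ψ ∈ Irr G ∧ Symplectic D ψ ∧
                meromorphicOrderAt (A.L ψ) s₀ = ((-1 : ℤ) : WithTop ℤ)) ∧
              ∀ χ ∈ Irr G, χ ≠ χ₀ → χ ∉ N → meromorphicOrderAt (A.L χ) s₀ = 0) ∨
          (∃ χ₀ ∈ Irr G, dual D χ₀ ≠ χ₀ ∧
            meromorphicOrderAt (A.L χ₀) s₀ = ((1 : ℤ) : WithTop ℤ) ∧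
            meromorphicOrderAt (A.L (dual D χ₀)) s₀ = ((1 : ℤ) : WithTop ℤ) ∧
            ∃ N : Finset (G → ℂ), N.card ≤ 1 ∧
              (∀ ψ ∈ N, ψ ∈ Irr G ∧ Symplectic D ψ ∧
                meromorphicOrderAt (A.L ψ) s₀ = ((-1 : ℤ) : WithTop ℤ)) ∧
              ∀ χ ∈ Irr G, χ ≠ χ₀ → χ ≠ dual D χ₀ → χ ∉ N →
                meromorphicOrderAt (A.L χ) s₀ = 0)) ∧
        ∀ t : G, D t = 1 →
          (∀ χ ∈ Irr G, meromorphicOrderAt (A.L χ) s₀ ≠ 0 → χ (t * t) = χ 1) →
          ∃ ε : ℂ, (ε = 1 ∨ ε = -1) ∧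
            ∀ χ ∈ Irr G, meromorphicOrderAt (A.L χ) s₀ ≠ 0 → χ t = ε * χ 1) := by
  have hord : ∀ χ ∈ Irr G, ∀ k : ℤ, meromorphicOrderAt (A.L χ) s₀ = (k : WithTop ℤ) ↔
      A.ord χ = k := by
    intro χ hχ k
    rw [← A.coe_ord hχ]
    exact WithTop.coe_eq_coe
  have hord0 : ∀ χ ∈ Irr G, meromorphicOrderAt (A.L χ) s₀ = 0 ↔ A.ord χ = 0 := by
    intro χ hχ
    exact hord χ hχ 0
  have hpr : ∀ χ ∈ Irr G, meromorphicOrderAt (A.L χ) s₀ ≠ 0 → pr (theta A.ord) χ ≠ 0 := by
    intro χ hχ h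
    rw [pr_theta A.ord hχ]
    intro h0
    exact h ((hord0 χ hχ).mpr (by exact_mod_cast h0))
  have hmain : ∀ r : ℕ, r ≤ 2 → meromorphicOrderAt (A.Lin ⊥ 1) s₀ = (r : WithTop ℤ) →
      ((∀ χ ∈ Irr G, (∃ n ∈ res G, χ n ≠ χ 1) → meromorphicOrderAt (A.L χ) s₀ = 0) ∧
        (Nonempty (LTData A) → ∀ χ ∈ Irr G, 0 ≤ meromorphicOrderAt (A.L χ) s₀)) ∨
      (r = 2 ∧ ∃ (K : Subgroup (res G)) (_ : K.Normal),
        (∃! t : res G ⧸ K, t ≠ 1 ∧ t * t = 1) ∧
        ∀ χ ∈ Irr G, meromorphicOrderAt (A.L χ) s₀ ≠ 0 → (∀ k ∈ K, χ k = χ 1) ∧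
          ∀ z : res G, z ∉ K → z * z ∈ K → χ z = -χ 1) := by
    intro r hr2 hr
    rcases dich A.isHeilbronn (theta_virt A.ord) hr2 (A.theta_one hr) with h | ⟨h1, K, h2, h3, h4⟩
    · left
      exact artin_of_const A hr2 hr h
    · right
      exact ⟨h1, K, h2, h3, fun χ hχ h5 => h4 χ hχ (hpr χ hχ h5)⟩
  refine ⟨fun r hr2 hr hq => ?_, hmain, fun h2 => ?_⟩
  · rcases hmain r hr2 hr with h | ⟨-, K, hK, h3, -⟩
    · exact h
    · exact absurd h3 (hq (res G ⧸ K) (QuotientGroup.mk' K) (QuotientGroup.mk'_surjective K))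
  · have h1 : (theta A.ord : G → ℂ) 1 = 2 := by
      rw [A.theta_one h2]; simp
    obtain ⟨D, -, hdual, hshape, hinv⟩ := shape_gen A.ord A.isHeilbronn h1
    refine ⟨D, fun χ hχ => ⟨(hdual χ hχ).1, ?_⟩, ?_, ?_⟩
    · rw [← A.coe_ord (hdual χ hχ).1, ← A.coe_ord hχ, (hdual χ hχ).2]
    · rcases hshape with ⟨μ, e1, e2, e3⟩ | ⟨χ₀, hχ₀, e1, e2, N, e3, e4, e5⟩ |
        ⟨χ₀, hχ₀, e1, e2, e2', N, e3, e4, e5⟩
      · left
        have hμ : (fun g => ((μ g : ℂˣ) : ℂ)) ∈ Irr G := by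
          by_contra hcon
          have h3 : (theta A.ord : G → ℂ) 1 = 0 := by
            rw [theta]
            refine Finset.sum_eq_zero fun χ hχ => ?_
            rw [e3 χ (mem_irrF.mp hχ) (fun h => hcon (h ▸ mem_irrF.mp hχ))]
            simp
          rw [h1] at h3
          norm_num at h3
        exact ⟨μ, e1, (hord _ hμ 2).mpr e2, fun χ hχ hne => (hord0 χ hχ).mpr (e3 χ hχ hne)⟩
      · right; left
        exact ⟨χ₀, hχ₀, e1, (hord χ₀ hχ₀ 1).mpr e2, N, e3, fun ψ hψ =>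
          ⟨(e4 ψ hψ).1, (e4 ψ hψ).2.1, (hord ψ (e4 ψ hψ).1 (-1)).mpr (e4 ψ hψ).2.2⟩,
          fun χ hχ hne hN => (hord0 χ hχ).mpr (e5 χ hχ hne hN)⟩
      · right; right
        exact ⟨χ₀, hχ₀, e1, (hord χ₀ hχ₀ 1).mpr e2, (hord _ (hdual χ₀ hχ₀).1 1).mpr e2', N, e3,
          fun ψ hψ =>
            ⟨(e4 ψ hψ).1, (e4 ψ hψ).2.1, (hord ψ (e4 ψ hψ).1 (-1)).mpr (e4 ψ hψ).2.2⟩,
          fun χ hχ hne hne' hN => (hord0 χ hχ).mpr (e5 χ hχ hne hne' hN)⟩
    · intro t ht hK
      obtain ⟨ε, hε, h3⟩ := hinv t ht (fun χ hχ hne => hK χ hχ (fun h => hne ((hord0 χ hχ).mp h)))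
      exact ⟨ε, hε, fun χ hχ hne => h3 χ hχ (fun h => hne ((hord0 χ hχ).mpr h))⟩
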