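import Mathlib
import Pool.Agent.Q28.AD.Simple

/-!
# Artin's holomorphy conjecture in ninety-five per cent of the degrees

`Pool.Agent.H541R3.ART.Irr G` is the set of irreducible complex characters of the finite group `G`.
`Pool.Agent.H541R3.ART.ArtinData G s₀` is a family of functions with the formal properties of the
Artin L-functions of a Galois extension `E/K` with group `G` near a point `s₀ ≠ 1`: functions `L χ`
for the irreducible characters `χ` of `G` and `Lin H ψ` for the linear characters `ψ` of the
subgroups `H`, such that `L χ` is meromorphic and not identically zero near `s₀` (Brauer), `Lin H ψ`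
has no pole at `s₀` (Artin reciprocity and Hecke), and `Lin H ψ` is the product of the
`L χ ^ ⟨χ|_H, ψ⟩` (induction).
`Pool.Agent.W446.AS.TwoDim A` are functions with the formal properties of the Artin L-functions of
the irreducible characters of degree two of subgroups; for solvable `G` they have no pole at `s₀` by
the theorem of Langlands and Tunnell.
-/

set_option autoImplicit false

namespace Pool.Agent.Results.MP_d2121a_nt.NinetyFivePercent

open Pool.Agent.H541R3.ART Pool.Agent.W446.AS Pool.Agent.Q28.AD Finset
open scoped Classical

/-- Artin's holomorphy conjecture (away from `s = 1`) for all solvable groups of order `n`: no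
`L χ` has a pole at `s₀`, for all families with the formal properties of Artin L-functions. -/
def SolvableDegree (n : ℕ) : Prop :=
  ∀ (G : Type) [Group G] [Finite G], Group.IsSolvable G → Nat.card G = n →
    ∀ (s₀ : ℂ) (A : ArtinData G s₀), Nonempty (TwoDim A) →
      ∀ χ ∈ Irr G, 0 ≤ meromorphicOrderAt (A.L χ) s₀

/-- The same for all groups of order `n`. -/
def Degree (n : ℕ) : Prop :=
  ∀ (G : Type) [Group G] [Finite G], Nat.card G = n →
    ∀ (s₀ : ℂ) (A : ArtinData G s₀), Nonempty (TwoDim A) →
      ∀ χ ∈ Irr G, 0 ≤ meromorphicOrderAt (A.L χ) s₀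

/-- The same for all groups of order `n`, without the theorem of Langlands and Tunnell. -/
def DegreeStrong (n : ℕ) : Prop :=
  ∀ (G : Type) [Group G] [Finite G], Nat.card G = n →
    ∀ (s₀ : ℂ) (A : ArtinData G s₀), ∀ χ ∈ Irr G, 0 ≤ meromorphicOrderAt (A.L χ) s₀

/-- Thompson's theorem on minimal simple groups: the order of a finite group which is not solvable is
divisible by the order of one of the minimal simple groups. -/
def Thompson : Prop :=
  ∀ (G : Type) [Group G] [Finite G], ¬ Group.IsSolvable G →
    ∃ m, MinimalSimpleOrder m ∧ m ∣ Nat.card G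

/-- **Artin's holomorphy conjecture holds in at least 95 per cent of the degrees.**
(1) If `n` is not divisible by one of the `35` numbers in `moduli` nor by the cube of a prime
`p ≥ 29`, then no Artin L-function of a solvable group of order `n` has a pole at a point `s₀ ≠ 1`.
(2) Among the numbers `1, …, N` at most `N / 20` do not have this property.
(3) Given Thompson's theorem, the same holds for all groups of order `n` (solvable or not) with at
most `3 N / 40` exceptions `n ≤ N`, in particular if moreover neither `60` nor `168` nor one of the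
numbers `p (p ^ 2 - 1) / 2`, `p ≥ 13` prime, divides `n`; and for all groups of odd order `n`, then
without the theorem of Langlands and Tunnell, with at most `N / 140` exceptions. -/
theorem result :
    (∀ n, ¬ Bad n → SolvableDegree n) ∧
    (∀ N : ℕ, (((Ioc 0 N).filter fun n => ¬ SolvableDegree n).card : ℝ) ≤ N / 20) ∧
    (Thompson →
      (∀ n, ¬ AllBad n → Degree n) ∧
      (∀ N : ℕ, (((Ioc 0 N).filter fun n => ¬ Degree n).card : ℝ) ≤ 3 * N / 40) ∧
      (∀ N : ℕ, (((Ioc 0 N).filter fun n => Odd n ∧ ¬ DegreeStrong n).card : ℝ) ≤ N / 140)) := by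
  have key : ∀ n, ¬ Bad n → SolvableDegree n := by
    intro n hn G _ _ hG hc s₀ A hA
    subst hc
    exact holomorphic_of_not_bad hn A hA
  refine ⟨key, ?_, ?_⟩
  · intro N
    have h1 : (Ioc 0 N).filter (fun n => ¬ SolvableDegree n) ⊆ (Ioc 0 N).filter Bad := by
      intro n hn
      rw [mem_filter] at hn ⊢
      exact ⟨hn.1, by_contra fun h => hn.2 (key n h)⟩
    have h2 : (((Ioc 0 N).filter fun n => ¬ SolvableDegree n).card : ℝ)
        ≤ ((Ioc 0 N).filter Bad).card := by exact_mod_cast card_le_card h1
    have h3 := count_bad N
    linarith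
  · intro hT
    have key2 : ∀ n, ¬ AllBad n → Degree n := by
      intro n hn G _ _ hc s₀ A hA
      by_cases hG : Group.IsSolvable G
      · exact key n (fun h => hn (Or.inl h)) G hG hc s₀ A hA
      · obtain ⟨m, hm, hd⟩ := hT G hG
        rw [hc] at hd
        exact absurd ((simple_bad hm).1.mono hd) hn
    refine ⟨key2, ?_, ?_⟩
    · intro N
      have h1 : (Ioc 0 N).filter (fun n => ¬ Degree n) ⊆ (Ioc 0 N).filter AllBad := by
        intro n hn
        rw [mem_filter] at hn ⊢
        exact ⟨hn.1, by_contra fun h => hn.2 (key2 n h)⟩
      have h2 : (((Ioc 0 N).filter fun n => ¬ Degree n).card : ℝ)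
          ≤ ((Ioc 0 N).filter AllBad).card := by exact_mod_cast card_le_card h1
      have h3 := count_allBad N
      linarith
    · intro N
      have h1 : (Ioc 0 N).filter (fun n => Odd n ∧ ¬ DegreeStrong n)
          ⊆ (Ioc 0 N).filter (fun n => Odd n ∧ Bad n) := by
        intro n hn
        rw [mem_filter] at hn ⊢
        refine ⟨hn.1, hn.2.1, by_contra fun h => hn.2.2 ?_⟩
        intro G _ _ hc s₀ A
        by_cases hG : Group.IsSolvable G
        · subst hc
          exact holomorphic_odd hn.2.1 h A
        · obtain ⟨m, hm, hd⟩ := hT G hG
          rw [hc] at hd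
          obtain ⟨k, hk⟩ := hn.2.1
          have := (simple_bad hm).2.trans hd
          omega
      have h2 : (((Ioc 0 N).filter fun n => Odd n ∧ ¬ DegreeStrong n).card : ℝ)
          ≤ ((Ioc 0 N).filter (fun n => Odd n ∧ Bad n)).card := by exact_mod_cast card_le_card h1
      have h3 := count_odd_bad N
      linarith

end Pool.Agent.Results.MP_d2121a_nt.NinetyFivePercent
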