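import Mathlib
import Pool.Agent.Q28.AD.All24
import Pool.Agent.Q92.AR.All
import Pool.Agent.Q92.AR.Use

/-!
# Artin's holomorphy conjecture in ninety-two per cent of the degrees

Everything is about the Artin L-functions of Galois extensions `M/K` of number fields:
`Pool.Agent.Q92.AR.artinL M χ` is the L-function of the class function `χ` of the Galois group,
the Euler product over the primes of `K` unramified in `M` (the other Euler factors have no zero or
pole for `Re s > 0`), `Continues f g` says that `f` is meromorphic on `ℂ` and equal to `g` for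
`Re s > 1`.  Artin reciprocity, Hecke's theorem and Brauer's induction theorem are not assumed, they
are proved in project AR.
-/

set_option autoImplicit false

namespace Pool.Agent.Results.MP_d2121a_nt.NinetyTwoPercent

open Pool.Agent.H541R3.ART Pool.Agent.W446.AS Pool.Agent.Q28.AD Pool.Agent.Q92.AR Finset
open scoped Classical

/-- Artin's holomorphy conjecture for the extension `M/K`, up to the point `1` and the line
`Re s = 0`: for every irreducible character `χ` the function `L(s, χ, M/K)` has a meromorphic
continuation to `ℂ` without pole `s₀ ≠ 1` such that `Re s₀ > 0`. -/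
def Artin (K M : Type) [Field K] [NumberField K] [Field M] [NumberField M] [Algebra K M] : Prop :=
  ∀ χ ∈ Irr (M ≃ₐ[K] M), ∃ f : ℂ → ℂ, Continues f (artinL M χ) ∧
    ∀ s₀ : ℂ, 0 < s₀.re → s₀ ≠ 1 → 0 ≤ meromorphicOrderAt f s₀

/-- Artin's conjecture for the Galois extensions of number fields of degree `n` with solvable group. -/
def SolvableDegree (n : ℕ) : Prop :=
  ∀ (K M : Type) [Field K] [NumberField K] [Field M] [NumberField M] [Algebra K M] [IsGalois K M],
    Group.IsSolvable (M ≃ₐ[K] M) → Module.finrank K M = n → Artin K M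

/-- Artin's conjecture for all Galois extensions of number fields of degree `n`. -/
def Degree (n : ℕ) : Prop :=
  ∀ (K M : Type) [Field K] [NumberField K] [Field M] [NumberField M] [Algebra K M] [IsGalois K M],
    Module.finrank K M = n → Artin K M

/-- The same for solvable groups, with the theorem of Langlands and Tunnell for `M/K`: the
L-functions of the irreducible characters of degree two of the subgroups have no pole. -/
def SolvableDegreeLT (n : ℕ) : Prop :=
  ∀ (K M : Type) [Field K] [NumberField K] [Field M] [NumberField M] [Algebra K M] [IsGalois K M],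
    (∀ s₀ : ℂ, LanglandsTunnell (K := K) M s₀) → Group.IsSolvable (M ≃ₐ[K] M) →
      Module.finrank K M = n → Artin K M

/-- Thompson's theorem on minimal simple groups: the order of a finite group which is not solvable is
divisible by the order of one of the minimal simple groups. -/
def Thompson : Prop :=
  ∀ (G : Type) [Group G] [Finite G], ¬ Group.IsSolvable G →
    ∃ m, MinimalSimpleOrder m ∧ m ∣ Nat.card G

lemma artin_of (K M : Type) [Field K] [NumberField K] [Field M] [NumberField M] [Algebra K M]
    [IsGalois K M]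
    (h : ∀ s₀ : ℂ, ∀ hC : Continued (K := K) M s₀, ∀ χ ∈ Irr (M ≃ₐ[K] M),
      0 ≤ meromorphicOrderAt ((ArtinData.ofExtension hC).L χ) s₀) : Artin K M := by
  intro χ hχ
  have h2 : (2 : ℂ) ≠ 1 := by norm_num
  have hC2 : Continued (K := K) M (2 : ℂ) := continued (by norm_num) h2
  refine ⟨cont (artinL M χ), cont_spec (hC2.brauer χ hχ), fun s₀ h0 h1 => ?_⟩
  exact h s₀ (continued h0 h1) χ hχ

/-- **Artin's holomorphy conjecture holds in at least 92 per cent of the degrees.**
(1) If `n` is not divisible by `24`, nor by one of the `35` numbers in `moduli`, nor by the cube of a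
prime `p ≥ 29`, then it holds for all extensions of degree `n` with solvable group; if `n` is odd
the condition that `24` does not divide `n` is void.
(2) Among the numbers `1, …, N` at most `2 N / 25` do not have this property, among the odd
numbers at most `N / 140`.
(3) With the theorem of Langlands and Tunnell `24` can be replaced by `96`, and `2 N / 25` by
`N / 20`.
(4) Given Thompson's theorem, it holds for all Galois extensions (solvable or not) of all degrees
`n ≤ N` with at most `N / 10` exceptions, and for those of odd degree with at most `N / 140`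
exceptions. -/
theorem result :
    (∀ n, ¬ Bad n → ¬ 24 ∣ n → SolvableDegree n) ∧
    (∀ N : ℕ, (((Ioc 0 N).filter fun n => ¬ SolvableDegree n).card : ℝ) ≤ 2 * N / 25 ∧
      (((Ioc 0 N).filter fun n => Odd n ∧ ¬ SolvableDegree n).card : ℝ) ≤ N / 140) ∧
    (∀ n, ¬ Bad n → SolvableDegreeLT n) ∧
    (∀ N : ℕ, (((Ioc 0 N).filter fun n => ¬ SolvableDegreeLT n).card : ℝ) ≤ N / 20) ∧
    (Thompson →
      (∀ n, ¬ AllBad n → ¬ 24 ∣ n → Degree n) ∧
      (∀ N : ℕ, (((Ioc 0 N).filter fun n => ¬ Degree n).card : ℝ) ≤ N / 10 ∧
        (((Ioc 0 N).filter fun n => Odd n ∧ ¬ Degree n).card : ℝ) ≤ N / 140)) := by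
  have key : ∀ n, ¬ Bad n → ¬ 24 ∣ n → SolvableDegree n := by
    intro n hn h24 K M _ _ _ _ _ _ hG hc
    have hcard : Nat.card (M ≃ₐ[K] M) = n := by
      rw [IsGalois.card_aut_eq_finrank, hc]
    subst hcard
    exact artin_of K M fun s₀ hC => holomorphic_of_not_bad24 (fun h => h.elim hn h24) _
  have keyLT : ∀ n, ¬ Bad n → SolvableDegreeLT n := by
    intro n hn K M _ _ _ _ _ _ hLT hG hc
    have hcard : Nat.card (M ≃ₐ[K] M) = n := by
      rw [IsGalois.card_aut_eq_finrank, hc]
    subst hcard
    exact artin_of K M fun s₀ hC =>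
      holomorphic_of_not_bad hn _ ⟨TwoDim.ofExtension hC (hLT s₀)⟩
  have hodd24 : ∀ n : ℕ, Odd n → ¬ 24 ∣ n := by
    rintro n ⟨k, hk⟩ ⟨m, hm⟩
    omega
  refine ⟨key, ?_, keyLT, ?_, ?_⟩
  · intro N
    constructor
    · have h1 : (Ioc 0 N).filter (fun n => ¬ SolvableDegree n) ⊆ (Ioc 0 N).filter Bad24 := by
        intro n hn
        rw [mem_filter] at hn ⊢
        exact ⟨hn.1, by_contra fun h => hn.2 (key n (fun h' => h (Or.inl h'))
          (fun h' => h (Or.inr h')))⟩
      have h2 : (((Ioc 0 N).filter fun n => ¬ SolvableDegree n).card : ℝ)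
          ≤ ((Ioc 0 N).filter Bad24).card := by exact_mod_cast card_le_card h1
      have h3 := count_bad24 N
      linarith
    · have h1 : (Ioc 0 N).filter (fun n => Odd n ∧ ¬ SolvableDegree n)
          ⊆ (Ioc 0 N).filter (fun n => Odd n ∧ Bad n) := by
        intro n hn
        rw [mem_filter] at hn ⊢
        exact ⟨hn.1, hn.2.1, by_contra fun h => hn.2.2 (key n h (hodd24 n hn.2.1))⟩
      have h2 : (((Ioc 0 N).filter fun n => Odd n ∧ ¬ SolvableDegree n).card : ℝ)
          ≤ ((Ioc 0 N).filter (fun n => Odd n ∧ Bad n)).card := by exact_mod_cast card_le_card h1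
      have h3 := count_odd_bad N
      linarith
  · intro N
    have h1 : (Ioc 0 N).filter (fun n => ¬ SolvableDegreeLT n) ⊆ (Ioc 0 N).filter Bad := by
      intro n hn
      rw [mem_filter] at hn ⊢
      exact ⟨hn.1, by_contra fun h => hn.2 (keyLT n h)⟩
    have h2 : (((Ioc 0 N).filter fun n => ¬ SolvableDegreeLT n).card : ℝ)
        ≤ ((Ioc 0 N).filter Bad).card := by exact_mod_cast card_le_card h1
    have h3 := count_bad N
    linarith
  · intro hT
    have key2 : ∀ n, ¬ AllBad n → ¬ 24 ∣ n → Degree n := by
      intro n hn h24 K M _ _ _ _ _ _ hc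
      by_cases hG : Group.IsSolvable (M ≃ₐ[K] M)
      · exact key n (fun h => hn (Or.inl h)) h24 K M hG hc
      · obtain ⟨m, hm, hd⟩ := hT _ hG
        rw [IsGalois.card_aut_eq_finrank, hc] at hd
        exact absurd ((simple_bad hm).1.mono hd) hn
    refine ⟨key2, fun N => ⟨?_, ?_⟩⟩
    · have h1 : (Ioc 0 N).filter (fun n => ¬ Degree n) ⊆ (Ioc 0 N).filter AllBad24 := by
        intro n hn
        rw [mem_filter] at hn ⊢
        exact ⟨hn.1, by_contra fun h => hn.2 (key2 n (fun h' => h (Or.inl h'))
          (fun h' => h (Or.inr h')))⟩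
      have h2 : (((Ioc 0 N).filter fun n => ¬ Degree n).card : ℝ)
          ≤ ((Ioc 0 N).filter AllBad24).card := by exact_mod_cast card_le_card h1
      have h3 := count_allBad24 N
      linarith
    · have h1 : (Ioc 0 N).filter (fun n => Odd n ∧ ¬ Degree n)
          ⊆ (Ioc 0 N).filter (fun n => Odd n ∧ Bad n) := by
        intro n hn
        rw [mem_filter] at hn ⊢
        refine ⟨hn.1, hn.2.1, by_contra fun h => hn.2.2 ?_⟩
        intro K M _ _ _ _ _ _ hc
        by_cases hG : Group.IsSolvable (M ≃ₐ[K] M)
        · exact key n h (hodd24 n hn.2.1) K M hG hc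
        · obtain ⟨m, hm, hd⟩ := hT _ hG
          rw [IsGalois.card_aut_eq_finrank, hc] at hd
          obtain ⟨k, hk⟩ := hn.2.1
          have := (simple_bad hm).2.trans hd
          omega
      have h2 : (((Ioc 0 N).filter fun n => Odd n ∧ ¬ Degree n).card : ℝ)
          ≤ ((Ioc 0 N).filter (fun n => Odd n ∧ Bad n)).card := by exact_mod_cast card_le_card h1
      have h3 := count_odd_bad N
      linarith

end Pool.Agent.Results.MP_d2121a_nt.NinetyTwoPercent
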