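import Pool.Agent.Q286.TR.ArtF

/-!
# Artin's holomorphy conjecture as positive definiteness of Frobenius statistics

`K/F` is a finite Galois extension of number fields with group `Γ`.  For an apex `s` with `Re s > 0`, a
slope `τ > 0` and a shift `δ > 0`, the sector with apex `s` contains the sector with apex `s + δ`, and
their difference is a region of the shape of the letter V, turned by a right angle.  The theorem gives
the number of zeros minus the number of poles of all Artin L-functions of `K/F` in this region by sums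
over prime powers with Frobenius element in a given conjugacy class, without any hypothesis on zeros or
poles; and it says that all these L-functions are holomorphic for `Re s > 0`, `s ≠ 1`, if and only if
the limits of these sums, divided by the densities of the classes, are positive definite functions on
`Γ`, for all rational `s`, `δ`, `τ` such that the point `1` is not in the region.
-/

set_option autoImplicit false

namespace Pool.Agent.Results.MP_d2121a_nt.PositiveFrobeniusStatistics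

open Complex Filter Topology NumberField IsDedekindDomain Polynomial
open scoped Classical ComplexConjugate ComplexOrder

variable {F : Type} [Field F] [NumberField F]

/-- `q_v`, the number of elements of the residue field of `v`. -/
noncomputable def q (v : HeightOneSpectrum (𝓞 F)) : ℕ := Ideal.absNorm v.asIdeal

variable {K : Type} [Field K] [NumberField K] [Algebra F K]

/-- `σ` is a Frobenius element at the prime `v` of `F`: there is a prime `w` of `K` above `v` with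
`σ x ≡ x ^ q_v` modulo `w` for all integers `x` of `K`. -/
def IsFrobenius (v : HeightOneSpectrum (𝓞 F)) (σ : K ≃ₐ[F] K) : Prop :=
  ∃ w : Ideal (𝓞 K), w.IsMaximal ∧ w.comap (algebraMap (𝓞 F) (𝓞 K)) = v.asIdeal ∧
    ∀ x : 𝓞 K, ∃ y ∈ w, (y : K) = σ x - (x : K) ^ q v

/-- `L` is the Artin L-function of `ρ`, where `S` is a finite set of primes that contains the ramified
ones: for `Re s > 1` it is the Euler product `∏_v B_v(q_v^{-s})⁻¹` with
`B_v(z) = det(1 - z ρ(Frob_v))` for `v ∉ S` and polynomials `B_v` without zeros in the open unit disc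
for `v ∈ S` (such as the characteristic polynomials of Frobenius on the inertia invariants), and it is
meromorphic for `Re s > 0`. -/
structure IsArtinL (S : Finset (HeightOneSpectrum (𝓞 F))) {n : ℕ}
    (ρ : Representation ℂ (K ≃ₐ[F] K) (Fin n → ℂ)) (L : ℂ → ℂ) : Prop where
  euler : ∃ B : HeightOneSpectrum (𝓞 F) → ℂ[X],
    (∀ v ∉ S, ∀ σ : K ≃ₐ[F] K, IsFrobenius v σ → ∀ z : ℂ,
      (B v).eval z = LinearMap.det (1 - z • ρ σ)) ∧
    (∀ v ∈ S, ∀ z : ℂ, ‖z‖ < 1 → (B v).eval z ≠ 0) ∧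
    ∀ s : ℂ, 1 < s.re → L s = ∏' v, ((B v).eval ((q v : ℂ) ^ (-s)))⁻¹
  mero : ∀ s : ℂ, 0 < s.re → MeromorphicAt L s

/-- The kernel `k(u) = Im (cos(c μ u) / Γ(1 + μ u))`, `μ = 1 + i τ`. -/
noncomputable def kernel (c τ u : ℝ) : ℝ :=
  (Complex.cos (c * ((1 + τ * I) * u)) * (Complex.Gamma (1 + (1 + τ * I) * u))⁻¹).im

/-- The term of the prime power `v ^ j`, `j = x.2 + 1`, `v = x.1`: it is
`(q_v^{-js} - q_v^{-j(s + δ)}) / j * k(j log q_v / log X)` if `v ∉ S` and `φ_v ^ j` is conjugate to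
`σ`, and `0` otherwise. -/
noncomputable def term (S : Finset (HeightOneSpectrum (𝓞 F)))
    (φ : HeightOneSpectrum (𝓞 F) → K ≃ₐ[F] K) (c τ : ℝ) (s : ℂ) (δ : ℝ) (σ : K ≃ₐ[F] K) (X : ℝ)
    (x : HeightOneSpectrum (𝓞 F) × ℕ) : ℂ :=
  if x.1 ∉ S ∧ IsConj (φ x.1 ^ (x.2 + 1)) σ then
    (1 / ((q x.1 : ℂ) ^ s) ^ (x.2 + 1) - 1 / ((q x.1 : ℂ) ^ (s + δ)) ^ (x.2 + 1)) / (x.2 + 1) *
      kernel c τ ((x.2 + 1) * Real.log (q x.1) / Real.log X)
  else 0

/-- The sum over the prime powers with Frobenius element in the class of `σ`, divided by the density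
of the class. -/
noncomputable def statistic (S : Finset (HeightOneSpectrum (𝓞 F)))
    (φ : HeightOneSpectrum (𝓞 F) → K ≃ₐ[F] K) (c τ : ℝ) (s : ℂ) (δ : ℝ) (σ : K ≃ₐ[F] K) (X : ℝ) :
    ℂ :=
  (Nat.card (K ≃ₐ[F] K) : ℂ) / Nat.card {t : K ≃ₐ[F] K // IsConj σ t} * ∑' x, term S φ c τ s δ σ X x

/-- The weight of the point `z` in the sector `|Im z| ≤ τ Re z`: `1` inside the sector, `1/2` on its
sides, the angle of the sector divided by `2π` at the apex `0`, and `0` outside. -/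
noncomputable def weight (τ : ℝ) (z : ℂ) : ℝ :=
  if z = 0 then Real.arctan τ / Real.pi else
    if |z.im| < τ * z.re then 1 else if |z.im| = τ * z.re then 1 / 2 else 0

/-- The number of zeros minus the number of poles of `L`, with multiplicities and weights, in the
sector with apex `s` but outside the sector with apex `s + δ`. -/
noncomputable def excess (τ δ : ℝ) (s : ℂ) (L : ℂ → ℂ) : ℝ :=
  ∑ᶠ z : ℂ, (weight τ (z - s) - weight τ (z - s - δ)) * ((meromorphicOrderAt L z).untop₀ : ℝ)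

/-- `D` is a positive definite function on the finite group `G`. -/
def IsPositiveDefinite {G : Type} [Group G] (D : G → ℂ) : Prop :=
  ∀ f : G → ℂ, 0 ≤ ∑ᶠ x : G, ∑ᶠ y : G, conj (f x) * f y * D (x⁻¹ * y)

/-- the Hermitian form of a real combination of characters is real -/
theorem hf_conj {G : Type} [Group G] [Fintype G] {D : G → ℂ} (hD : ∀ x, conj (D x) = D x⁻¹)
    (f : G → ℂ) : conj (Pool.Agent.Q286.TR.hf D f) = Pool.Agent.Q286.TR.hf D f := by
  unfold Pool.Agent.Q286.TR.hf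
  simp only [map_sum]
  rw [Finset.sum_comm]
  refine Finset.sum_congr rfl fun a _ => Finset.sum_congr rfl fun b _ => ?_
  rw [map_mul, map_mul, Complex.conj_conj, hD]
  have : (b⁻¹ * a)⁻¹ = a⁻¹ * b := by group
  rw [this]
  ring

theorem posdef_eq {G : Type} [Group G] [Fintype G] {D : G → ℂ} (hD : ∀ x, conj (D x) = D x⁻¹) :
    IsPositiveDefinite D ↔ ∀ f : G → ℂ, 0 ≤ (Pool.Agent.Q286.TR.hf D f).re := by
  unfold IsPositiveDefinite
  refine forall_congr' fun f => ?_
  have h1 : ∑ᶠ x : G, ∑ᶠ y : G, conj (f x) * f y * D (x⁻¹ * y) = Pool.Agent.Q286.TR.hf D f := by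
    unfold Pool.Agent.Q286.TR.hf
    rw [finsum_eq_sum_of_fintype]
    exact Finset.sum_congr rfl fun x _ => finsum_eq_sum_of_fintype _
  rw [h1, Complex.le_def]
  constructor
  · intro h
    exact h.1
  · intro h
    refine ⟨h, ?_⟩
    rw [Complex.zero_im]
    exact (Complex.conj_eq_iff_im.1 (hf_conj hD f)).symm

theorem posdef_iff {G : Type} [Group G] [Finite G] {κ : Type} [Fintype κ] {n : κ → ℕ}
    {r : ∀ k, Representation ℂ G (Fin (n k) → ℂ)} (h : Pool.Agent.Q286.RL.Fam r) (x : κ → ℝ) :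
    IsPositiveDefinite (fun σ => ((Real.pi : ℝ) : ℂ) * ∑ k, (x k : ℂ) * (r k).character σ⁻¹) ↔
      ∀ k, 0 ≤ x k := by
  have := Fintype.ofFinite G
  have hpi := Real.pi_pos
  have h1 := Pool.Agent.Q286.TR.pd_iff h fun k => Real.pi * x k
  have h2 : (fun σ : G => ((Real.pi : ℝ) : ℂ) * ∑ k, (x k : ℂ) * (r k).character σ⁻¹) =
      fun σ => ∑ k, ((Real.pi * x k : ℝ) : ℂ) * (r k).character σ⁻¹ := by
    funext σ
    rw [Finset.mul_sum]
    refine Finset.sum_congr rfl fun k _ => ?_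
    push_cast
    ring
  have h3 : (∀ k, 0 ≤ Real.pi * x k) ↔ ∀ k, 0 ≤ x k :=
    forall_congr' fun k => mul_nonneg_iff_of_pos_left hpi
  rw [h2, ← h3, ← h1]
  refine posdef_eq fun y => ?_
  rw [map_sum]
  refine Finset.sum_congr rfl fun k _ => ?_
  rw [map_mul, Complex.conj_ofReal, ← Pool.Agent.W353.L1.char_inv]

/-- **Artin's holomorphy conjecture as positive definiteness of Frobenius statistics.**

Let `K/F` be a finite Galois extension of number fields with group `Γ`, let `S` be a finite set of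
primes of `F`, `ρ_k` a complete system of irreducible complex representations of `Γ`, `n_k` the degree
of `ρ_k` (`∑ n_k² = #Γ`), `χ_k` its character and `L_k` its Artin L-function.  Choose for each prime `v`
of `F` a Frobenius element `φ_v`, and let `c > π/2`.

1. The order of `L_k` at every point of the half-plane `Re z > 0` is finite.
2. For every apex `s` with `Re s > 0`, `δ > 0` and `τ > 0` the sums converge absolutely for all large `X`,
and for every `σ` in `Γ` the statistic of the class of `σ` is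
`π ∑_k N_k χ_k(σ⁻¹) + O(1 / log X)`, where `N_k` is the number of zeros minus the number of poles of
`L_k` in the sector with apex `s` and slopes `± τ` but outside the one with apex `s + δ`.
3. All `L_k` are holomorphic at all points `z ≠ 1` with `Re z > 0` if and only if for all rational
`x > 0`, `y`, `δ > 0`, `τ > 0` such that `1` has the same weight in the sectors with apex `s = x + i y` and
`s + δ`, the limit of the statistics for `X → ∞` is a positive definite function of `σ`. -/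
theorem result (F : Type) [Field F] [NumberField F] (K : Type) [Field K] [NumberField K]
    [Algebra F K] [IsGalois F K] (S : Finset (HeightOneSpectrum (𝓞 F)))
    (κ : Type) [Fintype κ] (n : κ → ℕ) (ρ : ∀ k, Representation ℂ (K ≃ₐ[F] K) (Fin (n k) → ℂ))
    (hirr : ∀ k, (ρ k).IsIrreducible) (hne : ∀ k l, k ≠ l → IsEmpty ((ρ k).Equiv (ρ l)))
    (hsum : ∑ k, n k ^ 2 = Nat.card (K ≃ₐ[F] K))
    (L : κ → ℂ → ℂ) (hL : ∀ k, IsArtinL S (ρ k) (L k))
    (φ : HeightOneSpectrum (𝓞 F) → K ≃ₐ[F] K) (hφ : ∀ v, IsFrobenius v (φ v))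
    (c : ℝ) (hc : Real.pi / 2 < c) :
    (∀ k, ∀ z : ℂ, 0 < z.re → meromorphicOrderAt (L k) z ≠ ⊤) ∧
    (∀ (s : ℂ) (δ τ : ℝ), 0 < s.re → 0 < δ → 0 < τ → ∃ C X₀ : ℝ, ∀ X ≥ X₀, ∀ σ : K ≃ₐ[F] K,
      Summable (term S φ c τ s δ σ X) ∧
      ‖statistic S φ c τ s δ σ X -
        Real.pi * ∑ k, (excess τ δ s (L k) : ℂ) * (ρ k).character σ⁻¹‖ ≤ C / Real.log X) ∧
    ((∀ k, ∀ z : ℂ, 0 < z.re → z ≠ 1 → 0 ≤ meromorphicOrderAt (L k) z) ↔
      ∀ x y δ τ : ℚ, 0 < x → 0 < δ → 0 < τ →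
        weight τ (1 - ⟨x, y⟩ - (δ : ℝ)) = weight τ (1 - ⟨x, y⟩) →
        ∃ D : (K ≃ₐ[F] K) → ℂ,
          (∀ σ, Tendsto (fun X : ℝ => statistic S φ c τ ⟨x, y⟩ δ σ X) atTop (𝓝 (D σ))) ∧
          IsPositiveDefinite D) := by
  have hfam : Pool.Agent.Q286.RL.Fam ρ := ⟨hirr, hne, hsum⟩
  choose B hB1 hB2 hB3 using fun k => (hL k).euler
  have hB : ∀ k, ∀ v ∉ S, ∀ z : ℂ, (B k v).eval z = LinearMap.det (1 - z • ρ k (φ v)) :=
    fun k v hv z => hB1 k v hv (φ v) (hφ v) z
  have hmer : ∀ k, ∀ z : ℂ, 0 < z.re → MeromorphicAt (L k) z := fun k => (hL k).mero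
  have htop : ∀ k, ∀ z : ℂ, 0 < z.re → meromorphicOrderAt (L k) z ≠ ⊤ := fun k z hz =>
    Pool.Agent.Q286.TR.art_top hfam S φ hB hB2 hmer hB3 k hz
  have hright : ∀ k, ∀ z : ℂ, 1 < z.re → meromorphicOrderAt (L k) z = 0 := fun k z hz =>
    Pool.Agent.Q286.TR.art_right hfam S φ hB hB2 hmer hB3 k hz
  have hexc : ∀ k (s : ℂ) (δ τ : ℝ), 0 < s.re → 0 < δ → 0 < τ → excess τ δ s (L k) =
      Pool.Agent.Q286.TR.bal τ (L k) s - Pool.Agent.Q286.TR.bal τ (L k) (s + δ) :=
    fun k s δ τ hs hδ hτ =>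
      (Pool.Agent.Q286.TR.bal_sub (hmer k) (htop k) (hright k) hτ hδ hs).symm
  have hlaw : ∀ (s : ℂ) (δ τ : ℝ), 0 < s.re → 0 < δ → 0 < τ → ∃ C X₀ : ℝ, ∀ X ≥ X₀,
      ∀ σ : K ≃ₐ[F] K, Summable (term S φ c τ s δ σ X) ∧
      ‖statistic S φ c τ s δ σ X -
        Real.pi * ∑ k, (excess τ δ s (L k) : ℂ) * (ρ k).character σ⁻¹‖ ≤ C / Real.log X := by
    intro s δ τ hs hδ hτ
    have hs' : 0 < (s + δ).re := by
      simp only [Complex.add_re, Complex.ofReal_re]
      linarith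
    obtain ⟨C₁, T₁, hC₁, hT₁, h₁⟩ :=
      Pool.Agent.Q286.TR.art_law hfam S φ hB hB2 hmer hB3 hs hτ hc
    obtain ⟨C₂, T₂, hC₂, hT₂, h₂⟩ :=
      Pool.Agent.Q286.TR.art_law hfam S φ hB hB2 hmer hB3 hs' hτ hc
    refine ⟨Nat.card (K ≃ₐ[F] K) * (C₁ + C₂), Real.exp (max T₁ T₂), fun X hX σ => ?_⟩
    have h0 : 0 < X := lt_of_lt_of_le (Real.exp_pos _) hX
    have hT : max T₁ T₂ ≤ Real.log X := (Real.le_log_iff_exp_le h0).2 hX
    have hT0 : 0 < Real.log X := by linarith [le_max_left T₁ T₂]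
    obtain ⟨a1, a2⟩ := h₁ _ ((le_max_left _ _).trans hT) σ
    obtain ⟨b1, b2⟩ := h₂ _ ((le_max_right _ _).trans hT) σ
    have hterm : term S φ c τ s δ σ X = fun x =>
        Pool.Agent.Q286.TR.at1 S φ s σ x * (Pool.Agent.Q286.TR.kt c τ
          (Pool.Agent.W189.LC.fr (fun p => (W540.BE.nm F p : ℝ)) x / Real.log X) : ℂ) -
        Pool.Agent.Q286.TR.at1 S φ (s + δ) σ x * (Pool.Agent.Q286.TR.kt c τ
          (Pool.Agent.W189.LC.fr (fun p => (W540.BE.nm F p : ℝ)) x / Real.log X) : ℂ) := by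
      funext x
      have hk : Pool.Agent.Q286.TR.kt c τ
          (Pool.Agent.W189.LC.fr (fun p => (W540.BE.nm F p : ℝ)) x / Real.log X) =
          kernel c τ ((x.2 + 1) * Real.log (q x.1) / Real.log X) := rfl
      have hq : ((W540.BE.nm F x.1 : ℕ) : ℂ) = (q x.1 : ℂ) := rfl
      rw [hk]
      unfold term Pool.Agent.Q286.TR.at1
      by_cases hx : x.1 ∉ S ∧ IsConj (φ x.1 ^ (x.2 + 1)) σ
      · rw [if_pos hx, if_pos hx, if_pos hx, hq]
        have h6 : (((x.2 + 1 : ℕ) : ℂ)) ≠ 0 := by exact_mod_cast Nat.succ_ne_zero x.2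
        push_cast at h6 ⊢
        field_simp
      · rw [if_neg hx, if_neg hx, if_neg hx]
        simp
    have hS := a1.sub b1
    rw [← hterm] at hS
    refine ⟨hS.summable, ?_⟩
    have hd : (0 : ℝ) < Nat.card {t : K ≃ₐ[F] K // IsConj σ t} := by
      have : 0 < Nat.card {t : K ≃ₐ[F] K // IsConj σ t} :=
        Nat.card_pos_iff.2 ⟨⟨⟨σ, IsConj.refl σ⟩⟩, inferInstance⟩
      exact_mod_cast this
    have hd1 : (1 : ℝ) ≤ Nat.card {t : K ≃ₐ[F] K // IsConj σ t} := by
      have : 0 < Nat.card {t : K ≃ₐ[F] K // IsConj σ t} :=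
        Nat.card_pos_iff.2 ⟨⟨⟨σ, IsConj.refl σ⟩⟩, inferInstance⟩
      exact_mod_cast this
    have hG : (0 : ℝ) < Nat.card (K ≃ₐ[F] K) := by exact_mod_cast Nat.card_pos
    have hdc : (Nat.card {t : K ≃ₐ[F] K // IsConj σ t} : ℂ) ≠ 0 := by exact_mod_cast hd.ne'
    have hGc : (Nat.card (K ≃ₐ[F] K) : ℂ) ≠ 0 := by exact_mod_cast hG.ne'
    have e0 : (Nat.card (K ≃ₐ[F] K) : ℂ) / Nat.card {t : K ≃ₐ[F] K // IsConj σ t} *
        ((Pool.Agent.Q286.RL.cden σ : ℝ) : ℂ) = 1 := by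
      unfold Pool.Agent.Q286.RL.cden
      push_cast
      field_simp
    unfold statistic
    rw [hS.tsum_eq]
    simp only [fun k => hexc k s δ τ hs hδ hτ]
    set M₁ := Pool.Agent.Q286.TR.tmn (Pool.Agent.W189.LC.fr fun p => (W540.BE.nm F p : ℝ))
      (Pool.Agent.Q286.TR.at1 S φ s σ) c τ (Real.log X) with hM₁
    set M₂ := Pool.Agent.Q286.TR.tmn (Pool.Agent.W189.LC.fr fun p => (W540.BE.nm F p : ℝ))
      (Pool.Agent.Q286.TR.at1 S φ (s + δ) σ) c τ (Real.log X) with hM₂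
    set d := (Nat.card (K ≃ₐ[F] K) : ℂ) / Nat.card {t : K ≃ₐ[F] K // IsConj σ t} with hdd
    have e1 : d * (M₁ - M₂) - Real.pi * ∑ k, (((Pool.Agent.Q286.TR.bal τ (L k) s -
        Pool.Agent.Q286.TR.bal τ (L k) (s + δ) : ℝ)) : ℂ) * (ρ k).character σ⁻¹ =
        d * ((M₁ - Real.pi * ((Pool.Agent.Q286.RL.cden σ : ℝ) : ℂ) *
          (∑ k, (ρ k).character σ⁻¹ * (Pool.Agent.Q286.TR.bal τ (L k) s : ℂ))) -
        (M₂ - Real.pi * ((Pool.Agent.Q286.RL.cden σ : ℝ) : ℂ) *
          (∑ k, (ρ k).character σ⁻¹ * (Pool.Agent.Q286.TR.bal τ (L k) (s + δ) : ℂ)))) := by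
      have e2 : ∑ k, (((Pool.Agent.Q286.TR.bal τ (L k) s -
          Pool.Agent.Q286.TR.bal τ (L k) (s + δ) : ℝ)) : ℂ) * (ρ k).character σ⁻¹ =
          (∑ k, (ρ k).character σ⁻¹ * (Pool.Agent.Q286.TR.bal τ (L k) s : ℂ)) -
          (∑ k, (ρ k).character σ⁻¹ * (Pool.Agent.Q286.TR.bal τ (L k) (s + δ) : ℂ)) := by
        rw [← Finset.sum_sub_distrib]
        refine Finset.sum_congr rfl fun k _ => ?_
        push_cast
        ring
      rw [e2]
      linear_combination (-(Real.pi : ℂ) *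
        ((∑ k, (ρ k).character σ⁻¹ * (Pool.Agent.Q286.TR.bal τ (L k) (s + δ) : ℂ)) -
        (∑ k, (ρ k).character σ⁻¹ * (Pool.Agent.Q286.TR.bal τ (L k) s : ℂ)))) * e0
    rw [e1, norm_mul]
    have hdn : ‖d‖ ≤ Nat.card (K ≃ₐ[F] K) := by
      rw [hdd, norm_div, Complex.norm_natCast, Complex.norm_natCast]
      exact div_le_self hG.le hd1
    have e3 := (norm_sub_le _ _).trans (add_le_add a2 b2)
    calc _ ≤ (Nat.card (K ≃ₐ[F] K) : ℝ) * (C₁ / Real.log X + C₂ / Real.log X) :=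
          mul_le_mul hdn e3 (norm_nonneg _) hG.le
      _ = _ := by ring
  have hlim : ∀ (s : ℂ) (δ τ : ℝ), 0 < s.re → 0 < δ → 0 < τ → ∀ σ : K ≃ₐ[F] K,
      Tendsto (fun X : ℝ => statistic S φ c τ s δ σ X) atTop
        (𝓝 (((Real.pi : ℝ) : ℂ) * ∑ k, (excess τ δ s (L k) : ℂ) * (ρ k).character σ⁻¹)) := by
    intro s δ τ hs hδ hτ σ
    obtain ⟨C, X₀, h⟩ := hlaw s δ τ hs hδ hτ
    rw [tendsto_iff_norm_sub_tendsto_zero]
    have h1 : Tendsto (fun X : ℝ => C / Real.log X) atTop (𝓝 0) :=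
      tendsto_const_nhds.div_atTop Real.tendsto_log_atTop
    refine squeeze_zero' (Eventually.of_forall fun X => norm_nonneg _) ?_ h1
    filter_upwards [eventually_ge_atTop X₀] with X hX
    exact (h X hX σ).2
  refine ⟨htop, hlaw, ?_⟩
  have hholo := fun k => Pool.Agent.Q286.TR.holo_iff (hmer k) (htop k) (hright k)
  constructor
  · intro h x y δ τ hx hδ hτ hw
    have hδ' : (0 : ℝ) < δ := by exact_mod_cast hδ
    have hτ' : (0 : ℝ) < τ := by exact_mod_cast hτ
    have hx' : (0 : ℝ) < x := by exact_mod_cast hx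
    refine ⟨_, hlim ⟨x, y⟩ δ τ hx' hδ' hτ', (posdef_iff hfam _).2 fun k => ?_⟩
    rw [hexc k ⟨x, y⟩ δ τ hx' hδ' hτ']
    exact (hholo k).1 (h k) x y δ τ hx hδ hτ hw
  · intro h k
    refine (hholo k).2 fun x y δ τ hx hδ hτ hw => ?_
    have hδ' : (0 : ℝ) < δ := by exact_mod_cast hδ
    have hτ' : (0 : ℝ) < τ := by exact_mod_cast hτ
    have hx' : (0 : ℝ) < x := by exact_mod_cast hx
    obtain ⟨D, hD1, hD2⟩ := h x y δ τ hx hδ hτ hw
    have hD : D = fun σ => ((Real.pi : ℝ) : ℂ) *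
        ∑ k, (excess τ δ ⟨x, y⟩ (L k) : ℂ) * (ρ k).character σ⁻¹ := by
      funext σ
      exact tendsto_nhds_unique (hD1 σ) (hlim ⟨x, y⟩ δ τ hx' hδ' hτ' σ)
    rw [hD] at hD2
    have h1 := (posdef_iff hfam _).1 hD2 k
    rwa [hexc k ⟨x, y⟩ δ τ hx' hδ' hτ'] at h1

end Pool.Agent.Results.MP_d2121a_nt.PositiveFrobeniusStatistics
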