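import Mathlib
import Pool.Agent.W446.AS.FArt
import Pool.Agent.Q7.DB.RealArt
import Pool.Agent.Q7.DB.RealNum

/-!
# Artin's holomorphy conjecture at real points for solvable groups

`Pool.Agent.H541R3.ART.Irr G` is the set of irreducible complex characters of the finite group `G`.
`Pool.Agent.H541R3.ART.ArtinData G s₀` is a family of functions with the formal properties of the
Artin L-functions of a Galois extension `E/K` with group `G` near a point `s₀ ≠ 1`, see
`Pool.Agent.H541R3.ART.Irr`. In particular `Lin ⊥ 1` stands for the Dedekind zeta function of `E`.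
`Pool.Agent.Q7.DB.Reflects A` is the property `L(s, χ̄) = conj L(conj s, χ)` of Artin L-functions.
`Pool.Agent.W446.AS.TwoDim A` are the Artin L-functions of the two-dimensional irreducible
characters of subgroups, holomorphic for solvable `G` by the theorem of Langlands and Tunnell.
`Pool.Agent.W446.AS.Frame X F D` : the centre `Z` of `X` is cyclic and contains all abelian normal
subgroups of `X`, and `F` is a normal subgroup of `X` containing `Z` such that `F / Z` is abelian of
order `D ^ 2`, `D > 1`, and the centraliser of `F` in `X` is `Z`.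
-/

set_option autoImplicit false

namespace Pool.Agent.Results.MP_d2121a_nt.RealPoints

open Pool.Agent.H541R3.ART Pool.Agent.W446.AS Pool.Agent.Q7.DB ComplexConjugate

/-- Let `G` be solvable, the Galois group of `E/K`, let `s₀` be real and `r` the order of `ζ_E` at
`s₀`.
(1) If some `L χ` has a pole at `s₀`, then some section `X` of `G` has a frame `F` of a degree
`D ≠ 2` such that `4 D ≤ r`, or `2 D ≤ r` and `X / F` is cyclic, or the centre of `X` has order
two and `2 D ≤ r`, or the centre of `X` has order two and `D ≤ r` and `X / F` is cyclic.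
(2) No `L χ` has a pole at `s₀` if `r ≤ 3`, or `r ≤ 5` and `160 ∤ |G|`, or `r ≤ 7` and
`160, 108 ∤ |G|`.
(3) Without the theorem of Langlands and Tunnell: no `L χ` has a pole at `s₀` if `|G|` is odd,
all its prime divisors are at least `P ≥ 3` and `r ≤ 4 P - 3`; or if `|G|` is odd, not divisible by
`375` and `1215` and `r ≤ 21`; or if `|G|` is prime to six and `r ≤ 25`. -/
theorem result (G : Type) [Group G] [Finite G] [Group.IsSolvable G] (s₀ : ℂ) (hs : conj s₀ = s₀)
    (A : ArtinData G s₀) (hA : Reflects A) (r : ℕ)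
    (hr : meromorphicOrderAt (A.Lin ⊥ 1) s₀ = (r : WithTop ℤ)) :
    (Nonempty (TwoDim A) →
      ((∃ χ ∈ Irr G, meromorphicOrderAt (A.L χ) s₀ < 0) →
        ∃ (H : Subgroup G) (X : Type) (_ : Group X) (f : H →* X) (F : Subgroup X) (D : ℕ),
          Function.Surjective f ∧ Frame X F D ∧ D ≠ 2 ∧
          ((4 * D ≤ r ∨ (2 * D ≤ r ∧ ∃ g, F ⊔ Subgroup.zpowers g = ⊤)) ∨
            (Nat.card (Subgroup.center X) = 2 ∧
              (2 * D ≤ r ∨ (D ≤ r ∧ ∃ g, F ⊔ Subgroup.zpowers g = ⊤)))))
      ∧ (r ≤ 7 → (4 ≤ r → ¬ 160 ∣ Nat.card G) → (6 ≤ r → ¬ 108 ∣ Nat.card G) →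
        ∀ χ ∈ Irr G, 0 ≤ meromorphicOrderAt (A.L χ) s₀)) ∧
    (Odd (Nat.card G) →
      (∀ P : ℕ, 3 ≤ P → r ≤ 4 * P - 3 → (∀ q, q.Prime → q ∣ Nat.card G → P ≤ q) →
        ∀ χ ∈ Irr G, 0 ≤ meromorphicOrderAt (A.L χ) s₀)
      ∧ (r ≤ 21 → ¬ 375 ∣ Nat.card G → ¬ 1215 ∣ Nat.card G →
        ∀ χ ∈ Irr G, 0 ≤ meromorphicOrderAt (A.L χ) s₀)
      ∧ (r ≤ 25 → ¬ 3 ∣ Nat.card G →
        ∀ χ ∈ Irr G, 0 ≤ meromorphicOrderAt (A.L χ) s₀)) := by
  refine ⟨fun hB => ⟨?_, ?_⟩, fun hodd => ⟨?_, ?_, ?_⟩⟩
  · rintro ⟨χ, hχ, hneg⟩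
    by_contra hcon
    have hfree : RFree True r G := by
      rintro H X _ f hf ⟨F, D, hF, hlt, hobs⟩
      exact hcon ⟨H, X, _, f, F, D, hf, hF, hlt trivial, hobs⟩
    exact absurd (real_solvable True hs A hA (fun _ => hB) hr hfree χ hχ) (not_le.mpr hneg)
  · intro hr7 h160 h108
    exact real_solvable True hs A hA (fun _ => hB) hr (rfree_seven hr7 h160 h108)
  · intro P hP hrP hq
    exact real_solvable False hs A hA (fun h => h.elim) hr
      (rfree_of_odd hodd (free_least False hP (by omega) hq))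
  · intro hr21 h375 h1215
    exact real_solvable False hs A hA (fun h => h.elim) hr
      (rfree_of_odd hodd (free_ten False (by omega) hodd h375 h1215))
  · intro hr25 h3
    refine real_solvable False hs A hA (fun h => h.elim) hr
      (rfree_of_odd hodd (free_twelve False (by omega) ?_))
    have h1 : (Nat.card G).Coprime (2 * 3) :=
      Nat.Coprime.mul_right ((Nat.coprime_two_right).mpr hodd)
        ((Nat.Prime.coprime_iff_not_dvd Nat.prime_three).mpr h3).symm
    exact h1

end Pool.Agent.Results.MP_d2121a_nt.RealPoints
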