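import Mathlib
import Pool.Agent.Q161.StD
import Pool.Agent.Results.MP_308fa9_nt.CoversOfTwists

/-!
# 2-descent on the twists of coverings of the line

Let `C d : d y² = ∏ k, F k (x, w)`, `F k` irreducible binary forms (at least four of them of odd
degree, general in the sense of `TwoDescentMixedFactors`).  Let `Z : H(x, w, z) = 0` be any finite
covering of the line, `H` monic in `z` and homogeneous (`z` of degree `e`), and let `Z d` be the
fibre product of `Z` and `C d`, the quadratic twist by `d` of the double covering of `Z` given by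
the square root of `∏ k, F k`; its gonality is arbitrary.  The coverings `D δ × Z` of `Z d`,
`D δ : F k (x, w) = δ k * y k ^ 2`, are quotients of the 2-coverings of `Z d`.

1. There is one set of squarefree `d`, with at most `C X (log X)^(-ε)` elements of absolute value at
most `X`, such that for all other squarefree `d` and ALL coverings `Z` every covering `D δ × Z` of
`Z d` with points everywhere locally is of the type of a rational branch point `P i`, and the fibre
of `Z` over `P i` has a root modulo all primes `p > z` dividing `d`.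
2. For every `Z`, and all squarefree `d` outside a set of density zero, this fibre has no derangement
(so it has roots modulo almost all primes).
3. If the fibres over the rational branch points have an integer root or a derangement (for
example, if they are irreducible of degree at least two), then for all squarefree `d` outside a set
of density zero, all coverings `D δ × Z` of `Z d` with points everywhere locally have rational
points.  So for 100 percent of the `d` the curve `Z d` has rational points or the absence of rational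
points is explained by a finite descent.
4. The twists of the curve `y² = x (x² - w²) (x³ - 3 w³)`,
`z² = x⁴ + 105 x² w² - 102 x w³ + 13 w⁴`, of genus 7, have points everywhere locally for all `d`, and
100 percent of them have no 2-covering with points everywhere locally.
-/

set_option autoImplicit false

namespace Pool.Agent.Results.MP_d37f77_nt.DescentOnCoversOfTwists

open Polynomial Finset Pool.Agent.Q161.StA Pool.Agent.Q161.StB Pool.Agent.Q161.StD
open Pool.Agent.Q161.StC (DensityZero fibreAt)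
open Pool.Agent.Results.MP_d37f77_nt.TwoDescentMixedFactors
  (hom Od Ln Factors General)
open Pool.Agent.Results.MP_308fa9_nt.CoversOfTwists (ex exH)

section K

variable {K : Type} [Fintype K] [DecidableEq K]

/-- a rational number, up to squares -/
theorem sq_rep (a : ℚ) (ha : a ≠ 0) : ∃ (n : ℤ) (c : ℚ), n ≠ 0 ∧ c ≠ 0 ∧ a = n * c ^ 2 := by
  have h1 : (a.den : ℚ) ≠ 0 := by exact_mod_cast a.den_ne_zero
  refine ⟨a.num * a.den, 1 / a.den, ?_, by positivity, ?_⟩
  · exact mul_ne_zero (Rat.num_ne_zero.2 ha) (by exact_mod_cast a.den_ne_zero)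
  · have h2 : (a.num : ℚ) = a * a.den := (Rat.mul_den_eq_num a).symm
    push_cast
    rw [h2]
    field_simp

omit [DecidableEq K] in
/-- two different factors have no common zero -/
theorem no_common (f : K → ℤ[X]) (hF : Factors f) (k l : K) (hkl : k ≠ l) (x w : ℚ)
    (hne : x ≠ 0 ∨ w ≠ 0) (hk : hom (f k) x w = 0) : hom (f l) x w ≠ 0 := by
  intro hl
  by_cases hw : w = 0
  · subst hw
    have hx : x ≠ 0 := by
      rcases hne with h | h
      · exact h
      · exact absurd rfl h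
    have h1 : hom (f k) x 0 = ((f k).leadingCoeff : ℚ) * x ^ (f k).natDegree := by
      unfold hom
      rw [sum_range_succ, Nat.sub_self, pow_zero, mul_one, leadingCoeff, sum_eq_zero, zero_add]
      intro i hi
      rw [zero_pow (by have := mem_range.1 hi; omega), mul_zero]
    rw [h1] at hk
    rcases mul_eq_zero.1 hk with h2 | h2
    · have h3 : (f k).leadingCoeff = 0 := by exact_mod_cast h2
      rw [leadingCoeff_eq_zero] at h3
      apply (hF.1 k).ne_zero
      rw [h3, Polynomial.map_zero]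
    · exact pow_ne_zero _ hx h2
  · obtain ⟨R, A, B, hR, hAB⟩ := Pool.Agent.W975.TW.bez (f k) (f l) (hF.1 k) (hF.1 l)
        (hF.2.1 k l hkl)
    have key : ∀ g : ℤ[X], hom g x w = 0 → (g.map (Int.castRingHom ℚ)).eval (x / w) = 0 := by
      intro g hg
      have h1 : hom g x w = w ^ g.natDegree * (g.map (Int.castRingHom ℚ)).eval (x / w) := by
        rw [eval_map, eval₂_eq_sum_range, mul_sum]
        unfold hom
        refine sum_congr rfl fun i hi => ?_
        have h2 : i ≤ g.natDegree := Nat.lt_succ_iff.1 (mem_range.1 hi)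
        have h3 : w ^ g.natDegree = w ^ (g.natDegree - i) * w ^ i := by
          rw [← pow_add]
          congr 1
          omega
        rw [h3, div_pow]
        simp only [eq_intCast]
        field_simp
      rw [hg] at h1
      exact (mul_eq_zero.1 h1.symm).resolve_left (pow_ne_zero _ hw)
    have h1 := congrArg (fun g : ℤ[X] => (g.map (Int.castRingHom ℚ)).eval (x / w)) hAB
    simp only [Polynomial.map_add, Polynomial.map_mul, eval_add, eval_mul, key _ hk, key _ hl,
      mul_zero, add_zero, map_C, eval_C] at h1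
    apply hR
    have h2 : (R : ℚ) = 0 := h1.symm
    exact_mod_cast h2

/-- **A rational point of `Z d` lifts to a covering with points everywhere locally.** -/
theorem lift (f : K → ℤ[X]) (hF : Factors f) (d : ℤ) (hd : d ≠ 0) (e : ℕ) (H : ℤ[X][X])
    (h : TwistHasPoint f d e H ℚ) : ∃ δ : K → ℤ, SolublePullback f d δ e H := by
  obtain ⟨x, w, y, z, hne, hy, hcov⟩ := h
  -- it is enough to have a rational point of the covering
  have main : ∀ δ : K → ℤ, (∀ k, δ k ≠ 0) → IsSquare ((d : ℚ) * ∏ k, (δ k : ℚ)) →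
      (∀ k, ∃ c : ℚ, hom (f k) x w = δ k * c ^ 2) → ∃ δ : K → ℤ, SolublePullback f d δ e H := by
    intro δ h1 h2 h3
    have hloc : ∀ (L : Type) [Field L] [CharZero L], PullbackHasPoint f δ e H L := by
      intro L _ _
      have hh : ∀ g : ℤ[X], hom g ((x : ℚ) : L) ((w : ℚ) : L) = ((hom g x w : ℚ) : L) := by
        intro g
        unfold hom
        push_cast
        rfl
      refine ⟨(x : L), (w : L), (z : L), ?_, fun k => ?_, ?_⟩
      · rcases hne with h4 | h4
        · exact Or.inl (Rat.cast_ne_zero.2 h4)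
        · exact Or.inr (Rat.cast_ne_zero.2 h4)
      · obtain ⟨c, hc⟩ := h3 k
        refine ⟨(c : L), ?_⟩
        rw [hh, hc]
        push_cast
        rfl
      · have h4 := congrArg (Rat.castHom L) hcov
        rw [← fibre_eval, ← eval₂_at_apply, ← eval_map, fibre_map, fibre_eval, map_zero] at h4
        exact h4
    refine ⟨δ, h1, ?_, hloc ℝ, fun p _ => hloc ℚ_[p]⟩
    have h4 : IsSquare (((d * ∏ k, δ k : ℤ)) : ℚ) := by
      push_cast
      exact h2
    exact Rat.isSquare_intCast_iff.1 h4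
  by_cases hz : ∀ k, hom (f k) x w ≠ 0
  · choose n c hn hc hnc using fun k => sq_rep _ (hz k)
    refine main n hn ?_ fun k => ⟨c k, hnc k⟩
    have h1 : (d : ℚ) * y ^ 2 = (∏ k, (n k : ℚ)) * (∏ k, c k) ^ 2 := by
      rw [hy, ← prod_pow, ← prod_mul_distrib]
      exact prod_congr rfl fun k _ => hnc k
    have hc0 : ∏ k, c k ≠ 0 := prod_ne_zero_iff.2 fun k _ => hc k
    refine ⟨d * y / ∏ k, c k, ?_⟩
    field_simp
    linear_combination -h1
  · push Not at hz
    obtain ⟨i, hi⟩ := hz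
    have h0 : ∀ k, k ≠ i → hom (f k) x w ≠ 0 := fun k hk =>
      no_common f hF i k (Ne.symm hk) x w hne hi
    have hrep : ∀ k, ∃ (n : ℤ) (c : ℚ), n ≠ 0 ∧ (k ≠ i → hom (f k) x w = n * c ^ 2) := by
      intro k
      by_cases hk : k = i
      · exact ⟨1, 1, one_ne_zero, fun h => absurd hk h⟩
      · obtain ⟨n, c, hn, -, hnc⟩ := sq_rep _ (h0 k hk)
        exact ⟨n, c, hn, fun _ => hnc⟩
    choose n c hn hnc using hrep
    obtain ⟨m, hm⟩ : ∃ m : ℤ, m = d * ∏ k ∈ univ.erase i, n k := ⟨_, rfl⟩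
    have hm0 : m ≠ 0 := by
      rw [hm]
      exact mul_ne_zero hd (prod_ne_zero_iff.2 fun k _ => hn k)
    refine main (Function.update n i m) (fun k => ?_) ?_ fun k => ?_
    · by_cases hk : k = i
      · subst hk
        rw [Function.update_self]
        exact hm0
      · rw [Function.update_of_ne hk]
        exact hn k
    · refine ⟨m, ?_⟩
      have h1 : ∏ k, ((Function.update n i m k : ℤ) : ℚ) =
          (∏ k ∈ univ.erase i, (n k : ℚ)) * m := by
        rw [← prod_erase_mul _ _ (mem_univ i), Function.update_self]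
        congr 1
        refine prod_congr rfl fun k hk => ?_
        rw [Function.update_of_ne (ne_of_mem_erase hk)]
      have h2 : (m : ℚ) = d * ∏ k ∈ univ.erase i, (n k : ℚ) := by
        rw [hm]
        push_cast
        rfl
      rw [h1]
      linear_combination (-(m : ℚ)) * h2
    · by_cases hk : k = i
      · subst hk
        exact ⟨0, by rw [hi]; ring⟩
      · rw [Function.update_of_ne hk]
        exact ⟨c k, hnc k hk⟩

end K

theorem result :
    (∀ (K : Type) [Fintype K] [DecidableEq K] (f : K → ℤ[X]), Factors f → General f → ∃ z : ℕ,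
      (∃ ε : ℝ, 0 < ε ∧ ∃ C : ℝ, ∀ X : ℕ, 3 ≤ X →
        ({d : ℤ | d.natAbs ≤ X ∧ Squarefree d ∧ ¬ ∀ (e : ℕ) (H : ℤ[X][X]), H.Monic →
          ∀ δ : K → ℤ, SolublePullback f d δ e H → ∃ i, TypeAt f δ i ∧
            ∀ p : ℕ, p.Prime → z < p → (p : ℤ) ∣ d →
              ∃ r : ℤ, (p : ℤ) ∣ (fibreAt f e H i).eval r}.ncard : ℝ) ≤
          C * X * (Real.log X) ^ (-ε)) ∧
      ∀ (e : ℕ) (H : ℤ[X][X]), H.Monic →
        DensityZero {d : ℤ | Squarefree d ∧ ¬ ∀ δ : K → ℤ, SolublePullback f d δ e H →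
          ∃ i, TypeAt f δ i ∧ ¬ Derangement (fibreAt f e H i)} ∧
        ((∀ i, (f i).natDegree = 1 → (∃ r : ℤ, (fibreAt f e H i).eval r = 0) ∨
            Derangement (fibreAt f e H i)) →
          DensityZero {d : ℤ | Squarefree d ∧ ¬ ∀ δ : K → ℤ, SolublePullback f d δ e H →
            PullbackHasPoint f δ e H ℚ})) ∧
    (∀ (K : Type) [Fintype K] [DecidableEq K] (f : K → ℤ[X]), Factors f →
      ∀ (d : ℤ), d ≠ 0 → ∀ (e : ℕ) (H : ℤ[X][X]), TwistHasPoint f d e H ℚ →
        ∃ δ : K → ℤ, SolublePullback f d δ e H) ∧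
    (∀ h : ℤ[X], Irreducible (h.map (Int.castRingHom ℚ)) → 2 ≤ h.natDegree → Derangement h) ∧
    (Factors ex ∧ General ex ∧ exH.Monic ∧
      (∀ d : ℤ, TwistHasPoint ex d 2 exH ℝ ∧
        ∀ (p : ℕ) [Fact p.Prime], TwistHasPoint ex d 2 exH ℚ_[p]) ∧
      DensityZero {d : ℤ | Squarefree d ∧ ∃ δ, SolublePullback ex d δ 2 exH}) := by
  have hden : ∀ A B : Set ℤ, B ⊆ A → DensityZero A → DensityZero B := by
    intro A B hAB hA ε hε
    obtain ⟨X₀, h⟩ := hA ε hε
    refine ⟨X₀, fun X hX => le_trans ?_ (h X hX)⟩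
    refine Nat.cast_le.2 (Set.ncard_le_ncard (fun d hd => ⟨hAB hd.1, hd.2⟩) ?_)
    refine (Pool.Agent.TH213.SP.fin_le X (fun _ => True)).subset ?_
    rintro d ⟨-, h1⟩
    exact ⟨h1, trivial⟩
  have hmain : ∀ (K : Type) [Fintype K] [DecidableEq K] (f : K → ℤ[X]), Factors f → General f →
      ∃ z : ℕ,
      (∃ ε : ℝ, 0 < ε ∧ ∃ C : ℝ, ∀ X : ℕ, 3 ≤ X →
        ({d : ℤ | d.natAbs ≤ X ∧ Squarefree d ∧ ¬ ∀ (e : ℕ) (H : ℤ[X][X]), H.Monic →
          ∀ δ : K → ℤ, SolublePullback f d δ e H → ∃ i, TypeAt f δ i ∧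
            ∀ p : ℕ, p.Prime → z < p → (p : ℤ) ∣ d →
              ∃ r : ℤ, (p : ℤ) ∣ (fibreAt f e H i).eval r}.ncard : ℝ) ≤
          C * X * (Real.log X) ^ (-ε)) ∧
      ∀ (e : ℕ) (H : ℤ[X][X]), H.Monic →
        DensityZero {d : ℤ | Squarefree d ∧ ¬ ∀ δ : K → ℤ, SolublePullback f d δ e H →
          ∃ i, TypeAt f δ i ∧ ¬ Derangement (fibreAt f e H i)} := by
    intro K _ _ f hF hG
    have hH : Pool.Agent.Y488.TM.Hyp f := ⟨hF.1, hF.2.1, hF.2.2.1, hF.2.2.2, hG.1, hG.2⟩
    obtain ⟨z, hz⟩ := root f hH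
    obtain ⟨ε, hε, C, hC⟩ := Pool.Agent.Y488.TM.mainl f hH
    have hA : ∀ X : ℕ, 3 ≤ X →
        ({d : ℤ | d.natAbs ≤ X ∧ Squarefree d ∧ ¬ ∀ (e : ℕ) (H : ℤ[X][X]), H.Monic →
          ∀ δ : K → ℤ, SolublePullback f d δ e H → ∃ i, TypeAt f δ i ∧
            ∀ p : ℕ, p.Prime → z < p → (p : ℤ) ∣ d →
              ∃ r : ℤ, (p : ℤ) ∣ (fibreAt f e H i).eval r}.ncard : ℝ) ≤
          C * X * (Real.log X) ^ (-ε) := by
      intro X hX
      refine le_trans ?_ (hC X hX)
      refine Nat.cast_le.2 (Set.ncard_le_ncard ?_ (Pool.Agent.TH213.SP.fin_le X _))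
      rintro d ⟨h1, h2, h3⟩
      refine ⟨h1, h2, ?_⟩
      by_contra hno
      refine h3 fun e H hH δ hδ => ?_
      obtain ⟨h4, h5, -, h6⟩ := hδ
      have h7 : Pool.Agent.Y488.TM.ConstC f δ := by
        by_contra h8
        refine hno ⟨δ, h4, h5, fun p _ => ?_, h8⟩
        obtain ⟨x, w, -, a1, a2, -⟩ := h6 p
        exact ⟨x, w, a1, a2⟩
      obtain ⟨i, hi⟩ := h7
      refine ⟨i, hi, fun p hp hzp hpd => ?_⟩
      have : Fact p.Prime := ⟨hp⟩
      exact hz d h2 p hzp hpd e H hH δ h4 h5 i hi (h6 p)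
    refine ⟨z, ⟨ε, hε, C, hA⟩, fun e H hH => ?_⟩
    refine density_of (fun i => fibreAt f e H i) (fun i => (fibre_monic e H hH _ _).ne_zero) z _
      {d : ℤ | Squarefree d ∧ ¬ ∀ (e : ℕ) (H : ℤ[X][X]), H.Monic →
          ∀ δ : K → ℤ, SolublePullback f d δ e H → ∃ i, TypeAt f δ i ∧
            ∀ p : ℕ, p.Prime → z < p → (p : ℤ) ∣ d →
              ∃ r : ℤ, (p : ℤ) ∣ (fibreAt f e H i).eval r} ε C hε hA ?_
    rintro d ⟨h1, h2⟩
    refine ⟨h1.ne_zero, fun h3 => ?_⟩
    have h4 : ∀ (e : ℕ) (H : ℤ[X][X]), H.Monic →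
          ∀ δ : K → ℤ, SolublePullback f d δ e H → ∃ i, TypeAt f δ i ∧
            ∀ p : ℕ, p.Prime → z < p → (p : ℤ) ∣ d →
              ∃ r : ℤ, (p : ℤ) ∣ (fibreAt f e H i).eval r := by
      by_contra h5
      exact h3 ⟨h1, h5⟩
    push Not at h2
    obtain ⟨δ, hδ, hno⟩ := h2
    obtain ⟨i, hi, hroot⟩ := h4 e H hH δ hδ
    exact ⟨i, hno i hi, hroot⟩
  refine ⟨fun K _ _ f hF hG => ?_, fun K _ _ f hF d hd e H h => lift f hF d hd e H h, ?_, ?_⟩
  · obtain ⟨z, hz1, hz2⟩ := hmain K f hF hG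
    have hH : Pool.Agent.Y488.TM.Hyp f := ⟨hF.1, hF.2.1, hF.2.2.1, hF.2.2.2, hG.1, hG.2⟩
    refine ⟨z, hz1, fun e H hH' => ⟨hz2 e H hH', fun hroot => hden _ _ ?_ (hz2 e H hH')⟩⟩
    rintro d ⟨h1, h2⟩
    refine ⟨h1, fun h3 => h2 fun δ hδ => ?_⟩
    obtain ⟨i, hi, h4⟩ := h3 δ hδ
    obtain ⟨r, hr⟩ := (hroot i hi.1).resolve_right h4
    have h5 := (Pool.Agent.Y488.TM.linm K f hF.1 hF.2.1).1
    exact pt_of_type f (le_trans (by norm_num) hF.2.2.2) h5 hδ.1 hi e H r hr
  · intro h hirr hdeg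
    have h1 : (h.map (Int.castRingHom ℚ)).natDegree = h.natDegree :=
      natDegree_map_eq_of_injective (RingHom.injective_int (Int.castRingHom ℚ)) _
    obtain ⟨σ, hσ⟩ := Pool.Agent.W52.SecC.D3.partD3 ℚ (h.map (Int.castRingHom ℚ)) hirr
      (by rw [h1]; exact hdeg)
    refine ⟨σ, fun θ hθ => hσ θ ?_⟩
    have h2 := aeval_map_algebraMap (R := ℤ) ℚ θ h
    exact h2.trans hθ
  · have hF : Factors ex := Pool.Agent.Results.MP_308fa9_nt.CoversOfTwists.factors
    have hG : General ex := Pool.Agent.Results.MP_308fa9_nt.CoversOfTwists.general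
    have hm : exH.Monic := Pool.Agent.Results.MP_308fa9_nt.CoversOfTwists.exH_coeff.2.1
    refine ⟨hF, hG, hm, fun d => ?_, ?_⟩
    · obtain ⟨P⟩ := Pool.Agent.Results.MP_308fa9_nt.CoversOfTwists.ex_adelic d
      refine ⟨⟨P.re.x, P.re.w, P.re.y, P.re.z, P.re.ne, P.re.eq, P.re.cov⟩, fun p hp => ?_⟩
      obtain ⟨Q, -⟩ : ∃ Q : Pool.Agent.Q161.StC.CoverPoint ex d 2 exH ℚ_[p], True :=
        ⟨P.pa ⟨p, hp.out⟩, trivial⟩
      exact ⟨Q.x, Q.w, Q.y, Q.z, Q.ne, Q.eq, Q.cov⟩
    · obtain ⟨z, -, hz⟩ := hmain (Fin 4) ex hF hG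
      refine hden _ _ ?_ (hz 2 exH hm)
      rintro d ⟨h1, δ, hδ⟩
      refine ⟨h1, fun h4 => ?_⟩
      obtain ⟨i, hi, h5⟩ := h4 δ hδ
      exact h5 (Pool.Agent.Results.MP_308fa9_nt.CoversOfTwists.fibres_der i hi.1)

end Pool.Agent.Results.MP_d37f77_nt.DescentOnCoversOfTwists
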