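import Pool.Agent.Results.MP_d48457_nt.SquarePlusAlmostPrime
import Pool.Agent.Q253.Cov.APd
import Pool.Agent.Q253.Cov.Quad

/-!
# Narrow progressions of `m` for which `N - m ^ 2` is a prime, or of `m` for which it is a product of two primes

There is a set `E` with `O(X ^ (5/6 + ε))` elements up to `X` such that for all `N` outside `E`: every subset of positive relative
density of the set of the `m` for which `N - m ^ 2` is a prime or a product of two primes `≥ N ^ (1/3)` contains arithmetic progressions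
of any length with difference at most a power of `log N`; and for every colouring of the integers there are such progressions of one
colour such that all the `N - m ^ 2` are primes or all of them are products of two primes.

Libraries (starting files): `MP_d48457_nt.SquarePlusAlmostPrime` (number of these `m`), Szemerédi's theorem relative to sifted sets
`Y843.HS.fin`.
-/

set_option autoImplicit false

namespace Pool.Agent.Results.MP_d48457_nt.NarrowProgressions

open Finset Filter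
open Pool.Agent.Results.MP_d48457_nt.SquarePlusAlmostPrime (rho sqCount)
open Pool.Agent.Y843.HS (Pr VV Pr_prime)
open Pool.Agent.Q253.Thin (SysZ VZ_low)
open Pool.Agent.Q253.Cov (ap_dense)

open Classical in
/-- the integers `m ≥ 1` such that `N - m ^ 2 ≥ 2` has at most two prime factors (with multiplicity), all of them `≥ N ^ (1/3)` -/
noncomputable def Args (N : ℕ) : Finset ℕ :=
  (Icc 1 N).filter (fun m => m ^ 2 + 2 ≤ N ∧ (N - m ^ 2).primeFactorsList.length ≤ 2 ∧
    ∀ q : ℕ, q.Prime → q ∣ (N - m ^ 2) → (N : ℝ) ^ (1 / 3 : ℝ) ≤ q)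

/-- the roots -/
def Zn (N q : ℕ) : Finset ℕ := (range q).filter (fun a : ℕ => (q : ℤ) ∣ (N : ℤ) - (a : ℤ) ^ 2)

lemma Zn_le (N q : ℕ) (hq : q.Prime) : (Zn N q).card ≤ 2 := by
  have h := Pool.Agent.Results.MP_d48457_nt.SquarePlusAlmostPrime.ro_eq' N q
  unfold rho at h
  unfold Zn
  rw [← h]
  refine (Pool.Agent.Y882.PX.ro_le _ (by
    rw [Pool.Agent.Results.MP_d48457_nt.SquarePlusAlmostPrime.deg]
    norm_num) _ q hq).trans ?_
  rw [Pool.Agent.Results.MP_d48457_nt.SquarePlusAlmostPrime.kf]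

lemma Zn_sys (N : ℕ) : SysZ 2 (Zn N) where
  card := fun p hp => Zn_le N p hp
  loc := fun p hp => by
    rcases hp.two_le.eq_or_lt with h | h
    · subst h
      have h1 : (Zn N 2) ⊂ range 2 := by
        unfold Zn
        refine ⟨filter_subset _ _, ?_⟩
        intro h2
        have h3 := (mem_filter.1 (h2 (mem_range.2 (by norm_num : 0 < 2)))).2
        have h4 := (mem_filter.1 (h2 (mem_range.2 (by norm_num : 1 < 2)))).2
        push_cast at h3 h4
        omega
      have := card_lt_card h1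
      rwa [card_range] at this
    · exact lt_of_le_of_lt (Zn_le N p hp) h
  lt := fun _ _ _ hc => mem_range.1 (mem_filter.1 hc).1

lemma dens_eq (N : ℕ) : SquarePlusAlmostPrime.dens N = VV (Zn N) 0 (Nat.sqrt N) := by
  unfold SquarePlusAlmostPrime.dens VV Pr
  have h : (Icc 1 (Nat.sqrt N)).filter Nat.Prime = (Ioc 0 (Nat.sqrt N)).filter Nat.Prime := by
    ext p
    simp only [mem_filter, mem_Icc, mem_Ioc]
    constructor
    · rintro ⟨⟨h1, h2⟩, h3⟩
      exact ⟨⟨by omega, h2⟩, h3⟩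
    · rintro ⟨⟨h1, h2⟩, h3⟩
      exact ⟨⟨by omega, h2⟩, h3⟩
  rw [h]
  rfl

lemma mem_Zn {N q m : ℕ} (hm : m ^ 2 ≤ N) (h : m % q ∈ Zn N q) : q ∣ N - m ^ 2 := by
  unfold Zn at h
  rw [mem_filter] at h
  have h1 : ((m % q : ℕ) : ℤ) ≡ m [ZMOD q] := by
    rw [Int.natCast_mod]
    exact Int.mod_modEq _ _
  have h2 : (N : ℤ) - ((m % q : ℕ) : ℤ) ^ 2 ≡ (N : ℤ) - (m : ℤ) ^ 2 [ZMOD q] := (Int.ModEq.refl _).sub (h1.pow 2)
  have h3 := (Int.ModEq.dvd_iff h2).1 h.2
  have h4 : ((N - m ^ 2 : ℕ) : ℤ) = (N : ℤ) - (m : ℤ) ^ 2 := by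
    rw [Nat.cast_sub hm]
    push_cast
    ring
  rw [← h4] at h3
  exact_mod_cast h3

/-- prime factors `≥ B ^ (1/3)`, number `< B`: at most two of them -/
lemma two_factors {n N : ℕ} (hn : 2 ≤ n) (hnB : n < N) (h : ∀ q : ℕ, q.Prime → q ∣ n → (N : ℝ) ^ (1 / 3 : ℝ) ≤ q) :
    n.primeFactorsList.length ≤ 2 := by
  have hN0 : (0 : ℝ) < N := by exact_mod_cast (by omega : 0 < N)
  have hprod := Nat.prod_primeFactorsList (show n ≠ 0 by omega)
  have hmem : ∀ q ∈ n.primeFactorsList, N ≤ q ^ 3 := by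
    intro q hq
    have h1 := h q (Nat.prime_of_mem_primeFactorsList hq) (Nat.dvd_of_mem_primeFactorsList hq)
    have h2 : (N : ℝ) ≤ (q : ℝ) ^ 3 := by
      calc (N : ℝ) = ((N : ℝ) ^ (1 / 3 : ℝ)) ^ 3 := by
            rw [← Real.rpow_natCast, ← Real.rpow_mul hN0.le]
            norm_num
        _ ≤ _ := pow_le_pow_left₀ (by positivity) h1 3
    exact_mod_cast h2
  have hpos : ∀ q ∈ n.primeFactorsList, 1 ≤ q := fun q hq => (Nat.prime_of_mem_primeFactorsList hq).one_le
  rcases hl : n.primeFactorsList with _ | ⟨a, _ | ⟨b, _ | ⟨c, l⟩⟩⟩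
  · simp
  · simp
  · simp
  · exfalso
    rw [hl] at hprod hmem hpos
    have ha := hmem a (by simp)
    have hb := hmem b (by simp)
    have hc := hmem c (by simp)
    have h1 : 1 ≤ l.prod := List.one_le_prod (fun q hq => hpos q (by simp [hq]))
    have h2 : a * (b * c) ≤ n := by
      rw [← hprod, List.prod_cons, List.prod_cons, List.prod_cons]
      calc a * (b * c) = a * (b * (c * 1)) := by ring
        _ ≤ a * (b * (c * l.prod)) := by gcongr
    have h3 : (a * (b * c)) ^ 3 < N ^ 3 := Nat.pow_lt_pow_left (lt_of_le_of_lt h2 hnB) (by norm_num)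
    have h4 : N * (N * N) ≤ a ^ 3 * (b ^ 3 * c ^ 3) := Nat.mul_le_mul ha (Nat.mul_le_mul hb hc)
    have h5 : (a * (b * c)) ^ 3 = a ^ 3 * (b ^ 3 * c ^ 3) := by ring
    have h6 : N ^ 3 = N * (N * N) := by ring
    omega

lemma count_eq (N : ℕ) : sqCount (1 / 3) N = (Args N).card := by
  classical
  unfold sqCount Args
  congr 1
  apply filter_congr
  intro m hm
  rw [mem_Icc] at hm
  constructor
  · rintro ⟨h1, h2⟩
    refine ⟨h1, two_factors (N := N) (by omega) ?_ h2, h2⟩
    have : 0 < m ^ 2 := by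
      have := hm.1
      positivity
    omega
  · rintro ⟨h1, _, h2⟩
    exact ⟨h1, h2⟩

/-- the dense version, for one `N` -/
theorem dense (L : ℕ) (c : ℝ) (hc : 0 < c) : ∃ D N₀ : ℕ, ∀ N : ℕ, N₀ ≤ N → ∀ S ⊆ Args N, c * (Real.sqrt N * SquarePlusAlmostPrime.dens N) ≤ (S.card : ℝ) →
    ∃ a d : ℕ, 1 ≤ d ∧ (d : ℝ) ≤ Real.log N ^ D ∧ ∀ j < L, a + j * d ∈ S := by
  classical
  obtain ⟨D, X₀, H⟩ := ap_dense L 2 (1 / 2) c (by norm_num) (by norm_num) hc
  refine ⟨D, max (X₀ ^ 2) 16, ?_⟩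
  intro N hN S hS hcard
  obtain ⟨X, hX⟩ : ∃ X, X = Nat.sqrt N := ⟨_, rfl⟩
  have hN16 : 16 ≤ N := (le_max_right _ _).trans hN
  have hX0 : X₀ ≤ X := by
    rw [hX, Nat.le_sqrt']
    exact (le_max_left _ _).trans hN
  have hX4 : 4 ≤ X := by
    rw [hX, Nat.le_sqrt']
    omega
  have hXN : X ^ 2 ≤ N := by rw [hX]; exact Nat.sqrt_le' N
  have hXr : (X : ℝ) ≤ Real.sqrt N := by
    apply Real.le_sqrt_of_sq_le
    exact_mod_cast hXN
  have hXpos : (4 : ℝ) ≤ X := by exact_mod_cast hX4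
  have hNpos : (0 : ℝ) < N := by exact_mod_cast (by omega : 0 < N)
  have hmem : ∀ m ∈ S, (1 ≤ m ∧ m ≤ X) ∧ m ^ 2 ≤ N ∧ ∀ q : ℕ, q.Prime → q ∣ (N - m ^ 2) → (N : ℝ) ^ (1 / 3 : ℝ) ≤ q := by
    intro m hm
    have h1 := hS hm
    unfold Args at h1
    rw [mem_filter, mem_Icc] at h1
    refine ⟨⟨h1.1.1, ?_⟩, by omega, h1.2.2.2⟩
    rw [hX, Nat.le_sqrt']
    omega
  obtain ⟨a, d, hd1, hd2, hd3⟩ := H X hX0 (Zn N) (Zn_sys N) 0 S (by
    intro m hm
    obtain ⟨⟨h1, h2⟩, _⟩ := hmem m hm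
    rw [mem_Ioc]
    omega) (by
    intro m hm p hp hpX hmp
    obtain ⟨_, h2, h3⟩ := hmem m hm
    have h4 := h3 p hp (mem_Zn h2 hmp)
    have h5 : (X : ℝ) ^ (2 / 3 : ℝ) ≤ (N : ℝ) ^ (1 / 3 : ℝ) := by
      have h6 : (X : ℝ) ^ 2 ≤ N := by exact_mod_cast hXN
      calc (X : ℝ) ^ (2 / 3 : ℝ) = ((X : ℝ) ^ 2) ^ (1 / 3 : ℝ) := by
            rw [← Real.rpow_natCast, ← Real.rpow_mul (by linarith)]
            norm_num
        _ ≤ _ := Real.rpow_le_rpow (by positivity) h6 (by norm_num)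
    have h6 : (X : ℝ) ^ (1 / 2 : ℝ) < (X : ℝ) ^ (2 / 3 : ℝ) :=
      Real.rpow_lt_rpow_of_exponent_lt (by linarith) (by norm_num)
    linarith) (by
    refine le_trans ?_ hcard
    rw [dens_eq, ← hX]
    apply mul_le_mul_of_nonneg_left _ hc.le
    exact mul_le_mul_of_nonneg_right hXr (Pool.Agent.Q253.Thin.VZ_nonneg (Zn_sys N) _ _))
  refine ⟨a, d, hd1, hd2.trans ?_, hd3⟩
  apply pow_le_pow_left₀ (Real.log_nonneg (by linarith))
  apply Real.log_le_log (by linarith)
  have : X ≤ N := by nlinarith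
  exact_mod_cast this

open Classical in
/-- **Progressions.** For every `ε > 0` there is a set `E` of integers with `O(X ^ (5/6 + ε))` elements up to `X` such that for all
`L`:

(1) for every `η > 0` there are `D` and `N₀` such that for all `N ≥ N₀` outside `E` every set `S` of at least `η |Args N|` elements of
`Args N` contains an arithmetic progression of length `L` with difference `≤ log ^ D N`;

(2) for every `r ≥ 1` there are `D` and `N₀` such that for all `N ≥ N₀` outside `E` and every colouring of the integers with `r` colours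
there are `s ∈ {1, 2}` and an arithmetic progression of length `L` with difference `≤ log ^ D N` of integers `m ≥ 1` of the same colour,
such that all the numbers `N - m ^ 2` have exactly `s` prime factors (with multiplicity), all of them `≥ N ^ (1/3)`;

here `Args N` is the set of the `m ≥ 1` for which `N - m ^ 2 ≥ 2` has at most two prime factors, all `≥ N ^ (1/3)`; for `N ∉ E` it has
at least `δ √N dens N` elements (a theorem of the starting files), in particular at least `δ √N / log ^ 2 N`. -/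
theorem result : ∀ ε : ℝ, 0 < ε → ∃ δ C : ℝ, 0 < δ ∧ 0 < C ∧ ∃ E : Set ℕ,
    (∀ X : ℕ, 1 ≤ X → (((Icc 1 X).filter (fun N => N ∈ E)).card : ℝ) ≤ C * (X : ℝ) ^ (5 / 6 + ε)) ∧
    (∃ N₁ : ℕ, ∀ N : ℕ, N₁ ≤ N → N ∉ E → δ * (Real.sqrt N / Real.log N ^ 2) ≤ ((Args N).card : ℝ)) ∧
    ∀ L : ℕ,
      (∀ η : ℝ, 0 < η → ∃ D N₀ : ℕ, ∀ N : ℕ, N₀ ≤ N → N ∉ E → ∀ S ⊆ Args N, η * (Args N).card ≤ S.card →
        ∃ a d : ℕ, 1 ≤ d ∧ (d : ℝ) ≤ Real.log N ^ D ∧ ∀ j < L, a + j * d ∈ S) ∧
      (∀ r : ℕ, 1 ≤ r → ∃ D N₀ : ℕ, ∀ N : ℕ, N₀ ≤ N → N ∉ E → ∀ col : ℕ → Fin r,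
        ∃ s : ℕ, (s = 1 ∨ s = 2) ∧ ∃ b : Fin r, ∃ a d : ℕ, 1 ≤ d ∧ (d : ℝ) ≤ Real.log N ^ D ∧ ∀ j < L,
          1 ≤ a + j * d ∧ (a + j * d) ^ 2 + 2 ≤ N ∧ col (a + j * d) = b ∧
          (N - (a + j * d) ^ 2).primeFactorsList.length = s ∧
          ∀ q : ℕ, q.Prime → q ∣ N - (a + j * d) ^ 2 → (N : ℝ) ^ (1 / 3 : ℝ) ≤ q) := by
  intro ε hε
  obtain ⟨δ, C, hδ, hC, hex⟩ := Pool.Agent.Results.MP_d48457_nt.SquarePlusAlmostPrime.result (1 / 3) ε (by norm_num) (by norm_num) hε
  have hmax : max (2 / 3 : ℝ) (4 * (1 / 3) - 1 / 2) = 5 / 6 := by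
    rw [max_eq_right (by norm_num)]
    norm_num
  rw [hmax] at hex
  obtain ⟨cV, hcV, hV⟩ := VZ_low 2 (by norm_num)
  set E : Set ℕ := {N | (sqCount (1 / 3) N : ℝ) < δ * (SquarePlusAlmostPrime.dens N * Real.sqrt N)} with hE
  have hout : ∀ N, N ∉ E → δ * (Real.sqrt N * SquarePlusAlmostPrime.dens N) ≤ ((Args N).card : ℝ) := by
    intro N hN
    rw [hE, Set.mem_ofPred_eq, not_lt, count_eq, mul_comm (SquarePlusAlmostPrime.dens N)] at hN
    exact hN
  have hdens : ∀ N : ℕ, 16 ≤ N → 4 * cV / Real.log N ^ 2 ≤ SquarePlusAlmostPrime.dens N := by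
    intro N hN
    have h2 : 2 ≤ Nat.sqrt N := by
      rw [Nat.le_sqrt']
      omega
    have h1 := hV (Nat.sqrt N) h2 (Zn N) (Zn_sys N)
    rw [dens_eq]
    refine le_trans ?_ h1
    have hN0 : (0 : ℝ) < N := by exact_mod_cast (by omega : 0 < N)
    have hs0 : (0 : ℝ) < Nat.sqrt N := by exact_mod_cast (by omega : 0 < Nat.sqrt N)
    have hl : Real.log (Nat.sqrt N) ≤ Real.log N / 2 := by
      have h3 : ((Nat.sqrt N : ℕ) : ℝ) ^ 2 ≤ N := by exact_mod_cast Nat.sqrt_le' N
      have h4 := Real.log_le_log (by positivity) h3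
      rw [Real.log_pow] at h4
      push_cast at h4
      linarith
    have hl0 : 0 < Real.log (Nat.sqrt N) := Real.log_pos (by exact_mod_cast (by omega : 1 < Nat.sqrt N))
    have h5 : Real.log (Nat.sqrt N) ^ 2 ≤ Real.log N ^ 2 / 4 := by
      calc Real.log (Nat.sqrt N) ^ 2 ≤ (Real.log N / 2) ^ 2 := pow_le_pow_left₀ hl0.le hl 2
        _ = _ := by ring
    have hlN : 0 < Real.log N := by linarith
    rw [div_le_div_iff₀ (by positivity) (by positivity)]
    nlinarith
  refine ⟨min δ (4 * cV * δ), C, by positivity, hC, E, ?_, ?_, ?_⟩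
  · intro X hX
    exact hex X hX
  · refine ⟨16, fun N hN hNE => ?_⟩
    refine le_trans ?_ (hout N hNE)
    have h1 := hdens N hN
    have h0 : (0 : ℝ) ≤ Real.sqrt N := Real.sqrt_nonneg _
    calc min δ (4 * cV * δ) * (Real.sqrt N / Real.log N ^ 2) ≤ 4 * cV * δ * (Real.sqrt N / Real.log N ^ 2) :=
          mul_le_mul_of_nonneg_right (min_le_right _ _) (by positivity)
      _ = δ * (Real.sqrt N * (4 * cV / Real.log N ^ 2)) := by ring
      _ ≤ _ := by
          apply mul_le_mul_of_nonneg_left _ hδ.le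
          exact mul_le_mul_of_nonneg_left h1 h0
  · intro L
    constructor
    · intro η hη
      obtain ⟨D, N₀, H⟩ := dense L (η * δ) (by positivity)
      refine ⟨D, N₀, fun N hN hNE S hS hcard => H N hN S hS ?_⟩
      calc η * δ * (Real.sqrt N * SquarePlusAlmostPrime.dens N) = η * (δ * (Real.sqrt N * SquarePlusAlmostPrime.dens N)) := by ring
        _ ≤ η * (Args N).card := mul_le_mul_of_nonneg_left (hout N hNE) hη.le
        _ ≤ _ := hcard
    · intro r hr
      have hr0 : (0 : ℝ) < r := by exact_mod_cast hr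
      obtain ⟨D, N₀, H⟩ := dense L (δ / (2 * r)) (by positivity)
      refine ⟨D, N₀, fun N hN hNE col => ?_⟩
      obtain ⟨K, hK⟩ : ∃ K : Finset (ℕ × Fin r), K = ({1, 2} : Finset ℕ) ×ˢ univ := ⟨_, rfl⟩
      have hKc : K.card = 2 * r := by
        rw [hK, card_product, card_univ, Fintype.card_fin]
        rfl
      have hargs : ∀ m ∈ Args N, 1 ≤ m ∧ m ^ 2 + 2 ≤ N ∧ (N - m ^ 2).primeFactorsList.length ≤ 2 ∧
          ∀ q : ℕ, q.Prime → q ∣ (N - m ^ 2) → (N : ℝ) ^ (1 / 3 : ℝ) ≤ q := by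
        intro m hm
        unfold Args at hm
        rw [mem_filter, mem_Icc] at hm
        exact ⟨hm.1.1, hm.2⟩
      have hcov : Args N ⊆ K.biUnion (fun c => (Args N).filter
          (fun m => (N - m ^ 2).primeFactorsList.length = c.1 ∧ col m = c.2)) := by
        intro m hm
        rw [mem_biUnion]
        obtain ⟨h1, h2, h3, _⟩ := hargs m hm
        refine ⟨((N - m ^ 2).primeFactorsList.length, col m), ?_, ?_⟩
        · rw [hK, mem_product]
          refine ⟨?_, mem_univ _⟩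
          have h4 : (N - m ^ 2).primeFactorsList.length ≠ 0 := by
            intro h
            have h4 := List.length_eq_zero_iff.1 h
            rw [Nat.primeFactorsList_eq_nil] at h4
            omega
          simp only [mem_insert, mem_singleton]
          omega
        · rw [mem_filter]
          exact ⟨hm, rfl, rfl⟩
      obtain ⟨c, hc, hcc⟩ : ∃ c ∈ K, δ / (2 * r) * (Real.sqrt N * SquarePlusAlmostPrime.dens N) ≤
          (((Args N).filter (fun m => (N - m ^ 2).primeFactorsList.length = c.1 ∧ col m = c.2)).card : ℝ) := by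
        by_contra hcon
        push Not at hcon
        have h3 : ((Args N).card : ℝ) ≤ ∑ c ∈ K,
            ((((Args N).filter (fun m => (N - m ^ 2).primeFactorsList.length = c.1 ∧ col m = c.2)).card : ℕ) : ℝ) := by
          exact_mod_cast (card_le_card hcov).trans card_biUnion_le
        have hKne : K.Nonempty := by
          rw [← card_pos, hKc]
          omega
        have h4 := sum_lt_sum_of_nonempty hKne hcon
        rw [sum_const, hKc, nsmul_eq_mul] at h4
        have h5 : ((2 * r : ℕ) : ℝ) * (δ / (2 * r) * (Real.sqrt N * SquarePlusAlmostPrime.dens N)) = δ * (Real.sqrt N * SquarePlusAlmostPrime.dens N) := by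
          push_cast
          field_simp
        rw [h5] at h4
        linarith [hout N hNE]
      obtain ⟨a, d, hd1, hd2, hd3⟩ := H N hN _ (filter_subset _ _) hcc
      refine ⟨c.1, ?_, c.2, a, d, hd1, hd2, ?_⟩
      · rw [hK] at hc
        have := (mem_product.1 hc).1
        simpa only [mem_insert, mem_singleton] using this
      · intro j hj
        have h3 := hd3 j hj
        rw [mem_filter] at h3
        obtain ⟨h4, h5, h6⟩ := h3
        obtain ⟨g1, g2, _, g4⟩ := hargs _ h4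
        exact ⟨g1, g2, h6, h5, g4⟩

end Pool.Agent.Results.MP_d48457_nt.NarrowProgressions
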