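import Pool.Agent.Q83.RB.D

/-! # The Erdős–Turán conjecture for bases which survive random deletions

Delete the elements of a set `A` of natural numbers at random: `n` is deleted with probability at
least `q n`, independently for different `n`.  Here `q` is a positive nonincreasing sequence,
`q 0 < 1`, and `r_{A,h}(n)` is the number of multisets of `h` elements of `A` with sum `n`.

1. If `r_{A,h}(n) log (1 / q n) ≤ κ log n` for all large `n`, with some `κ < 1/h`, then almost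
   surely every interval `(N, 2N]`, `N` large, contains a number which is not a sum of `h` of the
   remaining elements.
2. So if what remains of `A` is an asymptotic basis of order `h` with positive probability, then
   `limsup r_{A,h}(n) log (1 / q n) / log n ≥ 1/h`.
3. Sparse deletions: if `A` survives (with positive probability) the deletion of each `n` with
   probability `(n + 2)^(-ε)`, then `r_{A,h}(n) ≥ 1 / (h ε)` for infinitely many `n`.  So the
   conjecture of Erdős and Turán of order `h` holds for every basis which survives these deletions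
   for arbitrarily small `ε`: `r_{A,h}` is unbounded.
4. Deletions with constant probability `q`: `r_{A,h}(n) > κ log n / log (1/q)` for infinitely many
   `n`, for every `κ < 1/h`.
5. The order of magnitude `log n` in 4. is exact for `h = 2`: if every element is kept with
   probability at least `p` and `r_{A,2}(n) ≥ κ log n` for large `n`, `κ log (1 / (1 - p²)) > 1`, then
   almost surely an asymptotic basis of order two remains.  (By Erdős 1956 there are such sets with
   `r_{A,2}(n) = O(log n)`.)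

Proof of 1.  Choose one element from each representation of `n`; all of them are deleted with
probability at least `n^(-κ)`, and then `n` is not represented.  For `n` in `(N, 2N]` one element
is chosen for at most `N^(1 - 1/h + o(1))` of the `n`, since `A` has at most `N^(1/h + o(1))` elements
up to `2N`.  So there are `N^(1/h - o(1))` numbers `n` with pairwise disjoint chosen sets, that is,
with independent events.
-/

open MeasureTheory ProbabilityTheory Filter

namespace Pool.Agent.Results.MP_d5a1e1_nt.RobustBases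

/-- The multisets of `h` elements of `A` with sum `n`. -/
def msets (A : Set ℕ) (h n : ℕ) : Set (Multiset ℕ) :=
  {s | Multiset.card s = h ∧ (∀ a ∈ s, a ∈ A) ∧ s.sum = n}

/-- The unordered representation function of order `h` of `A`. -/
noncomputable def rep (A : Set ℕ) (h n : ℕ) : ℕ := (msets A h n).ncard

/-- `A` is an asymptotic basis of order `h`. -/
def IsBasis (A : Set ℕ) (h : ℕ) : Prop := ∃ n₀ : ℕ, ∀ n ≥ n₀, (msets A h n).Nonempty

/-- The independent events `D n` (the number `n` is deleted) on a probability space. -/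
structure Deletion {Ω : Type} [MeasurableSpace Ω] (μ : Measure Ω) (D : ℕ → Set Ω) : Prop where
  prob : IsProbabilityMeasure μ
  meas : ∀ n, MeasurableSet (D n)
  indep : iIndepSet D μ

/-- The elements of `A` that remain. -/
def remaining {Ω : Type} (A : Set ℕ) (D : ℕ → Set Ω) (ω : Ω) : Set ℕ := A \ {a | ω ∈ D a}

theorem part_one {h : ℕ} (hh : 1 ≤ h) {A : Set ℕ} {q : ℕ → ℝ} (hq0 : ∀ n, 0 < q n)
    (hqa : Antitone q) (hq1 : q 0 < 1) {κ : ℝ} (hκ : κ < 1 / h)
    (hr : ∀ᶠ n : ℕ in atTop, (rep A h n : ℝ) * Real.log (1 / q n) ≤ κ * Real.log n)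
    {Ω : Type} [MeasurableSpace Ω] {μ : Measure Ω} {D : ℕ → Set Ω} (hD : Deletion μ D)
    (hp : ∀ n, q n ≤ μ.real (D n)) :
    ∀ᵐ ω ∂μ, ∀ᶠ N : ℕ in atTop, ∃ n, N < n ∧ n ≤ 2 * N ∧ msets (remaining A D ω) h n = ∅ := by
  have := hD.prob
  exact Q83.RB.almost_surely hh hq0 hqa hq1 (fun n => hqa (Nat.zero_le n)) hκ hr hD.meas
    (Q83.RB.prodF_of_indep hD.meas hD.indep) hp

theorem part_two {h : ℕ} (hh : 1 ≤ h) {A : Set ℕ} {q : ℕ → ℝ} (hq0 : ∀ n, 0 < q n)
    (hqa : Antitone q) (hq1 : q 0 < 1)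
    {Ω : Type} [MeasurableSpace Ω] {μ : Measure Ω} {D : ℕ → Set Ω} (hD : Deletion μ D)
    (hp : ∀ n, q n ≤ μ.real (D n)) (hpos : μ {ω | IsBasis (remaining A D ω) h} ≠ 0)
    {κ : ℝ} (hκ : κ < 1 / h) :
    ∃ᶠ n : ℕ in atTop, κ * Real.log n < (rep A h n : ℝ) * Real.log (1 / q n) := by
  by_contra hcon
  rw [not_frequently] at hcon
  have hr : ∀ᶠ n : ℕ in atTop, (rep A h n : ℝ) * Real.log (1 / q n) ≤ κ * Real.log n := by
    filter_upwards [hcon] with n hn
    exact not_lt.mp hn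
  have h1 := part_one hh hq0 hqa hq1 hκ hr hD hp
  apply hpos
  rw [ae_iff] at h1
  refine measure_mono_null ?_ h1
  intro ω hω hN
  obtain ⟨n₀, hn₀⟩ := hω
  obtain ⟨N, h2, h3⟩ := (hN.and (eventually_ge_atTop n₀)).exists
  obtain ⟨n, h4, h5, h6⟩ := h2
  have h7 := hn₀ n (by omega)
  rw [h6] at h7
  exact Set.not_nonempty_empty h7

theorem part_three {h : ℕ} (hh : 1 ≤ h) {A : Set ℕ} {ε : ℝ} (hε : 0 < ε)
    {Ω : Type} [MeasurableSpace Ω] {μ : Measure Ω} {D : ℕ → Set Ω} (hD : Deletion μ D)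
    (hp : ∀ n : ℕ, ((n : ℝ) + 2) ^ (-ε) ≤ μ.real (D n))
    (hpos : μ {ω | IsBasis (remaining A D ω) h} ≠ 0) :
    ∃ᶠ n : ℕ in atTop, 1 / (h * ε) ≤ (rep A h n : ℝ) := by
  have hh0 : (0 : ℝ) < h := by exact_mod_cast hh
  by_contra hcon
  rw [not_frequently] at hcon
  set m : ℕ := ⌈1 / (h * ε)⌉₊ - 1 with hm
  have hceil : 0 < ⌈1 / (h * ε)⌉₊ := Nat.ceil_pos.mpr (by positivity)
  have hm1 : (m : ℝ) < 1 / (h * ε) := by
    apply Nat.lt_ceil.mp
    omega
  have hm2 : ∀ᶠ n : ℕ in atTop, rep A h n ≤ m := by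
    filter_upwards [hcon] with n hn
    push Not at hn
    have : rep A h n < ⌈1 / (h * ε)⌉₊ := Nat.lt_ceil.mpr hn
    omega
  have hm3 : m * ε < 1 / h := by
    have h1 := mul_lt_mul_of_pos_right hm1 hε
    have h2 : 1 / (h * ε) * ε = 1 / h := by field_simp
    rwa [h2] at h1
  set κ : ℝ := (m * ε + 1 / h) / 2 with hκdef
  have hκ : κ < 1 / h := by rw [hκdef]; linarith
  have hκm : m * ε < κ := by rw [hκdef]; linarith
  have h1 := part_two hh (A := A) (q := fun n : ℕ => ((n : ℝ) + 2) ^ (-ε)) (fun n => by positivity)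
    (fun a b hab => Real.rpow_le_rpow_of_nonpos (by positivity)
      (by have : (a : ℝ) ≤ b := by exact_mod_cast hab
          linarith) (by linarith))
    (by
      simp only [Nat.cast_zero, zero_add]
      exact Real.rpow_lt_one_of_one_lt_of_neg (by norm_num) (by linarith)) hD hp hpos hκ
  have hlog : Tendsto (fun n : ℕ => Real.log n) atTop atTop :=
    Real.tendsto_log_atTop.comp tendsto_natCast_atTop_atTop
  obtain ⟨n, h2, h3, h4, h5⟩ := (h1.and_eventually (hm2.and
    ((hlog.eventually_ge_atTop (m * ε * Real.log 3 / (κ - m * ε))).and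
      (eventually_ge_atTop 1)))).exists
  have hn1 : (1 : ℝ) ≤ n := by exact_mod_cast h5
  have h6 : Real.log (1 / ((n : ℝ) + 2) ^ (-ε)) = ε * Real.log (n + 2) := by
    rw [one_div, ← Real.rpow_neg (by positivity), neg_neg, Real.log_rpow (by positivity)]
  have h7 : Real.log ((n : ℝ) + 2) ≤ Real.log 3 + Real.log n := by
    rw [← Real.log_mul (by norm_num) (by positivity)]
    exact Real.log_le_log (by positivity) (by linarith)
  have h8 : (rep A h n : ℝ) ≤ m := by exact_mod_cast h3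
  have h9 : (rep A h n : ℝ) * Real.log (1 / ((n : ℝ) + 2) ^ (-ε)) ≤
      m * ε * (Real.log 3 + Real.log n) := by
    rw [h6]
    have h10 : 0 ≤ Real.log ((n : ℝ) + 2) := Real.log_nonneg (by linarith)
    calc (rep A h n : ℝ) * (ε * Real.log (n + 2)) ≤ m * (ε * Real.log (n + 2)) :=
          mul_le_mul_of_nonneg_right h8 (by positivity)
      _ = m * ε * Real.log (n + 2) := by ring
      _ ≤ m * ε * (Real.log 3 + Real.log n) := mul_le_mul_of_nonneg_left h7 (by positivity)
  have h10 : m * ε * Real.log 3 ≤ (κ - m * ε) * Real.log n := by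
    rw [div_le_iff₀ (by linarith)] at h4
    linarith
  have h11 : κ * Real.log n < m * ε * (Real.log 3 + Real.log n) := lt_of_lt_of_le h2 h9
  linarith

theorem result :
    -- 1. bases of small representation function are destroyed
    (∀ h : ℕ, 1 ≤ h → ∀ (A : Set ℕ) (q : ℕ → ℝ), (∀ n, 0 < q n) → Antitone q → q 0 < 1 →
      ∀ κ : ℝ, κ < 1 / h →
      (∀ᶠ n : ℕ in atTop, (rep A h n : ℝ) * Real.log (1 / q n) ≤ κ * Real.log n) →
      ∀ (Ω : Type) [MeasurableSpace Ω] (μ : Measure Ω) (D : ℕ → Set Ω), Deletion μ D →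
      (∀ n, q n ≤ μ.real (D n)) →
      ∀ᵐ ω ∂μ, ∀ᶠ N : ℕ in atTop,
        ∃ n, N < n ∧ n ≤ 2 * N ∧ msets (remaining A D ω) h n = ∅) ∧
    -- 2. bases which survive
    (∀ h : ℕ, 1 ≤ h → ∀ (A : Set ℕ) (q : ℕ → ℝ), (∀ n, 0 < q n) → Antitone q → q 0 < 1 →
      ∀ (Ω : Type) [MeasurableSpace Ω] (μ : Measure Ω) (D : ℕ → Set Ω), Deletion μ D →
      (∀ n, q n ≤ μ.real (D n)) → μ {ω | IsBasis (remaining A D ω) h} ≠ 0 →
      ∀ κ : ℝ, κ < 1 / h →
      ∃ᶠ n : ℕ in atTop, κ * Real.log n < (rep A h n : ℝ) * Real.log (1 / q n)) ∧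
    -- 3. sparse deletions: quantitative form, and the conjecture
    (∀ h : ℕ, 1 ≤ h → ∀ (A : Set ℕ) (ε : ℝ), 0 < ε →
      ∀ (Ω : Type) [MeasurableSpace Ω] (μ : Measure Ω) (D : ℕ → Set Ω), Deletion μ D →
      (∀ n : ℕ, ((n : ℝ) + 2) ^ (-ε) ≤ μ.real (D n)) →
      μ {ω | IsBasis (remaining A D ω) h} ≠ 0 →
      ∃ᶠ n : ℕ in atTop, 1 / (h * ε) ≤ (rep A h n : ℝ)) ∧
    (∀ h : ℕ, 1 ≤ h → ∀ A : Set ℕ,
      (∀ ε : ℝ, 0 < ε → ∃ (Ω : Type) (_ : MeasurableSpace Ω) (μ : Measure Ω) (D : ℕ → Set Ω),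
        Deletion μ D ∧ (∀ n : ℕ, ((n : ℝ) + 2) ^ (-ε) ≤ μ.real (D n)) ∧
        μ {ω | IsBasis (remaining A D ω) h} ≠ 0) →
      ∀ C : ℕ, ∃ n, C < rep A h n) ∧
    -- 4. constant rate
    (∀ h : ℕ, 1 ≤ h → ∀ (A : Set ℕ) (q : ℝ), 0 < q → q < 1 →
      ∀ (Ω : Type) [MeasurableSpace Ω] (μ : Measure Ω) (D : ℕ → Set Ω), Deletion μ D →
      (∀ n, q ≤ μ.real (D n)) → μ {ω | IsBasis (remaining A D ω) h} ≠ 0 →
      ∀ κ : ℝ, κ < 1 / h →
      ∃ᶠ n : ℕ in atTop, κ / Real.log (1 / q) * Real.log n < rep A h n) ∧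
    -- 5. the order log n is exact for order two
    (∀ (A : Set ℕ) (p κ : ℝ), 0 < p → p < 1 → 1 < κ * Real.log (1 / (1 - p ^ 2)) →
      (∀ᶠ n : ℕ in atTop, κ * Real.log n ≤ (rep A 2 n : ℝ)) →
      ∀ (Ω : Type) [MeasurableSpace Ω] (μ : Measure Ω) (D : ℕ → Set Ω), Deletion μ D →
      (∀ n, μ.real (D n) ≤ 1 - p) → ∀ᵐ ω ∂μ, IsBasis (remaining A D ω) 2) := by
  refine ⟨?_, ?_, ?_, ?_, ?_, ?_⟩
  · intro h hh A q hq0 hqa hq1 κ hκ hr Ω _ μ D hD hp
    exact part_one hh hq0 hqa hq1 hκ hr hD hp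
  · intro h hh A q hq0 hqa hq1 Ω _ μ D hD hp hpos κ hκ
    exact part_two hh hq0 hqa hq1 hD hp hpos hκ
  · intro h hh A ε hε Ω _ μ D hD hp hpos
    exact part_three hh hε hD hp hpos
  · intro h hh A hA C
    have hh0 : (0 : ℝ) < h := by exact_mod_cast hh
    obtain ⟨Ω, _, μ, D, hD, hp, hpos⟩ := hA (1 / (h * (C + 1))) (by positivity)
    obtain ⟨n, hn⟩ := (part_three hh (by positivity) hD hp hpos).exists
    refine ⟨n, ?_⟩
    have h1 : 1 / (h * (1 / (h * ((C : ℝ) + 1)))) = C + 1 := by field_simp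
    rw [h1] at hn
    have h2 : C + 1 ≤ rep A h n := by exact_mod_cast hn
    omega
  · intro h hh A q hq0 hq1 Ω _ μ D hD hp hpos κ hκ
    have h1 := part_two hh (A := A) (q := fun _ => q) (fun _ => hq0) (fun _ _ _ => le_rfl) hq1 hD hp
      hpos hκ
    refine h1.mono fun n hn => ?_
    have hL : 0 < Real.log (1 / q) := Real.log_pos (by rw [one_lt_div hq0]; exact hq1)
    rw [div_mul_eq_mul_div, div_lt_iff₀ hL]
    exact hn
  · intro A p κ hp0 hp1 hκ hr Ω _ μ D hD hp
    have := hD.prob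
    have h1 := Q83.RB.survives (A := A) hp0 hp1 hκ hr hD.meas
      (Q83.RB.prodF_of_indep hD.meas hD.indep) (fun n => by linarith [hp n])
    filter_upwards [h1] with ω hω
    obtain ⟨n₀, hn₀⟩ := eventually_atTop.mp hω
    exact ⟨n₀, hn₀⟩

end Pool.Agent.Results.MP_d5a1e1_nt.RobustBases
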