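import Mathlib

/-!
# Exponential gap between broadcast dimension and adjacency dimension (MP_d61170_co)

For `h ≥ 1` let `U` be the set of nonzero `0`-`1` vectors of length `h` and take the graph with
vertices `x` for `x ∈ U × U`, `y_{b,u}` for `b ∈ {0,1}`, `u ∈ U`, and `z_{b,i}` for `b ∈ {0,1}`,
`i < h`.  The vertex `x = (x₀, x₁)` is adjacent to `y_{0,x₀}` and `y_{1,x₁}`, and `y_{b,u}` is adjacent
to `z_{b,i}` when `u i = 1`.  The broadcast with value `2` on every `z_{b,i}` is resolving and has
total `4 h`, whereas the order of the graph is at least `(2 ^ h - 1) ^ 2` and all degrees are at most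
`2 ^ h + h + 1`, so that the adjacency dimension is about `2 ^ h` at least.  Adding isolated vertices
one at a time, the broadcast dimension passes through all larger integers.
-/

set_option autoImplicit false

open SimpleGraph Finset

namespace Pool.Agent.Results.MP_d61170_co.ExponentialGap

section Defs

variable {V : Type*}

/-- `d_k(x,y) = min {d(x,y), k+1}`, with `d(x,y) = ∞` for vertices in different components. -/
noncomputable def trunc (G : SimpleGraph V) (k : ℕ) (x y : V) : ℕ∞ :=
  min (G.edist x y) (k + 1)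

/-- Resolving broadcasts. -/
def IsResolving (G : SimpleGraph V) (f : V → ℕ) : Prop :=
  ∀ x y, x ≠ y → ∃ z, 0 < f z ∧ trunc G (f z) x z ≠ trunc G (f z) y z

/-- The broadcast dimension. -/
noncomputable def bdim [Fintype V] (G : SimpleGraph V) : ℕ :=
  sInf {n | ∃ f : V → ℕ, IsResolving G f ∧ ∑ v, f v = n}

/-- The adjacency dimension. -/
noncomputable def adim [Fintype V] (G : SimpleGraph V) : ℕ :=
  sInf {n | ∃ f : V → ℕ, (∀ v, f v ≤ 1) ∧ IsResolving G f ∧ ∑ v, f v = n}

end Defs

section General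

variable {V : Type*} {G : SimpleGraph V}

theorem trunc_ne {k t : ℕ} (htk : t ≤ k) {x y z : V} (h1 : G.edist x z ≤ t)
    (h2 : ¬ G.edist y z ≤ t) : trunc G k x z ≠ trunc G k y z := by
  intro h
  have hk : (t : ℕ∞) ≤ k := by exact_mod_cast htk
  have h3 : trunc G k x z ≤ t := (min_le_left _ _).trans h1
  rw [h] at h3
  rcases min_le_iff.mp h3 with h4 | h4
  · exact h2 h4
  · have h5 : ((k + 1 : ℕ) : ℕ∞) ≤ t := by exact_mod_cast h4
    have : k + 1 ≤ t := by exact_mod_cast h5
    omega

theorem not_edist_le_zero {x z : V} (h : x ≠ z) : ¬ G.edist x z ≤ (0 : ℕ) := by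
  simp [edist_eq_zero_iff, h]

theorem isResolving_one (G : SimpleGraph V) : IsResolving G fun _ => 1 := by
  intro x y hxy
  exact ⟨x, by simp, trunc_ne (t := 0) (by simp) (by simp) (not_edist_le_zero hxy.symm)⟩

theorem trunc_one_eq_two {x z : V} (h1 : x ≠ z) (h2 : ¬ G.Adj z x) : trunc G 1 x z = 2 := by
  have h3 : ¬ G.edist x z ≤ 1 := by
    rw [edist_le_one_iff_adj_or_eq]
    rintro (h | h)
    · exact h2 h.symm
    · exact h1 h
  have h4 : 2 ≤ G.edist x z := by
    have := Order.add_one_le_of_lt (not_le.mp h3)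
    rwa [one_add_one_eq_two] at this
  have h5 : ((1 : ℕ) : ℕ∞) + 1 = 2 := by norm_num
  rw [trunc, h5]
  exact min_eq_right h4

variable [Fintype V]

theorem card_le_adim {D : ℕ} (hD : ∀ p, {q | G.Adj p q}.ncard ≤ D) :
    Fintype.card V ≤ adim G * (D + 1) + 1 := by
  classical
  have hne : {n | ∃ f : V → ℕ, (∀ v, f v ≤ 1) ∧ IsResolving G f ∧ ∑ v, f v = n}.Nonempty :=
    ⟨_, fun _ => 1, by simp, isResolving_one G, rfl⟩
  obtain ⟨f, hf1, hf, hsum⟩ := Nat.sInf_mem hne
  change ∑ v, f v = adim G at hsum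
  let S : Finset V := univ.filter fun z => f z = 1
  have hS : S.card = adim G := by
    rw [← hsum, card_filter]
    refine sum_congr rfl fun v _ => ?_
    have := hf1 v
    split_ifs with h
    · exact h.symm
    · omega
  let N : Finset V := S.biUnion fun z => insert z (univ.filter fun q => G.Adj z q)
  have hN : N.card ≤ S.card * (D + 1) := by
    refine card_biUnion_le_card_mul _ _ _ fun z _ => ?_
    refine (card_insert_le _ _).trans ?_
    have h1 : (univ.filter fun q => G.Adj z q).card = {q | G.Adj z q}.ncard := by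
      rw [← Set.ncard_coe_finset]
      congr 1
      ext q
      simp
    rw [h1]
    exact Nat.add_le_add_right (hD z) 1
  have hNc : (univ \ N).card ≤ 1 := by
    rw [card_le_one]
    intro x hx y hy
    by_contra hxy
    obtain ⟨z, hz, hne⟩ := hf x y hxy
    have hz1 : f z = 1 := le_antisymm (hf1 z) hz
    have hout : ∀ w, w ∈ univ \ N → w ≠ z ∧ ¬ G.Adj z w := by
      intro w hw
      simp only [N, S, mem_sdiff, mem_univ, true_and, mem_biUnion, mem_filter, not_exists, not_and,
        mem_insert, not_or] at hw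
      exact hw z hz1
    rw [hz1, trunc_one_eq_two (hout x hx).1 (hout x hx).2,
      trunc_one_eq_two (hout y hy).1 (hout y hy).2] at hne
    exact hne rfl
  have h3 := card_sdiff_add_card_inter univ N
  rw [univ_inter, card_univ] at h3
  rw [← hS]
  omega

theorem le_bdim_of_isolated (I : Finset V) (hI : ∀ p ∈ I, ∀ q, ¬ G.Adj p q) :
    I.card ≤ bdim G + 1 := by
  classical
  have hne : {n | ∃ f : V → ℕ, IsResolving G f ∧ ∑ v, f v = n}.Nonempty :=
    ⟨_, fun _ => 1, isResolving_one G, rfl⟩
  obtain ⟨f, hf, hsum⟩ := Nat.sInf_mem hne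
  change ∑ v, f v = bdim G at hsum
  have htop : ∀ p ∈ I, ∀ q, q ≠ p → G.edist p q = ⊤ := by
    intro p hp q hqp
    apply edist_eq_top_of_not_reachable
    rintro ⟨w⟩
    cases w with
    | nil => exact hqp rfl
    | cons h _ => exact hI p hp _ h
  have h1 : (I.filter fun p => f p = 0).card ≤ 1 := by
    rw [card_le_one]
    intro x hx y hy
    rw [mem_filter] at hx hy
    by_contra hxy
    obtain ⟨z, hz, hne⟩ := hf x y hxy
    have hzx : z ≠ x := by
      rintro rfl
      omega
    have hzy : z ≠ y := by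
      rintro rfl
      omega
    rw [trunc, trunc, htop x hx.1 z hzx, htop y hy.1 z hzy] at hne
    exact hne rfl
  have h2 : (I.filter fun p => ¬ f p = 0).card ≤ ∑ v, f v := by
    calc (I.filter fun p => ¬ f p = 0).card = ∑ p ∈ I.filter (fun p => ¬ f p = 0), 1 := by simp
      _ ≤ ∑ p ∈ I.filter (fun p => ¬ f p = 0), f p := by
        refine sum_le_sum fun p hp => ?_
        have := (mem_filter.mp hp).2
        omega
      _ ≤ ∑ v, f v := sum_le_sum_of_subset (subset_univ _)
  have h3 := card_filter_add_card_filter_not (s := I) (fun p => f p = 0)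
  omega

end General

section AddIsolated

variable {V : Type*} (G : SimpleGraph V)

/-- `G` with one isolated vertex added. -/
abbrev addIso : SimpleGraph (Option V) := G.map Function.Embedding.some

theorem addIso_adj (x y : V) : (addIso G).Adj (some x) (some y) ↔ G.Adj x y := by
  rw [addIso, SimpleGraph.map_adj]
  constructor
  · rintro ⟨a, b, h, h1, h2⟩
    cases h1
    cases h2
    exact h
  · intro h
    exact ⟨x, y, h, rfl, rfl⟩

theorem addIso_none (y : Option V) : ¬ (addIso G).Adj none y := by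
  rw [addIso, SimpleGraph.map_adj]
  rintro ⟨a, b, h, h1, h2⟩
  cases h1

theorem edist_map_le {W : Type*} {H : SimpleGraph W} (φ : G →g H) (x y : V) :
    H.edist (φ x) (φ y) ≤ G.edist x y := by
  by_cases h : G.Reachable x y
  · obtain ⟨p, hp⟩ := h.exists_walk_length_eq_edist
    rw [← hp]
    have := edist_le (p.map φ)
    rwa [Walk.length_map] at this
  · rw [edist_eq_top_of_not_reachable h]
    exact le_top

theorem edist_some (x y : V) : (addIso G).edist (some x) (some y) = G.edist x y := by
  apply le_antisymm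
  · exact edist_map_le G (H := addIso G) ⟨some, fun {a b} h => (addIso_adj G a b).mpr h⟩ x y
  · exact edist_map_le (addIso G) (H := G) ⟨fun o => o.getD x, by
      rintro (_ | a) (_ | b) h
      · exact absurd h (addIso_none G _)
      · exact absurd h (addIso_none G _)
      · exact absurd h.symm (addIso_none G _)
      · exact (addIso_adj G a b).mp h⟩ (some x) (some y)

theorem bdim_addIso [Fintype V] : bdim (addIso G) ≤ bdim G + 1 := by
  have hne : {n | ∃ f : V → ℕ, IsResolving G f ∧ ∑ v, f v = n}.Nonempty :=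
    ⟨_, fun _ => 1, isResolving_one G, rfl⟩
  obtain ⟨f, hf, hsum⟩ := Nat.sInf_mem hne
  change ∑ v, f v = bdim G at hsum
  apply Nat.sInf_le
  refine ⟨fun o => o.elim 1 f, ?_, ?_⟩
  · have h1 : ∀ y : V, trunc (addIso G) 1 none none ≠ trunc (addIso G) 1 (some y) none := by
      intro y
      exact trunc_ne (t := 0) (by simp) (by simp) (not_edist_le_zero (by simp))
    rintro (_ | x) (_ | y) hxy
    · exact absurd rfl hxy
    · exact ⟨none, by simp, h1 y⟩
    · exact ⟨none, by simp, (h1 x).symm⟩
    · obtain ⟨z, hz, hne⟩ := hf x y (fun h => hxy (by rw [h]))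
      refine ⟨some z, hz, ?_⟩
      simp only [trunc, Option.elim_some, edist_some] at hne ⊢
      exact hne
  · rw [Fintype.sum_option]
    simp only [Option.elim_none, Option.elim_some, hsum]
    ring

end AddIsolated

/-- Graphs of given lower bound on the order and upper bound on the degrees. -/
def Good (N D : ℕ) (V : Type) [Fintype V] (G : SimpleGraph V) : Prop :=
  N ≤ Fintype.card V ∧ ∀ p, {q | G.Adj p q}.ncard ≤ D

theorem Good.addIso {N D : ℕ} {V : Type} [Fintype V] {G : SimpleGraph V} (h : Good N D V G) :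
    Good N D (Option V) (addIso G) := by
  refine ⟨h.1.trans (by rw [Fintype.card_option]; omega), ?_⟩
  rintro (_ | p)
  · have : {q | (ExponentialGap.addIso G).Adj none q} = ∅ := by
      ext q
      simp only [Set.mem_ofPred_eq, Set.mem_empty_iff_false, iff_false]
      exact addIso_none G q
    rw [this]
    simp
  · have : {q | (ExponentialGap.addIso G).Adj (some p) q} = some '' {q | G.Adj p q} := by
      ext q
      rcases q with _ | q
      · simp only [Set.mem_ofPred_eq, Set.mem_image, reduceCtorEq, and_false, exists_false,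
          iff_false]
        exact fun h => addIso_none G _ h.symm
      · simp only [Set.mem_ofPred_eq, Set.mem_image, Option.some.injEq, exists_eq_right]
        exact addIso_adj G p q
    rw [this, Set.ncard_image_of_injective _ (Option.some_injective _)]
    exact h.2 p

theorem exists_bdim_eq {N D k : ℕ} {V : Type} [Fintype V] {G : SimpleGraph V}
    (h : Good N D V G) (hk : bdim G ≤ k) :
    ∃ (W : Type) (_ : Fintype W) (H : SimpleGraph W), Good N D W H ∧ bdim H = k := by
  by_contra hcon
  have key : ∀ t : ℕ, ∃ (W : Type) (_ : Fintype W) (H : SimpleGraph W), Good N D W H ∧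
      bdim H < k ∧ ∃ I : Finset W, (∀ p ∈ I, ∀ q, ¬ H.Adj p q) ∧ t ≤ I.card := by
    intro t
    induction t with
    | zero =>
      refine ⟨V, inferInstance, G, h, lt_of_le_of_ne hk ?_, ∅, by simp, by simp⟩
      intro he
      exact hcon ⟨V, inferInstance, G, h, he⟩
    | succ t ih =>
      obtain ⟨W, inst, H, hH, hb, I, hI, hIt⟩ := ih
      refine ⟨Option W, inferInstance, ExponentialGap.addIso H, hH.addIso, ?_, ?_⟩
      · have h1 := bdim_addIso H
        refine lt_of_le_of_ne (by omega) ?_
        intro he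
        exact hcon ⟨Option W, inferInstance, _, hH.addIso, he⟩
      · refine ⟨insertNone I, ?_, ?_⟩
        · intro p hp q
          rcases p with _ | p
          · exact addIso_none H q
          · rw [some_mem_insertNone] at hp
            rcases q with _ | q
            · exact fun h => addIso_none H _ h.symm
            · rw [addIso_adj]
              exact hI p hp q
        · rw [card_insertNone]
          omega
  obtain ⟨W, inst, H, -, hb, I, hI, hIt⟩ := key (k + 1)
  have := le_bdim_of_isolated I hI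
  omega

section Construction

/-- Nonzero `0`-`1` vectors of length `h`. -/
abbrev U (h : ℕ) : Type := {u : Fin h → Bool // u ≠ fun _ => false}

/-- The vertices: `x ∈ U × U`, `y_{b,u}`, `z_{b,i}`. -/
abbrev Vx (h : ℕ) : Type := (Bool → U h) ⊕ ((Bool × U h) ⊕ (Bool × Fin h))

/-- The oriented edges. -/
def rel (h : ℕ) : Vx h → Vx h → Prop
  | Sum.inl x, Sum.inr (Sum.inl y) => x y.1 = y.2
  | Sum.inr (Sum.inl y), Sum.inr (Sum.inr z) => y.1 = z.1 ∧ y.2.1 z.2 = true
  | _, _ => False

/-- The graph. -/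
def gr (h : ℕ) : SimpleGraph (Vx h) := SimpleGraph.fromRel (rel h)

variable {h : ℕ}

theorem adj_xx (x x' : Bool → U h) : ¬ (gr h).Adj (Sum.inl x) (Sum.inl x') := by
  simp [gr, rel]

theorem adj_xy (x : Bool → U h) (y : Bool × U h) :
    (gr h).Adj (Sum.inl x) (Sum.inr (Sum.inl y)) ↔ x y.1 = y.2 := by
  simp [gr, rel]

theorem adj_xz (x : Bool → U h) (z : Bool × Fin h) :
    ¬ (gr h).Adj (Sum.inl x) (Sum.inr (Sum.inr z)) := by
  simp [gr, rel]

theorem adj_yy (y y' : Bool × U h) :
    ¬ (gr h).Adj (Sum.inr (Sum.inl y)) (Sum.inr (Sum.inl y')) := by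
  simp [gr, rel]

theorem adj_yz (y : Bool × U h) (z : Bool × Fin h) :
    (gr h).Adj (Sum.inr (Sum.inl y)) (Sum.inr (Sum.inr z)) ↔ y.1 = z.1 ∧ y.2.1 z.2 = true := by
  simp [gr, rel]

theorem adj_zz (z z' : Bool × Fin h) :
    ¬ (gr h).Adj (Sum.inr (Sum.inr z)) (Sum.inr (Sum.inr z')) := by
  simp [gr, rel]

/-- Distance at most two from `x` to `z_{b,i}`. -/
theorem edist_xz_le (x : Bool → U h) (z : Bool × Fin h) (hx : (x z.1).1 z.2 = true) :
    (gr h).edist (Sum.inl x) (Sum.inr (Sum.inr z)) ≤ (2 : ℕ) := by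
  have h1 : (gr h).Adj (Sum.inl x) (Sum.inr (Sum.inl (z.1, x z.1))) := (adj_xy _ _).mpr rfl
  have h2 : (gr h).Adj (Sum.inr (Sum.inl (z.1, x z.1))) (Sum.inr (Sum.inr z)) :=
    (adj_yz _ _).mpr ⟨rfl, hx⟩
  exact edist_le (Walk.cons h1 (Walk.cons h2 Walk.nil))

theorem edist_xz_not_le (x : Bool → U h) (z : Bool × Fin h) (hx : (x z.1).1 z.2 = false) :
    ¬ (gr h).edist (Sum.inl x) (Sum.inr (Sum.inr z)) ≤ (2 : ℕ) := by
  intro hle
  have hr : (gr h).Reachable (Sum.inl x) (Sum.inr (Sum.inr z)) := by
    rw [← edist_ne_top_iff_reachable]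
    intro ht
    rw [ht] at hle
    exact absurd hle (by simp)
  obtain ⟨p, hp⟩ := hr.exists_walk_length_eq_edist
  rw [← hp] at hle
  have hle' : p.length ≤ 2 := by exact_mod_cast hle
  cases p with
  | cons e1 q =>
    cases q with
    | nil => exact adj_xz _ _ e1
    | @cons _ m _ e2 r =>
      cases r with
      | cons e3 s =>
        simp only [Walk.length_cons] at hle'
        omega
      | nil =>
        rename_i m
        rcases m with m | m | m
        · exact adj_xx _ _ e1
        · rw [adj_xy] at e1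
          rw [adj_yz] at e2
          rw [← e2.1, e1, e2.2] at hx
          exact absurd hx (by simp)
        · exact adj_xz _ _ e1

/-- The broadcast with value `2` on every `z_{b,i}`. -/
def bc (h : ℕ) : Vx h → ℕ
  | Sum.inr (Sum.inr _) => 2
  | _ => 0

theorem exists_bit (u : U h) : ∃ i, u.1 i = true := by
  by_contra hcon
  apply u.2
  funext i
  by_contra hi
  exact hcon ⟨i, by simpa using hi⟩

theorem exists_bit_ne {u v : U h} (huv : u ≠ v) : ∃ i, u.1 i ≠ v.1 i := by
  by_contra hcon
  push Not at hcon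
  exact huv (Subtype.ext (funext hcon))

theorem resolving_bc : IsResolving (gr h) (bc h) := by
  have zsep : ∀ (z : Bool × Fin h) (p : Vx h), p ≠ Sum.inr (Sum.inr z) →
      trunc (gr h) 2 (Sum.inr (Sum.inr z)) (Sum.inr (Sum.inr z)) ≠
        trunc (gr h) 2 p (Sum.inr (Sum.inr z)) := by
    intro z p hp
    exact trunc_ne (t := 0) (by simp) (by simp) (not_edist_le_zero hp)
  have hy1 : ∀ (y : Bool × U h) (z : Bool × Fin h), y.1 = z.1 → y.2.1 z.2 = true →
      (gr h).edist (Sum.inr (Sum.inl y)) (Sum.inr (Sum.inr z)) ≤ (1 : ℕ) := by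
    intro y z h1 h2
    have := (edist_eq_one_iff_adj (G := gr h)).mpr ((adj_yz y z).mpr ⟨h1, h2⟩)
    rw [this]
    simp
  have hnot1 : ∀ (p : Vx h) (z : Bool × Fin h), p ≠ Sum.inr (Sum.inr z) →
      ¬ (gr h).Adj p (Sum.inr (Sum.inr z)) → ¬ (gr h).edist p (Sum.inr (Sum.inr z)) ≤ (1 : ℕ) := by
    intro p z h1 h2 h3
    have h3' : (gr h).edist p (Sum.inr (Sum.inr z)) ≤ 1 := by exact_mod_cast h3
    rw [edist_le_one_iff_adj_or_eq] at h3'
    tauto
  have xy : ∀ (x : Bool → U h) (y : Bool × U h), ∃ z : Bool × Fin h,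
      trunc (gr h) 2 (Sum.inr (Sum.inl y)) (Sum.inr (Sum.inr z)) ≠
        trunc (gr h) 2 (Sum.inl x) (Sum.inr (Sum.inr z)) := by
    intro x y
    obtain ⟨i, hi⟩ := exists_bit y.2
    exact ⟨(y.1, i), trunc_ne (t := 1) (by simp) (hy1 y (y.1, i) rfl hi)
      (hnot1 _ _ (by simp) (adj_xz _ _))⟩
  rintro (x | y | z) (x' | y' | z') hne
  · -- two `x`
    obtain ⟨b, hb⟩ : ∃ b, x b ≠ x' b := by
      by_contra hcon
      push Not at hcon
      exact hne (by rw [funext hcon])
    obtain ⟨i, hi⟩ := exists_bit_ne hb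
    refine ⟨Sum.inr (Sum.inr (b, i)), by simp [bc], ?_⟩
    change trunc (gr h) 2 _ _ ≠ trunc (gr h) 2 _ _
    cases h1 : (x b).1 i with
    | true =>
      have h2 : (x' b).1 i = false := by
        cases h3 : (x' b).1 i with
        | true => exact absurd (h1.trans h3.symm) hi
        | false => rfl
      exact trunc_ne (t := 2) le_rfl (edist_xz_le x (b, i) h1) (edist_xz_not_le x' (b, i) h2)
    | false =>
      have h2 : (x' b).1 i = true := by
        cases h3 : (x' b).1 i with
        | true => rfl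
        | false => exact absurd (h1.trans h3.symm) hi
      exact (trunc_ne (t := 2) le_rfl (edist_xz_le x' (b, i) h2)
        (edist_xz_not_le x (b, i) h1)).symm
  · obtain ⟨z, hz⟩ := xy x y'
    exact ⟨Sum.inr (Sum.inr z), by simp [bc], hz.symm⟩
  · exact ⟨Sum.inr (Sum.inr z'), by simp [bc], (zsep z' _ hne).symm⟩
  · obtain ⟨z, hz⟩ := xy x' y
    exact ⟨Sum.inr (Sum.inr z), by simp [bc], hz⟩
  · -- two `y`
    have hyy : ∃ z : Bool × Fin h, (y.1 = z.1 ∧ y.2.1 z.2 = true) ∧ ¬ (y'.1 = z.1 ∧ y'.2.1 z.2 = true)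
        ∨ (y'.1 = z.1 ∧ y'.2.1 z.2 = true) ∧ ¬ (y.1 = z.1 ∧ y.2.1 z.2 = true) := by
      by_cases hb : y.1 = y'.1
      · have hu : y.2 ≠ y'.2 := by
          intro hu
          exact hne (by rw [Prod.ext hb hu])
        obtain ⟨i, hi⟩ := exists_bit_ne hu
        refine ⟨(y.1, i), ?_⟩
        by_cases h1 : y.2.1 i = true
        · exact Or.inl ⟨⟨rfl, h1⟩, fun h2 => hi (h1.trans h2.2.symm)⟩
        · refine Or.inr ⟨⟨hb.symm, ?_⟩, fun h2 => h1 h2.2⟩
          by_contra h2
          simp only [Bool.not_eq_true] at h1 h2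
          exact hi (h1.trans h2.symm)
      · obtain ⟨i, hi⟩ := exists_bit y.2
        exact ⟨(y.1, i), Or.inl ⟨⟨rfl, hi⟩, fun h => hb h.1.symm⟩⟩
    obtain ⟨z, hz | hz⟩ := hyy
    · refine ⟨Sum.inr (Sum.inr z), by simp [bc], ?_⟩
      exact trunc_ne (t := 1) (by simp [bc]) (hy1 y z hz.1.1 hz.1.2)
        (hnot1 _ _ (by simp) (fun h => hz.2 ((adj_yz _ _).mp h)))
    · refine ⟨Sum.inr (Sum.inr z), by simp [bc], ?_⟩
      exact (trunc_ne (t := 1) (by simp [bc]) (hy1 y' z hz.1.1 hz.1.2)
        (hnot1 _ _ (by simp) (fun h => hz.2 ((adj_yz _ _).mp h)))).symm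
  · exact ⟨Sum.inr (Sum.inr z'), by simp [bc], (zsep z' _ hne).symm⟩
  · exact ⟨Sum.inr (Sum.inr z), by simp [bc], zsep z _ hne.symm⟩
  · exact ⟨Sum.inr (Sum.inr z), by simp [bc], zsep z _ hne.symm⟩
  · exact ⟨Sum.inr (Sum.inr z), by simp [bc], zsep z _ hne.symm⟩

theorem bdim_gr (h : ℕ) : bdim (gr h) ≤ 4 * h := by
  apply Nat.sInf_le
  refine ⟨bc h, resolving_bc, ?_⟩
  simp [bc, Fintype.sum_sum_type]
  ring

theorem card_U (h : ℕ) : Fintype.card (U h) = 2 ^ h - 1 := by
  have := Set.card_ne_eq (fun _ : Fin h => false)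
  have h2 : Fintype.card (Fin h → Bool) = 2 ^ h := by simp
  rw [h2] at this
  rw [← this]
  exact Fintype.card_congr (Equiv.refl _)

theorem good_gr (h : ℕ) : Good ((2 ^ h - 1) ^ 2) (2 ^ h + h + 1) (Vx h) (gr h) := by
  have hpos : 1 ≤ 2 ^ h := Nat.one_le_two_pow
  constructor
  · rw [Fintype.card_sum]
    refine le_trans ?_ (Nat.le_add_right _ _)
    rw [Fintype.card_fun, card_U, Fintype.card_bool]
  · rintro (x | y | z)
    · have hsub : {q | (gr h).Adj (Sum.inl x) q} ⊆
          (univ.image fun b : Bool => (Sum.inr (Sum.inl (b, x b)) : Vx h) : Finset (Vx h)) := by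
        rintro (x' | y | z) hq
        · exact absurd hq (adj_xx _ _)
        · have := (adj_xy _ _).mp hq
          simp only [coe_image, coe_univ, Set.image_univ, Set.mem_range, Sum.inr.injEq,
            Sum.inl.injEq]
          exact ⟨y.1, by rw [this]⟩
        · exact absurd hq (adj_xz _ _)
      have h1 := Set.ncard_le_ncard hsub (Finset.finite_toSet _)
      rw [Set.ncard_coe_finset] at h1
      have h2 : (univ.image fun b : Bool => (Sum.inr (Sum.inl (b, x b)) : Vx h)).card ≤ 2 :=
        card_image_le.trans (by simp)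
      omega
    · have hsub : {q | (gr h).Adj (Sum.inr (Sum.inl y)) q} ⊆
          ((univ.image fun u : U h => (Sum.inl (Function.update (fun _ => y.2) (!y.1) u) : Vx h)) ∪
          (univ.image fun i : Fin h => (Sum.inr (Sum.inr (y.1, i)) : Vx h)) : Finset (Vx h)) := by
        rintro (x' | y' | z) hq
        · have := (adj_xy _ _).mp hq.symm
          simp only [coe_union, coe_image, coe_univ, Set.image_univ, Set.mem_union, Set.mem_range,
            Sum.inl.injEq]
          left
          refine ⟨x' (!y.1), ?_⟩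
          funext b
          by_cases hb : b = !y.1
          · subst hb
            simp
          · have hb' : b = y.1 := by
              cases b <;> cases hy : y.1 <;> simp_all
            subst hb'
            simp [this]
        · exact absurd hq (adj_yy _ _)
        · have := (adj_yz _ _).mp hq
          simp only [coe_union, coe_image, coe_univ, Set.image_univ, Set.mem_union, Set.mem_range,
            Sum.inr.injEq]
          right
          exact ⟨z.2, Prod.ext this.1 rfl⟩
      have h1 := Set.ncard_le_ncard hsub (Finset.finite_toSet _)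
      rw [Set.ncard_coe_finset] at h1
      have h2 : (univ.image fun u : U h =>
          (Sum.inl (Function.update (fun _ => y.2) (!y.1) u) : Vx h)).card ≤ 2 ^ h - 1 :=
        card_image_le.trans (by rw [card_univ, card_U])
      have h3 : (univ.image fun i : Fin h => (Sum.inr (Sum.inr (y.1, i)) : Vx h)).card ≤ h :=
        card_image_le.trans (by simp)
      have h4 := card_union_le (univ.image fun u : U h =>
          (Sum.inl (Function.update (fun _ => y.2) (!y.1) u) : Vx h))
          (univ.image fun i : Fin h => (Sum.inr (Sum.inr (y.1, i)) : Vx h))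
      omega
    · have hsub : {q | (gr h).Adj (Sum.inr (Sum.inr z)) q} ⊆
          (univ.image fun u : U h => (Sum.inr (Sum.inl (z.1, u)) : Vx h) : Finset (Vx h)) := by
        rintro (x' | y | z') hq
        · exact absurd hq.symm (adj_xz _ _)
        · have := (adj_yz _ _).mp hq.symm
          simp only [coe_image, coe_univ, Set.image_univ, Set.mem_range, Sum.inr.injEq,
            Sum.inl.injEq]
          exact ⟨y.2, Prod.ext this.1.symm rfl⟩
        · exact absurd hq (adj_zz _ _)
      have h1 := Set.ncard_le_ncard hsub (Finset.finite_toSet _)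
      rw [Set.ncard_coe_finset] at h1
      have h2 : (univ.image fun u : U h => (Sum.inr (Sum.inl (z.1, u)) : Vx h)).card ≤ 2 ^ h - 1 :=
        card_image_le.trans (by rw [card_univ, card_U])
      omega

end Construction

/-- Powers beat linear functions. -/
theorem pow_bound (h : ℕ) : h + 2 ≤ 2 ^ (h + 1) := by
  induction h with
  | zero => norm_num
  | succ h ih =>
    rw [pow_succ]
    omega

/-- The adjacency dimension of good graphs. -/
theorem adim_bound {h : ℕ} {W : Type} [Fintype W] {H : SimpleGraph W}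
    (hH : Good ((2 ^ (h + 2) - 1) ^ 2) (2 ^ (h + 2) + (h + 2) + 1) W H) : 2 ^ h ≤ adim H := by
  have h1 := card_le_adim hH.2
  have h2 := hH.1
  have h3 := pow_bound h
  have h3' : 2 ^ (h + 2) = 4 * 2 ^ h := by ring
  have h3'' : 2 ^ (h + 1) = 2 * 2 ^ h := by ring
  have hpos : 1 ≤ 2 ^ h := Nat.one_le_two_pow
  by_contra hcon
  rw [not_le] at hcon
  obtain ⟨a, ha⟩ : ∃ a, 2 ^ h = a + 1 := ⟨2 ^ h - 1, by omega⟩
  rw [h3', ha] at h1 h2
  rw [h3'', ha] at h3
  rw [ha] at hcon
  have h5 : 4 * (a + 1) - 1 = 4 * a + 3 := by omega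
  rw [h5] at h2
  have h4 : adim H * (4 * (a + 1) + (h + 2) + 1 + 1) ≤ a * (8 * (a + 1)) := by
    apply Nat.mul_le_mul
    · omega
    · omega
  nlinarith

/-- There is a sequence of finite graphs `G_k`, `k ≥ 1`, with `bdim G_k = k` for every `k ≥ 1` and
`adim G_k ≥ 2 ^ (c k)` for all `k > N`, for some `c > 0` and `N`. -/
theorem result : ∃ (V : ℕ → Type) (_ : ∀ k, Fintype (V k)) (G : ∀ k, SimpleGraph (V k)),
    (∀ k, 1 ≤ k → bdim (G k) = k) ∧
    ∃ c : ℝ, 0 < c ∧ ∃ N : ℕ, ∀ k : ℕ, N < k → (2 : ℝ) ^ (c * k) ≤ adim (G k) := by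
  have key : ∀ k : ℕ, ∃ (W : Type) (_ : Fintype W) (H : SimpleGraph W),
      Good ((2 ^ (k / 4) - 1) ^ 2) (2 ^ (k / 4) + k / 4 + 1) W H ∧ bdim H = k := by
    intro k
    refine exists_bdim_eq (good_gr (k / 4)) ((bdim_gr _).trans ?_)
    omega
  choose V inst G hG hb using key
  refine ⟨V, inst, G, fun k _ => hb k, 1 / 8, by norm_num, 24, fun k hk => ?_⟩
  obtain ⟨h, hh⟩ : ∃ h, k / 4 = h + 2 := ⟨k / 4 - 2, by omega⟩
  have h1 := hG k
  rw [hh] at h1
  have h2 := adim_bound h1
  have h3 : (2 : ℝ) ^ (h : ℝ) ≤ adim (G k) := by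
    rw [Real.rpow_natCast]
    exact_mod_cast h2
  refine le_trans ?_ h3
  apply Real.rpow_le_rpow_of_exponent_le (by norm_num)
  have h4 : k ≤ 8 * h := by omega
  have h5 : (k : ℝ) ≤ 8 * h := by exact_mod_cast h4
  linarith

end Pool.Agent.Results.MP_d61170_co.ExponentialGap
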