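import Pool.Agent.Q197.PS.GC

/-! # Chowla's conjecture for polynomial values along random unions of residue classes

Points of `ℤ ^ h` are functions `Fin h → ℤ`; the box of size `X` is the set of the points with coordinates between
`-X` and `X`; a residue class modulo `P` is given by coordinates between `0` and `P - 1`. -/

set_option autoImplicit false

open Finset Filter Topology

namespace Pool.Agent.Results.MP_d639b3_nt.UnionsOfClasses

open Q197.PS

/-- The box. -/
noncomputable def box (h X : ℕ) : Finset (Fin h → ℤ) := Fintype.piFinset (fun _ => Icc (-(X : ℤ)) X)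

/-- The residues modulo `P` of the coordinates. -/
def res {h : ℕ} (P : ℕ) (v : Fin h → ℤ) : Fin h → ℤ := fun i => v i % (P : ℤ)

/-- The set of the residue classes modulo `P`. -/
noncomputable def classes (h P : ℕ) : Finset (Fin h → ℤ) := Fintype.piFinset (fun _ => Ico 0 (P : ℤ))

open Classical in
/-- The sum of `F` over the points of the box with residue class in `A`, divided by `X ^ h`. -/
noncomputable def S {h : ℕ} (F : (Fin h → ℤ) → ℝ) (P : ℕ) (A : Finset (Fin h → ℤ)) (X : ℕ) : ℝ :=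
  (∑ v ∈ (box h X).filter (fun v => res P v ∈ A), F v) / (X : ℝ) ^ h

open Classical in
/-- The number of the sets `A` of residue classes modulo `P` along which the mean tends to zero. -/
noncomputable def good {h : ℕ} (F : (Fin h → ℤ) → ℝ) (P : ℕ) : ℕ :=
  ((classes h P).powerset.filter (fun A => Tendsto (S F P A) atTop (𝓝 0))).card

lemma card_classes (h P : ℕ) : (classes h P).card = P ^ h := by
  unfold classes
  rw [Fintype.card_piFinset]
  simp

lemma classes_nonempty (h : ℕ) {P : ℕ} (hP : 0 < P) : (classes h P).Nonempty := by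
  rw [← card_pos, card_classes]
  positivity

/-- the terms of the array -/
noncomputable def tt {h : ℕ} (F : (Fin h → ℤ) → ℝ) (X : ℕ) (v : Fin h → ℤ) : ℂ := ((F v / (X : ℝ) ^ h : ℝ) : ℂ)

lemma sG_tt {h : ℕ} (F : (Fin h → ℤ) → ℝ) (P : ℕ) (A : Finset (Fin h → ℤ)) (X : ℕ) :
    sG (fun X : ℕ => box h X) (tt F) (res P) A X = ((S F P A X : ℝ) : ℂ) := by
  classical
  unfold sG S tt
  push_cast
  rw [sum_div]
  exact sum_congr (by ext x; simp only [mem_filter]) fun _ _ => rfl

lemma zero_iff {h : ℕ} (F : (Fin h → ℤ) → ℝ) (P : ℕ) (A : Finset (Fin h → ℤ)) :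
    Tendsto (sG (fun X : ℕ => box h X) (tt F) (res P) A) atTop (𝓝 0) ↔ Tendsto (S F P A) atTop (𝓝 0) := by
  have h1 : sG (fun X : ℕ => box h X) (tt F) (res P) A = fun X => ((S F P A X : ℝ) : ℂ) :=
    funext fun X => sG_tt F P A X
  rw [h1]
  constructor
  · intro h2
    have h3 := (Complex.continuous_re.tendsto 0).comp h2
    rw [Complex.zero_re] at h3
    exact h3.congr fun X => by simp only [Function.comp_apply, Complex.ofReal_re]
  · intro h2
    have h3 := (Complex.continuous_ofReal.tendsto 0).comp h2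
    rw [Complex.ofReal_zero] at h3
    exact h3

lemma good_eq {h : ℕ} (F : (Fin h → ℤ) → ℝ) (P : ℕ) :
    good F P = nG atTop (fun X : ℕ => box h X) (tt F) (res P) (classes h P) := by
  classical
  unfold good nG
  simp only [zero_iff]

lemma card_interval {P : ℕ} (hP : 0 < P) (X : ℕ) (j : ℤ) :
    (((Icc (-(X : ℤ)) X).filter (fun n => n % (P : ℤ) = j)).card : ℝ) ≤ (2 * X + 1) / P + 1 := by
  have hPz : (0 : ℤ) < P := by exact_mod_cast hP
  have hPr : (0 : ℝ) < P := by exact_mod_cast hP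
  by_cases hj : 0 ≤ j ∧ j < P
  · have h1 : (Icc (-(X : ℤ)) X).filter (fun n => n % (P : ℤ) = j) ⊆
        (Icc (⌈(((-(X : ℤ)) - j : ℤ) : ℝ) / P⌉) (⌊(((X : ℤ) - j : ℤ) : ℝ) / P⌋)).image (fun m : ℤ => j + P * m) := by
      intro n hn
      rw [mem_filter, mem_Icc] at hn
      obtain ⟨⟨h1, h2⟩, h3⟩ := hn
      rw [mem_image]
      have h4 : j + P * (n / P) = n := by
        rw [← h3]
        exact Int.emod_add_mul_ediv n P
      refine ⟨n / P, ?_, h4⟩
      have h5 : (P : ℤ) * (n / P) = n - j := by linarith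
      have h6 : (P : ℝ) * ((n / P : ℤ) : ℝ) = ((n - j : ℤ) : ℝ) := by
        rw [← h5]
        push_cast
        ring
      rw [mem_Icc]
      constructor
      · rw [Int.ceil_le, div_le_iff₀ hPr, mul_comm, h6]
        exact_mod_cast (by linarith : -(X : ℤ) - j ≤ n - j)
      · rw [Int.le_floor, le_div_iff₀ hPr, mul_comm, h6]
        exact_mod_cast (by linarith : n - j ≤ (X : ℤ) - j)
    have h2 := (card_le_card h1).trans card_image_le
    rw [Int.card_Icc] at h2
    have h3 : (((⌊(((X : ℤ) - j : ℤ) : ℝ) / P⌋ + 1 - ⌈(((-(X : ℤ)) - j : ℤ) : ℝ) / P⌉).toNat : ℕ) : ℝ) ≤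
        (2 * X + 1) / P + 1 := by
      have h4 : ((⌊(((X : ℤ) - j : ℤ) : ℝ) / P⌋ : ℤ) : ℝ) ≤ ((X : ℤ) - j : ℤ) / (P : ℝ) := Int.floor_le _
      have h5 : (((-(X : ℤ)) - j : ℤ) : ℝ) / P ≤ (⌈(((-(X : ℤ)) - j : ℤ) : ℝ) / P⌉ : ℤ) := Int.le_ceil _
      have h6 : (0 : ℝ) ≤ (2 * X + 1) / P + 1 := by positivity
      rcases le_or_gt 0 (⌊(((X : ℤ) - j : ℤ) : ℝ) / P⌋ + 1 - ⌈(((-(X : ℤ)) - j : ℤ) : ℝ) / P⌉) with h7 | h7
      · have h8 : (((⌊(((X : ℤ) - j : ℤ) : ℝ) / P⌋ + 1 - ⌈(((-(X : ℤ)) - j : ℤ) : ℝ) / P⌉).toNat : ℕ) : ℝ) =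
            ((⌊(((X : ℤ) - j : ℤ) : ℝ) / P⌋ + 1 - ⌈(((-(X : ℤ)) - j : ℤ) : ℝ) / P⌉ : ℤ) : ℝ) := by
          have := Int.toNat_of_nonneg h7
          exact_mod_cast this
        rw [h8]
        push_cast at h4 h5 ⊢
        have h9 : ((X : ℝ) - j) / P - (-(X : ℝ) - j) / P = 2 * X / P := by
          field_simp
          ring
        have h10 : 2 * (X : ℝ) / P ≤ (2 * X + 1) / P := by gcongr; linarith
        linarith
      · rw [Int.toNat_eq_zero.2 h7.le]
        exact_mod_cast h6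
    exact le_trans (by exact_mod_cast h2) h3
  · have h1 : (Icc (-(X : ℤ)) X).filter (fun n => n % (P : ℤ) = j) = ∅ := by
      rw [filter_eq_empty_iff]
      intro n _ h2
      exact hj ⟨by rw [← h2]; exact Int.emod_nonneg _ hPz.ne', by rw [← h2]; exact Int.emod_lt_of_pos _ hPz⟩
    rw [h1, card_empty, Nat.cast_zero]
    positivity

lemma card_class {h : ℕ} {P : ℕ} (hP : 0 < P) {X : ℕ} (hX : P ≤ X) (j : Fin h → ℤ) :
    (((box h X).filter (fun v => res P v = j)).card : ℝ) ≤ (4 * X / P) ^ h := by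
  have hPr : (0 : ℝ) < P := by exact_mod_cast hP
  have h1 : (box h X).filter (fun v => res P v = j) =
      Fintype.piFinset (fun i => (Icc (-(X : ℤ)) X).filter (fun n => n % (P : ℤ) = j i)) := by
    ext v
    unfold box res
    simp only [mem_filter, Fintype.mem_piFinset, funext_iff]
    exact ⟨fun h i => ⟨h.1 i, h.2 i⟩, fun h => ⟨fun i => (h i).1, fun i => (h i).2⟩⟩
  rw [h1, Fintype.card_piFinset]
  push_cast
  calc ∏ i : Fin h, (((Icc (-(X : ℤ)) X).filter (fun n => n % (P : ℤ) = j i)).card : ℝ)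
      ≤ ∏ _i : Fin h, (4 * X / P : ℝ) := by
        refine prod_le_prod (fun i _ => Nat.cast_nonneg _) fun i _ => ?_
        refine (card_interval hP X (j i)).trans ?_
        have hXr : (P : ℝ) ≤ X := by exact_mod_cast hX
        have hP1 : (1 : ℝ) ≤ P := by exact_mod_cast hP
        rw [div_add_one hPr.ne', div_le_div_iff_of_pos_right hPr]
        linarith
    _ = (4 * X / P) ^ h := by rw [prod_const, card_univ, Fintype.card_fin]

/-- **Few good unions** -/
theorem few {h : ℕ} {F : (Fin h → ℤ) → ℝ} (hF : ∀ v, |F v| ≤ 1) {c : ℝ} (hc : 0 < c) (q : ℕ)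
    (B : Finset (Fin h → ℤ)) (hfr : ∃ᶠ X : ℕ in atTop, c ≤ |S F q B X|) {P : ℕ} (hP : 0 < P) (hd : q ∣ P) :
    (good F P : ℝ) ≤ 54 * 4 ^ h * (1 + 1 / c) * 2 ^ (P ^ h) / √((P : ℝ) ^ h) := by
  classical
  have hPr : (0 : ℝ) < P := by exact_mod_cast hP
  rw [good_eq]
  have h1 := few_gen (l := (atTop : Filter ℕ)) (classes h P) (classes_nonempty h hP) (fun X : ℕ => box h X) (tt F)
    (res P) (B := 4 ^ h) (c := c) (one_le_pow₀ (by norm_num)) hc ?_
    (K' := (classes h P).filter (fun v => res q v ∈ B)) (filter_subset _ _) ?_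
  · rw [card_classes] at h1
    push_cast at h1
    exact h1
  · filter_upwards [eventually_ge_atTop P] with X hX j _
    have hXr : (0 : ℝ) < X := lt_of_lt_of_le hPr (by exact_mod_cast hX)
    refine le_trans (le_of_eq (sum_congr (s₂ := (box h X).filter (fun v => res P v = j)) (by ext x; simp only [mem_filter])
      fun _ _ => rfl)) ?_
    calc ∑ v ∈ (box h X).filter (fun v => res P v = j), ‖tt F X v‖
        ≤ ∑ v ∈ (box h X).filter (fun v => res P v = j), 1 / (X : ℝ) ^ h := by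
          refine sum_le_sum fun v _ => ?_
          unfold tt
          rw [Complex.norm_real, Real.norm_eq_abs, abs_div, abs_of_pos (by positivity : (0 : ℝ) < (X : ℝ) ^ h)]
          gcongr
          exact hF v
      _ = (((box h X).filter (fun v => res P v = j)).card : ℝ) * (1 / (X : ℝ) ^ h) := by
          rw [sum_const, nsmul_eq_mul]
      _ ≤ (4 * X / P) ^ h * (1 / (X : ℝ) ^ h) := by
          gcongr
          refine le_trans (le_of_eq ?_) (card_class hP hX j)
          congr 2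
      _ = 4 ^ h / ((classes h P).card : ℝ) := by
          rw [card_classes]
          push_cast
          rw [div_pow, mul_pow]
          field_simp
  · refine hfr.mono fun X hX => ?_
    have h2 : S F P ((classes h P).filter (fun v => res q v ∈ B)) X = S F q B X := by
      unfold S
      congr 2
      ext v
      simp only [mem_filter]
      refine and_congr_right fun _ => ?_
      have h3 : res q (res P v) = res q v := by
        funext i
        unfold res
        exact Int.emod_emod_of_dvd _ (by exact_mod_cast hd)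
      rw [h3]
      constructor
      · exact fun h => h.2
      · intro h
        refine ⟨?_, h⟩
        unfold classes res
        rw [Fintype.mem_piFinset]
        intro i
        have hPz : (0 : ℤ) < P := by exact_mod_cast hP
        rw [mem_Ico]
        exact ⟨Int.emod_nonneg _ hPz.ne', Int.emod_lt_of_pos _ hPz⟩
    rw [sG_tt, h2, Complex.norm_real]
    exact hX

lemma not_zero {a : ℕ → ℝ} (h : ¬ Tendsto a atTop (𝓝 0)) : ∃ c : ℝ, 0 < c ∧ ∃ᶠ i in atTop, c ≤ |a i| := by
  by_contra hcon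
  push Not at hcon
  apply h
  rw [Metric.tendsto_nhds]
  intro ε hε
  filter_upwards [hcon ε hε] with i hi
  rw [Real.dist_eq, sub_zero]
  exact hi

theorem of_share {h : ℕ} {F : (Fin h → ℤ) → ℝ} (hF : ∀ v, |F v| ≤ 1) (q : ℕ) (B : Finset (Fin h → ℤ))
    (hs : ∀ K : ℝ, ∃ P : ℕ, 0 < P ∧ q ∣ P ∧ K * 2 ^ (P ^ h) / √((P : ℝ) ^ h) ≤ good F P) :
    Tendsto (S F q B) atTop (𝓝 0) := by
  by_contra hcon
  obtain ⟨c, hc, hfr⟩ := not_zero hcon
  obtain ⟨P, hP, hd, h1⟩ := hs (54 * 4 ^ h * (1 + 1 / c) + 1)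
  have h2 := h1.trans (few hF hc q B hfr hP hd)
  have hPr : (0 : ℝ) < P := by exact_mod_cast hP
  rw [div_le_div_iff_of_pos_right (Real.sqrt_pos.2 (by positivity))] at h2
  have h3 : (0 : ℝ) < 2 ^ (P ^ h) := by positivity
  nlinarith

lemma S_sum {h : ℕ} (F : (Fin h → ℤ) → ℝ) (P : ℕ) (A : Finset (Fin h → ℤ)) (X : ℕ) :
    S F P A X = ∑ j ∈ A, S F P {j} X := by
  classical
  have h1 := sG_eq (fun X : ℕ => box h X) (tt F) (res P) A X
  have h2 : ∀ j ∈ A, ∑ x ∈ (box h X).filter (fun x => res P x = j), tt F X x = ((S F P {j} X : ℝ) : ℂ) := by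
    intro j _
    rw [← sG_tt]
    unfold sG
    congr 1
    ext v
    simp only [mem_filter, mem_singleton]
  rw [sG_tt] at h1
  have h3 : ((S F P A X : ℝ) : ℂ) = ((∑ j ∈ A, S F P {j} X : ℝ) : ℂ) := by
    rw [h1]
    push_cast
    refine Eq.trans (sum_congr rfl fun j hj => ?_) (sum_congr rfl h2)
    exact sum_congr (by ext x; simp only [mem_filter]) fun _ _ => rfl
  exact_mod_cast h3

/-- all classes: equivalence -/
theorem classes_iff' {h : ℕ} (hh : 0 < h) {F : (Fin h → ℤ) → ℝ} (hF : ∀ v, |F v| ≤ 1) :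
    (∀ q : ℕ, 0 < q → ∀ j ∈ classes h q, Tendsto (S F q {j}) atTop (𝓝 0)) ↔
      ∀ q : ℕ, 0 < q → ∀ K : ℝ, ∃ P : ℕ, 0 < P ∧ q ∣ P ∧ K * 2 ^ (P ^ h) / √((P : ℝ) ^ h) ≤ good F P := by
  classical
  constructor
  · intro h1 q hq K
    obtain ⟨m, hm⟩ := exists_nat_gt (K ^ 2)
    have hm1 : (0 : ℝ) < m := lt_of_le_of_lt (sq_nonneg K) hm
    have hm2 : 0 < m := by exact_mod_cast hm1
    have hP : 0 < q * m := Nat.mul_pos hq hm2
    refine ⟨q * m, hP, dvd_mul_right _ _, ?_⟩
    have h2 : good F (q * m) = 2 ^ ((q * m) ^ h) := by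
      unfold good
      rw [filter_true_of_mem, card_powerset, card_classes]
      intro A hA
      have h3 : S F (q * m) A = fun X => ∑ j ∈ A, S F (q * m) {j} X := funext fun X => S_sum F _ A X
      rw [h3]
      have h4 : (0 : ℝ) = ∑ j ∈ A, (0 : ℝ) := by simp
      rw [h4]
      exact tendsto_finsetSum _ fun j hj => h1 (q * m) hP j (mem_powerset.1 hA hj)
    rw [h2]
    push_cast
    have hq1 : (1 : ℝ) ≤ q := by exact_mod_cast hq
    have hm3 : (1 : ℝ) ≤ m := by exact_mod_cast hm2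
    have hpos : (0 : ℝ) < (q : ℝ) * m := by positivity
    have h5 : (q : ℝ) * m ≤ ((q : ℝ) * m) ^ h := by
      have h6 : (1 : ℝ) ≤ (q : ℝ) * m := by nlinarith
      exact le_self_pow₀ h6 hh.ne'
    rw [div_le_iff₀ (Real.sqrt_pos.2 (by positivity)), mul_comm]
    apply mul_le_mul_of_nonneg_left _ (by positivity)
    apply Real.le_sqrt_of_sq_le
    nlinarith
  · intro h1 q hq j _
    exact of_share hF q {j} (h1 q hq)

/-- Liouville's function, zero at zero. -/
noncomputable def lam (n : ℤ) : ℝ := if n = 0 then 0 else (-1) ^ (ArithmeticFunction.cardFactors n.natAbs)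

lemma lam_le (n : ℤ) : |lam n| ≤ 1 := by
  unfold lam
  split_ifs
  · simp
  · rw [abs_pow, abs_neg, abs_one, one_pow]

/-- The sequence of the question for the polynomial `f`. -/
noncomputable def vals {h : ℕ} (f : MvPolynomial (Fin h) ℤ) (v : Fin h → ℤ) : ℝ := lam (MvPolynomial.eval v f)

/-- The polynomials of the question: of positive degree, primitive and squarefree, homogeneous when `h = 2`. -/
def Adm {h : ℕ} (f : MvPolynomial (Fin h) ℤ) : Prop :=
  0 < f.totalDegree ∧ (h = 2 → f.IsHomogeneous f.totalDegree) ∧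
    (∀ p : ℕ, p.Prime → ¬ (MvPolynomial.C (p : ℤ) ∣ f)) ∧ ∀ g : MvPolynomial (Fin h) ℤ, g ^ 2 ∣ f → g.totalDegree = 0

open Classical in
/-- The sum over the points of the progression with class `a` modulo `N` in the box. -/
noncomputable def progSum {h : ℕ} (f : MvPolynomial (Fin h) ℤ) (N : ℕ) (a : Fin h → ℤ) (X : ℕ) : ℝ :=
  ∑ v ∈ (box h X).filter (fun v => ∀ i, (N : ℤ) ∣ v i - a i), vals f v

/-- The question, for the progressions with coordinates coprime to the modulus when `h = 2`. -/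
def Question : Prop :=
  ∀ h : ℕ, h = 1 ∨ h = 2 → ∀ f : MvPolynomial (Fin h) ℤ, Adm f → ∀ N : ℕ, 0 < N → ∀ a : Fin h → ℤ,
    (h = 2 → ∀ i, IsCoprime (a i) (N : ℤ)) → Tendsto (fun X : ℕ => progSum f N a X / (X : ℝ) ^ h) atTop (𝓝 0)

/-- The question for all progressions. -/
def QuestionAll : Prop :=
  ∀ h : ℕ, h = 1 ∨ h = 2 → ∀ f : MvPolynomial (Fin h) ℤ, Adm f → ∀ N : ℕ, 0 < N → ∀ a : Fin h → ℤ,
    Tendsto (fun X : ℕ => progSum f N a X / (X : ℝ) ^ h) atTop (𝓝 0)

/-- The part `h = 1` of the question. -/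
def QuestionOne : Prop :=
  ∀ f : MvPolynomial (Fin 1) ℤ, Adm f → ∀ N : ℕ, 0 < N → ∀ a : Fin 1 → ℤ,
    Tendsto (fun X : ℕ => progSum f N a X / (X : ℝ) ^ 1) atTop (𝓝 0)

lemma prog_eq {h : ℕ} (f : MvPolynomial (Fin h) ℤ) {N : ℕ} (a : Fin h → ℤ) (X : ℕ) :
    progSum f N a X / (X : ℝ) ^ h = S (vals f) N {res N a} X := by
  classical
  unfold progSum S
  congr 2
  ext v
  simp only [mem_filter, mem_singleton, funext_iff, res]
  refine and_congr_right fun _ => forall_congr' fun i => ?_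
  rw [← Int.emod_emod_of_dvd (v i) (dvd_refl (N : ℤ)), ← Int.emod_emod_of_dvd (a i) (dvd_refl (N : ℤ))]
  rw [Int.emod_emod_of_dvd _ (dvd_refl _), Int.emod_emod_of_dvd _ (dvd_refl _)]
  rw [← Int.emod_emod_of_dvd (v i) (dvd_refl (N : ℤ))]
  rw [Int.emod_emod_of_dvd _ (dvd_refl _)]
  exact ⟨fun h => ((Int.emod_emod_of_dvd (v i) (dvd_refl (N : ℤ))).symm.trans (by
      rw [Int.emod_emod_of_dvd _ (dvd_refl _)]
      exact (Int.ModEq.symm ((Int.modEq_iff_dvd).2 h)))),
    fun h => Int.modEq_iff_dvd.1 (Eq.symm h)⟩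

lemma all_iff {h : ℕ} (f : MvPolynomial (Fin h) ℤ) :
    (∀ N : ℕ, 0 < N → ∀ a : Fin h → ℤ, Tendsto (fun X : ℕ => progSum f N a X / (X : ℝ) ^ h) atTop (𝓝 0)) ↔
      ∀ q : ℕ, 0 < q → ∀ j ∈ classes h q, Tendsto (S (vals f) q {j}) atTop (𝓝 0) := by
  constructor
  · intro h1 q hq j hj
    have h2 := h1 q hq j
    have h3 : res q j = j := by
      unfold classes at hj
      rw [Fintype.mem_piFinset] at hj
      funext i
      have := mem_Ico.1 (hj i)
      unfold res
      exact Int.emod_eq_of_lt this.1 this.2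
    simp only [prog_eq, h3] at h2
    exact h2
  · intro h1 N hN a
    have h2 : res N a ∈ classes h N := by
      unfold classes res
      rw [Fintype.mem_piFinset]
      intro i
      have hNz : (0 : ℤ) < N := by exact_mod_cast hN
      rw [mem_Ico]
      exact ⟨Int.emod_nonneg _ hNz.ne', Int.emod_lt_of_pos _ hNz⟩
    have h3 := h1 N hN _ h2
    simp only [prog_eq]
    exact h3

/-- The share criterion for the polynomial `f`. -/
def Share {h : ℕ} (f : MvPolynomial (Fin h) ℤ) : Prop :=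
  ∀ q : ℕ, 0 < q → ∀ K : ℝ, ∃ P : ℕ, 0 < P ∧ q ∣ P ∧ K * 2 ^ (P ^ h) / √((P : ℝ) ^ h) ≤ good (vals f) P

theorem result :
    -- a failure leaves few good unions
    (∀ (h : ℕ) (F : (Fin h → ℤ) → ℝ), (∀ v, |F v| ≤ 1) → ∀ (c : ℝ), 0 < c → ∀ (q : ℕ) (B : Finset (Fin h → ℤ)),
      (∃ᶠ X : ℕ in atTop, c ≤ |S F q B X|) → ∀ P : ℕ, 0 < P → q ∣ P →
        (good F P : ℝ) ≤ 54 * 4 ^ h * (1 + 1 / c) * 2 ^ (P ^ h) / √((P : ℝ) ^ h)) ∧
    -- one polynomial
    (∀ (h : ℕ), 0 < h → ∀ f : MvPolynomial (Fin h) ℤ,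
      ((∀ N : ℕ, 0 < N → ∀ a : Fin h → ℤ, Tendsto (fun X : ℕ => progSum f N a X / (X : ℝ) ^ h) atTop (𝓝 0)) ↔
        Share f)) ∧
    -- the question
    (QuestionAll ↔ ∀ h : ℕ, h = 1 ∨ h = 2 → ∀ f : MvPolynomial (Fin h) ℤ, Adm f → Share f) ∧
    (QuestionOne ↔ ∀ f : MvPolynomial (Fin 1) ℤ, Adm f → Share f) ∧ (QuestionAll → Question) := by
  have e2 : ∀ (h : ℕ), 0 < h → ∀ f : MvPolynomial (Fin h) ℤ,
      ((∀ N : ℕ, 0 < N → ∀ a : Fin h → ℤ, Tendsto (fun X : ℕ => progSum f N a X / (X : ℝ) ^ h) atTop (𝓝 0)) ↔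
        Share f) := by
    intro h hh f
    rw [all_iff, classes_iff' hh (F := vals f) (fun v => lam_le _)]
    rfl
  refine ⟨fun h F hF c hc q B hfr P hP hd => few hF hc q B hfr hP hd, e2, ?_, ?_, ?_⟩
  · constructor
    · intro h1 h hh f hf
      exact (e2 h (by omega) f).1 (h1 h hh f hf)
    · intro h1 h hh f hf
      exact (e2 h (by omega) f).2 (h1 h hh f hf)
  · constructor
    · intro h1 f hf
      exact (e2 1 one_pos f).1 (h1 f hf)
    · intro h1 f hf
      exact (e2 1 one_pos f).2 (h1 f hf)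
  · intro h1 h hh f hf N hN a _
    exact h1 h hh f hf N hN a

end Pool.Agent.Results.MP_d639b3_nt.UnionsOfClasses
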