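import Mathlib
import Pool.Agent.Results.MP_d6ddbd_nt.QuarticsByFiniteChecks
import Pool.Agent.Q1.RS.UdzL

/-!
# One partial algorithm that decides almost all the curves at every member of a thin sequence

We use the partial algorithm of `QuarticsByFiniteChecks`. For an integer `t` let `A = D(t) u₀(t)`,
`B = D(t) u₁(t)`, `E_t : y² = x (x - A) (x - B)`, and let `ELS A B` be the set of the squarefree
divisors `b` of `A B` for which `C : y² = b x⁴ - (A + B) x² + A B / b` has points everywhere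
locally. For `t = ⌊α x_n⌋` the algorithm decides, correctly, all but a proportion `(log t) ^ (-η)` of
the curves of `ELS A B`: for almost every `α` at all `n` outside of a set of density zero, for every
sequence with `x_(n+1) ≥ x_n ^ (1 + δ)`; and at all `n`, without exception, for all `α` in a set of
Hausdorff dimension one.
-/

set_option autoImplicit false

namespace Pool.Agent.Results.MP_d6ddbd_nt.DecidedAlongSequences

open Finset Polynomial Filter MeasureTheory

open Pool.Agent.Results.MP_d6ddbd_nt.QuarticsByFiniteChecks (Zeros quartic ELS Undecided Balanced D)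

open Pool.Agent.Results.MP_d6ddbd_nt.QuarticsByFiniteChecks (u κ)

/-- for `A = (D u₀)(t)`, `B = (D u₁)(t)`: the numbers `A`, `B`, `A - B` are nonzero and `φ` is not
defined at at most the proportion `(log (|t| + 2)) ^ (-η)` of the curves in `ELS A B` -/
def Few (φ : List (List ℤ) →. Bool) {n : Fin 3 → ℕ} {m : ℕ} (a : Fin 3 → ℤ)
    (f : ∀ k : Fin 3, Fin (n k) → ℤ[X]) (c : ℤ) (g : Fin m → ℤ[X]) (η : ℝ) (t : ℤ) : Prop :=
  ∀ A B : ℤ, A = (D c g * u a f 0).eval t → B = (D c g * u a f 1).eval t →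
    A ≠ 0 ∧ B ≠ 0 ∧ A ≠ B ∧
    ((Undecided φ A B).ncard : ℝ) ≤ (Real.log (|(t : ℝ)| + 2)) ^ (-η) * ((ELS A B).ncard : ℝ)

open Classical in
/-- **Theorem.** There is a partial computable function `φ` from the lists of lists of integers
(polynomials `f(x, y)`) to `{true, false}` such that: if `φ(f)` is defined, then it is `true` if and
only if `f` has infinitely many rational zeros; and the following holds. Let
`u_k = a_k ∏_{i < n_k} f_{k,i}`, `k = 0, 1, 2`, with `u₀ - u₁ = u₂`, and `D = c ∏_{i < m} g_i`, where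
`a_k`, `c` are nonzero and the `n₀ + n₁ + n₂ + m` polynomials `f_{k,i}`, `g_i` with integer
coefficients are irreducible of positive degree and pairwise non-associated; assume the balance
condition. Let `0 < η < κ log 2`, with the constant `κ` of `QuarticsByFiniteChecks`, and let `δ > 0`.
(1) For every sequence `x_n → ∞` with `x_(n+1) ≥ x_n ^ (1 + δ)` from some `n` on and almost every
real `α`, the set of the `n` such that `Few φ η` does not hold at `⌊α x_n⌋` has density zero.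
(2) For all `y < z` and all sequences with `x_(n+1) ≥ x_n ^ (1 + δ)` for all `n` and `x_0` large
enough (in terms of `y`, `z`, `δ`, `η` and the polynomials) the set of the `α` in `[y, z]` such that
`Few φ η` holds at `⌊α x_n⌋` for all `n` has Hausdorff dimension one. -/
theorem result :
    ∃ φ : List (List ℤ) →. Bool, Partrec φ ∧
    (∀ L, ∀ r ∈ φ L, (r = true ↔ (Zeros L).Infinite)) ∧
    ∀ (n : Fin 3 → ℕ) (m : ℕ) (a : Fin 3 → ℤ) (f : ∀ k : Fin 3, Fin (n k) → ℤ[X])
    (c : ℤ) (g : Fin m → ℤ[X]) (_ : ∀ k, a k ≠ 0) (_ : c ≠ 0)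
    (_ : ∀ k i, Irreducible (f k i) ∧ 0 < (f k i).natDegree)
    (_ : ∀ i, Irreducible (g i) ∧ 0 < (g i).natDegree)
    (_ : ∀ k i l j, (⟨k, i⟩ : Σ k : Fin 3, Fin (n k)) ≠ ⟨l, j⟩ → ¬ Associated (f k i) (f l j))
    (_ : ∀ i j, i ≠ j → ¬ Associated (g i) (g j)) (_ : ∀ k i j, ¬ Associated (f k i) (g j))
    (_ : u a f 0 - u a f 1 = u a f 2) (_ : Balanced a f c g)
    (η δ : ℝ) (_ : 0 < η) (_ : η < κ a f c g * Real.log 2) (_ : 0 < δ),
    (∀ x : ℕ → ℝ, Tendsto x atTop atTop → (∀ᶠ n in atTop, x n ^ (1 + δ) ≤ x (n + 1)) →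
      ∀ᵐ α : ℝ, ∀ ε : ℝ, 0 < ε → ∀ᶠ N : ℕ in atTop,
        (((range N).filter (fun n => ¬ Few φ a f c g η ⌊α * x n⌋)).card : ℝ) ≤ ε * N) ∧
    ∀ y z : ℝ, y < z → ∃ X₀ : ℝ, ∀ x : ℕ → ℝ, X₀ ≤ x 0 → (∀ n, x n ^ (1 + δ) ≤ x (n + 1)) →
      dimH {α : ℝ | y ≤ α ∧ α ≤ z ∧ ∀ n, Few φ a f c g η ⌊α * x n⌋} = 1 := by
  obtain ⟨φ, hφ1, hφ2, _, _, hφ⟩ := QuarticsByFiniteChecks.result
  refine ⟨φ, hφ1, hφ2, ?_⟩
  intro n m a f c g ha hc hf hg hff hgg hfg hu hb η δ hη hηκ hδ
  have hudz : Pool.Agent.Q1.RS.UDZ {t : ℤ | ¬ Few φ a f c g η t} := by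
    refine Pool.Agent.Q1.RS.udz_of_log
      (Y := fun t => ((Undecided φ ((D c g * u a f 0).eval t)
        ((D c g * u a f 1).eval t)).ncard : ℝ))
      (E := fun t => ((ELS ((D c g * u a f 0).eval t) ((D c g * u a f 1).eval t)).ncard : ℝ))
      (P := fun t => (D c g * u a f 0).eval t ≠ 0 ∧ (D c g * u a f 1).eval t ≠ 0 ∧
        (D c g * u a f 0).eval t ≠ (D c g * u a f 1).eval t)
      (κ := κ a f c g * Real.log 2) (fun t => Nat.cast_nonneg _) ?_ hη hηκ ?_
    · intro δ' ε L hδ' hε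
      obtain ⟨M₀, hM₀⟩ := hφ n m a f c g ha hc hf hg hff hgg hfg hu hb δ' ε L hδ' hε
      refine ⟨M₀, fun N M hM hN => ?_⟩
      refine le_trans (Nat.cast_le.2 (card_le_card fun t ht => ?_)) (hM₀ N M hM hN).2
      obtain ⟨hta, htb⟩ := (@Finset.mem_filter _ _ (_) _ _).1 ht
      refine (@Finset.mem_filter _ _ (_) _ _).2 ⟨hta, fun h => htb ?_⟩
      obtain ⟨h1, h2, h3, h4⟩ := h _ _ rfl rfl
      exact ⟨⟨h1, h2, h3⟩, h4⟩
    · rintro t ht ⟨⟨h1, h2, h3⟩, h4⟩
      refine ht ?_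
      rintro A B rfl rfl
      exact ⟨h1, h2, h3, h4⟩
  refine ⟨fun x hxt hxg => ?_, fun y z hyz => ?_⟩
  · filter_upwards [hudz.freq hδ hxt hxg] with α hα ε hε
    filter_upwards [hα ε hε] with N hN
    refine le_trans (Nat.cast_le.2 (card_le_card fun n hn => ?_)) hN
    exact (@Finset.mem_filter _ _ (_) _ _).2 ((@Finset.mem_filter _ _ (_) _ _).1 hn)
  · obtain ⟨X₀, hX₀⟩ := hudz.dim hδ hyz
    refine ⟨X₀, fun x hx0 hx => ?_⟩
    rw [← hX₀ x hx0 hx]
    congr 1
    ext α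
    simp only [Set.mem_ofPred_eq, not_not]

end Pool.Agent.Results.MP_d6ddbd_nt.DecidedAlongSequences
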