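import Pool.Agent.Q28.MB.Main

/-!
# Murre's conjecture (B): all decompositions versus one, and phantoms

`𝒱` is a class of smooth projective geometrically irreducible varieties over the field `k` closed
under products (for example all of them), `C` the Chow groups with rational coefficients (in the
form of their formal properties, `IsChowProj`) and `H` a Weil cohomology theory (`IsWeilProj`).

(1) If no homologically trivial self-correspondence of `X` of degree zero acts as a non-zero
idempotent on `CH^i(X)` (for example if they are nilpotent), then each half of (B) in codimension `i`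
passes from one Chow-Kunneth decomposition of `X` to all.
(2) Conversely, if (B) holds for all decompositions of `X`, then the phantom summands of the
`h^a(X)` act as zero on `CH(X)`, for all decompositions.
(3) For one decomposition `π` of `X`, the first half of (B) for `π^t × π` on `X × X` in the one
codimension `dim X` holds if and only if there are no non-zero morphisms `h^a(X) → h^b(X)`, `a < b`,
for the summands given by `π`. This implies the first half of (B) for `π` in all codimensions. If in
addition the motive of `X` has no phantom summand, then the first half of (B) and (C) hold for all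
decompositions of `X`, and the second half of (B) holds for all decompositions if it holds for `π`.
If the first half of (B) in codimension `dim X` holds for all decompositions of `X × X`, then there
are no phantom summands and no non-zero morphisms `h^a(X) → h^b(X)`, `a < b`.
(4) For a class of varieties with Chow-Kunneth decompositions, closed under `X ↦ X × X`: (B) for all
varieties and all decompositions holds if and only if there are no phantom summands and each `X` has
one decomposition `π` satisfying the second half of (B) for which `π^t × π` satisfies the first half
of (B) in codimension `dim X`. The same holds for the first half of (B), without the condition on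
the second half.
-/

open CategoryTheory AlgebraicGeometry

set_option autoImplicit false

universe u v w

namespace Pool.Agent.Results.MP_d6e134_ag.OneDecomposition

open Pool.Agent.H914 Pool.Agent.W492.BB Pool.Agent.TH133 Pool.Agent.Q28 Pool.Agent.Q28.MB

/-- Murre's conjecture (B) for one and for all Chow-Kunneth decompositions. -/
theorem result {k : Type u} [Field k] {𝒱 : VarClass k} (C : TheoryData.{u, v, 0} 𝒱 ℚ)
    [IsChowProj C] {K : Type w} [Field K] (H : WeilTheoryData.{u, v, w} C K) [IsWeilProj H] :
    (∀ (X : 𝒱.Obj) (i : ℕ), MD.NoIdempotentActionAt H X i →
      ∀ π π', IsCK H X π → IsCK H X π' →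
        (SatisfiesB0At π i → SatisfiesB0At π' i) ∧ (SatisfiesB1At π i → SatisfiesB1At π' i)) ∧
    (∀ X : 𝒱.Obj, MurreB0 H X → MurreB1 H X →
      ∀ π, IsCK H X π → MD.PhantomsActTrivially H π) ∧
    (∀ (X : 𝒱.Obj) (π : ℕ → C.A (X.prod X)), IsCK H X π →
      (SatisfiesB0At (MD.squareCK π) X.dim ↔ MD.NeverRaises π) ∧
      (MD.NeverRaises π → ∀ i, SatisfiesB0At π i) ∧
      (MD.NeverRaises π → NoPhantoms H X → MurreB0 H X ∧ MurreC H X ∧
        ((∀ i, SatisfiesB1At π i) → MurreB1 H X)) ∧
      ((∀ σ, IsCK H (X.prod X) σ → SatisfiesB0At σ X.dim) →
        MD.NeverRaises π ∧ NoPhantoms H X)) ∧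
    (∀ F : 𝒱.Obj → Prop, (∀ X, F X → F (X.prod X)) → (∀ X, F X → ∃ π, IsCK H X π) →
      ((∀ X, F X → MurreB0 H X) ↔
        ∀ X, F X → NoPhantoms H X ∧ ∃ π, IsCK H X π ∧ SatisfiesB0At (MD.squareCK π) X.dim) ∧
      ((∀ X, F X → MurreB0 H X ∧ MurreB1 H X) ↔
        ∀ X, F X → NoPhantoms H X ∧ ∃ π, IsCK H X π ∧ SatisfiesB0At (MD.squareCK π) X.dim ∧
          ∀ i, SatisfiesB1At π i)) :=
  main C H

end Pool.Agent.Results.MP_d6e134_ag.OneDecomposition
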