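import Pool.Agent.Q26.TL.Core

/-!
# The Beilinson–Soulé conjecture for complex varieties is decided by the point in degree `-1`
-/

set_option autoImplicit false

namespace Pool.Agent.Results.MP_d72c81_ag.PointDecides

open Pool.Agent.Q26.TL AlgebraicGeometry CategoryTheory Cardinal

/-- `Spec ℂ` -/
noncomputable abbrev SpecC : Scheme.{0} := Spec (.of ℂ)

/-- smooth, separated and quasi-compact over `ℂ` -/
def IsSmoothVariety (X : Scheme.{0}) (f : X ⟶ SpecC) : Prop :=
  Smooth f ∧ IsSeparated f ∧ QuasiCompact f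

/-- the codimension of a point, i.e. the dimension of its local ring -/
noncomputable def codim (X : Scheme.{0}) (p : X) : WithBot ℕ∞ := ringKrullDim (X.presheaf.stalk p)

/-- there is a nonzero class in `Hⁱ(κ(p), ℚ(n))` -/
def HasClassAt (H : ℤ → ℤ → Fun) (X : Scheme.{0}) (p : X) (i n : ℤ) : Prop :=
  ∃ y : V (H i n) (X.residueField p), y ≠ 0

/-- Consequence of the coniveau spectral sequence: if `X` is a smooth, separated, quasi-compact
complex scheme and `CHʲ(X, 2j - k)_ℚ ≠ 0` with `k < 0`, then there is a point `p` of `X`, of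
codimension `c`, with `Hᵏ⁻²ᶜ(κ(p), ℚ(j-c)) ≠ 0`. -/
def Coniveau (H : ℤ → ℤ → Fun) (CH : Scheme.{0} → ℤ → ℤ → ModuleCat.{0} ℚ) : Prop :=
  ∀ (X : Scheme.{0}) (f : X ⟶ SpecC), IsSmoothVariety X f →
    ∀ j k : ℤ, k < 0 → ∀ x : CH X j (2 * j - k), x ≠ 0 →
      ∃ (p : X) (c : ℕ), codim X p = c ∧ HasClassAt H X p (k - 2 * c) (j - c)

/-- Borel: `Hⁱ(k, ℚ(n)) = 0` for `i < 0` if `k` is an algebraic closure of `ℚ`. -/
def Borel (H : ℤ → ℤ → Fun) : Prop :=
  ∀ (i n : ℤ), i < 0 → ∀ (k : Type) [Field k] [Algebra ℚ k] [IsAlgClosure ℚ k]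
    (x : V (H i n) k), x = 0

/-- Rational motivic cohomology `Hⁱ(A, ℚ(n))` of rings (see `Theory`) together with the rational
higher Chow groups `CH X j n = CHʲ(X, n)_ℚ` of complex schemes, and the published facts which link
them:

`borel`, `coniveau`, and `point`: `CHʲ(Spec ℂ, 2j - k)_ℚ ≅ Hᵏ(ℂ, ℚ(j))`. -/
structure HigherChow extends Theory where
  CH : Scheme.{0} → ℤ → ℤ → ModuleCat.{0} ℚ
  borel : Borel H
  coniveau : Coniveau H CH
  point : ∀ j k : ℤ, Nonempty (CH SpecC j (2 * j - k) ≃ₗ[ℚ] V (H k j) ℂ)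

/-- a class of smooth, separated, quasi-compact complex schemes which contains `Spec ℂ`, such as
the smooth projective varieties -/
structure VarietyClass where
  mem : ∀ X : Scheme.{0}, (X ⟶ SpecC) → Prop
  smooth : ∀ X f, mem X f → IsSmoothVariety X f
  point : mem SpecC (𝟙 _)

/-- `CHʲ(X, 2j - k)_ℚ = 0` for all `X` in the class `P`, all `j` and all `k < 0` -/
def Vanishes (M : HigherChow) (P : VarietyClass) : Prop :=
  ∀ (X : Scheme.{0}) (f : X ⟶ SpecC), P.mem X f → ∀ j k : ℤ, k < 0 →
    ∀ x : M.CH X j (2 * j - k), x = 0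

/-- `CHʲ(Spec ℂ, 2j + 1)_ℚ = 0` for all `j` -/
def VanishesAtPoint (M : HigherChow) : Prop :=
  ∀ (j : ℤ) (x : M.CH SpecC j (2 * j + 1)), x = 0

/-- `CHʲ(Spec ℂ, 2j + 1)_ℚ` has dimension less than the continuum for all `j` -/
def SmallAtPoint (M : HigherChow) : Prop :=
  ∀ j : ℤ, Module.rank ℚ (M.CH SpecC j (2 * j + 1)) < continuum

/-- `Hⁱ(F, ℚ(n)) = 0` for all fields `F` of characteristic zero, all `n` and all `i < 0` -/
def VanishesOnFields (M : HigherChow) : Prop :=
  ∀ (F : Type) [Field F] [CharZero F] (i n : ℤ), i < 0 → ∀ x : V (M.H i n) F, x = 0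

/-- for `k < 0` the space `CHʲ(Spec ℂ, 2j - k)_ℚ` is zero or has dimension at least the
continuum -/
def PointLaw (M : HigherChow) : Prop :=
  ∀ j k : ℤ, k < 0 → (∀ x : M.CH SpecC j (2 * j - k), x = 0) ∨
    continuum ≤ Module.rank ℚ (M.CH SpecC j (2 * j - k))

/-- if `X` is in the class `P`, `k < 0` and `CHʲ(X, 2j - k)_ℚ ≠ 0`, then there is a point of `X`,
of codimension `c`, such that with `m = j + c - 1 - k` the space `CHᵐ(Spec ℂ, 2m + 1)_ℚ` has
dimension at least the continuum -/
def VarietyLaw (M : HigherChow) (P : VarietyClass) : Prop :=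
  ∀ (X : Scheme.{0}) (f : X ⟶ SpecC), P.mem X f → ∀ j k : ℤ, k < 0 →
    ∀ x : M.CH X j (2 * j - k), x ≠ 0 →
      ∃ (p : X) (c : ℕ), codim X p = c ∧
        continuum ≤ Module.rank ℚ (M.CH SpecC (j + c - 1 - k) (2 * (j + c - 1 - k) + 1))

theorem exists_basis : ∃ (I : Type) (b : I → ℂ), IsTranscendenceBasis ℚ b ∧ #I = continuum := by
  obtain ⟨I, b, hb⟩ := exists_isTranscendenceBasis' ℚ ℂ
  refine ⟨I, b, hb, ?_⟩
  rw [← IsAlgClosed.cardinal_eq_cardinal_transcendence_basis_of_aleph0_lt' b hb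
    (by simp) (by rw [Cardinal.mk_complex]; exact aleph0_lt_continuum), Cardinal.mk_complex]

/-- a nonzero class over `ℂ` in a negative degree gives continuum many independent ones -/
theorem continuum_le (M : HigherChow) (i n : ℤ) (hi : i < 0) (x : V (M.H i n) ℂ) (hx : x ≠ 0) :
    continuum ≤ Module.rank ℚ (V (M.H i n) ℂ) := by
  obtain ⟨I, b, hb, hI⟩ := exists_basis
  have : Infinite I := by
    rw [infinite_iff, hI]
    exact aleph0_le_continuum
  obtain ⟨v, hv⟩ := exists_linearIndependent (M.good i n) b hb (M.borel i n hi) x hx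
  rw [← hI]
  exact hv.cardinal_le_rank

/-- a nonzero class in a negative degree over a field of characteristic zero gives a nonzero class
over `ℂ` in degree `-1` -/
theorem exists_point (M : HigherChow) (i n : ℤ) (hi : i < 0) (F : Type) [Field F] [CharZero F]
    (x : V (M.H i n) F) (hx : x ≠ 0) : ∃ y : V (M.H (-1) (n - 1 - i)) ℂ, y ≠ 0 := by
  obtain ⟨I, b, hb, hI⟩ := exists_basis
  have : Infinite I := by
    rw [infinite_iff, hI]
    exact aleph0_le_continuum
  obtain ⟨m, hm⟩ := Int.eq_ofNat_of_zero_le (show 0 ≤ -1 - i by omega)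
  obtain ⟨F', h1, h2, h5⟩ := M.toTheory.exists_units (P := ℚ) m i n F x hx
  have h3 : i + (m : ℤ) = -1 := by omega
  have h4 : n + (m : ℤ) = n - 1 - i := by omega
  rw [h3, h4] at h5
  obtain ⟨y, hy⟩ := h5
  exact exists_ne_zero (M.good _ _) b hb.1 y hy

theorem charZero_residueField (X : Scheme.{0}) (f : X ⟶ Spec (.of ℂ)) (p : X) :
    CharZero (X.residueField p) :=
  charZero_of_injective_ringHom
    (Spec.preimage (X.fromSpecResidueField p ≫ f)).hom.injective

/-- Let `P` be a class of smooth, separated, quasi-compact complex schemes which contains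
`Spec ℂ`, such as the smooth projective varieties.

1. The following are equivalent: (a) `CHʲ(X, 2j - k)_ℚ = 0` for all `X` in `P` and `k < 0`;
   (b) `CHʲ(Spec ℂ, 2j + 1)_ℚ = 0` for all `j`; (c) the dimension of the rational vector space
   `CHʲ(Spec ℂ, 2j + 1)_ℚ` is less than the continuum for all `j`;
   (d) `Hⁱ(F, ℚ(n)) = 0` for all fields `F` of characteristic zero and all `i < 0`.
2. For `k < 0` the space `CHʲ(Spec ℂ, 2j - k)_ℚ` is zero or has dimension at least the continuum.
3. If `X` is in `P`, `k < 0` and `CHʲ(X, 2j - k)_ℚ ≠ 0`, then there is a point of `X`, of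
   codimension `c`, such that with `m = j + c - 1 - k` the space `CHᵐ(Spec ℂ, 2m + 1)_ℚ` has
   dimension at least the continuum. -/
theorem result (M : HigherChow) (P : VarietyClass) :
    [Vanishes M P, VanishesAtPoint M, SmallAtPoint M, VanishesOnFields M].TFAE ∧
    PointLaw M ∧ VarietyLaw M P := by
  have hrank : ∀ j : ℤ, Module.rank ℚ (M.CH SpecC j (2 * j + 1)) =
      Module.rank ℚ (V (M.H (-1) j) ℂ) := by
    intro j
    obtain ⟨e⟩ := M.point j (-1)
    rw [sub_neg_eq_add] at e
    exact e.rank_eq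
  have hlaw : ∀ (i n : ℤ), i < 0 → ∀ (F : Type) [Field F] [CharZero F] (x : V (M.H i n) F),
      x ≠ 0 → continuum ≤ Module.rank ℚ
        (M.CH SpecC (n - 1 - i) (2 * (n - 1 - i) + 1)) := by
    intro i n hi F _ _ x hx
    obtain ⟨y, hy⟩ := exists_point M i n hi F x hx
    rw [hrank]
    exact continuum_le M _ _ (by omega) y hy
  refine ⟨?_, ?_, ?_⟩
  · tfae_have 1 → 2 := by
      intro h j x
      have h1 := h SpecC (𝟙 _) P.point j (-1) (by omega)
      rw [sub_neg_eq_add] at h1
      exact h1 x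
    tfae_have 2 → 3 := by
      intro h j
      have : Subsingleton (M.CH SpecC j (2 * j + 1)) :=
        ⟨fun a b => (h j a).trans (h j b).symm⟩
      rw [rank_subsingleton']
      exact continuum_pos
    tfae_have 3 → 4 := by
      intro h F _ _ i n hi x
      by_contra hx
      exact absurd (h _) (not_lt.2 (hlaw i n hi F x hx))
    tfae_have 4 → 1 := by
      intro h X f hf j k hk x
      by_contra hx
      obtain ⟨p, c, hc, y, hy⟩ := M.coniveau X f (P.smooth X f hf) j k hk x hx
      have h4 := charZero_residueField X f p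
      exact hy (h (X.residueField p) (k - 2 * c) (j - c) (by omega) y)
    tfae_finish
  · intro j k hk
    by_cases h : ∀ x : M.CH SpecC j (2 * j - k), x = 0
    · exact Or.inl h
    · right
      push Not at h
      obtain ⟨x, hx⟩ := h
      obtain ⟨e⟩ := M.point j k
      rw [e.rank_eq]
      exact continuum_le M k j hk (e x) (fun h1 => hx (e.map_eq_zero_iff.1 h1))
  · intro X f hf j k hk x hx
    obtain ⟨p, c, hc, y, hy⟩ := M.coniveau X f (P.smooth X f hf) j k hk x hx
    refine ⟨p, c, hc, ?_⟩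
    have h4 := charZero_residueField X f p
    have h5 := hlaw (k - 2 * c) (j - c) (by omega) (X.residueField p) y hy
    have h6 : j - (c : ℤ) - 1 - (k - 2 * c) = j + c - 1 - k := by ring
    rw [h6] at h5
    exact h5

end Pool.Agent.Results.MP_d72c81_ag.PointDecides
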