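import Pool.Agent.Q164.LT.Main
import Pool.Agent.Q224.LT.MASS

/-!
# The number of the primes with a given Frobenius trace, for all random sets of primes near a model of Lang and Trotter

`cand r N`: the primes `p ∤ N` with `r ^ 2 ≤ 4 p`. A model with the constant `C` (`LTModel r N C q`) contains each candidate `p` independently
with probability `q p`, `2 √p q p → C`. For any random set `A` of integers (no independence is assumed) `D r N q μ A x` is the relative
entropy (nats) of the law of the set of the candidates below `x` in `A` with respect to the model, and `cntLT r N (A ω) x` is their number.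
-/

set_option autoImplicit false

namespace Pool.Agent.Results.MP_d74fca_nt.LawsAtGivenInformation

open MeasureTheory Filter Pool.Agent.Q120.ET Pool.Agent.Q120.ME Pool.Agent.Q164.LT
open scoped Topology

/-- The number of the candidates below `x` in `S`. -/
noncomputable def cntLT (r : ℤ) (N : ℕ) (S : Set ℕ) (x : ℕ) : ℕ := cnt (cand r N) S x

/-- The relative entropy (nats) of the law of the set of the candidates below `x` in `A`, with respect to the model with the probabilities `q`. -/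
noncomputable def D (r : ℤ) (N : ℕ) (q : ℕ → ℝ) {Ω : Type*} [MeasurableSpace Ω] (μ : Measure Ω) (A : Ω → Set ℕ) (x : ℕ) : ℝ :=
  relEnt q μ A (ind (cand r N) x)

/-- The class `δ`: `D(x) ≤ (δ + o(1)) √x / log x`. -/
def Cls (r : ℤ) (N : ℕ) (q : ℕ → ℝ) (δ : ℝ) {Ω : Type*} [MeasurableSpace Ω] (μ : Measure Ω) (A : Ω → Set ℕ) : Prop :=
  IsRandomSet A ∧ ∀ ε : ℝ, 0 < ε → ∀ᶠ x : ℕ in atTop, D r N q μ A x ≤ (δ + ε) * (Real.sqrt x / Real.log x)

/-- Let `q` be a model with the constant `C > 0`. (1) For every nondecreasing `d ≥ 0` all random sets with `D(x) ≤ d x` for large `x` almost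
surely have `cntLT ~ C √x / log x` iff `∑_p d p (log p) ^ 2 / (p √p) < ∞`. (2) A probability measure `ν` is the law of
`lim cntLT log x / √x` for some random set of class `δ` iff it lives on `[0, ∞)` and `∫ (u log (u / C) - u + C) dν ≤ δ`. (3) The largest
probability that only finitely many candidates are in a random set of class `δ` is `min 1 (δ / C)`. -/
theorem result (r : ℤ) (N : ℕ) (C : ℝ) (q : ℕ → ℝ) (hN : N ≠ 0) (hC : 0 < C) (hq : LTModel r N C q) :
    (∀ d : ℕ → ℝ, Monotone d → (∀ n, 0 ≤ d n) →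
      ((∀ (Ω : Type) [MeasurableSpace Ω] (μ : Measure Ω) [IsProbabilityMeasure μ] (A : Ω → Set ℕ), IsRandomSet A →
        (∀ᶠ x : ℕ in atTop, D r N q μ A x ≤ d x) →
          ∀ᵐ ω ∂μ, Tendsto (fun x : ℕ => (cntLT r N (A ω) x : ℝ) * Real.log x / Real.sqrt x) atTop (𝓝 C)) ↔
      Summable (fun n : ℕ => if n.Prime then d n * Real.log n ^ 2 / (n * Real.sqrt n) else 0))) ∧
    ∀ δ : ℝ, 0 ≤ δ →
      (∀ ν : Measure ℝ, IsProbabilityMeasure ν →
        ((∃ (Ω : Type) (_ : MeasurableSpace Ω) (μ : Measure Ω) (_ : IsProbabilityMeasure μ) (A : Ω → Set ℕ) (L : Ω → ℝ), Cls r N q δ μ A ∧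
          Measurable L ∧ μ.map L = ν ∧
          ∀ᵐ ω ∂μ, Tendsto (fun x : ℕ => (cntLT r N (A ω) x : ℝ) * Real.log x / Real.sqrt x) atTop (𝓝 (L ω))) ↔
        ν (Set.Iio 0) = 0 ∧ ∫⁻ u, ENNReal.ofReal (u * Real.log (u / C) - u + C) ∂ν ≤ ENNReal.ofReal δ)) ∧
      (∀ (Ω : Type) [MeasurableSpace Ω] (μ : Measure Ω) [IsProbabilityMeasure μ] (A : Ω → Set ℕ), Cls r N q δ μ A →
        μ.real {ω | (A ω ∩ cand r N).Finite} ≤ δ / C) ∧
      ∃ (Ω : Type) (_ : MeasurableSpace Ω) (μ : Measure Ω) (_ : IsProbabilityMeasure μ) (A : Ω → Set ℕ), Cls r N q δ μ A ∧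
        μ.real {ω | (A ω ∩ cand r N).Finite} = min 1 (δ / C) := by
  have S := setting Pool.Agent.Q224.LT.t_MASS hN hC hq
  have e : ∀ (T : Set ℕ) (l : ℝ), Tendsto (fun x : ℕ => (cntLT r N T x : ℝ) * Real.log x / Real.sqrt x) atTop (𝓝 l) ↔
      Tendsto (fun x : ℕ => (cnt (cand r N) T x : ℝ) / sc x) atTop (𝓝 l) := by
    intro T l
    refine tendsto_congr (fun x => ?_)
    unfold sc cntLT
    rw [div_div_eq_mul_div]
  simp only [e]
  exact ⟨fun d hm hd => law_iff' Pool.Agent.Q224.LT.t_MASS hN hC hq hm hd, fun δ hδ => ⟨fun ν _ => laws_iff S hδ ν, (fin_max S hδ).1, (fin_max S hδ).2⟩⟩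

end Pool.Agent.Results.MP_d74fca_nt.LawsAtGivenInformation
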