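import Pool.Agent.Q173.ZP.Main

/-!
# The Zilber–Pink conjecture and a proportional gap in small codimension
-/

set_option autoImplicit false

open Set Pool.Agent.Q173.ZP

namespace Pool.Agent.Results.MP_d83ecd_ag.SmallCodimensionGap

universe u v

theorem result {C : Type u} (T : Theory.{u, v} C) (hT : T.IsKnown) :
    (∀ c r : ℕ, ∀ (D : ℕ) (f : ℕ → ℕ),
      (∀ (S : C) (V : Set (T.pts S)), T.Var V → D ≤ T.defect V → f (T.defect V) ≤ T.dim V →
        ¬ T.Dense V ((1 - 1 / (c : ℝ)) * T.defect V) (r * T.defect V)) →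
      ∀ (S : C) (Y V : Set (T.pts S)), Y ∈ T.special S → T.Var V → V ⊂ Y → T.dim V ≤ r →
        T.dim Y ≤ T.dim V + c → T.Q1 Y V) ∧
    List.TFAE [
      T.ZilberPink,
      ∀ (S : C) (V : Set (T.pts S)), T.Var V → 1 ≤ T.defect V →
        ¬ T.Dense V (T.defect V - 1) (T.dim V),
      ∀ ε : ℝ, 0 < ε → ∀ r : ℕ, ∃ (D : ℕ) (f : ℕ → ℕ), ∀ (S : C) (V : Set (T.pts S)), T.Var V →
        D ≤ T.defect V → f (T.defect V) ≤ T.dim V →
          ¬ T.Dense V ((1 - ε) * T.defect V) (r * T.defect V)] := by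
  have part1 : ∀ c r : ℕ, ∀ (D : ℕ) (f : ℕ → ℕ),
      (∀ (S : C) (V : Set (T.pts S)), T.Var V → D ≤ T.defect V → f (T.defect V) ≤ T.dim V →
        ¬ T.Dense V ((1 - 1 / (c : ℝ)) * T.defect V) (r * T.defect V)) →
      ∀ (S : C) (Y V : Set (T.pts S)), Y ∈ T.special S → T.Var V → V ⊂ Y → T.dim V ≤ r →
        T.dim Y ≤ T.dim V + c → T.Q1 Y V := by
    intro c r D f h S Y V hY hV hVY hr hc
    by_contra hQ
    obtain ⟨S', V', hV', hD, hf, hden⟩ := hT.amplify hY hV hVY hQ hc hr D f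
    exact h S' V' hV' hD hf hden
  refine ⟨part1, ?_⟩
  tfae_have 1 → 2 := fun h S V hV hd => hT.not_dense h hV hd
  tfae_have 2 → 3 := by
    intro h ε hε r
    obtain ⟨D, hD⟩ := exists_nat_ge (1 / ε)
    refine ⟨D + 1, fun _ => 0, fun S V hV hDV _ hden => h S V hV (by omega) ?_⟩
    have h1 : ((D + 1 : ℕ) : ℝ) ≤ T.defect V := by exact_mod_cast hDV
    push_cast at h1
    have h2 : 1 ≤ ε * T.defect V := by
      have h3 : 1 / ε ≤ T.defect V := by linarith
      rw [div_le_iff₀ hε] at h3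
      linarith
    refine (hden.mono (t := T.defect V - 1) (by linarith) (le_refl _)).trans
      (closure_mono ?_)
    refine iUnion₂_subset fun W hW => ?_
    intro z hz
    simp only [mem_iUnion, mem_ofPred_eq, exists_prop]
    exact ⟨W, ⟨hW.1, hW.2.1, hW.2.2.1, by
      have : (0 : ℝ) ≤ T.dim W := Nat.cast_nonneg _
      linarith⟩, hz⟩
  tfae_have 3 → 1 := by
    intro h S Y V hY hV hVY
    have hlt := hT.dim_lt hV (hT.var hY) hVY
    obtain ⟨D, f, hDf⟩ := h (1 / ((T.dim Y - T.dim V : ℕ) : ℝ))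
      (by
        have : (0 : ℝ) < (T.dim Y - T.dim V : ℕ) := by exact_mod_cast (by omega)
        positivity) (T.dim V)
    exact part1 (T.dim Y - T.dim V) (T.dim V) D f hDf S Y V hY hV hVY le_rfl (by omega)
  tfae_finish

end Pool.Agent.Results.MP_d83ecd_ag.SmallCodimensionGap
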