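import Mathlib

/-!
# MP_d88658_nt: lower bounds for the slope `C₁(d)` in the uniform height bound

The question asks for constants with `h(x) ≤ C₁(d) h(f) + C₂(d)` for all integral points `(x, y)` of
all curves `y ^ 2 = f(x)`, `f ∈ ℤ[x]` of degree `d` without multiple roots. We show that
`C₁(d) ≥ 3` for every `d ≥ 3`, and `C₁(3) ≥ 5`, whenever such constants exist.

With `x = t ^ 3` (`t = w ^ 2`) the following polynomials, linear in `t`, have the square values:

* `X^(4k) - 4 t X^(3k) + 8 X^(k+1) + 4 t X`, `y = -x^(2k) + 2 x^k t + 2 t^2`;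
* `4 t X^(4k+1) + 8 X^(3k+1) - 4 t X^k + 1`, `y = -1 + 2 x^k t + 2 x^(2k) t^2`;
* `t X^(4k+2) - 4 X^(3k+2) + 8 t X^(k+1) + 4 X`, `y = w (-x^(2k+1) + 2 t + 2 x^k t^2)`;
* `X^(4k+3) - 4 t X^(3k+2) + 8 X^(k+1) + 4 t`, `y = w (2 - x^(2k+1) t + 2 x^k t^2)`.

They come from the rational points of the conics over `ℚ(x)` which express that `y ^ 2` or `t Y ^ 2`,
for an element `y` or `Y` of `ℚ(t)`, of degree `3` over `ℚ(x)`, lies in `ℚ(x) + ℚ(x) t`.
In degree `3` the point with `x = 256 v^10 + 256 v^8 + 160 v^6 + 80 v^4 + 17 v^2 + 2` on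
`y ^ 2 = x ^ 3 - (8 v^2 + 7) x + (12 v^2 + 6)` is used.
-/

set_option autoImplicit false

open Polynomial

namespace Pool.Agent.Results.MP_d88658_nt.SlopeLowerBound

/-- The polynomial `a X ^ i + b X ^ j + c X ^ l + e X ^ m`. -/
noncomputable def Q (a b c e : ℤ) (i j l m : ℕ) : ℤ[X] :=
  C a * X ^ i + C b * X ^ j + C c * X ^ l + C e * X ^ m

theorem coeff_Q_le (a b c e : ℤ) (i j l m n : ℕ) :
    ((Q a b c e i j l m).coeff n).natAbs ≤ a.natAbs + b.natAbs + c.natAbs + e.natAbs := by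
  unfold Q
  simp only [coeff_add, coeff_C_mul, coeff_X_pow]
  split_ifs <;> simp <;> omega

theorem sup_Q_le (a b c e : ℤ) (i j l m : ℕ) :
    ((Q a b c e i j l m).support.sup fun n => ((Q a b c e i j l m).coeff n).natAbs) ≤
      a.natAbs + b.natAbs + c.natAbs + e.natAbs :=
  Finset.sup_le fun n _ => coeff_Q_le a b c e i j l m n

/-- A polynomial is separable if its complex roots are simple. -/
theorem separable_of (f : ℤ[X])
    (h : ∀ z : ℂ, aeval z f = 0 → aeval z (derivative f) ≠ 0) :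
    (f.map (Int.castRingHom ℚ)).Separable := by
  unfold Polynomial.Separable
  refine (Polynomial.isCoprime_iff_aeval_ne_zero_of_isAlgClosed ℚ ℂ _ _).2 fun z => ?_
  by_contra hz
  push Not at hz
  obtain ⟨h1, h2⟩ := hz
  rw [derivative_map] at h2
  have e : ∀ p : ℤ[X], aeval z (p.map (Int.castRingHom ℚ)) = aeval z p := by
    intro p
    simp [aeval_def, eval₂_map]
    congr 1
  rw [e] at h1 h2
  exact h z h1 h2

/-- In the pencil `g + t h` all but finitely many members with simple base points have only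
simple roots. -/
theorem exists_bound (g h : ℤ[X]) (hW : derivative g * h - g * derivative h ≠ 0) :
    ∃ N : ℕ, ∀ t : ℤ, (N : ℤ) ≤ t →
      (∀ z : ℂ, aeval z h = 0 → aeval z g = 0 →
        aeval z (derivative g) + t * aeval z (derivative h) ≠ 0) →
      ((g + C t * h).map (Int.castRingHom ℚ)).Separable := by
  classical
  set W := derivative g * h - g * derivative h with hWdef
  let S : Finset ℂ := (W.map (Int.castRingHom ℂ)).roots.toFinset.image
    fun z => -(aeval z g) / aeval z h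
  obtain ⟨N, hN⟩ : ∃ N : ℕ, ∀ s ∈ S, ‖s‖ < N := by
    obtain ⟨B, hB⟩ := (S.image fun s => ‖s‖).bddAbove
    obtain ⟨N, hN⟩ := exists_nat_gt B
    exact ⟨N, fun s hs => lt_of_le_of_lt (hB (by simpa using ⟨s, hs, rfl⟩)) hN⟩
  refine ⟨N, fun t ht hbase => separable_of _ fun z hz hz' => ?_⟩
  simp only [derivative_add, derivative_C_mul] at hz'
  simp only [map_add, map_mul, aeval_C] at hz hz'
  rw [eq_intCast] at hz hz'
  by_cases hh : aeval z h = 0
  · refine hbase z hh ?_ hz'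
    simpa [hh] using hz
  · have hWz : aeval z W = 0 := by
      rw [hWdef]
      simp only [map_sub, map_mul]
      linear_combination aeval z h * hz' - aeval z (derivative h) * hz
    have hmem : -(aeval z g) / aeval z h ∈ S := by
      refine Finset.mem_image.2 ⟨z, ?_, rfl⟩
      rw [Multiset.mem_toFinset, mem_roots', IsRoot.def, eval_map]
      refine ⟨?_, by simpa [aeval_def] using hWz⟩
      exact (Polynomial.map_ne_zero_iff (RingHom.injective_int _)).2 hW
    have ht2 : -(aeval z g) / aeval z h = t := by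
      field_simp
      linear_combination -hz
    have h1 := hN _ hmem
    rw [ht2] at h1
    have h2 : ‖((t : ℤ) : ℂ)‖ = |(t : ℝ)| := by
      rw [← Complex.ofReal_intCast, Complex.norm_real, Real.norm_eq_abs]
    rw [h2] at h1
    have h3 : ((N : ℕ) : ℝ) ≤ (t : ℝ) := by exact_mod_cast ht
    linarith [le_abs_self (t : ℝ)]


/-! ### The four families -/

/-- For all large `w` there are an integral polynomial `f` of degree `d` without multiple roots, all
whose coefficients are at most `40 w ^ 2` in absolute value, and an integral point `(x, y)` of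
`y ^ 2 = f x` with `x ≥ w ^ (2 e)`. -/
def HasFamily (d e : ℕ) : Prop :=
  ∃ N : ℕ, ∀ w : ℕ, N ≤ w → ∃ (f : ℤ[X]) (x y : ℤ), f.natDegree = d ∧
    (f.map (Int.castRingHom ℚ)).Separable ∧
    (f.support.sup fun i => (f.coeff i).natAbs) ≤ 40 * w ^ 2 ∧ y ^ 2 = f.eval x ∧
    (w : ℤ) ^ (2 * e) ≤ x

/-- From a pencil `g + t h` to a family, `t = w ^ 2`. -/
theorem hasFamily_of {d : ℕ} (g h : ℤ[X]) (F : ℤ → ℤ[X]) (hF : ∀ t, F t = g + C t * h)
    (hW : derivative g * h - g * derivative h ≠ 0)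
    (hbase : ∀ t : ℤ, 1 ≤ t → ∀ z : ℂ, aeval z h = 0 → aeval z g = 0 →
        aeval z (derivative g) + t * aeval z (derivative h) ≠ 0)
    (hdeg : ∀ t : ℤ, 1 ≤ t → (F t).natDegree = d)
    (hsup : ∀ t : ℕ, 1 ≤ t → ((F t).support.sup fun i => ((F t).coeff i).natAbs) ≤ 40 * t)
    (hy : ∀ w : ℤ, ∃ y : ℤ, y ^ 2 = (F (w ^ 2)).eval (w ^ 6)) : HasFamily d 3 := by
  obtain ⟨N, hN⟩ := exists_bound g h hW
  refine ⟨N + 1, fun w hw => ?_⟩
  obtain ⟨y, hy⟩ := hy w
  have hw1 : 1 ≤ w := by omega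
  have hw2 : 1 ≤ w ^ 2 := Nat.one_le_pow _ _ hw1
  have hw3 : (1 : ℤ) ≤ (w : ℤ) ^ 2 := by exact_mod_cast hw2
  refine ⟨F ((w : ℤ) ^ 2), (w : ℤ) ^ 6, y, hdeg _ hw3, ?_, ?_, hy, le_refl _⟩
  · rw [hF]
    refine hN _ ?_ (hbase _ hw3)
    have : w ≤ w ^ 2 := by nlinarith
    have h2 : N ≤ w ^ 2 := by omega
    exact_mod_cast h2
  · have := hsup (w ^ 2) hw2
    push_cast at this
    exact this

theorem W_ne_zero (g h : ℤ[X]) (hW : (derivative g * h - g * derivative h).eval 1 ≠ 0) :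
    derivative g * h - g * derivative h ≠ 0 := by
  intro h0
  exact hW (by rw [h0, eval_zero])

theorem aeval_int (z : ℂ) (n : ℤ) : aeval z (C n : ℤ[X]) = (n : ℂ) := by
  rw [aeval_C]; simp

/-- degrees `4 k + 1`: `f = 4 t X^(4k+1) + 8 X^(3k+1) - 4 t X^k + 1` -/
theorem family_one (k : ℕ) (hk : 1 ≤ k) : HasFamily (4 * k + 1) 3 := by
  refine hasFamily_of (C 8 * X ^ (3 * k + 1) + 1) (C 4 * X ^ (4 * k + 1) - C 4 * X ^ k)
    (fun t => Q (4 * t) 8 (-(4 * t)) 1 (4 * k + 1) (3 * k + 1) k 0) ?_ ?_ ?_ ?_ ?_ ?_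
  · intro t
    unfold Q
    simp only [map_mul, map_neg, C_1]
    ring
  · refine W_ne_zero _ _ ?_
    simp [derivative_X_pow]
    omega
  · intro t ht z h1 h2
    exfalso
    simp only [map_sub, map_mul, map_add, aeval_int, map_pow, aeval_X, map_one] at h1 h2
    have h3 : z ^ (4 * k + 1) = z ^ k * z ^ (3 * k + 1) := by rw [← pow_add]; congr 1; omega
    have h4 : z ^ k ≠ 0 := by
      intro h0
      have : z = 0 := pow_eq_zero_iff (by omega) |>.1 h0
      rw [this] at h2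
      simp at h2
    rw [h3] at h1
    have h5 : z ^ (3 * k + 1) = 1 := by
      have : (4 : ℂ) * z ^ k * (z ^ (3 * k + 1) - 1) = 0 := by
        push_cast at h1; linear_combination h1
      rcases mul_eq_zero.1 this with h | h
      · exact absurd h (mul_ne_zero (by norm_num) h4)
      · linear_combination h
    rw [h5] at h2
    norm_num at h2
  · intro t ht
    refine natDegree_eq_of_le_of_coeff_ne_zero ?_ ?_
    · unfold Q; compute_degree <;> omega
    · simp only [Q, coeff_add, coeff_C_mul, coeff_X_pow]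
      split_ifs <;> first | omega | simp_all
  · intro t ht
    refine (sup_Q_le _ _ _ _ _ _ _ _).trans ?_
    omega
  · intro w
    refine ⟨-1 + 2 * (w ^ 6) ^ k * w ^ 2 + 2 * (w ^ 6) ^ (2 * k) * w ^ 4, ?_⟩
    unfold Q
    simp only [eval_add, eval_mul, eval_C, eval_pow, eval_X]
    have e1 : (w ^ 6) ^ (4 * k + 1) = (w ^ 6) ^ k * (w ^ 6) ^ k * (w ^ 6) ^ k * (w ^ 6) ^ k * w ^ 6 := by ring
    have e2 : (w ^ 6) ^ (3 * k + 1) = (w ^ 6) ^ k * (w ^ 6) ^ k * (w ^ 6) ^ k * w ^ 6 := by ring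
    have e3 : (w ^ 6) ^ (2 * k) = (w ^ 6) ^ k * (w ^ 6) ^ k := by ring
    rw [e1, e2, e3]
    ring

/-- degrees `4 k`: `f = X^(4k) - 4 t X^(3k) + 8 X^(k+1) + 4 t X` -/
theorem family_zero (k : ℕ) (hk : 1 ≤ k) : HasFamily (4 * k) 3 := by
  refine hasFamily_of (X ^ (4 * k) + C 8 * X ^ (k + 1)) (C 4 * X - C 4 * X ^ (3 * k))
    (fun t => Q 1 (-(4 * t)) 8 (4 * t) (4 * k) (3 * k) (k + 1) 1) ?_ ?_ ?_ ?_ ?_ ?_
  · intro t
    unfold Q
    simp only [map_mul, map_neg, C_1]
    ring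
  · refine W_ne_zero _ _ ?_
    simp [derivative_X_pow]
    omega
  · intro t ht z h1 h2
    simp only [map_sub, map_mul, map_add, aeval_int, map_pow, aeval_X, map_one] at h1 h2
    have h3 : z ^ (4 * k) = z ^ (k + 1) * z ^ (3 * k - 1) := by rw [← pow_add]; congr 1; omega
    have h3' : z ^ (3 * k) = z * z ^ (3 * k - 1) := by rw [← pow_succ']; congr 1; omega
    have hz : z = 0 := by
      by_contra hz
      have h5 : z ^ (3 * k - 1) = 1 := by
        rw [h3'] at h1
        have : (4 : ℂ) * z * (z ^ (3 * k - 1) - 1) = 0 := by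
          push_cast at h1; linear_combination -h1
        rcases mul_eq_zero.1 this with h | h
        · exact absurd h (mul_ne_zero (by norm_num) hz)
        · linear_combination h
      rw [h3, h5] at h2
      have : (9 : ℂ) * z ^ (k + 1) = 0 := by push_cast at h2; linear_combination h2
      exact absurd this (mul_ne_zero (by norm_num) (pow_ne_zero _ hz))
    subst hz
    have k1 : (0 : ℂ) ^ (4 * k - 1) = 0 := zero_pow (by omega)
    have k2 : (0 : ℂ) ^ (3 * k - 1) = 0 := zero_pow (by omega)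
    have k3 : (0 : ℂ) ^ k = 0 := zero_pow (by omega)
    have ht0 : (t : ℂ) ≠ 0 := by exact_mod_cast (by omega : t ≠ 0)
    simp [derivative_X_pow, k1, k2, k3, ht0, map_ofNat]
  · intro t ht
    refine natDegree_eq_of_le_of_coeff_ne_zero ?_ ?_
    · unfold Q; compute_degree <;> omega
    · simp only [Q, coeff_add, coeff_C_mul, coeff_X_pow]
      split_ifs <;> first | omega | simp_all
  · intro t ht
    refine (sup_Q_le _ _ _ _ _ _ _ _).trans ?_
    omega
  · intro w
    refine ⟨-(w ^ 6) ^ (2 * k) + 2 * (w ^ 6) ^ k * w ^ 2 + 2 * w ^ 4, ?_⟩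
    unfold Q
    simp only [eval_add, eval_mul, eval_C, eval_pow, eval_X]
    have e1 : (w ^ 6) ^ (4 * k) = (w ^ 6) ^ k * (w ^ 6) ^ k * (w ^ 6) ^ k * (w ^ 6) ^ k := by ring
    have e2 : (w ^ 6) ^ (3 * k) = (w ^ 6) ^ k * (w ^ 6) ^ k * (w ^ 6) ^ k := by ring
    have e3 : (w ^ 6) ^ (2 * k) = (w ^ 6) ^ k * (w ^ 6) ^ k := by ring
    have e4 : (w ^ 6) ^ (k + 1) = (w ^ 6) ^ k * w ^ 6 := by ring
    rw [e1, e2, e3, e4]
    ring

/-- degrees `4 k + 2`: `f = t X^(4k+2) - 4 X^(3k+2) + 8 t X^(k+1) + 4 X` -/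
theorem family_two (k : ℕ) (hk : 1 ≤ k) : HasFamily (4 * k + 2) 3 := by
  refine hasFamily_of (C 4 * X - C 4 * X ^ (3 * k + 2)) (X ^ (4 * k + 2) + C 8 * X ^ (k + 1))
    (fun t => Q t (-4) (8 * t) 4 (4 * k + 2) (3 * k + 2) (k + 1) 1) ?_ ?_ ?_ ?_ ?_ ?_
  · intro t
    unfold Q
    simp only [map_mul, map_neg]
    ring
  · refine W_ne_zero _ _ ?_
    simp [derivative_X_pow]
    omega
  · intro t ht z h1 h2
    simp only [map_sub, map_mul, map_add, aeval_int, map_pow, aeval_X, map_one] at h1 h2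
    have h3 : z ^ (4 * k + 2) = z ^ (k + 1) * z ^ (3 * k + 1) := by rw [← pow_add]; congr 1; omega
    have h3' : z ^ (3 * k + 2) = z * z ^ (3 * k + 1) := by rw [← pow_succ']
    have hz : z = 0 := by
      by_contra hz
      have h5 : z ^ (3 * k + 1) = -8 := by
        rw [h3] at h1
        have : z ^ (k + 1) * (z ^ (3 * k + 1) + 8) = 0 := by
          push_cast at h1; linear_combination h1
        rcases mul_eq_zero.1 this with h | h
        · exact absurd h (pow_ne_zero _ hz)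
        · linear_combination h
      rw [h3', h5] at h2
      have : (36 : ℂ) * z = 0 := by push_cast at h2; linear_combination h2
      exact absurd this (mul_ne_zero (by norm_num) hz)
    subst hz
    have k3 : (0 : ℂ) ^ k = 0 := zero_pow (by omega)
    simp [k3, map_ofNat]
  · intro t ht
    refine natDegree_eq_of_le_of_coeff_ne_zero ?_ ?_
    · unfold Q; compute_degree <;> omega
    · simp only [Q, coeff_add, coeff_C_mul, coeff_X_pow]
      split_ifs <;> first | omega | simp_all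
  · intro t ht
    refine (sup_Q_le _ _ _ _ _ _ _ _).trans ?_
    omega
  · intro w
    refine ⟨w * (-(w ^ 6) ^ (2 * k) * w ^ 6 + 2 * w ^ 2 + 2 * (w ^ 6) ^ k * w ^ 4), ?_⟩
    unfold Q
    simp only [eval_add, eval_mul, eval_C, eval_pow, eval_X]
    have e1 : (w ^ 6) ^ (4 * k + 2) =
        (w ^ 6) ^ k * (w ^ 6) ^ k * (w ^ 6) ^ k * (w ^ 6) ^ k * w ^ 12 := by ring
    have e2 : (w ^ 6) ^ (3 * k + 2) = (w ^ 6) ^ k * (w ^ 6) ^ k * (w ^ 6) ^ k * w ^ 12 := by ring
    have e3 : (w ^ 6) ^ (2 * k) = (w ^ 6) ^ k * (w ^ 6) ^ k := by ring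
    have e4 : (w ^ 6) ^ (k + 1) = (w ^ 6) ^ k * w ^ 6 := by ring
    rw [e1, e2, e3, e4]
    ring

/-- degrees `4 k + 3`: `f = X^(4k+3) - 4 t X^(3k+2) + 8 X^(k+1) + 4 t` -/
theorem family_three (k : ℕ) : HasFamily (4 * k + 3) 3 := by
  refine hasFamily_of (X ^ (4 * k + 3) + C 8 * X ^ (k + 1)) (C 4 - C 4 * X ^ (3 * k + 2))
    (fun t => Q 1 (-(4 * t)) 8 (4 * t) (4 * k + 3) (3 * k + 2) (k + 1) 0) ?_ ?_ ?_ ?_ ?_ ?_
  · intro t
    unfold Q
    simp only [map_mul, map_neg, C_1]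
    ring
  · refine W_ne_zero _ _ ?_
    simp [derivative_X_pow]
    omega
  · intro t ht z h1 h2
    exfalso
    simp only [map_sub, map_mul, map_add, aeval_int, map_pow, aeval_X, map_one] at h1 h2
    have h3 : z ^ (4 * k + 3) = z ^ (k + 1) * z ^ (3 * k + 2) := by rw [← pow_add]; congr 1; omega
    have h5 : z ^ (3 * k + 2) = 1 := by push_cast at h1; linear_combination -h1 / 4
    rw [h3, h5] at h2
    have h6 : (9 : ℂ) * z ^ (k + 1) = 0 := by push_cast at h2; linear_combination h2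
    rcases mul_eq_zero.1 h6 with h | h
    · norm_num at h
    · have : z = 0 := pow_eq_zero_iff (by omega) |>.1 h
      rw [this, zero_pow (by omega)] at h5
      norm_num at h5
  · intro t ht
    refine natDegree_eq_of_le_of_coeff_ne_zero ?_ ?_
    · unfold Q; compute_degree <;> omega
    · simp only [Q, coeff_add, coeff_C_mul, coeff_X_pow]
      split_ifs <;> first | omega | simp_all
  · intro t ht
    refine (sup_Q_le _ _ _ _ _ _ _ _).trans ?_
    omega
  · intro w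
    refine ⟨w * (2 - (w ^ 6) ^ k * w ^ 6 * (w ^ 6) ^ k * w ^ 2 + 2 * (w ^ 6) ^ k * w ^ 4), ?_⟩
    unfold Q
    simp only [eval_add, eval_mul, eval_C, eval_pow, eval_X]
    have e1 : (w ^ 6) ^ (4 * k + 3) =
        (w ^ 6) ^ k * (w ^ 6) ^ k * (w ^ 6) ^ k * (w ^ 6) ^ k * w ^ 18 := by ring
    have e2 : (w ^ 6) ^ (3 * k + 2) = (w ^ 6) ^ k * (w ^ 6) ^ k * (w ^ 6) ^ k * w ^ 12 := by ring
    have e4 : (w ^ 6) ^ (k + 1) = (w ^ 6) ^ k * w ^ 6 := by ring
    rw [e1, e2, e4]
    ring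

theorem hasFamily_all (d : ℕ) (hd : 3 ≤ d) : HasFamily d 3 := by
  obtain ⟨k, hk | hk | hk | hk⟩ : ∃ k, d = 4 * k ∨ d = 4 * k + 1 ∨ d = 4 * k + 2 ∨ d = 4 * k + 3 :=
    ⟨d / 4, by omega⟩
  · rw [hk]; exact family_zero k (by omega)
  · rw [hk]; exact family_one k (by omega)
  · rw [hk]; exact family_two k (by omega)
  · rw [hk]; exact family_three k

/-- degree `3`: `f = X ^ 3 - (8 w ^ 2 + 7) X + (12 w ^ 2 + 6)` -/
theorem family_cubic : HasFamily 3 5 := by
  refine ⟨1, fun w hw => ?_⟩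
  have hw2 : 1 ≤ w ^ 2 := Nat.one_le_pow _ _ hw
  obtain ⟨v, hv⟩ : ∃ v : ℤ, v = (w : ℤ) := ⟨_, rfl⟩
  have hv1 : 1 ≤ v := by omega
  have hv2 : 1 ≤ v ^ 2 := by rw [hv]; exact_mod_cast hw2
  obtain ⟨A, hA⟩ : ∃ A : ℤ, A = -(8 * v ^ 2 + 7) := ⟨_, rfl⟩
  obtain ⟨B, hB⟩ : ∃ B : ℤ, B = 12 * v ^ 2 + 6 := ⟨_, rfl⟩
  refine ⟨Q 1 A B 0 3 1 0 0,
    256 * v ^ 10 + 256 * v ^ 8 + 160 * v ^ 6 + 80 * v ^ 4 + 17 * v ^ 2 + 2,
    v * (4096 * v ^ 14 + 6144 * v ^ 12 + 5376 * v ^ 10 + 3584 * v ^ 8 +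
      1584 * v ^ 6 + 504 * v ^ 4 + 111 * v ^ 2 + 9), ?_, ?_, ?_, ?_, ?_⟩
  · refine natDegree_eq_of_le_of_coeff_ne_zero ?_ ?_
    · unfold Q; compute_degree
    · simp only [Q, coeff_add, coeff_C_mul, coeff_X_pow]
      norm_num
  · have hd : 4 * A ^ 3 + 27 * B ^ 2 ≠ 0 := by
      have h : 4 * A ^ 3 + 27 * B ^ 2 =
          -(2048 * (v ^ 2) ^ 3 + 1488 * (v ^ 2) ^ 2 + 816 * v ^ 2 + 400) := by
        rw [hA, hB]; ring
      rw [h]
      have : 0 < 2048 * (v ^ 2) ^ 3 + 1488 * (v ^ 2) ^ 2 + 816 * v ^ 2 + 400 := by positivity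
      omega
    have hQ : Q 1 A B 0 3 1 0 0 = X ^ 3 + C A * X + C B := by
      unfold Q; simp
    rw [hQ]
    refine separable_of _ fun z h1 h2 => ?_
    simp only [map_add, map_mul, map_pow, aeval_X, aeval_int] at h1
    rw [derivative_add, derivative_add, derivative_C_mul, derivative_X, derivative_C,
      derivative_X_pow] at h2
    simp only [map_add, map_mul, map_pow, aeval_X, aeval_int, map_one, map_zero, map_natCast,
      mul_one, add_zero] at h2
    apply hd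
    have : ((4 * A ^ 3 + 27 * B ^ 2 : ℤ) : ℂ) = 0 := by
      push_cast at h2 ⊢
      linear_combination -(18 * A * z - 27 * B) * h1 + (6 * A * z ^ 2 - 9 * B * z + 4 * A ^ 2) * h2
    exact_mod_cast this
  · refine (sup_Q_le _ _ _ _ _ _ _ _).trans ?_
    have h1 : A.natAbs = 8 * w ^ 2 + 7 := by
      have : A = -((8 * w ^ 2 + 7 : ℕ) : ℤ) := by rw [hA, hv]; push_cast; ring
      rw [this, Int.natAbs_neg, Int.natAbs_natCast]
    have h2 : B.natAbs = 12 * w ^ 2 + 6 := by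
      have : B = ((12 * w ^ 2 + 6 : ℕ) : ℤ) := by rw [hB, hv]; push_cast; ring
      rw [this, Int.natAbs_natCast]
    rw [h1, h2]
    simp
    omega
  · simp only [Q, eval_add, eval_mul, eval_C, eval_pow, eval_X]
    rw [hA, hB]
    ring
  · rw [← hv]
    have : (0 : ℤ) ≤ 255 * v ^ 10 + 256 * v ^ 8 + 160 * v ^ 6 + 80 * v ^ 4 + 17 * v ^ 2 + 2 := by
      positivity
    calc v ^ (2 * 5) = v ^ 10 := by norm_num
      _ ≤ _ := by linarith

/-- A bound `h(x) ≤ C₁ h(f) + C₂` in degree `d` forces `e ≤ C₁` if there is a family. -/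
theorem slope_ge {d e : ℕ} (he : 1 ≤ e) (h : HasFamily d e) (C₁ C₂ : ℝ)
    (hb : ∀ f : ℤ[X], f.natDegree = d → (f.map (Int.castRingHom ℚ)).Separable →
      ∀ x y : ℤ, y ^ 2 = f.eval x → Real.log (max |(x : ℝ)| 1) ≤
        C₁ * Real.log (max ((f.support.sup (fun i => (f.coeff i).natAbs) : ℕ) : ℝ) 1) + C₂) :
    (e : ℝ) ≤ C₁ := by
  by_contra hlt
  push Not at hlt
  obtain ⟨N, hN⟩ := h
  set c : ℝ := max C₁ 0 with hc
  have hec : c < e := max_lt hlt (by exact_mod_cast he)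
  have key : ∀ w : ℕ, max N 1 ≤ w →
      (2 * e - 2 * c) * Real.log w ≤ c * Real.log 40 + C₂ := by
    intro w hw
    have hw1 : 1 ≤ w := le_trans (le_max_right _ _) hw
    obtain ⟨f, x, y, hf1, hf2, hf3, hf4, hf5⟩ := hN w (le_trans (le_max_left _ _) hw)
    have h1 := hb f hf1 hf2 x y hf4
    set L : ℝ := Real.log (max ((f.support.sup (fun i => (f.coeff i).natAbs) : ℕ) : ℝ) 1) with hL
    have hwr : (1 : ℝ) ≤ w := by exact_mod_cast hw1
    have hL0 : 0 ≤ L := Real.log_nonneg (le_max_right _ _)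
    have hL1 : L ≤ Real.log 40 + 2 * Real.log w := by
      have h2 : max ((f.support.sup (fun i => (f.coeff i).natAbs) : ℕ) : ℝ) 1 ≤ 40 * (w : ℝ) ^ 2 := by
        refine max_le (by exact_mod_cast hf3) ?_
        nlinarith
      have h3 := Real.log_le_log (by positivity) h2
      rw [Real.log_mul (by norm_num) (by positivity), Real.log_pow] at h3
      push_cast at h3
      linarith
    have hx : (2 * e : ℝ) * Real.log w ≤ Real.log (max |(x : ℝ)| 1) := by
      have h2 : (w : ℝ) ^ (2 * e) ≤ max |(x : ℝ)| 1 := by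
        refine le_trans ?_ (le_max_left _ _)
        refine le_trans ?_ (le_abs_self _)
        exact_mod_cast hf5
      have h3 := Real.log_le_log (by positivity) h2
      rw [Real.log_pow] at h3
      push_cast at h3
      exact h3
    have h4 : C₁ * L ≤ c * L := mul_le_mul_of_nonneg_right (le_max_left _ _) hL0
    have h5 : c * L ≤ c * (Real.log 40 + 2 * Real.log w) :=
      mul_le_mul_of_nonneg_left hL1 (le_max_right _ _)
    linarith
  have hpos : 0 < 2 * (e : ℝ) - 2 * c := by linarith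
  have ht : Filter.Tendsto (fun w : ℕ => (2 * (e : ℝ) - 2 * c) * Real.log w) Filter.atTop
      Filter.atTop :=
    (Real.tendsto_log_atTop.comp tendsto_natCast_atTop_atTop).const_mul_atTop hpos
  obtain ⟨w, hw1, hw2⟩ := ((ht.eventually_gt_atTop (c * Real.log 40 + C₂)).and
    (Filter.eventually_ge_atTop (max N 1))).exists
  linarith [key w hw2]

/-- **The slope in the uniform height bound.** If `h(x) ≤ C₁ h(f) + C₂` for all integral points
`(x, y)` of all curves `y ^ 2 = f(x)`, `f` an integral polynomial of degree `d` without multiple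
roots, then `C₁ ≥ 3`, for every `d ≥ 3`, and `C₁ ≥ 5` if `d = 3`. -/
theorem result :
    (∀ d : ℕ, 3 ≤ d → ∀ C₁ C₂ : ℝ,
      (∀ f : ℤ[X], f.natDegree = d → (f.map (Int.castRingHom ℚ)).Separable →
        ∀ x y : ℤ, y ^ 2 = f.eval x → Real.log (max |(x : ℝ)| 1) ≤
          C₁ * Real.log (max ((f.support.sup (fun i => (f.coeff i).natAbs) : ℕ) : ℝ) 1) + C₂) →
      3 ≤ C₁) ∧
    (∀ C₁ C₂ : ℝ,
      (∀ f : ℤ[X], f.natDegree = 3 → (f.map (Int.castRingHom ℚ)).Separable →
        ∀ x y : ℤ, y ^ 2 = f.eval x → Real.log (max |(x : ℝ)| 1) ≤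
          C₁ * Real.log (max ((f.support.sup (fun i => (f.coeff i).natAbs) : ℕ) : ℝ) 1) + C₂) →
      5 ≤ C₁) := by
  refine ⟨fun d hd C₁ C₂ hb => ?_, fun C₁ C₂ hb => ?_⟩
  · exact_mod_cast slope_ge (by norm_num) (hasFamily_all d hd) C₁ C₂ hb
  · exact_mod_cast slope_ge (by norm_num) family_cubic C₁ C₂ hb

end Pool.Agent.Results.MP_d88658_nt.SlopeLowerBound
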