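import Pool.Agent.Q123.HR.Exist

/-!
# The Hadamard conjecture for matrices whose signed rows are closed under a Boolean operation

The signed rows of a Hadamard matrix of order `n` are its rows and their negatives, read as `2 n`
binary words of length `n`. For every Boolean operation `f`, applied coordinatewise, we determine
the orders of the Hadamard matrices whose signed rows are closed under `f`, up to the Hadamard
conjecture itself:

* `f` not affine over the field with two elements: the orders `1` and `2`;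
* `f` affine, depending on at least two variables: the powers of two;
* `f` depending on at most one variable: all orders of Hadamard matrices.
-/

namespace Pool.Agent.Results.MP_d8b1b3_co.ClosedRows

open Q123.HR Q123.CC Finset

/-- **Trichotomy.** -/
theorem result (k : ℕ) (f : (Fin k → ZMod 2) → ZMod 2) (n : ℕ) (hn : 1 ≤ n) :
    (¬ IsAffine f →
      ((∃ H : Matrix (Fin n) (Fin n) ℤ, IsHadamard H ∧ ClosedUnder f (signedRows H)) ↔ n ≤ 2)) ∧
    (∀ (c : ZMod 2) (s : Finset (Fin k)), (∀ x, f x = c + ∑ i ∈ s, x i) →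
      (2 ≤ s.card →
        ((∃ H : Matrix (Fin n) (Fin n) ℤ, IsHadamard H ∧ ClosedUnder f (signedRows H)) ↔
          ∃ r, n = 2 ^ r)) ∧
      (s.card ≤ 1 →
        ((∃ H : Matrix (Fin n) (Fin n) ℤ, IsHadamard H ∧ ClosedUnder f (signedRows H)) ↔
          ∃ H : Matrix (Fin n) (Fin n) ℤ, IsHadamard H))) := by
  have hequiv : ∀ r : ℕ, Nonempty (Fin (2 ^ r) ≃ (Fin r → ZMod 2)) := by
    intro r
    exact ⟨(Fintype.equivFinOfCardEq (by simp [ZMod.card])).symm⟩
  refine ⟨fun hf => ⟨?_, ?_⟩, fun c s hf => ⟨fun hs => ⟨?_, ?_⟩, fun hs => ⟨?_, ?_⟩⟩⟩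
  · rintro ⟨H, hH, hC⟩
    exact order_le_two hn hH hf hC
  · intro hn2
    obtain ⟨r, hr, rfl⟩ : ∃ r, r ≤ 1 ∧ n = 2 ^ r := by
      interval_cases n
      · exact ⟨0, by norm_num, by norm_num⟩
      · exact ⟨1, by norm_num, by norm_num⟩
    obtain ⟨e⟩ := hequiv r
    exact ⟨sylvester r e, sylvester_hadamard r e, small_closed r hr e f⟩
  · rintro ⟨H, hH, hC⟩
    exact order_two_pow hn hH hs hf hC
  · rintro ⟨r, rfl⟩
    obtain ⟨e⟩ := hequiv r
    exact ⟨sylvester r e, sylvester_hadamard r e, sylvester_closed r e hf⟩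
  · rintro ⟨H, hH, _⟩
    exact ⟨H, hH⟩
  · intro hex
    exact unary_closed hn hs hf hex

end Pool.Agent.Results.MP_d8b1b3_co.ClosedRows
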