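import Mathlib
import Pool.Agent.Q273.ApxF
import Pool.Agent.Q273.ApxS
import Pool.Agent.Q273.SzS
import Pool.Agent.Results.MP_d8bd92_nt.FullTwoTorsionAllExponents

/-!
# Szpiro's inequality for the semistable curves whose invariants approximate a given number
-/

set_option autoImplicit false

namespace Pool.Agent.Results.MP_d8bd92_nt.GoodApproximations

/-- the 2-torsion points of `W` are rational, with the `x`-coordinates `r₁`, `r₂`, `r₃` -/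
def IsRoots (W : WeierstrassCurve ℤ) (r₁ r₂ r₃ : ℚ) : Prop :=
  ∀ x : ℚ, 4 * x ^ 3 + W.b₂ * x ^ 2 + 2 * W.b₄ * x + W.b₆ = 4 * (x - r₁) * (x - r₂) * (x - r₃)

/-- the product of the distinct primes dividing `Δ(W)` (the conductor if `gcd(c₄, Δ) = 1`) -/
def conductor (W : WeierstrassCurve ℤ) : ℕ := ∏ p ∈ W.Δ.natAbs.primeFactors, p

/-- the height: `H ^ 6 = max (|c₄| ^ 3, c₆ ^ 2)` -/
noncomputable def H (c₄ c₆ : ℤ) : ℝ := max (|(c₄ : ℝ)| ^ (1 / 2 : ℝ)) (|(c₆ : ℝ)| ^ (1 / 3 : ℝ))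

/-- the exponent as a function of `l = 6 / κ`, continuous and piecewise linear -/
noncomputable def F (l : ℝ) : ℝ :=
  if l ≤ 2 / 3 then 4 * l / 7
  else if l ≤ 1 then (13 * l + 2) / 28
  else if l ≤ 3 / 2 then 5 * (10 * l - 1) / 84
  else if l ≤ 16 / 9 then (9 * l - 1) / 15
  else if l ≤ 2 then 1
  else l - 1

/-- the invariants `(c₄, c₆)` of the integral Weierstrass curves with `Δ ≠ 0` and `gcd(c₄, Δ) = 1`
(the minimal models of the semistable elliptic curves over `ℚ`) with full rational 2-torsion and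
`c₀ N ^ κ < |Δ|` -/
def Bad (κ c₀ : ℝ) : Set (ℤ × ℤ) :=
  {q | ∃ W : WeierstrassCurve ℤ, W.Δ ≠ 0 ∧ IsCoprime W.c₄ W.Δ ∧
    (∃ r₁ r₂ r₃ : ℚ, IsRoots W r₁ r₂ r₃) ∧ q = (W.c₄, W.c₆) ∧
    c₀ * (conductor W : ℝ) ^ κ < |(W.Δ : ℝ)|}

private theorem H_le {a b : ℤ} {X : ℝ} (h : H a b ≤ X) :
    |(a : ℝ)| ≤ X ^ 2 ∧ |(b : ℝ)| ≤ X ^ 3 := by
  have h1 : |(a : ℝ)| ^ (1 / 2 : ℝ) ≤ X := (le_max_left _ _).trans h
  have h2 : |(b : ℝ)| ^ (1 / 3 : ℝ) ≤ X := (le_max_right _ _).trans h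
  constructor
  · calc |(a : ℝ)| = (|(a : ℝ)| ^ (1 / 2 : ℝ)) ^ 2 := by
          rw [← Real.rpow_natCast, ← Real.rpow_mul (abs_nonneg _)]
          norm_num
      _ ≤ X ^ 2 := pow_le_pow_left₀ (by positivity) h1 2
  · calc |(b : ℝ)| = (|(b : ℝ)| ^ (1 / 3 : ℝ)) ^ 3 := by
          rw [← Real.rpow_natCast, ← Real.rpow_mul (abs_nonneg _)]
          norm_num
      _ ≤ X ^ 3 := pow_le_pow_left₀ (by positivity) h2 3

private theorem le_H {a b : ℤ} {X : ℝ} (hX : 0 ≤ X) (h1 : |(a : ℝ)| ≤ X ^ 2)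
    (h2 : |(b : ℝ)| ≤ X ^ 3) : H a b ≤ X := by
  apply max_le
  · calc |(a : ℝ)| ^ (1 / 2 : ℝ) ≤ (X ^ 2) ^ (1 / 2 : ℝ) :=
          Real.rpow_le_rpow (abs_nonneg _) h1 (by norm_num)
      _ = X := by
          rw [← Real.rpow_natCast, ← Real.rpow_mul hX]
          norm_num
  · calc |(b : ℝ)| ^ (1 / 3 : ℝ) ≤ (X ^ 3) ^ (1 / 3 : ℝ) :=
          Real.rpow_le_rpow (abs_nonneg _) h2 (by norm_num)
      _ = X := by
          rw [← Real.rpow_natCast, ← Real.rpow_mul hX]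
          norm_num

private theorem F_nonneg {lam : ℝ} (h : 0 < lam) : 0 ≤ F lam := by
  unfold F
  split_ifs <;> linarith

private theorem F_lt_one {lam : ℝ} (h : lam < 16 / 9) : F lam < 1 := by
  unfold F
  split_ifs <;> linarith

private theorem count (κ K : ℝ) (hκ : 0 < κ) (hK : 0 < K) (ε : ℝ) (hε : 0 < ε) :
    ∃ C : ℝ, ∀ X : ℝ, 1 ≤ X → {q | q ∈ Bad κ K ∧ H q.1 q.2 ≤ X}.Finite ∧
      ({q | q ∈ Bad κ K ∧ H q.1 q.2 ≤ X}.ncard : ℝ) ≤ C * X ^ (F (6 / κ) + ε) := by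
  obtain ⟨C, hC⟩ := FullTwoTorsionAllExponents.result κ K ε hκ hK hε
  have hF : 0 ≤ F (6 / κ) := F_nonneg (by positivity)
  refine ⟨|C| * 2 ^ (F (6 / κ) + ε), fun X hX => ?_⟩
  set n : ℕ := ⌈X⌉₊ with hn
  have hXn : X ≤ n := Nat.le_ceil X
  have hn1 : 1 ≤ n := by
    have : (1 : ℝ) ≤ n := hX.trans hXn
    exact_mod_cast this
  obtain ⟨h1, h2⟩ := hC n hn1
  have hsub : {q | q ∈ Bad κ K ∧ H q.1 q.2 ≤ X} ⊆
      FullTwoTorsionAllExponents.Exceptional κ K n := by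
    rintro q ⟨⟨W, h3, h3', h4, rfl, h5⟩, h6⟩
    obtain ⟨h7, h8⟩ := H_le h6
    refine ⟨W, h3, h3', h4, rfl, ?_, ?_, h5⟩
    · have : |(W.c₄ : ℝ)| ≤ (n : ℝ) ^ 2 := h7.trans (pow_le_pow_left₀ (by linarith) hXn 2)
      have h9 : |W.c₄| ≤ (n : ℤ) ^ 2 := by exact_mod_cast this
      calc |W.c₄| ^ 3 ≤ ((n : ℤ) ^ 2) ^ 3 := pow_le_pow_left₀ (abs_nonneg _) h9 3
        _ = (n : ℤ) ^ 6 := by ring
    · have : |(W.c₆ : ℝ)| ≤ (n : ℝ) ^ 3 := h8.trans (pow_le_pow_left₀ (by linarith) hXn 3)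
      have h9 : |W.c₆| ≤ (n : ℤ) ^ 3 := by exact_mod_cast this
      calc W.c₆ ^ 2 = |W.c₆| ^ 2 := (sq_abs _).symm
        _ ≤ ((n : ℤ) ^ 3) ^ 2 := pow_le_pow_left₀ (abs_nonneg _) h9 2
        _ = (n : ℤ) ^ 6 := by ring
  refine ⟨h1.subset hsub, ?_⟩
  have h3 : ({q | q ∈ Bad κ K ∧ H q.1 q.2 ≤ X}.ncard : ℝ) ≤
      ((FullTwoTorsionAllExponents.Exceptional κ K n).ncard : ℝ) := by
    exact_mod_cast Set.ncard_le_ncard hsub h1
  have h4 : (n : ℝ) ≤ 2 * X := by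
    have := (Nat.ceil_lt_add_one (by linarith : (0 : ℝ) ≤ X)).le
    linarith
  have h5 : (n : ℝ) ^ (F (6 / κ) + ε) ≤ (2 * X) ^ (F (6 / κ) + ε) :=
    Real.rpow_le_rpow (Nat.cast_nonneg _) h4 (by linarith)
  rw [Real.mul_rpow (by norm_num) (by linarith)] at h5
  have h6 : C * (n : ℝ) ^ (F (6 / κ) + ε) ≤ |C| * (2 ^ (F (6 / κ) + ε) * X ^ (F (6 / κ) + ε)) :=
    mul_le_mul (le_abs_self C) h5 (by positivity) (abs_nonneg C)
  have h7 : ((FullTwoTorsionAllExponents.Exceptional κ K n).ncard : ℝ) ≤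
      C * (n : ℝ) ^ (F (6 / κ) + ε) := h2
  linarith

open Q273.AbcR (R c abc)

/-- the curves of the rational numbers with a large radical -/
private theorem good {κ c₀ : ℝ} (hκ : 0 < κ) (hc₀ : 0 < c₀) {r : ℚ} (h0 : r ≠ 0) (h1 : r ≠ 1)
    (h16 : (16 : ℤ) ∣ r.num ∨ (16 : ℤ) ∣ (r.den : ℤ))
    (hR : 2 * (1 / c₀) ^ (1 / κ) * (c r : ℝ) ^ (6 / κ) < (R (abc r) : ℝ)) :
    ∃ W : WeierstrassCurve ℤ, W.Δ ≠ 0 ∧ IsCoprime W.c₄ W.Δ ∧
      (∃ r₁ r₂ r₃ : ℚ, IsRoots W r₁ r₂ r₃ ∧ r = (r₃ - r₁) / (r₂ - r₁)) ∧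
      |(W.Δ : ℝ)| ≤ c₀ * (conductor W : ℝ) ^ κ ∧
      0 < H W.c₄ W.c₆ ∧ H W.c₄ W.c₆ ≤ 3 * (c r : ℝ) := by
  obtain ⟨W, hΔ0, hcop, hroots, h4, h6, hΔ⟩ := Q273.SzS.exists_frey h0 h1 h16
  have hc0 : (0 : ℝ) ≤ (c r : ℝ) := Nat.cast_nonneg _
  have h4r : |(W.c₄ : ℝ)| ≤ (3 * (c r : ℝ)) ^ 2 := by
    have : |(W.c₄ : ℝ)| ≤ 3 * (c r : ℝ) ^ 2 := by exact_mod_cast h4
    nlinarith
  have h6r : |(W.c₆ : ℝ)| ≤ (3 * (c r : ℝ)) ^ 3 := by
    have h7 : |(W.c₆ : ℝ)| ≤ 17 * (c r : ℝ) ^ 3 := by exact_mod_cast h6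
    have h8 : (0 : ℝ) ≤ (c r : ℝ) ^ 3 := by positivity
    nlinarith
  refine ⟨W, hΔ0, hcop, hroots, ?_, ?_, le_H (by positivity) h4r h6r⟩
  · have hC2 := Q273.SzS.two_mul_le r W.Δ.natAbs.primeFactors (by
        intro p hp hp2
        rw [Nat.mem_primeFactors] at hp ⊢
        refine ⟨hp.1, ?_, by omega⟩
        have h2 : (p : ℤ) ∣ 256 * W.Δ := by
          rw [hΔ]
          exact dvd_pow (by exact_mod_cast hp.2.1) (by norm_num)
        have hpp : Prime (p : ℤ) := Nat.prime_iff_prime_int.1 hp.1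
        rcases hpp.dvd_or_dvd h2 with h3 | h3
        · exfalso
          have h5 : (p : ℤ) ∣ 2 ^ 8 := by norm_num; exact h3
          have h7 : p ∣ 2 := by exact_mod_cast hpp.dvd_of_dvd_pow h5
          exact hp2 ((Nat.prime_dvd_prime_iff_eq hp.1 Nat.prime_two).1 h7)
        · exact Int.natCast_dvd.1 h3) (by
        intro p hp
        exact (Nat.prime_of_mem_primeFactors hp).pos)
    have hC2' : (R (abc r) : ℝ) ≤ 2 * (conductor W : ℝ) := by exact_mod_cast hC2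
    have h2 : (1 / c₀) ^ (1 / κ) * (c r : ℝ) ^ (6 / κ) ≤ (conductor W : ℝ) := by
      nlinarith
    have h3 : ((1 / c₀) ^ (1 / κ) * (c r : ℝ) ^ (6 / κ)) ^ κ = 1 / c₀ * (c r : ℝ) ^ 6 := by
      rw [Real.mul_rpow (by positivity) (by positivity), ← Real.rpow_mul (by positivity),
        ← Real.rpow_mul hc0, one_div_mul_cancel hκ.ne', div_mul_cancel₀ _ hκ.ne', Real.rpow_one]
      norm_cast
    have habc : (abc r : ℝ) ≤ (c r : ℝ) ^ 3 := by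
      have h7 : abc r ≤ c r ^ 3 := by
        unfold abc
        calc r.num.natAbs * r.den * (r.num - r.den).natAbs ≤ c r * c r * c r := by
              apply Nat.mul_le_mul (Nat.mul_le_mul _ _) _
              · unfold c; omega
              · unfold c; omega
              · unfold c; omega
          _ = c r ^ 3 := by ring
      exact_mod_cast h7
    have hΔr : 256 * (W.Δ : ℝ) = (abc r : ℝ) ^ 2 := by exact_mod_cast hΔ
    have h5 : |(W.Δ : ℝ)| ≤ (c r : ℝ) ^ 6 := by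
      have h8 : (abc r : ℝ) ^ 2 ≤ ((c r : ℝ) ^ 3) ^ 2 :=
        pow_le_pow_left₀ (Nat.cast_nonneg _) habc 2
      have h9 : (0 : ℝ) ≤ (abc r : ℝ) ^ 2 := by positivity
      have h10 : (0 : ℝ) ≤ (W.Δ : ℝ) := by linarith
      rw [abs_of_nonneg h10]
      have h11 : ((c r : ℝ) ^ 3) ^ 2 = (c r : ℝ) ^ 6 := by ring
      rw [h11] at h8
      linarith
    calc |(W.Δ : ℝ)| ≤ (c r : ℝ) ^ 6 := h5
      _ = c₀ * ((1 / c₀) ^ (1 / κ) * (c r : ℝ) ^ (6 / κ)) ^ κ := by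
          rw [h3]
          field_simp
      _ ≤ _ := mul_le_mul_of_nonneg_left (Real.rpow_le_rpow (by positivity) h2 hκ.le) hc₀.le
  · by_contra hcon
    push Not at hcon
    obtain ⟨z1, z2⟩ := H_le hcon
    have z3 : (W.c₄ : ℝ) = 0 := by
      have : |(W.c₄ : ℝ)| ≤ 0 := by simpa using z1
      exact abs_nonpos_iff.1 this
    have z4 : (W.c₆ : ℝ) = 0 := by
      have : |(W.c₆ : ℝ)| ≤ 0 := by simpa using z2
      exact abs_nonpos_iff.1 this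
    have z5 : W.c₄ = 0 := by exact_mod_cast z3
    have z6 : W.c₆ = 0 := by exact_mod_cast z4
    have z7 := W.c_relation
    rw [z5, z6] at z7
    omega

/-- **Szpiro's inequality for the semistable curves whose invariants approximate a given number.**
Let `κ, τ > 0`.
(1) Let `φ` be a map from the pairs of integers to a metric space `Y`. There is a subset `E` of `Y`
of Hausdorff dimension at most `F (6 / κ) / τ` such that for every `ξ ∈ Y` outside `E` and all `A`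
and `c₀ > 0` only finitely many semistable elliptic curves over `ℚ` with full rational 2-torsion and
`dist ξ (φ (c₄, c₆)) ≤ A H ^ (-τ)` have `|Δ| > c₀ N ^ κ`.
(2) Let `κ > 27 / 8` and `F (6 / κ) + τ < 2`. For every irrational number `ξ` and every `c₀ > 0` there
are infinitely many rational numbers `r` such that `|ξ - r| ≤ H ^ (-τ)` and `|Δ| ≤ c₀ N ^ κ` for a
semistable elliptic curve over `ℚ` with three rational 2-torsion points the `x`-coordinates of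
which satisfy `r = (r₃ - r₁) / (r₂ - r₁)`. -/
theorem result (κ τ : ℝ) (hκ : 0 < κ) (hτ : 0 < τ) :
    (∀ (Y : Type) [MetricSpace Y] (φ : ℤ → ℤ → Y), ∃ E : Set Y,
      dimH E ≤ ENNReal.ofReal (F (6 / κ) / τ) ∧ ∀ ξ : Y, ξ ∉ E → ∀ A c₀ : ℝ, 0 < c₀ →
        {q : ℤ × ℤ | q ∈ Bad κ c₀ ∧ dist ξ (φ q.1 q.2) ≤ A * H q.1 q.2 ^ (-τ)}.Finite) ∧
    (27 / 8 < κ → F (6 / κ) + τ < 2 → ∀ ξ : ℝ, Irrational ξ → ∀ c₀ : ℝ, 0 < c₀ →
      {r : ℚ | ∃ W : WeierstrassCurve ℤ, W.Δ ≠ 0 ∧ IsCoprime W.c₄ W.Δ ∧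
        (∃ r₁ r₂ r₃ : ℚ, IsRoots W r₁ r₂ r₃ ∧ r = (r₃ - r₁) / (r₂ - r₁)) ∧
        |ξ - r| ≤ H W.c₄ W.c₆ ^ (-τ) ∧
        |(W.Δ : ℝ)| ≤ c₀ * (conductor W : ℝ) ^ κ}.Infinite) := by
  constructor
  · intro Y _ φ
    obtain ⟨E, hE, h⟩ := Q273.Apx.approx_family (ι := ℕ) (fun n => Bad κ (1 / ((n : ℝ) + 1)))
      (fun q => H q.1 q.2) (fun q => φ q.1 q.2)
      (F_nonneg (by positivity : (0 : ℝ) < 6 / κ)) hτ
      (fun n ε hε => count κ (1 / ((n : ℝ) + 1)) hκ (by positivity) ε hε)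
    refine ⟨E, hE, fun ξ hξ A K hK => ?_⟩
    obtain ⟨n, hn⟩ := exists_nat_one_div_lt hK
    refine (h ξ hξ n A).subset ?_
    rintro q ⟨⟨W, h1, h1', h2, h3, h5⟩, h4⟩
    refine ⟨⟨W, h1, h1', h2, h3, lt_of_le_of_lt ?_ h5⟩, h4⟩
    exact mul_le_mul_of_nonneg_right hn.le (by positivity)
  · intro hκ2 hFτ ξ hξ K hK
    have hlam : (0 : ℝ) < 6 / κ := by positivity
    have hlam2 : 6 / κ < 16 / 9 := by
      rw [div_lt_div_iff₀ hκ (by norm_num)]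
      linarith
    set B : ℝ := 2 * (1 / K) ^ (1 / κ) with hB
    have hinf := Q273.ApxS.infinitelyS ξ hξ (F_nonneg hlam) (F_lt_one hlam2) hτ hFτ
      (fun r => 3 * (c r : ℝ)) 6 (fun r => by
        have := Q273.AbcR.le_Hr r
        linarith) (fun r => by
        have h1 := Q273.AbcR.Hr_le r
        have h2 : (0 : ℝ) ≤ (c r : ℝ) := Nat.cast_nonneg _
        linarith)
      {r : ℚ | r ≠ 0 ∧ r ≠ 1 ∧ (R (abc r) : ℝ) ≤ B * (c r : ℝ) ^ (6 / κ)} (by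
        intro ε hε
        obtain ⟨C, hC⟩ := Q273.AbcR.count hlam B ε hε
        refine ⟨C, fun X hX => ?_⟩
        obtain ⟨h1, h2⟩ := hC X hX
        have hsub : {r : ℚ | r ∈ {r : ℚ | r ≠ 0 ∧ r ≠ 1 ∧
            (R (abc r) : ℝ) ≤ B * (c r : ℝ) ^ (6 / κ)} ∧ 3 * (c r : ℝ) ≤ X} ⊆
            {r : ℚ | r ∈ {r : ℚ | r ≠ 0 ∧ r ≠ 1 ∧
            (R (abc r) : ℝ) ≤ B * (c r : ℝ) ^ (6 / κ)} ∧ (c r : ℝ) ≤ X} := by
          rintro r ⟨h3, h4⟩
          have h5 : (0 : ℝ) ≤ (c r : ℝ) := Nat.cast_nonneg _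
          exact ⟨h3, by linarith⟩
        refine ⟨h1.subset hsub, le_trans ?_ h2⟩
        exact_mod_cast Set.ncard_le_ncard hsub h1)
    refine (hinf.sdiff (Set.toFinite ({0, 1} : Set ℚ))).mono ?_
    rintro r ⟨⟨h16, h3, h4⟩, h5⟩
    simp only [Set.mem_insert_iff, Set.mem_singleton_iff, not_or] at h5
    have hRlt : B * (c r : ℝ) ^ (6 / κ) < (R (abc r) : ℝ) := by
      by_contra hcon
      exact h3 ⟨h5.1, h5.2, not_lt.1 hcon⟩
    obtain ⟨W, g1, g1', g2, g3, g4, g5⟩ := good hκ hK h5.1 h5.2 h16 hRlt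
    exact ⟨W, g1, g1', g2, h4.trans (Real.rpow_le_rpow_of_nonpos g4 g5 (by linarith)), g3⟩

end Pool.Agent.Results.MP_d8bd92_nt.GoodApproximations
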