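import Pool.Agent.Q172.RealCurve.Emap

/-!
# There is no real curve that maps onto all weakly chainable real curves

A real curve is a continuum that is an injective continuous image of the line; a continuum is
weakly chainable if it is a continuous image of a chainable continuum (`Chainable` is defined in
`Pool.Agent.Q172.RealCurve.Chain` by open simple chains). There are two weakly chainable real
curves `Y₁`, `Y₂` such that no real curve can be mapped onto both.

The curves: the negative end of the line converges to an arc like the topologist's sine curve, and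
together with a segment of the line it forms a Warsaw circle `K`; the positive end converges to
`K` and its winding around `K` oscillates between `0` and `N`, with `N = 1` and `N = 4`. The number
`N` is determined, up to a bounded error, by every real curve that maps onto the curve.
-/

set_option autoImplicit false

open Set Topology Filter Function Q172.RealCurve

universe u

namespace Pool.Agent.Results.MP_d9472f_gt.NoUniversal

/-- A continuum that is the image of the line under an injective continuous map. -/
def IsRealCurve (X : Type u) [MetricSpace X] : Prop :=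
  CompactSpace X ∧ ConnectedSpace X ∧ ∃ f : ℝ → X, Continuous f ∧ Injective f ∧ Surjective f

/-- A continuous image of a chainable continuum. -/
def IsWeaklyChainable (Y : Type u) [MetricSpace Y] : Prop :=
  ∃ (C : Type u) (_ : MetricSpace C), CompactSpace C ∧ ConnectedSpace C ∧ Chainable C ∧
    ∃ g : C → Y, Continuous g ∧ Surjective g

theorem closure_image_Ici {Z : Type*} [TopologicalSpace Z] [T2Space Z] {f : ℝ → Z}
    (hf : Continuous f) (T0 : ℝ) : closure (f '' Ici T0) ⊆ f '' Ici T0 ∪ Om atTop f := by
  intro x hx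
  by_cases hxO : x ∈ Om atTop f
  · exact Or.inr hxO
  left
  have h1 : ¬ MapClusterPt x atTop f := hxO
  rw [mapClusterPt_iff_frequently] at h1
  push Not at h1
  obtain ⟨s, hs, h2⟩ := h1
  obtain ⟨T1, hT1⟩ := eventually_atTop.1 h2
  have h3 : x ∈ closure (f '' Icc T0 T1) := by
    rw [mem_closure_iff_nhds] at hx ⊢
    intro u hu
    obtain ⟨_, ⟨hy1, hy2⟩, t, ht, rfl⟩ := hx (u ∩ s) (inter_mem hu hs)
    refine ⟨f t, hy1, t, ⟨ht, ?_⟩, rfl⟩
    by_contra hn
    exact hT1 t (not_le.1 hn).le hy2
  rw [(isCompact_Icc.image hf).isClosed.closure_eq] at h3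
  exact image_mono Icc_subset_Ici_self h3

/-- The covering map from the lifted continuum. -/
noncomputable def cov (p : ℝ × ℝ × ℝ) : ℂ × ℝ × ℂ := (ee p.1, p.2.1, ee p.2.2)

theorem continuous_cov : Continuous cov := by
  have := continuous_ee
  unfold cov
  fun_prop

theorem cov_image {N : ℕ} (hN : 1 ≤ N) : cov '' CC N = range (hh N) := by
  have T := tgt_hh hN
  have h1 : cov '' CC N = closure (cov '' range (pp N)) :=
    image_closure_of_isCompact (isCompact_CC N) continuous_cov.continuousOn
  have h2 : cov '' range (pp N) = hh N '' Ici 1 := by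
    ext z
    constructor
    · rintro ⟨_, ⟨τ, rfl⟩, rfl⟩
      refine ⟨max τ 1, mem_Ici.2 (le_max_right _ _), ?_⟩
      have h3 : (1 : ℝ) ≤ max τ 1 := le_max_right _ _
      simp only [hh, cov, pp, th_of_ge N h3, rr_of_ge N h3, max_eq_left h3]
    · rintro ⟨τ, hτ, rfl⟩
      refine ⟨pp N τ, ⟨τ, rfl⟩, ?_⟩
      have h3 : (1 : ℝ) ≤ τ := hτ
      simp only [hh, cov, pp, th_of_ge N h3, rr_of_ge N h3, max_eq_left h3]
  rw [h1, h2]
  apply Subset.antisymm
  · refine (closure_image_Ici T.cont 1).trans (union_subset (image_subset_range _ _) ?_)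
    exact T.top_sub.trans (image_subset_range _ _)
  · rintro _ ⟨τ, rfl⟩
    rcases le_total 1 τ with h | h
    · exact subset_closure ⟨τ, h, rfl⟩
    · have h3 : hh N τ ∈ Om atTop (hh N) := T.top_sup ⟨τ, h, rfl⟩
      exact Om_subset isClosed_closure
        ((eventually_ge_atTop 1).mono fun t ht =>
          subset_closure (show hh N t ∈ hh N '' Ici 1 from ⟨t, ht, rfl⟩)) h3

theorem isRealCurve_range {N : ℕ} (hN : 1 ≤ N) : IsRealCurve (range (hh N)) := by
  refine ⟨?_, ?_, rangeFactorization (hh N), ?_, ?_, ?_⟩
  · rw [← isCompact_iff_compactSpace, ← cov_image hN]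
    exact (isCompact_CC N).image continuous_cov
  · exact isConnected_iff_connectedSpace.1 (isConnected_range (continuous_hh N))
  · exact (continuous_hh N).subtype_mk _
  · intro a b hab
    exact inj_hh N (congrArg Subtype.val hab)
  · exact rangeFactorization_surjective

theorem isWeaklyChainable_range {N : ℕ} (hN : 1 ≤ N) : IsWeaklyChainable (range (hh N)) := by
  have h1 : CompactSpace (CC N) := isCompact_iff_compactSpace.1 (isCompact_CC N)
  have h2 : ConnectedSpace (CC N) := isConnected_iff_connectedSpace.1 (isConnected_CC N)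
  refine ⟨CC N, inferInstance, h1, h2, chainable_CC hN, fun p => ⟨cov p, ?_⟩, ?_, ?_⟩
  · rw [← cov_image hN]
    exact ⟨p, p.2, rfl⟩
  · exact (continuous_cov.comp continuous_subtype_val).subtype_mk _
  · rintro ⟨z, hz⟩
    rw [← cov_image hN] at hz
    obtain ⟨p, hp, hpz⟩ := hz
    exact ⟨⟨p, hp⟩, Subtype.ext hpz⟩

/-- There are two weakly chainable real curves such that no real curve can be mapped onto both.
In particular no real curve can be mapped onto all weakly chainable real curves. -/
theorem result : ∃ (Y₁ : Type) (_ : MetricSpace Y₁) (Y₂ : Type) (_ : MetricSpace Y₂),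
    IsRealCurve Y₁ ∧ IsWeaklyChainable Y₁ ∧ IsRealCurve Y₂ ∧ IsWeaklyChainable Y₂ ∧
    ∀ (X : Type u) [MetricSpace X], IsRealCurve X →
      ¬ ((∃ g : X → Y₁, Continuous g ∧ Surjective g) ∧
        (∃ g : X → Y₂, Continuous g ∧ Surjective g)) := by
  refine ⟨range (hh 1), inferInstance, range (hh 4), inferInstance, isRealCurve_range le_rfl,
    isWeaklyChainable_range le_rfl, isRealCurve_range (by norm_num),
    isWeaklyChainable_range (by norm_num), ?_⟩
  rintro X _ ⟨hX1, hX2, f, hf1, hf2, hf3⟩ ⟨⟨g₁, hg₁, hs₁⟩, ⟨g₂, hg₂, hs₂⟩⟩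
  have hr₁ : range (fun x => ((g₁ x : range (hh 1)) : ℂ × ℝ × ℂ)) = range (hh 1) := by
    have : (fun x => ((g₁ x : range (hh 1)) : ℂ × ℝ × ℂ)) = Subtype.val ∘ g₁ := rfl
    rw [this, range_comp, hs₁.range_eq, image_univ, Subtype.range_val]
  have hr₂ : range (fun x => ((g₂ x : range (hh 4)) : ℂ × ℝ × ℂ)) = range (hh 4) := by
    have : (fun x => ((g₂ x : range (hh 4)) : ℂ × ℝ × ℂ)) = Subtype.val ∘ g₂ := rfl
    rw [this, range_comp, hs₂.range_eq, image_univ, Subtype.range_val]
  have T₁ : Tgt (hh 1) := tgt_hh le_rfl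
  have T₂ : Tgt (hh 4) := tgt_hh (by norm_num)
  have A₁ : Ang (hh 1) (fun z => z.1) (th 1) (1 : ℕ) := ang_hh le_rfl
  have A₂ : Ang (hh 4) (fun z => z.1) (th 4) (4 : ℕ) := ang_hh (by norm_num)
  exact no_common hf1 hf2 hf3 (continuous_subtype_val.comp hg₁)
    (continuous_subtype_val.comp hg₂) T₁ T₂ hr₁ hr₂ A₁ A₂ (by norm_num)

end Pool.Agent.Results.MP_d9472f_gt.NoUniversal
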