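import Pool.Agent.Q219.PT.Main

/-!
# Coarse approximations of the `p`-power roots are enough; closure under limits and specialisation

Let `K` be a perfectoid field of characteristic `0` and residue characteristic `p`, `E = K♭` its tilt, `C`
the completion of an algebraic closure of `K`, `F = C♭`, `π(y_0 : ... : y_n) = (y_0♯ : ... : y_n♯)`. The
structures `Tilting p C F` and `BaseField T K E` and the property `Approximable T K E X d` (Q1 for the
closed subset `X` of projective space over `K`, of dimension `d`) are those of the starting result
`AllPerfectoidFields`. A closed subset of projective space is given by its cone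
(`IsConeOver K X`).

For a point `z` of `C^(n+1)`, `Near T X δ z` says that there is a point `x` of `X` such that
`|z_i - x_i| ≤ δ ‖z‖` for all `i`, where `‖z‖ = size T z` is the maximum of the `|z_i|`.
`ApproxWithin T E X d δ`: there is a closed `Y` over `E = K♭` of dimension `d` such that `y♯` is at
distance at most `δ` from `X` for all points `y` of `Y`. `rootsOf q X` is the set of all `x` such that
`(x_i ^ q)` is in `X`.

Theorem. Let `X` be a closed cone over `K`.

1. Q1 holds for `X` if and only if `ApproxWithin T E X d δ` for all `δ > 0`.
2. Q1 holds for `X` if and only if it holds for `rootsOf (p ^ m) X`, for every `m`.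
3. **One fixed radius is enough**: for every `ρ` with `0 < ρ < 1`, for example `ρ = |p|^(1/100)`,
   Q1 holds for `X` if and only if for infinitely many `m` there is an approximation `Y` of
   `rootsOf (p ^ m) X` within the radius `ρ`. (For `ρ ≥ |p|` the rings `O_C / ρ` and `O_F / ρ` are isomorphic,
   and this is a condition for the reductions modulo `ρ`.)
4. More generally the radii may tend to `1`: Q1 holds for `X` if and only if for every `ε > 0` there are
   `m` and `r > 0` with `r ^ (p ^ m) ≤ ε` and an approximation of `rootsOf (p ^ m) X` within the radius `r`.
5. Q1 is closed under limits: if for every `ε > 0` there are `m`, `r` as in 4 and a closed cone `X'`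
   over `K`, which is contained in the tube of radius `r` around `rootsOf (p ^ m) X` and satisfies Q1, then
   `X` satisfies Q1. (For `m = 0`: `X` is a limit of the `X'` for the projective distance.)
6. In particular Q1 holds for `X`, if the `X'` in 5 are finite unions of images of set-theoretic complete
   intersections. This is unconditional.
7. Q1 is closed under specialisation: let `X_t`, `t ∈ K^s`, be the members of an algebraic family of closed
   cones over `K`, defined by polynomials `G_j(t, x)`. If Q1 (with dimension `d`) holds for members `X_t` with
   `t` arbitrarily close to `0`, it holds for `X_0`.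

For example all specialisations, of the same dimension, of families of (images of) complete
intersections satisfy Q1, by 7 and the results on images of complete intersections.

Proof. 1: A Łojasiewicz inequality over algebraically closed fields with an absolute value (`loj`):
points of the unit ball, in which the equations of `X` are small, are near to `X`. It is proved by
a limit argument with an ultrafilter: a sequence of approximate solutions of a system of polynomial
equations is near to a sequence of solutions; one eliminates one variable after the other, with
subresultants replaced by division with remainder by polynomials of minimal degree. 2-4: Raising to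
the `p`-th power coordinatewise maps approximations of `rootsOf p X` to approximations of `X`. If
`|a - b| ≤ r` in the unit ball then `|a^p - b^p| ≤ max (r^p) (|p| r)`. So after `m` steps the radius is at
most `max (r ^ (p ^ (m - N))) (|p| ^ N)` for all `N ≤ m`, `N > 0`. In the characteristic `p` the map
`y ↦ (y_i ^ p)` is a bijection on `F^(n+1)`, and it respects the closed cones over `E` and the dimension.
-/

set_option autoImplicit false

namespace Pool.Agent.Results.MP_db3ab1_ag.CoarseApproximation

open MvPolynomial Pool.Agent.Y129.TA Pool.Agent.Y129.TB Pool.Agent.Q219.PT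

/-- **Criteria for Q1**: the formulation with distances, the `p`-power roots, one fixed radius, radii
tending to one, limits, limits of images of complete intersections, specialisation. -/
theorem result {p : ℕ} [Fact p.Prime] {C F K E : Type} [Field C] [Field F] [CharP F p] [Field K]
    [Field E] [Algebra K C] [Algebra E F] [IsAlgClosed C] [IsAlgClosed F] (T : Tilting p C F)
    (B : BaseField T K E) {n d : ℕ} :
    (∀ X : Set (Fin (n + 1) → C), IsConeOver K X →
      -- 1. distances
      (Approximable T.toTiltPair K E X d ↔
        ∀ δ : ℝ, 0 < δ → ApproxWithin T.toTiltPair E X d δ) ∧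
      -- 2. roots
      (∀ m : ℕ, Approximable T.toTiltPair K E X d ↔
        Approximable T.toTiltPair K E (rootsOf (p ^ m) X) d) ∧
      -- 3. one fixed radius
      (∀ ρ : ℝ, 0 < ρ → ρ < 1 → (Approximable T.toTiltPair K E X d ↔
        ∀ M : ℕ, ∃ m : ℕ, M ≤ m ∧ ApproxWithin T.toTiltPair E (rootsOf (p ^ m) X) d ρ)) ∧
      -- 4. radii tending to one
      (Approximable T.toTiltPair K E X d ↔
        ∀ ε : ℝ, 0 < ε → ∃ m : ℕ, ∃ r : ℝ, 0 < r ∧ r ^ p ^ m ≤ ε ∧
          ApproxWithin T.toTiltPair E (rootsOf (p ^ m) X) d r) ∧
      -- 5. limits
      ((∀ ε : ℝ, 0 < ε → ∃ m : ℕ, ∃ r : ℝ, 0 < r ∧ r ^ p ^ m ≤ ε ∧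
          ∃ X' : Set (Fin (n + 1) → C), IsConeOver K X' ∧ Approximable T.toTiltPair K E X' d ∧
            ∀ x ∈ X', Near T.toTiltPair (rootsOf (p ^ m) X) r x) →
        Approximable T.toTiltPair K E X d) ∧
      -- 6. limits of images of complete intersections
      ((∀ ε : ℝ, 0 < ε → ∃ m : ℕ, ∃ r : ℝ, 0 < r ∧ r ^ p ^ m ≤ ε ∧
          ∃ X' : Set (Fin (n + 1) → C), IsUnionOfImages K X' d ∧
            ∀ x ∈ X', Near T.toTiltPair (rootsOf (p ^ m) X) r x) →
        Approximable T.toTiltPair K E X d)) ∧
    -- 7. specialisation
    ∀ (s r : ℕ) (G : Fin r → MvPolynomial (Fin s ⊕ Fin (n + 1)) K),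
      (∀ t : Fin s → K, IsConeOver K (member C G t)) →
      (∀ δ : ℝ, 0 < δ → ∃ t : Fin s → K, (∀ i, T.absK (algebraMap K C (t i)) ≤ δ) ∧
        Approximable T.toTiltPair K E (member C G t) d) →
      Approximable T.toTiltPair K E (member C G (0 : Fin s → K)) d := by
  refine ⟨fun X hX => ⟨approximable_iff hX, approximable_iff_roots hX, fun ρ hρ hρ1 => ?_,
    approximable_iff_coarse hX, approximable_of_limit hX, fun h => ?_⟩,
    fun s r G hG h => approximable_of_family G hG h⟩
  · rw [approximable_iff_frequently hX hρ hρ1, Filter.frequently_atTop]
  · refine approximable_of_limit hX fun ε hε => ?_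
    obtain ⟨m, r, hr, hrm, X', ⟨hd, N, c, m', e, h', f, hN, hm, hh, he, hf, h0, rfl⟩, hX'⟩ := h ε hε
    exact ⟨m, r, hr, hrm, _, cone_iUnion _ fun i => imageOver_cone (hh i) (hf i) (he i) (h0 i),
      approximable_iUnion T B hN h' hh f he hf h0 hm hd, hX'⟩

end Pool.Agent.Results.MP_db3ab1_ag.CoarseApproximation
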