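import Pool.Agent.Q219.PT.Reduce

/-!
# Q1 does not depend on the perfectoid base field, and it suffices to treat smooth varieties over number fields

Let `C` be an algebraically closed perfectoid field of characteristic `0` and residue characteristic `p`,
with tilt `F = C♭` (`Tilting p C F`: absolute values, the map `x ↦ x♯`, Fontaine's map `θ`; these are the
structures of the starting result `AllPerfectoidFields`). For a perfectoid subfield `K` of `C` with tilt
`E = K♭` (`BaseField T K E`), a closed subset `X` of `ℙ^n` over `K`, given by its cone in `C^(n+1)`
(`IsConeOver K X`), and a number `d`, `Approximable T K E X d` is the statement of Q1 for `X` (if `d` is the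
dimension of `X`): for all homogeneous polynomials `P_k` over `K` which vanish on `X` and all `ε > 0`
there is a closed `Y` over `E`, of dimension `d`, with `|P_k(y♯)| ≤ ε ‖y‖ ^ deg P_k` for all points `y` of `Y`
over `F`.

About `E` we use moreover (`IsHenselianDense T E`) that the elements of `F` which are algebraic over `E` are
dense in `F`, and that elements of `F` which are conjugate over `E` have the same absolute value. Both hold
if `C` is the completion of an algebraic closure of `K`: then `F` is the completion of an algebraic closure
of the complete field `E`.

**Theorem.**

1. (Independence of the base field.) Let `X` be a closed cone over `K` of dimension at most `d`. Then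
   Q1 holds for `X` over `K` (with `Y` defined over `K♭`) if and only if Q1 holds for `X` over `C` (with `Y`
   defined over `C♭`). So the answer to Q1 for `X` is the same for all perfectoid fields over which `X` is
   defined. For example Q1 holds for all `X` over `K` which, over `C`, are finite unions of images of
   set-theoretic complete intersections under morphisms defined over `C`
   (`IsUnionOfImages C X d`); the starting result `AllPerfectoidFields` needs that the complete
   intersections and the morphisms are defined over `K`.
2. (Smooth varieties are limits of smooth varieties over number fields.) Let `k` be an algebraically
   closed field which is dense in `C` (`IsDenseIn T k`), for example the field of algebraic numbers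
   if `C = ℂ_p`. Let `X` be a smooth closed subscheme of `ℙ^n` over `C` of dimension `d`. Then for all `δ > 0`
   there is a smooth closed subscheme `X'` of `ℙ^n` over `k`, of the same dimension, which is contained in
   the tube of radius `δ` around `X` (`Near`). Here `IsSmoothOfDim k X d` says that `X` is the set of points over
   `C` of a closed subscheme of `ℙ^n` over `k`, defined by homogeneous polynomials `g_j` with the Jacobian
   criterion `IsSmooth`: for every point `x` some of the `g_j`, with linearly independent gradients at
   `x`, generate the ideal of the subscheme after the localisation at `x`; and that its dimension is
   `d`. It may have components of different dimensions.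
3. (Reduction to number fields.) Q1 for all smooth closed subschemes of dimension `d` of `ℙ^n` over `k`,
   considered over `C`, is equivalent to Q1 for all smooth closed subschemes of dimension `d` of `ℙ^n` over
   all perfectoid subfields `K` of `C` as above. So for `C = ℂ_p` the problem Q1, which is about all
   perfectoid fields `K` with the completed algebraic closure `ℂ_p`, is a problem on smooth projective
   varieties over number fields and the single field `K = ℂ_p`.

The proof. 1. The other direction being easy, let `Y` be a closed subset over `F` of dimension `d` in a small
tube. We choose a homomorphism from the ring generated by the coefficients of equations of `Y` to the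
algebraic closure `A` of `E` in `F` which is near to the inclusion (`exists_spec`); the specialised equations
define a set over `A` in a slightly larger tube (by a Łojasiewicz inequality), and its dimension has not
become smaller (`dimGE_spec`). Let `Y'` be the union of all its conjugates over `E`; this is the zero set of
the ideal over `E` of all equations over `E` (`exists_embedding`). It is contained in the tube, because for
`τ` in the automorphism group of `A` over `E`, `P` over `K` and a point `y` with coordinates in `A` of absolute
value at most one one has `|P(τ(y)♯)| = |P(y♯)|` (`conj_poly`): lift `P(y♯)` to `W(O_F)` along `θ`, with
components in `A`; by the approximation process of the starting results its absolute value can be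
read off from the first component of a Witt vector over `O_A`, computed from the lift by operations which
commute with `τ`, and `τ` preserves the absolute value. Finally the `d + 1` forms over `K` without common
zero on `X` are approximated by forms over `E`, so that the dimension of `Y'` is at most `d`.
2. By quasi-compactness smoothness is a consequence of finitely many polynomial identities
`h g_j = ∑ b_i g_i` and of the nonexistence of common zeros of a system of homogeneous polynomials
(`exists_certificate`). The latter is an open condition (`open_noZero`), and identities are preserved by
the specialisation of the coefficients. 3 follows from 1, 2 and the closure of Q1 under limits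
(`CoarseApproximation`).
-/

set_option autoImplicit false

namespace Pool.Agent.Results.MP_db3ab1_ag.NumberFieldReduction

open MvPolynomial Pool.Agent.Y129.TA Pool.Agent.Y129.TB Pool.Agent.Q219.PT

/-- **Q1 does not depend on the base field, and it suffices to treat smooth varieties over number
fields.** -/
theorem result {p : ℕ} [Fact p.Prime] {C F : Type} [Field C] [Field F] [CharP F p] [IsAlgClosed C]
    [IsAlgClosed F] (T : Tilting p C F) (n d : ℕ) :
    -- 1. independence of the base field, for all closed subsets
    (∀ (K E : Type) [Field K] [Field E] [Algebra K C] [Algebra E F], BaseField T K E →
      IsHenselianDense T.toTiltPair E → ∀ X : Set (Fin (n + 1) → C), IsConeOver K X →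
        DimLEOver K X d →
          (Approximable T.toTiltPair K E X d ↔ Approximable T.toTiltPair C F X d) ∧
          (IsUnionOfImages C X d → Approximable T.toTiltPair K E X d)) ∧
    ∀ (k : Type) [Field k] [Algebra k C] [IsAlgClosed k], IsDenseIn T.toTiltPair k →
      -- 2. smooth varieties are limits of smooth varieties over `k`
      (∀ X : Set (Fin (n + 1) → C), IsSmoothOfDim C X d → ∀ δ : ℝ, 0 < δ →
        ∃ X' : Set (Fin (n + 1) → C), IsSmoothOfDim k X' d ∧ ∀ x ∈ X', Near T.toTiltPair X δ x) ∧
      -- 3. Q1 for smooth varieties over `k` is equivalent to Q1 for all smooth varieties over all `K`
      ((∀ X' : Set (Fin (n + 1) → C), IsSmoothOfDim k X' d →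
          Approximable T.toTiltPair C F X' d) ↔
        ∀ (K E : Type) [Field K] [Field E] [Algebra K C] [Algebra E F], BaseField T K E →
          IsHenselianDense T.toTiltPair E → ∀ X : Set (Fin (n + 1) → C), IsSmoothOfDim K X d →
            Approximable T.toTiltPair K E X d) := by
  refine ⟨fun K E _ _ _ _ B hE X hX hd => ⟨arithmetic_iff B hE hX hd, fun h => ?_⟩,
    fun k _ _ _ hk => ⟨fun X hX δ hδ => exists_near_smooth T hk hX hδ, fun h K E _ _ _ _ B hE X hX =>
      reduction T hk h B hE hX, fun h X' hX' => ?_⟩⟩
  · refine arithmetic_of_geometric B hE hX hd ?_
    obtain ⟨hdC, N, c, m', e, h', f, hN, hm, hh, he, hf, h0, rfl⟩ := h
    exact approximable_iUnion T (baseField_self T) hN h' hh f he hf h0 hm hdC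
  · exact h C F (baseField_self T) henselianDense_self X' (smooth_baseChange hX')

end Pool.Agent.Results.MP_db3ab1_ag.NumberFieldReduction
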