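import Pool.Agent.Q206.FT.SepB
import Pool.Agent.Q206.FT.Tr

/-!
# MP_db9079_lc: formulas with separated bound variables over `F_p((t))` are existential

Let `K = F_p((t))`, let `v` be its valuation, and let `K0` be the relative algebraic closure of
`F_p(t)` in `K`, the henselisation of `F_p(t)`.  A formula is separated if every polynomial in it
contains at most one bound variable; different polynomials may contain different bound variables,
and the atomic formulas compare the valuations of PRODUCTS of such polynomials (and speak about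
their leading coefficients).  There is no restriction on the number and the alternation of the
quantifiers.  In addition we allow quantifiers over the roots of a nonzero polynomial, and
the variables bound by them may be used like free variables.  We prove that every separated formula
is equivalent in `K` to an existential formula in the language of fields with the constant `t`,
and hence also to a universal formula, and that `K0` and `K` satisfy the same separated formulas.

The main step: an irreducible monic polynomial `G` of degree `d` over `K` has a centre `c` in `K`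
with `|G(y)| = max(|y - c| ^ d, |G(c)|)` for all `y`, and there is an existential certificate for
this, even if `G` is inseparable or wildly ramified and the roots of `G` are far from `K`.  So the
set of the leading terms of the values of given polynomials in `y` is a semilinear set which is
uniformly described by the leading terms of finitely many existentially described elements, and
semilinear sets are closed under Boolean operations and projections.
-/

set_option autoImplicit false

namespace Pool.Agent.Results.MP_db9079_lc.SeparatedFormulas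

open Finset

/-- the field `F_p((t))` -/
abbrev K (p : ℕ) : Type := LaurentSeries (ZMod p)

/-- the valuation ring `F_p[[t]]` -/
def ValRing (p : ℕ) : Set (K p) :=
  Set.range (algebraMap (PowerSeries (ZMod p)) (LaurentSeries (ZMod p)))

/-- the elements of `K` which are algebraic over `F_p[t]` -/
def K0 (p : ℕ) [Fact p.Prime] : Set (K p) := {x | IsAlgebraic (Polynomial (ZMod p)) x}

/-- polynomials in the variables `σ` with coefficients in `F_p[t]` -/
abbrev Pol (p : ℕ) (σ : Type) : Type := MvPolynomial σ (Polynomial (ZMod p))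

/-- the value of a polynomial at a point of `K ^ σ`, where `t` is the indeterminate of `K` -/
noncomputable def val {p : ℕ} [Fact p.Prime] {σ : Type} (P : Pol p σ) (x : σ → K p) : K p :=
  MvPolynomial.aeval x P

/-- `S` is existentially definable in the field `K` with the constant `t` -/
def ExDef {p : ℕ} [Fact p.Prime] {σ : Type} (S : Set (σ → K p)) : Prop :=
  ∃ (m : ℕ) (Φ : Finset (Pol p (σ ⊕ Fin m))), ∀ x, x ∈ S ↔
    ∃ z : Fin m → K p, ∀ P ∈ Φ, val P (Sum.elim x z) = 0

/-- products of polynomials in `x`, and of polynomials in `x` and one of the variables `y i`;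
`x` stands for the variables in `σ` and `y` for the variables in `τ` -/
inductive Trm (p : ℕ) (σ τ : Type) : Type
  /-- the polynomial `P(x)` -/
  | par (P : Pol p σ)
  /-- the polynomial `P(x, y i)` -/
  | var (P : Pol p (σ ⊕ Unit)) (i : τ)
  | mul (s s' : Trm p σ τ)

/-- the value of such a product -/
noncomputable def Trm.val {p : ℕ} [Fact p.Prime] {σ τ : Type} :
    Trm p σ τ → (σ → K p) → (τ → K p) → K p
  | .par P, x, _ => SeparatedFormulas.val P x
  | .var P i, x, y => SeparatedFormulas.val P (Sum.elim x fun _ => y i)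
  | .mul s s', x, y => s.val x y * s'.val x y

/-- separated formulas in the variables `σ` and `τ` -/
inductive Fml (p : ℕ) : Type → Type → Type 1
  /-- the valuation of `s` is at least the valuation of `s'` -/
  | le {σ τ : Type} (s s' : Trm p σ τ) : Fml p σ τ
  /-- the leading coefficient of `s` (the coefficient of `t ^ v(s)`) is `a`; it is `0` if `s = 0` -/
  | lc {σ τ : Type} (a : ZMod p) (s : Trm p σ τ) : Fml p σ τ
  | neg {σ τ : Type} (φ : Fml p σ τ) : Fml p σ τ
  | and {σ τ : Type} (φ ψ : Fml p σ τ) : Fml p σ τ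
  /-- quantification over a variable of the second kind -/
  | ex {σ τ : Type} (φ : Fml p σ (τ ⊕ Unit)) : Fml p σ τ
  /-- quantification over the roots of `P(x, z)` in `z`; here `z` is a variable of the first kind -/
  | root {σ τ : Type} (P : Pol p (σ ⊕ Unit)) (φ : Fml p (σ ⊕ Unit) τ) : Fml p σ τ

/-- truth in the valued field `M`, a subfield of `K` with the valuation ring `M ∩ O`:
`ex φ` says that there is `z` in `M` with `φ(x, (y, z))`, and `root P φ` says that the polynomial
`P(x, z)` in `z` is not the zero function on `M` and has a root `z` in `M` with `φ((x, z), y)` -/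
def Holds {p : ℕ} [Fact p.Prime] (M : Set (K p)) :
    {σ τ : Type} → Fml p σ τ → (σ → K p) → (τ → K p) → Prop
  | _, _, .le s s', x, y => ∃ z ∈ ValRing p, s.val x y = s'.val x y * z
  | _, _, .lc a s, x, y => (s.val x y).leadingCoeff = a
  | _, _, .neg φ, x, y => ¬ Holds M φ x y
  | _, _, .and φ ψ, x, y => Holds M φ x y ∧ Holds M ψ x y
  | _, _, .ex φ, x, y => ∃ z ∈ M, Holds M φ x (Sum.elim y fun _ => z)
  | _, _, .root P φ, x, y => (∃ z ∈ M, val P (Sum.elim x fun _ => z) ≠ 0) ∧
      ∃ z ∈ M, val P (Sum.elim x fun _ => z) = 0 ∧ Holds M φ (Sum.elim x fun _ => z) y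

section

variable {p : ℕ} [Fact p.Prime] {σ τ : Type}

open Pool.Agent.Q206.FT

theorem mem_ValRing (y : K p) : y ∈ ValRing p ↔ ‖y‖ ≤ 1 := by
  rw [norm_le_one_iff]
  exact Pool.Agent.Y748.UF.mem_iff y

theorem le_iff (u w : K p) : (∃ y ∈ ValRing p, u = w * y) ↔ ‖u‖ ≤ ‖w‖ := by
  constructor
  · rintro ⟨y, hy, rfl⟩
    rw [norm_mul]
    exact mul_le_of_le_one_right (norm_nonneg _) ((mem_ValRing y).1 hy)
  · intro h
    by_cases h0 : w = 0
    · rw [h0, norm_zero] at h
      exact ⟨0, (mem_ValRing _).2 (by simp), by rw [norm_le_zero_iff.1 h, mul_zero]⟩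
    · refine ⟨u / w, (mem_ValRing _).2 ?_, by field_simp⟩
      rw [norm_div]
      exact div_le_one_of_le₀ h (norm_nonneg _)

theorem sepT (s : Trm p σ τ) : SepT s.val := by
  induction s with
  | par P => exact SepT.par (IsPo.ev P)
  | var P i =>
    have h1 : (Trm.var P i : Trm p σ τ).val = fun x y => (pol P x).eval (y i) := by
      ext1 x
      ext1 y
      rw [eval_pol]
      rfl
    rw [h1]
    exact SepT.bd (IsPP.pol P) i
  | mul s s' h h' => exact h.mul h'

/-- the comparison of valuations in terms of leading terms -/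
theorem norm_le_iff_rv (u w : K p) : ‖u‖ ≤ ‖w‖ ↔
    (rv u).1 = 0 ∨ ((rv w).1 ≠ 0 ∧ (rv w).2 ≤ (rv u).2) := by
  by_cases hu : u = 0
  · rw [hu, norm_zero]
    exact ⟨fun _ => Or.inl ((rv_zero_iff _).2 rfl), fun _ => norm_nonneg _⟩
  have hu1 : (rv u).1 ≠ 0 := fun h => hu ((rv_zero_iff _).1 h)
  by_cases hw : w = 0
  · rw [hw, norm_zero]
    constructor
    · intro h
      exact absurd (norm_le_zero_iff.1 h) hu
    · rintro (h | ⟨h, _⟩)
      · exact absurd h hu1
      · exact absurd ((rv_zero_iff _).2 rfl) h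
  have hw1 : (rv w).1 ≠ 0 := fun h => hw ((rv_zero_iff _).1 h)
  rw [or_iff_right hu1, and_iff_right hw1, ← not_lt, norm_lt_of_rv hw hu, not_lt]

theorem pol_eq_zero_iff (P : Pol p (σ ⊕ Unit)) (x : σ → K p) :
    pol P x = 0 ↔ ∀ y, val P (Sum.elim x fun _ => y) = 0 := by
  constructor
  · intro h y
    have := eval_pol P x y
    rw [h, Polynomial.eval_zero] at this
    exact this.symm
  · intro h
    have : Infinite (K p) := Infinite.of_injective (fun n : ℕ => (tt : K p) ^ n) fun a b hab => by
      have h1 := congrArg norm hab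
      simp only [norm_pow, norm_tt] at h1
      exact pow_right_injective₀ (by norm_num) (by norm_num) h1
    refine Polynomial.funext fun y => ?_
    rw [eval_pol, Polynomial.eval_zero]
    exact h y

/-- separated formulas define separated relations -/
theorem sep : {σ τ : Type} → (φ : Fml p σ τ) → Sep (Holds Set.univ φ)
  | _, _, .le s s' => by
    have hΨ : Pres {ζ : Fin 2 → RV p | (ζ 0).1 = 0 ∨ ((ζ 1).1 ≠ 0 ∧ (ζ 1).2 ≤ (ζ 0).2)} :=
      (Pres.fst fun α => α 0 = 0).or ((Pres.fst fun α => α 1 ≠ 0).and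
        (Pres.le (IsAf.var 1) (IsAf.var 0)))
    refine (Sep.rel (f := ![s.val, s'.val]) (fun l => ?_) hΨ).congr fun x y => ?_
    · refine Fin.cases (sepT s) (fun l => ?_) l
      refine Fin.cases (sepT s') (fun l => l.elim0) l
    · exact (le_iff _ _).trans (norm_le_iff_rv _ _)
  | _, _, .lc a s => by
    have hΨ : Pres {ζ : Unit → RV p | (ζ ()).1 = a} := Pres.fst fun α => α () = a
    refine (Sep.rel (f := fun _ : Unit => s.val) (fun l => sepT s) hΨ).congr fun x y => ?_
    exact Iff.rfl
  | _, _, .neg φ => (sep φ).not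
  | _, _, .and φ ψ => (sep φ).and (sep ψ)
  | _, _, .ex φ => by
    refine (sep φ).ex.congr fun x y => ?_
    exact exists_congr fun z => and_iff_right trivial
  | _, _, .root P φ => by
    refine ((sep φ).root (IsPP.pol P)).congr fun x y => ?_
    refine and_congr ?_ (exists_congr fun z => ?_)
    · rw [Ne, pol_eq_zero_iff]
      constructor
      · rintro ⟨z, _, hz⟩ h
        exact hz (h z)
      · intro h
        push Not at h
        obtain ⟨z, hz⟩ := h
        exact ⟨z, trivial, hz⟩
    · rw [eval_pol]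
      exact and_iff_right trivial

theorem ed_both [Finite τ] (φ : Fml p σ τ) :
    ED {w : σ ⊕ τ → K p | Holds Set.univ φ (fun i => w (.inl i)) fun i => w (.inr i)} ∧
    ED {w : σ ⊕ τ → K p | ¬ Holds Set.univ φ (fun i => w (.inl i)) fun i => w (.inr i)} :=
  ⟨(sep φ).ed, (sep φ).not.ed⟩

/-- **Universal quantifiers over the roots of a polynomial** -/
theorem ed_roots (P : Pol p (σ ⊕ Unit)) {S : Set (σ ⊕ Unit → K p)} (hS : ED S) :
    ED {x | (∃ y, val P (Sum.elim x fun _ => y) ≠ 0) ∧
      ∀ y, val P (Sum.elim x fun _ => y) = 0 → (Sum.elim x fun _ => y) ∈ S} := by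
  refine (ED.forall_root (IsPP.pol P) hS).congr fun x => ?_
  refine and_congr ?_ (forall_congr' fun y => ?_)
  · rw [← not_forall, ← pol_eq_zero_iff]
  · rw [eval_pol]
    exact Iff.rfl

/-- witnesses in `K0` -/
theorem ec_fin {ρ : Type} [Finite ρ] [Finite τ] {S : Set ((σ ⊕ ρ) ⊕ τ → K p)} (hS : ED S)
    (x : σ → K p) (hx : ∀ i, x i ∈ K0 p) (y : τ → K p) (hy : ∀ i, y i ∈ K0 p)
    (h : ∃ z : ρ → K p, Sum.elim (Sum.elim x z) y ∈ S) :
    ∃ z : ρ → K p, (∀ i, z i ∈ K0 p) ∧ Sum.elim (Sum.elim x z) y ∈ S := by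
  let g : (σ ⊕ ρ) ⊕ τ → (σ ⊕ τ) ⊕ ρ :=
    Sum.elim (Sum.elim (fun i => .inl (.inl i)) fun i => .inr i) fun i => .inl (.inr i)
  have hg : ∀ z : ρ → K p, (fun i => (Sum.elim (Sum.elim x y) z : (σ ⊕ τ) ⊕ ρ → K p) (g i)) =
      Sum.elim (Sum.elim x z) y := by
    intro z
    ext1 i
    rcases i with (i | i) | i <;> rfl
  obtain ⟨z, hz⟩ := h
  obtain ⟨w, hw1, hw2⟩ := ec_exists (hS.comap g) (Sum.elim x y) (by
    rintro (i | i)
    · exact (mem_k0 _).2 (hx i)
    · exact (mem_k0 _).2 (hy i)) ⟨z, by
      show (fun i => (Sum.elim (Sum.elim x y) z : (σ ⊕ τ) ⊕ ρ → K p) (g i)) ∈ S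
      rw [hg]
      exact hz⟩
  refine ⟨w, fun i => (mem_k0 _).1 (hw1 i), ?_⟩
  have hw3 : (fun i => (Sum.elim (Sum.elim x y) w : (σ ⊕ τ) ⊕ ρ → K p) (g i)) ∈ S := hw2
  rw [hg] at hw3
  exact hw3

theorem fml_K0 : {σ τ : Type} → [Finite τ] → (φ : Fml p σ τ) → (x : σ → K p) →
    (∀ i, x i ∈ K0 p) → (y : τ → K p) → (∀ i, y i ∈ K0 p) →
    (Holds Set.univ φ x y ↔ Holds (K0 p) φ x y)
  | _, _, _, .le s s', _, _, _, _ => Iff.rfl
  | _, _, _, .lc a s, _, _, _, _ => Iff.rfl
  | _, _, _, .neg φ, x, hx, y, hy => not_congr (fml_K0 φ x hx y hy)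
  | _, _, _, .and φ ψ, x, hx, y, hy => and_congr (fml_K0 φ x hx y hy) (fml_K0 ψ x hx y hy)
  | σ, τ, _, .ex φ, x, hx, y, hy => by
    constructor
    · rintro ⟨z, _, hz⟩
      obtain ⟨w, hw1, hw2⟩ := ec_exists (σ := σ ⊕ τ) (τ := Unit)
        ((ed_both φ).1.comap (Sum.elim (fun i => .inl (.inl i))
          (Sum.elim (fun i => .inl (.inr i)) fun i => .inr i) :
            σ ⊕ (τ ⊕ Unit) → (σ ⊕ τ) ⊕ Unit)) (Sum.elim x y) (by
        rintro (i | i)
        · exact (mem_k0 _).2 (hx i)
        · exact (mem_k0 _).2 (hy i)) ⟨fun _ => z, by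
          show Holds Set.univ φ _ _
          have e1 : (fun i => (Sum.elim (Sum.elim x y) fun _ => z : (σ ⊕ τ) ⊕ Unit → K p)
            ((Sum.elim (fun i => .inl (.inl i)) (Sum.elim (fun i => .inl (.inr i))
              fun i => .inr i) : σ ⊕ (τ ⊕ Unit) → (σ ⊕ τ) ⊕ Unit) (.inr i))) =
              Sum.elim y fun _ => z := by
            ext1 i
            rcases i with i | i <;> rfl
          rw [e1]
          exact hz⟩
      have hw3 : Holds Set.univ φ x (Sum.elim y fun _ => w ()) := by
        have hw4 : Holds Set.univ φ x (fun i => (Sum.elim (Sum.elim x y) w : (σ ⊕ τ) ⊕ Unit → K p)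
            ((Sum.elim (fun i => .inl (.inl i)) (Sum.elim (fun i => .inl (.inr i))
              fun i => .inr i) : σ ⊕ (τ ⊕ Unit) → (σ ⊕ τ) ⊕ Unit) (.inr i))) := hw2
        have e1 : (fun i => (Sum.elim (Sum.elim x y) w : (σ ⊕ τ) ⊕ Unit → K p)
            ((Sum.elim (fun i => .inl (.inl i)) (Sum.elim (fun i => .inl (.inr i))
              fun i => .inr i) : σ ⊕ (τ ⊕ Unit) → (σ ⊕ τ) ⊕ Unit) (.inr i))) =
              Sum.elim y fun _ => w () := by
          ext1 i
          rcases i with i | i <;> rfl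
        rw [e1] at hw4
        exact hw4
      have hw0 : w () ∈ K0 p := (mem_k0 _).1 (hw1 _)
      refine ⟨w (), hw0, (fml_K0 φ x hx _ ?_).1 hw3⟩
      rintro (i | i)
      · exact hy i
      · exact hw0
    · rintro ⟨z, hz0, hz⟩
      refine ⟨z, trivial, (fml_K0 φ x hx _ ?_).2 hz⟩
      rintro (i | i)
      · exact hy i
      · exact hz0
  | σ, τ, _, .root P φ, x, hx, y, hy => by
    have hx' : ∀ z ∈ K0 p, ∀ i, (Sum.elim x (fun _ => z) : σ ⊕ Unit → K p) i ∈ K0 p := by
      rintro z hz (i | i)
      · exact hx i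
      · exact hz
    constructor
    · rintro ⟨⟨z, _, hz⟩, w, _, hw1, hw2⟩
      constructor
      · obtain ⟨z', h1, h2⟩ := ec_exists (τ := Unit) (ED.ne0 (IsPo.ev P)) x
          (fun i => (mem_k0 _).2 (hx i)) ⟨fun _ => z, hz⟩
        exact ⟨z' (), (mem_k0 _).1 (h1 _), h2⟩
      · obtain ⟨z', h1, h2⟩ := ec_fin (σ := σ) (ρ := Unit) (τ := τ)
          (((ED.eq0 (IsPo.ev P)).comap fun i : σ ⊕ Unit => (.inl i : (σ ⊕ Unit) ⊕ τ)).and
            (ed_both φ).1) x hx y hy ⟨fun _ => w, hw1, hw2⟩
        obtain ⟨h3, h4⟩ := h2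
        have h5 : Holds Set.univ φ (Sum.elim x fun _ => z' ()) y := h4
        exact ⟨z' (), h1 (), h3, (fml_K0 φ _ (hx' _ (h1 ())) y hy).1 h5⟩
    · rintro ⟨⟨z, _, hz⟩, w, hw0, hw1, hw2⟩
      exact ⟨⟨z, trivial, hz⟩, w, trivial, hw1, (fml_K0 φ _ (hx' w hw0) y hy).2 hw2⟩

end

theorem result (p : ℕ) [Fact p.Prime] :
    -- (1) separated formulas are equivalent to existential and to universal formulas
    (∀ (σ τ : Type) [Finite τ] (φ : Fml p σ τ),
      ExDef {w : σ ⊕ τ → K p | Holds Set.univ φ (fun i => w (.inl i)) fun i => w (.inr i)} ∧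
      ExDef {w : σ ⊕ τ → K p | ¬ Holds Set.univ φ (fun i => w (.inl i)) fun i => w (.inr i)}) ∧
    -- (2) existential formulas are closed under universal quantification over roots
    (∀ (σ : Type) (P : Pol p (σ ⊕ Unit)) (S : Set (σ ⊕ Unit → K p)), ExDef S →
      ExDef {x | (∃ y, val P (Sum.elim x fun _ => y) ≠ 0) ∧
        ∀ y, val P (Sum.elim x fun _ => y) = 0 → (Sum.elim x fun _ => y) ∈ S}) ∧
    -- (3) the henselisation of `F_p(t)` and `F_p((t))` satisfy the same formulas
    (∀ (σ ρ τ : Type) [Finite ρ] [Finite τ] (φ : Fml p (σ ⊕ ρ) τ) (x : σ → K p) (y : τ → K p),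
      (∀ i, x i ∈ K0 p) → (∀ i, y i ∈ K0 p) →
      ((∃ z, Holds Set.univ φ (Sum.elim x z) y) ↔
        ∃ z, (∀ i, z i ∈ K0 p) ∧ Holds (K0 p) φ (Sum.elim x z) y)) := by
  open Pool.Agent.Q206.FT in
  refine ⟨fun σ τ _ φ => ed_both φ, fun σ P S hS => ed_roots P hS,
    fun σ ρ τ _ _ φ x y hx hy => ?_⟩
  have hx' : ∀ z : ρ → K p, (∀ i, z i ∈ K0 p) →
      ∀ i, (Sum.elim x z : σ ⊕ ρ → K p) i ∈ K0 p := by
    rintro z hz (i | i)
    · exact hx i
    · exact hz i
  constructor
  · rintro ⟨z, hz⟩
    obtain ⟨w, hw1, hw2⟩ := ec_fin (ed_both φ).1 x hx y hy ⟨z, hz⟩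
    exact ⟨w, hw1, (fml_K0 φ _ (hx' w hw1) y hy).1 hw2⟩
  · rintro ⟨z, hz1, hz2⟩
    exact ⟨z, (fml_K0 φ _ (hx' z hz1) y hy).2 hz2⟩

end Pool.Agent.Results.MP_db9079_lc.SeparatedFormulas
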