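import Pool.Agent.Q64.LC.Sub

/-!
# The conditions of the conjecture and the holomorphic curves with gaps

Let `X` be a projective algebraic set which is cut out by the forms of degree at most `D` in the
homogeneous ideal `p`, and let `Q` be a form of degree at most `D`. Every entire curve in
`U = X - {Q = 0}` is given by entire functions `f` such that `Q (f)` is constant.

If all subvarieties of `U` of positive dimension have a nonzero logarithmic pluricanonical form
(condition (2) implies this), or if for all points `x` of `U` only finitely many morphisms from the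
affine line to `U` map the origin to `x` (condition (3) implies this), then all holomorphic curves
`f = ∑ z ^ i a i` in `U`, on discs or on the plane, with infinitely many gaps `(α, β)`, `D α < β`,
are constant. Conversely, if all the entire curves in `U` with infinitely many gaps are constant,
then there are only constant morphisms from the affine line to `U`.
-/

set_option autoImplicit false

namespace Pool.Agent.Results.MP_dc0411_ag.GapSeries

open MvPolynomial Pool.Agent.TH143.GT Pool.Agent.W602.GT Pool.Agent.W603.GR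
  Pool.Agent.W603.PV Pool.Agent.W603.BP Pool.Agent.W603.BPR Pool.Agent.Q64.LC

theorem result {n q D : ℕ} {p : Ideal (MvPolynomial (Fin (n + 1)) ℂ)}
    {Q : MvPolynomial (Fin (n + 1)) ℂ} (hp : IsHomog p) (hQ : Q.IsHomogeneous q) (hD : 1 ≤ D)
    (hqD : q ≤ D) (hcut : CutBy D p) :
    List.TFAE [
      -- all entire curves with infinitely many gaps are constant
      ∀ (a : ℕ → Fin (n + 1) → ℂ) (f : ℂ → Fin (n + 1) → ℂ), (∀ r > 0, Curve p Q r a f) →
        Gaps D a → ¬ ∃ r, NonConst r f,
      -- all holomorphic curves on discs with infinitely many gaps are constant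
      ∀ (r : ℝ) (a : ℕ → Fin (n + 1) → ℂ) (f : ℂ → Fin (n + 1) → ℂ), Curve p Q r a f →
        Gaps D a → ¬ NonConst r f,
      -- all morphisms from the affine line are constant
      ∀ T, Mor p Q T → ¬ NC T,
      -- finiteness of the pointed morphisms from the affine line
      ∀ x : Fin (n + 1) → ℂ, {T | Mor p Q T ∧ ∀ j, (T j).eval 0 = x j}.Finite] ∧
    ((∀ (K : Type) [Field K] [Algebra ℂ K] (w : ℕ) (y : Fin (n + 1) → K), SubVarP p Q K w y →
        0 < w → ∃ N : ℕ, 0 < N ∧ ∃ ω : (Fin w → Derivation ℂ K K) → K,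
          LogSec ℂ K w N (OffQ Q q y) ω ∧ ω ≠ 0) →
      ∀ (r : ℝ) (a : ℕ → Fin (n + 1) → ℂ) (f : ℂ → Fin (n + 1) → ℂ), Curve p Q r a f →
        Gaps D a → ¬ NonConst r f) := by
  have hbot : ∀ x : Fin (n + 1) → ℂ, ¬ InZ ⊤ x := by
    intro x hx
    have h1 := hx 1 Submodule.mem_top ⟨0, isHomogeneous_one _ _⟩
    rw [map_one] at h1
    exact one_ne_zero h1
  have h32 : (∀ T, Mor p Q T → ¬ NC T) → ∀ (r : ℝ) (a : ℕ → Fin (n + 1) → ℂ)
      (f : ℂ → Fin (n + 1) → ℂ), Curve p Q r a f → Gaps D a → ¬ NonConst r f := by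
    intro h r a f hf hb hnc
    have h1 : MorIn p Q ⊤ := fun T hT hN => absurd hN (h T hT)
    exact hbot _ (discsIn_of_morIn hD hQ hqD hcut h1 r a f hf hnc hb 0 (by
      rw [norm_zero]; exact hf.pos))
  refine ⟨?_, fun h => h32 fun T hT hN => ?_⟩
  · tfae_have 1 → 3 := by
      intro h T hT hN
      have h1 : EntireIn D p Q ⊤ := fun a f hf hnc hb => absurd hnc (h a f hf hb)
      exact hbot _ (morIn_of_entireIn h1 T hT hN 0)
    tfae_have 3 → 2 := h32
    tfae_have 2 → 1 := by
      rintro h a f hf hb ⟨r, hnc⟩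
      obtain ⟨s, t, hs, ht, hst⟩ := hnc
      have h1 : 0 < r := lt_of_le_of_lt (norm_nonneg s) hs
      exact h r a f (hf r h1) hb ⟨s, t, hs, ht, hst⟩
    tfae_have 3 → 4 := by
      intro h x
      have h1 : MorIn p Q ⊤ := fun T hT hN => absurd hN (h T hT)
      exact pointed_of_morIn h1 x (hbot x)
    tfae_have 4 → 3 := by
      intro h T hT hN
      have h1 : PointedFinite p Q ⊤ := fun x _ => h x
      exact hbot _ (morIn_of_pointed h1 T hT hN 0)
    tfae_finish
  · obtain ⟨K, i1, i2, w, y, h1, h2, -, h4⟩ := sub_of_mor hp hQ hT hN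
    obtain ⟨N, hN0, ω, hω, hω0⟩ := h K w y h1 h2
    exact hω0 (h4 N hN0 ω hω)

end Pool.Agent.Results.MP_dc0411_ag.GapSeries
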