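import Mathlib
import Pool.Agent.Q133.WienerDense
import Pool.Agent.Q133.WienerAngles

set_option autoImplicit false

/-!
# The Wiener roots of trees are dense in the complex plane
-/

open Polynomial

namespace Pool.Agent.Results.MP_dc0d33_co.TreesDense

open Classical in
/-- The Wiener polynomial `W(G; x) = ∑ x^{d(u,v)}`, the sum over all unordered pairs `{u, v}` of
distinct vertices of `G`, where `d` is the graph distance. -/
noncomputable def wienerPoly {V : Type} [Fintype V] (G : SimpleGraph V) : ℂ[X] :=
  ∑ e ∈ Finset.univ.filter (fun e : Sym2 V => ¬ e.IsDiag),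
    X ^ (Sym2.lift ⟨G.dist, fun _ _ => G.dist_comm⟩ e)

/-- The set of all Wiener roots of all finite trees with at least two vertices. -/
def treeRoots : Set ℂ :=
  {z | ∃ (V : Type) (_ : Fintype V) (G : SimpleGraph V),
    2 ≤ Fintype.card V ∧ G.IsTree ∧ (wienerPoly G).eval z = 0}

/-- The set of all Wiener roots of all finite connected graphs with at least two vertices. -/
def connectedRoots : Set ℂ :=
  {z | ∃ (V : Type) (_ : Fintype V) (G : SimpleGraph V),
    2 ≤ Fintype.card V ∧ G.Connected ∧ (wienerPoly G).eval z = 0}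

/-- **Theorem.** The Wiener roots of trees are dense in the complex plane. -/
theorem result : closure treeRoots = Set.univ := by
  rw [Set.eq_univ_iff_forall]
  intro w
  rw [Metric.mem_closure_iff]
  intro ε hε
  obtain ⟨m, a, b, z, hm, ha, hb, hz, hzw⟩ := Q133.Wiener.dense_solutions w (ε / 2) (by positivity)
  obtain ⟨N, k, c, r, hN, hk, hr, hzr⟩ :=
    Q133.Wiener.tree_root_near m a b hm ha hb z hz (min (ε / 2) 1) (by positivity)
  refine ⟨r, ⟨_, inferInstance, Q133.Wiener.T N k c, ?_, Q133.Wiener.T_tree N k c, ?_⟩, ?_⟩
  · exact Q133.Wiener.two_le_card N k c hN hk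
  · classical
    have h1 := Q133.Wiener.two_mul_sum_sym2 (V := Option (Fin N × Q133.Wiener.Br k c))
      (fun e => (X : ℂ[X]) ^ (Sym2.lift ⟨(Q133.Wiener.T N k c).dist,
        fun _ _ => (Q133.Wiener.T N k c).dist_comm⟩ e))
    have h2 : (2 : ℂ[X]) * wienerPoly (Q133.Wiener.T N k c) = Q133.Wiener.Wo (Q133.Wiener.T N k c) := by
      rw [Q133.Wiener.Wo, two_mul, ← two_nsmul, wienerPoly]
      convert h1 using 1
      · congr!
      · refine Finset.sum_congr (by congr!) fun q _ => ?_
        rw [Sym2.lift_mk]
    have h3 := congrArg (Polynomial.eval r) h2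
    rw [hr, eval_mul] at h3
    rcases mul_eq_zero.mp h3 with h4 | h4
    · simp at h4
    · exact h4
  · have h1 : dist w r ≤ dist w z + dist z r := dist_triangle _ _ _
    have h2 : dist w z < ε / 2 := by rw [dist_comm, Complex.dist_eq]; exact hzw
    have h3 : dist z r < ε / 2 := by
      rw [Complex.dist_eq]; exact lt_of_lt_of_le hzr (min_le_left _ _)
    linarith

/-- Hence the Wiener roots of connected graphs are dense in the complex plane as well. -/
theorem connected_dense : closure connectedRoots = Set.univ := by
  have hsub : treeRoots ⊆ connectedRoots := by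
    rintro z ⟨V, hV, G, h1, h2, h3⟩
    exact ⟨V, hV, G, h1, h2.connected, h3⟩
  have h := closure_mono hsub
  rw [result] at h
  exact Set.univ_subset_iff.mp h

end Pool.Agent.Results.MP_dc0d33_co.TreesDense
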