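import Pool.Agent.Q73.KL.Fin

/-!
# The hyperplane conjecture of Kannan, Lovasz and Simonovits for domains fibred in boxes

Q1 with a constant `C ^ (k + 1)` independent of `n`, for all open bounded convex sets `Ω = -Ω` in
`ℝ^k × ℝ^n` whose sections `{x : (t, x) ∈ Ω}` are boxes (products of intervals) for all `t ∈ ℝ^k`;
equivalently, `Ω = {(t, x) : (t, x_i) ∈ L_i for all i}` with open convex sets `L_i ⊂ ℝ^{k + 1}`. In
particular, with `k = 1`, for all sets `{(t, x) : |t| < T, -b_i(-t) < x_i < b_i(t)}` with arbitrary concave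
functions `b_i`. The number of facets of such a polytope is not bounded in terms of `n` and `k`.

Method. See `Pool.Agent.Results.MP_6d896a_gt.ConditionallyIndependent` for the variance of Lipschitz
functions; the passage to perimeters of sets of half the volume is by lemmas of the starting files.
-/

set_option autoImplicit false

namespace Pool.Agent.Results.MP_dc1397_gt.BoxFibredDomains

open MeasureTheory Set
open scoped ENNReal InnerProductSpace

section defs

variable {κ : Type} [Fintype κ]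

/-- an open, convex, bounded, nonempty set with `Ω = -Ω` -/
structure Domain (Ω : Set (EuclideanSpace ℝ κ)) : Prop where
  op : IsOpen Ω
  conv : Convex ℝ Ω
  bdd : Bornology.IsBounded Ω
  ne : Ω.Nonempty
  symm : ∀ x ∈ Ω, -x ∈ Ω

/-- mean value over `Ω` -/
noncomputable def mean (Ω : Set (EuclideanSpace ℝ κ)) (f : EuclideanSpace ℝ κ → ℝ) : ℝ :=
  (∫ x in Ω, f x) / (volume Ω).toReal

/-- every `1`-Lipschitz function of class `C¹` has variance at most `K` times the largest variance of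
a linear functional of norm one on the symmetric set `Ω` -/
def LipschitzGap (K : ℝ) (Ω : Set (EuclideanSpace ℝ κ)) : Prop :=
  ∀ s : ℝ, (∀ θ : EuclideanSpace ℝ κ, mean Ω (fun x => ⟪θ, x⟫_ℝ ^ 2) ≤ s * ‖θ‖ ^ 2) →
    ∀ f : EuclideanSpace ℝ κ → ℝ, ContDiff ℝ 1 f → (∀ x, ‖fderiv ℝ f x‖ ≤ 1) →
      mean Ω (fun x => f x ^ 2) - mean Ω f ^ 2 ≤ K * s

/-- the Lebesgue measure of a Euclidean space -/
noncomputable def lebesgue (F : Type) [NormedAddCommGroup F] [InnerProductSpace ℝ F]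
    [FiniteDimensional ℝ F] [MeasurableSpace F] [BorelSpace F] : Measure F := volume

/-- the Lebesgue measure (of the Euclidean space `W`) of the section `Ω ∩ W` by a subspace `W` -/
noncomputable def areaIn {F : Type} [NormedAddCommGroup F] [InnerProductSpace ℝ F]
    [FiniteDimensional ℝ F] [MeasurableSpace F] [BorelSpace F] (W : Submodule ℝ F) (Ω : Set F) :
    ℝ≥0∞ := lebesgue W {y : W | (y : F) ∈ Ω}

open Classical in
/-- divergence of a vector field on `ℝ^κ` -/
noncomputable def divergence (X : EuclideanSpace ℝ κ → EuclideanSpace ℝ κ)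
    (x : EuclideanSpace ℝ κ) : ℝ :=
  ∑ i, fderiv ℝ X x (EuclideanSpace.single i 1) i

/-- `C¹` vector fields with compact support in `Ω` and `‖X‖ ≤ 1` -/
structure Test (Ω : Set (EuclideanSpace ℝ κ)) (X : EuclideanSpace ℝ κ → EuclideanSpace ℝ κ) :
    Prop where
  diff : ContDiff ℝ 1 X
  comp : HasCompactSupport X
  sub : tsupport X ⊆ Ω
  le : ∀ x, ‖X x‖ ≤ 1

/-- the (De Giorgi) perimeter `P(E; Ω)` of `E` relative to the open set `Ω` -/
noncomputable def perimeter (E Ω : Set (EuclideanSpace ℝ κ)) : ℝ≥0∞ :=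
  ⨆ (X : EuclideanSpace ℝ κ → EuclideanSpace ℝ κ) (_ : Test Ω X),
    ENNReal.ofReal (∫ x in E, divergence X x)

/-- the area (Lebesgue measure in the hyperplane `a^⊥`) of the central section of `Ω` by `a^⊥` -/
noncomputable def sectionArea (Ω : Set (EuclideanSpace ℝ κ)) (a : EuclideanSpace ℝ κ) : ℝ≥0∞ :=
  areaIn (Submodule.span ℝ {a})ᗮ Ω

/-- some central hyperplane section has area at most `K P(E; Ω)` for every measurable `E ⊆ Ω` with
`|E| = |Ω| / 2` -/
def HyperplaneBound (K : ℝ) (Ω : Set (EuclideanSpace ℝ κ)) : Prop :=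
  ∃ a : EuclideanSpace ℝ κ, a ≠ 0 ∧ ∀ E : Set (EuclideanSpace ℝ κ), MeasurableSet E → E ⊆ Ω →
    volume E = volume Ω / 2 → sectionArea Ω a ≤ ENNReal.ofReal K * perimeter E Ω

/-- the perimeter is the one used in the proof -/
theorem perimeter_eq (E Ω : Set (EuclideanSpace ℝ κ)) :
    Pool.Agent.W695.KH.per E Ω = perimeter E Ω := by
  unfold perimeter Pool.Agent.W695.KH.per
  refine iSup_congr fun X => ?_
  refine iSup_congr_Prop ⟨fun h => ⟨h.1, h.2.1, h.2.2.1, h.2.2.2⟩,
    fun h => ⟨h.diff, h.comp, h.sub, h.le⟩⟩ fun _ => rfl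

end defs

/-- `ℝ^k × ℝ^n` with its Euclidean norm -/
abbrev Space (k n : ℕ) : Type := EuclideanSpace ℝ (Fin k ⊕ Fin n)

/-- All sections `{x : (t, x) ∈ Ω}`, `t ∈ ℝ^k`, are boxes: `(t, x) ∈ Ω` as soon as for every `i` there is a
point of `Ω` with first component `t` and with the same coordinate `x_i`. -/
def BoxFibred {k n : ℕ} (Ω : Set (Space k n)) : Prop :=
  ∀ x : Space k n, (∀ i : Fin n, ∃ y ∈ Ω, (∀ j : Fin k, y (Sum.inl j) = x (Sum.inl j)) ∧
    y (Sum.inr i) = x (Sum.inr i)) → x ∈ Ω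

/-- **The hyperplane conjecture for domains fibred in boxes.** There is an absolute constant `C` such that
for all `k ≥ 0`, `n ≥ 1` and all symmetric open bounded convex sets `Ω ⊂ ℝ^k × ℝ^n` whose sections over
the points of `ℝ^k` are boxes: every `1`-Lipschitz function on `Ω` has variance at most `C^(k+1)` times
the largest variance of a linear functional of norm one, and some central hyperplane section of `Ω` has area
at most `C^(k+1) P(E; Ω)` for all `E` with `|E| = |Ω| / 2`. -/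
theorem result : ∃ C : ℝ, 0 < C ∧ ∀ k n : ℕ, 1 ≤ n → ∀ Ω : Set (Space k n), Domain Ω →
    BoxFibred Ω → LipschitzGap (C ^ (k + 1)) Ω ∧ HyperplaneBound (C ^ (k + 1)) Ω := by
  obtain ⟨C, hC, H⟩ := Pool.Agent.Q188.NC.kls_hyp
  have hB : (2 : ℝ) ^ 60 ≤ (C + 1) * 2 ^ 60 := by nlinarith
  refine ⟨(C + 1) * 2 ^ 60, by positivity, ?_⟩
  intro k n hn Ω hΩ hbox
  have hn0 : 0 < n := by omega
  have hCC0 := Pool.Agent.Q73.KL.CC_pos k
  have hK := Pool.Agent.Q73.KL.kls_dom hΩ.op hΩ.conv hΩ.bdd hΩ.ne hbox hn0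
  have hne : Nonempty (Fin k ⊕ Fin n) := ⟨Sum.inr ⟨0, hn0⟩⟩
  have h0 : (0 : Space k n) ∈ Ω := by
    obtain ⟨x, hx⟩ := hΩ.ne
    have := hΩ.conv hx (hΩ.symm x hx) (a := 1 / 2) (b := 1 / 2) (by norm_num) (by norm_num)
      (by norm_num)
    simpa using this
  have hp : ((C + 1) * 2 ^ 60) ^ (k + 1) = ((C + 1) * 2 ^ 60) ^ k * ((C + 1) * 2 ^ 60) := pow_succ _ _
  have hk : ∀ a : ℝ, 0 ≤ a → a ≤ 2 ^ 60 → a ^ k ≤ ((C + 1) * 2 ^ 60) ^ k := fun a ha ha' =>
    pow_le_pow_left₀ ha (ha'.trans hB) k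
  refine ⟨?_, ?_⟩
  · intro s hs f hf hf'
    have h1 := hK s hs f hf hf'
    have hs0 : 0 ≤ s := by
      have h1 := hs (EuclideanSpace.single (Sum.inr ⟨0, hn0⟩) 1)
      rw [show ‖(EuclideanSpace.single (Sum.inr (⟨0, hn0⟩ : Fin n)) (1:ℝ) : Space k n)‖ = 1 by simp,
        one_pow, mul_one] at h1
      refine le_trans ?_ h1
      unfold mean
      exact div_nonneg (integral_nonneg fun x => sq_nonneg _) ENNReal.toReal_nonneg
    refine h1.trans (mul_le_mul_of_nonneg_right ?_ hs0)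
    rw [hp]
    unfold Pool.Agent.Q73.KL.CC
    have h2 := hk 48 (by norm_num) (by norm_num)
    rw [mul_comm]
    exact mul_le_mul h2 (le_trans (by norm_num) hB) (by positivity) (by positivity)
  · obtain ⟨a, ha, h⟩ := H _ Ω hΩ.op hΩ.conv hΩ.bdd h0 hΩ.symm _ hCC0 hK
    refine ⟨a, ha, fun E hE hEΩ hvol => ?_⟩
    have h4 := h E hE hEΩ hvol
    rw [perimeter_eq] at h4
    refine h4.trans (mul_le_mul' (ENNReal.ofReal_le_ofReal ?_) le_rfl)
    have h3 : Real.sqrt (Pool.Agent.Q73.KL.CC k) ≤ 2 ^ 26 * 8 ^ k := by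
      rw [Real.sqrt_le_left (by positivity)]
      unfold Pool.Agent.Q73.KL.CC
      have h4 : (48 : ℝ) ^ k ≤ 64 ^ k := pow_le_pow_left₀ (by norm_num) (by norm_num) k
      have h5 : ((8 : ℝ) ^ k) ^ 2 = 64 ^ k := by rw [← pow_mul, mul_comm, pow_mul]; norm_num
      rw [mul_pow, h5]
      nlinarith [show (0:ℝ) < 64 ^ k by positivity]
    rw [hp]
    have h2 := hk 8 (by norm_num) (by norm_num)
    calc C * Real.sqrt (Pool.Agent.Q73.KL.CC k) ≤ C * (2 ^ 26 * 8 ^ k) :=
          mul_le_mul_of_nonneg_left h3 hC.le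
      _ = 8 ^ k * (C * 2 ^ 26) := by ring
      _ ≤ ((C + 1) * 2 ^ 60) ^ k * ((C + 1) * 2 ^ 60) :=
          mul_le_mul h2 (by nlinarith) (by positivity) (by positivity)

end Pool.Agent.Results.MP_dc1397_gt.BoxFibredDomains
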