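import Pool.Agent.Q299.FC.F
import Pool.Agent.TH55.PowE

set_option autoImplicit false

open MeasureTheory Set Real
open scoped ENNReal

namespace Pool.Agent.Results.MP_dd244f_an.FunctionalCalculus

/-- `φ(T) f` for the Beurling transform `T` and a Schwartz function `f`: the Fourier multiplier
with symbol `φ (conj ξ / ξ)`, literal form; `φ = τ ^ k` gives the power `T ^ k`. -/
noncomputable def fc (φ : ℂ → ℂ) (f : SchwartzMap ℂ ℂ) (z : ℂ) : ℂ :=
  ∫ ξ : ℂ,
    Complex.exp (2 * (Real.pi : ℂ) * Complex.I * (((z.re * ξ.re + z.im * ξ.im : ℝ)) : ℂ)) *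
      (φ (starRingEnd ℂ ξ / ξ) *
        ∫ x : ℂ, Complex.exp (-(2 * (Real.pi : ℂ) * Complex.I *
          (((x.re * ξ.re + x.im * ξ.im : ℝ)) : ℂ))) * f x)

open Pool.Agent.Q299.FC Pool.Agent.TH55.PowA in
lemma fc_eq (φ : ℂ → ℂ) (f : SchwartzMap ℂ ℂ) : fc φ f = T (fun ξ => φ (bs ξ)) f := rfl

open Pool.Agent.Q299.FC Pool.Agent.TH55.PowA in
/-- **A functional calculus for the Beurling transform with the constant `p - 1`.** -/
theorem result (p : ℝ) (hp : 2 ≤ p) :
    -- (1) the minimal Moebius invariant space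
    (∀ φ : ℂ → ℂ, DiffContOnCl ℂ φ (Metric.ball 0 1) →
      IntegrableOn (fun z => deriv (deriv fun w => w * φ w) z) (Metric.ball (0 : ℂ) 1) →
      ∀ f : SchwartzMap ℂ ℂ,
        eLpNorm (fc (fun τ => φ τ - φ 0) f) (ENNReal.ofReal p) volume
          ≤ ENNReal.ofReal ((p - 1) *
              (π⁻¹ * ∫ z in Metric.ball (0 : ℂ) 1, ‖deriv (deriv fun w => w * φ w) z‖)) *
            eLpNorm f (ENNReal.ofReal p) volume) ∧
    -- (2) functions analytic in a larger disc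
    (∀ R : ℝ, 1 < R → ∀ φ : ℂ → ℂ, DiffContOnCl ℂ φ (Metric.ball 0 R) →
      ∀ f : SchwartzMap ℂ ℂ,
        eLpNorm (fc (fun τ => φ τ - φ 0) f) (ENNReal.ofReal p) volume
          ≤ ENNReal.ofReal ((p - 1) *
              (R / (R ^ 2 - 1) * circleAverage (fun w => ‖φ w - φ 0‖) 0 R)) *
            eLpNorm f (ENNReal.ofReal p) volume) ∧
    -- (3) linear combinations of the first `n` powers
    (∀ n : ℕ, 1 ≤ n → ∀ a : ℕ → ℂ,
      (∀ f : SchwartzMap ℂ ℂ,
        eLpNorm (fun z => ∑ k ∈ Finset.Icc 1 n, a k * fc (fun τ => τ ^ k) f z)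
            (ENNReal.ofReal p) volume
          ≤ ENNReal.ofReal (((n : ℝ) + 1) / 2 *
              (((n : ℝ) + 1) / ((n : ℝ) - 1)) ^ (((n : ℝ) - 1) / 2) * (p - 1) *
              circleAverage (fun w => ‖∑ k ∈ Finset.Icc 1 n, a k * w ^ k‖) 0 1) *
            eLpNorm f (ENNReal.ofReal p) volume) ∧
      circleAverage (fun w => ‖∑ k ∈ Finset.Icc 1 n, a k * w ^ k‖) 0 1
        ≤ Real.sqrt (∑ k ∈ Finset.Icc 1 n, ‖a k‖ ^ 2)) ∧
    -- (4) integrals of Moebius transformations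
    (∀ (Λ : Type) [MeasurableSpace Λ] (ν : Measure Λ) [SigmaFinite ν] (ζ g : Λ → ℂ),
      Measurable ζ → (∀ l, ‖ζ l‖ < 1) → Measurable g → Integrable g ν →
      ∀ f : SchwartzMap ℂ ℂ,
        eLpNorm (fc (fun τ => ∫ l, g l * ((τ + starRingEnd ℂ (ζ l)) / (1 + ζ l * τ)) ∂ν) f)
            (ENNReal.ofReal p) volume
          ≤ ENNReal.ofReal ((p - 1) * ∫ l, ‖g l‖ ∂ν) *
            eLpNorm f (ENNReal.ofReal p) volume) := by
  have hp1 : (1 : ℝ) ≤ p := by linarith
  have hp0 : 0 ≤ p - 1 := by linarith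
  have hb := base p hp
  refine ⟨fun φ hφ hint f => ?_, fun R hR φ hφ f => ?_, fun n hn a => ⟨fun f => ?_, ?_⟩,
    fun Λ _ ν _ ζ g hζ hζ1 hgm hg f => ?_⟩
  · have hfin : ∫⁻ c in Metric.ball (0 : ℂ) 1, ‖P2 φ c‖ₑ ≠ ∞ := hint.2.ne
    have h := area_bound hp1 hb hφ hfin f
    refine h.trans (le_of_eq ?_)
    have e : ∫⁻ c in Metric.ball (0 : ℂ) 1, ‖P2 φ c‖ₑ
        = ENNReal.ofReal (∫ z in Metric.ball (0 : ℂ) 1, ‖deriv (deriv fun w => w * φ w) z‖) :=
      (ofReal_integral_norm_eq_lintegral_enorm hint).symm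
    rw [e, ← ENNReal.ofReal_mul (by positivity), ← mul_assoc, ← ENNReal.ofReal_mul
      (mul_nonneg (by positivity) (integral_nonneg fun z => norm_nonneg _)), mul_comm (p - 1)]
  · have h := disc_bound hp1 hb hR hφ f
    refine h.trans (le_of_eq ?_)
    rw [← mul_assoc, ← ENNReal.ofReal_mul (mul_nonneg (by
      have : 0 < R ^ 2 - 1 := by nlinarith
      have : 0 < R := by linarith
      positivity) (circleAverage_nonneg_of_nonneg fun w _ => norm_nonneg _)), mul_comm (p - 1)]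
  · exact comb_bound hp1 hp0 hb n hn a f
  · exact mean_le_l2 a n
  · have h := sy_bound hp1 hb hζ hζ1 hg hgm f
    have e : fc (fun τ => ∫ l, g l * ((τ + starRingEnd ℂ (ζ l)) / (1 + ζ l * τ)) ∂ν) f
        = T (sy ν ζ g) f := by
      rw [fc_eq]
      refine T_congr (fun ξ hξ => ?_) f
      unfold sy
      refine integral_congr_ae (Filter.Eventually.of_forall fun l => ?_)
      simp only
      congr 1
      have h1 := one_add_ne (ζ l) (hζ1 l) (bs ξ) (bs_norm ξ hξ)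
      rw [at_eq _ (hζ1 l), bs_Ae _ _ ξ hξ, div_eq_iff h1, add_mul, mul_assoc,
        div_mul_cancel₀ _ h1]
      ring
    rw [e]
    refine h.trans (le_of_eq ?_)
    rw [← ofReal_integral_norm_eq_lintegral_enorm hg, ← mul_assoc,
      ← ENNReal.ofReal_mul (integral_nonneg fun z => norm_nonneg _), mul_comm (p - 1)]

end Pool.Agent.Results.MP_dd244f_an.FunctionalCalculus
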