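import Pool.Agent.Q115.DD

set_option autoImplicit false
open scoped Pointwise

universe u

namespace Pool.Agent.Results.MP_dd2a7c_co.DenseDilates

/-- The Freiman-Ruzsa conclusion with parameter `L` for a finite subset `A` of an abelian group. -/
def FR (Γ : Type u) [AddCommGroup Γ] (A : Finset Γ) (L : ℝ) : Prop :=
  (∃ (H : AddSubgroup Γ) (T : Finset Γ), Finite H ∧ (T.card : ℝ) ≤ L ∧
      ∀ a ∈ A, ∃ t ∈ T, a - t ∈ H) ∧
    (∃ (H : AddSubgroup Γ) (T : Finset Γ), Finite H ∧ (Nat.card H : ℝ) ≤ L ^ 5404 * A.card ∧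
      (T.card : ℝ) ≤ L ^ 5406 ∧ ∀ a ∈ A, ∃ t ∈ T, a - t ∈ H) ∧
    (∃ (B : Set (Fin 1 → ℝ)) (ψ : (Fin 1 → ℤ) →+ Γ) (H : AddSubgroup Γ) (T : Finset Γ),
      Convex ℝ B ∧ IsCompact B ∧ (interior B).Nonempty ∧ (∀ x ∈ B, -x ∈ B) ∧
      Finite H ∧
      {x : Fin 1 → ℤ | (fun i => (x i : ℝ)) ∈ B}.ncard * Nat.card H ≤ A.card ∧
      (T.card : ℝ) ≤ 8 * L ^ 10812 ∧
      ∀ a ∈ A, ∃ t ∈ T, ∃ x : Fin 1 → ℤ, (fun i => (x i : ℝ)) ∈ B ∧
        ∃ h ∈ H, a = t + ψ x + h) ∧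
    ((∀ p : ℕ, p.Prime → (p : ℝ) ≤ 16 * L ^ 4 → ∀ x : Γ, p • x = 0 → x = 0) →
      (∃ (H : AddSubgroup Γ) (T : Finset Γ), Finite H ∧ (Nat.card H : ℝ) ≤ 2 * L * A.card ∧
        (T.card : ℝ) ≤ L ∧ ∀ a ∈ A, ∃ t ∈ T, a - t ∈ H) ∧
      (∃ (B : Set (Fin 1 → ℝ)) (ψ : (Fin 1 → ℤ) →+ Γ) (H : AddSubgroup Γ) (T : Finset Γ),
        Convex ℝ B ∧ IsCompact B ∧ (interior B).Nonempty ∧ (∀ x ∈ B, -x ∈ B) ∧
        Finite H ∧
        {x : Fin 1 → ℤ | (fun i => (x i : ℝ)) ∈ B}.ncard * Nat.card H ≤ A.card ∧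
        (T.card : ℝ) ≤ 8 * L ^ 2 ∧
        ∀ a ∈ A, ∃ t ∈ T, ∃ x : Fin 1 → ℤ, (fun i => (x i : ℝ)) ∈ B ∧
          ∃ h ∈ H, a = t + ψ x + h))

/-- Freiman-Ruzsa with absolute exponents in every abelian group `Γ`, for three classes of finite
nonempty sets `A` with `|A + A| ≤ K |A|`.

(1) `|A + u A| ≤ K |A|` for all `u` in a set `U` of integers whose `k`-fold sumset has upper Banach
density larger than `1 / (t + 1)`: for every `C` there is an interval of `N` integers containing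
more than `(N + C) / (t + 1)` elements of it. Here `L = ((2 k + 1) K) ^ ((2 k + 1) t!)`.
(2) `|A + u ^ 2 A| ≤ K |A|` for all `u`. Here `L = (5 K) ^ 5`.
(3) `A` is an integral set: it consists of elements of finite order, and with `a` it contains
every generator of the cyclic subgroup generated by `a`. Here `L = K ^ 4`. -/
theorem result (Γ : Type u) [AddCommGroup Γ] [DecidableEq Γ] (K : ℝ) (A : Finset Γ)
    (hA : A.Nonempty) (hAA : ((A + A).card : ℝ) ≤ K * A.card) :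
    (∀ (U : Set ℤ) (k t : ℕ),
      (∀ u ∈ U, ((A + A.image (fun a => u • a)).card : ℝ) ≤ K * A.card) →
      (∀ C : ℕ, ∃ (x : ℤ) (N : ℕ), N + C <
        (t + 1) * {s : ℤ | s ∈ Set.Ico x (x + N) ∧
          ∃ f : Fin k → ℤ, (∀ i, f i ∈ U) ∧ s = ∑ i, f i}.ncard) →
      (∀ n : ℕ, ((A + A.image (fun a => n • a)).card : ℝ)
        ≤ ((2 * k + 1) * K) ^ ((2 * k + 1) * t.factorial) * A.card) ∧
      FR Γ A (((2 * k + 1) * K) ^ ((2 * k + 1) * t.factorial))) ∧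
    ((∀ u : ℕ, ((A + A.image (fun a => u ^ 2 • a)).card : ℝ) ≤ K * A.card) →
      (∀ n : ℕ, ((A + A.image (fun a => n • a)).card : ℝ) ≤ (5 * K) ^ 5 * A.card) ∧
      FR Γ A ((5 * K) ^ 5)) ∧
    ((∀ a ∈ A, IsOfFinAddOrder a) →
      (∀ a ∈ A, ∀ b : Γ, AddSubgroup.zmultiples b = AddSubgroup.zmultiples a → b ∈ A) →
      (∀ n : ℕ, ((A + A.image (fun a => n • a)).card : ℝ) ≤ K ^ 4 * A.card) ∧
      FR Γ A (K ^ 4)) := by
  rename_i d
  have hd : d = (fun a b => Classical.propDecidable (a = b)) := Subsingleton.elim _ _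
  subst hd
  refine ⟨fun U k t hU hS => ?_, fun hU => ?_, fun hfin hint => ?_⟩
  · have h1 := Pool.Agent.Q115.DD.dense' A hA K U k t hAA hU hS
    exact ⟨h1, Pool.Agent.Q115.SDC.concl A hA _ (Or.inl h1)⟩
  · have h1 := Pool.Agent.Q115.DD.squares A hA K hU
    exact ⟨h1, Pool.Agent.Q115.SDC.concl A hA _ (Or.inl h1)⟩
  · have h1 := Pool.Agent.Q115.DD.integral A hA K hfin hint hAA
    exact ⟨h1, Pool.Agent.Q115.SDC.concl A hA _ (Or.inl h1)⟩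

end Pool.Agent.Results.MP_dd2a7c_co.DenseDilates
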