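import Pool.Agent.Q123.DS.Coset

/-!
# The polynomial Freiman-Ruzsa conjecture for down-sets

A finite set `D` of integer points of `ℤ^ι`, in ANY dimension, is called solid if with every point
`x` it contains all the integer points of the box spanned by `0` and `x`. Examples are the down-sets
of `ℕ^ι` (the compressed sets of additive combinatorics) and the unconditional sets of `ℤ^ι`.

For solid sets, and for their proper images in an arbitrary abelian group, the polynomial
Freiman-Ruzsa conjecture holds with truly polynomial bounds, explicit small exponents and the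
dimension at most `log_2 (2 K)`: a solid set with `|D + D| ≤ K |D|` contains a box with at most
`log_2 (2 K)` nontrivial sides and at least `|D| / (256 K ^ 7)` points.
-/

set_option autoImplicit false
open scoped Pointwise
open Finset Q123.DS

universe u v

namespace Pool.Agent.Results.MP_dd2a7c_co.DownSets

/-- **The polynomial Freiman-Ruzsa conjecture for solid sets.** -/
theorem result (ι : Type u) [Fintype ι] [DecidableEq ι] (D : Finset (ι → ℤ)) (hne : D.Nonempty)
    (hD : ∀ x ∈ D, ∀ y : ι → ℤ, (∀ i, (0 ≤ y i ∧ y i ≤ x i) ∨ (x i ≤ y i ∧ y i ≤ 0)) → y ∈ D) :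
    -- a lower bound for the number of sums
    (∑ x ∈ D, 2 ^ (univ.filter fun i => x i ≠ 0).card ≤ (D + D).card) ∧
    ∀ K : ℝ, ((D + D).card : ℝ) ≤ K * D.card →
      -- a large box of small dimension in the set
      (∃ x ∈ D, (2 : ℝ) ^ (univ.filter fun i => x i ≠ 0).card ≤ 2 * K ∧
        (D.card : ℝ) ≤ 256 * K ^ 7 * ∏ i, ((x i).natAbs + 1 : ℝ)) ∧
      -- a covering by few translates of a centred box
      (∃ (n : ι → ℕ) (T : Finset (ι → ℤ)),
        (2 : ℝ) ^ (univ.filter fun i => n i ≠ 0).card ≤ 2 * K ∧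
        ∏ i, (2 * n i + 1) ≤ D.card ∧
        (T.card : ℝ) ≤ 1024 * K ^ 10 ∧
        ∀ a ∈ D, ∃ t ∈ T, ∀ i, |a i - t i| ≤ n i) ∧
      -- the form of the conjecture, for the proper images in any abelian group
      (∀ (Γ : Type v) [AddCommGroup Γ] [DecidableEq Γ] (φ : (ι → ℤ) →+ Γ),
        Set.InjOn φ (D + D : Finset (ι → ℤ)) →
        ∃ (r : ℕ) (B : Set (Fin r → ℝ)) (ψ : (Fin r → ℤ) →+ Γ) (T : Finset Γ),
          (r : ℝ) ≤ Real.logb 2 (2 * K) ∧
          Convex ℝ B ∧ IsCompact B ∧ (interior B).Nonempty ∧ (∀ x ∈ B, -x ∈ B) ∧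
          {x : Fin r → ℤ | (fun i => (x i : ℝ)) ∈ B}.ncard ≤ (D.image φ).card ∧
          (T.card : ℝ) ≤ 1024 * K ^ 10 ∧
          ∀ a ∈ D.image φ, ∃ t ∈ T, ∃ x : Fin r → ℤ, (fun i => (x i : ℝ)) ∈ B ∧
            a = t + ψ x) := by
  refine ⟨sum_two_pow_le hD, fun K hK => ⟨?_, cover hD hne hK, ?_⟩⟩
  · obtain ⟨x, hx, h1, h2⟩ := big_box hD hne hK
    refine ⟨x, hx, h1, ?_⟩
    unfold Q123.DS.box at h2
    push_cast at h2 ⊢
    exact h2
  · intro Γ _ _ φ hφ
    have hsub : D ⊆ D + D := by
      intro x hx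
      have := add_mem_add hx (zero_mem hD hne)
      rwa [add_zero] at this
    have hinj : Set.InjOn φ D := fun x hx y hy h => hφ (hsub hx) (hsub hy) h
    apply coset_form φ hD hne hφ
    rw [← image_add, card_image_of_injOn hφ, card_image_of_injOn hinj]
    exact hK

end Pool.Agent.Results.MP_dd2a7c_co.DownSets
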