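import Pool.Agent.Q123.VP.H

/-!
# The polynomial Freiman-Ruzsa conjecture: properness comes for free, and homomorphic images

`bx L` is the set of the integer points of the box `|x i| ≤ L i`, `img ψ H S = ψ(S) + H` as a set of
elements of the group (nothing is assumed about injectivity), `lat B` the set of the integer points
of `B`, `Body B` says that `B` is a centrally symmetric convex body (the last two are the
definitions of the starting file `MP_dd2a7c_co.DimensionFree`). `Conc A L` is the conclusion of Q1
for `A` with a parameter `L` in place of `K`: a centred convex coset progression of dimension at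
most `500 log (2 L)` and volume at most `|A|` has `5000 L ^ 5000` translates that cover `A`.

Proof. The box is first enlarged to an ellipsoid, which costs `12 ^ n` translates. The part of the
ellipsoid in the Voronoi cell of the kernel of `ℤ^n → Γ / H`, for the inner product of the
ellipsoid, is convex and symmetric, has the same image as the ellipsoid, and a quarter of it is
proper. No linear-algebraic reduction of the rank is needed, and no factor `n ^ (n ^ 2)` appears.
For images: the largest fibre on `A` and the inequalities of Plünnecke and Ruzsa bound the doubling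
of `φ(A)` and the number of elements of `φ(P)`, which is usually highly improper.
-/

set_option autoImplicit false

namespace Pool.Agent.Results.MP_dd2a7c_co.ImproperProgressions

open Finset
open scoped Pointwise
open Pool.Agent.Y806.DF Q123.VP

universe u v

/-- **Improper progressions and homomorphic images.**
(1) Let `P = ψ(box) + H` be any coset progression of rank `n` in any abelian group, as improper as
one likes, with `|P|` elements, and `N ≥ |H|` real. Then `P` is covered by
`196608 ^ n max(1, |P| / N)` translates of a PROPER centred convex coset progression of dimension `n`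
and volume at most `N`.
(2) If `|A + A| ≤ K |A|` and `P` is as in (1), `|P| ≤ M |A|`, `|A| ≤ M |A ∩ (g + P)|`, then the
conclusion of Q1 holds for `A` with `196608 ^ n M K` in place of `K`.
(3) In the situation of (2), it holds for the image of `A` under any homomorphism to any abelian
group, with `393216 ^ n M ^ 2 K ^ 6` in place of `K`.
(4) It holds for all homomorphic images of solid sets `D` (sets of integer points of a space of any
dimension that contain with `x` the integer points of the box spanned by `0` and `x`) with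
`|D + D| ≤ K |D|`, with `(2 K) ^ 45` in place of `K`. -/
theorem result :
    (∀ (Γ : Type u) [AddCommGroup Γ] (n : ℕ) (L : Fin n → ℕ) (ψ : (Fin n → ℤ) →+ Γ)
      (H : AddSubgroup Γ) [Finite H] (N : ℝ), (Nat.card H : ℝ) ≤ N →
      ∃ (B : Set (Fin n → ℝ)) (F : Finset Γ), Body B ∧
        Set.InjOn (fun p : (Fin n → ℤ) × Γ => ψ p.1 + p.2) (lat B ×ˢ (H : Set Γ)) ∧
        ((lat B).ncard : ℝ) * Nat.card H ≤ N ∧
        (F.card : ℝ) ≤ 196608 ^ n * max 1 ((img ψ H (bx L)).ncard / N) ∧
        ∀ g ∈ img ψ H (bx L), ∃ f ∈ F, ∃ w ∈ lat B, ∃ h ∈ H, g = f + ψ w + h) ∧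
    (∀ (Γ : Type u) [AddCommGroup Γ] [DecidableEq Γ] (K M : ℝ) (A : Finset Γ), A.Nonempty →
      ((A + A).card : ℝ) ≤ K * A.card →
      ∀ (n : ℕ) (L : Fin n → ℕ) (ψ : (Fin n → ℤ) →+ Γ) (H : AddSubgroup Γ) [Finite H],
        ((img ψ H (bx L)).ncard : ℝ) ≤ M * A.card →
        ∀ g : Γ, (A.card : ℝ) ≤ M * ({a : Γ | a ∈ A ∧ a - g ∈ img ψ H (bx L)}.ncard : ℝ) →
          Conc A (196608 ^ n * M * K)) ∧
    (∀ (G : Type u) (Γ : Type v) [AddCommGroup G] [DecidableEq G] [AddCommGroup Γ] [DecidableEq Γ]
      (φ : G →+ Γ) (K M : ℝ) (A : Finset G), A.Nonempty → ((A + A).card : ℝ) ≤ K * A.card →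
      ∀ (n : ℕ) (L : Fin n → ℕ) (ψ : (Fin n → ℤ) →+ G) (H : AddSubgroup G) [Finite H],
        ((img ψ H (bx L)).ncard : ℝ) ≤ M * A.card →
        ∀ g : G, (A.card : ℝ) ≤ M * ({a : G | a ∈ A ∧ a - g ∈ img ψ H (bx L)}.ncard : ℝ) →
          Conc (A.image φ) (393216 ^ n * M ^ 2 * K ^ 6)) ∧
    (∀ (ι : Type u) [Fintype ι] [DecidableEq ι] (Γ : Type v) [AddCommGroup Γ] [DecidableEq Γ]
      (φ : (ι → ℤ) →+ Γ) (K : ℝ) (D : Finset (ι → ℤ)), Q123.DS.Solid D → D.Nonempty →
      ((D + D).card : ℝ) ≤ K * D.card → Conc (D.image φ) ((2 * K) ^ 45)) := by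
  refine ⟨?_, ?_, ?_, ?_⟩
  · intro Γ _ n L ψ H _ N hN
    exact box_cover L ψ H hN
  · intro Γ _ _ K M A hA hK n L ψ H _ hP g hg
    exact conc_box L ψ H hA hK hP g hg
  · intro G Γ _ _ _ _ φ K M A hA hK n L ψ H _ hP g hg
    exact conc_image φ hA hK L ψ H hP g hg
  · intro ι _ _ Γ _ _ φ K D hD hne hK
    exact solid_image φ hD hne hK

end Pool.Agent.Results.MP_dd2a7c_co.ImproperProgressions
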