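import Pool.Agent.Q198.CI.G10

/-!
# Goldbach's problem in Cramér's model with limited independence

In Cramér's random model every integer `n ≥ 3` belongs to the random set `A` with probability
`1 / log n`, independently of the others, and the number `g(N)` of ordered representations of `N` as
a sum of two elements of `A` is almost surely `~ N / (log N)^2`. In the model with independence of
order `κ` only those sets `T` of events have to be independent whose number of elements is at most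
`κ n` for all `n ∈ T`. The expectation of `g(N)` needs independence of order 2 only. The theorem
says how much independence the lower bound for `g(N)` needs.

(1) Order 8 suffices for `g(N) ~ N / (log N)^2` almost surely, as `N → ∞` through all integers.
(2) Order 4 suffices for `g(N) ~ N / (log N)^2` in probability, and almost surely for all `N ≤ x`
    with at most `(log x)^6` exceptions.
(3) There is a model with independence of order 3 with `g(N) = o(N / (log N)^2)` in probability,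
    as `N → ∞` through all integers.
(4) There is a model with independence of order 3 and an infinite set `S` of even numbers only
    finitely many members of which, almost surely, are sums of two elements of `A`.
(5) For nondecreasing `κ`: order at least 4 for large `n` is equivalent to the asymptotic formula
    in probability in all models with independence of order `κ`, and also to: `g(N) > 0` with
    probability tending to one, in all these models.
(6) There is a model with independence of order 2 in which, almost surely, for EVERY `h` the set of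
    all sums of `h` elements of `A` has density zero.
-/

set_option autoImplicit false

namespace Pool.Agent.Results.MP_dd84fd_nt.GoldbachIndependence

open MeasureTheory Filter Topology

/-- Cramér's model with independence of order `κ`: `E n` is the event that the integer `n` belongs
to the random set. For every finite set `T` of integers `n ≥ 3` with at most `κ n` elements for
all `n ∈ T`, the probability that `T` is contained in the random set is `∏ 1 / log n`. -/
structure CramerModel {Ω : Type} [MeasurableSpace Ω] (P : Measure Ω) (κ : ℕ → ℕ)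
    (E : ℕ → Set Ω) : Prop where
  meas : ∀ n, MeasurableSet (E n)
  indep : ∀ T : Finset ℕ, (∀ n ∈ T, 3 ≤ n ∧ T.card ≤ κ n) →
    P (⋂ n ∈ T, E n) = ENNReal.ofReal (∏ n ∈ T, 1 / Real.log n)

/-- the number of ordered representations of `N` as a sum of two elements of the random set -/
noncomputable def g {Ω : Type} (E : ℕ → Set Ω) (ω : Ω) (N : ℕ) : ℕ :=
  {p : ℕ × ℕ | p.1 + p.2 = N ∧ ω ∈ E p.1 ∧ ω ∈ E p.2}.ncard

/-- the quotient of `g(N)` and `N / (log N)^2` -/
noncomputable def ratio {Ω : Type} (E : ℕ → Set Ω) (ω : Ω) (N : ℕ) : ℝ :=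
  (g E ω N : ℝ) * Real.log N ^ 2 / N

/-- `N` is a sum of `h` elements of the random set -/
def IsSum {Ω : Type} (E : ℕ → Set Ω) (ω : Ω) (h N : ℕ) : Prop :=
  ∃ a : Fin h → ℕ, (∀ i, ω ∈ E (a i)) ∧ ∑ i, a i = N

theorem result :
    -- (1) order 8
    (∀ (Ω : Type) [MeasurableSpace Ω] (P : Measure Ω) [IsProbabilityMeasure P]
      (κ : ℕ → ℕ) (E : ℕ → Set Ω), CramerModel P κ E → (∀ᶠ n : ℕ in atTop, 8 ≤ κ n) →
      ∀ᵐ ω ∂P, Tendsto (fun N : ℕ => ratio E ω N) atTop (𝓝 1)) ∧
    -- (2) order 4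
    (∀ (Ω : Type) [MeasurableSpace Ω] (P : Measure Ω) [IsProbabilityMeasure P]
      (κ : ℕ → ℕ) (E : ℕ → Set Ω), CramerModel P κ E → (∀ᶠ n : ℕ in atTop, 4 ≤ κ n) →
      (∀ η : ℝ, 0 < η → Tendsto (fun N : ℕ => P {ω | η ≤ |ratio E ω N - 1|}) atTop (𝓝 0)) ∧
      ∀ᵐ ω ∂P, ∀ η : ℝ, 0 < η → ∀ᶠ x : ℕ in atTop,
        (({N : ℕ | N ≤ x ∧ η ≤ |ratio E ω N - 1|}.ncard : ℕ) : ℝ) ≤ Real.log x ^ 6) ∧
    -- (3) order 3, few representations
    (∃ (Ω : Type) (_ : MeasurableSpace Ω) (P : Measure Ω) (_ : IsProbabilityMeasure P)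
      (E : ℕ → Set Ω), CramerModel P (fun _ => 3) E ∧
      ∀ η : ℝ, 0 < η → Tendsto (fun N : ℕ => P {ω | η ≤ ratio E ω N}) atTop (𝓝 0)) ∧
    -- (4) order 3, exceptions
    (∃ (Ω : Type) (_ : MeasurableSpace Ω) (P : Measure Ω) (_ : IsProbabilityMeasure P)
      (E : ℕ → Set Ω) (S : Set ℕ), CramerModel P (fun _ => 3) E ∧ S.Infinite ∧
      (∀ N ∈ S, Even N) ∧ ∀ᵐ ω ∂P, {N : ℕ | N ∈ S ∧ g E ω N ≠ 0}.Finite) ∧
    -- (5) the threshold
    (∀ κ : ℕ → ℕ, Monotone κ →
      ((∀ᶠ n : ℕ in atTop, 4 ≤ κ n) ↔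
        ∀ (Ω : Type) (_ : MeasurableSpace Ω) (P : Measure Ω) (_ : IsProbabilityMeasure P)
          (E : ℕ → Set Ω), CramerModel P κ E → ∀ η : ℝ, 0 < η →
          Tendsto (fun N : ℕ => P {ω | η ≤ |ratio E ω N - 1|}) atTop (𝓝 0)) ∧
      ((∀ᶠ n : ℕ in atTop, 4 ≤ κ n) ↔
        ∀ (Ω : Type) (_ : MeasurableSpace Ω) (P : Measure Ω) (_ : IsProbabilityMeasure P)
          (E : ℕ → Set Ω), CramerModel P κ E →
          Tendsto (fun N : ℕ => P {ω | g E ω N = 0}) atTop (𝓝 0))) ∧
    -- (6) order 2, thin sumsets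
    (∃ (Ω : Type) (_ : MeasurableSpace Ω) (P : Measure Ω) (_ : IsProbabilityMeasure P)
      (E : ℕ → Set Ω), CramerModel P (fun _ => 2) E ∧
      (∀ h : ℕ, 1 ≤ h → Tendsto (fun N : ℕ => P {ω | IsSum E ω h N}) atTop (𝓝 0)) ∧
      ∀ᵐ ω ∂P, ∀ h : ℕ, 1 ≤ h →
        Tendsto (fun x : ℕ => (({N : ℕ | N ≤ x ∧ IsSum E ω h N}.ncard : ℕ) : ℝ) / x)
          atTop (𝓝 0)) := by
  have hR : ∀ {Ω : Type} (E : ℕ → Set Ω) (ω : Ω) (N : ℕ), ((g E ω N : ℕ) : ℝ) = Q198.CI.RR E N ω :=
    fun E ω N => Q198.CI.reps_eq E N ω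
  have hr : ∀ {Ω : Type} (E : ℕ → Set Ω) (ω : Ω) (N : ℕ),
      ratio E ω N = Q198.CI.RR E N ω * Real.log N ^ 2 / N := by
    intro Ω E ω N
    unfold ratio
    rw [hR]
  have hB : ∀ {Ω : Type} (E : ℕ → Set Ω) (η : ℝ) (N : ℕ),
      {ω | η ≤ |ratio E ω N - 1|} = Q198.CI.BB E η N := by
    intro Ω E η N
    ext ω
    rw [Set.mem_ofPred_eq, hr]
    exact Iff.rfl
  have h0 : ∀ {Ω : Type} (E : ℕ → Set Ω) (ω : Ω) (N : ℕ), g E ω N = 0 ↔ Q198.CI.RR E N ω = 0 := by
    intro Ω E ω N
    rw [← hR, Nat.cast_eq_zero]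
  have h0' : ∀ {Ω : Type} (E : ℕ → Set Ω) (N : ℕ),
      {ω | g E ω N = 0} = {ω | Q198.CI.RR E N ω = 0} := by
    intro Ω E N
    ext ω
    exact h0 E ω N
  refine ⟨?_, ?_, ?_, ?_, ?_, ?_⟩
  · intro Ω _ P _ κ E hM hκ
    filter_upwards [Q198.CI.goldbach_all ⟨hM.meas, hM.indep⟩ hκ] with ω hω
    simp_rw [hr]
    exact hω
  · intro Ω _ P _ κ E hM hκ
    refine ⟨fun η hη => ?_, ?_⟩
    · simp_rw [hB]
      exact Q198.CI.goldbach_prob ⟨hM.meas, hM.indep⟩ hκ hη
    · filter_upwards [Q198.CI.goldbach_few ⟨hM.meas, hM.indep⟩ hκ] with ω hω η hη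
      filter_upwards [hω η hη] with x hx
      refine le_trans (le_of_eq ?_) hx
      congr 2
      ext N
      rw [Set.mem_ofPred_eq, Set.mem_ofPred_eq, hr]
      exact Iff.rfl
  · refine ⟨_, inferInstance, Q198.CI.P3a.prod Q198.CI.P3b, inferInstance, Q198.CI.E3,
      ⟨Q198.CI.E3_model.meas, Q198.CI.E3_model.indep⟩, fun η hη => ?_⟩
    simp_rw [hr]
    exact Q198.CI.E3_small hη
  · obtain ⟨Ω, mΩ, P, hP, E, hM, hE⟩ := Q198.CI.no_goldbach
    refine ⟨Ω, mΩ, P, hP, E, Set.range (fun j => Q198.CI.xs (j + 1)), ⟨hM.meas, hM.indep⟩, ?_, ?_, ?_⟩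
    · apply Set.infinite_range_of_injective
      intro i j hij
      have := Q198.CI.xs_mono.injective hij
      omega
    · rintro N ⟨j, rfl⟩
      exact ⟨Q198.CI.nxt (Q198.CI.xs j) j, by show Q198.CI.xs (j + 1) = _; rw [Q198.CI.xs_succ]; omega⟩
    · filter_upwards [hE] with ω hω
      obtain ⟨J, hJ⟩ := eventually_atTop.1 hω
      apply Set.Finite.subset ((Set.finite_Iio J).image (fun j => Q198.CI.xs (j + 1)))
      rintro N ⟨⟨j, rfl⟩, hN⟩
      refine ⟨j, ?_, rfl⟩
      rw [Set.mem_Iio]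
      by_contra hj
      apply hN
      rw [h0, Q198.CI.RR_zero_iff]
      exact hJ j (not_lt.1 hj)
  · intro κ hmono
    have hback : (∀ (Ω : Type) (_ : MeasurableSpace Ω) (P : Measure Ω) (_ : IsProbabilityMeasure P)
          (E : ℕ → Set Ω), CramerModel P κ E →
          Tendsto (fun N : ℕ => P {ω | g E ω N = 0}) atTop (𝓝 0)) → ∀ᶠ n : ℕ in atTop, 4 ≤ κ n := by
      intro h
      apply Q198.CI.order_four_of_pos hmono
      intro Ω mΩ P hP E hM
      have h1 := h Ω mΩ P hP E ⟨hM.meas, hM.indep⟩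
      simp_rw [h0'] at h1
      exact h1
    have hfor : (∀ (Ω : Type) (_ : MeasurableSpace Ω) (P : Measure Ω) (_ : IsProbabilityMeasure P)
          (E : ℕ → Set Ω), CramerModel P κ E → ∀ η : ℝ, 0 < η →
          Tendsto (fun N : ℕ => P {ω | η ≤ |ratio E ω N - 1|}) atTop (𝓝 0)) →
        (∀ (Ω : Type) (_ : MeasurableSpace Ω) (P : Measure Ω) (_ : IsProbabilityMeasure P)
          (E : ℕ → Set Ω), CramerModel P κ E →
          Tendsto (fun N : ℕ => P {ω | g E ω N = 0}) atTop (𝓝 0)) := by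
      intro h Ω mΩ P hP E hM
      have h1 := h Ω mΩ P hP E hM (1 / 2) (by norm_num)
      simp_rw [hB] at h1
      simp_rw [h0']
      exact Q198.CI.pos_of_asymp h1
    have hasy : (∀ᶠ n : ℕ in atTop, 4 ≤ κ n) →
        ∀ (Ω : Type) (_ : MeasurableSpace Ω) (P : Measure Ω) (_ : IsProbabilityMeasure P)
          (E : ℕ → Set Ω), CramerModel P κ E → ∀ η : ℝ, 0 < η →
          Tendsto (fun N : ℕ => P {ω | η ≤ |ratio E ω N - 1|}) atTop (𝓝 0) := by
      intro hκ Ω mΩ P hP E hM η hη
      simp_rw [hB]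
      exact Q198.CI.goldbach_prob ⟨hM.meas, hM.indep⟩ hκ hη
    exact ⟨⟨hasy, fun h => hback (hfor h)⟩, ⟨fun h => hfor (hasy h), hback⟩⟩
  · refine ⟨_, inferInstance, (volume : Measure (Q198.CI.TT × Q198.CI.TT)), inferInstance,
      Q198.CI.E2, ⟨Q198.CI.E2_model.meas, Q198.CI.E2_model.indep⟩, fun h hh => Q198.CI.E2_prob hh, ?_⟩
    filter_upwards [Q198.CI.E2_density] with ω hω h hh
    exact Q198.CI.density_of_le (A := {N | IsSum Q198.CI.E2 ω h N}) fun ε hε => hω h hh ε hε

end Pool.Agent.Results.MP_dd84fd_nt.GoldbachIndependence
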