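import Pool.Agent.Q7.PM.Red

/-!
# The 2-parity conjecture: reduction to the curves with `j = -4 t³ (t + 8)`

`D : TwoInv` (`Pool.Agent.Q7.PM.TwoInv`) consists of two functions on the elliptic curves over number
fields: `D.rk` (for example the 2-infinity Selmer rank) and `D.w` (for example the global root number),
with the following properties, all of them known for the example:
* `rk_rel`, `w_rel`: if `Σ n_j Ind_{X_j}^K 1 = m` for finite extensions `X_j/K` (`fixn K F σ` is the number
  of the `K`-embeddings of `F` into the algebraic closure which are fixed by `σ`), then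
  `Σ n_j rk(E/X_j) = m rk(E/K)` and `∏ w(E/X_j)^(n_j) = w(E/K)^m`;
* `quad`: the 2-parity conjecture for the base change of `E/F` to a quadratic extension of `F` (Kramer,
  Kramer-Tunnell, Dokchitser-Dokchitser);
* `tors`: the 2-parity conjecture for curves with a rational point of order two (Dokchitser-Dokchitser);
* `rational`: the 2-parity conjecture over `ℚ` (Monsky).

The curves with `j = -4 t³ (t + 8)`, that is `c₄³ = -4 t³ (t + 8) Δ`, with `t` in the base field are the
curves whose image of Galois modulo 4 lies in the normalizer of a nonsplit Cartan subgroup.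
-/

set_option autoImplicit false

namespace Pool.Agent.Results.MP_ddf76b_nt.NonsplitCartan

open Polynomial Pool.Agent.Q7.PM

/-- The parity conjecture for `E/F` and the invariants `D`. -/
def Parity (D : TwoInv) (F : Type) [Field F] [NumberField F] (E : WeierstrassCurve F) : Prop :=
  (-1 : ℤˣ) ^ D.rk F E = D.w F E

/-- 2-hyperelementary groups: a normal cyclic subgroup of odd order whose quotient is a 2-group. -/
def Hyperelementary (G : Type) [Group G] : Prop :=
  ∃ C : Subgroup G, C.Normal ∧ IsCyclic C ∧ (Nat.card C).Coprime 2 ∧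
    ∀ g : G, ∃ k : ℕ, g ^ 2 ^ k ∈ C

/-- The special curves: no rational point of order two, `j = -4 t³ (t + 8)`, and the division polynomials
up to `n` and the polynomials of the finite set `S` have 2-hyperelementary Galois groups over `F`. -/
def Special (n : ℕ) (S : Finset ℚ[X]) {F : Type} [Field F] [NumberField F]
    (E : WeierstrassCurve F) : Prop :=
  (∀ x : F, E.Ψ₂Sq.eval x ≠ 0) ∧ (∃ t : F, E.c₄ ^ 3 = -4 * t ^ 3 * (t + 8) * E.Δ) ∧
    (∀ m : ℕ, m ≤ n → Hyperelementary (E.ΨSq m).Gal) ∧
    ∀ g ∈ S, Hyperelementary (g.map (algebraMap ℚ F)).Gal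

/-- **Reduction to `j = -4 t³ (t + 8)`.**
1. Let `E/K` be an elliptic curve and `F = K(t)` of degree four with `j(E) = -4 t³ (t + 8)`. The
2-parity conjecture for `E/F` is equivalent to the 2-parity conjecture for `E/K`.
2. It holds for `E/F` if `K = ℚ`.
3. For all `n` and `S`, the 2-parity conjecture for the special curves over all number fields implies the
2-parity conjecture for all elliptic curves over all number fields. -/
theorem result (D : TwoInv) :
    (∀ (K : Type) [Field K] [NumberField K] (E : WeierstrassCurve K), E.IsElliptic →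
      ∀ (F : Type) [Field F] [NumberField F] [Algebra K F], Module.finrank K F = 4 →
      ∀ t : F, Algebra.adjoin K {t} = ⊤ →
      algebraMap K F E.c₄ ^ 3 = -4 * t ^ 3 * (t + 8) * algebraMap K F E.Δ →
      (Parity D F (E.map (algebraMap K F)) ↔ Parity D K E)) ∧
    (∀ (E : WeierstrassCurve ℚ), E.IsElliptic →
      ∀ (F : Type) [Field F] [NumberField F], Module.finrank ℚ F = 4 →
      ∀ t : F, Algebra.adjoin ℚ {t} = ⊤ →
      algebraMap ℚ F E.c₄ ^ 3 = -4 * t ^ 3 * (t + 8) * algebraMap ℚ F E.Δ →
      Parity D F (E.map (algebraMap ℚ F))) ∧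
    (∀ (n : ℕ) (S : Finset ℚ[X]),
      (∀ (F : Type) [Field F] [NumberField F] (E : WeierstrassCurve F), E.IsElliptic →
        Special n S E → Parity D F E) →
      ∀ (F : Type) [Field F] [NumberField F] (E : WeierstrassCurve F), E.IsElliptic →
        Parity D F E) := by
  classical
  have hpar : ∀ (F : Type) [Field F] [NumberField F] (E : WeierstrassCurve F),
      Parity D F E ↔ pz (D.df F E) = 0 := by
    intro F _ _ E
    rw [pz_eq_zero, D.df_iff]
    rfl
  have part1 : ∀ (K : Type) [Field K] [NumberField K] (E : WeierstrassCurve K), E.IsElliptic →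
      ∀ (F : Type) [Field F] [NumberField F] [Algebra K F], Module.finrank K F = 4 →
      ∀ t : F, Algebra.adjoin K {t} = ⊤ →
      algebraMap K F E.c₄ ^ 3 = -4 * t ^ 3 * (t + 8) * algebraMap K F E.Δ →
      (Parity D F (E.map (algebraMap K F)) ↔ Parity D K E) := by
    intro K _ _ E hE F _ _ _ h4 t htop ht
    rw [hpar, hpar, D.quartic_law hE F t ?_ htop h4]
    rw [eval_qq, WeierstrassCurve.map_Δ, WeierstrassCurve.map_c₄]
    linear_combination ht
  refine ⟨part1, ?_, ?_⟩
  · intro E hE F _ _ h4 t htop ht
    exact (part1 ℚ E hE F h4 t htop ht).2 (D.rational E hE)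
  · intro n S h
    -- the curves of the family
    have hfam : ∀ (K : Type) [Field K] [NumberField K] (E : WeierstrassCurve K), E.IsElliptic →
        (∃ t : K, E.c₄ ^ 3 = -4 * t ^ 3 * (t + 8) * E.Δ) → Parity D K E := by
      intro K _ _ E hE ht
      obtain ⟨t, ht⟩ := ht
      rw [hpar]
      let T : Finset K[X] := (Finset.range (n + 1)).image (fun m : ℕ => E.ΨSq (m : ℤ)) ∪
        S.image (fun g => g.map (algebraMap ℚ K))
      refine D.descend hE T fun F _ _ _ hF => ?_
      rw [← hpar]
      by_cases h2 : ∀ x : F, (E.map (algebraMap K F)).Ψ₂Sq.eval x ≠ 0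
      · refine h F _ inferInstance ⟨h2, ⟨algebraMap K F t, ?_⟩, fun m hm => ?_, fun g hg => ?_⟩
        · rw [WeierstrassCurve.map_c₄, WeierstrassCurve.map_Δ, ← map_pow, ht]
          simp only [map_mul, map_add, map_pow, map_neg, map_ofNat]
        · have h5 := hF _ (Finset.mem_union_left _ (Finset.mem_image_of_mem
            (fun m : ℕ => E.ΨSq (m : ℤ)) (Finset.mem_range.2 (Nat.lt_succ_of_le hm))))
          rw [← WeierstrassCurve.map_ΨSq] at h5
          exact h5
        · have h5 := hF _ (Finset.mem_union_right _ (Finset.mem_image_of_mem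
            (fun g : ℚ[X] => g.map (algebraMap ℚ K)) hg))
          rw [Polynomial.map_map] at h5
          have h6 : (algebraMap K F).comp (algebraMap ℚ K) = algebraMap ℚ F :=
            Subsingleton.elim _ _
          rw [h6] at h5
          exact h5
      · push Not at h2
        exact D.tors F _ inferInstance h2
    intro K _ _ E hE
    by_cases h2 : ∃ x : K, E.Ψ₂Sq.eval x = 0
    · exact D.tors K E hE h2
    by_cases ht : ∃ t : K, (qq E).eval t = 0
    · obtain ⟨t, ht⟩ := ht
      refine hfam K E hE ⟨t, ?_⟩
      rw [eval_qq] at ht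
      linear_combination ht
    · push Not at h2 ht
      have hirr : Irreducible (mq E) := mq_irreducible hE h2 ht
      have hfact : Fact (Irreducible (mq E)) := ⟨hirr⟩
      have hfin : Module.Finite K (AdjoinRoot (mq E)) := (mq_monic E).finite_adjoinRoot
      have hnf : NumberField (AdjoinRoot (mq E)) := NumberField.of_module_finite K _
      have hdeg : Module.finrank K (AdjoinRoot (mq E)) = 4 := by
        rw [(AdjoinRoot.powerBasis' (mq_monic E)).finrank, AdjoinRoot.powerBasis'_dim,
          mq_natDegree]
      have hroot : algebraMap K (AdjoinRoot (mq E)) E.c₄ ^ 3 =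
          -4 * (AdjoinRoot.root (mq E)) ^ 3 * (AdjoinRoot.root (mq E) + 8) *
            algebraMap K (AdjoinRoot (mq E)) E.Δ := by
        refine of_aeval_mq hE.isUnit.ne_zero ?_
        rw [AdjoinRoot.aeval_eq, AdjoinRoot.mk_self]
      have htop : Algebra.adjoin K {AdjoinRoot.root (mq E)} = ⊤ :=
        AdjoinRoot.adjoinRoot_eq_top
      have h6 := part1 K E hE (AdjoinRoot (mq E)) hdeg _ htop hroot
      refine h6.1 (hfam _ _ inferInstance ⟨AdjoinRoot.root (mq E), ?_⟩)
      rw [WeierstrassCurve.map_c₄, WeierstrassCurve.map_Δ]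
      exact hroot

end Pool.Agent.Results.MP_ddf76b_nt.NonsplitCartan
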