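import Pool.Agent.Q158.WQ.Main

/-!
# How random must the Wilson quotients be to give infinitely many Wilson primes?

The Wilson quotient of a prime `p` is `((p - 1)! + 1) / p`, a Wilson prime is a zero of it modulo `p`. The heuristics for Q1 takes the Wilson
quotients for independent uniform residues. Here `W` is any random family of residues `W p ∈ {0, …, p - 1}` (no independence, no uniformity is
assumed), `ent μ W x` is the Shannon entropy (nats) of the residues modulo the primes `p < x`, at most `theta x = ∑_{p < x} log p`, and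
`ll x = log log x`. `num W c ω x` is the number of the primes `p < x` with `W ω p = c p`; for `c = 0` these are the Wilson primes of the family.
-/

set_option autoImplicit false

namespace Pool.Agent.Results.MP_de5eaa_nt.WilsonQuotientEntropy

open MeasureTheory Filter Pool.Agent.Q158.WQ
open scoped Topology

/-- (0) For any `d`, all families with entropy `≥ theta x - d x` (large `x`) almost surely have infinitely many Wilson primes iff
`liminf d x / log log x ≤ 0`, and then every target `c` is hit infinitely often. (1) For nondecreasing `d ≥ 0`: almost surely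
`~ log log x` Wilson primes for all these families iff `∑_p d p / (p (log log p) ^ 2) < ∞`, and then the same for every target. (2) Class `δ`: entropy
`≥ theta x - (δ + o(1)) log log x`. A probability measure `ν` is the law of `lim num / log log x` for some family of class `δ` iff it lives on `[0, ∞)` and
`∫ (u log u - u + 1) dν ≤ δ`. (3) The largest probability of finitely many Wilson primes in class `δ` is `min 1 δ`. -/
theorem result :
    (∀ d : ℕ → ℝ,
      ((∀ (Ω : Type) [MeasurableSpace Ω] (μ : Measure Ω) [IsProbabilityMeasure μ] (W : Ω → ℕ → ℕ), IsFamily W →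
        (∀ᶠ x : ℕ in atTop, theta x - d x ≤ ent μ W x) → ∀ᵐ ω ∂μ, {p : ℕ | p.Prime ∧ W ω p = 0}.Infinite) ↔
        ∀ ε : ℝ, 0 < ε → ∃ᶠ x : ℕ in atTop, d x < ε * ll x) ∧
      ((∀ ε : ℝ, 0 < ε → ∃ᶠ x : ℕ in atTop, d x < ε * ll x) →
        ∀ (Ω : Type) [MeasurableSpace Ω] (μ : Measure Ω) [IsProbabilityMeasure μ] (W : Ω → ℕ → ℕ), IsFamily W →
        (∀ᶠ x : ℕ in atTop, theta x - d x ≤ ent μ W x) → ∀ c : ℕ → ℕ, IsTarget c →
          ∀ᵐ ω ∂μ, {p : ℕ | p.Prime ∧ W ω p = c p}.Infinite)) ∧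
    (∀ d : ℕ → ℝ, Monotone d → (∀ n, 0 ≤ d n) →
      ((∀ (Ω : Type) [MeasurableSpace Ω] (μ : Measure Ω) [IsProbabilityMeasure μ] (W : Ω → ℕ → ℕ), IsFamily W →
        (∀ᶠ x : ℕ in atTop, theta x - d x ≤ ent μ W x) →
          ∀ᵐ ω ∂μ, Tendsto (fun x : ℕ => (num W (fun _ => 0) ω x : ℝ) / ll x) atTop (𝓝 1)) ↔
        Summable (fun p : ℕ => if p.Prime then d p / (p * ll p ^ 2) else 0)) ∧
      (Summable (fun p : ℕ => if p.Prime then d p / (p * ll p ^ 2) else 0) →
        ∀ (Ω : Type) [MeasurableSpace Ω] (μ : Measure Ω) [IsProbabilityMeasure μ] (W : Ω → ℕ → ℕ), IsFamily W →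
        (∀ᶠ x : ℕ in atTop, theta x - d x ≤ ent μ W x) → ∀ c : ℕ → ℕ, IsTarget c →
          ∀ᵐ ω ∂μ, Tendsto (fun x : ℕ => (num W c ω x : ℝ) / ll x) atTop (𝓝 1))) ∧
    ∀ δ : ℝ, 0 ≤ δ →
      (∀ ν : Measure ℝ, IsProbabilityMeasure ν →
        ((∃ (Ω : Type) (_ : MeasurableSpace Ω) (μ : Measure Ω) (_ : IsProbabilityMeasure μ) (W : Ω → ℕ → ℕ) (L : Ω → ℝ), Cls δ μ W ∧
          Measurable L ∧ μ.map L = ν ∧ ∀ᵐ ω ∂μ, Tendsto (fun x : ℕ => (num W (fun _ => 0) ω x : ℝ) / ll x) atTop (𝓝 (L ω))) ↔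
        ν (Set.Iio 0) = 0 ∧ ∫⁻ u, ENNReal.ofReal (u * Real.log u - u + 1) ∂ν ≤ ENNReal.ofReal δ)) ∧
      (∀ (Ω : Type) [MeasurableSpace Ω] (μ : Measure Ω) [IsProbabilityMeasure μ] (W : Ω → ℕ → ℕ), Cls δ μ W → ∀ c : ℕ → ℕ, IsTarget c →
        μ.real {ω | {p : ℕ | p.Prime ∧ W ω p = c p}.Finite} ≤ δ) ∧
      ∃ (Ω : Type) (_ : MeasurableSpace Ω) (μ : Measure Ω) (_ : IsProbabilityMeasure μ) (W : Ω → ℕ → ℕ), Cls δ μ W ∧
        μ.real {ω | {p : ℕ | p.Prime ∧ W ω p = 0}.Finite} = min 1 δ :=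
  ⟨part0, part1, fun δ hδ => ⟨fun ν hν => @part2 δ hδ ν hν,
    fun _ _ _ _ _ hW _ hc => fin_le hδ hc hW, exists_fin hδ⟩⟩

end Pool.Agent.Results.MP_de5eaa_nt.WilsonQuotientEntropy
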