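import Pool.Agent.Q296.ES.MT

/-!
# The motivic Mumford-Tate conjecture for sums of ternary quartic or cubic forms

Let `W` be a smooth hypersurface of ARBITRARY dimension over a finitely generated field of
characteristic zero, with the equation

  `f_1(x_1, y_1, z_1) + f_2(x_2, y_2, z_2) + ⋯ + f_r(x_r, y_r, z_r) = 0`,

where all the `f_j` are quartic forms, or all are cubic forms (in at most three variables each, and
one more term `u_j^4`, respectively `u_j^3`, is allowed for every `j`). We prove the motivic
Mumford-Tate conjecture, for all primes `ℓ`, for all products of such hypersurfaces, abelian
varieties for which the conjecture is known, K3 surfaces, and all motives cut out of them.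
-/

open CategoryTheory MonoidalCategory

universe v u w

namespace Pool.Agent.Results.MP_de8692_ag.SumsOfTernaryQuartics

open Pool.Agent.Q28.HJ
open Pool.Agent.Q296.ES

/-- **The motivic Mumford-Tate conjecture for sums of ternary forms of degree three or four.** Let `T`
be the category of motives over the algebraic closure of a finitely generated field of
characteristic zero (`hT`: known facts). Let `M` be a motive obtained by tensor products, direct
sums, direct summands and Tate twists from abelian motives for which the Mumford-Tate conjecture
holds (such as the motives of elliptic curves, K3 surfaces, abelian varieties of dimension at most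
three) and from the motives `T.mot W` of the smooth hypersurfaces `W`, of any dimension, which are
sums, in disjoint sets of variables, of ternary quartic forms, or of ternary cubic forms
(`IsTernarySum`). Then `M` is an abelian motive and the motivic Mumford-Tate conjecture holds
for `M`. -/
theorem result {𝓜 : Type u} [Category.{v} 𝓜] [Preadditive 𝓜] [MonoidalCategory 𝓜]
    {T : MTData.{v, u, w} 𝓜} (hT : T.Facts) (M : 𝓜)
    (hM : GenBy T.L (fun N => (T.Abelian N ∧ T.MTC N) ∨ ∃ W, T.IsTernarySum W ∧ N = T.mot W) M) :
    T.Abelian M ∧ T.MTC M :=
  MTData.final hT M hM

end Pool.Agent.Results.MP_de8692_ag.SumsOfTernaryQuartics
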