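import Pool.Agent.Q200.NE.Tate

/-!
# Noncommutative Tate conjecture for dg categories built from sums of ternary cubic forms

Let `k` be a finite field of characteristic `p ≥ 5` and let `W` be a smooth hypersurface over `k`, of
ARBITRARY dimension, with the equation

  `f_1(x_1, y_1, z_1) + f_2(x_2, y_2, z_2) + ⋯ + f_r(x_r, y_r, z_r) = 0`,

`f_j` cubic forms in at most three variables, or with the equation `f_1(x_1, y_1) + ⋯ + f_r(x_r, y_r)
= 0`, `f_j` binary quartic forms; one more term `u_j^3`, respectively `u_j^4`, is allowed for every
`j`. We prove that all groups `G_n(A)`, for all primes `l ≠ p`, vanish for all smooth proper dg
categories `A` which can be built by admissible subcategories and semiorthogonal decompositions from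
the derived categories (also twisted by Azumaya algebras, or equivariant for finite groups) of smooth
projective `X` with motive generated by elliptic curves and such `W`: for example for the
Kuznetsov components of these `W`, and all admissible subcategories for products of such `W`.
-/

open CategoryTheory MonoidalCategory

universe v u w

namespace Pool.Agent.Results.MP_de89cc_ag.SumsOfTernaryCubics

open Pool.Agent.Q200.NE

/-- **Noncommutative Tate conjecture for sums of ternary cubics.** Let `T` be the Chow motives
with rational coefficients over an algebraic closure of a finite field `k` of characteristic at least
five, and the smooth proper dg categories over `k` (`hT`: known facts). Let `Built` be the smallest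
class of dg categories which contains `perf_dg(X)`, its twisted forms `perf_dg(X; 𝓑)` (Azumaya
algebras) and the equivariant forms `perf_dg([X / G])` (finite groups of order prime to `p`) for the
smooth projective `X` (for `[X / G]`: all fixed point schemes of cyclic subgroups) with motives
obtained by tensor products, direct sums, direct summands and Tate twists from the motives `h^1(E)` of
elliptic curves and the motives of the smooth hypersurfaces `W`, of any dimensions, which are sums, in
disjoint sets of variables, of cubic forms in at most three variables or of binary quartic forms; and
which is closed under admissible subcategories and semiorthogonal decompositions.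

Then for all `A` in this class the groups `G_n(A)` are zero for all `n ≥ 1` and all primes `l ≠ p`. -/
theorem result {𝓜 : Type u} [Category.{v} 𝓜] [Preadditive 𝓜] [MonoidalCategory 𝓜]
    {T : TateData.{v, u, w} 𝓜} (hT : T.Facts) (A : T.Cat) (hA : T.Built A) : T.TateNC A :=
  NCData.final hT.mot hT.additive A hA

end Pool.Agent.Results.MP_de89cc_ag.SumsOfTernaryCubics
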