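import Mathlib
import Pool.Agent.Q47.TV.Core

/-!
# ACC for minimal log discrepancies of quotients of toric pairs at all closed points

`x` is a closed point of an affine variety `X`, `B` an effective `ℝ`-divisor with `K_X + B` `ℝ`-Cartier
at `x`, and `G` a finite group of automorphisms of the germ `(X ∋ x, B)`. Every `σ` in `G` has a toric
chart (`GermChart`): the germ is isomorphic to the germ at a closed point `y` of a pair `(X_σ, B_σ)`, where
`X_σ` is an affine toric variety of dimension `n` (any strictly convex rational cone of any dimension at
most `n`), `B_σ` a torus invariant `ℝ`-divisor with coefficients in a DCC set `Γ`, and `σ` becomes a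
monomial automorphism of `X_σ`. The point `y` may lie in any torus orbit, and different elements of `G` may
need different charts, so that `G` need not normalize any torus.

The hypothesis holds for the stabilizer `G = G_x` of every closed point `x` when `(X, B)` is a projective
toric pair of dimension `n` with coefficients in `Γ` and `G` is replaced by any finite group of
automorphisms of `(X, B)`: by Steinberg's theorem every element of finite order of the linear algebraic
group `Aut (X, B)` normalizes a maximal torus. (This remark is not part of the formal statement.)

For the pair `(Y ∋ Q, B_Y)`, `Y = X / G`, with `K_X + B = π^* (K_Y + B_Y)`, every prime divisor `F` over `Y`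
with centre `Q` is the image of a prime divisor `E` over `X` with centre `x`, and
`a(E, X, B) = r_E a(F, Y, B_Y)` with the ramification index `r_E`, the order of the inertia group of `E`.
Therefore the minimal log discrepancy of the quotient is the least value of `a(E, X, B) / r_E`
(`IsQuotMldX`).

Idea of the proof: let `E` compute the minimal log discrepancy `m` of the quotient, let `σ` generate its
inertia group, of order `r`, and let `W` be the action of `σ` on the lattice of monomials of the chart. The
eigenfunctions of `σ` which are units times monomials minus constants give `m ≥ κ + c + φ (u)`, where
`exp (2 π i κ_j)`, `0 ≤ κ_j < 1`, are the eigenvalues of `W`, `κ = ∑ κ_j`, `c` is the dimension of the space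
spanned by the `W`-invariant monomials which do not vanish at `y`, `r u` is the weight of `E` and `φ` is
the log discrepancy function on the face of the cone which belongs to `y`. Conversely, for every
rational `W`-invariant `u` in the interior of the face which is compatible with the residues at `y`, an
embedding of the function field in `K((t))` gives a divisorial valuation with
`a(E, X, B) / r_E ≤ κ + c + φ (u)`. Therefore `m - κ - c` is the minimum of `φ` on a coset of a finite group,
and `κ` has bounded denominator (Minkowski).
-/

set_option autoImplicit false

namespace Pool.Agent.Results.MP_df5e61_ag.LocallyToricQuotients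

open Pool.Agent.TH165.ACC Pool.Agent.W497.Mld Pool.Agent.H436R3.KT Pool.Agent.H436R3.Fol Q47.QM Q47.TV

/-- For every `n` and every DCC set `Γ`, the numbers `m ≥ 0` of the following form are an ACC set:
`x` is a closed point of an affine variety `X` with function field `ℂ(y_1, ..., y_n)`, `B` an effective
`ℝ`-divisor on `X` such that `K_X + B` is `ℝ`-Cartier at `x`, `G` a finite group of automorphisms of the
function field which preserve the divisors over `x` and their log discrepancies, every element of `G`
has a toric chart of dimension `n` with coefficients in `Γ`, and `m` is the least value of
`a(E, X, B) / r_E` over all prime divisors `E` over `X` with centre `x`, where `r_E` is the order of the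
inertia group of `E`. -/
theorem result (n : ℕ) {Γ : Set ℝ} (hΓ : Pool.Agent.TH165.ACC.IsDCC Γ) :
    IsACC {m : ℝ | 0 ≤ m ∧ ∃ (X : AffVar (FractionRing (MvPolynomial (Fin n) ℂ)))
      (B : EffDiv X) (x : Pt X) (e : LocEq B x)
      (G : Subgroup (FractionRing (MvPolynomial (Fin n) ℂ) ≃ₐ[ℂ]
        FractionRing (MvPolynomial (Fin n) ℂ))),
      Finite G ∧ (∀ σ ∈ G, IsGermAut e σ) ∧ (∀ σ ∈ G, Nonempty (GermChart n Γ e σ)) ∧
      IsQuotMldX e G m} :=
  quot_acc3 hΓ

end Pool.Agent.Results.MP_df5e61_ag.LocallyToricQuotients
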