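import Mathlib
import Pool.Agent.Q47.QM.Final

/-!
# ACC for minimal log discrepancies of toric quotient singularities

`X ∋ P` is a toric germ (`ToricGerm`: an affine toric variety with a fixed point `P`, given by any
strictly convex rational cone of dimension `n`), `B` a torus invariant effective `ℝ`-divisor with
coefficients in a DCC set, and `G` a finite group of automorphisms of the pair at `P`; for the pair
`(Y ∋ Q, B_Y)`, `Y = X / G`, with `K_X + B = π^* (K_Y + B_Y)`, every prime divisor `F` over `Y` with centre
`Q` is the image of a prime divisor `E` over `X` with centre `P`, and `a(E, X, B) = r_E a(F, Y, B_Y)` with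
the ramification index `r_E`, the order of the inertia group of `E`. Therefore the minimal log
discrepancy of the quotient is the least value of `a(E, X, B) / r_E` (`IsQuotMld`).

The elements of `G` may permute the faces of the cone. Idea of the proof: let `E` compute the
minimal log discrepancy `m` of the quotient, let `σ` generate its inertia group, of order `r`, and let
`W` be the action of `σ` on the lattice `M` of monomials. The eigenfunctions of `σ` which are units times
monomials minus one give the lower bound `m ≥ κ + φ (u)`, where `exp (2 π i κ_j)`, `0 ≤ κ_j < 1`, are the
eigenvalues of `W`, `κ = ∑ κ_j`, `r u` is the weight of `E` and `φ` is the log discrepancy function of the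
cone. Conversely, for every rational `u` in the interior of the cone which is fixed by `W` and
compatible with the character of some power of `σ` with the same `W`, an embedding of the function
field in `K((t))`, the graph of the eigenfunctions, gives a divisorial valuation with
`a(E, X, B) / r_E ≤ κ + φ (u)`. Therefore `m - κ` is the minimum of `φ` on a coset of a finite group, and
`κ` has bounded denominator (Minkowski).
-/

set_option autoImplicit false

namespace Pool.Agent.Results.MP_df5e61_ag.ToricQuotients

open Pool.Agent.TH165.ACC Pool.Agent.W497.Mld Pool.Agent.H436R3.KT Pool.Agent.H436R3.Fol Q47.QM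

/-- For every `n` and every DCC set `Γ`, the numbers `m ≥ 0` of the following form are an ACC set:
`X ∋ P` is a toric germ of dimension `n`, `B` a torus invariant effective `ℝ`-divisor with coefficients
in `Γ` such that `K_X + B` is `ℝ`-Cartier at `P`, `G` a finite group of automorphisms of the function
field which preserve the divisors over `P` and their log discrepancies, such that every element of `G`
is conjugate by such an automorphism to a monomial automorphism, and `m` is the least value of
`a(E, X, B) / r_E` over all prime divisors `E` over `X` with centre `P`, where `r_E` is the order of the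
inertia group of `E`. -/
theorem result (n : ℕ) {Γ : Set ℝ} (hΓ : Pool.Agent.TH165.ACC.IsDCC Γ) :
    IsACC {m : ℝ | 0 ≤ m ∧ ∃ (g : ToricGerm n (FractionRing (MvPolynomial (Fin n) ℂ)))
      (B : EffDiv g.X) (e : LocEq B g.P)
      (G : Subgroup (FractionRing (MvPolynomial (Fin n) ℂ) ≃ₐ[ℂ]
        FractionRing (MvPolynomial (Fin n) ℂ))),
      CoeffIn B Γ ∧ (∀ v, (∀ i : Fin n, v.ord (cv _ i) = 0) → B.mult v = 0) ∧ Finite G ∧
      (∀ σ ∈ G, IsPairAut e σ) ∧ (∀ σ ∈ G, ∃ γ, IsPairAut e γ ∧ IsMono n (γ⁻¹ * σ * γ)) ∧
      IsQuotMld e G m} :=
  quot_acc hΓ

end Pool.Agent.Results.MP_df5e61_ag.ToricQuotients
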