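import Pool.Agent.Q69.LJ.MomJ

/-!
# Moments of the Euler products of hyperelliptic Jacobians at the central point, over every number field

Let `K` be a number field with the ring of integers `𝓞`, `g ≥ 1` and `0 ≤ r ≤ g`. The curves of genus `g`
`C_t : y ^ 2 = f_t(x) = (x - a_1) ⋯ (x - a_r) h(x) + l(x) ^ 2`,
with a monic polynomial `h` of degree `2 g + 1 - r` and a polynomial `l` of degree `< r` over `𝓞`, are all the curves
`y ^ 2 = f(x)`, `f` monic of degree `2 g + 1`, with `r` marked points `(a_i, l(a_i))` in general position. Let `J_t` be the Jacobian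
of `C_t`, an abelian variety of dimension `g`, and `P_v(T)` the characteristic polynomial of the Frobenius at `v`, so that
`L(J_t, s) = ∏ P_v(N v ^ (-s)) ^ (-1)`; `P_v(1 / N v) = #J_t(k_v) / (N v) ^ g`.

In the leading-term formula of Birch and Swinnerton-Dyer both sides are multiplied by `P(Y) = ∏_{N v ≤ Y} P_v(1 / N v)` if the good
primes of norm at most `Y` are added to the finite set `S`. Here all the moments of `P` over the family are determined up to a
constant factor: let `l` be a real number. If the coordinates of the parameters of `J_t` in a `ℤ`-basis of `𝓞` run through any box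
with sides at least `exp (√X (log X) ^ 2)`, then the average of `P(X) ^ l` is of the exact order `(log X) ^ (l (r + 1 / 2) + l ^ 2 / 2)`,
for every `g`, `r` and `K`; the average over the members with an irreducible `f_t` and `rank J_t(K) ≥ r` is of the same order. For
`l = -k` this says that the `k`-th moment of the truncated value `P(X) ^ (-1)` of `L(J_t, 1)` is of the order
`(log X) ^ (k (k - 1) / 2 - r k)`: for `r = 0` the exponent `k (k - 1) / 2` is the one which the random matrix theory of Keating and
Snaith predicts for the central values in families with orthogonal symmetry, and every marked point lowers it by `k`. More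
generally the joint moments of the products at different times `exp ((log X) ^ (s_i))`, `0 ≤ s_i ≤ 1`, are determined: the
average of `∏_i P(exp ((log X) ^ (s_i))) ^ (l_i)` is of the exact order `(log X) ^ e`,
`e = (r + 1 / 2) ∑ l_i s_i + (1 / 2) ∑_{i, j} l_i l_j min(s_i, s_j)`.

Proof. The local values `log P_v(1 / N v)` are functions of the residues modulo `v`, of absolute value `O((N v) ^ (-1/2))` by the
theorem of Weil; the mean over the family over the residue field with `q` elements is `(r + 1 / 2) / q + O (q ^ (-3 / 2))`, the mean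
square is `1 / q + O (q ^ (-3 / 2))`, and the values at different primes over the same rational prime are independent. In a model of
independent variables the exponential moments are products over `p ≤ X`. The sum is `O(√X)`, so that the exponential function is
a Taylor polynomial of degree `O(√X)` up to a tiny error, and by the chinese remainder theorem the moments of this order are those
of the model, up to a tiny error. The members of rank less than `r` or with a reducible `f_t` are a proportion smaller than any
power of `1 / log X`, by a sieve; the Cauchy-Schwarz inequality shows that they do not contribute.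
-/

set_option autoImplicit false

namespace Pool.Agent.Results.MP_dfae13_nt.MomentsOfJacobians

open Finset NumberField Polynomial
open Q282.JK

/-- The integer part of `exp ((log X) ^ s)`; this is `X` for `s = 1`. -/
noncomputable def time (X : ℕ) (s : ℝ) : ℕ := ⌊Real.exp (Real.log X ^ s)⌋₊

/-- The product of the `P(exp ((log X) ^ (s_i))) ^ (l_i)` for the curve `y ^ 2 = f(x)`, where `P(Y)` is the product of the
`P_v(1 / N v)` over the primes `v` of norm at most `Y` with `Good f v`. -/
noncomputable def powers {K : Type} [Field K] [NumberField K] {k : ℕ} (s l : Fin k → ℝ) (f : (𝓞 K)[X]) (X : ℕ) : ℝ :=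
  ∏ i, product f (time X (s i)) ^ l i

/-- The exponent `(r + 1 / 2) ∑ l_i s_i + (1 / 2) ∑_{i, j} l_i l_j min(s_i, s_j)`. -/
noncomputable def exponent {k : ℕ} (r : ℕ) (s l : Fin k → ℝ) : ℝ :=
  (r + 1 / 2) * ∑ i, l i * s i + (∑ i, ∑ j, l i * l j * min (s i) (s j)) / 2

/-- The box of the integers `n k` with `N k ≤ n k < N k + L k` for all `k`. -/
noncomputable def box {κ : Type} [Fintype κ] [DecidableEq κ] (N : κ → ℤ) (L : κ → ℕ) : Finset (κ → ℤ) :=
  Fintype.piFinset fun k => Ico (N k) (N k + L k)

/-- The elements `t i = ∑ n (i, j) b j` with the coordinates `n (i, j)`. -/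
def combine {O : Type} [CommRing O] {ι : Type} {d : ℕ} (b : Fin d → O) (n : ι × Fin d → ℤ) : ι → O :=
  fun i => ∑ j, (n (i, j) : O) * b j

open Classical in
/-- The average over the `n` of the box of `F n` if `P n` and `0` otherwise. -/
noncomputable def average {κ : Type} [Fintype κ] [DecidableEq κ] (N : κ → ℤ) (L : κ → ℕ) (P : (κ → ℤ) → Prop) (F : (κ → ℤ) → ℝ) : ℝ :=
  (∑ n ∈ (box N L).filter P, F n) / ∏ k, (L k : ℝ)

/-- The polynomial `f` of odd degree over the ring of integers of `K` is irreducible over `K`, and the group of the `K`-rational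
points of the Jacobian of the curve `y ^ 2 = f(x)`, which is the class group of its affine coordinate ring over `K`, has rank at
least `r`. -/
def Rank (K : Type) [Field K] [NumberField K] (r : ℕ) (f : (𝓞 K)[X]) : Prop :=
  Irreducible (f.map (algebraMap (𝓞 K) K)) ∧ HasClassRank (CoordRing (f.map (algebraMap (𝓞 K) K))) r

open Classical in
/-- Let `K` be a number field, `g ≥ 1`, `0 ≤ r ≤ g`, and let `l_1, ..., l_k` and `s_1, ..., s_k` be real numbers, `0 ≤ s_i ≤ 1`. There
are `C > 0` and `X₁` with the following property. Let `X ≥ X₁`, let `b` be a basis of the ring of integers of `K` over `ℤ`, and let a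
box `N k ≤ n k < N k + L k` of coordinates be given all sides `L k` of which are at least `exp (√X (log X) ^ 2)`. For `n` in the box
let `f_n = fpol t = (x - a_1) ⋯ (x - a_r) h(x) + l(x) ^ 2`, of degree `2 g + 1`, be the polynomial with the parameters
`t i = ∑ n (i, j) b j`, and let `P_n(Y)` be the product of the `P_v(1 / N v) = #J(k_v) / (N v) ^ g` over the primes `v` of `K` of norm
at most `Y` with `Good f_n v`, `J` the Jacobian of `y ^ 2 = f_n(x)`. Then the average of `∏_i P_n(exp ((log X) ^ (s_i))) ^ (l_i)` over
the `n` for which `f_n` is irreducible over `K` and the group of the `K`-rational points of the Jacobian has rank at least `r` is at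
least `C ^ (-1) (log X) ^ e`, and the average over all `n` is at most `C (log X) ^ e`, where
`e = (r + 1 / 2) ∑ l_i s_i + (1 / 2) ∑_{i, j} l_i l_j min(s_i, s_j)`. -/
theorem result (K : Type) [Field K] [NumberField K] (g r : ℕ) (hg : 1 ≤ g) (hr : r ≤ g) (k : ℕ) (s l : Fin k → ℝ)
    (hs : ∀ i, 0 ≤ s i ∧ s i ≤ 1) :
    ∃ C : ℝ, 0 < C ∧ ∃ X₁ : ℕ, ∀ X : ℕ, X₁ ≤ X → ∀ (b : Module.Basis (Fin (Module.finrank ℚ K)) ℤ (𝓞 K))
    (N : Idx r (2 * g + 1 - r) × Fin (Module.finrank ℚ K) → ℤ) (L : Idx r (2 * g + 1 - r) × Fin (Module.finrank ℚ K) → ℕ),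
    (∀ k, Real.exp (Real.sqrt X * Real.log X ^ 2) ≤ L k) →
      C⁻¹ * (Real.log X) ^ exponent r s l ≤
        average N L (fun n => Rank K r (fpol (combine b n))) (fun n => powers s l (fpol (combine b n)) X) ∧
      average N L (fun _ => True) (fun n => powers s l (fpol (combine b n)) X) ≤ C * (Real.log X) ^ exponent r s l := by
  obtain ⟨C, hC, X₁, hX₁, h⟩ := Q69.LJ.mom_J K g r hg hr s l hs
  refine ⟨Real.exp C, Real.exp_pos _, X₁, ?_⟩
  intro X hX b N L hL
  have hX16 : 16 ≤ X := hX₁.trans hX
  have hX0 : (16 : ℝ) ≤ X := by exact_mod_cast hX16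
  have hlogX : 1 < Real.log X := by
    rw [Real.lt_log_iff_exp_lt (by linarith)]
    linarith [Real.exp_one_lt_three]
  have hlog0 : 0 < Real.log X := by linarith
  have hb : ∀ x : 𝓞 K, ∃ a : Fin (Module.finrank ℚ K) → ℤ, x = ∑ j, (a j : 𝓞 K) * b j := by
    intro x
    refine ⟨fun j => b.repr x j, ?_⟩
    have h1 := b.sum_repr x
    rw [← h1]
    refine sum_congr rfl fun j _ => ?_
    rw [h1, zsmul_eq_mul]
  have hP0 : 0 < ∏ k, (L k : ℝ) := prod_pos fun k _ => (Real.exp_pos _).trans_le (hL k)
  have hpow : ∀ a : ℝ, (Real.log X) ^ a = Real.exp (a * Real.log (Real.log X)) := by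
    intro a
    rw [Real.rpow_def_of_pos hlog0, mul_comm]
  obtain ⟨h1, h2⟩ := h X hX _ le_rfl (fun j => b j) hb N L hL
  unfold average
  rw [hpow, le_div_iff₀ hP0, div_le_iff₀ hP0, ← Real.exp_neg, ← Real.exp_add, ← Real.exp_add]
  have e1 : -C + exponent r s l * Real.log (Real.log X) = exponent r s l * Real.log (Real.log X) - C := by ring
  have e2 : C + exponent r s l * Real.log (Real.log X) = exponent r s l * Real.log (Real.log X) + C := by ring
  rw [e1, e2]
  constructor
  · exact h1
  · rw [@filter_true_of_mem _ _ (_) _ (fun _ _ => trivial)]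
    exact h2

end Pool.Agent.Results.MP_dfae13_nt.MomentsOfJacobians
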