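import Pool.Agent.Q110.PSI.Constr

/-!
# An upper bound for the connectivity threshold `ψ(r)` (MP_e01c10_co, Q1)

The definitions are in `Pool.Agent.Q110.PSI.Defs`.
-/

set_option autoImplicit false

namespace Pool.Agent.Results.MP_e01c10_co.UpperBound

open Q110.PSI

/-- For `3 < r < 6` no number larger than `(6 - r) / 4` is admissible for `r`, and
`ψ(r) ≤ (6 - r) / 4`. -/
theorem result (r : ℝ) (hr : 3 < r) (hr6 : r < 6) :
    (∀ ψ : ℝ, (6 - r) / 4 < ψ → ¬ Admissible r ψ) ∧ psi r ≤ (6 - r) / 4 :=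
  ⟨fun _ hψ => not_admissible hr hr6 hψ, psi_le hr hr6⟩

end Pool.Agent.Results.MP_e01c10_co.UpperBound
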