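import Pool.Agent.Q36.SD.To

/-!
# Images of products of curves under rational maps of small degree

Let `Z = C 1 × ... × C n` be a product of curves of gonality at least `γ` (every nonconstant
function on `C i` has degree at least `γ`), and let `Z ⇢ X` be any dominant rational map of degree
`r ≤ 2 γ - 3` to a projective manifold `X`; nothing is assumed about the map (it need not be a
quotient by a group, it may be ramified anywhere) or about `X`, and the curves are arbitrary. The
theorem: the following are equivalent: `p_g(X) = 0`; `κ(X) = -∞`; `K_X` is not pseudo-effective;
`ν(X) = -∞`; `X` is uniruled; and: for some `i` the projections of `Z` to the curves `C j`, `j ≠ i`,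
factor through `X`, and `X` is a conic bundle over the product of these curves. If `r < γ` then
`p_g(X) > 0`.

Example: a finite product of hyperelliptic curves modulo the diagonal involution shows that for
`γ = 2` the degree `r = 2 γ - 2` cannot be allowed (`p_g = 0`, `κ = 0` or more, for `n = 3`).

Proof: if `p_g(X) = 0`, the traces to `X` of the exterior products of regular differentials on the
curves vanish. This is a relation, with nonzero coefficients, between the `r` points of a general
fibre of `Z ⇢ X`. Less than `γ` points of a curve of gonality `γ` impose independent conditions on
the regular differentials (Riemann-Roch; for the generic points this follows by specialisation). The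
points of the fibre with the same `i`-th coordinate and the points with the same other coordinates
are counted, and the remaining points are distributed, such that all points but one are killed by
differentials, unless the map factors as stated. In this case the differentials on `C i` have trace
zero on the generic fibre of `X` over the product of the other curves, and this fibre has genus `0`.

The function-field language of the starting repository is used: `M` is the function field of `Z`,
generated by the function fields `F i` of the curves, and `L` is the function field of `X`
(`Pool.Agent.W619`, for instance the file `MP_e06174_ag/MixedQuotients.lean`).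
-/

set_option autoImplicit false
set_option linter.overlappingInstances false

open FF IntermediateField Pool.Agent.W619.PQ Pool.Agent.W619.TW

namespace Pool.Agent.Results.MP_e06174_ag.SmallDegreeImages

/-- Every nonconstant function on the curve with function field `F` has degree at least `γ`. -/
def GonalityGe (F : Type) [Field F] [Algebra ℂ F] (γ : ℕ) : Prop :=
  ∀ b : F, Transcendental ℂ b → γ ≤ Module.finrank ℂ⟮b⟯ F

/-- The geometric genus is positive: there is a nonzero canonical form on the varieties of dimension
`n` with function field `L` which is regular at all prime divisors. -/
def GeometricGenusPos (L : Type) [Field L] [Algebra ℂ L] (n : ℕ) : Prop :=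
  ∃ ω : (Fin n → Derivation ℂ L L) → L, IsPluriForm ℂ L n 1 ω ∧
    (∀ v : Place ℂ L, IsDivisorial v n → RegularAt v n ω) ∧ ∃ D, ω D ≠ 0

/-- The generic fibre of a rational map from a variety with function field `L` to a variety with
function field `E`, of dimension one less, has genus zero: `L` is contained in the field of rational
functions of one variable over an algebraic extension `A` of `E`. -/
def GenusZeroOver {L : Type} [Field L] [Algebra ℂ L] (E : IntermediateField ℂ L) : Prop :=
  ∃ (A : Type) (_ : Field A) (_ : Algebra E A), Algebra.IsAlgebraic E A ∧
    Nonempty (L →ₐ[E] RatFunc A)

/-- **Images of products of curves under maps of small degree.** Let `F i` (`i < n`, `n ≥ 1`) be the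
function fields of curves of gonality at least `γ`, `M` the function field of their product `Z`, and
`Z ⇢ X` a dominant rational map of degree `r` to a projective manifold with function field `L`.

(1) If `r < γ` then `p_g(X) > 0`.

(2) If `r ≤ 2 γ - 3` then the following are equivalent: `p_g(X) = 0`; `κ(X) = -∞`; `K_X` is not
pseudo-effective; `ν(X) = -∞`; `X` is uniruled; for some `i` the projections of `Z` to the curves `j`
with `j ≠ i` factor through `X`, and the generic fibre of `X` over the product of these curves has
genus zero. -/
theorem result {L M : Type} [Field L] [Field M] [Algebra ℂ L] [Algebra ℂ M] [Algebra L M]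
    [IsScalarTower ℂ L M] [FiniteDimensional L M] (n : ℕ) (hn : 1 ≤ n)
    (hM : Algebra.trdeg ℂ M = n) (F : Fin n → IntermediateField ℂ M) (hF : ∀ i, IsFF ℂ (F i))
    (hsup : ⨆ i, F i = ⊤) (γ : ℕ) (hγ : ∀ i, GonalityGe (F i) γ) :
    (Module.finrank L M < γ → GeometricGenusPos L n) ∧
    (Module.finrank L M + 3 ≤ 2 * γ → List.TFAE [¬ GeometricGenusPos L n, KodairaNeg ℂ L n,
      ¬ IsPsef ℂ L n (fun _ => False), NumNeg ℂ L n (fun _ => False), IsUniruled ℂ L n,
      ∃ i, (∀ j, j ≠ i → ∀ z ∈ F j, z ∈ Set.range (algebraMap L M)) ∧
        GenusZeroOver ((⨆ j : {j : Fin n // j ≠ i}, F j.1).comap
          (IsScalarTower.toAlgHom ℂ L M))]) := by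
  refine ⟨fun h => ?_, fun h => Q36.SD.tfae_small F hn hM hsup fun i b hb => ?_⟩
  · exact Q36.SD.pos_small F hM hsup fun i b hb => lt_of_lt_of_le h (hγ i b hb)
  · have := hγ i b hb
    omega

end Pool.Agent.Results.MP_e06174_ag.SmallDegreeImages
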