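import Mathlib

/-!
# MP_e13f3c_al : continuous endomorphisms of `K ^ ℕ` with finite positive algebraic entropy

Every continuous endomorphism of `K ^ ℕ`, `K` a finite abelian group, has algebraic entropy zero
or infinity.
-/

open Filter Polynomial

namespace Pool.Agent.Results.MP_e13f3c_al.ZeroOrInfinite

/-- `T_n(φ, F) = F + φ(F) + ... + φ^(n-1)(F)`. -/
def T {G : Type} [AddCommGroup G] (φ : AddMonoid.End G) (F : AddSubgroup G) (n : ℕ) :
    AddSubgroup G :=
  ⨆ i ∈ Finset.range n, F.map (φ ^ i)

/-- `H(φ, F)`: the limit (written as the upper limit) of `log |T_n(φ, F)| / n`. -/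
noncomputable def H {G : Type} [AddCommGroup G] (φ : AddMonoid.End G) (F : AddSubgroup G) :
    EReal :=
  limsup (fun n : ℕ => ((Real.log (Nat.card (T φ F n)) / n : ℝ) : EReal)) atTop

/-- The algebraic entropy: the supremum of `H(φ, F)` over the finite subgroups `F`. -/
noncomputable def ent {G : Type} [AddCommGroup G] (φ : AddMonoid.End G) : EReal :=
  ⨆ (F : AddSubgroup G) (_ : Finite F), H φ F

section General

variable {G : Type} [AddCommGroup G] (φ : AddMonoid.End G)

theorem finite_sup {A B : AddSubgroup G} (hA : Finite A) (hB : Finite B) :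
    Finite (A ⊔ B : AddSubgroup G) := by
  have h1 : ((A ⊔ B : AddSubgroup G) : Set G) ⊆ Set.image2 (· + ·) (A : Set G) (B : Set G) := by
    intro x hx
    obtain ⟨a, ha, b, hb, rfl⟩ := AddSubgroup.mem_sup.1 hx
    exact ⟨a, ha, b, hb, rfl⟩
  exact (Set.Finite.image2 _ (Set.toFinite _) (Set.toFinite _)).subset h1

theorem T_succ (F : AddSubgroup G) (n : ℕ) : T φ F (n + 1) = T φ F n ⊔ F.map (φ ^ n) := by
  unfold T
  rw [Finset.range_add_one, Finset.iSup_insert, sup_comm]

theorem T_finite (F : AddSubgroup G) (hF : Finite F) (n : ℕ) : Finite (T φ F n) := by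
  induction n with
  | zero =>
    have : T φ F 0 = ⊥ := by simp [T]
    rw [this]
    infer_instance
  | succ n ih =>
    rw [T_succ]
    refine finite_sup ih ?_
    have : ((F.map (φ ^ n) : AddSubgroup G) : Set G) = (φ ^ n) '' (F : Set G) := rfl
    exact ((Set.toFinite (F : Set G)).image _).to_subtype

theorem T_mono (F : AddSubgroup G) {m n : ℕ} (h : m ≤ n) : T φ F m ≤ T φ F n := by
  unfold T
  exact biSup_mono fun i hi => Finset.mem_range.2 (lt_of_lt_of_le (Finset.mem_range.1 hi) h)

theorem pow_mem_T (F : AddSubgroup G) {i n : ℕ} (hi : i < n) {x : G} (hx : x ∈ F) :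
    (φ ^ i) x ∈ T φ F n := by
  unfold T
  have h1 : F.map (φ ^ i) ≤ ⨆ i ∈ Finset.range n, F.map (φ ^ i) :=
    le_biSup (fun i => F.map (φ ^ i)) (Finset.mem_range.2 hi)
  exact h1 ⟨x, hx, rfl⟩

/-- The endomorphism as a linear map over the integers. -/
def Φ : Module.End ℤ G := AddMonoidHom.toIntLinearMap (φ : G →+ G)

theorem Φ_pow (i : ℕ) (x : G) : ((Φ φ) ^ i) x = (φ ^ i) x := by
  induction i generalizing x with
  | zero => rfl
  | succ i ih =>
    rw [pow_succ, pow_succ, Module.End.mul_apply, ih]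
    rfl

theorem aeval_apply (f : ℤ[X]) (x : G) :
    aeval (Φ φ) f x = ∑ i ∈ Finset.range (f.natDegree + 1), f.coeff i • (φ ^ i) x := by
  rw [aeval_eq_sum_range, LinearMap.sum_apply]
  refine Finset.sum_congr rfl fun i _ => ?_
  rw [LinearMap.smul_apply, Φ_pow]

/-- If a monic polynomial kills `G`, the entropy vanishes. -/
theorem ent_zero (f : ℤ[X]) (hf : f.Monic) (hk : ∀ x : G, aeval (Φ φ) f x = 0) : ent φ = 0 := by
  set d := f.natDegree with hd
  have hTle : ∀ (F : AddSubgroup G) (n : ℕ), T φ F n ≤ T φ F d := by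
    intro F n
    have h1 : ∀ i, ∀ x ∈ F, (φ ^ i) x ∈ T φ F d := by
      intro i
      induction i using Nat.strong_induction_on with
      | _ i ih =>
        intro x hx
        by_cases hid : i < d
        · exact pow_mem_T φ F hid hx
        · push Not at hid
          have h2 := hk ((φ ^ (i - d)) x)
          rw [aeval_apply, ← hd, Finset.sum_range_succ, hd, hf.coeff_natDegree, one_smul,
            ← hd] at h2
          have h3 : (φ ^ d) ((φ ^ (i - d)) x) = (φ ^ i) x := by
            have h4 : φ ^ i = φ ^ d * φ ^ (i - d) := by rw [← pow_add]; congr 1; omega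
            rw [h4]
            rfl
          rw [h3] at h2
          have h5 : (φ ^ i) x =
              - ∑ j ∈ Finset.range d, f.coeff j • (φ ^ j) ((φ ^ (i - d)) x) := by
            rw [eq_neg_iff_add_eq_zero, add_comm]
            exact h2
          rw [h5]
          refine neg_mem (sum_mem fun j hj => zsmul_mem ?_ _)
          have h6 : (φ ^ j) ((φ ^ (i - d)) x) = (φ ^ (j + (i - d))) x := by
            rw [pow_add]
            rfl
          rw [h6]
          have hj' := Finset.mem_range.1 hj
          exact ih _ (by omega) x hx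
    unfold T
    refine iSup₂_le fun i _ => ?_
    rintro _ ⟨x, hx, rfl⟩
    exact h1 i x hx
  have hH : ∀ F : AddSubgroup G, Finite F → H φ F = 0 := by
    intro F hF
    have hfd := T_finite φ F hF d
    have hreal : Tendsto (fun n : ℕ => Real.log (Nat.card (T φ F n)) / n) atTop (nhds 0) := by
      have hb : Tendsto (fun n : ℕ => Real.log (Nat.card (T φ F d)) / (n : ℝ)) atTop (nhds 0) :=
        tendsto_const_div_atTop_nhds_zero_nat _
      refine squeeze_zero (fun n => ?_) (fun n => ?_) hb
      · exact div_nonneg (Real.log_natCast_nonneg _) (Nat.cast_nonneg _)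
      · apply div_le_div_of_nonneg_right _ (Nat.cast_nonneg _)
        have hfn := T_finite φ F hF n
        have hpos : 0 < Nat.card (T φ F n) := Nat.card_pos
        apply Real.log_le_log (by exact_mod_cast hpos)
        have hc := Nat.card_mono (Set.toFinite (T φ F d : Set G)) (hTle F n)
        exact_mod_cast hc
    unfold H
    have h2 : Tendsto (fun n : ℕ => ((Real.log (Nat.card (T φ F n)) / n : ℝ) : EReal)) atTop
        (nhds ((0 : ℝ) : EReal)) := (continuous_coe_real_ereal.tendsto 0).comp hreal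
    exact h2.limsup_eq
  unfold ent
  apply le_antisymm
  · exact iSup₂_le fun F hF => (hH F hF).le
  · have h1 : H φ ⊥ ≤ ⨆ (F : AddSubgroup G) (_ : Finite F), H φ F :=
      le_iSup₂_of_le ⊥ inferInstance le_rfl
    rwa [hH ⊥ inferInstance] at h1

/-- Products of killing polynomials. -/
theorem exists_monic (hp : ∀ p : ℕ, p.Prime →
      ∃ f : ℤ[X], f.Monic ∧ ∀ x : G, p • x = 0 → aeval (Φ φ) f x = 0) (e : ℕ) (he : e ≠ 0) :
    ∃ f : ℤ[X], f.Monic ∧ ∀ x : G, e • x = 0 → aeval (Φ φ) f x = 0 := by
  induction e using Nat.recOnMul with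
  | zero => exact absurd rfl he
  | one => exact ⟨1, monic_one, fun x hx => by rw [one_smul] at hx; rw [hx, map_zero]⟩
  | prime p h => exact hp p h
  | mul a b iha ihb =>
    obtain ⟨f, hf, hf'⟩ := iha (fun h => he (by rw [h, zero_mul]))
    obtain ⟨g, hg, hg'⟩ := ihb (fun h => he (by rw [h, mul_zero]))
    refine ⟨g * f, hg.mul hf, fun x hx => ?_⟩
    rw [map_mul, Module.End.mul_apply]
    apply hg'
    rw [← map_nsmul]
    apply hf'
    rw [← mul_smul, hx]

end General

section Torsion

variable {G : Type} [AddCommGroup G] (φ : AddMonoid.End G)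

theorem aeval_torsion {p : ℕ} {x : G} (hx : p • x = 0) (f : ℤ[X]) :
    p • aeval (Φ φ) f x = 0 := by
  rw [← map_nsmul, hx, map_zero]

/-- A polynomial divisible by `p` kills the `p`-torsion. -/
theorem aeval_of_dvd {p : ℕ} {x : G} (hx : p • x = 0) {f : ℤ[X]} (hf : C (p : ℤ) ∣ f) :
    aeval (Φ φ) f x = 0 := by
  obtain ⟨g, rfl⟩ := hf
  rw [map_mul, aeval_C, Module.End.mul_apply]
  have h1 : (algebraMap ℤ (Module.End ℤ G) (p : ℤ)) (aeval (Φ φ) g x) =
      (p : ℤ) • aeval (Φ φ) g x := rfl
  rw [h1, natCast_zsmul]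
  exact aeval_torsion φ hx g

/-- From a polynomial nonzero modulo `p` to a monic one. -/
theorem exists_monic_multiple {p : ℕ} (hp : p.Prime) (f : ℤ[X]) (hf : ¬ C (p : ℤ) ∣ f) :
    ∃ (g : ℤ[X]) (c : ℤ), g.Monic ∧ C (p : ℤ) ∣ g - C c * f := by
  have hfact : Fact p.Prime := ⟨hp⟩
  have hker : ∀ h : ℤ[X], h.map (Int.castRingHom (ZMod p)) = 0 → C (p : ℤ) ∣ h := by
    intro h hh
    rw [C_dvd_iff_dvd_coeff]
    intro i
    have h1 := congrArg (fun q => q.coeff i) hh
    simp only [coeff_map, coeff_zero, eq_intCast] at h1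
    exact (ZMod.intCast_zmod_eq_zero_iff_dvd _ _).1 h1
  set fb := f.map (Int.castRingHom (ZMod p)) with hfb
  have hfb0 : fb ≠ 0 := fun h => hf (hker f h)
  have hlc : fb.leadingCoeff ≠ 0 := leadingCoeff_ne_zero.2 hfb0
  have hmon : (C fb.leadingCoeff⁻¹ * fb).Monic := by
    rw [Monic, leadingCoeff_mul, leadingCoeff_C, inv_mul_cancel₀ hlc]
  have hsurj : Function.Surjective (Int.castRingHom (ZMod p)) := ZMod.intCast_surjective
  have hlift : C fb.leadingCoeff⁻¹ * fb ∈ lifts (Int.castRingHom (ZMod p)) := by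
    rw [mem_lifts]
    exact map_surjective _ hsurj _
  obtain ⟨g, hg, -, hgm⟩ := lifts_and_natDegree_eq_and_monic hlift hmon
  obtain ⟨c, hc⟩ := hsurj fb.leadingCoeff⁻¹
  refine ⟨g, c, hgm, hker _ ?_⟩
  rw [Polynomial.map_sub, Polynomial.map_mul, map_C, hg, hc, sub_self]

/-- If no monic polynomial kills the `p`-torsion, then the image of the `p`-torsion under a
polynomial that is nonzero modulo `p` is infinite. -/
theorem image_infinite {p : ℕ} (hp : p.Prime)
    (hna : ∀ f : ℤ[X], f.Monic → ∃ x : G, p • x = 0 ∧ aeval (Φ φ) f x ≠ 0)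
    (f : ℤ[X]) (hf : ¬ C (p : ℤ) ∣ f) :
    Set.Infinite ((fun x : G => aeval (Φ φ) f x) '' {x | p • x = 0}) := by
  intro hfin
  obtain ⟨g, c, hg, hgf⟩ := exists_monic_multiple hp f hf
  have hgx : ∀ x : G, p • x = 0 → aeval (Φ φ) g x = c • aeval (Φ φ) f x := by
    intro x hx
    have h1 := aeval_of_dvd φ hx hgf
    rw [map_sub, map_mul, aeval_C, LinearMap.sub_apply, Module.End.mul_apply] at h1
    exact sub_eq_zero.1 h1
  set W : Set G := (fun x : G => aeval (Φ φ) g x) '' {x | p • x = 0} with hW
  have hWfin : W.Finite := by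
    refine (hfin.image (fun y => c • y)).subset ?_
    rintro _ ⟨x, hx, rfl⟩
    exact ⟨_, ⟨x, hx, rfl⟩, (hgx x hx).symm⟩
  have hmaps : ∀ i : ℕ, ∀ y ∈ W, (φ ^ i) y ∈ W := by
    rintro i _ ⟨x, hx, rfl⟩
    refine ⟨(φ ^ i) x, ?_, ?_⟩
    · show p • (φ ^ i) x = 0
      rw [← map_nsmul, hx, map_zero]
    · show aeval (Φ φ) g ((φ ^ i) x) = (φ ^ i) (aeval (Φ φ) g x)
      rw [← Φ_pow, ← Φ_pow, ← Module.End.mul_apply, ← Module.End.mul_apply]
      congr 1
      have h1 : (Φ φ) ^ i = aeval (Φ φ) (X ^ i : ℤ[X]) := by rw [map_pow, aeval_X]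
      rw [h1, ← map_mul, ← map_mul, mul_comm]
  have hfinW : Finite W := hWfin.to_subtype
  let F : ℕ → (W → W) := fun i y => ⟨(φ ^ i) y, hmaps i y y.2⟩
  obtain ⟨i, j, hij, hF⟩ := Finite.exists_ne_map_eq_of_infinite F
  -- wlog `i < j`
  have key : ∀ i j : ℕ, i < j → F i = F j → False := by
    intro i j hij hF
    have hmon : ((X ^ j - X ^ i : ℤ[X]) * g).Monic := by
      apply Monic.mul _ hg
      apply monic_X_pow_sub
      rw [degree_X_pow]
      exact_mod_cast hij
    obtain ⟨x, hx, hne⟩ := hna _ hmon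
    apply hne
    rw [map_mul, map_sub, map_pow, map_pow, aeval_X, Module.End.mul_apply, LinearMap.sub_apply,
      Φ_pow, Φ_pow]
    have h1 := congrFun hF ⟨aeval (Φ φ) g x, ⟨x, hx, rfl⟩⟩
    have h2 := congrArg Subtype.val h1
    exact sub_eq_zero.2 h2.symm
  rcases lt_or_gt_of_ne hij with h | h
  · exact key i j h hF
  · exact key j i h hF.symm

end Torsion

section Top

variable {K : Type} [AddCommGroup K] [Finite K] [TopologicalSpace K] [DiscreteTopology K]

omit [Finite K] in
theorem continuous_aeval (φ : AddMonoid.End (ℕ → K)) (hφ : Continuous φ) (f : ℤ[X]) :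
    Continuous (fun x : ℕ → K => aeval (Φ φ) f x) := by
  have h1 : ∀ i : ℕ, Continuous (fun x : ℕ → K => (φ ^ i) x) := by
    intro i
    induction i with
    | zero => exact continuous_id
    | succ i ih =>
      have h2 : (fun x : ℕ → K => (φ ^ (i + 1)) x) = (fun x => (φ ^ i) x) ∘ φ := by
        funext x
        rw [pow_succ]
        rfl
      rw [h2]
      exact ih.comp hφ
  simp only [aeval_apply]
  exact continuous_finsetSum _ fun i _ => (h1 i).const_smul (f.coeff i)

theorem countable_poly : Countable ℤ[X] := by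
  let F : (Σ n : ℕ, Fin n → ℤ) → ℤ[X] := fun p => ∑ i : Fin p.1, C (p.2 i) * X ^ (i : ℕ)
  have hF : Function.Surjective F := by
    intro f
    refine ⟨⟨f.natDegree + 1, fun i => f.coeff i⟩, ?_⟩
    show ∑ i : Fin (f.natDegree + 1), C (f.coeff i) * X ^ (i : ℕ) = f
    rw [Fin.sum_univ_eq_sum_range (fun i => C (f.coeff i) * X ^ i)]
    exact (as_sum_range_C_mul_X_pow f).symm
  exact hF.countable

/-- The `p`-torsion. -/
def tor (K : Type) [AddCommGroup K] (p : ℕ) : AddSubgroup (ℕ → K) where
  carrier := {x | p • x = 0}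
  add_mem' := by
    intro x y hx hy
    show p • (x + y) = 0
    rw [smul_add, hx, hy, add_zero]
  zero_mem' := smul_zero _
  neg_mem' := by
    intro x hx
    show p • (-x) = 0
    rw [smul_neg, hx, neg_zero]

theorem tor_compact (p : ℕ) : CompactSpace (tor K p) := by
  have h1 : IsClosed ((tor K p : AddSubgroup (ℕ → K)) : Set (ℕ → K)) := by
    have h2 : ((tor K p : AddSubgroup (ℕ → K)) : Set (ℕ → K)) =
        (fun x : ℕ → K => p • x) ⁻¹' {0} := rfl
    rw [h2]
    exact isClosed_singleton.preimage (continuous_const_smul p)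
  exact isCompact_iff_compactSpace.1 h1.isCompact

/-- Generic tuples are independent over the polynomial ring. -/
theorem exists_generic (φ : AddMonoid.End (ℕ → K)) (hφ : Continuous φ) {p : ℕ} (hp : p.Prime)
    (hna : ∀ f : ℤ[X], f.Monic → ∃ x : ℕ → K, p • x = 0 ∧ aeval (Φ φ) f x ≠ 0) (m : ℕ) :
    ∃ x : Fin m → (ℕ → K), (∀ j, p • x j = 0) ∧ ∀ f : Fin m → ℤ[X],
      ∑ j, aeval (Φ φ) (f j) (x j) = 0 → ∀ j, C (p : ℤ) ∣ f j := by
  have hc := tor_compact (K := K) p
  by_contra hcon
  push Not at hcon
  let ι := {f : Fin m → ℤ[X] // ∃ j, ¬ C (p : ℤ) ∣ f j}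
  have hcount : Countable ι := by
    have := countable_poly
    infer_instance
  let N : ι → AddSubgroup (Fin m → tor K p) := fun f =>
    { carrier := {x | ∑ j, aeval (Φ φ) (f.1 j) (x j : ℕ → K) = 0}
      add_mem' := by
        intro x y hx hy
        show ∑ j, aeval (Φ φ) (f.1 j) ((x j + y j : tor K p) : ℕ → K) = 0
        simp only [AddSubgroup.coe_add, map_add, Finset.sum_add_distrib]
        have hx' : ∑ j, aeval (Φ φ) (f.1 j) (x j : ℕ → K) = 0 := hx
        have hy' : ∑ j, aeval (Φ φ) (f.1 j) (y j : ℕ → K) = 0 := hy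
        rw [hx', hy', add_zero]
      zero_mem' := by
        show ∑ j, aeval (Φ φ) (f.1 j) ((0 : tor K p) : ℕ → K) = 0
        simp
      neg_mem' := by
        intro x hx
        show ∑ j, aeval (Φ φ) (f.1 j) ((-x j : tor K p) : ℕ → K) = 0
        simp only [AddSubgroup.coe_neg, map_neg, Finset.sum_neg_distrib]
        have hx' : ∑ j, aeval (Φ φ) (f.1 j) (x j : ℕ → K) = 0 := hx
        rw [hx', neg_zero] }
  have hclosed : ∀ f, IsClosed (N f : Set (Fin m → tor K p)) := by
    intro f
    have h1 : (N f : Set (Fin m → tor K p)) =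
        (fun x : Fin m → tor K p => ∑ j, aeval (Φ φ) (f.1 j) (x j : ℕ → K)) ⁻¹' {0} := rfl
    rw [h1]
    refine isClosed_singleton.preimage ?_
    refine continuous_finsetSum _ fun j _ => ?_
    exact (continuous_aeval φ hφ (f.1 j)).comp (continuous_subtype_val.comp (continuous_apply j))
  have hunion : ⋃ f, (N f : Set (Fin m → tor K p)) = Set.univ := by
    rw [Set.eq_univ_iff_forall]
    intro x
    obtain ⟨f, hf, j, hj⟩ := hcon (fun j => (x j : ℕ → K)) (fun j => (x j).2)
    exact Set.mem_iUnion.2 ⟨⟨f, j, hj⟩, hf⟩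
  obtain ⟨f, hint⟩ := nonempty_interior_of_iUnion_of_closed hclosed hunion
  have hopen : IsOpen (N f : Set (Fin m → tor K p)) := by
    obtain ⟨x, hx⟩ := hint
    exact AddSubgroup.isOpen_of_mem_nhds (N f) (mem_interior_iff_mem_nhds.1 hx)
  obtain ⟨j, hj⟩ := f.2
  -- restrict to the `j`-th coordinate
  let g : tor K p →+ (ℕ → K) :=
    { toFun := fun x => aeval (Φ φ) (f.1 j) (x : ℕ → K)
      map_zero' := by simp
      map_add' := by intro x y; simp }
  have hker : IsOpen (g.ker : Set (tor K p)) := by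
    have h1 : (g.ker : Set (tor K p)) =
        (fun x : tor K p => (Pi.single j x : Fin m → tor K p)) ⁻¹' (N f : Set _) := by
      ext x
      show aeval (Φ φ) (f.1 j) (x : ℕ → K) = 0 ↔
        ∑ i, aeval (Φ φ) (f.1 i) ((Pi.single j x : Fin m → tor K p) i : ℕ → K) = 0
      rw [Finset.sum_eq_single j]
      · rw [Pi.single_eq_same]
      · intro i _ hi
        rw [Pi.single_eq_of_ne hi]
        simp
      · intro h; exact absurd (Finset.mem_univ _) h
    rw [h1]
    exact hopen.preimage (continuous_single j)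
  have hquot : Finite (tor K p ⧸ g.ker) := AddSubgroup.quotient_finite_of_isOpen _ hker
  have hrange : Finite g.range := Finite.of_equiv _ (QuotientAddGroup.quotientKerEquivRange g).toEquiv
  apply image_infinite φ hp hna (f.1 j) hj
  have h2 : (fun x : ℕ → K => aeval (Φ φ) (f.1 j) x) '' {x | p • x = 0} = (g.range : Set _) := by
    ext y
    constructor
    · rintro ⟨x, hx, rfl⟩
      exact ⟨⟨x, hx⟩, rfl⟩
    · rintro ⟨x, rfl⟩
      exact ⟨x, x.2, rfl⟩
  rw [h2]
  exact Set.toFinite _

/-- The entropy is infinite if no monic polynomial kills the `p`-torsion. -/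
theorem ent_top (φ : AddMonoid.End (ℕ → K)) (hφ : Continuous φ) {p : ℕ} (hp : p.Prime)
    (hna : ∀ f : ℤ[X], f.Monic → ∃ x : ℕ → K, p • x = 0 ∧ aeval (Φ φ) f x ≠ 0) :
    ent φ = ⊤ := by
  have hlogp : 0 < Real.log p := Real.log_pos (by exact_mod_cast hp.one_lt)
  have key : ∀ m : ℕ, ((m * Real.log p : ℝ) : EReal) ≤ ent φ := by
    intro m
    obtain ⟨x, hx, hind⟩ := exists_generic φ hφ hp hna m
    let F : AddSubgroup (ℕ → K) := ⨆ j ∈ (Finset.univ : Finset (Fin m)), AddSubgroup.zmultiples (x j)
    have hFfin : Finite F := by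
      have h1 : ∀ s : Finset (Fin m),
          Finite (⨆ j ∈ s, AddSubgroup.zmultiples (x j) : AddSubgroup (ℕ → K)) := by
        intro s
        induction s using Finset.induction_on with
        | empty =>
          have : (⨆ j ∈ (∅ : Finset (Fin m)), AddSubgroup.zmultiples (x j) :
            AddSubgroup (ℕ → K)) = ⊥ := by simp
          rw [this]
          infer_instance
        | insert a s ha ih =>
          rw [Finset.iSup_insert]
          refine finite_sup ?_ ih
          have h2 : IsOfFinAddOrder (x a) :=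
            isOfFinAddOrder_iff_nsmul_eq_zero.2 ⟨p, hp.pos, hx a⟩
          exact h2.finite_zmultiples
      exact h1 _
    have hxF : ∀ j, x j ∈ F := by
      intro j
      have h1 : AddSubgroup.zmultiples (x j) ≤ F :=
        le_biSup (fun j => AddSubgroup.zmultiples (x j)) (Finset.mem_univ j)
      exact h1 (AddSubgroup.mem_zmultiples _)
    -- the lower bound for the cardinality
    have hcard : ∀ n : ℕ, p ^ (n * m) ≤ Nat.card (T φ F n) := by
      intro n
      have hfin := T_finite φ F hFfin n
      let g : (Fin n × Fin m → Fin p) → T φ F n := fun c =>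
        ⟨∑ i : Fin n, ∑ j : Fin m, ((c (i, j) : ℕ) : ℤ) • (φ ^ (i : ℕ)) (x j),
          sum_mem fun i _ => sum_mem fun j _ => zsmul_mem (pow_mem_T φ F i.2 (hxF j)) _⟩
      have hg : Function.Injective g := by
        intro c c' hcc
        have h1 := congrArg Subtype.val hcc
        have h2 : ∑ i : Fin n, ∑ j : Fin m, (((c (i, j) : ℕ) : ℤ) - ((c' (i, j) : ℕ) : ℤ)) •
            (φ ^ (i : ℕ)) (x j) = 0 := by
          simp only [sub_smul, Finset.sum_sub_distrib]
          exact sub_eq_zero.2 h1
        have h3 := hind (fun j => ∑ i : Fin n,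
          C (((c (i, j) : ℕ) : ℤ) - ((c' (i, j) : ℕ) : ℤ)) * X ^ (i : ℕ)) (by
            rw [Finset.sum_comm] at h2
            rw [← h2]
            refine Finset.sum_congr rfl fun j _ => ?_
            rw [map_sum, LinearMap.sum_apply]
            refine Finset.sum_congr rfl fun i _ => ?_
            rw [map_mul, aeval_C, map_pow, aeval_X, Module.End.mul_apply, Φ_pow]
            rfl)
        funext ⟨i, j⟩
        have h4 := (C_dvd_iff_dvd_coeff _ _).1 (h3 j) i
        rw [finsetSum_coeff] at h4
        have h5 : ∑ b : Fin n, (C (((c (b, j) : ℕ) : ℤ) - ((c' (b, j) : ℕ) : ℤ)) *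
            X ^ (b : ℕ)).coeff (i : ℕ) = ((c (i, j) : ℕ) : ℤ) - ((c' (i, j) : ℕ) : ℤ) := by
          rw [Finset.sum_eq_single i]
          · rw [coeff_C_mul, coeff_X_pow, if_pos rfl, mul_one]
          · intro b _ hb
            rw [coeff_C_mul, coeff_X_pow, if_neg (fun h => hb (Fin.ext h.symm)), mul_zero]
          · intro h; exact absurd (Finset.mem_univ _) h
        rw [h5] at h4
        obtain ⟨t, ht⟩ := h4
        have hc1 := (c (i, j)).2
        have hc2 := (c' (i, j)).2
        have ht0 : t = 0 := by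
          by_contra hne
          have h6 : (p : ℤ) ≤ |(p : ℤ) * t| := by
            rw [abs_mul, Nat.abs_cast]
            have : (1 : ℤ) ≤ |t| := Int.one_le_abs hne
            nlinarith
          rw [← ht] at h6
          have h7 : |((c (i, j) : ℕ) : ℤ) - ((c' (i, j) : ℕ) : ℤ)| < p := by
            rw [abs_lt]
            constructor <;> omega
          omega
        rw [ht0, mul_zero] at ht
        apply Fin.ext
        omega
      have h1 := Nat.card_le_card_of_injective g hg
      rw [Nat.card_fun, Nat.card_prod, Nat.card_fin, Nat.card_fin, Nat.card_fin] at h1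
      exact h1
    have hH : ((m * Real.log p : ℝ) : EReal) ≤ H φ F := by
      unfold H
      apply le_limsup_of_frequently_le
      · apply Eventually.frequently
        filter_upwards [eventually_gt_atTop 0] with n hn
        have hn' : (0 : ℝ) < n := by exact_mod_cast hn
        have h1 : (m * Real.log p : ℝ) ≤ Real.log (Nat.card (T φ F n)) / n := by
          rw [le_div_iff₀ hn']
          have h2 : Real.log ((p : ℝ) ^ (n * m)) ≤ Real.log (Nat.card (T φ F n)) := by
            apply Real.log_le_log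
            · have : (0 : ℝ) < p := by exact_mod_cast hp.pos
              positivity
            · exact_mod_cast hcard n
          rw [Real.log_pow] at h2
          push_cast at h2
          linarith
        exact EReal.coe_le_coe_iff.2 h1
      · isBoundedDefault
    exact hH.trans (le_iSup₂_of_le F hFfin le_rfl)
  rw [EReal.eq_top_iff_forall_lt]
  intro y
  obtain ⟨m, hm⟩ := exists_nat_gt (y / Real.log p)
  have h1 : y < m * Real.log p := (div_lt_iff₀ hlogp).1 hm
  exact lt_of_lt_of_le (EReal.coe_lt_coe_iff.2 h1) (key m)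

end Top

/-- Every continuous endomorphism of `K ^ ℕ`, for a finite abelian group `K` with the discrete
topology, has algebraic entropy zero or infinity. -/
theorem result (K : Type) [AddCommGroup K] [Finite K] [TopologicalSpace K] [DiscreteTopology K]
    (φ : AddMonoid.End (ℕ → K)) (hφ : Continuous φ) : ent φ = 0 ∨ ent φ = ⊤ := by
  by_cases h : ∀ p : ℕ, p.Prime →
      ∃ f : ℤ[X], f.Monic ∧ ∀ x : ℕ → K, p • x = 0 → aeval (Φ φ) f x = 0
  · left
    have he : Nat.card K ≠ 0 := Nat.card_pos.ne'
    obtain ⟨f, hf, hf'⟩ := exists_monic φ h (Nat.card K) he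
    apply ent_zero φ f hf
    intro x
    apply hf'
    funext i
    exact card_nsmul_eq_zero'
  · right
    push Not at h
    obtain ⟨p, hp, hna⟩ := h
    exact ent_top φ hφ hp hna

end Pool.Agent.Results.MP_e13f3c_al.ZeroOrInfinite
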