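import Mathlib

/-!
A Hadamard matrix of order `28` from the two-circulant-core construction that is not cocyclic.
-/

set_option autoImplicit false

namespace Pool.Agent.Results.MP_e1608d_co.NotCocyclic

open Matrix

/-- The index set of a matrix of order `2ℓ+2` in the two-circulant-core construction. -/
abbrev Idx (l : ℕ) : Type := Fin 2 ⊕ (ZMod l ⊕ ZMod l)

/-- All entries are `1` or `-1`. -/
def IsSign {m n : Type} (M : Matrix m n ℤ) : Prop := ∀ i j, M i j = 1 ∨ M i j = -1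

/-- A Hadamard matrix: a `±1` matrix `H` with `H Hᵀ = n I`. -/
def IsHadamard {n : Type} [Fintype n] [DecidableEq n] (H : Matrix n n ℤ) : Prop :=
  IsSign H ∧ H * Hᵀ = (Fintype.card n : ℤ) • (1 : Matrix n n ℤ)

/-- Circulant matrices of order `ℓ`. -/
def IsCirculant {l : ℕ} (A : Matrix (ZMod l) (ZMod l) ℤ) : Prop := ∃ a, A = Matrix.circulant a

/-- The data of the two-circulant-core construction: `ℓ` is odd and `A`, `B` are circulant `±1`
matrices of order `ℓ` with `A Aᵀ + B Bᵀ = 2(ℓ+1) I - 2 J`. -/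
def IsCorePair {l : ℕ} [NeZero l] (A B : Matrix (ZMod l) (ZMod l) ℤ) : Prop :=
  Odd l ∧ IsCirculant A ∧ IsCirculant B ∧ IsSign A ∧ IsSign B ∧
    A * Aᵀ + B * Bᵀ = (2 * ((l : ℤ) + 1)) • (1 : Matrix (ZMod l) (ZMod l) ℤ) -
      (2 : ℤ) • Matrix.of fun _ _ => 1

/-- The `2 × 2ℓ` border `[jᵀ, jᵀ; jᵀ, -jᵀ]`. -/
def border (l : ℕ) : Matrix (Fin 2) (ZMod l ⊕ ZMod l) ℤ :=
  Matrix.of fun i x => if i = 1 ∧ x.isRight then -1 else 1

/-- The matrix `H(A, B)`. -/
def core {l : ℕ} (A B : Matrix (ZMod l) (ZMod l) ℤ) : Matrix (Idx l) (Idx l) ℤ :=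
  Matrix.fromBlocks !![-1, -1; -1, 1] (border l) (border l)ᵀ
    (Matrix.fromBlocks A B Bᵀ (-Aᵀ))

/-- A `±1`-valued `2`-cocycle on a group. -/
def IsCocycle {G : Type} [Group G] (ψ : G → G → ℤ) : Prop :=
  (∀ g h, ψ g h = 1 ∨ ψ g h = -1) ∧ ∀ g h k, ψ g h * ψ (g * h) k = ψ h k * ψ g (h * k)

/-- `H` is obtained from the cocyclic matrix `[ψ(g,h)]` of some group `G` by ordering and permuting
the rows and the columns and multiplying rows and columns by `±1`. -/
def IsCocyclic {n : Type} (H : Matrix n n ℤ) : Prop :=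
  ∃ (G : Type) (_ : Group G) (ψ : G → G → ℤ), IsCocycle ψ ∧
    ∃ (e f : n ≃ G) (r s : n → ℤ), (∀ i, r i = 1 ∨ r i = -1) ∧ (∀ j, s j = 1 ∨ s j = -1) ∧
      ∀ i j, H i j = r i * s j * ψ (e i) (f j)

theorem sq_one {x : ℤ} (h : x = 1 ∨ x = -1) : x * x = 1 := by
  rcases h with h | h <;> rw [h] <;> norm_num

/-- A cocyclic matrix has, up to signs, an automorphism moving any row to any row. -/
theorem exists_auto {n : Type} {H : Matrix n n ℤ} (h : IsCocyclic H) (i₀ i₁ : n) :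
    ∃ (σ τ : n ≃ n) (u v : n → ℤ), σ i₀ = i₁ ∧ (∀ i, u i = 1 ∨ u i = -1) ∧
      (∀ j, v j = 1 ∨ v j = -1) ∧ ∀ i j, H (σ i) (τ j) = u i * v j * H i j := by
  obtain ⟨G, hG, ψ, ⟨hψ, hc⟩, e, f, r, s, hr, hs, hH⟩ := h
  let t : G := (e i₁)⁻¹ * e i₀
  have mul_pm : ∀ {x y : ℤ}, (x = 1 ∨ x = -1) → (y = 1 ∨ y = -1) → (x * y = 1 ∨ x * y = -1) := by
    intro x y hx hy
    rcases hx with h | h <;> rcases hy with h' | h' <;> rw [h, h'] <;> norm_num
  refine ⟨e.trans ((Equiv.mulRight t⁻¹).trans e.symm), f.trans ((Equiv.mulLeft t).trans f.symm),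
    fun i => r (e.symm (e i * t⁻¹)) * r i * ψ (e i * t⁻¹) t,
    fun j => s (f.symm (t * f j)) * s j * ψ t (f j), ?_, ?_, ?_, ?_⟩
  · simp [t]
  · intro i
    exact mul_pm (mul_pm (hr _) (hr _)) (hψ _ _)
  · intro j
    exact mul_pm (mul_pm (hs _) (hs _)) (hψ _ _)
  · intro i j
    have h1 := hc (e i * t⁻¹) t (f j)
    rw [inv_mul_cancel_right] at h1
    simp only [Equiv.trans_apply, Equiv.coe_mulRight, Equiv.coe_mulLeft]
    rw [hH, hH, Equiv.apply_symm_apply, Equiv.apply_symm_apply]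
    have h2 : ψ (e i * t⁻¹) (t * f j) = ψ t (f j) * (ψ (e i * t⁻¹) t * ψ (e i) (f j)) := by
      rw [h1, ← mul_assoc, sq_one (hψ _ _), one_mul]
    rw [h2]
    have h3 := sq_one (hr i)
    have h4 := sq_one (hs j)
    linear_combination (-(r (e.symm (e i * t⁻¹)) * s (f.symm (t * f j)) * ψ t (f j) *
      ψ (e i * t⁻¹) t * ψ (e i) (f j))) * (s j * s j) * h3 -
      (r (e.symm (e i * t⁻¹)) * s (f.symm (t * f j)) * ψ t (f j) *
      ψ (e i * t⁻¹) t * ψ (e i) (f j)) * h4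

/-- The absolute value of the generalised inner product of four rows. -/
def four {n : Type} [Fintype n] (H : Matrix n n ℤ) (i j k l : n) : ℤ :=
  |∑ c, H i c * H j c * H k c * H l c|

theorem four_auto {n : Type} [Fintype n] {H : Matrix n n ℤ} {σ τ : n ≃ n} {u v : n → ℤ}
    (hu : ∀ i, u i = 1 ∨ u i = -1) (hv : ∀ j, v j = 1 ∨ v j = -1)
    (h : ∀ i j, H (σ i) (τ j) = u i * v j * H i j) (i j k l : n) :
    four H (σ i) (σ j) (σ k) (σ l) = four H i j k l := by
  unfold four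
  rw [← Equiv.sum_comp τ]
  have h1 : ∀ c, H (σ i) (τ c) * H (σ j) (τ c) * H (σ k) (τ c) * H (σ l) (τ c) =
      (u i * u j * u k * u l) * (H i c * H j c * H k c * H l c) := by
    intro c
    rw [h, h, h, h]
    have h2 := sq_one (hv c)
    linear_combination (u i * u j * u k * u l * H i c * H j c * H k c * H l c) *
      (v c * v c + 1) * h2
  simp only [h1]
  rw [← Finset.mul_sum, abs_mul]
  have h3 : |u i * u j * u k * u l| = 1 := by
    rcases hu i with h | h <;> rcases hu j with h' | h' <;> rcases hu k with h'' | h'' <;>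
      rcases hu l with h''' | h''' <;> rw [h, h', h'', h'''] <;> norm_num
  rw [h3, one_mul]

/-- First row of `A` (as a function of `i - j`). -/
def a : ZMod 13 → ℤ := ![-1, 1, 1, 1, -1, 1, -1, -1, 1, -1, 1, 1, -1]

/-- First row of `B` (as a function of `i - j`). -/
def b : ZMod 13 → ℤ := ![-1, 1, 1, 1, -1, 1, 1, 1, -1, 1, -1, -1, -1]

/-- The matrix of order `28`. -/
def M : Matrix (Idx 13) (Idx 13) ℤ := core (Matrix.circulant a) (Matrix.circulant b)

theorem rowZero : ∀ k : Idx 13, k ≠ Sum.inl 0 → k ≠ Sum.inl 1 →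
    ∃ l : Idx 13, four M (Sum.inl 0) (Sum.inl 1) k l = 20 := by
  decide +kernel

theorem rowTwo : ∀ j : Idx 13, j ≠ Sum.inr (Sum.inl 0) →
    ∃ k : Idx 13, k ≠ Sum.inr (Sum.inl 0) ∧ k ≠ j ∧
      ∀ l : Idx 13, four M (Sum.inr (Sum.inl 0)) j k l ≠ 20 := by
  decide +kernel

theorem signA : IsSign (Matrix.circulant a) := by
  have h : ∀ i : ZMod 13, a i = 1 ∨ a i = -1 := by decide
  intro i j
  exact h (i - j)

theorem signB : IsSign (Matrix.circulant b) := by
  have h : ∀ i : ZMod 13, b i = 1 ∨ b i = -1 := by decide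
  intro i j
  exact h (i - j)

theorem signM : IsSign M := by
  have h : ∀ i : Idx 13, ∀ j : Idx 13, M i j * M i j = 1 := by decide +kernel
  exact fun i j => mul_self_eq_one_iff.1 (h i j)

theorem coreEq : Matrix.circulant a * (Matrix.circulant a)ᵀ +
    Matrix.circulant b * (Matrix.circulant b)ᵀ =
      (2 * (((13 : ℕ) : ℤ) + 1)) • (1 : Matrix (ZMod 13) (ZMod 13) ℤ) -
      (2 : ℤ) • Matrix.of fun _ _ => 1 := by
  decide +kernel

theorem hadEq : M * Mᵀ = (Fintype.card (Idx 13) : ℤ) • (1 : Matrix (Idx 13) (Idx 13) ℤ) := by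
  decide +kernel

/-- **Disproof of Q1**, with `ℓ = 13`: circulant `±1` matrices `A`, `B` of order `13` as in the
construction such that `H(A, B)` is a Hadamard matrix of order `28` that is not cocyclic. -/
theorem result : ∃ A B : Matrix (ZMod 13) (ZMod 13) ℤ, IsCorePair A B ∧
    IsHadamard (core A B) ∧ ¬ IsCocyclic (core A B) := by
  refine ⟨Matrix.circulant a, Matrix.circulant b,
    ⟨by decide, ⟨a, rfl⟩, ⟨b, rfl⟩, signA, signB, coreEq⟩, ⟨signM, hadEq⟩, ?_⟩
  intro hc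
  obtain ⟨σ, τ, u, v, hσ, hu, hv, h⟩ :=
    exists_auto hc (Sum.inl 0 : Idx 13) (Sum.inr (Sum.inl 0))
  have h4 : ∀ i j k l, four M (σ i) (σ j) (σ k) (σ l) = four M i j k l :=
    fun i j k l => four_auto hu hv h i j k l
  have hne : σ (Sum.inl 1) ≠ Sum.inr (Sum.inl 0) := by
    rw [← hσ]
    intro h'
    exact absurd (σ.injective h') (by decide)
  obtain ⟨k, hk1, hk2, hk3⟩ := rowTwo _ hne
  have hk1' : σ.symm k ≠ Sum.inl 0 := by
    rw [Ne, Equiv.symm_apply_eq, hσ]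
    exact hk1
  have hk2' : σ.symm k ≠ Sum.inl 1 := by
    rw [Ne, Equiv.symm_apply_eq]
    exact hk2
  obtain ⟨l, hl⟩ := rowZero _ hk1' hk2'
  rw [← h4, hσ, Equiv.apply_symm_apply] at hl
  exact hk3 _ hl

end Pool.Agent.Results.MP_e1608d_co.NotCocyclic
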