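import Mathlib
import Pool.Agent.Results.MP_e23604_nt.UnbalancedPencilsPrimes
import Pool.Agent.Q1.RS.PrmD

/-!
# Sequences of primes at which all Tate-Shafarevich groups are bounded

`W_t : y² = x (x - D(t) u₀(t)) (x - D(t) u₁(t))` is a family of elliptic curves over `ℚ` as in
`UnbalancedPencilsPrimes`: `u₀`, `u₁` and `u₂ = u₀ - u₁` are constants times products of `n_k`
irreducible polynomials, all different, `D` is any nonzero polynomial prime to them, and
`2 n_k + s_k ≤ n₀ + n₁ + n₂` for `k = 0, 1, 2`, where `s_k` is the number of the factors of `u_k`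
with split multiplicative reduction. (For example: all `n_k = 0`: the quadratic twists by `D(t)` of
any elliptic curve with full 2-torsion; all `n_k = 1`.) There is an absolute constant `c` and a
number `R` depending on the family such that, for every sequence with `x_(n+1) ≥ x_n ^ c`, the set of
the `α` such that **for all** `n` the number `p_n = ⌊α x_n⌋` is prime, `W_(p_n)` is an elliptic curve
and `2 ^ (k rank) * #Ш(W_(p_n))[2 ^ k] ≤ R ^ k` for all `k`, has Hausdorff dimension one.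
-/

set_option autoImplicit false

namespace Pool.Agent.Results.MP_e23604_nt.ShaAlongPrimes

open Finset Polynomial MeasureTheory

open Pool.Agent.TH841.SH.D (Sha ShaTor HasDiv rk)

open Pool.Agent.Results.MP_e23604_nt.UnbalancedPencilsPrimes (E SqMod v s fib)

open Pool.Agent.Results.MP_e23604_nt.UnbalancedPencilsPrimes (u)

/-- the fibre at `t` is an elliptic curve, and for all `k ≥ 1` the group `Ш[2 ^ k]` of the fibre is
finite and `2 ^ (k rank) * #Ш[2 ^ k] ≤ R ^ k` -/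
def Bounded {n : Fin 3 → ℕ} (D : ℤ[X]) (a : Fin 3 → ℤ) (f : ∀ k : Fin 3, Fin (n k) → ℤ[X])
    (R : ℝ) (t : ℤ) : Prop :=
  (∀ k, (D * u a f k).eval t ≠ 0) ∧ ∀ k : ℕ, 1 ≤ k → Finite (ShaTor (fib D a f t) (2 ^ k)) ∧
    (2 : ℝ) ^ (k * rk (fib D a f t)) * Nat.card (ShaTor (fib D a f t) (2 ^ k)) ≤ R ^ k

/-- **Theorem.** There is a number `c > 1` with the following property. Let
`u_k = a_k ∏_{i < n_k} f_{k,i}`, `k = 0, 1, 2`, be polynomials with integer coefficients with
`u₀ - u₁ = u₂`, where `a_k ≠ 0` and the `n₀ + n₁ + n₂` polynomials `f_{k,i}` are irreducible of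
positive degree, pairwise non-associated and not associated to the polynomial `t`, let `D ≠ 0` be a
polynomial with integer coefficients not divisible by `t` or by any `f_{k,i}`, and let `s_k` be the
number of the `i` such that `y² = x (x - D u₀) (x - D u₁)` has split multiplicative reduction at
`f_{k,i}`. Assume that `2 n_k + s_k ≤ n₀ + n₁ + n₂` for `k = 0, 1, 2`. Then there is `R` such that
for all `0 < y < z` and all sequences with `x_(n+1) ≥ x_n ^ c` for all `n` and `x_0` large enough (in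
terms of `y`, `z` and the family) the set of the `α` in `[y, z]` such that for all `n` the number
`⌊α x_n⌋` is prime and the fibre at `⌊α x_n⌋` is `Bounded` by `R` has Hausdorff dimension one. -/
theorem result : ∃ c : ℝ, 1 < c ∧ ∀ (n : Fin 3 → ℕ) (a : Fin 3 → ℤ)
    (f : ∀ k : Fin 3, Fin (n k) → ℤ[X]) (D : ℤ[X]), (∀ k, a k ≠ 0) →
    (∀ k i, Irreducible (f k i) ∧ 0 < (f k i).natDegree) →
    (∀ k i l j, (⟨k, i⟩ : Σ k : Fin 3, Fin (n k)) ≠ ⟨l, j⟩ → ¬ Associated (f k i) (f l j)) →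
    (∀ k i, ¬ Associated (f k i) X) → u a f 0 - u a f 1 = u a f 2 → D ≠ 0 → ¬ X ∣ D →
    (∀ k i, ¬ f k i ∣ D) → (∀ k, 2 * n k + s D a f k ≤ n 0 + n 1 + n 2) →
    ∃ R : ℝ, ∀ y z : ℝ, 0 < y → y < z → ∃ X₀ : ℝ, ∀ x : ℕ → ℝ, X₀ ≤ x 0 →
      (∀ n, x n ^ c ≤ x (n + 1)) →
      dimH {α : ℝ | y ≤ α ∧ α ≤ z ∧ ∀ n, ⌊α * x n⌋.natAbs.Prime ∧
        Bounded D a f R ⌊α * x n⌋} = 1 := by
  classical
  obtain ⟨c, hc, hmain⟩ := Pool.Agent.Q1.RS.dim_primes
  refine ⟨c, hc, fun n a f D ha hf hf' hfX hu hD hXD hDf hs => ?_⟩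
  -- the weight
  set F : ℤ → ℝ := fun t => if (∀ k, (D * u a f k).eval t ≠ 0) ∧ t.natAbs.Prime then
    Pool.Agent.W307.SE.SN ((D * u a f 0).eval t) ((D * u a f 1).eval t) else 0 with hFd
  have hF0 : ∀ t, 0 ≤ F t := fun t => by
    rw [hFd]
    dsimp only
    split_ifs
    · exact Pool.Agent.W307.SE.SN_nonneg _ _
    · exact le_rfl
  have hirr : Pool.Agent.TH841.PT.Irr (Pool.Agent.TH841.TR.fp f) :=
    ⟨fun x => (hf x.1 x.2).1, fun x => (hf x.1 x.2).2, fun x y hxy => hf' x.1 x.2 y.1 y.2 hxy⟩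
  have hirrG : Pool.Agent.TH841.PT.Irr (fun _ : Fin 1 => (X : ℤ[X])) :=
    ⟨fun _ => irreducible_X, fun _ => by rw [natDegree_X]; exact one_pos,
      fun i j hij => absurd (Subsingleton.elim i j) hij⟩
  have hB : Pool.Agent.TH841.TR.Bal D a f :=
    Pool.Agent.TH841.TR.bal_of (v := v D a f) rfl rfl rfl hs
  have hmom : Pool.Agent.Q1.RS.MomP F := by
    intro L
    obtain ⟨C, _, hC⟩ := Pool.Agent.TH841.TR.pen_prime Pool.Agent.TH841.TR.tav3x
      Pool.Agent.TH841.TR.tav3xg hirrG a f ha hirr hu (fun _ k i => hfX k i) D hD hDf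
      (fun _ => hXD) hB L
    refine ⟨C, fun N M hM hN => ?_⟩
    have h1 := hC N M hM hN
    rw [pow_one] at h1
    refine le_trans (le_of_eq ?_) h1
    rw [sum_filter]
    refine sum_congr rfl fun t _ => ?_
    rw [hFd]
    dsimp only
    refine if_congr ?_ rfl rfl
    refine and_congr Iff.rfl ?_
    unfold Pool.Agent.TH841.PT.AllPr
    constructor
    · intro h _
      rwa [eval_X]
    · intro h
      have := h 0
      rwa [eval_X] at this
  obtain ⟨R, hR⟩ := hmain F hF0 hmom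
  refine ⟨R, fun y z hy hyz => ?_⟩
  obtain ⟨X₁, hX₁⟩ := hR y z hy hyz
  -- the zeros of the polynomials
  have hne : ∀ k, D * u a f k ≠ 0 := fun k => mul_ne_zero hD (by
    unfold UnbalancedPencilsPrimes.u
    exact mul_ne_zero (C_ne_zero.2 (ha k)) (prod_ne_zero_iff.2 fun i _ => (hf k i).1.ne_zero))
  obtain ⟨T, hT⟩ : ∃ T : ℝ, ∀ t : ℤ, (∃ k, (D * u a f k).eval t = 0) → (t : ℝ) < T := by
    have hZ : {t : ℤ | ∃ k, (D * u a f k).eval t = 0}.Finite := by
      refine ((∏ k, (D * u a f k)).roots.toFinset.finite_toSet).subset fun t ht => ?_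
      obtain ⟨k, hk⟩ := ht
      rw [mem_coe, Multiset.mem_toFinset, mem_roots (prod_ne_zero_iff.2 fun k _ => hne k), IsRoot,
        eval_prod]
      exact prod_eq_zero (mem_univ k) hk
    obtain ⟨B, hB⟩ := (hZ.image fun t : ℤ => (t : ℝ)).bddAbove
    exact ⟨B + 1, fun t ht => lt_of_le_of_lt (hB (Set.mem_image_of_mem _ ht)) (by linarith)⟩
  refine ⟨max (max X₁ 2) ((T + 1) / y), fun x hx0 hx => ?_⟩
  have hx1 : X₁ ≤ x 0 := le_trans (le_trans (le_max_left _ _) (le_max_left _ _)) hx0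
  have hx2 : 2 ≤ x 0 := le_trans (le_trans (le_max_right _ _) (le_max_left _ _)) hx0
  have hx3 : (T + 1) / y ≤ x 0 := le_trans (le_max_right _ _) hx0
  have hxc : ∀ n, x n ^ (1 + (c - 1)) ≤ x (n + 1) := fun n => by
    rw [add_sub_cancel]
    exact hx n
  have hmono : ∀ n, x 0 ≤ x n := by
    intro n
    refine le_trans ?_ (Pool.Agent.Q1.RS.growth (by linarith) (by linarith) hxc n)
    calc x 0 = x 0 ^ (1 : ℝ) := (Real.rpow_one _).symm
      _ ≤ _ := Real.rpow_le_rpow_of_exponent_le (by linarith) (one_le_pow₀ (by linarith))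
  refine le_antisymm ((dimH_mono (Set.subset_univ _)).trans (by rw [Real.dimH_univ])) ?_
  rw [← hX₁ x hx1 hx]
  refine dimH_mono fun α hα => ⟨hα.1, hα.2.1, fun m => ?_⟩
  obtain ⟨h1, h2⟩ := hα.2.2 m
  set t : ℤ := ⌊α * x m⌋ with ht
  have h3 : ∀ k, (D * u a f k).eval t ≠ 0 := by
    intro k hk
    have e1 := hT t ⟨k, hk⟩
    have e2 : T + 1 ≤ α * x m := by
      rw [div_le_iff₀ hy] at hx3
      calc T + 1 ≤ x 0 * y := hx3
        _ = y * x 0 := mul_comm _ _
        _ ≤ α * x m := mul_le_mul hα.1 (hmono m) (by linarith) (by linarith [hα.1])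
    have e3 := Int.lt_floor_add_one (α * x m)
    rw [← ht] at e3
    linarith
  have h4 : F t = Pool.Agent.W307.SE.SN ((D * u a f 0).eval t) ((D * u a f 1).eval t) := by
    rw [hFd]
    dsimp only
    rw [if_pos ⟨h3, h1⟩]
  rw [h4] at h2
  obtain ⟨e1, e2, e3⟩ := Pool.Agent.TH841.TR.ne_three hu h3
  have hbd : Pool.Agent.TH841.SH.Bd (fib D a f t)
      (Pool.Agent.W307.SE.SN ((D * u a f 0).eval t) ((D * u a f 1).eval t)) :=
    Pool.Agent.TH841.PT.bd_EQ e1 e2 e3
  refine ⟨h1, h3, fun k hk => ⟨hbd.fin k, ?_⟩⟩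
  have e4 := (hbd.wt_le hk).trans h2
  unfold Pool.Agent.TH841.SH.wt at e4
  have e5 := pow_le_pow_left₀ (by positivity) e4 k
  rw [mul_pow, ← pow_mul, mul_comm (rk (fib D a f t)) k, ← Real.rpow_mul_natCast
    (Nat.cast_nonneg _)] at e5
  have hk0 : (k : ℝ) ≠ 0 := by exact_mod_cast (by omega : k ≠ 0)
  rwa [one_div_mul_cancel hk0, Real.rpow_one] at e5

end Pool.Agent.Results.MP_e23604_nt.ShaAlongPrimes
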