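import Pool.Agent.Q57.TC.TopB

/-!
# Abundance for toroidal pairs on abelian covers of products of projective spaces

Let `F i` be a form of degree `d i` in `n i + 1` variables whose zero set in the projective
`n i`-space is a smooth hypersurface, and let `H i` be the cyclic hypersurface `w ^ (d i) = F i` in
the projective `(n i + 1)`-space. Let `K` be the function field of a quotient
`Y = (H 1 × ... × H r) / G`, where `G` is any group of diagonal automorphisms
`w i ↦ ζ i * w i`, `ζ i ^ (d i) = 1`. Equivalently, `K` is generated by the affine coordinates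
`x i j / x i 0` of the product `X₀` of the projective `n i`-spaces and by roots `z j`,
`z j ^ (m j) = ∏ i, (F i (x i) / x i 0 ^ (d i)) ^ (a j i)`, where `m j` divides `a j i * d i`: the
abelian covers of `X₀` which are branched along the hypersurfaces `F i = 0` of the factors.

A prime divisor `P` over `Y` (a divisorial place of `K`) has the vector `multiplicities F d x P` of the
multiplicities `v i` of the hypersurfaces along `P`, and the log discrepancy `logDiscrepancy F d x P`
of the pair `(X₀, ∑ i, (F i = 0))`: the order of its logarithmic canonical forms along `P`, plus one.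
It is `0` for the toroidal divisors `P`, whose vectors `v ≠ 0` have `m j ∣ ∑ i, a j i * v i` for all
`j` (`Admissible`), and it is positive for all other `P`.

**The pairs.** The boundary is given by a function `ψ ≥ 0`, `ψ 0 = 0`, on the vectors: the log
discrepancy of the pair `(X, Δ)` along any prime divisor `P` over `X` is
`ψ v + logDiscrepancy F d x P`, `v` the vector of `P`, so that
`δ P = 1 - ψ v - logDiscrepancy F d x P` (`coefficient`) is the coefficient of `P` in the pullback of
`K + Δ`, and the sections of `m (K + Δ)` are the rational `m`-canonical forms whose order along every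
prime divisor `P` is at least `- m δ P`. Let `X` be a toroidal modification of `Y` (for example
`X = Y`, or a toroidal minimal model of it), given by a subdivision of the fan of the faces of the
positive orthant, and let `Δ = ∑ δ_ρ D_ρ` be a divisor supported over the hypersurfaces with rational
coefficients `0 ≤ δ_ρ ≤ 1`, such that `K + Δ` is `ℚ`-Cartier (`(X, Δ)` is a log canonical pair, and
klt if all `δ_ρ < 1`). Then `ψ` is the function which is linear on the cones of the fan, with the value
`1 - δ_ρ` at the generator `ρ` of a ray. The case `ψ v = 1` for all `v ≠ 0` is that of the canonical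
divisors of the smooth models of `K`.

**The theorem.** If `K + Δ` is nef (all `M (K + Δ) + A` are semiample, for some `A`), then it is
semiample. If `K + Δ` is pseudo-effective, then it has finitely many sections `ω i` of a multiple
`T (K + Δ)` which compute all asymptotic orders of vanishing of `K + Δ`: for every prime divisor `P`
over `X`, the minimum of the orders of the `ω i` along `P` is at most `T / m` times the order along
`P` of any section of `m (K + Δ) + j A`, up to a multiple of `(j + 1) / m`, for all divisors `A`. So
the positive part of the (Nakayama) Zariski decomposition of `K + Δ` on a resolution is a semiample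
`ℚ`-divisor; for klt pairs this is equivalent to the existence of a good minimal model.

The orders are tested with all divisorial places of the function field `K`. The equality `κ = ν` for
these pairs is `MP_bc213e_ag.HypersurfaceQuotientPairs`.
-/

set_option autoImplicit false

open FF MvPolynomial Pool.Agent.W602.GT

namespace Pool.Agent.Results.MP_e23cd6_ag.HypersurfaceQuotientAbundance

/-- The form `F` has no singular zeros: its partial derivatives have no common zero but `0`. -/
def Smooth {n : ℕ} (F : MvPolynomial (Fin (n + 1)) ℂ) : Prop :=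
  ∀ x : Fin (n + 1) → ℂ, x ≠ 0 → ∃ l, eval x (pderiv l F) ≠ 0

section places

variable {r R : ℕ} {n : Fin r → ℕ} {K : Type} [Field K] [Algebra ℂ K]

/-- The affine coordinates of the product of the projective spaces. -/
noncomputable def affine (x : ∀ i, Fin (n i + 1) → K) (b : (i : Fin r) × Fin (n i)) : K :=
  x b.1 b.2.succ / x b.1 0

/-- The minimal order at `P` of the homogeneous coordinates `y` of one factor. -/
noncomputable def minimalOrder {k : ℕ} (y : Fin (k + 1) → K) (P : Place ℂ K) : ℤ :=
  Finset.univ.inf' Finset.univ_nonempty fun j => P.ord (y j)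

/-- The multiplicities of the hypersurfaces `F i = 0` along the prime divisor `P`; the `x i j` are the
homogeneous coordinates of the `i`-th factor, which are divided by one of minimal order at `P`. -/
noncomputable def multiplicities (F : ∀ i, MvPolynomial (Fin (n i + 1)) ℂ) (d : Fin r → ℕ)
    (x : ∀ i, Fin (n i + 1) → K) (P : Place ℂ K) (i : Fin r) : ℕ :=
  (P.ord (aeval (x i) (F i)) - d i * minimalOrder (x i) P).toNat

/-- The canonical form of the product of the projective spaces, evaluated at the vector fields `D`:
`∏ i, x i 0 ^ (n i + 1)` times the determinant of the derivatives of the affine coordinates. -/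
noncomputable def canonicalForm (x : ∀ i, Fin (n i + 1) → K)
    (D : ((i : Fin r) × Fin (n i)) → Derivation ℂ K K) : K :=
  (∏ i, x i 0 ^ (n i + 1)) * (Matrix.of fun b b' => D b (affine x b')).det

/-- The order of the canonical form along `P`: the minimal order of its values at vector fields which
are regular at `P`. -/
noncomputable def formOrder (x : ∀ i, Fin (n i + 1) → K) (P : Place ℂ K) : ℤ :=
  sInf {k : ℤ | ∃ D : ((i : Fin r) × Fin (n i)) → Derivation ℂ K K, (∀ b, DerReg P (D b)) ∧
    canonicalForm x D ≠ 0 ∧ P.ord (canonicalForm x D) = k}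

/-- The log discrepancy along `P` of the product of the projective spaces, with the boundary
`∑ i, (F i = 0)`: the order along `P` of the logarithmic canonical forms, which are obtained from the
canonical form by the division by the local equations of the hypersurfaces and by the power
`n i + 1` of a coordinate `x i j` of minimal order, plus one. -/
noncomputable def logDiscrepancy (F : ∀ i, MvPolynomial (Fin (n i + 1)) ℂ) (d : Fin r → ℕ)
    (x : ∀ i, Fin (n i + 1) → K) (P : Place ℂ K) : ℤ :=
  formOrder x P + 1 - ∑ i, (multiplicities F d x P i : ℤ) -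
    ∑ i, ((n i : ℤ) + 1) * minimalOrder (x i) P

/-- The coefficient of `P` in the pullback of `K + Δ`, for the pair with the function `ψ`: its log
discrepancy along `P` is `ψ v + logDiscrepancy F d x P`, `v` the vector of the multiplicities. -/
noncomputable def coefficient (F : ∀ i, MvPolynomial (Fin (n i + 1)) ℂ) (d : Fin r → ℕ)
    (x : ∀ i, Fin (n i + 1) → K) (ψ : (Fin r → ℕ) → ℚ) (P : Place ℂ K) : ℚ :=
  1 - ψ (multiplicities F d x P) - logDiscrepancy F d x P

/-- The multiplicities which satisfy the divisibility conditions. -/
def Admissible (m : Fin R → ℕ) (a : Fin R → Fin r → ℕ) (v : Fin r → ℕ) : Prop :=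
  v ≠ 0 ∧ ∀ j, m j ∣ ∑ i, a j i * v i

/-- The function `ψ` is the log discrepancy of a boundary along the toroidal divisors: it is not
negative (the pair is log canonical), at most homogeneous along the rays, and finitely many of the
inequalities `ψ v ≤ ∑ k, v k * y k` (for vectors `y` with nonnegative entries) imply the others. -/
structure IsBoundary (m : Fin R → ℕ) (a : Fin R → Fin r → ℕ) (ψ : (Fin r → ℕ) → ℚ) : Prop where
  zero : ψ 0 = 0
  nonneg : ∀ v, 0 ≤ ψ v
  ray : ∀ v (k : ℕ), 1 ≤ k → Admissible m a v → ψ (k • v) ≤ k * ψ v
  finite : ∃ T : Finset (Fin r → ℕ), (∀ s ∈ T, Admissible m a s) ∧ ∀ v, Admissible m a v →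
    ∃ w : (Fin r → ℕ) → ℚ, (∀ s, 0 ≤ w s) ∧ (∀ k, ∑ s ∈ T, w s * s k ≤ v k) ∧
      ψ v ≤ ∑ s ∈ T, w s * ψ s

end places

section sections

/-- `ω` is a section of `m (K + Δ) + j A`: a rational section of the `m`-th power of the canonical
bundle (`IsPluri`: a function of `N` rational vector fields which is multiplied by `det B ^ m` under
a linear substitution `B`) whose order on the vector fields which are regular at `P` is at least `j`
times the order of one of the functions in `S`, minus `m` times the coefficient `δ P` of `P` in the
pullback of `K + Δ`, for all prime divisors `P` (all divisorial places `P` of `K`). Here `A` is the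
divisor which is generated by the finite set `S` of functions; `A = 0` if `S = {1}`. -/
def IsSection {K : Type} [Field K] [Algebra ℂ K] (N : ℕ) (δ : Place ℂ K → ℚ) (S : Finset K)
    (m j : ℕ) (ω : (Fin N → Derivation ℂ K K) → K) : Prop :=
  IsPluri m ω ∧ ∀ P : Place ℂ K, Divisorial N P → ∀ D : Fin N → Derivation ℂ K K,
    (∀ c, DerReg P (D c)) → ω D = 0 ∨ ∃ s ∈ S, s ≠ 0 ∧
      (j : ℚ) * P.ord s - m * δ P ≤ P.ord (ω D)

variable (N : ℕ) {K : Type} [Field K] [Algebra ℂ K] (δ : Place ℂ K → ℚ)

/-- `K + Δ` is pseudo-effective: there is a divisor `A` such that for all `M` a positive multiple of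
`M (K + Δ) + A` is effective. -/
def Pseudoeffective : Prop :=
  ∃ S : Finset K, ∀ M : ℕ, ∃ j : ℕ, 1 ≤ j ∧ ∃ ω : (Fin N → Derivation ℂ K K) → K, ω ≠ 0 ∧
    IsSection N δ S (j * M) j ω

/-- The asymptotic orders of vanishing of `K + Δ` are computed by finitely many sections `ω i` of a
multiple `T (K + Δ)`: for every prime divisor `P` there is an `ω i` such that for all divisors `A`
there is a constant `C` with `ord ω i / T ≤ ord η / m + C (j + 1) / (T m)` for all sections `η` of
`m (K + Δ) + j A`. (The orders are those of the values at the same vector fields `D`: the quotient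
of `ω i ^ m` and `η ^ T` is a rational function.) -/
def GoodMinimalModel : Prop :=
  ∃ (T r : ℕ) (ω : Fin r → (Fin N → Derivation ℂ K K) → K), 0 < T ∧
    (∀ i, IsSection N δ {1} T 1 (ω i)) ∧ ∀ P : Place ℂ K, Divisorial N P → ∃ i, ∀ S : Finset K,
      ∃ C : ℤ, ∀ (m j : ℕ) (η : (Fin N → Derivation ℂ K K) → K), 1 ≤ m →
        IsSection N δ S m j η → ∀ D, η D = 0 ∨ (ω i D ≠ 0 ∧
          (m : ℤ) * P.ord (ω i D) ≤ T * P.ord (η D) + C * (j + 1))

/-- `K + Δ` is nef: there is a divisor `A` such that all `M (K + Δ) + A`, `M ≥ 1`, are semiample,
that is, some multiple of it has for every prime divisor `P` a section of the minimal order at `P`.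
This holds if `K + Δ` and `A` are the divisors of a pair `(X, Δ)` such that `K + Δ` is nef, and of an
ample divisor on `X`. -/
def Nef : Prop :=
  ∃ S : Finset K, (∃ s ∈ S, s ≠ 0) ∧ ∀ M : ℕ, 1 ≤ M → ∃ j : ℕ, 1 ≤ j ∧
    ∀ P : Place ℂ K, Divisorial N P → ∃ η, IsSection N δ S (j * M) j η ∧
      ∃ D, (∀ c, DerReg P (D c)) ∧ η D ≠ 0 ∧
        ∀ s ∈ S, s ≠ 0 → (P.ord (η D) : ℚ) ≤ j * P.ord s - (j * M) * δ P

/-- `K + Δ` is semiample: some multiple `T (K + Δ)` has for every prime divisor `P` a section which
does not vanish at `P`. -/
def Semiample : Prop :=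
  ∃ T : ℕ, 0 < T ∧ ∀ P : Place ℂ K, Divisorial N P → ∃ η, IsSection N δ {1} T 1 η ∧
    ∃ D, (∀ c, DerReg P (D c)) ∧ η D ≠ 0 ∧ (P.ord (η D) : ℚ) ≤ - (T * δ P)

end sections

/-- **Abundance and good minimal models.** Let `K` be the function field of an abelian cover of the
product of the projective `n i`-spaces which is branched along smooth hypersurfaces `F i = 0` of the
factors, and let `Δ` be the boundary whose log discrepancies along the toroidal divisors are given by
`ψ`. If `K + Δ` is nef, then it is semiample. If `K + Δ` is pseudo-effective, then its asymptotic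
orders of vanishing at all prime divisors are computed by finitely many sections of a multiple of
`K + Δ`. -/
theorem result (r N R : ℕ) (n d : Fin r → ℕ) (hr : 1 ≤ r) (hn : ∀ i, 1 ≤ n i)
    (hd : ∀ i, 1 ≤ d i) (hN : N = ∑ i, n i)
    (F : ∀ i, MvPolynomial (Fin (n i + 1)) ℂ) (hF : ∀ i, (F i).IsHomogeneous (d i))
    (hs : ∀ i, Smooth (F i)) (m : Fin R → ℕ) (hm : ∀ j, 1 ≤ m j) (a : Fin R → Fin r → ℕ)
    (hdiv : ∀ j i, m j ∣ a j i * d i)
    (K : Type) [Field K] [Algebra ℂ K] (x : ∀ i, Fin (n i + 1) → K) (hx0 : ∀ i, x i 0 ≠ 0)
    (hbas : IsTranscendenceBasis ℂ (affine x)) (z : Fin R → K)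
    (hz : ∀ j, z j ^ m j = ∏ i, (aeval (x i) (F i) / x i 0 ^ d i) ^ a j i)
    (hgen : IntermediateField.adjoin ℂ (Set.range (affine x) ∪ Set.range z) = ⊤)
    (ψ : (Fin r → ℕ) → ℚ) (hψ : IsBoundary m a ψ)
    (δ : Place ℂ K → ℚ) (hδ : δ = coefficient F d x ψ) :
    (Nef N δ → Semiample N δ) ∧ (Pseudoeffective N δ → GoodMinimalModel N δ) :=
  (Pool.Agent.Q57.TC.main_ps1 hr hn hN hd hF hs hx0 hbas hm hdiv hz hgen hψ.zero hψ.nonneg
    hψ.ray hψ.finite fun P => congrFun hδ P).symm

end Pool.Agent.Results.MP_e23cd6_ag.HypersurfaceQuotientAbundance
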