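import Pool.Agent.Q50.BE.Fin

set_option autoImplicit false

/-!
# Horrocks' bounds for modules with a socle element which is not integral over the relations

Let `S` be an algebra over a field `k` and `f_1, …, f_m` elements of `S`. For an `S`-module `M` of
finite dimension over `k` let `β_i(M) = dim H_i(f; M)` be the dimensions of the Koszul homology. If
`f` is a regular sequence and `S = k + (f)`, for example if `S` is the polynomial ring or the power
series ring in the variables `f_j` (with any grading), then these are the Betti numbers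
`dim Tor_i(M, k)`, and `β_i(M) ≤ rank F_i` for every resolution `F` of `M` by finite free modules (0).
Horrocks' conjecture is `β_i(M) ≥ binom(m, i)` for `M ≠ 0`. Let `M = F / L`.

(1) Let `V` be a valuation ring of a field `K`, `k ⊆ V`, let `K` be an `S`-algebra, `h : F → K ^ r` an
`S`-linear map and `s_1, …, s_r` elements of `F` with `f_j s_q ∈ L` such that `h(s_q)` is the `q`-th
basis vector and all coordinates of the elements of `h(L)` are in the maximal ideal of `V`. Then
`β_i(M) ≥ r * binom(m, i)` for all `i`. Moreover `β_i(M) ≥ β_i(M')` for the quotient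
`M' = F / (L + ∑ k s_q)` of `M`.

(2) Let `A` be a domain which is an `S`-algebra, `h : F → A` an `S`-linear map and `s` an element of `F`
with `f_j s ∈ L` such that `h(s)` is not integral over the ideal of `A` generated by `h(L)`. Then
`β_i(M) ≥ binom(m, i)` and `β_i(M) ≥ β_i(F / (L + k s))` for all `i`. For example let `S` be a domain,
`F = S ^ n` and `A = S[T_1, …, T_n]`, `h(x) = ∑ x_i T_i`: the condition is that `s` is not integral over
the module `L` (in the sense of Rees). So **a module `M = F / L` with `β_i(M) < binom(m, i)` for some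
`i` has its socle in the image of the integral closure of `L`**.

(3) In particular all ideals `I ≠ S` of finite colength which are integrally closed, or for which
some element `s` with `f_j s ∈ I` is not integral over `I`, satisfy Horrocks' bounds.

(4) Let `S` be a domain, `(f) ≠ S`, `F` any `S`-module and `U` a finitely generated submodule which
contains `r` linearly independent elements, such that `F / (f) U` is of finite dimension. Then
`β_i(F / (f) U) ≥ r * binom(m, i)`. So for a polynomial ring and `F` free of rank `r`,
`β_i(F / 𝔪 U) ≥ β_0(F / 𝔪 U) * binom(m, i)`, in particular for `S / 𝔪 J`, `J` any ideal.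

The proof of (1). Let `G` be the composition of `h` with a `k`-linear section of `F → M`, extended to
`N = K ⊗ M`, let `P` be the projection of `N` to the kernel of `G` along the `s_q` and `a_j` the image of
`f_j` in `K`. The operators `Y_j = P (f_j - a_j)` on `N` commute, and they specialize to the operators
`f_j` on `M`, since `|a_j| < 1` and `|G(f_j x) - a_j G(x)| < 1` for `x ∈ M`. They are zero on the span of the
`s_q`, and this is a direct summand of the `K[Y]`-module `N`, the complement being the kernel of `G`.
So geometrically, `M` is the limit of a direct sum of `M'` (at the origin) and of `r` copies of the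
residue field of the point `a`. The dimension of the Koszul homology is semicontinuous under
specialization to the residue field of `V` (`Pool.Agent.Q50.BE.hk_special`), at the point `a` and at
the origin. In (2) `V` is given by the valuative criterion of integral dependence
(`Pool.Agent.Q50.BE.exists_val`), in (4) `V` is centred at a prime ideal containing `f`, and the `s_q`
are a basis of the lattice generated by `U`.
-/

namespace Pool.Agent.Results.MP_e2ce73_al.NonIntegralSocle

open Pool.Agent.Q50.BE

universe u v w y z

/-- `F` is a resolution of `M` by finite free modules. -/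
structure IsFreeResolution (S : Type z) [CommRing S] (M : Type v) [AddCommGroup M] [Module S M]
    (F : ℕ → Type v) [∀ i, AddCommGroup (F i)] [∀ i, Module S (F i)]
    (d : ∀ i, F (i + 1) →ₗ[S] F i) (ε : F 0 →ₗ[S] M) : Prop where
  free : ∀ i, Module.Free S (F i)
  finite : ∀ i, Module.Finite S (F i)
  surj : Function.Surjective ε
  exact_zero : LinearMap.range (d 0) = LinearMap.ker ε
  exact : ∀ i, LinearMap.range (d (i + 1)) = LinearMap.ker (d i)

/-- the ideal `(f_1, …, f_m)` -/
abbrev idealOf {S : Type z} [CommRing S] {m : ℕ} (f : Fin m → S) : Ideal S :=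
  Ideal.span (Set.range f)

section

variable (k : Type u) [Field k] {S : Type z} [CommRing S] [Algebra k S] {m : ℕ} (f : Fin m → S)

/-- If `f` is a regular sequence and `S = k + (f)`, then `β_i(M) ≤ rank F_i` for every resolution `F`
of `M` by finite free modules. -/
def RankBound : Prop :=
  (∀ (l : Fin m) (s : S), f l * s ∈ Ideal.span (f '' Set.Iio l) →
    s ∈ Ideal.span (f '' Set.Iio l)) →
  (∀ s : S, ∃ c : k, s - algebraMap k S c ∈ idealOf f) →
  ∀ (M : Type v) [AddCommGroup M] [Module k M] [Module S M] [IsScalarTower k S M]
    (F : ℕ → Type v) [∀ i, AddCommGroup (F i)] [∀ i, Module S (F i)]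
    (d : ∀ i, F (i + 1) →ₗ[S] F i) (ε : F 0 →ₗ[S] M), IsFreeResolution S M F d ε →
    ∀ i, betti k f M i ≤ Module.finrank S (F i)

/-- The Betti numbers of `M` are at least those of the quotient of `M` by the span over `k` of the
elements `x q`. -/
def QuotientBound {M : Type y} [AddCommGroup M] [Module k M] [Module S M] [IsScalarTower k S M]
    {r : ℕ} (x : Fin r → M) : Prop :=
  ∀ (M' : Type y) [AddCommGroup M'] [Module k M'] [Module S M'] [IsScalarTower k S M']
    (ρ : M →ₗ[S] M'), Function.Surjective ρ →
    (∀ y, ρ y = 0 ↔ y ∈ Submodule.span k (Set.range x)) → ∀ i, betti k f M' i ≤ betti k f M i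

/-- Statement (1). -/
def ValuationCriterion : Prop :=
  ∀ (F : Type v) [AddCommGroup F] [Module k F] [Module S F] [IsScalarTower k S F]
    (M : Type y) [AddCommGroup M] [Module k M] [Module S M] [IsScalarTower k S M]
    [FiniteDimensional k M] (π : F →ₗ[S] M) (_ : Function.Surjective π)
    (K : Type w) [Field K] [Algebra k K] [Algebra S K] [IsScalarTower k S K]
    (V : ValuationSubring K) (_ : ∀ a : k, algebraMap k K a ∈ V)
    (r : ℕ) (h : F →ₗ[S] (Fin r → K)) (s : Fin r → F) (_ : ∀ q, h (s q) = Pi.single q 1)
    (_ : ∀ j q, π (f j • s q) = 0) (_ : ∀ l, π l = 0 → ∀ q, V.valuation (h l q) < 1),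
    (∀ i, r * m.choose i ≤ betti k f M i) ∧ QuotientBound k f (fun q => π (s q))

/-- Statement (2). -/
def IntegralCriterion : Prop :=
  ∀ (F : Type v) [AddCommGroup F] [Module k F] [Module S F] [IsScalarTower k S F]
    (M : Type y) [AddCommGroup M] [Module k M] [Module S M] [IsScalarTower k S M]
    [FiniteDimensional k M] (π : F →ₗ[S] M) (_ : Function.Surjective π)
    (A : Type w) [CommRing A] [IsDomain A] [Algebra S A] (h : F →ₗ[S] A) (s : F)
    (_ : ∀ j, π (f j • s) = 0)
    (_ : ¬ IntegralOver (Ideal.span (h '' (LinearMap.ker π : Set F))) (h s)),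
    (∀ i, m.choose i ≤ betti k f M i) ∧ QuotientBound k f (fun _ : Fin 1 => π s)

/-- Statement (3). -/
def IdealCriterion : Prop :=
  IsDomain S → ∀ (I : Ideal S), I ≠ ⊤ → FiniteDimensional k (S ⧸ I) →
    ((∀ j, ∃ N : ℕ, f j ^ N ∈ I) ∧ (∀ s, IntegralOver I s → s ∈ I) ∨
      ∃ s, (∀ j, f j * s ∈ I) ∧ ¬ IntegralOver I s) →
    ∀ i, m.choose i ≤ betti k f (S ⧸ I) i

/-- Statement (4). -/
def ProductBound : Prop :=
  IsDomain S → idealOf f ≠ ⊤ → ∀ (F : Type v) [AddCommGroup F] [Module k F] [Module S F]
    [IsScalarTower k S F] (U : Submodule S F) (r : ℕ) (x : Fin r → F), U.FG →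
    (∀ q, x q ∈ U) → LinearIndependent S x → FiniteDimensional k (F ⧸ (idealOf f • U)) →
    ∀ i, r * m.choose i ≤ betti k f (F ⧸ (idealOf f • U)) i

end

theorem result (k : Type u) [Field k] (S : Type z) [CommRing S] [Algebra k S] (m : ℕ)
    (f : Fin m → S) :
    RankBound.{u, v, z} k f ∧ ValuationCriterion.{u, v, w, y, z} k f ∧
      IntegralCriterion.{u, v, w, y, z} k f ∧ IdealCriterion k f ∧ ProductBound.{u, v, z} k f := by
  refine ⟨?_, ?_, ?_, ?_, ?_⟩
  · intro hreg hres M _ _ _ _ F _ _ d ε hF i
    have := hF.free
    have := hF.finite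
    exact betti_le hreg hres M F d ε hF.surj hF.exact_zero hF.exact i
  · intro F _ _ _ _ M _ _ _ _ _ π hπ K _ _ _ _ V hV r h s hs hf hL
    exact valuation_crit π hπ V hV h s hs hf hL
  · intro F _ _ _ _ M _ _ _ _ _ π hπ A _ _ _ h s hf hs
    obtain ⟨h1, h2⟩ := integral_crit (k := k) π hπ h s hf hs
    refine ⟨h1, fun M' _ _ _ _ ρ hρ hker => h2 M' ρ hρ fun x => ?_⟩
    rw [hker, Set.range_const]
  · intro _ I hI _ h i
    rcases h with ⟨h1, h2⟩ | ⟨s, h1, h2⟩
    · exact closed_crit I hI h1 h2 i
    · exact ideal_crit I s h1 h2 i
  · intro _ hf F _ _ _ _ U r x hU hx hli _ i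
    exact prod_ge hf F U hU x hx hli i

end Pool.Agent.Results.MP_e2ce73_al.NonIntegralSocle
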