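import Pool.Agent.Q60.ZGU.OnePow

/-!
# The conjugates of the Hodge classes on one power decide about all powers, for every single
# comparison isomorphism

Let `X` be a smooth projective complex variety with total Betti number `b`, `σ` an automorphism of
`ℂ`, and consider one comparison isomorphism (the de Rham one, with coefficients `L = ℂ`, or the
`ℓ`-adic one, with `L = ℚ_ℓ`), which maps the classes on `X ^ n` to classes on the conjugate variety
`X_σ ^ n`. Call `X` free of CM in the centre if the centre of the algebra of the endomorphisms of
`H(X)` given by Hodge classes on `X × X` is a product of totally real fields.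

* **Linear combinations.** Suppose that the conjugates of the Hodge classes on `X ^ N` are
  `L`-linear combinations of Hodge classes on `X_σ ^ N`. Then this is true for all powers of `X`.
  Here `N ≥ 4` if `X` is free of CM in the centre, and `N ≥ exp (64 b ^ (2/3) log (2 b))` in
  general.
* **The number field.** Suppose that `X` is free of CM in the centre and that the conjugates of the
  Hodge classes on `X ^ 4` are Hodge classes. Then there is one number field `F`, contained in `L`
  and of degree at most `4 ^ (b ^ 2)`, such that for all `n` the conjugates of the Hodge classes on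
  `X ^ n` are linear combinations of Hodge classes on `X_σ ^ n` with coefficients in `F`.
* **Hodge classes.** If the conjugates of the Hodge classes on `X ^ N` are Hodge classes, then this
  is true for all powers of `X`, where `N ≥ b ^ 3` if `X` is free of CM in the centre and
  `N ≥ exp (64 b ^ (2/3) log (2 b))` in general.
-/

open CategoryTheory AlgebraicGeometry

universe u

namespace Pool.Agent.Results.MP_e2e4f5_ag.OnePowerComparison

open Pool.Agent.H914
open Pool.Agent.Y121.AHS (HodgeTheory Conjugates)
open Pool.Agent.Q60.FI (Polarisable TotallyRealCentre)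
open Pool.Agent.Q60.CJ (Preserved PreservedWith DegreeAtMost)

variable {k : Type u} [Field k] {𝒱 : VarClass k} {ops : CycleOps 𝒱}

/-- The product of `n` copies of `X`, for `n ≥ 1`. -/
noncomputable def power (X : 𝒱.Obj) (n : ℕ) : 𝒱.Obj := Pool.Agent.Y133.Half.pw X (n - 1)

/-- **One comparison isomorphism**: `T` is the Hodge theory `X ↦ H(X, ℚ)`, `D.T' (D.t a)` is the
conjugate theory `X ↦ H(X_σ, ℚ)`, and `a` is the index of the comparison isomorphism. `power X n` is
the product of `n` copies of `X`. -/
theorem result (T : HodgeTheory ops) (D : Conjugates T) (a : D.J) (X : 𝒱.Obj)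
    [Nontrivial (T.W.H X)] (b : ℕ) (hb : Module.finrank T.W.K (T.W.H X) = b)
    (hX : Polarisable T X) (hX' : Polarisable (D.T' (D.t a)) X) :
    (∀ N : ℕ, (Real.exp (64 * (b : ℝ) ^ (2 / 3 : ℝ) * Real.log (2 * b)) ≤ N ∨
        4 ≤ N ∧ TotallyRealCentre T X) →
      PreservedWith D a Set.univ (power X N) → ∀ n, PreservedWith D a Set.univ (power X n)) ∧
    (TotallyRealCentre T X → Preserved D a (power X 4) →
      ∃ F : Subfield (D.L a), DegreeAtMost F (4 ^ b ^ 2) ∧
        ∀ n, PreservedWith D a F (power X n)) ∧
    (∀ N : ℕ, (Real.exp (64 * (b : ℝ) ^ (2 / 3 : ℝ) * Real.log (2 * b)) ≤ N ∨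
        b ^ 3 ≤ N ∧ TotallyRealCentre T X) →
      Preserved D a (power X N) → ∀ n, Preserved D a (power X n)) :=
  Pool.Agent.Q60.ZGU.one T D a X b hb hX hX'

end Pool.Agent.Results.MP_e2e4f5_ag.OnePowerComparison
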