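import Pool.Agent.Q138.PS.UV
import Pool.Agent.Q138.PS.UC
import Pool.Agent.Results.MP_e3f158_nt.AllTypesAtOnce
import Pool.Agent.Results.MP_e3f158_nt.UniformTypesAZero

/-!
# The assertion of the question for the numbers `⌊α P(i)⌋`

There is `c > 0` such that the following holds. Let `q ≥ 2`. Outside a set of real numbers of Hausdorff dimension at most
`q / (q + 1 / (q 2 ^ (q - 1)))` (that is `8 / 9` for `q = 2`) every `α > 0` has an `η > 0` such that for all large `N` and ALL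
integral polynomials `P` of degree `q` with positive leading coefficient and coefficients of size at most `N ^ η`:
(1) for at least `N exp (- 4 q √(log N) log log N)` of the `i ≤ N` the full assertion of the question holds for `n = ⌊α P(i)⌋`:
`2 n` has a representation of type `(a, b)` for ALL `a`, `b` with `f₂(a, b) ≤ n`;
(2) for at least `c N / log log N` of the `i ≤ N` it holds for ALL the types with `a = 0` or `b = 0`.
-/

set_option autoImplicit false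

namespace Pool.Agent.Results.MP_e3f158_nt.TypesAlongRealMultiples

open Finset Filter Topology
open Pool.Agent.Q138.PS
open Pool.Agent.Results.MP_e3f158_nt.AllTypesAtOnce (HasRep f₂)

/-- `2 n` has a representation of type `(a, b)` for all `a`, `b` in the set `S` with `f₂(a, b) ≤ n` -/
def Full (S : Set (ℕ × ℕ)) (n : ℕ) : Prop := ∀ a b : ℕ, (a, b) ∈ S → f₂ a b ≤ n → HasRep a b (2 * n)

open Classical in
/-- the number of the `1 ≤ i ≤ N` for which `⌊α P(i)⌋` is `Full S` -/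
noncomputable def count (S : Set (ℕ × ℕ)) (α : ℝ) (P : Polynomial ℤ) (N : ℕ) : ℕ :=
  ((Icc 1 N).filter fun i : ℕ => Full S ⌊α * ((P.eval (i : ℤ) : ℤ) : ℝ)⌋₊).card

theorem count_eq (S : Set (ℕ × ℕ)) (α : ℝ) (P : Polynomial ℤ) (N : ℕ) : (count S α P N : ℝ) = cnP (Full S) α P N := by
  classical
  unfold count cnP cn
  refine congrArg _ (congrArg _ ?_)
  ext n
  simp only [mem_filter]

theorem cn_ge (X : ℕ → Prop) (y : ℕ) : ({n : ℕ | n ≤ y ∧ X n}.ncard : ℝ) ≤ cn X y + 1 := by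
  rw [cn_ncard]
  have h3 : {n : ℕ | n ≤ y ∧ X n} ⊆ insert 0 {n : ℕ | 1 ≤ n ∧ n ≤ y ∧ X n} := by
    rintro n ⟨h1, h2⟩
    rcases Nat.eq_zero_or_pos n with h | h
    · exact Or.inl h
    · exact Or.inr ⟨h, h1, h2⟩
  have hfin : {n : ℕ | 1 ≤ n ∧ n ≤ y ∧ X n}.Finite := (Set.finite_Iic y).subset fun m hm => hm.2.1
  have h4 := (Set.ncard_le_ncard h3 (hfin.insert 0)).trans (Set.ncard_insert_le _ _)
  exact_mod_cast h4

theorem grow (q : ℕ) {η : ℝ} (hη : 0 < η) :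
    ∀ᶠ N : ℕ in atTop, √(L1 (((N ^ (q + 1) : ℕ) : ℝ) + BC)) * L2 (((N ^ (q + 1) : ℕ) : ℝ) + BC) ≤ η * L1 N := by
  have t1 : Tendsto (fun N : ℕ => L1 N) atTop atTop := Real.tendsto_log_atTop.comp tendsto_natCast_atTop_atTop
  set c : ℝ := η / (2 * √((q : ℝ) + 2)) with hc
  have hs : 0 < √((q : ℝ) + 2) := Real.sqrt_pos.2 (by positivity)
  have hc0 : 0 < c := by positivity
  have h2 := (isLittleO_log_rpow_atTop (show (0 : ℝ) < 1 / 2 by norm_num)).bound hc0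
  filter_upwards [t1.eventually h2, it_logs q] with N hN hlogs
  obtain ⟨hBN, e1, e2, -, -⟩ := hlogs
  have p1 : 0 < L1 (N : ℝ) := zero_lt_one.trans_le (L1_ge1 hBN)
  have p2 : 0 < L2 (N : ℝ) := zero_lt_one.trans_le (L2_ge1 hBN)
  have hB : BC ≤ (((N ^ (q + 1) : ℕ) : ℝ) + BC) := by
    have : (0 : ℝ) ≤ ((N ^ (q + 1) : ℕ) : ℝ) := Nat.cast_nonneg _
    linarith
  have p3 : 0 < L2 (((N ^ (q + 1) : ℕ) : ℝ) + BC) := zero_lt_one.trans_le (L2_ge1 hB)
  have h3 : L2 (N : ℝ) ≤ c * √(L1 (N : ℝ)) := by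
    rw [Real.norm_of_nonneg (show 0 ≤ Real.log (L1 (N : ℝ)) from p2.le), Real.norm_of_nonneg (by positivity),
      ← Real.sqrt_eq_rpow] at hN
    exact hN
  have h4 : √(L1 (((N ^ (q + 1) : ℕ) : ℝ) + BC)) ≤ √((q : ℝ) + 2) * √(L1 (N : ℝ)) := by
    rw [← Real.sqrt_mul (by positivity)]
    exact Real.sqrt_le_sqrt e1
  calc √(L1 (((N ^ (q + 1) : ℕ) : ℝ) + BC)) * L2 (((N ^ (q + 1) : ℕ) : ℝ) + BC)
      ≤ (√((q : ℝ) + 2) * √(L1 (N : ℝ))) * (2 * (c * √(L1 (N : ℝ)))) := by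
        gcongr
        exact e2.trans (by gcongr)
    _ = η * (√(L1 (N : ℝ)) * √(L1 (N : ℝ))) := by
        rw [hc]
        field_simp
    _ = η * L1 N := by rw [Real.mul_self_sqrt p1.le]

/-- the weight of the first part -/
noncomputable def G (y : ℝ) : ℝ := Real.exp (√(L1 (y + BC)) * L2 (y + BC))

theorem many1 : ∀ᶠ y : ℕ in atTop, 1 / (2 * G y) * y ≤ cn (Full Set.univ) y := by
  filter_upwards [Pool.Agent.Results.MP_e3f158_nt.AllTypesAtOnce.result,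
    tendsto_natCast_atTop_atTop.eventually_ge_atTop BC, grow 0 (show (0 : ℝ) < 1 / 2 by norm_num),
    tendsto_natCast_atTop_atTop.eventually_ge_atTop (4 : ℝ)] with y hy hB hg h4
  have hXy : (y : ℝ) ≤ y + BC := by
    have := BC_pos
    linarith
  have hy0 : (0 : ℝ) < y := BC_pos.trans_le hB
  have h1 := L1_mono hB hXy
  have h2 := L2_mono hB hXy
  have p2 : 0 < L2 (y : ℝ) := zero_lt_one.trans_le (L2_ge1 hB)
  have e1 : (((y ^ (0 + 1) : ℕ) : ℝ) + BC) = (y : ℝ) + BC := by simp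
  rw [e1] at hg
  have h5 : G y ≤ √(y : ℝ) := by
    unfold G
    rw [← Real.le_log_iff_exp_le (by positivity), Real.log_sqrt hy0.le]
    refine hg.trans (le_of_eq ?_)
    unfold L1
    ring
  have h6 : 2 ≤ √(y : ℝ) := by
    rw [show (2 : ℝ) = √4 by rw [show (4 : ℝ) = 2 ^ 2 by norm_num, Real.sqrt_sq (by norm_num)]]
    exact Real.sqrt_le_sqrt h4
  have hG : 0 < G y := Real.exp_pos _
  have h7 : 1 ≤ 1 / (2 * G y) * y := by
    rw [one_div_mul_eq_div, le_div_iff₀ (by positivity)]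
    have h8 := Real.mul_self_sqrt hy0.le
    nlinarith
  have h8 : 1 / G y * y ≤ (y : ℝ) * Real.exp (-(√(Real.log y) * Real.log (Real.log y))) := by
    rw [Real.exp_neg, one_div, mul_comm]
    have h9 : Real.exp (√(Real.log y) * Real.log (Real.log y)) ≤ G y := by
      unfold G
      refine Real.exp_le_exp.2 ?_
      show √(L1 (y : ℝ)) * L2 (y : ℝ) ≤ _
      gcongr
    gcongr
  have h9 : ({n : ℕ | n ≤ y ∧ ∀ a b : ℕ, f₂ a b ≤ n → HasRep a b (2 * n)}.ncard : ℝ) ≤ cn (Full Set.univ) y + 1 := by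
    have e2 : {n : ℕ | n ≤ y ∧ ∀ a b : ℕ, f₂ a b ≤ n → HasRep a b (2 * n)} = {n : ℕ | n ≤ y ∧ Full Set.univ n} := by
      ext n
      simp only [Set.mem_setOf_eq, Full, Set.mem_univ, true_implies]
    rw [e2]
    exact cn_ge _ _
  have h10 : 1 / G y * y = 1 / (2 * G y) * y + 1 / (2 * G y) * y := by
    field_simp
    ring
  linarith

theorem many2 : ∃ κ : ℝ, 0 < κ ∧ κ ≤ 1 ∧
    ∀ᶠ y : ℕ in atTop, κ / L2 ((y : ℝ) + BC) * y ≤ cn (Full {s | s.1 = 0 ∨ s.2 = 0}) y := by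
  obtain ⟨-, c, hc, h⟩ := Pool.Agent.Results.MP_e3f158_nt.UniformTypesAZero.result
  refine ⟨min (c / 2) 1, by positivity, min_le_right _ _, ?_⟩
  filter_upwards [h, tendsto_natCast_atTop_atTop.eventually_ge_atTop BC, log_small 0 1 (show (0 : ℝ) < c / 2 by positivity)
    (show (0 : ℝ) < 1 / 2 by norm_num), tendsto_natCast_atTop_atTop.eventually_ge_atTop (4 : ℝ)] with y hy hB hs h4
  have hXy : (y : ℝ) ≤ y + BC := by
    have := BC_pos
    linarith
  have hy0 : (0 : ℝ) < y := BC_pos.trans_le hB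
  have hB' : BC ≤ (y : ℝ) + BC := hB.trans hXy
  have h2 := L2_mono hB hXy
  have p2 : 0 < L2 (y : ℝ) := zero_lt_one.trans_le (L2_ge1 hB)
  have p3 : 0 < L2 ((y : ℝ) + BC) := zero_lt_one.trans_le (L2_ge1 hB')
  have p4 : 0 < L1 ((y : ℝ) + BC) := zero_lt_one.trans_le (L1_ge1 hB')
  have e1 : (((y ^ (0 + 1) : ℕ) : ℝ) + BC) = (y : ℝ) + BC := by simp
  rw [e1, pow_one] at hs
  have h5 : 1 ≤ c / 2 / L2 ((y : ℝ) + BC) * y := by
    have h6 : c / 2 / L1 ((y : ℝ) + BC) ≤ c / 2 / L2 ((y : ℝ) + BC) := by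
      have := L2_le hB'
      gcongr
    have h7 : (y : ℝ) ^ (-(1 / 2) : ℝ) * y = √(y : ℝ) := by
      rw [Real.sqrt_eq_rpow]
      nth_rewrite 2 [← Real.rpow_one (y : ℝ)]
      rw [← Real.rpow_add hy0]
      norm_num
    have h8 : (1 : ℝ) ≤ √(y : ℝ) := by
      rw [Real.one_le_sqrt]
      linarith
    calc (1 : ℝ) ≤ (y : ℝ) ^ (-(1 / 2) : ℝ) * y := by rw [h7]; exact h8
      _ ≤ c / 2 / L2 ((y : ℝ) + BC) * y := by
        gcongr
        exact hs.trans h6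
  have h6 : c / L2 ((y : ℝ) + BC) * y ≤ c * (y / Real.log (Real.log y)) := by
    calc c / L2 ((y : ℝ) + BC) * y ≤ c / L2 (y : ℝ) * y := by gcongr
      _ = c * (y / L2 (y : ℝ)) := by ring
  have h7 : ({n : ℕ | n ≤ y ∧ ∀ a b : ℕ, a = 0 ∨ b = 0 →
      Pool.Agent.Results.MP_e3f158_nt.UniformTypesAZero.f₂ a b ≤ n →
      Pool.Agent.Results.MP_e3f158_nt.UniformTypesAZero.HasRep a b (2 * n)}.ncard : ℝ) ≤
      cn (Full {s | s.1 = 0 ∨ s.2 = 0}) y + 1 := cn_ge (Full {s | s.1 = 0 ∨ s.2 = 0}) y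
  have h8 : min (c / 2) 1 / L2 ((y : ℝ) + BC) * y ≤ c / 2 / L2 ((y : ℝ) + BC) * y := by
    gcongr
    exact min_le_left _ _
  have h9 : c / L2 ((y : ℝ) + BC) * y = c / 2 / L2 ((y : ℝ) + BC) * y + c / 2 / L2 ((y : ℝ) + BC) * y := by ring
  linarith

/-- **Theorem.** -/
theorem result :
    ∃ c : ℝ, 0 < c ∧ ∀ q : ℕ, 2 ≤ q →
    ∃ E : Set ℝ, dimH E ≤ ENNReal.ofReal (q / (q + 1 / ((q : ℝ) * 2 ^ (q - 1)))) ∧ ∀ α : ℝ, 0 < α → α ∉ E →
      ∃ η : ℝ, 0 < η ∧ ∀ᶠ N : ℕ in atTop, ∀ P : Polynomial ℤ, P.natDegree = q → 0 < P.leadingCoeff →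
        (∀ j, |((P.coeff j : ℤ) : ℝ)| ≤ (N : ℝ) ^ η) →
        N * Real.exp (-(4 * q * (√(Real.log N) * Real.log (Real.log N)))) ≤ (count Set.univ α P N : ℝ) ∧
        c * (N / Real.log (Real.log N)) ≤ (count {s | s.1 = 0 ∨ s.2 = 0} α P N : ℝ) := by
  obtain ⟨κ, hκ, hκ1, h⟩ := many2
  refine ⟨κ / 4, by positivity, fun q hq => ?_⟩
  have hB : ∀ y : ℕ, BC ≤ (y : ℝ) + BC := fun y => by
    have : (0 : ℝ) ≤ y := Nat.cast_nonneg y
    linarith
  have hG1 : ∀ y : ℕ, 1 ≤ G y := fun y => by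
    unfold G
    have h1 := L2_ge1 (hB y)
    refine Real.one_le_exp ?_
    positivity
  obtain ⟨E1, hE1, hg1⟩ := low_slow (ι := Unit) q hq (fun _ => Full Set.univ) (fun _ y => 1 / (2 * G y))
    (fun _ y => by have := hG1 y; positivity) (fun _ y => by
      have := hG1 y
      rw [div_le_one (by positivity)]
      linarith) (fun _ a b hab => by
      have hab' : (a : ℝ) + BC ≤ (b : ℝ) + BC := by
        have : (a : ℝ) ≤ b := by exact_mod_cast hab
        linarith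
      have h1 := L1_mono (hB a) hab'
      have h2 := L2_mono (hB a) hab'
      have p2 : 0 < L2 ((a : ℝ) + BC) := zero_lt_one.trans_le (L2_ge1 (hB a))
      have h3 : G (a : ℝ) ≤ G (b : ℝ) := by
        unfold G
        refine Real.exp_le_exp.2 ?_
        gcongr
      have h4 := hG1 a
      show 1 / (2 * G (b : ℝ)) ≤ 1 / (2 * G (a : ℝ))
      gcongr) (fun _ η hη => by
      have hrp : Tendsto (fun N : ℕ => (N : ℝ) ^ (η / 2)) atTop atTop :=
        (tendsto_rpow_atTop (by positivity)).comp tendsto_natCast_atTop_atTop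
      filter_upwards [grow q (show 0 < η / 2 by positivity), hrp.eventually_ge_atTop 2, eventually_ge_atTop 1]
        with N hN h2 hN1
      have hN0 : (0 : ℝ) < N := by exact_mod_cast hN1
      have h3 : G ((N ^ (q + 1) : ℕ) : ℝ) ≤ (N : ℝ) ^ (η / 2) := by
        unfold G
        rw [← Real.le_log_iff_exp_le (by positivity), Real.log_rpow hN0]
        exact hN
      have h4 := hG1 (N ^ (q + 1))
      rw [Real.rpow_neg hN0.le, ← one_div]
      have h5 : (N : ℝ) ^ η = (N : ℝ) ^ (η / 2) * (N : ℝ) ^ (η / 2) := by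
        rw [← Real.rpow_add hN0]
        congr 1
        ring
      rw [h5]
      gcongr) (fun _ => many1)
  obtain ⟨E2, hE2, hg2⟩ := low_slow (ι := Unit) q hq (fun _ => Full {s | s.1 = 0 ∨ s.2 = 0})
    (fun _ y => κ / L2 ((y : ℝ) + BC))
    (fun _ y => by
      have := L2_ge1 (hB y)
      positivity) (fun _ y => by
      have h1 := L2_ge1 (hB y)
      rw [div_le_one (by positivity)]
      linarith) (fun _ a b hab => by
      have hab' : (a : ℝ) + BC ≤ (b : ℝ) + BC := by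
        have : (a : ℝ) ≤ b := by exact_mod_cast hab
        linarith
      have h2 := L2_mono (hB a) hab'
      have p2 : 0 < L2 ((a : ℝ) + BC) := zero_lt_one.trans_le (L2_ge1 (hB a))
      show κ / L2 ((b : ℝ) + BC) ≤ κ / L2 ((a : ℝ) + BC)
      gcongr) (fun _ η hη => by
      filter_upwards [log_small q 1 hκ hη] with N hN
      refine hN.trans ?_
      rw [pow_one]
      have hBN := hB (N ^ (q + 1))
      have h2 := L2_ge1 hBN
      have h4 := L2_le hBN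
      gcongr) (fun _ => h)
  refine ⟨E1 ∪ E2, ?_, fun α hα hαE => ?_⟩
  · rw [dimH_union]
    exact max_le hE1 hE2
  obtain ⟨η1, hη1, hN1⟩ := hg1 α hα (fun h => hαE (Or.inl h)) ()
  obtain ⟨η2, hη2, hN2⟩ := hg2 α hα (fun h => hαE (Or.inr h)) ()
  refine ⟨min η1 η2, lt_min hη1 hη2, ?_⟩
  filter_upwards [hN1, hN2, it_logs q, eventually_ge_atTop 1] with N g1 g2 hlogs hN1
  intro P hdeg hlead hco
  have hNr : (1 : ℝ) ≤ N := by exact_mod_cast hN1
  have hN0 : (0 : ℝ) < N := by linarith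
  obtain ⟨hBN, e1, e2, -, -⟩ := hlogs
  have hBN' := hB (N ^ (q + 1))
  have p1 : 1 ≤ L1 (N : ℝ) := L1_ge1 hBN
  have p2 : 1 ≤ L2 (N : ℝ) := L2_ge1 hBN
  have p3 : 1 ≤ L2 (((N ^ (q + 1) : ℕ) : ℝ) + BC) := L2_ge1 hBN'
  constructor
  · rw [count_eq]
    refine le_trans ?_ (g1 P hdeg hlead fun j => (hco j).trans (Real.rpow_le_rpow_of_exponent_le hNr (min_le_left _ _)))
    have hq0 : (2 : ℝ) ≤ q := by exact_mod_cast hq
    have h4 : √(L1 (((N ^ (q + 1) : ℕ) : ℝ) + BC)) ≤ q * √(L1 (N : ℝ)) := by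
      have h5 : √((q : ℝ) + 2) ≤ q := by
        rw [Real.sqrt_le_left (by linarith)]
        nlinarith
      calc √(L1 (((N ^ (q + 1) : ℕ) : ℝ) + BC)) ≤ √(((q : ℝ) + 2) * L1 N) := Real.sqrt_le_sqrt e1
        _ = √((q : ℝ) + 2) * √(L1 (N : ℝ)) := Real.sqrt_mul (by positivity) _
        _ ≤ q * √(L1 (N : ℝ)) := by gcongr
    have h5 : √(L1 (((N ^ (q + 1) : ℕ) : ℝ) + BC)) * L2 (((N ^ (q + 1) : ℕ) : ℝ) + BC) ≤
        2 * q * (√(L1 (N : ℝ)) * L2 N) := by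
      calc √(L1 (((N ^ (q + 1) : ℕ) : ℝ) + BC)) * L2 (((N ^ (q + 1) : ℕ) : ℝ) + BC) ≤
            (q * √(L1 (N : ℝ))) * (2 * L2 N) := by gcongr
        _ = _ := by ring
    have hsq : 1 ≤ √(L1 (N : ℝ)) := by
      rw [Real.one_le_sqrt]
      exact p1
    have h6 : 1 ≤ √(L1 (N : ℝ)) * L2 N := by nlinarith
    have h7 : 4 ≤ 2 * q * (√(L1 (N : ℝ)) * L2 N) := by nlinarith
    have h8 : (4 : ℝ) ≤ Real.exp (2 * q * (√(L1 (N : ℝ)) * L2 N)) := by
      have := Real.add_one_le_exp (2 * q * (√(L1 (N : ℝ)) * L2 N))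
      linarith
    have h9 : 4 * G ((N ^ (q + 1) : ℕ) : ℝ) ≤ Real.exp (4 * q * (√(L1 (N : ℝ)) * L2 N)) := by
      have h10 : G ((N ^ (q + 1) : ℕ) : ℝ) ≤ Real.exp (2 * q * (√(L1 (N : ℝ)) * L2 N)) := Real.exp_le_exp.2 h5
      have e3 : Real.exp (4 * q * (√(L1 (N : ℝ)) * L2 N)) =
          Real.exp (2 * q * (√(L1 (N : ℝ)) * L2 N)) * Real.exp (2 * q * (√(L1 (N : ℝ)) * L2 N)) := by
        rw [← Real.exp_add]
        congr 1
        ring
      rw [e3]
      have := hG1 (N ^ (q + 1))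
      gcongr
    show (N : ℝ) * Real.exp (-(4 * q * (√(L1 (N : ℝ)) * L2 N))) ≤ 1 / (2 * G ((N ^ (q + 1) : ℕ) : ℝ)) / 2 * N
    rw [Real.exp_neg]
    have h11 := hG1 (N ^ (q + 1))
    have e4 : 1 / (2 * G ((N ^ (q + 1) : ℕ) : ℝ)) / 2 * N = N * (4 * G ((N ^ (q + 1) : ℕ) : ℝ))⁻¹ := by
      field_simp
      ring
    rw [e4]
    gcongr
  · rw [count_eq]
    refine le_trans ?_ (g2 P hdeg hlead fun j => (hco j).trans (Real.rpow_le_rpow_of_exponent_le hNr (min_le_right _ _)))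
    show κ / 4 * (N / L2 (N : ℝ)) ≤ κ / L2 (((N ^ (q + 1) : ℕ) : ℝ) + BC) / 2 * N
    have h3 : κ / (2 * L2 (N : ℝ)) ≤ κ / L2 (((N ^ (q + 1) : ℕ) : ℝ) + BC) := by gcongr
    calc κ / 4 * (N / L2 (N : ℝ)) = κ / (2 * L2 (N : ℝ)) / 2 * N := by
          field_simp
          ring
      _ ≤ _ := by gcongr

end Pool.Agent.Results.MP_e3f158_nt.TypesAlongRealMultiples
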