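import Mathlib
import Pool.Agent.Q158.EqD.TransAff

/-!
# The numbers `π ^ a t ^ b` and `t + a π` look transcendental at every finite scale, outside one line

Let `D_N(y)` be the discrepancy of the numbers `y, 2 y, …, N y` modulo one; `y` is rational if and
only if `D_N(y)` does not tend to zero, and `y` is transcendental if and only if `D_N(P(y)) → 0` for
every nonconstant `P ∈ ℤ[X]`. We say that `y` looks transcendental at the scale `N` (with the
parameters `d, κ, K`) if for all nonconstant `P ∈ ℤ[X]` of degree at most `d` with coefficients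
at most `N ^ κ` one has `D_M(P(y)) ≤ K N ^ (-κ)` for ALL `M ≥ N`.

Let `t` be a positive number, for instance `ζ(3)` or Euler's constant `γ`. As `π` is transcendental,
the exponents `(a, b)` for which `π ^ a t ^ b` is algebraic lie on one line through the origin,
different from the axis `b = 0`. We prove that this holds at every finite scale, uniformly in `t`: for
all `d`, `k` and `0 < τ ≤ T` there are `κ, K > 0` such that for all `t ∈ [τ, T]` and
EVERY `N ≥ 1` there is a line `ℤ (a₀, b₀)`, `b₀ ≠ 0`, such that all the numbers `π ^ a t ^ b` with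
`|a|, |b| ≤ k` and `(a, b)` outside the line look transcendental at the scale `N`.

So for every `N` all the numbers `ζ(3) π ^ m`, `|m| ≤ k`, with at most one exception look transcendental
at the scale `N`, and in particular one of the numbers `ζ(3)` and `ζ(3) π ^ (-3)` of the problem; the
same holds for `γ π ^ m`.

The numbers `t + a π`: for all `d` and `T` there are `κ, K > 0` such that for all real `t` with
`|t| ≤ T` and EVERY `N ≥ 1` there is at most one rational number `a` with numerator and denominator at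
most `N ^ κ` for which `t + a π` does not look transcendental at the scale `N`.

Proof. If `D_M(P(y)) > δ` for `y = π ^ a t ^ b`, then `P(y)` has a rational approximation with a
denominator `≤ 12 / δ` and the error at most `16 / (δ M)`. This gives a polynomial in
`ℤ[X, Y]` with a very small value at `(π, t)`, and so an irreducible factor `f` with a very small value.
By the transcendence measure of `π` such a factor contains `Y`, and two factors which are not
proportional have a resultant, a polynomial in `X`, which is too small at `π`. Let `y₀` be a root of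
`f(X, Y)` in an algebraic closure of `ℚ(X)`; then `X ^ a y₀ ^ b` is an algebraic number for all
the exceptional exponents, and two such exponents which are not proportional would make `X` algebraic.
Similarly `y₀ + a X` is algebraic for all the exceptional `a`.
-/

set_option autoImplicit false

open Real Polynomial

namespace Pool.Agent.Results.MP_e48a95_nt.AtEveryScale

noncomputable section

/-- The number of the `n`, `1 ≤ n ≤ N`, for which the fractional part of `n x` lies in `[a, b)`. -/
def count (x : ℝ) (N : ℕ) (a b : ℝ) : ℕ :=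
  ((Finset.Icc 1 N).filter fun n : ℕ => a ≤ Int.fract (n * x) ∧ Int.fract (n * x) < b).card

/-- The discrepancy of `x, 2 x, …, N x` modulo one: the supremum over the intervals
`[a, b) ⊆ [0, 1)` of the difference between the proportion of the `n ≤ N` with `n x` in `[a, b)`
modulo one and the length of the interval. -/
def discrepancy (x : ℝ) (N : ℕ) : ℝ :=
  sSup {d | ∃ a b : ℝ, 0 ≤ a ∧ a ≤ b ∧ b ≤ 1 ∧ d = |(count x N a b : ℝ) / N - (b - a)|}

/-- `y` looks transcendental at the scale `N`: the discrepancies of `P(y)` are at most `K N ^ (-κ)`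
at all scales `M ≥ N` for all nonconstant integer polynomials of degree at most `d` with
coefficients at most `N ^ κ`. -/
def LooksTranscendental (d : ℕ) (κ K : ℝ) (N : ℕ) (y : ℝ) : Prop :=
  ∀ P : ℤ[X], 0 < P.natDegree → P.natDegree ≤ d → (∀ i, |(P.coeff i : ℝ)| ≤ (N : ℝ) ^ κ) →
    ∀ M : ℕ, N ≤ M → discrepancy (aeval y P) M ≤ K * (N : ℝ) ^ (-κ)

/-- At every scale all the numbers `π ^ a t ^ b` with exponents at most `k` outside one line, which
is not the axis `b = 0`, look transcendental. -/
def OneLine (d k : ℕ) (κ K t : ℝ) : Prop :=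
  ∀ N : ℕ, 0 < N → ∃ a₀ b₀ : ℤ, b₀ ≠ 0 ∧ ∀ a b : ℤ, |a| ≤ k → |b| ≤ k → a * b₀ ≠ b * a₀ →
    LooksTranscendental d κ K N (π ^ a * t ^ b)

/-- At every scale all the numbers `t π ^ m` with `|m| ≤ k` with at most one exception look
transcendental. -/
def OneException (d k : ℕ) (κ K t : ℝ) : Prop :=
  ∀ N : ℕ, 0 < N → ∃ m₀ : ℤ, ∀ m : ℤ, |m| ≤ k → m ≠ m₀ → LooksTranscendental d κ K N (t * π ^ m)

theorem OneLine.exception {d k : ℕ} {κ K t : ℝ} (hk : 1 ≤ k) (h : OneLine d k κ K t) :
    OneException d k κ K t := by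
  intro N hN
  obtain ⟨a₀, b₀, hb, h1⟩ := h N hN
  refine ⟨a₀ / b₀, fun m hm hne => ?_⟩
  have h2 := h1 m 1 hm (by simpa using hk) (by
    intro h3
    apply hne
    rw [one_mul] at h3
    rw [← h3]
    exact (Int.mul_ediv_cancel m hb).symm)
  rwa [zpow_one, mul_comm] at h2

/-- At every scale there is at most one rational number `a` with numerator and denominator at most
`N ^ κ` for which `t + a π` does not look transcendental. -/
def OneSlope (d : ℕ) (κ K t : ℝ) : Prop :=
  ∀ N : ℕ, 0 < N → ∃ a₀ : ℚ, ∀ a : ℚ, |(a.num : ℝ)| ≤ (N : ℝ) ^ κ → (a.den : ℝ) ≤ (N : ℝ) ^ κ →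
    a ≠ a₀ → LooksTranscendental d κ K N (t + a * π)

theorem slopes : ∀ (d : ℕ) (T : ℝ), ∃ κ K : ℝ, 0 < κ ∧ 0 < K ∧ ∀ t : ℝ, |t| ≤ T →
    OneSlope d κ K t := by
  intro d T
  obtain ⟨κ, K, h1, h2, h3⟩ := Pool.Agent.Q158.EqD.aff π Pool.Agent.Q158.EqD.measR_pi T d
  refine ⟨κ, K, h1, h2, fun t ht N hN => ?_⟩
  obtain ⟨a₀, h4⟩ := h3 t ht N hN
  exact ⟨a₀, fun a ha1 ha2 hne P hP0 hPd hPc M hM => h4 a ha1 ha2 hne P hP0 hPd hPc M hM⟩

/-- `ζ(3)` -/
def zeta3 : ℝ := ∑' n : ℕ, 1 / ((n : ℝ) + 1) ^ 3

theorem result :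
    (∀ (d k : ℕ) (τ T : ℝ), 0 < τ → ∃ κ K : ℝ, 0 < κ ∧ 0 < K ∧ ∀ t : ℝ, τ ≤ t → t ≤ T →
      OneLine d k κ K t) ∧
    -- the constants of the problem
    (∀ d k : ℕ, ∃ κ K : ℝ, 0 < κ ∧ 0 < K ∧
      OneLine d k κ K zeta3 ∧ OneException d k κ K zeta3 ∧
      OneLine d k κ K Real.eulerMascheroniConstant ∧
      OneException d k κ K Real.eulerMascheroniConstant) ∧
    -- the numbers `t + a π`
    (∀ (d : ℕ) (T : ℝ), ∃ κ K : ℝ, 0 < κ ∧ 0 < K ∧ ∀ t : ℝ, |t| ≤ T → OneSlope d κ K t) ∧
    -- a number is transcendental exactly if the discrepancies of all values tend to zero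
    (∀ y : ℝ, Transcendental ℚ y ↔ ∀ P : ℤ[X], 0 < P.natDegree →
      Filter.Tendsto (fun N : ℕ => discrepancy (aeval y P) N) Filter.atTop (nhds 0)) := by
  have h1 : ∀ (d k : ℕ) (τ T : ℝ), 0 < τ → ∃ κ K : ℝ, 0 < κ ∧ 0 < K ∧ ∀ t : ℝ, τ ≤ t → t ≤ T →
      OneLine d k κ K t := by
    intro d k τ T hτ
    obtain ⟨κ, K, h1, h2, h3⟩ := Pool.Agent.Q158.EqD.mono_any π Pool.Agent.Q158.EqD.measR_pi pi_pos
      τ T hτ d k
    refine ⟨κ, K, h1, h2, fun t ht0 htT N hN => ?_⟩
    obtain ⟨a₀, b₀, hb, h4⟩ := h3 t ht0 htT N hN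
    exact ⟨a₀, b₀, hb, fun a b ha hb' hne P hP0 hPd hPc M hM => h4 a b ha hb' hne P hP0 hPd hPc M hM⟩
  refine ⟨h1, ?_, slopes, Pool.Agent.Q158.EqD.trans_iff⟩
  intro d k
  have hz : 0 < zeta3 := by
    have hs : Summable fun n : ℕ => 1 / ((n : ℝ) + 1) ^ 3 := by
      have := (summable_nat_add_iff 1).2 (Real.summable_one_div_nat_pow.2 (by norm_num : 1 < 3))
      simpa using this
    exact hs.tsum_pos (fun n => by positivity) 0 (by norm_num)
  have hg : 0 < Real.eulerMascheroniConstant := by
    have := Real.one_half_lt_eulerMascheroniConstant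
    linarith
  obtain ⟨κ, K, h2, h3, h4⟩ := h1 d (k + 1) (min zeta3 Real.eulerMascheroniConstant)
    (max zeta3 Real.eulerMascheroniConstant) (lt_min hz hg)
  have mono : ∀ t, OneLine d (k + 1) κ K t → OneLine d k κ K t := by
    intro t h N hN
    obtain ⟨a₀, b₀, hb, h5⟩ := h N hN
    exact ⟨a₀, b₀, hb, fun a b h6 h7 => h5 a b (by push_cast; omega) (by push_cast; omega)⟩
  have mono' : ∀ t, OneException d (k + 1) κ K t → OneException d k κ K t := by
    intro t h N hN
    obtain ⟨m₀, h5⟩ := h N hN
    exact ⟨m₀, fun m h6 => h5 m (by push_cast; omega)⟩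
  have ha := h4 _ (min_le_left _ _) (le_max_left _ _)
  have hb := h4 _ (min_le_right _ _) (le_max_right _ _)
  exact ⟨κ, K, h2, h3, mono _ ha, mono' _ (ha.exception (by omega)), mono _ hb,
    mono' _ (hb.exception (by omega))⟩

end

end Pool.Agent.Results.MP_e48a95_nt.AtEveryScale
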