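import Pool.Agent.Q149.BDReal

/-!
# The Boolean dimension of an antichain plus `n` points

`f n`, the maximum Boolean dimension of a poset which is an antichain plus `n` points, is
`n / log₂ n + O(n / (log₂ n)²)`.
-/

set_option autoImplicit false

namespace Pool.Agent.Results.MP_e52733_co.Asymptotics

open Finset

open Classical in
/-- `X` has a Boolean realizer of size `d`: there are `d` linear orders `L i` on `X` and a function
`τ : {0,1}^d → {0,1}` such that for distinct `x`, `y` one has `x < y` in the poset `X` if and only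
if `τ` is `1` at the vector whose `i`-th entry is `1` if and only if `x < y` in `L i`. -/
def HasBooleanRealizer (X : Type) [PartialOrder X] (d : ℕ) : Prop :=
  ∃ (L : Fin d → LinearOrder X) (τ : (Fin d → Bool) → Bool),
    ∀ x y : X, x ≠ y → (x < y ↔ τ (fun i => decide ((L i).lt x y)) = true)

/-- The Boolean dimension: the least `d ≥ 1` such that there is a Boolean realizer of size `d`. -/
noncomputable def bdim (X : Type) [PartialOrder X] : ℕ := sInf {d | 1 ≤ d ∧ HasBooleanRealizer X d}

/-- `X` is an antichain plus `n` points: outside some set `B` of `n` elements there are no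
comparable elements. -/
def IsAntichainPlus (X : Type) [PartialOrder X] (n : ℕ) : Prop :=
  ∃ B : Finset X, B.card = n ∧ ∀ x y, x ∉ B → y ∉ B → ¬ x < y

/-- The Boolean dimensions of the finite posets which are an antichain plus `n` points. -/
def dims (n : ℕ) : Set ℕ :=
  {d | ∃ (X : Type) (_ : Fintype X) (_ : PartialOrder X), IsAntichainPlus X n ∧ bdim X = d}

/-- The maximum Boolean dimension of a poset which is an antichain plus `n` points. -/
noncomputable def f (n : ℕ) : ℕ := sSup (dims n)

theorem of_prop (X : Type) [PartialOrder X] (d : ℕ)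
    (h : Q149.BDPoset.HasBooleanRealizer X d) : HasBooleanRealizer X d := by
  classical
  obtain ⟨L, τ, hτ⟩ := h
  refine ⟨L, fun v => decide (τ (fun i => v i = true)), ?_⟩
  intro x y hxy
  rw [hτ x y hxy, decide_eq_true_iff]
  have : (fun i => (L i).lt x y) = (fun i => decide ((L i).lt x y) = true) := by
    funext i
    exact propext (decide_eq_true_iff).symm
  rw [this]

theorem upper_all (X : Type) [Fintype X] [PartialOrder X] (n : ℕ) (h : IsAntichainPlus X n) :
    HasBooleanRealizer X (4 + (n + (n + (n + (n + 0))))) := by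
  obtain ⟨B, hB, hA⟩ := h
  apply of_prop
  apply Q149.BDReal.realizer X B hA n n n 1 0 2 hB (Nat.lt_two_pow_self).le (by norm_num)
    (fun _ _ => 0) (fun _ b v => v b)
  intro D
  refine ⟨0, fun i => if D i = true then 1 else 0, ?_⟩
  intro b
  show decide ((0 : Fin 2) < if D b = true then 1 else 0) = D b
  by_cases hb : D b = true
  · rw [if_pos hb, hb]
    rfl
  · rw [if_neg hb]
    rw [Bool.not_eq_true] at hb
    rw [hb]
    rfl

theorem upper_big (X : Type) [Fintype X] [PartialOrder X] (n l : ℕ) (h : IsAntichainPlus X n)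
    (hl : 26 ≤ l) (hn1 : 2 ^ l ≤ n) (hn2 : n < 2 ^ (l + 1)) :
    HasBooleanRealizer X (4 + ((l + 1) + ((l + 1) + ((l + 1) + (((n + 2) / (l - 6) + 1) +
      (l + 1)))))) := by
  obtain ⟨B, hB, hA⟩ := h
  have hk : n + 2 ≤ (l - 6) * ((n + 2) / (l - 6) + 1) := by
    have := Nat.lt_mul_div_succ (n + 2) (show 0 < l - 6 by omega)
    omega
  obtain ⟨r, g, hg⟩ := Q149.BDNum.code n ((n + 2) / (l - 6) + 1) l hl hn1 hn2 hk
  exact of_prop X _ (Q149.BDReal.realizer X B hA n (l + 1) _ (n + 1) (l + 1) (2 ^ l) hB hn2.le hn2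
    r g hg)

/-- The points and the words. -/
def Pt (n : ℕ) : Type := Fin n ⊕ (Fin n → Bool)

instance (n : ℕ) : Fintype (Pt n) := inferInstanceAs (Fintype (Fin n ⊕ (Fin n → Bool)))

instance (n : ℕ) : DecidableEq (Pt n) := inferInstanceAs (DecidableEq (Fin n ⊕ (Fin n → Bool)))

def Pt.pt {n : ℕ} (b : Fin n) : Pt n := Sum.inl b

def Pt.wd {n : ℕ} (D : Fin n → Bool) : Pt n := Sum.inr D

theorem Pt.pt_ne {n : ℕ} (b : Fin n) (D : Fin n → Bool) : Pt.pt b ≠ Pt.wd D :=
  fun h => Sum.inl_ne_inr h

/-- A point is below the words in which its entry is `1`. -/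
instance (n : ℕ) : PartialOrder (Pt n) where
  le x y := x = y ∨ ∃ b D, x = Pt.pt b ∧ y = Pt.wd D ∧ D b = true
  le_refl x := Or.inl rfl
  le_trans x y z hxy hyz := by
    rcases hxy with rfl | ⟨b, D, h1, h2, h3⟩
    · exact hyz
    · rcases hyz with rfl | ⟨b', D', h1', h2', h3'⟩
      · exact Or.inr ⟨b, D, h1, h2, h3⟩
      · exact absurd (h1'.symm.trans h2) (Pt.pt_ne b' D)
  le_antisymm x y hxy hyx := by
    rcases hxy with h | ⟨b, D, h1, h2, h3⟩
    · exact h
    · rcases hyx with h | ⟨b', D', h1', h2', h3'⟩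
      · exact h.symm
      · exact absurd (h1'.symm.trans h2) (Pt.pt_ne b' D)

theorem Pt.lt_iff {n : ℕ} (x y : Pt n) :
    x < y ↔ ∃ b D, x = Pt.pt b ∧ y = Pt.wd D ∧ D b = true := by
  rw [lt_iff_le_and_ne]
  constructor
  · rintro ⟨h | h, hne⟩
    · exact absurd h hne
    · exact h
  · rintro ⟨b, D, h1, h2, h3⟩
    refine ⟨Or.inr ⟨b, D, h1, h2, h3⟩, ?_⟩
    rw [h1, h2]
    exact Pt.pt_ne b D

theorem Pt.plus (n : ℕ) : IsAntichainPlus (Pt n) n := by
  refine ⟨univ.image Pt.pt, ?_, ?_⟩
  · have hi : Function.Injective (Pt.pt : Fin n → Pt n) := fun a b h => Sum.inl_injective h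
    rw [card_image_of_injective _ hi, card_univ, Fintype.card_fin]
  · intro x y hx _ hxy
    rw [Pt.lt_iff] at hxy
    obtain ⟨b, D, h1, h2, h3⟩ := hxy
    apply hx
    rw [h1]
    exact mem_image_of_mem _ (mem_univ _)

/-- Counting. -/
theorem lower (n d : ℕ) (h : HasBooleanRealizer (Pt n) d) : 2 ^ n ≤ (n + 1) ^ d := by
  classical
  obtain ⟨L, τ, hτ⟩ := h
  let S : (Fin n → Bool) → Fin d → Finset (Fin n) := fun D i =>
    univ.filter (fun b => (L i).lt (Pt.pt b) (Pt.wd D))
  let Φ : (Fin n → Bool) → Fin d → Fin (n + 1) := fun D i => ⟨(S D i).card, by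
    have := card_le_univ (S D i)
    rw [Fintype.card_fin] at this
    omega⟩
  have hinj : Function.Injective Φ := by
    intro D D' hDD
    have hS : ∀ i, S D i = S D' i := by
      intro i
      have hc : (S D i).card = (S D' i).card := by
        have := congrFun hDD i
        exact congrArg Fin.val this
      have hmono : ∀ E E' : Fin n → Bool, (L i).le (Pt.wd E) (Pt.wd E') → S E i ⊆ S E' i := by
        intro E E' hle b hb
        rw [mem_filter] at hb ⊢
        exact ⟨mem_univ _, @lt_of_lt_of_le _ (L i).toPreorder _ _ _ hb.2 hle⟩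
      rcases (L i).le_total (Pt.wd D) (Pt.wd D') with h | h
      · exact eq_of_subset_of_card_le (hmono D D' h) hc.ge
      · exact (eq_of_subset_of_card_le (hmono D' D h) hc.le).symm
    funext b
    have h1 := hτ (Pt.pt b) (Pt.wd D) (Pt.pt_ne b D)
    have h2 := hτ (Pt.pt b) (Pt.wd D') (Pt.pt_ne b D')
    have h3 : (fun i => decide ((L i).lt (Pt.pt b) (Pt.wd D))) =
        (fun i => decide ((L i).lt (Pt.pt b) (Pt.wd D'))) := by
      funext i
      rw [decide_eq_decide]
      have h4 : b ∈ S D i ↔ b ∈ S D' i := by rw [hS i]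
      rw [mem_filter, mem_filter] at h4
      simpa using h4
    rw [h3, ← h2, Pt.lt_iff, Pt.lt_iff] at h1
    have h5 : ∀ E : Fin n → Bool, (∃ b' E', (Pt.pt b : Pt n) = Pt.pt b' ∧ Pt.wd E = Pt.wd E' ∧
        E' b' = true) ↔ E b = true := by
      intro E
      constructor
      · rintro ⟨b', E', e1, e2, e3⟩
        rw [Sum.inl_injective e1, Sum.inr_injective e2]
        exact e3
      · intro e
        exact ⟨b, E, rfl, rfl, e⟩
    rw [h5, h5] at h1
    rw [Bool.eq_iff_iff]
    exact h1
  have hcard := Fintype.card_le_of_injective Φ hinj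
  rw [Fintype.card_fun, Fintype.card_fun, Fintype.card_bool, Fintype.card_fin, Fintype.card_fin,
    Fintype.card_fin] at hcard
  exact hcard

theorem bdim_le (X : Type) [PartialOrder X] (d : ℕ) (hd : 1 ≤ d) (h : HasBooleanRealizer X d) :
    bdim X ≤ d := Nat.sInf_le ⟨hd, h⟩

theorem bdim_spec (X : Type) [PartialOrder X] (d : ℕ) (hd : 1 ≤ d) (h : HasBooleanRealizer X d) :
    HasBooleanRealizer X (bdim X) :=
  (Nat.sInf_mem (s := {d | 1 ≤ d ∧ HasBooleanRealizer X d}) ⟨d, hd, h⟩).2

theorem greatest (n : ℕ) : IsGreatest (dims n) (f n) := by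
  have hne : (dims n).Nonempty := ⟨_, Pt n, inferInstance, inferInstance, Pt.plus n, rfl⟩
  have hbdd : BddAbove (dims n) := by
    refine ⟨4 + (n + (n + (n + (n + 0)))), ?_⟩
    rintro d ⟨X, hX, hP, hA, rfl⟩
    exact bdim_le X _ (by omega) (upper_all X n hA)
  exact ⟨Nat.sSup_mem hne hbdd, fun d hd => le_csSup hbdd hd⟩

theorem f_le (n d : ℕ) (hd : 1 ≤ d)
    (h : ∀ (X : Type) [Fintype X] [PartialOrder X], IsAntichainPlus X n →
      HasBooleanRealizer X d) : f n ≤ d := by
  obtain ⟨X, hX, hP, hA, hb⟩ := (greatest n).1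
  rw [← hb]
  exact bdim_le X d hd (h X hA)

theorem f_lower (n : ℕ) : 2 ^ n ≤ (n + 1) ^ f n := by
  have h1 : bdim (Pt n) ≤ f n := (greatest n).2 ⟨Pt n, inferInstance, inferInstance, Pt.plus n, rfl⟩
  have h2 := lower n _ (bdim_spec (Pt n) _ (by omega) (upper_all (Pt n) n (Pt.plus n)))
  exact h2.trans (Nat.pow_le_pow_right (by omega) h1)

theorem grow : ∀ l : ℕ, 26 ≤ l → (4 * l + 13) * (l + 1) ^ 2 ≤ 5 * 2 ^ l := by
  intro l hl
  induction l, hl using Nat.le_induction with
  | base => norm_num
  | succ l hl ih =>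
    rw [pow_succ 2 l]
    nlinarith

/-- The maximum `f n` of the Boolean dimensions of the finite posets which are an antichain plus
`n` points exists for every `n`, and there is a constant `C` such that
`|f n - n / log₂ n| ≤ C n / (log₂ n)²` for all `n ≥ 2`. -/
theorem result : (∀ n, IsGreatest (dims n) (f n)) ∧
    ∃ C : ℝ, ∀ n : ℕ, 2 ≤ n →
      |(f n : ℝ) - n / Real.logb 2 n| ≤ C * (n / Real.logb 2 n ^ 2) := by
  refine ⟨greatest, 4056, ?_⟩
  intro n hn
  have hn2 : (2 : ℝ) ≤ n := by exact_mod_cast hn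
  have hnpos : (0 : ℝ) < n := by linarith
  set L : ℝ := Real.logb 2 n with hL
  have hL1 : 1 ≤ L := by
    rw [hL, Real.le_logb_iff_rpow_le (by norm_num) hnpos, Real.rpow_one]
    exact hn2
  have hLpos : 0 < L := by linarith
  have hLle : L ≤ n := by
    rw [hL, Real.logb_le_iff_le_rpow (by norm_num) hnpos, Real.rpow_natCast]
    exact_mod_cast (Nat.lt_two_pow_self).le
  rw [abs_le]
  constructor
  · -- lower bound
    have h1 : (2 : ℝ) ^ n ≤ ((n : ℝ) + 1) ^ f n := by exact_mod_cast f_lower n
    have h2 : (n : ℝ) ≤ f n * Real.logb 2 (n + 1) := by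
      have h3 := Real.logb_le_logb_of_le (b := 2) (by norm_num) (by positivity) h1
      rw [Real.logb_pow, Real.logb_pow, Real.logb_self_eq_one (by norm_num), mul_one] at h3
      exact h3
    have h3 : Real.logb 2 (n + 1) ≤ L + 1 := by
      have h4 : Real.logb 2 ((n : ℝ) + 1) ≤ Real.logb 2 (n * 2) :=
        Real.logb_le_logb_of_le (by norm_num) (by positivity) (by linarith)
      rw [Real.logb_mul (by positivity) (by norm_num), Real.logb_self_eq_one (by norm_num)] at h4
      exact h4
    have h4 : (n : ℝ) ≤ f n * (L + 1) := h2.trans (by gcongr)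
    have h5 : (n : ℝ) / L - n / L ^ 2 ≤ f n := by
      have h6 : (n : ℝ) / (L + 1) ≤ f n := by
        rw [div_le_iff₀ (by positivity)]
        exact h4
      refine le_trans ?_ h6
      have h7 : (n : ℝ) / L - n / L ^ 2 = n * (L - 1) / L ^ 2 := by
        field_simp
      rw [h7, div_le_div_iff₀ (by positivity) (by positivity)]
      nlinarith
    have h8 : (n : ℝ) / L ^ 2 ≤ 4056 * (n / L ^ 2) := by
      have : 0 ≤ (n : ℝ) / L ^ 2 := by positivity
      linarith
    linarith
  · rcases Nat.lt_or_ge n (2 ^ 26) with hlt | hge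
    · -- small `n`
      have h1 : f n ≤ 4 + (n + (n + (n + (n + 0)))) :=
        f_le n _ (by omega) (fun X _ _ hA => upper_all X n hA)
      have h2 : (f n : ℝ) ≤ 6 * n := by
        have h3 : f n ≤ 6 * n := by omega
        exact_mod_cast h3
      have h3 : L ≤ 26 := by
        rw [hL, Real.logb_le_iff_le_rpow (by norm_num) hnpos]
        have h4 : (n : ℝ) ≤ 2 ^ 26 := by exact_mod_cast hlt.le
        calc (n : ℝ) ≤ 2 ^ 26 := h4
          _ = (2 : ℝ) ^ (26 : ℝ) := by
              rw [← Real.rpow_natCast]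
              norm_num
      have h4 : (n : ℝ) ≤ 676 * (n / L ^ 2) := by
        rw [← mul_div_assoc, le_div_iff₀ (by positivity)]
        have : L ^ 2 ≤ 676 := by nlinarith
        nlinarith
      have h5 : 0 ≤ (n : ℝ) / L := by positivity
      linarith
    · -- large `n`
      set l := Nat.log 2 n with hl
      have hn0 : n ≠ 0 := by omega
      have hl1 : 2 ^ l ≤ n := Nat.pow_log_le_self 2 hn0
      have hl2 : n < 2 ^ (l + 1) := Nat.lt_pow_succ_log_self (by norm_num) n
      have hl26 : 26 ≤ l := by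
        rw [hl]
        exact (Nat.le_log_iff_pow_le (by norm_num) hn0).2 hge
      have h1 : f n ≤ 4 + ((l + 1) + ((l + 1) + ((l + 1) + (((n + 2) / (l - 6) + 1) +
          (l + 1))))) :=
        f_le n _ (le_trans (by norm_num : 1 ≤ 4) (Nat.le_add_right 4 _))
          (fun X _ _ hA => upper_big X n l hA hl26 hl1 hl2)
      have hLl : (l : ℝ) ≤ L := by
        rw [hL, Real.le_logb_iff_rpow_le (by norm_num) hnpos, Real.rpow_natCast]
        exact_mod_cast hl1
      have hLl2 : L ≤ l + 1 := by
        rw [hL, Real.logb_le_iff_le_rpow (by norm_num) hnpos]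
        have : (n : ℝ) ≤ 2 ^ (l + 1) := by exact_mod_cast hl2.le
        calc (n : ℝ) ≤ 2 ^ (l + 1) := this
          _ = (2 : ℝ) ^ ((l : ℝ) + 1) := by
              rw [← Real.rpow_natCast]
              norm_num
      have hl26' : (26 : ℝ) ≤ l := by exact_mod_cast hl26
      have hL26 : 26 ≤ L := by linarith
      have h2 : (f n : ℝ) ≤ 9 + 4 * l + (n + 2) / (l - 6) := by
        have h3 : f n ≤ 9 + 4 * l + (n + 2) / (l - 6) := by
          generalize (n + 2) / (l - 6) = d at h1 ⊢
          omega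
        have h4 : (((n + 2) / (l - 6) : ℕ) : ℝ) ≤ (n + 2) / (l - 6) := by
          have h5 := Nat.cast_div_le (α := ℝ) (m := n + 2) (n := l - 6)
          rw [Nat.cast_sub (by omega)] at h5
          push_cast at h5
          exact h5
        have h5 : (f n : ℝ) ≤ ((9 + 4 * l + (n + 2) / (l - 6) : ℕ) : ℝ) := by exact_mod_cast h3
        rw [Nat.cast_add] at h5
        push_cast at h5
        linarith
      have h3 : ((n : ℝ) + 2) / (l - 6) ≤ n / L + 13 * (n / L ^ 2) := by
        have h4 : ((n : ℝ) + 2) / (l - 6) ≤ (n + 2) / (L - 7) := by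
          apply div_le_div_of_nonneg_left (by positivity) (by linarith) (by linarith)
        refine h4.trans ?_
        have h5 : (n : ℝ) / L + 13 * (n / L ^ 2) = n * (L + 13) / L ^ 2 := by
          field_simp
        rw [h5, div_le_div_iff₀ (by linarith) (by positivity)]
        nlinarith [mul_nonneg hnpos.le (sub_nonneg.2 hL26), mul_nonneg hnpos.le hLpos.le,
          mul_nonneg (sub_nonneg.2 hLle) hLpos.le]
      have h6 : (9 : ℝ) + 4 * l ≤ 5 * (n / L ^ 2) := by
        rw [← mul_div_assoc, le_div_iff₀ (by positivity)]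
        have h7 : ((4 : ℝ) * l + 13) * (l + 1) ^ 2 ≤ 5 * 2 ^ l := by exact_mod_cast grow l hl26
        have h8 : (2 : ℝ) ^ l ≤ n := by exact_mod_cast hl1
        have h9 : L ^ 2 ≤ ((l : ℝ) + 1) ^ 2 := by
          apply pow_le_pow_left₀ hLpos.le hLl2
        calc (9 + 4 * (l : ℝ)) * L ^ 2 ≤ (4 * l + 13) * (l + 1) ^ 2 := by
              apply mul_le_mul _ h9 (by positivity) (by positivity)
              linarith
          _ ≤ 5 * 2 ^ l := h7
          _ ≤ 5 * n := by linarith
      have h10 : 0 ≤ (n : ℝ) / L ^ 2 := by positivity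
      linarith

end Pool.Agent.Results.MP_e52733_co.Asymptotics
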