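import Pool.Agent.Q138.PS.UW
import Pool.Agent.Results.MP_e6aa12_ag.EveryNumberOfPoints

/-!
# General collisions of `r` fat points of multiplicity `m = ⌊α P(n)⌋`, for every `r ≥ 10`

Let `q ≥ 2`. Outside a set of real numbers of Hausdorff dimension at most `q / (q + 1 / (q 2 ^ (q - 1)))` (that is `8 / 9` for
`q = 2`) every `α > 0` has the following property for each `r ≥ 10`, where
`bad r = (min (√r - 3) (2 / 3 + 9 / (4 √r)) + min (√r - 3) (2 / 3 + 1 / (4 √r))) / 2 < 1`: there is `η > 0` such that for each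
`ε > 0`, all large `N` and ALL integral polynomials `P` of degree `q` with positive leading coefficient and coefficients of size
at most `N ^ η`, for all but `(bad r + ε) N` of the `n ≤ N`, with `m = ⌊α P(n)⌋`: for every field `k` of characteristic zero and
all `(c, a)` outside a hypersurface the space of forms of EVERY degree `d` vanishing on the subscheme of the plane with ideal
`(y - (a₀ + a₁ x + ... + a_(r-1) x ^ (r-1)), (x - c) ^ r) ^ m` has the expected dimension. For `r ≥ r₀(ε)` this holds for all but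
`ε N` of the `n ≤ N`.
-/

set_option autoImplicit false

namespace Pool.Agent.Results.MP_e6aa12_ag.MultiplicitiesAlongRealMultiples

universe u

open Finset Filter Topology
open Pool.Agent.Q138.PS
open Pool.Agent.Results.MP_e6aa12_ag.EveryNumberOfPoints (Expected)

/-- the bound for the proportion of the other multiplicities -/
noncomputable def bad (r : ℕ) : ℝ :=
  (min (Real.sqrt r - 3) (2 / 3 + 9 / (4 * Real.sqrt r)) +
    min (Real.sqrt r - 3) (2 / 3 + 1 / (4 * Real.sqrt r))) / 2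

open Classical in
/-- the number of the `1 ≤ n ≤ N` for which the dimension is not the expected one in all degrees, for `m = ⌊α P(n)⌋` -/
noncomputable def count (r : ℕ) (α : ℝ) (P : Polynomial ℤ) (N : ℕ) : ℕ :=
  ((Icc 1 N).filter fun n : ℕ => ¬ Expected.{u} r ⌊α * ((P.eval (n : ℤ) : ℤ) : ℝ)⌋₊ Set.univ).card

theorem count_eq (r : ℕ) (α : ℝ) (P : Polynomial ℤ) (N : ℕ) :
    (count.{u} r α P N : ℝ) = cnP (fun m => ¬ Expected.{u} r m Set.univ) α P N := by
  classical
  unfold count cnP cn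
  refine congrArg _ (congrArg _ ?_)
  ext n
  simp only [mem_filter]

theorem bad_lt {r : ℕ} (h : 10 ≤ r) : bad r < 1 := by
  have h1 : (10 : ℝ) ≤ r := by exact_mod_cast h
  have h2 : (3 : ℝ) < √(r : ℝ) := by
    rw [Real.lt_sqrt (by norm_num)]
    linarith
  unfold bad
  rcases le_or_gt √(r : ℝ) 3.9 with h3 | h3
  · have e1 := min_le_left (√(r : ℝ) - 3) (2 / 3 + 9 / (4 * √(r : ℝ)))
    have e2 := min_le_left (√(r : ℝ) - 3) (2 / 3 + 1 / (4 * √(r : ℝ)))
    linarith
  · have e1 := min_le_right (√(r : ℝ) - 3) (2 / 3 + 9 / (4 * √(r : ℝ)))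
    have e2 := min_le_right (√(r : ℝ) - 3) (2 / 3 + 1 / (4 * √(r : ℝ)))
    have e0 : 0 < 4 * √(r : ℝ) := by positivity
    have e3 : 9 / (4 * √(r : ℝ)) ≤ 15 / 26 := by
      rw [div_le_iff₀ e0]
      linarith
    have e4 : 1 / (4 * √(r : ℝ)) ≤ 5 / 78 := by
      rw [div_le_iff₀ e0]
      linarith
    linarith

/-- **Theorem.** -/
theorem result (q : ℕ) (hq : 2 ≤ q) :
    (∃ E : Set ℝ, dimH E ≤ ENNReal.ofReal (q / (q + 1 / ((q : ℝ) * 2 ^ (q - 1)))) ∧ ∀ α : ℝ, 0 < α → α ∉ E →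
      ∃ η : ℕ → ℝ, (∀ r, 0 < η r) ∧
      (∀ r : ℕ, 10 ≤ r → ∀ ε : ℝ, 0 < ε → ∀ᶠ N : ℕ in atTop, ∀ P : Polynomial ℤ,
        P.natDegree = q → 0 < P.leadingCoeff → (∀ j, |((P.coeff j : ℤ) : ℝ)| ≤ (N : ℝ) ^ (η r)) →
        (count.{u} r α P N : ℝ) ≤ (bad r + ε) * N) ∧
      ∀ ε : ℝ, 0 < ε → ∃ r₀ : ℕ, ∀ r : ℕ, r₀ ≤ r → ∀ᶠ N : ℕ in atTop, ∀ P : Polynomial ℤ,
        P.natDegree = q → 0 < P.leadingCoeff → (∀ j, |((P.coeff j : ℤ) : ℝ)| ≤ (N : ℝ) ^ (η r)) →
        (count.{u} r α P N : ℝ) ≤ ε * N) ∧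
    ∀ r : ℕ, 10 ≤ r → bad r < 1 := by
  classical
  obtain ⟨-, -, -, s4, s5⟩ := Pool.Agent.Results.MP_e6aa12_ag.EveryNumberOfPoints.result.{u}
  refine ⟨?_, fun r hr => bad_lt hr⟩
  obtain ⟨E, hE, hg⟩ := dens_all (ι := ℕ) q hq (fun r m => ¬ Expected.{u} r m Set.univ)
  refine ⟨E, hE, fun α hα hαE => ?_⟩
  choose η hη hgood using hg α hα hαE
  refine ⟨η, hη, fun r hr ε hε => ?_, fun ε hε => ?_⟩
  · filter_upwards [hgood r (bad r) (dens_lt _ fun δ hδ => by
      obtain ⟨M₀, h⟩ := s4 r hr δ hδ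
      filter_upwards [eventually_ge_atTop M₀] with M hM
      exact h M hM) ε hε] with N hN
    intro P hdeg hlead hco
    rw [count_eq]
    exact hN P hdeg hlead hco
  · obtain ⟨r₀, h⟩ := s5 (ε / 2) (by positivity)
    refine ⟨r₀, fun r hr => ?_⟩
    obtain ⟨-, M₀, h1⟩ := h r hr
    filter_upwards [hgood r (ε / 2) (dens_lt _ fun δ hδ => by
      filter_upwards [eventually_ge_atTop M₀] with M hM
      refine (h1 M hM).trans ?_
      have : (0 : ℝ) ≤ M := Nat.cast_nonneg M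
      nlinarith) (ε / 2) (by positivity)] with N hN
    intro P hdeg hlead hco
    rw [count_eq]
    refine (hN P hdeg hlead hco).trans (le_of_eq ?_)
    ring

end Pool.Agent.Results.MP_e6aa12_ag.MultiplicitiesAlongRealMultiples
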