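import Pool.Agent.Q197.PS.X

/-!
# MP_e6fa8b_nt: a zero-one law for periodic changes of sign in mixed averages
-/

set_option autoImplicit false

open Filter Topology

namespace Pool.Agent.Results.MP_e6fa8b_nt.PeriodicSignChanges

/-- the Liouville function (with the value `1` at `0`) -/
noncomputable def lam (n : ℕ) : ℝ := (-1 : ℝ) ^ ArithmeticFunction.cardFactors n

/-- the mean over `1 ≤ n ≤ N` of the products of the `Λ (n + h)`, `h ∈ K`, and the `f (n + h)`,
`h ∈ L` -/
noncomputable def mean (K L : Finset ℕ) (f : ℕ → ℝ) (N : ℕ) : ℝ :=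
  (∑ n ∈ Finset.Icc 1 N, (∏ h ∈ K, ArithmeticFunction.vonMangoldt (n + h)) * ∏ h ∈ L, f (n + h)) / N

/-- the sign at `n` of the `P`-periodic sequence of signs given by a word `w` of length `P` -/
def sgn {P : ℕ} [NeZero P] (w : Fin P → Fin 2) (n : ℕ) : ℝ := (-1) ^ (w (Fin.ofNat P n) : ℕ)

/-- the sequence `f`, changed by these signs -/
def twist {P : ℕ} [NeZero P] (f : ℕ → ℝ) (w : Fin P → Fin 2) (n : ℕ) : ℝ := sgn w n * f n

open Classical in
/-- the number of words of length `P` for which the mean for the twisted sequence tends to `z` -/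
noncomputable def count (K L : Finset ℕ) (f : ℕ → ℝ) (P : ℕ) [NeZero P] (z : ℝ) : ℕ :=
  (Finset.univ.filter (fun w : Fin P → Fin 2 => Tendsto (mean K L (twist f w)) atTop (𝓝 z))).card

open Classical in
/-- the number of words of length `P` for which the mean up to `N` for the twisted sequence is at least
`s` in absolute value -/
noncomputable def large (K L : Finset ℕ) (f : ℕ → ℝ) (P : ℕ) [NeZero P] (N : ℕ) (s : ℝ) : ℕ :=
  (Finset.univ.filter (fun w : Fin P → Fin 2 => s ≤ |mean K L (twist f w) N|)).card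

/-- `(P / φ(P)) ^ k / √P` -/
noncomputable def rate (P k : ℕ) : ℝ := ((P : ℝ) / P.totient) ^ k / √P

/-- Let `K` and `L` be finite sets of shifts, `L` not empty, let `k` be the number of elements of `K`,
and let `|f| ≤ 1`.  (1) If the mean does not tend to `0` then for every period `P` and every `z` the
share of the `P`-periodic changes of sign of `f` for which it tends to `z` is at most
`C (P / φ(P)) ^ k / √P`.  (2) Either the means tend to `0` for all periodic changes of sign, or the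
bound of (1) holds for all multiples `P` of some period.  (3) For every `P`, all large `N` and all
`t > 0`, the share of the changes of sign for which the mean up to `N` is at least
`t C (P / φ(P)) ^ k / √P` in absolute value is at most `1 / t ^ 2`.  (4) If for every `M` there is a
period `P` such that the mean for the twisted Liouville function tends to `0` for at least
`M (P / φ(P)) ^ k / √P` of the changes of sign, then the mean for the Liouville function tends to
`0`. -/
theorem result :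
    (∀ (K L : Finset ℕ), L.Nonempty → ∀ f : ℕ → ℝ, (∀ n, |f n| ≤ 1) →
      ¬ Tendsto (mean K L f) atTop (𝓝 0) →
      ∃ C : ℝ, ∀ (P : ℕ) [NeZero P] (z : ℝ), (count K L f P z : ℝ) ≤ C * rate P K.card * 2 ^ P) ∧
    (∀ (K L : Finset ℕ), L.Nonempty → ∀ f : ℕ → ℝ, (∀ n, |f n| ≤ 1) →
      (∀ (P : ℕ) [NeZero P] (w : Fin P → Fin 2), Tendsto (mean K L (twist f w)) atTop (𝓝 0)) ∨
      ∃ P₀ : ℕ, 1 ≤ P₀ ∧ ∃ C : ℝ, ∀ (P : ℕ) [NeZero P], P₀ ∣ P → ∀ z : ℝ,
        (count K L f P z : ℝ) ≤ C * rate P K.card * 2 ^ P) ∧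
    (∀ (K L : Finset ℕ), L.Nonempty → ∃ C : ℝ, 0 < C ∧ ∀ f : ℕ → ℝ, (∀ n, |f n| ≤ 1) →
      ∀ (P : ℕ) [NeZero P], ∀ᶠ N : ℕ in atTop, ∀ t : ℝ, 0 < t →
        (large K L f P N (t * (C * rate P K.card)) : ℝ) ≤ 2 ^ P / t ^ 2) ∧
    (∀ (K L : Finset ℕ), L.Nonempty → (∀ M : ℝ, ∃ P : ℕ, ∃ _ : NeZero P,
        M * rate P K.card * 2 ^ P ≤ (count K L lam P 0 : ℝ)) →
      Tendsto (mean K L lam) atTop (𝓝 0)) := by
  have hlam : ∀ n, lam n = 1 ∨ lam n = -1 := fun n => neg_one_pow_eq_or ℝ _
  have hlam1 : ∀ n, |lam n| ≤ 1 := by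
    intro n
    rcases hlam n with h1 | h1 <;> rw [h1] <;> norm_num
  have hcount : ∀ (K L : Finset ℕ) (f : ℕ → ℝ) (P : ℕ) [NeZero P] (z : ℝ),
      count K L f P z = Q197.PS.cntF (Q197.PS.wt K L f) L P z := by
    intro K L f P _ z
    unfold count Q197.PS.cntF
    congr 1
    ext w
    simp only [Finset.mem_filter]
    rw [← Q197.PS.mix_twist]
    rfl
  have hr : ∀ (C : ℝ) (P k : ℕ), C * rate P k * 2 ^ P =
      C * ((P : ℝ) / P.totient) ^ k / √P * 2 ^ P := by
    intro C P k
    unfold rate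
    ring
  have h1 : ∀ (K L : Finset ℕ), L.Nonempty → ∀ f : ℕ → ℝ, (∀ n, |f n| ≤ 1) →
      ¬ Tendsto (mean K L f) atTop (𝓝 0) →
      ∃ C : ℝ, ∀ (P : ℕ) [NeZero P] (z : ℝ), (count K L f P z : ℝ) ≤ C * rate P K.card * 2 ^ P := by
    intro K L hL f hf h
    obtain ⟨C, hC⟩ := Q197.PS.few_mix_one hf K L hL h
    refine ⟨C, fun P _ z => ?_⟩
    rw [hcount, hr]
    exact hC P z
  refine ⟨h1, fun K L hL f hf => ?_, fun K L hL => ?_, fun K L hL h => ?_⟩
  · by_cases h : ∀ (P : ℕ) [NeZero P] (w : Fin P → Fin 2),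
      Tendsto (mean K L (twist f w)) atTop (𝓝 0)
    · exact Or.inl h
    · right
      push Not at h
      obtain ⟨P₀, hne, w, hw⟩ := h
      obtain ⟨C, hC⟩ := Q197.PS.few_mix hf K L hL w hw
      refine ⟨P₀, Nat.pos_of_ne_zero hne.out, C, fun P _ hd z => ?_⟩
      rw [hcount, hr]
      exact hC P hd z
  · obtain ⟨C, hC, hT⟩ := Q197.PS.typical_mix_unif K L hL
    refine ⟨C, hC, fun f hf P _ => ?_⟩
    filter_upwards [hT f hf P] with N hN t ht
    have h2 := hN t ht
    refine le_trans (le_of_eq ?_) h2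
    unfold large rate
    congr 2
    ext w
    rw [Finset.mem_filter, Finset.mem_filter]
    rw [mul_div_assoc]
    rfl
  · by_contra hcon
    obtain ⟨C, hC⟩ := h1 K L hL lam hlam1 hcon
    obtain ⟨P, hne, hP⟩ := h (C + 1)
    have h2 := hC P 0
    have hP0 : 0 < P := Nat.pos_of_ne_zero hne.out
    have hP1 : (0 : ℝ) < P := by exact_mod_cast hP0
    have hrp : 0 < rate P K.card := by
      unfold rate
      have := Q197.PS.ratio_one P hP0
      have h4 : 0 < (P : ℝ) / P.totient := by linarith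
      have h5 : 0 < √(P : ℝ) := Real.sqrt_pos.2 hP1
      positivity
    have h3 : (C + 1) * rate P K.card * 2 ^ P ≤ C * rate P K.card * 2 ^ P := hP.trans h2
    have h4 : (C + 1) * rate P K.card ≤ C * rate P K.card := le_of_mul_le_mul_right h3 (by positivity)
    nlinarith

end Pool.Agent.Results.MP_e6fa8b_nt.PeriodicSignChanges
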