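import Pool.Agent.Q259.RM.Fin

/-!
# The Hardy-Littlewood-Chowla statement for almost every change of the signs of the Liouville
function at few primes

Let `g` be any function bounded by `1`, for instance the Liouville function, let `e p` (`p` prime) be
independent random signs with arbitrary distributions, and let `f n = g n * ∏ (e p) ^ k`, the product
over the prime powers `p ^ k` exactly dividing `n` (if `g` is the Liouville function then `f` is
completely multiplicative with `f p = - e p`). The number `1 - |E (e p)|` is twice the minimum of the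
probabilities of `e p = 1` and `e p = -1`.

Hypothesis: `R N ≥ log N` and the sum of `(1 - |E (e p)|) / p` over the primes `R N < p ≤ N` tends
to infinity. For `R N = log N` this allows `f p = g p` outside a very sparse set of primes (fixed in
advance), and also `P (e p = -1) → 0`; if the distributions do not degenerate then `R N` may be any
function `N ^ (o 1)`.

Almost surely the following holds for all `A` and `k`, all large `N` and all `x ≤ N`:

`|∑_{n ≤ x} w(n) ∏_{i < k} Λ(|a_i n + b_i|) ∏_{j < l} f(|c_j n + d_j|)| ≤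
  C(A, k) N (D / φ(D)) ^ k exp (- ∑_{R N < p ≤ N} (1 - |E (e p)|) / p)`

for all `a_i, b_i` up to `N ^ A`, all `l` up to `(R N) ^ A`, all `c_j, d_j` up to `exp ((R N) ^ A)` and
all weights `w` in a given set of at most `exp ((R N) ^ A₀)` functions bounded by `1`, provided that
the forms `a_i n + b_i` are pairwise not proportional and one of the forms `c_j n + d_j` is not
proportional to any other form; `D` is the product of the `a_i` and of the determinants
`a_i b_j - a_j b_i`. In particular (part 2) the statement of Q1 with `l ≥ 1` holds with `f` in place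
of the Liouville function, for all `k`, `l` and all shifts.

Method: conditionally on the signs of the primes up to `(R N) ^ B` the sum is a function with bounded
differences of the other signs (a large deviation has probability at most `exp (- (R N) ^ (B - B'))`),
and its expectation is bounded by a sieve of dimension `k + 1`: the conditional expectation of the
term of `n` is small unless `c_j n + d_j` has few random prime factors.
-/

set_option autoImplicit false

namespace Pool.Agent.Results.MP_e6fa8b_nt.RandomSignChanges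

open Finset Filter MeasureTheory ProbabilityTheory

/-- `∏ (s p) ^ k` over the prime powers `p ^ k` exactly dividing `n` -/
noncomputable def cm (s : ℕ → ℝ) (n : ℕ) : ℝ := n.factorization.prod fun p k => s p ^ k

/-- the sum `∑_{n ≤ x} w(n) ∏ Λ(|a_i n + b_i|) ∏ f(|c_j n + d_j|)` with `f n = g n * cm s n` -/
noncomputable def corr {k l : ℕ} (g : ℕ → ℂ) (s : ℕ → ℝ) (w : ℕ → ℂ) (a b : Fin k → ℤ)
    (c d : Fin l → ℤ) (x : ℕ) : ℂ :=
  ∑ n ∈ Icc 1 x, w n *
    ((∏ i, ArithmeticFunction.vonMangoldt (a i * n + b i).natAbs : ℝ) : ℂ) *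
    ∏ j, (g (c j * n + d j).natAbs * ((cm s (c j * n + d j).natAbs : ℝ) : ℂ))

/-- the product of the `a i` and of the determinants `a i * b j - a j * b i`, `i < j` -/
def disc {k : ℕ} (a b : Fin k → ℤ) : ℤ :=
  (∏ i, a i) * ∏ i, ∏ j ∈ univ.filter (fun j => i < j), (a i * b j - a j * b i)

/-- `D / φ(D)` -/
noncomputable def factor (D : ℤ) : ℝ := (D.natAbs : ℝ) / D.natAbs.totient

/-- the sum of `(1 - |E (e p)|) / p` over the primes `u < p ≤ N` -/
noncomputable def noise {Ω : Type} [MeasurableSpace Ω] (P : Measure Ω) (e : ℕ → Ω → ℝ) (u : ℝ)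
    (N : ℕ) : ℝ :=
  ∑ p ∈ (Icc 1 N).filter (fun p : ℕ => p.Prime ∧ u < (p : ℝ)), (1 - |∫ ω, e p ω ∂P|) / (p : ℝ)

/-- the conditions on the forms -/
def Good {k l : ℕ} (A N : ℕ) (r : ℝ) (a b : Fin k → ℤ) (c d : Fin l → ℤ) (j₀ : Fin l) : Prop :=
  (∀ i, a i ≠ 0 ∧ |a i| ≤ (N : ℤ) ^ A ∧ |b i| ≤ (N : ℤ) ^ A) ∧
  (∀ j, c j ≠ 0 ∧ (|c j| : ℝ) ≤ Real.exp (r ^ A) ∧ (|d j| : ℝ) ≤ Real.exp (r ^ A)) ∧
  (∀ i i', i ≠ i' → a i * b i' ≠ a i' * b i) ∧ (∀ i, a i * d j₀ ≠ c j₀ * b i) ∧
  ∀ j, j ≠ j₀ → c j * d j₀ ≠ c j₀ * d j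

theorem result {Ω : Type} [MeasurableSpace Ω] (P : Measure Ω) [IsProbabilityMeasure P]
    (e : ℕ → Ω → ℝ) (hm : ∀ p, Measurable (e p)) (he : ∀ p ω, e p ω = 1 ∨ e p ω = -1)
    (hind : iIndepFun e P) (R : ℕ → ℝ) (hR : ∀ᶠ N : ℕ in atTop, Real.log N ≤ R N)
    (hnoise : Tendsto (fun N : ℕ => noise P e (R N) N) atTop atTop)
    (g : ℕ → ℂ) (hg : ∀ n, ‖g n‖ ≤ 1) (A₀ : ℕ) (W : ℕ → Finset (ℕ → ℂ))
    (hW : ∀ᶠ N : ℕ in atTop, ((W N).card : ℝ) ≤ Real.exp (R N ^ A₀))
    (hW1 : ∀ N, ∀ w ∈ W N, ∀ n, ‖w n‖ ≤ 1) :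
    ∃ C : ℕ → ℕ → ℝ, ∀ᵐ ω ∂P,
      (∀ A k : ℕ, ∀ᶠ N : ℕ in atTop, ∀ (l x : ℕ) (w : ℕ → ℂ)
        (a b : Fin k → ℤ) (c d : Fin l → ℤ) (j₀ : Fin l), (l : ℝ) ≤ R N ^ A → x ≤ N → w ∈ W N →
        Good A N (R N) a b c d j₀ →
        ‖corr g (fun p => e p ω) w a b c d x‖ ≤
          C A k * N * factor (disc a b) ^ k * Real.exp (-noise P e (R N) N)) ∧
      ∀ (k l : ℕ), 1 ≤ l → ∀ (h : Fin k → ℕ) (h' : Fin l → ℕ), Function.Injective h →
        Function.Injective h' → (∀ i j, h i ≠ h' j) →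
        Tendsto (fun x : ℕ => (∑ n ∈ Icc 1 x,
          ((∏ i, ArithmeticFunction.vonMangoldt (n + h i) : ℝ) : ℂ) *
          ∏ j, (g (n + h' j) * ((cm (fun p => e p ω) (n + h' j) : ℝ) : ℂ))) / (x : ℂ))
          atTop (nhds 0) := by
  classical
  have hSe : ∀ N : ℕ, ∑ p ∈ Q259.RM.PI (R N) N, Q259.RM.dl (Q259.RM.th P e) p / p =
      noise P e (R N) N := by
    intro N
    unfold noise Q259.RM.PI
    rw [Nat.floor_natCast]
    apply sum_congr rfl
    intro p _
    rw [Q259.RM.dl_th hm he]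
  have hS : Tendsto (fun N : ℕ => ∑ p ∈ Q259.RM.PI (R N) N, Q259.RM.dl (Q259.RM.th P e) p / p)
      atTop atTop := hnoise.congr fun N => (hSe N).symm
  set W' : ℕ → Finset (ℕ → ℂ) := fun N => insert (fun _ => (1 : ℂ)) (W N) with hW'
  have hcard : ∀ᶠ N : ℕ in atTop, ((W' N).card : ℝ) ≤ Real.exp (R N ^ (A₀ + 1)) := by
    filter_upwards [hW, Q259.RM.ev_R hR 2] with N h1 h2
    have h3 : ((W' N).card : ℝ) ≤ (W N).card + 1 := by exact_mod_cast card_insert_le _ _
    have h4 : (1 : ℝ) ≤ R N ^ A₀ := one_le_pow₀ (by linarith)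
    have h5 : R N ^ A₀ + 1 ≤ R N ^ (A₀ + 1) := by
      rw [pow_succ]
      nlinarith
    have h6 : (2 : ℝ) ≤ Real.exp 1 := by
      have := Real.add_one_le_exp (1 : ℝ)
      linarith
    have h7 : 1 ≤ Real.exp (R N ^ A₀) := Real.one_le_exp (by linarith)
    have h8 : Real.exp (R N ^ A₀) * 2 ≤ Real.exp (R N ^ A₀) * Real.exp 1 :=
      mul_le_mul_of_nonneg_left h6 (Real.exp_pos _).le
    rw [← Real.exp_add] at h8
    have h9 := Real.exp_le_exp.2 h5
    linarith
  have hW1' : ∀ N, ∀ w ∈ W' N, ∀ n, ‖w n‖ ≤ 1 := by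
    intro N w hw n
    rcases mem_insert.1 hw with h | h
    · rw [h]
      simp
    · exact hW1 N w h n
  obtain ⟨C, hC⟩ := Q259.RM.as_all hm he hind R hR hS g hg (A₀ + 1) W' hcard hW1'
  refine ⟨C, ?_⟩
  filter_upwards [hC] with ω hω
  refine ⟨fun A k => ?_, fun k l hl h h' hinj hinj' hne => ?_⟩
  · filter_upwards [hω A k] with N hN l x w a b c d j₀ h1 h2 h3 h4
    rw [← hSe N]
    exact hN l x w a b c d j₀ h1 h2 (mem_insert_of_mem h3) h4
  · exact Q259.RM.fixed hR (W := W') (fun N => mem_insert_self _ _) hS hω k l hl h h' hinj hinj' hne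

end Pool.Agent.Results.MP_e6fa8b_nt.RandomSignChanges
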