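import Mathlib

/-!
# Graphs of successor chromatic number without topological complete subgraphs

For every infinite cardinal `a` the comparability graph of the tree of all injective sequences
of length `< a⁺` in a set of size `a` has chromatic number exactly `a⁺` and contains no
subdivision of `K_{a⁺}`.
-/

open Cardinal

universe u

namespace Pool.Agent.Results.MP_e76a7e_co.InjectiveSequences

/-- The chromatic number as a cardinal: the least number of colours of a proper colouring. -/
noncomputable def chi {V : Type u} (G : SimpleGraph V) : Cardinal.{u} :=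
  sInf {κ | ∃ K : Type u, #K = κ ∧ Nonempty (G.Coloring K)}

/-- `G` contains a subdivision of the complete graph on `κ` vertices: a set `B` of `κ` branch
vertices and for every pair of different branch vertices a path between them (the path from `y`
to `x` is the reverse of the path from `x` to `y`), such that an inner vertex of one of the paths
is not a branch vertex and lies on no path belonging to another pair. -/
def HasSubdivision {V : Type u} (G : SimpleGraph V) (κ : Cardinal.{u}) : Prop :=
  ∃ (B : Set V) (P : ∀ x y : B, x ≠ y → G.Walk (x : V) (y : V)), #B = κ ∧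
    (∀ x y h, (P x y h).IsPath) ∧
    (∀ x y h, P y x h.symm = (P x y h).reverse) ∧
    (∀ x y h, ∀ v ∈ (P x y h).support, v ≠ x → v ≠ y →
      v ∉ B ∧ ∀ x' y' h', s(x, y) ≠ s(x', y') → v ∉ (P x' y' h').support)

section Tree

variable {W A : Type u} [LinearOrder W]

/-- An injective sequence of elements of `A` indexed by an initial segment of `W`. -/
structure Node (W A : Type u) [LinearOrder W] where
  len : W
  val : W → Option A
  dom : ∀ β, val β = none ↔ len ≤ β
  inj : ∀ β γ, β < len → γ < len → val β = val γ → β = γ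

/-- Initial segment relation. -/
def Le (x y : Node W A) : Prop := x.len ≤ y.len ∧ ∀ β, β < x.len → x.val β = y.val β

lemma le_refl (x : Node W A) : Le x x := ⟨_root_.le_refl _, fun _ _ => rfl⟩

lemma le_trans {x y z : Node W A} (h1 : Le x y) (h2 : Le y z) : Le x z :=
  ⟨h1.1.trans h2.1, fun β hβ => (h1.2 β hβ).trans (h2.2 β (hβ.trans_le h1.1))⟩

lemma node_ext {x y : Node W A} (h : x.len = y.len) (h' : ∀ β, β < x.len → x.val β = y.val β) :
    x = y := by
  have hv : x.val = y.val := by
    funext β
    rcases lt_or_ge β x.len with hb | hb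
    · exact h' β hb
    · rw [(x.dom β).2 hb, (y.dom β).2 (h ▸ hb)]
  cases x
  cases y
  simp only at h hv
  subst h
  subst hv
  rfl

lemma le_antisymm {x y : Node W A} (h1 : Le x y) (h2 : Le y x) : x = y :=
  node_ext (_root_.le_antisymm h1.1 h2.1) h1.2

lemma le_total_below {u v x : Node W A} (hv : Le v u) (hx : Le x u) : Le v x ∨ Le x v := by
  rcases le_total v.len x.len with h | h
  · exact Or.inl ⟨h, fun β hβ => (hv.2 β hβ).trans (hx.2 β (hβ.trans_le h)).symm⟩
  · exact Or.inr ⟨h, fun β hβ => (hx.2 β hβ).trans (hv.2 β (hβ.trans_le h)).symm⟩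

/-- The comparability graph of the tree. -/
def G (W A : Type u) [LinearOrder W] : SimpleGraph (Node W A) where
  Adj x y := x ≠ y ∧ (Le x y ∨ Le y x)
  symm := ⟨fun _ _ h => ⟨h.1.symm, h.2.symm⟩⟩
  loopless := ⟨fun _ h => h.1 rfl⟩

/-- Every walk from `x` to `y` has a vertex that is an initial segment of both. -/
lemma walk_meet {x y : Node W A} (p : (G W A).Walk x y) :
    ∃ v ∈ p.support, Le v x ∧ Le v y := by
  induction p with
  | nil => exact ⟨_, by simp, le_refl _, le_refl _⟩
  | @cons x u y h p ih =>
    obtain ⟨v, hv, hvu, hvy⟩ := ih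
    rcases h.2 with hxu | hux
    · rcases le_total_below hvu hxu with h1 | h1
      · exact ⟨v, by simp [hv], h1, hvy⟩
      · exact ⟨x, by simp, le_refl _, le_trans h1 hvy⟩
    · exact ⟨v, by simp [hv], le_trans hvu hux, hvy⟩

/-- A node has few initial segments. -/
lemma card_below (x : Node W A) : #{v : Node W A | Le v x} ≤ #(Option A) := by
  refine Cardinal.mk_le_of_injective (f := fun v : {v : Node W A | Le v x} => x.val v.1.len) ?_
  rintro ⟨v, hv⟩ ⟨w, hw⟩ h
  simp only at h
  have key : v.len = w.len := by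
    rcases lt_or_ge v.len x.len with h1 | h1
    · rcases lt_or_ge w.len x.len with h2 | h2
      · exact x.inj _ _ h1 h2 h
      · rw [(x.dom w.len).2 h2] at h
        exact absurd ((x.dom v.len).1 h) (not_le.2 h1)
    · have h3 : v.len = x.len := _root_.le_antisymm hv.1 h1
      rw [(x.dom v.len).2 h1] at h
      have h2 := (x.dom w.len).1 h.symm
      rw [h3]
      exact _root_.le_antisymm h2 hw.1
  have : v = w := node_ext key fun β hβ => (hv.2 β hβ).trans (hw.2 β (key ▸ hβ)).symm
  exact Subtype.ext this

/-- A chain has few elements. -/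
lemma card_chain (B : Set (Node W A)) (hB : ∀ x ∈ B, ∀ y ∈ B, Le x y ∨ Le y x) :
    #B ≤ #(Option A) := by
  classical
  let φ : B → Option A := fun f =>
    if h : ∃ g ∈ B, Le f.1 g ∧ g ≠ f.1 then (Classical.choose h).val f.1.len else none
  have lt_of : ∀ {f g : Node W A}, Le f g → g ≠ f → f.len < g.len := by
    intro f g h hne
    rcases h.1.lt_or_eq with h1 | h1
    · exact h1
    · exact absurd (node_ext h1 h.2).symm hne
  have hφ : ∀ f : B, ∀ g ∈ B, Le f.1 g → g ≠ f.1 → φ f = g.val f.1.len := by
    intro f g hg hle hne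
    have h : ∃ g ∈ B, Le f.1 g ∧ g ≠ f.1 := ⟨g, hg, hle, hne⟩
    have hc := Classical.choose_spec h
    simp only [φ, dif_pos h]
    have l1 := lt_of hc.2.1 hc.2.2
    have l2 := lt_of hle hne
    rcases hB _ hc.1 _ hg with h1 | h1
    · exact h1.2 _ l1
    · exact (h1.2 _ l2).symm
  have key : ∀ f f' : B, Le f.1 f'.1 → f'.1 ≠ f.1 → φ f ≠ φ f' := by
    intro f f' hle hne
    have e1 := hφ f f'.1 f'.2 hle hne
    have l1 := lt_of hle hne
    by_cases h : ∃ g ∈ B, Le f'.1 g ∧ g ≠ f'.1
    · obtain ⟨g, hg, hg1, hg2⟩ := h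
      have e2 := hφ f' g hg hg1 hg2
      have l2 := lt_of hg1 hg2
      rw [e1, e2, hg1.2 _ l1]
      intro h
      exact absurd (g.inj _ _ (l1.trans l2) l2 h) (ne_of_lt l1)
    · have e2 : φ f' = none := by simp only [φ, dif_neg h]
      rw [e1, e2]
      intro h
      exact absurd ((f'.1.dom _).1 h) (not_le.2 l1)
  refine Cardinal.mk_le_of_injective (f := φ) ?_
  intro f f' h
  by_contra hne
  have hne' : f'.1 ≠ f.1 := fun h => hne (Subtype.ext h.symm)
  rcases hB _ f.2 _ f'.2 with h1 | h1
  · exact key f f' h1 hne' h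
  · exact key f' f h1 hne'.symm h.symm

lemma no_subdivision (hA : ℵ₀ ≤ #A) : ¬ HasSubdivision (G W A) (Order.succ #A) := by
  rintro ⟨B, P, hB, -, -, hP⟩
  have hopt : #(Option A) = #A := by
    rw [Cardinal.mk_option, Cardinal.add_one_eq hA]
  by_cases hch : ∀ x ∈ B, ∀ y ∈ B, Le x y ∨ Le y x
  · have := card_chain B hch
    rw [hopt, hB] at this
    exact absurd this (not_le.2 (Order.lt_succ _))
  · push Not at hch
    obtain ⟨x, hx, y, hy, hxy, hyx⟩ := hch
    have hne : x ≠ y := fun h => hxy (h ▸ le_refl _)
    -- the separating vertex for a third branch vertex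
    have hsep : ∀ z : B, ∀ (h1 : (⟨x, hx⟩ : B) ≠ z) (h2 : z ≠ (⟨y, hy⟩ : B)),
        ∃ c : Node W A, Le c x ∧ c ≠ x ∧ c ≠ y ∧
          (c ∈ (P ⟨x, hx⟩ z h1).support ∨ c ∈ (P z ⟨y, hy⟩ h2).support) := by
      intro z h1 h2
      obtain ⟨c, hc, hcx, hcy⟩ := walk_meet ((P ⟨x, hx⟩ z h1).append (P z ⟨y, hy⟩ h2))
      rw [SimpleGraph.Walk.mem_support_append_iff] at hc
      refine ⟨c, hcx, ?_, ?_, hc⟩
      · rintro rfl
        exact hxy hcy
      · rintro rfl
        exact hyx hcx
    let B' : Set B := {z | (⟨x, hx⟩ : B) ≠ z ∧ z ≠ (⟨y, hy⟩ : B)}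
    choose c hc1 hc2 hc3 hc4 using hsep
    -- for `z ≠ z'`, the vertex of `z` differs from the vertex of `z'`
    have hin : ∀ z z' : B, ∀ (h1 : (⟨x, hx⟩ : B) ≠ z) (h2 : z ≠ (⟨y, hy⟩ : B))
        (h1' : (⟨x, hx⟩ : B) ≠ z') (h2' : z' ≠ (⟨y, hy⟩ : B)), z ≠ z' →
        c z h1 h2 ≠ z.1 → c z h1 h2 ≠ c z' h1' h2' := by
      intro z z' h1 h2 h1' h2' hzz hcz heq
      have hsym : ∀ e : Sym2 B, (e = s((⟨x, hx⟩ : B), z) ∨ e = s(z, (⟨y, hy⟩ : B))) →
          ∀ e' : Sym2 B, (e' = s((⟨x, hx⟩ : B), z') ∨ e' = s(z', (⟨y, hy⟩ : B))) → e ≠ e' := by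
        intro e he e' he' hee
        have hz : z ∈ e := by rcases he with rfl | rfl <;> simp
        rw [hee] at hz
        rcases he' with rfl | rfl
        · rcases Sym2.mem_iff.1 hz with h | h
          · exact h1 h.symm
          · exact hzz h
        · rcases Sym2.mem_iff.1 hz with h | h
          · exact hzz h
          · exact h2 h
      rcases hc4 z h1 h2 with h | h
      · have h3 := (hP _ _ _ _ h (hc2 z h1 h2) hcz).2
        rcases hc4 z' h1' h2' with h' | h'
        · exact h3 _ _ h1' (hsym _ (Or.inl rfl) _ (Or.inl rfl)) (heq ▸ h')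
        · exact h3 _ _ h2' (hsym _ (Or.inl rfl) _ (Or.inr rfl)) (heq ▸ h')
      · have h3 := (hP _ _ _ _ h hcz (hc3 z h1 h2)).2
        rcases hc4 z' h1' h2' with h' | h'
        · exact h3 _ _ h1' (hsym _ (Or.inr rfl) _ (Or.inl rfl)) (heq ▸ h')
        · exact h3 _ _ h2' (hsym _ (Or.inr rfl) _ (Or.inr rfl)) (heq ▸ h')
    have hle : #B' ≤ #{v : Node W A | Le v x} := by
      refine Cardinal.mk_le_of_injective
        (f := fun z : B' => (⟨c z.1 z.2.1 z.2.2, hc1 _ _ _⟩ : {v : Node W A | Le v x})) ?_
      rintro ⟨z, hz⟩ ⟨z', hz'⟩ h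
      have heq : c z hz.1 hz.2 = c z' hz'.1 hz'.2 := congrArg Subtype.val h
      by_contra hne'
      have hzz : z ≠ z' := fun h => hne' (Subtype.ext h)
      by_cases h1 : c z hz.1 hz.2 = z.1
      · by_cases h2 : c z' hz'.1 hz'.2 = z'.1
        · exact hzz (Subtype.ext (h1.symm.trans (heq.trans h2)))
        · exact hin z' z _ _ _ _ hzz.symm h2 heq.symm
      · exact hin z z' _ _ _ _ hzz h1 heq
    have hcompl : (B' : Set B)ᶜ ⊆ {(⟨x, hx⟩ : B), (⟨y, hy⟩ : B)} := by
      intro z hz
      simp only [B', Set.mem_compl_iff, Set.mem_setOf_eq, not_and_or, not_not] at hz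
      rcases hz with h | h
      · exact Or.inl h.symm
      · exact Or.inr h
    have h1 : #B ≤ #A := by
      have h2 : #B = #B' + #((B' : Set B)ᶜ : Set B) := (Cardinal.mk_sum_compl B').symm
      have h3 : #((B' : Set B)ᶜ : Set B) ≤ #A := by
        refine ((Set.Finite.subset (Set.toFinite _) hcompl).lt_aleph0).le.trans hA
      have h4 : #B' ≤ #A := hle.trans ((card_below x).trans hopt.le)
      rw [h2]
      exact (add_le_add h4 h3).trans (Cardinal.add_eq_self hA).le
    rw [hB] at h1
    exact absurd h1 (not_le.2 (Order.lt_succ _))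

/-- The node given by the restriction of a function to an initial segment. -/
noncomputable def mk (α : W) (s : W → A) (h : ∀ β γ, β < α → γ < α → s β = s γ → β = γ) :
    Node W A where
  len := α
  val := fun β => if β < α then some (s β) else none
  dom := by
    intro β
    by_cases hβ : β < α
    · simp [hβ]
    · simp [hβ, not_lt.1 hβ]
  inj := by
    intro β γ hβ hγ hh
    simp only [hβ, hγ, if_true, Option.some.injEq] at hh
    exact h β γ hβ hγ hh

lemma no_coloring [WellFoundedLT W] [Nonempty A] (hW : #A < #W) {K : Type u} (hK : #K ≤ #A) :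
    ¬ Nonempty ((G W A).Coloring K) := by
  classical
  rintro ⟨c⟩
  obtain ⟨ι⟩ : Nonempty (K ↪ A) := hK
  let a0 : A := Classical.arbitrary A
  let F : ∀ α : W, (∀ β, β < α → A) → A := fun α g =>
    if h : ∀ β γ, β < α → γ < α →
        (fun β => if h : β < α then g β h else a0) β = (fun β => if h : β < α then g β h else a0) γ →
        β = γ then
      ι (c (mk α (fun β => if h : β < α then g β h else a0) h))
    else a0
  let s : W → A := (wellFounded_lt (α := W)).fix F
  have hs : ∀ α, ∀ h : (∀ β γ, β < α → γ < α → s β = s γ → β = γ),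
      s α = ι (c (mk α s h)) := by
    intro α h
    have e : s α = F α (fun β _ => s β) := (wellFounded_lt (α := W)).fix_eq F α
    rw [e]
    have h' : ∀ β γ, β < α → γ < α →
        (fun β => if _h : β < α then s β else a0) β = (fun β => if _h : β < α then s β else a0) γ →
        β = γ := by
      intro β γ hβ hγ hh
      simp only [hβ, hγ, dif_pos] at hh
      exact h β γ hβ hγ hh
    simp only [F]
    rw [dif_pos h']
    congr 2
    refine node_ext rfl ?_
    intro β hβ
    have hβ' : β < α := hβ
    simp only [mk, hβ', if_true, dif_pos]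
  have hinj : ∀ α, ∀ β γ, β < α → γ < α → s β = s γ → β = γ := by
    intro α
    induction α using WellFoundedLT.induction with
    | ind α ih =>
      have key : ∀ β γ, β < γ → γ < α → s β ≠ s γ := by
        intro β γ hβγ hγ heq
        have hb := ih β (hβγ.trans hγ)
        have hg := ih γ hγ
        rw [hs β hb, hs γ hg] at heq
        have hadj : (G W A).Adj (mk β s hb) (mk γ s hg) := by
          refine ⟨?_, Or.inl ⟨hβγ.le, ?_⟩⟩
          · intro h
            have : (mk β s hb).len = (mk γ s hg).len := by rw [h]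
            exact absurd this (ne_of_lt hβγ)
          · intro δ hδ
            have hδ' : δ < β := hδ
            simp [mk, hδ', hδ'.trans hβγ]
        exact c.valid hadj (ι.injective heq)
      intro β γ hβ hγ heq
      rcases lt_trichotomy β γ with h | h | h
      · exact absurd heq (key β γ h hγ)
      · exact h
      · exact absurd heq.symm (key γ β h hβ)
  have hinj' : Function.Injective s := by
    intro β γ heq
    by_contra hne
    have key : ∀ β γ, β < γ → s β ≠ s γ := by
      intro β γ hβγ heq
      rw [hs β (hinj β), hs γ (hinj γ)] at heq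
      have hadj : (G W A).Adj (mk β s (hinj β)) (mk γ s (hinj γ)) := by
        refine ⟨?_, Or.inl ⟨hβγ.le, ?_⟩⟩
        · intro h
          have : (mk β s (hinj β)).len = (mk γ s (hinj γ)).len := by rw [h]
          exact absurd this (ne_of_lt hβγ)
        · intro δ hδ
          have hδ' : δ < β := hδ
          simp [mk, hδ', hδ'.trans hβγ]
      exact c.valid hadj (ι.injective heq)
    rcases lt_or_gt_of_ne hne with h | h
    · exact key β γ h heq
    · exact key γ β h heq.symm
  exact absurd (Cardinal.mk_le_of_injective hinj') (not_le.2 hW)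

end Tree

/-- **Q1, disproof for every infinite cardinal.** For every infinite cardinal `a` there is a
graph with chromatic number exactly `a⁺` that contains no subdivision of `K_{a⁺}`. -/
theorem result : ∀ a : Cardinal.{u}, ℵ₀ ≤ a →
    ∃ (V : Type u) (G : SimpleGraph V), chi G = Order.succ a ∧
      ¬ HasSubdivision G (Order.succ a) := by
  intro a ha
  let A : Type u := a.out
  let W : Type u := (Order.succ a).ord.ToType
  have hA : #A = a := Cardinal.mk_out a
  have hW : #W = Order.succ a := by
    simp only [W, Cardinal.mk_toType, Cardinal.card_ord]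
  have hne : Nonempty A := by
    rw [← Cardinal.mk_ne_zero_iff, hA]
    exact (lt_of_lt_of_le Cardinal.aleph0_pos ha).ne'
  refine ⟨Node W A, G W A, ?_, ?_⟩
  · apply _root_.le_antisymm
    · refine csInf_le' ⟨W, hW, ⟨SimpleGraph.Coloring.mk (fun x => x.len) ?_⟩⟩
      intro x y h he
      rcases h.2 with h1 | h1
      · exact h.1 (node_ext he h1.2)
      · exact h.1 (node_ext he.symm h1.2).symm
    · refine le_csInf ⟨_, _, rfl, ⟨SimpleGraph.selfColoring _⟩⟩ ?_
      rintro κ ⟨K, rfl, hK⟩
      rw [Order.succ_le_iff]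
      by_contra hlt
      push Not at hlt
      exact no_coloring (W := W) (A := A) (by rw [hA, hW]; exact Order.lt_succ a)
        (by rw [hA]; exact hlt) hK
  · have := no_subdivision (W := W) (A := A) (by rw [hA]; exact ha)
    rwa [hA] at this

end Pool.Agent.Results.MP_e76a7e_co.InjectiveSequences
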