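import Mathlib

/-!
# MP_e77370_co: total size of non-empty cross-`q`-intersecting families

The conjectured bound `max {M₁, M₂}` fails for every `q ≥ 2`: take for each `F_j` all `k_j`-sets
meeting `[q+2]` in at least `q+1` points.
-/

namespace Pool.Agent.Results.MP_e77370_co.FranklTuple

open Finset

/-- The parameters are admissible: `t ≥ 2`, `q ≥ 1`, `k_1 ≥ ... ≥ k_t ≥ q + 1`, and
`n ≥ k_1 + k_2 - q + 1`. -/
def Admissible (t q n : ℕ) (k : ℕ → ℕ) : Prop :=
  2 ≤ t ∧ 1 ≤ q ∧ (∀ i j, 1 ≤ i → i ≤ j → j ≤ t → k j ≤ k i) ∧ q + 1 ≤ k t ∧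
    k 1 + k 2 + 1 ≤ n + q

/-- The number `M₁`. -/
def M₁ (t q n : ℕ) (k : ℕ → ℕ) : ℤ :=
  (n.choose (k 1) : ℤ) - ∑ j ∈ range q, ((k t).choose j : ℤ) * ((n - k t).choose (k 1 - j) : ℤ)
    + ∑ j ∈ Icc 2 t, ((n - k t).choose (k j - k t) : ℤ)

/-- The number `M₂`. -/
def M₂ (t q n : ℕ) (k : ℕ → ℕ) : ℤ := ∑ j ∈ Icc 1 t, ((n - q).choose (k j - q) : ℤ)

/-- The inequality of the question, for all non-empty cross-`q`-intersecting families
`F_j` of `k_j`-subsets of an `n`-set, `1 ≤ j ≤ t`. -/
def Bound (t q n : ℕ) (k : ℕ → ℕ) : Prop :=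
  ∀ F : ℕ → Finset (Finset (Fin n)),
    (∀ j ∈ Icc 1 t, F j ⊆ powersetCard (k j) univ ∧ (F j).Nonempty) →
    (∀ i ∈ Icc 1 t, ∀ j ∈ Icc 1 t, i ≠ j → ∀ A ∈ F i, ∀ B ∈ F j, q ≤ (A ∩ B).card) →
    ∑ j ∈ Icc 1 t, ((F j).card : ℤ) ≤ max (M₁ t q n k) (M₂ t q n k)

lemma card_trace {n : ℕ} (T U : Finset (Fin n)) (hU : U ⊆ T) {k : ℕ} (hk : U.card ≤ k) :
    ((powersetCard k (univ : Finset (Fin n))).filter (fun F => F ∩ T = U)).card
      = (n - T.card).choose (k - U.card) := by
  classical
  have hc : (univ \ T).card = n - T.card := by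
    rw [card_sdiff_of_subset (subset_univ _), card_univ, Fintype.card_fin]
  rw [← hc, ← card_powersetCard]
  refine card_nbij' (fun F => F \ T) (fun G => G ∪ U) ?_ ?_ ?_ ?_
  · intro F hF
    simp only [coe_filter, mem_powersetCard_univ, Set.mem_ofPred_eq] at hF
    simp only [mem_coe, mem_powersetCard]
    refine ⟨sdiff_subset_sdiff (subset_univ _) Subset.rfl, ?_⟩
    have := card_inter_add_card_sdiff F T
    rw [hF.2, hF.1] at this
    omega
  · intro G hG
    simp only [mem_coe, mem_powersetCard] at hG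
    simp only [coe_filter, mem_powersetCard_univ, Set.mem_ofPred_eq]
    have hd : Disjoint G U := by
      rw [disjoint_left]
      intro z hz hzU
      exact (mem_sdiff.1 (hG.1 hz)).2 (hU hzU)
    refine ⟨?_, ?_⟩
    · rw [card_union_of_disjoint hd, hG.2]; omega
    · ext z
      have e1 := @hU z
      have e2 := @hG.1 z
      simp only [mem_inter, mem_union, mem_sdiff, mem_univ, true_and] at e2 ⊢
      tauto
  · intro F hF
    simp only [coe_filter, mem_powersetCard_univ, Set.mem_ofPred_eq] at hF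
    show F \ T ∪ U = F
    rw [← hF.2]
    ext z
    simp only [mem_inter, mem_union, mem_sdiff]
    tauto
  · intro G hG
    simp only [mem_coe, mem_powersetCard] at hG
    show (G ∪ U) \ T = G
    ext z
    have e1 := @hU z
    have e2 := @hG.1 z
    simp only [mem_union, mem_sdiff, mem_univ, true_and] at e2 ⊢
    tauto

/-- The Frankl family: `k`-sets meeting `T` in at least `q + 1` points. -/
def frankl {n : ℕ} (T : Finset (Fin n)) (q k : ℕ) : Finset (Finset (Fin n)) :=
  (powersetCard k univ).filter (fun F => q + 1 ≤ (F ∩ T).card)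

lemma frankl_inter {n : ℕ} {T : Finset (Fin n)} {q k l : ℕ} (hT : T.card = q + 2)
    {A B : Finset (Fin n)} (hA : A ∈ frankl T q k) (hB : B ∈ frankl T q l) :
    q ≤ (A ∩ B).card := by
  classical
  have hA := (mem_filter.1 hA).2
  have hB := (mem_filter.1 hB).2
  have h1 := card_union_add_card_inter (A ∩ T) (B ∩ T)
  have h2 : (A ∩ T ∪ B ∩ T).card ≤ T.card :=
    card_le_card (union_subset inter_subset_right inter_subset_right)
  have h3 : ((A ∩ T) ∩ (B ∩ T)).card ≤ (A ∩ B).card := by
    apply card_le_card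
    intro z hz
    simp only [mem_inter] at hz ⊢
    tauto
  omega

/-- In the range `n < (q+1)(k-q+1)` the Frankl family has more than `C(n-q, k-q)` members. -/
lemma frankl_card {n : ℕ} {T : Finset (Fin n)} {q k : ℕ} (hT : T.card = q + 2)
    (hk : q + 1 ≤ k) (hn : k + 1 ≤ n) (hlt : n < (q + 1) * (k - q + 1)) :
    (n - q).choose (k - q) < (frankl T q k).card := by
  classical
  obtain ⟨Q, hQT, hQ⟩ := exists_subset_card_eq (show q ≤ T.card by omega)
  set S := (powersetCard k (univ : Finset (Fin n))).filter (fun F => F ∩ Q = Q) with hS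
  have cS : S.card = (n - q).choose (k - q) := by
    rw [hS, card_trace Q Q Subset.rfl (by omega), hQ]
  set D := (powersetCard k (univ : Finset (Fin n))).filter (fun F => F ∩ T = Q) with hD
  have cD : D.card = (n - q - 2).choose (k - q) := by
    rw [hD, card_trace T Q hQT (by omega), hQ, hT]
    congr 1
  set E := Q.biUnion fun i =>
    (powersetCard k (univ : Finset (Fin n))).filter (fun F => F ∩ T = T.erase i) with hE
  have cE : E.card = q * (n - q - 2).choose (k - q - 1) := by
    rw [hE, card_biUnion]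
    · have : ∀ i ∈ Q, ((powersetCard k (univ : Finset (Fin n))).filter
          (fun F => F ∩ T = T.erase i)).card = (n - q - 2).choose (k - q - 1) := by
        intro i hi
        have hc : (T.erase i).card = q + 1 := by
          rw [card_erase_of_mem (hQT hi), hT]; rfl
        rw [card_trace T _ (erase_subset _ _) (by omega), hc, hT]
        rw [show n - (q + 2) = n - q - 2 by omega, show k - (q + 1) = k - q - 1 by omega]
      rw [sum_congr rfl this, sum_const, hQ, smul_eq_mul]
    · intro i hi j hj hij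
      refine disjoint_left.2 ?_
      intro F hF hF'
      have e1 := (mem_filter.1 hF).2
      have e2 := (mem_filter.1 hF').2
      rw [e1] at e2
      have : i ∈ T.erase j := mem_erase.2 ⟨hij, hQT hi⟩
      rw [← e2] at this
      exact (mem_erase.1 this).1 rfl
  -- `S ⊆ frankl ∪ D`, `E ⊆ frankl \ S`
  have h1 : S \ D ⊆ frankl T q k := by
    intro F hF
    obtain ⟨hF1, hF2⟩ := mem_sdiff.1 hF
    obtain ⟨hF3, hF4⟩ := mem_filter.1 hF1
    refine mem_filter.2 ⟨hF3, ?_⟩
    have hQF : Q ⊆ F ∩ T := subset_inter (by rw [← hF4]; exact inter_subset_left) hQT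
    have hne : Q ≠ F ∩ T := by
      intro h
      exact hF2 (mem_filter.2 ⟨hF3, h.symm⟩)
    have := card_lt_card (hQF.ssubset_of_ne hne)
    omega
  have h2 : E ⊆ frankl T q k := by
    intro F hF
    obtain ⟨i, hi, hF⟩ := mem_biUnion.1 hF
    obtain ⟨hF3, hF4⟩ := mem_filter.1 hF
    refine mem_filter.2 ⟨hF3, ?_⟩
    rw [hF4, card_erase_of_mem (hQT hi), hT]
    omega
  have h3 : Disjoint (S \ D) E := by
    rw [disjoint_left]
    intro F hF hF'
    obtain ⟨i, hi, hF'⟩ := mem_biUnion.1 hF'
    have e1 := (mem_filter.1 (mem_sdiff.1 hF).1).2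
    have e2 := (mem_filter.1 hF').2
    have : i ∈ F ∩ T := by
      rw [← e1] at hi
      exact mem_inter.2 ⟨(mem_inter.1 hi).1, hQT (mem_inter.1 hi).2⟩
    rw [e2] at this
    exact (mem_erase.1 this).1 rfl
  have h4 : (S \ D).card + E.card ≤ (frankl T q k).card := by
    rw [← card_union_of_disjoint h3]
    exact card_le_card (union_subset h1 h2)
  have h5 : S.card ≤ (S \ D).card + D.card := by
    have e := card_le_card (show S ⊆ (S \ D) ∪ D by
      intro F hF
      by_cases h : F ∈ D
      · exact mem_union_right _ h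
      · exact mem_union_left _ (mem_sdiff.2 ⟨hF, h⟩))
    exact e.trans (card_union_le _ _)
  -- the numerical inequality
  have h6 : (n - q - 2).choose (k - q) < q * (n - q - 2).choose (k - q - 1) := by
    obtain ⟨a, ha⟩ : ∃ a, k = q + 1 + a := ⟨k - q - 1, by omega⟩
    subst ha
    obtain ⟨b, hb⟩ : ∃ b, n = q + 2 + a + b := ⟨n - q - 2 - a, by omega⟩
    subst hb
    have e1 : q + 2 + a + b - q - 2 = a + b := by omega
    have e2 : q + 1 + a - q = a + 1 := by omega
    rw [e1, e2, show a + 1 - 1 = a by omega]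
    rw [show q + 1 + a - q + 1 = a + 2 by omega] at hlt
    have r := Nat.choose_succ_right_eq (a + b) a
    rw [show a + b - a = b by omega] at r
    have hpos : 0 < (a + b).choose a := Nat.choose_pos (by omega)
    have hbq : b < q * (a + 1) := by nlinarith
    have : (a + b).choose (a + 1) * (a + 1) < q * (a + b).choose a * (a + 1) := by
      rw [r]
      calc (a + b).choose a * b < (a + b).choose a * (q * (a + 1)) :=
            Nat.mul_lt_mul_of_pos_left hbq hpos
        _ = _ := by ring
    exact Nat.lt_of_mul_lt_mul_right this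
  rw [← cS]
  omega

/-- **Main theorem.** The bound fails for all admissible parameters with `q ≥ 2`,
`n < (q+1)(k_t - q + 1)` and `t > C(n, k_1)`; for every `q ≥ 2` and every `κ ≥ q + 1` there are
such parameters with `k_1 = ... = k_t = κ`; and it fails for `t = 3`, `q = 2`, `n = 5`,
`k_1 = k_2 = k_3 = 3`. -/
theorem result :
    (∀ (t q n : ℕ) (k : ℕ → ℕ), Admissible t q n k → 2 ≤ q → n < (q + 1) * (k t - q + 1) →
      n.choose (k 1) < t → ¬ Bound t q n k) ∧
    (∀ q κ : ℕ, 2 ≤ q → q + 1 ≤ κ → ∃ n : ℕ, ∀ t : ℕ, n.choose κ < t → 2 ≤ t →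
      Admissible t q n (fun _ => κ) ∧ ¬ Bound t q n (fun _ => κ)) ∧
    (Admissible 3 2 5 (fun _ => 3) ∧ ¬ Bound 3 2 5 (fun _ => 3)) := by
  classical
  have main : ∀ (t q n : ℕ) (k : ℕ → ℕ), Admissible t q n k → 2 ≤ q →
      n < (q + 1) * (k t - q + 1) → n.choose (k 1) < t → ¬ Bound t q n k := by
    intro t q n k hA hq hn ht hB
    obtain ⟨a1, a2, a3, a4, a5⟩ := hA
    have hmono : ∀ j ∈ Icc 1 t, k t ≤ k j ∧ k j ≤ k 1 := by
      intro j hj
      rw [mem_Icc] at hj
      exact ⟨a3 j t hj.1 hj.2 le_rfl, a3 1 j le_rfl hj.1 hj.2⟩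
    have h2 := (hmono 2 (by rw [mem_Icc]; omega)).1
    have hn2 : q + 2 ≤ n := by
      have := (hmono 1 (by rw [mem_Icc]; omega)).1
      omega
    obtain ⟨T, -, hT⟩ := exists_subset_card_eq
      (show q + 2 ≤ (univ : Finset (Fin n)).card by rw [card_univ, Fintype.card_fin]; exact hn2)
    have hcard : ∀ j ∈ Icc 1 t, (n - q).choose (k j - q) < (frankl T q (k j)).card := by
      intro j hj
      obtain ⟨b1, b2⟩ := hmono j hj
      refine frankl_card hT (by omega) (by omega) (lt_of_lt_of_le hn ?_)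
      exact Nat.mul_le_mul_left _ (by omega)
    have hcard' : ∀ j ∈ Icc 1 t, (n - k t).choose (k j - k t) < (frankl T q (k j)).card := by
      intro j hj
      obtain ⟨b1, b2⟩ := hmono j hj
      refine lt_of_le_of_lt ?_ (hcard j hj)
      have c1 : (n - k t).choose (k j - k t) = (n - k t).choose (n - k j) := by
        rw [← Nat.choose_symm (show k j - k t ≤ n - k t by omega)]
        congr 1
        omega
      have c2 : (n - q).choose (k j - q) = (n - q).choose (n - k j) := by
        rw [← Nat.choose_symm (show k j - q ≤ n - q by omega)]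
        congr 1
        omega
      rw [c1, c2]
      exact Nat.choose_le_choose _ (by omega)
    have hle := hB (fun j => frankl T q (k j))
      (fun j hj => ⟨filter_subset _ _, card_pos.1 (lt_of_le_of_lt (Nat.zero_le _) (hcard j hj))⟩)
      (fun i _ j _ _ A hA B hB => frankl_inter hT hA hB)
    rcases le_max_iff.1 hle with h | h
    · -- comparison with `M₁`
      unfold M₁ at h
      have s1 : (0 : ℤ) ≤ ∑ j ∈ range q,
          ((k t).choose j : ℤ) * ((n - k t).choose (k 1 - j) : ℤ) :=
        sum_nonneg fun j _ => by positivity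
      have s2 : Icc 1 t = insert 1 (Icc 2 t) := by
        ext j; simp only [mem_Icc, mem_insert]; omega
      rw [s2, sum_insert (by simp)] at h
      have s3 : ∑ j ∈ Icc 2 t, (((n - k t).choose (k j - k t) : ℤ) + 1)
          ≤ ∑ j ∈ Icc 2 t, ((frankl T q (k j)).card : ℤ) := by
        refine sum_le_sum fun j hj => ?_
        have := hcard' j (by rw [mem_Icc] at hj ⊢; omega)
        exact_mod_cast this
      rw [sum_add_distrib, sum_const, Nat.card_Icc] at s3
      have s4 := hcard' 1 (by rw [mem_Icc]; omega)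
      have s5 : (1 : ℤ) ≤ ((frankl T q (k 1)).card : ℤ) := by
        exact_mod_cast lt_of_le_of_lt (Nat.zero_le _) s4
      have s6 : ((n.choose (k 1) : ℕ) : ℤ) < (t : ℤ) := by exact_mod_cast ht
      have s7 : ((t + 1 - 2 : ℕ) : ℤ) = (t : ℤ) - 1 := by
        have : t + 1 - 2 = t - 1 := by omega
        rw [this]
        push_cast [Nat.cast_sub (show 1 ≤ t by omega)]
        ring
      rw [nsmul_eq_mul, s7, mul_one] at s3
      linarith
    · unfold M₂ at h
      have s1 : ∑ j ∈ Icc 1 t, ((n - q).choose (k j - q) : ℤ)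
          < ∑ j ∈ Icc 1 t, ((frankl T q (k j)).card : ℤ) := by
        refine sum_lt_sum_of_nonempty ⟨1, by rw [mem_Icc]; omega⟩ fun j hj => ?_
        exact_mod_cast hcard j hj
      linarith
  refine ⟨main, ?_, ⟨⟨by norm_num, by norm_num, fun _ _ _ _ _ => le_rfl, by norm_num,
    by norm_num⟩, ?_⟩⟩
  · intro q κ hq hκ
    refine ⟨2 * κ - q + 1, fun t ht h2 => ?_⟩
    have hA : Admissible t q (2 * κ - q + 1) (fun _ => κ) :=
      ⟨h2, by omega, fun _ _ _ _ _ => le_rfl, hκ, by
        show κ + κ + 1 ≤ 2 * κ - q + 1 + q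
        omega⟩
    refine ⟨hA, main t q _ _ hA hq ?_ ht⟩
    show 2 * κ - q + 1 < (q + 1) * (κ - q + 1)
    obtain ⟨a, rfl⟩ : ∃ a, κ = q + 1 + a := ⟨κ - q - 1, by omega⟩
    rw [show q + 1 + a - q + 1 = a + 2 by omega]
    have : 2 * (q + 1 + a) - q + 1 = q + 2 * a + 3 := by omega
    rw [this]
    nlinarith
  · intro hB
    obtain ⟨T, -, hT⟩ := exists_subset_card_eq
      (show 4 ≤ (univ : Finset (Fin 5)).card by simp)
    have hc : 4 ≤ (frankl T 2 3).card := by
      have := frankl_card (n := 5) (T := T) (q := 2) (k := 3) hT (by norm_num) (by norm_num)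
        (by norm_num)
      have e : (5 - 2).choose (3 - 2) = 3 := by decide
      omega
    have hle := hB (fun _ => frankl T 2 3)
      (fun j _ => ⟨filter_subset _ _, card_pos.1 (by omega)⟩)
      (fun i _ j _ _ A hA B hB => frankl_inter hT hA hB)
    have e1 : M₁ 3 2 5 (fun _ => 3) = 9 := by
      unfold M₁
      decide
    have e2 : M₂ 3 2 5 (fun _ => 3) = 9 := by
      unfold M₂
      decide
    rw [e1, e2, sum_const, Nat.card_Icc] at hle
    have : (4 : ℤ) ≤ ((frankl T 2 3).card : ℤ) := by exact_mod_cast hc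
    norm_num at hle
    omega

end Pool.Agent.Results.MP_e77370_co.FranklTuple
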