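import Pool.Agent.Q81.TF.Rect

open Set MeasureTheory

namespace Pool.Agent.Results.MP_e83d7b_an.LipschitzProfiles

open Pool.Agent.Q81.TF (dom dx dt IsClassicalSolution FiniteDissipation)

/-- Close to the contact line and locally in time, the slope `h_x(·, t)` is bounded by `L(t)`, where
`L ^ 2` is integrable. Nothing else is supposed on the behaviour of the solution at the contact
line. -/
def SlopeBounded (δ T : ℝ) (s : ℝ → ℝ) (h : ℝ → ℝ → ℝ) : Prop :=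
  ∀ t₀ ∈ Ioo 0 T, ∃ ρ > 0, ∃ r > 0, ∃ L : ℝ → ℝ,
    IntegrableOn (fun t => L t ^ 2) (Ioo (t₀ - r) (t₀ + r)) ∧
      ∀ t ∈ Ioo 0 T, |t - t₀| < r → ∀ x, s t < x → x < s t + ρ → x < s t + δ →
        |dx 1 h (x, t)| ≤ L t

/-- Finite dissipation and Lipschitz profiles: the contact line does not move. -/
theorem result (n δ T : ℝ) (hn : 3 ≤ n) (hδ : 0 < δ) (s : ℝ → ℝ) (h : ℝ → ℝ → ℝ)
    (hsol : IsClassicalSolution n δ T s h) (hfin : FiniteDissipation n δ T s h)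
    (hlip : SlopeBounded δ T s h) : ∃ s₀, ∀ t ∈ Ioo 0 T, s t = s₀ := by
  apply hsol.const_of_rect hδ
  intro t₀ ht₀
  obtain ⟨ρ, hρ, r, hr, L, hL, hLb⟩ := hlip t₀ ht₀
  refine ⟨ρ, hρ, r, hr, ?_⟩
  intro x0 x1 t1 t2 h12 h1 h2 h3 h4 hs
  have hs' : ∀ t ∈ Icc t1 t2, x0 < s t ∧ s t < x1 ∧ x1 < s t + δ := fun t ht =>
    ⟨(hs t ht).1, (hs t ht).2.1, (hs t ht).2.2.trans_le (by linarith [min_le_right ρ δ])⟩
  have F := hsol.flow hδ h12 h1 h2 hs'
  have hD := (Pool.Agent.Q81.TF.dom_open hsol).measurableSet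
  apply F.lip_crit (fun z hz => Pool.Agent.Q81.TF.dom_sub hz) hn
    (Pool.Agent.Q81.TF.fin_dis hfin x0 x1 t1 t2 hD) (L := L)
  · exact hL.mono_set (fun t ht => ⟨by linarith [ht.1], by linarith [ht.2]⟩)
  · intro τ hτ x hx hsx
    have hτ' : τ ∈ Icc t1 t2 := ⟨hτ.1.le, hτ.2⟩
    have h5 := (hs τ hτ').2.2
    have h6 : min ρ δ ≤ ρ := min_le_left _ _
    have h7 : min ρ δ ≤ δ := min_le_right _ _
    apply hLb τ ⟨by linarith [hτ.1], by linarith [hτ.2]⟩ _ x hsx (by linarith [hx.2])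
      (by linarith [hx.2])
    rw [abs_lt]
    constructor <;> linarith [hτ.1, hτ.2]

end Pool.Agent.Results.MP_e83d7b_an.LipschitzProfiles
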