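import Pool.Agent.Q81.TF.NoNeck

open Set MeasureTheory

namespace Pool.Agent.Withdrawn.MP_e83d7b_an_NoDeepNecks

open Pool.Agent.Q81.TF (dom dx dt IsClassicalSolution FiniteDissipation)

/-- Close to the contact line and locally uniformly in time, the necks of the profiles `h(·, t)` are
not too deep: if `x < y < z` then `h(y, t) ≥ κ * min(h(x, t), h(z, t)) ^ β`. For `β = 1` and
`κ = 1` this says that the profile is quasiconcave near the contact point (for example monotone or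
concave). -/
def NecksBounded (β δ T : ℝ) (s : ℝ → ℝ) (h : ℝ → ℝ → ℝ) : Prop :=
  ∀ t₀ ∈ Ioo 0 T, ∃ κ > 0, ∃ ρ > 0, ∃ r > 0, ∀ t ∈ Ioo 0 T, |t - t₀| < r →
    ∀ x y z, s t < x → x < y → y < z → z < s t + ρ → z < s t + δ →
      κ * (min (h x t) (h z t)) ^ β ≤ h y t

/-- Finite dissipation and no deep necks: the contact line does not move. -/
theorem result (n β δ T : ℝ) (hn : 3 ≤ n) (hβ : 1 ≤ β) (hβ1 : n * β ≤ 5 * n - 12)
    (hβ2 : 2 * (n * β) < 5 * n - 4) (hδ : 0 < δ) (s : ℝ → ℝ) (h : ℝ → ℝ → ℝ)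
    (hsol : IsClassicalSolution n δ T s h) (hfin : FiniteDissipation n δ T s h)
    (hneck : NecksBounded β δ T s h) : ∃ s₀, ∀ t ∈ Ioo 0 T, s t = s₀ := by
  apply Pool.Agent.Q81.TF.const_of_local
  intro t₀ ht₀
  obtain ⟨κ, hκ, ρ, hρ, r, hr, hN⟩ := hneck t₀ ht₀
  obtain ⟨ρ', hρ'⟩ : ∃ ρ', ρ' = min ρ δ := ⟨_, rfl⟩
  have hρ'0 : 0 < ρ' := by rw [hρ']; exact lt_min hρ hδ
  have hρ'1 : ρ' ≤ ρ := by rw [hρ']; exact min_le_left _ _
  have hρ'2 : ρ' ≤ δ := by rw [hρ']; exact min_le_right _ _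
  have hc : ContinuousAt s t₀ := hsol.contact_continuous.continuousAt (Ioo_mem_nhds ht₀.1 ht₀.2)
  obtain ⟨r1, hr1, hr1'⟩ := Metric.continuousAt_iff.1 hc (ρ' / 4) (by positivity)
  refine ⟨min r r1, lt_min hr hr1, ?_⟩
  intro t1 t2 h1 h12 h2 h3 h4
  have hnear : ∀ t ∈ Icc t1 t2, t ∈ Ioo 0 T ∧ |t - t₀| < r ∧ |s t - s t₀| < ρ' / 4 := by
    intro t ht
    have e1 : |t - t₀| < min r r1 := by
      rw [abs_lt]
      constructor <;> linarith [ht.1, ht.2]
    refine ⟨⟨h3.trans_le ht.1, ht.2.trans_lt h4⟩, e1.trans_le (min_le_left _ _), ?_⟩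
    have e2 := hr1' (x := t) (by
      rw [Real.dist_eq]
      exact e1.trans_le (min_le_right _ _))
    rwa [Real.dist_eq] at e2
  apply hsol.local_const hδ hfin hn (κ := min κ 1) (β := β) (ρ := ρ') (lt_min hκ one_pos)
    (min_le_right _ _) hβ hβ1 hβ2 hρ'2 (x0 := s t₀ - ρ') (x1 := s t₀ + ρ' / 2) h12 h3 h4
  · intro t ht
    obtain ⟨_, _, e3⟩ := hnear t ht
    rw [abs_lt] at e3
    refine ⟨by linarith [e3.1], by linarith [e3.2], by linarith [e3.1]⟩
  · intro t ht x y z hx hy hz hzρ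
    obtain ⟨e1, e2, _⟩ := hnear t ht
    refine le_trans ?_ (hN t e1 e2 x y z hx hy hz (by linarith) (by linarith))
    apply mul_le_mul_of_nonneg_right (min_le_left _ _)
    have hpos : ∀ u, s t < u → u < s t + ρ' → 0 ≤ h u t := fun u hu1 hu2 =>
      (hsol.positive (u, t) ⟨e1, hu1, by show u < s t + δ; linarith⟩).le
    exact Real.rpow_nonneg (le_min (hpos x hx (by linarith)) (hpos z (by linarith) hzρ)) _

end Pool.Agent.Withdrawn.MP_e83d7b_an_NoDeepNecks
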