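import Pool.Agent.Q81.TF.DeepC

open Set MeasureTheory

namespace Pool.Agent.Results.MP_e83d7b_an.SuperDeepNecks

open Pool.Agent.Q81.TF (dom dx dt IsClassicalSolution FiniteDissipation depth)

/-- Close to the contact line and locally in time, the depth of the necks of the profiles `h(·, t)` is
bounded: if `x < y < z` and `v = min(h(x, t), h(z, t))`, then
`depth n (h(y, t)) ≤ l(t) * (1 + |log v|) ^ 5 * v ^ (-γ)`, where `l ≥ 1` and `l ^ (2 / 3)` is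
integrable. If `n = 3` and `γ = 0` then this says that
`h(y, t) ≥ exp(- l(t) * (1 + |log v|) ^ 5)`; if `n > 3` it follows from
`h(y, t) ≥ κ * v ^ (γ / (n - 3))`. -/
def NecksBounded (n γ δ T : ℝ) (s : ℝ → ℝ) (h : ℝ → ℝ → ℝ) : Prop :=
  ∀ t₀ ∈ Ioo 0 T, ∃ ρ > 0, ∃ r > 0, ∃ l : ℝ → ℝ, (∀ t, 1 ≤ l t) ∧
    IntegrableOn (fun t => l t ^ ((2 : ℝ) / 3)) (Ioo (t₀ - r) (t₀ + r)) ∧
      ∀ t ∈ Ioo 0 T, |t - t₀| < r →
        ∀ x y z, s t < x → x < y → y < z → z < s t + ρ → z < s t + δ →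
          depth n (h y t) ≤ l t * ((1 + |Real.log (min (h x t) (h z t))|) ^ 5 *
            (min (h x t) (h z t)) ^ (-γ))

/-- Finite dissipation and a bound for the depth of the necks: the contact line does not move. -/
theorem result (n γ δ T : ℝ) (hn : 3 ≤ n) (hγ : n - 3 ≤ γ) (hγ5 : γ ≤ 5 * (n - 3))
    (hγ2 : 2 * γ < 5 * (n - 2)) (hδ : 0 < δ) (s : ℝ → ℝ) (h : ℝ → ℝ → ℝ)
    (hsol : IsClassicalSolution n δ T s h) (hfin : FiniteDissipation n δ T s h)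
    (hneck : NecksBounded n γ δ T s h) : ∃ s₀, ∀ t ∈ Ioo 0 T, s t = s₀ := by
  apply hsol.const_of_rect hδ
  intro t₀ ht₀
  obtain ⟨ρ, hρ, r, hr, l, hl, hli, hN⟩ := hneck t₀ ht₀
  refine ⟨ρ, hρ, r, hr, ?_⟩
  intro x0 x1 t1 t2 h12 h1 h2 h3 h4 hs
  apply hsol.local_deep hδ hfin hn hγ hγ5 hγ2 (min_le_right ρ δ) h12 h1 h2 hs hl
  · exact hli.mono_set (fun t ht => ⟨by linarith [ht.1], by linarith [ht.2]⟩)
  · intro t ht x y z hx hxy hyz hz
    have h6 : min ρ δ ≤ ρ := min_le_left _ _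
    have h7 : min ρ δ ≤ δ := min_le_right _ _
    apply hN t ⟨by linarith [ht.1], by linarith [ht.2]⟩ _ x y z hx hxy hyz (by linarith)
      (by linarith)
    rw [abs_lt]
    constructor <;> linarith [ht.1, ht.2]

end Pool.Agent.Results.MP_e83d7b_an.SuperDeepNecks
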