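import Pool.Agent.Q81.TF.Rect

open Set MeasureTheory

namespace Pool.Agent.Results.MP_e83d7b_an.WeightedGradient

open Pool.Agent.Q81.TF (dom dx dt IsClassicalSolution FiniteDissipation)

/-- Close to the contact line and locally in time, `h ^ (n - 4) * h_x ^ 2` is integrable. For
`n ≥ 4` this follows if the surface energy, the integral of `h_x ^ 2`, is integrable in time. -/
def GradientIntegrable (n δ T : ℝ) (s : ℝ → ℝ) (h : ℝ → ℝ → ℝ) : Prop :=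
  ∀ t₀ ∈ Ioo 0 T, ∃ ρ > 0, ∃ r > 0,
    IntegrableOn (fun z : ℝ × ℝ => h z.1 z.2 ^ (n - 4) * dx 1 h z ^ 2)
      {z ∈ dom s δ T | |z.2 - t₀| < r ∧ z.1 < s z.2 + ρ}

/-- Finite dissipation and square integrable gradient of `h ^ ((n - 2) / 2)`: the contact line does
not move. -/
theorem result (n δ T : ℝ) (hn : 3 ≤ n) (hδ : 0 < δ) (s : ℝ → ℝ) (h : ℝ → ℝ → ℝ)
    (hsol : IsClassicalSolution n δ T s h) (hfin : FiniteDissipation n δ T s h)
    (hgrad : GradientIntegrable n δ T s h) : ∃ s₀, ∀ t ∈ Ioo 0 T, s t = s₀ := by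
  apply hsol.const_of_rect hδ
  intro t₀ ht₀
  obtain ⟨ρ, hρ, r, hr, hI⟩ := hgrad t₀ ht₀
  refine ⟨ρ, hρ, r, hr, ?_⟩
  intro x0 x1 t1 t2 h12 h1 h2 h3 h4 hs
  have hs' : ∀ t ∈ Icc t1 t2, x0 < s t ∧ s t < x1 ∧ x1 < s t + δ := fun t ht =>
    ⟨(hs t ht).1, (hs t ht).2.1, (hs t ht).2.2.trans_le (by linarith [min_le_right ρ δ])⟩
  have F := hsol.flow hδ h12 h1 h2 hs'
  have hD := (Pool.Agent.Q81.TF.dom_open hsol).measurableSet
  apply F.grad_crit (fun z hz => Pool.Agent.Q81.TF.dom_sub hz) hn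
    (Pool.Agent.Q81.TF.fin_dis hfin x0 x1 t1 t2 hD)
  have hR : MeasurableSet (Ioc x0 x1 ×ˢ Ioc t1 t2) := measurableSet_Ioc.prod measurableSet_Ioc
  have h5 : IntegrableOn (fun z : ℝ × ℝ => h z.1 z.2 ^ (n - 4) * dx 1 h z ^ 2)
      (dom s δ T ∩ Ioc x0 x1 ×ˢ Ioc t1 t2) := by
    apply hI.mono_set
    rintro z ⟨hz, hz1, hz2⟩
    have h6 := (hs z.2 ⟨hz2.1.le, hz2.2⟩).2.2
    have h7 : min ρ δ ≤ ρ := min_le_left _ _
    refine ⟨hz, ?_, by linarith [hz1.2]⟩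
    rw [abs_lt]
    constructor <;> linarith [hz2.1, hz2.2]
  apply h5.congr_fun _ (hD.inter hR)
  intro z hz
  unfold Pool.Agent.Q81.TF.Fd Pool.Agent.Q81.TF.gf
  rw [indicator_of_mem hz.1]

end Pool.Agent.Results.MP_e83d7b_an.WeightedGradient
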