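import Pool.Agent.Q152.ShiftsLaw
import Pool.Agent.Q152.ShiftsPrimes
import Pool.Agent.Q152.PoissonCompare

/-!
# The primes in the windows at `r` typical distances: independence and the Poisson law, up to `O(1 / r)`

For all tuples `b` of integers in `[1, N]` with the exception of a proportion which is exponentially small in `r`,
every given statistic of the positions of the primes in the `r` windows `(n + b i, n + b i + h]`, of expected total
number of primes `r h / log N = O(1)`, has nearly the same mean over `n ≤ N` as for independent random sets which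
are empty or contain one uniformly distributed point. In particular the number of the primes in the union of the
windows has a Poisson law, as predicted by the conjecture of Hardy and Littlewood (Gallagher 1976).
-/

set_option autoImplicit false

namespace Pool.Agent.Results.MP_e87c7d_nt.PoissonWindows

open Finset Filter Pool.Agent.Q152.Shifts Pool.Agent.Q152.ShiftsPrimes Pool.Agent.Q152.ShiftsLaw
  Pool.Agent.Q152.PoissonCompare

open Classical in
/-- The number of the tuples of length `r` of elements of `{1, ..., x}` with the property `E`. -/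
noncomputable def tuples (x r : ℕ) (E : (Fin r → ℕ) → Prop) : ℝ :=
  (((Fintype.piFinset fun _ : Fin r => Icc 1 x).filter E).card : ℝ)

/-- The positions of the primes in the window `(m, m + h]`. -/
def pattern (h m : ℕ) : Finset ℕ := (Icc 1 h).filter fun j => (m + j).Prime

/-- The set with the only element `j`, or the empty set if `j = 0`. -/
def spot (j : ℕ) : Finset ℕ := if j = 0 then ∅ else {j}

/-- The probability of `spot j` in the model: `ρ` for each of the points `1, ..., h`. -/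
noncomputable def weight (ρ : ℝ) (h j : ℕ) : ℝ := if j = 0 then 1 - h * ρ else ρ

/-- The expectation of `φ` of `r` independent random sets, each equal to `{j}` with probability `ρ` for each
`j = 1, ..., h`, and empty otherwise. -/
noncomputable def model (ρ : ℝ) (h r : ℕ) (φ : (Fin r → Finset ℕ) → ℝ) : ℝ :=
  ∑ c ∈ Fintype.piFinset (fun _ : Fin r => range (h + 1)),
    (∏ i, weight ρ h (c i)) * φ (fun i => spot (c i))

/-- The mean over `n ≤ N` of `φ` of the positions of the primes in the windows `(n + b i, n + b i + h]`. -/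
noncomputable def mean (N h r : ℕ) (φ : (Fin r → Finset ℕ) → ℝ) (b : Fin r → ℕ) : ℝ :=
  (∑ n ∈ Icc 1 N, φ (fun i => pattern h (n + b i))) / N

theorem tuples_eq (x r : ℕ) (E : (Fin r → ℕ) → Prop) : tuples x r E = tup (Icc 1 x) r E := rfl

theorem card_pattern (h m : ℕ) : ((pattern h m).card : ℝ) = cnt m h := by
  rw [cnt_eq]
  unfold pattern ind
  rw [card_filter, Nat.cast_sum]
  apply sum_congr rfl
  intro j _
  push_cast
  rfl

theorem tendsto_log_nat : Tendsto (fun n : ℕ => Real.log (n : ℝ)) atTop atTop :=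
  Real.tendsto_log_atTop.comp tendsto_natCast_atTop_atTop

/-- The first order expansion of a function of a finite set. -/
theorem expand (ψ : Finset ℕ → ℝ) (hψ : ∀ A, 0 ≤ ψ A ∧ ψ A ≤ 1) (A : Finset ℕ) :
    |ψ A - ψ ∅ - ∑ j ∈ A, (ψ {j} - ψ ∅)| ≤ 3 / 2 * ((A.card : ℝ) ^ 2 - A.card) := by
  have h1 : ∀ B C, |ψ B - ψ C| ≤ 1 := by
    intro B C
    obtain ⟨a1, a2⟩ := hψ B
    obtain ⟨b1, b2⟩ := hψ C
    rw [abs_le]
    constructor <;> linarith
  rcases Nat.lt_or_ge A.card 2 with h | h
  · rcases Nat.lt_or_ge A.card 1 with h2 | h2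
    · have : A = ∅ := card_eq_zero.1 (by omega)
      rw [this]
      simp
    · have h3 : A.card = 1 := by omega
      obtain ⟨j, hj⟩ := card_eq_one.1 h3
      rw [hj]
      simp
  · have h3 : |∑ j ∈ A, (ψ {j} - ψ ∅)| ≤ A.card := by
      refine (abs_sum_le_sum_abs _ _).trans ?_
      calc ∑ j ∈ A, |ψ {j} - ψ ∅| ≤ ∑ _j ∈ A, (1 : ℝ) := sum_le_sum fun j _ => h1 _ _
        _ = A.card := by rw [sum_const, nsmul_eq_mul, mul_one]
    have h4 := abs_sub (ψ A - ψ ∅) (∑ j ∈ A, (ψ {j} - ψ ∅))
    have h5 := h1 A ∅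
    have h6 : (2 : ℝ) ≤ A.card := by exact_mod_cast h
    nlinarith

/-- One window. -/
theorem one_window : ∃ C : ℝ, 1 ≤ C ∧ ∀ δ : ℝ, 0 < δ → ∀ᶠ N : ℕ in atTop, ∀ h n : ℕ, h ≤ N → n ≤ N →
    ∀ ψ : Finset ℕ → ℝ, (∀ A, 0 ≤ ψ A ∧ ψ A ≤ 1) →
    |(∑ b ∈ Icc 1 N, ψ (pattern h (n + b))) / N -
      ∑ j ∈ range (h + 1), weight (1 / Real.log N) h j * ψ (spot j)| ≤
      δ * (h / Real.log N) + C * (h / Real.log N) ^ 2 := by
  obtain ⟨C, hC, u0, hsec⟩ := second
  refine ⟨3 / 2 * C, by linarith, fun δ hδ => ?_⟩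
  obtain ⟨N₁, hN₁3, hN₁⟩ := cnt_unif δ hδ
  filter_upwards [eventually_ge_atTop N₁, eventually_ge_atTop u0, eventually_ge_atTop 3] with
    N hN1 hNu hN3 h n hh hn ψ hψ
  have hN0 : (0 : ℝ) < N := by exact_mod_cast (by omega : 0 < N)
  obtain ⟨L, hL⟩ : ∃ L, L = Real.log N := ⟨_, rfl⟩
  have hL0 : 0 < L := by rw [hL]; exact Real.log_pos (by exact_mod_cast (by omega : 1 < N))
  rw [← hL]
  have hcard : ((Icc 1 N).card : ℝ) = N := by rw [Nat.card_Icc, Nat.add_sub_cancel]
  -- the model
  have hmod : ∑ j ∈ range (h + 1), weight (1 / L) h j * ψ (spot j) =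
      ψ ∅ + ∑ j ∈ Icc 1 h, (ψ {j} - ψ ∅) * (1 / L) := by
    have h1 : ∑ j ∈ range (h + 1), weight (1 / L) h j * ψ (spot j) =
        ∑ j ∈ range h, weight (1 / L) h (j + 1) * ψ (spot (j + 1)) +
          weight (1 / L) h 0 * ψ (spot 0) := sum_range_succ' _ _
    have h2 : ∑ j ∈ Icc 1 h, (ψ {j} - ψ ∅) * (1 / L) =
        ∑ j ∈ range h, (ψ {j + 1} - ψ ∅) * (1 / L) := by
      apply sum_nbij' (fun j => j - 1) (fun j => j + 1)
      · intro j hj
        rw [mem_Icc] at hj
        rw [mem_range]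
        omega
      · intro j hj
        rw [mem_range] at hj
        rw [mem_Icc]
        omega
      · intro j hj
        rw [mem_Icc] at hj
        omega
      · intro j _
        omega
      · intro j hj
        rw [mem_Icc] at hj
        rw [show j - 1 + 1 = j by omega]
    rw [h1, h2]
    unfold weight spot
    simp only [if_true, Nat.succ_ne_zero, if_false]
    rw [← mul_sum, ← sum_mul, sum_sub_distrib, sum_const, card_range, nsmul_eq_mul]
    ring
  -- the sum of the first order terms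
  have hfirst : ∑ b ∈ Icc 1 N, ∑ j ∈ pattern h (n + b), (ψ {j} - ψ ∅) =
      ∑ j ∈ Icc 1 h, (ψ {j} - ψ ∅) * (cnt (n + j) N : ℝ) := by
    unfold pattern
    simp_rw [sum_filter]
    rw [sum_comm]
    apply sum_congr rfl
    intro j _
    rw [cnt_eq, mul_sum]
    apply sum_congr rfl
    intro b _
    have e : n + j + b = n + b + j := by ring
    rw [e]
    unfold ind
    split_ifs <;> ring
  have herr : |∑ b ∈ Icc 1 N, (ψ (pattern h (n + b)) - ψ ∅ -
      ∑ j ∈ pattern h (n + b), (ψ {j} - ψ ∅))| ≤ 3 / 2 * C * h ^ 2 * N / L ^ 2 := by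
    refine (abs_sum_le_sum_abs _ _).trans ?_
    calc ∑ b ∈ Icc 1 N, |ψ (pattern h (n + b)) - ψ ∅ - ∑ j ∈ pattern h (n + b), (ψ {j} - ψ ∅)| ≤
        ∑ b ∈ Icc 1 N, 3 / 2 * ((cnt (n + b) h : ℝ) ^ 2 - cnt (n + b) h) := by
          apply sum_le_sum
          intro b _
          rw [← card_pattern]
          exact expand ψ hψ _
      _ = 3 / 2 * (∑ b ∈ Icc 1 N, (cnt (n + b) h : ℝ) ^ 2 - ∑ b ∈ Icc 1 N, (cnt (n + b) h : ℝ)) := by
          rw [← mul_sum, sum_sub_distrib]
      _ ≤ 3 / 2 * (C * h ^ 2 * N / L ^ 2) := by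
          apply mul_le_mul_of_nonneg_left _ (by norm_num)
          have := hsec n h N hNu
          rw [← hL] at this
          linarith
      _ = _ := by ring
  have hmain : |∑ j ∈ Icc 1 h, (ψ {j} - ψ ∅) * ((cnt (n + j) N : ℝ) / N - 1 / L)| ≤ h * (δ / L) := by
    refine (abs_sum_le_sum_abs _ _).trans ?_
    calc ∑ j ∈ Icc 1 h, |(ψ {j} - ψ ∅) * ((cnt (n + j) N : ℝ) / N - 1 / L)| ≤
        ∑ _j ∈ Icc 1 h, δ / L := by
          apply sum_le_sum
          intro j hj
          rw [mem_Icc] at hj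
          have h1 := hN₁ N hN1 (n + j) (by omega)
          rw [← hL] at h1
          have h2 : |(cnt (n + j) N : ℝ) / N - 1 / L| ≤ δ / L := by
            have e : (cnt (n + j) N : ℝ) / N - 1 / L = ((cnt (n + j) N : ℝ) * L - N) / (N * L) := by
              field_simp
            rw [e, abs_div, abs_of_pos (by positivity : 0 < (N : ℝ) * L), div_le_div_iff₀
              (by positivity) hL0]
            calc |(cnt (n + j) N : ℝ) * L - N| * L ≤ δ * N * L :=
                  mul_le_mul_of_nonneg_right h1 hL0.le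
              _ = _ := by ring
          have h3 : |ψ {j} - ψ ∅| ≤ 1 := by
            obtain ⟨a1, a2⟩ := hψ {j}
            obtain ⟨b1, b2⟩ := hψ ∅
            rw [abs_le]
            constructor <;> linarith
          rw [abs_mul]
          calc |ψ {j} - ψ ∅| * |(cnt (n + j) N : ℝ) / N - 1 / L| ≤ 1 * (δ / L) :=
                mul_le_mul h3 h2 (abs_nonneg _) zero_le_one
            _ = _ := one_mul _
      _ = _ := by rw [sum_const, Nat.card_Icc, Nat.add_sub_cancel, nsmul_eq_mul]
  have hdec : (∑ b ∈ Icc 1 N, ψ (pattern h (n + b))) / N -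
      (ψ ∅ + ∑ j ∈ Icc 1 h, (ψ {j} - ψ ∅) * (1 / L)) =
      (∑ b ∈ Icc 1 N, (ψ (pattern h (n + b)) - ψ ∅ -
        ∑ j ∈ pattern h (n + b), (ψ {j} - ψ ∅))) / N +
      ∑ j ∈ Icc 1 h, (ψ {j} - ψ ∅) * ((cnt (n + j) N : ℝ) / N - 1 / L) := by
    have e1 : ∑ j ∈ Icc 1 h, (ψ {j} - ψ ∅) * ((cnt (n + j) N : ℝ) / N - 1 / L) =
        (∑ j ∈ Icc 1 h, (ψ {j} - ψ ∅) * (cnt (n + j) N : ℝ)) / N -
          ∑ j ∈ Icc 1 h, (ψ {j} - ψ ∅) * (1 / L) := by
      rw [sum_div, ← sum_sub_distrib]
      apply sum_congr rfl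
      intro j _
      ring
    rw [e1, sum_sub_distrib, sum_sub_distrib, hfirst, sum_const, nsmul_eq_mul, hcard]
    field_simp
    ring
  rw [hmod, hdec]
  refine (abs_add_le _ _).trans ?_
  rw [abs_div, abs_of_pos hN0]
  have h5 : |∑ b ∈ Icc 1 N, (ψ (pattern h (n + b)) - ψ ∅ -
      ∑ j ∈ pattern h (n + b), (ψ {j} - ψ ∅))| / N ≤ 3 / 2 * C * (h / L) ^ 2 := by
    rw [div_le_iff₀ hN0]
    refine herr.trans (le_of_eq ?_)
    field_simp
  have h6 : (h : ℝ) * (δ / L) = δ * (h / L) := by ring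
  rw [h6] at hmain
  linarith

/-- The number of the nonempty windows. -/
theorem nonempty_le {h m N : ℕ} {L : ℝ} (hL : 0 < L) (hN : ∀ j ≤ h, (cnt (m + j) N : ℝ) * L ≤ 2 * N) :
    (((Icc 1 N).filter fun n => (pattern h (n + m)).Nonempty).card : ℝ) ≤ 2 * N * (h / L) := by
  have h1 : (((Icc 1 N).filter fun n => (pattern h (n + m)).Nonempty).card : ℝ) ≤
      ∑ n ∈ Icc 1 N, (cnt (m + n) h : ℝ) := by
    rw [card_filter, Nat.cast_sum]
    apply sum_le_sum
    intro n _
    split_ifs with hne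
    · have h2 := hne.card_pos
      have h3 : (1 : ℝ) ≤ (pattern h (n + m)).card := by exact_mod_cast h2
      rw [card_pattern, add_comm n m] at h3
      push_cast
      exact h3
    · push_cast
      positivity
  refine h1.trans ?_
  rw [first]
  calc ∑ j ∈ Icc 1 h, (cnt (m + j) N : ℝ) ≤ ∑ _j ∈ Icc 1 h, 2 * (N : ℝ) / L := by
        apply sum_le_sum
        intro j hj
        rw [mem_Icc] at hj
        rw [le_div_iff₀ hL]
        exact hN j (by omega)
    _ = 2 * N * (h / L) := by
        rw [sum_const, Nat.card_Icc, Nat.add_sub_cancel, nsmul_eq_mul]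
        ring

/-- All statistics. -/
theorem part1 (Λ : ℝ) (hΛ : 0 < Λ) : ∃ C : ℝ, 0 < C ∧ ∀ δ : ℝ, 0 < δ → ∀ᶠ N : ℕ in atTop,
    ∀ r h : ℕ, 0 < r → r * h ≤ Λ * Real.log N → h ≤ Real.log N →
    ∀ φ : (Fin r → Finset ℕ) → ℝ, (∀ p, 0 ≤ φ p ∧ φ p ≤ 1) → ∀ t : ℝ, 0 ≤ t →
    tuples N r (fun b => t + δ + C / r < |mean N h r φ b - model (1 / Real.log N) h r φ|) ≤
      2 * Real.exp (-(t ^ 2 * r / C)) * (N : ℝ) ^ r := by
  obtain ⟨C₀, hC₀, hone⟩ := one_window
  obtain ⟨C, hC⟩ : ∃ C : ℝ, C = max (C₀ * Λ ^ 2) (32 * Λ ^ 2) := ⟨_, rfl⟩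
  have hC1 : C₀ * Λ ^ 2 ≤ C := by rw [hC]; exact le_max_left _ _
  have hC2 : 32 * Λ ^ 2 ≤ C := by rw [hC]; exact le_max_right _ _
  have hC0 : 0 < C := lt_of_lt_of_le (by positivity) hC2
  refine ⟨C, hC0, fun δ hδ => ?_⟩
  obtain ⟨N₁, hN₁3, hN₁⟩ := cnt_unif 1 one_pos
  filter_upwards [hone (δ / Λ) (by positivity), eventually_ge_atTop N₁, eventually_ge_atTop 3] with
    N hN hN1 hN3 r h hr hrh hhL φ hφ t ht
  have hN0 : (0 : ℝ) < N := by exact_mod_cast (by omega : 0 < N)
  obtain ⟨L, hL⟩ : ∃ L, L = Real.log N := ⟨_, rfl⟩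
  have hL0 : 0 < L := by rw [hL]; exact Real.log_pos (by exact_mod_cast (by omega : 1 < N))
  have hhN : h ≤ N := by
    have : (h : ℝ) ≤ N := hhL.trans (Real.log_le_self hN0.le)
    exact_mod_cast this
  rw [← hL] at hrh hhL hN ⊢
  have hcard : ((Icc 1 N).card : ℝ) = N := by rw [Nat.card_Icc, Nat.add_sub_cancel]
  have hne : (Icc 1 N).Nonempty := ⟨1, by rw [mem_Icc]; omega⟩
  have hr0 : (0 : ℝ) < r := by exact_mod_cast hr
  have hz : (h : ℝ) / L ≤ Λ / r := by
    rw [div_le_div_iff₀ hL0 hr0]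
    linarith
  have hz0 : 0 ≤ (h : ℝ) / L := by positivity
  have hz1 : (h : ℝ) / L ≤ 1 := by rw [div_le_iff₀ hL0]; linarith
  -- the mean over the tuples
  have hw : ∀ j ∈ range (h + 1), 0 ≤ weight (1 / L) h j := by
    intro j _
    unfold weight
    split_ifs
    · have : (h : ℝ) * (1 / L) = h / L := by ring
      rw [this]
      linarith
    · positivity
  have hw1 : ∑ j ∈ range (h + 1), weight (1 / L) h j = 1 := by
    rw [sum_range_succ']
    unfold weight
    simp only [if_true, Nat.succ_ne_zero, if_false]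
    rw [sum_const, card_range, nsmul_eq_mul]
    ring
  have hav : |avg (Icc 1 N) r (mean N h r φ) - model (1 / L) h r φ| ≤ δ + C / r := by
    have e1 : avg (Icc 1 N) r (mean N h r φ) =
        (∑ n ∈ Icc 1 N, avg (Icc 1 N) r (fun b => φ (fun i => pattern h (n + b i)))) / N := by
      unfold avg mean
      rw [← sum_div, ← sum_div, sum_comm, div_div, div_div, mul_comm (N : ℝ)]
    have h2 : ∀ n ∈ Icc 1 N, |avg (Icc 1 N) r (fun b => φ (fun i => pattern h (n + b i))) -
        model (1 / L) h r φ| ≤ δ + C / r := by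
      intro n hn
      rw [mem_Icc] at hn
      have h3 := hybrid hne hw hw1 spot (fun b => pattern h (n + b))
        (D := δ / Λ * (h / L) + C₀ * (h / L) ^ 2)
        (fun ψ hψ => by
          rw [hcard]
          exact hN h n hhN hn.2 ψ hψ) r φ hφ
      refine le_trans h3 ?_
      have h4 : r * (δ / Λ * (h / L)) ≤ δ := by
        calc r * (δ / Λ * (h / L)) ≤ r * (δ / Λ * (Λ / r)) := by gcongr
          _ = δ := by field_simp
      have h5 : r * (C₀ * (h / L) ^ 2) ≤ C / r := by
        calc r * (C₀ * (h / L) ^ 2) ≤ r * (C₀ * (Λ / r) ^ 2) := by gcongr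
          _ = C₀ * Λ ^ 2 / r := by field_simp
          _ ≤ C / r := by gcongr
      linarith
    rw [e1]
    have e2 : (∑ n ∈ Icc 1 N, avg (Icc 1 N) r (fun b => φ (fun i => pattern h (n + b i)))) / N -
        model (1 / L) h r φ = (∑ n ∈ Icc 1 N, (avg (Icc 1 N) r
          (fun b => φ (fun i => pattern h (n + b i))) - model (1 / L) h r φ)) / N := by
      rw [sum_sub_distrib, sum_const, nsmul_eq_mul, hcard]
      field_simp
    rw [e2, abs_div, abs_of_pos hN0, div_le_iff₀ hN0]
    refine (abs_sum_le_sum_abs _ _).trans ((sum_le_sum h2).trans (le_of_eq ?_))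
    rw [sum_const, nsmul_eq_mul, hcard, mul_comm]
  -- bounded differences
  have hbd : ∀ v w : Fin r → ℕ, (∀ i, v i ∈ Icc 1 N) → (∀ i, w i ∈ Icc 1 N) → ∀ i,
      (∀ j, j ≠ i → v j = w j) → |mean N h r φ v - mean N h r φ w| ≤ 4 * (Λ / r) := by
    intro v w hv hw' i hij
    have hcn : ∀ m ∈ Icc 1 N, ∀ j ≤ h, (cnt (m + j) N : ℝ) * L ≤ 2 * N := by
      intro m hm j hj
      rw [mem_Icc] at hm
      have h1 := hN₁ N hN1 (m + j) (by omega)
      rw [← hL, abs_le] at h1
      linarith
    have h1 := nonempty_le (m := v i) hL0 (hcn _ (hv i))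
    have h2 := nonempty_le (m := w i) hL0 (hcn _ (hw' i))
    have h3 : |mean N h r φ v - mean N h r φ w| * N ≤
        ∑ n ∈ Icc 1 N, ((if (pattern h (n + v i)).Nonempty then (1 : ℝ) else 0) +
          (if (pattern h (n + w i)).Nonempty then (1 : ℝ) else 0)) := by
      unfold mean
      rw [← sub_div, abs_div, abs_of_pos hN0, div_mul_cancel₀ _ hN0.ne', ← sum_sub_distrib]
      refine (abs_sum_le_sum_abs _ _).trans (sum_le_sum fun n _ => ?_)
      by_cases hv1 : (pattern h (n + v i)).Nonempty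
      · rw [if_pos hv1]
        have hb : |φ (fun i => pattern h (n + v i)) - φ (fun i => pattern h (n + w i))| ≤ 1 := by
          obtain ⟨a1, a2⟩ := hφ (fun i => pattern h (n + v i))
          obtain ⟨b1, b2⟩ := hφ (fun i => pattern h (n + w i))
          rw [abs_le]
          constructor <;> linarith
        have : (0 : ℝ) ≤ if (pattern h (n + w i)).Nonempty then (1 : ℝ) else 0 := by
          split_ifs <;> norm_num
        linarith
      · by_cases hw1 : (pattern h (n + w i)).Nonempty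
        · rw [if_pos hw1, if_neg hv1]
          have hb : |φ (fun i => pattern h (n + v i)) - φ (fun i => pattern h (n + w i))| ≤ 1 := by
            obtain ⟨a1, a2⟩ := hφ (fun i => pattern h (n + v i))
            obtain ⟨b1, b2⟩ := hφ (fun i => pattern h (n + w i))
            rw [abs_le]
            constructor <;> linarith
          linarith
        · rw [if_neg hv1, if_neg hw1]
          have e : (fun i => pattern h (n + v i)) = fun i => pattern h (n + w i) := by
            funext j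
            by_cases hj : j = i
            · subst hj
              rw [not_nonempty_iff_eq_empty] at hv1 hw1
              rw [hv1, hw1]
            · rw [hij j hj]
          rw [e, sub_self, abs_zero]
          norm_num
    rw [sum_add_distrib] at h3
    have e1 : ∀ m, ∑ n ∈ Icc 1 N, (if (pattern h (n + m)).Nonempty then (1 : ℝ) else 0) =
        (((Icc 1 N).filter fun n => (pattern h (n + m)).Nonempty).card : ℝ) := by
      intro m
      rw [card_filter, Nat.cast_sum]
      apply sum_congr rfl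
      intro n _
      push_cast
      rfl
    rw [e1, e1] at h3
    have h4 : |mean N h r φ v - mean N h r φ w| * N ≤ (4 * (Λ / r)) * N := by
      have h5 : 2 * N * (h / L) ≤ 2 * N * (Λ / r) := mul_le_mul_of_nonneg_left hz (by positivity)
      linarith
    exact le_of_mul_le_mul_right h4 hN0
  have key := mcdiarmid hne (c := 4 * (Λ / r)) (by positivity) ht hr (mean N h r φ) hbd
  rw [tuples_eq]
  refine (tup_mono ?_).trans (key.trans ?_)
  · intro v _ hv
    by_contra hc
    rw [not_lt] at hc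
    have h1 := abs_sub_le (mean N h r φ v) (avg (Icc 1 N) r (mean N h r φ)) (model (1 / L) h r φ)
    linarith
  · rw [hcard]
    apply mul_le_mul_of_nonneg_right _ (by positivity)
    apply mul_le_mul_of_nonneg_left _ (by norm_num)
    apply Real.exp_le_exp.2
    rw [neg_le_neg_iff]
    have e : t ^ 2 / (2 * (4 * (Λ / r)) ^ 2 * r) = t ^ 2 * r / (32 * Λ ^ 2) := by
      field_simp
      ring
    rw [e]
    gcongr

/-- The model of the number of the points. -/
theorem model_count {ρ : ℝ} (h k : ℕ) (r : ℕ) : ∀ s : ℕ,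
    ∑ c ∈ Fintype.piFinset (fun _ : Fin r => range (h + 1)),
      (∏ i, weight ρ h (c i)) * (if s + ∑ i, (spot (c i)).card = k then (1 : ℝ) else 0) =
    (T (h * ρ))^[r] (fun m => if m = k then (1 : ℝ) else 0) s := by
  induction r with
  | zero =>
    intro s
    have h : Fintype.piFinset (fun _ : Fin 0 => range (h + 1)) = {Fin.elim0} := by
      ext v
      rw [Fintype.mem_piFinset, mem_singleton]
      constructor
      · intro _
        funext i
        exact i.elim0
      · intro _ i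
        exact i.elim0
    rw [h, sum_singleton]
    simp
  | succ r ih =>
    intro s
    rw [sum_cons]
    have h1 : ∀ b ∈ range (h + 1), ∑ v ∈ Fintype.piFinset (fun _ : Fin r => range (h + 1)),
        (∏ i, weight ρ h ((Fin.cons b v : Fin (r + 1) → ℕ) i)) *
          (if s + ∑ i, (spot ((Fin.cons b v : Fin (r + 1) → ℕ) i)).card = k then (1 : ℝ) else 0) =
        weight ρ h b * (T (h * ρ))^[r] (fun m => if m = k then (1 : ℝ) else 0)
          (s + (spot b).card) := by
      intro b _
      rw [← ih, mul_sum]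
      apply sum_congr rfl
      intro v _
      rw [Fin.prod_univ_succ, Fin.sum_univ_succ]
      simp only [Fin.cons_zero, Fin.cons_succ]
      rw [mul_assoc, add_assoc]
    rw [sum_congr rfl h1, sum_range_succ', Function.iterate_succ']
    unfold weight spot
    simp only [if_true, Nat.succ_ne_zero, if_false, card_singleton, card_empty, add_zero,
      Function.comp_apply]
    rw [sum_const, card_range, nsmul_eq_mul]
    unfold T
    ring

/-- The Poisson law. -/
theorem part2 (Λ : ℝ) (hΛ : 0 < Λ) : ∃ C : ℝ, 0 < C ∧ ∀ δ : ℝ, 0 < δ → ∀ᶠ N : ℕ in atTop,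
    ∀ r h : ℕ, 0 < r → r * h ≤ Λ * Real.log N → h ≤ Real.log N → ∀ k : ℕ, ∀ t : ℝ, 0 ≤ t →
    tuples N r (fun b => t + δ + C / r <
      |(((Icc 1 N).filter fun n => ∑ i, (pattern h (n + b i)).card = k).card : ℝ) / N -
        Real.exp (-(r * (h / Real.log N))) * (r * (h / Real.log N)) ^ k / k.factorial|) ≤
      2 * Real.exp (-(t ^ 2 * r / C)) * (N : ℝ) ^ r := by
  obtain ⟨C, hC0, hC⟩ := part1 Λ hΛ
  refine ⟨C + Λ ^ 2, by positivity, fun δ hδ => ?_⟩
  filter_upwards [hC δ hδ, eventually_ge_atTop 3] with N hN hN3 r h hr hrh hhL k t ht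
  have hN0 : (0 : ℝ) < N := by exact_mod_cast (by omega : 0 < N)
  have hL0 : 0 < Real.log N := Real.log_pos (by exact_mod_cast (by omega : 1 < N))
  have hr0 : (0 : ℝ) < r := by exact_mod_cast hr
  have hz : (h : ℝ) / Real.log N ≤ Λ / r := by
    rw [div_le_div_iff₀ hL0 hr0]
    linarith
  have hz0 : 0 ≤ (h : ℝ) / Real.log N := by positivity
  have hz1 : (h : ℝ) / Real.log N ≤ 1 := by rw [div_le_iff₀ hL0]; linarith
  have h1 := hN r h hr hrh hhL (fun p => if ∑ i, (p i).card = k then (1 : ℝ) else 0)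
    (fun p => by split_ifs <;> norm_num) t ht
  have hmodel : model (1 / Real.log N) h r (fun p => if ∑ i, (p i).card = k then (1 : ℝ) else 0) =
      (T (h / Real.log N))^[r] (fun m => if m = k then (1 : ℝ) else 0) 0 := by
    have h2 := model_count (ρ := 1 / Real.log N) h k r 0
    have e : (h : ℝ) * (1 / Real.log N) = h / Real.log N := by ring
    rw [e] at h2
    rw [← h2]
    unfold model
    apply sum_congr rfl
    intro c _
    rw [zero_add]
  have hlc := le_cam hz0 hz1 r k
  have h3 : (r : ℝ) * (h / Real.log N) ^ 2 ≤ Λ ^ 2 / r := by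
    calc (r : ℝ) * (h / Real.log N) ^ 2 ≤ r * (Λ / r) ^ 2 := by gcongr
      _ = Λ ^ 2 / r := by field_simp
  refine (tup_mono ?_ : tup (Icc 1 N) r _ ≤ tup (Icc 1 N) r _).trans (h1.trans ?_)
  · intro v _ hv
    have hmean : mean N h r (fun p => if ∑ i, (p i).card = k then (1 : ℝ) else 0) v =
        (((Icc 1 N).filter fun n => ∑ i, (pattern h (n + v i)).card = k).card : ℝ) / N := by
      unfold mean
      rw [card_filter, Nat.cast_sum]
      congr 1
      apply sum_congr rfl
      intro n _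
      push_cast
      rfl
    rw [← hmean] at hv
    rw [hmodel]
    have h4 := abs_sub_le (mean N h r (fun p => if ∑ i, (p i).card = k then (1 : ℝ) else 0) v)
      ((T (h / Real.log N))^[r] (fun m => if m = k then (1 : ℝ) else 0) 0)
      (Real.exp (-(r * (h / Real.log N))) * (r * (h / Real.log N)) ^ k / k.factorial)
    have h5 : (C + Λ ^ 2) / r = C / r + Λ ^ 2 / r := by ring
    rw [h5] at hv
    linarith
  · apply mul_le_mul_of_nonneg_right _ (by positivity)
    apply mul_le_mul_of_nonneg_left _ (by norm_num)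
    apply Real.exp_le_exp.2
    rw [neg_le_neg_iff]
    apply div_le_div_of_nonneg_left (by positivity) hC0
    have : 0 ≤ Λ ^ 2 := by positivity
    linarith

/-- **The primes in windows at typical distances.** -/
theorem result :
    (∀ Λ : ℝ, 0 < Λ → ∃ C : ℝ, 0 < C ∧ ∀ δ : ℝ, 0 < δ → ∀ᶠ N : ℕ in atTop,
      ∀ r h : ℕ, 0 < r → r * h ≤ Λ * Real.log N → h ≤ Real.log N →
      ∀ φ : (Fin r → Finset ℕ) → ℝ, (∀ p, 0 ≤ φ p ∧ φ p ≤ 1) → ∀ t : ℝ, 0 ≤ t →
      tuples N r (fun b => t + δ + C / r < |mean N h r φ b - model (1 / Real.log N) h r φ|) ≤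
        2 * Real.exp (-(t ^ 2 * r / C)) * (N : ℝ) ^ r) ∧
    (∀ Λ : ℝ, 0 < Λ → ∃ C : ℝ, 0 < C ∧ ∀ δ : ℝ, 0 < δ → ∀ᶠ N : ℕ in atTop,
      ∀ r h : ℕ, 0 < r → r * h ≤ Λ * Real.log N → h ≤ Real.log N → ∀ k : ℕ, ∀ t : ℝ, 0 ≤ t →
      tuples N r (fun b => t + δ + C / r <
        |(((Icc 1 N).filter fun n => ∑ i, (pattern h (n + b i)).card = k).card : ℝ) / N -
          Real.exp (-(r * (h / Real.log N))) * (r * (h / Real.log N)) ^ k / k.factorial|) ≤
        2 * Real.exp (-(t ^ 2 * r / C)) * (N : ℝ) ^ r) :=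
  ⟨part1, part2⟩

end Pool.Agent.Results.MP_e87c7d_nt.PoissonWindows
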