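import Pool.Agent.Q8.Amalg.Final

/-!
# Amalgams of Lie groups over `SL₂` (MP_e90164_al): there is no bound

For every `N` there is an admissible triple `(G; G₁, G₂)` (with `K = ℝ`), even one with
`G = ⟨G₁, G₂⟩`, in which `B₁B₂` has nilpotency class larger than `N`.
-/

noncomputable section

namespace Pool.Agent.Results.MP_e90164_al.NoBound

open Topology Manifold

/-- A real Lie group (finite-dimensional, real analytic, Hausdorff, second countable). -/
structure LieGrp where
  /-- the underlying set -/
  carrier : Type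
  /-- the model space -/
  E : Type
  [group : Group carrier]
  [topology : TopologicalSpace carrier]
  [normed : NormedAddCommGroup E]
  [normedSpace : NormedSpace ℝ E]
  [finiteDimensional : FiniteDimensional ℝ E]
  [chartedSpace : ChartedSpace E carrier]
  [lieGroup : LieGroup 𝓘(ℝ, E) ⊤ carrier]
  [t2 : T2Space carrier]
  [secondCountable : SecondCountableTopology carrier]

attribute [instance] LieGrp.group LieGrp.topology LieGrp.normed LieGrp.normedSpace
  LieGrp.finiteDimensional LieGrp.chartedSpace LieGrp.lieGroup LieGrp.t2 LieGrp.secondCountable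

/-- One side of the amalgam: a closed subgroup `G_i` of the topological group `G` which is a Lie
group (given by the Lie group `L` and its closed embedding `inc`), together with a nilpotent,
simply connected normal Lie subgroup `B_i` of it (given by the Lie group `N` and its injective
immersion `j` into `L`) such that `G_i / B_i ≅ SL₂(ℝ)` (given by a continuous open surjective
homomorphism `proj` with kernel `B_i`). -/
structure Side (G : Type) [Group G] [TopologicalSpace G] where
  /-- the Lie group `G_i` -/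
  L : LieGrp
  /-- the inclusion of `G_i` into `G` -/
  inc : L.carrier →* G
  inc_isClosedEmbedding : IsClosedEmbedding inc
  /-- the Lie group `B_i` -/
  N : LieGrp
  /-- the inclusion of `B_i` into `G_i` -/
  j : N.carrier →* L.carrier
  j_injective : Function.Injective j
  j_contMDiff : ContMDiff 𝓘(ℝ, N.E) 𝓘(ℝ, L.E) ⊤ j
  j_immersion : ∀ x, Function.Injective (mfderiv 𝓘(ℝ, N.E) 𝓘(ℝ, L.E) j x)
  nilpotent : Group.IsNilpotent N.carrier
  simplyConnected : SimplyConnectedSpace N.carrier
  /-- the projection of `G_i` onto `G_i / B_i ≅ SL₂(ℝ)` -/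
  proj : L.carrier →* Matrix.SpecialLinearGroup (Fin 2) ℝ
  proj_continuous : Continuous proj
  proj_isOpenMap : IsOpenMap proj
  proj_surjective : Function.Surjective proj
  proj_ker : proj.ker = j.range

/-- The closed subgroup `G_i` of `G`. -/
def Side.Gi {G : Type} [Group G] [TopologicalSpace G] (s : Side G) : Subgroup G := s.inc.range

/-- The subgroup `B_i` of `G`. -/
def Side.B {G : Type} [Group G] [TopologicalSpace G] (s : Side G) : Subgroup G :=
  (s.inc.comp s.j).range

/-- An admissible triple (with `K = ℝ`). Condition (4) is required in the stronger form that no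
nontrivial subgroup of `B₁ ∩ B₂` whatsoever is normal in `G`. -/
structure AdmissibleTriple where
  /-- the topological group `G` -/
  G : Type
  [group : Group G]
  [topology : TopologicalSpace G]
  [isTopologicalGroup : IsTopologicalGroup G]
  [t2 : T2Space G]
  /-- `G₁ ⊵ B₁` -/
  side₁ : Side G
  /-- `G₂ ⊵ B₂` -/
  side₂ : Side G
  prod_le : side₁.B ⊔ side₂.B ≤ side₁.Gi ⊓ side₂.Gi
  core_trivial : ∀ X : Subgroup G, X.Normal → X ≤ side₁.B ⊓ side₂.B → X = ⊥

attribute [instance] AdmissibleTriple.group AdmissibleTriple.topology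
  AdmissibleTriple.isTopologicalGroup AdmissibleTriple.t2

/-- the first side of the example -/
def exSide₁ (n : ℕ) : Side (Q8.Amalg.GG n) where
  L := ⟨Q8.Amalg.L1 n, (Q8.Amalg.En n × ℝ) × (ℝ × ℝ × ℝ)⟩
  inc := Q8.Amalg.I1 n
  inc_isClosedEmbedding := Q8.Amalg.I1_closed
  N := ⟨Q8.Amalg.N1 n, Q8.Amalg.En n × ℝ⟩
  j := Q8.Amalg.j1
  j_injective := Q8.Amalg.j1_inj
  j_contMDiff := Q8.Amalg.j1_smooth
  j_immersion := Q8.Amalg.j1_immersion
  nilpotent := Q8.Amalg.N1_nilpotent
  simplyConnected := (inferInstance : SimplyConnectedSpace (Q8.Amalg.N1 n))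
  proj := Q8.Amalg.q1
  proj_continuous := Q8.Amalg.q1_cont
  proj_isOpenMap := Q8.Amalg.q1_open
  proj_surjective := Q8.Amalg.q1_surj
  proj_ker := Q8.Amalg.ker_q1

/-- the second side of the example -/
def exSide₂ (n : ℕ) : Side (Q8.Amalg.GG n) where
  L := ⟨Q8.Amalg.L2 n, (ℝ × Q8.Amalg.En n) × (ℝ × ℝ × ℝ)⟩
  inc := Q8.Amalg.I2 n
  inc_isClosedEmbedding := Q8.Amalg.I2_closed
  N := ⟨Q8.Amalg.N2 n, ℝ × Q8.Amalg.En n⟩
  j := Q8.Amalg.j2
  j_injective := Q8.Amalg.j2_inj
  j_contMDiff := Q8.Amalg.j2_smooth
  j_immersion := Q8.Amalg.j2_immersion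
  nilpotent := Q8.Amalg.N2_nilpotent
  simplyConnected := (inferInstance : SimplyConnectedSpace (Q8.Amalg.N2 n))
  proj := Q8.Amalg.q2
  proj_continuous := Q8.Amalg.q2_cont
  proj_isOpenMap := Q8.Amalg.q2_open
  proj_surjective := Q8.Amalg.q2_surj
  proj_ker := Q8.Amalg.ker_q2

/-- the example -/
def exTriple (n : ℕ) (hn : 0 < n) : AdmissibleTriple where
  G := Q8.Amalg.GG n
  side₁ := exSide₁ n
  side₂ := exSide₂ n
  prod_le := Q8.Amalg.BB_le_PP.trans Q8.Amalg.PP_le
  core_trivial := Q8.Amalg.core hn

end Pool.Agent.Results.MP_e90164_al.NoBound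

open Pool.Agent.Results.MP_e90164_al.NoBound in
/-- **Q1 of MP_e90164_al, negative.** For every `N` there is an admissible triple, with `G`
generated by `G₁` and `G₂`, such that the nilpotent group `B₁B₂` has nilpotency class larger
than `N`. -/
theorem Pool.Agent.Results.MP_e90164_al.NoBound.result (N : ℕ) :
    ∃ T : AdmissibleTriple, T.side₁.Gi ⊔ T.side₂.Gi = ⊤ ∧
      Group.IsNilpotent ↥(T.side₁.B ⊔ T.side₂.B) ∧
      N < Group.nilpotencyClass ↥(T.side₁.B ⊔ T.side₂.B) := by
  refine ⟨exTriple (N + 1) (Nat.succ_pos N), ?_, Q8.Amalg.BB_nilpotent,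
    Q8.Amalg.BB_class N (Nat.le_succ N)⟩
  have h := Q8.Amalg.generated (n := N + 1)
  rw [Subgroup.closure_union] at h
  rw [eq_top_iff]
  refine h.symm.le.trans (sup_le_sup ?_ ?_)
  · rw [Subgroup.closure_le]
    exact fun x hx => hx
  · rw [Subgroup.closure_le]
    exact fun x hx => hx
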