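import Mathlib

/-!
# MP_e93574_an: weakly contractive set-valued maps with closed bounded values have fixed points
-/

set_option autoImplicit false

universe u

namespace Pool.Agent.Results.MP_e93574_an.WeaklyContractive

open Set Metric Filter Topology
open scoped NNReal

/-- The class `Γ`: continuous nondecreasing subadditive `γ : [0,∞) → [0,∞)` with
`γ⁻¹({0}) = {0}`. -/
def IsGamma (γ : ℝ≥0 → ℝ≥0) : Prop :=
  Continuous γ ∧ Monotone γ ∧ (∀ s t, γ (s + t) ≤ γ s + γ t) ∧ ∀ t, γ t = 0 ↔ t = 0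

/-- The class `𝒜`: there are `ε₀ > 0` and `γ ∈ Γ` with `θ(t) ≤ ε₀ ⟹ θ(t) ≥ γ(t)` for all `t`. -/
def ClassA (θ : ℝ≥0 → ℝ≥0) : Prop :=
  ∃ ε₀ : ℝ≥0, 0 < ε₀ ∧ ∃ γ : ℝ≥0 → ℝ≥0, IsGamma γ ∧ ∀ t, θ t ≤ ε₀ → γ t ≤ θ t

/-- `T` maps points to nonempty closed bounded sets and is weakly contractive with respect
to `θ`. -/
structure IsWeaklyContractive {X : Type u} [MetricSpace X] (T : X → Set X) (θ : ℝ≥0 → ℝ≥0) :
    Prop where
  nonempty : ∀ x, (T x).Nonempty
  closed : ∀ x, IsClosed (T x)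
  bounded : ∀ x, Bornology.IsBounded (T x)
  contractive : ∀ x y, hausdorffDist (T x) (T y) ≤ dist x y - θ (nndist x y)

lemma gamma_nsmul {γ : ℝ≥0 → ℝ≥0} (h : IsGamma γ) (n : ℕ) (t : ℝ≥0) :
    γ (n * t) ≤ n * γ t := by
  induction n with
  | zero => simp [(h.2.2.2 0).2 rfl]
  | succ n ih =>
    calc γ ((n + 1 : ℕ) * t) = γ (n * t + t) := by push_cast; ring_nf
      _ ≤ γ (n * t) + γ t := h.2.2.1 _ _
      _ ≤ n * γ t + γ t := by gcongr
      _ = (n + 1 : ℕ) * γ t := by push_cast; ring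

/-- Near `0` a function of the class `Γ` is at least linear. -/
lemma gamma_ge {γ : ℝ≥0 → ℝ≥0} (h : IsGamma γ) {t : ℝ≥0} (ht : t ≤ 1) :
    γ 1 / 2 * t ≤ γ t := by
  rcases eq_or_ne t 0 with rfl | h0
  · simp
  have htpos : 0 < t := pos_iff_ne_zero.2 h0
  have h1 : (1 : ℝ≥0) ≤ ⌈t⁻¹⌉₊ * t := by
    have : t⁻¹ ≤ ⌈t⁻¹⌉₊ := Nat.le_ceil _
    calc (1 : ℝ≥0) = t⁻¹ * t := (inv_mul_cancel₀ h0).symm
      _ ≤ _ := by gcongr
  have h2 : γ 1 ≤ ⌈t⁻¹⌉₊ * γ t := (h.2.1 h1).trans (gamma_nsmul h _ _)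
  have h3 : (⌈t⁻¹⌉₊ : ℝ≥0) ≤ 2 * t⁻¹ := by
    have h4 : (⌈t⁻¹⌉₊ : ℝ≥0) < t⁻¹ + 1 := Nat.ceil_lt_add_one (by positivity)
    have h5 : (1 : ℝ≥0) ≤ t⁻¹ := (one_le_inv₀ htpos).2 ht
    calc (⌈t⁻¹⌉₊ : ℝ≥0) ≤ t⁻¹ + 1 := h4.le
      _ ≤ t⁻¹ + t⁻¹ := by gcongr
      _ = 2 * t⁻¹ := by ring
  calc γ 1 / 2 * t ≤ (⌈t⁻¹⌉₊ * γ t) / 2 * t := by gcongr
    _ ≤ (2 * t⁻¹ * γ t) / 2 * t := by gcongr
    _ = γ t * (t⁻¹ * t) := by
        rw [mul_assoc 2, mul_div_cancel_left₀ _ (two_ne_zero)]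
        ring
    _ = γ t := by rw [inv_mul_cancel₀ h0, mul_one]

/-- **Every weakly contractive set-valued map with nonempty closed bounded values on a complete
metric space has a fixed point.** -/
theorem result {X : Type u} [MetricSpace X] [CompleteSpace X] [Nonempty X] (T : X → Set X)
    (θ : ℝ≥0 → ℝ≥0) (hθ : ClassA θ) (hT : IsWeaklyContractive T θ) : ∃ x, x ∈ T x := by
  classical
  obtain ⟨ε₀, hε₀, γ, hγ, hθγ⟩ := hθ
  have hγ1 : 0 < γ 1 := pos_iff_ne_zero.2 fun h => one_ne_zero ((hγ.2.2.2 1).1 h)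
  set δ : ℝ≥0 := min 1 ε₀ with hδ
  have hδ0 : 0 < δ := lt_min one_pos hε₀
  set η : ℝ≥0 := min ε₀ (γ δ) with hη
  have hη0 : 0 < η := lt_min hε₀ (pos_iff_ne_zero.2 fun h => hδ0.ne' ((hγ.2.2.2 δ).1 h))
  set c : ℝ := (γ 1 : ℝ) / 2 with hc
  have hc0 : 0 < c := by positivity
  by_contra hcon
  push Not at hcon
  have hfin : ∀ x y, hausdorffEDist (T x) (T y) ≠ ⊤ := fun x y =>
    hausdorffEDist_ne_top_of_nonempty_of_bounded (hT.nonempty x) (hT.nonempty y)
      (hT.bounded x) (hT.bounded y)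
  -- small distances
  have hsmall : ∀ x y, dist x y ≤ δ → hausdorffDist (T x) (T y) ≤ dist x y - c * dist x y := by
    intro x y hxy
    have h0 := hT.contractive x y
    have h1 : (θ (nndist x y) : ℝ) ≤ dist x y := by
      have := hausdorffDist_nonneg (s := T x) (t := T y)
      linarith
    have h2 : θ (nndist x y) ≤ ε₀ := by
      rw [← NNReal.coe_le_coe]
      refine h1.trans (hxy.trans ?_)
      exact_mod_cast min_le_right 1 ε₀
    have h3 := hθγ _ h2
    have h4 : nndist x y ≤ 1 := by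
      rw [← NNReal.coe_le_coe]
      exact hxy.trans (by exact_mod_cast min_le_left 1 ε₀)
    have h5 := (gamma_ge hγ h4).trans h3
    have h6 : c * dist x y ≤ θ (nndist x y) := by
      have := NNReal.coe_le_coe.2 h5
      simpa [hc] using this
    linarith
  -- large distances
  have hlarge : ∀ x y, δ < dist x y → hausdorffDist (T x) (T y) ≤ dist x y - η := by
    intro x y hxy
    have h0 := hT.contractive x y
    have h1 : η ≤ θ (nndist x y) := by
      by_cases h : θ (nndist x y) ≤ ε₀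
      · refine (min_le_right _ _).trans ((hγ.2.1 ?_).trans (hθγ _ h))
        rw [← NNReal.coe_le_coe]
        exact hxy.le
      · exact (min_le_left _ _).trans (not_le.1 h).le
    have h2 : (η : ℝ) ≤ θ (nndist x y) := by exact_mod_cast h1
    linarith
  have hpos : ∀ p : {p : X × X // p.2 ∈ T p.1}, 0 < dist p.1.1 p.1.2 := by
    intro p
    rw [dist_pos]
    intro h
    have := p.2
    rw [← h] at this
    exact hcon _ this
  -- one step
  have step : ∀ p : {p : X × X // p.2 ∈ T p.1}, ∃ p' : {p : X × X // p.2 ∈ T p.1},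
      p'.1.1 = p.1.2 ∧
      (dist p.1.1 p.1.2 ≤ δ → dist p'.1.1 p'.1.2 ≤ (1 - c / 2) * dist p.1.1 p.1.2) ∧
      (δ < dist p.1.1 p.1.2 → dist p'.1.1 p'.1.2 ≤ dist p.1.1 p.1.2 - η / 2) := by
    rintro ⟨⟨x, y⟩, hy⟩
    have hd : 0 < dist x y := hpos ⟨⟨x, y⟩, hy⟩
    by_cases h : dist x y ≤ δ
    · have h1 : hausdorffDist (T x) (T y) < (1 - c / 2) * dist x y := by
        have := hsmall x y h
        nlinarith [mul_pos hc0 hd]
      obtain ⟨z, hz, hz'⟩ := exists_dist_lt_of_hausdorffDist_lt hy h1 (hfin x y)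
      exact ⟨⟨⟨y, z⟩, hz⟩, rfl, fun _ => hz'.le, fun h' => absurd h (not_le.2 h')⟩
    · have h' := not_le.1 h
      have hη0' : (0 : ℝ) < η := by exact_mod_cast hη0
      have h1 : hausdorffDist (T x) (T y) < dist x y - η / 2 := by
        have := hlarge x y h'
        linarith
      obtain ⟨z, hz, hz'⟩ := exists_dist_lt_of_hausdorffDist_lt hy h1 (hfin x y)
      exact ⟨⟨⟨y, z⟩, hz⟩, rfl, fun h'' => absurd h'' h, fun _ => hz'.le⟩
  choose g hg1 hg2 hg3 using step
  obtain ⟨x₀⟩ := ‹Nonempty X›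
  obtain ⟨y₀, hy₀⟩ := hT.nonempty x₀
  let P : ℕ → {p : X × X // p.2 ∈ T p.1} := fun n => g^[n] ⟨(x₀, y₀), hy₀⟩
  have hP : ∀ n, P (n + 1) = g (P n) := fun n => Function.iterate_succ_apply' _ _ _
  let t : ℕ → ℝ := fun n => dist (P n).1.1 (P n).1.2
  have ht0 : ∀ n, 0 < t n := fun n => hpos _
  have hts : ∀ n, t n ≤ δ → t (n + 1) ≤ (1 - c / 2) * t n := fun n h => by
    have := hg2 (P n) h
    rwa [← hP] at this
  have htl : ∀ n, δ < t n → t (n + 1) ≤ t n - η / 2 := fun n h => by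
    have := hg3 (P n) h
    rwa [← hP] at this
  -- the distances become small
  have hN : ∃ N, t N ≤ δ := by
    by_contra hno
    push Not at hno
    have h1 : ∀ n : ℕ, t n ≤ t 0 - n * (η / 2) := by
      intro n
      induction n with
      | zero => simp
      | succ n ih =>
        have := htl n (hno n)
        push_cast
        linarith
    have hη0' : (0 : ℝ) < η / 2 := by
      have : (0 : ℝ) < η := by exact_mod_cast hη0
      linarith
    obtain ⟨n, hn⟩ := exists_nat_gt (t 0 / (η / 2))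
    rw [div_lt_iff₀ hη0'] at hn
    have := h1 n
    have := ht0 n
    linarith
  obtain ⟨N, hN⟩ := hN
  have hclt : c / 2 < 1 := by
    have h1 := hts N hN
    have h2 := ht0 (N + 1)
    have h3 := ht0 N
    by_contra h
    have : (1 - c / 2) * t N ≤ 0 := mul_nonpos_of_nonpos_of_nonneg (by linarith) h3.le
    linarith
  have hr0 : 0 ≤ 1 - c / 2 := by linarith
  have hr1 : 1 - c / 2 < 1 := by linarith
  have hsmall' : ∀ n, t (N + n) ≤ (1 - c / 2) ^ n * t N ∧ t (N + n) ≤ δ := by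
    intro n
    induction n with
    | zero => exact ⟨by simp, hN⟩
    | succ n ih =>
      have h1 := hts (N + n) ih.2
      refine ⟨?_, ?_⟩
      · calc t (N + (n + 1)) ≤ (1 - c / 2) * t (N + n) := h1
          _ ≤ (1 - c / 2) * ((1 - c / 2) ^ n * t N) := by gcongr; exact ih.1
          _ = _ := by ring
      · calc t (N + (n + 1)) ≤ (1 - c / 2) * t (N + n) := h1
          _ ≤ 1 * t (N + n) := by
              have := (ht0 (N + n)).le
              gcongr
          _ ≤ δ := by rw [one_mul]; exact ih.2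
  let u : ℕ → X := fun n => (P (N + n)).1.1
  have hu1 : ∀ n, (P (N + n)).1.2 = u (n + 1) := by
    intro n
    change _ = (P (N + (n + 1))).1.1
    rw [← add_assoc, hP, hg1]
  have hudist : ∀ n, dist (u n) (u (n + 1)) ≤ t N * (1 - c / 2) ^ n := by
    intro n
    rw [← hu1]
    have := (hsmall' n).1
    rw [mul_comm]
    exact this
  have hcau : CauchySeq u := cauchySeq_of_le_geometric _ _ hr1 hudist
  obtain ⟨x, hx⟩ := cauchySeq_tendsto_of_complete hcau
  refine hcon x ?_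
  have hmem : ∀ n, u (n + 1) ∈ T (u n) := fun n => by
    rw [← hu1]
    exact (P (N + n)).2
  have hle : ∀ n, infDist (u (n + 1)) (T x) ≤ dist (u n) x := by
    intro n
    refine (infDist_le_hausdorffDist_of_mem (hmem n) (hfin _ _)).trans ?_
    have := hT.contractive (u n) x
    have h0 : (0 : ℝ) ≤ θ (nndist (u n) x) := NNReal.coe_nonneg _
    linarith
  have h1 : Tendsto (fun n => infDist (u (n + 1)) (T x)) atTop (𝓝 (infDist x (T x))) :=
    ((continuous_infDist_pt (T x)).tendsto x).comp (hx.comp (tendsto_add_atTop_nat 1))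
  have h2 : Tendsto (fun n => dist (u n) x) atTop (𝓝 0) := by
    rw [← dist_self x]
    exact hx.dist tendsto_const_nhds
  have h3 : infDist x (T x) ≤ 0 := le_of_tendsto_of_tendsto' h1 h2 hle
  have h4 : infDist x (T x) = 0 := le_antisymm h3 infDist_nonneg
  exact ((hT.closed x).mem_iff_infDist_zero (hT.nonempty x)).2 h4

end Pool.Agent.Results.MP_e93574_an.WeaklyContractive
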