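import Pool.Agent.Q43.RP.DefsN
import Pool.Agent.Q43.RP.Mtl
import Pool.Agent.Q43.RP.Uw

/-!
# A common `ℚ`-form of the `ℓ`-adic monodromy groups for abelian varieties with one Frobenius torus of
# large rank, and for all but exponentially few slope types of all CM fields

Let `A` be any abelian variety over a number field (no condition on the endomorphisms; factors of
type IV are allowed), `H = H_1(A, ℚ)`. Suppose that at ONE place of good reduction the characteristic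
polynomial of the Frobenius element is the product of the minimal polynomials of Weil numbers `π i` in
CM fields `K i`, for all prime numbers `ℓ ≥ ℓ₀` (Weil). Nothing is assumed about the Galois groups of the
fields `K i`, their subfields or their mutual position. Consider the statement (`HasCommonForm`): for
all prime numbers `ℓ ≥ ℓ₀` and all `m`, the `ℓ`-adic Tate classes in `(H^1)^{⊗ 2 m}(m)` are linear
combinations, with coefficients in `ℚ_ℓ`, of rational forms on `H` which are Hodge classes and Tate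
classes for ALL prime numbers `≥ ℓ₀`. The connected component of the Zariski closure of the image of the
Galois group is reductive and contains the homotheties, so it is the group of the similitudes which
multiply the Tate classes by powers of the multiplier; therefore the statement says that the
Mumford-Tate group, which is connected, reductive and defined over `ℚ`, becomes over `ℚ_ℓ` the connected
monodromy group for all `ℓ ≥ ℓ₀` (this translation is not formalized; it is the one of the starting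
results of this problem).

1. Let `[K i : ℚ] ≥ 2 g` for all `i` and let `D` be the defect of the `π i` (the rank of the relations
   between the Frobenius eigenvalues modulo the trivial ones; the Frobenius torus has rank
   `dim A + 1 - D`). If `4 D < g` then `HasCommonForm` is true. For an irreducible Frobenius polynomial
   the condition is that the Frobenius torus has rank greater than `3 g / 4 + 1`, `g = dim A`.
2. Let `p` be the residue characteristic. For all but `2 ^ N * r * (2 N + 1) ^ 3 * 7 ^ (- g / 8)` of the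
   `2 ^ N` families of slope types `Φ` (with a fixed weight function `M` without zeros; `M = 1`:
   ordinary reduction) `HasCommonForm` is true for all abelian varieties with one Frobenius element
   with Weil numbers of these slope types; here `r` is the number of the fields, `2 N` their total
   degree, `N = dim A`.

The starting results `AlmostAllFrobeniusTypes` and `AllCMFields` of this problem treat pairwise
independent fields without many CM subfields (and give the Lefschetz group as the common group); they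
say nothing about a given Frobenius element with relations between its eigenvalues. The proof uses the
Mumford-Tate conjecture for these abelian varieties (no relations of length four between the Frobenius
eigenvalues; MP_6c781a_ag `FourTermAllTypes`, our MP_c1bb77_ag `LargeFrobeniusTorus` and MP_33b3f9_ag
`ExponentiallyFewTypes`) and the theorem of Deligne for all prime numbers.
-/

set_option autoImplicit false

namespace Pool.Agent.Results.MP_e965d0_ag.CommonFormAllFields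

open NumberField Module TensorProduct Pool.Agent.H204R3.CM Pool.Agent.H204R3.GP
  Pool.Agent.W516.MTD Pool.Agent.TH776.FM Pool.Agent.H868R3.TwoOdd Pool.Agent.W548.Tt

/-- The `ℓ`-adic realization of an abelian variety with `H = H_1(A, ℚ)`, inclusion `per` in the tangent
space and Riemann form `ω₀`: the action `ρ` of the Galois group `Γ` on the Tate module `ℚ_ℓ ⊗ H`, the
cyclotomic character `χ` and the Weil pairing `ω`, with the known properties `IsAbelianVariety`. -/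
structure Ladic {H T : Type} [AddCommGroup H] [Module ℚ H] [AddCommGroup T] [Module ℂ T]
    (per : H →+ T) (ω₀ : H →ₗ[ℚ] H →ₗ[ℚ] ℚ) (Γ : Type) [Group Γ] (ℓ : ℕ) [Fact ℓ.Prime] where
  ρ : Representation ℚ_[ℓ] Γ (ℚ_[ℓ] ⊗[ℚ] H)
  χ : Γ →* ℚ_[ℓ]
  ω : ℚ_[ℓ] ⊗[ℚ] H →ₗ[ℚ_[ℓ]] ℚ_[ℓ] ⊗[ℚ] H →ₗ[ℚ_[ℓ]] ℚ_[ℓ]
  isAbelianVariety : IsAbelianVariety per ω₀ ρ χ ω

/-- `φ` is the extension of the rational form `ψ` to the Tate module. -/
def Extends {H : Type} [AddCommGroup H] [Module ℚ H] {ℓ : ℕ} [Fact ℓ.Prime] {m : ℕ}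
    (φ : MultilinearMap ℚ_[ℓ] (fun _ : Fin m × Fin 2 => ℚ_[ℓ] ⊗[ℚ] H) ℚ_[ℓ])
    (ψ : MultilinearMap ℚ (fun _ : Fin m × Fin 2 => H) ℚ) : Prop :=
  ∀ v : Fin m × Fin 2 → H, φ (fun l => (1 : ℚ_[ℓ]) ⊗ₜ[ℚ] v l) = ((ψ v : ℚ) : ℚ_[ℓ])

/-- For all prime numbers `ℓ ≥ ℓ₀` all Tate classes are linear combinations of rational forms which are
Hodge classes, and Tate classes for all prime numbers `≥ ℓ₀`. -/
def HasCommonForm {H T : Type} [AddCommGroup H] [Module ℚ H] [AddCommGroup T] [Module ℂ T]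
    {per : H →+ T} {ω₀ : H →ₗ[ℚ] H →ₗ[ℚ] ℚ} {Γ : Type} [Group Γ]
    (A : ∀ (ℓ : ℕ) [Fact ℓ.Prime], Ladic per ω₀ Γ ℓ) (ℓ₀ : ℕ) : Prop :=
  ∀ (ℓ : ℕ) [Fact ℓ.Prime], ℓ₀ ≤ ℓ → ∀ (m : ℕ)
    (φ : MultilinearMap ℚ_[ℓ] (fun _ : Fin m × Fin 2 => ℚ_[ℓ] ⊗[ℚ] H) ℚ_[ℓ]),
    IsTateTensor (A ℓ).ρ (A ℓ).χ m φ → φ ∈ Submodule.span ℚ_[ℓ]
      {φ' : MultilinearMap ℚ_[ℓ] (fun _ : Fin m × Fin 2 => ℚ_[ℓ] ⊗[ℚ] H) ℚ_[ℓ] |
        ∃ ψ : MultilinearMap ℚ (fun _ : Fin m × Fin 2 => H) ℚ, IsHodgeTensor per ψ ∧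
          Extends φ' ψ ∧ ∀ (ℓ' : ℕ) [Fact ℓ'.Prime], ℓ₀ ≤ ℓ' →
            ∀ φ'' : MultilinearMap ℚ_[ℓ'] (fun _ : Fin m × Fin 2 => ℚ_[ℓ'] ⊗[ℚ] H) ℚ_[ℓ'],
              Extends φ'' ψ → IsTateTensor (A ℓ').ρ (A ℓ').χ m φ''}

/-- The element `γ` of the Galois group is a Frobenius element of a place with residue field of `q`
elements, with Weil numbers `π i`, for all prime numbers `ℓ ≥ ℓ₀`. -/
def IsFrobenius {H T : Type} [AddCommGroup H] [Module ℚ H] [FiniteDimensional ℚ H]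
    [AddCommGroup T] [Module ℂ T]
    {per : H →+ T} {ω₀ : H →ₗ[ℚ] H →ₗ[ℚ] ℚ} {Γ : Type} [Group Γ]
    (A : ∀ (ℓ : ℕ) [Fact ℓ.Prime], Ladic per ω₀ Γ ℓ) (ℓ₀ : ℕ) (γ : Γ) (q : ℕ)
    {I : Type} [Fintype I] (K : I → Type) [∀ i, Field (K i)] [∀ i, NumberField (K i)]
    (π : ∀ i, K i) : Prop :=
  ∀ (ℓ : ℕ) [Fact ℓ.Prime], ℓ₀ ≤ ℓ → (A ℓ).χ γ = q ∧
    ((A ℓ).ρ γ).charpoly = (∏ i, minpoly ℚ (π i)).map (algebraMap ℚ ℚ_[ℓ])

/-- The common form exists for all abelian varieties with a Frobenius element of the slope types `Φ`. -/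
def HoldsForTypes (p : ℕ) [Fact p.Prime] {I : Type} [Fintype I] (K : I → Type)
    [∀ i, Field (K i)] [∀ i, NumberField (K i)] [∀ i, IsCMField (K i)]
    (M : ∀ i, (K i →+* PadicAlgCl p) → ℝ) (Φ : ∀ i, Set (K i →+* PadicAlgCl p)) : Prop :=
  ∀ (a : ℕ) (π : ∀ i, K i) (κ : ℝ), κ ≠ 0 →
    (∀ i, ∀ φ : K i →+* ℂ, ‖φ (π i)‖ ^ 2 = (p : ℝ) ^ a) →
    (∀ i, HasSlopeType p (π i) a (M i) (Φ i) κ) →
    ∀ {H T Γ : Type} [AddCommGroup H] [Module ℚ H] [FiniteDimensional ℚ H]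
      [AddCommGroup T] [Module ℂ T] [Group Γ] (per : H →+ T) (ω₀ : H →ₗ[ℚ] H →ₗ[ℚ] ℚ)
      (A : ∀ (ℓ : ℕ) [Fact ℓ.Prime], Ladic per ω₀ Γ ℓ) (ℓ₀ : ℕ) (γ : Γ),
      IsFrobenius A ℓ₀ γ (p ^ a) K π → HasCommonForm A ℓ₀

theorem common_of_free {I : Type} [Fintype I] (K : I → Type) [∀ i, Field (K i)]
    [∀ i, NumberField (K i)] [∀ i, IsCMField (K i)] {q : ℕ} (hq : 0 < q) (π : ∀ i, K i)
    (hweil : ∀ i, ∀ φ : K i →+* ℂ, ‖φ (π i)‖ ^ 2 = (q : ℝ))
    (hsf : Pool.Agent.Q43.RP.ShortFree K (q : ℚ) π 4)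
    {H T Γ : Type} [AddCommGroup H] [Module ℚ H] [FiniteDimensional ℚ H]
    [AddCommGroup T] [Module ℂ T] [Group Γ] {per : H →+ T} {ω₀ : H →ₗ[ℚ] H →ₗ[ℚ] ℚ}
    (A : ∀ (ℓ : ℕ) [Fact ℓ.Prime], Ladic per ω₀ Γ ℓ) (ℓ₀ : ℕ) (γ : Γ)
    (hγ : IsFrobenius A ℓ₀ γ q K π) : HasCommonForm A ℓ₀ := by
  intro ℓ _ hℓ m φ hφ
  have h1 := Pool.Agent.Q43.RP.mt_free K hq π hweil hsf (A ℓ).isAbelianVariety γ (hγ ℓ hℓ).1
    (hγ ℓ hℓ).2 m φ hφ
  refine Submodule.span_mono ?_ h1
  rintro φ' ⟨ψ, hψ, hext⟩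
  refine ⟨ψ, hψ, hext, fun ℓ' _ _ φ'' hφ'' => ?_⟩
  exact (A ℓ').isAbelianVariety.deligne m ψ hψ φ'' hφ''

/-- **A common `ℚ`-form of the `ℓ`-adic monodromy groups** for abelian varieties with one Frobenius
torus of large rank, and for all but exponentially few slope types of all CM fields. -/
theorem result :
    (∀ {I : Type} [Fintype I] (K : I → Type) [∀ i, Field (K i)] [∀ i, NumberField (K i)]
      [∀ i, IsCMField (K i)] (q : ℕ) (π : ∀ i, K i), 0 < q →
      (∀ i, ∀ φ : K i →+* ℂ, ‖φ (π i)‖ ^ 2 = (q : ℝ)) →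
      ∀ g : ℕ, (∀ i, 2 * g ≤ finrank ℚ (K i)) → 4 * Pool.Agent.Q43.RP.defect K π < g →
      ∀ {H T Γ : Type} [AddCommGroup H] [Module ℚ H] [FiniteDimensional ℚ H]
        [AddCommGroup T] [Module ℂ T] [Group Γ] (per : H →+ T) (ω₀ : H →ₗ[ℚ] H →ₗ[ℚ] ℚ)
        (A : ∀ (ℓ : ℕ) [Fact ℓ.Prime], Ladic per ω₀ Γ ℓ) (ℓ₀ : ℕ) (γ : Γ),
        IsFrobenius A ℓ₀ γ q K π → HasCommonForm A ℓ₀) ∧
    ∀ (p : ℕ) [Fact p.Prime] {I : Type} [Fintype I] (K : I → Type)
      [∀ i, Field (K i)] [∀ i, NumberField (K i)] [∀ i, IsCMField (K i)]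
      (g N : ℕ), (∀ i, 2 * g ≤ finrank ℚ (K i)) → ∑ i, finrank ℚ (K i) = 2 * N →
      ∀ M : ∀ i, (K i →+* PadicAlgCl p) → ℝ, (∀ i τ, M i (cbar τ) = M i τ) →
      (∀ i τ, M i τ ≠ 0) →
      ({Φ : ∀ i, Set (K i →+* PadicAlgCl p) | (∀ i, IsPadicType p (Φ i)) ∧
        ¬ HoldsForTypes p K M Φ}.ncard : ℝ) ≤
        2 ^ N * (Fintype.card I * (2 * N + 1) ^ 3 * 7 ^ (-(g / 8 : ℝ))) := by
  refine ⟨?_, ?_⟩
  · intro I _ K _ _ _ q π hq hweil g hg h4 H T Γ _ _ _ _ _ _ per ω₀ A ℓ₀ γ hγ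
    have hq' : (0 : ℚ) < (q : ℚ) := Nat.cast_pos.2 hq
    have hweil' : ∀ i, ∀ φ : K i →+* ℂ, ‖φ (π i)‖ ^ 2 = (((q : ℚ) : ℝ)) := by
      intro i φ
      rw [hweil]
      norm_cast
    have hD : Pool.Agent.Q43.RP.defect K π =
        finrank ℤ (Pool.Agent.Q43.RP.relLat K π) := rfl
    exact common_of_free K hq π hweil
      (Pool.Agent.Q43.RP.shortFree_of_defect K hg hq' π hweil' (by rw [← hD]; omega)) A ℓ₀ γ hγ
  · intro p _ I _ K _ _ _ g N hg hN M hM hM0
    classical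
    have h1 := Pool.Agent.Q43.RP.ncard_uw p K g N 4 hg hN (by norm_num) M hM hM0
    have h2 : (2 : ℝ) ^ N * (Fintype.card I * (2 * N + 1) ^ (4 - 1) *
        (3 * (4 : ℕ) / 2 + 1) ^ (-(g / (2 * (4 : ℕ)) : ℝ))) =
        2 ^ N * (Fintype.card I * (2 * N + 1) ^ 3 * 7 ^ (-(g / 8 : ℝ))) := by
      norm_num
    rw [← h2]
    refine le_trans ?_ h1
    rw [Nat.cast_le]
    refine Set.ncard_le_ncard ?_ ((Set.toFinite
      {Φ : ∀ i, Set (K i →+* PadicAlgCl p) | ∀ i, IsPadicType p (Φ i)}).subset fun _ h => h.1)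
    rintro Φ ⟨hΦ, hnot⟩
    refine ⟨hΦ, fun hW => hnot ?_⟩
    intro a π κ hκ hweil hslope H T Γ _ _ _ _ _ _ per ω₀ A ℓ₀ γ hγ
    have hp : 0 < p ^ a := pow_pos (Fact.out : p.Prime).pos a
    have hsf := hW a π κ hκ hweil hslope
    have hcast : ((p : ℚ) ^ a) = (((p ^ a : ℕ)) : ℚ) := by push_cast; rfl
    rw [hcast] at hsf
    exact common_of_free K hp π (fun i φ => by rw [hweil]; push_cast; rfl) hsf A ℓ₀ γ hγ

end Pool.Agent.Results.MP_e965d0_ag.CommonFormAllFields
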