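import Mathlib
import Pool.Agent.Q33.SP.Aff
import Pool.Agent.W235.RM.Final

/-!
MP_e97a4d_nt: entire curves and punctured discs whose coordinates are sums of few high powers of
arbitrary holomorphic functions, and integral points.
-/

set_option autoImplicit false

namespace Pool.Agent.Results.MP_e97a4d_nt.PowerSumEquivalence

open MvPolynomial Filter Topology Pool.Agent.W235.RM Pool.Agent.Q33.SP
open Pool.Agent.H159R3.Exp (ExpCurvesIn FinitelyManyIntegral)
open scoped NumberField

variable {K : Type} [Field K] {ι κ : Type} {n : ℕ}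

/-- the polynomials over the complex numbers -/
noncomputable def toC (σ : K →+* ℂ) (F : ι → MvPolynomial (Fin n) (𝓞 K)) :
    ι → MvPolynomial (Fin n) ℂ :=
  fun i => MvPolynomial.map (σ.comp (algebraMap (𝓞 K) K)) (F i)

/-- Condition (i) for the entire curves which are sums of few high powers: if `V` is given by
equations of degree at most `D ≥ 1`, the nonconstant entire curve `f` in `V` is, perhaps after
composition with a nonconstant entire function `h` (for instance the identity), of the form
`v_0 + ∑_j v_j k_j ^ M`, a sum of `r` terms, for constant vectors `v_j` and entire functions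
`k_j`, and `M` is at least the square of the number of monomials of degree at most `D` in `r`
variables, then `f` lies in `V'`. -/
def PowerCurvesIn (σ : K →+* ℂ) (F : ι → MvPolynomial (Fin n) (𝓞 K))
    (G : κ → MvPolynomial (Fin n) (𝓞 K)) : Prop :=
  ∀ r M D, 1 ≤ D → (∀ i, (toC σ F i).totalDegree ≤ D) → ((r + D).choose D) ^ 2 ≤ M →
    ∀ f : ℂ → Fin n → ℂ, Differentiable ℂ f → (∃ h : ℂ → ℂ, Differentiable ℂ h ∧
      (∃ z w, h z ≠ h w) ∧ ∃ (v0 : Fin n → ℂ) (v : Fin r → Fin n → ℂ) (k : Fin r → ℂ → ℂ),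
      (∀ j, Differentiable ℂ (k j)) ∧ ∀ z i, f (h z) i = v0 i + ∑ j, v j i * k j z ^ M) →
    (∀ z i, eval (f z) (toC σ F i) = 0) → (∃ z w, f z ≠ f w) →
    ∀ z l, eval (f z) (toC σ G l) = 0

/-- The same for the holomorphic maps from the punctured disc to `V` with an essential singularity;
the `v_j` are vectors of meromorphic germs and the `k_j` are holomorphic near the origin, outside of
the origin. -/
def PowerDiscsIn (σ : K →+* ℂ) (F : ι → MvPolynomial (Fin n) (𝓞 K))
    (G : κ → MvPolynomial (Fin n) (𝓞 K)) : Prop :=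
  ∀ r M D, 1 ≤ D → (∀ i, (toC σ F i).totalDegree ≤ D) → ((r + D).choose D) ^ 2 ≤ M →
    ∀ f : ℂ → Fin n → ℂ, (∀ i, AnalyticOnNhd ℂ (fun w => f w i) {w : ℂ | w ≠ 0 ∧ ‖w‖ < 1}) →
    (∃ (V0 : Fin n → ℂ → ℂ) (V : Fin r → Fin n → ℂ → ℂ) (k : Fin r → ℂ → ℂ),
      (∀ i, MeromorphicAt (V0 i) 0) ∧ (∀ j i, MeromorphicAt (V j i) 0) ∧
      (∀ j, ∀ᶠ w in 𝓝[≠] (0 : ℂ), AnalyticAt ℂ (k j) w) ∧
      ∀ᶠ w in 𝓝[≠] (0 : ℂ), ∀ i, f w i = V0 i w + ∑ j, V j i w * k j w ^ M) →
    (∀ w : ℂ, w ≠ 0 → ‖w‖ < 1 → ∀ i, eval (f w) (toC σ F i) = 0) →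
    (∃ i, ¬ MeromorphicAt (fun w => f w i) 0) →
    ∀ w : ℂ, w ≠ 0 → ‖w‖ < 1 → ∀ l, eval (f w) (toC σ G l) = 0

theorem gm_iff (σ : K →+* ℂ) (F : ι → MvPolynomial (Fin n) (𝓞 K))
    (G : κ → MvPolynomial (Fin n) (𝓞 K)) : GmCurvesIn σ F G ↔ GmIn (toC σ F) (toC σ G) := by
  unfold GmCurvesIn GmIn toC
  simp only [eval_map]

theorem pow_iff (σ : K →+* ℂ) (F : ι → MvPolynomial (Fin n) (𝓞 K))
    (G : κ → MvPolynomial (Fin n) (𝓞 K)) :
    PowerCurvesIn σ F G ↔ PowEntIn (toC σ F) (toC σ G) := by
  constructor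
  · intro h r M D hD1 hD hM f hsum hX hnc
    obtain ⟨v0, v, k, hk, hfe⟩ := hsum
    have hf : Differentiable ℂ f := by
      rw [differentiable_pi]
      intro i
      have : (fun z => f z i) = fun z => v0 i + ∑ j, v j i * k j z ^ M := by
        funext z
        exact hfe z i
      rw [this]
      exact (differentiable_const _).add
        (Differentiable.fun_sum fun j _ => ((hk j).pow M).const_mul _)
    exact h r M D hD1 hD hM f hf ⟨fun z => z, differentiable_id, ⟨0, 1, zero_ne_one⟩, v0, v, k, hk,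
      hfe⟩ hX hnc
  · intro h r M D hD1 hD hM f hf hsum hX hnc z l
    obtain ⟨g, hg, hgn, hs⟩ := hsum
    obtain ⟨a, b, hab⟩ := hnc
    obtain ⟨i, hi⟩ := Function.ne_iff.1 hab
    have hfi : ∀ i, Differentiable ℂ fun z => f z i := fun i => by
      rw [differentiable_pi] at hf
      exact hf i
    obtain ⟨y, hy⟩ := Pool.Agent.H159R3.Exp.comp_ne ((hfi i).sub_const (f (g 0) i)) (by
      by_contra hcon
      push Not at hcon
      apply hi
      rw [sub_eq_zero.1 (hcon a), sub_eq_zero.1 (hcon b)]) hg hgn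
    have key := h r M D hD1 hD hM (fun z => f (g z)) hs (fun z i => hX _ i) ⟨y, 0, fun h0 => hy (by
      rw [h0, sub_self])⟩
    by_contra hne
    obtain ⟨x, hx⟩ := Pool.Agent.H159R3.Exp.comp_ne
      (Pool.Agent.H159R3.Exp.differentiable_eval hf (toC σ G l)) ⟨z, hne⟩ hg hgn
    exact hx (key x l)

/-- Let `V` be the closed subscheme of the affine `n`-space over the ring of integers of a number
field `K` given by finitely many polynomials `F`, and `V'` the closed subscheme of `V` given by `G`.
The following are equivalent: condition (i) for the entire curves in `V` which are sums of few high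
powers of entire functions; the same for the maps from the punctured disc with an essential
singularity which are sums of few high powers; the nonconstant maps from the multiplicative group to
`V` lie in `V'`; condition (i) for the entire curves of exponential type; finiteness of sparse
integral points outside `V'`; finiteness for linear recurrence sequences of integral points. In
particular, condition (ii) on the integral points over all number fields implies condition (i) for
all entire curves which are sums of few high powers. -/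
theorem result [NumberField K] [Finite ι] (σ : K →+* ℂ) (F : ι → MvPolynomial (Fin n) (𝓞 K))
    (G : κ → MvPolynomial (Fin n) (𝓞 K)) :
    List.TFAE [PowerCurvesIn σ F G, PowerDiscsIn σ F G, GmCurvesIn σ F G, ExpCurvesIn σ F G,
      SparseFinite F G, RecurrenceFinite F G] ∧
    (FinitelyManyIntegral F G → PowerCurvesIn σ F G ∧ PowerDiscsIn σ F G) ∧
    (EntireCurvesIn σ F G → PowerDiscsIn σ F G) := by
  have h1 := aff_tfae (toC σ F) (toC σ G)
  have h2 := Pool.Agent.W235.RM.tfae σ F G
  have hg := gm_iff σ F G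
  have h3 : PowerCurvesIn σ F G ↔ GmCurvesIn σ F G := (pow_iff σ F G).trans ((h1.out 2 0).trans hg.symm)
  have h4 : PowerDiscsIn σ F G ↔ GmCurvesIn σ F G := (h1.out 1 0).trans hg.symm
  have h5 : ExpCurvesIn σ F G ↔ GmCurvesIn σ F G := h2.out 0 1
  have h6 : SparseFinite F G ↔ GmCurvesIn σ F G := h2.out 2 1
  have h7 : RecurrenceFinite F G ↔ GmCurvesIn σ F G := h2.out 5 1
  refine ⟨?_, fun h => ?_, fun h => ?_⟩
  · tfae_have 1 ↔ 3 := h3
    tfae_have 2 ↔ 3 := h4
    tfae_have 4 ↔ 3 := h5
    tfae_have 5 ↔ 3 := h6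
    tfae_have 6 ↔ 3 := h7
    tfae_finish
  · have h8 := h7.1 (rec_of_integral F G h)
    exact ⟨h3.2 h8, h4.2 h8⟩
  · exact h4.2 (h5.1 (exp_of_entire σ F G h))

end Pool.Agent.Results.MP_e97a4d_nt.PowerSumEquivalence
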