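import Pool.Agent.Y682.YQ.Lay
import Pool.Agent.Q283.TV.Fin

/-!
# The 2-part of the Birch and Swinnerton-Dyer conjecture at all the layers of the cyclotomic
# `ℤ₃`-extension for a positive proportion of the prime twists of every twist

`E_D` is the quadratic twist by `D` of the modular curve `X_0(14)` (without complex multiplication).
Let `D` be ANY element of the class `Adm`: squarefree, `1` modulo `4`, a square modulo `7`, all prime
factors split completely in `ℚ(i, √2, √-7)` or are inert in `ℚ(√2)` and in `ℚ(√-7)`, and are inert in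
the cyclotomic `ℤ₃`-extension of `ℚ`. No condition is put on the rank, on the Tate-Shafarevich group or
on the `L`-function of `E_D`. Let `p` run through the primes that split completely in
`ℚ(i, √2, √-7)` and are inert in the cyclotomic `ℤ₃`-extension.

Theorem. The `p` for which the 2-part of the conjecture holds for `E_{Dp}` over ALL the layers `K` of the
cyclotomic `ℤ₃`-extension, with `L(E_{Dp}/K, 1) ≠ 0`, rank `0` and `Ш(E_{Dp}/K)[2^∞] = 0`, have a natural
density `c(D) > 0` among these primes. If `R D` is the matrix of `D` over `𝔽₂`, of size `n`, then `c(D)` is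
the proportion of the nonsingular matrices among the `2^(n+1)` matrices that arise from `R D` by adding a
vector `v` to the diagonal and bordering by `v` and a corner. If `p` is one of the other primes, then for
no layer `K` the rank of `E_{Dp}(K)` is zero with `Ш(E_{Dp}/K)[2] = 0`.

The criterion for one `D` and the 2-part of the formula over the layers are from the starting library (see
`Pool.Agent.Results.MP_cd906c_nt.AllLayersExactProportion`), Chebotarev's density theorem is the one of
`Pool/Agent/W401/Cheb`. New here (helper283): `Pool/Agent/Q283/TW` and `Pool/Agent/Q283/TV`.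
-/

set_option autoImplicit false

open NumberField NumberField.InfinitePlace IsDedekindDomain WeierstrassCurve MeasureTheory Filter
  Topology

namespace Pool.Agent.Results.MP_e996df_nt.PrimeTwistsAllLayers

open scoped Classical

open Pool.Agent.TH841.NF.D (Sha)

/-- The quadratic twist `E_D` of `X_0(14)` (`D = 1` modulo `4`), with its global minimal equation
`y² + x y + y = x³ + ((D - 1)/4) x² + ((9 D² - 1)/2) x - (23 D³ + 1)/4`.  It is isomorphic to
`Y² = X (X² + 13 D X + 128 D²)` by `X = 4 (x - D)`, `Y = 4 (2 y + x + 1)`. -/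
def twist (D : ℤ) : WeierstrassCurve ℤ :=
  ⟨1, (D - 1) / 4, 1, (9 * D ^ 2 - 1) / 2, -((23 * D ^ 3 + 1) / 4)⟩

/-- The curve given by the equation of `W` over the ring `R`. -/
abbrev base (W : WeierstrassCurve ℤ) (R : Type) [CommRing R] : WeierstrassCurve R :=
  W.map (Int.castRingHom R)

/-- The number of the affine points `(x, y)` over the ring `R`. -/
noncomputable def pts (W : WeierstrassCurve ℤ) (R : Type) [CommRing R] : ℕ :=
  Nat.card {P : R × R // (base W R).toAffine.Equation P.1 P.2}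

section

variable {K : Type} [Field K] [NumberField K]

/-- `a_v = N v + 1 - #W(k_v)`, the points over the residue field `k_v` counted with the point at
infinity. -/
noncomputable def a (W : WeierstrassCurve ℤ) (v : HeightOneSpectrum (𝓞 K)) : ℤ :=
  (Ideal.absNorm v.asIdeal : ℤ) - pts W (𝓞 K ⧸ v.asIdeal)

/-- The Euler factor of `L(W/K, s)` at `v` : `(1 - a_v N v^(-s) + N v^(1 - 2 s))⁻¹` if the
discriminant is a unit at `v`, and `(1 - a_v N v^(-s))⁻¹` otherwise. -/
noncomputable def factor (W : WeierstrassCurve ℤ) (s : ℂ) (v : HeightOneSpectrum (𝓞 K)) : ℂ :=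
  (1 - (a W v : ℂ) * (Ideal.absNorm v.asIdeal : ℂ) ^ (-s) +
    if ((W.Δ : ℤ) : 𝓞 K) ∈ v.asIdeal then 0 else (Ideal.absNorm v.asIdeal : ℂ) ^ (1 - 2 * s))⁻¹

/-- The equation is minimal at the finite place `v` of `K`: no change of variables over `K` that
keeps the coefficients integral at `v` decreases the valuation of the discriminant. -/
def MinimalAt (W : WeierstrassCurve ℤ) (v : HeightOneSpectrum (𝓞 K)) : Prop :=
  ∀ C : VariableChange K, v.valuation K (C • base W K).a₁ ≤ 1 →
    v.valuation K (C • base W K).a₂ ≤ 1 → v.valuation K (C • base W K).a₃ ≤ 1 →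
    v.valuation K (C • base W K).a₄ ≤ 1 → v.valuation K (C • base W K).a₆ ≤ 1 →
    v.valuation K (C • base W K).Δ ≤ v.valuation K (base W K).Δ

/-- `E⁰(K_v)`, the group of the points of `W` over the completion `K_v` with nonsingular reduction:
the points `(x, y)` where `x` is not integral, or one of the partial derivatives of
`y² + a₁ x y + a₃ y - x³ - a₂ x² - a₄ x - a₆` is a unit at `(x, y)`, and the point at infinity. -/
noncomputable def nonsing (W : WeierstrassCurve ℤ) (v : HeightOneSpectrum (𝓞 K)) :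
    AddSubgroup (base W (v.adicCompletion K)).toAffine.Point :=
  AddSubgroup.closure {P | ∀ x y h, P = Affine.Point.some x y h →
    1 < Valued.v x ∨ Valued.v (W.a₁ * y - (3 * x ^ 2 + 2 * W.a₂ * x + W.a₄)) = 1 ∨
      Valued.v (2 * y + W.a₁ * x + W.a₃) = 1}

/-- The Tamagawa number `c_v = [E(K_v) : E⁰(K_v)]` of a minimal equation. -/
noncomputable def c (W : WeierstrassCurve ℤ) (v : HeightOneSpectrum (𝓞 K)) : ℕ :=
  (nonsing W v).index

end

section

variable (K : Type) [Field K] [NumberField K]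

/-- The product of the Tamagawa numbers. -/
noncomputable def Tam (W : WeierstrassCurve ℤ) : ℕ := ∏ᶠ v : HeightOneSpectrum (𝓞 K), c W v

/-- The 2-primary part of the Tate-Shafarevich group over `K`. -/
noncomputable abbrev Sha2 (W : WeierstrassCurve ℤ) : AddSubgroup (Sha (base W K)) :=
  AddCommGroup.primaryComponent (Sha (base W K)) 2

/-- The torsion points over `K`. -/
def tors (W : WeierstrassCurve ℤ) : Set (base W K).toAffine.Point := {P | ∃ n : ℕ, 0 < n ∧ n • P = 0}

/-- The rank of the group of the points over `K`. -/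
noncomputable def rank (W : WeierstrassCurve ℤ) : ℕ := Module.finrank ℤ (base W K).toAffine.Point

/-- `g` is a basis of the group of the points over `K` modulo torsion. -/
def IsBasis (W : WeierstrassCurve ℤ) {r : ℕ} (g : Fin r → (base W K).toAffine.Point) : Prop :=
  ∀ P : (base W K).toAffine.Point, ∃! n : Fin r → ℤ, P - ∑ i, n i • g i ∈ tors K W

/-- `h` is the canonical height: `h(P) = lim 4^{-k} h_K(x(2^k P))`, where `h_K` is the logarithmic
height relative to `K`. -/
def IsHeight (W : WeierstrassCurve ℤ) (h : (base W K).toAffine.Point → ℝ) : Prop :=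
  ∀ P : (base W K).toAffine.Point,
    Tendsto (fun k : ℕ => Height.logHeight ((2 ^ k : ℕ) • P).xRep / 4 ^ k) atTop (𝓝 (h P))

/-- The regulator, the determinant of `⟨g_i, g_j⟩ = (h(g_i + g_j) - h(g_i) - h(g_j)) / 2`. -/
noncomputable def reg (W : WeierstrassCurve ℤ) (h : (base W K).toAffine.Point → ℝ) {r : ℕ}
    (g : Fin r → (base W K).toAffine.Point) : ℝ :=
  (Matrix.of fun i j : Fin r => (h (g i + g j) - h (g i) - h (g j)) / 2).det

end

/-- `4 x³ + b₂ x² + 2 b₄ x + b₆ = (2 y + a₁ x + a₃)²`, where `b₂ = a₁² + 4 a₂`,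
`b₄ = 2 a₄ + a₁ a₃`, `b₆ = a₃² + 4 a₆`. -/
def cubic (W : WeierstrassCurve ℤ) {R : Type} [CommRing R] (x : R) : R :=
  4 * x ^ 3 + W.b₂ * x ^ 2 + 2 * W.b₄ * x + W.b₆

/-- `∫_{W(ℝ)} |ω|` with `ω = dx / (2 y + a₁ x + a₃)`, as an integral over `x`: two real points lie
over each `x` with `cubic x > 0`. -/
noncomputable def realPeriod (W : WeierstrassCurve ℤ) : ℝ :=
  2 * ∫ x in {x : ℝ | 0 < cubic W x}, 1 / √(cubic W x)

/-- `2 ∫_{W(ℂ)} |ω ∧ ω̄|`, where `|ω ∧ ω̄| = du dv` in a local parameter `z = u + i v` with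
`dz = ω`, as an integral over `x`: two points lie over a general `x`, and `|ω ∧ ω̄|` is the area
element of the plane of `x` divided by `|cubic x|`. -/
noncomputable def complexPeriod (W : WeierstrassCurve ℤ) : ℝ := 2 * (2 * ∫ x : ℂ, 1 / ‖cubic W x‖)

/-- The global period of an equation that is minimal at all finite places. -/
noncomputable def Omega (K : Type) [Field K] [NumberField K] (W : WeierstrassCurve ℤ) : ℝ :=
  realPeriod W ^ nrRealPlaces K * complexPeriod W ^ nrComplexPlaces K

/-- The `L`-function of `W` over `K` is an entire function `L`, its order at `s = 1` is `n`, and `x` is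
the analytic order of the Tate-Shafarevich group, that is
`L*(1) √|Δ_K| (#E(K)_tors)² / (Reg Ω Tam)`, where `L*(1)` is the leading coefficient at `1`: the value
of `#Ш` that is predicted by the conjecture.  (The three numbers in the denominator and the number of
the torsion points are positive.) -/
def IsAnalyticSha (K : Type) [Field K] [NumberField K] (W : WeierstrassCurve ℤ) (n : ℕ) (x : ℂ) :
    Prop :=
  ∃ (L : ℂ → ℂ) (l : ℂ) (h : (base W K).toAffine.Point → ℝ) (r : ℕ)
    (g : Fin r → (base W K).toAffine.Point), Differentiable ℂ L ∧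
    (∀ s : ℂ, 3 / 2 < s.re → HasProd (factor (K := K) W s) (L s)) ∧
    analyticOrderAt L 1 = n ∧ Tendsto (fun s => L s / (s - 1) ^ n) (𝓝[≠] 1) (𝓝 l) ∧
    IsHeight K W h ∧ IsBasis K W g ∧ 0 < reg K W h g ∧ 0 < Omega K W ∧ 0 < Tam K W ∧
    0 < Nat.card (tors K W) ∧
    x = l * ((√|(discr K : ℝ)| : ℝ) : ℂ) * (Nat.card (tors K W) : ℂ) ^ 2 /
      (((reg K W h g * Omega K W * Tam K W : ℝ)) : ℂ)

/-- The 2-part of the conjecture of Birch and Swinnerton-Dyer for `W` over `K`: the `L`-function is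
entire, its order at `s = 1` is the rank, the 2-primary part of the Tate-Shafarevich group is finite,
and the analytic order of the Tate-Shafarevich group is a rational number with the same 2-adic
valuation as the order of that 2-primary part. -/
def TwoPart (K : Type) [Field K] [NumberField K] (W : WeierstrassCurve ℤ) : Prop :=
  ∃ x : ℚ, x ≠ 0 ∧ IsAnalyticSha K W (rank K W) x ∧ Finite (Sha2 K W) ∧
    padicValRat 2 x = padicValNat 2 (Nat.card (Sha2 K W))

/-! ### The class of the twists -/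

/-- primes which split completely in `ℚ(i, √2, √-7)` -/
def Split (p : ℕ) : Prop := p.Prime ∧ p % 8 = 1 ∧ (p % 7 = 1 ∨ p % 7 = 2 ∨ p % 7 = 4)

/-- primes inert in `ℚ(√2)` and in `ℚ(√-7)` -/
def Inert (q : ℕ) : Prop :=
  q.Prime ∧ (q % 8 = 3 ∨ q % 8 = 5) ∧ (q % 7 = 3 ∨ q % 7 = 5 ∨ q % 7 = 6)

/-- the class of discriminants; the condition modulo `9` means that the prime is inert in all the
layers of the cyclotomic `ℤ₃`-extension of `ℚ` -/
def Adm (D : ℤ) : Prop := Squarefree D ∧ D % 4 = 1 ∧ (D % 7 = 1 ∨ D % 7 = 2 ∨ D % 7 = 4) ∧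
  ∀ p : ℕ, p.Prime → (p : ℤ) ∣ D →
    (Split p ∨ Inert p) ∧ (p % 9 = 2 ∨ p % 9 = 4 ∨ p % 9 = 5 ∨ p % 9 = 7)

/-- the prime factors `≡ 1 mod 8` of `D` -/
def S (D : ℤ) : Finset ℕ := D.natAbs.primeFactors.filter fun p => p % 8 = 1

/-- the matrix over `𝔽₂` with rows and columns indexed by `S D`: off the diagonal the
entry at `(p, p')` is `1` if `p'` is not a square modulo `p` and `0` otherwise; on the diagonal it
is the number of the prime factors of `D` different from `p` which are not squares modulo `p`, plus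
`1` if the number of the points of `X_0(14)` modulo `p` is not divisible by `8` -/
noncomputable def R (D : ℤ) : Matrix (S D) (S D) (ZMod 2) := Matrix.of fun i j =>
  if i = j then
    (((D.natAbs.primeFactors.filter fun r : ℕ => r ≠ (i : ℕ) ∧
      ¬ IsSquare (r : ZMod (i : ℕ))).card : ZMod 2) +
        if 8 ∣ pts (twist 1) (ZMod (i : ℕ)) + 1 then 0 else 1)
  else if IsSquare (((j : ℕ)) : ZMod (i : ℕ)) then 0 else 1

/-- The 2-part of the conjecture of Birch and Swinnerton-Dyer holds for `E_D` over `K`, the rank of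
`E_D(K)` is zero and `Ш(E_D/K)[2^∞] = 0`. -/
def Good (K : Type) [Field K] [NumberField K] (D : ℤ) : Prop :=
  TwoPart K (twist D) ∧ rank K (twist D) = 0 ∧ Nat.card (Sha2 K (twist D)) = 1

/-- The rank of `E_D(K)` is zero and `Ш(E_D/K)[2] = 0`. -/
def Small (K : Type) [Field K] [NumberField K] (D : ℤ) : Prop :=
  rank K (twist D) = 0 ∧ ∀ x : Sha (base (twist D) K), 2 • x = 0 → x = 0

/-- `Good K D` at every layer `K` of the cyclotomic `ℤ₃`-extension of `ℚ` (`K` is a subfield of odd
degree of a `3 ^ (n + 1)`-th cyclotomic field). -/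
def AllLayers (D : ℤ) : Prop := ∀ (n : ℕ) (M : Type) [Field M] [NumberField M]
  [IsCyclotomicExtension {3 ^ (n + 1)} ℚ M] (K : IntermediateField ℚ M),
  Odd (Module.finrank ℚ K) → Good K D

/-- The primes that split completely in `ℚ(i, √2, √-7)` and are inert in the cyclotomic
`ℤ₃`-extension. -/
def SplitInert (p : ℕ) : Prop := Split p ∧ (p % 9 = 2 ∨ p % 9 = 4 ∨ p % 9 = 5 ∨ p % 9 = 7)

/-- the matrix `M` with `v` added to the diagonal, bordered by `v` and the corner `d` -/
def bordered {n : Type} [DecidableEq n] (M : Matrix n n (ZMod 2)) (v : n → ZMod 2) (d : ZMod 2) :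
    Matrix (n ⊕ Unit) (n ⊕ Unit) (ZMod 2) :=
  Matrix.fromBlocks (M + Matrix.diagonal v) (Matrix.of fun i _ => v i) (Matrix.of fun _ j => v j)
    (Matrix.of fun _ _ => d)

/-- the proportion of the nonsingular matrices among the bordered matrices of `D` -/
noncomputable def prop (D : ℤ) : ℝ :=
  (Nat.card {x : (S D → ZMod 2) × ZMod 2 // (bordered (R D) x.1 x.2).det ≠ 0} : ℝ) /
    2 ^ ((S D).card + 1)

theorem adm_iff (D : ℤ) : Adm D ↔ (Pool.Agent.Y687.MQ.AdmD D ∧ Pool.Agent.Y682.YQ.H9 D) := by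
  constructor
  · rintro ⟨h1, h2, h3, h4⟩
    refine ⟨⟨h1, h2, h3, fun p hp hd => ⟨?_, (h4 p hp hd).1⟩⟩, fun p hp hd => (h4 p hp hd).2⟩
    rintro rfl
    have := (h4 3 hp hd).2
    omega
  · rintro ⟨⟨h1, h2, h3, h4⟩, h5⟩
    exact ⟨h1, h2, h3, fun p hp hd => ⟨(h4 p hp hd).2, h5 p hp hd⟩⟩

theorem r_eq {D : ℤ} (hD : Adm D) : R D = Pool.Agent.Y687.MQ.matD D := by
  have hS := (Pool.Agent.Y687.MQ.of_admD ((adm_iff D).1 hD).1).1
  unfold R Pool.Agent.Y687.MQ.matD
  ext i j
  simp only [Matrix.of_apply]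
  have hi := hS i.1 i.2
  have h8 := hi.2.1
  have h7 := hi.2.2
  have e : pts (twist 1) (ZMod (i : ℕ)) + 1 = Pool.Agent.Y687.NN 1 (i : ℕ) := by
    have h1 := Pool.Agent.Z705.cnt_affCountZ (D := 1) hi.1 (by omega) (by omega) (by norm_num) (by
      intro h
      rw [Int.natAbs_one, Nat.dvd_one] at h
      exact hi.1.one_lt.ne' h)
    unfold Pool.Agent.Y687.NN
    rw [Nat.cast_one, h1]
    rfl
  rw [e]
  rfl

theorem layer {D : ℤ} (hD : Adm D) (n : ℕ) (M : Type) [Field M] [NumberField M]
    [IsCyclotomicExtension {3 ^ (n + 1)} ℚ M] (K : IntermediateField ℚ M)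
    (hodd : Odd (Module.finrank ℚ K)) :
    (Small K D ↔ (R D).det ≠ 0) ∧ ((R D).det ≠ 0 → Good K D) := by
  rw [r_eq hD]
  exact (Pool.Agent.Y682.YQ.layer ((adm_iff D).1 hD).1 ((adm_iff D).1 hD).2 n M K hodd).2

theorem all_iff {D : ℤ} (hD : Adm D) : AllLayers D ↔ (R D).det ≠ 0 := by
  have h21 : ∀ (A : Type) [AddCommGroup A] (x : A), 2 • x = 0 → 2 ^ 1 • x = 0 := by
    intro A _ x hx
    rw [pow_one]
    exact hx
  constructor
  · intro h
    have hz : NeZero (3 ^ (0 + 1)) := ⟨by norm_num⟩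
    have hcyc : IsCyclotomicExtension {3 ^ (0 + 1)} ℚ (CyclotomicField (3 ^ (0 + 1)) ℚ) :=
      CyclotomicField.isCyclotomicExtension (3 ^ (0 + 1)) ℚ
    have hodd : Odd (Module.finrank ℚ
        (⊥ : IntermediateField ℚ (CyclotomicField (3 ^ (0 + 1)) ℚ))) := by
      rw [IntermediateField.finrank_bot]
      exact odd_one
    obtain ⟨-, h2, h3⟩ := h 0 (CyclotomicField (3 ^ (0 + 1)) ℚ) ⊥ hodd
    obtain ⟨k2, -⟩ := layer hD 0 (CyclotomicField (3 ^ (0 + 1)) ℚ) ⊥ hodd
    refine k2.1 ⟨h2, fun x hx => ?_⟩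
    have hx' : x ∈ Sha2 (⊥ : IntermediateField ℚ (CyclotomicField (3 ^ (0 + 1)) ℚ)) (twist D) :=
      ⟨1, h21 _ x hx⟩
    have h4 := (Nat.card_eq_one_iff_unique.1 h3).1
    exact congrArg Subtype.val (Subsingleton.elim (⟨x, hx'⟩ :
      Sha2 (⊥ : IntermediateField ℚ (CyclotomicField (3 ^ (0 + 1)) ℚ)) (twist D)) 0)
  · intro h n M _ _ _ K hodd
    exact (layer hD n M K hodd).2 h

theorem adm_mul {D : ℤ} (hD : Adm D) {p : ℕ} (hp : SplitInert p) (hpD : ¬ (p : ℤ) ∣ D) :
    Adm (D * p) := by
  obtain ⟨h1, h2⟩ := (adm_iff D).1 hD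
  have hpn : p ∉ D.natAbs.primeFactors := fun h =>
    hpD (Int.natCast_dvd.2 (Nat.dvd_of_mem_primeFactors h))
  refine (adm_iff _).2 ⟨Q283.TW.admD_mul h1 hp.1 hpn, fun q hq hd => ?_⟩
  rcases (Nat.prime_iff_prime_int.1 hq).dvd_or_dvd hd with h | h
  · exact h2 q hq h
  · have h3 : q ∣ p := by exact_mod_cast h
    rw [(Nat.prime_dvd_prime_iff_eq hq hp.1.1).1 h3]
    exact hp.2

/-- **Main theorem.** -/
theorem result (D : ℤ) (hD : Adm D) :
    0 < prop D ∧
    Tendsto (fun X : ℕ =>
        (((Finset.range (X + 1)).filter fun p => SplitInert p ∧ ¬ (p : ℤ) ∣ D ∧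
          AllLayers (D * p)).card : ℝ) /
        (((Finset.range (X + 1)).filter fun p => SplitInert p).card : ℝ)) atTop
      (𝓝 (prop D)) ∧
    ∀ p : ℕ, SplitInert p → ¬ (p : ℤ) ∣ D → ¬ AllLayers (D * p) →
      ∀ (n : ℕ) (M : Type) [Field M] [NumberField M] [IsCyclotomicExtension {3 ^ (n + 1)} ℚ M]
        (K : IntermediateField ℚ M), Odd (Module.finrank ℚ K) → ¬ Small K (D * p) := by
  have hA := ((adm_iff D).1 hD).1
  have hD0 : D ≠ 0 := hA.1.ne_zero
  have hc : prop D = Q283.TW.prop (Pool.Agent.Y687.MQ.matD D) := by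
    unfold prop Q283.TW.prop
    rw [r_eq hD]
    have : Fintype.card (Pool.Agent.Y687.MQ.SP D) = (S D).card := Fintype.card_coe _
    rw [this]
    rfl
  have hpf : ∀ p : ℕ, SplitInert p → ((¬ (p : ℤ) ∣ D) ↔ p ∉ D.natAbs.primeFactors) := by
    intro p hp
    rw [Nat.mem_primeFactors, Int.natCast_dvd]
    constructor
    · rintro h ⟨-, h2, -⟩
      exact h h2
    · intro h h2
      exact h ⟨hp.1.1, h2, Int.natAbs_ne_zero.2 hD0⟩
  refine ⟨?_, ?_, ?_⟩
  · rw [hc]
    exact Q283.TW.prop_pos _
  · rw [hc]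
    have h := Q283.TV.twist_density9 hA (fun p => ¬ (p : ℤ) ∣ D ∧ AllLayers (D * p)) (by
      intro p hp hpD
      have hp' : SplitInert p := hp
      have hpD' := (hpf p hp').2 hpD
      have h1 := adm_mul hD hp' hpD'
      rw [all_iff h1, r_eq h1]
      exact ⟨fun h => h.2, fun h => ⟨hpD', h⟩⟩)
    refine h.congr fun X => ?_
    congr
  · intro p hp hpD hno n M _ _ _ K hodd hS
    have h1 := adm_mul hD hp hpD
    exact hno ((all_iff h1).2 ((layer h1 n M K hodd).1.1 hS))

end Pool.Agent.Results.MP_e996df_nt.PrimeTwistsAllLayers
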