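import Mathlib
import Pool.Agent.Q197.PropASpace

/-!
# MP_e9a5f2_an: Property (A) does not imply unconditionality

The norm of the example is, for sequences `x` and `θ_n = 1 / √(n + 1)`,

`‖x‖ = sup { (∑_{n ∈ S} |x_n|²)^{1/2} + (1/4) |∑_{n ∈ [M, R) \ S} θ_n x_n| : |S| ≤ M, R ∈ ℕ }`,

and the space is the closed linear span of the unit vectors.  If all coefficients of `z` have
modulus at most one and `|z_i| = 1`, `i ∉ S`, then replacing `(M, S)` by
`(max M (|S| + 1), S ∪ {i})` does not decrease the seminorm: the first term gains at least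
`1 / (2 √(|S| + 1))` and the second one loses at most `(1/4) · 2 / √(|S| + 1)`.  So for
`z = x + 1_{εA}` only the sets `S ⊇ A` matter, and for those the positions and signs on `A` are
irrelevant.  The alternating vectors `∑_{n < L} (-1)^n θ_n e_n` have norm of order `√(log L)`, but
their parts with even indices have norm at least of order `log L`.
-/

set_option autoImplicit false

namespace Pool.Agent.Results.MP_e9a5f2_an.ConditionalPropertyA

open Finset Filter Topology

variable {𝕜 : Type} [RCLike 𝕜] {X : Type} [NormedAddCommGroup X] [NormedSpace 𝕜 X]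

/-- `e` is a semi-normalized Markushevich basis of `X` with biorthogonal functionals `f`. -/
structure IsBasis (e : ℕ → X) (f : ℕ → StrongDual 𝕜 X) : Prop where
  biorthogonal : ∀ n j, f n (e j) = if n = j then 1 else 0
  fundamental : closure (Submodule.span 𝕜 (Set.range e) : Set X) = Set.univ
  total : ∀ x, (∀ n, f n x = 0) → x = 0
  bounded : ∃ C : ℝ, ∀ n, ‖e n‖ ≤ C ∧ ‖f n‖ ≤ C

/-- Property (A), symmetry for largest coefficients. -/
def PropertyA (e : ℕ → X) (f : ℕ → StrongDual 𝕜 X) : Prop :=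
  ∀ (x : X) (A B : Finset ℕ) (ε η : ℕ → 𝕜), (∀ n, ‖f n x‖ ≤ 1) → A.card = B.card → Disjoint A B →
    (∀ n ∈ A ∪ B, f n x = 0) → (∀ n ∈ A, ‖ε n‖ = 1) → (∀ n ∈ B, ‖η n‖ = 1) →
    ‖x + ∑ n ∈ A, ε n • e n‖ = ‖x + ∑ n ∈ B, η n • e n‖

/-- The basis is unconditional: the expansion of every vector converges unconditionally to it. -/
def Unconditional (e : ℕ → X) (f : ℕ → StrongDual 𝕜 X) : Prop :=
  ∀ x, HasSum (fun n => f n x • e n) x

/-- **Property (A) does not imply unconditionality.**  Over `𝕜 = ℝ` and `𝕜 = ℂ` there is a Banach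
space with a basis with Property (A) which is not unconditional.  Moreover all basis vectors and
all coordinate functionals have norm one, and the expansions converge in the order of the indices,
with partial sum projections of norm at most one (a normalized monotone Schauder basis). -/
theorem result (𝕜 : Type) [RCLike 𝕜] :
    ∃ (X : Type) (_ : NormedAddCommGroup X) (_ : NormedSpace 𝕜 X) (_ : CompleteSpace X)
      (e : ℕ → X) (f : ℕ → StrongDual 𝕜 X),
      IsBasis e f ∧ PropertyA e f ∧ ¬ Unconditional e f ∧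
        (∀ n, ‖e n‖ = 1 ∧ ‖f n‖ = 1) ∧
        (∀ x, Tendsto (fun N => ∑ n ∈ range N, f n x • e n) atTop (𝓝 x)) ∧
        (∀ x N, ‖∑ n ∈ range N, f n x • e n‖ ≤ ‖x‖) := by
  refine ⟨Q197.PropASpace.Xs 𝕜, inferInstance, inferInstance, inferInstance,
    Q197.PropASpace.e 𝕜, Q197.PropASpace.f 𝕜, ⟨Q197.PropASpace.f_e, Q197.PropASpace.dense,
      Q197.PropASpace.total, 1, fun n => ⟨(Q197.PropASpace.e_norm n).le,
        (Q197.PropASpace.f_norm n).le⟩⟩, ?_, Q197.PropASpace.not_unconditional,
    fun n => ⟨Q197.PropASpace.e_norm n, Q197.PropASpace.f_norm n⟩,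
    Q197.PropASpace.tendsto_partial, fun x N => ?_⟩
  · intro x A B ε η hx hc hd hAB hε hη
    exact Q197.PropASpace.propertyA x A B ε η hx hc hd hAB hε hη
  · have h1 : ((∑ n ∈ range N, Q197.PropASpace.f 𝕜 n x • Q197.PropASpace.e 𝕜 n :
        Q197.PropASpace.Xs 𝕜) : Q197.PropASpace.V 𝕜) =
        Q197.PropASpace.Tr N (x : Q197.PropASpace.V 𝕜) := by
      rw [Q197.PropASpace.coe_sum_smul, Q197.PropASpace.Tr_eq_sum]
      rfl
    change ‖((∑ n ∈ range N, Q197.PropASpace.f 𝕜 n x • Q197.PropASpace.e 𝕜 n :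
        Q197.PropASpace.Xs 𝕜) : Q197.PropASpace.V 𝕜)‖ ≤ ‖(x : Q197.PropASpace.V 𝕜)‖
    rw [h1]
    exact Q197.PropASpace.Tr_norm_le N _

end Pool.Agent.Results.MP_e9a5f2_an.ConditionalPropertyA
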