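import Pool.Agent.Q59.CC.Main
import Pool.Agent.Q59.LI.Pairs

/-!
# The variational Hodge conjecture for families of cyclic covers of arbitrary varieties

For `j ∈ J` (a finite set) let `Y_j` be an arbitrary smooth projective complex variety, `L_j` a
sufficiently ample line bundle on `Y_j`, `q j` a prime number, or `4`, or `1`, and `U_j` the space of
the equations of the smooth members of the linear system of `L_j ^ (q j)`. Over `U_j` we have the
family of these divisors `D_j`, and, for `q j > 1`, the family of the cyclic covers `X_j → Y_j` of degree
`q j` with the branch divisor `D_j`. We write `X_j = D_j` for `q j = 1`. Let `Z → B` be an arbitrary smooth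
projective family, and `S` the product of `B` and the `U_j`. We study the products over `S` of `Z` and of
arbitrary powers of the `Y_j` and `X_j`. (Several `q j` may also be used for the same divisor, but not both
`2` and `4`.)

**Cohomology.** Let `n = dim Y_j`. For a character `a ≠ 0` of the covering group the eigenspace `V_(j, a)`
in the cohomology of `X_j` is concentrated in the degree `n`, and has the dimension
`(-1) ^ n (e (Y_j) - e (D_j))`, since `Y_j - D_j` is affine; the rest of the cohomology is the cohomology
of `Y_j`. For the divisor (`q j = 1`) `V_(j, 0)` is the vanishing cohomology, in the degree `n - 1`; by the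
theorems of Lefschetz the rest of the cohomology comes from `Y_j` (up to powers of the hyperplane class).
Let `N` be a common multiple of the `q j`, and write `a` as a residue modulo `N`, killed by `q j`. A
component of the cohomology of the product is the tensor product of `s` of the spaces `V_i`,
`i ∈ Label`, with a part `W` of the cohomology of the product of `Z` and powers of the `Y_j`.

**Monodromy.** Let `D` be the group of the linear maps which preserve all `V_i` and the
pairings, and have the determinant one on `V_i` unless the pairing is an alternating form on `V_i`: a
product of special linear groups, for the pairs `(j, ± a)`, `2 a ≠ 0`, and of symplectic and special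
orthogonal groups for `2 a = 0` (in the first case the sign of the pairing of `V_i` and `V_(star i)` does
not matter, and can be chosen such that the pairing is alternating). `D` is the identity component of
the Zariski closure of the monodromy group of the family of the `(X_j)`: the discriminants are
irreducible, the local monodromy on `V_(j, a)` is a complex reflection with the nontrivial eigenvalue
`± exp (2 π i a / N)` or a transvection, the vanishing cycles generate `V_(j, a)`, and the group is
infinite since `L_j` is sufficiently ample (Carlson and Toledo, Discriminant complements and kernels of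
monodromy representations; Deligne, La conjecture de Weil II, for `2 a = 0`); different labels are
independent since the eigenvalues of the reflections are different (Goursat, Kolchin, Ribet). So a
flat class is fixed by `D`. It is also fixed by the local monodromy at the discriminant of `D_j`, which
for an orthogonal label `i = (j, a)` is a reflection of `V_i`, and is the identity on the `V_k` for the
other divisors (`IsReflection`; for one divisor only one of the spaces is orthogonal). Finally it
is fixed by the fundamental group of `B`, which acts on `W` by operators `ρ γ`. This is `IsFlat`.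

**Hodge type.** The fixed point formula of Atiyah and Singer for the `χ_y` genus and its derivative at
`y = -1` gives, for every `Y_j` and every smooth `D_j`,
`∑ (n - r) h ^ (r, n - r) = n dim V / 2 + (-1) ^ (n - 1) e (D_j) (a / N - 1 / 2)`, `0 < a < N`, for the Hodge
numbers of `V = V_(j, a)`, for one of the two identifications of the characters with residues. So the
determinant of `V_(j, a)` has, at the embedding given by a unit `t`, the Hodge number (minus half the
weight) `excess t (j, a)`, where `euler j` is `(-1) ^ (n - 1) e (D_j)`. Let `K` be the field of the `N`-th
roots of unity, and for a unit `t` modulo `N` and a number `r` let `F t r` be the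
span in `W` of the classes with coefficients in `K` whose conjugates by the automorphism of `K`
given by `t` are of type `(., r)`. Then the flat classes which are Hodge classes (with coefficients in
`ℂ`) satisfy `HodgeType F c`, `2 c` the weight of `W`, since on the invariants of `D` the Hodge
operator on `V_i` can be replaced by its average eigenvalue.

**The theorem.** Let `x` be flat and of Hodge type, let the covers of degree at least three have
different degrees and branch divisors with nonzero Euler characteristics (which holds for
sufficiently ample `L_j`), and let `A` be a subspace of `W` which contains all contractions of `x` with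
products of pairings. Then `x` is a combination of products of pairings with elements `z` of `A` which
are flat and of type `(c, c)`.

If `x` is algebraic at the point `0`, its contractions with the pairings are algebraic, since the
pairings are (combinations of graphs of covering automorphisms, and of the diagonal of `D_j`
and classes on `Y_j × Y_j`). So `A` can be taken as the space spanned by the algebraic classes at the point
`0`. If the variational Hodge conjecture holds for the products of `Z` and powers of the `Y_j` over
`B`, the `z` are algebraic at all points, and therefore `x` is. Hence: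

**The variational Hodge conjecture for the families `Z × ∏ Y_j ^ (m_j)` over `B` (without CM parts,
`NoCM`) implies it for the families `Z × ∏ Y_j ^ (m_j) × ∏ X_j ^ (n_j)` over `S`. It holds for these families
if `Z` is constant, `Z` and the `Y_j` arbitrary varieties without CM parts.** There is no condition on
the dimensions.
-/

namespace Pool.Agent.Results.MP_e9c0f3_ag.CyclicCoversFamilies

open Pool.Agent.Q59.LS Pool.Agent.Q59.LI Pool.Agent.Q59.CC

section

variable {J : Type} [Fintype J] [DecidableEq J] {C : Covers J} {N : ℕ} [NeZero N]
  {W : Type} [AddCommGroup W] [Module ℂ W]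

/-- The flat classes: tensors with values in `W` which are invariant under `D` and under a
reflection of every orthogonal `V_i`, and whose values are fixed by the monodromy operators `ρ γ`. -/
structure IsFlat (ε : Letter (spaces N C) → ℂ) {Γ : Type} (ρ : Γ → W →ₗ[ℂ] W) {s : ℕ}
    (x : (Fin s → Letter (spaces N C)) → W) : Prop where
  inv : ∀ g, InD ε g → actW g x = x
  refl : ∀ i, (spaces N C).orth i = true → 0 < (spaces N C).dim i →
    ∃ g, IsReflection ε i g ∧ actW g x = x
  fixed : ∀ γ w, ρ γ (x w) = x w

/-- For each embedding (given by the unit `t`) `x` has the total type `(c, c)`; the family `F`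
describes the types in `W`. -/
def HodgeType (F : (ZMod N)ˣ → ℚ → Submodule ℂ W) (c : ℚ) {s : ℕ}
    (x : (Fin s → Letter (spaces N C)) → W) : Prop :=
  ∀ (t : (ZMod N)ˣ) (w : Fin s → Letter (spaces N C)),
    x w ∈ F t (c - ∑ k, excess (t : ZMod N) (w k).1 / (spaces N C).dim (w k).1)

/-- All contractions of `x` with products of pairings are in `A`. -/
def ContractsInto (ε : Letter (spaces N C) → ℂ) (A : Submodule ℂ W)
    {s : ℕ} (x : (Fin s → Letter (spaces N C)) → W) : Prop :=
  ∀ (p : ℕ) (ν : Fin p → Label N C) (e : Fin p × Fin 2 ≃ Fin s), contract (pairsOf ε ν e) x ∈ A

end

/-- **The variational Hodge conjecture for families of cyclic covers of arbitrary varieties.** -/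
theorem result (J : Type) [Fintype J] [DecidableEq J] (C : Covers J) (hC : Separate C)
    (N : ℕ) [NeZero N] (ε : Letter (spaces N C) → ℂ)
    (hε : ∀ x, ¬ (spaces N C).orth x.1 = true → ε (dual x) = -ε x) (hε1 : ∀ x, ε x = 1 ∨ ε x = -1)
    (W : Type) [AddCommGroup W] [Module ℂ W] (Γ : Type) (ρ : Γ → W →ₗ[ℂ] W)
    (F : (ZMod N)ˣ → ℚ → Submodule ℂ W) (hF : NoCM F) (c : ℚ) (s : ℕ)
    (x : (Fin s → Letter (spaces N C)) → W) (hx : IsFlat ε ρ x) (ht : HodgeType F c x)
    (A : Submodule ℂ W) (hA : ContractsInto ε A x) :
    x ∈ spanP (fun z => z ∈ A ∧ (∀ γ, ρ γ z = z) ∧ ∀ t : (ZMod N)ˣ, z ∈ F t c) ε (Fin s) := by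
  have hε0 : ∀ x, ε x ≠ 0 := fun x => by
    rcases hε1 x with h | h <;> rw [h] <;> norm_num
  have hre : ∀ x, (starRingEnd ℂ) (ε x) = ε x := fun x => by
    rcases hε1 x with h | h <;> rw [h] <;> simp
  let E : Submodule ℂ W := ⨅ γ, LinearMap.ker (ρ γ - LinearMap.id)
  have hE : ∀ z, z ∈ E ↔ ∀ γ, ρ γ z = z := fun z => by
    rw [Submodule.mem_iInf]
    refine forall_congr' fun γ => ?_
    rw [LinearMap.mem_ker, LinearMap.sub_apply, LinearMap.id_apply, sub_eq_zero]
  have hxE : ∀ w, x w ∈ E := fun w => (hE _).mpr fun γ => hx.fixed γ w
  let B : Submodule ℂ W := ⨅ t : (ZMod N)ˣ, F t c
  have hB : ∀ z, z ∈ B ↔ ∀ t : (ZMod N)ˣ, z ∈ F t c := fun z => Submodule.mem_iInf _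
  have hmem : x ∈ spanZ (fun (l : ℕ) (μ : Fin l → Label N C) z =>
      z ∈ B ∧ (Reduced (spaces N C) μ ∧ ∀ k, (spaces N C).orth (μ k) = true)) ε (Fin s) :=
    spanZ_mono (fun _ _ _ h => ⟨(hB _).mpr h.1, h.2⟩)
      (core_separate (N := N) hC hε hε0 hF ⟨hx.inv, ht⟩)
  have h1 := pairs_coords hre (no_dets hmem hx.refl) hA hxE
  refine (Submodule.span_mono ?_ : spanP _ ε (Fin s) ≤ _) h1
  rintro y ⟨p, ν, e, z, hz, rfl⟩
  exact ⟨p, ν, e, z, ⟨hz.1, (hE _).mp hz.2.2, (hB _).mp hz.2.1⟩, rfl⟩

end Pool.Agent.Results.MP_e9c0f3_ag.CyclicCoversFamilies
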