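import Pool.Agent.Q57.SP.VFin

/-!
# An index law for the variational Hodge conjecture

Let `S` be a smooth connected complex variety, `X` a smooth projective family over `S` and `X_0` the fibre
over a point `0`. We consider the fibre powers `X^n` over `S`. A class on `X_0^n` is a flat algebraic class if
it is a linear combination of classes of algebraic cycles on `X_0^n` and is fixed by a subgroup of finite
index of the fundamental group of `S` (that is, it extends to a global section over a finite étale covering
of `S`). The variational Hodge conjecture says that it then is the specialization of a linear combination of
cycles on the geometric generic fibre of `X^n`. We prove unconditionally, for all families and all points: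

* the quotient of the dimension of the space of the flat algebraic classes on `X_0^n` and of the rank of the
  group of the algebraic cycles on the geometric generic fibre of `X^n` modulo numerical equivalence tends to
  an element `N ≥ 1` of `ℕ ∪ {∞}`; `N = 1` if and only if for all `n` the variational Hodge conjecture holds
  for `X^n` at `0` and homological and numerical equivalence agree on the generic fibre of `X^n`. So if the
  variational Hodge conjecture fails for one power, at most half of the flat algebraic classes come from
  cycles on the generic fibre, asymptotically;
* if `N` is finite then homological and numerical equivalence agree on the powers of the generic fibre, the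
  variational Hodge conjecture for all powers is equivalent to `N = 1`, and all flat algebraic classes on all
  powers of `X_0` are generated by the specializations of cycles of the generic fibre and `N - 1` others;
* the same quotient for all algebraic classes on `X_0^n` tends to some `N' ≥ N`, and if `N'` is finite then ALL
  algebraic classes on all powers of `X_0` are flat, and `N' = N`.

So if one power of `X_0` has an algebraic class which is not flat, then the specializations of cycles on the
generic fibre have asymptotic proportion zero among the algebraic classes on the powers of `X_0`.

The theorem is proved for a Weil cohomology theory `W` on an arbitrary class of smooth projective varieties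
which is stable under products (the generic fibres of families over finite étale coverings of `S`), with an
action of a group `Γ` which has the formal properties of the monodromy action, and a specialization to
another class of varieties (the complex varieties).
-/

open CategoryTheory AlgebraicGeometry

universe u v u₀ v₀ w

namespace Pool.Agent.Results.MP_e9c0f3_ag.IndexLaw

open Pool.Agent.H914 Pool.Agent.H914.WeilCohomology
open Pool.Agent.Y133.Half (pw HasIndex algDim cycRank dimBy GeneratedOver)
open Pool.Agent.Q55 (GaloisAction)
open Pool.Agent.Q57.SP

variable {k : Type u} [Field k] {𝒱 : VarClass k} {ops : CycleOps 𝒱}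
  {k₀ : Type u₀} [Field k₀] {𝒱₀ : VarClass k₀} {ops₀ : CycleOps 𝒱₀}
  {W : WeilCohomology.{u, v} ops} {W₀ : WeilCohomology.{u₀, v₀} ops₀}

/-- **The index law for the variational Hodge conjecture.** `pw X n` is the product of `n + 1` copies of
`X`, and `S.o` is the special fibre. -/
theorem result (S : Specialization W W₀) {Γ : Type w} [Group Γ] (G : GaloisAction W Γ)
    (hχ : ∀ g, G.χ g = 1) (X : 𝒱.Obj) [Nontrivial (W.H X)] :
    ∃ N N' : ℕ∞, 1 ≤ N ∧ N ≤ N' ∧
      HasIndex (fun n => dimBy W (IsFlatAlg S G) (pw X n)) (fun n => cycRank ops (pw X n)) N ∧
      HasIndex (fun n => algDim W₀ (S.o (pw X n))) (fun n => cycRank ops (pw X n)) N' ∧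
      (N = 1 ↔ ∀ n, VHC S G (pw X n) ∧ HomEqNum W (pw X n)) ∧
      (N ≠ ⊤ → (∀ n, HomEqNum W (pw X n)) ∧ (N = 1 ↔ ∀ n, VHC S G (pw X n)) ∧
        GeneratedOver W (fun Z j c => c ∈ spanCycles W Z j) (IsFlatAlg S G) X N) ∧
      (N' ≠ ⊤ → N' = N ∧ ∀ n j c, IsAlgOn S (pw X n) j c → IsFlat G (pw X n) c) :=
  vhc_law S G hχ X

end Pool.Agent.Results.MP_e9c0f3_ag.IndexLaw
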