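import Mathlib
import Pool.Agent.Q98.LU3

set_option autoImplicit false

open Filter Topology

namespace Pool.Agent.Results.MP_ea77cd_an.MBasisWithoutLUR

section Defs

variable {𝕜 : Type} [RCLike 𝕜] {E : Type} [NormedAddCommGroup E] [NormedSpace 𝕜 E]

/-- `(x i, f i)` is an extended `M`-basis (Markushevich basis) of `E`: the system is biorthogonal,
the closed linear span of the `x i` is `E`, and the `f i` are total. -/
def IsExtendedMBasis {I : Type} (x : I → E) (f : I → (E →L[𝕜] 𝕜)) : Prop :=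
  ((∀ i, f i (x i) = 1) ∧ ∀ i j, i ≠ j → f i (x j) = 0) ∧
    (Submodule.span 𝕜 (Set.range x)).topologicalClosure = ⊤ ∧
    ∀ v, (∀ i, f i v = 0) → v = 0

/-- The norm `N` is equivalent to the given norm of `E`. -/
def IsEquivalentNorm (N : Seminorm 𝕜 E) : Prop :=
  ∃ a b : ℝ, 0 < a ∧ ∀ v, a * ‖v‖ ≤ N v ∧ N v ≤ b * ‖v‖

/-- The norm `N` is locally uniformly convex. -/
def IsLUR (N : Seminorm 𝕜 E) : Prop :=
  ∀ (x : E) (u : ℕ → E), N x = 1 → (∀ n, N (u n) = 1) →
    Tendsto (fun n => N (u n + x)) atTop (𝓝 2) → Tendsto (fun n => N (u n - x)) atTop (𝓝 0)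

end Defs

/-- **There is a Banach space (over the real and over the complex field) with an extended `M`-basis
on which no equivalent norm is locally uniformly convex.** -/
theorem result (𝕜 : Type) [RCLike 𝕜] :
    ∃ (E : Type) (_ : NormedAddCommGroup E) (_ : NormedSpace 𝕜 E) (_ : CompleteSpace E),
      (∃ (I : Type) (x : I → E) (f : I → (E →L[𝕜] 𝕜)), IsExtendedMBasis x f) ∧
      ∀ N : Seminorm 𝕜 E, IsEquivalentNorm N → ¬ IsLUR N := by
  classical
  refine ⟨Q98.LU.E 𝕜, inferInstance, inferInstance, inferInstance,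
    ⟨Q98.LU.Idx 𝕜, Q98.LU.bx, Q98.LU.bf, ⟨fun i => ?_, fun i j hij => ?_⟩,
      Q98.LU.fundamental, Q98.LU.total⟩, ?_⟩
  · rw [Q98.LU.biorthogonal, if_pos rfl]
  · rw [Q98.LU.biorthogonal, if_neg hij]
  · rintro N ⟨a, b, ha, hN⟩ hL
    obtain ⟨w, u, hw, hu, h2, h0⟩ := Q98.LU.no_LUR N ha hN
    exact h0 (hL w u hw hu h2)

end Pool.Agent.Results.MP_ea77cd_an.MBasisWithoutLUR
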