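import Pool.Agent.Q41.PT.PMain

set_option autoImplicit false

/-!
# How often the linear patterns of the parity of p(n) take each value (MP_ebc808_nt)

For all `L` and `b` there is a `δ > 0` such that for every nonzero vector `c_0, …, c_L` over `F_2`,
every `κ` in `F_2` and every residue `ρ` modulo `2 ^ b` the number of the `n ≤ x`, `n ≡ ρ` modulo
`2 ^ b`, with `∑ c_i p (n + i) = κ` in `F_2` is at least `√x / (log x) ^ (1 - δ)` for all large `x`.

Method. Let `3 m + 1 = 4 ^ r`, so that the generating function of `p (n)`, multiplied by the pentagonal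
series in `q ^ (4 ^ r)`, has as its coefficients those of the power `D ^ m` of the discriminant modulo 2.
By the theory of Nicolas and Serre modulo 2 (starting files `H307R2/OP`) these coefficients are odd at
the products of exactly `2 ^ (r - 1) - 1` primes congruent to 5 modulo 8, and they are even at the
numbers exactly divisible by the power `ℓ ^ (2 ^ r - 1)` of a prime `ℓ ≡ 3` modulo 8. By the Chinese
remainder theorem, for one fixed set of such primes `ℓ` (one for each unwanted shift) and a modulus
exponential in `2 ^ r`, the first fact applies to one shift and the second to all the others. Here `2 ^ r` is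
as large as a small constant times `log log x`. The products of `2 ^ (r - 1) - 1` primes in this residue
class are counted with the theorem of Siegel and Walfisz for the largest prime and Mertens bounds in
dyadic blocks for the others; their number is `x (log x) ^ (3 δ - 1)`. Each of these numbers comes from
a solution by a pentagonal number. The value `κ = 0` follows from the pattern multiplied by
`1 + q ^ (2 ^ b)`.
-/

namespace Pool.Agent.Results.MP_ebc808_nt.PatternPowerSaving

open Pool.Agent.Q41.PT

theorem result (L b : ℕ) :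
    ∃ δ : ℝ, 0 < δ ∧ ∀ c : Fin (L + 1) → ZMod 2, c ≠ 0 → ∀ (κ : ZMod 2) (ρ : ℕ),
      ∃ x₀ : ℕ, ∀ x : ℕ, x₀ ≤ x →
        Real.sqrt x / Real.log x ^ (1 - δ) ≤
          (((Finset.range (x + 1)).filter fun n => n % 2 ^ b = ρ % 2 ^ b ∧
            ∑ i : Fin (L + 1), c i * (Fintype.card (Nat.Partition (n + i)) : ZMod 2) = κ).card : ℝ) := by
  classical
  obtain ⟨δ, h0, -, h⟩ := pow_main L b
  refine ⟨δ, h0, fun c hc κ ρ => ?_⟩
  obtain ⟨i0, hi0⟩ : ∃ i, c i ≠ 0 := by
    by_contra h
    push Not at h
    exact hc (funext h)
  set c' : ℕ → ℕ → ZMod 2 := fun _ i => if hi : i < L + 1 then c ⟨i, hi⟩ else 0 with hc'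
  have key : ∀ i : Fin (L + 1), c' 1 i = c i := by
    intro i
    simp only [hc']
    rw [dif_pos i.2]
  have hpat : ∀ n, pat {1} L c' n =
      ∑ i : Fin (L + 1), c i * (Fintype.card (Nat.Partition (n + i)) : ZMod 2) := by
    intro n
    unfold pat
    rw [Finset.sum_singleton, ← Fin.sum_univ_eq_sum_range
      (fun i => c' 1 i * (Pool.Agent.H413R3.Part.mp 1 (n + i) : ZMod 2)) (L + 1)]
    refine Finset.sum_congr rfl fun i _ => ?_
    rw [key, Pool.Agent.H413R3.Part.mp_one]
  obtain ⟨x1, hx1⟩ := h c' ⟨i0, by have := i0.2; omega, by rw [key]; exact hi0⟩ κ ρ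
  obtain ⟨x2, hx2⟩ := Filter.eventually_atTop.1 (log_tend.eventually_ge_atTop 1)
  refine ⟨max x1 x2, fun x hx => ?_⟩
  have hl : 1 ≤ Real.log (x : ℝ) := hx2 x ((le_max_right _ _).trans hx)
  have h1 := hx1 x ((le_max_left _ _).trans hx)
  have h2 : Real.sqrt (x : ℝ) / Real.log x ^ (1 - δ) =
      Real.sqrt x * Real.exp ((δ - 1) * Real.log (Real.log x)) := by
    rw [div_eq_mul_inv, ← Real.rpow_neg (by linarith), Real.rpow_def_of_pos (by linarith)]
    congr 2
    ring
  rw [h2]
  refine h1.trans (le_of_eq ?_)
  congr 2
  unfold good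
  refine Finset.filter_congr fun n _ => ?_
  rw [hpat]

end Pool.Agent.Results.MP_ebc808_nt.PatternPowerSaving
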