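import Pool.Agent.Q197.PS.D

/-! # The parity of the partition function in random unions of residue classes

`p(n)` is even for half of the `n` in every residue class as soon as, for arbitrarily divisible `P`,
this is true in a proportion `K / √P` (any `K`) of the `2 ^ P` unions of residue classes modulo `P`.
If the proportion of the `n ≤ N` with `p(n)` even differs by at least `c` from `1 / 2` for infinitely
many `N`, then for every `P` at most a proportion `(10 + 27 / c) / √P` of the unions of classes
modulo `P` contain `n` with `p(n)` even with relative density `1 / 2`. Unconditionally, for all but a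
proportion `1 / t ^ 2` of the unions the excess of even values in the union is half the excess of
even values among all `n ≤ N`, up to `t N / √P`. -/

set_option autoImplicit false

open Finset Filter Topology

namespace Pool.Agent.Results.MP_ebc808_nt.UnionsOfClasses

open Classical in
/-- The number of the `1 ≤ n ≤ N` whose residue modulo `P` is in `A` for which the number of
partitions of `n` is even. -/
noncomputable def evens (P : ℕ) (A : Finset ℕ) (N : ℕ) : ℕ :=
  ((Icc 1 N).filter (fun n => n % P ∈ A ∧ Even (Fintype.card (Nat.Partition n)))).card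

open Classical in
/-- The number of the `1 ≤ n ≤ N` whose residue modulo `P` is in `A` for which the number of
partitions of `n` is odd. -/
noncomputable def odds (P : ℕ) (A : Finset ℕ) (N : ℕ) : ℕ :=
  ((Icc 1 N).filter (fun n => n % P ∈ A ∧ ¬ Even (Fintype.card (Nat.Partition n)))).card

/-- The proportion of the `n` in the union of the classes of `A` modulo `P` with `p(n)` even is
asymptotically `1 / 2`. -/
def Half (P : ℕ) (A : Finset ℕ) : Prop :=
  Tendsto (fun N : ℕ => (evens P A N : ℝ) / N) atTop (𝓝 ((A.card : ℝ) / (2 * P)))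

open Classical in
/-- The number of the sets `A` of residues modulo `P` with this property. -/
noncomputable def good (P : ℕ) : ℕ := ((range P).powerset.filter (fun A => Half P A)).card

lemma evens_eq (P : ℕ) (A : Finset ℕ) (N : ℕ) : (evens P A N : ℝ) / N =
    Q197.PS.densA (fun n => Even (Fintype.card (Nat.Partition n))) P A N := by
  unfold evens Q197.PS.densA
  refine congrArg (fun s : Finset ℕ => (s.card : ℝ) / N) ?_
  ext n
  simp only [mem_filter]

lemma odds_eq (P : ℕ) (A : Finset ℕ) (N : ℕ) : (odds P A N : ℝ) / N =
    Q197.PS.densA (fun n => ¬ Even (Fintype.card (Nat.Partition n))) P A N := by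
  unfold odds Q197.PS.densA
  refine congrArg (fun s : Finset ℕ => (s.card : ℝ) / N) ?_
  ext n
  simp only [mem_filter]

lemma half_eq (P : ℕ) (A : Finset ℕ) :
    Half P A ↔ Q197.PS.Half (fun n => Even (Fintype.card (Nat.Partition n))) P A := by
  unfold Half Q197.PS.Half
  simp only [evens_eq]

lemma good_eq (P : ℕ) :
    good P = Q197.PS.nHalf (fun n => Even (Fintype.card (Nat.Partition n))) P := by
  classical
  unfold good Q197.PS.nHalf
  simp only [half_eq]

open Classical in
theorem result :
    ((∀ q : ℕ, 0 < q → ∀ a < q, Half q {a}) ↔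
      ∀ q : ℕ, 0 < q → ∀ K : ℝ, ∃ P : ℕ, 0 < P ∧ q ∣ P ∧ K * 2 ^ P / √P ≤ good P) ∧
    (∀ c : ℝ, 0 < c → (∃ᶠ N : ℕ in atTop, c ≤ |(evens 1 {0} N : ℝ) / N - 1 / 2|) →
      ∀ P : ℕ, 0 < P → (good P : ℝ) ≤ (10 + 27 / c) * 2 ^ P / √P) ∧
    (∀ P N : ℕ, 0 < P → P ≤ N → ∀ t : ℝ, 0 < t →
      (((range P).powerset.filter (fun A =>
        t / √P ≤ |((evens P A N : ℝ) / N - (odds P A N : ℝ) / N) -
          ((evens 1 {0} N : ℝ) / N - (odds 1 {0} N : ℝ) / N) / 2|)).card : ℝ) ≤ 2 ^ P / t ^ 2) := by
  have h := Q197.PS.half_main (fun n => Even (Fintype.card (Nat.Partition n)))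
  simp only [half_eq, good_eq, evens_eq, odds_eq]
  exact h

end Pool.Agent.Results.MP_ebc808_nt.UnionsOfClasses
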