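import Pool.Agent.H159.LS.Ideal

/-! MP_ec2393_nt: any two linearly independent elements of the linearised double shuffle Lie algebra
generate a free Lie algebra of rank two; depths of brackets in `dm` add up unless the leading parts
are proportional; subideals of `dm` are not finitely generated. -/

set_option autoImplicit false

namespace Pool.Agent.Results.MP_ec2393_nt.LinearizedFreeness

open Pool.Agent.H777R4.DM Pool.Agent.H159.LS

attribute [local instance 100] LieRing.ofAssociativeRing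

/-- `ψ₁` and `ψ₂` generate, under the Ihara bracket, a free Lie algebra of rank two: there is an
injective linear map `φ` on `ℚ⟨x₀, x₁⟩` with `φ x₀ = ψ₁`, `φ x₁ = ψ₂` that carries the bracket
`[P, Q] = PQ - QP` of the free Lie algebra `Lie[x₀, x₁]` to the Ihara bracket. -/
def GenerateFree (ψ₁ ψ₂ : A) : Prop :=
  ∃ φ : A →ₗ[ℚ] A, Function.Injective φ ∧ φ (x 0) = ψ₁ ∧ φ (x 1) = ψ₂ ∧
    ∀ P ∈ LieX, ∀ Q ∈ LieX, φ (P * Q - Q * P) = ihara (φ P) (φ Q)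

/-- `M` consists of elements of `dm`, or it consists of elements satisfying the linearised
relations -/
def Inside (M : Submodule ℚ A) : Prop := (∀ ψ ∈ M, IsDM ψ) ∨ ∀ ψ ∈ M, IsLS ψ

/-- the Lie algebra generated by `G` under the Ihara bracket: the smallest subspace which contains
`G` and is closed under the bracket -/
noncomputable def gen (G : Finset A) : Submodule ℚ A :=
  sInf {V | (G : Set A) ⊆ V ∧ ∀ a ∈ V, ∀ b ∈ V, ihara a b ∈ V}

/-- `C 0 ≤ C 1 ≤ … ≤ C n = M` and the bracket of an element of `C (i + 1)` with an element of `C i`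
is in `C i`, for all `i < n` -/
structure IsChain (n : ℕ) (C : ℕ → Submodule ℚ A) (M : Submodule ℚ A) : Prop where
  last : C n = M
  mono : ∀ i < n, C i ≤ C (i + 1)
  lie : ∀ i < n, ∀ φ ∈ C (i + 1), ∀ ψ ∈ C i, ihara φ ψ ∈ C i

theorem result :
    -- (1) the linearised double shuffle Lie algebra
    (∀ ψ₁ ψ₂ : A, IsLS ψ₁ → IsLS ψ₂ → LinearIndependent ℚ ![ψ₁, ψ₂] → GenerateFree ψ₁ ψ₂) ∧
    -- (2) leading parts of elements of `dm`
    (∀ (ψ₁ ψ₂ : A) (r₁ r₂ : ℕ), IsDM ψ₁ → IsDM ψ₂ → ψ₁ ∈ D r₁ → ψ₂ ∈ D r₂ →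
      IsLS (dpart r₁ ψ₁) ∧
      (LinearIndependent ℚ ![dpart r₁ ψ₁, dpart r₂ ψ₂] → GenerateFree (dpart r₁ ψ₁) (dpart r₂ ψ₂) ∧
        ihara ψ₁ ψ₂ ∈ D (r₁ + r₂) ∧
        dpart (r₁ + r₂) (ihara ψ₁ ψ₂) = ihara (dpart r₁ ψ₁) (dpart r₂ ψ₂) ∧
        dpart (r₁ + r₂) (ihara ψ₁ ψ₂) ≠ 0)) ∧
    -- (3) subideals
    (∀ (M : Submodule ℚ A) (n : ℕ) (C : ℕ → Submodule ℚ A), Inside M → IsChain n C M →
      ∀ (ψ : A) (r : ℕ), ψ ∈ C 0 → ψ ∈ D r → dpart r ψ ≠ 0 → ∀ k : ℕ,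
        ¬ Module.Finite ℚ (M.map (D k).mkQ) → ¬ Module.Finite ℚ ((C 0).map (D (k + n * r)).mkQ)) ∧
    (∀ (M : Submodule ℚ A) (n : ℕ) (C : ℕ → Submodule ℚ A), Inside M → IsChain n C M → C 0 ≠ ⊥ →
      (∃ k, ¬ Module.Finite ℚ (M.map (D k).mkQ)) →
      ∀ G : Finset A, C 0 ≠ gen G ∧ ¬ C 0 ≤ Submodule.span ℚ G ⊔
        Submodule.span ℚ {c | ∃ a ∈ C 0, ∃ b ∈ C 0, c = ihara a b}) := by
  have hfree : ∀ ψ₁ ψ₂ : A, IsLS ψ₁ → IsLS ψ₂ → LinearIndependent ℚ ![ψ₁, ψ₂] →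
      GenerateFree ψ₁ ψ₂ := fun ψ₁ ψ₂ h₁ h₂ hli =>
    ⟨Phi ψ₁ ψ₂, inj_ls h₁ h₂ (LinearIndependent.pair_iff.mp hli), phi_x0 ψ₁ ψ₂, phi_x1 ψ₁ ψ₂,
      fun P hP Q hQ => phi_lie ψ₁ ψ₂ P Q hP hQ⟩
  have hgood : ∀ {M : Submodule ℚ A}, Inside M → Good M := fun h => h.elim good_dm good_ls
  have hfin : ∀ {V : Type} [AddCommGroup V] [Module ℚ V] (S : Submodule ℚ V),
      Module.Finite ℚ S ↔ S.FG := fun S => Module.Finite.iff_fg
  have h3 : ∀ (M : Submodule ℚ A) (n : ℕ) (C : ℕ → Submodule ℚ A), Inside M → IsChain n C M →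
      ∀ (ψ : A) (r : ℕ), ψ ∈ C 0 → ψ ∈ D r → dpart r ψ ≠ 0 → ∀ k : ℕ,
        ¬ Module.Finite ℚ (M.map (D k).mkQ) →
        ¬ Module.Finite ℚ ((C 0).map (D (k + n * r)).mkQ) := by
    intro M n C hM hC ψ r hψ hr hr0 k hk hcon
    obtain ⟨hl, hm, hb⟩ := hC
    subst hl
    rw [hfin] at hk hcon
    exact hk (chain n C (hgood hM) hψ hr hr0 hm hb k hcon)
  refine ⟨hfree, ?_, h3, ?_⟩
  · intro ψ₁ ψ₂ r₁ r₂ d₁ d₂ hr₁ hr₂
    have l₁ := isLS_lead d₁ hr₁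
    have l₂ := isLS_lead d₂ hr₂
    refine ⟨l₁, fun hli => ⟨hfree _ _ l₁ l₂ hli, ihara_mem_D hr₁ hr₂, dpart_ihara hr₁ hr₂, ?_⟩⟩
    rw [dpart_ihara hr₁ hr₂]
    exact ihara_ne_zero l₁ l₂ (LinearIndependent.pair_iff.mp hli)
  · rintro M n C hM hC h0 ⟨k, hk⟩ G
    suffices key : ¬ C 0 ≤ Submodule.span ℚ G ⊔
        Submodule.span ℚ {c | ∃ a ∈ C 0, ∃ b ∈ C 0, c = ihara a b} by
      refine ⟨fun hg => key ?_, key⟩
      have h1 : (G : Set A) ⊆ C 0 := by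
        rw [hg]
        intro a ha
        exact Submodule.mem_sInf.2 fun V hV => hV.1 ha
      have h2 : ∀ a ∈ C 0, ∀ b ∈ C 0, ihara a b ∈ C 0 := by
        rw [hg]
        intro a ha b hb
        exact Submodule.mem_sInf.2 fun V hV =>
          hV.2 a (Submodule.mem_sInf.1 ha V hV) b (Submodule.mem_sInf.1 hb V hV)
      have h3 : Submodule.span ℚ G ⊔ Submodule.span ℚ {c | ∃ a ∈ C 0, ∃ b ∈ C 0, c = ihara a b} ≤
          C 0 := by
        refine sup_le (Submodule.span_le.2 h1) (Submodule.span_le.2 ?_)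
        rintro _ ⟨a, ha, b, hb, rfl⟩
        exact h2 a ha b hb
      nth_rewrite 1 [hg]
      refine sInf_le ⟨fun a ha => Submodule.mem_sup_left (Submodule.subset_span ha), ?_⟩
      intro a ha b hb
      exact Submodule.mem_sup_right (Submodule.subset_span ⟨a, h3 ha, b, h3 hb, rfl⟩)
    intro hG
    obtain ⟨ψ, hψ, hψ0⟩ := (Submodule.ne_bot_iff _).1 h0
    obtain ⟨r, hr, hr0⟩ := exists_lead hψ0
    refine h3 M n C hM hC ψ r hψ hr hr0 k hk ?_
    rw [hfin]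
    have hle : ∀ m, m ≤ n → C 0 ≤ C m := by
      intro m
      induction m with
      | zero => exact fun _ => le_rfl
      | succ m ihm => exact fun hm => (ihm (by omega)).trans (hC.mono m (by omega))
    have hg : Good (C 0) := by
      have := hgood hM
      rw [← hC.last] at this
      exact this.mono (hle n le_rfl)
    refine fg_of_gen (fun φ hφ => (hg φ hφ).1) (Submodule.fg_span G.finite_toSet) ?_ _
    refine hG.trans (sup_le_sup_left ?_ _)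
    rw [Submodule.span_le]
    rintro _ ⟨a, ha, b, hb, rfl⟩
    exact Submodule.apply_mem_map₂ iharaL ha hb

end Pool.Agent.Results.MP_ec2393_nt.LinearizedFreeness
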