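import Mathlib
import Pool.Agent.Q7.RL.Model
import Pool.Agent.Q7.RL.AMin

/-!
# The Bloch-Kato formula when the order of vanishing is as small as root numbers allow

`E` is an elliptic curve over a number field `K` with an integral equation `W` (`IsModel E W`), and
`M/K` is a Galois extension with group `M ≃ₐ[K] M`, ANY finite group. `Irr G` is the set of irreducible
complex characters of the finite group `G`.

The L-functions are real ones. `Pool.Agent.Q92.RT.twistedL M W φ` is `L(E ⊗ φ, s)` for a class
function `φ` of the Galois group: `exp ∑ φ(Frob_v ^ n) (α_v ^ n + β_v ^ n) / (n q_v ^ (n s))` over `n ≥ 1`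
and the primes `v` of `K` which do not divide `6` and the discriminant of `W` and are unramified in
`M`; the finitely many Euler factors left out have no zeros and poles for `Re s ≥ 1`.
`Orders E W 1 n r`: the order of `L(E ⊗ χ, s)` (of its meromorphic continuation to `ℂ`) at `s = 1` is
`n χ` and that of the complete L-function `L(E/F, s)` is `r F`, for all fields `F` between `K` and `M`
(`⊤` is `M`).

Assumptions, known if `E` is automorphic over `M` (for totally real or CM `K` every `E/K` has such
extensions `M`): `Automorphic M W 1`: `L(E ⊗ χ, s)` has a meromorphic continuation for `χ ∈ Irr`, and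
`L(E/M^H ⊗ ψ, s)` one which is holomorphic at `1` for the linear characters `ψ` of the SOLVABLE
subgroups `H` (solvable descent); for the other subgroups nothing is known. `FunctionalEquations M W`:
the functional equations of the `L(E ⊗ χ, s)` at `s = 1`, with root number `Λ.root χ`, which is `1` for
symplectic characters.

For a complex representation `ρ` of the Galois group on `V`, `Pool.Agent.W446.AS.pr ρ.character χ` is
the multiplicity of `χ` in `V`, and `Pool.Agent.Q7.SZ.rk ρ H` is the dimension of the invariants of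
`H`. For `V = H¹_f(M, V_p E) ⊗ ℂ` (for an embedding of `ℚ_p` in `ℂ`) the multiplicity of `χ` is the
dimension of `H¹_f(K, V_p E ⊗ χ)` (up to replacing `χ` by its complex conjugate, which does not change
the orders of vanishing), `rk ρ H` is the dimension of `H¹_f(M ^ H, V_p E)`, and `H⁰ = 0`. So the
statement that the multiplicities are the orders of vanishing is the formula of Bloch and Kato for all
the motives `h¹(E)(1) ⊗ χ`, and the equality of `rk ρ H` with the order of `L(E / M ^ H, s)` is the
formula for `h¹(E)(1)` over `M ^ H`. One can also take `V = E(M) ⊗ ℂ`, with ranks instead of Selmer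
groups.
-/

set_option autoImplicit false

open NumberField Pool.Agent.H541R3.ART Pool.Agent.H302R2 Pool.Agent.W446.AS Pool.Agent.Q7.SZ
  Pool.Agent.Q7.RL Pool.Agent.Q92.RT Pool.Agent.W353.NF Pool.Agent.H341R2.EC

/-- Let `L` be a Galois extension of `K` in `M` such that `M/L` is solvable, or such that all elements
of the Galois group of `L/K` have prime power order (for example `L/K` is a `p`-extension; then `M/L`
is arbitrary). Suppose that `L(E ⊗ χ, s)` has no pole at `s = 1` for the irreducible characters `χ` of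
`Gal(L/K)` (known if `Gal(L/K)` is nilpotent, or monomial), and let `S` be a finite set of real
irreducible characters of `Gal(L/K)` with root number `-1`. If the order of `L(E/M, s)` at `s = 1` is at
most the sum of the degrees `χ(1)` for `χ ∈ S`, then it is equal to it, and for the irreducible
characters `χ` of `Gal(M/K)` the order of `L(E ⊗ χ, s)` at `s = 1` is `1` if `χ ∈ S` and `0` if
`χ ∉ S`.

Let `ρ` be a representation of `Gal(M/K)` on a complex vector space `V` of finite dimension in which
all `χ ∈ S` occur (for `V = H¹_f(M, V_p E) ⊗ ℂ` this is the `p`-parity theorem if `K = ℚ` and `S`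
consists of characters of order at most two; for `V = E(M) ⊗ ℂ` it is the theorem of Gross, Zagier
and Kolyvagin for such characters, as the orders are `1`). Then the order of `L(E ⊗ χ, s)` is at
most the multiplicity of `χ` in `V`, for ALL irreducible characters `χ` of `Gal(M/K)`, the order of
`L(E/F, s)` is at most the dimension of the invariants of `Gal(M/F)`, for ALL fields `F` between `K`
and `M`, and the following are equivalent: equality holds for all `χ`; equality holds for all `F`; the
dimension of `V` is at most the order of `L(E/M, s)`. -/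
theorem Pool.Agent.Results.MP_ec4e4b_nt.MinimalOrder.result
    (K M : Type) [Field K] [NumberField K] [Field M] [NumberField M] [Algebra K M] [IsGalois K M]
    (E : WeierstrassCurve K) (hE : E.IsElliptic) (W : WeierstrassCurve (𝓞 K)) (hW : IsModel E W)
    (a : Automorphic M W 1) (Λ : FunctionalEquations M W)
    (L : IntermediateField K M) [IsGalois K L]
    (hc : Group.IsSolvable L.fixingSubgroup ∨
      ∀ g : M ≃ₐ[K] M, ∃ p k : ℕ, p.Prime ∧ g ^ p ^ k ∈ L.fixingSubgroup) :
    ∃ (n : ((M ≃ₐ[K] M) → ℂ) → ℤ) (r : IntermediateField K M → ℤ), Orders E W 1 n r ∧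
      ((∀ χ ∈ Irr (M ≃ₐ[K] M), (∀ x ∈ L.fixingSubgroup, χ x = χ 1) → 0 ≤ n χ) →
      ∀ S : Finset ((M ≃ₐ[K] M) → ℂ), (∀ χ ∈ S, χ ∈ Irr (M ≃ₐ[K] M) ∧
          (∀ x ∈ L.fixingSubgroup, χ x = χ 1) ∧ (∀ g, χ g⁻¹ = χ g) ∧ Λ.root χ = -1) →
        (r ⊤ : ℝ) ≤ ∑ χ ∈ S, (χ 1).re →
        (r ⊤ : ℂ) = ∑ χ ∈ S, χ 1 ∧ (∀ χ ∈ S, n χ = 1) ∧
        (∀ χ ∈ Irr (M ≃ₐ[K] M), χ ∉ S → n χ = 0) ∧
        ∀ (V : Type) [AddCommGroup V] [Module ℂ V] [FiniteDimensional ℂ V]
          (ρ : Representation ℂ (M ≃ₐ[K] M) V), (∀ χ ∈ S, pr ρ.character χ ≠ 0) →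
          (∀ χ ∈ Irr (M ≃ₐ[K] M), ∃ m : ℕ, pr ρ.character χ = m ∧ n χ ≤ m) ∧
          (∀ F : IntermediateField K M, r F ≤ rk ρ F.fixingSubgroup) ∧
          ((∀ χ ∈ Irr (M ≃ₐ[K] M), ∃ m : ℕ, pr ρ.character χ = m ∧ n χ = m) ↔
            (Module.finrank ℂ V : ℤ) ≤ r ⊤) ∧
          ((∀ F : IntermediateField K M, r F = rk ρ F.fixingSubgroup) ↔
            (Module.finrank ℂ V : ℤ) ≤ r ⊤)) := by
  classical
  obtain ⟨n, r, ho⟩ := exists_orders (M := M) hE hW (by simp) a
  refine ⟨n, r, ho, fun hol S hS hmin => ?_⟩
  have hN : L.fixingSubgroup.Normal := inferInstance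
  have hL : ∀ χ ∈ Irr (M ≃ₐ[K] M),
      meromorphicOrderAt ((TwistData.ofCurve a).model.L χ) 1 = ((n χ : ℤ) : WithTop ℤ) :=
    fun χ hχ => ho.mL a hχ
  obtain ⟨h1, h2, h3, h4⟩ := abs_min (M ≃ₐ[K] M) (TwistData.ofCurve a).model (Λ.model a)
    L.fixingSubgroup hc (fun χ hχ hx => by
      rw [hL χ hχ]
      exact_mod_cast hol χ hχ hx) S (fun χ hχ => by
      obtain ⟨i1, i2, i3, i4⟩ := hS χ hχ
      exact ⟨i1, i2, i3, Λ.model_W a i1 i3 i4⟩) (r ⊤) (ho.mbot hE hW (by simp) a) hmin
  refine ⟨h1, fun χ hχ => ?_, fun χ hχ hχS => ?_, fun V _ _ _ ρ hocc => ?_⟩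
  · have h5 := h2 χ hχ
    rw [hL χ (hS χ hχ).1] at h5
    exact_mod_cast h5
  · have h5 := h3 χ hχ hχS
    rw [hL χ hχ] at h5
    exact_mod_cast h5
  · obtain ⟨e1, e2, e3, e4⟩ := h4 V ρ hocc
    have hF : ∀ F : IntermediateField K M,
        meromorphicOrderAt ((TwistData.ofCurve a).model.Lin F.fixingSubgroup 1) 1 =
          ((r F : ℤ) : WithTop ℤ) := fun F => ho.mlin hE hW (by simp) a F
    refine ⟨fun χ hχ => ?_, fun F => ?_, ?_, ?_⟩
    · obtain ⟨m, hm, hm2⟩ := e1 χ hχ
      refine ⟨m, hm, ?_⟩
      rw [hL χ hχ] at hm2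
      exact_mod_cast hm2
    · have h5 := e2 F.fixingSubgroup
      rw [hF F] at h5
      exact_mod_cast h5
    · rw [← e3]
      refine forall₂_congr fun χ hχ => exists_congr fun m => and_congr_right fun _ => ?_
      rw [hL χ hχ]
      constructor
      · intro h; rw [h]; rfl
      · intro h; exact_mod_cast h
    · rw [← e4]
      rw [forall_subgroup (M := M)]
      refine forall_congr' fun F => ?_
      unfold RankHolds
      rw [hF F]
      constructor
      · intro h; rw [h]
      · intro h; exact_mod_cast h
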