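import Mathlib
import Pool.Agent.Q7.GR.Min

/-!
# The Bloch-Kato formula when the order of vanishing is as small as root numbers allow

`Pool.Agent.H541R3.ART.Irr G` is the set of irreducible complex characters of the finite group `G`.

Let `E` be an elliptic curve over a number field `K` and `M/K` a Galois extension with group `G` such
that `E` is automorphic over `M`. (If `K` is totally real or CM, every `E/K` has such an `M`.) By
solvable descent `E` is automorphic over the fixed field `M ^ H` for every SOLVABLE subgroup `H` of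
`G`. `Pool.Agent.Q7.SZ.TwistData G 1` is a family of functions with the known formal properties of
the L-functions of the motives `h¹(E)(1) ⊗ χ` near the central point, which is `s = 1` in this
file: `L χ` (for `L(E ⊗ χ, s)`, `χ ∈ Irr G`), meromorphic and not identically zero (Brauer), and
`Lin H ψ` (for `L(E / M ^ H ⊗ ψ, s)`, `ψ` a linear character of a subgroup `H`) without pole at `1`
if `H` is solvable, which are the products of the `L χ ^ ⟨χ|_H, ψ⟩` (induction). In particular
`Lin ⊥ 1` stands for `L(E/M, s)` and `Lin H 1` for `L(E / M ^ H, s)`.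

`Pool.Agent.Q7.SZ.FunEq A` are the functional equations
`gam χ (s) * L χ (s) = W χ * gam χ (2 - s) * L χ̄ (2 - s)`, where `gam χ` is the exponential and
Gamma factor (analytic and nonzero at `1`) and `W χ` the root number (not zero, and equal to `1` for
symplectic characters, by Rohrlich).

For a complex representation `ρ` of `G` on `V`, `Pool.Agent.W446.AS.pr ρ.character χ` is the
multiplicity `(1 / |G|) ∑ g, ρ.character g * χ g⁻¹` of `χ` in `V`, `Pool.Agent.Q7.SZ.rk ρ H` is the
dimension of the invariants of `H`, and `Pool.Agent.Q7.SZ.RankHolds A ρ H` says that it is the order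
of `Lin H 1` at `s = 1`. For `V = H¹_f(M, V_p E) ⊗ ℂ` (for an embedding of `ℚ_p` in `ℂ`) the
multiplicity of `χ` is the dimension of `H¹_f(K, V_p E ⊗ χ)` (up to replacing `χ` by its complex
conjugate, which does not change the orders of vanishing), `rk ρ H` is the dimension of
`H¹_f(M ^ H, V_p E)`, and `H⁰ = 0`. So the statement that the multiplicities are the orders
of vanishing is the formula of Bloch and Kato for all the motives `h¹(E)(1) ⊗ χ`, and `RankHolds A ρ H`
is the formula for `h¹(E)(1)` over `M ^ H`. One can also take `V = E(M) ⊗ ℂ`, with ranks instead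
of Selmer groups.
-/

set_option autoImplicit false

open Pool.Agent.H541R3.ART Pool.Agent.H302R2 Pool.Agent.H302R3 Pool.Agent.W446.AS
  Pool.Agent.Q7.TZ Pool.Agent.Q7.SZ Pool.Agent.Q7.GR

/-- Let `L = M ^ N` be a Galois extension of `K` in `M` such that `M/L` is solvable, or such that all
elements of `Gal(L/K)` have prime power order (for example `L/K` is a `p`-extension; then `M/L` is
arbitrary). Suppose that `L(E ⊗ χ, s)` has no pole at `s = 1` for the irreducible characters `χ`
of `Gal(L/K)` (known if `Gal(L/K)` is nilpotent, or monomial), and let `S` be a finite set of real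
irreducible characters of `Gal(L/K)` with root number `W(E ⊗ χ) = -1`. If the order of `L(E/M, s)` at
`s = 1` is at most the sum of the degrees `χ(1)` for `χ ∈ S`, then it is equal to it,
and for the irreducible characters `χ` of `Gal(M/K)` the order of `L(E ⊗ χ, s)` at `s = 1` is `1` if
`χ ∈ S` and `0` if `χ ∉ S`.

Let `ρ` be a representation of `Gal(M/K)` on a complex vector space `V` of finite dimension in which
all `χ ∈ S` occur (for `V = H¹_f(M, V_p E) ⊗ ℂ` this is the `p`-parity theorem if `K = ℚ` and `S`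
consists of characters of order at most two; for `V = E(M) ⊗ ℂ` it is the theorem of Gross, Zagier
and Kolyvagin for such characters, as the orders are `1`). Then the order of `L(E ⊗ χ, s)` is at
most the multiplicity of `χ` in `V`, for ALL irreducible characters `χ` of `Gal(M/K)`, the order of
`L(E / M ^ H, s)` is at most the dimension of the invariants of `H`, for ALL subgroups `H`, and the
following are equivalent: equality holds for all `χ`; equality holds for all `H`; the dimension
of `V` is at most the order of `L(E/M, s)`. -/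
theorem Pool.Agent.Results.MP_ec4e4b_nt.MinimalRank.result
    (G : Type) [Group G] [Finite G] (A : TwistData G 1) (F : FunEq A) (N : Subgroup G) [N.Normal]
    (hc : Group.IsSolvable N ∨ ∀ g : G, ∃ p k : ℕ, p.Prime ∧ g ^ p ^ k ∈ N)
    (hol : ∀ χ ∈ Irr G, (∀ x ∈ N, χ x = χ 1) → 0 ≤ meromorphicOrderAt (A.L χ) 1)
    (S : Finset (G → ℂ)) (hS : ∀ χ ∈ S, χ ∈ Irr G ∧ (∀ x ∈ N, χ x = χ 1) ∧
      (∀ g, χ g⁻¹ = χ g) ∧ F.W χ = -1) (r : ℤ)
    (hr : meromorphicOrderAt (A.Lin ⊥ 1) 1 = (r : WithTop ℤ))
    (hmin : (r : ℝ) ≤ ∑ χ ∈ S, (χ 1).re) :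
    (r : ℂ) = ∑ χ ∈ S, χ 1 ∧ (∀ χ ∈ S, meromorphicOrderAt (A.L χ) 1 = 1) ∧
    (∀ χ ∈ Irr G, χ ∉ S → meromorphicOrderAt (A.L χ) 1 = 0) ∧
    ∀ (V : Type) [AddCommGroup V] [Module ℂ V] [FiniteDimensional ℂ V]
      (ρ : Representation ℂ G V), (∀ χ ∈ S, pr ρ.character χ ≠ 0) →
      (∀ χ ∈ Irr G, ∃ m : ℕ, pr ρ.character χ = m ∧ meromorphicOrderAt (A.L χ) 1 ≤ m) ∧
      (∀ H : Subgroup G, meromorphicOrderAt (A.Lin H 1) 1 ≤ ((rk ρ H : ℤ) : WithTop ℤ)) ∧
      ((∀ χ ∈ Irr G, ∃ m : ℕ, pr ρ.character χ = m ∧ meromorphicOrderAt (A.L χ) 1 = m) ↔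
        (Module.finrank ℂ V : ℤ) ≤ r) ∧
      ((∀ H, RankHolds A ρ H) ↔ (Module.finrank ℂ V : ℤ) ≤ r) := by
  classical
  obtain ⟨h1, h2, h3⟩ := minimal F hc hol S hS hr hmin
  refine ⟨h1, fun χ hχ => ?_, fun χ hχ hχS => ?_, fun V _ _ _ ρ hocc => ?_⟩
  · rw [← A.coe_ord (hS χ hχ).1, h2 χ hχ]
    rfl
  · rw [← A.coe_ord hχ, h3 χ hχ hχS]
    rfl
  · obtain ⟨e1, e2, e3, e4⟩ := minimal_dim (fun χ hχ => (hS χ hχ).1) h1 h2 h3 ρ hocc
    refine ⟨fun χ hχ => ?_, e2, ?_, e4⟩
    · obtain ⟨m, hm, hm2⟩ := e1 χ hχ
      refine ⟨m, hm, ?_⟩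
      rw [← A.coe_ord hχ]
      exact_mod_cast hm2
    · rw [← e3]
      constructor
      · intro h χ hχ
        obtain ⟨m, hm, hm2⟩ := h χ hχ
        rw [← A.coe_ord hχ] at hm2
        have h4 : A.ord χ = (m : ℤ) := by exact_mod_cast hm2
        rw [hm, h4]
        simp
      · intro h χ hχ
        obtain ⟨m, hm, -⟩ := e1 χ hχ
        refine ⟨m, hm, ?_⟩
        have h4 := h χ hχ
        rw [hm] at h4
        have h5 : A.ord χ = (m : ℤ) := by exact_mod_cast h4.symm
        rw [← A.coe_ord hχ, h5]
        rfl
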