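import Pool.Agent.Q226.SEN.Proj

/-!
# 2-to-1 games with perfect completeness: reductions with unate bits or small formulas

A reduction writes down its games bit by bit: `T` is a finite type of possible constraints (with
vertices `src e`, `tgt e` and a map `π e` between the label sets, all arbitrary; repeated constraints
are allowed), and a game is a subset of `T`. The reductions are randomised (the coins are a uniform
element `ρ` of a finite type `R`), they ask `k` queries nonadaptively, and evaluate the answers by an
arbitrary function; many-one reductions are the case `k = 1`. All queries have `m` constraints.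
`Reduces` says that for every oracle which is right on the games with `m` constraints of value `1`,
and of value at most `δ` (its other answers are arbitrary), and for every input `x` of `N` bits the
output is the parity of `x` with probability at least `1 / 2 + γ`. Nothing is assumed about the
complexity of the reduction; the alphabets are arbitrary, too. Let `κ = 1 - δ`.

(1) The lower bounds hold for all maps `π e`, in particular for 2-to-1 games:
* on the average over the coins the bits of the queries have together at least `2 γ κ N` times
  `m 2 ^ N` sensitive pairs (an input at which the bit is `1` and a coordinate whose change makes it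
  `0`); for a many-one reduction this means that flipping one bit of the input makes at least a
  fraction `1 - δ` of the constraints disappear, on the average;
* if every present constraint can be destroyed in at most `s` coordinates (bits with decision
  trees of depth `s`, or DNFs of width `s`) then `k s ≥ 2 γ κ N`;
* if every bit is a unate function of the input (for example monotone, or a linear threshold
  function, of arbitrary complexity) then `|T| ≥ m exp (2 γ ^ 2 κ ^ 2 N / k ^ 2)`;
* formulas with AND and OR gates on literals for the bits have together at least
  `4 γ ^ 2 κ ^ 2 N ^ 2 m / k` leaves, on the average over the coins; for many-one reductions this is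
  `(1 - δ) ^ 2 N ^ 2` times the number of constraints.

(2) Up to constant factors these bounds are optimal for many-one reductions: there are reductions
from parity to games of value `1` or `1 / p`, with bijective maps on `p` labels and `m = p`
constraints, with `2 N ^ 2 m` leaves (`N` a power of two), or with unate bits and `|T| = 2 ^ N m`.

(3) Without the gap the problem is `NP`-complete under projections: three-colourability of a graph on
`n` vertices reduces to value `1` of a 2-to-1 game with six labels on both sides, whose constraints
are always present or present if a certain pair of vertices is adjacent.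

So for no alphabet and no `δ < 1` is the problem of the 2-to-1 conjecture `NP`-hard (not even hard for
parity) under polynomial size reductions of unbounded complexity with unate bits, with few sensitive
bits, or with formulas of size `o (N ^ 2)` per constraint, whereas the problem without a gap is hard
for `NP` under such reductions.

Proof: answer the queries by the oracle for value at least `θ`, for a random threshold `θ` between `δ`
and `1`; if one bit of the input is flipped, some answer changes for every `θ`, so the sum of the
changes of the values is at least `κ`. Then the sensitivity is estimated: by exponential moments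
and Gibbs' inequality for unate bits, and by Khrapchenko's inequality for formulas. The theorem for
unique games is our hand-in `MP_325f1f_lc.SensitiveReductions`; the arguments for the lower bounds do
not depend on the kind of the constraints.
-/

set_option autoImplicit false

namespace Pool.Agent.Results.MP_ec946a_lc.SensitiveReductions

open Finset Pool.Agent.Q226.SEN
open scoped Classical

/-- (1) Lower bounds for every reduction `query`, `eval` from the parity of `N` bits to projection
games with `m ≥ 1` constraints of value `1`, or at most `δ`, with `k` queries, coins `R` and advantage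
`γ ≥ 0`. (2) Optimal many-one reductions. (3) The reduction from three-colourability to the problem
without a gap. The definitions (`Reduces`, `ProjSat`, `sens`, `size`, `Unate`, `Fml`) are in
`Pool/Agent/Q226/SEN/Defs.lean` and `Pool/Agent/Q226/SEN/Proj.lean`. -/
theorem result :
    (∀ (N k m : ℕ) (T U V A B R : Type) [Fintype T] [Fintype R] [Nonempty R] (src : T → U)
      (tgt : T → V) (π : T → A → B) (δ γ : ℝ)
      (query : R → Fin k → (Fin N → Bool) → T → Bool) (eval : R → (Fin k → Bool) → Bool),
      1 ≤ m → 0 ≤ δ → δ ≤ 1 → 0 ≤ γ → (∀ ρ j x, size (query ρ j x) = m) →
      Reduces (ProjSat src tgt π) 1 δ m query eval γ →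
      2 * γ * (1 - δ) * N * (m * 2 ^ N * Fintype.card R) ≤
        ∑ ρ, ∑ j, ∑ e, (sens (fun x => query ρ j x e) : ℝ) ∧
      (∀ s : ℕ, (∀ ρ j x e, query ρ j x e = true →
        (univ.filter fun i => query ρ j (toggle i x) e = false).card ≤ s) →
        2 * γ * (1 - δ) * N ≤ k * s) ∧
      ((∀ ρ j e, Unate fun x => query ρ j x e) →
        2 * (γ * (1 - δ)) ^ 2 * N ≤ k ^ 2 * Real.log (Fintype.card T / m)) ∧
      (∀ F : R → Fin k → T → Fml N, (∀ ρ j x e, (F ρ j e).val x = query ρ j x e) →
        4 * (γ * (1 - δ)) ^ 2 * N ^ 2 * m * Fintype.card R ≤
          k * ∑ ρ, ∑ j, ∑ e, ((F ρ j e).leaves : ℝ))) ∧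
    (∀ q p : ℕ, 1 ≤ p →
      ∃ (T A : Type) (_ : Fintype T) (src tgt : T → Unit) (π : T → A → A)
        (g : (Fin (2 ^ q) → Bool) → T → Bool) (F : T → Fml (2 ^ q)),
        Nat.card A = p ∧ (∀ e, Function.Bijective (π e)) ∧ (∀ x, size (g x) = p) ∧
        (∀ e x, (F e).val x = g x e) ∧
        Reduces (k := 1) (ProjSat src tgt π) 1 (1 / p) p (fun (_ : Unit) _ => g)
          (fun _ u => !u 0) (1 / 2) ∧
        ∑ e, (F e).leaves = 2 * p * (2 ^ q) ^ 2) ∧
    (∀ N p : ℕ, 1 ≤ p →
      ∃ (T A : Type) (_ : Fintype T) (src tgt : T → Unit) (π : T → A → A)
        (g : (Fin N → Bool) → T → Bool),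
        Nat.card A = p ∧ (∀ e, Function.Bijective (π e)) ∧ Fintype.card T = 2 ^ N * p ∧
        (∀ x, size (g x) = p) ∧ (∀ e, Unate fun x => g x e) ∧
        Reduces (k := 1) (ProjSat src tgt π) 1 (1 / p) p (fun (_ : Unit) _ => g)
          (fun _ u => !u 0) (1 / 2)) ∧
    ∀ n : ℕ, ∃ (T U V : Type) (_ : Fintype T) (src : T → U) (tgt : T → V)
      (π : T → Fin 3 × Fin 2 → Fin 3 × Fin 2)
      (pair : T → Option (Fin n × Fin n)) (g : SimpleGraph (Fin n) → T → Bool),
      (∀ e c, (univ.filter fun a => π e a = c).card ≤ 2) ∧
      (∀ G, 1 ≤ size (g G)) ∧
      (∀ e G, g G e = true ↔ ∀ q, pair e = some q → G.Adj q.1 q.2) ∧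
      ∀ G, G.Colorable 3 ↔ ∃ ℓ, ∀ e, g G e = true → ProjSat src tgt π ℓ e := by
  refine ⟨?_, proj_fml_upper, proj_unate_upper, three_colour_same⟩
  intro N k m T U V A B R _ _ _ src tgt π δ γ query eval hm hδ hδ1 hγ hsize hred
  refine ⟨?_, ?_, ?_, ?_⟩
  · have h1 := law _ hδ hδ1 m query eval γ hsize hred
    refine le_trans (le_of_eq ?_) h1
    ring
  · intro s hs
    exact few_main _ hδ hδ1 hm query eval γ hsize hred s hs
  · intro hu
    exact unate_main _ hδ hδ1 hm query eval γ hγ hsize hred hu
  · intro F hF
    exact fml_main _ hδ hδ1 hm query eval γ hγ hsize hred F hF

end Pool.Agent.Results.MP_ec946a_lc.SensitiveReductions
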