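import Mathlib
import Pool.Agent.Q74.PD.Prd
import Pool.Agent.Q74.PD.Stm11
import Pool.Agent.Q121.PD.Psv
import Pool.Agent.Q192.PD.Chq
import Pool.Agent.Q153.PD3.Den
import Pool.Agent.Q153.PD3.Lim
import Pool.Agent.Q153.PD3.Low

set_option autoImplicit false

/-!
# The Syracuse random variable: size of the point masses, all `L^q` norms, mixing in `L^p`, characteristic function

Let `Syr_n` be the Syracuse random variable of Tao (2019) modulo `3^n`: `Syr_0 = 0`, `Syr_(n+1) = 2^(-e) (3 Syr_n + 1)` with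
independent `e ≥ 1`, `P(e) = 2^(-e)`. Tao's proof of `almost all orbits attain almost bounded values` rests on its mixing at
fine scales. We determine its `L^q` norms up to powers of `n`, for every real `q`, and show that the mixing holds in `L^p`
exactly for `p < 2`.

Proof. The words `w` with `3^i ≤ L 2^(S_i)` for all prefixes contribute at most `6 n^3 L` to `3^n P(Syr_n = a)` at EVERY `a`
(`Sup9.lean`: a word is cut where `2^(S_i)` passes `3^n / (n L)`; the first part is determined by its offset modulo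
`3^n`). All words which are valid at `a` have valid prefixes; this bounds the point masses by the largest valid weight
and, after a summation over the prefixes, all moments. With the mixing in mean (all powers of `n`, library `H499R2`, Tao 2019)
this gives tails uniform in `n` and the mixing in `L^p`.

Lemmas by helper96, helper121, helper123, helper129, helper164, helper192, helper195, helper224, helper241, helper285, helper299, helper53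
(`Pool/Agent/Q<seat>/PD`).
-/

namespace Pool.Agent.Results.MP_edb5be_nt.SyracuseNorms

open Filter Topology Finset MeasureTheory Pool.Agent.Q74.PD

/-- the `3x+1` map -/
def T (x : ℤ) : ℤ := if x % 2 = 0 then x / 2 else (3 * x + 1) / 2

open Classical in
/-- `P(Syr_n ≡ a mod 3^n)`: the law of `Syr_(n+1) = 2^(-e) (3 Syr_n + 1)`, `e ≥ 1` with probability `2^(-e)`, independent
of `Syr_n`; equivalently the probability that `n` steps `a ↦ (2^e a - 1)/3` stay in the integers -/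
noncomputable def syr : ℕ → ℤ → ℝ
  | 0, _ => 1
  | n + 1, a => ∑' e : ℕ, if (3 : ℤ) ∣ 2 ^ (e + 1) * a - 1
      then (1 / 2 : ℝ) ^ (e + 1) * syr n ((2 ^ (e + 1) * a - 1) / 3) else 0

/-- the characteristic function `E exp(2 π i ξ Syr_n / 3^n)` -/
noncomputable def chf (n : ℕ) (ξ : ℤ) : ℂ :=
  ∑ a ∈ range (3 ^ n), (syr n a : ℂ) * Complex.exp (2 * Real.pi * Complex.I * ξ * a / 3 ^ n)

theorem syr_eq (n : ℕ) : ∀ a : ℤ, syr n a = Pool.Agent.Q74.PD.syr 1 n a := by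
  induction n with
  | zero => intro a; rfl
  | succ n ih =>
    intro a
    rw [syr, Pool.Agent.Q74.PD.syr]
    congr 1
    ext e
    split_ifs with h
    · rw [ih]
    · rfl

theorem Dn_eq (n : ℕ) (a : ℤ) : Dn 1 n a = 3 ^ n * syr n a := by rw [syr_eq, Dn_syr]

theorem syr_zero {n : ℕ} (hn : 1 ≤ n) {a : ℤ} (ha : (3 : ℤ) ∣ a) : syr n a = 0 := by
  obtain ⟨m, rfl⟩ : ∃ m, n = m + 1 := ⟨n - 1, by omega⟩
  rw [syr]
  have h : ∀ e : ℕ, (if (3 : ℤ) ∣ 2 ^ (e + 1) * a - 1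
      then (1 / 2 : ℝ) ^ (e + 1) * syr m ((2 ^ (e + 1) * a - 1) / 3) else 0) = 0 := by
    intro e
    rw [if_neg]
    intro h
    have h1 : (3 : ℤ) ∣ 2 ^ (e + 1) * a := ha.mul_left _
    have h2 := dvd_sub h1 h
    rw [sub_sub_cancel] at h2
    omega
  simp only [h, tsum_zero]

theorem Dn_div (n : ℕ) (a : ℤ) : Dn 1 n a / 3 ^ n = syr n a := by rw [syr_eq, syr_div]

theorem syr_nn (n : ℕ) (a : ℤ) : 0 ≤ syr n a := by
  rw [← Dn_div]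
  have h1 := (dlm_ 1 isCoprime_one_left n).1 0 a
  exact div_nonneg (h1.1.trans h1.2.1) (by positivity)

theorem Dn_nn (n : ℕ) (a : ℤ) : 0 ≤ Dn 1 n a := by
  have h1 := (dlm_ 1 isCoprime_one_left n).1 0 a
  exact h1.1.trans h1.2.1

/-- `3^n P ≥ c` on the units -/
theorem low : ∃ c : ℝ, 0 < c ∧ ∀ n : ℕ, 1 ≤ n → ∀ b : ℤ, ¬ (3 : ℤ) ∣ b → c ≤ Dn 1 n b := by
  have hlim : S_Lim := Pool.Agent.Q153.PD3.lim haa_ exc_ all_ dlm_
  obtain ⟨c, hc, hlow⟩ := Pool.Agent.Q153.PD3.low hlim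
  have hd : Odd (1 : ℤ) := odd_one
  have hd3 : IsCoprime (1 : ℤ) 3 := isCoprime_one_left
  obtain ⟨D, hDm, hD0, hDi, hDl, hDc⟩ := Pool.Agent.Q153.PD3.den haa_ cau_ dlm_ 1 hd hd3
  exact ⟨c, hc, Dn_low haa_ hDi hDc (hlow 1 hd hd3 D hDm hDi hD0 hDl)⟩

/-- sums of powers of `Dn` and of `syr` -/
theorem sum_pow_eq (q : ℝ) (n : ℕ) (S : Finset ℕ) :
    ∑ a ∈ S, Dn 1 n a ^ q = ((3 : ℝ) ^ n) ^ q * ∑ a ∈ S, syr n a ^ q := by
  rw [mul_sum]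
  refine sum_congr rfl fun a _ => ?_
  rw [Dn_eq, Real.mul_rpow (by positivity) (syr_nn n a)]

/-- **moments of order `q ≥ 2`** -/
theorem big {q : ℝ} (hq : 2 ≤ q) {n : ℕ} (hn : 1 ≤ n) :
    (1 / (2 ^ q - 1)) ^ n ≤ ∑ a ∈ range (3 ^ n), syr n a ^ q ∧
    ∑ a ∈ range (3 ^ n), syr n a ^ q ≤ (6 * (n : ℝ) ^ 3) ^ q * (n + 1) * (1 / (2 ^ q - 1)) ^ n := by
  have h2 : (1 : ℝ) < 2 ^ q := Real.one_lt_rpow (by norm_num) (by linarith)
  have hq1 : (0 : ℝ) < 2 ^ q - 1 := by linarith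
  have h3 : (0 : ℝ) < 3 ^ n := by positivity
  have h4 : (0 : ℝ) < ((3 : ℝ) ^ n) ^ q := by positivity
  have h5 : ((3 : ℝ) ^ (q - 1) / (2 ^ q - 1)) ^ n * 3 ^ n = ((3 : ℝ) ^ n) ^ q * (1 / (2 ^ q - 1)) ^ n := by
    rw [← mul_pow]
    have h6 : (3 : ℝ) ^ (q - 1) / (2 ^ q - 1) * 3 = 3 ^ q * (1 / (2 ^ q - 1)) := by
      rw [Real.rpow_sub_one (by norm_num)]
      field_simp
    rw [h6, mul_pow]
    congr 1
    rw [← Real.rpow_natCast, ← Real.rpow_natCast, ← Real.rpow_mul (by norm_num), ← Real.rpow_mul (by norm_num), mul_comm]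
  constructor
  · have h1 := mol_ 1 isCoprime_one_left q (by linarith) n
    rw [le_div_iff₀ h3, h5, sum_pow_eq] at h1
    exact le_of_mul_le_mul_left h1 h4
  · have h1 := mou_ 1 isCoprime_one_left q (by linarith) n hn
    have h7 : (1 : ℝ) ≤ (3 : ℝ) ^ (q - 1) / (2 ^ q - 1) := by
      rw [le_div_iff₀ hq1, one_mul]
      exact two_three hq
    rw [max_eq_right h7, div_le_iff₀ h3, sum_pow_eq] at h1
    have h8 : (6 * (n : ℝ) ^ 3) ^ q * (n + 1) * ((3 : ℝ) ^ (q - 1) / (2 ^ q - 1)) ^ n * 3 ^ n =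
        ((3 : ℝ) ^ n) ^ q * ((6 * (n : ℝ) ^ 3) ^ q * (n + 1) * (1 / (2 ^ q - 1)) ^ n) := by
      have h9 : (6 * (n : ℝ) ^ 3) ^ q * (n + 1) * ((3 : ℝ) ^ (q - 1) / (2 ^ q - 1)) ^ n * 3 ^ n =
        (6 * (n : ℝ) ^ 3) ^ q * (n + 1) * (((3 : ℝ) ^ (q - 1) / (2 ^ q - 1)) ^ n * 3 ^ n) := by ring
      rw [h9, h5]
      ring
    rw [h8] at h1
    exact le_of_mul_le_mul_left h1 h4

/-- **moments of order `q < 2`** -/
theorem small {c : ℝ} (hc : 0 < c) (hlow : ∀ n : ℕ, 1 ≤ n → ∀ b : ℤ, ¬ (3 : ℤ) ∣ b → c ≤ Dn 1 n b) {q : ℝ} (hq : q < 2) :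
    ∃ K : ℝ, 0 < K ∧ ∀ n : ℕ, 1 ≤ n →
      1 / K * (3 : ℝ) ^ ((1 - q) * n) ≤ ∑ a ∈ (range (3 ^ n)).filter (fun a : ℕ => ¬ 3 ∣ a), syr n a ^ q ∧
      ∑ a ∈ (range (3 ^ n)).filter (fun a : ℕ => ¬ 3 ∣ a), syr n a ^ q ≤ K * (3 : ℝ) ^ ((1 - q) * n) := by
  classical
  obtain ⟨K, hK, h⟩ := qsp_ c hc q hq
  refine ⟨K, hK, fun n hn => ?_⟩
  obtain ⟨h1, h2⟩ := h 1 isCoprime_one_left hlow n hn
  have e1 : (3 : ℝ) ^ n = ((3 : ℝ) ^ n) ^ q * (3 : ℝ) ^ ((1 - q) * n) := by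
    rw [← Real.rpow_natCast, ← Real.rpow_mul (by norm_num), ← Real.rpow_add (by norm_num)]
    congr 1
    ring
  have h4 : (0 : ℝ) < ((3 : ℝ) ^ n) ^ q := by positivity
  have h1' : 1 / K * (((3 : ℝ) ^ n) ^ q * (3 : ℝ) ^ ((1 - q) * n)) ≤
      ((3 : ℝ) ^ n) ^ q * ∑ a ∈ (range (3 ^ n)).filter (fun a : ℕ => ¬ 3 ∣ a), syr n a ^ q := by
    rw [← e1, ← sum_pow_eq]
    convert h1 using 2
  have h2' : ((3 : ℝ) ^ n) ^ q * ∑ a ∈ (range (3 ^ n)).filter (fun a : ℕ => ¬ 3 ∣ a), syr n a ^ q ≤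
      K * (((3 : ℝ) ^ n) ^ q * (3 : ℝ) ^ ((1 - q) * n)) := by
    rw [← e1, ← sum_pow_eq]
    convert h2 using 2
  constructor
  · refine le_of_mul_le_mul_left ?_ h4
    linarith
  · refine le_of_mul_le_mul_left ?_ h4
    linarith

/-- growth of the second moment -/
theorem second {c : ℝ} (hc : 0 < c) (hlow : ∀ n : ℕ, 1 ≤ n → ∀ b : ℤ, ¬ (3 : ℤ) ∣ b → c ≤ Dn 1 n b) {n : ℕ} (hn : 1 ≤ n) :
    c ^ 2 / 8 * (n - 1) ≤ (∑ b ∈ range (3 ^ n), Dn 1 n b ^ 2) / 3 ^ n ∧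
    (∑ b ∈ range (3 ^ n), Dn 1 n b ^ 2) / 3 ^ n ≤ 36 * (n : ℝ) ^ 6 * (n + 1) := by
  refine ⟨sqg_ 1 isCoprime_one_left c hc hlow n hn, ?_⟩
  have h1 := mou_ 1 isCoprime_one_left 2 (by norm_num) n hn
  have e1 : (3 : ℝ) ^ ((2 : ℝ) - 1) / (2 ^ (2 : ℝ) - 1) = 1 := by
    have : (2 : ℝ) - 1 = 1 := by norm_num
    rw [this, Real.rpow_one, Real.rpow_two]
    norm_num
  rw [e1, max_self, one_pow, mul_one] at h1
  have e2 : ∀ x : ℝ, x ^ (2 : ℝ) = x ^ 2 := fun x => Real.rpow_two x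
  simp only [e2] at h1
  calc (∑ b ∈ range (3 ^ n), Dn 1 n b ^ 2) / 3 ^ n ≤ (6 * (n : ℝ) ^ 3) ^ 2 * (n + 1) := h1
    _ = 36 * (n : ℝ) ^ 6 * (n + 1) := by ring

/-- no mixing in `L^2` -/
theorem notwo {c : ℝ} (hc : 0 < c) (hlow : ∀ n : ℕ, 1 ≤ n → ∀ b : ℤ, ¬ (3 : ℤ) ∣ b → c ≤ Dn 1 n b) (n : ℕ) :
    Tendsto (fun m : ℕ => (∑ a ∈ range (3 ^ m), |3 ^ m * syr m a - 3 ^ n * syr n a| ^ 2) / 3 ^ m) atTop atTop := by
  have h1 : Tendsto (fun m : ℕ => c ^ 2 / 8 * ((m : ℝ) - 1) / 2 - (3 ^ n) ^ 2) atTop atTop := by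
    have h2 : Tendsto (fun m : ℕ => (m : ℝ)) atTop atTop := tendsto_natCast_atTop_atTop
    have h3 : Tendsto (fun m : ℕ => c ^ 2 / 16 * (m : ℝ) + (-(c ^ 2 / 16) - (3 ^ n) ^ 2)) atTop atTop :=
      tendsto_atTop_add_const_right _ _ (h2.const_mul_atTop (by positivity))
    refine h3.congr fun m => ?_
    ring
  refine tendsto_atTop_mono' _ ?_ h1
  filter_upwards [eventually_ge_atTop 1] with m hm
  have h4 := (second hc hlow hm).1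
  have h5 : ∀ a ∈ range (3 ^ m), Dn 1 m a ^ 2 / 2 - (3 ^ n) ^ 2 ≤ |3 ^ m * syr m a - 3 ^ n * syr n a| ^ 2 := by
    intro a _
    rw [sq_abs, ← Dn_eq, ← Dn_eq]
    have h6 := (dlm_ 1 isCoprime_one_left n).1 0 a
    have h7 : Dn 1 n a ^ 2 ≤ (3 ^ n) ^ 2 := pow_le_pow_left₀ (Dn_nn n a) h6.2.2.1 2
    nlinarith [sq_nonneg (Dn 1 m a - 2 * Dn 1 n a)]
  have h8 := sum_le_sum h5
  rw [sum_sub_distrib, ← sum_div, sum_const, card_range, nsmul_eq_mul] at h8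
  have h9 : (0 : ℝ) < 3 ^ m := by positivity
  rw [le_div_iff₀ h9]
  rw [le_div_iff₀ h9] at h4
  push_cast at h8
  have h10 : (c ^ 2 / 8 * ((m : ℝ) - 1) / 2 - (3 ^ n) ^ 2) * 3 ^ m =
    c ^ 2 / 8 * ((m : ℝ) - 1) * 3 ^ m / 2 - 3 ^ m * (3 ^ n) ^ 2 := by ring
  rw [h10]
  linarith

theorem chf_eq (n : ℕ) (ξ : ℤ) : chf n ξ = chi 1 n ξ := by
  unfold chf chi
  refine sum_congr rfl fun a _ => ?_
  rw [Dn_div]

open Classical in
/-- THE SYRACUSE RANDOM VARIABLE modulo `3^n`. There are `c > 0`, `K : ℝ → ℝ` and `M : ℝ → ℕ → ℝ` such that: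
(1) POINT MASSES. For `n ≥ 1` they are `0` at the multiples of `3` and at least `c / 3^n` at the `a` prime to `3`, at most
`6 n^3 / 2^n`, and at least `1 / 2^n` at `-1`. If `a ≥ 1`, `L ≥ 1` and no positive integer below `a / L` has `a` in its trajectory under the `3x+1` map then the mass
at `a` is at most `6 n^3 L / 3^n`, for all `n ≥ 1`.
(2) NORMS. For `n ≥ 1` the sum of the `q`-th powers of the masses is between `(2^q - 1)^(-n)` and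
`(6 n^3)^q (n + 1) (2^q - 1)^(-n)` for all real `q ≥ 2`, and between `3^((1-q) n) / K q` and `K q 3^((1-q) n)` for all real
`q < 2` (also negative ones; sum over the `a` prime to `3`).
(3) MIXING IN `L^p`. For `1 ≤ p < 2`, all `B` and `1 ≤ n ≤ m` the mean of `|3^m P(Syr_m = a) - 3^n P(Syr_n = a)|^p` over the `a`
modulo `3^m` is at most `M p B / n^B`; for `p = 2` and every `n` it tends to infinity as `m` tends to infinity.
(4) CHARACTERISTIC FUNCTION. For `q > 2`, all `B` and `n ≥ 1` the sum of `|E exp(2 π i ξ Syr_n / 3^n)|^q` over the `ξ` modulo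
`3^n` prime to `3` is at most `M q B / n^B`; the sum of the squares over all `ξ` modulo `3^n` is between `c (n - 1)` and
`36 n^6 (n + 1)`. -/
theorem result : ∃ (c : ℝ) (K : ℝ → ℝ) (M : ℝ → ℕ → ℝ), 0 < c ∧
    (∀ n : ℕ, 1 ≤ n → (∀ a : ℤ, (3 : ℤ) ∣ a → syr n a = 0) ∧ (∀ a : ℤ, ¬ (3 : ℤ) ∣ a → c / 3 ^ n ≤ syr n a) ∧ (∀ a : ℤ, syr n a ≤ 6 * n ^ 3 / 2 ^ n) ∧
      1 / 2 ^ n ≤ syr n (-1) ∧
      ∀ (a : ℤ) (L : ℝ), 1 ≤ a → 1 ≤ L → (∀ x : ℤ, 1 ≤ x → (∃ k : ℕ, T^[k] x = a) → a ≤ L * x) →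
        syr n a ≤ 6 * n ^ 3 * L / 3 ^ n) ∧
    (∀ (q : ℝ) (n : ℕ), 1 ≤ n →
      (2 ≤ q → (1 / (2 ^ q - 1)) ^ n ≤ ∑ a ∈ range (3 ^ n), syr n a ^ q ∧
        ∑ a ∈ range (3 ^ n), syr n a ^ q ≤ (6 * (n : ℝ) ^ 3) ^ q * (n + 1) * (1 / (2 ^ q - 1)) ^ n) ∧
      (q < 2 → 1 / K q * (3 : ℝ) ^ ((1 - q) * n) ≤ ∑ a ∈ (range (3 ^ n)).filter (fun a : ℕ => ¬ 3 ∣ a), syr n a ^ q ∧
        ∑ a ∈ (range (3 ^ n)).filter (fun a : ℕ => ¬ 3 ∣ a), syr n a ^ q ≤ K q * (3 : ℝ) ^ ((1 - q) * n))) ∧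
    ((∀ (p : ℝ) (B n m : ℕ), 1 ≤ p → p < 2 → 1 ≤ n → n ≤ m →
      (∑ a ∈ range (3 ^ m), |3 ^ m * syr m a - 3 ^ n * syr n a| ^ p) / 3 ^ m ≤ M p B / n ^ B) ∧
      ∀ n : ℕ, Tendsto (fun m : ℕ => (∑ a ∈ range (3 ^ m), |3 ^ m * syr m a - 3 ^ n * syr n a| ^ 2) / 3 ^ m) atTop atTop) ∧
    (∀ (q : ℝ) (B n : ℕ), 2 < q → 1 ≤ n →
      ∑ ξ ∈ (range (3 ^ n)).filter (fun ξ : ℕ => ¬ 3 ∣ ξ), ‖chf n ξ‖ ^ q ≤ M q B / n ^ B) ∧
    ∀ n : ℕ, 1 ≤ n → c * (n - 1) ≤ ∑ ξ ∈ range (3 ^ n), ‖chf n ξ‖ ^ 2 ∧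
      ∑ ξ ∈ range (3 ^ n), ‖chf n ξ‖ ^ 2 ≤ 36 * n ^ 6 * (n + 1) := by
  have hp : S_Psv := Pool.Agent.Q121.PD.psv
  have hq : S_Chq := Pool.Agent.Q192.PD.chq hp (Pool.Agent.Q121.PD.chb dlm_ rte_) mou_
  obtain ⟨c, hc, hlow⟩ := low
  have hK : ∀ q : ℝ, ∃ K : ℝ, q < 2 → ∀ n : ℕ, 1 ≤ n →
      1 / K * (3 : ℝ) ^ ((1 - q) * n) ≤ ∑ a ∈ (range (3 ^ n)).filter (fun a : ℕ => ¬ 3 ∣ a), syr n a ^ q ∧
      ∑ a ∈ (range (3 ^ n)).filter (fun a : ℕ => ¬ 3 ∣ a), syr n a ^ q ≤ K * (3 : ℝ) ^ ((1 - q) * n) := by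
    intro q
    by_cases h : q < 2
    · obtain ⟨K, _, hK⟩ := small hc hlow h
      exact ⟨K, fun _ => hK⟩
    · exact ⟨0, fun h' => absurd h' h⟩
  choose K hK using hK
  have hM : ∀ (q : ℝ) (B : ℕ), ∃ M : ℝ, (1 ≤ q → q < 2 → ∀ n m : ℕ, 1 ≤ n → n ≤ m →
      (∑ a ∈ range (3 ^ m), |3 ^ m * syr m a - 3 ^ n * syr n a| ^ q) / 3 ^ m ≤ M / n ^ B) ∧
      (2 < q → ∀ n : ℕ, 1 ≤ n →
        ∑ ξ ∈ (range (3 ^ n)).filter (fun ξ : ℕ => ¬ 3 ∣ ξ), ‖chf n ξ‖ ^ q ≤ M / n ^ B) := by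
    intro q B
    rcases lt_or_ge 2 q with h | h
    · obtain ⟨C, _, hC⟩ := hq q h B
      refine ⟨C, fun _ h' => absurd h' (by linarith), fun _ n hn => ?_⟩
      simp only [chf_eq]
      exact hC 1 isCoprime_one_left n hn
    · by_cases h' : 1 ≤ q ∧ q < 2
      · obtain ⟨C, _, hC⟩ := lpm_ q h'.1 h'.2 B
        refine ⟨C, fun _ _ n m hn hm => ?_, fun h'' => absurd h'' (by linarith)⟩
        have h1 := hC 1 isCoprime_one_left n m hn hm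
        rw [div_le_iff₀ (by positivity)]
        refine le_trans (le_of_eq ?_) h1
        refine sum_congr rfl fun a _ => ?_
        rw [Dn_eq, Dn_eq]
      · exact ⟨0, fun h1 h2 => absurd ⟨h1, h2⟩ h', fun h'' => absurd h'' (by linarith)⟩
  choose M hM using hM
  refine ⟨min c (c ^ 2 / 8), K, M, by positivity, fun n hn => ⟨fun a ha => syr_zero hn ha, fun a ha => ?_, fun a => ?_, ?_, fun a L ha hL h => ?_⟩,
    fun q n hn => ⟨fun h => big h hn, fun h => hK q h n hn⟩, ⟨fun p B n m h1 h2 => (hM p B).1 h1 h2 n m, notwo hc hlow⟩,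
    fun q B n h1 h2 => (hM q B).2 h1 n h2, fun n hn => ?_⟩
  · have h1 := hlow n hn a ha
    have h2 := min_le_left c (c ^ 2 / 8)
    rw [Dn_eq] at h1
    rw [div_le_iff₀ (by positivity)]
    linarith
  · have h1 := (cmp_.2 1 isCoprime_one_left n hn).1 a
    rw [Dn_eq, div_pow] at h1
    rw [le_div_iff₀ (by positivity)]
    have h3 : (0 : ℝ) < 3 ^ n := by positivity
    have h2 : (0 : ℝ) < 2 ^ n := by positivity
    have h4 : 3 ^ n * (syr n a * 2 ^ n) ≤ 3 ^ n * (6 * (n : ℝ) ^ 3) := by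
      have h5 : 6 * (n : ℝ) ^ 3 * (3 ^ n / 2 ^ n) * 2 ^ n = 3 ^ n * (6 * (n : ℝ) ^ 3) := by field_simp
      have h6 := mul_le_mul_of_nonneg_right h1 h2.le
      rw [h5] at h6
      linarith
    exact le_of_mul_le_mul_left h4 h3
  · have h1 := (cmp_.2 1 isCoprime_one_left n hn).2
    rw [Dn_eq, div_pow] at h1
    have h3 : (0 : ℝ) < 3 ^ n := by positivity
    have h4 : 3 ^ n * (1 / 2 ^ n) ≤ 3 ^ n * syr n (-1) := by
      rw [mul_one_div]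
      exact h1
    exact le_of_mul_le_mul_left h4 h3
  · have h1 := Dn_pred cmp_ hn ha hL h
    rw [Dn_eq] at h1
    rw [le_div_iff₀ (by positivity)]
    linarith
  · obtain ⟨h1, h2⟩ := second hc hlow hn
    simp only [chf_eq]
    have h3 := hp 1 n
    rw [h3]
    refine ⟨le_trans ?_ h1, h2⟩
    have h4 : (0 : ℝ) ≤ (n : ℝ) - 1 := by
      have : (1 : ℝ) ≤ n := by exact_mod_cast hn
      linarith
    exact mul_le_mul_of_nonneg_right (min_le_right _ _) h4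

end Pool.Agent.Results.MP_edb5be_nt.SyracuseNorms
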