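import Pool.Agent.Q182.KY.Ord
import Pool.Agent.Q154.KY.Chn
import Pool.Agent.Q285.KY.Prf
import Pool.Agent.Q48.KY.FDA
import Pool.Agent.Q48.KY.CRY
import Pool.Agent.Q154.KY.Dua
import Pool.Agent.Q154.KY.Duf
import Pool.Agent.Q48.KY.LE1
import Pool.Agent.Q128.KY.LE2
import Pool.Agent.Q154.KY.Dem
import Pool.Agent.Q95.KY.Xit
import Pool.Agent.Q137.KY.XIL
import Pool.Agent.Q137.KY.YCL
import Pool.Agent.Q137.KY.HLF
import Pool.Agent.Q149.KY.Exc
import Pool.Agent.Q137.KY.FIN
import Pool.Agent.Q128.KY.ROO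

/-! # MP_ee0ae9_al, Q1: full answer (YES), in all types

The key of the commutor image is the inverse of the key: if `b ⊗ b_mu` is a highest weight element of
`B_lam ⊗ B_mu` and the Henriques-Kamnitzer commutor sends it to `c ⊗ b_lam`, then
`key c = (key b)⁻¹`.

Setting: `P` is a finite reduced root datum (Mathlib's `RootPairing` over `ℤ`), `X` its weight
lattice, `b` a base.  A complex semisimple Lie algebra gives such a datum, with `X` the lattice of
integral weights.  The crystal `B_lam` is realised by Littelmann's LS paths of shape `lam`, written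
as words of length `N`: the letter `p j`, `j < N`, an element of the orbit of `lam`, is the direction
of the path on `[j/N, (j+1)/N]`.  Here `N` is any positive number divisible by all nonzero numbers
`⟨x, β^∨⟩`, `x` in the orbit; for such `N` every LS path of shape `lam` has its breaks in `ℤ/N`. -/

namespace Pool.Agent.Results.MP_ee0ae9_al.KeyCommutor

open Relation

variable {ι X Y : Type} [AddCommGroup X] [AddCommGroup Y] {P : RootPairing ι ℤ X Y} (b : P.Base)

/-! ## The Weyl group -/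

/-- the Weyl group, generated by the simple reflections, acting on the weight lattice -/
def W : Subgroup (X ≃ₗ[ℤ] X) := Subgroup.closure {g | ∃ i ∈ b.support, g = P.reflection i}

/-- the product of the simple reflections of a word -/
def wd (l : List b.support) : X ≃ₗ[ℤ] X := (l.map fun i => P.reflection i).prod

/-- `l` is a reduced word of `w` -/
def Reduced (w : X ≃ₗ[ℤ] X) (l : List b.support) : Prop :=
  wd b l = w ∧ ∀ l', wd b l' = w → l.length ≤ l'.length

/-- the length of `w` -/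
noncomputable def len (w : X ≃ₗ[ℤ] X) : ℕ := sInf {n | ∃ l, wd b l = w ∧ l.length = n}

/-- `w` is the longest element: it maps all positive roots to negative roots -/
def Longest (w : X ≃ₗ[ℤ] X) : Prop :=
  w ∈ W b ∧ ∀ β, b.IsPos β → ∃ β', b.IsPos β' ∧ w (P.root β) = - P.root β'

/-- dominant weights -/
def Dominant (lam : X) : Prop := ∀ i ∈ b.support, 0 ≤ P.coroot' i lam

/-! ## LS paths -/

/-- the orbit of a weight -/
def orbit (lam : X) : Set X := {x | ∃ w ∈ W b, x = w lam}

/-- the number of positive roots negative on `x`; for `x = w lam`, `lam` dominant, this is the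
length of the minimal representative of the coset of `w` modulo the stabiliser of `lam` -/
noncomputable def ell (x : X) : ℕ := {β | b.IsPos β ∧ P.coroot' β x < 0}.ncard

/-- `x < y = s_β x` is a cover and `(j/N)⟨x, β^∨⟩` is an integer -/
def Step (N j : ℕ) (x y : X) : Prop :=
  ∃ β, b.IsPos β ∧ 0 < P.coroot' β x ∧ y = P.reflection β x ∧ ell b y = ell b x + 1 ∧
    (N : ℤ) ∣ (j : ℤ) * P.coroot' β x

/-- the condition on the denominator `N` -/
def Adm (lam : X) (N : ℕ) : Prop :=
  0 < N ∧ ∀ x ∈ orbit b lam, ∀ β, b.IsPos β → P.coroot' β x ≠ 0 → P.coroot' β x ∣ (N : ℤ)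

/-- the crystal `B_lam`: LS paths of shape `lam`, as words `p 0, ..., p (N-1)` in the orbit (with
`p j = 0` for `j ≥ N`), such that there is a `j/N`-chain between the directions `p j` (smaller) and
`p (j-1)` (larger) before and after `j/N` -/
def LS (lam : X) (N : ℕ) : Set (ℕ → X) :=
  {p | (∀ j, j < N → p j ∈ orbit b lam) ∧ (∀ j, N ≤ j → p j = 0) ∧
    ∀ j, j + 1 < N → ReflTransGen (Step b N (j + 1)) (p (j + 1)) (p j)}

/-- `N` times the height `⟨π(j/N), α_i^∨⟩` of the path -/
def H (i : b.support) (p : ℕ → X) (j : ℕ) : ℤ := ∑ k ∈ Finset.range j, P.coroot' i (p k)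

/-- `N` times the minimum of the height -/
def mn (i : b.support) (N : ℕ) (p : ℕ → X) : ℤ :=
  (Finset.range (N + 1)).inf' ⟨0, by simp⟩ (H b i p)

/-- Littelmann's root operator: `F_i p = q`.  Here `s` is the last place where the height takes its
minimum, `t` the first place after `s` where it is at least the minimum plus `1`; the letters between
`s` and `t` are reflected -/
def F (i : b.support) (N : ℕ) (p q : ℕ → X) : Prop :=
  ∃ s t, s < t ∧ t ≤ N ∧ H b i p s = mn b i N p ∧ (∀ j, s < j → j ≤ N → mn b i N p < H b i p j) ∧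
    mn b i N p + N ≤ H b i p t ∧ (∀ j, s < j → j < t → H b i p j < mn b i N p + N) ∧
    (∀ j, s ≤ j → j < t → q j = P.reflection i (p j)) ∧ ∀ j, ¬ (s ≤ j ∧ j < t) → q j = p j

/-- `ε_i` -/
def eps (i : b.support) (N : ℕ) (p : ℕ → X) : ℤ := - mn b i N p / N

/-- `φ_i` -/
def phi (i : b.support) (N : ℕ) (p : ℕ → X) : ℤ := (H b i p N - mn b i N p) / N

open Classical in
/-- the highest weight element `b_lam`: the straight path -/
noncomputable def top (lam : X) (N : ℕ) : ℕ → X := fun j => if j < N then lam else 0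

open Classical in
/-- the Schützenberger-Lusztig involution: `w0` times the reversed word -/
noncomputable def xi (w0 : X ≃ₗ[ℤ] X) (N : ℕ) (p : ℕ → X) : ℕ → X :=
  fun j => if j < N then w0 (p (N - 1 - j)) else 0

/-! ## Tensor products -/

/-- the set `B_mu ⊗ B_lam` -/
def TB (mu lam : X) (M N : ℕ) : Set ((ℕ → X) × (ℕ → X)) := {u | u.1 ∈ LS b mu M ∧ u.2 ∈ LS b lam N}

/-- `F_i (p ⊗ q) = p' ⊗ q'`, where `F_i (p ⊗ q)` is `p ⊗ F_i q` if `ε_i p < φ_i q`, and `F_i p ⊗ q`
otherwise -/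
def TF (i : b.support) (M N : ℕ) (u u' : (ℕ → X) × (ℕ → X)) : Prop :=
  (eps b i M u.1 < phi b i N u.2 ∧ u'.1 = u.1 ∧ F b i N u.2 u'.2) ∨
  (phi b i N u.2 ≤ eps b i M u.1 ∧ F b i M u.1 u'.1 ∧ u'.2 = u.2)

/-- `u` is a highest weight element of `B_mu ⊗ B_lam`: it is not in the image of any `F_i` -/
def HW (mu lam : X) (M N : ℕ) (u : (ℕ → X) × (ℕ → X)) : Prop :=
  u ∈ TB b mu lam M N ∧ ∀ i, ∀ u' ∈ TB b mu lam M N, ¬ TF b i M N u' u

/-- `u` and `u'` are in the same connected component of `B_mu ⊗ B_lam` -/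
def Conn (mu lam : X) (M N : ℕ) : (ℕ → X) × (ℕ → X) → (ℕ → X) × (ℕ → X) → Prop :=
  EqvGen fun u u' => u ∈ TB b mu lam M N ∧ u' ∈ TB b mu lam M N ∧ ∃ i, TF b i M N u u'

/-- `σ (p ⊗ b_mu) = c ⊗ b_lam`: the element `c ⊗ b_lam` is the highest weight element of the
component of the lowest weight element `ξ(b_mu) ⊗ ξ(p)`, i.e. `ξ_{B_mu ⊗ B_lam} (ξ(b_mu) ⊗ ξ(p))` -/
def Commutor (w0 : X ≃ₗ[ℤ] X) (lam mu : X) (N M : ℕ) (p c : ℕ → X) : Prop :=
  HW b mu lam M N (c, top lam N) ∧
    Conn b mu lam M N (c, top lam N) (xi w0 M (top mu M), xi w0 N p)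

/-! ## Demazure crystals and keys -/

/-- all `F_{i_1}^{a_1} ... F_{i_k}^{a_k} b_lam` -/
def DemWord (lam : X) (N : ℕ) : List b.support → Set (ℕ → X)
  | [] => {top lam N}
  | i :: l => {p | ∃ p' ∈ DemWord lam N l, ReflTransGen (F b i N) p' p}

/-- the Demazure crystal `B_w(lam)` -/
def Demazure (lam : X) (N : ℕ) (w : X ≃ₗ[ℤ] X) : Set (ℕ → X) :=
  {p | ∃ l, Reduced b w l ∧ p ∈ DemWord b lam N l}

/-- `w` is the key of `p`: `B_w(lam)` is the smallest Demazure crystal containing `p`, and `w` has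
minimal length in the coset `w W_lam` -/
def IsKey (lam : X) (N : ℕ) (p : ℕ → X) (w : X ≃ₗ[ℤ] X) : Prop :=
  w ∈ W b ∧ p ∈ Demazure b lam N w ∧
  (∀ v ∈ W b, p ∈ Demazure b lam N v → Demazure b lam N w ⊆ Demazure b lam N v) ∧
  ∀ u ∈ W b, u lam = lam → len b w ≤ len b (w * u)

/-! ## Translation to the helper files -/

open Pool.Agent.Q55.KY

section tr

theorem refl_eq (i : ι) (x : X) : P.reflection i x = x - P.coroot' i x • P.root i :=
  P.reflection_apply i x

theorem s_eq (β : {i : ι // b.IsPos i}) (x : X) : (dat P b).s β x = P.reflection β x :=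
  (refl_eq _ _).symm

theorem act_eq (l : List b.support) (x : X) : (dat P b).act l x = wd b l x := by
  induction l with
  | nil => simp [wd, Dat.act]
  | cons i l ih =>
    rw [Dat.act, s_eq, ih]
    simp [wd, dat]

theorem wd_mem (l : List b.support) : wd b l ∈ W b := by
  induction l with
  | nil => simp [wd]
  | cons i l ih =>
    have : wd b (i :: l) = P.reflection i * wd b l := by simp [wd]
    rw [this]
    exact (W b).mul_mem (Subgroup.subset_closure ⟨i, i.2, rfl⟩) ih

theorem wd_append (l l' : List b.support) : wd b (l ++ l') = wd b l * wd b l' := by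
  simp [wd]

theorem wd_inv (l : List b.support) : (wd b l)⁻¹ = wd b l.reverse := by
  induction l with
  | nil => simp [wd]
  | cons i l ih =>
    have h1 : wd b (i :: l) = P.reflection i * wd b l := by simp [wd]
    have h2 : (P.reflection (i : ι))⁻¹ = P.reflection i := by
      rw [inv_eq_iff_mul_eq_one]
      ext x
      simp
    rw [h1, mul_inv_rev, ih, h2, List.reverse_cons, wd_append]
    simp [wd]

theorem mem_W {w : X ≃ₗ[ℤ] X} (hw : w ∈ W b) : ∃ l, wd b l = w := by
  induction hw using Subgroup.closure_induction with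
  | mem x hx =>
    obtain ⟨i, hi, rfl⟩ := hx
    exact ⟨[⟨i, hi⟩], by simp [wd]⟩
  | one => exact ⟨[], by simp [wd]⟩
  | mul x y _ _ hx hy =>
    obtain ⟨l, rfl⟩ := hx
    obtain ⟨l', rfl⟩ := hy
    exact ⟨l ++ l', wd_append b l l'⟩
  | inv x _ hx =>
    obtain ⟨l, rfl⟩ := hx
    exact ⟨l.reverse, (wd_inv b l).symm⟩

theorem orbit_eq (lam : X) : orbit b lam = (dat P b).orb lam := by
  ext x
  constructor
  · rintro ⟨w, hw, rfl⟩
    obtain ⟨l, rfl⟩ := mem_W b hw
    exact ⟨l, (act_eq b l lam).symm⟩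
  · rintro ⟨l, rfl⟩
    exact ⟨wd b l, wd_mem b l, act_eq b l lam⟩

theorem dom_iff (lam : X) : Dominant b lam ↔ (dat P b).Dom lam :=
  ⟨fun h i => h i i.2, fun h i hi => h ⟨i, hi⟩⟩

theorem ell_eq (x : X) : ell b x = (dat P b).ell x := by
  have : {β | b.IsPos β ∧ P.coroot' β x < 0} =
      Subtype.val '' {β : {i : ι // b.IsPos i} | (dat P b).ct β x < 0} := by
    ext β
    constructor
    · rintro ⟨h1, h2⟩
      exact ⟨⟨β, h1⟩, h2, rfl⟩
    · rintro ⟨β', h, rfl⟩
      exact ⟨β'.2, h⟩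
  rw [ell, this, Set.ncard_image_of_injective _ Subtype.val_injective]
  rfl

theorem step_eq (N j : ℕ) : Step b N j = (dat P b).St N j := by
  funext x y
  apply propext
  constructor
  · rintro ⟨β, hβ, h1, h2, h3, h4⟩
    refine ⟨⟨β, hβ⟩, h1, ?_, ?_, h4⟩
    · rw [h2]; exact (s_eq b ⟨β, hβ⟩ x).symm
    · rw [← ell_eq, ← ell_eq]; exact h3
  · rintro ⟨β, h1, h2, h3, h4⟩
    refine ⟨β, β.2, h1, ?_, ?_, h4⟩
    · rw [h2]; exact s_eq b β x
    · rw [ell_eq, ell_eq]; exact h3

theorem adm_iff (lam : X) (N : ℕ) : Adm b lam N ↔ (dat P b).Adm lam N := by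
  rw [Adm, Dat.Adm, orbit_eq]
  exact and_congr_right fun _ => ⟨fun h x hx β => h x hx β β.2, fun h x hx β hβ => h x hx ⟨β, hβ⟩⟩

theorem LS_eq (lam : X) (N : ℕ) : LS b lam N = (dat P b).LS lam N := by
  rw [LS, Dat.LS, orbit_eq]
  simp only [step_eq]
  rfl

theorem H_eq (i : b.support) : H b i = (dat P b).H i := rfl

theorem mn_eq (i : b.support) : mn b i = (dat P b).mn i := rfl

theorem eps_eq (i : b.support) : eps b i = (dat P b).eps i := rfl

theorem phi_eq (i : b.support) : phi b i = (dat P b).phi i := rfl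

theorem F_eq (i : b.support) (N : ℕ) : F b i N = (dat P b).F i N := by
  funext p q
  apply propext
  constructor
  · rintro ⟨s, t, h1, h2, h3, h4, h5, h6, h7, h8⟩
    refine ⟨s, t, ⟨h1, h2, h3, h4, h5, h6⟩, ?_⟩
    funext j
    by_cases h : s ≤ j ∧ j < t
    · rw [h7 j h.1 h.2]
      simp only [Dat.rf, if_pos h]
      exact (s_eq b ((dat P b).sm i) (p j)).symm
    · rw [h8 j h]
      simp only [Dat.rf, if_neg h]
  · rintro ⟨s, t, ⟨h1, h2, h3, h4, h5, h6⟩, rfl⟩
    refine ⟨s, t, h1, h2, h3, h4, h5, h6, ?_, ?_⟩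
    · intro j h7 h8
      simp only [Dat.rf, if_pos (And.intro h7 h8)]
      exact s_eq b ((dat P b).sm i) (p j)
    · intro j h
      simp only [Dat.rf, if_neg h]

theorem top_eq (lam : X) (N : ℕ) : top lam N = Dat.bw lam N := rfl

theorem xi_eq (l : List b.support) (N : ℕ) (p : ℕ → X) :
    xi (wd b l) N p = Dat.xi ((dat P b).act l) N p := by
  have : (dat P b).act l = wd b l := funext fun x => act_eq b l x
  rw [this]
  rfl

theorem TB_eq (mu lam : X) (M N : ℕ) : TB b mu lam M N = (dat P b).TB mu lam M N := by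
  rw [TB, Dat.TB, LS_eq, LS_eq]

theorem TF_eq (i : b.support) (M N : ℕ) : TF b i M N = (dat P b).TF i M N := by
  funext u u'
  rw [TF, Dat.TF, F_eq, F_eq]
  rfl

theorem HW_iff (mu lam : X) (M N : ℕ) (u : (ℕ → X) × (ℕ → X)) :
    HW b mu lam M N u ↔ (dat P b).HW mu lam M N u := by
  rw [HW, Dat.HW, TB_eq]
  simp only [TF_eq]

theorem Conn_eq (mu lam : X) (M N : ℕ) : Conn b mu lam M N = (dat P b).Con mu lam M N := by
  rw [Conn, Dat.Con]
  simp only [TB_eq, TF_eq]

theorem Dem_eq (lam : X) (N : ℕ) (l : List b.support) :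
    DemWord b lam N l = (dat P b).Dem lam N l := by
  induction l with
  | nil => rfl
  | cons i l ih => rw [DemWord, Dat.Dem, ih, F_eq]

theorem wd_eq_iff (l l' : List b.support) :
    wd b l = wd b l' ↔ ∀ x, (dat P b).act l x = (dat P b).act l' x := by
  constructor
  · intro h x
    rw [act_eq, act_eq, h]
  · intro h
    ext x
    rw [← act_eq, ← act_eq, h]

theorem red_iff (l : List b.support) : Reduced b (wd b l) l ↔ (dat P b).Red l := by
  constructor
  · intro h l' hl'
    exact h.2 l' ((wd_eq_iff b l' l).2 hl')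
  · intro h
    exact ⟨rfl, fun l' hl' => h l' ((wd_eq_iff b l' l).1 hl')⟩

theorem exists_red {w : X ≃ₗ[ℤ] X} (hw : w ∈ W b) : ∃ l, Reduced b w l := by
  obtain ⟨l, hl⟩ := mem_W b hw
  have hne : {n | ∃ l, wd b l = w ∧ l.length = n}.Nonempty := ⟨l.length, l, hl, rfl⟩
  obtain ⟨l', hl', hn⟩ := Nat.sInf_mem hne
  refine ⟨l', hl', fun l'' hl'' => ?_⟩
  rw [hn]
  exact Nat.sInf_le ⟨l'', hl'', rfl⟩

theorem len_eq {w : X ≃ₗ[ℤ] X} {l : List b.support} (h : Reduced b w l) : len b w = l.length := by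
  apply le_antisymm
  · exact Nat.sInf_le ⟨l, h.1, rfl⟩
  · have hne : {n | ∃ l, wd b l = w ∧ l.length = n}.Nonempty := ⟨l.length, l, h.1, rfl⟩
    obtain ⟨l', hl', hn⟩ := Nat.sInf_mem hne
    rw [len, ← hn]
    exact h.2 l' hl'

end tr

/-- the keys: translation -/
theorem key_iff {lam : X} {N : ℕ} (hdem : (dat P b).DemF lam N) {p : ℕ → X} {w : X ≃ₗ[ℤ] X} :
    IsKey b lam N p w ↔ ∃ l, Reduced b w l ∧ (dat P b).Key lam N p l := by
  have hD : ∀ {v l}, Reduced b v l → Demazure b lam N v = (dat P b).Dem lam N l := by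
    intro v l hl
    obtain ⟨h1, h2⟩ := hl
    subst h1
    ext q
    constructor
    · rintro ⟨l', hl', hq⟩
      rw [Dem_eq] at hq
      have hr' : (dat P b).Red l' := by
        have := hl'
        rw [← hl'.1] at this
        exact (red_iff b l').1 this
      have hr : (dat P b).Red l := (red_iff b l).1 ⟨rfl, h2⟩
      rw [hdem.dem l' hr'] at hq
      rw [hdem.dem l hr]
      refine ⟨hq.1, ?_⟩
      have := (wd_eq_iff b l' l).1 hl'.1 lam
      rw [← this]
      exact hq.2
    · intro hq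
      exact ⟨l, ⟨rfl, h2⟩, by rw [Dem_eq]; exact hq⟩
  constructor
  · rintro ⟨hw, hp, h3, h4⟩
    obtain ⟨l, hl⟩ := exists_red b hw
    refine ⟨l, hl, ?_⟩
    have hlw : wd b l = w := hl.1
    have hr : (dat P b).Red l := by
      refine (red_iff b l).1 ?_
      rw [hlw]; exact hl
    refine ⟨hr, ?_, ?_, ?_⟩
    · rw [← hD hl]; exact hp
    · intro l' hl' hp'
      have hl'' : Reduced b (wd b l') l' := (red_iff b l').2 hl'
      rw [← hD hl, ← hD hl'']
      rw [← hD hl''] at hp'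
      exact h3 _ (wd_mem b l') hp'
    · intro l' hl'
      rw [act_eq, act_eq, hlw] at hl'
      have h5 := h4 (w⁻¹ * wd b l') ((W b).mul_mem ((W b).inv_mem hw) (wd_mem b l')) (by
        rw [LinearEquiv.mul_apply, hl', ← LinearEquiv.mul_apply, inv_mul_cancel]
        rfl)
      rw [mul_inv_cancel_left] at h5
      rw [len_eq b hl] at h5
      exact h5.trans (Nat.sInf_le ⟨l', rfl, rfl⟩)
  · rintro ⟨l, hl, hr, hp, h3, h4⟩
    have hlw : wd b l = w := hl.1
    refine ⟨by rw [← hlw]; exact wd_mem b l, ?_, ?_, ?_⟩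
    · rw [hD hl]; exact hp
    · intro v hv hpv
      obtain ⟨l', hl'⟩ := exists_red b hv
      rw [hD hl'] at hpv ⊢
      rw [hD hl]
      refine h3 l' ?_ hpv
      refine (red_iff b l').1 ?_
      rw [hl'.1]; exact hl'
    · intro u hu hul
      obtain ⟨l', hl'⟩ := exists_red b ((W b).mul_mem ((hlw ▸ wd_mem b l : w ∈ W b)) hu)
      rw [len_eq b hl, len_eq b hl']
      apply h4
      rw [act_eq, act_eq, hl'.1, LinearEquiv.mul_apply, hul, hlw]

/-- all the facts for one weight -/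
theorem allF (hOrd : S_Ord) (hChn : S_Chn) (hHnt : S_Hnt) (hFda : S_Fda) (hPrf : S_Prf)
    (hCry : S_Cry) (hDua : S_Dua) (hDuf : S_Duf) (hLe1 : S_Le1) (hDem : S_Dem) (hXil : S_Xil)
    {R I X : Type} [AddCommGroup X] [Finite R] (E : Dat R I X) (hE : E.Ax) (l0 : List I)
    (θ : I → I) (hθ : E.XitF l0 θ) (lam : X) (N : ℕ) (hd : E.Dom lam) (ha : E.Adm lam N) :
    E.AllF l0 θ lam N := by
  have o := hOrd R I X E hE
  have c := hChn R I X E hE o
  have le := hLe1 R I X E hE o
  have hp : ∀ (i : I) (p : ℕ → X) (a b : ℕ), E.FD i N p a b → E.PF i N p a b :=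
    fun i p a b => hPrf R I X E o i N p a b
  have cry : ∀ lam, E.Adm lam N → E.CryF lam N := by
    intro lam ha
    have hn := hHnt R I X E hE c lam N ha
    exact hCry R I X E hE o lam N ha hn
      (fun p hp i => hFda R I X E hE o c lam N ha p hp i (hn p hp i)) hp
  have dua : ∀ lam, E.Adm lam N → E.DuaF lam N := fun lam ha => hDua R I X E hE o lam N ha
  have cr2 := hDuf R I X E hE o N hp (fun lam ha => ⟨cry lam ha, dua lam ha⟩)
  exact ⟨hd, ha, cry lam ha, cr2 lam ha,
    hDem R I X E hE o c le lam N hd ha (cry lam ha) (cr2 lam ha),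
    hXil R I X E hE o le l0 θ hθ N (fun lam ha => ⟨dua lam ha, cr2 lam ha⟩) lam ha⟩

/-- the theorem, from the helper statements -/
theorem assemble (hOrd : S_Ord) (hChn : S_Chn) (hHnt : S_Hnt) (hFda : S_Fda) (hPrf : S_Prf)
    (hCry : S_Cry) (hDua : S_Dua) (hDuf : S_Duf) (hLe1 : S_Le1) (hLe2 : S_Le2) (hDem : S_Dem)
    (hXit : S_Xit) (hXil : S_Xil) (hYcl : S_Ycl) (hHlf : S_Hlf) (hExc : S_Exc) (hThe : S_The)
    (hFin : S_Fin) (hRoo : S_Roo)
    {ι X Y : Type} [Finite ι] [AddCommGroup X] [AddCommGroup Y] (P : RootPairing ι ℤ X Y)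
    [P.IsReduced] (b : P.Base) (lam mu : X) (hlam : Dominant b lam) (hmu : Dominant b mu) :
    (∃! w0, Longest b w0) ∧ (∃ N, Adm b lam N) ∧
    ∀ w0, Longest b w0 → ∀ N M, Adm b lam N → Adm b mu M →
      -- the involution `xi` of `B_lam` exchanges `F_i` and `E_{θ i}`
      (∃ θ : b.support → b.support, (∀ i, P.root (θ i) = - w0 (P.root i)) ∧
        ∀ p ∈ LS b lam N, xi w0 N p ∈ LS b lam N ∧ xi w0 N (xi w0 N p) = p ∧
          ∀ i q, F b i N p q → q ∈ LS b lam N ∧ F b (θ i) N (xi w0 N q) (xi w0 N p)) ∧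
      -- Demazure crystals do not depend on the reduced word, and every element has a unique key
      (∀ w l l', Reduced b w l → Reduced b w l' → DemWord b lam N l = DemWord b lam N l') ∧
      (∀ p ∈ LS b lam N, ∃! w, IsKey b lam N p w) ∧
      -- the commutor image exists
      (∀ p ∈ LS b lam N, ∃ c ∈ LS b mu M, Commutor b w0 lam mu N M p c) ∧
      -- the key of the commutor image is the inverse of the key
      (∀ p ∈ LS b lam N, HW b lam mu N M (p, top mu M) →
        ∀ c ∈ LS b mu M, Commutor b w0 lam mu N M p c →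
        ∀ w v, IsKey b lam N p w → IsKey b mu M c v → v = w⁻¹) := by
  have hE : (dat P b).Ax := hRoo ι X Y P b
  have o := hOrd _ _ X (dat P b) hE
  have le := hLe1 _ _ X (dat P b) hE o
  have le2 := hLe2 _ _ X (dat P b) hE o le
  have hLng : ∀ l, Longest b (wd b l) ↔ (dat P b).Lng l := by
    intro l
    constructor
    · intro h β
      obtain ⟨β', h1, h2⟩ := h.2 β β.2
      refine ⟨⟨β', h1⟩, ?_⟩
      show P.root β' = - (dat P b).act l (P.root β)
      rw [act_eq, h2, neg_neg]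
    · intro h
      refine ⟨wd_mem b l, fun β hβ => ?_⟩
      obtain ⟨β', h1⟩ := h ⟨β, hβ⟩
      refine ⟨β', β'.2, ?_⟩
      have h2 : P.root β' = - (dat P b).act l (P.root β) := h1
      rw [h2, act_eq, neg_neg]
  refine ⟨?_, ?_, ?_⟩
  · obtain ⟨l0, hl0⟩ := le2.lng
    refine ⟨wd b l0, (hLng l0).2 hl0, ?_⟩
    intro w hw
    obtain ⟨l, rfl⟩ := mem_W b hw.1
    have hl := (hLng l).1 hw
    -- `w0⁻¹ w` preserves the positive roots
    rw [wd_eq_iff]
    have h1 : ∀ x, (dat P b).act (l0 ++ l) x = x := by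
      apply le.tri
      intro j
      obtain ⟨β', h2⟩ := hl ((dat P b).sm j)
      obtain ⟨β'', h3⟩ := hl0 β'
      refine ⟨β'', ?_⟩
      rw [h3, h2, le.app]
      have h4 : - (dat P b).act l ((dat P b).rt ((dat P b).sm j)) =
          (-1 : ℤ) • (dat P b).act l ((dat P b).rt ((dat P b).sm j)) := by simp
      rw [h4, le.smul]
      simp
    have h2 : ∀ x, (dat P b).act (l0 ++ l0) x = x := by
      apply le.tri
      intro j
      obtain ⟨β', h2⟩ := hl0 ((dat P b).sm j)
      obtain ⟨β'', h3⟩ := hl0 β'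
      refine ⟨β'', ?_⟩
      rw [h3, h2, le.app]
      have h4 : - (dat P b).act l0 ((dat P b).rt ((dat P b).sm j)) =
          (-1 : ℤ) • (dat P b).act l0 ((dat P b).rt ((dat P b).sm j)) := by simp
      rw [h4, le.smul]
      simp
    intro x
    have h3 := h1 x
    have h4 := h2 x
    rw [le.app] at h3 h4
    have h5 : (dat P b).act l0.reverse ((dat P b).act l0 ((dat P b).act l x)) =
        (dat P b).act l0.reverse ((dat P b).act l0 ((dat P b).act l0 x)) := by rw [h3, h4]
    rwa [le.rev, le.rev] at h5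
  · obtain ⟨N, hN⟩ := le2.adm lam
    exact ⟨N, (adm_iff b lam N).2 hN⟩
  · intro w0 hw0 N M hN hM
    obtain ⟨l0, rfl⟩ := mem_W b hw0.1
    obtain ⟨θ, hθ⟩ := hXit _ _ X (dat P b) hE o le l0 ((hLng l0).1 hw0)
    have A := allF hOrd hChn hHnt hFda hPrf hCry hDua hDuf hLe1 hDem hXil (dat P b) hE l0 θ hθ
      lam N ((dom_iff b lam).1 hlam) ((adm_iff b lam N).1 hN)
    have B := allF hOrd hChn hHnt hFda hPrf hCry hDua hDuf hLe1 hDem hXil (dat P b) hE l0 θ hθ
      mu M ((dom_iff b mu).1 hmu) ((adm_iff b mu M).1 hM)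
    obtain ⟨f1, f2, f3⟩ := hFin hYcl hHlf hExc hThe _ _ X (dat P b) hE o le le2 l0 θ hθ lam mu N M
      A B
    refine ⟨⟨θ, ?_, ?_⟩, ?_, ?_, ?_, ?_⟩
    · intro i
      have := hθ.th i
      rw [act_eq] at this
      exact this
    · intro p hp
      rw [LS_eq] at hp ⊢
      rw [xi_eq, xi_eq]
      refine ⟨A.xil.ls p hp, A.xil.xx p hp, ?_⟩
      intro i q hq
      rw [F_eq] at hq ⊢
      rw [xi_eq]
      exact ⟨A.cry.mem i p hp q hq, A.xil.xF i p hp q hq⟩
    · intro w l l' hl hl'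
      obtain ⟨h1, h2⟩ := hl
      subst h1
      have hr : (dat P b).Red l := (red_iff b l).1 ⟨rfl, h2⟩
      have hr' : (dat P b).Red l' := by
        refine (red_iff b l').1 ?_
        rw [hl'.1]; exact hl'
      rw [Dem_eq, Dem_eq, A.dem.dem l hr, A.dem.dem l' hr', (wd_eq_iff b l' l).1 hl'.1 lam]
    · intro p hp
      rw [LS_eq] at hp
      obtain ⟨l, hl, hu⟩ := f1 p hp
      refine ⟨wd b l, (key_iff b A.dem).2 ⟨l, (red_iff b l).2 hl.1, hl⟩, ?_⟩
      intro w hw
      obtain ⟨l', hl', hk'⟩ := (key_iff b A.dem).1 hw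
      rw [← hl'.1]
      exact (wd_eq_iff b l' l).2 (hu l' hk')
    · intro p hp
      rw [LS_eq] at hp
      obtain ⟨c, hc, h1, h2⟩ := f2 p hp
      refine ⟨c, by rw [LS_eq]; exact hc, ?_, ?_⟩
      · rw [HW_iff, top_eq]; exact h1
      · rw [Conn_eq, xi_eq, xi_eq, top_eq, top_eq]; exact h2
    · intro p hp hhw c hc hcom w v hw hv
      rw [LS_eq] at hp hc
      rw [HW_iff, top_eq] at hhw
      obtain ⟨h1, h2⟩ := hcom
      rw [HW_iff, top_eq] at h1
      rw [Conn_eq, xi_eq, xi_eq, top_eq, top_eq] at h2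
      obtain ⟨lw, hlw, hkw⟩ := (key_iff b A.dem).1 hw
      obtain ⟨lv, hlv, hkv⟩ := (key_iff b B.dem).1 hv
      have h3 := f3 p hp hhw c hc h1 h2 lw lv hkw hkv
      rw [← hlw.1, ← hlv.1, wd_inv]
      exact (wd_eq_iff b lv lw.reverse).2 h3

/-- **MP_ee0ae9_al, Q1 (YES, in all types).**  Let `P` be a finite reduced root datum with base `b`,
`lam`, `mu` dominant.  For every highest weight element `p ⊗ b_mu` of `B_lam ⊗ B_mu` with commutor
image `c ⊗ b_lam` the key of `c` is the inverse of the key of `p`. -/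
theorem result
    {ι X Y : Type} [Finite ι] [AddCommGroup X] [AddCommGroup Y] (P : RootPairing ι ℤ X Y)
    [P.IsReduced] (b : P.Base) (lam mu : X) (hlam : Dominant b lam) (hmu : Dominant b mu) :
    (∃! w0, Longest b w0) ∧ (∃ N, Adm b lam N) ∧
    ∀ w0, Longest b w0 → ∀ N M, Adm b lam N → Adm b mu M →
      -- the involution `xi` of `B_lam` exchanges `F_i` and `E_{θ i}`
      (∃ θ : b.support → b.support, (∀ i, P.root (θ i) = - w0 (P.root i)) ∧
        ∀ p ∈ LS b lam N, xi w0 N p ∈ LS b lam N ∧ xi w0 N (xi w0 N p) = p ∧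
          ∀ i q, F b i N p q → q ∈ LS b lam N ∧ F b (θ i) N (xi w0 N q) (xi w0 N p)) ∧
      -- Demazure crystals do not depend on the reduced word, and every element has a unique key
      (∀ w l l', Reduced b w l → Reduced b w l' → DemWord b lam N l = DemWord b lam N l') ∧
      (∀ p ∈ LS b lam N, ∃! w, IsKey b lam N p w) ∧
      -- the commutor image exists
      (∀ p ∈ LS b lam N, ∃ c ∈ LS b mu M, Commutor b w0 lam mu N M p c) ∧
      -- the key of the commutor image is the inverse of the key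
      (∀ p ∈ LS b lam N, HW b lam mu N M (p, top mu M) →
        ∀ c ∈ LS b mu M, Commutor b w0 lam mu N M p c →
        ∀ w v, IsKey b lam N p w → IsKey b mu M c v → v = w⁻¹) :=
  assemble Pool.Agent.Q182.KY.ord Pool.Agent.Q154.KY.chn Pool.Agent.Q285.KY.hnt
    Pool.Agent.Q48.KY.fda Pool.Agent.Q285.KY.prf Pool.Agent.Q48.KY.cry Pool.Agent.Q154.KY.dua
    Pool.Agent.Q154.KY.duf Pool.Agent.Q48.KY.le1 Pool.Agent.Q128.KY.le2 Pool.Agent.Q154.KY.dem
    Pool.Agent.Q95.KY.xit Pool.Agent.Q137.KY.xil Pool.Agent.Q137.KY.ycl Pool.Agent.Q137.KY.hlf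
    Pool.Agent.Q149.KY.exc Pool.Agent.Q285.KY.the Pool.Agent.Q137.KY.fin Pool.Agent.Q128.KY.roo
    P b lam mu hlam hmu

end Pool.Agent.Results.MP_ee0ae9_al.KeyCommutor
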