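import Pool.Agent.Q258.PiE.B

/-!
# Rationality of `n ^ π`: all exceptions are the powers of one integer

Unconditional. Proof: the strong six exponentials theorem of D. Roy and Baker's theorem (starting
library, `Pool.Agent.H301R2.SSE`, `Pool.Agent.H297R2`), and the files `Pool.Agent.H462R2.PiE`,
`PiE2` of the starting library.
-/

set_option autoImplicit false

namespace Pool.Agent.Results.MP_ee2255_nt.OneProgressionForPi

theorem result :
    -- the integers `n ≥ 2` with `n ^ π` rational: none, or the powers of one integer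
    ((∀ n : ℕ, 2 ≤ n → Irrational ((n : ℝ) ^ Real.pi)) ∨
      ∃ c : ℕ, 2 ≤ c ∧ ∀ n : ℕ, 2 ≤ n →
        (¬ Irrational ((n : ℝ) ^ Real.pi) ↔ ∃ k : ℕ, 1 ≤ k ∧ n = c ^ k)) ∧
    -- the integers `n ≥ 2` with `n ^ π` algebraic: none, or the powers of one integer
    ((∀ n : ℕ, 2 ≤ n → Transcendental ℚ ((n : ℝ) ^ Real.pi)) ∨
      ∃ c : ℕ, 2 ≤ c ∧ ∀ n : ℕ, 2 ≤ n →
        (IsAlgebraic ℚ ((n : ℝ) ^ Real.pi) ↔ ∃ k : ℕ, 1 ≤ k ∧ n = c ^ k)) :=
  ⟨Pool.Agent.Q258.PiE.pi_rat, Pool.Agent.Q258.PiE.pi_struct⟩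

end Pool.Agent.Results.MP_ee2255_nt.OneProgressionForPi
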