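import Pool.Agent.Q258.PiE.B

/-!
# Rationality of `n ^ π` and `n ^ e`: all exceptions for `π` are the powers of one integer

Unconditional. Proof: the strong six exponentials theorem of D. Roy and Baker's theorem (starting
library, `Pool.Agent.H301R2.SSE`, `Pool.Agent.H297R2`), and the files `Pool.Agent.H462R2.PiE`,
`PiE2` of the starting library.
-/

set_option autoImplicit false

namespace Pool.Agent.Results.MP_ee2255_nt.PowersOfOneInteger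

open Classical in
theorem result :
    -- the integers `n ≥ 2` with `n ^ π` rational: none, or the powers of one integer
    ((∀ n : ℕ, 2 ≤ n → Irrational ((n : ℝ) ^ Real.pi)) ∨
      ∃ c : ℕ, 2 ≤ c ∧ ∀ n : ℕ, 2 ≤ n →
        (¬ Irrational ((n : ℝ) ^ Real.pi) ↔ ∃ k : ℕ, 1 ≤ k ∧ n = c ^ k)) ∧
    -- the integers `n ≥ 2` with `n ^ π` algebraic: none, or the powers of one integer
    ((∀ n : ℕ, 2 ≤ n → Transcendental ℚ ((n : ℝ) ^ Real.pi)) ∨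
      ∃ c : ℕ, 2 ≤ c ∧ ∀ n : ℕ, 2 ≤ n →
        (IsAlgebraic ℚ ((n : ℝ) ^ Real.pi) ↔ ∃ k : ℕ, 1 ≤ k ∧ n = c ^ k)) ∧
    -- counting
    (∀ N : ℕ, ((Finset.Icc 2 N).filter (fun n : ℕ => IsAlgebraic ℚ ((n : ℝ) ^ Real.pi) ∨
      IsAlgebraic ℚ ((n : ℝ) ^ Real.exp 1))).card ≤ (Nat.log 2 N + 2) ^ 2) ∧
    -- every `n` for which `n ^ π` is algebraic
    (∀ n : ℕ, 2 ≤ n → IsAlgebraic ℚ ((n : ℝ) ^ Real.pi) →
      Transcendental ℚ ((n : ℝ) ^ (Real.pi * Real.pi)) ∧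
      (IsAlgebraic ℚ ((n : ℝ) ^ Real.exp 1) →
        Transcendental ℚ ((n : ℝ) ^ (Real.pi * Real.exp 1))) ∧
      ∀ β l : ℂ, IsAlgebraic ℚ β → IsAlgebraic ℚ (Complex.exp l) →
        Transcendental ℚ ((Real.pi : ℂ) ^ 2 + β * l)) ∧
    -- two multiplicatively independent `m, n` for which `m ^ e`, `n ^ e` are algebraic
    (∀ m n : ℕ, 2 ≤ m → 2 ≤ n → (∀ a b : ℕ, 1 ≤ a → 1 ≤ b → m ^ a ≠ n ^ b) →
      IsAlgebraic ℚ ((m : ℝ) ^ Real.exp 1) → IsAlgebraic ℚ ((n : ℝ) ^ Real.exp 1) →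
      ∀ β l : ℂ, IsAlgebraic ℚ β → IsAlgebraic ℚ (Complex.exp l) →
        Transcendental ℚ ((Real.exp 1 : ℂ) + β * l) ∧
        Transcendental ℚ ((Real.exp 1 : ℂ) * ((Real.pi : ℂ) + β))) ∧
    -- every `n` for which `n ^ e`, `n ^ (e²)` are algebraic
    (∀ n : ℕ, 2 ≤ n → IsAlgebraic ℚ ((n : ℝ) ^ Real.exp 1) →
      IsAlgebraic ℚ ((n : ℝ) ^ (Real.exp 1 * Real.exp 1)) →
      ∀ β l : ℂ, IsAlgebraic ℚ β → IsAlgebraic ℚ (Complex.exp l) →
        Transcendental ℚ ((Real.exp 1 : ℂ) + β * l) ∧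
        Transcendental ℚ ((Real.exp 1 : ℂ) * ((Real.pi : ℂ) + β))) := by
  refine ⟨Pool.Agent.Q258.PiE.pi_rat, Pool.Agent.Q258.PiE.pi_struct, ?_, ?_, ?_, ?_⟩
  · intro N
    convert Pool.Agent.H462R2.PiE.count N using 2
  · intro n hn h
    refine ⟨?_, ?_, ?_⟩
    · exact Pool.Agent.Q258.PiE.pi_pair n hn Real.pi irrational_pi h h
    · intro h2
      exact Pool.Agent.Q258.PiE.pi_pair n hn (Real.exp 1)
        (Pool.Agent.H340R2.LW.transcendental_exp_one).irrational h h2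
    · intro β l hβ hl
      exact Pool.Agent.Q258.PiE.pi_sq n hn h β l hβ hl
  · intro m n hm hn hmn h1 h2 β l hβ hl
    refine Pool.Agent.Q258.PiE.e_two m n hm hn ?_ h1 h2 β l hβ hl
    by_contra hi
    obtain ⟨a, b, ha, hb, hab⟩ := Pool.Agent.Q258.PiE.dep_pow m n hm hn hi
    exact hmn a b ha hb hab
  · intro n hn h1 h2 β l hβ hl
    exact Pool.Agent.Q258.PiE.e_sq n hn h1 h2 β l hβ hl

end Pool.Agent.Results.MP_ee2255_nt.PowersOfOneInteger
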