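import Mathlib
import Pool.Agent.Q263.WR.I
set_option autoImplicit false

/-!
# Local smoothing for data randomized over blocks of frequencies

The Fourier transforms of the data of the wave equation in `ℝ^d` are multiplied by independent,
centred random factors, one for each block of a partition of `ℤ^d` into finite blocks. If the block
of `k` has at most `A (1 + |k|)^β` points, the solution is estimated, at a fixed time or on average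
over `[1,2]`, with a loss of any number of derivatives above `β(1/2 - 1/p)`; for bounded blocks there
is no loss. The exponents of the local smoothing conjecture are reached for `β ≤ d - p/(p-2)`.
-/

namespace Pool.Agent.Results.MP_ee74d2_an.RandomBlocks

open MeasureTheory Set Complex ProbabilityTheory
open scoped ENNReal NNReal

variable {d : ℕ}

/-- The Euclidean norm. -/
noncomputable def nrm (ξ : Fin d → ℝ) : ℝ := Real.sqrt (∑ i, ξ i ^ 2)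

/-- `exp(2πi x·ξ)`. -/
noncomputable def chr (x ξ : Fin d → ℝ) : ℂ := cexp (2 * Real.pi * I * ((∑ i, x i * ξ i : ℝ) : ℂ))

/-- The Fourier transform `∫ exp(-2πi x·ξ) f(x) dx`. -/
noncomputable def ft (f : (Fin d → ℝ) → ℂ) (ξ : Fin d → ℝ) : ℂ := ∫ x, chr (-x) ξ * f x

/-- The symbol of `(1 - Δ)^(a/2)`. -/
noncomputable def bessel (a : ℝ) (ξ : Fin d → ℝ) : ℝ := (1 + 4 * Real.pi ^ 2 * nrm ξ ^ 2) ^ (a / 2)

/-- `cos²(πx/2)` for `|x| ≤ 1`, and zero elsewhere; the translates by the integers sum to one. -/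
noncomputable def bump (x : ℝ) : ℝ := if |x| ≤ 1 then Real.cos (Real.pi / 2 * x) ^ 2 else 0

/-- The random multiplier `∑ u_{c(k)} ∏ bump(ξ_i - k_i)`, the sum over `k ∈ ℤ^d`: the factor `u_i` for
the block `c⁻¹(i)`. -/
noncomputable def multiplier (c : (Fin d → ℤ) → ℕ) (u : ℕ → ℂ) (ξ : Fin d → ℝ) : ℂ :=
  ∑' k : Fin d → ℤ, u (c k) * ((∏ i, bump (ξ i - k i) : ℝ) : ℂ)

/-- The function `f^u` whose Fourier transform is that of `f` times the multiplier. -/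
noncomputable def randomize (c : (Fin d → ℤ) → ℕ) (u : ℕ → ℂ) (f : (Fin d → ℝ) → ℂ)
    (x : Fin d → ℝ) : ℂ := ∫ ξ, chr x ξ * (multiplier c u ξ * ft f ξ)

/-- The solution of the wave equation with the data
`u(0) = (1 - Δ)^(-s/2) f₀^u`, `∂ₜu(0) = (1 - Δ)^((1-s)/2) f₁^v`. -/
noncomputable def wave (s : ℝ) (c : (Fin d → ℤ) → ℕ) (u v : ℕ → ℂ) (f₀ f₁ : (Fin d → ℝ) → ℂ)
    (t : ℝ) (x : Fin d → ℝ) : ℂ :=
  ∫ ξ, chr x ξ *
    (((Real.cos (2 * Real.pi * t * nrm ξ) * bessel (-s) ξ : ℝ) : ℂ) *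
      (multiplier c u ξ * ft f₀ ξ) +
    ((Real.sin (2 * Real.pi * t * nrm ξ) / (2 * Real.pi * nrm ξ) * bessel (1 - s) ξ : ℝ) : ℂ) *
      (multiplier c v ξ * ft f₁ ξ))

/-- Independent complex random variables with mean zero, `|X_i| ≤ 1` and `E|X_i|² ≥ δ`. -/
structure Factors {Ω : Type} [MeasurableSpace Ω] (P : Measure Ω) (δ : ℝ≥0) (X : ℕ → Ω → ℂ) :
    Prop where
  measurable : ∀ i, Measurable (X i)
  independent : iIndepFun X P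
  bounded : ∀ i ω, ‖X i ω‖ ≤ 1
  mean : ∀ i, ∫ ω, X i ω ∂P = 0
  variance : ∀ i, (δ : ℝ≥0∞) ≤ ∫⁻ ω, ‖X i ω‖ₑ ^ 2 ∂P

/-- The mean `E‖f^X‖_p^p`. -/
noncomputable def meanNorm {Ω : Type} [MeasurableSpace Ω] (P : Measure Ω) (X : ℕ → Ω → ℂ) (p : ℝ)
    (c : (Fin d → ℤ) → ℕ) (f : (Fin d → ℝ) → ℂ) : ℝ≥0∞ :=
  ∫⁻ ω, (∫⁻ x, ‖randomize c (fun i => X i ω) f x‖ₑ ^ p) ∂P

/-- The average `∫ ‖u(t)‖_p^p dμ(t)` of the solution. -/
noncomputable def size (p s : ℝ) (μ : Measure ℝ) (c : (Fin d → ℤ) → ℕ) (u v : ℕ → ℂ)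
    (f₀ f₁ : (Fin d → ℝ) → ℂ) : ℝ≥0∞ := ∫⁻ t, (∫⁻ x, ‖wave s c u v f₀ f₁ t x‖ₑ ^ p) ∂μ

/-- The estimate for random data: for all random factors `X`, `Y` (independence is assumed within
each of the two families only), all `f₀`, `f₁` which are integrable and have integrable Fourier
transforms, and all probability measures `μ` on `[1,2]`, with `M = E‖f₀^X‖_p^p + E‖f₁^Y‖_p^p`,
`E ∫ ‖u(t)‖_p^p dμ(t) ≤ C M` and
`P(∫ ‖u(t)‖_p^p dμ(t) > l^p M) ≤ C exp(-κ l²)`. -/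
def RandomEstimate (p s : ℝ) (δ C : ℝ≥0) (κ : ℝ) (c : (Fin d → ℤ) → ℕ) : Prop :=
  ∀ (Ω : Type) [MeasurableSpace Ω] (P : Measure Ω) [IsProbabilityMeasure P] (X Y : ℕ → Ω → ℂ),
    Factors P δ X → Factors P δ Y → ∀ f₀ f₁ : (Fin d → ℝ) → ℂ, Integrable f₀ → Integrable f₁ →
    Integrable (ft f₀) → Integrable (ft f₁) → ∀ (μ : Measure ℝ) [IsProbabilityMeasure μ],
    μ (Icc 1 2) = 1 →
    ∫⁻ ω, size p s μ c (fun i => X i ω) (fun i => Y i ω) f₀ f₁ ∂P ≤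
      C * (meanNorm P X p c f₀ + meanNorm P Y p c f₁) ∧
    ∀ l : ℝ, 0 ≤ l → P {ω | ENNReal.ofReal l ^ p * (meanNorm P X p c f₀ + meanNorm P Y p c f₁) <
        size p s μ c (fun i => X i ω) (fun i => Y i ω) f₀ f₁} ≤
      C * ENNReal.ofReal (Real.exp (-(κ * l ^ 2)))

/-- The block of `k` is finite and has at most `A (1 + |k|)^β` points, for every `k ∈ ℤ^d`. -/
def BlockSize (A β : ℝ) (c : (Fin d → ℤ) → ℕ) : Prop :=
  ∀ k : Fin d → ℤ, (c ⁻¹' {c k}).Finite ∧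
    ((c ⁻¹' {c k}).ncard : ℝ) ≤ A * (1 + nrm fun i => (k i : ℝ)) ^ β

lemma chr_ec (x ξ : Fin d → ℝ) :
    chr x ξ = Pool.Agent.Y183.LS.ec (Pool.Agent.Y183.LS.dt x ξ) := rfl

lemma ft_eq (f : (Fin d → ℝ) → ℂ) : ft f = Pool.Agent.Q89.WS.ft f := by
  ext ξ
  unfold ft Pool.Agent.Q89.WS.ft
  congr 1
  ext x
  rw [chr_ec]
  congr 2
  unfold Pool.Agent.Y183.LS.dt
  rw [← Finset.sum_neg_distrib]
  apply Finset.sum_congr rfl
  intro i _
  rw [Pi.neg_apply]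
  ring

lemma bessel_eq (a : ℝ) (ξ : Fin d → ℝ) : bessel a ξ = Pool.Agent.Q89.WS.Jr ξ ^ (a / 2) := by
  unfold bessel Pool.Agent.Q89.WS.Jr
  rw [← Pool.Agent.Q89.WS.nrm_sq]
  rfl

lemma bump_eq (x : ℝ) : bump x = Pool.Agent.Q89.WS.b1 x ^ 2 := by
  unfold bump
  split_ifs with h
  · rw [Pool.Agent.Q89.WS.b1_in (abs_le.mp h)]
  · push Not at h
    rw [Pool.Agent.Q89.WS.b1_out h.le]
    ring

lemma mult_eq (c : (Fin d → ℤ) → ℕ) (u : ℕ → ℂ) (ξ : Fin d → ℝ) :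
    multiplier c u ξ = Pool.Agent.Q263.WR.mu c u ξ := by
  unfold multiplier Pool.Agent.Q263.WR.mu
  congr 1
  ext k
  rw [Pool.Agent.Q89.WS.BB_eq]
  simp only [bump_eq]

lemma rand_eq (c : (Fin d → ℤ) → ℕ) (u : ℕ → ℂ) (f : (Fin d → ℝ) → ℂ) (x : Fin d → ℝ) :
    randomize c u f x = Pool.Agent.Q263.WR.fo c u f x := by
  unfold randomize Pool.Agent.Q263.WR.fo
  simp only [mult_eq, ft_eq]
  rfl

lemma wave_eq (s : ℝ) (c : (Fin d → ℤ) → ℕ) (u v : ℕ → ℂ) (f₀ f₁ : (Fin d → ℝ) → ℂ) (t : ℝ)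
    (x : Fin d → ℝ) : wave s c u v f₀ f₁ t x = Pool.Agent.Q263.WR.sol s c u v f₀ f₁ t x := by
  unfold wave Pool.Agent.Q263.WR.sol
  simp only [mult_eq, ft_eq, bessel_eq]
  rfl

lemma mean_eq {Ω : Type} [MeasurableSpace Ω] (P : Measure Ω) (X : ℕ → Ω → ℂ) (p : ℝ)
    (c : (Fin d → ℤ) → ℕ) (f : (Fin d → ℝ) → ℂ) :
    meanNorm P X p c f = Pool.Agent.Q263.WR.Mn P X p c f := by
  unfold meanNorm Pool.Agent.Q263.WR.Mn
  simp only [rand_eq]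

lemma rad_of {Ω : Type} [MeasurableSpace Ω] {P : Measure Ω} {δ : ℝ≥0} {X : ℕ → Ω → ℂ}
    (h : Factors P δ X) : Pool.Agent.Q263.WR.Rad P δ X :=
  ⟨h.measurable, h.independent, h.bounded, h.mean, h.variance⟩

lemma core (p : ℝ) (hp : 2 ≤ p) (δ : ℝ≥0) (hδ : 0 < δ) (C0 C1 : ℝ≥0) :
    ∃ (C : ℝ≥0) (κ : ℝ), 0 < κ ∧ ∀ {s : ℝ}, 0 ≤ s → ∀ {n : ℕ} (c : (Fin (n + 1) → ℤ) → ℕ)
      (hc : ∀ i, (c ⁻¹' {i}).Finite),
      Pool.Agent.Q263.WR.Det p C0 (Pool.Agent.Q89.WS.y0 s) n c hc →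
      Pool.Agent.Q263.WR.Det p C1 (Pool.Agent.Q89.WS.y1 s) n c hc → RandomEstimate p s δ C κ c := by
  obtain ⟨C, κ, hκ, h⟩ := Pool.Agent.Q263.WR.main p hp δ hδ C0 C1
  refine ⟨C, κ, hκ, ?_⟩
  intro s hs n c hc hd0 hd1 Ω _ P _ X Y hX hY f₀ f₁ hf0 hf1 hff0 hff1 μ _ hμ
  rw [ft_eq] at hff0 hff1
  have h1 := h P X Y (rad_of hX) (rad_of hY) hs c hc hd0 hd1 f₀ f₁ hf0 hf1 hff0 hff1 μ hμ
  unfold size
  simp only [mean_eq, wave_eq]
  exact h1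

lemma fin_of {A β : ℝ} {c : (Fin d → ℤ) → ℕ} (h : BlockSize A β c) (i : ℕ) :
    (c ⁻¹' {i}).Finite := by
  by_cases hi : ∃ k, c k = i
  · obtain ⟨k, rfl⟩ := hi
    exact (h k).1
  · have : c ⁻¹' {i} = ∅ := by
      rw [Set.preimage_singleton_eq_empty]
      rintro ⟨k, hk⟩
      exact hi ⟨k, hk⟩
    rw [this]
    exact Set.finite_empty

lemma card_of {A : ℝ} {c : (Fin d → ℤ) → ℕ} (h : BlockSize A 0 c) (i : ℕ) :
    (c ⁻¹' {i}).ncard ≤ ⌊A⌋₊ := by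
  by_cases hi : ∃ k, c k = i
  · obtain ⟨k, rfl⟩ := hi
    have h1 := (h k).2
    rw [Real.rpow_zero, mul_one] at h1
    exact Nat.le_floor h1
  · have : c ⁻¹' {i} = ∅ := by
      rw [Set.preimage_singleton_eq_empty]
      rintro ⟨k, hk⟩
      exact hi ⟨k, hk⟩
    rw [this]
    simp

/-- **Local smoothing for data randomized over blocks of frequencies**, in dimension `d = n + 1`,
for `p ≥ 2` and `δ > 0`. The constants `C` and `κ > 0` do not depend on the blocks.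

1. If the blocks have at most `A` points, the estimate holds without loss, `s = 0`.

2. If the block of `k` has at most `A (1 + |k|)^β` points, `β ≥ 0`, it holds for all
`s > β(1/2 - 1/p)`.

3. In particular, for `p ≥ 2d/(d-1)` and `s = s_p - σ`, `s_p = (d-1)(1/2 - 1/p)`, it holds for every
`σ < 1/p` if `β ≤ d - p/(p-2)`. -/
theorem result (n : ℕ) (p : ℝ) (δ : ℝ≥0) (hp : 2 ≤ p) (hδ : 0 < δ) :
    (∀ A : ℝ, ∃ (C : ℝ≥0) (κ : ℝ), 0 < κ ∧ ∀ c : (Fin (n + 1) → ℤ) → ℕ,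
      BlockSize A 0 c → RandomEstimate p 0 δ C κ c) ∧
    (∀ A β s : ℝ, 0 ≤ β → β * (1 / 2 - 1 / p) < s → ∃ (C : ℝ≥0) (κ : ℝ), 0 < κ ∧
      ∀ c : (Fin (n + 1) → ℤ) → ℕ, BlockSize A β c → RandomEstimate p s δ C κ c) ∧
    (∀ A β σ : ℝ, 1 ≤ n → 2 * (n + 1) / n ≤ p → 0 ≤ β → β ≤ n + 1 - p / (p - 2) → σ < 1 / p →
      ∃ (C : ℝ≥0) (κ : ℝ), 0 < κ ∧ ∀ c : (Fin (n + 1) → ℤ) → ℕ, BlockSize A β c →
        RandomEstimate p ((n : ℝ) / 2 - n / p - σ) δ C κ c) := by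
  have hp0 : 0 < p := by linarith
  have h2p : 1 / p ≤ 1 / 2 := one_div_le_one_div_of_le (by norm_num) hp
  have h2 : ∀ A β s : ℝ, 0 ≤ β → β * (1 / 2 - 1 / p) < s → ∃ (C : ℝ≥0) (κ : ℝ), 0 < κ ∧
      ∀ c : (Fin (n + 1) → ℤ) → ℕ, BlockSize A β c → RandomEstimate p s δ C κ c := by
    intro A β s hβ hs
    have hs0 : 0 ≤ s := (mul_nonneg hβ (by linarith)).trans hs.le
    obtain ⟨C0, hC0⟩ := Pool.Agent.Q263.WR.det_growing hs0 (Pool.Agent.Q89.WS.pair0 s) n p β A hp hβ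
      hs
    obtain ⟨C1, hC1⟩ := Pool.Agent.Q263.WR.det_growing hs0 (Pool.Agent.Q89.WS.pair1 s) n p β A hp hβ
      hs
    obtain ⟨C, κ, hκ, h⟩ := core p hp δ hδ C0 C1
    refine ⟨C, κ, hκ, ?_⟩
    intro c hc
    exact h hs0 c (fin_of hc) (hC0 c (fin_of hc) fun k => (hc k).2)
      (hC1 c (fin_of hc) fun k => (hc k).2)
  refine ⟨?_, h2, ?_⟩
  · intro A
    obtain ⟨C0, hC0⟩ := Pool.Agent.Q263.WR.det_bounded (Pool.Agent.Q89.WS.pair0 0) n p hp ⌊A⌋₊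
    obtain ⟨C1, hC1⟩ := Pool.Agent.Q263.WR.det_bounded (Pool.Agent.Q89.WS.pair1 0) n p hp ⌊A⌋₊
    obtain ⟨C, κ, hκ, h⟩ := core p hp δ hδ C0 C1
    refine ⟨C, κ, hκ, ?_⟩
    intro c hc
    exact h le_rfl c (fin_of hc) (hC0 c (fin_of hc) (card_of hc)) (hC1 c (fin_of hc) (card_of hc))
  · intro A β σ hn hpn hβ hβ2 hσ
    apply h2 A β _ hβ
    have hn1 : (1 : ℝ) ≤ n := by exact_mod_cast hn
    have hn0 : (0 : ℝ) < n := by linarith
    have hp2 : 2 < p := by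
      refine lt_of_lt_of_le ?_ hpn
      rw [lt_div_iff₀ hn0]
      linarith
    have h3 : 0 < p - 2 := by linarith
    have h4 : β * (1 / 2 - 1 / p) ≤ (n + 1 - p / (p - 2)) * (1 / 2 - 1 / p) :=
      mul_le_mul_of_nonneg_right hβ2 (by linarith)
    have h5 : ((n : ℝ) + 1 - p / (p - 2)) * (1 / 2 - 1 / p) = n / 2 - n / p - 1 / p := by
      field_simp
      ring
    rw [h5] at h4
    linarith

end Pool.Agent.Results.MP_ee74d2_an.RandomBlocks
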