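import Pool.Agent.Q146.TR.Main

/-!
# Towers of lattices with a tridiagonal Gram matrix which tends to the identity

Let `b_0, b_1, b_2, …` be vectors of a Hilbert space with `b_i ⟂ b_j` for `|i - j| ≥ 2`, `|b_i| → 1` and
`b_i · b_{i+1} → 0`, such that all nonzero integer combinations have norm at least `1`. In the basis of
the Gram-Schmidt directions `b_0 = a_0 e_0`, `b_{i+1} = c_i e_i + a_{i+1} e_{i+1}`. We study the Hermite
invariants `γ(L_n)` of the lattices `L_n` generated by `b_0, …, b_{n-1}`.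

* The determinants `D_n` of the `L_n` can be prescribed whenever `∑ ω_n / D_n < 2`, where `ω_n` is the
  volume of the unit ball. So one sequence of vectors gives lattices as dense as in the theorem of
  Minkowski and Hlawka, up to the factor `n²`, in all dimensions; its Gram matrix tends to the identity.
* Dichotomy: either `γ(L_n) → 1`, or `γ(L_n)` is asymptotically the inverse of the geometric mean of the
  squares of the inner products `b_i · b_{i+1}`.
* If `√i b_i · b_{i+1} → κ` in the second case, then `γ(L_n) / n → 1 / (e κ²)`. All `κ ≥ √(2π)` occur,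
  no `κ < π / √e` does, and a `κ < √(2π)` occurs only if `liminf γ_n / n > 1 / (2 π e)`.
-/

set_option autoImplicit false

open Filter Finset MeasureTheory
open scoped Topology

namespace Pool.Agent.Results.MP_ef2672_gt.TridiagonalTowers

open Pool.Agent.H160R3.Herm (hermite)
open Pool.Agent.TH220.HG (gam)

/-- The matrix with the columns `b_0 = a_0 e_0`, `b_j = c_{j-1} e_{j-1} + a_j e_j`, `j < n`. -/
def mat (a c : ℕ → ℝ) (n : ℕ) : Matrix (Fin n) (Fin n) ℝ := fun i j =>
  if i = j then a i else if (i : ℕ) + 1 = j then c i else 0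

/-- All nonzero integer combinations of the `b_i` have norm at least one. -/
def Separated (a c : ℕ → ℝ) : Prop := ∀ (n : ℕ) (w : Fin n → ℤ), w ≠ 0 →
  1 ≤ ∑ i, ((mat a c n).mulVec (fun j => (w j : ℝ)) i) ^ 2

/-- `a_i > 0`, `|b_i| → 1`, `b_i · b_{i+1} = a_i c_i → 0`, and all nonzero integer combinations have
norm at least one. -/
structure Tower (a c : ℕ → ℝ) : Prop where
  pos : ∀ i, 0 < a i
  norms : Tendsto (fun i => c i ^ 2 + a (i + 1) ^ 2) atTop (𝓝 1)
  inner : Tendsto (fun i => a i * c i) atTop (𝓝 0)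
  sep : Separated a c

/-- the volume of the unit ball of `ℝ^n` -/
noncomputable def ball (n : ℕ) : ℝ :=
  (volume (Metric.ball (0 : EuclideanSpace ℝ (Fin n)) 1)).toReal

lemma ball_eq (n : ℕ) : ball (n + 1) = Q146.TR.om (n + 1) := by
  have h1 := (Q146.TR.om_pos (n + 1)).le
  unfold ball Q146.TR.om at *
  rw [EuclideanSpace.volume_ball]
  simp only [ENNReal.ofReal_one, one_pow, one_mul, Fintype.card_fin]
  rw [ENNReal.toReal_ofReal h1]

lemma tower_iff (a c : ℕ → ℝ) : Tower a c ↔ Q146.TR.Tower a c :=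
  ⟨fun h => ⟨h.pos, h.norms, h.inner, h.sep⟩, fun h => ⟨h.pos, h.norms, h.inner, h.sep⟩⟩

theorem result :
    -- the determinants of the sections can be prescribed
    (∀ a : ℕ → ℝ, (∀ i, 0 < a i) →
      (∀ n : ℕ, ∑ m ∈ range n, ball (m + 1) / ∏ i ∈ range (m + 1), a i < 2) →
      ∃ c : ℕ → ℝ, (∀ i, 1 ≤ c i ∧ c i ≤ 1 + a i) ∧ Separated a c ∧
        ∀ n, (mat a c n).det = ∏ i ∈ range n, a i) ∧
    -- towers with `√i b_i · b_{i+1} → κ`
    (∀ κ : ℝ, √(2 * Real.pi) ≤ κ → ∃ a c : ℕ → ℝ, Tower a c ∧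
      Tendsto (fun i : ℕ => √i * (a i * c i)) atTop (𝓝 κ) ∧
      Tendsto (fun n : ℕ => gam (mat a c n) / n) atTop (𝓝 (1 / (Real.exp 1 * κ ^ 2))) ∧
      ∀ n : ℕ, 0 < n → (mat a c n).det = (κ / √(2 * Real.pi)) ^ n * n ^ 2 * ball n) ∧
    -- the dichotomy
    (∀ a c : ℕ → ℝ, Tower a c →
      (Tendsto a atTop (𝓝 1) ∧ Tendsto c atTop (𝓝 0) ∧
        Tendsto (fun n => gam (mat a c n)) atTop (𝓝 1)) ∨
      (Tendsto a atTop (𝓝 0) ∧ Tendsto (fun i => |c i|) atTop (𝓝 1) ∧
        ((∀ i, c i ≠ 0) → Tendsto (fun n : ℕ => gam (mat a c n) *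
          (∏ i ∈ range n, (a i * c i) ^ 2) ^ ((1 : ℝ) / n)) atTop (𝓝 1)))) ∧
    -- the second case is impossible for `κ < π / √e`
    (∀ a c : ℕ → ℝ, Tower a c → ∀ κ : ℝ, κ < Real.pi / √(Real.exp 1) →
      (∀ᶠ i : ℕ in atTop, √i * |a i * c i| ≤ κ) →
        Tendsto (fun n => gam (mat a c n)) atTop (𝓝 1)) ∧
    -- the growth in the second case
    (∀ a c : ℕ → ℝ, Tower a c → ∀ κ : ℝ, 0 < κ →
      Tendsto (fun i : ℕ => √i * |a i * c i|) atTop (𝓝 κ) →
        Tendsto (fun n => gam (mat a c n)) atTop (𝓝 1) ∨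
        (Tendsto (fun n : ℕ => gam (mat a c n) / n) atTop (𝓝 (1 / (Real.exp 1 * κ ^ 2))) ∧
          1 / (Real.exp 1 * κ ^ 2) ≤ liminf (fun n : ℕ => hermite n / n) atTop)) := by
  refine ⟨?_, ?_, ?_, ?_, ?_⟩
  · intro a ha hsum
    obtain ⟨c, hc, hs⟩ := Q146.TR.exists_tower ha (by
      intro n
      have h1 : ∀ m, Q146.TR.V (m + 1) 1 / ENNReal.ofReal (Q146.TR.D a (m + 1)) =
          ENNReal.ofReal (ball (m + 1) / ∏ i ∈ range (m + 1), a i) := by
        intro m
        rw [Q146.TR.V_one, ball_eq]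
        exact (ENNReal.ofReal_div_of_pos (Q146.TR.D_pos ha (m + 1))).symm
      simp only [h1]
      rw [← ENNReal.ofReal_sum_of_nonneg, show (2 : ENNReal) = ENNReal.ofReal 2 by simp,
        ENNReal.ofReal_lt_ofReal_iff (by norm_num)]
      · exact hsum n
      · intro m _
        rw [ball_eq]
        have h2 := Q146.TR.D_pos ha (m + 1)
        rw [Q146.TR.D] at h2
        exact (div_pos (Q146.TR.om_pos (m + 1)) h2).le)
    refine ⟨c, hc, fun n w hw => ?_, fun n => Q146.TR.det_mat a c n⟩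
    exact (hs n _ (Q146.TR.ext_ne hw) (Q146.TR.ext_zero w)).trans
      (Q146.TR.norm_mat a c w).symm.le
  · intro κ hκ
    obtain ⟨a, c, h, -, h1, h2, h3⟩ := Q146.TR.exist hκ
    exact ⟨a, c, (tower_iff a c).2 h, h1, h2, h3⟩
  · intro a c h
    have h' := (tower_iff a c).1 h
    rcases Q146.TR.dichotomy h.pos h.norms h.inner with h1 | h1
    · exact Or.inl ⟨h1.1, h1.2, Q146.TR.phase_two h' h1.1⟩
    · exact Or.inr ⟨h1.1, h1.2, fun hc => Q146.TR.phase_one h' h1.2 hc⟩
  · intro a c h κ hκ hk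
    exact Q146.TR.threshold ((tower_iff a c).1 h) hκ hk
  · intro a c h κ hκ hk
    exact Q146.TR.growth' ((tower_iff a c).1 h) hκ hk

end Pool.Agent.Results.MP_ef2672_gt.TridiagonalTowers
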