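import Pool.Agent.Q15.GRP5

/-!
# Finitely many extensions suffice to construct a Galois representation

The representation attached to a cuspidal `π` is often constructed first over infinitely many
(quadratic) extensions and then descended by the patching lemma of Blasius and Rogawski, Harris and
Taylor, and Sorensen.  We show that seven quadratic fields are enough for `n ≤ 2` and about `4n`
quadratic fields for general `n`, without any irreducibility or invariance hypothesis.
-/

set_option autoImplicit false

namespace Pool.Agent.Results.MP_ef641d_nt.FinitePatching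

open NumberField IsDedekindDomain Pool.Agent.W401.Cheb

/-- the place `v` splits completely in the extension of `K` which corresponds to `Δ`, a normal
subgroup of finite index of the absolute Galois group -/
def SplitsIn {K : Type} [Field K] [NumberField K] (v : HeightOneSpectrum (𝓞 K))
    (Δ : Subgroup (GK K)) : Prop :=
  ∀ σ, IsInert v σ ∨ IsFrob v σ → σ ∈ Δ

/-- the representation of `Δ` is continuous -/
def IsCont {K : Type} [Field K] {ℓ : ℕ} [Fact ℓ.Prime] {n : ℕ} {Δ : Subgroup (GK K)}
    (ρ : Representation (PadicAlgCl ℓ) Δ (Fin n → PadicAlgCl ℓ)) : Prop :=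
  ∀ x, Continuous fun σ => ρ σ x

/-- `ρ`, a representation of `Δ`, is unramified at `v`, and `M` is the multiset of the eigenvalues
of the geometric Frobenius elements at `v` -/
def CorrespondsAt {K : Type} [Field K] [NumberField K] {ℓ : ℕ} [Fact ℓ.Prime] {n : ℕ}
    {Δ : Subgroup (GK K)} (ρ : Representation (PadicAlgCl ℓ) Δ (Fin n → PadicAlgCl ℓ))
    (v : HeightOneSpectrum (𝓞 K)) (M : Multiset (PadicAlgCl ℓ)) : Prop :=
  (∀ σ : Δ, IsInert v (σ : GK K) → ρ σ = 1) ∧
    ∀ σ : Δ, IsFrob v (σ : GK K) → (ρ σ⁻¹).charpoly.roots = M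

/-- the restriction of a representation of the absolute Galois group -/
noncomputable def restrict {K : Type} [Field K] {ℓ : ℕ} [Fact ℓ.Prime] {n : ℕ} (Δ : Subgroup (GK K))
    (ρ : Representation (PadicAlgCl ℓ) (GK K) (Fin n → PadicAlgCl ℓ)) :
    Representation (PadicAlgCl ℓ) Δ (Fin n → PadicAlgCl ℓ) := MonoidHom.comp ρ Δ.subtype

/-- **Finite patching.** Let `K` be a number field, `q` a prime, `N` an open normal subgroup of the
absolute Galois group such that `Gal(L/K)`, the quotient by `N`, is commutative of exponent `q` and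
order larger than `(q - 1) * (n * q) + q`.  Let `D v` be multisets of `n`, or any, `ℓ`-adic numbers
for the places `v` outside a finite set `S`.  For each subgroup `Δ` of index `q` which contains `N`,
that is, for each subfield of `L` of degree `q` over `K`, let `ρ Δ` be a continuous semisimple
`n`-dimensional representation of `Δ`, unramified and with geometric Frobenius eigenvalues `D v` at
the places above `v` for each `v ∉ S` which splits completely in this field.  Then there is a
continuous semisimple `n`-dimensional representation `R` of the absolute Galois group of `K`, whose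
restrictions to the `Δ` are the `ρ Δ`, and which is unramified with geometric Frobenius eigenvalues
`D v` at each `v ∉ S` which is unramified in `L` or splits completely in one of these fields. -/
theorem result (K : Type) [Field K] [NumberField K] (ℓ : ℕ) [Fact ℓ.Prime] (n q : ℕ)
    (hq : q.Prime) (N : Subgroup (GK K)) (hN : N.Normal) (hNo : IsOpen (N : Set (GK K)))
    (hNc : ∀ x y, x * y * x⁻¹ * y⁻¹ ∈ N) (hNe : ∀ x, x ^ q ∈ N)
    (hcard : (q - 1) * (n * q) + q < N.index)
    (S : Set (HeightOneSpectrum (𝓞 K))) (hS : S.Finite)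
    (D : HeightOneSpectrum (𝓞 K) → Multiset (PadicAlgCl ℓ))
    (ρ : ∀ Δ : Subgroup (GK K), Representation (PadicAlgCl ℓ) Δ (Fin n → PadicAlgCl ℓ))
    (hρ : ∀ Δ, N ≤ Δ → Δ.index = q → (ρ Δ).IsSemisimpleRepresentation ∧ IsCont (ρ Δ) ∧
      ∀ v ∉ S, SplitsIn v Δ → CorrespondsAt (ρ Δ) v (D v)) :
    ∃ R : Representation (PadicAlgCl ℓ) (GK K) (Fin n → PadicAlgCl ℓ),
      R.IsSemisimpleRepresentation ∧ (∀ x, Continuous fun σ => R σ x) ∧
      (∀ Δ, N ≤ Δ → Δ.index = q → Nonempty (Representation.Equiv (restrict Δ R) (ρ Δ))) ∧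
      ∀ v ∉ S, ((∀ σ, IsInert v σ → σ ∈ N) ∨ ∃ Δ, N ≤ Δ ∧ Δ.index = q ∧ SplitsIn v Δ) →
        (∀ σ, IsInert v σ → R σ = 1) ∧ ∀ σ, IsFrob v σ → (R σ⁻¹).charpoly.roots = D v := by
  obtain ⟨R, h1, h2, h3, h4⟩ := Pool.Agent.Q15.GR.patch_nt hq N hN hNo hNc hNe hcard S hS D ρ
    (fun Δ h h' => (hρ Δ h h').1) (fun Δ h h' => (hρ Δ h h').2.1)
    (fun Δ h h' v hv hs => (hρ Δ h h').2.2 v hv hs)
  refine ⟨R, h1, h2, h3, ?_⟩
  rintro v hv (hv' | hv')
  · exact h4 v hv (Pool.Agent.Q15.GR.exists_split hq N hN hNc hNe (by omega) v hv')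
  · exact h4 v hv hv'

end Pool.Agent.Results.MP_ef641d_nt.FinitePatching
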