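import Pool.Agent.Q172.Pat.A3

/-!
# The patterns of the spacings diffuse at an exactly known rate

Assume the Riemann hypothesis, and let `d_j` be the normalised spacings of the zeta zeros.  Suppose
that somebody proposes a model for the spacings: half-integers `k_j / 2` (the Alternative
Hypothesis), or the residues of the `d_j` modulo a number `1 / θ > 1`, given by complex numbers
`p_j` of modulus one that should be close to `e(θ d_j)`.  No assumption is made on the model.  We
show that the sums of the products `p_m p_{m+1} ⋯ p_{m+k-1}` over `1 ≤ k ≤ L` have root mean square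
`√(θ L)`, up to `O(1 + log L)` and `L² δ`, where `δ` is the root mean square error of the model; the
constant `θ` in the rate of diffusion is exact, and everything is uniform in `θ` and in the model
(which may depend on the height).

For the integers `k_j` of the Alternative Hypothesis this gives for each `θ` in `(0, 1)` and in
`(1, 2)` the exact rate `√(min(θ, 2 - θ) L)` for the sums of `e(θ (k_m + … + k_{m+l-1}) / 2)`: a
necessary condition on the pattern of integers and half-integers, in terms of consecutive spacings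
only.  Moreover no periodic model of period `K` is closer than `c K^(-3/2)` in root mean square, with
`c` depending only on a compact interval of `(0, 1)` containing `θ`, although there are continuously
many such models and the error may be spread out thinly.

Proof.  For the true spacings the block sums are those of `e(θ γ~_j)` over `L` consecutive zeros, and
their root mean square is `√(θ L) + O(1 + log L)` (`MP_00e05b_nt.ConsecutiveZeros`, from Montgomery's
theorem and a change of time between index and position).  Here the normalisation is at each zero,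
not at the height `T`, and the model is compared with the spacings over a block; this costs `L² δ`.
For a periodic model the block sums over `M`, `2M` and `4M` terms, `K | M`, are in the proportion
`1 : |1 + w| : |1 + w| |1 + w²|` for some `w` of modulus one, which is never near `1 : √2 : 2`.
-/

set_option autoImplicit false

open Filter

namespace Pool.Agent.Results.MP_f0209c_nt.DiffusionConstant

/-- multiplicity of `s` as a zero of the Riemann zeta function (order of vanishing at `s`) -/
noncomputable def zmult (s : ℂ) : ℕ := analyticOrderNatAt riemannZeta s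

/-- `N(t)`: the number of nontrivial zeros of `ζ` with ordinate in `(0, t]`, with multiplicity -/
noncomputable def N (t : ℝ) : ℕ :=
  ∑ᶠ s ∈ {s : ℂ | riemannZeta s = 0 ∧ 0 < s.re ∧ s.re < 1 ∧ 0 < s.im ∧ s.im ≤ t}, zmult s

/-- for `j ≥ 1`: the `j`-th positive ordinate `γ j` of a nontrivial zero of `ζ`, the ordinates being
listed in nondecreasing order and repeated according to multiplicity -/
noncomputable def γ (j : ℕ) : ℝ := sInf {t : ℝ | j ≤ N t}

/-- the normalised spacings `d_j = γ_{j+1} log γ_{j+1} / 2π - γ_j log γ_j / 2π` -/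
noncomputable def d (j : ℕ) : ℝ :=
  (γ (j + 1) * Real.log (γ (j + 1)) - γ j * Real.log (γ j)) / (2 * Real.pi)

/-- `e(x) = exp(2πix)` -/
noncomputable def e (x : ℝ) : ℂ := Complex.exp (2 * Real.pi * Complex.I * x)

/-- the root mean square of `f(j)` for `1 ≤ j ≤ N(T)` -/
noncomputable def rms (T : ℝ) (f : ℕ → ℝ) : ℝ :=
  √(1 / (N T : ℝ) * ∑ j ∈ Finset.Icc 1 (N T), f j ^ 2)

/-- the sum of the products `p_m p_{m+1} ⋯ p_{m+k-1}` for `1 ≤ k ≤ L` -/
noncomputable def S (p : ℕ → ℂ) (L m : ℕ) : ℂ :=
  ∑ k ∈ Finset.Icc 1 L, ∏ i ∈ Finset.range k, p (m + i)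

lemma e_eq (x : ℝ) : e x = H177.Lat.ee x := by
  unfold e H177.Lat.ee
  congr 1
  push_cast
  ring

lemma dl_eq (θ : ℝ) (p : ℕ → ℂ) (T : ℝ) :
    rms T (fun j => ‖p j - e (θ * d j)‖) = Q172.Pat.dl θ p T := by
  unfold rms Q172.Pat.dl Q172.Pat.qd
  simp only [e_eq]
  rfl

lemma Rp_eq (p : ℕ → ℂ) (L : ℕ) (T : ℝ) : rms T (fun m => ‖S p L m‖) = Q172.Pat.Rp p L T := rfl

lemma er_eq (x : ℕ → ℝ) (T : ℝ) : rms T (fun j => d j - x j) = Q172.Pat.er x T := rfl

/-- Assume the Riemann hypothesis, let `0 < a` and `b < 1`, and write `δ` for the root mean square of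
`|p_j - e(θ d_j)|` (respectively of `d_j - k_j / 2`) over `1 ≤ j ≤ N(T)`.

(1) There is a constant `C` such that for all `L ≥ 1`, all large `T`, all `θ` in `[a, b]` and all
sequences `p` of complex numbers of modulus one, the root mean square over `1 ≤ m ≤ N(T)` of the sum
of the products `p_m ⋯ p_{m+k-1}` for `1 ≤ k ≤ L` is `√(θ L)`, with an error of at most
`C (1 + log L) + L² δ`.

(2) There is a constant `C` such that for all `L ≥ 1`, all large `T`, all `θ` in `[a, b]` or in
`[2 - b, 2 - a]` and all sequences `k` of integers, the root mean square over `1 ≤ m ≤ N(T)` of the sum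
of `e(θ (k_m + … + k_{m+l-1}) / 2)` for `1 ≤ l ≤ L` is `√(min(θ, 2 - θ) L)`, with an error of at most
`C (1 + log L) + 2π L² δ`.

(3) There is a constant `c > 0` such that for all `K ≥ 1`, all large `T`, all `θ` in `[a, b]` and all
sequences `p` of complex numbers of modulus one with period `K`, one has `δ² ≥ c / K³`. -/
theorem result (RH : RiemannHypothesis) (a b : ℝ) (ha : 0 < a) (hb : b < 1) :
    (∃ C : ℝ, ∀ L : ℕ, 1 ≤ L → ∀ᶠ T : ℝ in atTop, ∀ θ ∈ Set.Icc a b, ∀ p : ℕ → ℂ,
      (∀ j, ‖p j‖ = 1) →
        |rms T (fun m => ‖S p L m‖) - √(θ * L)| ≤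
          C * (1 + Real.log L) + (L : ℝ) ^ 2 * rms T (fun j => ‖p j - e (θ * d j)‖)) ∧
    (∃ C : ℝ, ∀ L : ℕ, 1 ≤ L → ∀ᶠ T : ℝ in atTop, ∀ θ ∈ Set.Icc a b ∪ Set.Icc (2 - b) (2 - a),
      ∀ k : ℕ → ℤ,
        |rms T (fun m => ‖∑ l ∈ Finset.Icc 1 L, e (θ * ∑ i ∈ Finset.range l, (k (m + i) / 2 : ℝ))‖) -
          √(min θ (2 - θ) * L)| ≤
          C * (1 + Real.log L) + 2 * Real.pi * (L : ℝ) ^ 2 * rms T (fun j => d j - k j / 2)) ∧
    (∃ c : ℝ, 0 < c ∧ ∀ K : ℕ, 1 ≤ K → ∀ᶠ T : ℝ in atTop, ∀ θ ∈ Set.Icc a b, ∀ p : ℕ → ℂ,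
      (∀ j, ‖p j‖ = 1) → (∀ j, p (j + K) = p j) →
        c / (K : ℝ) ^ 3 ≤ rms T (fun j => ‖p j - e (θ * d j)‖) ^ 2) := by
  refine ⟨?_, ?_, ?_⟩
  · obtain ⟨C, _, h⟩ := Q172.Pat.diffusion RH ha hb
    refine ⟨C, fun L hL => ?_⟩
    filter_upwards [h L hL] with T h1 θ hθ p hp
    rw [dl_eq, Rp_eq]
    exact h1 θ hθ p hp
  · obtain ⟨C, _, h⟩ := Q172.Pat.half_seq RH ha hb
    refine ⟨C, fun L hL => ?_⟩
    filter_upwards [h L hL] with T h1 θ hθ k
    have h2 := h1 θ hθ k
    rw [er_eq]
    simp only [e_eq]
    exact h2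
  · obtain ⟨c, hc, h⟩ := Q172.Pat.periodic RH ha hb
    refine ⟨c, hc, fun K hK => ?_⟩
    filter_upwards [h K hK] with T h1 θ hθ p hp hK2
    rw [dl_eq]
    exact h1 θ hθ p hp hK2

end Pool.Agent.Results.MP_f0209c_nt.DiffusionConstant
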