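import Mathlib
import Pool.Agent.Q239.OPN.Asym

/-!
# An explicit constant in Wirsing's theorem for odd perfect numbers

Wirsing (1959) proved that there are at most `x ^ (W / log log x)` perfect numbers up to `x`, with an
unspecified constant `W`. Here: the number of odd perfect numbers up to `x` is at most
`x ^ (((log 2) / 2 + ε) / log log x)` for large `x`, and there is a bound valid for all `X`.

Proof. Let `A > 1` be a unitary divisor of the odd perfect number `N = A B`. The least prime factor of
`σ(A) / (σ(A), 2 A)` divides `B` and depends only on `A` (and `B = 1` if this number is `1`), so `N` is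
determined by `A` and by the list of the exponents of the primes of `B` in the order in which they are
found (`Q239/OPN/Step.lean`). All exponents but one are even, so a list with `∑ e ≤ M` is one of at
most `(m + 1) 2 ^ m` lists, `m = ⌊(M + 1) / 2⌋`. As `A` one takes the part of `N` composed of the
primes up to `Y = (log x) ^ (1 - δ)` and of the least prime factor of `N`, which is at most
`2 log₂ N + 1`; there are few such `A`, and `M ≤ log x / ((1 - δ) log log x)`.
-/

set_option autoImplicit false

open Finset Filter

namespace Pool.Agent.Results.MP_f02ea4_nt.WirsingConstant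

open Classical in
/-- the number of odd perfect numbers up to `X` -/
noncomputable def V (X : ℕ) : ℕ :=
  ((Icc 1 X).filter fun N => Odd N ∧ ∑ d ∈ N.divisors, d = 2 * N).card

open Classical in
theorem V_eq (X : ℕ) : V X = ((Icc 1 X).filter Q239.OPN.Opn).card := by
  unfold V
  congr 1
  refine filter_congr fun N hN => ?_
  unfold Q239.OPN.Opn
  rw [mem_Icc] at hN
  exact ⟨fun h => ⟨h.1, hN.1, h.2⟩, fun h => ⟨h.1, h.2.2⟩⟩

/-- **An explicit constant in Wirsing's theorem for odd perfect numbers.** -/
theorem result :
    (∀ ε : ℝ, 0 < ε → ∀ᶠ x : ℝ in atTop,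
      (V ⌊x⌋₊ : ℝ) ≤ x ^ ((Real.log 2 / 2 + ε) / Real.log (Real.log x))) ∧
    ∀ X Y m : ℕ, 1 ≤ Y → m = (Nat.log (Y + 1) X + 1) / 2 →
      V X ≤ (m + 1) * 2 ^ m * ((Nat.log 2 X + 1) ^ (Y + 1) *
        ((2 * Nat.log 2 X + 2) * (Nat.log 2 X + 1))) := by
  refine ⟨fun ε hε => ?_, ?_⟩
  · filter_upwards [Q239.OPN.main hε] with x hx
    rw [V_eq]
    exact hx
  · rintro X Y m hY rfl
    rw [V_eq]
    exact Q239.OPN.card_le X Y hY

end Pool.Agent.Results.MP_f02ea4_nt.WirsingConstant
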