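import Mathlib

/-!
# 1-avoidance couplings of two Bernoulli walkers: `p_2 ≤ 1/3`

If the first walker has no two consecutive zeros among its first `m + 1` values, then the second
walker is at `0` in the first `m` rounds.  The first probability grows faster than `(1 - p)^m` if
`p > 1/3`.
-/

set_option autoImplicit false
set_option linter.unusedSectionVars false

namespace Pool.Agent.Results.MP_f1618c_pr.TwoWalkers

open MeasureTheory Set

/-- `X` is a sequence of independent Bernoulli(`p`) variables (`true` is the value `1`): every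
initial word `w 0, ..., w (m-1)` has the product probability. -/
def IsBernoulli {Ω : Type} [MeasurableSpace Ω] (μ : Measure Ω) (p : ℝ) (X : ℕ → Ω → Bool) : Prop :=
  (∀ t, Measurable (X t)) ∧ ∀ (m : ℕ) (w : ℕ → Bool),
    μ.real {ω | ∀ i < m, X i ω = w i} = ∏ i ∈ Finset.range m, if w i then p else 1 - p

/-- A 1-avoidance coupling of `k` Bernoulli(`p`) walkers: each walker is an i.i.d. Bernoulli(`p`)
sequence, and no two entries at distance less than `k` of the interleaved sequence
`X 0 0, X 1 0, ..., X (k-1) 0, X 0 1, X 1 1, ...` are both `1`. -/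
def IsCoupling {Ω : Type} [MeasurableSpace Ω] (μ : Measure Ω) (k : ℕ) (p : ℝ)
    (X : Fin k → ℕ → Ω → Bool) : Prop :=
  (∀ j, IsBernoulli μ p (X j)) ∧
  (∀ t i j, i ≠ j → ∀ᵐ ω ∂μ, ¬ (X i t ω = true ∧ X j t ω = true)) ∧
  ∀ t i j, i < j → ∀ᵐ ω ∂μ, ¬ (X j t ω = true ∧ X i (t + 1) ω = true)

/-- There is a 1-avoidance coupling of `k` Bernoulli(`p`) walkers. -/
def Admissible (k : ℕ) (p : ℝ) : Prop :=
  0 ≤ p ∧ p ≤ 1 ∧ ∃ (Ω : Type) (_ : MeasurableSpace Ω) (μ : Measure Ω) (_ : IsProbabilityMeasure μ)
    (X : Fin k → ℕ → Ω → Bool), IsCoupling μ k p X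

/-- The supremum `p_k`. -/
noncomputable def pk (k : ℕ) : ℝ := sSup {p | Admissible k p}

/-- total weight of the continuations of length `n` without two consecutive zeros -/
def T (p : ℝ) : ℕ → Bool → ℝ
  | 0, _ => 1
  | n + 1, true => p * T p n true + (1 - p) * T p n false
  | n + 1, false => p * T p n true

theorem T_nonneg {p : ℝ} (h0 : 0 ≤ p) (h1 : p ≤ 1) (n : ℕ) (b : Bool) : 0 ≤ T p n b := by
  induction n generalizing b with
  | zero => exact zero_le_one
  | succ n ih =>
    cases b
    · exact mul_nonneg h0 (ih _)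
    · exact add_nonneg (mul_nonneg h0 (ih _)) (mul_nonneg (by linarith) (ih _))

variable {Ω : Type} [MeasurableSpace Ω] {μ : Measure Ω} [IsProbabilityMeasure μ]

/-- the cylinder of a word -/
def E (X : ℕ → Ω → Bool) (w : ℕ → Bool) (m : ℕ) : Set Ω := {ω | ∀ i < m, X i ω = w i}

/-- no two consecutive zeros at the places `m, ..., m + n` -/
def N (X : ℕ → Ω → Bool) (m n : ℕ) : Set Ω :=
  {ω | ∀ i < n, ¬ (X (m + i) ω = false ∧ X (m + i + 1) ω = false)}

theorem E_meas {X : ℕ → Ω → Bool} (hX : ∀ t, Measurable (X t)) (w : ℕ → Bool) (m : ℕ) :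
    MeasurableSet (E X w m) := by
  have : E X w m = ⋂ i, ⋂ (_ : i < m), X i ⁻¹' {w i} := by
    ext ω
    simp [E]
  rw [this]
  exact MeasurableSet.iInter fun i => MeasurableSet.iInter fun _ =>
    hX i (measurableSet_singleton _)

theorem N_meas {X : ℕ → Ω → Bool} (hX : ∀ t, Measurable (X t)) (m n : ℕ) :
    MeasurableSet (N X m n) := by
  have : N X m n = ⋂ i, ⋂ (_ : i < n), (X (m + i) ⁻¹' {false} ∩ X (m + i + 1) ⁻¹' {false})ᶜ := by
    ext ω
    simp only [N, mem_ofPred_eq, mem_iInter, mem_compl_iff, mem_inter_iff, mem_preimage,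
      mem_singleton_iff]
  rw [this]
  exact MeasurableSet.iInter fun i => MeasurableSet.iInter fun _ =>
    ((hX _ (measurableSet_singleton _)).inter (hX _ (measurableSet_singleton _))).compl

theorem E_update {X : ℕ → Ω → Bool} (w : ℕ → Bool) (m : ℕ) (b : Bool) :
    E X (Function.update w m b) (m + 1) = {ω | ω ∈ E X w m ∧ X m ω = b} := by
  ext ω
  constructor
  · intro h
    refine ⟨fun i hi => ?_, ?_⟩
    · have := h i (by omega)
      rwa [Function.update_of_ne (by omega)] at this
    · have := h m (by omega)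
      rwa [Function.update_self] at this
  · rintro ⟨h1, h2⟩ i hi
    rcases Nat.lt_succ_iff_lt_or_eq.1 hi with h | h
    · rw [Function.update_of_ne (by omega)]
      exact h1 i h
    · rw [h, Function.update_self]
      exact h2

theorem N_succ {X : ℕ → Ω → Bool} {m n : ℕ} {ω : Ω} (h1 : ω ∈ N X (m + 1) n)
    (h2 : ¬ (X m ω = false ∧ X (m + 1) ω = false)) : ω ∈ N X m (n + 1) := by
  intro i hi
  rcases Nat.eq_zero_or_pos i with h | h
  · rw [h]
    exact h2
  · have := h1 (i - 1) (by omega)
    have e1 : m + 1 + (i - 1) = m + i := by omega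
    rw [e1] at this
    exact this

theorem main {p : ℝ} {X : ℕ → Ω → Bool} (hB : IsBernoulli μ p X)
    (n m : ℕ) (w : ℕ → Bool) :
    (∏ i ∈ Finset.range (m + 1), if w i then p else 1 - p) * T p n (w m) ≤
      μ.real (E X w (m + 1) ∩ N X m n) := by
  induction n generalizing m w with
  | zero =>
    have : E X w (m + 1) ∩ N X m 0 = E X w (m + 1) := by
      apply inter_eq_left.2
      intro ω _ i hi
      exact absurd hi (Nat.not_lt_zero i)
    rw [this]
    have h2 := hB.2 (m + 1) w
    show _ * (1 : ℝ) ≤ _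
    rw [mul_one, ← h2]
    exact le_rfl
  | succ n ih =>
    have hprod : ∀ b : Bool, (∏ i ∈ Finset.range (m + 1 + 1),
        if Function.update w (m + 1) b i then p else 1 - p) =
        (∏ i ∈ Finset.range (m + 1), if w i then p else 1 - p) * (if b then p else 1 - p) := by
      intro b
      rw [Finset.prod_range_succ, Function.update_self]
      congr 1
      apply Finset.prod_congr rfl
      intro i hi
      rw [Function.update_of_ne (Finset.mem_range.1 hi).ne]
    have it := ih (m + 1) (Function.update w (m + 1) true)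
    have iff' := ih (m + 1) (Function.update w (m + 1) false)
    rw [hprod, Function.update_self] at it iff'
    have hsub : ∀ b : Bool, ¬ (w m = false ∧ b = false) →
        E X (Function.update w (m + 1) b) (m + 1 + 1) ∩ N X (m + 1) n ⊆
          E X w (m + 1) ∩ N X m (n + 1) := by
      intro b hb ω hω
      rw [E_update] at hω
      refine ⟨hω.1.1, N_succ hω.2 ?_⟩
      rintro ⟨h2, h3⟩
      apply hb
      refine ⟨?_, ?_⟩
      · rw [← hω.1.1 m (by omega)]
        exact h2
      · rw [← hω.1.2]
        exact h3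
    cases hw : w m
    · have h2 : μ.real (E X (Function.update w (m + 1) true) (m + 1 + 1) ∩ N X (m + 1) n) ≤
          μ.real (E X w (m + 1) ∩ N X m (n + 1)) :=
        measureReal_mono (hsub true (by simp))
      refine le_trans (le_of_eq ?_) (it.trans h2)
      show _ * (p * T p n true) = _
      simp only [if_true]
      ring
    · have hd : Disjoint (E X (Function.update w (m + 1) true) (m + 1 + 1) ∩ N X (m + 1) n)
          (E X (Function.update w (m + 1) false) (m + 1 + 1) ∩ N X (m + 1) n) := by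
        rw [Set.disjoint_left]
        intro ω ha hb
        rw [E_update] at ha hb
        have := ha.1.2.symm.trans hb.1.2
        simp at this
      have hm : MeasurableSet (E X (Function.update w (m + 1) false) (m + 1 + 1) ∩
          N X (m + 1) n) := (E_meas hB.1 _ _).inter (N_meas hB.1 _ _)
      have h2 : μ.real ((E X (Function.update w (m + 1) true) (m + 1 + 1) ∩ N X (m + 1) n) ∪
          (E X (Function.update w (m + 1) false) (m + 1 + 1) ∩ N X (m + 1) n)) ≤
          μ.real (E X w (m + 1) ∩ N X m (n + 1)) :=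
        measureReal_mono (union_subset (hsub true (by simp)) (hsub false (by simp [hw])))
      rw [measureReal_union hd hm] at h2
      refine le_trans (le_of_eq ?_) ((add_le_add it iff').trans h2)
      show _ * (p * T p n true + (1 - p) * T p n false) = _
      simp only [if_true]
      simp only [Bool.false_eq_true, if_false]
      ring

theorem bound {p : ℝ} {X Y : ℕ → Ω → Bool} (hX : IsBernoulli μ p X) (hY : IsBernoulli μ p Y)
    (h1 : ∀ t, ∀ᵐ ω ∂μ, ¬ (X t ω = true ∧ Y t ω = true))
    (h2 : ∀ t, ∀ᵐ ω ∂μ, ¬ (Y t ω = true ∧ X (t + 1) ω = true)) (m : ℕ) :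
    p * T p m true ≤ (1 - p) ^ m := by
  have h3 := main hX m 0 (fun _ => true)
  simp only [zero_add, Finset.range_one, Finset.prod_singleton, if_true] at h3
  refine h3.trans ?_
  have h4 := hY.2 m (fun _ => false)
  simp only [Bool.false_eq_true, if_false, Finset.prod_const, Finset.card_range] at h4
  rw [← h4]
  apply ENNReal.toReal_mono (measure_ne_top _ _)
  apply measure_mono_ae
  filter_upwards [ae_all_iff.2 h1, ae_all_iff.2 h2] with ω a1 a2
  intro hω
  show ∀ i < m, Y i ω = false
  intro i hi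
  have hN := hω.2 i hi
  rw [zero_add] at hN
  by_contra hy
  have hy' : Y i ω = true := by simpa using hy
  apply hN
  constructor
  · by_contra hx
    exact a1 i ⟨by simpa using hx, hy'⟩
  · by_contra hx
    exact a2 i ⟨hy', by simpa using hx⟩

theorem grow {p : ℝ} (h : 1 / 3 < p) (hp : p < 1) : ∃ r : ℝ, 1 - p < r ∧ ∀ n, r ^ n ≤ T p n true := by
  obtain ⟨r, hr⟩ : ∃ r : ℝ, r = 1 - p + (1 - p) * (3 * p - 1) / 2 := ⟨_, rfl⟩
  have hq : 0 < 1 - p := by linarith
  have hd : 0 < (1 - p) * (3 * p - 1) := mul_pos hq (by linarith)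
  have hr1 : 1 - p < r := by rw [hr]; linarith
  have hr0 : 0 < r := hq.trans hr1
  have hd2 : (1 - p) * (3 * p - 1) / 2 ≤ p := by nlinarith
  have hr2 : r ≤ 1 := by rw [hr]; linarith
  have hkey : r ^ 2 ≤ p * r + p * (1 - p) := by
    have hd3 : (1 - p) * (3 * p - 1) / 2 ≤ 1 := by linarith
    have e : p * r + p * (1 - p) - r ^ 2 = (1 - p) * (3 * p - 1) -
        (1 - p) * (3 * p - 1) / 2 * (2 - 3 * p + (1 - p) * (3 * p - 1) / 2) := by
      rw [hr]
      ring
    have h3 : (1 - p) * (3 * p - 1) / 2 * (2 - 3 * p + (1 - p) * (3 * p - 1) / 2) ≤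
        (1 - p) * (3 * p - 1) / 2 * 2 :=
      mul_le_mul_of_nonneg_left (by linarith) (by linarith)
    linarith
  refine ⟨r, hr1, ?_⟩
  have hT : ∀ n, T p (n + 2) true = p * T p (n + 1) true + (1 - p) * (p * T p n true) :=
    fun n => rfl
  have hall : ∀ n, r ^ n ≤ T p n true ∧ r ^ (n + 1) ≤ T p (n + 1) true := by
    intro n
    induction n with
    | zero =>
      refine ⟨by rw [pow_zero]; exact le_rfl, ?_⟩
      show r ^ (0 + 1) ≤ p * 1 + (1 - p) * 1
      rw [zero_add, pow_one]
      linarith
    | succ n ih =>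
      refine ⟨ih.2, ?_⟩
      rw [hT]
      have e : r ^ (n + 1 + 1) = r ^ n * r ^ 2 := by ring
      rw [e]
      calc r ^ n * r ^ 2 ≤ r ^ n * (p * r + p * (1 - p)) :=
            mul_le_mul_of_nonneg_left hkey (pow_pos hr0 n).le
        _ = p * r ^ (n + 1) + (1 - p) * (p * r ^ n) := by ring
        _ ≤ p * T p (n + 1) true + (1 - p) * (p * T p n true) := by
            have p0 : 0 ≤ p := by linarith
            exact add_le_add (mul_le_mul_of_nonneg_left ih.2 p0)
              (mul_le_mul_of_nonneg_left (mul_le_mul_of_nonneg_left ih.1 p0) hq.le)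
  exact fun n => (hall n).1

/-- A 1-avoidance coupling of two Bernoulli(`p`) walkers exists only for `p ≤ 1/3`; hence
`p_2 ≤ 1/3`. -/
theorem result : (∀ p : ℝ, Admissible 2 p → p ≤ 1 / 3) ∧ pk 2 ≤ 1 / 3 := by
  have key : ∀ p : ℝ, Admissible 2 p → p ≤ 1 / 3 := by
    rintro p ⟨h0, h1, Ω, _, μ, _, X, hB, hs, hn⟩
    have hb : ∀ m, p * T p m true ≤ (1 - p) ^ m :=
      bound (hB 0) (hB 1) (fun t => hs t 0 1 (by decide)) (fun t => hn t 0 1 (by decide))
    by_contra hlt
    rw [not_le] at hlt
    rcases lt_or_eq_of_le h1 with h1' | h1'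
    · obtain ⟨r, hr, hT⟩ := grow hlt h1'
      have hq : 0 < 1 - p := by linarith
      have hp : 0 < p := by linarith
      obtain ⟨n, hn⟩ := pow_unbounded_of_one_lt (1 / p) ((one_lt_div hq).2 hr)
      have h2 : p * r ^ n ≤ (1 - p) ^ n := (mul_le_mul_of_nonneg_left (hT n) hp.le).trans (hb n)
      rw [div_pow, div_lt_div_iff₀ hp (pow_pos hq n)] at hn
      linarith
    · have h2 := hb 1
      have e : T p 1 true = 1 := by
        show p * 1 + (1 - p) * 1 = 1
        ring
      rw [e, h1'] at h2
      norm_num at h2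
  exact ⟨key, Real.sSup_le (fun p hp => key p hp) (by norm_num)⟩

end Pool.Agent.Results.MP_f1618c_pr.TwoWalkers
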