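import Pool.Agent.Q203.GIH.Circ

set_option autoImplicit false

/-!
# Very small error probabilities for graph isomorphism are as hard as the worst case

Almost all graphs are easy for graph isomorphism: for every constant `C` some polynomial time
algorithm (the `k`-dimensional Weisfeiler-Leman algorithm for a suitable `k`) handles all but a
fraction `2 ^ (- C n)` of the graphs on `n` vertices. Here it is shown that this cannot be improved
to `2 ^ (- n ^ (1 + ε))`, for any `ε > 0`, unless graph isomorphism has circuits of polynomial size:
polynomial size circuits that decide isomorphism for all but a fraction `2 ^ (- n ^ (1 + ε))` of the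
graphs exist if and only if polynomial size circuits for graph isomorphism exist.

The exact form: if a circuit for pairs of graphs on `a + m` vertices, `m < a`, is correct for all
graphs except less than `2 ^ (a.choose 2 - 1)`, then graph isomorphism on `m` vertices has an exact
circuit with the same number of gates, obtained by fixing some inputs. More generally, for an
arbitrary relation `A` between graphs (an algorithm of any kind), the number of connected graphs
`R` on `a` vertices such that `A` makes a mistake on some pair `R ⊔ G`, `R ⊔ H` is at most the
number of graphs on which `A` is not correct; as at least half of the graphs are connected, a random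
`R` gives a randomized reduction of the worst case to the instances with such errors.

Here `A` is correct on a graph `G` if it gives the right answer for the pair `(G, H)` for every
`H`.
-/

namespace Pool.Agent.Results.MP_f1a348_lc.ErrorThreshold

open Pool.Agent.Q203.GIH

/-- **Worst-case to average-case reduction for graph isomorphism.** -/
theorem result :
    (∀ ε : ℝ, 0 < ε → (GIPoly ↔ GIHeur ε)) ∧
    (∀ a m : ℕ, m < a → ∀ C : Circuit (Var (a + m)),
      2 * (badSet C.rel).ncard < 2 ^ a.choose 2 →
      ∃ C' : Circuit (Var m), C'.size = C.size ∧ ∀ G H, C'.rel G H ↔ Nonempty (G ≃g H)) ∧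
    (∀ a m : ℕ, m < a → ∀ A : SimpleGraph (Fin (a + m)) → SimpleGraph (Fin (a + m)) → Prop,
      {R : SimpleGraph (Fin a) | R.Connected ∧
        ∃ G H : SimpleGraph (Fin m), ¬ (A (pad R G) (pad R H) ↔ Nonempty (G ≃g H))}.ncard ≤
        (badSet A).ncard ∧
      2 ^ a.choose 2 ≤ 2 * {R : SimpleGraph (Fin a) | R.Connected}.ncard) :=
  ⟨fun ε hε => ⟨heur_of_poly ε, poly_of_heur hε⟩, fun _ _ h C hC => circuit_pad h C hC,
    fun a m h A => ⟨card_bad_pad h A, card_connected (by omega)⟩⟩

end Pool.Agent.Results.MP_f1a348_lc.ErrorThreshold
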