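import Pool.Agent.Q203.GIH.Gap

set_option autoImplicit false

/-!
# Isomorphic graphs versus graphs at distance N ^ (2 - ε): as hard as graph isomorphism

In property testing and in the approximation of the edit distance one has to tell isomorphic graphs
on `N` vertices from graphs for which every bijection is wrong on a constant fraction of all pairs
of vertices. This is easy: the number of queries is about `√N` or `N`, and the time is
quasipolynomial (Fischer and Matsliah). Here it is shown that every gap `N ^ (- ε)` instead of a
constant makes the problem as hard as graph isomorphism itself: polynomial size circuits that accept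
all isomorphic pairs and reject all pairs which are `N ^ (1 - ε)`-far exist if and only if
polynomial size circuits for graph isomorphism exist.

Here `G` and `H` are `t`-far if for every bijection between the vertices there are disjoint sets `S`
and `T` of at least `t` vertices of `G` such that the bijection is wrong on all pairs in `S × T`. So
the pairs that have to be rejected are far from isomorphic in all the usual ways: at least `t ^ 2`
pairs of vertices are wrong for every bijection, and common induced subgraphs have at most `N - t`
vertices.

The exact form: a circuit for graphs on `n k` vertices that accepts isomorphic pairs and rejects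
`k / n ^ 2`-far pairs gives a circuit with the same number of gates for graph isomorphism on `n`
vertices. Proof: replace every vertex by `k` copies; by the theorem of Hall, every bijection between
the blow-ups agrees on at least `k / n ^ 2` copies of every vertex with the same bijection between
the `n` vertices.
-/

namespace Pool.Agent.Results.MP_f1a348_lc.GapThreshold

open Pool.Agent.Q203.GIH

/-- **Every gap below a constant is as hard as graph isomorphism.** -/
theorem result :
    (∀ ε : ℝ, 0 < ε → (GIPoly ↔ GapPoly ε)) ∧
    (∀ (n k : ℕ) (C : Circuit (Var (n * k))), C.Gap ((k : ℝ) / (n : ℝ) ^ 2) →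
      ∃ C' : Circuit (Var n), C'.size = C.size ∧ ∀ G H, C'.rel G H ↔ Nonempty (G ≃g H)) ∧
    (∀ (n k : ℕ) (G H : SimpleGraph (Fin n)),
      (Nonempty (G ≃g H) → Nonempty (blow k G ≃g blow k H)) ∧
      (¬ Nonempty (G ≃g H) → Far ((k : ℝ) / (n : ℝ) ^ 2) (blow k G) (blow k H))) ∧
    (∀ (N : ℕ) (t : ℝ), 0 ≤ t → ∀ G H : SimpleGraph (Fin N), Far t G H →
      ∀ π : Equiv.Perm (Fin N),
        t ^ 2 ≤ ({p : Fin N × Fin N | ¬ (G.Adj p.1 p.2 ↔ H.Adj (π p.1) (π p.2))}.ncard : ℝ) ∧
        ∀ U : Finset (Fin N), (∀ x ∈ U, ∀ y ∈ U, (G.Adj x y ↔ H.Adj (π x) (π y))) →
          (U.card : ℝ) ≤ N - t) :=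
  ⟨fun ε hε => ⟨gap_of_poly ε, poly_of_gap hε⟩, fun _ _ C hC => circuit_blow C hC,
    fun _ k _ _ => ⟨fun ⟨e⟩ => blow_iso k e, fun h => blow_far h⟩,
    fun _ _ ht _ _ h π => ⟨h.errors ht π, fun U hU => h.common π U hU⟩⟩

end Pool.Agent.Results.MP_f1a348_lc.GapThreshold
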