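import Pool.Agent.Q236.UL.Sys
import Pool.Agent.Q236.JC.Sys
import Pool.Agent.Y879.GL.QuadU

set_option autoImplicit false

/-!
# Almost primes represented by different polynomials are independent

For a system `F = (f_1, …, f_k)` of polynomials call `m` good if no `f_j (m)` has a prime factor `≤ X ^ (1 / r)`. Let
`F_1, …, F_s` be systems such that no polynomial of `F_i` is `±` a translate (by at most `X ^ η`) of a polynomial of
`F_j` (nor a polynomial of `F_i` of a different translate of one of `F_i`), for example `F_i = (x ^ 2 + a_i)` with different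
positive integers `a_i`. Then, as `n` runs over any interval `(Z, Z + Y]`, `Y ≥ X ^ θ`, the numbers of the good numbers of the
different systems in finitely many windows `(n + u_t, n + v_t]` (windows of the same system being disjoint), of lengths of
the order of the mean distances, are asymptotically independent Poisson variables, uniformly in all systems of
polynomials of bounded degree with coefficients `≤ X ^ E`.

Method: mixed factorial moments of all types (abstract joint Poisson law for sieve conditions `Pool.Agent.Q236.UL`): the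
moments are sums over sets of shifted conditions of several types, the density of a set of conditions is the
product of the densities up to collisions of the conditions, and the primes at which two conditions collide divide
resultants; the sieve of dimension `≤ c` in each residue class modulo the primes `≤ w`.
-/

namespace Pool.Agent.Results.MP_f1a94e_nt.IndependentForms

open Finset Filter Polynomial

/-- The number `ω_F(p)` of the residues `n` modulo `p` for which `p` divides the product of the `f_j (n)`. -/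
def ω {k : ℕ} (F : Fin k → ℤ[X]) (p : ℕ) : ℕ :=
  ((Finset.range p).filter (fun n : ℕ => (p : ℤ) ∣ ∏ i, (F i).eval (n : ℤ))).card

/-- The product of `1 - ω_F(p) / p` over the primes `p ≤ y`. -/
noncomputable def W {k : ℕ} (y : ℝ) (F : Fin k → ℤ[X]) : ℝ :=
  ∏ p ∈ (Finset.Icc 1 ⌊y⌋₊).filter Nat.Prime, (1 - (ω F p : ℝ) / p)

/-- A family of systems of irreducible nonconstant polynomials of degrees at most `D`, with coefficients at most
`H`, without fixed prime divisor; no polynomial of the `s`-th system is `±` a polynomial of the `t`-th system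
shifted by `0 ≤ h ≤ U`, where `h ≥ 1` if `s = t`. -/
structure Family {k s : ℕ} (D : ℕ) (H U : ℝ) (F : Fin s → Fin k → ℤ[X]) : Prop where
  irr : ∀ t i, Irreducible (F t i)
  deg : ∀ t i, (F t i).natDegree ≠ 0
  degD : ∀ t i, (F t i).natDegree ≤ D
  height : ∀ t i n, |(((F t i).coeff n : ℤ) : ℝ)| ≤ H
  adm : ∀ t, ∀ p : ℕ, p.Prime → ω (F t) p < p
  shift : ∀ s t i j, ∀ h : ℕ, (h : ℝ) ≤ U → (s = t → 1 ≤ h) →
    F s i ≠ (F t j).comp (X + C (h : ℤ)) ∧ F s i ≠ -(F t j).comp (X + C (h : ℤ))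

/-- No prime `p ≤ X ^ (1 / r)` divides any of the `f_j (m)`. -/
def Good {k : ℕ} (X : ℕ) (F : Fin k → ℤ[X]) (r m : ℕ) : Prop :=
  ∀ p : ℕ, p.Prime → (p : ℝ) ≤ (X : ℝ) ^ (1 / (r : ℝ)) → ∀ i, ¬ (p : ℤ) ∣ (F i).eval (m : ℤ)

open Classical in
/-- The number of the good `m` with `n + u < m ≤ n + v`. -/
noncomputable def count {k : ℕ} (X : ℕ) (F : Fin k → ℤ[X]) (r u v n : ℕ) : ℕ :=
  ((Finset.Ioc (n + u) (n + v)).filter (fun m => Good X F r m)).card

/-- The probability of `A` for independent Poisson variables with the means `x_t`. -/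
noncomputable def poisson {m : ℕ} (x : Fin m → ℝ) (A : Finset (Fin m → ℕ)) : ℝ :=
  ∑ j ∈ A, ∏ t, (Real.exp (-x t) * x t ^ j t / (j t).factorial)

/-- The systems `(x ^ 2 + a_i)`. -/
noncomputable def squares {s : ℕ} (a : Fin s → ℕ) : Fin s → Fin 1 → ℤ[X] := fun i _ => X ^ 2 + C (a i : ℤ)

/-- For all `n` in `(Z, Z + Y]` but an `ε`-part, the counts in the windows have the law of independent Poisson
variables: for all finite sets `A` of values, the number of `n` is `Y · poisson + O* (ε Y)`. -/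
def Law {k s m : ℕ} (X r : ℕ) (F : Fin s → Fin k → ℤ[X]) (Λ ε : ℝ) (Z Y : ℕ) : Prop :=
  ∀ (σ : Fin m → Fin s) (u v : Fin m → ℕ), (∀ t, u t ≤ v t) →
    (∀ t, v t * W ((X : ℝ) ^ (1 / (r : ℝ))) (F (σ t)) ≤ Λ) →
    (∀ t t', t ≠ t' → σ t = σ t' → v t ≤ u t' ∨ v t' ≤ u t) →
    ∀ A : Finset (Fin m → ℕ),
      |(((Finset.Ioc Z (Z + Y)).filter (fun n => (fun t => count X (F (σ t)) r (u t) (v t) n) ∈ A)).card : ℝ) -
        Y * poisson (fun t => ((v t : ℝ) - u t) * W ((X : ℝ) ^ (1 / (r : ℝ))) (F (σ t))) A| ≤ ε * Y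

open Pool.Agent.W123.RU Pool.Agent.H373R2.T7 Pool.Agent.TH464.PO Pool.Agent.W123.RP Pool.Agent.Q236.GW
open Pool.Agent.Y879.GL Pool.Agent.Q236.EV Pool.Agent.Q236.UL
open Pool.Agent.W123.RU.Poly (Q)

lemma Q_iff {k : ℕ} (F : Fin k → ℤ[X]) (p m : ℕ) (hp : p.Prime) :
    Q F p m ↔ (p : ℤ) ∣ ∏ i, (F i).eval (m : ℤ) := by
  have hpi : Prime (p : ℤ) := Nat.prime_iff_prime_int.1 hp
  unfold Q
  rw [hpi.dvd_finsetProd_iff]
  exact ⟨fun ⟨i, hi⟩ => ⟨i, Finset.mem_univ i, hi⟩, fun ⟨i, _, hi⟩ => ⟨i, hi⟩⟩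

lemma nu_eq {k : ℕ} (F : Fin k → ℤ[X]) (p : ℕ) (hp : p.Prime) : nuB (Q F) p = ω F p := by
  unfold nuB ω
  exact card_iff _ _ (fun m _ => Q_iff F p m hp)

lemma W_eq {k : ℕ} (y : ℝ) (F : Fin k → ℤ[X]) : Vq (Q F) ⌊y⌋₊ = W y F := by
  unfold Vq W
  have h1 : pz ⌊y⌋₊ = (Finset.Icc 1 ⌊y⌋₊).filter Nat.Prime := by
    ext p
    rw [mem_pz, Finset.mem_filter, Finset.mem_Icc]
    exact ⟨fun h => ⟨⟨h.2.one_lt.le, h.1⟩, h.2⟩, fun h => ⟨h.1.2, h.2⟩⟩
  rw [h1]
  apply Finset.prod_congr rfl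
  intro p hp
  rw [nu_eq F p (Finset.mem_filter.1 hp).2]

lemma W_eq' {k : ℕ} (y : ℕ) (F : Fin k → ℤ[X]) : Vq (Q F) y = W y F := by
  rw [← W_eq, Nat.floor_natCast]

lemma good_iff {k : ℕ} (X : ℕ) (F : Fin k → ℤ[X]) (r m : ℕ) :
    Sf (Q F) ⌊(X : ℝ) ^ (1 / (r : ℝ))⌋₊ m ↔ Good X F r m := by
  have h0 : (0 : ℝ) ≤ (X : ℝ) ^ (1 / (r : ℝ)) := by positivity
  constructor
  · intro h q hq hqn i hd
    exact h q (mem_pz.2 ⟨Nat.le_floor hqn, hq⟩) ⟨i, hd⟩
  · rintro h q hq ⟨i, hi⟩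
    exact h q (mem_pz.1 hq).2 (mem_pz' h0 hq) i hi

lemma count_eq {k : ℕ} (X : ℕ) (F : Fin k → ℤ[X]) (r u v n : ℕ) :
    Pool.Agent.Q236.CP.NB (Q F) ⌊(X : ℝ) ^ (1 / (r : ℝ))⌋₊ (Ioc u v) n = count X F r u v n := by
  classical
  unfold Pool.Agent.Q236.CP.NB count
  apply Finset.card_bij (fun b _ => n + b)
  · intro b hb
    rw [Finset.mem_filter, Finset.mem_Ioc] at hb ⊢
    exact ⟨by omega, (good_iff X F r _).1 hb.2⟩
  · intro a _ b _ hab
    omega
  · intro b hb
    rw [Finset.mem_filter, Finset.mem_Ioc] at hb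
    have e : n + (b - n) = b := by omega
    refine ⟨b - n, ?_, e⟩
    rw [Finset.mem_filter, Finset.mem_Ioc, e]
    exact ⟨by omega, (good_iff X F r _).2 hb.2⟩

lemma toUSF {k s D : ℕ} {H U : ℝ} {F : Fin s → Fin k → ℤ[X]} (h : Family D H U F) : USF k D H U F where
  bd t := ⟨h.irr t, h.deg t, h.degD t, h.height t⟩
  adm t p hp := by
    obtain ⟨m, _, hm⟩ := nu_exists (Q (F t)) p (by rw [nu_eq (F t) p hp]; exact h.adm t p hp)
    exact ⟨m, fun i hi => hm ⟨i, hi⟩⟩
  tr s t i j d hd hst hass := by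
    rcases assoc_cases hass with h1 | h1
    · exact (h.shift s t i j d hd hst).1 h1
    · exact (h.shift s t i j d hd hst).2 h1

lemma few (X r K m : ℕ) (hr : 1 ≤ r) (hX : 2 ^ r ≤ X) (hm : 0 < m) (hmX : m ≤ X ^ K)
    (h : ∀ p : ℕ, p.Prime → p ∣ m → (X : ℝ) ^ (1 / (r : ℝ)) < (p : ℝ)) :
    m.primeFactorsList.length ≤ K * r := by
  have hr0 : (r : ℝ) ≠ 0 := by exact_mod_cast (by omega : r ≠ 0)
  have hX1 : (1 : ℝ) ≤ X := by
    have : 1 ≤ 2 ^ r := Nat.one_le_two_pow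
    exact_mod_cast this.trans hX
  have hz1 : 1 ≤ (X : ℝ) ^ (1 / (r : ℝ)) := Real.one_le_rpow hX1 (by positivity)
  apply length_le m (K * r) (by omega) _ h _ hz1
  have e : ((X : ℝ) ^ (1 / (r : ℝ))) ^ r = X := by
    rw [← Real.rpow_natCast, ← Real.rpow_mul (by linarith), one_div, inv_mul_cancel₀ hr0, Real.rpow_one]
  have hmX' : (m : ℝ) ≤ (X : ℝ) ^ K := by exact_mod_cast hmX
  rw [pow_succ, mul_comm K r, pow_mul, e]
  have h0 : (0 : ℝ) ≤ (X : ℝ) ^ K := by positivity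
  nlinarith

lemma law_of {k s m : ℕ} (X r : ℕ) (F : Fin s → Fin k → ℤ[X]) (Λ ε : ℝ) (Z Y : ℕ)
    (h : ∀ (σ : Fin m → Fin s) (u v : Fin m → ℕ), (∀ t, u t ≤ v t) →
      (∀ t, v t * Vq (Q (F (σ t))) ⌊(X : ℝ) ^ (1 / (r : ℝ))⌋₊ ≤ Λ) →
      (∀ s t, s ≠ t → σ s = σ t → Disjoint (Ioc (u s) (v s)) (Ioc (u t) (v t))) →
      ∀ A : Finset (Fin m → ℕ), |(((Ioc Z (Z + Y)).filter (fun n => (fun t => Pool.Agent.Q236.CP.NB (Q (F (σ t)))
          ⌊(X : ℝ) ^ (1 / (r : ℝ))⌋₊ (Ioc (u t) (v t)) n) ∈ A)).card : ℝ) -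
        Y * PoJ (fun t => ((v t : ℝ) - u t) * Vq (Q (F (σ t))) ⌊(X : ℝ) ^ (1 / (r : ℝ))⌋₊) A| ≤ ε * Y) :
    Law (m := m) X r F Λ ε Z Y := by
  intro σ u v huv hv hdis A
  have h1 := h σ u v huv (fun t => by rw [W_eq]; exact hv t) (fun t t' hne he => by
    rw [Finset.disjoint_left]
    intro b hb hb'
    rw [Finset.mem_Ioc] at hb hb'
    rcases hdis t t' hne he with h2 | h2 <;> omega) A
  simp only [W_eq, count_eq] at h1
  exact h1

lemma sq_eq {s : ℕ} (a : Fin s → ℕ) (i : Fin s) : squares a i = qs 1 0 (a i) := by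
  funext _
  unfold squares qs Pool.Agent.TH464.PW.quad
  simp

lemma sq_sys (a : ℕ) (ha : 1 ≤ a) : Pool.Agent.W123.RU.Poly.Sys (qs 1 0 a) := by
  refine qs_sys 1 0 a one_pos (fun p hp hd => hp.one_lt.ne' (by
    have := hd.1
    exact Nat.dvd_one.1 (by exact_mod_cast this))) (by
    rintro ⟨h1, h2⟩
    exact absurd h1 (by decide)) (by
    rintro ⟨s, hs⟩
    have : (0 : ℤ) < a := by exact_mod_cast ha
    nlinarith [mul_self_nonneg s])

/-- **Almost primes represented by different polynomials are independent.** -/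
theorem result (k D s m : ℕ) (Λ ε E η θ : ℝ) (hΛ : 0 ≤ Λ) (hε : 0 < ε) (hE : 0 < E) (hη : 0 < η) (hθ : 0 < θ) :
    (1 ≤ k → ∀ F : Fin k → ℤ[X], (∀ i, Irreducible (F i)) → (∀ i, 0 < (F i).natDegree) →
      (∀ i, 0 < (F i).leadingCoeff) → Function.Injective F → (∀ p : ℕ, p.Prime → ω F p < p) →
      ∃ c C : ℝ, 0 < c ∧ 0 < C ∧ ∀ y : ℕ, 3 ≤ y → c / Real.log y ^ k ≤ W y F ∧ W y F ≤ C / Real.log y ^ k) ∧
    (∀ (X r K : ℕ) (F : Fin k → ℤ[X]) (m : ℕ), 1 ≤ r → 2 ^ r ≤ X → Good X F r m →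
      ∀ i, 0 < ((F i).eval (m : ℤ)).natAbs → ((F i).eval (m : ℤ)).natAbs ≤ X ^ K →
        ((F i).eval (m : ℤ)).natAbs.primeFactorsList.length ≤ K * r) ∧
    (∃ r₀ : ℕ, 2 ≤ r₀ ∧ ∀ r : ℕ, r₀ ≤ r → ∀ C : ℝ, 0 < C → ∀ᶠ X : ℕ in atTop,
      ∀ F : Fin s → Fin k → ℤ[X], Family D ((X : ℝ) ^ E) ((X : ℝ) ^ η) F → (∀ t, W X (F t) ≤ C / Real.log X) →
        ∀ Z Y : ℕ, (X : ℝ) ^ θ ≤ Y → Law (m := m) X r F Λ ε Z Y) ∧
    (∀ a : Fin s → ℕ, (∀ i, 1 ≤ a i) → Function.Injective a → ∃ r₀ : ℕ, 2 ≤ r₀ ∧ ∀ r : ℕ, r₀ ≤ r →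
      ∀ᶠ X : ℕ in atTop, ∀ Z Y : ℕ, (X : ℝ) ^ θ ≤ Y → Law (m := m) X r (squares a) Λ ε Z Y) := by
  refine ⟨?_, ?_, ?_, ?_⟩
  · intro hk F hirr hdeg hlead hinj hadm
    have hsys : Pool.Agent.W123.RU.Poly.Sys F := ⟨hirr, hdeg, hlead, hinj, fun p hp => by
      obtain ⟨m, _, hm⟩ := nu_exists (Q F) p (by rw [nu_eq F p hp]; exact hadm p hp)
      exact ⟨m, fun i hi => hm ⟨i, hi⟩⟩⟩
    have : Nonempty (Fin k) := ⟨⟨0, by omega⟩⟩
    obtain ⟨v, Cv, hv, hCv, hV⟩ := Pool.Agent.W123.RU.Poly.V_bounds F hsys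
    refine ⟨v, Cv, hv, hCv, fun X hX => ?_⟩
    have h1 := hV X hX
    rw [Fintype.card_fin, W_eq'] at h1
    exact h1
  · intro X r K F m hr hX hG i h1 h2
    apply few X r K _ hr hX h1 h2
    intro p hp hd
    by_contra hcon
    rw [not_lt] at hcon
    exact hG p hp hcon i (Int.natCast_dvd.2 hd)
  · obtain ⟨r₀, hr₀, h⟩ := fam_law (τ := Fin m) (ι := Fin s) k D Λ ε hΛ hε E η θ hE hη hθ
    refine ⟨r₀, hr₀, ?_⟩
    intro r hr C hC
    filter_upwards [h r hr C hC] with X hX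
    intro F hF hV Z Y hY
    exact law_of X r F Λ ε Z Y (fun σ u v huv hv hdis A =>
      hX F (toUSF hF) (fun t => by rw [W_eq']; exact hV t) Z Y hY σ u v huv hv hdis A)
  · intro a ha hinj
    obtain ⟨r₀, hr₀, h⟩ := fam_law (τ := Fin m) (ι := Fin s) 1 2 Λ ε hΛ hε 1 1 θ one_pos one_pos hθ
    refine ⟨r₀, hr₀, ?_⟩
    intro r hr
    have hV : ∀ i, ∃ Cv : ℝ, 0 < Cv ∧ ∀ X : ℕ, 3 ≤ X → Vq (Q (squares a i)) X ≤ Cv / Real.log X := by
      intro i
      obtain ⟨v, Cv, hv, hCv, hV⟩ := Pool.Agent.W123.RU.Poly.V_bounds (qs 1 0 (a i)) (sq_sys (a i) (ha i))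
      refine ⟨Cv, hCv, fun X hX => ?_⟩
      rw [sq_eq]
      have := (hV X hX).2
      rwa [Fintype.card_fin, pow_one] at this
    choose Cv hCv hV' using hV
    have hCs : 0 < ∑ i, Cv i + 1 := by
      have : 0 ≤ ∑ i, Cv i := Finset.sum_nonneg fun i _ => (hCv i).le
      linarith
    filter_upwards [h r hr (∑ i, Cv i + 1) hCs, eventually_ge_atTop 3,
      eventually_ge_atTop (∑ i, a i)] with X hX hX3 hXa
    intro Z Y hY
    refine law_of X r _ Λ ε Z Y (fun σ u v huv hv hdis A => hX (squares a) ?_ ?_ Z Y hY σ u v huv hv hdis A)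
    · refine ⟨fun t => ?_, ?_, ?_⟩
      · have hs := sq_sys (a t) (ha t)
        rw [sq_eq]
        refine ⟨hs.irr, fun i => (hs.deg i).ne', fun i => ?_, fun i n => ?_⟩
        · exact (Pool.Agent.TH464.PW.quad_deg 1 0 (a t) one_ne_zero).le
        · have haX : a t ≤ X := (Finset.single_le_sum (fun i _ => Nat.zero_le (a i)) (mem_univ t)).trans hXa
          have h4 := Pool.Agent.Y879.GL.quad_coeff 1 0 (a t) n (X : ℤ) (by
              rw [abs_one]
              exact_mod_cast (by omega : 1 ≤ X)) (by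
              rw [abs_zero]
              positivity) (by
              rw [abs_of_nonneg (by positivity)]
              exact_mod_cast haX)
          rw [Real.rpow_one]
          have h5 : |(((Pool.Agent.TH464.PW.quad 1 0 (a t)).coeff n : ℤ) : ℝ)| ≤ X := by exact_mod_cast h4
          exact h5
      · intro t p hp
        rw [sq_eq]
        exact (sq_sys (a t) (ha t)).adm p hp
      · intro t t' i j d _ htt hass
        have hat : (1 : ℤ) ≤ a t := by exact_mod_cast ha t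
        have hat' : (1 : ℤ) ≤ a t' := by exact_mod_cast ha t'
        rcases assoc_cases hass with h1 | h1
        · have e0 := congrArg (eval 0) h1
          have e1 := congrArg (eval 1) h1
          have e2 := congrArg (eval (-1)) h1
          unfold squares at e0 e1 e2
          simp only [eval_add, eval_pow, eval_X, eval_C, eval_comp] at e0 e1 e2
          have hd : (d : ℤ) = 0 := by linarith
          rw [hd] at e0
          have haa : (a t : ℤ) = a t' := by linarith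
          have : t = t' := hinj (by exact_mod_cast haa)
          have h2 := htt this
          omega
        · have e0 := congrArg (eval 0) h1
          unfold squares at e0
          simp only [eval_add, eval_pow, eval_X, eval_C, eval_comp, eval_neg] at e0
          nlinarith [sq_nonneg (d : ℤ)]
    · intro t
      have hlog : 0 < Real.log X := Real.log_pos (by exact_mod_cast (by omega : 1 < X))
      refine (hV' t X hX3).trans ?_
      apply div_le_div_of_nonneg_right _ hlog.le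
      have := Finset.single_le_sum (fun i _ => (hCv i).le) (mem_univ t)
      linarith

end Pool.Agent.Results.MP_f1a94e_nt.IndependentForms
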