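import Pool.Agent.Q236.GW.Pair

set_option autoImplicit false

/-!
# Almost prime values `m ^ 2 + 1`: the gaps have the Poisson law in all short intervals

Call `m` good if all prime factors of `m ^ 2 + 1` are larger than `X ^ (1 / r)`, and let `V` be the density
of the good numbers, the product of `1 - ρ(p) / p` over the primes `p ≤ X ^ (1 / r)`. In every interval
`(Z, Z + Y]`, `Y ≥ X ^ θ`, the distances of the good numbers to their `k`-th predecessors, multiplied by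
`V`, have the law of the `k`-th point of a Poisson process of intensity one, up to `ε`.
-/

namespace Pool.Agent.Results.MP_f1a94e_nt.PoissonGaps

open Finset Filter

/-- All prime factors of `m ^ 2 + 1` are larger than `X ^ (1 / r)`. -/
def Good (r X m : ℕ) : Prop :=
  ∀ p : ℕ, p.Prime → p ∣ m ^ 2 + 1 → (X : ℝ) ^ (1 / (r : ℝ)) < (p : ℝ)

/-- The product of `1 - ρ(p) / p` over the primes `p ≤ X ^ (1 / r)`, where `ρ(p)` is the number of the
`m` mod `p` with `p ∣ m ^ 2 + 1`. -/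
noncomputable def V (r X : ℕ) : ℝ :=
  ∏ p ∈ (Finset.range (⌊(X : ℝ) ^ (1 / (r : ℝ))⌋₊ + 1)).filter Nat.Prime,
    (1 - (((Finset.range p).filter (fun m : ℕ => p ∣ m ^ 2 + 1)).card : ℝ) / p)

open Classical in
/-- The number of the good `m` in `(Z, Z + Y]` with fewer than `k` good numbers in `[m - T, m)`. -/
noncomputable def G (r X k T Z Y : ℕ) : ℕ :=
  ((Finset.Ioc Z (Z + Y)).filter (fun m => Good r X m ∧
    ((Finset.Ico (m - T) m).filter (fun l => Good r X l)).card < k)).card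

open Pool.Agent.W123.RU Pool.Agent.W123.RU.Poly Pool.Agent.W123.RP Pool.Agent.H373R2.T7
open Pool.Agent.TH464.PO Pool.Agent.Q236.GW

lemma good_iff (r X m : ℕ) : Sf (Q f1) ⌊(X : ℝ) ^ (1 / (r : ℝ))⌋₊ m ↔ Good r X m := by
  have h0 : (0 : ℝ) ≤ (X : ℝ) ^ (1 / (r : ℝ)) := by positivity
  constructor
  · intro h p hp hd
    apply not_mem_pz hp
    intro hmem
    exact h p hmem ((f1_Q p m hp).2 hd)
  · intro h p hp hq
    have hpp := (mem_pz.1 hp).2
    have h1 := h p hpp ((f1_Q p m hpp).1 hq)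
    have h2 := mem_pz' h0 hp
    linarith

lemma V_eq (r X : ℕ) : Vq (Q f1) ⌊(X : ℝ) ^ (1 / (r : ℝ))⌋₊ = V r X := by
  unfold Vq V
  apply Finset.prod_congr
  · unfold pz
    ext p
    simp only [mem_filter, mem_Icc, mem_range]
    constructor
    · rintro ⟨h1, h2⟩
      exact ⟨by omega, h2⟩
    · rintro ⟨h1, h2⟩
      exact ⟨⟨h2.one_lt.le, by omega⟩, h2⟩
  · intro p hp
    have hpp : p.Prime := (mem_filter.1 hp).2
    have h : nuB (Q f1) p =
        ((Finset.range p).filter (fun m : ℕ => p ∣ m ^ 2 + 1)).card := by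
      unfold nuB
      exact card_iff _ _ (fun m _ => f1_Q p m hpp)
    rw [h]

/-- **Almost prime values `m ^ 2 + 1`: the Poisson law of the gaps.** -/
theorem result :
    (∀ r : ℕ, 1 ≤ r → ∀ᶠ X : ℕ in atTop, ∀ m : ℕ, m ≤ X → Good r X m →
      (m ^ 2 + 1).primeFactorsList.length ≤ 2 * r) ∧
    ∀ θ : ℝ, 0 < θ → ∀ (k₀ : ℕ) (x₀ ε : ℝ), 0 < ε → ∃ r₀ : ℕ, ∀ r : ℕ, r₀ ≤ r →
      ∀ᶠ X : ℕ in atTop, ∀ Z Y : ℕ, (X : ℝ) ^ θ ≤ Y → ∀ k T : ℕ, (k ≤ k₀ ∨ T * V r X ≤ x₀) →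
        |(G r X k T Z Y : ℝ) - Y * V r X *
            ∑ j ∈ Finset.range k, Real.exp (-(T * V r X)) * (T * V r X) ^ j / (j.factorial : ℝ)| ≤
          ε * (Y * V r X) := by
  refine ⟨?_, ?_⟩
  · intro r hr
    have hr0 : (r : ℝ) ≠ 0 := by exact_mod_cast (by omega : r ≠ 0)
    have hrpos : (0 : ℝ) < r := by exact_mod_cast (by omega : 0 < r)
    have hpow1 : Tendsto (fun X : ℕ => (X : ℝ) ^ (1 / (r : ℝ))) atTop atTop :=
      (tendsto_rpow_atTop (by positivity)).comp tendsto_natCast_atTop_atTop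
    filter_upwards [hpow1.eventually_ge_atTop 4, eventually_ge_atTop 1] with X hX hX1
    intro m hm hG
    have hX0 : (1 : ℝ) ≤ X := by exact_mod_cast hX1
    have hm' : (m : ℝ) ≤ X := by exact_mod_cast hm
    have e1 : ((X : ℝ) ^ (1 / (r : ℝ))) ^ (2 * r + 1) = X ^ 2 * (X : ℝ) ^ (1 / (r : ℝ)) := by
      rw [pow_succ]
      congr 1
      rw [← Real.rpow_natCast, ← Real.rpow_mul (by linarith)]
      have : (1 / (r : ℝ)) * ((2 * r : ℕ) : ℝ) = ((2 : ℕ) : ℝ) := by
        push_cast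
        field_simp
      rw [this, Real.rpow_natCast]
    have key : ∀ c : ℕ, c ≤ 3 → 0 < c → (m ^ 2 + c) ∣ m ^ 2 + 1 →
        (m ^ 2 + c).primeFactorsList.length ≤ 2 * r := by
      intro c hc hc0 hd
      apply length_le _ (2 * r) (by positivity) _ (fun p hp h => hG p hp (h.trans hd)) _ (by linarith)
      rw [e1]
      push_cast
      have hc' : (c : ℝ) ≤ 3 := by exact_mod_cast hc
      have hm0 : (0 : ℝ) ≤ m := Nat.cast_nonneg m
      have h2 : (m : ℝ) ^ 2 ≤ X ^ 2 := pow_le_pow_left₀ hm0 hm' 2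
      have h3 : (1 : ℝ) ≤ X ^ 2 := one_le_pow₀ hX0
      nlinarith
    exact key 1 (by norm_num) (by norm_num) dvd_rfl
  · intro θ hθ k₀ x₀ ε hε
    obtain ⟨r₀, h⟩ := Pool.Agent.Y879.GL.gap_poly_Z f1 f1_sys f1_noTr θ hθ k₀ x₀ ε hε
    refine ⟨r₀, ?_⟩
    intro r hr
    filter_upwards [h r hr] with X hX
    intro Z Y hY k T hkT
    have h1 := hX Z Y hY k T (by rw [V_eq]; exact hkT)
    rw [V_eq] at h1
    have e1 : Pk (Sf (Q f1) ⌊(X : ℝ) ^ (1 / (r : ℝ))⌋₊) k T Z Y = G r X k T Z Y := by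
      have e2 : Sf (Q f1) ⌊(X : ℝ) ^ (1 / (r : ℝ))⌋₊ = Good r X := by
        funext m
        exact propext (good_iff r X m)
      unfold Pk G
      rw [e2]
    rw [e1] at h1
    unfold Ck pw at h1
    exact h1

end Pool.Agent.Results.MP_f1a94e_nt.PoissonGaps
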