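import Mathlib
import Pool.Agent.Q263.SW.Asy

/-!
# Rough values of `m ^ 2 + 1` with restricted digits: an asymptotic formula with the constant of
# Hardy and Littlewood

The constant of the problem is `C = ∏ (1 - χ₄(p) / (p - 1))`, the product over the odd primes;
write `C_z` for its partial product over the odd primes `p ≤ z`.

Fix a base `b ≥ 2`. For `k ≥ 1` choose for every position `i < k` a set `D i` of digits, in any way,
such that two digits in `D i` have a difference without prime factors outside `b` (for example two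
consecutive digits, or, in base `10`, two digits with difference `1`, `2`, `4`, `5` or `8`). Let `S`
be the set of the integers `0 ≤ m < b ^ k` whose `i`-th digit is in `D i` for all `i < k`; it may
have only `2 ^ k` elements. Let `g` be the number of the last digits `d ∈ D 0` such that `d ^ 2 + 1`
is coprime to `b`. Then for every `ε > 0` there are `L` and `k₀`, which depend on `b` and `ε` only,
such that for all `k ≥ k₀`, all choices of the sets of digits and all `z ≥ b` with `z ^ L ≤ b ^ k`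
the number of the `m ∈ S` such that `m ^ 2 + 1` has no prime factor `p ≤ z` is

  `(1 + θ) · g · ∏_{i ≥ 1} |D i| · ∏_{p ≤ z} (1 - 1 / p) · C_z / ∏_{p ∣ b} (1 - (1 + χ₄(p)) / p)`

with `|θ| ≤ ε`. One can take `z = b ^ ⌊k / L⌋`; then the values `m ^ 2 + 1` counted have a bounded
number of prime factors.

Idea of the proof: the last digit and the residue class of `m` modulo the product of the small
primes which do not divide `b` are fixed, the elements of `S` are equidistributed in these classes,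
and in each class the remaining primes are removed by the fundamental lemma of the sieve for
restricted digits in a fixed residue class (`Pool.Agent.Q263.SW`).
-/

set_option autoImplicit false

namespace Pool.Agent.Results.MP_f1a94e_nt.RestrictedDigitsAsymptotic

open Finset

/-- The integers `0 ≤ m < b ^ k` whose `i`-th digit in base `b` belongs to `D i`, for all `i < k`. -/
def Restricted (b k : ℕ) (D : Fin k → Finset ℕ) : Finset ℕ :=
  (Finset.range (b ^ k)).filter (fun m => ∀ i : Fin k, m / b ^ (i : ℕ) % b ∈ D i)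

/-- Each `D i` is a set of digits, and it has two digits `c < c'` such that every prime factor of
`c' - c` divides `b`. -/
def DigitSets (b k : ℕ) (D : Fin k → Finset ℕ) : Prop :=
  ∀ i, (∀ d ∈ D i, d < b) ∧ ∃ c ∈ D i, ∃ c' ∈ D i, c < c' ∧
    ∀ p : ℕ, p.Prime → p ∣ c' - c → p ∣ b

open Classical in
/-- The number of the integers in `D 0` with `d ^ 2 + 1` coprime to `b`. -/
noncomputable def lastDigits (b k : ℕ) (D : Fin k → Finset ℕ) : ℕ :=
  (((Finset.univ : Finset (Fin k)).filter (fun i : Fin k => (i : ℕ) = 0)).biUnion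
    (fun i => (D i).filter (fun d => Nat.Coprime (d ^ 2 + 1) b))).card

/-- The product of the numbers of the elements of `D i` over the positions `i ≥ 1`. -/
def otherDigits (k : ℕ) (D : Fin k → Finset ℕ) : ℕ :=
  ∏ i ∈ (Finset.univ : Finset (Fin k)).filter (fun i : Fin k => (i : ℕ) ≠ 0), (D i).card

/-- The partial product over the odd primes `p ≤ z` of the product which defines `C`. -/
noncomputable def Cpartial (z : ℕ) : ℝ :=
  ∏ p ∈ (Finset.range (z + 1)).filter (fun p => p.Prime ∧ p ≠ 2),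
    (1 - ((ZMod.χ₄ (p : ZMod 4) : ℤ) : ℝ) / ((p : ℝ) - 1))

/-- The main term. -/
noncomputable def mainTerm (b k : ℕ) (D : Fin k → Finset ℕ) (z : ℕ) : ℝ :=
  (lastDigits b k D : ℝ) * otherDigits k D *
    (∏ p ∈ (Finset.range (z + 1)).filter Nat.Prime, (1 - 1 / (p : ℝ))) * Cpartial z /
    ∏ p ∈ b.primeFactors, (1 - (1 + ((ZMod.χ₄ (p : ZMod 4) : ℤ) : ℝ)) / p)

/-- the roots of `x ^ 2 + 1` modulo `p` -/
def rts (p : ℕ) : Finset ℕ := (range p).filter (fun a => p ∣ a ^ 2 + 1)

lemma rts_card (p : ℕ) (hp : p.Prime) :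
    ((rts p).card : ℝ) = 1 + ((ZMod.χ₄ (p : ZMod 4) : ℤ) : ℝ) := by
  classical
  rcases eq_or_ne p 2 with rfl | h2
  · have h1 : (rts 2).card = 1 := by decide
    have h3 : (ZMod.χ₄ ((2 : ℕ) : ZMod 4) : ℤ) = 0 := by decide
    rw [h1, h3]
    norm_num
  · have : Fact p.Prime := ⟨hp⟩
    have h3 := legendreSym.card_sqrts p h2 (-1)
    rw [legendreSym.at_neg_one h2] at h3
    have h4 : (rts p).card = ({x : ZMod p | x ^ 2 = ((-1 : ℤ) : ZMod p)}.toFinset).card := by
      apply Finset.card_bij (fun (a : ℕ) _ => (a : ZMod p))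
      · intro a ha
        rw [rts, Finset.mem_filter] at ha
        rw [Set.mem_toFinset, Set.mem_ofPred_eq]
        have h5 : ((a ^ 2 + 1 : ℕ) : ZMod p) = 0 := (ZMod.natCast_eq_zero_iff _ _).2 ha.2
        push_cast at h5 ⊢
        linear_combination h5
      · intro a ha c hc h
        rw [rts, Finset.mem_filter, Finset.mem_range] at ha hc
        have h5 := congrArg ZMod.val h
        rwa [ZMod.val_natCast_of_lt ha.1, ZMod.val_natCast_of_lt hc.1] at h5
      · intro x hx
        rw [Set.mem_toFinset, Set.mem_ofPred_eq] at hx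
        refine ⟨x.val, ?_, ZMod.natCast_zmod_val x⟩
        rw [rts, Finset.mem_filter, Finset.mem_range]
        refine ⟨ZMod.val_lt x, ?_⟩
        rw [← ZMod.natCast_eq_zero_iff]
        push_cast
        rw [ZMod.natCast_zmod_val, hx]
        push_cast
        ring
    rw [h4]
    have h5 : (((({x : ZMod p | x ^ 2 = ((-1 : ℤ) : ZMod p)}.toFinset).card : ℤ)) : ℝ) =
        ((ZMod.χ₄ (p : ZMod 4) + 1 : ℤ) : ℝ) := by rw [h3]
    push_cast at h5 ⊢
    rw [h5]
    ring

lemma mem_rts {p : ℕ} (hp : 0 < p) (m : ℕ) : m % p ∈ rts p ↔ p ∣ m ^ 2 + 1 := by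
  rw [rts, Finset.mem_filter, Finset.mem_range]
  have h1 : (m % p) ^ 2 + 1 ≡ m ^ 2 + 1 [MOD p] := ((Nat.mod_modEq m p).pow 2).add_right 1
  constructor
  · rintro ⟨_, h⟩
    exact (h1.dvd_iff dvd_rfl).1 h
  · intro h
    exact ⟨Nat.mod_lt _ hp, (h1.dvd_iff dvd_rfl).2 h⟩

lemma chi_le (n : ℕ) : ((ZMod.χ₄ (n : ZMod 4) : ℤ) : ℝ) ≤ 1 := by
  have h : ∀ x : ZMod 4, (ZMod.χ₄ x : ℤ) ≤ 1 := by decide
  exact_mod_cast h n

lemma fac_ne (p : ℕ) (hp : p.Prime) : (1 : ℝ) - (1 + ((ZMod.χ₄ (p : ZMod 4) : ℤ) : ℝ)) / p ≠ 0 := by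
  rcases eq_or_ne p 2 with rfl | h2
  · have h3 : (ZMod.χ₄ ((2 : ℕ) : ZMod 4) : ℤ) = 0 := by decide
    rw [h3]
    norm_num
  · have h3 : (3 : ℝ) ≤ p := by
      have := hp.two_le
      exact_mod_cast (by omega : 3 ≤ p)
    have h4 := chi_le p
    have h5 : (1 + ((ZMod.χ₄ (p : ZMod 4) : ℤ) : ℝ)) / p < 1 := by
      rw [div_lt_one (by linarith)]
      linarith
    linarith

open Classical in
theorem result : ∀ b : ℕ, 2 ≤ b → ∀ ε : ℝ, 0 < ε →
    ∃ L k₀ : ℕ, 1 ≤ L ∧ ∀ k : ℕ, k₀ ≤ k → ∀ D : Fin k → Finset ℕ, DigitSets b k D →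
      ∀ z : ℕ, b ≤ z → z ^ L ≤ b ^ k →
      |(((Restricted b k D).filter
          (fun m => ∀ p : ℕ, p.Prime → p ≤ z → ¬ p ∣ m ^ 2 + 1)).card : ℝ) - mainTerm b k D z| ≤
        ε * mainTerm b k D z := by
  intro b hb ε hε
  obtain ⟨L, k₀, hL, hmain⟩ := Pool.Agent.Q263.SW.asy hb 2 ε hε
  refine ⟨L, k₀ + 1, hL, fun k hk D hD z hbz hz => ?_⟩
  have hk0 : 0 < k := by omega
  have h1 := hmain k (by omega) D (fun i => (hD i).1) (fun i => (hD i).2) z hz rts (by
    intro p hp _
    refine ⟨fun r hr => ?_, ?_⟩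
    · rw [rts, Finset.mem_filter, Finset.mem_range] at hr
      exact hr.1
    · have h2 := rts_card p hp
      have h3 := chi_le p
      have h4 : ((rts p).card : ℝ) ≤ ((2 : ℕ) : ℝ) := by
        rw [h2]
        push_cast
        linarith
      exact_mod_cast h4)
  have hM : Pool.Agent.Q263.SW.Xt b k D rts z = mainTerm b k D z := by
    unfold Pool.Agent.Q263.SW.Xt mainTerm
    rw [dif_pos hk0]
    have e1 : ((D ⟨0, hk0⟩).filter (fun d => ∀ p : ℕ, p.Prime → p ∣ b → p ≤ z → d % p ∉ rts p)).card =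
        lastDigits b k D := by
      unfold lastDigits
      have e2 : (Finset.univ : Finset (Fin k)).filter (fun i : Fin k => (i : ℕ) = 0) = {⟨0, hk0⟩} := by
        ext i
        rw [Finset.mem_filter, Finset.mem_singleton]
        constructor
        · rintro ⟨_, h⟩
          exact Fin.ext h
        · rintro rfl
          exact ⟨Finset.mem_univ _, rfl⟩
      rw [e2, Finset.singleton_biUnion]
      congr 1
      apply Finset.filter_congr
      intro d _
      constructor
      · intro h
        rw [Nat.coprime_iff_gcd_eq_one]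
        by_contra hne
        obtain ⟨p, hp, hpd⟩ := Nat.exists_prime_and_dvd hne
        have h3 := hpd.trans (Nat.gcd_dvd_right _ _)
        have h4 := hpd.trans (Nat.gcd_dvd_left _ _)
        exact h p hp h3 ((Nat.le_of_dvd (by omega) h3).trans hbz) ((mem_rts hp.pos d).2 h4)
      · intro h p hp hpb _ h3
        rw [mem_rts hp.pos] at h3
        have := Nat.dvd_gcd h3 hpb
        rw [Nat.coprime_iff_gcd_eq_one.1 h] at this
        exact hp.one_lt.ne' (Nat.dvd_one.1 this)
    have e3 : Pool.Agent.Q263.SW.Pd D = otherDigits k D := rfl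
    rw [e1, e3]
    have e4 : (∏ p ∈ (Finset.range (z + 1)).filter Nat.Prime, (1 - 1 / (p : ℝ))) * Cpartial z =
        ∏ p ∈ (Finset.range (z + 1)).filter Nat.Prime,
          (1 - (1 + ((ZMod.χ₄ (p : ZMod 4) : ℤ) : ℝ)) / p) := by
      have e5 : Cpartial z = ∏ p ∈ (Finset.range (z + 1)).filter Nat.Prime,
          (if p ≠ 2 then (1 - ((ZMod.χ₄ (p : ZMod 4) : ℤ) : ℝ) / ((p : ℝ) - 1)) else 1) := by
        unfold Cpartial
        rw [← Finset.prod_filter, Finset.filter_filter]
      rw [e5, ← Finset.prod_mul_distrib]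
      refine Finset.prod_congr rfl fun p hp => ?_
      rw [Finset.mem_filter] at hp
      split_ifs with h2
      · have h3 : (3 : ℝ) ≤ p := by
          have := hp.2.two_le
          exact_mod_cast (by omega : 3 ≤ p)
        have h4 : (p : ℝ) ≠ 0 := by linarith
        have h5 : (p : ℝ) - 1 ≠ 0 := by linarith
        field_simp
        ring
      · push Not at h2
        rw [h2]
        have h3 : (ZMod.χ₄ ((2 : ℕ) : ZMod 4) : ℤ) = 0 := by decide
        rw [h3]
        norm_num
    have e6 : (∏ p ∈ (Finset.range (z + 1)).filter (fun p => p.Prime ∧ ¬ p ∣ b),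
        (1 - ((rts p).card : ℝ) / p)) * ∏ p ∈ b.primeFactors,
          (1 - (1 + ((ZMod.χ₄ (p : ZMod 4) : ℤ) : ℝ)) / p) =
        ∏ p ∈ (Finset.range (z + 1)).filter Nat.Prime,
          (1 - (1 + ((ZMod.χ₄ (p : ZMod 4) : ℤ) : ℝ)) / p) := by
      have e7 : b.primeFactors = (Finset.range (z + 1)).filter (fun p => p.Prime ∧ p ∣ b) := by
        ext p
        rw [Nat.mem_primeFactors, Finset.mem_filter, Finset.mem_range]
        constructor
        · rintro ⟨h2, h3, _⟩
          have := Nat.le_of_dvd (by omega) h3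
          exact ⟨by omega, h2, h3⟩
        · rintro ⟨_, h2, h3⟩
          exact ⟨h2, h3, by omega⟩
      rw [e7]
      have e8 : ∏ p ∈ (Finset.range (z + 1)).filter (fun p => p.Prime ∧ ¬ p ∣ b),
          (1 - ((rts p).card : ℝ) / p) =
          ∏ p ∈ (Finset.range (z + 1)).filter (fun p => p.Prime ∧ ¬ p ∣ b),
            (1 - (1 + ((ZMod.χ₄ (p : ZMod 4) : ℤ) : ℝ)) / p) := by
        refine Finset.prod_congr rfl fun p hp => ?_
        rw [Finset.mem_filter] at hp
        rw [rts_card p hp.2.1]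
      rw [e8, ← Finset.filter_filter, ← Finset.filter_filter, mul_comm]
      exact Finset.prod_filter_mul_prod_filter_not _ _ _
    have e9 : ∏ p ∈ b.primeFactors, (1 - (1 + ((ZMod.χ₄ (p : ZMod 4) : ℤ) : ℝ)) / p) ≠ 0 :=
      Finset.prod_ne_zero_iff.2 fun p hp => fac_ne p (Nat.prime_of_mem_primeFactors hp)
    rw [mul_assoc _ (∏ p ∈ (Finset.range (z + 1)).filter Nat.Prime, (1 - 1 / (p : ℝ))) (Cpartial z),
      e4, ← e6, mul_div_assoc, mul_div_assoc, div_self e9, mul_one]
  rw [hM] at h1
  have hset : (Pool.Agent.Q263.MD.Dig b k D).filter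
      (fun m => ∀ p : ℕ, p.Prime → p ≤ z → m % p ∉ rts p) =
      (Restricted b k D).filter (fun m => ∀ p : ℕ, p.Prime → p ≤ z → ¬ p ∣ m ^ 2 + 1) := by
    have eS : Pool.Agent.Q263.MD.Dig b k D = Restricted b k D := rfl
    rw [eS]
    apply Finset.filter_congr
    intro m _
    constructor
    · intro h p hp hpz h3
      exact h p hp hpz ((mem_rts hp.pos m).2 h3)
    · intro h p hp hpz h3
      exact h p hp hpz ((mem_rts hp.pos m).1 h3)
  rw [hset] at h1
  exact h1

end Pool.Agent.Results.MP_f1a94e_nt.RestrictedDigitsAsymptotic
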