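import Pool.Agent.Q253.Thin.List
import Mathlib.Algebra.Polynomial.Cardinal

/-!
# `m ^ 2 + 1` almost prime between the members of twin primes, up to one thin set of prime factors

For every `d` there is one set `Q` of primes, with `O((log log x) ^ 2)` elements up to `x`, which serves for ALL
polynomials `f` of degree `≤ d`, in particular `f = X ^ 2 + 1`: in every long window there are at least as many integers `m`
as expected such that `m - 1` and `m + 1` are primes and `f(m)` has no small prime factor; or, for a single `q ∈ Q`, at least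
as many as expected such that `m - 1` and `(m + 1) / q` are primes and `f(m)` has no small prime factor.

Libraries: `Y840.CT.GenF` (Chen's theorem for systems of classes in windows, starting files), `Y151.HS.FLC`
(fundamental lemma in residue classes, starting files).
-/

set_option autoImplicit false

namespace Pool.Agent.Results.MP_f1a94e_nt.ThinTwinMiddles

open Finset Filter
open Pool.Agent.Y840.CT Pool.Agent.Q253.Thin

/-- The number of the residue classes `a` modulo `q` with `q ∣ (a - 1) (a + 1) f(a)`. -/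
def w (f : Polynomial ℤ) (q : ℕ) : ℕ :=
  ((range q).filter (fun a : ℕ => (q : ℤ) ∣ ((a : ℤ) - 1) * ((a : ℤ) + 1) * f.eval (a : ℤ))).card

/-- `∏ (1 - w(q) / q)` over the primes `q ≤ N` -/
noncomputable def V (f : Polynomial ℤ) (N : ℕ) : ℝ :=
  ∏ q ∈ (Icc 1 N).filter Nat.Prime, (1 - (w f q : ℝ) / q)

/-- all prime factors of `f(m)` are larger than `y` -/
def Rough (f : Polynomial ℤ) (y : ℝ) (m : ℕ) : Prop :=
  ∀ l : ℕ, l.Prime → (l : ℤ) ∣ f.eval (m : ℤ) → y < l

/-- The number of the integers `u < m ≤ v` with the property `P`. -/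
noncomputable def count (P : ℕ → Prop) (u v : ℕ) : ℕ := {m : ℕ | u < m ∧ m ≤ v ∧ P m}.ncard

lemma card_le_count (P : ℕ → Prop) (u v : ℕ) (S : Finset ℕ)
    (hS : ∀ p ∈ S, u < p + 1 ∧ p + 1 ≤ v ∧ P (p + 1)) : S.card ≤ count P u v := by
  classical
  unfold count
  rw [← card_image_of_injective S (add_left_injective 1), ← Set.ncard_coe_finset]
  apply Set.ncard_le_ncard
  · intro x hx
    obtain ⟨p, hp, rfl⟩ := mem_image.1 (mem_coe.1 hx)
    exact hS p hp
  · apply (finite_toSet (Ioc u v)).subset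
    rintro x ⟨h1, h2, _⟩
    rw [mem_coe, mem_Ioc]
    exact ⟨h1, h2⟩

/-- the roots of `f` modulo `q` -/
def rt (f : Polynomial ℤ) (q : ℕ) : Finset ℕ := (range q).filter (fun a : ℕ => (q : ℤ) ∣ f.eval (a : ℤ))

/-- the classes of `p = m - 1` -/
def FF (f : Polynomial ℤ) (q : ℕ) : Finset ℤ := insert (-2) ((rt f q).image (fun a : ℕ => (a : ℤ) - 1))

lemma eval_zmod (f : Polynomial ℤ) (q : ℕ) (a : ℤ) :
    (q : ℤ) ∣ f.eval a ↔ (f.map (Int.castRingHom (ZMod q))).eval (a : ZMod q) = 0 := by
  rw [← ZMod.intCast_zmod_eq_zero_iff_dvd, show (a : ZMod q) = Int.castRingHom (ZMod q) a from rfl,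
    Polynomial.eval_map_apply]
  rfl

lemma rt_card {f : Polynomial ℤ} {d q : ℕ} (hf : f.natDegree ≤ d) (hq : q.Prime) (hw : w f q < q) :
    (rt f q).card ≤ d := by
  classical
  have : Fact q.Prime := ⟨hq⟩
  set g := f.map (Int.castRingHom (ZMod q)) with hg
  have hg0 : g ≠ 0 := by
    intro h0
    have h1 : w f q = q := by
      unfold w
      rw [filter_true_of_mem, card_range]
      intro a _
      apply Dvd.dvd.mul_left
      rw [eval_zmod, ← hg, h0, Polynomial.eval_zero]
    omega
  have hdeg : g.natDegree ≤ d := (Polynomial.natDegree_map_le).trans hf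
  have h1 : (rt f q).card ≤ g.roots.toFinset.card := by
    apply card_le_card_of_injOn (fun a : ℕ => (a : ZMod q))
    · intro a ha
      have ha' := Finset.mem_coe.1 ha
      unfold rt at ha'
      rw [mem_filter, eval_zmod] at ha'
      rw [Finset.mem_coe, Multiset.mem_toFinset, Polynomial.mem_roots hg0]
      have h5 := ha'.2
      rw [Int.cast_natCast] at h5
      exact h5
    · intro a ha b hb hab
      have ha' := Finset.mem_coe.1 ha
      have hb' := Finset.mem_coe.1 hb
      unfold rt at ha' hb'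
      rw [mem_filter, mem_range] at ha' hb'
      have h2 := (ZMod.natCast_eq_natCast_iff a b q).1 hab
      exact h2.eq_of_lt_of_lt ha'.1 hb'.1
  exact h1.trans ((Multiset.toFinset_card_le _).trans ((Polynomial.card_roots' g).trans hdeg))

lemma rho_FF (f : Polynomial ℤ) {q : ℕ} (hq : q.Prime) : rho (FF f q) q = w f q := by
  classical
  have : NeZero q := ⟨hq.ne_zero⟩
  have : Fact q.Prime := ⟨hq⟩
  unfold rho w
  -- both are the number of the classes `z` in `ZMod q`
  have h1 : ((insert (0 : ℤ) (FF f q)).image (fun h : ℤ => h % q)).card =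
      ((univ : Finset (ZMod q)).filter (fun z => (z - 1) * (z + 1) * (f.map (Int.castRingHom (ZMod q))).eval z = 0)).card := by
    have e1 : ((insert (0 : ℤ) (FF f q)).image (fun h : ℤ => h % q)) =
        (((univ : Finset (ZMod q)).filter (fun z => (z - 1) * (z + 1) *
          (f.map (Int.castRingHom (ZMod q))).eval z = 0)).image (fun z => (((z - 1 : ZMod q).val : ℕ) : ℤ))) := by
      ext x
      rw [mem_image, mem_image]
      constructor
      · rintro ⟨h, hh, rfl⟩
        refine ⟨(h : ZMod q) + 1, ?_, ?_⟩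
        · rw [mem_filter]
          refine ⟨mem_univ _, ?_⟩
          rcases mem_insert.1 hh with h0 | h0
          · rw [h0]
            simp
          · rcases mem_insert.1 h0 with h0 | h0
            · rw [h0]
              push_cast
              ring
            · rw [mem_image] at h0
              obtain ⟨a, ha, rfl⟩ := h0
              unfold rt at ha
              rw [mem_filter, eval_zmod] at ha
              have e2 : (((a : ℤ) - 1 : ℤ) : ZMod q) + 1 = ((a : ℤ) : ZMod q) := by
                push_cast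
                ring
              rw [e2, ha.2, mul_zero]
        · rw [add_sub_cancel_right, ZMod.val_intCast]
      · rintro ⟨z, hz, rfl⟩
        rw [mem_filter] at hz
        have hz2 := hz.2
        rcases mul_eq_zero.1 hz2 with h0 | h0
        · rcases mul_eq_zero.1 h0 with h0 | h0
          · refine ⟨0, mem_insert_self _ _, ?_⟩
            rw [h0]
            simp
          · refine ⟨-2, mem_insert_of_mem (mem_insert_self _ _), ?_⟩
            have : z - 1 = ((-2 : ℤ) : ZMod q) := by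
              have e3 : z = -1 := by linear_combination h0
              rw [e3]
              push_cast
              ring
            rw [this, ZMod.val_intCast]
        · refine ⟨((z.val : ℕ) : ℤ) - 1, mem_insert_of_mem (mem_insert_of_mem (mem_image.2 ⟨z.val, ?_, rfl⟩)), ?_⟩
          · unfold rt
            rw [mem_filter, mem_range, eval_zmod]
            refine ⟨ZMod.val_lt z, ?_⟩
            simpa using h0
          · have : z - 1 = ((((z.val : ℕ) : ℤ) - 1 : ℤ) : ZMod q) := by
              push_cast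
              rw [ZMod.natCast_val, ZMod.cast_id', id]
            rw [this, ZMod.val_intCast]
    rw [e1]
    apply card_image_of_injective
    intro a b hab
    simp only [Nat.cast_inj] at hab
    have := ZMod.val_injective q hab
    linear_combination this
  rw [h1]
  have h2 : ((univ : Finset (ZMod q)).filter (fun z => (z - 1) * (z + 1) *
      (f.map (Int.castRingHom (ZMod q))).eval z = 0)).image (fun z => z.val) =
      (range q).filter (fun a : ℕ => (q : ℤ) ∣ ((a : ℤ) - 1) * ((a : ℤ) + 1) * f.eval (a : ℤ)) := by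
    have key : ∀ a : ℤ, (q : ℤ) ∣ (a - 1) * (a + 1) * f.eval a ↔
        ((a : ZMod q) - 1) * ((a : ZMod q) + 1) * (f.map (Int.castRingHom (ZMod q))).eval (a : ZMod q) = 0 := by
      intro a
      rw [← ZMod.intCast_zmod_eq_zero_iff_dvd]
      push_cast
      rw [show (a : ZMod q) = Int.castRingHom (ZMod q) a from rfl, Polynomial.eval_map_apply]
      rfl
    ext x
    rw [mem_image, mem_filter, mem_range, key]
    constructor
    · rintro ⟨z, hz, rfl⟩
      rw [mem_filter] at hz
      refine ⟨ZMod.val_lt z, ?_⟩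
      have : ((z.val : ℤ) : ZMod q) = z := by
        push_cast
        rw [ZMod.natCast_val, ZMod.cast_id', id]
      rw [this]
      exact hz.2
    · rintro ⟨hx, hz⟩
      refine ⟨((x : ℤ) : ZMod q), ?_, ?_⟩
      · rw [mem_filter]
        exact ⟨mem_univ _, hz⟩
      · rw [Int.cast_natCast, ZMod.val_natCast, Nat.mod_eq_of_lt hx]
  rw [← h2, card_image_of_injective _ (ZMod.val_injective q)]

/-- **`m ^ 2 + 1` and all polynomials between almost twin primes.** For every `d` there are a set `Q` of primes with at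
most `C (log log x) ^ 2` elements up to `x` (for all `x ≥ 16`), `t ≥ 1` and `c > 0` such that for EVERY integer polynomial `f` of
degree `≤ d` without local obstruction (`w f q < q` for all primes `q`; this holds for `f = X ^ 2 + 1`), for every `θ > 0`, all
`N ≥ N₀` and all `0 ≤ u < v ≤ N` with `v - u ≥ θ N`:

at least `c (v - u) V(N)` integers `u < m ≤ v` are such that `m - 1` and `m + 1` are primes and `f(m)` has no prime factor
`≤ N ^ (1/t)`; or there is `q ∈ Q` with `N ^ (1/9) < q`, `q ^ 2 ≤ N + 2`, such that for at least `c (v - u) V(N) / q` integers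
`u < m ≤ v` the numbers `m - 1` and `(m + 1) / q ≥ q` are primes and `f(m)` has no prime factor `≤ N ^ (1/t)`. Here
`V(N) = ∏ (1 - w(q) / q)` over the primes `q ≤ N`, `V(N) ≥ c / log ^ (d + 2) N`. -/
theorem result (d : ℕ) : ∃ (t : ℕ) (Q : Set ℕ) (C c : ℝ), 1 ≤ t ∧ 0 < C ∧ 0 < c ∧ (∀ q ∈ Q, q.Prime) ∧
    (∀ x : ℕ, 16 ≤ x → ((Q ∩ Set.Iic x).ncard : ℝ) ≤ C * Real.log (Real.log x) ^ 2) ∧
    (∀ q : ℕ, q.Prime → w (Polynomial.X ^ 2 + 1) q < q) ∧
    ∀ f : Polynomial ℤ, f.natDegree ≤ d → (∀ q : ℕ, q.Prime → w f q < q) →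
      (∀ N : ℕ, 2 ≤ N → c / Real.log N ^ (d + 2) ≤ V f N) ∧
      ∀ θ : ℝ, 0 < θ → ∃ N₀ : ℕ, ∀ N : ℕ, N₀ ≤ N → ∀ u v : ℕ, v ≤ N → θ * N ≤ (v : ℝ) - u →
        c * (((v : ℝ) - u) * V f N) ≤
          (count (fun m => (m - 1).Prime ∧ (m + 1).Prime ∧ Rough f ((N : ℝ) ^ (1 / (t : ℝ))) m) u v : ℝ) ∨
        ∃ q ∈ Q, (N : ℝ) ^ (1 / 9 : ℝ) < q ∧ q ^ 2 ≤ N + 2 ∧ c * (((v : ℝ) - u) * V f N / q) ≤
          (count (fun m => (m - 1).Prime ∧ (∃ q' : ℕ, q'.Prime ∧ q ≤ q' ∧ m + 1 = q * q') ∧
            Rough f ((N : ℝ) ^ (1 / (t : ℝ))) m) u v : ℝ) := by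
  classical
  obtain ⟨t, ht, c0, hc0, ρ, hρ, hd⟩ := dich (d + 1)
  have : Countable (Polynomial ℤ) :=
    Cardinal.mk_le_aleph0_iff.1 (Polynomial.cardinalMk_le_max.trans (by simp))
  obtain ⟨e, he⟩ := exists_surjective_nat (Polynomial ℤ)
  obtain ⟨c, hc, C, hC, Q, hQp, hQc, hmain⟩ := thinList hc0 hρ hd (fun n => (FF (e n), -2))
  obtain ⟨cV, hcV, hV⟩ := VF_low (d + 1)
  refine ⟨t, Q, C, min (c / 2) cV, ht, hC, by positivity, hQp, ?_, ?_, ?_⟩
  · intro x hx
    obtain ⟨S, hS, hSc⟩ := hQc x hx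
    have h1 : (Q ∩ Set.Iic x).ncard ≤ S.card := by
      rw [← Set.ncard_coe_finset]
      apply Set.ncard_le_ncard
      · rintro q ⟨hq, hqx⟩
        exact hS q hq hqx
      · exact finite_toSet S
    have h2 : ((Q ∩ Set.Iic x).ncard : ℝ) ≤ S.card := by exact_mod_cast h1
    exact h2.trans hSc
  · intro q hq
    unfold w
    calc _ < (range q).card := by
          apply card_lt_card
          rw [filter_ssubset]
          refine ⟨0, mem_range.2 hq.pos, ?_⟩
          intro hd0
          have h1 : (((0 : ℕ) : ℤ) - 1) * (((0 : ℕ) : ℤ) + 1) * (Polynomial.X ^ 2 + 1 : Polynomial ℤ).eval ((0 : ℕ) : ℤ) = -1 := by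
            simp
          rw [h1] at hd0
          have h2 := Int.natAbs_dvd_natAbs.2 hd0
          simp at h2
          exact hq.one_lt.ne' h2
      _ = q := card_range q
  intro f hf hloc
  obtain ⟨n, hn⟩ := he f
  have hVeq : ∀ N : ℕ, VF (FF f) N = V f N := by
    intro N
    unfold VF V
    apply prod_congr rfl
    intro q hq
    rw [rho_FF f (mem_filter.1 hq).2]
  have hcard : ∀ q : ℕ, q.Prime → (FF f q).card ≤ d + 1 := by
    intro q hq
    unfold FF
    refine (card_insert_le _ _).trans ?_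
    have h1 : ((rt f q).image (fun a : ℕ => (a : ℤ) - 1)).card ≤ (rt f q).card := card_image_le
    have h2 := rt_card hf hq (hloc q hq)
    omega
  have hsys : Sys0 (d + 1) (FF f) (-2) := by
    refine ⟨hcard, by norm_num, fun q _ => mem_insert_self _ _, fun q hq => ?_⟩
    rw [rho_FF f hq]
    exact hloc q hq
  have hVlow : ∀ N : ℕ, 2 ≤ N → cV / Real.log N ^ (d + 2) ≤ V f N := by
    intro N hN
    rw [← hVeq]
    exact hV N hN (FF f) hcard hsys.loc
  refine ⟨?_, ?_⟩
  · intro N hN
    refine le_trans ?_ (hVlow N hN)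
    have : 0 < Real.log N := Real.log_pos (by exact_mod_cast (by omega : 1 < N))
    exact div_le_div_of_nonneg_right (min_le_right _ _) (by positivity)
  intro θ hθ
  have hm1 := hmain n
  simp only [hn] at hm1
  obtain ⟨X₀, hX₀⟩ := hm1 hsys (θ / 2) (by positivity)
  refine ⟨max (max X₀ 2) ⌈2 / θ⌉₊, ?_⟩
  intro N hN u v hv huv
  have n1 : X₀ ≤ N := (le_max_left _ _).trans ((le_max_left _ _).trans hN)
  have n2 : 2 ≤ N := (le_max_right _ _).trans ((le_max_left _ _).trans hN)
  have n3 : 2 / θ ≤ N := (Nat.le_ceil _).trans (by exact_mod_cast (le_max_right _ _).trans hN)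
  have hN0 : (0 : ℝ) < N := by exact_mod_cast (by omega : 0 < N)
  have n4 : 2 ≤ θ * N := by
    rw [div_le_iff₀ hθ] at n3
    linarith
  have huv0 : (0 : ℝ) < (v : ℝ) - u := lt_of_lt_of_le (by positivity) huv
  have huv2 : 2 ≤ (v : ℝ) - u := n4.trans huv
  have hv1 : 1 ≤ v := by
    have : (1 : ℝ) ≤ v := by
      have : (0 : ℝ) ≤ u := Nat.cast_nonneg u
      linarith
    exact_mod_cast this
  have hlN : 0 < Real.log N := Real.log_pos (by exact_mod_cast (by omega : 1 < N))
  have hVp : 0 < V f N := lt_of_lt_of_le (by positivity) (hVlow N n2)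
  have hv1r : ((v - 1 : ℕ) : ℝ) = (v : ℝ) - 1 := by
    rw [Nat.cast_sub hv1, Nat.cast_one]
  have hhalf : ((v : ℝ) - u) / 2 ≤ ((v - 1 : ℕ) : ℝ) - u := by
    rw [hv1r]
    linarith
  -- the good primes
  have hgood : ∀ p ∈ GoodF t N u (v - 1) (FF f) (-2), u < p + 1 ∧ p + 1 ≤ v ∧ p.Prime ∧
      Rough f ((N : ℝ) ^ (1 / (t : ℝ))) (p + 1) ∧
      ((-2 : ℤ) - (p : ℤ)).natAbs = p + 2 ∧ ∀ q : ℕ, q.Prime → q ∣ p + 2 → (N : ℝ) ^ (1 / 9 : ℝ) < q := by
    intro p hp
    unfold GoodF at hp
    rw [mem_filter, mem_Ioc] at hp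
    obtain ⟨⟨p1, p2⟩, pp, pt, ⟨pr1, pr2, pr3⟩, pF⟩ := hp
    have hnat : ((-2 : ℤ) - (p : ℤ)).natAbs = p + 2 := by omega
    refine ⟨by omega, by omega, pp, ?_, hnat, ?_⟩
    · intro l hl hd
      by_contra hcon
      push Not at hcon
      have hl0 : NeZero l := ⟨hl.ne_zero⟩
      apply pF l hl hcon ((((p + 1) % l : ℕ) : ℤ) - 1)
      · unfold FF
        apply mem_insert_of_mem
        rw [mem_image]
        refine ⟨(p + 1) % l, ?_, rfl⟩
        unfold rt
        rw [mem_filter, mem_range]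
        refine ⟨Nat.mod_lt _ hl.pos, ?_⟩
        rw [eval_zmod] at hd ⊢
        have e1 : ((((p + 1) % l : ℕ) : ℤ) : ZMod l) = (((p + 1 : ℕ) : ℤ) : ZMod l) := by
          rw [Int.cast_natCast, Int.cast_natCast, ZMod.natCast_mod]
        rw [e1]
        exact hd
      · have e2 : (((p + 1) % l : ℕ) : ℤ) - 1 - p = ((((p + 1) % l : ℕ) : ℤ) - ((p + 1 : ℕ) : ℤ)) := by
          push_cast
          ring
        rw [e2]
        push_cast
        exact (Int.mod_modEq _ _).symm.dvd
    · intro q hq hd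
      apply pr3 q hq
      rw [Int.natCast_dvd, hnat]
      exact hd
  have key := hX₀ N n1 u (v - 1) (by omega) (by linarith)
  rw [hVeq] at key
  have hmin1 : min (c / 2) cV ≤ c / 2 := min_le_left _ _
  have hconv : min (c / 2) cV * (((v : ℝ) - u) * V f N) ≤ c * ((((v - 1 : ℕ) : ℝ) - u) * V f N) := by
    calc min (c / 2) cV * (((v : ℝ) - u) * V f N) ≤ c / 2 * (((v : ℝ) - u) * V f N) :=
          mul_le_mul_of_nonneg_right hmin1 (by positivity)
      _ = c * (((v : ℝ) - u) / 2 * V f N) := by ring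
      _ ≤ _ := mul_le_mul_of_nonneg_left (mul_le_mul_of_nonneg_right hhalf hVp.le) hc.le
  rcases key with h | ⟨q, hq, h⟩
  · left
    refine hconv.trans (h.trans ?_)
    rw [Nat.cast_le]
    apply card_le_count
    intro p hp
    unfold PF at hp
    rw [mem_filter] at hp
    obtain ⟨a1, a2, a3, a4, a5, a6⟩ := hgood p hp.1
    rw [a5] at hp
    exact ⟨a1, a2, by simpa using a3, hp.2, a4⟩
  · right
    have hqp := hQp q hq
    have hq0 : (0 : ℝ) < q := by exact_mod_cast hqp.pos
    have hRF : ∀ p ∈ RF t N u (v - 1) (FF f) (-2) q, u < p + 1 ∧ p + 1 ≤ v ∧ ((p + 1 - 1).Prime ∧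
        (∃ q' : ℕ, q'.Prime ∧ q ≤ q' ∧ p + 1 + 1 = q * q') ∧ Rough f ((N : ℝ) ^ (1 / (t : ℝ))) (p + 1)) ∧
        (N : ℝ) ^ (1 / 9 : ℝ) < q := by
      intro p hp
      unfold RF at hp
      rw [mem_filter] at hp
      obtain ⟨hp1, q', hq', hqq', hpq⟩ := hp
      obtain ⟨a1, a2, a3, a4, a5, a6⟩ := hgood p hp1
      rw [a5] at hpq
      exact ⟨a1, a2, ⟨by simpa using a3, ⟨q', hq', hqq', hpq⟩, a4⟩, a6 q hqp (by rw [hpq]; exact Dvd.intro _ rfl)⟩
    have hconv2 : min (c / 2) cV * (((v : ℝ) - u) * V f N / q) ≤ c * ((((v - 1 : ℕ) : ℝ) - u) * V f N / q) := by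
      calc min (c / 2) cV * (((v : ℝ) - u) * V f N / q) = (min (c / 2) cV * (((v : ℝ) - u) * V f N)) / q := by ring
        _ ≤ (c * ((((v - 1 : ℕ) : ℝ) - u) * V f N)) / q := div_le_div_of_nonneg_right hconv hq0.le
        _ = _ := by ring
    have hlow : 0 < min (c / 2) cV * (((v : ℝ) - u) * V f N / q) := by positivity
    have hne : (RF t N u (v - 1) (FF f) (-2) q).Nonempty := by
      rw [← card_pos]
      exact_mod_cast lt_of_lt_of_le hlow (hconv2.trans h)
    obtain ⟨p0, hp0⟩ := hne
    obtain ⟨b1, b2, ⟨b3, ⟨q', b4, b5, b6⟩, b7⟩, b8⟩ := hRF p0 hp0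
    refine ⟨q, hq, b8, ?_, ?_⟩
    · have h1 : q ^ 2 ≤ q * q' := by
        rw [pow_two]
        exact Nat.mul_le_mul_left q b5
      omega
    · refine hconv2.trans (h.trans ?_)
      rw [Nat.cast_le]
      apply card_le_count
      intro p hp
      obtain ⟨g1, g2, g3, _⟩ := hRF p hp
      exact ⟨g1, g2, g3⟩

end Pool.Agent.Results.MP_f1a94e_nt.ThinTwinMiddles
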