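import Mathlib
import Pool.Agent.Q47.TV.Loc

/-!
# Lower semicontinuity of minimal log discrepancies on quotients of toric varieties

`X` is a variety with function field `K = ℂ(y_1, ..., y_n)`, `B` an effective `ℝ`-divisor such that
`K_X + B` is `ℝ`-Cartier, `G` a finite group of automorphisms of `X` preserving log discrepancies, and
`x` a closed point. The theorem says that the minimal log discrepancy of the quotient `(X / G, B_Y)`
is lower semicontinuous near the image of `x` if every element `σ` of `G` which fixes `x` has a toric
chart (`Chart`): an open immersion of `X` in an affine toric variety (any strictly convex rational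
cone of any dimension at most `n`) such that `(X, B)` is the restriction of a toric pair and `σ` is
the restriction of a monomial automorphism of the toric variety. Different elements of `G` may need
different charts, so that `G` need not normalize any torus.

The hypothesis holds for a suitable `G_x`-invariant affine neighbourhood of every point `x` when `(X, B)`
is a projective toric pair and `G` is any finite group of automorphisms of `(X, B)`: by Steinberg's
theorem every element of the linear algebraic group `Aut (X, B)` of finite order normalizes a maximal
torus, and the orbits whose closure contains `x` form an affine chart. (This remark is not part of the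
formal statement.)

For the pair `(Y, B_Y)`, `Y = X / G`, with `K_X + B = π^* (K_Y + B_Y)`, every prime divisor `F` over `Y`
whose centre is the closed point `π (x)` is the image of a prime divisor `E` over `X` with centre `x`,
and `a(E, X, B) = r_E a(F, Y, B_Y)` with the ramification index `r_E`, the order of the inertia group
of `E`. Therefore the minimal log discrepancy of `(Y, B_Y)` at `π (x)` is the infimum of
`a(E, X, B) / r_E` (`quotMld`).

Idea of the proof: let `E'` be a divisor over a closed point `x'` near `x`, let `σ` generate its inertia
group, of order `r`; then `σ` fixes `x'`, hence `x`. Let `W` be the action of `σ` on the lattice of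
monomials of a chart. The eigenfunctions of `σ` which are units times monomials minus constants give
`a(E', X, B) / r ≥ κ + c' + φ (u')`, where `exp (2 π i κ_j)`, `0 ≤ κ_j < 1`, are the eigenvalues of `W`,
`κ = ∑ κ_j`, `c'` is the dimension of the space spanned by the `W`-invariant monomials which do not vanish
at `x'`, and `φ` is the log discrepancy function on the face of the cone which belongs to `x`.
Conversely one adds to `r u'` at most `c' - c` orbit sums of edges, `c` the number `c'` for the point
`x`, such that the sum vanishes exactly on the monomials which do not vanish at `x`, and constructs
from it a divisor over `x` with `a(E, X, B) / r_E ≤ κ + c' + φ (u')` by an embedding of the function field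
in `K((t))`. The same two bounds, for the trivial group, show that `φ` is invariant under the
automorphisms which fix `x`.
-/

set_option autoImplicit false

namespace Pool.Agent.Results.MP_f23696_ag.LocallyToricQuotients

open Pool.Agent.TH165.ACC Pool.Agent.W497.Mld Pool.Agent.H436R3.KT Pool.Agent.H436R3.Fol Q47.QM Q47.TV

/-- Let `X` be an affine variety with function field `ℂ(y_1, ..., y_n)`, `B` an effective
`ℝ`-divisor on `X` such that `K_X + B` is `ℝ`-Cartier (`E x`: a local equation at `x`), `G` a finite
group of automorphisms of `X` preserving log discrepancies, and `x` a closed point such that every
element of `G` which fixes `x` has a toric chart. Then `x` has a principal open neighbourhood on which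
the minimal log discrepancy of the quotient is at least its value at the image of `x`. -/
theorem result (n : ℕ) (X : AffVar (FractionRing (MvPolynomial (Fin n) ℂ)))
    (B : EffDiv X) (E : ∀ x : Pt X, LocEq B x)
    (G : Subgroup (FractionRing (MvPolynomial (Fin n) ℂ) ≃ₐ[ℂ]
      FractionRing (MvPolynomial (Fin n) ℂ))) [Finite G]
    (hG : ∀ σ ∈ G, IsAutX E σ) (x : Pt X)
    (hx : ∀ σ ∈ G, FixesPt x σ → Nonempty (Chart n E σ)) :
    ∃ f : X.R, x f ≠ 0 ∧ ∀ x' : Pt X, x' f ≠ 0 → quotMld E G x ≤ quotMld E G x' :=
  lsc_loc G hG x hx

end Pool.Agent.Results.MP_f23696_ag.LocallyToricQuotients
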