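import Mathlib
import Pool.Agent.Q47.QM.Conj

/-!
# Lower semicontinuity of minimal log discrepancies on quotients of toric varieties

`X` is an affine toric variety with a torus fixed point (`ToricGerm`: any strictly convex rational cone
of dimension `n`), `B` a torus invariant effective `ℝ`-divisor such that `K_X + B` is `ℝ`-Cartier, and `G`
a finite group of automorphisms of `X` which preserve the log discrepancies. For the pair
`(Y, B_Y)`, `Y = X / G`, with `K_X + B = π^* (K_Y + B_Y)`, every prime divisor `F` over `Y` whose centre is
the closed point `π (x)` is the image of a prime divisor `E` over `X` with centre `x`, and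
`a(E, X, B) = r_E a(F, Y, B_Y)` with the ramification index `r_E`, the order of the inertia group of `E`.
Therefore the minimal log discrepancy of `(Y, B_Y)` at `π (x)` is the infimum of `a(E, X, B) / r_E`
(`qmld`). The theorem says that this function is lower semicontinuous on the closed points.

The elements of `G` may permute the faces of the cone. Idea of the proof: let `E'` be a divisor over
a closed point `x'` near `x`, let `σ` generate its inertia group, of order `r`, and let `W` be the
action of `σ` on the lattice of monomials. The eigenfunctions of `σ` which are units times monomials
minus constants give `a(E', X, B) / r ≥ κ + c' + φ (u')`, where `exp (2 π i κ_j)`, `0 ≤ κ_j < 1`, are the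
eigenvalues of `W`, `κ = ∑ κ_j`, `c'` is the dimension of the space spanned by the `W`-invariant monomials
which do not vanish at `x'`, and `φ` is the log discrepancy function of the cone. Conversely one adds to
`r u'` at most `c' - c` orbit sums of edges, `c` the number `c'` for the point `x`, such that the sum
vanishes exactly on the monomials which do not vanish at `x`, and constructs from it a divisor over
`x` with `a(E, X, B) / r_E ≤ κ + c' + φ (u')` by an embedding of the function field in `K((t))`. The
characters of the monomials at `x'` and `x` agree where it matters, because both are determined up to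
roots of unity of bounded order and `x'` is near `x`.
-/

set_option autoImplicit false

namespace Pool.Agent.Results.MP_f23696_ag.ToricQuotients

open Pool.Agent.TH165.ACC Pool.Agent.W497.Mld Pool.Agent.H436R3.KT Pool.Agent.H436R3.Fol Q47.QM

/-- Let `X` be an affine toric variety of dimension `n` with a torus fixed point, `B` a torus
invariant effective `ℝ`-divisor on `X` such that `K_X + B` is `ℝ`-Cartier (`E x`: a local equation at
`x`), and `G` a finite group of automorphisms of `X` preserving log discrepancies, such that every
element of `G` is conjugate by such an automorphism to a monomial automorphism. Then every closed point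
`x` has a principal open neighbourhood on which the minimal log discrepancy of the quotient is at
least its value at the image of `x`. -/
theorem result (n : ℕ) (g : ToricGerm n (FractionRing (MvPolynomial (Fin n) ℂ)))
    (B : EffDiv g.X) (E : ∀ x : Pt g.X, LocEq B x)
    (hB : ∀ v, (∀ i : Fin n, v.ord (cv _ i) = 0) → B.mult v = 0)
    (G : Subgroup (FractionRing (MvPolynomial (Fin n) ℂ) ≃ₐ[ℂ]
      FractionRing (MvPolynomial (Fin n) ℂ))) [Finite G]
    (hG : ∀ σ ∈ G, IsAut E σ)
    (hconj : ∀ σ ∈ G, ∃ γ, IsAut E γ ∧ IsMono n (γ⁻¹ * σ * γ)) (x : Pt g.X) :
    ∃ f : g.X.R, x f ≠ 0 ∧ ∀ x' : Pt g.X, x' f ≠ 0 → qmld E G x ≤ qmld E G x' :=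
  lsc_mld hB G hG hconj x

end Pool.Agent.Results.MP_f23696_ag.ToricQuotients
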