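import Mathlib
import Pool.Agent.Q202.RF.Ring
import Pool.Agent.Q202.RF.Group

set_option autoImplicit false

/-!
# The classes of residually finite rings and groups are axiomatizable in `L_{∞,∞}`

Let `R` be a ring, `a ∈ R` nonzero and `F` a finite algebra of the signature. The set of the
homomorphisms `R → F` not sending `a` to `0` is a closed subset of the compact space `F ^ R`.  So
there is such a homomorphism if and only if for all finite tuples of elements of `R` there is
a map of the tuple to `F` respecting the operations as far as they stay in the tuple.
Residual finiteness is therefore expressed by the sentence: for every nonzero `a` there is a finite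
algebra `F` such that for all `k` and all `x_1, ..., x_k` there is a map of `a, 0, x_1, ..., x_k` to
`F` respecting the operations and not identifying `a` and `0`.  This is a sentence of `L_{ω₁,ω}`.

The definitions (the logic `L_{∞,∞}`, the signatures, residual finiteness) are in
`Pool.Agent.Q202.RF.Defs`.
-/

namespace Pool.Agent.Results.MP_f264ea_lc.Axiomatizable

open Q202.RF Q202.RF.InfFormula

/-- **Answers to Q1 and Q2 (yes).**  There is an `L_{∞,∞}`-sentence in the signature of rings, in
fact an `L_{ω₁,ω}`-sentence, whose models are exactly the residually finite rings, and there is
such a sentence in the signature of groups whose models are exactly the residually finite groups. -/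
theorem result :
    (∃ φ : InfFormula ringLang Empty, φ.IsCountable ∧
      ∀ (M : Type) [ringLang.Structure M], φ.Realize M Empty.elim ↔
        ∃ R : NonUnitalRing M, IsRingStructure M R ∧ ResiduallyFiniteRing M R) ∧
    (∃ φ : InfFormula groupLang Empty, φ.IsCountable ∧
      ∀ (M : Type) [groupLang.Structure M], φ.Realize M Empty.elim ↔
        ∃ G : Group M, IsGroupStructure M G ∧ ResiduallyFiniteGroup M G) :=
  ⟨⟨ringSentence, ringSentence_isCountable, fun M _ => realize_ringSentence M _⟩,
    ⟨groupSentence, groupSentence_isCountable, fun M _ => realize_groupSentence M _⟩⟩

end Pool.Agent.Results.MP_f264ea_lc.Axiomatizable
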