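import Pool.Agent.Q187.SO.Main

/-!
# Soulé's conjecture at `s = 0`: other integers, blow-ups, varieties over finite fields

(1) The question (order at `s = 0`) for all `X × P^m` is equivalent to the analogous formula for
`X` at all integers `s = -k ≤ 0`. (2) For a smooth projective `Y` over a finite field with finite
motivic cohomology, the question for two blow-ups of projective spaces over `ℤ` along `Y`, times
projective spaces, is equivalent to the vanishing of the Euler characteristics of the motivic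
cohomology of `Y` in all weights above the dimension. (3) The formulas hold for all schemes built
by products with projective spaces and blow-ups from schemes for which they are known.
-/

set_option autoImplicit false

namespace Pool.Agent.Results.MP_f3836a_nt.FiniteFieldsAndTwists

open Pool.Agent.Q187.SO

theorem result (D : Data) :
    (∀ (X : D.Sch) (P : ℕ → D.Sch), (∀ m, D.IsProjSpace X (P m) m) →
      (∀ k : ℕ, MeromorphicAt (D.zeta X) (-(k : ℂ))) → (∀ k : ℕ, D.Finite X (D.dim X + k)) →
      ((∀ m, D.Question (P m)) ↔ ∀ k, D.SouleAt X k)) ∧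
    (∀ (Y X₁ X₂ B₁ B₂ : D.Sch) (r q : ℕ) (P₁ P₂ : ℕ → D.Sch), D.IsOverFiniteField Y q →
      (∀ b : ℕ, D.Finite Y (D.dim Y + (b + 1 : ℕ))) → D.Known X₁ → D.Known X₂ →
      D.IsBlowUp X₁ Y B₁ r → D.IsBlowUp X₂ Y B₂ (r + 1) →
      (∀ m, D.IsProjSpace B₁ (P₁ m) m) → (∀ m, D.IsProjSpace B₂ (P₂ m) m) →
      ((∀ m, D.Question (P₁ m) ∧ D.Question (P₂ m)) ↔
        ∀ n : ℕ, D.dim Y < n → D.euler Y n = 0)) ∧
    ∀ S : D.Sch → Prop, (∀ X, S X → D.Known X) → ∀ X, Built D S X →
      D.Question X ∧ ∀ k, D.SouleAt X k := by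
  refine ⟨fun X P hP hX hF => soule_iff hP hX hF, fun Y X₁ X₂ B₁ B₂ r q P₁ P₂ hY hF h1 h2 h3 h4
    h5 h6 => finite_field_iff hY hF h1 h2 h3 h4 h5 h6, fun S hS X hX => ?_⟩
  have h := known_of_built hS hX
  exact ⟨Known.question h, h.soule⟩

end Pool.Agent.Results.MP_f3836a_nt.FiniteFieldsAndTwists
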