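import Pool.Agent.H249.MZ.Main

/-!
# The part of the motivic Lie algebra which acts on multiple zeta values

`H = ℚ[π²] ⊗ Sh` is the graded algebra of the problem: the polynomials in `π²` over the shuffle algebra `Sh` of
`Pool.Agent.H249.MZ.Sh` (the letter `a` stands for `f_(2a+3)`, the shuffle product is defined by the usual recursion);
`part n` is its part of degree `n`. The derivation `cut a` of `H` removes the first letter of a word if it
is `a`, and sends all other words to zero; the Lie algebra `F` generated by the `cut a` is the free Lie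
algebra of the problem, in its action on `H`. It is graded: an element of degree `k` lowers the degrees by `k`.

The external direct sum of the spaces `Z w` of multiple zeta values of weight `w` is the algebra of the
polynomials `∑ z_w X^w`, `z_w ∈ Z w`. A period map is a surjective homomorphism of graded algebras
from `H` to this algebra (it exists by the theorems of Goncharov, Terasoma and Brown). For every period map `ev`:

* There is a largest graded Lie subalgebra `S₀` of `F` which preserves the kernel of `ev`, that is, which acts on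
  multiple zeta values.
* A graded Lie subalgebra `S` of `F` is contained in `S₀` if and only if the kernel of `ev` is generated
  by its elements which are killed by `S`.
* For every graded Lie subalgebra `S` the dimension of `Z n` is at most the coefficient of `X^n` in
  `(∑ dim ev(H^S)_w X^w) / ∏_k (1 - X^k)^(dim S_k)`, with equality for all `n` if and only if `S` is contained in `S₀`.
* The kernel of `ev` is finitely generated (all relations follow from finitely many) if and only if
  `S₀` contains all elements of `F` of large degree.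
* `Z` and `H` are isomorphic if and only if `S₀ = F`, if and only if `dim Z_n = dim H_n` for infinitely many `n`. One
  relation of weight `m` implies `dim Z_n ≤ dim H_n - dim H_(n-m)` for all `n ≥ m`.

Proof. Elements `y` of degree `k` of `S` have slices, elements `s` of degree `k` with `y s = 1`; adding the
homogeneous elements of `S` one at a time, in decreasing order of degree, the algebra of invariants changes from `B` to
`B'` with `B = B'[s]`, and the same is true modulo the kernel. (With `S = F` this shows also that `H` is a domain.)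
-/

set_option autoImplicit false

open Submodule Module Polynomial

namespace Pool.Agent.Results.MP_f3dc73_nt.StabilizerOfRelations

/-- The algebra `H`: polynomials in `π²` over the shuffle algebra. -/
def H : Type := Pool.Agent.H249.MZ.HH

noncomputable instance instRing : CommRing H := Pool.Agent.H249.MZ.ringHH
noncomputable instance instAlg : Algebra ℚ H := Pool.Agent.H249.MZ.algHH

/-- The part of degree `n` of `H`, spanned by the products of `(π²)^i` and words `u` with `2 i + (weight of u) = n`. -/
noncomputable def part (n : ℕ) : Submodule ℚ H := Pool.Agent.H249.MZ.deg n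

/-- The derivations of `H`. -/
def Der : Type := Derivation ℚ Pool.Agent.H249.MZ.HH Pool.Agent.H249.MZ.HH

noncomputable instance instGroup : AddCommGroup Der := Pool.Agent.H249.MZ.dacg
noncomputable instance instMod : Module ℚ Der := Pool.Agent.H249.MZ.dmod

/-- The value of a derivation. -/
noncomputable def Der.app (d : Der) (x : H) : H := Pool.Agent.H249.MZ.dapp d x

/-- The Lie algebras of derivations of `H`. -/
def LieSub : Type := LieSubalgebra ℚ (Derivation ℚ Pool.Agent.H249.MZ.HH Pool.Agent.H249.MZ.HH)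

/-- `S` contains `d`. -/
def LieSub.Has (S : LieSub) (d : Der) : Prop := Pool.Agent.H249.MZ.lhas S d

instance instLE : LE LieSub := ⟨fun S T => ∀ d, S.Has d → T.Has d⟩

/-- The free Lie algebra `F`, generated by the derivations `cut a`. -/
noncomputable def F : LieSub := Pool.Agent.H249.MZ.Fl

/-- The multiple zeta value `ζ(n_1, ..., n_m)`. -/
noncomputable def mzv (m : ℕ) (n : Fin m → ℕ) : ℝ :=
  ∑' k : {k : Fin m → ℕ // StrictMono k ∧ ∀ i, 0 < k i}, ∏ i, (((k.1 i : ℕ) : ℝ) ^ n i)⁻¹

/-- The space of the multiple zeta values of weight `w`. -/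
noncomputable def Z (w : ℕ) : Submodule ℚ ℝ := Submodule.span ℚ {x : ℝ | ∃ m : ℕ, ∃ n : Fin m → ℕ,
  (∀ i, 1 ≤ n i) ∧ (∀ i : Fin m, (i : ℕ) + 1 = m → 2 ≤ n i) ∧ ∑ i, n i = w ∧ x = mzv m n}

/-- A surjective homomorphism of graded algebras from `H` to the algebra of the polynomials `∑ z_w X^w`, `z_w ∈ Z w`. -/
def IsPeriodMap (ev : H →ₐ[ℚ] ℝ[X]) : Prop :=
  ∀ w, ∀ p : ℝ[X], (∃ x ∈ part w, ev x = p) ↔ ∃ z ∈ Z w, monomial w z = p

/-- Question Q1: there is an isomorphism of graded algebras from `H` to `Z`. -/
def Q1 : Prop := ∃ ev : H →ₐ[ℚ] ℝ[X], IsPeriodMap ev ∧ Function.Injective ev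

/-- The derivation `d` has degree `k`: it lowers all degrees by `k`. -/
def Lowers (k : ℕ) (d : Der) : Prop :=
  ∀ w, ∀ x ∈ part w, (∀ v, v + k = w → d.app x ∈ part v) ∧ (w < k → d.app x = 0)

/-- `S` is a graded Lie subalgebra of `F`: it is spanned by its elements of the degrees `1, 2, 3, ...`. -/
def IsGradedSub (S : LieSub) : Prop :=
  S ≤ F ∧ ∀ d, S.Has d → d ∈ Submodule.span ℚ {d' | S.Has d' ∧ ∃ k, Lowers (k + 1) d'}

/-- The relations (the kernel of `ev`) are preserved by `S`. -/
def Stable (ev : H →ₐ[ℚ] ℝ[X]) (S : LieSub) : Prop := ∀ d, S.Has d → ∀ x, ev x = 0 → ev (d.app x) = 0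

/-- The ideal of the relations is generated by relations which are killed by `S`. -/
def Generated (ev : H →ₐ[ℚ] ℝ[X]) (S : LieSub) : Prop :=
  ∀ x, ev x = 0 → x ∈ Ideal.span {y | ev y = 0 ∧ ∀ d, S.Has d → d.app y = 0}

/-- The dimension of the space of the values of the elements of degree `w` which are killed by `S`. -/
noncomputable def dimInv (ev : H →ₐ[ℚ] ℝ[X]) (S : LieSub) (w : ℕ) : ℕ :=
  Set.finrank ℚ {p : ℝ[X] | ∃ x ∈ part w, (∀ d, S.Has d → d.app x = 0) ∧ ev x = p}

/-- The dimension of the part of degree `k` of `S`. -/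
noncomputable def dimLie (S : LieSub) (k : ℕ) : ℕ := Set.finrank ℚ {d : Der | S.Has d ∧ Lowers k d}

/-- The coefficient of `X ^ n` in `(∑ dimInv ev S w * X ^ w) / ∏_k (1 - X ^ k) ^ dimLie S k`. -/
noncomputable def bound (ev : H →ₐ[ℚ] ℝ[X]) (S : LieSub) (n : ℕ) : ℚ :=
  PowerSeries.coeff n (PowerSeries.mk (fun w => (dimInv ev S w : ℚ)) *
    (∏ k ∈ Finset.Icc 1 n, (1 - PowerSeries.X ^ k) ^ dimLie S k)⁻¹)

section

open Pool.Agent.H249.MZ

theorem period_iff (ev : H →ₐ[ℚ] ℝ[X]) : IsPeriodMap ev ↔ Main.IsPeriodMap ev := by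
  refine forall_congr' fun w => ?_
  constructor
  · intro h
    ext p
    exact h p
  · intro h p
    exact (congrArg (fun V : Submodule ℚ ℝ[X] => p ∈ V) h).to_iff

theorem graded_iff (S : LieSub) : IsGradedSub S ↔ Main.IsGradedSub S := by
  refine and_congr Iff.rfl ?_
  have h1 : (Submodule.span ℚ {d' : Derivation ℚ HH HH | S.Has d' ∧ ∃ k, Lowers (k + 1) d'} :
      Submodule ℚ (Derivation ℚ HH HH)) =
      (⨆ k : ℕ, LieSubalgebra.toSubmodule (L := Derivation ℚ HH HH) S ⊓ Deg deg (k + 1) :
        Submodule ℚ (Derivation ℚ HH HH)) := by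
    apply le_antisymm
    · refine Submodule.span_le.mpr ?_
      rintro d ⟨h1, k, h2⟩
      exact Submodule.mem_iSup_of_mem k ⟨h1, h2⟩
    · refine iSup_le fun k => ?_
      rintro d ⟨h1, h2⟩
      exact Submodule.subset_span ⟨h1, k, h2⟩
  constructor
  · intro h d hd
    exact h1.le (h d hd)
  · intro h d hd
    exact h1.ge (h hd)

theorem dimInv_eq (ev : H →ₐ[ℚ] ℝ[X]) (S : LieSub) (w : ℕ) : dimInv ev S w = Main.dimInv ev S w := by
  unfold dimInv Main.dimInv Set.finrank
  congr 2
  all_goals
    apply le_antisymm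
    · refine Submodule.span_le.mpr ?_
      rintro p ⟨x, hx, h1, rfl⟩
      exact ⟨x, ⟨h1, hx⟩, rfl⟩
    · rintro p ⟨x, ⟨h1, hx⟩, rfl⟩
      exact Submodule.subset_span ⟨x, hx, h1, rfl⟩

theorem dimLie_eq (S : LieSub) (k : ℕ) : dimLie S k = Main.dimLie S k := by
  have h1 : (Submodule.span ℚ {d : Derivation ℚ HH HH | S.Has d ∧ Lowers k d} : Submodule ℚ (Derivation ℚ HH HH)) =
      (LieSubalgebra.toSubmodule (L := Derivation ℚ HH HH) S ⊓ Deg deg k : Submodule ℚ (Derivation ℚ HH HH)) := by
    apply le_antisymm
    · refine Submodule.span_le.mpr ?_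
      rintro d ⟨h1, h2⟩
      exact ⟨h1, h2⟩
    · rintro d ⟨h1, h2⟩
      exact Submodule.subset_span ⟨h1, h2⟩
  exact congrArg (fun V : Submodule ℚ (Derivation ℚ HH HH) => finrank ℚ V) h1

theorem bound_eq (ev : H →ₐ[ℚ] ℝ[X]) (S : LieSub) (n : ℕ) : bound ev S n = Main.bound ev S n := by
  unfold bound Main.bound
  simp only [dimInv_eq, dimLie_eq]

end

/-- **Theorem.** For every period map `ev` there is a largest graded Lie subalgebra `S₀` of `F` which preserves the
relations. For graded Lie subalgebras `S` of `F` the following are equivalent: `S` is contained in `S₀`; the relations are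
generated by relations killed by `S`; `dim Z_n` is equal to the bound `bound ev S n` for all `n`, which holds for
every `S`. The ideal of the relations is finitely generated if and only if `S₀` contains all elements of `F` of large
degree. A relation of weight `m` implies `dim Z_n ≤ dim H_n - dim H_(n-m)` for `n ≥ m`. Q1 holds if and only if
`S₀ = F`, if and only if `dim Z_n = dim H_n` for infinitely many `n`. -/
theorem result (ev : H →ₐ[ℚ] ℝ[X]) (hev : IsPeriodMap ev) :
    ∃ S₀ : LieSub, IsGradedSub S₀ ∧
      (∀ S, IsGradedSub S → (Stable ev S ↔ S ≤ S₀) ∧ (Generated ev S ↔ S ≤ S₀) ∧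
        ((∀ n, (finrank ℚ (Z n) : ℚ) = bound ev S n) ↔ S ≤ S₀) ∧ ∀ n, (finrank ℚ (Z n) : ℚ) ≤ bound ev S n) ∧
      ((RingHom.ker ev).FG ↔ ∃ N, ∀ k > N, ∀ d, F.Has d → Lowers k d → S₀.Has d) ∧
      (∀ m n, m ≤ n → (∃ x ∈ part m, x ≠ 0 ∧ ev x = 0) →
        finrank ℚ (Z n) + finrank ℚ (part (n - m)) ≤ finrank ℚ (part n)) ∧
      (Q1 ↔ S₀ = F) ∧ (Q1 ↔ {n | finrank ℚ (Z n) = finrank ℚ (part n)}.Infinite) := by
  obtain ⟨S₀, h1, h2, h3, h4, h5, h6⟩ := Pool.Agent.H249.MZ.Main.main ev ((period_iff ev).mp hev)
  have hQ : Q1 ↔ Pool.Agent.H249.MZ.Main.Q1 :=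
    exists_congr fun φ => and_congr (period_iff φ) Iff.rfl
  refine ⟨S₀, (graded_iff S₀).mpr h1, fun S hS => ?_, h3.trans ?_, h4, hQ.trans h5, hQ.trans h6⟩
  · obtain ⟨g1, g2, g3, g4⟩ := h2 S ((graded_iff S).mp hS)
    refine ⟨g1, g2, ?_, fun n => ?_⟩
    · simp only [bound_eq]
      exact g3
    · rw [bound_eq]
      exact g4 n
  · exact exists_congr fun N => ⟨fun h k hk d hd hd' => h k hk ⟨hd, hd'⟩, fun h k hk d hd => h k hk d hd.1 hd.2⟩

end Pool.Agent.Results.MP_f3dc73_nt.StabilizerOfRelations
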