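import Pool.Agent.Q197.PS.GD

/-! # The asymptotic Elliott conjecture along random unions of residue classes

`Pret k A x f` says that `f_0, ..., f_k` are multiplicative with values in the unit disk and `f_0` is at
distance at least `A` from all `χ(n) n^(it)` with `χ` of modulus at most `A` and `|t| ≤ A x^k`. For a set `S`
of residues modulo `P` let `avg f h x P S` be `1 / x` times the sum over the `n ≤ x` with residue in `S` of
`f_0(n + h_0) ... f_k(n + h_k)`. `Uniform k h P S` says that these averages are `o(1)` as `A → ∞`, uniformly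
in `x ≥ A` and `f`; for all `n` this is the statement of the problem. -/

set_option autoImplicit false

open Finset Filter Topology

namespace Pool.Agent.Results.MP_f3f922_nt.UnionsOfClasses

/-- The hypothesis of the problem (as in `S18973`). -/
def Pret (k : ℕ) (A x : ℝ) (f : Fin (k + 1) → ArithmeticFunction ℂ) : Prop :=
  (∀ i, (f i).IsMultiplicative) ∧ (∀ i n, ‖f i n‖ ≤ 1) ∧
    (∀ q : ℕ, 1 ≤ q → (q : ℝ) ≤ A → ∀ χ : DirichletCharacter ℂ q, ∀ t : ℝ, |t| ≤ A * x ^ k →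
      A ≤ Real.sqrt (∑ p ∈ (Finset.Iic ⌊x⌋₊).filter Nat.Prime,
        (1 - (f 0 p * (starRingEnd ℂ) (χ (p : ZMod q) * (p : ℂ) ^ ((t : ℂ) * Complex.I))).re) / (p : ℝ)))

/-- The average over the `1 ≤ n ≤ x` with `n mod P ∈ S`. -/
noncomputable def avg {k : ℕ} (f : Fin (k + 1) → ArithmeticFunction ℂ) (h : Fin (k + 1) → ℕ) (x : ℝ) (P : ℕ)
    (S : Finset ℕ) : ℝ :=
  ‖∑ n ∈ (Finset.Icc 1 ⌊x⌋₊).filter (fun n => n % P ∈ S), ∏ i, f i (n + h i)‖ / x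

/-- The average over all `1 ≤ n ≤ x`. -/
noncomputable def avgAll {k : ℕ} (f : Fin (k + 1) → ArithmeticFunction ℂ) (h : Fin (k + 1) → ℕ) (x : ℝ) : ℝ :=
  ‖∑ n ∈ Finset.Icc 1 ⌊x⌋₊, ∏ i, f i (n + h i)‖ / x

/-- The averages along `S` are `o(1)` as `A → ∞`, uniformly in `x ≥ A` and `f`. -/
def Uniform (k : ℕ) (h : Fin (k + 1) → ℕ) (P : ℕ) (S : Finset ℕ) : Prop :=
  ∀ ε : ℝ, 0 < ε → ∃ A₀ : ℝ, ∀ A : ℝ, 2 ≤ A → A₀ ≤ A → ∀ x : ℝ, A ≤ x →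
    ∀ f : Fin (k + 1) → ArithmeticFunction ℂ, Pret k A x f → avg f h x P S ≤ ε

open Classical in
/-- The number of the sets `S` of residues modulo `P` along which the averages are uniformly `o(1)`. -/
noncomputable def good (k : ℕ) (h : Fin (k + 1) → ℕ) (P : ℕ) : ℕ :=
  ((range P).powerset.filter (fun S => Uniform k h P S)).card

/-- the index set -/
def Idx (k : ℕ) : Type :=
  {i : ℝ × ℝ × (Fin (k + 1) → ArithmeticFunction ℂ) // 2 ≤ i.1 ∧ i.1 ≤ i.2.1 ∧ Pret k i.1 i.2.1 i.2.2}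

/-- the filter `A → ∞` -/
def flt (k : ℕ) : Filter (Idx k) := comap (fun i : Idx k => i.1.1) atTop

/-- the products -/
noncomputable def uu {k : ℕ} (h : Fin (k + 1) → ℕ) (i : Idx k) (n : ℕ) : ℂ := ∏ j, i.1.2.2 j (n + h j)

/-- the length -/
def XX {k : ℕ} (i : Idx k) : ℝ := i.1.2.1

lemma uu_le {k : ℕ} (h : Fin (k + 1) → ℕ) (i : Idx k) (n : ℕ) : ‖uu h i n‖ ≤ 1 := by
  unfold uu
  rw [norm_prod]
  exact prod_le_one (fun _ _ => norm_nonneg _) fun j _ => i.2.2.2.2.1 j _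

lemma XX_tendsto (k : ℕ) : Tendsto (XX (k := k)) (flt k) atTop :=
  tendsto_atTop_mono (fun i => i.2.2.1) tendsto_comap

lemma avg_eq {k : ℕ} (h : Fin (k + 1) → ℕ) (i : Idx k) (P : ℕ) (S : Finset ℕ) :
    avg i.1.2.2 h i.1.2.1 P S = ‖Q197.PS.mU (uu h) XX P S i‖ := by
  unfold avg Q197.PS.mU uu XX
  have h1 : (0 : ℝ) ≤ i.1.2.1 := by linarith [i.2.1, i.2.2.1]
  rw [norm_div, Complex.norm_real, Real.norm_of_nonneg h1]

lemma uniform_iff (k : ℕ) (h : Fin (k + 1) → ℕ) (P : ℕ) (S : Finset ℕ) :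
    Uniform k h P S ↔ Tendsto (Q197.PS.mU (uu h) XX P S) (flt k) (𝓝 0) := by
  rw [tendsto_zero_iff_norm_tendsto_zero, Metric.tendsto_nhds]
  constructor
  · intro hU ε hε
    obtain ⟨A₀, hA⟩ := hU (ε / 2) (by positivity)
    have h1 : ∀ᶠ i in flt k, A₀ ≤ i.1.1 := tendsto_comap.eventually_ge_atTop A₀
    filter_upwards [h1] with i hi
    have h2 := hA i.1.1 i.2.1 hi i.1.2.1 i.2.2.1 i.1.2.2 i.2.2.2
    rw [avg_eq] at h2
    rw [Real.dist_eq, sub_zero, abs_norm]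
    linarith
  · intro hT ε hε
    have h1 := hT ε hε
    unfold flt at h1
    rw [eventually_comap, eventually_atTop] at h1
    obtain ⟨A₀, hA⟩ := h1
    refine ⟨A₀, fun A hA2 hA0 x hx f hf => ?_⟩
    have h2 := hA A hA0 ⟨(A, x, f), hA2, hx, hf⟩ rfl
    rw [Real.dist_eq, sub_zero, abs_norm] at h2
    have h3 := avg_eq h (⟨(A, x, f), hA2, hx, hf⟩ : Idx k) P S
    exact (h3.trans_lt h2).le

lemma avgAll_eq {k : ℕ} (f : Fin (k + 1) → ArithmeticFunction ℂ) (h : Fin (k + 1) → ℕ) (x : ℝ) :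
    avgAll f h x = avg f h x 1 {0} := by
  unfold avgAll avg
  rw [filter_true_of_mem (fun n _ => by rw [mem_singleton, Nat.mod_one])]

open Classical in
theorem result :
    (∀ (k : ℕ) (h : Fin (k + 1) → ℕ), (∀ q : ℕ, 0 < q → ∀ a < q, Uniform k h q {a}) ↔
      ∀ q : ℕ, 0 < q → ∀ K : ℝ, ∃ P : ℕ, 0 < P ∧ q ∣ P ∧ K * 2 ^ P / √P ≤ good k h P) ∧
    (∀ (k : ℕ) (h : Fin (k + 1) → ℕ) (c : ℝ), 0 < c →
      (∀ A₀ : ℝ, ∃ A : ℝ, 2 ≤ A ∧ A₀ ≤ A ∧ ∃ x : ℝ, A ≤ x ∧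
        ∃ f : Fin (k + 1) → ArithmeticFunction ℂ, Pret k A x f ∧ c ≤ avgAll f h x) →
      ∀ P : ℕ, 0 < P → (good k h P : ℝ) ≤ 108 * (1 + 1 / c) * 2 ^ P / √P) ∧
    (∀ (k : ℕ) (h : Fin (k + 1) → ℕ) (c : ℝ), 0 < c → ∀ q a : ℕ,
      (∀ A₀ : ℝ, ∃ A : ℝ, 2 ≤ A ∧ A₀ ≤ A ∧ ∃ x : ℝ, A ≤ x ∧
        ∃ f : Fin (k + 1) → ArithmeticFunction ℂ, Pret k A x f ∧ c ≤ avg f h x q {a}) →
      ∀ P : ℕ, 0 < P → q ∣ P → (good k h P : ℝ) ≤ 108 * (1 + 1 / c) * 2 ^ P / √P) ∧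
    ((∀ (k : ℕ) (h : Fin (k + 1) → ℕ), Function.Injective h → ∀ K : ℝ,
        ∃ P : ℕ, 0 < P ∧ K * 2 ^ P / √P ≤ good k h P) →
      ∀ (k : ℕ) (h : Fin (k + 1) → ℕ), Function.Injective h →
        ∀ ε : ℝ, 0 < ε → ∃ A₀ : ℝ, ∀ A : ℝ, 2 ≤ A → A₀ ≤ A → ∀ x : ℝ, A ≤ x →
        ∀ f : Fin (k + 1) → ArithmeticFunction ℂ, Pret k A x f → avgAll f h x ≤ ε) := by
  have hg : ∀ (k : ℕ) (h : Fin (k + 1) → ℕ) (P : ℕ), good k h P = Q197.PS.nU (flt k) (uu h) XX P := by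
    intro k h P
    unfold good Q197.PS.nU
    simp only [uniform_iff]
  have hfr : ∀ (k : ℕ) (h : Fin (k + 1) → ℕ) (c : ℝ) (q : ℕ) (B : Finset ℕ),
      (∀ A₀ : ℝ, ∃ A : ℝ, 2 ≤ A ∧ A₀ ≤ A ∧ ∃ x : ℝ, A ≤ x ∧
        ∃ f : Fin (k + 1) → ArithmeticFunction ℂ, Pret k A x f ∧ c ≤ avg f h x q B) →
      ∃ᶠ i in flt k, c ≤ ‖Q197.PS.mU (uu h) XX q B i‖ := by
    intro k h c q B hA hcon
    unfold flt at hcon
    rw [eventually_comap, eventually_atTop] at hcon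
    obtain ⟨A₀, h1⟩ := hcon
    obtain ⟨A, hA2, hA0, x, hx, f, hf, h2⟩ := hA A₀
    have h3 := avg_eq h (⟨(A, x, f), hA2, hx, hf⟩ : Idx k) q B
    exact h1 A hA0 ⟨(A, x, f), hA2, hx, hf⟩ rfl (h2.trans_eq h3)
  refine ⟨fun k h => ?_, fun k h c hc hA P hP => ?_, fun k h c hc q a hA P hP hd => ?_,
    fun hyp k h hh => ?_⟩
  · simp only [hg, uniform_iff]
    exact Q197.PS.U_iff (uu_le h) (XX_tendsto k)
  · rw [hg]
    simp only [avgAll_eq] at hA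
    exact Q197.PS.few_U (uu_le h) (XX_tendsto k) hc 1 {0} (hfr k h c 1 {0} hA) hP (one_dvd P)
  · rw [hg]
    exact Q197.PS.few_U (uu_le h) (XX_tendsto k) hc q {a} (hfr k h c q {a} hA) hP hd
  · have h1 := Q197.PS.U_all (uu_le h) (XX_tendsto k) (fun K => by
      obtain ⟨P, hP, h2⟩ := hyp k h hh K
      exact ⟨P, hP, by rw [← hg]; exact h2⟩)
    have h2 := (uniform_iff k h 1 {0}).2 h1
    simp only [avgAll_eq]
    exact h2

end Pool.Agent.Results.MP_f3f922_nt.UnionsOfClasses
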