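import Pool.Agent.Q217.CO.Main

set_option autoImplicit false

/-!
# Halting probabilities restricted to co-c.e. output sets

For machines that are universal by adjunction, `Ω_U[X]` is Martin-Löf random for every co-c.e.
set `X` with `Ω_U[X] > 0`.

Idea of the proof. Let `W` be the complement of `X`, and let `f(t)` be the mass of the
computations of `U` found by time `t` whose output is not yet in `W`. Suppose that the limit of
`f` lies in all open sets `V_c` of a Martin-Löf test. Fix `x0` in `X`. A component of `U` whose
code has weight `u` (and is known to the component) follows nested strategies. The strategy of
level `0` with amount `a` puts mass `a` on `x0`. The strategy of level `j + 1` with amount `a`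
chooses a very small `V_c`, and repeatedly waits until `f(t)` lies in an interval of `V_c` with
room `δ` to the right, and then runs a strategy of level `j` with amount at most `δ / 8`, until
the total amount is `a`. As `f` has to come back to the left after most of the rounds, elements
must be enumerated into `W`; comparing with the measure of `V_c` one sees that the mass put by
`U` on outputs that are removed during a strategy of level `j` is at least
`j (u a / 2 - (u / 4) * (new mass))`. For `j > 4 / u` this is impossible.
-/

namespace Pool.Agent.Results.MP_f476d2_lc.OmegaCoCeRandom

open Q217.CO

/-- If `U` is a prefix-free machine that is universal by adjunction and `X` is a co-c.e. set of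
strings with `Ω_U[X] > 0`, then `Ω_U[X]` is Martin-Löf random. -/
theorem result (U : List Bool →. List Bool) (hU : UniversalByAdjunction U)
    (X : Set (List Bool)) (hX : REPred fun x => x ∉ X) (hpos : 0 < Omega U X) :
    Pool.Agent.Helper626.Rand.MLRandom (Omega U X) :=
  main hU hX hpos

end Pool.Agent.Results.MP_f476d2_lc.OmegaCoCeRandom
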