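import Pool.Agent.Q172.PP.Odd
import Pool.Agent.Q172.PP.Pell

/-!
# Primes `64 b² + 9 = 8 d² + 1`: infinitude, number and limit laws for all random index sets near the models

The admissible primes are the primes `8 d_m² + 1`, `d_m + b_m √8 = (3 + √8)^m`, with `m` odd.  The heuristic models contain each odd `m` in the
index set independently with probability `q m`, `m q m → 2 c` (the number `8 d_m² + 1` has the logarithm `~ 2 m log (3 + √8)`; the constant
depends on the small primes), so that `c log x` indices below `x` are expected.  For any random set `A` (no independence is assumed)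
`relEnt q μ A (ind {n | Odd n} x)` is the relative entropy (nats) of the law of the set of the odd numbers below `x` in `A` with respect to the
model, and `M (A ω) x` is their number.
-/

set_option autoImplicit false

namespace Pool.Agent.Results.MP_f53aaa_nt.InfinitudeAtGivenInformation

open MeasureTheory Filter Pool.Agent.Q120.ET Pool.Agent.Q120.ME
open scoped Topology

/-- the solutions of Pell's equation: `d_m + b_m √8 = (3 + √8)^m` -/
def dd : ℕ → ℤ
  | 0 => 1
  | 1 => 3
  | (m + 2) => 6 * dd (m + 1) - dd m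

/-- the indices of the admissible primes: `8 d_m² + 1` is prime -/
def T : Set ℕ := {m | ((8 * dd m ^ 2 + 1).toNat).Prime}

/-- the admissible primes, as in the problem -/
def admissible : Set ℕ := {p | p.Prime ∧ ∃ b d : ℤ, (p : ℤ) = 64 * b ^ 2 + 9 ∧ (p : ℤ) = 8 * d ^ 2 + 1}

/-- the models: each odd `n` is an index independently with probability `q n`, where `0 < q n < 1` and `n q n → 2 c` -/
structure Model (c : ℝ) (q : ℕ → ℝ) : Prop where
  cpos : 0 < c
  pos : ∀ n, Odd n → 0 < q n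
  lt_one : ∀ n, Odd n → q n < 1
  lim : ∀ ε : ℝ, 0 < ε → ∀ᶠ n : ℕ in atTop, Odd n → |(n : ℝ) * q n - 2 * c| ≤ ε

/-- the number of the odd numbers below `x` in `S` -/
noncomputable def M (S : Set ℕ) (x : ℕ) : ℕ := cnt {n | Odd n} S x

/-- the relative entropy (nats) of the law of the odd numbers below `x` in `A` with respect to the model -/
noncomputable def D (q : ℕ → ℝ) {Ω : Type*} [MeasurableSpace Ω] (μ : Measure Ω) (A : Ω → Set ℕ) (x : ℕ) : ℝ :=
  relEnt q μ A (ind {n | Odd n} x)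

/-- the class `δ`: `D(x) ≤ (δ + o(1)) log x` -/
def Cls (q : ℕ → ℝ) (δ : ℝ) {Ω : Type*} [MeasurableSpace Ω] (μ : Measure Ω) (A : Ω → Set ℕ) : Prop :=
  IsRandomSet A ∧ ∀ ε : ℝ, 0 < ε → ∀ᶠ x : ℕ in atTop, D q μ A x ≤ (δ + ε) * Real.log x

lemma dd_eq : dd = Q172.PP.dd := by
  have h : ∀ m, dd m = Q172.PP.dd m ∧ dd (m + 1) = Q172.PP.dd (m + 1) := by
    intro m
    induction m with
    | zero => exact ⟨rfl, rfl⟩
    | succ m ih =>
      refine ⟨ih.2, ?_⟩
      show 6 * dd (m + 1) - dd m = 6 * Q172.PP.dd (m + 1) - Q172.PP.dd m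
      rw [ih.1, ih.2]
  exact funext fun m => (h m).1

/-- (0) The indices of the admissible primes are odd, and `m ↦ 8 d_m² + 1` is a bijection from the indices to the admissible primes.  For every
model: (1) For every `d : ℕ → ℝ` and `0 ≤ t < 1`: all random sets with `D(x) ≤ d x` for large `x` contain only finitely many odd numbers with
probability at most `t` iff `liminf d x / log x ≤ c * t`; so all these sets almost surely contain infinitely many indices iff
`liminf d x / log x ≤ 0`.  (2) For nondecreasing `d ≥ 0` all these sets almost surely have `M(x) ~ c log x` iff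
`∑_{n odd} d n / (n log² n) < ∞`.  (3) A probability measure `ν` is the law of `lim M(x) / log x` for some random set of class `δ`
(`D(x) ≤ (δ + o(1)) log x`) iff it lives on `[0, ∞)` and `∫ (u log (u / c) - u + c) dν ≤ δ`. -/
theorem result :
    (∀ m ∈ T, Odd m) ∧ Set.BijOn (fun m => (8 * dd m ^ 2 + 1).toNat) T admissible ∧
    ∀ (c : ℝ) (q : ℕ → ℝ), Model c q →
    (∀ d : ℕ → ℝ, ∀ t : ℝ, 0 ≤ t → t < 1 →
      ((∀ (Ω : Type) [MeasurableSpace Ω] (μ : Measure Ω) [IsProbabilityMeasure μ] (A : Ω → Set ℕ), IsRandomSet A →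
        (∀ᶠ x : ℕ in atTop, D q μ A x ≤ d x) → μ.real {ω | (A ω ∩ {n | Odd n}).Finite} ≤ t) ↔
      ∀ ε : ℝ, 0 < ε → ∃ᶠ x : ℕ in atTop, d x ≤ (c * t + ε) * Real.log x)) ∧
    (∀ d : ℕ → ℝ, Monotone d → (∀ n, 0 ≤ d n) →
      ((∀ (Ω : Type) [MeasurableSpace Ω] (μ : Measure Ω) [IsProbabilityMeasure μ] (A : Ω → Set ℕ), IsRandomSet A →
        (∀ᶠ x : ℕ in atTop, D q μ A x ≤ d x) → ∀ᵐ ω ∂μ, Tendsto (fun x : ℕ => (M (A ω) x : ℝ) / Real.log x) atTop (𝓝 c)) ↔
      Summable (fun n : ℕ => if Odd n then d n / (n * Real.log n ^ 2) else 0))) ∧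
    ∀ δ : ℝ, 0 ≤ δ → ∀ ν : Measure ℝ, IsProbabilityMeasure ν →
        ((∃ (Ω : Type) (_ : MeasurableSpace Ω) (μ : Measure Ω) (_ : IsProbabilityMeasure μ) (A : Ω → Set ℕ) (L : Ω → ℝ), Cls q δ μ A ∧
          Measurable L ∧ μ.map L = ν ∧ ∀ᵐ ω ∂μ, Tendsto (fun x : ℕ => (M (A ω) x : ℝ) / Real.log x) atTop (𝓝 (L ω))) ↔
        ν (Set.Iio 0) = 0 ∧ ∫⁻ u, ENNReal.ofReal (u * Real.log (u / c) - u + c) ∂ν ≤ ENNReal.ofReal δ) := by
  have hT : T = Q172.PP.T := by
    unfold T Q172.PP.T
    rw [dd_eq]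
  refine ⟨fun m hm => ?_, ?_, fun c q hM => ?_⟩
  · rw [hT] at hm
    exact Q172.PP.T_odd hm
  · rw [hT, dd_eq]
    exact Q172.PP.T_bij
  · have hM' : Q172.PP.OModel c q := ⟨hM.cpos, hM.pos, hM.lt_one, hM.lim⟩
    have R := Q172.PP.odat hM'
    refine ⟨fun d t ht ht1 => Q172.PP.threshold R d ht ht1, fun d hm hd => ?_, fun δ hδ ν _ => Q172.PP.laws_iff R jobs hδ ν⟩
    rw [← Q172.PP.oconv hM' hd, Q172.PP.conv_iff R jobs hd]
    exact Q172.PP.law_iff R jobs hm hd

end Pool.Agent.Results.MP_f53aaa_nt.InfinitudeAtGivenInformation
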