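import Pool.Agent.Q8.DC.Final

/-!
# MP_f569db_ag: the conjecture D in one codimension

`W` is a Weil cohomology theory on a class of smooth proper varieties over a field which is closed
under products, `HomEqNumIn W Y p` is the conjecture D for the cycles of codimension `p` on `Y`
(rational coefficients), `HomEqNum` the conjecture D in all codimensions, `LefschetzB` the conjecture
B. Let `c_Y(p)` be the dimension of the span of the classes of the cycles of codimension `p`,
`ν_Y(p)` that of its subspace of numerically trivial classes, `r_Y(p) = c_Y(p) - ν_Y(p)`.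

* `NullLaw`: `ν_(Y × Z)(p) ≥ ∑_b (c_Y(p - b) c_Z(b) - r_Y(p - b) r_Z(b))`.
* `OneCodimD`: D for `X × X × Z` in one codimension `p`, `n + 1 ≤ p ≤ n + 1 + dim Z`, implies B for
  `X`, `n = dim X`.
* `PowerD`, `MiddleD`: for a power `P` of `X` of dimension `N` and `n + 1 ≤ p ≤ N - n + 1`, D for `P`
  in the codimension `p` is equivalent to B for `X` and D for `P` in all codimensions
  `≤ e` and `≥ N - e`, `e = min (p, N - p)`. For the cube and all higher powers D in the middle
  codimension is equivalent to D in all codimensions.
* `GrowthD`: the number of numerically trivial classes on the powers of `X` is zero for all powers or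
  grows exponentially; if B fails for `X` they exist in all codimensions `p` with
  `n + 1 ≤ p ≤ N - n + 1`.
* `LineLaw`: for any integer `t`, D for all `V` in the codimension `(dim V + t) / 2` implies D for all
  `V` in all codimensions.
* `DimLaw`: D for the cycles of dimension `r` on all varieties implies B for all `V` of dimension at
  most `r + 1` and D for all `V` of dimension at most `2 r + 1`.
-/

open CategoryTheory AlgebraicGeometry

universe u v

namespace Pool.Agent.Results.MP_f569db_ag.OneCodimension

open Pool.Agent.H914 Pool.Agent.W550.B Pool.Agent.Q8.DC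

/-- **The conjecture D in one codimension.** -/
theorem result {k : Type u} [Field k] {𝒱 : VarClass k} {ops : CycleOps 𝒱}
    (W : WeilCohomology.{u, v} ops) :
    NullLaw W ∧ LineLaw W ∧ DimLaw W ∧
    ∀ (X : 𝒱.Obj) (D : X.Cycles), IsLefschetzDivisor W X D → OneCodimD W X D ∧
      (1 ≤ X.dim → Nontrivial (W.H X) → PowerD W X D ∧ MiddleD W X D ∧ GrowthD W X D) :=
  ⟨nullLaw, lineLaw, dimLaw, fun _ _ hX => ⟨oneCodimD hX, fun hn hnt =>
    haveI := hnt
    ⟨powerD hX hn, middleD hX hn, growthD hX⟩⟩⟩

end Pool.Agent.Results.MP_f569db_ag.OneCodimension
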