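import Pool.Agent.Q260.MZ.Iso

set_option autoImplicit false

/-!
# Isolated zeros in all windows along dilations and powers, unconditionally

No hypothesis is assumed.  Let `u_k` be any sequence of positive numbers that grows faster than
every power of `k`, for instance `2 ^ k` or `k!`.  For almost every `α > 0` the following holds for
all large `k`: in every interval `(y, y + H]` with `y = α u_k` and `y ^ η ≤ H ≤ y / 16` a proportion
at least `1 - (c(h) - 1) / K(h r)² - ε` of the zeros of zeta (or of `L(s, χ)`, `χ` primitive) are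
simple, lie on the critical line, and have no other zero within `r` mean spacings (in a box around
them); here `2 h < 1 + η` and `h r ≤ 1/3`.  For fixed parameters the exceptional `α` form a set of
Hausdorff dimension less than one, with a bound that does not depend on the sequence.  The same
holds for the powers `y = α ^ k`, `α > 1`.
-/

open Filter Topology Complex MeasureTheory

namespace Pool.Agent.Results.MP_f58427_nt.IsolatedAlongDilations

/-- the nontrivial zeros of `F` with ordinate in `(T₁, T₂]` -/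
def zeros (F : ℂ → ℂ) (T₁ T₂ : ℝ) : Set ℂ :=
  {s : ℂ | F s = 0 ∧ 0 < s.re ∧ s.re < 1 ∧ T₁ < s.im ∧ s.im ≤ T₂}

/-- the multiplicity of a zero -/
noncomputable def mult (F : ℂ → ℂ) (s : ℂ) : ℕ := analyticOrderNatAt F s

/-- the number of zeros in `(T₁, T₂]`, with multiplicity -/
noncomputable def N (F : ℂ → ℂ) (T₁ T₂ : ℝ) : ℕ := ∑ᶠ s ∈ zeros F T₁ T₂, mult F s

/-- the simple zeros on the critical line with ordinate in `(T₁, T₂]` for which no other nontrivial
zero `s'` has `|Im s' - Im s| ≤ ρ` and `|Re s' - 1/2| ≤ w` -/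
def isolated (F : ℂ → ℂ) (T₁ T₂ ρ w : ℝ) : Set ℂ :=
  {s : ℂ | s ∈ zeros F T₁ T₂ ∧ s.re = 1 / 2 ∧ mult F s = 1 ∧
    ∀ s' : ℂ, F s' = 0 → 0 < s'.re → s'.re < 1 → s' ≠ s → |s'.im - s.im| ≤ ρ →
      w < |s'.re - 1 / 2|}

/-- the Montgomery-Taylor kernel at `r` times the mean spacing -/
noncomputable def K (r : ℝ) : ℝ :=
  (∫ t in (-1 / 2 : ℝ)..(1 / 2), Real.cos (Real.sqrt 2 * t) * Real.cos (2 * Real.pi * r * t)) /
    (Real.sqrt 2 * Real.sin (1 / Real.sqrt 2))

/-- the Montgomery-Taylor constant -/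
noncomputable def cMT : ℝ :=
  Real.sqrt 2 * Real.tan (1 / Real.sqrt 2) / (1 + Real.tan (1 / Real.sqrt 2) / Real.sqrt 2)

/-- the mean square of the Montgomery-Taylor window, `1.0061...` -/
noncomputable def R0 : ℝ :=
  (1 + Real.sin (Real.sqrt 2) / Real.sqrt 2) / (4 * Real.sin (1 / Real.sqrt 2) ^ 2)

/-- the constant for the bandwidth `h`; `c 1 = cMT⁻¹ = 1.3274...` -/
noncomputable def c (h : ℝ) : ℝ := R0 / h + h * (cMT⁻¹ - R0)

/-- in every window `(y, y + H]`, `y ^ η ≤ H ≤ y / 16`, at least the proportion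
`1 - (c(h) - 1) / K(h r)² - ε` of the zeros are simple, critical and isolated: no other zero within
`r` mean spacings `2π / log (y + 1)` and `4π / (5 h log (y + 1))` of the line -/
def Good (F : ℂ → ℂ) (η h r ε y : ℝ) : Prop := ∀ H : ℝ, y ^ η ≤ H → H ≤ y / 16 →
  (1 - (c h - 1) / K (h * r) ^ 2 - ε) * (N F y (y + H) : ℝ) ≤
    ((isolated F y (y + H) (2 * Real.pi * r / Real.log (y + 1))
      (4 * Real.pi / 5 / (h * Real.log (y + 1)))).ncard : ℝ)

/-- `u_k` grows faster than every power of `k` -/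
def SuperPoly (u : ℕ → ℝ) : Prop :=
  (∀ k, 0 < u k) ∧ ∀ A : ℝ, ∀ᶠ k : ℕ in atTop, (k : ℝ) ^ A ≤ u k

/-- `v_k / log k → ∞` -/
def SuperLog (v : ℕ → ℝ) : Prop := ∀ A : ℝ, ∀ᶠ k : ℕ in atTop, A * Real.log k ≤ v k

lemma zeros_eq (F : ℂ → ℂ) (T₁ T₂ : ℝ) : zeros F T₁ T₂ = H370.zset F T₁ T₂ := by
  ext s
  simp only [zeros, H370.zset, Set.mem_ofPred_eq]
  tauto

/-- modulus `1`: the Riemann zeta function -/
theorem zeta_case (χ : DirichletCharacter ℂ 1) :
    χ.IsPrimitive ∧ DirichletCharacter.LFunction χ = riemannZeta := by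
  refine ⟨?_, DirichletCharacter.LFunction_modOne_eq⟩
  rw [DirichletCharacter.level_one' χ rfl]
  exact DirichletCharacter.isPrimitive_one_level_one

/-- the sets of zeros of the L-functions are finite -/
theorem zeros_finite {q : ℕ} [NeZero q] (χ : DirichletCharacter ℂ q) (hχ : χ.IsPrimitive)
    (T₁ T₂ : ℝ) (hT : 1 ≤ T₁) : (zeros (DirichletCharacter.LFunction χ) T₁ T₂).Finite := by
  rw [zeros_eq]
  exact H370.zset_finite (H370.good_dirichlet χ hχ) T₁ T₂ hT

theorem c_eq {h : ℝ} (hh : 0 < h) : c h = H295Iso.c0 h := by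
  have h1 : cMT⁻¹ = H370.cMTinv := H370.cMTinv_eq
  have h2 := H228SI.constS 1 one_pos le_rfl
  have h4 : Real.sqrt 2 / 2 = 1 / Real.sqrt 2 := by
    rw [div_eq_div_iff (by norm_num) (by positivity), Real.mul_self_sqrt (by norm_num), one_mul]
  have h3 : H295SI.RS (Real.sqrt 2) 0 = R0 := by
    unfold H295SI.RS R0
    have hs : Real.sqrt 2 ^ 2 = 2 := Real.sq_sqrt (by norm_num)
    rw [if_pos (by norm_num), hs, h4]
    simp only [abs_zero, sub_zero, mul_zero, Real.cos_zero, mul_one]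
    ring
  have h5 : H295SI.cc 1 = H370.cMTinv := by
    unfold H295SI.cc H370.cMTinv
    rfl
  rw [mul_one, h5] at h2
  unfold c H295Iso.c0 H295SI.cR
  unfold H295SI.cR at h2
  rw [h3] at h2 ⊢
  rw [h1, ← h2]
  ring

theorem N_eq (F : ℂ → ℂ) (T₁ T₂ : ℝ) : N F T₁ T₂ = H370.NN F T₁ T₂ := by
  unfold N H370.NN
  rw [zeros_eq]
  rfl

theorem isolated_eq (F : ℂ → ℂ) (T H ρ w : ℝ) :
    (isolated F T (T + H) ρ w).ncard = H295Iso.isoN F T H ρ w := by
  unfold isolated H295Iso.isoN H295Iso.isoSet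
  rw [zeros_eq]
  rfl

theorem K_eq (r : ℝ) : K r = H344.KK r := by
  have h := H370.GramAux.kap_re_mul (2 * Real.pi * r)
  have hd := H370.GramAux.den_pos.ne'
  unfold K H344.KK
  rw [← h, mul_div_cancel_left₀ _ hd]

lemma bad_of {F : ℂ → ℂ} {η h r ε y : ℝ} (hg : ¬ Good F η h r ε y) :
    Pool.Agent.Q260.MZ.BadI F η h r (1 - (c h - 1) / K (h * r) ^ 2) ε y := by
  unfold Good at hg
  push Not at hg
  obtain ⟨H, h1, h2, h3⟩ := hg
  refine ⟨H, h1, h2, fun hcon => ?_⟩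
  rw [N_eq, isolated_eq] at h3
  exact absurd (h3.trans_le hcon) (lt_irrefl _)

theorem result (q : ℕ) [NeZero q] (χ : DirichletCharacter ℂ q) (hχ : χ.IsPrimitive)
    (η h r ε : ℝ) (hη : 0 < η) (hη1 : η < 1) (hh : 0 < h) (hhη : 2 * h < 1 + η) (hr : 0 ≤ r)
    (hhr : h * r ≤ 1 / 3) (hε : 0 < ε) :
    -- almost every parameter
    (∀ u : ℕ → ℝ, SuperPoly u → ∀ᵐ α : ℝ, 0 < α →
      ∀ᶠ k in atTop, Good (DirichletCharacter.LFunction χ) η h r ε (α * u k)) ∧
    (∀ v : ℕ → ℝ, SuperLog v → ∀ᵐ α : ℝ, 1 < α →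
      ∀ᶠ k in atTop, Good (DirichletCharacter.LFunction χ) η h r ε (α ^ v k)) ∧
    -- the dimension of the exceptional set
    ∃ κ : ℝ, 0 < κ ∧ κ < 1 ∧
      (∀ u : ℕ → ℝ, SuperPoly u → dimH {α : ℝ | 0 < α ∧
        ∃ᶠ k in atTop, ¬ Good (DirichletCharacter.LFunction χ) η h r ε (α * u k)} ≤
          ENNReal.ofReal (1 - κ)) ∧
      (∀ v : ℕ → ℝ, SuperLog v → dimH {α : ℝ | 1 < α ∧
        ∃ᶠ k in atTop, ¬ Good (DirichletCharacter.LFunction χ) η h r ε (α ^ v k)} ≤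
          ENNReal.ofReal (1 - κ)) := by
  have hF := H370.good_dirichlet χ hχ
  have hB := Pool.Agent.Y796.PA.bz_prim χ hχ
  obtain ⟨κ, hκ0, hκ1, hfew⟩ := Pool.Agent.Q260.MZ.few_iso hF
    (A := 1 - (c h - 1) / K (h * r) ^ 2) hη hη1 hh hhη hr hε (fun η' h0 h1 h2 => by
      rw [c_eq hh, K_eq]
      exact Pool.Agent.Y796.PA.iso_aa2 hF hB h0 h1 hh h2 hr hhr (half_pos hε))
  refine ⟨fun u hu => ?_, fun v hv => ?_, κ, hκ0, hκ1, fun u hu => ?_, fun v hv => ?_⟩
  · filter_upwards [Pool.Agent.Q260.MZ.dil_ae hfew hκ0 hκ1 u hu.1 hu.2] with α hα h0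
    filter_upwards [hα h0] with k hk
    by_contra hcon
    exact hk (bad_of hcon)
  · filter_upwards [Pool.Agent.Q260.MZ.pow_ae hfew hκ0 hκ1 v hv] with α hα h0
    filter_upwards [hα h0] with k hk
    by_contra hcon
    exact hk (bad_of hcon)
  · refine (dimH_mono ?_).trans (Pool.Agent.Q260.MZ.dil_dim hfew hκ1 u hu.1 hu.2)
    rintro α ⟨hα, hfr⟩
    exact ⟨hα, hfr.mono fun k hk => bad_of hk⟩
  · refine (dimH_mono ?_).trans (Pool.Agent.Q260.MZ.pow_dim hfew hκ1 v hv)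
    rintro α ⟨hα, hfr⟩
    exact ⟨hα, hfr.mono fun k hk => bad_of hk⟩

end Pool.Agent.Results.MP_f58427_nt.IsolatedAlongDilations
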