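import Mathlib
import Pool.Agent.Q273.ApxF
import Pool.Agent.Results.MP_f5a5f7_nt.FewExceptions

/-!
# The weak abc inequality at the approximations of all points outside a set of dimension zero

`K` is a number field, `Y` a metric space and `φ : K → Y` a map, for instance the inclusion of `K` in
a completion. For all `ξ ∈ Y` outside a set of Hausdorff dimension zero and all `τ > 0` and `A`
the weak abc inequality, with some constant `κ`, holds for all `x ∈ K`, `x ≠ 0, 1`, which approximate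
`ξ` in the sense that `dist(ξ, φ(x)) ≤ A H(x) ^ (-τ)`.
-/

set_option autoImplicit false

namespace Pool.Agent.Results.MP_f5a5f7_nt.GoodApproximations

open NumberField IsDedekindDomain

/-- the absolute logarithmic Weil height `h(x)` -/
noncomputable def height {K : Type} [Field K] [NumberField K] (x : K) : ℝ :=
  (1 / (Module.finrank ℚ K : ℝ)) *
    ((∑ w : InfinitePlace K, (w.mult : ℝ) * Real.log (max 1 (w x))) +
      ∑ᶠ v : HeightOneSpectrum (RingOfIntegers K), Real.log (max 1 (FinitePlace.mk v x)))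

/-- the conductor `cond(x)`: the sum of `log N(v) / [K : ℚ]` over the primes `v` at which `x` has a
positive valuation -/
noncomputable def cond {K : Type} [Field K] [NumberField K] (x : K) : ℝ :=
  (1 / (Module.finrank ℚ K : ℝ)) *
    (∑ᶠ v : HeightOneSpectrum (RingOfIntegers K),
      (if FinitePlace.mk v x < 1 then Real.log (Ideal.absNorm v.asIdeal : ℝ) else 0))

private theorem height_nonneg {K : Type} [Field K] [NumberField K] (x : K) : 0 ≤ height x := by
  unfold height
  apply mul_nonneg (by positivity)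
  apply add_nonneg
  · exact Finset.sum_nonneg fun w _ =>
      mul_nonneg (Nat.cast_nonneg _) (Real.log_nonneg (le_max_left _ _))
  · exact finsum_nonneg fun v => Real.log_nonneg (le_max_left _ _)

private theorem cond_nonneg {K : Type} [Field K] [NumberField K] (x : K) : 0 ≤ cond x := by
  unfold cond
  apply mul_nonneg (by positivity)
  apply finsum_nonneg
  intro v
  split_ifs
  · exact Real.log_natCast_nonneg _
  · exact le_rfl

/-- **The weak abc inequality at the approximations of all points outside a set of dimension zero.**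
Let `K` be a number field, `Y` a metric space and `φ : K → Y` a map. There is a set `E ⊆ Y` of
Hausdorff dimension zero such that for every `ξ ∈ Y` outside `E`, every `τ > 0` and every `A` there
is a `κ > 1` with `h(x) ≤ κ (cond(x) + cond(1/x) + cond(x - 1) + 1)` for all `x ∈ K`, `x ≠ 0, 1`,
which satisfy `dist(ξ, φ(x)) ≤ A H(x) ^ (-τ)`, where `H(x) = exp h(x)`. -/
theorem result :
    ∀ (K : Type) [Field K] [NumberField K] (Y : Type) [MetricSpace Y] (φ : K → Y),
      ∃ E : Set Y, dimH E = 0 ∧ ∀ ξ : Y, ξ ∉ E → ∀ τ A : ℝ, 0 < τ → ∃ κ : ℝ, 1 < κ ∧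
        ∀ x : K, x ≠ 0 → x ≠ 1 → dist ξ (φ x) ≤ A * (Real.exp (height x)) ^ (-τ) →
          height x ≤ κ * (cond x + cond x⁻¹ + cond (x - 1) + 1) := by
  intro K _ _ Y _ φ
  set d : ℝ := (Module.finrank ℚ K : ℝ) with hd
  have hdpos : 0 < d := by
    rw [hd]
    exact_mod_cast Module.finrank_pos
  have key : ∀ n k : ℕ, ∃ E : Set Y,
      dimH E ≤ ENNReal.ofReal (d * (4 / (7 * ((k : ℝ) + 2))) * ((n : ℝ) + 1)) ∧
      ∀ ξ : Y, ξ ∉ E → ∀ A : ℝ, {x : K | (x ≠ 0 ∧ x ≠ 1 ∧
        ((k : ℝ) + 2) * (cond x + cond x⁻¹ + cond (x - 1)) ≤ height x + 0) ∧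
          dist ξ (φ x) ≤ A * (Real.exp (height x)) ^ (-(1 / ((n : ℝ) + 1)))}.Finite := by
    intro n k
    have hk2 : (0 : ℝ) < (k : ℝ) + 2 := by positivity
    obtain ⟨E, hE1, hE2⟩ := Q273.Apx.approx {x : K | x ≠ 0 ∧ x ≠ 1 ∧
        ((k : ℝ) + 2) * (cond x + cond x⁻¹ + cond (x - 1)) ≤ height x + 0}
      (fun x => Real.exp (height x)) φ
      (s := d * min (4 / (7 * ((k : ℝ) + 2))) (20 / 37)) (τ := 1 / ((n : ℝ) + 1))
      (mul_nonneg hdpos.le (le_min (by positivity) (by norm_num))) (by positivity) (by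
        intro ε hε
        obtain ⟨C, hC⟩ := FewExceptions.result K ((k : ℝ) + 2) 0 ε (by
          have : (0 : ℝ) ≤ k := Nat.cast_nonneg k
          linarith) hε
        refine ⟨C, fun X hX => ?_⟩
        have hset : {x : K | x ∈ {x : K | x ≠ 0 ∧ x ≠ 1 ∧
            ((k : ℝ) + 2) * (cond x + cond x⁻¹ + cond (x - 1)) ≤ height x + 0} ∧
            Real.exp (height x) ≤ X} = FewExceptions.exceptional K ((k : ℝ) + 2) 0 X := by
          ext x
          constructor
          · rintro ⟨⟨h1, h2, h3⟩, h4⟩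
            exact ⟨h1, h2, h4, h3⟩
          · rintro ⟨h1, h2, h4, h3⟩
            exact ⟨⟨h1, h2, h3⟩, h4⟩
        rw [hset]
        exact hC X hX)
    refine ⟨E, hE1.trans (ENNReal.ofReal_le_ofReal ?_), hE2⟩
    rw [div_div_eq_mul_div, div_one]
    exact mul_le_mul_of_nonneg_right (mul_le_mul_of_nonneg_left (min_le_left _ _) hdpos.le)
      (by positivity)
  choose E hE1 hE2 using key
  refine ⟨⋃ n, ⋂ k, E n k, ?_, fun ξ hξ τ A hτ => ?_⟩
  · rw [dimH_iUnion]
    simp only [ENNReal.iSup_eq_zero]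
    intro n
    have h1 : ∀ k : ℕ, dimH (⋂ k, E n k) ≤
        ENNReal.ofReal (d * (4 / (7 * ((k : ℝ) + 2))) * ((n : ℝ) + 1)) := fun k =>
      (dimH_mono (Set.iInter_subset _ k)).trans (hE1 n k)
    have h2 : Filter.Tendsto (fun k : ℕ =>
        ENNReal.ofReal (d * (4 / (7 * ((k : ℝ) + 2))) * ((n : ℝ) + 1))) Filter.atTop
        (nhds (ENNReal.ofReal 0)) := by
      apply ENNReal.tendsto_ofReal
      have h3 : Filter.Tendsto (fun k : ℕ => (k : ℝ) + 2) Filter.atTop Filter.atTop :=
        Filter.tendsto_atTop_add_const_right _ _ tendsto_natCast_atTop_atTop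
      have h4 := (h3.const_mul_atTop (by norm_num : (0 : ℝ) < 7)).const_div_atTop 4
      have h5 := (h4.const_mul d).mul_const ((n : ℝ) + 1)
      simpa using h5
    rw [ENNReal.ofReal_zero] at h2
    exact le_antisymm (ge_of_tendsto' h2 h1) zero_le
  · obtain ⟨n, hn⟩ := exists_nat_one_div_lt hτ
    have hξ' : ξ ∉ ⋂ k, E n k := fun h => hξ (Set.mem_iUnion.2 ⟨n, h⟩)
    rw [Set.mem_iInter] at hξ'
    push Not at hξ'
    obtain ⟨k, hk⟩ := hξ'
    have hfin := hE2 n k ξ hk |A|
    have hk0 : (0 : ℝ) ≤ k := Nat.cast_nonneg k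
    have hbdd := hfin.image height
    obtain ⟨M, hM⟩ := hbdd.bddAbove
    refine ⟨max ((k : ℝ) + 2) M, lt_of_lt_of_le (by linarith) (le_max_left _ _), ?_⟩
    intro x hx0 hx1 hdist
    have hc : 0 ≤ cond x + cond x⁻¹ + cond (x - 1) :=
      add_nonneg (add_nonneg (cond_nonneg _) (cond_nonneg _)) (cond_nonneg _)
    have hM0 : 0 ≤ max ((k : ℝ) + 2) M := (by linarith : (0 : ℝ) ≤ k + 2).trans (le_max_left _ _)
    by_cases hbad : ((k : ℝ) + 2) * (cond x + cond x⁻¹ + cond (x - 1)) ≤ height x + 0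
    · have hmem : x ∈ {x : K | (x ≠ 0 ∧ x ≠ 1 ∧
        ((k : ℝ) + 2) * (cond x + cond x⁻¹ + cond (x - 1)) ≤ height x + 0) ∧
          dist ξ (φ x) ≤ |A| * (Real.exp (height x)) ^ (-(1 / ((n : ℝ) + 1)))} := by
        refine ⟨⟨hx0, hx1, hbad⟩, hdist.trans ?_⟩
        refine mul_le_mul (le_abs_self A) ?_ (by positivity) (abs_nonneg A)
        exact Real.rpow_le_rpow_of_exponent_le (Real.one_le_exp (height_nonneg x)) (by linarith)
      have h1 : height x ≤ M := hM ⟨x, hmem, rfl⟩
      have h2 : M ≤ max ((k : ℝ) + 2) M := le_max_right _ _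
      have h3 : max ((k : ℝ) + 2) M * 1 ≤
          max ((k : ℝ) + 2) M * (cond x + cond x⁻¹ + cond (x - 1) + 1) :=
        mul_le_mul_of_nonneg_left (by linarith) hM0
      linarith
    · push Not at hbad
      have h1 : ((k : ℝ) + 2) * (cond x + cond x⁻¹ + cond (x - 1)) ≤
          max ((k : ℝ) + 2) M * (cond x + cond x⁻¹ + cond (x - 1)) :=
        mul_le_mul_of_nonneg_right (le_max_left _ _) hc
      have h2 : max ((k : ℝ) + 2) M * (cond x + cond x⁻¹ + cond (x - 1) + 1) =
          max ((k : ℝ) + 2) M * (cond x + cond x⁻¹ + cond (x - 1)) + max ((k : ℝ) + 2) M := by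
        ring
      linarith

end Pool.Agent.Results.MP_f5a5f7_nt.GoodApproximations
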