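import Pool.Agent.Q197.SP.Rf6c

/-!
# Many values whose small prime factors are exceptional

Every large odd `n` has at least `n ^ (1 - ε)` different numbers `N = 2^x + 2^y + 2^z + 1` with
`n = x² + y² + z² + 4 w²` which have no prime factors up to `c log n log log n / log log log n`, apart from certain
exceptional prime factors.
-/

set_option autoImplicit false

namespace Pool.Agent.Results.MP_f6c7cf_nt.ManyValuesFewSmallFactors

open MeasureTheory ProbabilityTheory Filter Pool.Agent.Q197.SP.Rf6c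

theorem result (ε : ℝ) (hε : 0 < ε) :
    ∃ c : ℝ, 0 < c ∧ ∃ n₀ : ℕ, ∀ n : ℕ, n₀ ≤ n → Odd n →
      ∃ T : Finset ℕ, (n : ℝ) ^ (1 - ε) ≤ (T.card : ℝ) ∧
        ∀ N ∈ T, Value n N ∧
          ∀ q : ℕ, q.Prime → q ∣ N →
            (q : ℝ) ≤ c * (Real.log n * Real.log (Real.log n) / Real.log (Real.log (Real.log n))) →
            q ≠ 2 ∧
              ((∃ l : ℕ, l.Prime ∧ 5 ≤ l ∧ l ^ 2 ∣ orderOf (2 : ZMod q) ∧
                  (l : ℤ) ∣ (3 * n - 2) * (9 * n - 2)) ∨
                (¬ 3 ∣ n ∧ n % 32 ≠ 13 ∧ q ≠ 7 ∧ 3 ∣ orderOf (2 : ZMod q))) := by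
  exact (all_parts ε hε).1

end Pool.Agent.Results.MP_f6c7cf_nt.ManyValuesFewSmallFactors
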