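import Pool.Agent.Q197.FM.Three3

/-!
# MP_f6c7cf_nt: the question for random sets of integers

The question asks whether every odd `n` is of the form `x² + y² + z² + 4 w²` with natural numbers for
which `2^x + 2^y + 2^z + 1` is a prime.

* Part 1 (unconditional). Every large odd `n` has at least `n ^ (1 - ε)` different numbers `N` of this
  form which have no prime factors up to `c log n log log n / log log log n`, apart from certain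
  exceptional prime factors.
* Part 2. The primes are replaced by a random set `A` of natural numbers with independent events
  `N ∈ A`, of probability at least `(log N) ^ (-β)` for all large `N` without prime factors up to a
  level `z`. Almost surely at least `n ^ (1 - β / 2 - ε)` different `N` lie in `A`, for all large odd
  `n` if `z = 11`, and for the large odd `n` with `3 ∣ n` or `n ≡ 13 mod 32` for which
  `(3 n - 2) (9 n - 2)` has no prime factor `l ≥ 5` with `l² ≤ z`, for every constant `z` and for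
  `z = K log log N` (then with `l² ≤ K log n`).
-/

set_option autoImplicit false

namespace Pool.Agent.Results.MP_f6c7cf_nt.RandomPrimesFourSquares

open MeasureTheory ProbabilityTheory Filter

/-- `N` belongs to `n`. -/
def Value (n N : ℕ) : Prop :=
  ∃ x y z w : ℕ, n = x ^ 2 + y ^ 2 + z ^ 2 + 4 * w ^ 2 ∧ N = 2 ^ x + 2 ^ y + 2 ^ z + 1

/-- `n` has suitable residues for all moduli up to `z`. -/
def Suitable (n : ℕ) (z : ℝ) : Prop :=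
  Odd n ∧ (3 ∣ n ∨ n % 32 = 13) ∧
    ∀ l : ℕ, l.Prime → 5 ≤ l → (l : ℤ) ∣ (3 * n - 2) * (9 * n - 2) → z < (l : ℝ) ^ 2

theorem result (ε : ℝ) (hε : 0 < ε) :
    (∃ c : ℝ, 0 < c ∧ ∃ n₀ : ℕ, ∀ n : ℕ, n₀ ≤ n → Odd n →
      ∃ T : Finset ℕ, (n : ℝ) ^ (1 - ε) ≤ (T.card : ℝ) ∧
        ∀ N ∈ T, Value n N ∧
          ∀ q : ℕ, q.Prime → q ∣ N →
            (q : ℝ) ≤ c * (Real.log n * Real.log (Real.log n) / Real.log (Real.log (Real.log n))) →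
            q ≠ 2 ∧
              ((∃ l : ℕ, l.Prime ∧ 5 ≤ l ∧ l ^ 2 ∣ orderOf (2 : ZMod q) ∧
                  (l : ℤ) ∣ (3 * n - 2) * (9 * n - 2)) ∨
                (¬ 3 ∣ n ∧ n % 32 ≠ 13 ∧ q ≠ 7 ∧ 3 ∣ orderOf (2 : ZMod q)))) ∧
    (∀ β : ℝ, 0 ≤ β → β / 2 + ε ≤ 1 →
      ∀ (Ω : Type) [MeasurableSpace Ω] (μ : Measure Ω) [IsProbabilityMeasure μ] (A : Ω → Set ℕ),
        (∀ N : ℕ, MeasurableSet {ω | N ∈ A ω}) →
        iIndepSet (fun N : ℕ => {ω | N ∈ A ω}) μ →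
        ((∃ N₀ : ℕ, ∀ N : ℕ, N₀ ≤ N → (∀ q : ℕ, q.Prime → q ∣ N → 11 < q) →
            (Real.log N) ^ (-β) ≤ μ.real {ω | N ∈ A ω}) →
          ∀ᵐ ω ∂μ, ∃ n₀ : ℕ, ∀ n : ℕ, n₀ ≤ n → Odd n →
            ∃ T : Finset ℕ, (n : ℝ) ^ (1 - β / 2 - ε) ≤ (T.card : ℝ) ∧ ∀ N ∈ T, N ∈ A ω ∧ Value n N) ∧
        (∀ z : ℝ, (∃ N₀ : ℕ, ∀ N : ℕ, N₀ ≤ N → (∀ q : ℕ, q.Prime → q ∣ N → z < q) →
            (Real.log N) ^ (-β) ≤ μ.real {ω | N ∈ A ω}) →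
          ∀ᵐ ω ∂μ, ∃ n₀ : ℕ, ∀ n : ℕ, n₀ ≤ n → Suitable n z →
            ∃ T : Finset ℕ, (n : ℝ) ^ (1 - β / 2 - ε) ≤ (T.card : ℝ) ∧ ∀ N ∈ T, N ∈ A ω ∧ Value n N) ∧
        (∀ K : ℝ, (∃ N₀ : ℕ, ∀ N : ℕ, N₀ ≤ N →
            (∀ q : ℕ, q.Prime → q ∣ N → K * Real.log (Real.log N) < q) →
            (Real.log N) ^ (-β) ≤ μ.real {ω | N ∈ A ω}) →
          ∀ᵐ ω ∂μ, ∃ n₀ : ℕ, ∀ n : ℕ, n₀ ≤ n → Suitable n (K * Real.log n) →
            ∃ T : Finset ℕ, (n : ℝ) ^ (1 - β / 2 - ε) ≤ (T.card : ℝ) ∧ ∀ N ∈ T, N ∈ A ω ∧ Value n N)) := by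
  refine ⟨?_, fun β hβ hβε Ω _ μ _ A hA1 hA2 => ⟨fun hN => ?_, fun z hN => ?_, fun K hN => ?_⟩⟩
  · obtain ⟨c, hc, n₀, h⟩ := Pool.Agent.Q197.FM.three_values ε hε
    refine ⟨c, hc, n₀, fun n hn hodd => ?_⟩
    obtain ⟨T, h1, h2⟩ := h n hn hodd
    exact ⟨T, h1, fun N hN => h2 N hN⟩
  · obtain ⟨N₀, hN⟩ := hN
    filter_upwards [Pool.Agent.Q197.FM.three_random_a (μ := μ) (A := A) ⟨hA1, hA2⟩ hβ hε hβε hN] with ω h2
    obtain ⟨n₀, h3⟩ := eventually_atTop.1 h2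
    exact ⟨n₀, h3⟩
  · obtain ⟨N₀, hN⟩ := hN
    filter_upwards [Pool.Agent.Q197.FM.three_random_b (μ := μ) (A := A) ⟨hA1, hA2⟩ hβ hε hβε z hN] with ω h2
    obtain ⟨n₀, h3⟩ := eventually_atTop.1 h2
    exact ⟨n₀, h3⟩
  · obtain ⟨N₀, hN⟩ := hN
    filter_upwards [Pool.Agent.Q197.FM.three_random_c (μ := μ) (A := A) ⟨hA1, hA2⟩ hβ hε hβε K hN] with ω h2
    obtain ⟨n₀, h3⟩ := eventually_atTop.1 h2
    exact ⟨n₀, h3⟩

end Pool.Agent.Results.MP_f6c7cf_nt.RandomPrimesFourSquares
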