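import Mathlib
import Pool.Agent.Q183.DF.Lang
import Pool.Agent.Y189.DC.Pol
import Pool.Agent.Results.MP_f82ddf_nt.HolonomicLang

/-!
MP_f82ddf_nt, Q1: finiteness of rational points, and entire curves and punctured discs given by
linear difference equations and other linear functional equations.
-/

set_option autoImplicit false

namespace Pool.Agent.Results.MP_f82ddf_nt.DifferenceLang

open MvPolynomial Filter
open Pool.Agent.TH143.HE (IsPtP RatCurvesIn NonConst PEntireCurvesIn)
open scoped LinearAlgebra.Projectivization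
open Pool.Agent.Q183.DF (DiffEntireIn DiffPunctIn)
open Pool.Agent.TH143.EL (HolMap Rep InV rep_rep rep_iff)
open Pool.Agent.Y189.DC (PolEq)
open Pool.Agent.Results.MP_f82ddf_nt.HolonomicLang (Hyperbolic Finiteness FinitenessHol PeriodicHol)

variable {K : Type} [Field K] {N : ℕ}

/-- Let `f` be an entire curve in `X`, not contained in `Z`, with meromorphic homogeneous coordinates
each of which satisfies a nontrivial linear functional equation `∑ P_k (z) h (σ^k (z)) = 0` with
polynomial coefficients, where `σ (z) = a z + b`, `a ≠ 0`, and no iterate of `σ` is the identity.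
Then `f` is constant, or `a = 1` (so these are difference equations) and `k b` is a period of `f`
for some `k > 0`. -/
def FunctionalIn (σ : K →+* ℂ) (I I' : Ideal (MvPolynomial (Fin (N + 1)) K)) : Prop :=
  ∀ f : ℂ → ℙ ℂ (Fin (N + 1) → ℂ), HolMap f → (∀ z, IsPtP σ I (f z).rep) →
    (∃ z, ¬ IsPtP σ I' (f z).rep) → ∀ a b : ℂ, a ≠ 0 →
    (∀ k, 0 < k → ∃ z, (fun z => a * z + b)^[k] z ≠ z) →
    ∀ h : Fin (N + 1) → ℂ → ℂ, (∀ j, Meromorphic (h j)) →
      (∀ j, PolEq (fun z => a * z + b) (h j)) → (∀ᶠ z in codiscrete ℂ, Rep (f z) fun j => h j z) →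
      (∀ z w, f z = f w) ∨ (a = 1 ∧ ∃ k : ℕ, 0 < k ∧ ∀ z, f (z + k * b) = f z)

/-- the ideal of the forms over the complex numbers -/
noncomputable def ext (σ : K →+* ℂ) (I : Ideal (MvPolynomial (Fin (N + 1)) K)) :
    Ideal (MvPolynomial (Fin (N + 1)) ℂ) :=
  Ideal.span {G | ∃ H ∈ I, (∃ d, H.IsHomogeneous d) ∧ G = map σ H}

theorem ext_iff {σ : K →+* ℂ} {I : Ideal (MvPolynomial (Fin (N + 1)) K)} {x : Fin (N + 1) → ℂ} :
    IsPtP (RingHom.id ℂ) (ext σ I) x ↔ IsPtP σ I x := by
  constructor
  · rintro h G hG ⟨d, hd⟩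
    have h1 := h (map σ G) (Ideal.subset_span ⟨G, hG, ⟨d, hd⟩, rfl⟩) ⟨d, hd.map σ⟩
    rwa [eval₂_id, eval_map] at h1
  · intro h G hG _
    have h1 : ext σ I ≤ RingHom.ker (eval x) := by
      unfold ext
      rw [Ideal.span_le]
      rintro _ ⟨H, hH, hHf, rfl⟩
      change eval x (map σ H) = 0
      rw [eval_map]
      exact h H hH hHf
    rw [eval₂_id]
    exact h1 hG

theorem inV_ext {σ : K →+* ℂ} {I : Ideal (MvPolynomial (Fin (N + 1)) K)}
    {p : ℙ ℂ (Fin (N + 1) → ℂ)} : InV (ext σ I) p ↔ IsPtP σ I p.rep := by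
  rw [← ext_iff]
  unfold InV IsPtP
  simp only [eval₂_id]

theorem functionalIn_of_rat {σ : K →+* ℂ} {I I' : Ideal (MvPolynomial (Fin (N + 1)) K)}
    (h : RatCurvesIn σ I I') : FunctionalIn σ I I' := by
  intro f hf hI hI' a b ha hinf u hm hfe hr
  have hR : RatCurvesIn (RingHom.id ℂ) (ext σ I) (ext σ I') := by
    intro p hp hnc t
    exact ext_iff.2 (h p (fun u => ext_iff.1 (hp u)) hnc t)
  obtain ⟨z, hz⟩ := hI'
  exact Pool.Agent.Y189.DC.pol_main ha hinf hR hf (fun z => inV_ext.2 (hI z))
    ⟨z, fun h => hz (inV_ext.1 h)⟩ hm hfe hr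

theorem polEq_two (q : Polynomial ℂ) : PolEq (fun z => 2 * z + 0) (fun z => q.eval z) := by
  by_cases hq : q = 0
  · exact ⟨0, fun _ => 1, ⟨0, le_rfl, one_ne_zero⟩, Eventually.of_forall fun z => by simp [hq]⟩
  · refine ⟨1, fun k => if k = 0 then -(q.comp (Polynomial.C 2 * Polynomial.X)) else q,
      ⟨1, le_rfl, by simpa using hq⟩, Eventually.of_forall fun z => ?_⟩
    rw [Finset.sum_range_succ, Finset.sum_range_one]
    simp only [if_pos, if_neg one_ne_zero, Function.iterate_zero, id_eq, Function.iterate_one,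
      Polynomial.eval_neg, Polynomial.eval_comp, Polynomial.eval_mul, Polynomial.eval_C,
      Polynomial.eval_X, add_zero]
    ring

theorem iter_two (k : ℕ) (z : ℂ) : (fun z : ℂ => 2 * z + 0)^[k] z = 2 ^ k * z := by
  induction k with
  | zero => simp
  | succ k ih =>
    rw [Function.iterate_succ_apply', ih]
    ring

theorem rat_of_functionalIn {σ : K →+* ℂ} {I I' : Ideal (MvPolynomial (Fin (N + 1)) K)}
    (h : FunctionalIn σ I I') : RatCurvesIn σ I I' := by
  refine Pool.Agent.Q183.DF.exists_primitive fun q hq hqI hnc z => ?_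
  by_contra hz
  let f : ℂ → ℙ ℂ (Fin (N + 1) → ℂ) := fun z => Projectivization.mk ℂ _ (hq z)
  have hrep : ∀ z, Rep (f z) (fun j => (q j).eval z) := fun z => ⟨hq z, rfl⟩
  have hiff : ∀ (J : Ideal (MvPolynomial (Fin (N + 1)) K)) (z : ℂ),
      IsPtP σ J (f z).rep ↔ IsPtP σ J (fun j => (q j).eval z) := by
    intro J z
    rw [← inV_ext, Pool.Agent.TH143.EL.inV_iff (hrep z), ← ext_iff (I := J)]
    unfold IsPtP
    simp only [eval₂_id]
  have h1 := h f (fun a => ⟨fun j z => (q j).eval z, fun j => (q j).differentiable.analyticAt a,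
    Eventually.of_forall hrep⟩) (fun z => (hiff I z).2 (hqI z)) ⟨z, fun hc => hz ((hiff I' z).1 hc)⟩
    2 0 two_ne_zero (fun k hk => ⟨1, by
      rw [iter_two, mul_one]
      intro h0
      have h2 := congrArg norm h0
      rw [norm_pow, norm_one, Complex.norm_ofNat] at h2
      exact absurd h2 (one_lt_pow₀ one_lt_two hk.ne').ne'⟩)
    (fun j z => (q j).eval z) (fun j z => ((q j).differentiable.analyticAt z).meromorphicAt)
    (fun j => polEq_two (q j)) (Eventually.of_forall hrep)
  rcases h1 with h1 | ⟨h1, -⟩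
  · obtain ⟨j, k, u, v, huv⟩ := hnc
    have h2 := ((rep_iff (hrep u)).1 (by rw [h1 u v]; exact hrep v)).2 j k
    exact huv h2
  · exact absurd h1 (by norm_num)

variable [NumberField K]

/-- Let `K` be a number field, embedded in `ℂ` by `σ`, let `X` and `Z` be the projective varieties
over `K` given by the forms in `I` and in `I'`. The following are equivalent:

(a) all rational curves in `X` lie in `Z`;

(b) all nonconstant entire curves in `X` lie in `Z` whose homogeneous coordinates satisfy linear
difference equations `∑ a_k (z) h (z + k) = 0` with coefficients meromorphic at infinity, and are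
`O (exp (A |Re z| + ε |Im z|))` in a right half plane;

(c) the same holds for the holomorphic maps from the punctured disc with an essential singularity;

(d) every entire curve in `X` which is not contained in `Z`, and given by linear functional
equations with polynomial coefficients with respect to `z ↦ a z + b`, is constant, or `a = 1` and
the curve is periodic; here no growth condition is supposed;

(e), (f) for all finite extensions `L` of `K`, all P-recursive sequences of points of `X(L)` outside
of `Z` have only finitely many different terms, or are eventually periodic, respectively.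

In particular, the finiteness of `X(L)` outside of `Z`, for all finite extensions `L` of `K`, implies
(b), (c) and (d); and if all nonconstant entire curves in `X` lie in `Z` then (b), …, (f) hold. -/
theorem result (σ : K →+* ℂ) (I I' : Ideal (MvPolynomial (Fin (N + 1)) K)) :
    [RatCurvesIn σ I I', DiffEntireIn σ I I', DiffPunctIn σ I I', FunctionalIn σ I I',
      FinitenessHol I I', PeriodicHol I I'].TFAE ∧
    (Finiteness I I' → DiffEntireIn σ I I' ∧ DiffPunctIn σ I I' ∧ FunctionalIn σ I I') ∧
    (Hyperbolic σ I I' → DiffPunctIn σ I I' ∧ FunctionalIn σ I I' ∧ PeriodicHol I I') := by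
  obtain ⟨h0, h1, h2⟩ := Pool.Agent.Results.MP_f82ddf_nt.HolonomicLang.result σ I I'
  have e1 : FinitenessHol I I' ↔ PeriodicHol I I' := h0.out 1 2
  have e2 : PeriodicHol I I' ↔ RatCurvesIn σ I I' := h0.out 2 3
  have e3 : PEntireCurvesIn σ I I' ↔ RatCurvesIn σ I I' := h0.out 0 3
  have htfae : [RatCurvesIn σ I I', DiffEntireIn σ I I', DiffPunctIn σ I I', FunctionalIn σ I I',
      FinitenessHol I I', PeriodicHol I I'].TFAE := by
    tfae_have 1 → 2 := Pool.Agent.Q183.DF.diffEntireIn_of_rat
    tfae_have 2 → 1 := Pool.Agent.Q183.DF.rat_of_diffEntireIn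
    tfae_have 1 → 3 := Pool.Agent.Q183.DF.diffPunctIn_of_rat
    tfae_have 3 → 1 := Pool.Agent.Q183.DF.rat_of_diffPunctIn
    tfae_have 1 → 4 := functionalIn_of_rat
    tfae_have 4 → 1 := rat_of_functionalIn
    tfae_have 5 ↔ 6 := e1
    tfae_have 6 ↔ 1 := e2
    tfae_finish
  refine ⟨htfae, fun h => ?_, fun h => ?_⟩
  · have h3 : RatCurvesIn σ I I' := e3.1 (h2 h)
    exact ⟨Pool.Agent.Q183.DF.diffEntireIn_of_rat h3, Pool.Agent.Q183.DF.diffPunctIn_of_rat h3,
      functionalIn_of_rat h3⟩
  · have h3 : RatCurvesIn σ I I' := e2.1 (h1 h)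
    exact ⟨Pool.Agent.Q183.DF.diffPunctIn_of_rat h3, functionalIn_of_rat h3, h1 h⟩

end Pool.Agent.Results.MP_f82ddf_nt.DifferenceLang
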