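import Mathlib
import Pool.Agent.Q110.RC.Geo

/-!
# MP_f86233_co, Q1: `S(4)` holds

Every 2-colouring of the plane contains a monochromatic `m × n` rectangle with `m ∈ {1, 2}` and
`n ∈ {1, 2, 3, 4}`.
-/

namespace Pool.Agent.Results.MP_f86233_co.SFour

open Q110.RC

/-- The Euclidean plane. -/
abbrev Plane := EuclideanSpace ℝ (Fin 2)

/-- `R` is an `a × b` rectangle: it is congruent, by an isometry of the plane, to
`{(0,0), (a,0), (0,b), (a,b)}`. -/
def IsRectangle (a b : ℝ) (R : Set Plane) : Prop :=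
  ∃ φ : Plane ≃ᵢ Plane, R = φ '' {!₂[0, 0], !₂[a, 0], !₂[0, b], !₂[a, b]}

/-- All points of `R` have the same colour. -/
def Monochromatic (c : Plane → Bool) (R : Set Plane) : Prop :=
  ∃ k : Bool, ∀ p ∈ R, c p = k

/-- The statement `S(N)`: every 2-colouring of the plane contains a monochromatic `m × n`
rectangle for some `m ∈ {1, 2}` and some integer `1 ≤ n ≤ N`. -/
def S (N : ℕ) : Prop :=
  ∀ c : Plane → Bool, ∃ m n : ℕ, (m = 1 ∨ m = 2) ∧ 1 ≤ n ∧ n ≤ N ∧
    ∃ R : Set Plane, IsRectangle m n R ∧ Monochromatic c R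

/-- the standard isometry from `ℂ` to the plane -/
noncomputable def e : ℂ ≃ₗᵢ[ℝ] Plane := Complex.orthonormalBasisOneI.repr

theorem e_apply (z : ℂ) : e z = !₂[z.re, z.im] := by
  ext i
  fin_cases i <;> simp [e]

/-- `z ↦ P + u z` as an isometry of `ℂ` -/
noncomputable def psi (P u : ℂ) (hu : ‖u‖ = 1) : ℂ ≃ᵢ ℂ where
  toFun z := P + u * z
  invFun w := u⁻¹ * (w - P)
  left_inv z := by
    have h0 : u ≠ 0 := by
      rintro rfl
      simp at hu
    field_simp
    ring
  right_inv w := by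
    have h0 : u ≠ 0 := by
      rintro rfl
      simp at hu
    field_simp
    ring
  isometry_toFun := by
    refine Isometry.of_dist_eq fun z w => ?_
    rw [dist_eq_norm, dist_eq_norm, show P + u * z - (P + u * w) = u * (z - w) by ring,
      norm_mul, hu, one_mul]

/-- `z ↦ P + u z` as an isometry of the plane -/
noncomputable def phi (P u : ℂ) (hu : ‖u‖ = 1) : Plane ≃ᵢ Plane :=
  e.symm.toIsometryEquiv.trans ((psi P u hu).trans e.toIsometryEquiv)

theorem phi_apply (P u : ℂ) (hu : ‖u‖ = 1) (x y : ℝ) :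
    phi P u hu !₂[x, y] = e (P + u * (x + y * Complex.I)) := by
  have h : (!₂[x, y] : Plane) = e ((x : ℂ) + y * Complex.I) := by
    rw [e_apply]
    simp
  rw [h]
  show e (P + u * (e.symm (e ((x : ℂ) + y * Complex.I)))) = _
  rw [e.symm_apply_apply]

/-- `S(4)` holds. -/
theorem result : S 4 := by
  intro c
  by_contra hcon
  push Not at hcon
  refine noRect_false (c := fun z => c (e z)) ?_
  -- the basic configuration: side `m ≤ 2` in direction `u`, side `n ≤ 4` in direction `i u`
  have key : ∀ (P u : ℂ) (m n : ℕ), ‖u‖ = 1 → (m = 1 ∨ m = 2) → 1 ≤ n → n ≤ 4 →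
      ¬ (c (e (P + m * u)) = c (e P) ∧ c (e (P + n * (Complex.I * u))) = c (e P) ∧
        c (e (P + m * u + n * (Complex.I * u))) = c (e P)) := by
    rintro P u m n hu hm hn1 hn4 ⟨h1, h2, h3⟩
    apply hcon m n hm hn1 hn4 _ ⟨phi P u hu, rfl⟩
    refine ⟨c (e P), ?_⟩
    rintro p ⟨q, hq, rfl⟩
    simp only [Set.mem_insert_iff, Set.mem_singleton_iff] at hq
    rcases hq with rfl | rfl | rfl | rfl
    · rw [phi_apply]
      simp
    · rw [phi_apply, ← h1]
      congr 2
      push_cast
      ring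
    · rw [phi_apply, ← h2]
      congr 2
      push_cast
      ring
    · rw [phi_apply, ← h3]
      congr 2
      push_cast
      ring
  rintro P u s t hu hs1 ht1 hs4 ht4 hst ⟨h1, h2, h3⟩
  simp only at h1 h2 h3
  by_cases hs2 : s ≤ 2
  · exact key P u s t hu (by omega) ht1 ht4 ⟨h1, h2, h3⟩
  · have hiu : ‖Complex.I * u‖ = 1 := by
      rw [norm_mul, Complex.norm_I, hu, one_mul]
    have hI : Complex.I * Complex.I = -1 := Complex.I_mul_I
    refine key (P + s * u) (Complex.I * u) t s hiu (by omega) hs1 hs4 ⟨?_, ?_, ?_⟩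
    · rw [h3, h1]
    · rw [h1]
      congr 2
      linear_combination ((s : ℂ) * u) * hI
    · rw [h1, ← h2]
      congr 2
      linear_combination ((s : ℂ) * u) * hI

end Pool.Agent.Results.MP_f86233_co.SFour
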