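import Pool.Agent.Q98.NR.Sls
import Pool.Agent.Q98.RB.Exa
import Pool.Agent.Y891.NK.AREA

/-!
# Nuclear perturbations of scalar type operators on reflexive Banach spaces, for almost every
coupling constant

Let `X` be a reflexive complex Banach space (separable or not), `N` an operator on `X` with a
continuous functional calculus (a continuous unital homomorphism `Ψ : C(Z) → L(X)`, `Z` compact, of any
norm, with `Ψ(z) = N`; on reflexive spaces these are the scalar type spectral operators of Dunford) and
`K x = ∑ v i (x) u i` a nuclear operator with `∑ (‖u i‖ ‖v i‖)^q < ∞` for some `q < 1`. There is no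
condition on the spectrum of `N` (it may have interior) and no further condition on `K`. For every `t`
outside a set which is null for all atomless measures with bounded logarithmic potential, in particular
for almost every complex `t` and for almost every real `t`, the operator `T = N + t K` is a multiple of
the identity or has a nontrivial closed hyperinvariant subspace. Moreover for these `t` every point
`c` of the spectrum carries, for every `ε > 0`, a nonzero vector `x` with `‖(T - c)^n x‖ ≤ C ε ^ n` for
all `n`, and the same holds for the adjoint `T'` on `X'`.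

For normal `N` and trace class `K` on separable Hilbert spaces this is the starting file
`NormalPlusTraceClass` (project NK). The proof there constructs vectors of the local spectral subspaces
as circle integrals of the formal local resolvent times outer functions; it needs square integrable
representatives of the vectors and does not extend to Banach spaces. The proof here is different
and goes through duality.

* Let `a` be a point and `r > 0` such that there is no nonzero `x` with
  `‖(T - a)^k x‖ ≤ C r^k` for all `k` (a chain). By the theorem of Hahn and Banach in `c₀(X)`,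
  `ℓ₁(X')`, every `y` in `X'` is for every `ε` the constant term of `(a - T') Y`, up to `ε`: there is a
  polynomial `h(z) = ∑ (z - a)^k Y k` with coefficients in `X'` such that the coefficients `E k` of
  `(z - T') h(z) - y` satisfy `∑ r^k ‖E k‖ < ε` (`NR/Dua`).
* For almost every `z` the values `h(z)(u k)` solve the linear system with matrix `1 - t F(z)`,
  `F i k (z)` the Cauchy transform of the measure `f ↦ v i (Ψ(f) u k)`, and right side the Cauchy
  transforms of `y` and `E k` (`NR/Loc`). These transforms are in `L^p` for `p < 2` on bounded sets,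
  with norm at most `C ‖w‖ ‖x‖` (`NR/Ker`). With `p = 2 q` and Hadamard's inequality for the cofactors,
  `log |h(z)(u k)|` is bounded by `log⁻ |det (1 - t F(z))|` plus an integrable function with a bound
  which does not depend on `h` (`NR/Mat`, `NR/Est`, `NR/Est2`). Since `log |h|` is subharmonic, `h` is
  bounded near `a` by a constant which depends only on `y` (`NR/Pot`, `NR/Ell`, `NR/Yz`).
* For `z = a` this gives `|y(x)| ≤ C(y) ‖(T - a) x‖` for all `x` and `y`, so `T - a` is bounded below by
  the theorem of Banach and Steinhaus (`NR/Bel`). That is impossible if `h(N)` has infinite rank for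
  the cut-off functions `h` of all discs about `a` (`NR/Ess2`).
* The integral of `log⁻ |det (1 - t F(z))|` over `t` (for a measure with bounded logarithmic
  potential) and `z` is bounded for the finite sections, by a bound for the number of the zeros in `t`
  (`NR/Pot`, `NR/Sel`); the lemma of Fatou gives the good `t`.
* Two points `a ≠ b` as above: chains for `T` at `a` and `T'` at `b` annihilate each other across the
  commutant. Otherwise `T - a` is compact and the theorem of Lomonosov (library) applies. At the other
  points of the spectrum of `T` there are eigenvectors, by the Fredholm alternative (`NR/Sls`).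

From the starting library this uses: Schur's theorem (`Y978`), potentials of area and length (`Y891`),
the lemma of Fatou in the form of `Y487`, Cauchy transforms (`Y271`), Riesz representation (`H731R2`),
Lomonosov's theorem (`W577`); from `RankOneReflexive` the annihilation and the compact case.
-/

set_option autoImplicit false

namespace Pool.Agent.Results.MP_f981b0_an.NuclearReflexive

open MeasureTheory Filter Metric
open scoped NNReal

section Defs

variable {X : Type} [NormedAddCommGroup X] [NormedSpace ℂ X]

/-- `X` is reflexive: the canonical map to the bidual is onto. -/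
def IsReflexive (X : Type) [NormedAddCommGroup X] [NormedSpace ℂ X] : Prop :=
  Function.Surjective (NormedSpace.inclusionInDoubleDual ℂ X)

/-- `N` has a continuous functional calculus: there are a compact set `Z` of complex numbers and a
continuous unital algebra homomorphism from `C(Z)` to the bounded operators on `X` which maps the
function `z` to `N`. -/
def HasContinuousCalculus (N : X →L[ℂ] X) : Prop :=
  ∃ (Z : Set ℂ) (Ψ : C(Z, ℂ) →ₐ[ℂ] (X →L[ℂ] X)), IsCompact Z ∧ Continuous Ψ ∧
    Ψ ⟨Subtype.val, continuous_subtype_val⟩ = N

/-- `K` is nuclear of order `q`: `K x = ∑ v i (x) u i` with `∑ (‖u i‖ ‖v i‖)^q < ∞`. -/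
def IsNuclearOfOrder (q : ℝ) (K : X →L[ℂ] X) : Prop :=
  ∃ (u : ℕ → X) (v : ℕ → (X →L[ℂ] ℂ)), Summable (fun i => (‖u i‖ * ‖v i‖) ^ q) ∧
    ∀ x, HasSum (fun i => v i x • u i) (K x)

/-- `T` is a multiple of the identity. -/
def IsScalar (T : X →L[ℂ] X) : Prop := ∃ c : ℂ, T = c • (1 : X →L[ℂ] X)

/-- `T` has a closed subspace, neither `{0}` nor the whole space, which is invariant under every
bounded operator commuting with `T`. -/
def HasHyperinvariant (T : X →L[ℂ] X) : Prop :=
  ∃ V : Submodule ℂ X, IsClosed (V : Set X) ∧ V ≠ ⊥ ∧ V ≠ ⊤ ∧
    ∀ Q : X →L[ℂ] X, Q * T = T * Q → ∀ x ∈ V, Q x ∈ V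

/-- For every point `c` of the spectrum and every `ε > 0` there is a nonzero vector `x` with
`‖(T - c)^n x‖ ≤ C ε ^ n` for all `n`. -/
def SmallLocalSpectra (T : X →L[ℂ] X) : Prop :=
  ∀ c ∈ spectrum ℂ T, ∀ ε : ℝ, 0 < ε → ∃ (x : X) (C : ℝ), x ≠ 0 ∧
    ∀ n : ℕ, ‖((T - c • (1 : X →L[ℂ] X)) ^ n) x‖ ≤ C * ε ^ n

/-- The adjoint `w ↦ w ∘ T` on the dual space. -/
noncomputable def dualOperator (T : X →L[ℂ] X) : StrongDual ℂ X →L[ℂ] StrongDual ℂ X :=
  (ContinuousLinearMap.compL ℂ X X ℂ).flip T

/-- The conclusion of the theorem for one operator. -/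
def Good (T : X →L[ℂ] X) : Prop :=
  (IsScalar T ∨ HasHyperinvariant T) ∧ SmallLocalSpectra T ∧ SmallLocalSpectra (dualOperator T)

/-- `(P k)` is an unconditional decomposition of `X`: bounded projections with `P j P k = 0` for
`j ≠ k`, such that `Σ P k x` converges unconditionally to `x` for every `x`. -/
structure IsUnconditionalDecomposition {κ : Type} (P : κ → X →L[ℂ] X) : Prop where
  idem : ∀ k, P k * P k = P k
  orth : ∀ j k, j ≠ k → P j * P k = 0
  sum : ∀ x, HasSum (fun k => P k x) x

end Defs

/-- The measure `m` has no atoms, and on every disc `|t| < R` it is finite and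
`∫ log⁺ (1 / |t - s|) dm(t)` is bounded in `s ∈ ℂ`. -/
def BoundedPotential (m : Measure ℂ) : Prop :=
  (∀ s : ℂ, m {s} = 0) ∧
  ∀ R : ℝ, m (ball (0:ℂ) R) ≠ ⊤ ∧ ∃ C : ℝ≥0, ∀ s : ℂ,
    ∫⁻ t in ball (0:ℂ) R, ENNReal.ofReal (Real.posLog ‖t - s‖⁻¹) ∂m ≤ C

/-- Normal operators on Hilbert spaces have a continuous functional calculus. -/
def NormalOperatorsHaveCalculus : Prop :=
  ∀ (H : Type) [NormedAddCommGroup H] [InnerProductSpace ℂ H] [CompleteSpace H] (N : H →L[ℂ] H),
    IsStarNormal N → HasContinuousCalculus N

/-- Every operator `N f = φ f` on `L^p(μ, E)`, `φ` bounded and measurable, has a continuous functional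
calculus. -/
def MultiplicationsHaveCalculus : Prop :=
  ∀ (S : Type) [MeasurableSpace S] (μ : Measure S) (E : Type) [NormedAddCommGroup E]
    [NormedSpace ℂ E] (p : ENNReal) [Fact (1 ≤ p)] (φ : S → ℂ) (R : ℝ), Measurable φ →
    (∀ s, ‖φ s‖ ≤ R) → ∀ N : Lp E p μ →L[ℂ] Lp E p μ,
      (∀ f : Lp E p μ, N f =ᵐ[μ] fun s => φ s • f s) → HasContinuousCalculus N

/-- Every operator `N x = Σ z k • P k x`, `(P k)` an unconditional decomposition of a Banach space and
`z` bounded, has a continuous functional calculus. -/
def DiagonalOperatorsHaveCalculus : Prop :=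
  ∀ (X : Type) [NormedAddCommGroup X] [NormedSpace ℂ X] [CompleteSpace X] (κ : Type)
    (P : κ → X →L[ℂ] X), IsUnconditionalDecomposition P → ∀ (z : κ → ℂ) (R : ℝ),
    (∀ k, ‖z k‖ ≤ R) → ∀ N : X →L[ℂ] X, (∀ x, HasSum (fun k => z k • P k x) (N x)) →
      HasContinuousCalculus N

/-- **Generic nuclear perturbations of scalar type operators on reflexive spaces have hyperinvariant
subspaces.** Let `X` be a reflexive Banach space, `N` an operator on `X` with a continuous functional
calculus and `K` nuclear of order `q < 1`. Then `N + t K` is good (a multiple of the identity or with a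
nontrivial hyperinvariant subspace, and with small local spectra, as its adjoint) for almost every `t`
with respect to every atomless measure with bounded logarithmic potential, in particular for almost
every complex and for almost every real `t`. Normal operators, multiplications on `L^p(μ, E)` and
diagonal operators with respect to unconditional decompositions have such a calculus. -/
theorem result :
    (∀ (X : Type) [NormedAddCommGroup X] [NormedSpace ℂ X] [CompleteSpace X], IsReflexive X →
      ∀ N K : X →L[ℂ] X, HasContinuousCalculus N → ∀ q : ℝ, 0 < q → q < 1 → IsNuclearOfOrder q K →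
        (∀ (m : Measure ℂ) [SFinite m], BoundedPotential m → ∀ᵐ t ∂m, Good (N + t • K)) ∧
        (∀ᵐ t : ℂ, Good (N + t • K)) ∧
        (∀ᵐ t : ℝ, Good (N + (t : ℂ) • K))) ∧
    NormalOperatorsHaveCalculus ∧ MultiplicationsHaveCalculus ∧ DiagonalOperatorsHaveCalculus := by
  refine ⟨?_, ?_, ?_, ?_⟩
  · intro X _ _ _ hX N K hN q hq0 hq1 hK
    obtain ⟨Z, Ψ, hZ, hc, hid⟩ := hN
    obtain ⟨u, v, hs, hK⟩ := hK
    have main : ∀ (m : Measure ℂ) [SFinite m], Pool.Agent.Y283.NK.LogBd m →
        ∀ᵐ t ∂m, Good (N + t • K) := by
      intro m _ hm
      filter_upwards [Pool.Agent.Q98.NR.all_main hX N Z hZ Ψ hc hid hq0 hq1 hs hK m hm] with t ht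
      exact ht
    refine ⟨?_, ?_, ?_⟩
    · intro m _ hm
      refine main m fun R => ?_
      obtain ⟨h0, hm⟩ := hm
      obtain ⟨h1, C, hC⟩ := hm R
      refine ⟨C + (m (ball (0:ℂ) R)).toNNReal, ?_, fun s => ?_⟩
      · rw [ENNReal.coe_add, ENNReal.coe_toNNReal h1]
        exact le_add_self
      · calc ∫⁻ t in ball (0:ℂ) R, Pool.Agent.Y283.NK.lm ‖t - s‖ ∂m
            = ∫⁻ t in ball (0:ℂ) R, ENNReal.ofReal (Real.posLog ‖t - s‖⁻¹) ∂m := by
              refine lintegral_congr_ae (ae_restrict_of_ae ?_)
              have h2 : ∀ᵐ t ∂m, t ≠ s := by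
                rw [ae_iff]
                simpa using h0 s
              filter_upwards [h2] with t ht
              unfold Pool.Agent.Y283.NK.lm
              rw [if_neg (by simpa [sub_eq_zero] using ht)]
          _ ≤ C := hC s
          _ ≤ _ := by rw [ENNReal.coe_add]; exact le_self_add
    · exact main volume Pool.Agent.Y891.NK.main_vol.1
    · have h := main (Measure.map (fun t : ℝ => (t : ℂ)) volume) Pool.Agent.Y891.NK.main_vol.2
      exact ae_of_ae_map Complex.continuous_ofReal.measurable.aemeasurable h
  · intro H _ _ _ N hN
    exact Pool.Agent.Q98.RB.Exa.normal N hN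
  · intro S _ μ E _ _ p _ φ R hφ hR N hN
    exact Pool.Agent.Q98.RB.Exa.mulOp φ hφ R hR N hN
  · intro X _ _ _ κ P hP z R hz N hN
    exact Pool.Agent.Q98.RB.Exa.UDec.hasCal ⟨hP.idem, hP.orth, hP.sum⟩ z R hz N hN

end Pool.Agent.Results.MP_f981b0_an.NuclearReflexive
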