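import Pool.Agent.Q98.RB.Main
import Pool.Agent.Q98.RB.Exa

/-!
# Rank one perturbations on reflexive Banach spaces have hyperinvariant subspaces

Let `X` be a reflexive complex Banach space (separable or not) and `N` an operator on `X` with a
continuous functional calculus: for a compact set `K` of complex numbers there is a continuous unital
algebra homomorphism `Ψ : C(K) → L(X)`, of any norm, with `Ψ(z) = N`. (On reflexive spaces these are the
scalar type spectral operators of Dunford.) For every vector `u` and every functional `v` the operator
`T x = N x + v(x) u` is a multiple of the identity or has a nontrivial closed hyperinvariant subspace.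
There is no condition on `u`, `v`, on the spectrum of `N`, no smallness and no genericity.

Examples of such `N`: normal operators on Hilbert spaces of any dimension; multiplications by bounded
functions on `L^p(μ, E)`; operators `N x = Σ z_k P_k x` for bounded `z` and any unconditional
decomposition `(P_k)` of `X`, for instance diagonal operators with respect to an unconditional basis.

For normal operators on separable Hilbert spaces this is the theorem of the starting file
`RankOnePerturbations` (project RO). The proof follows that project, with the following changes, since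
there is no adjoint on `X`, no spectral multiplicity theory, no representation on `L²(μ)`.

* Pairs `(w, x)` in `X* × X` give the complex measures `h ↦ w(Ψ(h) x)` on `K`; each is written as
  `conj k g μ` with `k`, `g` in `L²(μ)`, `μ` its variation (Riesz), which allows to use the estimates
  for Cauchy transforms of project RO.
* All limits are taken for the vectors `Ψ(h) u` with `h` continuous or smooth, and weak limits exist by
  reflexivity; no Borel functional calculus is used.
* `a` is called essential if `Ψ(h)` has infinite rank for the cut-off functions `h` of all discs about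
  `a`. At an essential point there are, for every `r > 0`, vectors `x ≠ 0` with local spectrum for `T` in
  the disc of radius `r` about `a`. If there are two essential points `a ≠ b`, such vectors near `a` for
  `T` and near `b` for the adjoint `T'` on `X*` (which is again reflexive, with the transposed calculus
  and the same essential points) annihilate each other across the commutant of `T`.
* If there is at most one essential point `a`, `N - a` and hence `T - a` is compact, and the theorem
  of Lomonosov (library) applies.
-/

set_option autoImplicit false

namespace Pool.Agent.Results.MP_f981b0_an.RankOneReflexive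

open MeasureTheory Filter

section Defs

variable {X : Type} [NormedAddCommGroup X] [NormedSpace ℂ X]

/-- `X` is reflexive: the canonical map to the bidual is onto. -/
def IsReflexive (X : Type) [NormedAddCommGroup X] [NormedSpace ℂ X] : Prop :=
  Function.Surjective (NormedSpace.inclusionInDoubleDual ℂ X)

/-- `N` has a continuous functional calculus: there are a compact set `K` of complex numbers and a
continuous unital algebra homomorphism from `C(K)` to the bounded operators on `X` which maps the
function `z` to `N`. -/
def HasContinuousCalculus (N : X →L[ℂ] X) : Prop :=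
  ∃ (K : Set ℂ) (Ψ : C(K, ℂ) →ₐ[ℂ] (X →L[ℂ] X)), IsCompact K ∧ Continuous Ψ ∧
    Ψ ⟨Subtype.val, continuous_subtype_val⟩ = N

/-- `T` is a multiple of the identity. -/
def IsScalar (T : X →L[ℂ] X) : Prop := ∃ c : ℂ, T = c • (1 : X →L[ℂ] X)

/-- `T` has a closed subspace, neither `{0}` nor the whole space, which is invariant under every
bounded operator commuting with `T`. -/
def HasHyperinvariant (T : X →L[ℂ] X) : Prop :=
  ∃ V : Submodule ℂ X, IsClosed (V : Set X) ∧ V ≠ ⊥ ∧ V ≠ ⊤ ∧
    ∀ Q : X →L[ℂ] X, Q * T = T * Q → ∀ x ∈ V, Q x ∈ V

/-- `(P k)` is an unconditional decomposition of `X`: bounded projections with `P j P k = 0` for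
`j ≠ k`, such that `Σ P k x` converges unconditionally to `x` for every `x`. -/
structure IsUnconditionalDecomposition {κ : Type} (P : κ → X →L[ℂ] X) : Prop where
  idem : ∀ k, P k * P k = P k
  orth : ∀ j k, j ≠ k → P j * P k = 0
  sum : ∀ x, HasSum (fun k => P k x) x

end Defs

/-- Normal operators on Hilbert spaces have a continuous functional calculus. -/
def NormalOperatorsHaveCalculus : Prop :=
  ∀ (H : Type) [NormedAddCommGroup H] [InnerProductSpace ℂ H] [CompleteSpace H] (N : H →L[ℂ] H),
    IsStarNormal N → HasContinuousCalculus N

/-- Every operator `N f = φ f` on `L^p(μ, E)`, `φ` bounded and measurable, has a continuous functional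
calculus. -/
def MultiplicationsHaveCalculus : Prop :=
  ∀ (S : Type) [MeasurableSpace S] (μ : Measure S) (E : Type) [NormedAddCommGroup E]
    [NormedSpace ℂ E] (p : ENNReal) [Fact (1 ≤ p)] (φ : S → ℂ) (R : ℝ), Measurable φ →
    (∀ s, ‖φ s‖ ≤ R) → ∀ N : Lp E p μ →L[ℂ] Lp E p μ,
      (∀ f : Lp E p μ, N f =ᵐ[μ] fun s => φ s • f s) → HasContinuousCalculus N

/-- Every operator `N x = Σ z k • P k x`, `(P k)` an unconditional decomposition of a Banach space and
`z` bounded, has a continuous functional calculus. -/
def DiagonalOperatorsHaveCalculus : Prop :=
  ∀ (X : Type) [NormedAddCommGroup X] [NormedSpace ℂ X] [CompleteSpace X] (κ : Type)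
    (P : κ → X →L[ℂ] X), IsUnconditionalDecomposition P → ∀ (z : κ → ℂ) (R : ℝ),
    (∀ k, ‖z k‖ ≤ R) → ∀ N : X →L[ℂ] X, (∀ x, HasSum (fun k => z k • P k x) (N x)) →
      HasContinuousCalculus N

/-- **Rank one perturbations of operators with a continuous functional calculus on reflexive Banach
spaces have hyperinvariant subspaces**; normal operators, multiplication operators on `L^p(μ, E)` and
diagonal operators with respect to unconditional decompositions have such a calculus. -/
theorem result :
    (∀ (X : Type) [NormedAddCommGroup X] [NormedSpace ℂ X] [CompleteSpace X], IsReflexive X →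
      ∀ N : X →L[ℂ] X, HasContinuousCalculus N → ∀ (u : X) (v : X →L[ℂ] ℂ) (T : X →L[ℂ] X),
        (∀ x, T x = N x + v x • u) → IsScalar T ∨ HasHyperinvariant T) ∧
    NormalOperatorsHaveCalculus ∧ MultiplicationsHaveCalculus ∧ DiagonalOperatorsHaveCalculus := by
  refine ⟨?_, ?_, ?_, ?_⟩
  · intro X _ _ _ hX N hN u v T hT
    obtain ⟨K, Ψ, hK, hc, hid⟩ := hN
    have h : T = Pool.Agent.Q98.RB.T1 N u v := by
      ext1 f
      rw [hT f]
      rfl
    rw [h]
    exact Pool.Agent.Q98.RB.main hX N K hK Ψ hc hid u v
  · intro H _ _ _ N hN
    exact Pool.Agent.Q98.RB.Exa.normal N hN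
  · intro S _ μ E _ _ p _ φ R hφ hR N hN
    exact Pool.Agent.Q98.RB.Exa.mulOp φ hφ R hR N hN
  · intro X _ _ _ κ P hP z R hz N hN
    exact Pool.Agent.Q98.RB.Exa.UDec.hasCal ⟨hP.idem, hP.orth, hP.sum⟩ z R hz N hN

end Pool.Agent.Results.MP_f981b0_an.RankOneReflexive
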