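import Mathlib
import Pool.Agent.Q268.DP.B
import Pool.Agent.Q268.DP.D
import Pool.Agent.Q268.DP.Exist

/-!
# Cramér's conjecture for randomly displaced primes

Every prime `q` is moved to `q + X q`, the displacements `X q` being independent and uniform on
`{0, …, D q}`.  Whether the largest gap of the displaced primes satisfies Cramér's asymptotic formula
depends on the size of the displacements: it does for `D q = ⌊q / (log q)^B⌋`, the largest gap has order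
`log² x` for `D q = ⌊q^θ⌋` with `θ < 1` near `1`, it is never essentially smaller than `log² x` when
`log² q = o (D q)` and `D q = o (q)`, and for `D q = ⌊(log q)^u⌋`, `2 < u ≤ 12/5`, the formula is false:
the constant is at least `e^(-γ) u / (1 + log (u - 1)) > 1` (Maier's windows with few primes survive the
displacement), which tends to Granville's constant `2 e^(-γ)` as `u → 2`.
-/

set_option autoImplicit false

namespace Pool.Agent.Results.MP_f9960f_nt.DisplacedPrimes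

open Filter MeasureTheory Topology
open Pool.Agent.Q268.DP

/-- the constant `e^(-γ) u / (1 + log (u - 1))` -/
noncomputable def cu (u : ℝ) : ℝ :=
  Real.exp (-Real.eulerMascheroniConstant) * u / (1 + Real.log (u - 1))

theorem cu_pos_aux {u : ℝ} (hu : 2 < u) : 0 < 1 + Real.log (u - 1) := by
  have := Real.log_pos (show 1 < u - 1 by linarith)
  linarith

theorem cu_eq {u : ℝ} (hu : 2 < u) :
    cu u = 1 / (Real.exp Real.eulerMascheroniConstant * Pool.Agent.Q110.RS.M.om u) := by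
  have h1 := cu_pos_aux hu
  have h2 : u ≠ 0 := by linarith
  have h3 := Real.exp_pos Real.eulerMascheroniConstant
  unfold cu Pool.Agent.Q110.RS.M.om
  rw [Real.exp_neg]
  field_simp

theorem one_lt_cu {u : ℝ} (hu : 2 < u) (hu1 : u ≤ 12 / 5) : 1 < cu u := by
  have h1 := cu_pos_aux hu
  have h2 := Pool.Agent.Q110.RS.om_lt (lam := u - 2) (by linarith) (by linarith)
  rw [show 2 + (u - 2) = u by ring] at h2
  unfold Pool.Agent.Q110.RS.M.om at h2
  rw [div_lt_iff₀ (by linarith)] at h2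
  unfold cu
  rw [one_lt_div h1]
  exact h2

/-- all constants below a bound at once -/
theorem ae_all_lt {Ω : Type} [MeasurableSpace Ω] {μ : Measure Ω} {g : Ω → ℕ → ℝ} {a : ℝ}
    (h : ∀ c : ℝ, c < a → ∀ᵐ ω ∂μ, ∀ᶠ x : ℕ in atTop, c * Real.log x ^ 2 ≤ g ω x) :
    ∀ᵐ ω ∂μ, ∀ c : ℝ, c < a → ∀ᶠ x : ℕ in atTop, c * Real.log x ^ 2 ≤ g ω x := by
  have h1 : ∀ r : ℚ, ∀ᵐ ω ∂μ, (r : ℝ) < a → ∀ᶠ x : ℕ in atTop, (r : ℝ) * Real.log x ^ 2 ≤ g ω x := by
    intro r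
    by_cases hr : (r : ℝ) < a
    · filter_upwards [h r hr] with ω hω _
      exact hω
    · exact Eventually.of_forall fun ω hc => absurd hc hr
  filter_upwards [ae_all_iff.2 h1] with ω hω c hc
  obtain ⟨r, hr1, hr2⟩ := exists_rat_btwn hc
  filter_upwards [hω r hr2] with x hx
  refine le_trans ?_ hx
  gcongr

theorem ae_all_gt {Ω : Type} [MeasurableSpace Ω] {μ : Measure Ω} {g : Ω → ℕ → ℝ} {a : ℝ}
    (h : ∀ c : ℝ, a < c → ∀ᵐ ω ∂μ, ∀ᶠ x : ℕ in atTop, g ω x ≤ c * Real.log x ^ 2) :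
    ∀ᵐ ω ∂μ, ∀ c : ℝ, a < c → ∀ᶠ x : ℕ in atTop, g ω x ≤ c * Real.log x ^ 2 := by
  have h1 : ∀ r : ℚ, ∀ᵐ ω ∂μ, a < (r : ℝ) → ∀ᶠ x : ℕ in atTop, g ω x ≤ (r : ℝ) * Real.log x ^ 2 := by
    intro r
    by_cases hr : a < (r : ℝ)
    · filter_upwards [h r hr] with ω hω _
      exact hω
    · exact Eventually.of_forall fun ω hc => absurd hc hr
  filter_upwards [ae_all_iff.2 h1] with ω hω c hc
  obtain ⟨r, hr1, hr2⟩ := exists_rat_btwn hc
  filter_upwards [hω r hr1] with x hx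
  refine hx.trans ?_
  gcongr

theorem tendsto_of_bounds {g : ℕ → ℝ} (h1 : ∀ c : ℝ, c < 1 → ∀ᶠ x : ℕ in atTop, c * Real.log x ^ 2 ≤ g x)
    (h2 : ∀ c : ℝ, 1 < c → ∀ᶠ x : ℕ in atTop, g x ≤ c * Real.log x ^ 2) :
    Tendsto (fun x : ℕ => g x / Real.log x ^ 2) atTop (𝓝 1) := by
  rw [tendsto_order]
  constructor
  · intro c hc
    obtain ⟨c', hc1, hc2⟩ := exists_between hc
    filter_upwards [h1 c' hc2, tlog.eventually_gt_atTop 0] with x hx hx0
    refine lt_of_lt_of_le hc1 ?_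
    rw [le_div_iff₀ (by positivity)]
    exact hx
  · intro c hc
    obtain ⟨c', hc1, hc2⟩ := exists_between hc
    filter_upwards [h2 c' hc1, tlog.eventually_gt_atTop 0] with x hx hx0
    refine lt_of_le_of_lt ?_ hc2
    rw [div_le_iff₀ (by positivity)]
    exact hx

theorem result :
    -- displacement families exist
    (∀ D : ℕ → ℕ, ∃ μ : Measure (ℕ → ℕ), Disp μ (fun q ω => ω q) D) ∧
    -- `log² q = o (D q)`, `D q = o (q)`: the largest gap is at least `(1 - o(1)) log² x`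
    (∀ D : ℕ → ℕ, Tendsto (fun q : ℕ => (D q : ℝ) / Real.log q ^ 2) atTop atTop →
      Tendsto (fun q : ℕ => (D q : ℝ) / q) atTop (𝓝 0) →
      ∀ (Ω : Type) [MeasurableSpace Ω] (μ : Measure Ω) (X : ℕ → Ω → ℕ), Disp μ X D →
      ∀ᵐ ω ∂μ, ∀ c : ℝ, c < 1 →
        ∀ᶠ x : ℕ in atTop, c * Real.log x ^ 2 ≤ (G (moved Nat.Prime X ω) x : ℝ)) ∧
    -- `D q = q / (log q)^B`: Cramér's asymptotic formula holds
    (∀ B : ℝ, 0 < B → ∀ (Ω : Type) [MeasurableSpace Ω] (μ : Measure Ω) (X : ℕ → Ω → ℕ),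
      Disp μ X (fun q => ⌊(q : ℝ) / Real.log q ^ B⌋₊) →
      ∀ᵐ ω ∂μ, Tendsto (fun x : ℕ => (G (moved Nat.Prime X ω) x : ℝ) / Real.log x ^ 2) atTop (𝓝 1)) ∧
    -- `D q = q^θ`: the largest gap has order `log² x`
    (∃ θ₀ C : ℝ, 0 < θ₀ ∧ θ₀ < 1 ∧ 0 < C ∧ ∀ θ : ℝ, θ₀ < θ → θ < 1 →
      ∀ (Ω : Type) [MeasurableSpace Ω] (μ : Measure Ω) (X : ℕ → Ω → ℕ),
      Disp μ X (fun q => ⌊(q : ℝ) ^ θ⌋₊) →
      ∀ᵐ ω ∂μ, (∀ c : ℝ, c < 1 →
          ∀ᶠ x : ℕ in atTop, c * Real.log x ^ 2 ≤ (G (moved Nat.Prime X ω) x : ℝ)) ∧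
        ∀ᶠ x : ℕ in atTop, (G (moved Nat.Prime X ω) x : ℝ) ≤ C * Real.log x ^ 2) ∧
    -- `D q = (log q)^u`: the constant is at least `cu u`, and Cramér's asymptotic formula is false
    -- for `2 < u ≤ 12 / 5`
    (∀ u : ℝ, 2 < u → u < 3 → ∀ (Ω : Type) [MeasurableSpace Ω] (μ : Measure Ω) (X : ℕ → Ω → ℕ),
      Disp μ X (fun q => ⌊Real.log q ^ u⌋₊) →
      ∀ᵐ ω ∂μ, (∀ c : ℝ, c < cu u →
          ∀ᶠ x : ℕ in atTop, c * Real.log x ^ 2 ≤ (G (moved Nat.Prime X ω) x : ℝ)) ∧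
        (u ≤ 12 / 5 →
          ¬ Tendsto (fun x : ℕ => (G (moved Nat.Prime X ω) x : ℝ) / Real.log x ^ 2) atTop (𝓝 1))) ∧
    (∀ u : ℝ, 2 < u → u ≤ 12 / 5 → 1 < cu u) := by
  refine ⟨exists_disp, ?_, ?_, ?_, ?_, fun u hu hu1 => one_lt_cu hu hu1⟩
  · intro D h1 h2 Ω _ μ X hX
    exact ae_all_lt fun c hc => partA hX h1 h2 hc
  · intro B hB Ω _ μ X hX
    have h1 := ae_all_lt fun c hc => partA hX (DB_large B) (DB_small hB) (c := c) hc
    have h2 := ae_all_gt fun c hc => partC hB hX (c := c) hc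
    filter_upwards [h1, h2] with ω hω1 hω2
    exact tendsto_of_bounds hω1 hω2
  · obtain ⟨θ₀, C, h0, h1, hC, h⟩ := partD
    refine ⟨θ₀, C, h0, h1, hC, fun θ hθ hθ1 Ω _ μ X hX => ?_⟩
    have h2 := ae_all_lt fun c hc => partA hX (Dθ_large (h0.trans hθ)) (Dθ_small hθ1) (c := c) hc
    filter_upwards [h2, h θ hθ hθ1 hX] with ω hω1 hω2
    exact ⟨hω1, hω2⟩
  · intro u hu hu3 Ω _ μ X hX
    have h1 := ae_all_lt (a := cu u) fun c hc => partB hX hu hu3 (c := c) (by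
      have h2 : 0 < Real.exp Real.eulerMascheroniConstant * Pool.Agent.Q110.RS.M.om u :=
        mul_pos (Real.exp_pos _) (Pool.Agent.Q110.RS.M.om_pos hu.le)
      rw [cu_eq hu, lt_div_iff₀ h2] at hc
      exact hc)
    filter_upwards [h1] with ω hω
    refine ⟨hω, fun hu1 hT => ?_⟩
    obtain ⟨c, hc1, hc2⟩ := exists_between (one_lt_cu hu hu1)
    have h3 := (hT.eventually_lt_const hc1).and ((hω c hc2).and (tlog.eventually_gt_atTop 0))
    obtain ⟨x, hx1, hx2, hx3⟩ := h3.exists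
    rw [div_lt_iff₀ (by positivity)] at hx1
    linarith

end Pool.Agent.Results.MP_f9960f_nt.DisplacedPrimes
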