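import Pool.Agent.Q80.EW.All
import Pool.Agent.Q80.EW.Stm4
import Pool.Agent.Q251.EW.Cor
import Pool.Agent.Q251.EW.EF

set_option autoImplicit false

/-!
The law of the mean square of zeta over windows of all lengths on the critical line.
-/

namespace Pool.Agent.Results.MP_f9aece_nt.ErfLaw

open Filter Topology MeasureTheory

noncomputable section

/-- the normalised mean square of zeta over the window `[t, t + U]` on the critical line -/
def windowMean (U T t : ℝ) : ℝ :=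
  1 / (U * Real.log T) * ∫ u in t..(t + U), ‖riemannZeta ((1 / 2 : ℂ) + (u : ℂ) * Complex.I)‖ ^ 2

/-- the error function `erf b = (2 / √π) ∫_0^b exp(-x²) dx` -/
def erf (b : ℝ) : ℝ := 2 / Real.sqrt Real.pi * ∫ x in (0 : ℝ)..b, Real.exp (-x ^ 2)

theorem result :
    (∀ ε : ℝ, 0 < ε → ∀ᶠ T : ℝ in atTop, ∀ U : ℝ, 1 ≤ U → U ≤ T →
      (volume {t : ℝ | t ∈ Set.Icc T (2 * T) ∧
        ε < |windowMean U T t - erf (Real.log U / (2 * Real.sqrt (Real.log (Real.log T))))|}).toReal ≤ ε * T) ∧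
    (∀ q ε : ℝ, 0 < q → q < 1 → 0 < ε → ∀ᶠ T : ℝ in atTop, ∀ U : ℝ, 1 ≤ U → U ≤ T →
      |1 / T * (∫ t in T..(2 * T), windowMean U T t ^ q) -
        erf (Real.log U / (2 * Real.sqrt (Real.log (Real.log T)))) ^ q| ≤ ε) ∧
    (∀ U : ℝ → ℝ, (∀ T : ℝ, 1 ≤ T → 1 ≤ U T ∧ U T ≤ T) →
      ((∀ ε : ℝ, 0 < ε → Tendsto (fun T : ℝ => (volume {t : ℝ | t ∈ Set.Icc T (2 * T) ∧
          ε < |windowMean (U T) T t - 1|}).toReal / T) atTop (𝓝 0)) ↔
        Tendsto (fun T : ℝ => Real.log (U T) / Real.sqrt (Real.log (Real.log T))) atTop atTop) ∧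
      (Tendsto (fun T : ℝ => 1 / T * ∫ t in T..(2 * T), |windowMean (U T) T t - 1|) atTop (𝓝 0) ↔
        Tendsto (fun T : ℝ => Real.log (U T) / Real.sqrt (Real.log (Real.log T))) atTop atTop)) :=
  ⟨_root_.Pool.Agent.Q80.EW.all,
    _root_.Pool.Agent.Q251.EW.t_COR1 _root_.Pool.Agent.Q80.EW.all _root_.Pool.Agent.Q280.EW.t_HLW
      _root_.Pool.Agent.Q251.EW.t_EF,
    _root_.Pool.Agent.Q251.EW.t_COR2 _root_.Pool.Agent.Q80.EW.all _root_.Pool.Agent.Q280.EW.t_HLW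
      _root_.Pool.Agent.Q251.EW.t_EF⟩

end

end Pool.Agent.Results.MP_f9aece_nt.ErfLaw
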