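import Pool.Agent.Q36.GV.Yc

/-!
# Minimal models of varieties dominated by products of a variety and curves

Let `Y` be a projective manifold of dimension `d` which is uniruled, or satisfies `ν(Y) = a` where `a`
is the dimension of the image of its canonical map (for instance an abelian variety or a variety with
trivial canonical bundle, `a = 0`, or a variety of general type with generically finite canonical
map, `a = d`). Let `C 1, ..., C n` be arbitrary curves, rational ones included, and
`Y × C 1 × ... × C n ⇢ X` any dominant rational map of finite degree to a projective variety `X` (not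
necessarily a quotient by a group). For a general point `x` of `X` let `r_i` be the number of
different `i`-th coordinates of the points over `x` (`i = 0` is the coordinate in `Y`), and for a set
`Q` of indices let `r(Q)` be the number of the points over `x` which have the same `j`-th
coordinates as a given one of them for all `j` outside `Q`. Let `c i + 2` be at most the gonality of
`C i` if `C i` is not rational, and `c 0 = 0`, or more generally let the canonical forms of `Y`
separate `c 0 + 1` points and tangent vectors in an open set. Assume that

* `2 r_i ≤ c i + 1` for all `i` in some set `B` (which may be empty), and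
* for all `Q` disjoint from `B` the points over `x` are determined by their coordinates outside `Q`
  (`r(Q) = 1`), or `2 r(Q) - 1 ≤ ∑ j ∈ Q, c j`.

The theorem is the dichotomy predicted by the minimal model conjecture: either

* `Y` is uniruled or some `C i` is rational, `X` is uniruled, and `K_X` is not pseudo-effective (so that
  `X` is birational to a Mori fibre space, case (b), by Birkar-Cascini-Hacon-McKernan), or
* `K_X` is pseudo-effective, `X` is not uniruled, and `κ(X) = ν(X) = a + h`, `h` the number of the
  curves which are not elliptic; moreover the image of the canonical map of `X` already has the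
  dimension `a + h` (so that `X` is birational to a terminal minimal model, case (a), even a good one,
  by a theorem of Lai, Gongyo and Lehmann: numerical and Kodaira dimension agree).

Proof: exterior products of canonical forms of `Y` and regular differentials `f i` of the curves are
canonical forms of the product, and their traces are canonical forms `G_f` on `X`. If a vector field
of `X` kills all their quotients, there is a relation between the values and the derivatives of the
`f i` at the points of a general fibre. Hall's theorem on the marriage problem and the separation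
properties of the canonical forms of the factors are used to isolate one point of the fibre and one
factor in this relation: in that point the vector field kills the quotients of the canonical forms of
the factor. The upper bound: sections on the product of multiples of its canonical class plus an
ample divisor are expanded along the curves. If some factor is uniruled, so is `X`.
-/

set_option autoImplicit false
set_option linter.overlappingInstances false

open FF IntermediateField Pool.Agent.W619.PQ Pool.Agent.W619.TW

namespace Pool.Agent.Results.MP_fa3f7f_ag.DominatedDichotomy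

/-- Every nonconstant function on the curve with function field `F` has degree at least `γ`. -/
def GonalityGe (F : Type) [Field F] [Algebra ℂ F] (γ : ℕ) : Prop :=
  ∀ b : F, Transcendental ℂ b → γ ≤ Module.finrank ℂ⟮b⟯ F

/-- The image of the map given by the sections of `m K_X` has dimension at least `h`: there are
`h + 1` sections of `m K_X` whose ratios to the first one are algebraically independent. -/
def ImageGe (K : Type) [Field K] [Algebra ℂ K] (n m h : ℕ) : Prop :=
  ∃ ω : Fin (h + 1) → (Fin n → Derivation ℂ K K) → K,
    (∀ l, IsSec ℂ K n (fun _ => False) {1} m 0 (ω l)) ∧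
    ∃ D, (∀ l, ω l D ≠ 0) ∧ AlgebraicIndependent ℂ (fun l : Fin h => ω l.succ D / ω 0 D)

/-- The coefficients of the canonical forms of the projective manifold of dimension `d` with function
field `K`, with respect to the rational vector fields `E`. -/
def canonicalForms {K : Type} [Field K] [Algebra ℂ K] (d : ℕ) (E : Fin d → Derivation ℂ K K) :
    Set K :=
  {f | ∃ η : (Fin d → Derivation ℂ K K) → K, IsPluriForm ℂ K d 1 η ∧
    (∀ u : Place ℂ K, IsDivisorial u d → RegularAt u d η) ∧ η E = f}

/-- The canonical forms of the manifold with function field `K` separate `m` points and tangent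
vectors in an open set: let `φ i` be different generic points, with coordinates in a field `Ω`, with
multiplicities `1` or `2` of sum at most `m`, and `θ i` tangent vectors at the points of multiplicity
`2`; then the values at the `φ i` are linearly independent of each other and of the derivatives in
the directions `θ i ≠ 0`. (For the coefficients with respect to a frame `E`; this does not depend on
the choice of the frame.) -/
def Separates (K : Type) [Field K] [Algebra ℂ K] (d m : ℕ) : Prop :=
  ∀ (y : Fin d → K) (E : Fin d → Derivation ℂ K K), IsTranscendenceBasis ℂ y →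
    (∀ i j, E i (y j) = if i = j then 1 else 0) →
    ∀ (Ω : Type) [Field Ω] [Algebra ℂ Ω] (ι : Type) [Fintype ι] (φ : ι → (K →ₐ[ℂ] Ω)) (μ : ι → ℕ)
      (c : ι → Ω) (θ : ι → (K →ₗ[ℂ] Ω)), Function.Injective φ → (∀ i, μ i = 1 ∨ μ i = 2) →
      ∑ i, μ i ≤ m → (∀ i, ∀ a b, θ i (a * b) = φ i a * θ i b + φ i b * θ i a) →
      (∀ i, μ i = 1 → θ i = 0) →
      (∀ f ∈ canonicalForms d E, ∑ i, (c i * φ i f + θ i f) = 0) → ∀ i, c i = 0 ∧ θ i = 0

section

variable (L : Type) {M : Type} [Field L] [Field M] [Algebra ℂ L] [Algebra ℂ M] [Algebra L M]

/-- The number of different coordinates in the factor with function field `F` on a general fibre of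
`Z ⇢ X`: the degree over `X` of the image of `Z` in the product of `X` and the factor. -/
noncomputable def coordinates (F : IntermediateField ℂ M) : ℕ :=
  Module.finrank L (IntermediateField.adjoin L (F : Set M))

/-- The number of the points of a general fibre of `Z ⇢ X` with the same coordinates outside `Q` as a
given one: the degree of `Z` over its image in the product of `X` and the factors `j ∉ Q`. -/
noncomputable def agreeing {n : ℕ} (F : Fin n → IntermediateField ℂ M) (Q : Finset (Fin n)) : ℕ :=
  Module.finrank (IntermediateField.adjoin L {z : M | ∃ j, j ∉ Q ∧ z ∈ F j}) M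

end

/-- **The dichotomy of the minimal model conjecture for varieties dominated by products.** Let `F 0`
be the function field of a projective manifold `Y` of dimension `d` which is uniruled, or whose
canonical map has an image of dimension at least `a` while `ν(Y) ≤ a`; `c 0 = 0` or the canonical
forms of `Y` separate `c 0 + 1` points and tangent vectors. Let `F i` (`0 < i ≤ n`) be the function
fields of curves which are rational or of gonality at least `c i + 2`, `M` the function field of the
product, and `Y × C 1 × ... × C n ⇢ X` a dominant rational map of finite degree to a projective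
variety with function field `L`. Let `B` be a set of indices such that twice the number of the `i`-th
coordinates on a general fibre is at most `c i + 1` for `i ∈ B`, and assume that for every set `Q` of
indices disjoint from `B` the number `r(Q)` of the points of a general fibre with the same coordinates
outside `Q` as a given one satisfies `r(Q) = 1` or `2 r(Q) - 1 ≤ ∑ j ∈ Q, c j`. Let `h` be the number
of the curves which are not elliptic. Then either `Y` is uniruled or some `C i` is rational, and `X` is
uniruled and `K_X` is not pseudo-effective; or `K_X` is pseudo-effective, `X` is not uniruled, the image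
of the canonical map of `X` has dimension at least `a + h`, and `ν(X) ≤ a + h`. -/
theorem result {L M : Type} [Field L] [Field M] [Algebra ℂ L] [Algebra ℂ M] [Algebra L M]
    [IsScalarTower ℂ L M] [FiniteDimensional L M] [Algebra.EssFiniteType ℂ L] (d n : ℕ)
    (hM : Algebra.trdeg ℂ M = (d + n : ℕ)) (F : Fin (n + 1) → IntermediateField ℂ M)
    (hess : Algebra.EssFiniteType ℂ (F 0)) (hY : Algebra.trdeg ℂ (F 0) = d)
    (hF : ∀ i : Fin n, IsFF ℂ (F i.succ)) (hsup : ⨆ i, F i = ⊤) (a : ℕ)
    (ha : IsUniruled ℂ (F 0) d ∨ (ImageGe (F 0) d 1 a ∧ NumLe ℂ (F 0) d (fun _ => False) a))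
    (c : Fin (n + 1) → ℕ) (hc : c 0 = 0 ∨ Separates (F 0) d (c 0 + 1))
    (hγ : ∀ i : Fin n, (∃ t : F i.succ, ℂ⟮t⟯ = ⊤) ∨ GonalityGe (F i.succ) (c i.succ + 2))
    (B : Finset (Fin (n + 1))) (hB : ∀ i ∈ B, 2 * coordinates L (F i) ≤ c i + 1)
    (hQ : ∀ Q : Finset (Fin (n + 1)), Disjoint Q B →
      agreeing L F Q = 1 ∨ 2 * agreeing L F Q ≤ 1 + ∑ j ∈ Q, c j) :
    ((IsUniruled ℂ (F 0) d ∨ ∃ i : Fin n, ∃ t : F i.succ, ℂ⟮t⟯ = ⊤) ∧
      IsUniruled ℂ L (d + n) ∧ ¬ IsPsef ℂ L (d + n) (fun _ => False)) ∨
    (IsPsef ℂ L (d + n) (fun _ => False) ∧ ¬ IsUniruled ℂ L (d + n) ∧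
      ImageGe L (d + n) 1 (a + {i : Fin n | ¬ IsElliptic (F i.succ)}.ncard) ∧
      NumLe ℂ L (d + n) (fun _ => False) (a + {i : Fin n | ¬ IsElliptic (F i.succ)}.ncard)) := by
  have hessM : Algebra.EssFiniteType ℂ M := Q36.GV.ess_supS F hsup
  have hn : Algebra.trdeg ℂ L = (d + n : ℕ) := Q36.SD.trdeg_below (K := M) hM
  by_cases h1 : IsUniruled ℂ (F 0) d ∨ ∃ i : Fin n, ∃ t : F i.succ, ℂ⟮t⟯ = ⊤
  · have h2 := Q36.GV.uniruled_prod (L := L) F hY hM hsup h1
    exact Or.inl ⟨h1, h2, (Pool.Agent.W619.Y.uniruled_neg (d + n) hn h2).1⟩
  · right
    push Not at h1
    obtain ⟨ha1, ha2⟩ := ha.resolve_left h1.1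
    have hγ' : ∀ i : Fin n, GonalityGe (F i.succ) (c i.succ + 2) := fun i =>
      (hγ i).resolve_left fun ⟨t, ht⟩ => h1.2 i t ht
    have hirr : ∀ i : Fin n, ¬ ∃ t : F i.succ, ℂ⟮t⟯ = ⊤ := fun i ⟨t, ht⟩ => h1.2 i t ht
    have h3 := Q36.GV.imageYC F hY hM (Q36.GV.alg_of_sup' F hsup) hc ha1 hγ' B hB hQ
    have h4 := Q36.GV.numYC (L := L) F hY hM hsup hirr ha2
    have hpos : Q36.PT.PlurigenusPos ℂ L (d + n) 1 := by
      obtain ⟨ω, h5, D, h6, -⟩ := h3
      exact ⟨ω 0, (Q36.GV.reg_of_sec (h5 0)).1, (Q36.GV.reg_of_sec (h5 0)).2, D, h6 0⟩
    have hpsef : IsPsef ℂ L (d + n) (fun _ => False) := by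
      by_contra h5
      exact Q36.PT.not_neg_of_pos le_rfl hpos
        (kodairaNeg_of_not_eff.1 fun h6 => h5 (psef_of_eff h6))
    exact ⟨hpsef, fun h5 => (Pool.Agent.W619.Y.uniruled_neg (d + n) hn h5).1 hpsef, h3, h4⟩

end Pool.Agent.Results.MP_fa3f7f_ag.DominatedDichotomy
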