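import Mathlib
import Pool.Agent.Q251.FT.Fin

/-!
# Spherical cusp forms on `PGL(3)` which violate Ramanujan at almost all primes: distribution of the Hecke eigenvalues

Let `φ` be a spherical cusp form on `PGL_3` over `ℚ`, with Satake parameters `α_{i,p}`, Langlands parameters `μ_i` at
the real place and Hecke eigenvalues `λ(p) = ∑_i α_{i,p}`, and suppose that the number of the primes `p ≤ x` at which
`π_p` is tempered is `O(x^c)`, `c < 1`. (It is not known how to exclude this; `c ≥ 9/17` by the earlier hand-in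
`SmallEigenvaluesControl`.) We show that such a form is very rigid:

* *The Hecke eigenvalues have a limit distribution.* `λ(p)` is equidistributed on the three points
  `-1, -e(1/3), -e(2/3)`, in every residue class: for every `q`, every `a` prime to `q`, every `ζ` with `ζ³ = 1` and
  every `0 < ε ≤ 1/2`

    `#{p ≤ x : p ≡ a mod q, |λ(p) + ζ| < ε} ~ (1 / (3 φ(q))) x / log x`.

  The approximation is strong: there are cube roots of unity `ω(p)` with `∑_p |λ(p) + ω(p)|² p^{-t} < ∞` and
  `∑_p (∑_i (|α_{i,p}| - 1)²) p^{-t} < ∞` for all `t > c`.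
* *A quasi Riemann hypothesis for all twists.* For all Dirichlet characters `χ` the functions `L(s, π × χ)` and
  `L(s, π × π × χ)` are entire and have no zeros with `Re s > (1 + c) / 2`, and `L(s, π × π~ × χ) = F(s) L(s, χ)`
  with `F` holomorphic and without zeros for `Re s > c`.
* `φ` is not self-dual.

So a zero `ρ`, `Re ρ > 1/2`, of some `L(s, π × χ)`, or one residue class `a mod q` with one `ζ` and `ε` for which the
asymptotic formula above fails, forces the conjecture to be true at more than `x^c` of the primes `p ≤ x`, for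
arbitrarily large `x`: for every `c < 2 Re ρ - 1` in the first case, for every `c < 1` in the second case.

The structure `CuspFormPGL3` lists what is used of `φ`; all of it is known: the local components are unitary, the
central character is trivial, `L(s, π × π~)` has the analytic continuation and the functional equation, `L(s, π × χ)`
is entire (Godement, Jacquet) and does not vanish at `s = 1` (Jacquet, Shalika), `(s - 1) L(s, π × π × χ)` is entire
(Jacquet, Piatetski-Shapiro, Shalika; Moeglin, Waldspurger). Here all Euler products are over the primes with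
`χ(p) ≠ 0`.

The proof. A nontempered `π_p` has the parameters `(X u, u / X, u⁻²)`, `X > 1`, `|u| = 1`, so that with
`T = X + 1/X ≥ 2` one has `|λ(p)|² - 1 = T (T - 2) + 2 T (1 + Re u³) ≥ 0`; it is small only if `X` is near `1` and
`u³` near `-1`, and then `λ(p)` is near the cube root `u` of `-1`. As `L(s, π × π~) / ζ(s)` is entire at `s = 1`,
Landau's lemma gives the convergence of `∑ |λ(p) + ω(p)|² p^{-t}`, `t > c`. Moreover `λ(p)² + conj λ(p)` is then small,
so `L(s, π × π × χ) L(s, π~ × χ)` has no zeros for `Re s > (1 + c) / 2` (this part is from the starting files,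
`Pool.Agent.Y816.GL3R`). Therefore the Dirichlet series `∑ χ(p) ω(p) log p p^{-s}` continues to `Re s > (1 + c) / 2`
*for every* `χ`, and so do the series over the residue classes. The series with the coefficients
`Λ(n) 1_{n ≡ a} + 2 Re (conj ζ ω(p)) log p 1_{p ≡ a}`, which are nonnegative, equal to `3 log p` at the primes
`p ≡ a` with `ω(p) = ζ` and `0` at the other primes, has at `s = 1` the pole of `ζ(s) / φ(q)` and no other
singularities on the line `Re s = 1`; the Wiener-Ikehara theorem gives the asymptotic formula.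
-/

set_option autoImplicit false

namespace Pool.Agent.Results.MP_fa98d2_nt.FewTemperedPrimes

open Filter Topology Complex
open Pool.Agent.Y816.GL3R

/-- **Spherical cusp forms on `PGL(3)` with `O(x^c)` tempered primes, `c < 1`.** -/
theorem result {α : Nat.Primes → Fin 3 → ℂ} {μ : Fin 3 → ℂ} (h : CuspFormPGL3 α μ) {c C : ℝ} (hc : c < 1)
    (hfew : ∀ x : ℝ, 1 ≤ x →
      (({p : Nat.Primes | ((p : ℕ) : ℝ) ≤ x ∧ ∀ i, ‖α p i‖ = 1}.ncard : ℕ) : ℝ) ≤ C * x ^ c) :
    -- the limit distribution of the Hecke eigenvalues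
    (∀ (q : ℕ) [NeZero q] (a : ZMod q), IsUnit a → ∀ ζ : ℂ, ζ ^ 3 = 1 → ∀ ε : ℝ, 0 < ε → ε ≤ 1 / 2 →
      Tendsto (fun x : ℝ => (({p : Nat.Primes | ((p : ℕ) : ℝ) ≤ x ∧ ((p : ℕ) : ZMod q) = a ∧
        ‖∑ i, α p i + ζ‖ < ε}.ncard : ℕ) : ℝ) * Real.log x / x) atTop (𝓝 ((3 * (q.totient : ℝ))⁻¹))) ∧
    -- the approximation by cube roots of unity
    (∃ ω : Nat.Primes → ℂ, (∀ p, ω p ^ 3 = 1) ∧ ∀ t : ℝ, c < t →
      (Summable fun p : Nat.Primes => ‖∑ i, α p i + ω p‖ ^ 2 * ((p : ℕ) : ℝ) ^ (-t)) ∧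
      Summable fun p : Nat.Primes => (∑ i, (‖α p i‖ - 1) ^ 2) * ((p : ℕ) : ℝ) ^ (-t)) ∧
    -- the `L`-functions
    (∀ (q : ℕ) [NeZero q] (χ : DirichletCharacter ℂ q),
      (∃ E : ℂ → ℂ, Differentiable ℂ E ∧ (∀ s : ℂ, 1 < s.re → E s = cexp (logE χ (tr α) s)) ∧
        ∀ s : ℂ, (1 + c) / 2 < s.re → E s ≠ 0) ∧
      (∃ H : ℂ → ℂ, Differentiable ℂ H ∧
        (∀ s : ℂ, 1 < s.re → H s = cexp (logE χ (fun p k => tr α p k ^ 2) s)) ∧
        ∀ s : ℂ, (1 + c) / 2 < s.re → H s ≠ 0) ∧
      ∃ F : ℂ → ℂ, DifferentiableOn ℂ F {s | c < s.re} ∧ (∀ s : ℂ, c < s.re → F s ≠ 0) ∧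
        ∀ s : ℂ, 1 < s.re → F s * DirichletCharacter.LFunction χ s =
          cexp (logE χ (fun p k => ((‖tr α p k‖ ^ 2 : ℝ) : ℂ)) s)) ∧
    -- not self-dual
    ¬ ∀ p, ∃ τ : Equiv.Perm (Fin 3), ∀ i, α p (τ i) = (α p i)⁻¹ := by
  obtain ⟨h1, hd, hT, G, hG, hG1, hG2⟩ := landau3 h (of_count hfew)
  have hc2 : 1 / 2 < c := by linarith
  obtain ⟨ω, hω3, hωT, hωN⟩ := roots h
  have hω : ∀ t : ℝ, c < t → Summable fun p : Nat.Primes => ‖∑ i, α p i + ω p‖ ^ 2 * ((p : ℕ) : ℝ) ^ (-t) :=
    fun t ht => summable_first (C := 34) (by norm_num) (fun p => sq_nonneg _)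
      (fun p hp => (hωT p hp).trans (by norm_num)) hωN hd hT ht
  have hdef : ∀ t : ℝ, c < t → Summable fun p : Nat.Primes => (∑ i, (‖α p i‖ - 1) ^ 2) * ((p : ℕ) : ℝ) ^ (-t) :=
    fun t ht => summable_first (C := 1) (by norm_num) (fun p => Finset.sum_nonneg fun i _ => sq_nonneg _)
      (fun p hp => by rw [tmp_sum hp]; norm_num) (fun p hp => by rw [one_mul]; exact (local2 h hp).1) hd hT ht
  refine ⟨?_, ⟨ω, hω3, fun t ht => ⟨hω t ht, hdef t ht⟩⟩, ?_, not_selfdual h hc hd hT hG hG1 hG2⟩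
  · intro q _ a ha ζ hζ ε hε hε2
    exact Pool.Agent.Q251.FT.equi h ha hc hc2 hd hT hω3 hω hζ hε hε2
  · intro q _ χ
    obtain ⟨E, H, -, hH, -, hH1, hH2⟩ := nonvanishing h χ hc hd hT
    exact ⟨nonvanishing' h χ hc hd hT, ⟨H, hH, hH1, fun s hs => (hH2 s hs).2⟩,
      adjoint h.toSphericalCuspForm χ hd⟩

end Pool.Agent.Results.MP_fa98d2_nt.FewTemperedPrimes
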