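import Pool.Agent.Q246.EL.Tr

/-!
# The heat flow of `Λ(E/K, s)` for elliptic curves attached to newforms of weight two

Let `E` be an elliptic curve over a number field `K` (for the problem: defined over `ℚ`), and suppose that
its L-function `L(E/K, s)` is a product of L-functions of `[K : ℚ]` newforms of weight two, with arbitrary
levels and nebentypus characters.  By modularity this is so for every elliptic curve over `ℚ` and every
abelian number field `K`, of arbitrary conductor (the newforms are the primitive forms of the twists by the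
characters of `K`), for the elliptic curves over `ℚ` with complex multiplication by `F` and all fields `K ⊇ F`
which are abelian over `F` (theta series), for the `ℚ`-curves over suitable fields.
Let `Λ(s) = A^(s/2) ((2π)^(-s) Γ(s))^[K : ℚ] L(E/K, s)` and `Λ_t = e^{t D²} Λ` its heat flow.

The Riemann hypothesis for `L(E/K, s)` holds if and only if for all `t > 0` all zeros of `Λ_t` are on the line
`Re s = 1` (and then they are simple).  We prove, without any hypothesis: there are constants `c, C > 0` such
that for `0 < t ≤ 1/8` and `T ≥ 2` the proportion of the zeros of `Λ_t` with imaginary part in `(T, 2T]` which are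
off the line or multiple is at most `C exp (-c t log² T)`: almost all zeros of `Λ_t` are on the line as soon as
`t` is large compared to `1 / log² T`.

The theory is that of the modules `Pool.Agent.Q246.NC` (newforms with nebentypus, products; on the basis of
project GD2 of helper671, `Pool.Agent.Y671`, `Pool.Agent.Y771`); here it is applied to the Hasse-Weil L-function of
`E/K`, defined by minimal models.
-/
set_option autoImplicit false

open Complex NumberField IsDedekindDomain
open Pool.Agent.Q246.EL

namespace Pool.Agent.Results.MP_fb225e_nt.HeatFlowDensity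

/-- The heat flow `Λ_t = e^{t D²} Λ` (`D = d/ds`) as a Gaussian average:
`Λ_t(s) = π^(-1/2) ∫ exp (-v²) Λ(s + 2 √t v) dv`. -/
noncomputable def heat (t : ℝ) (Λ : ℂ → ℂ) (s : ℂ) : ℂ :=
  ((1 / Real.sqrt Real.pi : ℝ) : ℂ) *
    ∫ v : ℝ, ((Real.exp (-v ^ 2) : ℝ) : ℂ) * Λ (s + ((2 * Real.sqrt t * v : ℝ) : ℂ))

/-- The zeros of `F` with imaginary part in `(T, 2T]`. -/
def Zer (F : ℂ → ℂ) (T : ℝ) : Set ℂ := {s | F s = 0 ∧ T < s.im ∧ s.im ≤ 2 * T}

/-- The exceptional ones: off the line `Re s = 1`, or multiple. -/
def Exc (F : ℂ → ℂ) (T : ℝ) : Set ℂ := {s | s ∈ Zer F T ∧ (s.re ≠ 1 ∨ deriv F s = 0)}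

/-- The number of points of `A`, each counted with its multiplicity as a zero of `F`. -/
noncomputable def num (F : ℂ → ℂ) (A : Set ℂ) : ℕ := ∑ᶠ s ∈ A, analyticOrderNatAt F s

/-- **The theorem.** Let `E` be an elliptic curve over a number field `K` such that `L(E/K, s)` is the product of the
L-functions of a list of `[K : ℚ]` newforms of weight two.  Then `L(E/K, s)` and the completed L-function
`Λ = Λ(E/K, s)` exist, are unique, entire, `Λ(2 - s) = ± Λ(s)`; the heat flow `Λ_t` is entire for `t ≥ 0`; and there
are `c, C > 0` such that for `0 < t ≤ 1/8`, `T ≥ 2` at most the proportion `C exp (-c t log² T)` of the zeros of `Λ_t`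
with imaginary part in `(T, 2T]`, counted with multiplicity, are off the line `Re s = 1` or multiple, and the
number of these exceptional zeros is at most `C exp (-c t log² T) T log T`. -/
theorem result {K : Type} [Field K] [NumberField K] (E : WeierstrassCurve K) [E.IsElliptic]
    (W : HeightOneSpectrum (𝓞 K) → WeierstrassCurve (𝓞 K)) (_hW : MinimalModels E W)
    (l : List Newform) (hl : Attached W l) :
    ∃ (A : ℕ) (L Λ : ℂ → ℂ), IsTheCompleted W A L Λ ∧
      (∀ t : ℝ, 0 ≤ t → Differentiable ℂ (heat t Λ)) ∧
      (∀ t T : ℝ, 0 ≤ t → (Zer (heat t Λ) T).Finite) ∧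
      ∃ c C : ℝ, 0 < c ∧ 0 < C ∧ ∀ t T : ℝ, 0 < t → t ≤ 1 / 8 → 2 ≤ T →
        (num (heat t Λ) (Exc (heat t Λ) T) : ℝ) ≤
          C * Real.exp (-(c * t * Real.log T ^ 2)) * num (heat t Λ) (Zer (heat t Λ) T) ∧
        (num (heat t Λ) (Exc (heat t Λ) T) : ℝ) ≤
          C * Real.exp (-(c * t * Real.log T ^ 2)) * T * Real.log T := by
  obtain ⟨A, c, Λ₀, L, hc, hF, h⟩ := exists_el hl
  obtain ⟨h1, h2⟩ := flow1 hF hc (Λ := fun s => c * Λ₀ (s - 1 / 2)) (fun s => rfl)
  exact ⟨A, L, _, h, fun t ht => heat1_diff hF (Λ := fun s => c * Λ₀ (s - 1 / 2)) (fun s => rfl) ht, h1, h2⟩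

end Pool.Agent.Results.MP_fb225e_nt.HeatFlowDensity
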