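import Pool.Agent.Q246.EL.Tr

/-!
# `|Λ(E/K, s)|` grows away from the line at almost all heights, for curves attached to newforms

Let `E` be an elliptic curve over a number field `K` (for the problem: defined over `ℚ`), and suppose that
its L-function `L(E/K, s)` is a product of L-functions of `[K : ℚ]` newforms of weight two, with arbitrary
levels and nebentypus characters.  By modularity this is so for every elliptic curve over `ℚ` and every
abelian number field `K`, of arbitrary conductor (the newforms are the primitive forms of the twists by the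
characters of `K`), for the elliptic curves over `ℚ` with complex multiplication by `F` and all fields `K ⊇ F`
which are abelian over `F` (theta series), for the `ℚ`-curves over suitable fields.
Let `Λ(s) = A^(s/2) ((2π)^(-s) Γ(s))^[K : ℚ] L(E/K, s)`.

The Riemann hypothesis for `L(E/K, s)` is equivalent to: for every real `t` the function
`h ↦ |Λ(1 + h + i t)|` is strictly increasing for `h ≥ 0`.  We prove, without any hypothesis, for EVERY
`c < 1`: for all `r ≥ 0` and `T ≥ 2` the heights `t` in `[0, T]` at which it is not strictly increasing on the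
half-line `h ≥ r / log T` form a set of measure at most `C e^(-c r) T`.

Proof: a zero `1 + β + i γ` of `Λ` disturbs the growth only for `|t - γ| < |β|` (Hadamard product,
`Pool.Agent.Q246.NC.Had`), and the zeros with `|β| > r / log T` are few by the density theorem of
`Pool.Agent.Results.MP_fb225e_nt.ZeroDensity`.
-/
set_option autoImplicit false

open Complex NumberField IsDedekindDomain
open Pool.Agent.Q246.EL

namespace Pool.Agent.Results.MP_fb225e_nt.HorizontalGrowth

/-- The heights `t` in `[0, T]` at which `h ↦ |Λ(1 + h + i t)|` is not strictly increasing on the half-line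
`h ≥ a`. -/
def Bad (Λ : ℂ → ℂ) (a T : ℝ) : Set ℝ :=
  {t : ℝ | 0 ≤ t ∧ t ≤ T ∧ ¬ StrictMonoOn (fun h : ℝ => ‖Λ (1 + h + t * Complex.I)‖) (Set.Ici a)}

/-- **The theorem.** Let `E` be an elliptic curve over a number field `K` such that `L(E/K, s)` is the product of the
L-functions of a list of `[K : ℚ]` newforms of weight two.  Then `L(E/K, s)` and the completed L-function
`Λ = Λ(E/K, s)` exist, are unique, entire, `Λ(2 - s) = ± Λ(s)`; and for every `c < 1` there is `C` such that for all
`r ≥ 0` and `T ≥ 2` the heights `t` in `[0, T]` for which `h ↦ |Λ(1 + h + i t)|` is not strictly increasing on the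
half-line `h ≥ r / log T` form a set of Lebesgue (outer) measure at most `C e^(-c r) T`. -/
theorem result {K : Type} [Field K] [NumberField K] (E : WeierstrassCurve K) [E.IsElliptic]
    (W : HeightOneSpectrum (𝓞 K) → WeierstrassCurve (𝓞 K)) (_hW : MinimalModels E W)
    (l : List Newform) (hl : Attached W l) :
    ∃ (A : ℕ) (L Λ : ℂ → ℂ), IsTheCompleted W A L Λ ∧
      ∀ c : ℝ, c < 1 → ∃ C : ℝ, 0 < C ∧ ∀ r T : ℝ, 0 ≤ r → 2 ≤ T →
        MeasureTheory.volume (Bad Λ (r / Real.log T) T) ≤ ENNReal.ofReal (C * Real.exp (-(c * r)) * T) := by
  obtain ⟨A, c, Λ₀, L, hc, hF, h⟩ := exists_el hl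
  exact ⟨A, L, _, h, fun k hk => grow1 hF hc (Λ := fun s => c * Λ₀ (s - 1 / 2)) (fun s => rfl) hk⟩

end Pool.Agent.Results.MP_fb225e_nt.HorizontalGrowth
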