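import Pool.Agent.Q240.OW.D2

/-!
# The zeros of the derivatives of `L(E/K, s)` to the left of the line `Re s = 1`: a density theorem

Let `E` be an elliptic curve over a number field `K`, and suppose that its L-function `L(E/K, s)` is a product
of L-functions of `[K : ℚ]` newforms of weight two, with arbitrary levels and nebentypus characters.  By
modularity this is so for every elliptic curve over `ℚ` and every abelian number field `K`, for the elliptic
curves over `ℚ` with complex multiplication by `F` and all fields `K ⊇ F` which are abelian over `F`, for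
`ℚ`-curves over suitable fields.

Let `P ≠ 0` be a polynomial, `S` a finite set of reals, and `F(s) = P(d/ds) L(E/K, s) + ∑ c(l) exp(-l s)`, `l` in
`S`, with any complex coefficients: each derivative of `L(E/K, s)`, `L(E/K, s) - a`, and so on.  The Riemann
hypothesis for `L(E/K, s)` implies that `F` has only finitely many zeros with `1/4 ≤ Re s ≤ 1 - δ` for each
`δ > 0` (and if `F` has this property then `L(E/K, s)` has only finitely many zeros with `Re s ≥ 1 + δ` for each
`δ > 0`: see the file `LeftZeros`).  We prove, without any hypothesis, that for all `δ > 0` and `κ < 1` the number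
of the zeros of `F` with `1/4 ≤ Re s ≤ 1 - δ` and `|Im s| ≤ T`, counted with multiplicity, is at most
`C T^(1 - κ δ)`.

Idea: at large height each zero of `F` to the left is near a zero of `L` which is to the left of the line by
almost the same amount (modules `Pool.Agent.Q240.GS`, `Pool.Agent.Q240.OW`, as in the file `LeftZeros`); in the
neighbourhood of such a zero of `L` there are at most `O(log T)` zeros of `F` (Jensen's formula); and the zeros of
`L` off the line are rare (zero density theorem with the exponent `κ < 1`, modules `Pool.Agent.Q246`).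
-/

set_option autoImplicit false

open Complex NumberField IsDedekindDomain Polynomial
open Pool.Agent.Q246.EL

namespace Pool.Agent.Results.MP_fb225e_nt.LeftDensity

/-- `F(s) = P(d/ds) L(s) + ∑ c(l) exp(-l s)`, the sum over the finite set `S` of reals. -/
noncomputable def F (L : ℂ → ℂ) (P : ℂ[X]) (S : Finset ℝ) (c : ℝ → ℂ) (s : ℂ) : ℂ :=
  ∑ i ∈ Finset.range (P.natDegree + 1), P.coeff i * iteratedDeriv i L s + ∑ l ∈ S, c l * cexp (-(l * s))

/-- The zeros of `G` with `1/4 ≤ Re s ≤ 1 - δ` and `|Im s| ≤ T`. -/
def Left (G : ℂ → ℂ) (δ T : ℝ) : Set ℂ := {s | G s = 0 ∧ 1 / 4 ≤ s.re ∧ s.re ≤ 1 - δ ∧ |s.im| ≤ T}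

/-- The number of points of `A`, each counted with its multiplicity as a zero of `G`. -/
noncomputable def num (G : ℂ → ℂ) (A : Set ℂ) : ℕ := ∑ᶠ s ∈ A, analyticOrderNatAt G s

/-- **The theorem.** -/
theorem result {K : Type} [Field K] [NumberField K] (E : WeierstrassCurve K) [E.IsElliptic]
    (W : HeightOneSpectrum (𝓞 K) → WeierstrassCurve (𝓞 K)) (_hW : MinimalModels E W)
    (l : List Newform) (hl : Attached W l) :
    ∃ (A : ℕ) (L Λ : ℂ → ℂ), IsTheCompleted W A L Λ ∧
      ∀ (P : ℂ[X]) (S : Finset ℝ) (c : ℝ → ℂ), P ≠ 0 →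
        (∀ δ T : ℝ, (Left (F L P S c) δ T).Finite) ∧
        ∀ κ δ : ℝ, κ < 1 → 0 < δ → ∃ C : ℝ, ∀ T : ℝ, 2 ≤ T →
          (num (F L P S c) (Left (F L P S c) δ T) : ℝ) ≤ C * T ^ (1 - κ * δ) :=
  Q240.OW.left_attached hl

end Pool.Agent.Results.MP_fb225e_nt.LeftDensity
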