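import Pool.Agent.Q240.OW.K3
import Pool.Agent.Q240.OW.K5

/-!
# Zeros of `L(E/K, s)` off the critical line and zeros of differential polynomials to the left of it

Let `E` be an elliptic curve over a number field `K`, `L(E/K, s)` its Hasse-Weil L-function, `A` its conductor and
`q(t) = A (1 + |t|)^(2 [K : ℚ])` its analytic conductor at the height `t`.  Let `P` be a nonzero polynomial, `S` a
finite set of reals, and

  `F(s) = P(d/ds) L(E/K, s) + ∑ c(l) exp(-l s)`, `l` in `S`, with coefficients bounded by `B`: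

each derivative of `L(E/K, s)`, `L(E/K, s) - a`, `L(E/K, s)` minus finitely many terms of its Dirichlet series,
and so on.  For the Riemann zeta function Speiser's theorem says that the Riemann hypothesis is equivalent to
the absence of zeros of the derivative to the left of the critical line.

We prove, for all elliptic curves over all number fields of degree at most `d` whose L-functions have the
properties conjectured by Hasse and Weil (entire, finite order, functional equation), uniformly in `K`, in `E`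
and in the height, wherever `q(t)` is large: the zeros of any two such functions `F` and `G` to the left of
the critical line `Re s = 1`, at a distance at least `ε` from it, are at bounded distance from each other.  For
`G = L(E/K, s)` these are the zeros off the line.  So, for a set of pairs `(E, K)` with `[K : ℚ] ≤ d` the
Riemann hypothesis up to `ε` holds, with the exception of bounded `q`, if and only if `F` has no zeros with
`1/4 ≤ Re s ≤ 1 - ε`, with the same kind of exception; and the same for each line `Re s = β`, `β ≤ 1`.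

Nothing else is assumed: that `L(E/K, s)` has no zeros with `Re s > 3/2` is derived here from Hasse's inequality
(starting module `Pool.Agent.H341R2`).  The Euler factors enter the uniform constants only through the trivial
bound `|a_v| ≤ Nv` for `Re s ≥ 5/2`.

Proof: modules `Pool.Agent.Q240.GS` (the shadow method) and `Pool.Agent.Q240.OW` (a class of L-functions which
needs no coefficients, only the functional equation, no zeros for `Re s > 1` and two-sided bounds for
`Re s ≥ 2`, and the proof that L-functions of elliptic curves over number fields belong to it), with the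
starting modules `Pool.Agent.TH839.UH`, `Pool.Agent.W355.UN`, `Pool.Agent.W12.UN`, `Pool.Agent.W215.UN` for the
Euler product, growth and gamma factors.
-/

set_option autoImplicit false

open Complex NumberField IsDedekindDomain Polynomial
open scoped ComplexConjugate

namespace Pool.Agent.Results.MP_fb225e_nt.LeftZeros

/-! ### Hasse-Weil L-functions of elliptic curves over number fields -/

/-- `W v` is, for every finite place `v`, an integral model of `E` with discriminant minimal at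
`v`. -/
def MinimalModels {K : Type} [Field K] [NumberField K] (E : WeierstrassCurve K)
    (W : HeightOneSpectrum (𝓞 K) → WeierstrassCurve (𝓞 K)) : Prop :=
  ∀ v : HeightOneSpectrum (𝓞 K),
    (∃ C : WeierstrassCurve.VariableChange K, C • (W v).map (algebraMap (𝓞 K) K) = E) ∧
    ∀ W' : WeierstrassCurve (𝓞 K),
      (∃ C : WeierstrassCurve.VariableChange K, C • W'.map (algebraMap (𝓞 K) K) = E) →
      ∀ n : ℕ, (W v).Δ ∈ v.asIdeal ^ n → W'.Δ ∈ v.asIdeal ^ n

open Classical in
/-- The Euler factor at `v`, `(1 - a_v Nv^{-s} + Nv^{1-2s})⁻¹` if the reduction at `v` is good and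
`(1 - a_v Nv^{-s})⁻¹` if it is bad, where `a_v` is `Nv` minus the number of affine points of the
reduction of `W v`. -/
noncomputable def localFactor {K : Type} [Field K] [NumberField K]
    (W : HeightOneSpectrum (𝓞 K) → WeierstrassCurve (𝓞 K)) (v : HeightOneSpectrum (𝓞 K))
    (s : ℂ) : ℂ :=
  (1 - ((Ideal.absNorm v.asIdeal : ℂ)
        - (Nat.card {xy : (𝓞 K ⧸ v.asIdeal) × (𝓞 K ⧸ v.asIdeal) //
            ((W v).map (Ideal.Quotient.mk v.asIdeal)).toAffine.Equation xy.1 xy.2} : ℂ))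
        * (Ideal.absNorm v.asIdeal : ℂ) ^ (-s)
    + (if (W v).Δ ∈ v.asIdeal then 0 else (Ideal.absNorm v.asIdeal : ℂ))
        * (Ideal.absNorm v.asIdeal : ℂ) ^ (-2 * s))⁻¹

/-- The `L`-function `L(E/K, s)` in the half-plane of convergence, as the Euler product over all
finite places. -/
noncomputable def LSeries {K : Type} [Field K] [NumberField K]
    (W : HeightOneSpectrum (𝓞 K) → WeierstrassCurve (𝓞 K)) (s : ℂ) : ℂ :=
  ∏' v : HeightOneSpectrum (𝓞 K), localFactor W v s

/-- `Λ` is the completed L-function `A^(s/2) ((2π)^(-s) Γ(s))^[K : ℚ] L(E/K, s)`, and it has the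
properties conjectured by Hasse and Weil: it is entire, of finite order, and `Λ(s) = ± Λ(2 - s)`. -/
structure HasseWeil {K : Type} [Field K] [NumberField K]
    (W : HeightOneSpectrum (𝓞 K) → WeierstrassCurve (𝓞 K)) (A : ℝ) (Λ : ℂ → ℂ) : Prop where
  one_le : 1 ≤ A
  entire : Differentiable ℂ Λ
  order : ∃ c ρ : ℝ, ∀ s : ℂ, ‖Λ s‖ ≤ Real.exp (c * (1 + ‖s‖) ^ ρ)
  fe : ∃ w : ℝ, (w = 1 ∨ w = -1) ∧ ∀ s : ℂ, Λ s = w * Λ (2 - s)
  eq : ∃ σ : ℝ, ∀ s : ℂ, σ ≤ s.re → Λ s = (A : ℂ) ^ (s / 2) *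
    ((2 * (Real.pi : ℂ)) ^ (-s) * Gamma s) ^ Module.finrank ℚ K * LSeries W s

/-- An elliptic curve `E` over a number field `K` (for the problem: defined over `ℚ`), with minimal models, the
conductor `A` of its L-function and the completed L-function `Λ`, with the properties conjectured by Hasse and
Weil. -/
structure Curve where
  /-- the number field -/
  K : Type
  [field : Field K]
  [numberField : NumberField K]
  /-- the elliptic curve -/
  E : WeierstrassCurve K
  [elliptic : E.IsElliptic]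
  /-- minimal models -/
  W : HeightOneSpectrum (𝓞 K) → WeierstrassCurve (𝓞 K)
  minimal : MinimalModels E W
  /-- the conductor -/
  A : ℝ
  /-- the completed L-function -/
  Λ : ℂ → ℂ
  hasseWeil : HasseWeil W A Λ

attribute [instance] Curve.field Curve.numberField Curve.elliptic

/-- The degree of the number field. -/
noncomputable def Curve.deg (X : Curve) : ℕ := Module.finrank ℚ X.K

/-- The L-function `L(E/K, s) = (A^(s/2) ((2π)^(-s) Γ(s))^[K : ℚ])⁻¹ Λ(s)`, an entire function. -/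
noncomputable def L (X : Curve) (s : ℂ) : ℂ :=
  ((X.A : ℂ) ^ (s / 2) * ((2 * (Real.pi : ℂ)) ^ (-s) * Gamma s) ^ X.deg)⁻¹ * X.Λ s

/-- `F(s) = P(d/ds) L(E/K, s) + ∑ c(l) exp(-l s)`, the sum over the finite set `S` of reals. -/
noncomputable def F (X : Curve) (P : ℂ[X]) (S : Finset ℝ) (c : ℝ → ℂ) (s : ℂ) : ℂ :=
  ∑ i ∈ Finset.range (P.natDegree + 1), P.coeff i * iteratedDeriv i (L X) s + ∑ l ∈ S, c l * cexp (-(l * s))

/-- The analytic conductor `A (1 + |t|)^(2 [K : ℚ])` at the height `t`. -/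
noncomputable def cond (X : Curve) (t : ℝ) : ℝ := X.A * (1 + |t|) ^ (2 * X.deg)

open Q240.OW Q240.GS Pool.Agent.TH839.UH

lemma wl (X : Curve) {d : ℕ} (hd : X.deg ≤ d) :
    WL (Real.exp (d * NF.B0)) X.A (mu X.deg) (sdk X.deg X.A X.Λ) := by
  classical
  have h := X.hasseWeil
  have hk : KL
      (fun v : HeightOneSpectrum (𝓞 X.K) => ((Ideal.absNorm v.asIdeal : ℂ)
        - (Nat.card {xy : (𝓞 X.K ⧸ v.asIdeal) × (𝓞 X.K ⧸ v.asIdeal) //
          ((X.W v).map (Ideal.Quotient.mk v.asIdeal)).toAffine.Equation xy.1 xy.2} : ℂ)))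
      (fun v => if (X.W v).Δ ∈ v.asIdeal then 0 else (Ideal.absNorm v.asIdeal : ℂ)) X.A X.Λ := by
    refine ⟨fun v => trace_le v _, fun v => ?_, fun v => ?_, fun v => ?_,
      h.one_le, h.entire, h.order, h.fe, ?_⟩
    · show ‖(if (X.W v).Δ ∈ v.asIdeal then 0 else (Ideal.absNorm v.asIdeal : ℂ))‖ ≤
        ((Ideal.absNorm v.asIdeal : ℕ) : ℝ)
      split_ifs
      · rw [norm_zero]
        exact Nat.cast_nonneg _
      · rw [Complex.norm_natCast]
    · show conj ((Ideal.absNorm v.asIdeal : ℂ) - ((_ : ℕ) : ℂ)) = _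
      rw [map_sub, Complex.conj_natCast, Complex.conj_natCast]
    · show conj (if (X.W v).Δ ∈ v.asIdeal then 0 else (Ideal.absNorm v.asIdeal : ℂ)) = _
      split_ifs
      · rw [map_zero]
      · rw [Complex.conj_natCast]
    · obtain ⟨σ, hσ⟩ := h.eq
      refine ⟨σ, fun s hs => ?_⟩
      rw [hσ s hs]
      congr 1
      unfold LSeries EL
      refine tprod_congr fun v => ?_
      unfold localFactor NF.gv Pool.Agent.H921R2.TatePole.nm
      congr 1
      ring
  have h1 := wl_of_KL hk (fun s hs => KL.nz hk (trace_finite X.W) hs)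
  refine h1.mono (Real.exp_le_exp.2 ?_)
  exact mul_le_mul_of_nonneg_right (by exact_mod_cast hd) NF.B0_nonneg

lemma deg_pos (X : Curve) : 1 ≤ X.deg := Module.finrank_pos

/-- **Main theorem.** Let `d` be a natural number, `P`, `Q` nonzero polynomials, `S`, `R` finite sets of reals,
`B ≥ 0` and `β ≤ 1` (`β = 1` is the critical line).
(1) For every `ε > 0` there is `X` such that for all elliptic curves `E` over number fields `K` of degree at most
`d` and all coefficients bounded by `B`: if `F = P(d/ds) L(E/K, s) + ∑ c(l) exp(-l s)` has a zero `ρ` with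
`1/4 ≤ Re ρ ≤ β - ε` and analytic conductor `A (1 + |Im ρ|)^(2 [K : ℚ]) ≥ X`, then
`G = Q(d/ds) L(E/K, s) + ∑ c'(l) exp(-l s)` has a zero `s` with `1/4 < Re s < β` and `|Im s - Im ρ| ≤ X`.
(2) The same for the zeros `s` of `Λ` with `|Re s - 1| > 1 - β` in place of the zeros of `G`.
(3) If `Λ(ρ) = 0`, `|Re ρ - 1| ≥ 1 - β + ε` and the analytic conductor at `Im ρ` is at least `X`, then `F` has a
zero `s` with `1/4 < Re s < β`, `|Im s - Im ρ| ≤ X`.
(4) For every set of curves over number fields of degree at most `d`, and coefficients depending on the curve: the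
zeros of `Λ` satisfy `|Re ρ - 1| < 1 - β + ε` if the analytic conductor is larger than a constant (depending on
`ε`), for each `ε > 0`, if and only if the zeros of `F` with `Re ρ ≥ 1/4` satisfy `Re ρ > β - ε` if the analytic
conductor is larger than a constant, for each `ε > 0`. -/
theorem result (d : ℕ) (P Q : ℂ[X]) (hP : P ≠ 0) (hQ : Q ≠ 0) (S R : Finset ℝ) (B β : ℝ) (hB : 0 ≤ B)
    (hβ : β ≤ 1) :
    (∀ ε : ℝ, 0 < ε → ∃ X : ℝ, ∀ (E : Curve), E.deg ≤ d → ∀ (c c' : ℝ → ℂ), (∀ l ∈ S, ‖c l‖ ≤ B) →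
      (∀ l ∈ R, ‖c' l‖ ≤ B) → ∀ ρ : ℂ, X ≤ cond E ρ.im → F E P S c ρ = 0 → 1 / 4 ≤ ρ.re → ρ.re ≤ β - ε →
        ∃ s : ℂ, F E Q R c' s = 0 ∧ 1 / 4 < s.re ∧ s.re < β ∧ |s.im - ρ.im| ≤ X) ∧
    (∀ ε : ℝ, 0 < ε → ∃ X : ℝ, ∀ (E : Curve), E.deg ≤ d → ∀ (c : ℝ → ℂ), (∀ l ∈ S, ‖c l‖ ≤ B) →
      ∀ ρ : ℂ, X ≤ cond E ρ.im → F E P S c ρ = 0 → 1 / 4 ≤ ρ.re → ρ.re ≤ β - ε →
        ∃ s : ℂ, E.Λ s = 0 ∧ 1 - β < |s.re - 1| ∧ |s.im - ρ.im| ≤ X) ∧
    (∀ ε : ℝ, 0 < ε → ∃ X : ℝ, ∀ (E : Curve), E.deg ≤ d → ∀ (c : ℝ → ℂ), (∀ l ∈ S, ‖c l‖ ≤ B) →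
      ∀ ρ : ℂ, X ≤ cond E ρ.im → E.Λ ρ = 0 → 1 - β + ε ≤ |ρ.re - 1| →
        ∃ s : ℂ, F E P S c s = 0 ∧ 1 / 4 < s.re ∧ s.re < β ∧ |s.im - ρ.im| ≤ X) ∧
    (∀ (Fam : Curve → Prop) (c : Curve → ℝ → ℂ), (∀ E, Fam E → E.deg ≤ d) → (∀ E, ∀ l ∈ S, ‖c E l‖ ≤ B) →
      ((∀ ε : ℝ, 0 < ε → ∃ X : ℝ, ∀ E : Curve, Fam E → ∀ ρ : ℂ, E.Λ ρ = 0 → X ≤ cond E ρ.im →
        |ρ.re - 1| < 1 - β + ε) ↔
      (∀ ε : ℝ, 0 < ε → ∃ X : ℝ, ∀ E : Curve, Fam E → ∀ ρ : ℂ, F E P S (c E) ρ = 0 → X ≤ cond E ρ.im →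
        1 / 4 ≤ ρ.re → β - ε < ρ.re))) := by
  have hM0 : 1 ≤ Real.exp (d * NF.B0) := Real.one_le_exp (mul_nonneg (Nat.cast_nonneg d) NF.B0_nonneg)
  refine ⟨fun ε hε => ?_, fun ε hε => ?_, fun ε hε => ?_, fun Fam c hd hc => ?_⟩
  · obtain ⟨X, -, H⟩ := shadow_d d hM0 P Q hP hQ S R B β ε hB hβ hε
    exact ⟨X, fun E hE c c' hc hc' ρ hX hρ k1 k2 =>
      H E.deg E.A E.Λ (deg_pos E) hE (wl E hE) c c' hc hc' ρ hX hρ k1 k2⟩
  · obtain ⟨X, -, H⟩ := toL d hM0 P hP S B β ε hB hβ hε
    refine ⟨X, fun E hE c hc ρ hX hρ k1 k2 => ?_⟩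
    obtain ⟨s, s1, s2, s3, s4⟩ := H E.deg E.A E.Λ (deg_pos E) hE (wl E hE) c hc ρ hX hρ k1 k2
    refine ⟨s, s1, ?_, s4⟩
    rw [abs_sub_comm, abs_of_pos (by linarith)]
    linarith
  · obtain ⟨X, -, H⟩ := ofL d hM0 P hP S B β ε hB hβ hε
    exact ⟨X, fun E hE c hc ρ hX hρ k1 =>
      H E.deg E.A E.Λ (deg_pos E) hE (wl E hE) c hc ρ hX hρ k1⟩
  · have key := both_d d hM0 P hP S B β hB hβ (ι := {E : Curve // Fam E}) (fun E => E.1.deg) (fun E => E.1.A)
      (fun E => E.1.Λ) (fun E => deg_pos E.1) (fun E => hd E.1 E.2) (fun E => wl E.1 (hd E.1 E.2))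
      (fun E => c E.1) (fun E => hc E.1)
    constructor
    · intro h ε hε
      obtain ⟨X, hX⟩ := key.1 (fun ε hε => by
        obtain ⟨X, hX⟩ := h ε hε
        exact ⟨X, fun E ρ hρ hfar => hX E.1 E.2 ρ hρ hfar⟩) ε hε
      exact ⟨X, fun E hE ρ hρ hfar k1 => hX ⟨E, hE⟩ ρ hρ hfar k1⟩
    · intro h ε hε
      obtain ⟨X, hX⟩ := key.2 (fun ε hε => by
        obtain ⟨X, hX⟩ := h ε hε
        exact ⟨X, fun E ρ hρ hfar k1 => hX E.1 E.2 ρ hρ hfar k1⟩) ε hε
      exact ⟨X, fun E hE ρ hρ hfar => hX ⟨E, hE⟩ ρ hρ hfar⟩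

end Pool.Agent.Results.MP_fb225e_nt.LeftZeros
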