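import Pool.Agent.Q260.DS.AllP
import Pool.Agent.Q240.OW.K3
import Pool.Agent.Q240.OW.K5

/-!
# One derivative of `Λ(E/K, s)` decides the Riemann hypothesis up to `ε`

Let `E` run through the elliptic curves over all number fields `K` of degree `n`, whose L-functions have the properties
conjectured by Hasse and Weil (entire, finite order, functional equation `Λ(s) = ± Λ(2 - s)`), `A` the conductor of
`L(E/K, s)` and `q(t) = A (1 + |t|)^(2n)` the analytic conductor at the height `t`.  Let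
`F = (d/ds - c_1) ⋯ (d/ds - c_k) Λ` with real `c_i`, `|c_i| ≤ M`; for `c_i = 0` this is the derivative `Λ^(k)`, whose
zeros are closer to the critical line than those of `Λ`, and lie on it under the Riemann hypothesis.

We prove, uniformly in `K`, in `E` and at all real heights (also near the central point, if `A` is large): a zero of
`Λ` with real part `≥ σ + ε`, `σ ≥ 1`, forces a zero of `F` with real part `> σ` within `C log q`, and conversely within
`4k`.  So for every set of such curves the Riemann hypothesis up to `ε` (as `q → ∞`) holds for ONE derivative `Λ^(k)`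
if and only if it holds for `Λ`.  If for the curves in the set `F` has no zeros to the right of the critical line (at
the heights where `q ≥ X`), then all zeros `β + iγ` of `Λ` satisfy `|β - 1| ≤ C logloglog q / loglog q`, all zeros
`1 + it` have multiplicity at most `C log q logloglog q / loglog q` (for `t = 0` this is a bound for the analytic rank),
and `|L(1 + it)| ≤ q^ε` for large `q`.

Idea: if `G = F' - c F` has no zeros to the right of `σ` near height `T`, then `log |G / gamma factor|` is `o(log q)` there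
(Borel-Caratheodory, three circles).  By integration along the VERTICAL ray upwards (the gamma factor decays
exponentially, so only heights up to `T + K log q` matter) `F` is not larger than `q^(o(1))` times the gamma factor.
Then the differential equation `u' = 1 - (q - c) u` for `u = F / G` shows along horizontal lines that `F` has no
zeros a little further to the right.
-/

set_option autoImplicit false

open Complex NumberField IsDedekindDomain
open scoped ComplexConjugate

namespace Pool.Agent.Results.MP_fb225e_nt.OneDerivativeDecides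

/-! ### Hasse-Weil L-functions of elliptic curves over number fields -/

/-- `W v` is, for every finite place `v`, an integral model of `E` with discriminant minimal at
`v`. -/
def MinimalModels {K : Type} [Field K] [NumberField K] (E : WeierstrassCurve K)
    (W : HeightOneSpectrum (𝓞 K) → WeierstrassCurve (𝓞 K)) : Prop :=
  ∀ v : HeightOneSpectrum (𝓞 K),
    (∃ C : WeierstrassCurve.VariableChange K, C • (W v).map (algebraMap (𝓞 K) K) = E) ∧
    ∀ W' : WeierstrassCurve (𝓞 K),
      (∃ C : WeierstrassCurve.VariableChange K, C • W'.map (algebraMap (𝓞 K) K) = E) →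
      ∀ n : ℕ, (W v).Δ ∈ v.asIdeal ^ n → W'.Δ ∈ v.asIdeal ^ n

open Classical in
/-- The Euler factor at `v`, `(1 - a_v Nv^{-s} + Nv^{1-2s})⁻¹` if the reduction at `v` is good and
`(1 - a_v Nv^{-s})⁻¹` if it is bad, where `a_v` is `Nv` minus the number of affine points of the
reduction of `W v`. -/
noncomputable def localFactor {K : Type} [Field K] [NumberField K]
    (W : HeightOneSpectrum (𝓞 K) → WeierstrassCurve (𝓞 K)) (v : HeightOneSpectrum (𝓞 K))
    (s : ℂ) : ℂ :=
  (1 - ((Ideal.absNorm v.asIdeal : ℂ)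
        - (Nat.card {xy : (𝓞 K ⧸ v.asIdeal) × (𝓞 K ⧸ v.asIdeal) //
            ((W v).map (Ideal.Quotient.mk v.asIdeal)).toAffine.Equation xy.1 xy.2} : ℂ))
        * (Ideal.absNorm v.asIdeal : ℂ) ^ (-s)
    + (if (W v).Δ ∈ v.asIdeal then 0 else (Ideal.absNorm v.asIdeal : ℂ))
        * (Ideal.absNorm v.asIdeal : ℂ) ^ (-2 * s))⁻¹

/-- The `L`-function `L(E/K, s)` in the half-plane of convergence, as the Euler product over all
finite places. -/
noncomputable def LSeries {K : Type} [Field K] [NumberField K]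
    (W : HeightOneSpectrum (𝓞 K) → WeierstrassCurve (𝓞 K)) (s : ℂ) : ℂ :=
  ∏' v : HeightOneSpectrum (𝓞 K), localFactor W v s

/-- `Λ` is the completed L-function `A^(s/2) ((2π)^(-s) Γ(s))^[K : ℚ] L(E/K, s)`, and it has the
properties conjectured by Hasse and Weil: it is entire, of finite order, and `Λ(s) = ± Λ(2 - s)`. -/
structure HasseWeil {K : Type} [Field K] [NumberField K]
    (W : HeightOneSpectrum (𝓞 K) → WeierstrassCurve (𝓞 K)) (A : ℝ) (Λ : ℂ → ℂ) : Prop where
  one_le : 1 ≤ A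
  entire : Differentiable ℂ Λ
  order : ∃ c ρ : ℝ, ∀ s : ℂ, ‖Λ s‖ ≤ Real.exp (c * (1 + ‖s‖) ^ ρ)
  fe : ∃ w : ℝ, (w = 1 ∨ w = -1) ∧ ∀ s : ℂ, Λ s = w * Λ (2 - s)
  eq : ∃ σ : ℝ, ∀ s : ℂ, σ ≤ s.re → Λ s = (A : ℂ) ^ (s / 2) *
    ((2 * (Real.pi : ℂ)) ^ (-s) * Gamma s) ^ Module.finrank ℚ K * LSeries W s

/-- An elliptic curve `E` over a number field `K` (for the problem: defined over `ℚ`), with minimal models, the
conductor `A` of its L-function and the completed L-function `Λ`, with the properties conjectured by Hasse and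
Weil. -/
structure Curve where
  /-- the number field -/
  K : Type
  [field : Field K]
  [numberField : NumberField K]
  /-- the elliptic curve -/
  E : WeierstrassCurve K
  [elliptic : E.IsElliptic]
  /-- minimal models -/
  W : HeightOneSpectrum (𝓞 K) → WeierstrassCurve (𝓞 K)
  minimal : MinimalModels E W
  /-- the conductor -/
  A : ℝ
  /-- the completed L-function -/
  Λ : ℂ → ℂ
  hasseWeil : HasseWeil W A Λ

attribute [instance] Curve.field Curve.numberField Curve.elliptic

/-- The degree of the number field. -/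
noncomputable def Curve.deg (X : Curve) : ℕ := Module.finrank ℚ X.K

/-- The L-function `L(E/K, s) = (A^(s/2) ((2π)^(-s) Γ(s))^[K : ℚ])⁻¹ Λ(s)`, an entire function. -/
noncomputable def L (X : Curve) (s : ℂ) : ℂ :=
  ((X.A : ℂ) ^ (s / 2) * ((2 * (Real.pi : ℂ)) ^ (-s) * Gamma s) ^ X.deg)⁻¹ * X.Λ s

/-- The analytic conductor `q(t) = A (1 + |t|)^(2 [K : ℚ])` at the height `t`. -/
noncomputable def q (X : Curve) (t : ℝ) : ℝ := X.A * (1 + |t|) ^ (2 * X.deg)

/-- `(d/ds - c_1) ⋯ (d/ds - c_k) f`. -/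
noncomputable def Dif (f : ℂ → ℂ) : List ℝ → ℂ → ℂ
  | [] => f
  | c :: cs => fun s => deriv (Dif f cs) s - (c : ℂ) * Dif f cs s

/-- For `c_1 = ... = c_k = 0` this is the `k`-th derivative. -/
theorem Dif_zero (f : ℂ → ℂ) (k : ℕ) : Dif f (List.replicate k 0) = iteratedDeriv k f := by
  induction k with
  | zero => rw [List.replicate_zero, iteratedDeriv_zero]; rfl
  | succ k ih =>
    rw [List.replicate_succ, iteratedDeriv_succ, ← ih]
    funext s
    show deriv (Dif f (List.replicate k 0)) s - ((0 : ℝ) : ℂ) * _ = _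
    rw [ofReal_zero, zero_mul, sub_zero]

/-- A list of `k` real numbers bounded by `M`. -/
def Shifts (M : ℝ) (k : ℕ) (cs : List ℝ) : Prop := cs.length = k ∧ ∀ c ∈ cs, |c| ≤ M

/-- For the functions `Z E`, `E` in `Fam`: for every `ε > 0` all zeros with `Re s ≤ 3`, at the heights where the
analytic conductor is large, satisfy `Re s < θ + ε`. -/
def ZerosUpTo (Fam : Curve → Prop) (Z : Curve → ℂ → ℂ) (θ : ℝ) : Prop :=
  ∀ ε : ℝ, 0 < ε → ∃ X : ℝ, ∀ E : Curve, Fam E → ∀ s : ℂ, Z E s = 0 → X ≤ q E s.im → s.re ≤ 3 → s.re < θ + ε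

/-- The Lindelof bound for the curves in `Fam`. -/
def Lindelof (Fam : Curve → Prop) : Prop :=
  ∀ ε : ℝ, 0 < ε → ∃ X : ℝ, ∀ E : Curve, Fam E → ∀ t : ℝ, X ≤ q E t → ‖L E (1 + t * I)‖ ≤ q E t ^ ε

/-- The rate `logloglog q / loglog q`. -/
noncomputable def rate (q : ℝ) : ℝ := Real.log (Real.log (Real.log q)) / Real.log (Real.log q)

open Q240.OW Q240.GS Pool.Agent.TH839.UH Pool.Agent.Q260.DS
open Pool.Agent.W169.HF hiding cnd

lemma wl (X : Curve) {d : ℕ} (hd : X.deg ≤ d) :
    WL (Real.exp (d * NF.B0)) X.A (mu X.deg) (sdk X.deg X.A X.Λ) := by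
  classical
  have h := X.hasseWeil
  have hk : KL
      (fun v : HeightOneSpectrum (𝓞 X.K) => ((Ideal.absNorm v.asIdeal : ℂ)
        - (Nat.card {xy : (𝓞 X.K ⧸ v.asIdeal) × (𝓞 X.K ⧸ v.asIdeal) //
          ((X.W v).map (Ideal.Quotient.mk v.asIdeal)).toAffine.Equation xy.1 xy.2} : ℂ)))
      (fun v => if (X.W v).Δ ∈ v.asIdeal then 0 else (Ideal.absNorm v.asIdeal : ℂ)) X.A X.Λ := by
    refine ⟨fun v => trace_le v _, fun v => ?_, fun v => ?_, fun v => ?_,
      h.one_le, h.entire, h.order, h.fe, ?_⟩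
    · show ‖(if (X.W v).Δ ∈ v.asIdeal then 0 else (Ideal.absNorm v.asIdeal : ℂ))‖ ≤
        ((Ideal.absNorm v.asIdeal : ℕ) : ℝ)
      split_ifs
      · rw [norm_zero]
        exact Nat.cast_nonneg _
      · rw [Complex.norm_natCast]
    · show conj ((Ideal.absNorm v.asIdeal : ℂ) - ((_ : ℕ) : ℂ)) = _
      rw [map_sub, Complex.conj_natCast, Complex.conj_natCast]
    · show conj (if (X.W v).Δ ∈ v.asIdeal then 0 else (Ideal.absNorm v.asIdeal : ℂ)) = _
      split_ifs
      · rw [map_zero]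
      · rw [Complex.conj_natCast]
    · obtain ⟨σ, hσ⟩ := h.eq
      refine ⟨σ, fun s hs => ?_⟩
      rw [hσ s hs]
      congr 1
      unfold LSeries EL
      refine tprod_congr fun v => ?_
      unfold localFactor NF.gv Pool.Agent.H921R2.TatePole.nm
      congr 1
      ring
  have h1 := wl_of_KL hk (fun s hs => KL.nz hk (trace_finite X.W) hs)
  refine h1.mono (Real.exp_le_exp.2 ?_)
  exact mul_le_mul_of_nonneg_right (by exact_mod_cast hd) NF.B0_nonneg

lemma deg_pos (X : Curve) : 1 ≤ X.deg := Module.finrank_pos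


section

variable {n : ℕ} {M0 : ℝ}

lemma wpE (E : Curve) (hE : E.deg = n) : WP 0 (Real.exp (n * NF.B0)) E.A (mu n) (XX E.A (sdk n E.A E.Λ)) := by
  have h := wl E hE.le
  rw [hE] at h
  exact wp_of_wl h

lemma A_pos (E : Curve) : 0 < E.A := by linarith [E.hasseWeil.one_le]

lemma dif_eq (f : ℂ → ℂ) (cs : List ℝ) : Dif f cs = It f cs := by
  induction cs with
  | nil => rfl
  | cons c cs ih =>
    funext s
    show deriv (Dif f cs) s - (c : ℂ) * Dif f cs s = deriv (It f cs) s - (c : ℂ) * It f cs s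
    rw [ih]

lemma q_eq (E : Curve) (hE : E.deg = n) (t : ℝ) : q E t = cdk n E.A t := by
  unfold q cdk
  rw [hE]

lemma q_one (E : Curve) (hE : E.deg = n) (t : ℝ) : 1 ≤ q E t := by
  rw [q_eq E hE]
  exact cdk_one E.hasseWeil.one_le t

lemma q_log (E : Curve) (hE : E.deg = n) (t : ℝ) : Real.log (q E t) ≤ Real.log (cnd E.A (mu n) t) ∧
    Real.log (cnd E.A (mu n) t) ≤ Real.log (q E t) + 3 * n := by
  rw [q_eq E hE]
  exact log_cdk E.hasseWeil.one_le t

lemma ge_log (E : Curve) {C t : ℝ} (h : Real.exp C ≤ q E t) : C ≤ Real.log (q E t) := by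
  have := Real.log_le_log (Real.exp_pos _) h
  rwa [Real.log_exp] at this

/-- the constant between the two normalisations -/
noncomputable def kk (n : ℕ) (A : ℝ) : ℂ := ((2 ^ n * A ^ (-(1 / 4 : ℝ)) : ℝ) : ℂ)

lemma kk_ne (n : ℕ) {A : ℝ} (hA : 0 < A) : kk n A ≠ 0 := cst_ne hA

lemma XX_eq (n : ℕ) {A : ℝ} (hA : 0 < A) (Λ : ℂ → ℂ) : XX A (sdk n A Λ) = fun s => kk n A * Λ (s + 1 / 2) := by
  funext s
  unfold XX sdk kk
  rw [← mul_assoc, ← Complex.cpow_add _ _ (by exact_mod_cast hA.ne'), add_neg_cancel, Complex.cpow_zero, one_mul]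

lemma X_zero (n : ℕ) {A : ℝ} (hA : 0 < A) (Λ : ℂ → ℂ) (s : ℂ) : XX A (sdk n A Λ) s = 0 ↔ Λ (s + 1 / 2) = 0 := by
  rw [XX_eq n hA]
  simp only [mul_eq_zero, kk_ne n hA, false_or]

lemma It_zero (n : ℕ) {A : ℝ} (hA : 0 < A) (Λ : ℂ → ℂ) (cs : List ℝ) (s : ℂ) :
    It (XX A (sdk n A Λ)) cs s = 0 ↔ Dif Λ cs (s + 1 / 2) = 0 := by
  rw [XX_eq n hA, It_affine, dif_eq]
  simp only [mul_eq_zero, kk_ne n hA, false_or]

lemma half_re : ((1 / 2 : ℂ)).re = 1 / 2 := by norm_num
lemma half_im : ((1 / 2 : ℂ)).im = 0 := by norm_num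

lemma upTo_iff (Fam : Curve → Prop) (hF : ∀ E, Fam E → E.deg = n) (Z Z' : Curve → ℂ → ℂ)
    (hZ : ∀ E s, Z' E s = 0 ↔ Z E (s + 1 / 2) = 0) (θ : ℝ) : ZerosUpTo Fam Z θ ↔
      UpTo (fun E : {E : Curve // Fam E} => Z' E.1) (fun E => cnd E.1.A (mu n)) (θ - 1 / 2) := by
  constructor
  · intro h ε hε
    obtain ⟨X, hX⟩ := h ε hε
    refine ⟨Real.exp (Real.log (max X 1) + 3 * n), fun E s hs hq hs2 => ?_⟩
    have him : (s + 1 / 2 : ℂ).im = s.im := by rw [add_im, half_im, add_zero]
    have hre : (s + 1 / 2 : ℂ).re = s.re + 1 / 2 := by rw [add_re, half_re]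
    have h1 : Real.log (max X 1) + 3 * n ≤ Real.log (cnd E.1.A (mu n) s.im) := by
      have := Real.log_le_log (Real.exp_pos _) hq
      rwa [Real.log_exp] at this
    have h2 := (q_log E.1 (hF E.1 E.2) s.im).2
    have h3 : X ≤ q E.1 s.im := by
      have h4 : Real.log (max X 1) ≤ Real.log (q E.1 s.im) := by linarith
      exact (le_max_left _ _).trans ((Real.log_le_log_iff (lt_max_of_lt_right one_pos)
        (by linarith [q_one E.1 (hF E.1 E.2) s.im])).1 h4)
    have h5 := hX E.1 E.2 (s + 1 / 2) ((hZ E.1 s).1 hs) (by rw [him]; exact h3) (by rw [hre]; linarith)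
    rw [hre] at h5
    linarith
  · intro h ε hε
    obtain ⟨X, hX⟩ := h ε hε
    refine ⟨Real.exp (Real.log (max X 1)), fun E hE s hs hq hs2 => ?_⟩
    have him : (s - 1 / 2 : ℂ).im = s.im := by rw [sub_im, half_im, sub_zero]
    have hre : (s - 1 / 2 : ℂ).re = s.re - 1 / 2 := by rw [sub_re, half_re]
    have h1 := ge_log E hq
    have h2 := (q_log E (hF E hE) s.im).1
    have h5 := hX ⟨E, hE⟩ (s - 1 / 2) ((hZ E _).2 (by rw [sub_add_cancel]; exact hs))
      (by rw [him]; exact ge_of_log' E.hasseWeil.one_le (h1.trans h2)) (by rw [hre]; linarith)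
    rw [hre] at h5
    linarith

lemma mu_norm (j : Fin (n + n)) : ‖mu n j‖ ≤ 2 := by
  rcases mu_cases j with h | h
  · rw [h]
    norm_num
  · rw [h]
    norm_num

end

/-- `n` is the degree of the number fields, `M` and `k` describe the differential operators.  (1) The dictionary,
uniformly in `K` and `E`.  (2) The Riemann hypothesis up to `ε` (and its analogues for `Re s = θ`) for sets of curves.
(3) If `F` has no zeros to the right of the critical line. -/
theorem result (n : ℕ) (M : ℝ) (k : ℕ) :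
    (∀ ε : ℝ, 0 < ε → ∃ C : ℝ, ∀ (E : Curve) (cs : List ℝ), E.deg = n → Shifts M k cs →
      (∀ (s : ℂ) (σ : ℝ), E.Λ s = 0 → C ≤ q E s.im → 1 ≤ σ → σ + ε ≤ s.re →
        ∃ w : ℂ, Dif E.Λ cs w = 0 ∧ σ < w.re ∧ w.re ≤ 3 ∧ |w.im - s.im| ≤ C * Real.log (q E s.im)) ∧
      (∀ (s : ℂ) (σ : ℝ), Dif E.Λ cs s = 0 → C ≤ q E s.im → 1 ≤ σ → σ + ε ≤ s.re → s.re ≤ 3 →
        ∃ w : ℂ, E.Λ w = 0 ∧ σ < w.re ∧ |w.im - s.im| ≤ 4 * k)) ∧
    (∀ (Fam : Curve → Prop) (cs : Curve → List ℝ) (θ : ℝ), (∀ E, Fam E → E.deg = n) → (∀ E, Shifts M k (cs E)) →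
      1 ≤ θ → (ZerosUpTo Fam (fun E => Dif E.Λ (cs E)) θ ↔ ZerosUpTo Fam (fun E => E.Λ) θ)) ∧
    (∀ (Fam : Curve → Prop) (cs : Curve → List ℝ) (X : ℝ), (∀ E, Fam E → E.deg = n) → (∀ E, Shifts M k (cs E)) →
      (∀ E : Curve, Fam E → ∀ s : ℂ, Dif E.Λ (cs E) s = 0 → X ≤ q E s.im → s.re ≤ 3 → s.re ≤ 1) →
      Lindelof Fam ∧ ∃ C : ℝ, ∀ E : Curve, Fam E →
        (∀ s : ℂ, E.Λ s = 0 → C ≤ q E s.im → |s.re - 1| ≤ C * rate (q E s.im)) ∧
        (∀ (t : ℝ) (r : ℕ), C ≤ q E t → (∀ j < r, iteratedDeriv j E.Λ (1 + t * I) = 0) →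
          (r : ℝ) ≤ C * (Real.log (q E t) * rate (q E t)))) := by
  rcases Nat.eq_zero_or_pos n with hn0 | hn
  · -- there are no number fields of degree zero
    have hno : ∀ E : Curve, E.deg ≠ n := fun E h => by
      have := deg_pos E
      omega
    refine ⟨fun ε _ => ⟨0, fun E cs hE => absurd hE (hno E)⟩, fun Fam cs θ hF _ _ => ?_, fun Fam cs X hF _ _ => ?_⟩
    · constructor
      · exact fun _ ε _ => ⟨0, fun E hE => absurd (hF E hE) (hno E)⟩
      · exact fun _ ε _ => ⟨0, fun E hE => absurd (hF E hE) (hno E)⟩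
    · exact ⟨fun ε _ => ⟨0, fun E hE => absurd (hF E hE) (hno E)⟩, 0, fun E hE => absurd (hF E hE) (hno E)⟩
  have hm : 1 ≤ n + n := by omega
  have hn' : (0 : ℝ) ≤ n := Nat.cast_nonneg n
  have hB : 1 ≤ Real.exp (n * NF.B0) := Real.one_le_exp (mul_nonneg hn' NF.B0_nonneg)
  have hA1 : 1 ≤ max M 1 := le_max_right _ _
  have hli : ∀ cs : List ℝ, Shifts M k cs → Li (max M 1) k cs := fun cs h =>
    ⟨h.1, fun c hc => (h.2 c hc).trans (le_max_left _ _)⟩
  have hmu : ∀ j, ‖mu n j‖ ≤ (2 : ℝ) := mu_norm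
  have hfam : ∀ (Fam : Curve → Prop) (cs : Curve → List ℝ) (θ : ℝ), (∀ E, Fam E → E.deg = n) →
      (∀ E, Shifts M k (cs E)) → 1 ≤ θ →
      (ZerosUpTo Fam (fun E => Dif E.Λ (cs E)) θ ↔ ZerosUpTo Fam (fun E => E.Λ) θ) := by
    intro Fam cs θ hF hcs hθ
    have h := famP_iff (ι := {E : Curve // Fam E}) (N := fun E => E.1.A) (μ := fun _ => mu n)
      (Λ := fun E => XX E.1.A (sdk n E.1.A E.1.Λ)) (cs := fun E => cs E.1) fp hm (by norm_num : (0 : ℝ) ≤ 2) hA1 hB
      (fun E => wpE E.1 (hF E.1 E.2)) (fun _ => hmu) (fun E => hli _ (hcs E.1)) (θ := θ - 1 / 2) (by linarith)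
    rw [upTo_iff Fam hF (fun E => Dif E.Λ (cs E)) (fun E => It (XX E.A (sdk n E.A E.Λ)) (cs E))
      (fun E s => It_zero n (A_pos E) E.Λ (cs E) s), upTo_iff Fam hF (fun E => E.Λ) (fun E => XX E.A (sdk n E.A E.Λ))
      (fun E s => X_zero n (A_pos E) E.Λ s)]
    exact h
  have him : ∀ s : ℂ, (s - 1 / 2 : ℂ).im = s.im := fun s => by rw [sub_im, half_im, sub_zero]
  have hre : ∀ s : ℂ, (s - 1 / 2 : ℂ).re = s.re - 1 / 2 := fun s => by rw [sub_re, half_re]
  refine ⟨fun ε hε => ?_, hfam, fun Fam cs X hF hcs h => ?_⟩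
  · obtain ⟨C, hC, H⟩ := (fp (n + n) 0 k 2 (max M 1) (Real.exp (n * NF.B0)) hm (by norm_num) hA1 hB).1 ε hε
    refine ⟨Real.exp (C + 3 * n * C), fun E cs hE hcs => ?_⟩
    obtain ⟨H1, H2⟩ := H E.A (mu n) (XX E.A (sdk n E.A E.Λ)) (wpE E hE) hmu cs (hli cs hcs)
    have hnC : 0 ≤ 3 * n * C := by positivity
    refine ⟨fun s σ hs hq hσ hσs => ?_, fun s σ hs hq hσ hσs hs2 => ?_⟩
    · have hlq := ge_log E hq
      obtain ⟨b1, b2⟩ := q_log E hE s.im
      obtain ⟨w, w1, w2, w3, w4⟩ := H1 (s - 1 / 2) (σ - 1 / 2)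
        ((X_zero n (A_pos E) E.Λ _).2 (by rw [sub_add_cancel]; exact hs)) (by rw [him]; linarith) (by linarith)
        (by rw [hre]; linarith)
      rw [him] at w4
      refine ⟨w + 1 / 2, (It_zero n (A_pos E) E.Λ cs w).1 w1, ?_, ?_, ?_⟩
      · rw [add_re, half_re]; linarith
      · rw [add_re, half_re]; linarith
      · rw [add_im, half_im, add_zero]
        refine w4.trans ?_
        have hL1 : 1 ≤ Real.log (q E s.im) := by linarith
        have h1 : C * Real.log (cnd E.A (mu n) s.im) ≤ C * ((1 + 3 * n) * Real.log (q E s.im)) := by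
          refine mul_le_mul_of_nonneg_left ?_ (by linarith)
          nlinarith
        have h2 : C * ((1 + 3 * n) * Real.log (q E s.im)) = (C + 3 * n * C) * Real.log (q E s.im) := by ring
        have h3 := Real.add_one_le_exp (C + 3 * n * C)
        have h4 : (C + 3 * n * C) * Real.log (q E s.im) ≤ Real.exp (C + 3 * n * C) * Real.log (q E s.im) :=
          mul_le_mul_of_nonneg_right (by linarith) (by linarith)
        linarith
    · have hlq := ge_log E hq
      obtain ⟨b1, b2⟩ := q_log E hE s.im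
      obtain ⟨w, w1, w2, w3⟩ := H2 (s - 1 / 2) (σ - 1 / 2)
        ((It_zero n (A_pos E) E.Λ cs _).2 (by rw [sub_add_cancel]; exact hs)) (by rw [him]; linarith) (by linarith)
        (by rw [hre]; linarith) (by rw [hre]; linarith)
      rw [him] at w3
      refine ⟨w + 1 / 2, (X_zero n (A_pos E) E.Λ w).1 w1, ?_, ?_⟩
      · rw [add_re, half_re]; linarith
      · rw [add_im, half_im, add_zero]
        exact w3
  · have hU : UpTo (fun E : {E : Curve // Fam E} => XX E.1.A (sdk n E.1.A E.1.Λ)) (fun E => cnd E.1.A (mu n))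
        (1 / 2) := by
      have h1 := (hfam Fam cs 1 hF hcs le_rfl).1 (fun ε hε => ⟨X, fun E hE s hs hX hs2 => by
        have := h E hE s hs hX hs2
        linarith⟩)
      rw [upTo_iff Fam hF (fun E => E.Λ) (fun E => XX E.A (sdk n E.A E.Λ)) (fun E s => X_zero n (A_pos E) E.Λ s),
        show (1 : ℝ) - 1 / 2 = 1 / 2 by norm_num] at h1
      exact h1
    refine ⟨fun ε hε => ?_, ?_⟩
    · obtain ⟨C, hC⟩ := famP_lind (ι := {E : Curve // Fam E}) (N := fun E => E.1.A) (μ := fun _ => mu n)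
        (Λ := fun E => XX E.1.A (sdk n E.1.A E.1.Λ)) lp hm hB (fun E => wpE E.1 (hF E.1 E.2)) hU (ε / 2)
        (by linarith)
      refine ⟨Real.exp (max C (3 * n)), fun E hE t hq => ?_⟩
      have hlq := ge_log E hq
      obtain ⟨b1, b2⟩ := q_log E (hF E hE) t
      have he : q E t ^ ε = Real.exp (ε * Real.log (q E t)) := by
        rw [Real.rpow_def_of_pos (by linarith [q_one E (hF E hE) t]), mul_comm]
      have e0 : LQ 0 E.A (mu n) (XX E.A (sdk n E.A E.Λ)) (1 / 2 + t * I) = L E (1 + t * I) := by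
        unfold LQ
        have e1 : la E.A (XX E.A (sdk n E.A E.Λ)) = sdk n E.A E.Λ := by
          funext z
          unfold la XX
          have h1 : (E.A : ℂ) ^ (z / 2) ≠ 0 := cA (A_pos E) _
          have h2 : (E.A : ℂ) ^ (-(z / 2)) = ((E.A : ℂ) ^ (z / 2))⁻¹ := by rw [Complex.cpow_neg]
          rw [h2]
          field_simp
        rw [e1, LL_sdk (A_pos E)]
        unfold LK L pp
        rw [hF E hE, show (1 / 2 + (t : ℂ) * I + 1 / 2 : ℂ) = 1 + t * I by ring, pow_zero, inv_one, mul_one]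
      rw [he, ← e0]
      refine (hC ⟨E, hE⟩ t ((le_max_left _ _).trans (hlq.trans b1))).trans (Real.exp_le_exp.2 ?_)
      have h3 := (le_max_right C (3 * (n : ℝ))).trans hlq
      have h4 : Real.log (cnd E.A (mu n) t) ≤ 2 * Real.log (q E t) := by linarith
      calc ε / 2 * Real.log (cnd E.A (mu n) t) ≤ ε / 2 * (2 * Real.log (q E t)) :=
            mul_le_mul_of_nonneg_left h4 (by linarith)
        _ = _ := by ring
    · obtain ⟨C, hC⟩ := famP_rate (ι := {E : Curve // Fam E}) (N := fun E => E.1.A) (μ := fun _ => mu n)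
        (Λ := fun E => XX E.1.A (sdk n E.1.A E.1.Λ)) (cs := fun E => cs E.1) fp hm (by norm_num : (0 : ℝ) ≤ 2) hA1 hB
        (fun E => wpE E.1 (hF E.1 E.2)) (fun _ => hmu)
        (fun E => hli _ (hcs E.1)) (X0 := Real.exp (Real.log (max X 1) + 3 * n)) (fun E s hs hX hs2 => by
          have hX' : Real.log (max X 1) + 3 * n ≤ Real.log (cnd E.1.A (mu n) s.im) := by
            have := Real.log_le_log (Real.exp_pos _) hX
            rwa [Real.log_exp] at this
          have h2 := (q_log E.1 (hF E.1 E.2) s.im).2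
          have h3 : X ≤ q E.1 s.im := by
            have h4 : Real.log (max X 1) ≤ Real.log (q E.1 s.im) := by linarith
            exact (le_max_left _ _).trans ((Real.log_le_log_iff (lt_max_of_lt_right one_pos)
              (by linarith [q_one E.1 (hF E.1 E.2) s.im])).1 h4)
          have h5 := h E.1 E.2 (s + 1 / 2) ((It_zero n (A_pos E.1) E.1.Λ _ s).1 hs)
            (by rw [add_im, half_im, add_zero]; exact h3) (by rw [add_re, half_re]; linarith)
          rw [add_re, half_re] at h5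
          linarith)
      obtain ⟨K, A', hK, hA', hSys⟩ := sp (n + n) 0 2 0 (Real.exp (n * NF.B0)) hm (by norm_num) le_rfl hB
      obtain ⟨C2, hC2⟩ := fam_mult (ι := {E : Curve // Fam E}) (K := K) (A := A') (Y := -0) (D := C)
        (N := fun E => E.1.A) (μ := fun _ => mu n) (X := fun E => XX E.1.A (sdk n E.1.A E.1.Λ))
        (g := fun E => gp 0 E.1.A (mu n)) rk hK hA' (fun E => E.1.hasseWeil.one_le)
        (fun _ j => (mu_le j).trans (by norm_num))
        (fun E => hSys E.1.A (mu n) (XX E.1.A (sdk n E.1.A E.1.Λ)) (wpE E.1 (hF E.1 E.2)) hmu)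
        (fun E => (wpE E.1 (hF E.1 E.2)).fe)
        (fun E s hs hq => hC E s hs hq)
      obtain ⟨E4, hE4⟩ : ∃ x : ℝ, x = Real.exp (4 * Real.exp 1) := ⟨_, rfl⟩
      have hE40 : 0 < E4 := by rw [hE4]; exact Real.exp_pos _
      refine ⟨Real.exp (E4 + 2 * (3 * n) + 2 + 2 * |C| + 4 * |C2|), fun E hE => ⟨fun s hs hq => ?_,
        fun t r hq hr => ?_⟩⟩
      · have hlq := ge_log E hq
        obtain ⟨b1, b2⟩ := q_log E (hF E hE) s.im
        have hC0 := abs_nonneg C
        have hC20 := abs_nonneg C2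
        obtain ⟨r1, r2, r3⟩ := R_comp (x := Real.log (q E s.im)) (y := Real.log (cnd E.A (mu n) s.im)) (D := 3 * n)
          (by positivity) (by rw [← hE4]; linarith) (by linarith) (by linarith)
        have h1 := hC ⟨E, hE⟩ (s - 1 / 2) ((X_zero n (A_pos E) E.Λ _).2 (by rw [sub_add_cancel]; exact hs))
          (by
            rw [sub_im, half_im, sub_zero]
            show C ≤ Real.log (cnd E.A (mu n) s.im)
            linarith [le_abs_self C])
        rw [sub_im, half_im, sub_zero, sub_re, half_re, show s.re - 1 / 2 - 1 / 2 = s.re - 1 by ring] at h1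
        have h2 : rate (q E s.im) = R (Real.log (q E s.im)) := rfl
        rw [h2]
        refine h1.trans ?_
        show C * R (Real.log (cnd E.A (mu n) s.im)) ≤ _
        have hy : 0 ≤ R (Real.log (cnd E.A (mu n) s.im)) := R_nonneg (le_trans (Real.exp_le_exp.2
          (by linarith [Real.exp_pos 1])) (by rw [hE4] at hlq; linarith :
            Real.exp (4 * Real.exp 1) ≤ Real.log (cnd E.A (mu n) s.im)))
        calc C * R (Real.log (cnd E.A (mu n) s.im)) ≤ |C| * (2 * R (Real.log (q E s.im))) :=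
              mul_le_mul (le_abs_self C) r1 hy hC0
          _ = (2 * |C|) * R (Real.log (q E s.im)) := by ring
          _ ≤ _ := by
              refine mul_le_mul_of_nonneg_right ?_ r2
              have := Real.add_one_le_exp (E4 + 2 * (3 * n) + 2 + 2 * |C| + 4 * |C2|)
              linarith
      · have hlq := ge_log E hq
        obtain ⟨b1, b2⟩ := q_log E (hF E hE) t
        have hC0 := abs_nonneg C
        have hC20 := abs_nonneg C2
        obtain ⟨r1, r2, r3⟩ := R_comp (x := Real.log (q E t)) (y := Real.log (cnd E.A (mu n) t)) (D := 3 * n)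
          (by positivity) (by rw [← hE4]; linarith) (by linarith) (by linarith)
        have h1 := hC2 ⟨E, hE⟩ t (by
            show C2 ≤ Real.log (cnd E.A (mu n) t)
            linarith [le_abs_self C2]) r (fun j hj => by
            show iteratedDeriv j (XX E.A (sdk n E.A E.Λ)) (1 / 2 + t * I) = 0
            rw [XX_eq n (A_pos E), iteratedDeriv_const_mul_field, iteratedDeriv_comp_add_const]
            show kk n E.A * iteratedDeriv j E.Λ (1 / 2 + (t : ℂ) * I + 1 / 2) = 0
            rw [show (1 / 2 + (t : ℂ) * I + 1 / 2 : ℂ) = 1 + t * I by ring, hr j hj, mul_zero])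
        have h2 : rate (q E t) = R (Real.log (q E t)) := rfl
        rw [h2]
        refine h1.trans ?_
        show C2 * (R (Real.log (cnd E.A (mu n) t)) * Real.log (cnd E.A (mu n) t)) ≤ _
        have hy : 0 ≤ R (Real.log (cnd E.A (mu n) t)) := R_nonneg (le_trans (Real.exp_le_exp.2
          (by linarith [Real.exp_pos 1])) (by rw [hE4] at hlq; linarith :
            Real.exp (4 * Real.exp 1) ≤ Real.log (cnd E.A (mu n) t)))
        calc C2 * (R (Real.log (cnd E.A (mu n) t)) * Real.log (cnd E.A (mu n) t)) ≤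
            |C2| * (4 * (R (Real.log (q E t)) * Real.log (q E t))) :=
              mul_le_mul (le_abs_self C2) r3 (mul_nonneg hy (by linarith)) hC20
          _ = (4 * |C2|) * (Real.log (q E t) * R (Real.log (q E t))) := by ring
          _ ≤ _ := by
              refine mul_le_mul_of_nonneg_right ?_ (mul_nonneg (by linarith) r2)
              have := Real.add_one_le_exp (E4 + 2 * (3 * n) + 2 + 2 * |C| + 4 * |C2|)
              linarith

end Pool.Agent.Results.MP_fb225e_nt.OneDerivativeDecides
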