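import Pool.Agent.Q286.PG.All
import Pool.Agent.Q286.PG.Pw
import Pool.Agent.Q286.XG.EK2
import Pool.Agent.Q240.OW.K3

/-!
# Weil's quadratic form of an elliptic curve over a number field: its positivity determines the conductor and the traces of Frobenius

Let `E` be an elliptic curve over a number field `K` of degree `d`, for which the properties conjectured by Hasse and Weil hold
(`Λ(E/K, s)` entire, of finite order, `Λ(s) = ± Λ(2 - s)`), with conductor `A` (of the L-function) and the coefficients `a_v`.  Let `W_a` be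
Weil's quadratic form of `E/K` on the functions on `[-a, a]`: it is written through `A`, the archimedean places and the traces
`α_v^k + β_v^k` of the powers of Frobenius for `Nv^k ≤ exp (2 a)`, which enter with the weights `log Nv (α_v^k + β_v^k) / Nv^k`.  The Riemann
hypothesis for `E/K` is equivalent to its positivity for all `a` (Weil).  Here only the archimedean part is kept: the conductor is replaced by
a number `Q > 0`, and the weight of `n` is changed by a number `x(n)`.  The functions have degree at least `C a exp (a / d)` (trigonometric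
polynomials on `[-a, a]`), the infinite degree (the whole form domain) is included.  No hypothesis on the zeros is made.

* (1) For any `c < 4 π d A^(-1 / (2 d))` and large `a`: if the numbers `a_v` at finitely many places `v` of good reduction with pairwise
  coprime norms are replaced by real numbers `b_v`, `|b_v| ≤ 2 √Nv` (in all powers), and `A` by `Q`, and the form is nonnegative, then
  `log (A / Q) ≤ exp (-c exp (a / d))` and `|b_v - a_v| ≤ K max(0, log (Q / A)) + exp (-c exp (a / d))`.  So no smaller conductor is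
  possible, and with the true (or a smaller) conductor the positivity determines these `a_v`, with a doubly exponential accuracy.  The same
  holds for arbitrary changes `x(n)` of finitely many weights.
* (2) If all weights are changed, with bounded total change, and the conductor is not (or very little) increased, and the form is nonnegative, then
  the conductor and each single weight are almost right.
* (3) A summable change `x` of the weights and a conductor `Q ≤ A` give a nonnegative form for arbitrarily large `a` if and only if the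
  Riemann hypothesis holds for `E/K`, `Q = A` and `x = 0`.
* (4) The Riemann hypothesis holds for `E/K` if and only if for arbitrarily large `a` the positivity can be reached by a change of the
  weights of total size at most `exp (ε a)` and of the logarithm of the conductor by at most `exp (ε a)`, for every `ε > 0`; and if
  and only if it can be reached by changes of the weights of the `n ≤ k` (`k` fixed, changes of any size) and of the conductor (at most `B`).
-/

set_option autoImplicit false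

open Complex NumberField IsDedekindDomain MeasureTheory Filter Topology
open scoped ComplexConjugate

namespace Pool.Agent.Results.MP_fb225e_nt.PrimeRigidity

/-! ### Hasse-Weil L-functions of elliptic curves over number fields -/

/-- `W v` is, for every finite place `v`, an integral model of `E` with discriminant minimal at
`v`. -/
def MinimalModels {K : Type} [Field K] [NumberField K] (E : WeierstrassCurve K)
    (W : HeightOneSpectrum (𝓞 K) → WeierstrassCurve (𝓞 K)) : Prop :=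
  ∀ v : HeightOneSpectrum (𝓞 K),
    (∃ C : WeierstrassCurve.VariableChange K, C • (W v).map (algebraMap (𝓞 K) K) = E) ∧
    ∀ W' : WeierstrassCurve (𝓞 K),
      (∃ C : WeierstrassCurve.VariableChange K, C • W'.map (algebraMap (𝓞 K) K) = E) →
      ∀ n : ℕ, (W v).Δ ∈ v.asIdeal ^ n → W'.Δ ∈ v.asIdeal ^ n

open Classical in
/-- The Euler factor at `v`, `(1 - a_v Nv^{-s} + Nv^{1-2s})⁻¹` if the reduction at `v` is good and
`(1 - a_v Nv^{-s})⁻¹` if it is bad, where `a_v` is `Nv` minus the number of affine points of the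
reduction of `W v`. -/
noncomputable def localFactor {K : Type} [Field K] [NumberField K]
    (W : HeightOneSpectrum (𝓞 K) → WeierstrassCurve (𝓞 K)) (v : HeightOneSpectrum (𝓞 K))
    (s : ℂ) : ℂ :=
  (1 - ((Ideal.absNorm v.asIdeal : ℂ)
        - (Nat.card {xy : (𝓞 K ⧸ v.asIdeal) × (𝓞 K ⧸ v.asIdeal) //
            ((W v).map (Ideal.Quotient.mk v.asIdeal)).toAffine.Equation xy.1 xy.2} : ℂ))
        * (Ideal.absNorm v.asIdeal : ℂ) ^ (-s)
    + (if (W v).Δ ∈ v.asIdeal then 0 else (Ideal.absNorm v.asIdeal : ℂ))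
        * (Ideal.absNorm v.asIdeal : ℂ) ^ (-2 * s))⁻¹

/-- The `L`-function `L(E/K, s)` in the half-plane of convergence, as the Euler product over all
finite places. -/
noncomputable def LSeries {K : Type} [Field K] [NumberField K]
    (W : HeightOneSpectrum (𝓞 K) → WeierstrassCurve (𝓞 K)) (s : ℂ) : ℂ :=
  ∏' v : HeightOneSpectrum (𝓞 K), localFactor W v s

/-- `Λ` is the completed L-function `A^(s/2) ((2π)^(-s) Γ(s))^[K : ℚ] L(E/K, s)`, and it has the
properties conjectured by Hasse and Weil: it is entire, of finite order, and `Λ(s) = ± Λ(2 - s)`. -/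
structure HasseWeil {K : Type} [Field K] [NumberField K]
    (W : HeightOneSpectrum (𝓞 K) → WeierstrassCurve (𝓞 K)) (A : ℝ) (Λ : ℂ → ℂ) : Prop where
  one_le : 1 ≤ A
  entire : Differentiable ℂ Λ
  order : ∃ c ρ : ℝ, ∀ s : ℂ, ‖Λ s‖ ≤ Real.exp (c * (1 + ‖s‖) ^ ρ)
  fe : ∃ w : ℝ, (w = 1 ∨ w = -1) ∧ ∀ s : ℂ, Λ s = w * Λ (2 - s)
  eq : ∃ σ : ℝ, ∀ s : ℂ, σ ≤ s.re → Λ s = (A : ℂ) ^ (s / 2) *
    ((2 * (Real.pi : ℂ)) ^ (-s) * Gamma s) ^ Module.finrank ℚ K * LSeries W s

/-- An elliptic curve `E` over a number field `K` (for the problem: defined over `ℚ`), with minimal models, the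
conductor `A` of its L-function and the completed L-function `Λ`, with the properties conjectured by Hasse and
Weil. -/
structure Curve where
  /-- the number field -/
  K : Type
  [field : Field K]
  [numberField : NumberField K]
  /-- the elliptic curve -/
  E : WeierstrassCurve K
  [elliptic : E.IsElliptic]
  /-- minimal models -/
  W : HeightOneSpectrum (𝓞 K) → WeierstrassCurve (𝓞 K)
  minimal : MinimalModels E W
  /-- the conductor -/
  A : ℝ
  /-- the completed L-function -/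
  Λ : ℂ → ℂ
  hasseWeil : HasseWeil W A Λ

attribute [instance] Curve.field Curve.numberField Curve.elliptic

/-- The degree of the number field. -/
noncomputable def Curve.deg (X : Curve) : ℕ := Module.finrank ℚ X.K

/-- The norm `Nv` of a finite place. -/
noncomputable def nrm {K : Type} [Field K] [NumberField K] (v : HeightOneSpectrum (𝓞 K)) : ℕ := Ideal.absNorm v.asIdeal

/-- The coefficient `a_v`: `Nv` minus the number of affine points of the reduction of the minimal model at `v`. -/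
noncomputable def trace (X : Curve) (v : HeightOneSpectrum (𝓞 X.K)) : ℂ :=
  (nrm v : ℂ) - (Nat.card {xy : (𝓞 X.K ⧸ v.asIdeal) × (𝓞 X.K ⧸ v.asIdeal) //
    ((X.W v).map (Ideal.Quotient.mk v.asIdeal)).toAffine.Equation xy.1 xy.2} : ℂ)

open Classical in
/-- `Nv` if the reduction at `v` is good and `0` if it is bad. -/
noncomputable def good (X : Curve) (v : HeightOneSpectrum (𝓞 X.K)) : ℂ := if (X.W v).Δ ∈ v.asIdeal then 0 else (nrm v : ℂ)

/-- The traces of the powers of Frobenius at `v`: `t_k = α^k + β^k` (`k ≥ 1`), where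
`1 - a_v T + Nv T² = (1 - α T)(1 - β T)` if the reduction is good and `1 - a_v T = 1 - α T`, `β = 0` if it is bad. -/
noncomputable def frob (X : Curve) (v : HeightOneSpectrum (𝓞 X.K)) : ℕ → ℂ
  | 0 => 2
  | 1 => trace X v
  | k + 2 => trace X v * frob X v (k + 1) - good X v * frob X v k

/-- The Riemann hypothesis for `E/K`: all zeros of `Λ(E/K, s)` have real part `1`. -/
def RiemannHypothesis (X : Curve) : Prop := ∀ s : ℂ, X.Λ s = 0 → s.re = 1

/-! ### The quadratic form and the changes -/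

/-- The trigonometric polynomials of degree at most `n` on `[-a, a]`, extended by `0`. -/
def Trig (a : ℝ) (n : ℕ) (f : ℝ → ℂ) : Prop := ∃ c : ℤ → ℂ, ∀ x : ℝ,
  f x = if |x| ≤ a then ∑ k ∈ Finset.Icc (-(n : ℤ)) n, c k * cexp ((Real.pi * k * x / a : ℝ) * I) else 0

/-- The Mellin transform of `f` in the logarithmic variable, centred at `1`. -/
noncomputable def M (f : ℝ → ℂ) (s : ℂ) : ℂ := ∫ x : ℝ, f x * cexp ((s - 1) * x)

/-- Weil's quadratic form of `E/K` for functions supported in `[-a, a]`: the conductor, the archimedean places (Gamma factor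
`((2π)^(-s) Γ(s))^[K : ℚ]`) and the powers `Nv^k ≤ exp (2 a)` (`k ≥ 1`) of the norms of the finite places. -/
noncomputable def W (X : Curve) (a : ℝ) (f : ℝ → ℂ) : ℝ :=
  1 / (2 * Real.pi) * (∫ x : ℝ, (Real.log X.A + X.deg * (2 * (digamma (1 + x * I)).re - 2 * Real.log (2 * Real.pi))) *
    ‖M f (1 + x * I)‖ ^ 2) -
  2 * (∑ᶠ x ∈ {x : HeightOneSpectrum (𝓞 X.K) × ℕ | 1 ≤ x.2 ∧ (nrm x.1 : ℝ) ^ x.2 ≤ Real.exp (2 * a)},
    Real.log (nrm x.1) / (nrm x.1 : ℂ) ^ x.2 * frob X x.1 x.2 *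
    ∫ y : ℝ, f (y + x.2 * Real.log (nrm x.1)) * (starRingEnd ℂ) (f y)).re

/-- The form domain: the square integrable functions `f` with support in `[-a, a]` and `∫ log (3 + |t|) |M f (1 + i t)|² dt < ∞`. -/
def FormDomain (a : ℝ) (f : ℝ → ℂ) : Prop := MemLp f 2 volume ∧ (∀ x : ℝ, a < |x| → f x = 0) ∧
  Integrable fun t : ℝ => Real.log (3 + |t|) * ‖M f (1 + t * I)‖ ^ 2

/-- The functions of degree at most `ν ≤ ∞`: trigonometric polynomials, or (`ν = ∞`) all functions in the form domain. -/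
def Degree (a : ℝ) (ν : ℕ∞) (f : ℝ → ℂ) : Prop := (∃ n : ℕ, ν = n ∧ Trig a n f) ∨ (ν = ⊤ ∧ FormDomain a f)

/-- The degree `ν ≤ ∞` is at least `x`. -/
def Large (x : ℝ) (ν : ℕ∞) : Prop := ∀ n : ℕ, ν = n → x ≤ n

/-- Weil's quadratic form of `E/K` with the number `Q` in place of the conductor `A` (which enters through `log A ∫ |f|²`) and with the weight
of `n ≥ 2` (the sum of `log Nv (α_v^k + β_v^k) / Nv^k` over the `v`, `k` with `Nv^k = n`) changed by `x n`. -/
noncomputable def V (X : Curve) (Q : ℝ) (x : ℕ → ℂ) (a : ℝ) (f : ℝ → ℂ) : ℝ :=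
  W X a f + Real.log (Q / X.A) * (∫ y : ℝ, ‖f y‖ ^ 2) -
  2 * (∑ n ∈ Finset.Icc 2 ⌊Real.exp (2 * a)⌋₊, x n * ∫ y : ℝ, f (y + Real.log n) * (starRingEnd ℂ) (f y)).re

/-- The form is nonnegative on the functions of degree at most `ν` on `[-a, a]`. -/
def Nonneg (X : Curve) (a : ℝ) (ν : ℕ∞) (Q : ℝ) (x : ℕ → ℂ) : Prop := ∀ f : ℝ → ℂ, Degree a ν f → 0 ≤ V X Q x a f

/-- The numbers `α^k + β^k`, where `1 - b T + p T² = (1 - α T)(1 - β T)`. -/
noncomputable def power (p : ℕ) (b : ℝ) : ℕ → ℝ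
  | 0 => 2
  | 1 => b
  | k + 2 => b * power p b (k + 1) - p * power p b k

/-- The change of the weights when `a_v` is replaced by the real number `b v`, for the places `v ∈ S`: the trace of the `k`-th power of
Frobenius at `v` becomes `power Nv (b v) k` (`k ≥ 1`; it enters in the weight of `n = Nv^k`, with the factor `log Nv / n`). -/
noncomputable def change (X : Curve) (S : Finset (HeightOneSpectrum (𝓞 X.K))) (b : HeightOneSpectrum (𝓞 X.K) → ℝ) (n : ℕ) : ℂ :=
  ∑ v ∈ S, if 2 ≤ n ∧ n = nrm v ^ Nat.log (nrm v) n then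
    (Real.log (nrm v) / n : ℝ) * ((power (nrm v) (b v) (Nat.log (nrm v) n) : ℝ) - frob X v (Nat.log (nrm v) n)) else 0

/-- The places in `S` have good reduction and pairwise coprime norms. -/
def Separated (X : Curve) (S : Finset (HeightOneSpectrum (𝓞 X.K))) : Prop :=
  (∀ v ∈ S, (X.W v).Δ ∉ v.asIdeal) ∧ ∀ v ∈ S, ∀ w ∈ S, v ≠ w → Nat.Coprime (nrm v) (nrm w)

/-! ### The proof -/

open Q240.OW Pool.Agent.TH839.UH Pool.Agent.Q286.TR
open Pool.Agent.H921R2.TatePole (nm)

lemma EL_eq (X : Curve) (s : ℂ) : EL (trace X) (good X) s = LSeries X.W s := by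
  classical
  unfold LSeries EL
  refine tprod_congr fun v => ?_
  unfold localFactor NF.gv Pool.Agent.H921R2.TatePole.nm trace good nrm
  congr 1
  ring

lemma kl (X : Curve) : KL (trace X) (good X) X.A X.Λ := by
  classical
  have h := X.hasseWeil
  refine ⟨fun v => trace_le v _, fun v => ?_, fun v => ?_, fun v => ?_,
    h.one_le, h.entire, h.order, h.fe, ?_⟩
  · show ‖(if (X.W v).Δ ∈ v.asIdeal then 0 else (Ideal.absNorm v.asIdeal : ℂ))‖ ≤
      ((Ideal.absNorm v.asIdeal : ℕ) : ℝ)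
    split_ifs
    · rw [norm_zero]
      exact Nat.cast_nonneg _
    · rw [Complex.norm_natCast]
  · show conj ((Ideal.absNorm v.asIdeal : ℂ) - ((_ : ℕ) : ℂ)) = _
    rw [map_sub, Complex.conj_natCast, Complex.conj_natCast]
    rfl
  · show conj (if (X.W v).Δ ∈ v.asIdeal then 0 else (Ideal.absNorm v.asIdeal : ℂ)) = good X v
    unfold good nrm
    split_ifs
    · rw [map_zero]
    · rw [Complex.conj_natCast]
  · obtain ⟨σ, hσ⟩ := h.eq
    refine ⟨σ, fun s hs => ?_⟩
    rw [hσ s hs, EL_eq]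

lemma good_or (X : Curve) (v : HeightOneSpectrum (𝓞 X.K)) : good X v = 0 ∨ good X v = (nm v : ℂ) := by
  classical
  unfold good
  split_ifs
  · exact Or.inl rfl
  · exact Or.inr rfl

lemma frob_eq (X : Curve) (v : HeightOneSpectrum (𝓞 X.K)) : ∀ k : ℕ, frob X v k = fr (trace X) (good X) v k ∧
    frob X v (k + 1) = fr (trace X) (good X) v (k + 1) := by
  intro k
  induction k with
  | zero => exact ⟨rfl, rfl⟩
  | succ k ih =>
    refine ⟨ih.2, ?_⟩
    show trace X v * frob X v (k + 1) - good X v * frob X v k =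
      trace X v * fr (trace X) (good X) v (k + 1) - good X v * fr (trace X) (good X) v k
    rw [ih.1, ih.2]

lemma power_eq {p : ℕ} {b : ℝ} {α : Fin 2 → ℂ} (h1 : α 0 + α 1 = b) (h2 : α 0 * α 1 = p) (k : ℕ) : ((power p b k : ℝ) : ℂ) = ∑ j, α j ^ k := by
  refine Pool.Agent.Q286.PG.seq_pow h1 h2 (t := fun k => ((power p b k : ℝ) : ℂ)) ?_ ?_ (fun k => ?_) k
  · simp [power]
  · simp [power]
  · simp only [power]
    push_cast
    rfl

lemma good_eq (X : Curve) (v : HeightOneSpectrum (𝓞 X.K)) (h : (X.W v).Δ ∉ v.asIdeal) : good X v = (nrm v : ℂ) := by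
  classical
  unfold good
  rw [if_neg h]

/-- the roots of the Euler factor at a good place, from the trivial bound for the number of points -/
lemma roots_lt {n : ℕ} (hn : 2 ≤ n) {t : ℂ} (ht : conj t = t) (htn : ‖t‖ ≤ n) :
    ∃ r : Fin 2 → ℂ, (∀ j, ‖r j‖ < n) ∧ r 0 + r 1 = t ∧ r 0 * r 1 = n := by
  obtain ⟨b, rfl⟩ := Complex.conj_eq_iff_real.1 ht
  rw [Complex.norm_real, Real.norm_eq_abs] at htn
  have hn2 : (2 : ℝ) ≤ n := by exact_mod_cast hn
  rcases le_or_gt (b ^ 2) (4 * n) with h1 | h1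
  · have h2 : |b| ≤ 2 * Real.sqrt n := by
      rw [← Real.sqrt_sq_eq_abs]
      calc Real.sqrt (b ^ 2) ≤ Real.sqrt (4 * n) := Real.sqrt_le_sqrt h1
        _ = 2 * Real.sqrt n := by
          rw [Real.sqrt_mul (by norm_num), show (4 : ℝ) = 2 ^ 2 by norm_num, Real.sqrt_sq (by norm_num)]
    obtain ⟨r, h3, h4, h5⟩ := Pool.Agent.Q286.PG.two_roots (Nat.cast_nonneg n) h2
    refine ⟨r, fun j => ?_, h4, by rw [h5]; simp⟩
    rw [h3 j, Real.sqrt_lt' (by linarith)]
    nlinarith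
  · set R : ℝ := Real.sqrt (b ^ 2 - 4 * n) with hR
    have hR2 : R ^ 2 = b ^ 2 - 4 * n := Real.sq_sqrt (by linarith)
    have hR0 : 0 ≤ R := Real.sqrt_nonneg _
    have hRb : R < |b| := by
      refine lt_of_pow_lt_pow_left₀ 2 (abs_nonneg b) ?_
      rw [hR2, sq_abs]
      linarith
    have hb : ∀ s : ℝ, |s| = 1 → ‖(((b + s * R) / 2 : ℝ) : ℂ)‖ < n := by
      intro s hs
      rw [Complex.norm_real, Real.norm_eq_abs, abs_div, abs_of_pos (by norm_num : (0 : ℝ) < 2), div_lt_iff₀ (by norm_num)]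
      calc |b + s * R| ≤ |b| + |s * R| := abs_add_le _ _
        _ = |b| + R := by rw [abs_mul, hs, one_mul, abs_of_nonneg hR0]
        _ < n * 2 := by linarith
    have hRc : (R : ℂ) * R = b * b - 4 * n := by
      have : R * R = b * b - 4 * n := by rw [← pow_two, hR2]; ring
      exact_mod_cast this
    refine ⟨![(((b + 1 * R) / 2 : ℝ) : ℂ), (((b + (-1) * R) / 2 : ℝ) : ℂ)], fun j => ?_, ?_, ?_⟩
    · fin_cases j
      · exact hb 1 (by norm_num)
      · exact hb (-1) (by norm_num)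
    · simp only [Matrix.cons_val_zero, Matrix.cons_val_one]
      push_cast
      ring
    · simp only [Matrix.cons_val_zero, Matrix.cons_val_one]
      push_cast
      have : ((b : ℂ) + 1 * R) / 2 * (((b : ℂ) + -1 * R) / 2) = (b * b - (R : ℂ) * R) / 4 := by ring
      rw [this, hRc]
      ring

lemma two_le_nrm {K : Type} [Field K] [NumberField K] (v : HeightOneSpectrum (𝓞 K)) : 2 ≤ nrm v :=
  Pool.Agent.H921R2.TatePole.two_le_nm v

/-- the roots at a good place -/
lemma roots_place (X : Curve) (v : HeightOneSpectrum (𝓞 X.K)) (hv : (X.W v).Δ ∉ v.asIdeal) :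
    ∃ r : Fin 2 → ℂ, (∀ j, ‖r j‖ < nrm v) ∧ r 0 + r 1 = trace X v ∧ ∀ k, frob X v k = ∑ j, r j ^ k := by
  obtain ⟨r, h1, h2, h3⟩ := roots_lt (two_le_nrm v) ((kl X).rea v) ((kl X).ha v)
  refine ⟨r, h1, h2, fun k => ?_⟩
  refine Pool.Agent.Q286.PG.seq_pow h2 h3 (t := frob X v) rfl rfl (fun k => ?_) k
  show trace X v * frob X v (k + 1) - good X v * frob X v k = _
  rw [good_eq X v hv]

/-- a bound less than one for finitely many numbers less than one -/
lemma exists_rho {ι : Type*} (S : Finset ι) (u : ι → ℝ) (hu : ∀ i ∈ S, u i < 1) (ρ0 : ℝ) (h0 : ρ0 < 1) :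
    ∃ ρ : ℝ, ρ < 1 ∧ ρ0 ≤ ρ ∧ ∀ i ∈ S, u i ≤ ρ := by
  classical
  induction S using Finset.induction_on with
  | empty => exact ⟨ρ0, h0, le_rfl, fun i hi => absurd hi (Finset.notMem_empty i)⟩
  | insert i S hi ih =>
    obtain ⟨ρ, h1, h2, h3⟩ := ih fun j hj => hu j (Finset.mem_insert_of_mem hj)
    refine ⟨max ρ (u i), max_lt h1 (hu i (Finset.mem_insert_self _ _)), h2.trans (le_max_left _ _), fun j hj => ?_⟩
    rcases Finset.mem_insert.1 hj with rfl | hj
    · exact le_max_right _ _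
    · exact (h3 j hj).trans (le_max_left _ _)

open Pool.Agent.Q286 in
lemma outE (X : Curve) : PG.OutP (V X) X.A (RiemannHypothesis X) 1 (fun a => Real.exp (a / X.deg))
    (4 * Real.pi * X.deg * X.A ^ (-(1 / (2 * (X.deg : ℝ))))) := by
  obtain ⟨L, hm, hQ, h1, h2, k, hk, h3⟩ := exK2 (kl X) (good_or X)
  have hW : ∀ (a : ℝ) (g : ℝ → ℂ), W X a g = TR.W L a g := fun a g => by
    rw [h1]
    unfold W WK
    congr 1
    refine congrArg (fun z : ℂ => 2 * z.re) ?_
    refine finsum_mem_congr rfl fun x _ => ?_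
    rw [(frob_eq X x.1 x.2).1]
    rfl
  have H := PG.outP (L := L) PG.jp PG.pw (V := V X) (Q0 := X.A) (R := RiemannHypothesis X) (c := 1) hQ
    (TR.rh_iff (L := L) (Λ := X.Λ) (c := 1) (r := 1) (by norm_num) hk h3).symm
    (fun Q x a f _ _ _ => by
      have e1 : Real.log (Q / X.A) = -Real.log (X.A / Q) := by rw [← Real.log_inv, inv_div]
      unfold V PG.Vx
      rw [hW, e1]
      unfold TR.N PG.Cr
      ring)
  have hd : (L.m : ℝ) = 2 * (X.deg : ℝ) := by
    rw [hm]
    unfold Curve.deg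
    push_cast
    ring
  have e1 : PG.EE L = fun a => Real.exp (a / X.deg) := by
    funext a
    unfold PG.EE
    rw [hd, mul_div_mul_left _ _ two_ne_zero]
  have e2 : PG.qq L = 4 * Real.pi * X.deg * X.A ^ (-(1 / (2 * (X.deg : ℝ)))) := by
    unfold PG.qq
    rw [hd, hQ]
    ring
  rw [e1, e2] at H
  exact H

open Pool.Agent.Q286 in
/-- the places -/
lemma places (X : Curve) {c : ℝ} (hc : c < 4 * Real.pi * X.deg * X.A ^ (-(1 / (2 * (X.deg : ℝ))))) : ∃ C : ℝ, 0 < C ∧
    ∀ S : Finset (HeightOneSpectrum (𝓞 X.K)), Separated X S → ∃ K A : ℝ, ∀ (a : ℝ) (ν : ℕ∞), A ≤ a →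
      Large (C * a * Real.exp (a / X.deg)) ν →
      ∀ (Q : ℝ) (b : HeightOneSpectrum (𝓞 X.K) → ℝ), 0 < Q → (∀ v ∈ S, |b v| ≤ 2 * Real.sqrt (nrm v)) → Nonneg X a ν Q (change X S b) →
        Real.log (X.A / Q) ≤ Real.exp (-(c * Real.exp (a / X.deg))) ∧
        ∀ v ∈ S, ‖(b v : ℂ) - trace X v‖ ≤ K * max 0 (Real.log (Q / X.A)) + Real.exp (-(c * Real.exp (a / X.deg))) := by
  classical
  have hdeg : (0 : ℝ) < X.deg := by
    have : 0 < Module.finrank ℚ X.K := Module.finrank_pos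
    exact_mod_cast this
  obtain ⟨C, hC, h⟩ := PG.OutP.eul (outE X) (Real.tendsto_exp_atTop.comp (tendsto_id.atTop_div_const hdeg)) (fun a => Real.exp_pos _) hc
  refine ⟨C, hC, fun S hS => ?_⟩
  obtain ⟨hgood, hcop⟩ := hS
  have hlog : ∀ v : HeightOneSpectrum (𝓞 X.K), 0 < Real.log (nrm v) := fun v =>
    Real.log_pos (by exact_mod_cast (by have := two_le_nrm v; omega : 1 < nrm v))
  set T : ℝ := ∑ v ∈ S, (nrm v : ℝ) / Real.log (nrm v) with hT
  have hTp : ∀ v ∈ S, (nrm v : ℝ) / Real.log (nrm v) ≤ T := fun v hv =>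
    Finset.single_le_sum (f := fun v : HeightOneSpectrum (𝓞 X.K) => (nrm v : ℝ) / Real.log (nrm v))
      (fun w _ => div_nonneg (Nat.cast_nonneg _) (hlog w).le) hv
  have hρ0 : (Real.sqrt 2)⁻¹ < 1 := inv_lt_one_of_one_lt₀ (Real.lt_sqrt_of_sq_lt (by norm_num))
  -- the roots
  have hα : ∀ v ∈ S, ∃ r : Fin 2 → ℂ, (∀ j, ‖r j‖ < nrm v) ∧ r 0 + r 1 = trace X v ∧ ∀ k, frob X v k = ∑ j, r j ^ k :=
    fun v hv => roots_place X v (hgood v hv)
  choose! α hα1 hα2 hα3 using hα
  have hn0 : ∀ v : HeightOneSpectrum (𝓞 X.K), (0 : ℝ) < nrm v := fun v => by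
    exact_mod_cast (by have := two_le_nrm v; omega : 0 < nrm v)
  obtain ⟨ρ, hρ, hρ1, hρ2⟩ := exists_rho (S ×ˢ (Finset.univ : Finset (Fin 2))) (fun x => ‖α x.1 x.2‖ / nrm x.1)
    (fun x hx => by
      rw [div_lt_one (hn0 x.1)]
      exact hα1 x.1 (Finset.mem_product.1 hx).1 x.2) _ hρ0
  -- the place of a given norm
  have huniq : ∀ v ∈ S, ∀ w ∈ S, ∀ k l : ℕ, 1 ≤ k → nrm v ^ k = nrm w ^ l → v = w := by
    intro v hv w hw k l hk he
    by_contra hne
    have h1 : Nat.Coprime (nrm v ^ k) (nrm w ^ l) := Nat.Coprime.pow k l (hcop v hv w hw hne)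
    rw [← he, Nat.coprime_self] at h1
    have h2 := Nat.one_lt_pow (by omega : k ≠ 0) (by have := two_le_nrm v; omega : 1 < nrm v)
    omega
  have hpl : ∀ n ∈ S.image nrm, ∃ v, v ∈ S ∧ nrm v = n := fun n hn => by
    obtain ⟨v, hv, h1⟩ := Finset.mem_image.1 hn
    exact ⟨v, hv, h1⟩
  have hne : Nonempty (HeightOneSpectrum (𝓞 X.K)) := by
    obtain ⟨I, hI⟩ := Ideal.exists_maximal (𝓞 X.K)
    exact ⟨⟨I, hI.isPrime, Ring.ne_bot_of_isMaximal_of_not_isField hI (NumberField.RingOfIntegers.not_isField X.K)⟩⟩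
  choose! pl hpl1 hpl2 using hpl
  have hplv : ∀ v ∈ S, pl (nrm v) = v := fun v hv => by
    have h1 := hpl1 (nrm v) (Finset.mem_image_of_mem _ hv)
    have h2 := hpl2 (nrm v) (Finset.mem_image_of_mem _ hv)
    exact huniq _ h1 v hv 1 1 le_rfl (by rw [h2])
  obtain ⟨K, A, hK, h1⟩ := h (S.image nrm) (fun p hp => by
    obtain ⟨v, _, rfl⟩ := Finset.mem_image.1 hp
    exact two_le_nrm v) 2 ρ hρ T (Finset.sum_nonneg fun v _ => div_nonneg (Nat.cast_nonneg _) (hlog v).le)
  refine ⟨K, A, fun a ν ha hν Q b hQ hb hp => ?_⟩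
  have hβ : ∀ v ∈ S, ∃ α : Fin 2 → ℂ, (∀ j, ‖α j‖ = Real.sqrt (nrm v)) ∧ α 0 + α 1 = b v ∧ α 0 * α 1 = (nrm v : ℝ) := fun v hv =>
    PG.two_roots (Nat.cast_nonneg (nrm v)) (hb v hv)
  choose! β hβ1 hβ2 hβ3 using hβ
  have hnβ : ∀ v ∈ S, ∀ j, ‖β v j / nrm v‖ ≤ ρ := by
    intro v hv j
    have hp2 : (2 : ℝ) ≤ nrm v := by exact_mod_cast two_le_nrm v
    have hs : 0 < Real.sqrt (nrm v) := Real.sqrt_pos.2 (by linarith)
    have e1 : ‖(nrm v : ℂ)‖ = Real.sqrt (nrm v) * Real.sqrt (nrm v) := by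
      rw [Complex.norm_natCast, Real.mul_self_sqrt (by linarith)]
    rw [norm_div, hβ1 v hv j, e1, div_mul_cancel_left₀ hs.ne']
    exact (inv_anti₀ (Real.sqrt_pos.2 (by norm_num)) (Real.sqrt_le_sqrt hp2)).trans hρ1
  have hnα : ∀ v ∈ S, ∀ j, ‖α v j / nrm v‖ ≤ ρ := by
    intro v hv j
    rw [norm_div, Complex.norm_natCast]
    exact hρ2 (v, j) (Finset.mem_product.2 ⟨hv, Finset.mem_univ _⟩)
  have hx : ∀ v ∈ S, ∀ k, 1 ≤ k → change X S b (nrm v ^ k) =
      Real.log (nrm v) * (∑ j, (β v j / nrm v) ^ k - ∑ j, (α v j / nrm v) ^ k) := by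
    intro v hv k hk
    have hp0 : (nrm v : ℂ) ≠ 0 := by exact_mod_cast (hn0 v).ne'
    have h2 : 2 ≤ nrm v ^ k := (two_le_nrm v).trans (Nat.le_self_pow (by omega) _)
    have hl : Nat.log (nrm v) (nrm v ^ k) = k := Nat.log_pow (by have := two_le_nrm v; omega) k
    unfold change
    rw [Finset.sum_eq_single_of_mem v hv]
    · rw [hl, if_pos ⟨h2, rfl⟩, power_eq (hβ2 v hv) (by rw [hβ3 v hv]; simp) k, hα3 v hv k]
      simp only [div_pow, ← Finset.sum_div]
      push_cast
      field_simp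
    · intro w hw hne
      rw [if_neg]
      rintro ⟨_, he⟩
      exact hne (huniq v hv w hw k _ hk he).symm
  obtain ⟨h2, h3⟩ := h1 a ν ha hν Q (change X S b) (fun n j => α (pl n) j / nrm (pl n)) (fun n j => β (pl n) j / nrm (pl n)) hQ
    (fun n hn j => ⟨hnα _ (hpl1 n hn) j, hnβ _ (hpl1 n hn) j⟩)
    (fun n hn hn2 => by
      unfold change
      refine Finset.sum_eq_zero fun v hv => ?_
      rw [if_neg]
      rintro ⟨_, he⟩
      exact hn2 (nrm v) (Finset.mem_image_of_mem _ hv) _ he)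
    (fun n hn k hk => by
      obtain ⟨v, hv, rfl⟩ := Finset.mem_image.1 hn
      rw [hx v hv k hk, hplv v hv]) hp
  refine ⟨h2, fun v hv => le_trans ?_ (h3 (nrm v) (Finset.mem_image_of_mem _ hv) 1 le_rfl)⟩
  have hl := hlog v
  have hp0 : (nrm v : ℂ) ≠ 0 := by exact_mod_cast (hn0 v).ne'
  have hp1 : (0 : ℝ) < nrm v := hn0 v
  have e1 : change X S b (nrm v ^ 1) = (Real.log (nrm v) / nrm v : ℝ) * ((b v : ℂ) - trace X v) := by
    rw [hx v hv 1 le_rfl]
    simp only [pow_one, ← Finset.sum_div, Fin.sum_univ_two]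
    rw [hα2 v hv, hβ2 v hv]
    push_cast
    field_simp
  rw [e1, norm_mul, Complex.norm_real, Real.norm_of_nonneg (div_nonneg hl.le hp1.le), ← mul_assoc]
  refine le_mul_of_one_le_left (norm_nonneg _) ?_
  calc (1 : ℝ) = (nrm v : ℝ) / Real.log (nrm v) * (Real.log (nrm v) / nrm v) := by field_simp
    _ ≤ _ := mul_le_mul_of_nonneg_right (hTp v hv) (div_nonneg hl.le hp1.le)

/-- **The theorem.** -/
theorem result (X : Curve) :
    (∀ c : ℝ, c < 4 * Real.pi * X.deg * X.A ^ (-(1 / (2 * (X.deg : ℝ)))) → ∃ C : ℝ, 0 < C ∧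
      (∀ S : Finset (HeightOneSpectrum (𝓞 X.K)), Separated X S → ∃ K A : ℝ, ∀ (a : ℝ) (ν : ℕ∞), A ≤ a →
        Large (C * a * Real.exp (a / X.deg)) ν →
        ∀ (Q : ℝ) (b : HeightOneSpectrum (𝓞 X.K) → ℝ), 0 < Q → (∀ v ∈ S, |b v| ≤ 2 * Real.sqrt (nrm v)) → Nonneg X a ν Q (change X S b) →
          Real.log (X.A / Q) ≤ Real.exp (-(c * Real.exp (a / X.deg))) ∧
          ∀ v ∈ S, ‖(b v : ℂ) - trace X v‖ ≤ K * max 0 (Real.log (Q / X.A)) + Real.exp (-(c * Real.exp (a / X.deg)))) ∧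
      ∀ k : ℕ, ∃ K A : ℝ, ∀ (a : ℝ) (ν : ℕ∞), A ≤ a → Large (C * a * Real.exp (a / X.deg)) ν →
        ∀ (Q : ℝ) (x : ℕ → ℂ), 0 < Q → (∀ n, k < n → x n = 0) → Nonneg X a ν Q x →
          Real.log (X.A / Q) ≤ Real.exp (-(c * Real.exp (a / X.deg))) ∧
          ∀ n, 2 ≤ n → n ≤ k → ‖x n‖ ≤ K * max 0 (Real.log (Q / X.A)) + Real.exp (-(c * Real.exp (a / X.deg)))) ∧
    ∃ C : ℝ, 0 < C ∧
      (∀ (B ε : ℝ) (k : ℕ), 0 < ε → ∃ A δ : ℝ, 0 < δ ∧ ∀ (a : ℝ) (ν : ℕ∞), A ≤ a → Large (C * a * Real.exp (a / X.deg)) ν →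
        ∀ (Q : ℝ) (x : ℕ → ℂ), 0 < Q → Real.log (Q / X.A) ≤ δ → ∑ n ∈ Finset.Icc 2 ⌊Real.exp (2 * a)⌋₊, ‖x n‖ ≤ B → Nonneg X a ν Q x →
          Real.log (X.A / Q) ≤ ε ∧ ∀ n, 2 ≤ n → n ≤ k → ‖x n‖ ≤ ε) ∧
      (∀ (Q : ℝ) (x : ℕ → ℂ), 0 < Q → Q ≤ X.A → (Summable fun n => ‖x n‖) →
        ((∀ A : ℝ, ∃ (a : ℝ) (ν : ℕ∞), A ≤ a ∧ Large (C * a * Real.exp (a / X.deg)) ν ∧ Nonneg X a ν Q x) ↔
          RiemannHypothesis X ∧ Q = X.A ∧ ∀ n, 2 ≤ n → x n = 0)) ∧
      (RiemannHypothesis X ↔ ∀ ε : ℝ, 0 < ε → ∀ A : ℝ, ∃ (a : ℝ) (ν : ℕ∞) (Q : ℝ) (x : ℕ → ℂ), A ≤ a ∧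
        Large (C * a * Real.exp (a / X.deg)) ν ∧ 0 < Q ∧ Real.log (Q / X.A) ≤ Real.exp (ε * a) ∧
        ∑ n ∈ Finset.Icc 2 ⌊Real.exp (2 * a)⌋₊, ‖x n‖ ≤ Real.exp (ε * a) ∧ Nonneg X a ν Q x) ∧
      ∀ (k : ℕ) (B : ℝ), X.A ≤ B → (RiemannHypothesis X ↔ ∀ A : ℝ, ∃ (a : ℝ) (ν : ℕ∞) (Q : ℝ) (x : ℕ → ℂ), A ≤ a ∧
        Large (C * a * Real.exp (a / X.deg)) ν ∧ 0 < Q ∧ Q ≤ B ∧ (∀ n, k < n → x n = 0) ∧ Nonneg X a ν Q x) := by
  have H := outE X
  refine ⟨fun c hc => ?_, H.bnd⟩
  obtain ⟨C1, hC1, h1⟩ := places X hc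
  obtain ⟨C2, hC2, h2, -⟩ := H.rig c hc
  have hm1 : ∀ {a : ℝ} {ν : ℕ∞}, 0 < a → Large (max C1 C2 * a * Real.exp (a / X.deg)) ν → Large (C1 * a * Real.exp (a / X.deg)) ν :=
    fun ha h => Pool.Agent.Q286.PG.lgX_mono (by gcongr; exact le_max_left _ _) h
  have hm2 : ∀ {a : ℝ} {ν : ℕ∞}, 0 < a → Large (max C1 C2 * a * Real.exp (a / X.deg)) ν → Large (C2 * a * Real.exp (a / X.deg)) ν :=
    fun ha h => Pool.Agent.Q286.PG.lgX_mono (by gcongr; exact le_max_right _ _) h
  refine ⟨max C1 C2, lt_max_of_lt_left hC1, fun S hS => ?_, fun k => ?_⟩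
  · obtain ⟨K, A, h3⟩ := h1 S hS
    exact ⟨K, max A 1, fun a ν ha hν => h3 a ν ((le_max_left _ _).trans ha) (hm1 (lt_of_lt_of_le one_pos ((le_max_right _ _).trans ha)) hν)⟩
  · obtain ⟨K, A, -, h3⟩ := h2 k
    exact ⟨K, max A 1, fun a ν ha hν => h3 a ν ((le_max_left _ _).trans ha) (hm2 (lt_of_lt_of_le one_pos ((le_max_right _ _).trans ha)) hν)⟩

end Pool.Agent.Results.MP_fb225e_nt.PrimeRigidity
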