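import Pool.Agent.Q246.SB.Fin
import Pool.Agent.Q246.EL.Tr

/-!
# Symmetric averages of the translates of `Λ(E/K, s)`

Let `E` be an elliptic curve over a number field `K` for which `L(E/K, s)` is a product of L-functions of
newforms of weight two (elliptic curves over `ℚ` and abelian fields `K`; complex multiplication; `ℚ`-curves),
and `Λ(s) = Λ(E/K, s)`.  Let `μ` be a complex measure on `ℝ` of compact support which is symmetric,
`μ(-B) = u conj μ(B)` with `|u| = 1`, and has mass at the end points `± A`, `A > 0`, of its support; let the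
support be contained in `{a ≤ |x| ≤ A}`, `a ≥ 0`.  Consider

  `F(s) = ∫ Λ(s + x) dμ(x)`,

for example `F(s) = Σ c(x) Λ(s + x)` over a finite symmetric set of real shifts, `c(-x) = u conj c(x)`.

The limit `A → 0` (all mass at the point `0`) is the Riemann hypothesis for `L(E/K, s)`.  We prove, without any
hypothesis, that for every `A > 0` almost all zeros of `F` are simple and on the line `Re s = 1`: if
`θ < 1/2` and `2θ² < A² + a²`, at most the proportion `C T^(-θ)` of the zeros with imaginary part in `(0, T]`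
is off the line or multiple, uniformly in `u`.  If `A² + a² > 1/2`, or if the Riemann hypothesis holds for
`L(E/K, s)`, all but finitely many zeros of `F` are simple and on the line.

No condition on the Fourier transform of `μ` is made (for the classical theorems on universal factors its
zeros have to be on the imaginary axis).
-/
set_option autoImplicit false

open Complex NumberField IsDedekindDomain MeasureTheory
open scoped ComplexConjugate
open Pool.Agent.Q246.EL

namespace Pool.Agent.Results.MP_fb225e_nt.SymmetricAverages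

/-- The average `F(s) = ∫ (g(x) Λ(s + x) + u conj g(x) Λ(s - x)) dm(x)` of the translates of `Λ`: the complex
measure is `g m + u (conj g m)^`, where `^` is the reflection `x ↦ -x`. -/
noncomputable def avg (Λ : ℂ → ℂ) (m : Measure ℝ) (g : ℝ → ℂ) (u s : ℂ) : ℂ :=
  ∫ x, (g x * Λ (s + x) + u * (conj (g x) * Λ (s - x))) ∂m

/-- The measure `m` is on the interval `[a, A]`, where `0 ≤ a` and `0 < A`, the density `g` is integrable, and
`g m` has mass at `A`. -/
structure Weight (m : Measure ℝ) (g : ℝ → ℂ) (a A : ℝ) : Prop where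
  nonneg : 0 ≤ a
  pos : 0 < A
  supp : m (Set.Icc a A)ᶜ = 0
  int : Integrable g m
  mass : m {A} ≠ 0
  ne : g A ≠ 0

/-- The zeros of `F` with imaginary part in `(0, T]`. -/
def Zer (F : ℂ → ℂ) (T : ℝ) : Set ℂ := {s | F s = 0 ∧ 0 < s.im ∧ s.im ≤ T}

/-- The exceptional ones: off the line `Re s = 1`, or multiple. -/
def Exc (F : ℂ → ℂ) (T : ℝ) : Set ℂ := {s | s ∈ Zer F T ∧ (s.re ≠ 1 ∨ deriv F s = 0)}

/-- The number of points of `A`, each counted with its multiplicity as a zero of `F`. -/
noncomputable def num (F : ℂ → ℂ) (A : Set ℂ) : ℕ := ∑ᶠ s ∈ A, analyticOrderNatAt F s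

/-- **The theorem.** Let `E` be an elliptic curve over a number field `K` such that `L(E/K, s)` is the product of the
L-functions of a list of `[K : ℚ]` newforms of weight two.  Then `L(E/K, s)` and the completed L-function
`Λ = Λ(E/K, s)` exist, are unique, entire, `Λ(2 - s) = ± Λ(s)`; and for all averages of its translates with
weight on `[a, A]`:
(1) if `A² + a² > 1/2`, or if all zeros of `Λ` are on the line `Re s = 1`, all but finitely many zeros of the
    average are simple and on the line `Re s = 1`, for all `u` with `|u| = 1`;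
(2) for every `θ` in `[0, 1/2)` with `2θ² < A² + a²` there is `C > 0` such that for all `u` with `|u| = 1` and
    all `T ≥ 2` the number, with multiplicity, of the zeros of the average with imaginary part in `(0, T]`
    which are off the line `Re s = 1` or multiple is at most `C T^(-θ)` times the number of all zeros with
    imaginary part in `(0, T]`, and at most `C T^(1-θ)`. -/
theorem result {K : Type} [Field K] [NumberField K] (E : WeierstrassCurve K) [E.IsElliptic]
    (W : HeightOneSpectrum (𝓞 K) → WeierstrassCurve (𝓞 K)) (_hW : MinimalModels E W)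
    (l : List Newform) (hl : Attached W l) :
    ∃ (N : ℕ) (L Λ : ℂ → ℂ), IsTheCompleted W N L Λ ∧
      ∀ (m : Measure ℝ) [IsFiniteMeasure m] (g : ℝ → ℂ) (a A : ℝ), Weight m g a A →
        (∀ (u : ℂ) (T : ℝ), ‖u‖ = 1 → (Zer (avg Λ m g u) T).Finite) ∧
        ((1 / 2 < A ^ 2 + a ^ 2 ∨ ∀ s : ℂ, Λ s = 0 → s.re = 1) → ∀ u : ℂ, ‖u‖ = 1 →
          {s : ℂ | avg Λ m g u s = 0 ∧ (s.re ≠ 1 ∨ deriv (avg Λ m g u) s = 0)}.Finite) ∧
        ∀ θ : ℝ, 0 ≤ θ → θ < 1 / 2 → 2 * θ ^ 2 < A ^ 2 + a ^ 2 → ∃ C : ℝ, 0 < C ∧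
          ∀ (u : ℂ) (T : ℝ), ‖u‖ = 1 → 2 ≤ T →
            (num (avg Λ m g u) (Exc (avg Λ m g u) T) : ℝ) ≤
              C * T ^ (-θ) * num (avg Λ m g u) (Zer (avg Λ m g u) T) ∧
            (num (avg Λ m g u) (Exc (avg Λ m g u) T) : ℝ) ≤ C * T ^ (1 - θ) := by
  obtain ⟨N, c, Λ₀, L, hc, hF, h⟩ := exists_el hl
  refine ⟨N, L, _, h, fun m _ g a A hm => ?_⟩
  have hm' : Pool.Agent.Q246.SB.MD m g a A := by
    refine ⟨hm.nonneg, hm.pos, ?_, hm.int, ?_⟩
    · rw [ae_iff]
      exact hm.supp
    · refine mul_ne_zero ?_ hm.ne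
      rw [Complex.ofReal_ne_zero, Measure.real, ENNReal.toReal_ne_zero]
      exact ⟨hm.mass, measure_ne_top _ _⟩
  obtain ⟨w, hw, hfe⟩ := h.1.fe
  have hc0 : (c : ℂ) ≠ 0 := Complex.ofReal_ne_zero.2 hc.ne'
  have hw0 : (w : ℂ) ≠ 0 := by
    rcases hw with rfl | rfl <;> norm_num
  obtain ⟨h1, h2, h3⟩ := Pool.Agent.Q246.SB.avgs (Λ := fun s => (c : ℂ) * Λ₀ (s - 1 / 2)) hF hc0 (s0 := 1)
    (fun z => by
      show (c : ℂ) * Λ₀ (((1 : ℝ) : ℂ) + z - 1 / 2) = c * Λ₀ (1 / 2 + z)
      congr 2
      push_cast
      ring) hw0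
    (fun z => by
      have := hfe (1 + z)
      have e1 : (2 : ℂ) - (1 + z) = ((1 : ℝ) : ℂ) - z := by push_cast; ring
      have e2 : (1 : ℂ) + z = ((1 : ℝ) : ℂ) + z := by push_cast; ring
      rw [e1, e2] at this
      exact this) hm'
  refine ⟨h2, h1, h3⟩

end Pool.Agent.Results.MP_fb225e_nt.SymmetricAverages
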