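import Pool.Agent.Q246.EL.Tr

/-!
# Zeros of `Λ(E/K, s)` off the line, for elliptic curves attached to newforms of weight two

Let `E` be an elliptic curve over a number field `K` (for the problem: defined over `ℚ`), and suppose that
its L-function `L(E/K, s)` is a product of L-functions of `[K : ℚ]` newforms of weight two, with arbitrary
levels and nebentypus characters.  By modularity this is so for every elliptic curve over `ℚ` and every
abelian number field `K`, of arbitrary conductor (the newforms are the primitive forms of the twists by the
characters of `K`), for the elliptic curves over `ℚ` with complex multiplication by `F` and all fields `K ⊇ F`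
which are abelian over `F` (theta series), for the `ℚ`-curves over suitable fields.
Let `Λ(s) = A^(s/2) ((2π)^(-s) Γ(s))^[K : ℚ] L(E/K, s)`; its zeros are the nontrivial zeros of `L(E/K, s)`.

We prove, without any hypothesis, for EVERY `c < 1`: the number of zeros of `Λ` with imaginary part in `(0, T]`
and distance at least `δ` from the line `Re s = 1`, counted with multiplicity, is at most
`C T^(1 - c δ) log T`, for all `δ ≥ 0` and all `T ≥ 2`.  In particular the number of those at distance at least
`h / log T` is at most `C e^(-c h) T log T`: Selberg's density theorem near the line, with every exponent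
`c < 1`.

The density theorem of helper24 (modules `Pool.Agent.Y24.GL`, on project GD2 of helper671, `Pool.Agent.Y671`) for
L-functions given by axioms is applied to newforms with nebentypus and their products in the modules
`Pool.Agent.Q246.NC`; here it is applied to the Hasse-Weil L-function of `E/K`, defined by minimal models.
-/
set_option autoImplicit false

open Complex NumberField IsDedekindDomain
open Pool.Agent.Q246.EL

namespace Pool.Agent.Results.MP_fb225e_nt.ZeroDensity

/-- The zeros of `Λ` with imaginary part in `(0, T]` and distance at least `δ` from the line `Re s = 1`. -/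
def Off (Λ : ℂ → ℂ) (δ T : ℝ) : Set ℂ := {s | Λ s = 0 ∧ δ ≤ |s.re - 1| ∧ 0 < s.im ∧ s.im ≤ T}

/-- The number of points of `A`, each counted with its multiplicity as a zero of `Λ`. -/
noncomputable def num (Λ : ℂ → ℂ) (A : Set ℂ) : ℕ := ∑ᶠ s ∈ A, analyticOrderNatAt Λ s

/-- **The theorem.** Let `E` be an elliptic curve over a number field `K` such that `L(E/K, s)` is the product of the
L-functions of a list of `[K : ℚ]` newforms of weight two.  Then `L(E/K, s)` and the completed L-function
`Λ = Λ(E/K, s)` exist, are unique, entire, `Λ(2 - s) = ± Λ(s)`; and for every `c < 1` there is `C` such that for all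
`δ ≥ 0` and `T ≥ 2` the number of zeros of `Λ` with imaginary part in `(0, T]` and distance at least `δ` from
the line `Re s = 1`, counted with multiplicity, is at most `C T^(1 - c δ) log T`. -/
theorem result {K : Type} [Field K] [NumberField K] (E : WeierstrassCurve K) [E.IsElliptic]
    (W : HeightOneSpectrum (𝓞 K) → WeierstrassCurve (𝓞 K)) (_hW : MinimalModels E W)
    (l : List Newform) (hl : Attached W l) :
    ∃ (A : ℕ) (L Λ : ℂ → ℂ), IsTheCompleted W A L Λ ∧
      ∀ c : ℝ, c < 1 → ∃ C : ℝ, 0 < C ∧ ∀ δ T : ℝ, 0 ≤ δ → 2 ≤ T →
        (Off Λ δ T).Finite ∧ (num Λ (Off Λ δ T) : ℝ) ≤ C * T ^ (1 - c * δ) * Real.log T := by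
  obtain ⟨A, c, Λ₀, L, hc, hF, h⟩ := exists_el hl
  exact ⟨A, L, _, h, fun k hk => off1 hF hc (Λ := fun s => c * Λ₀ (s - 1 / 2)) (fun s => rfl) hk⟩

end Pool.Agent.Results.MP_fb225e_nt.ZeroDensity
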