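import Mathlib
import Pool.Agent.Q106.PK.Def
import Pool.Agent.Q106.PK.All

/-!
# Klarner's constant is a computable real number
-/

set_option autoImplicit false

namespace Pool.Agent.Results.MP_fc5d3b_co.KlarnerComputable

open Filter Topology
open Pool.Agent.Q106.PK (t)

/-- `t n` is the number of fixed `n`-ominoes. The limit `lam` of `t n ^ (1/n)` (Klarner's constant) exists; for every
`m ≥ 36` some `k` with `m ≤ k ≤ 4m` has `lam ^ k ≤ t k * k ^ 5`; `t` is primitive recursive. Let `g m` be the least natural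
number `p` with `t k * k ^ 5 * (m + 1) ^ k ≤ p ^ k` for all `m + 1 ≤ k ≤ 4 (m + 1)`. Then `g` is computable, and the
rational numbers `β n = min {g j / (j + 1) : 36 ≤ j ≤ 36 + n} + 1 / (n + 1)` are quotients `a n / b n` of values of
computable functions, they are strictly decreasing, and they converge to `lam`. -/
theorem result : ∃ lam : ℝ,
    Tendsto (fun n : ℕ => (t n : ℝ) ^ (1 / (n : ℝ))) atTop (𝓝 lam) ∧
    (∀ m : ℕ, 36 ≤ m → ∃ k : ℕ, m ≤ k ∧ k ≤ 4 * m ∧ lam ^ k ≤ (t k : ℝ) * (k : ℝ) ^ 5) ∧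
    Primrec t ∧
    ∃ g a b : ℕ → ℕ, Computable g ∧ Computable a ∧ Computable b ∧
      (∀ m : ℕ, IsLeast {p : ℕ | ∀ k : ℕ, m + 1 ≤ k → k ≤ 4 * (m + 1) → t k * k ^ 5 * (m + 1) ^ k ≤ p ^ k} (g m)) ∧
      (∀ n, 0 < b n) ∧
      (∀ n : ℕ, ∃ μ : ℚ, IsLeast {x : ℚ | ∃ j : ℕ, 36 ≤ j ∧ j ≤ 36 + n ∧ x = (g j : ℚ) / ((j : ℚ) + 1)} μ ∧
        (a n : ℚ) / (b n : ℚ) = μ + 1 / ((n : ℚ) + 1)) ∧
      StrictAnti (fun n => (a n : ℚ) / (b n : ℚ)) ∧
      Tendsto (fun n => (a n : ℝ) / (b n : ℝ)) atTop (𝓝 lam) :=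
  Pool.Agent.Q106.PK.all_MAIN

end Pool.Agent.Results.MP_fc5d3b_co.KlarnerComputable
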