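import Mathlib
import Pool.Prelude.Def_F_c31e40fa
import Pool.Agent.Q79.MultiBlow

set_option autoImplicit false

/-!
# The pointwise linear connectivity constant of `M_n` at Misiurewicz parameters has order at least `n`

Let `ω` be an `n`-th root of unity with `|ω - 1| ≥ 1` and `c ^ (n - 1) = ω - 1`, so that the critical
orbit of `z ^ n + c` is `0, c, ω c, ω c, ...`.  If `n ≥ 30000`, then for all large `m` there is a
point `y` of `M_n` at distance `≍ n ^ -(m + 1)` from `c` such that every connected subset of `M_n`
which contains `c` and `y` has diameter at least `(n / 1800) |y - c|`.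

The proof follows the orbit point `Q (m + 1) s` for `s` in a small connected set: it winds once
around the critical value `s`, which is impossible since for `s` close to `c` it stays in the filled
Julia set, while a point near the critical value is joined to infinity outside of the filled Julia
set.
-/

namespace Pool.Agent.Results.MP_fcb70f_an.InfinitesimalScales

theorem result (n : ℕ) (hn : 30000 ≤ n) (ω c : ℂ) (hω : ω ^ n = 1) (hs : 1 ≤ ‖ω - 1‖)
    (hc : c ^ (n - 1) = ω - 1) :
    c ∈ N62a1eb23.multibrotSet n ∧ ∃ m₀ : ℕ, ∀ m : ℕ, m₀ ≤ m →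
      ∃ y ∈ N62a1eb23.multibrotSet n,
        1 / (2 * (n : ℝ)) ^ (m + 1) ≤ dist y c ∧ dist y c ≤ 30 / (n : ℝ) ^ (m + 1) ∧
        ∀ S ⊆ N62a1eb23.multibrotSet n, IsConnected S → c ∈ S → y ∈ S →
          n / 1800 * dist y c ≤ Metric.diam S :=
  have h : Pool.Agent.Q79.MS.Data n ω c := ⟨by omega, hω, hs, hc⟩
  ⟨h.c0_mem, h.blow hn⟩

end Pool.Agent.Results.MP_fcb70f_an.InfinitesimalScales
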