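import Pool.Agent.Q200.LD.MainC

/-!
# MP_fd35e1_ag: the sign conjecture `C⁺(X)` and cycles of small dimension or small codimension

Let `X` be a smooth projective variety of dimension `d` over a field, let `W` be a Weil cohomology
theory (for instance crystalline cohomology), and let `D` be a divisor on `X` whose class satisfies
the hard Lefschetz theorem. Let `m` and `n` be different degrees in the open interval `(0, d)`, and
let `P` be a property of varieties (for instance being of dimension less than `d`). Consider the
classes on the powers of `X` which are generated, under linear combinations, cup products and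
pull-backs and push-forwards along the coordinate morphisms (projections, permutations and
diagonals), by

* the classes of all cycles of dimension less than `d` on all powers of `X`,
* the classes of all cycles of codimension less than `min (m, n)` on all powers of `X`,
* all classes, algebraic or not, on the powers of `X` which are push-forwards along morphisms
  whose components factor through varieties with the property `P`,
* the Künneth projectors of all degrees `i ≠ m, n, 2 d - m, 2 d - n`.

Suppose that for `j = m` and `j = n` the space `H^j(X)` is not spanned by the classes which are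
obtained from classes of degrees less than `j` by cycles of dimension at most `d` on the powers of
`X` and by the push-forwards from varieties with the property `P`.

1. If a generated class on `X × X` acts on every `H^j(X)` as a scalar `r_j`, then
   `r_m = r_(2 d - n)` and `r_n = r_(2 d - m)`.

2. If `m` is even and `n` is odd, then the even Künneth projector `π⁺` is not generated.
-/

open CategoryTheory AlgebraicGeometry

universe u v

namespace Pool.Agent.Results.MP_fd35e1_ag.SmallCycles

open Pool.Agent.H914 Pool.Agent.H914.VarClass Pool.Agent.H914.VarClass.Obj
  Pool.Agent.H914.WeilCohomology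
open Pool.Agent.Q200.LD

theorem result {k : Type u} [Field k] {𝒱 : VarClass k} {ops : CycleOps 𝒱}
    (W : WeilCohomology.{u, v} ops) (X : 𝒱.Obj) (D : X.Cycles) (hD : X.IsCyc 1 D)
    (hHL : HardLefschetz W X D) (m n : ℕ) (hm : 0 < m) (hn : 0 < n) (hmd : m < X.dim)
    (hnd : n < X.dim) (hmn : m ≠ n) (P : 𝒱.Obj → Prop)
    (hLm : ¬ W.gr X m ≤ lowerPart W X P m) (hLn : ¬ W.gr X n ≤ lowerPart W X P n) :
    ∀ c ∈ smallClasses W X P (min m n)
      {i | i ≠ m ∧ i ≠ n ∧ i ≠ 2 * X.dim - m ∧ i ≠ 2 * X.dim - n} 1,
      (∀ r, ActsByScalars (W.gr X) r (corr1 W X c) →
        r m = r (2 * X.dim - n) ∧ r n = r (2 * X.dim - m)) ∧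
      (m % 2 = 0 → n % 2 = 1 → ¬ IsEvenProjector (W.gr X) (corr1 W X c)) :=
  fun _ hc => ⟨fun _ hr => sign_scalars hD hHL hm hn hmd hnd hLm hLn hmn hc hr,
    fun hme hno => sign_even hD hHL hm hn hmd hnd hLm hLn hme hno hc⟩

end Pool.Agent.Results.MP_fd35e1_ag.SmallCycles
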