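import Pool.Agent.Q85.CR.Main

/-!
Concentration at the diffusive scale before a first singular time of a Leray-Hopf solution of the
Navier-Stokes equations in an arbitrary bounded open set: in some ball of radius comparable to
`√(ν (τ - t))`, whatever uniform motion is subtracted, the fluid that is faster than `√(ν / (τ - t))`
fills a region of critical volume, and so does the fluid that is compressed in some direction at a
rate larger than `1 / (τ - t)`.
-/

set_option autoImplicit false

open MeasureTheory Set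
open scoped InnerProductSpace

namespace Pool.Agent.Results.MP_fd8964_an.CriticalRegions

open H772R2.NS.Pub Pool.Agent.W795.TQ
open Q85.CR

/-- There are absolute constants `c, k, K > 0` such that the following holds for every
Leray-Hopf solution `u` on `[0,T]` with admissible data in a bounded open set `Ω`. Either `u` is a
strong solution on `[0,T]`, or there is a first singular time `τ ∈ (0,T]` with the properties (1)
and (2). (1) Let `0 ≤ s < τ`. There is a number `M` such that, whenever `β ≥ 0` is locally
integrable on `[s,τ)` and for almost every `t ∈ (s,τ)` one of the following holds: (a) for some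
`r, m` with `m² / ν + ν / r² ≤ β(t)`, every ball of radius `r` has a frame `a` such that in the ball
the set `{|u(t) - a| > l}` has at most the volume `(c ν / l)³` for all `l ≥ m`; (b) for some `r, m`
with `m + ν / r² ≤ β(t)`, in every ball of radius `r` the set where the fluid is compressed in some
direction at a rate larger than `l` has at most the volume `(c ν / l)^(3/2)` for all `l ≥ m`; then
`∫_s^t β ≥ k log (1/(τ - t)) - M` for `t < τ` arbitrarily close to `τ`. (2) For every `t1 < τ` there
is a set of times `t ∈ (t1,τ)` of positive (outer) measure at which there is a ball of radius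
`K √(ν (τ - t))` in which, relative to every frame `a`, the set `{|u(t) - a| > l}` has a volume
larger than `(c ν / l)³` for some `l ≥ √(ν / (τ - t)) / K`, and there is such a ball in which the
set where the fluid is compressed in some direction at a rate larger than `l` has a volume larger
than `(c ν / l)^(3/2)` for some `l ≥ 1 / (K² (τ - t))`. The field `u(t)` is extended by `0` outside
`Ω`. -/
theorem result : ∃ c k K : ℝ, 0 < c ∧ 0 < k ∧ 0 < K ∧
    ∀ (Ω : Set R3), IsOpen Ω → Bornology.IsBounded Ω → ∀ (ν T : ℝ), 0 < ν → 0 < T →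
    ∀ (F F' : ℝ → L2 Ω Mat), IsH1 T F F' →
    ∀ (u : ℝ → L2 Ω R3) (G : ℝ → L2 Ω Mat), IsLerayHopf Ω ν T F u G →
    ∀ z0 : L2 Ω Mat, (u 0, z0) ∈ H1graph Ω →
    (∃ g : L2 Ω R3, ∀ φ, IsTest Ω φ → rhs ν (u 0) z0 (F 0) φ = ∫ x in Ω, ⟪g.fn x, φ x⟫_ℝ) →
    (∃ u' G1 G', IsStrong Ω ν T F u u' G1 G') ∨
    ∃ τ ∈ Ioc 0 T, (∀ t ∈ Ioo 0 τ, ∃ u' G1 G', IsStrong Ω ν t F u u' G1 G') ∧
      (∀ s ∈ Ico 0 τ, ∃ M : ℝ, ∀ β : ℝ → ℝ,
        (∀ t, 0 ≤ β t) → (∀ t ∈ Ioo s τ, IntervalIntegrable β volume s t) →
        (∀ᵐ t ∂(volume.restrict (Ioo s τ)),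
          SlowRegions c ν (β t) (u t) ∨ WeakCompression c ν (β t) (G t)) →
        ∀ t0 < τ, ∃ t ∈ Ioo t0 τ, s < t ∧
          k * Real.log (1 / (τ - t)) - M ≤ ∫ r in s..t, β r) ∧
      ∀ t1 < τ, 0 < volume {t : ℝ | t ∈ Ioo t1 τ ∧
        (∃ y : R3, ∀ a : R3, ∃ l : ℝ, Real.sqrt (ν / (τ - t)) / K ≤ l ∧
          ENNReal.ofReal ((c * ν / l) ^ 3)
            < (volume : Measure R3) (fast (u t) y (K * Real.sqrt (ν * (τ - t))) a l)) ∧
        (∃ (y : R3) (l : ℝ), 1 / (K ^ 2 * (τ - t)) ≤ l ∧
          ENNReal.ofReal ((c * ν / l) ^ (3 / 2 : ℝ))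
            < (volume : Measure R3) (squeezed (G t) y (K * Real.sqrt (ν * (τ - t))) l))} :=
  Q85.CR.final

end Pool.Agent.Results.MP_fd8964_an.CriticalRegions
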