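import Pool.Agent.Q165.CPDD

/-!
# MP_ff54ac_co: limits of ratios of double-descent set counts

`IsDD w i` (in `Q165.CP`): the one-based index `i` is a double descent of the permutation `w`.
`ddc I n` is the number `dd(I; n)` of permutations of length `n` whose double descent set is `I`.

For all finite sets `I`, `J` for which `dd(I; n)` and `dd(J; n)` are positive for all large `n` the
quotient `dd(I; n) / dd(J; n)` converges to a positive real number.
-/

open Filter Topology

namespace Pool.Agent.Results.MP_ff54ac_co.Ratio

open Q165.CP

/-- If `dd(I; n)` and `dd(J; n)` are positive for all large `n`, then `dd(I; n) / dd(J; n)`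
converges to a positive real number. -/
theorem result (I J : Finset ℕ) (hI : ∀ᶠ n in atTop, 0 < ddc I n)
    (hJ : ∀ᶠ n in atTop, 0 < ddc J n) :
    ∃ L : ℝ, 0 < L ∧ Tendsto (fun n => (ddc I n : ℝ) / ddc J n) atTop (𝓝 L) :=
  dd_ratio hI hJ

end Pool.Agent.Results.MP_ff54ac_co.Ratio
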