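import Pool.Agent.Q269.GR.Fin
import Pool.Agent.Q269.GR.Asm

/-!
# Bounded growth of the rank of almost all the twists of an elliptic curve over `k(t)` under all the constant
# extensions of odd degree, and the reduction of the conjecture of Birch and Swinnerton-Dyer over them to
# finitely many

Let `k` be a finite field of characteristic different from 2 in which `-1` is a square, `K = k(t)`, and let `a`, `b` be
coprime polynomials over `k`, `a`, `b`, `a - b` of the same degree `N`, such that `a b`, `a (a - b)`, `b (a - b)` are not
constants times squares. For a monic squarefree polynomial `D` prime to `a b (a - b)` let `E_D` be the quadratic twist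
`y ^ 2 = x (x - a D) (x - b D)` of the elliptic curve `y ^ 2 = x (x - a) (x - b)` over `K`.

Theorem. For every `ε > 0` there are numbers `y` and `B`, depending only on `ε`, such that for all `k`, `a`, `b` and all large
`n` at least the proportion `1 - ε` of the `D` of degree `n` has the following properties, for ALL the finite extensions
`k'` of `k` of odd degree prime to the degrees of the prime divisors of `a b (a - b)` at the same time.

* `E_D(k'(t))` is finitely generated and `rank E_D(k(t)) ≤ rank E_D(k'(t)) ≤ rank E_D(k(t)) + B`: the rank is bounded in the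
  whole tower.
* If all the prime divisors of the degree of `k'` over `k` are larger than `y` the two ranks are equal.
* For every divisor `r > y` of the degree the part of order `r` of the 2-Selmer group of `E_D` over `k'(t)` (the part on
  which the Frobenius automorphism of `k'` over `k` acts by the primitive `r`-th roots of unity) is zero at one of
  the primes above two of the field of the `r`-th roots of unity.

By the last property the twists of the L-function of `E_D` by the characters of order `r > y` of the constant
extensions (of admissible degrees) do not vanish at the central point (Artin-Tate, Milne; see the file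
`OddConstantExtensions` of the problem MP_48b749_nt). So for these `D` the analytic rank is bounded in the whole tower, and the
conjecture of Birch and Swinnerton-Dyer for `E_D` over all the fields `k'(t)` is equivalent to that over those of
degree at most `y`. The rank over `k(t)` itself is not restricted, and no class of the `D` is excluded.

For the proof see the file `OddConstantExtensions` of the problem MP_48b749_nt. The sum over the odd `r > y` of the
probabilities that the part of order `r` is not zero (for one root of unity of order `r`) tends to zero as `y` grows,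
and the mean numbers of the elements of the parts of order `r ≤ y` are bounded.
-/

set_option autoImplicit false
set_option linter.all false

namespace Pool.Agent.Results.MP_ff7320_nt.BoundedGrowthOddTowers

open Polynomial Filter Pool.Agent.TH115.GD
open scoped Classical

/-- The polynomial `f` is not a constant multiple of a square. -/
def NotConstSquare {k : Type} [Field k] (f : k[X]) : Prop := ∀ (c : k) (h : k[X]), f ≠ C c * h ^ 2

/-- The hypotheses on the field `k` and the curve `y ^ 2 = x (x - a) (x - b)`. -/
structure Hypotheses {k : Type} [Field k] (a b : k[X]) (N : ℕ) : Prop where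
  two : (2 : k) ≠ 0
  square : IsSquare (-1 : k)
  coprime : IsCoprime a b
  deg_a : a.natDegree = N
  deg_b : b.natDegree = N
  deg_sub : (a - b).natDegree = N
  ab : NotConstSquare (a * b)
  ac : NotConstSquare (a * (a - b))
  bc : NotConstSquare (b * (a - b))

/-- The twists: the monic squarefree polynomials `D` of degree `n` prime to `a b (a - b)`. -/
def Twists {k : Type} [Field k] (a b : k[X]) (n : ℕ) : Set k[X] :=
  {D | D.Monic ∧ D.natDegree = n ∧ Squarefree D ∧ IsCoprime D (a * b * (a - b))}

/-- The curve `E_D : y ^ 2 = x (x - a D) (x - b D)` over the field `K'` of rational functions over an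
extension `k'` of `k`. -/
noncomputable def twist {k : Type} [Field k] (k' K' : Type) [Field k'] [Algebra k k'] [Field K']
    [Algebra k'[X] K'] (a b D : k[X]) : WeierstrassCurve K' :=
  crv (algebraMap k'[X] K' ((a * D).map (algebraMap k k')))
    (algebraMap k'[X] K' ((b * D).map (algebraMap k k')))

/-- The finite extensions `k'` of `k` of odd degree prime to the degrees of the prime divisors of
`a b (a - b)`. -/
structure OddExtension {k : Type} [Field k] (k' : Type) [Field k'] [Algebra k k'] (a b : k[X]) : Prop where
  odd : Odd (Module.finrank k k')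
  coprime : ∀ Q : k[X], Irreducible Q → Q ∣ a * b * (a - b) →
    Nat.Coprime (Module.finrank k k') Q.natDegree

/-- The automorphism of `K' = k'(t)` which fixes `t` and is `x ↦ x ^ |k|` on `k'`. -/
structure IsFrobenius (k k' : Type) {K' : Type} [Field k] [Field k'] [Algebra k k'] [Field K']
    [Algebra k'[X] K'] (σ : K' ≃+* K') : Prop where
  const : ∀ c : k', σ (algebraMap k'[X] K' (C c)) = algebraMap k'[X] K' (C (c ^ Nat.card k))
  var : σ (algebraMap k'[X] K' X) = algebraMap k'[X] K' X

/-- The pairs `(u, v)` of nonzero elements of `K' = k'(t)` which represent the elements of the 2-Selmer group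
of `y ^ 2 = x (x - A) (x - B)`: at all the places `w` of `K'` there is a point `Q` over the completion with
`u ≡ x(Q)`, `v ≡ x(Q) - A` modulo squares (with the usual convention at the points of order two). -/
def SelmerPair (k' : Type) {K' : Type} [Field k'] [Field K'] [Algebra k'[X] K'] [IsFractionRing k'[X] K']
    (A B u v : K') : Prop :=
  u ≠ 0 ∧ v ≠ 0 ∧ LSg (F := K') k' (crv A B) A B u v

/-- `p(σ)` applied to `u` (written multiplicatively). -/
noncomputable def polyAct {K' : Type} [Field K'] (σ : K' ≃+* K') (p : (ZMod 2)[X]) (u : K') : K' :=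
  ∏ i ∈ Finset.range (p.natDegree + 1), (σ^[i] u) ^ (p.coeff i).val

/-- The part of order `r` of the 2-Selmer group of `E_D` over `K' = k'(t)` at some prime above two is zero: the group
is killed by `p(σ)`, `σ` the Frobenius automorphism, for a polynomial `p` over the field with two elements which
is not divisible by the cyclotomic polynomial `Φ_r`. -/
def NoPart {k : Type} [Field k] (k' K' : Type) [Field k'] [Algebra k k'] [Field K'] [Algebra k'[X] K']
    [IsFractionRing k'[X] K'] (a b D : k[X]) (r : ℕ) : Prop :=
  ∀ σ : K' ≃+* K', IsFrobenius k k' σ → ∃ p : (ZMod 2)[X], ¬ cyclotomic r (ZMod 2) ∣ p ∧ ∀ u v : K',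
    SelmerPair k' (algebraMap k'[X] K' ((a * D).map (algebraMap k k')))
      (algebraMap k'[X] K' ((b * D).map (algebraMap k k'))) u v →
    IsSquare (polyAct σ p u) ∧ IsSquare (polyAct σ p v)

section proof

open Pool.Agent.Q269.GR Pool.Agent.Y164.PS Finset

theorem hyp_of {k : Type} [Field k] [Fintype k] {a b : k[X]} {N : ℕ} (h : Hypotheses a b N) :
    Hyp a b N := Q283.FS.mk_hyp h.two h.square h.coprime h.deg_a h.deg_b h.deg_sub h.ab h.ac

theorem ext_of {k k' : Type} [Field k] [Fintype k] [Field k'] [Fintype k'] [Algebra k k'] {a b : k[X]}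
    (h : OddExtension k' a b) : Ext k k' a b := ⟨h.odd, fun Q _ hi hd => h.coprime Q hi hd⟩

theorem sg_of {k k' K' : Type} [Field k] [Fintype k] [Field k'] [Algebra k k'] [Field K']
    [Algebra k'[X] K'] {σ : K' ≃+* K'} (h : IsFrobenius k k' σ) : IsSg k k' σ := by
  constructor
  intro p
  induction p using Polynomial.induction_on' with
  | add p q hp hq => rw [map_add, map_add, hp, hq, ph, ph, ph, Polynomial.map_add, map_add]
  | monomial n c =>
    rw [← C_mul_X_pow_eq_monomial, map_mul, map_mul, map_pow, map_pow, h.const, h.var, ph,
      Polynomial.map_mul, Polynomial.map_pow, Polynomial.map_C, Polynomial.map_X, map_mul,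
      map_pow (algebraMap k'[X] K') X, Nat.card_eq_fintype_card]
    rfl

theorem mm_self {k K : Type} [Field k] [Field K] [Algebra k[X] K] (A : k[X]) :
    algebraMap k[X] K (A.map (algebraMap k k)) = algebraMap k[X] K A := by
  rw [Algebra.algebraMap_self, Polynomial.map_id]

theorem twist_self {k K : Type} [Field k] [Field K] [Algebra k[X] K] (a b D : k[X]) :
    twist k K a b D = crv (algebraMap k[X] K (a * D)) (algebraMap k[X] K (b * D)) := by
  rw [twist, mm_self, mm_self]

theorem rank_self {k K : Type} [Field k] [Field K] [Algebra k[X] K] (a b D : k[X]) :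
    Module.finrank ℤ (Pt (twist k K a b D) K) =
      Module.finrank ℤ (Pt (crv (algebraMap k[X] K (a * D)) (algebraMap k[X] K (b * D))) K) := by
  rw [twist_self]

theorem ncard_tw {k : Type} [Field k] [Fintype k] (a b : k[X]) (n : ℕ) (P : k[X] → Prop) :
    {D ∈ Twists a b n | P D}.ncard = ((Dn (a * b * (a - b)) n).filter fun D => P D).card := by
  rw [← Set.ncard_coe_finset]
  congr 1
  ext D
  rw [Finset.mem_coe, mem_filter, mem_Dn']
  show (_ ∧ _ ∧ _ ∧ _) ∧ _ ↔ _
  tauto

theorem ncard_tw' {k : Type} [Field k] [Fintype k] (a b : k[X]) (n : ℕ) :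
    (Twists a b n).ncard = (Dn (a * b * (a - b)) n).card := by
  rw [← Set.ncard_coe_finset]
  congr 1
  ext D
  rw [Finset.mem_coe, mem_Dn']
  show (_ ∧ _ ∧ _ ∧ _) ↔ _
  tauto

/-- the second part for one `D` -/
theorem two_D (h2 : S_ARI) (h3 : S_SEL) (h4 : S_XIR) {k : Type} [Field k] [Fintype k] {a b : k[X]}
    {N : ℕ} (H : Hyp a b N) {n : ℕ} {D : k[X]} (hD : D ∈ Dn (a * b * (a - b)) n) {y M : ℕ}
    (hg : ∀ r : ℕ, Odd r → 1 < r → (y < r → Pool.Agent.Q269.GR.Good r a b D) ∧
        Nat.card (KD r (xi r) a b D) ≤ 2 ^ M) :
    ∀ (K k' K' : Type) [Field K] [Algebra k[X] K] [IsFractionRing k[X] K] [Field k'] [Finite k']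
            [Algebra k k'] [Field K'] [Algebra k'[X] K'] [IsFractionRing k'[X] K'], OddExtension k' a b →
            AddGroup.FG (Pt (twist k' K' a b D) K') ∧
            Module.finrank ℤ (Pt (twist k K a b D) K) ≤ Module.finrank ℤ (Pt (twist k' K' a b D) K') ∧
            (∀ r : ℕ, y < r → 1 < r → r ∣ Module.finrank k k' → NoPart k' K' a b D r) ∧
            Module.finrank ℤ (Pt (twist k' K' a b D) K') ≤
              Module.finrank ℤ (Pt (twist k K a b D) K) + (∑ r ∈ range (y + 1), r * M) ∧
            ((∀ l : ℕ, l.Prime → l ∣ Module.finrank k k' → y < l) →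
              Module.finrank ℤ (Pt (twist k' K' a b D) K') = Module.finrank ℤ (Pt (twist k K a b D) K)) := by
  intro K k' K' _ _ _ _ _ _ _ _ _ he
  let _ : Fintype k' := Fintype.ofFinite k'
  obtain ⟨g1, g2, g3⟩ := h2 k k' K K' a b N H (ext_of he) n D hD
  rw [rank_self]
  refine ⟨g1, g2, fun r hy hr hd σ hσ => ?_, ?_, ?_⟩
  · have ho : Odd r := he.odd.of_dvd_nat hd
    obtain ⟨p, hp, h⟩ := h3 k k' K' σ (sg_of hσ) (Fr r) (xi r) r (h4 r ho hr).ord hr hd H.hk he.odd
    exact ⟨p, hp, fun u v huv => h a b N H (ext_of he) n D hD ((hg r ho hr).1 hy) u v huv.1 huv.2.1 huv.2.2⟩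
  · refine g3.trans (Nat.add_le_add_left ?_ _)
    calc ∑ r ∈ (Module.finrank k k').divisors.filter (fun r => 1 < r),
          Nat.totient r * Module.finrank (Fr r) (KD r (xi r) a b D)
        ≤ ∑ r ∈ (Module.finrank k k').divisors.filter (fun r => 1 < r), (if r ≤ y then r * M else 0) := by
          refine sum_le_sum fun r hr => ?_
          rw [mem_filter, Nat.mem_divisors] at hr
          obtain ⟨h1, h3⟩ := hg r (he.odd.of_dvd_nat hr.1.1) hr.2
          by_cases hy : r ≤ y
          · rw [if_pos hy]
            exact Nat.mul_le_mul (Nat.totient_le r) (rank_le_of_card h3)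
          · have := h1 (by omega)
            rw [Pool.Agent.Q269.GR.Good] at this
            rw [this, finrank_bot, mul_zero]
            exact Nat.zero_le _
      _ ≤ ∑ r ∈ range (y + 1), r * M := by
          rw [← sum_filter]
          refine sum_le_sum_of_subset fun r hr => ?_
          rw [mem_filter] at hr
          rw [mem_range]
          omega
  · intro hl
    refine le_antisymm ?_ g2
    refine g3.trans ?_
    rw [sum_zero (fun r hr => ?_), add_zero]
    rw [mem_filter, Nat.mem_divisors] at hr
    refine (hg r (he.odd.of_dvd_nat hr.1.1) hr.2).1 ?_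
    have h5 := Nat.minFac_prime (n := r) (by omega)
    exact lt_of_lt_of_le (hl _ h5 ((Nat.minFac_dvd r).trans hr.1.1)) (Nat.minFac_le (by omega))

end proof

open Pool.Agent.Q269.GR Finset in
/-- **Theorem.** For all but the proportion `ε` of all the twists the rank over `k'(t)` exceeds the rank over `k(t)` by at most
`B`, for all the extensions `k'` of odd degree (prime to the degrees of the bad places) simultaneously, they are
equal if the degree has no prime divisor up to `y`, and the part of order `r` of the 2-Selmer group is zero at one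
prime above two for every `r > y`; `y` and `B` depend only on `ε`. -/
theorem result :
    ∀ ε : ℝ, 0 < ε → ∃ y B : ℕ, ∀ (k : Type) [Field k] [Finite k] (a b : k[X]) (N : ℕ),
      Hypotheses a b N → ∀ᶠ n : ℕ in atTop, (1 - ε) * (((Twists a b n).ncard : ℕ) : ℝ) ≤
        (({D ∈ Twists a b n |
          ∀ (K k' K' : Type) [Field K] [Algebra k[X] K] [IsFractionRing k[X] K] [Field k'] [Finite k']
            [Algebra k k'] [Field K'] [Algebra k'[X] K'] [IsFractionRing k'[X] K'], OddExtension k' a b →
            AddGroup.FG (Pt (twist k' K' a b D) K') ∧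
            Module.finrank ℤ (Pt (twist k K a b D) K) ≤ Module.finrank ℤ (Pt (twist k' K' a b D) K') ∧
            (∀ r : ℕ, y < r → 1 < r → r ∣ Module.finrank k k' → NoPart k' K' a b D r) ∧
            Module.finrank ℤ (Pt (twist k' K' a b D) K') ≤ Module.finrank ℤ (Pt (twist k K a b D) K) + B ∧
            ((∀ l : ℕ, l.Prime → l ∣ Module.finrank k k' → y < l) →
              Module.finrank ℤ (Pt (twist k' K' a b D) K') = Module.finrank ℤ (Pt (twist k K a b D) K))
          }.ncard : ℕ) : ℝ) := by
  intro ε hε
  obtain ⟨y, M, h⟩ := Asm.a_END.2 ε hε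
  refine ⟨y, ∑ r ∈ range (y + 1), r * M, fun k _ _ a b N hH => ?_⟩
  let _ : Fintype k := Fintype.ofFinite k
  have H := hyp_of hH
  filter_upwards [h k a b N H (mk_hyk H hH.ab hH.ac hH.bc)] with n hn
  rw [ncard_tw, ncard_tw']
  refine hn.trans (Nat.cast_le.2 (card_le_card fun D hD => ?_))
  simp only [mem_filter] at hD ⊢
  exact ⟨hD.1, two_D Asm.a_ARI Asm.a_SEL Asm.a_XIR H hD.1 hD.2⟩

end Pool.Agent.Results.MP_ff7320_nt.BoundedGrowthOddTowers
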