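import Mathlib
import Pool.Agent.Q283.FS.Par

/-!
# Laws of large numbers for the ranks and the Tate-Shafarevich groups in arbitrary sequences of quadratic
# twists over `F_q(t)`, `q` fixed

Let `k` be a finite field of characteristic different from `2` in which `-1` is a square, `K = k(t)`, and
let `E : y² = x (x - a) (x - b)` be an elliptic curve over `K`, where `a`, `b` are coprime polynomials, `a`,
`b`, `a - b` have the same degree `N` and none of `a b`, `a (a - b)`, `b (a - b)` is a constant multiple of
a square. `E_D : y² = x (x - a D) (x - b D)` are the quadratic twists of `E`. Let `NonSplitTwists a b n` be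
the set of the monic squarefree polynomials `D` of degree `n`, prime to `a b (a - b)`, for which `E_D` has
non-split multiplicative reduction at all the finite places at which `E` has bad reduction, and let `n` go to
infinity through the numbers with `n + N` odd. Let `m_0, m_1, m_2, …` be ANY sequence of different monic
squarefree polynomials of even degree that are nonzero squares modulo all the prime divisors of
`a b (a - b)`. A curve is called good if its group of points over `K` is finite and the 2-primary part of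
its Tate-Shafarevich group over `K` is zero (the Birch and Swinnerton-Dyer conjecture holds for it, by
Artin, Tate and Milne). Let `c = ∏_{i odd} (1 - 2^{-i}) = 0.4194…`.

* The number of the good curves among `E_{D m_0}, …, E_{D m_{J-1}}` is binomially distributed with the
  parameters `J` and `c`: for every `j` the proportion of the `D` for which it is `j` converges to
  `J choose j * c^j * (1 - c)^(J - j)`.
* For every `ε` the `D` for which the frequency of the good curves among the first `J` differs from `c` by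
  at least `ε` have a limit proportion, which is at most `2 exp (- ε² J / 4)`.
* The same for the frequency of the `i < J` for which the 2-Selmer group of `E_{D m_i}` over `K` has
  `4 ^ (r + 1)` elements for some `r` in `T`, for every set `T` of numbers, with the measure of `T` for
  `law r = c 4^r / ((2 - 1) (2² - 1) ⋯ (2^{2 r} - 1))` instead of `c = law 0`.
* For all `D` the groups `E_{D m_i}(K)` are finitely generated, and the average of the numbers
  `min (rank E_{D m_i}(K), 2 B)` over the `i < J` is less than `1.2042 + ε` for all `D` outside a set of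
  upper limit proportion at most `2 B exp (- ε² J / (16 B²))`.
* For every `M`, for `100 %` of the `D` at least `M` of the curves `E_{D m_i}` are good.
-/

set_option autoImplicit false

namespace Pool.Agent.Results.MP_ff7320_nt.LawOfLargeNumbersTwists

open Polynomial Filter Pool.Agent.TH115.GD
open scoped Classical

/-- The polynomial `f` is not a square modulo `Q` (in particular it is not divisible by `Q`). -/
def NonSquareMod {k : Type} [Field k] (Q f : k[X]) : Prop := ∀ h : k[X], ¬ Q ∣ h ^ 2 - f

/-- The polynomial `f` is not a constant multiple of a square. -/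
def NotConstSquare {k : Type} [Field k] (f : k[X]) : Prop := ∀ (c : k) (h : k[X]), f ≠ C c * h ^ 2

/-- The monic squarefree polynomials `D` of degree `n` for which `b D` is not a square modulo the prime
divisors of `a` and `a D` is not a square modulo the prime divisors of `b (a - b)`. -/
def NonSplitTwists {k : Type} [Field k] (a b : k[X]) (n : ℕ) : Set k[X] :=
  {D | D.Monic ∧ D.natDegree = n ∧ Squarefree D ∧
    (∀ Q : k[X], Irreducible Q → Q ∣ a → NonSquareMod Q (b * D)) ∧
    (∀ Q : k[X], Irreducible Q → Q ∣ b * (a - b) → NonSquareMod Q (a * D))}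

/-- The multipliers: the monic squarefree polynomials of even degree that are nonzero squares modulo the
prime divisors of `a b (a - b)`. -/
structure Multiplier {k : Type} [Field k] (a b m : k[X]) : Prop where
  monic : m.Monic
  squarefree : Squarefree m
  even : Even m.natDegree
  square : ∀ Q : k[X], Irreducible Q → Q ∣ a * b * (a - b) → ¬ Q ∣ m ∧ ∃ h : k[X], Q ∣ h ^ 2 - m

/-- The curve `E_D : y ^ 2 = x (x - a D) (x - b D)` over `K = k(t)`. -/
noncomputable def twist {k : Type} [Field k] (K : Type) [Field K] [Algebra k[X] K]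
    (a b D : k[X]) : WeierstrassCurve K :=
  crv (algebraMap k[X] K (a * D)) (algebraMap k[X] K (b * D))

/-- The 2-Selmer group of a curve `W` over `K = k(t)` whose points of order two are rational: the
continuous cocycles with values in the group of the points of order at most two (on which the Galois group
acts trivially, so that these cocycles are the cohomology classes) that are coboundaries in `W` at all the
places of `K`, the infinite place included. -/
def Sel (k : Type) {K : Type} [Field k] [Field K] [Algebra k[X] K] [IsFractionRing k[X] K]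
    (W : WeierstrassCurve K) : Set ((Sep K ≃ₐ[K] Sep K) → Pt W (Sep K)) :=
  {f | IsCoc W f ∧ (∀ σ, f σ + f σ = 0) ∧ LocallyTrivial k W f}

/-- The group `W(K)` is finite and the 2-primary part of the Tate-Shafarevich group of `W` over `K` is
zero. -/
def Good (k : Type) {K : Type} [Field k] [Field K] [Algebra k[X] K] [IsFractionRing k[X] K]
    (W : WeierstrassCurve K) : Prop := Finite (Pt W K) ∧ ShaTwo k W

/-- The proportion of the `D` with the property `P` in `NonSplitTwists a b n`. -/
noncomputable def proportion {k : Type} [Field k] (a b : k[X]) (P : k[X] → Prop) (n : ℕ) : ℝ :=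
  (({D ∈ NonSplitTwists a b n | P D}.ncard : ℕ) : ℝ) / (((NonSplitTwists a b n).ncard : ℕ) : ℝ)

/-- `n` goes to infinity with `n + N` odd. -/
def degrees (N : ℕ) : Filter ℕ := atTop ⊓ 𝓟 {n | Odd (n + N)}

/-- The number of the `i < J` for which `D m_i` has the property `P`. -/
noncomputable def number {k : Type} [Field k] (m : ℕ → k[X]) (P : k[X] → Prop) (J : ℕ) (D : k[X]) : ℕ :=
  ((Finset.range J).filter fun i => P (D * m i)).card

/-- The average over the `i < J` of the ranks of the `E_{D m_i}(K)`, truncated at `B`. -/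
noncomputable def averageRank {k : Type} [Field k] (K : Type) [Field K] [Algebra k[X] K]
    (a b : k[X]) (m : ℕ → k[X]) (B J : ℕ) (D : k[X]) : ℝ :=
  (∑ i ∈ Finset.range J,
    ((min (Module.finrank ℤ (Pt (twist K a b (D * m i)) K)) B : ℕ) : ℝ)) / J

/-- `law r = c 4^r / ((2 - 1) (2² - 1) ⋯ (2^{2 r} - 1))` with `c = ∏_{i odd} (1 - 2^{-i})`. -/
noncomputable def law (r : ℕ) : ℝ :=
  (∏' i : ℕ, (1 - (1 / 2 : ℝ) ^ (2 * i + 1))) * 4 ^ r / ∏ i ∈ Finset.range (2 * r), ((2 : ℝ) ^ (i + 1) - 1)

section proof

open Q283.FS Pool.Agent.Y164.PS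

theorem cf_eq (j : ℕ) : Pool.Agent.Y697.PQ.cf j = 1 / ∏ i ∈ Finset.range j, ((2 : ℝ) ^ (i + 1) - 1) := by
  induction j with
  | zero => simp [Pool.Agent.Y697.PQ.cf]
  | succ j ih =>
    rw [Pool.Agent.Y697.PQ.cf, ih, Finset.prod_range_succ, div_div]

theorem law_eq (r : ℕ) : lw r = law r := by
  unfold lw law
  rw [cf_eq]
  unfold Pool.Agent.Y703.CQ.c2
  ring

end proof

open Q283.FS Pool.Agent.Y164.PS in
theorem result (k : Type) [Field k] [Finite k] (h2 : (2 : k) ≠ 0) (hi : IsSquare (-1 : k))
    (K : Type) [Field K] [Algebra k[X] K] [IsFractionRing k[X] K] (a b : k[X]) (N : ℕ)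
    (hco : IsCoprime a b) (ha : a.natDegree = N) (hb : b.natDegree = N)
    (hab : (a - b).natDegree = N) (h₁ : NotConstSquare (a * b))
    (h₂ : NotConstSquare (a * (a - b))) (h₃ : NotConstSquare (b * (a - b)))
    (m : ℕ → k[X]) (hm : ∀ i, Multiplier a b (m i)) (hinj : Function.Injective m) :
    (∀ J j : ℕ, Tendsto (proportion a b fun D =>
      number m (fun F => Good k (twist K a b F)) J D = j) (degrees N)
        (nhds (J.choose j * law 0 ^ j * (1 - law 0) ^ (J - j)))) ∧
    (∀ J : ℕ, 0 < J → ∀ ε : ℝ, 0 < ε → ∃ l : ℝ, l ≤ 2 * Real.exp (-(ε ^ 2 * J / 4)) ∧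
      Tendsto (proportion a b fun D =>
        ε ≤ |(number m (fun F => Good k (twist K a b F)) J D : ℝ) / J - law 0|) (degrees N) (nhds l)) ∧
    (∀ (T : Set ℕ) (J : ℕ), 0 < J → ∀ ε : ℝ, 0 < ε → ∃ l : ℝ, l ≤ 2 * Real.exp (-(ε ^ 2 * J / 4)) ∧
      Tendsto (proportion a b fun D => ε ≤ |(number m (fun F => ∃ r ∈ T,
        Nat.card (Sel k (twist K a b F)) = 4 ^ (r + 1)) J D : ℝ) / J - ∑' r : T, law r|)
          (degrees N) (nhds l)) ∧
    (∀ n : ℕ, Odd (n + N) → ∀ D ∈ NonSplitTwists a b n, ∀ i,
      AddGroup.FG (Pt (twist K a b (D * m i)) K)) ∧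
    (∀ B J : ℕ, 0 < B → 0 < J → ∀ ε δ : ℝ, 0 < ε → 0 < δ → ∀ᶠ n : ℕ in degrees N,
      proportion a b (fun D => 1.2042 + ε ≤ averageRank K a b m (2 * B) J D) n ≤
        2 * B * Real.exp (-(ε ^ 2 * J / (16 * B ^ 2))) + δ) ∧
    (∀ M : ℕ, Tendsto (proportion a b fun D => ∃ F : Finset ℕ, F.card = M ∧ ∀ i ∈ F,
      Good k (twist K a b (D * m i))) (degrees N) (nhds 1)) ∧
    HasSum law 1 ∧ 0.4194 < law 0 ∧ law 0 < 0.4195 := by
  let _ : Fintype k := Fintype.ofFinite k
  have H : Hyp a b N := mk_hyp h2 hi hco ha hb hab h₁ h₂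
  have hq := four_le h2 hi
  have h2t := two_types H h₁ h₂ h₃
  have hm' : ∀ i, Mlt a b (m i) := fun i => ⟨(hm i).monic, (hm i).squarefree, (hm i).even, (hm i).square⟩
  have hlaw : lw = law := funext law_eq
  have ar : ∀ {n : ℕ} {D : k[X]}, Odd (n + N) → D ∈ Cn a b n → ∀ i,
      Nat.card (Sel k (twist K a b (D * m i))) = 4 ^ (rr H (pf (m i)) D + 1) :=
    fun ho hD i => (arith (K := K) H hD ho (hm' i)).1
  have pinj : ∀ {r s : ℕ}, 4 ^ (r + 1) = 4 ^ (s + 1) → r = s := by
    intro r s h
    have := Nat.pow_right_injective (le_refl 2 |>.trans (by norm_num : 2 ≤ 4)) h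
    omega
  have good : ∀ {n : ℕ} {D : k[X]}, Odd (n + N) → D ∈ Cn a b n → ∀ i,
      (Good k (twist K a b (D * m i)) ↔ rr H (pf (m i)) D ∈ ({0} : Set ℕ)) := by
    intro n D ho hD i
    rw [Set.mem_singleton_iff]
    exact (arith (K := K) H hD ho (hm' i)).2.2.2.symm
  have prop_eq : ∀ P : k[X] → Prop, ∀ n, (((Cn a b n).filter fun D => P D).card : ℝ) /
      ((Cn a b n).card : ℝ) = proportion a b P n := by
    intro P n
    have e1 := ncard_cls H n P
    have e2 := ncard_cls' H n
    show _ = (({D ∈ cls a b n | P D}.ncard : ℕ) : ℝ) / (((cls a b n).ncard : ℕ) : ℝ)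
    rw [e1, e2]
  have lw0 : ∀ r, 0 ≤ lw r := fun r => (lw_pos r).le
  have one : ∑' s : ({0} : Set ℕ), lw s = law 0 := by
    rw [tsum_singleton 0 lw, law_eq]
  refine ⟨fun J j => ?_, fun J hJ ε hε => ?_, fun T J hJ ε hε => ?_, fun n ho D hD i => ?_,
    fun B J hB hJ ε δ hε hδ => ?_, fun M => ?_, ?_, ?_⟩
  · refine tendsto_par fun e he => ?_
    have h := Q283.Bin.binom (Q283.Bin.pat_T sum_lw lw0 (ne_Cn H hq h2t he)
      (law_seq H hq h2t hm' hinj he) {0}) J j
    rw [one] at h
    refine h.congr fun X => ?_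
    rw [← prop_eq]
    congr 2
    refine Q283.Bin.fcc fun D hD => iff_of_eq ?_
    exact congrArg (fun t : ℕ => t = j)
      (Q283.Bin.fcc fun i _ => (good (par_odd X he) hD i).symm)
  · obtain ⟨e, he, he1⟩ := exists_par N
    have h0 := ms_mem sum_lw lw0 {0}
    obtain ⟨l, g1, g2⟩ := Q283.Bin.lln_exp h0.1 h0.2 (Q283.Bin.pat_T sum_lw lw0 (ne_Cn H hq h2t he)
      (law_seq H hq h2t hm' hinj he) {0}) J hJ ε hε
    have one' : ms lw {0} = law 0 := one
    rw [one'] at g2
    refine ⟨l, g1, tendsto_one he he1 (g2.congr fun X => ?_)⟩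
    rw [← prop_eq]
    congr 2
    refine Q283.Bin.fcc fun D hD => iff_of_eq ?_
    exact congrArg (fun t : ℕ => ε ≤ |(t : ℝ) / J - law 0|)
      (Q283.Bin.fcc fun i _ => (good (par_odd X he) hD i).symm)
  · obtain ⟨e, he, he1⟩ := exists_par N
    have h0 := ms_mem sum_lw lw0 T
    obtain ⟨l, g1, g2⟩ := Q283.Bin.lln_exp h0.1 h0.2 (Q283.Bin.pat_T sum_lw lw0 (ne_Cn H hq h2t he)
      (law_seq H hq h2t hm' hinj he) T) J hJ ε hε
    have one' : ms lw T = ∑' r : T, law r := by
      unfold ms
      rw [hlaw]
    rw [one'] at g2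
    refine ⟨l, g1, tendsto_one he he1 (g2.congr fun X => ?_)⟩
    rw [← prop_eq]
    congr 2
    refine Q283.Bin.fcc fun D hD => iff_of_eq ?_
    refine congrArg (fun t : ℕ => ε ≤ |(t : ℝ) / J - ∑' r : T, law r|)
      (Q283.Bin.fcc fun i _ => ?_)
    show _ ↔ ∃ r ∈ T, Nat.card (Sel k (twist K a b (D * m i))) = 4 ^ (r + 1)
    rw [ar (par_odd X he) hD]
    constructor
    · intro h
      exact ⟨_, h, rfl⟩
    · rintro ⟨r, hr, h⟩
      rw [pinj h]
      exact hr
  · exact (arith (K := K) H ((mem_Cn H).2 hD) ho (hm' i)).2.1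
  · refine ev_par (P := fun n => proportion a b (fun D =>
      1.2042 + ε ≤ averageRank K a b m (2 * B) J D) n ≤
        2 * B * Real.exp (-(ε ^ 2 * J / (16 * B ^ 2))) + δ) fun e he => ?_
    have h1 := avg sum_lw lw0 lw_summ (ne_Cn H hq h2t he) (law_seq H hq h2t hm' hinj he)
      (fun i D => Module.finrank ℤ (Pt (twist K a b (D * m i)) K))
      (fun X D hD i => (arith (K := K) H hD (par_odd X he) (hm' i)).2.2.1) B J hB hJ hε hδ
    filter_upwards [h1] with X hX
    rw [← prop_eq]
    refine le_trans (div_le_div_of_nonneg_right ?_ (Nat.cast_nonneg _)) hX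
    rw [Nat.cast_le]
    refine Finset.card_le_card fun D hD => ?_
    rw [Finset.mem_filter] at hD ⊢
    refine ⟨hD.1, le_trans ?_ hD.2⟩
    have := lw_mean'
    linarith
  · refine tendsto_par fun e he => ?_
    have hr : 0 < ∑' s : ({0} : Set ℕ), lw s := by
      rw [tsum_singleton 0 lw]
      exact lw_pos 0
    refine (Q283.Bin.many_T sum_lw lw0 (ne_Cn H hq h2t he)
      (law_seq H hq h2t hm' hinj he) {0} hr M).congr fun X => ?_
    rw [← prop_eq]
    congr 2
    refine Q283.Bin.fcc fun D hD => ?_
    exact exists_congr fun F => and_congr_right fun _ => forall_congr' fun i =>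
      forall_congr' fun _ => (good (par_odd X he) hD i).symm
  · rw [← hlaw]
    exact sum_lw
  · unfold law
    rw [mul_zero, Finset.prod_range_zero, pow_zero, mul_one, div_one]
    exact Pool.Agent.Y948.CQ.t_C2.2.2.2

end Pool.Agent.Results.MP_ff7320_nt.LawOfLargeNumbersTwists
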