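import Pool.Agent.Q56.SG.Full

/-!
# Elliptic curves over function fields: small isotypic defects

Let `E` be an elliptic curve over a function field `K` of characteristic `p > 0` (with non-constant
`j`-invariant), `L / K` a finite Galois extension with group `G`, and `ρ` an irreducible
representation of `G` over an algebraically closed field `Ω` of characteristic zero. For every prime
number `ℓ` there are three numbers:

* `rankMult E ρ`, the multiplicity of `ρ` in `Ω ⊗ E(L)`;
* `selMult ρ`, the multiplicity of `ρ` in the Selmer group `V_ℓ Sel (E / L)`, which is the fixed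
  space of Frobenius on `V = H¹(X ⊗ k̄, j_* V_ℓ(E))`, where `X` is the curve with function field `L`;
* `ordMult ρ`, the multiplicity of `ρ` in the generalised eigenspace of Frobenius on `V` for the
  eigenvalue `1`, which is the order of vanishing of `L(E, ρ, s)` at `s = 1` and does not depend
  on `ℓ`.

One has `rankMult ≤ selMult ≤ ordMult`, and `selMult = rankMult` if and only if
`ordMult = rankMult` (Tate). The conjecture of Birch and Swinnerton-Dyer for `E / L` says that
`rankMult = ordMult` for all `ρ`; the part of it which does not involve the points is
`selMult = ordMult` for all `ρ`, that is to say the semisimplicity of Frobenius at the eigenvalue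
`1`. We prove

* `selMult ρ = ordMult ρ` for all `ℓ`, if `ordMult ρ ≤ rankMult ρ + 1`, or if `ρ` is orthogonal and
  `ordMult ρ ≤ rankMult ρ + 2`;
* if this is so for all irreducible `ρ`, then Frobenius is the identity on its generalised fixed
  space on `V`. So for all fields `M` between `K` and `L` and for all `ℓ` the corank of the group
  `Ш(E / M)[ℓ^∞]` is the difference between the order of `L(E / M, s)` at `s = 1` and the rank of
  `E(M)`. (This difference may be large, being the sum of the defects of `ρ` multiplied by the
  dimensions of the spaces of the invariants.)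

For the trivial representation, the first statement follows from the theorem of Tate and Milne and
from the parity theorem of Trihan and Yasuda.
-/

universe u u' v w

namespace Pool.Agent.Results.MP_ff7320_nt.SmallIsotypicDefects

open Module Pool.Agent.Q56.SG

/-- **Semisimplicity of Frobenius at the critical point for small isotypic defects.** -/
theorem result {K : Type u} [Field K] (E : WeierstrassCurve K) [E.IsElliptic] {L : Type u'}
    [Field L] [Algebra K L] [FiniteDimensional K L] [IsGalois K L] [DecidableEq L] {Ω : Type w}
    [Field Ω] [CharZero Ω] [IsAlgClosed Ω] (D : EllCoh.{u, u', v, w} E L Ω) :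
    (∀ (R : Type v) [AddCommGroup R] [Module Ω R] [FiniteDimensional Ω R]
      (ρ : Representation Ω (L ≃ₐ[K] L) R), Irred ρ → D.SmallDefect ρ →
        D.selMult ρ = D.ordMult ρ) ∧
    ((∀ (R : Type v) [AddCommGroup R] [Module Ω R] [FiniteDimensional Ω R]
      (ρ : Representation Ω (L ≃ₐ[K] L) R), Irred ρ → D.SmallDefect ρ) →
        ∀ x ∈ Module.End.maxGenEigenspace D.F 1, D.F x = x) := by
  have h1 : ∀ (R : Type v) [AddCommGroup R] [Module Ω R] [FiniteDimensional Ω R]
      (ρ : Representation Ω (L ≃ₐ[K] L) R), Irred ρ → D.SmallDefect ρ →
        D.selMult ρ = D.ordMult ρ := by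
    intro R _ _ _ ρ hρ h
    obtain ⟨-, -, h2, h3⟩ := D.facts ρ hρ
    rcases h with h | ⟨h, h'⟩
    · exact h2 h
    · exact (h3 h).2 h'
  exact ⟨h1, fun h => D.all_fix fun R _ _ _ ρ hρ => h1 R ρ hρ (h R ρ hρ)⟩

end Pool.Agent.Results.MP_ff7320_nt.SmallIsotypicDefects
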