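import Mathlib
import Pool.Agent.Q273.CH.Gap
import Pool.Agent.Q273.CH.EB2

set_option autoImplicit false

/-!
# Truncations in all bases at once, with all monomials in record prime gaps

Let `m_1, m_2, …` be places of digits with `m_{n+1} / m_n → ∞` (for instance `n!`). The truncation
of a real number `α > 0` in base `b` after `m_n` digits is `t = ⌊α b^(m_n)⌋`. For most `α` in the
sense of Hausdorff dimension, in EVERY base `b ≥ 2` at the same time and for ALL large `n` (depending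
on `b`), not only the truncation `t` but all the numbers `a t^d` with `1 ≤ a, d ≤ J` lie in the
middle of a prime gap of the record length `ψ(n) f(b^(m_n))`, for every `J`; here
`f(x) = log x (log₂ x)² log₄ x / (log₃ x)²` and `ψ` is any function tending to `0`, which is fixed in
advance and may tend to `0` as slowly as one likes. For the bases `b ≤ J` with a fixed `J`, `ψ` can be
replaced by a positive constant, and `m_{n+1} ≥ (2J+2) m_n` suffices.
-/

open Filter Topology

namespace Pool.Agent.Results.MP_ff81b6_nt.EveryBaseAllMonomials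

/-- The record scale `f(x) = log x (log₂ x)² log₄ x / (log₃ x)²` (iterated natural logarithms). -/
noncomputable def f (x : ℝ) : ℝ :=
  Real.log x * (Real.log (Real.log x)) ^ 2 * Real.log (Real.log (Real.log (Real.log x))) /
    (Real.log (Real.log (Real.log x))) ^ 2

/-- Every prime is at a distance greater than `H` from the real number `y`. -/
def Far (H y : ℝ) : Prop := ∀ q : ℕ, q.Prime → H < |(q : ℝ) - y|

/-- The truncation of `α` in base `b` after `k` digits, as an integer. -/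
noncomputable def trunc (b k : ℕ) (α : ℝ) : ℕ := ⌊α * (b : ℝ) ^ k⌋₊

/-- 1. relates `Far` to gaps between consecutive primes (`Nat.nth Nat.Prime i` is the prime with
index `i`, counted from `0`). 2. is the theorem for the bases and monomials up to `J`, with a uniform
constant, 3. the theorem for all bases and all monomials. -/
theorem result :
    (∀ H y : ℝ, 2 ≤ y → Far H y → ∃ i : ℕ,
      (Nat.nth Nat.Prime i : ℝ) ≤ y ∧ y ≤ (Nat.nth Nat.Prime (i + 1) : ℝ) ∧
      2 * H < (Nat.nth Nat.Prime (i + 1) : ℝ) - (Nat.nth Nat.Prime i : ℝ)) ∧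
    (∀ J : ℕ, 2 ≤ J → ∀ ε : ℝ, 0 < ε → ε < 1 → ∃ c : ℝ, 0 < c ∧
      ∀ m : ℕ → ℕ, (∀ n, 1 ≤ m n) → (∀ᶠ n in atTop, (2 * J + 2) * m n ≤ m (n + 1)) →
      ∀ u v : ℝ, 0 < u → u < v → ENNReal.ofReal (1 - ε) ≤
        dimH {α : ℝ | u < α ∧ α < v ∧ ∀ᶠ n in atTop, ∀ b : ℕ, 2 ≤ b → b ≤ J →
          ∀ a d : ℕ, 1 ≤ a → a ≤ J → 1 ≤ d → d ≤ J →
            Far (c * f ((b : ℝ) ^ (m n))) (a * (trunc b (m n) α : ℝ) ^ d)}) ∧
    (∀ m : ℕ → ℕ, (∀ n, 1 ≤ m n) → Tendsto (fun n => (m (n + 1) : ℝ) / m n) atTop atTop →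
      ∀ ψ : ℕ → ℝ, Tendsto ψ atTop (𝓝 0) → ∀ u v : ℝ, 0 < u → u < v →
        dimH {α : ℝ | u < α ∧ α < v ∧ ∀ b : ℕ, 2 ≤ b → ∀ J : ℕ, ∀ᶠ n in atTop,
          ∀ a d : ℕ, 1 ≤ a → a ≤ J → 1 ≤ d → d ≤ J →
            Far (ψ n * f ((b : ℝ) ^ (m n))) (a * (trunc b (m n) α : ℝ) ^ d)} = 1) :=
  ⟨fun _ _ hy h => Pool.Agent.Q273.CH.Far.gap hy h,
    fun J hJ ε h0 h1 => Pool.Agent.Q273.CH.eb_const J hJ ε h0 h1,
    fun m hm hr ψ hψ u v hu huv => Pool.Agent.Q273.CH.eb_one m hm hr ψ hψ u v hu huv⟩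

end Pool.Agent.Results.MP_ff81b6_nt.EveryBaseAllMonomials
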