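import Pool.Agent.Q59.RL.Sign

/-!
# The signs of the form of the standard conjecture of Hodge type on Fermat varieties

Let `p` be a prime. For `M` prime to `p` the primitive cohomology of the Fermat variety of degree `M` and
even dimension `n` over an algebraic closure `k` of the field with `p` elements is a sum of lines indexed
by multisets of `n + 2` nonzero residues modulo `M` of sum zero (characters). Fix an embedding of the
field of roots of unity in `ℂ`. Then the primitive algebraic classes with complex coefficients, modulo
numerical equivalence, are the sum of lines `ℂ z(s)`, one for every `s` in the family `A M` of the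
characters of algebraic classes, and the hermitian form `(x, y) ↦ (-1) ^ (n / 2) x · ȳ` is diagonal with
respect to these lines. Let `ε M s` be its sign on `ℂ z(s)`. The standard conjecture of Hodge type for
the Fermat varieties of degree `M` says that `ε M s = 1` for all `s` in `A M`.

The families `A M` have the properties of `Admissible` below (Shioda, Katsura, Aoki, Tate). The signs have
the properties of `Signs`: they are one for pairs (dimension zero), for surfaces (Hodge index theorem)
and for the standard characters (their classes lift to characteristic zero); they are multiplicative for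
unions (by the inductive structure of Shioda and Katsura the line of a union is the product of the
lines, and the form on it is a negative rational multiple of the product of the forms
`(x, y) ↦ x · ȳ`); they are invariant under complex conjugation and under pull-back from degree `M` to
degree `N M`.

The theorem: for every `m ≥ 2` prime to `p` there are a set `F` of at most `c - 1` characters in `A m`,
where `c` is the number of classes of nonzero residues modulo `m` generated by the links (and
`c ≤ 2 ^ r`, `r` being the number of odd primes which divide `m`), and for every character `s` a subset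
`I s` of `F`, with `I (t s) = I s` for all units `t`, such that `ε m s` is the product of the `ε m f`,
`f ∈ I s`.

Consequences. The standard conjecture of Hodge type for all Fermat varieties of degree `m` over `k` (and
for all varieties whose cohomology is cut out of products of them) holds if the sign is `+1` for
at most `c - 1` characters; it holds if `c = 1`. The form is definite, positive or negative, on the
span of the classes `z(t s)`, `t` a unit: the hermitian form on the corresponding one dimensional space
of algebraic classes over the field of `m`-th roots of unity is totally positive or totally negative.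
-/

namespace Pool.Agent.Results.MP_ffcd14_ag.FermatSigns

open Pool.Agent.H916T

/-- The closure properties of the families of the characters of algebraic classes. -/
structure Admissible (p : ℕ) (A : ∀ M : ℕ, Multiset (ZMod M) → Prop) : Prop where
  /-- members are Tate characters -/
  tate : ∀ M, 0 < M → p.Coprime M → ∀ s, A M s → IsTate p M s
  /-- duality -/
  neg : ∀ M, 0 < M → p.Coprime M → ∀ s, A M s → A M (s.map fun a => -a)
  /-- pairs -/
  pair : ∀ M, 0 < M → p.Coprime M → ∀ a : ZMod M, a ≠ 0 → A M {a, -a}
  /-- surfaces -/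
  surface : ∀ M, 0 < M → p.Coprime M → ∀ s, SurfaceTate p M s → A M s
  /-- standard characters -/
  standard : ∀ M, 0 < M → p.Coprime M → ∀ q : ℕ, q.Prime → q ∣ M → ∀ s, Standard q M s → A M s
  /-- closed under union -/
  join : ∀ M, 0 < M → p.Coprime M → ∀ s t, A M s → A M t → A M (s + t)
  /-- closed under removal of a pair -/
  cancel : ∀ M, 0 < M → p.Coprime M → ∀ a s, A M (a ::ₘ -a ::ₘ s) → A M s
  /-- descent of the degree -/
  descend : ∀ M N, 0 < M → 0 < N → p.Coprime M → p.Coprime N → ∀ s : Multiset (ZMod M),
    A (N * M) (s.map fun a => ((N * a.val : ℕ) : ZMod (N * M))) → A M s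

/-- The properties of the signs of the hermitian form on the lines of algebraic classes. -/
structure Signs (p : ℕ) (A : ∀ M : ℕ, Multiset (ZMod M) → Prop)
    (ε : ∀ M : ℕ, Multiset (ZMod M) → ℤˣ) : Prop where
  /-- complex conjugation -/
  neg : ∀ M, 0 < M → p.Coprime M → ∀ s, A M s → ε M (s.map fun a => -a) = ε M s
  /-- pairs -/
  pair : ∀ M, 0 < M → p.Coprime M → ∀ a : ZMod M, a ≠ 0 → ε M {a, -a} = 1
  /-- surfaces (Hodge index theorem) -/
  surface : ∀ M, 0 < M → p.Coprime M → ∀ s, SurfaceTate p M s → ε M s = 1
  /-- standard characters (Hodge-Riemann relations in characteristic zero) -/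
  standard : ∀ M, 0 < M → p.Coprime M → ∀ q : ℕ, q.Prime → q ∣ M → ∀ s, Standard q M s → ε M s = 1
  /-- unions -/
  join : ∀ M, 0 < M → p.Coprime M → ∀ s t, A M s → A M t → ε M (s + t) = ε M s * ε M t
  /-- pull-back -/
  level : ∀ M N, 0 < M → 0 < N → p.Coprime M → p.Coprime N → ∀ s : Multiset (ZMod M), A M s →
    ε (N * M) (s.map fun a => ((N * a.val : ℕ) : ZMod (N * M))) = ε M s

/-- Linked residues: two nonzero residues `a`, `b` modulo `m` such that the (additive) orders of `a`
and `b` have the same prime divisors, or both orders are even, or, for every unit `t` modulo `m`,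
the representatives in `{1, ..., m - 1}` of the residues `p ^ j * t * a`, `0 ≤ j < f`, `f` being the
order of `p` modulo `m`, have the same sum as those of the residues `p ^ j * t * b`. -/
def Linked (p m : ℕ) (a b : ZMod m) : Prop :=
  a ≠ 0 ∧ b ≠ 0 ∧
    ((addOrderOf a).primeFactors = (addOrderOf b).primeFactors ∨
      (Even (addOrderOf a) ∧ Even (addOrderOf b)) ∨
      ∀ t : (ZMod m)ˣ,
        ∑ j ∈ Finset.range (orderOf (p : ZMod m)), ((p : ZMod m) ^ j * ((t : ZMod m) * a)).val =
          ∑ j ∈ Finset.range (orderOf (p : ZMod m)), ((p : ZMod m) ^ j * ((t : ZMod m) * b)).val)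

/-- The number of classes of nonzero residues modulo `m` under the equivalence relation generated by
the links. -/
noncomputable def classes (p m : ℕ) : ℕ :=
  Nat.card {c : Quot (Linked p m) // c ≠ Quot.mk _ 0}

/-- The number of odd primes dividing `m`. -/
def oddPrimes (m : ℕ) : ℕ := (m.primeFactors.filter fun q => q ≠ 2).card

lemma W_val {p m : ℕ} [NeZero m] (hpm : p.Coprime m) {a : ZMod m} (ha : a ≠ 0) (t : (ZMod m)ˣ) :
    W p ((t : ZMod m) * a) =
      2 * ((∑ j ∈ Finset.range (orderOf (p : ZMod m)),
        ((p : ZMod m) ^ j * ((t : ZMod m) * a)).val : ℕ) : ℤ) - orderOf (p : ZMod m) * m := by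
  unfold W
  have hu := isUnit_p hpm
  have h1 : ∀ j ∈ Finset.range (orderOf (p : ZMod m)),
      Pool.Agent.H916R2.saw ((p : ZMod m) ^ j * ((t : ZMod m) * a)) =
        2 * ((((p : ZMod m) ^ j * ((t : ZMod m) * a)).val : ℕ) : ℤ) - m := by
    intro j _
    apply Pool.Agent.H916R2.saw_of_ne_zero
    intro h
    have h2 := ((hu.pow j).mul_right_eq_zero).mp h
    exact ha ((t.isUnit.mul_right_eq_zero).mp h2)
  rw [Finset.sum_congr rfl h1, Finset.sum_sub_distrib, ← Finset.mul_sum]
  push_cast
  simp

lemma linked_iff {p m : ℕ} [NeZero m] (hpm : p.Coprime m) (a b : ZMod m) :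
    Pool.Agent.H916Z.Link p a b ↔ Linked p m a b := by
  unfold Pool.Agent.H916Z.Link Linked
  constructor
  · rintro ⟨ha, hb, h | ⟨h1, h2⟩ | h⟩
    · exact ⟨ha, hb, Or.inl h⟩
    · exact ⟨ha, hb, Or.inr (Or.inl ⟨even_iff_two_dvd.mpr h1, even_iff_two_dvd.mpr h2⟩)⟩
    · refine ⟨ha, hb, Or.inr (Or.inr fun t => ?_)⟩
      have h1 := h t
      rw [W_val hpm ha, W_val hpm hb] at h1
      have h2 : ((∑ j ∈ Finset.range (orderOf (p : ZMod m)),
          ((p : ZMod m) ^ j * ((t : ZMod m) * a)).val : ℕ) : ℤ) =
        ((∑ j ∈ Finset.range (orderOf (p : ZMod m)),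
          ((p : ZMod m) ^ j * ((t : ZMod m) * b)).val : ℕ) : ℤ) := by linarith
      exact_mod_cast h2
  · rintro ⟨ha, hb, h | ⟨h1, h2⟩ | h⟩
    · exact ⟨ha, hb, Or.inl h⟩
    · exact ⟨ha, hb, Or.inr (Or.inl ⟨even_iff_two_dvd.mp h1, even_iff_two_dvd.mp h2⟩)⟩
    · refine ⟨ha, hb, Or.inr (Or.inr fun t => ?_)⟩
      rw [W_val hpm ha, W_val hpm hb, h t]

/-- The signs are determined by finitely many of them. -/
theorem result (p : ℕ) (hp : p.Prime) (A : ∀ M : ℕ, Multiset (ZMod M) → Prop)
    (hA : Admissible p A) (m : ℕ) (hm : 2 ≤ m) (hpm : p.Coprime m) :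
    classes p m ≤ 2 ^ oddPrimes m ∧
    ∃ (F : Finset (Multiset (ZMod m))) (I : Multiset (ZMod m) → Finset (Multiset (ZMod m))),
      F.card + 1 ≤ classes p m ∧ (∀ f ∈ F, A m f) ∧ (∀ s, I s ⊆ F) ∧
      (∀ (t : (ZMod m)ˣ) (s : Multiset (ZMod m)), (0 : ZMod m) ∉ s →
        I (s.map fun a => (t : ZMod m) * a) = I s) ∧
      ∀ ε : ∀ M : ℕ, Multiset (ZMod M) → ℤˣ, Signs p A ε →
        ∀ s, A m s → ε m s = ∏ f ∈ I s, ε m f := by
  have : NeZero m := ⟨by omega⟩
  have hE : Linked p m = Pool.Agent.H916Z.Link p := by
    funext a b
    exact propext (linked_iff hpm a b).symm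
  have h1 : classes p m = Nat.card (Pool.Agent.Q59.RL.Cls' p m) := by
    unfold classes
    rw [hE]
  rw [h1]
  obtain ⟨F, I, a1, a2, a3, a4, a5⟩ := Pool.Agent.Q59.RL.sign_determination (A := A)
    ⟨hA.tate, hA.neg, hA.pair, hA.surface, hA.standard, hA.join, hA.cancel, hA.descend⟩ hp hpm hm
  exact ⟨Pool.Agent.Q59.RL.card_Cls' hm, F, I, a1, a2, a3, a4, fun ε hε =>
    a5 ε ⟨hε.neg, hε.pair, hε.surface, hε.standard, hε.join, hε.level⟩⟩

end Pool.Agent.Results.MP_ffcd14_ag.FermatSigns
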