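import Pool.Agent.Q56.FH.Final

/-!
# One explicit power decides the standard conjecture of Hodge type for all powers

Let `X` be a smooth projective variety over the finite field with `q = p ^ a` elements, with an
ample divisor `D` (all that is used of it is that `D ^ dim X` has positive degree and the hard
Lefschetz theorem), of total Betti number at most `b` and of dimension at most `d`, and let
`N = exactBound b d = (2 b!)! (4 (d + 1) b!) ^ (2 ^ b)`. The following are equivalent:

1. for the single power `X ^ N` the strong Tate conjecture holds (the generalised eigenspace of the
   Frobenius endomorphism in `H^(2 j)` for the eigenvalue `q ^ j` is spanned by classes of cycles,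
   for all `j`), and so does the standard conjecture of Hodge type, for the divisor
   `∑ pr_i^* D`;
2. the strong Tate conjecture and the standard conjecture of Hodge type hold for all powers `X ^ n`,
   and the standard conjectures of Hodge type and `D` (homological and numerical equivalence
   coincide) hold for all polarized varieties which are covered by powers of `X`.

The number `N` depends on `b` and `d` only, not on `X` and not on the finite field. No hypothesis is
made on the relations between the eigenvalues of Frobenius, and the algebraic classes on the powers
need not be generated by divisors or by classes on `X × X`.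

`power ops P n` is the power `X ^ (n + 1)`. Here `W` is a Weil cohomology theory with coefficients
in an algebraically closed field (for example `l`-adic cohomology with coefficients in an algebraic
closure of `ℚ_l`), `F` is the system of the Frobenius endomorphisms, and `HasFrobPolys` says that the
characteristic polynomials of the Frobenius endomorphism have integral coefficients (Deligne),
satisfy the Riemann hypothesis (Deligne), and that the slopes times their multiplicities are
integers (Katz-Messing, Dieudonne-Manin), all of which are theorems for smooth projective varieties
over finite fields. `Covers W Z Y` says that there is a morphism `Z → Y` of positive degree between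
varieties of the same dimension such that the class of the divisor of `Z` is the pull-back of the
class of the divisor of `Y`.
-/

open CategoryTheory AlgebraicGeometry

universe u v

namespace Pool.Agent.Results.MP_ffcd14_ag.OnePowerDecides

open Pool.Agent.H914 Pool.Agent.H914.VarClass Pool.Agent.H914.VarClass.Obj
  Pool.Agent.H281R3.HT Pool.Agent.W552 Pool.Agent.Q56.FE Pool.Agent.Q56.FH

/-- **One explicit power decides the strong Tate conjecture together with the standard conjecture of
Hodge type for all powers of a variety over a finite field.** -/
theorem result {k : Type u} [Field k] {𝒱 : VarClass k} {ops : CycleOps 𝒱}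
    (W : WeilCohomology.{u, v} ops) [IsAlgClosed W.K] {p : ℕ} [Fact p.Prime] {a : ℕ} (ha : 0 < a)
    (F : FrobeniusOver W (p ^ a)) (P : Polarized 𝒱) (hD : P.X.IsCyc 1 P.D)
    (hdeg : 0 < P.X.V.degCycle (divPow ops P.D P.X.dim P.X.V.fundCycle))
    (hHL : HardLefschetz W P.X P.D) (hP : HasFrobPolys F P.X) (b d : ℕ)
    (hb : Module.finrank W.K (W.H P.X) ≤ b) (hd : P.X.dim ≤ d) :
    TateHodge F (power ops P (exactBound b d - 1)) ↔
      ∀ n, TateHodge F (power ops P n) ∧ ∀ Y : Polarized 𝒱, Covers W (power ops P n) Y →
        Y.X.IsCyc 1 Y.D → HodgeType W Y.X Y.D ∧ HomEqNum W Y.X := by
  refine ⟨fun h n => ?_, fun h => (h _).1⟩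
  have h1 := power_main ha hD hdeg hHL hP hb hd h n
  exact ⟨h1.1, fun Y hY hYD => covered (ι := Unit) (P := fun _ => P) (c := fun _ => ())
    (fun _ => hD) h1 Y hY hYD⟩

end Pool.Agent.Results.MP_ffcd14_ag.OnePowerDecides
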