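import Pool.Agent.Q168.CF4.Plane

/-!
# Cubic fourfolds with a plane and with Hodge classes of small discriminant

The notation is that of the starting file `MP_ffd2c1_ag.ManyPlanes` (modules `Pool.Agent.Y95.Q`):
`X : CubicFourfold` is a smooth cubic form in six variables, `X.Plane` the set of its planes,
`X.IsRational`: `X` is birational to the projective space. `H : H4 X` is the group `H^4(X, ℤ) = ℤ^23`
with the intersection form `H.ip`, the square `H.h` of the hyperplane class, the line `H^{3,1}` and
the classes `H.cl P` of the planes; `H.IsHodge v`: `v` is in `A(X) = H^{2,2} ∩ H^4(X, ℤ)`;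
`H.disc v = 3 v.v - (v.h)^2` is the discriminant of the group spanned by `h` and `v`.
`H.IsCohomology` collects the known properties. `H.HasK3`: `X` is in the Hassett divisor `C_d` for some
admissible `d`. `InC H d`: `X` is in `C_d` (modules `Pool.Agent.Q256.CF`).

Proof. Let `P` be a plane and suppose that `T.(h - P)` is even for all Hodge classes `T` (otherwise
`X` is rational by Hassett's theorem). Then `D(P, T) = 3 P.T - (T.h)` is even for all `T`. If `disc u`
is `18` or `30` one of `P + u`, `P - u` has discriminant `14`, `26` or `38`. If `disc u` and `disc v` are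
at most `24`, divisible by four and `D(u, v)` is odd, then after a reduction of `u` and `v` modulo `P` one
of `± P + u ± v`, `u ± v` has discriminant `14`, `26`, `38` or `42` (a finite computation).
If there are no such `u`, `v`, then all discriminants of the classes generated are divisible by four.
-/

set_option autoImplicit false

namespace Pool.Agent.Results.MP_ffd2c1_ag.PlaneAndSmallClasses

open Pool.Agent.Y95.Q Pool.Agent.Q256.CF

/-- The known rational members of Hassett's divisors: all cubic fourfolds in `C_14`
(Bolognesi–Russo–Staglianò) and in `C_26`, `C_38`, `C_42` (Russo–Staglianò) are rational. -/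
structure KnownRational {X : CubicFourfold} (H : H4 X) : Prop where
  c14 : InC H 14 → X.IsRational
  c26 : InC H 26 → X.IsRational
  c38 : InC H 38 → X.IsRational
  c42 : InC H 42 → X.IsRational

/-- A Hodge class of discriminant at most `42`; if the discriminant is divisible by four, it is at
most `24` (so the discriminants `32` and `36` are excluded). -/
def Small {X : CubicFourfold} (H : H4 X) (v : Fin 23 → ℤ) : Prop :=
  H.IsHodge v ∧ H.disc v ≤ 42 ∧ ((4 : ℤ) ∣ H.disc v → H.disc v ≤ 24)

/-- `A(X)` is generated by the classes in `G` up to an odd index. -/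
def Generates {X : CubicFourfold} (H : H4 X) (G : Set (Fin 23 → ℤ)) : Prop :=
  ∀ v, H.IsHodge v → ∃ m : ℤ, Odd m ∧ m • v ∈ Submodule.span ℤ G

/-- **Cubic fourfolds with a plane and with Hodge classes of small discriminant.**
Let `X` be a smooth cubic fourfold which contains a plane `P`.

(1) If `X` is in `C_d` for some `d ≤ 42` not divisible by four, that is, `d = 14, 18, 26, 30, 38, 42`,
then `X` is rational and is in `C_e` for some admissible `e`. In particular all cubic fourfolds in
`C_8 ∩ C_18` and in `C_8 ∩ C_30` are rational.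

(2) If there are Hodge classes `u`, `v` whose discriminants are divisible by four and at most `24`, with
`u.v + (u.h) (v.h)` odd, then `X` is rational and is in `C_e` for some admissible `e`.

(3) If `A(X)` is generated up to an odd index by classes of discriminant at most `42`, other than `32` and
`36`, then: `X` is in `C_d` for some admissible `d` if and only if `X` is in
`C_14 ∪ C_26 ∪ C_38 ∪ C_42` or `T.(h - P)` is odd for some Hodge class `T`; and then `X` is rational. -/
theorem result {X : CubicFourfold} {H : H4 X} (hH : H.IsCohomology) (hR : KnownRational H)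
    (P : X.Plane) :
    (∀ d : ℤ, d ≤ 42 → ¬ (4 : ℤ) ∣ d → InC H d → X.IsRational ∧ H.HasK3) ∧
    (∀ u v, H.IsHodge u → H.IsHodge v → (4 : ℤ) ∣ H.disc u → (4 : ℤ) ∣ H.disc v → H.disc u ≤ 24 →
      H.disc v ≤ 24 → Odd (H.ip u v + H.ip u H.h * H.ip v H.h) → X.IsRational ∧ H.HasK3) ∧
    (Generates H {v | Small H v} →
      (H.HasK3 ↔ (InC H 14 ∨ InC H 26 ∨ InC H 38 ∨ InC H 42) ∨
        ∃ T, H.IsHodge T ∧ Odd (H.ip T (H.h - H.cl P))) ∧ (H.HasK3 → X.IsRational)) := by
  have hP : H.IsPl (H.cl P) := (hH.cl_range _).1 ⟨P, rfl⟩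
  have hrat : (∃ T, H.IsHodge T ∧ Odd (H.ip T (H.h - H.cl P))) ∨ Pool.Agent.Q168.CF4.InK H →
      X.IsRational ∧ H.HasK3 := by
    rintro (⟨T, hT, h⟩ | h)
    · exact ⟨hH.hassett P T hT h, hH.hasK3 hP hT h⟩
    · refine ⟨?_, Pool.Agent.Q168.CF4.hasK3_of_inK h⟩
      rcases h with h | h | h | h
      · exact hR.c14 h
      · exact hR.c26 h
      · exact hR.c38 h
      · exact hR.c42 h
  have hev : ¬ (∃ T, H.IsHodge T ∧ Odd (H.ip T (H.h - H.cl P))) →
      ∀ T, H.IsHodge T → Even (D H (H.cl P) T) := by
    intro hno T hT
    exact (Pool.Agent.Q168.CF4.even_iff hH hP).2 fun h => hno ⟨T, hT, h⟩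
  refine ⟨fun d hd h4 hC => ?_, fun u v hu hv hu4 hv4 hu24 hv24 hodd => ?_, fun hgen => ?_⟩
  · obtain ⟨v, h1, -, h3⟩ := hC
    by_cases hno : ∃ T, H.IsHodge T ∧ Odd (H.ip T (H.h - H.cl P))
    · exact hrat (Or.inl hno)
    · refine hrat (Or.inr (Pool.Agent.Q168.CF4.plane_two hH hP h1 (hev hno v h1) ?_ ?_))
      · rw [h3]; exact hd
      · rw [h3]; exact h4
  · by_cases hno : ∃ T, H.IsHodge T ∧ Odd (H.ip T (H.h - H.cl P))
    · exact hrat (Or.inl hno)
    · refine hrat (Or.inr (Pool.Agent.Q168.CF4.plane_pair hH hP hu hv (hev hno u hu)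
        (hev hno v hv) hu4 hv4 hu24 hv24 ?_))
      have e : D H u v = (H.ip u v + H.ip u H.h * H.ip v H.h) +
          2 * (H.ip u v - H.ip u H.h * H.ip v H.h) := by
        rw [D]; ring
      rw [e]
      exact hodd.add_even (even_two_mul _)
  · have h1 := Pool.Agent.Q168.CF4.main hH hP (fun v hv => hgen v hv)
    refine ⟨h1.trans or_comm, fun hK => (hrat (h1.1 hK)).1⟩

end Pool.Agent.Results.MP_ffd2c1_ag.PlaneAndSmallClasses
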