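import Pool.Statements.S00471
import Pool.Agent.Q46.Kim.Final

set_option autoImplicit false
open Pool Pool.MP_d5c549_ag

namespace Pool.Agent.S00471

/-- For every finite tree, the semigroup generated by the homogenized indicator vectors of Z2×Z2 edge labelings summing to zero at each non-leaf vertex is saturated in its group, i.e. the Z2×Z2 group-based model variety is projectively normal. -/
theorem result :
  ∀ (V : Type) [Fintype V] [DecidableEq V] (T : SimpleGraph V) [DecidableRel T.Adj],
    T.IsTree →
    ∀ S : Set ((V × V × (ZMod 2 × ZMod 2) → ℤ) × ℤ),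
      S = {p : (V × V × (ZMod 2 × ZMod 2) → ℤ) × ℤ |
            ∃ g : V → V → ZMod 2 × ZMod 2,
              (∀ v w : V, g v w = g w v) ∧
              (∀ v : V, (¬ ∃! w : V, T.Adj v w) →
                (∑ w : V, (if T.Adj v w then g v w else (0 : ZMod 2 × ZMod 2))) = 0) ∧
              p = Prod.mk (fun x : V × V × (ZMod 2 × ZMod 2) =>
                      if T.Adj x.1 x.2.1 ∧ g x.1 x.2.1 = x.2.2
                      then (1 : ℤ) else 0) (1 : ℤ)} →
      ∀ z : (V × V × (ZMod 2 × ZMod 2) → ℤ) × ℤ,
        z ∈ AddSubgroup.closure S → ∀ k : ℕ, 0 < k →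
          k • z ∈ AddSubmonoid.closure S → z ∈ AddSubmonoid.closure S := by
  intro V _ _ T _ hT S hS z hz k hk hkz
  have hS' : S = Q46.Kim.SS T := hS
  subst hS'
  exact Q46.Kim.main T hT.isAcyclic z ((Q46.Kim.pp_closure T _ hkz).of_smul hk)
    (Q46.Kim.rr_closure T z hz)

end Pool.Agent.S00471
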