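import Pool.Statements.S00905
-- import your own Pool.Agent.* helpers here

set_option autoImplicit false
open Pool Pool.MP_207b86_al

namespace Pool.Agent.S00905

/-- The group: a countable power of the symmetric group on three letters. -/
abbrev GG : Type := ℕ → Equiv.Perm (Fin 3)

/-- Evaluation of a word with constants at a group element. -/
def ev (g : GG) : Monoid.Coprod GG (FreeGroup Unit) →* GG :=
  Monoid.Coprod.lift (MonoidHom.id GG) (FreeGroup.lift (fun _ => g))

/-- The subbase of open sets of the Zariski topology. -/
def subbase : Set (Set GG) :=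
  {U : Set GG | ∃ w : Monoid.Coprod GG (FreeGroup Unit),
          U = {g : GG | Monoid.Coprod.lift (MonoidHom.id GG) (FreeGroup.lift (fun _ => g)) w = 1}ᶜ}

instance topS3 : TopologicalSpace (Equiv.Perm (Fin 3)) := ⊥

instance discS3 : DiscreteTopology (Equiv.Perm (Fin 3)) := ⟨rfl⟩

/-- The product topology. -/
@[reducible] def prodTop : TopologicalSpace GG := Pi.topologicalSpace

theorem ev_inl (g h : GG) : ev g (Monoid.Coprod.inl h) = h := by
  simp [ev]

theorem ev_inr (g : GG) : ev g (Monoid.Coprod.inr (FreeGroup.of ())) = g := by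
  simp [ev]

theorem continuous_ev (w : Monoid.Coprod GG (FreeGroup Unit)) :
    @Continuous GG GG prodTop prodTop (fun g => ev g w) := by
  let : TopologicalSpace GG := Pi.topologicalSpace
  show Continuous (fun g : GG => ev g w)
  induction w using Monoid.Coprod.induction_on with
  | inl m =>
    have : (fun g : GG => ev g (Monoid.Coprod.inl m)) = fun _ => m := by
      funext g; exact ev_inl g m
    rw [this]; exact continuous_const
  | inr n =>
    induction n using FreeGroup.induction_on with
    | C1 =>
      have : (fun g : GG => ev g (Monoid.Coprod.inr 1)) = fun _ => 1 := by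
        funext g; simp
      rw [this]; exact continuous_const
    | of x =>
      have : (fun g : GG => ev g (Monoid.Coprod.inr (FreeGroup.of x))) = fun g => g := by
        funext g; exact ev_inr g
      rw [this]; exact continuous_id
    | inv_of x ih =>
      have : (fun g : GG => ev g (Monoid.Coprod.inr (FreeGroup.of x)⁻¹)) =
          fun g => (ev g (Monoid.Coprod.inr (FreeGroup.of x)))⁻¹ := by
        funext g; simp
      rw [this]; exact ih.inv
    | mul x y ihx ihy =>
      have : (fun g : GG => ev g (Monoid.Coprod.inr (x * y))) =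
          fun g => ev g (Monoid.Coprod.inr x) * ev g (Monoid.Coprod.inr y) := by
        funext g; simp
      rw [this]; exact ihx.mul ihy
  | mul x y ihx ihy =>
    have : (fun g : GG => ev g (x * y)) = fun g => ev g x * ev g y := by
      funext g; simp
    rw [this]; exact ihx.mul ihy

theorem prod_le : prodTop ≤ TopologicalSpace.generateFrom subbase := by
  rw [TopologicalSpace.le_generateFrom_iff_subset_isOpen]
  rintro U ⟨w, rfl⟩
  let : TopologicalSpace GG := Pi.topologicalSpace
  show IsOpen {g : GG | ev g w = 1}ᶜ
  rw [isOpen_compl_iff]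
  have hc : Continuous (fun g : GG => ev g w) := continuous_ev w
  exact isClosed_eq hc continuous_const

/-- An element of the `i`-th factor. -/
def e (i : ℕ) (s : Equiv.Perm (Fin 3)) : GG := Pi.mulSingle i s

theorem center_triv : ∀ a : Equiv.Perm (Fin 3), (∀ s : Equiv.Perm (Fin 3), a * s = s * a) → a = 1 := by
  decide

/-- The commutator word. -/
def wd (i : ℕ) (b s : Equiv.Perm (Fin 3)) : Monoid.Coprod GG (FreeGroup Unit) :=
  (Monoid.Coprod.inr (FreeGroup.of ()) * Monoid.Coprod.inl (e i b)⁻¹) * Monoid.Coprod.inl (e i s) *
  (Monoid.Coprod.inr (FreeGroup.of ()) * Monoid.Coprod.inl (e i b)⁻¹)⁻¹ * Monoid.Coprod.inl (e i s)⁻¹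

theorem ev_wd (g : GG) (i : ℕ) (b s : Equiv.Perm (Fin 3)) :
    ev g (wd i b s) = (g * (e i b)⁻¹) * e i s * (g * (e i b)⁻¹)⁻¹ * (e i s)⁻¹ := by
  simp only [wd, map_mul, map_inv, ev_inl, ev_inr]

theorem slice_eq (i : ℕ) (b : Equiv.Perm (Fin 3)) :
    {g : GG | g i = b} = ⋂ s : Equiv.Perm (Fin 3), {g : GG | ev g (wd i b s) = 1} := by
  ext g
  simp only [Set.mem_ofPred_eq, Set.mem_iInter, ev_wd]
  constructor
  · intro h s
    funext j
    by_cases hj : j = i
    · subst hj
      simp [e, h]
    · simp [e, Pi.mulSingle_eq_of_ne hj]
  · intro h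
    have key : ∀ s : Equiv.Perm (Fin 3), (g i * b⁻¹) * s = s * (g i * b⁻¹) := by
      intro s
      have h1 := congrFun (h s) i
      simp only [e, Pi.mul_apply, Pi.inv_apply, Pi.mulSingle_eq_same, Pi.one_apply] at h1
      rw [mul_inv_eq_one, mul_inv_eq_iff_eq_mul] at h1
      exact h1
    have := center_triv _ key
    rwa [mul_inv_eq_one] at this

theorem le_prod : TopologicalSpace.generateFrom subbase ≤ prodTop := by
  show TopologicalSpace.generateFrom subbase ≤ Pi.topologicalSpace
  rw [Pi.topologicalSpace]
  refine le_iInf fun i => ?_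
  have hcl : ∀ b : Equiv.Perm (Fin 3),
      @IsClosed GG (TopologicalSpace.generateFrom subbase) {g : GG | g i = b} := by
    intro b
    rw [slice_eq]
    let : TopologicalSpace GG := TopologicalSpace.generateFrom subbase
    refine isClosed_iInter fun s => ?_
    rw [← isOpen_compl_iff]
    exact TopologicalSpace.isOpen_generateFrom_of_mem ⟨wd i b s, rfl⟩
  rintro U ⟨V, -, rfl⟩
  let : TopologicalSpace GG := TopologicalSpace.generateFrom subbase
  show IsOpen _
  rw [← isClosed_compl_iff]
  have : ((fun f : GG => f i) ⁻¹' V)ᶜ = ⋃ b ∈ (Vᶜ : Set (Equiv.Perm (Fin 3))), {g : GG | g i = b} := by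
    ext g
    simp
  rw [this]
  exact Set.Finite.isClosed_biUnion (Set.toFinite _) (fun b _ => hcl b)

/-- There is an infinite group whose Zariski topology is both compact and Hausdorff. The closed sets of that topology are generated by solution sets of one-variable equations with constants from the group. -/
theorem result :
    ∃ (G : Type) (_ : Group G) (T : TopologicalSpace G),
      Infinite G ∧
      T = TopologicalSpace.generateFrom
        {U : Set G | ∃ w : Monoid.Coprod G (FreeGroup Unit),
          U = {g : G | Monoid.Coprod.lift (MonoidHom.id G) (FreeGroup.lift (fun _ => g)) w = 1}ᶜ} ∧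
      @CompactSpace G T ∧ @T2Space G T := by
  have heq : TopologicalSpace.generateFrom subbase = prodTop := le_antisymm le_prod prod_le
  refine ⟨GG, inferInstance, TopologicalSpace.generateFrom subbase, inferInstance, rfl, ?_, ?_⟩
  · rw [heq]
    show @CompactSpace GG Pi.topologicalSpace
    infer_instance
  · rw [heq]
    show @T2Space GG Pi.topologicalSpace
    infer_instance

end Pool.Agent.S00905
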