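import Pool.Statements.S01673
import Pool.Agent.Q100.CT.Word
import Pool.Agent.Q100.CT.Ext0
import Pool.Agent.Q100.CT.Main
import Pool.Agent.Q239.CT.Line
import Pool.Agent.Q153.CT.Lin
import Pool.Agent.Q153.CT.Hom
import Pool.Agent.Q153.CT.Cls
import Pool.Agent.Q298.CT.Alg
import Pool.Agent.Q298.CT.Asd
import Pool.Agent.Q79.CT.Lift
import Pool.Agent.Q86.CT.FP
import Pool.Agent.Q100.CT.Trans
import Pool.Agent.Q186.CT.Chain
import Pool.Agent.Q186.CT.Net
import Pool.Agent.Q237.CT.Dist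
import Pool.Agent.Q237.CT.Gro
import Pool.Agent.Q174.CT.Cay
import Pool.Agent.Q144.CT.From

set_option autoImplicit false
open Pool Pool.MP_616471_al

namespace Pool.Agent.S01673

/-- There is a connected locally finite graph with polynomial growth, finite asymptotic dimension, and uniformly coarsely transitive quasi-isometries, which is not quasi-isometric to the Cayley graph of any finitely generated group. -/
theorem result :
    ∃ (V : Type) (G : SimpleGraph V),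
      G.Connected ∧ (∀ v, (G.neighborSet v).Finite) ∧
      (∃ (v₀ : V) (c d : ℕ), ∀ r : ℕ,
          Set.ncard {w | G.dist v₀ w ≤ r} ≤ c * (r + 1) ^ d) ∧
      (∃ n : ℕ, ∀ R : ℕ, ∃ (ι : Type) (U : ι → Set V) (D : ℕ),
          (∀ i, ∀ x ∈ U i, ∀ y ∈ U i, G.dist x y ≤ D) ∧
          (∀ x, ∃ i, x ∈ U i) ∧
          ∀ x, {i | ∃ y ∈ U i, G.dist x y ≤ R}.Finite ∧
            Set.ncard {i | ∃ y ∈ U i, G.dist x y ≤ R} ≤ n + 1) ∧
      (∃ K C : ℝ, 0 < K ∧ ∀ x y : V, ∃ f : V → V,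
          (∀ a b : V, (G.dist a b : ℝ) / K - C ≤ (G.dist (f a) (f b) : ℝ) ∧
              (G.dist (f a) (f b) : ℝ) ≤ K * (G.dist a b : ℝ) + C) ∧
          (∀ z : V, ∃ a : V, (G.dist (f a) z : ℝ) ≤ C) ∧
          (G.dist (f x) y : ℝ) ≤ C) ∧
      ∀ (H : Type) [Group H] (S : Set H), S.Finite → Subgroup.closure S = ⊤ →
        ¬ ∃ (φ : V → H) (K C : ℝ), 0 < K ∧
          (∀ a b : V,
              (G.dist a b : ℝ) / K - C ≤
                ((SimpleGraph.fromRel (fun g h : H => ∃ s ∈ S, h = g * s)).dist (φ a) (φ b) : ℝ) ∧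
              ((SimpleGraph.fromRel (fun g h : H => ∃ s ∈ S, h = g * s)).dist (φ a) (φ b) : ℝ) ≤
                K * (G.dist a b : ℝ) + C) ∧
          (∀ h : H, ∃ a : V,
              ((SimpleGraph.fromRel (fun g h : H => ∃ s ∈ S, h = g * s)).dist (φ a) h : ℝ) ≤ C) := by
  have hline : Pool.Agent.Q100.CT.S_line := Pool.Agent.Q239.CT.line Pool.Agent.Q100.CT.word
  have hlin : Pool.Agent.Q100.CT.S_lin :=
    Pool.Agent.Q153.CT.lin Pool.Agent.Q100.CT.word hline Pool.Agent.Q100.CT.ext0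
  have hrig : Pool.Agent.Q100.CT.S_rig :=
    Pool.Agent.Q100.CT.rig hlin (Pool.Agent.Q153.CT.hom Pool.Agent.Q100.CT.word)
      Pool.Agent.Q153.CT.cls
  have hmain : Pool.Agent.Q100.CT.S_main :=
    Pool.Agent.Q100.CT.main hrig Pool.Agent.Q298.CT.alg Pool.Agent.Q100.CT.trans
      (Pool.Agent.Q86.CT.fp Pool.Agent.Q79.CT.Lift.lift)
  have hnet := Pool.Agent.Q186.CT.net
  have hdist := Pool.Agent.Q237.CT.dist hnet Pool.Agent.Q186.CT.chain
  obtain ⟨θ, hθ, hno⟩ := hmain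
  obtain ⟨hlf, hpg⟩ := Pool.Agent.Q237.CT.growth Pool.Agent.Q186.CT.ball hdist θ hθ
  refine ⟨Pool.Agent.Q100.CT.PP, Pool.Agent.Q100.CT.XX (Pool.Agent.Q100.CT.form θ hθ),
    (hdist θ hθ).1, hlf, hpg,
    Pool.Agent.Q298.CT.asd hnet Pool.Agent.Q186.CT.ball hdist θ hθ,
    Pool.Agent.Q237.CT.ctr hnet hdist θ hθ, ?_⟩
  intro H _ S hS hcl hex
  obtain ⟨n, N, hN, hQ⟩ :=
    Pool.Agent.Q144.CT.from_ hnet hdist Pool.Agent.Q174.CT.cay θ hθ H S hS hcl hex
  exact hno n N hN hQ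

end Pool.Agent.S01673
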