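import Pool.Statements.S02882
import Pool.Agent.Results.MP_8bc403_al.GenDepend

set_option autoImplicit false
open Pool Pool.MP_bb0bfc_al

namespace Pool.Agent.S02882

section aux
open Pool.Agent.Results.MP_8bc403_al.GenDepend
open scoped commutatorElement

/-- the displacement of an order automorphism commuting with the unit translation oscillates by
less than one -/
lemma osc {F : ℝ ≃o ℝ} (hF : ∀ x, F (x + 1) = F x + 1) (x y : ℝ) :
    |(F x - x) - (F y - y)| < 1 := by
  have hn : ∀ (n : ℕ) (x : ℝ), F (x + n) = F x + n := by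
    intro n
    induction n with
    | zero => intro x; simp
    | succ n ih =>
      intro x
      have e : x + ((n + 1 : ℕ) : ℝ) = (x + n) + 1 := by push_cast; ring
      rw [e, hF, ih]; push_cast; ring
  have hz : ∀ (n : ℤ) (x : ℝ), F (x + n) = F x + n := by
    intro n x
    obtain ⟨m, rfl | rfl⟩ := n.eq_nat_or_neg
    · exact_mod_cast hn m x
    · have h := hn m (x - m)
      rw [sub_add_cancel] at h
      push_cast
      rw [h, ← sub_eq_add_neg]; ring
  set n : ℤ := ⌊x - y⌋ with hn'
  have h1 : (n : ℝ) ≤ x - y := Int.floor_le _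
  have h2 : x - y < n + 1 := Int.lt_floor_add_one _
  set y' : ℝ := y + n with hy'
  have e1 : F y' - y' = F y - y := by rw [hy', hz]; ring
  rw [← e1]
  have h3 : y' ≤ x := by rw [hy']; linarith
  have h4 : x < y' + 1 := by rw [hy']; linarith
  have h5 : F y' ≤ F x := F.monotone h3
  have h6 : F x < F y' + 1 := by rw [← hF]; exact F.strictMono h4
  rw [abs_lt]
  constructor
  · rcases eq_or_lt_of_le h3 with h | h
    · rw [← h]; linarith
    · linarith
  · rcases eq_or_lt_of_le h3 with h | h
    · rw [← h]; linarith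
    · linarith

lemma act_shift (g : F2) (x : ℝ) : act g (x + 1) = act g x + 1 :=
  DFunLike.congr_fun (act_comm g) x

lemma comm_move (p q : F2) (y : ℝ) : |act ⁅p, q⁆ y - y| ≤ 2 := by
  set x : ℝ := (act (q * p))⁻¹ y with hx
  have hy : act (q * p) x = y := by
    rw [hx]
    change (act (q * p) * (act (q * p))⁻¹) y = y
    rw [mul_inv_cancel]; rfl
  have e : act ⁅p, q⁆ y = act (p * q) x := by
    rw [← hy]
    change (act ⁅p, q⁆ * act (q * p)) x = _
    rw [← map_mul]
    congr 2
    rw [commutatorElement_def]; group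
  have e1 : act (p * q) x = act p (act q x) := by rw [map_mul]; rfl
  have e2 : act (q * p) x = act q (act p x) := by rw [map_mul]; rfl
  rw [e, ← hy, e1, e2]
  have h1 := osc (act_shift p) (act q x) x
  have h2 := osc (act_shift q) x (act p x)
  rw [abs_lt] at h1 h2
  rw [abs_le]
  constructor <;> linarith [h1.1, h1.2, h2.1, h2.2]

lemma prod_move (l : List F2) (hl : ∀ c ∈ l, c ∈ commutatorSet F2) (x : ℝ) :
    |act l.prod x - x| ≤ 2 * l.length := by
  induction l generalizing x with
  | nil => simp
  | cons p l ih =>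
    have h1 := ih (fun p hp => hl p (List.mem_cons_of_mem _ hp)) x
    obtain ⟨u, v, huv⟩ := hl p List.mem_cons_self
    have h2 := comm_move u v (act l.prod x)
    rw [huv] at h2
    rw [List.prod_cons, map_mul, List.length_cons]
    change |act p (act l.prod x) - x| ≤ _
    push_cast
    calc |act p (act l.prod x) - x| = |(act p (act l.prod x) - act l.prod x) + (act l.prod x - x)| := by
          congr 1; ring
      _ ≤ _ := abs_add_le _ _
      _ ≤ _ := by linarith

lemma c_mem : c ∈ commutator F2 := by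
  have h : c = ⁅a, b⁻¹⁆ := by
    rw [c, commutatorElement_def, inv_inv]
  rw [h]
  exact Subgroup.commutator_mem_commutator (Subgroup.mem_top _) (Subgroup.mem_top _)

/-- a word over group elements from a palindrome -/
lemma word_of_pal {X : Set F2} {p : F2} (hp : IsPalindrome X p) :
    ∃ w : List F2, w.reverse = w ∧ (∀ x ∈ w, x ∈ X ∨ x⁻¹ ∈ X) ∧ w.prod = p := by
  obtain ⟨w, -, hw, rfl⟩ := hp
  refine ⟨w.map fun a => cond a.2 (a.1 : F2) (a.1 : F2)⁻¹, ?_, ?_, rfl⟩
  · rw [← List.map_reverse, hw]
  · intro x hx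
    rw [List.mem_map] at hx
    obtain ⟨⟨s, e⟩, -, rfl⟩ := hx
    cases e
    · right; simp
    · left; simp

lemma aux_pal : ∃ S : Finset F2, Subgroup.closure (S : Set F2) = ⊤ ∧
    ∃ n : ℕ, ∀ g : F2, ∃ L : List (List F2), L.length ≤ n ∧
      (∀ w ∈ L, w.reverse = w ∧ ∀ x ∈ w, x ∈ S ∨ x⁻¹ ∈ S) ∧ (L.map List.prod).prod = g := by
  classical
  have hS : ((({a, b, a * b} : Finset F2) : Finset F2) : Set F2) = ({a, b, a * b} : Set F2) := by
    simp
  refine ⟨{a, b, a * b}, ?_, 3, ?_⟩
  · rw [hS]; exact closure_abc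
  · intro g
    obtain ⟨i, j, h⟩ := exists_form g
    obtain ⟨w1, h11, h12, h13⟩ := word_of_pal
      (isPalindrome_zpow (X := ({a, b, a * b} : Set F2)) (Or.inl rfl) i)
    obtain ⟨w2, h21, h22, h23⟩ := word_of_pal
      (isPalindrome_zpow (X := ({a, b, a * b} : Set F2)) (Or.inr (Or.inl rfl)) j)
    obtain ⟨w3, h31, h32, h33⟩ := word_of_pal (mem_relSub h)
    have conv : ∀ x : F2, x ∈ ({a, b, a * b} : Finset F2) ↔ x ∈ ({a, b, a * b} : Set F2) := by
      intro x; rw [← hS]; rfl
    refine ⟨[w1, w2, w3], by simp, ?_, ?_⟩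
    · intro w hw
      simp only [List.mem_cons, List.not_mem_nil, or_false] at hw
      rcases hw with rfl | rfl | rfl
      · exact ⟨h11, fun x hx => by rw [conv, conv]; exact h12 x hx⟩
      · exact ⟨h21, fun x hx => by rw [conv, conv]; exact h22 x hx⟩
      · exact ⟨h31, fun x hx => by rw [conv, conv]; exact h32 x hx⟩
    · simp only [List.map_cons, List.map_nil, List.prod_cons, List.prod_nil, h13, h23, h33, mul_one]
      group

lemma aux_comm : ¬ ∃ n : ℕ, ∀ g ∈ commutator F2, ∃ l : List F2, l.length ≤ n ∧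
    (∀ c ∈ l, c ∈ commutatorSet F2) ∧ l.prod = g := by
  rintro ⟨n, hn⟩
  obtain ⟨l, h1, h2, h3⟩ := hn (c ^ (2 * n + 1)) (Subgroup.pow_mem _ c_mem _)
  have h := prod_move l h2 0
  rw [h3, act_c_pow, sub_zero, abs_neg, Nat.abs_cast] at h
  have h4 : (l.length : ℝ) ≤ n := by exact_mod_cast h1
  push_cast at h
  linarith

end aux

/-- The negation of the preceding statement: For every finitely generated group G: some finite generating set gives a uniform bound on the number of palindromic words needed to write any element iff there is a uniform bound on the number of commutators needed to write any element of the derived subgroup. -/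
theorem result :
    ¬ (∀ (G : Type) [Group G] [Group.FG G],
      (∃ S : Finset G, Subgroup.closure (S : Set G) = ⊤ ∧
        ∃ n : ℕ, ∀ g : G, ∃ L : List (List G), L.length ≤ n ∧
          (∀ w ∈ L, w.reverse = w ∧ ∀ x ∈ w, x ∈ S ∨ x⁻¹ ∈ S) ∧
          (L.map List.prod).prod = g) ↔
      (∃ n : ℕ, ∀ g ∈ commutator G, ∃ l : List G, l.length ≤ n ∧
          (∀ c ∈ l, c ∈ commutatorSet G) ∧ l.prod = g)) := by
  intro H
  exact aux_comm ((H (FreeGroup (Fin 2))).1 aux_pal)

end Pool.Agent.S02882
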