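import Pool.Statements.S03154
import Pool.Agent.Q24.FAAlg

/-!
# Property (FA) is not an up-weak profinite property

For a prime `q` let `P q` be the ring of endomorphisms of the space of functions on the finite set
`(ℤ/q → ℤ/2)`, let `A` be the subring of the product of the `P q` generated by the multiplication
`x 0` by the coordinate `0`, the translation `T 0` in the coordinate `0` and the cyclic rotation of
the coordinates together with its inverse. The group `G` is the elementary group of rank three over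
`A`, and `H` is the elementary group of rank three over a larger subring of the product of the rings
`P q` which is the union of a strictly increasing sequence of subrings.
-/

set_option autoImplicit false
open Pool Pool.MP_d2e081_al

namespace Pool.Agent.S03154

open Q24.FAAlg

/-- the functions on the finite set of maps from `ℤ/q` to `ℤ/2` -/
abbrev Fn (q : Nat.Primes) : Type := (ZMod (q : ℕ) → ZMod 2) → ZMod 2

/-- the endomorphism rings -/
abbrev PP (q : Nat.Primes) : Type := Module.End (ZMod 2) (Fn q)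

instance (q : Nat.Primes) : NeZero (q : ℕ) := ⟨q.2.ne_zero⟩

instance (q : Nat.Primes) : Finite (PP q) := by
  have : Finite (Fn q) := inferInstance
  exact Finite.of_injective (fun f : PP q => (f : Fn q → Fn q)) DFunLike.coe_injective

instance (q : Nat.Primes) : Nontrivial (PP q) := by
  refine ⟨⟨0, 1, fun h => ?_⟩⟩
  have h1 := LinearMap.congr_fun h (fun _ => 1)
  have h2 := congrFun h1 0
  simp at h2

theorem two_torsion (q : Nat.Primes) (r : PP q) : r + r = 0 := by
  ext f ω
  exact CharTwo.add_self_eq_zero _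

/-- multiplication by the coordinate `n` -/
def xx (n : ℕ) : ∀ q, PP q := fun q =>
  { toFun := fun f ω => ω (n : ZMod (q : ℕ)) * f ω
    map_add' := fun f g => by funext ω; exact mul_add _ _ _
    map_smul' := fun c f => by funext ω; exact mul_left_comm _ _ _ }

/-- translation in the coordinate `n` -/
def TT (n : ℕ) : ∀ q, PP q := fun q =>
  { toFun := fun f ω => f (ω + Pi.single (n : ZMod (q : ℕ)) 1)
    map_add' := fun _ _ => rfl
    map_smul' := fun _ _ => rfl }

/-- rotation of the coordinates -/
def rr : ∀ q, PP q := fun q =>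
  { toFun := fun f ω => f (fun i => ω (i + 1))
    map_add' := fun _ _ => rfl
    map_smul' := fun _ _ => rfl }

/-- inverse rotation of the coordinates -/
def rr' : ∀ q, PP q := fun q =>
  { toFun := fun f ω => f (fun i => ω (i - 1))
    map_add' := fun _ _ => rfl
    map_smul' := fun _ _ => rfl }

theorem xx_apply (n : ℕ) (q : Nat.Primes) (f : Fn q) (ω : ZMod (q : ℕ) → ZMod 2) :
    xx n q f ω = ω (n : ZMod (q : ℕ)) * f ω := rfl

theorem TT_apply (n : ℕ) (q : Nat.Primes) (f : Fn q) (ω : ZMod (q : ℕ) → ZMod 2) :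
    TT n q f ω = f (ω + Pi.single (n : ZMod (q : ℕ)) 1) := rfl

theorem xx_succ (n : ℕ) : rr * xx n * rr' = xx (n + 1) := by
  funext q
  refine LinearMap.ext fun f => ?_
  funext ω
  change ω ((n : ZMod (q : ℕ)) + 1) * f (fun i => ω (i - 1 + 1)) = ω ((n + 1 : ℕ) : ZMod (q : ℕ)) * f ω
  simp only [sub_add_cancel, Nat.cast_add, Nat.cast_one]

theorem TT_succ (n : ℕ) : rr * TT n * rr' = TT (n + 1) := by
  funext q
  refine LinearMap.ext fun f => ?_
  funext ω
  change f (fun i => ((fun j => ω (j + 1)) + Pi.single (n : ZMod (q : ℕ)) 1 :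
    ZMod (q : ℕ) → ZMod 2) (i - 1)) = f (ω + Pi.single ((n + 1 : ℕ) : ZMod (q : ℕ)) 1)
  congr 1
  funext i
  simp only [Pi.add_apply, sub_add_cancel, Nat.cast_add, Nat.cast_one]
  congr 1
  by_cases h : i = (n : ZMod (q : ℕ)) + 1
  · rw [h, add_sub_cancel_right, Pi.single_eq_same, Pi.single_eq_same]
  · rw [Pi.single_eq_of_ne h, Pi.single_eq_of_ne]
    intro h1
    exact h (by rw [← h1, sub_add_cancel])

/-- the generators of the ring `A` -/
def VV : Set (∀ q, PP q) := {1, xx 0, TT 0, rr, rr'}

/-- the ring `A` -/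
def AA : Subring (∀ q, PP q) := Subring.closure VV

theorem xx_mem (n : ℕ) : xx n ∈ AA := by
  induction n with
  | zero => exact Subring.subset_closure (by simp [VV])
  | succ n ih =>
    rw [← xx_succ]
    exact AA.mul_mem (AA.mul_mem (Subring.subset_closure (by simp [VV])) ih)
      (Subring.subset_closure (by simp [VV]))

theorem TT_mem (n : ℕ) : TT n ∈ AA := by
  induction n with
  | zero => exact Subring.subset_closure (by simp [VV])
  | succ n ih =>
    rw [← TT_succ]
    exact AA.mul_mem (AA.mul_mem (Subring.subset_closure (by simp [VV])) ih)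
      (Subring.subset_closure (by simp [VV]))

theorem single_add_single (q : Nat.Primes) (n : ZMod (q : ℕ)) :
    (Pi.single n 1 + Pi.single n 1 : ZMod (q : ℕ) → ZMod 2) = 0 := by
  funext i
  exact CharTwo.add_self_eq_zero _

theorem TT_sq (n : ℕ) : TT n * TT n = 1 := by
  funext q
  refine LinearMap.ext fun f => ?_
  funext ω
  change f (ω + Pi.single (n : ZMod (q : ℕ)) 1 + Pi.single (n : ZMod (q : ℕ)) 1) = f ω
  rw [add_assoc, single_add_single, add_zero]

theorem comm_formula (n m : ℕ) (q : Nat.Primes) (f : Fn q) (ω : ZMod (q : ℕ) → ZMod 2) :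
    (xx n q * TT m q + TT m q * xx n q) f ω =
      (Pi.single (m : ZMod (q : ℕ)) 1 : ZMod (q : ℕ) → ZMod 2) (n : ZMod (q : ℕ))
        * f (ω + Pi.single (m : ZMod (q : ℕ)) 1) := by
  change ω (n : ZMod (q : ℕ)) * f (ω + Pi.single (m : ZMod (q : ℕ)) 1)
    + (ω + Pi.single (m : ZMod (q : ℕ)) 1 : ZMod (q : ℕ) → ZMod 2) (n : ZMod (q : ℕ))
      * f (ω + Pi.single (m : ZMod (q : ℕ)) 1) = _
  rw [Pi.add_apply, add_mul, ← add_assoc, CharTwo.add_self_eq_zero, zero_add]

/-- the data of the construction -/
def data : Data AA where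
  x := xx
  T := TT
  hx := xx_mem
  hT := TT_mem
  D n m := {q | (n : ZMod (q : ℕ)) = (m : ZMod (q : ℕ))}
  TT := TT_sq
  xT n m q hq := by
    refine LinearMap.ext fun f => ?_
    funext ω
    rw [comm_formula, TT_apply]
    have hq' : (n : ZMod (q : ℕ)) = (m : ZMod (q : ℕ)) := hq
    rw [hq', Pi.single_eq_same, one_mul]
  xT' n m q hq := by
    refine LinearMap.ext fun f => ?_
    funext ω
    rw [comm_formula]
    have hq' : ¬ (n : ZMod (q : ℕ)) = (m : ZMod (q : ℕ)) := hq
    rw [Pi.single_eq_of_ne hq', zero_mul]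
    rfl
  refl n q := rfl
  fin n m hnm := by
    have h1 : {q : Nat.Primes | (n : ZMod (q : ℕ)) = (m : ZMod (q : ℕ))}
        ⊆ (fun q : Nat.Primes => (q : ℕ)) ⁻¹' (Set.Iic (m - n)) := by
      intro q hq
      have hq' : (n : ZMod (q : ℕ)) = (m : ZMod (q : ℕ)) := hq
      rw [ZMod.natCast_eq_natCast_iff, Nat.modEq_iff_dvd' hnm.le] at hq'
      exact Nat.le_of_dvd (by omega) hq'
    exact ((Set.finite_Iic _).preimage (fun a _ b _ h => Subtype.ext h)).subset h1
  single q := by
    refine ⟨q, fun p => ?_⟩
    have h1 : ((q : ℕ) : ZMod (p : ℕ)) = ((0 : ℕ) : ZMod (p : ℕ)) ↔ p = q := by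
      rw [Nat.cast_zero, ZMod.natCast_eq_zero_iff]
      constructor
      · intro h
        exact Subtype.ext ((Nat.prime_dvd_prime_iff_eq p.2 q.2).1 h)
      · intro h
        rw [h]
    exact h1

/-- the sets of primes of the chain -/
def UU (φ : ℕ → Nat.Primes) (n : ℕ) : Set Nat.Primes := {q | ∃ m < n, ∃ k, q = φ (Nat.pair m k)}

theorem UU_mono (φ : ℕ → Nat.Primes) : Monotone (UU φ) := by
  rintro m n hmn q ⟨l, hl, k, hk⟩
  exact ⟨l, hl.trans_le hmn, k, hk⟩

/-- The negation of the preceding statement: For residually finite groups G, H and injective u: G→H inducing an isomorphism of profinite completions (given via finite-index normal subgroups), if every inversion-free action of G on a tree has a fixed vertex, the same holds for H. -/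
theorem result :
    ¬ (∀ (G H : Type) [Group G] [Group H] (u : G →* H),
      (∀ g : G, g ≠ 1 → ∃ N : Subgroup G, N.Normal ∧ N.index ≠ 0 ∧ g ∉ N) →
      (∀ h : H, h ≠ 1 → ∃ M : Subgroup H, M.Normal ∧ M.index ≠ 0 ∧ h ∉ M) →
      Function.Injective u →
      (∀ N : Subgroup G, N.Normal → N.index ≠ 0 →
        ∃ M : Subgroup H, M.Normal ∧ M.index ≠ 0 ∧ M.comap u ≤ N) →
      (∀ M : Subgroup H, M.Normal → M.index ≠ 0 →
        ∀ h : H, ∃ g : G, ∃ m ∈ M, h = u g * m) →
      (∀ (V : Type) [MulAction G V] (T : SimpleGraph V), T.IsTree →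
        (∀ g : G, ∀ x y : V, T.Adj x y → T.Adj (g • x) (g • y)) →
        (∀ g : G, ∀ x y : V, T.Adj x y → ¬ (g • x = y ∧ g • y = x)) →
        ∃ v : V, ∀ g : G, g • v = v) →
      (∀ (V : Type) [MulAction H V] (T : SimpleGraph V), T.IsTree →
        (∀ h : H, ∀ x y : V, T.Adj x y → T.Adj (h • x) (h • y)) →
        (∀ h : H, ∀ x y : V, T.Adj x y → ¬ (h • x = y ∧ h • y = x)) →
        ∃ v : V, ∀ h : H, h • v = v)) := by
  intro hall
  let φ : ℕ ↪ Nat.Primes := Infinite.natEmbedding Nat.Primes
  have hU := UU_mono φ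
  have hVf : VV.Finite := by
    unfold VV
    exact Set.toFinite _
  have h1V : (1 : ∀ q, PP q) ∈ VV := by simp [VV]
  have hAB : AA ≤ BB AA (UU φ) hU := A_le_BB AA (UU φ) hU
  have hFA : FA ↥(EL AA) := FA_EL two_torsion VV hVf h1V
  have hcount : Countable ↥(EL AA) := countable_EL VV hVf h1V
  obtain ⟨V, inst, T, hT, h1, h2, h3⟩ := Q24.FATree.exists_action
    (KK AA (UU φ) hU) (KK_mono AA (UU φ) hU) (KK_union AA (UU φ) hU) (fun n =>
      KK_ne_top AA (UU φ) hU hcount n (fun k => φ (Nat.pair n k))
        (fun a b hab => by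
          have := congrArg Nat.unpair (φ.injective hab)
          simp only [Nat.unpair_pair, Prod.mk.injEq] at this
          exact this.2)
        (fun k => ⟨n, Nat.lt_succ_self n, k, rfl⟩)
        (fun k => by
          rintro ⟨m, hm, l, hl⟩
          have := congrArg Nat.unpair (φ.injective hl)
          simp only [Nat.unpair_pair, Prod.mk.injEq] at this
          omega))
  apply h3
  exact hall ↥(EL AA) ↥(EL (BB AA (UU φ) hU)) (Subgroup.inclusion (EL_mono hAB))
    (fun g hg => res_fin AA g hg) (fun g hg => res_fin _ g hg)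
    (Subgroup.inclusion_injective _)
    (fun N hN hi => cond_one two_torsion data hAB N hN hi)
    (fun M hM hi h => cond_two two_torsion data hAB (fun r hr => hr.1) M hM hi h)
    hFA V T hT h1 h2

end Pool.Agent.S03154
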