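import Pool.Statements.S04321
import Pool.Agent.Q84.ZetaTrace
import Pool.Agent.Q84.ZetaWalk

set_option autoImplicit false
open scoped ComplexOrder
open Pool Pool.MP_35c443_an

namespace Pool.Agent.S04321

open Matrix Q84.ZetaWalk in
/-- Nonnegativity of the truncated sums. -/
theorem trunc_nonneg (k : ℕ) (hk : 1 ≤ k) (c : ℤ → ℂ) (hc : ∀ n, c (-n) = star (c n)) (M : ℕ) :
    (0 : ℂ) ≤ ∑ j ∈ (F M (2 * k)).filter (fun j => ∑ i, j i = 0),
      (((∑ᶠ n : ℤ, (|∏ i : Fin (2 * k), (n + S j i)| - ∏ i : Fin (2 * k), (n + S j i)) : ℤ)) : ℂ)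
        * ∏ i, c (j i) := by
  rw [sum_eq_trace hk M c]
  set N := 4 * k * M with hN
  set W := Finset.Icc (-(N : ℤ)) N with hW
  have hgi : ∀ x : W, gi N x = x := by
    intro x; unfold gi; rw [if_pos x.2]
  -- matrices
  set C : Matrix W W ℂ := Matrix.of fun x y => tr c M ((y : ℤ) - x) with hCdef
  set e : W → ℂ := fun x => ((Real.sqrt |((x : ℤ) : ℝ)| : ℝ) : ℂ) with he
  set h : W → ℂ := fun x => if (0 : ℤ) ≤ x then 1 else -1 with hh
  have htr : ∀ n, tr c M (-n) = star (tr c M n) := by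
    intro n
    unfold tr
    by_cases hn : n ∈ Finset.Icc (-(M : ℤ)) M
    · have hn' : -n ∈ Finset.Icc (-(M : ℤ)) M := by
        rw [Finset.mem_Icc] at *; omega
      rw [if_pos hn, if_pos hn', hc]
    · have hn' : -n ∉ Finset.Icc (-(M : ℤ)) M := by
        rw [Finset.mem_Icc] at *; omega
      rw [if_neg hn, if_neg hn', star_zero]
  have hCH : Cᴴ = C := by
    ext x y
    rw [Matrix.conjTranspose_apply, hCdef, Matrix.of_apply, Matrix.of_apply, ← htr]
    congr 1; ring
  have hes : ∀ x, star (e x) = e x := by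
    intro x; simp [he]
  set A : Matrix W W ℂ := diagonal e * C * diagonal e with hA
  have hAH : Aᴴ = A := by
    rw [hA, Matrix.conjTranspose_mul, Matrix.conjTranspose_mul, hCH, Matrix.diagonal_conjTranspose]
    have : (star e : W → ℂ) = e := funext hes
    rw [this, Matrix.mul_assoc]
  have hee : ∀ x, e x * e x = ((|(x : ℤ)| : ℤ) : ℂ) := by
    intro x
    simp only [he]
    rw [← Complex.ofReal_mul, Real.mul_self_sqrt (abs_nonneg _), ← Int.cast_abs,
      Complex.ofReal_intCast]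
  have h1 : (Matrix.of fun (x y : W) => ((|gi N x| : ℤ) : ℂ) * tr c M ((y : ℤ) - x))
      = diagonal e * (diagonal e * C) := by
    ext x y
    rw [Matrix.of_apply, Matrix.diagonal_mul, Matrix.diagonal_mul, ← mul_assoc, hee, hgi]
    rfl
  have h2 : (Matrix.of fun (x y : W) => ((gi N x : ℤ) : ℂ) * tr c M ((y : ℤ) - x))
      = diagonal e * (diagonal h * diagonal e * C) := by
    ext x y
    rw [Matrix.of_apply, Matrix.diagonal_mul, Matrix.mul_assoc, Matrix.diagonal_mul,
      Matrix.diagonal_mul, hgi]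
    have : ((x : ℤ) : ℂ) = e x * (h x * e x) := by
      have : e x * (h x * e x) = h x * (e x * e x) := by ring
      rw [this, hee]
      simp only [hh]
      by_cases hx : (0 : ℤ) ≤ x
      · rw [if_pos hx, abs_of_nonneg hx, one_mul]
      · rw [if_neg hx, abs_of_neg (not_le.1 hx)]; push_cast; ring
    rw [this]
    simp only [mul_assoc]
    rfl
  have hr : ∀ i, star (h i) = h i := by
    intro i
    simp only [hh]
    split_ifs <;> simp
  have hn : ∀ i, ‖h i‖ ≤ 1 := by
    intro i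
    simp only [hh]
    split_ifs <;> simp
  obtain ⟨r, hr0, hr1⟩ := Q84.ZetaTrace.trace_ineq A hAH h hr hn k hk
  have t1 : trace ((Matrix.of fun (x y : W) =>
      ((|gi N x| : ℤ) : ℂ) * tr c M ((y : ℤ) - x)) ^ (2 * k)) = trace (A ^ (2 * k)) := by
    rw [h1, trace_pow_comm, hA]
  have t2 : trace ((Matrix.of fun (x y : W) =>
      ((gi N x : ℤ) : ℂ) * tr c M ((y : ℤ) - x)) ^ (2 * k))
      = trace ((A * diagonal h) ^ (2 * k)) := by
    rw [h2, trace_pow_comm, trace_pow_comm A (diagonal h), hA]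
    simp only [Matrix.mul_assoc]
  rw [t1, t2, hr1]
  exact_mod_cast hr0

/-- For every k ≥ 1 and every smooth real 2π-periodic a, Z_k(a) is real and ≥ 0. Here Z_k(a) sums N_j·â_{j1}⋯â_{j2k} over j in ℤ^{2k} with sum 0, and N_j = Σ_n (∣f(n)∣ − f(n)) with f(n) = ∏_i (n + j1+…+j_i). -/
theorem result :
    ∀ k : ℕ, 1 ≤ k → ∀ a : ℝ → ℝ, ContDiff ℝ (⊤ : ℕ∞) a → Function.Periodic a (2 * Real.pi) →
      (0 : ℂ) ≤ ∑' j : {j : Fin (2 * k) → ℤ // ∑ i, j i = 0},
        (((∑ᶠ n : ℤ, (|∏ i : Fin (2 * k), (n + ∑ l ∈ Finset.Iio i, j.1 l)|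
              - ∏ i : Fin (2 * k), (n + ∑ l ∈ Finset.Iio i, j.1 l))) : ℤ) : ℂ) *
          ∏ i : Fin (2 * k), ((1 / (2 * (Real.pi : ℂ))) *
            ∫ x in (0 : ℝ)..(2 * Real.pi),
              (a x : ℂ) * Complex.exp (-(Complex.I * ((j.1 i : ℤ) : ℂ) * (x : ℂ)))) := by
  intro k hk a _ _
  set c : ℤ → ℂ := fun n => (1 / (2 * (Real.pi : ℂ))) *
            ∫ x in (0 : ℝ)..(2 * Real.pi),
              (a x : ℂ) * Complex.exp (-(Complex.I * ((n : ℤ) : ℂ) * (x : ℂ))) with hcdef
  have hc : ∀ n, c (-n) = star (c n) := by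
    intro n
    simp only [hcdef]
    rw [star_mul', Complex.star_def, intervalIntegral.integral_of_le
      (by positivity), intervalIntegral.integral_of_le (by positivity), ← integral_conj]
    congr 1
    · simp [Complex.conj_ofNat]
    · refine MeasureTheory.integral_congr_ae (Filter.Eventually.of_forall fun x => ?_)
      simp only [map_mul, Complex.conj_ofReal]
      rw [← Complex.exp_conj]
      congr 2
      simp
  set f : {j : Fin (2 * k) → ℤ // ∑ i, j i = 0} → ℂ := fun j =>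
        (((∑ᶠ n : ℤ, (|∏ i : Fin (2 * k), (n + ∑ l ∈ Finset.Iio i, j.1 l)|
              - ∏ i : Fin (2 * k), (n + ∑ l ∈ Finset.Iio i, j.1 l))) : ℤ) : ℂ) *
          ∏ i : Fin (2 * k), c (j.1 i) with hf
  change (0 : ℂ) ≤ ∑' j, f j
  by_cases hs : Summable f
  · have hlim : Filter.Tendsto (fun M : ℕ => ∑ j ∈ (Q84.ZetaWalk.F M (2 * k)).subtype
        (fun j => ∑ i, j i = 0), f j) Filter.atTop (nhds (∑' j, f j)) := by
      refine hs.hasSum.comp ?_
      apply Filter.tendsto_atTop_finset_of_monotone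
      · intro M M' hMM' j hj
        rw [Finset.mem_subtype] at *
        unfold Q84.ZetaWalk.F at *
        rw [Fintype.mem_piFinset] at *
        intro i
        have := hj i
        rw [Finset.mem_Icc] at *
        have h' : (M : ℤ) ≤ M' := by exact_mod_cast hMM'
        omega
      · intro j
        refine ⟨∑ i, (j.1 i).natAbs, ?_⟩
        rw [Finset.mem_subtype]
        unfold Q84.ZetaWalk.F
        rw [Fintype.mem_piFinset]
        intro i
        have h1 : (j.1 i).natAbs ≤ ∑ i, (j.1 i).natAbs :=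
          Finset.single_le_sum (f := fun i => (j.1 i).natAbs) (fun _ _ => Nat.zero_le _)
            (Finset.mem_univ i)
        rw [Finset.mem_Icc]
        omega
    refine ge_of_tendsto' hlim fun M => ?_
    have := trunc_nonneg k hk c hc M
    rw [Finset.sum_subtype_eq_sum_filter (s := Q84.ZetaWalk.F M (2 * k))
      (p := fun j : Fin (2 * k) → ℤ => ∑ i, j i = 0) (f := fun j : Fin (2 * k) → ℤ =>
        (((∑ᶠ n : ℤ, (|∏ i : Fin (2 * k), (n + ∑ l ∈ Finset.Iio i, j l)|
              - ∏ i : Fin (2 * k), (n + ∑ l ∈ Finset.Iio i, j l))) : ℤ) : ℂ) *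
          ∏ i : Fin (2 * k), c (j i))]
    exact this
  · rw [tsum_eq_zero_of_not_summable hs]

end Pool.Agent.S04321
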