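import Pool.Statements.S04415
import Pool.Agent.Q31.AN.Asm

set_option autoImplicit false
open scoped TensorProduct
open Pool Pool.MP_3d22c5_an

namespace Pool.Agent.S04415


open Pool.Agent.Q31.AN in
lemma grBasis_tensor {n : ℕ} {G : SimpleGraph (Fin n)} {N M : Type} [LieRing N]
    [LieAlgebra ℚ N] [LieRing M] [LieAlgebra ℚ M] (b : Module.Basis (Fin n ⊕ G.edgeSet) ℚ N)
    (hb : GrBasis G b) (Φ : (ℝ ⊗[ℚ] M) ≃ₗ⁅ℝ⁆ (ℝ ⊗[ℚ] N)) :
    GrBasis G ((b.baseChange ℝ).map Φ.symm.toLinearEquiv) := by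
  have key : ∀ k l, ⁅((b.baseChange ℝ).map Φ.symm.toLinearEquiv) k,
      ((b.baseChange ℝ).map Φ.symm.toLinearEquiv) l⁆ = Φ.symm ((1 : ℝ) ⊗ₜ[ℚ] ⁅b k, b l⁆) := by
    intro k l
    rw [Module.Basis.map_apply, Module.Basis.map_apply, Module.Basis.baseChange_apply,
      Module.Basis.baseChange_apply]
    change ⁅Φ.symm ((1 : ℝ) ⊗ₜ[ℚ] b k), Φ.symm ((1 : ℝ) ⊗ₜ[ℚ] b l)⁆ = _
    rw [← LieEquiv.map_lie, LieAlgebra.ExtendScalars.bracket_tmul, one_mul]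
  refine ⟨?_, ?_, ?_⟩
  · intro i j h hij
    rw [key, hb.adj i j h hij, Module.Basis.map_apply, Module.Basis.baseChange_apply]
    rfl
  · intro i j h
    rw [key, hb.nadj i j h, TensorProduct.tmul_zero, map_zero]
  · intro e k
    rw [key, hb.cen e k, TensorProduct.tmul_zero, map_zero]

/-- If the rational 2-step nilpotent Lie algebra of a finite graph has an automorphism with integral char poly, constant term ±1 and no eigenvalue of modulus 1, then so does every rational Lie algebra whose real form is isomorphic to its real form. -/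
theorem result :
    ∀ (n : ℕ) (G : SimpleGraph (Fin n)) (N : Type) [LieRing N] [LieAlgebra ℚ N]
      [FiniteDimensional ℚ N] (b : Module.Basis (Fin n ⊕ G.edgeSet) ℚ N),
      (∀ (i j : Fin n) (h : G.Adj i j), i < j →
          ⁅b (Sum.inl i), b (Sum.inl j)⁆ = b (Sum.inr ⟨s(i, j), G.mem_edgeSet.mpr h⟩)) →
      (∀ i j : Fin n, ¬ G.Adj i j → ⁅b (Sum.inl i), b (Sum.inl j)⁆ = 0) →
      (∀ (e : G.edgeSet) (k : Fin n ⊕ G.edgeSet), ⁅b (Sum.inr e), b k⁆ = 0) →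
      (∃ f : N ≃ₗ⁅ℚ⁆ N, ∃ p : Polynomial ℤ,
          p.map (Int.castRingHom ℚ) = LinearMap.charpoly f.toLinearEquiv.toLinearMap ∧
          (p.coeff 0 = 1 ∨ p.coeff 0 = -1) ∧
          ∀ z : ℂ, (p.map (Int.castRingHom ℂ)).IsRoot z → ‖z‖ ≠ 1) →
      ∀ (M : Type) [LieRing M] [LieAlgebra ℚ M] [FiniteDimensional ℚ M],
        Nonempty ((ℝ ⊗[ℚ] M) ≃ₗ⁅ℝ⁆ (ℝ ⊗[ℚ] N)) →
        ∃ g : M ≃ₗ⁅ℚ⁆ M, ∃ q : Polynomial ℤ,
          q.map (Int.castRingHom ℚ) = LinearMap.charpoly g.toLinearEquiv.toLinearMap ∧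
          (q.coeff 0 = 1 ∨ q.coeff 0 = -1) ∧
          ∀ z : ℂ, (q.map (Int.castRingHom ℂ)).IsRoot z → ‖z‖ ≠ 1 := by
  intro n G N _ _ _ b h1 h2 h3 hf M _ _ _ hM
  obtain ⟨f, p, hp, hp0, hroot⟩ := hf
  obtain ⟨Φ⟩ := hM
  have hb : Pool.Agent.Q31.AN.GrBasis G b := ⟨h1, h2, h3⟩
  have hG : Pool.Agent.Q31.AN.GC G := Pool.Agent.Q31.AN.nec hb f p hp hp0 hroot
  let m := Module.finBasis ℚ M
  exact Pool.Agent.Q31.AN.assemble hG ((b.baseChange ℝ).map Φ.symm.toLinearEquiv)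
    (grBasis_tensor b hb Φ) (TensorProduct.mk ℚ ℝ M 1).toAddMonoidHom
    (by
      intro q x
      change (1 : ℝ) ⊗ₜ[ℚ] (q • x) = (q : ℝ) • ((1 : ℝ) ⊗ₜ[ℚ] x)
      rw [TensorProduct.tmul_smul, TensorProduct.smul_tmul', TensorProduct.smul_tmul']
      simp [Algebra.smul_def])
    (by
      intro x y
      change (1 : ℝ) ⊗ₜ[ℚ] ⁅x, y⁆ = ⁅(1 : ℝ) ⊗ₜ[ℚ] x, (1 : ℝ) ⊗ₜ[ℚ] y⁆
      rw [LieAlgebra.ExtendScalars.bracket_tmul, one_mul])
    m (m.baseChange ℝ) (fun l => Module.Basis.baseChange_apply ℝ m l)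

end Pool.Agent.S04415
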