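import Pool.Statements.S04766
import Pool.Agent.Q197.InterMain

set_option autoImplicit false
open Pool Pool.MP_5bf80f_an

namespace Pool.Agent.S04766

open Q197.JamesSpace Q197.IterLim Q197.InterMain in
/-- Lipschitz maps of tuples into the `ℓ²`-sum of James spaces have interlaced pairs with small
difference, in terms of functions on `Fin K → ℕ`. -/
lemma exists_interlaced (K : ℕ) (hK : 0 < K) (L : ℝ) (hL : 0 < L)
    (f : (Fin K → ℕ) → Q197.JamesSpace.X)
    (hf : ∀ x y : Fin K → ℕ, StrictMono x → StrictMono y →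
      ‖f x - f y‖ ≤ L * (hammingDist x y : ℝ)) :
    ∃ x y : Fin K → ℕ, StrictMono x ∧ StrictMono y ∧ (∀ i j, x i ≠ y j) ∧
      ‖f x - f y‖ ^ 2 ≤ 39 * K * L ^ 2 := by
  classical
  let tup : List ℕ → (Fin K → ℕ) := fun l i => l.getD i 0
  let Φ : List ℕ → Q197.JamesSpace.X := fun l => if StrictMono (tup l) then f (tup l) else 0
  have htup : ∀ n : ℕ → ℕ, tup (pre n K) = fun i : Fin K => n i := by
    intro n
    funext i
    simp [tup, pre, List.getD_eq_getElem?_getD, i.2]
  have hΦ : ∀ n : ℕ → ℕ, StrictMono n → Φ (pre n K) = f (fun i : Fin K => n i) := by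
    intro n hn
    have : StrictMono (fun i : Fin K => n i) := fun a b hab => hn hab
    simp only [Φ, htup, this, if_true]
  let x₀ : Fin K → ℕ := fun i => i
  have hx₀ : StrictMono x₀ := fun a b hab => hab
  have hR : ∀ l, ‖Φ l‖ ≤ ‖f x₀‖ + L * K := by
    intro l
    by_cases h : StrictMono (tup l)
    · simp only [Φ, h, if_true]
      have h1 := hf (tup l) x₀ h hx₀
      have h2 : (hammingDist (tup l) x₀ : ℝ) ≤ K := by
        have := hammingDist_le_card_fintype (x := tup l) (y := x₀)
        rw [Fintype.card_fin] at this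
        exact_mod_cast this
      have h3 : ‖f (tup l)‖ ≤ ‖f x₀‖ + ‖f (tup l) - f x₀‖ := norm_le_insert' _ _
      nlinarith
    · simp only [Φ, h, if_false, norm_zero]
      positivity
  obtain ⟨n, m, hn, hm, hne, hb⟩ := exists_pair K hK Φ hR hL (by
    intro n n' hn hn' i hi
    rw [hΦ n hn, hΦ n' hn']
    refine (hf _ _ (fun a b hab => hn hab) (fun a b hab => hn' hab)).trans ?_
    have h1 : hammingDist (fun i : Fin K => n i) (fun i : Fin K => n' i) ≤ 1 := by
      unfold hammingDist
      rw [Finset.card_le_one]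
      intro a ha b hb
      have ha' : (a : ℕ) = i := by
        by_contra hne
        exact (Finset.mem_filter.1 ha).2 (hi _ hne)
      have hb' : (b : ℕ) = i := by
        by_contra hne
        exact (Finset.mem_filter.1 hb).2 (hi _ hne)
      exact Fin.ext (ha'.trans hb'.symm)
    have h2 : (hammingDist (fun i : Fin K => n i) (fun i : Fin K => n' i) : ℝ) ≤ 1 := by
      exact_mod_cast h1
    nlinarith)
  refine ⟨fun i => n i, fun i => m i, fun a b hab => hn hab, fun a b hab => hm hab,
    fun i j => hne i j, ?_⟩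
  rw [hΦ n hn, hΦ m hm] at hb
  exact hb

/-- The negation of the preceding statement: For every real Banach space whose bidual modulo the canonical image is infinite-dimensional, there are ℓ≥1 and L>0 such that each [ℕ]^{ℓk} maps into X with distance at least half the symmetric difference of the first k entries and at most L times Hamming distance. -/
theorem result :
    ¬ (∀ (X : Type) [NormedAddCommGroup X] [NormedSpace ℝ X] [CompleteSpace X],
    (∀ s : Finset ((X →L[ℝ] ℝ) →L[ℝ] ℝ), ∃ φ : (X →L[ℝ] ℝ) →L[ℝ] ℝ,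
      φ ∉ Submodule.span ℝ
        ((↑s : Set ((X →L[ℝ] ℝ) →L[ℝ] ℝ)) ∪
          {ψ : (X →L[ℝ] ℝ) →L[ℝ] ℝ | ∃ x : X, ∀ g : X →L[ℝ] ℝ, ψ g = g x})) →
    ∃ ℓ : ℕ, 1 ≤ ℓ ∧ ∃ L : ℝ, 0 < L ∧ ∀ k : ℕ, ∃ f : (Fin (ℓ * k) → ℕ) → X,
      ∀ x y : Fin (ℓ * k) → ℕ, StrictMono x → StrictMono y →
        ((symmDiff ((Finset.univ.filter (fun i : Fin (ℓ * k) => i.val < k)).image x)
            ((Finset.univ.filter (fun i : Fin (ℓ * k) => i.val < k)).image y)).card : ℝ) / 2
          ≤ ‖f x - f y‖ ∧
        ‖f x - f y‖ ≤ L * (hammingDist x y : ℝ)) := by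
  intro hall
  obtain ⟨ℓ, hℓ, L, hL, hk⟩ := hall Q197.JamesSpace.X Q197.JamesSpace.not_quasiReflexive
  obtain ⟨k, hkL⟩ := exists_nat_gt (39 * ℓ * L ^ 2)
  have hk0 : 0 < k := by
    rcases Nat.eq_zero_or_pos k with rfl | h
    · exfalso
      rw [Nat.cast_zero] at hkL
      have : (0 : ℝ) ≤ 39 * ℓ * L ^ 2 := by positivity
      linarith
    · exact h
  obtain ⟨f, hf⟩ := hk k
  obtain ⟨x, y, hx, hy, hne, hb⟩ := exists_interlaced (ℓ * k) (by positivity) L hL f
    fun x y hx hy => (hf x y hx hy).2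
  have h1 := (hf x y hx hy).1
  have hkl : k ≤ ℓ * k := Nat.le_mul_of_pos_left k hℓ
  have hcard : (Finset.univ.filter (fun i : Fin (ℓ * k) => i.val < k)).card = k := by
    rw [← Finset.card_image_of_injective _ Fin.val_injective]
    have : (Finset.univ.filter (fun i : Fin (ℓ * k) => i.val < k)).image Fin.val =
        Finset.range k := by
      ext a
      simp only [Finset.mem_image, Finset.mem_filter, Finset.mem_univ, true_and, Finset.mem_range]
      constructor
      · rintro ⟨i, hi, rfl⟩; exact hi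
      · intro ha; exact ⟨⟨a, ha.trans_le hkl⟩, ha, rfl⟩
    rw [this, Finset.card_range]
  have hdisj : Disjoint ((Finset.univ.filter (fun i : Fin (ℓ * k) => i.val < k)).image x)
      ((Finset.univ.filter (fun i : Fin (ℓ * k) => i.val < k)).image y) := by
    rw [Finset.disjoint_left]
    intro a ha hb
    obtain ⟨i, -, hi⟩ := Finset.mem_image.1 ha
    obtain ⟨j, -, hj⟩ := Finset.mem_image.1 hb
    exact hne i j (hi.trans hj.symm)
  have h2 : (symmDiff ((Finset.univ.filter (fun i : Fin (ℓ * k) => i.val < k)).image x)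
      ((Finset.univ.filter (fun i : Fin (ℓ * k) => i.val < k)).image y)).card = k + k := by
    rw [hdisj.symmDiff_eq_sup, Finset.sup_eq_union, Finset.card_union_of_disjoint hdisj,
      Finset.card_image_of_injective _ hx.injective, Finset.card_image_of_injective _ hy.injective,
      hcard]
  rw [h2] at h1
  push_cast at h1 hb
  have h3 : (k : ℝ) ≤ ‖f x - f y‖ := by linarith
  have h4 : (k : ℝ) ^ 2 ≤ 39 * (ℓ * k) * L ^ 2 :=
    (pow_le_pow_left₀ (Nat.cast_nonneg _) h3 2).trans hb
  have hk' : (0 : ℝ) < k := by exact_mod_cast hk0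
  have h5 : (k : ℝ) ≤ 39 * ℓ * L ^ 2 := by
    have : (k : ℝ) * k ≤ (39 * ℓ * L ^ 2) * k := by nlinarith
    exact le_of_mul_le_mul_right this hk'
  linarith

end Pool.Agent.S04766
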