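import Pool.Statements.S04908
import Pool.Agent.Results.MP_68b5a7_an.InteriorPoint

set_option autoImplicit false
open Pool Pool.MP_68b5a7_an

namespace Pool.Agent.S04908

open Pool.Agent.Results.MP_68b5a7_an.InteriorPoint in
/-- The negation of the preceding statement: For every partition of [0,1)² into finitely many half-open rectangles whose translates also partition it, the piecewise-translation map returns every point to within ε of itself, in Euclidean torus distance, at some time N ≥ 1. -/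
theorem result :
    ¬ (∀ (m : ℕ) (a1 b1 a2 b2 v1 v2 : Fin m → ℝ) (φ : ℝ × ℝ → ℝ × ℝ),
      Pairwise (fun r s : Fin m =>
        Disjoint (Set.Ico (a1 r) (b1 r) ×ˢ Set.Ico (a2 r) (b2 r))
          (Set.Ico (a1 s) (b1 s) ×ˢ Set.Ico (a2 s) (b2 s))) →
      (⋃ r : Fin m, Set.Ico (a1 r) (b1 r) ×ˢ Set.Ico (a2 r) (b2 r))
          = Set.Ico (0:ℝ) 1 ×ˢ Set.Ico (0:ℝ) 1 →
      Pairwise (fun r s : Fin m =>
        Disjoint
          (Set.Ico (a1 r + v1 r) (b1 r + v1 r) ×ˢ Set.Ico (a2 r + v2 r) (b2 r + v2 r))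
          (Set.Ico (a1 s + v1 s) (b1 s + v1 s) ×ˢ Set.Ico (a2 s + v2 s) (b2 s + v2 s))) →
      (⋃ r : Fin m,
          Set.Ico (a1 r + v1 r) (b1 r + v1 r) ×ˢ Set.Ico (a2 r + v2 r) (b2 r + v2 r))
          = Set.Ico (0:ℝ) 1 ×ˢ Set.Ico (0:ℝ) 1 →
      (∀ r : Fin m, ∀ x ∈ Set.Ico (a1 r) (b1 r) ×ˢ Set.Ico (a2 r) (b2 r),
          φ x = (x.1 + v1 r, x.2 + v2 r)) →
      ∀ x ∈ Set.Ico (0:ℝ) 1 ×ˢ Set.Ico (0:ℝ) 1, ∀ ε : ℝ, 0 < ε →
        ∃ N : ℕ, 1 ≤ N ∧ ∃ k1 k2 : ℤ,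
          ((φ^[N] x).1 - x.1 + (k1 : ℝ)) ^ 2 + ((φ^[N] x).2 - x.2 + (k2 : ℝ)) ^ 2 ≤ ε ^ 2) := by
  intro H
  have hirr : Irrational (Real.sqrt 2 / 4) := by
    have := irrational_sqrt_two.div_natCast (m := 4) (by norm_num)
    exact_mod_cast this
  have h2 : Real.sqrt 2 ^ 2 = 2 := Real.sq_sqrt (by norm_num)
  have h0 : 0 < Real.sqrt 2 / 4 := by positivity
  have h1 : Real.sqrt 2 / 4 < 1 / 2 := by nlinarith [Real.sqrt_nonneg 2]
  set α : ℝ := Real.sqrt 2 / 4 with hα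
  have hE := isExchange (α := α) h0 h1
  let e : Fin 16 ≃ Fin 4 × Fin 4 := (finProdFinEquiv (m := 4) (n := 4)).symm
  have key := H 16 (fun r => A α (e r).1) (fun r => B α (e r).1) (fun r => C α (e r).2)
    (fun r => D α (e r).2) (fun r => VA α (e r).1) (fun r => VC α (e r).2) (φ α)
    (fun r s hrs => hE.disjoint (e r) (e s) (fun h => hrs (e.injective h)))
    (by
      have h := hE.cover
      unfold Rect at h
      rw [← h]
      exact e.surjective.iUnion_comp (fun i : Fin 4 × Fin 4 =>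
        Set.Ico (A α i.1) (B α i.1) ×ˢ Set.Ico (C α i.2) (D α i.2)))
    (fun r s hrs => hE.disjoint' (e r) (e s) (fun h => hrs (e.injective h)))
    (by
      have h := hE.cover'
      unfold Rect at h
      rw [← h]
      exact e.surjective.iUnion_comp (fun i : Fin 4 × Fin 4 =>
        Set.Ico (A α i.1 + VA α i.1) (B α i.1 + VA α i.1) ×ˢ
          Set.Ico (C α i.2 + VC α i.2) (D α i.2 + VC α i.2)))
    (fun r x hx => by
      have := hE.trans (e r) x hx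
      rw [this]
      rfl)
    (1 / 4, 1 / 4) ⟨⟨by norm_num, by norm_num⟩, ⟨by norm_num, by norm_num⟩⟩ (1 / 4) (by norm_num)
  obtain ⟨N, hN, k1, k2, hk⟩ := key
  obtain ⟨n, rfl⟩ : ∃ n, N = n + 1 := ⟨N - 1, by omega⟩
  obtain ⟨t, k, -, ht0, ht1, h⟩ := orbit hirr h0 h1 n
  rw [h] at hk
  simp only at hk
  -- hk : (1/4 + t - 1/4 + k1)^2 + (3/4 - t - 1/4 + k2)^2 ≤ (1/4)^2
  have hs : (1 / 2 + ((k1 + k2 : ℤ) : ℝ)) ^ 2 ≤ 1 / 8 := by
    push_cast
    nlinarith [sq_nonneg ((1 / 4 + t - 1 / 4 + (k1 : ℝ)) - (3 / 4 - t - 1 / 4 + (k2 : ℝ)))]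
  rcases le_or_gt 0 (k1 + k2) with hz | hz
  · have : (0 : ℝ) ≤ ((k1 + k2 : ℤ) : ℝ) := by exact_mod_cast hz
    nlinarith
  · have : ((k1 + k2 : ℤ) : ℝ) ≤ -1 := by
      have : k1 + k2 ≤ -1 := by omega
      exact_mod_cast this
    nlinarith

end Pool.Agent.S04908
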