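import Pool.Statements.S05142

set_option autoImplicit false
open MeasureTheory
open Pool Pool.MP_7c5c90_an

namespace Pool.Agent.S05142

/-- Integrals over the square, as iterated interval integrals. -/
theorem sq_integral (F : ℝ → ℝ → ℝ) (hF : Continuous (fun p : ℝ × ℝ => F p.1 p.2)) :
    ∫ z in {z : ℂ | |z.re| < 1 ∧ |z.im| < 1}, F z.re z.im
      = ∫ x in (-1:ℝ)..1, ∫ y in (-1:ℝ)..1, F x y := by
  have h1 := Complex.volume_preserving_equiv_real_prod.setIntegral_preimage_emb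
    Complex.measurableEquivRealProd.measurableEmbedding (fun p : ℝ × ℝ => F p.1 p.2)
    (Set.Ioo (-1:ℝ) 1 ×ˢ Set.Ioo (-1:ℝ) 1)
  have h2 : (Complex.measurableEquivRealProd ⁻¹' (Set.Ioo (-1:ℝ) 1 ×ˢ Set.Ioo (-1:ℝ) 1))
      = {z : ℂ | |z.re| < 1 ∧ |z.im| < 1} := by
    ext z
    simp [Complex.measurableEquivRealProd_apply, abs_lt]
  rw [h2] at h1
  simp only [Complex.measurableEquivRealProd_apply] at h1
  rw [h1, Measure.volume_eq_prod, setIntegral_prod]
  · rw [intervalIntegral.integral_of_le (by norm_num), integral_Ioc_eq_integral_Ioo]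
    refine setIntegral_congr_fun measurableSet_Ioo (fun x _ => ?_)
    simp only
    rw [intervalIntegral.integral_of_le (by norm_num), integral_Ioc_eq_integral_Ioo]
  · have : IntegrableOn (fun p : ℝ × ℝ => F p.1 p.2)
        (Set.Icc (-1:ℝ) 1 ×ˢ Set.Icc (-1:ℝ) 1) (volume.prod volume) := by
      rw [← Measure.volume_eq_prod]
      exact hF.continuousOn.integrableOn_compact (isCompact_Icc.prod isCompact_Icc)
    exact this.mono_set (Set.prod_mono Set.Ioo_subset_Icc_self Set.Ioo_subset_Icc_self)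

theorem sq_integrable (F : ℂ → ℝ) (hF : Continuous F) :
    IntegrableOn F {z : ℂ | |z.re| < 1 ∧ |z.im| < 1} := by
  have hsub : {z : ℂ | |z.re| < 1 ∧ |z.im| < 1} ⊆ Metric.closedBall (0:ℂ) 2 := by
    intro z hz
    have h := Complex.norm_le_abs_re_add_abs_im z
    rw [mem_closedBall_zero_iff]
    linarith [hz.1, hz.2]
  exact (hF.continuousOn.integrableOn_compact (isCompact_closedBall (0:ℂ) 2)).mono_set hsub

/-- real part of z²-z⁶/10 -/
noncomputable def P (x y : ℝ) : ℝ :=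
  x ^ 2 - y ^ 2 - (x ^ 6 - 15 * x ^ 4 * y ^ 2 + 15 * x ^ 2 * y ^ 4 - y ^ 6) / 10

/-- imaginary part of z²-z⁶/10 -/
noncomputable def R (x y : ℝ) : ℝ :=
  2 * x * y - (6 * x ^ 5 * y - 20 * x ^ 3 * y ^ 3 + 6 * x * y ^ 5) / 10

/-- the test function -/
noncomputable def w (z : ℂ) : ℂ := -Complex.I * (z ^ 2 - z ^ 6 / 10)

theorem w_re (z : ℂ) : (w z).re = R z.re z.im := by
  have hz : z = ⟨z.re, z.im⟩ := rfl
  unfold w R
  simp only [pow_succ, pow_zero, one_mul, Complex.mul_re, Complex.mul_im, Complex.neg_re,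
    Complex.neg_im, Complex.I_re, Complex.I_im, Complex.sub_re, Complex.sub_im, Complex.div_re,
    Complex.div_im]
  have h10r : (10:ℂ).re = 10 := rfl
  have h10i : (10:ℂ).im = 0 := rfl
  have h10n : Complex.normSq (10:ℂ) = 100 := by
    rw [Complex.normSq_apply, h10r, h10i]; norm_num
  rw [h10r, h10i, h10n]
  ring

theorem w_im (z : ℂ) : (w z).im = -P z.re z.im := by
  unfold w P
  simp only [pow_succ, pow_zero, one_mul, Complex.mul_re, Complex.mul_im, Complex.neg_re,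
    Complex.neg_im, Complex.I_re, Complex.I_im, Complex.sub_re, Complex.sub_im, Complex.div_re,
    Complex.div_im]
  have h10r : (10:ℂ).re = 10 := rfl
  have h10i : (10:ℂ).im = 0 := rfl
  have h10n : Complex.normSq (10:ℂ) = 100 := by
    rw [Complex.normSq_apply, h10r, h10i]; norm_num
  rw [h10r, h10i, h10n]
  ring

theorem w_diff : Differentiable ℂ w := by
  unfold w
  fun_prop


theorem int_even (c0 c2 c4 c6 c8 c10 c12 : ℝ) :
    ∫ y in (-1:ℝ)..1, (c0 + c2 * y ^ 2 + c4 * y ^ 4 + c6 * y ^ 6 + c8 * y ^ 8 + c10 * y ^ 10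
      + c12 * y ^ 12) = 2 * (c0 + c2 / 3 + c4 / 5 + c6 / 7 + c8 / 9 + c10 / 11 + c12 / 13) := by
  have hd : ∀ y : ℝ, HasDerivAt (fun y : ℝ => c0 * y + c2 * (y ^ 3 / 3) + c4 * (y ^ 5 / 5)
      + c6 * (y ^ 7 / 7) + c8 * (y ^ 9 / 9) + c10 * (y ^ 11 / 11) + c12 * (y ^ 13 / 13))
      (c0 + c2 * y ^ 2 + c4 * y ^ 4 + c6 * y ^ 6 + c8 * y ^ 8 + c10 * y ^ 10
      + c12 * y ^ 12) y := by
    intro y
    have h1 := (hasDerivAt_id y).const_mul c0
    have h3 := ((hasDerivAt_pow 3 y).div_const 3).const_mul c2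
    have h5 := ((hasDerivAt_pow 5 y).div_const 5).const_mul c4
    have h7 := ((hasDerivAt_pow 7 y).div_const 7).const_mul c6
    have h9 := ((hasDerivAt_pow 9 y).div_const 9).const_mul c8
    have h11 := ((hasDerivAt_pow 11 y).div_const 11).const_mul c10
    have h13 := ((hasDerivAt_pow 13 y).div_const 13).const_mul c12
    have h := (((((h1.add h3).add h5).add h7).add h9).add h11).add h13
    refine h.congr_deriv ?_
    norm_num
  rw [intervalIntegral.integral_eq_sub_of_hasDerivAt (fun y _ => hd y)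
    (by apply Continuous.intervalIntegrable; fun_prop)]
  ring

/-- the mean of the real part vanishes -/
theorem mean_zero : ∫ z in {z : ℂ | |z.re| < 1 ∧ |z.im| < 1}, (w z).re = 0 := by
  simp only [w_re]
  rw [sq_integral R (by unfold R; fun_prop)]
  have : ∀ x : ℝ, ∫ y in (-1:ℝ)..1, R x y = 0 := by
    intro x
    have hd : ∀ y : ℝ, HasDerivAt (fun y : ℝ => (2 * x - 6 * x ^ 5 / 10) * (y ^ 2 / 2)
        + 2 * x ^ 3 * (y ^ 4 / 4) - (6 * x / 10) * (y ^ 6 / 6)) (R x y) y := by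
      intro y
      have h2 := ((hasDerivAt_pow 2 y).div_const 2).const_mul (2 * x - 6 * x ^ 5 / 10)
      have h4 := ((hasDerivAt_pow 4 y).div_const 4).const_mul (2 * x ^ 3)
      have h6 := ((hasDerivAt_pow 6 y).div_const 6).const_mul (6 * x / 10)
      refine ((h2.add h4).sub h6).congr_deriv ?_
      unfold R
      norm_num
      ring
    rw [intervalIntegral.integral_eq_sub_of_hasDerivAt (fun y _ => hd y)
      (by apply Continuous.intervalIntegrable; unfold R; fun_prop)]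
    ring
  simp [this]

/-- the quadratic form is positive at `w` -/
theorem form_pos : ∫ z in {z : ℂ | |z.re| < 1 ∧ |z.im| < 1},
    ((w z).re ^ 2 - 5 / 2 * (w z).im ^ 2) = 51712 / 315315 := by
  simp only [w_re, w_im]
  rw [sq_integral (fun x y => R x y ^ 2 - 5 / 2 * (-P x y) ^ 2) (by unfold R P; fun_prop)]
  have h1 : ∀ x : ℝ, ∫ y in (-1:ℝ)..1, (R x y ^ 2 - 5 / 2 * (-P x y) ^ 2)
      = (-2089/2340) + 12437/3850 * x ^ 2 + 9/4 * x ^ 4 + (-1237/525) * x ^ 6
        + (-251/100) * x ^ 8 + 37/50 * x ^ 10 + (-1/20) * x ^ 12 := by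
    intro x
    have h2 : (fun y : ℝ => R x y ^ 2 - 5 / 2 * (-P x y) ^ 2)
        = fun y => ((-5/2) * x ^ 4 + (1/2) * x ^ 8 + (-1/40) * x ^ 12)
          + (9 * x ^ 2 + (-52/5) * x ^ 6 + (111/100) * x ^ 10) * y ^ 2
          + (23 * x ^ 4 + (-351/40) * x ^ 8 + (-5/2)) * y ^ 4
          + ((-52/5) * x ^ 2 + (801/50) * x ^ 6) * y ^ 6
          + ((-351/40) * x ^ 4 + 1/2) * y ^ 8
          + (111/100 * x ^ 2) * y ^ 10 + (-1/40) * y ^ 12 := by
      funext y
      unfold R P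
      ring
    rw [h2, int_even]
    ring
  simp only [h1]
  rw [int_even]
  norm_num

/-- The negation of the preceding statement: On the open square (−1,1)², every holomorphic w with square-integrable real part f and imaginary part g and ∫f=0 satisfies ∫f² ≤ (5/2)∫g², and f=2xy, g=y²−x² attain equality, so the best Friedrichs constant is 5/2. -/
theorem result :
    ¬ ((∀ w : ℂ → ℂ,
      DifferentiableOn ℂ w {z : ℂ | |z.re| < 1 ∧ |z.im| < 1} →
      IntegrableOn (fun z => (w z).re ^ 2) {z : ℂ | |z.re| < 1 ∧ |z.im| < 1} →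
      IntegrableOn (fun z => (w z).im ^ 2) {z : ℂ | |z.re| < 1 ∧ |z.im| < 1} →
      ∫ z in {z : ℂ | |z.re| < 1 ∧ |z.im| < 1}, (w z).re = 0 →
      ∫ z in {z : ℂ | |z.re| < 1 ∧ |z.im| < 1}, (w z).re ^ 2
        ≤ (5 / 2 : ℝ) * ∫ z in {z : ℂ | |z.re| < 1 ∧ |z.im| < 1}, (w z).im ^ 2) ∧
    (∫ z in {z : ℂ | |z.re| < 1 ∧ |z.im| < 1}, (2 * z.re * z.im) = 0 ∧
      ∫ z in {z : ℂ | |z.re| < 1 ∧ |z.im| < 1}, (2 * z.re * z.im) ^ 2
        = (5 / 2 : ℝ) * ∫ z in {z : ℂ | |z.re| < 1 ∧ |z.im| < 1}, (z.im ^ 2 - z.re ^ 2) ^ 2 ∧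
      0 < ∫ z in {z : ℂ | |z.re| < 1 ∧ |z.im| < 1}, (z.im ^ 2 - z.re ^ 2) ^ 2)) := by
  rintro ⟨h, -⟩
  have hr : IntegrableOn (fun z => (w z).re ^ 2) {z : ℂ | |z.re| < 1 ∧ |z.im| < 1} :=
    sq_integrable _ ((Complex.continuous_re.comp w_diff.continuous).pow 2)
  have hi : IntegrableOn (fun z => (w z).im ^ 2) {z : ℂ | |z.re| < 1 ∧ |z.im| < 1} :=
    sq_integrable _ ((Complex.continuous_im.comp w_diff.continuous).pow 2)
  have h1 := h w w_diff.differentiableOn hr hi mean_zero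
  have h2 := form_pos
  rw [integral_sub hr (hi.const_mul _), integral_const_mul] at h2
  linarith

end Pool.Agent.S05142
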