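import Pool.Statements.S05326

set_option autoImplicit false
open MeasureTheory Filter Topology
open Pool Pool.MP_8b8979_an

namespace Pool.Agent.S05326

/-- the indicator function of the squares `m ^ 2` with `log₂ m` even -/
noncomputable def z : ℕ → Bool := by
  classical exact fun n => decide (∃ m, Even (Nat.log 2 m) ∧ m ^ 2 = n)

theorem z_iff (n : ℕ) : z n = true ↔ ∃ m, Even (Nat.log 2 m) ∧ m ^ 2 = n := by
  classical
  unfold z
  rw [decide_eq_true_iff]

theorem z_sq (m : ℕ) : z (m ^ 2) = true ↔ Even (Nat.log 2 m) := by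
  rw [z_iff]
  constructor
  · rintro ⟨m', h, he⟩
    rw [(Nat.pow_left_injective (n := 2) (by norm_num) he : m' = m)] at h
    exact h
  · intro h
    exact ⟨m, h, rfl⟩

/-- the shift -/
def shift (x : ℕ → Bool) : ℕ → Bool := fun n => x (n + 1)

/-- the number of ones in a window -/
def cnt (x : ℕ → Bool) (j N : ℕ) : ℕ := ((Finset.range N).filter fun n => x (j + n) = true).card

theorem cnt_z (j N : ℕ) : cnt z j N ≤ Nat.sqrt N + 1 := by
  classical
  unfold cnt
  rcases ((Finset.range N).filter fun n => z (j + n) = true).eq_empty_or_nonempty with h | h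
  · rw [h]; simp
  · set s := (Finset.range N).filter fun n => z (j + n) = true with hs
    have hmin := Finset.min'_mem s h
    set n0 := s.min' h with hn0
    have hle : ∀ n ∈ s, n0 ≤ n := fun n hn => Finset.min'_le s n hn
    rw [hs, Finset.mem_filter, Finset.mem_range, z_iff] at hmin
    obtain ⟨hn0N, m0, -, hm0⟩ := hmin
    rw [← Finset.card_range (Nat.sqrt N + 1)]
    have hroot : ∀ n ∈ s, ∃ m, m ^ 2 = j + n ∧ m0 ≤ m ∧ m - m0 ≤ Nat.sqrt N := by
      intro n hn
      have h1 := hle n hn
      rw [hs, Finset.mem_filter, Finset.mem_range, z_iff] at hn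
      obtain ⟨hnN, m, -, hm⟩ := hn
      have h2 : m0 ≤ m := by
        by_contra hcon
        push Not at hcon
        have : m ^ 2 < m0 ^ 2 := Nat.pow_lt_pow_left hcon (by norm_num)
        omega
      refine ⟨m, hm, h2, ?_⟩
      rw [Nat.le_sqrt]
      obtain ⟨c, rfl⟩ := Nat.exists_eq_add_of_le h2
      have h3 : m0 + c - m0 = c := by omega
      rw [h3]
      nlinarith
    choose! r hr using hroot
    refine Finset.card_le_card_of_injOn (fun n => r n - m0) ?_ ?_
    · intro n hn
      have := (hr n hn).2.2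
      simp only [Finset.coe_range, Set.mem_Iio]
      omega
    · intro n hn n' hn' heq
      have h1 := hr n hn
      have h2 := hr n' hn'
      simp only at heq
      have h3 : r n = r n' := by omega
      have h4 : j + n = j + n' := by rw [← h1.1, ← h2.1, h3]
      omega

theorem z_adj (k : ℕ) (h1 : z k = true) (h2 : z (k + 1) = true) : k = 0 := by
  rw [z_iff] at h1 h2
  obtain ⟨m, -, hm⟩ := h1
  obtain ⟨m', -, hm'⟩ := h2
  have h3 : m < m' := by
    by_contra hcon
    push Not at hcon
    have : m' ^ 2 ≤ m ^ 2 := Nat.pow_le_pow_left hcon 2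
    omega
  have h4 : (m + 1) ^ 2 ≤ m' ^ 2 := Nat.pow_le_pow_left h3 2
  have h5 : m = 0 := by nlinarith
  rw [← hm, h5]
  rfl

/-- the compact space -/
def K : Set (ℕ → Bool) :=
  {x | (∀ j N, cnt x j N ≤ Nat.sqrt N + 1) ∧
    ∀ k, x k = true → x (k + 1) = true → k = 0 ∧ x = z}

theorem isClosed_K : IsClosed K := by
  have h1 : K = (⋂ j, ⋂ N, {x : ℕ → Bool | cnt x j N ≤ Nat.sqrt N + 1}) ∩
      ⋂ k, {x : ℕ → Bool | x k = true → x (k + 1) = true → k = 0 ∧ x = z} := by
    ext x
    simp [K]
  rw [h1]
  refine IsClosed.inter (isClosed_iInter fun j => isClosed_iInter fun N => ?_)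
    (isClosed_iInter fun k => ?_)
  · have hc : Continuous fun x : ℕ → Bool => cnt x j N := by
      have h2 : (fun x : ℕ → Bool => cnt x j N) = fun x =>
          ∑ n ∈ Finset.range N, if x (j + n) = true then 1 else 0 := by
        funext x
        rw [cnt, Finset.card_filter]
      rw [h2]
      refine continuous_finsetSum _ fun n _ => ?_
      have h3 : Continuous (fun b : Bool => if b = true then (1 : ℕ) else 0) :=
        continuous_of_discreteTopology
      exact h3.comp (continuous_apply (j + n))
    exact isClosed_le hc continuous_const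
  · have h2 : {x : ℕ → Bool | x k = true → x (k + 1) = true → k = 0 ∧ x = z} =
        {x | x k = false} ∪ ({x | x (k + 1) = false} ∪ {x | k = 0 ∧ x = z}) := by
      ext x
      simp only [Set.mem_ofPred_eq, Set.mem_union]
      cases x k <;> cases x (k + 1) <;> simp
    rw [h2]
    refine (isClosed_eq (continuous_apply k) continuous_const).union
      ((isClosed_eq (continuous_apply (k + 1)) continuous_const).union ?_)
    by_cases hk : k = 0
    · simp only [hk, true_and]
      exact isClosed_eq continuous_id continuous_const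
    · simp only [hk, false_and]
      exact isClosed_empty

theorem z_mem : z ∈ K := ⟨cnt_z, fun k h1 h2 => ⟨z_adj k h1 h2, rfl⟩⟩

theorem zero_mem : (fun _ => false) ∈ K := ⟨fun j N => by simp [cnt], fun k h => by simp at h⟩

theorem shift_mem {x : ℕ → Bool} (hx : x ∈ K) : shift x ∈ K := by
  refine ⟨fun j N => ?_, fun k h1 h2 => ?_⟩
  · have := hx.1 (j + 1) N
    have e : cnt (shift x) j N = cnt x (j + 1) N := by
      unfold cnt shift
      congr 1
      apply Finset.filter_congr
      intro n _
      rw [show j + n + 1 = j + 1 + n by ring]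
    rw [e]
    exact this
  · have := (hx.2 (k + 1) h1 h2).1
    omega

/-- the number of `n < N` with `log₂ n` even -/
noncomputable def c (N : ℕ) : ℝ := ∑ n ∈ Finset.range N, if Even (Nat.log 2 n) then (1 : ℝ) else 0

theorem c_odd (k : ℕ) : c (2 * 4 ^ k) = c (4 ^ k) + 4 ^ k := by
  unfold c
  rw [show 2 * 4 ^ k = 4 ^ k + 4 ^ k by ring, Finset.sum_range_add]
  congr 1
  have h : ∀ n ∈ Finset.range (4 ^ k), (if Even (Nat.log 2 (4 ^ k + n)) then (1 : ℝ) else 0) = 1 := by
    intro n hn
    rw [Finset.mem_range] at hn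
    have hlog : Nat.log 2 (4 ^ k + n) = 2 * k := by
      rw [Nat.log_eq_iff (Or.inr ⟨by norm_num, by positivity⟩)]
      have e : 2 ^ (2 * k) = 4 ^ k := by rw [pow_mul]; norm_num
      have e' : 2 ^ (2 * k + 1) = 2 * 4 ^ k := by rw [pow_succ, e]; ring
      rw [e, e']
      omega
    rw [hlog, if_pos (even_two_mul k)]
  rw [Finset.sum_congr rfl h]
  simp

theorem c_even (k : ℕ) : c (4 ^ (k + 1)) = c (2 * 4 ^ k) := by
  unfold c
  rw [show 4 ^ (k + 1) = 2 * 4 ^ k + 2 * 4 ^ k by ring, Finset.sum_range_add]
  have h : ∀ n ∈ Finset.range (2 * 4 ^ k),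
      (if Even (Nat.log 2 (2 * 4 ^ k + n)) then (1 : ℝ) else 0) = 0 := by
    intro n hn
    rw [Finset.mem_range] at hn
    have hlog : Nat.log 2 (2 * 4 ^ k + n) = 2 * k + 1 := by
      rw [Nat.log_eq_iff (Or.inr ⟨by norm_num, by positivity⟩)]
      have e : 2 ^ (2 * k + 1) = 2 * 4 ^ k := by rw [pow_succ, pow_mul]; norm_num; ring
      have e' : 2 ^ (2 * k + 1 + 1) = 4 * 4 ^ k := by rw [pow_succ, e]; ring
      rw [e, e']
      omega
    rw [hlog, if_neg (by simp)]
  rw [Finset.sum_congr rfl h]
  simp

theorem not_tendsto (L : ℝ) (h : Tendsto (fun N : ℕ => (N : ℝ)⁻¹ * c N) atTop (𝓝 L)) : False := by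
  have t1 : Tendsto (fun k : ℕ => 4 ^ k) atTop atTop :=
    tendsto_pow_atTop_atTop_of_one_lt (by norm_num)
  have t2 : Tendsto (fun k : ℕ => 2 * 4 ^ k) atTop atTop :=
    tendsto_atTop_mono (fun k => by omega) t1
  have t3 : Tendsto (fun k : ℕ => 4 ^ (k + 1)) atTop atTop := t1.comp (tendsto_add_atTop_nat 1)
  have h1 := h.comp t1
  have h2 := h.comp t2
  have h3 := h.comp t3
  have e2 : (fun N : ℕ => (N : ℝ)⁻¹ * c N) ∘ (fun k : ℕ => 2 * 4 ^ k) =
      fun k => ((fun N : ℕ => (N : ℝ)⁻¹ * c N) ∘ (fun k : ℕ => 4 ^ k)) k / 2 + 1 / 2 := by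
    funext k
    simp only [Function.comp]
    rw [c_odd]
    push_cast
    have : (4 : ℝ) ^ k ≠ 0 := by positivity
    field_simp
  have e3 : (fun N : ℕ => (N : ℝ)⁻¹ * c N) ∘ (fun k : ℕ => 4 ^ (k + 1)) =
      fun k => ((fun N : ℕ => (N : ℝ)⁻¹ * c N) ∘ (fun k : ℕ => 2 * 4 ^ k)) k / 2 := by
    funext k
    simp only [Function.comp]
    rw [c_even]
    push_cast
    have : (4 : ℝ) ^ k ≠ 0 := by positivity
    rw [pow_succ]
    field_simp
    ring
  have l2 := tendsto_nhds_unique h2 (e2 ▸ (h1.div_const 2).add_const (1 / 2))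
  have l3 := tendsto_nhds_unique h3 (e3 ▸ h2.div_const 2)
  linarith

/-- the map on the compact space -/
def T (x : K) : K := ⟨shift x.1, shift_mem x.2⟩

theorem T_iter (k : ℕ) (x : K) (n : ℕ) : (T^[k] x).1 n = x.1 (n + k) := by
  induction k generalizing x with
  | zero => rfl
  | succ k ih =>
    rw [Function.iterate_succ_apply, ih]
    change x.1 (n + k + 1) = x.1 (n + (k + 1))
    rw [add_assoc]

theorem continuous_T : Continuous T := by
  refine Continuous.subtype_mk ?_ _
  refine continuous_pi fun n => ?_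
  exact (continuous_apply (n + 1)).comp continuous_subtype_val

/-- The negation of the preceding statement: For every compact metric space with a continuous uniquely ergodic map T, every integer polynomial p nonnegative on the naturals, and every continuous real f, the averages (1/N)·Σ_{n<N} f(T^{p(n)}x) converge for all x outside a meagre set. -/
theorem result :
    ¬ (∀ (X : Type) [MetricSpace X] [CompactSpace X] [MeasurableSpace X] [BorelSpace X]
      (T : X → X), Continuous T →
      (∃! μ : Measure X, IsProbabilityMeasure μ ∧ MeasurePreserving T μ μ) →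
      ∀ p : Polynomial ℤ, (∀ n : ℕ, 0 ≤ p.eval (n : ℤ)) →
      ∀ f : C(X, ℝ),
        ∀ᶠ x in residual X, ∃ L : ℝ,
          Tendsto (fun N : ℕ => (N : ℝ)⁻¹ *
              ∑ n ∈ Finset.range N, f (T^[(p.eval (n : ℤ)).toNat] x))
            atTop (𝓝 L)) := by
  classical
  intro hall
  letI : MetricSpace K := TopologicalSpace.metrizableSpaceMetric K
  haveI : CompactSpace K := isCompact_iff_compactSpace.1 isClosed_K.isCompact
  letI : MeasurableSpace K := borel K
  haveI : BorelSpace K := ⟨rfl⟩
  have hcont : Continuous T := continuous_T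
  let o : K := ⟨fun _ => false, zero_mem⟩
  let C : ℕ → Set K := fun n => {x | x.1 n = true}
  have hC : ∀ n, MeasurableSet (C n) := by
    intro n
    apply IsClosed.measurableSet
    exact isClosed_eq ((continuous_apply n).comp continuous_subtype_val) continuous_const
  have hnull : ∀ μ : Measure K, IsProbabilityMeasure μ → MeasurePreserving T μ μ →
      ∀ n, μ (C n) = 0 := by
    intro μ hμ hT
    have h1 : ∀ n, μ (C n) = μ (C 0) := by
      intro n
      induction n with
      | zero => rfl
      | succ n ih =>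
        rw [← ih, ← hT.measure_preimage (hC n).nullMeasurableSet]
        rfl
    have h2 : ∀ N : ℕ, (N : ENNReal) * μ (C 0) ≤ ((Nat.sqrt N + 1 : ℕ) : ENNReal) := by
      intro N
      have h3 : (N : ENNReal) * μ (C 0) = ∫⁻ x, ∑ n ∈ Finset.range N, (C n).indicator 1 x ∂μ := by
        rw [lintegral_finsetSum _ (fun n _ => measurable_one.indicator (hC n))]
        simp only [lintegral_indicator_one (hC _), h1]
        simp
      rw [h3]
      calc ∫⁻ x, ∑ n ∈ Finset.range N, (C n).indicator 1 x ∂μ
          ≤ ∫⁻ _, ((Nat.sqrt N + 1 : ℕ) : ENNReal) ∂μ := by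
            apply lintegral_mono
            intro x
            have h4 : ∑ n ∈ Finset.range N, (C n).indicator (1 : K → ENNReal) x =
                ((cnt x.1 0 N : ℕ) : ENNReal) := by
              rw [cnt, Finset.card_filter]
              push_cast
              refine Finset.sum_congr rfl fun n _ => ?_
              rw [Set.indicator_apply, zero_add]
              rfl
            simp only
            rw [h4]
            exact_mod_cast x.2.1 0 N
        _ = _ := by simp
    have h5 : ∀ m : ℕ, (m : ENNReal) * μ (C 0) ≤ 2 := by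
      intro m
      rcases Nat.eq_zero_or_pos m with rfl | hm
      · simp
      have h6 := h2 (m ^ 2)
      rw [Nat.sqrt_eq'] at h6
      have h7 : (m : ENNReal) * ((m : ENNReal) * μ (C 0)) ≤ (m : ENNReal) * 2 := by
        calc (m : ENNReal) * ((m : ENNReal) * μ (C 0)) = ((m ^ 2 : ℕ) : ENNReal) * μ (C 0) := by
              push_cast; ring
          _ ≤ ((m + 1 : ℕ) : ENNReal) := h6
          _ ≤ ((m * 2 : ℕ) : ENNReal) := by
              exact_mod_cast (by omega : m + 1 ≤ m * 2)
          _ = _ := by push_cast; ring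
      exact (ENNReal.mul_le_mul_iff_right (by exact_mod_cast hm.ne') (ENNReal.natCast_ne_top m)).1 h7
    intro n
    rw [h1]
    by_contra hne
    obtain ⟨m, hm⟩ := ENNReal.exists_nat_mul_gt hne (by norm_num : (2 : ENNReal) ≠ ⊤)
    exact absurd (h5 m) (not_le.2 hm)
  have hzero : ∀ x : K, x ≠ o → ∃ n, x ∈ C n := by
    intro x hx
    by_contra hcon
    push Not at hcon
    apply hx
    apply Subtype.ext
    funext n
    have := hcon n
    change ¬ x.1 n = true at this
    simpa using this
  have huniq : ∀ μ : Measure K, IsProbabilityMeasure μ → MeasurePreserving T μ μ →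
      μ = Measure.dirac o := by
    intro μ hμ hT
    have h0 : μ (⋃ n, C n) = 0 := measure_iUnion_null (hnull μ hμ hT)
    have hs0 : ∀ s : Set K, o ∉ s → μ s = 0 := by
      intro s hs
      refine measure_mono_null ?_ h0
      intro x hx
      obtain ⟨n, hn⟩ := hzero x (fun h => hs (h ▸ hx))
      exact Set.mem_iUnion.2 ⟨n, hn⟩
    ext s hs
    rw [Measure.dirac_apply' _ hs]
    by_cases ho : o ∈ s
    · rw [Set.indicator_of_mem ho, Pi.one_apply]
      have h1 := hs0 sᶜ (fun h => h ho)
      rw [← prob_compl_eq_zero_iff hs]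
      exact h1
    · rw [Set.indicator_of_notMem ho]
      exact hs0 s ho
  have hTo : T o = o := rfl
  have hue : ∃! μ : Measure K, IsProbabilityMeasure μ ∧ MeasurePreserving T μ μ := by
    refine ⟨Measure.dirac o, ⟨inferInstance, hcont.measurable, ?_⟩, fun μ h => huniq μ h.1 h.2⟩
    rw [Measure.map_dirac' hcont.measurable, hTo]
  let f : C(K, ℝ) := ⟨fun x => if x.1 0 = true then 1 else 0, by
    have h3 : Continuous (fun b : Bool => if b = true then (1 : ℝ) else 0) :=
      continuous_of_discreteTopology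
    exact h3.comp ((continuous_apply 0).comp continuous_subtype_val)⟩
  have hp : ∀ n : ℕ, 0 ≤ (Polynomial.X ^ 2 : Polynomial ℤ).eval (n : ℤ) := by
    intro n
    simp only [Polynomial.eval_pow, Polynomial.eval_X]
    positivity
  have hres := hall K T hcont hue (Polynomial.X ^ 2) hp f
  have hdense := dense_of_mem_residual hres
  have hopen : IsOpen {x : K | x.1 0 = true ∧ x.1 1 = true} := by
    have hev : ∀ n : ℕ, Continuous fun x : K => x.1 n := fun n =>
      (continuous_apply n).comp continuous_subtype_val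
    have h1 : ∀ n : ℕ, IsOpen {x : K | x.1 n = true} := fun n =>
      (isOpen_discrete {b : Bool | b = true}).preimage (hev n)
    exact (h1 0).inter (h1 1)
  have hz0 : z 0 = true := by rw [z_iff]; exact ⟨0, by simp, rfl⟩
  have hz1 : z 1 = true := by rw [z_iff]; exact ⟨1, by simp, rfl⟩
  obtain ⟨x, hx, hxc⟩ := hdense.exists_mem_open hopen ⟨⟨z, z_mem⟩, hz0, hz1⟩
  have hxz : x.1 = z := (x.2.2 0 hxc.1 hxc.2).2
  obtain ⟨L, hL⟩ := hx
  apply not_tendsto L
  refine hL.congr fun N => ?_
  congr 1
  refine Finset.sum_congr rfl fun n _ => ?_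
  change (if (T^[((Polynomial.X ^ 2 : Polynomial ℤ).eval (n : ℤ)).toNat] x).1 0 = true
    then (1 : ℝ) else 0) = _
  rw [T_iter, hxz, zero_add]
  have e : ((Polynomial.X ^ 2 : Polynomial ℤ).eval (n : ℤ)).toNat = n ^ 2 := by
    simp only [Polynomial.eval_pow, Polynomial.eval_X]
    rw [← Nat.cast_pow, Int.toNat_natCast]
  rw [e]
  exact if_congr (z_sq n) rfl rfl

end Pool.Agent.S05326
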