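import Pool.Statements.S05947
import Pool.Agent.Q50.SO.Main

set_option autoImplicit false
open MeasureTheory Matrix
open Pool Pool.MP_bc76ba_an

namespace Pool.Agent.S05947

/-- For an expanding integer matrix R and finite digit set B in Z^d, if the equal-weight self-affine measure is spectral, then the pieces R^{-1}(T+b) of its attractor T pairwise meet in a set of measure zero. -/
theorem result :
  ∀ (d : ℕ) (R : Matrix (Fin d) (Fin d) ℤ) (B : Finset (Fin d → ℤ))
    (φ : (Fin d → ℤ) → (Fin d → ℝ) → (Fin d → ℝ))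
    (μ : MeasureTheory.Measure (Fin d → ℝ)),
    (∀ z : ℂ, (R.map (Int.castRingHom ℂ)).charpoly.IsRoot z → 1 < ‖z‖) →
    (∀ b x, φ b x = (R.map (Int.castRingHom ℝ))⁻¹ *ᵥ (x + fun i => (b i : ℝ))) →
    MeasureTheory.IsProbabilityMeasure μ →
    μ = ∑ b ∈ B, ((B.card : ENNReal)⁻¹) • μ.map (φ b) →
    (∃ (Λ : Set (Fin d → ℝ)) (e : Λ → MeasureTheory.Lp ℂ 2 μ),
      (∀ l : Λ, (e l : (Fin d → ℝ) → ℂ) =ᵐ[μ]
        fun x => Complex.exp (2 * Real.pi * Complex.I
          * ((∑ i, (l : Fin d → ℝ) i * x i : ℝ) : ℂ))) ∧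
      Orthonormal ℂ e ∧
      (Submodule.span ℂ (Set.range e)).topologicalClosure = ⊤) →
    ∀ T : Set (Fin d → ℝ), IsCompact T → T.Nonempty → T = ⋃ b ∈ B, φ b '' T →
    ∀ b ∈ B, ∀ b' ∈ B, b ≠ b' → μ (φ b '' T ∩ φ b' '' T) = 0 := by
  intro d R B φ μ hR hφ hμ hself hspec T hT hTne hatt b hb b' hb' hne
  have hφ' : φ = fun b => Q50.SO.tau R [b] := by
    funext b x
    rw [hφ, Q50.SO.tau_single]
    rfl
  subst hφ'
  obtain ⟨Λ, e, he, ho, hd⟩ := hspec
  obtain ⟨r, hr1, hr2, hr3⟩ := Q50.SO.exists_rate R hR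
  have S : Q50.SO.Sys R B μ T r :=
    { det := Q50.SO.det_ne_zero R hR
      prob := hμ
      self := by
        intro E hE
        have h1 : μ E = (∑ b ∈ B, ((B.card : ENNReal)⁻¹) • μ.map (Q50.SO.tau R [b])) E :=
          congrArg (fun m : MeasureTheory.Measure (Fin d → ℝ) => m E) hself
        rw [h1, MeasureTheory.Measure.finsetSum_apply, Finset.mul_sum]
        refine Finset.sum_congr rfl fun b _ => ?_
        rw [MeasureTheory.Measure.smul_apply,
          MeasureTheory.Measure.map_apply (Q50.SO.measurable_tau [b]) hE, smul_eq_mul]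
      cpt := hT
      ne := hTne
      att := hatt
      r_lim := hr1
      r_nonneg := hr2
      r_le := hr3 }
  exact S.no_overlap Λ e he ho hd hb hb' hne

end Pool.Agent.S05947
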