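import Pool.Statements.S06574
import Pool.Agent.Helper139.Tw3
import Pool.Agent.Helper139.Tw7
import Pool.Agent.Q93.C11

set_option autoImplicit false
open Pool Pool.MP_ebd05c_an

namespace Pool.Agent.S06574

section aux

open Filter Topology
open scoped InnerProductSpace
open Pool.Agent.Helper139 Pool.Agent.Helper139.Tw2 Pool.Agent.Helper139.Tw6 Pool.Agent.Helper139.Tw7

/-- The block data of a tower (as in the file of the frozen statement S06114). -/
lemma block_of_tower' {K : Type*} [NormedAddCommGroup K] [InnerProductSpace ℂ K] [CompleteSpace K]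
    {c0 c1 κ : ℝ} {U : K ≃ₗᵢ[ℂ] K} {e : ℕ → ℤ → K} (h : IsTower c0 c1 U e)
    (hs : c0 ^ 2 + c1 ^ 2 = 1) (h0 : 1 / 2 ≤ c0) (h1 : 0 < c1) (hκ : 1 ≤ κ) (hκc : κ * c1 = 1) :
    Block U (Tw2.P e) κ (c0 * c1) where
  idem := P_idem
  symm := P_symm
  one_le := hκ
  pb := by
    intro m f
    have a1 := P_pow h hs m f
    have a2 : 0 ≤ κ ^ 2 - 1 := by nlinarith
    have a3 := mul_le_mul_of_nonneg_left a1 a2
    have a4 : (κ ^ 2 - 1) * (10 * c1 ^ 2 * ‖f‖ ^ 2) ≤ 10 * ‖f‖ ^ 2 := by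
      have : (κ ^ 2 - 1) * (10 * c1 ^ 2 * ‖f‖ ^ 2) =
          10 * ((κ * c1) ^ 2 - c1 ^ 2) * ‖f‖ ^ 2 := by ring
      rw [this, hκc]
      nlinarith [mul_nonneg (sq_nonneg c1) (sq_nonneg ‖f‖)]
    nlinarith
  tends := fun v => tendsto_Fw fun ε hε => P_tends h v ε hε
  avg := by
    intro v
    have := Tw2.avg_tendsto h v
    rw [Complex.ofReal_mul]
    exact this
  α_pos := mul_pos (by linarith) h1
  α_le := by nlinarith [sq_nonneg (c0 - c1)]
  bad := by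
    refine ⟨e 0 (-1), norm_e h 0 (-1), ?_, h0.trans (P_em1 h)⟩
    rw [h.shift]
    exact P_e00 h

variable {K : ℕ → Type} [∀ j, NormedAddCommGroup (K j)] [∀ j, InnerProductSpace ℂ (K j)]
  [∀ j, CompleteSpace (K j)]
variable {U : ∀ j, K j ≃ₗᵢ[ℂ] K j} {P : ∀ j, K j →L[ℂ] K j} {κ α : ℕ → ℝ}

lemma T_pow_single (hB : ∀ j, Block (U j) (P j) (κ j) (α j)) (n : ℕ) (j : ℕ) (w : K j) :
    (T hB ^ n) (lp.single 2 j w) =
      lp.single 2 j (D (P j) (κ j) (((U j) ^ n) (Di (P j) (κ j) w))) := by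
  ext i
  rw [T_pow, lp.single_apply, lp.single_apply]
  by_cases hij : i = j
  · subst hij
    rw [Pi.single_eq_same, Pi.single_eq_same]
  · rw [Pi.single_eq_of_ne hij, Pi.single_eq_of_ne hij, map_zero, map_zero, map_zero]

lemma single_continuous (j : ℕ) :
    Continuous (fun w : K j => (lp.single 2 j w : lp K 2)) := by
  apply Isometry.continuous
  apply Isometry.of_dist_eq
  intro x y
  rw [dist_eq_norm, dist_eq_norm, ← lp.single_sub, lp.norm_single (by norm_num)]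

lemma avg_single (hB : ∀ j, Block (U j) (P j) (κ j) (α j)) (j : ℕ) (w : K j) :
    Tendsto (fun J : ℕ => (J : ℂ)⁻¹ • ∑ k ∈ Finset.range J,
      (T hB ^ (6 ^ k)) (lp.single 2 j w : lp K 2)) atTop
      (𝓝 ((α j : ℂ) • (lp.single 2 j w : lp K 2))) := by
  have h1 := (hB j).avg (Di (P j) (κ j) w)
  have h2 := ((single_continuous j).comp (D (P j) (κ j)).continuous).tendsto
    ((α j : ℂ) • Di (P j) (κ j) w)
  have h3 := h2.comp h1
  have e1 : (lp.single 2 j (D (P j) (κ j) ((α j : ℂ) • Di (P j) (κ j) w)) : lp K 2) =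
      (α j : ℂ) • lp.single 2 j w := by
    rw [map_smul, D_Di (hB j), lp.single_smul]
  have h4 : (fun J : ℕ => (J : ℂ)⁻¹ • ∑ k ∈ Finset.range J,
      (T hB ^ (6 ^ k)) (lp.single 2 j w : lp K 2)) =
      ((fun w : K j => (lp.single 2 j w : lp K 2)) ∘ (D (P j) (κ j))) ∘
        fun J : ℕ => (J : ℂ)⁻¹ • ∑ k ∈ Finset.range J, ((U j) ^ (6 ^ k)) (Di (P j) (κ j) w) := by
    funext J
    simp only [Function.comp_apply, map_smul, map_sum, T_pow_single]
    rw [lp.single_smul]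
    congr 1
    have hadd : ∀ (s : Finset ℕ) (f : ℕ → K j),
        (lp.single 2 j (∑ k ∈ s, f k) : lp K 2) = ∑ k ∈ s, lp.single 2 j (f k) := by
      intro s f
      induction s using Finset.cons_induction with
      | empty => simp
      | cons a s ha ih => rw [Finset.sum_cons, Finset.sum_cons, lp.single_add, ih]
    rw [hadd]
  rw [h4]
  have h5 : ((fun w : K j => (lp.single 2 j w : lp K 2)) ∘ (D (P j) (κ j)))
      ((α j : ℂ) • Di (P j) (κ j) w) = (α j : ℂ) • (lp.single 2 j w : lp K 2) := e1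
  rw [h5] at h3
  exact h3

lemma not_similar_contraction (hB : ∀ j, Block (U j) (P j) (κ j) (α j))
    (hκ : Tendsto κ atTop atTop) (S : lp K 2 ≃L[ℂ] lp K 2)
    (hS : ‖(S : lp K 2 →L[ℂ] lp K 2).comp ((T hB).comp (S.symm : lp K 2 →L[ℂ] lp K 2))‖ ≤ 1) :
    False := by
  set C : lp K 2 →L[ℂ] lp K 2 :=
    (S : lp K 2 →L[ℂ] lp K 2).comp ((T hB).comp (S.symm : lp K 2 →L[ℂ] lp K 2)) with hC
  have hCS : ∀ v, C (S v) = S (T hB v) := by intro v; simp [hC]
  have hCSp : ∀ (n : ℕ) v, (C ^ n) (S v) = S ((T hB ^ n) v) := by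
    intro n
    induction n with
    | zero => intro v; simp
    | succ n ih =>
      intro v
      have e1 : (C ^ (n + 1)) (S v) = (C ^ n) (C (S v)) := by rw [pow_succ]; rfl
      have e2 : (T hB ^ (n + 1)) v = (T hB ^ n) (T hB v) := by rw [pow_succ]; rfl
      rw [e1, e2, hCS, ih]
  have hiso : ∀ (j : ℕ) (w : K j), ‖S (T hB (lp.single 2 j w : lp K 2))‖ =
      ‖S (lp.single 2 j w : lp K 2)‖ := by
    intro j w
    rw [← hCS]
    apply Q93.C11.norm_eq_of_avg hS (a := (α j : ℂ)) (by exact_mod_cast (hB j).α_pos.ne')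
      (φ := fun k => 6 ^ k) (fun a b hab => Nat.pow_lt_pow_right (by norm_num) hab)
    have h1 := avg_single hB j w
    have h2 := ((S : lp K 2 →L[ℂ] lp K 2).continuous.tendsto _).comp h1
    have h3 : ((S : lp K 2 →L[ℂ] lp K 2) ∘ fun J : ℕ => (J : ℂ)⁻¹ • ∑ k ∈ Finset.range J,
      (T hB ^ (6 ^ k)) (lp.single 2 j w : lp K 2)) = fun J : ℕ => (J : ℂ)⁻¹ •
        ∑ k ∈ Finset.range J, (C ^ (6 ^ k)) (S (lp.single 2 j w : lp K 2)) := by
      funext J
      simp only [Function.comp_apply, map_smul, map_sum, hCSp]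
      rfl
    rw [h3, map_smul] at h2
    exact h2
  set A : ℝ := ‖(S.symm : lp K 2 →L[ℂ] lp K 2)‖ * ‖(S : lp K 2 →L[ℂ] lp K 2)‖ with hA
  obtain ⟨j, hj⟩ := (hκ.eventually_gt_atTop (2 * A)).exists
  obtain ⟨v, hv1, hv2, hv3⟩ := (hB j).bad
  have h1 := norm_D_sq (hB j) (κ j) v
  have h1k := (hB j).one_le
  have h2 : κ j / 2 ≤ ‖D (P j) (κ j) v‖ := by
    refine (sq_le_sq₀ (by linarith) (norm_nonneg _)).1 ?_
    rw [h1, hv1]
    have : (1 / 2 : ℝ) ^ 2 ≤ ‖P j v‖ ^ 2 := pow_le_pow_left₀ (by norm_num) hv3 2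
    have h3 := mul_le_mul_of_nonneg_left this (k2 (hB j))
    nlinarith
  let x : lp K 2 := lp.single 2 j (D (P j) (κ j) v)
  have hx : ‖x‖ = ‖D (P j) (κ j) v‖ := lp.norm_single (by norm_num) _ _
  have hT : ‖T hB x‖ = 1 := by
    have h0 := T_pow_single hB 1 j (D (P j) (κ j) v)
    rw [pow_one, pow_one, Di_D (hB j), D_apply (P j) (κ j) (U j v), hv2, smul_zero,
      add_zero] at h0
    have h0' : T hB x = lp.single 2 j (U j v) := h0
    rw [h0', lp.norm_single (by norm_num), LinearIsometryEquiv.norm_map, hv1]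
  have h3 : ‖x‖ ≤ A := by
    calc ‖x‖ = ‖(S.symm : lp K 2 →L[ℂ] lp K 2) (S x)‖ := by simp
      _ ≤ ‖(S.symm : lp K 2 →L[ℂ] lp K 2)‖ * ‖S x‖ := ContinuousLinearMap.le_opNorm _ _
      _ = ‖(S.symm : lp K 2 →L[ℂ] lp K 2)‖ * ‖S (T hB x)‖ := by rw [hiso]
      _ ≤ ‖(S.symm : lp K 2 →L[ℂ] lp K 2)‖ * (‖(S : lp K 2 →L[ℂ] lp K 2)‖ * ‖T hB x‖) := by
          apply mul_le_mul_of_nonneg_left _ (norm_nonneg _)
          exact ContinuousLinearMap.le_opNorm (S : lp K 2 →L[ℂ] lp K 2) _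
      _ = A := by rw [hT, mul_one]
  rw [hx] at h3
  linarith

end aux

/-- The negation of the preceding statement: Every power bounded operator T on a complex Hilbert space such that, for each nonzero h, neither ‖Tⁿh‖ nor ‖T*ⁿh‖ tends to 0, is similar via some invertible bounded S to an operator STS⁻¹ of norm at most 1. -/
theorem result :
    ¬ (∀ (H : Type) [NormedAddCommGroup H] [InnerProductSpace ℂ H] [CompleteSpace H]
      (T : H →L[ℂ] H),
      (∃ C : ℝ, ∀ n : ℕ, ‖T ^ n‖ ≤ C) →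
      (∀ h : H, h ≠ 0 →
        ¬ Filter.Tendsto (fun n : ℕ => ‖(T ^ n) h‖) Filter.atTop (nhds 0)) →
      (∀ h : H, h ≠ 0 →
        ¬ Filter.Tendsto (fun n : ℕ => ‖((ContinuousLinearMap.adjoint T) ^ n) h‖)
          Filter.atTop (nhds 0)) →
      ∃ S : H ≃L[ℂ] H,
        ‖(S : H →L[ℂ] H).comp (T.comp (S.symm : H →L[ℂ] H))‖ ≤ 1) := by
  intro hall
  open Pool.Agent.Helper139 Pool.Agent.Helper139.Tw6 in
  -- parameters
  have hc1 : ∀ j : ℕ, (0 : ℝ) < 1 / ((j : ℝ) + 2) := fun j => by positivity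
  have hc1' : ∀ j : ℕ, 1 / ((j : ℝ) + 2) ≤ 1 / 2 := fun j =>
    one_div_le_one_div_of_le (by norm_num) (by linarith [(Nat.cast_nonneg j : (0 : ℝ) ≤ j)])
  have hsq : ∀ j : ℕ, (1 / ((j : ℝ) + 2)) ^ 2 ≤ 1 / 4 := fun j => by
    have := pow_le_pow_left₀ (hc1 j).le (hc1' j) 2
    norm_num at this ⊢
    exact this
  have hs : ∀ j : ℕ, (Real.sqrt (1 - (1 / ((j : ℝ) + 2)) ^ 2)) ^ 2 + (1 / ((j : ℝ) + 2)) ^ 2 = 1 :=
    fun j => by
      rw [Real.sq_sqrt (by linarith [hsq j])]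
      ring
  have hc0 : ∀ j : ℕ, 1 / 2 < Real.sqrt (1 - (1 / ((j : ℝ) + 2)) ^ 2) := fun j => by
    rw [Real.lt_sqrt (by norm_num)]
    have := hsq j
    norm_num at this ⊢
    linarith
  have htower := fun j : ℕ =>
    Pool.Agent.Helper139.Tw3.exists_tower (hc1 j) ((hc1' j).trans_lt (hc0 j)) (hs j)
  choose μ hμ U e hT using htower
  have hB : ∀ j, Pool.Agent.Helper139.Tw6.Block (U j) (Pool.Agent.Helper139.Tw2.P (e j))
      ((fun j : ℕ => (j : ℝ) + 2) j)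
      ((fun j : ℕ => Real.sqrt (1 - (1 / ((j : ℝ) + 2)) ^ 2) * (1 / ((j : ℝ) + 2))) j) := fun j =>
    block_of_tower' (hT j) (hs j) (hc0 j).le (hc1 j)
      (by linarith [(Nat.cast_nonneg j : (0 : ℝ) ≤ j)]) (by
        have : (j : ℝ) + 2 ≠ 0 := by positivity
        field_simp)
  obtain ⟨S, hS⟩ := hall (lp (fun j => MeasureTheory.Lp ℂ 2 (μ j)) 2)
    (Pool.Agent.Helper139.Tw7.T hB) ⟨4, Pool.Agent.Helper139.Tw7.T_pow_norm hB⟩
    (fun h hh hlim => Pool.Agent.Helper139.Tw7.C1 hB h hh (tendsto_zero_iff_norm_tendsto_zero.2 hlim))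
    (fun h hh hlim => Pool.Agent.Helper139.Tw7.C2 hB h hh (tendsto_zero_iff_norm_tendsto_zero.2 hlim))
  exact not_similar_contraction hB
    (Filter.tendsto_atTop_add_const_right _ _ tendsto_natCast_atTop_atTop) S hS

end Pool.Agent.S06574
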