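import Pool.Statements.S07091
-- import your own Pool.Agent.* helpers here

set_option autoImplicit false
open Pool Pool.MP_0a407b_co

namespace Pool.Agent.S07091

open Finset Matrix

variable {n : ℕ}

/-- twice the weighted number of edges -/
noncomputable def EE (G : SimpleGraph (Fin n)) (w : Fin n → ℝ) : ℝ := by
  classical
  exact w ⬝ᵥ (G.adjMatrix ℝ) *ᵥ w

/-- the bilinear form of the adjacency matrix -/
noncomputable def BF (G : SimpleGraph (Fin n)) (w z : Fin n → ℝ) : ℝ := by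
  classical
  exact w ⬝ᵥ (G.adjMatrix ℝ) *ᵥ z

lemma BF_comm (G : SimpleGraph (Fin n)) (w z : Fin n → ℝ) : BF G w z = BF G z w := by
  classical
  unfold BF
  rw [Matrix.dotProduct_mulVec, ← Matrix.mulVec_transpose, SimpleGraph.transpose_adjMatrix,
    dotProduct_comm]

lemma EE_eq (G : SimpleGraph (Fin n)) (w : Fin n → ℝ) : EE G w = BF G w w := rfl

lemma BF_add_left (G : SimpleGraph (Fin n)) (w w' z : Fin n → ℝ) :
    BF G (w + w') z = BF G w z + BF G w' z := by
  classical
  unfold BF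
  rw [add_dotProduct]

lemma BF_smul_left (G : SimpleGraph (Fin n)) (t : ℝ) (w z : Fin n → ℝ) :
    BF G (t • w) z = t * BF G w z := by
  classical
  unfold BF
  rw [smul_dotProduct, smul_eq_mul]

lemma BF_add_right (G : SimpleGraph (Fin n)) (w z z' : Fin n → ℝ) :
    BF G w (z + z') = BF G w z + BF G w z' := by
  rw [BF_comm, BF_add_left, BF_comm G z, BF_comm G z']

lemma BF_smul_right (G : SimpleGraph (Fin n)) (t : ℝ) (w z : Fin n → ℝ) :
    BF G w (t • z) = t * BF G w z := by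
  rw [BF_comm, BF_smul_left, BF_comm]

lemma EE_comb (G : SimpleGraph (Fin n)) (x y : ℝ) (w z : Fin n → ℝ) :
    EE G (x • w + y • z) = x ^ 2 * EE G w + 2 * x * y * BF G w z + y ^ 2 * EE G z := by
  simp only [EE_eq, BF_add_left, BF_add_right, BF_smul_left, BF_smul_right]
  rw [BF_comm G z w]
  ring

/-- direction `e_u - e_v` -/
noncomputable def dir (u v : Fin n) : Fin n → ℝ := Pi.single u 1 - Pi.single v 1

lemma EE_dir (G : SimpleGraph (Fin n)) (u v : Fin n) : EE G (dir u v) ≤ 0 := by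
  classical
  unfold EE dir
  simp only [sub_dotProduct, Matrix.mulVec_sub, dotProduct_sub, single_dotProduct,
    Matrix.mulVec_single, one_mul]
  simp only [MulOpposite.op_one, one_smul, Matrix.col_apply, SimpleGraph.adjMatrix_apply,
    SimpleGraph.irrefl, if_false]
  split_ifs <;> norm_num

/-- fractional coordinates -/
noncomputable def frac (w : Fin n → ℝ) : Finset (Fin n) := by
  classical
  exact Finset.univ.filter (fun x => w x ≠ 0 ∧ w x ≠ 1)

lemma mem_frac {w : Fin n → ℝ} {x : Fin n} : x ∈ frac w ↔ w x ≠ 0 ∧ w x ≠ 1 := by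
  classical
  unfold frac
  rw [Finset.mem_filter]
  simp

/-- indicator -/
noncomputable def ind (W : Finset (Fin n)) : Fin n → ℝ := by
  classical
  exact fun x => if x ∈ W then 1 else 0

lemma ind_apply (W : Finset (Fin n)) (x : Fin n) [Decidable (x ∈ W)] :
    ind W x = if x ∈ W then 1 else 0 := by
  unfold ind
  split_ifs <;> simp_all

lemma sum_ind (W : Finset (Fin n)) : ∑ x, ind W x = W.card := by
  classical
  simp only [ind_apply]
  simp

lemma dir_apply (u v x : Fin n) : dir u v x = (if x = u then 1 else 0) - (if x = v then 1 else 0) := by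
  classical
  unfold dir
  simp [Pi.single_apply]

/-- One rounding step. -/
lemma step (G : SimpleGraph (Fin n)) (w : Fin n → ℝ) (h0 : ∀ x, 0 ≤ w x) (h1 : ∀ x, w x ≤ 1)
    (u v : Fin n) (huv : u ≠ v) (hu : u ∈ frac w) (hv : v ∈ frac w)
    (hle : BF G w (dir u v) ≤ 0) :
    ∃ w' : Fin n → ℝ, (∀ x, 0 ≤ w' x) ∧ (∀ x, w' x ≤ 1) ∧ ∑ x, w' x = ∑ x, w x ∧
      EE G w' ≤ EE G w ∧ (frac w').card < (frac w).card := by
  classical
  rw [mem_frac] at hu hv
  have hu1 : w u < 1 := lt_of_le_of_ne (h1 u) hu.2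
  have hu0 : 0 < w u := lt_of_le_of_ne (h0 u) (Ne.symm hu.1)
  have hv1 : w v < 1 := lt_of_le_of_ne (h1 v) hv.2
  have hv0 : 0 < w v := lt_of_le_of_ne (h0 v) (Ne.symm hv.1)
  set t := min (1 - w u) (w v) with ht
  have ht0 : 0 < t := lt_min (by linarith) hv0
  have ht1 : t ≤ 1 - w u := min_le_left _ _
  have ht2 : t ≤ w v := min_le_right _ _
  refine ⟨w + t • dir u v, ?_, ?_, ?_, ?_, ?_⟩
  · intro x
    have := h0 x
    simp only [Pi.add_apply, Pi.smul_apply, smul_eq_mul, dir_apply]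
    by_cases hxv : x = v
    · subst hxv
      rw [if_neg (Ne.symm huv), if_pos rfl]
      linarith
    · rw [if_neg hxv]
      split_ifs <;> nlinarith
  · intro x
    have := h1 x
    simp only [Pi.add_apply, Pi.smul_apply, smul_eq_mul, dir_apply]
    by_cases hxu : x = u
    · subst hxu
      rw [if_neg huv, if_pos rfl]
      linarith
    · rw [if_neg hxu]
      split_ifs <;> nlinarith
  · simp only [Pi.add_apply, Pi.smul_apply, smul_eq_mul, dir_apply]
    rw [Finset.sum_add_distrib, ← Finset.mul_sum, Finset.sum_sub_distrib]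
    simp
  · have hc := EE_comb G 1 t w (dir u v)
    rw [one_smul] at hc
    rw [hc]
    have h2 := EE_dir G u v
    nlinarith [mul_nonneg ht0.le (neg_nonneg.2 hle), mul_nonneg (sq_nonneg t) (neg_nonneg.2 h2)]
  · have hsub : frac (w + t • dir u v) ⊆ frac w := by
      intro x hx
      rw [mem_frac] at hx ⊢
      by_cases hxu : x = u
      · subst hxu; exact hu
      by_cases hxv : x = v
      · subst hxv; exact hv
      simp only [Pi.add_apply, Pi.smul_apply, smul_eq_mul, dir_apply, if_neg hxu, if_neg hxv] at hx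
      simpa using hx
    apply Finset.card_lt_card
    rw [Finset.ssubset_iff_subset_ne]
    refine ⟨hsub, fun heq => ?_⟩
    rcases min_choice (1 - w u) (w v) with hm | hm
    · have : u ∈ frac (w + t • dir u v) := by
        rw [heq, mem_frac]; exact hu
      rw [mem_frac] at this
      apply this.2
      simp only [Pi.add_apply, Pi.smul_apply, smul_eq_mul, dir_apply, if_true, if_neg huv]
      rw [ht, hm]
      ring
    · have : v ∈ frac (w + t • dir u v) := by
        rw [heq, mem_frac]; exact hv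
      rw [mem_frac] at this
      apply this.1
      simp only [Pi.add_apply, Pi.smul_apply, smul_eq_mul, dir_apply, if_true,
        if_neg (Ne.symm huv)]
      rw [ht, hm]
      ring

/-- The rounding lemma. -/
lemma rounding (G : SimpleGraph (Fin n)) (h : ℕ) :
    ∀ (m : ℕ) (w : Fin n → ℝ), (frac w).card = m → (∀ x, 0 ≤ w x) → (∀ x, w x ≤ 1) →
      ∑ x, w x = h → ∃ W : Finset (Fin n), W.card = h ∧ EE G (ind W) ≤ EE G w := by
  classical
  intro m
  induction m using Nat.strong_induction_on with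
  | _ m ih =>
    intro w hm h0 h1 hs
    by_cases hfr : frac w = ∅
    · refine ⟨Finset.univ.filter (fun x => w x = 1), ?_, ?_⟩
      · have hw : w = ind (Finset.univ.filter (fun x => w x = 1)) := by
          funext x
          rw [ind_apply]
          by_cases hx : w x = 1
          · rw [if_pos (by simp [hx]), hx]
          · rw [if_neg (by simp [hx])]
            by_contra hx0
            have : x ∈ frac w := mem_frac.2 ⟨hx0, hx⟩
            rw [hfr] at this
            exact absurd this (Finset.notMem_empty x)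
        have h2 : (((Finset.univ.filter (fun x => w x = 1)).card : ℕ) : ℝ) = (h : ℝ) := by
          rw [← sum_ind, ← hw, hs]
        exact_mod_cast h2
      · apply le_of_eq
        congr 1
        funext x
        rw [ind_apply]
        by_cases hx : w x = 1
        · rw [if_pos (by simp [hx]), hx]
        · rw [if_neg (by simp [hx])]
          by_contra hx0
          have : x ∈ frac w := mem_frac.2 ⟨fun h => hx0 h.symm, hx⟩
          rw [hfr] at this
          exact absurd this (Finset.notMem_empty x)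
    · obtain ⟨u, hu⟩ := Finset.nonempty_iff_ne_empty.2 hfr
      have hex : ∃ v ∈ frac w, v ≠ u := by
        by_contra hcon
        push Not at hcon
        have hu' := mem_frac.1 hu
        have hint : ∀ x, x ≠ u → w x = 0 ∨ w x = 1 := by
          intro x hx
          by_contra hx'
          push Not at hx'
          exact hx (hcon x (mem_frac.2 hx'))
        have hsum : ∑ x, w x = w u + ∑ x ∈ Finset.univ.erase u, w x := by
          rw [Finset.add_sum_erase _ _ (Finset.mem_univ u)]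
        have hsum2 : ∑ x ∈ Finset.univ.erase u, w x =
            (((Finset.univ.erase u).filter (fun x => w x = 1)).card : ℝ) := by
          rw [Finset.card_filter]
          push_cast
          apply Finset.sum_congr rfl
          intro x hx
          rcases hint x (Finset.ne_of_mem_erase hx) with h | h <;> simp [h]
        rw [hs, hsum2] at hsum
        have hwu : w u = ((h : ℤ) - (((Finset.univ.erase u).filter (fun x => w x = 1)).card : ℤ) : ℤ) := by
          push_cast
          linarith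
        have hlt1 : w u < 1 := lt_of_le_of_ne (h1 u) hu'.2
        have hgt0 : 0 < w u := lt_of_le_of_ne (h0 u) (Ne.symm hu'.1)
        rw [hwu] at hlt1 hgt0
        have e1 : ((h : ℤ) - (((Finset.univ.erase u).filter (fun x => w x = 1)).card : ℤ)) < 1 := by
          exact_mod_cast hlt1
        have e2 : 0 < ((h : ℤ) - (((Finset.univ.erase u).filter (fun x => w x = 1)).card : ℤ)) := by
          exact_mod_cast hgt0
        omega
      obtain ⟨v, hv, hvu⟩ := hex
      have hdir : dir v u = (-1 : ℝ) • dir u v := by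
        funext x
        simp only [Pi.smul_apply, smul_eq_mul, dir_apply]
        ring
      have hcase : BF G w (dir u v) ≤ 0 ∨ BF G w (dir v u) ≤ 0 := by
        rw [hdir, BF_smul_right]
        rcases le_total (BF G w (dir u v)) 0 with h | h
        · left; exact h
        · right; linarith
      have hstep : ∃ w' : Fin n → ℝ, (∀ x, 0 ≤ w' x) ∧ (∀ x, w' x ≤ 1) ∧ ∑ x, w' x = ∑ x, w x ∧
          EE G w' ≤ EE G w ∧ (frac w').card < (frac w).card := by
        rcases hcase with h | h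
        · exact step G w h0 h1 u v (Ne.symm hvu) hu hv h
        · exact step G w h0 h1 v u hvu hv hu h
      obtain ⟨w', g0, g1, g2, g3, g4⟩ := hstep
      obtain ⟨W, hW1, hW2⟩ := ih (frac w').card (by omega) w' rfl g0 g1 (by rw [g2, hs])
      exact ⟨W, hW1, le_trans hW2 g3⟩

/-- the part of `G` inside `W` -/
def inside (G : SimpleGraph (Fin n)) (W : Finset (Fin n)) : SimpleGraph (Fin n) where
  Adj x y := G.Adj x y ∧ x ∈ W ∧ y ∈ W
  symm := ⟨fun _ _ h => ⟨h.1.symm, h.2.2, h.2.1⟩⟩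
  loopless := ⟨fun _ h => G.loopless.irrefl _ h.1⟩

lemma inside_edgeSet (G : SimpleGraph (Fin n)) (W : Finset (Fin n)) :
    (inside G W).edgeSet = {e : Sym2 (Fin n) | e ∈ G.edgeSet ∧ ∀ v ∈ e, v ∈ W} := by
  ext e
  induction e using Sym2.ind with
  | _ x y =>
    simp only [SimpleGraph.mem_edgeSet, Set.mem_ofPred_eq, Sym2.mem_iff, forall_eq_or_imp, forall_eq]
    rfl

lemma EE_expand (G : SimpleGraph (Fin n)) (w : Fin n → ℝ) [DecidableRel G.Adj] :
    EE G w = ∑ x, w x * ∑ y, (if G.Adj x y then w y else 0) := by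
  classical
  unfold EE
  simp only [dotProduct, Matrix.mulVec, SimpleGraph.adjMatrix_apply, ite_mul, one_mul, zero_mul]

lemma EE_ind (G : SimpleGraph (Fin n)) (W : Finset (Fin n)) :
    EE G (ind W) =
      2 * (({e : Sym2 (Fin n) | e ∈ G.edgeSet ∧ ∀ v ∈ e, v ∈ W}).ncard : ℝ) := by
  classical
  rw [← inside_edgeSet, EE_expand]
  have h1 := (inside G W).sum_degrees_eq_twice_card_edges
  have h2 : (inside G W).edgeSet.ncard = (inside G W).edgeFinset.card := by
    rw [← SimpleGraph.coe_edgeFinset, Set.ncard_coe_finset]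
  rw [h2]
  have h3 : ((∑ v, (inside G W).degree v : ℕ) : ℝ) = 2 * ((inside G W).edgeFinset.card : ℝ) := by
    rw [h1]; push_cast; ring
  rw [← h3]
  push_cast
  apply Finset.sum_congr rfl
  intro x _
  have h4 : ((inside G W).degree x : ℝ) = ∑ y, (if (inside G W).Adj x y then (1 : ℝ) else 0) := by
    rw [← SimpleGraph.card_neighborFinset_eq_degree, SimpleGraph.neighborFinset_eq_filter,
      Finset.card_filter]
    push_cast
    rfl
  rw [h4, ind_apply]
  by_cases hx : x ∈ W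
  · rw [if_pos hx, one_mul]
    apply Finset.sum_congr rfl
    intro y _
    rw [ind_apply]
    by_cases hy : y ∈ W
    · by_cases ha : G.Adj x y
      · rw [if_pos ha, if_pos hy, if_pos (show (inside G W).Adj x y from ⟨ha, hx, hy⟩)]
      · rw [if_neg ha, if_neg (show ¬ (inside G W).Adj x y from fun h => ha h.1)]
    · rw [if_neg hy, if_neg (show ¬ (inside G W).Adj x y from fun h => hy h.2.2)]
      simp
  · rw [if_neg hx, zero_mul]
    symm
    apply Finset.sum_eq_zero
    intro y _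
    rw [if_neg (show ¬ (inside G W).Adj x y from fun h => hx h.2.1)]

lemma EE_one (G : SimpleGraph (Fin n)) :
    EE G (ind Finset.univ) = 2 * (G.edgeSet.ncard : ℝ) := by
  rw [EE_ind]
  have : {e : Sym2 (Fin n) | e ∈ G.edgeSet ∧ ∀ v ∈ e, v ∈ (Finset.univ : Finset (Fin n))} =
      G.edgeSet := by
    ext e
    simp
  rw [this]

lemma EE_nonneg (G : SimpleGraph (Fin n)) (W : Finset (Fin n)) : 0 ≤ EE G (ind W) := by
  rw [EE_ind]
  positivity

lemma alg1 (a b d M γ ε : ℝ) (hM : M = a + 2 * b + d) (h0 : 0 ≤ γ) (h1 : γ ≤ 1)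
    (k1 : (1 - ε) * M ≤ (1 + 1) ^ 2 * a + 2 * (1 + 1) * (1 - γ * 1) * b + (1 - γ * 1) ^ 2 * d)
    (k2 : (1 - ε) * M ≤ (1 + -1) ^ 2 * a + 2 * (1 + -1) * (1 - γ * -1) * b +
      (1 - γ * -1) ^ 2 * d)
    (k3 : (1 - ε) * M ≤ (1 + γ) ^ 2 * a + 2 * (1 + γ) * (1 - γ * γ) * b +
      (1 - γ * γ) ^ 2 * d) :
    (γ ^ 2 - (2 - γ ^ 2) * ε) * M ≤ (1 + γ) ^ 2 * a := by
  have hg : 0 ≤ 1 - γ ^ 2 := by nlinarith
  have e1 := mul_le_mul_of_nonneg_left (add_le_add k1 k2) (show 0 ≤ (1 - γ ^ 2) / 2 by linarith)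
  have e2 := add_le_add e1 k3
  have e3 : (1 - γ ^ 2) / 2 * ((1 - ε) * M + (1 - ε) * M) + (1 - ε) * M =
    (2 - γ ^ 2) * (1 - ε) * M := by ring
  have e4 : (1 - γ ^ 2) / 2 * ((1 + 1) ^ 2 * a + 2 * (1 + 1) * (1 - γ * 1) * b +
      (1 - γ * 1) ^ 2 * d + ((1 + -1) ^ 2 * a + 2 * (1 + -1) * (1 - γ * -1) * b +
      (1 - γ * -1) ^ 2 * d)) + ((1 + γ) ^ 2 * a + 2 * (1 + γ) * (1 - γ * γ) * b +
      (1 - γ * γ) ^ 2 * d) = (2 - 2 * γ ^ 2) * (a + 2 * b + d) + (1 + γ) ^ 2 * a := by ring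
  rw [e3, e4, ← hM] at e2
  have e5 : (γ ^ 2 - (2 - γ ^ 2) * ε) * M = (2 - γ ^ 2) * (1 - ε) * M - (2 - 2 * γ ^ 2) * M := by
    ring
  rw [e5]
  linarith

lemma alg2 (a M γ ε s n : ℝ) (hfin : (γ ^ 2 - (2 - γ ^ 2) * ε) * M ≤ (1 + γ) ^ 2 * a)
    (hM0 : 0 ≤ M) (hn : 0 < n) (hs : 0 ≤ s) (hε : 0 ≤ ε) (hsn : s ≤ n)
    (hγs : γ * (n - s) = s) (h1γ : (1 + γ) * (n - s) = n) :
    ((s / n) ^ 2 - 2 * ε) * M ≤ a := by
  have e5 : ((1 + γ) * (n - s)) ^ 2 * a = n ^ 2 * a := by rw [h1γ]
  have e6 : (γ * (n - s)) ^ 2 = s ^ 2 := by rw [hγs]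
  have e7 := mul_le_mul_of_nonneg_right hfin (sq_nonneg (n - s))
  have e8 : (s ^ 2 - 2 * ε * n ^ 2) * M ≤ n ^ 2 * a := by
    have e9 : (γ ^ 2 - (2 - γ ^ 2) * ε) * M * (n - s) ^ 2 =
        (s ^ 2 - 2 * ε * (n - s) ^ 2 + ε * s ^ 2) * M := by
      calc (γ ^ 2 - (2 - γ ^ 2) * ε) * M * (n - s) ^ 2 =
          ((γ * (n - s)) ^ 2 - 2 * ε * (n - s) ^ 2 + ε * (γ * (n - s)) ^ 2) * M := by ring
        _ = _ := by rw [e6]
    have e10 : (1 + γ) ^ 2 * a * (n - s) ^ 2 = n ^ 2 * a := by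
      rw [← e5]; ring
    rw [e9, e10] at e7
    refine le_trans ?_ e7
    apply mul_le_mul_of_nonneg_right _ hM0
    have h1 : (n - s) ^ 2 ≤ n ^ 2 := by nlinarith
    have h2 := mul_le_mul_of_nonneg_left h1 hε
    have h3 := mul_nonneg hε (sq_nonneg s)
    linarith
  have e11 : ((s / n) ^ 2 - 2 * ε) * M = ((s ^ 2 - 2 * ε * n ^ 2) * M) / n ^ 2 := by
    field_simp
  rw [e11, div_le_iff₀ (by positivity)]
  linarith

lemma main_ineq (G : SimpleGraph (Fin n)) (h : ℕ) (h0 : 0 < h) (hn : 2 * h ≤ n) (ε : ℝ)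
    (hε0 : 0 ≤ ε) (hε1 : ε ≤ 1)
    (hL : ∀ W : Finset (Fin n), W.card = h →
      (1 - ε) * ((h : ℝ) / n) ^ 2 * EE G (ind Finset.univ) ≤ EE G (ind W))
    (S : Finset (Fin n)) (hS : 2 * S.card ≤ n) :
    (((S.card : ℝ) / n) ^ 2 - 2 * ε) * EE G (ind Finset.univ) ≤ EE G (ind S) := by
  classical
  set M := EE G (ind Finset.univ) with hM
  have hM0 : 0 ≤ M := EE_nonneg G _
  set s : ℝ := (S.card : ℝ) with hs
  have hnpos : (0 : ℝ) < n := by
    have : 0 < n := by omega
    exact_mod_cast this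
  have hhpos : (0 : ℝ) < h := by exact_mod_cast h0
  have hs0 : 0 ≤ s := by positivity
  have hs2 : 2 * s ≤ n := by rw [hs]; exact_mod_cast hS
  have hh2 : 2 * (h : ℝ) ≤ n := by exact_mod_cast hn
  set p : ℝ := (h : ℝ) / n with hp
  have hp0 : 0 < p := by positivity
  have hp1 : 2 * p ≤ 1 := by
    rw [hp, ← mul_div_assoc, div_le_one hnpos]
    exact hh2
  set γ : ℝ := s / (n - s) with hγ
  have hns : 0 < (n : ℝ) - s := by linarith
  have hγ0 : 0 ≤ γ := by positivity
  have hγ1 : γ ≤ 1 := by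
    rw [hγ, div_le_one hns]
    linarith
  have hγs : γ * (n - s) = s := by
    rw [hγ]
    field_simp
  set a := EE G (ind S) with ha
  set b := BF G (ind S) (ind Sᶜ) with hb
  set d := EE G (ind Sᶜ) with hd
  have hone : ind (Finset.univ : Finset (Fin n)) = (1 : ℝ) • ind S + (1 : ℝ) • ind Sᶜ := by
    funext x
    simp only [Pi.add_apply, Pi.smul_apply, smul_eq_mul, one_mul, ind_apply, Finset.mem_univ,
      if_true, Finset.mem_compl]
    by_cases hx : x ∈ S <;> simp [hx]
  have hMabd : M = a + 2 * b + d := by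
    rw [hM, hone, EE_comb]
    ring
  have hcard : (Sᶜ.card : ℝ) = n - s := by
    rw [Finset.card_compl, Fintype.card_fin, Nat.cast_sub (by omega)]
  have key : ∀ τ : ℝ, -1 ≤ τ → τ ≤ 1 →
      (1 - ε) * M ≤ (1 + τ) ^ 2 * a + 2 * (1 + τ) * (1 - γ * τ) * b + (1 - γ * τ) ^ 2 * d := by
    intro τ h1 h2
    set x := p * (1 + τ) with hx
    set y := p * (1 - γ * τ) with hy
    have hγτ : |γ * τ| ≤ 1 := by
      rw [abs_mul]
      have : |τ| ≤ 1 := abs_le.2 ⟨h1, h2⟩
      have h' : |γ| ≤ 1 := abs_le.2 ⟨by linarith, hγ1⟩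
      calc |γ| * |τ| ≤ 1 * 1 := mul_le_mul h' this (abs_nonneg _) (by norm_num)
        _ = 1 := by norm_num
    rw [abs_le] at hγτ
    have hx0 : 0 ≤ x := mul_nonneg hp0.le (by linarith)
    have hx1 : x ≤ 1 := by
      have : p * (1 + τ) ≤ p * 2 := mul_le_mul_of_nonneg_left (by linarith) hp0.le
      linarith
    have hy0 : 0 ≤ y := mul_nonneg hp0.le (by linarith)
    have hy1 : y ≤ 1 := by
      have : p * (1 - γ * τ) ≤ p * 2 := mul_le_mul_of_nonneg_left (by linarith) hp0.le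
      linarith
    obtain ⟨W, hW1, hW2⟩ := rounding G h _ (x • ind S + y • ind Sᶜ) rfl
      (by
        intro v
        simp only [Pi.add_apply, Pi.smul_apply, smul_eq_mul, ind_apply, Finset.mem_compl]
        by_cases hv : v ∈ S <;> simp [hv, hx0, hy0])
      (by
        intro v
        simp only [Pi.add_apply, Pi.smul_apply, smul_eq_mul, ind_apply, Finset.mem_compl]
        by_cases hv : v ∈ S <;> simp [hv, hx1, hy1])
      (by
        simp only [Pi.add_apply, Pi.smul_apply, smul_eq_mul]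
        rw [Finset.sum_add_distrib, ← Finset.mul_sum, ← Finset.mul_sum, sum_ind, sum_ind, hcard]
        show p * (1 + τ) * s + p * (1 - γ * τ) * (n - s) = h
        have e1 : p * (1 + τ) * s + p * (1 - γ * τ) * (n - s) =
          p * (s + τ * s + (n - s) - τ * (γ * (n - s))) := by ring
        rw [e1, hγs, hp]
        field_simp
        ring)
    have h3 := le_trans (hL W hW1) hW2
    rw [EE_comb] at h3
    have h4 : p ^ 2 * ((1 - ε) * M) ≤ p ^ 2 *
        ((1 + τ) ^ 2 * a + 2 * (1 + τ) * (1 - γ * τ) * b + (1 - γ * τ) ^ 2 * d) := by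
      calc p ^ 2 * ((1 - ε) * M) = (1 - ε) * p ^ 2 * M := by ring
        _ ≤ x ^ 2 * a + 2 * x * y * b + y ^ 2 * d := h3
        _ = _ := by rw [hx, hy]; ring
    exact le_of_mul_le_mul_left h4 (by positivity)
  have k1 := key 1 (by norm_num) le_rfl
  have k2 := key (-1) le_rfl (by norm_num)
  have k3 := key γ (by linarith) hγ1
  have hfin := alg1 a b d M γ ε hMabd hγ0 hγ1 k1 k2 k3
  have h1γ : (1 + γ) * (n - s) = n := by
    rw [add_mul, hγs]
    ring
  exact alg2 a M γ ε s n hfin hM0 hnpos hs0 hε0 (by linarith) hγs h1γ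

lemma exists_deg (G : SimpleGraph (Fin n)) (S : Finset (Fin n)) (hS : S.Nonempty) (r : ℝ)
    (h : r * (S.card : ℝ) ≤ EE G (ind S)) :
    ∃ v ∈ S, ∃ T : Finset (Fin n), T ⊆ S ∧ (∀ u ∈ T, G.Adj v u) ∧ r ≤ T.card := by
  classical
  by_contra hcon
  push Not at hcon
  have h1 : ∀ v ∈ S, ((S.filter (fun u => G.Adj v u)).card : ℝ) < r := by
    intro v hv
    exact hcon v hv _ (Finset.filter_subset _ _) (fun u hu => (Finset.mem_filter.1 hu).2)
  have h2 : EE G (ind S) = ∑ v ∈ S, ((S.filter (fun u => G.Adj v u)).card : ℝ) := by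
    rw [EE_expand]
    rw [← Finset.sum_subset (Finset.subset_univ S)]
    · apply Finset.sum_congr rfl
      intro v hv
      rw [ind_apply, if_pos hv, one_mul, Finset.card_filter]
      push_cast
      rw [← Finset.sum_subset (Finset.subset_univ S)]
      · apply Finset.sum_congr rfl
        intro u hu
        rw [ind_apply, if_pos hu]
      · intro u _ hu
        rw [ind_apply, if_neg hu]
        simp
    · intro v _ hv
      rw [ind_apply, if_neg hv, zero_mul]
  rw [h2] at h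
  have h3 : ∑ v ∈ S, ((S.filter (fun u => G.Adj v u)).card : ℝ) < ∑ v ∈ S, r :=
    Finset.sum_lt_sum_of_nonempty hS h1
  rw [Finset.sum_const, nsmul_eq_mul] at h3
  linarith

lemma greedy (G : SimpleGraph (Fin n)) (c β : ℝ) (hc0 : 0 < c) (hc1 : c ≤ 1) (hβ : 0 < β)
    (hn : 0 < n)
    (hS : ∀ S : Finset (Fin n), 2 * S.card ≤ n → β * n ≤ S.card →
      c * (S.card : ℝ) * (S.card : ℝ) ≤ EE G (ind S)) (S₀ : Finset (Fin n))
    (h₀ : 2 * S₀.card ≤ n) (k : ℕ) (hk : ∀ j, j ≤ k → β * n ≤ c ^ j * S₀.card) :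
    ∀ j, j ≤ k → ∃ K S : Finset (Fin n), G.IsNClique j K ∧ S ⊆ S₀ ∧
      (∀ x ∈ K, ∀ y ∈ S, G.Adj x y) ∧ c ^ j * (S₀.card : ℝ) ≤ S.card := by
  classical
  intro j
  induction j with
  | zero =>
    intro _
    exact ⟨∅, S₀, by simp [SimpleGraph.isNClique_iff, SimpleGraph.IsClique], Finset.Subset.refl _, by simp, by simp⟩
  | succ j ih =>
    intro hj
    obtain ⟨K, S, hK, hSS, hKS, hSc⟩ := ih (by omega)
    have hSn : 2 * S.card ≤ n := by
      have := Finset.card_le_card hSS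
      omega
    have hβS : β * n ≤ S.card := le_trans (hk j (by omega)) hSc
    have hSpos : (0 : ℝ) < S.card := by
      have : (0 : ℝ) < n := by exact_mod_cast hn
      exact lt_of_lt_of_le (mul_pos hβ this) hβS
    have hne : S.Nonempty := by
      rw [← Finset.card_pos]
      exact_mod_cast hSpos
    obtain ⟨v, hv, T, hTS, hTv, hTc⟩ := exists_deg G S hne (c * S.card) (hS S hSn hβS)
    refine ⟨insert v K, T, ?_, hTS.trans hSS, ?_, ?_⟩
    · exact hK.insert (fun x hx => (hKS x hx v hv).symm)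
    · intro x hx y hy
      rw [Finset.mem_insert] at hx
      rcases hx with rfl | hx
      · exact hTv y hy
      · exact hKS x hx y (hTS hy)
    · calc c ^ (j + 1) * (S₀.card : ℝ) = c * (c ^ j * S₀.card) := by ring
        _ ≤ c * S.card := mul_le_mul_of_nonneg_left hSc hc0.le
        _ ≤ T.card := hTc

/-- For every c>0 and k there are ε>0 and N so that any graph on n≥N vertices with ⌊cn²⌋ edges, in which every ⌊n/2⌋-vertex set spans at least (1−ε)c(n/2)² edges, contains a k-clique. -/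
theorem result :
    ∀ c : ℝ, 0 < c → ∀ k : ℕ, ∃ ε : ℝ, 0 < ε ∧ ∃ N : ℕ, ∀ n : ℕ, N ≤ n →
      ∀ G : SimpleGraph (Fin n),
        G.edgeSet.ncard = ⌊c * (n : ℝ) ^ 2⌋₊ →
        (∀ W : Finset (Fin n), W.card = n / 2 →
          (1 - ε) * c * ((n : ℝ) / 2) ^ 2 ≤
            (({e : Sym2 (Fin n) | e ∈ G.edgeSet ∧ ∀ v ∈ e, v ∈ W}).ncard : ℝ)) →
        ∃ s : Finset (Fin n), G.IsNClique k s := by
  intro c hc k
  set q : ℝ := min (c / 2) 1 with hq
  have hq0 : 0 < q := lt_min (by linarith) one_pos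
  have hq1 : q ≤ 1 := min_le_right _ _
  have hqc : q ≤ c / 2 := min_le_left _ _
  set β : ℝ := q ^ k / 3 with hβ
  have hβ0 : 0 < β := by positivity
  set ε : ℝ := min 1 (β ^ 2 / 8) with hε
  have hε0 : 0 < ε := lt_min one_pos (by positivity)
  have hε1 : ε ≤ 1 := min_le_left _ _
  have hε2 : ε ≤ β ^ 2 / 8 := min_le_right _ _
  obtain ⟨N₁, hN₁⟩ := exists_nat_gt (2 / c)
  refine ⟨ε, hε0, max 2 N₁, ?_⟩
  intro n hn G hm hW
  have hn2 : 2 ≤ n := le_trans (le_max_left _ _) hn
  have hnN : N₁ ≤ n := le_trans (le_max_right _ _) hn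
  have hn2' : (2 : ℝ) ≤ n := by exact_mod_cast hn2
  have hnpos : (0 : ℝ) < n := by linarith
  have hcn : 2 ≤ c * (n : ℝ) ^ 2 := by
    have h1 : 2 / c < n := lt_of_lt_of_le hN₁ (by exact_mod_cast hnN)
    rw [div_lt_iff₀ hc] at h1
    nlinarith
  set M := EE G (ind Finset.univ) with hM
  have hM1 : M = 2 * (⌊c * (n : ℝ) ^ 2⌋₊ : ℝ) := by
    rw [hM, EE_one, hm]
  have hMle : M ≤ 2 * (c * (n : ℝ) ^ 2) := by
    rw [hM1]
    have := Nat.floor_le (show 0 ≤ c * (n : ℝ) ^ 2 by positivity)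
    linarith
  have hMge : c * (n : ℝ) ^ 2 ≤ M := by
    rw [hM1]
    have := Nat.lt_floor_add_one (c * (n : ℝ) ^ 2)
    linarith
  have hM0 : 0 ≤ M := EE_nonneg G _
  have hh : 2 * (n / 2) ≤ n := by omega
  have hh0 : 0 < n / 2 := by omega
  have hhr : 2 * ((n / 2 : ℕ) : ℝ) ≤ n := by exact_mod_cast hh
  have hp0 : 0 ≤ ((n / 2 : ℕ) : ℝ) / n := by positivity
  have hp1 : ((n / 2 : ℕ) : ℝ) / n ≤ 1 / 2 := by
    rw [div_le_iff₀ hnpos]
    linarith
  have hL : ∀ W : Finset (Fin n), W.card = n / 2 →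
      (1 - ε) * (((n / 2 : ℕ) : ℝ) / n) ^ 2 * EE G (ind Finset.univ) ≤ EE G (ind W) := by
    intro W hWc
    have h1 := hW W hWc
    rw [EE_ind G W]
    have h2 : (((n / 2 : ℕ) : ℝ) / n) ^ 2 ≤ 1 / 4 := by nlinarith
    have h3 : (((n / 2 : ℕ) : ℝ) / n) ^ 2 * M ≤ 1 / 4 * (2 * (c * (n : ℝ) ^ 2)) :=
      mul_le_mul h2 hMle hM0 (by norm_num)
    have h4 := mul_le_mul_of_nonneg_left h3 (show 0 ≤ 1 - ε by linarith)
    have h5 : (1 - ε) * (((n / 2 : ℕ) : ℝ) / n) ^ 2 * M =
        (1 - ε) * ((((n / 2 : ℕ) : ℝ) / n) ^ 2 * M) := by ring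
    rw [← hM, h5]
    refine le_trans h4 ?_
    have h6 : (1 - ε) * (1 / 4 * (2 * (c * (n : ℝ) ^ 2))) =
        2 * ((1 - ε) * c * ((n : ℝ) / 2) ^ 2) := by ring
    rw [h6]
    linarith
  have hS : ∀ S : Finset (Fin n), 2 * S.card ≤ n → β * n ≤ S.card →
      q * (S.card : ℝ) * (S.card : ℝ) ≤ EE G (ind S) := by
    intro S hS1 hS2
    have h1 := main_ineq G (n / 2) hh0 hh ε hε0.le hε1 hL S hS1
    rw [← hM] at h1
    refine le_trans ?_ h1
    set s : ℝ := (S.card : ℝ) with hs
    have hs0 : 0 ≤ s := by positivity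
    have h2 : β ≤ s / n := by
      rw [le_div_iff₀ hnpos]; exact hS2
    have h3 : β ^ 2 ≤ (s / n) ^ 2 := pow_le_pow_left₀ hβ0.le h2 2
    have h4 : (s / n) ^ 2 / 2 ≤ (s / n) ^ 2 - 2 * ε := by linarith [sq_nonneg (s / n)]
    have h5 : (s / n) ^ 2 / 2 * (c * (n : ℝ) ^ 2) ≤ ((s / n) ^ 2 - 2 * ε) * M :=
      mul_le_mul h4 hMge (by positivity) (le_trans (by positivity) h4)
    refine le_trans ?_ h5
    have h6 : (s / n) ^ 2 / 2 * (c * (n : ℝ) ^ 2) = c / 2 * s * s := by
      field_simp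
    rw [h6]
    have : 0 ≤ s * s := by positivity
    nlinarith [mul_le_mul_of_nonneg_right hqc this]
  obtain ⟨S₀, -, hS₀⟩ := Finset.exists_subset_card_eq (s := (Finset.univ : Finset (Fin n)))
    (n := n / 2) (by simp; omega)
  have h3n : (n : ℝ) / 3 ≤ S₀.card := by
    rw [hS₀]
    have : n ≤ 3 * (n / 2) := by omega
    have : (n : ℝ) ≤ 3 * ((n / 2 : ℕ) : ℝ) := by exact_mod_cast this
    linarith
  obtain ⟨K, S, hK, -⟩ := greedy G q β hq0 hq1 hβ0 (by omega) hS S₀ (by omega) k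
    (by
      intro j hj
      have h1 : q ^ k ≤ q ^ j := pow_le_pow_of_le_one hq0.le hq1 hj
      calc β * n = q ^ k * (n / 3) := by rw [hβ]; ring
        _ ≤ q ^ j * (n / 3) := mul_le_mul_of_nonneg_right h1 (by positivity)
        _ ≤ q ^ j * S₀.card := mul_le_mul_of_nonneg_left h3n (by positivity)) k le_rfl
  exact ⟨K, hK⟩

end Pool.Agent.S07091
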