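import Pool.Statements.S07480
import Pool.Agent.Q113.Subcube

set_option autoImplicit false
open Classical Filter Topology
open Pool Pool.MP_1cd2aa_co

namespace Pool.Agent.S07480

/-- The negation of the preceding statement: For every m ≥ 7, the largest fraction of 2-dimensional subcubes of the n-cube that can be chosen with no (3m+2)-dimensional subcube having all its 2-subcubes chosen tends to 1 − 1/(m+1)³ as n → ∞. -/
theorem result :
    ¬ (∀ m : ℕ, 7 ≤ m →
      Tendsto
        (fun n : ℕ =>
          ((((Finset.univ : Finset (Finset (Fin n → Option Bool))).filter
              (fun F =>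
                (∀ x ∈ F, (Finset.univ.filter (fun i => x i = none)).card = 2) ∧
                ∀ C : Fin n → Option Bool,
                  (Finset.univ.filter (fun i => C i = none)).card = 3 * m + 2 →
                  ¬ (∀ D : Fin n → Option Bool,
                      (Finset.univ.filter (fun i => D i = none)).card = 2 →
                      (∀ (i : Fin n) (b : Bool), C i = some b → D i = some b) →
                      D ∈ F))).sup Finset.card : ℕ) : ℝ) /
          (((Finset.univ : Finset (Fin n → Option Bool)).filter
              (fun D => (Finset.univ.filter (fun i => D i = none)).card = 2)).card : ℝ))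
        atTop (𝓝 (1 - 1 / ((m : ℝ) + 1) ^ 3))) := by
  intro h
  have h20 := h 20 (by norm_num)
  have hge : ∀ᶠ n : ℕ in atTop, (1 - 1 / (2 : ℝ) ^ 18) ≤
        ((((Finset.univ : Finset (Finset (Fin n → Option Bool))).filter
              (fun F =>
                (∀ x ∈ F, (Finset.univ.filter (fun i => x i = none)).card = 2) ∧
                ∀ C : Fin n → Option Bool,
                  (Finset.univ.filter (fun i => C i = none)).card = 3 * 20 + 2 →
                  ¬ (∀ D : Fin n → Option Bool,
                      (Finset.univ.filter (fun i => D i = none)).card = 2 →
                      (∀ (i : Fin n) (b : Bool), C i = some b → D i = some b) →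
                      D ∈ F))).sup Finset.card : ℕ) : ℝ) /
          (((Finset.univ : Finset (Fin n → Option Bool)).filter
              (fun D => (Finset.univ.filter (fun i => D i = none)).card = 2)).card : ℝ) := by
    filter_upwards [eventually_ge_atTop 2] with n hn
    obtain ⟨R, hR1, hR2, hR3⟩ := Pool.Agent.Q113.Subcube.exists_hitting n 20 (by norm_num)
    set Q : Finset (Fin n → Option Bool) := (Finset.univ : Finset (Fin n → Option Bool)).filter
              (fun D => (Finset.univ.filter (fun i => D i = none)).card = 2) with hQ
    have hRQ : R ⊆ Q := by
      intro D hD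
      rw [hQ, Finset.mem_filter]
      exact ⟨Finset.mem_univ _, hR1 D hD⟩
    have hQpos : 0 < Q.card := by
      apply Finset.card_pos.2
      obtain ⟨P, -, hP⟩ := Finset.exists_subset_card_eq
        (show 2 ≤ (Finset.univ : Finset (Fin n)).card by simpa using hn)
      refine ⟨fun i => if i ∈ P then none else some true, ?_⟩
      rw [hQ, Finset.mem_filter]
      refine ⟨Finset.mem_univ _, ?_⟩
      rw [← hP]
      congr 1
      ext i
      simp
    have hmem : Q \ R ∈ ((Finset.univ : Finset (Finset (Fin n → Option Bool))).filter
              (fun F =>
                (∀ x ∈ F, (Finset.univ.filter (fun i => x i = none)).card = 2) ∧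
                ∀ C : Fin n → Option Bool,
                  (Finset.univ.filter (fun i => C i = none)).card = 3 * 20 + 2 →
                  ¬ (∀ D : Fin n → Option Bool,
                      (Finset.univ.filter (fun i => D i = none)).card = 2 →
                      (∀ (i : Fin n) (b : Bool), C i = some b → D i = some b) →
                      D ∈ F))) := by
      rw [Finset.mem_filter]
      refine ⟨Finset.mem_univ _, ?_, ?_⟩
      · intro x hx
        exact (Finset.mem_filter.1 (Finset.mem_sdiff.1 hx).1).2
      · intro C hC hall
        obtain ⟨D, hD, hDC⟩ := hR3 C hC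
        exact (Finset.mem_sdiff.1 (hall D (hR1 D hD) hDC)).2 hD
    have hsup : (Q \ R).card ≤ ((Finset.univ : Finset (Finset (Fin n → Option Bool))).filter
              (fun F =>
                (∀ x ∈ F, (Finset.univ.filter (fun i => x i = none)).card = 2) ∧
                ∀ C : Fin n → Option Bool,
                  (Finset.univ.filter (fun i => C i = none)).card = 3 * 20 + 2 →
                  ¬ (∀ D : Fin n → Option Bool,
                      (Finset.univ.filter (fun i => D i = none)).card = 2 →
                      (∀ (i : Fin n) (b : Bool), C i = some b → D i = some b) →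
                      D ∈ F))).sup Finset.card := Finset.le_sup (f := Finset.card) hmem
    rw [Finset.card_sdiff_of_subset hRQ] at hsup
    have hR2' : R.card * 2 ^ 18 ≤ Q.card := hR2
    have hQr : (0 : ℝ) < (Q.card : ℝ) := by exact_mod_cast hQpos
    rw [le_div_iff₀ hQr]
    have h1 : (R.card : ℝ) * 2 ^ 18 ≤ (Q.card : ℝ) := by exact_mod_cast hR2'
    have hle : R.card ≤ Q.card := Finset.card_le_card hRQ
    have h2 : ((Q.card : ℝ) - R.card) ≤ ((((Finset.univ : Finset (Finset (Fin n → Option Bool))).filter
              (fun F =>
                (∀ x ∈ F, (Finset.univ.filter (fun i => x i = none)).card = 2) ∧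
                ∀ C : Fin n → Option Bool,
                  (Finset.univ.filter (fun i => C i = none)).card = 3 * 20 + 2 →
                  ¬ (∀ D : Fin n → Option Bool,
                      (Finset.univ.filter (fun i => D i = none)).card = 2 →
                      (∀ (i : Fin n) (b : Bool), C i = some b → D i = some b) →
                      D ∈ F))).sup Finset.card : ℕ) : ℝ) := by
      rw [← Nat.cast_sub hle]
      exact_mod_cast hsup
    refine le_trans ?_ h2
    have h3 : (R.card : ℝ) ≤ (Q.card : ℝ) / 2 ^ 18 := by
      rw [le_div_iff₀ (by positivity)]; exact h1
    have h4 : (1 - 1 / (2 : ℝ) ^ 18) * (Q.card : ℝ) = (Q.card : ℝ) - (Q.card : ℝ) / 2 ^ 18 := by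
      ring
    rw [h4]
    linarith
  have hlim := ge_of_tendsto h20 hge
  norm_num at hlim

end Pool.Agent.S07480
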