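import Pool.Statements.S08907
import Pool.Agent.Q156.PermFerrers

set_option autoImplicit false
open Pool Pool.MP_596cf1_co

namespace Pool.Agent.S08907

/-- There is a constant c > 1 such that, for all large n, the number of distinct values taken by the permanent of n×n matrices with entries ±1 is at least c^n. -/
theorem result :
    ∃ c : ℝ, 1 < c ∧ ∃ N : ℕ, ∀ n : ℕ, N ≤ n →
      c ^ n ≤ ((Set.ncard {p : ℤ | ∃ A : Matrix (Fin n) (Fin n) ℤ,
        (∀ i j, A i j = 1 ∨ A i j = -1) ∧ A.permanent = p} : ℕ) : ℝ) := by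
  refine ⟨21 / 20, by norm_num, 12, ?_⟩
  intro n hn
  obtain ⟨N, rfl⟩ : ∃ N, n = N + 1 := ⟨n - 1, by omega⟩
  have h1 := Pool.Agent.Q156.PermFerrers.values N
  have h2 : ((2 : ℝ)) ^ (N / 6) ≤ ((Set.ncard {p : ℤ | ∃ A : Matrix (Fin (N + 1)) (Fin (N + 1)) ℤ,
      (∀ i j, A i j = 1 ∨ A i j = -1) ∧ A.permanent = p} : ℕ) : ℝ) := by
    exact_mod_cast h1
  refine le_trans ?_ h2
  have h3 : ((21 / 20 : ℝ)) ^ (N + 1) ≤ (21 / 20) ^ (12 * (N / 6)) := by
    apply pow_le_pow_right₀ (by norm_num)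
    omega
  refine le_trans h3 ?_
  rw [pow_mul]
  apply pow_le_pow_left₀ (by positivity)
  norm_num

end Pool.Agent.S08907
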