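import Pool.Statements.S09134

set_option autoImplicit false
open Pool Pool.MP_61c7a3_co

namespace Pool.Agent.S09134

/-- The standard bilinear form on `F_2^4`, in truth values. -/
def dot (a b : Fin 4 → Bool) : Bool :=
  xor (xor (a 0 && b 0) (a 1 && b 1)) (xor (a 2 && b 2) (a 3 && b 3))

/-- The standard bilinear form on `F_2^3`, in truth values. -/
def dot3 (a b : Fin 3 → Bool) : Bool :=
  xor (xor (a 0 && b 0) (a 1 && b 1)) (a 2 && b 2)

theorem card4 (p : Fin 4 → Prop) [DecidablePred p] :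
    Nat.card {i : Fin 4 // p i}
      = (if p 0 then 1 else 0) + (if p 1 then 1 else 0) + (if p 2 then 1 else 0)
        + (if p 3 then 1 else 0) := by
  rw [Nat.card_eq_fintype_card, Fintype.card_subtype]
  rw [Finset.card_filter, Fin.sum_univ_four]

theorem card3 (p : Fin 3 → Prop) [DecidablePred p] :
    Nat.card {i : Fin 3 // p i}
      = (if p 0 then 1 else 0) + (if p 1 then 1 else 0) + (if p 2 then 1 else 0) := by
  rw [Nat.card_eq_fintype_card, Fintype.card_subtype]
  rw [Finset.card_filter, Fin.sum_univ_three]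

/-- Parity of the number of sets containing both vertices. -/
theorem odd4 {V : Type} (X : Fin 4 → Set V) (y : V → Fin 4 → Bool)
    (hy : ∀ v i, y v i = true ↔ v ∈ X i) (a b : V) :
    Odd (Nat.card {i : Fin 4 // a ∈ X i ∧ b ∈ X i}) ↔ dot (y a) (y b) = true := by
  classical
  have h : ∀ i, (a ∈ X i ∧ b ∈ X i) ↔ (y a i && y b i) = true := by
    intro i
    rw [Bool.and_eq_true, hy, hy]
  rw [card4]
  simp only [h, dot]
  generalize (y a 0 && y b 0) = c0
  generalize (y a 1 && y b 1) = c1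
  generalize (y a 2 && y b 2) = c2
  generalize (y a 3 && y b 3) = c3
  revert c0 c1 c2 c3
  decide

theorem odd3 {V : Type} (X : Fin 3 → Set V) (y : V → Fin 3 → Bool)
    (hy : ∀ v i, y v i = true ↔ v ∈ X i) (a b : V) :
    Odd (Nat.card {i : Fin 3 // a ∈ X i ∧ b ∈ X i}) ↔ dot3 (y a) (y b) = true := by
  classical
  have h : ∀ i, (a ∈ X i ∧ b ∈ X i) ↔ (y a i && y b i) = true := by
    intro i
    rw [Bool.and_eq_true, hy, hy]
  rw [card3]
  simp only [h, dot3]
  generalize (y a 0 && y b 0) = c0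
  generalize (y a 1 && y b 1) = c1
  generalize (y a 2 && y b 2) = c2
  revert c0 c1 c2
  decide

/-- The three vectors of an orthonormal basis of `e^⊥`, for `e` of norm one: if `e` has weight
one these are the other unit vectors, if it has weight three they are the vectors of weight three
different from `e`. In both cases they are, up to complement of `e`, indexed by the three
coordinates different from the exceptional one `z`. -/
def basis (e : Fin 4 → Bool) : Fin 3 → Fin 4 → Bool :=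
  fun k i =>
    -- parity of the weight three case
    let big : Bool := (e 0 && e 1) || (e 2 && e 3)
    -- the exceptional coordinate
    let z : Fin 4 :=
      if xor (e 0) big then 0 else if xor (e 1) big then 1 else if xor (e 2) big then 2 else 3
    xor (decide (i = z.succAbove k)) big

theorem basis_spec_aux :
    ∀ e0 e1 e2 e3 x0 x1 x2 x3 y0 y1 y2 y3 : Bool,
      dot ![e0, e1, e2, e3] ![e0, e1, e2, e3] = true →
      dot ![x0, x1, x2, x3] ![e0, e1, e2, e3] = false →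
      dot ![y0, y1, y2, y3] ![e0, e1, e2, e3] = false →
      dot ![x0, x1, x2, x3] ![y0, y1, y2, y3]
        = dot3 (fun k => dot ![x0, x1, x2, x3] (basis ![e0, e1, e2, e3] k))
            (fun k => dot ![y0, y1, y2, y3] (basis ![e0, e1, e2, e3] k)) := by
  decide

theorem vec4 (x : Fin 4 → Bool) : x = ![x 0, x 1, x 2, x 3] := by
  funext i
  fin_cases i <;> rfl

theorem basis_spec (e x y : Fin 4 → Bool) (he : dot e e = true) (hx : dot x e = false)
    (hy : dot y e = false) :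
    dot x y = dot3 (fun k => dot x (basis e k)) (fun k => dot y (basis e k)) := by
  rw [vec4 e] at he hx hy ⊢
  rw [vec4 x] at hx ⊢
  rw [vec4 y] at hy ⊢
  exact basis_spec_aux _ _ _ _ _ _ _ _ _ _ _ _ he hx hy

/-- The oriented graph `D2`: vertices `0 < 1 < ... < m-1`, where the arcs between two even vertices
are reversed. Its inversion number is one. -/
def r2 (m : ℕ) (a b : Fin m) : Prop :=
  ((a : ℕ) % 2 = 0 ∧ (b : ℕ) % 2 = 0 ∧ (b : ℕ) < a) ∨
    (¬ ((a : ℕ) % 2 = 0 ∧ (b : ℕ) % 2 = 0) ∧ (a : ℕ) < b)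

/-- Even number of inversions. -/
theorem even_iff (n : ℕ) : Even n ↔ ¬ Odd n := by
  rw [Nat.not_odd_iff_even]

/-- The heart: four vertices of `D2`. -/
theorem core {n m : ℕ} (R : Fin n ⊕ Fin m → Fin n ⊕ Fin m → Prop)
    (hac : ∀ v, ¬ Relation.TransGen R v v)
    (y : Fin n ⊕ Fin m → Fin 4 → Bool)
    (h22 : ∀ v w : Fin m, r2 m v w → (dot (y (.inr v)) (y (.inr w)) = false → R (.inr v) (.inr w)) ∧
      (dot (y (.inr v)) (y (.inr w)) = true → R (.inr w) (.inr v)))
    (h12 : ∀ (u : Fin n) (w : Fin m), (dot (y (.inl u)) (y (.inr w)) = false → R (.inl u) (.inr w)) ∧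
      (dot (y (.inl u)) (y (.inr w)) = true → R (.inr w) (.inl u)))
    (x1 n1 x2 n2 : Fin m) (hx1 : (x1 : ℕ) % 2 = 0) (hx2 : (x2 : ℕ) % 2 = 0)
    (hn1 : (n1 : ℕ) % 2 = 1) (hn2 : (n2 : ℕ) % 2 = 1) (h1 : x1 < n1) (h2 : n1 < x2) (h3 : x2 < n2)
    (α β : Fin 4 → Bool) (hyx1 : y (.inr x1) = α) (hyx2 : y (.inr x2) = α)
    (hyn1 : y (.inr n1) = β) (hyn2 : y (.inr n2) = β) :
    (dot α α ≠ dot β β) ∧ ∀ u : Fin n, dot (y (.inl u)) α = dot (y (.inl u)) β := by
  have h1' : (x1 : ℕ) < n1 := h1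
  have h2' : (n1 : ℕ) < x2 := h2
  have h3' : (x2 : ℕ) < n2 := h3
  have tri : ∀ a b c, R a b → R b c → R c a → False := by
    intro a b c hab hbc hca
    exact hac a (((Relation.TransGen.single hab).tail hbc).tail hca)
  have hsym : ∀ a b : Fin 4 → Bool, dot a b = dot b a := by
    intro a b
    simp only [dot, Bool.and_comm]
  -- the arcs
  have aX : r2 m x2 x1 := Or.inl ⟨hx2, hx1, by omega⟩
  have aN : r2 m n1 n2 := Or.inr ⟨by omega, by omega⟩
  have a1 : r2 m x1 n1 := Or.inr ⟨by omega, by omega⟩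
  have a2 : r2 m n1 x2 := Or.inr ⟨by omega, by omega⟩
  have a3 : r2 m x2 n2 := Or.inr ⟨by omega, by omega⟩
  have a4 : r2 m x1 n2 := Or.inr ⟨by omega, by omega⟩
  have eX := h22 _ _ aX
  have eN := h22 _ _ aN
  have e1 := h22 _ _ a1
  have e2 := h22 _ _ a2
  have e3 := h22 _ _ a3
  have e4 := h22 _ _ a4
  rw [hyx1, hyx2] at eX
  rw [hyn1, hyn2] at eN
  rw [hyx1, hyn1] at e1
  rw [hyn1, hyx2, hsym] at e2
  rw [hyx2, hyn2] at e3
  rw [hyx1, hyn2] at e4
  constructor
  · intro hAB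
    cases hC : dot α β with
    | false =>
      cases hA : dot α α with
      | false => exact tri _ _ _ (eX.1 hA) (e1.1 hC) (e2.1 hC)
      | true => exact tri _ _ _ (eN.2 (hAB ▸ hA)) (e2.1 hC) (e3.1 hC)
    | true =>
      cases hA : dot α α with
      | true => exact tri _ _ _ (eX.2 hA) (e2.2 hC) (e1.2 hC)
      | false => exact tri _ _ _ (eN.1 (hAB ▸ hA)) (e3.2 hC) (e2.2 hC)
  · intro u
    have f1 := h12 u x1
    have f2 := h12 u x2
    have g1 := h12 u n1
    have g2 := h12 u n2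
    rw [hyx1] at f1
    rw [hyx2] at f2
    rw [hyn1] at g1
    rw [hyn2] at g2
    cases hp : dot (y (.inl u)) α with
    | true =>
      cases hq : dot (y (.inl u)) β with
      | true => rfl
      | false =>
        exfalso
        cases hC : dot α β with
        | false => exact tri _ _ _ (e2.1 hC) (f2.2 hp) (g1.1 hq)
        | true => exact tri _ _ _ (e3.2 hC) (f2.2 hp) (g2.1 hq)
    | false =>
      cases hq : dot (y (.inl u)) β with
      | false => rfl
      | true =>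
        exfalso
        cases hC : dot α β with
        | false => exact tri _ _ _ (e1.1 hC) (g1.2 hq) (f1.1 hp)
        | true => exact tri _ _ _ (e2.2 hC) (g1.2 hq) (f2.1 hp)

/-- The negation of the preceding statement: For every ℓ ≥ 3 there is a finite oriented graph D1 with inversion number exactly ℓ such that for every finite oriented graph D2 with inversion number at least 1, the dijoin D1→D2 has inversion number strictly less than inv(D1)+inv(D2). -/
theorem result :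
    ¬ (∀ ℓ : ℕ, 3 ≤ ℓ → ∃ n : ℕ, ∃ r₁ : Fin n → Fin n → Prop,
      (∀ x y, r₁ x y → ¬ r₁ y x) ∧
      (∃ X : Fin ℓ → Set (Fin n), ∀ v, ¬ Relation.TransGen
          (fun a b => (r₁ a b ∧ Even (Nat.card {i : Fin ℓ // a ∈ X i ∧ b ∈ X i})) ∨
                      (r₁ b a ∧ Odd (Nat.card {i : Fin ℓ // a ∈ X i ∧ b ∈ X i}))) v v) ∧
      (¬ ∃ X : Fin (ℓ - 1) → Set (Fin n), ∀ v, ¬ Relation.TransGen
          (fun a b => (r₁ a b ∧ Even (Nat.card {i : Fin (ℓ - 1) // a ∈ X i ∧ b ∈ X i})) ∨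
                      (r₁ b a ∧ Odd (Nat.card {i : Fin (ℓ - 1) // a ∈ X i ∧ b ∈ X i}))) v v) ∧
      ∀ m : ℕ, ∀ r₂ : Fin m → Fin m → Prop,
        (∀ x y, r₂ x y → ¬ r₂ y x) →
        (¬ ∃ X : Fin 0 → Set (Fin m), ∀ v, ¬ Relation.TransGen
            (fun a b => (r₂ a b ∧ Even (Nat.card {i : Fin 0 // a ∈ X i ∧ b ∈ X i})) ∨
                        (r₂ b a ∧ Odd (Nat.card {i : Fin 0 // a ∈ X i ∧ b ∈ X i}))) v v) →
        ∀ k : ℕ,
          (∃ X : Fin k → Set (Fin m), ∀ v, ¬ Relation.TransGen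
            (fun a b => (r₂ a b ∧ Even (Nat.card {i : Fin k // a ∈ X i ∧ b ∈ X i})) ∨
                        (r₂ b a ∧ Odd (Nat.card {i : Fin k // a ∈ X i ∧ b ∈ X i}))) v v) →
          ∃ X : Fin (ℓ + k - 1) → Set (Fin n ⊕ Fin m), ∀ v, ¬ Relation.TransGen
            (fun a b =>
              (((∃ x y, a = Sum.inl x ∧ b = Sum.inl y ∧ r₁ x y) ∨
                (∃ x y, a = Sum.inr x ∧ b = Sum.inr y ∧ r₂ x y) ∨
                (∃ x y, a = Sum.inl x ∧ b = Sum.inr y)) ∧
                Even (Nat.card {i : Fin (ℓ + k - 1) // a ∈ X i ∧ b ∈ X i})) ∨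
              (((∃ x y, b = Sum.inl x ∧ a = Sum.inl y ∧ r₁ x y) ∨
                (∃ x y, b = Sum.inr x ∧ a = Sum.inr y ∧ r₂ x y) ∨
                (∃ x y, b = Sum.inl x ∧ a = Sum.inr y)) ∧
                Odd (Nat.card {i : Fin (ℓ + k - 1) // a ∈ X i ∧ b ∈ X i}))) v v) := by
  classical
  intro H
  obtain ⟨n, r₁, -, -, hno, hall⟩ := H 4 (by norm_num)
  apply hno
  -- apply the hypothesis to `D2` and `k = 1`
  obtain ⟨X, hX⟩ := hall 514 (r2 514) (by
      intro x y h h'
      rcases h with ⟨_, _, h⟩ | ⟨h0, h⟩ <;> rcases h' with ⟨g1, g2, g⟩ | ⟨g1, g⟩ <;> omega) (by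
      rintro ⟨X, hX⟩
      have hz : ∀ a b : Fin 514, Even (Nat.card {i : Fin 0 // a ∈ X i ∧ b ∈ X i}) := by
        intro a b
        simp
      apply hX (0 : Fin 514)
      have h01 : r2 514 0 1 := Or.inr (by decide)
      have h12 : r2 514 1 2 := Or.inr (by decide)
      have h20 : r2 514 2 0 := Or.inl (by decide)
      refine Relation.TransGen.tail (b := (2 : Fin 514)) (Relation.TransGen.tail (b := (1 : Fin 514))
        (Relation.TransGen.single ?_) ?_) ?_
      · exact Or.inl ⟨h01, hz _ _⟩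
      · exact Or.inl ⟨h12, hz _ _⟩
      · exact Or.inl ⟨h20, hz _ _⟩) 1 (by
      refine ⟨fun _ => {v | (v : ℕ) % 2 = 0}, ?_⟩
      have key : ∀ a b : Fin 514, Relation.TransGen
          (fun a b => (r2 514 a b ∧ Even (Nat.card {i : Fin 1 // a ∈ (fun _ : Fin 1 => {v : Fin 514 | (v : ℕ) % 2 = 0}) i ∧ b ∈ (fun _ : Fin 1 => {v : Fin 514 | (v : ℕ) % 2 = 0}) i})) ∨
                        (r2 514 b a ∧ Odd (Nat.card {i : Fin 1 // a ∈ (fun _ : Fin 1 => {v : Fin 514 | (v : ℕ) % 2 = 0}) i ∧ b ∈ (fun _ : Fin 1 => {v : Fin 514 | (v : ℕ) % 2 = 0}) i}))) a b → (a : ℕ) < b := by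
        have step : ∀ a b : Fin 514, ((r2 514 a b ∧ Even (Nat.card {i : Fin 1 // a ∈ (fun _ : Fin 1 => {v : Fin 514 | (v : ℕ) % 2 = 0}) i ∧ b ∈ (fun _ : Fin 1 => {v : Fin 514 | (v : ℕ) % 2 = 0}) i})) ∨
                        (r2 514 b a ∧ Odd (Nat.card {i : Fin 1 // a ∈ (fun _ : Fin 1 => {v : Fin 514 | (v : ℕ) % 2 = 0}) i ∧ b ∈ (fun _ : Fin 1 => {v : Fin 514 | (v : ℕ) % 2 = 0}) i}))) → (a : ℕ) < b := by
          intro a b h
          by_cases hab : (a : ℕ) % 2 = 0 ∧ (b : ℕ) % 2 = 0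
          · have hc : Nat.card {i : Fin 1 // a ∈ (fun _ : Fin 1 => {v : Fin 514 | (v : ℕ) % 2 = 0}) i ∧ b ∈ (fun _ : Fin 1 => {v : Fin 514 | (v : ℕ) % 2 = 0}) i} = 1 := by
              have : ∀ i : Fin 1, (a ∈ (fun _ : Fin 1 => {v : Fin 514 | (v : ℕ) % 2 = 0}) i ∧ b ∈ (fun _ : Fin 1 => {v : Fin 514 | (v : ℕ) % 2 = 0}) i) := fun i => hab
              rw [Nat.card_congr (Equiv.subtypeUnivEquiv this)]
              simp
            rcases h with ⟨h, he⟩ | ⟨h, ho⟩
            · rw [hc] at he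
              exact absurd he (by decide)
            · rcases h with ⟨_, _, h⟩ | ⟨h0, h⟩
              · exact h
              · exact absurd ⟨hab.2, hab.1⟩ h0
          · have hc : Nat.card {i : Fin 1 // a ∈ (fun _ : Fin 1 => {v : Fin 514 | (v : ℕ) % 2 = 0}) i ∧ b ∈ (fun _ : Fin 1 => {v : Fin 514 | (v : ℕ) % 2 = 0}) i} = 0 := by
              have : IsEmpty {i : Fin 1 // a ∈ (fun _ : Fin 1 => {v : Fin 514 | (v : ℕ) % 2 = 0}) i ∧ b ∈ (fun _ : Fin 1 => {v : Fin 514 | (v : ℕ) % 2 = 0}) i} :=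
                ⟨fun i => hab i.2⟩
              exact Nat.card_of_isEmpty
            rcases h with ⟨h, he⟩ | ⟨h, ho⟩
            · rcases h with ⟨h0, h0', h⟩ | ⟨h0, h⟩
              · exact absurd ⟨h0, h0'⟩ hab
              · exact h
            · rw [hc] at ho
              exact absurd ho (by decide)
        intro a b h
        induction h with
        | single h => exact step _ _ h
        | tail _ h ih => exact lt_trans ih (step _ _ h)
      intro v hv
      exact lt_irrefl _ (key v v hv))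
  -- the vectors
  set y : Fin n ⊕ Fin 514 → Fin 4 → Bool := fun v i => decide (v ∈ X i) with hydef
  have hy : ∀ v i, y v i = true ↔ v ∈ X i := by
    intro v i
    simp [hydef]
  have hodd : ∀ a b, Odd (Nat.card {i : Fin 4 // a ∈ X i ∧ b ∈ X i}) ↔ dot (y a) (y b) = true :=
    fun a b => odd4 X y hy a b
  have heven : ∀ a b, Even (Nat.card {i : Fin 4 // a ∈ X i ∧ b ∈ X i}) ↔ dot (y a) (y b) = false := by
    intro a b
    rw [even_iff, hodd]
    simp
  -- pigeonhole
  obtain ⟨i, j, hij, hfi⟩ : ∃ i j : Fin 257, i < j ∧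
      (y (.inr ⟨2 * i, by omega⟩) = y (.inr ⟨2 * j, by omega⟩) ∧
        y (.inr ⟨2 * i + 1, by omega⟩) = y (.inr ⟨2 * j + 1, by omega⟩)) := by
    let f : Fin 257 → (Fin 4 → Bool) × (Fin 4 → Bool) := fun i =>
      (y (.inr ⟨2 * i, by omega⟩), y (.inr ⟨2 * i + 1, by omega⟩))
    obtain ⟨i, j, hne, hf⟩ := Fintype.exists_ne_map_eq_of_card_lt f (by simp)
    have hf' : y (.inr ⟨2 * i, by omega⟩) = y (.inr ⟨2 * j, by omega⟩) ∧
        y (.inr ⟨2 * i + 1, by omega⟩) = y (.inr ⟨2 * j + 1, by omega⟩) :=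
      ⟨congrArg Prod.fst hf, congrArg Prod.snd hf⟩
    rcases lt_or_gt_of_ne hne with h | h
    · exact ⟨i, j, h, hf'⟩
    · exact ⟨j, i, h, hf'.1.symm, hf'.2.symm⟩
  have hij' : (i : ℕ) < j := hij
  have hc := core _ hX y
    (by
      intro v w hvw
      constructor
      · intro h
        exact Or.inl ⟨Or.inr (Or.inl ⟨v, w, rfl, rfl, hvw⟩), (heven _ _).2 h⟩
      · intro h
        refine Or.inr ⟨Or.inr (Or.inl ⟨v, w, rfl, rfl, hvw⟩), ?_⟩
        rw [hodd]
        rw [← h]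
        simp only [dot, Bool.and_comm])
    (by
      intro u w
      constructor
      · intro h
        exact Or.inl ⟨Or.inr (Or.inr ⟨u, w, rfl, rfl⟩), (heven _ _).2 h⟩
      · intro h
        refine Or.inr ⟨Or.inr (Or.inr ⟨u, w, rfl, rfl⟩), ?_⟩
        rw [hodd]
        rw [← h]
        simp only [dot, Bool.and_comm])
    ⟨2 * i, by omega⟩ ⟨2 * i + 1, by omega⟩ ⟨2 * j, by omega⟩ ⟨2 * j + 1, by omega⟩
    (by simp) (by simp) (by show (2 * (i : ℕ) + 1) % 2 = 1; omega)
    (by show (2 * (j : ℕ) + 1) % 2 = 1; omega)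
    (by rw [Fin.lt_def]; show 2 * (i : ℕ) < 2 * i + 1; omega)
    (by rw [Fin.lt_def]; show 2 * (i : ℕ) + 1 < 2 * j; omega)
    (by rw [Fin.lt_def]; show 2 * (j : ℕ) < 2 * j + 1; omega)
    (y (.inr ⟨2 * j, by omega⟩)) (y (.inr ⟨2 * j + 1, by omega⟩)) hfi.1 rfl hfi.2 rfl
  set α := y (.inr ⟨2 * j, by omega⟩) with hα
  set β := y (.inr ⟨2 * j + 1, by omega⟩) with hβ
  obtain ⟨hc1, hc2⟩ := hc
  -- the vector `e`
  let e : Fin 4 → Bool := fun i => xor (α i) (β i)
  have he : dot e e = true := by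
    have : ∀ a0 a1 a2 a3 b0 b1 b2 b3 : Bool,
        (xor (xor (a0 && a0) (a1 && a1)) (xor (a2 && a2) (a3 && a3))) ≠
          (xor (xor (b0 && b0) (b1 && b1)) (xor (b2 && b2) (b3 && b3))) →
        xor (xor (xor a0 b0 && xor a0 b0) (xor a1 b1 && xor a1 b1))
          (xor (xor a2 b2 && xor a2 b2) (xor a3 b3 && xor a3 b3)) = true := by
      decide
    exact this _ _ _ _ _ _ _ _ hc1
  have hue : ∀ u : Fin n, dot (y (.inl u)) e = false := by
    intro u
    have : ∀ a0 a1 a2 a3 b0 b1 b2 b3 x0 x1 x2 x3 : Bool,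
        (xor (xor (x0 && a0) (x1 && a1)) (xor (x2 && a2) (x3 && a3))) =
          (xor (xor (x0 && b0) (x1 && b1)) (xor (x2 && b2) (x3 && b3))) →
        xor (xor (x0 && xor a0 b0) (x1 && xor a1 b1))
          (xor (x2 && xor a2 b2) (x3 && xor a3 b3)) = false := by
      decide
    exact this _ _ _ _ _ _ _ _ _ _ _ _ (hc2 u)
  -- three sets suffice for `D1`
  let z : Fin n → Fin 3 → Bool := fun u k => dot (y (.inl u)) (basis e k)
  refine ⟨fun k => {u | z u k = true}, ?_⟩
  have hz : ∀ u k, z u k = true ↔ u ∈ (fun k => {u | z u k = true}) k := by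
    intro u k
    exact Iff.rfl
  have hodd3 : ∀ a b : Fin n, Odd (Nat.card {k : Fin 3 // a ∈ (fun k => {u | z u k = true}) k ∧
      b ∈ (fun k => {u | z u k = true}) k}) ↔ dot (y (.inl a)) (y (.inl b)) = true := by
    intro a b
    rw [odd3 (fun k => {u | z u k = true}) z hz a b]
    rw [basis_spec e (y (.inl a)) (y (.inl b)) he (hue a) (hue b)]
  intro v hv
  apply hX (Sum.inl v)
  refine Relation.TransGen.lift (fun u => (Sum.inl u : Fin n ⊕ Fin 514)) ?_ v v hv
  intro a b hab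
  rcases hab with ⟨h, h'⟩ | ⟨h, h'⟩
  · refine Or.inl ⟨Or.inl ⟨a, b, rfl, rfl, h⟩, ?_⟩
    rw [heven]
    rw [even_iff] at h'
    have := mt (hodd3 a b).2 h'
    simpa using this
  · refine Or.inr ⟨Or.inl ⟨b, a, rfl, rfl, h⟩, ?_⟩
    rw [hodd]
    exact (hodd3 a b).1 h'

end Pool.Agent.S09134
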