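import Pool.Statements.S10153
import Pool.Agent.Q253.CubicTD2

set_option autoImplicit false
open Pool Pool.MP_91f506_co

namespace Pool.Agent.S10153

/-- Every finite cubic graph has a nonnegative weighting of its total dominating sets with each vertex in sets of total weight at most 1 and overall weight at least 2, i.e. fractional total domatic number at least 2. -/
theorem result :
    ∀ (V : Type) [Fintype V] [DecidableEq V] (G : SimpleGraph V) [DecidableRel G.Adj],
      G.IsRegularOfDegree 3 →
      ∃ w : Finset V → ℝ,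
        (∀ S, 0 ≤ w S) ∧
        (∀ S, w S ≠ 0 → ∀ v : V, ∃ u ∈ S, G.Adj v u) ∧
        (∀ v : V, ∑ S ∈ Finset.univ.filter (fun S : Finset V => v ∈ S), w S ≤ 1) ∧
        2 ≤ ∑ S, w S := by
  intro V _ _ G _ h3
  obtain ⟨w, h1, h2, h4, h5⟩ := Pool.Agent.Q253.CubicTD.main G h3
  exact ⟨w, h1, h2, h4, h5⟩

end Pool.Agent.S10153
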