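import Pool.Statements.S10281
import Pool.Agent.Q161.SemiBaxter

/-! Both families are generated by the tree `(h,k) ↦ (h+1-j, k+j)_{j ≤ h}, (h+1, j)_{j ≤ k}` starting
from `(1,1)`: plane permutations by appending a last value (`h`, `k` = the number of active sites at
most, respectively above the last value), inversion sequences by appending an entry (`h` = length
minus maximum, `k` = the number of allowed values that are at most the maximum). -/

set_option autoImplicit false
open Pool Pool.MP_975621_co

namespace Pool.Agent.S10281

open Q161.SemiBaxter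

theorem plane_iff {n : ℕ} (σ : Equiv.Perm (Fin n)) :
    (∀ i j k l : Fin n, i < j → j < k → k < l →
          σ j < σ i → σ i < σ l → σ l < σ k →
          ∃ m : Fin n, j < m ∧ m < k ∧ σ i < σ m ∧ σ m < σ l) ↔ Plane σ := by
  constructor
  · rintro h a b d ha hb hd ⟨h1, h2, h3⟩
    obtain ⟨m, h4, h5, _⟩ := h ⟨a, by omega⟩ ⟨b, by omega⟩ ⟨b + 1, by omega⟩ ⟨d, hd⟩
      (by rw [Fin.lt_def]; exact ha) (by rw [Fin.lt_def]; simp) (by rw [Fin.lt_def]; exact hb)
      h1 h2 h3
    rw [Fin.lt_def] at h4 h5
    simp only at h4 h5
    omega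
  · intro h i j k l hij hjk hkl h1 h2 h3
    by_contra hc
    push Not at hc
    rw [Fin.lt_def] at hij hjk hkl h1 h2 h3
    -- all positions from `j` on (up to `k - 1`) have values below `σ i`
    have key : ∀ t : ℕ, ∀ ht : (j : ℕ) + t < k, (σ ⟨j + t, by omega⟩ : ℕ) < σ i := by
      intro t
      induction t with
      | zero => intro _; exact h1
      | succ t ih =>
        intro ht
        have ih' := ih (by omega)
        by_contra hge
        have hne1 : (σ ⟨j + (t + 1), by omega⟩ : ℕ) ≠ σ i := by
          intro he
          have := congrArg Fin.val (σ.injective (Fin.ext he))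
          simp only at this
          omega
        have hne2 : (σ ⟨j + (t + 1), by omega⟩ : ℕ) ≠ σ l := by
          intro he
          have := congrArg Fin.val (σ.injective (Fin.ext he))
          simp only at this
          omega
        have h4 := hc ⟨j + (t + 1), by omega⟩ (by rw [Fin.lt_def]; simp only; omega)
          (by rw [Fin.lt_def]; exact ht) (by rw [Fin.lt_def]; omega)
        rw [Fin.le_def] at h4
        exact h i (j + t) l (by omega) (by omega) l.2 ⟨ih', h2, by
          have : (σ l : ℕ) < σ ⟨j + (t + 1), by omega⟩ := by omega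
          exact this⟩
    have h5 := key (k - j - 1) (by omega)
    apply h i (k - 1) l (by omega) (by omega) l.2
    have e1 : (⟨j + (k - j - 1), by omega⟩ : Fin n) = ⟨k - 1, by omega⟩ := Fin.ext (by simp only; omega)
    have e2 : (⟨(k : ℕ) - 1 + 1, by omega⟩ : Fin n) = k := Fin.ext (by simp only; omega)
    rw [e1] at h5
    rw [e2]
    exact ⟨h5, h2, h3⟩

/-- For every n, the number of permutations of length n in which every 2154 occurrence extends to a 21354 occurrence equals the number of inversion sequences of length n avoiding the patterns 101 and 201. -/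
theorem result :
    ∀ n : ℕ,
      Nat.card {σ : Equiv.Perm (Fin n) //
        ∀ i j k l : Fin n, i < j → j < k → k < l →
          σ j < σ i → σ i < σ l → σ l < σ k →
          ∃ m : Fin n, j < m ∧ m < k ∧ σ i < σ m ∧ σ m < σ l}
      =
      Nat.card {e : Fin n → Fin n //
        (∀ i : Fin n, (e i).val ≤ i.val) ∧
        ∀ i j k : Fin n, i < j → j < k →
          ¬ (e i = e k ∧ e j < e i) ∧ ¬ (e j < e k ∧ e k < e i)} := by
  classical
  intro n
  have hL : Nat.card {σ : Equiv.Perm (Fin n) //
        ∀ i j k l : Fin n, i < j → j < k → k < l →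
          σ j < σ i → σ i < σ l → σ l < σ k →
          ∃ m : Fin n, j < m ∧ m < k ∧ σ i < σ m ∧ σ m < σ l} =
      Nat.card {σ : Equiv.Perm (Fin n) // Plane σ} :=
    Nat.card_congr (Equiv.subtypeEquivRight (fun σ => plane_iff σ))
  have hR : Nat.card {e : Fin n → Fin n //
        (∀ i : Fin n, (e i).val ≤ i.val) ∧
        ∀ i j k : Fin n, i < j → j < k →
          ¬ (e i = e k ∧ e j < e i) ∧ ¬ (e j < e k ∧ e k < e i)} = ((IS n).filter Av).card := by
    rw [← Nat.card_eq_finsetCard]
    refine Nat.card_congr
      { toFun := fun e => ⟨fun i => (e.1 i : ℕ), ?_⟩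
        invFun := fun e => ⟨fun i => ⟨e.1 i, ?_⟩, ?_⟩
        left_inv := ?_
        right_inv := ?_ }
    · rw [Finset.mem_filter, mem_IS]
      refine ⟨e.2.1, ?_⟩
      intro i j k hij hjk h
      have h1 := e.2.2 i j k hij hjk
      rcases lt_or_eq_of_le h.2 with h2 | h2
      · exact h1.2 ⟨h.1, h2⟩
      · have h3 := h.1
        simp only at h2 h3
        exact h1.1 ⟨Fin.ext h2.symm, by rw [Fin.lt_def]; omega⟩
    · have := (mem_IS.1 (Finset.mem_filter.1 e.2).1) i
      have := i.2
      omega
    · refine ⟨fun i => (mem_IS.1 (Finset.mem_filter.1 e.2).1) i, ?_⟩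
      intro i j k hij hjk
      have h1 := (Finset.mem_filter.1 e.2).2 i j k hij hjk
      simp only [Fin.mk.injEq, Fin.mk_lt_mk]
      constructor
      · rintro ⟨h2, h3⟩
        exact h1 ⟨by omega, by omega⟩
      · rintro ⟨h2, h3⟩
        exact h1 ⟨h2, h3.le⟩
    · intro e
      rfl
    · intro e
      rfl
  rw [hL, hR]
  cases n with
  | zero =>
    have h1 : Nat.card {σ : Equiv.Perm (Fin 0) // Plane σ} = 1 := by
      rw [Nat.card_eq_fintype_card, Fintype.card_subtype]
      have : (Finset.univ.filter (fun σ : Equiv.Perm (Fin 0) => Plane σ)) = {1} := by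
        ext σ
        simp only [Finset.mem_filter, Finset.mem_univ, true_and, Finset.mem_singleton]
        constructor
        · intro _; exact Subsingleton.elim _ _
        · rintro rfl a b d _ _ hd; omega
      rw [this]; rfl
    have h2 : ((IS 0).filter Av) = {Fin.elim0} := by
      ext e
      simp only [Finset.mem_filter, mem_IS, Finset.mem_singleton]
      constructor
      · intro _; exact Subsingleton.elim _ _
      · rintro rfl
        exact ⟨fun i => i.elim0, fun i => i.elim0⟩
    rw [h1, h2]; rfl
  | succ n => rw [card_plane, card_seq]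

end Pool.Agent.S10281
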