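import Pool.Statements.S10411
import Pool.Agent.Q106.MinRank.Real
-- import your own Pool.Agent.* helpers here

set_option autoImplicit false
open Pool Pool.MP_9d9bd3_co

namespace Pool.Agent.S10411

open Complex Matrix

/-- the eleven vectors: `e₁, e₂, e₃`, the null vectors `(0,1,i), (1,0,i), (1,i,0)`, each twice, and
two vectors orthogonal to the first two, respectively to the first and the third, of them -/
noncomputable def V : Matrix (Fin 11) (Fin 3) ℂ :=
  !![1, 0, 0; 0, 1, 0; 0, 0, 1; 0, 1, I; 0, 1, I; 1, 0, I; 1, 0, I; 1, I, 0; 1, I, 0;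
     I, I, -1; 1, I, -1]

/-- their Gram matrix for the symmetric bilinear form -/
noncomputable def B : Matrix (Fin 11) (Fin 11) ℂ := V * V.transpose

lemma B_symm : B.IsSymm := by
  unfold Matrix.IsSymm B
  rw [Matrix.transpose_mul, Matrix.transpose_transpose]

lemma B_apply (i j : Fin 11) : B i j = V i 0 * V j 0 + V i 1 * V j 1 + V i 2 * V j 2 := by
  simp [B, Matrix.mul_apply, Fin.sum_univ_three]

lemma B_rank : B.rank ≤ 3 := by
  have h1 : B.rank ≤ V.rank := Matrix.rank_mul_le_left _ _
  have h2 : V.rank ≤ 3 := by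
    have := Matrix.rank_le_width V
    simpa using this
  exact h1.trans h2

/-- There is a finite simple graph G and a complex symmetric matrix with G's off-diagonal nonzero pattern whose rank is below the rank of every real symmetric matrix with that pattern, i.e. real minimum rank exceeds complex minimum rank. -/
theorem result :
    ∃ n : ℕ, ∃ G : SimpleGraph (Fin n), ∃ B : Matrix (Fin n) (Fin n) ℂ,
      B.IsSymm ∧ (∀ i j : Fin n, i ≠ j → (B i j ≠ 0 ↔ G.Adj i j)) ∧
      ∀ A : Matrix (Fin n) (Fin n) ℝ, A.IsSymm →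
        (∀ i j : Fin n, i ≠ j → (A i j ≠ 0 ↔ G.Adj i j)) →
        B.rank < A.rank := by
  refine ⟨11, { Adj := fun i j => i ≠ j ∧ B i j ≠ 0, symm := ?_, loopless := ?_ }, B, B_symm, ?_, ?_⟩
  · constructor
    intro i j h
    refine ⟨h.1.symm, ?_⟩
    rw [show B j i = B i j from B_symm.apply i j]
    exact h.2
  · constructor
    intro i h
    exact h.1 rfl
  · intro i j hij
    exact ⟨fun h => ⟨hij, h⟩, fun h => h.2⟩
  · intro A hs hA
    by_contra hcon
    have hr : A.rank ≤ 3 := by
      have := B_rank
      omega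
    have hz : ∀ i j : Fin 11, i ≠ j → B i j = 0 → A i j = 0 := by
      intro i j hij hb
      by_contra ha
      exact ((hA i j hij).mp ha).2 hb
    have hn : ∀ i j : Fin 11, i ≠ j → B i j ≠ 0 → A i j ≠ 0 := by
      intro i j hij hb
      exact (hA i j hij).mpr ⟨hij, hb⟩
    have hs' : ∀ i j, A i j = A j i := fun i j => hs.apply j i
    apply Q106.MinRank.no_real hs' hr
    all_goals first
      | (apply hz _ _ (by decide); rw [B_apply]; simp [V])
      | (apply hn _ _ (by decide); rw [B_apply]; simp [V])

end Pool.Agent.S10411
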