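import Pool.Statements.S12606
-- import your own Pool.Agent.* helpers here

set_option autoImplicit false
open scoped Classical
open Pool Pool.MP_fd346d_co

namespace Pool.Agent.S12606

/-- the two-element antichain -/
inductive Two : Type
  | a
  | b
  deriving DecidableEq

instance : Fintype Two := ⟨{Two.a, Two.b}, by intro x; cases x <;> simp⟩

instance : PartialOrder Two where
  le x y := x = y
  le_refl _ := rfl
  le_trans _ _ _ h h' := h.trans h'
  le_antisymm _ _ h _ := h

theorem two_le (x y : Two) : x ≤ y ↔ x = y := Iff.rfl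

/-- position of an element of `Bool × Bool` in the first or second linear extension -/
def pos (i : Fin 2) (x : Bool × Bool) : ℕ :=
  if i = 0 then (if x.1 then 2 else 0) + (if x.2 then 1 else 0)
  else (if x.2 then 2 else 0) + (if x.1 then 1 else 0)

/-- position of an element of the product -/
def key (i : Fin 2) (x : (Bool × Bool) × Two) : ℕ :=
  (match x.2 with
    | Two.a => if i = 0 then 0 else 4
    | Two.b => if i = 0 then 4 else 0) + pos i x.1

theorem key_inj (i : Fin 2) (x y : (Bool × Bool) × Two) (h : key i x = key i y) : x = y := by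
  revert h
  obtain ⟨⟨x1, x2⟩, x3⟩ := x
  obtain ⟨⟨y1, y2⟩, y3⟩ := y
  fin_cases i <;> cases x1 <;> cases x2 <;> cases x3 <;> cases y1 <;> cases y2 <;> cases y3 <;>
    simp [key, pos]

theorem key_le (x y : (Bool × Bool) × Two) : x ≤ y ↔ ∀ i : Fin 2, key i x ≤ key i y := by
  obtain ⟨⟨x1, x2⟩, x3⟩ := x
  obtain ⟨⟨y1, y2⟩, y3⟩ := y
  rw [Fin.forall_fin_two]
  cases x1 <;> cases x2 <;> cases x3 <;> cases y1 <;> cases y2 <;> cases y3 <;>
    simp [key, pos, Prod.le_def, two_le]

theorem two_of_not_total {P : Type} [PartialOrder P] (x y : P) (hxy : ¬ x ≤ y) (hyx : ¬ y ≤ x)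
    (a : ℕ) (r : Fin a → P → P → Prop) (hr : ∀ i, ∀ x y, r i x y ∨ r i y x)
    (h : ∀ x y, x ≤ y ↔ ∀ i, r i x y) : 2 ≤ a := by
  by_contra hlt
  push Not at hlt
  interval_cases a
  · exact hxy ((h x y).2 fun i => i.elim0)
  · rcases hr 0 x y with h1 | h1
    · exact hxy ((h x y).2 fun i => by rw [Subsingleton.elim i 0]; exact h1)
    · exact hyx ((h y x).2 fun i => by rw [Subsingleton.elim i 0]; exact h1)

/-- The negation of the preceding statement: For all posets P, Q with at least two elements and finite dimension, dim P + dim Q ≤ dim(P×Q) + b, where b counts the factors lacking a least or greatest element; dimension means the least number of linear orders whose intersection is the order. -/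
theorem result :
    ¬ (∀ (P Q : Type) [PartialOrder P] [PartialOrder Q], Nontrivial P → Nontrivial Q →
      (∃ d : ℕ, ∃ r : Fin d → P → P → Prop,
        (∀ i, (∀ x, r i x x) ∧ (∀ x y z, r i x y → r i y z → r i x z) ∧
          (∀ x y, r i x y → r i y x → x = y) ∧ (∀ x y, r i x y ∨ r i y x)) ∧
        ∀ x y, x ≤ y ↔ ∀ i, r i x y) →
      (∃ d : ℕ, ∃ r : Fin d → Q → Q → Prop,
        (∀ i, (∀ x, r i x x) ∧ (∀ x y z, r i x y → r i y z → r i x z) ∧
          (∀ x y, r i x y → r i y x → x = y) ∧ (∀ x y, r i x y ∨ r i y x)) ∧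
        ∀ x y, x ≤ y ↔ ∀ i, r i x y) →
      ∀ n : ℕ,
        (∃ r : Fin n → P × Q → P × Q → Prop,
          (∀ i, (∀ x, r i x x) ∧ (∀ x y z, r i x y → r i y z → r i x z) ∧
            (∀ x y, r i x y → r i y x → x = y) ∧ (∀ x y, r i x y ∨ r i y x)) ∧
          ∀ x y, x ≤ y ↔ ∀ i, r i x y) →
        ∃ a c : ℕ,
          a + c ≤ n + ((if (∃ x : P, ∀ y, x ≤ y) ∧ (∃ x : P, ∀ y, y ≤ x) then 0 else 1) +
                       (if (∃ x : Q, ∀ y, x ≤ y) ∧ (∃ x : Q, ∀ y, y ≤ x) then 0 else 1)) ∧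
          (∃ r : Fin a → P → P → Prop,
            (∀ i, (∀ x, r i x x) ∧ (∀ x y z, r i x y → r i y z → r i x z) ∧
              (∀ x y, r i x y → r i y x → x = y) ∧ (∀ x y, r i x y ∨ r i y x)) ∧
            ∀ x y, x ≤ y ↔ ∀ i, r i x y) ∧
          (∃ r : Fin c → Q → Q → Prop,
            (∀ i, (∀ x, r i x x) ∧ (∀ x y z, r i x y → r i y z → r i x z) ∧
              (∀ x y, r i x y → r i y x → x = y) ∧ (∀ x y, r i x y ∨ r i y x)) ∧
            ∀ x y, x ≤ y ↔ ∀ i, r i x y)) := by
  intro H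
  have hP : ∃ r : Fin 2 → (Bool × Bool) → (Bool × Bool) → Prop,
        (∀ i, (∀ x, r i x x) ∧ (∀ x y z, r i x y → r i y z → r i x z) ∧
          (∀ x y, r i x y → r i y x → x = y) ∧ (∀ x y, r i x y ∨ r i y x)) ∧
        ∀ x y, x ≤ y ↔ ∀ i, r i x y := by
    refine ⟨fun i x y => pos i x ≤ pos i y, ?_, ?_⟩
    · intro i
      refine ⟨fun x => le_rfl, fun x y z => le_trans, ?_, fun x y => le_total _ _⟩
      rintro ⟨x1, x2⟩ ⟨y1, y2⟩ h1 h2
      have h := le_antisymm h1 h2
      revert h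
      fin_cases i <;> cases x1 <;> cases x2 <;> cases y1 <;> cases y2 <;> simp [pos]
    · rintro ⟨x1, x2⟩ ⟨y1, y2⟩
      rw [Fin.forall_fin_two]
      cases x1 <;> cases x2 <;> cases y1 <;> cases y2 <;> simp [pos, Prod.le_def]
  have hQ : ∃ r : Fin 2 → Two → Two → Prop,
        (∀ i, (∀ x, r i x x) ∧ (∀ x y z, r i x y → r i y z → r i x z) ∧
          (∀ x y, r i x y → r i y x → x = y) ∧ (∀ x y, r i x y ∨ r i y x)) ∧
        ∀ x y, x ≤ y ↔ ∀ i, r i x y := by
    refine ⟨fun i x y => (if x = (if i = 0 then Two.a else Two.b) then (0 : ℕ) else 1)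
      ≤ (if y = (if i = 0 then Two.a else Two.b) then (0 : ℕ) else 1), ?_, ?_⟩
    · intro i
      refine ⟨fun x => le_rfl, fun x y z => le_trans, ?_, fun x y => le_total _ _⟩
      intro x y h1 h2
      have h := le_antisymm h1 h2
      revert h
      fin_cases i <;> cases x <;> cases y <;> simp
    · intro x y
      rw [Fin.forall_fin_two]
      cases x <;> cases y <;> simp [two_le]
  have hPQ : ∃ r : Fin 2 → (Bool × Bool) × Two → (Bool × Bool) × Two → Prop,
        (∀ i, (∀ x, r i x x) ∧ (∀ x y z, r i x y → r i y z → r i x z) ∧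
          (∀ x y, r i x y → r i y x → x = y) ∧ (∀ x y, r i x y ∨ r i y x)) ∧
        ∀ x y, x ≤ y ↔ ∀ i, r i x y :=
    ⟨fun i x y => key i x ≤ key i y, fun i => ⟨fun x => le_rfl, fun x y z => le_trans,
      fun x y h1 h2 => key_inj i x y (le_antisymm h1 h2), fun x y => le_total _ _⟩, key_le⟩
  have hnt : Nontrivial Two := ⟨Two.a, Two.b, by simp⟩
  obtain ⟨a, c, hac, ⟨r, hr, hr'⟩, ⟨s, hs, hs'⟩⟩ :=
    H (Bool × Bool) Two inferInstance hnt ⟨2, hP⟩ ⟨2, hQ⟩ 2 hPQ
  have ha : 2 ≤ a := two_of_not_total ((true, false) : Bool × Bool) (false, true)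
    (by simp [Prod.le_def]) (by simp [Prod.le_def]) a r (fun i => (hr i).2.2.2) hr'
  have hc : 2 ≤ c := two_of_not_total Two.a Two.b
    (by simp [two_le]) (by simp [two_le]) c s (fun i => (hs i).2.2.2) hs'
  have hb : (∃ x : Bool × Bool, ∀ y, x ≤ y) ∧ (∃ x : Bool × Bool, ∀ y, y ≤ x) :=
    ⟨⟨(false, false), by rintro ⟨y1, y2⟩; simp [Prod.le_def]⟩,
      ⟨(true, true), by rintro ⟨y1, y2⟩; simp [Prod.le_def, Bool.le_true]⟩⟩
  rw [if_pos hb] at hac
  split_ifs at hac <;> omega

end Pool.Agent.S12606
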