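import Pool.Statements.S13204
import Pool.Agent.Q172.SpanCircle

set_option autoImplicit false
open Pool Pool.MP_58de27_gt
open Set

namespace Pool.Agent.S13204

/-- The negation of the preceding statement: For every simple closed curve C in a metric space, the span of C (sup of ε with a connected Z in C×C, equal projections, all pairs at distance ≥ ε) equals the semi-span (same, second projection contained in first). -/
theorem result :
    ¬ (∀ (X : Type) [MetricSpace X] (C : Set X),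
      Nonempty (↥C ≃ₜ ↥(Metric.sphere (0 : ℂ) 1)) →
      sSup {ε : ℝ | ∃ Z : Set (X × X), Z ⊆ C ×ˢ C ∧ IsConnected Z ∧
          Prod.fst '' Z = Prod.snd '' Z ∧ ∀ p ∈ Z, ε ≤ dist p.1 p.2}
        = sSup {ε : ℝ | ∃ Z : Set (X × X), Z ⊆ C ×ˢ C ∧ IsConnected Z ∧
          Prod.snd '' Z ⊆ Prod.fst '' Z ∧ ∀ p ∈ Z, ε ≤ dist p.1 p.2}) := by
  intro H
  obtain ⟨Y, m, e, ε₀, h0, h1, h2, ⟨Z, hZ, hZf, hZd⟩, h4⟩ := Q172.SpanCircle.exists_circle
  have heq := H Y univ ⟨(Homeomorph.Set.univ Y).trans (e.symm.trans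
    (AddCircle.homeomorphCircle (T := 8) (by norm_num)))⟩
  have hle : sSup {ε : ℝ | ∃ Z : Set (Y × Y), Z ⊆ univ ×ˢ univ ∧ IsConnected Z ∧
      Prod.fst '' Z = Prod.snd '' Z ∧ ∀ p ∈ Z, ε ≤ dist p.1 p.2} ≤ ε₀ := by
    refine Real.sSup_le ?_ h0
    rintro ε ⟨Z, -, hZ, hZe, hZd⟩
    obtain ⟨p, hp, hpd⟩ := h4 Z hZ hZe
    exact (hZd p hp).trans hpd
  have hge : 1 ≤ sSup {ε : ℝ | ∃ Z : Set (Y × Y), Z ⊆ univ ×ˢ univ ∧ IsConnected Z ∧
      Prod.snd '' Z ⊆ Prod.fst '' Z ∧ ∀ p ∈ Z, ε ≤ dist p.1 p.2} := by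
    refine le_csSup ⟨1, ?_⟩ ⟨Z, by simp, hZ, by rw [hZf]; exact subset_univ _, hZd⟩
    rintro ε ⟨Z, -, hZ, -, hZd⟩
    obtain ⟨p, hp⟩ := hZ.nonempty
    exact (hZd p hp).trans (h2 _ _)
  rw [heq] at hle
  linarith

end Pool.Agent.S13204
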