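import Pool.Statements.S16181
import Pool.Agent.H304R2.Lam

set_option autoImplicit false
open Pool Pool.MP_192724_nt

namespace Pool.Agent.S16181

/-- The Liouville sign. -/
private def lam (m : ℕ) : ℤ := (-1 : ℤ) ^ (ArithmeticFunction.cardFactors m)

private lemma lam_mul {m n : ℕ} (hm : m ≠ 0) (hn : n ≠ 0) : lam (m * n) = lam m * lam n := by
  unfold lam
  rw [ArithmeticFunction.cardFactors_mul hm hn, pow_add]

private lemma lam_two : lam 2 = -1 := by
  unfold lam
  rw [ArithmeticFunction.cardFactors_apply_prime Nat.prime_two]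
  norm_num

private lemma lam_val (m : ℕ) : lam m = 1 ∨ lam m = -1 := neg_one_pow_eq_or ℤ _

/-- The Liouville function is not eventually periodic. -/
private lemma not_periodic (h : ℕ) (hh : 0 < h) (M : ℕ)
    (H : ∀ m, M ≤ m → lam m = lam (m + h)) : False := by
  have step : ∀ a, M + 1 ≤ a → lam a = lam (a + 1) := by
    intro a ha
    have h1 : M ≤ h * a := by nlinarith
    have h2 := H (h * a) h1
    rw [show h * a + h = h * (a + 1) by ring, lam_mul hh.ne' (by omega),
      lam_mul hh.ne' (by omega)] at h2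
    rcases lam_val h with h3 | h3 <;> rw [h3] at h2 <;> linarith
  have all : ∀ k, lam (M + 1 + k) = lam (M + 1) := by
    intro k
    induction k with
    | zero => rfl
    | succ k ih => rw [← ih, ← add_assoc]; exact (step _ (by omega)).symm
  have h1 := all (M + 1)
  rw [show M + 1 + (M + 1) = 2 * (M + 1) by ring, lam_mul (by norm_num) (by omega), lam_two] at h1
  rcases lam_val (M + 1) with h3 | h3 <;> rw [h3] at h1 <;> norm_num at h1

/-- The case of a difference of two squares. -/
private lemma square_case (t : ℕ) (ht : 0 < t) (N : ℕ) :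
    ∃ n, N ≤ n ∧ t < n ∧ lam ((n - t) * (n + t)) = -1 := by
  by_contra hcon
  push Not at hcon
  refine not_periodic (2 * t) (by omega) (N + 1) ?_
  intro m hm
  have h1 := hcon (m + t) (by omega) (by omega)
  rw [show m + t - t = m by omega, show m + t + t = m + 2 * t by ring,
    lam_mul (by omega) (by omega)] at h1
  rcases lam_val m with h2 | h2 <;> rcases lam_val (m + 2 * t) with h3 | h3 <;>
    rw [h2, h3] at h1 ⊢ <;> norm_num at h1

/-- For every nonzero integer d, there are infinitely many n ≥ 1 such that n²+d is positive and has an odd number of prime factors counted with multiplicity, i.e. the Liouville function of n²+d equals −1. -/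
theorem result :
    ∀ d : ℤ, d ≠ 0 →
      Set.Infinite {n : ℕ | 1 ≤ n ∧ 0 < (n : ℤ) ^ 2 + d ∧
        (-1 : ℤ) ^ (ArithmeticFunction.cardFactors (((n : ℤ) ^ 2 + d).toNat)) = -1} := by
  intro d hd
  rw [Set.infinite_iff_exists_gt]
  intro A
  by_cases hsq : IsSquare ((0 : ℤ) ^ 2 - 4 * d)
  · -- `d = - t ^ 2`
    obtain ⟨s, hs⟩ := hsq
    have h2 : (2 : ℤ) ∣ s := by
      have : (2 : ℤ) ∣ s * s := ⟨-2 * d, by rw [← hs]; ring⟩
      exact (Int.prime_two.dvd_or_dvd this).elim id id
    obtain ⟨u, rfl⟩ := h2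
    have hu : d = -(u ^ 2) := by nlinarith
    have hu0 : 0 < u.natAbs := by
      rw [Int.natAbs_pos]
      rintro rfl
      exact hd (by rw [hu]; ring)
    obtain ⟨n, hn1, hn2, hn3⟩ := square_case u.natAbs hu0 (A + 1)
    have e : (n : ℤ) ^ 2 + d = (((n - u.natAbs) * (n + u.natAbs) : ℕ) : ℤ) := by
      rw [hu]
      push_cast [Nat.cast_sub hn2.le]
      have h5 : (|u| : ℤ) * |u| = u ^ 2 := by rw [abs_mul_abs_self]; ring
      nlinarith
    refine ⟨n, ⟨by omega, ?_, ?_⟩, by omega⟩
    · rw [e]
      have : 0 < (n - u.natAbs) * (n + u.natAbs) := Nat.mul_pos (by omega) (by omega)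
      exact_mod_cast this
    · rw [e, Int.toNat_natCast]
      exact hn3
  · obtain ⟨N₀, hN⟩ := Pool.Agent.H304R2.main_lam 0 d hsq (-1) (Or.inr rfl) (1 / 2) (by norm_num)
    by_contra hcon
    push Not at hcon
    -- all solutions are at most `B`
    set B : ℕ := A + d.natAbs + 1 with hB
    set N : ℕ := max N₀ ((B + 1) ^ 2) with hNdef
    have h1 := hN N (le_max_left _ _)
    have h2 : ((Finset.Icc 1 N).filter (fun n : ℕ =>
        (-1 : ℤ) ^ (ArithmeticFunction.cardFactors ((n : ℤ) ^ 2 + 0 * n + d).natAbs) = -1)) ⊆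
        Finset.Icc 1 B := by
      intro n hn
      rw [Finset.mem_filter, Finset.mem_Icc] at hn
      rw [Finset.mem_Icc]
      refine ⟨hn.1.1, ?_⟩
      by_contra hnB
      push Not at hnB
      have hnd : d.natAbs < n := by omega
      have hnA : A < n := by omega
      have hpos : 0 < (n : ℤ) ^ 2 + d := by
        have h3 : (d.natAbs : ℤ) < n := by exact_mod_cast hnd
        have h4 : -(d.natAbs : ℤ) ≤ d := by
          rw [Int.natCast_natAbs]
          exact neg_abs_le d
        have h5 : (1 : ℤ) ≤ n := by exact_mod_cast hn.1.1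
        nlinarith
      have h6 := hcon n ⟨hn.1.1, hpos, ?_⟩
      · omega
      · have e : ((n : ℤ) ^ 2 + d).toNat = ((n : ℤ) ^ 2 + 0 * n + d).natAbs := by
          rw [zero_mul, add_zero]
          omega
        rw [e]
        exact hn.2
    have h3 := Finset.card_le_card h2
    rw [Nat.card_Icc] at h3
    have h4 : (((Finset.Icc 1 N).filter (fun n : ℕ =>
        (-1 : ℤ) ^ (ArithmeticFunction.cardFactors ((n : ℤ) ^ 2 + 0 * n + d).natAbs) = -1)).card : ℝ)
        ≤ B := by exact_mod_cast (by simpa using h3)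
    have h5 : ((B : ℝ) + 1) ≤ (N : ℝ) ^ (1 - (1 / 2 : ℝ)) := by
      have h6 : (((B : ℝ) + 1) ^ 2) ≤ N := by
        have : (B + 1) ^ 2 ≤ N := le_max_right _ _
        exact_mod_cast this
      have h7 : ((B : ℝ) + 1) = (((B : ℝ) + 1) ^ 2) ^ (1 - (1 / 2 : ℝ)) := by
        rw [← Real.rpow_natCast, ← Real.rpow_mul (by positivity)]
        norm_num
      rw [h7]
      exact Real.rpow_le_rpow (by positivity) h6 (by norm_num)
    linarith

end Pool.Agent.S16181
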